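import Pool.Agent.Strip051.G.I5000_5470.DgY
import Pool.Agent.Strip051.G.I5000_5470.Crn12B

/-! # The corner (1, 1, 2): the closed alternatives (generated) -/

set_option linter.all false

namespace Pool.Agent.Strip051.G.I5000_5470.Tab

open Pool.Agent.Strip051.PB Pool.Agent.StripNear Pool.Agent.Strip051.LC

theorem alt12cB_A123_01 {κ x : ℝ} (hκ : κ * h0 = ken x) (hx : ((536870912 : ℕ) : ℝ) / S ≤ x) (hx' : x ≤ (((536870912 : ℕ) : ℝ) + (50465866 : ℕ)) / S) :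
    AltEA 3 κ (eng.v x) (3 / 40) (tnt (h0 * x) (3 / 10)) PP tK tL tC pcB (scP esg pd) [⟨0, 1, 0, 67108864⟩, ⟨1, 1, 0, 67108864⟩, ⟨2, 2, 0, 16777216⟩] 1 2 3 0 1 (sgb true) (sgb false) x :=
  alt12B_A123_01 hκ hx hx' (DG.dgB_A123_01 hκ hx hx')

theorem alt12cB_A123_02 {κ x : ℝ} (hκ : κ * h0 = ken x) (hx : ((536870912 : ℕ) : ℝ) / S ≤ x) (hx' : x ≤ (((536870912 : ℕ) : ℝ) + (50465866 : ℕ)) / S) :
    AltEA 3 κ (eng.v x) (3 / 40) (tnt (h0 * x) (3 / 10)) PP tK tL tC pcB (scP esg pd) [⟨0, 1, 0, 67108864⟩, ⟨1, 1, 0, 67108864⟩, ⟨2, 2, 0, 16777216⟩] 1 2 3 0 2 (sgb true) (sgb false) x :=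
  alt12B_A123_02 hκ hx hx' (DG.dgB_A123_02 hκ hx hx')

theorem alt12cB_A123_03 {κ x : ℝ} (hκ : κ * h0 = ken x) (hx : ((536870912 : ℕ) : ℝ) / S ≤ x) (hx' : x ≤ (((536870912 : ℕ) : ℝ) + (50465866 : ℕ)) / S) :
    AltEA 3 κ (eng.v x) (3 / 40) (tnt (h0 * x) (3 / 10)) PP tK tL tC pcB (scP esg pd) [⟨0, 1, 0, 67108864⟩, ⟨1, 1, 0, 67108864⟩, ⟨2, 2, 0, 16777216⟩] 1 2 3 0 3 (sgb true) (sgb false) x :=
  alt12B_A123_03 hκ hx hx' (DG.dgB_A123_03 hκ hx hx')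

theorem alt12cB_B123_04p {κ x : ℝ} (hκ : κ * h0 = ken x) (hx : ((536870912 : ℕ) : ℝ) / S ≤ x) (hx' : x ≤ (((536870912 : ℕ) : ℝ) + (50465866 : ℕ)) / S) :
    AltEB 3 κ (eng.v x) (3 / 40) (tnt (h0 * x) (3 / 10)) PP tK tL tC pcB (scP esg pd) [⟨0, 1, 0, 67108864⟩, ⟨1, 1, 0, 67108864⟩, ⟨2, 2, 0, 16777216⟩] 1 2 3 0 4 (sgb true) (sgb true) x :=
  alt12B_B123_04p hκ hx hx' (DG.dgB_B123_04p hκ hx hx')

theorem alt12cB_B123_05p {κ x : ℝ} (hκ : κ * h0 = ken x) (hx : ((536870912 : ℕ) : ℝ) / S ≤ x) (hx' : x ≤ (((536870912 : ℕ) : ℝ) + (50465866 : ℕ)) / S) :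
    AltEB 3 κ (eng.v x) (3 / 40) (tnt (h0 * x) (3 / 10)) PP tK tL tC pcB (scP esg pd) [⟨0, 1, 0, 67108864⟩, ⟨1, 1, 0, 67108864⟩, ⟨2, 2, 0, 16777216⟩] 1 2 3 0 5 (sgb true) (sgb true) x :=
  alt12B_B123_05p hκ hx hx' (DG.dgB_B123_05p hκ hx hx')

theorem alt12cB_B123_06p {κ x : ℝ} (hκ : κ * h0 = ken x) (hx : ((536870912 : ℕ) : ℝ) / S ≤ x) (hx' : x ≤ (((536870912 : ℕ) : ℝ) + (50465866 : ℕ)) / S) :
    AltEB 3 κ (eng.v x) (3 / 40) (tnt (h0 * x) (3 / 10)) PP tK tL tC pcB (scP esg pd) [⟨0, 1, 0, 67108864⟩, ⟨1, 1, 0, 67108864⟩, ⟨2, 2, 0, 16777216⟩] 1 2 3 0 6 (sgb true) (sgb true) x :=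
  alt12B_B123_06p hκ hx hx' (DG.dgB_B123_06p hκ hx hx')

theorem alt12cB_B213_04m {κ x : ℝ} (hκ : κ * h0 = ken x) (hx : ((536870912 : ℕ) : ℝ) / S ≤ x) (hx' : x ≤ (((536870912 : ℕ) : ℝ) + (50465866 : ℕ)) / S) :
    AltEB 3 κ (eng.v x) (3 / 40) (tnt (h0 * x) (3 / 10)) PP tK tL tC pcB (scP esg pd) [⟨0, 1, 0, 67108864⟩, ⟨1, 1, 0, 67108864⟩, ⟨2, 2, 0, 16777216⟩] 2 1 3 0 4 (sgb true) (sgb false) x :=
  alt12B_B213_04m hκ hx hx' (DG.dgB_B213_04m hκ hx hx')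

theorem alt12cB_B213_05m {κ x : ℝ} (hκ : κ * h0 = ken x) (hx : ((536870912 : ℕ) : ℝ) / S ≤ x) (hx' : x ≤ (((536870912 : ℕ) : ℝ) + (50465866 : ℕ)) / S) :
    AltEB 3 κ (eng.v x) (3 / 40) (tnt (h0 * x) (3 / 10)) PP tK tL tC pcB (scP esg pd) [⟨0, 1, 0, 67108864⟩, ⟨1, 1, 0, 67108864⟩, ⟨2, 2, 0, 16777216⟩] 2 1 3 0 5 (sgb true) (sgb false) x :=
  alt12B_B213_05m hκ hx hx' (DG.dgB_B213_05m hκ hx hx')

theorem alt12cB_B213_06m {κ x : ℝ} (hκ : κ * h0 = ken x) (hx : ((536870912 : ℕ) : ℝ) / S ≤ x) (hx' : x ≤ (((536870912 : ℕ) : ℝ) + (50465866 : ℕ)) / S) :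
    AltEB 3 κ (eng.v x) (3 / 40) (tnt (h0 * x) (3 / 10)) PP tK tL tC pcB (scP esg pd) [⟨0, 1, 0, 67108864⟩, ⟨1, 1, 0, 67108864⟩, ⟨2, 2, 0, 16777216⟩] 2 1 3 0 6 (sgb true) (sgb false) x :=
  alt12B_B213_06m hκ hx hx' (DG.dgB_B213_06m hκ hx hx')

end Pool.Agent.Strip051.G.I5000_5470.Tab
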