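import Pool.Agent.Strip051.G.I5000_5470.Gn
import Pool.Agent.Strip051.PB.Corns
import Pool.Agent.Strip051.PB.CornW

/-! # Certificates of the aligned corners (generated) -/

set_option linter.all false

namespace Pool.Agent.Strip051.G.I5000_5470.Tab.CG

open Pool.Agent.Strip051.PB

def A011E_000 :
    ∃ t, chk3 (onCell 0 67108864 0 1073741824 536870912 50465866 (corT true 1 c0B cA011E gB0q0 gB0q1 gB0q1 gB1q1 true false)) t 1 1 1 = true :=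
  ⟨(T.l 1), by decide +kernel⟩

def A011L_003 :
    ∃ t, chk3 (onCell 0 67108864 0 1073741824 536870912 50465866 (corT true 1 c0B cA011L gB0q0 gB0q1 gB3q1 gB4q1 false true)) t 1 1 1 = true :=
  ⟨(T.l 2), by decide +kernel⟩

def A011L_004 :
    ∃ t, chk3 (onCell 0 67108864 0 1073741824 536870912 50465866 (corT true 1 c0B cA011L gB0q0 gB0q1 gB4q1 gB5q1 true true)) t 1 1 1 = true :=
  ⟨(T.l 2), by decide +kernel⟩

def A011L_005 :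
    ∃ t, chk3 (onCell 0 67108864 0 1073741824 536870912 50465866 (corT true 1 c0B cA011L gB0q0 gB0q1 gB5q1 gB6q1 true true)) t 1 1 1 = true :=
  ⟨(T.l 2), by decide +kernel⟩

def A011R_040 :
    ∃ t, chk3 (onCell 0 67108864 0 1073741824 536870912 50465866 (corT true 1 c0B cA011R gB0q0 gB4q1 gB0q1 gB1q1 true false)) t 1 1 1 = true :=
  ⟨(T.b (T.b (T.b (T.b (T.l 204) (T.a (T.l 204) (T.l 204))) (T.l 1)) (T.l 1)) (T.l 1)), by decide +kernel⟩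

def A011R_050 :
    ∃ t, chk3 (onCell 0 67108864 0 1073741824 536870912 50465866 (corT true 1 c0B cA011R gB0q0 gB5q1 gB0q1 gB1q1 true false)) t 1 1 1 = true :=
  ⟨(T.b (T.b (T.b (T.a (T.l 204) (T.l 204)) (T.b (T.l 204) (T.b (T.l 204) (T.b (T.a (T.l 204) (T.l 204)) (T.a (T.l 1) (T.b (T.l 220) (T.l 1))))))) (T.l 1)) (T.l 1)), by decide +kernel⟩

def A011R_060 :
    ∃ t, chk3 (onCell 0 67108864 0 1073741824 536870912 50465866 (corX 1 c0B cA011R tA011R gB0q0 gB6q1 gB0q1 gB1q1 gB0q1 true false)) t 1 1 1 = true :=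
  ⟨(T.b (T.b (T.b (T.a (T.l 3) (T.l 0)) (T.a (T.l 3) (T.l 3))) (T.a (T.l 3) (T.l 3))) (T.l 1)), by decide +kernel⟩

def A011R_140 :
    ∃ t, chk3 (onCell 0 67108864 0 1073741824 536870912 50465866 (corT true 1 c0B cA011R gB1q0 gB4q1 gB0q1 gB1q1 true false)) t 1 1 1 = true :=
  ⟨(T.b (T.b (T.l 1) (T.l 1)) (T.l 1)), by decide +kernel⟩

def A011R_150 :
    ∃ t, chk3 (onCell 0 67108864 0 1073741824 536870912 50465866 (corT true 1 c0B cA011R gB1q0 gB5q1 gB0q1 gB1q1 true false)) t 1 1 1 = true :=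
  ⟨(T.b (T.b (T.b (T.l 0) (T.l 0)) (T.l 1)) (T.l 1)), by decide +kernel⟩

def A011R_160 :
    ∃ t, chk3 (onCell 0 67108864 0 1073741824 536870912 50465866 (corT true 1 c0B cA011R gB1q0 gB6q1 gB0q1 gB1q1 true false)) t 1 1 1 = true :=
  ⟨(T.b (T.b (T.b (T.l 816) (T.l 816)) (T.b (T.b (T.l 816) (T.l 1)) (T.l 1))) (T.l 1)), by decide +kernel⟩

def A011R_240 :
    ∃ t, chk3 (onCell 0 67108864 0 1073741824 536870912 50465866 (corT true 1 c0B cA011R gB2q0 gB4q1 gB0q1 gB1q1 true false)) t 1 1 1 = true :=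
  ⟨(T.l 1), by decide +kernel⟩

def A011R_250 :
    ∃ t, chk3 (onCell 0 67108864 0 1073741824 536870912 50465866 (corT true 1 c0B cA011R gB2q0 gB5q1 gB0q1 gB1q1 true false)) t 1 1 1 = true :=
  ⟨(T.l 1), by decide +kernel⟩

def A011R_260 :
    ∃ t, chk3 (onCell 0 67108864 0 1073741824 536870912 50465866 (corT true 1 c0B cA011R gB2q0 gB6q1 gB0q1 gB1q1 true false)) t 1 1 1 = true :=
  ⟨(T.b (T.l 1) (T.l 1)), by decide +kernel⟩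

def A011R_340 :
    ∃ t, chk3 (onCell 0 67108864 0 1073741824 536870912 50465866 (corT true 1 c0B cA011R gB3q0 gB4q1 gB0q1 gB1q1 true false)) t 1 1 1 = true :=
  ⟨(T.l 1), by decide +kernel⟩

def A011R_350 :
    ∃ t, chk3 (onCell 0 67108864 0 1073741824 536870912 50465866 (corT true 1 c0B cA011R gB3q0 gB5q1 gB0q1 gB1q1 true false)) t 1 1 1 = true :=
  ⟨(T.l 1), by decide +kernel⟩

def A011R_360 :
    ∃ t, chk3 (onCell 0 67108864 0 1073741824 536870912 50465866 (corT true 1 c0B cA011R gB3q0 gB6q1 gB0q1 gB1q1 true false)) t 1 1 1 = true :=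
  ⟨(T.l 1), by decide +kernel⟩

def A012E_000 :
    ∃ t, chk3 (onCell 0 67108864 0 1073741824 536870912 50465866 (corX 1 c0B cA012E tA012E gB0q0 gB0q1 gB0q2 gB1q2 gB0q2 true true)) t 1 1 1 = true :=
  ⟨(T.b (T.b (T.l 1) (T.b (T.l 1) (T.b (T.l 1) (T.b (T.l 1) (T.a (T.b (T.l 1) (T.a (T.a (T.b (T.l 1) (T.a (T.c (T.l 3) (T.l 207)) (T.l 207))) (T.l 207)) (T.c (T.l 207) (T.l 207)))) (T.a (T.l 3) (T.a (T.l 3) (T.a (T.l 3) (T.b (T.l 7) (T.a (T.l 3) (T.b (T.l 3) (T.b (T.l 3) (T.a (T.l 3) (T.b (T.l 819) (T.a (T.l 819) (T.a (T.l 819) (T.c (T.l 816) (T.l 816)))))))))))))))))) (T.b (T.b (T.b (T.b (T.a (T.a (T.a (T.a (T.a (T.c (T.l 3) (T.l 207)) (T.l 207)) (T.l 207)) (T.c (T.l 207) (T.l 207))) (T.c (T.l 3) (T.l 207))) (T.a (T.c (T.l 3) (T.l 3)) (T.b (T.a (T.l 19) (T.a (T.c (T.l 3) (T.l 3)) (T.b (T.a (T.l 3) (T.c (T.a (T.b (T.l 819) (T.a (T.l 819) (T.c (T.l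 0) (T.l 0)))) (T.b (T.c (T.a (T.l 0) (T.b (T.l 0) (T.l 0))) (T.a (T.l 4) (T.b (T.l 816) (T.l 0)))) (T.c (T.a (T.b (T.l 0) (T.l 0)) (T.l 0)) (T.a (T.b (T.l 816) (T.l 0)) (T.l 0))))) (T.a (T.b (T.l 819) (T.a (T.l 819) (T.c (T.l 0) (T.l 816)))) (T.b (T.c (T.a (T.l 4) (T.b (T.l 816) (T.l 0))) (T.a (T.l 820) (T.b (T.l 816) (T.l 816)))) (T.c (T.a (T.b (T.l 816) (T.l 0)) (T.l 0)) (T.a (T.b (T.l 816) (T.l 816)) (T.l 0))))))) (T.b (T.a (T.l 3) (T.b (T.a (T.a (T.l 819) (T.c (T.c (T.l 0) (T.l 816)) (T.c (T.l 816) (T.l 816)))) (T.a (T.c (T.l 0) (T.l 0)) (T.l 0))) (T.l 2))) (T.l 2))))) (T.l 2)))) (T.a (T.a (T.a (T.b (T.a (T.a (T.c (T.l 3) (T.l 207)) (T.l 2)) (T.l 2)) (T.l 2)) (T.l 2)) (T.l 2)) (T.l 2))) (T.l 2)) (T.l 2)) (T.l 2))), by decide +kernel⟩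

def A012E_001_1_2_1 :
    ∃ t, chk3 (onCell 0 67108864 0 1073741824 536870912 50465866 (corT true 1 c0B cA012E gB0q0 gB0q1 gB1q2 gB2q2 true true)) t 1 2 1 = true :=
  ⟨(T.b (T.l 1) (T.b (T.l 1) (T.l 1))), by decide +kernel⟩

def A012E_001_2_24_1 :
    ∃ t, chk3 (onCell 0 67108864 0 1073741824 536870912 50465866 (corT true 1 c0B cA012E gB0q0 gB0q1 gB1q2 gB2q2 true true)) t 2 24 1 = true :=
  ⟨(T.b (T.b (T.l 1) (T.a (T.b (T.l 1) (T.a (T.b (T.l 1) (T.c (T.a (T.b (T.l 1) (T.a (T.a (T.l 1) (T.l 204)) (T.l 204))) (T.l 204)) (T.a (T.b (T.l 1) (T.a (T.a (T.l 1) (T.l 204)) (T.l 204))) (T.l 204)))) (T.a (T.c (T.l 204) (T.l 204)) (T.l 204)))) (T.a (T.c (T.l 0) (T.l 0)) (T.l 0)))) (T.a (T.c (T.a (T.c (T.b (T.a (T.a (T.b (T.c (T.l 0) (T.l 0)) (T.l 816)) (T.l 0)) (T.l 0)) (T.c (T.a (T.l 816) (T.l 816)) (T.l 816))) (T.b (T.b (T.a (T.c (T.l 0) (T.l 0)) (T.l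 0)) (T.l 0)) (T.l 0))) (T.c (T.b (T.l 0) (T.l 0)) (T.l 0))) (T.b (T.a (T.b (T.a (T.b (T.c (T.l 204) (T.l 204)) (T.l 0)) (T.l 0)) (T.c (T.l 0) (T.l 204))) (T.l 0)) (T.c (T.l 0) (T.l 0)))) (T.c (T.b (T.l 0) (T.l 0)) (T.a (T.l 0) (T.l 0))))), by decide +kernel⟩

def A012E_001_3_24_1 :
    ∃ t, chk3 (onCell 0 67108864 0 1073741824 536870912 50465866 (corT true 1 c0B cA012E gB0q0 gB0q1 gB1q2 gB2q2 true true)) t 3 24 1 = true :=
  ⟨(T.a (T.b (T.b (T.b (T.l 1) (T.b (T.l 1) (T.c (T.l 0) (T.l 0)))) (T.c (T.l 0) (T.l 0))) (T.c (T.l 0) (T.l 0))) (T.a (T.b (T.b (T.b (T.l 1) (T.b (T.b (T.l 1) (T.c (T.l 0) (T.l 0))) (T.l 0))) (T.c (T.l 0) (T.l 0))) (T.l 0)) (T.b (T.a (T.b (T.b (T.l 1) (T.b (T.b (T.l 1) (T.l 0)) (T.l 0))) (T.l 0)) (T.b (T.b (T.l 1) (T.a (T.b (T.b (T.b (T.l 1) (T.c (T.l 0) (T.l 816))) (T.l 0)) (T.c (T.l 0) (T.l 0))) (T.b (T.c (T.a (T.b (T.b (T.l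 1) (T.a (T.l 816) (T.c (T.l 816) (T.l 816)))) (T.l 4)) (T.b (T.a (T.b (T.b (T.l 1) (T.l 0)) (T.l 0)) (T.l 0)) (T.l 0))) (T.a (T.b (T.b (T.l 1) (T.a (T.l 816) (T.c (T.l 816) (T.l 816)))) (T.l 0)) (T.b (T.a (T.b (T.b (T.l 1) (T.l 816)) (T.l 0)) (T.l 0)) (T.l 0)))) (T.c (T.l 0) (T.l 0))))) (T.b (T.a (T.c (T.l 0) (T.l 0)) (T.c (T.l 0) (T.l 0))) (T.c (T.l 0) (T.l 0))))) (T.a (T.b (T.c (T.l 0) (T.l 0)) (T.a (T.l 0) (T.l 0))) (T.b (T.c (T.l 0) (T.l 0)) (T.a (T.l 0) (T.l 64))))))), by decide +kernel⟩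

def A012E_001_1_25_1 :
    ∃ t, chk3 (onCell 0 67108864 0 1073741824 536870912 50465866 (corT true 1 c0B cA012E gB0q0 gB0q1 gB1q2 gB2q2 true true)) t 1 25 1 = true :=
  ⟨(T.a (T.c (T.a (T.b (T.c (T.a (T.c (T.b (T.l 816) (T.l 816)) (T.l 816)) (T.l 0)) (T.a (T.l 0) (T.l 0))) (T.c (T.a (T.b (T.l 816) (T.l 816)) (T.l 816)) (T.l 0))) (T.c (T.b (T.l 0) (T.l 0)) (T.b (T.l 0) (T.l 0)))) (T.a (T.b (T.b (T.l 0) (T.l 0)) (T.l 0)) (T.b (T.l 0) (T.l 0)))) (T.a (T.c (T.b (T.l 0) (T.a (T.l 0) (T.l 0))) (T.b (T.l 0) (T.l 0))) (T.b (T.a (T.a (T.l 0) (T.b (T.c (T.c (T.l 0) (T.l 0)) (T.l 0)) (T.c (T.a (T.l 0) (T.l 0)) (T.l 0)))) (T.a (T.b (T.c (T.b (T.l 0) (T.l 0)) (T.l 0)) (T.c (T.c (T.l 0) (T.l 0)) (T.l 0))) (T.b (T.c (T.c (T.l 0) (T.l 0)) (T.l 0)) (T.c (T.a (T.l 0) (T.l 0)) (T.l 0))))) (T.b (T.a (T.a (T.l 0) (T.c (T.a (T.c (T.l 0) (T.l 0)) (T.l 0)) (T.c (T.l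 0) (T.l 0)))) (T.a (T.c (T.a (T.l 0) (T.l 0)) (T.l 0)) (T.c (T.a (T.l 0) (T.l 0)) (T.l 0)))) (T.l 2))))), by decide +kernel⟩

def A012E_001_1_13_1 :
    ∃ t, chk3 (onCell 0 67108864 0 1073741824 536870912 50465866 (corT true 1 c0B cA012E gB0q0 gB0q1 gB1q2 gB2q2 true true)) t 1 13 1 = true :=
  ⟨(T.a (T.b (T.a (T.b (T.a (T.b (T.c (T.c (T.l 816) (T.l 816)) (T.l 0)) (T.l 2)) (T.l 2)) (T.l 2)) (T.l 2)) (T.l 2)) (T.l 2)), by decide +kernel⟩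

def A012E_001_1_7_1 :
    ∃ t, chk3 (onCell 0 67108864 0 1073741824 536870912 50465866 (corT true 1 c0B cA012E gB0q0 gB0q1 gB1q2 gB2q2 true true)) t 1 7 1 = true :=
  ⟨(T.l 2), by decide +kernel⟩

theorem A012E_001_1_24_1 :
    ∃ t, chk3 (onCell 0 67108864 0 1073741824 536870912 50465866 (corT true 1 c0B cA012E gB0q0 gB0q1 gB1q2 gB2q2 true true)) t 1 24 1 = true :=
  ex3_a A012E_001_2_24_1 A012E_001_3_24_1
theorem A012E_001_1_12_1 :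
    ∃ t, chk3 (onCell 0 67108864 0 1073741824 536870912 50465866 (corT true 1 c0B cA012E gB0q0 gB0q1 gB1q2 gB2q2 true true)) t 1 12 1 = true :=
  ex3_b A012E_001_1_24_1 A012E_001_1_25_1
theorem A012E_001_1_6_1 :
    ∃ t, chk3 (onCell 0 67108864 0 1073741824 536870912 50465866 (corT true 1 c0B cA012E gB0q0 gB0q1 gB1q2 gB2q2 true true)) t 1 6 1 = true :=
  ex3_b A012E_001_1_12_1 A012E_001_1_13_1
theorem A012E_001_1_3_1 :
    ∃ t, chk3 (onCell 0 67108864 0 1073741824 536870912 50465866 (corT true 1 c0B cA012E gB0q0 gB0q1 gB1q2 gB2q2 true true)) t 1 3 1 = true :=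
  ex3_b A012E_001_1_6_1 A012E_001_1_7_1
theorem A012E_001 :
    ∃ t, chk3 (onCell 0 67108864 0 1073741824 536870912 50465866 (corT true 1 c0B cA012E gB0q0 gB0q1 gB1q2 gB2q2 true true)) t 1 1 1 = true :=
  ex3_b A012E_001_1_2_1 A012E_001_1_3_1

def A012E_002_1_2_1 :
    ∃ t, chk3 (onCell 0 67108864 0 1073741824 536870912 50465866 (corT true 1 c0B cA012E gB0q0 gB0q1 gB2q2 gB3q2 true true)) t 1 2 1 = true :=
  ⟨(T.l 1), by decide +kernel⟩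

def A012E_002_1_12_1 :
    ∃ t, chk3 (onCell 0 67108864 0 1073741824 536870912 50465866 (corT true 1 c0B cA012E gB0q0 gB0q1 gB2q2 gB3q2 true true)) t 1 12 1 = true :=
  ⟨(T.b (T.l 1) (T.b (T.l 1) (T.a (T.b (T.l 1) (T.c (T.a (T.a (T.l 0) (T.l 0)) (T.l 0)) (T.l 0))) (T.a (T.c (T.l 0) (T.l 0)) (T.a (T.a (T.c (T.b (T.l 0) (T.l 0)) (T.l 0)) (T.c (T.b (T.l 0) (T.l 0)) (T.l 0))) (T.a (T.c (T.b (T.l 0) (T.l 0)) (T.l 0)) (T.c (T.b (T.l 0) (T.l 0)) (T.l 0)))))))), by decide +kernel⟩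

def A012E_002_2_13_1 :
    ∃ t, chk3 (onCell 0 67108864 0 1073741824 536870912 50465866 (corT true 1 c0B cA012E gB0q0 gB0q1 gB2q2 gB3q2 true true)) t 2 13 1 = true :=
  ⟨(T.b (T.c (T.a (T.c (T.b (T.l 816) (T.l 816)) (T.l 0)) (T.b (T.l 64) (T.a (T.l 816) (T.l 816)))) (T.a (T.l 0) (T.l 0))) (T.c (T.a (T.c (T.b (T.l 816) (T.l 816)) (T.l 816)) (T.c (T.b (T.l 816) (T.l 816)) (T.l 816))) (T.a (T.b (T.l 816) (T.l 816)) (T.l 880)))), by decide +kernel⟩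

def A012E_002_3_13_1 :
    ∃ t, chk3 (onCell 0 67108864 0 1073741824 536870912 50465866 (corT true 1 c0B cA012E gB0q0 gB0q1 gB2q2 gB3q2 true true)) t 3 13 1 = true :=
  ⟨(T.b (T.a (T.a (T.c (T.b (T.l 816) (T.l 816)) (T.l 0)) (T.b (T.c (T.l 816) (T.l 0)) (T.a (T.l 880) (T.c (T.a (T.l 816) (T.b (T.l 816) (T.l 816))) (T.l 64))))) (T.a (T.b (T.a (T.c (T.b (T.l 816) (T.c (T.l 816) (T.l 816))) (T.l 0)) (T.c (T.b (T.l 0) (T.l 816)) (T.l 0))) (T.a (T.c (T.b (T.c (T.l 816) (T.l 816)) (T.l 880)) (T.l 0)) (T.c (T.b (T.l 816) (T.l 880)) (T.l 0)))) (T.b (T.c (T.a (T.b (T.l 0) (T.l 816)) (T.b (T.l 0) (T.l 816))) (T.b (T.l 0) (T.l 0))) (T.c (T.a (T.b (T.l 816) (T.l 816)) (T.b (T.l 816) (T.l 816))) (T.b (T.l 0) (T.l 64)))))) (T.a (T.a (T.c (T.b (T.l 816) (T.l 816)) (T.l 816)) (T.a (T.b (T.c (T.l 816) (T.l 816)) (T.a (T.c (T.l 816) (T.l 816)) (T.c (T.b (T.l 880)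 (T.c (T.l 816) (T.l 816))) (T.b (T.l 816) (T.l 816))))) (T.b (T.c (T.a (T.b (T.l 816) (T.l 880)) (T.b (T.l 816) (T.l 816))) (T.b (T.l 816) (T.l 816))) (T.c (T.a (T.b (T.l 880) (T.l 816)) (T.b (T.l 816) (T.l 816))) (T.b (T.l 880) (T.l 816)))))) (T.a (T.a (T.b (T.c (T.c (T.b (T.l 816) (T.l 816)) (T.l 880)) (T.l 880)) (T.c (T.a (T.b (T.l 816) (T.l 816)) (T.b (T.l 816) (T.l 816))) (T.b (T.l 816) (T.l 816)))) (T.b (T.c (T.b (T.l 880) (T.l 880)) (T.l 816)) (T.c (T.a (T.l 880) (T.l 880)) (T.b (T.l 816) (T.l 816))))) (T.b (T.a (T.c (T.b (T.l 880) (T.l 880)) (T.l 816)) (T.c (T.b (T.l 816) (T.l 816)) (T.l 816))) (T.a (T.c (T.b (T.l 880) (T.l 880)) (T.l 816)) (T.c (T.b (T.l 816) (T.l 816)) (T.l 816))))))), by decide +kernel⟩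

def A012E_002_2_14_1 :
    ∃ t, chk3 (onCell 0 67108864 0 1073741824 536870912 50465866 (corT true 1 c0B cA012E gB0q0 gB0q1 gB2q2 gB3q2 true true)) t 2 14 1 = true :=
  ⟨(T.b (T.c (T.a (T.c (T.b (T.l 816) (T.l 816)) (T.b (T.l 816) (T.l 816))) (T.b (T.a (T.l 816) (T.l 816)) (T.a (T.l 816) (T.l 816)))) (T.a (T.b (T.l 816) (T.l 816)) (T.b (T.l 816) (T.l 816)))) (T.b (T.c (T.a (T.a (T.l 816) (T.l 816)) (T.a (T.l 816) (T.l 816))) (T.a (T.a (T.l 816) (T.l 816)) (T.a (T.l 816) (T.l 816)))) (T.l 2))), by decide +kernel⟩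

def A012E_002_3_28_1 :
    ∃ t, chk3 (onCell 0 67108864 0 1073741824 536870912 50465866 (corT true 1 c0B cA012E gB0q0 gB0q1 gB2q2 gB3q2 true true)) t 3 28 1 = true :=
  ⟨(T.b (T.a (T.a (T.c (T.l 816) (T.l 816)) (T.a (T.c (T.a (T.b (T.c (T.l 816) (T.l 816)) (T.c (T.l 880) (T.l 816))) (T.b (T.c (T.l 816) (T.l 816)) (T.l 880))) (T.a (T.b (T.l 816) (T.l 816)) (T.b (T.l 816) (T.l 816)))) (T.c (T.a (T.b (T.l 816) (T.l 816)) (T.b (T.l 816) (T.l 816))) (T.a (T.l 880) (T.l 816))))) (T.a (T.a (T.c (T.a (T.b (T.l 816) (T.l 816)) (T.b (T.l 816) (T.l 816))) (T.b (T.l 816) (T.l 816))) (T.c (T.b (T.l 880) (T.l 880)) (T.b (T.l 816) (T.l 816)))) (T.a (T.c (T.b (T.l 816) (T.l 816)) (T.l 880)) (T.c (T.b (T.l 816) (T.l 816)) (T.l 816))))) (T.b (T.a (T.a (T.c (T.l 816) (T.l 816)) (T.a (T.a (T.c (T.c (T.l 880) (T.l 816)) (T.c (T.l 816) (T.l 816))) (T.c (T.l 880) (T.l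 816))) (T.c (T.a (T.l 816) (T.l 816)) (T.c (T.l 816) (T.l 816))))) (T.a (T.a (T.c (T.c (T.l 816) (T.l 816)) (T.l 816)) (T.c (T.l 880) (T.l 816))) (T.a (T.c (T.l 816) (T.l 816)) (T.c (T.l 816) (T.l 816))))) (T.b (T.a (T.a (T.a (T.l 816) (T.a (T.l 816) (T.c (T.c (T.l 816) (T.l 816)) (T.l 816)))) (T.a (T.a (T.c (T.l 880) (T.l 816)) (T.c (T.l 816) (T.l 816))) (T.c (T.c (T.l 816) (T.l 816)) (T.l 816)))) (T.a (T.a (T.c (T.l 816) (T.l 816)) (T.c (T.l 816) (T.l 816))) (T.a (T.c (T.l 816) (T.l 816)) (T.l 880)))) (T.a (T.a (T.a (T.l 816) (T.a (T.l 816) (T.c (T.c (T.l 816) (T.l 816)) (T.l 880)))) (T.a (T.a (T.c (T.l 816) (T.l 816)) (T.c (T.l 816) (T.l 816))) (T.c (T.c (T.l 816) (T.l 816)) (T.l 880)))) (T.a (T.a (T.c (T.l 816) (T.l 816)) (T.c (T.l 816) (T.l 816))) (T.a (T.c (T.l 816) (T.l 816)) (T.l 816))))))), by decide +kernel⟩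

def A012E_002_3_29_1 :
    ∃ t, chk3 (onCell 0 67108864 0 1073741824 536870912 50465866 (corT true 1 c0B cA012E gB0q0 gB0q1 gB2q2 gB3q2 true true)) t 3 29 1 = true :=
  ⟨(T.b (T.b (T.b (T.a (T.b (T.a (T.a (T.l 816) (T.a (T.l 816) (T.c (T.c (T.l 816) (T.l 816)) (T.l 816)))) (T.a (T.a (T.c (T.l 816) (T.l 816)) (T.c (T.l 816) (T.l 816))) (T.c (T.l 880) (T.l 816)))) (T.a (T.a (T.l 816) (T.a (T.l 816) (T.c (T.c (T.l 816) (T.l 816)) (T.l 880)))) (T.a (T.a (T.c (T.l 816) (T.l 816)) (T.c (T.l 816) (T.l 816))) (T.c (T.l 880) (T.l 816))))) (T.a (T.a (T.c (T.l 816) (T.l 816)) (T.c (T.l 816) (T.l 816))) (T.a (T.l 880) (T.l 816)))) (T.a (T.b (T.a (T.a (T.l 816) (T.a (T.l 816) (T.c (T.c (T.l 816) (T.l 816)) (T.l 880)))) (T.a (T.a (T.c (T.l 816) (T.l 816)) (T.c (T.l 816) (T.l 816))) (T.c (T.l 880) (T.l 816)))) (T.a (T.a (T.l 816) (T.a (T.l 816) (T.c (T.c (T.l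 816) (T.l 816)) (T.l 880)))) (T.b (T.a (T.a (T.c (T.l 816) (T.l 816)) (T.l 880)) (T.c (T.l 816) (T.l 816))) (T.l 2)))) (T.b (T.a (T.a (T.c (T.l 816) (T.l 816)) (T.c (T.l 816) (T.l 816))) (T.a (T.l 816) (T.l 816))) (T.l 2)))) (T.l 2)) (T.l 2)), by decide +kernel⟩

def A012E_002_1_15_1 :
    ∃ t, chk3 (onCell 0 67108864 0 1073741824 536870912 50465866 (corT true 1 c0B cA012E gB0q0 gB0q1 gB2q2 gB3q2 true true)) t 1 15 1 = true :=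
  ⟨(T.l 2), by decide +kernel⟩

theorem A012E_002_3_14_1 :
    ∃ t, chk3 (onCell 0 67108864 0 1073741824 536870912 50465866 (corT true 1 c0B cA012E gB0q0 gB0q1 gB2q2 gB3q2 true true)) t 3 14 1 = true :=
  ex3_b A012E_002_3_28_1 A012E_002_3_29_1
theorem A012E_002_1_14_1 :
    ∃ t, chk3 (onCell 0 67108864 0 1073741824 536870912 50465866 (corT true 1 c0B cA012E gB0q0 gB0q1 gB2q2 gB3q2 true true)) t 1 14 1 = true :=
  ex3_a A012E_002_2_14_1 A012E_002_3_14_1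
theorem A012E_002_1_7_1 :
    ∃ t, chk3 (onCell 0 67108864 0 1073741824 536870912 50465866 (corT true 1 c0B cA012E gB0q0 gB0q1 gB2q2 gB3q2 true true)) t 1 7 1 = true :=
  ex3_b A012E_002_1_14_1 A012E_002_1_15_1
theorem A012E_002_1_13_1 :
    ∃ t, chk3 (onCell 0 67108864 0 1073741824 536870912 50465866 (corT true 1 c0B cA012E gB0q0 gB0q1 gB2q2 gB3q2 true true)) t 1 13 1 = true :=
  ex3_a A012E_002_2_13_1 A012E_002_3_13_1
theorem A012E_002_1_6_1 :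
    ∃ t, chk3 (onCell 0 67108864 0 1073741824 536870912 50465866 (corT true 1 c0B cA012E gB0q0 gB0q1 gB2q2 gB3q2 true true)) t 1 6 1 = true :=
  ex3_b A012E_002_1_12_1 A012E_002_1_13_1
theorem A012E_002_1_3_1 :
    ∃ t, chk3 (onCell 0 67108864 0 1073741824 536870912 50465866 (corT true 1 c0B cA012E gB0q0 gB0q1 gB2q2 gB3q2 true true)) t 1 3 1 = true :=
  ex3_b A012E_002_1_6_1 A012E_002_1_7_1
theorem A012E_002 :
    ∃ t, chk3 (onCell 0 67108864 0 1073741824 536870912 50465866 (corT true 1 c0B cA012E gB0q0 gB0q1 gB2q2 gB3q2 true true)) t 1 1 1 = true :=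
  ex3_b A012E_002_1_2_1 A012E_002_1_3_1

def A012E_003 :
    ∃ t, chk3 (onCell 0 67108864 0 1073741824 536870912 50465866 (corT true 1 c0B cA012E gB0q0 gB0q1 gB3q2 gB4q2 true false)) t 1 1 1 = true :=
  ⟨(T.b (T.l 1) (T.b (T.l 1) (T.b (T.b (T.l 1) (T.a (T.c (T.b (T.a (T.b (T.l 1) (T.l 816)) (T.a (T.l 816) (T.l 816))) (T.a (T.l 816) (T.l 816))) (T.b (T.a (T.a (T.l 816) (T.l 816)) (T.l 816)) (T.l 816))) (T.a (T.a (T.a (T.c (T.b (T.l 816) (T.l 816)) (T.l 816)) (T.c (T.b (T.c (T.a (T.l 816) (T.l 880)) (T.b (T.l 880) (T.l 816))) (T.b (T.l 880) (T.l 816))) (T.b (T.c (T.b (T.l 816) (T.l 816)) (T.l 816)) (T.b (T.l 816) (T.l 816))))) (T.c (T.b (T.a (T.b (T.l 880) (T.l 816)) (T.l 816)) (T.b (T.l 816) (T.l 816))) (T.a (T.b (T.l 880) (T.l 816)) (T.b (T.l 816) (T.l 816))))) (T.a (T.c (T.b (T.l 880) (T.l 816)) (T.b (T.l 816) (T.l 816))) (T.c (T.b (T.l 816)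 (T.l 816)) (T.l 880)))))) (T.a (T.a (T.b (T.b (T.l 816) (T.l 816)) (T.b (T.l 816) (T.l 816))) (T.a (T.b (T.b (T.l 816) (T.l 816)) (T.l 816)) (T.b (T.b (T.l 816) (T.l 816)) (T.a (T.l 816) (T.c (T.l 880) (T.b (T.l 816) (T.l 816))))))) (T.a (T.a (T.b (T.c (T.a (T.b (T.l 816) (T.l 816)) (T.b (T.l 816) (T.l 816))) (T.a (T.b (T.l 816) (T.l 816)) (T.b (T.l 816) (T.l 816)))) (T.a (T.c (T.b (T.l 816) (T.l 816)) (T.b (T.l 816) (T.l 816))) (T.b (T.l 816) (T.l 816)))) (T.b (T.c (T.b (T.l 816) (T.l 816)) (T.b (T.l 816) (T.l 816))) (T.c (T.l 816) (T.b (T.l 816) (T.l 816))))) (T.a (T.b (T.c (T.l 816) (T.l 816)) (T.b (T.l 816) (T.l 816))) (T.b (T.b (T.l 816) (T.l 816)) (T.b (T.l 816) (T.l 816))))))))), by decide +kernel⟩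

def A012L_005 :
    ∃ t, chk3 (onCell 0 67108864 0 1073741824 536870912 50465866 (corT true 1 c0B cA012L gB0q0 gB0q1 gB5q2 gB6q2 false true)) t 1 1 1 = true :=
  ⟨(T.l 2), by decide +kernel⟩

def A012R_040 :
    ∃ t, chk3 (onCell 0 67108864 0 1073741824 536870912 50465866 (corT true 1 c0B cA012R gB0q0 gB4q1 gB0q2 gB1q2 true true)) t 1 1 1 = true :=
  ⟨(T.b (T.l 2) (T.l 2)), by decide +kernel⟩

def A012R_041 :
    ∃ t, chk3 (onCell 0 67108864 0 1073741824 536870912 50465866 (corT true 1 c0B cA012R gB0q0 gB4q1 gB1q2 gB2q2 true true)) t 1 1 1 = true :=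
  ⟨(T.b (T.l 2) (T.l 2)), by decide +kernel⟩

def A012R_042 :
    ∃ t, chk3 (onCell 0 67108864 0 1073741824 536870912 50465866 (corT true 1 c0B cA012R gB0q0 gB4q1 gB2q2 gB3q2 true true)) t 1 1 1 = true :=
  ⟨(T.l 2), by decide +kernel⟩

def A012R_043 :
    ∃ t, chk3 (onCell 0 67108864 0 1073741824 536870912 50465866 (corT true 1 c0B cA012R gB0q0 gB4q1 gB3q2 gB4q2 true false)) t 1 1 1 = true :=
  ⟨(T.b (T.b (T.l 0) (T.b (T.l 0) (T.a (T.l 816) (T.b (T.l 816) (T.l 0))))) (T.b (T.a (T.l 816) (T.a (T.b (T.l 816) (T.l 816)) (T.b (T.l 816) (T.l 816)))) (T.a (T.a (T.l 816) (T.a (T.l 816) (T.b (T.l 816) (T.l 816)))) (T.a (T.a (T.b (T.l 816) (T.l 816)) (T.l 880)) (T.b (T.l 816) (T.l 816)))))), by decide +kernel⟩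

def A012R_050 :
    ∃ t, chk3 (onCell 0 67108864 0 1073741824 536870912 50465866 (corT true 1 c0B cA012R gB0q0 gB5q1 gB0q2 gB1q2 true true)) t 1 1 1 = true :=
  ⟨(T.l 2), by decide +kernel⟩

def A012R_051 :
    ∃ t, chk3 (onCell 0 67108864 0 1073741824 536870912 50465866 (corT true 1 c0B cA012R gB0q0 gB5q1 gB1q2 gB2q2 true true)) t 1 1 1 = true :=
  ⟨(T.l 2), by decide +kernel⟩

def A012R_052 :
    ∃ t, chk3 (onCell 0 67108864 0 1073741824 536870912 50465866 (corT true 1 c0B cA012R gB0q0 gB5q1 gB2q2 gB3q2 true true)) t 1 1 1 = true :=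
  ⟨(T.l 2), by decide +kernel⟩

def A012R_053 :
    ∃ t, chk3 (onCell 0 67108864 0 1073741824 536870912 50465866 (corT true 1 c0B cA012R gB0q0 gB5q1 gB3q2 gB4q2 true false)) t 1 1 1 = true :=
  ⟨(T.b (T.b (T.l 0) (T.b (T.l 816) (T.a (T.l 816) (T.b (T.l 816) (T.l 0))))) (T.a (T.b (T.l 816) (T.a (T.l 816) (T.a (T.l 816) (T.b (T.l 816) (T.l 816))))) (T.b (T.a (T.b (T.l 816) (T.l 816)) (T.b (T.l 816) (T.l 816))) (T.a (T.a (T.b (T.l 816) (T.l 816)) (T.l 880)) (T.b (T.l 816) (T.l 816)))))), by decide +kernel⟩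

def A012R_060 :
    ∃ t, chk3 (onCell 0 67108864 0 1073741824 536870912 50465866 (corT true 1 c0B cA012R gB0q0 gB6q1 gB0q2 gB1q2 true true)) t 1 1 1 = true :=
  ⟨(T.l 2), by decide +kernel⟩

def A012R_061 :
    ∃ t, chk3 (onCell 0 67108864 0 1073741824 536870912 50465866 (corT true 1 c0B cA012R gB0q0 gB6q1 gB1q2 gB2q2 true true)) t 1 1 1 = true :=
  ⟨(T.l 2), by decide +kernel⟩

def A012R_062 :
    ∃ t, chk3 (onCell 0 67108864 0 1073741824 536870912 50465866 (corT true 1 c0B cA012R gB0q0 gB6q1 gB2q2 gB3q2 true true)) t 1 1 1 = true :=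
  ⟨(T.l 2), by decide +kernel⟩

def A012R_063 :
    ∃ t, chk3 (onCell 0 67108864 0 1073741824 536870912 50465866 (corT true 1 c0B cA012R gB0q0 gB6q1 gB3q2 gB4q2 true false)) t 1 1 1 = true :=
  ⟨(T.b (T.b (T.l 0) (T.b (T.l 816) (T.a (T.l 816) (T.b (T.l 816) (T.l 64))))) (T.b (T.a (T.l 816) (T.a (T.b (T.l 816) (T.l 816)) (T.b (T.l 816) (T.l 816)))) (T.a (T.a (T.l 816) (T.a (T.l 816) (T.b (T.l 816) (T.l 816)))) (T.a (T.b (T.l 816) (T.b (T.l 816) (T.l 816))) (T.b (T.l 816) (T.l 816)))))), by decide +kernel⟩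

def A012R_140 :
    ∃ t, chk3 (onCell 0 67108864 0 1073741824 536870912 50465866 (corT true 1 c0B cA012R gB1q0 gB4q1 gB0q2 gB1q2 true true)) t 1 1 1 = true :=
  ⟨(T.b (T.b (T.b (T.l 0) (T.l 2)) (T.l 2)) (T.l 2)), by decide +kernel⟩

def A012R_141 :
    ∃ t, chk3 (onCell 0 67108864 0 1073741824 536870912 50465866 (corT true 1 c0B cA012R gB1q0 gB4q1 gB1q2 gB2q2 true true)) t 1 1 1 = true :=
  ⟨(T.b (T.b (T.l 0) (T.l 2)) (T.l 2)), by decide +kernel⟩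

def A012R_142 :
    ∃ t, chk3 (onCell 0 67108864 0 1073741824 536870912 50465866 (corT true 1 c0B cA012R gB1q0 gB4q1 gB2q2 gB3q2 true true)) t 1 1 1 = true :=
  ⟨(T.b (T.b (T.l 0) (T.b (T.l 2) (T.l 2))) (T.l 2)), by decide +kernel⟩

def A012R_143 :
    ∃ t, chk3 (onCell 0 67108864 0 1073741824 536870912 50465866 (corT true 1 c0B cA012R gB1q0 gB4q1 gB3q2 gB4q2 true false)) t 1 1 1 = true :=
  ⟨(T.b (T.b (T.l 0) (T.b (T.l 816) (T.a (T.l 816) (T.b (T.l 816) (T.l 816))))) (T.b (T.a (T.l 816) (T.a (T.b (T.l 816) (T.l 816)) (T.l 816))) (T.a (T.b (T.l 816) (T.a (T.l 816) (T.b (T.l 816) (T.l 816)))) (T.a (T.b (T.l 816) (T.l 816)) (T.l 816))))), by decide +kernel⟩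

def A012R_150 :
    ∃ t, chk3 (onCell 0 67108864 0 1073741824 536870912 50465866 (corT true 1 c0B cA012R gB1q0 gB5q1 gB0q2 gB1q2 true true)) t 1 1 1 = true :=
  ⟨(T.b (T.l 2) (T.l 2)), by decide +kernel⟩

def A012R_151 :
    ∃ t, chk3 (onCell 0 67108864 0 1073741824 536870912 50465866 (corT true 1 c0B cA012R gB1q0 gB5q1 gB1q2 gB2q2 true true)) t 1 1 1 = true :=
  ⟨(T.l 2), by decide +kernel⟩

def A012R_152 :
    ∃ t, chk3 (onCell 0 67108864 0 1073741824 536870912 50465866 (corT true 1 c0B cA012R gB1q0 gB5q1 gB2q2 gB3q2 true true)) t 1 1 1 = true :=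
  ⟨(T.l 2), by decide +kernel⟩

def A012R_153 :
    ∃ t, chk3 (onCell 0 67108864 0 1073741824 536870912 50465866 (corT true 1 c0B cA012R gB1q0 gB5q1 gB3q2 gB4q2 true false)) t 1 1 1 = true :=
  ⟨(T.b (T.b (T.l 0) (T.a (T.l 816) (T.b (T.l 816) (T.b (T.l 816) (T.l 816))))) (T.a (T.b (T.l 816) (T.b (T.l 816) (T.a (T.l 816) (T.b (T.l 816) (T.l 816))))) (T.a (T.b (T.b (T.l 816) (T.l 816)) (T.b (T.l 816) (T.l 816))) (T.b (T.l 816) (T.l 816))))), by decide +kernel⟩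

def A012R_160 :
    ∃ t, chk3 (onCell 0 67108864 0 1073741824 536870912 50465866 (corT true 1 c0B cA012R gB1q0 gB6q1 gB0q2 gB1q2 true true)) t 1 1 1 = true :=
  ⟨(T.l 2), by decide +kernel⟩

def A012R_161 :
    ∃ t, chk3 (onCell 0 67108864 0 1073741824 536870912 50465866 (corT true 1 c0B cA012R gB1q0 gB6q1 gB1q2 gB2q2 true true)) t 1 1 1 = true :=
  ⟨(T.l 2), by decide +kernel⟩

def A012R_162 :
    ∃ t, chk3 (onCell 0 67108864 0 1073741824 536870912 50465866 (corT true 1 c0B cA012R gB1q0 gB6q1 gB2q2 gB3q2 true true)) t 1 1 1 = true :=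
  ⟨(T.l 2), by decide +kernel⟩

def A012R_163 :
    ∃ t, chk3 (onCell 0 67108864 0 1073741824 536870912 50465866 (corT true 1 c0B cA012R gB1q0 gB6q1 gB3q2 gB4q2 true false)) t 1 1 1 = true :=
  ⟨(T.b (T.b (T.l 816) (T.b (T.l 816) (T.a (T.l 816) (T.b (T.l 816) (T.l 816))))) (T.b (T.a (T.l 816) (T.a (T.b (T.l 816) (T.l 816)) (T.l 880))) (T.a (T.b (T.l 816) (T.a (T.l 816) (T.b (T.l 816) (T.l 816)))) (T.a (T.b (T.l 816) (T.l 816)) (T.l 816))))), by decide +kernel⟩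

def A012R_240 :
    ∃ t, chk3 (onCell 0 67108864 0 1073741824 536870912 50465866 (corT true 1 c0B cA012R gB2q0 gB4q1 gB0q2 gB1q2 true true)) t 1 1 1 = true :=
  ⟨(T.b (T.b (T.l 1) (T.b (T.l 816) (T.a (T.l 816) (T.l 2)))) (T.l 2)), by decide +kernel⟩

def A012R_241 :
    ∃ t, chk3 (onCell 0 67108864 0 1073741824 536870912 50465866 (corT true 1 c0B cA012R gB2q0 gB4q1 gB1q2 gB2q2 true true)) t 1 1 1 = true :=
  ⟨(T.b (T.b (T.l 1) (T.b (T.l 816) (T.b (T.l 816) (T.a (T.l 816) (T.a (T.l 816) (T.l 816)))))) (T.b (T.a (T.l 816) (T.b (T.a (T.l 816) (T.l 2)) (T.l 2))) (T.l 2))), by decide +kernel⟩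

def A012R_242 :
    ∃ t, chk3 (onCell 0 67108864 0 1073741824 536870912 50465866 (corT true 1 c0B cA012R gB2q0 gB4q1 gB2q2 gB3q2 true true)) t 1 1 1 = true :=
  ⟨(T.b (T.b (T.l 1) (T.a (T.l 1) (T.b (T.l 1) (T.b (T.l 1) (T.l 816))))) (T.b (T.a (T.l 816) (T.a (T.b (T.l 816) (T.l 816)) (T.b (T.l 816) (T.l 816)))) (T.a (T.a (T.l 816) (T.a (T.l 816) (T.b (T.l 816) (T.l 816)))) (T.a (T.a (T.b (T.l 816) (T.l 816)) (T.l 816)) (T.b (T.l 816) (T.l 816)))))), by decide +kernel⟩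

def A012R_243 :
    ∃ t, chk3 (onCell 0 67108864 0 1073741824 536870912 50465866 (corT true 1 c0B cA012R gB2q0 gB4q1 gB3q2 gB4q2 true false)) t 1 1 1 = true :=
  ⟨(T.l 1), by decide +kernel⟩

def A012R_250 :
    ∃ t, chk3 (onCell 0 67108864 0 1073741824 536870912 50465866 (corT true 1 c0B cA012R gB2q0 gB5q1 gB0q2 gB1q2 true true)) t 1 1 1 = true :=
  ⟨(T.b (T.b (T.l 64) (T.b (T.l 816) (T.l 2))) (T.l 2)), by decide +kernel⟩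

def A012R_251 :
    ∃ t, chk3 (onCell 0 67108864 0 1073741824 536870912 50465866 (corT true 1 c0B cA012R gB2q0 gB5q1 gB1q2 gB2q2 true true)) t 1 1 1 = true :=
  ⟨(T.b (T.b (T.l 816) (T.b (T.l 816) (T.a (T.l 816) (T.b (T.l 816) (T.l 2))))) (T.b (T.b (T.l 2) (T.l 2)) (T.l 2))), by decide +kernel⟩

def A012R_252 :
    ∃ t, chk3 (onCell 0 67108864 0 1073741824 536870912 50465866 (corT true 1 c0B cA012R gB2q0 gB5q1 gB2q2 gB3q2 true true)) t 1 1 1 = true :=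
  ⟨(T.b (T.b (T.l 1) (T.a (T.l 816) (T.b (T.l 816) (T.b (T.l 816) (T.l 816))))) (T.a (T.a (T.l 816) (T.a (T.l 816) (T.b (T.l 816) (T.b (T.l 816) (T.l 816))))) (T.a (T.b (T.b (T.l 816) (T.l 816)) (T.a (T.b (T.l 816) (T.l 816)) (T.l 816))) (T.b (T.b (T.l 816) (T.l 816)) (T.b (T.l 816) (T.l 816)))))), by decide +kernel⟩

def A012R_253 :
    ∃ t, chk3 (onCell 0 67108864 0 1073741824 536870912 50465866 (corT true 1 c0B cA012R gB2q0 gB5q1 gB3q2 gB4q2 true false)) t 1 1 1 = true :=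
  ⟨(T.l 1), by decide +kernel⟩

def A012R_260 :
    ∃ t, chk3 (onCell 0 67108864 0 1073741824 536870912 50465866 (corT true 1 c0B cA012R gB2q0 gB6q1 gB0q2 gB1q2 true true)) t 1 1 1 = true :=
  ⟨(T.b (T.b (T.l 880) (T.l 2)) (T.l 2)), by decide +kernel⟩

def A012R_261 :
    ∃ t, chk3 (onCell 0 67108864 0 1073741824 536870912 50465866 (corT true 1 c0B cA012R gB2q0 gB6q1 gB1q2 gB2q2 true true)) t 1 1 1 = true :=
  ⟨(T.b (T.b (T.l 816) (T.b (T.l 816) (T.l 2))) (T.l 2)), by decide +kernel⟩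

def A012R_262 :
    ∃ t, chk3 (onCell 0 67108864 0 1073741824 536870912 50465866 (corT true 1 c0B cA012R gB2q0 gB6q1 gB2q2 gB3q2 true true)) t 1 1 1 = true :=
  ⟨(T.b (T.a (T.l 816) (T.a (T.l 816) (T.b (T.l 816) (T.b (T.l 816) (T.l 816))))) (T.a (T.a (T.l 816) (T.a (T.l 816) (T.b (T.l 816) (T.b (T.l 816) (T.l 816))))) (T.b (T.a (T.b (T.l 816) (T.l 816)) (T.b (T.l 816) (T.l 816))) (T.a (T.a (T.l 880) (T.l 816)) (T.b (T.l 816) (T.l 816)))))), by decide +kernel⟩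

def A012R_263 :
    ∃ t, chk3 (onCell 0 67108864 0 1073741824 536870912 50465866 (corT true 1 c0B cA012R gB2q0 gB6q1 gB3q2 gB4q2 true false)) t 1 1 1 = true :=
  ⟨(T.b (T.l 1) (T.l 1)), by decide +kernel⟩

def A012R_340 :
    ∃ t, chk3 (onCell 0 67108864 0 1073741824 536870912 50465866 (corT true 1 c0B cA012R gB3q0 gB4q1 gB0q2 gB1q2 true true)) t 1 1 1 = true :=
  ⟨(T.b (T.l 1) (T.b (T.a (T.l 816) (T.b (T.a (T.l 1) (T.b (T.l 1) (T.l 816))) (T.b (T.a (T.l 816) (T.l 816)) (T.a (T.l 816) (T.l 816))))) (T.b (T.a (T.l 816) (T.b (T.a (T.a (T.l 816) (T.l 816)) (T.l 2)) (T.l 2))) (T.a (T.b (T.l 816) (T.l 2)) (T.l 2))))), by decide +kernel⟩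

def A012R_341 :
    ∃ t, chk3 (onCell 0 67108864 0 1073741824 536870912 50465866 (corT true 1 c0B cA012R gB3q0 gB4q1 gB1q2 gB2q2 true true)) t 1 1 1 = true :=
  ⟨(T.b (T.l 1) (T.b (T.a (T.l 1) (T.b (T.l 1) (T.a (T.l 816) (T.l 816)))) (T.b (T.a (T.l 816) (T.a (T.l 816) (T.l 816))) (T.a (T.a (T.l 816) (T.a (T.l 816) (T.l 816))) (T.a (T.b (T.l 816) (T.l 816)) (T.b (T.l 816) (T.l 816))))))), by decide +kernel⟩

def A012R_342 :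
    ∃ t, chk3 (onCell 0 67108864 0 1073741824 536870912 50465866 (corT true 1 c0B cA012R gB3q0 gB4q1 gB2q2 gB3q2 true true)) t 1 1 1 = true :=
  ⟨(T.b (T.l 1) (T.b (T.l 1) (T.l 1))), by decide +kernel⟩

def A012R_343 :
    ∃ t, chk3 (onCell 0 67108864 0 1073741824 536870912 50465866 (corT true 1 c0B cA012R gB3q0 gB4q1 gB3q2 gB4q2 true false)) t 1 1 1 = true :=
  ⟨(T.l 1), by decide +kernel⟩

def A012R_350 :
    ∃ t, chk3 (onCell 0 67108864 0 1073741824 536870912 50465866 (corT true 1 c0B cA012R gB3q0 gB5q1 gB0q2 gB1q2 true true)) t 1 1 1 = true :=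
  ⟨(T.b (T.l 1) (T.b (T.a (T.l 816) (T.b (T.a (T.l 816) (T.b (T.l 1) (T.l 816))) (T.b (T.a (T.l 816) (T.l 816)) (T.a (T.l 816) (T.b (T.l 816) (T.l 2)))))) (T.a (T.b (T.l 816) (T.b (T.l 816) (T.l 2))) (T.b (T.b (T.a (T.b (T.l 816) (T.l 2)) (T.l 2)) (T.l 2)) (T.l 2))))), by decide +kernel⟩

def A012R_351 :
    ∃ t, chk3 (onCell 0 67108864 0 1073741824 536870912 50465866 (corT true 1 c0B cA012R gB3q0 gB5q1 gB1q2 gB2q2 true true)) t 1 1 1 = true :=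
  ⟨(T.b (T.l 1) (T.b (T.a (T.l 816) (T.b (T.l 1) (T.a (T.l 816) (T.l 816)))) (T.a (T.b (T.l 816) (T.a (T.l 816) (T.a (T.l 816) (T.l 816)))) (T.b (T.a (T.l 816) (T.l 816)) (T.a (T.b (T.l 816) (T.l 816)) (T.b (T.l 816) (T.l 816))))))), by decide +kernel⟩

def A012R_352 :
    ∃ t, chk3 (onCell 0 67108864 0 1073741824 536870912 50465866 (corT true 1 c0B cA012R gB3q0 gB5q1 gB2q2 gB3q2 true true)) t 1 1 1 = true :=
  ⟨(T.b (T.l 1) (T.b (T.l 1) (T.l 1))), by decide +kernel⟩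

def A012R_353 :
    ∃ t, chk3 (onCell 0 67108864 0 1073741824 536870912 50465866 (corT true 1 c0B cA012R gB3q0 gB5q1 gB3q2 gB4q2 true false)) t 1 1 1 = true :=
  ⟨(T.l 1), by decide +kernel⟩

def A012R_360 :
    ∃ t, chk3 (onCell 0 67108864 0 1073741824 536870912 50465866 (corT true 1 c0B cA012R gB3q0 gB6q1 gB0q2 gB1q2 true true)) t 1 1 1 = true :=
  ⟨(T.b (T.b (T.l 1) (T.l 1)) (T.b (T.a (T.l 816) (T.b (T.a (T.l 816) (T.b (T.l 816) (T.l 816))) (T.b (T.a (T.l 816) (T.l 880)) (T.a (T.l 816) (T.l 2))))) (T.a (T.b (T.l 816) (T.l 2)) (T.b (T.l 2) (T.l 2))))), by decide +kernel⟩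

def A012R_361 :
    ∃ t, chk3 (onCell 0 67108864 0 1073741824 536870912 50465866 (corT true 1 c0B cA012R gB3q0 gB6q1 gB1q2 gB2q2 true true)) t 1 1 1 = true :=
  ⟨(T.b (T.l 1) (T.b (T.a (T.l 816) (T.b (T.a (T.l 1) (T.l 816)) (T.a (T.l 816) (T.l 816)))) (T.a (T.b (T.l 816) (T.a (T.l 816) (T.a (T.l 816) (T.l 816)))) (T.b (T.a (T.l 816) (T.l 816)) (T.a (T.b (T.l 816) (T.l 816)) (T.b (T.l 816) (T.l 816))))))), by decide +kernel⟩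

def A012R_362 :
    ∃ t, chk3 (onCell 0 67108864 0 1073741824 536870912 50465866 (corT true 1 c0B cA012R gB3q0 gB6q1 gB2q2 gB3q2 true true)) t 1 1 1 = true :=
  ⟨(T.b (T.l 1) (T.b (T.l 1) (T.l 1))), by decide +kernel⟩

def A012R_363 :
    ∃ t, chk3 (onCell 0 67108864 0 1073741824 536870912 50465866 (corT true 1 c0B cA012R gB3q0 gB6q1 gB3q2 gB4q2 true false)) t 1 1 1 = true :=
  ⟨(T.l 1), by decide +kernel⟩

def A022E_000 :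
    ∃ t, chk3 (onCell 0 67108864 0 1073741824 536870912 50465866 (corT true 1 c0B cA022E gB0q0 gB0q2 gB0q2 gB1q2 true true)) t 1 1 1 = true :=
  ⟨(T.l 2), by decide +kernel⟩

def A022E_001 :
    ∃ t, chk3 (onCell 0 67108864 0 1073741824 536870912 50465866 (corT true 1 c0B cA022E gB0q0 gB0q2 gB1q2 gB2q2 true true)) t 1 1 1 = true :=
  ⟨(T.l 2), by decide +kernel⟩

def A022E_002 :
    ∃ t, chk3 (onCell 0 67108864 0 1073741824 536870912 50465866 (corT true 1 c0B cA022E gB0q0 gB0q2 gB2q2 gB3q2 true true)) t 1 1 1 = true :=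
  ⟨(T.b (T.l 2) (T.l 2)), by decide +kernel⟩

def A022E_003 :
    ∃ t, chk3 (onCell 0 67108864 0 1073741824 536870912 50465866 (corT true 1 c0B cA022E gB0q0 gB0q2 gB3q2 gB4q2 true false)) t 1 1 1 = true :=
  ⟨(T.b (T.b (T.a (T.a (T.b (T.c (T.b (T.l 204) (T.l 204)) (T.l 204)) (T.l 204)) (T.a (T.l 204) (T.a (T.l 204) (T.b (T.l 204) (T.l 204))))) (T.a (T.a (T.b (T.a (T.l 204) (T.l 204)) (T.l 0)) (T.b (T.b (T.l 204) (T.l 204)) (T.b (T.l 204) (T.l 204)))) (T.b (T.a (T.l 220) (T.l 204)) (T.a (T.b (T.l 204) (T.l 204)) (T.l 0))))) (T.b (T.a (T.a (T.l 204) (T.c (T.l 0) (T.l 0))) (T.a (T.a (T.l 204) (T.l 0)) (T.a (T.l 0) (T.l 0)))) (T.a (T.a (T.l 0) (T.c (T.l 0) (T.l 0))) (T.a (T.l 0) (T.b (T.l 0) (T.l 0)))))) (T.b (T.b (T.a (T.a (T.l 0) (T.b (T.l 0) (T.l 0))) (T.a (T.l 0) (T.l 0))) (T.a (T.a (T.l 0) (T.c (T.l 0) (T.l 0))) (T.a (T.l 0) (T.l 0)))) (T.a (T.a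 (T.b (T.l 816) (T.l 816)) (T.a (T.b (T.l 816) (T.l 816)) (T.b (T.l 0) (T.a (T.l 816) (T.b (T.l 816) (T.l 816)))))) (T.a (T.b (T.l 0) (T.a (T.c (T.l 816) (T.l 816)) (T.l 816))) (T.b (T.l 0) (T.c (T.l 816) (T.l 816))))))), by decide +kernel⟩

def A022E_010 :
    ∃ t, chk3 (onCell 0 67108864 0 1073741824 536870912 50465866 (corT true 1 c0B cA022E gB0q0 gB1q2 gB0q2 gB1q2 true true)) t 1 1 1 = true :=
  ⟨(T.l 2), by decide +kernel⟩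

def A022E_011 :
    ∃ t, chk3 (onCell 0 67108864 0 1073741824 536870912 50465866 (corT true 1 c0B cA022E gB0q0 gB1q2 gB1q2 gB2q2 true true)) t 1 1 1 = true :=
  ⟨(T.l 2), by decide +kernel⟩

def A022E_012 :
    ∃ t, chk3 (onCell 0 67108864 0 1073741824 536870912 50465866 (corT true 1 c0B cA022E gB0q0 gB1q2 gB2q2 gB3q2 true true)) t 1 1 1 = true :=
  ⟨(T.l 2), by decide +kernel⟩

def A022E_013 :
    ∃ t, chk3 (onCell 0 67108864 0 1073741824 536870912 50465866 (corT true 1 c0B cA022E gB0q0 gB1q2 gB3q2 gB4q2 true false)) t 1 1 1 = true :=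
  ⟨(T.b (T.b (T.a (T.a (T.b (T.l 204) (T.l 204)) (T.a (T.l 204) (T.a (T.l 204) (T.b (T.b (T.l 204) (T.l 204)) (T.l 204))))) (T.a (T.a (T.b (T.a (T.b (T.l 204) (T.l 204)) (T.l 204)) (T.b (T.l 204) (T.l 204))) (T.b (T.b (T.l 204) (T.l 204)) (T.b (T.l 204) (T.l 204)))) (T.b (T.a (T.l 204) (T.l 204)) (T.b (T.l 204) (T.l 204))))) (T.a (T.a (T.l 0) (T.c (T.l 0) (T.l 0))) (T.a (T.a (T.l 0) (T.b (T.l 0) (T.l 0))) (T.b (T.b (T.l 0) (T.l 0)) (T.b (T.l 0) (T.l 0)))))) (T.b (T.b (T.a (T.a (T.l 0) (T.l 0)) (T.a (T.l 0) (T.b (T.l 0) (T.l 0)))) (T.a (T.a (T.l 0) (T.c (T.l 0) (T.l 0))) (T.a (T.l 0) (T.l 0)))) (T.a (T.a (T.b (T.l 816) (T.l 816)) (T.a (T.b (T.l 816) (T.l 816)) (T.b (T.l 0) (T.a (T.l 816) (T.b (T.l 816) (T.l 816)))))) (T.a (T.b (T.l 0) (T.a (T.c (T.l 816) (T.l 816)) (T.l 816))) (T.b (T.l 0) (T.c (T.l 816) (T.l 816))))))), by decide +kernel⟩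

def A022E_020 :
    ∃ t, chk3 (onCell 0 67108864 0 1073741824 536870912 50465866 (corT true 1 c0B cA022E gB0q0 gB2q2 gB0q2 gB1q2 true true)) t 1 1 1 = true :=
  ⟨(T.l 2), by decide +kernel⟩

def A022E_021 :
    ∃ t, chk3 (onCell 0 67108864 0 1073741824 536870912 50465866 (corT true 1 c0B cA022E gB0q0 gB2q2 gB1q2 gB2q2 true true)) t 1 1 1 = true :=
  ⟨(T.l 2), by decide +kernel⟩

def A022E_022 :
    ∃ t, chk3 (onCell 0 67108864 0 1073741824 536870912 50465866 (corT true 1 c0B cA022E gB0q0 gB2q2 gB2q2 gB3q2 true true)) t 1 1 1 = true :=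
  ⟨(T.l 2), by decide +kernel⟩

def A022E_023 :
    ∃ t, chk3 (onCell 0 67108864 0 1073741824 536870912 50465866 (corT true 1 c0B cA022E gB0q0 gB2q2 gB3q2 gB4q2 true false)) t 1 1 1 = true :=
  ⟨(T.b (T.b (T.a (T.a (T.l 204) (T.a (T.l 204) (T.a (T.l 204) (T.b (T.l 204) (T.l 204))))) (T.a (T.a (T.b (T.b (T.l 204) (T.l 204)) (T.l 204)) (T.b (T.l 204) (T.l 204))) (T.b (T.a (T.l 204) (T.l 204)) (T.b (T.l 204) (T.l 204))))) (T.a (T.a (T.l 204) (T.c (T.l 0) (T.l 0))) (T.a (T.a (T.l 0) (T.b (T.l 204) (T.l 204))) (T.b (T.b (T.l 204) (T.l 204)) (T.l 0))))) (T.b (T.b (T.a (T.a (T.l 0) (T.l 0)) (T.a (T.l 0) (T.l 0))) (T.a (T.a (T.l 0) (T.l 0)) (T.a (T.l 0) (T.l 0)))) (T.a (T.a (T.b (T.l 0) (T.l 816)) (T.a (T.l 0) (T.a (T.l 0) (T.b (T.l 0) (T.l 816))))) (T.a (T.b (T.l 0) (T.a (T.c (T.l 816) (T.l 816)) (T.l 816))) (T.a (T.l 64) (T.l 64)))))), by decide +kernel⟩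

def A022E_030 :
    ∃ t, chk3 (onCell 0 67108864 0 1073741824 536870912 50465866 (corT true 1 c0B cA022E gB0q0 gB3q2 gB0q2 gB1q2 true true)) t 1 1 1 = true :=
  ⟨(T.l 2), by decide +kernel⟩

def A022E_031 :
    ∃ t, chk3 (onCell 0 67108864 0 1073741824 536870912 50465866 (corT true 1 c0B cA022E gB0q0 gB3q2 gB1q2 gB2q2 true true)) t 1 1 1 = true :=
  ⟨(T.l 2), by decide +kernel⟩

def A022E_032 :
    ∃ t, chk3 (onCell 0 67108864 0 1073741824 536870912 50465866 (corT true 1 c0B cA022E gB0q0 gB3q2 gB2q2 gB3q2 true true)) t 1 1 1 = true :=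
  ⟨(T.l 2), by decide +kernel⟩

def A022E_033 :
    ∃ t, chk3 (onCell 0 67108864 0 1073741824 536870912 50465866 (corT true 1 c0B cA022E gB0q0 gB3q2 gB3q2 gB4q2 true false)) t 1 1 1 = true :=
  ⟨(T.b (T.b (T.a (T.a (T.l 204) (T.a (T.l 204) (T.b (T.l 204) (T.l 204)))) (T.a (T.a (T.b (T.l 204) (T.l 204)) (T.b (T.l 204) (T.l 204))) (T.a (T.l 220) (T.l 220)))) (T.a (T.a (T.l 0) (T.l 0)) (T.a (T.a (T.l 0) (T.l 0)) (T.b (T.l 0) (T.l 0))))) (T.b (T.b (T.a (T.a (T.l 0) (T.l 0)) (T.a (T.l 0) (T.l 0))) (T.a (T.a (T.l 0) (T.l 0)) (T.a (T.l 0) (T.l 0)))) (T.a (T.a (T.l 0) (T.a (T.l 816) (T.a (T.l 816) (T.b (T.l 0) (T.l 816))))) (T.a (T.b (T.l 0) (T.a (T.c (T.l 816) (T.l 816)) (T.l 816))) (T.a (T.l 0) (T.l 0)))))), by decide +kernel⟩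

def A022E_110 :
    ∃ t, chk3 (onCell 0 67108864 0 1073741824 536870912 50465866 (corT true 1 c0B cA022E gB1q0 gB1q2 gB0q2 gB1q2 true true)) t 1 1 1 = true :=
  ⟨(T.l 2), by decide +kernel⟩

def A022E_111 :
    ∃ t, chk3 (onCell 0 67108864 0 1073741824 536870912 50465866 (corT true 1 c0B cA022E gB1q0 gB1q2 gB1q2 gB2q2 true true)) t 1 1 1 = true :=
  ⟨(T.l 2), by decide +kernel⟩

def A022E_112 :
    ∃ t, chk3 (onCell 0 67108864 0 1073741824 536870912 50465866 (corT true 1 c0B cA022E gB1q0 gB1q2 gB2q2 gB3q2 true true)) t 1 1 1 = true :=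
  ⟨(T.l 2), by decide +kernel⟩

def A022E_113 :
    ∃ t, chk3 (onCell 0 67108864 0 1073741824 536870912 50465866 (corT true 1 c0B cA022E gB1q0 gB1q2 gB3q2 gB4q2 true false)) t 1 1 1 = true :=
  ⟨(T.b (T.b (T.a (T.a (T.b (T.l 204) (T.l 204)) (T.a (T.l 204) (T.a (T.l 204) (T.b (T.b (T.l 204) (T.l 204)) (T.l 204))))) (T.a (T.a (T.b (T.a (T.b (T.l 204) (T.l 204)) (T.l 204)) (T.b (T.l 204) (T.l 204))) (T.b (T.b (T.l 204) (T.l 204)) (T.l 0))) (T.b (T.a (T.l 204) (T.l 204)) (T.b (T.l 0) (T.l 0))))) (T.a (T.a (T.l 0) (T.b (T.l 0) (T.l 0))) (T.a (T.a (T.l 0) (T.b (T.l 0) (T.l 0))) (T.b (T.b (T.l 0) (T.l 0)) (T.l 0))))) (T.b (T.b (T.a (T.a (T.l 0) (T.l 0)) (T.a (T.l 0) (T.l 0))) (T.a (T.a (T.l 816) (T.l 0)) (T.l 0))) (T.a (T.a (T.l 816) (T.c (T.l 816) (T.l 0))) (T.a (T.l 816) (T.l 816))))), by decide +kernel⟩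

def A022E_120 :
    ∃ t, chk3 (onCell 0 67108864 0 1073741824 536870912 50465866 (corT true 1 c0B cA022E gB1q0 gB2q2 gB0q2 gB1q2 true true)) t 1 1 1 = true :=
  ⟨(T.l 2), by decide +kernel⟩

def A022E_121 :
    ∃ t, chk3 (onCell 0 67108864 0 1073741824 536870912 50465866 (corT true 1 c0B cA022E gB1q0 gB2q2 gB1q2 gB2q2 true true)) t 1 1 1 = true :=
  ⟨(T.l 2), by decide +kernel⟩

def A022E_122 :
    ∃ t, chk3 (onCell 0 67108864 0 1073741824 536870912 50465866 (corT true 1 c0B cA022E gB1q0 gB2q2 gB2q2 gB3q2 true true)) t 1 1 1 = true :=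
  ⟨(T.l 2), by decide +kernel⟩

def A022E_123 :
    ∃ t, chk3 (onCell 0 67108864 0 1073741824 536870912 50465866 (corT true 1 c0B cA022E gB1q0 gB2q2 gB3q2 gB4q2 true false)) t 1 1 1 = true :=
  ⟨(T.b (T.b (T.a (T.a (T.l 204) (T.a (T.l 204) (T.a (T.l 204) (T.b (T.l 204) (T.l 204))))) (T.a (T.a (T.b (T.b (T.l 204) (T.l 204)) (T.l 204)) (T.b (T.l 204) (T.l 204))) (T.b (T.a (T.l 204) (T.l 204)) (T.l 0)))) (T.a (T.a (T.l 0) (T.l 0)) (T.a (T.a (T.l 0) (T.b (T.l 0) (T.l 0))) (T.b (T.l 0) (T.l 0))))) (T.b (T.b (T.a (T.a (T.l 0) (T.l 0)) (T.a (T.l 0) (T.l 0))) (T.a (T.a (T.l 0) (T.l 0)) (T.l 0))) (T.a (T.a (T.l 816) (T.c (T.l 0) (T.l 0))) (T.a (T.l 0) (T.l 816))))), by decide +kernel⟩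

def A022E_130 :
    ∃ t, chk3 (onCell 0 67108864 0 1073741824 536870912 50465866 (corT true 1 c0B cA022E gB1q0 gB3q2 gB0q2 gB1q2 true true)) t 1 1 1 = true :=
  ⟨(T.l 2), by decide +kernel⟩

def A022E_131 :
    ∃ t, chk3 (onCell 0 67108864 0 1073741824 536870912 50465866 (corT true 1 c0B cA022E gB1q0 gB3q2 gB1q2 gB2q2 true true)) t 1 1 1 = true :=
  ⟨(T.l 2), by decide +kernel⟩

def A022E_132 :
    ∃ t, chk3 (onCell 0 67108864 0 1073741824 536870912 50465866 (corT true 1 c0B cA022E gB1q0 gB3q2 gB2q2 gB3q2 true true)) t 1 1 1 = true :=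
  ⟨(T.l 2), by decide +kernel⟩

def A022E_133 :
    ∃ t, chk3 (onCell 0 67108864 0 1073741824 536870912 50465866 (corT true 1 c0B cA022E gB1q0 gB3q2 gB3q2 gB4q2 true false)) t 1 1 1 = true :=
  ⟨(T.b (T.b (T.a (T.a (T.l 204) (T.a (T.l 204) (T.b (T.l 204) (T.l 204)))) (T.a (T.a (T.b (T.l 204) (T.l 0)) (T.b (T.l 204) (T.l 204))) (T.a (T.l 204) (T.l 220)))) (T.a (T.a (T.l 0) (T.l 0)) (T.a (T.b (T.l 0) (T.l 0)) (T.b (T.l 0) (T.l 0))))) (T.b (T.a (T.a (T.l 0) (T.l 0)) (T.a (T.l 0) (T.b (T.l 0) (T.l 0)))) (T.a (T.a (T.l 816) (T.c (T.l 816) (T.l 0))) (T.a (T.l 0) (T.l 816))))), by decide +kernel⟩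

def A022E_220 :
    ∃ t, chk3 (onCell 0 67108864 0 1073741824 536870912 50465866 (corT true 1 c0B cA022E gB2q0 gB2q2 gB0q2 gB1q2 true true)) t 1 1 1 = true :=
  ⟨(T.l 2), by decide +kernel⟩

def A022E_221 :
    ∃ t, chk3 (onCell 0 67108864 0 1073741824 536870912 50465866 (corT true 1 c0B cA022E gB2q0 gB2q2 gB1q2 gB2q2 true true)) t 1 1 1 = true :=
  ⟨(T.l 2), by decide +kernel⟩

def A022E_222 :
    ∃ t, chk3 (onCell 0 67108864 0 1073741824 536870912 50465866 (corT true 1 c0B cA022E gB2q0 gB2q2 gB2q2 gB3q2 true true)) t 1 1 1 = true :=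
  ⟨(T.l 2), by decide +kernel⟩

def A022E_223 :
    ∃ t, chk3 (onCell 0 67108864 0 1073741824 536870912 50465866 (corT true 1 c0B cA022E gB2q0 gB2q2 gB3q2 gB4q2 true false)) t 1 1 1 = true :=
  ⟨(T.b (T.b (T.a (T.a (T.l 204) (T.a (T.l 204) (T.a (T.l 204) (T.b (T.l 204) (T.l 204))))) (T.a (T.b (T.a (T.b (T.l 204) (T.l 204)) (T.l 204)) (T.b (T.l 0) (T.l 0))) (T.b (T.a (T.l 204) (T.l 204)) (T.l 0)))) (T.a (T.a (T.l 0) (T.l 0)) (T.a (T.b (T.l 0) (T.l 0)) (T.b (T.l 0) (T.l 0))))) (T.b (T.b (T.a (T.a (T.l 816) (T.l 0)) (T.b (T.l 0) (T.l 0))) (T.a (T.a (T.l 816) (T.l 0)) (T.l 0))) (T.a (T.a (T.l 816) (T.l 816)) (T.l 816)))), by decide +kernel⟩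

def A022E_230 :
    ∃ t, chk3 (onCell 0 67108864 0 1073741824 536870912 50465866 (corT true 1 c0B cA022E gB2q0 gB3q2 gB0q2 gB1q2 true true)) t 1 1 1 = true :=
  ⟨(T.l 2), by decide +kernel⟩

def A022E_231 :
    ∃ t, chk3 (onCell 0 67108864 0 1073741824 536870912 50465866 (corT true 1 c0B cA022E gB2q0 gB3q2 gB1q2 gB2q2 true true)) t 1 1 1 = true :=
  ⟨(T.l 2), by decide +kernel⟩

def A022E_232 :
    ∃ t, chk3 (onCell 0 67108864 0 1073741824 536870912 50465866 (corT true 1 c0B cA022E gB2q0 gB3q2 gB2q2 gB3q2 true true)) t 1 1 1 = true :=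
  ⟨(T.l 2), by decide +kernel⟩

def A022E_233 :
    ∃ t, chk3 (onCell 0 67108864 0 1073741824 536870912 50465866 (corT true 1 c0B cA022E gB2q0 gB3q2 gB3q2 gB4q2 true false)) t 1 1 1 = true :=
  ⟨(T.b (T.b (T.a (T.a (T.l 204) (T.a (T.l 0) (T.b (T.l 0) (T.l 0)))) (T.a (T.b (T.a (T.l 204) (T.l 204)) (T.l 0)) (T.a (T.l 16) (T.b (T.l 204) (T.l 204))))) (T.a (T.a (T.l 0) (T.l 0)) (T.a (T.b (T.l 0) (T.l 0)) (T.l 0)))) (T.b (T.a (T.a (T.l 816) (T.l 0)) (T.a (T.l 0) (T.l 0))) (T.a (T.a (T.l 816) (T.l 816)) (T.l 816)))), by decide +kernel⟩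

def A022E_330 :
    ∃ t, chk3 (onCell 0 67108864 0 1073741824 536870912 50465866 (corT true 1 c0B cA022E gB3q0 gB3q2 gB0q2 gB1q2 true true)) t 1 1 1 = true :=
  ⟨(T.l 2), by decide +kernel⟩

def A022E_331 :
    ∃ t, chk3 (onCell 0 67108864 0 1073741824 536870912 50465866 (corT true 1 c0B cA022E gB3q0 gB3q2 gB1q2 gB2q2 true true)) t 1 1 1 = true :=
  ⟨(T.l 2), by decide +kernel⟩

def A022E_332 :
    ∃ t, chk3 (onCell 0 67108864 0 1073741824 536870912 50465866 (corT true 1 c0B cA022E gB3q0 gB3q2 gB2q2 gB3q2 true true)) t 1 1 1 = true :=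
  ⟨(T.l 2), by decide +kernel⟩

def A022E_333 :
    ∃ t, chk3 (onCell 0 67108864 0 1073741824 536870912 50465866 (corT true 1 c0B cA022E gB3q0 gB3q2 gB3q2 gB4q2 true false)) t 1 1 1 = true :=
  ⟨(T.b (T.b (T.a (T.a (T.l 0) (T.a (T.l 0) (T.b (T.l 0) (T.l 0)))) (T.a (T.b (T.a (T.l 0) (T.l 204)) (T.l 0)) (T.b (T.b (T.l 204) (T.l 204)) (T.l 0)))) (T.a (T.a (T.l 0) (T.l 0)) (T.b (T.l 0) (T.l 0)))) (T.b (T.a (T.a (T.l 816) (T.l 816)) (T.b (T.l 0) (T.l 816))) (T.a (T.a (T.l 816) (T.l 816)) (T.l 816)))), by decide +kernel⟩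

def A022L_005 :
    ∃ t, chk3 (onCell 0 67108864 0 1073741824 536870912 50465866 (corX 1 c0B cA022L tA022L gB0q0 gB0q2 gB5q2 gB6q2 gB6q2 false true)) t 1 1 1 = true :=
  ⟨(T.b (T.b (T.b (T.a (T.a (T.a (T.l 207) (T.l 207)) (T.a (T.l 207) (T.a (T.l 207) (T.b (T.l 204) (T.l 207))))) (T.a (T.a (T.a (T.b (T.l 204) (T.l 204)) (T.b (T.b (T.l 204) (T.l 204)) (T.l 204))) (T.a (T.b (T.b (T.l 204) (T.l 204)) (T.b (T.l 204) (T.l 204))) (T.b (T.l 204) (T.l 204)))) (T.a (T.b (T.a (T.l 204) (T.l 204)) (T.a (T.l 204) (T.l 204))) (T.b (T.a (T.b (T.l 204) (T.l 204)) (T.b (T.l 204) (T.l 204))) (T.a (T.l 204) (T.l 204)))))) (T.a (T.a (T.a (T.l 207) (T.l 207)) (T.b (T.l 207) (T.l 207))) (T.a (T.a (T.a (T.l 207) (T.b (T.l 204) (T.l 204))) (T.b (T.a (T.b (T.l 204) (T.l 204)) (T.l 220)) (T.a (T.l 204) (T.l 220)))) (T.a (T.b (T.b (T.l 204) (T.l 204)) (T.a (T.l 204) (T.l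 204))) (T.b (T.b (T.l 204) (T.l 204)) (T.b (T.l 204) (T.l 204))))))) (T.a (T.a (T.a (T.b (T.l 207) (T.l 207)) (T.b (T.l 207) (T.l 207))) (T.a (T.l 207) (T.l 207))) (T.a (T.b (T.a (T.l 207) (T.b (T.l 204) (T.l 220))) (T.l 207)) (T.b (T.a (T.b (T.a (T.l 220) (T.l 204)) (T.a (T.l 204) (T.l 220))) (T.b (T.b (T.l 204) (T.l 204)) (T.b (T.l 204) (T.l 204)))) (T.b (T.a (T.l 204) (T.b (T.l 204) (T.l 220))) (T.a (T.l 207) (T.l 220))))))) (T.b (T.a (T.a (T.a (T.b (T.l 207) (T.l 207)) (T.l 207)) (T.b (T.l 207) (T.l 207))) (T.b (T.a (T.l 207) (T.b (T.a (T.l 207) (T.b (T.l 204) (T.l 207))) (T.l 207))) (T.b (T.l 207) (T.l 2)))) (T.l 2))), by decide +kernel⟩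

def A022L_015 :
    ∃ t, chk3 (onCell 0 67108864 0 1073741824 536870912 50465866 (corT true 1 c0B cA022L gB0q0 gB1q2 gB5q2 gB6q2 false true)) t 1 1 1 = true :=
  ⟨(T.b (T.b (T.b (T.a (T.a (T.l 204) (T.a (T.l 204) (T.b (T.l 204) (T.l 204)))) (T.a (T.a (T.b (T.l 204) (T.l 204)) (T.l 204)) (T.a (T.l 204) (T.b (T.l 204) (T.l 204))))) (T.a (T.l 204) (T.a (T.a (T.b (T.l 204) (T.l 204)) (T.b (T.l 204) (T.l 204))) (T.b (T.l 204) (T.l 204))))) (T.a (T.b (T.l 204) (T.b (T.l 204) (T.l 204))) (T.a (T.b (T.a (T.l 204) (T.b (T.l 204) (T.l 204))) (T.l 204)) (T.b (T.a (T.b (T.l 204) (T.l 204)) (T.l 204)) (T.b (T.b (T.l 204) (T.l 204)) (T.b (T.l 204) (T.l 204))))))) (T.b (T.b (T.a (T.b (T.l 204) (T.a (T.l 0) (T.l 0))) (T.a (T.l 0) (T.b (T.b (T.l 0) (T.l 204)) (T.l 0)))) (T.b (T.b (T.b (T.a (T.a (T.l 2) (T.l 0)) (T.l 0)) (T.l 2)) (T.l 2)) (T.l 2))) (T.l 2))),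 by decide +kernel⟩

def A022L_025 :
    ∃ t, chk3 (onCell 0 67108864 0 1073741824 536870912 50465866 (corT true 1 c0B cA022L gB0q0 gB2q2 gB5q2 gB6q2 false true)) t 1 1 1 = true :=
  ⟨(T.b (T.b (T.b (T.a (T.a (T.l 204) (T.a (T.l 204) (T.l 0))) (T.a (T.b (T.l 0) (T.l 0)) (T.l 0))) (T.a (T.l 204) (T.a (T.b (T.l 0) (T.l 0)) (T.l 0)))) (T.a (T.l 0) (T.b (T.a (T.b (T.l 0) (T.l 0)) (T.b (T.l 0) (T.l 0))) (T.a (T.l 0) (T.b (T.l 0) (T.l 0)))))) (T.l 2)), by decide +kernel⟩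

def A022L_035 :
    ∃ t, chk3 (onCell 0 67108864 0 1073741824 536870912 50465866 (corT true 1 c0B cA022L gB0q0 gB3q2 gB5q2 gB6q2 false true)) t 1 1 1 = true :=
  ⟨(T.l 2), by decide +kernel⟩

def A022L_115 :
    ∃ t, chk3 (onCell 0 67108864 0 1073741824 536870912 50465866 (corT true 1 c0B cA022L gB1q0 gB1q2 gB5q2 gB6q2 false true)) t 1 1 1 = true :=
  ⟨(T.b (T.b (T.b (T.a (T.a (T.l 204) (T.a (T.l 204) (T.b (T.l 204) (T.l 204)))) (T.a (T.a (T.b (T.l 204) (T.l 204)) (T.l 204)) (T.a (T.l 204) (T.l 204)))) (T.a (T.l 204) (T.a (T.a (T.l 204) (T.l 204)) (T.b (T.l 204) (T.l 204))))) (T.a (T.l 0) (T.a (T.b (T.b (T.l 0) (T.l 0)) (T.l 0)) (T.b (T.b (T.l 0) (T.l 0)) (T.b (T.l 0) (T.l 0)))))) (T.b (T.b (T.a (T.l 816) (T.a (T.l 816) (T.b (T.l 0) (T.l 816)))) (T.l 2)) (T.l 2))), by decide +kernel⟩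

def A022L_125 :
    ∃ t, chk3 (onCell 0 67108864 0 1073741824 536870912 50465866 (corT true 1 c0B cA022L gB1q0 gB2q2 gB5q2 gB6q2 false true)) t 1 1 1 = true :=
  ⟨(T.b (T.b (T.b (T.a (T.a (T.l 204) (T.a (T.l 204) (T.l 0))) (T.a (T.l 0) (T.l 0))) (T.a (T.l 0) (T.a (T.l 0) (T.l 0)))) (T.a (T.l 0) (T.b (T.a (T.b (T.l 0) (T.l 0)) (T.l 0)) (T.a (T.l 816) (T.b (T.l 0) (T.l 2)))))) (T.l 2)), by decide +kernel⟩

def A022L_135 :
    ∃ t, chk3 (onCell 0 67108864 0 1073741824 536870912 50465866 (corT true 1 c0B cA022L gB1q0 gB3q2 gB5q2 gB6q2 false true)) t 1 1 1 = true :=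
  ⟨(T.l 2), by decide +kernel⟩

def A022L_225 :
    ∃ t, chk3 (onCell 0 67108864 0 1073741824 536870912 50465866 (corT true 1 c0B cA022L gB2q0 gB2q2 gB5q2 gB6q2 false true)) t 1 1 1 = true :=
  ⟨(T.b (T.b (T.b (T.a (T.a (T.l 204) (T.a (T.l 204) (T.l 0))) (T.a (T.l 0) (T.l 0))) (T.a (T.l 0) (T.a (T.l 0) (T.l 0)))) (T.b (T.a (T.l 816) (T.a (T.l 0) (T.l 0))) (T.l 2))) (T.l 2)), by decide +kernel⟩

def A022L_235 :
    ∃ t, chk3 (onCell 0 67108864 0 1073741824 536870912 50465866 (corT true 1 c0B cA022L gB2q0 gB3q2 gB5q2 gB6q2 false true)) t 1 1 1 = true :=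
  ⟨(T.l 2), by decide +kernel⟩

def A022L_335 :
    ∃ t, chk3 (onCell 0 67108864 0 1073741824 536870912 50465866 (corT true 1 c0B cA022L gB3q0 gB3q2 gB5q2 gB6q2 false true)) t 1 1 1 = true :=
  ⟨(T.l 2), by decide +kernel⟩

def A022R_060 :
    ∃ t, chk3 (onCell 0 67108864 0 1073741824 536870912 50465866 (corT true 1 c0B cA022R gB0q0 gB6q2 gB0q2 gB1q2 true true)) t 1 1 1 = true :=
  ⟨(T.l 2), by decide +kernel⟩

def A022R_061 :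
    ∃ t, chk3 (onCell 0 67108864 0 1073741824 536870912 50465866 (corT true 1 c0B cA022R gB0q0 gB6q2 gB1q2 gB2q2 true true)) t 1 1 1 = true :=
  ⟨(T.l 2), by decide +kernel⟩

def A022R_062 :
    ∃ t, chk3 (onCell 0 67108864 0 1073741824 536870912 50465866 (corT true 1 c0B cA022R gB0q0 gB6q2 gB2q2 gB3q2 true true)) t 1 1 1 = true :=
  ⟨(T.b (T.b (T.b (T.b (T.a (T.a (T.l 204) (T.a (T.l 204) (T.l 0))) (T.a (T.l 0) (T.l 0))) (T.a (T.a (T.l 0) (T.a (T.l 0) (T.l 0))) (T.a (T.l 0) (T.l 0)))) (T.b (T.a (T.a (T.l 0) (T.a (T.l 0) (T.l 0))) (T.a (T.l 0) (T.l 0))) (T.a (T.a (T.l 0) (T.a (T.l 0) (T.l 0))) (T.a (T.l 0) (T.l 0))))) (T.b (T.b (T.a (T.a (T.l 0) (T.a (T.l 816) (T.l 0))) (T.a (T.l 0) (T.l 0))) (T.a (T.a (T.l 816) (T.a (T.l 816) (T.l 0))) (T.a (T.l 0) (T.l 0)))) (T.a (T.a (T.l 816) (T.b (T.l 2) (T.l 2))) (T.l 2)))) (T.l 2)), by decide +kernel⟩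

def A022R_063 :
    ∃ t, chk3 (onCell 0 67108864 0 1073741824 536870912 50465866 (corT true 1 c0B cA022R gB0q0 gB6q2 gB3q2 gB4q2 true false)) t 1 1 1 = true :=
  ⟨(T.a (T.a (T.l 0) (T.a (T.l 0) (T.l 0))) (T.b (T.l 16) (T.a (T.l 816) (T.l 816)))), by decide +kernel⟩

def A022R_160 :
    ∃ t, chk3 (onCell 0 67108864 0 1073741824 536870912 50465866 (corT true 1 c0B cA022R gB1q0 gB6q2 gB0q2 gB1q2 true true)) t 1 1 1 = true :=
  ⟨(T.l 2), by decide +kernel⟩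

def A022R_161 :
    ∃ t, chk3 (onCell 0 67108864 0 1073741824 536870912 50465866 (corT true 1 c0B cA022R gB1q0 gB6q2 gB1q2 gB2q2 true true)) t 1 1 1 = true :=
  ⟨(T.l 2), by decide +kernel⟩

def A022R_162 :
    ∃ t, chk3 (onCell 0 67108864 0 1073741824 536870912 50465866 (corT true 1 c0B cA022R gB1q0 gB6q2 gB2q2 gB3q2 true true)) t 1 1 1 = true :=
  ⟨(T.b (T.b (T.b (T.a (T.a (T.l 0) (T.a (T.l 0) (T.l 0))) (T.a (T.l 0) (T.l 0))) (T.a (T.a (T.l 0) (T.a (T.l 0) (T.l 0))) (T.a (T.l 0) (T.l 0)))) (T.b (T.a (T.a (T.l 816) (T.a (T.l 816) (T.l 0))) (T.a (T.l 0) (T.l 0))) (T.a (T.a (T.l 816) (T.a (T.l 816) (T.l 816))) (T.a (T.l 0) (T.l 816))))) (T.b (T.b (T.a (T.a (T.l 816) (T.a (T.l 816) (T.l 816))) (T.a (T.l 0) (T.l 2))) (T.a (T.a (T.l 816) (T.l 2)) (T.l 2))) (T.l 2))), by decide +kernel⟩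

def A022R_163 :
    ∃ t, chk3 (onCell 0 67108864 0 1073741824 536870912 50465866 (corT true 1 c0B cA022R gB1q0 gB6q2 gB3q2 gB4q2 true false)) t 1 1 1 = true :=
  ⟨(T.a (T.a (T.l 0) (T.l 16)) (T.a (T.l 0) (T.l 0))), by decide +kernel⟩

def A022R_260 :
    ∃ t, chk3 (onCell 0 67108864 0 1073741824 536870912 50465866 (corT true 1 c0B cA022R gB2q0 gB6q2 gB0q2 gB1q2 true true)) t 1 1 1 = true :=
  ⟨(T.l 2), by decide +kernel⟩

def A022R_261 :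
    ∃ t, chk3 (onCell 0 67108864 0 1073741824 536870912 50465866 (corT true 1 c0B cA022R gB2q0 gB6q2 gB1q2 gB2q2 true true)) t 1 1 1 = true :=
  ⟨(T.l 2), by decide +kernel⟩

def A022R_262 :
    ∃ t, chk3 (onCell 0 67108864 0 1073741824 536870912 50465866 (corT true 1 c0B cA022R gB2q0 gB6q2 gB2q2 gB3q2 true true)) t 1 1 1 = true :=
  ⟨(T.b (T.a (T.a (T.l 0) (T.a (T.l 0) (T.l 0))) (T.a (T.l 0) (T.l 0))) (T.a (T.a (T.l 816) (T.l 64)) (T.a (T.l 816) (T.l 816)))), by decide +kernel⟩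

def A022R_263 :
    ∃ t, chk3 (onCell 0 67108864 0 1073741824 536870912 50465866 (corT true 1 c0B cA022R gB2q0 gB6q2 gB3q2 gB4q2 true false)) t 1 1 1 = true :=
  ⟨(T.l 1), by decide +kernel⟩

def A022R_360 :
    ∃ t, chk3 (onCell 0 67108864 0 1073741824 536870912 50465866 (corT true 1 c0B cA022R gB3q0 gB6q2 gB0q2 gB1q2 true true)) t 1 1 1 = true :=
  ⟨(T.l 2), by decide +kernel⟩

def A022R_361 :
    ∃ t, chk3 (onCell 0 67108864 0 1073741824 536870912 50465866 (corT true 1 c0B cA022R gB3q0 gB6q2 gB1q2 gB2q2 true true)) t 1 1 1 = true :=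
  ⟨(T.b (T.l 2) (T.b (T.a (T.a (T.l 816) (T.a (T.l 816) (T.l 816))) (T.a (T.l 816) (T.l 2))) (T.a (T.a (T.l 816) (T.c (T.l 816) (T.l 816))) (T.a (T.l 816) (T.l 816))))), by decide +kernel⟩

def A022R_362 :
    ∃ t, chk3 (onCell 0 67108864 0 1073741824 536870912 50465866 (corT true 1 c0B cA022R gB3q0 gB6q2 gB2q2 gB3q2 true true)) t 1 1 1 = true :=
  ⟨(T.b (T.b (T.a (T.a (T.l 0) (T.a (T.l 0) (T.l 0))) (T.a (T.l 0) (T.l 0))) (T.a (T.a (T.l 816) (T.l 0)) (T.a (T.l 816) (T.l 816)))) (T.a (T.a (T.l 816) (T.l 816)) (T.b (T.l 816) (T.l 816)))), by decide +kernel⟩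

def A022R_363 :
    ∃ t, chk3 (onCell 0 67108864 0 1073741824 536870912 50465866 (corT true 1 c0B cA022R gB3q0 gB6q2 gB3q2 gB4q2 true false)) t 1 1 1 = true :=
  ⟨(T.l 1), by decide +kernel⟩

def A101E_000 :
    ∃ t, chk3 (onCell 0 67108864 0 1073741824 536870912 50465866 (corT true 1 c0B cA101E gB0q1 gB0q0 gB0q1 gB1q1 true false)) t 1 1 1 = true :=
  ⟨(T.l 1), by decide +kernel⟩

def A101E_010 :
    ∃ t, chk3 (onCell 0 67108864 0 1073741824 536870912 50465866 (corT true 1 c0B cA101E gB0q1 gB1q0 gB0q1 gB1q1 true false)) t 1 1 1 = true :=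
  ⟨(T.l 1), by decide +kernel⟩

def A101E_020 :
    ∃ t, chk3 (onCell 0 67108864 0 1073741824 536870912 50465866 (corT true 1 c0B cA101E gB0q1 gB2q0 gB0q1 gB1q1 true false)) t 1 1 1 = true :=
  ⟨(T.l 1), by decide +kernel⟩

def A101E_030 :
    ∃ t, chk3 (onCell 0 67108864 0 1073741824 536870912 50465866 (corT true 1 c0B cA101E gB0q1 gB3q0 gB0q1 gB1q1 true false)) t 1 1 1 = true :=
  ⟨(T.b (T.l 1) (T.l 1)), by decide +kernel⟩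

def A101R_003 :
    ∃ t, chk3 (onCell 0 67108864 0 1073741824 536870912 50465866 (corT true 1 c0B cA101R gB0q1 gB0q0 gB3q1 gB4q1 false true)) t 1 1 1 = true :=
  ⟨(T.l 2), by decide +kernel⟩

def A101R_004 :
    ∃ t, chk3 (onCell 0 67108864 0 1073741824 536870912 50465866 (corT true 1 c0B cA101R gB0q1 gB0q0 gB4q1 gB5q1 true true)) t 1 1 1 = true :=
  ⟨(T.l 2), by decide +kernel⟩

def A101R_005 :
    ∃ t, chk3 (onCell 0 67108864 0 1073741824 536870912 50465866 (corT true 1 c0B cA101R gB0q1 gB0q0 gB5q1 gB6q1 true true)) t 1 1 1 = true :=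
  ⟨(T.l 2), by decide +kernel⟩

def A101R_013 :
    ∃ t, chk3 (onCell 0 67108864 0 1073741824 536870912 50465866 (corT true 1 c0B cA101R gB0q1 gB1q0 gB3q1 gB4q1 false true)) t 1 1 1 = true :=
  ⟨(T.l 2), by decide +kernel⟩

def A101R_014 :
    ∃ t, chk3 (onCell 0 67108864 0 1073741824 536870912 50465866 (corT true 1 c0B cA101R gB0q1 gB1q0 gB4q1 gB5q1 true true)) t 1 1 1 = true :=
  ⟨(T.l 2), by decide +kernel⟩

def A101R_015 :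
    ∃ t, chk3 (onCell 0 67108864 0 1073741824 536870912 50465866 (corT true 1 c0B cA101R gB0q1 gB1q0 gB5q1 gB6q1 true true)) t 1 1 1 = true :=
  ⟨(T.l 2), by decide +kernel⟩

def A101R_023 :
    ∃ t, chk3 (onCell 0 67108864 0 1073741824 536870912 50465866 (corT true 1 c0B cA101R gB0q1 gB2q0 gB3q1 gB4q1 false true)) t 1 1 1 = true :=
  ⟨(T.l 2), by decide +kernel⟩

def A101R_024 :
    ∃ t, chk3 (onCell 0 67108864 0 1073741824 536870912 50465866 (corT true 1 c0B cA101R gB0q1 gB2q0 gB4q1 gB5q1 true true)) t 1 1 1 = true :=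
  ⟨(T.l 2), by decide +kernel⟩

def A101R_025 :
    ∃ t, chk3 (onCell 0 67108864 0 1073741824 536870912 50465866 (corT true 1 c0B cA101R gB0q1 gB2q0 gB5q1 gB6q1 true true)) t 1 1 1 = true :=
  ⟨(T.l 2), by decide +kernel⟩

def A101R_033 :
    ∃ t, chk3 (onCell 0 67108864 0 1073741824 536870912 50465866 (corT true 1 c0B cA101R gB0q1 gB3q0 gB3q1 gB4q1 false true)) t 1 1 1 = true :=
  ⟨(T.l 2), by decide +kernel⟩

def A101R_034 :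
    ∃ t, chk3 (onCell 0 67108864 0 1073741824 536870912 50465866 (corT true 1 c0B cA101R gB0q1 gB3q0 gB4q1 gB5q1 true true)) t 1 1 1 = true :=
  ⟨(T.l 2), by decide +kernel⟩

def A101R_035 :
    ∃ t, chk3 (onCell 0 67108864 0 1073741824 536870912 50465866 (corT true 1 c0B cA101R gB0q1 gB3q0 gB5q1 gB6q1 true true)) t 1 1 1 = true :=
  ⟨(T.l 2), by decide +kernel⟩

def A102E_000 :
    ∃ t, chk3 (onCell 0 67108864 0 1073741824 536870912 50465866 (corX 1 c0B cA102E tA102E gB0q1 gB0q0 gB0q2 gB1q2 gB0q2 true true)) t 1 1 1 = true :=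
  ⟨(T.b (T.b (T.l 2) (T.b (T.l 2) (T.b (T.l 2) (T.b (T.a (T.a (T.a (T.b (T.l 2) (T.a (T.a (T.c (T.l 3) (T.l 819)) (T.l 2)) (T.l 2))) (T.l 2)) (T.l 2)) (T.l 2)) (T.a (T.a (T.a (T.a (T.a (T.c (T.l 3) (T.l 819)) (T.l 819)) (T.c (T.l 819) (T.l 819))) (T.c (T.l 3) (T.l 819))) (T.a (T.l 819) (T.l 819))) (T.a (T.c (T.l 3) (T.l 3)) (T.b (T.l 2) (T.a (T.c (T.l 3) (T.l 3)) (T.a (T.c (T.l 3) (T.l 3)) (T.b (T.b (T.l 2) (T.a (T.l 3) (T.b (T.l 2) (T.a (T.a (T.l 207) (T.c (T.c (T.l 0) (T.l 204)) (T.c (T.l 204) (T.l 204)))) (T.a (T.c (T.l 0) (T.l 0)) (T.l 0)))))) (T.a (T.l 3) (T.c (T.a (T.b (T.a (T.l 207) (T.c (T.l 0) (T.l 0))) (T.l 207)) (T.b (T.c (T.a (T.b (T.l 0) (T.l 0)) (T.l 0)) (T.a (T.b (T.l 0) (T.l 204)) (T.l 0))) (T.c (T.a (T.l 0) (T.b (T.l 0) (T.l 0))) (T.a (T.l 0) (T.b (T.l 0) (T.l 204)))))) (T.a (T.b (T.a (T.l 207) (T.c (T.l 0) (T.l 204))) (T.l 207))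 (T.b (T.c (T.a (T.b (T.l 0) (T.l 204)) (T.l 0)) (T.a (T.b (T.l 204) (T.l 204)) (T.l 0))) (T.c (T.a (T.l 0) (T.b (T.l 0) (T.l 204))) (T.a (T.l 460) (T.b (T.l 204) (T.l 204)))))))))))))))))) (T.b (T.b (T.b (T.b (T.a (T.b (T.a (T.b (T.a (T.a (T.a (T.l 3) (T.l 819)) (T.l 819)) (T.l 819)) (T.l 1)) (T.c (T.l 819) (T.l 819))) (T.l 1)) (T.a (T.c (T.l 3) (T.l 3)) (T.a (T.c (T.l 3) (T.l 3)) (T.b (T.a (T.l 3) (T.a (T.l 3) (T.b (T.b (T.a (T.l 3) (T.b (T.a (T.l 207) (T.a (T.l 207) (T.c (T.l 204) (T.l 204)))) (T.l 207))) (T.l 3)) (T.l 3)))) (T.a (T.l 3) (T.c (T.l 3) (T.l 3))))))) (T.l 1)) (T.l 1)) (T.l 1)) (T.l 1))), by decide +kernel⟩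

def A102E_001_1_4_1 :
    ∃ t, chk3 (onCell 0 67108864 0 1073741824 536870912 50465866 (corT true 1 c0B cA102E gB0q1 gB0q0 gB1q2 gB2q2 true true)) t 1 4 1 = true :=
  ⟨(T.l 2), by decide +kernel⟩

def A102E_001_1_10_1 :
    ∃ t, chk3 (onCell 0 67108864 0 1073741824 536870912 50465866 (corT true 1 c0B cA102E gB0q1 gB0q0 gB1q2 gB2q2 true true)) t 1 10 1 = true :=
  ⟨(T.a (T.b (T.l 2) (T.a (T.b (T.l 2) (T.a (T.b (T.l 2) (T.c (T.c (T.l 204) (T.l 204)) (T.l 0))) (T.l 2))) (T.l 2))) (T.l 2)), by decide +kernel⟩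

def A102E_001_1_22_1 :
    ∃ t, chk3 (onCell 0 67108864 0 1073741824 536870912 50465866 (corT true 1 c0B cA102E gB0q1 gB0q0 gB1q2 gB2q2 true true)) t 1 22 1 = true :=
  ⟨(T.a (T.c (T.a (T.b (T.c (T.a (T.b (T.l 204) (T.l 204)) (T.l 204)) (T.l 0)) (T.c (T.a (T.c (T.b (T.l 204) (T.l 204)) (T.l 204)) (T.l 0)) (T.b (T.l 0) (T.l 0)))) (T.b (T.c (T.a (T.l 204) (T.l 204)) (T.l 0)) (T.c (T.l 0) (T.l 0)))) (T.b (T.a (T.l 0) (T.l 0)) (T.a (T.b (T.l 0) (T.a (T.l 0) (T.l 0))) (T.l 0)))) (T.a (T.c (T.b (T.a (T.l 0) (T.l 0)) (T.l 16)) (T.b (T.l 0) (T.l 0))) (T.b (T.b (T.l 2) (T.a (T.a (T.l 0) (T.c (T.a (T.l 16) (T.l 0)) (T.l 0))) (T.a (T.c (T.a (T.l 0) (T.l 0)) (T.l 0)) (T.c (T.a (T.l 0) (T.l 0)) (T.l 0))))) (T.a (T.a (T.l 0) (T.b (T.c (T.a (T.l 0) (T.l 0)) (T.l 0)) (T.c (T.c (T.l 0) (T.l 0)) (T.l 0)))) (T.a (T.b (T.c (T.c (T.l 0) (T.l 0)) (T.l 0)) (T.a (T.c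 (T.l 0) (T.l 0)) (T.l 16))) (T.c (T.b (T.c (T.l 16) (T.l 0)) (T.c (T.l 0) (T.l 0))) (T.b (T.l 0) (T.l 0)))))))), by decide +kernel⟩

def A102E_001_2_23_1 :
    ∃ t, chk3 (onCell 0 67108864 0 1073741824 536870912 50465866 (corT true 1 c0B cA102E gB0q1 gB0q0 gB1q2 gB2q2 true true)) t 2 23 1 = true :=
  ⟨(T.b (T.a (T.c (T.a (T.b (T.c (T.c (T.a (T.l 204) (T.l 204)) (T.l 204)) (T.l 0)) (T.c (T.a (T.b (T.c (T.l 204) (T.l 204)) (T.c (T.l 0) (T.l 0))) (T.l 0)) (T.b (T.l 0) (T.a (T.c (T.l 0) (T.l 0)) (T.l 0))))) (T.c (T.b (T.l 0) (T.l 0)) (T.b (T.l 0) (T.l 0)))) (T.b (T.c (T.a (T.l 0) (T.l 0)) (T.l 0)) (T.a (T.b (T.c (T.l 0) (T.l 816)) (T.a (T.b (T.l 0) (T.c (T.l 816) (T.l 816))) (T.l 0))) (T.l 0)))) (T.c (T.b (T.l 0) (T.l 0)) (T.a (T.l 0) (T.l 0)))) (T.b (T.a (T.b (T.a (T.b (T.c (T.a (T.b (T.a (T.a (T.l 1) (T.l 816)) (T.l 816)) (T.l 1)) (T.l 816)) (T.a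 (T.b (T.a (T.a (T.l 1) (T.l 816)) (T.l 816)) (T.l 1)) (T.l 816))) (T.l 1)) (T.a (T.c (T.l 816) (T.l 816)) (T.l 816))) (T.l 1)) (T.a (T.c (T.l 0) (T.l 0)) (T.l 0))) (T.l 1))), by decide +kernel⟩

def A102E_001_3_23_1 :
    ∃ t, chk3 (onCell 0 67108864 0 1073741824 536870912 50465866 (corT true 1 c0B cA102E gB0q1 gB0q0 gB1q2 gB2q2 true true)) t 3 23 1 = true :=
  ⟨(T.a (T.b (T.c (T.l 0) (T.l 0)) (T.b (T.c (T.l 0) (T.l 0)) (T.b (T.b (T.c (T.l 0) (T.l 0)) (T.l 1)) (T.l 1)))) (T.a (T.b (T.l 0) (T.b (T.c (T.l 0) (T.l 0)) (T.b (T.b (T.l 0) (T.b (T.c (T.l 0) (T.l 0)) (T.l 1))) (T.l 1)))) (T.b (T.a (T.b (T.a (T.l 0) (T.l 0)) (T.c (T.l 0) (T.l 0))) (T.b (T.c (T.l 0) (T.l 0)) (T.c (T.l 0) (T.l 0)))) (T.a (T.b (T.l 0) (T.b (T.b (T.l 0) (T.b (T.l 0) (T.l 1))) (T.l 1))) (T.b (T.b (T.c (T.l 0) (T.l 0)) (T.a (T.c (T.l 0) (T.l 0)) (T.c (T.l 0) (T.l 0)))) (T.b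 (T.a (T.b (T.c (T.l 0) (T.l 0)) (T.b (T.l 0) (T.b (T.c (T.l 0) (T.l 204)) (T.l 1)))) (T.b (T.c (T.l 0) (T.l 0)) (T.c (T.a (T.b (T.l 0) (T.b (T.a (T.l 204) (T.c (T.l 204) (T.l 204))) (T.l 1))) (T.b (T.l 0) (T.a (T.b (T.l 0) (T.b (T.l 0) (T.l 1))) (T.l 0)))) (T.a (T.b (T.l 0) (T.b (T.a (T.l 204) (T.c (T.l 204) (T.l 204))) (T.l 1))) (T.b (T.l 0) (T.a (T.b (T.l 0) (T.b (T.l 204) (T.l 1))) (T.l 0))))))) (T.l 1))))))), by decide +kernel⟩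

def A102E_001_1_3_1 :
    ∃ t, chk3 (onCell 0 67108864 0 1073741824 536870912 50465866 (corT true 1 c0B cA102E gB0q1 gB0q0 gB1q2 gB2q2 true true)) t 1 3 1 = true :=
  ⟨(T.b (T.b (T.l 1) (T.l 1)) (T.l 1)), by decide +kernel⟩

theorem A102E_001_1_23_1 :
    ∃ t, chk3 (onCell 0 67108864 0 1073741824 536870912 50465866 (corT true 1 c0B cA102E gB0q1 gB0q0 gB1q2 gB2q2 true true)) t 1 23 1 = true :=
  ex3_a A102E_001_2_23_1 A102E_001_3_23_1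
theorem A102E_001_1_11_1 :
    ∃ t, chk3 (onCell 0 67108864 0 1073741824 536870912 50465866 (corT true 1 c0B cA102E gB0q1 gB0q0 gB1q2 gB2q2 true true)) t 1 11 1 = true :=
  ex3_b A102E_001_1_22_1 A102E_001_1_23_1
theorem A102E_001_1_5_1 :
    ∃ t, chk3 (onCell 0 67108864 0 1073741824 536870912 50465866 (corT true 1 c0B cA102E gB0q1 gB0q0 gB1q2 gB2q2 true true)) t 1 5 1 = true :=
  ex3_b A102E_001_1_10_1 A102E_001_1_11_1
theorem A102E_001_1_2_1 :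
    ∃ t, chk3 (onCell 0 67108864 0 1073741824 536870912 50465866 (corT true 1 c0B cA102E gB0q1 gB0q0 gB1q2 gB2q2 true true)) t 1 2 1 = true :=
  ex3_b A102E_001_1_4_1 A102E_001_1_5_1
theorem A102E_001 :
    ∃ t, chk3 (onCell 0 67108864 0 1073741824 536870912 50465866 (corT true 1 c0B cA102E gB0q1 gB0q0 gB1q2 gB2q2 true true)) t 1 1 1 = true :=
  ex3_b A102E_001_1_2_1 A102E_001_1_3_1

def A102E_002_1_8_1 :
    ∃ t, chk3 (onCell 0 67108864 0 1073741824 536870912 50465866 (corT true 1 c0B cA102E gB0q1 gB0q0 gB2q2 gB3q2 true true)) t 1 8 1 = true :=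
  ⟨(T.l 2), by decide +kernel⟩

def A102E_002_2_9_1 :
    ∃ t, chk3 (onCell 0 67108864 0 1073741824 536870912 50465866 (corT true 1 c0B cA102E gB0q1 gB0q0 gB2q2 gB3q2 true true)) t 2 9 1 = true :=
  ⟨(T.b (T.b (T.l 2) (T.c (T.a (T.a (T.l 204) (T.l 204)) (T.a (T.l 204) (T.l 204))) (T.a (T.a (T.l 204) (T.l 204)) (T.a (T.l 204) (T.l 204))))) (T.c (T.a (T.b (T.a (T.l 204) (T.l 204)) (T.a (T.l 204) (T.l 204))) (T.b (T.a (T.l 204) (T.l 204)) (T.a (T.l 204) (T.l 204)))) (T.a (T.b (T.l 204) (T.l 204)) (T.b (T.l 204) (T.l 204))))), by decide +kernel⟩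

def A102E_002_3_18_1 :
    ∃ t, chk3 (onCell 0 67108864 0 1073741824 536870912 50465866 (corT true 1 c0B cA102E gB0q1 gB0q0 gB2q2 gB3q2 true true)) t 3 18 1 = true :=
  ⟨(T.b (T.l 2) (T.b (T.l 2) (T.b (T.a (T.b (T.a (T.a (T.l 204) (T.a (T.l 204) (T.c (T.c (T.l 204) (T.l 204)) (T.l 220)))) (T.b (T.l 2) (T.a (T.a (T.c (T.l 204) (T.l 204)) (T.l 220)) (T.c (T.l 204) (T.l 204))))) (T.a (T.a (T.l 204) (T.a (T.l 204) (T.c (T.c (T.l 204) (T.l 204)) (T.l 204)))) (T.a (T.a (T.c (T.l 204) (T.l 204)) (T.c (T.l 204) (T.l 204))) (T.c (T.l 204) (T.l 204))))) (T.b (T.l 2) (T.a (T.a (T.c (T.l 204) (T.l 204)) (T.l 220)) (T.a (T.l 204) (T.l 204))))) (T.a (T.a (T.a (T.l 204) (T.a (T.l 204) (T.c (T.c (T.l 204) (T.l 204)) (T.l 220)))) (T.a (T.a (T.c (T.l 204) (T.l 204)) (T.c (T.l 204) (T.l 204))) (T.c (T.c (T.l 204) (T.l 204)) (T.l 204)))) (T.a (T.a (T.c (T.l 204)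 (T.l 204)) (T.c (T.l 204) (T.l 204))) (T.a (T.l 204) (T.l 204))))))), by decide +kernel⟩

def A102E_002_3_19_1 :
    ∃ t, chk3 (onCell 0 67108864 0 1073741824 536870912 50465866 (corT true 1 c0B cA102E gB0q1 gB0q0 gB2q2 gB3q2 true true)) t 3 19 1 = true :=
  ⟨(T.b (T.b (T.b (T.a (T.a (T.a (T.l 204) (T.a (T.l 204) (T.c (T.c (T.l 204) (T.l 204)) (T.l 204)))) (T.a (T.c (T.a (T.l 204) (T.l 204)) (T.c (T.l 204) (T.l 204))) (T.c (T.c (T.l 204) (T.l 204)) (T.l 204)))) (T.a (T.a (T.c (T.l 204) (T.l 204)) (T.c (T.l 204) (T.l 204))) (T.a (T.l 220) (T.l 204)))) (T.a (T.a (T.a (T.l 204) (T.a (T.l 204) (T.c (T.c (T.l 204) (T.l 204)) (T.l 204)))) (T.a (T.a (T.c (T.l 220) (T.l 204)) (T.c (T.l 204) (T.l 204))) (T.c (T.c (T.l 204) (T.l 204)) (T.l 204)))) (T.a (T.a (T.c (T.l 204) (T.l 204)) (T.c (T.l 204) (T.l 204))) (T.a (T.l 220) (T.l 204))))) (T.a (T.a (T.c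 (T.l 204) (T.l 204)) (T.a (T.a (T.c (T.c (T.l 220) (T.l 204)) (T.l 220)) (T.c (T.l 220) (T.l 204))) (T.c (T.c (T.l 220) (T.l 204)) (T.c (T.l 204) (T.l 204))))) (T.a (T.a (T.c (T.c (T.l 204) (T.l 204)) (T.l 204)) (T.c (T.l 204) (T.l 204))) (T.a (T.c (T.l 204) (T.l 204)) (T.c (T.l 204) (T.l 204)))))) (T.a (T.a (T.c (T.l 204) (T.l 204)) (T.a (T.c (T.a (T.b (T.c (T.l 220) (T.l 204)) (T.c (T.l 204) (T.l 204))) (T.b (T.l 220) (T.c (T.l 204) (T.l 204)))) (T.a (T.b (T.l 204) (T.l 204)) (T.b (T.l 204) (T.l 204)))) (T.c (T.a (T.b (T.l 204) (T.l 204)) (T.b (T.l 204) (T.l 204))) (T.b (T.l 220) (T.l 204))))) (T.a (T.a (T.c (T.a (T.b (T.l 204) (T.l 204)) (T.l 220)) (T.b (T.l 204) (T.l 204))) (T.c (T.b (T.l 220) (T.l 220)) (T.b (T.l 204) (T.l 204)))) (T.a (T.c (T.b (T.l 204) (T.l 204)) (T.l 204)) (T.c (T.b (T.l 204) (T.l 204)) (T.l 204)))))), by decide +kernel⟩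

def A102E_002_2_10_1 :
    ∃ t, chk3 (onCell 0 67108864 0 1073741824 536870912 50465866 (corT true 1 c0B cA102E gB0q1 gB0q0 gB2q2 gB3q2 true true)) t 2 10 1 = true :=
  ⟨(T.b (T.c (T.a (T.c (T.b (T.l 204) (T.l 204)) (T.l 204)) (T.c (T.b (T.l 204) (T.l 204)) (T.l 204))) (T.a (T.b (T.l 204) (T.l 204)) (T.b (T.l 204) (T.l 204)))) (T.c (T.a (T.c (T.b (T.l 204) (T.a (T.l 204) (T.l 204))) (T.l 0)) (T.c (T.b (T.l 204) (T.l 204)) (T.l 0))) (T.a (T.l 0) (T.l 0)))), by decide +kernel⟩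

def A102E_002_3_10_1 :
    ∃ t, chk3 (onCell 0 67108864 0 1073741824 536870912 50465866 (corT true 1 c0B cA102E gB0q1 gB0q0 gB2q2 gB3q2 true true)) t 3 10 1 = true :=
  ⟨(T.a (T.a (T.b (T.c (T.b (T.l 204) (T.l 204)) (T.l 204)) (T.c (T.b (T.l 204) (T.l 204)) (T.l 0))) (T.b (T.a (T.b (T.a (T.c (T.l 204) (T.l 204)) (T.c (T.b (T.c (T.l 204) (T.l 204)) (T.l 220)) (T.b (T.l 204) (T.l 204)))) (T.c (T.l 204) (T.l 204))) (T.b (T.c (T.a (T.b (T.l 204) (T.l 220)) (T.b (T.l 204) (T.l 204))) (T.b (T.l 204) (T.l 204))) (T.c (T.a (T.b (T.l 220) (T.l 204)) (T.b (T.l 204) (T.l 204))) (T.b (T.l 204) (T.l 204))))) (T.b (T.a (T.l 220) (T.c (T.b (T.c (T.l 204) (T.l 204)) (T.l 220)) (T.l 0))) (T.c (T.l 204) (T.l 0))))) (T.b (T.a (T.b (T.a (T.c (T.a (T.b (T.l 204) (T.l 204)) (T.l 220)) (T.b (T.l 204) (T.l 204))) (T.c (T.b (T.l 220) (T.l 220)) (T.l 220))) (T.a (T.c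 (T.b (T.c (T.l 204) (T.l 204)) (T.l 220)) (T.l 204)) (T.c (T.b (T.l 220) (T.l 220)) (T.l 204)))) (T.b (T.a (T.c (T.b (T.l 204) (T.l 204)) (T.l 204)) (T.c (T.b (T.l 204) (T.l 204)) (T.l 204))) (T.a (T.c (T.b (T.l 204) (T.l 204)) (T.l 204)) (T.c (T.b (T.l 204) (T.l 204)) (T.l 204))))) (T.a (T.b (T.a (T.c (T.b (T.l 220) (T.c (T.l 204) (T.l 204))) (T.l 0)) (T.c (T.b (T.l 204) (T.l 204)) (T.l 0))) (T.a (T.c (T.b (T.l 220) (T.l 204)) (T.l 0)) (T.c (T.b (T.l 204) (T.l 0)) (T.l 0)))) (T.b (T.c (T.a (T.b (T.l 204) (T.l 204)) (T.b (T.l 204) (T.l 204))) (T.b (T.l 0) (T.l 0))) (T.c (T.a (T.b (T.l 204) (T.l 0)) (T.b (T.l 204) (T.l 0))) (T.b (T.l 0) (T.l 0))))))), by decide +kernel⟩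

def A102E_002_1_11_1 :
    ∃ t, chk3 (onCell 0 67108864 0 1073741824 536870912 50465866 (corT true 1 c0B cA102E gB0q1 gB0q0 gB2q2 gB3q2 true true)) t 1 11 1 = true :=
  ⟨(T.b (T.b (T.a (T.b (T.c (T.a (T.a (T.l 0) (T.l 0)) (T.l 0)) (T.l 0)) (T.l 1)) (T.a (T.c (T.l 0) (T.l 0)) (T.a (T.a (T.c (T.b (T.l 0) (T.l 0)) (T.l 0)) (T.c (T.b (T.l 0) (T.l 0)) (T.l 0))) (T.a (T.c (T.b (T.l 0) (T.l 0)) (T.l 0)) (T.c (T.b (T.l 0) (T.l 0)) (T.l 0)))))) (T.l 1)) (T.l 1)), by decide +kernel⟩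

def A102E_002_1_3_1 :
    ∃ t, chk3 (onCell 0 67108864 0 1073741824 536870912 50465866 (corT true 1 c0B cA102E gB0q1 gB0q0 gB2q2 gB3q2 true true)) t 1 3 1 = true :=
  ⟨(T.l 1), by decide +kernel⟩

theorem A102E_002_1_10_1 :
    ∃ t, chk3 (onCell 0 67108864 0 1073741824 536870912 50465866 (corT true 1 c0B cA102E gB0q1 gB0q0 gB2q2 gB3q2 true true)) t 1 10 1 = true :=
  ex3_a A102E_002_2_10_1 A102E_002_3_10_1
theorem A102E_002_1_5_1 :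
    ∃ t, chk3 (onCell 0 67108864 0 1073741824 536870912 50465866 (corT true 1 c0B cA102E gB0q1 gB0q0 gB2q2 gB3q2 true true)) t 1 5 1 = true :=
  ex3_b A102E_002_1_10_1 A102E_002_1_11_1
theorem A102E_002_3_9_1 :
    ∃ t, chk3 (onCell 0 67108864 0 1073741824 536870912 50465866 (corT true 1 c0B cA102E gB0q1 gB0q0 gB2q2 gB3q2 true true)) t 3 9 1 = true :=
  ex3_b A102E_002_3_18_1 A102E_002_3_19_1
theorem A102E_002_1_9_1 :
    ∃ t, chk3 (onCell 0 67108864 0 1073741824 536870912 50465866 (corT true 1 c0B cA102E gB0q1 gB0q0 gB2q2 gB3q2 true true)) t 1 9 1 = true :=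
  ex3_a A102E_002_2_9_1 A102E_002_3_9_1
theorem A102E_002_1_4_1 :
    ∃ t, chk3 (onCell 0 67108864 0 1073741824 536870912 50465866 (corT true 1 c0B cA102E gB0q1 gB0q0 gB2q2 gB3q2 true true)) t 1 4 1 = true :=
  ex3_b A102E_002_1_8_1 A102E_002_1_9_1
theorem A102E_002_1_2_1 :
    ∃ t, chk3 (onCell 0 67108864 0 1073741824 536870912 50465866 (corT true 1 c0B cA102E gB0q1 gB0q0 gB2q2 gB3q2 true true)) t 1 2 1 = true :=
  ex3_b A102E_002_1_4_1 A102E_002_1_5_1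
theorem A102E_002 :
    ∃ t, chk3 (onCell 0 67108864 0 1073741824 536870912 50465866 (corT true 1 c0B cA102E gB0q1 gB0q0 gB2q2 gB3q2 true true)) t 1 1 1 = true :=
  ex3_b A102E_002_1_2_1 A102E_002_1_3_1

def A102E_003 :
    ∃ t, chk3 (onCell 0 67108864 0 1073741824 536870912 50465866 (corT true 1 c0B cA102E gB0q1 gB0q0 gB3q2 gB4q2 true false)) t 1 1 1 = true :=
  ⟨(T.b (T.b (T.b (T.a (T.a (T.b (T.b (T.l 204) (T.l 204)) (T.b (T.l 204) (T.l 204))) (T.a (T.b (T.l 204) (T.b (T.l 204) (T.l 204))) (T.b (T.a (T.l 204) (T.c (T.l 204) (T.b (T.l 204) (T.l 204)))) (T.b (T.l 204) (T.l 204))))) (T.a (T.a (T.b (T.a (T.c (T.l 204) (T.b (T.l 204) (T.l 204))) (T.b (T.l 204) (T.l 204))) (T.c (T.a (T.b (T.l 204) (T.l 204)) (T.b (T.l 204) (T.l 204))) (T.a (T.b (T.l 204) (T.l 204)) (T.b (T.l 204) (T.l 204))))) (T.b (T.c (T.l 204) (T.l 204)) (T.c (T.b (T.l 204) (T.l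 204)) (T.b (T.l 204) (T.l 204))))) (T.b (T.a (T.b (T.l 204) (T.l 204)) (T.b (T.l 204) (T.l 204))) (T.a (T.b (T.l 204) (T.l 204)) (T.b (T.l 204) (T.l 204)))))) (T.b (T.a (T.c (T.b (T.l 220) (T.b (T.l 204) (T.a (T.l 1) (T.l 204)))) (T.b (T.l 204) (T.a (T.a (T.l 204) (T.l 204)) (T.l 204)))) (T.a (T.a (T.a (T.c (T.b (T.l 204) (T.l 204)) (T.l 204)) (T.c (T.b (T.b (T.l 204) (T.l 204)) (T.c (T.b (T.l 204) (T.l 220)) (T.b (T.l 204) (T.l 204)))) (T.b (T.b (T.l 204) (T.l 204)) (T.c (T.l 220) (T.l 204))))) (T.c (T.b (T.b (T.l 204) (T.l 204)) (T.a (T.b (T.l 204) (T.l 220)) (T.l 204))) (T.b (T.b (T.l 204) (T.l 204)) (T.a (T.l 220) (T.l 204))))) (T.a (T.c (T.b (T.l 204) (T.l 204)) (T.b (T.l 204) (T.l 204))) (T.c (T.l 220) (T.l 204))))) (T.l 1))) (T.l 1)) (T.l 1)), by decide +kernel⟩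

def A102E_010 :
    ∃ t, chk3 (onCell 0 67108864 0 1073741824 536870912 50465866 (corT true 1 c0B cA102E gB0q1 gB1q0 gB0q2 gB1q2 true true)) t 1 1 1 = true :=
  ⟨(T.b (T.b (T.l 2) (T.l 2)) (T.b (T.b (T.b (T.b (T.a (T.l 204) (T.l 2)) (T.a (T.b (T.l 204) (T.c (T.l 204) (T.a (T.a (T.l 204) (T.l 204)) (T.l 204)))) (T.b (T.l 204) (T.a (T.l 204) (T.l 204))))) (T.b (T.b (T.a (T.b (T.a (T.b (T.a (T.l 1) (T.b (T.l 204) (T.l 1))) (T.l 1)) (T.c (T.l 204) (T.b (T.l 204) (T.a (T.b (T.c (T.l 204) (T.l 716)) (T.l 1)) (T.c (T.l 204) (T.l 716)))))) (T.l 1)) (T.a (T.b (T.c (T.l 204) (T.l 716)) (T.b (T.c (T.l 716) (T.a (T.b (T.l 716) (T.l 1)) (T.l 716))) (T.l 1))) (T.a (T.c (T.l 716) (T.b (T.l 204) (T.c (T.l 716) (T.a (T.c (T.l 716) (T.a (T.l 716) (T.l 716))) (T.l 716))))) (T.c (T.l 716) (T.c (T.l 716) (T.l 716)))))) (T.a (T.l 1) (T.a (T.l 1) (T.l 1)))) (T.l 1)))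 (T.l 1)) (T.l 1))), by decide +kernel⟩

def A102E_011 :
    ∃ t, chk3 (onCell 0 67108864 0 1073741824 536870912 50465866 (corT true 1 c0B cA102E gB0q1 gB1q0 gB1q2 gB2q2 true true)) t 1 1 1 = true :=
  ⟨(T.b (T.b (T.l 2) (T.b (T.l 2) (T.a (T.l 204) (T.a (T.l 204) (T.b (T.l 2) (T.a (T.l 204) (T.b (T.l 204) (T.l 204)))))))) (T.b (T.b (T.b (T.a (T.b (T.l 204) (T.b (T.l 204) (T.l 1))) (T.a (T.b (T.l 204) (T.l 204)) (T.b (T.a (T.l 204) (T.l 204)) (T.c (T.l 204) (T.l 204))))) (T.l 1)) (T.l 1)) (T.l 1))), by decide +kernel⟩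

def A102E_012 :
    ∃ t, chk3 (onCell 0 67108864 0 1073741824 536870912 50465866 (corT true 1 c0B cA102E gB0q1 gB1q0 gB2q2 gB3q2 true true)) t 1 1 1 = true :=
  ⟨(T.b (T.b (T.l 2) (T.a (T.b (T.l 204) (T.l 204)) (T.b (T.b (T.b (T.b (T.l 2) (T.a (T.a (T.l 204) (T.l 204)) (T.l 204))) (T.a (T.a (T.l 204) (T.l 204)) (T.c (T.l 204) (T.l 204)))) (T.a (T.a (T.l 204) (T.l 204)) (T.a (T.l 204) (T.l 204)))) (T.a (T.l 204) (T.b (T.b (T.l 0) (T.l 0)) (T.b (T.l 204) (T.l 1))))))) (T.l 1)), by decide +kernel⟩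

def A102E_013 :
    ∃ t, chk3 (onCell 0 67108864 0 1073741824 536870912 50465866 (corT true 1 c0B cA102E gB0q1 gB1q0 gB3q2 gB4q2 true false)) t 1 1 1 = true :=
  ⟨(T.b (T.b (T.b (T.a (T.a (T.l 204) (T.a (T.l 204) (T.l 204))) (T.a (T.b (T.l 204) (T.l 204)) (T.l 204))) (T.a (T.l 204) (T.a (T.b (T.l 204) (T.l 204)) (T.l 204)))) (T.b (T.b (T.a (T.l 204) (T.a (T.l 204) (T.l 204))) (T.l 1)) (T.l 1))) (T.l 1)), by decide +kernel⟩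

def A102E_020 :
    ∃ t, chk3 (onCell 0 67108864 0 1073741824 536870912 50465866 (corT true 1 c0B cA102E gB0q1 gB2q0 gB0q2 gB1q2 true true)) t 1 1 1 = true :=
  ⟨(T.b (T.l 2) (T.b (T.b (T.l 2) (T.b (T.a (T.l 204) (T.a (T.l 204) (T.b (T.l 2) (T.l 716)))) (T.b (T.a (T.a (T.l 204) (T.l 204)) (T.a (T.l 204) (T.a (T.l 204) (T.c (T.l 204) (T.l 204))))) (T.l 1)))) (T.l 1))), by decide +kernel⟩

def A102E_021 :
    ∃ t, chk3 (onCell 0 67108864 0 1073741824 536870912 50465866 (corT true 1 c0B cA102E gB0q1 gB2q0 gB1q2 gB2q2 true true)) t 1 1 1 = true :=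
  ⟨(T.b (T.l 2) (T.b (T.b (T.a (T.l 204) (T.b (T.l 2) (T.l 204))) (T.b (T.a (T.l 204) (T.a (T.l 204) (T.b (T.l 204) (T.l 204)))) (T.a (T.l 1) (T.a (T.l 1) (T.b (T.a (T.l 1) (T.c (T.l 204) (T.l 204))) (T.l 1)))))) (T.l 1))), by decide +kernel⟩

def A102E_022 :
    ∃ t, chk3 (onCell 0 67108864 0 1073741824 536870912 50465866 (corT true 1 c0B cA102E gB0q1 gB2q0 gB2q2 gB3q2 true true)) t 1 1 1 = true :=
  ⟨(T.b (T.b (T.l 2) (T.b (T.l 2) (T.a (T.l 204) (T.b (T.l 2) (T.a (T.l 204) (T.l 204)))))) (T.b (T.b (T.a (T.l 204) (T.b (T.a (T.l 204) (T.l 204)) (T.l 204))) (T.b (T.a (T.l 204) (T.b (T.l 204) (T.l 1))) (T.l 1))) (T.l 1))), by decide +kernel⟩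

def A102E_023 :
    ∃ t, chk3 (onCell 0 67108864 0 1073741824 536870912 50465866 (corT true 1 c0B cA102E gB0q1 gB2q0 gB3q2 gB4q2 true false)) t 1 1 1 = true :=
  ⟨(T.b (T.b (T.a (T.a (T.l 204) (T.b (T.l 204) (T.l 204))) (T.a (T.l 204) (T.l 204))) (T.a (T.l 204) (T.b (T.b (T.l 204) (T.l 204)) (T.b (T.l 204) (T.l 204))))) (T.b (T.b (T.a (T.l 204) (T.l 1)) (T.l 1)) (T.l 1))), by decide +kernel⟩

def A102E_030 :
    ∃ t, chk3 (onCell 0 67108864 0 1073741824 536870912 50465866 (corT true 1 c0B cA102E gB0q1 gB3q0 gB0q2 gB1q2 true true)) t 1 1 1 = true :=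
  ⟨(T.b (T.l 2) (T.b (T.l 2) (T.b (T.l 2) (T.b (T.b (T.a (T.l 204) (T.a (T.c (T.l 204) (T.l 204)) (T.l 204))) (T.l 1)) (T.l 1))))), by decide +kernel⟩

def A102E_031 :
    ∃ t, chk3 (onCell 0 67108864 0 1073741824 536870912 50465866 (corT true 1 c0B cA102E gB0q1 gB3q0 gB1q2 gB2q2 true true)) t 1 1 1 = true :=
  ⟨(T.b (T.l 2) (T.b (T.l 2) (T.b (T.a (T.l 204) (T.b (T.l 2) (T.a (T.l 204) (T.l 236)))) (T.b (T.a (T.l 204) (T.b (T.a (T.c (T.l 204) (T.l 204)) (T.l 204)) (T.l 1))) (T.l 1))))), by decide +kernel⟩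

def A102E_032 :
    ∃ t, chk3 (onCell 0 67108864 0 1073741824 536870912 50465866 (corT true 1 c0B cA102E gB0q1 gB3q0 gB2q2 gB3q2 true true)) t 1 1 1 = true :=
  ⟨(T.b (T.l 2) (T.b (T.l 2) (T.b (T.a (T.l 204) (T.a (T.l 204) (T.b (T.l 2) (T.l 204)))) (T.b (T.a (T.l 204) (T.l 1)) (T.l 1))))), by decide +kernel⟩

def A102E_033 :
    ∃ t, chk3 (onCell 0 67108864 0 1073741824 536870912 50465866 (corT true 1 c0B cA102E gB0q1 gB3q0 gB3q2 gB4q2 true false)) t 1 1 1 = true :=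
  ⟨(T.b (T.b (T.a (T.a (T.l 204) (T.l 204)) (T.b (T.l 204) (T.l 204))) (T.a (T.l 204) (T.b (T.l 204) (T.l 204)))) (T.a (T.b (T.l 204) (T.b (T.l 204) (T.l 1))) (T.b (T.b (T.b (T.l 204) (T.l 204)) (T.a (T.l 204) (T.l 204))) (T.b (T.a (T.l 204) (T.b (T.l 204) (T.l 204))) (T.l 1))))), by decide +kernel⟩

def A102R_005 :
    ∃ t, chk3 (onCell 0 67108864 0 1073741824 536870912 50465866 (corT true 1 c0B cA102R gB0q1 gB0q0 gB5q2 gB6q2 false true)) t 1 1 1 = true :=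
  ⟨(T.l 2), by decide +kernel⟩

def A102R_015 :
    ∃ t, chk3 (onCell 0 67108864 0 1073741824 536870912 50465866 (corT true 1 c0B cA102R gB0q1 gB1q0 gB5q2 gB6q2 false true)) t 1 1 1 = true :=
  ⟨(T.l 2), by decide +kernel⟩

def A102R_025 :
    ∃ t, chk3 (onCell 0 67108864 0 1073741824 536870912 50465866 (corT true 1 c0B cA102R gB0q1 gB2q0 gB5q2 gB6q2 false true)) t 1 1 1 = true :=
  ⟨(T.l 2), by decide +kernel⟩

def A102R_035 :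
    ∃ t, chk3 (onCell 0 67108864 0 1073741824 536870912 50465866 (corT true 1 c0B cA102R gB0q1 gB3q0 gB5q2 gB6q2 false true)) t 1 1 1 = true :=
  ⟨(T.l 2), by decide +kernel⟩

def A202E_000 :
    ∃ t, chk3 (onCell 0 67108864 0 1073741824 536870912 50465866 (corT true 1 c0B cA202E gB0q2 gB0q0 gB0q2 gB1q2 true true)) t 1 1 1 = true :=
  ⟨(T.l 2), by decide +kernel⟩

def A202E_001 :
    ∃ t, chk3 (onCell 0 67108864 0 1073741824 536870912 50465866 (corT true 1 c0B cA202E gB0q2 gB0q0 gB1q2 gB2q2 true true)) t 1 1 1 = true :=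
  ⟨(T.l 2), by decide +kernel⟩

def A202E_002 :
    ∃ t, chk3 (onCell 0 67108864 0 1073741824 536870912 50465866 (corT true 1 c0B cA202E gB0q2 gB0q0 gB2q2 gB3q2 true true)) t 1 1 1 = true :=
  ⟨(T.b (T.l 2) (T.l 2)), by decide +kernel⟩

def A202E_003 :
    ∃ t, chk3 (onCell 0 67108864 0 1073741824 536870912 50465866 (corT true 1 c0B cA202E gB0q2 gB0q0 gB3q2 gB4q2 true false)) t 1 1 1 = true :=
  ⟨(T.b (T.b (T.a (T.a (T.b (T.b (T.l 204) (T.l 204)) (T.l 204)) (T.a (T.b (T.l 204) (T.l 204)) (T.b (T.a (T.l 204) (T.b (T.l 204) (T.l 204))) (T.l 0)))) (T.a (T.b (T.a (T.c (T.l 204) (T.l 204)) (T.b (T.l 204) (T.l 204))) (T.l 0)) (T.b (T.c (T.l 204) (T.l 204)) (T.l 0)))) (T.b (T.a (T.a (T.l 0) (T.c (T.l 0) (T.l 0))) (T.a (T.l 0) (T.l 0))) (T.a (T.a (T.l 0) (T.b (T.l 0) (T.l 0))) (T.a (T.l 0) (T.b (T.l 0) (T.l 0)))))) (T.b (T.b (T.a (T.a (T.l 0) (T.c (T.l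 0) (T.l 0))) (T.a (T.l 0) (T.a (T.l 0) (T.l 0)))) (T.a (T.a (T.l 816) (T.c (T.l 0) (T.l 0))) (T.a (T.a (T.l 816) (T.l 0)) (T.a (T.l 64) (T.l 0))))) (T.a (T.a (T.b (T.l 816) (T.a (T.c (T.b (T.l 816) (T.l 816)) (T.l 816)) (T.l 816))) (T.a (T.l 816) (T.a (T.l 816) (T.b (T.l 816) (T.l 816))))) (T.a (T.a (T.b (T.l 0) (T.a (T.l 816) (T.l 880))) (T.b (T.b (T.l 816) (T.l 816)) (T.b (T.l 816) (T.l 880)))) (T.b (T.a (T.b (T.l 816) (T.l 816)) (T.l 0)) (T.a (T.b (T.l 816) (T.l 816)) (T.l 816))))))), by decide +kernel⟩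

def A202E_010 :
    ∃ t, chk3 (onCell 0 67108864 0 1073741824 536870912 50465866 (corT true 1 c0B cA202E gB0q2 gB1q0 gB0q2 gB1q2 true true)) t 1 1 1 = true :=
  ⟨(T.l 2), by decide +kernel⟩

def A202E_011 :
    ∃ t, chk3 (onCell 0 67108864 0 1073741824 536870912 50465866 (corT true 1 c0B cA202E gB0q2 gB1q0 gB1q2 gB2q2 true true)) t 1 1 1 = true :=
  ⟨(T.l 2), by decide +kernel⟩

def A202E_012 :
    ∃ t, chk3 (onCell 0 67108864 0 1073741824 536870912 50465866 (corT true 1 c0B cA202E gB0q2 gB1q0 gB2q2 gB3q2 true true)) t 1 1 1 = true :=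
  ⟨(T.l 2), by decide +kernel⟩

def A202E_013 :
    ∃ t, chk3 (onCell 0 67108864 0 1073741824 536870912 50465866 (corT true 1 c0B cA202E gB0q2 gB1q0 gB3q2 gB4q2 true false)) t 1 1 1 = true :=
  ⟨(T.b (T.b (T.a (T.a (T.l 204) (T.c (T.l 204) (T.l 0))) (T.a (T.l 204) (T.l 204))) (T.b (T.a (T.a (T.l 204) (T.l 0)) (T.b (T.l 0) (T.l 0))) (T.a (T.a (T.l 0) (T.l 0)) (T.a (T.l 0) (T.l 0))))) (T.b (T.b (T.a (T.a (T.l 0) (T.l 0)) (T.a (T.l 0) (T.b (T.l 0) (T.l 0)))) (T.a (T.a (T.l 816) (T.b (T.l 0) (T.l 0))) (T.a (T.b (T.l 0) (T.l 0)) (T.b (T.l 0) (T.l 0))))) (T.a (T.a (T.b (T.l 816) (T.a (T.c (T.b (T.l 816) (T.l 816)) (T.l 816)) (T.l 816))) (T.a (T.l 816) (T.a (T.l 816) (T.b (T.l 816) (T.l 816))))) (T.a (T.a (T.b (T.l 0) (T.a (T.l 816) (T.l 816))) (T.b (T.b (T.l 0) (T.l 816)) (T.b (T.l 816) (T.l 880)))) (T.b (T.a (T.l 0) (T.l 0)) (T.a (T.b (T.l 816) (T.l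 816)) (T.l 816))))))), by decide +kernel⟩

def A202E_020 :
    ∃ t, chk3 (onCell 0 67108864 0 1073741824 536870912 50465866 (corT true 1 c0B cA202E gB0q2 gB2q0 gB0q2 gB1q2 true true)) t 1 1 1 = true :=
  ⟨(T.l 2), by decide +kernel⟩

def A202E_021 :
    ∃ t, chk3 (onCell 0 67108864 0 1073741824 536870912 50465866 (corT true 1 c0B cA202E gB0q2 gB2q0 gB1q2 gB2q2 true true)) t 1 1 1 = true :=
  ⟨(T.l 2), by decide +kernel⟩

def A202E_022 :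
    ∃ t, chk3 (onCell 0 67108864 0 1073741824 536870912 50465866 (corT true 1 c0B cA202E gB0q2 gB2q0 gB2q2 gB3q2 true true)) t 1 1 1 = true :=
  ⟨(T.l 2), by decide +kernel⟩

def A202E_023 :
    ∃ t, chk3 (onCell 0 67108864 0 1073741824 536870912 50465866 (corT true 1 c0B cA202E gB0q2 gB2q0 gB3q2 gB4q2 true false)) t 1 1 1 = true :=
  ⟨(T.b (T.b (T.a (T.a (T.l 204) (T.l 204)) (T.l 204)) (T.b (T.a (T.a (T.l 204) (T.l 0)) (T.l 0)) (T.a (T.a (T.l 204) (T.l 0)) (T.a (T.l 204) (T.l 0))))) (T.b (T.b (T.a (T.a (T.l 0) (T.l 0)) (T.a (T.l 0) (T.l 0))) (T.a (T.a (T.l 0) (T.l 0)) (T.a (T.l 0) (T.l 0)))) (T.a (T.a (T.b (T.l 816) (T.a (T.c (T.b (T.l 816) (T.l 816)) (T.l 816)) (T.l 816))) (T.a (T.l 0) (T.a (T.l 0) (T.b (T.l 0) (T.l 816))))) (T.a (T.a (T.b (T.l 0) (T.a (T.l 816) (T.l 880))) (T.b (T.l 0) (T.b (T.l 816) (T.l 880)))) (T.b (T.b (T.l 0) (T.l 0))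 (T.a (T.b (T.l 816) (T.l 816)) (T.l 0))))))), by decide +kernel⟩

def A202E_030 :
    ∃ t, chk3 (onCell 0 67108864 0 1073741824 536870912 50465866 (corT true 1 c0B cA202E gB0q2 gB3q0 gB0q2 gB1q2 true true)) t 1 1 1 = true :=
  ⟨(T.l 2), by decide +kernel⟩

def A202E_031 :
    ∃ t, chk3 (onCell 0 67108864 0 1073741824 536870912 50465866 (corT true 1 c0B cA202E gB0q2 gB3q0 gB1q2 gB2q2 true true)) t 1 1 1 = true :=
  ⟨(T.l 2), by decide +kernel⟩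

def A202E_032 :
    ∃ t, chk3 (onCell 0 67108864 0 1073741824 536870912 50465866 (corT true 1 c0B cA202E gB0q2 gB3q0 gB2q2 gB3q2 true true)) t 1 1 1 = true :=
  ⟨(T.l 2), by decide +kernel⟩

def A202E_033 :
    ∃ t, chk3 (onCell 0 67108864 0 1073741824 536870912 50465866 (corT true 1 c0B cA202E gB0q2 gB3q0 gB3q2 gB4q2 true false)) t 1 1 1 = true :=
  ⟨(T.b (T.b (T.a (T.a (T.l 204) (T.l 204)) (T.l 204)) (T.a (T.a (T.l 204) (T.l 204)) (T.a (T.l 204) (T.b (T.l 204) (T.l 204))))) (T.b (T.a (T.a (T.l 0) (T.l 0)) (T.a (T.b (T.l 204) (T.l 0)) (T.b (T.l 0) (T.l 0)))) (T.a (T.a (T.b (T.l 0) (T.a (T.c (T.b (T.l 816) (T.l 816)) (T.l 816)) (T.l 816))) (T.a (T.l 0) (T.a (T.l 0) (T.b (T.l 0) (T.l 0))))) (T.a (T.b (T.a (T.l 0) (T.l 0)) (T.a (T.a (T.l 0) (T.b (T.l 816) (T.l 816))) (T.b (T.l 0) (T.l 880)))) (T.b (T.b (T.l 0) (T.l 0)) (T.a (T.b (T.l 0) (T.l 816))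 (T.l 0))))))), by decide +kernel⟩

def A202E_110 :
    ∃ t, chk3 (onCell 0 67108864 0 1073741824 536870912 50465866 (corT true 1 c0B cA202E gB1q2 gB1q0 gB0q2 gB1q2 true true)) t 1 1 1 = true :=
  ⟨(T.l 2), by decide +kernel⟩

def A202E_111 :
    ∃ t, chk3 (onCell 0 67108864 0 1073741824 536870912 50465866 (corT true 1 c0B cA202E gB1q2 gB1q0 gB1q2 gB2q2 true true)) t 1 1 1 = true :=
  ⟨(T.l 2), by decide +kernel⟩

def A202E_112 :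
    ∃ t, chk3 (onCell 0 67108864 0 1073741824 536870912 50465866 (corT true 1 c0B cA202E gB1q2 gB1q0 gB2q2 gB3q2 true true)) t 1 1 1 = true :=
  ⟨(T.l 2), by decide +kernel⟩

def A202E_113 :
    ∃ t, chk3 (onCell 0 67108864 0 1073741824 536870912 50465866 (corT true 1 c0B cA202E gB1q2 gB1q0 gB3q2 gB4q2 true false)) t 1 1 1 = true :=
  ⟨(T.b (T.b (T.a (T.a (T.l 204) (T.c (T.l 204) (T.l 0))) (T.a (T.l 204) (T.l 204))) (T.b (T.a (T.a (T.l 204) (T.l 0)) (T.l 0)) (T.a (T.a (T.l 0) (T.l 0)) (T.a (T.l 0) (T.l 0))))) (T.b (T.a (T.a (T.l 0) (T.b (T.l 0) (T.l 0))) (T.a (T.a (T.l 0) (T.b (T.l 0) (T.l 0))) (T.b (T.l 0) (T.b (T.l 0) (T.l 0))))) (T.a (T.a (T.b (T.l 816) (T.l 816)) (T.a (T.l 816) (T.a (T.l 816) (T.b (T.l 816) (T.b (T.l 816) (T.l 816)))))) (T.a (T.a (T.b (T.b (T.l 816) (T.l 816)) (T.a (T.b (T.l 816) (T.l 816)) (T.l 816))) (T.b (T.l 0) (T.b (T.l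 816) (T.l 816)))) (T.b (T.b (T.l 0) (T.l 0)) (T.a (T.l 816) (T.l 816))))))), by decide +kernel⟩

def A202E_120 :
    ∃ t, chk3 (onCell 0 67108864 0 1073741824 536870912 50465866 (corT true 1 c0B cA202E gB1q2 gB2q0 gB0q2 gB1q2 true true)) t 1 1 1 = true :=
  ⟨(T.l 2), by decide +kernel⟩

def A202E_121 :
    ∃ t, chk3 (onCell 0 67108864 0 1073741824 536870912 50465866 (corT true 1 c0B cA202E gB1q2 gB2q0 gB1q2 gB2q2 true true)) t 1 1 1 = true :=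
  ⟨(T.l 2), by decide +kernel⟩

def A202E_122 :
    ∃ t, chk3 (onCell 0 67108864 0 1073741824 536870912 50465866 (corT true 1 c0B cA202E gB1q2 gB2q0 gB2q2 gB3q2 true true)) t 1 1 1 = true :=
  ⟨(T.l 2), by decide +kernel⟩

def A202E_123 :
    ∃ t, chk3 (onCell 0 67108864 0 1073741824 536870912 50465866 (corT true 1 c0B cA202E gB1q2 gB2q0 gB3q2 gB4q2 true false)) t 1 1 1 = true :=
  ⟨(T.b (T.b (T.a (T.a (T.l 204) (T.l 204)) (T.l 204)) (T.b (T.a (T.a (T.l 204) (T.l 0)) (T.l 0)) (T.a (T.a (T.l 204) (T.l 0)) (T.a (T.l 204) (T.l 0))))) (T.b (T.a (T.a (T.l 0) (T.l 0)) (T.a (T.a (T.l 0) (T.l 64)) (T.b (T.l 0) (T.l 0)))) (T.a (T.a (T.b (T.l 816) (T.l 816)) (T.a (T.l 816) (T.a (T.l 816) (T.b (T.l 0) (T.b (T.l 816) (T.l 816)))))) (T.a (T.a (T.b (T.l 0) (T.a (T.b (T.l 816) (T.l 816)) (T.l 816))) (T.b (T.l 0) (T.b (T.l 816) (T.l 816)))) (T.b (T.l 0) (T.a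 (T.l 816) (T.l 816))))))), by decide +kernel⟩

def A202E_130 :
    ∃ t, chk3 (onCell 0 67108864 0 1073741824 536870912 50465866 (corT true 1 c0B cA202E gB1q2 gB3q0 gB0q2 gB1q2 true true)) t 1 1 1 = true :=
  ⟨(T.l 2), by decide +kernel⟩

def A202E_131 :
    ∃ t, chk3 (onCell 0 67108864 0 1073741824 536870912 50465866 (corT true 1 c0B cA202E gB1q2 gB3q0 gB1q2 gB2q2 true true)) t 1 1 1 = true :=
  ⟨(T.l 2), by decide +kernel⟩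

def A202E_132 :
    ∃ t, chk3 (onCell 0 67108864 0 1073741824 536870912 50465866 (corT true 1 c0B cA202E gB1q2 gB3q0 gB2q2 gB3q2 true true)) t 1 1 1 = true :=
  ⟨(T.l 2), by decide +kernel⟩

def A202E_133 :
    ∃ t, chk3 (onCell 0 67108864 0 1073741824 536870912 50465866 (corT true 1 c0B cA202E gB1q2 gB3q0 gB3q2 gB4q2 true false)) t 1 1 1 = true :=
  ⟨(T.b (T.b (T.a (T.a (T.l 204) (T.l 204)) (T.l 204)) (T.a (T.a (T.l 204) (T.l 204)) (T.a (T.l 204) (T.b (T.l 204) (T.l 204))))) (T.b (T.a (T.a (T.l 0) (T.l 0)) (T.a (T.b (T.l 204) (T.l 0)) (T.b (T.l 0) (T.l 0)))) (T.a (T.a (T.b (T.l 0) (T.l 816)) (T.a (T.l 0) (T.a (T.l 0) (T.b (T.l 0) (T.b (T.l 816) (T.l 816)))))) (T.a (T.b (T.b (T.l 0) (T.l 0)) (T.a (T.a (T.b (T.l 816) (T.l 816)) (T.l 816)) (T.b (T.l 816) (T.l 816)))) (T.b (T.l 0) (T.a (T.l 0) (T.l 0))))))), by decide +kernel⟩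

def A202E_220 :
    ∃ t, chk3 (onCell 0 67108864 0 1073741824 536870912 50465866 (corT true 1 c0B cA202E gB2q2 gB2q0 gB0q2 gB1q2 true true)) t 1 1 1 = true :=
  ⟨(T.l 2), by decide +kernel⟩

def A202E_221 :
    ∃ t, chk3 (onCell 0 67108864 0 1073741824 536870912 50465866 (corT true 1 c0B cA202E gB2q2 gB2q0 gB1q2 gB2q2 true true)) t 1 1 1 = true :=
  ⟨(T.l 2), by decide +kernel⟩

def A202E_222 :
    ∃ t, chk3 (onCell 0 67108864 0 1073741824 536870912 50465866 (corT true 1 c0B cA202E gB2q2 gB2q0 gB2q2 gB3q2 true true)) t 1 1 1 = true :=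
  ⟨(T.l 2), by decide +kernel⟩

def A202E_223 :
    ∃ t, chk3 (onCell 0 67108864 0 1073741824 536870912 50465866 (corT true 1 c0B cA202E gB2q2 gB2q0 gB3q2 gB4q2 true false)) t 1 1 1 = true :=
  ⟨(T.b (T.b (T.a (T.a (T.l 204) (T.l 204)) (T.l 204)) (T.b (T.a (T.a (T.l 204) (T.l 0)) (T.l 0)) (T.a (T.a (T.l 204) (T.l 0)) (T.b (T.l 0) (T.l 0))))) (T.b (T.a (T.a (T.l 0) (T.l 0)) (T.a (T.b (T.l 0) (T.l 0)) (T.b (T.l 0) (T.l 0)))) (T.a (T.a (T.l 816) (T.a (T.l 816) (T.a (T.l 816) (T.b (T.l 816) (T.l 816))))) (T.a (T.b (T.b (T.l 0) (T.l 0)) (T.a (T.b (T.l 816) (T.l 816)) (T.l 816))) (T.b (T.l 0) (T.a (T.l 816) (T.l 816))))))), by decide +kernel⟩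

def A202E_230 :
    ∃ t, chk3 (onCell 0 67108864 0 1073741824 536870912 50465866 (corT true 1 c0B cA202E gB2q2 gB3q0 gB0q2 gB1q2 true true)) t 1 1 1 = true :=
  ⟨(T.l 2), by decide +kernel⟩

def A202E_231 :
    ∃ t, chk3 (onCell 0 67108864 0 1073741824 536870912 50465866 (corT true 1 c0B cA202E gB2q2 gB3q0 gB1q2 gB2q2 true true)) t 1 1 1 = true :=
  ⟨(T.l 2), by decide +kernel⟩

def A202E_232 :
    ∃ t, chk3 (onCell 0 67108864 0 1073741824 536870912 50465866 (corT true 1 c0B cA202E gB2q2 gB3q0 gB2q2 gB3q2 true true)) t 1 1 1 = true :=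
  ⟨(T.l 2), by decide +kernel⟩

end Pool.Agent.Strip051.G.I5000_5470.Tab.CG
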