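import Pool.Agent.Strip051.G.I5000_5470.Gn
import Pool.Agent.Strip051.PB.Corns
import Pool.Agent.Strip051.PB.CornW

/-! # Certificates of the aligned corners (generated) -/

set_option linter.all false

namespace Pool.Agent.Strip051.G.I5000_5470.Tab.CW

open Pool.Agent.Strip051.PB

def A011E_000 :
    ∃ t, chk3 (onCell 0 67108864 0 1073741824 536870912 50465866 (corW 3 c0B eng mog cA011E gB0q0 gB0q1 gB0q1 gB1q1 dB0q0 dB0q1 dB0q1 dB1q1 true false)) t 1 1 1 = true :=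
  ⟨(T.l 1), by decide +kernel⟩

def A011L_003 :
    ∃ t, chk3 (onCell 0 67108864 0 1073741824 536870912 50465866 (corW 3 c0B eng mog cA011L gB0q0 gB0q1 gB3q1 gB4q1 dB0q0 dB0q1 dB3q1 dB4q1 false true)) t 1 1 1 = true :=
  ⟨(T.l 2), by decide +kernel⟩

def A011L_004 :
    ∃ t, chk3 (onCell 0 67108864 0 1073741824 536870912 50465866 (corW 3 c0B eng mog cA011L gB0q0 gB0q1 gB4q1 gB5q1 dB0q0 dB0q1 dB4q1 dB5q1 true true)) t 1 1 1 = true :=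
  ⟨(T.l 2), by decide +kernel⟩

def A011L_005 :
    ∃ t, chk3 (onCell 0 67108864 0 1073741824 536870912 50465866 (corW 3 c0B eng mog cA011L gB0q0 gB0q1 gB5q1 gB6q1 dB0q0 dB0q1 dB5q1 dB6q1 true true)) t 1 1 1 = true :=
  ⟨(T.l 2), by decide +kernel⟩

def A011R_040 :
    ∃ t, chk3 (onCell 0 67108864 0 1073741824 536870912 50465866 (corW 3 c0B eng mog cA011R gB0q0 gB4q1 gB0q1 gB1q1 dB0q0 dB4q1 dB0q1 dB1q1 true false)) t 1 1 1 = true :=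
  ⟨(T.b (T.b (T.b (T.b (T.a (T.l 204) (T.l 204)) (T.b (T.a (T.l 204) (T.l 460)) (T.b (T.b (T.a (T.l 204) (T.l 204)) (T.l 1)) (T.l 1)))) (T.l 1)) (T.l 1)) (T.l 1)), by decide +kernel⟩

def A011R_050 :
    ∃ t, chk3 (onCell 0 67108864 0 1073741824 536870912 50465866 (corW 3 c0B eng mog cA011R gB0q0 gB5q1 gB0q1 gB1q1 dB0q0 dB5q1 dB0q1 dB1q1 true false)) t 1 1 1 = true :=
  ⟨(T.b (T.b (T.b (T.b (T.l 204) (T.l 204)) (T.b (T.a (T.l 204) (T.l 204)) (T.b (T.c (T.l 204) (T.l 204)) (T.b (T.c (T.a (T.l 204) (T.l 204)) (T.l 204)) (T.a (T.l 1) (T.b (T.c (T.l 220) (T.l 204)) (T.l 1))))))) (T.l 1)) (T.l 1)), by decide +kernel⟩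

def A011R_060 :
    ∃ t, chk3 (onCell 0 67108864 0 1073741824 536870912 50465866 (corW 3 c0B eng mog cA011R gB0q0 gB6q1 gB0q1 gB1q1 dB0q0 dB6q1 dB0q1 dB1q1 true false)) t 1 1 1 = true :=
  ⟨(T.b (T.b (T.b (T.a (T.l 0) (T.l 0)) (T.b (T.l 0) (T.a (T.l 0) (T.l 0)))) (T.b (T.b (T.b (T.l 0) (T.a (T.l 0) (T.l 0))) (T.b (T.a (T.b (T.a (T.l 0) (T.l 0)) (T.a (T.b (T.b (T.l 0) (T.b (T.l 0) (T.a (T.a (T.l 1) (T.b (T.l 0) (T.l 1))) (T.b (T.l 0) (T.a (T.l 1) (T.c (T.l 0) (T.l 0))))))) (T.l 1)) (T.b (T.c (T.l 0) (T.l 0)) (T.b (T.b (T.a (T.l 1) (T.b (T.l 0) (T.l 1))) (T.l 1)) (T.l 1))))) (T.b (T.l 0) (T.b (T.a (T.l 0) (T.l 0)) (T.a (T.b (T.b (T.c (T.l 0) (T.l 0)) (T.a (T.l 1) (T.b (T.c (T.l 0) (T.l 0)) (T.l 1)))) (T.l 1)) (T.b (T.c (T.l 0) (T.a (T.c (T.l 0) (T.l 0)) (T.l 0))) (T.a (T.l 1) (T.a (T.l 1) (T.b (T.b (T.l 0) (T.l 1))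 (T.l 1))))))))) (T.l 1))) (T.l 1))) (T.l 1)), by decide +kernel⟩

def A011R_140 :
    ∃ t, chk3 (onCell 0 67108864 0 1073741824 536870912 50465866 (corW 3 c0B eng mog cA011R gB1q0 gB4q1 gB0q1 gB1q1 dB1q0 dB4q1 dB0q1 dB1q1 true false)) t 1 1 1 = true :=
  ⟨(T.b (T.b (T.l 1) (T.l 1)) (T.l 1)), by decide +kernel⟩

def A011R_150 :
    ∃ t, chk3 (onCell 0 67108864 0 1073741824 536870912 50465866 (corW 3 c0B eng mog cA011R gB1q0 gB5q1 gB0q1 gB1q1 dB1q0 dB5q1 dB0q1 dB1q1 true false)) t 1 1 1 = true :=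
  ⟨(T.b (T.b (T.b (T.l 0) (T.l 0)) (T.l 1)) (T.l 1)), by decide +kernel⟩

def A011R_160 :
    ∃ t, chk3 (onCell 0 67108864 0 1073741824 536870912 50465866 (corW 3 c0B eng mog cA011R gB1q0 gB6q1 gB0q1 gB1q1 dB1q0 dB6q1 dB0q1 dB1q1 true false)) t 1 1 1 = true :=
  ⟨(T.b (T.b (T.b (T.l 816) (T.l 816)) (T.b (T.b (T.l 816) (T.l 1)) (T.l 1))) (T.l 1)), by decide +kernel⟩

def A011R_240 :
    ∃ t, chk3 (onCell 0 67108864 0 1073741824 536870912 50465866 (corW 3 c0B eng mog cA011R gB2q0 gB4q1 gB0q1 gB1q1 dB2q0 dB4q1 dB0q1 dB1q1 true false)) t 1 1 1 = true :=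
  ⟨(T.l 1), by decide +kernel⟩

def A011R_250 :
    ∃ t, chk3 (onCell 0 67108864 0 1073741824 536870912 50465866 (corW 3 c0B eng mog cA011R gB2q0 gB5q1 gB0q1 gB1q1 dB2q0 dB5q1 dB0q1 dB1q1 true false)) t 1 1 1 = true :=
  ⟨(T.l 1), by decide +kernel⟩

def A011R_260 :
    ∃ t, chk3 (onCell 0 67108864 0 1073741824 536870912 50465866 (corW 3 c0B eng mog cA011R gB2q0 gB6q1 gB0q1 gB1q1 dB2q0 dB6q1 dB0q1 dB1q1 true false)) t 1 1 1 = true :=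
  ⟨(T.b (T.l 1) (T.l 1)), by decide +kernel⟩

def A011R_340 :
    ∃ t, chk3 (onCell 0 67108864 0 1073741824 536870912 50465866 (corW 3 c0B eng mog cA011R gB3q0 gB4q1 gB0q1 gB1q1 dB3q0 dB4q1 dB0q1 dB1q1 true false)) t 1 1 1 = true :=
  ⟨(T.l 1), by decide +kernel⟩

def A011R_350 :
    ∃ t, chk3 (onCell 0 67108864 0 1073741824 536870912 50465866 (corW 3 c0B eng mog cA011R gB3q0 gB5q1 gB0q1 gB1q1 dB3q0 dB5q1 dB0q1 dB1q1 true false)) t 1 1 1 = true :=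
  ⟨(T.l 1), by decide +kernel⟩

def A011R_360 :
    ∃ t, chk3 (onCell 0 67108864 0 1073741824 536870912 50465866 (corW 3 c0B eng mog cA011R gB3q0 gB6q1 gB0q1 gB1q1 dB3q0 dB6q1 dB0q1 dB1q1 true false)) t 1 1 1 = true :=
  ⟨(T.l 1), by decide +kernel⟩

def A012E_000_1_4_1 :
    ∃ t, chk3 (onCell 0 67108864 0 1073741824 536870912 50465866 (corW 3 c0B eng mog cA012E gB0q0 gB0q1 gB0q2 gB1q2 dB0q0 dB0q1 dB0q2 dB1q2 true true)) t 1 4 1 = true :=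
  ⟨(T.l 1), by decide +kernel⟩

def A012E_000_1_10_1 :
    ∃ t, chk3 (onCell 0 67108864 0 1073741824 536870912 50465866 (corW 3 c0B eng mog cA012E gB0q0 gB0q1 gB0q2 gB1q2 dB0q0 dB0q1 dB0q2 dB1q2 true true)) t 1 10 1 = true :=
  ⟨(T.l 1), by decide +kernel⟩

def A012E_000_1_22_1 :
    ∃ t, chk3 (onCell 0 67108864 0 1073741824 536870912 50465866 (corW 3 c0B eng mog cA012E gB0q0 gB0q1 gB0q2 gB1q2 dB0q0 dB0q1 dB0q2 dB1q2 true true)) t 1 22 1 = true :=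
  ⟨(T.l 1), by decide +kernel⟩

def A012E_000_1_46_1 :
    ∃ t, chk3 (onCell 0 67108864 0 1073741824 536870912 50465866 (corW 3 c0B eng mog cA012E gB0q0 gB0q1 gB0q2 gB1q2 dB0q0 dB0q1 dB0q2 dB1q2 true true)) t 1 46 1 = true :=
  ⟨(T.l 1), by decide +kernel⟩

def A012E_000_2_94_1 :
    ∃ t, chk3 (onCell 0 67108864 0 1073741824 536870912 50465866 (corW 3 c0B eng mog cA012E gB0q0 gB0q1 gB0q2 gB1q2 dB0q0 dB0q1 dB0q2 dB1q2 true true)) t 2 94 1 = true :=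
  ⟨(T.l 1), by decide +kernel⟩

def A012E_000_4_95_1 :
    ∃ t, chk3 (onCell 0 67108864 0 1073741824 536870912 50465866 (corW 3 c0B eng mog cA012E gB0q0 gB0q1 gB0q2 gB1q2 dB0q0 dB0q1 dB0q2 dB1q2 true true)) t 4 95 1 = true :=
  ⟨(T.b (T.l 1) (T.a (T.b (T.l 1) (T.a (T.b (T.l 1) (T.c (T.c (T.a (T.b (T.l 1) (T.a (T.b (T.l 1) (T.l 0)) (T.l 0))) (T.a (T.b (T.b (T.l 1) (T.l 0)) (T.l 0)) (T.l 0))) (T.a (T.b (T.l 1) (T.a (T.b (T.l 1) (T.l 0)) (T.l 0))) (T.a (T.b (T.b (T.l 1) (T.l 0)) (T.l 0)) (T.l 0)))) (T.c (T.a (T.b (T.l 1) (T.a (T.b (T.l 1) (T.l 0)) (T.l 0))) (T.a (T.b (T.b (T.l 1) (T.l 0)) (T.l 0)) (T.l 0))) (T.a (T.b (T.l 1) (T.a (T.b (T.l 1) (T.l 0)) (T.l 0))) (T.a (T.b (T.b (T.l 1) (T.l 0)) (T.l 0)) (T.l 0)))))) (T.c (T.b (T.b (T.a (T.l 1) (T.a (T.l 1) (T.b (T.l 1) (T.l 0)))) (T.a (T.a (T.l 1) (T.b (T.l 1) (T.l 0)))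 (T.l 0))) (T.l 0)) (T.b (T.b (T.a (T.l 1) (T.a (T.l 1) (T.b (T.l 1) (T.l 0)))) (T.a (T.a (T.l 1) (T.b (T.l 1) (T.l 0))) (T.l 0))) (T.l 0))))) (T.a (T.c (T.b (T.a (T.l 1) (T.b (T.l 1) (T.b (T.l 1) (T.b (T.a (T.l 1) (T.l 0)) (T.l 0))))) (T.a (T.b (T.c (T.l 0) (T.l 0)) (T.l 0)) (T.l 0))) (T.b (T.a (T.l 1) (T.b (T.l 1) (T.b (T.l 1) (T.b (T.a (T.l 1) (T.l 0)) (T.l 0))))) (T.a (T.b (T.a (T.c (T.l 0) (T.c (T.l 0) (T.l 0))) (T.l 0)) (T.l 0)) (T.l 0)))) (T.b (T.b (T.a (T.l 1) (T.a (T.l 1) (T.a (T.l 1) (T.b (T.l 1) (T.b (T.l 1) (T.l 0)))))) (T.b (T.a (T.a (T.l 1) (T.b (T.l 1) (T.l 0))) (T.l 0)) (T.l 0))) (T.l 0))))), by decide +kernel⟩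

def A012E_000_5_95_1 :
    ∃ t, chk3 (onCell 0 67108864 0 1073741824 536870912 50465866 (corW 3 c0B eng mog cA012E gB0q0 gB0q1 gB0q2 gB1q2 dB0q0 dB0q1 dB0q2 dB1q2 true true)) t 5 95 1 = true :=
  ⟨(T.a (T.a (T.b (T.l 1) (T.b (T.b (T.c (T.a (T.b (T.l 1) (T.l 0)) (T.a (T.b (T.a (T.l 1) (T.l 0)) (T.l 0)) (T.l 0))) (T.c (T.b (T.a (T.l 1) (T.b (T.a (T.l 1) (T.l 0)) (T.l 0))) (T.l 0)) (T.b (T.a (T.l 1) (T.b (T.a (T.l 1) (T.l 0)) (T.l 0))) (T.c (T.l 0) (T.l 0))))) (T.l 0)) (T.l 0))) (T.b (T.b (T.l 1) (T.b (T.l 1) (T.c (T.b (T.a (T.l 1) (T.a (T.l 1) (T.a (T.l 1) (T.l 0)))) (T.a (T.a (T.l 1) (T.l 0)) (T.l 0))) (T.b (T.a (T.l 1) (T.a (T.l 1) (T.b (T.l 1) (T.l 0)))) (T.a (T.b (T.l 1) (T.l 0)) (T.l 0)))))) (T.c (T.l 0) (T.l 0)))) (T.b (T.b (T.a (T.l 1) (T.a (T.l 1) (T.a (T.l 1) (T.b (T.l 1) (T.a (T.l 1) (T.b (T.l 1) (T.c (T.l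 0) (T.l 0)))))))) (T.a (T.c (T.b (T.a (T.l 1) (T.b (T.l 1) (T.c (T.l 0) (T.l 0)))) (T.l 0)) (T.b (T.a (T.l 1) (T.b (T.l 1) (T.b (T.a (T.l 1) (T.l 0)) (T.l 0)))) (T.c (T.l 0) (T.l 0)))) (T.b (T.a (T.b (T.b (T.l 1) (T.c (T.l 0) (T.l 0))) (T.l 0)) (T.l 0)) (T.l 0)))) (T.c (T.l 0) (T.l 0)))), by decide +kernel⟩

def A012E_000_3_47_1 :
    ∃ t, chk3 (onCell 0 67108864 0 1073741824 536870912 50465866 (corW 3 c0B eng mog cA012E gB0q0 gB0q1 gB0q2 gB1q2 dB0q0 dB0q1 dB0q2 dB1q2 true true)) t 3 47 1 = true :=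
  ⟨(T.a (T.a (T.b (T.l 1) (T.b (T.b (T.a (T.b (T.l 1) (T.c (T.a (T.b (T.l 1) (T.l 0)) (T.l 0)) (T.b (T.a (T.l 1) (T.c (T.l 0) (T.l 0))) (T.l 0)))) (T.b (T.c (T.b (T.a (T.l 1) (T.a (T.l 1) (T.l 0))) (T.c (T.l 0) (T.a (T.l 0) (T.l 0)))) (T.b (T.a (T.l 1) (T.b (T.l 1) (T.l 0))) (T.a (T.a (T.l 1) (T.l 0)) (T.l 0)))) (T.l 0))) (T.c (T.l 0) (T.l 0))) (T.l 0))) (T.b (T.b (T.l 1) (T.b (T.l 1) (T.b (T.a (T.l 1) (T.a (T.l 1) (T.a (T.l 1) (T.a (T.l 1) (T.b (T.l 1) (T.l 0)))))) (T.a (T.a (T.l 1) (T.b (T.l 1) (T.c (T.l 0) (T.l 0)))) (T.a (T.a (T.b (T.l 1) (T.l 0)) (T.l 0)) (T.l 0)))))) (T.b (T.a (T.b (T.c (T.l 0) (T.c (T.l 0) (T.l 0))) (T.l 0)) (T.l 0)) (T.l 0)))) (T.a (T.b (T.b (T.l 1) (T.a (T.b (T.l 1) (T.b (T.c (T.a (T.b (T.l 1) (T.l 0)) (T.l 0)) (T.a (T.b (T.l 1) (T.l 0)) (T.l 0))) (T.l 0))) (T.b (T.b (T.l 1) (T.c (T.b (T.a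 (T.l 1) (T.a (T.l 1) (T.l 0))) (T.c (T.l 0) (T.l 0))) (T.a (T.a (T.l 1) (T.b (T.l 1) (T.l 0))) (T.b (T.a (T.l 1) (T.l 0)) (T.l 0))))) (T.l 0)))) (T.c (T.l 0) (T.c (T.l 0) (T.l 0)))) (T.b (T.b (T.a (T.l 1) (T.a (T.l 1) (T.b (T.l 1) (T.a (T.l 1) (T.b (T.l 1) (T.b (T.l 1) (T.c (T.l 0) (T.l 0)))))))) (T.b (T.a (T.c (T.b (T.a (T.l 1) (T.b (T.l 1) (T.l 0))) (T.l 0)) (T.b (T.a (T.l 1) (T.b (T.l 1) (T.l 0))) (T.l 0))) (T.a (T.c (T.l 0) (T.c (T.l 0) (T.c (T.l 0) (T.c (T.l 0) (T.a (T.l 0) (T.l 0)))))) (T.l 0))) (T.l 0))) (T.a (T.l 0) (T.b (T.l 0) (T.l 0)))))), by decide +kernel⟩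

def A012E_000_1_3_1 :
    ∃ t, chk3 (onCell 0 67108864 0 1073741824 536870912 50465866 (corW 3 c0B eng mog cA012E gB0q0 gB0q1 gB0q2 gB1q2 dB0q0 dB0q1 dB0q2 dB1q2 true true)) t 1 3 1 = true :=
  ⟨(T.b (T.b (T.b (T.b (T.a (T.a (T.b (T.a (T.b (T.a (T.c (T.l 0) (T.l 0)) (T.l 0)) (T.l 0)) (T.b (T.c (T.l 0) (T.l 0)) (T.l 0))) (T.c (T.a (T.l 0) (T.l 0)) (T.l 0))) (T.b (T.a (T.c (T.l 0) (T.l 0)) (T.c (T.l 0) (T.l 0))) (T.c (T.a (T.l 0) (T.l 0)) (T.l 0)))) (T.a (T.b (T.a (T.l 0) (T.l 0)) (T.b (T.c (T.l 0) (T.l 0)) (T.l 2))) (T.b (T.a (T.l 0) (T.a (T.l 0) (T.b (T.l 0) (T.c (T.l 0) (T.l 0))))) (T.l 2)))) (T.a (T.a (T.a (T.b (T.b (T.l 0) (T.l 2)) (T.l 2)) (T.l 2)) (T.l 2)) (T.l 2))) (T.l 2)) (T.l 2)) (T.l 2)), by decide +kernel⟩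

theorem A012E_000_2_95_1 :
    ∃ t, chk3 (onCell 0 67108864 0 1073741824 536870912 50465866 (corW 3 c0B eng mog cA012E gB0q0 gB0q1 gB0q2 gB1q2 dB0q0 dB0q1 dB0q2 dB1q2 true true)) t 2 95 1 = true :=
  ex3_a A012E_000_4_95_1 A012E_000_5_95_1
theorem A012E_000_2_47_1 :
    ∃ t, chk3 (onCell 0 67108864 0 1073741824 536870912 50465866 (corW 3 c0B eng mog cA012E gB0q0 gB0q1 gB0q2 gB1q2 dB0q0 dB0q1 dB0q2 dB1q2 true true)) t 2 47 1 = true :=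
  ex3_b A012E_000_2_94_1 A012E_000_2_95_1
theorem A012E_000_1_47_1 :
    ∃ t, chk3 (onCell 0 67108864 0 1073741824 536870912 50465866 (corW 3 c0B eng mog cA012E gB0q0 gB0q1 gB0q2 gB1q2 dB0q0 dB0q1 dB0q2 dB1q2 true true)) t 1 47 1 = true :=
  ex3_a A012E_000_2_47_1 A012E_000_3_47_1
theorem A012E_000_1_23_1 :
    ∃ t, chk3 (onCell 0 67108864 0 1073741824 536870912 50465866 (corW 3 c0B eng mog cA012E gB0q0 gB0q1 gB0q2 gB1q2 dB0q0 dB0q1 dB0q2 dB1q2 true true)) t 1 23 1 = true :=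
  ex3_b A012E_000_1_46_1 A012E_000_1_47_1
theorem A012E_000_1_11_1 :
    ∃ t, chk3 (onCell 0 67108864 0 1073741824 536870912 50465866 (corW 3 c0B eng mog cA012E gB0q0 gB0q1 gB0q2 gB1q2 dB0q0 dB0q1 dB0q2 dB1q2 true true)) t 1 11 1 = true :=
  ex3_b A012E_000_1_22_1 A012E_000_1_23_1
theorem A012E_000_1_5_1 :
    ∃ t, chk3 (onCell 0 67108864 0 1073741824 536870912 50465866 (corW 3 c0B eng mog cA012E gB0q0 gB0q1 gB0q2 gB1q2 dB0q0 dB0q1 dB0q2 dB1q2 true true)) t 1 5 1 = true :=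
  ex3_b A012E_000_1_10_1 A012E_000_1_11_1
theorem A012E_000_1_2_1 :
    ∃ t, chk3 (onCell 0 67108864 0 1073741824 536870912 50465866 (corW 3 c0B eng mog cA012E gB0q0 gB0q1 gB0q2 gB1q2 dB0q0 dB0q1 dB0q2 dB1q2 true true)) t 1 2 1 = true :=
  ex3_b A012E_000_1_4_1 A012E_000_1_5_1
theorem A012E_000 :
    ∃ t, chk3 (onCell 0 67108864 0 1073741824 536870912 50465866 (corW 3 c0B eng mog cA012E gB0q0 gB0q1 gB0q2 gB1q2 dB0q0 dB0q1 dB0q2 dB1q2 true true)) t 1 1 1 = true :=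
  ex3_b A012E_000_1_2_1 A012E_000_1_3_1

def A012E_001 :
    ∃ t, chk3 (onCell 0 67108864 0 1073741824 536870912 50465866 (corW 3 c0B eng mog cA012E gB0q0 gB0q1 gB1q2 gB2q2 dB0q0 dB0q1 dB1q2 dB2q2 true true)) t 1 1 1 = true :=
  ⟨(T.b (T.b (T.l 1) (T.b (T.l 1) (T.l 1))) (T.b (T.b (T.b (T.a (T.b (T.b (T.l 1) (T.a (T.c (T.l 0) (T.l 0)) (T.l 0))) (T.c (T.a (T.l 0) (T.l 0)) (T.l 0))) (T.a (T.b (T.b (T.l 0) (T.l 0)) (T.l 0)) (T.a (T.b (T.c (T.l 0) (T.l 0)) (T.l 0)) (T.b (T.a (T.c (T.l 0) (T.l 0)) (T.b (T.c (T.l 0) (T.l 4)) (T.l 16))) (T.a (T.c (T.l 0) (T.l 0)) (T.c (T.l 0) (T.l 0))))))) (T.a (T.c (T.b (T.a (T.l 0) (T.l 0)) (T.a (T.l 0) (T.l 0))) (T.a (T.l 0) (T.l 0))) (T.a (T.c (T.b (T.l 0) (T.l 0)) (T.l 0)) (T.b (T.a (T.a (T.l 0) (T.b (T.l 0) (T.c (T.l 0) (T.l 0)))) (T.b (T.a (T.l 0) (T.l 0)) (T.a (T.l 64) (T.l 0))))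 (T.b (T.a (T.a (T.l 0) (T.c (T.l 0) (T.l 0))) (T.a (T.c (T.l 0) (T.l 0)) (T.c (T.l 0) (T.l 0)))) (T.l 2)))))) (T.a (T.b (T.a (T.b (T.c (T.l 0) (T.l 0)) (T.l 2)) (T.l 2)) (T.l 2)) (T.l 2))) (T.l 2))), by decide +kernel⟩

def A012E_002_1_2_1 :
    ∃ t, chk3 (onCell 0 67108864 0 1073741824 536870912 50465866 (corW 3 c0B eng mog cA012E gB0q0 gB0q1 gB2q2 gB3q2 dB0q0 dB0q1 dB2q2 dB3q2 true true)) t 1 2 1 = true :=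
  ⟨(T.l 1), by decide +kernel⟩

def A012E_002_1_6_1 :
    ∃ t, chk3 (onCell 0 67108864 0 1073741824 536870912 50465866 (corW 3 c0B eng mog cA012E gB0q0 gB0q1 gB2q2 gB3q2 dB0q0 dB0q1 dB2q2 dB3q2 true true)) t 1 6 1 = true :=
  ⟨(T.b (T.b (T.l 1) (T.b (T.l 1) (T.a (T.c (T.a (T.l 0) (T.l 0)) (T.l 0)) (T.a (T.l 0) (T.a (T.c (T.b (T.l 0) (T.l 0)) (T.l 0)) (T.c (T.l 0) (T.l 0))))))) (T.a (T.c (T.b (T.a (T.l 0) (T.l 0)) (T.c (T.a (T.l 816) (T.l 816)) (T.l 816))) (T.b (T.l 0) (T.l 816))) (T.a (T.a (T.c (T.b (T.l 0) (T.l 816)) (T.l 0)) (T.b (T.b (T.l 0) (T.a (T.l 816) (T.c (T.l 880) (T.l 0)))) (T.a (T.b (T.l 880) (T.c (T.c (T.l 816) (T.l 816)) (T.l 816))) (T.c (T.b (T.b (T.l 816) (T.l 816)) (T.b (T.l 816) (T.l 816))) (T.b (T.l 816) (T.l 816)))))) (T.b (T.a (T.b (T.c (T.b (T.l 0) (T.l 0)) (T.l 0)) (T.c (T.a (T.l 816) (T.l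 816)) (T.l 0))) (T.c (T.b (T.l 64) (T.b (T.l 816) (T.l 816))) (T.b (T.l 0) (T.l 0)))) (T.a (T.c (T.a (T.b (T.l 816) (T.l 880)) (T.b (T.l 816) (T.l 816))) (T.b (T.l 0) (T.l 64))) (T.c (T.b (T.b (T.l 816) (T.l 816)) (T.b (T.l 880) (T.l 880))) (T.b (T.l 0) (T.l 0)))))))), by decide +kernel⟩

def A012E_002_2_14_1 :
    ∃ t, chk3 (onCell 0 67108864 0 1073741824 536870912 50465866 (corW 3 c0B eng mog cA012E gB0q0 gB0q1 gB2q2 gB3q2 dB0q0 dB0q1 dB2q2 dB3q2 true true)) t 2 14 1 = true :=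
  ⟨(T.c (T.b (T.c (T.a (T.l 816) (T.l 816)) (T.a (T.l 816) (T.l 816))) (T.b (T.c (T.a (T.l 816) (T.l 816)) (T.l 816)) (T.l 2))) (T.b (T.a (T.l 816) (T.l 816)) (T.a (T.l 816) (T.l 816)))), by decide +kernel⟩

def A012E_002_3_14_1 :
    ∃ t, chk3 (onCell 0 67108864 0 1073741824 536870912 50465866 (corW 3 c0B eng mog cA012E gB0q0 gB0q1 gB2q2 gB3q2 dB0q0 dB0q1 dB2q2 dB3q2 true true)) t 3 14 1 = true :=
  ⟨(T.b (T.b (T.a (T.a (T.c (T.l 816) (T.l 816)) (T.a (T.c (T.c (T.b (T.l 816) (T.l 816)) (T.l 816)) (T.l 816)) (T.c (T.b (T.l 816) (T.l 816)) (T.l 816)))) (T.a (T.c (T.a (T.l 880) (T.l 816)) (T.b (T.l 816) (T.l 816))) (T.c (T.a (T.l 816) (T.l 816)) (T.l 816)))) (T.b (T.a (T.a (T.c (T.l 816) (T.l 816)) (T.a (T.c (T.c (T.l 816) (T.l 816)) (T.l 816)) (T.c (T.l 816) (T.l 816)))) (T.a (T.c (T.a (T.l 816) (T.l 816)) (T.l 816))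 (T.c (T.c (T.l 816) (T.l 816)) (T.l 816)))) (T.b (T.a (T.a (T.a (T.c (T.l 816) (T.l 816)) (T.c (T.c (T.l 816) (T.l 816)) (T.l 816))) (T.c (T.a (T.c (T.l 816) (T.l 816)) (T.l 816)) (T.c (T.l 816) (T.l 816)))) (T.a (T.c (T.c (T.l 816) (T.l 816)) (T.l 816)) (T.c (T.l 816) (T.l 816)))) (T.a (T.a (T.a (T.c (T.l 816) (T.l 816)) (T.c (T.c (T.l 816) (T.l 816)) (T.l 816))) (T.c (T.a (T.l 880) (T.l 816)) (T.c (T.l 816) (T.l 816)))) (T.a (T.c (T.c (T.l 816) (T.l 816)) (T.l 816)) (T.c (T.l 816) (T.l 816))))))) (T.b (T.b (T.b (T.a (T.a (T.a (T.c (T.l 816) (T.l 816)) (T.c (T.c (T.l 880) (T.l 816)) (T.l 816))) (T.c (T.a (T.l 880) (T.l 816)) (T.c (T.l 816) (T.l 816)))) (T.a (T.c (T.c (T.l 816) (T.l 816)) (T.l 816)) (T.c (T.l 816) (T.l 816)))) (T.a (T.b (T.a (T.a (T.c (T.l 816) (T.l 816)) (T.c (T.c (T.l 880) (T.l 816)) (T.l 816)))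 (T.c (T.a (T.l 816) (T.l 816)) (T.c (T.l 816) (T.l 816)))) (T.a (T.a (T.c (T.l 816) (T.l 816)) (T.c (T.a (T.l 816) (T.l 816)) (T.l 816))) (T.b (T.c (T.a (T.l 816) (T.l 816)) (T.l 880)) (T.l 2)))) (T.b (T.a (T.c (T.c (T.l 816) (T.l 816)) (T.l 816)) (T.c (T.l 816) (T.l 816))) (T.l 2)))) (T.l 2)) (T.l 2))), by decide +kernel⟩

def A012E_002_1_15_1 :
    ∃ t, chk3 (onCell 0 67108864 0 1073741824 536870912 50465866 (corW 3 c0B eng mog cA012E gB0q0 gB0q1 gB2q2 gB3q2 dB0q0 dB0q1 dB2q2 dB3q2 true true)) t 1 15 1 = true :=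
  ⟨(T.l 2), by decide +kernel⟩

theorem A012E_002_1_14_1 :
    ∃ t, chk3 (onCell 0 67108864 0 1073741824 536870912 50465866 (corW 3 c0B eng mog cA012E gB0q0 gB0q1 gB2q2 gB3q2 dB0q0 dB0q1 dB2q2 dB3q2 true true)) t 1 14 1 = true :=
  ex3_a A012E_002_2_14_1 A012E_002_3_14_1
theorem A012E_002_1_7_1 :
    ∃ t, chk3 (onCell 0 67108864 0 1073741824 536870912 50465866 (corW 3 c0B eng mog cA012E gB0q0 gB0q1 gB2q2 gB3q2 dB0q0 dB0q1 dB2q2 dB3q2 true true)) t 1 7 1 = true :=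
  ex3_b A012E_002_1_14_1 A012E_002_1_15_1
theorem A012E_002_1_3_1 :
    ∃ t, chk3 (onCell 0 67108864 0 1073741824 536870912 50465866 (corW 3 c0B eng mog cA012E gB0q0 gB0q1 gB2q2 gB3q2 dB0q0 dB0q1 dB2q2 dB3q2 true true)) t 1 3 1 = true :=
  ex3_b A012E_002_1_6_1 A012E_002_1_7_1
theorem A012E_002 :
    ∃ t, chk3 (onCell 0 67108864 0 1073741824 536870912 50465866 (corW 3 c0B eng mog cA012E gB0q0 gB0q1 gB2q2 gB3q2 dB0q0 dB0q1 dB2q2 dB3q2 true true)) t 1 1 1 = true :=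
  ex3_b A012E_002_1_2_1 A012E_002_1_3_1

def A012E_003 :
    ∃ t, chk3 (onCell 0 67108864 0 1073741824 536870912 50465866 (corW 3 c0B eng mog cA012E gB0q0 gB0q1 gB3q2 gB4q2 dB0q0 dB0q1 dB3q2 dB4q2 true false)) t 1 1 1 = true :=
  ⟨(T.b (T.l 1) (T.b (T.l 1) (T.b (T.b (T.l 1) (T.a (T.c (T.c (T.a (T.l 816) (T.l 816)) (T.l 816)) (T.l 816)) (T.a (T.a (T.c (T.a (T.l 816) (T.b (T.b (T.l 816) (T.l 816)) (T.l 880))) (T.b (T.l 816) (T.l 816))) (T.c (T.b (T.b (T.l 816) (T.l 816)) (T.l 880)) (T.l 816))) (T.c (T.a (T.b (T.l 816) (T.l 816)) (T.l 816)) (T.b (T.l 816) (T.l 816)))))) (T.a (T.a (T.c (T.b (T.l 816) (T.l 816)) (T.b (T.l 816) (T.l 816))) (T.a (T.c (T.b (T.l 816) (T.l 816)) (T.l 816)) (T.b (T.c (T.l 816) (T.l 816)) (T.a (T.c (T.l 816) (T.l 816)) (T.c (T.b (T.l 816) (T.l 816)) (T.l 816)))))) (T.a (T.a (T.c (T.b (T.a (T.b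 (T.l 816) (T.l 816)) (T.b (T.l 816) (T.l 816))) (T.a (T.b (T.l 816) (T.l 816)) (T.l 816))) (T.b (T.b (T.l 816) (T.l 816)) (T.b (T.l 816) (T.l 816)))) (T.c (T.b (T.b (T.l 816) (T.l 816)) (T.b (T.l 816) (T.l 816))) (T.b (T.l 816) (T.l 816)))) (T.a (T.c (T.b (T.l 816) (T.l 816)) (T.b (T.l 816) (T.l 816))) (T.c (T.b (T.l 816) (T.l 816)) (T.b (T.l 816) (T.l 816))))))))), by decide +kernel⟩

def A012L_005 :
    ∃ t, chk3 (onCell 0 67108864 0 1073741824 536870912 50465866 (corW 3 c0B eng mog cA012L gB0q0 gB0q1 gB5q2 gB6q2 dB0q0 dB0q1 dB5q2 dB6q2 false true)) t 1 1 1 = true :=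
  ⟨(T.l 2), by decide +kernel⟩

def A012R_040 :
    ∃ t, chk3 (onCell 0 67108864 0 1073741824 536870912 50465866 (corW 3 c0B eng mog cA012R gB0q0 gB4q1 gB0q2 gB1q2 dB0q0 dB4q1 dB0q2 dB1q2 true true)) t 1 1 1 = true :=
  ⟨(T.b (T.l 2) (T.l 2)), by decide +kernel⟩

def A012R_041 :
    ∃ t, chk3 (onCell 0 67108864 0 1073741824 536870912 50465866 (corW 3 c0B eng mog cA012R gB0q0 gB4q1 gB1q2 gB2q2 dB0q0 dB4q1 dB1q2 dB2q2 true true)) t 1 1 1 = true :=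
  ⟨(T.b (T.l 2) (T.l 2)), by decide +kernel⟩

def A012R_042 :
    ∃ t, chk3 (onCell 0 67108864 0 1073741824 536870912 50465866 (corW 3 c0B eng mog cA012R gB0q0 gB4q1 gB2q2 gB3q2 dB0q0 dB4q1 dB2q2 dB3q2 true true)) t 1 1 1 = true :=
  ⟨(T.l 2), by decide +kernel⟩

def A012R_043 :
    ∃ t, chk3 (onCell 0 67108864 0 1073741824 536870912 50465866 (corW 3 c0B eng mog cA012R gB0q0 gB4q1 gB3q2 gB4q2 dB0q0 dB4q1 dB3q2 dB4q2 true false)) t 1 1 1 = true :=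
  ⟨(T.b (T.b (T.b (T.l 204) (T.l 0)) (T.b (T.l 0) (T.a (T.l 816) (T.b (T.l 816) (T.l 0))))) (T.b (T.a (T.l 816) (T.a (T.b (T.l 816) (T.l 816)) (T.b (T.l 816) (T.l 816)))) (T.a (T.a (T.l 816) (T.a (T.l 816) (T.b (T.l 816) (T.l 816)))) (T.a (T.b (T.b (T.l 816) (T.l 816)) (T.a (T.l 816) (T.l 816))) (T.b (T.l 816) (T.b (T.l 816) (T.l 816))))))), by decide +kernel⟩

def A012R_050 :
    ∃ t, chk3 (onCell 0 67108864 0 1073741824 536870912 50465866 (corW 3 c0B eng mog cA012R gB0q0 gB5q1 gB0q2 gB1q2 dB0q0 dB5q1 dB0q2 dB1q2 true true)) t 1 1 1 = true :=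
  ⟨(T.l 2), by decide +kernel⟩

def A012R_051 :
    ∃ t, chk3 (onCell 0 67108864 0 1073741824 536870912 50465866 (corW 3 c0B eng mog cA012R gB0q0 gB5q1 gB1q2 gB2q2 dB0q0 dB5q1 dB1q2 dB2q2 true true)) t 1 1 1 = true :=
  ⟨(T.l 2), by decide +kernel⟩

def A012R_052 :
    ∃ t, chk3 (onCell 0 67108864 0 1073741824 536870912 50465866 (corW 3 c0B eng mog cA012R gB0q0 gB5q1 gB2q2 gB3q2 dB0q0 dB5q1 dB2q2 dB3q2 true true)) t 1 1 1 = true :=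
  ⟨(T.l 2), by decide +kernel⟩

def A012R_053 :
    ∃ t, chk3 (onCell 0 67108864 0 1073741824 536870912 50465866 (corW 3 c0B eng mog cA012R gB0q0 gB5q1 gB3q2 gB4q2 dB0q0 dB5q1 dB3q2 dB4q2 true false)) t 1 1 1 = true :=
  ⟨(T.b (T.b (T.l 0) (T.b (T.l 816) (T.a (T.l 816) (T.b (T.l 816) (T.l 64))))) (T.a (T.b (T.l 816) (T.a (T.l 816) (T.a (T.l 816) (T.b (T.l 816) (T.l 816))))) (T.b (T.a (T.b (T.l 816) (T.l 816)) (T.b (T.l 816) (T.l 816))) (T.a (T.b (T.b (T.l 816) (T.l 816)) (T.a (T.l 816) (T.l 816))) (T.b (T.l 816) (T.l 880)))))), by decide +kernel⟩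

def A012R_060 :
    ∃ t, chk3 (onCell 0 67108864 0 1073741824 536870912 50465866 (corW 3 c0B eng mog cA012R gB0q0 gB6q1 gB0q2 gB1q2 dB0q0 dB6q1 dB0q2 dB1q2 true true)) t 1 1 1 = true :=
  ⟨(T.l 2), by decide +kernel⟩

def A012R_061 :
    ∃ t, chk3 (onCell 0 67108864 0 1073741824 536870912 50465866 (corW 3 c0B eng mog cA012R gB0q0 gB6q1 gB1q2 gB2q2 dB0q0 dB6q1 dB1q2 dB2q2 true true)) t 1 1 1 = true :=
  ⟨(T.l 2), by decide +kernel⟩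

def A012R_062 :
    ∃ t, chk3 (onCell 0 67108864 0 1073741824 536870912 50465866 (corW 3 c0B eng mog cA012R gB0q0 gB6q1 gB2q2 gB3q2 dB0q0 dB6q1 dB2q2 dB3q2 true true)) t 1 1 1 = true :=
  ⟨(T.l 2), by decide +kernel⟩

def A012R_063 :
    ∃ t, chk3 (onCell 0 67108864 0 1073741824 536870912 50465866 (corW 3 c0B eng mog cA012R gB0q0 gB6q1 gB3q2 gB4q2 dB0q0 dB6q1 dB3q2 dB4q2 true false)) t 1 1 1 = true :=
  ⟨(T.b (T.b (T.l 0) (T.b (T.l 816) (T.a (T.l 816) (T.a (T.l 816) (T.l 816))))) (T.b (T.a (T.l 816) (T.a (T.b (T.l 816) (T.b (T.l 816) (T.l 816))) (T.b (T.l 816) (T.l 816)))) (T.a (T.a (T.l 816) (T.a (T.l 816) (T.b (T.l 816) (T.l 816)))) (T.a (T.b (T.b (T.l 816) (T.l 816)) (T.a (T.l 816) (T.l 816))) (T.b (T.l 816) (T.b (T.l 816) (T.l 816))))))), by decide +kernel⟩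

def A012R_140 :
    ∃ t, chk3 (onCell 0 67108864 0 1073741824 536870912 50465866 (corW 3 c0B eng mog cA012R gB1q0 gB4q1 gB0q2 gB1q2 dB1q0 dB4q1 dB0q2 dB1q2 true true)) t 1 1 1 = true :=
  ⟨(T.b (T.b (T.b (T.l 0) (T.l 2)) (T.l 2)) (T.l 2)), by decide +kernel⟩

def A012R_141 :
    ∃ t, chk3 (onCell 0 67108864 0 1073741824 536870912 50465866 (corW 3 c0B eng mog cA012R gB1q0 gB4q1 gB1q2 gB2q2 dB1q0 dB4q1 dB1q2 dB2q2 true true)) t 1 1 1 = true :=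
  ⟨(T.b (T.b (T.l 0) (T.l 2)) (T.l 2)), by decide +kernel⟩

def A012R_142 :
    ∃ t, chk3 (onCell 0 67108864 0 1073741824 536870912 50465866 (corW 3 c0B eng mog cA012R gB1q0 gB4q1 gB2q2 gB3q2 dB1q0 dB4q1 dB2q2 dB3q2 true true)) t 1 1 1 = true :=
  ⟨(T.b (T.b (T.l 0) (T.b (T.l 2) (T.l 2))) (T.l 2)), by decide +kernel⟩

def A012R_143 :
    ∃ t, chk3 (onCell 0 67108864 0 1073741824 536870912 50465866 (corW 3 c0B eng mog cA012R gB1q0 gB4q1 gB3q2 gB4q2 dB1q0 dB4q1 dB3q2 dB4q2 true false)) t 1 1 1 = true :=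
  ⟨(T.b (T.b (T.l 0) (T.b (T.l 816) (T.a (T.l 816) (T.b (T.l 816) (T.l 816))))) (T.b (T.a (T.l 816) (T.a (T.b (T.l 816) (T.l 816)) (T.b (T.l 816) (T.l 816)))) (T.a (T.b (T.l 816) (T.a (T.l 816) (T.a (T.l 816) (T.l 816)))) (T.a (T.b (T.l 816) (T.l 816)) (T.b (T.l 816) (T.l 816)))))), by decide +kernel⟩

def A012R_150 :
    ∃ t, chk3 (onCell 0 67108864 0 1073741824 536870912 50465866 (corW 3 c0B eng mog cA012R gB1q0 gB5q1 gB0q2 gB1q2 dB1q0 dB5q1 dB0q2 dB1q2 true true)) t 1 1 1 = true :=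
  ⟨(T.b (T.l 2) (T.l 2)), by decide +kernel⟩

def A012R_151 :
    ∃ t, chk3 (onCell 0 67108864 0 1073741824 536870912 50465866 (corW 3 c0B eng mog cA012R gB1q0 gB5q1 gB1q2 gB2q2 dB1q0 dB5q1 dB1q2 dB2q2 true true)) t 1 1 1 = true :=
  ⟨(T.l 2), by decide +kernel⟩

def A012R_152 :
    ∃ t, chk3 (onCell 0 67108864 0 1073741824 536870912 50465866 (corW 3 c0B eng mog cA012R gB1q0 gB5q1 gB2q2 gB3q2 dB1q0 dB5q1 dB2q2 dB3q2 true true)) t 1 1 1 = true :=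
  ⟨(T.l 2), by decide +kernel⟩

def A012R_153 :
    ∃ t, chk3 (onCell 0 67108864 0 1073741824 536870912 50465866 (corW 3 c0B eng mog cA012R gB1q0 gB5q1 gB3q2 gB4q2 dB1q0 dB5q1 dB3q2 dB4q2 true false)) t 1 1 1 = true :=
  ⟨(T.b (T.b (T.l 0) (T.a (T.l 816) (T.b (T.l 816) (T.b (T.l 816) (T.l 816))))) (T.a (T.b (T.l 816) (T.b (T.l 816) (T.a (T.l 816) (T.a (T.l 816) (T.l 816))))) (T.a (T.b (T.b (T.l 816) (T.l 816)) (T.b (T.l 816) (T.l 816))) (T.b (T.b (T.l 816) (T.l 816)) (T.b (T.l 816) (T.l 816)))))), by decide +kernel⟩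

def A012R_160 :
    ∃ t, chk3 (onCell 0 67108864 0 1073741824 536870912 50465866 (corW 3 c0B eng mog cA012R gB1q0 gB6q1 gB0q2 gB1q2 dB1q0 dB6q1 dB0q2 dB1q2 true true)) t 1 1 1 = true :=
  ⟨(T.l 2), by decide +kernel⟩

def A012R_161 :
    ∃ t, chk3 (onCell 0 67108864 0 1073741824 536870912 50465866 (corW 3 c0B eng mog cA012R gB1q0 gB6q1 gB1q2 gB2q2 dB1q0 dB6q1 dB1q2 dB2q2 true true)) t 1 1 1 = true :=
  ⟨(T.l 2), by decide +kernel⟩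

def A012R_162 :
    ∃ t, chk3 (onCell 0 67108864 0 1073741824 536870912 50465866 (corW 3 c0B eng mog cA012R gB1q0 gB6q1 gB2q2 gB3q2 dB1q0 dB6q1 dB2q2 dB3q2 true true)) t 1 1 1 = true :=
  ⟨(T.l 2), by decide +kernel⟩

def A012R_163 :
    ∃ t, chk3 (onCell 0 67108864 0 1073741824 536870912 50465866 (corW 3 c0B eng mog cA012R gB1q0 gB6q1 gB3q2 gB4q2 dB1q0 dB6q1 dB3q2 dB4q2 true false)) t 1 1 1 = true :=
  ⟨(T.b (T.b (T.l 816) (T.b (T.l 816) (T.a (T.l 816) (T.b (T.l 816) (T.l 816))))) (T.b (T.a (T.l 816) (T.a (T.b (T.l 816) (T.l 816)) (T.b (T.l 816) (T.l 816)))) (T.a (T.b (T.l 816) (T.a (T.l 816) (T.a (T.l 816) (T.l 816)))) (T.a (T.b (T.l 816) (T.l 816)) (T.b (T.l 816) (T.l 816)))))), by decide +kernel⟩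

def A012R_240 :
    ∃ t, chk3 (onCell 0 67108864 0 1073741824 536870912 50465866 (corW 3 c0B eng mog cA012R gB2q0 gB4q1 gB0q2 gB1q2 dB2q0 dB4q1 dB0q2 dB1q2 true true)) t 1 1 1 = true :=
  ⟨(T.b (T.b (T.l 1) (T.b (T.l 816) (T.a (T.l 816) (T.l 2)))) (T.l 2)), by decide +kernel⟩

def A012R_241 :
    ∃ t, chk3 (onCell 0 67108864 0 1073741824 536870912 50465866 (corW 3 c0B eng mog cA012R gB2q0 gB4q1 gB1q2 gB2q2 dB2q0 dB4q1 dB1q2 dB2q2 true true)) t 1 1 1 = true :=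
  ⟨(T.b (T.b (T.l 1) (T.b (T.l 816) (T.b (T.l 816) (T.a (T.l 816) (T.a (T.l 816) (T.l 816)))))) (T.b (T.a (T.l 816) (T.b (T.a (T.l 816) (T.l 2)) (T.l 2))) (T.l 2))), by decide +kernel⟩

def A012R_242 :
    ∃ t, chk3 (onCell 0 67108864 0 1073741824 536870912 50465866 (corW 3 c0B eng mog cA012R gB2q0 gB4q1 gB2q2 gB3q2 dB2q0 dB4q1 dB2q2 dB3q2 true true)) t 1 1 1 = true :=
  ⟨(T.b (T.b (T.l 1) (T.a (T.l 1) (T.b (T.l 1) (T.b (T.l 1) (T.l 816))))) (T.b (T.a (T.l 816) (T.a (T.b (T.l 816) (T.l 816)) (T.b (T.l 816) (T.l 816)))) (T.a (T.a (T.l 816) (T.a (T.l 816) (T.b (T.l 816) (T.l 816)))) (T.a (T.b (T.l 880) (T.b (T.l 816) (T.l 816))) (T.b (T.l 816) (T.l 816)))))), by decide +kernel⟩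

def A012R_243 :
    ∃ t, chk3 (onCell 0 67108864 0 1073741824 536870912 50465866 (corW 3 c0B eng mog cA012R gB2q0 gB4q1 gB3q2 gB4q2 dB2q0 dB4q1 dB3q2 dB4q2 true false)) t 1 1 1 = true :=
  ⟨(T.l 1), by decide +kernel⟩

def A012R_250 :
    ∃ t, chk3 (onCell 0 67108864 0 1073741824 536870912 50465866 (corW 3 c0B eng mog cA012R gB2q0 gB5q1 gB0q2 gB1q2 dB2q0 dB5q1 dB0q2 dB1q2 true true)) t 1 1 1 = true :=
  ⟨(T.b (T.b (T.b (T.l 1) (T.l 816)) (T.b (T.l 816) (T.l 2))) (T.l 2)), by decide +kernel⟩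

def A012R_251 :
    ∃ t, chk3 (onCell 0 67108864 0 1073741824 536870912 50465866 (corW 3 c0B eng mog cA012R gB2q0 gB5q1 gB1q2 gB2q2 dB2q0 dB5q1 dB1q2 dB2q2 true true)) t 1 1 1 = true :=
  ⟨(T.b (T.b (T.l 816) (T.b (T.l 816) (T.a (T.l 816) (T.b (T.l 816) (T.l 2))))) (T.b (T.b (T.l 2) (T.l 2)) (T.l 2))), by decide +kernel⟩

def A012R_252 :
    ∃ t, chk3 (onCell 0 67108864 0 1073741824 536870912 50465866 (corW 3 c0B eng mog cA012R gB2q0 gB5q1 gB2q2 gB3q2 dB2q0 dB5q1 dB2q2 dB3q2 true true)) t 1 1 1 = true :=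
  ⟨(T.b (T.b (T.l 1) (T.a (T.l 816) (T.b (T.l 816) (T.b (T.l 816) (T.l 816))))) (T.a (T.a (T.l 816) (T.a (T.l 816) (T.b (T.l 816) (T.b (T.l 816) (T.l 816))))) (T.a (T.b (T.b (T.l 816) (T.l 816)) (T.a (T.b (T.l 816) (T.l 816)) (T.l 880))) (T.b (T.b (T.l 816) (T.l 816)) (T.b (T.l 816) (T.l 816)))))), by decide +kernel⟩

def A012R_253 :
    ∃ t, chk3 (onCell 0 67108864 0 1073741824 536870912 50465866 (corW 3 c0B eng mog cA012R gB2q0 gB5q1 gB3q2 gB4q2 dB2q0 dB5q1 dB3q2 dB4q2 true false)) t 1 1 1 = true :=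
  ⟨(T.l 1), by decide +kernel⟩

def A012R_260 :
    ∃ t, chk3 (onCell 0 67108864 0 1073741824 536870912 50465866 (corW 3 c0B eng mog cA012R gB2q0 gB6q1 gB0q2 gB1q2 dB2q0 dB6q1 dB0q2 dB1q2 true true)) t 1 1 1 = true :=
  ⟨(T.b (T.b (T.b (T.l 816) (T.l 816)) (T.l 2)) (T.l 2)), by decide +kernel⟩

def A012R_261 :
    ∃ t, chk3 (onCell 0 67108864 0 1073741824 536870912 50465866 (corW 3 c0B eng mog cA012R gB2q0 gB6q1 gB1q2 gB2q2 dB2q0 dB6q1 dB1q2 dB2q2 true true)) t 1 1 1 = true :=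
  ⟨(T.b (T.b (T.l 816) (T.b (T.l 816) (T.l 2))) (T.l 2)), by decide +kernel⟩

def A012R_262 :
    ∃ t, chk3 (onCell 0 67108864 0 1073741824 536870912 50465866 (corW 3 c0B eng mog cA012R gB2q0 gB6q1 gB2q2 gB3q2 dB2q0 dB6q1 dB2q2 dB3q2 true true)) t 1 1 1 = true :=
  ⟨(T.b (T.a (T.l 816) (T.a (T.l 816) (T.b (T.l 816) (T.b (T.l 816) (T.l 816))))) (T.a (T.a (T.l 816) (T.a (T.l 816) (T.b (T.l 816) (T.b (T.l 816) (T.l 816))))) (T.b (T.a (T.b (T.l 816) (T.l 816)) (T.b (T.l 816) (T.l 816))) (T.a (T.a (T.b (T.l 816) (T.l 816)) (T.l 816)) (T.b (T.l 816) (T.l 816)))))), by decide +kernel⟩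

def A012R_263 :
    ∃ t, chk3 (onCell 0 67108864 0 1073741824 536870912 50465866 (corW 3 c0B eng mog cA012R gB2q0 gB6q1 gB3q2 gB4q2 dB2q0 dB6q1 dB3q2 dB4q2 true false)) t 1 1 1 = true :=
  ⟨(T.b (T.l 1) (T.l 1)), by decide +kernel⟩

def A012R_340 :
    ∃ t, chk3 (onCell 0 67108864 0 1073741824 536870912 50465866 (corW 3 c0B eng mog cA012R gB3q0 gB4q1 gB0q2 gB1q2 dB3q0 dB4q1 dB0q2 dB1q2 true true)) t 1 1 1 = true :=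
  ⟨(T.b (T.l 1) (T.b (T.a (T.l 816) (T.b (T.a (T.l 1) (T.b (T.l 1) (T.l 816))) (T.b (T.a (T.l 816) (T.l 816)) (T.a (T.l 816) (T.l 816))))) (T.b (T.a (T.l 816) (T.b (T.a (T.b (T.l 816) (T.l 816)) (T.l 2)) (T.l 2))) (T.a (T.b (T.l 816) (T.l 2)) (T.l 2))))), by decide +kernel⟩

def A012R_341 :
    ∃ t, chk3 (onCell 0 67108864 0 1073741824 536870912 50465866 (corW 3 c0B eng mog cA012R gB3q0 gB4q1 gB1q2 gB2q2 dB3q0 dB4q1 dB1q2 dB2q2 true true)) t 1 1 1 = true :=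
  ⟨(T.b (T.l 1) (T.b (T.a (T.l 1) (T.b (T.l 1) (T.a (T.l 816) (T.l 816)))) (T.b (T.a (T.l 816) (T.a (T.l 816) (T.l 816))) (T.a (T.a (T.l 816) (T.a (T.l 816) (T.l 816))) (T.a (T.b (T.l 816) (T.l 816)) (T.b (T.l 816) (T.l 816))))))), by decide +kernel⟩

def A012R_342 :
    ∃ t, chk3 (onCell 0 67108864 0 1073741824 536870912 50465866 (corW 3 c0B eng mog cA012R gB3q0 gB4q1 gB2q2 gB3q2 dB3q0 dB4q1 dB2q2 dB3q2 true true)) t 1 1 1 = true :=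
  ⟨(T.b (T.l 1) (T.b (T.l 1) (T.l 1))), by decide +kernel⟩

def A012R_343 :
    ∃ t, chk3 (onCell 0 67108864 0 1073741824 536870912 50465866 (corW 3 c0B eng mog cA012R gB3q0 gB4q1 gB3q2 gB4q2 dB3q0 dB4q1 dB3q2 dB4q2 true false)) t 1 1 1 = true :=
  ⟨(T.l 1), by decide +kernel⟩

def A012R_350 :
    ∃ t, chk3 (onCell 0 67108864 0 1073741824 536870912 50465866 (corW 3 c0B eng mog cA012R gB3q0 gB5q1 gB0q2 gB1q2 dB3q0 dB5q1 dB0q2 dB1q2 true true)) t 1 1 1 = true :=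
  ⟨(T.b (T.l 1) (T.b (T.a (T.l 816) (T.b (T.a (T.l 816) (T.b (T.l 1) (T.l 816))) (T.b (T.a (T.l 816) (T.l 816)) (T.a (T.l 816) (T.l 816))))) (T.a (T.b (T.l 816) (T.b (T.l 816) (T.l 2))) (T.b (T.b (T.a (T.b (T.l 816) (T.l 2)) (T.l 2)) (T.l 2)) (T.l 2))))), by decide +kernel⟩

def A012R_351 :
    ∃ t, chk3 (onCell 0 67108864 0 1073741824 536870912 50465866 (corW 3 c0B eng mog cA012R gB3q0 gB5q1 gB1q2 gB2q2 dB3q0 dB5q1 dB1q2 dB2q2 true true)) t 1 1 1 = true :=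
  ⟨(T.b (T.l 1) (T.b (T.a (T.l 816) (T.b (T.l 1) (T.a (T.l 816) (T.l 816)))) (T.a (T.b (T.l 816) (T.a (T.l 816) (T.a (T.l 816) (T.l 816)))) (T.b (T.a (T.l 816) (T.l 816)) (T.a (T.b (T.l 816) (T.l 816)) (T.b (T.l 816) (T.l 816))))))), by decide +kernel⟩

def A012R_352 :
    ∃ t, chk3 (onCell 0 67108864 0 1073741824 536870912 50465866 (corW 3 c0B eng mog cA012R gB3q0 gB5q1 gB2q2 gB3q2 dB3q0 dB5q1 dB2q2 dB3q2 true true)) t 1 1 1 = true :=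
  ⟨(T.b (T.l 1) (T.b (T.l 1) (T.l 1))), by decide +kernel⟩

def A012R_353 :
    ∃ t, chk3 (onCell 0 67108864 0 1073741824 536870912 50465866 (corW 3 c0B eng mog cA012R gB3q0 gB5q1 gB3q2 gB4q2 dB3q0 dB5q1 dB3q2 dB4q2 true false)) t 1 1 1 = true :=
  ⟨(T.l 1), by decide +kernel⟩

def A012R_360 :
    ∃ t, chk3 (onCell 0 67108864 0 1073741824 536870912 50465866 (corW 3 c0B eng mog cA012R gB3q0 gB6q1 gB0q2 gB1q2 dB3q0 dB6q1 dB0q2 dB1q2 true true)) t 1 1 1 = true :=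
  ⟨(T.b (T.b (T.l 1) (T.l 1)) (T.b (T.a (T.l 816) (T.b (T.a (T.l 816) (T.b (T.l 816) (T.l 816))) (T.b (T.a (T.l 816) (T.l 816)) (T.a (T.l 816) (T.l 2))))) (T.a (T.b (T.l 816) (T.l 2)) (T.b (T.l 2) (T.l 2))))), by decide +kernel⟩

def A012R_361 :
    ∃ t, chk3 (onCell 0 67108864 0 1073741824 536870912 50465866 (corW 3 c0B eng mog cA012R gB3q0 gB6q1 gB1q2 gB2q2 dB3q0 dB6q1 dB1q2 dB2q2 true true)) t 1 1 1 = true :=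
  ⟨(T.b (T.l 1) (T.b (T.a (T.l 816) (T.b (T.a (T.l 1) (T.l 816)) (T.a (T.l 816) (T.l 816)))) (T.a (T.b (T.l 816) (T.a (T.l 816) (T.a (T.l 816) (T.l 816)))) (T.b (T.a (T.l 816) (T.l 816)) (T.a (T.b (T.l 816) (T.l 816)) (T.b (T.l 816) (T.l 816))))))), by decide +kernel⟩

def A012R_362 :
    ∃ t, chk3 (onCell 0 67108864 0 1073741824 536870912 50465866 (corW 3 c0B eng mog cA012R gB3q0 gB6q1 gB2q2 gB3q2 dB3q0 dB6q1 dB2q2 dB3q2 true true)) t 1 1 1 = true :=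
  ⟨(T.b (T.l 1) (T.b (T.l 1) (T.l 1))), by decide +kernel⟩

def A012R_363 :
    ∃ t, chk3 (onCell 0 67108864 0 1073741824 536870912 50465866 (corW 3 c0B eng mog cA012R gB3q0 gB6q1 gB3q2 gB4q2 dB3q0 dB6q1 dB3q2 dB4q2 true false)) t 1 1 1 = true :=
  ⟨(T.l 1), by decide +kernel⟩

def A022E_000 :
    ∃ t, chk3 (onCell 0 67108864 0 1073741824 536870912 50465866 (corW 3 c0B eng mog cA022E gB0q0 gB0q2 gB0q2 gB1q2 dB0q0 dB0q2 dB0q2 dB1q2 true true)) t 1 1 1 = true :=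
  ⟨(T.l 2), by decide +kernel⟩

def A022E_001 :
    ∃ t, chk3 (onCell 0 67108864 0 1073741824 536870912 50465866 (corW 3 c0B eng mog cA022E gB0q0 gB0q2 gB1q2 gB2q2 dB0q0 dB0q2 dB1q2 dB2q2 true true)) t 1 1 1 = true :=
  ⟨(T.l 2), by decide +kernel⟩

def A022E_002 :
    ∃ t, chk3 (onCell 0 67108864 0 1073741824 536870912 50465866 (corW 3 c0B eng mog cA022E gB0q0 gB0q2 gB2q2 gB3q2 dB0q0 dB0q2 dB2q2 dB3q2 true true)) t 1 1 1 = true :=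
  ⟨(T.b (T.l 2) (T.l 2)), by decide +kernel⟩

def A022E_003 :
    ∃ t, chk3 (onCell 0 67108864 0 1073741824 536870912 50465866 (corW 3 c0B eng mog cA022E gB0q0 gB0q2 gB3q2 gB4q2 dB0q0 dB0q2 dB3q2 dB4q2 true false)) t 1 1 1 = true :=
  ⟨(T.b (T.b (T.a (T.a (T.b (T.c (T.b (T.l 204) (T.l 204)) (T.l 204)) (T.l 204)) (T.a (T.l 204) (T.a (T.l 204) (T.b (T.l 204) (T.l 204))))) (T.a (T.a (T.b (T.a (T.l 204) (T.l 204)) (T.l 0)) (T.b (T.b (T.l 204) (T.l 204)) (T.b (T.l 204) (T.l 204)))) (T.b (T.a (T.l 204) (T.l 204)) (T.a (T.l 0) (T.l 0))))) (T.a (T.a (T.l 0) (T.a (T.l 0) (T.l 0))) (T.a (T.a (T.l 0) (T.b (T.l 0) (T.l 0))) (T.b (T.b (T.l 16) (T.l 0)) (T.b (T.l 0) (T.l 0)))))) (T.b (T.b (T.a (T.a (T.l 0) (T.b (T.l 0) (T.l 0))) (T.a (T.l 0) (T.b (T.l 0) (T.l 0)))) (T.a (T.a (T.l 0) (T.c (T.l 0) (T.l 0))) (T.a (T.l 0) (T.l 0))))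 (T.a (T.a (T.b (T.l 816) (T.c (T.b (T.l 816) (T.l 816)) (T.l 816))) (T.a (T.b (T.l 816) (T.c (T.l 816) (T.l 816))) (T.b (T.l 0) (T.c (T.c (T.b (T.l 816) (T.l 816)) (T.l 816)) (T.b (T.l 816) (T.l 816)))))) (T.a (T.b (T.b (T.l 0) (T.l 0)) (T.a (T.c (T.b (T.l 816) (T.l 816)) (T.l 816)) (T.c (T.l 816) (T.l 816)))) (T.b (T.l 0) (T.c (T.b (T.l 816) (T.l 816)) (T.l 816))))))), by decide +kernel⟩

def A022E_010 :
    ∃ t, chk3 (onCell 0 67108864 0 1073741824 536870912 50465866 (corW 3 c0B eng mog cA022E gB0q0 gB1q2 gB0q2 gB1q2 dB0q0 dB1q2 dB0q2 dB1q2 true true)) t 1 1 1 = true :=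
  ⟨(T.l 2), by decide +kernel⟩

def A022E_011 :
    ∃ t, chk3 (onCell 0 67108864 0 1073741824 536870912 50465866 (corW 3 c0B eng mog cA022E gB0q0 gB1q2 gB1q2 gB2q2 dB0q0 dB1q2 dB1q2 dB2q2 true true)) t 1 1 1 = true :=
  ⟨(T.l 2), by decide +kernel⟩

def A022E_012 :
    ∃ t, chk3 (onCell 0 67108864 0 1073741824 536870912 50465866 (corW 3 c0B eng mog cA022E gB0q0 gB1q2 gB2q2 gB3q2 dB0q0 dB1q2 dB2q2 dB3q2 true true)) t 1 1 1 = true :=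
  ⟨(T.l 2), by decide +kernel⟩

def A022E_013 :
    ∃ t, chk3 (onCell 0 67108864 0 1073741824 536870912 50465866 (corW 3 c0B eng mog cA022E gB0q0 gB1q2 gB3q2 gB4q2 dB0q0 dB1q2 dB3q2 dB4q2 true false)) t 1 1 1 = true :=
  ⟨(T.b (T.b (T.a (T.a (T.c (T.b (T.b (T.l 204) (T.l 204)) (T.l 204)) (T.l 204)) (T.a (T.b (T.l 204) (T.l 204)) (T.a (T.l 204) (T.b (T.b (T.l 204) (T.l 204)) (T.l 204))))) (T.a (T.a (T.b (T.a (T.b (T.l 204) (T.l 204)) (T.l 204)) (T.b (T.l 204) (T.l 204))) (T.b (T.b (T.l 204) (T.l 204)) (T.b (T.l 204) (T.l 204)))) (T.b (T.a (T.l 220) (T.b (T.l 204) (T.l 204))) (T.a (T.l 204) (T.l 204))))) (T.a (T.a (T.l 0) (T.a (T.l 0) (T.l 0))) (T.a (T.a (T.l 0) (T.b (T.l 0) (T.l 0))) (T.b (T.b (T.l 0) (T.l 0)) (T.b (T.l 0) (T.l 0)))))) (T.b (T.b (T.a (T.a (T.l 0) (T.b (T.l 0) (T.l 0))) (T.a (T.l 0) (T.b (T.l 0) (T.l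 0)))) (T.a (T.a (T.l 0) (T.c (T.l 0) (T.l 0))) (T.a (T.l 0) (T.l 0)))) (T.a (T.a (T.c (T.b (T.l 816) (T.l 816)) (T.l 816)) (T.a (T.c (T.b (T.l 816) (T.l 816)) (T.l 816)) (T.b (T.l 0) (T.c (T.a (T.l 816) (T.l 816)) (T.b (T.l 816) (T.l 816)))))) (T.a (T.b (T.b (T.l 0) (T.l 0)) (T.a (T.c (T.b (T.l 816) (T.l 816)) (T.l 816)) (T.c (T.l 816) (T.l 816)))) (T.b (T.l 0) (T.c (T.b (T.l 816) (T.l 816)) (T.l 816))))))), by decide +kernel⟩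

def A022E_020 :
    ∃ t, chk3 (onCell 0 67108864 0 1073741824 536870912 50465866 (corW 3 c0B eng mog cA022E gB0q0 gB2q2 gB0q2 gB1q2 dB0q0 dB2q2 dB0q2 dB1q2 true true)) t 1 1 1 = true :=
  ⟨(T.l 2), by decide +kernel⟩

def A022E_021 :
    ∃ t, chk3 (onCell 0 67108864 0 1073741824 536870912 50465866 (corW 3 c0B eng mog cA022E gB0q0 gB2q2 gB1q2 gB2q2 dB0q0 dB2q2 dB1q2 dB2q2 true true)) t 1 1 1 = true :=
  ⟨(T.l 2), by decide +kernel⟩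

def A022E_022 :
    ∃ t, chk3 (onCell 0 67108864 0 1073741824 536870912 50465866 (corW 3 c0B eng mog cA022E gB0q0 gB2q2 gB2q2 gB3q2 dB0q0 dB2q2 dB2q2 dB3q2 true true)) t 1 1 1 = true :=
  ⟨(T.l 2), by decide +kernel⟩

def A022E_023 :
    ∃ t, chk3 (onCell 0 67108864 0 1073741824 536870912 50465866 (corW 3 c0B eng mog cA022E gB0q0 gB2q2 gB3q2 gB4q2 dB0q0 dB2q2 dB3q2 dB4q2 true false)) t 1 1 1 = true :=
  ⟨(T.b (T.b (T.a (T.a (T.c (T.l 204) (T.b (T.b (T.l 204) (T.l 204)) (T.l 204))) (T.a (T.b (T.l 204) (T.l 204)) (T.a (T.l 204) (T.b (T.a (T.l 204) (T.l 220)) (T.l 204))))) (T.a (T.a (T.b (T.a (T.b (T.l 204) (T.l 204)) (T.b (T.l 204) (T.l 204))) (T.b (T.l 204) (T.l 204))) (T.b (T.b (T.c (T.l 204) (T.l 204)) (T.l 204)) (T.b (T.l 204) (T.l 204)))) (T.b (T.a (T.a (T.l 204) (T.l 204)) (T.b (T.l 220) (T.l 204))) (T.a (T.l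 204) (T.l 204))))) (T.a (T.a (T.l 204) (T.a (T.l 204) (T.l 0))) (T.a (T.a (T.l 0) (T.b (T.l 204) (T.l 204))) (T.b (T.b (T.l 204) (T.l 204)) (T.b (T.l 0) (T.l 0)))))) (T.b (T.b (T.a (T.a (T.l 0) (T.c (T.l 0) (T.l 0))) (T.a (T.l 0) (T.l 0))) (T.a (T.a (T.l 0) (T.c (T.l 0) (T.l 0))) (T.a (T.l 0) (T.l 0)))) (T.a (T.a (T.c (T.b (T.l 816) (T.l 816)) (T.l 0)) (T.a (T.c (T.b (T.l 816) (T.l 816)) (T.l 0)) (T.b (T.l 0) (T.c (T.c (T.l 816) (T.l 816)) (T.l 816))))) (T.a (T.b (T.l 64) (T.a (T.c (T.b (T.l 816) (T.l 816)) (T.l 816)) (T.b (T.l 816) (T.l 880)))) (T.b (T.l 0) (T.c (T.l 880) (T.l 816))))))), by decide +kernel⟩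

def A022E_030 :
    ∃ t, chk3 (onCell 0 67108864 0 1073741824 536870912 50465866 (corW 3 c0B eng mog cA022E gB0q0 gB3q2 gB0q2 gB1q2 dB0q0 dB3q2 dB0q2 dB1q2 true true)) t 1 1 1 = true :=
  ⟨(T.l 2), by decide +kernel⟩

def A022E_031 :
    ∃ t, chk3 (onCell 0 67108864 0 1073741824 536870912 50465866 (corW 3 c0B eng mog cA022E gB0q0 gB3q2 gB1q2 gB2q2 dB0q0 dB3q2 dB1q2 dB2q2 true true)) t 1 1 1 = true :=
  ⟨(T.l 2), by decide +kernel⟩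

def A022E_032 :
    ∃ t, chk3 (onCell 0 67108864 0 1073741824 536870912 50465866 (corW 3 c0B eng mog cA022E gB0q0 gB3q2 gB2q2 gB3q2 dB0q0 dB3q2 dB2q2 dB3q2 true true)) t 1 1 1 = true :=
  ⟨(T.l 2), by decide +kernel⟩

def A022E_033 :
    ∃ t, chk3 (onCell 0 67108864 0 1073741824 536870912 50465866 (corW 3 c0B eng mog cA022E gB0q0 gB3q2 gB3q2 gB4q2 dB0q0 dB3q2 dB3q2 dB4q2 true false)) t 1 1 1 = true :=
  ⟨(T.b (T.b (T.a (T.a (T.l 204) (T.a (T.l 204) (T.a (T.l 204) (T.b (T.l 204) (T.l 204))))) (T.a (T.a (T.b (T.c (T.l 204) (T.l 204)) (T.l 204)) (T.b (T.b (T.l 204) (T.l 204)) (T.l 204))) (T.b (T.a (T.l 220) (T.l 220)) (T.b (T.l 204) (T.l 204))))) (T.a (T.a (T.l 0) (T.c (T.l 0) (T.l 0))) (T.a (T.a (T.l 0) (T.b (T.l 0) (T.l 0))) (T.b (T.b (T.l 204) (T.l 0)) (T.l 0))))) (T.b (T.b (T.a (T.a (T.l 0) (T.c (T.l 0) (T.l 0)))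 (T.a (T.l 0) (T.l 0))) (T.a (T.a (T.l 0) (T.c (T.l 0) (T.l 0))) (T.a (T.l 0) (T.l 0)))) (T.a (T.a (T.c (T.l 880) (T.l 0)) (T.a (T.c (T.l 816) (T.l 816)) (T.b (T.l 0) (T.c (T.c (T.l 816) (T.l 816)) (T.l 816))))) (T.a (T.a (T.c (T.b (T.l 816) (T.l 880)) (T.l 0)) (T.c (T.l 816) (T.l 0))) (T.b (T.l 0) (T.c (T.l 816) (T.l 816))))))), by decide +kernel⟩

def A022E_110 :
    ∃ t, chk3 (onCell 0 67108864 0 1073741824 536870912 50465866 (corW 3 c0B eng mog cA022E gB1q0 gB1q2 gB0q2 gB1q2 dB1q0 dB1q2 dB0q2 dB1q2 true true)) t 1 1 1 = true :=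
  ⟨(T.l 2), by decide +kernel⟩

def A022E_111 :
    ∃ t, chk3 (onCell 0 67108864 0 1073741824 536870912 50465866 (corW 3 c0B eng mog cA022E gB1q0 gB1q2 gB1q2 gB2q2 dB1q0 dB1q2 dB1q2 dB2q2 true true)) t 1 1 1 = true :=
  ⟨(T.l 2), by decide +kernel⟩

def A022E_112 :
    ∃ t, chk3 (onCell 0 67108864 0 1073741824 536870912 50465866 (corW 3 c0B eng mog cA022E gB1q0 gB1q2 gB2q2 gB3q2 dB1q0 dB1q2 dB2q2 dB3q2 true true)) t 1 1 1 = true :=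
  ⟨(T.l 2), by decide +kernel⟩

def A022E_113 :
    ∃ t, chk3 (onCell 0 67108864 0 1073741824 536870912 50465866 (corW 3 c0B eng mog cA022E gB1q0 gB1q2 gB3q2 gB4q2 dB1q0 dB1q2 dB3q2 dB4q2 true false)) t 1 1 1 = true :=
  ⟨(T.b (T.b (T.a (T.a (T.c (T.b (T.b (T.l 204) (T.l 204)) (T.l 204)) (T.l 204)) (T.a (T.b (T.l 204) (T.l 204)) (T.a (T.l 204) (T.b (T.b (T.l 204) (T.l 204)) (T.l 204))))) (T.a (T.a (T.b (T.a (T.b (T.l 204) (T.l 204)) (T.l 204)) (T.b (T.l 204) (T.l 204))) (T.b (T.b (T.l 204) (T.l 204)) (T.l 0))) (T.b (T.a (T.l 220) (T.b (T.l 204) (T.l 204))) (T.b (T.l 0) (T.l 0))))) (T.a (T.a (T.l 0) (T.c (T.l 0) (T.l 0))) (T.a (T.a (T.l 0) (T.b (T.l 0) (T.l 0))) (T.b (T.b (T.l 0) (T.l 0)) (T.l 0))))) (T.b (T.b (T.a (T.a (T.l 0) (T.l 0)) (T.a (T.l 0) (T.l 0))) (T.a (T.a (T.l 816) (T.l 0)) (T.a (T.l 0) (T.l 816))))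 (T.a (T.a (T.l 816) (T.c (T.l 816) (T.l 0))) (T.a (T.l 816) (T.l 816))))), by decide +kernel⟩

def A022E_120 :
    ∃ t, chk3 (onCell 0 67108864 0 1073741824 536870912 50465866 (corW 3 c0B eng mog cA022E gB1q0 gB2q2 gB0q2 gB1q2 dB1q0 dB2q2 dB0q2 dB1q2 true true)) t 1 1 1 = true :=
  ⟨(T.l 2), by decide +kernel⟩

def A022E_121 :
    ∃ t, chk3 (onCell 0 67108864 0 1073741824 536870912 50465866 (corW 3 c0B eng mog cA022E gB1q0 gB2q2 gB1q2 gB2q2 dB1q0 dB2q2 dB1q2 dB2q2 true true)) t 1 1 1 = true :=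
  ⟨(T.l 2), by decide +kernel⟩

def A022E_122 :
    ∃ t, chk3 (onCell 0 67108864 0 1073741824 536870912 50465866 (corW 3 c0B eng mog cA022E gB1q0 gB2q2 gB2q2 gB3q2 dB1q0 dB2q2 dB2q2 dB3q2 true true)) t 1 1 1 = true :=
  ⟨(T.l 2), by decide +kernel⟩

def A022E_123 :
    ∃ t, chk3 (onCell 0 67108864 0 1073741824 536870912 50465866 (corW 3 c0B eng mog cA022E gB1q0 gB2q2 gB3q2 gB4q2 dB1q0 dB2q2 dB3q2 dB4q2 true false)) t 1 1 1 = true :=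
  ⟨(T.b (T.b (T.a (T.a (T.c (T.l 204) (T.b (T.b (T.l 204) (T.l 204)) (T.l 204))) (T.a (T.b (T.l 204) (T.l 204)) (T.a (T.l 204) (T.b (T.a (T.l 204) (T.b (T.l 204) (T.l 204))) (T.l 204))))) (T.a (T.a (T.b (T.b (T.a (T.l 204) (T.l 204)) (T.b (T.l 204) (T.l 204))) (T.b (T.l 204) (T.l 204))) (T.b (T.b (T.b (T.l 220) (T.l 204)) (T.l 204)) (T.l 204))) (T.b (T.a (T.a (T.l 204) (T.l 204)) (T.b (T.l 220) (T.l 204))) (T.b (T.l 204) (T.l 204))))) (T.a (T.a (T.l 0) (T.c (T.l 0) (T.l 0))) (T.a (T.a (T.l 0) (T.b (T.l 0) (T.l 0))) (T.b (T.l 16) (T.l 0))))) (T.b (T.b (T.a (T.a (T.l 0) (T.l 0)) (T.a (T.l 0) (T.l 0))) (T.a (T.a (T.l 0) (T.l 0)) (T.l 4))) (T.a (T.a (T.l 816) (T.c (T.l 0) (T.l 0))) (T.a (T.l 0) (T.l 816))))), by decide +kernel⟩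

def A022E_130 :
    ∃ t, chk3 (onCell 0 67108864 0 1073741824 536870912 50465866 (corW 3 c0B eng mog cA022E gB1q0 gB3q2 gB0q2 gB1q2 dB1q0 dB3q2 dB0q2 dB1q2 true true)) t 1 1 1 = true :=
  ⟨(T.l 2), by decide +kernel⟩

def A022E_131 :
    ∃ t, chk3 (onCell 0 67108864 0 1073741824 536870912 50465866 (corW 3 c0B eng mog cA022E gB1q0 gB3q2 gB1q2 gB2q2 dB1q0 dB3q2 dB1q2 dB2q2 true true)) t 1 1 1 = true :=
  ⟨(T.l 2), by decide +kernel⟩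

def A022E_132 :
    ∃ t, chk3 (onCell 0 67108864 0 1073741824 536870912 50465866 (corW 3 c0B eng mog cA022E gB1q0 gB3q2 gB2q2 gB3q2 dB1q0 dB3q2 dB2q2 dB3q2 true true)) t 1 1 1 = true :=
  ⟨(T.l 2), by decide +kernel⟩

def A022E_133 :
    ∃ t, chk3 (onCell 0 67108864 0 1073741824 536870912 50465866 (corW 3 c0B eng mog cA022E gB1q0 gB3q2 gB3q2 gB4q2 dB1q0 dB3q2 dB3q2 dB4q2 true false)) t 1 1 1 = true :=
  ⟨(T.b (T.b (T.a (T.a (T.l 204) (T.a (T.l 204) (T.a (T.l 204) (T.b (T.l 204) (T.l 204))))) (T.a (T.a (T.b (T.c (T.l 204) (T.l 204)) (T.l 0)) (T.b (T.b (T.l 204) (T.l 204)) (T.l 204))) (T.b (T.b (T.a (T.l 204) (T.l 204)) (T.l 220)) (T.l 220)))) (T.a (T.a (T.l 0) (T.l 0)) (T.a (T.a (T.l 0) (T.l 0)) (T.b (T.l 0) (T.l 0))))) (T.b (T.a (T.a (T.l 0) (T.l 0)) (T.a (T.l 0) (T.b (T.l 0) (T.l 0)))) (T.a (T.a (T.l 816) (T.c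 (T.l 816) (T.l 0))) (T.a (T.l 0) (T.l 816))))), by decide +kernel⟩

def A022E_220 :
    ∃ t, chk3 (onCell 0 67108864 0 1073741824 536870912 50465866 (corW 3 c0B eng mog cA022E gB2q0 gB2q2 gB0q2 gB1q2 dB2q0 dB2q2 dB0q2 dB1q2 true true)) t 1 1 1 = true :=
  ⟨(T.l 2), by decide +kernel⟩

def A022E_221 :
    ∃ t, chk3 (onCell 0 67108864 0 1073741824 536870912 50465866 (corW 3 c0B eng mog cA022E gB2q0 gB2q2 gB1q2 gB2q2 dB2q0 dB2q2 dB1q2 dB2q2 true true)) t 1 1 1 = true :=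
  ⟨(T.l 2), by decide +kernel⟩

def A022E_222 :
    ∃ t, chk3 (onCell 0 67108864 0 1073741824 536870912 50465866 (corW 3 c0B eng mog cA022E gB2q0 gB2q2 gB2q2 gB3q2 dB2q0 dB2q2 dB2q2 dB3q2 true true)) t 1 1 1 = true :=
  ⟨(T.l 2), by decide +kernel⟩

def A022E_223 :
    ∃ t, chk3 (onCell 0 67108864 0 1073741824 536870912 50465866 (corW 3 c0B eng mog cA022E gB2q0 gB2q2 gB3q2 gB4q2 dB2q0 dB2q2 dB3q2 dB4q2 true false)) t 1 1 1 = true :=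
  ⟨(T.b (T.b (T.a (T.a (T.b (T.c (T.l 204) (T.b (T.l 204) (T.l 204))) (T.l 204)) (T.a (T.c (T.l 204) (T.l 204)) (T.b (T.a (T.l 204) (T.b (T.b (T.l 204) (T.l 204)) (T.l 204))) (T.l 204)))) (T.a (T.b (T.a (T.b (T.a (T.l 204) (T.l 204)) (T.l 204)) (T.b (T.c (T.l 204) (T.l 204)) (T.l 204))) (T.a (T.l 0) (T.l 0))) (T.b (T.a (T.b (T.b (T.l 204) (T.l 204)) (T.l 204)) (T.a (T.l 204) (T.l 204))) (T.l 0)))) (T.a (T.a (T.l 0) (T.l 0)) (T.a (T.b (T.l 0) (T.l 0)) (T.b (T.l 0) (T.l 0))))) (T.b (T.a (T.a (T.l 816) (T.l 0)) (T.a (T.l 0) (T.b (T.l 0) (T.l 816)))) (T.a (T.a (T.l 816) (T.l 816)) (T.l 816)))), by decide +kernel⟩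

def A022E_230 :
    ∃ t, chk3 (onCell 0 67108864 0 1073741824 536870912 50465866 (corW 3 c0B eng mog cA022E gB2q0 gB3q2 gB0q2 gB1q2 dB2q0 dB3q2 dB0q2 dB1q2 true true)) t 1 1 1 = true :=
  ⟨(T.l 2), by decide +kernel⟩

def A022E_231 :
    ∃ t, chk3 (onCell 0 67108864 0 1073741824 536870912 50465866 (corW 3 c0B eng mog cA022E gB2q0 gB3q2 gB1q2 gB2q2 dB2q0 dB3q2 dB1q2 dB2q2 true true)) t 1 1 1 = true :=
  ⟨(T.l 2), by decide +kernel⟩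

def A022E_232 :
    ∃ t, chk3 (onCell 0 67108864 0 1073741824 536870912 50465866 (corW 3 c0B eng mog cA022E gB2q0 gB3q2 gB2q2 gB3q2 dB2q0 dB3q2 dB2q2 dB3q2 true true)) t 1 1 1 = true :=
  ⟨(T.l 2), by decide +kernel⟩

def A022E_233 :
    ∃ t, chk3 (onCell 0 67108864 0 1073741824 536870912 50465866 (corW 3 c0B eng mog cA022E gB2q0 gB3q2 gB3q2 gB4q2 dB2q0 dB3q2 dB3q2 dB4q2 true false)) t 1 1 1 = true :=
  ⟨(T.b (T.b (T.a (T.a (T.l 204) (T.a (T.l 0) (T.a (T.l 0) (T.b (T.l 204) (T.l 0))))) (T.a (T.b (T.a (T.c (T.l 204) (T.l 204)) (T.b (T.l 204) (T.l 204))) (T.b (T.l 0) (T.l 0))) (T.b (T.b (T.a (T.l 204) (T.l 204)) (T.l 204)) (T.l 0)))) (T.a (T.a (T.l 0) (T.l 0)) (T.a (T.b (T.l 0) (T.l 0)) (T.l 0)))) (T.b (T.a (T.a (T.l 816) (T.l 0)) (T.a (T.l 0) (T.l 68))) (T.a (T.a (T.l 816) (T.l 816)) (T.l 816)))), by decide +kernel⟩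

def A022E_330 :
    ∃ t, chk3 (onCell 0 67108864 0 1073741824 536870912 50465866 (corW 3 c0B eng mog cA022E gB3q0 gB3q2 gB0q2 gB1q2 dB3q0 dB3q2 dB0q2 dB1q2 true true)) t 1 1 1 = true :=
  ⟨(T.l 2), by decide +kernel⟩

def A022E_331 :
    ∃ t, chk3 (onCell 0 67108864 0 1073741824 536870912 50465866 (corW 3 c0B eng mog cA022E gB3q0 gB3q2 gB1q2 gB2q2 dB3q0 dB3q2 dB1q2 dB2q2 true true)) t 1 1 1 = true :=
  ⟨(T.l 2), by decide +kernel⟩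

def A022E_332 :
    ∃ t, chk3 (onCell 0 67108864 0 1073741824 536870912 50465866 (corW 3 c0B eng mog cA022E gB3q0 gB3q2 gB2q2 gB3q2 dB3q0 dB3q2 dB2q2 dB3q2 true true)) t 1 1 1 = true :=
  ⟨(T.l 2), by decide +kernel⟩

def A022E_333 :
    ∃ t, chk3 (onCell 0 67108864 0 1073741824 536870912 50465866 (corW 3 c0B eng mog cA022E gB3q0 gB3q2 gB3q2 gB4q2 dB3q0 dB3q2 dB3q2 dB4q2 true false)) t 1 1 1 = true :=
  ⟨(T.b (T.b (T.a (T.a (T.b (T.l 204) (T.l 0)) (T.a (T.l 0) (T.b (T.a (T.l 204) (T.l 204)) (T.l 0)))) (T.a (T.b (T.a (T.a (T.l 204) (T.l 220)) (T.b (T.l 204) (T.l 204))) (T.l 0)) (T.b (T.b (T.a (T.l 204) (T.l 204)) (T.l 204)) (T.l 0)))) (T.a (T.a (T.l 0) (T.l 0)) (T.a (T.l 0) (T.l 0)))) (T.b (T.a (T.a (T.l 816) (T.l 816)) (T.b (T.l 0) (T.l 816))) (T.a (T.a (T.l 816) (T.l 816)) (T.l 816)))), by decide +kernel⟩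

def A022L_005_1_2_1 :
    ∃ t, chk3 (onCell 0 67108864 0 1073741824 536870912 50465866 (corW 3 c0B eng mog cA022L gB0q0 gB0q2 gB5q2 gB6q2 dB0q0 dB0q2 dB5q2 dB6q2 false true)) t 1 2 1 = true :=
  ⟨(T.b (T.b (T.a (T.a (T.a (T.b (T.l 204) (T.l 204)) (T.b (T.l 204) (T.l 204))) (T.a (T.l 204) (T.a (T.l 204) (T.b (T.l 204) (T.l 204))))) (T.a (T.a (T.a (T.b (T.l 204) (T.l 204)) (T.b (T.l 204) (T.l 204))) (T.a (T.b (T.l 204) (T.l 204)) (T.b (T.l 204) (T.l 204)))) (T.a (T.b (T.b (T.l 204) (T.l 204)) (T.b (T.l 204) (T.l 204))) (T.b (T.b (T.l 204) (T.l 204)) (T.b (T.l 204) (T.l 204)))))) (T.a (T.a (T.a (T.b (T.l 204) (T.l 204)) (T.l 220)) (T.b (T.l 204) (T.l 204))) (T.a (T.a (T.a (T.l 204) (T.b (T.l 204) (T.l 204))) (T.b (T.b (T.l 204) (T.l 204)) (T.b (T.l 204) (T.l 204)))) (T.a (T.b (T.l 220) (T.b (T.l 204) (T.l 204))) (T.b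 (T.l 204) (T.l 204)))))) (T.a (T.b (T.a (T.b (T.b (T.l 204) (T.l 204)) (T.b (T.l 204) (T.l 204))) (T.b (T.l 204) (T.l 204))) (T.a (T.b (T.b (T.l 204) (T.l 204)) (T.b (T.l 204) (T.l 204))) (T.b (T.l 204) (T.l 204)))) (T.a (T.b (T.a (T.l 204) (T.b (T.l 204) (T.l 204))) (T.b (T.l 204) (T.l 204))) (T.b (T.a (T.b (T.b (T.l 204) (T.l 204)) (T.b (T.l 204) (T.l 204))) (T.b (T.l 204) (T.l 220))) (T.b (T.a (T.l 204) (T.b (T.l 204) (T.l 204))) (T.a (T.l 204) (T.l 204))))))), by decide +kernel⟩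

def A022L_005_1_3_1 :
    ∃ t, chk3 (onCell 0 67108864 0 1073741824 536870912 50465866 (corW 3 c0B eng mog cA022L gB0q0 gB0q2 gB5q2 gB6q2 dB0q0 dB0q2 dB5q2 dB6q2 false true)) t 1 3 1 = true :=
  ⟨(T.b (T.b (T.a (T.b (T.a (T.b (T.l 204) (T.l 204)) (T.b (T.l 204) (T.l 204))) (T.a (T.b (T.l 204) (T.c (T.l 204) (T.l 204))) (T.b (T.l 204) (T.l 204)))) (T.a (T.b (T.l 204) (T.b (T.l 204) (T.l 204))) (T.b (T.a (T.l 204) (T.l 220)) (T.l 220)))) (T.b (T.b (T.a (T.a (T.c (T.l 204) (T.l 204)) (T.l 204)) (T.a (T.l 204) (T.l 204))) (T.b (T.a (T.b (T.a (T.l 204) (T.l 204)) (T.b (T.a (T.c (T.l 0) (T.l 0)) (T.l 0)) (T.a (T.a (T.l 2) (T.b (T.b (T.l 0) (T.l 2)) (T.l 2))) (T.b (T.c (T.l 0) (T.l 0)) (T.a (T.l 2) (T.b (T.l 0) (T.l 2))))))) (T.a (T.c (T.a (T.c (T.l 0) (T.l 0)) (T.l 0)) (T.l 0)) (T.l 0))) (T.a (T.l 2) (T.b (T.b (T.b (T.a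 (T.a (T.l 2) (T.b (T.l 0) (T.l 2))) (T.c (T.l 0) (T.l 0))) (T.l 2)) (T.l 2)) (T.l 2))))) (T.l 2))) (T.l 2)), by decide +kernel⟩

theorem A022L_005 :
    ∃ t, chk3 (onCell 0 67108864 0 1073741824 536870912 50465866 (corW 3 c0B eng mog cA022L gB0q0 gB0q2 gB5q2 gB6q2 dB0q0 dB0q2 dB5q2 dB6q2 false true)) t 1 1 1 = true :=
  ex3_b A022L_005_1_2_1 A022L_005_1_3_1

def A022L_015 :
    ∃ t, chk3 (onCell 0 67108864 0 1073741824 536870912 50465866 (corW 3 c0B eng mog cA022L gB0q0 gB1q2 gB5q2 gB6q2 dB0q0 dB1q2 dB5q2 dB6q2 false true)) t 1 1 1 = true :=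
  ⟨(T.b (T.b (T.a (T.a (T.b (T.l 204) (T.l 204)) (T.a (T.l 204) (T.b (T.b (T.l 204) (T.l 204)) (T.l 204)))) (T.a (T.b (T.a (T.b (T.l 204) (T.l 204)) (T.l 220)) (T.a (T.b (T.l 204) (T.l 204)) (T.b (T.l 204) (T.l 204)))) (T.b (T.a (T.l 204) (T.b (T.l 204) (T.l 204))) (T.a (T.l 204) (T.l 204))))) (T.a (T.b (T.b (T.l 204) (T.l 204)) (T.b (T.l 204) (T.l 204))) (T.a (T.b (T.a (T.l 204) (T.b (T.l 204) (T.l 204))) (T.l 204)) (T.b (T.a (T.b (T.l 204) (T.l 204)) (T.l 204)) (T.b (T.b (T.l 204) (T.l 204)) (T.b (T.l 204) (T.l 204))))))) (T.b (T.b (T.a (T.b (T.l 204) (T.a (T.l 0) (T.l 0))) (T.a (T.b (T.l 204) (T.l 0)) (T.b (T.b (T.l 0) (T.l 204)) (T.l 0)))) (T.b (T.b (T.b (T.a (T.a (T.l 2) (T.l 0)) (T.l 0)) (T.l 2)) (T.l 2)) (T.l 2))) (T.l 2))), by decide +kernel⟩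

def A022L_025 :
    ∃ t, chk3 (onCell 0 67108864 0 1073741824 536870912 50465866 (corW 3 c0B eng mog cA022L gB0q0 gB2q2 gB5q2 gB6q2 dB0q0 dB2q2 dB5q2 dB6q2 false true)) t 1 1 1 = true :=
  ⟨(T.b (T.b (T.b (T.a (T.a (T.l 204) (T.a (T.l 204) (T.l 0))) (T.a (T.b (T.l 0) (T.l 0)) (T.l 0))) (T.a (T.l 204) (T.a (T.b (T.l 0) (T.l 0)) (T.l 0)))) (T.a (T.l 0) (T.b (T.a (T.b (T.l 0) (T.l 0)) (T.b (T.l 0) (T.l 0))) (T.a (T.l 0) (T.b (T.l 0) (T.l 0)))))) (T.l 2)), by decide +kernel⟩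

def A022L_035 :
    ∃ t, chk3 (onCell 0 67108864 0 1073741824 536870912 50465866 (corW 3 c0B eng mog cA022L gB0q0 gB3q2 gB5q2 gB6q2 dB0q0 dB3q2 dB5q2 dB6q2 false true)) t 1 1 1 = true :=
  ⟨(T.l 2), by decide +kernel⟩

def A022L_115 :
    ∃ t, chk3 (onCell 0 67108864 0 1073741824 536870912 50465866 (corW 3 c0B eng mog cA022L gB1q0 gB1q2 gB5q2 gB6q2 dB1q0 dB1q2 dB5q2 dB6q2 false true)) t 1 1 1 = true :=
  ⟨(T.b (T.b (T.a (T.a (T.l 204) (T.a (T.l 204) (T.b (T.b (T.l 204) (T.l 204)) (T.l 204)))) (T.a (T.b (T.a (T.b (T.l 204) (T.l 204)) (T.l 204)) (T.a (T.l 204) (T.l 204))) (T.b (T.a (T.l 204) (T.b (T.l 204) (T.l 204))) (T.b (T.l 204) (T.l 204))))) (T.a (T.l 0) (T.a (T.b (T.b (T.l 0) (T.l 0)) (T.l 0)) (T.b (T.l 16) (T.b (T.l 0) (T.l 0)))))) (T.b (T.b (T.a (T.l 816) (T.a (T.l 816) (T.b (T.l 0) (T.l 816)))) (T.l 2)) (T.l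 2))), by decide +kernel⟩

def A022L_125 :
    ∃ t, chk3 (onCell 0 67108864 0 1073741824 536870912 50465866 (corW 3 c0B eng mog cA022L gB1q0 gB2q2 gB5q2 gB6q2 dB1q0 dB2q2 dB5q2 dB6q2 false true)) t 1 1 1 = true :=
  ⟨(T.b (T.b (T.b (T.a (T.a (T.l 204) (T.a (T.l 204) (T.l 0))) (T.a (T.b (T.l 0) (T.l 0)) (T.l 0))) (T.a (T.l 0) (T.a (T.l 0) (T.l 0)))) (T.a (T.l 0) (T.b (T.a (T.b (T.l 0) (T.l 0)) (T.l 0)) (T.a (T.l 816) (T.b (T.l 0) (T.l 2)))))) (T.l 2)), by decide +kernel⟩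

def A022L_135 :
    ∃ t, chk3 (onCell 0 67108864 0 1073741824 536870912 50465866 (corW 3 c0B eng mog cA022L gB1q0 gB3q2 gB5q2 gB6q2 dB1q0 dB3q2 dB5q2 dB6q2 false true)) t 1 1 1 = true :=
  ⟨(T.l 2), by decide +kernel⟩

def A022L_225 :
    ∃ t, chk3 (onCell 0 67108864 0 1073741824 536870912 50465866 (corW 3 c0B eng mog cA022L gB2q0 gB2q2 gB5q2 gB6q2 dB2q0 dB2q2 dB5q2 dB6q2 false true)) t 1 1 1 = true :=
  ⟨(T.b (T.b (T.b (T.a (T.a (T.l 204) (T.a (T.l 204) (T.l 0))) (T.a (T.b (T.l 0) (T.l 0)) (T.l 0))) (T.a (T.l 0) (T.a (T.l 0) (T.l 0)))) (T.b (T.a (T.l 816) (T.a (T.l 0) (T.l 0))) (T.l 2))) (T.l 2)), by decide +kernel⟩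

def A022L_235 :
    ∃ t, chk3 (onCell 0 67108864 0 1073741824 536870912 50465866 (corW 3 c0B eng mog cA022L gB2q0 gB3q2 gB5q2 gB6q2 dB2q0 dB3q2 dB5q2 dB6q2 false true)) t 1 1 1 = true :=
  ⟨(T.l 2), by decide +kernel⟩

def A022L_335 :
    ∃ t, chk3 (onCell 0 67108864 0 1073741824 536870912 50465866 (corW 3 c0B eng mog cA022L gB3q0 gB3q2 gB5q2 gB6q2 dB3q0 dB3q2 dB5q2 dB6q2 false true)) t 1 1 1 = true :=
  ⟨(T.l 2), by decide +kernel⟩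

def A022R_060 :
    ∃ t, chk3 (onCell 0 67108864 0 1073741824 536870912 50465866 (corW 3 c0B eng mog cA022R gB0q0 gB6q2 gB0q2 gB1q2 dB0q0 dB6q2 dB0q2 dB1q2 true true)) t 1 1 1 = true :=
  ⟨(T.l 2), by decide +kernel⟩

def A022R_061 :
    ∃ t, chk3 (onCell 0 67108864 0 1073741824 536870912 50465866 (corW 3 c0B eng mog cA022R gB0q0 gB6q2 gB1q2 gB2q2 dB0q0 dB6q2 dB1q2 dB2q2 true true)) t 1 1 1 = true :=
  ⟨(T.l 2), by decide +kernel⟩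

def A022R_062 :
    ∃ t, chk3 (onCell 0 67108864 0 1073741824 536870912 50465866 (corW 3 c0B eng mog cA022R gB0q0 gB6q2 gB2q2 gB3q2 dB0q0 dB6q2 dB2q2 dB3q2 true true)) t 1 1 1 = true :=
  ⟨(T.b (T.b (T.b (T.b (T.a (T.a (T.l 204) (T.a (T.l 204) (T.l 0))) (T.a (T.l 0) (T.l 0))) (T.a (T.a (T.l 0) (T.a (T.l 0) (T.l 0))) (T.a (T.l 0) (T.l 0)))) (T.b (T.a (T.a (T.l 0) (T.a (T.l 0) (T.l 0))) (T.a (T.l 0) (T.l 0))) (T.a (T.a (T.l 0) (T.a (T.l 0) (T.l 0))) (T.a (T.l 0) (T.l 0))))) (T.b (T.b (T.a (T.a (T.l 0) (T.a (T.l 816) (T.l 0))) (T.a (T.l 0) (T.l 0))) (T.a (T.a (T.l 816) (T.a (T.l 816) (T.l 0))) (T.a (T.l 0) (T.l 0)))) (T.a (T.a (T.l 816) (T.b (T.l 2) (T.l 2))) (T.l 2)))) (T.l 2)), by decide +kernel⟩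

def A022R_063 :
    ∃ t, chk3 (onCell 0 67108864 0 1073741824 536870912 50465866 (corW 3 c0B eng mog cA022R gB0q0 gB6q2 gB3q2 gB4q2 dB0q0 dB6q2 dB3q2 dB4q2 true false)) t 1 1 1 = true :=
  ⟨(T.b (T.b (T.l 1) (T.a (T.a (T.l 0) (T.l 0)) (T.l 64))) (T.a (T.a (T.l 816) (T.a (T.l 816) (T.l 816))) (T.a (T.b (T.l 816) (T.l 816)) (T.l 816)))), by decide +kernel⟩

def A022R_160 :
    ∃ t, chk3 (onCell 0 67108864 0 1073741824 536870912 50465866 (corW 3 c0B eng mog cA022R gB1q0 gB6q2 gB0q2 gB1q2 dB1q0 dB6q2 dB0q2 dB1q2 true true)) t 1 1 1 = true :=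
  ⟨(T.l 2), by decide +kernel⟩

def A022R_161 :
    ∃ t, chk3 (onCell 0 67108864 0 1073741824 536870912 50465866 (corW 3 c0B eng mog cA022R gB1q0 gB6q2 gB1q2 gB2q2 dB1q0 dB6q2 dB1q2 dB2q2 true true)) t 1 1 1 = true :=
  ⟨(T.l 2), by decide +kernel⟩

def A022R_162 :
    ∃ t, chk3 (onCell 0 67108864 0 1073741824 536870912 50465866 (corW 3 c0B eng mog cA022R gB1q0 gB6q2 gB2q2 gB3q2 dB1q0 dB6q2 dB2q2 dB3q2 true true)) t 1 1 1 = true :=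
  ⟨(T.b (T.b (T.b (T.a (T.a (T.l 0) (T.a (T.l 0) (T.l 0))) (T.a (T.l 0) (T.l 0))) (T.a (T.a (T.l 0) (T.a (T.l 0) (T.l 0))) (T.a (T.l 0) (T.l 0)))) (T.b (T.a (T.a (T.l 816) (T.a (T.l 816) (T.l 0))) (T.a (T.l 0) (T.l 0))) (T.a (T.a (T.l 816) (T.a (T.l 816) (T.l 816))) (T.a (T.l 0) (T.l 816))))) (T.b (T.b (T.a (T.a (T.l 816) (T.a (T.l 816) (T.l 816))) (T.a (T.l 0) (T.l 2))) (T.a (T.a (T.l 816) (T.l 2)) (T.l 2))) (T.l 2))), by decide +kernel⟩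

def A022R_163 :
    ∃ t, chk3 (onCell 0 67108864 0 1073741824 536870912 50465866 (corW 3 c0B eng mog cA022R gB1q0 gB6q2 gB3q2 gB4q2 dB1q0 dB6q2 dB3q2 dB4q2 true false)) t 1 1 1 = true :=
  ⟨(T.b (T.a (T.l 1) (T.b (T.l 1) (T.l 0))) (T.a (T.a (T.l 816) (T.l 816)) (T.a (T.l 816) (T.l 816)))), by decide +kernel⟩

def A022R_260 :
    ∃ t, chk3 (onCell 0 67108864 0 1073741824 536870912 50465866 (corW 3 c0B eng mog cA022R gB2q0 gB6q2 gB0q2 gB1q2 dB2q0 dB6q2 dB0q2 dB1q2 true true)) t 1 1 1 = true :=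
  ⟨(T.l 2), by decide +kernel⟩

def A022R_261 :
    ∃ t, chk3 (onCell 0 67108864 0 1073741824 536870912 50465866 (corW 3 c0B eng mog cA022R gB2q0 gB6q2 gB1q2 gB2q2 dB2q0 dB6q2 dB1q2 dB2q2 true true)) t 1 1 1 = true :=
  ⟨(T.l 2), by decide +kernel⟩

def A022R_262 :
    ∃ t, chk3 (onCell 0 67108864 0 1073741824 536870912 50465866 (corW 3 c0B eng mog cA022R gB2q0 gB6q2 gB2q2 gB3q2 dB2q0 dB6q2 dB2q2 dB3q2 true true)) t 1 1 1 = true :=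
  ⟨(T.b (T.a (T.a (T.l 0) (T.a (T.l 0) (T.l 0))) (T.a (T.b (T.l 0) (T.l 0)) (T.l 0))) (T.a (T.a (T.l 816) (T.b (T.l 64) (T.l 816))) (T.a (T.l 816) (T.l 816)))), by decide +kernel⟩

def A022R_263 :
    ∃ t, chk3 (onCell 0 67108864 0 1073741824 536870912 50465866 (corW 3 c0B eng mog cA022R gB2q0 gB6q2 gB3q2 gB4q2 dB2q0 dB6q2 dB3q2 dB4q2 true false)) t 1 1 1 = true :=
  ⟨(T.l 1), by decide +kernel⟩

def A022R_360 :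
    ∃ t, chk3 (onCell 0 67108864 0 1073741824 536870912 50465866 (corW 3 c0B eng mog cA022R gB3q0 gB6q2 gB0q2 gB1q2 dB3q0 dB6q2 dB0q2 dB1q2 true true)) t 1 1 1 = true :=
  ⟨(T.l 2), by decide +kernel⟩

def A022R_361 :
    ∃ t, chk3 (onCell 0 67108864 0 1073741824 536870912 50465866 (corW 3 c0B eng mog cA022R gB3q0 gB6q2 gB1q2 gB2q2 dB3q0 dB6q2 dB1q2 dB2q2 true true)) t 1 1 1 = true :=
  ⟨(T.b (T.l 2) (T.b (T.a (T.a (T.l 816) (T.a (T.l 816) (T.l 816))) (T.a (T.l 816) (T.l 2))) (T.a (T.a (T.l 816) (T.c (T.l 816) (T.l 816))) (T.a (T.l 816) (T.l 816))))), by decide +kernel⟩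

def A022R_362 :
    ∃ t, chk3 (onCell 0 67108864 0 1073741824 536870912 50465866 (corW 3 c0B eng mog cA022R gB3q0 gB6q2 gB2q2 gB3q2 dB3q0 dB6q2 dB2q2 dB3q2 true true)) t 1 1 1 = true :=
  ⟨(T.b (T.b (T.a (T.a (T.l 0) (T.a (T.l 0) (T.l 0))) (T.a (T.b (T.l 0) (T.l 0)) (T.l 0))) (T.a (T.a (T.l 816) (T.l 0)) (T.a (T.l 816) (T.l 816)))) (T.a (T.a (T.l 816) (T.l 816)) (T.b (T.l 880) (T.l 816)))), by decide +kernel⟩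

def A022R_363 :
    ∃ t, chk3 (onCell 0 67108864 0 1073741824 536870912 50465866 (corW 3 c0B eng mog cA022R gB3q0 gB6q2 gB3q2 gB4q2 dB3q0 dB6q2 dB3q2 dB4q2 true false)) t 1 1 1 = true :=
  ⟨(T.l 1), by decide +kernel⟩

def A101E_000 :
    ∃ t, chk3 (onCell 0 67108864 0 1073741824 536870912 50465866 (corW 3 c0B eng mog cA101E gB0q1 gB0q0 gB0q1 gB1q1 dB0q1 dB0q0 dB0q1 dB1q1 true false)) t 1 1 1 = true :=
  ⟨(T.l 1), by decide +kernel⟩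

def A101E_010 :
    ∃ t, chk3 (onCell 0 67108864 0 1073741824 536870912 50465866 (corW 3 c0B eng mog cA101E gB0q1 gB1q0 gB0q1 gB1q1 dB0q1 dB1q0 dB0q1 dB1q1 true false)) t 1 1 1 = true :=
  ⟨(T.l 1), by decide +kernel⟩

def A101E_020 :
    ∃ t, chk3 (onCell 0 67108864 0 1073741824 536870912 50465866 (corW 3 c0B eng mog cA101E gB0q1 gB2q0 gB0q1 gB1q1 dB0q1 dB2q0 dB0q1 dB1q1 true false)) t 1 1 1 = true :=
  ⟨(T.l 1), by decide +kernel⟩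

def A101E_030 :
    ∃ t, chk3 (onCell 0 67108864 0 1073741824 536870912 50465866 (corW 3 c0B eng mog cA101E gB0q1 gB3q0 gB0q1 gB1q1 dB0q1 dB3q0 dB0q1 dB1q1 true false)) t 1 1 1 = true :=
  ⟨(T.b (T.l 1) (T.l 1)), by decide +kernel⟩

def A101R_003 :
    ∃ t, chk3 (onCell 0 67108864 0 1073741824 536870912 50465866 (corW 3 c0B eng mog cA101R gB0q1 gB0q0 gB3q1 gB4q1 dB0q1 dB0q0 dB3q1 dB4q1 false true)) t 1 1 1 = true :=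
  ⟨(T.l 2), by decide +kernel⟩

def A101R_004 :
    ∃ t, chk3 (onCell 0 67108864 0 1073741824 536870912 50465866 (corW 3 c0B eng mog cA101R gB0q1 gB0q0 gB4q1 gB5q1 dB0q1 dB0q0 dB4q1 dB5q1 true true)) t 1 1 1 = true :=
  ⟨(T.l 2), by decide +kernel⟩

def A101R_005 :
    ∃ t, chk3 (onCell 0 67108864 0 1073741824 536870912 50465866 (corW 3 c0B eng mog cA101R gB0q1 gB0q0 gB5q1 gB6q1 dB0q1 dB0q0 dB5q1 dB6q1 true true)) t 1 1 1 = true :=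
  ⟨(T.l 2), by decide +kernel⟩

def A101R_013 :
    ∃ t, chk3 (onCell 0 67108864 0 1073741824 536870912 50465866 (corW 3 c0B eng mog cA101R gB0q1 gB1q0 gB3q1 gB4q1 dB0q1 dB1q0 dB3q1 dB4q1 false true)) t 1 1 1 = true :=
  ⟨(T.l 2), by decide +kernel⟩

def A101R_014 :
    ∃ t, chk3 (onCell 0 67108864 0 1073741824 536870912 50465866 (corW 3 c0B eng mog cA101R gB0q1 gB1q0 gB4q1 gB5q1 dB0q1 dB1q0 dB4q1 dB5q1 true true)) t 1 1 1 = true :=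
  ⟨(T.l 2), by decide +kernel⟩

def A101R_015 :
    ∃ t, chk3 (onCell 0 67108864 0 1073741824 536870912 50465866 (corW 3 c0B eng mog cA101R gB0q1 gB1q0 gB5q1 gB6q1 dB0q1 dB1q0 dB5q1 dB6q1 true true)) t 1 1 1 = true :=
  ⟨(T.l 2), by decide +kernel⟩

def A101R_023 :
    ∃ t, chk3 (onCell 0 67108864 0 1073741824 536870912 50465866 (corW 3 c0B eng mog cA101R gB0q1 gB2q0 gB3q1 gB4q1 dB0q1 dB2q0 dB3q1 dB4q1 false true)) t 1 1 1 = true :=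
  ⟨(T.l 2), by decide +kernel⟩

def A101R_024 :
    ∃ t, chk3 (onCell 0 67108864 0 1073741824 536870912 50465866 (corW 3 c0B eng mog cA101R gB0q1 gB2q0 gB4q1 gB5q1 dB0q1 dB2q0 dB4q1 dB5q1 true true)) t 1 1 1 = true :=
  ⟨(T.l 2), by decide +kernel⟩

def A101R_025 :
    ∃ t, chk3 (onCell 0 67108864 0 1073741824 536870912 50465866 (corW 3 c0B eng mog cA101R gB0q1 gB2q0 gB5q1 gB6q1 dB0q1 dB2q0 dB5q1 dB6q1 true true)) t 1 1 1 = true :=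
  ⟨(T.l 2), by decide +kernel⟩

def A101R_033 :
    ∃ t, chk3 (onCell 0 67108864 0 1073741824 536870912 50465866 (corW 3 c0B eng mog cA101R gB0q1 gB3q0 gB3q1 gB4q1 dB0q1 dB3q0 dB3q1 dB4q1 false true)) t 1 1 1 = true :=
  ⟨(T.l 2), by decide +kernel⟩

def A101R_034 :
    ∃ t, chk3 (onCell 0 67108864 0 1073741824 536870912 50465866 (corW 3 c0B eng mog cA101R gB0q1 gB3q0 gB4q1 gB5q1 dB0q1 dB3q0 dB4q1 dB5q1 true true)) t 1 1 1 = true :=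
  ⟨(T.l 2), by decide +kernel⟩

def A101R_035 :
    ∃ t, chk3 (onCell 0 67108864 0 1073741824 536870912 50465866 (corW 3 c0B eng mog cA101R gB0q1 gB3q0 gB5q1 gB6q1 dB0q1 dB3q0 dB5q1 dB6q1 true true)) t 1 1 1 = true :=
  ⟨(T.l 2), by decide +kernel⟩

def A102E_000_1_2_1 :
    ∃ t, chk3 (onCell 0 67108864 0 1073741824 536870912 50465866 (corW 3 c0B eng mog cA102E gB0q1 gB0q0 gB0q2 gB1q2 dB0q1 dB0q0 dB0q2 dB1q2 true true)) t 1 2 1 = true :=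
  ⟨(T.b (T.l 2) (T.b (T.l 2) (T.b (T.l 2) (T.b (T.a (T.a (T.a (T.b (T.l 2) (T.c (T.l 0) (T.l 0))) (T.l 2)) (T.l 2)) (T.l 2)) (T.a (T.a (T.a (T.b (T.b (T.l 0) (T.c (T.l 0) (T.l 0))) (T.b (T.b (T.c (T.l 0) (T.l 0)) (T.l 0)) (T.b (T.l 0) (T.c (T.l 0) (T.l 0))))) (T.b (T.c (T.l 0) (T.l 0)) (T.b (T.b (T.l 0) (T.l 0)) (T.c (T.l 0) (T.l 0))))) (T.b (T.c (T.a (T.l 0) (T.l 0)) (T.a (T.l 0) (T.l 816))) (T.a (T.b (T.c (T.l 0) (T.l 0)) (T.c (T.l 0) (T.l 0))) (T.b (T.l 0) (T.c (T.l 0) (T.l 0)))))) (T.a (T.b (T.c (T.a (T.l 0) (T.l 0)) (T.l 0)) (T.b (T.c (T.l 0) (T.l 0)) (T.a (T.c (T.l 0) (T.l 0)) (T.c (T.l 0) (T.l 0))))) (T.b (T.l 2) (T.a (T.c (T.l 0) (T.l 0)) (T.a (T.l 0) (T.b (T.c (T.l 0) (T.l 0)) (T.l 0))))))))))), by decide +kernel⟩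

def A102E_000_4_96_1 :
    ∃ t, chk3 (onCell 0 67108864 0 1073741824 536870912 50465866 (corW 3 c0B eng mog cA102E gB0q1 gB0q0 gB0q2 gB1q2 dB0q1 dB0q0 dB0q2 dB1q2 true true)) t 4 96 1 = true :=
  ⟨(T.b (T.a (T.b (T.a (T.b (T.c (T.c (T.a (T.b (T.a (T.b (T.l 0) (T.l 1)) (T.l 0)) (T.l 1)) (T.a (T.b (T.l 0) (T.b (T.l 0) (T.l 1))) (T.l 0))) (T.a (T.b (T.a (T.b (T.l 0) (T.l 1)) (T.l 0)) (T.l 1)) (T.a (T.b (T.l 0) (T.b (T.l 0) (T.l 1))) (T.l 0)))) (T.c (T.a (T.b (T.a (T.b (T.l 0) (T.l 1)) (T.l 0)) (T.l 1)) (T.a (T.b (T.l 0) (T.b (T.l 0) (T.l 1))) (T.l 0))) (T.a (T.b (T.a (T.b (T.l 0) (T.l 1)) (T.l 0)) (T.l 1)) (T.a (T.b (T.l 0) (T.b (T.l 0) (T.l 1))) (T.l 0))))) (T.l 1)) (T.c (T.b (T.l 0) (T.b (T.a (T.a (T.l 1) (T.b (T.l 0) (T.l 1))) (T.l 0)) (T.a (T.l 1) (T.a (T.l 1) (T.b (T.l 0) (T.l 1)))))) (T.b (T.l 0) (T.b (T.a (T.a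 (T.l 1) (T.b (T.l 0) (T.l 1))) (T.l 0)) (T.a (T.l 1) (T.a (T.l 1) (T.b (T.l 0) (T.l 1)))))))) (T.l 1)) (T.a (T.c (T.b (T.a (T.b (T.l 0) (T.c (T.l 0) (T.c (T.l 0) (T.l 0)))) (T.l 0)) (T.a (T.l 1) (T.b (T.b (T.b (T.l 0) (T.a (T.l 1) (T.l 0))) (T.l 1)) (T.l 1)))) (T.b (T.a (T.b (T.l 0) (T.a (T.c (T.l 0) (T.c (T.l 0) (T.l 0))) (T.l 0))) (T.l 0)) (T.a (T.l 1) (T.b (T.b (T.b (T.l 0) (T.a (T.l 1) (T.l 0))) (T.l 1)) (T.l 1))))) (T.b (T.l 0) (T.b (T.c (T.a (T.b (T.l 0) (T.b (T.l 0) (T.l 1))) (T.l 0)) (T.a (T.b (T.l 0) (T.b (T.c (T.l 0) (T.l 0)) (T.l 1))) (T.l 0))) (T.a (T.l 1) (T.a (T.l 1) (T.a (T.l 1) (T.b (T.b (T.l 0) (T.l 1)) (T.l 1))))))))) (T.l 1)), by decide +kernel⟩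

def A102E_000_5_96_1 :
    ∃ t, chk3 (onCell 0 67108864 0 1073741824 536870912 50465866 (corW 3 c0B eng mog cA102E gB0q1 gB0q0 gB0q2 gB1q2 dB0q1 dB0q0 dB0q2 dB1q2 true true)) t 5 96 1 = true :=
  ⟨(T.a (T.a (T.b (T.b (T.l 0) (T.b (T.l 0) (T.c (T.a (T.b (T.l 0) (T.l 1)) (T.a (T.b (T.l 0) (T.a (T.l 1) (T.l 0))) (T.l 0))) (T.c (T.b (T.l 0) (T.a (T.l 1) (T.b (T.l 0) (T.a (T.l 1) (T.l 0))))) (T.b (T.c (T.l 0) (T.l 0)) (T.a (T.l 1) (T.b (T.l 0) (T.a (T.l 1) (T.l 0))))))))) (T.l 1)) (T.b (T.c (T.l 0) (T.c (T.l 0) (T.l 0))) (T.b (T.b (T.c (T.b (T.a (T.a (T.l 1) (T.l 0)) (T.l 0)) (T.a (T.l 1) (T.a (T.l 1) (T.a (T.l 1) (T.l 0))))) (T.b (T.a (T.b (T.l 0) (T.l 1)) (T.l 0)) (T.a (T.l 1) (T.a (T.l 1) (T.b (T.l 0) (T.l 1)))))) (T.l 1)) (T.l 1)))) (T.b (T.c (T.l 0) (T.l 0)) (T.b (T.a (T.c (T.b (T.c (T.l 0) (T.l 0)) (T.a (T.l 1)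 (T.b (T.c (T.l 0) (T.l 0)) (T.l 1)))) (T.b (T.c (T.l 0) (T.l 0)) (T.a (T.l 1) (T.b (T.b (T.l 0) (T.a (T.l 1) (T.l 0))) (T.l 1))))) (T.b (T.l 0) (T.a (T.b (T.l 0) (T.b (T.c (T.l 0) (T.l 0)) (T.l 1))) (T.l 0)))) (T.a (T.l 1) (T.a (T.l 1) (T.a (T.l 1) (T.b (T.a (T.l 1) (T.b (T.c (T.l 0) (T.l 0)) (T.l 1))) (T.l 1)))))))), by decide +kernel⟩

def A102E_000_2_97_1 :
    ∃ t, chk3 (onCell 0 67108864 0 1073741824 536870912 50465866 (corW 3 c0B eng mog cA102E gB0q1 gB0q0 gB0q2 gB1q2 dB0q1 dB0q0 dB0q2 dB1q2 true true)) t 2 97 1 = true :=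
  ⟨(T.l 1), by decide +kernel⟩

def A102E_000_6_48_1 :
    ∃ t, chk3 (onCell 0 67108864 0 1073741824 536870912 50465866 (corW 3 c0B eng mog cA102E gB0q1 gB0q0 gB0q2 gB1q2 dB0q1 dB0q0 dB0q2 dB1q2 true true)) t 6 48 1 = true :=
  ⟨(T.a (T.b (T.b (T.c (T.l 0) (T.l 0)) (T.b (T.c (T.l 0) (T.l 0)) (T.a (T.b (T.c (T.a (T.b (T.l 0) (T.l 1)) (T.l 0)) (T.b (T.l 0) (T.a (T.l 1) (T.c (T.l 0) (T.l 0))))) (T.l 1)) (T.b (T.l 0) (T.c (T.b (T.c (T.l 0) (T.c (T.l 0) (T.a (T.l 0) (T.l 0)))) (T.a (T.l 1) (T.a (T.l 1) (T.l 0)))) (T.b (T.a (T.a (T.l 1) (T.l 0)) (T.l 0)) (T.a (T.l 1) (T.a (T.l 1) (T.a (T.l 1) (T.l 0)))))))))) (T.l 1)) (T.a (T.b (T.b (T.l 0) (T.b (T.l 0) (T.c (T.l 0) (T.c (T.l 0) (T.l 0))))) (T.b (T.b (T.a (T.l 1) (T.b (T.b (T.c (T.l 0) (T.c (T.l 0) (T.l 0))) (T.l 1)) (T.l 1))) (T.l 1)) (T.l 1))) (T.b (T.b (T.l 0) (T.c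 (T.l 0) (T.l 0))) (T.b (T.b (T.b (T.a (T.b (T.l 0) (T.a (T.l 1) (T.l 0))) (T.l 0)) (T.a (T.l 1) (T.a (T.l 1) (T.a (T.l 1) (T.b (T.l 0) (T.l 1)))))) (T.l 1)) (T.l 1))))), by decide +kernel⟩

def A102E_000_7_48_1 :
    ∃ t, chk3 (onCell 0 67108864 0 1073741824 536870912 50465866 (corW 3 c0B eng mog cA102E gB0q1 gB0q0 gB0q2 gB1q2 dB0q1 dB0q0 dB0q2 dB1q2 true true)) t 7 48 1 = true :=
  ⟨(T.a (T.b (T.b (T.c (T.l 0) (T.l 0)) (T.c (T.l 0) (T.l 0))) (T.b (T.a (T.b (T.b (T.l 0) (T.c (T.a (T.b (T.l 0) (T.l 1)) (T.l 0)) (T.b (T.l 0) (T.a (T.l 1) (T.l 0))))) (T.l 1)) (T.b (T.c (T.l 0) (T.l 0)) (T.b (T.c (T.b (T.c (T.l 0) (T.l 0)) (T.a (T.l 1) (T.a (T.l 1) (T.l 0)))) (T.a (T.a (T.l 1) (T.b (T.l 0) (T.l 1))) (T.b (T.l 0) (T.a (T.l 1) (T.l 0))))) (T.l 1)))) (T.l 1))) (T.b (T.b (T.a (T.l 0) (T.b (T.l 0) (T.l 0))) (T.c (T.l 0) (T.l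 0))) (T.b (T.b (T.c (T.l 0) (T.l 0)) (T.a (T.c (T.b (T.l 0) (T.a (T.l 1) (T.b (T.l 0) (T.l 1)))) (T.b (T.l 0) (T.a (T.l 1) (T.b (T.l 0) (T.l 1))))) (T.a (T.c (T.l 0) (T.c (T.l 0) (T.c (T.l 0) (T.c (T.l 0) (T.b (T.l 0) (T.a (T.l 0) (T.l 0))))))) (T.l 0)))) (T.a (T.l 1) (T.a (T.l 1) (T.b (T.a (T.l 1) (T.b (T.a (T.l 1) (T.b (T.l 0) (T.l 1))) (T.l 1))) (T.l 1))))))), by decide +kernel⟩

def A102E_000_1_49_1 :
    ∃ t, chk3 (onCell 0 67108864 0 1073741824 536870912 50465866 (corW 3 c0B eng mog cA102E gB0q1 gB0q0 gB0q2 gB1q2 dB0q1 dB0q0 dB0q2 dB1q2 true true)) t 1 49 1 = true :=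
  ⟨(T.l 1), by decide +kernel⟩

def A102E_000_1_25_1 :
    ∃ t, chk3 (onCell 0 67108864 0 1073741824 536870912 50465866 (corW 3 c0B eng mog cA102E gB0q1 gB0q0 gB0q2 gB1q2 dB0q1 dB0q0 dB0q2 dB1q2 true true)) t 1 25 1 = true :=
  ⟨(T.l 1), by decide +kernel⟩

def A102E_000_1_13_1 :
    ∃ t, chk3 (onCell 0 67108864 0 1073741824 536870912 50465866 (corW 3 c0B eng mog cA102E gB0q1 gB0q0 gB0q2 gB1q2 dB0q1 dB0q0 dB0q2 dB1q2 true true)) t 1 13 1 = true :=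
  ⟨(T.l 1), by decide +kernel⟩

def A102E_000_1_7_1 :
    ∃ t, chk3 (onCell 0 67108864 0 1073741824 536870912 50465866 (corW 3 c0B eng mog cA102E gB0q1 gB0q0 gB0q2 gB1q2 dB0q1 dB0q0 dB0q2 dB1q2 true true)) t 1 7 1 = true :=
  ⟨(T.l 1), by decide +kernel⟩

theorem A102E_000_3_48_1 :
    ∃ t, chk3 (onCell 0 67108864 0 1073741824 536870912 50465866 (corW 3 c0B eng mog cA102E gB0q1 gB0q0 gB0q2 gB1q2 dB0q1 dB0q0 dB0q2 dB1q2 true true)) t 3 48 1 = true :=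
  ex3_a A102E_000_6_48_1 A102E_000_7_48_1
theorem A102E_000_2_96_1 :
    ∃ t, chk3 (onCell 0 67108864 0 1073741824 536870912 50465866 (corW 3 c0B eng mog cA102E gB0q1 gB0q0 gB0q2 gB1q2 dB0q1 dB0q0 dB0q2 dB1q2 true true)) t 2 96 1 = true :=
  ex3_a A102E_000_4_96_1 A102E_000_5_96_1
theorem A102E_000_2_48_1 :
    ∃ t, chk3 (onCell 0 67108864 0 1073741824 536870912 50465866 (corW 3 c0B eng mog cA102E gB0q1 gB0q0 gB0q2 gB1q2 dB0q1 dB0q0 dB0q2 dB1q2 true true)) t 2 48 1 = true :=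
  ex3_b A102E_000_2_96_1 A102E_000_2_97_1
theorem A102E_000_1_48_1 :
    ∃ t, chk3 (onCell 0 67108864 0 1073741824 536870912 50465866 (corW 3 c0B eng mog cA102E gB0q1 gB0q0 gB0q2 gB1q2 dB0q1 dB0q0 dB0q2 dB1q2 true true)) t 1 48 1 = true :=
  ex3_a A102E_000_2_48_1 A102E_000_3_48_1
theorem A102E_000_1_24_1 :
    ∃ t, chk3 (onCell 0 67108864 0 1073741824 536870912 50465866 (corW 3 c0B eng mog cA102E gB0q1 gB0q0 gB0q2 gB1q2 dB0q1 dB0q0 dB0q2 dB1q2 true true)) t 1 24 1 = true :=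
  ex3_b A102E_000_1_48_1 A102E_000_1_49_1
theorem A102E_000_1_12_1 :
    ∃ t, chk3 (onCell 0 67108864 0 1073741824 536870912 50465866 (corW 3 c0B eng mog cA102E gB0q1 gB0q0 gB0q2 gB1q2 dB0q1 dB0q0 dB0q2 dB1q2 true true)) t 1 12 1 = true :=
  ex3_b A102E_000_1_24_1 A102E_000_1_25_1
theorem A102E_000_1_6_1 :
    ∃ t, chk3 (onCell 0 67108864 0 1073741824 536870912 50465866 (corW 3 c0B eng mog cA102E gB0q1 gB0q0 gB0q2 gB1q2 dB0q1 dB0q0 dB0q2 dB1q2 true true)) t 1 6 1 = true :=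
  ex3_b A102E_000_1_12_1 A102E_000_1_13_1
theorem A102E_000_1_3_1 :
    ∃ t, chk3 (onCell 0 67108864 0 1073741824 536870912 50465866 (corW 3 c0B eng mog cA102E gB0q1 gB0q0 gB0q2 gB1q2 dB0q1 dB0q0 dB0q2 dB1q2 true true)) t 1 3 1 = true :=
  ex3_b A102E_000_1_6_1 A102E_000_1_7_1
theorem A102E_000 :
    ∃ t, chk3 (onCell 0 67108864 0 1073741824 536870912 50465866 (corW 3 c0B eng mog cA102E gB0q1 gB0q0 gB0q2 gB1q2 dB0q1 dB0q0 dB0q2 dB1q2 true true)) t 1 1 1 = true :=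
  ex3_b A102E_000_1_2_1 A102E_000_1_3_1

def A102E_001 :
    ∃ t, chk3 (onCell 0 67108864 0 1073741824 536870912 50465866 (corW 3 c0B eng mog cA102E gB0q1 gB0q0 gB1q2 gB2q2 dB0q1 dB0q0 dB1q2 dB2q2 true true)) t 1 1 1 = true :=
  ⟨(T.b (T.b (T.l 2) (T.b (T.a (T.b (T.l 2) (T.a (T.b (T.l 2) (T.l 0)) (T.l 2))) (T.l 2)) (T.b (T.a (T.c (T.b (T.l 0) (T.a (T.l 0) (T.l 0))) (T.a (T.l 0) (T.l 0))) (T.a (T.b (T.l 0) (T.l 0)) (T.b (T.b (T.l 2) (T.a (T.a (T.l 0) (T.l 0)) (T.c (T.l 0) (T.l 4)))) (T.a (T.a (T.l 0) (T.c (T.l 0) (T.l 0))) (T.a (T.c (T.l 0) (T.l 0)) (T.c (T.l 0) (T.l 0))))))) (T.a (T.b (T.a (T.c (T.l 0) (T.l 0)) (T.c (T.l 0) (T.l 0))) (T.b (T.a (T.c (T.l 0) (T.l 0)) (T.l 0)) (T.l 1))) (T.a (T.b (T.l 0) (T.b (T.l 0) (T.c (T.l 0) (T.l 0)))) (T.a (T.b (T.l 0) (T.c (T.l 0) (T.l 0))) (T.b (T.a (T.c (T.l 0) (T.l 0)) (T.c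 (T.l 0) (T.l 0))) (T.a (T.c (T.l 0) (T.l 0)) (T.b (T.l 0) (T.c (T.l 0) (T.l 0))))))))))) (T.b (T.b (T.l 1) (T.l 1)) (T.l 1))), by decide +kernel⟩

def A102E_002_1_4_1 :
    ∃ t, chk3 (onCell 0 67108864 0 1073741824 536870912 50465866 (corW 3 c0B eng mog cA102E gB0q1 gB0q0 gB2q2 gB3q2 dB0q1 dB0q0 dB2q2 dB3q2 true true)) t 1 4 1 = true :=
  ⟨(T.b (T.l 2) (T.a (T.b (T.b (T.l 2) (T.c (T.a (T.a (T.l 204) (T.l 204)) (T.l 220)) (T.l 204))) (T.c (T.c (T.a (T.l 204) (T.l 204)) (T.l 204)) (T.l 204))) (T.b (T.b (T.l 2) (T.b (T.l 2) (T.b (T.a (T.b (T.a (T.a (T.l 204) (T.c (T.c (T.l 220) (T.l 204)) (T.l 204))) (T.c (T.a (T.l 204) (T.l 204)) (T.l 204))) (T.a (T.a (T.l 204) (T.c (T.c (T.l 204) (T.l 204)) (T.l 204))) (T.c (T.a (T.l 204) (T.l 204)) (T.l 204)))) (T.b (T.l 2) (T.a (T.c (T.l 204) (T.l 204)) (T.c (T.l 204) (T.l 204)))))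 (T.a (T.a (T.a (T.l 204) (T.c (T.c (T.l 220) (T.l 204)) (T.l 204))) (T.c (T.a (T.l 204) (T.l 204)) (T.l 220))) (T.a (T.a (T.l 204) (T.l 204)) (T.c (T.l 204) (T.l 204))))))) (T.a (T.a (T.b (T.b (T.a (T.l 204) (T.c (T.c (T.l 220) (T.l 204)) (T.l 204))) (T.l 204)) (T.l 220)) (T.a (T.c (T.b (T.a (T.l 220) (T.l 204)) (T.a (T.l 204) (T.l 204))) (T.b (T.l 204) (T.l 204))) (T.c (T.b (T.l 220) (T.l 204)) (T.b (T.l 204) (T.l 204))))) (T.a (T.a (T.c (T.b (T.l 204) (T.l 204)) (T.l 204)) (T.c (T.b (T.l 204) (T.l 204)) (T.l 204))) (T.c (T.a (T.b (T.l 204) (T.l 204)) (T.b (T.l 204) (T.l 204))) (T.b (T.l 204) (T.l 204)))))))), by decide +kernel⟩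

def A102E_002_1_5_1 :
    ∃ t, chk3 (onCell 0 67108864 0 1073741824 536870912 50465866 (corW 3 c0B eng mog cA102E gB0q1 gB0q0 gB2q2 gB3q2 dB0q1 dB0q0 dB2q2 dB3q2 true true)) t 1 5 1 = true :=
  ⟨(T.b (T.a (T.b (T.c (T.a (T.l 204) (T.l 204)) (T.l 204)) (T.c (T.a (T.l 0) (T.l 0)) (T.l 0))) (T.a (T.a (T.c (T.l 16) (T.l 0)) (T.b (T.a (T.b (T.c (T.b (T.l 204) (T.l 204)) (T.l 204)) (T.l 204)) (T.c (T.b (T.l 220) (T.l 204)) (T.b (T.l 204) (T.l 204)))) (T.a (T.l 0) (T.b (T.c (T.l 204) (T.l 0)) (T.l 0))))) (T.b (T.a (T.b (T.c (T.b (T.l 220) (T.l 204)) (T.l 0)) (T.c (T.b (T.l 204) (T.l 204)) (T.l 0))) (T.b (T.c (T.b (T.l 204) (T.l 204)) (T.l 0)) (T.c (T.l 204) (T.l 0)))) (T.a (T.b (T.a (T.c (T.l 204) (T.l 0)) (T.l 0)) (T.c (T.l 0) (T.l 0))) (T.b (T.c (T.l 0) (T.l 0)) (T.c (T.l 0) (T.l 0))))))) (T.b (T.b (T.a (T.a (T.l 0)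 (T.l 0)) (T.a (T.l 0) (T.a (T.c (T.l 0) (T.l 0)) (T.l 4)))) (T.l 1)) (T.l 1))), by decide +kernel⟩

def A102E_002_1_3_1 :
    ∃ t, chk3 (onCell 0 67108864 0 1073741824 536870912 50465866 (corW 3 c0B eng mog cA102E gB0q1 gB0q0 gB2q2 gB3q2 dB0q1 dB0q0 dB2q2 dB3q2 true true)) t 1 3 1 = true :=
  ⟨(T.l 1), by decide +kernel⟩

theorem A102E_002_1_2_1 :
    ∃ t, chk3 (onCell 0 67108864 0 1073741824 536870912 50465866 (corW 3 c0B eng mog cA102E gB0q1 gB0q0 gB2q2 gB3q2 dB0q1 dB0q0 dB2q2 dB3q2 true true)) t 1 2 1 = true :=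
  ex3_b A102E_002_1_4_1 A102E_002_1_5_1
theorem A102E_002 :
    ∃ t, chk3 (onCell 0 67108864 0 1073741824 536870912 50465866 (corW 3 c0B eng mog cA102E gB0q1 gB0q0 gB2q2 gB3q2 dB0q1 dB0q0 dB2q2 dB3q2 true true)) t 1 1 1 = true :=
  ex3_b A102E_002_1_2_1 A102E_002_1_3_1

def A102E_003 :
    ∃ t, chk3 (onCell 0 67108864 0 1073741824 536870912 50465866 (corW 3 c0B eng mog cA102E gB0q1 gB0q0 gB3q2 gB4q2 dB0q1 dB0q0 dB3q2 dB4q2 true false)) t 1 1 1 = true :=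
  ⟨(T.b (T.b (T.b (T.a (T.a (T.c (T.b (T.l 204) (T.b (T.l 204) (T.l 204))) (T.l 204)) (T.a (T.c (T.b (T.l 204) (T.l 204)) (T.l 204)) (T.b (T.c (T.a (T.l 204) (T.b (T.l 204) (T.l 204))) (T.b (T.l 204) (T.l 204))) (T.c (T.l 204) (T.l 204))))) (T.a (T.a (T.c (T.b (T.a (T.b (T.l 204) (T.b (T.l 204) (T.l 204))) (T.l 220)) (T.c (T.a (T.l 204) (T.l 204)) (T.b (T.l 204) (T.l 204)))) (T.b (T.b (T.l 204) (T.l 204)) (T.b (T.l 204) (T.l 204)))) (T.c (T.b (T.b (T.l 204) (T.l 204)) (T.b (T.l 204) (T.l 204))) (T.b (T.l 204) (T.l 204)))) (T.b (T.c (T.a (T.l 204) (T.l 204)) (T.b (T.l 204) (T.l 204))) (T.c (T.a (T.l 204) (T.l 204)) (T.b (T.l 204) (T.l 204)))))) (T.b (T.a (T.c (T.b (T.l 204) (T.a (T.l 204) (T.l 204))) (T.l 204)) (T.a (T.a (T.c (T.a (T.l 204) (T.b (T.l 220) (T.b (T.l 204) (T.l 204)))) (T.b (T.l 204) (T.l 204))) (T.c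 (T.b (T.l 204) (T.l 220)) (T.l 204))) (T.c (T.a (T.l 204) (T.l 204)) (T.b (T.l 204) (T.l 204))))) (T.l 1))) (T.l 1)) (T.l 1)), by decide +kernel⟩

def A102E_010 :
    ∃ t, chk3 (onCell 0 67108864 0 1073741824 536870912 50465866 (corW 3 c0B eng mog cA102E gB0q1 gB1q0 gB0q2 gB1q2 dB0q1 dB1q0 dB0q2 dB1q2 true true)) t 1 1 1 = true :=
  ⟨(T.b (T.b (T.l 2) (T.l 2)) (T.b (T.b (T.b (T.b (T.a (T.a (T.l 2) (T.l 2)) (T.l 2)) (T.a (T.b (T.a (T.l 204) (T.l 204)) (T.a (T.c (T.l 204) (T.a (T.l 204) (T.l 204))) (T.l 204))) (T.b (T.l 204) (T.a (T.l 204) (T.l 204))))) (T.b (T.b (T.a (T.b (T.a (T.b (T.a (T.l 1) (T.b (T.l 204) (T.l 1))) (T.l 1)) (T.c (T.a (T.l 716) (T.l 204)) (T.b (T.l 204) (T.a (T.b (T.c (T.l 204) (T.l 716)) (T.l 1)) (T.l 716))))) (T.l 1)) (T.a (T.b (T.c (T.l 204) (T.l 204)) (T.b (T.a (T.b (T.c (T.l 204) (T.l 716))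 (T.l 1)) (T.l 716)) (T.l 1))) (T.b (T.l 204) (T.a (T.c (T.l 716) (T.c (T.l 716) (T.l 716))) (T.l 716))))) (T.a (T.l 1) (T.a (T.l 1) (T.l 1)))) (T.l 1))) (T.l 1)) (T.l 1))), by decide +kernel⟩

def A102E_011 :
    ∃ t, chk3 (onCell 0 67108864 0 1073741824 536870912 50465866 (corW 3 c0B eng mog cA102E gB0q1 gB1q0 gB1q2 gB2q2 dB0q1 dB1q0 dB1q2 dB2q2 true true)) t 1 1 1 = true :=
  ⟨(T.b (T.b (T.l 2) (T.b (T.l 2) (T.a (T.l 204) (T.a (T.l 204) (T.b (T.l 2) (T.a (T.l 204) (T.b (T.l 204) (T.l 204)))))))) (T.b (T.b (T.b (T.a (T.b (T.l 204) (T.a (T.l 204) (T.l 204))) (T.a (T.b (T.l 204) (T.l 204)) (T.b (T.c (T.l 0) (T.l 0)) (T.l 204)))) (T.l 1)) (T.l 1)) (T.l 1))), by decide +kernel⟩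

def A102E_012 :
    ∃ t, chk3 (onCell 0 67108864 0 1073741824 536870912 50465866 (corW 3 c0B eng mog cA102E gB0q1 gB1q0 gB2q2 gB3q2 dB0q1 dB1q0 dB2q2 dB3q2 true true)) t 1 1 1 = true :=
  ⟨(T.b (T.b (T.l 2) (T.b (T.a (T.l 204) (T.b (T.b (T.b (T.l 2) (T.a (T.a (T.l 204) (T.l 204)) (T.l 204))) (T.a (T.a (T.l 204) (T.l 204)) (T.l 204))) (T.a (T.a (T.l 204) (T.l 204)) (T.b (T.l 16) (T.l 0))))) (T.a (T.l 204) (T.a (T.l 204) (T.b (T.b (T.l 0) (T.l 0)) (T.l 0)))))) (T.l 1)), by decide +kernel⟩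

def A102E_013 :
    ∃ t, chk3 (onCell 0 67108864 0 1073741824 536870912 50465866 (corW 3 c0B eng mog cA102E gB0q1 gB1q0 gB3q2 gB4q2 dB0q1 dB1q0 dB3q2 dB4q2 true false)) t 1 1 1 = true :=
  ⟨(T.b (T.b (T.b (T.a (T.a (T.l 204) (T.a (T.l 204) (T.l 204))) (T.a (T.b (T.l 204) (T.l 204)) (T.l 204))) (T.a (T.l 204) (T.a (T.b (T.l 204) (T.l 204)) (T.l 204)))) (T.b (T.b (T.a (T.l 204) (T.a (T.l 204) (T.l 204))) (T.l 1)) (T.l 1))) (T.l 1)), by decide +kernel⟩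

def A102E_020 :
    ∃ t, chk3 (onCell 0 67108864 0 1073741824 536870912 50465866 (corW 3 c0B eng mog cA102E gB0q1 gB2q0 gB0q2 gB1q2 dB0q1 dB2q0 dB0q2 dB1q2 true true)) t 1 1 1 = true :=
  ⟨(T.b (T.l 2) (T.b (T.b (T.l 2) (T.b (T.b (T.l 2) (T.a (T.l 204) (T.a (T.l 204) (T.l 716)))) (T.b (T.a (T.b (T.l 204) (T.a (T.l 1) (T.l 204))) (T.a (T.c (T.l 204) (T.l 204)) (T.b (T.l 716) (T.a (T.l 204) (T.l 716))))) (T.l 1)))) (T.l 1))), by decide +kernel⟩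

def A102E_021 :
    ∃ t, chk3 (onCell 0 67108864 0 1073741824 536870912 50465866 (corW 3 c0B eng mog cA102E gB0q1 gB2q0 gB1q2 gB2q2 dB0q1 dB2q0 dB1q2 dB2q2 true true)) t 1 1 1 = true :=
  ⟨(T.b (T.l 2) (T.b (T.b (T.a (T.l 204) (T.b (T.l 2) (T.l 204))) (T.b (T.a (T.l 204) (T.a (T.l 204) (T.b (T.l 204) (T.l 204)))) (T.a (T.l 1) (T.a (T.l 1) (T.b (T.b (T.l 716) (T.l 1)) (T.l 1)))))) (T.l 1))), by decide +kernel⟩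

def A102E_022 :
    ∃ t, chk3 (onCell 0 67108864 0 1073741824 536870912 50465866 (corW 3 c0B eng mog cA102E gB0q1 gB2q0 gB2q2 gB3q2 dB0q1 dB2q0 dB2q2 dB3q2 true true)) t 1 1 1 = true :=
  ⟨(T.b (T.b (T.l 2) (T.b (T.l 2) (T.a (T.l 204) (T.b (T.l 2) (T.a (T.l 204) (T.l 204)))))) (T.b (T.b (T.a (T.l 204) (T.b (T.a (T.l 204) (T.l 204)) (T.l 204))) (T.b (T.a (T.l 204) (T.a (T.l 204) (T.l 204))) (T.l 1))) (T.l 1))), by decide +kernel⟩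

def A102E_023 :
    ∃ t, chk3 (onCell 0 67108864 0 1073741824 536870912 50465866 (corW 3 c0B eng mog cA102E gB0q1 gB2q0 gB3q2 gB4q2 dB0q1 dB2q0 dB3q2 dB4q2 true false)) t 1 1 1 = true :=
  ⟨(T.b (T.b (T.a (T.a (T.l 204) (T.b (T.l 204) (T.l 204))) (T.a (T.b (T.l 204) (T.l 204)) (T.l 204))) (T.a (T.l 204) (T.b (T.b (T.l 204) (T.l 204)) (T.b (T.l 204) (T.l 204))))) (T.b (T.b (T.a (T.l 204) (T.l 1)) (T.l 1)) (T.l 1))), by decide +kernel⟩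

def A102E_030 :
    ∃ t, chk3 (onCell 0 67108864 0 1073741824 536870912 50465866 (corW 3 c0B eng mog cA102E gB0q1 gB3q0 gB0q2 gB1q2 dB0q1 dB3q0 dB0q2 dB1q2 true true)) t 1 1 1 = true :=
  ⟨(T.b (T.l 2) (T.b (T.l 2) (T.b (T.l 2) (T.b (T.b (T.a (T.l 204) (T.b (T.l 2) (T.a (T.c (T.l 204) (T.l 204)) (T.l 204)))) (T.l 1)) (T.l 1))))), by decide +kernel⟩

def A102E_031 :
    ∃ t, chk3 (onCell 0 67108864 0 1073741824 536870912 50465866 (corW 3 c0B eng mog cA102E gB0q1 gB3q0 gB1q2 gB2q2 dB0q1 dB3q0 dB1q2 dB2q2 true true)) t 1 1 1 = true :=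
  ⟨(T.b (T.l 2) (T.b (T.l 2) (T.b (T.a (T.l 204) (T.b (T.l 2) (T.a (T.l 204) (T.l 204)))) (T.b (T.b (T.a (T.l 204) (T.a (T.c (T.l 204) (T.l 204)) (T.c (T.l 204) (T.l 204)))) (T.l 1)) (T.l 1))))), by decide +kernel⟩

def A102E_032 :
    ∃ t, chk3 (onCell 0 67108864 0 1073741824 536870912 50465866 (corW 3 c0B eng mog cA102E gB0q1 gB3q0 gB2q2 gB3q2 dB0q1 dB3q0 dB2q2 dB3q2 true true)) t 1 1 1 = true :=
  ⟨(T.b (T.l 2) (T.b (T.l 2) (T.b (T.a (T.l 204) (T.a (T.b (T.l 2) (T.l 204)) (T.b (T.l 2) (T.l 204)))) (T.b (T.a (T.l 204) (T.l 1)) (T.l 1))))), by decide +kernel⟩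

def A102E_033 :
    ∃ t, chk3 (onCell 0 67108864 0 1073741824 536870912 50465866 (corW 3 c0B eng mog cA102E gB0q1 gB3q0 gB3q2 gB4q2 dB0q1 dB3q0 dB3q2 dB4q2 true false)) t 1 1 1 = true :=
  ⟨(T.b (T.b (T.a (T.a (T.l 204) (T.l 204)) (T.b (T.l 204) (T.l 204))) (T.a (T.l 204) (T.b (T.l 204) (T.l 204)))) (T.a (T.b (T.l 204) (T.b (T.l 204) (T.l 1))) (T.b (T.b (T.b (T.l 204) (T.l 204)) (T.a (T.l 204) (T.l 204))) (T.b (T.a (T.b (T.l 204) (T.l 204)) (T.b (T.l 204) (T.l 204))) (T.l 1))))), by decide +kernel⟩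

def A102R_005 :
    ∃ t, chk3 (onCell 0 67108864 0 1073741824 536870912 50465866 (corW 3 c0B eng mog cA102R gB0q1 gB0q0 gB5q2 gB6q2 dB0q1 dB0q0 dB5q2 dB6q2 false true)) t 1 1 1 = true :=
  ⟨(T.l 2), by decide +kernel⟩

def A102R_015 :
    ∃ t, chk3 (onCell 0 67108864 0 1073741824 536870912 50465866 (corW 3 c0B eng mog cA102R gB0q1 gB1q0 gB5q2 gB6q2 dB0q1 dB1q0 dB5q2 dB6q2 false true)) t 1 1 1 = true :=
  ⟨(T.l 2), by decide +kernel⟩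

def A102R_025 :
    ∃ t, chk3 (onCell 0 67108864 0 1073741824 536870912 50465866 (corW 3 c0B eng mog cA102R gB0q1 gB2q0 gB5q2 gB6q2 dB0q1 dB2q0 dB5q2 dB6q2 false true)) t 1 1 1 = true :=
  ⟨(T.l 2), by decide +kernel⟩

def A102R_035 :
    ∃ t, chk3 (onCell 0 67108864 0 1073741824 536870912 50465866 (corW 3 c0B eng mog cA102R gB0q1 gB3q0 gB5q2 gB6q2 dB0q1 dB3q0 dB5q2 dB6q2 false true)) t 1 1 1 = true :=
  ⟨(T.l 2), by decide +kernel⟩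

def A202E_000 :
    ∃ t, chk3 (onCell 0 67108864 0 1073741824 536870912 50465866 (corW 3 c0B eng mog cA202E gB0q2 gB0q0 gB0q2 gB1q2 dB0q2 dB0q0 dB0q2 dB1q2 true true)) t 1 1 1 = true :=
  ⟨(T.l 2), by decide +kernel⟩

def A202E_001 :
    ∃ t, chk3 (onCell 0 67108864 0 1073741824 536870912 50465866 (corW 3 c0B eng mog cA202E gB0q2 gB0q0 gB1q2 gB2q2 dB0q2 dB0q0 dB1q2 dB2q2 true true)) t 1 1 1 = true :=
  ⟨(T.l 2), by decide +kernel⟩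

def A202E_002 :
    ∃ t, chk3 (onCell 0 67108864 0 1073741824 536870912 50465866 (corW 3 c0B eng mog cA202E gB0q2 gB0q0 gB2q2 gB3q2 dB0q2 dB0q0 dB2q2 dB3q2 true true)) t 1 1 1 = true :=
  ⟨(T.b (T.l 2) (T.l 2)), by decide +kernel⟩

def A202E_003 :
    ∃ t, chk3 (onCell 0 67108864 0 1073741824 536870912 50465866 (corW 3 c0B eng mog cA202E gB0q2 gB0q0 gB3q2 gB4q2 dB0q2 dB0q0 dB3q2 dB4q2 true false)) t 1 1 1 = true :=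
  ⟨(T.b (T.b (T.a (T.a (T.b (T.c (T.l 204) (T.l 204)) (T.l 204)) (T.a (T.b (T.b (T.l 204) (T.l 204)) (T.l 204)) (T.b (T.c (T.a (T.l 204) (T.b (T.l 204) (T.l 204))) (T.l 204)) (T.l 0)))) (T.a (T.b (T.a (T.c (T.b (T.l 204) (T.l 204)) (T.l 204)) (T.c (T.l 204) (T.l 204))) (T.l 16)) (T.b (T.c (T.b (T.l 204) (T.l 204)) (T.l 204)) (T.l 0)))) (T.b (T.a (T.a (T.l 0) (T.c (T.l 0) (T.l 0))) (T.a (T.l 0) (T.l 0))) (T.a (T.a (T.l 0) (T.b (T.l 0) (T.l 0))) (T.a (T.l 0) (T.b (T.l 0) (T.l 0)))))) (T.b (T.a (T.a (T.l 0) (T.a (T.l 0) (T.l 0))) (T.a (T.a (T.l 0) (T.b (T.l 0) (T.l 0))) (T.b (T.b (T.l 0) (T.l 0)) (T.a (T.l 0) (T.l 0))))) (T.a (T.a (T.b (T.l 816) (T.a (T.c (T.l 816) (T.l 816)) (T.l 816))) (T.a (T.l 816) (T.a (T.l 816) (T.b (T.l 816) (T.l 816))))) (T.a (T.a (T.b (T.b (T.l 816) (T.l 816)) (T.a (T.l 816) (T.l 816))) (T.b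 (T.b (T.l 816) (T.l 816)) (T.b (T.l 816) (T.l 816)))) (T.b (T.a (T.b (T.l 816) (T.l 816)) (T.l 0)) (T.a (T.b (T.l 816) (T.l 816)) (T.b (T.l 816) (T.l 816)))))))), by decide +kernel⟩

def A202E_010 :
    ∃ t, chk3 (onCell 0 67108864 0 1073741824 536870912 50465866 (corW 3 c0B eng mog cA202E gB0q2 gB1q0 gB0q2 gB1q2 dB0q2 dB1q0 dB0q2 dB1q2 true true)) t 1 1 1 = true :=
  ⟨(T.l 2), by decide +kernel⟩

def A202E_011 :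
    ∃ t, chk3 (onCell 0 67108864 0 1073741824 536870912 50465866 (corW 3 c0B eng mog cA202E gB0q2 gB1q0 gB1q2 gB2q2 dB0q2 dB1q0 dB1q2 dB2q2 true true)) t 1 1 1 = true :=
  ⟨(T.l 2), by decide +kernel⟩

def A202E_012 :
    ∃ t, chk3 (onCell 0 67108864 0 1073741824 536870912 50465866 (corW 3 c0B eng mog cA202E gB0q2 gB1q0 gB2q2 gB3q2 dB0q2 dB1q0 dB2q2 dB3q2 true true)) t 1 1 1 = true :=
  ⟨(T.l 2), by decide +kernel⟩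

def A202E_013 :
    ∃ t, chk3 (onCell 0 67108864 0 1073741824 536870912 50465866 (corW 3 c0B eng mog cA202E gB0q2 gB1q0 gB3q2 gB4q2 dB0q2 dB1q0 dB3q2 dB4q2 true false)) t 1 1 1 = true :=
  ⟨(T.b (T.b (T.a (T.a (T.l 204) (T.c (T.l 204) (T.l 0))) (T.a (T.l 204) (T.l 204))) (T.b (T.a (T.a (T.l 204) (T.l 0)) (T.a (T.l 0) (T.l 204))) (T.a (T.a (T.l 0) (T.l 0)) (T.a (T.l 0) (T.l 0))))) (T.b (T.a (T.a (T.l 0) (T.b (T.l 0) (T.l 0))) (T.a (T.a (T.l 0) (T.b (T.l 0) (T.l 0))) (T.b (T.b (T.l 0) (T.l 0)) (T.b (T.l 0) (T.l 0))))) (T.a (T.a (T.b (T.l 816) (T.a (T.c (T.l 816) (T.l 816)) (T.l 816))) (T.a (T.l 816) (T.a (T.l 816) (T.b (T.l 816) (T.l 816))))) (T.a (T.a (T.b (T.l 0) (T.a (T.l 816) (T.l 816))) (T.b (T.l 0) (T.b (T.l 816) (T.l 816)))) (T.b (T.a (T.l 0) (T.l 0)) (T.a (T.b (T.l 816) (T.l 816)) (T.b (T.l 816) (T.l 816)))))))),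 by decide +kernel⟩

def A202E_020 :
    ∃ t, chk3 (onCell 0 67108864 0 1073741824 536870912 50465866 (corW 3 c0B eng mog cA202E gB0q2 gB2q0 gB0q2 gB1q2 dB0q2 dB2q0 dB0q2 dB1q2 true true)) t 1 1 1 = true :=
  ⟨(T.l 2), by decide +kernel⟩

def A202E_021 :
    ∃ t, chk3 (onCell 0 67108864 0 1073741824 536870912 50465866 (corW 3 c0B eng mog cA202E gB0q2 gB2q0 gB1q2 gB2q2 dB0q2 dB2q0 dB1q2 dB2q2 true true)) t 1 1 1 = true :=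
  ⟨(T.l 2), by decide +kernel⟩

def A202E_022 :
    ∃ t, chk3 (onCell 0 67108864 0 1073741824 536870912 50465866 (corW 3 c0B eng mog cA202E gB0q2 gB2q0 gB2q2 gB3q2 dB0q2 dB2q0 dB2q2 dB3q2 true true)) t 1 1 1 = true :=
  ⟨(T.l 2), by decide +kernel⟩

def A202E_023 :
    ∃ t, chk3 (onCell 0 67108864 0 1073741824 536870912 50465866 (corW 3 c0B eng mog cA202E gB0q2 gB2q0 gB3q2 gB4q2 dB0q2 dB2q0 dB3q2 dB4q2 true false)) t 1 1 1 = true :=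
  ⟨(T.b (T.b (T.a (T.a (T.l 204) (T.l 204)) (T.l 204)) (T.b (T.a (T.a (T.l 204) (T.l 0)) (T.l 0)) (T.a (T.a (T.l 204) (T.l 0)) (T.a (T.l 204) (T.l 0))))) (T.b (T.a (T.a (T.l 0) (T.l 0)) (T.a (T.b (T.l 0) (T.l 0)) (T.b (T.l 0) (T.l 0)))) (T.a (T.a (T.b (T.l 816) (T.a (T.c (T.l 816) (T.l 816)) (T.l 816))) (T.a (T.l 0) (T.a (T.l 0) (T.b (T.l 0) (T.l 816))))) (T.a (T.b (T.a (T.l 0) (T.l 0)) (T.a (T.a (T.l 816) (T.l 816)) (T.b (T.l 816) (T.l 816)))) (T.b (T.b (T.l 0) (T.l 0)) (T.a (T.b (T.l 816) (T.l 816)) (T.b (T.l 816) (T.l 816)))))))), by decide +kernel⟩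

def A202E_030 :
    ∃ t, chk3 (onCell 0 67108864 0 1073741824 536870912 50465866 (corW 3 c0B eng mog cA202E gB0q2 gB3q0 gB0q2 gB1q2 dB0q2 dB3q0 dB0q2 dB1q2 true true)) t 1 1 1 = true :=
  ⟨(T.l 2), by decide +kernel⟩

def A202E_031 :
    ∃ t, chk3 (onCell 0 67108864 0 1073741824 536870912 50465866 (corW 3 c0B eng mog cA202E gB0q2 gB3q0 gB1q2 gB2q2 dB0q2 dB3q0 dB1q2 dB2q2 true true)) t 1 1 1 = true :=
  ⟨(T.l 2), by decide +kernel⟩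

def A202E_032 :
    ∃ t, chk3 (onCell 0 67108864 0 1073741824 536870912 50465866 (corW 3 c0B eng mog cA202E gB0q2 gB3q0 gB2q2 gB3q2 dB0q2 dB3q0 dB2q2 dB3q2 true true)) t 1 1 1 = true :=
  ⟨(T.l 2), by decide +kernel⟩

def A202E_033 :
    ∃ t, chk3 (onCell 0 67108864 0 1073741824 536870912 50465866 (corW 3 c0B eng mog cA202E gB0q2 gB3q0 gB3q2 gB4q2 dB0q2 dB3q0 dB3q2 dB4q2 true false)) t 1 1 1 = true :=
  ⟨(T.b (T.b (T.a (T.a (T.l 204) (T.l 204)) (T.l 204)) (T.a (T.a (T.l 204) (T.l 204)) (T.a (T.l 204) (T.b (T.l 204) (T.l 204))))) (T.b (T.a (T.a (T.l 0) (T.l 0)) (T.a (T.b (T.l 204) (T.l 0)) (T.b (T.l 0) (T.l 0)))) (T.a (T.a (T.b (T.l 0) (T.a (T.c (T.b (T.l 816) (T.l 816)) (T.l 816)) (T.l 816))) (T.a (T.l 64) (T.a (T.l 0) (T.b (T.l 0) (T.l 0))))) (T.a (T.b (T.b (T.l 0) (T.l 0)) (T.a (T.a (T.l 0) (T.l 0)) (T.b (T.l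 0) (T.l 816)))) (T.b (T.l 0) (T.a (T.b (T.l 0) (T.l 816)) (T.b (T.l 0) (T.l 816)))))))), by decide +kernel⟩

def A202E_110 :
    ∃ t, chk3 (onCell 0 67108864 0 1073741824 536870912 50465866 (corW 3 c0B eng mog cA202E gB1q2 gB1q0 gB0q2 gB1q2 dB1q2 dB1q0 dB0q2 dB1q2 true true)) t 1 1 1 = true :=
  ⟨(T.l 2), by decide +kernel⟩

def A202E_111 :
    ∃ t, chk3 (onCell 0 67108864 0 1073741824 536870912 50465866 (corW 3 c0B eng mog cA202E gB1q2 gB1q0 gB1q2 gB2q2 dB1q2 dB1q0 dB1q2 dB2q2 true true)) t 1 1 1 = true :=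
  ⟨(T.l 2), by decide +kernel⟩

def A202E_112 :
    ∃ t, chk3 (onCell 0 67108864 0 1073741824 536870912 50465866 (corW 3 c0B eng mog cA202E gB1q2 gB1q0 gB2q2 gB3q2 dB1q2 dB1q0 dB2q2 dB3q2 true true)) t 1 1 1 = true :=
  ⟨(T.l 2), by decide +kernel⟩

def A202E_113 :
    ∃ t, chk3 (onCell 0 67108864 0 1073741824 536870912 50465866 (corW 3 c0B eng mog cA202E gB1q2 gB1q0 gB3q2 gB4q2 dB1q2 dB1q0 dB3q2 dB4q2 true false)) t 1 1 1 = true :=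
  ⟨(T.b (T.b (T.a (T.a (T.l 204) (T.c (T.l 204) (T.l 0))) (T.a (T.l 204) (T.l 204))) (T.b (T.a (T.a (T.l 204) (T.l 0)) (T.b (T.l 0) (T.l 0))) (T.a (T.a (T.l 0) (T.l 0)) (T.a (T.l 0) (T.l 0))))) (T.b (T.a (T.a (T.l 0) (T.b (T.l 0) (T.l 0))) (T.a (T.a (T.l 0) (T.b (T.l 0) (T.l 0))) (T.b (T.l 0) (T.b (T.l 0) (T.l 0))))) (T.a (T.a (T.b (T.l 816) (T.c (T.l 880) (T.l 816))) (T.a (T.l 816) (T.a (T.l 816) (T.b (T.l 816) (T.b (T.l 816) (T.l 816)))))) (T.a (T.a (T.b (T.b (T.l 816) (T.l 816)) (T.a (T.b (T.l 816) (T.l 816)) (T.l 816))) (T.b (T.l 0) (T.b (T.l 816) (T.l 816)))) (T.b (T.b (T.l 0) (T.l 0)) (T.a (T.b (T.l 816) (T.l 816)) (T.b (T.l 816) (T.l 816)))))))), by decide +kernel⟩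

def A202E_120 :
    ∃ t, chk3 (onCell 0 67108864 0 1073741824 536870912 50465866 (corW 3 c0B eng mog cA202E gB1q2 gB2q0 gB0q2 gB1q2 dB1q2 dB2q0 dB0q2 dB1q2 true true)) t 1 1 1 = true :=
  ⟨(T.l 2), by decide +kernel⟩

def A202E_121 :
    ∃ t, chk3 (onCell 0 67108864 0 1073741824 536870912 50465866 (corW 3 c0B eng mog cA202E gB1q2 gB2q0 gB1q2 gB2q2 dB1q2 dB2q0 dB1q2 dB2q2 true true)) t 1 1 1 = true :=
  ⟨(T.l 2), by decide +kernel⟩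

def A202E_122 :
    ∃ t, chk3 (onCell 0 67108864 0 1073741824 536870912 50465866 (corW 3 c0B eng mog cA202E gB1q2 gB2q0 gB2q2 gB3q2 dB1q2 dB2q0 dB2q2 dB3q2 true true)) t 1 1 1 = true :=
  ⟨(T.l 2), by decide +kernel⟩

def A202E_123 :
    ∃ t, chk3 (onCell 0 67108864 0 1073741824 536870912 50465866 (corW 3 c0B eng mog cA202E gB1q2 gB2q0 gB3q2 gB4q2 dB1q2 dB2q0 dB3q2 dB4q2 true false)) t 1 1 1 = true :=
  ⟨(T.b (T.b (T.a (T.a (T.l 204) (T.l 204)) (T.l 204)) (T.b (T.a (T.a (T.l 204) (T.l 0)) (T.l 0)) (T.a (T.a (T.l 204) (T.l 0)) (T.a (T.l 204) (T.l 0))))) (T.b (T.a (T.a (T.l 0) (T.l 0)) (T.a (T.b (T.l 0) (T.l 0)) (T.b (T.l 0) (T.l 0)))) (T.a (T.a (T.b (T.l 816) (T.c (T.b (T.l 816) (T.l 816)) (T.l 816))) (T.a (T.l 816) (T.a (T.l 816) (T.b (T.l 0) (T.b (T.l 816) (T.l 816)))))) (T.a (T.b (T.a (T.l 0) (T.l 0)) (T.a (T.a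 (T.b (T.l 816) (T.l 816)) (T.l 816)) (T.b (T.l 816) (T.l 816)))) (T.b (T.l 64) (T.a (T.b (T.l 816) (T.l 816)) (T.b (T.l 816) (T.l 816)))))))), by decide +kernel⟩

def A202E_130 :
    ∃ t, chk3 (onCell 0 67108864 0 1073741824 536870912 50465866 (corW 3 c0B eng mog cA202E gB1q2 gB3q0 gB0q2 gB1q2 dB1q2 dB3q0 dB0q2 dB1q2 true true)) t 1 1 1 = true :=
  ⟨(T.l 2), by decide +kernel⟩

def A202E_131 :
    ∃ t, chk3 (onCell 0 67108864 0 1073741824 536870912 50465866 (corW 3 c0B eng mog cA202E gB1q2 gB3q0 gB1q2 gB2q2 dB1q2 dB3q0 dB1q2 dB2q2 true true)) t 1 1 1 = true :=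
  ⟨(T.l 2), by decide +kernel⟩

def A202E_132 :
    ∃ t, chk3 (onCell 0 67108864 0 1073741824 536870912 50465866 (corW 3 c0B eng mog cA202E gB1q2 gB3q0 gB2q2 gB3q2 dB1q2 dB3q0 dB2q2 dB3q2 true true)) t 1 1 1 = true :=
  ⟨(T.l 2), by decide +kernel⟩

end Pool.Agent.Strip051.G.I5000_5470.Tab.CW
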