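import Pool.Agent.Strip051.G.I5000_5470.Gn
import Pool.Agent.Strip051.PB.Corns
import Pool.Agent.Strip051.PB.CornW

/-! # Certificates of the aligned corners (generated) -/

set_option linter.all false

namespace Pool.Agent.Strip051.G.I5000_5470.Tab.CW

open Pool.Agent.Strip051.PB

def A202E_133 :
    ∃ t, chk3 (onCell 0 67108864 0 1073741824 536870912 50465866 (corW 3 c0B eng mog cA202E gB1q2 gB3q0 gB3q2 gB4q2 dB1q2 dB3q0 dB3q2 dB4q2 true false)) t 1 1 1 = true :=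
  ⟨(T.b (T.b (T.a (T.a (T.l 204) (T.l 204)) (T.l 204)) (T.a (T.a (T.l 204) (T.l 204)) (T.a (T.l 204) (T.b (T.l 204) (T.l 204))))) (T.b (T.a (T.a (T.l 0) (T.l 0)) (T.a (T.b (T.l 204) (T.l 0)) (T.b (T.l 0) (T.l 0)))) (T.a (T.a (T.b (T.l 0) (T.c (T.b (T.l 816) (T.l 816)) (T.l 816))) (T.a (T.l 0) (T.a (T.l 0) (T.b (T.l 0) (T.b (T.l 816) (T.l 816)))))) (T.a (T.b (T.b (T.l 0) (T.l 0)) (T.a (T.a (T.b (T.l 816) (T.l 816)) (T.l 816)) (T.b (T.l 816) (T.l 816)))) (T.b (T.l 0) (T.a (T.b (T.l 816) (T.l 816)) (T.b (T.l 0) (T.l 816)))))))), by decide +kernel⟩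

def A202E_220 :
    ∃ t, chk3 (onCell 0 67108864 0 1073741824 536870912 50465866 (corW 3 c0B eng mog cA202E gB2q2 gB2q0 gB0q2 gB1q2 dB2q2 dB2q0 dB0q2 dB1q2 true true)) t 1 1 1 = true :=
  ⟨(T.l 2), by decide +kernel⟩

def A202E_221 :
    ∃ t, chk3 (onCell 0 67108864 0 1073741824 536870912 50465866 (corW 3 c0B eng mog cA202E gB2q2 gB2q0 gB1q2 gB2q2 dB2q2 dB2q0 dB1q2 dB2q2 true true)) t 1 1 1 = true :=
  ⟨(T.l 2), by decide +kernel⟩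

def A202E_222 :
    ∃ t, chk3 (onCell 0 67108864 0 1073741824 536870912 50465866 (corW 3 c0B eng mog cA202E gB2q2 gB2q0 gB2q2 gB3q2 dB2q2 dB2q0 dB2q2 dB3q2 true true)) t 1 1 1 = true :=
  ⟨(T.l 2), by decide +kernel⟩

def A202E_223 :
    ∃ t, chk3 (onCell 0 67108864 0 1073741824 536870912 50465866 (corW 3 c0B eng mog cA202E gB2q2 gB2q0 gB3q2 gB4q2 dB2q2 dB2q0 dB3q2 dB4q2 true false)) t 1 1 1 = true :=
  ⟨(T.b (T.b (T.a (T.a (T.l 204) (T.l 204)) (T.l 204)) (T.b (T.a (T.a (T.l 204) (T.l 0)) (T.l 0)) (T.a (T.a (T.l 204) (T.l 0)) (T.b (T.l 0) (T.l 0))))) (T.b (T.a (T.a (T.l 0) (T.l 0)) (T.a (T.b (T.l 0) (T.l 0)) (T.b (T.l 0) (T.l 0)))) (T.a (T.a (T.b (T.l 816) (T.c (T.l 816) (T.b (T.l 816) (T.l 816)))) (T.a (T.b (T.l 816) (T.l 816)) (T.b (T.l 816) (T.a (T.l 816) (T.a (T.l 816) (T.b (T.l 816) (T.l 816))))))) (T.a (T.b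 (T.a (T.l 0) (T.l 0)) (T.a (T.b (T.l 816) (T.a (T.l 816) (T.l 816))) (T.b (T.l 816) (T.c (T.l 816) (T.l 816))))) (T.b (T.b (T.l 0) (T.l 816)) (T.a (T.b (T.l 816) (T.b (T.l 816) (T.l 816))) (T.b (T.l 816) (T.b (T.l 816) (T.l 816))))))))), by decide +kernel⟩

def A202E_230 :
    ∃ t, chk3 (onCell 0 67108864 0 1073741824 536870912 50465866 (corW 3 c0B eng mog cA202E gB2q2 gB3q0 gB0q2 gB1q2 dB2q2 dB3q0 dB0q2 dB1q2 true true)) t 1 1 1 = true :=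
  ⟨(T.l 2), by decide +kernel⟩

def A202E_231 :
    ∃ t, chk3 (onCell 0 67108864 0 1073741824 536870912 50465866 (corW 3 c0B eng mog cA202E gB2q2 gB3q0 gB1q2 gB2q2 dB2q2 dB3q0 dB1q2 dB2q2 true true)) t 1 1 1 = true :=
  ⟨(T.l 2), by decide +kernel⟩

def A202E_232 :
    ∃ t, chk3 (onCell 0 67108864 0 1073741824 536870912 50465866 (corW 3 c0B eng mog cA202E gB2q2 gB3q0 gB2q2 gB3q2 dB2q2 dB3q0 dB2q2 dB3q2 true true)) t 1 1 1 = true :=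
  ⟨(T.l 2), by decide +kernel⟩

def A202E_233 :
    ∃ t, chk3 (onCell 0 67108864 0 1073741824 536870912 50465866 (corW 3 c0B eng mog cA202E gB2q2 gB3q0 gB3q2 gB4q2 dB2q2 dB3q0 dB3q2 dB4q2 true false)) t 1 1 1 = true :=
  ⟨(T.b (T.b (T.a (T.a (T.l 204) (T.l 204)) (T.l 204)) (T.a (T.a (T.l 204) (T.l 0)) (T.a (T.l 204) (T.l 0)))) (T.a (T.a (T.b (T.l 0) (T.b (T.l 0) (T.c (T.l 816) (T.b (T.l 816) (T.l 816))))) (T.b (T.l 0) (T.a (T.c (T.l 0) (T.l 816)) (T.b (T.l 0) (T.a (T.l 816) (T.b (T.l 816) (T.b (T.l 816) (T.l 816)))))))) (T.b (T.a (T.b (T.l 0) (T.l 0)) (T.l 0)) (T.a (T.b (T.b (T.l 0) (T.l 0)) (T.a (T.b (T.l 816) (T.a (T.l 880) (T.l 816))) (T.b (T.l 816) (T.c (T.l 816) (T.l 880))))) (T.b (T.l 0) (T.b (T.l 816) (T.a (T.b (T.l 816) (T.l 816)) (T.b (T.l 816) (T.l 816))))))))), by decide +kernel⟩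

def A202E_330 :
    ∃ t, chk3 (onCell 0 67108864 0 1073741824 536870912 50465866 (corW 3 c0B eng mog cA202E gB3q2 gB3q0 gB0q2 gB1q2 dB3q2 dB3q0 dB0q2 dB1q2 true true)) t 1 1 1 = true :=
  ⟨(T.l 2), by decide +kernel⟩

def A202E_331 :
    ∃ t, chk3 (onCell 0 67108864 0 1073741824 536870912 50465866 (corW 3 c0B eng mog cA202E gB3q2 gB3q0 gB1q2 gB2q2 dB3q2 dB3q0 dB1q2 dB2q2 true true)) t 1 1 1 = true :=
  ⟨(T.l 2), by decide +kernel⟩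

def A202E_332 :
    ∃ t, chk3 (onCell 0 67108864 0 1073741824 536870912 50465866 (corW 3 c0B eng mog cA202E gB3q2 gB3q0 gB2q2 gB3q2 dB3q2 dB3q0 dB2q2 dB3q2 true true)) t 1 1 1 = true :=
  ⟨(T.l 2), by decide +kernel⟩

def A202E_333 :
    ∃ t, chk3 (onCell 0 67108864 0 1073741824 536870912 50465866 (corW 3 c0B eng mog cA202E gB3q2 gB3q0 gB3q2 gB4q2 dB3q2 dB3q0 dB3q2 dB4q2 true false)) t 1 1 1 = true :=
  ⟨(T.b (T.b (T.a (T.a (T.l 204) (T.l 204)) (T.l 204)) (T.a (T.a (T.l 204) (T.l 204)) (T.b (T.l 204) (T.l 0)))) (T.b (T.a (T.a (T.l 0) (T.l 0)) (T.a (T.l 0) (T.l 0))) (T.a (T.a (T.b (T.l 0) (T.l 816)) (T.a (T.l 0) (T.b (T.l 0) (T.a (T.l 816) (T.l 816))))) (T.a (T.b (T.l 0) (T.a (T.a (T.l 816) (T.l 880)) (T.b (T.l 816) (T.l 816)))) (T.b (T.l 0) (T.b (T.l 816) (T.a (T.l 816) (T.l 816)))))))), by decide +kernel⟩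

def A202R_005_1_2_1 :
    ∃ t, chk3 (onCell 0 67108864 0 1073741824 536870912 50465866 (corW 3 c0B eng mog cA202R gB0q2 gB0q0 gB5q2 gB6q2 dB0q2 dB0q0 dB5q2 dB6q2 false true)) t 1 2 1 = true :=
  ⟨(T.b (T.l 2) (T.b (T.b (T.l 2) (T.b (T.b (T.a (T.l 2) (T.b (T.l 2) (T.b (T.l 2) (T.b (T.l 2) (T.a (T.a (T.l 2) (T.b (T.l 2) (T.l 0))) (T.c (T.l 0) (T.l 0))))))) (T.a (T.b (T.b (T.a (T.a (T.l 2) (T.b (T.l 2) (T.b (T.l 2) (T.l 0)))) (T.b (T.a (T.l 2) (T.b (T.l 2) (T.l 0))) (T.c (T.l 0) (T.l 0)))) (T.a (T.c (T.l 0) (T.l 0)) (T.l 0))) (T.a (T.l 816) (T.l 816))) (T.a (T.a (T.c (T.c (T.l 0) (T.l 0)) (T.l 0)) (T.l 0)) (T.l 0)))) (T.a (T.a (T.c (T.l 816) (T.l 816)) (T.c (T.l 816) (T.l 816))) (T.a (T.l 880) (T.l 816))))) (T.a (T.b (T.a (T.b (T.c (T.l 816) (T.l 816)) (T.c (T.l 816) (T.l 816))) (T.b (T.l 816) (T.l 816))) (T.a (T.a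 (T.b (T.l 816) (T.l 816)) (T.l 880)) (T.b (T.l 816) (T.l 816)))) (T.a (T.b (T.b (T.l 816) (T.l 816)) (T.l 880)) (T.b (T.b (T.l 816) (T.l 816)) (T.a (T.l 816) (T.b (T.l 816) (T.l 816)))))))), by decide +kernel⟩

def A202R_005_1_3_1 :
    ∃ t, chk3 (onCell 0 67108864 0 1073741824 536870912 50465866 (corW 3 c0B eng mog cA202R gB0q2 gB0q0 gB5q2 gB6q2 dB0q2 dB0q0 dB5q2 dB6q2 false true)) t 1 3 1 = true :=
  ⟨(T.b (T.a (T.b (T.a (T.b (T.c (T.b (T.l 816) (T.l 816)) (T.l 816)) (T.a (T.b (T.l 816) (T.l 816)) (T.l 816))) (T.b (T.b (T.l 816) (T.l 816)) (T.l 880))) (T.a (T.b (T.a (T.l 816) (T.l 816)) (T.a (T.l 816) (T.l 816))) (T.b (T.l 880) (T.l 880)))) (T.a (T.b (T.b (T.l 816) (T.l 816)) (T.a (T.l 816) (T.b (T.b (T.l 816) (T.l 816)) (T.l 880)))) (T.b (T.b (T.a (T.l 816) (T.l 816)) (T.a (T.l 816) (T.b (T.l 816) (T.l 816))))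 (T.a (T.b (T.b (T.l 816) (T.l 816)) (T.b (T.l 816) (T.l 816))) (T.b (T.b (T.l 816) (T.l 816)) (T.l 880)))))) (T.b (T.a (T.a (T.a (T.b (T.l 816) (T.l 816)) (T.b (T.l 816) (T.l 816))) (T.b (T.l 880) (T.b (T.l 816) (T.l 816)))) (T.a (T.a (T.a (T.l 816) (T.b (T.l 816) (T.l 816))) (T.b (T.a (T.l 816) (T.l 816)) (T.a (T.l 816) (T.l 816)))) (T.a (T.b (T.b (T.l 816) (T.l 816)) (T.b (T.l 816) (T.l 816))) (T.b (T.l 880) (T.l 880))))) (T.a (T.a (T.a (T.b (T.l 816) (T.l 816)) (T.b (T.l 816) (T.l 816))) (T.a (T.b (T.l 816) (T.l 816)) (T.a (T.l 816) (T.b (T.l 816) (T.l 816))))) (T.a (T.a (T.a (T.b (T.l 816) (T.l 816)) (T.b (T.l 816) (T.b (T.l 816) (T.l 816)))) (T.a (T.b (T.l 816) (T.l 816)) (T.b (T.l 816) (T.l 816)))) (T.a (T.b (T.b (T.l 816) (T.l 816)) (T.b (T.l 816) (T.l 816))) (T.b (T.b (T.l 816) (T.l 816)) (T.b (T.l 816) (T.l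 816)))))))), by decide +kernel⟩

theorem A202R_005 :
    ∃ t, chk3 (onCell 0 67108864 0 1073741824 536870912 50465866 (corW 3 c0B eng mog cA202R gB0q2 gB0q0 gB5q2 gB6q2 dB0q2 dB0q0 dB5q2 dB6q2 false true)) t 1 1 1 = true :=
  ex3_b A202R_005_1_2_1 A202R_005_1_3_1

def A202R_015 :
    ∃ t, chk3 (onCell 0 67108864 0 1073741824 536870912 50465866 (corW 3 c0B eng mog cA202R gB0q2 gB1q0 gB5q2 gB6q2 dB0q2 dB1q0 dB5q2 dB6q2 false true)) t 1 1 1 = true :=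
  ⟨(T.b (T.b (T.l 2) (T.b (T.l 2) (T.a (T.l 0) (T.a (T.l 0) (T.b (T.l 204) (T.l 0)))))) (T.b (T.a (T.b (T.l 0) (T.l 816)) (T.a (T.b (T.l 816) (T.a (T.l 816) (T.l 816))) (T.b (T.b (T.l 0) (T.l 0)) (T.a (T.b (T.l 816) (T.l 816)) (T.l 816))))) (T.b (T.a (T.a (T.l 816) (T.l 816)) (T.a (T.a (T.b (T.l 816) (T.l 816)) (T.b (T.l 816) (T.l 816))) (T.a (T.b (T.l 816) (T.l 816)) (T.b (T.l 816) (T.l 816))))) (T.a (T.a (T.b (T.l 816) (T.a (T.l 816) (T.l 816))) (T.a (T.b (T.l 816) (T.l 816)) (T.a (T.l 816) (T.b (T.l 816) (T.l 816))))) (T.a (T.a (T.b (T.l 816) (T.a (T.l 816) (T.b (T.l 816) (T.l 816)))) (T.b (T.b (T.l 816) (T.l 816)) (T.a (T.l 816) (T.l 816)))) (T.a (T.b (T.l 816) (T.b (T.l 816) (T.l 816))) (T.b (T.l 816) (T.b (T.l 816) (T.l 816))))))))), by decide +kernel⟩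

def A202R_025 :
    ∃ t, chk3 (onCell 0 67108864 0 1073741824 536870912 50465866 (corW 3 c0B eng mog cA202R gB0q2 gB2q0 gB5q2 gB6q2 dB0q2 dB2q0 dB5q2 dB6q2 false true)) t 1 1 1 = true :=
  ⟨(T.b (T.b (T.l 2) (T.b (T.l 2) (T.a (T.l 2) (T.a (T.l 2) (T.l 204))))) (T.b (T.a (T.l 0) (T.a (T.b (T.l 204) (T.l 0)) (T.b (T.l 0) (T.l 0)))) (T.b (T.a (T.l 816) (T.a (T.a (T.l 0) (T.l 816)) (T.b (T.l 0) (T.l 816)))) (T.a (T.a (T.b (T.l 816) (T.a (T.l 816) (T.l 816))) (T.a (T.b (T.l 816) (T.l 816)) (T.a (T.l 816) (T.b (T.l 816) (T.l 816))))) (T.a (T.a (T.b (T.l 816) (T.a (T.l 816) (T.b (T.l 816) (T.l 816)))) (T.b (T.l 816) (T.a (T.l 816) (T.l 816)))) (T.a (T.b (T.l 816) (T.b (T.l 816) (T.l 816))) (T.b (T.l 816) (T.b (T.l 816) (T.l 816))))))))), by decide +kernel⟩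

def A202R_035 :
    ∃ t, chk3 (onCell 0 67108864 0 1073741824 536870912 50465866 (corW 3 c0B eng mog cA202R gB0q2 gB3q0 gB5q2 gB6q2 dB0q2 dB3q0 dB5q2 dB6q2 false true)) t 1 1 1 = true :=
  ⟨(T.b (T.l 2) (T.b (T.a (T.l 0) (T.a (T.b (T.l 204) (T.l 0)) (T.b (T.l 204) (T.l 0)))) (T.b (T.a (T.l 0) (T.a (T.b (T.l 0) (T.l 0)) (T.b (T.l 0) (T.l 0)))) (T.a (T.a (T.b (T.l 816) (T.a (T.b (T.l 816) (T.l 816)) (T.l 816))) (T.a (T.b (T.l 816) (T.l 816)) (T.a (T.l 816) (T.b (T.l 816) (T.l 816))))) (T.a (T.a (T.b (T.l 816) (T.a (T.l 816) (T.b (T.l 816) (T.l 816)))) (T.b (T.l 816) (T.a (T.l 880) (T.l 816)))) (T.b (T.b (T.l 816) (T.l 816)) (T.a (T.b (T.l 816) (T.l 816)) (T.b (T.l 816) (T.l 816))))))))), by decide +kernel⟩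

def A202R_115 :
    ∃ t, chk3 (onCell 0 67108864 0 1073741824 536870912 50465866 (corW 3 c0B eng mog cA202R gB1q2 gB1q0 gB5q2 gB6q2 dB1q2 dB1q0 dB5q2 dB6q2 false true)) t 1 1 1 = true :=
  ⟨(T.b (T.b (T.l 2) (T.b (T.l 2) (T.a (T.l 204) (T.a (T.l 204) (T.b (T.l 204) (T.l 0)))))) (T.b (T.a (T.l 0) (T.a (T.b (T.l 0) (T.b (T.l 0) (T.l 0))) (T.b (T.b (T.l 0) (T.l 0)) (T.b (T.l 0) (T.l 0))))) (T.b (T.a (T.l 816) (T.a (T.a (T.l 816) (T.l 816)) (T.b (T.l 816) (T.l 816)))) (T.a (T.a (T.l 816) (T.a (T.l 816) (T.a (T.l 816) (T.l 816)))) (T.a (T.a (T.b (T.l 816) (T.l 816)) (T.b (T.l 816) (T.l 816))) (T.a (T.l 816) (T.b (T.l 816) (T.l 816)))))))), by decide +kernel⟩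

def A202R_125 :
    ∃ t, chk3 (onCell 0 67108864 0 1073741824 536870912 50465866 (corW 3 c0B eng mog cA202R gB1q2 gB2q0 gB5q2 gB6q2 dB1q2 dB2q0 dB5q2 dB6q2 false true)) t 1 1 1 = true :=
  ⟨(T.b (T.l 2) (T.b (T.a (T.l 0) (T.a (T.b (T.l 204) (T.l 0)) (T.b (T.l 0) (T.l 0)))) (T.b (T.a (T.l 816) (T.a (T.b (T.l 0) (T.l 0)) (T.l 0))) (T.a (T.a (T.l 816) (T.a (T.l 816) (T.a (T.l 816) (T.l 816)))) (T.a (T.a (T.b (T.l 816) (T.l 816)) (T.b (T.l 816) (T.l 816))) (T.b (T.l 816) (T.a (T.l 816) (T.l 816)))))))), by decide +kernel⟩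

def A202R_135 :
    ∃ t, chk3 (onCell 0 67108864 0 1073741824 536870912 50465866 (corW 3 c0B eng mog cA202R gB1q2 gB3q0 gB5q2 gB6q2 dB1q2 dB3q0 dB5q2 dB6q2 false true)) t 1 1 1 = true :=
  ⟨(T.b (T.l 2) (T.b (T.b (T.l 2) (T.a (T.l 204) (T.a (T.l 0) (T.l 0)))) (T.b (T.a (T.l 0) (T.a (T.l 0) (T.l 0))) (T.a (T.a (T.l 816) (T.a (T.l 816) (T.a (T.l 816) (T.l 816)))) (T.a (T.b (T.l 0) (T.a (T.l 816) (T.l 816))) (T.b (T.l 0) (T.a (T.l 816) (T.l 816)))))))), by decide +kernel⟩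

def A202R_225 :
    ∃ t, chk3 (onCell 0 67108864 0 1073741824 536870912 50465866 (corW 3 c0B eng mog cA202R gB2q2 gB2q0 gB5q2 gB6q2 dB2q2 dB2q0 dB5q2 dB6q2 false true)) t 1 1 1 = true :=
  ⟨(T.b (T.l 2) (T.b (T.b (T.l 2) (T.a (T.l 204) (T.a (T.l 0) (T.l 0)))) (T.b (T.a (T.l 0) (T.a (T.l 0) (T.l 0))) (T.a (T.a (T.l 816) (T.a (T.l 816) (T.l 0))) (T.a (T.b (T.l 0) (T.l 0)) (T.l 0)))))), by decide +kernel⟩

def A202R_235 :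
    ∃ t, chk3 (onCell 0 67108864 0 1073741824 536870912 50465866 (corW 3 c0B eng mog cA202R gB2q2 gB3q0 gB5q2 gB6q2 dB2q2 dB3q0 dB5q2 dB6q2 false true)) t 1 1 1 = true :=
  ⟨(T.b (T.l 2) (T.b (T.l 2) (T.b (T.a (T.l 0) (T.a (T.l 0) (T.l 0))) (T.a (T.a (T.l 0) (T.a (T.l 0) (T.l 0))) (T.a (T.b (T.l 0) (T.l 0)) (T.l 0)))))), by decide +kernel⟩

def A202R_335 :
    ∃ t, chk3 (onCell 0 67108864 0 1073741824 536870912 50465866 (corW 3 c0B eng mog cA202R gB3q2 gB3q0 gB5q2 gB6q2 dB3q2 dB3q0 dB5q2 dB6q2 false true)) t 1 1 1 = true :=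
  ⟨(T.l 2), by decide +kernel⟩

def B011E_000 :
    ∃ t, chk3 (onCell 0 67108864 0 1073741824 536870912 50465866 (corW 3 c0B eng mog cB011E gB0q0 gB0q1 gB0q1 gB1q1 dB0q0 dB0q1 dB0q1 dB1q1 true false)) t 1 1 1 = true :=
  ⟨(T.l 1), by decide +kernel⟩

def B011E_100 :
    ∃ t, chk3 (onCell 0 67108864 0 1073741824 536870912 50465866 (corW 3 c0B eng mog cB011E gB1q0 gB0q1 gB0q1 gB1q1 dB1q0 dB0q1 dB0q1 dB1q1 true false)) t 1 1 1 = true :=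
  ⟨(T.l 1), by decide +kernel⟩

def B011E_200 :
    ∃ t, chk3 (onCell 0 67108864 0 1073741824 536870912 50465866 (corW 3 c0B eng mog cB011E gB2q0 gB0q1 gB0q1 gB1q1 dB2q0 dB0q1 dB0q1 dB1q1 true false)) t 1 1 1 = true :=
  ⟨(T.l 1), by decide +kernel⟩

def B011E_300 :
    ∃ t, chk3 (onCell 0 67108864 0 1073741824 536870912 50465866 (corW 3 c0B eng mog cB011E gB3q0 gB0q1 gB0q1 gB1q1 dB3q0 dB0q1 dB0q1 dB1q1 true false)) t 1 1 1 = true :=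
  ⟨(T.b (T.l 1) (T.l 1)), by decide +kernel⟩

def B011L_040 :
    ∃ t, chk3 (onCell 0 67108864 0 1073741824 536870912 50465866 (corW 3 c0B eng mog cB011L gB0q0 gB4q1 gB0q1 gB1q1 dB0q0 dB4q1 dB0q1 dB1q1 true false)) t 1 1 1 = true :=
  ⟨(T.l 1), by decide +kernel⟩

def B011L_050 :
    ∃ t, chk3 (onCell 0 67108864 0 1073741824 536870912 50465866 (corW 3 c0B eng mog cB011L gB0q0 gB5q1 gB0q1 gB1q1 dB0q0 dB5q1 dB0q1 dB1q1 true false)) t 1 1 1 = true :=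
  ⟨(T.l 1), by decide +kernel⟩

def B011L_060 :
    ∃ t, chk3 (onCell 0 67108864 0 1073741824 536870912 50465866 (corW 3 c0B eng mog cB011L gB0q0 gB6q1 gB0q1 gB1q1 dB0q0 dB6q1 dB0q1 dB1q1 true false)) t 1 1 1 = true :=
  ⟨(T.l 1), by decide +kernel⟩

def B011L_140 :
    ∃ t, chk3 (onCell 0 67108864 0 1073741824 536870912 50465866 (corW 3 c0B eng mog cB011L gB1q0 gB4q1 gB0q1 gB1q1 dB1q0 dB4q1 dB0q1 dB1q1 true false)) t 1 1 1 = true :=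
  ⟨(T.l 1), by decide +kernel⟩

def B011L_150 :
    ∃ t, chk3 (onCell 0 67108864 0 1073741824 536870912 50465866 (corW 3 c0B eng mog cB011L gB1q0 gB5q1 gB0q1 gB1q1 dB1q0 dB5q1 dB0q1 dB1q1 true false)) t 1 1 1 = true :=
  ⟨(T.l 1), by decide +kernel⟩

def B011L_160 :
    ∃ t, chk3 (onCell 0 67108864 0 1073741824 536870912 50465866 (corW 3 c0B eng mog cB011L gB1q0 gB6q1 gB0q1 gB1q1 dB1q0 dB6q1 dB0q1 dB1q1 true false)) t 1 1 1 = true :=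
  ⟨(T.l 1), by decide +kernel⟩

def B011L_240 :
    ∃ t, chk3 (onCell 0 67108864 0 1073741824 536870912 50465866 (corW 3 c0B eng mog cB011L gB2q0 gB4q1 gB0q1 gB1q1 dB2q0 dB4q1 dB0q1 dB1q1 true false)) t 1 1 1 = true :=
  ⟨(T.l 1), by decide +kernel⟩

def B011L_250 :
    ∃ t, chk3 (onCell 0 67108864 0 1073741824 536870912 50465866 (corW 3 c0B eng mog cB011L gB2q0 gB5q1 gB0q1 gB1q1 dB2q0 dB5q1 dB0q1 dB1q1 true false)) t 1 1 1 = true :=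
  ⟨(T.l 1), by decide +kernel⟩

def B011L_260 :
    ∃ t, chk3 (onCell 0 67108864 0 1073741824 536870912 50465866 (corW 3 c0B eng mog cB011L gB2q0 gB6q1 gB0q1 gB1q1 dB2q0 dB6q1 dB0q1 dB1q1 true false)) t 1 1 1 = true :=
  ⟨(T.l 1), by decide +kernel⟩

def B011L_340 :
    ∃ t, chk3 (onCell 0 67108864 0 1073741824 536870912 50465866 (corW 3 c0B eng mog cB011L gB3q0 gB4q1 gB0q1 gB1q1 dB3q0 dB4q1 dB0q1 dB1q1 true false)) t 1 1 1 = true :=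
  ⟨(T.l 1), by decide +kernel⟩

def B011L_350 :
    ∃ t, chk3 (onCell 0 67108864 0 1073741824 536870912 50465866 (corW 3 c0B eng mog cB011L gB3q0 gB5q1 gB0q1 gB1q1 dB3q0 dB5q1 dB0q1 dB1q1 true false)) t 1 1 1 = true :=
  ⟨(T.l 1), by decide +kernel⟩

def B011L_360 :
    ∃ t, chk3 (onCell 0 67108864 0 1073741824 536870912 50465866 (corW 3 c0B eng mog cB011L gB3q0 gB6q1 gB0q1 gB1q1 dB3q0 dB6q1 dB0q1 dB1q1 true false)) t 1 1 1 = true :=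
  ⟨(T.l 1), by decide +kernel⟩

def B011R_003 :
    ∃ t, chk3 (onCell 0 67108864 0 1073741824 536870912 50465866 (corW 3 c0B eng mog cB011R gB0q0 gB0q1 gB3q1 gB4q1 dB0q0 dB0q1 dB3q1 dB4q1 false true)) t 1 1 1 = true :=
  ⟨(T.b (T.b (T.b (T.b (T.a (T.a (T.l 204) (T.l 204)) (T.a (T.l 460) (T.l 460))) (T.b (T.c (T.a (T.l 204) (T.l 204)) (T.l 204)) (T.b (T.a (T.l 460) (T.a (T.l 204) (T.l 204))) (T.l 2)))) (T.l 2)) (T.l 2)) (T.l 2)), by decide +kernel⟩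

def B011R_004 :
    ∃ t, chk3 (onCell 0 67108864 0 1073741824 536870912 50465866 (corW 3 c0B eng mog cB011R gB0q0 gB0q1 gB4q1 gB5q1 dB0q0 dB0q1 dB4q1 dB5q1 true true)) t 1 1 1 = true :=
  ⟨(T.b (T.b (T.b (T.b (T.l 1) (T.b (T.l 1) (T.a (T.l 460) (T.a (T.l 204) (T.l 204))))) (T.b (T.a (T.b (T.l 220) (T.l 220)) (T.b (T.l 204) (T.l 204))) (T.b (T.a (T.a (T.l 204) (T.l 204)) (T.l 220)) (T.b (T.a (T.a (T.l 204) (T.l 204)) (T.l 204)) (T.a (T.l 2) (T.c (T.l 204) (T.l 204))))))) (T.l 2)) (T.l 2)), by decide +kernel⟩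

def B011R_005 :
    ∃ t, chk3 (onCell 0 67108864 0 1073741824 536870912 50465866 (corW 3 c0B eng mog cB011R gB0q0 gB0q1 gB5q1 gB6q1 dB0q0 dB0q1 dB5q1 dB6q1 true true)) t 1 1 1 = true :=
  ⟨(T.b (T.b (T.b (T.l 1) (T.b (T.l 1) (T.b (T.l 1) (T.c (T.a (T.a (T.l 204) (T.l 204)) (T.l 204)) (T.a (T.a (T.l 204) (T.l 204)) (T.l 204)))))) (T.b (T.b (T.b (T.c (T.a (T.b (T.a (T.l 204) (T.l 204)) (T.a (T.l 204) (T.l 204))) (T.b (T.l 220) (T.a (T.l 204) (T.l 204)))) (T.a (T.l 220) (T.l 204))) (T.a (T.c (T.c (T.l 204) (T.l 204)) (T.a (T.l 204) (T.l 204))) (T.c (T.a (T.l 204) (T.l 204)) (T.a (T.l 204) (T.l 204))))) (T.b (T.b (T.a (T.c (T.a (T.l 204) (T.l 204)) (T.a (T.l 204) (T.l 204))) (T.c (T.a (T.l 204) (T.l 204)) (T.l 204))) (T.b (T.a (T.a (T.b (T.l 204) (T.b (T.c (T.l 0) (T.l 0)) (T.a (T.a (T.l 2) (T.b (T.b (T.l 0) (T.l 2))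 (T.l 2))) (T.b (T.l 0) (T.a (T.l 2) (T.a (T.l 2) (T.l 0))))))) (T.c (T.l 0) (T.a (T.l 0) (T.l 0)))) (T.a (T.l 0) (T.l 204))) (T.a (T.a (T.l 2) (T.b (T.b (T.a (T.l 2) (T.b (T.c (T.l 0) (T.l 0)) (T.l 2))) (T.l 2)) (T.l 2))) (T.b (T.a (T.b (T.c (T.l 0) (T.a (T.l 0) (T.l 0))) (T.a (T.l 2) (T.b (T.c (T.l 0) (T.c (T.l 0) (T.l 0))) (T.l 2)))) (T.a (T.c (T.l 0) (T.c (T.l 0) (T.a (T.c (T.l 0) (T.a (T.c (T.l 0) (T.b (T.l 204) (T.b (T.l 0) (T.l 2)))) (T.l 0))) (T.l 0)))) (T.l 0))) (T.a (T.l 2) (T.a (T.l 2) (T.a (T.l 2) (T.b (T.b (T.l 0) (T.l 2)) (T.l 2))))))))) (T.l 2))) (T.l 2))) (T.l 2)), by decide +kernel⟩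

def B011R_103 :
    ∃ t, chk3 (onCell 0 67108864 0 1073741824 536870912 50465866 (corW 3 c0B eng mog cB011R gB1q0 gB0q1 gB3q1 gB4q1 dB1q0 dB0q1 dB3q1 dB4q1 false true)) t 1 1 1 = true :=
  ⟨(T.b (T.b (T.l 2) (T.l 2)) (T.l 2)), by decide +kernel⟩

def B011R_104 :
    ∃ t, chk3 (onCell 0 67108864 0 1073741824 536870912 50465866 (corW 3 c0B eng mog cB011R gB1q0 gB0q1 gB4q1 gB5q1 dB1q0 dB0q1 dB4q1 dB5q1 true true)) t 1 1 1 = true :=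
  ⟨(T.b (T.b (T.l 4) (T.l 2)) (T.l 2)), by decide +kernel⟩

def B011R_105 :
    ∃ t, chk3 (onCell 0 67108864 0 1073741824 536870912 50465866 (corW 3 c0B eng mog cB011R gB1q0 gB0q1 gB5q1 gB6q1 dB1q0 dB0q1 dB5q1 dB6q1 true true)) t 1 1 1 = true :=
  ⟨(T.b (T.b (T.b (T.l 0) (T.l 0)) (T.b (T.b (T.l 816) (T.l 2)) (T.l 2))) (T.l 2)), by decide +kernel⟩

def B011R_203 :
    ∃ t, chk3 (onCell 0 67108864 0 1073741824 536870912 50465866 (corW 3 c0B eng mog cB011R gB2q0 gB0q1 gB3q1 gB4q1 dB2q0 dB0q1 dB3q1 dB4q1 false true)) t 1 1 1 = true :=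
  ⟨(T.l 2), by decide +kernel⟩

def B011R_204 :
    ∃ t, chk3 (onCell 0 67108864 0 1073741824 536870912 50465866 (corW 3 c0B eng mog cB011R gB2q0 gB0q1 gB4q1 gB5q1 dB2q0 dB0q1 dB4q1 dB5q1 true true)) t 1 1 1 = true :=
  ⟨(T.l 2), by decide +kernel⟩

def B011R_205 :
    ∃ t, chk3 (onCell 0 67108864 0 1073741824 536870912 50465866 (corW 3 c0B eng mog cB011R gB2q0 gB0q1 gB5q1 gB6q1 dB2q0 dB0q1 dB5q1 dB6q1 true true)) t 1 1 1 = true :=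
  ⟨(T.b (T.l 2) (T.l 2)), by decide +kernel⟩

def B011R_303 :
    ∃ t, chk3 (onCell 0 67108864 0 1073741824 536870912 50465866 (corW 3 c0B eng mog cB011R gB3q0 gB0q1 gB3q1 gB4q1 dB3q0 dB0q1 dB3q1 dB4q1 false true)) t 1 1 1 = true :=
  ⟨(T.l 2), by decide +kernel⟩

def B011R_304 :
    ∃ t, chk3 (onCell 0 67108864 0 1073741824 536870912 50465866 (corW 3 c0B eng mog cB011R gB3q0 gB0q1 gB4q1 gB5q1 dB3q0 dB0q1 dB4q1 dB5q1 true true)) t 1 1 1 = true :=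
  ⟨(T.l 2), by decide +kernel⟩

def B011R_305 :
    ∃ t, chk3 (onCell 0 67108864 0 1073741824 536870912 50465866 (corW 3 c0B eng mog cB011R gB3q0 gB0q1 gB5q1 gB6q1 dB3q0 dB0q1 dB5q1 dB6q1 true true)) t 1 1 1 = true :=
  ⟨(T.l 2), by decide +kernel⟩

def B012E_000_1_4_1 :
    ∃ t, chk3 (onCell 0 67108864 0 1073741824 536870912 50465866 (corW 3 c0B eng mog cB012E gB0q0 gB0q2 gB0q1 gB1q1 dB0q0 dB0q2 dB0q1 dB1q1 true false)) t 1 4 1 = true :=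
  ⟨(T.l 1), by decide +kernel⟩

def B012E_000_1_10_1 :
    ∃ t, chk3 (onCell 0 67108864 0 1073741824 536870912 50465866 (corW 3 c0B eng mog cB012E gB0q0 gB0q2 gB0q1 gB1q1 dB0q0 dB0q2 dB0q1 dB1q1 true false)) t 1 10 1 = true :=
  ⟨(T.l 1), by decide +kernel⟩

def B012E_000_1_22_1 :
    ∃ t, chk3 (onCell 0 67108864 0 1073741824 536870912 50465866 (corW 3 c0B eng mog cB012E gB0q0 gB0q2 gB0q1 gB1q1 dB0q0 dB0q2 dB0q1 dB1q1 true false)) t 1 22 1 = true :=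
  ⟨(T.l 1), by decide +kernel⟩

def B012E_000_1_46_1 :
    ∃ t, chk3 (onCell 0 67108864 0 1073741824 536870912 50465866 (corW 3 c0B eng mog cB012E gB0q0 gB0q2 gB0q1 gB1q1 dB0q0 dB0q2 dB0q1 dB1q1 true false)) t 1 46 1 = true :=
  ⟨(T.l 1), by decide +kernel⟩

def B012E_000_2_94_1 :
    ∃ t, chk3 (onCell 0 67108864 0 1073741824 536870912 50465866 (corW 3 c0B eng mog cB012E gB0q0 gB0q2 gB0q1 gB1q1 dB0q0 dB0q2 dB0q1 dB1q1 true false)) t 2 94 1 = true :=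
  ⟨(T.l 1), by decide +kernel⟩

def B012E_000_4_95_1 :
    ∃ t, chk3 (onCell 0 67108864 0 1073741824 536870912 50465866 (corW 3 c0B eng mog cB012E gB0q0 gB0q2 gB0q1 gB1q1 dB0q0 dB0q2 dB0q1 dB1q1 true false)) t 4 95 1 = true :=
  ⟨(T.b (T.l 1) (T.a (T.b (T.l 1) (T.a (T.b (T.l 1) (T.c (T.c (T.b (T.a (T.l 1) (T.b (T.a (T.l 1) (T.l 0)) (T.l 0))) (T.l 0)) (T.b (T.a (T.l 1) (T.b (T.a (T.l 1) (T.l 0)) (T.l 0))) (T.l 0))) (T.a (T.b (T.l 1) (T.l 0)) (T.a (T.b (T.a (T.l 1) (T.l 0)) (T.l 0)) (T.l 0))))) (T.b (T.b (T.a (T.l 1) (T.a (T.l 1) (T.b (T.l 1) (T.l 0)))) (T.a (T.a (T.l 1) (T.b (T.l 1) (T.l 0))) (T.l 0))) (T.l 0)))) (T.b (T.b (T.a (T.l 1) (T.a (T.l 1) (T.a (T.l 1) (T.a (T.l 1) (T.b (T.l 1) (T.c (T.l 0) (T.l 0))))))) (T.a (T.a (T.l 1) (T.b (T.l 1) (T.b (T.a (T.l 1) (T.l 0)) (T.l 0)))) (T.a (T.b (T.a (T.l 1) (T.c (T.l 0)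 (T.l 0))) (T.l 0)) (T.l 0)))) (T.a (T.a (T.c (T.l 0) (T.c (T.l 0) (T.l 0))) (T.l 0)) (T.l 0))))), by decide +kernel⟩

def B012E_000_5_95_1 :
    ∃ t, chk3 (onCell 0 67108864 0 1073741824 536870912 50465866 (corW 3 c0B eng mog cB012E gB0q0 gB0q2 gB0q1 gB1q1 dB0q0 dB0q2 dB0q1 dB1q1 true false)) t 5 95 1 = true :=
  ⟨(T.a (T.c (T.a (T.b (T.l 1) (T.b (T.b (T.b (T.a (T.l 1) (T.c (T.l 0) (T.l 0))) (T.l 0)) (T.l 0)) (T.l 0))) (T.b (T.b (T.l 1) (T.b (T.l 1) (T.b (T.a (T.l 1) (T.b (T.l 1) (T.l 0))) (T.a (T.a (T.l 1) (T.l 0)) (T.l 0))))) (T.l 0))) (T.b (T.b (T.l 1) (T.a (T.l 1) (T.b (T.l 1) (T.b (T.a (T.l 1) (T.a (T.l 1) (T.a (T.l 1) (T.l 0)))) (T.a (T.a (T.l 1) (T.l 0)) (T.l 0)))))) (T.a (T.b (T.b (T.a (T.b (T.l 1) (T.l 0)) (T.c (T.l 0) (T.c (T.l 0) (T.c (T.l 0) (T.l 0))))) (T.l 0)) (T.l 0)) (T.l 0)))) (T.b (T.b (T.a (T.l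 1) (T.a (T.l 1) (T.a (T.l 1) (T.b (T.l 1) (T.a (T.l 1) (T.b (T.l 1) (T.l 0))))))) (T.a (T.c (T.b (T.a (T.l 1) (T.b (T.l 1) (T.l 0))) (T.l 0)) (T.b (T.a (T.l 1) (T.b (T.l 1) (T.c (T.l 0) (T.l 0)))) (T.l 0))) (T.a (T.b (T.b (T.a (T.l 1) (T.l 0)) (T.l 0)) (T.l 0)) (T.l 0)))) (T.c (T.l 0) (T.l 0)))), by decide +kernel⟩

def B012E_000_3_47_1 :
    ∃ t, chk3 (onCell 0 67108864 0 1073741824 536870912 50465866 (corW 3 c0B eng mog cB012E gB0q0 gB0q2 gB0q1 gB1q1 dB0q0 dB0q2 dB0q1 dB1q1 true false)) t 3 47 1 = true :=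
  ⟨(T.a (T.b (T.a (T.l 1) (T.b (T.l 1) (T.b (T.l 1) (T.b (T.a (T.l 1) (T.a (T.l 1) (T.a (T.l 1) (T.a (T.l 1) (T.b (T.l 1) (T.l 0)))))) (T.a (T.a (T.l 1) (T.b (T.l 1) (T.c (T.l 0) (T.l 0)))) (T.a (T.c (T.l 0) (T.a (T.b (T.l 1) (T.l 0)) (T.l 0))) (T.l 0))))))) (T.b (T.a (T.b (T.a (T.b (T.l 1) (T.c (T.a (T.b (T.l 1) (T.l 0)) (T.l 0)) (T.b (T.a (T.l 1) (T.c (T.l 0) (T.l 0))) (T.l 0)))) (T.b (T.b (T.a (T.l 1) (T.a (T.l 1) (T.a (T.l 1) (T.l 0)))) (T.a (T.a (T.l 1) (T.l 0)) (T.l 0))) (T.l 0))) (T.c (T.l 0) (T.l 0))) (T.a (T.c (T.l 0) (T.c (T.l 0) (T.l 0))) (T.l 0))) (T.a (T.l 0) (T.l 0)))) (T.b (T.b (T.a (T.l 1) (T.a (T.l 1) (T.a (T.l 1) (T.b (T.l 1) (T.a (T.l 1) (T.b (T.l 1) (T.b (T.l 1) (T.l 0)))))))) (T.a (T.a (T.b (T.l 1) (T.b (T.c (T.a (T.b (T.l 1) (T.l 0)) (T.l 0)) (T.a (T.b (T.l 1) (T.l 0)) (T.l 0))) (T.l 0))) (T.b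 (T.b (T.l 1) (T.b (T.a (T.l 1) (T.a (T.l 1) (T.c (T.l 0) (T.l 0)))) (T.c (T.l 0) (T.c (T.l 0) (T.c (T.l 0) (T.a (T.a (T.l 1) (T.l 0)) (T.l 0))))))) (T.l 0))) (T.b (T.a (T.c (T.b (T.a (T.l 1) (T.b (T.l 1) (T.l 0))) (T.l 0)) (T.b (T.a (T.l 1) (T.b (T.l 1) (T.l 0))) (T.l 0))) (T.c (T.l 0) (T.c (T.l 0) (T.c (T.l 0) (T.a (T.l 0) (T.l 0)))))) (T.l 0)))) (T.a (T.c (T.l 0) (T.l 0)) (T.a (T.l 0) (T.c (T.l 0) (T.l 0)))))), by decide +kernel⟩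

def B012E_000_1_6_1 :
    ∃ t, chk3 (onCell 0 67108864 0 1073741824 536870912 50465866 (corW 3 c0B eng mog cB012E gB0q0 gB0q2 gB0q1 gB1q1 dB0q0 dB0q2 dB0q1 dB1q1 true false)) t 1 6 1 = true :=
  ⟨(T.a (T.b (T.b (T.a (T.b (T.b (T.a (T.c (T.c (T.l 0) (T.l 0)) (T.c (T.l 0) (T.l 0))) (T.c (T.c (T.l 0) (T.l 0)) (T.l 0))) (T.c (T.a (T.l 0) (T.l 0)) (T.a (T.l 0) (T.l 0)))) (T.c (T.a (T.l 0) (T.l 0)) (T.a (T.l 0) (T.l 0)))) (T.b (T.b (T.a (T.c (T.l 0) (T.l 0)) (T.c (T.l 0) (T.l 0))) (T.c (T.l 0) (T.l 0))) (T.b (T.c (T.l 0) (T.l 0)) (T.l 0)))) (T.a (T.b (T.c (T.a (T.l 0) (T.l 0)) (T.l 0)) (T.c (T.l 0) (T.l 0))) (T.b (T.c (T.l 0) (T.l 0)) (T.c (T.l 0) (T.l 0))))) (T.b (T.a (T.b (T.c (T.l 0) (T.l 0)) (T.c (T.l 0) (T.l 816))) (T.b (T.l 0) (T.l 0))) (T.a (T.b (T.l 0) (T.l 0)) (T.b (T.l 0) (T.l 0))))) (T.a (T.b (T.b (T.b (T.b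 (T.c (T.a (T.l 0) (T.l 0)) (T.l 0)) (T.c (T.l 0) (T.l 0))) (T.c (T.l 0) (T.l 0))) (T.b (T.l 0) (T.l 0))) (T.a (T.b (T.l 0) (T.l 0)) (T.b (T.b (T.l 0) (T.l 0)) (T.b (T.l 0) (T.l 0))))) (T.b (T.b (T.a (T.b (T.c (T.l 0) (T.l 0)) (T.l 0)) (T.b (T.a (T.l 0) (T.c (T.l 0) (T.l 0))) (T.c (T.l 0) (T.l 0)))) (T.a (T.b (T.c (T.l 0) (T.l 0)) (T.l 0)) (T.b (T.c (T.l 16) (T.l 0)) (T.c (T.l 0) (T.l 0))))) (T.b (T.a (T.b (T.l 0) (T.c (T.l 0) (T.l 0))) (T.b (T.l 0) (T.l 0))) (T.a (T.b (T.l 0) (T.l 0)) (T.b (T.l 0) (T.l 0))))))), by decide +kernel⟩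

def B012E_000_1_7_1 :
    ∃ t, chk3 (onCell 0 67108864 0 1073741824 536870912 50465866 (corW 3 c0B eng mog cB012E gB0q0 gB0q2 gB0q1 gB1q1 dB0q0 dB0q2 dB0q1 dB1q1 true false)) t 1 7 1 = true :=
  ⟨(T.b (T.a (T.b (T.a (T.b (T.l 0) (T.l 0)) (T.l 0)) (T.a (T.b (T.l 0) (T.l 0)) (T.l 0))) (T.a (T.a (T.a (T.l 0) (T.b (T.l 0) (T.l 0))) (T.b (T.b (T.l 0) (T.l 0)) (T.b (T.l 0) (T.l 0)))) (T.a (T.b (T.b (T.l 0) (T.l 0)) (T.b (T.l 0) (T.l 0))) (T.b (T.b (T.l 0) (T.l 0)) (T.l 0))))) (T.a (T.a (T.b (T.l 0) (T.l 0)) (T.a (T.l 0) (T.a (T.l 0) (T.b (T.l 0) (T.l 0))))) (T.a (T.a (T.b (T.b (T.l 0) (T.l 0)) (T.b (T.l 0) (T.l 0))) (T.b (T.b (T.l 0) (T.l 0)) (T.b (T.l 0) (T.l 0)))) (T.a (T.b (T.l 0) (T.l 0)) (T.b (T.l 0) (T.l 0)))))), by decide +kernel⟩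

theorem B012E_000_1_3_1 :
    ∃ t, chk3 (onCell 0 67108864 0 1073741824 536870912 50465866 (corW 3 c0B eng mog cB012E gB0q0 gB0q2 gB0q1 gB1q1 dB0q0 dB0q2 dB0q1 dB1q1 true false)) t 1 3 1 = true :=
  ex3_b B012E_000_1_6_1 B012E_000_1_7_1
theorem B012E_000_2_95_1 :
    ∃ t, chk3 (onCell 0 67108864 0 1073741824 536870912 50465866 (corW 3 c0B eng mog cB012E gB0q0 gB0q2 gB0q1 gB1q1 dB0q0 dB0q2 dB0q1 dB1q1 true false)) t 2 95 1 = true :=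
  ex3_a B012E_000_4_95_1 B012E_000_5_95_1
theorem B012E_000_2_47_1 :
    ∃ t, chk3 (onCell 0 67108864 0 1073741824 536870912 50465866 (corW 3 c0B eng mog cB012E gB0q0 gB0q2 gB0q1 gB1q1 dB0q0 dB0q2 dB0q1 dB1q1 true false)) t 2 47 1 = true :=
  ex3_b B012E_000_2_94_1 B012E_000_2_95_1
theorem B012E_000_1_47_1 :
    ∃ t, chk3 (onCell 0 67108864 0 1073741824 536870912 50465866 (corW 3 c0B eng mog cB012E gB0q0 gB0q2 gB0q1 gB1q1 dB0q0 dB0q2 dB0q1 dB1q1 true false)) t 1 47 1 = true :=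
  ex3_a B012E_000_2_47_1 B012E_000_3_47_1
theorem B012E_000_1_23_1 :
    ∃ t, chk3 (onCell 0 67108864 0 1073741824 536870912 50465866 (corW 3 c0B eng mog cB012E gB0q0 gB0q2 gB0q1 gB1q1 dB0q0 dB0q2 dB0q1 dB1q1 true false)) t 1 23 1 = true :=
  ex3_b B012E_000_1_46_1 B012E_000_1_47_1
theorem B012E_000_1_11_1 :
    ∃ t, chk3 (onCell 0 67108864 0 1073741824 536870912 50465866 (corW 3 c0B eng mog cB012E gB0q0 gB0q2 gB0q1 gB1q1 dB0q0 dB0q2 dB0q1 dB1q1 true false)) t 1 11 1 = true :=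
  ex3_b B012E_000_1_22_1 B012E_000_1_23_1
theorem B012E_000_1_5_1 :
    ∃ t, chk3 (onCell 0 67108864 0 1073741824 536870912 50465866 (corW 3 c0B eng mog cB012E gB0q0 gB0q2 gB0q1 gB1q1 dB0q0 dB0q2 dB0q1 dB1q1 true false)) t 1 5 1 = true :=
  ex3_b B012E_000_1_10_1 B012E_000_1_11_1
theorem B012E_000_1_2_1 :
    ∃ t, chk3 (onCell 0 67108864 0 1073741824 536870912 50465866 (corW 3 c0B eng mog cB012E gB0q0 gB0q2 gB0q1 gB1q1 dB0q0 dB0q2 dB0q1 dB1q1 true false)) t 1 2 1 = true :=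
  ex3_b B012E_000_1_4_1 B012E_000_1_5_1
theorem B012E_000 :
    ∃ t, chk3 (onCell 0 67108864 0 1073741824 536870912 50465866 (corW 3 c0B eng mog cB012E gB0q0 gB0q2 gB0q1 gB1q1 dB0q0 dB0q2 dB0q1 dB1q1 true false)) t 1 1 1 = true :=
  ex3_b B012E_000_1_2_1 B012E_000_1_3_1

def B012E_010 :
    ∃ t, chk3 (onCell 0 67108864 0 1073741824 536870912 50465866 (corW 3 c0B eng mog cB012E gB0q0 gB1q2 gB0q1 gB1q1 dB0q0 dB1q2 dB0q1 dB1q1 true false)) t 1 1 1 = true :=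
  ⟨(T.b (T.b (T.l 1) (T.b (T.l 1) (T.l 1))) (T.b (T.a (T.b (T.b (T.b (T.b (T.l 1) (T.a (T.c (T.l 0) (T.l 0)) (T.l 0))) (T.a (T.l 0) (T.l 0))) (T.a (T.l 0) (T.l 0))) (T.b (T.a (T.l 0) (T.l 0)) (T.a (T.l 0) (T.l 0)))) (T.a (T.b (T.b (T.b (T.c (T.l 256) (T.a (T.l 0) (T.l 0))) (T.l 0)) (T.l 0)) (T.a (T.b (T.l 0) (T.l 0)) (T.b (T.b (T.l 0) (T.l 0)) (T.b (T.l 0) (T.l 0))))) (T.b (T.b (T.a (T.b (T.l 0) (T.l 0)) (T.b (T.a (T.l 0) (T.b (T.l 0) (T.l 0))) (T.b (T.l 0) (T.l 0)))) (T.a (T.b (T.c (T.l 0) (T.l 0)) (T.c (T.l 0) (T.l 0))) (T.b (T.c (T.l 0) (T.l 0)) (T.l 0)))) (T.b (T.a (T.b (T.l 0) (T.l 0)) (T.b (T.l 0) (T.l 0))) (T.a (T.b (T.l 0) (T.l 0)) (T.l 0)))))) (T.a (T.a (T.b (T.b (T.l 0) (T.l 0)) (T.b (T.l 0) (T.l 0))) (T.a (T.b (T.l 0) (T.l 0)) (T.b (T.l 0) (T.a (T.l 0) (T.b (T.l 0) (T.l 0)))))) (T.a (T.b (T.a (T.a (T.l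 0) (T.b (T.l 0) (T.l 0))) (T.b (T.b (T.l 0) (T.l 0)) (T.l 16))) (T.a (T.b (T.b (T.l 0) (T.l 0)) (T.b (T.l 0) (T.l 0))) (T.b (T.l 0) (T.l 0)))) (T.b (T.b (T.a (T.l 0) (T.l 0)) (T.a (T.l 0) (T.l 0))) (T.a (T.b (T.l 0) (T.l 0)) (T.b (T.l 0) (T.l 0)))))))), by decide +kernel⟩

def B012E_020 :
    ∃ t, chk3 (onCell 0 67108864 0 1073741824 536870912 50465866 (corW 3 c0B eng mog cB012E gB0q0 gB2q2 gB0q1 gB1q1 dB0q0 dB2q2 dB0q1 dB1q1 true false)) t 1 1 1 = true :=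
  ⟨(T.b (T.l 1) (T.b (T.b (T.b (T.l 1) (T.b (T.l 1) (T.a (T.b (T.l 1) (T.c (T.a (T.l 0) (T.l 0)) (T.l 0))) (T.a (T.c (T.l 0) (T.l 0)) (T.a (T.c (T.b (T.l 0) (T.l 0)) (T.l 0)) (T.c (T.l 0) (T.l 0))))))) (T.a (T.b (T.c (T.b (T.a (T.l 0) (T.l 0)) (T.l 0)) (T.l 0)) (T.a (T.l 0) (T.l 0))) (T.a (T.a (T.b (T.l 0) (T.l 0)) (T.b (T.b (T.l 0) (T.l 0)) (T.b (T.l 0) (T.l 0)))) (T.b (T.a (T.b (T.l 64) (T.l 0)) (T.b (T.l 0) (T.l 0))) (T.a (T.l 0) (T.l 0)))))) (T.b (T.a (T.b (T.l 0) (T.l 0)) (T.a (T.a (T.b (T.l 0) (T.l 0)) (T.b (T.l 0) (T.l 0))) (T.b (T.b (T.l 0) (T.l 0)) (T.b (T.l 0) (T.l 0))))) (T.a (T.a (T.l 0) (T.a (T.l 0) (T.b (T.l 0) (T.l 0)))) (T.a (T.a (T.b (T.l 0) (T.l 0)) (T.b (T.l 0) (T.l 0))) (T.b (T.b (T.l 0) (T.l 0)) (T.b (T.l 0) (T.l 0)))))))), by decide +kernel⟩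

def B012E_030 :
    ∃ t, chk3 (onCell 0 67108864 0 1073741824 536870912 50465866 (corW 3 c0B eng mog cB012E gB0q0 gB3q2 gB0q1 gB1q1 dB0q0 dB3q2 dB0q1 dB1q1 true false)) t 1 1 1 = true :=
  ⟨(T.b (T.l 1) (T.b (T.l 1) (T.b (T.b (T.l 1) (T.a (T.c (T.c (T.b (T.a (T.l 816) (T.l 816)) (T.l 816)) (T.a (T.l 816) (T.l 816))) (T.l 816)) (T.a (T.a (T.c (T.a (T.b (T.l 880) (T.l 816)) (T.c (T.b (T.l 880) (T.l 816)) (T.l 880))) (T.b (T.l 816) (T.l 816))) (T.c (T.b (T.c (T.l 880) (T.l 816)) (T.l 816)) (T.l 880))) (T.c (T.a (T.b (T.l 816) (T.l 816)) (T.b (T.l 816) (T.l 816))) (T.b (T.l 816) (T.l 816)))))) (T.a (T.a (T.b (T.c (T.l 816) (T.l 816)) (T.l 816)) (T.a (T.b (T.b (T.l 816) (T.l 816)) (T.l 816)) (T.b (T.b (T.l 816) (T.l 816)) (T.c (T.b (T.l 816) (T.l 816)) (T.l 816))))) (T.a (T.a (T.b (T.c (T.c (T.l 880) (T.l 816)) (T.l 816))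 (T.c (T.l 816) (T.l 816))) (T.b (T.c (T.l 816) (T.l 816)) (T.l 816))) (T.b (T.a (T.b (T.l 816) (T.l 816)) (T.l 880)) (T.b (T.l 816) (T.l 816)))))))), by decide +kernel⟩

def B012E_100 :
    ∃ t, chk3 (onCell 0 67108864 0 1073741824 536870912 50465866 (corW 3 c0B eng mog cB012E gB1q0 gB0q2 gB0q1 gB1q1 dB1q0 dB0q2 dB0q1 dB1q1 true false)) t 1 1 1 = true :=
  ⟨(T.b (T.b (T.l 1) (T.b (T.l 1) (T.b (T.b (T.l 1) (T.b (T.a (T.l 1) (T.a (T.l 1) (T.l 1))) (T.a (T.b (T.l 1) (T.a (T.b (T.l 1) (T.a (T.l 1) (T.l 816))) (T.c (T.l 816) (T.a (T.c (T.l 816) (T.a (T.b (T.l 1) (T.l 816)) (T.l 816))) (T.l 816))))) (T.a (T.b (T.b (T.l 1) (T.c (T.l 816) (T.a (T.c (T.l 816) (T.l 824)) (T.l 816)))) (T.l 816)) (T.a (T.c (T.l 816) (T.l 824)) (T.l 824)))))) (T.a (T.b (T.a (T.c (T.l 816) (T.l 816)) (T.l 816)) (T.l 816)) (T.a (T.b (T.l 816) (T.l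 816)) (T.b (T.l 816) (T.l 816))))))) (T.b (T.a (T.b (T.l 816) (T.l 816)) (T.a (T.b (T.l 816) (T.b (T.l 0) (T.l 0))) (T.b (T.b (T.l 816) (T.b (T.l 816) (T.l 816))) (T.b (T.l 4) (T.l 0))))) (T.b (T.a (T.b (T.l 816) (T.l 816)) (T.a (T.a (T.l 0) (T.l 0)) (T.b (T.l 0) (T.l 0)))) (T.a (T.a (T.l 816) (T.a (T.l 816) (T.l 0))) (T.a (T.a (T.b (T.l 816) (T.l 816)) (T.l 0)) (T.b (T.l 0) (T.l 0))))))), by decide +kernel⟩

def B012E_110 :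
    ∃ t, chk3 (onCell 0 67108864 0 1073741824 536870912 50465866 (corW 3 c0B eng mog cB012E gB1q0 gB1q2 gB0q1 gB1q1 dB1q0 dB1q2 dB0q1 dB1q1 true false)) t 1 1 1 = true :=
  ⟨(T.b (T.b (T.l 1) (T.b (T.l 1) (T.b (T.l 1) (T.a (T.a (T.b (T.l 816) (T.l 816)) (T.l 816)) (T.a (T.l 816) (T.b (T.l 816) (T.l 816))))))) (T.b (T.a (T.b (T.l 816) (T.l 816)) (T.a (T.b (T.l 816) (T.a (T.l 816) (T.l 0))) (T.b (T.b (T.l 816) (T.l 816)) (T.b (T.l 0) (T.l 0))))) (T.a (T.a (T.l 816) (T.a (T.l 816) (T.b (T.l 816) (T.l 0)))) (T.a (T.b (T.a (T.l 0) (T.l 0)) (T.b (T.l 0) (T.l 0))) (T.b (T.b (T.l 0) (T.l 0)) (T.b (T.l 0) (T.l 0))))))), by decide +kernel⟩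

def B012E_120 :
    ∃ t, chk3 (onCell 0 67108864 0 1073741824 536870912 50465866 (corW 3 c0B eng mog cB012E gB1q0 gB2q2 gB0q1 gB1q1 dB1q0 dB2q2 dB0q1 dB1q1 true false)) t 1 1 1 = true :=
  ⟨(T.b (T.l 1) (T.b (T.a (T.b (T.l 816) (T.l 816)) (T.b (T.a (T.l 816) (T.b (T.l 816) (T.l 0))) (T.a (T.b (T.l 0) (T.l 0)) (T.b (T.l 0) (T.l 0))))) (T.a (T.a (T.l 816) (T.a (T.l 816) (T.b (T.l 816) (T.l 0)))) (T.a (T.b (T.b (T.l 0) (T.l 0)) (T.b (T.l 0) (T.l 0))) (T.b (T.l 4) (T.b (T.l 0) (T.l 0))))))), by decide +kernel⟩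

def B012E_130 :
    ∃ t, chk3 (onCell 0 67108864 0 1073741824 536870912 50465866 (corW 3 c0B eng mog cB012E gB1q0 gB3q2 gB0q1 gB1q1 dB1q0 dB3q2 dB0q1 dB1q1 true false)) t 1 1 1 = true :=
  ⟨(T.b (T.l 1) (T.b (T.b (T.l 1) (T.b (T.l 1) (T.a (T.l 816) (T.a (T.b (T.l 1) (T.l 816)) (T.l 816))))) (T.b (T.a (T.l 816) (T.a (T.b (T.l 816) (T.l 816)) (T.l 880))) (T.a (T.a (T.l 816) (T.a (T.l 816) (T.l 816))) (T.a (T.b (T.l 816) (T.l 816)) (T.l 816)))))), by decide +kernel⟩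

def B012E_200 :
    ∃ t, chk3 (onCell 0 53687091 0 1073741824 536870912 50465866 (corW 3 c0B eng mog cB012E gB2q0 gB0q2 gB0q1 gB1q1 dB2q0 dB0q2 dB0q1 dB1q1 true false)) t 1 1 1 = true :=
  ⟨(T.b (T.b (T.l 1) (T.b (T.a (T.b (T.b (T.l 1) (T.l 816)) (T.l 816)) (T.b (T.b (T.l 1) (T.a (T.l 816) (T.c (T.l 816) (T.l 816)))) (T.b (T.l 816) (T.l 816)))) (T.b (T.l 816) (T.l 816)))) (T.a (T.b (T.l 816) (T.l 816)) (T.b (T.a (T.l 816) (T.b (T.l 816) (T.l 816))) (T.a (T.b (T.l 816) (T.l 0)) (T.b (T.l 816) (T.l 816)))))), by decide +kernel⟩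

def B012E_210 :
    ∃ t, chk3 (onCell 0 53687091 0 1073741824 536870912 50465866 (corW 3 c0B eng mog cB012E gB2q0 gB1q2 gB0q1 gB1q1 dB2q0 dB1q2 dB0q1 dB1q1 true false)) t 1 1 1 = true :=
  ⟨(T.b (T.b (T.l 1) (T.b (T.a (T.b (T.l 1) (T.l 816)) (T.b (T.l 1) (T.b (T.l 816) (T.l 816)))) (T.l 816))) (T.a (T.b (T.l 816) (T.l 816)) (T.b (T.a (T.l 816) (T.b (T.l 816) (T.l 816))) (T.a (T.b (T.l 816) (T.l 816)) (T.b (T.l 816) (T.l 816)))))), by decide +kernel⟩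

def B012E_220 :
    ∃ t, chk3 (onCell 0 67108864 0 1073741824 536870912 50465866 (corW 3 c0B eng mog cB012E gB2q0 gB2q2 gB0q1 gB1q1 dB2q0 dB2q2 dB0q1 dB1q1 true false)) t 1 1 1 = true :=
  ⟨(T.b (T.b (T.l 1) (T.b (T.b (T.l 1) (T.a (T.l 816) (T.b (T.l 1) (T.l 816)))) (T.a (T.l 816) (T.a (T.l 816) (T.b (T.l 816) (T.l 816)))))) (T.b (T.a (T.l 816) (T.b (T.b (T.l 0) (T.l 0)) (T.b (T.l 0) (T.l 0)))) (T.a (T.a (T.l 816) (T.b (T.l 816) (T.l 0))) (T.a (T.b (T.l 816) (T.l 816)) (T.b (T.l 816) (T.l 816)))))), by decide +kernel⟩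

def B012E_230 :
    ∃ t, chk3 (onCell 0 67108864 0 1073741824 536870912 50465866 (corW 3 c0B eng mog cB012E gB2q0 gB3q2 gB0q1 gB1q1 dB2q0 dB3q2 dB0q1 dB1q1 true false)) t 1 1 1 = true :=
  ⟨(T.b (T.b (T.l 1) (T.b (T.l 1) (T.a (T.l 816) (T.l 1)))) (T.b (T.a (T.l 816) (T.b (T.b (T.l 816) (T.l 816)) (T.b (T.l 816) (T.l 816)))) (T.a (T.a (T.l 816) (T.b (T.l 816) (T.l 0))) (T.a (T.b (T.l 816) (T.l 816)) (T.l 816))))), by decide +kernel⟩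

def B012E_300 :
    ∃ t, chk3 (onCell 0 44739242 0 1073741824 536870912 50465866 (corW 3 c0B eng mog cB012E gB3q0 gB0q2 gB0q1 gB1q1 dB3q0 dB0q2 dB0q1 dB1q1 true false)) t 1 1 1 = true :=
  ⟨(T.b (T.b (T.b (T.b (T.l 1) (T.a (T.l 816) (T.b (T.l 1) (T.l 944)))) (T.a (T.l 816) (T.b (T.l 816) (T.l 816)))) (T.b (T.l 816) (T.l 816))) (T.a (T.l 816) (T.b (T.b (T.l 816) (T.l 0)) (T.a (T.l 0) (T.l 816))))), by decide +kernel⟩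

def B012E_310 :
    ∃ t, chk3 (onCell 0 44739242 0 1073741824 536870912 50465866 (corW 3 c0B eng mog cB012E gB3q0 gB1q2 gB0q1 gB1q1 dB3q0 dB1q2 dB0q1 dB1q1 true false)) t 1 1 1 = true :=
  ⟨(T.b (T.b (T.b (T.b (T.l 1) (T.a (T.l 816) (T.b (T.l 1) (T.l 944)))) (T.a (T.l 816) (T.b (T.l 816) (T.l 816)))) (T.b (T.l 816) (T.l 816))) (T.a (T.l 816) (T.b (T.b (T.l 816) (T.l 0)) (T.b (T.l 0) (T.l 0))))), by decide +kernel⟩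

def B012E_320 :
    ∃ t, chk3 (onCell 0 53687091 0 1073741824 536870912 50465866 (corW 3 c0B eng mog cB012E gB3q0 gB2q2 gB0q1 gB1q1 dB3q0 dB2q2 dB0q1 dB1q1 true false)) t 1 1 1 = true :=
  ⟨(T.b (T.a (T.b (T.b (T.b (T.l 1) (T.b (T.l 1) (T.l 816))) (T.l 816)) (T.l 816)) (T.b (T.b (T.b (T.l 1) (T.l 1)) (T.a (T.l 816) (T.b (T.l 816) (T.l 816)))) (T.b (T.l 816) (T.l 816)))) (T.a (T.l 816) (T.b (T.b (T.l 0) (T.l 0)) (T.b (T.l 0) (T.l 0))))), by decide +kernel⟩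

def B012E_330 :
    ∃ t, chk3 (onCell 0 67108864 0 1073741824 536870912 50465866 (corW 3 c0B eng mog cB012E gB3q0 gB3q2 gB0q1 gB1q1 dB3q0 dB3q2 dB0q1 dB1q1 true false)) t 1 1 1 = true :=
  ⟨(T.b (T.b (T.b (T.l 1) (T.a (T.l 816) (T.a (T.b (T.l 816) (T.l 816)) (T.b (T.l 944) (T.l 816))))) (T.a (T.l 816) (T.b (T.b (T.l 816) (T.l 816)) (T.b (T.l 816) (T.l 816))))) (T.b (T.a (T.l 816) (T.b (T.l 816) (T.l 816))) (T.a (T.a (T.l 816) (T.l 0)) (T.b (T.l 816) (T.l 816))))), by decide +kernel⟩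

def B012L_060 :
    ∃ t, chk3 (onCell 0 67108864 0 1073741824 536870912 50465866 (corW 3 c0B eng mog cB012L gB0q0 gB6q2 gB0q1 gB1q1 dB0q0 dB6q2 dB0q1 dB1q1 true false)) t 1 1 1 = true :=
  ⟨(T.l 1), by decide +kernel⟩

def B012L_160 :
    ∃ t, chk3 (onCell 0 67108864 0 1073741824 536870912 50465866 (corW 3 c0B eng mog cB012L gB1q0 gB6q2 gB0q1 gB1q1 dB1q0 dB6q2 dB0q1 dB1q1 true false)) t 1 1 1 = true :=
  ⟨(T.l 1), by decide +kernel⟩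

def B012L_260 :
    ∃ t, chk3 (onCell 0 67108864 0 1073741824 536870912 50465866 (corW 3 c0B eng mog cB012L gB2q0 gB6q2 gB0q1 gB1q1 dB2q0 dB6q2 dB0q1 dB1q1 true false)) t 1 1 1 = true :=
  ⟨(T.l 1), by decide +kernel⟩

def B012L_360 :
    ∃ t, chk3 (onCell 0 67108864 0 1073741824 536870912 50465866 (corW 3 c0B eng mog cB012L gB3q0 gB6q2 gB0q1 gB1q1 dB3q0 dB6q2 dB0q1 dB1q1 true false)) t 1 1 1 = true :=
  ⟨(T.l 1), by decide +kernel⟩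

def B012R_003 :
    ∃ t, chk3 (onCell 0 67108864 0 1073741824 536870912 50465866 (corW 3 c0B eng mog cB012R gB0q0 gB0q2 gB3q1 gB4q1 dB0q0 dB0q2 dB3q1 dB4q1 false true)) t 1 1 1 = true :=
  ⟨(T.b (T.b (T.b (T.b (T.b (T.a (T.a (T.l 204) (T.l 204)) (T.l 204)) (T.a (T.l 204) (T.l 204))) (T.a (T.l 204) (T.l 204))) (T.a (T.l 204) (T.l 204))) (T.b (T.l 460) (T.a (T.l 204) (T.a (T.l 204) (T.b (T.l 204) (T.l 204)))))) (T.b (T.a (T.l 0) (T.a (T.b (T.l 204) (T.b (T.l 0) (T.l 0))) (T.b (T.b (T.l 204) (T.l 204)) (T.b (T.l 0) (T.l 0))))) (T.a (T.a (T.l 0) (T.a (T.l 0) (T.b (T.l 204) (T.l 0)))) (T.a (T.b (T.b (T.l 0) (T.l 0)) (T.b (T.l 0) (T.l 0))) (T.b (T.b (T.l 0) (T.l 0)) (T.b (T.l 0) (T.l 0))))))), by decide +kernel⟩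

def B012R_004 :
    ∃ t, chk3 (onCell 0 67108864 0 1073741824 536870912 50465866 (corW 3 c0B eng mog cB012R gB0q0 gB0q2 gB4q1 gB5q1 dB0q0 dB0q2 dB4q1 dB5q1 true true)) t 1 1 1 = true :=
  ⟨(T.b (T.l 1) (T.l 1)), by decide +kernel⟩

def B012R_005 :
    ∃ t, chk3 (onCell 0 67108864 0 1073741824 536870912 50465866 (corW 3 c0B eng mog cB012R gB0q0 gB0q2 gB5q1 gB6q1 dB0q0 dB0q2 dB5q1 dB6q1 true true)) t 1 1 1 = true :=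
  ⟨(T.l 1), by decide +kernel⟩

def B012R_013 :
    ∃ t, chk3 (onCell 0 67108864 0 1073741824 536870912 50465866 (corW 3 c0B eng mog cB012R gB0q0 gB1q2 gB3q1 gB4q1 dB0q0 dB1q2 dB3q1 dB4q1 false true)) t 1 1 1 = true :=
  ⟨(T.b (T.b (T.b (T.b (T.b (T.a (T.l 204) (T.l 204)) (T.a (T.l 204) (T.l 204))) (T.a (T.l 204) (T.l 204))) (T.a (T.l 204) (T.l 204))) (T.b (T.l 204) (T.a (T.l 204) (T.a (T.l 204) (T.b (T.l 204) (T.l 204)))))) (T.b (T.a (T.l 0) (T.a (T.b (T.l 204) (T.b (T.l 0) (T.l 0))) (T.b (T.l 0) (T.l 0)))) (T.a (T.a (T.l 0) (T.a (T.l 0) (T.b (T.l 0) (T.l 0)))) (T.a (T.b (T.l 0) (T.l 4)) (T.b (T.l 0) (T.l 0)))))), by decide +kernel⟩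

def B012R_014 :
    ∃ t, chk3 (onCell 0 67108864 0 1073741824 536870912 50465866 (corW 3 c0B eng mog cB012R gB0q0 gB1q2 gB4q1 gB5q1 dB0q0 dB1q2 dB4q1 dB5q1 true true)) t 1 1 1 = true :=
  ⟨(T.b (T.l 1) (T.l 1)), by decide +kernel⟩

def B012R_015 :
    ∃ t, chk3 (onCell 0 67108864 0 1073741824 536870912 50465866 (corW 3 c0B eng mog cB012R gB0q0 gB1q2 gB5q1 gB6q1 dB0q0 dB1q2 dB5q1 dB6q1 true true)) t 1 1 1 = true :=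
  ⟨(T.l 1), by decide +kernel⟩

def B012R_023 :
    ∃ t, chk3 (onCell 0 67108864 0 1073741824 536870912 50465866 (corW 3 c0B eng mog cB012R gB0q0 gB2q2 gB3q1 gB4q1 dB0q0 dB2q2 dB3q1 dB4q1 false true)) t 1 1 1 = true :=
  ⟨(T.b (T.b (T.b (T.b (T.b (T.a (T.l 204) (T.l 204)) (T.l 204)) (T.l 204)) (T.l 204)) (T.b (T.l 204) (T.a (T.l 0) (T.b (T.l 0) (T.l 0))))) (T.b (T.a (T.l 0) (T.a (T.b (T.l 0) (T.l 0)) (T.b (T.l 0) (T.l 0)))) (T.a (T.a (T.l 816) (T.a (T.l 816) (T.b (T.l 816) (T.l 816)))) (T.a (T.b (T.l 0) (T.l 0)) (T.b (T.l 0) (T.l 816)))))), by decide +kernel⟩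

def B012R_024 :
    ∃ t, chk3 (onCell 0 67108864 0 1073741824 536870912 50465866 (corW 3 c0B eng mog cB012R gB0q0 gB2q2 gB4q1 gB5q1 dB0q0 dB2q2 dB4q1 dB5q1 true true)) t 1 1 1 = true :=
  ⟨(T.b (T.l 1) (T.l 1)), by decide +kernel⟩

def B012R_025 :
    ∃ t, chk3 (onCell 0 67108864 0 1073741824 536870912 50465866 (corW 3 c0B eng mog cB012R gB0q0 gB2q2 gB5q1 gB6q1 dB0q0 dB2q2 dB5q1 dB6q1 true true)) t 1 1 1 = true :=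
  ⟨(T.l 1), by decide +kernel⟩

def B012R_033 :
    ∃ t, chk3 (onCell 0 67108864 0 1073741824 536870912 50465866 (corW 3 c0B eng mog cB012R gB0q0 gB3q2 gB3q1 gB4q1 dB0q0 dB3q2 dB3q1 dB4q1 false true)) t 1 1 1 = true :=
  ⟨(T.b (T.b (T.b (T.b (T.a (T.l 220) (T.l 204)) (T.l 204)) (T.l 204)) (T.b (T.l 0) (T.a (T.l 0) (T.b (T.l 0) (T.l 0))))) (T.b (T.a (T.l 816) (T.a (T.b (T.l 816) (T.l 0)) (T.b (T.l 0) (T.l 816)))) (T.a (T.a (T.l 816) (T.a (T.l 816) (T.b (T.l 816) (T.l 816)))) (T.a (T.a (T.l 816) (T.l 816)) (T.b (T.l 816) (T.l 816)))))), by decide +kernel⟩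

def B012R_034 :
    ∃ t, chk3 (onCell 0 67108864 0 1073741824 536870912 50465866 (corW 3 c0B eng mog cB012R gB0q0 gB3q2 gB4q1 gB5q1 dB0q0 dB3q2 dB4q1 dB5q1 true true)) t 1 1 1 = true :=
  ⟨(T.l 1), by decide +kernel⟩

def B012R_035 :
    ∃ t, chk3 (onCell 0 67108864 0 1073741824 536870912 50465866 (corW 3 c0B eng mog cB012R gB0q0 gB3q2 gB5q1 gB6q1 dB0q0 dB3q2 dB5q1 dB6q1 true true)) t 1 1 1 = true :=
  ⟨(T.l 1), by decide +kernel⟩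

def B012R_103 :
    ∃ t, chk3 (onCell 0 67108864 0 1073741824 536870912 50465866 (corW 3 c0B eng mog cB012R gB1q0 gB0q2 gB3q1 gB4q1 dB1q0 dB0q2 dB3q1 dB4q1 false true)) t 1 1 1 = true :=
  ⟨(T.b (T.b (T.l 0) (T.b (T.l 0) (T.a (T.l 0) (T.b (T.l 0) (T.l 0))))) (T.b (T.a (T.l 0) (T.a (T.b (T.l 816) (T.l 0)) (T.b (T.l 0) (T.l 0)))) (T.a (T.a (T.l 816) (T.a (T.l 816) (T.l 0))) (T.a (T.b (T.l 0) (T.l 4)) (T.b (T.l 0) (T.l 0)))))), by decide +kernel⟩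

def B012R_104 :
    ∃ t, chk3 (onCell 0 67108864 0 1073741824 536870912 50465866 (corW 3 c0B eng mog cB012R gB1q0 gB0q2 gB4q1 gB5q1 dB1q0 dB0q2 dB4q1 dB5q1 true true)) t 1 1 1 = true :=
  ⟨(T.b (T.b (T.l 0) (T.l 1)) (T.l 1)), by decide +kernel⟩

def B012R_105 :
    ∃ t, chk3 (onCell 0 67108864 0 1073741824 536870912 50465866 (corW 3 c0B eng mog cB012R gB1q0 gB0q2 gB5q1 gB6q1 dB1q0 dB0q2 dB5q1 dB6q1 true true)) t 1 1 1 = true :=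
  ⟨(T.b (T.l 1) (T.l 1)), by decide +kernel⟩

def B012R_113 :
    ∃ t, chk3 (onCell 0 67108864 0 1073741824 536870912 50465866 (corW 3 c0B eng mog cB012R gB1q0 gB1q2 gB3q1 gB4q1 dB1q0 dB1q2 dB3q1 dB4q1 false true)) t 1 1 1 = true :=
  ⟨(T.b (T.b (T.l 0) (T.b (T.l 0) (T.a (T.l 816) (T.b (T.l 816) (T.l 0))))) (T.b (T.a (T.l 816) (T.a (T.b (T.l 816) (T.l 0)) (T.b (T.l 0) (T.l 0)))) (T.a (T.a (T.l 816) (T.a (T.l 816) (T.l 0))) (T.a (T.b (T.l 0) (T.l 0)) (T.b (T.l 0) (T.l 0)))))), by decide +kernel⟩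

def B012R_114 :
    ∃ t, chk3 (onCell 0 67108864 0 1073741824 536870912 50465866 (corW 3 c0B eng mog cB012R gB1q0 gB1q2 gB4q1 gB5q1 dB1q0 dB1q2 dB4q1 dB5q1 true true)) t 1 1 1 = true :=
  ⟨(T.b (T.b (T.l 0) (T.l 1)) (T.l 1)), by decide +kernel⟩

def B012R_115 :
    ∃ t, chk3 (onCell 0 67108864 0 1073741824 536870912 50465866 (corW 3 c0B eng mog cB012R gB1q0 gB1q2 gB5q1 gB6q1 dB1q0 dB1q2 dB5q1 dB6q1 true true)) t 1 1 1 = true :=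
  ⟨(T.b (T.l 1) (T.l 1)), by decide +kernel⟩

def B012R_123 :
    ∃ t, chk3 (onCell 0 67108864 0 1073741824 536870912 50465866 (corW 3 c0B eng mog cB012R gB1q0 gB2q2 gB3q1 gB4q1 dB1q0 dB2q2 dB3q1 dB4q1 false true)) t 1 1 1 = true :=
  ⟨(T.b (T.b (T.l 0) (T.b (T.l 816) (T.a (T.l 816) (T.b (T.l 816) (T.l 0))))) (T.b (T.a (T.l 816) (T.a (T.b (T.l 816) (T.l 816)) (T.b (T.l 816) (T.l 816)))) (T.a (T.a (T.l 816) (T.a (T.l 816) (T.l 816))) (T.a (T.b (T.l 816) (T.l 816)) (T.b (T.l 816) (T.l 816)))))), by decide +kernel⟩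

def B012R_124 :
    ∃ t, chk3 (onCell 0 67108864 0 1073741824 536870912 50465866 (corW 3 c0B eng mog cB012R gB1q0 gB2q2 gB4q1 gB5q1 dB1q0 dB2q2 dB4q1 dB5q1 true true)) t 1 1 1 = true :=
  ⟨(T.b (T.b (T.l 0) (T.l 1)) (T.l 1)), by decide +kernel⟩

def B012R_125 :
    ∃ t, chk3 (onCell 0 67108864 0 1073741824 536870912 50465866 (corW 3 c0B eng mog cB012R gB1q0 gB2q2 gB5q1 gB6q1 dB1q0 dB2q2 dB5q1 dB6q1 true true)) t 1 1 1 = true :=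
  ⟨(T.l 1), by decide +kernel⟩

def B012R_133 :
    ∃ t, chk3 (onCell 0 67108864 0 1073741824 536870912 50465866 (corW 3 c0B eng mog cB012R gB1q0 gB3q2 gB3q1 gB4q1 dB1q0 dB3q2 dB3q1 dB4q1 false true)) t 1 1 1 = true :=
  ⟨(T.b (T.b (T.l 0) (T.b (T.l 816) (T.a (T.l 816) (T.b (T.l 816) (T.l 816))))) (T.b (T.a (T.l 816) (T.a (T.b (T.l 816) (T.l 816)) (T.b (T.l 816) (T.l 816)))) (T.a (T.b (T.l 816) (T.a (T.l 816) (T.b (T.l 816) (T.l 816)))) (T.a (T.b (T.l 816) (T.l 816)) (T.b (T.l 816) (T.l 816)))))), by decide +kernel⟩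

def B012R_134 :
    ∃ t, chk3 (onCell 0 67108864 0 1073741824 536870912 50465866 (corW 3 c0B eng mog cB012R gB1q0 gB3q2 gB4q1 gB5q1 dB1q0 dB3q2 dB4q1 dB5q1 true true)) t 1 1 1 = true :=
  ⟨(T.b (T.b (T.l 0) (T.b (T.l 1) (T.l 1))) (T.l 1)), by decide +kernel⟩

def B012R_135 :
    ∃ t, chk3 (onCell 0 67108864 0 1073741824 536870912 50465866 (corW 3 c0B eng mog cB012R gB1q0 gB3q2 gB5q1 gB6q1 dB1q0 dB3q2 dB5q1 dB6q1 true true)) t 1 1 1 = true :=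
  ⟨(T.l 1), by decide +kernel⟩

def B012R_203 :
    ∃ t, chk3 (onCell 0 67108864 0 1073741824 536870912 50465866 (corW 3 c0B eng mog cB012R gB2q0 gB0q2 gB3q1 gB4q1 dB2q0 dB0q2 dB3q1 dB4q1 false true)) t 1 1 1 = true :=
  ⟨(T.b (T.b (T.l 2) (T.b (T.l 816) (T.a (T.l 816) (T.b (T.l 816) (T.l 816))))) (T.b (T.a (T.l 816) (T.a (T.b (T.l 816) (T.l 816)) (T.b (T.l 816) (T.l 816)))) (T.b (T.a (T.l 816) (T.a (T.l 816) (T.l 816))) (T.a (T.a (T.l 816) (T.l 0)) (T.a (T.l 816) (T.l 816)))))), by decide +kernel⟩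

def B012R_204 :
    ∃ t, chk3 (onCell 0 67108864 0 1073741824 536870912 50465866 (corW 3 c0B eng mog cB012R gB2q0 gB0q2 gB4q1 gB5q1 dB2q0 dB0q2 dB4q1 dB5q1 true true)) t 1 1 1 = true :=
  ⟨(T.b (T.b (T.l 816) (T.b (T.l 816) (T.l 1))) (T.l 1)), by decide +kernel⟩

def B012R_205 :
    ∃ t, chk3 (onCell 0 67108864 0 1073741824 536870912 50465866 (corW 3 c0B eng mog cB012R gB2q0 gB0q2 gB5q1 gB6q1 dB2q0 dB0q2 dB5q1 dB6q1 true true)) t 1 1 1 = true :=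
  ⟨(T.b (T.b (T.l 816) (T.l 1)) (T.l 1)), by decide +kernel⟩

def B012R_213 :
    ∃ t, chk3 (onCell 0 67108864 0 1073741824 536870912 50465866 (corW 3 c0B eng mog cB012R gB2q0 gB1q2 gB3q1 gB4q1 dB2q0 dB1q2 dB3q1 dB4q1 false true)) t 1 1 1 = true :=
  ⟨(T.b (T.b (T.l 2) (T.b (T.l 816) (T.a (T.l 816) (T.b (T.l 816) (T.l 816))))) (T.b (T.a (T.l 816) (T.a (T.b (T.l 816) (T.l 816)) (T.l 880))) (T.a (T.a (T.l 816) (T.a (T.l 816) (T.l 816))) (T.a (T.b (T.l 816) (T.l 816)) (T.l 816))))), by decide +kernel⟩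

def B012R_214 :
    ∃ t, chk3 (onCell 0 67108864 0 1073741824 536870912 50465866 (corW 3 c0B eng mog cB012R gB2q0 gB1q2 gB4q1 gB5q1 dB2q0 dB1q2 dB4q1 dB5q1 true true)) t 1 1 1 = true :=
  ⟨(T.b (T.b (T.l 816) (T.b (T.l 816) (T.a (T.l 816) (T.l 1)))) (T.l 1)), by decide +kernel⟩

def B012R_215 :
    ∃ t, chk3 (onCell 0 67108864 0 1073741824 536870912 50465866 (corW 3 c0B eng mog cB012R gB2q0 gB1q2 gB5q1 gB6q1 dB2q0 dB1q2 dB5q1 dB6q1 true true)) t 1 1 1 = true :=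
  ⟨(T.b (T.b (T.l 816) (T.b (T.l 816) (T.l 1))) (T.l 1)), by decide +kernel⟩

def B012R_223 :
    ∃ t, chk3 (onCell 0 67108864 0 1073741824 536870912 50465866 (corW 3 c0B eng mog cB012R gB2q0 gB2q2 gB3q1 gB4q1 dB2q0 dB2q2 dB3q1 dB4q1 false true)) t 1 1 1 = true :=
  ⟨(T.b (T.b (T.l 2) (T.a (T.l 2) (T.b (T.l 2) (T.b (T.l 2) (T.l 816))))) (T.b (T.a (T.l 816) (T.a (T.b (T.l 816) (T.l 816)) (T.l 816))) (T.a (T.a (T.l 816) (T.b (T.l 816) (T.l 816))) (T.a (T.b (T.l 816) (T.l 816)) (T.l 816))))), by decide +kernel⟩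

def B012R_224 :
    ∃ t, chk3 (onCell 0 67108864 0 1073741824 536870912 50465866 (corW 3 c0B eng mog cB012R gB2q0 gB2q2 gB4q1 gB5q1 dB2q0 dB2q2 dB4q1 dB5q1 true true)) t 1 1 1 = true :=
  ⟨(T.b (T.b (T.l 2) (T.a (T.l 816) (T.b (T.l 816) (T.b (T.l 816) (T.l 816))))) (T.b (T.a (T.l 816) (T.a (T.b (T.l 816) (T.l 1)) (T.l 816))) (T.l 1))), by decide +kernel⟩

def B012R_225 :
    ∃ t, chk3 (onCell 0 67108864 0 1073741824 536870912 50465866 (corW 3 c0B eng mog cB012R gB2q0 gB2q2 gB5q1 gB6q1 dB2q0 dB2q2 dB5q1 dB6q1 true true)) t 1 1 1 = true :=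
  ⟨(T.b (T.b (T.l 816) (T.b (T.l 816) (T.a (T.l 816) (T.b (T.l 816) (T.l 1))))) (T.b (T.b (T.l 1) (T.l 1)) (T.l 1))), by decide +kernel⟩

def B012R_233 :
    ∃ t, chk3 (onCell 0 67108864 0 1073741824 536870912 50465866 (corW 3 c0B eng mog cB012R gB2q0 gB3q2 gB3q1 gB4q1 dB2q0 dB3q2 dB3q1 dB4q1 false true)) t 1 1 1 = true :=
  ⟨(T.l 2), by decide +kernel⟩

def B012R_234 :
    ∃ t, chk3 (onCell 0 67108864 0 1073741824 536870912 50465866 (corW 3 c0B eng mog cB012R gB2q0 gB3q2 gB4q1 gB5q1 dB2q0 dB3q2 dB4q1 dB5q1 true true)) t 1 1 1 = true :=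
  ⟨(T.l 2), by decide +kernel⟩

def B012R_235 :
    ∃ t, chk3 (onCell 0 67108864 0 1073741824 536870912 50465866 (corW 3 c0B eng mog cB012R gB2q0 gB3q2 gB5q1 gB6q1 dB2q0 dB3q2 dB5q1 dB6q1 true true)) t 1 1 1 = true :=
  ⟨(T.b (T.l 2) (T.l 2)), by decide +kernel⟩

def B012R_303 :
    ∃ t, chk3 (onCell 0 67108864 0 1073741824 536870912 50465866 (corW 3 c0B eng mog cB012R gB3q0 gB0q2 gB3q1 gB4q1 dB3q0 dB0q2 dB3q1 dB4q1 false true)) t 1 1 1 = true :=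
  ⟨(T.b (T.l 2) (T.b (T.a (T.l 816) (T.a (T.l 816) (T.b (T.l 816) (T.l 816)))) (T.b (T.a (T.l 816) (T.b (T.l 816) (T.l 816))) (T.a (T.a (T.l 816) (T.l 816)) (T.a (T.l 816) (T.l 816)))))), by decide +kernel⟩

def B012R_304 :
    ∃ t, chk3 (onCell 0 67108864 0 1073741824 536870912 50465866 (corW 3 c0B eng mog cB012R gB3q0 gB0q2 gB4q1 gB5q1 dB3q0 dB0q2 dB4q1 dB5q1 true true)) t 1 1 1 = true :=
  ⟨(T.b (T.l 2) (T.b (T.a (T.l 816) (T.a (T.l 816) (T.l 816))) (T.a (T.b (T.l 816) (T.l 1)) (T.l 1)))), by decide +kernel⟩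

def B012R_305 :
    ∃ t, chk3 (onCell 0 67108864 0 1073741824 536870912 50465866 (corW 3 c0B eng mog cB012R gB3q0 gB0q2 gB5q1 gB6q1 dB3q0 dB0q2 dB5q1 dB6q1 true true)) t 1 1 1 = true :=
  ⟨(T.b (T.b (T.l 2) (T.l 2)) (T.b (T.a (T.l 816) (T.a (T.l 816) (T.l 816))) (T.a (T.b (T.l 816) (T.l 1)) (T.l 1)))), by decide +kernel⟩

def B012R_313 :
    ∃ t, chk3 (onCell 0 67108864 0 1073741824 536870912 50465866 (corW 3 c0B eng mog cB012R gB3q0 gB1q2 gB3q1 gB4q1 dB3q0 dB1q2 dB3q1 dB4q1 false true)) t 1 1 1 = true :=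
  ⟨(T.b (T.l 2) (T.b (T.a (T.l 2) (T.b (T.l 2) (T.l 880))) (T.b (T.a (T.l 816) (T.b (T.l 816) (T.l 816))) (T.a (T.a (T.l 816) (T.l 816)) (T.b (T.l 816) (T.l 816)))))), by decide +kernel⟩

def B012R_314 :
    ∃ t, chk3 (onCell 0 67108864 0 1073741824 536870912 50465866 (corW 3 c0B eng mog cB012R gB3q0 gB1q2 gB4q1 gB5q1 dB3q0 dB1q2 dB4q1 dB5q1 true true)) t 1 1 1 = true :=
  ⟨(T.b (T.l 2) (T.b (T.a (T.l 816) (T.b (T.l 2) (T.l 816))) (T.b (T.a (T.l 816) (T.l 880)) (T.a (T.b (T.l 816) (T.l 1)) (T.l 1))))), by decide +kernel⟩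

def B012R_315 :
    ∃ t, chk3 (onCell 0 67108864 0 1073741824 536870912 50465866 (corW 3 c0B eng mog cB012R gB3q0 gB1q2 gB5q1 gB6q1 dB3q0 dB1q2 dB5q1 dB6q1 true true)) t 1 1 1 = true :=
  ⟨(T.b (T.l 2) (T.b (T.a (T.l 816) (T.b (T.l 816) (T.l 880))) (T.a (T.b (T.l 816) (T.b (T.l 816) (T.l 1))) (T.a (T.l 816) (T.l 1))))), by decide +kernel⟩

def B012R_323 :
    ∃ t, chk3 (onCell 0 67108864 0 1073741824 536870912 50465866 (corW 3 c0B eng mog cB012R gB3q0 gB2q2 gB3q1 gB4q1 dB3q0 dB2q2 dB3q1 dB4q1 false true)) t 1 1 1 = true :=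
  ⟨(T.b (T.l 2) (T.b (T.l 2) (T.l 2))), by decide +kernel⟩

def B012R_324 :
    ∃ t, chk3 (onCell 0 67108864 0 1073741824 536870912 50465866 (corW 3 c0B eng mog cB012R gB3q0 gB2q2 gB4q1 gB5q1 dB3q0 dB2q2 dB4q1 dB5q1 true true)) t 1 1 1 = true :=
  ⟨(T.b (T.l 2) (T.b (T.l 2) (T.l 2))), by decide +kernel⟩

def B012R_325 :
    ∃ t, chk3 (onCell 0 67108864 0 1073741824 536870912 50465866 (corW 3 c0B eng mog cB012R gB3q0 gB2q2 gB5q1 gB6q1 dB3q0 dB2q2 dB5q1 dB6q1 true true)) t 1 1 1 = true :=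
  ⟨(T.b (T.l 2) (T.b (T.l 2) (T.l 2))), by decide +kernel⟩

def B012R_333 :
    ∃ t, chk3 (onCell 0 67108864 0 1073741824 536870912 50465866 (corW 3 c0B eng mog cB012R gB3q0 gB3q2 gB3q1 gB4q1 dB3q0 dB3q2 dB3q1 dB4q1 false true)) t 1 1 1 = true :=
  ⟨(T.l 2), by decide +kernel⟩

def B012R_334 :
    ∃ t, chk3 (onCell 0 67108864 0 1073741824 536870912 50465866 (corW 3 c0B eng mog cB012R gB3q0 gB3q2 gB4q1 gB5q1 dB3q0 dB3q2 dB4q1 dB5q1 true true)) t 1 1 1 = true :=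
  ⟨(T.l 2), by decide +kernel⟩

def B012R_335 :
    ∃ t, chk3 (onCell 0 67108864 0 1073741824 536870912 50465866 (corW 3 c0B eng mog cB012R gB3q0 gB3q2 gB5q1 gB6q1 dB3q0 dB3q2 dB5q1 dB6q1 true true)) t 1 1 1 = true :=
  ⟨(T.l 2), by decide +kernel⟩

def B022E_000 :
    ∃ t, chk3 (onCell 0 67108864 0 1073741824 536870912 50465866 (corW 3 c0B eng mog cB022E gB0q0 gB0q2 gB0q2 gB1q2 dB0q0 dB0q2 dB0q2 dB1q2 true true)) t 1 1 1 = true :=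
  ⟨(T.l 2), by decide +kernel⟩

def B022E_001 :
    ∃ t, chk3 (onCell 0 67108864 0 1073741824 536870912 50465866 (corW 3 c0B eng mog cB022E gB0q0 gB0q2 gB1q2 gB2q2 dB0q0 dB0q2 dB1q2 dB2q2 true true)) t 1 1 1 = true :=
  ⟨(T.l 2), by decide +kernel⟩

def B022E_002 :
    ∃ t, chk3 (onCell 0 67108864 0 1073741824 536870912 50465866 (corW 3 c0B eng mog cB022E gB0q0 gB0q2 gB2q2 gB3q2 dB0q0 dB0q2 dB2q2 dB3q2 true true)) t 1 1 1 = true :=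
  ⟨(T.l 2), by decide +kernel⟩

def B022E_003 :
    ∃ t, chk3 (onCell 0 67108864 0 1073741824 536870912 50465866 (corW 3 c0B eng mog cB022E gB0q0 gB0q2 gB3q2 gB4q2 dB0q0 dB0q2 dB3q2 dB4q2 true false)) t 1 1 1 = true :=
  ⟨(T.b (T.a (T.a (T.b (T.b (T.c (T.b (T.l 204) (T.l 204)) (T.l 204)) (T.l 204)) (T.l 0)) (T.a (T.b (T.l 204) (T.l 0)) (T.b (T.a (T.l 204) (T.b (T.l 204) (T.l 204))) (T.l 0)))) (T.a (T.b (T.a (T.b (T.b (T.l 204) (T.l 204)) (T.b (T.l 204) (T.l 204))) (T.b (T.l 204) (T.l 0))) (T.a (T.l 0) (T.b (T.l 0) (T.l 0)))) (T.b (T.a (T.b (T.l 204) (T.l 204)) (T.l 0)) (T.a (T.b (T.l 0) (T.l 0)) (T.l 0))))) (T.a (T.a (T.b (T.l 0) (T.b (T.l 816) (T.c (T.b (T.l 816) (T.b (T.l 816) (T.l 816))) (T.l 816)))) (T.a (T.b (T.l 0) (T.b (T.l 816) (T.l 816))) (T.b (T.l 0) (T.b (T.l 816) (T.l 820))))) (T.b (T.a (T.c (T.l 0) (T.l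 0)) (T.b (T.l 0) (T.l 0))) (T.a (T.a (T.c (T.l 816) (T.l 816)) (T.b (T.l 816) (T.l 816))) (T.b (T.l 0) (T.a (T.l 816) (T.l 816))))))), by decide +kernel⟩

def B022E_010 :
    ∃ t, chk3 (onCell 0 67108864 0 1073741824 536870912 50465866 (corW 3 c0B eng mog cB022E gB0q0 gB1q2 gB0q2 gB1q2 dB0q0 dB1q2 dB0q2 dB1q2 true true)) t 1 1 1 = true :=
  ⟨(T.l 2), by decide +kernel⟩

def B022E_011 :
    ∃ t, chk3 (onCell 0 67108864 0 1073741824 536870912 50465866 (corW 3 c0B eng mog cB022E gB0q0 gB1q2 gB1q2 gB2q2 dB0q0 dB1q2 dB1q2 dB2q2 true true)) t 1 1 1 = true :=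
  ⟨(T.l 2), by decide +kernel⟩

def B022E_012 :
    ∃ t, chk3 (onCell 0 67108864 0 1073741824 536870912 50465866 (corW 3 c0B eng mog cB022E gB0q0 gB1q2 gB2q2 gB3q2 dB0q0 dB1q2 dB2q2 dB3q2 true true)) t 1 1 1 = true :=
  ⟨(T.l 2), by decide +kernel⟩

def B022E_013 :
    ∃ t, chk3 (onCell 0 67108864 0 1073741824 536870912 50465866 (corW 3 c0B eng mog cB022E gB0q0 gB1q2 gB3q2 gB4q2 dB0q0 dB1q2 dB3q2 dB4q2 true false)) t 1 1 1 = true :=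
  ⟨(T.b (T.a (T.a (T.b (T.c (T.b (T.b (T.l 204) (T.l 204)) (T.l 204)) (T.l 204)) (T.l 204)) (T.a (T.b (T.l 220) (T.l 204)) (T.b (T.a (T.l 204) (T.b (T.b (T.l 204) (T.l 204)) (T.l 204))) (T.l 0)))) (T.a (T.b (T.a (T.b (T.a (T.l 204) (T.l 204)) (T.b (T.l 204) (T.l 204))) (T.b (T.l 204) (T.l 204))) (T.a (T.l 0) (T.b (T.l 0) (T.l 204)))) (T.b (T.a (T.b (T.l 204) (T.l 204)) (T.b (T.l 204) (T.l 204))) (T.b (T.b (T.l 0) (T.l 0)) (T.b (T.l 0) (T.l 0)))))) (T.a (T.a (T.b (T.l 0) (T.l 816)) (T.a (T.b (T.l 0) (T.l 816)) (T.b (T.l 0) (T.b (T.l 0) (T.l 816))))) (T.b (T.a (T.l 0) (T.b (T.l 0) (T.l 0))) (T.a (T.a (T.l 0) (T.l 816)) (T.a (T.l 816) (T.l 0)))))), by decide +kernel⟩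

def B022E_020 :
    ∃ t, chk3 (onCell 0 67108864 0 1073741824 536870912 50465866 (corW 3 c0B eng mog cB022E gB0q0 gB2q2 gB0q2 gB1q2 dB0q0 dB2q2 dB0q2 dB1q2 true true)) t 1 1 1 = true :=
  ⟨(T.l 2), by decide +kernel⟩

def B022E_021 :
    ∃ t, chk3 (onCell 0 67108864 0 1073741824 536870912 50465866 (corW 3 c0B eng mog cB022E gB0q0 gB2q2 gB1q2 gB2q2 dB0q0 dB2q2 dB1q2 dB2q2 true true)) t 1 1 1 = true :=
  ⟨(T.l 2), by decide +kernel⟩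

def B022E_022 :
    ∃ t, chk3 (onCell 0 67108864 0 1073741824 536870912 50465866 (corW 3 c0B eng mog cB022E gB0q0 gB2q2 gB2q2 gB3q2 dB0q0 dB2q2 dB2q2 dB3q2 true true)) t 1 1 1 = true :=
  ⟨(T.l 2), by decide +kernel⟩

def B022E_023 :
    ∃ t, chk3 (onCell 0 67108864 0 1073741824 536870912 50465866 (corW 3 c0B eng mog cB022E gB0q0 gB2q2 gB3q2 gB4q2 dB0q0 dB2q2 dB3q2 dB4q2 true false)) t 1 1 1 = true :=
  ⟨(T.b (T.a (T.a (T.b (T.c (T.l 204) (T.b (T.b (T.l 204) (T.l 204)) (T.l 204))) (T.l 204)) (T.a (T.b (T.c (T.l 204) (T.l 204)) (T.l 204)) (T.b (T.b (T.a (T.l 204) (T.c (T.l 204) (T.l 204))) (T.l 204)) (T.l 204)))) (T.b (T.a (T.a (T.b (T.a (T.b (T.l 204) (T.l 204)) (T.b (T.l 204) (T.l 204))) (T.c (T.l 204) (T.l 220))) (T.b (T.a (T.b (T.l 204) (T.l 204)) (T.l 220)) (T.b (T.l 204) (T.l 204)))) (T.b (T.a (T.b (T.l 204)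 (T.l 204)) (T.b (T.l 204) (T.l 204))) (T.a (T.l 204) (T.l 204)))) (T.a (T.a (T.l 204) (T.b (T.l 204) (T.l 204))) (T.b (T.b (T.l 220) (T.l 204)) (T.b (T.l 204) (T.l 0)))))) (T.b (T.a (T.a (T.l 0) (T.a (T.l 0) (T.l 0))) (T.a (T.l 0) (T.b (T.b (T.l 0) (T.l 0)) (T.l 0)))) (T.a (T.a (T.l 0) (T.a (T.l 0) (T.l 0))) (T.a (T.b (T.l 0) (T.l 0)) (T.b (T.l 0) (T.l 0)))))), by decide +kernel⟩

def B022E_030 :
    ∃ t, chk3 (onCell 0 67108864 0 1073741824 536870912 50465866 (corW 3 c0B eng mog cB022E gB0q0 gB3q2 gB0q2 gB1q2 dB0q0 dB3q2 dB0q2 dB1q2 true true)) t 1 1 1 = true :=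
  ⟨(T.l 2), by decide +kernel⟩

def B022E_031 :
    ∃ t, chk3 (onCell 0 67108864 0 1073741824 536870912 50465866 (corW 3 c0B eng mog cB022E gB0q0 gB3q2 gB1q2 gB2q2 dB0q0 dB3q2 dB1q2 dB2q2 true true)) t 1 1 1 = true :=
  ⟨(T.l 2), by decide +kernel⟩

def B022E_032 :
    ∃ t, chk3 (onCell 0 67108864 0 1073741824 536870912 50465866 (corW 3 c0B eng mog cB022E gB0q0 gB3q2 gB2q2 gB3q2 dB0q0 dB3q2 dB2q2 dB3q2 true true)) t 1 1 1 = true :=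
  ⟨(T.l 2), by decide +kernel⟩

def B022E_033 :
    ∃ t, chk3 (onCell 0 67108864 0 1073741824 536870912 50465866 (corW 3 c0B eng mog cB022E gB0q0 gB3q2 gB3q2 gB4q2 dB0q0 dB3q2 dB3q2 dB4q2 true false)) t 1 1 1 = true :=
  ⟨(T.b (T.b (T.a (T.a (T.l 204) (T.a (T.l 204) (T.a (T.l 204) (T.b (T.l 204) (T.l 204))))) (T.a (T.a (T.b (T.c (T.l 204) (T.l 204)) (T.l 204)) (T.b (T.b (T.l 204) (T.l 204)) (T.l 204))) (T.b (T.a (T.b (T.l 204) (T.l 204)) (T.b (T.l 204) (T.l 204))) (T.b (T.l 220) (T.l 204))))) (T.a (T.a (T.l 0) (T.a (T.l 0) (T.l 0))) (T.a (T.a (T.l 0) (T.b (T.l 204) (T.l 204))) (T.b (T.b (T.l 204) (T.l 204)) (T.l 0))))) (T.b (T.b (T.a (T.a (T.l 0) (T.c (T.l 0) (T.l 0))) (T.a (T.l 0) (T.l 0))) (T.a (T.a (T.l 0) (T.c (T.l 0) (T.l 0))) (T.a (T.l 0) (T.l 0)))) (T.a (T.a (T.c (T.l 816) (T.l 0)) (T.a (T.b (T.l 0) (T.l 816))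 (T.c (T.b (T.l 816) (T.l 816)) (T.l 0)))) (T.a (T.b (T.l 0) (T.a (T.b (T.l 816) (T.l 816)) (T.l 816))) (T.b (T.l 0) (T.l 64)))))), by decide +kernel⟩

def B022E_100 :
    ∃ t, chk3 (onCell 0 67108864 0 1073741824 536870912 50465866 (corW 3 c0B eng mog cB022E gB1q0 gB0q2 gB0q2 gB1q2 dB1q0 dB0q2 dB0q2 dB1q2 true true)) t 1 1 1 = true :=
  ⟨(T.l 2), by decide +kernel⟩

def B022E_101 :
    ∃ t, chk3 (onCell 0 67108864 0 1073741824 536870912 50465866 (corW 3 c0B eng mog cB022E gB1q0 gB0q2 gB1q2 gB2q2 dB1q0 dB0q2 dB1q2 dB2q2 true true)) t 1 1 1 = true :=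
  ⟨(T.l 2), by decide +kernel⟩

def B022E_102 :
    ∃ t, chk3 (onCell 0 67108864 0 1073741824 536870912 50465866 (corW 3 c0B eng mog cB022E gB1q0 gB0q2 gB2q2 gB3q2 dB1q0 dB0q2 dB2q2 dB3q2 true true)) t 1 1 1 = true :=
  ⟨(T.l 2), by decide +kernel⟩

def B022E_103 :
    ∃ t, chk3 (onCell 0 67108864 0 1073741824 536870912 50465866 (corW 3 c0B eng mog cB022E gB1q0 gB0q2 gB3q2 gB4q2 dB1q0 dB0q2 dB3q2 dB4q2 true false)) t 1 1 1 = true :=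
  ⟨(T.a (T.a (T.b (T.b (T.b (T.c (T.b (T.l 204) (T.l 204)) (T.l 204)) (T.l 204)) (T.l 0)) (T.l 0)) (T.b (T.a (T.b (T.l 204) (T.l 0)) (T.b (T.a (T.l 204) (T.b (T.l 204) (T.l 204))) (T.l 0))) (T.a (T.l 0) (T.l 0)))) (T.b (T.a (T.b (T.a (T.b (T.b (T.l 204) (T.l 204)) (T.l 0)) (T.b (T.l 204) (T.l 0))) (T.a (T.l 0) (T.l 0))) (T.b (T.a (T.b (T.l 204) (T.l 0)) (T.l 16)) (T.b (T.l 0) (T.l 0)))) (T.b (T.a (T.l 0) (T.b (T.l 0) (T.l 0))) (T.a (T.b (T.l 816) (T.l 816)) (T.l 816))))), by decide +kernel⟩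

def B022E_110 :
    ∃ t, chk3 (onCell 0 67108864 0 1073741824 536870912 50465866 (corW 3 c0B eng mog cB022E gB1q0 gB1q2 gB0q2 gB1q2 dB1q0 dB1q2 dB0q2 dB1q2 true true)) t 1 1 1 = true :=
  ⟨(T.l 2), by decide +kernel⟩

def B022E_111 :
    ∃ t, chk3 (onCell 0 67108864 0 1073741824 536870912 50465866 (corW 3 c0B eng mog cB022E gB1q0 gB1q2 gB1q2 gB2q2 dB1q0 dB1q2 dB1q2 dB2q2 true true)) t 1 1 1 = true :=
  ⟨(T.l 2), by decide +kernel⟩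

def B022E_112 :
    ∃ t, chk3 (onCell 0 67108864 0 1073741824 536870912 50465866 (corW 3 c0B eng mog cB022E gB1q0 gB1q2 gB2q2 gB3q2 dB1q0 dB1q2 dB2q2 dB3q2 true true)) t 1 1 1 = true :=
  ⟨(T.l 2), by decide +kernel⟩

def B022E_113 :
    ∃ t, chk3 (onCell 0 67108864 0 1073741824 536870912 50465866 (corW 3 c0B eng mog cB022E gB1q0 gB1q2 gB3q2 gB4q2 dB1q0 dB1q2 dB3q2 dB4q2 true false)) t 1 1 1 = true :=
  ⟨(T.b (T.a (T.a (T.b (T.c (T.b (T.b (T.l 204) (T.l 204)) (T.l 204)) (T.l 204)) (T.l 0)) (T.a (T.b (T.l 204) (T.l 0)) (T.b (T.a (T.l 204) (T.b (T.b (T.l 204) (T.l 204)) (T.l 204))) (T.l 0)))) (T.b (T.a (T.a (T.b (T.a (T.l 204) (T.l 204)) (T.l 0)) (T.b (T.l 204) (T.l 204))) (T.a (T.b (T.l 204) (T.l 204)) (T.b (T.l 204) (T.l 204)))) (T.a (T.a (T.l 0) (T.l 0)) (T.b (T.l 0) (T.l 0))))) (T.a (T.a (T.l 0) (T.a (T.l 0) (T.l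 0))) (T.b (T.a (T.l 0) (T.b (T.l 0) (T.l 0))) (T.a (T.l 816) (T.l 816))))), by decide +kernel⟩

def B022E_120 :
    ∃ t, chk3 (onCell 0 67108864 0 1073741824 536870912 50465866 (corW 3 c0B eng mog cB022E gB1q0 gB2q2 gB0q2 gB1q2 dB1q0 dB2q2 dB0q2 dB1q2 true true)) t 1 1 1 = true :=
  ⟨(T.l 2), by decide +kernel⟩

def B022E_121 :
    ∃ t, chk3 (onCell 0 67108864 0 1073741824 536870912 50465866 (corW 3 c0B eng mog cB022E gB1q0 gB2q2 gB1q2 gB2q2 dB1q0 dB2q2 dB1q2 dB2q2 true true)) t 1 1 1 = true :=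
  ⟨(T.l 2), by decide +kernel⟩

def B022E_122 :
    ∃ t, chk3 (onCell 0 67108864 0 1073741824 536870912 50465866 (corW 3 c0B eng mog cB022E gB1q0 gB2q2 gB2q2 gB3q2 dB1q0 dB2q2 dB2q2 dB3q2 true true)) t 1 1 1 = true :=
  ⟨(T.l 2), by decide +kernel⟩

def B022E_123 :
    ∃ t, chk3 (onCell 0 67108864 0 1073741824 536870912 50465866 (corW 3 c0B eng mog cB022E gB1q0 gB2q2 gB3q2 gB4q2 dB1q0 dB2q2 dB3q2 dB4q2 true false)) t 1 1 1 = true :=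
  ⟨(T.b (T.a (T.a (T.b (T.c (T.l 204) (T.b (T.b (T.l 220) (T.l 204)) (T.l 204))) (T.l 204)) (T.a (T.b (T.c (T.l 204) (T.l 204)) (T.l 204)) (T.b (T.b (T.a (T.l 204) (T.c (T.l 204) (T.b (T.l 204) (T.l 204)))) (T.l 204)) (T.l 0)))) (T.b (T.a (T.a (T.b (T.a (T.b (T.l 220) (T.l 204)) (T.b (T.l 204) (T.l 204))) (T.b (T.l 204) (T.l 204))) (T.b (T.c (T.l 204) (T.b (T.l 204) (T.l 204))) (T.l 204))) (T.b (T.a (T.b (T.l 204) (T.l 204)) (T.b (T.l 204) (T.l 204))) (T.a (T.l 204) (T.l 204)))) (T.a (T.a (T.l 0) (T.b (T.l 204) (T.l 204))) (T.b (T.b (T.l 204) (T.l 0)) (T.l 0))))) (T.a (T.a (T.l 0) (T.c (T.l 0) (T.l 0))) (T.b (T.a (T.l 0) (T.b (T.l 0) (T.l 0))) (T.a (T.l 0) (T.l 0))))), by decide +kernel⟩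

def B022E_130 :
    ∃ t, chk3 (onCell 0 67108864 0 1073741824 536870912 50465866 (corW 3 c0B eng mog cB022E gB1q0 gB3q2 gB0q2 gB1q2 dB1q0 dB3q2 dB0q2 dB1q2 true true)) t 1 1 1 = true :=
  ⟨(T.l 2), by decide +kernel⟩

def B022E_131 :
    ∃ t, chk3 (onCell 0 67108864 0 1073741824 536870912 50465866 (corW 3 c0B eng mog cB022E gB1q0 gB3q2 gB1q2 gB2q2 dB1q0 dB3q2 dB1q2 dB2q2 true true)) t 1 1 1 = true :=
  ⟨(T.l 2), by decide +kernel⟩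

def B022E_132 :
    ∃ t, chk3 (onCell 0 67108864 0 1073741824 536870912 50465866 (corW 3 c0B eng mog cB022E gB1q0 gB3q2 gB2q2 gB3q2 dB1q0 dB3q2 dB2q2 dB3q2 true true)) t 1 1 1 = true :=
  ⟨(T.l 2), by decide +kernel⟩

def B022E_133 :
    ∃ t, chk3 (onCell 0 67108864 0 1073741824 536870912 50465866 (corW 3 c0B eng mog cB022E gB1q0 gB3q2 gB3q2 gB4q2 dB1q0 dB3q2 dB3q2 dB4q2 true false)) t 1 1 1 = true :=
  ⟨(T.b (T.b (T.a (T.a (T.l 204) (T.a (T.l 204) (T.a (T.l 204) (T.b (T.l 204) (T.l 204))))) (T.a (T.a (T.b (T.c (T.l 204) (T.l 204)) (T.l 0)) (T.b (T.b (T.l 204) (T.l 204)) (T.l 204))) (T.b (T.a (T.b (T.l 204) (T.l 204)) (T.b (T.l 204) (T.l 204))) (T.b (T.l 204) (T.l 204))))) (T.a (T.a (T.l 0) (T.l 272)) (T.a (T.a (T.l 0) (T.l 16)) (T.b (T.l 0) (T.l 0))))) (T.b (T.a (T.a (T.l 0) (T.l 0)) (T.a (T.l 0) (T.b (T.l 0) (T.l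 0)))) (T.a (T.a (T.l 816) (T.c (T.l 0) (T.l 0))) (T.a (T.l 0) (T.l 0))))), by decide +kernel⟩

def B022E_200 :
    ∃ t, chk3 (onCell 0 67108864 0 1073741824 536870912 50465866 (corW 3 c0B eng mog cB022E gB2q0 gB0q2 gB0q2 gB1q2 dB2q0 dB0q2 dB0q2 dB1q2 true true)) t 1 1 1 = true :=
  ⟨(T.l 2), by decide +kernel⟩

def B022E_201 :
    ∃ t, chk3 (onCell 0 67108864 0 1073741824 536870912 50465866 (corW 3 c0B eng mog cB022E gB2q0 gB0q2 gB1q2 gB2q2 dB2q0 dB0q2 dB1q2 dB2q2 true true)) t 1 1 1 = true :=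
  ⟨(T.l 2), by decide +kernel⟩

def B022E_202 :
    ∃ t, chk3 (onCell 0 67108864 0 1073741824 536870912 50465866 (corW 3 c0B eng mog cB022E gB2q0 gB0q2 gB2q2 gB3q2 dB2q0 dB0q2 dB2q2 dB3q2 true true)) t 1 1 1 = true :=
  ⟨(T.l 2), by decide +kernel⟩

def B022E_203 :
    ∃ t, chk3 (onCell 0 67108864 0 1073741824 536870912 50465866 (corW 3 c0B eng mog cB022E gB2q0 gB0q2 gB3q2 gB4q2 dB2q0 dB0q2 dB3q2 dB4q2 true false)) t 1 1 1 = true :=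
  ⟨(T.b (T.a (T.a (T.b (T.b (T.c (T.b (T.l 204) (T.l 204)) (T.l 204)) (T.l 204)) (T.l 0)) (T.a (T.b (T.l 0) (T.l 0)) (T.b (T.a (T.l 0) (T.b (T.l 204) (T.l 0))) (T.l 0)))) (T.a (T.b (T.a (T.b (T.b (T.l 204) (T.l 204)) (T.l 0)) (T.b (T.l 204) (T.l 0))) (T.b (T.l 0) (T.l 0))) (T.b (T.b (T.a (T.l 204) (T.l 204)) (T.l 0)) (T.l 0)))) (T.a (T.a (T.l 816) (T.l 0)) (T.b (T.a (T.l 816) (T.b (T.l 0) (T.l 816))) (T.a (T.l 816) (T.l 816))))), by decide +kernel⟩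

def B022E_210 :
    ∃ t, chk3 (onCell 0 67108864 0 1073741824 536870912 50465866 (corW 3 c0B eng mog cB022E gB2q0 gB1q2 gB0q2 gB1q2 dB2q0 dB1q2 dB0q2 dB1q2 true true)) t 1 1 1 = true :=
  ⟨(T.l 2), by decide +kernel⟩

def B022E_211 :
    ∃ t, chk3 (onCell 0 67108864 0 1073741824 536870912 50465866 (corW 3 c0B eng mog cB022E gB2q0 gB1q2 gB1q2 gB2q2 dB2q0 dB1q2 dB1q2 dB2q2 true true)) t 1 1 1 = true :=
  ⟨(T.l 2), by decide +kernel⟩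

def B022E_212 :
    ∃ t, chk3 (onCell 0 67108864 0 1073741824 536870912 50465866 (corW 3 c0B eng mog cB022E gB2q0 gB1q2 gB2q2 gB3q2 dB2q0 dB1q2 dB2q2 dB3q2 true true)) t 1 1 1 = true :=
  ⟨(T.l 2), by decide +kernel⟩

def B022E_213 :
    ∃ t, chk3 (onCell 0 67108864 0 1073741824 536870912 50465866 (corW 3 c0B eng mog cB022E gB2q0 gB1q2 gB3q2 gB4q2 dB2q0 dB1q2 dB3q2 dB4q2 true false)) t 1 1 1 = true :=
  ⟨(T.b (T.a (T.a (T.b (T.b (T.c (T.b (T.l 204) (T.l 204)) (T.l 204)) (T.l 204)) (T.l 0)) (T.a (T.b (T.b (T.l 204) (T.l 204)) (T.l 0)) (T.b (T.a (T.l 204) (T.b (T.b (T.l 204) (T.l 204)) (T.l 204))) (T.l 0)))) (T.b (T.a (T.a (T.b (T.a (T.l 204) (T.l 204)) (T.l 0)) (T.b (T.l 204) (T.l 0))) (T.b (T.a (T.l 204) (T.l 204)) (T.l 0))) (T.a (T.b (T.l 0) (T.l 0)) (T.l 16)))) (T.a (T.a (T.l 816) (T.l 0)) (T.b (T.a (T.l 0) (T.b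 (T.l 0) (T.l 816))) (T.b (T.l 0) (T.l 0))))), by decide +kernel⟩

def B022E_220 :
    ∃ t, chk3 (onCell 0 67108864 0 1073741824 536870912 50465866 (corW 3 c0B eng mog cB022E gB2q0 gB2q2 gB0q2 gB1q2 dB2q0 dB2q2 dB0q2 dB1q2 true true)) t 1 1 1 = true :=
  ⟨(T.l 2), by decide +kernel⟩

def B022E_221 :
    ∃ t, chk3 (onCell 0 67108864 0 1073741824 536870912 50465866 (corW 3 c0B eng mog cB022E gB2q0 gB2q2 gB1q2 gB2q2 dB2q0 dB2q2 dB1q2 dB2q2 true true)) t 1 1 1 = true :=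
  ⟨(T.l 2), by decide +kernel⟩

def B022E_222 :
    ∃ t, chk3 (onCell 0 67108864 0 1073741824 536870912 50465866 (corW 3 c0B eng mog cB022E gB2q0 gB2q2 gB2q2 gB3q2 dB2q0 dB2q2 dB2q2 dB3q2 true true)) t 1 1 1 = true :=
  ⟨(T.l 2), by decide +kernel⟩

def B022E_223 :
    ∃ t, chk3 (onCell 0 67108864 0 1073741824 536870912 50465866 (corW 3 c0B eng mog cB022E gB2q0 gB2q2 gB3q2 gB4q2 dB2q0 dB2q2 dB3q2 dB4q2 true false)) t 1 1 1 = true :=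
  ⟨(T.b (T.a (T.a (T.b (T.b (T.c (T.l 204) (T.c (T.l 204) (T.l 204))) (T.l 204)) (T.l 0)) (T.b (T.a (T.c (T.l 204) (T.b (T.l 204) (T.l 204))) (T.b (T.a (T.l 204) (T.c (T.l 204) (T.b (T.l 204) (T.l 204)))) (T.l 204))) (T.l 0))) (T.b (T.a (T.b (T.a (T.b (T.a (T.b (T.l 204) (T.l 204)) (T.l 204)) (T.l 204)) (T.b (T.b (T.l 204) (T.l 204)) (T.l 204))) (T.a (T.l 0) (T.l 204))) (T.b (T.a (T.b (T.b (T.l 204) (T.l 204)) (T.l 204)) (T.b (T.l 204) (T.l 204))) (T.l 0))) (T.a (T.b (T.l 0) (T.l 0)) (T.b (T.l 0) (T.l 0))))) (T.b (T.a (T.a (T.l 0) (T.l 0)) (T.a (T.l 0) (T.l 0))) (T.a (T.a (T.l 816) (T.l 0)) (T.l 0)))), by decide +kernel⟩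

def B022E_230 :
    ∃ t, chk3 (onCell 0 67108864 0 1073741824 536870912 50465866 (corW 3 c0B eng mog cB022E gB2q0 gB3q2 gB0q2 gB1q2 dB2q0 dB3q2 dB0q2 dB1q2 true true)) t 1 1 1 = true :=
  ⟨(T.l 2), by decide +kernel⟩

def B022E_231 :
    ∃ t, chk3 (onCell 0 67108864 0 1073741824 536870912 50465866 (corW 3 c0B eng mog cB022E gB2q0 gB3q2 gB1q2 gB2q2 dB2q0 dB3q2 dB1q2 dB2q2 true true)) t 1 1 1 = true :=
  ⟨(T.l 2), by decide +kernel⟩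

def B022E_232 :
    ∃ t, chk3 (onCell 0 67108864 0 1073741824 536870912 50465866 (corW 3 c0B eng mog cB022E gB2q0 gB3q2 gB2q2 gB3q2 dB2q0 dB3q2 dB2q2 dB3q2 true true)) t 1 1 1 = true :=
  ⟨(T.l 2), by decide +kernel⟩

def B022E_233 :
    ∃ t, chk3 (onCell 0 67108864 0 1073741824 536870912 50465866 (corW 3 c0B eng mog cB022E gB2q0 gB3q2 gB3q2 gB4q2 dB2q0 dB3q2 dB3q2 dB4q2 true false)) t 1 1 1 = true :=
  ⟨(T.b (T.b (T.a (T.a (T.l 204) (T.a (T.l 0) (T.b (T.a (T.l 204) (T.l 204)) (T.l 0)))) (T.a (T.b (T.a (T.a (T.l 204) (T.l 204)) (T.b (T.l 204) (T.l 204))) (T.b (T.l 0) (T.l 0))) (T.b (T.b (T.a (T.l 204) (T.l 204)) (T.l 204)) (T.l 0)))) (T.a (T.a (T.l 0) (T.l 0)) (T.a (T.b (T.l 0) (T.l 0)) (T.l 16)))) (T.b (T.a (T.a (T.l 816) (T.l 0)) (T.a (T.l 0) (T.l 0))) (T.a (T.a (T.l 816) (T.l 816)) (T.l 0)))), by decide +kernel⟩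

def B022E_300 :
    ∃ t, chk3 (onCell 0 67108864 0 1073741824 536870912 50465866 (corW 3 c0B eng mog cB022E gB3q0 gB0q2 gB0q2 gB1q2 dB3q0 dB0q2 dB0q2 dB1q2 true true)) t 1 1 1 = true :=
  ⟨(T.l 2), by decide +kernel⟩

def B022E_301 :
    ∃ t, chk3 (onCell 0 67108864 0 1073741824 536870912 50465866 (corW 3 c0B eng mog cB022E gB3q0 gB0q2 gB1q2 gB2q2 dB3q0 dB0q2 dB1q2 dB2q2 true true)) t 1 1 1 = true :=
  ⟨(T.l 2), by decide +kernel⟩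

def B022E_302 :
    ∃ t, chk3 (onCell 0 67108864 0 1073741824 536870912 50465866 (corW 3 c0B eng mog cB022E gB3q0 gB0q2 gB2q2 gB3q2 dB3q0 dB0q2 dB2q2 dB3q2 true true)) t 1 1 1 = true :=
  ⟨(T.l 2), by decide +kernel⟩

def B022E_303 :
    ∃ t, chk3 (onCell 0 67108864 0 1073741824 536870912 50465866 (corW 3 c0B eng mog cB022E gB3q0 gB0q2 gB3q2 gB4q2 dB3q0 dB0q2 dB3q2 dB4q2 true false)) t 1 1 1 = true :=
  ⟨(T.b (T.a (T.a (T.b (T.b (T.c (T.a (T.l 204) (T.l 204)) (T.l 204)) (T.l 0)) (T.l 0)) (T.b (T.a (T.l 0) (T.a (T.l 0) (T.b (T.l 0) (T.l 0)))) (T.l 0))) (T.b (T.a (T.b (T.a (T.b (T.l 204) (T.l 0)) (T.l 0)) (T.l 0)) (T.b (T.a (T.l 0) (T.l 0)) (T.l 0))) (T.a (T.l 4) (T.l 0)))) (T.b (T.a (T.a (T.l 816) (T.l 0)) (T.a (T.l 816) (T.l 0))) (T.a (T.a (T.l 816) (T.l 816)) (T.l 816)))), by decide +kernel⟩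

def B022E_310 :
    ∃ t, chk3 (onCell 0 67108864 0 1073741824 536870912 50465866 (corW 3 c0B eng mog cB022E gB3q0 gB1q2 gB0q2 gB1q2 dB3q0 dB1q2 dB0q2 dB1q2 true true)) t 1 1 1 = true :=
  ⟨(T.l 2), by decide +kernel⟩

def B022E_311 :
    ∃ t, chk3 (onCell 0 67108864 0 1073741824 536870912 50465866 (corW 3 c0B eng mog cB022E gB3q0 gB1q2 gB1q2 gB2q2 dB3q0 dB1q2 dB1q2 dB2q2 true true)) t 1 1 1 = true :=
  ⟨(T.l 2), by decide +kernel⟩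

def B022E_312 :
    ∃ t, chk3 (onCell 0 67108864 0 1073741824 536870912 50465866 (corW 3 c0B eng mog cB022E gB3q0 gB1q2 gB2q2 gB3q2 dB3q0 dB1q2 dB2q2 dB3q2 true true)) t 1 1 1 = true :=
  ⟨(T.l 2), by decide +kernel⟩

def B022E_313 :
    ∃ t, chk3 (onCell 0 67108864 0 1073741824 536870912 50465866 (corW 3 c0B eng mog cB022E gB3q0 gB1q2 gB3q2 gB4q2 dB3q0 dB1q2 dB3q2 dB4q2 true false)) t 1 1 1 = true :=
  ⟨(T.b (T.a (T.a (T.b (T.b (T.c (T.b (T.l 204) (T.l 204)) (T.l 204)) (T.l 0)) (T.l 0)) (T.b (T.a (T.b (T.l 204) (T.l 0)) (T.a (T.l 0) (T.b (T.b (T.l 204) (T.l 204)) (T.l 0)))) (T.l 0))) (T.b (T.a (T.b (T.a (T.a (T.l 204) (T.l 204)) (T.l 220)) (T.l 0)) (T.b (T.a (T.l 0) (T.l 0)) (T.l 0))) (T.a (T.l 0) (T.l 0)))) (T.b (T.a (T.a (T.l 816) (T.l 0)) (T.a (T.l 816) (T.l 0))) (T.a (T.a (T.l 816) (T.l 816)) (T.l 816)))), by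 decide +kernel⟩

def B022E_320 :
    ∃ t, chk3 (onCell 0 67108864 0 1073741824 536870912 50465866 (corW 3 c0B eng mog cB022E gB3q0 gB2q2 gB0q2 gB1q2 dB3q0 dB2q2 dB0q2 dB1q2 true true)) t 1 1 1 = true :=
  ⟨(T.l 2), by decide +kernel⟩

def B022E_321 :
    ∃ t, chk3 (onCell 0 67108864 0 1073741824 536870912 50465866 (corW 3 c0B eng mog cB022E gB3q0 gB2q2 gB1q2 gB2q2 dB3q0 dB2q2 dB1q2 dB2q2 true true)) t 1 1 1 = true :=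
  ⟨(T.l 2), by decide +kernel⟩

def B022E_322 :
    ∃ t, chk3 (onCell 0 67108864 0 1073741824 536870912 50465866 (corW 3 c0B eng mog cB022E gB3q0 gB2q2 gB2q2 gB3q2 dB3q0 dB2q2 dB2q2 dB3q2 true true)) t 1 1 1 = true :=
  ⟨(T.l 2), by decide +kernel⟩

def B022E_323 :
    ∃ t, chk3 (onCell 0 67108864 0 1073741824 536870912 50465866 (corW 3 c0B eng mog cB022E gB3q0 gB2q2 gB3q2 gB4q2 dB3q0 dB2q2 dB3q2 dB4q2 true false)) t 1 1 1 = true :=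
  ⟨(T.b (T.b (T.a (T.a (T.b (T.c (T.l 204) (T.c (T.l 204) (T.b (T.l 204) (T.l 204)))) (T.l 204)) (T.a (T.c (T.l 0) (T.b (T.l 204) (T.l 204))) (T.b (T.b (T.a (T.l 204) (T.c (T.l 204) (T.l 204))) (T.l 204)) (T.l 0)))) (T.a (T.b (T.a (T.b (T.a (T.b (T.l 204) (T.l 204)) (T.l 204)) (T.l 204)) (T.b (T.c (T.l 204) (T.l 204)) (T.l 204))) (T.l 0)) (T.b (T.b (T.a (T.b (T.l 204) (T.l 204)) (T.b (T.l 204) (T.l 204))) (T.l 204)) (T.l 0)))) (T.a (T.a (T.l 0) (T.l 0)) (T.a (T.l 0) (T.l 0)))) (T.b (T.a (T.a (T.l 816) (T.l 0)) (T.b (T.l 0) (T.l 0))) (T.a (T.a (T.l 816) (T.l 816)) (T.l 816)))), by decide +kernel⟩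

def B022E_330 :
    ∃ t, chk3 (onCell 0 67108864 0 1073741824 536870912 50465866 (corW 3 c0B eng mog cB022E gB3q0 gB3q2 gB0q2 gB1q2 dB3q0 dB3q2 dB0q2 dB1q2 true true)) t 1 1 1 = true :=
  ⟨(T.l 2), by decide +kernel⟩

def B022E_331 :
    ∃ t, chk3 (onCell 0 67108864 0 1073741824 536870912 50465866 (corW 3 c0B eng mog cB022E gB3q0 gB3q2 gB1q2 gB2q2 dB3q0 dB3q2 dB1q2 dB2q2 true true)) t 1 1 1 = true :=
  ⟨(T.l 2), by decide +kernel⟩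

def B022E_332 :
    ∃ t, chk3 (onCell 0 67108864 0 1073741824 536870912 50465866 (corW 3 c0B eng mog cB022E gB3q0 gB3q2 gB2q2 gB3q2 dB3q0 dB3q2 dB2q2 dB3q2 true true)) t 1 1 1 = true :=
  ⟨(T.l 2), by decide +kernel⟩

def B022E_333 :
    ∃ t, chk3 (onCell 0 67108864 0 1073741824 536870912 50465866 (corW 3 c0B eng mog cB022E gB3q0 gB3q2 gB3q2 gB4q2 dB3q0 dB3q2 dB3q2 dB4q2 true false)) t 1 1 1 = true :=
  ⟨(T.b (T.b (T.a (T.a (T.b (T.l 204) (T.l 0)) (T.a (T.l 0) (T.b (T.a (T.l 204) (T.b (T.l 204) (T.l 204))) (T.l 0)))) (T.a (T.b (T.a (T.c (T.l 204) (T.b (T.l 204) (T.l 204))) (T.b (T.l 204) (T.l 204))) (T.l 0)) (T.b (T.b (T.a (T.l 204) (T.l 204)) (T.l 204)) (T.l 0)))) (T.a (T.a (T.l 0) (T.l 0)) (T.a (T.l 0) (T.l 0)))) (T.b (T.a (T.a (T.l 816) (T.l 0)) (T.b (T.l 0) (T.l 816))) (T.a (T.a (T.l 816) (T.l 816)) (T.l 816)))),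 by decide +kernel⟩

def B022L_060 :
    ∃ t, chk3 (onCell 0 67108864 0 1073741824 536870912 50465866 (corW 3 c0B eng mog cB022L gB0q0 gB6q2 gB0q2 gB1q2 dB0q0 dB6q2 dB0q2 dB1q2 true true)) t 1 1 1 = true :=
  ⟨(T.b (T.l 2) (T.b (T.b (T.b (T.l 2) (T.b (T.l 2) (T.b (T.l 2) (T.a (T.a (T.l 0) (T.l 0)) (T.l 2))))) (T.b (T.a (T.a (T.b (T.b (T.l 0) (T.l 0)) (T.b (T.b (T.l 0) (T.b (T.c (T.l 0) (T.l 0)) (T.a (T.l 1) (T.b (T.b (T.l 0) (T.l 1)) (T.l 1))))) (T.l 1))) (T.b (T.b (T.l 0) (T.l 0)) (T.b (T.b (T.l 0) (T.b (T.l 0) (T.b (T.c (T.l 0) (T.l 0)) (T.a (T.l 1) (T.a (T.l 1) (T.l 0)))))) (T.l 1)))) (T.b (T.b (T.a (T.l 0) (T.l 0)) (T.a (T.l 0) (T.l 0))) (T.b (T.a (T.c (T.a (T.l 0) (T.l 0)) (T.l 0)) (T.l 0)) (T.b (T.b (T.b (T.a (T.a (T.l 1) (T.a (T.l 1) (T.l 0))) (T.c (T.l 0) (T.l 0))) (T.l 1)) (T.l 1)) (T.l 1))))) (T.l 1))) (T.l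 1))), by decide +kernel⟩

def B022L_061 :
    ∃ t, chk3 (onCell 0 67108864 0 1073741824 536870912 50465866 (corW 3 c0B eng mog cB022L gB0q0 gB6q2 gB1q2 gB2q2 dB0q0 dB6q2 dB1q2 dB2q2 true true)) t 1 1 1 = true :=
  ⟨(T.b (T.b (T.l 2) (T.b (T.l 2) (T.a (T.l 0) (T.a (T.l 0) (T.b (T.l 2) (T.a (T.l 0) (T.b (T.l 0) (T.l 0)))))))) (T.b (T.b (T.b (T.b (T.b (T.a (T.l 0) (T.a (T.l 0) (T.c (T.l 0) (T.l 0)))) (T.l 0)) (T.l 0)) (T.b (T.l 0) (T.a (T.l 0) (T.l 0)))) (T.b (T.b (T.b (T.a (T.l 0) (T.l 0)) (T.l 1)) (T.l 1)) (T.l 1))) (T.l 1))), by decide +kernel⟩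

def B022L_062 :
    ∃ t, chk3 (onCell 0 67108864 0 1073741824 536870912 50465866 (corW 3 c0B eng mog cB022L gB0q0 gB6q2 gB2q2 gB3q2 dB0q0 dB6q2 dB2q2 dB3q2 true true)) t 1 1 1 = true :=
  ⟨(T.b (T.b (T.b (T.b (T.a (T.a (T.l 204) (T.a (T.l 204) (T.l 0))) (T.a (T.a (T.l 0) (T.l 0)) (T.l 0))) (T.a (T.l 204) (T.a (T.a (T.l 0) (T.l 0)) (T.l 0)))) (T.a (T.l 0) (T.a (T.a (T.b (T.l 0) (T.l 0)) (T.b (T.l 0) (T.l 0))) (T.b (T.l 0) (T.l 0))))) (T.a (T.l 0) (T.b (T.a (T.a (T.l 0) (T.b (T.l 0) (T.l 0))) (T.b (T.l 0) (T.l 16))) (T.a (T.l 0) (T.b (T.b (T.l 0) (T.l 0)) (T.b (T.l 0) (T.l 0))))))) (T.l 1)), by decide +kernel⟩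

def B022L_063 :
    ∃ t, chk3 (onCell 0 67108864 0 1073741824 536870912 50465866 (corW 3 c0B eng mog cB022L gB0q0 gB6q2 gB3q2 gB4q2 dB0q0 dB6q2 dB3q2 dB4q2 true false)) t 1 1 1 = true :=
  ⟨(T.l 1), by decide +kernel⟩

def B022L_160 :
    ∃ t, chk3 (onCell 0 67108864 0 1073741824 536870912 50465866 (corW 3 c0B eng mog cB022L gB1q0 gB6q2 gB0q2 gB1q2 dB1q0 dB6q2 dB0q2 dB1q2 true true)) t 1 1 1 = true :=
  ⟨(T.b (T.b (T.l 2) (T.l 2)) (T.b (T.b (T.b (T.b (T.l 2) (T.l 816)) (T.a (T.l 816) (T.l 816))) (T.l 1)) (T.l 1))), by decide +kernel⟩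

def B022L_161 :
    ∃ t, chk3 (onCell 0 67108864 0 1073741824 536870912 50465866 (corW 3 c0B eng mog cB022L gB1q0 gB6q2 gB1q2 gB2q2 dB1q0 dB6q2 dB1q2 dB2q2 true true)) t 1 1 1 = true :=
  ⟨(T.b (T.b (T.l 2) (T.a (T.l 0) (T.b (T.l 2) (T.a (T.l 816) (T.b (T.a (T.l 0) (T.l 0)) (T.b (T.l 0) (T.l 0))))))) (T.b (T.b (T.a (T.l 816) (T.b (T.a (T.l 816) (T.b (T.l 0) (T.l 816))) (T.l 816))) (T.l 1)) (T.l 1))), by decide +kernel⟩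

def B022L_162 :
    ∃ t, chk3 (onCell 0 67108864 0 1073741824 536870912 50465866 (corW 3 c0B eng mog cB022L gB1q0 gB6q2 gB2q2 gB3q2 dB1q0 dB6q2 dB2q2 dB3q2 true true)) t 1 1 1 = true :=
  ⟨(T.b (T.b (T.b (T.b (T.a (T.a (T.l 204) (T.a (T.l 204) (T.l 0))) (T.a (T.a (T.l 0) (T.l 0)) (T.l 0))) (T.a (T.l 204) (T.a (T.b (T.l 0) (T.l 0)) (T.l 0)))) (T.a (T.l 0) (T.a (T.a (T.l 0) (T.l 0)) (T.b (T.l 0) (T.l 0))))) (T.a (T.l 0) (T.b (T.a (T.b (T.l 0) (T.l 0)) (T.b (T.l 0) (T.l 0))) (T.b (T.a (T.l 816) (T.l 0)) (T.l 1))))) (T.l 1)), by decide +kernel⟩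

def B022L_163 :
    ∃ t, chk3 (onCell 0 67108864 0 1073741824 536870912 50465866 (corW 3 c0B eng mog cB022L gB1q0 gB6q2 gB3q2 gB4q2 dB1q0 dB6q2 dB3q2 dB4q2 true false)) t 1 1 1 = true :=
  ⟨(T.l 1), by decide +kernel⟩

def B022L_260 :
    ∃ t, chk3 (onCell 0 67108864 0 1073741824 536870912 50465866 (corW 3 c0B eng mog cB022L gB2q0 gB6q2 gB0q2 gB1q2 dB2q0 dB6q2 dB0q2 dB1q2 true true)) t 1 1 1 = true :=
  ⟨(T.b (T.b (T.l 2) (T.b (T.l 2) (T.a (T.l 816) (T.a (T.l 816) (T.b (T.l 2) (T.b (T.l 0) (T.l 816))))))) (T.b (T.b (T.a (T.l 1) (T.b (T.a (T.l 1) (T.b (T.l 816) (T.l 1))) (T.l 1))) (T.l 1)) (T.l 1))), by decide +kernel⟩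

def B022L_261 :
    ∃ t, chk3 (onCell 0 67108864 0 1073741824 536870912 50465866 (corW 3 c0B eng mog cB022L gB2q0 gB6q2 gB1q2 gB2q2 dB2q0 dB6q2 dB1q2 dB2q2 true true)) t 1 1 1 = true :=
  ⟨(T.b (T.b (T.b (T.l 2) (T.l 2)) (T.a (T.l 816) (T.b (T.b (T.a (T.b (T.l 2) (T.l 4)) (T.l 4)) (T.a (T.b (T.l 0) (T.l 816)) (T.l 0))) (T.a (T.l 816) (T.b (T.l 0) (T.l 0)))))) (T.l 1)), by decide +kernel⟩

def B022L_262 :
    ∃ t, chk3 (onCell 0 67108864 0 1073741824 536870912 50465866 (corW 3 c0B eng mog cB022L gB2q0 gB6q2 gB2q2 gB3q2 dB2q0 dB6q2 dB2q2 dB3q2 true true)) t 1 1 1 = true :=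
  ⟨(T.b (T.b (T.b (T.b (T.b (T.a (T.a (T.l 204) (T.a (T.l 204) (T.l 0))) (T.a (T.c (T.l 0) (T.l 0)) (T.l 0))) (T.a (T.l 204) (T.a (T.l 0) (T.l 0)))) (T.a (T.l 0) (T.a (T.b (T.l 0) (T.l 0)) (T.l 0)))) (T.a (T.l 0) (T.a (T.b (T.l 0) (T.l 0)) (T.l 0)))) (T.b (T.a (T.l 816) (T.a (T.b (T.l 0) (T.l 1)) (T.l 0))) (T.l 1))) (T.l 1)), by decide +kernel⟩

def B022L_263 :
    ∃ t, chk3 (onCell 0 67108864 0 1073741824 536870912 50465866 (corW 3 c0B eng mog cB022L gB2q0 gB6q2 gB3q2 gB4q2 dB2q0 dB6q2 dB3q2 dB4q2 true false)) t 1 1 1 = true :=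
  ⟨(T.l 1), by decide +kernel⟩

def B022L_360 :
    ∃ t, chk3 (onCell 0 67108864 0 1073741824 536870912 50465866 (corW 3 c0B eng mog cB022L gB3q0 gB6q2 gB0q2 gB1q2 dB3q0 dB6q2 dB0q2 dB1q2 true true)) t 1 1 1 = true :=
  ⟨(T.b (T.b (T.l 2) (T.b (T.a (T.l 816) (T.b (T.l 2) (T.b (T.a (T.l 0) (T.l 2)) (T.a (T.l 816) (T.l 0))))) (T.a (T.l 816) (T.b (T.a (T.l 816) (T.b (T.l 816) (T.l 1))) (T.l 1))))) (T.l 1)), by decide +kernel⟩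

def B022L_361 :
    ∃ t, chk3 (onCell 0 67108864 0 1073741824 536870912 50465866 (corW 3 c0B eng mog cB022L gB3q0 gB6q2 gB1q2 gB2q2 dB3q0 dB6q2 dB1q2 dB2q2 true true)) t 1 1 1 = true :=
  ⟨(T.b (T.b (T.b (T.l 2) (T.a (T.l 816) (T.b (T.l 2) (T.a (T.b (T.l 0) (T.l 0)) (T.l 0))))) (T.b (T.a (T.l 816) (T.a (T.b (T.l 0) (T.l 0)) (T.b (T.l 0) (T.l 816)))) (T.l 1))) (T.l 1)), by decide +kernel⟩

def B022L_362 :
    ∃ t, chk3 (onCell 0 67108864 0 1073741824 536870912 50465866 (corW 3 c0B eng mog cB022L gB3q0 gB6q2 gB2q2 gB3q2 dB3q0 dB6q2 dB2q2 dB3q2 true true)) t 1 1 1 = true :=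
  ⟨(T.b (T.b (T.b (T.b (T.b (T.b (T.a (T.a (T.l 204) (T.a (T.l 204) (T.l 0))) (T.a (T.l 0) (T.l 0))) (T.a (T.l 204) (T.a (T.l 0) (T.l 0)))) (T.a (T.l 0) (T.a (T.l 0) (T.l 0)))) (T.a (T.l 0) (T.a (T.l 0) (T.l 0)))) (T.a (T.l 0) (T.a (T.b (T.l 0) (T.l 0)) (T.l 0)))) (T.l 1)) (T.l 1)), by decide +kernel⟩

def B022L_363 :
    ∃ t, chk3 (onCell 0 67108864 0 1073741824 536870912 50465866 (corW 3 c0B eng mog cB022L gB3q0 gB6q2 gB3q2 gB4q2 dB3q0 dB6q2 dB3q2 dB4q2 true false)) t 1 1 1 = true :=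
  ⟨(T.l 1), by decide +kernel⟩

def B022R_005 :
    ∃ t, chk3 (onCell 0 67108864 0 1073741824 536870912 50465866 (corW 3 c0B eng mog cB022R gB0q0 gB0q2 gB5q2 gB6q2 dB0q0 dB0q2 dB5q2 dB6q2 false true)) t 1 1 1 = true :=
  ⟨(T.a (T.a (T.b (T.b (T.b (T.c (T.l 204) (T.l 204)) (T.l 204)) (T.l 204)) (T.l 0)) (T.b (T.a (T.b (T.b (T.l 204) (T.l 204)) (T.l 204)) (T.b (T.b (T.l 220) (T.l 204)) (T.l 204))) (T.l 0))) (T.a (T.b (T.b (T.a (T.c (T.l 204) (T.l 220)) (T.b (T.l 204) (T.l 204))) (T.l 16)) (T.l 0)) (T.b (T.b (T.a (T.l 204) (T.l 220)) (T.l 0)) (T.l 0)))), by decide +kernel⟩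

def B022R_015 :
    ∃ t, chk3 (onCell 0 67108864 0 1073741824 536870912 50465866 (corW 3 c0B eng mog cB022R gB0q0 gB1q2 gB5q2 gB6q2 dB0q0 dB1q2 dB5q2 dB6q2 false true)) t 1 1 1 = true :=
  ⟨(T.a (T.a (T.b (T.b (T.l 204) (T.l 204)) (T.l 0)) (T.b (T.a (T.l 204) (T.b (T.l 204) (T.l 0))) (T.l 0))) (T.a (T.b (T.a (T.l 16) (T.l 16)) (T.l 0)) (T.b (T.a (T.l 16) (T.l 16)) (T.l 0)))), by decide +kernel⟩

def B022R_025 :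
    ∃ t, chk3 (onCell 0 67108864 0 1073741824 536870912 50465866 (corW 3 c0B eng mog cB022R gB0q0 gB2q2 gB5q2 gB6q2 dB0q0 dB2q2 dB5q2 dB6q2 false true)) t 1 1 1 = true :=
  ⟨(T.a (T.a (T.b (T.l 0) (T.l 816)) (T.a (T.l 0) (T.b (T.l 0) (T.l 0)))) (T.a (T.b (T.l 0) (T.l 0)) (T.b (T.l 0) (T.l 0)))), by decide +kernel⟩

def B022R_035 :
    ∃ t, chk3 (onCell 0 67108864 0 1073741824 536870912 50465866 (corW 3 c0B eng mog cB022R gB0q0 gB3q2 gB5q2 gB6q2 dB0q0 dB3q2 dB5q2 dB6q2 false true)) t 1 1 1 = true :=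
  ⟨(T.b (T.b (T.l 2) (T.a (T.a (T.l 816) (T.l 0)) (T.l 0))) (T.a (T.a (T.l 816) (T.b (T.l 0) (T.l 816))) (T.a (T.l 816) (T.l 816)))), by decide +kernel⟩

def B022R_105 :
    ∃ t, chk3 (onCell 0 67108864 0 1073741824 536870912 50465866 (corW 3 c0B eng mog cB022R gB1q0 gB0q2 gB5q2 gB6q2 dB1q0 dB0q2 dB5q2 dB6q2 false true)) t 1 1 1 = true :=
  ⟨(T.a (T.a (T.b (T.b (T.b (T.c (T.l 204) (T.l 204)) (T.l 204)) (T.l 204)) (T.l 0)) (T.b (T.a (T.b (T.l 220) (T.l 204)) (T.b (T.b (T.l 220) (T.l 204)) (T.l 0))) (T.l 0))) (T.a (T.b (T.b (T.a (T.c (T.l 204) (T.l 220)) (T.l 220)) (T.l 0)) (T.l 0)) (T.b (T.b (T.a (T.l 204) (T.l 220)) (T.l 0)) (T.l 0)))), by decide +kernel⟩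

def B022R_115 :
    ∃ t, chk3 (onCell 0 67108864 0 1073741824 536870912 50465866 (corW 3 c0B eng mog cB022R gB1q0 gB1q2 gB5q2 gB6q2 dB1q0 dB1q2 dB5q2 dB6q2 false true)) t 1 1 1 = true :=
  ⟨(T.a (T.a (T.b (T.b (T.l 204) (T.l 0)) (T.l 0)) (T.b (T.a (T.l 0) (T.b (T.l 204) (T.l 0))) (T.l 0))) (T.a (T.b (T.a (T.l 16) (T.l 0)) (T.l 0)) (T.b (T.a (T.l 0) (T.l 16)) (T.l 0)))), by decide +kernel⟩

def B022R_125 :
    ∃ t, chk3 (onCell 0 67108864 0 1073741824 536870912 50465866 (corW 3 c0B eng mog cB022R gB1q0 gB2q2 gB5q2 gB6q2 dB1q0 dB2q2 dB5q2 dB6q2 false true)) t 1 1 1 = true :=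
  ⟨(T.a (T.a (T.b (T.l 0) (T.l 816)) (T.a (T.l 0) (T.l 16))) (T.a (T.b (T.l 0) (T.l 816)) (T.b (T.l 0) (T.l 816)))), by decide +kernel⟩

def B022R_135 :
    ∃ t, chk3 (onCell 0 67108864 0 1073741824 536870912 50465866 (corW 3 c0B eng mog cB022R gB1q0 gB3q2 gB5q2 gB6q2 dB1q0 dB3q2 dB5q2 dB6q2 false true)) t 1 1 1 = true :=
  ⟨(T.b (T.a (T.l 2) (T.b (T.l 2) (T.l 0))) (T.a (T.a (T.l 816) (T.l 816)) (T.b (T.l 816) (T.l 880)))), by decide +kernel⟩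

def B022R_205 :
    ∃ t, chk3 (onCell 0 67108864 0 1073741824 536870912 50465866 (corW 3 c0B eng mog cB022R gB2q0 gB0q2 gB5q2 gB6q2 dB2q0 dB0q2 dB5q2 dB6q2 false true)) t 1 1 1 = true :=
  ⟨(T.a (T.a (T.b (T.b (T.b (T.c (T.l 204) (T.l 204)) (T.l 204)) (T.l 0)) (T.l 816)) (T.b (T.a (T.b (T.b (T.l 204) (T.l 204)) (T.l 0)) (T.b (T.a (T.l 204) (T.l 204)) (T.l 0))) (T.l 0))) (T.a (T.b (T.b (T.a (T.a (T.l 204) (T.l 204)) (T.b (T.l 204) (T.l 204))) (T.l 0)) (T.l 0)) (T.b (T.b (T.a (T.l 204) (T.b (T.l 204) (T.l 204))) (T.l 0)) (T.l 0)))), by decide +kernel⟩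

def B022R_215 :
    ∃ t, chk3 (onCell 0 67108864 0 1073741824 536870912 50465866 (corW 3 c0B eng mog cB022R gB2q0 gB1q2 gB5q2 gB6q2 dB2q0 dB1q2 dB5q2 dB6q2 false true)) t 1 1 1 = true :=
  ⟨(T.a (T.a (T.b (T.b (T.l 204) (T.l 0)) (T.l 816)) (T.b (T.a (T.l 0) (T.b (T.l 0) (T.l 0))) (T.l 0))) (T.b (T.a (T.a (T.b (T.l 0) (T.l 0)) (T.l 16)) (T.a (T.l 16) (T.b (T.l 0) (T.l 0)))) (T.b (T.l 0) (T.l 816)))), by decide +kernel⟩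

def B022R_225 :
    ∃ t, chk3 (onCell 0 67108864 0 1073741824 536870912 50465866 (corW 3 c0B eng mog cB022R gB2q0 gB2q2 gB5q2 gB6q2 dB2q0 dB2q2 dB5q2 dB6q2 false true)) t 1 1 1 = true :=
  ⟨(T.a (T.a (T.b (T.l 0) (T.l 816)) (T.a (T.l 0) (T.b (T.l 0) (T.l 816)))) (T.b (T.a (T.l 0) (T.l 0)) (T.l 816))), by decide +kernel⟩

def B022R_235 :
    ∃ t, chk3 (onCell 0 67108864 0 1073741824 536870912 50465866 (corW 3 c0B eng mog cB022R gB2q0 gB3q2 gB5q2 gB6q2 dB2q0 dB3q2 dB5q2 dB6q2 false true)) t 1 1 1 = true :=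
  ⟨(T.l 2), by decide +kernel⟩

def B022R_305 :
    ∃ t, chk3 (onCell 0 67108864 0 1073741824 536870912 50465866 (corW 3 c0B eng mog cB022R gB3q0 gB0q2 gB5q2 gB6q2 dB3q0 dB0q2 dB5q2 dB6q2 false true)) t 1 1 1 = true :=
  ⟨(T.a (T.a (T.b (T.b (T.b (T.b (T.b (T.l 204) (T.l 204)) (T.l 204)) (T.l 0)) (T.l 0)) (T.l 816)) (T.b (T.b (T.a (T.b (T.l 204) (T.l 204)) (T.a (T.l 0) (T.l 16))) (T.l 0)) (T.l 816))) (T.b (T.a (T.b (T.a (T.a (T.l 0) (T.l 16)) (T.b (T.l 204) (T.l 0))) (T.l 0)) (T.b (T.b (T.a (T.l 204) (T.l 204)) (T.l 0)) (T.l 0))) (T.b (T.l 4) (T.l 816)))), by decide +kernel⟩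

def B022R_315 :
    ∃ t, chk3 (onCell 0 67108864 0 1073741824 536870912 50465866 (corW 3 c0B eng mog cB022R gB3q0 gB1q2 gB5q2 gB6q2 dB3q0 dB1q2 dB5q2 dB6q2 false true)) t 1 1 1 = true :=
  ⟨(T.a (T.a (T.b (T.b (T.b (T.l 204) (T.l 0)) (T.l 816)) (T.l 816)) (T.b (T.a (T.b (T.l 0) (T.l 816)) (T.b (T.l 0) (T.l 816))) (T.l 816))) (T.b (T.a (T.b (T.a (T.l 0) (T.l 0)) (T.l 0)) (T.b (T.a (T.l 0) (T.l 0)) (T.l 0))) (T.l 0))), by decide +kernel⟩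

def B022R_325 :
    ∃ t, chk3 (onCell 0 67108864 0 1073741824 536870912 50465866 (corW 3 c0B eng mog cB022R gB3q0 gB2q2 gB5q2 gB6q2 dB3q0 dB2q2 dB5q2 dB6q2 false true)) t 1 1 1 = true :=
  ⟨(T.b (T.a (T.a (T.l 0) (T.a (T.l 0) (T.l 0))) (T.a (T.b (T.l 0) (T.l 816)) (T.l 16))) (T.a (T.a (T.l 816) (T.l 816)) (T.l 816))), by decide +kernel⟩

def B022R_335 :
    ∃ t, chk3 (onCell 0 67108864 0 1073741824 536870912 50465866 (corW 3 c0B eng mog cB022R gB3q0 gB3q2 gB5q2 gB6q2 dB3q0 dB3q2 dB5q2 dB6q2 false true)) t 1 1 1 = true :=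
  ⟨(T.l 2), by decide +kernel⟩

def B101E_000 :
    ∃ t, chk3 (onCell 0 67108864 0 1073741824 536870912 50465866 (corW 3 c0B eng mog cB101E gB0q1 gB0q1 gB0q0 gB1q0 dB0q1 dB0q1 dB0q0 dB1q0 true true)) t 1 1 1 = true :=
  ⟨(T.l 2), by decide +kernel⟩

def B101E_001 :
    ∃ t, chk3 (onCell 0 67108864 0 1073741824 536870912 50465866 (corW 3 c0B eng mog cB101E gB0q1 gB0q1 gB1q0 gB2q0 dB0q1 dB0q1 dB1q0 dB2q0 true true)) t 1 1 1 = true :=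
  ⟨(T.l 2), by decide +kernel⟩

def B101E_002 :
    ∃ t, chk3 (onCell 0 67108864 0 1073741824 536870912 50465866 (corW 3 c0B eng mog cB101E gB0q1 gB0q1 gB2q0 gB3q0 dB0q1 dB0q1 dB2q0 dB3q0 true true)) t 1 1 1 = true :=
  ⟨(T.b (T.l 2) (T.l 2)), by decide +kernel⟩

def B101E_003_2_1_1 :
    ∃ t, chk3 (onCell 0 67108864 0 1073741824 536870912 50465866 (corW 3 c0B eng mog cB101E gB0q1 gB0q1 gB3q0 gB4q0 dB0q1 dB0q1 dB3q0 dB4q0 true false)) t 2 1 1 = true :=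
  ⟨(T.b (T.b (T.b (T.a (T.b (T.c (T.l 236) (T.b (T.l 236) (T.l 236))) (T.c (T.l 236) (T.l 236))) (T.b (T.c (T.l 236) (T.l 748)) (T.b (T.l 748) (T.l 748)))) (T.a (T.b (T.b (T.l 236) (T.l 236)) (T.b (T.l 236) (T.l 236))) (T.b (T.b (T.l 236) (T.l 236)) (T.l 748)))) (T.b (T.a (T.b (T.l 236) (T.l 236)) (T.b (T.l 236) (T.l 236))) (T.a (T.b (T.l 236) (T.l 236)) (T.b (T.l 236) (T.l 236))))) (T.b (T.b (T.a (T.b (T.l 204) (T.l 204)) (T.b (T.l 236) (T.l 236))) (T.a (T.b (T.l 204) (T.l 204)) (T.b (T.l 236) (T.l 236)))) (T.b (T.a (T.b (T.l 204) (T.l 204)) (T.b (T.l 236) (T.l 204))) (T.a (T.l 204) (T.b (T.l 204) (T.l 204)))))), by decide +kernel⟩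

def B101E_003_3_1_1 :
    ∃ t, chk3 (onCell 0 67108864 0 1073741824 536870912 50465866 (corW 3 c0B eng mog cB101E gB0q1 gB0q1 gB3q0 gB4q0 dB0q1 dB0q1 dB3q0 dB4q0 true false)) t 3 1 1 = true :=
  ⟨(T.b (T.b (T.a (T.a (T.b (T.b (T.b (T.l 748) (T.l 748)) (T.l 748)) (T.b (T.l 748) (T.l 748))) (T.b (T.b (T.b (T.l 748) (T.l 748)) (T.b (T.l 748) (T.l 748))) (T.b (T.l 748) (T.l 748)))) (T.b (T.a (T.b (T.b (T.l 748) (T.l 748)) (T.l 748)) (T.b (T.l 748) (T.l 748))) (T.a (T.b (T.l 748) (T.l 748)) (T.b (T.l 748) (T.l 748))))) (T.a (T.a (T.b (T.b (T.l 236) (T.l 236)) (T.b (T.l 236) (T.l 236))) (T.b (T.b (T.l 748) (T.l 748)) (T.b (T.l 748) (T.l 236)))) (T.b (T.a (T.b (T.l 748) (T.l 748)) (T.b (T.l 748) (T.l 748))) (T.a (T.b (T.l 748) (T.l 748)) (T.b (T.l 748) (T.l 748)))))) (T.a (T.b (T.a (T.b (T.b (T.l 236) (T.l 236)) (T.b (T.l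 236) (T.l 236))) (T.b (T.b (T.l 236) (T.l 236)) (T.b (T.l 236) (T.l 236)))) (T.a (T.b (T.b (T.l 204) (T.l 204)) (T.b (T.l 204) (T.l 204))) (T.b (T.c (T.l 236) (T.l 236)) (T.c (T.l 236) (T.l 236))))) (T.b (T.b (T.a (T.b (T.l 236) (T.l 236)) (T.b (T.l 748) (T.l 236))) (T.a (T.b (T.l 236) (T.l 236)) (T.b (T.l 236) (T.l 236)))) (T.b (T.a (T.c (T.l 236) (T.l 236)) (T.b (T.b (T.l 236) (T.l 236)) (T.b (T.l 236) (T.l 236)))) (T.a (T.c (T.b (T.l 204) (T.l 204)) (T.b (T.l 204) (T.l 204))) (T.b (T.b (T.l 236) (T.l 236)) (T.c (T.l 204) (T.l 204)))))))), by decide +kernel⟩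

theorem B101E_003 :
    ∃ t, chk3 (onCell 0 67108864 0 1073741824 536870912 50465866 (corW 3 c0B eng mog cB101E gB0q1 gB0q1 gB3q0 gB4q0 dB0q1 dB0q1 dB3q0 dB4q0 true false)) t 1 1 1 = true :=
  ex3_a B101E_003_2_1_1 B101E_003_3_1_1

def B101L_400 :
    ∃ t, chk3 (onCell 0 67108864 0 1073741824 536870912 50465866 (corW 3 c0B eng mog cB101L gB4q1 gB0q1 gB0q0 gB1q0 dB4q1 dB0q1 dB0q0 dB1q0 true true)) t 1 1 1 = true :=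
  ⟨(T.b (T.l 1) (T.b (T.l 1) (T.b (T.l 1) (T.b (T.b (T.b (T.l 1) (T.b (T.l 1) (T.c (T.a (T.l 820) (T.a (T.l 816) (T.l 820))) (T.a (T.l 816) (T.l 816))))) (T.a (T.l 816) (T.l 816))) (T.l 816))))), by decide +kernel⟩

def B101L_401 :
    ∃ t, chk3 (onCell 0 67108864 0 1073741824 536870912 50465866 (corW 3 c0B eng mog cB101L gB4q1 gB0q1 gB1q0 gB2q0 dB4q1 dB0q1 dB1q0 dB2q0 true true)) t 1 1 1 = true :=
  ⟨(T.b (T.l 1) (T.b (T.l 1) (T.l 1))), by decide +kernel⟩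

def B101L_402 :
    ∃ t, chk3 (onCell 0 67108864 0 1073741824 536870912 50465866 (corW 3 c0B eng mog cB101L gB4q1 gB0q1 gB2q0 gB3q0 dB4q1 dB0q1 dB2q0 dB3q0 true true)) t 1 1 1 = true :=
  ⟨(T.l 1), by decide +kernel⟩

def B101L_403 :
    ∃ t, chk3 (onCell 0 67108864 0 1073741824 536870912 50465866 (corW 3 c0B eng mog cB101L gB4q1 gB0q1 gB3q0 gB4q0 dB4q1 dB0q1 dB3q0 dB4q0 true false)) t 1 1 1 = true :=
  ⟨(T.l 1), by decide +kernel⟩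

def B101L_500 :
    ∃ t, chk3 (onCell 0 67108864 0 1073741824 536870912 50465866 (corW 3 c0B eng mog cB101L gB5q1 gB0q1 gB0q0 gB1q0 dB5q1 dB0q1 dB0q0 dB1q0 true true)) t 1 1 1 = true :=
  ⟨(T.b (T.l 1) (T.b (T.l 1) (T.b (T.b (T.b (T.b (T.a (T.l 1) (T.b (T.l 1) (T.b (T.l 1) (T.c (T.b (T.l 1) (T.l 880)) (T.l 816))))) (T.a (T.a (T.l 816) (T.l 816)) (T.l 816))) (T.l 816)) (T.l 0)) (T.l 0)))), by decide +kernel⟩

def B101L_501 :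
    ∃ t, chk3 (onCell 0 67108864 0 1073741824 536870912 50465866 (corW 3 c0B eng mog cB101L gB5q1 gB0q1 gB1q0 gB2q0 dB5q1 dB0q1 dB1q0 dB2q0 true true)) t 1 1 1 = true :=
  ⟨(T.b (T.l 1) (T.b (T.l 1) (T.b (T.b (T.l 1) (T.l 0)) (T.l 0)))), by decide +kernel⟩

def B101L_502 :
    ∃ t, chk3 (onCell 0 67108864 0 1073741824 536870912 50465866 (corW 3 c0B eng mog cB101L gB5q1 gB0q1 gB2q0 gB3q0 dB5q1 dB0q1 dB2q0 dB3q0 true true)) t 1 1 1 = true :=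
  ⟨(T.l 1), by decide +kernel⟩

def B101L_503 :
    ∃ t, chk3 (onCell 0 67108864 0 1073741824 536870912 50465866 (corW 3 c0B eng mog cB101L gB5q1 gB0q1 gB3q0 gB4q0 dB5q1 dB0q1 dB3q0 dB4q0 true false)) t 1 1 1 = true :=
  ⟨(T.l 1), by decide +kernel⟩

end Pool.Agent.Strip051.G.I5000_5470.Tab.CW
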