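import Pool.Agent.Strip051.G.I5000_5470.CrnB
import Pool.Agent.Strip051.G.I5000_5470.CG_0
import Pool.Agent.Strip051.G.I5000_5470.CG_1
import Pool.Agent.Strip051.G.I5000_5470.CW_0
import Pool.Agent.Strip051.G.I5000_5470.CW_1

/-! # Aligned corners: the alternatives (generated) -/

set_option linter.all false

namespace Pool.Agent.Strip051.G.I5000_5470.Tab

open Pool.Agent.Strip051.PB Pool.Agent.StripNear Pool.Agent.Strip051.LC

theorem altB_A102E_00 {κ x : ℝ} (hκ : κ * h0 = ken x) (hx : ((536870912 : ℕ) : ℝ) / S ≤ x) (hx' : x ≤ (((536870912 : ℕ) : ℝ) + (50465866 : ℕ)) / S) :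
    AltEA 3 κ (eng.v x) (3 / 40) (tnt (h0 * x) (3 / 10)) PP tK tL tC pcB (scP esg pd) [⟨0, 1, 0, 67108864⟩, ⟨1, 0, 0, 67108864⟩, ⟨2, 1, 0, 67108864⟩] 1 0 2 0 0 (sgb true) (sgb false) x := by
  have X : XR 67108864 x := XR.of hx hx' (by norm_num) (by norm_num) (by norm_num) (by norm_num)
  have hen : 0 < eng.v x := en_pos X.x0.le
  refine CornW.altA (C := cA102E) (j := (0 : Fin 7)) (k := (0 : Fin 7)) (Ef := esg) (pd := pd) (o := 3 / 40)
    (cornW_of (C := cA102E) (C0 := c0B) (En := eng) (mo := mog) (j := (0 : Fin 7)) (k := (0 : Fin 7)) (lo := 0) (hi := 3) (W := 67108864) (N0 := 3) cA102E_q (sideB hx hx') gokB (pinU hx hx') dokB X (by norm_num) (by norm_num) (l := (0 : Fin 7)) rfl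
      (gatB01 x) (gatB00 x) (gatB02 x) (datB01 x) (datB00 x) (datB02 x) ?_)
    (cornS_of (C := cA102E) (C0 := c0B) (j := (0 : Fin 7)) (k := (0 : Fin 7)) (lo := 0) (hi := 3) (W := 67108864) (N0 := 3) cA102E_q (sideB hx hx') gokB X (by norm_num) (by norm_num) (l := (0 : Fin 7)) rfl
      (gatB01 x) (gatB00 x) (gatB02 x) ?_)
    (thU (pinU hx hx')) rfl hκ (fun j q y => tC_eq j q y x) (esg_rng X.x0.le (by linarith [X.b, X.p0])).1 (mo_v x) le_rfl le_rfl
  · intro ρ a B hρ hd i h1 h2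
    fin_cases i
    · exact corW_cert (G1 := gB0q1) (G2 := gB0q0) (Ga := gB0q2) (Gb := gB1q2) (D1 := dB0q1) (D2 := dB0q0) (Da := dB0q2) (Db := dB1q2) cA102E_ok B hρ hen (gatB01 x) (gatB00 x) (fun _ => gatB02 x) (fun _ => gatB12 x) (datB01 x) (datB00 x) (fun _ => datB02 x) (fun _ => datB12 x) hd hx hx' CW.A102E_000
    · exact corW_cert (G1 := gB0q1) (G2 := gB0q0) (Ga := gB1q2) (Gb := gB2q2) (D1 := dB0q1) (D2 := dB0q0) (Da := dB1q2) (Db := dB2q2) cA102E_ok B hρ hen (gatB01 x) (gatB00 x) (fun _ => gatB12 x) (fun _ => gatB22 x) (datB01 x) (datB00 x) (fun _ => datB12 x) (fun _ => datB22 x) hd hx hx' CW.A102E_001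
    · exact corW_cert (G1 := gB0q1) (G2 := gB0q0) (Ga := gB2q2) (Gb := gB3q2) (D1 := dB0q1) (D2 := dB0q0) (Da := dB2q2) (Db := dB3q2) cA102E_ok B hρ hen (gatB01 x) (gatB00 x) (fun _ => gatB22 x) (fun _ => gatB32 x) (datB01 x) (datB00 x) (fun _ => datB22 x) (fun _ => datB32 x) hd hx hx' CW.A102E_002
    · exact corW_cert (G1 := gB0q1) (G2 := gB0q0) (Ga := gB3q2) (Gb := gB4q2) (D1 := dB0q1) (D2 := dB0q0) (Da := dB3q2) (Db := dB4q2) cA102E_ok B hρ hen (gatB01 x) (gatB00 x) (fun _ => gatB32 x) (fun h => absurd h (by decide)) (datB01 x) (datB00 x) (fun _ => datB32 x) (fun h => absurd h (by decide)) hd hx hx' CW.A102E_003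
    · exact absurd h2 (by norm_num)
    · exact absurd h2 (by norm_num)
  · intro ρ a B hρ hd i h1 h2
    fin_cases i
    · exact corX_cert (G1 := gB0q1) (G2 := gB0q0) (Ga := gB0q2) (Gb := gB1q2) (GT := gB0q2) cA102E_ok tA102E_ok B hρ (gatB01 x) (gatB00 x) (fun _ => gatB02 x) (fun _ => gatB12 x) rfl (tgh_A102E (kodd x) (gpu1 x) (gpu0 x) (gpu2 x) (gatB01 x) (gatB00 x) (gatB02 x) B (le_sixteenth hd (by norm_num))) hd hx hx' CG.A102E_000
    · exact corT_cert (G1 := gB0q1) (G2 := gB0q0) (Ga := gB1q2) (Gb := gB2q2) cA102E_ok B hρ (gatB01 x) (gatB00 x) (fun _ => gatB12 x) (fun _ => gatB22 x) hd hx hx' CG.A102E_001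
    · exact corT_cert (G1 := gB0q1) (G2 := gB0q0) (Ga := gB2q2) (Gb := gB3q2) cA102E_ok B hρ (gatB01 x) (gatB00 x) (fun _ => gatB22 x) (fun _ => gatB32 x) hd hx hx' CG.A102E_002
    · exact corT_cert (G1 := gB0q1) (G2 := gB0q0) (Ga := gB3q2) (Gb := gB4q2) cA102E_ok B hρ (gatB01 x) (gatB00 x) (fun _ => gatB32 x) (fun h => absurd h (by decide)) hd hx hx' CG.A102E_003
    · exact absurd h2 (by norm_num)
    · exact absurd h2 (by norm_num)

theorem altB_A102E_01 {κ x : ℝ} (hκ : κ * h0 = ken x) (hx : ((536870912 : ℕ) : ℝ) / S ≤ x) (hx' : x ≤ (((536870912 : ℕ) : ℝ) + (50465866 : ℕ)) / S) :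
    AltEA 3 κ (eng.v x) (3 / 40) (tnt (h0 * x) (3 / 10)) PP tK tL tC pcB (scP esg pd) [⟨0, 1, 0, 67108864⟩, ⟨1, 0, 0, 67108864⟩, ⟨2, 1, 0, 67108864⟩] 1 0 2 0 1 (sgb true) (sgb false) x := by
  have X : XR 67108864 x := XR.of hx hx' (by norm_num) (by norm_num) (by norm_num) (by norm_num)
  have hen : 0 < eng.v x := en_pos X.x0.le
  refine CornW.altA (C := cA102E) (j := (0 : Fin 7)) (k := (1 : Fin 7)) (Ef := esg) (pd := pd) (o := 3 / 40)
    (cornW_of (C := cA102E) (C0 := c0B) (En := eng) (mo := mog) (j := (0 : Fin 7)) (k := (1 : Fin 7)) (lo := 0) (hi := 3) (W := 67108864) (N0 := 3) cA102E_q (sideB hx hx') gokB (pinU hx hx') dokB X (by norm_num) (by norm_num) (l := (0 : Fin 7)) rfl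
      (gatB01 x) (gatB10 x) (gatB02 x) (datB01 x) (datB10 x) (datB02 x) ?_)
    (cornS_of (C := cA102E) (C0 := c0B) (j := (0 : Fin 7)) (k := (1 : Fin 7)) (lo := 0) (hi := 3) (W := 67108864) (N0 := 3) cA102E_q (sideB hx hx') gokB X (by norm_num) (by norm_num) (l := (0 : Fin 7)) rfl
      (gatB01 x) (gatB10 x) (gatB02 x) ?_)
    (thU (pinU hx hx')) rfl hκ (fun j q y => tC_eq j q y x) (esg_rng X.x0.le (by linarith [X.b, X.p0])).1 (mo_v x) le_rfl le_rfl
  · intro ρ a B hρ hd i h1 h2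
    fin_cases i
    · exact corW_cert (G1 := gB0q1) (G2 := gB1q0) (Ga := gB0q2) (Gb := gB1q2) (D1 := dB0q1) (D2 := dB1q0) (Da := dB0q2) (Db := dB1q2) cA102E_ok B hρ hen (gatB01 x) (gatB10 x) (fun _ => gatB02 x) (fun _ => gatB12 x) (datB01 x) (datB10 x) (fun _ => datB02 x) (fun _ => datB12 x) hd hx hx' CW.A102E_010
    · exact corW_cert (G1 := gB0q1) (G2 := gB1q0) (Ga := gB1q2) (Gb := gB2q2) (D1 := dB0q1) (D2 := dB1q0) (Da := dB1q2) (Db := dB2q2) cA102E_ok B hρ hen (gatB01 x) (gatB10 x) (fun _ => gatB12 x) (fun _ => gatB22 x) (datB01 x) (datB10 x) (fun _ => datB12 x) (fun _ => datB22 x) hd hx hx' CW.A102E_011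
    · exact corW_cert (G1 := gB0q1) (G2 := gB1q0) (Ga := gB2q2) (Gb := gB3q2) (D1 := dB0q1) (D2 := dB1q0) (Da := dB2q2) (Db := dB3q2) cA102E_ok B hρ hen (gatB01 x) (gatB10 x) (fun _ => gatB22 x) (fun _ => gatB32 x) (datB01 x) (datB10 x) (fun _ => datB22 x) (fun _ => datB32 x) hd hx hx' CW.A102E_012
    · exact corW_cert (G1 := gB0q1) (G2 := gB1q0) (Ga := gB3q2) (Gb := gB4q2) (D1 := dB0q1) (D2 := dB1q0) (Da := dB3q2) (Db := dB4q2) cA102E_ok B hρ hen (gatB01 x) (gatB10 x) (fun _ => gatB32 x) (fun h => absurd h (by decide)) (datB01 x) (datB10 x) (fun _ => datB32 x) (fun h => absurd h (by decide)) hd hx hx' CW.A102E_013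
    · exact absurd h2 (by norm_num)
    · exact absurd h2 (by norm_num)
  · intro ρ a B hρ hd i h1 h2
    fin_cases i
    · exact corT_cert (G1 := gB0q1) (G2 := gB1q0) (Ga := gB0q2) (Gb := gB1q2) cA102E_ok B hρ (gatB01 x) (gatB10 x) (fun _ => gatB02 x) (fun _ => gatB12 x) hd hx hx' CG.A102E_010
    · exact corT_cert (G1 := gB0q1) (G2 := gB1q0) (Ga := gB1q2) (Gb := gB2q2) cA102E_ok B hρ (gatB01 x) (gatB10 x) (fun _ => gatB12 x) (fun _ => gatB22 x) hd hx hx' CG.A102E_011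
    · exact corT_cert (G1 := gB0q1) (G2 := gB1q0) (Ga := gB2q2) (Gb := gB3q2) cA102E_ok B hρ (gatB01 x) (gatB10 x) (fun _ => gatB22 x) (fun _ => gatB32 x) hd hx hx' CG.A102E_012
    · exact corT_cert (G1 := gB0q1) (G2 := gB1q0) (Ga := gB3q2) (Gb := gB4q2) cA102E_ok B hρ (gatB01 x) (gatB10 x) (fun _ => gatB32 x) (fun h => absurd h (by decide)) hd hx hx' CG.A102E_013
    · exact absurd h2 (by norm_num)
    · exact absurd h2 (by norm_num)

theorem altB_A102E_02 {κ x : ℝ} (hκ : κ * h0 = ken x) (hx : ((536870912 : ℕ) : ℝ) / S ≤ x) (hx' : x ≤ (((536870912 : ℕ) : ℝ) + (50465866 : ℕ)) / S) :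
    AltEA 3 κ (eng.v x) (3 / 40) (tnt (h0 * x) (3 / 10)) PP tK tL tC pcB (scP esg pd) [⟨0, 1, 0, 67108864⟩, ⟨1, 0, 0, 67108864⟩, ⟨2, 1, 0, 67108864⟩] 1 0 2 0 2 (sgb true) (sgb false) x := by
  have X : XR 67108864 x := XR.of hx hx' (by norm_num) (by norm_num) (by norm_num) (by norm_num)
  have hen : 0 < eng.v x := en_pos X.x0.le
  refine CornW.altA (C := cA102E) (j := (0 : Fin 7)) (k := (2 : Fin 7)) (Ef := esg) (pd := pd) (o := 3 / 40)
    (cornW_of (C := cA102E) (C0 := c0B) (En := eng) (mo := mog) (j := (0 : Fin 7)) (k := (2 : Fin 7)) (lo := 0) (hi := 3) (W := 67108864) (N0 := 3) cA102E_q (sideB hx hx') gokB (pinU hx hx') dokB X (by norm_num) (by norm_num) (l := (0 : Fin 7)) rfl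
      (gatB01 x) (gatB20 x) (gatB02 x) (datB01 x) (datB20 x) (datB02 x) ?_)
    (cornS_of (C := cA102E) (C0 := c0B) (j := (0 : Fin 7)) (k := (2 : Fin 7)) (lo := 0) (hi := 3) (W := 67108864) (N0 := 3) cA102E_q (sideB hx hx') gokB X (by norm_num) (by norm_num) (l := (0 : Fin 7)) rfl
      (gatB01 x) (gatB20 x) (gatB02 x) ?_)
    (thU (pinU hx hx')) rfl hκ (fun j q y => tC_eq j q y x) (esg_rng X.x0.le (by linarith [X.b, X.p0])).1 (mo_v x) le_rfl le_rfl
  · intro ρ a B hρ hd i h1 h2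
    fin_cases i
    · exact corW_cert (G1 := gB0q1) (G2 := gB2q0) (Ga := gB0q2) (Gb := gB1q2) (D1 := dB0q1) (D2 := dB2q0) (Da := dB0q2) (Db := dB1q2) cA102E_ok B hρ hen (gatB01 x) (gatB20 x) (fun _ => gatB02 x) (fun _ => gatB12 x) (datB01 x) (datB20 x) (fun _ => datB02 x) (fun _ => datB12 x) hd hx hx' CW.A102E_020
    · exact corW_cert (G1 := gB0q1) (G2 := gB2q0) (Ga := gB1q2) (Gb := gB2q2) (D1 := dB0q1) (D2 := dB2q0) (Da := dB1q2) (Db := dB2q2) cA102E_ok B hρ hen (gatB01 x) (gatB20 x) (fun _ => gatB12 x) (fun _ => gatB22 x) (datB01 x) (datB20 x) (fun _ => datB12 x) (fun _ => datB22 x) hd hx hx' CW.A102E_021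
    · exact corW_cert (G1 := gB0q1) (G2 := gB2q0) (Ga := gB2q2) (Gb := gB3q2) (D1 := dB0q1) (D2 := dB2q0) (Da := dB2q2) (Db := dB3q2) cA102E_ok B hρ hen (gatB01 x) (gatB20 x) (fun _ => gatB22 x) (fun _ => gatB32 x) (datB01 x) (datB20 x) (fun _ => datB22 x) (fun _ => datB32 x) hd hx hx' CW.A102E_022
    · exact corW_cert (G1 := gB0q1) (G2 := gB2q0) (Ga := gB3q2) (Gb := gB4q2) (D1 := dB0q1) (D2 := dB2q0) (Da := dB3q2) (Db := dB4q2) cA102E_ok B hρ hen (gatB01 x) (gatB20 x) (fun _ => gatB32 x) (fun h => absurd h (by decide)) (datB01 x) (datB20 x) (fun _ => datB32 x) (fun h => absurd h (by decide)) hd hx hx' CW.A102E_023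
    · exact absurd h2 (by norm_num)
    · exact absurd h2 (by norm_num)
  · intro ρ a B hρ hd i h1 h2
    fin_cases i
    · exact corT_cert (G1 := gB0q1) (G2 := gB2q0) (Ga := gB0q2) (Gb := gB1q2) cA102E_ok B hρ (gatB01 x) (gatB20 x) (fun _ => gatB02 x) (fun _ => gatB12 x) hd hx hx' CG.A102E_020
    · exact corT_cert (G1 := gB0q1) (G2 := gB2q0) (Ga := gB1q2) (Gb := gB2q2) cA102E_ok B hρ (gatB01 x) (gatB20 x) (fun _ => gatB12 x) (fun _ => gatB22 x) hd hx hx' CG.A102E_021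
    · exact corT_cert (G1 := gB0q1) (G2 := gB2q0) (Ga := gB2q2) (Gb := gB3q2) cA102E_ok B hρ (gatB01 x) (gatB20 x) (fun _ => gatB22 x) (fun _ => gatB32 x) hd hx hx' CG.A102E_022
    · exact corT_cert (G1 := gB0q1) (G2 := gB2q0) (Ga := gB3q2) (Gb := gB4q2) cA102E_ok B hρ (gatB01 x) (gatB20 x) (fun _ => gatB32 x) (fun h => absurd h (by decide)) hd hx hx' CG.A102E_023
    · exact absurd h2 (by norm_num)
    · exact absurd h2 (by norm_num)

theorem altB_A102E_03 {κ x : ℝ} (hκ : κ * h0 = ken x) (hx : ((536870912 : ℕ) : ℝ) / S ≤ x) (hx' : x ≤ (((536870912 : ℕ) : ℝ) + (50465866 : ℕ)) / S) :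
    AltEA 3 κ (eng.v x) (3 / 40) (tnt (h0 * x) (3 / 10)) PP tK tL tC pcB (scP esg pd) [⟨0, 1, 0, 67108864⟩, ⟨1, 0, 0, 67108864⟩, ⟨2, 1, 0, 67108864⟩] 1 0 2 0 3 (sgb true) (sgb false) x := by
  have X : XR 67108864 x := XR.of hx hx' (by norm_num) (by norm_num) (by norm_num) (by norm_num)
  have hen : 0 < eng.v x := en_pos X.x0.le
  refine CornW.altA (C := cA102E) (j := (0 : Fin 7)) (k := (3 : Fin 7)) (Ef := esg) (pd := pd) (o := 3 / 40)
    (cornW_of (C := cA102E) (C0 := c0B) (En := eng) (mo := mog) (j := (0 : Fin 7)) (k := (3 : Fin 7)) (lo := 0) (hi := 3) (W := 67108864) (N0 := 3) cA102E_q (sideB hx hx') gokB (pinU hx hx') dokB X (by norm_num) (by norm_num) (l := (0 : Fin 7)) rfl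
      (gatB01 x) (gatB30 x) (gatB02 x) (datB01 x) (datB30 x) (datB02 x) ?_)
    (cornS_of (C := cA102E) (C0 := c0B) (j := (0 : Fin 7)) (k := (3 : Fin 7)) (lo := 0) (hi := 3) (W := 67108864) (N0 := 3) cA102E_q (sideB hx hx') gokB X (by norm_num) (by norm_num) (l := (0 : Fin 7)) rfl
      (gatB01 x) (gatB30 x) (gatB02 x) ?_)
    (thU (pinU hx hx')) rfl hκ (fun j q y => tC_eq j q y x) (esg_rng X.x0.le (by linarith [X.b, X.p0])).1 (mo_v x) le_rfl le_rfl
  · intro ρ a B hρ hd i h1 h2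
    fin_cases i
    · exact corW_cert (G1 := gB0q1) (G2 := gB3q0) (Ga := gB0q2) (Gb := gB1q2) (D1 := dB0q1) (D2 := dB3q0) (Da := dB0q2) (Db := dB1q2) cA102E_ok B hρ hen (gatB01 x) (gatB30 x) (fun _ => gatB02 x) (fun _ => gatB12 x) (datB01 x) (datB30 x) (fun _ => datB02 x) (fun _ => datB12 x) hd hx hx' CW.A102E_030
    · exact corW_cert (G1 := gB0q1) (G2 := gB3q0) (Ga := gB1q2) (Gb := gB2q2) (D1 := dB0q1) (D2 := dB3q0) (Da := dB1q2) (Db := dB2q2) cA102E_ok B hρ hen (gatB01 x) (gatB30 x) (fun _ => gatB12 x) (fun _ => gatB22 x) (datB01 x) (datB30 x) (fun _ => datB12 x) (fun _ => datB22 x) hd hx hx' CW.A102E_031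
    · exact corW_cert (G1 := gB0q1) (G2 := gB3q0) (Ga := gB2q2) (Gb := gB3q2) (D1 := dB0q1) (D2 := dB3q0) (Da := dB2q2) (Db := dB3q2) cA102E_ok B hρ hen (gatB01 x) (gatB30 x) (fun _ => gatB22 x) (fun _ => gatB32 x) (datB01 x) (datB30 x) (fun _ => datB22 x) (fun _ => datB32 x) hd hx hx' CW.A102E_032
    · exact corW_cert (G1 := gB0q1) (G2 := gB3q0) (Ga := gB3q2) (Gb := gB4q2) (D1 := dB0q1) (D2 := dB3q0) (Da := dB3q2) (Db := dB4q2) cA102E_ok B hρ hen (gatB01 x) (gatB30 x) (fun _ => gatB32 x) (fun h => absurd h (by decide)) (datB01 x) (datB30 x) (fun _ => datB32 x) (fun h => absurd h (by decide)) hd hx hx' CW.A102E_033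
    · exact absurd h2 (by norm_num)
    · exact absurd h2 (by norm_num)
  · intro ρ a B hρ hd i h1 h2
    fin_cases i
    · exact corT_cert (G1 := gB0q1) (G2 := gB3q0) (Ga := gB0q2) (Gb := gB1q2) cA102E_ok B hρ (gatB01 x) (gatB30 x) (fun _ => gatB02 x) (fun _ => gatB12 x) hd hx hx' CG.A102E_030
    · exact corT_cert (G1 := gB0q1) (G2 := gB3q0) (Ga := gB1q2) (Gb := gB2q2) cA102E_ok B hρ (gatB01 x) (gatB30 x) (fun _ => gatB12 x) (fun _ => gatB22 x) hd hx hx' CG.A102E_031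
    · exact corT_cert (G1 := gB0q1) (G2 := gB3q0) (Ga := gB2q2) (Gb := gB3q2) cA102E_ok B hρ (gatB01 x) (gatB30 x) (fun _ => gatB22 x) (fun _ => gatB32 x) hd hx hx' CG.A102E_032
    · exact corT_cert (G1 := gB0q1) (G2 := gB3q0) (Ga := gB3q2) (Gb := gB4q2) cA102E_ok B hρ (gatB01 x) (gatB30 x) (fun _ => gatB32 x) (fun h => absurd h (by decide)) hd hx hx' CG.A102E_033
    · exact absurd h2 (by norm_num)
    · exact absurd h2 (by norm_num)

theorem altB_A102R_00 {κ x : ℝ} (hκ : κ * h0 = ken x) (hx : ((536870912 : ℕ) : ℝ) / S ≤ x) (hx' : x ≤ (((536870912 : ℕ) : ℝ) + (50465866 : ℕ)) / S) :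
    AltEA 3 κ (eng.v x) (3 / 40) (tnt (h0 * x) (3 / 10)) PP tK tL tC pcB (scP esg pd) [⟨0, 1, 0, 67108864⟩, ⟨1, 0, 0, 67108864⟩, ⟨2, 1, 0, 67108864⟩] 1 0 2 0 0 (sgb false) (sgb false) x := by
  have X : XR 67108864 x := XR.of hx hx' (by norm_num) (by norm_num) (by norm_num) (by norm_num)
  have hen : 0 < eng.v x := en_pos X.x0.le
  refine CornW.altA (C := cA102R) (j := (0 : Fin 7)) (k := (0 : Fin 7)) (Ef := esg) (pd := pd) (o := 3 / 40)
    (cornW_of (C := cA102R) (C0 := c0B) (En := eng) (mo := mog) (j := (0 : Fin 7)) (k := (0 : Fin 7)) (lo := 6) (hi := 6) (W := 67108864) (N0 := 3) cA102R_q (sideB hx hx') gokB (pinU hx hx') dokB X (by norm_num) (by norm_num) (l := (6 : Fin 7)) rfl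
      (gatB01 x) (gatB00 x) (gatB62 x) (datB01 x) (datB00 x) (datB62 x) ?_)
    (cornS_of (C := cA102R) (C0 := c0B) (j := (0 : Fin 7)) (k := (0 : Fin 7)) (lo := 6) (hi := 6) (W := 67108864) (N0 := 3) cA102R_q (sideB hx hx') gokB X (by norm_num) (by norm_num) (l := (6 : Fin 7)) rfl
      (gatB01 x) (gatB00 x) (gatB62 x) ?_)
    (thU (pinU hx hx')) rfl hκ (fun j q y => tC_eq j q y x) (esg_rng X.x0.le (by linarith [X.b, X.p0])).1 (mo_v x) le_rfl le_rfl
  · intro ρ a B hρ hd i h1 h2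
    fin_cases i
    · exact absurd h1 (by norm_num)
    · exact absurd h1 (by norm_num)
    · exact absurd h1 (by norm_num)
    · exact absurd h1 (by norm_num)
    · exact absurd h1 (by norm_num)
    · exact corW_cert (G1 := gB0q1) (G2 := gB0q0) (Ga := gB5q2) (Gb := gB6q2) (D1 := dB0q1) (D2 := dB0q0) (Da := dB5q2) (Db := dB6q2) cA102R_ok B hρ hen (gatB01 x) (gatB00 x) (fun h => absurd h (by decide)) (fun _ => gatB62 x) (datB01 x) (datB00 x) (fun h => absurd h (by decide)) (fun _ => datB62 x) hd hx hx' CW.A102R_005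
  · intro ρ a B hρ hd i h1 h2
    fin_cases i
    · exact absurd h1 (by norm_num)
    · exact absurd h1 (by norm_num)
    · exact absurd h1 (by norm_num)
    · exact absurd h1 (by norm_num)
    · exact absurd h1 (by norm_num)
    · exact corT_cert (G1 := gB0q1) (G2 := gB0q0) (Ga := gB5q2) (Gb := gB6q2) cA102R_ok B hρ (gatB01 x) (gatB00 x) (fun h => absurd h (by decide)) (fun _ => gatB62 x) hd hx hx' CG.A102R_005

theorem altB_A102R_01 {κ x : ℝ} (hκ : κ * h0 = ken x) (hx : ((536870912 : ℕ) : ℝ) / S ≤ x) (hx' : x ≤ (((536870912 : ℕ) : ℝ) + (50465866 : ℕ)) / S) :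
    AltEA 3 κ (eng.v x) (3 / 40) (tnt (h0 * x) (3 / 10)) PP tK tL tC pcB (scP esg pd) [⟨0, 1, 0, 67108864⟩, ⟨1, 0, 0, 67108864⟩, ⟨2, 1, 0, 67108864⟩] 1 0 2 0 1 (sgb false) (sgb false) x := by
  have X : XR 67108864 x := XR.of hx hx' (by norm_num) (by norm_num) (by norm_num) (by norm_num)
  have hen : 0 < eng.v x := en_pos X.x0.le
  refine CornW.altA (C := cA102R) (j := (0 : Fin 7)) (k := (1 : Fin 7)) (Ef := esg) (pd := pd) (o := 3 / 40)
    (cornW_of (C := cA102R) (C0 := c0B) (En := eng) (mo := mog) (j := (0 : Fin 7)) (k := (1 : Fin 7)) (lo := 6) (hi := 6) (W := 67108864) (N0 := 3) cA102R_q (sideB hx hx') gokB (pinU hx hx') dokB X (by norm_num) (by norm_num) (l := (6 : Fin 7)) rfl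
      (gatB01 x) (gatB10 x) (gatB62 x) (datB01 x) (datB10 x) (datB62 x) ?_)
    (cornS_of (C := cA102R) (C0 := c0B) (j := (0 : Fin 7)) (k := (1 : Fin 7)) (lo := 6) (hi := 6) (W := 67108864) (N0 := 3) cA102R_q (sideB hx hx') gokB X (by norm_num) (by norm_num) (l := (6 : Fin 7)) rfl
      (gatB01 x) (gatB10 x) (gatB62 x) ?_)
    (thU (pinU hx hx')) rfl hκ (fun j q y => tC_eq j q y x) (esg_rng X.x0.le (by linarith [X.b, X.p0])).1 (mo_v x) le_rfl le_rfl
  · intro ρ a B hρ hd i h1 h2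
    fin_cases i
    · exact absurd h1 (by norm_num)
    · exact absurd h1 (by norm_num)
    · exact absurd h1 (by norm_num)
    · exact absurd h1 (by norm_num)
    · exact absurd h1 (by norm_num)
    · exact corW_cert (G1 := gB0q1) (G2 := gB1q0) (Ga := gB5q2) (Gb := gB6q2) (D1 := dB0q1) (D2 := dB1q0) (Da := dB5q2) (Db := dB6q2) cA102R_ok B hρ hen (gatB01 x) (gatB10 x) (fun h => absurd h (by decide)) (fun _ => gatB62 x) (datB01 x) (datB10 x) (fun h => absurd h (by decide)) (fun _ => datB62 x) hd hx hx' CW.A102R_015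
  · intro ρ a B hρ hd i h1 h2
    fin_cases i
    · exact absurd h1 (by norm_num)
    · exact absurd h1 (by norm_num)
    · exact absurd h1 (by norm_num)
    · exact absurd h1 (by norm_num)
    · exact absurd h1 (by norm_num)
    · exact corT_cert (G1 := gB0q1) (G2 := gB1q0) (Ga := gB5q2) (Gb := gB6q2) cA102R_ok B hρ (gatB01 x) (gatB10 x) (fun h => absurd h (by decide)) (fun _ => gatB62 x) hd hx hx' CG.A102R_015

theorem altB_A102R_02 {κ x : ℝ} (hκ : κ * h0 = ken x) (hx : ((536870912 : ℕ) : ℝ) / S ≤ x) (hx' : x ≤ (((536870912 : ℕ) : ℝ) + (50465866 : ℕ)) / S) :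
    AltEA 3 κ (eng.v x) (3 / 40) (tnt (h0 * x) (3 / 10)) PP tK tL tC pcB (scP esg pd) [⟨0, 1, 0, 67108864⟩, ⟨1, 0, 0, 67108864⟩, ⟨2, 1, 0, 67108864⟩] 1 0 2 0 2 (sgb false) (sgb false) x := by
  have X : XR 67108864 x := XR.of hx hx' (by norm_num) (by norm_num) (by norm_num) (by norm_num)
  have hen : 0 < eng.v x := en_pos X.x0.le
  refine CornW.altA (C := cA102R) (j := (0 : Fin 7)) (k := (2 : Fin 7)) (Ef := esg) (pd := pd) (o := 3 / 40)
    (cornW_of (C := cA102R) (C0 := c0B) (En := eng) (mo := mog) (j := (0 : Fin 7)) (k := (2 : Fin 7)) (lo := 6) (hi := 6) (W := 67108864) (N0 := 3) cA102R_q (sideB hx hx') gokB (pinU hx hx') dokB X (by norm_num) (by norm_num) (l := (6 : Fin 7)) rfl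
      (gatB01 x) (gatB20 x) (gatB62 x) (datB01 x) (datB20 x) (datB62 x) ?_)
    (cornS_of (C := cA102R) (C0 := c0B) (j := (0 : Fin 7)) (k := (2 : Fin 7)) (lo := 6) (hi := 6) (W := 67108864) (N0 := 3) cA102R_q (sideB hx hx') gokB X (by norm_num) (by norm_num) (l := (6 : Fin 7)) rfl
      (gatB01 x) (gatB20 x) (gatB62 x) ?_)
    (thU (pinU hx hx')) rfl hκ (fun j q y => tC_eq j q y x) (esg_rng X.x0.le (by linarith [X.b, X.p0])).1 (mo_v x) le_rfl le_rfl
  · intro ρ a B hρ hd i h1 h2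
    fin_cases i
    · exact absurd h1 (by norm_num)
    · exact absurd h1 (by norm_num)
    · exact absurd h1 (by norm_num)
    · exact absurd h1 (by norm_num)
    · exact absurd h1 (by norm_num)
    · exact corW_cert (G1 := gB0q1) (G2 := gB2q0) (Ga := gB5q2) (Gb := gB6q2) (D1 := dB0q1) (D2 := dB2q0) (Da := dB5q2) (Db := dB6q2) cA102R_ok B hρ hen (gatB01 x) (gatB20 x) (fun h => absurd h (by decide)) (fun _ => gatB62 x) (datB01 x) (datB20 x) (fun h => absurd h (by decide)) (fun _ => datB62 x) hd hx hx' CW.A102R_025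
  · intro ρ a B hρ hd i h1 h2
    fin_cases i
    · exact absurd h1 (by norm_num)
    · exact absurd h1 (by norm_num)
    · exact absurd h1 (by norm_num)
    · exact absurd h1 (by norm_num)
    · exact absurd h1 (by norm_num)
    · exact corT_cert (G1 := gB0q1) (G2 := gB2q0) (Ga := gB5q2) (Gb := gB6q2) cA102R_ok B hρ (gatB01 x) (gatB20 x) (fun h => absurd h (by decide)) (fun _ => gatB62 x) hd hx hx' CG.A102R_025

theorem altB_A102R_03 {κ x : ℝ} (hκ : κ * h0 = ken x) (hx : ((536870912 : ℕ) : ℝ) / S ≤ x) (hx' : x ≤ (((536870912 : ℕ) : ℝ) + (50465866 : ℕ)) / S) :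
    AltEA 3 κ (eng.v x) (3 / 40) (tnt (h0 * x) (3 / 10)) PP tK tL tC pcB (scP esg pd) [⟨0, 1, 0, 67108864⟩, ⟨1, 0, 0, 67108864⟩, ⟨2, 1, 0, 67108864⟩] 1 0 2 0 3 (sgb false) (sgb false) x := by
  have X : XR 67108864 x := XR.of hx hx' (by norm_num) (by norm_num) (by norm_num) (by norm_num)
  have hen : 0 < eng.v x := en_pos X.x0.le
  refine CornW.altA (C := cA102R) (j := (0 : Fin 7)) (k := (3 : Fin 7)) (Ef := esg) (pd := pd) (o := 3 / 40)
    (cornW_of (C := cA102R) (C0 := c0B) (En := eng) (mo := mog) (j := (0 : Fin 7)) (k := (3 : Fin 7)) (lo := 6) (hi := 6) (W := 67108864) (N0 := 3) cA102R_q (sideB hx hx') gokB (pinU hx hx') dokB X (by norm_num) (by norm_num) (l := (6 : Fin 7)) rfl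
      (gatB01 x) (gatB30 x) (gatB62 x) (datB01 x) (datB30 x) (datB62 x) ?_)
    (cornS_of (C := cA102R) (C0 := c0B) (j := (0 : Fin 7)) (k := (3 : Fin 7)) (lo := 6) (hi := 6) (W := 67108864) (N0 := 3) cA102R_q (sideB hx hx') gokB X (by norm_num) (by norm_num) (l := (6 : Fin 7)) rfl
      (gatB01 x) (gatB30 x) (gatB62 x) ?_)
    (thU (pinU hx hx')) rfl hκ (fun j q y => tC_eq j q y x) (esg_rng X.x0.le (by linarith [X.b, X.p0])).1 (mo_v x) le_rfl le_rfl
  · intro ρ a B hρ hd i h1 h2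
    fin_cases i
    · exact absurd h1 (by norm_num)
    · exact absurd h1 (by norm_num)
    · exact absurd h1 (by norm_num)
    · exact absurd h1 (by norm_num)
    · exact absurd h1 (by norm_num)
    · exact corW_cert (G1 := gB0q1) (G2 := gB3q0) (Ga := gB5q2) (Gb := gB6q2) (D1 := dB0q1) (D2 := dB3q0) (Da := dB5q2) (Db := dB6q2) cA102R_ok B hρ hen (gatB01 x) (gatB30 x) (fun h => absurd h (by decide)) (fun _ => gatB62 x) (datB01 x) (datB30 x) (fun h => absurd h (by decide)) (fun _ => datB62 x) hd hx hx' CW.A102R_035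
  · intro ρ a B hρ hd i h1 h2
    fin_cases i
    · exact absurd h1 (by norm_num)
    · exact absurd h1 (by norm_num)
    · exact absurd h1 (by norm_num)
    · exact absurd h1 (by norm_num)
    · exact absurd h1 (by norm_num)
    · exact corT_cert (G1 := gB0q1) (G2 := gB3q0) (Ga := gB5q2) (Gb := gB6q2) cA102R_ok B hρ (gatB01 x) (gatB30 x) (fun h => absurd h (by decide)) (fun _ => gatB62 x) hd hx hx' CG.A102R_035

theorem altB_A202E_00 {κ x : ℝ} (hκ : κ * h0 = ken x) (hx : ((536870912 : ℕ) : ℝ) / S ≤ x) (hx' : x ≤ (((536870912 : ℕ) : ℝ) + (50465866 : ℕ)) / S) :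
    AltEA 3 κ (eng.v x) (3 / 40) (tnt (h0 * x) (3 / 10)) PP tK tL tC pcB (scP esg pd) [⟨0, 1, 0, 67108864⟩, ⟨1, 0, 0, 67108864⟩, ⟨2, 1, 0, 67108864⟩] 2 0 2 0 0 (sgb true) (sgb false) x := by
  have X : XR 67108864 x := XR.of hx hx' (by norm_num) (by norm_num) (by norm_num) (by norm_num)
  have hen : 0 < eng.v x := en_pos X.x0.le
  refine CornW.altA (C := cA202E) (j := (0 : Fin 7)) (k := (0 : Fin 7)) (Ef := esg) (pd := pd) (o := 3 / 40)
    (cornW_of (C := cA202E) (C0 := c0B) (En := eng) (mo := mog) (j := (0 : Fin 7)) (k := (0 : Fin 7)) (lo := 0) (hi := 3) (W := 67108864) (N0 := 3) cA202E_q (sideB hx hx') gokB (pinU hx hx') dokB X (by norm_num) (by norm_num) (l := (0 : Fin 7)) rfl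
      (gatB02 x) (gatB00 x) (gatB02 x) (datB02 x) (datB00 x) (datB02 x) ?_)
    (cornS_of (C := cA202E) (C0 := c0B) (j := (0 : Fin 7)) (k := (0 : Fin 7)) (lo := 0) (hi := 3) (W := 67108864) (N0 := 3) cA202E_q (sideB hx hx') gokB X (by norm_num) (by norm_num) (l := (0 : Fin 7)) rfl
      (gatB02 x) (gatB00 x) (gatB02 x) ?_)
    (thU (pinU hx hx')) rfl hκ (fun j q y => tC_eq j q y x) (esg_rng X.x0.le (by linarith [X.b, X.p0])).1 (mo_v x) le_rfl le_rfl
  · intro ρ a B hρ hd i h1 h2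
    fin_cases i
    · exact corW_cert (G1 := gB0q2) (G2 := gB0q0) (Ga := gB0q2) (Gb := gB1q2) (D1 := dB0q2) (D2 := dB0q0) (Da := dB0q2) (Db := dB1q2) cA202E_ok B hρ hen (gatB02 x) (gatB00 x) (fun _ => gatB02 x) (fun _ => gatB12 x) (datB02 x) (datB00 x) (fun _ => datB02 x) (fun _ => datB12 x) hd hx hx' CW.A202E_000
    · exact corW_cert (G1 := gB0q2) (G2 := gB0q0) (Ga := gB1q2) (Gb := gB2q2) (D1 := dB0q2) (D2 := dB0q0) (Da := dB1q2) (Db := dB2q2) cA202E_ok B hρ hen (gatB02 x) (gatB00 x) (fun _ => gatB12 x) (fun _ => gatB22 x) (datB02 x) (datB00 x) (fun _ => datB12 x) (fun _ => datB22 x) hd hx hx' CW.A202E_001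
    · exact corW_cert (G1 := gB0q2) (G2 := gB0q0) (Ga := gB2q2) (Gb := gB3q2) (D1 := dB0q2) (D2 := dB0q0) (Da := dB2q2) (Db := dB3q2) cA202E_ok B hρ hen (gatB02 x) (gatB00 x) (fun _ => gatB22 x) (fun _ => gatB32 x) (datB02 x) (datB00 x) (fun _ => datB22 x) (fun _ => datB32 x) hd hx hx' CW.A202E_002
    · exact corW_cert (G1 := gB0q2) (G2 := gB0q0) (Ga := gB3q2) (Gb := gB4q2) (D1 := dB0q2) (D2 := dB0q0) (Da := dB3q2) (Db := dB4q2) cA202E_ok B hρ hen (gatB02 x) (gatB00 x) (fun _ => gatB32 x) (fun h => absurd h (by decide)) (datB02 x) (datB00 x) (fun _ => datB32 x) (fun h => absurd h (by decide)) hd hx hx' CW.A202E_003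
    · exact absurd h2 (by norm_num)
    · exact absurd h2 (by norm_num)
  · intro ρ a B hρ hd i h1 h2
    fin_cases i
    · exact corT_cert (G1 := gB0q2) (G2 := gB0q0) (Ga := gB0q2) (Gb := gB1q2) cA202E_ok B hρ (gatB02 x) (gatB00 x) (fun _ => gatB02 x) (fun _ => gatB12 x) hd hx hx' CG.A202E_000
    · exact corT_cert (G1 := gB0q2) (G2 := gB0q0) (Ga := gB1q2) (Gb := gB2q2) cA202E_ok B hρ (gatB02 x) (gatB00 x) (fun _ => gatB12 x) (fun _ => gatB22 x) hd hx hx' CG.A202E_001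
    · exact corT_cert (G1 := gB0q2) (G2 := gB0q0) (Ga := gB2q2) (Gb := gB3q2) cA202E_ok B hρ (gatB02 x) (gatB00 x) (fun _ => gatB22 x) (fun _ => gatB32 x) hd hx hx' CG.A202E_002
    · exact corT_cert (G1 := gB0q2) (G2 := gB0q0) (Ga := gB3q2) (Gb := gB4q2) cA202E_ok B hρ (gatB02 x) (gatB00 x) (fun _ => gatB32 x) (fun h => absurd h (by decide)) hd hx hx' CG.A202E_003
    · exact absurd h2 (by norm_num)
    · exact absurd h2 (by norm_num)

theorem altB_A202E_01 {κ x : ℝ} (hκ : κ * h0 = ken x) (hx : ((536870912 : ℕ) : ℝ) / S ≤ x) (hx' : x ≤ (((536870912 : ℕ) : ℝ) + (50465866 : ℕ)) / S) :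
    AltEA 3 κ (eng.v x) (3 / 40) (tnt (h0 * x) (3 / 10)) PP tK tL tC pcB (scP esg pd) [⟨0, 1, 0, 67108864⟩, ⟨1, 0, 0, 67108864⟩, ⟨2, 1, 0, 67108864⟩] 2 0 2 0 1 (sgb true) (sgb false) x := by
  have X : XR 67108864 x := XR.of hx hx' (by norm_num) (by norm_num) (by norm_num) (by norm_num)
  have hen : 0 < eng.v x := en_pos X.x0.le
  refine CornW.altA (C := cA202E) (j := (0 : Fin 7)) (k := (1 : Fin 7)) (Ef := esg) (pd := pd) (o := 3 / 40)
    (cornW_of (C := cA202E) (C0 := c0B) (En := eng) (mo := mog) (j := (0 : Fin 7)) (k := (1 : Fin 7)) (lo := 0) (hi := 3) (W := 67108864) (N0 := 3) cA202E_q (sideB hx hx') gokB (pinU hx hx') dokB X (by norm_num) (by norm_num) (l := (0 : Fin 7)) rfl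
      (gatB02 x) (gatB10 x) (gatB02 x) (datB02 x) (datB10 x) (datB02 x) ?_)
    (cornS_of (C := cA202E) (C0 := c0B) (j := (0 : Fin 7)) (k := (1 : Fin 7)) (lo := 0) (hi := 3) (W := 67108864) (N0 := 3) cA202E_q (sideB hx hx') gokB X (by norm_num) (by norm_num) (l := (0 : Fin 7)) rfl
      (gatB02 x) (gatB10 x) (gatB02 x) ?_)
    (thU (pinU hx hx')) rfl hκ (fun j q y => tC_eq j q y x) (esg_rng X.x0.le (by linarith [X.b, X.p0])).1 (mo_v x) le_rfl le_rfl
  · intro ρ a B hρ hd i h1 h2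
    fin_cases i
    · exact corW_cert (G1 := gB0q2) (G2 := gB1q0) (Ga := gB0q2) (Gb := gB1q2) (D1 := dB0q2) (D2 := dB1q0) (Da := dB0q2) (Db := dB1q2) cA202E_ok B hρ hen (gatB02 x) (gatB10 x) (fun _ => gatB02 x) (fun _ => gatB12 x) (datB02 x) (datB10 x) (fun _ => datB02 x) (fun _ => datB12 x) hd hx hx' CW.A202E_010
    · exact corW_cert (G1 := gB0q2) (G2 := gB1q0) (Ga := gB1q2) (Gb := gB2q2) (D1 := dB0q2) (D2 := dB1q0) (Da := dB1q2) (Db := dB2q2) cA202E_ok B hρ hen (gatB02 x) (gatB10 x) (fun _ => gatB12 x) (fun _ => gatB22 x) (datB02 x) (datB10 x) (fun _ => datB12 x) (fun _ => datB22 x) hd hx hx' CW.A202E_011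
    · exact corW_cert (G1 := gB0q2) (G2 := gB1q0) (Ga := gB2q2) (Gb := gB3q2) (D1 := dB0q2) (D2 := dB1q0) (Da := dB2q2) (Db := dB3q2) cA202E_ok B hρ hen (gatB02 x) (gatB10 x) (fun _ => gatB22 x) (fun _ => gatB32 x) (datB02 x) (datB10 x) (fun _ => datB22 x) (fun _ => datB32 x) hd hx hx' CW.A202E_012
    · exact corW_cert (G1 := gB0q2) (G2 := gB1q0) (Ga := gB3q2) (Gb := gB4q2) (D1 := dB0q2) (D2 := dB1q0) (Da := dB3q2) (Db := dB4q2) cA202E_ok B hρ hen (gatB02 x) (gatB10 x) (fun _ => gatB32 x) (fun h => absurd h (by decide)) (datB02 x) (datB10 x) (fun _ => datB32 x) (fun h => absurd h (by decide)) hd hx hx' CW.A202E_013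
    · exact absurd h2 (by norm_num)
    · exact absurd h2 (by norm_num)
  · intro ρ a B hρ hd i h1 h2
    fin_cases i
    · exact corT_cert (G1 := gB0q2) (G2 := gB1q0) (Ga := gB0q2) (Gb := gB1q2) cA202E_ok B hρ (gatB02 x) (gatB10 x) (fun _ => gatB02 x) (fun _ => gatB12 x) hd hx hx' CG.A202E_010
    · exact corT_cert (G1 := gB0q2) (G2 := gB1q0) (Ga := gB1q2) (Gb := gB2q2) cA202E_ok B hρ (gatB02 x) (gatB10 x) (fun _ => gatB12 x) (fun _ => gatB22 x) hd hx hx' CG.A202E_011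
    · exact corT_cert (G1 := gB0q2) (G2 := gB1q0) (Ga := gB2q2) (Gb := gB3q2) cA202E_ok B hρ (gatB02 x) (gatB10 x) (fun _ => gatB22 x) (fun _ => gatB32 x) hd hx hx' CG.A202E_012
    · exact corT_cert (G1 := gB0q2) (G2 := gB1q0) (Ga := gB3q2) (Gb := gB4q2) cA202E_ok B hρ (gatB02 x) (gatB10 x) (fun _ => gatB32 x) (fun h => absurd h (by decide)) hd hx hx' CG.A202E_013
    · exact absurd h2 (by norm_num)
    · exact absurd h2 (by norm_num)

theorem altB_A202E_02 {κ x : ℝ} (hκ : κ * h0 = ken x) (hx : ((536870912 : ℕ) : ℝ) / S ≤ x) (hx' : x ≤ (((536870912 : ℕ) : ℝ) + (50465866 : ℕ)) / S) :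
    AltEA 3 κ (eng.v x) (3 / 40) (tnt (h0 * x) (3 / 10)) PP tK tL tC pcB (scP esg pd) [⟨0, 1, 0, 67108864⟩, ⟨1, 0, 0, 67108864⟩, ⟨2, 1, 0, 67108864⟩] 2 0 2 0 2 (sgb true) (sgb false) x := by
  have X : XR 67108864 x := XR.of hx hx' (by norm_num) (by norm_num) (by norm_num) (by norm_num)
  have hen : 0 < eng.v x := en_pos X.x0.le
  refine CornW.altA (C := cA202E) (j := (0 : Fin 7)) (k := (2 : Fin 7)) (Ef := esg) (pd := pd) (o := 3 / 40)
    (cornW_of (C := cA202E) (C0 := c0B) (En := eng) (mo := mog) (j := (0 : Fin 7)) (k := (2 : Fin 7)) (lo := 0) (hi := 3) (W := 67108864) (N0 := 3) cA202E_q (sideB hx hx') gokB (pinU hx hx') dokB X (by norm_num) (by norm_num) (l := (0 : Fin 7)) rfl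
      (gatB02 x) (gatB20 x) (gatB02 x) (datB02 x) (datB20 x) (datB02 x) ?_)
    (cornS_of (C := cA202E) (C0 := c0B) (j := (0 : Fin 7)) (k := (2 : Fin 7)) (lo := 0) (hi := 3) (W := 67108864) (N0 := 3) cA202E_q (sideB hx hx') gokB X (by norm_num) (by norm_num) (l := (0 : Fin 7)) rfl
      (gatB02 x) (gatB20 x) (gatB02 x) ?_)
    (thU (pinU hx hx')) rfl hκ (fun j q y => tC_eq j q y x) (esg_rng X.x0.le (by linarith [X.b, X.p0])).1 (mo_v x) le_rfl le_rfl
  · intro ρ a B hρ hd i h1 h2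
    fin_cases i
    · exact corW_cert (G1 := gB0q2) (G2 := gB2q0) (Ga := gB0q2) (Gb := gB1q2) (D1 := dB0q2) (D2 := dB2q0) (Da := dB0q2) (Db := dB1q2) cA202E_ok B hρ hen (gatB02 x) (gatB20 x) (fun _ => gatB02 x) (fun _ => gatB12 x) (datB02 x) (datB20 x) (fun _ => datB02 x) (fun _ => datB12 x) hd hx hx' CW.A202E_020
    · exact corW_cert (G1 := gB0q2) (G2 := gB2q0) (Ga := gB1q2) (Gb := gB2q2) (D1 := dB0q2) (D2 := dB2q0) (Da := dB1q2) (Db := dB2q2) cA202E_ok B hρ hen (gatB02 x) (gatB20 x) (fun _ => gatB12 x) (fun _ => gatB22 x) (datB02 x) (datB20 x) (fun _ => datB12 x) (fun _ => datB22 x) hd hx hx' CW.A202E_021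
    · exact corW_cert (G1 := gB0q2) (G2 := gB2q0) (Ga := gB2q2) (Gb := gB3q2) (D1 := dB0q2) (D2 := dB2q0) (Da := dB2q2) (Db := dB3q2) cA202E_ok B hρ hen (gatB02 x) (gatB20 x) (fun _ => gatB22 x) (fun _ => gatB32 x) (datB02 x) (datB20 x) (fun _ => datB22 x) (fun _ => datB32 x) hd hx hx' CW.A202E_022
    · exact corW_cert (G1 := gB0q2) (G2 := gB2q0) (Ga := gB3q2) (Gb := gB4q2) (D1 := dB0q2) (D2 := dB2q0) (Da := dB3q2) (Db := dB4q2) cA202E_ok B hρ hen (gatB02 x) (gatB20 x) (fun _ => gatB32 x) (fun h => absurd h (by decide)) (datB02 x) (datB20 x) (fun _ => datB32 x) (fun h => absurd h (by decide)) hd hx hx' CW.A202E_023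
    · exact absurd h2 (by norm_num)
    · exact absurd h2 (by norm_num)
  · intro ρ a B hρ hd i h1 h2
    fin_cases i
    · exact corT_cert (G1 := gB0q2) (G2 := gB2q0) (Ga := gB0q2) (Gb := gB1q2) cA202E_ok B hρ (gatB02 x) (gatB20 x) (fun _ => gatB02 x) (fun _ => gatB12 x) hd hx hx' CG.A202E_020
    · exact corT_cert (G1 := gB0q2) (G2 := gB2q0) (Ga := gB1q2) (Gb := gB2q2) cA202E_ok B hρ (gatB02 x) (gatB20 x) (fun _ => gatB12 x) (fun _ => gatB22 x) hd hx hx' CG.A202E_021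
    · exact corT_cert (G1 := gB0q2) (G2 := gB2q0) (Ga := gB2q2) (Gb := gB3q2) cA202E_ok B hρ (gatB02 x) (gatB20 x) (fun _ => gatB22 x) (fun _ => gatB32 x) hd hx hx' CG.A202E_022
    · exact corT_cert (G1 := gB0q2) (G2 := gB2q0) (Ga := gB3q2) (Gb := gB4q2) cA202E_ok B hρ (gatB02 x) (gatB20 x) (fun _ => gatB32 x) (fun h => absurd h (by decide)) hd hx hx' CG.A202E_023
    · exact absurd h2 (by norm_num)
    · exact absurd h2 (by norm_num)

theorem altB_A202E_03 {κ x : ℝ} (hκ : κ * h0 = ken x) (hx : ((536870912 : ℕ) : ℝ) / S ≤ x) (hx' : x ≤ (((536870912 : ℕ) : ℝ) + (50465866 : ℕ)) / S) :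
    AltEA 3 κ (eng.v x) (3 / 40) (tnt (h0 * x) (3 / 10)) PP tK tL tC pcB (scP esg pd) [⟨0, 1, 0, 67108864⟩, ⟨1, 0, 0, 67108864⟩, ⟨2, 1, 0, 67108864⟩] 2 0 2 0 3 (sgb true) (sgb false) x := by
  have X : XR 67108864 x := XR.of hx hx' (by norm_num) (by norm_num) (by norm_num) (by norm_num)
  have hen : 0 < eng.v x := en_pos X.x0.le
  refine CornW.altA (C := cA202E) (j := (0 : Fin 7)) (k := (3 : Fin 7)) (Ef := esg) (pd := pd) (o := 3 / 40)
    (cornW_of (C := cA202E) (C0 := c0B) (En := eng) (mo := mog) (j := (0 : Fin 7)) (k := (3 : Fin 7)) (lo := 0) (hi := 3) (W := 67108864) (N0 := 3) cA202E_q (sideB hx hx') gokB (pinU hx hx') dokB X (by norm_num) (by norm_num) (l := (0 : Fin 7)) rfl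
      (gatB02 x) (gatB30 x) (gatB02 x) (datB02 x) (datB30 x) (datB02 x) ?_)
    (cornS_of (C := cA202E) (C0 := c0B) (j := (0 : Fin 7)) (k := (3 : Fin 7)) (lo := 0) (hi := 3) (W := 67108864) (N0 := 3) cA202E_q (sideB hx hx') gokB X (by norm_num) (by norm_num) (l := (0 : Fin 7)) rfl
      (gatB02 x) (gatB30 x) (gatB02 x) ?_)
    (thU (pinU hx hx')) rfl hκ (fun j q y => tC_eq j q y x) (esg_rng X.x0.le (by linarith [X.b, X.p0])).1 (mo_v x) le_rfl le_rfl
  · intro ρ a B hρ hd i h1 h2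
    fin_cases i
    · exact corW_cert (G1 := gB0q2) (G2 := gB3q0) (Ga := gB0q2) (Gb := gB1q2) (D1 := dB0q2) (D2 := dB3q0) (Da := dB0q2) (Db := dB1q2) cA202E_ok B hρ hen (gatB02 x) (gatB30 x) (fun _ => gatB02 x) (fun _ => gatB12 x) (datB02 x) (datB30 x) (fun _ => datB02 x) (fun _ => datB12 x) hd hx hx' CW.A202E_030
    · exact corW_cert (G1 := gB0q2) (G2 := gB3q0) (Ga := gB1q2) (Gb := gB2q2) (D1 := dB0q2) (D2 := dB3q0) (Da := dB1q2) (Db := dB2q2) cA202E_ok B hρ hen (gatB02 x) (gatB30 x) (fun _ => gatB12 x) (fun _ => gatB22 x) (datB02 x) (datB30 x) (fun _ => datB12 x) (fun _ => datB22 x) hd hx hx' CW.A202E_031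
    · exact corW_cert (G1 := gB0q2) (G2 := gB3q0) (Ga := gB2q2) (Gb := gB3q2) (D1 := dB0q2) (D2 := dB3q0) (Da := dB2q2) (Db := dB3q2) cA202E_ok B hρ hen (gatB02 x) (gatB30 x) (fun _ => gatB22 x) (fun _ => gatB32 x) (datB02 x) (datB30 x) (fun _ => datB22 x) (fun _ => datB32 x) hd hx hx' CW.A202E_032
    · exact corW_cert (G1 := gB0q2) (G2 := gB3q0) (Ga := gB3q2) (Gb := gB4q2) (D1 := dB0q2) (D2 := dB3q0) (Da := dB3q2) (Db := dB4q2) cA202E_ok B hρ hen (gatB02 x) (gatB30 x) (fun _ => gatB32 x) (fun h => absurd h (by decide)) (datB02 x) (datB30 x) (fun _ => datB32 x) (fun h => absurd h (by decide)) hd hx hx' CW.A202E_033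
    · exact absurd h2 (by norm_num)
    · exact absurd h2 (by norm_num)
  · intro ρ a B hρ hd i h1 h2
    fin_cases i
    · exact corT_cert (G1 := gB0q2) (G2 := gB3q0) (Ga := gB0q2) (Gb := gB1q2) cA202E_ok B hρ (gatB02 x) (gatB30 x) (fun _ => gatB02 x) (fun _ => gatB12 x) hd hx hx' CG.A202E_030
    · exact corT_cert (G1 := gB0q2) (G2 := gB3q0) (Ga := gB1q2) (Gb := gB2q2) cA202E_ok B hρ (gatB02 x) (gatB30 x) (fun _ => gatB12 x) (fun _ => gatB22 x) hd hx hx' CG.A202E_031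
    · exact corT_cert (G1 := gB0q2) (G2 := gB3q0) (Ga := gB2q2) (Gb := gB3q2) cA202E_ok B hρ (gatB02 x) (gatB30 x) (fun _ => gatB22 x) (fun _ => gatB32 x) hd hx hx' CG.A202E_032
    · exact corT_cert (G1 := gB0q2) (G2 := gB3q0) (Ga := gB3q2) (Gb := gB4q2) cA202E_ok B hρ (gatB02 x) (gatB30 x) (fun _ => gatB32 x) (fun h => absurd h (by decide)) hd hx hx' CG.A202E_033
    · exact absurd h2 (by norm_num)
    · exact absurd h2 (by norm_num)

theorem altB_A202E_11 {κ x : ℝ} (hκ : κ * h0 = ken x) (hx : ((536870912 : ℕ) : ℝ) / S ≤ x) (hx' : x ≤ (((536870912 : ℕ) : ℝ) + (50465866 : ℕ)) / S) :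
    AltEA 3 κ (eng.v x) (3 / 40) (tnt (h0 * x) (3 / 10)) PP tK tL tC pcB (scP esg pd) [⟨0, 1, 0, 67108864⟩, ⟨1, 0, 0, 67108864⟩, ⟨2, 1, 0, 67108864⟩] 2 0 2 1 1 (sgb true) (sgb false) x := by
  have X : XR 67108864 x := XR.of hx hx' (by norm_num) (by norm_num) (by norm_num) (by norm_num)
  have hen : 0 < eng.v x := en_pos X.x0.le
  refine CornW.altA (C := cA202E) (j := (1 : Fin 7)) (k := (1 : Fin 7)) (Ef := esg) (pd := pd) (o := 3 / 40)
    (cornW_of (C := cA202E) (C0 := c0B) (En := eng) (mo := mog) (j := (1 : Fin 7)) (k := (1 : Fin 7)) (lo := 0) (hi := 3) (W := 67108864) (N0 := 3) cA202E_q (sideB hx hx') gokB (pinU hx hx') dokB X (by norm_num) (by norm_num) (l := (0 : Fin 7)) rfl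
      (gatB12 x) (gatB10 x) (gatB02 x) (datB12 x) (datB10 x) (datB02 x) ?_)
    (cornS_of (C := cA202E) (C0 := c0B) (j := (1 : Fin 7)) (k := (1 : Fin 7)) (lo := 0) (hi := 3) (W := 67108864) (N0 := 3) cA202E_q (sideB hx hx') gokB X (by norm_num) (by norm_num) (l := (0 : Fin 7)) rfl
      (gatB12 x) (gatB10 x) (gatB02 x) ?_)
    (thU (pinU hx hx')) rfl hκ (fun j q y => tC_eq j q y x) (esg_rng X.x0.le (by linarith [X.b, X.p0])).1 (mo_v x) le_rfl le_rfl
  · intro ρ a B hρ hd i h1 h2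
    fin_cases i
    · exact corW_cert (G1 := gB1q2) (G2 := gB1q0) (Ga := gB0q2) (Gb := gB1q2) (D1 := dB1q2) (D2 := dB1q0) (Da := dB0q2) (Db := dB1q2) cA202E_ok B hρ hen (gatB12 x) (gatB10 x) (fun _ => gatB02 x) (fun _ => gatB12 x) (datB12 x) (datB10 x) (fun _ => datB02 x) (fun _ => datB12 x) hd hx hx' CW.A202E_110
    · exact corW_cert (G1 := gB1q2) (G2 := gB1q0) (Ga := gB1q2) (Gb := gB2q2) (D1 := dB1q2) (D2 := dB1q0) (Da := dB1q2) (Db := dB2q2) cA202E_ok B hρ hen (gatB12 x) (gatB10 x) (fun _ => gatB12 x) (fun _ => gatB22 x) (datB12 x) (datB10 x) (fun _ => datB12 x) (fun _ => datB22 x) hd hx hx' CW.A202E_111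
    · exact corW_cert (G1 := gB1q2) (G2 := gB1q0) (Ga := gB2q2) (Gb := gB3q2) (D1 := dB1q2) (D2 := dB1q0) (Da := dB2q2) (Db := dB3q2) cA202E_ok B hρ hen (gatB12 x) (gatB10 x) (fun _ => gatB22 x) (fun _ => gatB32 x) (datB12 x) (datB10 x) (fun _ => datB22 x) (fun _ => datB32 x) hd hx hx' CW.A202E_112
    · exact corW_cert (G1 := gB1q2) (G2 := gB1q0) (Ga := gB3q2) (Gb := gB4q2) (D1 := dB1q2) (D2 := dB1q0) (Da := dB3q2) (Db := dB4q2) cA202E_ok B hρ hen (gatB12 x) (gatB10 x) (fun _ => gatB32 x) (fun h => absurd h (by decide)) (datB12 x) (datB10 x) (fun _ => datB32 x) (fun h => absurd h (by decide)) hd hx hx' CW.A202E_113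
    · exact absurd h2 (by norm_num)
    · exact absurd h2 (by norm_num)
  · intro ρ a B hρ hd i h1 h2
    fin_cases i
    · exact corT_cert (G1 := gB1q2) (G2 := gB1q0) (Ga := gB0q2) (Gb := gB1q2) cA202E_ok B hρ (gatB12 x) (gatB10 x) (fun _ => gatB02 x) (fun _ => gatB12 x) hd hx hx' CG.A202E_110
    · exact corT_cert (G1 := gB1q2) (G2 := gB1q0) (Ga := gB1q2) (Gb := gB2q2) cA202E_ok B hρ (gatB12 x) (gatB10 x) (fun _ => gatB12 x) (fun _ => gatB22 x) hd hx hx' CG.A202E_111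
    · exact corT_cert (G1 := gB1q2) (G2 := gB1q0) (Ga := gB2q2) (Gb := gB3q2) cA202E_ok B hρ (gatB12 x) (gatB10 x) (fun _ => gatB22 x) (fun _ => gatB32 x) hd hx hx' CG.A202E_112
    · exact corT_cert (G1 := gB1q2) (G2 := gB1q0) (Ga := gB3q2) (Gb := gB4q2) cA202E_ok B hρ (gatB12 x) (gatB10 x) (fun _ => gatB32 x) (fun h => absurd h (by decide)) hd hx hx' CG.A202E_113
    · exact absurd h2 (by norm_num)
    · exact absurd h2 (by norm_num)

theorem altB_A202E_12 {κ x : ℝ} (hκ : κ * h0 = ken x) (hx : ((536870912 : ℕ) : ℝ) / S ≤ x) (hx' : x ≤ (((536870912 : ℕ) : ℝ) + (50465866 : ℕ)) / S) :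
    AltEA 3 κ (eng.v x) (3 / 40) (tnt (h0 * x) (3 / 10)) PP tK tL tC pcB (scP esg pd) [⟨0, 1, 0, 67108864⟩, ⟨1, 0, 0, 67108864⟩, ⟨2, 1, 0, 67108864⟩] 2 0 2 1 2 (sgb true) (sgb false) x := by
  have X : XR 67108864 x := XR.of hx hx' (by norm_num) (by norm_num) (by norm_num) (by norm_num)
  have hen : 0 < eng.v x := en_pos X.x0.le
  refine CornW.altA (C := cA202E) (j := (1 : Fin 7)) (k := (2 : Fin 7)) (Ef := esg) (pd := pd) (o := 3 / 40)
    (cornW_of (C := cA202E) (C0 := c0B) (En := eng) (mo := mog) (j := (1 : Fin 7)) (k := (2 : Fin 7)) (lo := 0) (hi := 3) (W := 67108864) (N0 := 3) cA202E_q (sideB hx hx') gokB (pinU hx hx') dokB X (by norm_num) (by norm_num) (l := (0 : Fin 7)) rfl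
      (gatB12 x) (gatB20 x) (gatB02 x) (datB12 x) (datB20 x) (datB02 x) ?_)
    (cornS_of (C := cA202E) (C0 := c0B) (j := (1 : Fin 7)) (k := (2 : Fin 7)) (lo := 0) (hi := 3) (W := 67108864) (N0 := 3) cA202E_q (sideB hx hx') gokB X (by norm_num) (by norm_num) (l := (0 : Fin 7)) rfl
      (gatB12 x) (gatB20 x) (gatB02 x) ?_)
    (thU (pinU hx hx')) rfl hκ (fun j q y => tC_eq j q y x) (esg_rng X.x0.le (by linarith [X.b, X.p0])).1 (mo_v x) le_rfl le_rfl
  · intro ρ a B hρ hd i h1 h2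
    fin_cases i
    · exact corW_cert (G1 := gB1q2) (G2 := gB2q0) (Ga := gB0q2) (Gb := gB1q2) (D1 := dB1q2) (D2 := dB2q0) (Da := dB0q2) (Db := dB1q2) cA202E_ok B hρ hen (gatB12 x) (gatB20 x) (fun _ => gatB02 x) (fun _ => gatB12 x) (datB12 x) (datB20 x) (fun _ => datB02 x) (fun _ => datB12 x) hd hx hx' CW.A202E_120
    · exact corW_cert (G1 := gB1q2) (G2 := gB2q0) (Ga := gB1q2) (Gb := gB2q2) (D1 := dB1q2) (D2 := dB2q0) (Da := dB1q2) (Db := dB2q2) cA202E_ok B hρ hen (gatB12 x) (gatB20 x) (fun _ => gatB12 x) (fun _ => gatB22 x) (datB12 x) (datB20 x) (fun _ => datB12 x) (fun _ => datB22 x) hd hx hx' CW.A202E_121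
    · exact corW_cert (G1 := gB1q2) (G2 := gB2q0) (Ga := gB2q2) (Gb := gB3q2) (D1 := dB1q2) (D2 := dB2q0) (Da := dB2q2) (Db := dB3q2) cA202E_ok B hρ hen (gatB12 x) (gatB20 x) (fun _ => gatB22 x) (fun _ => gatB32 x) (datB12 x) (datB20 x) (fun _ => datB22 x) (fun _ => datB32 x) hd hx hx' CW.A202E_122
    · exact corW_cert (G1 := gB1q2) (G2 := gB2q0) (Ga := gB3q2) (Gb := gB4q2) (D1 := dB1q2) (D2 := dB2q0) (Da := dB3q2) (Db := dB4q2) cA202E_ok B hρ hen (gatB12 x) (gatB20 x) (fun _ => gatB32 x) (fun h => absurd h (by decide)) (datB12 x) (datB20 x) (fun _ => datB32 x) (fun h => absurd h (by decide)) hd hx hx' CW.A202E_123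
    · exact absurd h2 (by norm_num)
    · exact absurd h2 (by norm_num)
  · intro ρ a B hρ hd i h1 h2
    fin_cases i
    · exact corT_cert (G1 := gB1q2) (G2 := gB2q0) (Ga := gB0q2) (Gb := gB1q2) cA202E_ok B hρ (gatB12 x) (gatB20 x) (fun _ => gatB02 x) (fun _ => gatB12 x) hd hx hx' CG.A202E_120
    · exact corT_cert (G1 := gB1q2) (G2 := gB2q0) (Ga := gB1q2) (Gb := gB2q2) cA202E_ok B hρ (gatB12 x) (gatB20 x) (fun _ => gatB12 x) (fun _ => gatB22 x) hd hx hx' CG.A202E_121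
    · exact corT_cert (G1 := gB1q2) (G2 := gB2q0) (Ga := gB2q2) (Gb := gB3q2) cA202E_ok B hρ (gatB12 x) (gatB20 x) (fun _ => gatB22 x) (fun _ => gatB32 x) hd hx hx' CG.A202E_122
    · exact corT_cert (G1 := gB1q2) (G2 := gB2q0) (Ga := gB3q2) (Gb := gB4q2) cA202E_ok B hρ (gatB12 x) (gatB20 x) (fun _ => gatB32 x) (fun h => absurd h (by decide)) hd hx hx' CG.A202E_123
    · exact absurd h2 (by norm_num)
    · exact absurd h2 (by norm_num)

theorem altB_A202E_13 {κ x : ℝ} (hκ : κ * h0 = ken x) (hx : ((536870912 : ℕ) : ℝ) / S ≤ x) (hx' : x ≤ (((536870912 : ℕ) : ℝ) + (50465866 : ℕ)) / S) :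
    AltEA 3 κ (eng.v x) (3 / 40) (tnt (h0 * x) (3 / 10)) PP tK tL tC pcB (scP esg pd) [⟨0, 1, 0, 67108864⟩, ⟨1, 0, 0, 67108864⟩, ⟨2, 1, 0, 67108864⟩] 2 0 2 1 3 (sgb true) (sgb false) x := by
  have X : XR 67108864 x := XR.of hx hx' (by norm_num) (by norm_num) (by norm_num) (by norm_num)
  have hen : 0 < eng.v x := en_pos X.x0.le
  refine CornW.altA (C := cA202E) (j := (1 : Fin 7)) (k := (3 : Fin 7)) (Ef := esg) (pd := pd) (o := 3 / 40)
    (cornW_of (C := cA202E) (C0 := c0B) (En := eng) (mo := mog) (j := (1 : Fin 7)) (k := (3 : Fin 7)) (lo := 0) (hi := 3) (W := 67108864) (N0 := 3) cA202E_q (sideB hx hx') gokB (pinU hx hx') dokB X (by norm_num) (by norm_num) (l := (0 : Fin 7)) rfl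
      (gatB12 x) (gatB30 x) (gatB02 x) (datB12 x) (datB30 x) (datB02 x) ?_)
    (cornS_of (C := cA202E) (C0 := c0B) (j := (1 : Fin 7)) (k := (3 : Fin 7)) (lo := 0) (hi := 3) (W := 67108864) (N0 := 3) cA202E_q (sideB hx hx') gokB X (by norm_num) (by norm_num) (l := (0 : Fin 7)) rfl
      (gatB12 x) (gatB30 x) (gatB02 x) ?_)
    (thU (pinU hx hx')) rfl hκ (fun j q y => tC_eq j q y x) (esg_rng X.x0.le (by linarith [X.b, X.p0])).1 (mo_v x) le_rfl le_rfl
  · intro ρ a B hρ hd i h1 h2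
    fin_cases i
    · exact corW_cert (G1 := gB1q2) (G2 := gB3q0) (Ga := gB0q2) (Gb := gB1q2) (D1 := dB1q2) (D2 := dB3q0) (Da := dB0q2) (Db := dB1q2) cA202E_ok B hρ hen (gatB12 x) (gatB30 x) (fun _ => gatB02 x) (fun _ => gatB12 x) (datB12 x) (datB30 x) (fun _ => datB02 x) (fun _ => datB12 x) hd hx hx' CW.A202E_130
    · exact corW_cert (G1 := gB1q2) (G2 := gB3q0) (Ga := gB1q2) (Gb := gB2q2) (D1 := dB1q2) (D2 := dB3q0) (Da := dB1q2) (Db := dB2q2) cA202E_ok B hρ hen (gatB12 x) (gatB30 x) (fun _ => gatB12 x) (fun _ => gatB22 x) (datB12 x) (datB30 x) (fun _ => datB12 x) (fun _ => datB22 x) hd hx hx' CW.A202E_131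
    · exact corW_cert (G1 := gB1q2) (G2 := gB3q0) (Ga := gB2q2) (Gb := gB3q2) (D1 := dB1q2) (D2 := dB3q0) (Da := dB2q2) (Db := dB3q2) cA202E_ok B hρ hen (gatB12 x) (gatB30 x) (fun _ => gatB22 x) (fun _ => gatB32 x) (datB12 x) (datB30 x) (fun _ => datB22 x) (fun _ => datB32 x) hd hx hx' CW.A202E_132
    · exact corW_cert (G1 := gB1q2) (G2 := gB3q0) (Ga := gB3q2) (Gb := gB4q2) (D1 := dB1q2) (D2 := dB3q0) (Da := dB3q2) (Db := dB4q2) cA202E_ok B hρ hen (gatB12 x) (gatB30 x) (fun _ => gatB32 x) (fun h => absurd h (by decide)) (datB12 x) (datB30 x) (fun _ => datB32 x) (fun h => absurd h (by decide)) hd hx hx' CW.A202E_133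
    · exact absurd h2 (by norm_num)
    · exact absurd h2 (by norm_num)
  · intro ρ a B hρ hd i h1 h2
    fin_cases i
    · exact corT_cert (G1 := gB1q2) (G2 := gB3q0) (Ga := gB0q2) (Gb := gB1q2) cA202E_ok B hρ (gatB12 x) (gatB30 x) (fun _ => gatB02 x) (fun _ => gatB12 x) hd hx hx' CG.A202E_130
    · exact corT_cert (G1 := gB1q2) (G2 := gB3q0) (Ga := gB1q2) (Gb := gB2q2) cA202E_ok B hρ (gatB12 x) (gatB30 x) (fun _ => gatB12 x) (fun _ => gatB22 x) hd hx hx' CG.A202E_131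
    · exact corT_cert (G1 := gB1q2) (G2 := gB3q0) (Ga := gB2q2) (Gb := gB3q2) cA202E_ok B hρ (gatB12 x) (gatB30 x) (fun _ => gatB22 x) (fun _ => gatB32 x) hd hx hx' CG.A202E_132
    · exact corT_cert (G1 := gB1q2) (G2 := gB3q0) (Ga := gB3q2) (Gb := gB4q2) cA202E_ok B hρ (gatB12 x) (gatB30 x) (fun _ => gatB32 x) (fun h => absurd h (by decide)) hd hx hx' CG.A202E_133
    · exact absurd h2 (by norm_num)
    · exact absurd h2 (by norm_num)

theorem altB_A202E_22 {κ x : ℝ} (hκ : κ * h0 = ken x) (hx : ((536870912 : ℕ) : ℝ) / S ≤ x) (hx' : x ≤ (((536870912 : ℕ) : ℝ) + (50465866 : ℕ)) / S) :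
    AltEA 3 κ (eng.v x) (3 / 40) (tnt (h0 * x) (3 / 10)) PP tK tL tC pcB (scP esg pd) [⟨0, 1, 0, 67108864⟩, ⟨1, 0, 0, 67108864⟩, ⟨2, 1, 0, 67108864⟩] 2 0 2 2 2 (sgb true) (sgb false) x := by
  have X : XR 67108864 x := XR.of hx hx' (by norm_num) (by norm_num) (by norm_num) (by norm_num)
  have hen : 0 < eng.v x := en_pos X.x0.le
  refine CornW.altA (C := cA202E) (j := (2 : Fin 7)) (k := (2 : Fin 7)) (Ef := esg) (pd := pd) (o := 3 / 40)
    (cornW_of (C := cA202E) (C0 := c0B) (En := eng) (mo := mog) (j := (2 : Fin 7)) (k := (2 : Fin 7)) (lo := 0) (hi := 3) (W := 67108864) (N0 := 3) cA202E_q (sideB hx hx') gokB (pinU hx hx') dokB X (by norm_num) (by norm_num) (l := (0 : Fin 7)) rfl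
      (gatB22 x) (gatB20 x) (gatB02 x) (datB22 x) (datB20 x) (datB02 x) ?_)
    (cornS_of (C := cA202E) (C0 := c0B) (j := (2 : Fin 7)) (k := (2 : Fin 7)) (lo := 0) (hi := 3) (W := 67108864) (N0 := 3) cA202E_q (sideB hx hx') gokB X (by norm_num) (by norm_num) (l := (0 : Fin 7)) rfl
      (gatB22 x) (gatB20 x) (gatB02 x) ?_)
    (thU (pinU hx hx')) rfl hκ (fun j q y => tC_eq j q y x) (esg_rng X.x0.le (by linarith [X.b, X.p0])).1 (mo_v x) le_rfl le_rfl
  · intro ρ a B hρ hd i h1 h2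
    fin_cases i
    · exact corW_cert (G1 := gB2q2) (G2 := gB2q0) (Ga := gB0q2) (Gb := gB1q2) (D1 := dB2q2) (D2 := dB2q0) (Da := dB0q2) (Db := dB1q2) cA202E_ok B hρ hen (gatB22 x) (gatB20 x) (fun _ => gatB02 x) (fun _ => gatB12 x) (datB22 x) (datB20 x) (fun _ => datB02 x) (fun _ => datB12 x) hd hx hx' CW.A202E_220
    · exact corW_cert (G1 := gB2q2) (G2 := gB2q0) (Ga := gB1q2) (Gb := gB2q2) (D1 := dB2q2) (D2 := dB2q0) (Da := dB1q2) (Db := dB2q2) cA202E_ok B hρ hen (gatB22 x) (gatB20 x) (fun _ => gatB12 x) (fun _ => gatB22 x) (datB22 x) (datB20 x) (fun _ => datB12 x) (fun _ => datB22 x) hd hx hx' CW.A202E_221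
    · exact corW_cert (G1 := gB2q2) (G2 := gB2q0) (Ga := gB2q2) (Gb := gB3q2) (D1 := dB2q2) (D2 := dB2q0) (Da := dB2q2) (Db := dB3q2) cA202E_ok B hρ hen (gatB22 x) (gatB20 x) (fun _ => gatB22 x) (fun _ => gatB32 x) (datB22 x) (datB20 x) (fun _ => datB22 x) (fun _ => datB32 x) hd hx hx' CW.A202E_222
    · exact corW_cert (G1 := gB2q2) (G2 := gB2q0) (Ga := gB3q2) (Gb := gB4q2) (D1 := dB2q2) (D2 := dB2q0) (Da := dB3q2) (Db := dB4q2) cA202E_ok B hρ hen (gatB22 x) (gatB20 x) (fun _ => gatB32 x) (fun h => absurd h (by decide)) (datB22 x) (datB20 x) (fun _ => datB32 x) (fun h => absurd h (by decide)) hd hx hx' CW.A202E_223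
    · exact absurd h2 (by norm_num)
    · exact absurd h2 (by norm_num)
  · intro ρ a B hρ hd i h1 h2
    fin_cases i
    · exact corT_cert (G1 := gB2q2) (G2 := gB2q0) (Ga := gB0q2) (Gb := gB1q2) cA202E_ok B hρ (gatB22 x) (gatB20 x) (fun _ => gatB02 x) (fun _ => gatB12 x) hd hx hx' CG.A202E_220
    · exact corT_cert (G1 := gB2q2) (G2 := gB2q0) (Ga := gB1q2) (Gb := gB2q2) cA202E_ok B hρ (gatB22 x) (gatB20 x) (fun _ => gatB12 x) (fun _ => gatB22 x) hd hx hx' CG.A202E_221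
    · exact corT_cert (G1 := gB2q2) (G2 := gB2q0) (Ga := gB2q2) (Gb := gB3q2) cA202E_ok B hρ (gatB22 x) (gatB20 x) (fun _ => gatB22 x) (fun _ => gatB32 x) hd hx hx' CG.A202E_222
    · exact corT_cert (G1 := gB2q2) (G2 := gB2q0) (Ga := gB3q2) (Gb := gB4q2) cA202E_ok B hρ (gatB22 x) (gatB20 x) (fun _ => gatB32 x) (fun h => absurd h (by decide)) hd hx hx' CG.A202E_223
    · exact absurd h2 (by norm_num)
    · exact absurd h2 (by norm_num)

theorem altB_A202E_23 {κ x : ℝ} (hκ : κ * h0 = ken x) (hx : ((536870912 : ℕ) : ℝ) / S ≤ x) (hx' : x ≤ (((536870912 : ℕ) : ℝ) + (50465866 : ℕ)) / S) :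
    AltEA 3 κ (eng.v x) (3 / 40) (tnt (h0 * x) (3 / 10)) PP tK tL tC pcB (scP esg pd) [⟨0, 1, 0, 67108864⟩, ⟨1, 0, 0, 67108864⟩, ⟨2, 1, 0, 67108864⟩] 2 0 2 2 3 (sgb true) (sgb false) x := by
  have X : XR 67108864 x := XR.of hx hx' (by norm_num) (by norm_num) (by norm_num) (by norm_num)
  have hen : 0 < eng.v x := en_pos X.x0.le
  refine CornW.altA (C := cA202E) (j := (2 : Fin 7)) (k := (3 : Fin 7)) (Ef := esg) (pd := pd) (o := 3 / 40)
    (cornW_of (C := cA202E) (C0 := c0B) (En := eng) (mo := mog) (j := (2 : Fin 7)) (k := (3 : Fin 7)) (lo := 0) (hi := 3) (W := 67108864) (N0 := 3) cA202E_q (sideB hx hx') gokB (pinU hx hx') dokB X (by norm_num) (by norm_num) (l := (0 : Fin 7)) rfl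
      (gatB22 x) (gatB30 x) (gatB02 x) (datB22 x) (datB30 x) (datB02 x) ?_)
    (cornS_of (C := cA202E) (C0 := c0B) (j := (2 : Fin 7)) (k := (3 : Fin 7)) (lo := 0) (hi := 3) (W := 67108864) (N0 := 3) cA202E_q (sideB hx hx') gokB X (by norm_num) (by norm_num) (l := (0 : Fin 7)) rfl
      (gatB22 x) (gatB30 x) (gatB02 x) ?_)
    (thU (pinU hx hx')) rfl hκ (fun j q y => tC_eq j q y x) (esg_rng X.x0.le (by linarith [X.b, X.p0])).1 (mo_v x) le_rfl le_rfl
  · intro ρ a B hρ hd i h1 h2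
    fin_cases i
    · exact corW_cert (G1 := gB2q2) (G2 := gB3q0) (Ga := gB0q2) (Gb := gB1q2) (D1 := dB2q2) (D2 := dB3q0) (Da := dB0q2) (Db := dB1q2) cA202E_ok B hρ hen (gatB22 x) (gatB30 x) (fun _ => gatB02 x) (fun _ => gatB12 x) (datB22 x) (datB30 x) (fun _ => datB02 x) (fun _ => datB12 x) hd hx hx' CW.A202E_230
    · exact corW_cert (G1 := gB2q2) (G2 := gB3q0) (Ga := gB1q2) (Gb := gB2q2) (D1 := dB2q2) (D2 := dB3q0) (Da := dB1q2) (Db := dB2q2) cA202E_ok B hρ hen (gatB22 x) (gatB30 x) (fun _ => gatB12 x) (fun _ => gatB22 x) (datB22 x) (datB30 x) (fun _ => datB12 x) (fun _ => datB22 x) hd hx hx' CW.A202E_231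
    · exact corW_cert (G1 := gB2q2) (G2 := gB3q0) (Ga := gB2q2) (Gb := gB3q2) (D1 := dB2q2) (D2 := dB3q0) (Da := dB2q2) (Db := dB3q2) cA202E_ok B hρ hen (gatB22 x) (gatB30 x) (fun _ => gatB22 x) (fun _ => gatB32 x) (datB22 x) (datB30 x) (fun _ => datB22 x) (fun _ => datB32 x) hd hx hx' CW.A202E_232
    · exact corW_cert (G1 := gB2q2) (G2 := gB3q0) (Ga := gB3q2) (Gb := gB4q2) (D1 := dB2q2) (D2 := dB3q0) (Da := dB3q2) (Db := dB4q2) cA202E_ok B hρ hen (gatB22 x) (gatB30 x) (fun _ => gatB32 x) (fun h => absurd h (by decide)) (datB22 x) (datB30 x) (fun _ => datB32 x) (fun h => absurd h (by decide)) hd hx hx' CW.A202E_233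
    · exact absurd h2 (by norm_num)
    · exact absurd h2 (by norm_num)
  · intro ρ a B hρ hd i h1 h2
    fin_cases i
    · exact corT_cert (G1 := gB2q2) (G2 := gB3q0) (Ga := gB0q2) (Gb := gB1q2) cA202E_ok B hρ (gatB22 x) (gatB30 x) (fun _ => gatB02 x) (fun _ => gatB12 x) hd hx hx' CG.A202E_230
    · exact corT_cert (G1 := gB2q2) (G2 := gB3q0) (Ga := gB1q2) (Gb := gB2q2) cA202E_ok B hρ (gatB22 x) (gatB30 x) (fun _ => gatB12 x) (fun _ => gatB22 x) hd hx hx' CG.A202E_231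
    · exact corT_cert (G1 := gB2q2) (G2 := gB3q0) (Ga := gB2q2) (Gb := gB3q2) cA202E_ok B hρ (gatB22 x) (gatB30 x) (fun _ => gatB22 x) (fun _ => gatB32 x) hd hx hx' CG.A202E_232
    · exact corT_cert (G1 := gB2q2) (G2 := gB3q0) (Ga := gB3q2) (Gb := gB4q2) cA202E_ok B hρ (gatB22 x) (gatB30 x) (fun _ => gatB32 x) (fun h => absurd h (by decide)) hd hx hx' CG.A202E_233
    · exact absurd h2 (by norm_num)
    · exact absurd h2 (by norm_num)

theorem altB_A202E_33 {κ x : ℝ} (hκ : κ * h0 = ken x) (hx : ((536870912 : ℕ) : ℝ) / S ≤ x) (hx' : x ≤ (((536870912 : ℕ) : ℝ) + (50465866 : ℕ)) / S) :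
    AltEA 3 κ (eng.v x) (3 / 40) (tnt (h0 * x) (3 / 10)) PP tK tL tC pcB (scP esg pd) [⟨0, 1, 0, 67108864⟩, ⟨1, 0, 0, 67108864⟩, ⟨2, 1, 0, 67108864⟩] 2 0 2 3 3 (sgb true) (sgb false) x := by
  have X : XR 67108864 x := XR.of hx hx' (by norm_num) (by norm_num) (by norm_num) (by norm_num)
  have hen : 0 < eng.v x := en_pos X.x0.le
  refine CornW.altA (C := cA202E) (j := (3 : Fin 7)) (k := (3 : Fin 7)) (Ef := esg) (pd := pd) (o := 3 / 40)
    (cornW_of (C := cA202E) (C0 := c0B) (En := eng) (mo := mog) (j := (3 : Fin 7)) (k := (3 : Fin 7)) (lo := 0) (hi := 3) (W := 67108864) (N0 := 3) cA202E_q (sideB hx hx') gokB (pinU hx hx') dokB X (by norm_num) (by norm_num) (l := (0 : Fin 7)) rfl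
      (gatB32 x) (gatB30 x) (gatB02 x) (datB32 x) (datB30 x) (datB02 x) ?_)
    (cornS_of (C := cA202E) (C0 := c0B) (j := (3 : Fin 7)) (k := (3 : Fin 7)) (lo := 0) (hi := 3) (W := 67108864) (N0 := 3) cA202E_q (sideB hx hx') gokB X (by norm_num) (by norm_num) (l := (0 : Fin 7)) rfl
      (gatB32 x) (gatB30 x) (gatB02 x) ?_)
    (thU (pinU hx hx')) rfl hκ (fun j q y => tC_eq j q y x) (esg_rng X.x0.le (by linarith [X.b, X.p0])).1 (mo_v x) le_rfl le_rfl
  · intro ρ a B hρ hd i h1 h2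
    fin_cases i
    · exact corW_cert (G1 := gB3q2) (G2 := gB3q0) (Ga := gB0q2) (Gb := gB1q2) (D1 := dB3q2) (D2 := dB3q0) (Da := dB0q2) (Db := dB1q2) cA202E_ok B hρ hen (gatB32 x) (gatB30 x) (fun _ => gatB02 x) (fun _ => gatB12 x) (datB32 x) (datB30 x) (fun _ => datB02 x) (fun _ => datB12 x) hd hx hx' CW.A202E_330
    · exact corW_cert (G1 := gB3q2) (G2 := gB3q0) (Ga := gB1q2) (Gb := gB2q2) (D1 := dB3q2) (D2 := dB3q0) (Da := dB1q2) (Db := dB2q2) cA202E_ok B hρ hen (gatB32 x) (gatB30 x) (fun _ => gatB12 x) (fun _ => gatB22 x) (datB32 x) (datB30 x) (fun _ => datB12 x) (fun _ => datB22 x) hd hx hx' CW.A202E_331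
    · exact corW_cert (G1 := gB3q2) (G2 := gB3q0) (Ga := gB2q2) (Gb := gB3q2) (D1 := dB3q2) (D2 := dB3q0) (Da := dB2q2) (Db := dB3q2) cA202E_ok B hρ hen (gatB32 x) (gatB30 x) (fun _ => gatB22 x) (fun _ => gatB32 x) (datB32 x) (datB30 x) (fun _ => datB22 x) (fun _ => datB32 x) hd hx hx' CW.A202E_332
    · exact corW_cert (G1 := gB3q2) (G2 := gB3q0) (Ga := gB3q2) (Gb := gB4q2) (D1 := dB3q2) (D2 := dB3q0) (Da := dB3q2) (Db := dB4q2) cA202E_ok B hρ hen (gatB32 x) (gatB30 x) (fun _ => gatB32 x) (fun h => absurd h (by decide)) (datB32 x) (datB30 x) (fun _ => datB32 x) (fun h => absurd h (by decide)) hd hx hx' CW.A202E_333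
    · exact absurd h2 (by norm_num)
    · exact absurd h2 (by norm_num)
  · intro ρ a B hρ hd i h1 h2
    fin_cases i
    · exact corT_cert (G1 := gB3q2) (G2 := gB3q0) (Ga := gB0q2) (Gb := gB1q2) cA202E_ok B hρ (gatB32 x) (gatB30 x) (fun _ => gatB02 x) (fun _ => gatB12 x) hd hx hx' CG.A202E_330
    · exact corT_cert (G1 := gB3q2) (G2 := gB3q0) (Ga := gB1q2) (Gb := gB2q2) cA202E_ok B hρ (gatB32 x) (gatB30 x) (fun _ => gatB12 x) (fun _ => gatB22 x) hd hx hx' CG.A202E_331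
    · exact corT_cert (G1 := gB3q2) (G2 := gB3q0) (Ga := gB2q2) (Gb := gB3q2) cA202E_ok B hρ (gatB32 x) (gatB30 x) (fun _ => gatB22 x) (fun _ => gatB32 x) hd hx hx' CG.A202E_332
    · exact corT_cert (G1 := gB3q2) (G2 := gB3q0) (Ga := gB3q2) (Gb := gB4q2) cA202E_ok B hρ (gatB32 x) (gatB30 x) (fun _ => gatB32 x) (fun h => absurd h (by decide)) hd hx hx' CG.A202E_333
    · exact absurd h2 (by norm_num)
    · exact absurd h2 (by norm_num)

theorem altB_A202R_00 {κ x : ℝ} (hκ : κ * h0 = ken x) (hx : ((536870912 : ℕ) : ℝ) / S ≤ x) (hx' : x ≤ (((536870912 : ℕ) : ℝ) + (50465866 : ℕ)) / S) :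
    AltEA 3 κ (eng.v x) (3 / 40) (tnt (h0 * x) (3 / 10)) PP tK tL tC pcB (scP esg pd) [⟨0, 1, 0, 67108864⟩, ⟨1, 0, 0, 67108864⟩, ⟨2, 1, 0, 67108864⟩] 2 0 2 0 0 (sgb false) (sgb false) x := by
  have X : XR 67108864 x := XR.of hx hx' (by norm_num) (by norm_num) (by norm_num) (by norm_num)
  have hen : 0 < eng.v x := en_pos X.x0.le
  refine CornW.altA (C := cA202R) (j := (0 : Fin 7)) (k := (0 : Fin 7)) (Ef := esg) (pd := pd) (o := 3 / 40)
    (cornW_of (C := cA202R) (C0 := c0B) (En := eng) (mo := mog) (j := (0 : Fin 7)) (k := (0 : Fin 7)) (lo := 6) (hi := 6) (W := 67108864) (N0 := 3) cA202R_q (sideB hx hx') gokB (pinU hx hx') dokB X (by norm_num) (by norm_num) (l := (6 : Fin 7)) rfl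
      (gatB02 x) (gatB00 x) (gatB62 x) (datB02 x) (datB00 x) (datB62 x) ?_)
    (cornS_of (C := cA202R) (C0 := c0B) (j := (0 : Fin 7)) (k := (0 : Fin 7)) (lo := 6) (hi := 6) (W := 67108864) (N0 := 3) cA202R_q (sideB hx hx') gokB X (by norm_num) (by norm_num) (l := (6 : Fin 7)) rfl
      (gatB02 x) (gatB00 x) (gatB62 x) ?_)
    (thU (pinU hx hx')) rfl hκ (fun j q y => tC_eq j q y x) (esg_rng X.x0.le (by linarith [X.b, X.p0])).1 (mo_v x) le_rfl le_rfl
  · intro ρ a B hρ hd i h1 h2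
    fin_cases i
    · exact absurd h1 (by norm_num)
    · exact absurd h1 (by norm_num)
    · exact absurd h1 (by norm_num)
    · exact absurd h1 (by norm_num)
    · exact absurd h1 (by norm_num)
    · exact corW_cert (G1 := gB0q2) (G2 := gB0q0) (Ga := gB5q2) (Gb := gB6q2) (D1 := dB0q2) (D2 := dB0q0) (Da := dB5q2) (Db := dB6q2) cA202R_ok B hρ hen (gatB02 x) (gatB00 x) (fun h => absurd h (by decide)) (fun _ => gatB62 x) (datB02 x) (datB00 x) (fun h => absurd h (by decide)) (fun _ => datB62 x) hd hx hx' CW.A202R_005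
  · intro ρ a B hρ hd i h1 h2
    fin_cases i
    · exact absurd h1 (by norm_num)
    · exact absurd h1 (by norm_num)
    · exact absurd h1 (by norm_num)
    · exact absurd h1 (by norm_num)
    · exact absurd h1 (by norm_num)
    · exact corX_cert (G1 := gB0q2) (G2 := gB0q0) (Ga := gB5q2) (Gb := gB6q2) (GT := gB6q2) cA202R_ok tA202R_ok B hρ (gatB02 x) (gatB00 x) (fun h => absurd h (by decide)) (fun _ => gatB62 x) rfl (tgh_A202R (kodd x) (gpu2 x) (gpu0 x) (gpt2 x) (gatB02 x) (gatB00 x) (gatB62 x) B (le_sixteenth hd (by norm_num))) hd hx hx' CG.A202R_005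

theorem altB_A202R_01 {κ x : ℝ} (hκ : κ * h0 = ken x) (hx : ((536870912 : ℕ) : ℝ) / S ≤ x) (hx' : x ≤ (((536870912 : ℕ) : ℝ) + (50465866 : ℕ)) / S) :
    AltEA 3 κ (eng.v x) (3 / 40) (tnt (h0 * x) (3 / 10)) PP tK tL tC pcB (scP esg pd) [⟨0, 1, 0, 67108864⟩, ⟨1, 0, 0, 67108864⟩, ⟨2, 1, 0, 67108864⟩] 2 0 2 0 1 (sgb false) (sgb false) x := by
  have X : XR 67108864 x := XR.of hx hx' (by norm_num) (by norm_num) (by norm_num) (by norm_num)
  have hen : 0 < eng.v x := en_pos X.x0.le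
  refine CornW.altA (C := cA202R) (j := (0 : Fin 7)) (k := (1 : Fin 7)) (Ef := esg) (pd := pd) (o := 3 / 40)
    (cornW_of (C := cA202R) (C0 := c0B) (En := eng) (mo := mog) (j := (0 : Fin 7)) (k := (1 : Fin 7)) (lo := 6) (hi := 6) (W := 67108864) (N0 := 3) cA202R_q (sideB hx hx') gokB (pinU hx hx') dokB X (by norm_num) (by norm_num) (l := (6 : Fin 7)) rfl
      (gatB02 x) (gatB10 x) (gatB62 x) (datB02 x) (datB10 x) (datB62 x) ?_)
    (cornS_of (C := cA202R) (C0 := c0B) (j := (0 : Fin 7)) (k := (1 : Fin 7)) (lo := 6) (hi := 6) (W := 67108864) (N0 := 3) cA202R_q (sideB hx hx') gokB X (by norm_num) (by norm_num) (l := (6 : Fin 7)) rfl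
      (gatB02 x) (gatB10 x) (gatB62 x) ?_)
    (thU (pinU hx hx')) rfl hκ (fun j q y => tC_eq j q y x) (esg_rng X.x0.le (by linarith [X.b, X.p0])).1 (mo_v x) le_rfl le_rfl
  · intro ρ a B hρ hd i h1 h2
    fin_cases i
    · exact absurd h1 (by norm_num)
    · exact absurd h1 (by norm_num)
    · exact absurd h1 (by norm_num)
    · exact absurd h1 (by norm_num)
    · exact absurd h1 (by norm_num)
    · exact corW_cert (G1 := gB0q2) (G2 := gB1q0) (Ga := gB5q2) (Gb := gB6q2) (D1 := dB0q2) (D2 := dB1q0) (Da := dB5q2) (Db := dB6q2) cA202R_ok B hρ hen (gatB02 x) (gatB10 x) (fun h => absurd h (by decide)) (fun _ => gatB62 x) (datB02 x) (datB10 x) (fun h => absurd h (by decide)) (fun _ => datB62 x) hd hx hx' CW.A202R_015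
  · intro ρ a B hρ hd i h1 h2
    fin_cases i
    · exact absurd h1 (by norm_num)
    · exact absurd h1 (by norm_num)
    · exact absurd h1 (by norm_num)
    · exact absurd h1 (by norm_num)
    · exact absurd h1 (by norm_num)
    · exact corT_cert (G1 := gB0q2) (G2 := gB1q0) (Ga := gB5q2) (Gb := gB6q2) cA202R_ok B hρ (gatB02 x) (gatB10 x) (fun h => absurd h (by decide)) (fun _ => gatB62 x) hd hx hx' CG.A202R_015

theorem altB_A202R_02 {κ x : ℝ} (hκ : κ * h0 = ken x) (hx : ((536870912 : ℕ) : ℝ) / S ≤ x) (hx' : x ≤ (((536870912 : ℕ) : ℝ) + (50465866 : ℕ)) / S) :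
    AltEA 3 κ (eng.v x) (3 / 40) (tnt (h0 * x) (3 / 10)) PP tK tL tC pcB (scP esg pd) [⟨0, 1, 0, 67108864⟩, ⟨1, 0, 0, 67108864⟩, ⟨2, 1, 0, 67108864⟩] 2 0 2 0 2 (sgb false) (sgb false) x := by
  have X : XR 67108864 x := XR.of hx hx' (by norm_num) (by norm_num) (by norm_num) (by norm_num)
  have hen : 0 < eng.v x := en_pos X.x0.le
  refine CornW.altA (C := cA202R) (j := (0 : Fin 7)) (k := (2 : Fin 7)) (Ef := esg) (pd := pd) (o := 3 / 40)
    (cornW_of (C := cA202R) (C0 := c0B) (En := eng) (mo := mog) (j := (0 : Fin 7)) (k := (2 : Fin 7)) (lo := 6) (hi := 6) (W := 67108864) (N0 := 3) cA202R_q (sideB hx hx') gokB (pinU hx hx') dokB X (by norm_num) (by norm_num) (l := (6 : Fin 7)) rfl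
      (gatB02 x) (gatB20 x) (gatB62 x) (datB02 x) (datB20 x) (datB62 x) ?_)
    (cornS_of (C := cA202R) (C0 := c0B) (j := (0 : Fin 7)) (k := (2 : Fin 7)) (lo := 6) (hi := 6) (W := 67108864) (N0 := 3) cA202R_q (sideB hx hx') gokB X (by norm_num) (by norm_num) (l := (6 : Fin 7)) rfl
      (gatB02 x) (gatB20 x) (gatB62 x) ?_)
    (thU (pinU hx hx')) rfl hκ (fun j q y => tC_eq j q y x) (esg_rng X.x0.le (by linarith [X.b, X.p0])).1 (mo_v x) le_rfl le_rfl
  · intro ρ a B hρ hd i h1 h2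
    fin_cases i
    · exact absurd h1 (by norm_num)
    · exact absurd h1 (by norm_num)
    · exact absurd h1 (by norm_num)
    · exact absurd h1 (by norm_num)
    · exact absurd h1 (by norm_num)
    · exact corW_cert (G1 := gB0q2) (G2 := gB2q0) (Ga := gB5q2) (Gb := gB6q2) (D1 := dB0q2) (D2 := dB2q0) (Da := dB5q2) (Db := dB6q2) cA202R_ok B hρ hen (gatB02 x) (gatB20 x) (fun h => absurd h (by decide)) (fun _ => gatB62 x) (datB02 x) (datB20 x) (fun h => absurd h (by decide)) (fun _ => datB62 x) hd hx hx' CW.A202R_025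
  · intro ρ a B hρ hd i h1 h2
    fin_cases i
    · exact absurd h1 (by norm_num)
    · exact absurd h1 (by norm_num)
    · exact absurd h1 (by norm_num)
    · exact absurd h1 (by norm_num)
    · exact absurd h1 (by norm_num)
    · exact corT_cert (G1 := gB0q2) (G2 := gB2q0) (Ga := gB5q2) (Gb := gB6q2) cA202R_ok B hρ (gatB02 x) (gatB20 x) (fun h => absurd h (by decide)) (fun _ => gatB62 x) hd hx hx' CG.A202R_025

theorem altB_A202R_03 {κ x : ℝ} (hκ : κ * h0 = ken x) (hx : ((536870912 : ℕ) : ℝ) / S ≤ x) (hx' : x ≤ (((536870912 : ℕ) : ℝ) + (50465866 : ℕ)) / S) :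
    AltEA 3 κ (eng.v x) (3 / 40) (tnt (h0 * x) (3 / 10)) PP tK tL tC pcB (scP esg pd) [⟨0, 1, 0, 67108864⟩, ⟨1, 0, 0, 67108864⟩, ⟨2, 1, 0, 67108864⟩] 2 0 2 0 3 (sgb false) (sgb false) x := by
  have X : XR 67108864 x := XR.of hx hx' (by norm_num) (by norm_num) (by norm_num) (by norm_num)
  have hen : 0 < eng.v x := en_pos X.x0.le
  refine CornW.altA (C := cA202R) (j := (0 : Fin 7)) (k := (3 : Fin 7)) (Ef := esg) (pd := pd) (o := 3 / 40)
    (cornW_of (C := cA202R) (C0 := c0B) (En := eng) (mo := mog) (j := (0 : Fin 7)) (k := (3 : Fin 7)) (lo := 6) (hi := 6) (W := 67108864) (N0 := 3) cA202R_q (sideB hx hx') gokB (pinU hx hx') dokB X (by norm_num) (by norm_num) (l := (6 : Fin 7)) rfl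
      (gatB02 x) (gatB30 x) (gatB62 x) (datB02 x) (datB30 x) (datB62 x) ?_)
    (cornS_of (C := cA202R) (C0 := c0B) (j := (0 : Fin 7)) (k := (3 : Fin 7)) (lo := 6) (hi := 6) (W := 67108864) (N0 := 3) cA202R_q (sideB hx hx') gokB X (by norm_num) (by norm_num) (l := (6 : Fin 7)) rfl
      (gatB02 x) (gatB30 x) (gatB62 x) ?_)
    (thU (pinU hx hx')) rfl hκ (fun j q y => tC_eq j q y x) (esg_rng X.x0.le (by linarith [X.b, X.p0])).1 (mo_v x) le_rfl le_rfl
  · intro ρ a B hρ hd i h1 h2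
    fin_cases i
    · exact absurd h1 (by norm_num)
    · exact absurd h1 (by norm_num)
    · exact absurd h1 (by norm_num)
    · exact absurd h1 (by norm_num)
    · exact absurd h1 (by norm_num)
    · exact corW_cert (G1 := gB0q2) (G2 := gB3q0) (Ga := gB5q2) (Gb := gB6q2) (D1 := dB0q2) (D2 := dB3q0) (Da := dB5q2) (Db := dB6q2) cA202R_ok B hρ hen (gatB02 x) (gatB30 x) (fun h => absurd h (by decide)) (fun _ => gatB62 x) (datB02 x) (datB30 x) (fun h => absurd h (by decide)) (fun _ => datB62 x) hd hx hx' CW.A202R_035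
  · intro ρ a B hρ hd i h1 h2
    fin_cases i
    · exact absurd h1 (by norm_num)
    · exact absurd h1 (by norm_num)
    · exact absurd h1 (by norm_num)
    · exact absurd h1 (by norm_num)
    · exact absurd h1 (by norm_num)
    · exact corT_cert (G1 := gB0q2) (G2 := gB3q0) (Ga := gB5q2) (Gb := gB6q2) cA202R_ok B hρ (gatB02 x) (gatB30 x) (fun h => absurd h (by decide)) (fun _ => gatB62 x) hd hx hx' CG.A202R_035

theorem altB_A202R_11 {κ x : ℝ} (hκ : κ * h0 = ken x) (hx : ((536870912 : ℕ) : ℝ) / S ≤ x) (hx' : x ≤ (((536870912 : ℕ) : ℝ) + (50465866 : ℕ)) / S) :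
    AltEA 3 κ (eng.v x) (3 / 40) (tnt (h0 * x) (3 / 10)) PP tK tL tC pcB (scP esg pd) [⟨0, 1, 0, 67108864⟩, ⟨1, 0, 0, 67108864⟩, ⟨2, 1, 0, 67108864⟩] 2 0 2 1 1 (sgb false) (sgb false) x := by
  have X : XR 67108864 x := XR.of hx hx' (by norm_num) (by norm_num) (by norm_num) (by norm_num)
  have hen : 0 < eng.v x := en_pos X.x0.le
  refine CornW.altA (C := cA202R) (j := (1 : Fin 7)) (k := (1 : Fin 7)) (Ef := esg) (pd := pd) (o := 3 / 40)
    (cornW_of (C := cA202R) (C0 := c0B) (En := eng) (mo := mog) (j := (1 : Fin 7)) (k := (1 : Fin 7)) (lo := 6) (hi := 6) (W := 67108864) (N0 := 3) cA202R_q (sideB hx hx') gokB (pinU hx hx') dokB X (by norm_num) (by norm_num) (l := (6 : Fin 7)) rfl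
      (gatB12 x) (gatB10 x) (gatB62 x) (datB12 x) (datB10 x) (datB62 x) ?_)
    (cornS_of (C := cA202R) (C0 := c0B) (j := (1 : Fin 7)) (k := (1 : Fin 7)) (lo := 6) (hi := 6) (W := 67108864) (N0 := 3) cA202R_q (sideB hx hx') gokB X (by norm_num) (by norm_num) (l := (6 : Fin 7)) rfl
      (gatB12 x) (gatB10 x) (gatB62 x) ?_)
    (thU (pinU hx hx')) rfl hκ (fun j q y => tC_eq j q y x) (esg_rng X.x0.le (by linarith [X.b, X.p0])).1 (mo_v x) le_rfl le_rfl
  · intro ρ a B hρ hd i h1 h2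
    fin_cases i
    · exact absurd h1 (by norm_num)
    · exact absurd h1 (by norm_num)
    · exact absurd h1 (by norm_num)
    · exact absurd h1 (by norm_num)
    · exact absurd h1 (by norm_num)
    · exact corW_cert (G1 := gB1q2) (G2 := gB1q0) (Ga := gB5q2) (Gb := gB6q2) (D1 := dB1q2) (D2 := dB1q0) (Da := dB5q2) (Db := dB6q2) cA202R_ok B hρ hen (gatB12 x) (gatB10 x) (fun h => absurd h (by decide)) (fun _ => gatB62 x) (datB12 x) (datB10 x) (fun h => absurd h (by decide)) (fun _ => datB62 x) hd hx hx' CW.A202R_115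
  · intro ρ a B hρ hd i h1 h2
    fin_cases i
    · exact absurd h1 (by norm_num)
    · exact absurd h1 (by norm_num)
    · exact absurd h1 (by norm_num)
    · exact absurd h1 (by norm_num)
    · exact absurd h1 (by norm_num)
    · exact corT_cert (G1 := gB1q2) (G2 := gB1q0) (Ga := gB5q2) (Gb := gB6q2) cA202R_ok B hρ (gatB12 x) (gatB10 x) (fun h => absurd h (by decide)) (fun _ => gatB62 x) hd hx hx' CG.A202R_115

theorem altB_A202R_12 {κ x : ℝ} (hκ : κ * h0 = ken x) (hx : ((536870912 : ℕ) : ℝ) / S ≤ x) (hx' : x ≤ (((536870912 : ℕ) : ℝ) + (50465866 : ℕ)) / S) :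
    AltEA 3 κ (eng.v x) (3 / 40) (tnt (h0 * x) (3 / 10)) PP tK tL tC pcB (scP esg pd) [⟨0, 1, 0, 67108864⟩, ⟨1, 0, 0, 67108864⟩, ⟨2, 1, 0, 67108864⟩] 2 0 2 1 2 (sgb false) (sgb false) x := by
  have X : XR 67108864 x := XR.of hx hx' (by norm_num) (by norm_num) (by norm_num) (by norm_num)
  have hen : 0 < eng.v x := en_pos X.x0.le
  refine CornW.altA (C := cA202R) (j := (1 : Fin 7)) (k := (2 : Fin 7)) (Ef := esg) (pd := pd) (o := 3 / 40)
    (cornW_of (C := cA202R) (C0 := c0B) (En := eng) (mo := mog) (j := (1 : Fin 7)) (k := (2 : Fin 7)) (lo := 6) (hi := 6) (W := 67108864) (N0 := 3) cA202R_q (sideB hx hx') gokB (pinU hx hx') dokB X (by norm_num) (by norm_num) (l := (6 : Fin 7)) rfl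
      (gatB12 x) (gatB20 x) (gatB62 x) (datB12 x) (datB20 x) (datB62 x) ?_)
    (cornS_of (C := cA202R) (C0 := c0B) (j := (1 : Fin 7)) (k := (2 : Fin 7)) (lo := 6) (hi := 6) (W := 67108864) (N0 := 3) cA202R_q (sideB hx hx') gokB X (by norm_num) (by norm_num) (l := (6 : Fin 7)) rfl
      (gatB12 x) (gatB20 x) (gatB62 x) ?_)
    (thU (pinU hx hx')) rfl hκ (fun j q y => tC_eq j q y x) (esg_rng X.x0.le (by linarith [X.b, X.p0])).1 (mo_v x) le_rfl le_rfl
  · intro ρ a B hρ hd i h1 h2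
    fin_cases i
    · exact absurd h1 (by norm_num)
    · exact absurd h1 (by norm_num)
    · exact absurd h1 (by norm_num)
    · exact absurd h1 (by norm_num)
    · exact absurd h1 (by norm_num)
    · exact corW_cert (G1 := gB1q2) (G2 := gB2q0) (Ga := gB5q2) (Gb := gB6q2) (D1 := dB1q2) (D2 := dB2q0) (Da := dB5q2) (Db := dB6q2) cA202R_ok B hρ hen (gatB12 x) (gatB20 x) (fun h => absurd h (by decide)) (fun _ => gatB62 x) (datB12 x) (datB20 x) (fun h => absurd h (by decide)) (fun _ => datB62 x) hd hx hx' CW.A202R_125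
  · intro ρ a B hρ hd i h1 h2
    fin_cases i
    · exact absurd h1 (by norm_num)
    · exact absurd h1 (by norm_num)
    · exact absurd h1 (by norm_num)
    · exact absurd h1 (by norm_num)
    · exact absurd h1 (by norm_num)
    · exact corT_cert (G1 := gB1q2) (G2 := gB2q0) (Ga := gB5q2) (Gb := gB6q2) cA202R_ok B hρ (gatB12 x) (gatB20 x) (fun h => absurd h (by decide)) (fun _ => gatB62 x) hd hx hx' CG.A202R_125

theorem altB_A202R_13 {κ x : ℝ} (hκ : κ * h0 = ken x) (hx : ((536870912 : ℕ) : ℝ) / S ≤ x) (hx' : x ≤ (((536870912 : ℕ) : ℝ) + (50465866 : ℕ)) / S) :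
    AltEA 3 κ (eng.v x) (3 / 40) (tnt (h0 * x) (3 / 10)) PP tK tL tC pcB (scP esg pd) [⟨0, 1, 0, 67108864⟩, ⟨1, 0, 0, 67108864⟩, ⟨2, 1, 0, 67108864⟩] 2 0 2 1 3 (sgb false) (sgb false) x := by
  have X : XR 67108864 x := XR.of hx hx' (by norm_num) (by norm_num) (by norm_num) (by norm_num)
  have hen : 0 < eng.v x := en_pos X.x0.le
  refine CornW.altA (C := cA202R) (j := (1 : Fin 7)) (k := (3 : Fin 7)) (Ef := esg) (pd := pd) (o := 3 / 40)
    (cornW_of (C := cA202R) (C0 := c0B) (En := eng) (mo := mog) (j := (1 : Fin 7)) (k := (3 : Fin 7)) (lo := 6) (hi := 6) (W := 67108864) (N0 := 3) cA202R_q (sideB hx hx') gokB (pinU hx hx') dokB X (by norm_num) (by norm_num) (l := (6 : Fin 7)) rfl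
      (gatB12 x) (gatB30 x) (gatB62 x) (datB12 x) (datB30 x) (datB62 x) ?_)
    (cornS_of (C := cA202R) (C0 := c0B) (j := (1 : Fin 7)) (k := (3 : Fin 7)) (lo := 6) (hi := 6) (W := 67108864) (N0 := 3) cA202R_q (sideB hx hx') gokB X (by norm_num) (by norm_num) (l := (6 : Fin 7)) rfl
      (gatB12 x) (gatB30 x) (gatB62 x) ?_)
    (thU (pinU hx hx')) rfl hκ (fun j q y => tC_eq j q y x) (esg_rng X.x0.le (by linarith [X.b, X.p0])).1 (mo_v x) le_rfl le_rfl
  · intro ρ a B hρ hd i h1 h2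
    fin_cases i
    · exact absurd h1 (by norm_num)
    · exact absurd h1 (by norm_num)
    · exact absurd h1 (by norm_num)
    · exact absurd h1 (by norm_num)
    · exact absurd h1 (by norm_num)
    · exact corW_cert (G1 := gB1q2) (G2 := gB3q0) (Ga := gB5q2) (Gb := gB6q2) (D1 := dB1q2) (D2 := dB3q0) (Da := dB5q2) (Db := dB6q2) cA202R_ok B hρ hen (gatB12 x) (gatB30 x) (fun h => absurd h (by decide)) (fun _ => gatB62 x) (datB12 x) (datB30 x) (fun h => absurd h (by decide)) (fun _ => datB62 x) hd hx hx' CW.A202R_135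
  · intro ρ a B hρ hd i h1 h2
    fin_cases i
    · exact absurd h1 (by norm_num)
    · exact absurd h1 (by norm_num)
    · exact absurd h1 (by norm_num)
    · exact absurd h1 (by norm_num)
    · exact absurd h1 (by norm_num)
    · exact corT_cert (G1 := gB1q2) (G2 := gB3q0) (Ga := gB5q2) (Gb := gB6q2) cA202R_ok B hρ (gatB12 x) (gatB30 x) (fun h => absurd h (by decide)) (fun _ => gatB62 x) hd hx hx' CG.A202R_135

theorem altB_A202R_22 {κ x : ℝ} (hκ : κ * h0 = ken x) (hx : ((536870912 : ℕ) : ℝ) / S ≤ x) (hx' : x ≤ (((536870912 : ℕ) : ℝ) + (50465866 : ℕ)) / S) :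
    AltEA 3 κ (eng.v x) (3 / 40) (tnt (h0 * x) (3 / 10)) PP tK tL tC pcB (scP esg pd) [⟨0, 1, 0, 67108864⟩, ⟨1, 0, 0, 67108864⟩, ⟨2, 1, 0, 67108864⟩] 2 0 2 2 2 (sgb false) (sgb false) x := by
  have X : XR 67108864 x := XR.of hx hx' (by norm_num) (by norm_num) (by norm_num) (by norm_num)
  have hen : 0 < eng.v x := en_pos X.x0.le
  refine CornW.altA (C := cA202R) (j := (2 : Fin 7)) (k := (2 : Fin 7)) (Ef := esg) (pd := pd) (o := 3 / 40)
    (cornW_of (C := cA202R) (C0 := c0B) (En := eng) (mo := mog) (j := (2 : Fin 7)) (k := (2 : Fin 7)) (lo := 6) (hi := 6) (W := 67108864) (N0 := 3) cA202R_q (sideB hx hx') gokB (pinU hx hx') dokB X (by norm_num) (by norm_num) (l := (6 : Fin 7)) rfl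
      (gatB22 x) (gatB20 x) (gatB62 x) (datB22 x) (datB20 x) (datB62 x) ?_)
    (cornS_of (C := cA202R) (C0 := c0B) (j := (2 : Fin 7)) (k := (2 : Fin 7)) (lo := 6) (hi := 6) (W := 67108864) (N0 := 3) cA202R_q (sideB hx hx') gokB X (by norm_num) (by norm_num) (l := (6 : Fin 7)) rfl
      (gatB22 x) (gatB20 x) (gatB62 x) ?_)
    (thU (pinU hx hx')) rfl hκ (fun j q y => tC_eq j q y x) (esg_rng X.x0.le (by linarith [X.b, X.p0])).1 (mo_v x) le_rfl le_rfl
  · intro ρ a B hρ hd i h1 h2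
    fin_cases i
    · exact absurd h1 (by norm_num)
    · exact absurd h1 (by norm_num)
    · exact absurd h1 (by norm_num)
    · exact absurd h1 (by norm_num)
    · exact absurd h1 (by norm_num)
    · exact corW_cert (G1 := gB2q2) (G2 := gB2q0) (Ga := gB5q2) (Gb := gB6q2) (D1 := dB2q2) (D2 := dB2q0) (Da := dB5q2) (Db := dB6q2) cA202R_ok B hρ hen (gatB22 x) (gatB20 x) (fun h => absurd h (by decide)) (fun _ => gatB62 x) (datB22 x) (datB20 x) (fun h => absurd h (by decide)) (fun _ => datB62 x) hd hx hx' CW.A202R_225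
  · intro ρ a B hρ hd i h1 h2
    fin_cases i
    · exact absurd h1 (by norm_num)
    · exact absurd h1 (by norm_num)
    · exact absurd h1 (by norm_num)
    · exact absurd h1 (by norm_num)
    · exact absurd h1 (by norm_num)
    · exact corT_cert (G1 := gB2q2) (G2 := gB2q0) (Ga := gB5q2) (Gb := gB6q2) cA202R_ok B hρ (gatB22 x) (gatB20 x) (fun h => absurd h (by decide)) (fun _ => gatB62 x) hd hx hx' CG.A202R_225

theorem altB_A202R_23 {κ x : ℝ} (hκ : κ * h0 = ken x) (hx : ((536870912 : ℕ) : ℝ) / S ≤ x) (hx' : x ≤ (((536870912 : ℕ) : ℝ) + (50465866 : ℕ)) / S) :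
    AltEA 3 κ (eng.v x) (3 / 40) (tnt (h0 * x) (3 / 10)) PP tK tL tC pcB (scP esg pd) [⟨0, 1, 0, 67108864⟩, ⟨1, 0, 0, 67108864⟩, ⟨2, 1, 0, 67108864⟩] 2 0 2 2 3 (sgb false) (sgb false) x := by
  have X : XR 67108864 x := XR.of hx hx' (by norm_num) (by norm_num) (by norm_num) (by norm_num)
  have hen : 0 < eng.v x := en_pos X.x0.le
  refine CornW.altA (C := cA202R) (j := (2 : Fin 7)) (k := (3 : Fin 7)) (Ef := esg) (pd := pd) (o := 3 / 40)
    (cornW_of (C := cA202R) (C0 := c0B) (En := eng) (mo := mog) (j := (2 : Fin 7)) (k := (3 : Fin 7)) (lo := 6) (hi := 6) (W := 67108864) (N0 := 3) cA202R_q (sideB hx hx') gokB (pinU hx hx') dokB X (by norm_num) (by norm_num) (l := (6 : Fin 7)) rfl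
      (gatB22 x) (gatB30 x) (gatB62 x) (datB22 x) (datB30 x) (datB62 x) ?_)
    (cornS_of (C := cA202R) (C0 := c0B) (j := (2 : Fin 7)) (k := (3 : Fin 7)) (lo := 6) (hi := 6) (W := 67108864) (N0 := 3) cA202R_q (sideB hx hx') gokB X (by norm_num) (by norm_num) (l := (6 : Fin 7)) rfl
      (gatB22 x) (gatB30 x) (gatB62 x) ?_)
    (thU (pinU hx hx')) rfl hκ (fun j q y => tC_eq j q y x) (esg_rng X.x0.le (by linarith [X.b, X.p0])).1 (mo_v x) le_rfl le_rfl
  · intro ρ a B hρ hd i h1 h2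
    fin_cases i
    · exact absurd h1 (by norm_num)
    · exact absurd h1 (by norm_num)
    · exact absurd h1 (by norm_num)
    · exact absurd h1 (by norm_num)
    · exact absurd h1 (by norm_num)
    · exact corW_cert (G1 := gB2q2) (G2 := gB3q0) (Ga := gB5q2) (Gb := gB6q2) (D1 := dB2q2) (D2 := dB3q0) (Da := dB5q2) (Db := dB6q2) cA202R_ok B hρ hen (gatB22 x) (gatB30 x) (fun h => absurd h (by decide)) (fun _ => gatB62 x) (datB22 x) (datB30 x) (fun h => absurd h (by decide)) (fun _ => datB62 x) hd hx hx' CW.A202R_235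
  · intro ρ a B hρ hd i h1 h2
    fin_cases i
    · exact absurd h1 (by norm_num)
    · exact absurd h1 (by norm_num)
    · exact absurd h1 (by norm_num)
    · exact absurd h1 (by norm_num)
    · exact absurd h1 (by norm_num)
    · exact corT_cert (G1 := gB2q2) (G2 := gB3q0) (Ga := gB5q2) (Gb := gB6q2) cA202R_ok B hρ (gatB22 x) (gatB30 x) (fun h => absurd h (by decide)) (fun _ => gatB62 x) hd hx hx' CG.A202R_235

theorem altB_A202R_33 {κ x : ℝ} (hκ : κ * h0 = ken x) (hx : ((536870912 : ℕ) : ℝ) / S ≤ x) (hx' : x ≤ (((536870912 : ℕ) : ℝ) + (50465866 : ℕ)) / S) :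
    AltEA 3 κ (eng.v x) (3 / 40) (tnt (h0 * x) (3 / 10)) PP tK tL tC pcB (scP esg pd) [⟨0, 1, 0, 67108864⟩, ⟨1, 0, 0, 67108864⟩, ⟨2, 1, 0, 67108864⟩] 2 0 2 3 3 (sgb false) (sgb false) x := by
  have X : XR 67108864 x := XR.of hx hx' (by norm_num) (by norm_num) (by norm_num) (by norm_num)
  have hen : 0 < eng.v x := en_pos X.x0.le
  refine CornW.altA (C := cA202R) (j := (3 : Fin 7)) (k := (3 : Fin 7)) (Ef := esg) (pd := pd) (o := 3 / 40)
    (cornW_of (C := cA202R) (C0 := c0B) (En := eng) (mo := mog) (j := (3 : Fin 7)) (k := (3 : Fin 7)) (lo := 6) (hi := 6) (W := 67108864) (N0 := 3) cA202R_q (sideB hx hx') gokB (pinU hx hx') dokB X (by norm_num) (by norm_num) (l := (6 : Fin 7)) rfl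
      (gatB32 x) (gatB30 x) (gatB62 x) (datB32 x) (datB30 x) (datB62 x) ?_)
    (cornS_of (C := cA202R) (C0 := c0B) (j := (3 : Fin 7)) (k := (3 : Fin 7)) (lo := 6) (hi := 6) (W := 67108864) (N0 := 3) cA202R_q (sideB hx hx') gokB X (by norm_num) (by norm_num) (l := (6 : Fin 7)) rfl
      (gatB32 x) (gatB30 x) (gatB62 x) ?_)
    (thU (pinU hx hx')) rfl hκ (fun j q y => tC_eq j q y x) (esg_rng X.x0.le (by linarith [X.b, X.p0])).1 (mo_v x) le_rfl le_rfl
  · intro ρ a B hρ hd i h1 h2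
    fin_cases i
    · exact absurd h1 (by norm_num)
    · exact absurd h1 (by norm_num)
    · exact absurd h1 (by norm_num)
    · exact absurd h1 (by norm_num)
    · exact absurd h1 (by norm_num)
    · exact corW_cert (G1 := gB3q2) (G2 := gB3q0) (Ga := gB5q2) (Gb := gB6q2) (D1 := dB3q2) (D2 := dB3q0) (Da := dB5q2) (Db := dB6q2) cA202R_ok B hρ hen (gatB32 x) (gatB30 x) (fun h => absurd h (by decide)) (fun _ => gatB62 x) (datB32 x) (datB30 x) (fun h => absurd h (by decide)) (fun _ => datB62 x) hd hx hx' CW.A202R_335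
  · intro ρ a B hρ hd i h1 h2
    fin_cases i
    · exact absurd h1 (by norm_num)
    · exact absurd h1 (by norm_num)
    · exact absurd h1 (by norm_num)
    · exact absurd h1 (by norm_num)
    · exact absurd h1 (by norm_num)
    · exact corT_cert (G1 := gB3q2) (G2 := gB3q0) (Ga := gB5q2) (Gb := gB6q2) cA202R_ok B hρ (gatB32 x) (gatB30 x) (fun h => absurd h (by decide)) (fun _ => gatB62 x) hd hx hx' CG.A202R_335

theorem altB_B011E_00 {κ x : ℝ} (hκ : κ * h0 = ken x) (hx : ((536870912 : ℕ) : ℝ) / S ≤ x) (hx' : x ≤ (((536870912 : ℕ) : ℝ) + (50465866 : ℕ)) / S) :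
    AltEB 3 κ (eng.v x) (3 / 40) (tnt (h0 * x) (3 / 10)) PP tK tL tC pcB (scP esg pd) [⟨0, 0, 0, 67108864⟩, ⟨1, 1, 0, 67108864⟩, ⟨2, 1, 0, 67108864⟩] 0 1 1 0 0 (sgb true) (sgb true) x := by
  have X : XR 67108864 x := XR.of hx hx' (by norm_num) (by norm_num) (by norm_num) (by norm_num)
  have hen : 0 < eng.v x := en_pos X.x0.le
  refine CornW.altB (C := cB011E) (j := (0 : Fin 7)) (k := (0 : Fin 7)) (Ef := esg) (pd := pd) (o := 3 / 40)
    (cornW_of (C := cB011E) (C0 := c0B) (En := eng) (mo := mog) (j := (0 : Fin 7)) (k := (0 : Fin 7)) (lo := 0) (hi := 0) (W := 67108864) (N0 := 3) cB011E_q (sideB hx hx') gokB (pinU hx hx') dokB X (by norm_num) (by norm_num) (l := (0 : Fin 7)) rfl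
      (gatB00 x) (gatB01 x) (gatB01 x) (datB00 x) (datB01 x) (datB01 x) ?_)
    (cornS_of (C := cB011E) (C0 := c0B) (j := (0 : Fin 7)) (k := (0 : Fin 7)) (lo := 0) (hi := 0) (W := 67108864) (N0 := 3) cB011E_q (sideB hx hx') gokB X (by norm_num) (by norm_num) (l := (0 : Fin 7)) rfl
      (gatB00 x) (gatB01 x) (gatB01 x) ?_)
    (thU (pinU hx hx')) rfl hκ (fun j q y => tC_eq j q y x) (esg_rng X.x0.le (by linarith [X.b, X.p0])).1 (mo_v x) le_rfl le_rfl
  · intro ρ a B hρ hd i h1 h2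
    fin_cases i
    · exact corW_cert (G1 := gB0q0) (G2 := gB0q1) (Ga := gB0q1) (Gb := gB1q1) (D1 := dB0q0) (D2 := dB0q1) (Da := dB0q1) (Db := dB1q1) cB011E_ok B hρ hen (gatB00 x) (gatB01 x) (fun _ => gatB01 x) (fun h => absurd h (by decide)) (datB00 x) (datB01 x) (fun _ => datB01 x) (fun h => absurd h (by decide)) hd hx hx' CW.B011E_000
    · exact absurd h2 (by norm_num)
    · exact absurd h2 (by norm_num)
    · exact absurd h2 (by norm_num)
    · exact absurd h2 (by norm_num)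
    · exact absurd h2 (by norm_num)
  · intro ρ a B hρ hd i h1 h2
    fin_cases i
    · exact corT_cert (G1 := gB0q0) (G2 := gB0q1) (Ga := gB0q1) (Gb := gB1q1) cB011E_ok B hρ (gatB00 x) (gatB01 x) (fun _ => gatB01 x) (fun h => absurd h (by decide)) hd hx hx' CG.B011E_000
    · exact absurd h2 (by norm_num)
    · exact absurd h2 (by norm_num)
    · exact absurd h2 (by norm_num)
    · exact absurd h2 (by norm_num)
    · exact absurd h2 (by norm_num)

theorem altB_B011E_10 {κ x : ℝ} (hκ : κ * h0 = ken x) (hx : ((536870912 : ℕ) : ℝ) / S ≤ x) (hx' : x ≤ (((536870912 : ℕ) : ℝ) + (50465866 : ℕ)) / S) :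
    AltEB 3 κ (eng.v x) (3 / 40) (tnt (h0 * x) (3 / 10)) PP tK tL tC pcB (scP esg pd) [⟨0, 0, 0, 67108864⟩, ⟨1, 1, 0, 67108864⟩, ⟨2, 1, 0, 67108864⟩] 0 1 1 1 0 (sgb true) (sgb true) x := by
  have X : XR 67108864 x := XR.of hx hx' (by norm_num) (by norm_num) (by norm_num) (by norm_num)
  have hen : 0 < eng.v x := en_pos X.x0.le
  refine CornW.altB (C := cB011E) (j := (1 : Fin 7)) (k := (0 : Fin 7)) (Ef := esg) (pd := pd) (o := 3 / 40)
    (cornW_of (C := cB011E) (C0 := c0B) (En := eng) (mo := mog) (j := (1 : Fin 7)) (k := (0 : Fin 7)) (lo := 0) (hi := 0) (W := 67108864) (N0 := 3) cB011E_q (sideB hx hx') gokB (pinU hx hx') dokB X (by norm_num) (by norm_num) (l := (0 : Fin 7)) rfl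
      (gatB10 x) (gatB01 x) (gatB01 x) (datB10 x) (datB01 x) (datB01 x) ?_)
    (cornS_of (C := cB011E) (C0 := c0B) (j := (1 : Fin 7)) (k := (0 : Fin 7)) (lo := 0) (hi := 0) (W := 67108864) (N0 := 3) cB011E_q (sideB hx hx') gokB X (by norm_num) (by norm_num) (l := (0 : Fin 7)) rfl
      (gatB10 x) (gatB01 x) (gatB01 x) ?_)
    (thU (pinU hx hx')) rfl hκ (fun j q y => tC_eq j q y x) (esg_rng X.x0.le (by linarith [X.b, X.p0])).1 (mo_v x) le_rfl le_rfl
  · intro ρ a B hρ hd i h1 h2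
    fin_cases i
    · exact corW_cert (G1 := gB1q0) (G2 := gB0q1) (Ga := gB0q1) (Gb := gB1q1) (D1 := dB1q0) (D2 := dB0q1) (Da := dB0q1) (Db := dB1q1) cB011E_ok B hρ hen (gatB10 x) (gatB01 x) (fun _ => gatB01 x) (fun h => absurd h (by decide)) (datB10 x) (datB01 x) (fun _ => datB01 x) (fun h => absurd h (by decide)) hd hx hx' CW.B011E_100
    · exact absurd h2 (by norm_num)
    · exact absurd h2 (by norm_num)
    · exact absurd h2 (by norm_num)
    · exact absurd h2 (by norm_num)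
    · exact absurd h2 (by norm_num)
  · intro ρ a B hρ hd i h1 h2
    fin_cases i
    · exact corT_cert (G1 := gB1q0) (G2 := gB0q1) (Ga := gB0q1) (Gb := gB1q1) cB011E_ok B hρ (gatB10 x) (gatB01 x) (fun _ => gatB01 x) (fun h => absurd h (by decide)) hd hx hx' CG.B011E_100
    · exact absurd h2 (by norm_num)
    · exact absurd h2 (by norm_num)
    · exact absurd h2 (by norm_num)
    · exact absurd h2 (by norm_num)
    · exact absurd h2 (by norm_num)

theorem altB_B011E_20 {κ x : ℝ} (hκ : κ * h0 = ken x) (hx : ((536870912 : ℕ) : ℝ) / S ≤ x) (hx' : x ≤ (((536870912 : ℕ) : ℝ) + (50465866 : ℕ)) / S) :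
    AltEB 3 κ (eng.v x) (3 / 40) (tnt (h0 * x) (3 / 10)) PP tK tL tC pcB (scP esg pd) [⟨0, 0, 0, 67108864⟩, ⟨1, 1, 0, 67108864⟩, ⟨2, 1, 0, 67108864⟩] 0 1 1 2 0 (sgb true) (sgb true) x := by
  have X : XR 67108864 x := XR.of hx hx' (by norm_num) (by norm_num) (by norm_num) (by norm_num)
  have hen : 0 < eng.v x := en_pos X.x0.le
  refine CornW.altB (C := cB011E) (j := (2 : Fin 7)) (k := (0 : Fin 7)) (Ef := esg) (pd := pd) (o := 3 / 40)
    (cornW_of (C := cB011E) (C0 := c0B) (En := eng) (mo := mog) (j := (2 : Fin 7)) (k := (0 : Fin 7)) (lo := 0) (hi := 0) (W := 67108864) (N0 := 3) cB011E_q (sideB hx hx') gokB (pinU hx hx') dokB X (by norm_num) (by norm_num) (l := (0 : Fin 7)) rfl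
      (gatB20 x) (gatB01 x) (gatB01 x) (datB20 x) (datB01 x) (datB01 x) ?_)
    (cornS_of (C := cB011E) (C0 := c0B) (j := (2 : Fin 7)) (k := (0 : Fin 7)) (lo := 0) (hi := 0) (W := 67108864) (N0 := 3) cB011E_q (sideB hx hx') gokB X (by norm_num) (by norm_num) (l := (0 : Fin 7)) rfl
      (gatB20 x) (gatB01 x) (gatB01 x) ?_)
    (thU (pinU hx hx')) rfl hκ (fun j q y => tC_eq j q y x) (esg_rng X.x0.le (by linarith [X.b, X.p0])).1 (mo_v x) le_rfl le_rfl
  · intro ρ a B hρ hd i h1 h2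
    fin_cases i
    · exact corW_cert (G1 := gB2q0) (G2 := gB0q1) (Ga := gB0q1) (Gb := gB1q1) (D1 := dB2q0) (D2 := dB0q1) (Da := dB0q1) (Db := dB1q1) cB011E_ok B hρ hen (gatB20 x) (gatB01 x) (fun _ => gatB01 x) (fun h => absurd h (by decide)) (datB20 x) (datB01 x) (fun _ => datB01 x) (fun h => absurd h (by decide)) hd hx hx' CW.B011E_200
    · exact absurd h2 (by norm_num)
    · exact absurd h2 (by norm_num)
    · exact absurd h2 (by norm_num)
    · exact absurd h2 (by norm_num)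
    · exact absurd h2 (by norm_num)
  · intro ρ a B hρ hd i h1 h2
    fin_cases i
    · exact corT_cert (G1 := gB2q0) (G2 := gB0q1) (Ga := gB0q1) (Gb := gB1q1) cB011E_ok B hρ (gatB20 x) (gatB01 x) (fun _ => gatB01 x) (fun h => absurd h (by decide)) hd hx hx' CG.B011E_200
    · exact absurd h2 (by norm_num)
    · exact absurd h2 (by norm_num)
    · exact absurd h2 (by norm_num)
    · exact absurd h2 (by norm_num)
    · exact absurd h2 (by norm_num)

theorem altB_B011E_30 {κ x : ℝ} (hκ : κ * h0 = ken x) (hx : ((536870912 : ℕ) : ℝ) / S ≤ x) (hx' : x ≤ (((536870912 : ℕ) : ℝ) + (50465866 : ℕ)) / S) :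
    AltEB 3 κ (eng.v x) (3 / 40) (tnt (h0 * x) (3 / 10)) PP tK tL tC pcB (scP esg pd) [⟨0, 0, 0, 67108864⟩, ⟨1, 1, 0, 67108864⟩, ⟨2, 1, 0, 67108864⟩] 0 1 1 3 0 (sgb true) (sgb true) x := by
  have X : XR 67108864 x := XR.of hx hx' (by norm_num) (by norm_num) (by norm_num) (by norm_num)
  have hen : 0 < eng.v x := en_pos X.x0.le
  refine CornW.altB (C := cB011E) (j := (3 : Fin 7)) (k := (0 : Fin 7)) (Ef := esg) (pd := pd) (o := 3 / 40)
    (cornW_of (C := cB011E) (C0 := c0B) (En := eng) (mo := mog) (j := (3 : Fin 7)) (k := (0 : Fin 7)) (lo := 0) (hi := 0) (W := 67108864) (N0 := 3) cB011E_q (sideB hx hx') gokB (pinU hx hx') dokB X (by norm_num) (by norm_num) (l := (0 : Fin 7)) rfl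
      (gatB30 x) (gatB01 x) (gatB01 x) (datB30 x) (datB01 x) (datB01 x) ?_)
    (cornS_of (C := cB011E) (C0 := c0B) (j := (3 : Fin 7)) (k := (0 : Fin 7)) (lo := 0) (hi := 0) (W := 67108864) (N0 := 3) cB011E_q (sideB hx hx') gokB X (by norm_num) (by norm_num) (l := (0 : Fin 7)) rfl
      (gatB30 x) (gatB01 x) (gatB01 x) ?_)
    (thU (pinU hx hx')) rfl hκ (fun j q y => tC_eq j q y x) (esg_rng X.x0.le (by linarith [X.b, X.p0])).1 (mo_v x) le_rfl le_rfl
  · intro ρ a B hρ hd i h1 h2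
    fin_cases i
    · exact corW_cert (G1 := gB3q0) (G2 := gB0q1) (Ga := gB0q1) (Gb := gB1q1) (D1 := dB3q0) (D2 := dB0q1) (Da := dB0q1) (Db := dB1q1) cB011E_ok B hρ hen (gatB30 x) (gatB01 x) (fun _ => gatB01 x) (fun h => absurd h (by decide)) (datB30 x) (datB01 x) (fun _ => datB01 x) (fun h => absurd h (by decide)) hd hx hx' CW.B011E_300
    · exact absurd h2 (by norm_num)
    · exact absurd h2 (by norm_num)
    · exact absurd h2 (by norm_num)
    · exact absurd h2 (by norm_num)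
    · exact absurd h2 (by norm_num)
  · intro ρ a B hρ hd i h1 h2
    fin_cases i
    · exact corT_cert (G1 := gB3q0) (G2 := gB0q1) (Ga := gB0q1) (Gb := gB1q1) cB011E_ok B hρ (gatB30 x) (gatB01 x) (fun _ => gatB01 x) (fun h => absurd h (by decide)) hd hx hx' CG.B011E_300
    · exact absurd h2 (by norm_num)
    · exact absurd h2 (by norm_num)
    · exact absurd h2 (by norm_num)
    · exact absurd h2 (by norm_num)
    · exact absurd h2 (by norm_num)

theorem altB_B011L_04 {κ x : ℝ} (hκ : κ * h0 = ken x) (hx : ((536870912 : ℕ) : ℝ) / S ≤ x) (hx' : x ≤ (((536870912 : ℕ) : ℝ) + (50465866 : ℕ)) / S) :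
    AltEB 3 κ (eng.v x) (3 / 40) (tnt (h0 * x) (3 / 10)) PP tK tL tC pcB (scP esg pd) [⟨0, 0, 0, 67108864⟩, ⟨1, 1, 0, 67108864⟩, ⟨2, 1, 0, 67108864⟩] 0 1 1 0 4 (sgb true) (sgb true) x := by
  have X : XR 67108864 x := XR.of hx hx' (by norm_num) (by norm_num) (by norm_num) (by norm_num)
  have hen : 0 < eng.v x := en_pos X.x0.le
  refine CornW.altB (C := cB011L) (j := (0 : Fin 7)) (k := (4 : Fin 7)) (Ef := esg) (pd := pd) (o := 3 / 40)
    (cornW_of (C := cB011L) (C0 := c0B) (En := eng) (mo := mog) (j := (0 : Fin 7)) (k := (4 : Fin 7)) (lo := 0) (hi := 0) (W := 67108864) (N0 := 3) cB011L_q (sideB hx hx') gokB (pinU hx hx') dokB X (by norm_num) (by norm_num) (l := (0 : Fin 7)) rfl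
      (gatB00 x) (gatB41 x) (gatB01 x) (datB00 x) (datB41 x) (datB01 x) ?_)
    (cornS_of (C := cB011L) (C0 := c0B) (j := (0 : Fin 7)) (k := (4 : Fin 7)) (lo := 0) (hi := 0) (W := 67108864) (N0 := 3) cB011L_q (sideB hx hx') gokB X (by norm_num) (by norm_num) (l := (0 : Fin 7)) rfl
      (gatB00 x) (gatB41 x) (gatB01 x) ?_)
    (thU (pinU hx hx')) rfl hκ (fun j q y => tC_eq j q y x) (esg_rng X.x0.le (by linarith [X.b, X.p0])).1 (mo_v x) le_rfl le_rfl
  · intro ρ a B hρ hd i h1 h2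
    fin_cases i
    · exact corW_cert (G1 := gB0q0) (G2 := gB4q1) (Ga := gB0q1) (Gb := gB1q1) (D1 := dB0q0) (D2 := dB4q1) (Da := dB0q1) (Db := dB1q1) cB011L_ok B hρ hen (gatB00 x) (gatB41 x) (fun _ => gatB01 x) (fun h => absurd h (by decide)) (datB00 x) (datB41 x) (fun _ => datB01 x) (fun h => absurd h (by decide)) hd hx hx' CW.B011L_040
    · exact absurd h2 (by norm_num)
    · exact absurd h2 (by norm_num)
    · exact absurd h2 (by norm_num)
    · exact absurd h2 (by norm_num)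
    · exact absurd h2 (by norm_num)
  · intro ρ a B hρ hd i h1 h2
    fin_cases i
    · exact corT_cert (G1 := gB0q0) (G2 := gB4q1) (Ga := gB0q1) (Gb := gB1q1) cB011L_ok B hρ (gatB00 x) (gatB41 x) (fun _ => gatB01 x) (fun h => absurd h (by decide)) hd hx hx' CG.B011L_040
    · exact absurd h2 (by norm_num)
    · exact absurd h2 (by norm_num)
    · exact absurd h2 (by norm_num)
    · exact absurd h2 (by norm_num)
    · exact absurd h2 (by norm_num)

theorem altB_B011L_05 {κ x : ℝ} (hκ : κ * h0 = ken x) (hx : ((536870912 : ℕ) : ℝ) / S ≤ x) (hx' : x ≤ (((536870912 : ℕ) : ℝ) + (50465866 : ℕ)) / S) :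
    AltEB 3 κ (eng.v x) (3 / 40) (tnt (h0 * x) (3 / 10)) PP tK tL tC pcB (scP esg pd) [⟨0, 0, 0, 67108864⟩, ⟨1, 1, 0, 67108864⟩, ⟨2, 1, 0, 67108864⟩] 0 1 1 0 5 (sgb true) (sgb true) x := by
  have X : XR 67108864 x := XR.of hx hx' (by norm_num) (by norm_num) (by norm_num) (by norm_num)
  have hen : 0 < eng.v x := en_pos X.x0.le
  refine CornW.altB (C := cB011L) (j := (0 : Fin 7)) (k := (5 : Fin 7)) (Ef := esg) (pd := pd) (o := 3 / 40)
    (cornW_of (C := cB011L) (C0 := c0B) (En := eng) (mo := mog) (j := (0 : Fin 7)) (k := (5 : Fin 7)) (lo := 0) (hi := 0) (W := 67108864) (N0 := 3) cB011L_q (sideB hx hx') gokB (pinU hx hx') dokB X (by norm_num) (by norm_num) (l := (0 : Fin 7)) rfl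
      (gatB00 x) (gatB51 x) (gatB01 x) (datB00 x) (datB51 x) (datB01 x) ?_)
    (cornS_of (C := cB011L) (C0 := c0B) (j := (0 : Fin 7)) (k := (5 : Fin 7)) (lo := 0) (hi := 0) (W := 67108864) (N0 := 3) cB011L_q (sideB hx hx') gokB X (by norm_num) (by norm_num) (l := (0 : Fin 7)) rfl
      (gatB00 x) (gatB51 x) (gatB01 x) ?_)
    (thU (pinU hx hx')) rfl hκ (fun j q y => tC_eq j q y x) (esg_rng X.x0.le (by linarith [X.b, X.p0])).1 (mo_v x) le_rfl le_rfl
  · intro ρ a B hρ hd i h1 h2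
    fin_cases i
    · exact corW_cert (G1 := gB0q0) (G2 := gB5q1) (Ga := gB0q1) (Gb := gB1q1) (D1 := dB0q0) (D2 := dB5q1) (Da := dB0q1) (Db := dB1q1) cB011L_ok B hρ hen (gatB00 x) (gatB51 x) (fun _ => gatB01 x) (fun h => absurd h (by decide)) (datB00 x) (datB51 x) (fun _ => datB01 x) (fun h => absurd h (by decide)) hd hx hx' CW.B011L_050
    · exact absurd h2 (by norm_num)
    · exact absurd h2 (by norm_num)
    · exact absurd h2 (by norm_num)
    · exact absurd h2 (by norm_num)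
    · exact absurd h2 (by norm_num)
  · intro ρ a B hρ hd i h1 h2
    fin_cases i
    · exact corT_cert (G1 := gB0q0) (G2 := gB5q1) (Ga := gB0q1) (Gb := gB1q1) cB011L_ok B hρ (gatB00 x) (gatB51 x) (fun _ => gatB01 x) (fun h => absurd h (by decide)) hd hx hx' CG.B011L_050
    · exact absurd h2 (by norm_num)
    · exact absurd h2 (by norm_num)
    · exact absurd h2 (by norm_num)
    · exact absurd h2 (by norm_num)
    · exact absurd h2 (by norm_num)

theorem altB_B011L_06 {κ x : ℝ} (hκ : κ * h0 = ken x) (hx : ((536870912 : ℕ) : ℝ) / S ≤ x) (hx' : x ≤ (((536870912 : ℕ) : ℝ) + (50465866 : ℕ)) / S) :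
    AltEB 3 κ (eng.v x) (3 / 40) (tnt (h0 * x) (3 / 10)) PP tK tL tC pcB (scP esg pd) [⟨0, 0, 0, 67108864⟩, ⟨1, 1, 0, 67108864⟩, ⟨2, 1, 0, 67108864⟩] 0 1 1 0 6 (sgb true) (sgb true) x := by
  have X : XR 67108864 x := XR.of hx hx' (by norm_num) (by norm_num) (by norm_num) (by norm_num)
  have hen : 0 < eng.v x := en_pos X.x0.le
  refine CornW.altB (C := cB011L) (j := (0 : Fin 7)) (k := (6 : Fin 7)) (Ef := esg) (pd := pd) (o := 3 / 40)
    (cornW_of (C := cB011L) (C0 := c0B) (En := eng) (mo := mog) (j := (0 : Fin 7)) (k := (6 : Fin 7)) (lo := 0) (hi := 0) (W := 67108864) (N0 := 3) cB011L_q (sideB hx hx') gokB (pinU hx hx') dokB X (by norm_num) (by norm_num) (l := (0 : Fin 7)) rfl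
      (gatB00 x) (gatB61 x) (gatB01 x) (datB00 x) (datB61 x) (datB01 x) ?_)
    (cornS_of (C := cB011L) (C0 := c0B) (j := (0 : Fin 7)) (k := (6 : Fin 7)) (lo := 0) (hi := 0) (W := 67108864) (N0 := 3) cB011L_q (sideB hx hx') gokB X (by norm_num) (by norm_num) (l := (0 : Fin 7)) rfl
      (gatB00 x) (gatB61 x) (gatB01 x) ?_)
    (thU (pinU hx hx')) rfl hκ (fun j q y => tC_eq j q y x) (esg_rng X.x0.le (by linarith [X.b, X.p0])).1 (mo_v x) le_rfl le_rfl
  · intro ρ a B hρ hd i h1 h2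
    fin_cases i
    · exact corW_cert (G1 := gB0q0) (G2 := gB6q1) (Ga := gB0q1) (Gb := gB1q1) (D1 := dB0q0) (D2 := dB6q1) (Da := dB0q1) (Db := dB1q1) cB011L_ok B hρ hen (gatB00 x) (gatB61 x) (fun _ => gatB01 x) (fun h => absurd h (by decide)) (datB00 x) (datB61 x) (fun _ => datB01 x) (fun h => absurd h (by decide)) hd hx hx' CW.B011L_060
    · exact absurd h2 (by norm_num)
    · exact absurd h2 (by norm_num)
    · exact absurd h2 (by norm_num)
    · exact absurd h2 (by norm_num)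
    · exact absurd h2 (by norm_num)
  · intro ρ a B hρ hd i h1 h2
    fin_cases i
    · exact corT_cert (G1 := gB0q0) (G2 := gB6q1) (Ga := gB0q1) (Gb := gB1q1) cB011L_ok B hρ (gatB00 x) (gatB61 x) (fun _ => gatB01 x) (fun h => absurd h (by decide)) hd hx hx' CG.B011L_060
    · exact absurd h2 (by norm_num)
    · exact absurd h2 (by norm_num)
    · exact absurd h2 (by norm_num)
    · exact absurd h2 (by norm_num)
    · exact absurd h2 (by norm_num)

theorem altB_B011L_14 {κ x : ℝ} (hκ : κ * h0 = ken x) (hx : ((536870912 : ℕ) : ℝ) / S ≤ x) (hx' : x ≤ (((536870912 : ℕ) : ℝ) + (50465866 : ℕ)) / S) :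
    AltEB 3 κ (eng.v x) (3 / 40) (tnt (h0 * x) (3 / 10)) PP tK tL tC pcB (scP esg pd) [⟨0, 0, 0, 67108864⟩, ⟨1, 1, 0, 67108864⟩, ⟨2, 1, 0, 67108864⟩] 0 1 1 1 4 (sgb true) (sgb true) x := by
  have X : XR 67108864 x := XR.of hx hx' (by norm_num) (by norm_num) (by norm_num) (by norm_num)
  have hen : 0 < eng.v x := en_pos X.x0.le
  refine CornW.altB (C := cB011L) (j := (1 : Fin 7)) (k := (4 : Fin 7)) (Ef := esg) (pd := pd) (o := 3 / 40)
    (cornW_of (C := cB011L) (C0 := c0B) (En := eng) (mo := mog) (j := (1 : Fin 7)) (k := (4 : Fin 7)) (lo := 0) (hi := 0) (W := 67108864) (N0 := 3) cB011L_q (sideB hx hx') gokB (pinU hx hx') dokB X (by norm_num) (by norm_num) (l := (0 : Fin 7)) rfl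
      (gatB10 x) (gatB41 x) (gatB01 x) (datB10 x) (datB41 x) (datB01 x) ?_)
    (cornS_of (C := cB011L) (C0 := c0B) (j := (1 : Fin 7)) (k := (4 : Fin 7)) (lo := 0) (hi := 0) (W := 67108864) (N0 := 3) cB011L_q (sideB hx hx') gokB X (by norm_num) (by norm_num) (l := (0 : Fin 7)) rfl
      (gatB10 x) (gatB41 x) (gatB01 x) ?_)
    (thU (pinU hx hx')) rfl hκ (fun j q y => tC_eq j q y x) (esg_rng X.x0.le (by linarith [X.b, X.p0])).1 (mo_v x) le_rfl le_rfl
  · intro ρ a B hρ hd i h1 h2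
    fin_cases i
    · exact corW_cert (G1 := gB1q0) (G2 := gB4q1) (Ga := gB0q1) (Gb := gB1q1) (D1 := dB1q0) (D2 := dB4q1) (Da := dB0q1) (Db := dB1q1) cB011L_ok B hρ hen (gatB10 x) (gatB41 x) (fun _ => gatB01 x) (fun h => absurd h (by decide)) (datB10 x) (datB41 x) (fun _ => datB01 x) (fun h => absurd h (by decide)) hd hx hx' CW.B011L_140
    · exact absurd h2 (by norm_num)
    · exact absurd h2 (by norm_num)
    · exact absurd h2 (by norm_num)
    · exact absurd h2 (by norm_num)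
    · exact absurd h2 (by norm_num)
  · intro ρ a B hρ hd i h1 h2
    fin_cases i
    · exact corT_cert (G1 := gB1q0) (G2 := gB4q1) (Ga := gB0q1) (Gb := gB1q1) cB011L_ok B hρ (gatB10 x) (gatB41 x) (fun _ => gatB01 x) (fun h => absurd h (by decide)) hd hx hx' CG.B011L_140
    · exact absurd h2 (by norm_num)
    · exact absurd h2 (by norm_num)
    · exact absurd h2 (by norm_num)
    · exact absurd h2 (by norm_num)
    · exact absurd h2 (by norm_num)

theorem altB_B011L_15 {κ x : ℝ} (hκ : κ * h0 = ken x) (hx : ((536870912 : ℕ) : ℝ) / S ≤ x) (hx' : x ≤ (((536870912 : ℕ) : ℝ) + (50465866 : ℕ)) / S) :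
    AltEB 3 κ (eng.v x) (3 / 40) (tnt (h0 * x) (3 / 10)) PP tK tL tC pcB (scP esg pd) [⟨0, 0, 0, 67108864⟩, ⟨1, 1, 0, 67108864⟩, ⟨2, 1, 0, 67108864⟩] 0 1 1 1 5 (sgb true) (sgb true) x := by
  have X : XR 67108864 x := XR.of hx hx' (by norm_num) (by norm_num) (by norm_num) (by norm_num)
  have hen : 0 < eng.v x := en_pos X.x0.le
  refine CornW.altB (C := cB011L) (j := (1 : Fin 7)) (k := (5 : Fin 7)) (Ef := esg) (pd := pd) (o := 3 / 40)
    (cornW_of (C := cB011L) (C0 := c0B) (En := eng) (mo := mog) (j := (1 : Fin 7)) (k := (5 : Fin 7)) (lo := 0) (hi := 0) (W := 67108864) (N0 := 3) cB011L_q (sideB hx hx') gokB (pinU hx hx') dokB X (by norm_num) (by norm_num) (l := (0 : Fin 7)) rfl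
      (gatB10 x) (gatB51 x) (gatB01 x) (datB10 x) (datB51 x) (datB01 x) ?_)
    (cornS_of (C := cB011L) (C0 := c0B) (j := (1 : Fin 7)) (k := (5 : Fin 7)) (lo := 0) (hi := 0) (W := 67108864) (N0 := 3) cB011L_q (sideB hx hx') gokB X (by norm_num) (by norm_num) (l := (0 : Fin 7)) rfl
      (gatB10 x) (gatB51 x) (gatB01 x) ?_)
    (thU (pinU hx hx')) rfl hκ (fun j q y => tC_eq j q y x) (esg_rng X.x0.le (by linarith [X.b, X.p0])).1 (mo_v x) le_rfl le_rfl
  · intro ρ a B hρ hd i h1 h2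
    fin_cases i
    · exact corW_cert (G1 := gB1q0) (G2 := gB5q1) (Ga := gB0q1) (Gb := gB1q1) (D1 := dB1q0) (D2 := dB5q1) (Da := dB0q1) (Db := dB1q1) cB011L_ok B hρ hen (gatB10 x) (gatB51 x) (fun _ => gatB01 x) (fun h => absurd h (by decide)) (datB10 x) (datB51 x) (fun _ => datB01 x) (fun h => absurd h (by decide)) hd hx hx' CW.B011L_150
    · exact absurd h2 (by norm_num)
    · exact absurd h2 (by norm_num)
    · exact absurd h2 (by norm_num)
    · exact absurd h2 (by norm_num)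
    · exact absurd h2 (by norm_num)
  · intro ρ a B hρ hd i h1 h2
    fin_cases i
    · exact corT_cert (G1 := gB1q0) (G2 := gB5q1) (Ga := gB0q1) (Gb := gB1q1) cB011L_ok B hρ (gatB10 x) (gatB51 x) (fun _ => gatB01 x) (fun h => absurd h (by decide)) hd hx hx' CG.B011L_150
    · exact absurd h2 (by norm_num)
    · exact absurd h2 (by norm_num)
    · exact absurd h2 (by norm_num)
    · exact absurd h2 (by norm_num)
    · exact absurd h2 (by norm_num)

theorem altB_B011L_16 {κ x : ℝ} (hκ : κ * h0 = ken x) (hx : ((536870912 : ℕ) : ℝ) / S ≤ x) (hx' : x ≤ (((536870912 : ℕ) : ℝ) + (50465866 : ℕ)) / S) :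
    AltEB 3 κ (eng.v x) (3 / 40) (tnt (h0 * x) (3 / 10)) PP tK tL tC pcB (scP esg pd) [⟨0, 0, 0, 67108864⟩, ⟨1, 1, 0, 67108864⟩, ⟨2, 1, 0, 67108864⟩] 0 1 1 1 6 (sgb true) (sgb true) x := by
  have X : XR 67108864 x := XR.of hx hx' (by norm_num) (by norm_num) (by norm_num) (by norm_num)
  have hen : 0 < eng.v x := en_pos X.x0.le
  refine CornW.altB (C := cB011L) (j := (1 : Fin 7)) (k := (6 : Fin 7)) (Ef := esg) (pd := pd) (o := 3 / 40)
    (cornW_of (C := cB011L) (C0 := c0B) (En := eng) (mo := mog) (j := (1 : Fin 7)) (k := (6 : Fin 7)) (lo := 0) (hi := 0) (W := 67108864) (N0 := 3) cB011L_q (sideB hx hx') gokB (pinU hx hx') dokB X (by norm_num) (by norm_num) (l := (0 : Fin 7)) rfl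
      (gatB10 x) (gatB61 x) (gatB01 x) (datB10 x) (datB61 x) (datB01 x) ?_)
    (cornS_of (C := cB011L) (C0 := c0B) (j := (1 : Fin 7)) (k := (6 : Fin 7)) (lo := 0) (hi := 0) (W := 67108864) (N0 := 3) cB011L_q (sideB hx hx') gokB X (by norm_num) (by norm_num) (l := (0 : Fin 7)) rfl
      (gatB10 x) (gatB61 x) (gatB01 x) ?_)
    (thU (pinU hx hx')) rfl hκ (fun j q y => tC_eq j q y x) (esg_rng X.x0.le (by linarith [X.b, X.p0])).1 (mo_v x) le_rfl le_rfl
  · intro ρ a B hρ hd i h1 h2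
    fin_cases i
    · exact corW_cert (G1 := gB1q0) (G2 := gB6q1) (Ga := gB0q1) (Gb := gB1q1) (D1 := dB1q0) (D2 := dB6q1) (Da := dB0q1) (Db := dB1q1) cB011L_ok B hρ hen (gatB10 x) (gatB61 x) (fun _ => gatB01 x) (fun h => absurd h (by decide)) (datB10 x) (datB61 x) (fun _ => datB01 x) (fun h => absurd h (by decide)) hd hx hx' CW.B011L_160
    · exact absurd h2 (by norm_num)
    · exact absurd h2 (by norm_num)
    · exact absurd h2 (by norm_num)
    · exact absurd h2 (by norm_num)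
    · exact absurd h2 (by norm_num)
  · intro ρ a B hρ hd i h1 h2
    fin_cases i
    · exact corT_cert (G1 := gB1q0) (G2 := gB6q1) (Ga := gB0q1) (Gb := gB1q1) cB011L_ok B hρ (gatB10 x) (gatB61 x) (fun _ => gatB01 x) (fun h => absurd h (by decide)) hd hx hx' CG.B011L_160
    · exact absurd h2 (by norm_num)
    · exact absurd h2 (by norm_num)
    · exact absurd h2 (by norm_num)
    · exact absurd h2 (by norm_num)
    · exact absurd h2 (by norm_num)

theorem altB_B011L_24 {κ x : ℝ} (hκ : κ * h0 = ken x) (hx : ((536870912 : ℕ) : ℝ) / S ≤ x) (hx' : x ≤ (((536870912 : ℕ) : ℝ) + (50465866 : ℕ)) / S) :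
    AltEB 3 κ (eng.v x) (3 / 40) (tnt (h0 * x) (3 / 10)) PP tK tL tC pcB (scP esg pd) [⟨0, 0, 0, 67108864⟩, ⟨1, 1, 0, 67108864⟩, ⟨2, 1, 0, 67108864⟩] 0 1 1 2 4 (sgb true) (sgb true) x := by
  have X : XR 67108864 x := XR.of hx hx' (by norm_num) (by norm_num) (by norm_num) (by norm_num)
  have hen : 0 < eng.v x := en_pos X.x0.le
  refine CornW.altB (C := cB011L) (j := (2 : Fin 7)) (k := (4 : Fin 7)) (Ef := esg) (pd := pd) (o := 3 / 40)
    (cornW_of (C := cB011L) (C0 := c0B) (En := eng) (mo := mog) (j := (2 : Fin 7)) (k := (4 : Fin 7)) (lo := 0) (hi := 0) (W := 67108864) (N0 := 3) cB011L_q (sideB hx hx') gokB (pinU hx hx') dokB X (by norm_num) (by norm_num) (l := (0 : Fin 7)) rfl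
      (gatB20 x) (gatB41 x) (gatB01 x) (datB20 x) (datB41 x) (datB01 x) ?_)
    (cornS_of (C := cB011L) (C0 := c0B) (j := (2 : Fin 7)) (k := (4 : Fin 7)) (lo := 0) (hi := 0) (W := 67108864) (N0 := 3) cB011L_q (sideB hx hx') gokB X (by norm_num) (by norm_num) (l := (0 : Fin 7)) rfl
      (gatB20 x) (gatB41 x) (gatB01 x) ?_)
    (thU (pinU hx hx')) rfl hκ (fun j q y => tC_eq j q y x) (esg_rng X.x0.le (by linarith [X.b, X.p0])).1 (mo_v x) le_rfl le_rfl
  · intro ρ a B hρ hd i h1 h2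
    fin_cases i
    · exact corW_cert (G1 := gB2q0) (G2 := gB4q1) (Ga := gB0q1) (Gb := gB1q1) (D1 := dB2q0) (D2 := dB4q1) (Da := dB0q1) (Db := dB1q1) cB011L_ok B hρ hen (gatB20 x) (gatB41 x) (fun _ => gatB01 x) (fun h => absurd h (by decide)) (datB20 x) (datB41 x) (fun _ => datB01 x) (fun h => absurd h (by decide)) hd hx hx' CW.B011L_240
    · exact absurd h2 (by norm_num)
    · exact absurd h2 (by norm_num)
    · exact absurd h2 (by norm_num)
    · exact absurd h2 (by norm_num)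
    · exact absurd h2 (by norm_num)
  · intro ρ a B hρ hd i h1 h2
    fin_cases i
    · exact corT_cert (G1 := gB2q0) (G2 := gB4q1) (Ga := gB0q1) (Gb := gB1q1) cB011L_ok B hρ (gatB20 x) (gatB41 x) (fun _ => gatB01 x) (fun h => absurd h (by decide)) hd hx hx' CG.B011L_240
    · exact absurd h2 (by norm_num)
    · exact absurd h2 (by norm_num)
    · exact absurd h2 (by norm_num)
    · exact absurd h2 (by norm_num)
    · exact absurd h2 (by norm_num)

theorem altB_B011L_25 {κ x : ℝ} (hκ : κ * h0 = ken x) (hx : ((536870912 : ℕ) : ℝ) / S ≤ x) (hx' : x ≤ (((536870912 : ℕ) : ℝ) + (50465866 : ℕ)) / S) :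
    AltEB 3 κ (eng.v x) (3 / 40) (tnt (h0 * x) (3 / 10)) PP tK tL tC pcB (scP esg pd) [⟨0, 0, 0, 67108864⟩, ⟨1, 1, 0, 67108864⟩, ⟨2, 1, 0, 67108864⟩] 0 1 1 2 5 (sgb true) (sgb true) x := by
  have X : XR 67108864 x := XR.of hx hx' (by norm_num) (by norm_num) (by norm_num) (by norm_num)
  have hen : 0 < eng.v x := en_pos X.x0.le
  refine CornW.altB (C := cB011L) (j := (2 : Fin 7)) (k := (5 : Fin 7)) (Ef := esg) (pd := pd) (o := 3 / 40)
    (cornW_of (C := cB011L) (C0 := c0B) (En := eng) (mo := mog) (j := (2 : Fin 7)) (k := (5 : Fin 7)) (lo := 0) (hi := 0) (W := 67108864) (N0 := 3) cB011L_q (sideB hx hx') gokB (pinU hx hx') dokB X (by norm_num) (by norm_num) (l := (0 : Fin 7)) rfl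
      (gatB20 x) (gatB51 x) (gatB01 x) (datB20 x) (datB51 x) (datB01 x) ?_)
    (cornS_of (C := cB011L) (C0 := c0B) (j := (2 : Fin 7)) (k := (5 : Fin 7)) (lo := 0) (hi := 0) (W := 67108864) (N0 := 3) cB011L_q (sideB hx hx') gokB X (by norm_num) (by norm_num) (l := (0 : Fin 7)) rfl
      (gatB20 x) (gatB51 x) (gatB01 x) ?_)
    (thU (pinU hx hx')) rfl hκ (fun j q y => tC_eq j q y x) (esg_rng X.x0.le (by linarith [X.b, X.p0])).1 (mo_v x) le_rfl le_rfl
  · intro ρ a B hρ hd i h1 h2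
    fin_cases i
    · exact corW_cert (G1 := gB2q0) (G2 := gB5q1) (Ga := gB0q1) (Gb := gB1q1) (D1 := dB2q0) (D2 := dB5q1) (Da := dB0q1) (Db := dB1q1) cB011L_ok B hρ hen (gatB20 x) (gatB51 x) (fun _ => gatB01 x) (fun h => absurd h (by decide)) (datB20 x) (datB51 x) (fun _ => datB01 x) (fun h => absurd h (by decide)) hd hx hx' CW.B011L_250
    · exact absurd h2 (by norm_num)
    · exact absurd h2 (by norm_num)
    · exact absurd h2 (by norm_num)
    · exact absurd h2 (by norm_num)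
    · exact absurd h2 (by norm_num)
  · intro ρ a B hρ hd i h1 h2
    fin_cases i
    · exact corT_cert (G1 := gB2q0) (G2 := gB5q1) (Ga := gB0q1) (Gb := gB1q1) cB011L_ok B hρ (gatB20 x) (gatB51 x) (fun _ => gatB01 x) (fun h => absurd h (by decide)) hd hx hx' CG.B011L_250
    · exact absurd h2 (by norm_num)
    · exact absurd h2 (by norm_num)
    · exact absurd h2 (by norm_num)
    · exact absurd h2 (by norm_num)
    · exact absurd h2 (by norm_num)

theorem altB_B011L_26 {κ x : ℝ} (hκ : κ * h0 = ken x) (hx : ((536870912 : ℕ) : ℝ) / S ≤ x) (hx' : x ≤ (((536870912 : ℕ) : ℝ) + (50465866 : ℕ)) / S) :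
    AltEB 3 κ (eng.v x) (3 / 40) (tnt (h0 * x) (3 / 10)) PP tK tL tC pcB (scP esg pd) [⟨0, 0, 0, 67108864⟩, ⟨1, 1, 0, 67108864⟩, ⟨2, 1, 0, 67108864⟩] 0 1 1 2 6 (sgb true) (sgb true) x := by
  have X : XR 67108864 x := XR.of hx hx' (by norm_num) (by norm_num) (by norm_num) (by norm_num)
  have hen : 0 < eng.v x := en_pos X.x0.le
  refine CornW.altB (C := cB011L) (j := (2 : Fin 7)) (k := (6 : Fin 7)) (Ef := esg) (pd := pd) (o := 3 / 40)
    (cornW_of (C := cB011L) (C0 := c0B) (En := eng) (mo := mog) (j := (2 : Fin 7)) (k := (6 : Fin 7)) (lo := 0) (hi := 0) (W := 67108864) (N0 := 3) cB011L_q (sideB hx hx') gokB (pinU hx hx') dokB X (by norm_num) (by norm_num) (l := (0 : Fin 7)) rfl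
      (gatB20 x) (gatB61 x) (gatB01 x) (datB20 x) (datB61 x) (datB01 x) ?_)
    (cornS_of (C := cB011L) (C0 := c0B) (j := (2 : Fin 7)) (k := (6 : Fin 7)) (lo := 0) (hi := 0) (W := 67108864) (N0 := 3) cB011L_q (sideB hx hx') gokB X (by norm_num) (by norm_num) (l := (0 : Fin 7)) rfl
      (gatB20 x) (gatB61 x) (gatB01 x) ?_)
    (thU (pinU hx hx')) rfl hκ (fun j q y => tC_eq j q y x) (esg_rng X.x0.le (by linarith [X.b, X.p0])).1 (mo_v x) le_rfl le_rfl
  · intro ρ a B hρ hd i h1 h2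
    fin_cases i
    · exact corW_cert (G1 := gB2q0) (G2 := gB6q1) (Ga := gB0q1) (Gb := gB1q1) (D1 := dB2q0) (D2 := dB6q1) (Da := dB0q1) (Db := dB1q1) cB011L_ok B hρ hen (gatB20 x) (gatB61 x) (fun _ => gatB01 x) (fun h => absurd h (by decide)) (datB20 x) (datB61 x) (fun _ => datB01 x) (fun h => absurd h (by decide)) hd hx hx' CW.B011L_260
    · exact absurd h2 (by norm_num)
    · exact absurd h2 (by norm_num)
    · exact absurd h2 (by norm_num)
    · exact absurd h2 (by norm_num)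
    · exact absurd h2 (by norm_num)
  · intro ρ a B hρ hd i h1 h2
    fin_cases i
    · exact corT_cert (G1 := gB2q0) (G2 := gB6q1) (Ga := gB0q1) (Gb := gB1q1) cB011L_ok B hρ (gatB20 x) (gatB61 x) (fun _ => gatB01 x) (fun h => absurd h (by decide)) hd hx hx' CG.B011L_260
    · exact absurd h2 (by norm_num)
    · exact absurd h2 (by norm_num)
    · exact absurd h2 (by norm_num)
    · exact absurd h2 (by norm_num)
    · exact absurd h2 (by norm_num)

theorem altB_B011L_34 {κ x : ℝ} (hκ : κ * h0 = ken x) (hx : ((536870912 : ℕ) : ℝ) / S ≤ x) (hx' : x ≤ (((536870912 : ℕ) : ℝ) + (50465866 : ℕ)) / S) :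
    AltEB 3 κ (eng.v x) (3 / 40) (tnt (h0 * x) (3 / 10)) PP tK tL tC pcB (scP esg pd) [⟨0, 0, 0, 67108864⟩, ⟨1, 1, 0, 67108864⟩, ⟨2, 1, 0, 67108864⟩] 0 1 1 3 4 (sgb true) (sgb true) x := by
  have X : XR 67108864 x := XR.of hx hx' (by norm_num) (by norm_num) (by norm_num) (by norm_num)
  have hen : 0 < eng.v x := en_pos X.x0.le
  refine CornW.altB (C := cB011L) (j := (3 : Fin 7)) (k := (4 : Fin 7)) (Ef := esg) (pd := pd) (o := 3 / 40)
    (cornW_of (C := cB011L) (C0 := c0B) (En := eng) (mo := mog) (j := (3 : Fin 7)) (k := (4 : Fin 7)) (lo := 0) (hi := 0) (W := 67108864) (N0 := 3) cB011L_q (sideB hx hx') gokB (pinU hx hx') dokB X (by norm_num) (by norm_num) (l := (0 : Fin 7)) rfl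
      (gatB30 x) (gatB41 x) (gatB01 x) (datB30 x) (datB41 x) (datB01 x) ?_)
    (cornS_of (C := cB011L) (C0 := c0B) (j := (3 : Fin 7)) (k := (4 : Fin 7)) (lo := 0) (hi := 0) (W := 67108864) (N0 := 3) cB011L_q (sideB hx hx') gokB X (by norm_num) (by norm_num) (l := (0 : Fin 7)) rfl
      (gatB30 x) (gatB41 x) (gatB01 x) ?_)
    (thU (pinU hx hx')) rfl hκ (fun j q y => tC_eq j q y x) (esg_rng X.x0.le (by linarith [X.b, X.p0])).1 (mo_v x) le_rfl le_rfl
  · intro ρ a B hρ hd i h1 h2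
    fin_cases i
    · exact corW_cert (G1 := gB3q0) (G2 := gB4q1) (Ga := gB0q1) (Gb := gB1q1) (D1 := dB3q0) (D2 := dB4q1) (Da := dB0q1) (Db := dB1q1) cB011L_ok B hρ hen (gatB30 x) (gatB41 x) (fun _ => gatB01 x) (fun h => absurd h (by decide)) (datB30 x) (datB41 x) (fun _ => datB01 x) (fun h => absurd h (by decide)) hd hx hx' CW.B011L_340
    · exact absurd h2 (by norm_num)
    · exact absurd h2 (by norm_num)
    · exact absurd h2 (by norm_num)
    · exact absurd h2 (by norm_num)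
    · exact absurd h2 (by norm_num)
  · intro ρ a B hρ hd i h1 h2
    fin_cases i
    · exact corT_cert (G1 := gB3q0) (G2 := gB4q1) (Ga := gB0q1) (Gb := gB1q1) cB011L_ok B hρ (gatB30 x) (gatB41 x) (fun _ => gatB01 x) (fun h => absurd h (by decide)) hd hx hx' CG.B011L_340
    · exact absurd h2 (by norm_num)
    · exact absurd h2 (by norm_num)
    · exact absurd h2 (by norm_num)
    · exact absurd h2 (by norm_num)
    · exact absurd h2 (by norm_num)

theorem altB_B011L_35 {κ x : ℝ} (hκ : κ * h0 = ken x) (hx : ((536870912 : ℕ) : ℝ) / S ≤ x) (hx' : x ≤ (((536870912 : ℕ) : ℝ) + (50465866 : ℕ)) / S) :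
    AltEB 3 κ (eng.v x) (3 / 40) (tnt (h0 * x) (3 / 10)) PP tK tL tC pcB (scP esg pd) [⟨0, 0, 0, 67108864⟩, ⟨1, 1, 0, 67108864⟩, ⟨2, 1, 0, 67108864⟩] 0 1 1 3 5 (sgb true) (sgb true) x := by
  have X : XR 67108864 x := XR.of hx hx' (by norm_num) (by norm_num) (by norm_num) (by norm_num)
  have hen : 0 < eng.v x := en_pos X.x0.le
  refine CornW.altB (C := cB011L) (j := (3 : Fin 7)) (k := (5 : Fin 7)) (Ef := esg) (pd := pd) (o := 3 / 40)
    (cornW_of (C := cB011L) (C0 := c0B) (En := eng) (mo := mog) (j := (3 : Fin 7)) (k := (5 : Fin 7)) (lo := 0) (hi := 0) (W := 67108864) (N0 := 3) cB011L_q (sideB hx hx') gokB (pinU hx hx') dokB X (by norm_num) (by norm_num) (l := (0 : Fin 7)) rfl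
      (gatB30 x) (gatB51 x) (gatB01 x) (datB30 x) (datB51 x) (datB01 x) ?_)
    (cornS_of (C := cB011L) (C0 := c0B) (j := (3 : Fin 7)) (k := (5 : Fin 7)) (lo := 0) (hi := 0) (W := 67108864) (N0 := 3) cB011L_q (sideB hx hx') gokB X (by norm_num) (by norm_num) (l := (0 : Fin 7)) rfl
      (gatB30 x) (gatB51 x) (gatB01 x) ?_)
    (thU (pinU hx hx')) rfl hκ (fun j q y => tC_eq j q y x) (esg_rng X.x0.le (by linarith [X.b, X.p0])).1 (mo_v x) le_rfl le_rfl
  · intro ρ a B hρ hd i h1 h2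
    fin_cases i
    · exact corW_cert (G1 := gB3q0) (G2 := gB5q1) (Ga := gB0q1) (Gb := gB1q1) (D1 := dB3q0) (D2 := dB5q1) (Da := dB0q1) (Db := dB1q1) cB011L_ok B hρ hen (gatB30 x) (gatB51 x) (fun _ => gatB01 x) (fun h => absurd h (by decide)) (datB30 x) (datB51 x) (fun _ => datB01 x) (fun h => absurd h (by decide)) hd hx hx' CW.B011L_350
    · exact absurd h2 (by norm_num)
    · exact absurd h2 (by norm_num)
    · exact absurd h2 (by norm_num)
    · exact absurd h2 (by norm_num)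
    · exact absurd h2 (by norm_num)
  · intro ρ a B hρ hd i h1 h2
    fin_cases i
    · exact corT_cert (G1 := gB3q0) (G2 := gB5q1) (Ga := gB0q1) (Gb := gB1q1) cB011L_ok B hρ (gatB30 x) (gatB51 x) (fun _ => gatB01 x) (fun h => absurd h (by decide)) hd hx hx' CG.B011L_350
    · exact absurd h2 (by norm_num)
    · exact absurd h2 (by norm_num)
    · exact absurd h2 (by norm_num)
    · exact absurd h2 (by norm_num)
    · exact absurd h2 (by norm_num)

theorem altB_B011L_36 {κ x : ℝ} (hκ : κ * h0 = ken x) (hx : ((536870912 : ℕ) : ℝ) / S ≤ x) (hx' : x ≤ (((536870912 : ℕ) : ℝ) + (50465866 : ℕ)) / S) :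
    AltEB 3 κ (eng.v x) (3 / 40) (tnt (h0 * x) (3 / 10)) PP tK tL tC pcB (scP esg pd) [⟨0, 0, 0, 67108864⟩, ⟨1, 1, 0, 67108864⟩, ⟨2, 1, 0, 67108864⟩] 0 1 1 3 6 (sgb true) (sgb true) x := by
  have X : XR 67108864 x := XR.of hx hx' (by norm_num) (by norm_num) (by norm_num) (by norm_num)
  have hen : 0 < eng.v x := en_pos X.x0.le
  refine CornW.altB (C := cB011L) (j := (3 : Fin 7)) (k := (6 : Fin 7)) (Ef := esg) (pd := pd) (o := 3 / 40)
    (cornW_of (C := cB011L) (C0 := c0B) (En := eng) (mo := mog) (j := (3 : Fin 7)) (k := (6 : Fin 7)) (lo := 0) (hi := 0) (W := 67108864) (N0 := 3) cB011L_q (sideB hx hx') gokB (pinU hx hx') dokB X (by norm_num) (by norm_num) (l := (0 : Fin 7)) rfl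
      (gatB30 x) (gatB61 x) (gatB01 x) (datB30 x) (datB61 x) (datB01 x) ?_)
    (cornS_of (C := cB011L) (C0 := c0B) (j := (3 : Fin 7)) (k := (6 : Fin 7)) (lo := 0) (hi := 0) (W := 67108864) (N0 := 3) cB011L_q (sideB hx hx') gokB X (by norm_num) (by norm_num) (l := (0 : Fin 7)) rfl
      (gatB30 x) (gatB61 x) (gatB01 x) ?_)
    (thU (pinU hx hx')) rfl hκ (fun j q y => tC_eq j q y x) (esg_rng X.x0.le (by linarith [X.b, X.p0])).1 (mo_v x) le_rfl le_rfl
  · intro ρ a B hρ hd i h1 h2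
    fin_cases i
    · exact corW_cert (G1 := gB3q0) (G2 := gB6q1) (Ga := gB0q1) (Gb := gB1q1) (D1 := dB3q0) (D2 := dB6q1) (Da := dB0q1) (Db := dB1q1) cB011L_ok B hρ hen (gatB30 x) (gatB61 x) (fun _ => gatB01 x) (fun h => absurd h (by decide)) (datB30 x) (datB61 x) (fun _ => datB01 x) (fun h => absurd h (by decide)) hd hx hx' CW.B011L_360
    · exact absurd h2 (by norm_num)
    · exact absurd h2 (by norm_num)
    · exact absurd h2 (by norm_num)
    · exact absurd h2 (by norm_num)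
    · exact absurd h2 (by norm_num)
  · intro ρ a B hρ hd i h1 h2
    fin_cases i
    · exact corT_cert (G1 := gB3q0) (G2 := gB6q1) (Ga := gB0q1) (Gb := gB1q1) cB011L_ok B hρ (gatB30 x) (gatB61 x) (fun _ => gatB01 x) (fun h => absurd h (by decide)) hd hx hx' CG.B011L_360
    · exact absurd h2 (by norm_num)
    · exact absurd h2 (by norm_num)
    · exact absurd h2 (by norm_num)
    · exact absurd h2 (by norm_num)
    · exact absurd h2 (by norm_num)

theorem altB_B011R_00 {κ x : ℝ} (hκ : κ * h0 = ken x) (hx : ((536870912 : ℕ) : ℝ) / S ≤ x) (hx' : x ≤ (((536870912 : ℕ) : ℝ) + (50465866 : ℕ)) / S) :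
    AltEB 3 κ (eng.v x) (3 / 40) (tnt (h0 * x) (3 / 10)) PP tK tL tC pcB (scP esg pd) [⟨0, 0, 0, 67108864⟩, ⟨1, 1, 0, 67108864⟩, ⟨2, 1, 0, 67108864⟩] 0 1 1 0 0 (sgb true) (sgb false) x := by
  have X : XR 67108864 x := XR.of hx hx' (by norm_num) (by norm_num) (by norm_num) (by norm_num)
  have hen : 0 < eng.v x := en_pos X.x0.le
  refine CornW.altB (C := cB011R) (j := (0 : Fin 7)) (k := (0 : Fin 7)) (Ef := esg) (pd := pd) (o := 3 / 40)
    (cornW_of (C := cB011R) (C0 := c0B) (En := eng) (mo := mog) (j := (0 : Fin 7)) (k := (0 : Fin 7)) (lo := 4) (hi := 6) (W := 67108864) (N0 := 3) cB011R_q (sideB hx hx') gokB (pinU hx hx') dokB X (by norm_num) (by norm_num) (l := (4 : Fin 7)) rfl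
      (gatB00 x) (gatB01 x) (gatB41 x) (datB00 x) (datB01 x) (datB41 x) ?_)
    (cornS_of (C := cB011R) (C0 := c0B) (j := (0 : Fin 7)) (k := (0 : Fin 7)) (lo := 4) (hi := 6) (W := 67108864) (N0 := 3) cB011R_q (sideB hx hx') gokB X (by norm_num) (by norm_num) (l := (4 : Fin 7)) rfl
      (gatB00 x) (gatB01 x) (gatB41 x) ?_)
    (thU (pinU hx hx')) rfl hκ (fun j q y => tC_eq j q y x) (esg_rng X.x0.le (by linarith [X.b, X.p0])).1 (mo_v x) le_rfl le_rfl
  · intro ρ a B hρ hd i h1 h2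
    fin_cases i
    · exact absurd h1 (by norm_num)
    · exact absurd h1 (by norm_num)
    · exact absurd h1 (by norm_num)
    · exact corW_cert (G1 := gB0q0) (G2 := gB0q1) (Ga := gB3q1) (Gb := gB4q1) (D1 := dB0q0) (D2 := dB0q1) (Da := dB3q1) (Db := dB4q1) cB011R_ok B hρ hen (gatB00 x) (gatB01 x) (fun h => absurd h (by decide)) (fun _ => gatB41 x) (datB00 x) (datB01 x) (fun h => absurd h (by decide)) (fun _ => datB41 x) hd hx hx' CW.B011R_003
    · exact corW_cert (G1 := gB0q0) (G2 := gB0q1) (Ga := gB4q1) (Gb := gB5q1) (D1 := dB0q0) (D2 := dB0q1) (Da := dB4q1) (Db := dB5q1) cB011R_ok B hρ hen (gatB00 x) (gatB01 x) (fun _ => gatB41 x) (fun _ => gatB51 x) (datB00 x) (datB01 x) (fun _ => datB41 x) (fun _ => datB51 x) hd hx hx' CW.B011R_004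
    · exact corW_cert (G1 := gB0q0) (G2 := gB0q1) (Ga := gB5q1) (Gb := gB6q1) (D1 := dB0q0) (D2 := dB0q1) (Da := dB5q1) (Db := dB6q1) cB011R_ok B hρ hen (gatB00 x) (gatB01 x) (fun _ => gatB51 x) (fun _ => gatB61 x) (datB00 x) (datB01 x) (fun _ => datB51 x) (fun _ => datB61 x) hd hx hx' CW.B011R_005
  · intro ρ a B hρ hd i h1 h2
    fin_cases i
    · exact absurd h1 (by norm_num)
    · exact absurd h1 (by norm_num)
    · exact absurd h1 (by norm_num)
    · exact corT_cert (G1 := gB0q0) (G2 := gB0q1) (Ga := gB3q1) (Gb := gB4q1) cB011R_ok B hρ (gatB00 x) (gatB01 x) (fun h => absurd h (by decide)) (fun _ => gatB41 x) hd hx hx' CG.B011R_003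
    · exact corT_cert (G1 := gB0q0) (G2 := gB0q1) (Ga := gB4q1) (Gb := gB5q1) cB011R_ok B hρ (gatB00 x) (gatB01 x) (fun _ => gatB41 x) (fun _ => gatB51 x) hd hx hx' CG.B011R_004
    · exact corX_cert (G1 := gB0q0) (G2 := gB0q1) (Ga := gB5q1) (Gb := gB6q1) (GT := gB6q1) cB011R_ok tB011R_ok B hρ (gatB00 x) (gatB01 x) (fun _ => gatB51 x) (fun _ => gatB61 x) rfl (tgh_B011R (kodd x) (gpu0 x) (gpu1 x) (gpt1 x) (gatB00 x) (gatB01 x) (gatB61 x) B (le_sixteenth hd (by norm_num))) hd hx hx' CG.B011R_005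

theorem altB_B011R_10 {κ x : ℝ} (hκ : κ * h0 = ken x) (hx : ((536870912 : ℕ) : ℝ) / S ≤ x) (hx' : x ≤ (((536870912 : ℕ) : ℝ) + (50465866 : ℕ)) / S) :
    AltEB 3 κ (eng.v x) (3 / 40) (tnt (h0 * x) (3 / 10)) PP tK tL tC pcB (scP esg pd) [⟨0, 0, 0, 67108864⟩, ⟨1, 1, 0, 67108864⟩, ⟨2, 1, 0, 67108864⟩] 0 1 1 1 0 (sgb true) (sgb false) x := by
  have X : XR 67108864 x := XR.of hx hx' (by norm_num) (by norm_num) (by norm_num) (by norm_num)
  have hen : 0 < eng.v x := en_pos X.x0.le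
  refine CornW.altB (C := cB011R) (j := (1 : Fin 7)) (k := (0 : Fin 7)) (Ef := esg) (pd := pd) (o := 3 / 40)
    (cornW_of (C := cB011R) (C0 := c0B) (En := eng) (mo := mog) (j := (1 : Fin 7)) (k := (0 : Fin 7)) (lo := 4) (hi := 6) (W := 67108864) (N0 := 3) cB011R_q (sideB hx hx') gokB (pinU hx hx') dokB X (by norm_num) (by norm_num) (l := (4 : Fin 7)) rfl
      (gatB10 x) (gatB01 x) (gatB41 x) (datB10 x) (datB01 x) (datB41 x) ?_)
    (cornS_of (C := cB011R) (C0 := c0B) (j := (1 : Fin 7)) (k := (0 : Fin 7)) (lo := 4) (hi := 6) (W := 67108864) (N0 := 3) cB011R_q (sideB hx hx') gokB X (by norm_num) (by norm_num) (l := (4 : Fin 7)) rfl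
      (gatB10 x) (gatB01 x) (gatB41 x) ?_)
    (thU (pinU hx hx')) rfl hκ (fun j q y => tC_eq j q y x) (esg_rng X.x0.le (by linarith [X.b, X.p0])).1 (mo_v x) le_rfl le_rfl
  · intro ρ a B hρ hd i h1 h2
    fin_cases i
    · exact absurd h1 (by norm_num)
    · exact absurd h1 (by norm_num)
    · exact absurd h1 (by norm_num)
    · exact corW_cert (G1 := gB1q0) (G2 := gB0q1) (Ga := gB3q1) (Gb := gB4q1) (D1 := dB1q0) (D2 := dB0q1) (Da := dB3q1) (Db := dB4q1) cB011R_ok B hρ hen (gatB10 x) (gatB01 x) (fun h => absurd h (by decide)) (fun _ => gatB41 x) (datB10 x) (datB01 x) (fun h => absurd h (by decide)) (fun _ => datB41 x) hd hx hx' CW.B011R_103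
    · exact corW_cert (G1 := gB1q0) (G2 := gB0q1) (Ga := gB4q1) (Gb := gB5q1) (D1 := dB1q0) (D2 := dB0q1) (Da := dB4q1) (Db := dB5q1) cB011R_ok B hρ hen (gatB10 x) (gatB01 x) (fun _ => gatB41 x) (fun _ => gatB51 x) (datB10 x) (datB01 x) (fun _ => datB41 x) (fun _ => datB51 x) hd hx hx' CW.B011R_104
    · exact corW_cert (G1 := gB1q0) (G2 := gB0q1) (Ga := gB5q1) (Gb := gB6q1) (D1 := dB1q0) (D2 := dB0q1) (Da := dB5q1) (Db := dB6q1) cB011R_ok B hρ hen (gatB10 x) (gatB01 x) (fun _ => gatB51 x) (fun _ => gatB61 x) (datB10 x) (datB01 x) (fun _ => datB51 x) (fun _ => datB61 x) hd hx hx' CW.B011R_105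
  · intro ρ a B hρ hd i h1 h2
    fin_cases i
    · exact absurd h1 (by norm_num)
    · exact absurd h1 (by norm_num)
    · exact absurd h1 (by norm_num)
    · exact corT_cert (G1 := gB1q0) (G2 := gB0q1) (Ga := gB3q1) (Gb := gB4q1) cB011R_ok B hρ (gatB10 x) (gatB01 x) (fun h => absurd h (by decide)) (fun _ => gatB41 x) hd hx hx' CG.B011R_103
    · exact corT_cert (G1 := gB1q0) (G2 := gB0q1) (Ga := gB4q1) (Gb := gB5q1) cB011R_ok B hρ (gatB10 x) (gatB01 x) (fun _ => gatB41 x) (fun _ => gatB51 x) hd hx hx' CG.B011R_104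
    · exact corT_cert (G1 := gB1q0) (G2 := gB0q1) (Ga := gB5q1) (Gb := gB6q1) cB011R_ok B hρ (gatB10 x) (gatB01 x) (fun _ => gatB51 x) (fun _ => gatB61 x) hd hx hx' CG.B011R_105

theorem altB_B011R_20 {κ x : ℝ} (hκ : κ * h0 = ken x) (hx : ((536870912 : ℕ) : ℝ) / S ≤ x) (hx' : x ≤ (((536870912 : ℕ) : ℝ) + (50465866 : ℕ)) / S) :
    AltEB 3 κ (eng.v x) (3 / 40) (tnt (h0 * x) (3 / 10)) PP tK tL tC pcB (scP esg pd) [⟨0, 0, 0, 67108864⟩, ⟨1, 1, 0, 67108864⟩, ⟨2, 1, 0, 67108864⟩] 0 1 1 2 0 (sgb true) (sgb false) x := by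
  have X : XR 67108864 x := XR.of hx hx' (by norm_num) (by norm_num) (by norm_num) (by norm_num)
  have hen : 0 < eng.v x := en_pos X.x0.le
  refine CornW.altB (C := cB011R) (j := (2 : Fin 7)) (k := (0 : Fin 7)) (Ef := esg) (pd := pd) (o := 3 / 40)
    (cornW_of (C := cB011R) (C0 := c0B) (En := eng) (mo := mog) (j := (2 : Fin 7)) (k := (0 : Fin 7)) (lo := 4) (hi := 6) (W := 67108864) (N0 := 3) cB011R_q (sideB hx hx') gokB (pinU hx hx') dokB X (by norm_num) (by norm_num) (l := (4 : Fin 7)) rfl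
      (gatB20 x) (gatB01 x) (gatB41 x) (datB20 x) (datB01 x) (datB41 x) ?_)
    (cornS_of (C := cB011R) (C0 := c0B) (j := (2 : Fin 7)) (k := (0 : Fin 7)) (lo := 4) (hi := 6) (W := 67108864) (N0 := 3) cB011R_q (sideB hx hx') gokB X (by norm_num) (by norm_num) (l := (4 : Fin 7)) rfl
      (gatB20 x) (gatB01 x) (gatB41 x) ?_)
    (thU (pinU hx hx')) rfl hκ (fun j q y => tC_eq j q y x) (esg_rng X.x0.le (by linarith [X.b, X.p0])).1 (mo_v x) le_rfl le_rfl
  · intro ρ a B hρ hd i h1 h2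
    fin_cases i
    · exact absurd h1 (by norm_num)
    · exact absurd h1 (by norm_num)
    · exact absurd h1 (by norm_num)
    · exact corW_cert (G1 := gB2q0) (G2 := gB0q1) (Ga := gB3q1) (Gb := gB4q1) (D1 := dB2q0) (D2 := dB0q1) (Da := dB3q1) (Db := dB4q1) cB011R_ok B hρ hen (gatB20 x) (gatB01 x) (fun h => absurd h (by decide)) (fun _ => gatB41 x) (datB20 x) (datB01 x) (fun h => absurd h (by decide)) (fun _ => datB41 x) hd hx hx' CW.B011R_203
    · exact corW_cert (G1 := gB2q0) (G2 := gB0q1) (Ga := gB4q1) (Gb := gB5q1) (D1 := dB2q0) (D2 := dB0q1) (Da := dB4q1) (Db := dB5q1) cB011R_ok B hρ hen (gatB20 x) (gatB01 x) (fun _ => gatB41 x) (fun _ => gatB51 x) (datB20 x) (datB01 x) (fun _ => datB41 x) (fun _ => datB51 x) hd hx hx' CW.B011R_204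
    · exact corW_cert (G1 := gB2q0) (G2 := gB0q1) (Ga := gB5q1) (Gb := gB6q1) (D1 := dB2q0) (D2 := dB0q1) (Da := dB5q1) (Db := dB6q1) cB011R_ok B hρ hen (gatB20 x) (gatB01 x) (fun _ => gatB51 x) (fun _ => gatB61 x) (datB20 x) (datB01 x) (fun _ => datB51 x) (fun _ => datB61 x) hd hx hx' CW.B011R_205
  · intro ρ a B hρ hd i h1 h2
    fin_cases i
    · exact absurd h1 (by norm_num)
    · exact absurd h1 (by norm_num)
    · exact absurd h1 (by norm_num)
    · exact corT_cert (G1 := gB2q0) (G2 := gB0q1) (Ga := gB3q1) (Gb := gB4q1) cB011R_ok B hρ (gatB20 x) (gatB01 x) (fun h => absurd h (by decide)) (fun _ => gatB41 x) hd hx hx' CG.B011R_203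
    · exact corT_cert (G1 := gB2q0) (G2 := gB0q1) (Ga := gB4q1) (Gb := gB5q1) cB011R_ok B hρ (gatB20 x) (gatB01 x) (fun _ => gatB41 x) (fun _ => gatB51 x) hd hx hx' CG.B011R_204
    · exact corT_cert (G1 := gB2q0) (G2 := gB0q1) (Ga := gB5q1) (Gb := gB6q1) cB011R_ok B hρ (gatB20 x) (gatB01 x) (fun _ => gatB51 x) (fun _ => gatB61 x) hd hx hx' CG.B011R_205

theorem altB_B011R_30 {κ x : ℝ} (hκ : κ * h0 = ken x) (hx : ((536870912 : ℕ) : ℝ) / S ≤ x) (hx' : x ≤ (((536870912 : ℕ) : ℝ) + (50465866 : ℕ)) / S) :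
    AltEB 3 κ (eng.v x) (3 / 40) (tnt (h0 * x) (3 / 10)) PP tK tL tC pcB (scP esg pd) [⟨0, 0, 0, 67108864⟩, ⟨1, 1, 0, 67108864⟩, ⟨2, 1, 0, 67108864⟩] 0 1 1 3 0 (sgb true) (sgb false) x := by
  have X : XR 67108864 x := XR.of hx hx' (by norm_num) (by norm_num) (by norm_num) (by norm_num)
  have hen : 0 < eng.v x := en_pos X.x0.le
  refine CornW.altB (C := cB011R) (j := (3 : Fin 7)) (k := (0 : Fin 7)) (Ef := esg) (pd := pd) (o := 3 / 40)
    (cornW_of (C := cB011R) (C0 := c0B) (En := eng) (mo := mog) (j := (3 : Fin 7)) (k := (0 : Fin 7)) (lo := 4) (hi := 6) (W := 67108864) (N0 := 3) cB011R_q (sideB hx hx') gokB (pinU hx hx') dokB X (by norm_num) (by norm_num) (l := (4 : Fin 7)) rfl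
      (gatB30 x) (gatB01 x) (gatB41 x) (datB30 x) (datB01 x) (datB41 x) ?_)
    (cornS_of (C := cB011R) (C0 := c0B) (j := (3 : Fin 7)) (k := (0 : Fin 7)) (lo := 4) (hi := 6) (W := 67108864) (N0 := 3) cB011R_q (sideB hx hx') gokB X (by norm_num) (by norm_num) (l := (4 : Fin 7)) rfl
      (gatB30 x) (gatB01 x) (gatB41 x) ?_)
    (thU (pinU hx hx')) rfl hκ (fun j q y => tC_eq j q y x) (esg_rng X.x0.le (by linarith [X.b, X.p0])).1 (mo_v x) le_rfl le_rfl
  · intro ρ a B hρ hd i h1 h2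
    fin_cases i
    · exact absurd h1 (by norm_num)
    · exact absurd h1 (by norm_num)
    · exact absurd h1 (by norm_num)
    · exact corW_cert (G1 := gB3q0) (G2 := gB0q1) (Ga := gB3q1) (Gb := gB4q1) (D1 := dB3q0) (D2 := dB0q1) (Da := dB3q1) (Db := dB4q1) cB011R_ok B hρ hen (gatB30 x) (gatB01 x) (fun h => absurd h (by decide)) (fun _ => gatB41 x) (datB30 x) (datB01 x) (fun h => absurd h (by decide)) (fun _ => datB41 x) hd hx hx' CW.B011R_303
    · exact corW_cert (G1 := gB3q0) (G2 := gB0q1) (Ga := gB4q1) (Gb := gB5q1) (D1 := dB3q0) (D2 := dB0q1) (Da := dB4q1) (Db := dB5q1) cB011R_ok B hρ hen (gatB30 x) (gatB01 x) (fun _ => gatB41 x) (fun _ => gatB51 x) (datB30 x) (datB01 x) (fun _ => datB41 x) (fun _ => datB51 x) hd hx hx' CW.B011R_304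
    · exact corW_cert (G1 := gB3q0) (G2 := gB0q1) (Ga := gB5q1) (Gb := gB6q1) (D1 := dB3q0) (D2 := dB0q1) (Da := dB5q1) (Db := dB6q1) cB011R_ok B hρ hen (gatB30 x) (gatB01 x) (fun _ => gatB51 x) (fun _ => gatB61 x) (datB30 x) (datB01 x) (fun _ => datB51 x) (fun _ => datB61 x) hd hx hx' CW.B011R_305
  · intro ρ a B hρ hd i h1 h2
    fin_cases i
    · exact absurd h1 (by norm_num)
    · exact absurd h1 (by norm_num)
    · exact absurd h1 (by norm_num)
    · exact corT_cert (G1 := gB3q0) (G2 := gB0q1) (Ga := gB3q1) (Gb := gB4q1) cB011R_ok B hρ (gatB30 x) (gatB01 x) (fun h => absurd h (by decide)) (fun _ => gatB41 x) hd hx hx' CG.B011R_303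
    · exact corT_cert (G1 := gB3q0) (G2 := gB0q1) (Ga := gB4q1) (Gb := gB5q1) cB011R_ok B hρ (gatB30 x) (gatB01 x) (fun _ => gatB41 x) (fun _ => gatB51 x) hd hx hx' CG.B011R_304
    · exact corT_cert (G1 := gB3q0) (G2 := gB0q1) (Ga := gB5q1) (Gb := gB6q1) cB011R_ok B hρ (gatB30 x) (gatB01 x) (fun _ => gatB51 x) (fun _ => gatB61 x) hd hx hx' CG.B011R_305

theorem altB_B012E_00 {κ x : ℝ} (hκ : κ * h0 = ken x) (hx : ((536870912 : ℕ) : ℝ) / S ≤ x) (hx' : x ≤ (((536870912 : ℕ) : ℝ) + (50465866 : ℕ)) / S) :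
    AltEB 3 κ (eng.v x) (3 / 40) (tnt (h0 * x) (3 / 10)) PP tK tL tC pcB (scP esg pd) [⟨0, 0, 0, 67108864⟩, ⟨1, 1, 0, 67108864⟩, ⟨2, 1, 0, 67108864⟩] 0 1 2 0 0 (sgb true) (sgb true) x := by
  have X : XR 67108864 x := XR.of hx hx' (by norm_num) (by norm_num) (by norm_num) (by norm_num)
  have hen : 0 < eng.v x := en_pos X.x0.le
  refine CornW.altB (C := cB012E) (j := (0 : Fin 7)) (k := (0 : Fin 7)) (Ef := esg) (pd := pd) (o := 3 / 40)
    (cornW_of (C := cB012E) (C0 := c0B) (En := eng) (mo := mog) (j := (0 : Fin 7)) (k := (0 : Fin 7)) (lo := 0) (hi := 0) (W := 67108864) (N0 := 3) cB012E_q (sideB hx hx') gokB (pinU hx hx') dokB X (by norm_num) (by norm_num) (l := (0 : Fin 7)) rfl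
      (gatB00 x) (gatB02 x) (gatB01 x) (datB00 x) (datB02 x) (datB01 x) ?_)
    (cornS_of (C := cB012E) (C0 := c0B) (j := (0 : Fin 7)) (k := (0 : Fin 7)) (lo := 0) (hi := 0) (W := 67108864) (N0 := 3) cB012E_q (sideB hx hx') gokB X (by norm_num) (by norm_num) (l := (0 : Fin 7)) rfl
      (gatB00 x) (gatB02 x) (gatB01 x) ?_)
    (thU (pinU hx hx')) rfl hκ (fun j q y => tC_eq j q y x) (esg_rng X.x0.le (by linarith [X.b, X.p0])).1 (mo_v x) le_rfl le_rfl
  · intro ρ a B hρ hd i h1 h2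
    fin_cases i
    · exact corW_cert (G1 := gB0q0) (G2 := gB0q2) (Ga := gB0q1) (Gb := gB1q1) (D1 := dB0q0) (D2 := dB0q2) (Da := dB0q1) (Db := dB1q1) cB012E_ok B hρ hen (gatB00 x) (gatB02 x) (fun _ => gatB01 x) (fun h => absurd h (by decide)) (datB00 x) (datB02 x) (fun _ => datB01 x) (fun h => absurd h (by decide)) hd hx hx' CW.B012E_000
    · exact absurd h2 (by norm_num)
    · exact absurd h2 (by norm_num)
    · exact absurd h2 (by norm_num)
    · exact absurd h2 (by norm_num)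
    · exact absurd h2 (by norm_num)
  · intro ρ a B hρ hd i h1 h2
    fin_cases i
    · exact corX_cert (G1 := gB0q0) (G2 := gB0q2) (Ga := gB0q1) (Gb := gB1q1) (GT := gB0q1) cB012E_ok tB012E_ok B hρ (gatB00 x) (gatB02 x) (fun _ => gatB01 x) (fun h => absurd h (by decide)) rfl (tgh_B012E (kodd x) (gpu0 x) (gpu2 x) (gpu1 x) (gatB00 x) (gatB02 x) (gatB01 x) B (le_sixteenth hd (by norm_num))) hd hx hx' CG.B012E_000
    · exact absurd h2 (by norm_num)
    · exact absurd h2 (by norm_num)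
    · exact absurd h2 (by norm_num)
    · exact absurd h2 (by norm_num)
    · exact absurd h2 (by norm_num)

theorem altB_B012E_01 {κ x : ℝ} (hκ : κ * h0 = ken x) (hx : ((536870912 : ℕ) : ℝ) / S ≤ x) (hx' : x ≤ (((536870912 : ℕ) : ℝ) + (50465866 : ℕ)) / S) :
    AltEB 3 κ (eng.v x) (3 / 40) (tnt (h0 * x) (3 / 10)) PP tK tL tC pcB (scP esg pd) [⟨0, 0, 0, 67108864⟩, ⟨1, 1, 0, 67108864⟩, ⟨2, 1, 0, 67108864⟩] 0 1 2 0 1 (sgb true) (sgb true) x := by
  have X : XR 67108864 x := XR.of hx hx' (by norm_num) (by norm_num) (by norm_num) (by norm_num)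
  have hen : 0 < eng.v x := en_pos X.x0.le
  refine CornW.altB (C := cB012E) (j := (0 : Fin 7)) (k := (1 : Fin 7)) (Ef := esg) (pd := pd) (o := 3 / 40)
    (cornW_of (C := cB012E) (C0 := c0B) (En := eng) (mo := mog) (j := (0 : Fin 7)) (k := (1 : Fin 7)) (lo := 0) (hi := 0) (W := 67108864) (N0 := 3) cB012E_q (sideB hx hx') gokB (pinU hx hx') dokB X (by norm_num) (by norm_num) (l := (0 : Fin 7)) rfl
      (gatB00 x) (gatB12 x) (gatB01 x) (datB00 x) (datB12 x) (datB01 x) ?_)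
    (cornS_of (C := cB012E) (C0 := c0B) (j := (0 : Fin 7)) (k := (1 : Fin 7)) (lo := 0) (hi := 0) (W := 67108864) (N0 := 3) cB012E_q (sideB hx hx') gokB X (by norm_num) (by norm_num) (l := (0 : Fin 7)) rfl
      (gatB00 x) (gatB12 x) (gatB01 x) ?_)
    (thU (pinU hx hx')) rfl hκ (fun j q y => tC_eq j q y x) (esg_rng X.x0.le (by linarith [X.b, X.p0])).1 (mo_v x) le_rfl le_rfl
  · intro ρ a B hρ hd i h1 h2
    fin_cases i
    · exact corW_cert (G1 := gB0q0) (G2 := gB1q2) (Ga := gB0q1) (Gb := gB1q1) (D1 := dB0q0) (D2 := dB1q2) (Da := dB0q1) (Db := dB1q1) cB012E_ok B hρ hen (gatB00 x) (gatB12 x) (fun _ => gatB01 x) (fun h => absurd h (by decide)) (datB00 x) (datB12 x) (fun _ => datB01 x) (fun h => absurd h (by decide)) hd hx hx' CW.B012E_010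
    · exact absurd h2 (by norm_num)
    · exact absurd h2 (by norm_num)
    · exact absurd h2 (by norm_num)
    · exact absurd h2 (by norm_num)
    · exact absurd h2 (by norm_num)
  · intro ρ a B hρ hd i h1 h2
    fin_cases i
    · exact corT_cert (G1 := gB0q0) (G2 := gB1q2) (Ga := gB0q1) (Gb := gB1q1) cB012E_ok B hρ (gatB00 x) (gatB12 x) (fun _ => gatB01 x) (fun h => absurd h (by decide)) hd hx hx' CG.B012E_010
    · exact absurd h2 (by norm_num)
    · exact absurd h2 (by norm_num)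
    · exact absurd h2 (by norm_num)
    · exact absurd h2 (by norm_num)
    · exact absurd h2 (by norm_num)

theorem altB_B012E_02 {κ x : ℝ} (hκ : κ * h0 = ken x) (hx : ((536870912 : ℕ) : ℝ) / S ≤ x) (hx' : x ≤ (((536870912 : ℕ) : ℝ) + (50465866 : ℕ)) / S) :
    AltEB 3 κ (eng.v x) (3 / 40) (tnt (h0 * x) (3 / 10)) PP tK tL tC pcB (scP esg pd) [⟨0, 0, 0, 67108864⟩, ⟨1, 1, 0, 67108864⟩, ⟨2, 1, 0, 67108864⟩] 0 1 2 0 2 (sgb true) (sgb true) x := by
  have X : XR 67108864 x := XR.of hx hx' (by norm_num) (by norm_num) (by norm_num) (by norm_num)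
  have hen : 0 < eng.v x := en_pos X.x0.le
  refine CornW.altB (C := cB012E) (j := (0 : Fin 7)) (k := (2 : Fin 7)) (Ef := esg) (pd := pd) (o := 3 / 40)
    (cornW_of (C := cB012E) (C0 := c0B) (En := eng) (mo := mog) (j := (0 : Fin 7)) (k := (2 : Fin 7)) (lo := 0) (hi := 0) (W := 67108864) (N0 := 3) cB012E_q (sideB hx hx') gokB (pinU hx hx') dokB X (by norm_num) (by norm_num) (l := (0 : Fin 7)) rfl
      (gatB00 x) (gatB22 x) (gatB01 x) (datB00 x) (datB22 x) (datB01 x) ?_)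
    (cornS_of (C := cB012E) (C0 := c0B) (j := (0 : Fin 7)) (k := (2 : Fin 7)) (lo := 0) (hi := 0) (W := 67108864) (N0 := 3) cB012E_q (sideB hx hx') gokB X (by norm_num) (by norm_num) (l := (0 : Fin 7)) rfl
      (gatB00 x) (gatB22 x) (gatB01 x) ?_)
    (thU (pinU hx hx')) rfl hκ (fun j q y => tC_eq j q y x) (esg_rng X.x0.le (by linarith [X.b, X.p0])).1 (mo_v x) le_rfl le_rfl
  · intro ρ a B hρ hd i h1 h2
    fin_cases i
    · exact corW_cert (G1 := gB0q0) (G2 := gB2q2) (Ga := gB0q1) (Gb := gB1q1) (D1 := dB0q0) (D2 := dB2q2) (Da := dB0q1) (Db := dB1q1) cB012E_ok B hρ hen (gatB00 x) (gatB22 x) (fun _ => gatB01 x) (fun h => absurd h (by decide)) (datB00 x) (datB22 x) (fun _ => datB01 x) (fun h => absurd h (by decide)) hd hx hx' CW.B012E_020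
    · exact absurd h2 (by norm_num)
    · exact absurd h2 (by norm_num)
    · exact absurd h2 (by norm_num)
    · exact absurd h2 (by norm_num)
    · exact absurd h2 (by norm_num)
  · intro ρ a B hρ hd i h1 h2
    fin_cases i
    · exact corT_cert (G1 := gB0q0) (G2 := gB2q2) (Ga := gB0q1) (Gb := gB1q1) cB012E_ok B hρ (gatB00 x) (gatB22 x) (fun _ => gatB01 x) (fun h => absurd h (by decide)) hd hx hx' CG.B012E_020
    · exact absurd h2 (by norm_num)
    · exact absurd h2 (by norm_num)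
    · exact absurd h2 (by norm_num)
    · exact absurd h2 (by norm_num)
    · exact absurd h2 (by norm_num)

theorem altB_B012E_03 {κ x : ℝ} (hκ : κ * h0 = ken x) (hx : ((536870912 : ℕ) : ℝ) / S ≤ x) (hx' : x ≤ (((536870912 : ℕ) : ℝ) + (50465866 : ℕ)) / S) :
    AltEB 3 κ (eng.v x) (3 / 40) (tnt (h0 * x) (3 / 10)) PP tK tL tC pcB (scP esg pd) [⟨0, 0, 0, 67108864⟩, ⟨1, 1, 0, 67108864⟩, ⟨2, 1, 0, 67108864⟩] 0 1 2 0 3 (sgb true) (sgb true) x := by
  have X : XR 67108864 x := XR.of hx hx' (by norm_num) (by norm_num) (by norm_num) (by norm_num)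
  have hen : 0 < eng.v x := en_pos X.x0.le
  refine CornW.altB (C := cB012E) (j := (0 : Fin 7)) (k := (3 : Fin 7)) (Ef := esg) (pd := pd) (o := 3 / 40)
    (cornW_of (C := cB012E) (C0 := c0B) (En := eng) (mo := mog) (j := (0 : Fin 7)) (k := (3 : Fin 7)) (lo := 0) (hi := 0) (W := 67108864) (N0 := 3) cB012E_q (sideB hx hx') gokB (pinU hx hx') dokB X (by norm_num) (by norm_num) (l := (0 : Fin 7)) rfl
      (gatB00 x) (gatB32 x) (gatB01 x) (datB00 x) (datB32 x) (datB01 x) ?_)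
    (cornS_of (C := cB012E) (C0 := c0B) (j := (0 : Fin 7)) (k := (3 : Fin 7)) (lo := 0) (hi := 0) (W := 67108864) (N0 := 3) cB012E_q (sideB hx hx') gokB X (by norm_num) (by norm_num) (l := (0 : Fin 7)) rfl
      (gatB00 x) (gatB32 x) (gatB01 x) ?_)
    (thU (pinU hx hx')) rfl hκ (fun j q y => tC_eq j q y x) (esg_rng X.x0.le (by linarith [X.b, X.p0])).1 (mo_v x) le_rfl le_rfl
  · intro ρ a B hρ hd i h1 h2
    fin_cases i
    · exact corW_cert (G1 := gB0q0) (G2 := gB3q2) (Ga := gB0q1) (Gb := gB1q1) (D1 := dB0q0) (D2 := dB3q2) (Da := dB0q1) (Db := dB1q1) cB012E_ok B hρ hen (gatB00 x) (gatB32 x) (fun _ => gatB01 x) (fun h => absurd h (by decide)) (datB00 x) (datB32 x) (fun _ => datB01 x) (fun h => absurd h (by decide)) hd hx hx' CW.B012E_030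
    · exact absurd h2 (by norm_num)
    · exact absurd h2 (by norm_num)
    · exact absurd h2 (by norm_num)
    · exact absurd h2 (by norm_num)
    · exact absurd h2 (by norm_num)
  · intro ρ a B hρ hd i h1 h2
    fin_cases i
    · exact corT_cert (G1 := gB0q0) (G2 := gB3q2) (Ga := gB0q1) (Gb := gB1q1) cB012E_ok B hρ (gatB00 x) (gatB32 x) (fun _ => gatB01 x) (fun h => absurd h (by decide)) hd hx hx' CG.B012E_030
    · exact absurd h2 (by norm_num)
    · exact absurd h2 (by norm_num)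
    · exact absurd h2 (by norm_num)
    · exact absurd h2 (by norm_num)
    · exact absurd h2 (by norm_num)

theorem altB_B012E_10 {κ x : ℝ} (hκ : κ * h0 = ken x) (hx : ((536870912 : ℕ) : ℝ) / S ≤ x) (hx' : x ≤ (((536870912 : ℕ) : ℝ) + (50465866 : ℕ)) / S) :
    AltEB 3 κ (eng.v x) (3 / 40) (tnt (h0 * x) (3 / 10)) PP tK tL tC pcB (scP esg pd) [⟨0, 0, 0, 67108864⟩, ⟨1, 1, 0, 67108864⟩, ⟨2, 1, 0, 67108864⟩] 0 1 2 1 0 (sgb true) (sgb true) x := by
  have X : XR 67108864 x := XR.of hx hx' (by norm_num) (by norm_num) (by norm_num) (by norm_num)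
  have hen : 0 < eng.v x := en_pos X.x0.le
  refine CornW.altB (C := cB012E) (j := (1 : Fin 7)) (k := (0 : Fin 7)) (Ef := esg) (pd := pd) (o := 3 / 40)
    (cornW_of (C := cB012E) (C0 := c0B) (En := eng) (mo := mog) (j := (1 : Fin 7)) (k := (0 : Fin 7)) (lo := 0) (hi := 0) (W := 67108864) (N0 := 3) cB012E_q (sideB hx hx') gokB (pinU hx hx') dokB X (by norm_num) (by norm_num) (l := (0 : Fin 7)) rfl
      (gatB10 x) (gatB02 x) (gatB01 x) (datB10 x) (datB02 x) (datB01 x) ?_)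
    (cornS_of (C := cB012E) (C0 := c0B) (j := (1 : Fin 7)) (k := (0 : Fin 7)) (lo := 0) (hi := 0) (W := 67108864) (N0 := 3) cB012E_q (sideB hx hx') gokB X (by norm_num) (by norm_num) (l := (0 : Fin 7)) rfl
      (gatB10 x) (gatB02 x) (gatB01 x) ?_)
    (thU (pinU hx hx')) rfl hκ (fun j q y => tC_eq j q y x) (esg_rng X.x0.le (by linarith [X.b, X.p0])).1 (mo_v x) le_rfl le_rfl
  · intro ρ a B hρ hd i h1 h2
    fin_cases i
    · exact corW_cert (G1 := gB1q0) (G2 := gB0q2) (Ga := gB0q1) (Gb := gB1q1) (D1 := dB1q0) (D2 := dB0q2) (Da := dB0q1) (Db := dB1q1) cB012E_ok B hρ hen (gatB10 x) (gatB02 x) (fun _ => gatB01 x) (fun h => absurd h (by decide)) (datB10 x) (datB02 x) (fun _ => datB01 x) (fun h => absurd h (by decide)) hd hx hx' CW.B012E_100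
    · exact absurd h2 (by norm_num)
    · exact absurd h2 (by norm_num)
    · exact absurd h2 (by norm_num)
    · exact absurd h2 (by norm_num)
    · exact absurd h2 (by norm_num)
  · intro ρ a B hρ hd i h1 h2
    fin_cases i
    · exact corT_cert (G1 := gB1q0) (G2 := gB0q2) (Ga := gB0q1) (Gb := gB1q1) cB012E_ok B hρ (gatB10 x) (gatB02 x) (fun _ => gatB01 x) (fun h => absurd h (by decide)) hd hx hx' CG.B012E_100
    · exact absurd h2 (by norm_num)
    · exact absurd h2 (by norm_num)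
    · exact absurd h2 (by norm_num)
    · exact absurd h2 (by norm_num)
    · exact absurd h2 (by norm_num)

theorem altB_B012E_11 {κ x : ℝ} (hκ : κ * h0 = ken x) (hx : ((536870912 : ℕ) : ℝ) / S ≤ x) (hx' : x ≤ (((536870912 : ℕ) : ℝ) + (50465866 : ℕ)) / S) :
    AltEB 3 κ (eng.v x) (3 / 40) (tnt (h0 * x) (3 / 10)) PP tK tL tC pcB (scP esg pd) [⟨0, 0, 0, 67108864⟩, ⟨1, 1, 0, 67108864⟩, ⟨2, 1, 0, 67108864⟩] 0 1 2 1 1 (sgb true) (sgb true) x := by
  have X : XR 67108864 x := XR.of hx hx' (by norm_num) (by norm_num) (by norm_num) (by norm_num)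
  have hen : 0 < eng.v x := en_pos X.x0.le
  refine CornW.altB (C := cB012E) (j := (1 : Fin 7)) (k := (1 : Fin 7)) (Ef := esg) (pd := pd) (o := 3 / 40)
    (cornW_of (C := cB012E) (C0 := c0B) (En := eng) (mo := mog) (j := (1 : Fin 7)) (k := (1 : Fin 7)) (lo := 0) (hi := 0) (W := 67108864) (N0 := 3) cB012E_q (sideB hx hx') gokB (pinU hx hx') dokB X (by norm_num) (by norm_num) (l := (0 : Fin 7)) rfl
      (gatB10 x) (gatB12 x) (gatB01 x) (datB10 x) (datB12 x) (datB01 x) ?_)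
    (cornS_of (C := cB012E) (C0 := c0B) (j := (1 : Fin 7)) (k := (1 : Fin 7)) (lo := 0) (hi := 0) (W := 67108864) (N0 := 3) cB012E_q (sideB hx hx') gokB X (by norm_num) (by norm_num) (l := (0 : Fin 7)) rfl
      (gatB10 x) (gatB12 x) (gatB01 x) ?_)
    (thU (pinU hx hx')) rfl hκ (fun j q y => tC_eq j q y x) (esg_rng X.x0.le (by linarith [X.b, X.p0])).1 (mo_v x) le_rfl le_rfl
  · intro ρ a B hρ hd i h1 h2
    fin_cases i
    · exact corW_cert (G1 := gB1q0) (G2 := gB1q2) (Ga := gB0q1) (Gb := gB1q1) (D1 := dB1q0) (D2 := dB1q2) (Da := dB0q1) (Db := dB1q1) cB012E_ok B hρ hen (gatB10 x) (gatB12 x) (fun _ => gatB01 x) (fun h => absurd h (by decide)) (datB10 x) (datB12 x) (fun _ => datB01 x) (fun h => absurd h (by decide)) hd hx hx' CW.B012E_110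
    · exact absurd h2 (by norm_num)
    · exact absurd h2 (by norm_num)
    · exact absurd h2 (by norm_num)
    · exact absurd h2 (by norm_num)
    · exact absurd h2 (by norm_num)
  · intro ρ a B hρ hd i h1 h2
    fin_cases i
    · exact corT_cert (G1 := gB1q0) (G2 := gB1q2) (Ga := gB0q1) (Gb := gB1q1) cB012E_ok B hρ (gatB10 x) (gatB12 x) (fun _ => gatB01 x) (fun h => absurd h (by decide)) hd hx hx' CG.B012E_110
    · exact absurd h2 (by norm_num)
    · exact absurd h2 (by norm_num)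
    · exact absurd h2 (by norm_num)
    · exact absurd h2 (by norm_num)
    · exact absurd h2 (by norm_num)

theorem altB_B012E_12 {κ x : ℝ} (hκ : κ * h0 = ken x) (hx : ((536870912 : ℕ) : ℝ) / S ≤ x) (hx' : x ≤ (((536870912 : ℕ) : ℝ) + (50465866 : ℕ)) / S) :
    AltEB 3 κ (eng.v x) (3 / 40) (tnt (h0 * x) (3 / 10)) PP tK tL tC pcB (scP esg pd) [⟨0, 0, 0, 67108864⟩, ⟨1, 1, 0, 67108864⟩, ⟨2, 1, 0, 67108864⟩] 0 1 2 1 2 (sgb true) (sgb true) x := by
  have X : XR 67108864 x := XR.of hx hx' (by norm_num) (by norm_num) (by norm_num) (by norm_num)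
  have hen : 0 < eng.v x := en_pos X.x0.le
  refine CornW.altB (C := cB012E) (j := (1 : Fin 7)) (k := (2 : Fin 7)) (Ef := esg) (pd := pd) (o := 3 / 40)
    (cornW_of (C := cB012E) (C0 := c0B) (En := eng) (mo := mog) (j := (1 : Fin 7)) (k := (2 : Fin 7)) (lo := 0) (hi := 0) (W := 67108864) (N0 := 3) cB012E_q (sideB hx hx') gokB (pinU hx hx') dokB X (by norm_num) (by norm_num) (l := (0 : Fin 7)) rfl
      (gatB10 x) (gatB22 x) (gatB01 x) (datB10 x) (datB22 x) (datB01 x) ?_)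
    (cornS_of (C := cB012E) (C0 := c0B) (j := (1 : Fin 7)) (k := (2 : Fin 7)) (lo := 0) (hi := 0) (W := 67108864) (N0 := 3) cB012E_q (sideB hx hx') gokB X (by norm_num) (by norm_num) (l := (0 : Fin 7)) rfl
      (gatB10 x) (gatB22 x) (gatB01 x) ?_)
    (thU (pinU hx hx')) rfl hκ (fun j q y => tC_eq j q y x) (esg_rng X.x0.le (by linarith [X.b, X.p0])).1 (mo_v x) le_rfl le_rfl
  · intro ρ a B hρ hd i h1 h2
    fin_cases i
    · exact corW_cert (G1 := gB1q0) (G2 := gB2q2) (Ga := gB0q1) (Gb := gB1q1) (D1 := dB1q0) (D2 := dB2q2) (Da := dB0q1) (Db := dB1q1) cB012E_ok B hρ hen (gatB10 x) (gatB22 x) (fun _ => gatB01 x) (fun h => absurd h (by decide)) (datB10 x) (datB22 x) (fun _ => datB01 x) (fun h => absurd h (by decide)) hd hx hx' CW.B012E_120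
    · exact absurd h2 (by norm_num)
    · exact absurd h2 (by norm_num)
    · exact absurd h2 (by norm_num)
    · exact absurd h2 (by norm_num)
    · exact absurd h2 (by norm_num)
  · intro ρ a B hρ hd i h1 h2
    fin_cases i
    · exact corT_cert (G1 := gB1q0) (G2 := gB2q2) (Ga := gB0q1) (Gb := gB1q1) cB012E_ok B hρ (gatB10 x) (gatB22 x) (fun _ => gatB01 x) (fun h => absurd h (by decide)) hd hx hx' CG.B012E_120
    · exact absurd h2 (by norm_num)
    · exact absurd h2 (by norm_num)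
    · exact absurd h2 (by norm_num)
    · exact absurd h2 (by norm_num)
    · exact absurd h2 (by norm_num)

theorem altB_B012E_13 {κ x : ℝ} (hκ : κ * h0 = ken x) (hx : ((536870912 : ℕ) : ℝ) / S ≤ x) (hx' : x ≤ (((536870912 : ℕ) : ℝ) + (50465866 : ℕ)) / S) :
    AltEB 3 κ (eng.v x) (3 / 40) (tnt (h0 * x) (3 / 10)) PP tK tL tC pcB (scP esg pd) [⟨0, 0, 0, 67108864⟩, ⟨1, 1, 0, 67108864⟩, ⟨2, 1, 0, 67108864⟩] 0 1 2 1 3 (sgb true) (sgb true) x := by
  have X : XR 67108864 x := XR.of hx hx' (by norm_num) (by norm_num) (by norm_num) (by norm_num)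
  have hen : 0 < eng.v x := en_pos X.x0.le
  refine CornW.altB (C := cB012E) (j := (1 : Fin 7)) (k := (3 : Fin 7)) (Ef := esg) (pd := pd) (o := 3 / 40)
    (cornW_of (C := cB012E) (C0 := c0B) (En := eng) (mo := mog) (j := (1 : Fin 7)) (k := (3 : Fin 7)) (lo := 0) (hi := 0) (W := 67108864) (N0 := 3) cB012E_q (sideB hx hx') gokB (pinU hx hx') dokB X (by norm_num) (by norm_num) (l := (0 : Fin 7)) rfl
      (gatB10 x) (gatB32 x) (gatB01 x) (datB10 x) (datB32 x) (datB01 x) ?_)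
    (cornS_of (C := cB012E) (C0 := c0B) (j := (1 : Fin 7)) (k := (3 : Fin 7)) (lo := 0) (hi := 0) (W := 67108864) (N0 := 3) cB012E_q (sideB hx hx') gokB X (by norm_num) (by norm_num) (l := (0 : Fin 7)) rfl
      (gatB10 x) (gatB32 x) (gatB01 x) ?_)
    (thU (pinU hx hx')) rfl hκ (fun j q y => tC_eq j q y x) (esg_rng X.x0.le (by linarith [X.b, X.p0])).1 (mo_v x) le_rfl le_rfl
  · intro ρ a B hρ hd i h1 h2
    fin_cases i
    · exact corW_cert (G1 := gB1q0) (G2 := gB3q2) (Ga := gB0q1) (Gb := gB1q1) (D1 := dB1q0) (D2 := dB3q2) (Da := dB0q1) (Db := dB1q1) cB012E_ok B hρ hen (gatB10 x) (gatB32 x) (fun _ => gatB01 x) (fun h => absurd h (by decide)) (datB10 x) (datB32 x) (fun _ => datB01 x) (fun h => absurd h (by decide)) hd hx hx' CW.B012E_130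
    · exact absurd h2 (by norm_num)
    · exact absurd h2 (by norm_num)
    · exact absurd h2 (by norm_num)
    · exact absurd h2 (by norm_num)
    · exact absurd h2 (by norm_num)
  · intro ρ a B hρ hd i h1 h2
    fin_cases i
    · exact corT_cert (G1 := gB1q0) (G2 := gB3q2) (Ga := gB0q1) (Gb := gB1q1) cB012E_ok B hρ (gatB10 x) (gatB32 x) (fun _ => gatB01 x) (fun h => absurd h (by decide)) hd hx hx' CG.B012E_130
    · exact absurd h2 (by norm_num)
    · exact absurd h2 (by norm_num)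
    · exact absurd h2 (by norm_num)
    · exact absurd h2 (by norm_num)
    · exact absurd h2 (by norm_num)

theorem altB_B012E_20 {κ x : ℝ} (hκ : κ * h0 = ken x) (hx : ((536870912 : ℕ) : ℝ) / S ≤ x) (hx' : x ≤ (((536870912 : ℕ) : ℝ) + (50465866 : ℕ)) / S) :
    AltEB 3 κ (eng.v x) (3 / 40) (tnt (h0 * x) (3 / 10)) PP tK tL tC pcB (scP esg pd) [⟨0, 0, 0, 53687091⟩, ⟨1, 1, 0, 53687091⟩, ⟨2, 1, 0, 53687091⟩] 0 1 2 2 0 (sgb true) (sgb true) x := by
  have X : XR 53687091 x := XR.of hx hx' (by norm_num) (by norm_num) (by norm_num) (by norm_num)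
  have hen : 0 < eng.v x := en_pos X.x0.le
  refine CornW.altB (C := cB012E) (j := (2 : Fin 7)) (k := (0 : Fin 7)) (Ef := esg) (pd := pd) (o := 3 / 40)
    (cornW_of (C := cB012E) (C0 := c0B) (En := eng) (mo := mog) (j := (2 : Fin 7)) (k := (0 : Fin 7)) (lo := 0) (hi := 0) (W := 53687091) (N0 := 3) cB012E_q (sideB hx hx') gokB (pinU hx hx') dokB X (by norm_num) (by norm_num) (l := (0 : Fin 7)) rfl
      (gatB20 x) (gatB02 x) (gatB01 x) (datB20 x) (datB02 x) (datB01 x) ?_)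
    (cornS_of (C := cB012E) (C0 := c0B) (j := (2 : Fin 7)) (k := (0 : Fin 7)) (lo := 0) (hi := 0) (W := 53687091) (N0 := 3) cB012E_q (sideB hx hx') gokB X (by norm_num) (by norm_num) (l := (0 : Fin 7)) rfl
      (gatB20 x) (gatB02 x) (gatB01 x) ?_)
    (thU (pinU hx hx')) rfl hκ (fun j q y => tC_eq j q y x) (esg_rng X.x0.le (by linarith [X.b, X.p0])).1 (mo_v x) le_rfl le_rfl
  · intro ρ a B hρ hd i h1 h2
    fin_cases i
    · exact corW_cert (G1 := gB2q0) (G2 := gB0q2) (Ga := gB0q1) (Gb := gB1q1) (D1 := dB2q0) (D2 := dB0q2) (Da := dB0q1) (Db := dB1q1) cB012E_ok B hρ hen (gatB20 x) (gatB02 x) (fun _ => gatB01 x) (fun h => absurd h (by decide)) (datB20 x) (datB02 x) (fun _ => datB01 x) (fun h => absurd h (by decide)) hd hx hx' CW.B012E_200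
    · exact absurd h2 (by norm_num)
    · exact absurd h2 (by norm_num)
    · exact absurd h2 (by norm_num)
    · exact absurd h2 (by norm_num)
    · exact absurd h2 (by norm_num)
  · intro ρ a B hρ hd i h1 h2
    fin_cases i
    · exact corT_cert (G1 := gB2q0) (G2 := gB0q2) (Ga := gB0q1) (Gb := gB1q1) cB012E_ok B hρ (gatB20 x) (gatB02 x) (fun _ => gatB01 x) (fun h => absurd h (by decide)) hd hx hx' CG.B012E_200
    · exact absurd h2 (by norm_num)
    · exact absurd h2 (by norm_num)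
    · exact absurd h2 (by norm_num)
    · exact absurd h2 (by norm_num)
    · exact absurd h2 (by norm_num)

theorem altB_B012E_21 {κ x : ℝ} (hκ : κ * h0 = ken x) (hx : ((536870912 : ℕ) : ℝ) / S ≤ x) (hx' : x ≤ (((536870912 : ℕ) : ℝ) + (50465866 : ℕ)) / S) :
    AltEB 3 κ (eng.v x) (3 / 40) (tnt (h0 * x) (3 / 10)) PP tK tL tC pcB (scP esg pd) [⟨0, 0, 0, 53687091⟩, ⟨1, 1, 0, 53687091⟩, ⟨2, 1, 0, 53687091⟩] 0 1 2 2 1 (sgb true) (sgb true) x := by
  have X : XR 53687091 x := XR.of hx hx' (by norm_num) (by norm_num) (by norm_num) (by norm_num)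
  have hen : 0 < eng.v x := en_pos X.x0.le
  refine CornW.altB (C := cB012E) (j := (2 : Fin 7)) (k := (1 : Fin 7)) (Ef := esg) (pd := pd) (o := 3 / 40)
    (cornW_of (C := cB012E) (C0 := c0B) (En := eng) (mo := mog) (j := (2 : Fin 7)) (k := (1 : Fin 7)) (lo := 0) (hi := 0) (W := 53687091) (N0 := 3) cB012E_q (sideB hx hx') gokB (pinU hx hx') dokB X (by norm_num) (by norm_num) (l := (0 : Fin 7)) rfl
      (gatB20 x) (gatB12 x) (gatB01 x) (datB20 x) (datB12 x) (datB01 x) ?_)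
    (cornS_of (C := cB012E) (C0 := c0B) (j := (2 : Fin 7)) (k := (1 : Fin 7)) (lo := 0) (hi := 0) (W := 53687091) (N0 := 3) cB012E_q (sideB hx hx') gokB X (by norm_num) (by norm_num) (l := (0 : Fin 7)) rfl
      (gatB20 x) (gatB12 x) (gatB01 x) ?_)
    (thU (pinU hx hx')) rfl hκ (fun j q y => tC_eq j q y x) (esg_rng X.x0.le (by linarith [X.b, X.p0])).1 (mo_v x) le_rfl le_rfl
  · intro ρ a B hρ hd i h1 h2
    fin_cases i
    · exact corW_cert (G1 := gB2q0) (G2 := gB1q2) (Ga := gB0q1) (Gb := gB1q1) (D1 := dB2q0) (D2 := dB1q2) (Da := dB0q1) (Db := dB1q1) cB012E_ok B hρ hen (gatB20 x) (gatB12 x) (fun _ => gatB01 x) (fun h => absurd h (by decide)) (datB20 x) (datB12 x) (fun _ => datB01 x) (fun h => absurd h (by decide)) hd hx hx' CW.B012E_210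
    · exact absurd h2 (by norm_num)
    · exact absurd h2 (by norm_num)
    · exact absurd h2 (by norm_num)
    · exact absurd h2 (by norm_num)
    · exact absurd h2 (by norm_num)
  · intro ρ a B hρ hd i h1 h2
    fin_cases i
    · exact corT_cert (G1 := gB2q0) (G2 := gB1q2) (Ga := gB0q1) (Gb := gB1q1) cB012E_ok B hρ (gatB20 x) (gatB12 x) (fun _ => gatB01 x) (fun h => absurd h (by decide)) hd hx hx' CG.B012E_210
    · exact absurd h2 (by norm_num)
    · exact absurd h2 (by norm_num)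
    · exact absurd h2 (by norm_num)
    · exact absurd h2 (by norm_num)
    · exact absurd h2 (by norm_num)

theorem altB_B012E_22 {κ x : ℝ} (hκ : κ * h0 = ken x) (hx : ((536870912 : ℕ) : ℝ) / S ≤ x) (hx' : x ≤ (((536870912 : ℕ) : ℝ) + (50465866 : ℕ)) / S) :
    AltEB 3 κ (eng.v x) (3 / 40) (tnt (h0 * x) (3 / 10)) PP tK tL tC pcB (scP esg pd) [⟨0, 0, 0, 67108864⟩, ⟨1, 1, 0, 67108864⟩, ⟨2, 1, 0, 67108864⟩] 0 1 2 2 2 (sgb true) (sgb true) x := by
  have X : XR 67108864 x := XR.of hx hx' (by norm_num) (by norm_num) (by norm_num) (by norm_num)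
  have hen : 0 < eng.v x := en_pos X.x0.le
  refine CornW.altB (C := cB012E) (j := (2 : Fin 7)) (k := (2 : Fin 7)) (Ef := esg) (pd := pd) (o := 3 / 40)
    (cornW_of (C := cB012E) (C0 := c0B) (En := eng) (mo := mog) (j := (2 : Fin 7)) (k := (2 : Fin 7)) (lo := 0) (hi := 0) (W := 67108864) (N0 := 3) cB012E_q (sideB hx hx') gokB (pinU hx hx') dokB X (by norm_num) (by norm_num) (l := (0 : Fin 7)) rfl
      (gatB20 x) (gatB22 x) (gatB01 x) (datB20 x) (datB22 x) (datB01 x) ?_)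
    (cornS_of (C := cB012E) (C0 := c0B) (j := (2 : Fin 7)) (k := (2 : Fin 7)) (lo := 0) (hi := 0) (W := 67108864) (N0 := 3) cB012E_q (sideB hx hx') gokB X (by norm_num) (by norm_num) (l := (0 : Fin 7)) rfl
      (gatB20 x) (gatB22 x) (gatB01 x) ?_)
    (thU (pinU hx hx')) rfl hκ (fun j q y => tC_eq j q y x) (esg_rng X.x0.le (by linarith [X.b, X.p0])).1 (mo_v x) le_rfl le_rfl
  · intro ρ a B hρ hd i h1 h2
    fin_cases i
    · exact corW_cert (G1 := gB2q0) (G2 := gB2q2) (Ga := gB0q1) (Gb := gB1q1) (D1 := dB2q0) (D2 := dB2q2) (Da := dB0q1) (Db := dB1q1) cB012E_ok B hρ hen (gatB20 x) (gatB22 x) (fun _ => gatB01 x) (fun h => absurd h (by decide)) (datB20 x) (datB22 x) (fun _ => datB01 x) (fun h => absurd h (by decide)) hd hx hx' CW.B012E_220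
    · exact absurd h2 (by norm_num)
    · exact absurd h2 (by norm_num)
    · exact absurd h2 (by norm_num)
    · exact absurd h2 (by norm_num)
    · exact absurd h2 (by norm_num)
  · intro ρ a B hρ hd i h1 h2
    fin_cases i
    · exact corT_cert (G1 := gB2q0) (G2 := gB2q2) (Ga := gB0q1) (Gb := gB1q1) cB012E_ok B hρ (gatB20 x) (gatB22 x) (fun _ => gatB01 x) (fun h => absurd h (by decide)) hd hx hx' CG.B012E_220
    · exact absurd h2 (by norm_num)
    · exact absurd h2 (by norm_num)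
    · exact absurd h2 (by norm_num)
    · exact absurd h2 (by norm_num)
    · exact absurd h2 (by norm_num)

theorem altB_B012E_23 {κ x : ℝ} (hκ : κ * h0 = ken x) (hx : ((536870912 : ℕ) : ℝ) / S ≤ x) (hx' : x ≤ (((536870912 : ℕ) : ℝ) + (50465866 : ℕ)) / S) :
    AltEB 3 κ (eng.v x) (3 / 40) (tnt (h0 * x) (3 / 10)) PP tK tL tC pcB (scP esg pd) [⟨0, 0, 0, 67108864⟩, ⟨1, 1, 0, 67108864⟩, ⟨2, 1, 0, 67108864⟩] 0 1 2 2 3 (sgb true) (sgb true) x := by
  have X : XR 67108864 x := XR.of hx hx' (by norm_num) (by norm_num) (by norm_num) (by norm_num)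
  have hen : 0 < eng.v x := en_pos X.x0.le
  refine CornW.altB (C := cB012E) (j := (2 : Fin 7)) (k := (3 : Fin 7)) (Ef := esg) (pd := pd) (o := 3 / 40)
    (cornW_of (C := cB012E) (C0 := c0B) (En := eng) (mo := mog) (j := (2 : Fin 7)) (k := (3 : Fin 7)) (lo := 0) (hi := 0) (W := 67108864) (N0 := 3) cB012E_q (sideB hx hx') gokB (pinU hx hx') dokB X (by norm_num) (by norm_num) (l := (0 : Fin 7)) rfl
      (gatB20 x) (gatB32 x) (gatB01 x) (datB20 x) (datB32 x) (datB01 x) ?_)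
    (cornS_of (C := cB012E) (C0 := c0B) (j := (2 : Fin 7)) (k := (3 : Fin 7)) (lo := 0) (hi := 0) (W := 67108864) (N0 := 3) cB012E_q (sideB hx hx') gokB X (by norm_num) (by norm_num) (l := (0 : Fin 7)) rfl
      (gatB20 x) (gatB32 x) (gatB01 x) ?_)
    (thU (pinU hx hx')) rfl hκ (fun j q y => tC_eq j q y x) (esg_rng X.x0.le (by linarith [X.b, X.p0])).1 (mo_v x) le_rfl le_rfl
  · intro ρ a B hρ hd i h1 h2
    fin_cases i
    · exact corW_cert (G1 := gB2q0) (G2 := gB3q2) (Ga := gB0q1) (Gb := gB1q1) (D1 := dB2q0) (D2 := dB3q2) (Da := dB0q1) (Db := dB1q1) cB012E_ok B hρ hen (gatB20 x) (gatB32 x) (fun _ => gatB01 x) (fun h => absurd h (by decide)) (datB20 x) (datB32 x) (fun _ => datB01 x) (fun h => absurd h (by decide)) hd hx hx' CW.B012E_230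
    · exact absurd h2 (by norm_num)
    · exact absurd h2 (by norm_num)
    · exact absurd h2 (by norm_num)
    · exact absurd h2 (by norm_num)
    · exact absurd h2 (by norm_num)
  · intro ρ a B hρ hd i h1 h2
    fin_cases i
    · exact corT_cert (G1 := gB2q0) (G2 := gB3q2) (Ga := gB0q1) (Gb := gB1q1) cB012E_ok B hρ (gatB20 x) (gatB32 x) (fun _ => gatB01 x) (fun h => absurd h (by decide)) hd hx hx' CG.B012E_230
    · exact absurd h2 (by norm_num)
    · exact absurd h2 (by norm_num)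
    · exact absurd h2 (by norm_num)
    · exact absurd h2 (by norm_num)
    · exact absurd h2 (by norm_num)

end Pool.Agent.Strip051.G.I5000_5470.Tab
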