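import Pool.Agent.Strip051.G.I5000_5470.DgP

/-! # The corner (1, 1, 2): certificates of the degenerate charts (generated) -/

set_option linter.all false

namespace Pool.Agent.Strip051.G.I5000_5470.Tab.DG

open Pool.Agent.Strip051.PB Pool.Agent.Strip051.PB.Dg Pool.Agent.StripNear Pool.Agent.Strip051.LC

theorem cFA3 : ∃ t, chk3 (onCell 0 232471925 0 1073741824 536870912 50465866 (fdAx false pF (ndUL pF ndF3) (ndUR ndF4) (thLo (ndUL pF ndF3) (ndUR ndF4)))) t 1 1 1 = true :=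
  ⟨(T.b (T.a (T.b (T.l 0) (T.l 0)) (T.b (T.l 0) (T.a (T.l 0) (T.l 0)))) (T.l 3)), by decide +kernel⟩
theorem cFA4 : ∃ t, chk3 (onCell 0 232471925 0 1073741824 536870912 50465866 (fdAx false pF (ndUR ndF4) (ndUR ndF5) (thLo (ndUR ndF4) (ndUR ndF5)))) t 1 1 1 = true :=
  ⟨(T.a (T.a (T.b (T.b (T.l 2) (T.l 0)) (T.b (T.b (T.l 0) (T.b (T.l 0) (T.l 0))) (T.l 3))) (T.b (T.b (T.l 2) (T.l 0)) (T.b (T.b (T.l 0) (T.b (T.l 0) (T.l 0))) (T.l 3)))) (T.b (T.b (T.l 2) (T.a (T.l 0) (T.l 0))) (T.b (T.a (T.b (T.l 0) (T.a (T.l 0) (T.a (T.l 0) (T.l 0)))) (T.b (T.a (T.l 0) (T.l 0)) (T.a (T.b (T.l 0) (T.l 0)) (T.a (T.l 0) (T.l 0))))) (T.l 3)))), by decide +kernel⟩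
theorem cFA5 : ∃ t, chk3 (onCell 0 232471925 0 1073741824 536870912 50465866 (fdAx true pF (ndUR ndF5) (dgSC pF) (thUp (ndUR ndF5) (dgSC pF)))) t 1 1 1 = true :=
  ⟨(T.b (T.l 2) (T.a (T.a (T.l 349520) (T.a (T.l 349520) (T.l 349520))) (T.b (T.b (T.l 2) (T.b (T.l 2) (T.a (T.a (T.a (T.l 0) (T.l 0)) (T.a (T.l 0) (T.l 0))) (T.a (T.a (T.l 1024) (T.l 1024)) (T.l 279616))))) (T.b (T.b (T.c (T.a (T.a (T.a (T.l 0) (T.l 0)) (T.a (T.l 0) (T.l 1024))) (T.a (T.a (T.l 1024) (T.l 1024)) (T.l 1088))) (T.a (T.a (T.l 1024) (T.a (T.l 0) (T.l 0))) (T.a (T.l 263232) (T.l 1088)))) (T.c (T.a (T.a (T.a (T.l 1024) (T.l 1024)) (T.a (T.l 1024) (T.l 1024))) (T.a (T.a (T.l 1088) (T.l 1088)) (T.a (T.l 1088) (T.l 1088)))) (T.a (T.a (T.l 263232) (T.a (T.l 1024) (T.l 1024))) (T.a (T.l 279872) (T.l 279872))))) (T.b (T.c (T.a (T.a (T.a (T.l 1024)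 (T.l 1088)) (T.a (T.l 1344) (T.l 1344))) (T.a (T.a (T.l 1344) (T.l 1344)) (T.a (T.l 1344) (T.l 4)))) (T.a (T.a (T.a (T.l 1024) (T.l 1088)) (T.l 349520)) (T.a (T.l 349520) (T.l 349520)))) (T.c (T.a (T.a (T.a (T.l 349520) (T.a (T.l 349520) (T.l 349520))) (T.a (T.a (T.l 349520) (T.l 349520)) (T.a (T.l 349520) (T.a (T.l 349520) (T.l 349520))))) (T.a (T.a (T.c (T.a (T.l 349520) (T.l 349520)) (T.l 349520)) (T.a (T.l 350032) (T.l 4))) (T.l 4))) (T.a (T.a (T.a (T.l 349520) (T.l 349520)) (T.a (T.l 349520) (T.l 349520))) (T.a (T.a (T.l 349520) (T.l 349520)) (T.l 4))))))))), by decide +kernel⟩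
theorem cFB4 : ∃ t, chk3 (onCell 0 232471925 0 2684354560 536870912 50465866 (fdB true false pF (ndUR ndF4))) t 1 1 1 = true :=
  ⟨(T.b (T.b (T.a (T.b (T.l 0) (T.a (T.l 0) (T.l 0))) (T.b (T.l 2) (T.b (T.a (T.l 0) (T.l 0)) (T.l 4)))) (T.l 4)) (T.a (T.l 4) (T.b (T.l 4) (T.a (T.l 4) (T.l 4))))), by decide +kernel⟩
theorem cFB5 : ∃ t, chk3 (onCell 0 232471925 0 2684354560 536870912 50465866 (fdB true false pF (ndUR ndF5))) t 1 1 1 = true :=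
  ⟨(T.b (T.b (T.l 2) (T.b (T.a (T.b (T.a (T.l 0) (T.l 0)) (T.l 4)) (T.b (T.b (T.l 2) (T.a (T.a (T.l 0) (T.a (T.l 0) (T.l 0))) (T.a (T.l 0) (T.l 0)))) (T.a (T.l 4) (T.l 4)))) (T.l 4))) (T.a (T.l 4) (T.b (T.l 4) (T.a (T.l 4) (T.l 4))))), by decide +kernel⟩
theorem cFB6 : ∃ t, chk3 (onCell 0 232471925 0 2684354560 536870912 50465866 (fdB true true pF (dgSC pF))) t 1 1 1 = true :=
  ⟨(T.b (T.b (T.l 2) (T.b (T.l 2) (T.a (T.a (T.l 349520) (T.a (T.l 349520) (T.a (T.l 349520) (T.l 349520)))) (T.b (T.a (T.a (T.l 349520) (T.l 349520)) (T.a (T.a (T.l 349520) (T.l 349520)) (T.l 6))) (T.l 4))))) (T.b (T.a (T.l 4) (T.a (T.l 4) (T.l 4))) (T.a (T.l 4) (T.a (T.l 4) (T.l 4))))), by decide +kernel⟩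
theorem cFP4 : ∃ t, chk3 (onCell 0 232471925 0 1073741824 536870912 50465866 (fdP true false pF (ndUR ndF4))) t 1 1 1 = true :=
  ⟨(T.b (T.a (T.a (T.l 0) (T.l 0)) (T.a (T.l 0) (T.b (T.l 0) (T.l 0)))) (T.l 2)), by decide +kernel⟩
theorem cFP5 : ∃ t, chk3 (onCell 0 232471925 0 1073741824 536870912 50465866 (fdP true false pF (ndUR ndF5))) t 1 1 1 = true :=
  ⟨(T.a (T.a (T.b (T.l 544) (T.b (T.b (T.l 512) (T.l 0)) (T.l 2))) (T.b (T.l 544) (T.b (T.b (T.l 512) (T.l 0)) (T.l 2)))) (T.b (T.b (T.l 544) (T.a (T.l 512) (T.l 544))) (T.b (T.a (T.b (T.l 512) (T.a (T.l 0) (T.l 0))) (T.b (T.l 544) (T.b (T.l 512) (T.a (T.l 0) (T.l 0))))) (T.l 2)))), by decide +kernel⟩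
theorem cFP6 : ∃ t, chk3 (onCell 0 232471925 0 1073741824 536870912 50465866 (fdP true true pF (dgSC pF))) t 1 1 1 = true :=
  ⟨(T.a (T.a (T.l 349520) (T.l 349520)) (T.b (T.l 349520) (T.a (T.l 349520) (T.l 349520)))), by decide +kernel⟩
theorem cFC1 : ∃ t, chk3 (onCell 0 232471925 0 1073741824 536870912 50465866 (fdU pF ndF3 (thLo (ndUL pF ndF3) (ndUR ndF4)) cvF1 (ndUR ndF4))) t 1 1 1 = true :=
  ⟨(T.a (T.b (T.b (T.b (T.a (T.l 0) (T.l 32768)) (T.l 1)) (T.l 1)) (T.l 1)) (T.b (T.b (T.b (T.b (T.l 164480) (T.a (T.l 163840) (T.l 166528))) (T.l 1)) (T.l 1)) (T.a (T.a (T.l 1) (T.l 3)) (T.l 3)))), by decide +kernel⟩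
theorem cFC2 : ∃ t, chk3 (onCell 0 232471925 0 1073741824 536870912 50465866 (fdU pF ndF3 (thLo (ndUL pF ndF3) (ndUR ndF4)) cvF2 (ndUR ndF4))) t 1 1 1 = true :=
  ⟨(T.a (T.b (T.b (T.l 0) (T.l 1)) (T.l 1)) (T.b (T.b (T.b (T.b (T.l 0) (T.a (T.l 0) (T.l 0))) (T.l 1)) (T.l 1)) (T.a (T.a (T.l 1) (T.l 3)) (T.l 3)))), by decide +kernel⟩
theorem cFC3 : ∃ t, chk3 (onCell 0 232471925 0 1073741824 536870912 50465866 (fdU pF ndF3 (thLo (ndUL pF ndF3) (ndUR ndF4)) cvF3 (ndUR ndF4))) t 1 1 1 = true :=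
  ⟨(T.a (T.b (T.b (T.l 0) (T.l 1)) (T.l 1)) (T.b (T.b (T.b (T.b (T.l 0) (T.a (T.l 0) (T.l 0))) (T.a (T.l 0) (T.l 0))) (T.l 1)) (T.a (T.a (T.l 1) (T.l 3)) (T.l 3)))), by decide +kernel⟩
theorem cNA3 : ∃ t, chk3 (onCell 0 232471925 0 1073741824 536870912 50465866 (fdAW pN qN (ndUL pN ndN3) (ndUR ndN4) (thLo (ndUL pN ndN3) (ndUR ndN4)) (tuLo (ndUL pN ndN3) (ndUR ndN4) (suL qN ndN3) (suR ndN4)))) t 1 1 1 = true :=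
  ⟨(T.b (T.a (T.b (T.l 0) (T.l 0)) (T.b (T.l 0) (T.a (T.l 0) (T.l 0)))) (T.l 3)), by decide +kernel⟩
theorem cNA4 : ∃ t, chk3 (onCell 0 232471925 0 1073741824 536870912 50465866 (fdAW pN qN (ndUR ndN4) (ndUR ndN5) (thLo (ndUR ndN4) (ndUR ndN5)) (tuLo (ndUR ndN4) (ndUR ndN5) (suR ndN4) (suR ndN5)))) t 1 1 1 = true :=
  ⟨(T.a (T.a (T.b (T.b (T.l 2) (T.l 0)) (T.b (T.b (T.l 0) (T.l 0)) (T.l 3))) (T.b (T.b (T.l 2) (T.l 0)) (T.b (T.b (T.l 0) (T.l 0)) (T.l 3)))) (T.b (T.b (T.l 2) (T.a (T.l 0) (T.l 0))) (T.b (T.a (T.b (T.l 0) (T.a (T.l 0) (T.l 0))) (T.b (T.a (T.l 0) (T.l 0)) (T.b (T.l 0) (T.a (T.l 0) (T.l 0))))) (T.l 3)))), by decide +kernel⟩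
theorem cNA5 : ∃ t, chk3 (onCell 0 232471925 0 1073741824 536870912 50465866 (fdAW pN qN (ndUR ndN5) (dgSC pN) (thUp (ndUR ndN5) (dgSC pN)) (tuUp (ndUR ndN5) (dgSC pN) (suR ndN5) (suC qN)))) t 1 1 1 = true :=
  ⟨(T.b (T.l 2) (T.a (T.a (T.b (T.b (T.l 2) (T.l 0)) (T.b (T.a (T.l 0) (T.l 0)) (T.b (T.l 0) (T.b (T.l 0) (T.a (T.l 174760) (T.a (T.l 174760) (T.l 174760))))))) (T.a (T.b (T.b (T.l 2) (T.l 0)) (T.b (T.l 0) (T.b (T.l 0) (T.b (T.l 0) (T.a (T.l 174760) (T.l 174760)))))) (T.b (T.b (T.l 2) (T.l 0)) (T.b (T.l 0) (T.b (T.a (T.l 0) (T.l 0)) (T.b (T.a (T.l 0) (T.l 0)) (T.a (T.l 174760) (T.l 174760)))))))) (T.b (T.b (T.l 2) (T.b (T.l 2) (T.a (T.a (T.a (T.l 0) (T.l 0)) (T.a (T.l 0) (T.l 0))) (T.a (T.a (T.l 0) (T.l 0)) (T.a (T.l 0) (T.l 0)))))) (T.a (T.a (T.b (T.a (T.a (T.l 0) (T.l 0)) (T.a (T.l 0) (T.l 0))) (T.a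 (T.b (T.a (T.l 0) (T.l 0)) (T.b (T.l 131584) (T.a (T.l 174760) (T.l 174760)))) (T.b (T.a (T.l 512) (T.l 0)) (T.a (T.b (T.l 0) (T.a (T.l 174760) (T.l 174760))) (T.b (T.l 0) (T.a (T.l 174760) (T.l 174760))))))) (T.b (T.a (T.b (T.l 0) (T.a (T.l 0) (T.l 0))) (T.b (T.l 0) (T.a (T.l 0) (T.l 0)))) (T.a (T.b (T.b (T.l 512) (T.a (T.l 0) (T.l 0))) (T.a (T.b (T.l 512) (T.a (T.l 174760) (T.l 174760))) (T.b (T.l 512) (T.c (T.l 174760) (T.l 174760))))) (T.b (T.b (T.a (T.l 0) (T.l 0)) (T.a (T.l 0) (T.l 0))) (T.a (T.b (T.l 131616) (T.c (T.l 174760) (T.a (T.l 174760) (T.l 174760)))) (T.b (T.a (T.l 512) (T.l 512)) (T.c (T.l 174760) (T.a (T.l 174760) (T.l 174760))))))))) (T.a (T.b (T.a (T.b (T.l 0) (T.a (T.l 0) (T.l 0))) (T.b (T.l 0) (T.a (T.l 0) (T.l 0)))) (T.a (T.b (T.b (T.a (T.l 0) (T.l 0)) (T.a (T.l 0) (T.l 512))) (T.a (T.b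 (T.a (T.l 512) (T.l 512)) (T.c (T.a (T.l 174760) (T.l 174760)) (T.c (T.l 174760) (T.l 174760)))) (T.b (T.a (T.l 512) (T.l 131616)) (T.c (T.a (T.l 174760) (T.l 174760)) (T.b (T.l 131616) (T.a (T.l 174760) (T.l 174760))))))) (T.b (T.c (T.a (T.l 0) (T.l 512)) (T.a (T.l 512) (T.a (T.l 0) (T.l 0)))) (T.a (T.b (T.c (T.l 512) (T.l 544)) (T.b (T.a (T.l 139808) (T.l 4)) (T.l 4))) (T.l 4))))) (T.b (T.a (T.b (T.a (T.l 0) (T.l 0)) (T.a (T.l 0) (T.l 0))) (T.b (T.a (T.l 0) (T.l 0)) (T.a (T.l 0) (T.l 4)))) (T.a (T.a (T.b (T.b (T.l 0) (T.l 4)) (T.l 4)) (T.l 4)) (T.l 4)))))))), by decide +kernel⟩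
theorem cNB4 : ∃ t, chk3 (onCell 0 232471925 0 2684354560 536870912 50465866 (fdBW pN qN (ndUR ndN4) (suR ndN4))) t 1 1 1 = true :=
  ⟨(T.b (T.b (T.a (T.b (T.l 0) (T.a (T.l 0) (T.l 0))) (T.b (T.l 2) (T.b (T.a (T.l 0) (T.l 0)) (T.l 4)))) (T.l 4)) (T.a (T.l 4) (T.b (T.l 4) (T.a (T.l 4) (T.l 4))))), by decide +kernel⟩
theorem cNB5 : ∃ t, chk3 (onCell 0 232471925 0 2684354560 536870912 50465866 (fdBW pN qN (ndUR ndN5) (suR ndN5))) t 1 1 1 = true :=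
  ⟨(T.b (T.b (T.l 2) (T.b (T.a (T.b (T.a (T.l 0) (T.l 0)) (T.l 4)) (T.b (T.b (T.l 2) (T.a (T.a (T.l 0) (T.l 0)) (T.a (T.l 0) (T.l 0)))) (T.a (T.l 4) (T.l 4)))) (T.l 4))) (T.a (T.l 4) (T.b (T.l 4) (T.a (T.l 4) (T.l 4))))), by decide +kernel⟩
theorem cNB6 : ∃ t, chk3 (onCell 0 232471925 0 2684354560 536870912 50465866 (fdBW pN qN (dgSC pN) (suC qN))) t 1 1 1 = true :=
  ⟨(T.b (T.b (T.l 2) (T.b (T.l 2) (T.a (T.a (T.b (T.b (T.b (T.l 2) (T.b (T.l 2) (T.b (T.c (T.l 0) (T.b (T.l 0) (T.l 174216))) (T.l 174760)))) (T.b (T.l 174760) (T.l 174760))) (T.l 4)) (T.b (T.a (T.b (T.b (T.l 2) (T.b (T.l 2) (T.b (T.b (T.l 0) (T.l 34952)) (T.l 174760)))) (T.a (T.l 174760) (T.l 174760))) (T.b (T.b (T.l 2) (T.b (T.l 2) (T.b (T.a (T.b (T.l 0) (T.l 34816)) (T.b (T.l 0) (T.l 34816))) (T.a (T.l 174216) (T.l 174760))))) (T.b (T.a (T.l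 174760) (T.l 174760)) (T.a (T.l 174760) (T.l 174760))))) (T.l 4))) (T.b (T.a (T.b (T.b (T.l 2) (T.b (T.l 2) (T.a (T.a (T.b (T.a (T.b (T.l 0) (T.l 34816)) (T.b (T.l 0) (T.l 174216))) (T.l 174760)) (T.b (T.b (T.a (T.l 0) (T.a (T.l 0) (T.l 0))) (T.a (T.l 174760) (T.l 174760))) (T.a (T.l 174760) (T.l 174760)))) (T.a (T.b (T.b (T.b (T.l 2) (T.a (T.a (T.l 0) (T.l 0)) (T.a (T.l 0) (T.l 0)))) (T.a (T.l 174760) (T.l 174760))) (T.a (T.l 174760) (T.l 174760))) (T.b (T.b (T.b (T.l 2) (T.a (T.c (T.l 0) (T.a (T.l 0) (T.l 0))) (T.c (T.l 0) (T.b (T.l 2) (T.l 174760))))) (T.a (T.a (T.l 174760) (T.l 174760)) (T.a (T.l 174760) (T.l 174760)))) (T.a (T.l 174760) (T.l 174760))))))) (T.a (T.b (T.a (T.l 174760) (T.l 174760)) (T.l 174760)) (T.b (T.b (T.a (T.l 174760) (T.l 174760)) (T.l 174760)) (T.a (T.l 174760) (T.l 174760))))) (T.a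 (T.a (T.b (T.b (T.l 2) (T.b (T.l 2) (T.b (T.b (T.b (T.l 2) (T.a (T.c (T.a (T.l 0) (T.l 0)) (T.b (T.l 2) (T.l 174760))) (T.a (T.c (T.l 0) (T.b (T.l 2) (T.l 174760))) (T.c (T.l 34816) (T.b (T.l 2) (T.l 174760)))))) (T.a (T.a (T.l 174760) (T.l 174760)) (T.a (T.l 174760) (T.l 6)))) (T.a (T.l 174760) (T.a (T.l 174760) (T.l 6)))))) (T.b (T.a (T.l 174760) (T.a (T.l 174760) (T.l 6))) (T.l 174760))) (T.a (T.b (T.b (T.l 2) (T.b (T.l 2) (T.l 6))) (T.l 6)) (T.l 6))) (T.l 6))) (T.l 4))))) (T.b (T.a (T.l 4) (T.a (T.l 4) (T.l 4))) (T.a (T.l 4) (T.a (T.l 4) (T.l 4))))), by decide +kernel⟩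
theorem cNP4 : ∃ t, chk3 (onCell 0 232471925 0 1073741824 536870912 50465866 (fdPW pN qN (ndUR ndN4) (suR ndN4))) t 1 1 1 = true :=
  ⟨(T.b (T.a (T.a (T.l 0) (T.l 0)) (T.a (T.a (T.l 0) (T.l 0)) (T.b (T.l 0) (T.l 0)))) (T.l 2)), by decide +kernel⟩
theorem cNP5 : ∃ t, chk3 (onCell 0 232471925 0 1073741824 536870912 50465866 (fdPW pN qN (ndUR ndN5) (suR ndN5))) t 1 1 1 = true :=
  ⟨(T.a (T.a (T.b (T.l 512) (T.b (T.a (T.l 0) (T.l 0)) (T.l 2))) (T.b (T.a (T.l 512) (T.l 512)) (T.b (T.a (T.l 0) (T.l 0)) (T.l 2)))) (T.b (T.b (T.l 0) (T.a (T.l 0) (T.l 0))) (T.b (T.a (T.b (T.l 0) (T.a (T.l 0) (T.l 0))) (T.b (T.l 131616) (T.a (T.l 0) (T.l 0)))) (T.l 2)))), by decide +kernel⟩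
theorem cNP6 : ∃ t, chk3 (onCell 0 232471925 0 1073741824 536870912 50465866 (fdPW pN qN (dgSC pN) (suC qN))) t 1 1 1 = true :=
  ⟨(T.a (T.a (T.b (T.l 544) (T.b (T.l 544) (T.b (T.l 0) (T.b (T.l 0) (T.b (T.l 0) (T.c (T.l 0) (T.a (T.l 0) (T.l 0)))))))) (T.b (T.l 544) (T.b (T.l 544) (T.b (T.l 544) (T.b (T.l 174760) (T.b (T.l 174760) (T.a (T.b (T.l 0) (T.l 0)) (T.a (T.l 0) (T.a (T.l 0) (T.l 0)))))))))) (T.b (T.a (T.l 139944) (T.a (T.l 544) (T.l 139808))) (T.b (T.a (T.l 174760) (T.l 174760)) (T.a (T.b (T.l 174760) (T.a (T.b (T.l 174760) (T.b (T.l 174760) (T.b (T.l 174760) (T.a (T.a (T.l 0) (T.l 0)) (T.a (T.l 174760) (T.l 174760)))))) (T.b (T.l 174760) (T.b (T.l 174760) (T.b (T.l 174760) (T.a (T.a (T.l 174760) (T.a (T.l 174760) (T.l 174760))) (T.b (T.l 174760) (T.b (T.l 174760) (T.a (T.l 174760) (T.a (T.l 174760)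 (T.l 174760))))))))))) (T.b (T.l 174760) (T.a (T.b (T.l 174760) (T.b (T.l 174760) (T.a (T.b (T.l 174760) (T.b (T.l 174760) (T.b (T.l 174760) (T.a (T.a (T.l 174760) (T.l 174760)) (T.a (T.l 174760) (T.l 174760)))))) (T.b (T.l 174760) (T.l 3))))) (T.b (T.l 174760) (T.l 3)))))))), by decide +kernel⟩
theorem cNC1 : ∃ t, chk3 (onCell 0 232471925 0 1073741824 536870912 50465866 (fdCW pN qN ndN3 (thLo (ndUL pN ndN3) (ndUR ndN4)) (tuLo (ndUL pN ndN3) (ndUR ndN4) (suL qN ndN3) (suR ndN4)) cvN1 cFsDD1 (ndUR ndN4))) t 1 1 1 = true :=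
  ⟨(T.a (T.b (T.b (T.b (T.a (T.l 0) (T.l 0)) (T.l 1)) (T.l 1)) (T.l 1)) (T.b (T.b (T.b (T.b (T.l 164480) (T.a (T.l 32768) (T.l 164480))) (T.l 1)) (T.l 1)) (T.a (T.a (T.l 1) (T.l 3)) (T.l 3)))), by decide +kernel⟩
theorem cNC2 : ∃ t, chk3 (onCell 0 232471925 0 1073741824 536870912 50465866 (fdCW pN qN ndN3 (thLo (ndUL pN ndN3) (ndUR ndN4)) (tuLo (ndUL pN ndN3) (ndUR ndN4) (suL qN ndN3) (suR ndN4)) cvN2 cFsDD2 (ndUR ndN4))) t 1 1 1 = true :=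
  ⟨(T.a (T.b (T.b (T.l 0) (T.l 1)) (T.l 1)) (T.b (T.b (T.b (T.b (T.l 0) (T.a (T.l 0) (T.l 0))) (T.l 1)) (T.l 1)) (T.a (T.a (T.l 1) (T.l 3)) (T.l 3)))), by decide +kernel⟩
theorem cNC3 : ∃ t, chk3 (onCell 0 232471925 0 1073741824 536870912 50465866 (fdCW pN qN ndN3 (thLo (ndUL pN ndN3) (ndUR ndN4)) (tuLo (ndUL pN ndN3) (ndUR ndN4) (suL qN ndN3) (suR ndN4)) cvN3 cFsDD3 (ndUR ndN4))) t 1 1 1 = true :=
  ⟨(T.a (T.b (T.b (T.l 0) (T.l 1)) (T.l 1)) (T.b (T.b (T.b (T.b (T.l 0) (T.a (T.l 0) (T.l 0))) (T.a (T.l 0) (T.l 0))) (T.l 1)) (T.a (T.a (T.l 1) (T.l 3)) (T.l 3)))), by decide +kernel⟩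

end Pool.Agent.Strip051.G.I5000_5470.Tab.DG
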