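import Pool.Agent.Strip051.G.I5000_5470.DgQ
import Pool.Agent.Strip051.G.I5000_5470.DgX0

/-! # The corner (1, 1, 2): the degenerate instances (generated) -/

set_option linter.all false

namespace Pool.Agent.Strip051.G.I5000_5470.Tab.DG

open Pool.Agent.Strip051.PB Pool.Agent.Strip051.PB.Dg Pool.Agent.StripNear Pool.Agent.Strip051.LC

theorem ctFA3 {x : ℝ} (hx : ((536870912 : ℕ) : ℝ) / S ≤ x) (hx' : x ≤ (((536870912 : ℕ) : ℝ) + (50465866 : ℕ)) / S) : CtAx PP tK tL false pF (ndUL pF ndF3) (ndUR ndF4) (thLo (ndUL pF ndF3) (ndUR ndF4)) 3 67108864 16777216 232471925 1073741824 536870912 50465866 x :=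
  ⟨sdF3, sdF4, thLo_ok sdF3 sdF4, btF, svF, by norm_num, by norm_num, hx, hx', cFA3⟩
theorem ctFA4 {x : ℝ} (hx : ((536870912 : ℕ) : ℝ) / S ≤ x) (hx' : x ≤ (((536870912 : ℕ) : ℝ) + (50465866 : ℕ)) / S) : CtAx PP tK tL false pF (ndUR ndF4) (ndUR ndF5) (thLo (ndUR ndF4) (ndUR ndF5)) 4 67108864 16777216 232471925 1073741824 536870912 50465866 x :=
  ⟨sdF4, sdF5, thLo_ok sdF4 sdF5, btF, svF, by norm_num, by norm_num, hx, hx', cFA4⟩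
theorem ctFA5 {x : ℝ} (hx : ((536870912 : ℕ) : ℝ) / S ≤ x) (hx' : x ≤ (((536870912 : ℕ) : ℝ) + (50465866 : ℕ)) / S) : CtAx PP tK tL true pF (ndUR ndF5) (dgSC pF) (thUp (ndUR ndF5) (dgSC pF)) 5 67108864 16777216 232471925 1073741824 536870912 50465866 x :=
  ⟨sdF5, sdFC, thUp_ok' sdF5 sdFC rfl, tgpF.btU klF, svF, by norm_num, by norm_num, hx, hx', cFA5⟩
theorem ctFB4 {x : ℝ} (hx : ((536870912 : ℕ) : ℝ) / S ≤ x) (hx' : x ≤ (((536870912 : ℕ) : ℝ) + (50465866 : ℕ)) / S) : CtB PP tK tL true false pF (ndUR ndF4) 4 0 67108864 16777216 232471925 2684354560 536870912 50465866 x :=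
  ⟨sdF4, cvokF1, btF, rfl, by show rh 1 ≤ 1; simp [rh]; try norm_num, svF, by norm_num, by norm_num, hx, hx', cFB4⟩
theorem ctFB5 {x : ℝ} (hx : ((536870912 : ℕ) : ℝ) / S ≤ x) (hx' : x ≤ (((536870912 : ℕ) : ℝ) + (50465866 : ℕ)) / S) : CtB PP tK tL true false pF (ndUR ndF5) 5 0 67108864 16777216 232471925 2684354560 536870912 50465866 x :=
  ⟨sdF5, cvokF1, btF, rfl, by show rh 1 ≤ 1; simp [rh]; try norm_num, svF, by norm_num, by norm_num, hx, hx', cFB5⟩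
theorem ctFB6 {x : ℝ} (hx : ((536870912 : ℕ) : ℝ) / S ≤ x) (hx' : x ≤ (((536870912 : ℕ) : ℝ) + (50465866 : ℕ)) / S) : CtB PP tK tL true true pF (dgSC pF) 6 0 67108864 16777216 232471925 2684354560 536870912 50465866 x :=
  ⟨sdFC, cvokF1, tgpF.btN klF, rfl, by show rh 1 ≤ 1; simp [rh]; try norm_num, svF, by norm_num, by norm_num, hx, hx', cFB6⟩
theorem ctFP4 {x : ℝ} (hx : ((536870912 : ℕ) : ℝ) / S ≤ x) (hx' : x ≤ (((536870912 : ℕ) : ℝ) + (50465866 : ℕ)) / S) : CtP PP tK tL true false pF (ndUR ndF4) 4 0 67108864 16777216 232471925 1073741824 536870912 50465866 x :=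
  ⟨sdF4, p1okF, btF, rfl, svF, by norm_num, by norm_num, hx, hx', cFP4⟩
theorem ctFP5 {x : ℝ} (hx : ((536870912 : ℕ) : ℝ) / S ≤ x) (hx' : x ≤ (((536870912 : ℕ) : ℝ) + (50465866 : ℕ)) / S) : CtP PP tK tL true false pF (ndUR ndF5) 5 0 67108864 16777216 232471925 1073741824 536870912 50465866 x :=
  ⟨sdF5, p1okF, btF, rfl, svF, by norm_num, by norm_num, hx, hx', cFP5⟩
theorem ctFP6 {x : ℝ} (hx : ((536870912 : ℕ) : ℝ) / S ≤ x) (hx' : x ≤ (((536870912 : ℕ) : ℝ) + (50465866 : ℕ)) / S) : CtP PP tK tL true true pF (dgSC pF) 6 0 67108864 16777216 232471925 1073741824 536870912 50465866 x :=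
  ⟨sdFC, p1okF, tgpF.btN klF, rfl, svF, by norm_num, by norm_num, hx, hx', cFP6⟩
theorem ctFC1 {x : ℝ} (hx : ((536870912 : ℕ) : ℝ) / S ≤ x) (hx' : x ≤ (((536870912 : ℕ) : ℝ) + (50465866 : ℕ)) / S) : CtU PP tK tL pF ndF3 (thLo (ndUL pF ndF3) (ndUR ndF4)) cvF1 (ndUR ndF4) 1 3 67108864 16777216 232471925 1073741824 536870912 50465866 x :=
  ⟨nlF3, sdF4, grLo _ _, cvokF1, by show rh 1 ≤ 1; simp [rh]; try norm_num, svF, by norm_num, by norm_num, hx, hx', cFC1⟩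
theorem ctFC2 {x : ℝ} (hx : ((536870912 : ℕ) : ℝ) / S ≤ x) (hx' : x ≤ (((536870912 : ℕ) : ℝ) + (50465866 : ℕ)) / S) : CtU PP tK tL pF ndF3 (thLo (ndUL pF ndF3) (ndUR ndF4)) cvF2 (ndUR ndF4) 2 3 67108864 16777216 232471925 1073741824 536870912 50465866 x :=
  ⟨nlF3, sdF4, grLo _ _, cvokF2, by show rh 2 ≤ 1; simp [rh]; try norm_num, svF, by norm_num, by norm_num, hx, hx', cFC2⟩
theorem ctFC3 {x : ℝ} (hx : ((536870912 : ℕ) : ℝ) / S ≤ x) (hx' : x ≤ (((536870912 : ℕ) : ℝ) + (50465866 : ℕ)) / S) : CtU PP tK tL pF ndF3 (thLo (ndUL pF ndF3) (ndUR ndF4)) cvF3 (ndUR ndF4) 3 3 67108864 16777216 232471925 1073741824 536870912 50465866 x :=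
  ⟨nlF3, sdF4, grLo _ _, cvokF3, by show rh 3 ≤ 1; simp [rh]; try norm_num, svF, by norm_num, by norm_num, hx, hx', cFC3⟩
theorem ctNA3 {x : ℝ} (hx : ((536870912 : ℕ) : ℝ) / S ≤ x) (hx' : x ≤ (((536870912 : ℕ) : ℝ) + (50465866 : ℕ)) / S) : CtAW PP tK tL tU (eng.v x) pN qN (ndUL pN ndN3) (ndUR ndN4) (thLo (ndUL pN ndN3) (ndUR ndN4)) (tuLo (ndUL pN ndN3) (ndUR ndN4) (suL qN ndN3) (suR ndN4)) 3 67108864 16777216 232471925 1073741824 536870912 50465866 x :=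
  ⟨sdN3, sdN4, thLo_ok sdN3 sdN4, tuLo_ok sdN3 sdN4 suN3 suN4, svN, by norm_num, by norm_num, hx, hx', cNA3⟩
theorem ctNA4 {x : ℝ} (hx : ((536870912 : ℕ) : ℝ) / S ≤ x) (hx' : x ≤ (((536870912 : ℕ) : ℝ) + (50465866 : ℕ)) / S) : CtAW PP tK tL tU (eng.v x) pN qN (ndUR ndN4) (ndUR ndN5) (thLo (ndUR ndN4) (ndUR ndN5)) (tuLo (ndUR ndN4) (ndUR ndN5) (suR ndN4) (suR ndN5)) 4 67108864 16777216 232471925 1073741824 536870912 50465866 x :=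
  ⟨sdN4, sdN5, thLo_ok sdN4 sdN5, tuLo_ok sdN4 sdN5 suN4 suN5, svN, by norm_num, by norm_num, hx, hx', cNA4⟩
theorem ctNA5 {x : ℝ} (hx : ((536870912 : ℕ) : ℝ) / S ≤ x) (hx' : x ≤ (((536870912 : ℕ) : ℝ) + (50465866 : ℕ)) / S) : CtAW PP tK tL tU (eng.v x) pN qN (ndUR ndN5) (dgSC pN) (thUp (ndUR ndN5) (dgSC pN)) (tuUp (ndUR ndN5) (dgSC pN) (suR ndN5) (suC qN)) 5 67108864 16777216 232471925 1073741824 536870912 50465866 x :=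
  ⟨sdN5, sdNC, thUp_ok' sdN5 sdNC rfl, tuUp_ok sdN5 sdNC suN5 suNC rfl, svN, by norm_num, by norm_num, hx, hx', cNA5⟩
theorem ctNB4 {x : ℝ} (hx : ((536870912 : ℕ) : ℝ) / S ≤ x) (hx' : x ≤ (((536870912 : ℕ) : ℝ) + (50465866 : ℕ)) / S) : CtBW PP tK tL tU (eng.v x) pN qN (ndUR ndN4) (suR ndN4) 4 0 67108864 16777216 232471925 2684354560 536870912 50465866 x :=
  ⟨sdN4, suN4, cvokN1, cvu1, rfl, by show rh 1 ≤ 1; simp [rh]; try norm_num, svN, by norm_num, by norm_num, hx, hx', cNB4⟩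
theorem ctNB5 {x : ℝ} (hx : ((536870912 : ℕ) : ℝ) / S ≤ x) (hx' : x ≤ (((536870912 : ℕ) : ℝ) + (50465866 : ℕ)) / S) : CtBW PP tK tL tU (eng.v x) pN qN (ndUR ndN5) (suR ndN5) 5 0 67108864 16777216 232471925 2684354560 536870912 50465866 x :=
  ⟨sdN5, suN5, cvokN1, cvu1, rfl, by show rh 1 ≤ 1; simp [rh]; try norm_num, svN, by norm_num, by norm_num, hx, hx', cNB5⟩
theorem ctNB6 {x : ℝ} (hx : ((536870912 : ℕ) : ℝ) / S ≤ x) (hx' : x ≤ (((536870912 : ℕ) : ℝ) + (50465866 : ℕ)) / S) : CtBW PP tK tL tU (eng.v x) pN qN (dgSC pN) (suC qN) 6 0 67108864 16777216 232471925 2684354560 536870912 50465866 x :=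
  ⟨sdNC, suNC, cvokN1, cvu1, rfl, by show rh 1 ≤ 1; simp [rh]; try norm_num, svN, by norm_num, by norm_num, hx, hx', cNB6⟩
theorem ctNP4 {x : ℝ} (hx : ((536870912 : ℕ) : ℝ) / S ≤ x) (hx' : x ≤ (((536870912 : ℕ) : ℝ) + (50465866 : ℕ)) / S) : CtPW PP tK tL tU (eng.v x) pN qN (ndUR ndN4) (suR ndN4) 4 0 67108864 16777216 232471925 1073741824 536870912 50465866 x :=
  ⟨sdN4, suN4, p1okN, p1u, rfl, svN, by norm_num, by norm_num, hx, hx', cNP4⟩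
theorem ctNP5 {x : ℝ} (hx : ((536870912 : ℕ) : ℝ) / S ≤ x) (hx' : x ≤ (((536870912 : ℕ) : ℝ) + (50465866 : ℕ)) / S) : CtPW PP tK tL tU (eng.v x) pN qN (ndUR ndN5) (suR ndN5) 5 0 67108864 16777216 232471925 1073741824 536870912 50465866 x :=
  ⟨sdN5, suN5, p1okN, p1u, rfl, svN, by norm_num, by norm_num, hx, hx', cNP5⟩
theorem ctNP6 {x : ℝ} (hx : ((536870912 : ℕ) : ℝ) / S ≤ x) (hx' : x ≤ (((536870912 : ℕ) : ℝ) + (50465866 : ℕ)) / S) : CtPW PP tK tL tU (eng.v x) pN qN (dgSC pN) (suC qN) 6 0 67108864 16777216 232471925 1073741824 536870912 50465866 x :=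
  ⟨sdNC, suNC, p1okN, p1u, rfl, svN, by norm_num, by norm_num, hx, hx', cNP6⟩
theorem ctNC1 {x : ℝ} (hx : ((536870912 : ℕ) : ℝ) / S ≤ x) (hx' : x ≤ (((536870912 : ℕ) : ℝ) + (50465866 : ℕ)) / S) : CtCW PP tK tL tU (eng.v x) pN qN ndN3 (thLo (ndUL pN ndN3) (ndUR ndN4)) (tuLo (ndUL pN ndN3) (ndUR ndN4) (suL qN ndN3) (suR ndN4)) cvN1 cFsDD1 (ndUR ndN4) (suR ndN4) 1 3 67108864 16777216 232471925 1073741824 536870912 50465866 x :=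
  ⟨nlN3, nc3, sdN4, suN4, grLo _ _, guLo _ _ _ _, cvokN1, cvu1, by show rh 1 ≤ 1; simp [rh]; try norm_num, svN, by norm_num, by norm_num, hx, hx', cNC1⟩
theorem ctNC2 {x : ℝ} (hx : ((536870912 : ℕ) : ℝ) / S ≤ x) (hx' : x ≤ (((536870912 : ℕ) : ℝ) + (50465866 : ℕ)) / S) : CtCW PP tK tL tU (eng.v x) pN qN ndN3 (thLo (ndUL pN ndN3) (ndUR ndN4)) (tuLo (ndUL pN ndN3) (ndUR ndN4) (suL qN ndN3) (suR ndN4)) cvN2 cFsDD2 (ndUR ndN4) (suR ndN4) 2 3 67108864 16777216 232471925 1073741824 536870912 50465866 x :=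
  ⟨nlN3, nc3, sdN4, suN4, grLo _ _, guLo _ _ _ _, cvokN2, cvu2, by show rh 2 ≤ 1; simp [rh]; try norm_num, svN, by norm_num, by norm_num, hx, hx', cNC2⟩
theorem ctNC3 {x : ℝ} (hx : ((536870912 : ℕ) : ℝ) / S ≤ x) (hx' : x ≤ (((536870912 : ℕ) : ℝ) + (50465866 : ℕ)) / S) : CtCW PP tK tL tU (eng.v x) pN qN ndN3 (thLo (ndUL pN ndN3) (ndUR ndN4)) (tuLo (ndUL pN ndN3) (ndUR ndN4) (suL qN ndN3) (suR ndN4)) cvN3 cFsDD3 (ndUR ndN4) (suR ndN4) 3 3 67108864 16777216 232471925 1073741824 536870912 50465866 x :=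
  ⟨nlN3, nc3, sdN4, suN4, grLo _ _, guLo _ _ _ _, cvokN3, cvu3, by show rh 3 ≤ 1; simp [rh]; try norm_num, svN, by norm_num, by norm_num, hx, hx', cNC3⟩
theorem thd {x : ℝ} (hx : ((536870912 : ℕ) : ℝ) / S ≤ x) (hx' : x ≤ (((536870912 : ℕ) : ℝ) + (50465866 : ℕ)) / S) : ThrD PP tC tU pd esg 3 (mog.v x) (3 / 40) x :=
  ⟨thU (pinU hx hx'), fun j q y => tbF_sc j q y x, (esg_rng (xr hx hx').1.le (xr hx hx').2.le).1, mo_v x⟩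
theorem dgB_A123_01 {κ x : ℝ} {f : ℝ → ℝ} (hκ : κ * h0 = ken x) (hx : ((536870912 : ℕ) : ℝ) / S ≤ x) (hx' : x ≤ (((536870912 : ℕ) : ℝ) + (50465866 : ℕ)) / S) :
    SgA (VEA 3 κ (eng.v x) (3 / 40) f PP tK tL tC pcB (scP esg pd) 1 2 0 1) PP tK tL pcB 1 2 0 1 true 3 67108864 16777216 x :=
  (sgC1W (bsN hx hx') (ctNC1 hx hx')).ve rfl (Or.inl rfl) (Or.inr rfl) (sideB hx hx') hκ (thd hx hx') (sgU1 (bsF hx hx') (ctFC1 hx hx'))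
theorem dgB_A123_02 {κ x : ℝ} {f : ℝ → ℝ} (hκ : κ * h0 = ken x) (hx : ((536870912 : ℕ) : ℝ) / S ≤ x) (hx' : x ≤ (((536870912 : ℕ) : ℝ) + (50465866 : ℕ)) / S) :
    SgA (VEA 3 κ (eng.v x) (3 / 40) f PP tK tL tC pcB (scP esg pd) 1 2 0 2) PP tK tL pcB 1 2 0 2 true 3 67108864 16777216 x :=
  (sgC1W (bsN hx hx') (ctNC2 hx hx')).ve rfl (Or.inl rfl) (Or.inr rfl) (sideB hx hx') hκ (thd hx hx') (sgU1 (bsF hx hx') (ctFC2 hx hx'))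
theorem dgB_A123_03 {κ x : ℝ} {f : ℝ → ℝ} (hκ : κ * h0 = ken x) (hx : ((536870912 : ℕ) : ℝ) / S ≤ x) (hx' : x ≤ (((536870912 : ℕ) : ℝ) + (50465866 : ℕ)) / S) :
    SgA (VEA 3 κ (eng.v x) (3 / 40) f PP tK tL tC pcB (scP esg pd) 1 2 0 3) PP tK tL pcB 1 2 0 3 true 3 67108864 16777216 x :=
  (sgC1W (bsN hx hx') (ctNC3 hx hx')).ve rfl (Or.inl rfl) (Or.inr rfl) (sideB hx hx') hκ (thd hx hx') (sgU1 (bsF hx hx') (ctFC3 hx hx'))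
theorem dgB_B123_04p {κ x : ℝ} {f : ℝ → ℝ} (hκ : κ * h0 = ken x) (hx : ((536870912 : ℕ) : ℝ) / S ≤ x) (hx' : x ≤ (((536870912 : ℕ) : ℝ) + (50465866 : ℕ)) / S) :
    SgBl (VEB 3 κ (eng.v x) (3 / 40) f PP tK tL tC pcB (scP esg pd) 1 2 0 4 true) PP tK tL pcB .npn 1 2 0 4 true 0 67108864 16777216 x :=
  Sg12BlW.ve rfl (Or.inl rfl) (Or.inr rfl) (sideB hx hx') hκ (thd hx hx') (sgB1W (bsN hx hx') (ctNB4 hx hx')) (sgB1 (bsF hx hx') (ctFB4 hx hx'))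
theorem dgB_B213_04m {κ x : ℝ} {f : ℝ → ℝ} (hκ : κ * h0 = ken x) (hx : ((536870912 : ℕ) : ℝ) / S ≤ x) (hx' : x ≤ (((536870912 : ℕ) : ℝ) + (50465866 : ℕ)) / S) :
    SgB (VEB 3 κ (eng.v x) (3 / 40) f PP tK tL tC pcB (scP esg pd) 2 1 0 4 false) PP tK tL pcB 2 1 0 4 false 0 67108864 16777216 x :=
  (sgP1W (bsN hx hx') (ctNP4 hx hx')).ve rfl (Or.inr rfl) (Or.inl rfl) (sideB hx hx') hκ (thd hx hx') (sgP1 (bsF hx hx') (ctFP4 hx hx'))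
theorem dgB_B123_05p {κ x : ℝ} {f : ℝ → ℝ} (hκ : κ * h0 = ken x) (hx : ((536870912 : ℕ) : ℝ) / S ≤ x) (hx' : x ≤ (((536870912 : ℕ) : ℝ) + (50465866 : ℕ)) / S) :
    SgBl (VEB 3 κ (eng.v x) (3 / 40) f PP tK tL tC pcB (scP esg pd) 1 2 0 5 true) PP tK tL pcB .npn 1 2 0 5 true 0 67108864 16777216 x :=
  Sg12BlW.ve rfl (Or.inl rfl) (Or.inr rfl) (sideB hx hx') hκ (thd hx hx') (sgB1W (bsN hx hx') (ctNB5 hx hx')) (sgB1 (bsF hx hx') (ctFB5 hx hx'))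
theorem dgB_B213_05m {κ x : ℝ} {f : ℝ → ℝ} (hκ : κ * h0 = ken x) (hx : ((536870912 : ℕ) : ℝ) / S ≤ x) (hx' : x ≤ (((536870912 : ℕ) : ℝ) + (50465866 : ℕ)) / S) :
    SgB (VEB 3 κ (eng.v x) (3 / 40) f PP tK tL tC pcB (scP esg pd) 2 1 0 5 false) PP tK tL pcB 2 1 0 5 false 0 67108864 16777216 x :=
  (sgP1W (bsN hx hx') (ctNP5 hx hx')).ve rfl (Or.inr rfl) (Or.inl rfl) (sideB hx hx') hκ (thd hx hx') (sgP1 (bsF hx hx') (ctFP5 hx hx'))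
theorem dgB_B123_06p {κ x : ℝ} {f : ℝ → ℝ} (hκ : κ * h0 = ken x) (hx : ((536870912 : ℕ) : ℝ) / S ≤ x) (hx' : x ≤ (((536870912 : ℕ) : ℝ) + (50465866 : ℕ)) / S) :
    SgBl (VEB 3 κ (eng.v x) (3 / 40) f PP tK tL tC pcB (scP esg pd) 1 2 0 6 true) PP tK tL pcB .npn 1 2 0 6 true 0 67108864 16777216 x :=
  Sg12BlW.ve rfl (Or.inl rfl) (Or.inr rfl) (sideB hx hx') hκ (thd hx hx') (sgB1W (bsN hx hx') (ctNB6 hx hx')) (sgB1 (bsF hx hx') (ctFB6 hx hx'))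
theorem dgB_B213_06m {κ x : ℝ} {f : ℝ → ℝ} (hκ : κ * h0 = ken x) (hx : ((536870912 : ℕ) : ℝ) / S ≤ x) (hx' : x ≤ (((536870912 : ℕ) : ℝ) + (50465866 : ℕ)) / S) :
    SgB (VEB 3 κ (eng.v x) (3 / 40) f PP tK tL tC pcB (scP esg pd) 2 1 0 6 false) PP tK tL pcB 2 1 0 6 false 0 67108864 16777216 x :=
  (sgP1W (bsN hx hx') (ctNP6 hx hx')).ve rfl (Or.inr rfl) (Or.inl rfl) (sideB hx hx') hκ (thd hx hx') (sgP1 (bsF hx hx') (ctFP6 hx hx'))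
theorem alt12B_A123_00 {κ x : ℝ} {f : ℝ → ℝ} (hκ : κ * h0 = ken x) (hx : ((536870912 : ℕ) : ℝ) / S ≤ x) (hx' : x ≤ (((536870912 : ℕ) : ℝ) + (50465866 : ℕ)) / S) :
    AltEA 3 κ (eng.v x) (3 / 40) f PP tK tL tC pcB (scP esg pd) [⟨0, 1, 0, 67108864⟩, ⟨1, 1, 0, 67108864⟩, ⟨2, 2, 0, 16777216⟩] 1 2 3 0 0 (sgb true) (sgb false) x := by
  refine altEA12 (altA12 (loc123 (m := 3) (by show rh 3 ≤ 1; simp [rh]; try norm_num) (by show rh 0 ≤ 1; simp [rh]; try norm_num) (fun i hi => ?_)))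
  fin_cases i
  · exact absurd hi (by decide)
  · exact absurd hi (by decide)
  · exact absurd hi (by decide)
  · exact (sgA1W (bsN hx hx') (ctNA3 hx hx')).ve rfl (Or.inl rfl) (Or.inr rfl) (sideB hx hx') hκ (thd hx hx') (sgA1x (bsF hx hx') (ctFA3 hx hx'))
  · exact (sgA1W (bsN hx hx') (ctNA4 hx hx')).ve rfl (Or.inl rfl) (Or.inr rfl) (sideB hx hx') hκ (thd hx hx') (sgA1x (bsF hx hx') (ctFA4 hx hx'))
  · exact (sgA1W (bsN hx hx') (ctNA5 hx hx')).ve rfl (Or.inl rfl) (Or.inr rfl) (sideB hx hx') hκ (thd hx hx') (sgA1x (bsF hx hx') (ctFA5 hx hx'))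
theorem alt12B_A213_00 {κ x : ℝ} {f : ℝ → ℝ} (hκ : κ * h0 = ken x) (hx : ((536870912 : ℕ) : ℝ) / S ≤ x) (hx' : x ≤ (((536870912 : ℕ) : ℝ) + (50465866 : ℕ)) / S) :
    AltEA 3 κ (eng.v x) (3 / 40) f PP tK tL tC pcB (scP esg pd) [⟨0, 1, 0, 67108864⟩, ⟨1, 1, 0, 67108864⟩, ⟨2, 2, 0, 16777216⟩] 2 1 3 0 0 (sgb true) (sgb false) x := by
  refine altEA12 (altA12 (loc213 (m := 3) (by show rh 3 ≤ 1; simp [rh]; try norm_num) (by show rh 0 ≤ 1; simp [rh]; try norm_num) (fun i hi => ?_)))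
  fin_cases i
  · exact absurd hi (by decide)
  · exact absurd hi (by decide)
  · exact absurd hi (by decide)
  · exact (sgA2W (bsN hx hx') (ctNA3 hx hx')).ve rfl (Or.inr rfl) (Or.inl rfl) (sideB hx hx') hκ (thd hx hx') (sgA2x (bsF hx hx') (ctFA3 hx hx'))
  · exact (sgA2W (bsN hx hx') (ctNA4 hx hx')).ve rfl (Or.inr rfl) (Or.inl rfl) (sideB hx hx') hκ (thd hx hx') (sgA2x (bsF hx hx') (ctFA4 hx hx'))
  · exact (sgA2W (bsN hx hx') (ctNA5 hx hx')).ve rfl (Or.inr rfl) (Or.inl rfl) (sideB hx hx') hκ (thd hx hx') (sgA2x (bsF hx hx') (ctFA5 hx hx'))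

end Pool.Agent.Strip051.G.I5000_5470.Tab.DG
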