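import Pool.Agent.Strip051.PB.Cuts

/-! # Tables I5000_5470 (generated) -/

namespace Pool.Agent.Strip051.G.I5000_5470.Tab

open Pool.Agent.Strip051.PB

noncomputable def c1g : Fn1 := ⟨_, _, fun h1 => (enc_sqrtg (enc_sub (enc_pnc _ 1) (enc_scale 3 4 (enc_sq h1))))⟩
noncomputable def kcg_3 : Fn2 := ⟨_, _, fun h1 h2 => (enc_subr 1047 2000 h2)⟩
noncomputable def kcg_6 : Fn2 := ⟨_, _, fun h1 h2 => (enc_add h1 (enc_rat _ 1 4))⟩
noncomputable def kcg_9 : Fn2 := ⟨_, _, fun h1 h2 => (enc_add h1 (enc_rat _ 2 5))⟩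
noncomputable def kcg_12 : Fn2 := ⟨_, _, fun h1 h2 => (enc_add h1 (enc_rat _ 9 20))⟩
noncomputable def kcg_13 : Fn2 := ⟨_, _, fun h1 h2 => (enc_scale 937 2000 h1)⟩
noncomputable def kcg_16 : Fn2 := ⟨_, _, fun h1 h2 => (enc_scale 187383 125000 h1)⟩
noncomputable def kcg_28 : Fn2 := ⟨_, _, fun h1 h2 => (enc_sub (enc_rat _ 4407147 500000) (enc_scale 599321 20000 (kcg_3.enc h1 h2)))⟩
noncomputable def kcg_36 : Fn2 := ⟨_, _, fun h1 h2 => (enc_scale 5448513 5000000 h1)⟩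
noncomputable def kcg_41 : Fn2 := ⟨_, _, fun h1 h2 => (enc_scale 181 500000 h1)⟩
noncomputable def kcg_53 : Fn2 := ⟨_, _, fun h1 h2 => (enc_sub (enc_rat _ 4469951 200000) (enc_scale 801 100000 (kcg_3.enc h1 h2)))⟩
noncomputable def kcg_61 : Fn2 := ⟨_, _, fun h1 h2 => (enc_add h1 (enc_rat _ 7 20))⟩
noncomputable def kcg_62 : Fn2 := ⟨_, _, fun h1 h2 => (enc_scale 14471963 5000000 h1)⟩
noncomputable def kcg_67 : Fn2 := ⟨_, _, fun h1 h2 => (enc_scale 237033 500000 h1)⟩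
noncomputable def kcg_78 : Fn2 := ⟨_, _, fun h1 h2 => (enc_sub (enc_rat _ 13744047 1000000) (enc_scale 474027 50000 (kcg_3.enc h1 h2)))⟩
noncomputable def kcg_85 : Fn2 := ⟨_, _, fun h1 h2 => (enc_add h1 (enc_rat _ 3 10))⟩
noncomputable def kcg_86 : Fn2 := ⟨_, _, fun h1 h2 => (enc_scale 11841387 5000000 h1)⟩
noncomputable def kcg_91 : Fn2 := ⟨_, _, fun h1 h2 => (enc_scale 3 100000 h1)⟩
noncomputable def kcg_102 : Fn2 := ⟨_, _, fun h1 h2 => (enc_subr 1516647 62500 (enc_scale 1896249 100000 (kcg_3.enc h1 h2)))⟩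
noncomputable def kcg_107 : Fn2 := ⟨_, _, fun h1 h2 => (enc_scale 705457 5000000 h1)⟩
noncomputable def kcg_111 : Fn2 := ⟨_, _, fun h1 h2 => (enc_scale 59261 125000 h1)⟩
noncomputable def kcg_124 : Fn2 := ⟨_, _, fun h1 h2 => (enc_subr 25921021 1000000 (enc_neg (enc_scale 189627 20000 (kcg_3.enc h1 h2))))⟩
noncomputable def kcg_134 : Fn2 := ⟨_, _, fun h1 h2 => (enc_add h1 (enc_rat _ 3 20))⟩
noncomputable def kcg_137 : Fn2 := ⟨_, _, fun h1 h2 => (enc_add h1 (enc_rat _ 1 5))⟩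
noncomputable def kcg_138 : Fn2 := ⟨_, _, fun h1 h2 => (enc_scale 7827703 5000000 h1)⟩
noncomputable def kcg_141 : Fn2 := ⟨_, _, fun h1 h2 => (enc_scale 127 250000 h1)⟩
noncomputable def kcg_153 : Fn2 := ⟨_, _, fun h1 h2 => (enc_subr 2567961 1000000 (enc_neg (enc_scale 211 20000 (kcg_3.enc h1 h2))))⟩
noncomputable def kcg_158 : Fn2 := ⟨_, _, fun h1 h2 => (enc_scale 4777917 5000000 h1)⟩
noncomputable def kcg_161 : Fn2 := ⟨_, _, fun h1 h2 => (enc_scale 1 500000 h1)⟩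
noncomputable def kcg_171 : Fn2 := ⟨_, _, fun h1 h2 => (enc_add (enc_scale 83 4000 (kcg_3.enc h1 h2)) (enc_rat _ 14767103 1000000))⟩
noncomputable def kcg_179 : Fn2 := ⟨_, _, fun h1 h2 => (enc_add h1 (enc_rat _ 1 10))⟩
noncomputable def kcg_180 : Fn2 := ⟨_, _, fun h1 h2 => (enc_scale 123607 2500000 h1)⟩
noncomputable def kcg_185 : Fn2 := ⟨_, _, fun h1 h2 => (enc_scale 2499737 500000 h1)⟩
noncomputable def kcg_195 : Fn2 := ⟨_, _, fun h1 h2 => (enc_sub (enc_rat _ 2666709 500000) (enc_scale 5000513 50000 (kcg_3.enc h1 h2)))⟩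
noncomputable def kcg_203 : Fn2 := ⟨_, _, fun h1 h2 => (enc_scale 243153 1250000 h1)⟩
noncomputable def kcg_207 : Fn2 := ⟨_, _, fun h1 h2 => (enc_scale 2499997 500000 h1)⟩
noncomputable def kcg_216 : Fn2 := ⟨_, _, fun h1 h2 => (enc_subr 10212721 1000000 (enc_scale 9999987 100000 (kcg_3.enc h1 h2)))⟩
noncomputable def kcg_221 : Fn2 := ⟨_, _, fun h1 h2 => (enc_scale 3525793 5000000 h1)⟩
noncomputable def kcg_228 : Fn2 := ⟨_, _, fun h1 h2 => (enc_sub (enc_rat _ 1 4) h1)⟩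
noncomputable def kcg_229 : Fn2 := ⟨_, _, fun h1 h2 => (enc_sub (enc_rat _ 2 5) h1)⟩
noncomputable def kcg_230 : Fn2 := ⟨_, _, fun h1 h2 => (enc_sub (enc_rat _ 9 20) h1)⟩
noncomputable def kcg_250 : Fn2 := ⟨_, _, fun h1 h2 => (enc_sub (enc_rat _ 7 20) h1)⟩
noncomputable def kcg_260 : Fn2 := ⟨_, _, fun h1 h2 => (enc_sub (enc_rat _ 3 10) h1)⟩
noncomputable def kcg_281 : Fn2 := ⟨_, _, fun h1 h2 => (enc_sub (enc_rat _ 3 20) h1)⟩
noncomputable def kcg_282 : Fn2 := ⟨_, _, fun h1 h2 => (enc_sub (enc_rat _ 1 5) h1)⟩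
noncomputable def kcg_303 : Fn2 := ⟨_, _, fun h1 h2 => (enc_sub (enc_rat _ 1 10) h1)⟩
noncomputable def kcg : Fn2 := ⟨_, _, fun h1 h2 => (enc_norm (enc_case h1 (enc_case (kcg_6.enc h1 h2) (enc_case (kcg_9.enc h1 h2) (enc_case (kcg_12.enc h1 h2) (enc_add (enc_add (enc_add (kcg_13.enc h1 h2) (enc_rat _ 7056419 20000000)) (enc_mul (enc_norm (kcg_3.enc h1 h2)) (enc_norm (enc_subr 367049 312500 (enc_neg (kcg_16.enc h1 h2)))))) (enc_mul (enc_norm (kcg_28.enc h1 h2)) (enc_norm (enc_mul (enc_norm (enc_add h1 (enc_rat _ 1 2))) (enc_norm (enc_sub (enc_neg (enc_rat _ 9 20)) h1)))))) (enc_add (enc_add (enc_subr 17418511 50000000 (enc_neg (kcg_36.enc h1 h2))) (enc_mul (enc_norm (kcg_3.enc h1 h2)) (enc_norm (enc_subr 5001409 10000000 (enc_neg (kcg_41.enc h1 h2)))))) (enc_mul (enc_norm (kcg_53.enc h1 h2)) (enc_norm (enc_mul (enc_norm (kcg_12.enc h1 h2)) (enc_norm (enc_sub (enc_neg (enc_rat _ 2 5))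 h1))))))) (enc_case (kcg_61.enc h1 h2) (enc_add (enc_add (enc_subr 53512311 50000000 (enc_neg (kcg_62.enc h1 h2))) (enc_mul (enc_norm (kcg_3.enc h1 h2)) (enc_norm (enc_subr 3103697 10000000 (kcg_67.enc h1 h2))))) (enc_mul (enc_norm (kcg_78.enc h1 h2)) (enc_norm (enc_mul (enc_norm (kcg_9.enc h1 h2)) (enc_norm (enc_sub (enc_neg (enc_rat _ 7 20)) h1)))))) (enc_case (kcg_85.enc h1 h2) (enc_add (enc_add (enc_subr 8861059 10000000 (enc_neg (kcg_86.enc h1 h2))) (enc_mul (enc_norm (kcg_3.enc h1 h2)) (enc_norm (enc_subr 4763033 10000000 (enc_neg (kcg_91.enc h1 h2)))))) (enc_mul (enc_norm (kcg_102.enc h1 h2)) (enc_norm (enc_mul (enc_norm (kcg_61.enc h1 h2)) (enc_norm (enc_sub (enc_neg (enc_rat _ 3 10)) h1)))))) (enc_add (enc_add (enc_subr 6664763 50000000 (kcg_107.enc h1 h2)) (enc_mul (enc_norm (kcg_3.enc h1 h2)) (enc_norm (enc_subr 6185207 10000000 (enc_neg (kcg_111.enc h1 h2)))))) (enc_mul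 (enc_norm (kcg_124.enc h1 h2)) (enc_norm (enc_mul (enc_norm (kcg_85.enc h1 h2)) (enc_norm (enc_sub (enc_neg (enc_rat _ 1 4)) h1))))))))) (enc_case (kcg_134.enc h1 h2) (enc_case (kcg_137.enc h1 h2) (enc_add (enc_add (enc_add (kcg_138.enc h1 h2) (enc_rat _ 2785213 12500000)) (enc_mul (enc_norm (kcg_3.enc h1 h2)) (enc_norm (enc_subr 4998717 10000000 (kcg_141.enc h1 h2))))) (enc_mul (enc_norm (kcg_153.enc h1 h2)) (enc_norm (enc_mul (enc_norm (kcg_6.enc h1 h2)) (enc_norm (enc_sub (enc_neg (enc_rat _ 1 5)) h1)))))) (enc_add (enc_add (enc_add (kcg_158.enc h1 h2) (enc_rat _ 7877 78125)) (enc_mul (enc_norm (kcg_3.enc h1 h2)) (enc_norm (enc_subr 4999737 10000000 (enc_neg (kcg_161.enc h1 h2)))))) (enc_mul (enc_norm (kcg_171.enc h1 h2)) (enc_norm (enc_mul (enc_norm (kcg_137.enc h1 h2)) (enc_norm (enc_sub (enc_neg (enc_rat _ 3 20)) h1))))))) (enc_case (kcg_179.enc h1 h2) (enc_add (enc_add (enc_subr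 4992833 100000000 (enc_neg (kcg_180.enc h1 h2))) (enc_mul (enc_norm (kcg_3.enc h1 h2)) (enc_norm (enc_add (kcg_185.enc h1 h2) (enc_rat _ 2499477 10000000))))) (enc_mul (enc_norm (kcg_195.enc h1 h2)) (enc_norm (enc_mul (enc_norm (kcg_134.enc h1 h2)) (enc_norm (enc_sub (enc_neg (enc_rat _ 1 10)) h1)))))) (enc_case (enc_add h1 (enc_rat _ 1 20)) (enc_add (enc_add (enc_subr 2553181 100000000 (kcg_203.enc h1 h2)) (enc_mul (enc_norm (kcg_3.enc h1 h2)) (enc_norm (enc_add (kcg_207.enc h1 h2) (enc_rat _ 2499997 10000000))))) (enc_mul (enc_norm (kcg_216.enc h1 h2)) (enc_norm (enc_mul (enc_norm (kcg_179.enc h1 h2)) (enc_norm (enc_sub (enc_neg (enc_rat _ 1 20)) h1)))))) (kcg_221.enc h1 h2))))) (enc_neg (enc_case (kcg_228.enc h1 h2) (enc_case (kcg_229.enc h1 h2) (enc_case (kcg_230.enc h1 h2) (enc_add (enc_add (enc_sub (enc_rat _ 7056419 20000000) (kcg_13.enc h1 h2)) (enc_mul (enc_norm (kcg_3.enc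 h1 h2)) (enc_norm (enc_subr 367049 312500 (kcg_16.enc h1 h2))))) (enc_mul (enc_norm (kcg_28.enc h1 h2)) (enc_norm (enc_mul (enc_norm (enc_sub (enc_rat _ 1 2) h1)) (enc_norm (enc_subr 9 20 h1)))))) (enc_add (enc_add (enc_subr 17418511 50000000 (kcg_36.enc h1 h2)) (enc_mul (enc_norm (kcg_3.enc h1 h2)) (enc_norm (enc_subr 5001409 10000000 (kcg_41.enc h1 h2))))) (enc_mul (enc_norm (kcg_53.enc h1 h2)) (enc_norm (enc_mul (enc_norm (kcg_230.enc h1 h2)) (enc_norm (enc_subr 2 5 h1))))))) (enc_case (kcg_250.enc h1 h2) (enc_add (enc_add (enc_subr 53512311 50000000 (kcg_62.enc h1 h2)) (enc_mul (enc_norm (kcg_3.enc h1 h2)) (enc_norm (enc_subr 3103697 10000000 (enc_neg (kcg_67.enc h1 h2)))))) (enc_mul (enc_norm (kcg_78.enc h1 h2)) (enc_norm (enc_mul (enc_norm (kcg_229.enc h1 h2)) (enc_norm (enc_subr 7 20 h1)))))) (enc_case (kcg_260.enc h1 h2) (enc_add (enc_add (enc_subr 8861059 10000000 (kcg_86.enc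 h1 h2)) (enc_mul (enc_norm (kcg_3.enc h1 h2)) (enc_norm (enc_subr 4763033 10000000 (kcg_91.enc h1 h2))))) (enc_mul (enc_norm (kcg_102.enc h1 h2)) (enc_norm (enc_mul (enc_norm (kcg_250.enc h1 h2)) (enc_norm (enc_subr 3 10 h1)))))) (enc_add (enc_add (enc_subr 6664763 50000000 (enc_neg (kcg_107.enc h1 h2))) (enc_mul (enc_norm (kcg_3.enc h1 h2)) (enc_norm (enc_subr 6185207 10000000 (kcg_111.enc h1 h2))))) (enc_mul (enc_norm (kcg_124.enc h1 h2)) (enc_norm (enc_mul (enc_norm (kcg_260.enc h1 h2)) (enc_norm (enc_subr 1 4 h1))))))))) (enc_case (kcg_281.enc h1 h2) (enc_case (kcg_282.enc h1 h2) (enc_add (enc_add (enc_sub (enc_rat _ 2785213 12500000) (kcg_138.enc h1 h2)) (enc_mul (enc_norm (kcg_3.enc h1 h2)) (enc_norm (enc_subr 4998717 10000000 (enc_neg (kcg_141.enc h1 h2)))))) (enc_mul (enc_norm (kcg_153.enc h1 h2)) (enc_norm (enc_mul (enc_norm (kcg_228.enc h1 h2)) (enc_norm (enc_subr 1 5 h1))))))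 (enc_add (enc_add (enc_sub (enc_rat _ 7877 78125) (kcg_158.enc h1 h2)) (enc_mul (enc_norm (kcg_3.enc h1 h2)) (enc_norm (enc_subr 4999737 10000000 (kcg_161.enc h1 h2))))) (enc_mul (enc_norm (kcg_171.enc h1 h2)) (enc_norm (enc_mul (enc_norm (kcg_282.enc h1 h2)) (enc_norm (enc_subr 3 20 h1))))))) (enc_case (kcg_303.enc h1 h2) (enc_add (enc_add (enc_subr 4992833 100000000 (kcg_180.enc h1 h2)) (enc_mul (enc_norm (kcg_3.enc h1 h2)) (enc_norm (enc_sub (enc_rat _ 2499477 10000000) (kcg_185.enc h1 h2))))) (enc_mul (enc_norm (kcg_195.enc h1 h2)) (enc_norm (enc_mul (enc_norm (kcg_281.enc h1 h2)) (enc_norm (enc_subr 1 10 h1)))))) (enc_case (enc_sub (enc_rat _ 1 20) h1) (enc_add (enc_add (enc_subr 2553181 100000000 (enc_neg (kcg_203.enc h1 h2))) (enc_mul (enc_norm (kcg_3.enc h1 h2)) (enc_norm (enc_sub (enc_rat _ 2499997 10000000) (kcg_207.enc h1 h2))))) (enc_mul (enc_norm (kcg_216.enc h1 h2))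 (enc_norm (enc_mul (enc_norm (kcg_303.enc h1 h2)) (enc_norm (enc_subr 1 20 h1)))))) (enc_neg (kcg_221.enc h1 h2)))))))))⟩
noncomputable def kf0q0_9 : Fn2 := ⟨_, _, fun h1 h2 => (enc_scale 3 2 h1)⟩
noncomputable def kf0q0_12 : Fn2 := ⟨_, _, fun h1 h2 => (enc_add (enc_pnc _ 1) (c1g.enc h1))⟩
noncomputable def kf0q0 : Fn2 := ⟨_, _, fun h1 h2 => (enc_norm (enc_add (enc_mul (enc_norm (enc_mul (enc_norm (enc_sub (c1g.enc h1) (kf0q0_9.enc h1 h2))) (enc_norm (kf0q0_12.enc h1 h2)))) (enc_inv (enc_sub (kf0q0_12.enc h1 h2) (kf0q0_9.enc h1 h2)))) (enc_mul h1 (kcg.enc (enc_norm (enc_sub (enc_scale 3 4 h1) (enc_half (c1g.enc h1)))) h2))))⟩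
noncomputable def txg_4 : Fn3 := ⟨_, _, fun h1 h2 h3 => (enc_subr 1047 2000 h3)⟩
noncomputable def txg_6 : Fn3 := ⟨_, _, fun h1 h2 h3 => (enc_add h1 (enc_half h2))⟩
noncomputable def txg_27 : Fn3 := ⟨_, _, fun h1 h2 h3 => (enc_add h1 (enc_rat _ 13 50))⟩
noncomputable def txg_30 : Fn3 := ⟨_, _, fun h1 h2 h3 => (enc_add h1 (enc_rat _ 19 50))⟩
noncomputable def txg_33 : Fn3 := ⟨_, _, fun h1 h2 h3 => (enc_add h1 (enc_rat _ 11 25))⟩
noncomputable def txg_75 : Fn3 := ⟨_, _, fun h1 h2 h3 => (enc_add h1 (enc_rat _ 8 25))⟩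
noncomputable def txg_116 : Fn3 := ⟨_, _, fun h1 h2 h3 => (enc_add h1 (enc_rat _ 4 25))⟩
noncomputable def txg_119 : Fn3 := ⟨_, _, fun h1 h2 h3 => (enc_add h1 (enc_rat _ 1 5))⟩
noncomputable def txg_165 : Fn3 := ⟨_, _, fun h1 h2 h3 => (enc_add h1 (enc_rat _ 13 100))⟩
noncomputable def txg_225 : Fn3 := ⟨_, _, fun h1 h2 h3 => (enc_add h1 (enc_rat _ 1 97))⟩
noncomputable def txg_226 : Fn3 := ⟨_, _, fun h1 h2 h3 => (enc_subr 1 5 h1)⟩
noncomputable def txg_228 : Fn3 := ⟨_, _, fun h1 h2 h3 => (enc_subr 1 20 h1)⟩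
noncomputable def txg_230 : Fn3 := ⟨_, _, fun h1 h2 h3 => (enc_subr 1 100 h1)⟩
noncomputable def txg_270 : Fn3 := ⟨_, _, fun h1 h2 h3 => (enc_subr 1 10 h1)⟩
noncomputable def txg_293 : Fn3 := ⟨_, _, fun h1 h2 h3 => (enc_subr 3 20 h1)⟩
noncomputable def txg_336 : Fn3 := ⟨_, _, fun h1 h2 h3 => (enc_subr 7 20 h1)⟩
noncomputable def txg_338 : Fn3 := ⟨_, _, fun h1 h2 h3 => (enc_subr 1 4 h1)⟩
noncomputable def txg_358 : Fn3 := ⟨_, _, fun h1 h2 h3 => (enc_subr 3 10 h1)⟩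
noncomputable def txg_398 : Fn3 := ⟨_, _, fun h1 h2 h3 => (enc_subr 2 5 h1)⟩
noncomputable def txg_418 : Fn3 := ⟨_, _, fun h1 h2 h3 => (enc_subr 11 25 h1)⟩
noncomputable def txg : Fn3 := ⟨_, _, fun h1 h2 h3 => (enc_case (enc_add h1 (enc_rat _ 13 134)) (enc_case (txg_27.enc h1 h2 h3) (enc_case (txg_30.enc h1 h2 h3) (enc_case (txg_33.enc h1 h2 h3) (enc_add (enc_add (enc_add (enc_scale 841601 6000000 h1) (enc_rat _ 841601 12000000)) (enc_mul (enc_norm (txg_4.enc h1 h2 h3)) (enc_norm (enc_add (enc_scale 12859 20000 h1) (enc_rat _ 12859 40000))))) (enc_mul (enc_norm (enc_subr 12977 1000000 (enc_scale 335909 50000 (txg_4.enc h1 h2 h3)))) (enc_norm (enc_mul (enc_norm (enc_add h1 (enc_rat _ 1 2))) (enc_norm (enc_sub (enc_neg (enc_rat _ 11 25)) h1)))))) (enc_add (enc_add (enc_add (enc_scale 209327 6000000 h1) (enc_rat _ 7129997 300000000)) (enc_mul (enc_norm (txg_4.enc h1 h2 h3)) (enc_norm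 (enc_add (enc_scale 258793 300000 h1) (enc_rat _ 6272101 15000000))))) (enc_mul (enc_norm (enc_sub (enc_rat _ 884647 500000) (enc_scale 259493 25000 (txg_4.enc h1 h2 h3)))) (enc_norm (enc_mul (enc_norm (txg_33.enc h1 h2 h3)) (enc_norm (enc_sub (enc_neg (enc_rat _ 19 50)) h1))))))) (enc_case (txg_75.enc h1 h2 h3) (enc_add (enc_add (enc_add (enc_scale 69011 6000000 h1) (enc_rat _ 4463993 300000000)) (enc_mul (enc_norm (txg_4.enc h1 h2 h3)) (enc_norm (enc_add (enc_scale 42301 60000 h1) (enc_rat _ 5373629 15000000))))) (enc_mul (enc_norm (enc_subr 172441 125000 (enc_scale 32517 2500 (txg_4.enc h1 h2 h3)))) (enc_norm (enc_mul (enc_norm (txg_30.enc h1 h2 h3)) (enc_norm (enc_sub (enc_neg (enc_rat _ 8 25)) h1)))))) (enc_add (enc_add (enc_add (enc_scale 158541 1000000 h1) (enc_rat _ 6193251 100000000)) (enc_mul (enc_norm (txg_4.enc h1 h2 h3)) (enc_norm (enc_subr 1470851 15000000 (enc_neg (enc_scale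 8651 12000 h1)))))) (enc_mul (enc_norm (enc_subr 1071123 1000000 (enc_scale 1075879 100000 (txg_4.enc h1 h2 h3)))) (enc_norm (enc_mul (enc_norm (txg_75.enc h1 h2 h3)) (enc_norm (enc_sub (enc_neg (enc_rat _ 13 50)) h1)))))))) (enc_case (txg_116.enc h1 h2 h3) (enc_case (txg_119.enc h1 h2 h3) (enc_add (enc_add (enc_add (enc_scale 553487 2000000 h1) (enc_rat _ 2316629 25000000)) (enc_mul (enc_norm (txg_4.enc h1 h2 h3)) (enc_norm (enc_subr 2746073 15000000 (enc_neg (enc_scale 314369 300000 h1)))))) (enc_mul (enc_norm (enc_subr 22473 25000 (enc_neg (enc_scale 530913 100000 (txg_4.enc h1 h2 h3))))) (enc_norm (enc_mul (enc_norm (txg_27.enc h1 h2 h3)) (enc_norm (enc_sub (enc_neg (enc_rat _ 1 5)) h1)))))) (enc_add (enc_add (enc_add (enc_scale 285347 800000 h1) (enc_rat _ 10865321 100000000)) (enc_mul (enc_norm (txg_4.enc h1 h2 h3)) (enc_norm (enc_subr 1107737 10000000 (enc_neg (enc_scale 274563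 400000 h1)))))) (enc_mul (enc_norm (enc_subr 650127 1000000 (enc_neg (enc_scale 26839 25000 (txg_4.enc h1 h2 h3))))) (enc_norm (enc_mul (enc_norm (txg_119.enc h1 h2 h3)) (enc_norm (enc_sub (enc_neg (enc_rat _ 4 25)) h1))))))) (enc_case (txg_165.enc h1 h2 h3) (enc_add (enc_add (enc_add (enc_scale 219491 600000 h1) (enc_rat _ 33034423 300000000)) (enc_mul (enc_norm (txg_4.enc h1 h2 h3)) (enc_norm (enc_subr 2176327 30000000 (enc_neg (enc_scale 67121 150000 h1)))))) (enc_mul (enc_norm (enc_add (enc_mul (enc_norm (enc_subr 20416 3125 (enc_scale 294921 5000 (txg_4.enc h1 h2 h3)))) (enc_norm (txg_4.enc h1 h2 h3))) (enc_rat _ 140589 250000))) (enc_norm (enc_mul (enc_norm (txg_116.enc h1 h2 h3)) (enc_norm (enc_sub (enc_neg (enc_rat _ 13 100)) h1)))))) (enc_add (enc_add (enc_add (enc_add (enc_scale 520241713984013 1661715575000000 h1) (enc_rat _ 1319889415202913 12782427500000000)) (enc_mul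 (enc_norm (txg_4.enc h1 h2 h3)) (enc_norm (enc_subr 30148513155761 1278242750000000 (enc_neg (enc_scale 2944178395709 41542889375000 h1)))))) (enc_mul (enc_sq (enc_norm (txg_4.enc h1 h2 h3))) (enc_norm (enc_subr 2480622039 9539125000 (enc_neg (enc_scale 2480622039 1240086250 h1)))))) (enc_mul (enc_norm (enc_add (enc_mul (enc_norm (enc_subr 547537 100000 (enc_neg (enc_scale 477197 5000 (txg_4.enc h1 h2 h3))))) (enc_norm (txg_4.enc h1 h2 h3))) (enc_rat _ 543769 500000))) (enc_norm (enc_mul (enc_norm (txg_165.enc h1 h2 h3)) (enc_norm (enc_sub (enc_neg (enc_rat _ 13 134)) h1))))))))) (enc_case (txg_225.enc h1 h2 h3) (enc_sub (enc_mul (enc_norm (enc_sub (enc_pnc _ 1) h2)) (enc_norm (enc_subn 1 (enc_nat 2 h2)))) (enc_mul (enc_norm (enc_nat 2 (enc_sub (enc_scale 4 3 (txg_6.enc h1 h2 h3)) h3))) (enc_norm (enc_mul (enc_norm (enc_subn 1 (enc_add (enc_scale 2 3 (txg_6.enc h1 h2 h3)) h2))) (kcg.enc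 h1 h3))))) (enc_case (txg_226.enc h1 h2 h3) (enc_case (txg_228.enc h1 h2 h3) (enc_case (txg_230.enc h1 h2 h3) (enc_add (enc_add (enc_add (enc_scale 2131844726611 18535730000000 h1) (enc_rat _ 179679106731139 1853573000000000)) (enc_mul (enc_norm (txg_4.enc h1 h2 h3)) (enc_norm (enc_add (enc_scale 41514171 95545000 h1) (enc_rat _ 21316221 9554500000))))) (enc_mul (enc_norm (enc_sub (enc_rat _ 1139469 200000) (enc_scale 66651 6250 (txg_4.enc h1 h2 h3)))) (enc_norm (enc_mul (enc_norm (txg_225.enc h1 h2 h3)) (enc_norm (enc_sub (enc_rat _ 1 100) h1)))))) (enc_add (enc_add (enc_sub (enc_rat _ 3931301 40000000) (enc_scale 7831 400000 h1)) (enc_mul (enc_norm (txg_4.enc h1 h2 h3)) (enc_norm (enc_add (enc_scale 26219 40000 h1) (enc_rat _ 17 800000))))) (enc_mul (enc_norm (enc_sub (enc_rat _ 472041 1000000) (enc_scale 2747 25000 (txg_4.enc h1 h2 h3)))) (enc_norm (enc_mul (enc_norm (txg_230.enc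 h1 h2 h3)) (enc_norm (enc_sub (enc_rat _ 1 20) h1))))))) (enc_case (txg_270.enc h1 h2 h3) (enc_add (enc_add (enc_sub (enc_rat _ 9920891 100000000) (enc_scale 95263 2500000 h1)) (enc_mul (enc_norm (txg_4.enc h1 h2 h3)) (enc_norm (enc_subr 10939 10000000 (enc_scale 338889 500000 h1))))) (enc_mul (enc_norm (enc_subr 1771 250000 (enc_neg (enc_scale 17907 50000 (txg_4.enc h1 h2 h3))))) (enc_norm (enc_mul (enc_norm (txg_228.enc h1 h2 h3)) (enc_norm (enc_sub (enc_rat _ 1 10) h1)))))) (enc_case (txg_293.enc h1 h2 h3) (enc_add (enc_add (enc_sub (enc_rat _ 2080801 20000000) (enc_scale 432083 5000000 h1)) (enc_mul (enc_norm (txg_4.enc h1 h2 h3)) (enc_norm (enc_subr 156161 10000000 (enc_scale 823 1000 h1))))) (enc_mul (enc_norm (enc_sub (enc_rat _ 486657 500000) (enc_scale 25463 10000 (txg_4.enc h1 h2 h3)))) (enc_norm (enc_mul (enc_norm (txg_270.enc h1 h2 h3)) (enc_norm (enc_sub (enc_rat _ 3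 20) h1)))))) (enc_add (enc_add (enc_sub (enc_rat _ 451889 4000000) (enc_scale 729823 5000000 h1)) (enc_mul (enc_norm (txg_4.enc h1 h2 h3)) (enc_norm (enc_subr 6847 200000 (enc_scale 473563 500000 h1))))) (enc_mul (enc_norm (enc_add (enc_scale 6377 100000 (txg_4.enc h1 h2 h3)) (enc_rat _ 43529 200000))) (enc_norm (enc_mul (enc_norm (txg_293.enc h1 h2 h3)) (enc_norm (enc_sub (enc_rat _ 1 5) h1))))))))) (enc_case (txg_336.enc h1 h2 h3) (enc_case (txg_338.enc h1 h2 h3) (enc_add (enc_add (enc_sub (enc_rat _ 2489417 20000000) (enc_scale 127161 625000 h1)) (enc_mul (enc_norm (txg_4.enc h1 h2 h3)) (enc_norm (enc_subr 65411 5000000 (enc_scale 420681 500000 h1))))) (enc_mul (enc_norm (enc_add (enc_scale 51287 25000 (txg_4.enc h1 h2 h3)) (enc_rat _ 116527 125000))) (enc_norm (enc_mul (enc_norm (txg_226.enc h1 h2 h3)) (enc_norm (enc_sub (enc_rat _ 1 4) h1)))))) (enc_case (txg_358.enc h1 h2 h3)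 (enc_add (enc_add (enc_sub (enc_rat _ 2966429 20000000) (enc_scale 14943 50000 h1)) (enc_mul (enc_norm (txg_4.enc h1 h2 h3)) (enc_norm (enc_add (enc_scale 152461 250000 h1) (enc_rat _ 447973 10000000))))) (enc_mul (enc_norm (enc_add (enc_scale 64473 25000 (txg_4.enc h1 h2 h3)) (enc_rat _ 121979 125000))) (enc_norm (enc_mul (enc_norm (txg_338.enc h1 h2 h3)) (enc_norm (enc_sub (enc_rat _ 3 10) h1)))))) (enc_add (enc_add (enc_sub (enc_rat _ 3217349 20000000) (enc_scale 8517 25000 h1)) (enc_mul (enc_norm (txg_4.enc h1 h2 h3)) (enc_norm (enc_sub (enc_rat _ 2630419 10000000) (enc_scale 58819 500000 h1))))) (enc_mul (enc_norm (enc_subr 27887 200000 (enc_scale 74817 6250 (txg_4.enc h1 h2 h3)))) (enc_norm (enc_mul (enc_norm (txg_358.enc h1 h2 h3)) (enc_norm (enc_sub (enc_rat _ 7 20) h1)))))))) (enc_case (txg_398.enc h1 h2 h3) (enc_add (enc_add (enc_sub (enc_rat _ 15176059 100000000) (enc_scale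 786651 2500000 h1)) (enc_mul (enc_norm (txg_4.enc h1 h2 h3)) (enc_norm (enc_sub (enc_rat _ 1059089 2000000) (enc_scale 439537 500000 h1))))) (enc_mul (enc_norm (enc_subr 76191 200000 (enc_scale 325799 100000 (txg_4.enc h1 h2 h3)))) (enc_norm (enc_mul (enc_norm (txg_336.enc h1 h2 h3)) (enc_norm (enc_sub (enc_rat _ 2 5) h1)))))) (enc_case (txg_418.enc h1 h2 h3) (enc_add (enc_add (enc_sub (enc_rat _ 14028703 100000000) (enc_scale 571953 2000000 h1)) (enc_mul (enc_norm (txg_4.enc h1 h2 h3)) (enc_norm (enc_sub (enc_rat _ 6934019 10000000) (enc_scale 515487 400000 h1))))) (enc_mul (enc_norm (enc_subr 240899 1000000 (enc_scale 30843 5000 (txg_4.enc h1 h2 h3)))) (enc_norm (enc_mul (enc_norm (txg_398.enc h1 h2 h3)) (enc_norm (enc_sub (enc_rat _ 11 25) h1)))))) (enc_add (enc_add (enc_sub (enc_rat _ 1445737 12000000) (enc_scale 1445737 6000000 h1)) (enc_mul (enc_norm (txg_4.enc h1 h2 h3)) (enc_norm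 (enc_sub (enc_rat _ 631831 600000) (enc_scale 631831 300000 h1))))) (enc_mul (enc_norm (enc_subr 589741 1000000 (enc_scale 237767 25000 (txg_4.enc h1 h2 h3)))) (enc_norm (enc_mul (enc_norm (txg_418.enc h1 h2 h3)) (enc_norm (enc_sub (enc_rat _ 1 2) h1))))))))))))⟩
noncomputable def l0q0 : Fn2 := ⟨_, _, fun h1 h2 => (enc_norm (txg.enc (enc_norm (enc_sub (enc_scale 3 4 h1) (enc_half (c1g.enc h1)))) (c1g.enc h1) h2))⟩
noncomputable def gsg : Fn1 := ⟨_, _, fun h1 => (enc_sqrt (enc_sub (enc_pnc _ 1) (enc_scale 3 4 (enc_sq h1))))⟩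
noncomputable def gug : Fn1 := ⟨_, _, fun h1 => (enc_norm (enc_add (enc_scale 3 4 h1) (enc_scale 3 2 (enc_sub (enc_pnc _ 1) (gsg.enc h1)))))⟩
noncomputable def kc0q0_3 : Fn2 := ⟨_, _, fun h1 h2 => (enc_subr 1047 2000 h2)⟩
noncomputable def kc0q0_8 : Fn2 := ⟨_, _, fun h1 h2 => (enc_sub (enc_scale 3 4 h1) (enc_half (c1g.enc h1)))⟩
noncomputable def kc0q0 : Fn2 := ⟨_, _, fun h1 h2 => (enc_norm (enc_case (enc_add (kc0q0_8.enc h1 h2) (enc_rat _ 13 134)) (enc_case (enc_add (kc0q0_8.enc h1 h2) (enc_rat _ 17 50)) (enc_case (enc_add (kc0q0_8.enc h1 h2) (enc_rat _ 21 50)) (enc_add (enc_add (enc_scale 5343 4000 (kc0q0_8.enc h1 h2)) (enc_rat _ 5343 8000)) (enc_mul (enc_norm (kc0q0_3.enc h1 h2)) (enc_norm (enc_subr 61161 16000 (enc_neg (enc_scale 61161 8000 (kc0q0_8.enc h1 h2))))))) (enc_add (enc_add (enc_scale 39241 40000 (kc0q0_8.enc h1 h2)) (enc_rat _ 1037781 2000000)) (enc_mul (enc_norm (kc0q0_3.enc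 h1 h2)) (enc_norm (enc_add (enc_scale 31319 4000 (kc0q0_8.enc h1 h2)) (enc_rat _ 535377 200000)))))) (enc_case (enc_add (kc0q0_8.enc h1 h2) (enc_rat _ 13 50)) (enc_add (enc_add (enc_scale 542677 80000 (kc0q0_8.enc h1 h2)) (enc_rat _ 9966877 4000000)) (enc_mul (enc_norm (kc0q0_3.enc h1 h2)) (enc_norm (enc_subr 75713 5000 (enc_neg (enc_scale 89161 2000 (kc0q0_8.enc h1 h2))))))) (enc_case (enc_add (kc0q0_8.enc h1 h2) (enc_rat _ 9 50)) (enc_add (enc_add (enc_scale 135041 20000 (kc0q0_8.enc h1 h2)) (enc_rat _ 77611 31250)) (enc_mul (enc_norm (kc0q0_3.enc h1 h2)) (enc_norm (enc_subr 5627429 400000 (enc_neg (enc_scale 323597 8000 (kc0q0_8.enc h1 h2))))))) (enc_add (enc_add (enc_scale 333700295073 55600000000 (kc0q0_8.enc h1 h2)) (enc_rat _ 6528851395657 2780000000000)) (enc_mul (enc_norm (kc0q0_3.enc h1 h2)) (enc_norm (enc_add (enc_scale 2445165444143 27800000000 (kc0q0_8.enc h1 h2)) (enc_rat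 _ 12571669397287 1390000000000)))))))) (enc_sub (enc_add (enc_add (enc_rat _ 3 4) (enc_scale 3 2 h1)) (enc_scale 3 4 (enc_mul (enc_norm (enc_mul h1 (enc_inv (c1g.enc h1)))) (gug.enc h1)))) (enc_mul (kcg.enc (enc_norm (kc0q0_8.enc h1 h2)) h2) (enc_norm (enc_add (gug.enc h1) (enc_nat 2 (c1g.enc h1))))))))⟩
noncomputable def kf0q1_10 : Fn2 := ⟨_, _, fun h1 h2 => (enc_scale 3 2 h1)⟩
noncomputable def kf0q1 : Fn2 := ⟨_, _, fun h1 h2 => (enc_norm (enc_add (enc_mul (enc_norm (enc_mul (enc_norm (enc_add (enc_pnc _ 1) (enc_nat 2 (c1g.enc h1)))) (enc_norm (enc_sub (kf0q1_10.enc h1 h2) (c1g.enc h1))))) (enc_inv (enc_nat 2 (enc_sub (enc_add (enc_pnc _ 1) (kf0q1_10.enc h1 h2)) (c1g.enc h1))))) (enc_mul (enc_norm (enc_subn 1 h1)) (kcg.enc (enc_norm (enc_sub (enc_scale 3 4 h1) (enc_half (c1g.enc h1)))) h2))))⟩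
noncomputable def l0q1 : Fn2 := ⟨_, _, fun h1 h2 => (enc_norm (txg.enc (enc_norm (enc_sub (enc_scale 3 4 h1) (enc_half (c1g.enc h1)))) (c1g.enc h1) h2))⟩
noncomputable def kc0q1_3 : Fn2 := ⟨_, _, fun h1 h2 => (enc_subr 1047 2000 h2)⟩
noncomputable def kc0q1_9 : Fn2 := ⟨_, _, fun h1 h2 => (enc_sub (enc_scale 3 4 h1) (enc_half (c1g.enc h1)))⟩
noncomputable def kc0q1 : Fn2 := ⟨_, _, fun h1 h2 => (enc_norm (enc_case (enc_add (kc0q1_9.enc h1 h2) (enc_rat _ 1 97)) (enc_sub (enc_add (enc_add (enc_rat _ 3 4) (enc_scale 3 2 h1)) (enc_scale 3 4 (enc_mul (enc_norm (enc_mul h1 (enc_inv (c1g.enc h1)))) (gug.enc h1)))) (enc_mul (kcg.enc (enc_norm (kc0q1_9.enc h1 h2)) h2) (enc_norm (enc_add (gug.enc h1) (enc_nat 2 (c1g.enc h1)))))) (enc_case (enc_subr 6 25 (kc0q1_9.enc h1 h2)) (enc_case (enc_subr 7 100 (kc0q1_9.enc h1 h2)) (enc_add (enc_add (enc_scale 64935668263 19475000000 (kc0q1_9.enc h1 h2))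 (enc_rat _ 3805435192159 1947500000000)) (enc_mul (enc_norm (kc0q1_3.enc h1 h2)) (enc_norm (enc_subr 184427 779000 (enc_neg (enc_scale 17889419 779000 (kc0q1_9.enc h1 h2))))))) (enc_case (enc_subr 4 25 (kc0q1_9.enc h1 h2)) (enc_add (enc_sub (enc_rat _ 25413709 9000000) (enc_scale 818143 90000 (kc0q1_9.enc h1 h2))) (enc_mul (enc_norm (kc0q1_3.enc h1 h2)) (enc_norm (enc_subr 545891 900000 (enc_neg (enc_scale 19892 1125 (kc0q1_9.enc h1 h2))))))) (enc_add (enc_sub (enc_rat _ 3444771 1000000) (enc_scale 1037751 80000 (kc0q1_9.enc h1 h2))) (enc_mul (enc_norm (kc0q1_3.enc h1 h2)) (enc_norm (enc_subr 161927 100000 (enc_neg (enc_scale 45409 4000 (kc0q1_9.enc h1 h2))))))))) (enc_case (enc_subr 33 100 (kc0q1_9.enc h1 h2)) (enc_add (enc_sub (enc_rat _ 5167753 1500000) (enc_scale 1167619 90000 (kc0q1_9.enc h1 h2))) (enc_mul (enc_norm (kc0q1_3.enc h1 h2)) (enc_norm (enc_subr 405469 100000 (enc_neg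 (enc_scale 1807 1500 (kc0q1_9.enc h1 h2))))))) (enc_case (enc_subr 41 100 (kc0q1_9.enc h1 h2)) (enc_add (enc_subr 8905069 4000000 (enc_scale 33701 8000 (kc0q1_9.enc h1 h2))) (enc_mul (enc_norm (kc0q1_3.enc h1 h2)) (enc_norm (enc_subr 5240197 800000 (enc_scale 50861 8000 (kc0q1_9.enc h1 h2)))))) (enc_add (enc_subr 499091 180000 (enc_scale 499091 90000 (kc0q1_9.enc h1 h2))) (enc_mul (enc_norm (kc0q1_3.enc h1 h2)) (enc_norm (enc_subr 21909 1000 (enc_scale 21909 500 (kc0q1_9.enc h1 h2)))))))))))⟩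
noncomputable def yag : Fn1 := ⟨_, _, fun h1 => (enc_sqrt (enc_scale 4 3 (enc_sub (enc_pnc _ 1) (enc_sq h1))))⟩
noncomputable def kfc02 : Fn2 := ⟨_, _, fun h1 h2 => (enc_norm (enc_add h1 (enc_mul (enc_norm (enc_subn 1 (yag.enc h1))) (kcg.enc (enc_neg h1) h2))))⟩
noncomputable def lc02_7 : Fn2 := ⟨_, _, fun h1 h2 => (enc_scale 3 4 (yag.enc h1))⟩
noncomputable def lc02_8 : Fn2 := ⟨_, _, fun h1 h2 => (enc_half h1)⟩
noncomputable def lc02 : Fn2 := ⟨_, _, fun h1 h2 => (enc_norm (enc_sub (txg.enc (enc_neg h1) (enc_norm (enc_add (lc02_7.enc h1 h2) (lc02_8.enc h1 h2))) h2) (txg.enc h1 (enc_norm (enc_sub (lc02_7.enc h1 h2) (lc02_8.enc h1 h2))) h2)))⟩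
noncomputable def kcc02_4 : Fn2 := ⟨_, _, fun h1 h2 => (enc_subr 1047 2000 h2)⟩
noncomputable def kcc02 : Fn2 := ⟨_, _, fun h1 h2 => (enc_norm (enc_case (enc_subr 1 5 h1) (enc_case (enc_subr 1 10 h1) (enc_sub (enc_scale 9851 4000 h1) (enc_mul (enc_norm (kcc02_4.enc h1 h2)) (enc_scale 143933 10000 h1))) (enc_add (enc_add (enc_scale 248 3125 h1) (enc_rat _ 238339 1000000)) (enc_mul (enc_norm (kcc02_4.enc h1 h2)) (enc_norm (enc_subr 2417 25000 (enc_neg (enc_scale 26853 2000 h1))))))) (enc_case (enc_subr 3 10 h1) (enc_add (enc_add (enc_scale 991 25000 h1) (enc_rat _ 246283 1000000)) (enc_mul (enc_norm (kcc02_4.enc h1 h2)) (enc_norm (enc_subr 254387 50000 (enc_scale 14411 1250 h1))))) (enc_case (enc_subr 2 5 h1) (enc_add (enc_sub (enc_rat _ 252487 250000) (enc_scale 250591 100000 h1)) (enc_mul (enc_norm (kcc02_4.enc h1 h2)) (enc_norm (enc_subr 664891 100000 (enc_scale 167327 10000 h1)))))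 (enc_add (enc_sub (enc_rat _ 237 6250) (enc_scale 237 3125 h1)) (enc_mul (enc_norm (kcc02_4.enc h1 h2)) (enc_norm (enc_sub (enc_rat _ 4417 20000) (enc_scale 4417 10000 h1)))))))))⟩
noncomputable def swg : Fn1 := ⟨_, _, fun h1 => (enc_sqrt (enc_sub (enc_pnc _ 1) (enc_scale 3 4 (enc_sq (enc_norm (enc_subn 1 h1))))))⟩
noncomputable def cv1m : Fn1 := ⟨_, _, fun h1 => (enc_norm (enc_add (enc_scale 22 25 (c1g.enc h1)) (enc_scale 3 25 (enc_add (swg.enc h1) (enc_rat _ 1 2)))))⟩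
noncomputable def bf1q0_3 : Fn2 := ⟨_, _, fun h1 h2 => (enc_subr 1047 2000 h2)⟩
noncomputable def bf1q0 : Fn2 := ⟨_, _, fun h1 h2 => (enc_norm (enc_case (enc_subr 23 100 h1) (enc_case (enc_subr 11 100 h1) (enc_sub (enc_sub (enc_pnc _ 1) (enc_scale 24383 27500 h1)) (enc_mul (enc_norm (bf1q0_3.enc h1 h2)) (enc_scale 57 2750 h1))) (enc_add (enc_sub (enc_rat _ 211991 200000) (enc_scale 14317 10000 h1)) (enc_mul (enc_norm (bf1q0_3.enc h1 h2)) (enc_norm (enc_subr 823 30000 (enc_scale 343 1500 h1)))))) (enc_case (enc_subr 17 50 h1) (enc_add (enc_sub (enc_rat _ 3933 3520) (enc_scale 184927 110000 h1)) (enc_mul (enc_norm (bf1q0_3.enc h1 h2)) (enc_norm (enc_sub (enc_rat _ 112477 1100000) (enc_scale 3687 11000 h1))))) (enc_case (enc_subr 453 1000 h1) (enc_add (enc_sub (enc_rat _ 131469941 113000000) (enc_scale 205299 113000 h1)) (enc_mul (enc_norm (bf1q0_3.enc h1 h2)) (enc_norm (enc_sub (enc_rat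 _ 3652897 11300000) (enc_scale 11133 11300 h1))))) (enc_add (enc_sub (enc_rat _ 11028229 9400000) (enc_scale 86403 47000 h1)) (enc_mul (enc_norm (bf1q0_3.enc h1 h2)) (enc_norm (enc_sub (enc_rat _ 1128163 4700000) (enc_scale 3767 4700 h1)))))))))⟩
noncomputable def kf1q0 : Fn2 := ⟨_, _, fun h1 h2 => (enc_norm (enc_mul (cv1m.enc h1) (bf1q0.enc h1 h2)))⟩
noncomputable def bx1q0_3 : Fn2 := ⟨_, _, fun h1 h2 => (enc_subr 1047 2000 h2)⟩
noncomputable def bx1q0 : Fn2 := ⟨_, _, fun h1 h2 => (enc_norm (enc_case (enc_subr 23 100 h1) (enc_case (enc_subr 11 100 h1) (enc_add (enc_scale 13141 110000 h1) (enc_mul (enc_norm (bx1q0_3.enc h1 h2)) (enc_scale 7671 11000 h1))) (enc_add (enc_add (enc_scale 3583 60000 h1) (enc_rat _ 39433 6000000)) (enc_mul (enc_norm (bx1q0_3.enc h1 h2)) (enc_norm (enc_add (enc_scale 1661 4000 h1) (enc_rat _ 12413 400000)))))) (enc_case (enc_subr 17 50 h1) (enc_add (enc_subr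 21709 1375000 (enc_scale 17263 110000 h1)) (enc_mul (enc_norm (bx1q0_3.enc h1 h2)) (enc_norm (enc_sub (enc_rat _ 10061 34375) (enc_scale 3973 5500 h1))))) (enc_case (enc_subr 453 1000 h1) (enc_add (enc_subr 125307 2260000 (enc_scale 15457 56500 h1)) (enc_mul (enc_norm (bx1q0_3.enc h1 h2)) (enc_norm (enc_sub (enc_rat _ 977901 2825000) (enc_scale 497 565 h1))))) (enc_add (enc_subr 3111021 47000000 (enc_scale 13973 47000 h1)) (enc_mul (enc_norm (bx1q0_3.enc h1 h2)) (enc_norm (enc_sub (enc_rat _ 227019 587500) (enc_scale 1138 1175 h1)))))))))⟩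
noncomputable def l1q0 : Fn2 := ⟨_, _, fun h1 h2 => (enc_norm (enc_mul (cv1m.enc h1) (bx1q0.enc h1 h2)))⟩
noncomputable def bd1q0 : Fn2 := ⟨_, _, fun h1 h2 => (enc_norm (enc_sub (enc_scale 829461 500000 h1) (enc_mul (enc_norm (enc_subr 1047 2000 h2)) (enc_scale 215931 25000 h1))))⟩
noncomputable def kc1q0 : Fn2 := ⟨_, _, fun h1 h2 => (enc_norm (enc_mul (cv1m.enc h1) (bd1q0.enc h1 h2)))⟩
noncomputable def bf1q1_3 : Fn2 := ⟨_, _, fun h1 h2 => (enc_subr 1047 2000 h2)⟩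
noncomputable def bf1q1 : Fn2 := ⟨_, _, fun h1 h2 => (enc_norm (enc_case (enc_subr 7 10 h1) (enc_case (enc_subr 3 5 h1) (enc_add (enc_subr 1123 625 (enc_scale 161483 50000 h1)) (enc_mul (enc_norm (bf1q1_3.enc h1 h2)) (enc_norm (enc_sub (enc_rat _ 2287 3125) (enc_scale 13053 10000 h1))))) (enc_add (enc_subr 146563 100000 (enc_scale 267771 100000 h1)) (enc_mul (enc_norm (bf1q1_3.enc h1 h2)) (enc_norm (enc_sub (enc_rat _ 7457 10000) (enc_scale 3321 2500 h1)))))) (enc_case (enc_subr 4 5 h1) (enc_add (enc_subr 177593 250000 (enc_scale 159877 100000 h1)) (enc_mul (enc_norm (bf1q1_3.enc h1 h2)) (enc_norm (enc_subr 22759 25000 (enc_scale 5187 5000 h1))))) (enc_case (enc_subr 9 10 h1) (enc_add (enc_subr 185823 250000 (enc_scale 20499 12500 h1)) (enc_mul (enc_norm (bf1q1_3.enc h1 h2)) (enc_norm (enc_subr 35477 25000 (enc_scale 16733 10000 h1))))) (enc_add (enc_subr 850113 1000000 (enc_scale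 175861 100000 h1)) (enc_mul (enc_norm (bf1q1_3.enc h1 h2)) (enc_norm (enc_subr 116519 100000 (enc_scale 1739 1250 h1)))))))))⟩
noncomputable def kf1q1 : Fn2 := ⟨_, _, fun h1 h2 => (enc_norm (enc_mul (cv1m.enc h1) (bf1q1.enc h1 h2)))⟩
noncomputable def bx1q1_3 : Fn2 := ⟨_, _, fun h1 h2 => (enc_subr 1047 2000 h2)⟩
noncomputable def bx1q1 : Fn2 := ⟨_, _, fun h1 h2 => (enc_norm (enc_case (enc_subr 7 10 h1) (enc_case (enc_subr 3 5 h1) (enc_add (enc_add (enc_scale 3493 25000 h1) (enc_rat _ 2983 250000)) (enc_mul (enc_norm (bx1q1_3.enc h1 h2)) (enc_norm (enc_subr 42599 100000 (enc_scale 7089 10000 h1))))) (enc_add (enc_sub (enc_rat _ 13703 125000) (enc_scale 231 10000 h1)) (enc_mul (enc_norm (bx1q1_3.enc h1 h2)) (enc_norm (enc_subr 13651 20000 (enc_scale 2273 2000 h1)))))) (enc_case (enc_subr 4 5 h1) (enc_add (enc_add (enc_scale 3111 100000 h1) (enc_rat _ 71677 1000000)) (enc_mul (enc_norm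 (bx1q1_3.enc h1 h2)) (enc_norm (enc_subr 56747 100000 (enc_scale 9721 10000 h1))))) (enc_case (enc_subr 9 10 h1) (enc_add (enc_sub (enc_rat _ 5093 40000) (enc_scale 769 20000 h1)) (enc_mul (enc_norm (bx1q1_3.enc h1 h2)) (enc_norm (enc_subr 12479 20000 (enc_scale 10427 10000 h1))))) (enc_add (enc_sub (enc_rat _ 522461 1000000) (enc_scale 47749 100000 h1)) (enc_mul (enc_norm (bx1q1_3.enc h1 h2)) (enc_norm (enc_sub (enc_rat _ 145613 100000) (enc_scale 2537 2000 h1)))))))))⟩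
noncomputable def l1q1 : Fn2 := ⟨_, _, fun h1 h2 => (enc_norm (enc_mul (cv1m.enc h1) (bx1q1.enc h1 h2)))⟩
noncomputable def bd1q1 : Fn2 := ⟨_, _, fun h1 h2 => (enc_norm (enc_add (enc_sub (enc_rat _ 1522317 200000) (enc_scale 216783 25000 h1)) (enc_mul (enc_norm (enc_subr 1047 2000 h2)) (enc_norm (enc_sub (enc_rat _ 431859 50000) (enc_scale 418699 25000 h1))))))⟩
noncomputable def kc1q1 : Fn2 := ⟨_, _, fun h1 h2 => (enc_norm (enc_mul (cv1m.enc h1) (bd1q1.enc h1 h2)))⟩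
noncomputable def xc12a : Fn1 := ⟨_, _, fun h1 => (enc_norm (enc_add (enc_scale 22 25 h1) (enc_scale 3 25 (enc_subr 1 2 (swg.enc (yag.enc h1))))))⟩
noncomputable def kfc12a_11 : Fn2 := ⟨_, _, fun h1 h2 => (enc_subr 1047 2000 h2)⟩
noncomputable def kfc12a : Fn2 := ⟨_, _, fun h1 h2 => (enc_norm (enc_mul (enc_norm (enc_add (enc_scale 22 25 h1) (enc_scale 3 25 (enc_subr 1 2 (swg.enc (yag.enc h1)))))) (enc_norm (enc_add (enc_sub (enc_pnc _ 1) (enc_scale 3525793 5000000 (enc_subn 1 (yag.enc h1)))) (enc_case (enc_subr 1 4 h1) (enc_case (enc_subr 1 10 h1) (enc_case (enc_subr 1 20 h1) (enc_sub (enc_scale 767 25000 h1) (enc_mul (enc_norm (kfc12a_11.enc h1 h2)) (enc_scale 4029 2500 h1))) (enc_add (enc_subr 49399 1000000 (enc_scale 50933 50000 h1)) (enc_mul (enc_norm (kfc12a_11.enc h1 h2)) (enc_norm (enc_sub (enc_rat _ 5093 20000) (enc_scale 33523 5000 h1)))))) (enc_case (enc_subr 3 20 h1) (enc_add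 (enc_sub (enc_rat _ 98237 1000000) (enc_scale 4577 10000 h1)) (enc_mul (enc_norm (kfc12a_11.enc h1 h2)) (enc_norm (enc_subr 28183 100000 (enc_neg (enc_scale 6699 5000 h1)))))) (enc_case (enc_subr 1 5 h1) (enc_add (enc_sub (enc_rat _ 149669 1000000) (enc_scale 40029 50000 h1)) (enc_mul (enc_norm (kfc12a_11.enc h1 h2)) (enc_norm (enc_subr 17951 20000 (enc_scale 553 200 h1))))) (enc_add (enc_sub (enc_rat _ 112977 1000000) (enc_scale 3857 6250 h1)) (enc_mul (enc_norm (kfc12a_11.enc h1 h2)) (enc_norm (enc_subr 87403 100000 (enc_scale 13237 5000 h1)))))))) (enc_case (enc_subr 7 20 h1) (enc_case (enc_subr 3 10 h1) (enc_add (enc_subr 101719 500000 (enc_scale 32427 50000 h1)) (enc_mul (enc_norm (kfc12a_11.enc h1 h2)) (enc_norm (enc_subr 7267 25000 (enc_scale 157 500 h1))))) (enc_add (enc_subr 101971 500000 (enc_scale 32511 50000 h1)) (enc_mul (enc_norm (kfc12a_11.enc h1 h2)) (enc_norm (enc_subr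 11621 50000 (enc_scale 599 5000 h1)))))) (enc_case (enc_subr 2 5 h1) (enc_add (enc_subr 116687 1000000 (enc_scale 10023 25000 h1)) (enc_mul (enc_norm (kfc12a_11.enc h1 h2)) (enc_norm (enc_subr 62673 100000 (enc_scale 779 625 h1))))) (enc_case (enc_subr 9 20 h1) (enc_add (enc_sub (enc_rat _ 38109 200000) (enc_scale 9179 25000 h1)) (enc_mul (enc_norm (kfc12a_11.enc h1 h2)) (enc_norm (enc_subr 89617 100000 (enc_scale 48 25 h1))))) (enc_add (enc_sub (enc_rat _ 25323 100000) (enc_scale 25323 50000 h1)) (enc_mul (enc_norm (kfc12a_11.enc h1 h2)) (enc_norm (enc_subr 3217 10000 (enc_scale 3217 5000 h1)))))))))))))⟩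
noncomputable def lc12a_11 : Fn2 := ⟨_, _, fun h1 h2 => (enc_subr 1047 2000 h2)⟩
noncomputable def lc12a : Fn2 := ⟨_, _, fun h1 h2 => (enc_norm (enc_mul (enc_norm (enc_add (enc_scale 22 25 h1) (enc_scale 3 25 (enc_subr 1 2 (swg.enc (yag.enc h1)))))) (enc_norm (enc_add (enc_subr 4198367113859 18535730000000 (enc_neg (enc_scale 1307165529 1492890625 (lc12a_11.enc h1 h2)))) (enc_case (enc_subr 1 4 h1) (enc_case (enc_subr 1 10 h1) (enc_case (enc_subr 1 20 h1) (enc_sub (enc_mul (enc_norm (lc12a_11.enc h1 h2)) (enc_scale 47 500 h1)) (enc_scale 99 6250 h1)) (enc_add (enc_sub (enc_rat _ 261 200000) (enc_scale 2097 50000 h1)) (enc_mul (enc_norm (lc12a_11.enc h1 h2)) (enc_norm (enc_subr 443 6250 (enc_scale 3779 2500 h1)))))) (enc_case (enc_subr 3 20 h1) (enc_add (enc_subr 3853 1000000 (enc_scale 241 25000 h1)) (enc_mul (enc_norm (lc12a_11.enc h1 h2)) (enc_norm (enc_subr 5461 50000 (enc_scale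 379 200 h1))))) (enc_case (enc_subr 1 5 h1) (enc_add (enc_subr 60139 1000000 (enc_scale 4811 12500 h1)) (enc_mul (enc_norm (lc12a_11.enc h1 h2)) (enc_norm (enc_subr 16439 100000 (enc_scale 5657 2500 h1))))) (enc_add (enc_subr 137079 1000000 (enc_scale 38479 50000 h1)) (enc_mul (enc_norm (lc12a_11.enc h1 h2)) (enc_norm (enc_subr 7283 20000 (enc_scale 4077 1250 h1)))))))) (enc_case (enc_subr 7 20 h1) (enc_case (enc_subr 3 10 h1) (enc_add (enc_subr 199389 1000000 (enc_scale 50941 50000 h1)) (enc_mul (enc_norm (lc12a_11.enc h1 h2)) (enc_norm (enc_add (enc_scale 2173 1250 h1) (enc_rat _ 333 20000))))) (enc_add (enc_subr 199563 1000000 (enc_scale 5097 5000 h1)) (enc_mul (enc_norm (lc12a_11.enc h1 h2)) (enc_norm (enc_add (enc_scale 17 20 h1) (enc_rat _ 28317 100000)))))) (enc_case (enc_subr 2 5 h1) (enc_add (enc_subr 75537 500000 (enc_scale 44043 50000 h1)) (enc_mul (enc_norm (lc12a_11.enc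 h1 h2)) (enc_norm (enc_add (enc_scale 2661 2500 h1) (enc_rat _ 20813 100000))))) (enc_case (enc_subr 9 20 h1) (enc_add (enc_add (enc_scale 187 500 h1) (enc_rat _ 5167 100000)) (enc_mul (enc_norm (lc12a_11.enc h1 h2)) (enc_norm (enc_subr 18451 100000 (enc_scale 1023 500 h1))))) (enc_add (enc_add (enc_scale 121062585759 926786500000 h1) (enc_rat _ 2987741256269 18535730000000)) (enc_mul (enc_norm (lc12a_11.enc h1 h2)) (enc_norm (enc_subr 12383652301 23886250000 (enc_scale 6659660153 2388625000 h1)))))))))))))⟩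
noncomputable def kcc12a_11 : Fn2 := ⟨_, _, fun h1 h2 => (enc_subr 1047 2000 h2)⟩
noncomputable def kcc12a : Fn2 := ⟨_, _, fun h1 h2 => (enc_norm (enc_mul (enc_norm (enc_add (enc_scale 22 25 h1) (enc_scale 3 25 (enc_subr 1 2 (swg.enc (yag.enc h1)))))) (enc_norm (enc_add (enc_sub (enc_rat _ 9851 4000) (enc_scale 143933 10000 (kcc12a_11.enc h1 h2))) (enc_case (enc_subr 1 4 h1) (enc_sub (enc_mul (enc_norm (kcc12a_11.enc h1 h2)) (enc_scale 358823 12500 h1)) (enc_scale 308417 62500 h1)) (enc_add (enc_subr 2293 500000 (enc_neg (enc_scale 614541 125000 h1))) (enc_mul (enc_norm (kcc12a_11.enc h1 h2)) (enc_norm (enc_subr 2019 50000 (enc_scale 180421 6250 h1))))))))))⟩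
noncomputable def xc12b : Fn1 := ⟨_, _, fun h1 => (enc_norm (enc_scale 3 25 (enc_subr 1 2 (swg.enc h1))))⟩
noncomputable def kfc12b_9 : Fn2 := ⟨_, _, fun h1 h2 => (enc_subr 1047 2000 h2)⟩
noncomputable def kfc12b : Fn2 := ⟨_, _, fun h1 h2 => (enc_norm (enc_mul (enc_norm (enc_scale 3 25 (enc_subr 1 2 (swg.enc h1)))) (enc_norm (enc_add (enc_sub (enc_pnc _ 1) (enc_scale 3525793 5000000 (enc_subn 1 h1))) (enc_case (enc_subr 127 100 h1) (enc_case (enc_subr 231 200 h1) (enc_pnc _ 0) (enc_add (enc_sub (enc_rat _ 68470479 23000000) (enc_scale 296409 115000 h1)) (enc_mul (enc_norm (kfc12b_9.enc h1 h2)) (enc_norm (enc_subr 672903 230000 (enc_scale 2913 1150 h1)))))) (enc_case (enc_subr 139 100 h1) (enc_add (enc_sub (enc_rat _ 7157513 2400000) (enc_scale 309799 120000 h1)) (enc_mul (enc_norm (kfc12b_9.enc h1 h2)) (enc_norm (enc_subr 4108267 1200000 (enc_scale 35101 12000 h1))))) (enc_add (enc_sub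 (enc_rat _ 32831481 11000000) (enc_scale 284171 110000 h1)) (enc_mul (enc_norm (kfc12b_9.enc h1 h2)) (enc_norm (enc_subr 4061437 1100000 (enc_scale 17151 5500 h1)))))))))))⟩
noncomputable def lc12b_9 : Fn2 := ⟨_, _, fun h1 h2 => (enc_subr 1047 2000 h2)⟩
noncomputable def lc12b : Fn2 := ⟨_, _, fun h1 h2 => (enc_norm (enc_mul (enc_norm (enc_scale 3 25 (enc_subr 1 2 (swg.enc h1)))) (enc_norm (enc_add (enc_subr 4198367113859 18535730000000 (enc_neg (enc_scale 1307165529 1492890625 (lc12b_9.enc h1 h2)))) (enc_case (enc_subr 127 100 h1) (enc_case (enc_subr 231 200 h1) (enc_pnc _ 0) (enc_add (enc_subr 45742389 23000000 (enc_scale 198019 115000 h1)) (enc_mul (enc_norm (lc12b_9.enc h1 h2)) (enc_norm (enc_subr 36267 1150000 (enc_scale 157 5750 h1)))))) (enc_case (enc_subr 139 100 h1) (enc_add (enc_subr 7973591 4000000 (enc_scale 69021 40000 h1)) (enc_mul (enc_norm (lc12b_9.enc h1 h2)) (enc_norm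 (enc_sub (enc_rat _ 2231 120000) (enc_scale 73 6000 h1))))) (enc_add (enc_subr 21942839 11000000 (enc_scale 189919 110000 h1)) (enc_mul (enc_norm (lc12b_9.enc h1 h2)) (enc_norm (enc_sub (enc_rat _ 1413 34375) (enc_scale 39 1375 h1)))))))))))⟩
noncomputable def kcc12b_9 : Fn2 := ⟨_, _, fun h1 h2 => (enc_subr 1047 2000 h2)⟩
noncomputable def kcc12b : Fn2 := ⟨_, _, fun h1 h2 => (enc_norm (enc_mul (enc_norm (enc_scale 3 25 (enc_subr 1 2 (swg.enc h1)))) (enc_norm (enc_add (enc_sub (enc_rat _ 9851 4000) (enc_scale 143933 10000 (kcc12b_9.enc h1 h2))) (enc_case (enc_subr 231 200 h1) (enc_pnc _ 0) (enc_add (enc_subr 5382223 718750 (enc_scale 279596 43125 h1)) (enc_mul (enc_norm (kcc12b_9.enc h1 h2)) (enc_norm (enc_sub (enc_rat _ 274351 92000) (enc_scale 3563 1380 h1))))))))))⟩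
noncomputable def cv1r : Fn1 := ⟨_, _, fun h1 => (enc_norm (enc_scale 3 25 (enc_subr 1 2 (swg.enc h1))))⟩
noncomputable def bf1q3_3 : Fn2 := ⟨_, _, fun h1 h2 => (enc_subr 1047 2000 h2)⟩
noncomputable def bf1q3 : Fn2 := ⟨_, _, fun h1 h2 => (enc_norm (enc_case (enc_subr 83 50 h1) (enc_case (enc_subr 1547 1000 h1) (enc_add (enc_subr 6543831 5875000 (enc_scale 34033 47000 h1)) (enc_mul (enc_norm (bf1q3_3.enc h1 h2)) (enc_norm (enc_subr 539233 587500 (enc_scale 2487 4700 h1))))) (enc_add (enc_subr 62932919 56500000 (enc_scale 3273 4520 h1)) (enc_mul (enc_norm (bf1q3_3.enc h1 h2)) (enc_norm (enc_subr 10384961 11300000 (enc_scale 1497 2825 h1)))))) (enc_case (enc_subr 177 100 h1) (enc_add (enc_subr 1530523 1375000 (enc_scale 79603 110000 h1)) (enc_mul (enc_norm (bf1q3_3.enc h1 h2)) (enc_norm (enc_subr 202483 220000 (enc_scale 2919 5500 h1))))) (enc_case (enc_subr 189 100 h1) (enc_add (enc_subr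 1111933 1000000 (enc_scale 723 1000 h1)) (enc_mul (enc_norm (bf1q3_3.enc h1 h2)) (enc_norm (enc_subr 73539 80000 (enc_scale 6361 12000 h1))))) (enc_add (enc_subr 12224081 11000000 (enc_scale 19873 27500 h1)) (enc_mul (enc_norm (bf1q3_3.enc h1 h2)) (enc_norm (enc_subr 251991 275000 (enc_scale 2907 5500 h1)))))))))⟩
noncomputable def kf1q3 : Fn2 := ⟨_, _, fun h1 h2 => (enc_norm (enc_mul (cv1r.enc h1) (bf1q3.enc h1 h2)))⟩
noncomputable def bx1q3_3 : Fn2 := ⟨_, _, fun h1 h2 => (enc_subr 1047 2000 h2)⟩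
noncomputable def bx1q3 : Fn2 := ⟨_, _, fun h1 h2 => (enc_norm (enc_case (enc_subr 83 50 h1) (enc_case (enc_subr 1547 1000 h1) (enc_add (enc_subr 2808443 23500000 (enc_scale 1351 4700 h1)) (enc_mul (enc_norm (bx1q3_3.enc h1 h2)) (enc_norm (enc_subr 52980121 2350000 (enc_scale 66279 4700 h1))))) (enc_add (enc_subr 13556269 113000000 (enc_scale 6503 22600 h1)) (enc_mul (enc_norm (bx1q3_3.enc h1 h2)) (enc_norm (enc_subr 127384979 5650000 (enc_scale 159361 11300 h1)))))) (enc_case (enc_subr 177 100 h1) (enc_add (enc_subr 122883 1000000 (enc_scale 579 2000 h1)) (enc_mul (enc_norm (bx1q3_3.enc h1 h2)) (enc_norm (enc_subr 6203093 275000 (enc_scale 155201 11000 h1))))) (enc_case (enc_subr 189 100 h1) (enc_add (enc_subr 500559 4000000 (enc_scale 11631 40000 h1)) (enc_mul (enc_norm (bx1q3_3.enc h1 h2)) (enc_norm (enc_subr 9022139 400000 (enc_scale 169301 12000 h1))))) (enc_add (enc_subr 688623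 5500000 (enc_scale 31989 110000 h1)) (enc_mul (enc_norm (bx1q3_3.enc h1 h2)) (enc_norm (enc_subr 2254133 100000 (enc_scale 14101 1000 h1)))))))))⟩
noncomputable def l1q3 : Fn2 := ⟨_, _, fun h1 h2 => (enc_norm (enc_mul (cv1r.enc h1) (bx1q3.enc h1 h2)))⟩
noncomputable def bd1q3 : Fn2 := ⟨_, _, fun h1 h2 => (enc_norm (enc_add (enc_sub (enc_rat _ 476213 40000) (enc_scale 2726237 500000 h1)) (enc_mul (enc_norm (enc_subr 1047 2000 h2)) (enc_norm (enc_subr 30167 2500 (enc_scale 88351 12500 h1))))))⟩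
noncomputable def kc1q3 : Fn2 := ⟨_, _, fun h1 h2 => (enc_norm (enc_mul (cv1r.enc h1) (bd1q3.enc h1 h2)))⟩
noncomputable def cv2m : Fn1 := ⟨_, _, fun h1 => (enc_norm (enc_add (enc_scale 3 5 (c1g.enc h1)) (enc_scale 2 5 (enc_add (swg.enc h1) (enc_rat _ 1 2)))))⟩
noncomputable def bf2q0_3 : Fn2 := ⟨_, _, fun h1 h2 => (enc_subr 1047 2000 h2)⟩
noncomputable def bf2q0 : Fn2 := ⟨_, _, fun h1 h2 => (enc_norm (enc_case (enc_subr 3 10 h1) (enc_case (enc_subr 3 20 h1) (enc_add (enc_sub (enc_pnc _ 1) (enc_scale 13478 9375 h1)) (enc_mul (enc_norm (bf2q0_3.enc h1 h2)) (enc_scale 12119 15000 h1))) (enc_add (enc_sub (enc_rat _ 126923 125000) (enc_scale 28879 18750 h1)) (enc_mul (enc_norm (bf2q0_3.enc h1 h2)) (enc_norm (enc_subr 17021 100000 (enc_scale 1457 750 h1)))))) (enc_case (enc_subr 453 1000 h1) (enc_add (enc_sub (enc_rat _ 196631 159375) (enc_scale 173513 76500 h1)) (enc_mul (enc_norm (bf2q0_3.enc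 h1 h2)) (enc_norm (enc_sub (enc_rat _ 6349009 5100000) (enc_scale 10612 3825 h1))))) (enc_add (enc_sub (enc_rat _ 905728 734375) (enc_scale 53279 23500 h1)) (enc_mul (enc_norm (bf2q0_3.enc h1 h2)) (enc_norm (enc_sub (enc_rat _ 1619887 1175000) (enc_scale 14427 4700 h1))))))))⟩
noncomputable def kf2q0 : Fn2 := ⟨_, _, fun h1 h2 => (enc_norm (enc_mul (cv2m.enc h1) (bf2q0.enc h1 h2)))⟩
noncomputable def bx2q0_3 : Fn2 := ⟨_, _, fun h1 h2 => (enc_subr 1047 2000 h2)⟩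
noncomputable def bx2q0 : Fn2 := ⟨_, _, fun h1 h2 => (enc_norm (enc_case (enc_subr 3 10 h1) (enc_case (enc_subr 3 20 h1) (enc_add (enc_scale 28151 150000 h1) (enc_mul (enc_norm (bx2q0_3.enc h1 h2)) (enc_scale 561 625 h1))) (enc_add (enc_add (enc_scale 10847 75000 h1) (enc_rat _ 6457 1000000)) (enc_mul (enc_norm (bx2q0_3.enc h1 h2)) (enc_norm (enc_sub (enc_rat _ 21137 100000) (enc_scale 7673 15000 h1)))))) (enc_case (enc_subr 453 1000 h1) (enc_add (enc_add (enc_scale 17689 153000 h1) (enc_rat _ 154639 10200000)) (enc_mul (enc_norm (bx2q0_3.enc h1 h2)) (enc_norm (enc_sub (enc_rat _ 645247 1700000) (enc_scale 1367 1275 h1))))) (enc_add (enc_add (enc_scale 1337 11750 h1) (enc_rat _ 375727 23500000)) (enc_mul (enc_norm (bx2q0_3.enc h1 h2)) (enc_norm (enc_sub (enc_rat _ 1942859 4700000) (enc_scale 539 470 h1))))))))⟩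
noncomputable def l2q0 : Fn2 := ⟨_, _, fun h1 h2 => (enc_norm (enc_mul (cv2m.enc h1) (bx2q0.enc h1 h2)))⟩
noncomputable def bd2q0 : Fn2 := ⟨_, _, fun h1 h2 => (enc_norm (enc_sub (enc_neg (enc_scale 76529 50000 h1)) (enc_mul (enc_norm (enc_subr 1047 2000 h2)) (enc_scale 130851 25000 h1))))⟩
noncomputable def kc2q0 : Fn2 := ⟨_, _, fun h1 h2 => (enc_norm (enc_mul (cv2m.enc h1) (bd2q0.enc h1 h2)))⟩
noncomputable def bf2q1_3 : Fn2 := ⟨_, _, fun h1 h2 => (enc_subr 1047 2000 h2)⟩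
noncomputable def bf2q1 : Fn2 := ⟨_, _, fun h1 h2 => (enc_norm (enc_case (enc_subr 67 100 h1) (enc_add (enc_subr 15670389 8500000 (enc_scale 75299 21250 h1)) (enc_mul (enc_norm (bf2q1_3.enc h1 h2)) (enc_norm (enc_sub (enc_rat _ 3156967 1700000) (enc_scale 1414 425 h1))))) (enc_case (enc_subr 83 100 h1) (enc_add (enc_subr 102583 400000 (enc_scale 23493 20000 h1)) (enc_mul (enc_norm (bf2q1_3.enc h1 h2)) (enc_norm (enc_subr 1287329 800000 (enc_scale 14771 8000 h1))))) (enc_add (enc_subr 2947491 17000000 (enc_scale 7307 6800 h1)) (enc_mul (enc_norm (bf2q1_3.enc h1 h2)) (enc_norm (enc_subr 2905693 1700000 (enc_scale 16719 8500 h1))))))))⟩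
noncomputable def kf2q1 : Fn2 := ⟨_, _, fun h1 h2 => (enc_norm (enc_mul (cv2m.enc h1) (bf2q1.enc h1 h2)))⟩
noncomputable def bx2q1_3 : Fn2 := ⟨_, _, fun h1 h2 => (enc_subr 1047 2000 h2)⟩
noncomputable def bx2q1 : Fn2 := ⟨_, _, fun h1 h2 => (enc_norm (enc_case (enc_subr 67 100 h1) (enc_add (enc_sub (enc_rat _ 1112607 8500000) (enc_scale 797 6800 h1)) (enc_mul (enc_norm (bx2q1_3.enc h1 h2)) (enc_norm (enc_subr 1979651 1700000 (enc_scale 32809 17000 h1))))) (enc_case (enc_subr 83 100 h1) (enc_add (enc_sub (enc_rat _ 1673027 16000000) (enc_scale 2493 32000 h1)) (enc_mul (enc_norm (bx2q1_3.enc h1 h2)) (enc_norm (enc_sub (enc_rat _ 480999 1600000) (enc_scale 4109 16000 h1))))) (enc_add (enc_add (enc_scale 1319 42500 h1) (enc_rat _ 120213 8500000)) (enc_mul (enc_norm (bx2q1_3.enc h1 h2)) (enc_norm (enc_sub (enc_rat _ 284749 340000) (enc_scale 7681 8500 h1))))))))⟩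
noncomputable def l2q1 : Fn2 := ⟨_, _, fun h1 h2 => (enc_norm (enc_mul (cv2m.enc h1) (bx2q1.enc h1 h2)))⟩
noncomputable def bd2q1 : Fn2 := ⟨_, _, fun h1 h2 => (enc_norm (enc_add (enc_subr 218699 500000 (enc_scale 645481 500000 h1)) (enc_mul (enc_norm (enc_subr 1047 2000 h2)) (enc_norm (enc_sub (enc_rat _ 48063 6250) (enc_scale 703617 50000 h1))))))⟩
noncomputable def kc2q1 : Fn2 := ⟨_, _, fun h1 h2 => (enc_norm (enc_mul (cv2m.enc h1) (bd2q1.enc h1 h2)))⟩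
noncomputable def xc22a : Fn1 := ⟨_, _, fun h1 => (enc_norm (enc_add (enc_scale 3 5 h1) (enc_scale 2 5 (enc_subr 1 2 (swg.enc (yag.enc h1))))))⟩
noncomputable def kfc22a_11 : Fn2 := ⟨_, _, fun h1 h2 => (enc_subr 1047 2000 h2)⟩
noncomputable def kfc22a : Fn2 := ⟨_, _, fun h1 h2 => (enc_norm (enc_mul (enc_norm (enc_add (enc_scale 3 5 h1) (enc_scale 2 5 (enc_subr 1 2 (swg.enc (yag.enc h1)))))) (enc_norm (enc_case (enc_subr 1 4 h1) (enc_case (enc_subr 1 10 h1) (enc_case (enc_subr 1 20 h1) (enc_add (enc_sub (enc_rat _ 448901 500000) (enc_scale 429 2000 h1)) (enc_mul (enc_norm (kfc22a_11.enc h1 h2)) (enc_norm (enc_subr 130191 100000 (enc_neg (enc_scale 40017 5000 h1)))))) (enc_add (enc_sub (enc_rat _ 58401 62500) (enc_scale 47339 50000 h1)) (enc_mul (enc_norm (kfc22a_11.enc h1 h2)) (enc_norm (enc_subr 221009 100000 (enc_scale 50801 5000 h1)))))) (enc_case (enc_subr 3 20 h1) (enc_add (enc_sub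 (enc_rat _ 29111 31250) (enc_scale 45907 50000 h1)) (enc_mul (enc_norm (kfc22a_11.enc h1 h2)) (enc_norm (enc_subr 217659 100000 (enc_scale 24563 2500 h1))))) (enc_case (enc_subr 1 5 h1) (enc_add (enc_add (enc_scale 28047 50000 h1) (enc_rat _ 70969 100000)) (enc_mul (enc_norm (kfc22a_11.enc h1 h2)) (enc_norm (enc_subr 40323 25000 (enc_scale 30337 5000 h1))))) (enc_add (enc_add (enc_scale 3729 5000 h1) (enc_rat _ 336359 500000)) (enc_mul (enc_norm (kfc22a_11.enc h1 h2)) (enc_norm (enc_subr 2717 3125 (enc_scale 47 20 h1)))))))) (enc_case (enc_subr 7 20 h1) (enc_case (enc_subr 3 10 h1) (enc_add (enc_add (enc_scale 38493 50000 h1) (enc_rat _ 666703 1000000)) (enc_mul (enc_norm (kfc22a_11.enc h1 h2)) (enc_norm (enc_subr 45019 100000 (enc_scale 673 1000 h1))))) (enc_add (enc_add (enc_scale 38087 50000 h1) (enc_rat _ 669139 1000000)) (enc_mul (enc_norm (kfc22a_11.enc h1 h2)) (enc_norm (enc_subr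 31741 100000 (enc_scale 144 625 h1)))))) (enc_case (enc_subr 2 5 h1) (enc_add (enc_add (enc_scale 2162 3125 h1) (enc_rat _ 173401 250000)) (enc_mul (enc_norm (kfc22a_11.enc h1 h2)) (enc_norm (enc_subr 22363 50000 (enc_scale 3007 5000 h1))))) (enc_case (enc_subr 9 20 h1) (enc_add (enc_add (enc_scale 9113 25000 h1) (enc_rat _ 206133 250000)) (enc_mul (enc_norm (kfc22a_11.enc h1 h2)) (enc_norm (enc_subr 45659 50000 (enc_scale 8831 5000 h1))))) (enc_add (enc_add (enc_scale 5717 25000 h1) (enc_rat _ 44283 50000)) (enc_mul (enc_norm (kfc22a_11.enc h1 h2)) (enc_norm (enc_subr 11839 10000 (enc_scale 11839 5000 h1))))))))))))⟩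
noncomputable def lc22a_11 : Fn2 := ⟨_, _, fun h1 h2 => (enc_subr 1047 2000 h2)⟩
noncomputable def lc22a : Fn2 := ⟨_, _, fun h1 h2 => (enc_norm (enc_mul (enc_norm (enc_add (enc_scale 3 5 h1) (enc_scale 2 5 (enc_subr 1 2 (swg.enc (yag.enc h1)))))) (enc_norm (enc_case (enc_subr 1 4 h1) (enc_case (enc_subr 1 10 h1) (enc_case (enc_subr 1 20 h1) (enc_add (enc_subr 217703 1000000 (enc_scale 14821 50000 h1)) (enc_mul (enc_norm (lc22a_11.enc h1 h2)) (enc_norm (enc_subr 4741 6250 (enc_scale 3453 5000 h1))))) (enc_add (enc_subr 225211 1000000 (enc_scale 22329 50000 h1)) (enc_mul (enc_norm (lc22a_11.enc h1 h2)) (enc_norm (enc_subr 9937 12500 (enc_scale 7093 5000 h1)))))) (enc_case (enc_subr 3 20 h1) (enc_add (enc_subr 241087 1000000 (enc_scale 30267 50000 h1)) (enc_mul (enc_norm (lc22a_11.enc h1 h2)) (enc_norm (enc_subr 44857 50000 (enc_scale 6101 2500 h1))))) (enc_case (enc_subr 1 5 h1) (enc_add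 (enc_subr 63121 250000 (enc_scale 17033 25000 h1)) (enc_mul (enc_norm (lc22a_11.enc h1 h2)) (enc_norm (enc_subr 84461 100000 (enc_scale 10451 5000 h1))))) (enc_add (enc_subr 30137 125000 (enc_scale 31219 50000 h1)) (enc_mul (enc_norm (lc22a_11.enc h1 h2)) (enc_norm (enc_subr 82069 100000 (enc_scale 9853 5000 h1)))))))) (enc_case (enc_subr 7 20 h1) (enc_case (enc_subr 3 10 h1) (enc_add (enc_subr 113293 500000 (enc_scale 28317 50000 h1)) (enc_mul (enc_norm (lc22a_11.enc h1 h2)) (enc_norm (enc_subr 37217 50000 (enc_scale 4163 2500 h1))))) (enc_add (enc_subr 103333 500000 (enc_scale 24997 50000 h1)) (enc_mul (enc_norm (lc22a_11.enc h1 h2)) (enc_norm (enc_subr 6193 10000 (enc_scale 3121 2500 h1)))))) (enc_case (enc_subr 2 5 h1) (enc_add (enc_subr 15537 100000 (enc_scale 17669 50000 h1)) (enc_mul (enc_norm (lc22a_11.enc h1 h2)) (enc_norm (enc_subr 5983 10000 (enc_scale 2971 2500 h1)))))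 (enc_case (enc_subr 9 20 h1) (enc_add (enc_subr 43641 500000 (enc_scale 4579 25000 h1)) (enc_mul (enc_norm (lc22a_11.enc h1 h2)) (enc_norm (enc_subr 30887 50000 (enc_scale 1237 1000 h1))))) (enc_add (enc_subr 243 5000 (enc_scale 243 2500 h1)) (enc_mul (enc_norm (lc22a_11.enc h1 h2)) (enc_norm (enc_subr 6109 10000 (enc_scale 6109 5000 h1))))))))))))⟩
noncomputable def kcc22a_11 : Fn2 := ⟨_, _, fun h1 h2 => (enc_subr 1047 2000 h2)⟩
noncomputable def kcc22a : Fn2 := ⟨_, _, fun h1 h2 => (enc_norm (enc_mul (enc_norm (enc_add (enc_scale 3 5 h1) (enc_scale 2 5 (enc_subr 1 2 (swg.enc (yag.enc h1)))))) (enc_norm (enc_case (enc_subr 1 4 h1) (enc_add (enc_sub (enc_rat _ 3443341 1000000) (enc_scale 198981 25000 h1)) (enc_mul (enc_norm (kcc22a_11.enc h1 h2)) (enc_norm (enc_subr 14999 1000 (enc_scale 746769 25000 h1))))) (enc_add (enc_sub (enc_rat _ 1453531 500000) (enc_scale 1453531 250000 h1))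 (enc_mul (enc_norm (kcc22a_11.enc h1 h2)) (enc_norm (enc_subr 753131 50000 (enc_scale 753131 25000 h1)))))))))⟩
noncomputable def xc22b : Fn1 := ⟨_, _, fun h1 => (enc_norm (enc_scale 2 5 (enc_subr 1 2 (swg.enc h1))))⟩
noncomputable def kfc22b_9 : Fn2 := ⟨_, _, fun h1 h2 => (enc_subr 1047 2000 h2)⟩
noncomputable def kfc22b : Fn2 := ⟨_, _, fun h1 h2 => (enc_norm (enc_mul (enc_norm (enc_scale 2 5 (enc_subr 1 2 (swg.enc h1)))) (enc_norm (enc_case (enc_subr 127 100 h1) (enc_add (enc_sub (enc_rat _ 138466853 29000000) (enc_scale 194947 58000 h1)) (enc_mul (enc_norm (kfc22b_9.enc h1 h2)) (enc_norm (enc_subr 3631149 290000 (enc_scale 14243 1450 h1))))) (enc_case (enc_subr 69 50 h1) (enc_add (enc_sub (enc_rat _ 25154717 5500000) (enc_scale 176153 55000 h1)) (enc_mul (enc_norm (kfc22b_9.enc h1 h2)) (enc_norm (enc_subr 196243 22000 (enc_scale 3843 550 h1))))) (enc_add (enc_sub (enc_rat _ 9029253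 2000000) (enc_scale 379207 120000 h1)) (enc_mul (enc_norm (kfc22b_9.enc h1 h2)) (enc_norm (enc_subr 317579 50000 (enc_scale 2563 500 h1))))))))))⟩
noncomputable def lc22b_9 : Fn2 := ⟨_, _, fun h1 h2 => (enc_subr 1047 2000 h2)⟩
noncomputable def lc22b : Fn2 := ⟨_, _, fun h1 h2 => (enc_norm (enc_mul (enc_norm (enc_scale 2 5 (enc_subr 1 2 (swg.enc h1)))) (enc_norm (enc_case (enc_subr 127 100 h1) (enc_add (enc_subr 61642169 29000000 (enc_scale 19167 11600 h1)) (enc_mul (enc_norm (lc22b_9.enc h1 h2)) (enc_norm (enc_subr 28962813 5800000 (enc_scale 42633 11600 h1))))) (enc_case (enc_subr 69 50 h1) (enc_add (enc_subr 23465201 11000000 (enc_scale 36483 22000 h1)) (enc_mul (enc_norm (lc22b_9.enc h1 h2)) (enc_norm (enc_sub (enc_rat _ 656291 550000) (enc_scale 13159 11000 h1))))) (enc_add (enc_subr 529861 250000 (enc_scale 32967 20000 h1)) (enc_mul (enc_norm (lc22b_9.enc h1 h2)) (enc_norm (enc_sub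 (enc_rat _ 358061 200000) (enc_scale 19547 12000 h1))))))))))⟩
noncomputable def kcc22b : Fn2 := ⟨_, _, fun h1 h2 => (enc_norm (enc_mul (enc_norm (enc_scale 2 5 (enc_subr 1 2 (swg.enc h1)))) (enc_norm (enc_add (enc_add (enc_scale 5577 3460 h1) (enc_rat _ 68431077 43250000)) (enc_mul (enc_norm (enc_subr 1047 2000 h2)) (enc_norm (enc_subr 129747087 8650000 (enc_neg (enc_scale 1 6920 h1)))))))))⟩
noncomputable def cv2r : Fn1 := ⟨_, _, fun h1 => (enc_norm (enc_scale 2 5 (enc_subr 1 2 (swg.enc h1))))⟩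
noncomputable def bf2q3_3 : Fn2 := ⟨_, _, fun h1 h2 => (enc_subr 1047 2000 h2)⟩
noncomputable def bf2q3 : Fn2 := ⟨_, _, fun h1 h2 => (enc_norm (enc_case (enc_subr 17 10 h1) (enc_case (enc_subr 1547 1000 h1) (enc_add (enc_subr 27642019 23500000 (enc_scale 17777 23500 h1)) (enc_mul (enc_norm (bf2q3_3.enc h1 h2)) (enc_norm (enc_subr 1987987 2350000 (enc_scale 584 1175 h1))))) (enc_add (enc_subr 73539 62500 (enc_scale 1608 2125 h1)) (enc_mul (enc_norm (bf2q3_3.enc h1 h2)) (enc_norm (enc_subr 84419 100000 (enc_scale 843 1700 h1)))))) (enc_case (enc_subr 37 20 h1) (enc_add (enc_subr 1757101 1500000 (enc_scale 22609 30000 h1)) (enc_mul (enc_norm (bf2q3_3.enc h1 h2)) (enc_norm (enc_subr 254507 300000 (enc_scale 299 600 h1))))) (enc_add (enc_subr 3498181 3000000 (enc_scale 28153 37500 h1)) (enc_mul (enc_norm (bf2q3_3.enc h1 h2)) (enc_norm (enc_subr 255617 300000 (enc_scale 1501 3000 h1))))))))⟩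
noncomputable def kf2q3 : Fn2 := ⟨_, _, fun h1 h2 => (enc_norm (enc_mul (cv2r.enc h1) (bf2q3.enc h1 h2)))⟩
noncomputable def bx2q3_3 : Fn2 := ⟨_, _, fun h1 h2 => (enc_subr 1047 2000 h2)⟩
noncomputable def bx2q3 : Fn2 := ⟨_, _, fun h1 h2 => (enc_norm (enc_case (enc_subr 17 10 h1) (enc_case (enc_subr 1547 1000 h1) (enc_add (enc_subr 343407 2350000 (enc_scale 559 1880 h1)) (enc_mul (enc_norm (bx2q3_3.enc h1 h2)) (enc_norm (enc_subr 94724897 4700000 (enc_scale 59357 4700 h1))))) (enc_add (enc_subr 433991 3000000 (enc_scale 3779 12750 h1)) (enc_mul (enc_norm (bx2q3_3.enc h1 h2)) (enc_norm (enc_subr 151633 7500 (enc_scale 32309 2550 h1)))))) (enc_case (enc_subr 37 20 h1) (enc_add (enc_subr 352159 3000000 (enc_scale 10513 37500 h1)) (enc_mul (enc_norm (bx2q3_3.enc h1 h2)) (enc_norm (enc_subr 250907 12500 (enc_scale 15731 1250 h1))))) (enc_add (enc_subr 111713 1000000 (enc_scale 1733 6250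 h1)) (enc_mul (enc_norm (bx2q3_3.enc h1 h2)) (enc_norm (enc_subr 5990651 300000 (enc_scale 187931 15000 h1))))))))⟩
noncomputable def l2q3 : Fn2 := ⟨_, _, fun h1 h2 => (enc_norm (enc_mul (cv2r.enc h1) (bx2q3.enc h1 h2)))⟩
noncomputable def bd2q3 : Fn2 := ⟨_, _, fun h1 h2 => (enc_norm (enc_add (enc_sub (enc_rat _ 3018609 250000) (enc_scale 2781447 500000 h1)) (enc_mul (enc_norm (enc_subr 1047 2000 h2)) (enc_norm (enc_subr 760311 50000 (enc_scale 457107 50000 h1))))))⟩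
noncomputable def kc2q3 : Fn2 := ⟨_, _, fun h1 h2 => (enc_norm (enc_mul (cv2r.enc h1) (bd2q3.enc h1 h2)))⟩
noncomputable def cv3m : Fn1 := ⟨_, _, fun h1 => (enc_norm (enc_add (enc_scale 1 5 (c1g.enc h1)) (enc_scale 4 5 (enc_add (swg.enc h1) (enc_rat _ 1 2)))))⟩
noncomputable def bf3q0_3 : Fn2 := ⟨_, _, fun h1 h2 => (enc_subr 1047 2000 h2)⟩
noncomputable def bf3q0 : Fn2 := ⟨_, _, fun h1 h2 => (enc_norm (enc_case (enc_subr 3 10 h1) (enc_case (enc_subr 3 20 h1) (enc_add (enc_sub (enc_pnc _ 1) (enc_scale 54149 25000 h1)) (enc_mul (enc_norm (bf3q0_3.enc h1 h2)) (enc_scale 9797 7500 h1))) (enc_add (enc_sub (enc_rat _ 434917 500000) (enc_scale 24341 18750 h1)) (enc_mul (enc_norm (bf3q0_3.enc h1 h2)) (enc_norm (enc_subr 2951 6250 (enc_scale 2227 500 h1)))))) (enc_case (enc_subr 453 1000 h1) (enc_add (enc_sub (enc_rat _ 34133789 25500000) (enc_scale 437683 153000 h1)) (enc_mul (enc_norm (bf3q0_3.enc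 h1 h2)) (enc_norm (enc_sub (enc_rat _ 3309001 1275000) (enc_scale 44147 7650 h1))))) (enc_add (enc_sub (enc_rat _ 63090091 47000000) (enc_scale 67421 23500 h1)) (enc_mul (enc_norm (bf3q0_3.enc h1 h2)) (enc_norm (enc_sub (enc_rat _ 1132479 2350000) (enc_scale 1299 1175 h1))))))))⟩
noncomputable def kf3q0 : Fn2 := ⟨_, _, fun h1 h2 => (enc_norm (enc_mul (cv3m.enc h1) (bf3q0.enc h1 h2)))⟩
noncomputable def bx3q0_3 : Fn2 := ⟨_, _, fun h1 h2 => (enc_subr 1047 2000 h2)⟩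
noncomputable def bx3q0 : Fn2 := ⟨_, _, fun h1 h2 => (enc_norm (enc_case (enc_subr 3 10 h1) (enc_case (enc_subr 3 20 h1) (enc_add (enc_scale 23531 75000 h1) (enc_mul (enc_norm (bx3q0_3.enc h1 h2)) (enc_scale 16573 15000 h1))) (enc_add (enc_add (enc_scale 26899 150000 h1) (enc_rat _ 20163 1000000)) (enc_mul (enc_norm (bx3q0_3.enc h1 h2)) (enc_norm (enc_sub (enc_rat _ 29977 100000) (enc_scale 1117 1250 h1)))))) (enc_case (enc_subr 453 1000 h1) (enc_add (enc_sub (enc_rat _ 1445537 17000000) (enc_scale 941 25500 h1)) (enc_mul (enc_norm (bx3q0_3.enc h1 h2)) (enc_norm (enc_sub (enc_rat _ 470973 1700000) (enc_scale 4171 5100 h1))))) (enc_add (enc_sub (enc_rat _ 3763721 23500000) (enc_scale 9529 47000 h1)) (enc_mul (enc_norm (bx3q0_3.enc h1 h2)) (enc_norm (enc_sub (enc_rat _ 811897 2350000) (enc_scale 2277 2350 h1))))))))⟩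
noncomputable def l3q0 : Fn2 := ⟨_, _, fun h1 h2 => (enc_norm (enc_mul (cv3m.enc h1) (bx3q0.enc h1 h2)))⟩
noncomputable def bd3q0 : Fn2 := ⟨_, _, fun h1 h2 => (enc_norm (enc_sub (enc_neg (enc_scale 508381 100000 h1)) (enc_mul (enc_norm (enc_subr 1047 2000 h2)) (enc_scale 35673 25000 h1))))⟩
noncomputable def kc3q0 : Fn2 := ⟨_, _, fun h1 h2 => (enc_norm (enc_mul (cv3m.enc h1) (bd3q0.enc h1 h2)))⟩
noncomputable def bf3q1_3 : Fn2 := ⟨_, _, fun h1 h2 => (enc_subr 1047 2000 h2)⟩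
noncomputable def bf3q1 : Fn2 := ⟨_, _, fun h1 h2 => (enc_norm (enc_case (enc_subr 67 100 h1) (enc_add (enc_subr 32832651 17000000 (enc_scale 335891 85000 h1)) (enc_mul (enc_norm (bf3q1_3.enc h1 h2)) (enc_norm (enc_sub (enc_rat _ 1336531 425000) (enc_scale 19411 3400 h1))))) (enc_case (enc_subr 83 100 h1) (enc_add (enc_add (enc_scale 27179 40000 h1) (enc_rat _ 1044123 4000000)) (enc_mul (enc_norm (bf3q1_3.enc h1 h2)) (enc_norm (enc_subr 2476209 800000 (enc_scale 5767 1600 h1))))) (enc_add (enc_add (enc_scale 12099 17000 h1) (enc_rat _ 796549 3400000)) (enc_mul (enc_norm (bf3q1_3.enc h1 h2)) (enc_norm (enc_subr 652163 425000 (enc_scale 29307 17000 h1))))))))⟩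
noncomputable def kf3q1 : Fn2 := ⟨_, _, fun h1 h2 => (enc_norm (enc_mul (cv3m.enc h1) (bf3q1.enc h1 h2)))⟩
noncomputable def bx3q1_3 : Fn2 := ⟨_, _, fun h1 h2 => (enc_subr 1047 2000 h2)⟩
noncomputable def bx3q1 : Fn2 := ⟨_, _, fun h1 h2 => (enc_norm (enc_case (enc_subr 67 100 h1) (enc_add (enc_sub (enc_rat _ 2387433 17000000) (enc_scale 13921 85000 h1)) (enc_mul (enc_norm (bx3q1_3.enc h1 h2)) (enc_norm (enc_subr 93359 1700000 (enc_neg (enc_scale 214 2125 h1)))))) (enc_case (enc_subr 83 100 h1) (enc_add (enc_sub (enc_rat _ 145179 800000) (enc_scale 9001 40000 h1)) (enc_mul (enc_norm (bx3q1_3.enc h1 h2)) (enc_norm (enc_subr 1750559 1600000 (enc_scale 4641 3200 h1))))) (enc_add (enc_subr 100213 3400000 (enc_scale 619 21250 h1)) (enc_mul (enc_norm (bx3q1_3.enc h1 h2)) (enc_norm (enc_sub (enc_rat _ 480987 850000) (enc_scale 1168 2125 h1))))))))⟩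
noncomputable def l3q1 : Fn2 := ⟨_, _, fun h1 h2 => (enc_norm (enc_mul (cv3m.enc h1) (bx3q1.enc h1 h2)))⟩
noncomputable def bd3q1 : Fn2 := ⟨_, _, fun h1 h2 => (enc_norm (enc_add (enc_subr 846461 100000 (enc_scale 2734533 250000 h1)) (enc_mul (enc_norm (enc_subr 1047 2000 h2)) (enc_norm (enc_sub (enc_rat _ 681897 100000) (enc_scale 141363 12500 h1))))))⟩
noncomputable def kc3q1 : Fn2 := ⟨_, _, fun h1 h2 => (enc_norm (enc_mul (cv3m.enc h1) (bd3q1.enc h1 h2)))⟩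
noncomputable def xc32a : Fn1 := ⟨_, _, fun h1 => (enc_norm (enc_add (enc_scale 1 5 h1) (enc_scale 4 5 (enc_subr 1 2 (swg.enc (yag.enc h1))))))⟩
noncomputable def kfc32a_11 : Fn2 := ⟨_, _, fun h1 h2 => (enc_subr 1047 2000 h2)⟩
noncomputable def kfc32a : Fn2 := ⟨_, _, fun h1 h2 => (enc_norm (enc_mul (enc_norm (enc_add (enc_scale 1 5 h1) (enc_scale 4 5 (enc_subr 1 2 (swg.enc (yag.enc h1)))))) (enc_norm (enc_case (enc_subr 1 4 h1) (enc_case (enc_subr 1 10 h1) (enc_case (enc_subr 1 20 h1) (enc_add (enc_add (enc_scale 18577 25000 h1) (enc_rat _ 674237 1000000)) (enc_mul (enc_norm (kfc32a_11.enc h1 h2)) (enc_norm (enc_subr 42007 100000 (enc_scale 3041 2500 h1))))) (enc_add (enc_add (enc_scale 9289 12500 h1) (enc_rat _ 134847 200000)) (enc_mul (enc_norm (kfc32a_11.enc h1 h2)) (enc_norm (enc_subr 21123 50000 (enc_scale 6321 5000 h1)))))) (enc_case (enc_subr 3 20 h1) (enc_add (enc_add (enc_scale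 1891 2500 h1) (enc_rat _ 672907 1000000)) (enc_mul (enc_norm (kfc32a_11.enc h1 h2)) (enc_norm (enc_subr 17579 50000 (enc_scale 2777 5000 h1))))) (enc_case (enc_subr 1 5 h1) (enc_add (enc_add (enc_scale 9601 12500 h1) (enc_rat _ 134231 200000)) (enc_mul (enc_norm (kfc32a_11.enc h1 h2)) (enc_norm (enc_subr 10643 50000 (enc_neg (enc_scale 1847 5000 h1)))))) (enc_add (enc_add (enc_scale 19189 25000 h1) (enc_rat _ 671259 1000000)) (enc_mul (enc_norm (kfc32a_11.enc h1 h2)) (enc_norm (enc_subr 213 2000 (enc_neg (enc_scale 2253 2500 h1))))))))) (enc_case (enc_subr 7 20 h1) (enc_case (enc_subr 3 10 h1) (enc_add (enc_add (enc_scale 36841 50000 h1) (enc_rat _ 21217 31250)) (enc_mul (enc_norm (kfc32a_11.enc h1 h2)) (enc_norm (enc_subr 37 250 (enc_neg (enc_scale 919 1250 h1)))))) (enc_add (enc_add (enc_scale 16473 25000 h1) (enc_rat _ 351157 500000)) (enc_mul (enc_norm (kfc32a_11.enc h1 h2)) (enc_norm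 (enc_subr 8977 25000 (enc_neg (enc_scale 79 2500 h1))))))) (enc_case (enc_subr 2 5 h1) (enc_add (enc_add (enc_scale 2869 5000 h1) (enc_rat _ 366053 500000)) (enc_mul (enc_norm (kfc32a_11.enc h1 h2)) (enc_norm (enc_subr 62669 100000 (enc_scale 733 1000 h1))))) (enc_case (enc_subr 9 20 h1) (enc_add (enc_add (enc_scale 23677 50000 h1) (enc_rat _ 77221 100000)) (enc_mul (enc_norm (kfc32a_11.enc h1 h2)) (enc_norm (enc_subr 103749 100000 (enc_scale 44 25 h1))))) (enc_add (enc_add (enc_scale 14697 50000 h1) (enc_rat _ 85303 100000)) (enc_mul (enc_norm (kfc32a_11.enc h1 h2)) (enc_norm (enc_subr 24549 10000 (enc_scale 24549 5000 h1))))))))))))⟩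
noncomputable def lc32a_11 : Fn2 := ⟨_, _, fun h1 h2 => (enc_subr 1047 2000 h2)⟩
noncomputable def lc32a : Fn2 := ⟨_, _, fun h1 h2 => (enc_norm (enc_mul (enc_norm (enc_add (enc_scale 1 5 h1) (enc_scale 4 5 (enc_subr 1 2 (swg.enc (yag.enc h1)))))) (enc_norm (enc_case (enc_subr 1 4 h1) (enc_case (enc_subr 1 10 h1) (enc_case (enc_subr 1 20 h1) (enc_add (enc_subr 57251 1000000 (enc_scale 7283 25000 h1)) (enc_mul (enc_norm (lc32a_11.enc h1 h2)) (enc_norm (enc_subr 2809 10000 (enc_neg (enc_scale 1427 5000 h1)))))) (enc_add (enc_subr 28233 500000 (enc_scale 13781 50000 h1)) (enc_mul (enc_norm (lc32a_11.enc h1 h2)) (enc_norm (enc_subr 29033 100000 (enc_neg (enc_scale 121 1250 h1))))))) (enc_case (enc_subr 3 20 h1) (enc_add (enc_subr 973 20000 (enc_scale 9873 50000 h1)) (enc_mul (enc_norm (lc32a_11.enc h1 h2)) (enc_norm (enc_subr 36711 100000 (enc_scale 671 1000 h1))))) (enc_case (enc_subr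 1 5 h1) (enc_add (enc_subr 18907 500000 (enc_scale 6261 50000 h1)) (enc_mul (enc_norm (lc32a_11.enc h1 h2)) (enc_norm (enc_subr 39267 100000 (enc_scale 4207 5000 h1))))) (enc_add (enc_subr 15433 500000 (enc_scale 1131 12500 h1)) (enc_mul (enc_norm (lc32a_11.enc h1 h2)) (enc_norm (enc_subr 35351 100000 (enc_scale 807 1250 h1)))))))) (enc_case (enc_subr 7 20 h1) (enc_case (enc_subr 3 10 h1) (enc_add (enc_subr 763 31250 (enc_scale 1617 25000 h1)) (enc_mul (enc_norm (lc32a_11.enc h1 h2)) (enc_norm (enc_subr 16453 50000 (enc_scale 2739 5000 h1))))) (enc_add (enc_subr 4691 250000 (enc_scale 573 12500 h1)) (enc_mul (enc_norm (lc32a_11.enc h1 h2)) (enc_norm (enc_subr 3847 12500 (enc_scale 298 625 h1)))))) (enc_case (enc_subr 2 5 h1) (enc_add (enc_subr 11827 1000000 (enc_scale 1301 50000 h1)) (enc_mul (enc_norm (lc32a_11.enc h1 h2)) (enc_norm (enc_subr 6529 20000 (enc_scale 2651 5000 h1)))))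 (enc_case (enc_subr 9 20 h1) (enc_add (enc_subr 1167 200000 (enc_scale 69 6250 h1)) (enc_mul (enc_norm (lc32a_11.enc h1 h2)) (enc_norm (enc_subr 42077 100000 (enc_scale 383 500 h1))))) (enc_add (enc_subr 867 100000 (enc_scale 867 50000 h1)) (enc_mul (enc_norm (lc32a_11.enc h1 h2)) (enc_norm (enc_subr 7607 10000 (enc_scale 7607 5000 h1))))))))))))⟩
noncomputable def kcc32a_11 : Fn2 := ⟨_, _, fun h1 h2 => (enc_subr 1047 2000 h2)⟩
noncomputable def kcc32a : Fn2 := ⟨_, _, fun h1 h2 => (enc_norm (enc_mul (enc_norm (enc_add (enc_scale 1 5 h1) (enc_scale 4 5 (enc_subr 1 2 (swg.enc (yag.enc h1)))))) (enc_norm (enc_case (enc_subr 1 4 h1) (enc_add (enc_sub (enc_rat _ 534411 500000) (enc_scale 528381 250000 h1)) (enc_mul (enc_norm (kcc32a_11.enc h1 h2)) (enc_norm (enc_subr 374757 25000 (enc_scale 152659 5000 h1))))) (enc_add (enc_sub (enc_rat _ 540441 500000) (enc_scale 540441 250000 h1)) (enc_mul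 (enc_norm (kcc32a_11.enc h1 h2)) (enc_norm (enc_subr 735733 50000 (enc_scale 735733 25000 h1)))))))))⟩
noncomputable def xc32b : Fn1 := ⟨_, _, fun h1 => (enc_norm (enc_scale 4 5 (enc_subr 1 2 (swg.enc h1))))⟩
noncomputable def kfc32b_9 : Fn2 := ⟨_, _, fun h1 h2 => (enc_subr 1047 2000 h2)⟩
noncomputable def kfc32b : Fn2 := ⟨_, _, fun h1 h2 => (enc_norm (enc_mul (enc_norm (enc_scale 4 5 (enc_subr 1 2 (swg.enc h1)))) (enc_norm (enc_case (enc_subr 127 100 h1) (enc_add (enc_sub (enc_rat _ 35635023 11600000) (enc_scale 240821 116000 h1)) (enc_mul (enc_norm (kfc32b_9.enc h1 h2)) (enc_norm (enc_subr 3462613 290000 (enc_scale 2893 290 h1))))) (enc_case (enc_subr 69 50 h1) (enc_add (enc_sub (enc_rat _ 2571803 687500) (enc_scale 143147 55000 h1)) (enc_mul (enc_norm (kfc32b_9.enc h1 h2)) (enc_norm (enc_subr 275709 25000 (enc_scale 4629 500 h1))))) (enc_add (enc_subr 37201 50000 (enc_scale 809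 1250 h1)) (enc_mul (enc_norm (kfc32b_9.enc h1 h2)) (enc_norm (enc_sub (enc_rat _ 6662093 200000) (enc_scale 274459 12000 h1))))))))))⟩
noncomputable def lc32b_9 : Fn2 := ⟨_, _, fun h1 h2 => (enc_subr 1047 2000 h2)⟩
noncomputable def lc32b : Fn2 := ⟨_, _, fun h1 h2 => (enc_norm (enc_mul (enc_norm (enc_scale 4 5 (enc_subr 1 2 (swg.enc h1)))) (enc_norm (enc_case (enc_subr 127 100 h1) (enc_add (enc_subr 24390071 29000000 (enc_scale 39373 58000 h1)) (enc_mul (enc_norm (lc32b_9.enc h1 h2)) (enc_norm (enc_subr 6297463 2900000 (enc_scale 2371 1450 h1))))) (enc_case (enc_subr 69 50 h1) (enc_add (enc_subr 12658317 11000000 (enc_scale 101499 110000 h1)) (enc_mul (enc_norm (lc32b_9.enc h1 h2)) (enc_norm (enc_subr 193129 100000 (enc_scale 723 500 h1))))) (enc_add (enc_subr 1119359 1000000 (enc_scale 26999 30000 h1)) (enc_mul (enc_norm (lc32b_9.enc h1 h2)) (enc_norm (enc_sub (enc_rat _ 358893 50000)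 (enc_scale 30929 6000 h1))))))))))⟩
noncomputable def kcc32b : Fn2 := ⟨_, _, fun h1 h2 => (enc_norm (enc_mul (enc_norm (enc_scale 4 5 (enc_subr 1 2 (swg.enc h1)))) (enc_norm (enc_add (enc_subr 3021467 346000 (enc_scale 1468489 173000 h1)) (enc_mul (enc_norm (enc_subr 1047 2000 h2)) (enc_norm (enc_subr 8107372 540625 (enc_neg (enc_scale 17 6920 h1)))))))))⟩
noncomputable def cv3r : Fn1 := ⟨_, _, fun h1 => (enc_norm (enc_scale 4 5 (enc_subr 1 2 (swg.enc h1))))⟩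
noncomputable def bf3q3_3 : Fn2 := ⟨_, _, fun h1 h2 => (enc_subr 1047 2000 h2)⟩
noncomputable def bf3q3 : Fn2 := ⟨_, _, fun h1 h2 => (enc_norm (enc_case (enc_subr 17 10 h1) (enc_case (enc_subr 1547 1000 h1) (enc_add (enc_subr 63594899 47000000 (enc_scale 40303 47000 h1)) (enc_mul (enc_norm (bf3q3_3.enc h1 h2)) (enc_norm (enc_subr 1209839 2350000 (enc_scale 1451 4700 h1))))) (enc_add (enc_subr 477751 375000 (enc_scale 20563 25500 h1)) (enc_mul (enc_norm (bf3q3_3.enc h1 h2)) (enc_norm (enc_subr 65239 100000 (enc_scale 169 425 h1)))))) (enc_case (enc_subr 37 20 h1) (enc_add (enc_subr 1914883 1500000 (enc_scale 121187 150000 h1)) (enc_mul (enc_norm (bf3q3_3.enc h1 h2)) (enc_norm (enc_subr 186683 300000 (enc_scale 5699 15000 h1))))) (enc_add (enc_subr 1300133 1000000 (enc_scale 5129 6250 h1)) (enc_mul (enc_norm (bf3q3_3.enc h1 h2)) (enc_norm (enc_subr 170329 300000 (enc_scale 5257 15000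 h1))))))))⟩
noncomputable def kf3q3 : Fn2 := ⟨_, _, fun h1 h2 => (enc_norm (enc_mul (cv3r.enc h1) (bf3q3.enc h1 h2)))⟩
noncomputable def bx3q3_3 : Fn2 := ⟨_, _, fun h1 h2 => (enc_subr 1047 2000 h2)⟩
noncomputable def bx3q3 : Fn2 := ⟨_, _, fun h1 h2 => (enc_norm (enc_case (enc_subr 17 10 h1) (enc_case (enc_subr 1547 1000 h1) (enc_add (enc_subr 32316219 23500000 (enc_scale 50287 47000 h1)) (enc_mul (enc_norm (bx3q3_3.enc h1 h2)) (enc_norm (enc_subr 14227199 4700000 (enc_scale 3799 2350 h1))))) (enc_add (enc_subr 519857 1000000 (enc_scale 879 1700 h1)) (enc_mul (enc_norm (bx3q3_3.enc h1 h2)) (enc_norm (enc_subr 1669423 90000 (enc_scale 178249 15300 h1)))))) (enc_case (enc_subr 37 20 h1) (enc_add (enc_add (enc_scale 991 12500 h1) (enc_rat _ 224367 1000000)) (enc_mul (enc_norm (bx3q3_3.enc h1 h2)) (enc_norm (enc_subr 109327 7500 (enc_scale 27941 3000 h1))))) (enc_add (enc_add (enc_scale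 3331 50000 h1) (enc_rat _ 61947 250000)) (enc_mul (enc_norm (bx3q3_3.enc h1 h2)) (enc_norm (enc_subr 178339 12500 (enc_scale 45731 5000 h1))))))))⟩
noncomputable def l3q3 : Fn2 := ⟨_, _, fun h1 h2 => (enc_norm (enc_mul (cv3r.enc h1) (bx3q3.enc h1 h2)))⟩
noncomputable def bd3q3 : Fn2 := ⟨_, _, fun h1 h2 => (enc_norm (enc_add (enc_sub (enc_rat _ 3051803 250000) (enc_scale 2828941 500000 h1)) (enc_mul (enc_norm (enc_subr 1047 2000 h2)) (enc_norm (enc_subr 103711 6250 (enc_scale 256261 25000 h1))))))⟩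
noncomputable def kc3q3 : Fn2 := ⟨_, _, fun h1 h2 => (enc_norm (enc_mul (cv3r.enc h1) (bd3q3.enc h1 h2)))⟩
noncomputable def c3g : Fn1 := ⟨_, _, fun h1 => (enc_sqrtg (enc_sub (enc_pnc _ 3) (enc_scale 3 4 (enc_sq h1))))⟩
noncomputable def cv4m : Fn1 := ⟨_, _, fun h1 => (enc_norm (enc_add (enc_scale 7 10 (enc_add (swg.enc h1) (enc_rat _ 1 2))) (enc_scale 3 10 (c3g.enc h1))))⟩
noncomputable def bf4q0_3 : Fn2 := ⟨_, _, fun h1 h2 => (enc_subr 1047 2000 h2)⟩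
noncomputable def bf4q0 : Fn2 := ⟨_, _, fun h1 h2 => (enc_norm (enc_case (enc_subr 7 50 h1) (enc_add (enc_sub (enc_rat _ 155069 250000) (enc_scale 108477 70000 h1)) (enc_mul (enc_norm (bf4q0_3.enc h1 h2)) (enc_norm (enc_add (enc_scale 22887 14000 h1) (enc_rat _ 23 50000))))) (enc_case (enc_subr 29 100 h1) (enc_add (enc_sub (enc_rat _ 1390547 2500000) (enc_scale 27303 25000 h1)) (enc_mul (enc_norm (bf4q0_3.enc h1 h2)) (enc_norm (enc_subr 687917 1500000 (enc_scale 18427 3750 h1))))) (enc_add (enc_sub (enc_rat _ 2284119807 2200000000) (enc_scale 60593483 22000000 h1)) (enc_mul (enc_norm (bf4q0_3.enc h1 h2)) (enc_norm (enc_sub (enc_rat _ 11122087391 3575000000) (enc_scale 264385229 35750000 h1))))))))⟩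
noncomputable def esg : Fn1 := ⟨_, _, fun h1 => (enc_norm (enc_subn 1 (enc_add (enc_half h1) (gsg.enc h1))))⟩
noncomputable def kf4q0_9 : Fn2 := ⟨_, _, fun h1 h2 => (enc_sub (enc_pnc _ 1) h1)⟩
noncomputable def kf4q0_10 : Fn2 := ⟨_, _, fun h1 h2 => (gsg.enc (enc_norm (kf4q0_9.enc h1 h2)))⟩
noncomputable def kf4q0_13 : Fn2 := ⟨_, _, fun h1 h2 => (enc_sub (enc_scale 3 4 (kf4q0_9.enc h1 h2)) (enc_half (kf4q0_10.enc h1 h2)))⟩
noncomputable def kf4q0_31 : Fn2 := ⟨_, _, fun h1 h2 => (enc_mul (cv3m.enc h1) (bf3q0.enc h1 h2))⟩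
noncomputable def kf4q0 : Fn2 := ⟨_, _, fun h1 h2 => (enc_norm (enc_case (enc_subr 433 1000 h1) (enc_mul (cv4m.enc h1) (bf4q0.enc h1 h2)) (enc_add (kf4q0_31.enc h1 h2) (enc_mul (enc_norm (enc_mul (enc_norm (enc_sub (enc_mul h1 (enc_norm (enc_sub (enc_mul (enc_norm (enc_sub (kf4q0_13.enc h1 h2) (enc_sub (enc_rat _ 1 4) (enc_scale 3 8 (enc_mul (enc_norm (kf4q0_9.enc h1 h2)) (enc_inv (kf4q0_10.enc h1 h2))))))) (enc_inv (esg.enc (enc_norm (kf4q0_9.enc h1 h2))))) (kcg.enc (enc_norm (kf4q0_13.enc h1 h2)) h2)))) (kf4q0_31.enc h1 h2))) (enc_norm (enc_sub (cv4m.enc h1) (cv3m.enc h1))))) (enc_inv (enc_sub (enc_add (swg.enc h1) (enc_rat _ 1 2)) (cv3m.enc h1)))))))⟩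
noncomputable def bx4q0_3 : Fn2 := ⟨_, _, fun h1 h2 => (enc_subr 1047 2000 h2)⟩
noncomputable def bx4q0 : Fn2 := ⟨_, _, fun h1 h2 => (enc_norm (enc_case (enc_subr 7 50 h1) (enc_add (enc_add (enc_scale 1373 4375 h1) (enc_rat _ 48517 1000000)) (enc_mul (enc_norm (bx4q0_3.enc h1 h2)) (enc_norm (enc_sub (enc_rat _ 14203 50000) (enc_scale 9649 7000 h1))))) (enc_case (enc_subr 29 100 h1) (enc_add (enc_add (enc_scale 2723 75000 h1) (enc_rat _ 1310551 15000000)) (enc_mul (enc_norm (bx4q0_3.enc h1 h2)) (enc_norm (enc_add (enc_scale 2767 15000 h1) (enc_rat _ 48941 750000))))) (enc_add (enc_sub (enc_rat _ 996637847 6500000000) (enc_scale 12423943 65000000 h1)) (enc_mul (enc_norm (bx4q0_3.enc h1 h2)) (enc_norm (enc_sub (enc_rat _ 1561877367 7150000000) (enc_scale 24579823 71500000 h1))))))))⟩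
noncomputable def qsg : Fn1 := ⟨_, _, fun h1 => (enc_norm (enc_mul (enc_norm (enc_sub (enc_pnc _ 1) (gsg.enc h1))) (enc_norm (enc_subn 1 (enc_nat 2 (gsg.enc h1))))))⟩
noncomputable def l4q0_9 : Fn2 := ⟨_, _, fun h1 h2 => (enc_sub (enc_pnc _ 1) h1)⟩
noncomputable def l4q0_24 : Fn2 := ⟨_, _, fun h1 h2 => (enc_mul (cv3m.enc h1) (bx3q0.enc h1 h2))⟩
noncomputable def l4q0 : Fn2 := ⟨_, _, fun h1 h2 => (enc_norm (enc_case (enc_subr 433 1000 h1) (enc_mul (cv4m.enc h1) (bx4q0.enc h1 h2)) (enc_add (l4q0_24.enc h1 h2) (enc_mul (enc_norm (enc_mul (enc_norm (enc_sub (enc_sub (qsg.enc (enc_norm (l4q0_9.enc h1 h2))) (enc_mul (enc_norm (enc_nat 2 (enc_sub (l4q0_9.enc h1 h2) h2))) (enc_norm (enc_mul (esg.enc (enc_norm (l4q0_9.enc h1 h2))) (kcg.enc (enc_norm (enc_sub (enc_scale 3 4 (l4q0_9.enc h1 h2)) (enc_half (gsg.enc (enc_norm (l4q0_9.enc h1 h2)))))) h2))))) (l4q0_24.enc h1 h2))) (enc_norm (enc_sub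 (cv4m.enc h1) (cv3m.enc h1))))) (enc_inv (enc_sub (enc_add (swg.enc h1) (enc_rat _ 1 2)) (cv3m.enc h1)))))))⟩
noncomputable def bd4q0 : Fn2 := ⟨_, _, fun h1 h2 => (enc_norm (enc_add (enc_subr 300711 500000 (enc_neg (enc_scale 11032207911 4330000000 h1))) (enc_mul (enc_norm (enc_subr 1047 2000 h2)) (enc_norm (enc_sub (enc_rat _ 58869 100000) (enc_scale 531277 43300000 h1))))))⟩
noncomputable def kc4q0_9 : Fn2 := ⟨_, _, fun h1 h2 => (enc_sub (enc_pnc _ 1) h1)⟩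
noncomputable def kc4q0_10 : Fn2 := ⟨_, _, fun h1 h2 => (gsg.enc (enc_norm (kc4q0_9.enc h1 h2)))⟩
noncomputable def kc4q0_14 : Fn2 := ⟨_, _, fun h1 h2 => (esg.enc (enc_norm (kc4q0_9.enc h1 h2)))⟩
noncomputable def kc4q0_18 : Fn2 := ⟨_, _, fun h1 h2 => (gug.enc (enc_norm (kc4q0_9.enc h1 h2)))⟩
noncomputable def kc4q0_20 : Fn2 := ⟨_, _, fun h1 h2 => (enc_mul (enc_norm (kc4q0_9.enc h1 h2)) (enc_inv (kc4q0_10.enc h1 h2)))⟩
noncomputable def kc4q0_21 : Fn2 := ⟨_, _, fun h1 h2 => (enc_scale 3 4 (kc4q0_20.enc h1 h2))⟩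
noncomputable def kc4q0_50 : Fn2 := ⟨_, _, fun h1 h2 => (enc_mul (cv3m.enc h1) (bd3q0.enc h1 h2))⟩
noncomputable def kc4q0 : Fn2 := ⟨_, _, fun h1 h2 => (enc_norm (enc_case (enc_subr 433 1000 h1) (enc_mul (cv4m.enc h1) (bd4q0.enc h1 h2)) (enc_add (kc4q0_50.enc h1 h2) (enc_mul (enc_norm (enc_mul (enc_norm (enc_sub (enc_add (enc_sub (enc_neg (enc_add (enc_add (enc_rat _ 3 4) (enc_scale 3 2 (kc4q0_9.enc h1 h2))) (enc_scale 3 4 (enc_mul (enc_norm (kc4q0_20.enc h1 h2)) (kc4q0_18.enc h1 h2))))) (enc_mul (enc_norm (enc_sub (enc_mul (enc_norm (enc_mul (enc_norm (kc4q0_21.enc h1 h2)) (enc_norm (enc_subn 3 (enc_nat 4 (kc4q0_10.enc h1 h2)))))) (kc4q0_14.enc h1 h2)) (enc_mul (qsg.enc (enc_norm (kc4q0_9.enc h1 h2))) (enc_norm (enc_sub (enc_rat _ 1 2) (kc4q0_21.enc h1 h2)))))) (enc_inv (enc_mul (enc_nat 2 (kc4q0_14.enc h1 h2)) (kc4q0_14.enc h1 h2))))) (enc_mul (kcg.enc (enc_norm (enc_sub (enc_scale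 3 4 (kc4q0_9.enc h1 h2)) (enc_half (kc4q0_10.enc h1 h2)))) h2) (enc_norm (enc_add (enc_pnc _ 1) (enc_add (kc4q0_18.enc h1 h2) (enc_nat 2 (kc4q0_10.enc h1 h2))))))) (kc4q0_50.enc h1 h2))) (enc_norm (enc_sub (cv4m.enc h1) (cv3m.enc h1))))) (enc_inv (enc_sub (enc_add (swg.enc h1) (enc_rat _ 1 2)) (cv3m.enc h1)))))))⟩
noncomputable def bf4q1_3 : Fn2 := ⟨_, _, fun h1 h2 => (enc_subr 1047 2000 h2)⟩
noncomputable def bf4q1 : Fn2 := ⟨_, _, fun h1 h2 => (enc_norm (enc_case (enc_subr 17 25 h1) (enc_add (enc_subr 22323000877 40000000000 (enc_scale 3100103581 1600000000 h1)) (enc_mul (enc_norm (bf4q1_3.enc h1 h2)) (enc_norm (enc_sub (enc_rat _ 75941297 2000000000) (enc_scale 41511841 80000000 h1))))) (enc_case (enc_subr 21 25 h1) (enc_add (enc_add (enc_scale 130431 160000 h1) (enc_rat _ 820549 4000000)) (enc_mul (enc_norm (bf4q1_3.enc h1 h2)) (enc_norm (enc_subr 272909 200000 (enc_scale 12349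 8000 h1))))) (enc_add (enc_add (enc_scale 1101 1600 h1) (enc_rat _ 499 1600)) (enc_mul (enc_norm (bf4q1_3.enc h1 h2)) (enc_norm (enc_subr 679 1600 (enc_scale 679 1600 h1))))))))⟩
noncomputable def kf4q1_9 : Fn2 := ⟨_, _, fun h1 h2 => (enc_sub (enc_pnc _ 1) h1)⟩
noncomputable def kf4q1_10 : Fn2 := ⟨_, _, fun h1 h2 => (gsg.enc (enc_norm (kf4q1_9.enc h1 h2)))⟩
noncomputable def kf4q1_13 : Fn2 := ⟨_, _, fun h1 h2 => (enc_sub (enc_scale 3 4 (kf4q1_9.enc h1 h2)) (enc_half (kf4q1_10.enc h1 h2)))⟩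
noncomputable def kf4q1_30 : Fn2 := ⟨_, _, fun h1 h2 => (enc_mul (cv3m.enc h1) (bf3q1.enc h1 h2))⟩
noncomputable def kf4q1 : Fn2 := ⟨_, _, fun h1 h2 => (enc_norm (enc_case (enc_subr 13 25 h1) (enc_add (kf4q1_30.enc h1 h2) (enc_mul (enc_norm (enc_mul (enc_norm (enc_sub (enc_mul (enc_norm (enc_subn 1 h1)) (enc_norm (enc_sub (enc_mul (enc_norm (enc_sub (kf4q1_13.enc h1 h2) (enc_sub (enc_rat _ 1 4) (enc_scale 3 8 (enc_mul (enc_norm (kf4q1_9.enc h1 h2)) (enc_inv (kf4q1_10.enc h1 h2))))))) (enc_inv (esg.enc (enc_norm (kf4q1_9.enc h1 h2))))) (kcg.enc (enc_norm (kf4q1_13.enc h1 h2)) h2)))) (kf4q1_30.enc h1 h2))) (enc_norm (enc_sub (cv4m.enc h1) (cv3m.enc h1))))) (enc_inv (enc_sub (enc_add (swg.enc h1) (enc_rat _ 1 2)) (cv3m.enc h1))))) (enc_mul (cv4m.enc h1) (bf4q1.enc h1 h2))))⟩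
noncomputable def bx4q1_3 : Fn2 := ⟨_, _, fun h1 h2 => (enc_subr 1047 2000 h2)⟩
noncomputable def bx4q1 : Fn2 := ⟨_, _, fun h1 h2 => (enc_norm (enc_case (enc_subr 17 25 h1) (enc_add (enc_add (enc_sub (enc_rat _ 6415076183 40000000000) (enc_scale 339418599 1600000000 h1)) (enc_mul (enc_norm (bx4q1_3.enc h1 h2)) (enc_norm (enc_subr 427063463 2000000000 (enc_scale 40908439 80000000 h1))))) (enc_mul (enc_sq (enc_norm (bx4q1_3.enc h1 h2))) (enc_norm (enc_subr 241247 800000 (enc_scale 14191 32000 h1))))) (enc_case (enc_subr 21 25 h1) (enc_add (enc_sub (enc_rat _ 110209 4000000) (enc_scale 2689 160000 h1)) (enc_mul (enc_norm (bx4q1_3.enc h1 h2)) (enc_norm (enc_sub (enc_rat _ 1659 8000) (enc_scale 861 8000 h1))))) (enc_add (enc_sub (enc_rat _ 2687 32000) (enc_scale 2687 32000 h1)) (enc_mul (enc_norm (bx4q1_3.enc h1 h2)) (enc_norm (enc_sub (enc_rat _ 11697 16000) (enc_scale 11697 16000 h1))))))))⟩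
noncomputable def l4q1_9 : Fn2 := ⟨_, _, fun h1 h2 => (enc_sub (enc_pnc _ 1) h1)⟩
noncomputable def l4q1_24 : Fn2 := ⟨_, _, fun h1 h2 => (enc_mul (cv3m.enc h1) (bx3q1.enc h1 h2))⟩
noncomputable def l4q1 : Fn2 := ⟨_, _, fun h1 h2 => (enc_norm (enc_case (enc_subr 13 25 h1) (enc_add (l4q1_24.enc h1 h2) (enc_mul (enc_norm (enc_mul (enc_norm (enc_sub (enc_sub (qsg.enc (enc_norm (l4q1_9.enc h1 h2))) (enc_mul (enc_norm (enc_nat 2 (enc_sub (l4q1_9.enc h1 h2) h2))) (enc_norm (enc_mul (esg.enc (enc_norm (l4q1_9.enc h1 h2))) (kcg.enc (enc_norm (enc_sub (enc_scale 3 4 (l4q1_9.enc h1 h2)) (enc_half (gsg.enc (enc_norm (l4q1_9.enc h1 h2)))))) h2))))) (l4q1_24.enc h1 h2))) (enc_norm (enc_sub (cv4m.enc h1) (cv3m.enc h1))))) (enc_inv (enc_sub (enc_add (swg.enc h1) (enc_rat _ 1 2)) (cv3m.enc h1))))) (enc_mul (cv4m.enc h1) (bx4q1.enc h1 h2))))⟩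
noncomputable def bd4q1 : Fn2 := ⟨_, _, fun h1 h2 => (enc_norm (enc_add (enc_subr 5458962287 2400000000 (enc_scale 5458962287 2400000000 h1)) (enc_mul (enc_norm (enc_subr 1047 2000 h2)) (enc_norm (enc_subr 29484771 10000000 (enc_scale 29484771 10000000 h1))))))⟩
noncomputable def kc4q1_9 : Fn2 := ⟨_, _, fun h1 h2 => (enc_sub (enc_pnc _ 1) h1)⟩
noncomputable def kc4q1_10 : Fn2 := ⟨_, _, fun h1 h2 => (gsg.enc (enc_norm (kc4q1_9.enc h1 h2)))⟩
noncomputable def kc4q1_14 : Fn2 := ⟨_, _, fun h1 h2 => (esg.enc (enc_norm (kc4q1_9.enc h1 h2)))⟩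
noncomputable def kc4q1_17 : Fn2 := ⟨_, _, fun h1 h2 => (gug.enc (enc_norm (kc4q1_9.enc h1 h2)))⟩
noncomputable def kc4q1_19 : Fn2 := ⟨_, _, fun h1 h2 => (enc_mul (enc_norm (kc4q1_9.enc h1 h2)) (enc_inv (kc4q1_10.enc h1 h2)))⟩
noncomputable def kc4q1_20 : Fn2 := ⟨_, _, fun h1 h2 => (enc_scale 3 4 (kc4q1_19.enc h1 h2))⟩
noncomputable def kc4q1_49 : Fn2 := ⟨_, _, fun h1 h2 => (enc_mul (cv3m.enc h1) (bd3q1.enc h1 h2))⟩
noncomputable def kc4q1 : Fn2 := ⟨_, _, fun h1 h2 => (enc_norm (enc_case (enc_subr 13 25 h1) (enc_add (kc4q1_49.enc h1 h2) (enc_mul (enc_norm (enc_mul (enc_norm (enc_sub (enc_add (enc_sub (enc_neg (enc_add (enc_add (enc_rat _ 3 4) (enc_scale 3 2 (kc4q1_9.enc h1 h2))) (enc_scale 3 4 (enc_mul (enc_norm (kc4q1_19.enc h1 h2)) (kc4q1_17.enc h1 h2))))) (enc_mul (enc_norm (enc_sub (enc_mul (enc_norm (enc_mul (enc_norm (kc4q1_20.enc h1 h2)) (enc_norm (enc_subn 3 (enc_nat 4 (kc4q1_10.enc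 h1 h2)))))) (kc4q1_14.enc h1 h2)) (enc_mul (qsg.enc (enc_norm (kc4q1_9.enc h1 h2))) (enc_norm (enc_sub (enc_rat _ 1 2) (kc4q1_20.enc h1 h2)))))) (enc_inv (enc_mul (enc_nat 2 (kc4q1_14.enc h1 h2)) (kc4q1_14.enc h1 h2))))) (enc_mul (kcg.enc (enc_norm (enc_sub (enc_scale 3 4 (kc4q1_9.enc h1 h2)) (enc_half (kc4q1_10.enc h1 h2)))) h2) (enc_norm (enc_add (enc_pnc _ 1) (enc_add (kc4q1_17.enc h1 h2) (enc_nat 2 (kc4q1_10.enc h1 h2))))))) (kc4q1_49.enc h1 h2))) (enc_norm (enc_sub (cv4m.enc h1) (cv3m.enc h1))))) (enc_inv (enc_sub (enc_add (swg.enc h1) (enc_rat _ 1 2)) (cv3m.enc h1))))) (enc_mul (cv4m.enc h1) (bd4q1.enc h1 h2))))⟩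
noncomputable def cv4p : Fn1 := ⟨_, _, fun h1 => (enc_norm (enc_add (enc_scale 7 10 (enc_subr 1 2 (swg.enc h1))) (enc_scale 3 10 (c3g.enc h1))))⟩
noncomputable def bf4q2_3 : Fn2 := ⟨_, _, fun h1 h2 => (enc_subr 1047 2000 h2)⟩
noncomputable def bf4q2 : Fn2 := ⟨_, _, fun h1 h2 => (enc_norm (enc_case (enc_subr 29 25 h1) (enc_add (enc_add (enc_scale 5843 8000 h1) (enc_rat _ 85247 500000)) (enc_mul (enc_norm (bf4q2_3.enc h1 h2)) (enc_norm (enc_sub (enc_rat _ 197549 16000) (enc_scale 191853 16000 h1))))) (enc_case (enc_subr 33 25 h1) (enc_add (enc_sub (enc_rat _ 14908593 4000000) (enc_scale 373713 160000 h1)) (enc_mul (enc_norm (bf4q2_3.enc h1 h2)) (enc_norm (enc_subr 294443 20000 (enc_scale 22689 2000 h1))))) (enc_add (enc_sub (enc_rat _ 114659687259 40000000000) (enc_scale 2693910523 1600000000 h1)) (enc_mul (enc_norm (bf4q2_3.enc h1 h2)) (enc_norm (enc_sub (enc_rat _ 552454681 800000000)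 (enc_scale 10617657 32000000 h1))))))))⟩
noncomputable def cv3p : Fn1 := ⟨_, _, fun h1 => (enc_norm (enc_add (enc_scale 1 5 (c1g.enc h1)) (enc_scale 4 5 (enc_subr 1 2 (swg.enc h1)))))⟩
noncomputable def kf4q2_4 : Fn2 := ⟨_, _, fun h1 h2 => (enc_subr 1047 2000 h2)⟩
noncomputable def kf4q2_8 : Fn2 := ⟨_, _, fun h1 h2 => (enc_subn 1 h1)⟩
noncomputable def kf4q2_9 : Fn2 := ⟨_, _, fun h1 h2 => (gsg.enc (enc_norm (kf4q2_8.enc h1 h2)))⟩
noncomputable def kf4q2_10 : Fn2 := ⟨_, _, fun h1 h2 => (enc_scale 3 4 (kf4q2_8.enc h1 h2))⟩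
noncomputable def kf4q2_11 : Fn2 := ⟨_, _, fun h1 h2 => (enc_half (kf4q2_9.enc h1 h2))⟩
noncomputable def kf4q2_188 : Fn2 := ⟨_, _, fun h1 h2 => (enc_mul (cv3p.enc h1) (enc_norm (enc_case (enc_sub (enc_pnc _ 1) (enc_scale 3 4 (enc_sq h1))) (enc_case (enc_subr 127 100 h1) (enc_add (enc_sub (enc_rat _ 35635023 11600000) (enc_scale 240821 116000 h1)) (enc_mul (enc_norm (kf4q2_4.enc h1 h2)) (enc_norm (enc_subr 3462613 290000 (enc_scale 2893 290 h1))))) (enc_case (enc_subr 69 50 h1) (enc_add (enc_sub (enc_rat _ 2571803 687500) (enc_scale 143147 55000 h1)) (enc_mul (enc_norm (kf4q2_4.enc h1 h2)) (enc_norm (enc_subr 275709 25000 (enc_scale 4629 500 h1))))) (enc_add (enc_subr 37201 50000 (enc_scale 809 1250 h1)) (enc_mul (enc_norm (kf4q2_4.enc h1 h2)) (enc_norm (enc_sub (enc_rat _ 6662093 200000) (enc_scale 274459 12000 h1))))))) (enc_case (enc_subr 1 4 (c1g.enc h1)) (enc_case (enc_subr 1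 10 (c1g.enc h1)) (enc_case (enc_subr 1 20 (c1g.enc h1)) (enc_add (enc_add (enc_scale 18577 25000 (c1g.enc h1)) (enc_rat _ 674237 1000000)) (enc_mul (enc_norm (kf4q2_4.enc h1 h2)) (enc_norm (enc_subr 42007 100000 (enc_scale 3041 2500 (c1g.enc h1)))))) (enc_add (enc_add (enc_scale 9289 12500 (c1g.enc h1)) (enc_rat _ 134847 200000)) (enc_mul (enc_norm (kf4q2_4.enc h1 h2)) (enc_norm (enc_subr 21123 50000 (enc_scale 6321 5000 (c1g.enc h1))))))) (enc_case (enc_subr 3 20 (c1g.enc h1)) (enc_add (enc_add (enc_scale 1891 2500 (c1g.enc h1)) (enc_rat _ 672907 1000000)) (enc_mul (enc_norm (kf4q2_4.enc h1 h2)) (enc_norm (enc_subr 17579 50000 (enc_scale 2777 5000 (c1g.enc h1)))))) (enc_case (enc_subr 1 5 (c1g.enc h1)) (enc_add (enc_add (enc_scale 9601 12500 (c1g.enc h1)) (enc_rat _ 134231 200000)) (enc_mul (enc_norm (kf4q2_4.enc h1 h2)) (enc_norm (enc_subr 10643 50000 (enc_neg (enc_scale 1847 5000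 (c1g.enc h1))))))) (enc_add (enc_add (enc_scale 19189 25000 (c1g.enc h1)) (enc_rat _ 671259 1000000)) (enc_mul (enc_norm (kf4q2_4.enc h1 h2)) (enc_norm (enc_subr 213 2000 (enc_neg (enc_scale 2253 2500 (c1g.enc h1)))))))))) (enc_case (enc_subr 7 20 (c1g.enc h1)) (enc_case (enc_subr 3 10 (c1g.enc h1)) (enc_add (enc_add (enc_scale 36841 50000 (c1g.enc h1)) (enc_rat _ 21217 31250)) (enc_mul (enc_norm (kf4q2_4.enc h1 h2)) (enc_norm (enc_subr 37 250 (enc_neg (enc_scale 919 1250 (c1g.enc h1))))))) (enc_add (enc_add (enc_scale 16473 25000 (c1g.enc h1)) (enc_rat _ 351157 500000)) (enc_mul (enc_norm (kf4q2_4.enc h1 h2)) (enc_norm (enc_subr 8977 25000 (enc_neg (enc_scale 79 2500 (c1g.enc h1)))))))) (enc_case (enc_subr 2 5 (c1g.enc h1)) (enc_add (enc_add (enc_scale 2869 5000 (c1g.enc h1)) (enc_rat _ 366053 500000)) (enc_mul (enc_norm (kf4q2_4.enc h1 h2)) (enc_norm (enc_subr 62669 100000 (enc_scale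 733 1000 (c1g.enc h1)))))) (enc_case (enc_subr 9 20 (c1g.enc h1)) (enc_add (enc_add (enc_scale 23677 50000 (c1g.enc h1)) (enc_rat _ 77221 100000)) (enc_mul (enc_norm (kf4q2_4.enc h1 h2)) (enc_norm (enc_subr 103749 100000 (enc_scale 44 25 (c1g.enc h1)))))) (enc_add (enc_add (enc_scale 14697 50000 (c1g.enc h1)) (enc_rat _ 85303 100000)) (enc_mul (enc_norm (kf4q2_4.enc h1 h2)) (enc_norm (enc_subr 24549 10000 (enc_scale 24549 5000 (c1g.enc h1)))))))))))))⟩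
noncomputable def kf4q2 : Fn2 := ⟨_, _, fun h1 h2 => (enc_norm (enc_case (enc_subr 37 25 h1) (enc_mul (cv4p.enc h1) (bf4q2.enc h1 h2)) (enc_add (kf4q2_188.enc h1 h2) (enc_mul (enc_norm (enc_mul (enc_norm (enc_sub (enc_mul (enc_norm (kf4q2_8.enc h1 h2)) (enc_norm (enc_add (enc_mul (enc_norm (enc_sub (enc_sub (kf4q2_11.enc h1 h2) (kf4q2_10.enc h1 h2)) (enc_sub (enc_rat _ 1 4) (enc_scale 3 8 (enc_mul (enc_norm (kf4q2_8.enc h1 h2)) (enc_inv (kf4q2_9.enc h1 h2))))))) (enc_inv (esg.enc (enc_norm (kf4q2_8.enc h1 h2))))) (kcg.enc (enc_norm (enc_sub (kf4q2_10.enc h1 h2) (kf4q2_11.enc h1 h2))) h2)))) (kf4q2_188.enc h1 h2))) (enc_norm (enc_sub (cv4p.enc h1) (cv3p.enc h1))))) (enc_inv (enc_sub (enc_subr 1 2 (swg.enc h1)) (cv3p.enc h1)))))))⟩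
noncomputable def bx4q2_3 : Fn2 := ⟨_, _, fun h1 h2 => (enc_subr 1047 2000 h2)⟩
noncomputable def bx4q2 : Fn2 := ⟨_, _, fun h1 h2 => (enc_norm (enc_case (enc_subr 29 25 h1) (enc_add (enc_add (enc_scale 4831 160000 h1) (enc_rat _ 115949 4000000)) (enc_mul (enc_norm (bx4q2_3.enc h1 h2)) (enc_norm (enc_sub (enc_rat _ 369043 400000) (enc_scale 9259 16000 h1))))) (enc_case (enc_subr 33 25 h1) (enc_add (enc_sub (enc_rat _ 642977 2000000) (enc_scale 17757 80000 h1)) (enc_mul (enc_norm (bx4q2_3.enc h1 h2)) (enc_norm (enc_sub (enc_rat _ 114269 200000) (enc_scale 2207 8000 h1))))) (enc_add (enc_add (enc_subr 16570811659 20000000000 (enc_scale 519417323 800000000 h1)) (enc_mul (enc_norm (bx4q2_3.enc h1 h2)) (enc_norm (enc_subr 1292420467 500000000 (enc_scale 42303499 20000000 h1))))) (enc_mul (enc_sq (enc_norm (bx4q2_3.enc h1 h2))) (enc_norm (enc_sub (enc_rat _ 5851659 2000000) (enc_scale 177323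 80000 h1))))))))⟩
noncomputable def l4q2_4 : Fn2 := ⟨_, _, fun h1 h2 => (enc_subr 1047 2000 h2)⟩
noncomputable def l4q2_8 : Fn2 := ⟨_, _, fun h1 h2 => (enc_subn 1 h1)⟩
noncomputable def l4q2_192 : Fn2 := ⟨_, _, fun h1 h2 => (enc_mul (cv3p.enc h1) (enc_norm (enc_case (enc_sub (enc_pnc _ 1) (enc_scale 3 4 (enc_sq h1))) (enc_case (enc_subr 127 100 h1) (enc_add (enc_subr 24390071 29000000 (enc_scale 39373 58000 h1)) (enc_mul (enc_norm (l4q2_4.enc h1 h2)) (enc_norm (enc_subr 6297463 2900000 (enc_scale 2371 1450 h1))))) (enc_case (enc_subr 69 50 h1) (enc_add (enc_subr 12658317 11000000 (enc_scale 101499 110000 h1)) (enc_mul (enc_norm (l4q2_4.enc h1 h2)) (enc_norm (enc_subr 193129 100000 (enc_scale 723 500 h1))))) (enc_add (enc_subr 1119359 1000000 (enc_scale 26999 30000 h1)) (enc_mul (enc_norm (l4q2_4.enc h1 h2)) (enc_norm (enc_sub (enc_rat _ 358893 50000) (enc_scale 30929 6000 h1)))))))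 (enc_case (enc_subr 1 4 (c1g.enc h1)) (enc_case (enc_subr 1 10 (c1g.enc h1)) (enc_case (enc_subr 1 20 (c1g.enc h1)) (enc_add (enc_subr 57251 1000000 (enc_scale 7283 25000 (c1g.enc h1))) (enc_mul (enc_norm (l4q2_4.enc h1 h2)) (enc_norm (enc_subr 2809 10000 (enc_neg (enc_scale 1427 5000 (c1g.enc h1))))))) (enc_add (enc_subr 28233 500000 (enc_scale 13781 50000 (c1g.enc h1))) (enc_mul (enc_norm (l4q2_4.enc h1 h2)) (enc_norm (enc_subr 29033 100000 (enc_neg (enc_scale 121 1250 (c1g.enc h1)))))))) (enc_case (enc_subr 3 20 (c1g.enc h1)) (enc_add (enc_subr 973 20000 (enc_scale 9873 50000 (c1g.enc h1))) (enc_mul (enc_norm (l4q2_4.enc h1 h2)) (enc_norm (enc_subr 36711 100000 (enc_scale 671 1000 (c1g.enc h1)))))) (enc_case (enc_subr 1 5 (c1g.enc h1)) (enc_add (enc_subr 18907 500000 (enc_scale 6261 50000 (c1g.enc h1))) (enc_mul (enc_norm (l4q2_4.enc h1 h2)) (enc_norm (enc_subr 39267 100000 (enc_scale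 4207 5000 (c1g.enc h1)))))) (enc_add (enc_subr 15433 500000 (enc_scale 1131 12500 (c1g.enc h1))) (enc_mul (enc_norm (l4q2_4.enc h1 h2)) (enc_norm (enc_subr 35351 100000 (enc_scale 807 1250 (c1g.enc h1))))))))) (enc_case (enc_subr 7 20 (c1g.enc h1)) (enc_case (enc_subr 3 10 (c1g.enc h1)) (enc_add (enc_subr 763 31250 (enc_scale 1617 25000 (c1g.enc h1))) (enc_mul (enc_norm (l4q2_4.enc h1 h2)) (enc_norm (enc_subr 16453 50000 (enc_scale 2739 5000 (c1g.enc h1)))))) (enc_add (enc_subr 4691 250000 (enc_scale 573 12500 (c1g.enc h1))) (enc_mul (enc_norm (l4q2_4.enc h1 h2)) (enc_norm (enc_subr 3847 12500 (enc_scale 298 625 (c1g.enc h1))))))) (enc_case (enc_subr 2 5 (c1g.enc h1)) (enc_add (enc_subr 11827 1000000 (enc_scale 1301 50000 (c1g.enc h1))) (enc_mul (enc_norm (l4q2_4.enc h1 h2)) (enc_norm (enc_subr 6529 20000 (enc_scale 2651 5000 (c1g.enc h1)))))) (enc_case (enc_subr 9 20 (c1g.enc h1))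 (enc_add (enc_subr 1167 200000 (enc_scale 69 6250 (c1g.enc h1))) (enc_mul (enc_norm (l4q2_4.enc h1 h2)) (enc_norm (enc_subr 42077 100000 (enc_scale 383 500 (c1g.enc h1)))))) (enc_add (enc_subr 867 100000 (enc_scale 867 50000 (c1g.enc h1))) (enc_mul (enc_norm (l4q2_4.enc h1 h2)) (enc_norm (enc_subr 7607 10000 (enc_scale 7607 5000 (c1g.enc h1)))))))))))))⟩
noncomputable def l4q2 : Fn2 := ⟨_, _, fun h1 h2 => (enc_norm (enc_case (enc_subr 37 25 h1) (enc_mul (cv4p.enc h1) (bx4q2.enc h1 h2)) (enc_add (l4q2_192.enc h1 h2) (enc_mul (enc_norm (enc_mul (enc_norm (enc_sub (enc_sub (qsg.enc (enc_norm (l4q2_8.enc h1 h2))) (enc_mul (enc_norm (enc_nat 2 (enc_sub (l4q2_8.enc h1 h2) h2))) (enc_norm (enc_mul (esg.enc (enc_norm (l4q2_8.enc h1 h2))) (kcg.enc (enc_norm (enc_sub (enc_scale 3 4 (l4q2_8.enc h1 h2)) (enc_half (gsg.enc (enc_norm (l4q2_8.enc h1 h2)))))) h2))))) (l4q2_192.enc h1 h2))) (enc_norm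 (enc_sub (cv4p.enc h1) (cv3p.enc h1))))) (enc_inv (enc_sub (enc_subr 1 2 (swg.enc h1)) (cv3p.enc h1)))))))⟩
noncomputable def bd4q2 : Fn2 := ⟨_, _, fun h1 h2 => (enc_norm (enc_add (enc_subr 2009411957 320000000 (enc_scale 1528764277 320000000 h1)) (enc_mul (enc_norm (enc_subr 1047 2000 h2)) (enc_norm (enc_subr 3663603413 60000000 (enc_scale 3405239213 60000000 h1))))))⟩
noncomputable def kc4q2_4 : Fn2 := ⟨_, _, fun h1 h2 => (enc_subr 1047 2000 h2)⟩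
noncomputable def kc4q2_8 : Fn2 := ⟨_, _, fun h1 h2 => (enc_subn 1 h1)⟩
noncomputable def kc4q2_9 : Fn2 := ⟨_, _, fun h1 h2 => (gsg.enc (enc_norm (kc4q2_8.enc h1 h2)))⟩
noncomputable def kc4q2_13 : Fn2 := ⟨_, _, fun h1 h2 => (esg.enc (enc_norm (kc4q2_8.enc h1 h2)))⟩
noncomputable def kc4q2_16 : Fn2 := ⟨_, _, fun h1 h2 => (gug.enc (enc_norm (kc4q2_8.enc h1 h2)))⟩
noncomputable def kc4q2_18 : Fn2 := ⟨_, _, fun h1 h2 => (enc_mul (enc_norm (kc4q2_8.enc h1 h2)) (enc_inv (kc4q2_9.enc h1 h2)))⟩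
noncomputable def kc4q2_19 : Fn2 := ⟨_, _, fun h1 h2 => (enc_scale 3 4 (kc4q2_18.enc h1 h2))⟩
noncomputable def kc4q2_85 : Fn2 := ⟨_, _, fun h1 h2 => (enc_mul (cv3p.enc h1) (enc_norm (enc_case (enc_sub (enc_pnc _ 1) (enc_scale 3 4 (enc_sq h1))) (enc_add (enc_subr 3021467 346000 (enc_scale 1468489 173000 h1)) (enc_mul (enc_norm (kc4q2_4.enc h1 h2)) (enc_norm (enc_subr 8107372 540625 (enc_neg (enc_scale 17 6920 h1)))))) (enc_case (enc_subr 1 4 (c1g.enc h1)) (enc_add (enc_sub (enc_rat _ 534411 500000) (enc_scale 528381 250000 (c1g.enc h1))) (enc_mul (enc_norm (kc4q2_4.enc h1 h2)) (enc_norm (enc_subr 374757 25000 (enc_scale 152659 5000 (c1g.enc h1)))))) (enc_add (enc_sub (enc_rat _ 540441 500000) (enc_scale 540441 250000 (c1g.enc h1))) (enc_mul (enc_norm (kc4q2_4.enc h1 h2)) (enc_norm (enc_subr 735733 50000 (enc_scale 735733 25000 (c1g.enc h1))))))))))⟩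
noncomputable def kc4q2 : Fn2 := ⟨_, _, fun h1 h2 => (enc_norm (enc_case (enc_subr 37 25 h1) (enc_mul (cv4p.enc h1) (bd4q2.enc h1 h2)) (enc_add (kc4q2_85.enc h1 h2) (enc_mul (enc_norm (enc_mul (enc_norm (enc_sub (enc_add (enc_sub (enc_add (enc_add (enc_rat _ 3 4) (enc_scale 3 2 (kc4q2_8.enc h1 h2))) (enc_scale 3 4 (enc_mul (enc_norm (kc4q2_18.enc h1 h2)) (kc4q2_16.enc h1 h2)))) (enc_mul (enc_norm (enc_sub (enc_mul (enc_norm (enc_mul (enc_norm (kc4q2_19.enc h1 h2)) (enc_norm (enc_subn 3 (enc_nat 4 (kc4q2_9.enc h1 h2)))))) (kc4q2_13.enc h1 h2)) (enc_mul (qsg.enc (enc_norm (kc4q2_8.enc h1 h2))) (enc_norm (enc_sub (enc_rat _ 1 2) (kc4q2_19.enc h1 h2)))))) (enc_inv (enc_mul (enc_nat 2 (kc4q2_13.enc h1 h2)) (kc4q2_13.enc h1 h2))))) (enc_mul (kcg.enc (enc_norm (enc_sub (enc_scale 3 4 (kc4q2_8.enc h1 h2)) (enc_half (kc4q2_9.enc h1 h2)))) h2) (enc_norm (enc_sub (enc_pnc _ 1) (enc_add (kc4q2_16.enc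 h1 h2) (enc_nat 2 (kc4q2_9.enc h1 h2))))))) (kc4q2_85.enc h1 h2))) (enc_norm (enc_sub (cv4p.enc h1) (cv3p.enc h1))))) (enc_inv (enc_sub (enc_subr 1 2 (swg.enc h1)) (cv3p.enc h1)))))))⟩
noncomputable def ycg : Fn1 := ⟨_, _, fun h1 => (enc_sqrtg (enc_scale 4 3 (enc_sub (enc_pnc _ 3) (enc_sq h1))))⟩
noncomputable def xc43 : Fn1 := ⟨_, _, fun h1 => (enc_norm (enc_add (enc_scale 7 10 (enc_subr 1 2 (swg.enc (ycg.enc h1)))) (enc_scale 3 10 h1)))⟩
noncomputable def kfc43_6 : Fn2 := ⟨_, _, fun h1 h2 => (enc_subr 1 2 (swg.enc (ycg.enc h1)))⟩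
noncomputable def kfc43_9 : Fn2 := ⟨_, _, fun h1 h2 => (enc_add (enc_scale 7 10 (kfc43_6.enc h1 h2)) (enc_scale 3 10 h1))⟩
noncomputable def kfc43_11 : Fn2 := ⟨_, _, fun h1 h2 => (enc_subr 1047 2000 h2)⟩
noncomputable def kfc43_47 : Fn2 := ⟨_, _, fun h1 h2 => (enc_subn 1 (ycg.enc h1))⟩
noncomputable def kfc43_48 : Fn2 := ⟨_, _, fun h1 h2 => (gsg.enc (enc_norm (kfc43_47.enc h1 h2)))⟩
noncomputable def kfc43_49 : Fn2 := ⟨_, _, fun h1 h2 => (enc_scale 3 4 (kfc43_47.enc h1 h2))⟩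
noncomputable def kfc43_50 : Fn2 := ⟨_, _, fun h1 h2 => (enc_half (kfc43_48.enc h1 h2))⟩
noncomputable def kfc43_67 : Fn2 := ⟨_, _, fun h1 h2 => (cv3r.enc (ycg.enc h1))⟩
noncomputable def kfc43_69 : Fn2 := ⟨_, _, fun h1 h2 => (enc_mul (kfc43_67.enc h1 h2) (bf3q3.enc (ycg.enc h1) h2))⟩
noncomputable def kfc43 : Fn2 := ⟨_, _, fun h1 h2 => (enc_norm (enc_case (enc_subr 1567 1000 (ycg.enc h1)) (enc_add (kfc43_69.enc h1 h2) (enc_mul (enc_norm (enc_mul (enc_norm (enc_sub (enc_mul (enc_norm (enc_subn 2 (ycg.enc h1))) (enc_norm (enc_add (enc_mul (enc_norm (enc_sub (enc_sub (kfc43_50.enc h1 h2) (kfc43_49.enc h1 h2)) (enc_sub (enc_rat _ 1 4) (enc_scale 3 8 (enc_mul (enc_norm (kfc43_47.enc h1 h2)) (enc_inv (kfc43_48.enc h1 h2))))))) (enc_inv (esg.enc (enc_norm (kfc43_47.enc h1 h2))))) (kcg.enc (enc_norm (enc_sub (kfc43_49.enc h1 h2) (kfc43_50.enc h1 h2))) h2)))) (kfc43_69.enc h1 h2))) (enc_norm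 (enc_sub (kfc43_9.enc h1 h2) (kfc43_67.enc h1 h2))))) (enc_inv (enc_sub (kfc43_6.enc h1 h2) (kfc43_67.enc h1 h2))))) (enc_mul (enc_norm (kfc43_9.enc h1 h2)) (enc_norm (enc_case (enc_sub (enc_rat _ 449145021 500000000) h1) (enc_add (enc_sub (enc_rat _ 1836714750586423 4563900000000000) (enc_scale 148138357 355984200 h1)) (enc_mul (enc_norm (kfc43_11.enc h1 h2)) (enc_norm (enc_sub (enc_rat _ 2982575733127 8913867187500) (enc_scale 12075952 44498025 h1))))) (enc_case (enc_sub (enc_rat _ 318315881 500000000) h1) (enc_add (enc_sub (enc_rat _ 6979681419903 10063780000000) (enc_scale 4841975 6541457 h1)) (enc_mul (enc_norm (kfc43_11.enc h1 h2)) (enc_norm (enc_sub (enc_rat _ 92401188853 1006378000000) (enc_scale 7250 6541457 h1))))) (enc_add (enc_sub (enc_rat _ 1 2) (enc_scale 138844500 318315881 h1)) (enc_mul (enc_norm (kfc43_11.enc h1 h2)) (enc_scale 45555000 318315881 h1)))))))))⟩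
noncomputable def lc43_6 : Fn2 := ⟨_, _, fun h1 h2 => (enc_subr 1 2 (swg.enc (ycg.enc h1)))⟩
noncomputable def lc43_9 : Fn2 := ⟨_, _, fun h1 h2 => (enc_add (enc_scale 7 10 (lc43_6.enc h1 h2)) (enc_scale 3 10 h1))⟩
noncomputable def lc43_11 : Fn2 := ⟨_, _, fun h1 h2 => (enc_subr 1047 2000 h2)⟩
noncomputable def lc43_49 : Fn2 := ⟨_, _, fun h1 h2 => (enc_subn 1 (ycg.enc h1))⟩
noncomputable def lc43_62 : Fn2 := ⟨_, _, fun h1 h2 => (cv3r.enc (ycg.enc h1))⟩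
noncomputable def lc43_64 : Fn2 := ⟨_, _, fun h1 h2 => (enc_mul (lc43_62.enc h1 h2) (bx3q3.enc (ycg.enc h1) h2))⟩
noncomputable def lc43 : Fn2 := ⟨_, _, fun h1 h2 => (enc_norm (enc_case (enc_subr 1567 1000 (ycg.enc h1)) (enc_add (lc43_64.enc h1 h2) (enc_mul (enc_norm (enc_mul (enc_norm (enc_sub (enc_sub (qsg.enc (enc_norm (lc43_49.enc h1 h2))) (enc_mul (enc_norm (enc_nat 2 (enc_sub (lc43_49.enc h1 h2) h2))) (enc_norm (enc_mul (esg.enc (enc_norm (lc43_49.enc h1 h2))) (kcg.enc (enc_norm (enc_sub (enc_scale 3 4 (lc43_49.enc h1 h2)) (enc_half (gsg.enc (enc_norm (lc43_49.enc h1 h2)))))) h2))))) (lc43_64.enc h1 h2))) (enc_norm (enc_sub (lc43_9.enc h1 h2) (lc43_62.enc h1 h2))))) (enc_inv (enc_sub (lc43_6.enc h1 h2) (lc43_62.enc h1 h2))))) (enc_mul (enc_norm (lc43_9.enc h1 h2)) (enc_norm (enc_case (enc_sub (enc_rat _ 449145021 500000000) h1) (enc_add (enc_sub (enc_rat _ 236887363022129 345750000000000)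 (enc_scale 11881811 26968500 h1)) (enc_mul (enc_norm (lc43_11.enc h1 h2)) (enc_norm (enc_sub (enc_rat _ 426398288656333 142621875000000) (enc_scale 8201476 3422925 h1))))) (enc_case (enc_sub (enc_rat _ 318315881 500000000) h1) (enc_add (enc_sub (enc_rat _ 4602091498701 10063780000000) (enc_scale 1222825 6541457 h1)) (enc_mul (enc_norm (lc43_11.enc h1 h2)) (enc_norm (enc_sub (enc_rat _ 1337507566919 503189000000) (enc_scale 13258500 6541457 h1))))) (enc_add (enc_add (enc_scale 101228200 318315881 h1) (enc_rat _ 339569 2500000)) (enc_mul (enc_norm (lc43_11.enc h1 h2)) (enc_norm (enc_sub (enc_rat _ 504779 234375) (enc_scale 1179020600 954947643 h1)))))))))))⟩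
noncomputable def kcc43_6 : Fn2 := ⟨_, _, fun h1 h2 => (enc_subr 1 2 (swg.enc (ycg.enc h1)))⟩
noncomputable def kcc43_9 : Fn2 := ⟨_, _, fun h1 h2 => (enc_add (enc_scale 7 10 (kcc43_6.enc h1 h2)) (enc_scale 3 10 h1))⟩
noncomputable def kcc43_24 : Fn2 := ⟨_, _, fun h1 h2 => (enc_subn 1 (ycg.enc h1))⟩
noncomputable def kcc43_25 : Fn2 := ⟨_, _, fun h1 h2 => (gsg.enc (enc_norm (kcc43_24.enc h1 h2)))⟩
noncomputable def kcc43_29 : Fn2 := ⟨_, _, fun h1 h2 => (esg.enc (enc_norm (kcc43_24.enc h1 h2)))⟩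
noncomputable def kcc43_34 : Fn2 := ⟨_, _, fun h1 h2 => (gug.enc (enc_norm (kcc43_24.enc h1 h2)))⟩
noncomputable def kcc43_36 : Fn2 := ⟨_, _, fun h1 h2 => (enc_mul (enc_norm (kcc43_24.enc h1 h2)) (enc_inv (kcc43_25.enc h1 h2)))⟩
noncomputable def kcc43_37 : Fn2 := ⟨_, _, fun h1 h2 => (enc_scale 3 4 (kcc43_36.enc h1 h2))⟩
noncomputable def kcc43_62 : Fn2 := ⟨_, _, fun h1 h2 => (cv3r.enc (ycg.enc h1))⟩
noncomputable def kcc43_64 : Fn2 := ⟨_, _, fun h1 h2 => (enc_mul (kcc43_62.enc h1 h2) (bd3q3.enc (ycg.enc h1) h2))⟩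
noncomputable def kcc43 : Fn2 := ⟨_, _, fun h1 h2 => (enc_norm (enc_case (enc_subr 1567 1000 (ycg.enc h1)) (enc_add (kcc43_64.enc h1 h2) (enc_mul (enc_norm (enc_mul (enc_norm (enc_sub (enc_add (enc_sub (enc_add (enc_add (enc_rat _ 3 4) (enc_scale 3 2 (kcc43_24.enc h1 h2))) (enc_scale 3 4 (enc_mul (enc_norm (kcc43_36.enc h1 h2)) (kcc43_34.enc h1 h2)))) (enc_mul (enc_norm (enc_sub (enc_mul (enc_norm (enc_mul (enc_norm (kcc43_37.enc h1 h2)) (enc_norm (enc_subn 3 (enc_nat 4 (kcc43_25.enc h1 h2)))))) (kcc43_29.enc h1 h2)) (enc_mul (qsg.enc (enc_norm (kcc43_24.enc h1 h2))) (enc_norm (enc_sub (enc_rat _ 1 2) (kcc43_37.enc h1 h2)))))) (enc_inv (enc_mul (enc_nat 2 (kcc43_29.enc h1 h2)) (kcc43_29.enc h1 h2))))) (enc_mul (kcg.enc (enc_norm (enc_sub (enc_scale 3 4 (kcc43_24.enc h1 h2)) (enc_half (kcc43_25.enc h1 h2)))) h2) (enc_norm (enc_sub (enc_pnc _ 1) (enc_add (kcc43_34.enc h1 h2) (enc_nat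 2 (kcc43_25.enc h1 h2))))))) (kcc43_64.enc h1 h2))) (enc_norm (enc_sub (kcc43_9.enc h1 h2) (kcc43_62.enc h1 h2))))) (enc_inv (enc_sub (kcc43_6.enc h1 h2) (kcc43_62.enc h1 h2))))) (enc_mul (enc_norm (kcc43_9.enc h1 h2)) (enc_norm (enc_add (enc_subr 1251 4000 (enc_scale 123041693 41395467 h1)) (enc_mul (enc_norm (enc_subr 1047 2000 h2)) (enc_norm (enc_sub (enc_rat _ 222249 28000) (enc_scale 25080579208 3766987497 h1)))))))))⟩
noncomputable def cv5m : Fn1 := ⟨_, _, fun h1 => (enc_norm (enc_add (enc_scale 3 10 (enc_add (swg.enc h1) (enc_rat _ 1 2))) (enc_scale 7 10 (c3g.enc h1))))⟩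
noncomputable def bf5q0_3 : Fn2 := ⟨_, _, fun h1 h2 => (enc_subr 1047 2000 h2)⟩
noncomputable def bf5q0 : Fn2 := ⟨_, _, fun h1 h2 => (enc_norm (enc_case (enc_subr 3 10 h1) (enc_case (enc_subr 3 20 h1) (enc_add (enc_sub (enc_rat _ 224581 1000000) (enc_scale 32747 50000 h1)) (enc_mul (enc_norm (bf5q0_3.enc h1 h2)) (enc_norm (enc_subr 337 25000 (enc_scale 17021 15000 h1))))) (enc_add (enc_sub (enc_rat _ 13191 50000) (enc_scale 3437 3750 h1)) (enc_mul (enc_norm (bf5q0_3.enc h1 h2)) (enc_norm (enc_subr 10371 100000 (enc_scale 6511 3750 h1)))))) (enc_case (enc_subr 453 1000 h1) (enc_add (enc_sub (enc_rat _ 554031 850000) (enc_scale 1127 510 h1)) (enc_mul (enc_norm (bf5q0_3.enc h1 h2)) (enc_norm (enc_sub (enc_rat _ 5809367 5100000) (enc_scale 18409 7650 h1))))) (enc_add (enc_sub (enc_rat _ 52066183 47000000) (enc_scale 151171 47000 h1)) (enc_mul (enc_norm (bf5q0_3.enc h1 h2)) (enc_norm (enc_sub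 (enc_rat _ 2030637 2350000) (enc_scale 8457 4700 h1))))))))⟩
noncomputable def kf5q0 : Fn2 := ⟨_, _, fun h1 h2 => (enc_norm (enc_mul (cv5m.enc h1) (bf5q0.enc h1 h2)))⟩
noncomputable def bx5q0_3 : Fn2 := ⟨_, _, fun h1 h2 => (enc_subr 1047 2000 h2)⟩
noncomputable def bx5q0 : Fn2 := ⟨_, _, fun h1 h2 => (enc_norm (enc_case (enc_subr 3 10 h1) (enc_case (enc_subr 3 20 h1) (enc_add (enc_add (enc_scale 3911 150000 h1) (enc_rat _ 30551 250000)) (enc_mul (enc_norm (bx5q0_3.enc h1 h2)) (enc_norm (enc_sub (enc_rat _ 1061 5000) (enc_scale 18377 15000 h1))))) (enc_add (enc_sub (enc_rat _ 76123 500000) (enc_scale 26131 150000 h1)) (enc_mul (enc_norm (bx5q0_3.enc h1 h2)) (enc_norm (enc_subr 23 2000 (enc_scale 1331 5000 h1)))))) (enc_case (enc_subr 453 1000 h1) (enc_add (enc_sub (enc_rat _ 272587 1593750) (enc_scale 9059 38250 h1)) (enc_mul (enc_norm (bx5q0_3.enc h1 h2)) (enc_norm (enc_subr 32483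 637500 (enc_scale 1217 3060 h1))))) (enc_add (enc_sub (enc_rat _ 215317 1468750) (enc_scale 2149 11750 h1)) (enc_mul (enc_norm (bx5q0_3.enc h1 h2)) (enc_norm (enc_subr 1796331 4700000 (enc_scale 2653 2350 h1))))))))⟩
noncomputable def l5q0 : Fn2 := ⟨_, _, fun h1 h2 => (enc_norm (enc_mul (cv5m.enc h1) (bx5q0.enc h1 h2)))⟩
noncomputable def bd5q0 : Fn2 := ⟨_, _, fun h1 h2 => (enc_norm (enc_add (enc_subr 583891 500000 (enc_scale 5221 15625 h1)) (enc_mul (enc_norm (enc_subr 1047 2000 h2)) (enc_norm (enc_sub (enc_rat _ 120451 100000) (enc_scale 49993 50000 h1))))))⟩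
noncomputable def kc5q0 : Fn2 := ⟨_, _, fun h1 h2 => (enc_norm (enc_mul (cv5m.enc h1) (bd5q0.enc h1 h2)))⟩
noncomputable def bf5q1_3 : Fn2 := ⟨_, _, fun h1 h2 => (enc_subr 1047 2000 h2)⟩
noncomputable def bf5q1 : Fn2 := ⟨_, _, fun h1 h2 => (enc_norm (enc_case (enc_subr 67 100 h1) (enc_add (enc_subr 611559 3400000 (enc_scale 236703 170000 h1)) (enc_mul (enc_norm (bf5q1_3.enc h1 h2)) (enc_norm (enc_subr 158533 425000 (enc_scale 2279 8500 h1))))) (enc_case (enc_subr 83 100 h1) (enc_add (enc_add (enc_scale 140427 160000 h1) (enc_rat _ 2639679 16000000)) (enc_mul (enc_norm (bf5q1_3.enc h1 h2)) (enc_norm (enc_subr 572717 800000 (enc_scale 6239 8000 h1))))) (enc_add (enc_add (enc_scale 21311 34000 h1) (enc_rat _ 12689 34000)) (enc_mul (enc_norm (bf5q1_3.enc h1 h2)) (enc_norm (enc_subr 343 850 (enc_scale 343 850 h1))))))))⟩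
noncomputable def kf5q1 : Fn2 := ⟨_, _, fun h1 h2 => (enc_norm (enc_mul (cv5m.enc h1) (bf5q1.enc h1 h2)))⟩
noncomputable def bx5q1_3 : Fn2 := ⟨_, _, fun h1 h2 => (enc_subr 1047 2000 h2)⟩
noncomputable def bx5q1 : Fn2 := ⟨_, _, fun h1 h2 => (enc_norm (enc_case (enc_subr 67 100 h1) (enc_add (enc_sub (enc_rat _ 468819 3400000) (enc_scale 1818 10625 h1)) (enc_mul (enc_norm (bx5q1_3.enc h1 h2)) (enc_norm (enc_add (enc_scale 3167 17000 h1) (enc_rat _ 8427 106250))))) (enc_case (enc_subr 83 100 h1) (enc_add (enc_sub (enc_rat _ 744271 16000000) (enc_scale 5557 160000 h1)) (enc_mul (enc_norm (bx5q1_3.enc h1 h2)) (enc_norm (enc_sub (enc_rat _ 163959 320000) (enc_scale 7361 16000 h1))))) (enc_add (enc_sub (enc_rat _ 1769 17000) (enc_scale 1769 17000 h1)) (enc_mul (enc_norm (bx5q1_3.enc h1 h2)) (enc_norm (enc_sub (enc_rat _ 3263 4250) (enc_scale 3263 4250 h1))))))))⟩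
noncomputable def l5q1 : Fn2 := ⟨_, _, fun h1 h2 => (enc_norm (enc_mul (cv5m.enc h1) (bx5q1.enc h1 h2)))⟩
noncomputable def bd5q1 : Fn2 := ⟨_, _, fun h1 h2 => (enc_norm (enc_add (enc_subr 729391 500000 (enc_scale 729391 500000 h1)) (enc_mul (enc_norm (enc_subr 1047 2000 h2)) (enc_norm (enc_subr 30329 50000 (enc_scale 30329 50000 h1))))))⟩
noncomputable def kc5q1 : Fn2 := ⟨_, _, fun h1 h2 => (enc_norm (enc_mul (cv5m.enc h1) (bd5q1.enc h1 h2)))⟩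
noncomputable def cv5p : Fn1 := ⟨_, _, fun h1 => (enc_norm (enc_add (enc_scale 3 10 (enc_subr 1 2 (swg.enc h1))) (enc_scale 7 10 (c3g.enc h1))))⟩
noncomputable def bf5q2_3 : Fn2 := ⟨_, _, fun h1 h2 => (enc_subr 1047 2000 h2)⟩
noncomputable def bf5q2 : Fn2 := ⟨_, _, fun h1 h2 => (enc_norm (enc_case (enc_subr 117 100 h1) (enc_add (enc_add (enc_scale 40911 170000 h1) (enc_rat _ 1500741 2125000)) (enc_mul (enc_norm (bf5q2_3.enc h1 h2)) (enc_norm (enc_sub (enc_rat _ 500947 100000) (enc_scale 4693 1000 h1))))) (enc_case (enc_subr 133 100 h1) (enc_add (enc_sub (enc_rat _ 21587733 8000000) (enc_scale 116969 80000 h1)) (enc_mul (enc_norm (bf5q2_3.enc h1 h2)) (enc_norm (enc_subr 13861 5000 (enc_scale 979 500 h1))))) (enc_add (enc_sub (enc_rat _ 22384609 8500000) (enc_scale 240253 170000 h1)) (enc_mul (enc_norm (bf5q2_3.enc h1 h2)) (enc_norm (enc_subr 3303871 1700000 (enc_scale 22693 17000 h1))))))))⟩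
noncomputable def kf5q2 : Fn2 := ⟨_, _, fun h1 h2 => (enc_norm (enc_mul (cv5p.enc h1) (bf5q2.enc h1 h2)))⟩
noncomputable def bx5q2_3 : Fn2 := ⟨_, _, fun h1 h2 => (enc_subr 1047 2000 h2)⟩
noncomputable def bx5q2 : Fn2 := ⟨_, _, fun h1 h2 => (enc_norm (enc_case (enc_subr 117 100 h1) (enc_add (enc_sub (enc_rat _ 260561 850000) (enc_scale 51473 170000 h1)) (enc_mul (enc_norm (bx5q2_3.enc h1 h2)) (enc_norm (enc_subr 37873 106250 (enc_scale 4903 17000 h1))))) (enc_case (enc_subr 133 100 h1) (enc_add (enc_subr 1834493 8000000 (enc_scale 12417 80000 h1)) (enc_mul (enc_norm (bx5q2_3.enc h1 h2)) (enc_norm (enc_subr 2169527 1600000 (enc_scale 18283 16000 h1))))) (enc_add (enc_subr 846457 1700000 (enc_scale 60719 170000 h1)) (enc_mul (enc_norm (bx5q2_3.enc h1 h2)) (enc_norm (enc_subr 362693 425000 (enc_scale 6501 8500 h1))))))))⟩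
noncomputable def l5q2 : Fn2 := ⟨_, _, fun h1 h2 => (enc_norm (enc_mul (cv5p.enc h1) (bx5q2.enc h1 h2)))⟩
noncomputable def bd5q2 : Fn2 := ⟨_, _, fun h1 h2 => (enc_norm (enc_add (enc_subr 1954969 1000000 (enc_scale 101529 62500 h1)) (enc_mul (enc_norm (enc_subr 1047 2000 h2)) (enc_norm (enc_subr 1205957 50000 (enc_scale 563457 25000 h1))))))⟩
noncomputable def kc5q2 : Fn2 := ⟨_, _, fun h1 h2 => (enc_norm (enc_mul (cv5p.enc h1) (bd5q2.enc h1 h2)))⟩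
noncomputable def xc53 : Fn1 := ⟨_, _, fun h1 => (enc_norm (enc_add (enc_scale 3 10 (enc_subr 1 2 (swg.enc (ycg.enc h1)))) (enc_scale 7 10 h1)))⟩
noncomputable def kfc53_11 : Fn2 := ⟨_, _, fun h1 h2 => (enc_subr 1047 2000 h2)⟩
noncomputable def kfc53 : Fn2 := ⟨_, _, fun h1 h2 => (enc_norm (enc_mul (enc_norm (enc_add (enc_scale 3 10 (enc_subr 1 2 (swg.enc (ycg.enc h1)))) (enc_scale 7 10 h1))) (enc_norm (enc_case (enc_sub (enc_rat _ 45620719 50000000) h1) (enc_case (enc_sub (enc_rat _ 1097767393 1000000000) h1) (enc_add (enc_sub (enc_rat _ 86467512572463 47876531000000) (enc_scale 92863000 47876531 h1)) (enc_mul (enc_norm (kfc53_11.enc h1 h2)) (enc_norm (enc_subr 969320881349 2393826550000 (enc_scale 23350000 47876531 h1))))) (enc_add (enc_sub (enc_rat _ 266631731504579 185353013000000) (enc_scale 297459000 185353013 h1)) (enc_mul (enc_norm (kfc53_11.enc h1 h2)) (enc_norm (enc_subr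 959245309237 3707060260000 (enc_scale 65720000 185353013 h1)))))) (enc_case (enc_sub (enc_rat _ 658122329 1000000000) h1) (enc_add (enc_sub (enc_rat _ 203885802588073 254292051000000) (enc_scale 230636000 254292051 h1)) (enc_mul (enc_norm (kfc53_11.enc h1 h2)) (enc_norm (enc_sub (enc_rat _ 285682894479 1695280340000) (enc_scale 9640000 84764017 h1))))) (enc_add (enc_sub (enc_rat _ 1 2) (enc_scale 295121000 658122329 h1)) (enc_mul (enc_norm (kfc53_11.enc h1 h2)) (enc_scale 93670000 658122329 h1))))))))⟩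
noncomputable def lc53_11 : Fn2 := ⟨_, _, fun h1 h2 => (enc_subr 1047 2000 h2)⟩
noncomputable def lc53 : Fn2 := ⟨_, _, fun h1 h2 => (enc_norm (enc_mul (enc_norm (enc_add (enc_scale 3 10 (enc_subr 1 2 (swg.enc (ycg.enc h1)))) (enc_scale 7 10 h1))) (enc_norm (enc_case (enc_sub (enc_rat _ 45620719 50000000) h1) (enc_case (enc_sub (enc_rat _ 1097767393 1000000000) h1) (enc_add (enc_sub (enc_rat _ 36460352732953 47876531000000) (enc_scale 30387000 47876531 h1)) (enc_mul (enc_norm (lc53_11.enc h1 h2)) (enc_norm (enc_sub (enc_rat _ 5736380351 16065950000) (enc_scale 50000 321319 h1))))) (enc_add (enc_sub (enc_rat _ 60900579228571 92676506500000) (enc_scale 100012000 185353013 h1)) (enc_mul (enc_norm (lc53_11.enc h1 h2)) (enc_norm (enc_sub (enc_rat _ 1197308622679 2316912662500) (enc_scale 55810000 185353013 h1)))))) (enc_case (enc_sub (enc_rat _ 658122329 1000000000) h1) (enc_add (enc_sub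 (enc_rat _ 95011101992267 127146025500000) (enc_scale 162329000 254292051 h1)) (enc_mul (enc_norm (lc53_11.enc h1 h2)) (enc_norm (enc_sub (enc_rat _ 2048451509263 3178650637500) (enc_scale 112150000 254292051 h1))))) (enc_add (enc_add (enc_scale 191315400 658122329 h1) (enc_rat _ 339569 2500000)) (enc_mul (enc_norm (lc53_11.enc h1 h2)) (enc_norm (enc_sub (enc_rat _ 504779 234375) (enc_scale 5398601200 1974366987 h1))))))))))⟩
noncomputable def kcc53 : Fn2 := ⟨_, _, fun h1 h2 => (enc_norm (enc_mul (enc_norm (enc_add (enc_scale 3 10 (enc_subr 1 2 (swg.enc (ycg.enc h1)))) (enc_scale 7 10 h1))) (enc_norm (enc_add (enc_subr 1251 4000 (enc_scale 372684250 286410981 h1)) (enc_mul (enc_norm (enc_subr 1047 2000 h2)) (enc_norm (enc_sub (enc_rat _ 222249 28000) (enc_scale 3485862500 668292289 h1))))))))⟩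
noncomputable def kf6q0 : Fn2 := ⟨_, _, fun h1 h2 => (enc_norm (enc_sub (enc_mul h1 (kcg.enc (enc_half h1) h2)) (enc_mul (enc_norm (enc_mul (enc_sq h1) (enc_norm (enc_add (c3g.enc h1) (enc_rat _ 3 2))))) (enc_inv (enc_mul (enc_norm (enc_sub (enc_pnc _ 1) h1)) (enc_norm (enc_add (enc_pnc _ 1) h1)))))))⟩
noncomputable def l6q0_6 : Fn2 := ⟨_, _, fun h1 h2 => (enc_half h1)⟩
noncomputable def l6q0_7 : Fn2 := ⟨_, _, fun h1 h2 => (enc_half (c3g.enc h1))⟩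
noncomputable def l6q0_8 : Fn2 := ⟨_, _, fun h1 h2 => (enc_scale 1 4 h1)⟩
noncomputable def l6q0 : Fn2 := ⟨_, _, fun h1 h2 => (enc_norm (enc_add (txg.enc (l6q0_6.enc h1 h2) (enc_norm (enc_sub (l6q0_7.enc h1 h2) (l6q0_8.enc h1 h2))) h2) (txg.enc (enc_neg (l6q0_6.enc h1 h2)) (enc_norm (enc_add (l6q0_7.enc h1 h2) (l6q0_8.enc h1 h2))) h2)))⟩
noncomputable def kc6q0_3 : Fn2 := ⟨_, _, fun h1 h2 => (enc_subr 1047 2000 h2)⟩
noncomputable def kc6q0_6 : Fn2 := ⟨_, _, fun h1 h2 => (enc_half h1)⟩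
noncomputable def kc6q0 : Fn2 := ⟨_, _, fun h1 h2 => (enc_norm (enc_case (enc_subr 1 4 (kc6q0_6.enc h1 h2)) (enc_case (enc_subr 13 100 (kc6q0_6.enc h1 h2)) (enc_add (enc_subr 1288943 500000 (enc_scale 932153 260000 h1)) (enc_mul (enc_norm (kc6q0_3.enc h1 h2)) (enc_norm (enc_sub (enc_rat _ 27289 10000) (enc_scale 82249 26000 h1))))) (enc_add (enc_subr 7732901 3000000 (enc_scale 107527 30000 h1)) (enc_mul (enc_norm (kc6q0_3.enc h1 h2)) (enc_norm (enc_sub (enc_rat _ 3411373 1200000) (enc_scale 86437 24000 h1)))))) (enc_case (enc_subr 19 50 (kc6q0_6.enc h1 h2)) (enc_add (enc_subr 21634871 13000000 (enc_scale 228463 130000 h1)) (enc_mul (enc_norm (kc6q0_3.enc h1 h2)) (enc_norm (enc_sub (enc_rat _ 2989277 1300000) (enc_scale 13077 5200 h1))))) (enc_add (enc_subr 328591 240000 (enc_scale 328591 240000 h1)) (enc_mul (enc_norm (kc6q0_3.enc h1 h2)) (enc_norm (enc_sub (enc_rat _ 38819 24000)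 (enc_scale 38819 24000 h1))))))))⟩
noncomputable def kf6q1 : Fn2 := ⟨_, _, fun h1 h2 => (enc_norm (enc_add (enc_mul (enc_norm (enc_mul h1 (enc_norm (enc_add (c3g.enc h1) (enc_rat _ 3 2))))) (enc_inv (enc_add (enc_pnc _ 1) h1))) (enc_mul (enc_norm (enc_subn 1 h1)) (kcg.enc (enc_half h1) h2))))⟩
noncomputable def l6q1_7 : Fn2 := ⟨_, _, fun h1 h2 => (enc_half h1)⟩
noncomputable def l6q1_8 : Fn2 := ⟨_, _, fun h1 h2 => (enc_half (c3g.enc h1))⟩
noncomputable def l6q1_9 : Fn2 := ⟨_, _, fun h1 h2 => (enc_scale 1 4 h1)⟩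
noncomputable def l6q1 : Fn2 := ⟨_, _, fun h1 h2 => (enc_norm (enc_add (txg.enc (l6q1_7.enc h1 h2) (enc_norm (enc_sub (l6q1_8.enc h1 h2) (l6q1_9.enc h1 h2))) h2) (txg.enc (enc_neg (l6q1_7.enc h1 h2)) (enc_norm (enc_add (l6q1_8.enc h1 h2) (l6q1_9.enc h1 h2))) h2)))⟩
noncomputable def kc6q1_3 : Fn2 := ⟨_, _, fun h1 h2 => (enc_subr 1047 2000 h2)⟩
noncomputable def kc6q1_7 : Fn2 := ⟨_, _, fun h1 h2 => (enc_half h1)⟩
noncomputable def kc6q1 : Fn2 := ⟨_, _, fun h1 h2 => (enc_norm (enc_case (enc_subr 1 4 (kc6q1_7.enc h1 h2)) (enc_case (enc_subr 13 100 (kc6q1_7.enc h1 h2)) (enc_add (enc_subr 1288943 500000 (enc_scale 932153 260000 h1)) (enc_mul (enc_norm (kc6q1_3.enc h1 h2)) (enc_norm (enc_sub (enc_rat _ 27289 10000) (enc_scale 82249 26000 h1))))) (enc_add (enc_subr 7732901 3000000 (enc_scale 107527 30000 h1)) (enc_mul (enc_norm (kc6q1_3.enc h1 h2)) (enc_norm (enc_sub (enc_rat _ 3411373 1200000)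 (enc_scale 86437 24000 h1)))))) (enc_case (enc_subr 19 50 (kc6q1_7.enc h1 h2)) (enc_add (enc_subr 21634871 13000000 (enc_scale 228463 130000 h1)) (enc_mul (enc_norm (kc6q1_3.enc h1 h2)) (enc_norm (enc_sub (enc_rat _ 2989277 1300000) (enc_scale 13077 5200 h1))))) (enc_add (enc_subr 328591 240000 (enc_scale 328591 240000 h1)) (enc_mul (enc_norm (kc6q1_3.enc h1 h2)) (enc_norm (enc_sub (enc_rat _ 38819 24000) (enc_scale 38819 24000 h1))))))))⟩
noncomputable def kf6q2 : Fn2 := ⟨_, _, fun h1 h2 => (enc_norm (enc_add (enc_mul (enc_norm (enc_mul (enc_norm (enc_sub (enc_nat 2 (c3g.enc h1)) h1)) (enc_norm (enc_sub (enc_add (c3g.enc h1) (enc_pnc _ 3)) (enc_scale 3 2 h1))))) (enc_inv (enc_nat 4 (enc_sub (enc_pnc _ 2) h1)))) (enc_mul (enc_norm (enc_subn 1 h1)) (kcg.enc (enc_norm (enc_sub (enc_scale 1 4 h1) (enc_half (c3g.enc h1)))) h2))))⟩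
noncomputable def l6q2_7 : Fn2 := ⟨_, _, fun h1 h2 => (enc_half (c3g.enc h1))⟩
noncomputable def l6q2_8 : Fn2 := ⟨_, _, fun h1 h2 => (enc_scale 1 4 h1)⟩
noncomputable def l6q2_9 : Fn2 := ⟨_, _, fun h1 h2 => (enc_sub (l6q2_7.enc h1 h2) (l6q2_8.enc h1 h2))⟩
noncomputable def l6q2_12 : Fn2 := ⟨_, _, fun h1 h2 => (enc_add (enc_scale 1 4 (c3g.enc h1)) (enc_scale 3 8 h1))⟩
noncomputable def l6q2_14 : Fn2 := ⟨_, _, fun h1 h2 => (enc_half (l6q2_9.enc h1 h2))⟩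
noncomputable def l6q2 : Fn2 := ⟨_, _, fun h1 h2 => (enc_norm (enc_sub (enc_nat 2 (txg.enc (enc_norm (enc_sub (l6q2_8.enc h1 h2) (l6q2_7.enc h1 h2))) (enc_norm (enc_add (l6q2_12.enc h1 h2) (l6q2_14.enc h1 h2))) h2)) (txg.enc (enc_norm (l6q2_9.enc h1 h2)) (enc_norm (enc_sub (l6q2_12.enc h1 h2) (l6q2_14.enc h1 h2))) h2)))⟩
noncomputable def kc6q2_3 : Fn2 := ⟨_, _, fun h1 h2 => (enc_subr 1047 2000 h2)⟩
noncomputable def kc6q2_9 : Fn2 := ⟨_, _, fun h1 h2 => (enc_sub (enc_half (c3g.enc h1)) (enc_scale 1 4 h1))⟩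
noncomputable def kc6q2 : Fn2 := ⟨_, _, fun h1 h2 => (enc_norm (enc_case (enc_add (kc6q2_9.enc h1 h2) (enc_rat _ 7 100)) (enc_case (enc_add (kc6q2_9.enc h1 h2) (enc_rat _ 9 25)) (enc_add (enc_subr 1251 4000 (enc_neg (enc_scale 1251 2000 (kc6q2_9.enc h1 h2)))) (enc_mul (enc_norm (kc6q2_3.enc h1 h2)) (enc_norm (enc_add (enc_scale 222249 14000 (kc6q2_9.enc h1 h2)) (enc_rat _ 222249 28000))))) (enc_case (enc_add (kc6q2_9.enc h1 h2) (enc_rat _ 21 100)) (enc_add (enc_add (enc_scale 40091 50000 (kc6q2_9.enc h1 h2)) (enc_rat _ 502713 2500000)) (enc_mul (enc_norm (kc6q2_3.enc h1 h2)) (enc_norm (enc_add (enc_scale 38563 7500 (kc6q2_9.enc h1 h2)) (enc_rat _ 2036757 500000))))) (enc_add (enc_add (enc_scale 122897 140000 (kc6q2_9.enc h1 h2)) (enc_rat _ 434097 2000000)) (enc_mul (enc_norm (kc6q2_3.enc h1 h2)) (enc_norm (enc_add (enc_scale 36513 14000 (kc6q2_9.enc h1 h2)) (enc_rat _ 708289 200000)))))))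 (enc_case (enc_subr 21 100 (kc6q2_9.enc h1 h2)) (enc_case (enc_subr 7 100 (kc6q2_9.enc h1 h2)) (enc_add (enc_add (enc_scale 127021 140000 (kc6q2_9.enc h1 h2)) (enc_rat _ 438221 2000000)) (enc_mul (enc_norm (kc6q2_3.enc h1 h2)) (enc_norm (enc_add (enc_scale 191 500 (kc6q2_9.enc h1 h2)) (enc_rat _ 169281 50000))))) (enc_add (enc_add (enc_scale 5339 8750 (kc6q2_9.enc h1 h2)) (enc_rat _ 239909 1000000)) (enc_mul (enc_norm (kc6q2_3.enc h1 h2)) (enc_norm (enc_sub (enc_rat _ 22209 6250) (enc_scale 3527 1750 (kc6q2_9.enc h1 h2))))))) (enc_case (enc_subr 9 25 (kc6q2_9.enc h1 h2)) (enc_add (enc_add (enc_scale 20143 150000 (kc6q2_9.enc h1 h2)) (enc_rat _ 212403 625000)) (enc_mul (enc_norm (kc6q2_3.enc h1 h2)) (enc_norm (enc_sub (enc_rat _ 2485327 500000) (enc_scale 131461 15000 (kc6q2_9.enc h1 h2)))))) (enc_add (enc_sub (enc_rat _ 97047 70000) (enc_scale 97047 35000 (kc6q2_9.enc h1 h2))) (enc_mul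 (enc_norm (kc6q2_3.enc h1 h2)) (enc_norm (enc_sub (enc_rat _ 25937 4000) (enc_scale 25937 2000 (kc6q2_9.enc h1 h2))))))))))⟩
noncomputable def kfc63 : Fn2 := ⟨_, _, fun h1 h2 => (enc_norm (enc_sub (enc_mul (enc_norm (enc_subn 2 (ycg.enc h1))) (kcg.enc (enc_norm (enc_sub (enc_scale 1 4 (ycg.enc h1)) (enc_half h1))) h2)) (enc_mul (enc_norm (enc_mul (enc_norm (enc_sub (enc_nat 2 h1) (ycg.enc h1))) (enc_norm (enc_sub (enc_add h1 (enc_pnc _ 3)) (enc_scale 3 2 (ycg.enc h1)))))) (enc_inv (enc_nat 4 (enc_subn 1 (ycg.enc h1)))))))⟩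
noncomputable def lc63_7 : Fn2 := ⟨_, _, fun h1 h2 => (enc_half h1)⟩
noncomputable def lc63_8 : Fn2 := ⟨_, _, fun h1 h2 => (enc_scale 1 4 (ycg.enc h1))⟩
noncomputable def lc63_9 : Fn2 := ⟨_, _, fun h1 h2 => (enc_sub (lc63_7.enc h1 h2) (lc63_8.enc h1 h2))⟩
noncomputable def lc63_12 : Fn2 := ⟨_, _, fun h1 h2 => (enc_add (enc_scale 1 4 h1) (enc_scale 3 8 (ycg.enc h1)))⟩
noncomputable def lc63_14 : Fn2 := ⟨_, _, fun h1 h2 => (enc_half (lc63_9.enc h1 h2))⟩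
noncomputable def lc63 : Fn2 := ⟨_, _, fun h1 h2 => (enc_norm (enc_sub (enc_nat 2 (txg.enc (enc_norm (enc_sub (lc63_8.enc h1 h2) (lc63_7.enc h1 h2))) (enc_norm (enc_add (lc63_12.enc h1 h2) (lc63_14.enc h1 h2))) h2)) (txg.enc (enc_norm (lc63_9.enc h1 h2)) (enc_norm (enc_sub (lc63_12.enc h1 h2) (lc63_14.enc h1 h2))) h2)))⟩
noncomputable def kcc63_4 : Fn2 := ⟨_, _, fun h1 h2 => (enc_subr 1047 2000 h2)⟩
noncomputable def kcc63_9 : Fn2 := ⟨_, _, fun h1 h2 => (enc_sub (enc_half h1) (enc_scale 1 4 (ycg.enc h1)))⟩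
noncomputable def kcc63 : Fn2 := ⟨_, _, fun h1 h2 => (enc_norm (enc_case (enc_add (kcc63_9.enc h1 h2) (enc_rat _ 7 100)) (enc_case (enc_add (kcc63_9.enc h1 h2) (enc_rat _ 9 25)) (enc_add (enc_subr 1251 4000 (enc_neg (enc_scale 1251 2000 (kcc63_9.enc h1 h2)))) (enc_mul (enc_norm (kcc63_4.enc h1 h2)) (enc_norm (enc_add (enc_scale 222249 14000 (kcc63_9.enc h1 h2)) (enc_rat _ 222249 28000))))) (enc_case (enc_add (kcc63_9.enc h1 h2) (enc_rat _ 21 100)) (enc_add (enc_add (enc_scale 40091 50000 (kcc63_9.enc h1 h2)) (enc_rat _ 502713 2500000)) (enc_mul (enc_norm (kcc63_4.enc h1 h2)) (enc_norm (enc_add (enc_scale 38563 7500 (kcc63_9.enc h1 h2)) (enc_rat _ 2036757 500000))))) (enc_add (enc_add (enc_scale 122897 140000 (kcc63_9.enc h1 h2)) (enc_rat _ 434097 2000000)) (enc_mul (enc_norm (kcc63_4.enc h1 h2)) (enc_norm (enc_add (enc_scale 36513 14000 (kcc63_9.enc h1 h2)) (enc_rat _ 708289 200000)))))))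 (enc_case (enc_subr 21 100 (kcc63_9.enc h1 h2)) (enc_case (enc_subr 7 100 (kcc63_9.enc h1 h2)) (enc_add (enc_add (enc_scale 127021 140000 (kcc63_9.enc h1 h2)) (enc_rat _ 438221 2000000)) (enc_mul (enc_norm (kcc63_4.enc h1 h2)) (enc_norm (enc_add (enc_scale 191 500 (kcc63_9.enc h1 h2)) (enc_rat _ 169281 50000))))) (enc_add (enc_add (enc_scale 5339 8750 (kcc63_9.enc h1 h2)) (enc_rat _ 239909 1000000)) (enc_mul (enc_norm (kcc63_4.enc h1 h2)) (enc_norm (enc_sub (enc_rat _ 22209 6250) (enc_scale 3527 1750 (kcc63_9.enc h1 h2))))))) (enc_case (enc_subr 9 25 (kcc63_9.enc h1 h2)) (enc_add (enc_add (enc_scale 20143 150000 (kcc63_9.enc h1 h2)) (enc_rat _ 212403 625000)) (enc_mul (enc_norm (kcc63_4.enc h1 h2)) (enc_norm (enc_sub (enc_rat _ 2485327 500000) (enc_scale 131461 15000 (kcc63_9.enc h1 h2)))))) (enc_add (enc_sub (enc_rat _ 97047 70000) (enc_scale 97047 35000 (kcc63_9.enc h1 h2))) (enc_mul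 (enc_norm (kcc63_4.enc h1 h2)) (enc_norm (enc_sub (enc_rat _ 25937 4000) (enc_scale 25937 2000 (kcc63_9.enc h1 h2))))))))))⟩
noncomputable def lm5m : Fn2 := ⟨_, _, fun h1 h2 => (enc_lam (enc_norm (enc_sub h1 (cv5m.enc h2))) (enc_sub (c3g.enc h2) (cv5m.enc h2)))⟩
noncomputable def lm4m : Fn2 := ⟨_, _, fun h1 h2 => (enc_lam (enc_norm (enc_sub h1 (cv4m.enc h2))) (enc_sub (cv5m.enc h2) (cv4m.enc h2)))⟩
noncomputable def lm3m : Fn2 := ⟨_, _, fun h1 h2 => (enc_lam (enc_norm (enc_sub h1 (cv3m.enc h2))) (enc_sub (cv4m.enc h2) (cv3m.enc h2)))⟩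
noncomputable def lm2m : Fn2 := ⟨_, _, fun h1 h2 => (enc_lam (enc_norm (enc_sub h1 (cv2m.enc h2))) (enc_sub (cv3m.enc h2) (cv2m.enc h2)))⟩
noncomputable def lm1m : Fn2 := ⟨_, _, fun h1 h2 => (enc_lam (enc_norm (enc_sub h1 (cv1m.enc h2))) (enc_sub (cv2m.enc h2) (cv1m.enc h2)))⟩
noncomputable def lm0m : Fn2 := ⟨_, _, fun h1 h2 => (enc_lam (enc_norm (enc_sub h1 (c1g.enc h2))) (enc_sub (cv1m.enc h2) (c1g.enc h2)))⟩
noncomputable def rkbq0_39 : Fn3 := ⟨_, _, fun h1 h2 h3 => (enc_sub (enc_pnc _ 1) h2)⟩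
noncomputable def rkbq0_40 : Fn3 := ⟨_, _, fun h1 h2 h3 => (gsg.enc (enc_norm (rkbq0_39.enc h1 h2 h3)))⟩
noncomputable def rkbq0_43 : Fn3 := ⟨_, _, fun h1 h2 h3 => (enc_sub (enc_scale 3 4 (rkbq0_39.enc h1 h2 h3)) (enc_half (rkbq0_40.enc h1 h2 h3)))⟩
noncomputable def rkbq0_63 : Fn3 := ⟨_, _, fun h1 h2 h3 => (enc_sub h1 (cv3m.enc h2))⟩
noncomputable def rkbq0 : Fn3 := ⟨_, _, fun h1 h2 h3 => (enc_case (enc_sub h1 (cv1m.enc h2)) (enc_add (enc_mul h1 (bf1q0.enc h2 h3)) (enc_mul (enc_norm (enc_sub (enc_pnc _ 1) (lm0m.enc h1 h2))) (enc_norm (enc_sub (kf0q0.enc h2 h3) (enc_mul (c1g.enc h2) (bf1q0.enc h2 h3)))))) (enc_case (enc_sub h1 (cv2m.enc h2)) (enc_add (enc_mul h1 (bf2q0.enc h2 h3)) (enc_mul (enc_norm (enc_mul (enc_norm (enc_sub (enc_pnc _ 1) (lm1m.enc h1 h2))) (cv1m.enc h2))) (enc_norm (enc_sub (bf1q0.enc h2 h3) (bf2q0.enc h2 h3))))) (enc_case (rkbq0_63.enc h1 h2 h3) (enc_add (enc_mul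 h1 (bf3q0.enc h2 h3)) (enc_mul (enc_norm (enc_mul (enc_norm (enc_sub (enc_pnc _ 1) (lm2m.enc h1 h2))) (cv2m.enc h2))) (enc_norm (enc_sub (bf2q0.enc h2 h3) (bf3q0.enc h2 h3))))) (enc_case (enc_sub h1 (cv4m.enc h2)) (enc_case (enc_subr 433 1000 h2) (enc_add (enc_mul h1 (bf4q0.enc h2 h3)) (enc_mul (enc_norm (enc_mul (enc_norm (enc_sub (enc_pnc _ 1) (lm3m.enc h1 h2))) (cv3m.enc h2))) (enc_norm (enc_sub (bf3q0.enc h2 h3) (bf4q0.enc h2 h3))))) (enc_add (kf3q0.enc h2 h3) (enc_mul (enc_norm (enc_mul (enc_norm (rkbq0_63.enc h1 h2 h3)) (enc_inv (enc_sub (enc_add (swg.enc h2) (enc_rat _ 1 2)) (cv3m.enc h2))))) (enc_norm (enc_sub (enc_mul h2 (enc_norm (enc_sub (enc_mul (enc_norm (enc_sub (rkbq0_43.enc h1 h2 h3) (enc_sub (enc_rat _ 1 4) (enc_scale 3 8 (enc_mul (enc_norm (rkbq0_39.enc h1 h2 h3)) (enc_inv (rkbq0_40.enc h1 h2 h3))))))) (enc_inv (esg.enc (enc_norm (rkbq0_39.enc h1 h2 h3))))) (kcg.enc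 (enc_norm (rkbq0_43.enc h1 h2 h3)) h3)))) (kf3q0.enc h2 h3)))))) (enc_case (enc_sub h1 (cv5m.enc h2)) (enc_add (enc_mul h1 (bf5q0.enc h2 h3)) (enc_mul (enc_norm (enc_sub (enc_pnc _ 1) (lm4m.enc h1 h2))) (enc_norm (enc_sub (kf4q0.enc h2 h3) (enc_mul (cv4m.enc h2) (bf5q0.enc h2 h3)))))) (enc_add (kf5q0.enc h2 h3) (enc_mul (lm5m.enc h1 h2) (enc_norm (enc_sub (kf6q0.enc h2 h3) (kf5q0.enc h2 h3))))))))))⟩
noncomputable def rsbq0 : Fn3 := ⟨_, _, fun h1 h2 h3 => (enc_case h1 (enc_neg (rkbq0.enc (enc_neg h1) h2 h3)) (rkbq0.enc h1 h2 h3))⟩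
noncomputable def rkbq1_39 : Fn3 := ⟨_, _, fun h1 h2 h3 => (enc_sub (enc_pnc _ 1) h2)⟩
noncomputable def rkbq1_40 : Fn3 := ⟨_, _, fun h1 h2 h3 => (gsg.enc (enc_norm (rkbq1_39.enc h1 h2 h3)))⟩
noncomputable def rkbq1_43 : Fn3 := ⟨_, _, fun h1 h2 h3 => (enc_sub (enc_scale 3 4 (rkbq1_39.enc h1 h2 h3)) (enc_half (rkbq1_40.enc h1 h2 h3)))⟩
noncomputable def rkbq1_62 : Fn3 := ⟨_, _, fun h1 h2 h3 => (enc_sub h1 (cv3m.enc h2))⟩
noncomputable def rkbq1 : Fn3 := ⟨_, _, fun h1 h2 h3 => (enc_case (enc_sub h1 (cv1m.enc h2)) (enc_add (enc_mul h1 (bf1q1.enc h2 h3)) (enc_mul (enc_norm (enc_sub (enc_pnc _ 1) (lm0m.enc h1 h2))) (enc_norm (enc_sub (kf0q1.enc h2 h3) (enc_mul (c1g.enc h2) (bf1q1.enc h2 h3)))))) (enc_case (enc_sub h1 (cv2m.enc h2)) (enc_add (enc_mul h1 (bf2q1.enc h2 h3)) (enc_mul (enc_norm (enc_mul (enc_norm (enc_sub (enc_pnc _ 1) (lm1m.enc h1 h2))) (cv1m.enc h2))) (enc_norm (enc_sub (bf1q1.enc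 h2 h3) (bf2q1.enc h2 h3))))) (enc_case (rkbq1_62.enc h1 h2 h3) (enc_add (enc_mul h1 (bf3q1.enc h2 h3)) (enc_mul (enc_norm (enc_mul (enc_norm (enc_sub (enc_pnc _ 1) (lm2m.enc h1 h2))) (cv2m.enc h2))) (enc_norm (enc_sub (bf2q1.enc h2 h3) (bf3q1.enc h2 h3))))) (enc_case (enc_sub h1 (cv4m.enc h2)) (enc_case (enc_subr 13 25 h2) (enc_add (kf3q1.enc h2 h3) (enc_mul (enc_norm (enc_mul (enc_norm (rkbq1_62.enc h1 h2 h3)) (enc_inv (enc_sub (enc_add (swg.enc h2) (enc_rat _ 1 2)) (cv3m.enc h2))))) (enc_norm (enc_sub (enc_mul (enc_norm (enc_subn 1 h2)) (enc_norm (enc_sub (enc_mul (enc_norm (enc_sub (rkbq1_43.enc h1 h2 h3) (enc_sub (enc_rat _ 1 4) (enc_scale 3 8 (enc_mul (enc_norm (rkbq1_39.enc h1 h2 h3)) (enc_inv (rkbq1_40.enc h1 h2 h3))))))) (enc_inv (esg.enc (enc_norm (rkbq1_39.enc h1 h2 h3))))) (kcg.enc (enc_norm (rkbq1_43.enc h1 h2 h3)) h3)))) (kf3q1.enc h2 h3))))) (enc_add (enc_mul h1 (bf4q1.enc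 h2 h3)) (enc_mul (enc_norm (enc_mul (enc_norm (enc_sub (enc_pnc _ 1) (lm3m.enc h1 h2))) (cv3m.enc h2))) (enc_norm (enc_sub (bf3q1.enc h2 h3) (bf4q1.enc h2 h3)))))) (enc_case (enc_sub h1 (cv5m.enc h2)) (enc_add (enc_mul h1 (bf5q1.enc h2 h3)) (enc_mul (enc_norm (enc_sub (enc_pnc _ 1) (lm4m.enc h1 h2))) (enc_norm (enc_sub (kf4q1.enc h2 h3) (enc_mul (cv4m.enc h2) (bf5q1.enc h2 h3)))))) (enc_add (kf5q1.enc h2 h3) (enc_mul (lm5m.enc h1 h2) (enc_norm (enc_sub (kf6q1.enc h2 h3) (kf5q1.enc h2 h3))))))))))⟩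
noncomputable def rsbq1 : Fn3 := ⟨_, _, fun h1 h2 h3 => (enc_case h1 (enc_neg (rkbq1.enc (enc_neg h1) h2 h3)) (rkbq1.enc h1 h2 h3))⟩
noncomputable def cv1p : Fn1 := ⟨_, _, fun h1 => (enc_norm (enc_add (enc_scale 22 25 (c1g.enc h1)) (enc_scale 3 25 (enc_subr 1 2 (swg.enc h1)))))⟩
noncomputable def cv2p : Fn1 := ⟨_, _, fun h1 => (enc_norm (enc_add (enc_scale 3 5 (c1g.enc h1)) (enc_scale 2 5 (enc_subr 1 2 (swg.enc h1)))))⟩
noncomputable def lm5p : Fn2 := ⟨_, _, fun h1 h2 => (enc_lam (enc_norm (enc_sub h1 (cv5p.enc h2))) (enc_sub (c3g.enc h2) (cv5p.enc h2)))⟩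
noncomputable def lm4p : Fn2 := ⟨_, _, fun h1 h2 => (enc_lam (enc_norm (enc_sub h1 (cv4p.enc h2))) (enc_sub (cv5p.enc h2) (cv4p.enc h2)))⟩
noncomputable def lm3p : Fn2 := ⟨_, _, fun h1 h2 => (enc_lam (enc_norm (enc_sub h1 (cv3p.enc h2))) (enc_sub (cv4p.enc h2) (cv3p.enc h2)))⟩
noncomputable def bf3q2_3 : Fn2 := ⟨_, _, fun h1 h2 => (enc_subr 1047 2000 h2)⟩
noncomputable def bf3q2 : Fn2 := ⟨_, _, fun h1 h2 => (enc_norm (enc_case (enc_sub (enc_pnc _ 1) (enc_scale 3 4 (enc_sq h1))) (enc_case (enc_subr 127 100 h1) (enc_add (enc_sub (enc_rat _ 35635023 11600000) (enc_scale 240821 116000 h1)) (enc_mul (enc_norm (bf3q2_3.enc h1 h2)) (enc_norm (enc_subr 3462613 290000 (enc_scale 2893 290 h1))))) (enc_case (enc_subr 69 50 h1) (enc_add (enc_sub (enc_rat _ 2571803 687500) (enc_scale 143147 55000 h1)) (enc_mul (enc_norm (bf3q2_3.enc h1 h2)) (enc_norm (enc_subr 275709 25000 (enc_scale 4629 500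 h1))))) (enc_add (enc_subr 37201 50000 (enc_scale 809 1250 h1)) (enc_mul (enc_norm (bf3q2_3.enc h1 h2)) (enc_norm (enc_sub (enc_rat _ 6662093 200000) (enc_scale 274459 12000 h1))))))) (enc_case (enc_subr 1 4 (c1g.enc h1)) (enc_case (enc_subr 1 10 (c1g.enc h1)) (enc_case (enc_subr 1 20 (c1g.enc h1)) (enc_add (enc_add (enc_scale 18577 25000 (c1g.enc h1)) (enc_rat _ 674237 1000000)) (enc_mul (enc_norm (bf3q2_3.enc h1 h2)) (enc_norm (enc_subr 42007 100000 (enc_scale 3041 2500 (c1g.enc h1)))))) (enc_add (enc_add (enc_scale 9289 12500 (c1g.enc h1)) (enc_rat _ 134847 200000)) (enc_mul (enc_norm (bf3q2_3.enc h1 h2)) (enc_norm (enc_subr 21123 50000 (enc_scale 6321 5000 (c1g.enc h1))))))) (enc_case (enc_subr 3 20 (c1g.enc h1)) (enc_add (enc_add (enc_scale 1891 2500 (c1g.enc h1)) (enc_rat _ 672907 1000000)) (enc_mul (enc_norm (bf3q2_3.enc h1 h2)) (enc_norm (enc_subr 17579 50000 (enc_scale 2777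 5000 (c1g.enc h1)))))) (enc_case (enc_subr 1 5 (c1g.enc h1)) (enc_add (enc_add (enc_scale 9601 12500 (c1g.enc h1)) (enc_rat _ 134231 200000)) (enc_mul (enc_norm (bf3q2_3.enc h1 h2)) (enc_norm (enc_subr 10643 50000 (enc_neg (enc_scale 1847 5000 (c1g.enc h1))))))) (enc_add (enc_add (enc_scale 19189 25000 (c1g.enc h1)) (enc_rat _ 671259 1000000)) (enc_mul (enc_norm (bf3q2_3.enc h1 h2)) (enc_norm (enc_subr 213 2000 (enc_neg (enc_scale 2253 2500 (c1g.enc h1)))))))))) (enc_case (enc_subr 7 20 (c1g.enc h1)) (enc_case (enc_subr 3 10 (c1g.enc h1)) (enc_add (enc_add (enc_scale 36841 50000 (c1g.enc h1)) (enc_rat _ 21217 31250)) (enc_mul (enc_norm (bf3q2_3.enc h1 h2)) (enc_norm (enc_subr 37 250 (enc_neg (enc_scale 919 1250 (c1g.enc h1))))))) (enc_add (enc_add (enc_scale 16473 25000 (c1g.enc h1)) (enc_rat _ 351157 500000)) (enc_mul (enc_norm (bf3q2_3.enc h1 h2)) (enc_norm (enc_subr 8977 25000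 (enc_neg (enc_scale 79 2500 (c1g.enc h1)))))))) (enc_case (enc_subr 2 5 (c1g.enc h1)) (enc_add (enc_add (enc_scale 2869 5000 (c1g.enc h1)) (enc_rat _ 366053 500000)) (enc_mul (enc_norm (bf3q2_3.enc h1 h2)) (enc_norm (enc_subr 62669 100000 (enc_scale 733 1000 (c1g.enc h1)))))) (enc_case (enc_subr 9 20 (c1g.enc h1)) (enc_add (enc_add (enc_scale 23677 50000 (c1g.enc h1)) (enc_rat _ 77221 100000)) (enc_mul (enc_norm (bf3q2_3.enc h1 h2)) (enc_norm (enc_subr 103749 100000 (enc_scale 44 25 (c1g.enc h1)))))) (enc_add (enc_add (enc_scale 14697 50000 (c1g.enc h1)) (enc_rat _ 85303 100000)) (enc_mul (enc_norm (bf3q2_3.enc h1 h2)) (enc_norm (enc_subr 24549 10000 (enc_scale 24549 5000 (c1g.enc h1))))))))))))⟩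
noncomputable def kf3q2_4 : Fn2 := ⟨_, _, fun h1 h2 => (enc_subr 1047 2000 h2)⟩
noncomputable def kf3q2 : Fn2 := ⟨_, _, fun h1 h2 => (enc_norm (enc_mul (cv3p.enc h1) (enc_norm (enc_case (enc_sub (enc_pnc _ 1) (enc_scale 3 4 (enc_sq h1))) (enc_case (enc_subr 127 100 h1) (enc_add (enc_sub (enc_rat _ 35635023 11600000) (enc_scale 240821 116000 h1)) (enc_mul (enc_norm (kf3q2_4.enc h1 h2)) (enc_norm (enc_subr 3462613 290000 (enc_scale 2893 290 h1))))) (enc_case (enc_subr 69 50 h1) (enc_add (enc_sub (enc_rat _ 2571803 687500) (enc_scale 143147 55000 h1)) (enc_mul (enc_norm (kf3q2_4.enc h1 h2)) (enc_norm (enc_subr 275709 25000 (enc_scale 4629 500 h1))))) (enc_add (enc_subr 37201 50000 (enc_scale 809 1250 h1)) (enc_mul (enc_norm (kf3q2_4.enc h1 h2)) (enc_norm (enc_sub (enc_rat _ 6662093 200000) (enc_scale 274459 12000 h1))))))) (enc_case (enc_subr 1 4 (c1g.enc h1)) (enc_case (enc_subr 1 10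 (c1g.enc h1)) (enc_case (enc_subr 1 20 (c1g.enc h1)) (enc_add (enc_add (enc_scale 18577 25000 (c1g.enc h1)) (enc_rat _ 674237 1000000)) (enc_mul (enc_norm (kf3q2_4.enc h1 h2)) (enc_norm (enc_subr 42007 100000 (enc_scale 3041 2500 (c1g.enc h1)))))) (enc_add (enc_add (enc_scale 9289 12500 (c1g.enc h1)) (enc_rat _ 134847 200000)) (enc_mul (enc_norm (kf3q2_4.enc h1 h2)) (enc_norm (enc_subr 21123 50000 (enc_scale 6321 5000 (c1g.enc h1))))))) (enc_case (enc_subr 3 20 (c1g.enc h1)) (enc_add (enc_add (enc_scale 1891 2500 (c1g.enc h1)) (enc_rat _ 672907 1000000)) (enc_mul (enc_norm (kf3q2_4.enc h1 h2)) (enc_norm (enc_subr 17579 50000 (enc_scale 2777 5000 (c1g.enc h1)))))) (enc_case (enc_subr 1 5 (c1g.enc h1)) (enc_add (enc_add (enc_scale 9601 12500 (c1g.enc h1)) (enc_rat _ 134231 200000)) (enc_mul (enc_norm (kf3q2_4.enc h1 h2)) (enc_norm (enc_subr 10643 50000 (enc_neg (enc_scale 1847 5000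 (c1g.enc h1))))))) (enc_add (enc_add (enc_scale 19189 25000 (c1g.enc h1)) (enc_rat _ 671259 1000000)) (enc_mul (enc_norm (kf3q2_4.enc h1 h2)) (enc_norm (enc_subr 213 2000 (enc_neg (enc_scale 2253 2500 (c1g.enc h1)))))))))) (enc_case (enc_subr 7 20 (c1g.enc h1)) (enc_case (enc_subr 3 10 (c1g.enc h1)) (enc_add (enc_add (enc_scale 36841 50000 (c1g.enc h1)) (enc_rat _ 21217 31250)) (enc_mul (enc_norm (kf3q2_4.enc h1 h2)) (enc_norm (enc_subr 37 250 (enc_neg (enc_scale 919 1250 (c1g.enc h1))))))) (enc_add (enc_add (enc_scale 16473 25000 (c1g.enc h1)) (enc_rat _ 351157 500000)) (enc_mul (enc_norm (kf3q2_4.enc h1 h2)) (enc_norm (enc_subr 8977 25000 (enc_neg (enc_scale 79 2500 (c1g.enc h1)))))))) (enc_case (enc_subr 2 5 (c1g.enc h1)) (enc_add (enc_add (enc_scale 2869 5000 (c1g.enc h1)) (enc_rat _ 366053 500000)) (enc_mul (enc_norm (kf3q2_4.enc h1 h2)) (enc_norm (enc_subr 62669 100000 (enc_scale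 733 1000 (c1g.enc h1)))))) (enc_case (enc_subr 9 20 (c1g.enc h1)) (enc_add (enc_add (enc_scale 23677 50000 (c1g.enc h1)) (enc_rat _ 77221 100000)) (enc_mul (enc_norm (kf3q2_4.enc h1 h2)) (enc_norm (enc_subr 103749 100000 (enc_scale 44 25 (c1g.enc h1)))))) (enc_add (enc_add (enc_scale 14697 50000 (c1g.enc h1)) (enc_rat _ 85303 100000)) (enc_mul (enc_norm (kf3q2_4.enc h1 h2)) (enc_norm (enc_subr 24549 10000 (enc_scale 24549 5000 (c1g.enc h1))))))))))))))⟩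
noncomputable def lm2p : Fn2 := ⟨_, _, fun h1 h2 => (enc_lam (enc_norm (enc_sub h1 (cv2p.enc h2))) (enc_sub (cv3p.enc h2) (cv2p.enc h2)))⟩
noncomputable def bf2q2_3 : Fn2 := ⟨_, _, fun h1 h2 => (enc_subr 1047 2000 h2)⟩
noncomputable def bf2q2 : Fn2 := ⟨_, _, fun h1 h2 => (enc_norm (enc_case (enc_sub (enc_pnc _ 1) (enc_scale 3 4 (enc_sq h1))) (enc_case (enc_subr 127 100 h1) (enc_add (enc_sub (enc_rat _ 138466853 29000000) (enc_scale 194947 58000 h1)) (enc_mul (enc_norm (bf2q2_3.enc h1 h2)) (enc_norm (enc_subr 3631149 290000 (enc_scale 14243 1450 h1))))) (enc_case (enc_subr 69 50 h1) (enc_add (enc_sub (enc_rat _ 25154717 5500000) (enc_scale 176153 55000 h1)) (enc_mul (enc_norm (bf2q2_3.enc h1 h2)) (enc_norm (enc_subr 196243 22000 (enc_scale 3843 550 h1))))) (enc_add (enc_sub (enc_rat _ 9029253 2000000) (enc_scale 379207 120000 h1)) (enc_mul (enc_norm (bf2q2_3.enc h1 h2)) (enc_norm (enc_subr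 317579 50000 (enc_scale 2563 500 h1))))))) (enc_case (enc_subr 1 4 (c1g.enc h1)) (enc_case (enc_subr 1 10 (c1g.enc h1)) (enc_case (enc_subr 1 20 (c1g.enc h1)) (enc_add (enc_sub (enc_rat _ 448901 500000) (enc_scale 429 2000 (c1g.enc h1))) (enc_mul (enc_norm (bf2q2_3.enc h1 h2)) (enc_norm (enc_subr 130191 100000 (enc_neg (enc_scale 40017 5000 (c1g.enc h1))))))) (enc_add (enc_sub (enc_rat _ 58401 62500) (enc_scale 47339 50000 (c1g.enc h1))) (enc_mul (enc_norm (bf2q2_3.enc h1 h2)) (enc_norm (enc_subr 221009 100000 (enc_scale 50801 5000 (c1g.enc h1))))))) (enc_case (enc_subr 3 20 (c1g.enc h1)) (enc_add (enc_sub (enc_rat _ 29111 31250) (enc_scale 45907 50000 (c1g.enc h1))) (enc_mul (enc_norm (bf2q2_3.enc h1 h2)) (enc_norm (enc_subr 217659 100000 (enc_scale 24563 2500 (c1g.enc h1)))))) (enc_case (enc_subr 1 5 (c1g.enc h1)) (enc_add (enc_add (enc_scale 28047 50000 (c1g.enc h1)) (enc_rat _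 70969 100000)) (enc_mul (enc_norm (bf2q2_3.enc h1 h2)) (enc_norm (enc_subr 40323 25000 (enc_scale 30337 5000 (c1g.enc h1)))))) (enc_add (enc_add (enc_scale 3729 5000 (c1g.enc h1)) (enc_rat _ 336359 500000)) (enc_mul (enc_norm (bf2q2_3.enc h1 h2)) (enc_norm (enc_subr 2717 3125 (enc_scale 47 20 (c1g.enc h1))))))))) (enc_case (enc_subr 7 20 (c1g.enc h1)) (enc_case (enc_subr 3 10 (c1g.enc h1)) (enc_add (enc_add (enc_scale 38493 50000 (c1g.enc h1)) (enc_rat _ 666703 1000000)) (enc_mul (enc_norm (bf2q2_3.enc h1 h2)) (enc_norm (enc_subr 45019 100000 (enc_scale 673 1000 (c1g.enc h1)))))) (enc_add (enc_add (enc_scale 38087 50000 (c1g.enc h1)) (enc_rat _ 669139 1000000)) (enc_mul (enc_norm (bf2q2_3.enc h1 h2)) (enc_norm (enc_subr 31741 100000 (enc_scale 144 625 (c1g.enc h1))))))) (enc_case (enc_subr 2 5 (c1g.enc h1)) (enc_add (enc_add (enc_scale 2162 3125 (c1g.enc h1)) (enc_rat _ 173401 250000))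 (enc_mul (enc_norm (bf2q2_3.enc h1 h2)) (enc_norm (enc_subr 22363 50000 (enc_scale 3007 5000 (c1g.enc h1)))))) (enc_case (enc_subr 9 20 (c1g.enc h1)) (enc_add (enc_add (enc_scale 9113 25000 (c1g.enc h1)) (enc_rat _ 206133 250000)) (enc_mul (enc_norm (bf2q2_3.enc h1 h2)) (enc_norm (enc_subr 45659 50000 (enc_scale 8831 5000 (c1g.enc h1)))))) (enc_add (enc_add (enc_scale 5717 25000 (c1g.enc h1)) (enc_rat _ 44283 50000)) (enc_mul (enc_norm (bf2q2_3.enc h1 h2)) (enc_norm (enc_subr 11839 10000 (enc_scale 11839 5000 (c1g.enc h1))))))))))))⟩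
noncomputable def lm1p : Fn2 := ⟨_, _, fun h1 h2 => (enc_lam (enc_norm (enc_sub h1 (cv1p.enc h2))) (enc_sub (cv2p.enc h2) (cv1p.enc h2)))⟩
noncomputable def bf1q2_3 : Fn2 := ⟨_, _, fun h1 h2 => (enc_subr 1047 2000 h2)⟩
noncomputable def bf1q2_8 : Fn2 := ⟨_, _, fun h1 h2 => (enc_sub (enc_pnc _ 1) (enc_scale 3525793 5000000 (enc_subn 1 h1)))⟩
noncomputable def bf1q2 : Fn2 := ⟨_, _, fun h1 h2 => (enc_norm (enc_case (enc_sub (enc_pnc _ 1) (enc_scale 3 4 (enc_sq h1))) (enc_add (bf1q2_8.enc h1 h2) (enc_case (enc_subr 127 100 h1) (enc_case (enc_subr 231 200 h1) (enc_pnc _ 0) (enc_add (enc_sub (enc_rat _ 68470479 23000000) (enc_scale 296409 115000 h1)) (enc_mul (enc_norm (bf1q2_3.enc h1 h2)) (enc_norm (enc_subr 672903 230000 (enc_scale 2913 1150 h1)))))) (enc_case (enc_subr 139 100 h1) (enc_add (enc_sub (enc_rat _ 7157513 2400000) (enc_scale 309799 120000 h1)) (enc_mul (enc_norm (bf1q2_3.enc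 h1 h2)) (enc_norm (enc_subr 4108267 1200000 (enc_scale 35101 12000 h1))))) (enc_add (enc_sub (enc_rat _ 32831481 11000000) (enc_scale 284171 110000 h1)) (enc_mul (enc_norm (bf1q2_3.enc h1 h2)) (enc_norm (enc_subr 4061437 1100000 (enc_scale 17151 5500 h1)))))))) (enc_add (bf1q2_8.enc h1 h2) (enc_case (enc_subr 1 4 (c1g.enc h1)) (enc_case (enc_subr 1 10 (c1g.enc h1)) (enc_case (enc_subr 1 20 (c1g.enc h1)) (enc_sub (enc_scale 767 25000 (c1g.enc h1)) (enc_mul (enc_norm (bf1q2_3.enc h1 h2)) (enc_scale 4029 2500 (c1g.enc h1)))) (enc_add (enc_subr 49399 1000000 (enc_scale 50933 50000 (c1g.enc h1))) (enc_mul (enc_norm (bf1q2_3.enc h1 h2)) (enc_norm (enc_sub (enc_rat _ 5093 20000) (enc_scale 33523 5000 (c1g.enc h1))))))) (enc_case (enc_subr 3 20 (c1g.enc h1)) (enc_add (enc_sub (enc_rat _ 98237 1000000) (enc_scale 4577 10000 (c1g.enc h1))) (enc_mul (enc_norm (bf1q2_3.enc h1 h2)) (enc_norm (enc_subr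 28183 100000 (enc_neg (enc_scale 6699 5000 (c1g.enc h1))))))) (enc_case (enc_subr 1 5 (c1g.enc h1)) (enc_add (enc_sub (enc_rat _ 149669 1000000) (enc_scale 40029 50000 (c1g.enc h1))) (enc_mul (enc_norm (bf1q2_3.enc h1 h2)) (enc_norm (enc_subr 17951 20000 (enc_scale 553 200 (c1g.enc h1)))))) (enc_add (enc_sub (enc_rat _ 112977 1000000) (enc_scale 3857 6250 (c1g.enc h1))) (enc_mul (enc_norm (bf1q2_3.enc h1 h2)) (enc_norm (enc_subr 87403 100000 (enc_scale 13237 5000 (c1g.enc h1))))))))) (enc_case (enc_subr 7 20 (c1g.enc h1)) (enc_case (enc_subr 3 10 (c1g.enc h1)) (enc_add (enc_subr 101719 500000 (enc_scale 32427 50000 (c1g.enc h1))) (enc_mul (enc_norm (bf1q2_3.enc h1 h2)) (enc_norm (enc_subr 7267 25000 (enc_scale 157 500 (c1g.enc h1)))))) (enc_add (enc_subr 101971 500000 (enc_scale 32511 50000 (c1g.enc h1))) (enc_mul (enc_norm (bf1q2_3.enc h1 h2)) (enc_norm (enc_subr 11621 50000 (enc_scale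 599 5000 (c1g.enc h1))))))) (enc_case (enc_subr 2 5 (c1g.enc h1)) (enc_add (enc_subr 116687 1000000 (enc_scale 10023 25000 (c1g.enc h1))) (enc_mul (enc_norm (bf1q2_3.enc h1 h2)) (enc_norm (enc_subr 62673 100000 (enc_scale 779 625 (c1g.enc h1)))))) (enc_case (enc_subr 9 20 (c1g.enc h1)) (enc_add (enc_sub (enc_rat _ 38109 200000) (enc_scale 9179 25000 (c1g.enc h1))) (enc_mul (enc_norm (bf1q2_3.enc h1 h2)) (enc_norm (enc_subr 89617 100000 (enc_scale 48 25 (c1g.enc h1)))))) (enc_add (enc_sub (enc_rat _ 25323 100000) (enc_scale 25323 50000 (c1g.enc h1))) (enc_mul (enc_norm (bf1q2_3.enc h1 h2)) (enc_norm (enc_subr 3217 10000 (enc_scale 3217 5000 (c1g.enc h1)))))))))))))⟩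
noncomputable def kf0q2 : Fn2 := ⟨_, _, fun h1 h2 => (enc_norm (enc_add (c1g.enc h1) (enc_mul (enc_norm (enc_subn 1 h1)) (kcg.enc (enc_neg (c1g.enc h1)) h2))))⟩
noncomputable def lm0p : Fn2 := ⟨_, _, fun h1 h2 => (enc_lam (enc_norm (enc_sub h1 (c1g.enc h2))) (enc_sub (cv1p.enc h2) (c1g.enc h2)))⟩
noncomputable def n0b : Fn2 := ⟨_, _, fun h1 h2 => (enc_norm (enc_sub (enc_pnc _ 1) (enc_scale 3525793 5000000 (enc_subn 1 h1))))⟩
noncomputable def rkbq2_38 : Fn3 := ⟨_, _, fun h1 h2 h3 => (enc_subn 1 h2)⟩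
noncomputable def rkbq2_39 : Fn3 := ⟨_, _, fun h1 h2 h3 => (gsg.enc (enc_norm (rkbq2_38.enc h1 h2 h3)))⟩
noncomputable def rkbq2_40 : Fn3 := ⟨_, _, fun h1 h2 h3 => (enc_scale 3 4 (rkbq2_38.enc h1 h2 h3))⟩
noncomputable def rkbq2_41 : Fn3 := ⟨_, _, fun h1 h2 h3 => (enc_half (rkbq2_39.enc h1 h2 h3))⟩
noncomputable def rkbq2_61 : Fn3 := ⟨_, _, fun h1 h2 h3 => (enc_sub h1 (cv3p.enc h2))⟩
noncomputable def rkbq2_95 : Fn3 := ⟨_, _, fun h1 h2 h3 => (enc_mul h1 (bf1q2.enc h2 h3))⟩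
noncomputable def rkbq2_97 : Fn3 := ⟨_, _, fun h1 h2 h3 => (enc_sub (enc_pnc _ 1) (lm0p.enc h1 h2))⟩
noncomputable def rkbq2 : Fn3 := ⟨_, _, fun h1 h2 h3 => (enc_case (enc_sub h1 (cv1p.enc h2)) (enc_case (enc_subr 577 500 h2) (enc_add (rkbq2_95.enc h1 h2 h3) (enc_mul (enc_norm (rkbq2_97.enc h1 h2 h3)) (enc_norm (enc_sub (kf0q2.enc h2 h3) (enc_mul (c1g.enc h2) (bf1q2.enc h2 h3)))))) (enc_case (enc_subr 2887 2500 h2) (enc_add (rkbq2_95.enc h1 h2 h3) (enc_mul (enc_norm (rkbq2_97.enc h1 h2 h3)) (enc_norm (enc_mul (c1g.enc h2) (enc_norm (enc_sub (n0b.enc h2 h3) (bf1q2.enc h2 h3))))))) (rkbq2_95.enc h1 h2 h3))) (enc_case (enc_sub h1 (cv2p.enc h2)) (enc_add (enc_mul h1 (bf2q2.enc h2 h3)) (enc_mul (enc_norm (enc_mul (enc_norm (enc_sub (enc_pnc _ 1) (lm1p.enc h1 h2))) (cv1p.enc h2))) (enc_norm (enc_sub (bf1q2.enc h2 h3) (bf2q2.enc h2 h3))))) (enc_case (rkbq2_61.enc h1 h2 h3) (enc_add (enc_mul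 h1 (bf3q2.enc h2 h3)) (enc_mul (enc_norm (enc_mul (enc_norm (enc_sub (enc_pnc _ 1) (lm2p.enc h1 h2))) (cv2p.enc h2))) (enc_norm (enc_sub (bf2q2.enc h2 h3) (bf3q2.enc h2 h3))))) (enc_case (enc_sub h1 (cv4p.enc h2)) (enc_case (enc_subr 37 25 h2) (enc_add (enc_mul h1 (bf4q2.enc h2 h3)) (enc_mul (enc_norm (enc_mul (enc_norm (enc_sub (enc_pnc _ 1) (lm3p.enc h1 h2))) (cv3p.enc h2))) (enc_norm (enc_sub (bf3q2.enc h2 h3) (bf4q2.enc h2 h3))))) (enc_add (kf3q2.enc h2 h3) (enc_mul (enc_norm (enc_mul (enc_norm (rkbq2_61.enc h1 h2 h3)) (enc_inv (enc_sub (enc_subr 1 2 (swg.enc h2)) (cv3p.enc h2))))) (enc_norm (enc_sub (enc_mul (enc_norm (rkbq2_38.enc h1 h2 h3)) (enc_norm (enc_add (enc_mul (enc_norm (enc_sub (enc_sub (rkbq2_41.enc h1 h2 h3) (rkbq2_40.enc h1 h2 h3)) (enc_sub (enc_rat _ 1 4) (enc_scale 3 8 (enc_mul (enc_norm (rkbq2_38.enc h1 h2 h3)) (enc_inv (rkbq2_39.enc h1 h2 h3))))))) (enc_inv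 (esg.enc (enc_norm (rkbq2_38.enc h1 h2 h3))))) (kcg.enc (enc_norm (enc_sub (rkbq2_40.enc h1 h2 h3) (rkbq2_41.enc h1 h2 h3))) h3)))) (kf3q2.enc h2 h3)))))) (enc_case (enc_sub h1 (cv5p.enc h2)) (enc_add (enc_mul h1 (bf5q2.enc h2 h3)) (enc_mul (enc_norm (enc_sub (enc_pnc _ 1) (lm4p.enc h1 h2))) (enc_norm (enc_sub (kf4q2.enc h2 h3) (enc_mul (cv4p.enc h2) (bf5q2.enc h2 h3)))))) (enc_add (kf5q2.enc h2 h3) (enc_mul (lm5p.enc h1 h2) (enc_norm (enc_sub (kf6q2.enc h2 h3) (kf5q2.enc h2 h3))))))))))⟩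
noncomputable def rsbq2 : Fn3 := ⟨_, _, fun h1 h2 h3 => (enc_case h1 (enc_neg (rkbq2.enc (enc_neg h1) h2 h3)) (rkbq2.enc h1 h2 h3))⟩
noncomputable def cv4r : Fn1 := ⟨_, _, fun h1 => (enc_norm (enc_add (enc_scale 7 10 (enc_subr 1 2 (swg.enc h1))) (enc_scale 3 10 (c3g.enc h1))))⟩
noncomputable def cv5r : Fn1 := ⟨_, _, fun h1 => (enc_norm (enc_add (enc_scale 3 10 (enc_subr 1 2 (swg.enc h1))) (enc_scale 7 10 (c3g.enc h1))))⟩
noncomputable def kf5q3_4 : Fn2 := ⟨_, _, fun h1 h2 => (enc_subr 1047 2000 h2)⟩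
noncomputable def kf5q3 : Fn2 := ⟨_, _, fun h1 h2 => (enc_norm (enc_mul (cv5r.enc h1) (enc_norm (enc_case (enc_sub (enc_rat _ 45620719 50000000) (c3g.enc h1)) (enc_case (enc_sub (enc_rat _ 1097767393 1000000000) (c3g.enc h1)) (enc_add (enc_sub (enc_rat _ 86467512572463 47876531000000) (enc_scale 92863000 47876531 (c3g.enc h1))) (enc_mul (enc_norm (kf5q3_4.enc h1 h2)) (enc_norm (enc_subr 969320881349 2393826550000 (enc_scale 23350000 47876531 (c3g.enc h1)))))) (enc_add (enc_sub (enc_rat _ 266631731504579 185353013000000) (enc_scale 297459000 185353013 (c3g.enc h1))) (enc_mul (enc_norm (kf5q3_4.enc h1 h2)) (enc_norm (enc_subr 959245309237 3707060260000 (enc_scale 65720000 185353013 (c3g.enc h1))))))) (enc_case (enc_sub (enc_rat _ 658122329 1000000000) (c3g.enc h1)) (enc_add (enc_sub (enc_rat _ 203885802588073 254292051000000) (enc_scale 230636000 254292051 (c3g.enc h1))) (enc_mul (enc_norm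 (kf5q3_4.enc h1 h2)) (enc_norm (enc_sub (enc_rat _ 285682894479 1695280340000) (enc_scale 9640000 84764017 (c3g.enc h1)))))) (enc_add (enc_sub (enc_rat _ 1 2) (enc_scale 295121000 658122329 (c3g.enc h1))) (enc_mul (enc_norm (kf5q3_4.enc h1 h2)) (enc_scale 93670000 658122329 (c3g.enc h1)))))))))⟩
noncomputable def kf6q3 : Fn2 := ⟨_, _, fun h1 h2 => (enc_norm (enc_sub (enc_mul (enc_norm (enc_subn 2 h1)) (kcg.enc (enc_norm (enc_sub (enc_scale 1 4 h1) (enc_half (c3g.enc h1)))) h2)) (enc_mul (enc_norm (enc_mul (enc_norm (enc_sub (enc_nat 2 (c3g.enc h1)) h1)) (enc_norm (enc_sub (enc_add (c3g.enc h1) (enc_pnc _ 3)) (enc_scale 3 2 h1))))) (enc_inv (enc_nat 4 (enc_subn 1 h1))))))⟩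
noncomputable def lm5r : Fn2 := ⟨_, _, fun h1 h2 => (enc_lam (enc_norm (enc_sub h1 (cv5r.enc h2))) (enc_sub (c3g.enc h2) (cv5r.enc h2)))⟩
noncomputable def bf5q3_3 : Fn2 := ⟨_, _, fun h1 h2 => (enc_subr 1047 2000 h2)⟩
noncomputable def bf5q3 : Fn2 := ⟨_, _, fun h1 h2 => (enc_norm (enc_case (enc_sub (enc_rat _ 45620719 50000000) (c3g.enc h1)) (enc_case (enc_sub (enc_rat _ 1097767393 1000000000) (c3g.enc h1)) (enc_add (enc_sub (enc_rat _ 86467512572463 47876531000000) (enc_scale 92863000 47876531 (c3g.enc h1))) (enc_mul (enc_norm (bf5q3_3.enc h1 h2)) (enc_norm (enc_subr 969320881349 2393826550000 (enc_scale 23350000 47876531 (c3g.enc h1)))))) (enc_add (enc_sub (enc_rat _ 266631731504579 185353013000000) (enc_scale 297459000 185353013 (c3g.enc h1))) (enc_mul (enc_norm (bf5q3_3.enc h1 h2)) (enc_norm (enc_subr 959245309237 3707060260000 (enc_scale 65720000 185353013 (c3g.enc h1)))))))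 (enc_case (enc_sub (enc_rat _ 658122329 1000000000) (c3g.enc h1)) (enc_add (enc_sub (enc_rat _ 203885802588073 254292051000000) (enc_scale 230636000 254292051 (c3g.enc h1))) (enc_mul (enc_norm (bf5q3_3.enc h1 h2)) (enc_norm (enc_sub (enc_rat _ 285682894479 1695280340000) (enc_scale 9640000 84764017 (c3g.enc h1)))))) (enc_add (enc_sub (enc_rat _ 1 2) (enc_scale 295121000 658122329 (c3g.enc h1))) (enc_mul (enc_norm (bf5q3_3.enc h1 h2)) (enc_scale 93670000 658122329 (c3g.enc h1)))))))⟩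
noncomputable def lm4r : Fn2 := ⟨_, _, fun h1 h2 => (enc_lam (enc_norm (enc_sub h1 (cv4r.enc h2))) (enc_sub (cv5r.enc h2) (cv4r.enc h2)))⟩
noncomputable def kf4q3_4 : Fn2 := ⟨_, _, fun h1 h2 => (enc_subr 1047 2000 h2)⟩
noncomputable def kf4q3_42 : Fn2 := ⟨_, _, fun h1 h2 => (enc_subn 1 h1)⟩
noncomputable def kf4q3_43 : Fn2 := ⟨_, _, fun h1 h2 => (gsg.enc (enc_norm (kf4q3_42.enc h1 h2)))⟩
noncomputable def kf4q3_44 : Fn2 := ⟨_, _, fun h1 h2 => (enc_scale 3 4 (kf4q3_42.enc h1 h2))⟩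
noncomputable def kf4q3_45 : Fn2 := ⟨_, _, fun h1 h2 => (enc_half (kf4q3_43.enc h1 h2))⟩
noncomputable def kf4q3_64 : Fn2 := ⟨_, _, fun h1 h2 => (enc_mul (cv3r.enc h1) (bf3q3.enc h1 h2))⟩
noncomputable def kf4q3 : Fn2 := ⟨_, _, fun h1 h2 => (enc_norm (enc_case (enc_subr 1567 1000 h1) (enc_add (kf4q3_64.enc h1 h2) (enc_mul (enc_norm (enc_mul (enc_norm (enc_sub (enc_mul (enc_norm (enc_subn 2 h1)) (enc_norm (enc_add (enc_mul (enc_norm (enc_sub (enc_sub (kf4q3_45.enc h1 h2) (kf4q3_44.enc h1 h2)) (enc_sub (enc_rat _ 1 4) (enc_scale 3 8 (enc_mul (enc_norm (kf4q3_42.enc h1 h2)) (enc_inv (kf4q3_43.enc h1 h2))))))) (enc_inv (esg.enc (enc_norm (kf4q3_42.enc h1 h2))))) (kcg.enc (enc_norm (enc_sub (kf4q3_44.enc h1 h2) (kf4q3_45.enc h1 h2))) h2)))) (kf4q3_64.enc h1 h2))) (enc_norm (enc_sub (cv4r.enc h1) (cv3r.enc h1))))) (enc_inv (enc_sub (enc_subr 1 2 (swg.enc h1)) (cv3r.enc h1))))) (enc_mul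 (cv4r.enc h1) (enc_norm (enc_case (enc_sub (enc_rat _ 449145021 500000000) (c3g.enc h1)) (enc_add (enc_sub (enc_rat _ 1836714750586423 4563900000000000) (enc_scale 148138357 355984200 (c3g.enc h1))) (enc_mul (enc_norm (kf4q3_4.enc h1 h2)) (enc_norm (enc_sub (enc_rat _ 2982575733127 8913867187500) (enc_scale 12075952 44498025 (c3g.enc h1)))))) (enc_case (enc_sub (enc_rat _ 318315881 500000000) (c3g.enc h1)) (enc_add (enc_sub (enc_rat _ 6979681419903 10063780000000) (enc_scale 4841975 6541457 (c3g.enc h1))) (enc_mul (enc_norm (kf4q3_4.enc h1 h2)) (enc_norm (enc_sub (enc_rat _ 92401188853 1006378000000) (enc_scale 7250 6541457 (c3g.enc h1)))))) (enc_add (enc_sub (enc_rat _ 1 2) (enc_scale 138844500 318315881 (c3g.enc h1))) (enc_mul (enc_norm (kf4q3_4.enc h1 h2)) (enc_scale 45555000 318315881 (c3g.enc h1))))))))))⟩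
noncomputable def bf4q3_3 : Fn2 := ⟨_, _, fun h1 h2 => (enc_subr 1047 2000 h2)⟩
noncomputable def bf4q3 : Fn2 := ⟨_, _, fun h1 h2 => (enc_norm (enc_case (enc_sub (enc_rat _ 449145021 500000000) (c3g.enc h1)) (enc_add (enc_sub (enc_rat _ 1836714750586423 4563900000000000) (enc_scale 148138357 355984200 (c3g.enc h1))) (enc_mul (enc_norm (bf4q3_3.enc h1 h2)) (enc_norm (enc_sub (enc_rat _ 2982575733127 8913867187500) (enc_scale 12075952 44498025 (c3g.enc h1)))))) (enc_case (enc_sub (enc_rat _ 318315881 500000000) (c3g.enc h1)) (enc_add (enc_sub (enc_rat _ 6979681419903 10063780000000) (enc_scale 4841975 6541457 (c3g.enc h1))) (enc_mul (enc_norm (bf4q3_3.enc h1 h2)) (enc_norm (enc_sub (enc_rat _ 92401188853 1006378000000) (enc_scale 7250 6541457 (c3g.enc h1)))))) (enc_add (enc_sub (enc_rat _ 1 2) (enc_scale 138844500 318315881 (c3g.enc h1))) (enc_mul (enc_norm (bf4q3_3.enc h1 h2)) (enc_scale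 45555000 318315881 (c3g.enc h1)))))))⟩
noncomputable def lm3r : Fn2 := ⟨_, _, fun h1 h2 => (enc_lam (enc_norm (enc_sub h1 (cv3r.enc h2))) (enc_sub (cv4r.enc h2) (cv3r.enc h2)))⟩
noncomputable def lm2r : Fn2 := ⟨_, _, fun h1 h2 => (enc_lam (enc_norm (enc_sub h1 (cv2r.enc h2))) (enc_sub (cv3r.enc h2) (cv2r.enc h2)))⟩
noncomputable def lm1r : Fn2 := ⟨_, _, fun h1 h2 => (enc_lam (enc_norm (enc_sub h1 (cv1r.enc h2))) (enc_sub (cv2r.enc h2) (cv1r.enc h2)))⟩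
noncomputable def rkbq3_38 : Fn3 := ⟨_, _, fun h1 h2 h3 => (enc_subn 1 h2)⟩
noncomputable def rkbq3_39 : Fn3 := ⟨_, _, fun h1 h2 h3 => (gsg.enc (enc_norm (rkbq3_38.enc h1 h2 h3)))⟩
noncomputable def rkbq3_40 : Fn3 := ⟨_, _, fun h1 h2 h3 => (enc_scale 3 4 (rkbq3_38.enc h1 h2 h3))⟩
noncomputable def rkbq3_41 : Fn3 := ⟨_, _, fun h1 h2 h3 => (enc_half (rkbq3_39.enc h1 h2 h3))⟩
noncomputable def rkbq3_63 : Fn3 := ⟨_, _, fun h1 h2 h3 => (enc_sub h1 (cv3r.enc h2))⟩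
noncomputable def rkbq3 : Fn3 := ⟨_, _, fun h1 h2 h3 => (enc_case (enc_sub h1 (cv1r.enc h2)) (enc_mul h1 (bf1q3.enc h2 h3)) (enc_case (enc_sub h1 (cv2r.enc h2)) (enc_add (enc_mul h1 (bf2q3.enc h2 h3)) (enc_mul (enc_norm (enc_mul (enc_norm (enc_sub (enc_pnc _ 1) (lm1r.enc h1 h2))) (cv1r.enc h2))) (enc_norm (enc_sub (bf1q3.enc h2 h3) (bf2q3.enc h2 h3))))) (enc_case (rkbq3_63.enc h1 h2 h3) (enc_add (enc_mul h1 (bf3q3.enc h2 h3)) (enc_mul (enc_norm (enc_mul (enc_norm (enc_sub (enc_pnc _ 1) (lm2r.enc h1 h2))) (cv2r.enc h2))) (enc_norm (enc_sub (bf2q3.enc h2 h3) (bf3q3.enc h2 h3))))) (enc_case (enc_sub h1 (cv4r.enc h2)) (enc_case (enc_subr 1567 1000 h2) (enc_add (kf3q3.enc h2 h3) (enc_mul (enc_norm (enc_mul (enc_norm (rkbq3_63.enc h1 h2 h3)) (enc_inv (enc_sub (enc_subr 1 2 (swg.enc h2)) (cv3r.enc h2))))) (enc_norm (enc_sub (enc_mul (enc_norm (enc_subn 2 h2)) (enc_norm (enc_add (enc_mul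 (enc_norm (enc_sub (enc_sub (rkbq3_41.enc h1 h2 h3) (rkbq3_40.enc h1 h2 h3)) (enc_sub (enc_rat _ 1 4) (enc_scale 3 8 (enc_mul (enc_norm (rkbq3_38.enc h1 h2 h3)) (enc_inv (rkbq3_39.enc h1 h2 h3))))))) (enc_inv (esg.enc (enc_norm (rkbq3_38.enc h1 h2 h3))))) (kcg.enc (enc_norm (enc_sub (rkbq3_40.enc h1 h2 h3) (rkbq3_41.enc h1 h2 h3))) h3)))) (kf3q3.enc h2 h3))))) (enc_add (enc_mul h1 (bf4q3.enc h2 h3)) (enc_mul (enc_norm (enc_mul (enc_norm (enc_sub (enc_pnc _ 1) (lm3r.enc h1 h2))) (cv3r.enc h2))) (enc_norm (enc_sub (bf3q3.enc h2 h3) (bf4q3.enc h2 h3)))))) (enc_case (enc_sub h1 (cv5r.enc h2)) (enc_add (enc_mul h1 (bf5q3.enc h2 h3)) (enc_mul (enc_norm (enc_sub (enc_pnc _ 1) (lm4r.enc h1 h2))) (enc_norm (enc_sub (kf4q3.enc h2 h3) (enc_mul (cv4r.enc h2) (bf5q3.enc h2 h3)))))) (enc_add (kf5q3.enc h2 h3) (enc_mul (lm5r.enc h1 h2) (enc_norm (enc_sub (kf6q3.enc h2 h3) (kf5q3.enc h2 h3))))))))))⟩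
noncomputable def rsbq3 : Fn3 := ⟨_, _, fun h1 h2 h3 => (enc_case h1 (enc_neg (rkbq3.enc (enc_neg h1) h2 h3)) (rkbq3.enc h1 h2 h3))⟩
noncomputable def rxq0_39 : Fn3 := ⟨_, _, fun h1 h2 h3 => (enc_sub (enc_pnc _ 1) h2)⟩
noncomputable def rxq0_56 : Fn3 := ⟨_, _, fun h1 h2 h3 => (enc_sub h1 (cv3m.enc h2))⟩
noncomputable def rxq0 : Fn3 := ⟨_, _, fun h1 h2 h3 => (enc_case (enc_sub h1 (cv1m.enc h2)) (enc_add (enc_mul h1 (bx1q0.enc h2 h3)) (enc_mul (enc_norm (enc_sub (enc_pnc _ 1) (lm0m.enc h1 h2))) (enc_norm (enc_sub (l0q0.enc h2 h3) (enc_mul (c1g.enc h2) (bx1q0.enc h2 h3)))))) (enc_case (enc_sub h1 (cv2m.enc h2)) (enc_add (enc_mul h1 (bx2q0.enc h2 h3)) (enc_mul (enc_norm (enc_mul (enc_norm (enc_sub (enc_pnc _ 1) (lm1m.enc h1 h2))) (cv1m.enc h2))) (enc_norm (enc_sub (bx1q0.enc h2 h3) (bx2q0.enc h2 h3))))) (enc_case (rxq0_56.enc h1 h2 h3) (enc_add (enc_mul h1 (bx3q0.enc h2 h3)) (enc_mul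 (enc_norm (enc_mul (enc_norm (enc_sub (enc_pnc _ 1) (lm2m.enc h1 h2))) (cv2m.enc h2))) (enc_norm (enc_sub (bx2q0.enc h2 h3) (bx3q0.enc h2 h3))))) (enc_case (enc_sub h1 (cv4m.enc h2)) (enc_case (enc_subr 433 1000 h2) (enc_add (enc_mul h1 (bx4q0.enc h2 h3)) (enc_mul (enc_norm (enc_mul (enc_norm (enc_sub (enc_pnc _ 1) (lm3m.enc h1 h2))) (cv3m.enc h2))) (enc_norm (enc_sub (bx3q0.enc h2 h3) (bx4q0.enc h2 h3))))) (enc_add (l3q0.enc h2 h3) (enc_mul (enc_norm (enc_mul (enc_norm (rxq0_56.enc h1 h2 h3)) (enc_inv (enc_sub (enc_add (swg.enc h2) (enc_rat _ 1 2)) (cv3m.enc h2))))) (enc_norm (enc_sub (enc_sub (qsg.enc (enc_norm (rxq0_39.enc h1 h2 h3))) (enc_mul (enc_norm (enc_nat 2 (enc_sub (rxq0_39.enc h1 h2 h3) h3))) (enc_norm (enc_mul (esg.enc (enc_norm (rxq0_39.enc h1 h2 h3))) (kcg.enc (enc_norm (enc_sub (enc_scale 3 4 (rxq0_39.enc h1 h2 h3)) (enc_half (gsg.enc (enc_norm (rxq0_39.enc h1 h2 h3))))))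 h3))))) (l3q0.enc h2 h3)))))) (enc_case (enc_sub h1 (cv5m.enc h2)) (enc_add (enc_mul h1 (bx5q0.enc h2 h3)) (enc_mul (enc_norm (enc_sub (enc_pnc _ 1) (lm4m.enc h1 h2))) (enc_norm (enc_sub (l4q0.enc h2 h3) (enc_mul (cv4m.enc h2) (bx5q0.enc h2 h3)))))) (enc_add (l5q0.enc h2 h3) (enc_mul (lm5m.enc h1 h2) (enc_norm (enc_sub (l6q0.enc h2 h3) (l5q0.enc h2 h3))))))))))⟩
noncomputable def rlq0 : Fn3 := ⟨_, _, fun h1 h2 h3 => (enc_case h1 (enc_neg (rxq0.enc (enc_neg h1) h2 h3)) (rxq0.enc h1 h2 h3))⟩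
noncomputable def rxq1_39 : Fn3 := ⟨_, _, fun h1 h2 h3 => (enc_sub (enc_pnc _ 1) h2)⟩
noncomputable def rxq1_56 : Fn3 := ⟨_, _, fun h1 h2 h3 => (enc_sub h1 (cv3m.enc h2))⟩
noncomputable def rxq1 : Fn3 := ⟨_, _, fun h1 h2 h3 => (enc_case (enc_sub h1 (cv1m.enc h2)) (enc_add (enc_mul h1 (bx1q1.enc h2 h3)) (enc_mul (enc_norm (enc_sub (enc_pnc _ 1) (lm0m.enc h1 h2))) (enc_norm (enc_sub (l0q1.enc h2 h3) (enc_mul (c1g.enc h2) (bx1q1.enc h2 h3)))))) (enc_case (enc_sub h1 (cv2m.enc h2)) (enc_add (enc_mul h1 (bx2q1.enc h2 h3)) (enc_mul (enc_norm (enc_mul (enc_norm (enc_sub (enc_pnc _ 1) (lm1m.enc h1 h2))) (cv1m.enc h2))) (enc_norm (enc_sub (bx1q1.enc h2 h3) (bx2q1.enc h2 h3))))) (enc_case (rxq1_56.enc h1 h2 h3) (enc_add (enc_mul h1 (bx3q1.enc h2 h3)) (enc_mul (enc_norm (enc_mul (enc_norm (enc_sub (enc_pnc _ 1) (lm2m.enc h1 h2))) (cv2m.enc h2))) (enc_norm (enc_sub (bx2q1.enc h2 h3) (bx3q1.enc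 h2 h3))))) (enc_case (enc_sub h1 (cv4m.enc h2)) (enc_case (enc_subr 13 25 h2) (enc_add (l3q1.enc h2 h3) (enc_mul (enc_norm (enc_mul (enc_norm (rxq1_56.enc h1 h2 h3)) (enc_inv (enc_sub (enc_add (swg.enc h2) (enc_rat _ 1 2)) (cv3m.enc h2))))) (enc_norm (enc_sub (enc_sub (qsg.enc (enc_norm (rxq1_39.enc h1 h2 h3))) (enc_mul (enc_norm (enc_nat 2 (enc_sub (rxq1_39.enc h1 h2 h3) h3))) (enc_norm (enc_mul (esg.enc (enc_norm (rxq1_39.enc h1 h2 h3))) (kcg.enc (enc_norm (enc_sub (enc_scale 3 4 (rxq1_39.enc h1 h2 h3)) (enc_half (gsg.enc (enc_norm (rxq1_39.enc h1 h2 h3)))))) h3))))) (l3q1.enc h2 h3))))) (enc_add (enc_mul h1 (bx4q1.enc h2 h3)) (enc_mul (enc_norm (enc_mul (enc_norm (enc_sub (enc_pnc _ 1) (lm3m.enc h1 h2))) (cv3m.enc h2))) (enc_norm (enc_sub (bx3q1.enc h2 h3) (bx4q1.enc h2 h3)))))) (enc_case (enc_sub h1 (cv5m.enc h2)) (enc_add (enc_mul h1 (bx5q1.enc h2 h3)) (enc_mul (enc_norm (enc_sub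 (enc_pnc _ 1) (lm4m.enc h1 h2))) (enc_norm (enc_sub (l4q1.enc h2 h3) (enc_mul (cv4m.enc h2) (bx5q1.enc h2 h3)))))) (enc_add (l5q1.enc h2 h3) (enc_mul (lm5m.enc h1 h2) (enc_norm (enc_sub (l6q1.enc h2 h3) (l5q1.enc h2 h3))))))))))⟩
noncomputable def rlq1 : Fn3 := ⟨_, _, fun h1 h2 h3 => (enc_case h1 (enc_neg (rxq1.enc (enc_neg h1) h2 h3)) (rxq1.enc h1 h2 h3))⟩
noncomputable def bx3q2_3 : Fn2 := ⟨_, _, fun h1 h2 => (enc_subr 1047 2000 h2)⟩
noncomputable def bx3q2 : Fn2 := ⟨_, _, fun h1 h2 => (enc_norm (enc_case (enc_sub (enc_pnc _ 1) (enc_scale 3 4 (enc_sq h1))) (enc_case (enc_subr 127 100 h1) (enc_add (enc_subr 24390071 29000000 (enc_scale 39373 58000 h1)) (enc_mul (enc_norm (bx3q2_3.enc h1 h2)) (enc_norm (enc_subr 6297463 2900000 (enc_scale 2371 1450 h1))))) (enc_case (enc_subr 69 50 h1) (enc_add (enc_subr 12658317 11000000 (enc_scale 101499 110000 h1)) (enc_mul (enc_norm (bx3q2_3.enc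 h1 h2)) (enc_norm (enc_subr 193129 100000 (enc_scale 723 500 h1))))) (enc_add (enc_subr 1119359 1000000 (enc_scale 26999 30000 h1)) (enc_mul (enc_norm (bx3q2_3.enc h1 h2)) (enc_norm (enc_sub (enc_rat _ 358893 50000) (enc_scale 30929 6000 h1))))))) (enc_case (enc_subr 1 4 (c1g.enc h1)) (enc_case (enc_subr 1 10 (c1g.enc h1)) (enc_case (enc_subr 1 20 (c1g.enc h1)) (enc_add (enc_subr 57251 1000000 (enc_scale 7283 25000 (c1g.enc h1))) (enc_mul (enc_norm (bx3q2_3.enc h1 h2)) (enc_norm (enc_subr 2809 10000 (enc_neg (enc_scale 1427 5000 (c1g.enc h1))))))) (enc_add (enc_subr 28233 500000 (enc_scale 13781 50000 (c1g.enc h1))) (enc_mul (enc_norm (bx3q2_3.enc h1 h2)) (enc_norm (enc_subr 29033 100000 (enc_neg (enc_scale 121 1250 (c1g.enc h1)))))))) (enc_case (enc_subr 3 20 (c1g.enc h1)) (enc_add (enc_subr 973 20000 (enc_scale 9873 50000 (c1g.enc h1))) (enc_mul (enc_norm (bx3q2_3.enc h1 h2)) (enc_norm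 (enc_subr 36711 100000 (enc_scale 671 1000 (c1g.enc h1)))))) (enc_case (enc_subr 1 5 (c1g.enc h1)) (enc_add (enc_subr 18907 500000 (enc_scale 6261 50000 (c1g.enc h1))) (enc_mul (enc_norm (bx3q2_3.enc h1 h2)) (enc_norm (enc_subr 39267 100000 (enc_scale 4207 5000 (c1g.enc h1)))))) (enc_add (enc_subr 15433 500000 (enc_scale 1131 12500 (c1g.enc h1))) (enc_mul (enc_norm (bx3q2_3.enc h1 h2)) (enc_norm (enc_subr 35351 100000 (enc_scale 807 1250 (c1g.enc h1))))))))) (enc_case (enc_subr 7 20 (c1g.enc h1)) (enc_case (enc_subr 3 10 (c1g.enc h1)) (enc_add (enc_subr 763 31250 (enc_scale 1617 25000 (c1g.enc h1))) (enc_mul (enc_norm (bx3q2_3.enc h1 h2)) (enc_norm (enc_subr 16453 50000 (enc_scale 2739 5000 (c1g.enc h1)))))) (enc_add (enc_subr 4691 250000 (enc_scale 573 12500 (c1g.enc h1))) (enc_mul (enc_norm (bx3q2_3.enc h1 h2)) (enc_norm (enc_subr 3847 12500 (enc_scale 298 625 (c1g.enc h1)))))))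 (enc_case (enc_subr 2 5 (c1g.enc h1)) (enc_add (enc_subr 11827 1000000 (enc_scale 1301 50000 (c1g.enc h1))) (enc_mul (enc_norm (bx3q2_3.enc h1 h2)) (enc_norm (enc_subr 6529 20000 (enc_scale 2651 5000 (c1g.enc h1)))))) (enc_case (enc_subr 9 20 (c1g.enc h1)) (enc_add (enc_subr 1167 200000 (enc_scale 69 6250 (c1g.enc h1))) (enc_mul (enc_norm (bx3q2_3.enc h1 h2)) (enc_norm (enc_subr 42077 100000 (enc_scale 383 500 (c1g.enc h1)))))) (enc_add (enc_subr 867 100000 (enc_scale 867 50000 (c1g.enc h1))) (enc_mul (enc_norm (bx3q2_3.enc h1 h2)) (enc_norm (enc_subr 7607 10000 (enc_scale 7607 5000 (c1g.enc h1))))))))))))⟩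
noncomputable def l3q2_4 : Fn2 := ⟨_, _, fun h1 h2 => (enc_subr 1047 2000 h2)⟩
noncomputable def l3q2 : Fn2 := ⟨_, _, fun h1 h2 => (enc_norm (enc_mul (cv3p.enc h1) (enc_norm (enc_case (enc_sub (enc_pnc _ 1) (enc_scale 3 4 (enc_sq h1))) (enc_case (enc_subr 127 100 h1) (enc_add (enc_subr 24390071 29000000 (enc_scale 39373 58000 h1)) (enc_mul (enc_norm (l3q2_4.enc h1 h2)) (enc_norm (enc_subr 6297463 2900000 (enc_scale 2371 1450 h1))))) (enc_case (enc_subr 69 50 h1) (enc_add (enc_subr 12658317 11000000 (enc_scale 101499 110000 h1)) (enc_mul (enc_norm (l3q2_4.enc h1 h2)) (enc_norm (enc_subr 193129 100000 (enc_scale 723 500 h1))))) (enc_add (enc_subr 1119359 1000000 (enc_scale 26999 30000 h1)) (enc_mul (enc_norm (l3q2_4.enc h1 h2)) (enc_norm (enc_sub (enc_rat _ 358893 50000) (enc_scale 30929 6000 h1))))))) (enc_case (enc_subr 1 4 (c1g.enc h1)) (enc_case (enc_subr 1 10 (c1g.enc h1)) (enc_case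 (enc_subr 1 20 (c1g.enc h1)) (enc_add (enc_subr 57251 1000000 (enc_scale 7283 25000 (c1g.enc h1))) (enc_mul (enc_norm (l3q2_4.enc h1 h2)) (enc_norm (enc_subr 2809 10000 (enc_neg (enc_scale 1427 5000 (c1g.enc h1))))))) (enc_add (enc_subr 28233 500000 (enc_scale 13781 50000 (c1g.enc h1))) (enc_mul (enc_norm (l3q2_4.enc h1 h2)) (enc_norm (enc_subr 29033 100000 (enc_neg (enc_scale 121 1250 (c1g.enc h1)))))))) (enc_case (enc_subr 3 20 (c1g.enc h1)) (enc_add (enc_subr 973 20000 (enc_scale 9873 50000 (c1g.enc h1))) (enc_mul (enc_norm (l3q2_4.enc h1 h2)) (enc_norm (enc_subr 36711 100000 (enc_scale 671 1000 (c1g.enc h1)))))) (enc_case (enc_subr 1 5 (c1g.enc h1)) (enc_add (enc_subr 18907 500000 (enc_scale 6261 50000 (c1g.enc h1))) (enc_mul (enc_norm (l3q2_4.enc h1 h2)) (enc_norm (enc_subr 39267 100000 (enc_scale 4207 5000 (c1g.enc h1)))))) (enc_add (enc_subr 15433 500000 (enc_scale 1131 12500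 (c1g.enc h1))) (enc_mul (enc_norm (l3q2_4.enc h1 h2)) (enc_norm (enc_subr 35351 100000 (enc_scale 807 1250 (c1g.enc h1))))))))) (enc_case (enc_subr 7 20 (c1g.enc h1)) (enc_case (enc_subr 3 10 (c1g.enc h1)) (enc_add (enc_subr 763 31250 (enc_scale 1617 25000 (c1g.enc h1))) (enc_mul (enc_norm (l3q2_4.enc h1 h2)) (enc_norm (enc_subr 16453 50000 (enc_scale 2739 5000 (c1g.enc h1)))))) (enc_add (enc_subr 4691 250000 (enc_scale 573 12500 (c1g.enc h1))) (enc_mul (enc_norm (l3q2_4.enc h1 h2)) (enc_norm (enc_subr 3847 12500 (enc_scale 298 625 (c1g.enc h1))))))) (enc_case (enc_subr 2 5 (c1g.enc h1)) (enc_add (enc_subr 11827 1000000 (enc_scale 1301 50000 (c1g.enc h1))) (enc_mul (enc_norm (l3q2_4.enc h1 h2)) (enc_norm (enc_subr 6529 20000 (enc_scale 2651 5000 (c1g.enc h1)))))) (enc_case (enc_subr 9 20 (c1g.enc h1)) (enc_add (enc_subr 1167 200000 (enc_scale 69 6250 (c1g.enc h1))) (enc_mul (enc_norm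 (l3q2_4.enc h1 h2)) (enc_norm (enc_subr 42077 100000 (enc_scale 383 500 (c1g.enc h1)))))) (enc_add (enc_subr 867 100000 (enc_scale 867 50000 (c1g.enc h1))) (enc_mul (enc_norm (l3q2_4.enc h1 h2)) (enc_norm (enc_subr 7607 10000 (enc_scale 7607 5000 (c1g.enc h1))))))))))))))⟩
noncomputable def bx2q2_3 : Fn2 := ⟨_, _, fun h1 h2 => (enc_subr 1047 2000 h2)⟩
noncomputable def bx2q2 : Fn2 := ⟨_, _, fun h1 h2 => (enc_norm (enc_case (enc_sub (enc_pnc _ 1) (enc_scale 3 4 (enc_sq h1))) (enc_case (enc_subr 127 100 h1) (enc_add (enc_subr 61642169 29000000 (enc_scale 19167 11600 h1)) (enc_mul (enc_norm (bx2q2_3.enc h1 h2)) (enc_norm (enc_subr 28962813 5800000 (enc_scale 42633 11600 h1))))) (enc_case (enc_subr 69 50 h1) (enc_add (enc_subr 23465201 11000000 (enc_scale 36483 22000 h1)) (enc_mul (enc_norm (bx2q2_3.enc h1 h2)) (enc_norm (enc_sub (enc_rat _ 656291 550000) (enc_scale 13159 11000 h1)))))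 (enc_add (enc_subr 529861 250000 (enc_scale 32967 20000 h1)) (enc_mul (enc_norm (bx2q2_3.enc h1 h2)) (enc_norm (enc_sub (enc_rat _ 358061 200000) (enc_scale 19547 12000 h1))))))) (enc_case (enc_subr 1 4 (c1g.enc h1)) (enc_case (enc_subr 1 10 (c1g.enc h1)) (enc_case (enc_subr 1 20 (c1g.enc h1)) (enc_add (enc_subr 217703 1000000 (enc_scale 14821 50000 (c1g.enc h1))) (enc_mul (enc_norm (bx2q2_3.enc h1 h2)) (enc_norm (enc_subr 4741 6250 (enc_scale 3453 5000 (c1g.enc h1)))))) (enc_add (enc_subr 225211 1000000 (enc_scale 22329 50000 (c1g.enc h1))) (enc_mul (enc_norm (bx2q2_3.enc h1 h2)) (enc_norm (enc_subr 9937 12500 (enc_scale 7093 5000 (c1g.enc h1))))))) (enc_case (enc_subr 3 20 (c1g.enc h1)) (enc_add (enc_subr 241087 1000000 (enc_scale 30267 50000 (c1g.enc h1))) (enc_mul (enc_norm (bx2q2_3.enc h1 h2)) (enc_norm (enc_subr 44857 50000 (enc_scale 6101 2500 (c1g.enc h1)))))) (enc_case (enc_subr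 1 5 (c1g.enc h1)) (enc_add (enc_subr 63121 250000 (enc_scale 17033 25000 (c1g.enc h1))) (enc_mul (enc_norm (bx2q2_3.enc h1 h2)) (enc_norm (enc_subr 84461 100000 (enc_scale 10451 5000 (c1g.enc h1)))))) (enc_add (enc_subr 30137 125000 (enc_scale 31219 50000 (c1g.enc h1))) (enc_mul (enc_norm (bx2q2_3.enc h1 h2)) (enc_norm (enc_subr 82069 100000 (enc_scale 9853 5000 (c1g.enc h1))))))))) (enc_case (enc_subr 7 20 (c1g.enc h1)) (enc_case (enc_subr 3 10 (c1g.enc h1)) (enc_add (enc_subr 113293 500000 (enc_scale 28317 50000 (c1g.enc h1))) (enc_mul (enc_norm (bx2q2_3.enc h1 h2)) (enc_norm (enc_subr 37217 50000 (enc_scale 4163 2500 (c1g.enc h1)))))) (enc_add (enc_subr 103333 500000 (enc_scale 24997 50000 (c1g.enc h1))) (enc_mul (enc_norm (bx2q2_3.enc h1 h2)) (enc_norm (enc_subr 6193 10000 (enc_scale 3121 2500 (c1g.enc h1))))))) (enc_case (enc_subr 2 5 (c1g.enc h1)) (enc_add (enc_subr 15537 100000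 (enc_scale 17669 50000 (c1g.enc h1))) (enc_mul (enc_norm (bx2q2_3.enc h1 h2)) (enc_norm (enc_subr 5983 10000 (enc_scale 2971 2500 (c1g.enc h1)))))) (enc_case (enc_subr 9 20 (c1g.enc h1)) (enc_add (enc_subr 43641 500000 (enc_scale 4579 25000 (c1g.enc h1))) (enc_mul (enc_norm (bx2q2_3.enc h1 h2)) (enc_norm (enc_subr 30887 50000 (enc_scale 1237 1000 (c1g.enc h1)))))) (enc_add (enc_subr 243 5000 (enc_scale 243 2500 (c1g.enc h1))) (enc_mul (enc_norm (bx2q2_3.enc h1 h2)) (enc_norm (enc_subr 6109 10000 (enc_scale 6109 5000 (c1g.enc h1))))))))))))⟩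
noncomputable def bx1q2_3 : Fn2 := ⟨_, _, fun h1 h2 => (enc_subr 1047 2000 h2)⟩
noncomputable def bx1q2_10 : Fn2 := ⟨_, _, fun h1 h2 => (enc_subr 4198367113859 18535730000000 (enc_neg (enc_scale 1307165529 1492890625 (bx1q2_3.enc h1 h2))))⟩
noncomputable def bx1q2 : Fn2 := ⟨_, _, fun h1 h2 => (enc_norm (enc_case (enc_sub (enc_pnc _ 1) (enc_scale 3 4 (enc_sq h1))) (enc_add (bx1q2_10.enc h1 h2) (enc_case (enc_subr 127 100 h1) (enc_case (enc_subr 231 200 h1) (enc_pnc _ 0) (enc_add (enc_subr 45742389 23000000 (enc_scale 198019 115000 h1)) (enc_mul (enc_norm (bx1q2_3.enc h1 h2)) (enc_norm (enc_subr 36267 1150000 (enc_scale 157 5750 h1)))))) (enc_case (enc_subr 139 100 h1) (enc_add (enc_subr 7973591 4000000 (enc_scale 69021 40000 h1)) (enc_mul (enc_norm (bx1q2_3.enc h1 h2)) (enc_norm (enc_sub (enc_rat _ 2231 120000) (enc_scale 73 6000 h1))))) (enc_add (enc_subr 21942839 11000000 (enc_scale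 189919 110000 h1)) (enc_mul (enc_norm (bx1q2_3.enc h1 h2)) (enc_norm (enc_sub (enc_rat _ 1413 34375) (enc_scale 39 1375 h1)))))))) (enc_add (bx1q2_10.enc h1 h2) (enc_case (enc_subr 1 4 (c1g.enc h1)) (enc_case (enc_subr 1 10 (c1g.enc h1)) (enc_case (enc_subr 1 20 (c1g.enc h1)) (enc_sub (enc_mul (enc_norm (bx1q2_3.enc h1 h2)) (enc_scale 47 500 (c1g.enc h1))) (enc_scale 99 6250 (c1g.enc h1))) (enc_add (enc_sub (enc_rat _ 261 200000) (enc_scale 2097 50000 (c1g.enc h1))) (enc_mul (enc_norm (bx1q2_3.enc h1 h2)) (enc_norm (enc_subr 443 6250 (enc_scale 3779 2500 (c1g.enc h1))))))) (enc_case (enc_subr 3 20 (c1g.enc h1)) (enc_add (enc_subr 3853 1000000 (enc_scale 241 25000 (c1g.enc h1))) (enc_mul (enc_norm (bx1q2_3.enc h1 h2)) (enc_norm (enc_subr 5461 50000 (enc_scale 379 200 (c1g.enc h1)))))) (enc_case (enc_subr 1 5 (c1g.enc h1)) (enc_add (enc_subr 60139 1000000 (enc_scale 4811 12500 (c1g.enc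 h1))) (enc_mul (enc_norm (bx1q2_3.enc h1 h2)) (enc_norm (enc_subr 16439 100000 (enc_scale 5657 2500 (c1g.enc h1)))))) (enc_add (enc_subr 137079 1000000 (enc_scale 38479 50000 (c1g.enc h1))) (enc_mul (enc_norm (bx1q2_3.enc h1 h2)) (enc_norm (enc_subr 7283 20000 (enc_scale 4077 1250 (c1g.enc h1))))))))) (enc_case (enc_subr 7 20 (c1g.enc h1)) (enc_case (enc_subr 3 10 (c1g.enc h1)) (enc_add (enc_subr 199389 1000000 (enc_scale 50941 50000 (c1g.enc h1))) (enc_mul (enc_norm (bx1q2_3.enc h1 h2)) (enc_norm (enc_add (enc_scale 2173 1250 (c1g.enc h1)) (enc_rat _ 333 20000))))) (enc_add (enc_subr 199563 1000000 (enc_scale 5097 5000 (c1g.enc h1))) (enc_mul (enc_norm (bx1q2_3.enc h1 h2)) (enc_norm (enc_add (enc_scale 17 20 (c1g.enc h1)) (enc_rat _ 28317 100000)))))) (enc_case (enc_subr 2 5 (c1g.enc h1)) (enc_add (enc_subr 75537 500000 (enc_scale 44043 50000 (c1g.enc h1))) (enc_mul (enc_norm (bx1q2_3.enc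 h1 h2)) (enc_norm (enc_add (enc_scale 2661 2500 (c1g.enc h1)) (enc_rat _ 20813 100000))))) (enc_case (enc_subr 9 20 (c1g.enc h1)) (enc_add (enc_add (enc_scale 187 500 (c1g.enc h1)) (enc_rat _ 5167 100000)) (enc_mul (enc_norm (bx1q2_3.enc h1 h2)) (enc_norm (enc_subr 18451 100000 (enc_scale 1023 500 (c1g.enc h1)))))) (enc_add (enc_add (enc_scale 121062585759 926786500000 (c1g.enc h1)) (enc_rat _ 2987741256269 18535730000000)) (enc_mul (enc_norm (bx1q2_3.enc h1 h2)) (enc_norm (enc_subr 12383652301 23886250000 (enc_scale 6659660153 2388625000 (c1g.enc h1)))))))))))))⟩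
noncomputable def l0q2_7 : Fn2 := ⟨_, _, fun h1 h2 => (enc_scale 3 4 h1)⟩
noncomputable def l0q2_8 : Fn2 := ⟨_, _, fun h1 h2 => (enc_half (c1g.enc h1))⟩
noncomputable def l0q2 : Fn2 := ⟨_, _, fun h1 h2 => (enc_norm (enc_sub (txg.enc (enc_neg (c1g.enc h1)) (enc_norm (enc_add (l0q2_7.enc h1 h2) (l0q2_8.enc h1 h2))) h2) (txg.enc (c1g.enc h1) (enc_norm (enc_sub (l0q2_7.enc h1 h2) (l0q2_8.enc h1 h2))) h2)))⟩
noncomputable def n0x : Fn2 := ⟨_, _, fun h1 h2 => (enc_norm (enc_subr 4198367113859 18535730000000 (enc_neg (enc_scale 1307165529 1492890625 (enc_subr 1047 2000 h2)))))⟩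
noncomputable def rxq2_38 : Fn3 := ⟨_, _, fun h1 h2 h3 => (enc_subn 1 h2)⟩
noncomputable def rxq2_56 : Fn3 := ⟨_, _, fun h1 h2 h3 => (enc_sub h1 (cv3p.enc h2))⟩
noncomputable def rxq2_90 : Fn3 := ⟨_, _, fun h1 h2 h3 => (enc_mul h1 (bx1q2.enc h2 h3))⟩
noncomputable def rxq2_92 : Fn3 := ⟨_, _, fun h1 h2 h3 => (enc_sub (enc_pnc _ 1) (lm0p.enc h1 h2))⟩
noncomputable def rxq2 : Fn3 := ⟨_, _, fun h1 h2 h3 => (enc_case (enc_sub h1 (cv1p.enc h2)) (enc_case (enc_subr 23093 20000 h2) (enc_add (rxq2_90.enc h1 h2 h3) (enc_mul (enc_norm (rxq2_92.enc h1 h2 h3)) (enc_norm (enc_sub (l0q2.enc h2 h3) (enc_mul (c1g.enc h2) (bx1q2.enc h2 h3)))))) (enc_case (enc_subr 2887 2500 h2) (enc_add (rxq2_90.enc h1 h2 h3) (enc_mul (enc_norm (rxq2_92.enc h1 h2 h3)) (enc_norm (enc_mul (c1g.enc h2) (enc_norm (enc_sub (n0x.enc h2 h3) (bx1q2.enc h2 h3))))))) (rxq2_90.enc h1 h2 h3))) (enc_case (enc_sub h1 (cv2p.enc h2))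 (enc_add (enc_mul h1 (bx2q2.enc h2 h3)) (enc_mul (enc_norm (enc_mul (enc_norm (enc_sub (enc_pnc _ 1) (lm1p.enc h1 h2))) (cv1p.enc h2))) (enc_norm (enc_sub (bx1q2.enc h2 h3) (bx2q2.enc h2 h3))))) (enc_case (rxq2_56.enc h1 h2 h3) (enc_add (enc_mul h1 (bx3q2.enc h2 h3)) (enc_mul (enc_norm (enc_mul (enc_norm (enc_sub (enc_pnc _ 1) (lm2p.enc h1 h2))) (cv2p.enc h2))) (enc_norm (enc_sub (bx2q2.enc h2 h3) (bx3q2.enc h2 h3))))) (enc_case (enc_sub h1 (cv4p.enc h2)) (enc_case (enc_subr 37 25 h2) (enc_add (enc_mul h1 (bx4q2.enc h2 h3)) (enc_mul (enc_norm (enc_mul (enc_norm (enc_sub (enc_pnc _ 1) (lm3p.enc h1 h2))) (cv3p.enc h2))) (enc_norm (enc_sub (bx3q2.enc h2 h3) (bx4q2.enc h2 h3))))) (enc_add (l3q2.enc h2 h3) (enc_mul (enc_norm (enc_mul (enc_norm (rxq2_56.enc h1 h2 h3)) (enc_inv (enc_sub (enc_subr 1 2 (swg.enc h2)) (cv3p.enc h2))))) (enc_norm (enc_sub (enc_sub (qsg.enc (enc_norm (rxq2_38.enc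 h1 h2 h3))) (enc_mul (enc_norm (enc_nat 2 (enc_sub (rxq2_38.enc h1 h2 h3) h3))) (enc_norm (enc_mul (esg.enc (enc_norm (rxq2_38.enc h1 h2 h3))) (kcg.enc (enc_norm (enc_sub (enc_scale 3 4 (rxq2_38.enc h1 h2 h3)) (enc_half (gsg.enc (enc_norm (rxq2_38.enc h1 h2 h3)))))) h3))))) (l3q2.enc h2 h3)))))) (enc_case (enc_sub h1 (cv5p.enc h2)) (enc_add (enc_mul h1 (bx5q2.enc h2 h3)) (enc_mul (enc_norm (enc_sub (enc_pnc _ 1) (lm4p.enc h1 h2))) (enc_norm (enc_sub (l4q2.enc h2 h3) (enc_mul (cv4p.enc h2) (bx5q2.enc h2 h3)))))) (enc_add (l5q2.enc h2 h3) (enc_mul (lm5p.enc h1 h2) (enc_norm (enc_sub (l6q2.enc h2 h3) (l5q2.enc h2 h3))))))))))⟩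
noncomputable def rlq2 : Fn3 := ⟨_, _, fun h1 h2 h3 => (enc_case h1 (enc_neg (rxq2.enc (enc_neg h1) h2 h3)) (rxq2.enc h1 h2 h3))⟩
noncomputable def l5q3_4 : Fn2 := ⟨_, _, fun h1 h2 => (enc_subr 1047 2000 h2)⟩
noncomputable def l5q3 : Fn2 := ⟨_, _, fun h1 h2 => (enc_norm (enc_mul (cv5r.enc h1) (enc_norm (enc_case (enc_sub (enc_rat _ 45620719 50000000) (c3g.enc h1)) (enc_case (enc_sub (enc_rat _ 1097767393 1000000000) (c3g.enc h1)) (enc_add (enc_sub (enc_rat _ 36460352732953 47876531000000) (enc_scale 30387000 47876531 (c3g.enc h1))) (enc_mul (enc_norm (l5q3_4.enc h1 h2)) (enc_norm (enc_sub (enc_rat _ 5736380351 16065950000) (enc_scale 50000 321319 (c3g.enc h1)))))) (enc_add (enc_sub (enc_rat _ 60900579228571 92676506500000) (enc_scale 100012000 185353013 (c3g.enc h1))) (enc_mul (enc_norm (l5q3_4.enc h1 h2)) (enc_norm (enc_sub (enc_rat _ 1197308622679 2316912662500) (enc_scale 55810000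 185353013 (c3g.enc h1))))))) (enc_case (enc_sub (enc_rat _ 658122329 1000000000) (c3g.enc h1)) (enc_add (enc_sub (enc_rat _ 95011101992267 127146025500000) (enc_scale 162329000 254292051 (c3g.enc h1))) (enc_mul (enc_norm (l5q3_4.enc h1 h2)) (enc_norm (enc_sub (enc_rat _ 2048451509263 3178650637500) (enc_scale 112150000 254292051 (c3g.enc h1)))))) (enc_add (enc_add (enc_scale 191315400 658122329 (c3g.enc h1)) (enc_rat _ 339569 2500000)) (enc_mul (enc_norm (l5q3_4.enc h1 h2)) (enc_norm (enc_sub (enc_rat _ 504779 234375) (enc_scale 5398601200 1974366987 (c3g.enc h1)))))))))))⟩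
noncomputable def l6q3_7 : Fn2 := ⟨_, _, fun h1 h2 => (enc_half (c3g.enc h1))⟩
noncomputable def l6q3_8 : Fn2 := ⟨_, _, fun h1 h2 => (enc_scale 1 4 h1)⟩
noncomputable def l6q3_9 : Fn2 := ⟨_, _, fun h1 h2 => (enc_sub (l6q3_7.enc h1 h2) (l6q3_8.enc h1 h2))⟩
noncomputable def l6q3_12 : Fn2 := ⟨_, _, fun h1 h2 => (enc_add (enc_scale 1 4 (c3g.enc h1)) (enc_scale 3 8 h1))⟩
noncomputable def l6q3_14 : Fn2 := ⟨_, _, fun h1 h2 => (enc_half (l6q3_9.enc h1 h2))⟩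
noncomputable def l6q3 : Fn2 := ⟨_, _, fun h1 h2 => (enc_norm (enc_sub (enc_nat 2 (txg.enc (enc_norm (enc_sub (l6q3_8.enc h1 h2) (l6q3_7.enc h1 h2))) (enc_norm (enc_add (l6q3_12.enc h1 h2) (l6q3_14.enc h1 h2))) h2)) (txg.enc (enc_norm (l6q3_9.enc h1 h2)) (enc_norm (enc_sub (l6q3_12.enc h1 h2) (l6q3_14.enc h1 h2))) h2)))⟩
noncomputable def bx5q3_3 : Fn2 := ⟨_, _, fun h1 h2 => (enc_subr 1047 2000 h2)⟩
noncomputable def bx5q3 : Fn2 := ⟨_, _, fun h1 h2 => (enc_norm (enc_case (enc_sub (enc_rat _ 45620719 50000000) (c3g.enc h1)) (enc_case (enc_sub (enc_rat _ 1097767393 1000000000) (c3g.enc h1)) (enc_add (enc_sub (enc_rat _ 36460352732953 47876531000000) (enc_scale 30387000 47876531 (c3g.enc h1))) (enc_mul (enc_norm (bx5q3_3.enc h1 h2)) (enc_norm (enc_sub (enc_rat _ 5736380351 16065950000) (enc_scale 50000 321319 (c3g.enc h1)))))) (enc_add (enc_sub (enc_rat _ 60900579228571 92676506500000)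 (enc_scale 100012000 185353013 (c3g.enc h1))) (enc_mul (enc_norm (bx5q3_3.enc h1 h2)) (enc_norm (enc_sub (enc_rat _ 1197308622679 2316912662500) (enc_scale 55810000 185353013 (c3g.enc h1))))))) (enc_case (enc_sub (enc_rat _ 658122329 1000000000) (c3g.enc h1)) (enc_add (enc_sub (enc_rat _ 95011101992267 127146025500000) (enc_scale 162329000 254292051 (c3g.enc h1))) (enc_mul (enc_norm (bx5q3_3.enc h1 h2)) (enc_norm (enc_sub (enc_rat _ 2048451509263 3178650637500) (enc_scale 112150000 254292051 (c3g.enc h1)))))) (enc_add (enc_add (enc_scale 191315400 658122329 (c3g.enc h1)) (enc_rat _ 339569 2500000)) (enc_mul (enc_norm (bx5q3_3.enc h1 h2)) (enc_norm (enc_sub (enc_rat _ 504779 234375) (enc_scale 5398601200 1974366987 (c3g.enc h1)))))))))⟩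
noncomputable def l4q3_4 : Fn2 := ⟨_, _, fun h1 h2 => (enc_subr 1047 2000 h2)⟩
noncomputable def l4q3_43 : Fn2 := ⟨_, _, fun h1 h2 => (enc_subn 1 h1)⟩
noncomputable def l4q3_58 : Fn2 := ⟨_, _, fun h1 h2 => (enc_mul (cv3r.enc h1) (bx3q3.enc h1 h2))⟩
noncomputable def l4q3 : Fn2 := ⟨_, _, fun h1 h2 => (enc_norm (enc_case (enc_subr 1567 1000 h1) (enc_add (l4q3_58.enc h1 h2) (enc_mul (enc_norm (enc_mul (enc_norm (enc_sub (enc_sub (qsg.enc (enc_norm (l4q3_43.enc h1 h2))) (enc_mul (enc_norm (enc_nat 2 (enc_sub (l4q3_43.enc h1 h2) h2))) (enc_norm (enc_mul (esg.enc (enc_norm (l4q3_43.enc h1 h2))) (kcg.enc (enc_norm (enc_sub (enc_scale 3 4 (l4q3_43.enc h1 h2)) (enc_half (gsg.enc (enc_norm (l4q3_43.enc h1 h2)))))) h2))))) (l4q3_58.enc h1 h2))) (enc_norm (enc_sub (cv4r.enc h1) (cv3r.enc h1))))) (enc_inv (enc_sub (enc_subr 1 2 (swg.enc h1)) (cv3r.enc h1))))) (enc_mul (cv4r.enc h1) (enc_norm (enc_case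 (enc_sub (enc_rat _ 449145021 500000000) (c3g.enc h1)) (enc_add (enc_sub (enc_rat _ 236887363022129 345750000000000) (enc_scale 11881811 26968500 (c3g.enc h1))) (enc_mul (enc_norm (l4q3_4.enc h1 h2)) (enc_norm (enc_sub (enc_rat _ 426398288656333 142621875000000) (enc_scale 8201476 3422925 (c3g.enc h1)))))) (enc_case (enc_sub (enc_rat _ 318315881 500000000) (c3g.enc h1)) (enc_add (enc_sub (enc_rat _ 4602091498701 10063780000000) (enc_scale 1222825 6541457 (c3g.enc h1))) (enc_mul (enc_norm (l4q3_4.enc h1 h2)) (enc_norm (enc_sub (enc_rat _ 1337507566919 503189000000) (enc_scale 13258500 6541457 (c3g.enc h1)))))) (enc_add (enc_add (enc_scale 101228200 318315881 (c3g.enc h1)) (enc_rat _ 339569 2500000)) (enc_mul (enc_norm (l4q3_4.enc h1 h2)) (enc_norm (enc_sub (enc_rat _ 504779 234375) (enc_scale 1179020600 954947643 (c3g.enc h1))))))))))))⟩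
noncomputable def bx4q3_3 : Fn2 := ⟨_, _, fun h1 h2 => (enc_subr 1047 2000 h2)⟩
noncomputable def bx4q3 : Fn2 := ⟨_, _, fun h1 h2 => (enc_norm (enc_case (enc_sub (enc_rat _ 449145021 500000000) (c3g.enc h1)) (enc_add (enc_sub (enc_rat _ 236887363022129 345750000000000) (enc_scale 11881811 26968500 (c3g.enc h1))) (enc_mul (enc_norm (bx4q3_3.enc h1 h2)) (enc_norm (enc_sub (enc_rat _ 426398288656333 142621875000000) (enc_scale 8201476 3422925 (c3g.enc h1)))))) (enc_case (enc_sub (enc_rat _ 318315881 500000000) (c3g.enc h1)) (enc_add (enc_sub (enc_rat _ 4602091498701 10063780000000) (enc_scale 1222825 6541457 (c3g.enc h1))) (enc_mul (enc_norm (bx4q3_3.enc h1 h2)) (enc_norm (enc_sub (enc_rat _ 1337507566919 503189000000) (enc_scale 13258500 6541457 (c3g.enc h1)))))) (enc_add (enc_add (enc_scale 101228200 318315881 (c3g.enc h1)) (enc_rat _ 339569 2500000)) (enc_mul (enc_norm (bx4q3_3.enc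 h1 h2)) (enc_norm (enc_sub (enc_rat _ 504779 234375) (enc_scale 1179020600 954947643 (c3g.enc h1)))))))))⟩
noncomputable def rxq3_38 : Fn3 := ⟨_, _, fun h1 h2 h3 => (enc_subn 1 h2)⟩
noncomputable def rxq3_56 : Fn3 := ⟨_, _, fun h1 h2 h3 => (enc_sub h1 (cv3r.enc h2))⟩
noncomputable def rxq3 : Fn3 := ⟨_, _, fun h1 h2 h3 => (enc_case (enc_sub h1 (cv1r.enc h2)) (enc_mul h1 (bx1q3.enc h2 h3)) (enc_case (enc_sub h1 (cv2r.enc h2)) (enc_add (enc_mul h1 (bx2q3.enc h2 h3)) (enc_mul (enc_norm (enc_mul (enc_norm (enc_sub (enc_pnc _ 1) (lm1r.enc h1 h2))) (cv1r.enc h2))) (enc_norm (enc_sub (bx1q3.enc h2 h3) (bx2q3.enc h2 h3))))) (enc_case (rxq3_56.enc h1 h2 h3) (enc_add (enc_mul h1 (bx3q3.enc h2 h3)) (enc_mul (enc_norm (enc_mul (enc_norm (enc_sub (enc_pnc _ 1) (lm2r.enc h1 h2))) (cv2r.enc h2))) (enc_norm (enc_sub (bx2q3.enc h2 h3) (bx3q3.enc h2 h3))))) (enc_case (enc_sub h1 (cv4r.enc h2)) (enc_case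 (enc_subr 1567 1000 h2) (enc_add (l3q3.enc h2 h3) (enc_mul (enc_norm (enc_mul (enc_norm (rxq3_56.enc h1 h2 h3)) (enc_inv (enc_sub (enc_subr 1 2 (swg.enc h2)) (cv3r.enc h2))))) (enc_norm (enc_sub (enc_sub (qsg.enc (enc_norm (rxq3_38.enc h1 h2 h3))) (enc_mul (enc_norm (enc_nat 2 (enc_sub (rxq3_38.enc h1 h2 h3) h3))) (enc_norm (enc_mul (esg.enc (enc_norm (rxq3_38.enc h1 h2 h3))) (kcg.enc (enc_norm (enc_sub (enc_scale 3 4 (rxq3_38.enc h1 h2 h3)) (enc_half (gsg.enc (enc_norm (rxq3_38.enc h1 h2 h3)))))) h3))))) (l3q3.enc h2 h3))))) (enc_add (enc_mul h1 (bx4q3.enc h2 h3)) (enc_mul (enc_norm (enc_mul (enc_norm (enc_sub (enc_pnc _ 1) (lm3r.enc h1 h2))) (cv3r.enc h2))) (enc_norm (enc_sub (bx3q3.enc h2 h3) (bx4q3.enc h2 h3)))))) (enc_case (enc_sub h1 (cv5r.enc h2)) (enc_add (enc_mul h1 (bx5q3.enc h2 h3)) (enc_mul (enc_norm (enc_sub (enc_pnc _ 1) (lm4r.enc h1 h2))) (enc_norm (enc_sub (l4q3.enc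 h2 h3) (enc_mul (cv4r.enc h2) (bx5q3.enc h2 h3)))))) (enc_add (l5q3.enc h2 h3) (enc_mul (lm5r.enc h1 h2) (enc_norm (enc_sub (l6q3.enc h2 h3) (l5q3.enc h2 h3))))))))))⟩
noncomputable def rlq3 : Fn3 := ⟨_, _, fun h1 h2 h3 => (enc_case h1 (enc_neg (rxq3.enc (enc_neg h1) h2 h3)) (rxq3.enc h1 h2 h3))⟩
noncomputable def rcq0_39 : Fn3 := ⟨_, _, fun h1 h2 h3 => (enc_sub (enc_pnc _ 1) h2)⟩
noncomputable def rcq0_40 : Fn3 := ⟨_, _, fun h1 h2 h3 => (gsg.enc (enc_norm (rcq0_39.enc h1 h2 h3)))⟩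
noncomputable def rcq0_44 : Fn3 := ⟨_, _, fun h1 h2 h3 => (esg.enc (enc_norm (rcq0_39.enc h1 h2 h3)))⟩
noncomputable def rcq0_48 : Fn3 := ⟨_, _, fun h1 h2 h3 => (gug.enc (enc_norm (rcq0_39.enc h1 h2 h3)))⟩
noncomputable def rcq0_50 : Fn3 := ⟨_, _, fun h1 h2 h3 => (enc_mul (enc_norm (rcq0_39.enc h1 h2 h3)) (enc_inv (rcq0_40.enc h1 h2 h3)))⟩
noncomputable def rcq0_51 : Fn3 := ⟨_, _, fun h1 h2 h3 => (enc_scale 3 4 (rcq0_50.enc h1 h2 h3))⟩
noncomputable def rcq0_81 : Fn3 := ⟨_, _, fun h1 h2 h3 => (enc_sub h1 (cv3m.enc h2))⟩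
noncomputable def rcq0 : Fn3 := ⟨_, _, fun h1 h2 h3 => (enc_case (enc_sub h1 (cv1m.enc h2)) (enc_add (enc_mul h1 (bd1q0.enc h2 h3)) (enc_mul (enc_norm (enc_sub (enc_pnc _ 1) (lm0m.enc h1 h2))) (enc_norm (enc_sub (kc0q0.enc h2 h3) (enc_mul (c1g.enc h2) (bd1q0.enc h2 h3)))))) (enc_case (enc_sub h1 (cv2m.enc h2)) (enc_add (enc_mul h1 (bd2q0.enc h2 h3)) (enc_mul (enc_norm (enc_mul (enc_norm (enc_sub (enc_pnc _ 1) (lm1m.enc h1 h2))) (cv1m.enc h2))) (enc_norm (enc_sub (bd1q0.enc h2 h3) (bd2q0.enc h2 h3))))) (enc_case (rcq0_81.enc h1 h2 h3) (enc_add (enc_mul h1 (bd3q0.enc h2 h3)) (enc_mul (enc_norm (enc_mul (enc_norm (enc_sub (enc_pnc _ 1) (lm2m.enc h1 h2))) (cv2m.enc h2))) (enc_norm (enc_sub (bd2q0.enc h2 h3) (bd3q0.enc h2 h3))))) (enc_case (enc_sub h1 (cv4m.enc h2)) (enc_case (enc_subr 433 1000 h2) (enc_add (enc_mul h1 (bd4q0.enc h2 h3)) (enc_mul (enc_norm (enc_mul (enc_norm (enc_sub (enc_pnc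 _ 1) (lm3m.enc h1 h2))) (cv3m.enc h2))) (enc_norm (enc_sub (bd3q0.enc h2 h3) (bd4q0.enc h2 h3))))) (enc_add (kc3q0.enc h2 h3) (enc_mul (enc_norm (enc_mul (enc_norm (rcq0_81.enc h1 h2 h3)) (enc_inv (enc_sub (enc_add (swg.enc h2) (enc_rat _ 1 2)) (cv3m.enc h2))))) (enc_norm (enc_sub (enc_add (enc_sub (enc_neg (enc_add (enc_add (enc_rat _ 3 4) (enc_scale 3 2 (rcq0_39.enc h1 h2 h3))) (enc_scale 3 4 (enc_mul (enc_norm (rcq0_50.enc h1 h2 h3)) (rcq0_48.enc h1 h2 h3))))) (enc_mul (enc_norm (enc_sub (enc_mul (enc_norm (enc_mul (enc_norm (rcq0_51.enc h1 h2 h3)) (enc_norm (enc_subn 3 (enc_nat 4 (rcq0_40.enc h1 h2 h3)))))) (rcq0_44.enc h1 h2 h3)) (enc_mul (qsg.enc (enc_norm (rcq0_39.enc h1 h2 h3))) (enc_norm (enc_sub (enc_rat _ 1 2) (rcq0_51.enc h1 h2 h3)))))) (enc_inv (enc_mul (enc_nat 2 (rcq0_44.enc h1 h2 h3)) (rcq0_44.enc h1 h2 h3))))) (enc_mul (kcg.enc (enc_norm (enc_sub (enc_scale 3 4 (rcq0_39.enc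 h1 h2 h3)) (enc_half (rcq0_40.enc h1 h2 h3)))) h3) (enc_norm (enc_add (enc_pnc _ 1) (enc_add (rcq0_48.enc h1 h2 h3) (enc_nat 2 (rcq0_40.enc h1 h2 h3))))))) (kc3q0.enc h2 h3)))))) (enc_case (enc_sub h1 (cv5m.enc h2)) (enc_add (enc_mul h1 (bd5q0.enc h2 h3)) (enc_mul (enc_norm (enc_sub (enc_pnc _ 1) (lm4m.enc h1 h2))) (enc_norm (enc_sub (kc4q0.enc h2 h3) (enc_mul (cv4m.enc h2) (bd5q0.enc h2 h3)))))) (enc_add (kc5q0.enc h2 h3) (enc_mul (lm5m.enc h1 h2) (enc_norm (enc_sub (kc6q0.enc h2 h3) (kc5q0.enc h2 h3))))))))))⟩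
noncomputable def pd0 : Fn3 := ⟨_, _, fun h1 h2 h3 => (enc_case h1 (enc_neg (rcq0.enc (enc_neg h1) h2 h3)) (rcq0.enc h1 h2 h3))⟩
noncomputable def rcq1_39 : Fn3 := ⟨_, _, fun h1 h2 h3 => (enc_sub (enc_pnc _ 1) h2)⟩
noncomputable def rcq1_40 : Fn3 := ⟨_, _, fun h1 h2 h3 => (gsg.enc (enc_norm (rcq1_39.enc h1 h2 h3)))⟩
noncomputable def rcq1_44 : Fn3 := ⟨_, _, fun h1 h2 h3 => (esg.enc (enc_norm (rcq1_39.enc h1 h2 h3)))⟩
noncomputable def rcq1_47 : Fn3 := ⟨_, _, fun h1 h2 h3 => (gug.enc (enc_norm (rcq1_39.enc h1 h2 h3)))⟩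
noncomputable def rcq1_49 : Fn3 := ⟨_, _, fun h1 h2 h3 => (enc_mul (enc_norm (rcq1_39.enc h1 h2 h3)) (enc_inv (rcq1_40.enc h1 h2 h3)))⟩
noncomputable def rcq1_50 : Fn3 := ⟨_, _, fun h1 h2 h3 => (enc_scale 3 4 (rcq1_49.enc h1 h2 h3))⟩
noncomputable def rcq1_80 : Fn3 := ⟨_, _, fun h1 h2 h3 => (enc_sub h1 (cv3m.enc h2))⟩
noncomputable def rcq1 : Fn3 := ⟨_, _, fun h1 h2 h3 => (enc_case (enc_sub h1 (cv1m.enc h2)) (enc_add (enc_mul h1 (bd1q1.enc h2 h3)) (enc_mul (enc_norm (enc_sub (enc_pnc _ 1) (lm0m.enc h1 h2))) (enc_norm (enc_sub (kc0q1.enc h2 h3) (enc_mul (c1g.enc h2) (bd1q1.enc h2 h3)))))) (enc_case (enc_sub h1 (cv2m.enc h2)) (enc_add (enc_mul h1 (bd2q1.enc h2 h3)) (enc_mul (enc_norm (enc_mul (enc_norm (enc_sub (enc_pnc _ 1) (lm1m.enc h1 h2))) (cv1m.enc h2))) (enc_norm (enc_sub (bd1q1.enc h2 h3) (bd2q1.enc h2 h3))))) (enc_case (rcq1_80.enc h1 h2 h3) (enc_add (enc_mul h1 (bd3q1.enc h2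 h3)) (enc_mul (enc_norm (enc_mul (enc_norm (enc_sub (enc_pnc _ 1) (lm2m.enc h1 h2))) (cv2m.enc h2))) (enc_norm (enc_sub (bd2q1.enc h2 h3) (bd3q1.enc h2 h3))))) (enc_case (enc_sub h1 (cv4m.enc h2)) (enc_case (enc_subr 13 25 h2) (enc_add (kc3q1.enc h2 h3) (enc_mul (enc_norm (enc_mul (enc_norm (rcq1_80.enc h1 h2 h3)) (enc_inv (enc_sub (enc_add (swg.enc h2) (enc_rat _ 1 2)) (cv3m.enc h2))))) (enc_norm (enc_sub (enc_add (enc_sub (enc_neg (enc_add (enc_add (enc_rat _ 3 4) (enc_scale 3 2 (rcq1_39.enc h1 h2 h3))) (enc_scale 3 4 (enc_mul (enc_norm (rcq1_49.enc h1 h2 h3)) (rcq1_47.enc h1 h2 h3))))) (enc_mul (enc_norm (enc_sub (enc_mul (enc_norm (enc_mul (enc_norm (rcq1_50.enc h1 h2 h3)) (enc_norm (enc_subn 3 (enc_nat 4 (rcq1_40.enc h1 h2 h3)))))) (rcq1_44.enc h1 h2 h3)) (enc_mul (qsg.enc (enc_norm (rcq1_39.enc h1 h2 h3))) (enc_norm (enc_sub (enc_rat _ 1 2) (rcq1_50.enc h1 h2 h3)))))) (enc_inv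 (enc_mul (enc_nat 2 (rcq1_44.enc h1 h2 h3)) (rcq1_44.enc h1 h2 h3))))) (enc_mul (kcg.enc (enc_norm (enc_sub (enc_scale 3 4 (rcq1_39.enc h1 h2 h3)) (enc_half (rcq1_40.enc h1 h2 h3)))) h3) (enc_norm (enc_add (enc_pnc _ 1) (enc_add (rcq1_47.enc h1 h2 h3) (enc_nat 2 (rcq1_40.enc h1 h2 h3))))))) (kc3q1.enc h2 h3))))) (enc_add (enc_mul h1 (bd4q1.enc h2 h3)) (enc_mul (enc_norm (enc_mul (enc_norm (enc_sub (enc_pnc _ 1) (lm3m.enc h1 h2))) (cv3m.enc h2))) (enc_norm (enc_sub (bd3q1.enc h2 h3) (bd4q1.enc h2 h3)))))) (enc_case (enc_sub h1 (cv5m.enc h2)) (enc_add (enc_mul h1 (bd5q1.enc h2 h3)) (enc_mul (enc_norm (enc_sub (enc_pnc _ 1) (lm4m.enc h1 h2))) (enc_norm (enc_sub (kc4q1.enc h2 h3) (enc_mul (cv4m.enc h2) (bd5q1.enc h2 h3)))))) (enc_add (kc5q1.enc h2 h3) (enc_mul (lm5m.enc h1 h2) (enc_norm (enc_sub (kc6q1.enc h2 h3) (kc5q1.enc h2 h3))))))))))⟩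
noncomputable def pd1 : Fn3 := ⟨_, _, fun h1 h2 h3 => (enc_case h1 (enc_neg (rcq1.enc (enc_neg h1) h2 h3)) (rcq1.enc h1 h2 h3))⟩
noncomputable def bd3q2_3 : Fn2 := ⟨_, _, fun h1 h2 => (enc_subr 1047 2000 h2)⟩
noncomputable def bd3q2 : Fn2 := ⟨_, _, fun h1 h2 => (enc_norm (enc_case (enc_sub (enc_pnc _ 1) (enc_scale 3 4 (enc_sq h1))) (enc_add (enc_subr 3021467 346000 (enc_scale 1468489 173000 h1)) (enc_mul (enc_norm (bd3q2_3.enc h1 h2)) (enc_norm (enc_subr 8107372 540625 (enc_neg (enc_scale 17 6920 h1)))))) (enc_case (enc_subr 1 4 (c1g.enc h1)) (enc_add (enc_sub (enc_rat _ 534411 500000) (enc_scale 528381 250000 (c1g.enc h1))) (enc_mul (enc_norm (bd3q2_3.enc h1 h2)) (enc_norm (enc_subr 374757 25000 (enc_scale 152659 5000 (c1g.enc h1)))))) (enc_add (enc_sub (enc_rat _ 540441 500000) (enc_scale 540441 250000 (c1g.enc h1))) (enc_mul (enc_norm (bd3q2_3.enc h1 h2)) (enc_norm (enc_subr 735733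 50000 (enc_scale 735733 25000 (c1g.enc h1)))))))))⟩
noncomputable def kc3q2_4 : Fn2 := ⟨_, _, fun h1 h2 => (enc_subr 1047 2000 h2)⟩
noncomputable def kc3q2 : Fn2 := ⟨_, _, fun h1 h2 => (enc_norm (enc_mul (cv3p.enc h1) (enc_norm (enc_case (enc_sub (enc_pnc _ 1) (enc_scale 3 4 (enc_sq h1))) (enc_add (enc_subr 3021467 346000 (enc_scale 1468489 173000 h1)) (enc_mul (enc_norm (kc3q2_4.enc h1 h2)) (enc_norm (enc_subr 8107372 540625 (enc_neg (enc_scale 17 6920 h1)))))) (enc_case (enc_subr 1 4 (c1g.enc h1)) (enc_add (enc_sub (enc_rat _ 534411 500000) (enc_scale 528381 250000 (c1g.enc h1))) (enc_mul (enc_norm (kc3q2_4.enc h1 h2)) (enc_norm (enc_subr 374757 25000 (enc_scale 152659 5000 (c1g.enc h1)))))) (enc_add (enc_sub (enc_rat _ 540441 500000) (enc_scale 540441 250000 (c1g.enc h1))) (enc_mul (enc_norm (kc3q2_4.enc h1 h2)) (enc_norm (enc_subr 735733 50000 (enc_scale 735733 25000 (c1g.enc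 h1)))))))))))⟩
noncomputable def bd2q2_3 : Fn2 := ⟨_, _, fun h1 h2 => (enc_subr 1047 2000 h2)⟩
noncomputable def bd2q2 : Fn2 := ⟨_, _, fun h1 h2 => (enc_norm (enc_case (enc_sub (enc_pnc _ 1) (enc_scale 3 4 (enc_sq h1))) (enc_add (enc_add (enc_scale 5577 3460 h1) (enc_rat _ 68431077 43250000)) (enc_mul (enc_norm (bd2q2_3.enc h1 h2)) (enc_norm (enc_subr 129747087 8650000 (enc_neg (enc_scale 1 6920 h1)))))) (enc_case (enc_subr 1 4 (c1g.enc h1)) (enc_add (enc_sub (enc_rat _ 3443341 1000000) (enc_scale 198981 25000 (c1g.enc h1))) (enc_mul (enc_norm (bd2q2_3.enc h1 h2)) (enc_norm (enc_subr 14999 1000 (enc_scale 746769 25000 (c1g.enc h1)))))) (enc_add (enc_sub (enc_rat _ 1453531 500000) (enc_scale 1453531 250000 (c1g.enc h1))) (enc_mul (enc_norm (bd2q2_3.enc h1 h2)) (enc_norm (enc_subr 753131 50000 (enc_scale 753131 25000 (c1g.enc h1)))))))))⟩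
noncomputable def bd1q2_3 : Fn2 := ⟨_, _, fun h1 h2 => (enc_subr 1047 2000 h2)⟩
noncomputable def bd1q2_9 : Fn2 := ⟨_, _, fun h1 h2 => (enc_sub (enc_rat _ 9851 4000) (enc_scale 143933 10000 (bd1q2_3.enc h1 h2)))⟩
noncomputable def bd1q2 : Fn2 := ⟨_, _, fun h1 h2 => (enc_norm (enc_case (enc_sub (enc_pnc _ 1) (enc_scale 3 4 (enc_sq h1))) (enc_add (bd1q2_9.enc h1 h2) (enc_case (enc_subr 231 200 h1) (enc_pnc _ 0) (enc_add (enc_subr 5382223 718750 (enc_scale 279596 43125 h1)) (enc_mul (enc_norm (bd1q2_3.enc h1 h2)) (enc_norm (enc_sub (enc_rat _ 274351 92000) (enc_scale 3563 1380 h1))))))) (enc_add (bd1q2_9.enc h1 h2) (enc_case (enc_subr 1 4 (c1g.enc h1)) (enc_sub (enc_mul (enc_norm (bd1q2_3.enc h1 h2)) (enc_scale 358823 12500 (c1g.enc h1))) (enc_scale 308417 62500 (c1g.enc h1))) (enc_add (enc_subr 2293 500000 (enc_neg (enc_scale 614541 125000 (c1g.enc h1)))) (enc_mul (enc_norm (bd1q2_3.enc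 h1 h2)) (enc_norm (enc_subr 2019 50000 (enc_scale 180421 6250 (c1g.enc h1))))))))))⟩
noncomputable def kc0q2_3 : Fn2 := ⟨_, _, fun h1 h2 => (enc_subr 1047 2000 h2)⟩
noncomputable def kc0q2 : Fn2 := ⟨_, _, fun h1 h2 => (enc_norm (enc_case (enc_subr 1 5 (c1g.enc h1)) (enc_case (enc_subr 1 10 (c1g.enc h1)) (enc_sub (enc_scale 9851 4000 (c1g.enc h1)) (enc_mul (enc_norm (kc0q2_3.enc h1 h2)) (enc_scale 143933 10000 (c1g.enc h1)))) (enc_add (enc_add (enc_scale 248 3125 (c1g.enc h1)) (enc_rat _ 238339 1000000)) (enc_mul (enc_norm (kc0q2_3.enc h1 h2)) (enc_norm (enc_subr 2417 25000 (enc_neg (enc_scale 26853 2000 (c1g.enc h1)))))))) (enc_case (enc_subr 3 10 (c1g.enc h1)) (enc_add (enc_add (enc_scale 991 25000 (c1g.enc h1)) (enc_rat _ 246283 1000000)) (enc_mul (enc_norm (kc0q2_3.enc h1 h2)) (enc_norm (enc_subr 254387 50000 (enc_scale 14411 1250 (c1g.enc h1)))))) (enc_case (enc_subr 2 5 (c1g.enc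 h1)) (enc_add (enc_sub (enc_rat _ 252487 250000) (enc_scale 250591 100000 (c1g.enc h1))) (enc_mul (enc_norm (kc0q2_3.enc h1 h2)) (enc_norm (enc_subr 664891 100000 (enc_scale 167327 10000 (c1g.enc h1)))))) (enc_add (enc_sub (enc_rat _ 237 6250) (enc_scale 237 3125 (c1g.enc h1))) (enc_mul (enc_norm (kc0q2_3.enc h1 h2)) (enc_norm (enc_sub (enc_rat _ 4417 20000) (enc_scale 4417 10000 (c1g.enc h1))))))))))⟩
noncomputable def n0d : Fn2 := ⟨_, _, fun h1 h2 => (enc_norm (enc_sub (enc_rat _ 9851 4000) (enc_scale 143933 10000 (enc_subr 1047 2000 h2))))⟩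
noncomputable def rcq2_38 : Fn3 := ⟨_, _, fun h1 h2 h3 => (enc_subn 1 h2)⟩
noncomputable def rcq2_39 : Fn3 := ⟨_, _, fun h1 h2 h3 => (gsg.enc (enc_norm (rcq2_38.enc h1 h2 h3)))⟩
noncomputable def rcq2_43 : Fn3 := ⟨_, _, fun h1 h2 h3 => (esg.enc (enc_norm (rcq2_38.enc h1 h2 h3)))⟩
noncomputable def rcq2_46 : Fn3 := ⟨_, _, fun h1 h2 h3 => (gug.enc (enc_norm (rcq2_38.enc h1 h2 h3)))⟩
noncomputable def rcq2_48 : Fn3 := ⟨_, _, fun h1 h2 h3 => (enc_mul (enc_norm (rcq2_38.enc h1 h2 h3)) (enc_inv (rcq2_39.enc h1 h2 h3)))⟩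
noncomputable def rcq2_49 : Fn3 := ⟨_, _, fun h1 h2 h3 => (enc_scale 3 4 (rcq2_48.enc h1 h2 h3))⟩
noncomputable def rcq2_79 : Fn3 := ⟨_, _, fun h1 h2 h3 => (enc_sub h1 (cv3p.enc h2))⟩
noncomputable def rcq2_113 : Fn3 := ⟨_, _, fun h1 h2 h3 => (enc_mul h1 (bd1q2.enc h2 h3))⟩
noncomputable def rcq2_115 : Fn3 := ⟨_, _, fun h1 h2 h3 => (enc_sub (enc_pnc _ 1) (lm0p.enc h1 h2))⟩
noncomputable def rcq2 : Fn3 := ⟨_, _, fun h1 h2 h3 => (enc_case (enc_sub h1 (cv1p.enc h2)) (enc_case (enc_subr 1149 1000 h2) (enc_add (rcq2_113.enc h1 h2 h3) (enc_mul (enc_norm (rcq2_115.enc h1 h2 h3)) (enc_norm (enc_sub (kc0q2.enc h2 h3) (enc_mul (c1g.enc h2) (bd1q2.enc h2 h3)))))) (enc_case (enc_subr 2887 2500 h2) (enc_add (rcq2_113.enc h1 h2 h3) (enc_mul (enc_norm (rcq2_115.enc h1 h2 h3)) (enc_norm (enc_mul (c1g.enc h2) (enc_norm (enc_sub (n0d.enc h2 h3) (bd1q2.enc h2 h3))))))) (rcq2_113.enc h1 h2 h3))) (enc_case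 (enc_sub h1 (cv2p.enc h2)) (enc_add (enc_mul h1 (bd2q2.enc h2 h3)) (enc_mul (enc_norm (enc_mul (enc_norm (enc_sub (enc_pnc _ 1) (lm1p.enc h1 h2))) (cv1p.enc h2))) (enc_norm (enc_sub (bd1q2.enc h2 h3) (bd2q2.enc h2 h3))))) (enc_case (rcq2_79.enc h1 h2 h3) (enc_add (enc_mul h1 (bd3q2.enc h2 h3)) (enc_mul (enc_norm (enc_mul (enc_norm (enc_sub (enc_pnc _ 1) (lm2p.enc h1 h2))) (cv2p.enc h2))) (enc_norm (enc_sub (bd2q2.enc h2 h3) (bd3q2.enc h2 h3))))) (enc_case (enc_sub h1 (cv4p.enc h2)) (enc_case (enc_subr 37 25 h2) (enc_add (enc_mul h1 (bd4q2.enc h2 h3)) (enc_mul (enc_norm (enc_mul (enc_norm (enc_sub (enc_pnc _ 1) (lm3p.enc h1 h2))) (cv3p.enc h2))) (enc_norm (enc_sub (bd3q2.enc h2 h3) (bd4q2.enc h2 h3))))) (enc_add (kc3q2.enc h2 h3) (enc_mul (enc_norm (enc_mul (enc_norm (rcq2_79.enc h1 h2 h3)) (enc_inv (enc_sub (enc_subr 1 2 (swg.enc h2)) (cv3p.enc h2))))) (enc_norm (enc_sub (enc_add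 (enc_sub (enc_add (enc_add (enc_rat _ 3 4) (enc_scale 3 2 (rcq2_38.enc h1 h2 h3))) (enc_scale 3 4 (enc_mul (enc_norm (rcq2_48.enc h1 h2 h3)) (rcq2_46.enc h1 h2 h3)))) (enc_mul (enc_norm (enc_sub (enc_mul (enc_norm (enc_mul (enc_norm (rcq2_49.enc h1 h2 h3)) (enc_norm (enc_subn 3 (enc_nat 4 (rcq2_39.enc h1 h2 h3)))))) (rcq2_43.enc h1 h2 h3)) (enc_mul (qsg.enc (enc_norm (rcq2_38.enc h1 h2 h3))) (enc_norm (enc_sub (enc_rat _ 1 2) (rcq2_49.enc h1 h2 h3)))))) (enc_inv (enc_mul (enc_nat 2 (rcq2_43.enc h1 h2 h3)) (rcq2_43.enc h1 h2 h3))))) (enc_mul (kcg.enc (enc_norm (enc_sub (enc_scale 3 4 (rcq2_38.enc h1 h2 h3)) (enc_half (rcq2_39.enc h1 h2 h3)))) h3) (enc_norm (enc_sub (enc_pnc _ 1) (enc_add (rcq2_46.enc h1 h2 h3) (enc_nat 2 (rcq2_39.enc h1 h2 h3))))))) (kc3q2.enc h2 h3)))))) (enc_case (enc_sub h1 (cv5p.enc h2)) (enc_add (enc_mul h1 (bd5q2.enc h2 h3)) (enc_mul (enc_norm (enc_sub (enc_pnc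 _ 1) (lm4p.enc h1 h2))) (enc_norm (enc_sub (kc4q2.enc h2 h3) (enc_mul (cv4p.enc h2) (bd5q2.enc h2 h3)))))) (enc_add (kc5q2.enc h2 h3) (enc_mul (lm5p.enc h1 h2) (enc_norm (enc_sub (kc6q2.enc h2 h3) (kc5q2.enc h2 h3))))))))))⟩
noncomputable def pd2 : Fn3 := ⟨_, _, fun h1 h2 h3 => (enc_case h1 (enc_neg (rcq2.enc (enc_neg h1) h2 h3)) (rcq2.enc h1 h2 h3))⟩
noncomputable def kc5q3 : Fn2 := ⟨_, _, fun h1 h2 => (enc_norm (enc_mul (cv5r.enc h1) (enc_norm (enc_add (enc_subr 1251 4000 (enc_scale 372684250 286410981 (c3g.enc h1))) (enc_mul (enc_norm (enc_subr 1047 2000 h2)) (enc_norm (enc_sub (enc_rat _ 222249 28000) (enc_scale 3485862500 668292289 (c3g.enc h1)))))))))⟩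
noncomputable def kc6q3_3 : Fn2 := ⟨_, _, fun h1 h2 => (enc_subr 1047 2000 h2)⟩
noncomputable def kc6q3_9 : Fn2 := ⟨_, _, fun h1 h2 => (enc_sub (enc_half (c3g.enc h1)) (enc_scale 1 4 h1))⟩
noncomputable def kc6q3 : Fn2 := ⟨_, _, fun h1 h2 => (enc_norm (enc_case (enc_add (kc6q3_9.enc h1 h2) (enc_rat _ 7 100)) (enc_case (enc_add (kc6q3_9.enc h1 h2) (enc_rat _ 9 25)) (enc_add (enc_subr 1251 4000 (enc_neg (enc_scale 1251 2000 (kc6q3_9.enc h1 h2)))) (enc_mul (enc_norm (kc6q3_3.enc h1 h2)) (enc_norm (enc_add (enc_scale 222249 14000 (kc6q3_9.enc h1 h2)) (enc_rat _ 222249 28000))))) (enc_case (enc_add (kc6q3_9.enc h1 h2) (enc_rat _ 21 100)) (enc_add (enc_add (enc_scale 40091 50000 (kc6q3_9.enc h1 h2)) (enc_rat _ 502713 2500000)) (enc_mul (enc_norm (kc6q3_3.enc h1 h2)) (enc_norm (enc_add (enc_scale 38563 7500 (kc6q3_9.enc h1 h2)) (enc_rat _ 2036757 500000))))) (enc_add (enc_add (enc_scale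 122897 140000 (kc6q3_9.enc h1 h2)) (enc_rat _ 434097 2000000)) (enc_mul (enc_norm (kc6q3_3.enc h1 h2)) (enc_norm (enc_add (enc_scale 36513 14000 (kc6q3_9.enc h1 h2)) (enc_rat _ 708289 200000))))))) (enc_case (enc_subr 21 100 (kc6q3_9.enc h1 h2)) (enc_case (enc_subr 7 100 (kc6q3_9.enc h1 h2)) (enc_add (enc_add (enc_scale 127021 140000 (kc6q3_9.enc h1 h2)) (enc_rat _ 438221 2000000)) (enc_mul (enc_norm (kc6q3_3.enc h1 h2)) (enc_norm (enc_add (enc_scale 191 500 (kc6q3_9.enc h1 h2)) (enc_rat _ 169281 50000))))) (enc_add (enc_add (enc_scale 5339 8750 (kc6q3_9.enc h1 h2)) (enc_rat _ 239909 1000000)) (enc_mul (enc_norm (kc6q3_3.enc h1 h2)) (enc_norm (enc_sub (enc_rat _ 22209 6250) (enc_scale 3527 1750 (kc6q3_9.enc h1 h2))))))) (enc_case (enc_subr 9 25 (kc6q3_9.enc h1 h2)) (enc_add (enc_add (enc_scale 20143 150000 (kc6q3_9.enc h1 h2)) (enc_rat _ 212403 625000)) (enc_mul (enc_norm (kc6q3_3.enc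 h1 h2)) (enc_norm (enc_sub (enc_rat _ 2485327 500000) (enc_scale 131461 15000 (kc6q3_9.enc h1 h2)))))) (enc_add (enc_sub (enc_rat _ 97047 70000) (enc_scale 97047 35000 (kc6q3_9.enc h1 h2))) (enc_mul (enc_norm (kc6q3_3.enc h1 h2)) (enc_norm (enc_sub (enc_rat _ 25937 4000) (enc_scale 25937 2000 (kc6q3_9.enc h1 h2))))))))))⟩
noncomputable def bd5q3 : Fn2 := ⟨_, _, fun h1 h2 => (enc_norm (enc_add (enc_subr 1251 4000 (enc_scale 372684250 286410981 (c3g.enc h1))) (enc_mul (enc_norm (enc_subr 1047 2000 h2)) (enc_norm (enc_sub (enc_rat _ 222249 28000) (enc_scale 3485862500 668292289 (c3g.enc h1)))))))⟩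
noncomputable def kc4q3_18 : Fn2 := ⟨_, _, fun h1 h2 => (enc_subn 1 h1)⟩
noncomputable def kc4q3_19 : Fn2 := ⟨_, _, fun h1 h2 => (gsg.enc (enc_norm (kc4q3_18.enc h1 h2)))⟩
noncomputable def kc4q3_23 : Fn2 := ⟨_, _, fun h1 h2 => (esg.enc (enc_norm (kc4q3_18.enc h1 h2)))⟩
noncomputable def kc4q3_28 : Fn2 := ⟨_, _, fun h1 h2 => (gug.enc (enc_norm (kc4q3_18.enc h1 h2)))⟩
noncomputable def kc4q3_30 : Fn2 := ⟨_, _, fun h1 h2 => (enc_mul (enc_norm (kc4q3_18.enc h1 h2)) (enc_inv (kc4q3_19.enc h1 h2)))⟩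
noncomputable def kc4q3_31 : Fn2 := ⟨_, _, fun h1 h2 => (enc_scale 3 4 (kc4q3_30.enc h1 h2))⟩
noncomputable def kc4q3_59 : Fn2 := ⟨_, _, fun h1 h2 => (enc_mul (cv3r.enc h1) (bd3q3.enc h1 h2))⟩
noncomputable def kc4q3 : Fn2 := ⟨_, _, fun h1 h2 => (enc_norm (enc_case (enc_subr 1567 1000 h1) (enc_add (kc4q3_59.enc h1 h2) (enc_mul (enc_norm (enc_mul (enc_norm (enc_sub (enc_add (enc_sub (enc_add (enc_add (enc_rat _ 3 4) (enc_scale 3 2 (kc4q3_18.enc h1 h2))) (enc_scale 3 4 (enc_mul (enc_norm (kc4q3_30.enc h1 h2)) (kc4q3_28.enc h1 h2)))) (enc_mul (enc_norm (enc_sub (enc_mul (enc_norm (enc_mul (enc_norm (kc4q3_31.enc h1 h2)) (enc_norm (enc_subn 3 (enc_nat 4 (kc4q3_19.enc h1 h2)))))) (kc4q3_23.enc h1 h2)) (enc_mul (qsg.enc (enc_norm (kc4q3_18.enc h1 h2))) (enc_norm (enc_sub (enc_rat _ 1 2) (kc4q3_31.enc h1 h2)))))) (enc_inv (enc_mul (enc_nat 2 (kc4q3_23.enc h1 h2)) (kc4q3_23.enc h1 h2)))))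 (enc_mul (kcg.enc (enc_norm (enc_sub (enc_scale 3 4 (kc4q3_18.enc h1 h2)) (enc_half (kc4q3_19.enc h1 h2)))) h2) (enc_norm (enc_sub (enc_pnc _ 1) (enc_add (kc4q3_28.enc h1 h2) (enc_nat 2 (kc4q3_19.enc h1 h2))))))) (kc4q3_59.enc h1 h2))) (enc_norm (enc_sub (cv4r.enc h1) (cv3r.enc h1))))) (enc_inv (enc_sub (enc_subr 1 2 (swg.enc h1)) (cv3r.enc h1))))) (enc_mul (cv4r.enc h1) (enc_norm (enc_add (enc_subr 1251 4000 (enc_scale 123041693 41395467 (c3g.enc h1))) (enc_mul (enc_norm (enc_subr 1047 2000 h2)) (enc_norm (enc_sub (enc_rat _ 222249 28000) (enc_scale 25080579208 3766987497 (c3g.enc h1))))))))))⟩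
noncomputable def bd4q3 : Fn2 := ⟨_, _, fun h1 h2 => (enc_norm (enc_add (enc_subr 1251 4000 (enc_scale 123041693 41395467 (c3g.enc h1))) (enc_mul (enc_norm (enc_subr 1047 2000 h2)) (enc_norm (enc_sub (enc_rat _ 222249 28000) (enc_scale 25080579208 3766987497 (c3g.enc h1)))))))⟩
noncomputable def rcq3_38 : Fn3 := ⟨_, _, fun h1 h2 h3 => (enc_subn 1 h2)⟩
noncomputable def rcq3_39 : Fn3 := ⟨_, _, fun h1 h2 h3 => (gsg.enc (enc_norm (rcq3_38.enc h1 h2 h3)))⟩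
noncomputable def rcq3_43 : Fn3 := ⟨_, _, fun h1 h2 h3 => (esg.enc (enc_norm (rcq3_38.enc h1 h2 h3)))⟩
noncomputable def rcq3_48 : Fn3 := ⟨_, _, fun h1 h2 h3 => (gug.enc (enc_norm (rcq3_38.enc h1 h2 h3)))⟩
noncomputable def rcq3_50 : Fn3 := ⟨_, _, fun h1 h2 h3 => (enc_mul (enc_norm (rcq3_38.enc h1 h2 h3)) (enc_inv (rcq3_39.enc h1 h2 h3)))⟩
noncomputable def rcq3_51 : Fn3 := ⟨_, _, fun h1 h2 h3 => (enc_scale 3 4 (rcq3_50.enc h1 h2 h3))⟩
noncomputable def rcq3_81 : Fn3 := ⟨_, _, fun h1 h2 h3 => (enc_sub h1 (cv3r.enc h2))⟩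
noncomputable def rcq3 : Fn3 := ⟨_, _, fun h1 h2 h3 => (enc_case (enc_sub h1 (cv1r.enc h2)) (enc_mul h1 (bd1q3.enc h2 h3)) (enc_case (enc_sub h1 (cv2r.enc h2)) (enc_add (enc_mul h1 (bd2q3.enc h2 h3)) (enc_mul (enc_norm (enc_mul (enc_norm (enc_sub (enc_pnc _ 1) (lm1r.enc h1 h2))) (cv1r.enc h2))) (enc_norm (enc_sub (bd1q3.enc h2 h3) (bd2q3.enc h2 h3))))) (enc_case (rcq3_81.enc h1 h2 h3) (enc_add (enc_mul h1 (bd3q3.enc h2 h3)) (enc_mul (enc_norm (enc_mul (enc_norm (enc_sub (enc_pnc _ 1) (lm2r.enc h1 h2))) (cv2r.enc h2))) (enc_norm (enc_sub (bd2q3.enc h2 h3) (bd3q3.enc h2 h3))))) (enc_case (enc_sub h1 (cv4r.enc h2)) (enc_case (enc_subr 1567 1000 h2) (enc_add (kc3q3.enc h2 h3) (enc_mul (enc_norm (enc_mul (enc_norm (rcq3_81.enc h1 h2 h3)) (enc_inv (enc_sub (enc_subr 1 2 (swg.enc h2)) (cv3r.enc h2))))) (enc_norm (enc_sub (enc_add (enc_sub (enc_add (enc_add (enc_rat _ 3 4) (enc_scale 3 2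 (rcq3_38.enc h1 h2 h3))) (enc_scale 3 4 (enc_mul (enc_norm (rcq3_50.enc h1 h2 h3)) (rcq3_48.enc h1 h2 h3)))) (enc_mul (enc_norm (enc_sub (enc_mul (enc_norm (enc_mul (enc_norm (rcq3_51.enc h1 h2 h3)) (enc_norm (enc_subn 3 (enc_nat 4 (rcq3_39.enc h1 h2 h3)))))) (rcq3_43.enc h1 h2 h3)) (enc_mul (qsg.enc (enc_norm (rcq3_38.enc h1 h2 h3))) (enc_norm (enc_sub (enc_rat _ 1 2) (rcq3_51.enc h1 h2 h3)))))) (enc_inv (enc_mul (enc_nat 2 (rcq3_43.enc h1 h2 h3)) (rcq3_43.enc h1 h2 h3))))) (enc_mul (kcg.enc (enc_norm (enc_sub (enc_scale 3 4 (rcq3_38.enc h1 h2 h3)) (enc_half (rcq3_39.enc h1 h2 h3)))) h3) (enc_norm (enc_sub (enc_pnc _ 1) (enc_add (rcq3_48.enc h1 h2 h3) (enc_nat 2 (rcq3_39.enc h1 h2 h3))))))) (kc3q3.enc h2 h3))))) (enc_add (enc_mul h1 (bd4q3.enc h2 h3)) (enc_mul (enc_norm (enc_mul (enc_norm (enc_sub (enc_pnc _ 1) (lm3r.enc h1 h2))) (cv3r.enc h2))) (enc_norm (enc_sub (bd3q3.enc h2 h3)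 (bd4q3.enc h2 h3)))))) (enc_case (enc_sub h1 (cv5r.enc h2)) (enc_add (enc_mul h1 (bd5q3.enc h2 h3)) (enc_mul (enc_norm (enc_sub (enc_pnc _ 1) (lm4r.enc h1 h2))) (enc_norm (enc_sub (kc4q3.enc h2 h3) (enc_mul (cv4r.enc h2) (bd5q3.enc h2 h3)))))) (enc_add (kc5q3.enc h2 h3) (enc_mul (lm5r.enc h1 h2) (enc_norm (enc_sub (kc6q3.enc h2 h3) (kc5q3.enc h2 h3))))))))))⟩
noncomputable def pd3 : Fn3 := ⟨_, _, fun h1 h2 h3 => (enc_case h1 (enc_neg (rcq3.enc (enc_neg h1) h2 h3)) (rcq3.enc h1 h2 h3))⟩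
noncomputable def mug3 : Fn1 := ⟨_, _, fun h1 => (enc_inv (enc_add (enc_nat 2 (gsg.enc h1)) (enc_pnc _ 3)))⟩
noncomputable def eng : Fn1 := ⟨_, _, fun h1 => (enc_norm (enc_add (enc_pnc _ 1) (enc_mul (mug3.enc h1) (gug.enc h1))))⟩
noncomputable def mog : Fn1 := ⟨_, _, fun h1 => (enc_norm (enc_scale 3 40 (enc_mul (mug3.enc h1) (esg.enc h1))))⟩
noncomputable def kf1q2_4 : Fn2 := ⟨_, _, fun h1 h2 => (enc_subr 1047 2000 h2)⟩
noncomputable def kf1q2_9 : Fn2 := ⟨_, _, fun h1 h2 => (enc_sub (enc_pnc _ 1) (enc_scale 3525793 5000000 (enc_subn 1 h1)))⟩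
noncomputable def kf1q2 : Fn2 := ⟨_, _, fun h1 h2 => (enc_norm (enc_mul (cv1p.enc h1) (enc_norm (enc_case (enc_sub (enc_pnc _ 1) (enc_scale 3 4 (enc_sq h1))) (enc_add (kf1q2_9.enc h1 h2) (enc_case (enc_subr 127 100 h1) (enc_case (enc_subr 231 200 h1) (enc_pnc _ 0) (enc_add (enc_sub (enc_rat _ 68470479 23000000) (enc_scale 296409 115000 h1)) (enc_mul (enc_norm (kf1q2_4.enc h1 h2)) (enc_norm (enc_subr 672903 230000 (enc_scale 2913 1150 h1)))))) (enc_case (enc_subr 139 100 h1) (enc_add (enc_sub (enc_rat _ 7157513 2400000) (enc_scale 309799 120000 h1)) (enc_mul (enc_norm (kf1q2_4.enc h1 h2)) (enc_norm (enc_subr 4108267 1200000 (enc_scale 35101 12000 h1))))) (enc_add (enc_sub (enc_rat _ 32831481 11000000) (enc_scale 284171 110000 h1)) (enc_mul (enc_norm (kf1q2_4.enc h1 h2)) (enc_norm (enc_subr 4061437 1100000 (enc_scale 17151 5500 h1)))))))) (enc_add (kf1q2_9.enc h1 h2) (enc_case (enc_subr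 1 4 (c1g.enc h1)) (enc_case (enc_subr 1 10 (c1g.enc h1)) (enc_case (enc_subr 1 20 (c1g.enc h1)) (enc_sub (enc_scale 767 25000 (c1g.enc h1)) (enc_mul (enc_norm (kf1q2_4.enc h1 h2)) (enc_scale 4029 2500 (c1g.enc h1)))) (enc_add (enc_subr 49399 1000000 (enc_scale 50933 50000 (c1g.enc h1))) (enc_mul (enc_norm (kf1q2_4.enc h1 h2)) (enc_norm (enc_sub (enc_rat _ 5093 20000) (enc_scale 33523 5000 (c1g.enc h1))))))) (enc_case (enc_subr 3 20 (c1g.enc h1)) (enc_add (enc_sub (enc_rat _ 98237 1000000) (enc_scale 4577 10000 (c1g.enc h1))) (enc_mul (enc_norm (kf1q2_4.enc h1 h2)) (enc_norm (enc_subr 28183 100000 (enc_neg (enc_scale 6699 5000 (c1g.enc h1))))))) (enc_case (enc_subr 1 5 (c1g.enc h1)) (enc_add (enc_sub (enc_rat _ 149669 1000000) (enc_scale 40029 50000 (c1g.enc h1))) (enc_mul (enc_norm (kf1q2_4.enc h1 h2)) (enc_norm (enc_subr 17951 20000 (enc_scale 553 200 (c1g.enc h1)))))) (enc_add (enc_sub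 (enc_rat _ 112977 1000000) (enc_scale 3857 6250 (c1g.enc h1))) (enc_mul (enc_norm (kf1q2_4.enc h1 h2)) (enc_norm (enc_subr 87403 100000 (enc_scale 13237 5000 (c1g.enc h1))))))))) (enc_case (enc_subr 7 20 (c1g.enc h1)) (enc_case (enc_subr 3 10 (c1g.enc h1)) (enc_add (enc_subr 101719 500000 (enc_scale 32427 50000 (c1g.enc h1))) (enc_mul (enc_norm (kf1q2_4.enc h1 h2)) (enc_norm (enc_subr 7267 25000 (enc_scale 157 500 (c1g.enc h1)))))) (enc_add (enc_subr 101971 500000 (enc_scale 32511 50000 (c1g.enc h1))) (enc_mul (enc_norm (kf1q2_4.enc h1 h2)) (enc_norm (enc_subr 11621 50000 (enc_scale 599 5000 (c1g.enc h1))))))) (enc_case (enc_subr 2 5 (c1g.enc h1)) (enc_add (enc_subr 116687 1000000 (enc_scale 10023 25000 (c1g.enc h1))) (enc_mul (enc_norm (kf1q2_4.enc h1 h2)) (enc_norm (enc_subr 62673 100000 (enc_scale 779 625 (c1g.enc h1)))))) (enc_case (enc_subr 9 20 (c1g.enc h1)) (enc_add (enc_sub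 (enc_rat _ 38109 200000) (enc_scale 9179 25000 (c1g.enc h1))) (enc_mul (enc_norm (kf1q2_4.enc h1 h2)) (enc_norm (enc_subr 89617 100000 (enc_scale 48 25 (c1g.enc h1)))))) (enc_add (enc_sub (enc_rat _ 25323 100000) (enc_scale 25323 50000 (c1g.enc h1))) (enc_mul (enc_norm (kf1q2_4.enc h1 h2)) (enc_norm (enc_subr 3217 10000 (enc_scale 3217 5000 (c1g.enc h1)))))))))))))))⟩
noncomputable def l1q2_4 : Fn2 := ⟨_, _, fun h1 h2 => (enc_subr 1047 2000 h2)⟩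
noncomputable def l1q2_11 : Fn2 := ⟨_, _, fun h1 h2 => (enc_subr 4198367113859 18535730000000 (enc_neg (enc_scale 1307165529 1492890625 (l1q2_4.enc h1 h2))))⟩
noncomputable def l1q2 : Fn2 := ⟨_, _, fun h1 h2 => (enc_norm (enc_mul (cv1p.enc h1) (enc_norm (enc_case (enc_sub (enc_pnc _ 1) (enc_scale 3 4 (enc_sq h1))) (enc_add (l1q2_11.enc h1 h2) (enc_case (enc_subr 127 100 h1) (enc_case (enc_subr 231 200 h1) (enc_pnc _ 0) (enc_add (enc_subr 45742389 23000000 (enc_scale 198019 115000 h1)) (enc_mul (enc_norm (l1q2_4.enc h1 h2)) (enc_norm (enc_subr 36267 1150000 (enc_scale 157 5750 h1)))))) (enc_case (enc_subr 139 100 h1) (enc_add (enc_subr 7973591 4000000 (enc_scale 69021 40000 h1)) (enc_mul (enc_norm (l1q2_4.enc h1 h2)) (enc_norm (enc_sub (enc_rat _ 2231 120000) (enc_scale 73 6000 h1))))) (enc_add (enc_subr 21942839 11000000 (enc_scale 189919 110000 h1)) (enc_mul (enc_norm (l1q2_4.enc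 h1 h2)) (enc_norm (enc_sub (enc_rat _ 1413 34375) (enc_scale 39 1375 h1)))))))) (enc_add (l1q2_11.enc h1 h2) (enc_case (enc_subr 1 4 (c1g.enc h1)) (enc_case (enc_subr 1 10 (c1g.enc h1)) (enc_case (enc_subr 1 20 (c1g.enc h1)) (enc_sub (enc_mul (enc_norm (l1q2_4.enc h1 h2)) (enc_scale 47 500 (c1g.enc h1))) (enc_scale 99 6250 (c1g.enc h1))) (enc_add (enc_sub (enc_rat _ 261 200000) (enc_scale 2097 50000 (c1g.enc h1))) (enc_mul (enc_norm (l1q2_4.enc h1 h2)) (enc_norm (enc_subr 443 6250 (enc_scale 3779 2500 (c1g.enc h1))))))) (enc_case (enc_subr 3 20 (c1g.enc h1)) (enc_add (enc_subr 3853 1000000 (enc_scale 241 25000 (c1g.enc h1))) (enc_mul (enc_norm (l1q2_4.enc h1 h2)) (enc_norm (enc_subr 5461 50000 (enc_scale 379 200 (c1g.enc h1)))))) (enc_case (enc_subr 1 5 (c1g.enc h1)) (enc_add (enc_subr 60139 1000000 (enc_scale 4811 12500 (c1g.enc h1))) (enc_mul (enc_norm (l1q2_4.enc h1 h2)) (enc_norm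 (enc_subr 16439 100000 (enc_scale 5657 2500 (c1g.enc h1)))))) (enc_add (enc_subr 137079 1000000 (enc_scale 38479 50000 (c1g.enc h1))) (enc_mul (enc_norm (l1q2_4.enc h1 h2)) (enc_norm (enc_subr 7283 20000 (enc_scale 4077 1250 (c1g.enc h1))))))))) (enc_case (enc_subr 7 20 (c1g.enc h1)) (enc_case (enc_subr 3 10 (c1g.enc h1)) (enc_add (enc_subr 199389 1000000 (enc_scale 50941 50000 (c1g.enc h1))) (enc_mul (enc_norm (l1q2_4.enc h1 h2)) (enc_norm (enc_add (enc_scale 2173 1250 (c1g.enc h1)) (enc_rat _ 333 20000))))) (enc_add (enc_subr 199563 1000000 (enc_scale 5097 5000 (c1g.enc h1))) (enc_mul (enc_norm (l1q2_4.enc h1 h2)) (enc_norm (enc_add (enc_scale 17 20 (c1g.enc h1)) (enc_rat _ 28317 100000)))))) (enc_case (enc_subr 2 5 (c1g.enc h1)) (enc_add (enc_subr 75537 500000 (enc_scale 44043 50000 (c1g.enc h1))) (enc_mul (enc_norm (l1q2_4.enc h1 h2)) (enc_norm (enc_add (enc_scale 2661 2500 (c1g.enc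 h1)) (enc_rat _ 20813 100000))))) (enc_case (enc_subr 9 20 (c1g.enc h1)) (enc_add (enc_add (enc_scale 187 500 (c1g.enc h1)) (enc_rat _ 5167 100000)) (enc_mul (enc_norm (l1q2_4.enc h1 h2)) (enc_norm (enc_subr 18451 100000 (enc_scale 1023 500 (c1g.enc h1)))))) (enc_add (enc_add (enc_scale 121062585759 926786500000 (c1g.enc h1)) (enc_rat _ 2987741256269 18535730000000)) (enc_mul (enc_norm (l1q2_4.enc h1 h2)) (enc_norm (enc_subr 12383652301 23886250000 (enc_scale 6659660153 2388625000 (c1g.enc h1)))))))))))))))⟩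
noncomputable def kc1q2_4 : Fn2 := ⟨_, _, fun h1 h2 => (enc_subr 1047 2000 h2)⟩
noncomputable def kc1q2_10 : Fn2 := ⟨_, _, fun h1 h2 => (enc_sub (enc_rat _ 9851 4000) (enc_scale 143933 10000 (kc1q2_4.enc h1 h2)))⟩
noncomputable def kc1q2 : Fn2 := ⟨_, _, fun h1 h2 => (enc_norm (enc_mul (cv1p.enc h1) (enc_norm (enc_case (enc_sub (enc_pnc _ 1) (enc_scale 3 4 (enc_sq h1))) (enc_add (kc1q2_10.enc h1 h2) (enc_case (enc_subr 231 200 h1) (enc_pnc _ 0) (enc_add (enc_subr 5382223 718750 (enc_scale 279596 43125 h1)) (enc_mul (enc_norm (kc1q2_4.enc h1 h2)) (enc_norm (enc_sub (enc_rat _ 274351 92000) (enc_scale 3563 1380 h1))))))) (enc_add (kc1q2_10.enc h1 h2) (enc_case (enc_subr 1 4 (c1g.enc h1)) (enc_sub (enc_mul (enc_norm (kc1q2_4.enc h1 h2)) (enc_scale 358823 12500 (c1g.enc h1))) (enc_scale 308417 62500 (c1g.enc h1))) (enc_add (enc_subr 2293 500000 (enc_neg (enc_scale 614541 125000 (c1g.enc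 h1)))) (enc_mul (enc_norm (kc1q2_4.enc h1 h2)) (enc_norm (enc_subr 2019 50000 (enc_scale 180421 6250 (c1g.enc h1))))))))))))⟩
noncomputable def kf2q2_4 : Fn2 := ⟨_, _, fun h1 h2 => (enc_subr 1047 2000 h2)⟩
noncomputable def kf2q2 : Fn2 := ⟨_, _, fun h1 h2 => (enc_norm (enc_mul (cv2p.enc h1) (enc_norm (enc_case (enc_sub (enc_pnc _ 1) (enc_scale 3 4 (enc_sq h1))) (enc_case (enc_subr 127 100 h1) (enc_add (enc_sub (enc_rat _ 138466853 29000000) (enc_scale 194947 58000 h1)) (enc_mul (enc_norm (kf2q2_4.enc h1 h2)) (enc_norm (enc_subr 3631149 290000 (enc_scale 14243 1450 h1))))) (enc_case (enc_subr 69 50 h1) (enc_add (enc_sub (enc_rat _ 25154717 5500000) (enc_scale 176153 55000 h1)) (enc_mul (enc_norm (kf2q2_4.enc h1 h2)) (enc_norm (enc_subr 196243 22000 (enc_scale 3843 550 h1))))) (enc_add (enc_sub (enc_rat _ 9029253 2000000) (enc_scale 379207 120000 h1)) (enc_mul (enc_norm (kf2q2_4.enc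 h1 h2)) (enc_norm (enc_subr 317579 50000 (enc_scale 2563 500 h1))))))) (enc_case (enc_subr 1 4 (c1g.enc h1)) (enc_case (enc_subr 1 10 (c1g.enc h1)) (enc_case (enc_subr 1 20 (c1g.enc h1)) (enc_add (enc_sub (enc_rat _ 448901 500000) (enc_scale 429 2000 (c1g.enc h1))) (enc_mul (enc_norm (kf2q2_4.enc h1 h2)) (enc_norm (enc_subr 130191 100000 (enc_neg (enc_scale 40017 5000 (c1g.enc h1))))))) (enc_add (enc_sub (enc_rat _ 58401 62500) (enc_scale 47339 50000 (c1g.enc h1))) (enc_mul (enc_norm (kf2q2_4.enc h1 h2)) (enc_norm (enc_subr 221009 100000 (enc_scale 50801 5000 (c1g.enc h1))))))) (enc_case (enc_subr 3 20 (c1g.enc h1)) (enc_add (enc_sub (enc_rat _ 29111 31250) (enc_scale 45907 50000 (c1g.enc h1))) (enc_mul (enc_norm (kf2q2_4.enc h1 h2)) (enc_norm (enc_subr 217659 100000 (enc_scale 24563 2500 (c1g.enc h1)))))) (enc_case (enc_subr 1 5 (c1g.enc h1)) (enc_add (enc_add (enc_scale 28047 50000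 (c1g.enc h1)) (enc_rat _ 70969 100000)) (enc_mul (enc_norm (kf2q2_4.enc h1 h2)) (enc_norm (enc_subr 40323 25000 (enc_scale 30337 5000 (c1g.enc h1)))))) (enc_add (enc_add (enc_scale 3729 5000 (c1g.enc h1)) (enc_rat _ 336359 500000)) (enc_mul (enc_norm (kf2q2_4.enc h1 h2)) (enc_norm (enc_subr 2717 3125 (enc_scale 47 20 (c1g.enc h1))))))))) (enc_case (enc_subr 7 20 (c1g.enc h1)) (enc_case (enc_subr 3 10 (c1g.enc h1)) (enc_add (enc_add (enc_scale 38493 50000 (c1g.enc h1)) (enc_rat _ 666703 1000000)) (enc_mul (enc_norm (kf2q2_4.enc h1 h2)) (enc_norm (enc_subr 45019 100000 (enc_scale 673 1000 (c1g.enc h1)))))) (enc_add (enc_add (enc_scale 38087 50000 (c1g.enc h1)) (enc_rat _ 669139 1000000)) (enc_mul (enc_norm (kf2q2_4.enc h1 h2)) (enc_norm (enc_subr 31741 100000 (enc_scale 144 625 (c1g.enc h1))))))) (enc_case (enc_subr 2 5 (c1g.enc h1)) (enc_add (enc_add (enc_scale 2162 3125 (c1g.enc h1))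 (enc_rat _ 173401 250000)) (enc_mul (enc_norm (kf2q2_4.enc h1 h2)) (enc_norm (enc_subr 22363 50000 (enc_scale 3007 5000 (c1g.enc h1)))))) (enc_case (enc_subr 9 20 (c1g.enc h1)) (enc_add (enc_add (enc_scale 9113 25000 (c1g.enc h1)) (enc_rat _ 206133 250000)) (enc_mul (enc_norm (kf2q2_4.enc h1 h2)) (enc_norm (enc_subr 45659 50000 (enc_scale 8831 5000 (c1g.enc h1)))))) (enc_add (enc_add (enc_scale 5717 25000 (c1g.enc h1)) (enc_rat _ 44283 50000)) (enc_mul (enc_norm (kf2q2_4.enc h1 h2)) (enc_norm (enc_subr 11839 10000 (enc_scale 11839 5000 (c1g.enc h1))))))))))))))⟩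
noncomputable def l2q2_4 : Fn2 := ⟨_, _, fun h1 h2 => (enc_subr 1047 2000 h2)⟩
noncomputable def l2q2 : Fn2 := ⟨_, _, fun h1 h2 => (enc_norm (enc_mul (cv2p.enc h1) (enc_norm (enc_case (enc_sub (enc_pnc _ 1) (enc_scale 3 4 (enc_sq h1))) (enc_case (enc_subr 127 100 h1) (enc_add (enc_subr 61642169 29000000 (enc_scale 19167 11600 h1)) (enc_mul (enc_norm (l2q2_4.enc h1 h2)) (enc_norm (enc_subr 28962813 5800000 (enc_scale 42633 11600 h1))))) (enc_case (enc_subr 69 50 h1) (enc_add (enc_subr 23465201 11000000 (enc_scale 36483 22000 h1)) (enc_mul (enc_norm (l2q2_4.enc h1 h2)) (enc_norm (enc_sub (enc_rat _ 656291 550000) (enc_scale 13159 11000 h1))))) (enc_add (enc_subr 529861 250000 (enc_scale 32967 20000 h1)) (enc_mul (enc_norm (l2q2_4.enc h1 h2)) (enc_norm (enc_sub (enc_rat _ 358061 200000) (enc_scale 19547 12000 h1))))))) (enc_case (enc_subr 1 4 (c1g.enc h1)) (enc_case (enc_subr 1 10 (c1g.enc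 h1)) (enc_case (enc_subr 1 20 (c1g.enc h1)) (enc_add (enc_subr 217703 1000000 (enc_scale 14821 50000 (c1g.enc h1))) (enc_mul (enc_norm (l2q2_4.enc h1 h2)) (enc_norm (enc_subr 4741 6250 (enc_scale 3453 5000 (c1g.enc h1)))))) (enc_add (enc_subr 225211 1000000 (enc_scale 22329 50000 (c1g.enc h1))) (enc_mul (enc_norm (l2q2_4.enc h1 h2)) (enc_norm (enc_subr 9937 12500 (enc_scale 7093 5000 (c1g.enc h1))))))) (enc_case (enc_subr 3 20 (c1g.enc h1)) (enc_add (enc_subr 241087 1000000 (enc_scale 30267 50000 (c1g.enc h1))) (enc_mul (enc_norm (l2q2_4.enc h1 h2)) (enc_norm (enc_subr 44857 50000 (enc_scale 6101 2500 (c1g.enc h1)))))) (enc_case (enc_subr 1 5 (c1g.enc h1)) (enc_add (enc_subr 63121 250000 (enc_scale 17033 25000 (c1g.enc h1))) (enc_mul (enc_norm (l2q2_4.enc h1 h2)) (enc_norm (enc_subr 84461 100000 (enc_scale 10451 5000 (c1g.enc h1)))))) (enc_add (enc_subr 30137 125000 (enc_scale 31219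 50000 (c1g.enc h1))) (enc_mul (enc_norm (l2q2_4.enc h1 h2)) (enc_norm (enc_subr 82069 100000 (enc_scale 9853 5000 (c1g.enc h1))))))))) (enc_case (enc_subr 7 20 (c1g.enc h1)) (enc_case (enc_subr 3 10 (c1g.enc h1)) (enc_add (enc_subr 113293 500000 (enc_scale 28317 50000 (c1g.enc h1))) (enc_mul (enc_norm (l2q2_4.enc h1 h2)) (enc_norm (enc_subr 37217 50000 (enc_scale 4163 2500 (c1g.enc h1)))))) (enc_add (enc_subr 103333 500000 (enc_scale 24997 50000 (c1g.enc h1))) (enc_mul (enc_norm (l2q2_4.enc h1 h2)) (enc_norm (enc_subr 6193 10000 (enc_scale 3121 2500 (c1g.enc h1))))))) (enc_case (enc_subr 2 5 (c1g.enc h1)) (enc_add (enc_subr 15537 100000 (enc_scale 17669 50000 (c1g.enc h1))) (enc_mul (enc_norm (l2q2_4.enc h1 h2)) (enc_norm (enc_subr 5983 10000 (enc_scale 2971 2500 (c1g.enc h1)))))) (enc_case (enc_subr 9 20 (c1g.enc h1)) (enc_add (enc_subr 43641 500000 (enc_scale 4579 25000 (c1g.enc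 h1))) (enc_mul (enc_norm (l2q2_4.enc h1 h2)) (enc_norm (enc_subr 30887 50000 (enc_scale 1237 1000 (c1g.enc h1)))))) (enc_add (enc_subr 243 5000 (enc_scale 243 2500 (c1g.enc h1))) (enc_mul (enc_norm (l2q2_4.enc h1 h2)) (enc_norm (enc_subr 6109 10000 (enc_scale 6109 5000 (c1g.enc h1))))))))))))))⟩
noncomputable def kc2q2_4 : Fn2 := ⟨_, _, fun h1 h2 => (enc_subr 1047 2000 h2)⟩
noncomputable def kc2q2 : Fn2 := ⟨_, _, fun h1 h2 => (enc_norm (enc_mul (cv2p.enc h1) (enc_norm (enc_case (enc_sub (enc_pnc _ 1) (enc_scale 3 4 (enc_sq h1))) (enc_add (enc_add (enc_scale 5577 3460 h1) (enc_rat _ 68431077 43250000)) (enc_mul (enc_norm (kc2q2_4.enc h1 h2)) (enc_norm (enc_subr 129747087 8650000 (enc_neg (enc_scale 1 6920 h1)))))) (enc_case (enc_subr 1 4 (c1g.enc h1)) (enc_add (enc_sub (enc_rat _ 3443341 1000000) (enc_scale 198981 25000 (c1g.enc h1))) (enc_mul (enc_norm (kc2q2_4.enc h1 h2)) (enc_norm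 (enc_subr 14999 1000 (enc_scale 746769 25000 (c1g.enc h1)))))) (enc_add (enc_sub (enc_rat _ 1453531 500000) (enc_scale 1453531 250000 (c1g.enc h1))) (enc_mul (enc_norm (kc2q2_4.enc h1 h2)) (enc_norm (enc_subr 753131 50000 (enc_scale 753131 25000 (c1g.enc h1)))))))))))⟩

noncomputable def ndB0q0 : Node := ⟨idf, c1g, kf0q0, l0q0⟩
noncomputable def cd0q0 : Fn2 := kc0q0
noncomputable def ndB0q1 : Node := ⟨idf, c1g, kf0q1, l0q1⟩
noncomputable def cd0q1 : Fn2 := kc0q1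
noncomputable def ndB0q2 : Node := ⟨yag, idf, kfc02, lc02⟩
noncomputable def cd0q2 : Fn2 := kcc02
noncomputable def ndB1q0 : Node := ⟨idf, cv1m, kf1q0, l1q0⟩
noncomputable def cd1q0 : Fn2 := kc1q0
noncomputable def ndB1q1 : Node := ⟨idf, cv1m, kf1q1, l1q1⟩
noncomputable def cd1q1 : Fn2 := kc1q1
noncomputable def ndB1q2a : Node := ⟨yag, xc12a, kfc12a, lc12a⟩
noncomputable def cd1q2a : Fn2 := kcc12a
noncomputable def ndB1q2b : Node := ⟨idf, xc12b, kfc12b, lc12b⟩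
noncomputable def cd1q2b : Fn2 := kcc12b
noncomputable def ndB1q3 : Node := ⟨idf, cv1r, kf1q3, l1q3⟩
noncomputable def cd1q3 : Fn2 := kc1q3
noncomputable def ndB2q0 : Node := ⟨idf, cv2m, kf2q0, l2q0⟩
noncomputable def cd2q0 : Fn2 := kc2q0
noncomputable def ndB2q1 : Node := ⟨idf, cv2m, kf2q1, l2q1⟩
noncomputable def cd2q1 : Fn2 := kc2q1
noncomputable def ndB2q2a : Node := ⟨yag, xc22a, kfc22a, lc22a⟩
noncomputable def cd2q2a : Fn2 := kcc22a
noncomputable def ndB2q2b : Node := ⟨idf, xc22b, kfc22b, lc22b⟩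
noncomputable def cd2q2b : Fn2 := kcc22b
noncomputable def ndB2q3 : Node := ⟨idf, cv2r, kf2q3, l2q3⟩
noncomputable def cd2q3 : Fn2 := kc2q3
noncomputable def ndB3q0 : Node := ⟨idf, cv3m, kf3q0, l3q0⟩
noncomputable def cd3q0 : Fn2 := kc3q0
noncomputable def ndB3q1 : Node := ⟨idf, cv3m, kf3q1, l3q1⟩
noncomputable def cd3q1 : Fn2 := kc3q1
noncomputable def ndB3q2a : Node := ⟨yag, xc32a, kfc32a, lc32a⟩
noncomputable def cd3q2a : Fn2 := kcc32a
noncomputable def ndB3q2b : Node := ⟨idf, xc32b, kfc32b, lc32b⟩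
noncomputable def cd3q2b : Fn2 := kcc32b
noncomputable def ndB3q3 : Node := ⟨idf, cv3r, kf3q3, l3q3⟩
noncomputable def cd3q3 : Fn2 := kc3q3
noncomputable def ndB4q0 : Node := ⟨idf, cv4m, kf4q0, l4q0⟩
noncomputable def cd4q0 : Fn2 := kc4q0
noncomputable def ndB4q1 : Node := ⟨idf, cv4m, kf4q1, l4q1⟩
noncomputable def cd4q1 : Fn2 := kc4q1
noncomputable def ndB4q2 : Node := ⟨idf, cv4p, kf4q2, l4q2⟩
noncomputable def cd4q2 : Fn2 := kc4q2
noncomputable def ndB4q3 : Node := ⟨ycg, xc43, kfc43, lc43⟩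
noncomputable def cd4q3 : Fn2 := kcc43
noncomputable def ndB5q0 : Node := ⟨idf, cv5m, kf5q0, l5q0⟩
noncomputable def cd5q0 : Fn2 := kc5q0
noncomputable def ndB5q1 : Node := ⟨idf, cv5m, kf5q1, l5q1⟩
noncomputable def cd5q1 : Fn2 := kc5q1
noncomputable def ndB5q2 : Node := ⟨idf, cv5p, kf5q2, l5q2⟩
noncomputable def cd5q2 : Fn2 := kc5q2
noncomputable def ndB5q3 : Node := ⟨ycg, xc53, kfc53, lc53⟩
noncomputable def cd5q3 : Fn2 := kcc53
noncomputable def ndB6q0 : Node := ⟨idf, c3g, kf6q0, l6q0⟩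
noncomputable def cd6q0 : Fn2 := kc6q0
noncomputable def ndB6q1 : Node := ⟨idf, c3g, kf6q1, l6q1⟩
noncomputable def cd6q1 : Fn2 := kc6q1
noncomputable def ndB6q2 : Node := ⟨idf, c3g, kf6q2, l6q2⟩
noncomputable def cd6q2 : Fn2 := kc6q2
noncomputable def ndB6q3 : Node := ⟨ycg, idf, kfc63, lc63⟩
noncomputable def cd6q3 : Fn2 := kcc63
noncomputable def pcB0 : Piece := ⟨rsbq0, rlq0⟩
noncomputable def pcB1 : Piece := ⟨rsbq1, rlq1⟩
noncomputable def pcB2 : Piece := ⟨rsbq2, rlq2⟩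
noncomputable def pcB3 : Piece := ⟨rsbq3, rlq3⟩
noncomputable def ndB1q2 : Node := ⟨idf, cv1p, kf1q2, l1q2⟩
noncomputable def cd1q2 : Fn2 := kc1q2
noncomputable def ndB2q2 : Node := ⟨idf, cv2p, kf2q2, l2q2⟩
noncomputable def cd2q2 : Fn2 := kc2q2
noncomputable def ndB3q2 : Node := ⟨idf, cv3p, kf3q2, l3q2⟩
noncomputable def cd3q2 : Fn2 := kc3q2
end Pool.Agent.Strip051.G.I5000_5470.Tab
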