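import Pool.Agent.Strip051.G.I5000_5470.MolD

/-! # The tight charts of a table: certificates (generated) -/

set_option linter.all false
set_option maxRecDepth 100000

namespace Pool.Agent.Strip051.G.I5000_5470.Tab.Mo

open Pool.Agent.Strip051.PB Pool.Agent.Strip051.PB.Mol Pool.Agent.Strip051.PB.T
open Pool.Agent.Strip051.G.I5000_5470.Tab

noncomputable def f0Apl : ℕ → ℕ → ℕ → ℕ → Bool :=
  onCell 0 41943040 0 33554432 536870912 50465866 (c0_Apl.row false 20971520)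

theorem h0_0Apl : ∃ t, chk3 f0Apl t 1 1 1 = true :=
  ⟨(c (b (b (a (l 10) (c (l 10) (l 5))) (a (l 10) (l 5))) (a (c (a (l 10) (l 5)) (l 5)) (l 5))) (l 5)), by decide +kernel⟩

theorem ct_0Apl : ∃ t, chk3 f0Apl t 1 1 1 = true := h0_0Apl

noncomputable def f0Aph : ℕ → ℕ → ℕ → ℕ → Bool :=
  onCell 0 41943040 0 33554432 536870912 50465866 (c0_Aph.row false 20971520)

theorem h0_0Aph : ∃ t, chk3 f0Aph t 1 1 1 = true :=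
  ⟨(c (b (a (c (l 10) (l 10)) (c (a (l 10) (l 2)) (b (l 10) (a (l 2) (l 2))))) (a (c (l 10) (a (l 10) (l 10))) (b (a (c (l 2) (l 2)) (l 1)) (l 1)))) (b (b (a (c (l 10) (l 10)) (c (a (l 10) (l 2)) (l 10))) (a (c (l 10) (a (l 10) (l 10))) (c (a (l 2) (l 2)) (l 2)))) (a (b (c (a (l 10) (l 10)) (a (l 10) (l 10))) (c (a (l 10) (l 2)) (a (l 10) (l 2)))) (b (a (c (l 2) (l 2)) (l 1)) (l 1))))), by decide +kernel⟩

theorem ct_0Aph : ∃ t, chk3 f0Aph t 1 1 1 = true := h0_0Aph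

noncomputable def f0Aplk1 : ℕ → ℕ → ℕ → ℕ → Bool :=
  onCell 0 41943040 0 33554432 536870912 50465866 (c0_Aplk1.row false 20971520)

theorem h0_0Aplk1 : ∃ t, chk3 f0Aplk1 t 1 1 1 = true :=
  ⟨(c (b (a (c (l 10) (l 10)) (c (l 10) (l 5))) (a (c (l 10) (l 5)) (l 5))) (l 5)), by decide +kernel⟩

theorem ct_0Aplk1 : ∃ t, chk3 f0Aplk1 t 1 1 1 = true := h0_0Aplk1

noncomputable def f0Aphk1 : ℕ → ℕ → ℕ → ℕ → Bool :=
  onCell 0 41943040 0 33554432 536870912 50465866 (c0_Aphk1.row false 20971520)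

theorem h0_0Aphk1 : ∃ t, chk3 f0Aphk1 t 1 1 1 = true :=
  ⟨(c (b (a (l 10) (c (l 10) (a (l 10) (l 2)))) (a (c (l 10) (a (l 10) (l 10))) (b (c (l 2) (l 2)) (l 1)))) (b (b (a (c (l 10) (l 10)) (c (l 10) (l 10))) (a (c (l 10) (l 10)) (c (l 2) (l 2)))) (a (b (c (l 10) (l 10)) (c (l 10) (a (l 10) (l 2)))) (b (c (a (l 2) (l 1)) (l 2)) (l 1))))), by decide +kernel⟩

theorem ct_0Aphk1 : ∃ t, chk3 f0Aphk1 t 1 1 1 = true := h0_0Aphk1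

noncomputable def f0Aplk2 : ℕ → ℕ → ℕ → ℕ → Bool :=
  onCell 0 41943040 0 33554432 536870912 50465866 (c0_Aplk2.row false 20971520)

theorem h0_0Aplk2 : ∃ t, chk3 f0Aplk2 t 1 1 1 = true :=
  ⟨(c (b (a (l 10) (c (l 10) (l 5))) (a (l 10) (l 5))) (l 5)), by decide +kernel⟩

theorem ct_0Aplk2 : ∃ t, chk3 f0Aplk2 t 1 1 1 = true := h0_0Aplk2

noncomputable def f0Aphk2 : ℕ → ℕ → ℕ → ℕ → Bool :=
  onCell 0 41943040 0 33554432 536870912 50465866 (c0_Aphk2.row false 20971520)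

theorem h0_0Aphk2 : ∃ t, chk3 f0Aphk2 t 1 1 1 = true :=
  ⟨(c (b (a (l 10) (c (l 10) (l 10))) (a (l 10) (c (l 2) (l 2)))) (b (a (c (l 10) (l 10)) (c (l 10) (l 10))) (a (c (l 10) (l 10)) (c (l 2) (l 2))))), by decide +kernel⟩

theorem ct_0Aphk2 : ∃ t, chk3 f0Aphk2 t 1 1 1 = true := h0_0Aphk2

noncomputable def f0Aplk3 : ℕ → ℕ → ℕ → ℕ → Bool :=
  onCell 0 41943040 0 33554432 536870912 50465866 (c0_Aplk3.row false 20971520)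

theorem h0_0Aplk3 : ∃ t, chk3 f0Aplk3 t 1 1 1 = true :=
  ⟨(c (a (l 10) (b (l 10) (l 5))) (l 5)), by decide +kernel⟩

theorem ct_0Aplk3 : ∃ t, chk3 f0Aplk3 t 1 1 1 = true := h0_0Aplk3

noncomputable def f0Aphk3 : ℕ → ℕ → ℕ → ℕ → Bool :=
  onCell 0 41943040 0 33554432 536870912 50465866 (c0_Aphk3.row false 20971520)

theorem h0_0Aphk3 : ∃ t, chk3 f0Aphk3 t 1 1 1 = true :=
  ⟨(c (a (l 10) (b (l 10) (l 2))) (b (a (l 10) (l 10)) (a (l 10) (l 2)))), by decide +kernel⟩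

theorem ct_0Aphk3 : ∃ t, chk3 f0Aphk3 t 1 1 1 = true := h0_0Aphk3

noncomputable def f0Aml : ℕ → ℕ → ℕ → ℕ → Bool :=
  onCell 0 41943040 0 33554432 536870912 50465866 (c0_Aml.row true 20971520)

theorem h0_0Aml : ∃ t, chk3 f0Aml t 1 2 2 = true :=
  ⟨(a (b (a (c (c (b (a (c (l 16) (l 8)) (c (l 8) (l 8))) (a (c (l 8) (l 8)) (l 8))) (b (a (l 16) (b (l 16) (l 8))) (a (l 8) (l 8)))) (c (b (a (c (l 16) (l 16)) (b (l 16) (c (l 8) (l 16)))) (a (c (l 8) (l 8)) (c (l 8) (l 8)))) (b (a (c (l 16) (l 16)) (c (a (l 16) (l 5)) (l 5))) (a (c (l 16) (l 16)) (c (b (l 16) (l 8)) (b (l 5) (l 16))))))) (c (b (c (a (c (l 8) (l 8)) (c (l 10) (l 10))) (a (c (l 8) (a (l 8) (l 8))) (c (l 10) (l 5)))) (c (a (l 8) (l 8)) (a (l 8) (l 8)))) (c (b (a (c (b (l 5) (l 8)) (l 5)) (l 5)) (a (c (l 8) (l 8)) (c (l 8) (l 5)))) (l 5)))) (c (a (b (a (l 3) (c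 (l 8) (l 8))) (l 3)) (c (a (b (l 8) (l 8)) (l 8)) (a (b (l 8) (l 8)) (l 8)))) (a (b (a (l 3) (c (l 8) (c (l 8) (l 8)))) (l 3)) (c (b (a (l 8) (l 8)) (l 8)) (b (a (c (l 8) (a (l 8) (l 5))) (l 5)) (a (l 8) (l 8))))))) (b (c (a (b (c (a (l 10) (l 5)) (l 5)) (c (a (l 10) (l 2)) (a (l 10) (l 5)))) (l 5)) (l 5)) (c (a (b (c (l 10) (a (l 10) (l 2))) (c (l 10) (l 10))) (c (a (l 2) (l 2)) (l 5))) (a (c (b (l 5) (a (l 10) (l 5))) (l 5)) (l 5))))), by decide +kernel⟩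

theorem h1_0Aml : ∃ t, chk3 f0Aml t 1 3 2 = true :=
  ⟨(a (b (a (l 3) (a (l 3) (c (c (l 8) (l 8)) (c (l 8) (l 8))))) (l 3)) (c (b (a (a (c (l 8) (l 8)) (c (l 10) (l 10))) (c (l 10) (a (l 10) (l 2)))) (a (c (a (l 8) (l 10)) (l 10)) (c (l 10) (l 10)))) (b (a (c (a (l 8) (l 10)) (a (l 8) (b (l 5) (l 10)))) (c (a (l 10) (l 5)) (l 5))) (a (c (l 10) (a (l 8) (l 10))) (c (a (l 10) (l 2)) (a (l 10) (l 5))))))), by decide +kernel⟩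

theorem h2_0Aml : ∃ t, chk3 f0Aml t 1 1 3 = true :=
  ⟨(b (a (c (b (a (c (a (b (l 5) (a (l 3) (c (l 16) (l 5)))) (l 5)) (l 5)) (l 5)) (a (b (a (l 3) (c (c (b (l 16) (l 8)) (l 5)) (l 5))) (l 3)) (c (a (b (l 5) (c (l 8) (l 5))) (l 5)) (l 5)))) (l 5)) (l 5)) (a (b (a (l 3) (c (a (l 3) (c (b (c (l 8) (l 5)) (l 8)) (l 5))) (l 5))) (l 3)) (c (a (b (l 5) (c (a (l 8) (l 10)) (b (l 5) (a (l 3) (l 5))))) (l 5)) (l 5)))), by decide +kernel⟩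

theorem h3_0Aml : ∃ t, chk3 f0Aml t 1 1 2 = true := ex3_b h0_0Aml h1_0Aml

theorem h4_0Aml : ∃ t, chk3 f0Aml t 1 1 1 = true := ex3_c h3_0Aml h2_0Aml

theorem ct_0Aml : ∃ t, chk3 f0Aml t 1 1 1 = true := h4_0Aml

noncomputable def f0Amh : ℕ → ℕ → ℕ → ℕ → Bool :=
  onCell 0 41943040 0 33554432 536870912 50465866 (c0_Amh.row true 20971520)

theorem h0_0Amh : ∃ t, chk3 f0Amh t 2 2 2 = true :=
  ⟨(b (a (c (c (l 5) (a (l 5) (b (l 8) (l 5)))) (c (a (b (l 8) (l 5)) (b (l 8) (l 8))) (a (b (l 16) (l 8)) (b (l 8) (l 8))))) (c (b (c (a (l 8) (l 10)) (a (l 8) (l 10))) (c (a (l 5) (l 8)) (a (l 8) (l 8)))) (b (c (a (l 8) (l 10)) (a (l 8) (l 10))) (c (a (l 8) (l 8)) (a (l 8) (l 8)))))) (c (a (l 5) (c (l 5) (a (l 5) (l 8)))) (a (a (l 3) (b (c (l 8) (l 8)) (l 3))) (c (a (b (l 8) (l 8)) (l 8)) (a (b (l 8) (l 8)) (b (l 8) (l 8))))))), by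 decide +kernel⟩

theorem h1_0Amh : ∃ t, chk3 f0Amh t 3 2 2 = true :=
  ⟨(b (c (a (b (c (a (l 10) (l 2)) (a (l 10) (l 2))) (c (a (l 10) (l 2)) (a (l 10) (l 2)))) (b (c (a (l 2) (l 2)) (a (l 2) (c (l 2) (l 4)))) (c (a (l 2) (l 2)) (a (l 2) (l 4))))) (a (b (c (a (l 10) (l 2)) (a (c (l 10) (l 10)) (c (l 2) (a (l 2) (l 2))))) (c (a (l 10) (l 2)) (a (l 10) (c (l 2) (l 2))))) (b (c (a (b (l 4) (l 4)) (c (l 4) (l 2))) (a (l 2) (l 2))) (c (a (c (l 2) (l 2)) (c (l 4) (l 2))) (a (l 2) (l 2)))))) (c (a (c (a (l 10) (l 10)) (a (l 10) (l 10))) (c (a (l 2) (l 2)) (a (l 2) (b (l 2) (l 2))))) (a (c (a (l 10) (b (l 2) (l 10))) (b (a (l 10) (l 2)) (a (l 10) (l 10)))) (c (b (a (l 2) (c (l 2) (l 2))) (a (l 2) (l 2))) (b (a (l 2) (l 2)) (a (l 2) (l 2))))))), by decide +kernel⟩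

theorem h2_0Amh : ∃ t, chk3 f0Amh t 1 3 2 = true :=
  ⟨(a (b (c (l 5) (a (l 3) (a (l 3) (c (l 8) (l 8))))) (l 3)) (c (b (a (a (c (l 5) (l 8)) (c (l 10) (l 10))) (c (a (l 2) (l 2)) (a (l 2) (l 2)))) (a (l 5) (c (a (l 5) (l 2)) (a (l 10) (l 2))))) (b (a (a (c (l 8) (l 8)) (c (l 10) (b (l 10) (l 10)))) (c (a (l 2) (l 2)) (a (l 2) (l 2)))) (a (b (c (l 10) (a (l 8) (l 10))) (c (l 8) (l 8))) (c (a (l 10) (l 2)) (a (l 10) (l 2))))))), by decide +kernel⟩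

theorem h3_0Amh : ∃ t, chk3 f0Amh t 2 2 3 = true :=
  ⟨(b (b (c (a (c (a (l 16) (c (l 8) (l 8))) (a (l 16) (c (l 8) (l 8)))) (c (a (l 8) (c (l 10) (l 10))) (a (c (l 8) (a (l 8) (l 8))) (c (l 10) (l 10))))) (a (c (a (l 16) (c (a (l 8) (l 8)) (a (l 8) (l 8)))) (a (c (l 16) (l 16)) (c (a (l 8) (l 8)) (l 8)))) (c (a (c (a (l 8) (l 8)) (l 8)) (l 10)) (a (l 8) (l 10))))) (c (a (c (a (l 16) (l 8)) (a (l 16) (l 8))) (c (a (l 8) (l 8)) (a (l 8) (c (l 8) (l 8))))) (a (c (a (l 16) (c (l 8) (a (l 8) (l 8)))) (a (c (l 8) (l 16)) (a (c (l 8) (l 8)) (l 8)))) (c (a (c (a (l 8) (l 8)) (l 8)) (l 8)) (a (c (l 8) (l 8)) (l 8)))))) (c (a (a (l 3) (b (c (l 8) (l 8)) (l 3))) (c (a (b (l 8) (l 8)) (b (l 8) (l 8))) (a (b (l 8) (l 8)) (c (l 8) (l 8))))) (a (b (a (l 3) (a (l 3) (c (l 8) (l 8)))) (l 3)) (c (a (b (c (l 8) (l 8)) (c (l 8) (l 8)))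 (b (c (l 8) (l 8)) (l 8))) (b (a (c (l 8) (l 8)) (c (l 8) (l 8))) (a (c (l 8) (l 8)) (c (l 8) (l 8)))))))), by decide +kernel⟩

theorem h4_0Amh : ∃ t, chk3 f0Amh t 3 2 3 = true :=
  ⟨(c (b (a (b (c (a (c (l 10) (l 10)) (l 2)) (a (l 10) (l 2))) (c (a (c (l 10) (l 10)) (l 2)) (a (l 10) (l 2)))) (b (c (a (l 2) (l 2)) (a (l 2) (c (l 2) (l 4)))) (c (a (l 2) (l 2)) (a (l 2) (l 2))))) (a (c (a (b (l 10) (l 10)) (b (l 2) (l 10))) (b (a (l 10) (l 2)) (a (l 10) (c (l 10) (l 10))))) (b (c (a (l 2) (l 2)) (l 2)) (c (a (l 2) (c (l 2) (l 2))) (a (c (l 2) (l 2)) (l 2)))))) (b (a (c (b (a (l 10) (l 2)) (l 10)) (b (a (c (l 10) (l 10)) (c (l 2) (a (l 2) (b (l 2) (l 2))))) (a (l 10) (l 2)))) (b (c (a (b (l 4) (l 2)) (l 4)) (a (b (l 4) (l 4)) (l 4))) (c (a (l 2) (c (l 2) (l 4))) (a (c (l 2) (l 4)) (l 4))))) (a (b (c (a (c (l 10) (l 10))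 (l 2)) (l 10)) (c (a (c (l 10) (l 10)) (c (l 10) (l 10))) (a (c (l 10) (l 10)) (l 10)))) (c (a (l 2) (b (l 2) (l 2))) (b (a (l 2) (l 4)) (a (l 2) (l 2))))))), by decide +kernel⟩

theorem h5_0Amh : ∃ t, chk3 f0Amh t 1 3 3 = true :=
  ⟨(a (b (a (l 3) (a (l 3) (c (c (b (l 8) (l 8)) (b (l 8) (l 8))) (c (l 8) (b (c (l 8) (l 8)) (l 8)))))) (l 3)) (c (a (b (a (c (b (l 8) (l 8)) (l 8)) (c (l 10) (b (l 10) (l 10)))) (a (c (l 8) (l 8)) (c (l 10) (l 10)))) (b (b (c (a (l 2) (l 2)) (a (c (l 2) (l 2)) (c (l 2) (l 2)))) (c (a (l 2) (l 2)) (a (l 2) (l 2)))) (c (a (l 10) (l 2)) (a (l 10) (b (l 2) (l 2)))))) (b (a (a (c (b (l 8) (l 8)) (b (c (l 8) (l 8)) (l 8))) (b (c (c (l 10) (l 10)) (c (l 10) (l 10))) (c (l 10) (l 10)))) (c (b (a (c (l 2) (l 2)) (l 2)) (a (l 10) (l 2))) (a (l 10) (l 2)))) (a (b (c (a (l 8) (l 10)) (a (l 8) (l 10)))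 (c (l 8) (a (l 3) (l 8)))) (b (c (a (l 10) (l 2)) (a (l 10) (l 2))) (c (a (l 10) (l 2)) (a (l 10) (l 2)))))))), by decide +kernel⟩

theorem h6_0Amh : ∃ t, chk3 f0Amh t 1 2 3 = true := ex3_a h3_0Amh h4_0Amh

theorem h7_0Amh : ∃ t, chk3 f0Amh t 1 1 3 = true := ex3_b h6_0Amh h5_0Amh

theorem h8_0Amh : ∃ t, chk3 f0Amh t 1 2 2 = true := ex3_a h0_0Amh h1_0Amh

theorem h9_0Amh : ∃ t, chk3 f0Amh t 1 1 2 = true := ex3_b h8_0Amh h2_0Amh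

theorem h10_0Amh : ∃ t, chk3 f0Amh t 1 1 1 = true := ex3_c h9_0Amh h7_0Amh

theorem ct_0Amh : ∃ t, chk3 f0Amh t 1 1 1 = true := h10_0Amh

noncomputable def f0Bpl : ℕ → ℕ → ℕ → ℕ → Bool :=
  onCell 0 41943040 0 33554432 536870912 50465866 (c0_Bpl.row false 20971520)

theorem h0_0Bpl : ∃ t, chk3 f0Bpl t 1 1 1 = true :=
  ⟨(c (b (a (c (l 10) (l 10)) (c (l 10) (l 10))) (a (c (l 8) (l 8)) (c (l 10) (a (l 10) (l 10))))) (b (a (c (l 10) (l 5)) (l 5)) (a (b (c (l 8) (l 8)) (l 3)) (c (a (l 10) (l 5)) (l 5))))), by decide +kernel⟩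

theorem ct_0Bpl : ∃ t, chk3 f0Bpl t 1 1 1 = true := h0_0Bpl

noncomputable def f0Bph : ℕ → ℕ → ℕ → ℕ → Bool :=
  onCell 0 41943040 0 33554432 536870912 50465866 (c0_Bph.row false 20971520)

theorem h0_0Bph : ∃ t, chk3 f0Bph t 1 1 1 = true :=
  ⟨(c (b (a (l 10) (c (l 10) (l 10))) (a (c (l 5) (l 8)) (c (l 10) (l 10)))) (b (b (a (l 10) (c (l 10) (l 10))) (a (c (l 8) (l 8)) (c (l 10) (l 10)))) (a (c (l 8) (a (l 3) (l 8))) (c (a (l 10) (l 10)) (l 10))))), by decide +kernel⟩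

theorem ct_0Bph : ∃ t, chk3 f0Bph t 1 1 1 = true := h0_0Bph

noncomputable def f0Bplk1 : ℕ → ℕ → ℕ → ℕ → Bool :=
  onCell 0 41943040 0 33554432 536870912 50465866 (c0_Bplk1.row false 20971520)

theorem h0_0Bplk1 : ∃ t, chk3 f0Bplk1 t 1 1 1 = true :=
  ⟨(c (b (a (l 10) (c (l 10) (l 10))) (a (l 8) (c (l 10) (l 10)))) (b (a (c (l 10) (l 5)) (l 5)) (a (c (l 8) (l 8)) (c (a (l 10) (l 5)) (l 5))))), by decide +kernel⟩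

theorem ct_0Bplk1 : ∃ t, chk3 f0Bplk1 t 1 1 1 = true := h0_0Bplk1

noncomputable def f0Bphk1 : ℕ → ℕ → ℕ → ℕ → Bool :=
  onCell 0 41943040 0 33554432 536870912 50465866 (c0_Bphk1.row false 20971520)

theorem h0_0Bphk1 : ∃ t, chk3 f0Bphk1 t 1 1 1 = true :=
  ⟨(c (b (a (l 10) (c (l 10) (l 10))) (a (c (l 5) (l 8)) (c (l 10) (l 10)))) (b (b (a (l 10) (l 10)) (a (l 8) (c (l 10) (l 10)))) (a (c (l 8) (l 8)) (c (a (l 10) (l 10)) (l 10))))), by decide +kernel⟩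

theorem ct_0Bphk1 : ∃ t, chk3 f0Bphk1 t 1 1 1 = true := h0_0Bphk1

noncomputable def f0Bplk2 : ℕ → ℕ → ℕ → ℕ → Bool :=
  onCell 0 41943040 0 33554432 536870912 50465866 (c0_Bplk2.row false 20971520)

theorem h0_0Bplk2 : ∃ t, chk3 f0Bplk2 t 1 1 1 = true :=
  ⟨(c (b (a (l 10) (l 10)) (a (l 8) (l 10))) (b (a (l 10) (l 5)) (a (c (l 8) (l 8)) (c (l 10) (l 5))))), by decide +kernel⟩

theorem ct_0Bplk2 : ∃ t, chk3 f0Bplk2 t 1 1 1 = true := h0_0Bplk2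

noncomputable def f0Bphk2 : ℕ → ℕ → ℕ → ℕ → Bool :=
  onCell 0 41943040 0 33554432 536870912 50465866 (c0_Bphk2.row false 20971520)

theorem h0_0Bphk2 : ∃ t, chk3 f0Bphk2 t 1 1 1 = true :=
  ⟨(c (b (a (l 10) (l 10)) (a (l 8) (c (l 10) (l 10)))) (b (a (l 10) (c (l 10) (l 10))) (a (c (l 8) (l 8)) (c (l 10) (l 10))))), by decide +kernel⟩

theorem ct_0Bphk2 : ∃ t, chk3 f0Bphk2 t 1 1 1 = true := h0_0Bphk2

noncomputable def f0Bplk3 : ℕ → ℕ → ℕ → ℕ → Bool :=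
  onCell 0 41943040 0 33554432 536870912 50465866 (c0_Bplk3.row false 20971520)

theorem h0_0Bplk3 : ∃ t, chk3 f0Bplk3 t 1 1 1 = true :=
  ⟨(c (a (l 10) (b (l 10) (l 10))) (b (a (l 10) (l 5)) (a (l 8) (l 10)))), by decide +kernel⟩

theorem ct_0Bplk3 : ∃ t, chk3 f0Bplk3 t 1 1 1 = true := h0_0Bplk3

noncomputable def f0Bphk3 : ℕ → ℕ → ℕ → ℕ → Bool :=
  onCell 0 41943040 0 33554432 536870912 50465866 (c0_Bphk3.row false 20971520)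

theorem h0_0Bphk3 : ∃ t, chk3 f0Bphk3 t 1 1 1 = true :=
  ⟨(c (a (l 10) (b (l 10) (l 10))) (b (a (l 10) (l 10)) (a (l 8) (l 10)))), by decide +kernel⟩

theorem ct_0Bphk3 : ∃ t, chk3 f0Bphk3 t 1 1 1 = true := h0_0Bphk3

noncomputable def f0Bml : ℕ → ℕ → ℕ → ℕ → Bool :=
  onCell 0 41943040 0 33554432 536870912 50465866 (c0_Bml.row true 20971520)

theorem h0_0Bml : ∃ t, chk3 f0Bml t 1 1 1 = true :=
  ⟨(c (b (a (b (a (c (c (l 8) (l 8)) (l 8)) (c (c (l 10) (l 10)) (l 5))) (c (a (c (l 10) (l 10)) (a (c (l 10) (l 5)) (l 5))) (l 5))) (b (c (a (c (a (l 10) (l 5)) (l 5)) (l 5)) (l 5)) (l 5))) (a (b (c (a (c (l 10) (l 5)) (l 5)) (l 5)) (l 5)) (l 5))) (l 5)), by decide +kernel⟩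

theorem ct_0Bml : ∃ t, chk3 f0Bml t 1 1 1 = true := h0_0Bml

noncomputable def f0Bmh : ℕ → ℕ → ℕ → ℕ → Bool :=
  onCell 0 41943040 0 33554432 536870912 50465866 (c0_Bmh.row true 20971520)

theorem h0_0Bmh : ∃ t, chk3 f0Bmh t 1 1 2 = true :=
  ⟨(b (a (b (a (c (c (l 8) (l 8)) (c (l 8) (l 8))) (c (c (l 10) (l 10)) (c (l 10) (l 10)))) (c (a (c (l 10) (l 10)) (c (l 10) (l 10))) (a (c (l 10) (l 10)) (c (l 10) (l 10))))) (b (c (a (c (l 10) (l 10)) (c (l 2) (a (l 2) (l 2)))) (a (b (c (l 10) (l 10)) (c (l 2) (l 2))) (c (a (l 2) (l 2)) (l 2)))) (c (a (c (l 2) (l 2)) (a (c (l 2) (l 2)) (l 1))) (a (b (c (l 2) (a (l 2) (l 2))) (c (a (l 2) (l 2)) (l 2))) (b (c (l 2) (l 2)) (l 1)))))) (a (c (b (a (c (l 10) (l 10)) (c (a (l 2) (l 2)) (a (l 2) (l 2)))) (a (c (a (l 10) (l 2)) (a (l 10) (l 2))) (c (a (l 2) (l 2)) (a (l 2) (l 2))))) (b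 (a (c (a (l 10) (l 10)) (a (l 10) (l 10))) (c (a (l 10) (l 2)) (a (l 10) (l 2)))) (a (c (a (l 10) (l 10)) (a (l 10) (l 10))) (c (a (l 2) (l 2)) (a (l 2) (l 2)))))) (b (a (a (c (c (l 2) (l 2)) (c (l 2) (l 2))) (l 1)) (l 1)) (l 1)))), by decide +kernel⟩

theorem h1_0Bmh : ∃ t, chk3 f0Bmh t 1 1 3 = true :=
  ⟨(b (a (b (a (c (c (l 8) (l 8)) (c (l 8) (a (l 8) (l 8)))) (c (c (l 10) (l 10)) (c (l 10) (l 10)))) (c (a (c (l 10) (l 10)) (c (a (l 10) (l 10)) (a (l 10) (l 10)))) (a (b (c (l 8) (l 8)) (c (l 10) (l 10))) (c (a (l 10) (l 10)) (a (l 10) (l 10)))))) (b (c (a (c (a (l 10) (l 2)) (l 10)) (c (l 2) (l 2))) (a (c (l 10) (l 10)) (c (l 2) (l 2)))) (c (a (c (a (l 2) (l 2)) (a (l 2) (l 2))) (b (c (l 2) (l 2)) (l 1))) (a (c (a (l 2) (l 2)) (l 2)) (b (c (l 2) (l 2)) (l 1)))))) (a (b (c (a (c (a (l 10) (l 10)) (a (l 10) (l 10)))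 (c (a (l 10) (l 2)) (a (l 10) (b (l 2) (l 2))))) (a (c (a (l 10) (l 10)) (a (l 10) (b (l 10) (l 10)))) (c (a (b (l 10) (l 2)) (l 2)) (a (l 10) (l 2))))) (c (a (c (a (l 10) (l 10)) (a (l 10) (b (l 10) (l 2)))) (c (a (l 2) (b (l 2) (l 1))) (a (b (l 2) (l 2)) (b (l 2) (l 1))))) (a (c (a (b (l 10) (l 10)) (b (l 10) (l 2))) (a (b (l 10) (l 10)) (b (l 10) (l 2)))) (c (a (b (l 2) (l 2)) (b (l 2) (l 1))) (a (b (l 2) (l 2)) (b (l 2) (l 1))))))) (b (a (a (c (c (b (l 2) (l 2)) (l 2)) (c (l 2) (l 2))) (l 1)) (l 1)) (l 1)))), by decide +kernel⟩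

theorem h2_0Bmh : ∃ t, chk3 f0Bmh t 1 1 1 = true := ex3_c h0_0Bmh h1_0Bmh

theorem ct_0Bmh : ∃ t, chk3 f0Bmh t 1 1 1 = true := h2_0Bmh

end Pool.Agent.Strip051.G.I5000_5470.Tab.Mo
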