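import Pool.Agent.Strip051.G.I5000_5470.MolD

/-! # The tight charts of a table: certificates (generated) -/

set_option linter.all false
set_option maxRecDepth 100000

namespace Pool.Agent.Strip051.G.I5000_5470.Tab.Mo

open Pool.Agent.Strip051.PB Pool.Agent.Strip051.PB.Mol Pool.Agent.Strip051.PB.T
open Pool.Agent.Strip051.G.I5000_5470.Tab

noncomputable def f2Apl : ℕ → ℕ → ℕ → ℕ → Bool :=
  onCell 0 41943040 0 33554432 536870912 50465866 (c2_Apl.row false 20971520)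

theorem h0_2Apl : ∃ t, chk3 f2Apl t 1 1 1 = true :=
  ⟨(c (b (a (b (c (a (l 8) (l 10)) (a (l 8) (l 5))) (c (a (l 10) (l 10)) (l 5))) (b (c (a (l 10) (l 5)) (l 5)) (l 5))) (a (b (c (a (l 10) (l 5)) (l 5)) (l 5)) (l 5))) (l 5)), by decide +kernel⟩

theorem ct_2Apl : ∃ t, chk3 f2Apl t 1 1 1 = true := h0_2Apl

noncomputable def f2Aph : ℕ → ℕ → ℕ → ℕ → Bool :=
  onCell 0 41943040 0 33554432 536870912 50465866 (c2_Aph.row false 20971520)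

theorem h0_2Aph : ∃ t, chk3 f2Aph t 1 1 2 = true :=
  ⟨(b (a (b (c (a (l 8) (l 10)) (a (l 8) (l 10))) (c (a (l 10) (l 10)) (a (l 10) (c (l 10) (l 10))))) (c (b (a (l 10) (c (l 2) (a (l 2) (c (l 2) (l 2))))) (a (c (l 2) (l 2)) (a (c (l 2) (l 2)) (l 1)))) (b (b (a (c (l 10) (a (l 10) (l 2))) (c (a (l 2) (l 2)) (l 2))) (a (c (l 2) (a (l 2) (l 2))) (c (a (l 2) (l 2)) (l 2)))) (a (c (a (l 2) (b (l 2) (l 2))) (b (a (l 2) (l 2)) (l 2))) (b (c (l 2) (l 2)) (l 1)))))) (a (c (b (a (l 10) (c (l 2) (l 2))) (a (c (l 10) (l 10)) (c (a (l 2) (l 2)) (l 2)))) (b (a (c (l 10) (l 10)) (c (l 2) (l 2))) (a (c (a (l 10) (l 2)) (l 10)) (c (l 2) (l 2))))) (b (c (a (c (l 2) (a (l 2) (l 1))) (l 1)) (a (a (c (l 2) (l 2)) (l 1)) (l 1))) (l 1)))), by decide +kernel⟩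

theorem h1_2Aph : ∃ t, chk3 f2Aph t 1 1 3 = true :=
  ⟨(b (a (b (c (a (l 8) (b (c (l 10) (a (l 8) (l 10))) (c (a (l 10) (l 10)) (a (l 10) (l 10))))) (a (b (c (l 8) (a (l 8) (l 8))) (c (a (l 8) (l 8)) (a (l 8) (l 8)))) (c (b (a (l 8) (l 10)) (l 10)) (l 10)))) (c (a (c (l 10) (l 10)) (c (a (l 10) (b (l 2) (l 2))) (a (l 10) (l 2)))) (a (b (c (a (l 8) (l 8)) (l 8)) (c (l 10) (l 10))) (c (a (l 10) (l 2)) (l 10))))) (b (c (a (c (b (a (l 10) (l 2)) (l 2)) (l 10)) (l 2)) (a (l 10) (l 2))) (c (a (c (a (l 2) (l 2)) (l 2)) (l 2)) (a (l 2) (l 2))))) (a (c (a (b (c (l 10) (l 10)) (c (l 10) (l 10))) (b (c (a (l 2) (l 2)) (a (l 2) (l 2))) (c (l 2) (a (l 2) (l 2))))) (b (a (c (a (l 10) (l 10)) (a (l 10) (l 10))) (c (a (l 2) (l 2)) (l 2))) (a (c (a (l 10) (l 2)) (a (l 10) (l 2))) (c (a (l 2) (l 2)) (l 2))))) (b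 (a (c (c (a (l 2) (l 1)) (l 2)) (l 2)) (l 1)) (l 1)))), by decide +kernel⟩

theorem h2_2Aph : ∃ t, chk3 f2Aph t 1 1 1 = true := ex3_c h0_2Aph h1_2Aph

theorem ct_2Aph : ∃ t, chk3 f2Aph t 1 1 1 = true := h2_2Aph

noncomputable def f2Aplk1 : ℕ → ℕ → ℕ → ℕ → Bool :=
  onCell 0 41943040 0 33554432 536870912 50465866 (c2_Aplk1.row false 20971520)

theorem h0_2Aplk1 : ∃ t, chk3 f2Aplk1 t 1 1 1 = true :=
  ⟨(c (b (a (b (c (l 10) (a (l 8) (l 5))) (c (a (l 10) (l 10)) (l 5))) (b (c (a (l 10) (l 5)) (l 5)) (l 5))) (a (b (c (a (l 10) (l 5)) (l 5)) (l 5)) (l 5))) (l 5)), by decide +kernel⟩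

theorem ct_2Aplk1 : ∃ t, chk3 f2Aplk1 t 1 1 1 = true := h0_2Aplk1

noncomputable def f2Aphk1 : ℕ → ℕ → ℕ → ℕ → Bool :=
  onCell 0 41943040 0 33554432 536870912 50465866 (c2_Aphk1.row false 20971520)

theorem h0_2Aphk1 : ∃ t, chk3 f2Aphk1 t 1 1 2 = true :=
  ⟨(b (a (b (c (l 10) (a (l 8) (l 10))) (c (a (l 10) (l 10)) (a (l 10) (l 10)))) (c (b (a (l 10) (c (l 2) (b (l 2) (a (l 2) (l 2))))) (a (l 2) (a (l 2) (l 1)))) (b (b (a (c (l 10) (a (l 10) (l 2))) (c (a (l 2) (l 2)) (l 2))) (a (c (l 2) (a (l 2) (l 2))) (c (a (l 2) (l 2)) (l 2)))) (a (c (a (l 2) (l 2)) (a (l 2) (l 2))) (b (c (l 2) (l 2)) (l 1)))))) (a (c (b (a (l 10) (c (l 2) (l 2))) (a (c (l 10) (l 10)) (c (l 2) (l 2)))) (b (a (c (l 10) (l 10)) (c (l 2) (l 2))) (a (c (l 10) (l 10)) (c (l 2) (l 2))))) (b (c (a (c (l 2) (l 2)) (l 1)) (a (a (c (l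 2) (l 2)) (l 1)) (l 1))) (l 1)))), by decide +kernel⟩

theorem h1_2Aphk1 : ∃ t, chk3 f2Aphk1 t 1 1 3 = true :=
  ⟨(b (a (b (c (a (l 8) (c (l 10) (a (l 10) (l 10)))) (a (b (c (l 8) (l 8)) (c (l 8) (l 8))) (b (c (l 10) (l 10)) (l 10)))) (c (a (l 10) (c (a (l 10) (l 2)) (l 10))) (a (a (c (l 8) (l 8)) (l 10)) (c (l 10) (l 10))))) (b (c (a (c (a (b (l 10) (l 2)) (l 2)) (l 10)) (l 2)) (l 10)) (c (a (c (l 2) (l 2)) (l 2)) (l 2)))) (a (c (a (b (c (l 10) (l 10)) (l 10)) (b (c (l 2) (a (l 2) (l 2))) (c (l 2) (l 2)))) (b (a (c (l 10) (a (l 10) (l 10))) (c (a (l 2) (l 2)) (l 2))) (a (c (l 10) (l 10)) (c (l 2) (l 2))))) (b (c (a (c (a (l 2) (l 1)) (l 2)) (l 1)) (l 2)) (l 1)))), by decide +kernel⟩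

theorem h2_2Aphk1 : ∃ t, chk3 f2Aphk1 t 1 1 1 = true := ex3_c h0_2Aphk1 h1_2Aphk1

theorem ct_2Aphk1 : ∃ t, chk3 f2Aphk1 t 1 1 1 = true := h2_2Aphk1

noncomputable def f2Aplk2 : ℕ → ℕ → ℕ → ℕ → Bool :=
  onCell 0 41943040 0 33554432 536870912 50465866 (c2_Aplk2.row false 20971520)

theorem h0_2Aplk2 : ∃ t, chk3 f2Aplk2 t 1 1 1 = true :=
  ⟨(c (b (a (c (l 10) (a (l 10) (l 5))) (b (c (a (l 10) (l 5)) (l 5)) (l 5))) (a (b (c (a (l 10) (l 5)) (l 5)) (l 5)) (l 5))) (l 5)), by decide +kernel⟩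

theorem ct_2Aplk2 : ∃ t, chk3 f2Aplk2 t 1 1 1 = true := h0_2Aplk2

noncomputable def f2Aphk2 : ℕ → ℕ → ℕ → ℕ → Bool :=
  onCell 0 41943040 0 33554432 536870912 50465866 (c2_Aphk2.row false 20971520)

theorem h0_2Aphk2 : ∃ t, chk3 f2Aphk2 t 1 1 1 = true :=
  ⟨(c (b (a (c (a (l 10) (l 10)) (a (l 10) (l 10))) (c (a (l 10) (c (l 2) (b (l 2) (a (l 2) (l 1))))) (b (b (a (c (l 10) (l 10)) (c (l 2) (l 2))) (a (c (l 2) (l 2)) (c (l 2) (l 2)))) (a (c (l 2) (a (l 2) (l 2))) (c (l 2) (l 2)))))) (a (c (b (a (l 10) (l 2)) (a (l 10) (l 2))) (b (a (l 10) (l 2)) (a (l 10) (l 2)))) (b (c (a (l 2) (l 1)) (a (l 2) (l 1))) (l 1)))) (b (a (b (c (a (l 8) (c (l 10) (l 10))) (a (c (l 8) (l 8)) (c (l 10) (l 10)))) (c (a (l 10) (c (l 10) (l 10))) (a (c (l 10) (l 10)) (l 10)))) (c (a (b (c (a (l 10) (l 2)) (l 10)) (l 2))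 (l 2)) (l 10))) (a (c (a (b (l 10) (l 10)) (b (l 2) (c (l 2) (l 2)))) (b (a (l 10) (l 2)) (a (c (l 10) (l 10)) (c (l 2) (l 2))))) (b (c (a (c (l 2) (l 2)) (l 1)) (l 2)) (l 1))))), by decide +kernel⟩

theorem ct_2Aphk2 : ∃ t, chk3 f2Aphk2 t 1 1 1 = true := h0_2Aphk2

noncomputable def f2Aplk3 : ℕ → ℕ → ℕ → ℕ → Bool :=
  onCell 0 41943040 0 33554432 536870912 50465866 (c2_Aplk3.row false 20971520)

theorem h0_2Aplk3 : ∃ t, chk3 f2Aplk3 t 1 1 1 = true :=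
  ⟨(c (a (b (c (l 10) (l 10)) (b (c (l 10) (l 5)) (l 5))) (b (b (c (a (l 10) (l 5)) (l 5)) (l 5)) (l 5))) (l 5)), by decide +kernel⟩

theorem ct_2Aplk3 : ∃ t, chk3 f2Aplk3 t 1 1 1 = true := h0_2Aplk3

noncomputable def f2Aphk3 : ℕ → ℕ → ℕ → ℕ → Bool :=
  onCell 0 41943040 0 33554432 536870912 50465866 (c2_Aphk3.row false 20971520)

theorem h0_2Aphk3 : ∃ t, chk3 f2Aphk3 t 1 1 1 = true :=
  ⟨(c (a (b (c (l 10) (l 10)) (c (a (l 10) (l 2)) (a (l 10) (l 10)))) (b (b (c (a (l 10) (l 2)) (a (c (l 10) (l 10)) (c (l 2) (l 2)))) (c (a (l 2) (c (l 2) (l 2))) (a (c (l 2) (l 2)) (l 2)))) (c (a (l 2) (l 1)) (b (a (l 2) (l 1)) (l 1))))) (b (a (b (c (a (l 8) (l 10)) (a (l 8) (l 10))) (c (a (l 10) (c (l 10) (l 10))) (a (c (l 10) (l 10)) (l 10)))) (c (a (b (c (l 10) (l 10)) (l 2)) (l 2)) (l 10))) (a (c (a (l 10)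 (b (l 2) (l 2))) (a (l 10) (b (l 2) (l 2)))) (b (c (a (l 2) (l 1)) (l 2)) (l 1))))), by decide +kernel⟩

theorem ct_2Aphk3 : ∃ t, chk3 f2Aphk3 t 1 1 1 = true := h0_2Aphk3

noncomputable def f2Aml : ℕ → ℕ → ℕ → ℕ → Bool :=
  onCell 0 41943040 0 33554432 536870912 50465866 (c2_Aml.row true 20971520)

theorem h0_2Aml : ∃ t, chk3 f2Aml t 1 1 1 = true :=
  ⟨(c (b (a (b (b (c (a (c (l 8) (l 8)) (l 10)) (a (l 8) (l 10))) (c (a (c (l 8) (l 8)) (l 8)) (a (l 8) (l 8)))) (c (a (c (l 8) (l 8)) (c (l 8) (l 8))) (a (c (l 8) (l 8)) (c (l 8) (l 8))))) (b (c (a (c (l 10) (l 10)) (l 5)) (l 5)) (c (a (c (l 10) (l 10)) (c (l 2) (l 5))) (a (c (l 10) (l 5)) (l 5))))) (a (b (a (l 3) (a (l 3) (c (c (l 8) (l 8)) (l 8)))) (l 3)) (c (b (a (c (l 10) (l 10)) (c (l 2) (a (l 2) (l 2)))) (a (c (l 10) (l 10)) (c (l 10) (l 10))))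 (b (a (c (l 10) (a (l 10) (l 10))) (c (a (l 2) (l 5)) (l 5))) (a (c (l 10) (l 10)) (c (a (l 10) (l 2)) (l 10))))))) (b (a (c (b (a (c (l 8) (l 5)) (l 5)) (a (c (l 8) (l 8)) (c (l 8) (l 5)))) (l 5)) (l 5)) (a (b (a (l 3) (c (c (l 8) (a (l 3) (l 5))) (l 5))) (l 3)) (c (a (b (l 5) (a (c (l 8) (l 8)) (l 10))) (l 5)) (l 5))))), by decide +kernel⟩

theorem ct_2Aml : ∃ t, chk3 f2Aml t 1 1 1 = true := h0_2Aml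

noncomputable def f2Amh : ℕ → ℕ → ℕ → ℕ → Bool :=
  onCell 0 41943040 0 33554432 536870912 50465866 (c2_Amh.row true 20971520)

theorem h0_2Amh : ∃ t, chk3 f2Amh t 1 2 2 = true :=
  ⟨(a (b (b (a (c (c (l 5) (l 8)) (c (l 8) (l 8))) (c (c (l 10) (l 10)) (l 10))) (c (a (l 5) (c (l 8) (l 8))) (a (c (l 8) (l 8)) (c (l 8) (l 8))))) (c (a (l 5) (c (l 5) (l 8))) (a (c (l 8) (l 8)) (c (l 8) (l 8))))) (b (c (a (c (l 10) (l 10)) (c (l 2) (a (l 2) (b (c (l 2) (a (l 2) (b (l 2) (l 2)))) (c (l 2) (l 2)))))) (b (a (c (l 10) (a (l 10) (b (c (l 2) (a (l 2) (l 2))) (c (l 2) (a (l 2) (l 2)))))) (c (b (a (c (l 2) (a (l 2) (l 2))) (c (a (l 2) (l 2)) (l 2))) (a (c (l 2) (a (l 2) (l 2))) (c (a (l 2) (l 2)) (l 2)))) (a (c (l 2) (l 2)) (l 2)))) (a (c (l 10) (a (l 10) (c (l 2) (a (l 2) (l 2))))) (c (a (b (c (l 2) (l 2))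 (l 2)) (c (a (l 2) (l 2)) (l 2))) (a (c (l 2) (l 2)) (c (a (l 2) (l 2)) (l 2))))))) (c (a (c (l 10) (l 10)) (c (l 2) (a (l 2) (b (l 2) (l 2))))) (a (c (l 10) (a (l 10) (l 2))) (c (b (a (l 2) (c (l 2) (l 2))) (a (l 2) (l 2))) (b (a (c (l 2) (l 2)) (c (l 2) (a (l 2) (l 2)))) (a (l 2) (c (l 2) (a (l 2) (l 2)))))))))), by decide +kernel⟩

theorem h1_2Amh : ∃ t, chk3 f2Amh t 1 3 2 = true :=
  ⟨(a (b (c (l 5) (a (l 3) (c (l 8) (l 8)))) (l 3)) (c (b (a (c (a (l 5) (l 10)) (l 10)) (c (a (l 2) (l 2)) (a (l 2) (l 2)))) (a (l 5) (c (a (l 5) (l 2)) (a (l 2) (l 2))))) (b (a (c (a (l 10) (l 10)) (a (l 10) (l 10))) (c (a (l 2) (l 2)) (a (l 2) (b (l 2) (l 2))))) (a (c (a (l 5) (l 10)) (a (l 8) (l 10))) (c (a (l 2) (l 2)) (a (l 2) (l 2))))))), by decide +kernel⟩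

theorem h2_2Amh : ∃ t, chk3 f2Amh t 2 2 3 = true :=
  ⟨(b (c (a (c (l 8) (l 8)) (b (c (a (l 8) (c (l 10) (l 10))) (a (c (l 8) (l 8)) (c (a (l 8) (l 10)) (l 10)))) (c (l 8) (a (l 8) (c (l 8) (l 8)))))) (b (a (c (a (l 8) (c (l 8) (l 8))) (b (a (c (l 8) (l 8)) (c (l 8) (l 8))) (a (c (l 8) (l 8)) (c (l 8) (l 8))))) (c (a (c (a (l 8) (l 8)) (l 8)) (l 10)) (l 10))) (a (c (a (l 8) (l 8)) (a (c (l 8) (l 8)) (c (l 8) (l 8)))) (c (a (c (l 8) (l 8)) (c (l 8) (l 8))) (a (c (l 8) (l 8)) (l 8)))))) (c (a (c (l 8) (l 8)) (c (a (l 8) (l 8)) (a (l 8) (c (l 8) (l 8))))) (a (b (c (l 8) (a (l 3) (c (l 8) (l 8)))) (l 3)) (c (a (c (l 8) (l 8)) (b (c (l 8) (l 8)) (l 8))) (b (a (c (l 8) (l 8)) (c (l 8) (l 8))) (a (l 8) (c (l 8) (l 8)))))))), by decide +kernel⟩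

theorem h3_2Amh : ∃ t, chk3 f2Amh t 3 2 3 = true :=
  ⟨(c (b (a (b (c (a (b (c (l 10) (a (l 10) (l 2))) (c (l 10) (a (l 10) (l 2)))) (c (l 2) (l 2))) (a (c (l 10) (l 10)) (l 2))) (c (a (c (l 10) (a (l 10) (l 2))) (c (l 2) (l 2))) (a (c (l 10) (l 10)) (c (l 2) (l 2))))) (b (l 2) (c (a (c (l 2) (l 2)) (l 2)) (l 2)))) (a (c (a (l 10) (b (c (l 2) (l 2)) (l 2))) (b (a (c (l 10) (l 10)) (c (l 2) (l 2))) (a (l 10) (c (l 2) (l 2))))) (b (c (a (c (l 2) (a (l 2) (l 2))) (b (l 2) (c (l 2) (l 2)))) (l 2)) (c (a (c (l 2) (l 2)) (b (c (l 2) (l 2)) (c (l 2) (l 2)))) (a (b (c (l 2) (l 2)) (c (l 2) (l 2))) (l 2)))))) (b (b (a (l 10) (l 2)) (a (l 10) (l 2))) (a (b (c (a (c (l 10) (l 10)) (l 2)) (l 10)) (c (a (c (l 10) (l 10)) (b (c (l 2) (l 2)) (l 2))) (a (c (l 10) (l 10)) (l 2)))) (c (l 2) (l 2))))), by decide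 +kernel⟩

theorem h4_2Amh : ∃ t, chk3 f2Amh t 1 3 3 = true :=
  ⟨(a (b (a (l 3) (a (l 3) (c (c (l 8) (l 8)) (c (l 8) (b (c (l 8) (l 8)) (l 8)))))) (l 3)) (c (a (b (c (a (l 10) (l 10)) (b (a (l 10) (l 10)) (l 10))) (c (a (l 8) (l 10)) (a (l 8) (l 10)))) (b (c (b (a (l 2) (c (l 2) (l 2))) (a (l 2) (l 2))) (b (a (c (l 2) (l 2)) (c (l 2) (l 2))) (a (l 2) (c (l 2) (l 2))))) (c (a (l 2) (l 2)) (b (a (l 2) (c (l 2) (l 2))) (l 10))))) (b (a (c (b (a (l 10) (c (l 10) (l 10))) (a (l 8) (l 10))) (b (a (c (l 10) (l 10)) (c (l 10) (l 10))) (a (c (l 8) (l 8)) (c (l 10) (l 10))))) (c (b (a (c (l 2) (l 2)) (l 2)) (a (c (l 2) (l 2)) (l 2))) (l 2))) (a (c (a (l 8) (l 10)) (a (l 8) (b (c (l 10) (l 10)) (l 10)))) (c (b (a (c (l 2) (l 2)) (c (l 2) (l 2))) (a (l 10) (c (l 2) (l 2)))) (b (a (c (l 2) (l 2)) (l 2)) (a (c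 (l 10) (l 10)) (l 2)))))))), by decide +kernel⟩

theorem h5_2Amh : ∃ t, chk3 f2Amh t 1 2 3 = true := ex3_a h2_2Amh h3_2Amh

theorem h6_2Amh : ∃ t, chk3 f2Amh t 1 1 3 = true := ex3_b h5_2Amh h4_2Amh

theorem h7_2Amh : ∃ t, chk3 f2Amh t 1 1 2 = true := ex3_b h0_2Amh h1_2Amh

theorem h8_2Amh : ∃ t, chk3 f2Amh t 1 1 1 = true := ex3_c h7_2Amh h6_2Amh

theorem ct_2Amh : ∃ t, chk3 f2Amh t 1 1 1 = true := h8_2Amh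

noncomputable def f2Bpl : ℕ → ℕ → ℕ → ℕ → Bool :=
  onCell 0 41943040 0 33554432 536870912 50465866 (c2_Bpl.row false 20971520)

theorem h0_2Bpl : ∃ t, chk3 f2Bpl t 1 2 1 = true :=
  ⟨(c (a (b (b (a (c (c (l 8) (l 8)) (c (l 8) (l 8))) (c (c (l 10) (l 10)) (c (l 10) (l 5)))) (c (a (c (l 8) (l 8)) (c (l 8) (l 8))) (a (c (l 8) (l 8)) (c (l 8) (l 5))))) (c (a (b (c (l 8) (l 8)) (l 3)) (b (c (l 8) (l 8)) (c (a (l 8) (l 8)) (a (l 8) (l 8))))) (a (b (c (l 8) (l 8)) (l 3)) (b (c (l 8) (l 8)) (c (a (l 8) (l 8)) (a (l 8) (l 8))))))) (b (c (a (b (c (l 10) (l 5)) (c (l 10) (l 10))) (l 5)) (l 5)) (c (a (b (c (a (l 10) (l 2)) (a (l 10) (l 2))) (c (a (l 10) (l 2)) (a (l 10) (l 2)))) (c (b (a (l 2) (l 5)) (a (l 2) (l 2))) (l 5))) (a (c (b (l 5) (a (l 10) (l 5))) (l 5)) (l 5))))) (a (c (b (a (b (l 5) (c (l 8) (l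 5))) (l 5)) (a (b (c (l 8) (l 8)) (l 3)) (c (a (b (l 5) (l 8)) (l 5)) (l 5)))) (l 5)) (l 5))), by decide +kernel⟩

theorem h1_2Bpl : ∃ t, chk3 f2Bpl t 2 3 2 = true :=
  ⟨(b (a (l 3) (c (a (l 3) (c (b (l 8) (l 8)) (b (l 8) (l 8)))) (a (l 3) (c (b (l 8) (l 8)) (b (l 8) (l 8)))))) (l 3)), by decide +kernel⟩

theorem h2_2Bpl : ∃ t, chk3 f2Bpl t 3 3 4 = true :=
  ⟨(b (a (c (b (a (l 10) (l 2)) (a (l 10) (l 2))) (b (a (l 10) (l 2)) (a (l 10) (l 2)))) (c (b (a (l 2) (l 2)) (a (l 2) (l 2))) (a (b (l 2) (l 2)) (b (l 5) (c (l 2) (l 5)))))) (a (b (c (a (l 10) (l 2)) (a (l 10) (l 2))) (a (l 3) (a (l 3) (c (b (l 2) (c (l 2) (l 2))) (c (l 2) (l 2)))))) (b (c (a (l 2) (c (l 2) (l 2))) (a (c (l 2) (l 2)) (c (l 2) (a (l 2) (l 2))))) (c (b (a (l 2) (l 2)) (a (b (l 2) (c (a (l 2) (l 2)) (a (l 2) (l 2)))) (b (c (l 2)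 (l 2)) (c (a (c (l 2) (l 2)) (b (l 2) (a (l 2) (c (l 2) (l 2))))) (a (c (l 2) (l 2)) (b (l 2) (a (l 2) (c (l 2) (l 2))))))))) (a (b (l 2) (b (l 2) (c (a (l 2) (l 2)) (a (l 2) (l 2))))) (b (c (l 2) (l 2)) (c (b (l 2) (a (c (l 2) (l 2)) (b (l 2) (a (l 2) (c (l 2) (c (l 2) (l 2))))))) (a (b (l 2) (c (l 2) (a (l 2) (l 2)))) (b (l 2) (b (l 2) (a (c (l 2) (l 2)) (c (l 2) (l 2))))))))))))), by decide +kernel⟩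

theorem h3_2Bpl : ∃ t, chk3 f2Bpl t 3 3 5 = true :=
  ⟨(b (a (c (b (a (l 10) (l 2)) (a (l 10) (l 2))) (a (b (l 10) (c (l 10) (l 10))) (b (l 5) (c (l 2) (l 5))))) (c (a (b (l 5) (c (l 2) (l 5))) (l 5)) (l 5))) (a (b (c (a (l 10) (c (l 2) (l 2))) (a (c (l 10) (l 10)) (c (l 2) (l 2)))) (a (l 3) (c (b (l 2) (c (l 2) (l 2))) (a (l 3) (c (b (l 2) (l 2)) (l 2)))))) (c (b (a (c (l 2) (a (l 2) (l 2))) (c (l 2) (l 5))) (a (b (c (l 2) (l 2)) (c (a (l 2) (c (l 2) (l 2))) (a (c (l 2) (l 2)) (l 2)))) (b (c (l 2) (l 5)) (c (b (l 2) (a (c (l 2) (l 2)) (b (l 2) (a (l 2) (c (l 2) (l 5)))))) (a (b (l 2) (c (l 2) (l 2))) (l 5)))))) (a (b (l 5) (b (l 2) (b (l 2) (c (a (l 2) (l 2)) (a (l 2) (l 5)))))) (l 5))))), by decide +kernel⟩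

theorem h4_2Bpl : ∃ t, chk3 f2Bpl t 1 3 3 = true :=
  ⟨(a (b (a (l 3) (c (a (l 3) (c (b (l 8) (c (l 8) (l 8))) (l 5))) (l 5))) (l 3)) (c (a (b (l 5) (c (b (a (c (l 10) (l 10)) (l 5)) (a (l 3) (c (a (l 3) (l 2)) (l 5)))) (a (b (l 5) (l 3)) (l 5)))) (l 5)) (l 5))), by decide +kernel⟩

theorem h5_2Bpl : ∃ t, chk3 f2Bpl t 3 3 2 = true := ex3_c h2_2Bpl h3_2Bpl

theorem h6_2Bpl : ∃ t, chk3 f2Bpl t 1 3 2 = true := ex3_a h1_2Bpl h5_2Bpl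

theorem h7_2Bpl : ∃ t, chk3 f2Bpl t 1 3 1 = true := ex3_c h6_2Bpl h4_2Bpl

theorem h8_2Bpl : ∃ t, chk3 f2Bpl t 1 1 1 = true := ex3_b h0_2Bpl h7_2Bpl

theorem ct_2Bpl : ∃ t, chk3 f2Bpl t 1 1 1 = true := h8_2Bpl

noncomputable def f2Bph : ℕ → ℕ → ℕ → ℕ → Bool :=
  onCell 0 41943040 0 33554432 536870912 50465866 (c2_Bph.row false 20971520)

theorem h0_2Bph : ∃ t, chk3 f2Bph t 2 2 2 = true :=
  ⟨(c (b (b (a (l 8) (l 10)) (a (l 5) (l 8))) (a (l 5) (c (l 5) (l 8)))) (b (b (a (l 8) (l 10)) (a (l 8) (l 8))) (a (c (l 8) (l 8)) (c (l 8) (l 8))))), by decide +kernel⟩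

theorem h1_2Bph : ∃ t, chk3 f2Bph t 3 2 4 = true :=
  ⟨(b (b (a (l 10) (c (l 2) (a (l 2) (c (l 2) (a (l 2) (c (l 2) (l 2))))))) (a (l 10) (c (l 2) (b (a (l 2) (c (l 2) (l 2))) (l 2))))) (a (c (l 10) (l 10)) (c (l 2) (a (l 2) (b (l 2) (l 2)))))), by decide +kernel⟩

theorem h2_2Bph : ∃ t, chk3 f2Bph t 3 2 5 = true :=
  ⟨(b (b (a (c (l 10) (a (l 10) (b (b (c (a (l 2) (l 2)) (a (l 2) (l 2))) (c (l 2) (a (l 2) (l 2)))) (c (l 2) (a (l 2) (l 2)))))) (c (b (a (b (c (l 2) (a (l 2) (l 2))) (c (l 2) (a (l 2) (l 2)))) (c (a (c (l 2) (l 2)) (l 2)) (l 2))) (a (c (l 2) (a (l 2) (l 2))) (c (a (c (l 2) (l 2)) (l 2)) (l 2)))) (a (b (c (l 2) (l 2)) (c (l 2) (l 2))) (l 2)))) (a (c (l 10) (a (l 10) (c (l 2) (a (l 2) (l 2))))) (c (a (b (c (l 2) (a (l 2) (l 2))) (l 2)) (c (a (l 2) (l 2)) (a (l 2) (l 2)))) (b (a (c (l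 2) (l 2)) (c (a (l 2) (l 2)) (l 2))) (a (c (l 2) (l 2)) (c (a (l 2) (l 2)) (l 2))))))) (a (c (a (l 10) (l 2)) (a (l 10) (b (l 2) (l 2)))) (c (b (a (l 2) (c (l 2) (l 2))) (a (l 2) (c (l 2) (l 2)))) (b (a (c (l 2) (a (l 2) (l 2))) (b (c (a (l 2) (l 2)) (a (l 2) (l 2))) (c (a (l 2) (l 2)) (a (l 2) (l 2))))) (a (l 2) (c (l 2) (a (l 2) (l 2)))))))), by decide +kernel⟩

theorem h3_2Bph : ∃ t, chk3 f2Bph t 1 3 2 = true :=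
  ⟨(a (b (c (l 5) (a (l 3) (a (l 3) (c (l 8) (l 8))))) (l 3)) (c (b (a (b (c (l 10) (l 10)) (c (l 5) (l 10))) (c (a (l 2) (l 2)) (a (l 2) (b (l 2) (l 2))))) (a (l 5) (c (b (l 2) (l 5)) (a (b (l 2) (l 5)) (b (l 2) (l 2)))))) (b (a (c (a (l 10) (l 10)) (a (l 10) (b (l 2) (l 10)))) (c (a (b (l 2) (l 2)) (b (l 2) (l 2))) (a (l 2) (b (l 2) (l 2))))) (a (c (b (l 10) (a (l 3) (l 2))) (a (b (l 10) (l 3)) (b (l 10) (l 10)))) (c (a (b (l 2) (l 2)) (b (l 2) (l 2))) (b (l 2) (a (l 2) (l 2)))))))), by decide +kernel⟩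

theorem h4_2Bph : ∃ t, chk3 f2Bph t 2 2 3 = true :=
  ⟨(b (c (a (c (l 8) (l 8)) (b (c (a (l 8) (c (l 10) (l 10))) (b (a (c (l 8) (l 8)) (c (a (l 8) (l 10)) (l 10))) (a (c (l 8) (l 8)) (c (a (l 8) (l 8)) (l 8))))) (c (l 8) (a (l 8) (c (a (l 8) (l 8)) (l 8)))))) (b (a (c (a (l 8) (c (l 8) (a (l 8) (l 8)))) (b (a (c (l 8) (a (l 8) (l 8))) (c (a (l 8) (l 8)) (l 8))) (a (c (l 8) (l 8)) (c (a (l 8) (l 8)) (l 8))))) (c (a (c (a (l 8) (l 8)) (l 8)) (c (l 10) (l 10))) (l 10))) (a (c (b (a (l 8) (l 8)) (l 8)) (a (c (l 8) (l 8)) (c (a (l 8) (l 8)) (l 8)))) (c (a (c (a (l 8) (l 8)) (l 8)) (c (l 8) (a (l 8) (l 8)))) (a (c (l 8) (l 8)) (l 8)))))) (c (a (c (l 8) (l 8)) (c (a (l 8) (l 8)) (a (l 8) (c (l 8) (l 8))))) (a (b (c (l 8) (a (l 3) (c (l 8) (l 8)))) (l 3)) (c (a (c (l 8) (l 8)) (b (c (l 8) (a (l 8) (l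 8))) (c (l 8) (l 8)))) (b (a (c (l 8) (a (l 8) (l 8))) (c (a (l 8) (l 8)) (l 8))) (a (c (l 8) (l 8)) (b (c (l 8) (l 8)) (c (l 8) (l 8))))))))), by decide +kernel⟩

theorem h5_2Bph : ∃ t, chk3 f2Bph t 3 2 6 = true :=
  ⟨(a (b (b (c (a (b (b (c (a (l 10) (l 2)) (a (l 10) (l 2))) (c (a (l 10) (l 2)) (a (l 10) (l 2)))) (c (a (l 10) (l 2)) (a (l 10) (l 2)))) (c (l 2) (l 2))) (b (l 10) (a (c (l 10) (l 10)) (l 2)))) (c (a (c (l 10) (a (l 10) (l 2))) (c (l 2) (a (l 2) (l 2)))) (b (a (c (l 10) (l 10)) (l 2)) (a (c (l 10) (l 10)) (c (l 2) (l 2)))))) (c (a (b (l 10) (l 10)) (b (c (l 2) (a (l 2) (l 2))) (c (l 2) (l 2)))) (b (a (c (l 10) (a (l 10) (l 10))) (b (c (a (l 2) (l 2)) (l 2)) (c (a (l 2) (l 2)) (a (l 2) (l 2))))) (a (c (l 10) (l 10)) (b (c (l 2) (l 2)) (c (l 2) (l 2))))))) (b (b (l 2) (c (a (b (l 2)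 (c (a (l 2) (l 2)) (l 2))) (l 2)) (l 2))) (b (c (a (b (c (a (l 2) (l 2)) (a (l 2) (l 2))) (c (a (l 2) (l 2)) (a (l 2) (l 2)))) (b (l 2) (c (a (l 2) (l 2)) (l 2)))) (l 2)) (c (a (c (l 2) (a (l 2) (l 2))) (b (c (l 2) (l 2)) (c (l 2) (l 2)))) (a (b (c (l 2) (l 2)) (c (l 2) (l 2))) (l 2)))))), by decide +kernel⟩

theorem h6_2Bph : ∃ t, chk3 f2Bph t 3 2 7 = true :=
  ⟨(b (b (a (l 10) (l 2)) (a (l 10) (l 2))) (a (b (c (a (b (c (l 10) (l 10)) (c (l 10) (a (l 10) (l 10)))) (l 2)) (l 10)) (c (a (b (c (l 10) (l 10)) (c (l 10) (l 10))) (c (a (l 2) (l 2)) (l 2))) (a (b (l 10) (c (l 10) (l 10))) (l 2)))) (c (l 2) (l 2)))), by decide +kernel⟩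

theorem h7_2Bph : ∃ t, chk3 f2Bph t 2 3 3 = true :=
  ⟨(b (c (a (l 3) (a (l 3) (c (l 8) (b (l 8) (l 8))))) (a (l 3) (a (l 3) (c (l 8) (b (c (l 8) (l 8)) (l 8)))))) (l 3)), by decide +kernel⟩

theorem h8_2Bph : ∃ t, chk3 f2Bph t 3 3 6 = true :=
  ⟨(a (b (c (a (b (l 10) (l 10)) (l 10)) (b (a (l 10) (c (l 2) (l 10))) (l 10))) (c (a (b (l 10) (l 3)) (b (l 10) (l 10))) (b (l 10) (a (l 3) (l 10))))) (b (c (b (a (c (l 2) (l 2)) (c (a (l 2) (l 2)) (a (l 2) (l 2)))) (a (l 2) (c (l 2) (l 2)))) (b (a (c (a (l 2) (l 2)) (a (l 2) (l 2))) (c (a (l 2) (l 2)) (l 2))) (a (c (l 2) (l 2)) (c (a (l 2) (l 2)) (a (l 2) (l 2)))))) (c (b (l 2) (a (l 2) (l 2))) (a (b (l 2) (l 2)) (b (c (l 2) (a (l 2) (l 2))) (l 2)))))), by decide +kernel⟩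

theorem h9_2Bph : ∃ t, chk3 f2Bph t 3 3 7 = true :=
  ⟨(b (a (c (b (a (c (l 10) (l 10)) (c (a (l 10) (l 2)) (a (l 10) (l 2)))) (a (l 10) (c (l 10) (a (l 10) (l 2))))) (b (a (c (a (l 8) (l 10)) (a (l 8) (l 10))) (c (l 10) (l 10))) (a (c (l 10) (l 10)) (c (a (l 10) (l 2)) (l 10))))) (c (b (a (b (l 2) (c (l 2) (l 2))) (l 2)) (a (c (a (l 2) (l 2)) (a (l 2) (l 2))) (c (l 2) (l 2)))) (l 2))) (a (c (b (a (l 10) (l 10)) (a (l 3) (l 10))) (b (a (c (l 10) (l 10)) (c (l 10) (a (l 10) (l 2)))) (a (l 3) (c (l 10) (l 10))))) (c (b (a (c (l 2) (a (l 2) (l 2))) (c (a (l 2) (l 2)) (l 2))) (a (c (l 2) (l 2)) (c (a (l 2) (l 2)) (a (l 2) (l 2))))) (b (a (c (a (l 2) (l 2)) (l 2)) (l 2)) (a (c (a (l 2) (l 2)) (a (l 2) (l 2))) (c (l 2) (l 2))))))), by decide +kernel⟩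

theorem h10_2Bph : ∃ t, chk3 f2Bph t 3 3 3 = true := ex3_c h8_2Bph h9_2Bph

theorem h11_2Bph : ∃ t, chk3 f2Bph t 1 3 3 = true := ex3_a h7_2Bph h10_2Bph

theorem h12_2Bph : ∃ t, chk3 f2Bph t 3 2 3 = true := ex3_c h5_2Bph h6_2Bph

theorem h13_2Bph : ∃ t, chk3 f2Bph t 1 2 3 = true := ex3_a h4_2Bph h12_2Bph

theorem h14_2Bph : ∃ t, chk3 f2Bph t 1 1 3 = true := ex3_b h13_2Bph h11_2Bph

theorem h15_2Bph : ∃ t, chk3 f2Bph t 3 2 2 = true := ex3_c h1_2Bph h2_2Bph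

theorem h16_2Bph : ∃ t, chk3 f2Bph t 1 2 2 = true := ex3_a h0_2Bph h15_2Bph

theorem h17_2Bph : ∃ t, chk3 f2Bph t 1 1 2 = true := ex3_b h16_2Bph h3_2Bph

theorem h18_2Bph : ∃ t, chk3 f2Bph t 1 1 1 = true := ex3_c h17_2Bph h14_2Bph

theorem ct_2Bph : ∃ t, chk3 f2Bph t 1 1 1 = true := h18_2Bph

noncomputable def f2Bplk1 : ℕ → ℕ → ℕ → ℕ → Bool :=
  onCell 0 41943040 0 33554432 536870912 50465866 (c2_Bplk1.row false 20971520)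

theorem h0_2Bplk1 : ∃ t, chk3 f2Bplk1 t 1 2 1 = true :=
  ⟨(c (a (b (b (a (c (l 8) (c (l 8) (l 8))) (c (c (l 10) (l 10)) (c (l 10) (l 5)))) (c (a (c (l 8) (l 8)) (c (l 8) (l 8))) (a (c (l 8) (l 8)) (c (l 8) (l 5))))) (c (a (b (c (l 8) (l 8)) (l 3)) (b (c (l 8) (l 8)) (c (l 8) (l 8)))) (a (b (c (l 8) (l 8)) (l 3)) (b (c (l 8) (l 8)) (c (l 8) (l 8)))))) (b (c (a (b (c (l 10) (l 5)) (c (l 10) (l 10))) (l 5)) (l 5)) (c (a (b (c (l 10) (l 10)) (c (l 10) (l 10))) (c (a (l 2) (l 2)) (l 5))) (a (c (a (l 10) (l 5)) (l 5)) (l 5))))) (a (c (b (a (c (l 8) (l 5)) (l 5)) (a (b (c (l 8) (l 8)) (l 3)) (c (a (l 8) (l 5)) (l 5)))) (l 5)) (l 5))), by decide +kernel⟩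

theorem h1_2Bplk1 : ∃ t, chk3 f2Bplk1 t 1 3 2 = true :=
  ⟨(a (b (a (l 3) (c (a (l 3) (c (l 8) (l 8))) (a (l 3) (c (b (l 8) (l 8)) (b (l 8) (l 8)))))) (l 3)) (c (b (a (c (a (b (l 10) (l 10)) (l 2)) (b (a (l 10) (l 2)) (a (l 10) (l 2)))) (c (b (a (l 2) (l 2)) (a (l 2) (l 2))) (a (b (l 2) (l 2)) (c (l 2) (l 5))))) (a (b (c (a (l 10) (l 2)) (a (l 10) (l 2))) (a (l 3) (c (c (a (l 3) (l 2)) (l 2)) (c (l 2) (l 2))))) (b (c (a (l 2) (l 2)) (a (l 2) (c (l 2) (l 2)))) (c (b (a (l 2) (l 2)) (a (c (l 2) (l 2)) (c (a (l 2) (l 2)) (a (l 2) (l 2))))) (a (b (l 2) (c (l 2) (l 2))) (b (l 2) (c (a (l 2) (l 2)) (a (l 2) (l 2))))))))) (b (a (c (b (a (l 10) (l 2)) (a (l 10) (l 2))) (a (b (l 10) (l 10)) (b (l 5) (c (l 2) (l 5))))) (c (a (c (l 2) (l 5)) (l 5)) (l 5))) (a (b (c (a (l 10) (l 2)) (a (l 10) (c (l 2) (l 2))))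 (a (l 3) (c (c (l 2) (l 2)) (c (l 2) (l 2))))) (c (b (a (c (l 2) (l 2)) (c (l 2) (l 5))) (a (c (a (l 2) (l 2)) (a (l 2) (l 2))) (b (l 2) (c (a (l 2) (l 2)) (l 2))))) (a (b (l 5) (c (l 2) (l 2))) (l 5))))))), by decide +kernel⟩

theorem h2_2Bplk1 : ∃ t, chk3 f2Bplk1 t 1 3 3 = true :=
  ⟨(a (b (c (a (l 3) (a (l 3) (c (b (l 8) (l 8)) (l 5)))) (a (l 3) (l 5))) (l 3)) (c (a (b (l 5) (c (b (a (c (l 10) (l 10)) (l 5)) (a (l 3) (c (l 2) (l 5)))) (a (b (l 5) (l 3)) (l 5)))) (l 5)) (l 5))), by decide +kernel⟩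

theorem h3_2Bplk1 : ∃ t, chk3 f2Bplk1 t 1 3 1 = true := ex3_c h1_2Bplk1 h2_2Bplk1

theorem h4_2Bplk1 : ∃ t, chk3 f2Bplk1 t 1 1 1 = true := ex3_b h0_2Bplk1 h3_2Bplk1

theorem ct_2Bplk1 : ∃ t, chk3 f2Bplk1 t 1 1 1 = true := h4_2Bplk1

noncomputable def f2Bphk1 : ℕ → ℕ → ℕ → ℕ → Bool :=
  onCell 0 41943040 0 33554432 536870912 50465866 (c2_Bphk1.row false 20971520)

theorem h0_2Bphk1 : ∃ t, chk3 f2Bphk1 t 1 2 2 = true :=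
  ⟨(a (c (b (a (c (l 5) (l 8)) (l 10)) (a (l 5) (c (l 5) (l 8)))) (b (a (l 8) (l 10)) (a (c (l 8) (l 8)) (c (l 8) (l 8))))) (c (b (a (l 10) (c (l 2) (a (l 2) (c (l 2) (b (a (l 2) (b (l 2) (l 2))) (l 2)))))) (a (c (l 10) (l 10)) (c (l 2) (a (l 2) (l 2))))) (b (b (a (c (l 10) (a (l 10) (b (c (l 2) (a (l 2) (l 2))) (c (l 2) (a (l 2) (l 2)))))) (c (b (a (c (l 2) (a (l 2) (l 2))) (c (a (l 2) (l 2)) (l 2))) (a (c (l 2) (a (l 2) (l 2))) (c (a (l 2) (l 2)) (l 2)))) (a (c (l 2) (l 2)) (l 2)))) (a (c (l 10) (a (l 10) (c (l 2) (a (l 2) (l 2))))) (c (a (b (c (l 2) (l 2)) (l 2)) (c (a (l 2) (l 2)) (l 2))) (b (a (c (l 2) (l 2)) (c (l 2) (l 2))) (a (l 2) (c (l 2) (l 2))))))) (a (c (l 10) (a (l 10) (l 2))) (c (a (l 2) (c (l 2) (b (l 2) (l 2)))) (b (a (c (l 2) (l 2)) (b (c (l 2) (l 2)) (c (l 2) (l 2)))) (a (l 2)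 (b (c (l 2) (l 2)) (l 2))))))))), by decide +kernel⟩

theorem h1_2Bphk1 : ∃ t, chk3 f2Bphk1 t 1 3 2 = true :=
  ⟨(a (b (c (l 5) (a (l 3) (c (l 8) (l 8)))) (l 3)) (c (b (a (c (l 10) (l 10)) (c (l 2) (a (l 2) (l 2)))) (a (l 5) (c (a (l 5) (l 2)) (b (l 2) (a (l 5) (l 2)))))) (b (a (c (a (l 10) (l 10)) (a (l 10) (l 10))) (c (a (l 2) (l 2)) (a (l 2) (b (l 2) (l 2))))) (a (c (a (l 5) (l 10)) (a (l 10) (b (l 10) (l 10)))) (c (a (b (l 2) (l 2)) (b (l 2) (l 2))) (a (l 2) (l 2))))))), by decide +kernel⟩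

theorem h2_2Bphk1 : ∃ t, chk3 f2Bphk1 t 2 2 3 = true :=
  ⟨(b (c (a (l 8) (b (c (a (l 8) (l 10)) (b (a (c (l 8) (l 8)) (c (a (l 8) (l 10)) (l 10))) (a (l 8) (c (l 8) (l 8))))) (c (l 8) (a (l 8) (c (l 8) (l 8)))))) (b (a (c (a (l 8) (c (l 8) (l 8))) (b (a (c (l 8) (l 8)) (c (l 8) (l 8))) (a (c (l 8) (l 8)) (c (l 8) (l 8))))) (c (a (c (a (l 8) (l 8)) (l 8)) (l 10)) (l 10))) (a (c (a (l 8) (l 8)) (a (c (l 8) (l 8)) (c (l 8) (l 8)))) (c (a (c (l 8) (l 8)) (c (l 8) (l 8))) (a (c (l 8) (l 8)) (l 8)))))) (c (a (c (l 8) (l 8)) (c (l 8) (a (l 8) (c (l 8) (l 8))))) (a (b (c (l 8) (a (l 3) (c (l 8) (l 8)))) (l 3)) (c (a (c (l 8) (l 8)) (b (c (l 8) (l 8)) (l 8))) (b (a (c (l 8) (l 8)) (c (l 8) (l 8))) (a (c (l 8) (l 8)) (c (l 8) (a (l 8) (l 8))))))))), by decide +kernel⟩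

theorem h3_2Bphk1 : ∃ t, chk3 f2Bphk1 t 3 2 3 = true :=
  ⟨(c (a (b (b (c (a (b (c (a (l 10) (l 2)) (a (l 10) (l 2))) (c (l 10) (a (l 10) (l 2)))) (c (l 2) (l 2))) (b (l 10) (a (l 10) (l 2)))) (c (a (c (l 10) (a (l 10) (l 2))) (c (l 2) (l 2))) (b (a (l 10) (l 2)) (a (l 10) (c (l 2) (l 2)))))) (c (a (l 10) (b (c (l 2) (l 2)) (l 2))) (b (a (c (l 10) (l 10)) (c (l 2) (a (l 2) (l 2)))) (a (l 10) (c (l 2) (a (l 2) (l 2))))))) (b (b (l 2) (c (a (c (l 2) (l 2)) (l 2)) (l 2))) (b (c (a (b (c (l 2) (l 2)) (c (l 2) (l 2))) (b (l 2) (c (a (l 2) (l 2)) (l 2)))) (l 2)) (c (a (c (l 2) (a (l 2) (l 2))) (b (c (l 2) (l 2)) (c (l 2) (l 2)))) (a (b (c (l 2) (l 2)) (c (l 2) (l 2))) (l 2)))))) (b (a (l 10) (l 2)) (a (b (c (a (c (l 10) (l 10)) (l 2)) (l 10)) (c (a (c (l 10) (a (l 8) (l 10))) (c (a (l 2) (l 2)) (l 2)))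 (a (b (l 10) (l 10)) (l 2)))) (c (l 2) (l 2))))), by decide +kernel⟩

theorem h4_2Bphk1 : ∃ t, chk3 f2Bphk1 t 1 3 3 = true :=
  ⟨(a (b (c (a (l 3) (a (l 3) (c (l 8) (l 8)))) (a (l 3) (a (l 3) (c (l 8) (b (c (l 8) (l 8)) (l 8)))))) (l 3)) (c (a (b (c (a (l 10) (l 10)) (b (a (l 10) (c (l 2) (l 10))) (l 10))) (c (a (b (l 10) (l 3)) (l 10)) (a (l 10) (l 10)))) (b (c (b (a (l 2) (c (l 2) (a (l 2) (l 2)))) (a (l 2) (c (l 2) (l 2)))) (b (a (c (l 2) (a (l 2) (l 2))) (c (l 2) (l 2))) (a (c (l 2) (l 2)) (c (l 2) (l 2))))) (c (a (l 2) (l 2)) (a (l 2) (b (c (l 2) (l 2)) (l 2)))))) (b (a (c (b (a (c (l 10) (l 10)) (c (l 10) (l 10))) (a (l 10) (c (l 10) (l 10)))) (b (a (c (l 10) (l 10)) (c (l 10) (l 10))) (a (c (l 10) (l 10)) (c (l 10) (l 10))))) (c (b (a (c (l 2) (l 2)) (l 2)) (a (c (l 2) (l 2)) (c (l 2) (l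 2)))) (l 2))) (a (c (b (a (l 10) (l 10)) (l 10)) (b (a (l 10) (c (l 10) (l 10))) (a (l 3) (c (l 10) (l 10))))) (c (b (a (c (l 2) (l 2)) (c (l 2) (l 2))) (a (l 2) (c (l 2) (l 2)))) (b (a (c (l 2) (l 2)) (l 2)) (a (c (l 2) (l 2)) (c (l 2) (l 2))))))))), by decide +kernel⟩

theorem h5_2Bphk1 : ∃ t, chk3 f2Bphk1 t 1 2 3 = true := ex3_a h2_2Bphk1 h3_2Bphk1

theorem h6_2Bphk1 : ∃ t, chk3 f2Bphk1 t 1 1 3 = true := ex3_b h5_2Bphk1 h4_2Bphk1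

theorem h7_2Bphk1 : ∃ t, chk3 f2Bphk1 t 1 1 2 = true := ex3_b h0_2Bphk1 h1_2Bphk1

theorem h8_2Bphk1 : ∃ t, chk3 f2Bphk1 t 1 1 1 = true := ex3_c h7_2Bphk1 h6_2Bphk1

theorem ct_2Bphk1 : ∃ t, chk3 f2Bphk1 t 1 1 1 = true := h8_2Bphk1

noncomputable def f2Bplk2 : ℕ → ℕ → ℕ → ℕ → Bool :=
  onCell 0 41943040 0 33554432 536870912 50465866 (c2_Bplk2.row false 20971520)

theorem h0_2Bplk2 : ∃ t, chk3 f2Bplk2 t 1 1 1 = true :=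
  ⟨(c (b (a (c (b (a (l 8) (l 10)) (a (c (l 8) (l 8)) (c (l 8) (l 8)))) (b (a (l 8) (l 10)) (a (c (l 8) (l 8)) (c (l 8) (l 8))))) (b (c (a (c (l 10) (l 10)) (l 5)) (l 5)) (c (a (c (l 10) (l 10)) (c (l 2) (l 5))) (a (c (l 10) (l 5)) (l 5))))) (a (b (c (a (l 3) (c (l 10) (l 10))) (a (l 3) (c (l 8) (l 8)))) (l 3)) (c (b (a (c (l 10) (l 10)) (c (l 2) (a (l 2) (l 2)))) (a (b (c (l 10) (l 10)) (c (a (l 3) (l 2)) (l 10))) (b (c (l 2) (l 2)) (c (a (l 2) (l 2)) (a (l 2) (l 2)))))) (b (a (c (l 10) (a (l 10) (l 10))) (c (a (l 2) (l 5)) (l 5))) (a (c (a (l 10) (l 2)) (a (l 10) (b (l 2) (l 2)))) (c (a (b (l 2) (l 2)) (b (l 2) (l 2))) (a (l 2) (l 5)))))))) (b (a (c (b (a (l 8) (l 5)) (a (c (l 8) (l 8)) (c (l 8) (l 5)))) (l 5)) (l 5)) (a (b (c (a (l 3) (a (l 3) (c (l 8) (l 5)))) (a (l 3) (l 5))) (l 3)) (c (a (b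 (l 5) (c (a (b (l 10) (l 3)) (l 10)) (a (l 10) (l 5)))) (l 5)) (l 5))))), by decide +kernel⟩

theorem ct_2Bplk2 : ∃ t, chk3 f2Bplk2 t 1 1 1 = true := h0_2Bplk2

noncomputable def f2Bphk2 : ℕ → ℕ → ℕ → ℕ → Bool :=
  onCell 0 41943040 0 33554432 536870912 50465866 (c2_Bphk2.row false 20971520)

theorem h0_2Bphk2 : ∃ t, chk3 f2Bphk2 t 1 1 2 = true :=
  ⟨(b (a (c (b (a (l 8) (l 10)) (a (l 5) (l 8))) (b (l 10) (a (l 8) (l 8)))) (c (b (a (l 10) (c (l 2) (b (a (l 2) (c (l 2) (l 2))) (l 2)))) (a (l 10) (c (l 2) (l 2)))) (b (b (a (c (l 10) (a (l 10) (c (l 2) (l 2)))) (c (b (b (a (c (l 2) (l 2)) (c (l 2) (l 2))) (a (c (l 2) (l 2)) (c (l 2) (l 2)))) (a (c (l 2) (l 2)) (c (l 2) (l 2)))) (a (l 2) (l 2)))) (a (c (l 10) (b (a (l 10) (l 2)) (l 10))) (c (a (l 2) (c (l 2) (l 2))) (a (l 2) (l 2))))) (a (c (l 10) (l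 10)) (c (b (a (l 2) (c (l 2) (l 2))) (l 2)) (a (l 2) (b (l 2) (l 2)))))))) (a (b (c (l 5) (a (l 3) (l 8))) (l 3)) (c (b (a (l 10) (c (l 2) (l 2))) (a (l 5) (c (l 2) (l 2)))) (b (a (c (l 10) (l 10)) (c (a (l 2) (l 2)) (a (l 2) (l 2)))) (a (c (l 10) (l 10)) (c (a (l 2) (l 2)) (l 2))))))), by decide +kernel⟩

theorem h1_2Bphk2 : ∃ t, chk3 f2Bphk2 t 1 2 3 = true :=
  ⟨(a (b (c (a (l 8) (b (c (l 10) (a (l 8) (c (l 10) (l 10)))) (c (l 8) (a (l 8) (c (l 8) (l 8)))))) (b (a (b (c (l 8) (a (l 8) (l 8))) (c (l 8) (a (l 8) (l 8)))) (c (a (c (l 8) (l 8)) (l 10)) (l 10))) (a (c (l 8) (a (l 8) (c (l 8) (l 8)))) (c (a (c (l 8) (l 8)) (l 8)) (a (l 8) (l 8)))))) (c (a (l 8) (c (l 8) (b (a (l 8) (l 8)) (l 8)))) (a (b (c (l 8) (a (l 3) (l 8))) (l 3)) (c (a (b (l 8) (l 8)) (l 8)) (a (l 8) (b (l 8) (l 8))))))) (c (a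 (b (b (c (a (c (l 10) (l 10)) (l 2)) (a (l 10) (l 2))) (c (a (c (l 10) (l 10)) (l 2)) (a (l 10) (l 2)))) (c (a (l 10) (l 2)) (a (l 10) (b (l 2) (l 2))))) (b (b (l 2) (c (a (l 2) (l 2)) (l 2))) (b (c (a (l 2) (c (l 2) (l 2))) (l 2)) (c (a (l 2) (c (l 2) (l 2))) (a (c (l 2) (l 2)) (l 2)))))) (b (l 10) (a (b (c (a (l 10) (l 2)) (l 10)) (c (a (l 10) (l 2)) (a (l 10) (l 2)))) (l 2))))), by decide +kernel⟩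

theorem h2_2Bphk2 : ∃ t, chk3 f2Bphk2 t 1 3 3 = true :=
  ⟨(a (b (c (a (l 3) (c (l 8) (l 8))) (a (l 3) (c (l 8) (b (a (l 3) (l 8)) (l 8))))) (l 3)) (c (a (b (c (a (l 10) (l 10)) (b (a (l 10) (l 2)) (l 10))) (c (l 10) (l 10))) (b (c (b (a (l 2) (c (l 2) (l 2))) (l 2)) (b (a (c (l 2) (l 2)) (c (l 2) (l 2))) (a (l 2) (l 2)))) (c (l 2) (b (a (l 2) (l 2)) (l 2))))) (b (a (c (b (a (l 10) (l 10)) (a (l 10) (l 10))) (b (a (l 10) (c (l 10) (l 2))) (a (l 10) (l 10)))) (c (b (a (c (l 2) (l 2)) (l 2)) (a (l 2) (l 2))) (l 2))) (a (c (l 10) (b (a (l 10) (l 10)) (l 10))) (c (b (a (l 2) (l 2)) (a (l 2) (l 2))) (b (a (l 2) (l 2)) (a (l 2) (l 2)))))))), by decide +kernel⟩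

theorem h3_2Bphk2 : ∃ t, chk3 f2Bphk2 t 1 1 3 = true := ex3_b h1_2Bphk2 h2_2Bphk2

theorem h4_2Bphk2 : ∃ t, chk3 f2Bphk2 t 1 1 1 = true := ex3_c h0_2Bphk2 h3_2Bphk2

theorem ct_2Bphk2 : ∃ t, chk3 f2Bphk2 t 1 1 1 = true := h4_2Bphk2

noncomputable def f2Bplk3 : ℕ → ℕ → ℕ → ℕ → Bool :=
  onCell 0 41943040 0 33554432 536870912 50465866 (c2_Bplk3.row false 20971520)

theorem h0_2Bplk3 : ∃ t, chk3 f2Bplk3 t 1 1 1 = true :=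
  ⟨(c (b (a (b (c (l 10) (l 10)) (c (a (l 8) (l 8)) (l 10))) (b (c (a (l 10) (l 5)) (l 5)) (c (a (l 10) (c (l 2) (l 5))) (a (c (l 10) (l 5)) (l 5))))) (a (b (c (a (l 3) (l 8)) (a (l 3) (l 8))) (l 3)) (c (b (a (l 10) (c (l 2) (l 2))) (a (l 10) (c (l 2) (l 2)))) (b (b (a (l 10) (l 5)) (a (c (l 10) (l 10)) (c (l 2) (l 5)))) (a (c (l 10) (l 10)) (c (l 2) (l 2))))))) (b (a (c (a (l 8) (b (l 5) (c (l 8) (l 5)))) (l 5)) (l 5)) (a (b (c (a (l 3) (c (l 8) (l 8))) (a (l 3) (l 5))) (l 3)) (c (a (b (l 5) (c (l 10) (l 10))) (l 5)) (l 5))))), by decide +kernel⟩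

theorem ct_2Bplk3 : ∃ t, chk3 f2Bplk3 t 1 1 1 = true := h0_2Bplk3

noncomputable def f2Bphk3 : ℕ → ℕ → ℕ → ℕ → Bool :=
  onCell 0 41943040 0 33554432 536870912 50465866 (c2_Bphk3.row false 20971520)

theorem h0_2Bphk3 : ∃ t, chk3 f2Bphk3 t 1 1 2 = true :=
  ⟨(b (a (c (a (l 8) (l 10)) (l 10)) (c (c (l 10) (b (a (l 10) (b (a (l 2) (l 2)) (l 2))) (l 10))) (b (b (a (c (l 10) (a (l 10) (c (l 2) (l 2)))) (c (b (a (l 2) (c (l 2) (l 2))) (a (l 2) (c (l 2) (l 2)))) (l 2))) (a (c (l 10) (a (l 10) (l 2))) (c (a (l 2) (c (l 2) (l 2))) (l 2)))) (a (l 10) (c (b (a (l 2) (l 2)) (l 2)) (a (l 2) (l 2))))))) (a (b (c (l 5) (l 10)) (l 3)) (c (a (b (l 10) (l 5)) (b (l 2) (l 2))) (b (a (l 10) (c (l 2) (l 2))) (a (l 10) (c (l 2) (l 2))))))), by decide +kernel⟩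

theorem h1_2Bphk3 : ∃ t, chk3 f2Bphk3 t 1 1 3 = true :=
  ⟨(b (a (c (a (l 8) (b (c (l 10) (a (l 8) (b (l 10) (l 8)))) (c (l 8) (l 8)))) (b (b (a (c (l 8) (a (l 8) (l 8))) (c (a (l 8) (l 10)) (l 10))) (a (c (l 8) (a (l 8) (l 8))) (c (a (l 8) (l 8)) (l 8)))) (a (b (c (l 8) (l 8)) (l 3)) (c (a (l 8) (l 8)) (l 8))))) (c (a (b (c (a (b (l 10) (l 10)) (l 2)) (a (l 10) (l 2))) (c (a (l 10) (l 2)) (a (l 10) (l 2)))) (b (b (l 2) (c (l 2) (l 2))) (b (c (a (l 2) (l 2)) (l 2)) (c (a (l 2) (l 2)) (a (l 2) (l 2)))))) (b (l 10) (a (b (c (l 10) (l 10)) (c (l 10) (l 10))) (l 2))))) (a (b (c (a (l 3) (l 8)) (a (l 3) (c (l 8) (l 8)))) (l 3)) (c (a (c (b (l 10) (l 10)) (b (l 10) (l 10))) (b (c (a (l 2) (l 2)) (a (l 2) (b (l 2) (l 2)))) (c (l 2) (l 2)))) (b (a (b (c (l 10) (l 10)) (c (l 10) (a (l 10) (l 10)))) (c (b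 (a (l 2) (l 2)) (a (l 2) (l 2))) (l 2))) (a (c (l 10) (a (l 10) (l 10))) (c (a (l 2) (l 2)) (a (l 2) (l 2)))))))), by decide +kernel⟩

theorem h2_2Bphk3 : ∃ t, chk3 f2Bphk3 t 1 1 1 = true := ex3_c h0_2Bphk3 h1_2Bphk3

theorem ct_2Bphk3 : ∃ t, chk3 f2Bphk3 t 1 1 1 = true := h2_2Bphk3

noncomputable def f2Bml : ℕ → ℕ → ℕ → ℕ → Bool :=
  onCell 0 41943040 0 33554432 536870912 50465866 (c2_Bml.row true 20971520)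

theorem h0_2Bml : ∃ t, chk3 f2Bml t 1 1 1 = true :=
  ⟨(c (b (a (b (c (a (b (c (a (l 8) (l 8)) (a (l 8) (l 8))) (c (a (l 8) (l 8)) (a (l 8) (l 8)))) (b (c (a (l 8) (l 10)) (a (l 8) (l 5))) (c (a (l 10) (l 10)) (l 5)))) (a (b (c (a (l 8) (l 8)) (a (l 8) (l 5))) (c (a (l 8) (l 5)) (l 5))) (l 5))) (c (a (b (c (a (l 8) (l 8)) (a (l 8) (l 8))) (c (a (l 8) (l 10)) (a (l 8) (l 5)))) (b (c (a (l 10) (l 5)) (l 5)) (l 5))) (l 5))) (b (b (c (a (c (a (l 10) (l 5)) (l 5)) (l 5)) (l 5)) (l 5)) (l 5))) (a (b (c (a (c (a (b (l 10) (l 10)) (l 5)) (l 5)) (l 5)) (l 5)) (l 5)) (l 5))) (l 5)), by decide +kernel⟩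

theorem ct_2Bml : ∃ t, chk3 f2Bml t 1 1 1 = true := h0_2Bml

noncomputable def f2Bmh : ℕ → ℕ → ℕ → ℕ → Bool :=
  onCell 0 41943040 0 33554432 536870912 50465866 (c2_Bmh.row true 20971520)

theorem h0_2Bmh : ∃ t, chk3 f2Bmh t 2 2 2 = true :=
  ⟨(b (c (a (b (c (l 8) (l 8)) (c (l 8) (l 8))) (b (c (l 10) (l 10)) (c (l 10) (l 10)))) (a (b (c (l 8) (l 8)) (c (l 8) (l 8))) (b (c (l 10) (l 10)) (c (l 10) (a (l 10) (c (l 10) (l 10))))))) (c (a (b (c (l 8) (l 8)) (c (l 10) (l 10))) (b (c (l 10) (l 10)) (c (l 10) (a (l 10) (l 2))))) (a (b (c (l 8) (l 8)) (c (l 10) (a (l 8) (c (l 10) (l 10))))) (b (c (a (l 10) (l 2)) (a (c (l 10) (l 10)) (c (l 2) (a (l 2) (l 2))))) (c (a (l 10) (c (l 2) (l 2))) (a (c (a (l 10) (l 2)) (a (l 10) (l 2))) (c (l 2) (l 2)))))))), by decide +kernel⟩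

theorem h1_2Bmh : ∃ t, chk3 f2Bmh t 3 2 4 = true :=
  ⟨(b (a (b (c (l 10) (l 10)) (c (l 2) (a (l 2) (l 2)))) (c (b (a (l 2) (l 2)) (a (l 2) (a (l 2) (l 1)))) (b (a (l 2) (b (b (c (a (l 2) (b (l 4) (c (l 2) (l 2)))) (a (c (l 2) (a (l 2) (l 2))) (c (a (l 2) (l 2)) (l 2)))) (c (a (l 2) (c (l 2) (a (l 2) (l 2)))) (a (c (l 2) (a (l 2) (l 2))) (l 2)))) (c (a (l 2) (b (a (l 2) (l 1)) (l 1))) (a (c (a (l 2) (l 2)) (l 2)) (c (l 2) (l 2)))))) (a (c (l 2) (a (l 2) (l 2))) (b (a (c (l 2) (l 2)) (l 1)) (l 1)))))) (a (b (c (a (l 2) (l 2)) (a (l 2) (c (l 2) (a (l 2) (l 2))))) (c (a (l 2) (b (l 2) (l 2))) (a (c (l 2) (a (l 2) (l 2))) (c (a (l 2) (l 2)) (l 2))))) (a (b (a (c (l 2) (c (l 2) (l 2))) (l 1)) (l 1)) (l 1)))), by decide +kernel⟩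

theorem h2_2Bmh : ∃ t, chk3 f2Bmh t 3 8 5 = true :=
  ⟨(a (c (a (l 10) (c (l 2) (a (l 2) (b (l 2) (c (l 2) (a (l 2) (l 2))))))) (b (a (c (l 10) (a (l 10) (c (l 2) (a (l 2) (l 2))))) (b (c (a (l 2) (c (a (l 2) (l 2)) (a (l 2) (l 2)))) (a (c (a (l 2) (l 2)) (l 2)) (l 2))) (c (a (c (l 2) (l 2)) (c (a (l 2) (l 2)) (l 2))) (a (c (a (l 2) (l 2)) (l 2)) (l 2))))) (a (c (l 2) (a (l 2) (c (l 2) (a (l 2) (l 2))))) (c (a (c (l 2) (a (l 2) (l 2))) (l 2)) (a (l 2) (l 2)))))) (c (b (a (b (c (a (l 2) (c (l 2) (a (l 2) (l 2)))) (a (c (l 2) (a (l 2) (l 2))) (l 2))) (c (a (l 2) (c (l 2) (a (l 2) (l 2)))) (a (c (a (l 2) (l 2)) (l 2)) (l 2)))) (c (a (b (b (b (l 4) (l 2)) (l 2)) (l 2)) (l 2)) (l 2))) (a (c (a (c (l 2) (l 2)) (b (c (l 2) (l 2)) (l 2))) (a (b (c (a (l 2) (l 2)) (l 2)) (l 2)) (l 2))) (c (a (l 2) (l 2))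 (l 2)))) (l 2))), by decide +kernel⟩

theorem h3_2Bmh : ∃ t, chk3 f2Bmh t 3 9 5 = true :=
  ⟨(a (c (a (l 2) (c (l 2) (a (l 2) (c (l 2) (l 2))))) (a (c (l 2) (a (l 2) (l 2))) (b (c (a (c (l 2) (l 2)) (l 2)) (a (l 2) (l 2))) (c (a (l 2) (l 2)) (a (l 2) (l 2)))))) (c (a (b (c (a (c (l 2) (l 2)) (l 2)) (a (l 2) (l 2))) (c (a (l 2) (c (l 2) (l 2))) (a (c (l 2) (l 2)) (l 2)))) (b (c (a (c (l 2) (l 2)) (l 1)) (l 2)) (l 1))) (l 2))), by decide +kernel⟩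

theorem h4_2Bmh : ∃ t, chk3 f2Bmh t 3 5 5 = true :=
  ⟨(a (c (a (b (c (l 2) (a (l 2) (l 2))) (c (a (l 2) (l 2)) (l 2))) (b (c (a (l 2) (l 2)) (a (l 2) (l 2))) (c (l 2) (l 2)))) (b (a (c (a (l 2) (l 2)) (a (l 2) (l 2))) (c (a (l 2) (b (l 2) (l 2))) (a (b (l 2) (l 2)) (l 2)))) (a (c (l 2) (a (l 2) (l 2))) (c (a (l 2) (l 2)) (a (l 2) (l 2)))))) (b (c (a (a (c (l 2) (b (l 2) (l 2))) (l 1)) (l 1)) (l 2)) (l 1))), by decide +kernel⟩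

theorem h5_2Bmh : ∃ t, chk3 f2Bmh t 2 3 2 = true :=
  ⟨(c (b (a (c (a (b (l 10) (l 10)) (l 10)) (a (l 10) (l 10))) (c (b (l 2) (a (l 2) (l 2))) (b (a (l 2) (c (l 2) (l 2))) (a (l 2) (c (l 2) (l 2)))))) (a (c (b (a (l 10) (l 2)) (a (l 2) (l 2))) (b (a (l 10) (l 2)) (a (l 2) (c (l 2) (l 2))))) (c (b (a (l 2) (c (l 2) (l 2))) (a (c (l 2) (l 2)) (l 1))) (b (a (c (l 2) (l 2)) (c (l 2) (l 2))) (a (c (l 2) (l 2)) (l 1)))))) (b (a (c (a (l 10) (b (l 10) (c (l 10) (l 10)))) (b (a (l 10) (c (l 10) (l 10))) (a (c (l 10) (l 10)) (c (l 10) (l 10))))) (c (b (a (c (l 2) (l 2)) (c (l 2) (l 2))) (a (c (l 2) (l 2)) (c (l 2) (l 2)))) (b (a (c (l 2) (l 2)) (l 2)) (a (l 2) (l 2))))) (a (c (b (a (l 10) (c (l 2) (l 2))) (a (c (l 2) (l 2)) (c (l 2) (l 2)))) (b (a (c (l 10) (l 10)) (c (l 2) (l 2))) (a (c (l 2) (l 2)) (l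 2)))) (c (b (a (c (l 2) (l 2)) (l 2)) (a (l 2) (l 1))) (b (a (l 2) (l 2)) (a (l 2) (l 1))))))), by decide +kernel⟩

theorem h6_2Bmh : ∃ t, chk3 f2Bmh t 3 3 2 = true :=
  ⟨(b (c (a (a (c (b (c (l 2) (l 2)) (c (l 2) (l 2))) (b (c (l 2) (l 2)) (c (l 2) (l 2)))) (l 1)) (l 1)) (a (a (c (b (l 2) (l 2)) (c (l 2) (b (l 2) (a (l 2) (l 1))))) (l 1)) (l 1))) (l 1)), by decide +kernel⟩

theorem h7_2Bmh : ∃ t, chk3 f2Bmh t 2 4 6 = true :=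
  ⟨(a (b (c (l 8) (a (l 8) (l 8))) (c (l 8) (a (l 8) (c (l 8) (l 8))))) (b (a (c (l 8) (b (c (l 8) (a (l 8) (c (l 8) (l 8)))) (c (a (l 8) (c (l 8) (l 8))) (a (c (l 8) (l 8)) (l 8))))) (c (c (l 10) (b (a (l 8) (c (l 10) (a (l 10) (l 10)))) (a (l 10) (c (a (l 10) (l 2)) (l 10))))) (a (c (b (c (l 8) (a (l 8) (l 8))) (b (c (l 8) (l 8)) (l 10))) (l 10)) (l 10)))) (c (a (c (l 10) (l 10)) (c (a (l 10) (l 2)) (b (a (c (l 10) (l 10)) (l 2)) (a (l 10) (l 2))))) (a (b (c (a (l 8) (c (l 8) (l 8))) (a (c (l 8) (l 8)) (l 8))) (a (c (l 8) (l 8)) (c (l 10) (l 10)))) (c (a (b (l 10) (l 10)) (l 2)) (l 10)))))), by decide +kernel⟩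

theorem h8_2Bmh : ∃ t, chk3 f2Bmh t 2 5 6 = true :=
  ⟨(a (b (c (a (l 8) (c (l 8) (l 8))) (a (c (l 8) (l 8)) (b (c (l 8) (l 8)) (c (l 8) (l 8))))) (c (a (c (l 8) (l 8)) (c (a (l 8) (l 10)) (a (l 8) (l 10)))) (a (c (l 8) (l 8)) (c (l 10) (l 10))))) (c (a (b (c (a (l 10) (l 10)) (a (l 10) (l 10))) (c (l 10) (l 10))) (c (b (a (l 2) (l 2)) (l 2)) (b (a (l 2) (l 2)) (a (l 2) (l 2))))) (b (a (c (a (l 10) (l 10)) (a (l 10) (l 10))) (c (a (l 2) (l 2)) (l 2))) (a (c (l 10) (a (l 10) (l 2))) (c (a (l 2) (l 2)) (l 2)))))), by decide +kernel⟩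

theorem h9_2Bmh : ∃ t, chk3 f2Bmh t 2 2 7 = true :=
  ⟨(b (a (b (c (a (l 8) (b (c (a (l 8) (c (l 8) (l 8))) (b (a (l 8) (c (l 8) (l 8))) (a (c (l 8) (l 8)) (l 8)))) (c (a (l 8) (c (l 8) (l 8))) (a (c (l 8) (l 8)) (l 8))))) (b (a (c (a (l 8) (c (l 8) (l 8))) (a (c (l 8) (l 8)) (l 8))) (c (a (c (l 8) (l 8)) (l 8)) (l 8))) (a (c (a (l 8) (c (l 8) (l 8))) (a (c (l 8) (l 8)) (l 8))) (c (a (l 8) (l 8)) (l 8))))) (c (a (c (l 8) (l 8)) (c (a (l 8) (l 8)) (a (l 8) (b (l 8) (l 8))))) (a (b (c (a (l 8) (l 8)) (a (l 8) (l 8))) (c (a (l 8) (l 8)) (a (l 8) (l 8)))) (c (a (b (l 8) (l 8)) (l 8)) (l 8))))) (c (a (a (c (c (b (b (a (l 8) (l 8)) (l 8)) (l 8)) (l 8)) (l 8)) (l 10)) (l 10)) (l 10))) (a (b (c (a (b (c (l 8) (l 8)) (c (l 8) (l 8))) (c (a (l 8) (l 8)) (a (l 8) (l 8)))) (a (c (a (l 8) (l 8)) (a (l 8) (l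 8))) (c (a (l 8) (l 8)) (l 8)))) (c (a (l 8) (c (a (l 8) (l 10)) (a (l 8) (l 10)))) (a (c (a (l 8) (l 8)) (a (l 8) (l 8))) (a (c (l 8) (l 8)) (l 10))))) (c (a (c (a (b (l 10) (l 10)) (l 10)) (l 10)) (l 2)) (a (l 10) (l 2))))), by decide +kernel⟩

theorem h10_2Bmh : ∃ t, chk3 f2Bmh t 3 2 3 = true :=
  ⟨(b (c (a (c (a (b (b (b (c (a (c (l 10) (l 10)) (c (l 2) (l 2))) (a (c (l 10) (l 10)) (l 2))) (c (a (c (l 2) (l 2)) (l 2)) (a (l 2) (l 2)))) (c (a (c (l 2) (l 2)) (l 2)) (a (l 2) (l 2)))) (b (c (a (l 2) (l 2)) (a (l 2) (l 2))) (c (a (l 2) (c (l 2) (l 2))) (a (c (l 2) (l 2)) (l 2))))) (l 2)) (l 10)) (c (l 2) (l 2))) (b (a (c (l 10) (l 10)) (l 2)) (a (c (l 2) (l 2)) (l 2)))) (c (a (c (a (b (c (a (l 2) (l 2)) (a (l 2) (l 2))) (c (a (l 2) (l 2)) (a (l 2) (l 2)))) (l 2)) (a (l 2) (l 2))) (b (c (l 2) (l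 2)) (l 1))) (a (c (a (l 2) (l 2)) (l 2)) (c (l 2) (l 2))))), by decide +kernel⟩

theorem h11_2Bmh : ∃ t, chk3 f2Bmh t 2 3 3 = true :=
  ⟨(c (a (b (c (b (a (c (l 10) (l 10)) (c (l 10) (l 10))) (a (c (l 10) (l 10)) (l 10))) (b (a (c (l 10) (l 8)) (l 10)) (a (l 10) (l 10)))) (c (b (a (l 10) (l 2)) (a (l 2) (l 2))) (b (a (l 10) (l 2)) (a (l 2) (l 2))))) (b (c (a (b (l 2) (l 2)) (c (l 2) (a (l 2) (b (l 2) (l 2))))) (a (c (b (l 2) (l 2)) (a (l 2) (b (l 2) (l 2)))) (c (a (b (l 2) (l 2)) (l 2)) (l 2)))) (c (a (b (l 2) (l 2)) (a (b (l 2) (l 1)) (l 1))) (a (c (b (l 2) (l 2)) (a (l 2) (l 2))) (b (c (a (l 2) (l 1)) (l 2)) (l 1)))))) (b (a (c (a (b (l 8) (l 10)) (b (c (l 10) (a (l 10) (l 10))) (c (l 10) (a (l 10) (l 2))))) (a (b (c (a (l 8) (l 8)) (a (l 8) (l 8))) (c (a (l 10) (l 10)) (a (l 10) (l 10)))) (c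 (b (l 10) (l 10)) (l 10)))) (c (a (c (b (a (l 2) (l 2)) (l 2)) (l 2)) (l 2)) (a (l 2) (l 2)))) (a (c (a (b (l 10) (l 2)) (c (b (l 2) (l 2)) (a (l 2) (l 2)))) (a (c (a (l 10) (b (l 10) (l 2))) (a (b (l 10) (l 2)) (l 10))) (c (b (l 2) (l 2)) (l 2)))) (c (a (c (b (l 2) (l 2)) (l 2)) (l 2)) (a (l 2) (l 2)))))), by decide +kernel⟩

theorem h12_2Bmh : ∃ t, chk3 f2Bmh t 3 3 3 = true :=
  ⟨(b (a (c (a (c (b (c (a (l 2) (l 2)) (a (l 2) (l 2))) (c (a (l 2) (l 1)) (l 2))) (l 2)) (l 1)) (a (c (l 2) (l 2)) (l 1))) (l 1)) (l 1)), by decide +kernel⟩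

theorem h13_2Bmh : ∃ t, chk3 f2Bmh t 1 3 3 = true := ex3_a h11_2Bmh h12_2Bmh

theorem h14_2Bmh : ∃ t, chk3 f2Bmh t 2 2 6 = true := ex3_b h7_2Bmh h8_2Bmh

theorem h15_2Bmh : ∃ t, chk3 f2Bmh t 2 2 3 = true := ex3_c h14_2Bmh h9_2Bmh

theorem h16_2Bmh : ∃ t, chk3 f2Bmh t 1 2 3 = true := ex3_a h15_2Bmh h10_2Bmh

theorem h17_2Bmh : ∃ t, chk3 f2Bmh t 1 1 3 = true := ex3_b h16_2Bmh h13_2Bmh

theorem h18_2Bmh : ∃ t, chk3 f2Bmh t 1 3 2 = true := ex3_a h5_2Bmh h6_2Bmh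

theorem h19_2Bmh : ∃ t, chk3 f2Bmh t 3 4 5 = true := ex3_b h2_2Bmh h3_2Bmh

theorem h20_2Bmh : ∃ t, chk3 f2Bmh t 3 2 5 = true := ex3_b h19_2Bmh h4_2Bmh

theorem h21_2Bmh : ∃ t, chk3 f2Bmh t 3 2 2 = true := ex3_c h1_2Bmh h20_2Bmh

theorem h22_2Bmh : ∃ t, chk3 f2Bmh t 1 2 2 = true := ex3_a h0_2Bmh h21_2Bmh

theorem h23_2Bmh : ∃ t, chk3 f2Bmh t 1 1 2 = true := ex3_b h22_2Bmh h18_2Bmh

theorem h24_2Bmh : ∃ t, chk3 f2Bmh t 1 1 1 = true := ex3_c h23_2Bmh h17_2Bmh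

theorem ct_2Bmh : ∃ t, chk3 f2Bmh t 1 1 1 = true := h24_2Bmh

end Pool.Agent.Strip051.G.I5000_5470.Tab.Mo
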