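import Pool.Agent.Strip051.PB.MolVE
import Pool.Agent.Strip051.PB.MolWn
import Pool.Agent.Strip051.G.I5000_5470.MolC0
import Pool.Agent.Strip051.G.I5000_5470.MolC2
import Pool.Agent.Strip051.G.I5000_5470.Fact

/-! # The tight charts of a table: facts (generated) -/

set_option linter.all false

namespace Pool.Agent.Strip051.G.I5000_5470.Tab.Mo

open Pool.Agent.StripNear Pool.Agent.StripSquare Pool.Agent.Strip051.Sweep
open Pool.Agent.Strip051.LC Pool.Agent.Strip051.LC.MolN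
open Pool.Agent.Strip051.PB Pool.Agent.Strip051.PB.Mol
open Pool.Agent.Strip051.LC.Line (tau)
open Pool.Agent.Strip051.G.I5000_5470.Tab

theorem gsg_v : gsg.v = c1n := by funext y; simp [gsg, c1n]
theorem esg_v (y : ℝ) : esg.v y = y / 2 + c1n y - 1 := by
  simp only [esg, gsg_v]
  push_cast
  ring
theorem qsg_v (y : ℝ) : qsg.v y = (1 - c1n y) * (2 * c1n y - 1) := by
  simp only [qsg, gsg_v]
  push_cast
  ring
theorem gug_v (y : ℝ) : gug.v y = cR y := by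
  simp only [gug, gsg_v]
  push_cast
  unfold cR
  ring
theorem esg_n (x : ℝ) : esg.v x = esn x := esg_v x
theorem kf0_t0 {y x : ℝ} (h0 : 0 < y) (h1 : y < 1) : kf0q0.v y x = (c1n y * cG y + kcg.v (psn y) x) * y := by
  have e := kA0_eq h0 h1
  unfold kA0 at e
  simp only [kf0q0, kf0q0_9, kf0q0_12, c1g_v]
  push_cast
  simp only [psn_def]
  linear_combination e
theorem l0_t0 {y x : ℝ} (a : -(13 / 134) < psn y) (b : psn y ≤ -(1 / 97)) : l0q0.v y x = cQ x y (kcg.v (psn y) x) := by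
  have e1 := y_psn y
  have e2 := y_psn' y
  simp only [l0q0, txg, txg_4, txg_6, txg_27, txg_30, txg_33, txg_75, txg_116, txg_119, txg_165, txg_225, txg_226, txg_228, txg_230, txg_270, txg_293, txg_336, txg_338, txg_358, txg_398, txg_418, c1g_v]
  push_cast
  simp only [psn_def]
  (repeat first | rw [if_pos (by linarith)] | rw [if_neg (by linarith)])
  unfold cQ
  simp only [e1, e2]
  ring
theorem kc0_t0 {y x : ℝ} (h0 : 0 < y) (h1 : y < 1) (a : -(13 / 134) < psn y) (b : psn y ≤ -(1 / 97)) : kc0q0.v y x = cP y - (cR y + 2 * c1n y) * kcg.v (psn y) x := by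
  have h : y ^ 2 < 4 / 3 := by nlinarith
  have e := cP_eq h
  simp only [kc0q0, kc0q0_3, kc0q0_8, c1g_v, gug_v]
  push_cast
  simp only [psn_def]
  (repeat first | rw [if_pos (by linarith)] | rw [if_neg (by linarith)])
  linear_combination -e
theorem kf0_t1 {y x : ℝ} (h0 : 0 < y) (h1 : y < 1) : kf0q1.v y x = (c1n y * cG y + kcg.v (psn y) x) * (y - 1) := by
  have e := kA1_eq h0 h1
  unfold kA1 at e
  simp only [kf0q1, kf0q1_10, c1g_v]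
  push_cast
  simp only [psn_def]
  linear_combination e
theorem l0_t1 {y x : ℝ} (a : -(13 / 134) < psn y) (b : psn y ≤ -(1 / 97)) : l0q1.v y x = cQ x y (kcg.v (psn y) x) := by
  have e1 := y_psn y
  have e2 := y_psn' y
  simp only [l0q1, txg, txg_4, txg_6, txg_27, txg_30, txg_33, txg_75, txg_116, txg_119, txg_165, txg_225, txg_226, txg_228, txg_230, txg_270, txg_293, txg_336, txg_338, txg_358, txg_398, txg_418, c1g_v]
  push_cast
  simp only [psn_def]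
  (repeat first | rw [if_pos (by linarith)] | rw [if_neg (by linarith)])
  unfold cQ
  simp only [e1, e2]
  ring
theorem kc0_t1 {y x : ℝ} (h0 : 0 < y) (h1 : y < 1) (a : -(13 / 134) < psn y) (b : psn y ≤ -(1 / 97)) : kc0q1.v y x = cP y - (cR y + 2 * c1n y) * kcg.v (psn y) x := by
  have h : y ^ 2 < 4 / 3 := by nlinarith
  have e := cP_eq h
  simp only [kc0q1, kc0q1_3, kc0q1_9, c1g_v, gug_v]
  push_cast
  simp only [psn_def]
  (repeat first | rw [if_pos (by linarith)] | rw [if_neg (by linarith)])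
  linear_combination -e
theorem nK_q0 {y x : ℝ} (a : 232716763 / 536870912 < y) (b : y ≤ 1 / 2) (b0 : 0 < y) (b2 : y < 1) : kf4q0.v y x = kf3q0.v y x + ((w3K true 0 kcg).v y x - kf3q0.v y x) * (cv4m.v y - cv3m.v y) * ((w3W true).v y - cv3m.v y)⁻¹ := by
  have z0 : 0 < (1 - y) := by linarith
  have z1 : (1 - y) < 1 := by linarith
  have z2 : (1 - y) ^ 2 < 4 / 3 := by nlinarith
  have e5 := wK0 z2
  rw [psn_def] at e5
  simp only [kf3q0, kf4q0, kf4q0_9, kf4q0_10, kf4q0_13, kf4q0_31, c1g_v, gsg_v, esg_v, qsg_v, gug_v, swg_v, swn_c', w3W, w3K, zf, cwK, kcz, hfs, cond_true, cond_false, c1f, cGf, cPf, cDf, cRf, exf, zcf]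
  push_cast
  simp only [psn_def]
  (repeat first | rw [if_pos (by linarith)] | rw [if_neg (by linarith)])
  skip
  linear_combination (y * ((cv4m.v y - cv3m.v y) * (c1n (1 - y) + 1 / 2 - cv3m.v y)⁻¹)) * e5
theorem nX_q0 {y x : ℝ} (a : 232716763 / 536870912 < y) (b : y ≤ 1 / 2) (b0 : 0 < y) (b2 : y < 1) : l4q0.v y x = l3q0.v y x + ((w3Q true kcg).v y x - l3q0.v y x) * (cv4m.v y - cv3m.v y) * ((w3W true).v y - cv3m.v y)⁻¹ := by
  have z0 : 0 < (1 - y) := by linarith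
  have z1 : (1 - y) < 1 := by linarith
  have z2 : (1 - y) ^ 2 < 4 / 3 := by nlinarith
  skip
  simp only [l3q0, l4q0, l4q0_9, l4q0_24, c1g_v, gsg_v, esg_v, qsg_v, gug_v, swg_v, swn_c', w3W, w3Q, zf, cwQ, kcz, hfs, cond_true, cond_false, c1f, cGf, cPf, cDf, cRf, exf, zcf]
  push_cast
  simp only [psn_def]
  (repeat first | rw [if_pos (by linarith)] | rw [if_neg (by linarith)])
  unfold cQ
  ring
theorem nD_q0 {y x : ℝ} (a : 232716763 / 536870912 < y) (b : y ≤ 1 / 2) (b0 : 0 < y) (b2 : y < 1) : (tmF kc4q0 0).v y x = (tmF kc3q0 0).v y x + ((w3D true 0 kcg).v y x - (tmF kc3q0 0).v y x) * (cv4m.v y - cv3m.v y) * ((w3W true).v y - cv3m.v y)⁻¹ := by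
  have z0 : 0 < (1 - y) := by linarith
  have z1 : (1 - y) < 1 := by linarith
  have z2 : (1 - y) ^ 2 < 4 / 3 := by nlinarith
  have e6 := cP_eq z2
  have e7 := wD3 z0 z1
  simp only [kc3q0, kc4q0, kc4q0_9, kc4q0_10, kc4q0_14, kc4q0_18, kc4q0_20, kc4q0_21, kc4q0_50, tmF, c1g_v, gsg_v, esg_v, qsg_v, gug_v, swg_v, swn_c', w3W, w3D, zf, cwD, kcz, hfs, cond_true, cond_false, c1f, cGf, cPf, cDf, cRf, exf, zcf]
  push_cast
  simp only [psn_def]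
  (repeat first | rw [if_pos (by linarith)] | rw [if_neg (by linarith)])
  skip
  linear_combination (y * ((cv4m.v y - cv3m.v y) * (c1n (1 - y) + 1 / 2 - cv3m.v y)⁻¹)) * (e6 - e7)
theorem nK_q1 {y x : ℝ} (a : 1 / 2 ≤ y) (b : y ≤ 133 / 256) (b0 : 0 < y) (b2 : y < 1) : kf4q1.v y x = kf3q1.v y x + ((w3K true 1 kcg).v y x - kf3q1.v y x) * (cv4m.v y - cv3m.v y) * ((w3W true).v y - cv3m.v y)⁻¹ := by
  have z0 : 0 < (1 - y) := by linarith
  have z1 : (1 - y) < 1 := by linarith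
  have z2 : (1 - y) ^ 2 < 4 / 3 := by nlinarith
  have e5 := wK0 z2
  rw [psn_def] at e5
  simp only [kf3q1, kf4q1, kf4q1_9, kf4q1_10, kf4q1_13, kf4q1_30, c1g_v, gsg_v, esg_v, qsg_v, gug_v, swg_v, swn_c', w3W, w3K, zf, cwK, kcz, hfs, cond_true, cond_false, c1f, cGf, cPf, cDf, cRf, exf, zcf]
  push_cast
  simp only [psn_def]
  (repeat first | rw [if_pos (by linarith)] | rw [if_neg (by linarith)])
  skip
  linear_combination ((y - 1) * ((cv4m.v y - cv3m.v y) * (c1n (1 - y) + 1 / 2 - cv3m.v y)⁻¹)) * e5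
theorem nX_q1 {y x : ℝ} (a : 1 / 2 ≤ y) (b : y ≤ 133 / 256) (b0 : 0 < y) (b2 : y < 1) : l4q1.v y x = l3q1.v y x + ((w3Q true kcg).v y x - l3q1.v y x) * (cv4m.v y - cv3m.v y) * ((w3W true).v y - cv3m.v y)⁻¹ := by
  have z0 : 0 < (1 - y) := by linarith
  have z1 : (1 - y) < 1 := by linarith
  have z2 : (1 - y) ^ 2 < 4 / 3 := by nlinarith
  skip
  simp only [l3q1, l4q1, l4q1_9, l4q1_24, c1g_v, gsg_v, esg_v, qsg_v, gug_v, swg_v, swn_c', w3W, w3Q, zf, cwQ, kcz, hfs, cond_true, cond_false, c1f, cGf, cPf, cDf, cRf, exf, zcf]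
  push_cast
  simp only [psn_def]
  (repeat first | rw [if_pos (by linarith)] | rw [if_neg (by linarith)])
  unfold cQ
  ring
theorem nD_q1 {y x : ℝ} (a : 1 / 2 ≤ y) (b : y ≤ 133 / 256) (b0 : 0 < y) (b2 : y < 1) : (tmF kc4q1 1).v y x = (tmF kc3q1 1).v y x + ((w3D true 1 kcg).v y x - (tmF kc3q1 1).v y x) * (cv4m.v y - cv3m.v y) * ((w3W true).v y - cv3m.v y)⁻¹ := by
  have z0 : 0 < (1 - y) := by linarith
  have z1 : (1 - y) < 1 := by linarith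
  have z2 : (1 - y) ^ 2 < 4 / 3 := by nlinarith
  have e6 := cP_eq z2
  have e7 := wD3 z0 z1
  simp only [kc3q1, kc4q1, kc4q1_9, kc4q1_10, kc4q1_14, kc4q1_17, kc4q1_19, kc4q1_20, kc4q1_49, tmF, c1g_v, gsg_v, esg_v, qsg_v, gug_v, swg_v, swn_c', w3W, w3D, zf, cwD, kcz, hfs, cond_true, cond_false, c1f, cGf, cPf, cDf, cRf, exf, zcf]
  push_cast
  simp only [psn_def]
  (repeat first | rw [if_pos (by linarith)] | rw [if_neg (by linarith)])
  skip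
  linear_combination ((y - 1) * ((cv4m.v y - cv3m.v y) * (c1n (1 - y) + 1 / 2 - cv3m.v y)⁻¹)) * (e6 - e7)
theorem nK_q2 {y x : ℝ} (a : 379 / 256 < y) (b : y ≤ 3 / 2) (b0 : 1 < y) (b2 : y < 2) : kf4q2.v y x = kf3q2.v y x + ((w3K false 1 kcg).v y x - kf3q2.v y x) * (cv4p.v y - cv3p.v y) * ((w3W false).v y - cv3p.v y)⁻¹ := by
  have z0 : 0 < (y - 1) := by linarith
  have z1 : (y - 1) < 1 := by linarith
  have z2 : (y - 1) ^ 2 < 4 / 3 := by nlinarith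
  have e4 := wK3 z2
  simp only [kf3q2, kf3q2_4, kf4q2, kf4q2_4, kf4q2_8, kf4q2_9, kf4q2_10, kf4q2_11, kf4q2_188, c1g_v, gsg_v, esg_v, qsg_v, gug_v, swg_v, swn_c, w3W, w3K, zf, cwK, kcz, hfs, cond_true, cond_false, c1f, cGf, cPf, cDf, cRf, exf, zcf]
  push_cast
  simp only [psn_def]
  (repeat first | rw [if_pos (by linarith)] | rw [if_neg (by linarith)])
  skip
  linear_combination ((y - 1) * ((cv4p.v y - cv3p.v y) * (c1n (y - 1) - 1 / 2 - cv3p.v y)⁻¹)) * e4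
theorem nX_q2 {y x : ℝ} (a : 379 / 256 < y) (b : y ≤ 3 / 2) (b0 : 1 < y) (b2 : y < 2) : l4q2.v y x = l3q2.v y x + ((w3Q false kcg).v y x - l3q2.v y x) * (cv4p.v y - cv3p.v y) * ((w3W false).v y - cv3p.v y)⁻¹ := by
  have z0 : 0 < (y - 1) := by linarith
  have z1 : (y - 1) < 1 := by linarith
  have z2 : (y - 1) ^ 2 < 4 / 3 := by nlinarith
  skip
  simp only [l3q2, l3q2_4, l4q2, l4q2_4, l4q2_8, l4q2_192, c1g_v, gsg_v, esg_v, qsg_v, gug_v, swg_v, swn_c, w3W, w3Q, zf, cwQ, kcz, hfs, cond_true, cond_false, c1f, cGf, cPf, cDf, cRf, exf, zcf]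
  push_cast
  simp only [psn_def]
  (repeat first | rw [if_pos (by linarith)] | rw [if_neg (by linarith)])
  unfold cQ
  ring
theorem nD_q2 {y x : ℝ} (a : 379 / 256 < y) (b : y ≤ 3 / 2) (b0 : 1 < y) (b2 : y < 2) : (tmF kc4q2 1).v y x = (tmF kc3q2 1).v y x + ((w3D false 1 kcg).v y x - (tmF kc3q2 1).v y x) * (cv4p.v y - cv3p.v y) * ((w3W false).v y - cv3p.v y)⁻¹ := by
  have z0 : 0 < (y - 1) := by linarith
  have z1 : (y - 1) < 1 := by linarith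
  have z2 : (y - 1) ^ 2 < 4 / 3 := by nlinarith
  have e6 := cP_eq z2
  have e7 := wD3 z0 z1
  simp only [kc3q2, kc3q2_4, kc4q2, kc4q2_4, kc4q2_8, kc4q2_9, kc4q2_13, kc4q2_16, kc4q2_18, kc4q2_19, kc4q2_85, tmF, c1g_v, gsg_v, esg_v, qsg_v, gug_v, swg_v, swn_c, w3W, w3D, zf, cwD, kcz, hfs, cond_true, cond_false, c1f, cGf, cPf, cDf, cRf, exf, zcf]
  push_cast
  simp only [psn_def]
  (repeat first | rw [if_pos (by linarith)] | rw [if_neg (by linarith)])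
  skip
  linear_combination (-((y - 1) * ((cv4p.v y - cv3p.v y) * (c1n (y - 1) - 1 / 2 - cv3p.v y)⁻¹))) * (e6 + e7)
theorem nK_q3 {y x : ℝ} (a : 3 / 2 ≤ y) (b : y ≤ 841025061 / 536870912) (b0 : 1 < y) (b2 : y < 2) : kf4q3.v y x = kf3q3.v y x + ((w3K false 2 kcg).v y x - kf3q3.v y x) * (cv4r.v y - cv3r.v y) * ((w3W false).v y - cv3r.v y)⁻¹ := by
  have z0 : 0 < (y - 1) := by linarith
  have z1 : (y - 1) < 1 := by linarith
  have z2 : (y - 1) ^ 2 < 4 / 3 := by nlinarith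
  have e4 := wK3 z2
  simp only [kf3q3, kf4q3, kf4q3_4, kf4q3_42, kf4q3_43, kf4q3_44, kf4q3_45, kf4q3_64, c1g_v, gsg_v, esg_v, qsg_v, gug_v, swg_v, swn_c, w3W, w3K, zf, cwK, kcz, hfs, cond_true, cond_false, c1f, cGf, cPf, cDf, cRf, exf, zcf]
  push_cast
  simp only [psn_def]
  (repeat first | rw [if_pos (by linarith)] | rw [if_neg (by linarith)])
  skip
  linear_combination ((y - 2) * ((cv4r.v y - cv3r.v y) * (c1n (y - 1) - 1 / 2 - cv3r.v y)⁻¹)) * e4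
theorem nX_q3 {y x : ℝ} (a : 3 / 2 ≤ y) (b : y ≤ 841025061 / 536870912) (b0 : 1 < y) (b2 : y < 2) : l4q3.v y x = l3q3.v y x + ((w3Q false kcg).v y x - l3q3.v y x) * (cv4r.v y - cv3r.v y) * ((w3W false).v y - cv3r.v y)⁻¹ := by
  have z0 : 0 < (y - 1) := by linarith
  have z1 : (y - 1) < 1 := by linarith
  have z2 : (y - 1) ^ 2 < 4 / 3 := by nlinarith
  skip
  simp only [l3q3, l4q3, l4q3_4, l4q3_43, l4q3_58, c1g_v, gsg_v, esg_v, qsg_v, gug_v, swg_v, swn_c, w3W, w3Q, zf, cwQ, kcz, hfs, cond_true, cond_false, c1f, cGf, cPf, cDf, cRf, exf, zcf]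
  push_cast
  simp only [psn_def]
  (repeat first | rw [if_pos (by linarith)] | rw [if_neg (by linarith)])
  unfold cQ
  ring
theorem nD_q3 {y x : ℝ} (a : 3 / 2 ≤ y) (b : y ≤ 841025061 / 536870912) (b0 : 1 < y) (b2 : y < 2) : (tmF kc4q3 2).v y x = (tmF kc3q3 2).v y x + ((w3D false 2 kcg).v y x - (tmF kc3q3 2).v y x) * (cv4r.v y - cv3r.v y) * ((w3W false).v y - cv3r.v y)⁻¹ := by
  have z0 : 0 < (y - 1) := by linarith
  have z1 : (y - 1) < 1 := by linarith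
  have z2 : (y - 1) ^ 2 < 4 / 3 := by nlinarith
  have e6 := cP_eq z2
  have e7 := wD3 z0 z1
  simp only [kc3q3, kc4q3, kc4q3_18, kc4q3_19, kc4q3_23, kc4q3_28, kc4q3_30, kc4q3_31, kc4q3_59, tmF, c1g_v, gsg_v, esg_v, qsg_v, gug_v, swg_v, swn_c, w3W, w3D, zf, cwD, kcz, hfs, cond_true, cond_false, c1f, cGf, cPf, cDf, cRf, exf, zcf]
  push_cast
  simp only [psn_def]
  (repeat first | rw [if_pos (by linarith)] | rw [if_neg (by linarith)])
  skip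
  linear_combination (-((y - 2) * ((cv4r.v y - cv3r.v y) * (c1n (y - 1) - 1 / 2 - cv3r.v y)⁻¹))) * (e6 + e7)
theorem psr {y : ℝ} (a : 123 / 256 ≤ y) (b : y ≤ 304154149 / 536870912) : -(7544671 / 80000000) ≤ psn y ∧ psn y ≤ -(1809483531133 / 167772160000000) :=
  ⟨psn_ge' (lo := 123 / 256) (r := 9093199 / 10000000) (by norm_num) a (by linarith) (by norm_num) (by norm_num) (by norm_num),
    psn_le' (hi := 304154149 / 536870912) (r := 2178419 / 2500000) (by linarith) b (by norm_num) (by norm_num) (by norm_num) (by norm_num)⟩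
theorem kcg_t {p x : ℝ} (a : -(7544671 / 80000000) ≤ p) (b : p ≤ -(1809483531133 / 167772160000000)) : kcg.v p x = (5106359 / 200000000 + (-(4999993 / 20000000)) * (x - 1047 / 2000)) + (lnF false 34528611 20000000 true 19999973 2000000 1047 2000).v x * p + (lnF false 10212721 1000000 true 9999987 100000 1047 2000).v x * p ^ 2 + (lnF false 3 20000000 true 1 2000000 1047 2000).v x * max (p - sgv true 1 20) 0 + (lnF true 10212721 1000000 false 9999987 100000 1047 2000).v x * max (p - sgv true 1 20) 0 ^ 2 := by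
  rcases le_or_gt p (-(1 / 20)) with c0 | c0
  · have m0 : max (p - sgv true 1 20) 0 = 0 := by
      rw [show sgv true 1 20 = -(1 / 20) by norm_num [sgv]]
      exact max_eq_right (by linarith)
    rw [m0]
    simp only [kcg, kcg_3, kcg_6, kcg_9, kcg_12, kcg_13, kcg_16, kcg_28, kcg_36, kcg_41, kcg_53, kcg_61, kcg_62, kcg_67, kcg_78, kcg_85, kcg_86, kcg_91, kcg_102, kcg_107, kcg_111, kcg_124, kcg_134, kcg_137, kcg_138, kcg_141, kcg_153, kcg_158, kcg_161, kcg_171, kcg_179, kcg_180, kcg_185, kcg_195, kcg_203, kcg_207, kcg_216, kcg_221, kcg_228, kcg_229, kcg_230, kcg_250, kcg_260, kcg_281, kcg_282, kcg_303, lnF, cnF, lqF, sgv, cond_true, cond_false]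
    push_cast
    (repeat first | rw [if_pos (by linarith)] | rw [if_neg (by linarith)])
    first
      | ring1
      | (split_ifs with hh
         · rw [show p = -(1 / 20) by linarith]
           ring1
         · ring1)
  · have m0 : max (p - sgv true 1 20) 0 = p - (-(1 / 20)) := by
      rw [show sgv true 1 20 = -(1 / 20) by norm_num [sgv]]
      exact max_eq_left (by linarith)
    rw [m0]
    simp only [kcg, kcg_3, kcg_6, kcg_9, kcg_12, kcg_13, kcg_16, kcg_28, kcg_36, kcg_41, kcg_53, kcg_61, kcg_62, kcg_67, kcg_78, kcg_85, kcg_86, kcg_91, kcg_102, kcg_107, kcg_111, kcg_124, kcg_134, kcg_137, kcg_138, kcg_141, kcg_153, kcg_158, kcg_161, kcg_171, kcg_179, kcg_180, kcg_185, kcg_195, kcg_203, kcg_207, kcg_216, kcg_221, kcg_228, kcg_229, kcg_230, kcg_250, kcg_260, kcg_281, kcg_282, kcg_303, lnF, cnF, lqF, sgv, cond_true, cond_false]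
    push_cast
    (repeat first | rw [if_pos (by linarith)] | rw [if_neg (by linarith)])
    ring1
theorem dq_t (x : ℝ) : DqOk kcg dq (-(7544671 / 80000000)) (-(1809483531133 / 167772160000000)) x := by
  have b0 := dqQ_ok (f := fun p : ℝ => (5106359 / 200000000 + (-(4999993 / 20000000)) * (x - 1047 / 2000)) + (lnF false 34528611 20000000 true 19999973 2000000 1047 2000).v x * p + (lnF false 10212721 1000000 true 9999987 100000 1047 2000).v x * p ^ 2) (s := (lnF false 34528611 20000000 true 19999973 2000000 1047 2000)) (e := (lnF false 10212721 1000000 true 9999987 100000 1047 2000)) (A := (5106359 / 200000000 + (-(4999993 / 20000000)) * (x - 1047 / 2000))) (x := x) (lo := -(7544671 / 80000000)) (hi := -(1809483531133 / 167772160000000)) (fun p _ _ => rfl)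
  have b1 := dqK2_ok (f := fun p : ℝ => kcg.v p x) (d := (lnF false 3 20000000 true 1 2000000 1047 2000)) (e := (lnF true 10212721 1000000 false 9999987 100000 1047 2000)) (s := true) (m := 1) (q := 20) b0 (fun p h1 h2 => kcg_t h1 h2)
  exact b1
theorem txg_l {p c x : ℝ} (a : -(1 / 2) ≤ p) (b : p ≤ -(1 / 2) + 100239 / 2000000) : txg.v p c x = (p + 1 / 2) * mL.v p x := by
  have hD : edv false p = p + 1 / 2 := by simp only [edv, cond_true, cond_false]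
  simp only [txg, txg_4, txg_6, txg_27, txg_30, txg_33, txg_75, txg_116, txg_119, txg_165, txg_225, txg_226, txg_228, txg_230, txg_270, txg_293, txg_336, txg_338, txg_358, txg_398, txg_418, mL, exC, exH, exH2, exQ, lnF, cnF, lqF, sgv, hD, cond_true, cond_false]
  push_cast
  (repeat first | rw [if_pos (by linarith)] | rw [if_neg (by linarith)])
  ring
theorem txg_r {p c x : ℝ} (a : 1 / 2 - 100239 / 2000000 ≤ p) (b : p ≤ 1 / 2) : txg.v p c x = (p - 1 / 2) * mR.v p x := by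
  have hD : edv true p = 1 / 2 - p := by simp only [edv, cond_true, cond_false]
  simp only [txg, txg_4, txg_6, txg_27, txg_30, txg_33, txg_75, txg_116, txg_119, txg_165, txg_225, txg_226, txg_228, txg_230, txg_270, txg_293, txg_336, txg_338, txg_358, txg_398, txg_418, mR, exC, exH, exH2, exQ, lnF, cnF, lqF, sgv, hD, cond_true, cond_false]
  push_cast
  (repeat first | rw [if_pos (by linarith)] | rw [if_neg (by linarith)])
  ring
theorem kp_t {w x : ℝ} (a : 1 / 2 - 100239 / 2000000 ≤ w) (b : w ≤ 1 / 2) : kcc02.v w x = 1 * kp.v w x := by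
  simp only [kcc02, kcc02_4, kp, plA, plH, lnF, cnF, lqF, sgv, c1g_v, cond_true, cond_false]
  push_cast
  skip
  (repeat first | rw [if_pos (by linarith)] | rw [if_neg (by linarith)])
  ring
theorem kb_t {y x : ℝ} (a : 1 / 2 - 18213 / 400000 ≤ psn y) (b : psn y ≤ 1 / 2) : kc0q1.v y x = 1 * kb.v (psn y) x := by
  simp only [kc0q1, kc0q1_3, kc0q1_9, kb, plA, plH, lnF, cnF, lqF, sgv, c1g_v, cond_true, cond_false]
  push_cast
  simp only [psn_def]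
  (repeat first | rw [if_pos (by linarith)] | rw [if_neg (by linarith)])
  ring
theorem on0 {y : ℝ} (h : InQ 0 y) : OnC (0 : Fin 7) 0 y := ⟨h, fun _ => by
  have h1 := h.2
  have h2 := h0_lt_one
  have h3 := h0_pos
  nlinarith⟩
theorem shK0 {y x : ℝ} (h : InQ 0 y) (a : 123 / 256 ≤ y) (b : y ≤ 304154149 / 536870912) : tK 0 0 y x = (c1n y * cG y + kcg.v (psn y) x) * y :=
  (tbF_on (on0 h)).trans (kf0_t0 (y := y) (by linarith) (by linarith))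
theorem shL0 {y x : ℝ} (h : InQ 0 y) (a : 123 / 256 ≤ y) (b : y ≤ 304154149 / 536870912) : tL 0 0 y x = cQ x y (kcg.v (psn y) x) :=
  (tbF_on (on0 h)).trans (l0_t0 (lt_of_lt_of_le (by norm_num) (psr a b).1) ((psr a b).2.trans (by norm_num)))
theorem shC0 {y x : ℝ} (h : InQ 0 y) (a : 123 / 256 ≤ y) (b : y ≤ 304154149 / 536870912) : tC 0 0 y x = esn x * (cP y - (cR y + 2 * c1n y) * kcg.v (psn y) x) :=
  (tbF_sc 0 0 y x).trans (by rw [esg_n, show tbF nc crd 0 0 y x = kc0q0.v y x from tbF_on (on0 h), kc0_t0 (by linarith) (by linarith) (lt_of_lt_of_le (by norm_num) (psr a b).1) ((psr a b).2.trans (by norm_num))])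
theorem on1 {y : ℝ} (h : InQ 1 y) : OnC (0 : Fin 7) 1 y := ⟨h, fun _ => by
  have h1 := h.2
  have h2 := h0_lt_one
  have h3 := h0_pos
  nlinarith⟩
theorem shK1 {y x : ℝ} (h : InQ 1 y) (a : 123 / 256 ≤ y) (b : y ≤ 304154149 / 536870912) : tK 0 1 y x = (c1n y * cG y + kcg.v (psn y) x) * (y - 1) :=
  (tbF_on (on1 h)).trans (kf0_t1 (y := y) (by linarith) (by linarith))
theorem shL1 {y x : ℝ} (h : InQ 1 y) (a : 123 / 256 ≤ y) (b : y ≤ 304154149 / 536870912) : tL 0 1 y x = cQ x y (kcg.v (psn y) x) :=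
  (tbF_on (on1 h)).trans (l0_t1 (lt_of_lt_of_le (by norm_num) (psr a b).1) ((psr a b).2.trans (by norm_num)))
theorem shC1 {y x : ℝ} (h : InQ 1 y) (a : 123 / 256 ≤ y) (b : y ≤ 304154149 / 536870912) : tC 0 1 y x = esn x * (cP y - (cR y + 2 * c1n y) * kcg.v (psn y) x) :=
  (tbF_sc 0 1 y x).trans (by rw [esg_n, show tbF nc crd 0 1 y x = kc0q1.v y x from tbF_on (on1 h), kc0_t1 (by linarith) (by linarith) (lt_of_lt_of_le (by norm_num) (psr a b).1) ((psr a b).2.trans (by norm_num))])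
theorem kcb {y x : ℝ} (a : 123 / 256 ≤ y) (b : y ≤ 304154149 / 536870912) (h1 : 1 / 2 ≤ x) (h2 : x ≤ 293668389 / 536870912) : |kcg.v (psn y) x| ≤ 1 / 2 := by
  have e := psr a b
  rw [kcg_t e.1 e.2]
  obtain ⟨e1, e2⟩ := e
  rcases le_or_gt (psn y) (-(1 / 20)) with c0 | c0
  · have m0 : max (psn y - sgv true 1 20) 0 = 0 := by
      rw [show sgv true 1 20 = -(1 / 20) by norm_num [sgv]]
      exact max_eq_right (by linarith)
    rw [m0]
    simp only [lnF, cnF, lqF, sgv, cond_true, cond_false]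
    push_cast
    rw [abs_le]
    have f1 := mul_nonneg (sub_nonneg.2 (show -(7544671 / 80000000) ≤ psn y by linarith)) (sub_nonneg.2 h1)
    have f2 := mul_nonneg (sub_nonneg.2 (show psn y ≤ -(1 / 20) by linarith)) (sub_nonneg.2 h1)
    have f3 := mul_nonneg (sub_nonneg.2 (show -(7544671 / 80000000) ≤ psn y by linarith)) (sub_nonneg.2 h2)
    have f4 := mul_nonneg (sub_nonneg.2 (show psn y ≤ -(1 / 20) by linarith)) (sub_nonneg.2 h2)
    constructor <;> nlinarith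
  · have m0 : max (psn y - sgv true 1 20) 0 = psn y - (-(1 / 20)) := by
      rw [show sgv true 1 20 = -(1 / 20) by norm_num [sgv]]
      exact max_eq_left (by linarith)
    rw [m0]
    simp only [lnF, cnF, lqF, sgv, cond_true, cond_false]
    push_cast
    rw [abs_le]
    have f1 := mul_nonneg (sub_nonneg.2 (show -(1 / 20) ≤ psn y by linarith)) (sub_nonneg.2 h1)
    have f2 := mul_nonneg (sub_nonneg.2 (show psn y ≤ -(1809483531133 / 167772160000000) by linarith)) (sub_nonneg.2 h1)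
    have f3 := mul_nonneg (sub_nonneg.2 (show -(1 / 20) ≤ psn y by linarith)) (sub_nonneg.2 h2)
    have f4 := mul_nonneg (sub_nonneg.2 (show psn y ≤ -(1809483531133 / 167772160000000) by linarith)) (sub_nonneg.2 h2)
    constructor <;> nlinarith
theorem on2 {y : ℝ} (h : InQ 2 y) (h1 : h0 * y < 1) : OnC (0 : Fin 7) 2 y := ⟨h, fun _ => h1⟩
theorem spK {b x : ℝ} (u : ℝ) (hb : 0 ≤ b) (h : InQ 2 (1 + b)) (h1 : h0 * (1 + b) < 1) (b1 : b ≤ 1 / 32) : tK 0 2 (1 + b) x = 1 / 2 + b * sp.rs.v u b x := by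
  refine (tbF_on (on2 h h1)).trans ?_
  show kfc02.v (c1n (1 + b)) x = _
  have e := stP_k (kc := kcg) (mL := mL) (mR := mR) (kp := kp) (u := u) (b := b) (x := x) (by linarith) (by linarith)
  have hy := yag_v (y := 1 + b) (by linarith) h1
  simp only [kfc02, hy]
  push_cast
  rw [add_sub_cancel_left]
  exact e
theorem wr {b : ℝ} (hb : 0 ≤ b) (b1 : b ≤ 1 / 32) : 1 / 2 - 100239 / 2000000 ≤ c1n (1 + b) ∧ c1n (1 + b) ≤ 1 / 2 :=
  ⟨c1n_ge (hi := 1 + 1 / 32) (by linarith) (by linarith) (by norm_num), c1n_half hb⟩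
theorem pr {b : ℝ} (hb : b < 0) (b1 : -(1 / 32) ≤ b) : 1 / 2 - 18213 / 400000 ≤ psn (1 + b) ∧ psn (1 + b) ≤ 1 / 2 :=
  ⟨psn_ge' (lo := 1 - 1 / 32) (r := 54419 / 100000) (by norm_num) (by linarith) (by linarith) (by norm_num) (by norm_num) (by norm_num), psn_half hb.le (by linarith)⟩
theorem spL {b x : ℝ} (u : ℝ) (hb : 0 ≤ b) (h : InQ 2 (1 + b)) (h1 : h0 * (1 + b) < 1) (b1 : b ≤ 1 / 32) : tL 0 2 (1 + b) x = b * sp.xk.v u b x := by
  refine (tbF_on (on2 h h1)).trans ?_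
  show lc02.v (c1n (1 + b)) x = b * -(w1n b * (mL.v (-c1n (1 + b)) x + mR.v (c1n (1 + b)) x))
  obtain ⟨e1, e2⟩ := wr hb b1
  have hw := w1n_eq (b := b) (by linarith) (by linarith)
  have kL := fun c => txg_l (p := -c1n (1 + b)) (c := c) (x := x) (by linarith) (by linarith)
  have kR := fun c => txg_r (p := c1n (1 + b)) (c := c) (x := x) (by linarith) e2
  simp only [lc02, lc02_7, lc02_8, kL, kR]
  linear_combination (-(mL.v (-c1n (1 + b)) x + mR.v (c1n (1 + b)) x)) * hw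
theorem spC {b x : ℝ} (u : ℝ) (hb : 0 ≤ b) (h : InQ 2 (1 + b)) (h1 : h0 * (1 + b) < 1) (b1 : b ≤ 1 / 32) : tC 0 2 (1 + b) x = esn x * sp.k2.v u b x := by
  obtain ⟨e1, e2⟩ := wr hb b1
  refine (tbF_sc 0 2 (1 + b) x).trans ?_
  rw [esg_n, show tbF nc crd 0 2 (1 + b) x = kcc02.v (c1n (1 + b)) x from tbF_on (on2 h h1), kp_t e1 e2, one_mul]
  rfl
theorem smC {b x : ℝ} (u : ℝ) (hb : b < 0) (h : InQ 1 (1 + b)) (b1 : -(1 / 32) ≤ b) : tC 0 1 (1 + b) x = esn x * sm.k2.v u b x := by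
  obtain ⟨e1, e2⟩ := pr hb b1
  refine (tbF_sc 0 1 (1 + b) x).trans ?_
  rw [esg_n, show tbF nc crd 0 1 (1 + b) x = kc0q1.v (1 + b) x from tbF_on (on1 h), kb_t e1 e2, one_mul]
  rfl
theorem smK {b x : ℝ} (u : ℝ) (hb : b < 0) (h : InQ 1 (1 + b)) (b1 : -(1 / 32) ≤ b) : tK 0 1 (1 + b) x = 1 / 2 + b * sm.rs.v u b x := by
  refine (tbF_on (on1 h)).trans ?_
  show kf0q1.v (1 + b) x = _
  have e : kA1 (1 + b) + b * kcg.v (psn (1 + b)) x = 1 / 2 + b * sm.rs.v u b x := stM_k (kc := kcg) (mR := mR) (kb := kb) (u := u) (b := b) (x := x) (by linarith) (by linarith)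
  have e2 := kA1_eq (y := 1 + b) (by linarith) (by linarith)
  rw [kf0_t1 (by linarith) (by linarith)]
  linear_combination e - e2
theorem smL {b x : ℝ} (u : ℝ) (hb : b < 0) (h : InQ 1 (1 + b)) (b1 : -(1 / 32) ≤ b) : tL 0 1 (1 + b) x = b * sm.xk.v u b x := by
  refine (tbF_on (on1 h)).trans ?_
  show l0q1.v (1 + b) x = b * (mR.v (psn (1 + b)) x * (3 / 4 - w1n b / 2))
  obtain ⟨e1, e2⟩ := pr hb b1
  have hw := w1n_eq (b := b) (by linarith) (by linarith)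
  have hp := psn_def (1 + b)
  have kR := fun c => txg_r (p := psn (1 + b)) (c := c) (x := x) (by linarith) e2
  simp only [l0q1, c1g_v]
  push_cast
  simp only [psn_def, kR]
  linear_combination (-(mR.v (psn (1 + b)) x)) * hp - (mR.v (psn (1 + b)) x / 2) * hw
theorem rowK1 {b x : ℝ} (hb : 0 ≤ b) (b1 : b ≤ 1 / 32) : bf1q2.v (1 + b) x = 1 + b * rK1.v b x := by
  obtain ⟨e1, e2⟩ := wr hb b1
  have hw := w1n_eq (b := b) (by linarith) (by linarith)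
  have hn : ¬ (1 - 3 / 4 * (1 + b) ^ 2 ≤ 0) := by nlinarith
  have h0 := hng_eq (D := 1 / 2 - c1n (1 + b)) (d := 1 / 20) (by norm_num)
  rcases le_or_gt (c1n (1 + b)) (9 / 20) with c0 | c0
  · have m0 : max (1 / 2 - c1n (1 + b) - 1 / 20) 0 = 1 / 2 - c1n (1 + b) - 1 / 20 := max_eq_left (by linarith)
    rw [m0] at h0
    have k : (c1n (1 + b) - 1 / 2) * eK1.v (c1n (1 + b)) x = (38109 / 200000 + (-(89617 / 100000)) * (x - 1047 / 2000)) + (-(9179 / 25000) + (48 / 25) * (x - 1047 / 2000)) * c1n (1 + b) := by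
      simp only [eK1, exC, exH, edv, lnF, cnF, lqF, sgv, cond_true, cond_false]
      push_cast
      linear_combination (-((1393 / 10000 + (6383 / 5000) * (x - 1047 / 2000)))) * h0
    simp only [bf1q2, bf1q2_3, bf1q2_8, rK1, rwC, ad2, exC, lnF, cnF, lqF, sgv, c1g_v, cond_true, cond_false]
    push_cast
    rw [if_neg hn]
    (repeat first | rw [if_pos (by linarith)] | rw [if_neg (by linarith)])
    linear_combination eK1.v (c1n (1 + b)) x * hw - k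
  · have m0 : max (1 / 2 - c1n (1 + b) - 1 / 20) 0 = 0 := max_eq_right (by linarith)
    rw [m0] at h0
    have k : (c1n (1 + b) - 1 / 2) * eK1.v (c1n (1 + b)) x = (25323 / 100000 + (-(3217 / 10000)) * (x - 1047 / 2000)) + (-(25323 / 50000) + (3217 / 5000) * (x - 1047 / 2000)) * c1n (1 + b) := by
      simp only [eK1, exC, exH, edv, lnF, cnF, lqF, sgv, cond_true, cond_false]
      push_cast
      linear_combination (-((1393 / 10000 + (6383 / 5000) * (x - 1047 / 2000)))) * h0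
    simp only [bf1q2, bf1q2_3, bf1q2_8, rK1, rwC, ad2, exC, lnF, cnF, lqF, sgv, c1g_v, cond_true, cond_false]
    push_cast
    rw [if_neg hn]
    (repeat first | rw [if_pos (by linarith)] | rw [if_neg (by linarith)])
    linear_combination eK1.v (c1n (1 + b)) x * hw - k
theorem rowX1 {b x : ℝ} (hb : 0 ≤ b) (b1 : b ≤ 1 / 32) : bx1q2.v (1 + b) x = b * rX1.v b x := by
  obtain ⟨e1, e2⟩ := wr hb b1
  have hw := w1n_eq (b := b) (by linarith) (by linarith)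
  have hn : ¬ (1 - 3 / 4 * (1 + b) ^ 2 ≤ 0) := by nlinarith
  have h0 := hng_eq (D := 1 / 2 - c1n (1 + b)) (d := 1 / 20) (by norm_num)
  rcases le_or_gt (c1n (1 + b)) (9 / 20) with c0 | c0
  · have m0 : max (1 / 2 - c1n (1 + b) - 1 / 20) 0 = 1 / 2 - c1n (1 + b) - 1 / 20 := max_eq_left (by linarith)
    rw [m0] at h0
    have k : (c1n (1 + b) - 1 / 2) * eX1.v (c1n (1 + b)) x = (-(3240625944759 / 18535730000000) + (-(50643800903 / 47772500000)) * (x - 1047 / 2000)) + (187 / 500 + (1023 / 500) * (x - 1047 / 2000)) * c1n (1 + b) := by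
      simp only [eX1, exC, exH, edv, lnF, cnF, lqF, sgv, cond_true, cond_false]
      push_cast
      linear_combination (-((225555565241 / 926786500000 + (-(1772533403 / 2388625000)) * (x - 1047 / 2000)))) * h0
    simp only [bx1q2, bx1q2_3, bx1q2_10, rX1, rwC, ad2, exC, lnF, cnF, lqF, sgv, c1g_v, cond_true, cond_false]
    push_cast
    rw [if_neg hn]
    (repeat first | rw [if_pos (by linarith)] | rw [if_neg (by linarith)])
    linear_combination eX1.v (c1n (1 + b)) x * hw - k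
  · have m0 : max (1 / 2 - c1n (1 + b) - 1 / 20) 0 = 0 := max_eq_right (by linarith)
    rw [m0] at h0
    have k : (c1n (1 + b) - 1 / 2) * eX1.v (c1n (1 + b)) x = (-(121062585759 / 1853573000000) + (-(6659660153 / 4777250000)) * (x - 1047 / 2000)) + (121062585759 / 926786500000 + (6659660153 / 2388625000) * (x - 1047 / 2000)) * c1n (1 + b) := by
      simp only [eX1, exC, exH, edv, lnF, cnF, lqF, sgv, cond_true, cond_false]
      push_cast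
      linear_combination (-((225555565241 / 926786500000 + (-(1772533403 / 2388625000)) * (x - 1047 / 2000)))) * h0
    simp only [bx1q2, bx1q2_3, bx1q2_10, rX1, rwC, ad2, exC, lnF, cnF, lqF, sgv, c1g_v, cond_true, cond_false]
    push_cast
    rw [if_neg hn]
    (repeat first | rw [if_pos (by linarith)] | rw [if_neg (by linarith)])
    linear_combination eX1.v (c1n (1 + b)) x * hw - k
theorem rowD1 {b x : ℝ} (hb : 0 ≤ b) (b1 : b ≤ 1 / 32) : bd1q2.v (1 + b) x = rD1.v b x := by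
  obtain ⟨e1, e2⟩ := wr hb b1
  have hw := w1n_eq (b := b) (by linarith) (by linarith)
  have hn : ¬ (1 - 3 / 4 * (1 + b) ^ 2 ≤ 0) := by nlinarith
  have k : (c1n (1 + b) - 1 / 2) * eD1.v (c1n (1 + b)) x = (614541 / 250000 + (-(180421 / 12500)) * (x - 1047 / 2000)) + (-(614541 / 125000) + (180421 / 6250) * (x - 1047 / 2000)) * c1n (1 + b) := by
    simp only [eD1, exC, exH, edv, lnF, cnF, lqF, sgv, cond_true, cond_false]
    push_cast
    ring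
  simp only [bd1q2, bd1q2_3, bd1q2_9, rD1, tmF, rwC, ad2, exC, lnF, cnF, lqF, sgv, c1g_v, cond_true, cond_false]
  push_cast
  rw [if_neg hn]
  (repeat first | rw [if_pos (by linarith)] | rw [if_neg (by linarith)])
  linear_combination eD1.v (c1n (1 + b)) x * hw - k
theorem cx1 {b x : ℝ} (u : ℝ) : cv1p.v (1 + b) = (fXS 22 3 25).v u b x := by
  show _ = ((22 : ℕ) : ℝ) / (25 : ℕ) * c1n (1 + b) + ((3 : ℕ) : ℝ) / (25 : ℕ) * (c1n b - 1 / 2)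
  rw [cv1p_v, swn_c, add_sub_cancel_left]
  push_cast
  ring
theorem sX1 {b x : ℝ} (u : ℝ) : crv PP 1 2 (1 + b) = sk1.xs.v u b x := ecv1q2.trans (cx1 u)
theorem sk1K {b x : ℝ} (u : ℝ) (hb : 0 ≤ b) (h : InQ 2 (1 + b)) (b1 : b ≤ 1 / 32) : tK 1 2 (1 + b) x = 1 / 2 + b * sk1.rs.v u b x := by
  have e := stK_k (r := 22) (p := 3) (q := 25) (s := rK1) (sx := rX1) (sd := rD1) (u := u) (b := b) (x := x) (by norm_num) (by linarith) (by linarith)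
  refine (tbF_on (onc h (by decide))).trans ?_
  show kf1q2.v (1 + b) x = _
  rw [show kf1q2.v (1 + b) x = cv1p.v (1 + b) * bf1q2.v (1 + b) x from rfl, rowK1 hb b1, cx1 (x := x) u]
  exact e
theorem sk1L {b x : ℝ} (u : ℝ) (hb : 0 ≤ b) (h : InQ 2 (1 + b)) (b1 : b ≤ 1 / 32) : tL 1 2 (1 + b) x = b * sk1.xk.v u b x := by
  refine (tbF_on (onc h (by decide))).trans ?_
  show l1q2.v (1 + b) x = b * ((fXS 22 3 25).v u b x * rX1.v b x)
  rw [show l1q2.v (1 + b) x = cv1p.v (1 + b) * bx1q2.v (1 + b) x from rfl, rowX1 hb b1, cx1 (x := x) u]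
  ring
theorem sk1C {b x : ℝ} (u : ℝ) (hb : 0 ≤ b) (h : InQ 2 (1 + b)) (b1 : b ≤ 1 / 32) : tC 1 2 (1 + b) x = esn x * sk1.k2.v u b x := by
  refine (tbF_sc 1 2 (1 + b) x).trans ?_
  rw [esg_n, show tbF nc crd 1 2 (1 + b) x = kc1q2.v (1 + b) x from tbF_on (onc h (by decide))]
  show esn x * kc1q2.v (1 + b) x = esn x * ((fXS 22 3 25).v u b x * rD1.v b x)
  rw [show kc1q2.v (1 + b) x = cv1p.v (1 + b) * bd1q2.v (1 + b) x from rfl, rowD1 hb b1, cx1 (x := x) u]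
theorem rowK2 {b x : ℝ} (hb : 0 ≤ b) (b1 : b ≤ 1 / 32) : bf2q2.v (1 + b) x = 1 + b * rK2.v b x := by
  obtain ⟨e1, e2⟩ := wr hb b1
  have hw := w1n_eq (b := b) (by linarith) (by linarith)
  have hn : ¬ (1 - 3 / 4 * (1 + b) ^ 2 ≤ 0) := by nlinarith
  have h0 := hng_eq (D := 1 / 2 - c1n (1 + b)) (d := 1 / 20) (by norm_num)
  rcases le_or_gt (c1n (1 + b)) (9 / 20) with c0 | c0
  · have m0 : max (1 / 2 - c1n (1 + b) - 1 / 20) 0 = 1 / 2 - c1n (1 + b) - 1 / 20 := max_eq_left (by linarith)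
    rw [m0] at h0
    have k : (c1n (1 + b) - 1 / 2) * eK2.v (c1n (1 + b)) x = (-(43867 / 250000) + (-(45659 / 50000)) * (x - 1047 / 2000)) + (9113 / 25000 + (8831 / 5000) * (x - 1047 / 2000)) * c1n (1 + b) := by
      simp only [eK2, exC, exH, edv, lnF, cnF, lqF, sgv, cond_true, cond_false]
      push_cast
      linear_combination (-((849 / 6250 + (-(376 / 625)) * (x - 1047 / 2000)))) * h0
    simp only [bf2q2, bf2q2_3, rK2, rwC, ad2, exC, lnF, cnF, lqF, sgv, c1g_v, cond_true, cond_false]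
    push_cast
    rw [if_neg hn]
    (repeat first | rw [if_pos (by linarith)] | rw [if_neg (by linarith)])
    linear_combination eK2.v (c1n (1 + b)) x * hw - k
  · have m0 : max (1 / 2 - c1n (1 + b) - 1 / 20) 0 = 0 := max_eq_right (by linarith)
    rw [m0] at h0
    have k : (c1n (1 + b) - 1 / 2) * eK2.v (c1n (1 + b)) x = (-(5717 / 50000) + (-(11839 / 10000)) * (x - 1047 / 2000)) + (5717 / 25000 + (11839 / 5000) * (x - 1047 / 2000)) * c1n (1 + b) := by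
      simp only [eK2, exC, exH, edv, lnF, cnF, lqF, sgv, cond_true, cond_false]
      push_cast
      linear_combination (-((849 / 6250 + (-(376 / 625)) * (x - 1047 / 2000)))) * h0
    simp only [bf2q2, bf2q2_3, rK2, rwC, ad2, exC, lnF, cnF, lqF, sgv, c1g_v, cond_true, cond_false]
    push_cast
    rw [if_neg hn]
    (repeat first | rw [if_pos (by linarith)] | rw [if_neg (by linarith)])
    linear_combination eK2.v (c1n (1 + b)) x * hw - k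
theorem rowX2 {b x : ℝ} (hb : 0 ≤ b) (b1 : b ≤ 1 / 32) : bx2q2.v (1 + b) x = b * rX2.v b x := by
  obtain ⟨e1, e2⟩ := wr hb b1
  have hw := w1n_eq (b := b) (by linarith) (by linarith)
  have hn : ¬ (1 - 3 / 4 * (1 + b) ^ 2 ≤ 0) := by nlinarith
  have h0 := hng_eq (D := 1 / 2 - c1n (1 + b)) (d := 1 / 20) (by norm_num)
  rcases le_or_gt (c1n (1 + b)) (9 / 20) with c0 | c0
  · have m0 : max (1 / 2 - c1n (1 + b) - 1 / 20) 0 = 1 / 2 - c1n (1 + b) - 1 / 20 := max_eq_left (by linarith)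
    rw [m0] at h0
    have k : (c1n (1 + b) - 1 / 2) * eX2.v (c1n (1 + b)) x = (-(43641 / 500000) + (-(30887 / 50000)) * (x - 1047 / 2000)) + (4579 / 25000 + (1237 / 1000) * (x - 1047 / 2000)) * c1n (1 + b) := by
      simp only [eX2, exC, exH, edv, lnF, cnF, lqF, sgv, cond_true, cond_false]
      push_cast
      linear_combination (-((2149 / 25000 + (19 / 1250) * (x - 1047 / 2000)))) * h0
    simp only [bx2q2, bx2q2_3, rX2, rwC, ad2, exC, lnF, cnF, lqF, sgv, c1g_v, cond_true, cond_false]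
    push_cast
    rw [if_neg hn]
    (repeat first | rw [if_pos (by linarith)] | rw [if_neg (by linarith)])
    linear_combination eX2.v (c1n (1 + b)) x * hw - k
  · have m0 : max (1 / 2 - c1n (1 + b) - 1 / 20) 0 = 0 := max_eq_right (by linarith)
    rw [m0] at h0
    have k : (c1n (1 + b) - 1 / 2) * eX2.v (c1n (1 + b)) x = (-(243 / 5000) + (-(6109 / 10000)) * (x - 1047 / 2000)) + (243 / 2500 + (6109 / 5000) * (x - 1047 / 2000)) * c1n (1 + b) := by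
      simp only [eX2, exC, exH, edv, lnF, cnF, lqF, sgv, cond_true, cond_false]
      push_cast
      linear_combination (-((2149 / 25000 + (19 / 1250) * (x - 1047 / 2000)))) * h0
    simp only [bx2q2, bx2q2_3, rX2, rwC, ad2, exC, lnF, cnF, lqF, sgv, c1g_v, cond_true, cond_false]
    push_cast
    rw [if_neg hn]
    (repeat first | rw [if_pos (by linarith)] | rw [if_neg (by linarith)])
    linear_combination eX2.v (c1n (1 + b)) x * hw - k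
theorem rowD2 {b x : ℝ} (hb : 0 ≤ b) (b1 : b ≤ 1 / 32) : bd2q2.v (1 + b) x = rD2.v b x := by
  obtain ⟨e1, e2⟩ := wr hb b1
  have hw := w1n_eq (b := b) (by linarith) (by linarith)
  have hn : ¬ (1 - 3 / 4 * (1 + b) ^ 2 ≤ 0) := by nlinarith
  have k : (c1n (1 + b) - 1 / 2) * eD2.v (c1n (1 + b)) x = (1453531 / 500000 + (-(753131 / 50000)) * (x - 1047 / 2000)) + (-(1453531 / 250000) + (753131 / 25000) * (x - 1047 / 2000)) * c1n (1 + b) := by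
    simp only [eD2, exC, exH, edv, lnF, cnF, lqF, sgv, cond_true, cond_false]
    push_cast
    ring
  simp only [bd2q2, bd2q2_3, rD2, tmF, rwC, ad2, exC, lnF, cnF, lqF, sgv, c1g_v, cond_true, cond_false]
  push_cast
  rw [if_neg hn]
  (repeat first | rw [if_pos (by linarith)] | rw [if_neg (by linarith)])
  linear_combination eD2.v (c1n (1 + b)) x * hw - k
theorem cx2 {b x : ℝ} (u : ℝ) : cv2p.v (1 + b) = (fXS 3 2 5).v u b x := by
  show _ = ((3 : ℕ) : ℝ) / (5 : ℕ) * c1n (1 + b) + ((2 : ℕ) : ℝ) / (5 : ℕ) * (c1n b - 1 / 2)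
  rw [cv2p_v, swn_c, add_sub_cancel_left]
  push_cast
  ring
theorem sX2 {b x : ℝ} (u : ℝ) : crv PP 2 2 (1 + b) = sk2.xs.v u b x := ecv2q2.trans (cx2 u)
theorem sk2K {b x : ℝ} (u : ℝ) (hb : 0 ≤ b) (h : InQ 2 (1 + b)) (b1 : b ≤ 1 / 32) : tK 2 2 (1 + b) x = 1 / 2 + b * sk2.rs.v u b x := by
  have e := stK_k (r := 3) (p := 2) (q := 5) (s := rK2) (sx := rX2) (sd := rD2) (u := u) (b := b) (x := x) (by norm_num) (by linarith) (by linarith)
  refine (tbF_on (onc h (by decide))).trans ?_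
  show kf2q2.v (1 + b) x = _
  rw [show kf2q2.v (1 + b) x = cv2p.v (1 + b) * bf2q2.v (1 + b) x from rfl, rowK2 hb b1, cx2 (x := x) u]
  exact e
theorem sk2L {b x : ℝ} (u : ℝ) (hb : 0 ≤ b) (h : InQ 2 (1 + b)) (b1 : b ≤ 1 / 32) : tL 2 2 (1 + b) x = b * sk2.xk.v u b x := by
  refine (tbF_on (onc h (by decide))).trans ?_
  show l2q2.v (1 + b) x = b * ((fXS 3 2 5).v u b x * rX2.v b x)
  rw [show l2q2.v (1 + b) x = cv2p.v (1 + b) * bx2q2.v (1 + b) x from rfl, rowX2 hb b1, cx2 (x := x) u]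
  ring
theorem sk2C {b x : ℝ} (u : ℝ) (hb : 0 ≤ b) (h : InQ 2 (1 + b)) (b1 : b ≤ 1 / 32) : tC 2 2 (1 + b) x = esn x * sk2.k2.v u b x := by
  refine (tbF_sc 2 2 (1 + b) x).trans ?_
  rw [esg_n, show tbF nc crd 2 2 (1 + b) x = kc2q2.v (1 + b) x from tbF_on (onc h (by decide))]
  show esn x * kc2q2.v (1 + b) x = esn x * ((fXS 3 2 5).v u b x * rD2.v b x)
  rw [show kc2q2.v (1 + b) x = cv2p.v (1 + b) * bd2q2.v (1 + b) x from rfl, rowD2 hb b1, cx2 (x := x) u]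
theorem rowK3 {b x : ℝ} (hb : 0 ≤ b) (b1 : b ≤ 1 / 32) : bf3q2.v (1 + b) x = 1 + b * rK3.v b x := by
  obtain ⟨e1, e2⟩ := wr hb b1
  have hw := w1n_eq (b := b) (by linarith) (by linarith)
  have hn : ¬ (1 - 3 / 4 * (1 + b) ^ 2 ≤ 0) := by nlinarith
  have h0 := hng_eq (D := 1 / 2 - c1n (1 + b)) (d := 1 / 20) (by norm_num)
  rcases le_or_gt (c1n (1 + b)) (9 / 20) with c0 | c0
  · have m0 : max (1 / 2 - c1n (1 + b) - 1 / 20) 0 = 1 / 2 - c1n (1 + b) - 1 / 20 := max_eq_left (by linarith)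
    rw [m0] at h0
    have k : (c1n (1 + b) - 1 / 2) * eK3.v (c1n (1 + b)) x = (-(22779 / 100000) + (-(103749 / 100000)) * (x - 1047 / 2000)) + (23677 / 50000 + (44 / 25) * (x - 1047 / 2000)) * c1n (1 + b) := by
      simp only [eK3, exC, exH, edv, lnF, cnF, lqF, sgv, cond_true, cond_false]
      push_cast
      linear_combination (-((449 / 2500 + (-(15749 / 5000)) * (x - 1047 / 2000)))) * h0
    simp only [bf3q2, bf3q2_3, rK3, rwC, ad2, exC, lnF, cnF, lqF, sgv, c1g_v, cond_true, cond_false]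
    push_cast
    rw [if_neg hn]
    (repeat first | rw [if_pos (by linarith)] | rw [if_neg (by linarith)])
    linear_combination eK3.v (c1n (1 + b)) x * hw - k
  · have m0 : max (1 / 2 - c1n (1 + b) - 1 / 20) 0 = 0 := max_eq_right (by linarith)
    rw [m0] at h0
    have k : (c1n (1 + b) - 1 / 2) * eK3.v (c1n (1 + b)) x = (-(14697 / 100000) + (-(24549 / 10000)) * (x - 1047 / 2000)) + (14697 / 50000 + (24549 / 5000) * (x - 1047 / 2000)) * c1n (1 + b) := by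
      simp only [eK3, exC, exH, edv, lnF, cnF, lqF, sgv, cond_true, cond_false]
      push_cast
      linear_combination (-((449 / 2500 + (-(15749 / 5000)) * (x - 1047 / 2000)))) * h0
    simp only [bf3q2, bf3q2_3, rK3, rwC, ad2, exC, lnF, cnF, lqF, sgv, c1g_v, cond_true, cond_false]
    push_cast
    rw [if_neg hn]
    (repeat first | rw [if_pos (by linarith)] | rw [if_neg (by linarith)])
    linear_combination eK3.v (c1n (1 + b)) x * hw - k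
theorem rowX3 {b x : ℝ} (hb : 0 ≤ b) (b1 : b ≤ 1 / 32) : bx3q2.v (1 + b) x = b * rX3.v b x := by
  obtain ⟨e1, e2⟩ := wr hb b1
  have hw := w1n_eq (b := b) (by linarith) (by linarith)
  have hn : ¬ (1 - 3 / 4 * (1 + b) ^ 2 ≤ 0) := by nlinarith
  have h0 := hng_eq (D := 1 / 2 - c1n (1 + b)) (d := 1 / 20) (by norm_num)
  rcases le_or_gt (c1n (1 + b)) (9 / 20) with c0 | c0
  · have m0 : max (1 / 2 - c1n (1 + b) - 1 / 20) 0 = 1 / 2 - c1n (1 + b) - 1 / 20 := max_eq_left (by linarith)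
    rw [m0] at h0
    have k : (c1n (1 + b) - 1 / 2) * eX3.v (c1n (1 + b)) x = (-(1167 / 200000) + (-(42077 / 100000)) * (x - 1047 / 2000)) + (69 / 6250 + (383 / 500) * (x - 1047 / 2000)) * c1n (1 + b) := by
      simp only [eX3, exC, exH, edv, lnF, cnF, lqF, sgv, cond_true, cond_false]
      push_cast
      linear_combination (-((-(63 / 10000) + (-(3777 / 5000)) * (x - 1047 / 2000)))) * h0
    simp only [bx3q2, bx3q2_3, rX3, rwC, ad2, exC, lnF, cnF, lqF, sgv, c1g_v, cond_true, cond_false]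
    push_cast
    rw [if_neg hn]
    (repeat first | rw [if_pos (by linarith)] | rw [if_neg (by linarith)])
    linear_combination eX3.v (c1n (1 + b)) x * hw - k
  · have m0 : max (1 / 2 - c1n (1 + b) - 1 / 20) 0 = 0 := max_eq_right (by linarith)
    rw [m0] at h0
    have k : (c1n (1 + b) - 1 / 2) * eX3.v (c1n (1 + b)) x = (-(867 / 100000) + (-(7607 / 10000)) * (x - 1047 / 2000)) + (867 / 50000 + (7607 / 5000) * (x - 1047 / 2000)) * c1n (1 + b) := by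
      simp only [eX3, exC, exH, edv, lnF, cnF, lqF, sgv, cond_true, cond_false]
      push_cast
      linear_combination (-((-(63 / 10000) + (-(3777 / 5000)) * (x - 1047 / 2000)))) * h0
    simp only [bx3q2, bx3q2_3, rX3, rwC, ad2, exC, lnF, cnF, lqF, sgv, c1g_v, cond_true, cond_false]
    push_cast
    rw [if_neg hn]
    (repeat first | rw [if_pos (by linarith)] | rw [if_neg (by linarith)])
    linear_combination eX3.v (c1n (1 + b)) x * hw - k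
theorem rowD3 {b x : ℝ} (hb : 0 ≤ b) (b1 : b ≤ 1 / 32) : bd3q2.v (1 + b) x = rD3.v b x := by
  obtain ⟨e1, e2⟩ := wr hb b1
  have hw := w1n_eq (b := b) (by linarith) (by linarith)
  have hn : ¬ (1 - 3 / 4 * (1 + b) ^ 2 ≤ 0) := by nlinarith
  have k : (c1n (1 + b) - 1 / 2) * eD3.v (c1n (1 + b)) x = (540441 / 500000 + (-(735733 / 50000)) * (x - 1047 / 2000)) + (-(540441 / 250000) + (735733 / 25000) * (x - 1047 / 2000)) * c1n (1 + b) := by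
    simp only [eD3, exC, exH, edv, lnF, cnF, lqF, sgv, cond_true, cond_false]
    push_cast
    ring
  simp only [bd3q2, bd3q2_3, rD3, tmF, rwC, ad2, exC, lnF, cnF, lqF, sgv, c1g_v, cond_true, cond_false]
  push_cast
  rw [if_neg hn]
  (repeat first | rw [if_pos (by linarith)] | rw [if_neg (by linarith)])
  linear_combination eD3.v (c1n (1 + b)) x * hw - k
theorem cx3 {b x : ℝ} (u : ℝ) : cv3p.v (1 + b) = (fXS 1 4 5).v u b x := by
  show _ = ((1 : ℕ) : ℝ) / (5 : ℕ) * c1n (1 + b) + ((4 : ℕ) : ℝ) / (5 : ℕ) * (c1n b - 1 / 2)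
  rw [cv3p_v, swn_c, add_sub_cancel_left]
  push_cast
  ring
theorem sX3 {b x : ℝ} (u : ℝ) : crv PP 3 2 (1 + b) = sk3.xs.v u b x := ecv3q2.trans (cx3 u)
theorem sk3K {b x : ℝ} (u : ℝ) (hb : 0 ≤ b) (h : InQ 2 (1 + b)) (b1 : b ≤ 1 / 32) : tK 3 2 (1 + b) x = 1 / 2 + b * sk3.rs.v u b x := by
  have e := stK_k (r := 1) (p := 4) (q := 5) (s := rK3) (sx := rX3) (sd := rD3) (u := u) (b := b) (x := x) (by norm_num) (by linarith) (by linarith)
  refine (tbF_on (onc h (by decide))).trans ?_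
  show kf3q2.v (1 + b) x = _
  rw [show kf3q2.v (1 + b) x = cv3p.v (1 + b) * bf3q2.v (1 + b) x from rfl, rowK3 hb b1, cx3 (x := x) u]
  exact e
theorem sk3L {b x : ℝ} (u : ℝ) (hb : 0 ≤ b) (h : InQ 2 (1 + b)) (b1 : b ≤ 1 / 32) : tL 3 2 (1 + b) x = b * sk3.xk.v u b x := by
  refine (tbF_on (onc h (by decide))).trans ?_
  show l3q2.v (1 + b) x = b * ((fXS 1 4 5).v u b x * rX3.v b x)
  rw [show l3q2.v (1 + b) x = cv3p.v (1 + b) * bx3q2.v (1 + b) x from rfl, rowX3 hb b1, cx3 (x := x) u]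
  ring
theorem sk3C {b x : ℝ} (u : ℝ) (hb : 0 ≤ b) (h : InQ 2 (1 + b)) (b1 : b ≤ 1 / 32) : tC 3 2 (1 + b) x = esn x * sk3.k2.v u b x := by
  refine (tbF_sc 3 2 (1 + b) x).trans ?_
  rw [esg_n, show tbF nc crd 3 2 (1 + b) x = kc3q2.v (1 + b) x from tbF_on (onc h (by decide))]
  show esn x * kc3q2.v (1 + b) x = esn x * ((fXS 1 4 5).v u b x * rD3.v b x)
  rw [show kc3q2.v (1 + b) x = cv3p.v (1 + b) * bd3q2.v (1 + b) x from rfl, rowD3 hb b1, cx3 (x := x) u]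
theorem vK_4 {Y x : ℝ} (hq : InQ 3 Y) : tK 4 3 Y x = kf4q3.v Y x := by
  have hy0 := hq.nonneg
  have hy2 := hq.le_two
  refine (tbF_on (onc hq (by decide))).trans ?_
  show kfc43.v (c3n Y) x = _
  simp only [kfc43, kfc43_6, kfc43_9, kfc43_11, kfc43_47, kfc43_48, kfc43_49, kfc43_50, kfc43_67, kfc43_69, kf4q3, kf4q3_4, kf4q3_42, kf4q3_43, kf4q3_44, kf4q3_45, kf4q3_64, ycg_v hy0 hy2, c3g_v, cv1r, cv2r, cv3r, cv4r, cv5r]
theorem vL_4 {Y x : ℝ} (hq : InQ 3 Y) : tL 4 3 Y x = l4q3.v Y x := by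
  have hy0 := hq.nonneg
  have hy2 := hq.le_two
  refine (tbF_on (onc hq (by decide))).trans ?_
  show lc43.v (c3n Y) x = _
  simp only [lc43, lc43_6, lc43_9, lc43_11, lc43_49, lc43_62, lc43_64, l4q3, l4q3_4, l4q3_43, l4q3_58, ycg_v hy0 hy2, c3g_v, cv1r, cv2r, cv3r, cv4r, cv5r]
theorem vC_4 {Y x : ℝ} (hq : InQ 3 Y) : tU 4 3 Y x = kc4q3.v Y x := by
  have hy0 := hq.nonneg
  have hy2 := hq.le_two
  refine (tbF_on (onc hq (by decide))).trans ?_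
  show kcc43.v (c3n Y) x = _
  simp only [kcc43, kcc43_6, kcc43_9, kcc43_24, kcc43_25, kcc43_29, kcc43_34, kcc43_36, kcc43_37, kcc43_62, kcc43_64, kc4q3, kc4q3_18, kc4q3_19, kc4q3_23, kc4q3_28, kc4q3_30, kc4q3_31, kc4q3_59, ycg_v hy0 hy2, c3g_v, cv1r, cv2r, cv3r, cv4r, cv5r]
theorem gK_0_3 {Y x : ℝ} (hF : SideOk PP tK tL pcB x) (hq : InQ 0 Y) : LinB (fun X => (pcB 0).K.v X Y x) (cv3m.v Y) (cv4m.v Y) (kf3q0.v Y x) (kf4q0.v Y x) :=
  linT hF.pinK hq (fun X k1 k3 => hF.thK 0 X Y hq k1 k3) (3 : Fin 6) (ecv3q0) (ecv4q0) (tbF_on (onc hq (by decide))) (tbF_on (onc hq (by decide)))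
theorem gL_0_3 {Y x : ℝ} (hF : SideOk PP tK tL pcB x) (hq : InQ 0 Y) : LinB (fun X => (pcB 0).L.v X Y x) (cv3m.v Y) (cv4m.v Y) (l3q0.v Y x) (l4q0.v Y x) :=
  linT hF.pinL hq (fun X k1 k3 => hF.thL 0 X Y hq k1 k3) (3 : Fin 6) (ecv3q0) (ecv4q0) (tbF_on (onc hq (by decide))) (tbF_on (onc hq (by decide)))
theorem gD_0_3 {Y x : ℝ} (hU : ThrOk PP tU pd x) (hq : InQ 0 Y) :
    LinB (fun X => (pd 0).v X Y x * (Y - (0 : ℕ))) (cv3m.v Y) (cv4m.v Y) ((tmF kc3q0 0).v Y x) ((tmF kc4q0 0).v Y x) := linB_mul _ (linT hU.pin hq (fun X k1 k3 => hU.th 0 X Y hq k1 k3) (3 : Fin 6) (ecv3q0) (ecv4q0) (tbF_on (onc hq (by decide))) (tbF_on (onc hq (by decide))))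
theorem gK_1_3 {Y x : ℝ} (hF : SideOk PP tK tL pcB x) (hq : InQ 1 Y) : LinB (fun X => (pcB 1).K.v X Y x) (cv3m.v Y) (cv4m.v Y) (kf3q1.v Y x) (kf4q1.v Y x) :=
  linT hF.pinK hq (fun X k1 k3 => hF.thK 1 X Y hq k1 k3) (3 : Fin 6) (ecv3q1) (ecv4q1) (tbF_on (onc hq (by decide))) (tbF_on (onc hq (by decide)))
theorem gL_1_3 {Y x : ℝ} (hF : SideOk PP tK tL pcB x) (hq : InQ 1 Y) : LinB (fun X => (pcB 1).L.v X Y x) (cv3m.v Y) (cv4m.v Y) (l3q1.v Y x) (l4q1.v Y x) :=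
  linT hF.pinL hq (fun X k1 k3 => hF.thL 1 X Y hq k1 k3) (3 : Fin 6) (ecv3q1) (ecv4q1) (tbF_on (onc hq (by decide))) (tbF_on (onc hq (by decide)))
theorem gD_1_3 {Y x : ℝ} (hU : ThrOk PP tU pd x) (hq : InQ 1 Y) :
    LinB (fun X => (pd 1).v X Y x * (Y - (1 : ℕ))) (cv3m.v Y) (cv4m.v Y) ((tmF kc3q1 1).v Y x) ((tmF kc4q1 1).v Y x) := linB_mul _ (linT hU.pin hq (fun X k1 k3 => hU.th 1 X Y hq k1 k3) (3 : Fin 6) (ecv3q1) (ecv4q1) (tbF_on (onc hq (by decide))) (tbF_on (onc hq (by decide))))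
theorem gK_2_3 {Y x : ℝ} (hF : SideOk PP tK tL pcB x) (hq : InQ 2 Y) : LinB (fun X => (pcB 2).K.v X Y x) (cv3p.v Y) (cv4p.v Y) (kf3q2.v Y x) (kf4q2.v Y x) :=
  linT hF.pinK hq (fun X k1 k3 => hF.thK 2 X Y hq k1 k3) (3 : Fin 6) (ecv3q2) (ecv4q2) (tbF_on (onc hq (by decide))) (tbF_on (onc hq (by decide)))
theorem gL_2_3 {Y x : ℝ} (hF : SideOk PP tK tL pcB x) (hq : InQ 2 Y) : LinB (fun X => (pcB 2).L.v X Y x) (cv3p.v Y) (cv4p.v Y) (l3q2.v Y x) (l4q2.v Y x) :=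
  linT hF.pinL hq (fun X k1 k3 => hF.thL 2 X Y hq k1 k3) (3 : Fin 6) (ecv3q2) (ecv4q2) (tbF_on (onc hq (by decide))) (tbF_on (onc hq (by decide)))
theorem gD_2_3 {Y x : ℝ} (hU : ThrOk PP tU pd x) (hq : InQ 2 Y) :
    LinB (fun X => (pd 2).v X Y x * (Y - (1 : ℕ))) (cv3p.v Y) (cv4p.v Y) ((tmF kc3q2 1).v Y x) ((tmF kc4q2 1).v Y x) := linB_mul _ (linT hU.pin hq (fun X k1 k3 => hU.th 2 X Y hq k1 k3) (3 : Fin 6) (ecv3q2) (ecv4q2) (tbF_on (onc hq (by decide))) (tbF_on (onc hq (by decide))))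
theorem gK_3_3 {Y x : ℝ} (hF : SideOk PP tK tL pcB x) (hq : InQ 3 Y) : LinB (fun X => (pcB 3).K.v X Y x) (cv3r.v Y) (cv4r.v Y) (kf3q3.v Y x) (kf4q3.v Y x) :=
  linT hF.pinK hq (fun X k1 k3 => hF.thK 3 X Y hq k1 k3) (3 : Fin 6) (ecv3q3 hq.1) (ecv4q3 hq.1) (tbF_on (onc hq (by decide))) (vK_4 hq)
theorem gL_3_3 {Y x : ℝ} (hF : SideOk PP tK tL pcB x) (hq : InQ 3 Y) : LinB (fun X => (pcB 3).L.v X Y x) (cv3r.v Y) (cv4r.v Y) (l3q3.v Y x) (l4q3.v Y x) :=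
  linT hF.pinL hq (fun X k1 k3 => hF.thL 3 X Y hq k1 k3) (3 : Fin 6) (ecv3q3 hq.1) (ecv4q3 hq.1) (tbF_on (onc hq (by decide))) (vL_4 hq)
theorem gD_3_3 {Y x : ℝ} (hU : ThrOk PP tU pd x) (hq : InQ 3 Y) :
    LinB (fun X => (pd 3).v X Y x * (Y - (2 : ℕ))) (cv3r.v Y) (cv4r.v Y) ((tmF kc3q3 2).v Y x) ((tmF kc4q3 2).v Y x) := linB_mul _ (linT hU.pin hq (fun X k1 k3 => hU.th 3 X Y hq k1 k3) (3 : Fin 6) (ecv3q3 hq.1) (ecv4q3 hq.1) (tbF_on (onc hq (by decide))) (vC_4 hq))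
theorem sKApl {X Y x : ℝ} (hF : SideOk PP tK tL pcB x) (hq : InQ 2 Y) (a : 379 / 256 < Y) (b : Y ≤ 3 / 2)
    (t0 : 0 < (w3W false).v Y - cv3p.v Y) (t1 : 0 < cv4p.v Y - (w3W false).v Y) (t2 : 0 < cv4p.v Y - X)
    (hX : (w3W false).v Y ≤ X) :
    (pcB 2).K.v X Y x = (w3K false 1 kcg).v Y x + sK_Apl.v X Y x * (X - (w3W false).v Y) :=
  rt0 (gK_2_3 hF hq) (nK_q2 a b (by linarith) (by linarith)) t0 t1 hX t2
theorem sLApl {X Y x : ℝ} (hF : SideOk PP tK tL pcB x) (hq : InQ 2 Y) (a : 379 / 256 < Y) (b : Y ≤ 3 / 2)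
    (t0 : 0 < (w3W false).v Y - cv3p.v Y) (t1 : 0 < cv4p.v Y - (w3W false).v Y) (t2 : 0 < cv4p.v Y - X)
    (hX : (w3W false).v Y ≤ X) :
    (pcB 2).L.v X Y x = (w3Q false kcg).v Y x + sX_Apl.v X Y x * (X - (w3W false).v Y) :=
  rt0 (gL_2_3 hF hq) (nX_q2 a b (by linarith) (by linarith)) t0 t1 hX t2
theorem sDApl {X Y x : ℝ} (hF : SideOk PP tK tL pcB x) (hU : ThrOk PP tU pd x) (hq : InQ 2 Y) (a : 379 / 256 < Y) (b : Y ≤ 3 / 2)
    (t0 : 0 < (w3W false).v Y - cv3p.v Y) (t1 : 0 < cv4p.v Y - (w3W false).v Y) (t2 : 0 < cv4p.v Y - X)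
    (hX : (w3W false).v Y ≤ X) :
    (pd 2).v X Y x * (Y - (1 : ℕ)) = (w3D false 1 kcg).v Y x + sD_Apl.v X Y x * (X - (w3W false).v Y) :=
  rt0 (gD_2_3 hU hq) (nD_q2 a b (by linarith) (by linarith)) t0 t1 hX t2
theorem sKAph {X Y x : ℝ} (hF : SideOk PP tK tL pcB x) (hq : InQ 3 Y) (a : 3 / 2 ≤ Y) (b : Y ≤ 841025061 / 536870912)
    (t0 : 0 < (w3W false).v Y - cv3r.v Y) (t1 : 0 < cv4r.v Y - (w3W false).v Y) (t2 : 0 < cv4r.v Y - X)
    (hX : (w3W false).v Y ≤ X) :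
    (pcB 3).K.v X Y x = (w3K false 2 kcg).v Y x + sK_Aph.v X Y x * (X - (w3W false).v Y) :=
  rt0 (gK_3_3 hF hq) (nK_q3 a b (by linarith) (by linarith)) t0 t1 hX t2
theorem sLAph {X Y x : ℝ} (hF : SideOk PP tK tL pcB x) (hq : InQ 3 Y) (a : 3 / 2 ≤ Y) (b : Y ≤ 841025061 / 536870912)
    (t0 : 0 < (w3W false).v Y - cv3r.v Y) (t1 : 0 < cv4r.v Y - (w3W false).v Y) (t2 : 0 < cv4r.v Y - X)
    (hX : (w3W false).v Y ≤ X) :
    (pcB 3).L.v X Y x = (w3Q false kcg).v Y x + sX_Aph.v X Y x * (X - (w3W false).v Y) :=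
  rt0 (gL_3_3 hF hq) (nX_q3 a b (by linarith) (by linarith)) t0 t1 hX t2
theorem sDAph {X Y x : ℝ} (hF : SideOk PP tK tL pcB x) (hU : ThrOk PP tU pd x) (hq : InQ 3 Y) (a : 3 / 2 ≤ Y) (b : Y ≤ 841025061 / 536870912)
    (t0 : 0 < (w3W false).v Y - cv3r.v Y) (t1 : 0 < cv4r.v Y - (w3W false).v Y) (t2 : 0 < cv4r.v Y - X)
    (hX : (w3W false).v Y ≤ X) :
    (pd 3).v X Y x * (Y - (2 : ℕ)) = (w3D false 2 kcg).v Y x + sD_Aph.v X Y x * (X - (w3W false).v Y) :=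
  rt0 (gD_3_3 hU hq) (nD_q3 a b (by linarith) (by linarith)) t0 t1 hX t2
theorem sKAplk1 {X Y x : ℝ} (hF : SideOk PP tK tL pcB x) (hq : InQ 2 Y) (a : 379 / 256 < Y) (b : Y ≤ 3 / 2)
    (t0 : 0 < (w3W false).v Y - cv3p.v Y) (t1 : 0 < cv4p.v Y - (w3W false).v Y) (t2 : 0 < cv4p.v Y - X)
    (hX : (w3W false).v Y ≤ X) :
    (pcB 2).K.v X Y x = (w3K false 1 kcg).v Y x + sK_Aplk1.v X Y x * (X - (w3W false).v Y) :=
  rt0 (gK_2_3 hF hq) (nK_q2 a b (by linarith) (by linarith)) t0 t1 hX t2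
theorem sLAplk1 {X Y x : ℝ} (hF : SideOk PP tK tL pcB x) (hq : InQ 2 Y) (a : 379 / 256 < Y) (b : Y ≤ 3 / 2)
    (t0 : 0 < (w3W false).v Y - cv3p.v Y) (t1 : 0 < cv4p.v Y - (w3W false).v Y) (t2 : 0 < cv4p.v Y - X)
    (hX : (w3W false).v Y ≤ X) :
    (pcB 2).L.v X Y x = (w3Q false kcg).v Y x + sX_Aplk1.v X Y x * (X - (w3W false).v Y) :=
  rt0 (gL_2_3 hF hq) (nX_q2 a b (by linarith) (by linarith)) t0 t1 hX t2
theorem sDAplk1 {X Y x : ℝ} (hF : SideOk PP tK tL pcB x) (hU : ThrOk PP tU pd x) (hq : InQ 2 Y) (a : 379 / 256 < Y) (b : Y ≤ 3 / 2)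
    (t0 : 0 < (w3W false).v Y - cv3p.v Y) (t1 : 0 < cv4p.v Y - (w3W false).v Y) (t2 : 0 < cv4p.v Y - X)
    (hX : (w3W false).v Y ≤ X) :
    (pd 2).v X Y x * (Y - (1 : ℕ)) = (w3D false 1 kcg).v Y x + sD_Aplk1.v X Y x * (X - (w3W false).v Y) :=
  rt0 (gD_2_3 hU hq) (nD_q2 a b (by linarith) (by linarith)) t0 t1 hX t2
theorem sKAphk1 {X Y x : ℝ} (hF : SideOk PP tK tL pcB x) (hq : InQ 3 Y) (a : 3 / 2 ≤ Y) (b : Y ≤ 841025061 / 536870912)
    (t0 : 0 < (w3W false).v Y - cv3r.v Y) (t1 : 0 < cv4r.v Y - (w3W false).v Y) (t2 : 0 < cv4r.v Y - X)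
    (hX : (w3W false).v Y ≤ X) :
    (pcB 3).K.v X Y x = (w3K false 2 kcg).v Y x + sK_Aphk1.v X Y x * (X - (w3W false).v Y) :=
  rt0 (gK_3_3 hF hq) (nK_q3 a b (by linarith) (by linarith)) t0 t1 hX t2
theorem sLAphk1 {X Y x : ℝ} (hF : SideOk PP tK tL pcB x) (hq : InQ 3 Y) (a : 3 / 2 ≤ Y) (b : Y ≤ 841025061 / 536870912)
    (t0 : 0 < (w3W false).v Y - cv3r.v Y) (t1 : 0 < cv4r.v Y - (w3W false).v Y) (t2 : 0 < cv4r.v Y - X)
    (hX : (w3W false).v Y ≤ X) :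
    (pcB 3).L.v X Y x = (w3Q false kcg).v Y x + sX_Aphk1.v X Y x * (X - (w3W false).v Y) :=
  rt0 (gL_3_3 hF hq) (nX_q3 a b (by linarith) (by linarith)) t0 t1 hX t2
theorem sDAphk1 {X Y x : ℝ} (hF : SideOk PP tK tL pcB x) (hU : ThrOk PP tU pd x) (hq : InQ 3 Y) (a : 3 / 2 ≤ Y) (b : Y ≤ 841025061 / 536870912)
    (t0 : 0 < (w3W false).v Y - cv3r.v Y) (t1 : 0 < cv4r.v Y - (w3W false).v Y) (t2 : 0 < cv4r.v Y - X)
    (hX : (w3W false).v Y ≤ X) :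
    (pd 3).v X Y x * (Y - (2 : ℕ)) = (w3D false 2 kcg).v Y x + sD_Aphk1.v X Y x * (X - (w3W false).v Y) :=
  rt0 (gD_3_3 hU hq) (nD_q3 a b (by linarith) (by linarith)) t0 t1 hX t2
theorem sKAplk2 {X Y x : ℝ} (hF : SideOk PP tK tL pcB x) (hq : InQ 2 Y) (a : 379 / 256 < Y) (b : Y ≤ 3 / 2)
    (t0 : 0 < (w3W false).v Y - cv3p.v Y) (t1 : 0 < cv4p.v Y - (w3W false).v Y) (t2 : 0 < cv4p.v Y - X)
    (hX : (w3W false).v Y ≤ X) :
    (pcB 2).K.v X Y x = (w3K false 1 kcg).v Y x + sK_Aplk2.v X Y x * (X - (w3W false).v Y) :=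
  rt0 (gK_2_3 hF hq) (nK_q2 a b (by linarith) (by linarith)) t0 t1 hX t2
theorem sLAplk2 {X Y x : ℝ} (hF : SideOk PP tK tL pcB x) (hq : InQ 2 Y) (a : 379 / 256 < Y) (b : Y ≤ 3 / 2)
    (t0 : 0 < (w3W false).v Y - cv3p.v Y) (t1 : 0 < cv4p.v Y - (w3W false).v Y) (t2 : 0 < cv4p.v Y - X)
    (hX : (w3W false).v Y ≤ X) :
    (pcB 2).L.v X Y x = (w3Q false kcg).v Y x + sX_Aplk2.v X Y x * (X - (w3W false).v Y) :=
  rt0 (gL_2_3 hF hq) (nX_q2 a b (by linarith) (by linarith)) t0 t1 hX t2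
theorem sDAplk2 {X Y x : ℝ} (hF : SideOk PP tK tL pcB x) (hU : ThrOk PP tU pd x) (hq : InQ 2 Y) (a : 379 / 256 < Y) (b : Y ≤ 3 / 2)
    (t0 : 0 < (w3W false).v Y - cv3p.v Y) (t1 : 0 < cv4p.v Y - (w3W false).v Y) (t2 : 0 < cv4p.v Y - X)
    (hX : (w3W false).v Y ≤ X) :
    (pd 2).v X Y x * (Y - (1 : ℕ)) = (w3D false 1 kcg).v Y x + sD_Aplk2.v X Y x * (X - (w3W false).v Y) :=
  rt0 (gD_2_3 hU hq) (nD_q2 a b (by linarith) (by linarith)) t0 t1 hX t2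
theorem sKAphk2 {X Y x : ℝ} (hF : SideOk PP tK tL pcB x) (hq : InQ 3 Y) (a : 3 / 2 ≤ Y) (b : Y ≤ 841025061 / 536870912)
    (t0 : 0 < (w3W false).v Y - cv3r.v Y) (t1 : 0 < cv4r.v Y - (w3W false).v Y) (t2 : 0 < cv4r.v Y - X)
    (hX : (w3W false).v Y ≤ X) :
    (pcB 3).K.v X Y x = (w3K false 2 kcg).v Y x + sK_Aphk2.v X Y x * (X - (w3W false).v Y) :=
  rt0 (gK_3_3 hF hq) (nK_q3 a b (by linarith) (by linarith)) t0 t1 hX t2
theorem sLAphk2 {X Y x : ℝ} (hF : SideOk PP tK tL pcB x) (hq : InQ 3 Y) (a : 3 / 2 ≤ Y) (b : Y ≤ 841025061 / 536870912)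
    (t0 : 0 < (w3W false).v Y - cv3r.v Y) (t1 : 0 < cv4r.v Y - (w3W false).v Y) (t2 : 0 < cv4r.v Y - X)
    (hX : (w3W false).v Y ≤ X) :
    (pcB 3).L.v X Y x = (w3Q false kcg).v Y x + sX_Aphk2.v X Y x * (X - (w3W false).v Y) :=
  rt0 (gL_3_3 hF hq) (nX_q3 a b (by linarith) (by linarith)) t0 t1 hX t2
theorem sDAphk2 {X Y x : ℝ} (hF : SideOk PP tK tL pcB x) (hU : ThrOk PP tU pd x) (hq : InQ 3 Y) (a : 3 / 2 ≤ Y) (b : Y ≤ 841025061 / 536870912)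
    (t0 : 0 < (w3W false).v Y - cv3r.v Y) (t1 : 0 < cv4r.v Y - (w3W false).v Y) (t2 : 0 < cv4r.v Y - X)
    (hX : (w3W false).v Y ≤ X) :
    (pd 3).v X Y x * (Y - (2 : ℕ)) = (w3D false 2 kcg).v Y x + sD_Aphk2.v X Y x * (X - (w3W false).v Y) :=
  rt0 (gD_3_3 hU hq) (nD_q3 a b (by linarith) (by linarith)) t0 t1 hX t2
theorem sKAplk3 {X Y x : ℝ} (hF : SideOk PP tK tL pcB x) (hq : InQ 2 Y) (a : 379 / 256 < Y) (b : Y ≤ 3 / 2)
    (t0 : 0 < (w3W false).v Y - cv3p.v Y) (t1 : 0 < cv4p.v Y - (w3W false).v Y) (t2 : 0 < cv4p.v Y - X)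
    (hX : (w3W false).v Y ≤ X) :
    (pcB 2).K.v X Y x = (w3K false 1 kcg).v Y x + sK_Aplk3.v X Y x * (X - (w3W false).v Y) :=
  rt0 (gK_2_3 hF hq) (nK_q2 a b (by linarith) (by linarith)) t0 t1 hX t2
theorem sLAplk3 {X Y x : ℝ} (hF : SideOk PP tK tL pcB x) (hq : InQ 2 Y) (a : 379 / 256 < Y) (b : Y ≤ 3 / 2)
    (t0 : 0 < (w3W false).v Y - cv3p.v Y) (t1 : 0 < cv4p.v Y - (w3W false).v Y) (t2 : 0 < cv4p.v Y - X)
    (hX : (w3W false).v Y ≤ X) :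
    (pcB 2).L.v X Y x = (w3Q false kcg).v Y x + sX_Aplk3.v X Y x * (X - (w3W false).v Y) :=
  rt0 (gL_2_3 hF hq) (nX_q2 a b (by linarith) (by linarith)) t0 t1 hX t2
theorem sDAplk3 {X Y x : ℝ} (hF : SideOk PP tK tL pcB x) (hU : ThrOk PP tU pd x) (hq : InQ 2 Y) (a : 379 / 256 < Y) (b : Y ≤ 3 / 2)
    (t0 : 0 < (w3W false).v Y - cv3p.v Y) (t1 : 0 < cv4p.v Y - (w3W false).v Y) (t2 : 0 < cv4p.v Y - X)
    (hX : (w3W false).v Y ≤ X) :
    (pd 2).v X Y x * (Y - (1 : ℕ)) = (w3D false 1 kcg).v Y x + sD_Aplk3.v X Y x * (X - (w3W false).v Y) :=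
  rt0 (gD_2_3 hU hq) (nD_q2 a b (by linarith) (by linarith)) t0 t1 hX t2
theorem sKAphk3 {X Y x : ℝ} (hF : SideOk PP tK tL pcB x) (hq : InQ 3 Y) (a : 3 / 2 ≤ Y) (b : Y ≤ 841025061 / 536870912)
    (t0 : 0 < (w3W false).v Y - cv3r.v Y) (t1 : 0 < cv4r.v Y - (w3W false).v Y) (t2 : 0 < cv4r.v Y - X)
    (hX : (w3W false).v Y ≤ X) :
    (pcB 3).K.v X Y x = (w3K false 2 kcg).v Y x + sK_Aphk3.v X Y x * (X - (w3W false).v Y) :=
  rt0 (gK_3_3 hF hq) (nK_q3 a b (by linarith) (by linarith)) t0 t1 hX t2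
theorem sLAphk3 {X Y x : ℝ} (hF : SideOk PP tK tL pcB x) (hq : InQ 3 Y) (a : 3 / 2 ≤ Y) (b : Y ≤ 841025061 / 536870912)
    (t0 : 0 < (w3W false).v Y - cv3r.v Y) (t1 : 0 < cv4r.v Y - (w3W false).v Y) (t2 : 0 < cv4r.v Y - X)
    (hX : (w3W false).v Y ≤ X) :
    (pcB 3).L.v X Y x = (w3Q false kcg).v Y x + sX_Aphk3.v X Y x * (X - (w3W false).v Y) :=
  rt0 (gL_3_3 hF hq) (nX_q3 a b (by linarith) (by linarith)) t0 t1 hX t2
theorem sDAphk3 {X Y x : ℝ} (hF : SideOk PP tK tL pcB x) (hU : ThrOk PP tU pd x) (hq : InQ 3 Y) (a : 3 / 2 ≤ Y) (b : Y ≤ 841025061 / 536870912)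
    (t0 : 0 < (w3W false).v Y - cv3r.v Y) (t1 : 0 < cv4r.v Y - (w3W false).v Y) (t2 : 0 < cv4r.v Y - X)
    (hX : (w3W false).v Y ≤ X) :
    (pd 3).v X Y x * (Y - (2 : ℕ)) = (w3D false 2 kcg).v Y x + sD_Aphk3.v X Y x * (X - (w3W false).v Y) :=
  rt0 (gD_3_3 hU hq) (nD_q3 a b (by linarith) (by linarith)) t0 t1 hX t2
theorem sKAml {X Y x : ℝ} (hF : SideOk PP tK tL pcB x) (hq : InQ 2 Y) (a : 379 / 256 < Y) (b : Y ≤ 3 / 2)
    (t0 : 0 < (w3W false).v Y - cv3p.v Y) (t1 : 0 < cv4p.v Y - (w3W false).v Y) (t2 : 0 < X - cv3p.v Y)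
    (hX : X ≤ (w3W false).v Y) :
    (pcB 2).K.v X Y x = (w3K false 1 kcg).v Y x + sK_Aml.v X Y x * (X - (w3W false).v Y) :=
  lf0 (gK_2_3 hF hq) (nK_q2 a b (by linarith) (by linarith)) t0 t1 hX t2
theorem sLAml {X Y x : ℝ} (hF : SideOk PP tK tL pcB x) (hq : InQ 2 Y) (a : 379 / 256 < Y) (b : Y ≤ 3 / 2)
    (t0 : 0 < (w3W false).v Y - cv3p.v Y) (t1 : 0 < cv4p.v Y - (w3W false).v Y) (t2 : 0 < X - cv3p.v Y)
    (hX : X ≤ (w3W false).v Y) :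
    (pcB 2).L.v X Y x = (w3Q false kcg).v Y x + sX_Aml.v X Y x * (X - (w3W false).v Y) :=
  lf0 (gL_2_3 hF hq) (nX_q2 a b (by linarith) (by linarith)) t0 t1 hX t2
theorem sDAml {X Y x : ℝ} (hF : SideOk PP tK tL pcB x) (hU : ThrOk PP tU pd x) (hq : InQ 2 Y) (a : 379 / 256 < Y) (b : Y ≤ 3 / 2)
    (t0 : 0 < (w3W false).v Y - cv3p.v Y) (t1 : 0 < cv4p.v Y - (w3W false).v Y) (t2 : 0 < X - cv3p.v Y)
    (hX : X ≤ (w3W false).v Y) :
    (pd 2).v X Y x * (Y - (1 : ℕ)) = (w3D false 1 kcg).v Y x + sD_Aml.v X Y x * (X - (w3W false).v Y) :=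
  lf0 (gD_2_3 hU hq) (nD_q2 a b (by linarith) (by linarith)) t0 t1 hX t2
theorem sKAmh {X Y x : ℝ} (hF : SideOk PP tK tL pcB x) (hq : InQ 3 Y) (a : 3 / 2 ≤ Y) (b : Y ≤ 841025061 / 536870912)
    (t0 : 0 < (w3W false).v Y - cv3r.v Y) (t1 : 0 < cv4r.v Y - (w3W false).v Y) (t2 : 0 < X - cv3r.v Y)
    (hX : X ≤ (w3W false).v Y) :
    (pcB 3).K.v X Y x = (w3K false 2 kcg).v Y x + sK_Amh.v X Y x * (X - (w3W false).v Y) :=
  lf0 (gK_3_3 hF hq) (nK_q3 a b (by linarith) (by linarith)) t0 t1 hX t2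
theorem sLAmh {X Y x : ℝ} (hF : SideOk PP tK tL pcB x) (hq : InQ 3 Y) (a : 3 / 2 ≤ Y) (b : Y ≤ 841025061 / 536870912)
    (t0 : 0 < (w3W false).v Y - cv3r.v Y) (t1 : 0 < cv4r.v Y - (w3W false).v Y) (t2 : 0 < X - cv3r.v Y)
    (hX : X ≤ (w3W false).v Y) :
    (pcB 3).L.v X Y x = (w3Q false kcg).v Y x + sX_Amh.v X Y x * (X - (w3W false).v Y) :=
  lf0 (gL_3_3 hF hq) (nX_q3 a b (by linarith) (by linarith)) t0 t1 hX t2
theorem sDAmh {X Y x : ℝ} (hF : SideOk PP tK tL pcB x) (hU : ThrOk PP tU pd x) (hq : InQ 3 Y) (a : 3 / 2 ≤ Y) (b : Y ≤ 841025061 / 536870912)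
    (t0 : 0 < (w3W false).v Y - cv3r.v Y) (t1 : 0 < cv4r.v Y - (w3W false).v Y) (t2 : 0 < X - cv3r.v Y)
    (hX : X ≤ (w3W false).v Y) :
    (pd 3).v X Y x * (Y - (2 : ℕ)) = (w3D false 2 kcg).v Y x + sD_Amh.v X Y x * (X - (w3W false).v Y) :=
  lf0 (gD_3_3 hU hq) (nD_q3 a b (by linarith) (by linarith)) t0 t1 hX t2
theorem sKBpl {X Y x : ℝ} (hF : SideOk PP tK tL pcB x) (hq : InQ 1 Y) (a : 1 / 2 ≤ Y) (b : Y ≤ 133 / 256)
    (t0 : 0 < (w3W true).v Y - cv3m.v Y) (t1 : 0 < cv4m.v Y - (w3W true).v Y) (t2 : 0 < X - cv3m.v Y)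
    (hX : X ≤ (w3W true).v Y) :
    (pcB 1).K.v X Y x = (w3K true 1 kcg).v Y x + sK_Bpl.v X Y x * (X - (w3W true).v Y) :=
  lf0 (gK_1_3 hF hq) (nK_q1 a b (by linarith) (by linarith)) t0 t1 hX t2
theorem sLBpl {X Y x : ℝ} (hF : SideOk PP tK tL pcB x) (hq : InQ 1 Y) (a : 1 / 2 ≤ Y) (b : Y ≤ 133 / 256)
    (t0 : 0 < (w3W true).v Y - cv3m.v Y) (t1 : 0 < cv4m.v Y - (w3W true).v Y) (t2 : 0 < X - cv3m.v Y)
    (hX : X ≤ (w3W true).v Y) :
    (pcB 1).L.v X Y x = (w3Q true kcg).v Y x + sX_Bpl.v X Y x * (X - (w3W true).v Y) :=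
  lf0 (gL_1_3 hF hq) (nX_q1 a b (by linarith) (by linarith)) t0 t1 hX t2
theorem sDBpl {X Y x : ℝ} (hF : SideOk PP tK tL pcB x) (hU : ThrOk PP tU pd x) (hq : InQ 1 Y) (a : 1 / 2 ≤ Y) (b : Y ≤ 133 / 256)
    (t0 : 0 < (w3W true).v Y - cv3m.v Y) (t1 : 0 < cv4m.v Y - (w3W true).v Y) (t2 : 0 < X - cv3m.v Y)
    (hX : X ≤ (w3W true).v Y) :
    (pd 1).v X Y x * (Y - (1 : ℕ)) = (w3D true 1 kcg).v Y x + sD_Bpl.v X Y x * (X - (w3W true).v Y) :=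
  lf0 (gD_1_3 hU hq) (nD_q1 a b (by linarith) (by linarith)) t0 t1 hX t2
theorem sKBph {X Y x : ℝ} (hF : SideOk PP tK tL pcB x) (hq : InQ 0 Y) (a : 232716763 / 536870912 < Y) (b : Y ≤ 1 / 2)
    (t0 : 0 < (w3W true).v Y - cv3m.v Y) (t1 : 0 < cv4m.v Y - (w3W true).v Y) (t2 : 0 < X - cv3m.v Y)
    (hX : X ≤ (w3W true).v Y) :
    (pcB 0).K.v X Y x = (w3K true 0 kcg).v Y x + sK_Bph.v X Y x * (X - (w3W true).v Y) :=
  lf0 (gK_0_3 hF hq) (nK_q0 a b (by linarith) (by linarith)) t0 t1 hX t2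
theorem sLBph {X Y x : ℝ} (hF : SideOk PP tK tL pcB x) (hq : InQ 0 Y) (a : 232716763 / 536870912 < Y) (b : Y ≤ 1 / 2)
    (t0 : 0 < (w3W true).v Y - cv3m.v Y) (t1 : 0 < cv4m.v Y - (w3W true).v Y) (t2 : 0 < X - cv3m.v Y)
    (hX : X ≤ (w3W true).v Y) :
    (pcB 0).L.v X Y x = (w3Q true kcg).v Y x + sX_Bph.v X Y x * (X - (w3W true).v Y) :=
  lf0 (gL_0_3 hF hq) (nX_q0 a b (by linarith) (by linarith)) t0 t1 hX t2
theorem sDBph {X Y x : ℝ} (hF : SideOk PP tK tL pcB x) (hU : ThrOk PP tU pd x) (hq : InQ 0 Y) (a : 232716763 / 536870912 < Y) (b : Y ≤ 1 / 2)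
    (t0 : 0 < (w3W true).v Y - cv3m.v Y) (t1 : 0 < cv4m.v Y - (w3W true).v Y) (t2 : 0 < X - cv3m.v Y)
    (hX : X ≤ (w3W true).v Y) :
    (pd 0).v X Y x * (Y - (0 : ℕ)) = (w3D true 0 kcg).v Y x + sD_Bph.v X Y x * (X - (w3W true).v Y) :=
  lf0 (gD_0_3 hU hq) (nD_q0 a b (by linarith) (by linarith)) t0 t1 hX t2
theorem sKBplk1 {X Y x : ℝ} (hF : SideOk PP tK tL pcB x) (hq : InQ 1 Y) (a : 1 / 2 ≤ Y) (b : Y ≤ 133 / 256)
    (t0 : 0 < (w3W true).v Y - cv3m.v Y) (t1 : 0 < cv4m.v Y - (w3W true).v Y) (t2 : 0 < X - cv3m.v Y)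
    (hX : X ≤ (w3W true).v Y) :
    (pcB 1).K.v X Y x = (w3K true 1 kcg).v Y x + sK_Bplk1.v X Y x * (X - (w3W true).v Y) :=
  lf0 (gK_1_3 hF hq) (nK_q1 a b (by linarith) (by linarith)) t0 t1 hX t2
theorem sLBplk1 {X Y x : ℝ} (hF : SideOk PP tK tL pcB x) (hq : InQ 1 Y) (a : 1 / 2 ≤ Y) (b : Y ≤ 133 / 256)
    (t0 : 0 < (w3W true).v Y - cv3m.v Y) (t1 : 0 < cv4m.v Y - (w3W true).v Y) (t2 : 0 < X - cv3m.v Y)
    (hX : X ≤ (w3W true).v Y) :
    (pcB 1).L.v X Y x = (w3Q true kcg).v Y x + sX_Bplk1.v X Y x * (X - (w3W true).v Y) :=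
  lf0 (gL_1_3 hF hq) (nX_q1 a b (by linarith) (by linarith)) t0 t1 hX t2
theorem sDBplk1 {X Y x : ℝ} (hF : SideOk PP tK tL pcB x) (hU : ThrOk PP tU pd x) (hq : InQ 1 Y) (a : 1 / 2 ≤ Y) (b : Y ≤ 133 / 256)
    (t0 : 0 < (w3W true).v Y - cv3m.v Y) (t1 : 0 < cv4m.v Y - (w3W true).v Y) (t2 : 0 < X - cv3m.v Y)
    (hX : X ≤ (w3W true).v Y) :
    (pd 1).v X Y x * (Y - (1 : ℕ)) = (w3D true 1 kcg).v Y x + sD_Bplk1.v X Y x * (X - (w3W true).v Y) :=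
  lf0 (gD_1_3 hU hq) (nD_q1 a b (by linarith) (by linarith)) t0 t1 hX t2
theorem sKBphk1 {X Y x : ℝ} (hF : SideOk PP tK tL pcB x) (hq : InQ 0 Y) (a : 232716763 / 536870912 < Y) (b : Y ≤ 1 / 2)
    (t0 : 0 < (w3W true).v Y - cv3m.v Y) (t1 : 0 < cv4m.v Y - (w3W true).v Y) (t2 : 0 < X - cv3m.v Y)
    (hX : X ≤ (w3W true).v Y) :
    (pcB 0).K.v X Y x = (w3K true 0 kcg).v Y x + sK_Bphk1.v X Y x * (X - (w3W true).v Y) :=
  lf0 (gK_0_3 hF hq) (nK_q0 a b (by linarith) (by linarith)) t0 t1 hX t2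
theorem sLBphk1 {X Y x : ℝ} (hF : SideOk PP tK tL pcB x) (hq : InQ 0 Y) (a : 232716763 / 536870912 < Y) (b : Y ≤ 1 / 2)
    (t0 : 0 < (w3W true).v Y - cv3m.v Y) (t1 : 0 < cv4m.v Y - (w3W true).v Y) (t2 : 0 < X - cv3m.v Y)
    (hX : X ≤ (w3W true).v Y) :
    (pcB 0).L.v X Y x = (w3Q true kcg).v Y x + sX_Bphk1.v X Y x * (X - (w3W true).v Y) :=
  lf0 (gL_0_3 hF hq) (nX_q0 a b (by linarith) (by linarith)) t0 t1 hX t2
theorem sDBphk1 {X Y x : ℝ} (hF : SideOk PP tK tL pcB x) (hU : ThrOk PP tU pd x) (hq : InQ 0 Y) (a : 232716763 / 536870912 < Y) (b : Y ≤ 1 / 2)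
    (t0 : 0 < (w3W true).v Y - cv3m.v Y) (t1 : 0 < cv4m.v Y - (w3W true).v Y) (t2 : 0 < X - cv3m.v Y)
    (hX : X ≤ (w3W true).v Y) :
    (pd 0).v X Y x * (Y - (0 : ℕ)) = (w3D true 0 kcg).v Y x + sD_Bphk1.v X Y x * (X - (w3W true).v Y) :=
  lf0 (gD_0_3 hU hq) (nD_q0 a b (by linarith) (by linarith)) t0 t1 hX t2
theorem sKBplk2 {X Y x : ℝ} (hF : SideOk PP tK tL pcB x) (hq : InQ 1 Y) (a : 1 / 2 ≤ Y) (b : Y ≤ 133 / 256)
    (t0 : 0 < (w3W true).v Y - cv3m.v Y) (t1 : 0 < cv4m.v Y - (w3W true).v Y) (t2 : 0 < X - cv3m.v Y)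
    (hX : X ≤ (w3W true).v Y) :
    (pcB 1).K.v X Y x = (w3K true 1 kcg).v Y x + sK_Bplk2.v X Y x * (X - (w3W true).v Y) :=
  lf0 (gK_1_3 hF hq) (nK_q1 a b (by linarith) (by linarith)) t0 t1 hX t2
theorem sLBplk2 {X Y x : ℝ} (hF : SideOk PP tK tL pcB x) (hq : InQ 1 Y) (a : 1 / 2 ≤ Y) (b : Y ≤ 133 / 256)
    (t0 : 0 < (w3W true).v Y - cv3m.v Y) (t1 : 0 < cv4m.v Y - (w3W true).v Y) (t2 : 0 < X - cv3m.v Y)
    (hX : X ≤ (w3W true).v Y) :
    (pcB 1).L.v X Y x = (w3Q true kcg).v Y x + sX_Bplk2.v X Y x * (X - (w3W true).v Y) :=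
  lf0 (gL_1_3 hF hq) (nX_q1 a b (by linarith) (by linarith)) t0 t1 hX t2
theorem sDBplk2 {X Y x : ℝ} (hF : SideOk PP tK tL pcB x) (hU : ThrOk PP tU pd x) (hq : InQ 1 Y) (a : 1 / 2 ≤ Y) (b : Y ≤ 133 / 256)
    (t0 : 0 < (w3W true).v Y - cv3m.v Y) (t1 : 0 < cv4m.v Y - (w3W true).v Y) (t2 : 0 < X - cv3m.v Y)
    (hX : X ≤ (w3W true).v Y) :
    (pd 1).v X Y x * (Y - (1 : ℕ)) = (w3D true 1 kcg).v Y x + sD_Bplk2.v X Y x * (X - (w3W true).v Y) :=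
  lf0 (gD_1_3 hU hq) (nD_q1 a b (by linarith) (by linarith)) t0 t1 hX t2
theorem sKBphk2 {X Y x : ℝ} (hF : SideOk PP tK tL pcB x) (hq : InQ 0 Y) (a : 232716763 / 536870912 < Y) (b : Y ≤ 1 / 2)
    (t0 : 0 < (w3W true).v Y - cv3m.v Y) (t1 : 0 < cv4m.v Y - (w3W true).v Y) (t2 : 0 < X - cv3m.v Y)
    (hX : X ≤ (w3W true).v Y) :
    (pcB 0).K.v X Y x = (w3K true 0 kcg).v Y x + sK_Bphk2.v X Y x * (X - (w3W true).v Y) :=
  lf0 (gK_0_3 hF hq) (nK_q0 a b (by linarith) (by linarith)) t0 t1 hX t2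
theorem sLBphk2 {X Y x : ℝ} (hF : SideOk PP tK tL pcB x) (hq : InQ 0 Y) (a : 232716763 / 536870912 < Y) (b : Y ≤ 1 / 2)
    (t0 : 0 < (w3W true).v Y - cv3m.v Y) (t1 : 0 < cv4m.v Y - (w3W true).v Y) (t2 : 0 < X - cv3m.v Y)
    (hX : X ≤ (w3W true).v Y) :
    (pcB 0).L.v X Y x = (w3Q true kcg).v Y x + sX_Bphk2.v X Y x * (X - (w3W true).v Y) :=
  lf0 (gL_0_3 hF hq) (nX_q0 a b (by linarith) (by linarith)) t0 t1 hX t2
theorem sDBphk2 {X Y x : ℝ} (hF : SideOk PP tK tL pcB x) (hU : ThrOk PP tU pd x) (hq : InQ 0 Y) (a : 232716763 / 536870912 < Y) (b : Y ≤ 1 / 2)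
    (t0 : 0 < (w3W true).v Y - cv3m.v Y) (t1 : 0 < cv4m.v Y - (w3W true).v Y) (t2 : 0 < X - cv3m.v Y)
    (hX : X ≤ (w3W true).v Y) :
    (pd 0).v X Y x * (Y - (0 : ℕ)) = (w3D true 0 kcg).v Y x + sD_Bphk2.v X Y x * (X - (w3W true).v Y) :=
  lf0 (gD_0_3 hU hq) (nD_q0 a b (by linarith) (by linarith)) t0 t1 hX t2
theorem sKBplk3 {X Y x : ℝ} (hF : SideOk PP tK tL pcB x) (hq : InQ 1 Y) (a : 1 / 2 ≤ Y) (b : Y ≤ 133 / 256)
    (t0 : 0 < (w3W true).v Y - cv3m.v Y) (t1 : 0 < cv4m.v Y - (w3W true).v Y) (t2 : 0 < X - cv3m.v Y)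
    (hX : X ≤ (w3W true).v Y) :
    (pcB 1).K.v X Y x = (w3K true 1 kcg).v Y x + sK_Bplk3.v X Y x * (X - (w3W true).v Y) :=
  lf0 (gK_1_3 hF hq) (nK_q1 a b (by linarith) (by linarith)) t0 t1 hX t2
theorem sLBplk3 {X Y x : ℝ} (hF : SideOk PP tK tL pcB x) (hq : InQ 1 Y) (a : 1 / 2 ≤ Y) (b : Y ≤ 133 / 256)
    (t0 : 0 < (w3W true).v Y - cv3m.v Y) (t1 : 0 < cv4m.v Y - (w3W true).v Y) (t2 : 0 < X - cv3m.v Y)
    (hX : X ≤ (w3W true).v Y) :
    (pcB 1).L.v X Y x = (w3Q true kcg).v Y x + sX_Bplk3.v X Y x * (X - (w3W true).v Y) :=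
  lf0 (gL_1_3 hF hq) (nX_q1 a b (by linarith) (by linarith)) t0 t1 hX t2
theorem sDBplk3 {X Y x : ℝ} (hF : SideOk PP tK tL pcB x) (hU : ThrOk PP tU pd x) (hq : InQ 1 Y) (a : 1 / 2 ≤ Y) (b : Y ≤ 133 / 256)
    (t0 : 0 < (w3W true).v Y - cv3m.v Y) (t1 : 0 < cv4m.v Y - (w3W true).v Y) (t2 : 0 < X - cv3m.v Y)
    (hX : X ≤ (w3W true).v Y) :
    (pd 1).v X Y x * (Y - (1 : ℕ)) = (w3D true 1 kcg).v Y x + sD_Bplk3.v X Y x * (X - (w3W true).v Y) :=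
  lf0 (gD_1_3 hU hq) (nD_q1 a b (by linarith) (by linarith)) t0 t1 hX t2
theorem sKBphk3 {X Y x : ℝ} (hF : SideOk PP tK tL pcB x) (hq : InQ 0 Y) (a : 232716763 / 536870912 < Y) (b : Y ≤ 1 / 2)
    (t0 : 0 < (w3W true).v Y - cv3m.v Y) (t1 : 0 < cv4m.v Y - (w3W true).v Y) (t2 : 0 < X - cv3m.v Y)
    (hX : X ≤ (w3W true).v Y) :
    (pcB 0).K.v X Y x = (w3K true 0 kcg).v Y x + sK_Bphk3.v X Y x * (X - (w3W true).v Y) :=
  lf0 (gK_0_3 hF hq) (nK_q0 a b (by linarith) (by linarith)) t0 t1 hX t2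
theorem sLBphk3 {X Y x : ℝ} (hF : SideOk PP tK tL pcB x) (hq : InQ 0 Y) (a : 232716763 / 536870912 < Y) (b : Y ≤ 1 / 2)
    (t0 : 0 < (w3W true).v Y - cv3m.v Y) (t1 : 0 < cv4m.v Y - (w3W true).v Y) (t2 : 0 < X - cv3m.v Y)
    (hX : X ≤ (w3W true).v Y) :
    (pcB 0).L.v X Y x = (w3Q true kcg).v Y x + sX_Bphk3.v X Y x * (X - (w3W true).v Y) :=
  lf0 (gL_0_3 hF hq) (nX_q0 a b (by linarith) (by linarith)) t0 t1 hX t2
theorem sDBphk3 {X Y x : ℝ} (hF : SideOk PP tK tL pcB x) (hU : ThrOk PP tU pd x) (hq : InQ 0 Y) (a : 232716763 / 536870912 < Y) (b : Y ≤ 1 / 2)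
    (t0 : 0 < (w3W true).v Y - cv3m.v Y) (t1 : 0 < cv4m.v Y - (w3W true).v Y) (t2 : 0 < X - cv3m.v Y)
    (hX : X ≤ (w3W true).v Y) :
    (pd 0).v X Y x * (Y - (0 : ℕ)) = (w3D true 0 kcg).v Y x + sD_Bphk3.v X Y x * (X - (w3W true).v Y) :=
  lf0 (gD_0_3 hU hq) (nD_q0 a b (by linarith) (by linarith)) t0 t1 hX t2
theorem sKBml {X Y x : ℝ} (hF : SideOk PP tK tL pcB x) (hq : InQ 1 Y) (a : 1 / 2 ≤ Y) (b : Y ≤ 133 / 256)
    (t0 : 0 < (w3W true).v Y - cv3m.v Y) (t1 : 0 < cv4m.v Y - (w3W true).v Y) (t2 : 0 < cv4m.v Y - X)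
    (hX : (w3W true).v Y ≤ X) :
    (pcB 1).K.v X Y x = (w3K true 1 kcg).v Y x + sK_Bml.v X Y x * (X - (w3W true).v Y) :=
  rt0 (gK_1_3 hF hq) (nK_q1 a b (by linarith) (by linarith)) t0 t1 hX t2
theorem sLBml {X Y x : ℝ} (hF : SideOk PP tK tL pcB x) (hq : InQ 1 Y) (a : 1 / 2 ≤ Y) (b : Y ≤ 133 / 256)
    (t0 : 0 < (w3W true).v Y - cv3m.v Y) (t1 : 0 < cv4m.v Y - (w3W true).v Y) (t2 : 0 < cv4m.v Y - X)
    (hX : (w3W true).v Y ≤ X) :
    (pcB 1).L.v X Y x = (w3Q true kcg).v Y x + sX_Bml.v X Y x * (X - (w3W true).v Y) :=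
  rt0 (gL_1_3 hF hq) (nX_q1 a b (by linarith) (by linarith)) t0 t1 hX t2
theorem sDBml {X Y x : ℝ} (hF : SideOk PP tK tL pcB x) (hU : ThrOk PP tU pd x) (hq : InQ 1 Y) (a : 1 / 2 ≤ Y) (b : Y ≤ 133 / 256)
    (t0 : 0 < (w3W true).v Y - cv3m.v Y) (t1 : 0 < cv4m.v Y - (w3W true).v Y) (t2 : 0 < cv4m.v Y - X)
    (hX : (w3W true).v Y ≤ X) :
    (pd 1).v X Y x * (Y - (1 : ℕ)) = (w3D true 1 kcg).v Y x + sD_Bml.v X Y x * (X - (w3W true).v Y) :=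
  rt0 (gD_1_3 hU hq) (nD_q1 a b (by linarith) (by linarith)) t0 t1 hX t2
theorem sKBmh {X Y x : ℝ} (hF : SideOk PP tK tL pcB x) (hq : InQ 0 Y) (a : 232716763 / 536870912 < Y) (b : Y ≤ 1 / 2)
    (t0 : 0 < (w3W true).v Y - cv3m.v Y) (t1 : 0 < cv4m.v Y - (w3W true).v Y) (t2 : 0 < cv4m.v Y - X)
    (hX : (w3W true).v Y ≤ X) :
    (pcB 0).K.v X Y x = (w3K true 0 kcg).v Y x + sK_Bmh.v X Y x * (X - (w3W true).v Y) :=
  rt0 (gK_0_3 hF hq) (nK_q0 a b (by linarith) (by linarith)) t0 t1 hX t2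
theorem sLBmh {X Y x : ℝ} (hF : SideOk PP tK tL pcB x) (hq : InQ 0 Y) (a : 232716763 / 536870912 < Y) (b : Y ≤ 1 / 2)
    (t0 : 0 < (w3W true).v Y - cv3m.v Y) (t1 : 0 < cv4m.v Y - (w3W true).v Y) (t2 : 0 < cv4m.v Y - X)
    (hX : (w3W true).v Y ≤ X) :
    (pcB 0).L.v X Y x = (w3Q true kcg).v Y x + sX_Bmh.v X Y x * (X - (w3W true).v Y) :=
  rt0 (gL_0_3 hF hq) (nX_q0 a b (by linarith) (by linarith)) t0 t1 hX t2
theorem sDBmh {X Y x : ℝ} (hF : SideOk PP tK tL pcB x) (hU : ThrOk PP tU pd x) (hq : InQ 0 Y) (a : 232716763 / 536870912 < Y) (b : Y ≤ 1 / 2)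
    (t0 : 0 < (w3W true).v Y - cv3m.v Y) (t1 : 0 < cv4m.v Y - (w3W true).v Y) (t2 : 0 < cv4m.v Y - X)
    (hX : (w3W true).v Y ≤ X) :
    (pd 0).v X Y x * (Y - (0 : ℕ)) = (w3D true 0 kcg).v Y x + sD_Bmh.v X Y x * (X - (w3W true).v Y) :=
  rt0 (gD_0_3 hU hq) (nD_q0 a b (by linarith) (by linarith)) t0 t1 hX t2
theorem rX {x : ℝ} (x0 : 1 / 2 ≤ x) (x1 : x ≤ 293668389 / 536870912) : ((536870912 : ℕ) : ℝ) / S ≤ x ∧ x ≤ (((536870912 : ℕ) : ℝ) + (50465866 : ℕ)) / S := by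
  unfold S
  push_cast
  constructor <;> linarith
theorem xr {x : ℝ} (hx : ((536870912 : ℕ) : ℝ) / S ≤ x) (hx' : x ≤ (((536870912 : ℕ) : ℝ) + (50465866 : ℕ)) / S) : 1 / 2 ≤ x ∧ x ≤ 293668389 / 536870912 := by
  unfold S at hx hx'
  push_cast at hx hx'
  constructor <;> linarith
theorem w_Apl {u b x : ℝ} (x0 : 1 / 2 ≤ x) (x1 : x ≤ 293668389 / 536870912) (h1 : |u| < 5 / 256) (h2 : |b| < 1 / 32) (h3 : |u + b| < 5 / 256) (hb : 0 ≤ b) : (w3W false).v (1 + (x + u + b)) ≤ c1n (x + u) - sp.xs.v u b x := by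
  obtain ⟨u1, u2⟩ := abs_lt.1 h1
  obtain ⟨b1, b2⟩ := abs_lt.1 h2
  obtain ⟨v1, v2⟩ := abs_lt.1 h3
  have cm1 : c1n (1 + b) ≤ 1 / 2 := c1n_half hb
  have cm2 : c1n (x + u) ≥ c1n (x + u + b) := c1n_le' (by linarith) (by linarith)
  rw [w3W_A]
  show c1n (x + u + b) - 1 / 2 ≤ c1n (x + u) - c1n (1 + b)
  linarith
theorem zKApl {u b x : ℝ} (hF : SideOk PP tK tL pcB x) (x0 : 1 / 2 ≤ x) (x1 : x ≤ 293668389 / 536870912) (h1 : |u| < 5 / 256) (h2 : |b| < 1 / 32) (h3 : |u + b| < 5 / 256) (hb : 0 ≤ b) (q3 : InQ 2 (1 + (x + u + b)))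
    (hc : ∀ G ∈ cx_Apl, 0 < G.v u b x) : (pcB 2).K.v (c1n (x + u) - sp.xs.v u b x) (1 + (x + u + b)) x =
    ((c1n (x + u + b) - 1 / 2) * cG (x + u + b) + kcg.v (psn (x + u + b)) x) * (x + u + b) + sK_Apl.v (c1n (x + u) - sp.xs.v u b x) (1 + (x + u + b)) x * (c1n (x + u) - sp.xs.v u b x - (c1n (x + u + b) - 1 / 2)) := by
  have hw := w_Apl x0 x1 h1 h2 h3 hb
  obtain ⟨u1, u2⟩ := abs_lt.1 h1
  obtain ⟨b1, b2⟩ := abs_lt.1 h2
  obtain ⟨v1, v2⟩ := abs_lt.1 h3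
  have y1 := q3.1
  have y2 := q3.2
  have c0 : 0 < (tCC (w3W false) cv3p).v (c1n (x + u) - sp.xs.v u b x) (1 + (x + u + b)) x := hc (f3A sp.xs (tCC (w3W false) cv3p)) (by unfold cx_Apl; simp only [List.mem_cons, true_or, or_true])
  have c1 : 0 < (tCC cv4p (w3W false)).v (c1n (x + u) - sp.xs.v u b x) (1 + (x + u + b)) x := hc (f3A sp.xs (tCC cv4p (w3W false))) (by unfold cx_Apl; simp only [List.mem_cons, true_or, or_true])
  have c2 : 0 < (tCX cv4p).v (c1n (x + u) - sp.xs.v u b x) (1 + (x + u + b)) x := hc (f3A sp.xs (tCX cv4p)) (by unfold cx_Apl; simp only [List.mem_cons, true_or, or_true])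
  refine (sKApl hF q3 (by linarith) (by linarith) c0 c1 c2 hw).trans ?_
  rw [w3K_A, w3W_A]
  push_cast
  ring
theorem zLApl {u b x : ℝ} (hF : SideOk PP tK tL pcB x) (x0 : 1 / 2 ≤ x) (x1 : x ≤ 293668389 / 536870912) (h1 : |u| < 5 / 256) (h2 : |b| < 1 / 32) (h3 : |u + b| < 5 / 256) (hb : 0 ≤ b) (q3 : InQ 2 (1 + (x + u + b)))
    (hc : ∀ G ∈ cx_Apl, 0 < G.v u b x) : (pcB 2).L.v (c1n (x + u) - sp.xs.v u b x) (1 + (x + u + b)) x =
    cQ x (x + u + b) (kcg.v (psn (x + u + b)) x) + sX_Apl.v (c1n (x + u) - sp.xs.v u b x) (1 + (x + u + b)) x * (c1n (x + u) - sp.xs.v u b x - (c1n (x + u + b) - 1 / 2)) := by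
  have hw := w_Apl x0 x1 h1 h2 h3 hb
  obtain ⟨u1, u2⟩ := abs_lt.1 h1
  obtain ⟨b1, b2⟩ := abs_lt.1 h2
  obtain ⟨v1, v2⟩ := abs_lt.1 h3
  have y1 := q3.1
  have y2 := q3.2
  have c0 : 0 < (tCC (w3W false) cv3p).v (c1n (x + u) - sp.xs.v u b x) (1 + (x + u + b)) x := hc (f3A sp.xs (tCC (w3W false) cv3p)) (by unfold cx_Apl; simp only [List.mem_cons, true_or, or_true])
  have c1 : 0 < (tCC cv4p (w3W false)).v (c1n (x + u) - sp.xs.v u b x) (1 + (x + u + b)) x := hc (f3A sp.xs (tCC cv4p (w3W false))) (by unfold cx_Apl; simp only [List.mem_cons, true_or, or_true])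
  have c2 : 0 < (tCX cv4p).v (c1n (x + u) - sp.xs.v u b x) (1 + (x + u + b)) x := hc (f3A sp.xs (tCX cv4p)) (by unfold cx_Apl; simp only [List.mem_cons, true_or, or_true])
  refine (sLApl hF q3 (by linarith) (by linarith) c0 c1 c2 hw).trans ?_
  rw [w3Q_A, w3W_A]
theorem zDApl {u b x : ℝ} (hF : SideOk PP tK tL pcB x) (hU : ThrOk PP tU pd x) (x0 : 1 / 2 ≤ x) (x1 : x ≤ 293668389 / 536870912) (h1 : |u| < 5 / 256) (h2 : |b| < 1 / 32) (h3 : |u + b| < 5 / 256) (hb : 0 ≤ b) (q3 : InQ 2 (1 + (x + u + b)))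
    (hc : ∀ G ∈ cx_Apl, 0 < G.v u b x) : (pd 2).v (c1n (x + u) - sp.xs.v u b x) (1 + (x + u + b)) x * (x + u + b) =
    (cP (x + u + b) - 1 / 2 * cD (x + u + b) - (cR (x + u + b) + 2 * c1n (x + u + b) - 1) * kcg.v (psn (x + u + b)) x) * (x + u + b) + sD_Apl.v (c1n (x + u) - sp.xs.v u b x) (1 + (x + u + b)) x * (c1n (x + u) - sp.xs.v u b x - (c1n (x + u + b) - 1 / 2)) := by
  have hw := w_Apl x0 x1 h1 h2 h3 hb
  obtain ⟨u1, u2⟩ := abs_lt.1 h1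
  obtain ⟨b1, b2⟩ := abs_lt.1 h2
  obtain ⟨v1, v2⟩ := abs_lt.1 h3
  have y1 := q3.1
  have y2 := q3.2
  have c0 : 0 < (tCC (w3W false) cv3p).v (c1n (x + u) - sp.xs.v u b x) (1 + (x + u + b)) x := hc (f3A sp.xs (tCC (w3W false) cv3p)) (by unfold cx_Apl; simp only [List.mem_cons, true_or, or_true])
  have c1 : 0 < (tCC cv4p (w3W false)).v (c1n (x + u) - sp.xs.v u b x) (1 + (x + u + b)) x := hc (f3A sp.xs (tCC cv4p (w3W false))) (by unfold cx_Apl; simp only [List.mem_cons, true_or, or_true])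
  have c2 : 0 < (tCX cv4p).v (c1n (x + u) - sp.xs.v u b x) (1 + (x + u + b)) x := hc (f3A sp.xs (tCX cv4p)) (by unfold cx_Apl; simp only [List.mem_cons, true_or, or_true])
  have e := sDApl hF hU q3 (by linarith) (by linarith) c0 c1 c2 hw
  rw [w3D_A, w3W_A] at e
  push_cast at e
  linear_combination e
theorem thrU {x : ℝ} (hx : ((536870912 : ℕ) : ℝ) / S ≤ x) (hx' : x ≤ (((536870912 : ℕ) : ℝ) + (50465866 : ℕ)) / S) : ThrOk PP tU pd x := ⟨pinU hx hx', thU (pinU hx hx')⟩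
theorem eng_n (x : ℝ) : eng.v x = 1 + mun 3 x * cR x := (en_v x).trans (by rw [gug_v])
theorem dc {x : ℝ} (x0 : 1 / 2 ≤ x) (x1 : x ≤ 293668389 / 536870912) : DC (3 / 10) (1741 / 1000) (673 / 1000) x := by
  have i : 1 / 8 / x ≤ 1 / 8 / (1 / 2) := div_le_div_of_nonneg_left (by norm_num) (by norm_num) x0
  exact ⟨by norm_num, by norm_num, by linarith, by linarith, by norm_num, by norm_num; linarith, by norm_num, by norm_num at i ⊢; nlinarith, by norm_num; nlinarith⟩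
theorem fE_Apl {a : ℕ} {x u b κ τ : ℝ} (hF : SideOk PP tK tL pcB x) (hU : ThrOk PP tU pd x) (hκ : κ * h0 = ken x)
    (x0 : 1 / 2 ≤ x) (x1 : x ≤ 293668389 / 536870912) (h1 : |u| < 5 / 256) (h2 : |b| < 1 / 32) (h3 : |u + b| < 5 / 256) (F : FactsA PP a 2 2 0 0 1 (-1) (x + u) (1 + b))
    (t1 : tau (h0 * (x + u)) = h0 * τ) (K1 : tK 0 a (x + u) x = (c1n (x + u) * cG (x + u) + kcg.v (psn (x + u)) x) * τ) (L1 : tL 0 a (x + u) x = cQ x (x + u) (kcg.v (psn (x + u)) x)) (C1 : tC 0 a (x + u) x = esn x * (cP (x + u) - (cR (x + u) + 2 * c1n (x + u)) * kcg.v (psn (x + u)) x)) :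
    DirEA (3 / 10) κ PP tK tL tC pcB (scP esg pd) a 2 2 0 0 1 (-1) x (x + u) (1 + b) := by
  obtain ⟨u1, u2⟩ := abs_lt.1 h1
  obtain ⟨b1, b2⟩ := abs_lt.1 h2
  obtain ⟨v1, v2⟩ := abs_lt.1 h3
  have qs := F.q2
  have hs1 := F.k0 rfl
  have hb : 0 ≤ b := by linarith [qs.1]
  have D : DomA u b x := ⟨by linarith, by linarith, by linarith, by linarith, by linarith, by linarith, by linarith, by linarith⟩
  have hY : x + u + (1 + b) = 1 + (x + u + b) := by ring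
  have q3 : InQ 2 (1 + (x + u + b)) := hY ▸ F.q3
  obtain ⟨p1, p2⟩ := psr (y := x + u) (by linarith) (by linarith)
  obtain ⟨p3, p4⟩ := psr (y := x + u + b) (by linarith) (by linarith)
  have hd := dqAp (dq_t x) hb (by linarith) (by linarith) (by linarith) (by linarith) p1 p2 p3 p4
  have hs : ∀ G ∈ sk_Apl, G.v u b x ≤ 0 := skPMA (v := 20971520) (hi := false) (abs_le.2 ⟨by unfold S; norm_num; linarith, by unfold S; norm_num; linarith⟩) (by simp only [cond_true, cond_false]; linarith [q3.2])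
  obtain ⟨r1, r2⟩ := rX x0 x1
  have K5 := Cht.cert (ng := false) (r := 20971520) ct_0Apl (u := u) (b := b) (x := x) (by unfold S; norm_num; linarith) (by unfold S; norm_num; linarith) (by simp only [cond_true, cond_false]; linarith) (by simp only [cond_true, cond_false]; unfold S; norm_num; linarith) r1 r2
  have K7 := Cht.cert (ng := false) (r := 20971520) ct_2Apl (u := u) (b := b) (x := x) (by unfold S; norm_num; linarith) (by unfold S; norm_num; linarith) (by simp only [cond_true, cond_false]; linarith) (by simp only [cond_true, cond_false]; unfold S; norm_num; linarith) r1 r2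
  have t3 := t3A2 F.q3
  have hit : ((T_Apl.a true).at_ u b x).it * (x + u + b) = 1 := by
    show (x + u + b)⁻¹ * _ = _
    exact inv_mul_cancel₀ (ne_of_gt (by linarith))
  have hx : sp.xs.v u b x = 1 / 2 + b * sp.ws.v u b x := stP_x (by linarith) (by linarith)
  have hX : crv PP 0 2 (1 + b) = sp.xs.v u b x := crv0 2 (1 + b)
  have K3 : (∀ G ∈ cx_Apl, 0 < G.v u b x) → (pcB 2).K.v (c1n (x + u) - sp.xs.v u b x) (x + u + (1 + b)) x = ((c1n (x + u + b) - 1 / 2) * cG (x + u + b) + kcg.v (psn (x + u + b)) x) * (x + u + b) + sK_Apl.v (c1n (x + u) - sp.xs.v u b x) (1 + (x + u + b)) x * (c1n (x + u) - sp.xs.v u b x - (c1n (x + u + b) - 1 / 2)) := fun hc => by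
    rw [hY]
    exact zKApl hF x0 x1 h1 h2 h3 hb q3 hc
  have L3 : (∀ G ∈ cx_Apl, 0 < G.v u b x) → (pcB 2).L.v (c1n (x + u) - sp.xs.v u b x) (x + u + (1 + b)) x = cQ x (x + u + b) (kcg.v (psn (x + u + b)) x) + sX_Apl.v (c1n (x + u) - sp.xs.v u b x) (1 + (x + u + b)) x * (c1n (x + u) - sp.xs.v u b x - (c1n (x + u + b) - 1 / 2)) := fun hc => by
    rw [hY]
    exact zLApl hF x0 x1 h1 h2 h3 hb q3 hc
  have C3 : (∀ G ∈ cx_Apl, 0 < G.v u b x) → (scP esg pd 2).v (c1n (x + u) - sp.xs.v u b x) (x + u + (1 + b)) x = esn x * ((cP (x + u + b) - 1 / 2 * cD (x + u + b) - (cR (x + u + b) + 2 * c1n (x + u + b) - 1) * kcg.v (psn (x + u + b)) x) + ((T_Apl.a true).at_ u b x).it * sD_Apl.v (c1n (x + u) - sp.xs.v u b x) (1 + (x + u + b)) x * (c1n (x + u) - sp.xs.v u b x - (c1n (x + u + b) - 1 / 2))) := fun hc => by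
    rw [hY]
    show esg.v x * (pd 2).v (c1n (x + u) - sp.xs.v u b x) (1 + (x + u + b)) x = _
    rw [esg_n, div_it (zDApl hF hU x0 x1 h1 h2 h3 hb q3 hc) hit]
  exact bothAp (T := T_Apl) (sk := sk_Apl) (cx := cx_Apl) (sk2 := sk_Apl) (cx2 := cx_Apl) D hb hκ hd hit t1 t3 hx hX (dc x0 x1) (by linarith) (by linarith) (by norm_num [T_Apl]) (by norm_num [T_Apl]) K5 hs K7 hs K1 (spK u hb qs hs1 (by linarith)) K3 L1 (spL u hb qs hs1 (by linarith)) L3 C1 (spC u hb qs hs1 (by linarith)) C3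
theorem AE_022 {x κ y y' : ℝ} (hF : SideOk PP tK tL pcB x) (hU : ThrOk PP tU pd x) (hκ : κ * h0 = ken x) (x0 : 1 / 2 ≤ x) (x1 : x ≤ 293668389 / 536870912)
    (F : FactsA PP 0 2 2 0 0 1 (-1) y y') (h1 : |y - x| < 5 / 256) (h2 : |y' - 1| < 1 / 32) (h3 : |y + y' - (1 + x)| < 5 / 256) :
    DirEA (3 / 10) κ PP tK tL tC pcB (scP esg pd) 0 2 2 0 0 1 (-1) x y y' := by
  obtain ⟨u, rfl⟩ : ∃ u, y = x + u := ⟨y - x, by ring⟩
  obtain ⟨b, rfl⟩ : ∃ b, y' = 1 + b := ⟨y' - 1, by ring⟩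
  rw [show x + u - x = u by ring] at h1
  rw [show 1 + b - 1 = b by ring] at h2
  rw [show x + u + (1 + b) - (1 + x) = u + b by ring] at h3
  obtain ⟨u1, u2⟩ := abs_lt.1 h1
  exact fE_Apl hF hU hκ x0 x1 h1 h2 h3 F (t1_0 F.q1) (shK0 F.q1 (by linarith) (by linarith)) (shL0 F.q1 (by linarith) (by linarith)) (shC0 F.q1 (by linarith) (by linarith))
theorem molE_A_022_00_0 {κ x : ℝ} (hκ : κ * h0 = ken x) (hx : ((536870912 : ℕ) : ℝ) / S ≤ x) (hx' : x ≤ (((536870912 : ℕ) : ℝ) + (50465866 : ℕ)) / S) :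
    AltEA 3 κ (eng.v x) (3 / 40) (tnt (h0 * x) (3 / 10)) PP tK tL tC pcB (scP esg pd) [⟨0, 0, 1, 20971520⟩, ⟨1, 1, 0, 33554432⟩, ⟨2, 1, 1, 20971520⟩] 0 2 2 0 0 (sgb true) (sgb false) x := by
  obtain ⟨x0, x1⟩ := xr hx hx'
  exact altEA_s fun y y' F h1 h2 h3 => DirEA.st (eng_n x) (AE_022 (sideB hx hx') (thrU hx hx') hκ x0 x1 F (h1.trans_eq (by norm_num)) (h2.trans_eq (by norm_num)) (h3.trans_eq (by norm_num)))
theorem ME_202 {x κ y y' : ℝ} (hF : SideOk PP tK tL pcB x) (hU : ThrOk PP tU pd x) (hκ : κ * h0 = ken x) (x0 : 1 / 2 ≤ x) (x1 : x ≤ 293668389 / 536870912)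
    (F : FactsA PP 2 0 2 0 0 1 (-1) y y') (h2 : |y - 1| < 1 / 32) (h1 : |y' - x| < 5 / 256) (h3 : |y + y' - (1 + x)| < 5 / 256) :
    StEA 3 κ (eng.v x) (3 / 40) (tnt (h0 * x) (3 / 10)) PP tK tL tC pcB (scP esg pd) 2 0 2 0 0 1 (-1) x y y' := by
  have F2 := factsA_mirror F
  rw [neg_neg] at F2
  have h3' : |y' + y - (1 + x)| < 5 / 256 := by rwa [add_comm y' y]
  obtain ⟨u1, u2⟩ := abs_lt.1 h1
  obtain ⟨b1, b2⟩ := abs_lt.1 h2
  have hX : (1 : ℝ) * crv PP 0 2 y + -1 * crv PP 0 0 y' ≠ 0 := by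
    rw [crv0, crv0]
    have := c1n_lt (y := y') (z := y) (by linarith) (by linarith) (by nlinarith)
    intro h
    linarith
  refine DirEA.mir (eng_n x) hF hU.sc F hX (by linarith) (by linarith) (by norm_num) (by norm_num) ?_
  rw [neg_neg]
  exact AE_022 hF hU hκ x0 x1 F2 h1 h2 h3'
theorem molE_A_202_00_1 {κ x : ℝ} (hκ : κ * h0 = ken x) (hx : ((536870912 : ℕ) : ℝ) / S ≤ x) (hx' : x ≤ (((536870912 : ℕ) : ℝ) + (50465866 : ℕ)) / S) :
    AltEA 3 κ (eng.v x) (3 / 40) (tnt (h0 * x) (3 / 10)) PP tK tL tC pcB (scP esg pd) [⟨0, 1, 0, 33554432⟩, ⟨1, 0, 1, 20971520⟩, ⟨2, 1, 1, 20971520⟩] 2 0 2 0 0 (sgb true) (sgb false) x := by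
  obtain ⟨x0, x1⟩ := xr hx hx'
  exact altEA_m fun y y' F h2 h1 h3 => ME_202 (sideB hx hx') (thrU hx hx') hκ x0 x1 F (h2.trans_eq (by norm_num)) (h1.trans_eq (by norm_num)) (h3.trans_eq (by norm_num))
theorem AE_122 {x κ y y' : ℝ} (hF : SideOk PP tK tL pcB x) (hU : ThrOk PP tU pd x) (hκ : κ * h0 = ken x) (x0 : 1 / 2 ≤ x) (x1 : x ≤ 293668389 / 536870912)
    (F : FactsA PP 1 2 2 0 0 1 (-1) y y') (h1 : |y - x| < 5 / 256) (h2 : |y' - 1| < 1 / 32) (h3 : |y + y' - (1 + x)| < 5 / 256) :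
    DirEA (3 / 10) κ PP tK tL tC pcB (scP esg pd) 1 2 2 0 0 1 (-1) x y y' := by
  obtain ⟨u, rfl⟩ : ∃ u, y = x + u := ⟨y - x, by ring⟩
  obtain ⟨b, rfl⟩ : ∃ b, y' = 1 + b := ⟨y' - 1, by ring⟩
  rw [show x + u - x = u by ring] at h1
  rw [show 1 + b - 1 = b by ring] at h2
  rw [show x + u + (1 + b) - (1 + x) = u + b by ring] at h3
  obtain ⟨u1, u2⟩ := abs_lt.1 h1
  exact fE_Apl hF hU hκ x0 x1 h1 h2 h3 F (t1_1 F.q1) (shK1 F.q1 (by linarith) (by linarith)) (shL1 F.q1 (by linarith) (by linarith)) (shC1 F.q1 (by linarith) (by linarith))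
theorem molE_A_122_00_0 {κ x : ℝ} (hκ : κ * h0 = ken x) (hx : ((536870912 : ℕ) : ℝ) / S ≤ x) (hx' : x ≤ (((536870912 : ℕ) : ℝ) + (50465866 : ℕ)) / S) :
    AltEA 3 κ (eng.v x) (3 / 40) (tnt (h0 * x) (3 / 10)) PP tK tL tC pcB (scP esg pd) [⟨0, 0, 1, 20971520⟩, ⟨1, 1, 0, 33554432⟩, ⟨2, 1, 1, 20971520⟩] 1 2 2 0 0 (sgb true) (sgb false) x := by
  obtain ⟨x0, x1⟩ := xr hx hx'
  exact altEA_s fun y y' F h1 h2 h3 => DirEA.st (eng_n x) (AE_122 (sideB hx hx') (thrU hx hx') hκ x0 x1 F (h1.trans_eq (by norm_num)) (h2.trans_eq (by norm_num)) (h3.trans_eq (by norm_num)))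
theorem ME_212 {x κ y y' : ℝ} (hF : SideOk PP tK tL pcB x) (hU : ThrOk PP tU pd x) (hκ : κ * h0 = ken x) (x0 : 1 / 2 ≤ x) (x1 : x ≤ 293668389 / 536870912)
    (F : FactsA PP 2 1 2 0 0 1 (-1) y y') (h2 : |y - 1| < 1 / 32) (h1 : |y' - x| < 5 / 256) (h3 : |y + y' - (1 + x)| < 5 / 256) :
    StEA 3 κ (eng.v x) (3 / 40) (tnt (h0 * x) (3 / 10)) PP tK tL tC pcB (scP esg pd) 2 1 2 0 0 1 (-1) x y y' := by
  have F2 := factsA_mirror F
  rw [neg_neg] at F2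
  have h3' : |y' + y - (1 + x)| < 5 / 256 := by rwa [add_comm y' y]
  obtain ⟨u1, u2⟩ := abs_lt.1 h1
  obtain ⟨b1, b2⟩ := abs_lt.1 h2
  have hX : (1 : ℝ) * crv PP 0 2 y + -1 * crv PP 0 1 y' ≠ 0 := by
    rw [crv0, crv0]
    have := c1n_lt (y := y') (z := y) (by linarith) (by linarith) (by nlinarith)
    intro h
    linarith
  refine DirEA.mir (eng_n x) hF hU.sc F hX (by linarith) (by linarith) (by norm_num) (by norm_num) ?_
  rw [neg_neg]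
  exact AE_122 hF hU hκ x0 x1 F2 h1 h2 h3'
theorem molE_A_212_00_1 {κ x : ℝ} (hκ : κ * h0 = ken x) (hx : ((536870912 : ℕ) : ℝ) / S ≤ x) (hx' : x ≤ (((536870912 : ℕ) : ℝ) + (50465866 : ℕ)) / S) :
    AltEA 3 κ (eng.v x) (3 / 40) (tnt (h0 * x) (3 / 10)) PP tK tL tC pcB (scP esg pd) [⟨0, 1, 0, 33554432⟩, ⟨1, 0, 1, 20971520⟩, ⟨2, 1, 1, 20971520⟩] 2 1 2 0 0 (sgb true) (sgb false) x := by
  obtain ⟨x0, x1⟩ := xr hx hx'
  exact altEA_m fun y y' F h2 h1 h3 => ME_212 (sideB hx hx') (thrU hx hx') hκ x0 x1 F (h2.trans_eq (by norm_num)) (h1.trans_eq (by norm_num)) (h3.trans_eq (by norm_num))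
theorem w_Aph {u b x : ℝ} (x0 : 1 / 2 ≤ x) (x1 : x ≤ 293668389 / 536870912) (h1 : |u| < 5 / 256) (h2 : |b| < 1 / 32) (h3 : |u + b| < 5 / 256) (hb : 0 ≤ b) : (w3W false).v (1 + (x + u + b)) ≤ c1n (x + u) - sp.xs.v u b x := by
  obtain ⟨u1, u2⟩ := abs_lt.1 h1
  obtain ⟨b1, b2⟩ := abs_lt.1 h2
  obtain ⟨v1, v2⟩ := abs_lt.1 h3
  have cm1 : c1n (1 + b) ≤ 1 / 2 := c1n_half hb
  have cm2 : c1n (x + u) ≥ c1n (x + u + b) := c1n_le' (by linarith) (by linarith)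
  rw [w3W_A]
  show c1n (x + u + b) - 1 / 2 ≤ c1n (x + u) - c1n (1 + b)
  linarith
theorem zKAph {u b x : ℝ} (hF : SideOk PP tK tL pcB x) (x0 : 1 / 2 ≤ x) (x1 : x ≤ 293668389 / 536870912) (h1 : |u| < 5 / 256) (h2 : |b| < 1 / 32) (h3 : |u + b| < 5 / 256) (hb : 0 ≤ b) (q3 : InQ 3 (1 + (x + u + b)))
    (hc : ∀ G ∈ cx_Aph, 0 < G.v u b x) : (pcB 3).K.v (c1n (x + u) - sp.xs.v u b x) (1 + (x + u + b)) x =
    ((c1n (x + u + b) - 1 / 2) * cG (x + u + b) + kcg.v (psn (x + u + b)) x) * -(1 - (x + u + b)) + sK_Aph.v (c1n (x + u) - sp.xs.v u b x) (1 + (x + u + b)) x * (c1n (x + u) - sp.xs.v u b x - (c1n (x + u + b) - 1 / 2)) := by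
  have hw := w_Aph x0 x1 h1 h2 h3 hb
  obtain ⟨u1, u2⟩ := abs_lt.1 h1
  obtain ⟨b1, b2⟩ := abs_lt.1 h2
  obtain ⟨v1, v2⟩ := abs_lt.1 h3
  have y1 := q3.1
  have y2 := q3.2
  have c0 : 0 < (tCC (w3W false) cv3r).v (c1n (x + u) - sp.xs.v u b x) (1 + (x + u + b)) x := hc (f3A sp.xs (tCC (w3W false) cv3r)) (by unfold cx_Aph; simp only [List.mem_cons, true_or, or_true])
  have c1 : 0 < (tCC cv4r (w3W false)).v (c1n (x + u) - sp.xs.v u b x) (1 + (x + u + b)) x := hc (f3A sp.xs (tCC cv4r (w3W false))) (by unfold cx_Aph; simp only [List.mem_cons, true_or, or_true])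
  have c2 : 0 < (tCX cv4r).v (c1n (x + u) - sp.xs.v u b x) (1 + (x + u + b)) x := hc (f3A sp.xs (tCX cv4r)) (by unfold cx_Aph; simp only [List.mem_cons, true_or, or_true])
  refine (sKAph hF q3 (by linarith) (by linarith) c0 c1 c2 hw).trans ?_
  rw [w3K_A, w3W_A]
  push_cast
  ring
theorem zLAph {u b x : ℝ} (hF : SideOk PP tK tL pcB x) (x0 : 1 / 2 ≤ x) (x1 : x ≤ 293668389 / 536870912) (h1 : |u| < 5 / 256) (h2 : |b| < 1 / 32) (h3 : |u + b| < 5 / 256) (hb : 0 ≤ b) (q3 : InQ 3 (1 + (x + u + b)))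
    (hc : ∀ G ∈ cx_Aph, 0 < G.v u b x) : (pcB 3).L.v (c1n (x + u) - sp.xs.v u b x) (1 + (x + u + b)) x =
    cQ x (x + u + b) (kcg.v (psn (x + u + b)) x) + sX_Aph.v (c1n (x + u) - sp.xs.v u b x) (1 + (x + u + b)) x * (c1n (x + u) - sp.xs.v u b x - (c1n (x + u + b) - 1 / 2)) := by
  have hw := w_Aph x0 x1 h1 h2 h3 hb
  obtain ⟨u1, u2⟩ := abs_lt.1 h1
  obtain ⟨b1, b2⟩ := abs_lt.1 h2
  obtain ⟨v1, v2⟩ := abs_lt.1 h3
  have y1 := q3.1
  have y2 := q3.2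
  have c0 : 0 < (tCC (w3W false) cv3r).v (c1n (x + u) - sp.xs.v u b x) (1 + (x + u + b)) x := hc (f3A sp.xs (tCC (w3W false) cv3r)) (by unfold cx_Aph; simp only [List.mem_cons, true_or, or_true])
  have c1 : 0 < (tCC cv4r (w3W false)).v (c1n (x + u) - sp.xs.v u b x) (1 + (x + u + b)) x := hc (f3A sp.xs (tCC cv4r (w3W false))) (by unfold cx_Aph; simp only [List.mem_cons, true_or, or_true])
  have c2 : 0 < (tCX cv4r).v (c1n (x + u) - sp.xs.v u b x) (1 + (x + u + b)) x := hc (f3A sp.xs (tCX cv4r)) (by unfold cx_Aph; simp only [List.mem_cons, true_or, or_true])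
  refine (sLAph hF q3 (by linarith) (by linarith) c0 c1 c2 hw).trans ?_
  rw [w3Q_A, w3W_A]
theorem zDAph {u b x : ℝ} (hF : SideOk PP tK tL pcB x) (hU : ThrOk PP tU pd x) (x0 : 1 / 2 ≤ x) (x1 : x ≤ 293668389 / 536870912) (h1 : |u| < 5 / 256) (h2 : |b| < 1 / 32) (h3 : |u + b| < 5 / 256) (hb : 0 ≤ b) (q3 : InQ 3 (1 + (x + u + b)))
    (hc : ∀ G ∈ cx_Aph, 0 < G.v u b x) : (pd 3).v (c1n (x + u) - sp.xs.v u b x) (1 + (x + u + b)) x * -(1 - (x + u + b)) =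
    (cP (x + u + b) - 1 / 2 * cD (x + u + b) - (cR (x + u + b) + 2 * c1n (x + u + b) - 1) * kcg.v (psn (x + u + b)) x) * -(1 - (x + u + b)) + sD_Aph.v (c1n (x + u) - sp.xs.v u b x) (1 + (x + u + b)) x * (c1n (x + u) - sp.xs.v u b x - (c1n (x + u + b) - 1 / 2)) := by
  have hw := w_Aph x0 x1 h1 h2 h3 hb
  obtain ⟨u1, u2⟩ := abs_lt.1 h1
  obtain ⟨b1, b2⟩ := abs_lt.1 h2
  obtain ⟨v1, v2⟩ := abs_lt.1 h3
  have y1 := q3.1
  have y2 := q3.2
  have c0 : 0 < (tCC (w3W false) cv3r).v (c1n (x + u) - sp.xs.v u b x) (1 + (x + u + b)) x := hc (f3A sp.xs (tCC (w3W false) cv3r)) (by unfold cx_Aph; simp only [List.mem_cons, true_or, or_true])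
  have c1 : 0 < (tCC cv4r (w3W false)).v (c1n (x + u) - sp.xs.v u b x) (1 + (x + u + b)) x := hc (f3A sp.xs (tCC cv4r (w3W false))) (by unfold cx_Aph; simp only [List.mem_cons, true_or, or_true])
  have c2 : 0 < (tCX cv4r).v (c1n (x + u) - sp.xs.v u b x) (1 + (x + u + b)) x := hc (f3A sp.xs (tCX cv4r)) (by unfold cx_Aph; simp only [List.mem_cons, true_or, or_true])
  have e := sDAph hF hU q3 (by linarith) (by linarith) c0 c1 c2 hw
  rw [w3D_A, w3W_A] at e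
  push_cast at e
  linear_combination e
theorem fE_Aph {a : ℕ} {x u b κ τ : ℝ} (hF : SideOk PP tK tL pcB x) (hU : ThrOk PP tU pd x) (hκ : κ * h0 = ken x)
    (x0 : 1 / 2 ≤ x) (x1 : x ≤ 293668389 / 536870912) (h1 : |u| < 5 / 256) (h2 : |b| < 1 / 32) (h3 : |u + b| < 5 / 256) (F : FactsA PP a 2 3 0 0 1 (-1) (x + u) (1 + b))
    (t1 : tau (h0 * (x + u)) = h0 * τ) (K1 : tK 0 a (x + u) x = (c1n (x + u) * cG (x + u) + kcg.v (psn (x + u)) x) * τ) (L1 : tL 0 a (x + u) x = cQ x (x + u) (kcg.v (psn (x + u)) x)) (C1 : tC 0 a (x + u) x = esn x * (cP (x + u) - (cR (x + u) + 2 * c1n (x + u)) * kcg.v (psn (x + u)) x)) :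
    DirEA (3 / 10) κ PP tK tL tC pcB (scP esg pd) a 2 3 0 0 1 (-1) x (x + u) (1 + b) := by
  obtain ⟨u1, u2⟩ := abs_lt.1 h1
  obtain ⟨b1, b2⟩ := abs_lt.1 h2
  obtain ⟨v1, v2⟩ := abs_lt.1 h3
  have qs := F.q2
  have hs1 := F.k0 rfl
  have hb : 0 ≤ b := by linarith [qs.1]
  have D : DomA u b x := ⟨by linarith, by linarith, by linarith, by linarith, by linarith, by linarith, by linarith, by linarith⟩
  have hY : x + u + (1 + b) = 1 + (x + u + b) := by ring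
  have q3 : InQ 3 (1 + (x + u + b)) := hY ▸ F.q3
  obtain ⟨p1, p2⟩ := psr (y := x + u) (by linarith) (by linarith)
  obtain ⟨p3, p4⟩ := psr (y := x + u + b) (by linarith) (by linarith)
  have hd := dqAp (dq_t x) hb (by linarith) (by linarith) (by linarith) (by linarith) p1 p2 p3 p4
  have hs : ∀ G ∈ sk_Aph, G.v u b x ≤ 0 := skPMA (v := 20971520) (hi := true) (abs_le.2 ⟨by unfold S; norm_num; linarith, by unfold S; norm_num; linarith⟩) (by simp only [cond_true, cond_false]; linarith [q3.1])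
  obtain ⟨r1, r2⟩ := rX x0 x1
  have K5 := Cht.cert (ng := false) (r := 20971520) ct_0Aph (u := u) (b := b) (x := x) (by unfold S; norm_num; linarith) (by unfold S; norm_num; linarith) (by simp only [cond_true, cond_false]; linarith) (by simp only [cond_true, cond_false]; unfold S; norm_num; linarith) r1 r2
  have K7 := Cht.cert (ng := false) (r := 20971520) ct_2Aph (u := u) (b := b) (x := x) (by unfold S; norm_num; linarith) (by unfold S; norm_num; linarith) (by simp only [cond_true, cond_false]; linarith) (by simp only [cond_true, cond_false]; unfold S; norm_num; linarith) r1 r2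
  have t3 := t3A3 F.q3
  have hit : ((T_Aph.a true).at_ u b x).it * -(1 - (x + u + b)) = 1 := by
    show -(1 - (x + u + b))⁻¹ * _ = _
    rw [neg_mul_neg]
    exact inv_mul_cancel₀ (ne_of_gt (by linarith))
  have hx : sp.xs.v u b x = 1 / 2 + b * sp.ws.v u b x := stP_x (by linarith) (by linarith)
  have hX : crv PP 0 2 (1 + b) = sp.xs.v u b x := crv0 2 (1 + b)
  have K3 : (∀ G ∈ cx_Aph, 0 < G.v u b x) → (pcB 3).K.v (c1n (x + u) - sp.xs.v u b x) (x + u + (1 + b)) x = ((c1n (x + u + b) - 1 / 2) * cG (x + u + b) + kcg.v (psn (x + u + b)) x) * -(1 - (x + u + b)) + sK_Aph.v (c1n (x + u) - sp.xs.v u b x) (1 + (x + u + b)) x * (c1n (x + u) - sp.xs.v u b x - (c1n (x + u + b) - 1 / 2)) := fun hc => by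
    rw [hY]
    exact zKAph hF x0 x1 h1 h2 h3 hb q3 hc
  have L3 : (∀ G ∈ cx_Aph, 0 < G.v u b x) → (pcB 3).L.v (c1n (x + u) - sp.xs.v u b x) (x + u + (1 + b)) x = cQ x (x + u + b) (kcg.v (psn (x + u + b)) x) + sX_Aph.v (c1n (x + u) - sp.xs.v u b x) (1 + (x + u + b)) x * (c1n (x + u) - sp.xs.v u b x - (c1n (x + u + b) - 1 / 2)) := fun hc => by
    rw [hY]
    exact zLAph hF x0 x1 h1 h2 h3 hb q3 hc
  have C3 : (∀ G ∈ cx_Aph, 0 < G.v u b x) → (scP esg pd 3).v (c1n (x + u) - sp.xs.v u b x) (x + u + (1 + b)) x = esn x * ((cP (x + u + b) - 1 / 2 * cD (x + u + b) - (cR (x + u + b) + 2 * c1n (x + u + b) - 1) * kcg.v (psn (x + u + b)) x) + ((T_Aph.a true).at_ u b x).it * sD_Aph.v (c1n (x + u) - sp.xs.v u b x) (1 + (x + u + b)) x * (c1n (x + u) - sp.xs.v u b x - (c1n (x + u + b) - 1 / 2))) := fun hc => by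
    rw [hY]
    show esg.v x * (pd 3).v (c1n (x + u) - sp.xs.v u b x) (1 + (x + u + b)) x = _
    rw [esg_n, div_it (zDAph hF hU x0 x1 h1 h2 h3 hb q3 hc) hit]
  exact bothAp (T := T_Aph) (sk := sk_Aph) (cx := cx_Aph) (sk2 := sk_Aph) (cx2 := cx_Aph) D hb hκ hd hit t1 t3 hx hX (dc x0 x1) (by linarith) (by linarith) (by norm_num [T_Aph]) (by norm_num [T_Aph]) K5 hs K7 hs K1 (spK u hb qs hs1 (by linarith)) K3 L1 (spL u hb qs hs1 (by linarith)) L3 C1 (spC u hb qs hs1 (by linarith)) C3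
theorem AE_023 {x κ y y' : ℝ} (hF : SideOk PP tK tL pcB x) (hU : ThrOk PP tU pd x) (hκ : κ * h0 = ken x) (x0 : 1 / 2 ≤ x) (x1 : x ≤ 293668389 / 536870912)
    (F : FactsA PP 0 2 3 0 0 1 (-1) y y') (h1 : |y - x| < 5 / 256) (h2 : |y' - 1| < 1 / 32) (h3 : |y + y' - (1 + x)| < 5 / 256) :
    DirEA (3 / 10) κ PP tK tL tC pcB (scP esg pd) 0 2 3 0 0 1 (-1) x y y' := by
  obtain ⟨u, rfl⟩ : ∃ u, y = x + u := ⟨y - x, by ring⟩
  obtain ⟨b, rfl⟩ : ∃ b, y' = 1 + b := ⟨y' - 1, by ring⟩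
  rw [show x + u - x = u by ring] at h1
  rw [show 1 + b - 1 = b by ring] at h2
  rw [show x + u + (1 + b) - (1 + x) = u + b by ring] at h3
  obtain ⟨u1, u2⟩ := abs_lt.1 h1
  exact fE_Aph hF hU hκ x0 x1 h1 h2 h3 F (t1_0 F.q1) (shK0 F.q1 (by linarith) (by linarith)) (shL0 F.q1 (by linarith) (by linarith)) (shC0 F.q1 (by linarith) (by linarith))
theorem molE_A_023_00_0 {κ x : ℝ} (hκ : κ * h0 = ken x) (hx : ((536870912 : ℕ) : ℝ) / S ≤ x) (hx' : x ≤ (((536870912 : ℕ) : ℝ) + (50465866 : ℕ)) / S) :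
    AltEA 3 κ (eng.v x) (3 / 40) (tnt (h0 * x) (3 / 10)) PP tK tL tC pcB (scP esg pd) [⟨0, 0, 1, 20971520⟩, ⟨1, 1, 0, 33554432⟩, ⟨2, 1, 1, 20971520⟩] 0 2 3 0 0 (sgb true) (sgb false) x := by
  obtain ⟨x0, x1⟩ := xr hx hx'
  exact altEA_s fun y y' F h1 h2 h3 => DirEA.st (eng_n x) (AE_023 (sideB hx hx') (thrU hx hx') hκ x0 x1 F (h1.trans_eq (by norm_num)) (h2.trans_eq (by norm_num)) (h3.trans_eq (by norm_num)))
theorem ME_203 {x κ y y' : ℝ} (hF : SideOk PP tK tL pcB x) (hU : ThrOk PP tU pd x) (hκ : κ * h0 = ken x) (x0 : 1 / 2 ≤ x) (x1 : x ≤ 293668389 / 536870912)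
    (F : FactsA PP 2 0 3 0 0 1 (-1) y y') (h2 : |y - 1| < 1 / 32) (h1 : |y' - x| < 5 / 256) (h3 : |y + y' - (1 + x)| < 5 / 256) :
    StEA 3 κ (eng.v x) (3 / 40) (tnt (h0 * x) (3 / 10)) PP tK tL tC pcB (scP esg pd) 2 0 3 0 0 1 (-1) x y y' := by
  have F2 := factsA_mirror F
  rw [neg_neg] at F2
  have h3' : |y' + y - (1 + x)| < 5 / 256 := by rwa [add_comm y' y]
  obtain ⟨u1, u2⟩ := abs_lt.1 h1
  obtain ⟨b1, b2⟩ := abs_lt.1 h2
  have hX : (1 : ℝ) * crv PP 0 2 y + -1 * crv PP 0 0 y' ≠ 0 := by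
    rw [crv0, crv0]
    have := c1n_lt (y := y') (z := y) (by linarith) (by linarith) (by nlinarith)
    intro h
    linarith
  refine DirEA.mir (eng_n x) hF hU.sc F hX (by linarith) (by linarith) (by norm_num) (by norm_num) ?_
  rw [neg_neg]
  exact AE_023 hF hU hκ x0 x1 F2 h1 h2 h3'
theorem molE_A_203_00_1 {κ x : ℝ} (hκ : κ * h0 = ken x) (hx : ((536870912 : ℕ) : ℝ) / S ≤ x) (hx' : x ≤ (((536870912 : ℕ) : ℝ) + (50465866 : ℕ)) / S) :
    AltEA 3 κ (eng.v x) (3 / 40) (tnt (h0 * x) (3 / 10)) PP tK tL tC pcB (scP esg pd) [⟨0, 1, 0, 33554432⟩, ⟨1, 0, 1, 20971520⟩, ⟨2, 1, 1, 20971520⟩] 2 0 3 0 0 (sgb true) (sgb false) x := by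
  obtain ⟨x0, x1⟩ := xr hx hx'
  exact altEA_m fun y y' F h2 h1 h3 => ME_203 (sideB hx hx') (thrU hx hx') hκ x0 x1 F (h2.trans_eq (by norm_num)) (h1.trans_eq (by norm_num)) (h3.trans_eq (by norm_num))
theorem AE_123 {x κ y y' : ℝ} (hF : SideOk PP tK tL pcB x) (hU : ThrOk PP tU pd x) (hκ : κ * h0 = ken x) (x0 : 1 / 2 ≤ x) (x1 : x ≤ 293668389 / 536870912)
    (F : FactsA PP 1 2 3 0 0 1 (-1) y y') (h1 : |y - x| < 5 / 256) (h2 : |y' - 1| < 1 / 32) (h3 : |y + y' - (1 + x)| < 5 / 256) :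
    DirEA (3 / 10) κ PP tK tL tC pcB (scP esg pd) 1 2 3 0 0 1 (-1) x y y' := by
  obtain ⟨u, rfl⟩ : ∃ u, y = x + u := ⟨y - x, by ring⟩
  obtain ⟨b, rfl⟩ : ∃ b, y' = 1 + b := ⟨y' - 1, by ring⟩
  rw [show x + u - x = u by ring] at h1
  rw [show 1 + b - 1 = b by ring] at h2
  rw [show x + u + (1 + b) - (1 + x) = u + b by ring] at h3
  obtain ⟨u1, u2⟩ := abs_lt.1 h1
  exact fE_Aph hF hU hκ x0 x1 h1 h2 h3 F (t1_1 F.q1) (shK1 F.q1 (by linarith) (by linarith)) (shL1 F.q1 (by linarith) (by linarith)) (shC1 F.q1 (by linarith) (by linarith))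
theorem molE_A_123_00_0 {κ x : ℝ} (hκ : κ * h0 = ken x) (hx : ((536870912 : ℕ) : ℝ) / S ≤ x) (hx' : x ≤ (((536870912 : ℕ) : ℝ) + (50465866 : ℕ)) / S) :
    AltEA 3 κ (eng.v x) (3 / 40) (tnt (h0 * x) (3 / 10)) PP tK tL tC pcB (scP esg pd) [⟨0, 0, 1, 20971520⟩, ⟨1, 1, 0, 33554432⟩, ⟨2, 1, 1, 20971520⟩] 1 2 3 0 0 (sgb true) (sgb false) x := by
  obtain ⟨x0, x1⟩ := xr hx hx'
  exact altEA_s fun y y' F h1 h2 h3 => DirEA.st (eng_n x) (AE_123 (sideB hx hx') (thrU hx hx') hκ x0 x1 F (h1.trans_eq (by norm_num)) (h2.trans_eq (by norm_num)) (h3.trans_eq (by norm_num)))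
theorem ME_213 {x κ y y' : ℝ} (hF : SideOk PP tK tL pcB x) (hU : ThrOk PP tU pd x) (hκ : κ * h0 = ken x) (x0 : 1 / 2 ≤ x) (x1 : x ≤ 293668389 / 536870912)
    (F : FactsA PP 2 1 3 0 0 1 (-1) y y') (h2 : |y - 1| < 1 / 32) (h1 : |y' - x| < 5 / 256) (h3 : |y + y' - (1 + x)| < 5 / 256) :
    StEA 3 κ (eng.v x) (3 / 40) (tnt (h0 * x) (3 / 10)) PP tK tL tC pcB (scP esg pd) 2 1 3 0 0 1 (-1) x y y' := by
  have F2 := factsA_mirror F
  rw [neg_neg] at F2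
  have h3' : |y' + y - (1 + x)| < 5 / 256 := by rwa [add_comm y' y]
  obtain ⟨u1, u2⟩ := abs_lt.1 h1
  obtain ⟨b1, b2⟩ := abs_lt.1 h2
  have hX : (1 : ℝ) * crv PP 0 2 y + -1 * crv PP 0 1 y' ≠ 0 := by
    rw [crv0, crv0]
    have := c1n_lt (y := y') (z := y) (by linarith) (by linarith) (by nlinarith)
    intro h
    linarith
  refine DirEA.mir (eng_n x) hF hU.sc F hX (by linarith) (by linarith) (by norm_num) (by norm_num) ?_
  rw [neg_neg]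
  exact AE_123 hF hU hκ x0 x1 F2 h1 h2 h3'
theorem molE_A_213_00_1 {κ x : ℝ} (hκ : κ * h0 = ken x) (hx : ((536870912 : ℕ) : ℝ) / S ≤ x) (hx' : x ≤ (((536870912 : ℕ) : ℝ) + (50465866 : ℕ)) / S) :
    AltEA 3 κ (eng.v x) (3 / 40) (tnt (h0 * x) (3 / 10)) PP tK tL tC pcB (scP esg pd) [⟨0, 1, 0, 33554432⟩, ⟨1, 0, 1, 20971520⟩, ⟨2, 1, 1, 20971520⟩] 2 1 3 0 0 (sgb true) (sgb false) x := by
  obtain ⟨x0, x1⟩ := xr hx hx'
  exact altEA_m fun y y' F h2 h1 h3 => ME_213 (sideB hx hx') (thrU hx hx') hκ x0 x1 F (h2.trans_eq (by norm_num)) (h1.trans_eq (by norm_num)) (h3.trans_eq (by norm_num))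
theorem w_Aplk1 {u b x : ℝ} (x0 : 1 / 2 ≤ x) (x1 : x ≤ 293668389 / 536870912) (h1 : |u| < 5 / 256) (h2 : |b| < 1 / 32) (h3 : |u + b| < 5 / 256) (hb : 0 ≤ b) : (w3W false).v (1 + (x + u + b)) ≤ c1n (x + u) - sk1.xs.v u b x := by
  obtain ⟨u1, u2⟩ := abs_lt.1 h1
  obtain ⟨b1, b2⟩ := abs_lt.1 h2
  obtain ⟨v1, v2⟩ := abs_lt.1 h3
  have cm1 : (fXS 22 3 25).v u b x ≤ 1 / 2 := fXS_le (by norm_num) hb
  have cm2 : c1n (x + u) ≥ c1n (x + u + b) := c1n_le' (by linarith) (by linarith)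
  rw [w3W_A]
  show c1n (x + u + b) - 1 / 2 ≤ c1n (x + u) - (fXS 22 3 25).v u b x
  linarith
theorem zKAplk1 {u b x : ℝ} (hF : SideOk PP tK tL pcB x) (x0 : 1 / 2 ≤ x) (x1 : x ≤ 293668389 / 536870912) (h1 : |u| < 5 / 256) (h2 : |b| < 1 / 32) (h3 : |u + b| < 5 / 256) (hb : 0 ≤ b) (q3 : InQ 2 (1 + (x + u + b)))
    (hc : ∀ G ∈ cx_Aplk1, 0 < G.v u b x) : (pcB 2).K.v (c1n (x + u) - sk1.xs.v u b x) (1 + (x + u + b)) x =
    ((c1n (x + u + b) - 1 / 2) * cG (x + u + b) + kcg.v (psn (x + u + b)) x) * (x + u + b) + sK_Aplk1.v (c1n (x + u) - sk1.xs.v u b x) (1 + (x + u + b)) x * (c1n (x + u) - sk1.xs.v u b x - (c1n (x + u + b) - 1 / 2)) := by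
  have hw := w_Aplk1 x0 x1 h1 h2 h3 hb
  obtain ⟨u1, u2⟩ := abs_lt.1 h1
  obtain ⟨b1, b2⟩ := abs_lt.1 h2
  obtain ⟨v1, v2⟩ := abs_lt.1 h3
  have y1 := q3.1
  have y2 := q3.2
  have c0 : 0 < (tCC (w3W false) cv3p).v (c1n (x + u) - sk1.xs.v u b x) (1 + (x + u + b)) x := hc (f3A sk1.xs (tCC (w3W false) cv3p)) (by unfold cx_Aplk1; simp only [List.mem_cons, true_or, or_true])
  have c1 : 0 < (tCC cv4p (w3W false)).v (c1n (x + u) - sk1.xs.v u b x) (1 + (x + u + b)) x := hc (f3A sk1.xs (tCC cv4p (w3W false))) (by unfold cx_Aplk1; simp only [List.mem_cons, true_or, or_true])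
  have c2 : 0 < (tCX cv4p).v (c1n (x + u) - sk1.xs.v u b x) (1 + (x + u + b)) x := hc (f3A sk1.xs (tCX cv4p)) (by unfold cx_Aplk1; simp only [List.mem_cons, true_or, or_true])
  refine (sKAplk1 hF q3 (by linarith) (by linarith) c0 c1 c2 hw).trans ?_
  rw [w3K_A, w3W_A]
  push_cast
  ring
theorem zLAplk1 {u b x : ℝ} (hF : SideOk PP tK tL pcB x) (x0 : 1 / 2 ≤ x) (x1 : x ≤ 293668389 / 536870912) (h1 : |u| < 5 / 256) (h2 : |b| < 1 / 32) (h3 : |u + b| < 5 / 256) (hb : 0 ≤ b) (q3 : InQ 2 (1 + (x + u + b)))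
    (hc : ∀ G ∈ cx_Aplk1, 0 < G.v u b x) : (pcB 2).L.v (c1n (x + u) - sk1.xs.v u b x) (1 + (x + u + b)) x =
    cQ x (x + u + b) (kcg.v (psn (x + u + b)) x) + sX_Aplk1.v (c1n (x + u) - sk1.xs.v u b x) (1 + (x + u + b)) x * (c1n (x + u) - sk1.xs.v u b x - (c1n (x + u + b) - 1 / 2)) := by
  have hw := w_Aplk1 x0 x1 h1 h2 h3 hb
  obtain ⟨u1, u2⟩ := abs_lt.1 h1
  obtain ⟨b1, b2⟩ := abs_lt.1 h2
  obtain ⟨v1, v2⟩ := abs_lt.1 h3
  have y1 := q3.1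
  have y2 := q3.2
  have c0 : 0 < (tCC (w3W false) cv3p).v (c1n (x + u) - sk1.xs.v u b x) (1 + (x + u + b)) x := hc (f3A sk1.xs (tCC (w3W false) cv3p)) (by unfold cx_Aplk1; simp only [List.mem_cons, true_or, or_true])
  have c1 : 0 < (tCC cv4p (w3W false)).v (c1n (x + u) - sk1.xs.v u b x) (1 + (x + u + b)) x := hc (f3A sk1.xs (tCC cv4p (w3W false))) (by unfold cx_Aplk1; simp only [List.mem_cons, true_or, or_true])
  have c2 : 0 < (tCX cv4p).v (c1n (x + u) - sk1.xs.v u b x) (1 + (x + u + b)) x := hc (f3A sk1.xs (tCX cv4p)) (by unfold cx_Aplk1; simp only [List.mem_cons, true_or, or_true])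
  refine (sLAplk1 hF q3 (by linarith) (by linarith) c0 c1 c2 hw).trans ?_
  rw [w3Q_A, w3W_A]
theorem zDAplk1 {u b x : ℝ} (hF : SideOk PP tK tL pcB x) (hU : ThrOk PP tU pd x) (x0 : 1 / 2 ≤ x) (x1 : x ≤ 293668389 / 536870912) (h1 : |u| < 5 / 256) (h2 : |b| < 1 / 32) (h3 : |u + b| < 5 / 256) (hb : 0 ≤ b) (q3 : InQ 2 (1 + (x + u + b)))
    (hc : ∀ G ∈ cx_Aplk1, 0 < G.v u b x) : (pd 2).v (c1n (x + u) - sk1.xs.v u b x) (1 + (x + u + b)) x * (x + u + b) =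
    (cP (x + u + b) - 1 / 2 * cD (x + u + b) - (cR (x + u + b) + 2 * c1n (x + u + b) - 1) * kcg.v (psn (x + u + b)) x) * (x + u + b) + sD_Aplk1.v (c1n (x + u) - sk1.xs.v u b x) (1 + (x + u + b)) x * (c1n (x + u) - sk1.xs.v u b x - (c1n (x + u + b) - 1 / 2)) := by
  have hw := w_Aplk1 x0 x1 h1 h2 h3 hb
  obtain ⟨u1, u2⟩ := abs_lt.1 h1
  obtain ⟨b1, b2⟩ := abs_lt.1 h2
  obtain ⟨v1, v2⟩ := abs_lt.1 h3
  have y1 := q3.1
  have y2 := q3.2
  have c0 : 0 < (tCC (w3W false) cv3p).v (c1n (x + u) - sk1.xs.v u b x) (1 + (x + u + b)) x := hc (f3A sk1.xs (tCC (w3W false) cv3p)) (by unfold cx_Aplk1; simp only [List.mem_cons, true_or, or_true])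
  have c1 : 0 < (tCC cv4p (w3W false)).v (c1n (x + u) - sk1.xs.v u b x) (1 + (x + u + b)) x := hc (f3A sk1.xs (tCC cv4p (w3W false))) (by unfold cx_Aplk1; simp only [List.mem_cons, true_or, or_true])
  have c2 : 0 < (tCX cv4p).v (c1n (x + u) - sk1.xs.v u b x) (1 + (x + u + b)) x := hc (f3A sk1.xs (tCX cv4p)) (by unfold cx_Aplk1; simp only [List.mem_cons, true_or, or_true])
  have e := sDAplk1 hF hU q3 (by linarith) (by linarith) c0 c1 c2 hw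
  rw [w3D_A, w3W_A] at e
  push_cast at e
  linear_combination e
theorem fE_Aplk1 {a : ℕ} {x u b κ τ : ℝ} (hF : SideOk PP tK tL pcB x) (hU : ThrOk PP tU pd x) (hκ : κ * h0 = ken x)
    (x0 : 1 / 2 ≤ x) (x1 : x ≤ 293668389 / 536870912) (h1 : |u| < 5 / 256) (h2 : |b| < 1 / 32) (h3 : |u + b| < 5 / 256) (F : FactsA PP a 2 2 0 1 1 (-1) (x + u) (1 + b))
    (t1 : tau (h0 * (x + u)) = h0 * τ) (K1 : tK 0 a (x + u) x = (c1n (x + u) * cG (x + u) + kcg.v (psn (x + u)) x) * τ) (L1 : tL 0 a (x + u) x = cQ x (x + u) (kcg.v (psn (x + u)) x)) (C1 : tC 0 a (x + u) x = esn x * (cP (x + u) - (cR (x + u) + 2 * c1n (x + u)) * kcg.v (psn (x + u)) x)) :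
    DirEA (3 / 10) κ PP tK tL tC pcB (scP esg pd) a 2 2 0 1 1 (-1) x (x + u) (1 + b) := by
  obtain ⟨u1, u2⟩ := abs_lt.1 h1
  obtain ⟨b1, b2⟩ := abs_lt.1 h2
  obtain ⟨v1, v2⟩ := abs_lt.1 h3
  have qs := F.q2
  have hb : 0 ≤ b := by linarith [qs.1]
  have D : DomA u b x := ⟨by linarith, by linarith, by linarith, by linarith, by linarith, by linarith, by linarith, by linarith⟩
  have hY : x + u + (1 + b) = 1 + (x + u + b) := by ring
  have q3 : InQ 2 (1 + (x + u + b)) := hY ▸ F.q3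
  obtain ⟨p1, p2⟩ := psr (y := x + u) (by linarith) (by linarith)
  obtain ⟨p3, p4⟩ := psr (y := x + u + b) (by linarith) (by linarith)
  have hd := dqAp (dq_t x) hb (by linarith) (by linarith) (by linarith) (by linarith) p1 p2 p3 p4
  have hs : ∀ G ∈ sk_Aplk1, G.v u b x ≤ 0 := skPMA (v := 20971520) (hi := false) (abs_le.2 ⟨by unfold S; norm_num; linarith, by unfold S; norm_num; linarith⟩) (by simp only [cond_true, cond_false]; linarith [q3.2])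
  obtain ⟨r1, r2⟩ := rX x0 x1
  have K5 := Cht.cert (ng := false) (r := 20971520) ct_0Aplk1 (u := u) (b := b) (x := x) (by unfold S; norm_num; linarith) (by unfold S; norm_num; linarith) (by simp only [cond_true, cond_false]; linarith) (by simp only [cond_true, cond_false]; unfold S; norm_num; linarith) r1 r2
  have K7 := Cht.cert (ng := false) (r := 20971520) ct_2Aplk1 (u := u) (b := b) (x := x) (by unfold S; norm_num; linarith) (by unfold S; norm_num; linarith) (by simp only [cond_true, cond_false]; linarith) (by simp only [cond_true, cond_false]; unfold S; norm_num; linarith) r1 r2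
  have t3 := t3A2 F.q3
  have hit : ((T_Aplk1.a true).at_ u b x).it * (x + u + b) = 1 := by
    show (x + u + b)⁻¹ * _ = _
    exact inv_mul_cancel₀ (ne_of_gt (by linarith))
  have hx : sk1.xs.v u b x = 1 / 2 + b * sk1.ws.v u b x := stK_x (by norm_num) (by linarith) (by linarith)
  have hX : crv PP 1 2 (1 + b) = sk1.xs.v u b x := sX1 u
  have K3 : (∀ G ∈ cx_Aplk1, 0 < G.v u b x) → (pcB 2).K.v (c1n (x + u) - sk1.xs.v u b x) (x + u + (1 + b)) x = ((c1n (x + u + b) - 1 / 2) * cG (x + u + b) + kcg.v (psn (x + u + b)) x) * (x + u + b) + sK_Aplk1.v (c1n (x + u) - sk1.xs.v u b x) (1 + (x + u + b)) x * (c1n (x + u) - sk1.xs.v u b x - (c1n (x + u + b) - 1 / 2)) := fun hc => by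
    rw [hY]
    exact zKAplk1 hF x0 x1 h1 h2 h3 hb q3 hc
  have L3 : (∀ G ∈ cx_Aplk1, 0 < G.v u b x) → (pcB 2).L.v (c1n (x + u) - sk1.xs.v u b x) (x + u + (1 + b)) x = cQ x (x + u + b) (kcg.v (psn (x + u + b)) x) + sX_Aplk1.v (c1n (x + u) - sk1.xs.v u b x) (1 + (x + u + b)) x * (c1n (x + u) - sk1.xs.v u b x - (c1n (x + u + b) - 1 / 2)) := fun hc => by
    rw [hY]
    exact zLAplk1 hF x0 x1 h1 h2 h3 hb q3 hc
  have C3 : (∀ G ∈ cx_Aplk1, 0 < G.v u b x) → (scP esg pd 2).v (c1n (x + u) - sk1.xs.v u b x) (x + u + (1 + b)) x = esn x * ((cP (x + u + b) - 1 / 2 * cD (x + u + b) - (cR (x + u + b) + 2 * c1n (x + u + b) - 1) * kcg.v (psn (x + u + b)) x) + ((T_Aplk1.a true).at_ u b x).it * sD_Aplk1.v (c1n (x + u) - sk1.xs.v u b x) (1 + (x + u + b)) x * (c1n (x + u) - sk1.xs.v u b x - (c1n (x + u + b) - 1 / 2))) := fun hc => by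
    rw [hY]
    show esg.v x * (pd 2).v (c1n (x + u) - sk1.xs.v u b x) (1 + (x + u + b)) x = _
    rw [esg_n, div_it (zDAplk1 hF hU x0 x1 h1 h2 h3 hb q3 hc) hit]
  exact bothAp (T := T_Aplk1) (sk := sk_Aplk1) (cx := cx_Aplk1) (sk2 := sk_Aplk1) (cx2 := cx_Aplk1) D hb hκ hd hit t1 t3 hx hX (dc x0 x1) (by linarith) (by linarith) (by norm_num [T_Aplk1]) (by norm_num [T_Aplk1]) K5 hs K7 hs K1 (sk1K u hb qs (by linarith)) K3 L1 (sk1L u hb qs (by linarith)) L3 C1 (sk1C u hb qs (by linarith)) C3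
theorem AE1_022 {x κ y y' : ℝ} (hF : SideOk PP tK tL pcB x) (hU : ThrOk PP tU pd x) (hκ : κ * h0 = ken x) (x0 : 1 / 2 ≤ x) (x1 : x ≤ 293668389 / 536870912)
    (F : FactsA PP 0 2 2 0 1 1 (-1) y y') (h1 : |y - x| < 5 / 256) (h2 : |y' - 1| < 1 / 32) (h3 : |y + y' - (1 + x)| < 5 / 256) :
    DirEA (3 / 10) κ PP tK tL tC pcB (scP esg pd) 0 2 2 0 1 1 (-1) x y y' := by
  obtain ⟨u, rfl⟩ : ∃ u, y = x + u := ⟨y - x, by ring⟩
  obtain ⟨b, rfl⟩ : ∃ b, y' = 1 + b := ⟨y' - 1, by ring⟩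
  rw [show x + u - x = u by ring] at h1
  rw [show 1 + b - 1 = b by ring] at h2
  rw [show x + u + (1 + b) - (1 + x) = u + b by ring] at h3
  obtain ⟨u1, u2⟩ := abs_lt.1 h1
  exact fE_Aplk1 hF hU hκ x0 x1 h1 h2 h3 F (t1_0 F.q1) (shK0 F.q1 (by linarith) (by linarith)) (shL0 F.q1 (by linarith) (by linarith)) (shC0 F.q1 (by linarith) (by linarith))
theorem molE_A_022_01_0 {κ x : ℝ} (hκ : κ * h0 = ken x) (hx : ((536870912 : ℕ) : ℝ) / S ≤ x) (hx' : x ≤ (((536870912 : ℕ) : ℝ) + (50465866 : ℕ)) / S) :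
    AltEA 3 κ (eng.v x) (3 / 40) (tnt (h0 * x) (3 / 10)) PP tK tL tC pcB (scP esg pd) [⟨0, 0, 1, 20971520⟩, ⟨1, 1, 0, 33554432⟩, ⟨2, 1, 1, 20971520⟩] 0 2 2 0 1 (sgb true) (sgb false) x := by
  obtain ⟨x0, x1⟩ := xr hx hx'
  exact altEA_s fun y y' F h1 h2 h3 => DirEA.st (eng_n x) (AE1_022 (sideB hx hx') (thrU hx hx') hκ x0 x1 F (h1.trans_eq (by norm_num)) (h2.trans_eq (by norm_num)) (h3.trans_eq (by norm_num)))
theorem AE1_122 {x κ y y' : ℝ} (hF : SideOk PP tK tL pcB x) (hU : ThrOk PP tU pd x) (hκ : κ * h0 = ken x) (x0 : 1 / 2 ≤ x) (x1 : x ≤ 293668389 / 536870912)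
    (F : FactsA PP 1 2 2 0 1 1 (-1) y y') (h1 : |y - x| < 5 / 256) (h2 : |y' - 1| < 1 / 32) (h3 : |y + y' - (1 + x)| < 5 / 256) :
    DirEA (3 / 10) κ PP tK tL tC pcB (scP esg pd) 1 2 2 0 1 1 (-1) x y y' := by
  obtain ⟨u, rfl⟩ : ∃ u, y = x + u := ⟨y - x, by ring⟩
  obtain ⟨b, rfl⟩ : ∃ b, y' = 1 + b := ⟨y' - 1, by ring⟩
  rw [show x + u - x = u by ring] at h1
  rw [show 1 + b - 1 = b by ring] at h2
  rw [show x + u + (1 + b) - (1 + x) = u + b by ring] at h3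
  obtain ⟨u1, u2⟩ := abs_lt.1 h1
  exact fE_Aplk1 hF hU hκ x0 x1 h1 h2 h3 F (t1_1 F.q1) (shK1 F.q1 (by linarith) (by linarith)) (shL1 F.q1 (by linarith) (by linarith)) (shC1 F.q1 (by linarith) (by linarith))
theorem molE_A_122_01_0 {κ x : ℝ} (hκ : κ * h0 = ken x) (hx : ((536870912 : ℕ) : ℝ) / S ≤ x) (hx' : x ≤ (((536870912 : ℕ) : ℝ) + (50465866 : ℕ)) / S) :
    AltEA 3 κ (eng.v x) (3 / 40) (tnt (h0 * x) (3 / 10)) PP tK tL tC pcB (scP esg pd) [⟨0, 0, 1, 20971520⟩, ⟨1, 1, 0, 33554432⟩, ⟨2, 1, 1, 20971520⟩] 1 2 2 0 1 (sgb true) (sgb false) x := by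
  obtain ⟨x0, x1⟩ := xr hx hx'
  exact altEA_s fun y y' F h1 h2 h3 => DirEA.st (eng_n x) (AE1_122 (sideB hx hx') (thrU hx hx') hκ x0 x1 F (h1.trans_eq (by norm_num)) (h2.trans_eq (by norm_num)) (h3.trans_eq (by norm_num)))
theorem w_Aphk1 {u b x : ℝ} (x0 : 1 / 2 ≤ x) (x1 : x ≤ 293668389 / 536870912) (h1 : |u| < 5 / 256) (h2 : |b| < 1 / 32) (h3 : |u + b| < 5 / 256) (hb : 0 ≤ b) : (w3W false).v (1 + (x + u + b)) ≤ c1n (x + u) - sk1.xs.v u b x := by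
  obtain ⟨u1, u2⟩ := abs_lt.1 h1
  obtain ⟨b1, b2⟩ := abs_lt.1 h2
  obtain ⟨v1, v2⟩ := abs_lt.1 h3
  have cm1 : (fXS 22 3 25).v u b x ≤ 1 / 2 := fXS_le (by norm_num) hb
  have cm2 : c1n (x + u) ≥ c1n (x + u + b) := c1n_le' (by linarith) (by linarith)
  rw [w3W_A]
  show c1n (x + u + b) - 1 / 2 ≤ c1n (x + u) - (fXS 22 3 25).v u b x
  linarith
theorem zKAphk1 {u b x : ℝ} (hF : SideOk PP tK tL pcB x) (x0 : 1 / 2 ≤ x) (x1 : x ≤ 293668389 / 536870912) (h1 : |u| < 5 / 256) (h2 : |b| < 1 / 32) (h3 : |u + b| < 5 / 256) (hb : 0 ≤ b) (q3 : InQ 3 (1 + (x + u + b)))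
    (hc : ∀ G ∈ cx_Aphk1, 0 < G.v u b x) : (pcB 3).K.v (c1n (x + u) - sk1.xs.v u b x) (1 + (x + u + b)) x =
    ((c1n (x + u + b) - 1 / 2) * cG (x + u + b) + kcg.v (psn (x + u + b)) x) * -(1 - (x + u + b)) + sK_Aphk1.v (c1n (x + u) - sk1.xs.v u b x) (1 + (x + u + b)) x * (c1n (x + u) - sk1.xs.v u b x - (c1n (x + u + b) - 1 / 2)) := by
  have hw := w_Aphk1 x0 x1 h1 h2 h3 hb
  obtain ⟨u1, u2⟩ := abs_lt.1 h1
  obtain ⟨b1, b2⟩ := abs_lt.1 h2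
  obtain ⟨v1, v2⟩ := abs_lt.1 h3
  have y1 := q3.1
  have y2 := q3.2
  have c0 : 0 < (tCC (w3W false) cv3r).v (c1n (x + u) - sk1.xs.v u b x) (1 + (x + u + b)) x := hc (f3A sk1.xs (tCC (w3W false) cv3r)) (by unfold cx_Aphk1; simp only [List.mem_cons, true_or, or_true])
  have c1 : 0 < (tCC cv4r (w3W false)).v (c1n (x + u) - sk1.xs.v u b x) (1 + (x + u + b)) x := hc (f3A sk1.xs (tCC cv4r (w3W false))) (by unfold cx_Aphk1; simp only [List.mem_cons, true_or, or_true])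
  have c2 : 0 < (tCX cv4r).v (c1n (x + u) - sk1.xs.v u b x) (1 + (x + u + b)) x := hc (f3A sk1.xs (tCX cv4r)) (by unfold cx_Aphk1; simp only [List.mem_cons, true_or, or_true])
  refine (sKAphk1 hF q3 (by linarith) (by linarith) c0 c1 c2 hw).trans ?_
  rw [w3K_A, w3W_A]
  push_cast
  ring
theorem zLAphk1 {u b x : ℝ} (hF : SideOk PP tK tL pcB x) (x0 : 1 / 2 ≤ x) (x1 : x ≤ 293668389 / 536870912) (h1 : |u| < 5 / 256) (h2 : |b| < 1 / 32) (h3 : |u + b| < 5 / 256) (hb : 0 ≤ b) (q3 : InQ 3 (1 + (x + u + b)))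
    (hc : ∀ G ∈ cx_Aphk1, 0 < G.v u b x) : (pcB 3).L.v (c1n (x + u) - sk1.xs.v u b x) (1 + (x + u + b)) x =
    cQ x (x + u + b) (kcg.v (psn (x + u + b)) x) + sX_Aphk1.v (c1n (x + u) - sk1.xs.v u b x) (1 + (x + u + b)) x * (c1n (x + u) - sk1.xs.v u b x - (c1n (x + u + b) - 1 / 2)) := by
  have hw := w_Aphk1 x0 x1 h1 h2 h3 hb
  obtain ⟨u1, u2⟩ := abs_lt.1 h1
  obtain ⟨b1, b2⟩ := abs_lt.1 h2
  obtain ⟨v1, v2⟩ := abs_lt.1 h3
  have y1 := q3.1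
  have y2 := q3.2
  have c0 : 0 < (tCC (w3W false) cv3r).v (c1n (x + u) - sk1.xs.v u b x) (1 + (x + u + b)) x := hc (f3A sk1.xs (tCC (w3W false) cv3r)) (by unfold cx_Aphk1; simp only [List.mem_cons, true_or, or_true])
  have c1 : 0 < (tCC cv4r (w3W false)).v (c1n (x + u) - sk1.xs.v u b x) (1 + (x + u + b)) x := hc (f3A sk1.xs (tCC cv4r (w3W false))) (by unfold cx_Aphk1; simp only [List.mem_cons, true_or, or_true])
  have c2 : 0 < (tCX cv4r).v (c1n (x + u) - sk1.xs.v u b x) (1 + (x + u + b)) x := hc (f3A sk1.xs (tCX cv4r)) (by unfold cx_Aphk1; simp only [List.mem_cons, true_or, or_true])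
  refine (sLAphk1 hF q3 (by linarith) (by linarith) c0 c1 c2 hw).trans ?_
  rw [w3Q_A, w3W_A]
theorem zDAphk1 {u b x : ℝ} (hF : SideOk PP tK tL pcB x) (hU : ThrOk PP tU pd x) (x0 : 1 / 2 ≤ x) (x1 : x ≤ 293668389 / 536870912) (h1 : |u| < 5 / 256) (h2 : |b| < 1 / 32) (h3 : |u + b| < 5 / 256) (hb : 0 ≤ b) (q3 : InQ 3 (1 + (x + u + b)))
    (hc : ∀ G ∈ cx_Aphk1, 0 < G.v u b x) : (pd 3).v (c1n (x + u) - sk1.xs.v u b x) (1 + (x + u + b)) x * -(1 - (x + u + b)) =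
    (cP (x + u + b) - 1 / 2 * cD (x + u + b) - (cR (x + u + b) + 2 * c1n (x + u + b) - 1) * kcg.v (psn (x + u + b)) x) * -(1 - (x + u + b)) + sD_Aphk1.v (c1n (x + u) - sk1.xs.v u b x) (1 + (x + u + b)) x * (c1n (x + u) - sk1.xs.v u b x - (c1n (x + u + b) - 1 / 2)) := by
  have hw := w_Aphk1 x0 x1 h1 h2 h3 hb
  obtain ⟨u1, u2⟩ := abs_lt.1 h1
  obtain ⟨b1, b2⟩ := abs_lt.1 h2
  obtain ⟨v1, v2⟩ := abs_lt.1 h3
  have y1 := q3.1
  have y2 := q3.2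
  have c0 : 0 < (tCC (w3W false) cv3r).v (c1n (x + u) - sk1.xs.v u b x) (1 + (x + u + b)) x := hc (f3A sk1.xs (tCC (w3W false) cv3r)) (by unfold cx_Aphk1; simp only [List.mem_cons, true_or, or_true])
  have c1 : 0 < (tCC cv4r (w3W false)).v (c1n (x + u) - sk1.xs.v u b x) (1 + (x + u + b)) x := hc (f3A sk1.xs (tCC cv4r (w3W false))) (by unfold cx_Aphk1; simp only [List.mem_cons, true_or, or_true])
  have c2 : 0 < (tCX cv4r).v (c1n (x + u) - sk1.xs.v u b x) (1 + (x + u + b)) x := hc (f3A sk1.xs (tCX cv4r)) (by unfold cx_Aphk1; simp only [List.mem_cons, true_or, or_true])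
  have e := sDAphk1 hF hU q3 (by linarith) (by linarith) c0 c1 c2 hw
  rw [w3D_A, w3W_A] at e
  push_cast at e
  linear_combination e
theorem fE_Aphk1 {a : ℕ} {x u b κ τ : ℝ} (hF : SideOk PP tK tL pcB x) (hU : ThrOk PP tU pd x) (hκ : κ * h0 = ken x)
    (x0 : 1 / 2 ≤ x) (x1 : x ≤ 293668389 / 536870912) (h1 : |u| < 5 / 256) (h2 : |b| < 1 / 32) (h3 : |u + b| < 5 / 256) (F : FactsA PP a 2 3 0 1 1 (-1) (x + u) (1 + b))
    (t1 : tau (h0 * (x + u)) = h0 * τ) (K1 : tK 0 a (x + u) x = (c1n (x + u) * cG (x + u) + kcg.v (psn (x + u)) x) * τ) (L1 : tL 0 a (x + u) x = cQ x (x + u) (kcg.v (psn (x + u)) x)) (C1 : tC 0 a (x + u) x = esn x * (cP (x + u) - (cR (x + u) + 2 * c1n (x + u)) * kcg.v (psn (x + u)) x)) :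
    DirEA (3 / 10) κ PP tK tL tC pcB (scP esg pd) a 2 3 0 1 1 (-1) x (x + u) (1 + b) := by
  obtain ⟨u1, u2⟩ := abs_lt.1 h1
  obtain ⟨b1, b2⟩ := abs_lt.1 h2
  obtain ⟨v1, v2⟩ := abs_lt.1 h3
  have qs := F.q2
  have hb : 0 ≤ b := by linarith [qs.1]
  have D : DomA u b x := ⟨by linarith, by linarith, by linarith, by linarith, by linarith, by linarith, by linarith, by linarith⟩
  have hY : x + u + (1 + b) = 1 + (x + u + b) := by ring
  have q3 : InQ 3 (1 + (x + u + b)) := hY ▸ F.q3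
  obtain ⟨p1, p2⟩ := psr (y := x + u) (by linarith) (by linarith)
  obtain ⟨p3, p4⟩ := psr (y := x + u + b) (by linarith) (by linarith)
  have hd := dqAp (dq_t x) hb (by linarith) (by linarith) (by linarith) (by linarith) p1 p2 p3 p4
  have hs : ∀ G ∈ sk_Aphk1, G.v u b x ≤ 0 := skPMA (v := 20971520) (hi := true) (abs_le.2 ⟨by unfold S; norm_num; linarith, by unfold S; norm_num; linarith⟩) (by simp only [cond_true, cond_false]; linarith [q3.1])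
  obtain ⟨r1, r2⟩ := rX x0 x1
  have K5 := Cht.cert (ng := false) (r := 20971520) ct_0Aphk1 (u := u) (b := b) (x := x) (by unfold S; norm_num; linarith) (by unfold S; norm_num; linarith) (by simp only [cond_true, cond_false]; linarith) (by simp only [cond_true, cond_false]; unfold S; norm_num; linarith) r1 r2
  have K7 := Cht.cert (ng := false) (r := 20971520) ct_2Aphk1 (u := u) (b := b) (x := x) (by unfold S; norm_num; linarith) (by unfold S; norm_num; linarith) (by simp only [cond_true, cond_false]; linarith) (by simp only [cond_true, cond_false]; unfold S; norm_num; linarith) r1 r2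
  have t3 := t3A3 F.q3
  have hit : ((T_Aphk1.a true).at_ u b x).it * -(1 - (x + u + b)) = 1 := by
    show -(1 - (x + u + b))⁻¹ * _ = _
    rw [neg_mul_neg]
    exact inv_mul_cancel₀ (ne_of_gt (by linarith))
  have hx : sk1.xs.v u b x = 1 / 2 + b * sk1.ws.v u b x := stK_x (by norm_num) (by linarith) (by linarith)
  have hX : crv PP 1 2 (1 + b) = sk1.xs.v u b x := sX1 u
  have K3 : (∀ G ∈ cx_Aphk1, 0 < G.v u b x) → (pcB 3).K.v (c1n (x + u) - sk1.xs.v u b x) (x + u + (1 + b)) x = ((c1n (x + u + b) - 1 / 2) * cG (x + u + b) + kcg.v (psn (x + u + b)) x) * -(1 - (x + u + b)) + sK_Aphk1.v (c1n (x + u) - sk1.xs.v u b x) (1 + (x + u + b)) x * (c1n (x + u) - sk1.xs.v u b x - (c1n (x + u + b) - 1 / 2)) := fun hc => by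
    rw [hY]
    exact zKAphk1 hF x0 x1 h1 h2 h3 hb q3 hc
  have L3 : (∀ G ∈ cx_Aphk1, 0 < G.v u b x) → (pcB 3).L.v (c1n (x + u) - sk1.xs.v u b x) (x + u + (1 + b)) x = cQ x (x + u + b) (kcg.v (psn (x + u + b)) x) + sX_Aphk1.v (c1n (x + u) - sk1.xs.v u b x) (1 + (x + u + b)) x * (c1n (x + u) - sk1.xs.v u b x - (c1n (x + u + b) - 1 / 2)) := fun hc => by
    rw [hY]
    exact zLAphk1 hF x0 x1 h1 h2 h3 hb q3 hc
  have C3 : (∀ G ∈ cx_Aphk1, 0 < G.v u b x) → (scP esg pd 3).v (c1n (x + u) - sk1.xs.v u b x) (x + u + (1 + b)) x = esn x * ((cP (x + u + b) - 1 / 2 * cD (x + u + b) - (cR (x + u + b) + 2 * c1n (x + u + b) - 1) * kcg.v (psn (x + u + b)) x) + ((T_Aphk1.a true).at_ u b x).it * sD_Aphk1.v (c1n (x + u) - sk1.xs.v u b x) (1 + (x + u + b)) x * (c1n (x + u) - sk1.xs.v u b x - (c1n (x + u + b) - 1 / 2))) := fun hc => by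
    rw [hY]
    show esg.v x * (pd 3).v (c1n (x + u) - sk1.xs.v u b x) (1 + (x + u + b)) x = _
    rw [esg_n, div_it (zDAphk1 hF hU x0 x1 h1 h2 h3 hb q3 hc) hit]
  exact bothAp (T := T_Aphk1) (sk := sk_Aphk1) (cx := cx_Aphk1) (sk2 := sk_Aphk1) (cx2 := cx_Aphk1) D hb hκ hd hit t1 t3 hx hX (dc x0 x1) (by linarith) (by linarith) (by norm_num [T_Aphk1]) (by norm_num [T_Aphk1]) K5 hs K7 hs K1 (sk1K u hb qs (by linarith)) K3 L1 (sk1L u hb qs (by linarith)) L3 C1 (sk1C u hb qs (by linarith)) C3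
theorem AE1_023 {x κ y y' : ℝ} (hF : SideOk PP tK tL pcB x) (hU : ThrOk PP tU pd x) (hκ : κ * h0 = ken x) (x0 : 1 / 2 ≤ x) (x1 : x ≤ 293668389 / 536870912)
    (F : FactsA PP 0 2 3 0 1 1 (-1) y y') (h1 : |y - x| < 5 / 256) (h2 : |y' - 1| < 1 / 32) (h3 : |y + y' - (1 + x)| < 5 / 256) :
    DirEA (3 / 10) κ PP tK tL tC pcB (scP esg pd) 0 2 3 0 1 1 (-1) x y y' := by
  obtain ⟨u, rfl⟩ : ∃ u, y = x + u := ⟨y - x, by ring⟩
  obtain ⟨b, rfl⟩ : ∃ b, y' = 1 + b := ⟨y' - 1, by ring⟩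
  rw [show x + u - x = u by ring] at h1
  rw [show 1 + b - 1 = b by ring] at h2
  rw [show x + u + (1 + b) - (1 + x) = u + b by ring] at h3
  obtain ⟨u1, u2⟩ := abs_lt.1 h1
  exact fE_Aphk1 hF hU hκ x0 x1 h1 h2 h3 F (t1_0 F.q1) (shK0 F.q1 (by linarith) (by linarith)) (shL0 F.q1 (by linarith) (by linarith)) (shC0 F.q1 (by linarith) (by linarith))
theorem molE_A_023_01_0 {κ x : ℝ} (hκ : κ * h0 = ken x) (hx : ((536870912 : ℕ) : ℝ) / S ≤ x) (hx' : x ≤ (((536870912 : ℕ) : ℝ) + (50465866 : ℕ)) / S) :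
    AltEA 3 κ (eng.v x) (3 / 40) (tnt (h0 * x) (3 / 10)) PP tK tL tC pcB (scP esg pd) [⟨0, 0, 1, 20971520⟩, ⟨1, 1, 0, 33554432⟩, ⟨2, 1, 1, 20971520⟩] 0 2 3 0 1 (sgb true) (sgb false) x := by
  obtain ⟨x0, x1⟩ := xr hx hx'
  exact altEA_s fun y y' F h1 h2 h3 => DirEA.st (eng_n x) (AE1_023 (sideB hx hx') (thrU hx hx') hκ x0 x1 F (h1.trans_eq (by norm_num)) (h2.trans_eq (by norm_num)) (h3.trans_eq (by norm_num)))
theorem AE1_123 {x κ y y' : ℝ} (hF : SideOk PP tK tL pcB x) (hU : ThrOk PP tU pd x) (hκ : κ * h0 = ken x) (x0 : 1 / 2 ≤ x) (x1 : x ≤ 293668389 / 536870912)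
    (F : FactsA PP 1 2 3 0 1 1 (-1) y y') (h1 : |y - x| < 5 / 256) (h2 : |y' - 1| < 1 / 32) (h3 : |y + y' - (1 + x)| < 5 / 256) :
    DirEA (3 / 10) κ PP tK tL tC pcB (scP esg pd) 1 2 3 0 1 1 (-1) x y y' := by
  obtain ⟨u, rfl⟩ : ∃ u, y = x + u := ⟨y - x, by ring⟩
  obtain ⟨b, rfl⟩ : ∃ b, y' = 1 + b := ⟨y' - 1, by ring⟩
  rw [show x + u - x = u by ring] at h1
  rw [show 1 + b - 1 = b by ring] at h2
  rw [show x + u + (1 + b) - (1 + x) = u + b by ring] at h3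
  obtain ⟨u1, u2⟩ := abs_lt.1 h1
  exact fE_Aphk1 hF hU hκ x0 x1 h1 h2 h3 F (t1_1 F.q1) (shK1 F.q1 (by linarith) (by linarith)) (shL1 F.q1 (by linarith) (by linarith)) (shC1 F.q1 (by linarith) (by linarith))
theorem molE_A_123_01_0 {κ x : ℝ} (hκ : κ * h0 = ken x) (hx : ((536870912 : ℕ) : ℝ) / S ≤ x) (hx' : x ≤ (((536870912 : ℕ) : ℝ) + (50465866 : ℕ)) / S) :
    AltEA 3 κ (eng.v x) (3 / 40) (tnt (h0 * x) (3 / 10)) PP tK tL tC pcB (scP esg pd) [⟨0, 0, 1, 20971520⟩, ⟨1, 1, 0, 33554432⟩, ⟨2, 1, 1, 20971520⟩] 1 2 3 0 1 (sgb true) (sgb false) x := by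
  obtain ⟨x0, x1⟩ := xr hx hx'
  exact altEA_s fun y y' F h1 h2 h3 => DirEA.st (eng_n x) (AE1_123 (sideB hx hx') (thrU hx hx') hκ x0 x1 F (h1.trans_eq (by norm_num)) (h2.trans_eq (by norm_num)) (h3.trans_eq (by norm_num)))
theorem w_Aplk2 {u b x : ℝ} (x0 : 1 / 2 ≤ x) (x1 : x ≤ 293668389 / 536870912) (h1 : |u| < 5 / 256) (h2 : |b| < 1 / 32) (h3 : |u + b| < 5 / 256) (hb : 0 ≤ b) : (w3W false).v (1 + (x + u + b)) ≤ c1n (x + u) - sk2.xs.v u b x := by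
  obtain ⟨u1, u2⟩ := abs_lt.1 h1
  obtain ⟨b1, b2⟩ := abs_lt.1 h2
  obtain ⟨v1, v2⟩ := abs_lt.1 h3
  have cm1 : (fXS 3 2 5).v u b x ≤ 1 / 2 := fXS_le (by norm_num) hb
  have cm2 : c1n (x + u) ≥ c1n (x + u + b) := c1n_le' (by linarith) (by linarith)
  rw [w3W_A]
  show c1n (x + u + b) - 1 / 2 ≤ c1n (x + u) - (fXS 3 2 5).v u b x
  linarith
theorem zKAplk2 {u b x : ℝ} (hF : SideOk PP tK tL pcB x) (x0 : 1 / 2 ≤ x) (x1 : x ≤ 293668389 / 536870912) (h1 : |u| < 5 / 256) (h2 : |b| < 1 / 32) (h3 : |u + b| < 5 / 256) (hb : 0 ≤ b) (q3 : InQ 2 (1 + (x + u + b)))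
    (hc : ∀ G ∈ cx_Aplk2, 0 < G.v u b x) : (pcB 2).K.v (c1n (x + u) - sk2.xs.v u b x) (1 + (x + u + b)) x =
    ((c1n (x + u + b) - 1 / 2) * cG (x + u + b) + kcg.v (psn (x + u + b)) x) * (x + u + b) + sK_Aplk2.v (c1n (x + u) - sk2.xs.v u b x) (1 + (x + u + b)) x * (c1n (x + u) - sk2.xs.v u b x - (c1n (x + u + b) - 1 / 2)) := by
  have hw := w_Aplk2 x0 x1 h1 h2 h3 hb
  obtain ⟨u1, u2⟩ := abs_lt.1 h1
  obtain ⟨b1, b2⟩ := abs_lt.1 h2
  obtain ⟨v1, v2⟩ := abs_lt.1 h3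
  have y1 := q3.1
  have y2 := q3.2
  have c0 : 0 < (tCC (w3W false) cv3p).v (c1n (x + u) - sk2.xs.v u b x) (1 + (x + u + b)) x := hc (f3A sk2.xs (tCC (w3W false) cv3p)) (by unfold cx_Aplk2; simp only [List.mem_cons, true_or, or_true])
  have c1 : 0 < (tCC cv4p (w3W false)).v (c1n (x + u) - sk2.xs.v u b x) (1 + (x + u + b)) x := hc (f3A sk2.xs (tCC cv4p (w3W false))) (by unfold cx_Aplk2; simp only [List.mem_cons, true_or, or_true])
  have c2 : 0 < (tCX cv4p).v (c1n (x + u) - sk2.xs.v u b x) (1 + (x + u + b)) x := hc (f3A sk2.xs (tCX cv4p)) (by unfold cx_Aplk2; simp only [List.mem_cons, true_or, or_true])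
  refine (sKAplk2 hF q3 (by linarith) (by linarith) c0 c1 c2 hw).trans ?_
  rw [w3K_A, w3W_A]
  push_cast
  ring
theorem zLAplk2 {u b x : ℝ} (hF : SideOk PP tK tL pcB x) (x0 : 1 / 2 ≤ x) (x1 : x ≤ 293668389 / 536870912) (h1 : |u| < 5 / 256) (h2 : |b| < 1 / 32) (h3 : |u + b| < 5 / 256) (hb : 0 ≤ b) (q3 : InQ 2 (1 + (x + u + b)))
    (hc : ∀ G ∈ cx_Aplk2, 0 < G.v u b x) : (pcB 2).L.v (c1n (x + u) - sk2.xs.v u b x) (1 + (x + u + b)) x =
    cQ x (x + u + b) (kcg.v (psn (x + u + b)) x) + sX_Aplk2.v (c1n (x + u) - sk2.xs.v u b x) (1 + (x + u + b)) x * (c1n (x + u) - sk2.xs.v u b x - (c1n (x + u + b) - 1 / 2)) := by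
  have hw := w_Aplk2 x0 x1 h1 h2 h3 hb
  obtain ⟨u1, u2⟩ := abs_lt.1 h1
  obtain ⟨b1, b2⟩ := abs_lt.1 h2
  obtain ⟨v1, v2⟩ := abs_lt.1 h3
  have y1 := q3.1
  have y2 := q3.2
  have c0 : 0 < (tCC (w3W false) cv3p).v (c1n (x + u) - sk2.xs.v u b x) (1 + (x + u + b)) x := hc (f3A sk2.xs (tCC (w3W false) cv3p)) (by unfold cx_Aplk2; simp only [List.mem_cons, true_or, or_true])
  have c1 : 0 < (tCC cv4p (w3W false)).v (c1n (x + u) - sk2.xs.v u b x) (1 + (x + u + b)) x := hc (f3A sk2.xs (tCC cv4p (w3W false))) (by unfold cx_Aplk2; simp only [List.mem_cons, true_or, or_true])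
  have c2 : 0 < (tCX cv4p).v (c1n (x + u) - sk2.xs.v u b x) (1 + (x + u + b)) x := hc (f3A sk2.xs (tCX cv4p)) (by unfold cx_Aplk2; simp only [List.mem_cons, true_or, or_true])
  refine (sLAplk2 hF q3 (by linarith) (by linarith) c0 c1 c2 hw).trans ?_
  rw [w3Q_A, w3W_A]
theorem zDAplk2 {u b x : ℝ} (hF : SideOk PP tK tL pcB x) (hU : ThrOk PP tU pd x) (x0 : 1 / 2 ≤ x) (x1 : x ≤ 293668389 / 536870912) (h1 : |u| < 5 / 256) (h2 : |b| < 1 / 32) (h3 : |u + b| < 5 / 256) (hb : 0 ≤ b) (q3 : InQ 2 (1 + (x + u + b)))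
    (hc : ∀ G ∈ cx_Aplk2, 0 < G.v u b x) : (pd 2).v (c1n (x + u) - sk2.xs.v u b x) (1 + (x + u + b)) x * (x + u + b) =
    (cP (x + u + b) - 1 / 2 * cD (x + u + b) - (cR (x + u + b) + 2 * c1n (x + u + b) - 1) * kcg.v (psn (x + u + b)) x) * (x + u + b) + sD_Aplk2.v (c1n (x + u) - sk2.xs.v u b x) (1 + (x + u + b)) x * (c1n (x + u) - sk2.xs.v u b x - (c1n (x + u + b) - 1 / 2)) := by
  have hw := w_Aplk2 x0 x1 h1 h2 h3 hb
  obtain ⟨u1, u2⟩ := abs_lt.1 h1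
  obtain ⟨b1, b2⟩ := abs_lt.1 h2
  obtain ⟨v1, v2⟩ := abs_lt.1 h3
  have y1 := q3.1
  have y2 := q3.2
  have c0 : 0 < (tCC (w3W false) cv3p).v (c1n (x + u) - sk2.xs.v u b x) (1 + (x + u + b)) x := hc (f3A sk2.xs (tCC (w3W false) cv3p)) (by unfold cx_Aplk2; simp only [List.mem_cons, true_or, or_true])
  have c1 : 0 < (tCC cv4p (w3W false)).v (c1n (x + u) - sk2.xs.v u b x) (1 + (x + u + b)) x := hc (f3A sk2.xs (tCC cv4p (w3W false))) (by unfold cx_Aplk2; simp only [List.mem_cons, true_or, or_true])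
  have c2 : 0 < (tCX cv4p).v (c1n (x + u) - sk2.xs.v u b x) (1 + (x + u + b)) x := hc (f3A sk2.xs (tCX cv4p)) (by unfold cx_Aplk2; simp only [List.mem_cons, true_or, or_true])
  have e := sDAplk2 hF hU q3 (by linarith) (by linarith) c0 c1 c2 hw
  rw [w3D_A, w3W_A] at e
  push_cast at e
  linear_combination e
theorem fE_Aplk2 {a : ℕ} {x u b κ τ : ℝ} (hF : SideOk PP tK tL pcB x) (hU : ThrOk PP tU pd x) (hκ : κ * h0 = ken x)
    (x0 : 1 / 2 ≤ x) (x1 : x ≤ 293668389 / 536870912) (h1 : |u| < 5 / 256) (h2 : |b| < 1 / 32) (h3 : |u + b| < 5 / 256) (F : FactsA PP a 2 2 0 2 1 (-1) (x + u) (1 + b))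
    (t1 : tau (h0 * (x + u)) = h0 * τ) (K1 : tK 0 a (x + u) x = (c1n (x + u) * cG (x + u) + kcg.v (psn (x + u)) x) * τ) (L1 : tL 0 a (x + u) x = cQ x (x + u) (kcg.v (psn (x + u)) x)) (C1 : tC 0 a (x + u) x = esn x * (cP (x + u) - (cR (x + u) + 2 * c1n (x + u)) * kcg.v (psn (x + u)) x)) :
    DirEA (3 / 10) κ PP tK tL tC pcB (scP esg pd) a 2 2 0 2 1 (-1) x (x + u) (1 + b) := by
  obtain ⟨u1, u2⟩ := abs_lt.1 h1
  obtain ⟨b1, b2⟩ := abs_lt.1 h2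
  obtain ⟨v1, v2⟩ := abs_lt.1 h3
  have qs := F.q2
  have hb : 0 ≤ b := by linarith [qs.1]
  have D : DomA u b x := ⟨by linarith, by linarith, by linarith, by linarith, by linarith, by linarith, by linarith, by linarith⟩
  have hY : x + u + (1 + b) = 1 + (x + u + b) := by ring
  have q3 : InQ 2 (1 + (x + u + b)) := hY ▸ F.q3
  obtain ⟨p1, p2⟩ := psr (y := x + u) (by linarith) (by linarith)
  obtain ⟨p3, p4⟩ := psr (y := x + u + b) (by linarith) (by linarith)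
  have hd := dqAp (dq_t x) hb (by linarith) (by linarith) (by linarith) (by linarith) p1 p2 p3 p4
  have hs : ∀ G ∈ sk_Aplk2, G.v u b x ≤ 0 := skPMA (v := 20971520) (hi := false) (abs_le.2 ⟨by unfold S; norm_num; linarith, by unfold S; norm_num; linarith⟩) (by simp only [cond_true, cond_false]; linarith [q3.2])
  obtain ⟨r1, r2⟩ := rX x0 x1
  have K5 := Cht.cert (ng := false) (r := 20971520) ct_0Aplk2 (u := u) (b := b) (x := x) (by unfold S; norm_num; linarith) (by unfold S; norm_num; linarith) (by simp only [cond_true, cond_false]; linarith) (by simp only [cond_true, cond_false]; unfold S; norm_num; linarith) r1 r2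
  have K7 := Cht.cert (ng := false) (r := 20971520) ct_2Aplk2 (u := u) (b := b) (x := x) (by unfold S; norm_num; linarith) (by unfold S; norm_num; linarith) (by simp only [cond_true, cond_false]; linarith) (by simp only [cond_true, cond_false]; unfold S; norm_num; linarith) r1 r2
  have t3 := t3A2 F.q3
  have hit : ((T_Aplk2.a true).at_ u b x).it * (x + u + b) = 1 := by
    show (x + u + b)⁻¹ * _ = _
    exact inv_mul_cancel₀ (ne_of_gt (by linarith))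
  have hx : sk2.xs.v u b x = 1 / 2 + b * sk2.ws.v u b x := stK_x (by norm_num) (by linarith) (by linarith)
  have hX : crv PP 2 2 (1 + b) = sk2.xs.v u b x := sX2 u
  have K3 : (∀ G ∈ cx_Aplk2, 0 < G.v u b x) → (pcB 2).K.v (c1n (x + u) - sk2.xs.v u b x) (x + u + (1 + b)) x = ((c1n (x + u + b) - 1 / 2) * cG (x + u + b) + kcg.v (psn (x + u + b)) x) * (x + u + b) + sK_Aplk2.v (c1n (x + u) - sk2.xs.v u b x) (1 + (x + u + b)) x * (c1n (x + u) - sk2.xs.v u b x - (c1n (x + u + b) - 1 / 2)) := fun hc => by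
    rw [hY]
    exact zKAplk2 hF x0 x1 h1 h2 h3 hb q3 hc
  have L3 : (∀ G ∈ cx_Aplk2, 0 < G.v u b x) → (pcB 2).L.v (c1n (x + u) - sk2.xs.v u b x) (x + u + (1 + b)) x = cQ x (x + u + b) (kcg.v (psn (x + u + b)) x) + sX_Aplk2.v (c1n (x + u) - sk2.xs.v u b x) (1 + (x + u + b)) x * (c1n (x + u) - sk2.xs.v u b x - (c1n (x + u + b) - 1 / 2)) := fun hc => by
    rw [hY]
    exact zLAplk2 hF x0 x1 h1 h2 h3 hb q3 hc
  have C3 : (∀ G ∈ cx_Aplk2, 0 < G.v u b x) → (scP esg pd 2).v (c1n (x + u) - sk2.xs.v u b x) (x + u + (1 + b)) x = esn x * ((cP (x + u + b) - 1 / 2 * cD (x + u + b) - (cR (x + u + b) + 2 * c1n (x + u + b) - 1) * kcg.v (psn (x + u + b)) x) + ((T_Aplk2.a true).at_ u b x).it * sD_Aplk2.v (c1n (x + u) - sk2.xs.v u b x) (1 + (x + u + b)) x * (c1n (x + u) - sk2.xs.v u b x - (c1n (x + u + b) - 1 / 2))) := fun hc => by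
    rw [hY]
    show esg.v x * (pd 2).v (c1n (x + u) - sk2.xs.v u b x) (1 + (x + u + b)) x = _
    rw [esg_n, div_it (zDAplk2 hF hU x0 x1 h1 h2 h3 hb q3 hc) hit]
  exact bothAp (T := T_Aplk2) (sk := sk_Aplk2) (cx := cx_Aplk2) (sk2 := sk_Aplk2) (cx2 := cx_Aplk2) D hb hκ hd hit t1 t3 hx hX (dc x0 x1) (by linarith) (by linarith) (by norm_num [T_Aplk2]) (by norm_num [T_Aplk2]) K5 hs K7 hs K1 (sk2K u hb qs (by linarith)) K3 L1 (sk2L u hb qs (by linarith)) L3 C1 (sk2C u hb qs (by linarith)) C3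
theorem AE2_022 {x κ y y' : ℝ} (hF : SideOk PP tK tL pcB x) (hU : ThrOk PP tU pd x) (hκ : κ * h0 = ken x) (x0 : 1 / 2 ≤ x) (x1 : x ≤ 293668389 / 536870912)
    (F : FactsA PP 0 2 2 0 2 1 (-1) y y') (h1 : |y - x| < 5 / 256) (h2 : |y' - 1| < 1 / 32) (h3 : |y + y' - (1 + x)| < 5 / 256) :
    DirEA (3 / 10) κ PP tK tL tC pcB (scP esg pd) 0 2 2 0 2 1 (-1) x y y' := by
  obtain ⟨u, rfl⟩ : ∃ u, y = x + u := ⟨y - x, by ring⟩
  obtain ⟨b, rfl⟩ : ∃ b, y' = 1 + b := ⟨y' - 1, by ring⟩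
  rw [show x + u - x = u by ring] at h1
  rw [show 1 + b - 1 = b by ring] at h2
  rw [show x + u + (1 + b) - (1 + x) = u + b by ring] at h3
  obtain ⟨u1, u2⟩ := abs_lt.1 h1
  exact fE_Aplk2 hF hU hκ x0 x1 h1 h2 h3 F (t1_0 F.q1) (shK0 F.q1 (by linarith) (by linarith)) (shL0 F.q1 (by linarith) (by linarith)) (shC0 F.q1 (by linarith) (by linarith))
theorem molE_A_022_02_0 {κ x : ℝ} (hκ : κ * h0 = ken x) (hx : ((536870912 : ℕ) : ℝ) / S ≤ x) (hx' : x ≤ (((536870912 : ℕ) : ℝ) + (50465866 : ℕ)) / S) :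
    AltEA 3 κ (eng.v x) (3 / 40) (tnt (h0 * x) (3 / 10)) PP tK tL tC pcB (scP esg pd) [⟨0, 0, 1, 20971520⟩, ⟨1, 1, 0, 33554432⟩, ⟨2, 1, 1, 20971520⟩] 0 2 2 0 2 (sgb true) (sgb false) x := by
  obtain ⟨x0, x1⟩ := xr hx hx'
  exact altEA_s fun y y' F h1 h2 h3 => DirEA.st (eng_n x) (AE2_022 (sideB hx hx') (thrU hx hx') hκ x0 x1 F (h1.trans_eq (by norm_num)) (h2.trans_eq (by norm_num)) (h3.trans_eq (by norm_num)))
theorem AE2_122 {x κ y y' : ℝ} (hF : SideOk PP tK tL pcB x) (hU : ThrOk PP tU pd x) (hκ : κ * h0 = ken x) (x0 : 1 / 2 ≤ x) (x1 : x ≤ 293668389 / 536870912)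
    (F : FactsA PP 1 2 2 0 2 1 (-1) y y') (h1 : |y - x| < 5 / 256) (h2 : |y' - 1| < 1 / 32) (h3 : |y + y' - (1 + x)| < 5 / 256) :
    DirEA (3 / 10) κ PP tK tL tC pcB (scP esg pd) 1 2 2 0 2 1 (-1) x y y' := by
  obtain ⟨u, rfl⟩ : ∃ u, y = x + u := ⟨y - x, by ring⟩
  obtain ⟨b, rfl⟩ : ∃ b, y' = 1 + b := ⟨y' - 1, by ring⟩
  rw [show x + u - x = u by ring] at h1
  rw [show 1 + b - 1 = b by ring] at h2
  rw [show x + u + (1 + b) - (1 + x) = u + b by ring] at h3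
  obtain ⟨u1, u2⟩ := abs_lt.1 h1
  exact fE_Aplk2 hF hU hκ x0 x1 h1 h2 h3 F (t1_1 F.q1) (shK1 F.q1 (by linarith) (by linarith)) (shL1 F.q1 (by linarith) (by linarith)) (shC1 F.q1 (by linarith) (by linarith))
theorem molE_A_122_02_0 {κ x : ℝ} (hκ : κ * h0 = ken x) (hx : ((536870912 : ℕ) : ℝ) / S ≤ x) (hx' : x ≤ (((536870912 : ℕ) : ℝ) + (50465866 : ℕ)) / S) :
    AltEA 3 κ (eng.v x) (3 / 40) (tnt (h0 * x) (3 / 10)) PP tK tL tC pcB (scP esg pd) [⟨0, 0, 1, 20971520⟩, ⟨1, 1, 0, 33554432⟩, ⟨2, 1, 1, 20971520⟩] 1 2 2 0 2 (sgb true) (sgb false) x := by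
  obtain ⟨x0, x1⟩ := xr hx hx'
  exact altEA_s fun y y' F h1 h2 h3 => DirEA.st (eng_n x) (AE2_122 (sideB hx hx') (thrU hx hx') hκ x0 x1 F (h1.trans_eq (by norm_num)) (h2.trans_eq (by norm_num)) (h3.trans_eq (by norm_num)))
theorem w_Aphk2 {u b x : ℝ} (x0 : 1 / 2 ≤ x) (x1 : x ≤ 293668389 / 536870912) (h1 : |u| < 5 / 256) (h2 : |b| < 1 / 32) (h3 : |u + b| < 5 / 256) (hb : 0 ≤ b) : (w3W false).v (1 + (x + u + b)) ≤ c1n (x + u) - sk2.xs.v u b x := by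
  obtain ⟨u1, u2⟩ := abs_lt.1 h1
  obtain ⟨b1, b2⟩ := abs_lt.1 h2
  obtain ⟨v1, v2⟩ := abs_lt.1 h3
  have cm1 : (fXS 3 2 5).v u b x ≤ 1 / 2 := fXS_le (by norm_num) hb
  have cm2 : c1n (x + u) ≥ c1n (x + u + b) := c1n_le' (by linarith) (by linarith)
  rw [w3W_A]
  show c1n (x + u + b) - 1 / 2 ≤ c1n (x + u) - (fXS 3 2 5).v u b x
  linarith
theorem zKAphk2 {u b x : ℝ} (hF : SideOk PP tK tL pcB x) (x0 : 1 / 2 ≤ x) (x1 : x ≤ 293668389 / 536870912) (h1 : |u| < 5 / 256) (h2 : |b| < 1 / 32) (h3 : |u + b| < 5 / 256) (hb : 0 ≤ b) (q3 : InQ 3 (1 + (x + u + b)))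
    (hc : ∀ G ∈ cx_Aphk2, 0 < G.v u b x) : (pcB 3).K.v (c1n (x + u) - sk2.xs.v u b x) (1 + (x + u + b)) x =
    ((c1n (x + u + b) - 1 / 2) * cG (x + u + b) + kcg.v (psn (x + u + b)) x) * -(1 - (x + u + b)) + sK_Aphk2.v (c1n (x + u) - sk2.xs.v u b x) (1 + (x + u + b)) x * (c1n (x + u) - sk2.xs.v u b x - (c1n (x + u + b) - 1 / 2)) := by
  have hw := w_Aphk2 x0 x1 h1 h2 h3 hb
  obtain ⟨u1, u2⟩ := abs_lt.1 h1
  obtain ⟨b1, b2⟩ := abs_lt.1 h2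
  obtain ⟨v1, v2⟩ := abs_lt.1 h3
  have y1 := q3.1
  have y2 := q3.2
  have c0 : 0 < (tCC (w3W false) cv3r).v (c1n (x + u) - sk2.xs.v u b x) (1 + (x + u + b)) x := hc (f3A sk2.xs (tCC (w3W false) cv3r)) (by unfold cx_Aphk2; simp only [List.mem_cons, true_or, or_true])
  have c1 : 0 < (tCC cv4r (w3W false)).v (c1n (x + u) - sk2.xs.v u b x) (1 + (x + u + b)) x := hc (f3A sk2.xs (tCC cv4r (w3W false))) (by unfold cx_Aphk2; simp only [List.mem_cons, true_or, or_true])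
  have c2 : 0 < (tCX cv4r).v (c1n (x + u) - sk2.xs.v u b x) (1 + (x + u + b)) x := hc (f3A sk2.xs (tCX cv4r)) (by unfold cx_Aphk2; simp only [List.mem_cons, true_or, or_true])
  refine (sKAphk2 hF q3 (by linarith) (by linarith) c0 c1 c2 hw).trans ?_
  rw [w3K_A, w3W_A]
  push_cast
  ring
theorem zLAphk2 {u b x : ℝ} (hF : SideOk PP tK tL pcB x) (x0 : 1 / 2 ≤ x) (x1 : x ≤ 293668389 / 536870912) (h1 : |u| < 5 / 256) (h2 : |b| < 1 / 32) (h3 : |u + b| < 5 / 256) (hb : 0 ≤ b) (q3 : InQ 3 (1 + (x + u + b)))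
    (hc : ∀ G ∈ cx_Aphk2, 0 < G.v u b x) : (pcB 3).L.v (c1n (x + u) - sk2.xs.v u b x) (1 + (x + u + b)) x =
    cQ x (x + u + b) (kcg.v (psn (x + u + b)) x) + sX_Aphk2.v (c1n (x + u) - sk2.xs.v u b x) (1 + (x + u + b)) x * (c1n (x + u) - sk2.xs.v u b x - (c1n (x + u + b) - 1 / 2)) := by
  have hw := w_Aphk2 x0 x1 h1 h2 h3 hb
  obtain ⟨u1, u2⟩ := abs_lt.1 h1
  obtain ⟨b1, b2⟩ := abs_lt.1 h2
  obtain ⟨v1, v2⟩ := abs_lt.1 h3
  have y1 := q3.1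
  have y2 := q3.2
  have c0 : 0 < (tCC (w3W false) cv3r).v (c1n (x + u) - sk2.xs.v u b x) (1 + (x + u + b)) x := hc (f3A sk2.xs (tCC (w3W false) cv3r)) (by unfold cx_Aphk2; simp only [List.mem_cons, true_or, or_true])
  have c1 : 0 < (tCC cv4r (w3W false)).v (c1n (x + u) - sk2.xs.v u b x) (1 + (x + u + b)) x := hc (f3A sk2.xs (tCC cv4r (w3W false))) (by unfold cx_Aphk2; simp only [List.mem_cons, true_or, or_true])
  have c2 : 0 < (tCX cv4r).v (c1n (x + u) - sk2.xs.v u b x) (1 + (x + u + b)) x := hc (f3A sk2.xs (tCX cv4r)) (by unfold cx_Aphk2; simp only [List.mem_cons, true_or, or_true])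
  refine (sLAphk2 hF q3 (by linarith) (by linarith) c0 c1 c2 hw).trans ?_
  rw [w3Q_A, w3W_A]
theorem zDAphk2 {u b x : ℝ} (hF : SideOk PP tK tL pcB x) (hU : ThrOk PP tU pd x) (x0 : 1 / 2 ≤ x) (x1 : x ≤ 293668389 / 536870912) (h1 : |u| < 5 / 256) (h2 : |b| < 1 / 32) (h3 : |u + b| < 5 / 256) (hb : 0 ≤ b) (q3 : InQ 3 (1 + (x + u + b)))
    (hc : ∀ G ∈ cx_Aphk2, 0 < G.v u b x) : (pd 3).v (c1n (x + u) - sk2.xs.v u b x) (1 + (x + u + b)) x * -(1 - (x + u + b)) =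
    (cP (x + u + b) - 1 / 2 * cD (x + u + b) - (cR (x + u + b) + 2 * c1n (x + u + b) - 1) * kcg.v (psn (x + u + b)) x) * -(1 - (x + u + b)) + sD_Aphk2.v (c1n (x + u) - sk2.xs.v u b x) (1 + (x + u + b)) x * (c1n (x + u) - sk2.xs.v u b x - (c1n (x + u + b) - 1 / 2)) := by
  have hw := w_Aphk2 x0 x1 h1 h2 h3 hb
  obtain ⟨u1, u2⟩ := abs_lt.1 h1
  obtain ⟨b1, b2⟩ := abs_lt.1 h2
  obtain ⟨v1, v2⟩ := abs_lt.1 h3
  have y1 := q3.1
  have y2 := q3.2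
  have c0 : 0 < (tCC (w3W false) cv3r).v (c1n (x + u) - sk2.xs.v u b x) (1 + (x + u + b)) x := hc (f3A sk2.xs (tCC (w3W false) cv3r)) (by unfold cx_Aphk2; simp only [List.mem_cons, true_or, or_true])
  have c1 : 0 < (tCC cv4r (w3W false)).v (c1n (x + u) - sk2.xs.v u b x) (1 + (x + u + b)) x := hc (f3A sk2.xs (tCC cv4r (w3W false))) (by unfold cx_Aphk2; simp only [List.mem_cons, true_or, or_true])
  have c2 : 0 < (tCX cv4r).v (c1n (x + u) - sk2.xs.v u b x) (1 + (x + u + b)) x := hc (f3A sk2.xs (tCX cv4r)) (by unfold cx_Aphk2; simp only [List.mem_cons, true_or, or_true])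
  have e := sDAphk2 hF hU q3 (by linarith) (by linarith) c0 c1 c2 hw
  rw [w3D_A, w3W_A] at e
  push_cast at e
  linear_combination e
theorem fE_Aphk2 {a : ℕ} {x u b κ τ : ℝ} (hF : SideOk PP tK tL pcB x) (hU : ThrOk PP tU pd x) (hκ : κ * h0 = ken x)
    (x0 : 1 / 2 ≤ x) (x1 : x ≤ 293668389 / 536870912) (h1 : |u| < 5 / 256) (h2 : |b| < 1 / 32) (h3 : |u + b| < 5 / 256) (F : FactsA PP a 2 3 0 2 1 (-1) (x + u) (1 + b))
    (t1 : tau (h0 * (x + u)) = h0 * τ) (K1 : tK 0 a (x + u) x = (c1n (x + u) * cG (x + u) + kcg.v (psn (x + u)) x) * τ) (L1 : tL 0 a (x + u) x = cQ x (x + u) (kcg.v (psn (x + u)) x)) (C1 : tC 0 a (x + u) x = esn x * (cP (x + u) - (cR (x + u) + 2 * c1n (x + u)) * kcg.v (psn (x + u)) x)) :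
    DirEA (3 / 10) κ PP tK tL tC pcB (scP esg pd) a 2 3 0 2 1 (-1) x (x + u) (1 + b) := by
  obtain ⟨u1, u2⟩ := abs_lt.1 h1
  obtain ⟨b1, b2⟩ := abs_lt.1 h2
  obtain ⟨v1, v2⟩ := abs_lt.1 h3
  have qs := F.q2
  have hb : 0 ≤ b := by linarith [qs.1]
  have D : DomA u b x := ⟨by linarith, by linarith, by linarith, by linarith, by linarith, by linarith, by linarith, by linarith⟩
  have hY : x + u + (1 + b) = 1 + (x + u + b) := by ring
  have q3 : InQ 3 (1 + (x + u + b)) := hY ▸ F.q3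
  obtain ⟨p1, p2⟩ := psr (y := x + u) (by linarith) (by linarith)
  obtain ⟨p3, p4⟩ := psr (y := x + u + b) (by linarith) (by linarith)
  have hd := dqAp (dq_t x) hb (by linarith) (by linarith) (by linarith) (by linarith) p1 p2 p3 p4
  have hs : ∀ G ∈ sk_Aphk2, G.v u b x ≤ 0 := skPMA (v := 20971520) (hi := true) (abs_le.2 ⟨by unfold S; norm_num; linarith, by unfold S; norm_num; linarith⟩) (by simp only [cond_true, cond_false]; linarith [q3.1])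
  obtain ⟨r1, r2⟩ := rX x0 x1
  have K5 := Cht.cert (ng := false) (r := 20971520) ct_0Aphk2 (u := u) (b := b) (x := x) (by unfold S; norm_num; linarith) (by unfold S; norm_num; linarith) (by simp only [cond_true, cond_false]; linarith) (by simp only [cond_true, cond_false]; unfold S; norm_num; linarith) r1 r2
  have K7 := Cht.cert (ng := false) (r := 20971520) ct_2Aphk2 (u := u) (b := b) (x := x) (by unfold S; norm_num; linarith) (by unfold S; norm_num; linarith) (by simp only [cond_true, cond_false]; linarith) (by simp only [cond_true, cond_false]; unfold S; norm_num; linarith) r1 r2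
  have t3 := t3A3 F.q3
  have hit : ((T_Aphk2.a true).at_ u b x).it * -(1 - (x + u + b)) = 1 := by
    show -(1 - (x + u + b))⁻¹ * _ = _
    rw [neg_mul_neg]
    exact inv_mul_cancel₀ (ne_of_gt (by linarith))
  have hx : sk2.xs.v u b x = 1 / 2 + b * sk2.ws.v u b x := stK_x (by norm_num) (by linarith) (by linarith)
  have hX : crv PP 2 2 (1 + b) = sk2.xs.v u b x := sX2 u
  have K3 : (∀ G ∈ cx_Aphk2, 0 < G.v u b x) → (pcB 3).K.v (c1n (x + u) - sk2.xs.v u b x) (x + u + (1 + b)) x = ((c1n (x + u + b) - 1 / 2) * cG (x + u + b) + kcg.v (psn (x + u + b)) x) * -(1 - (x + u + b)) + sK_Aphk2.v (c1n (x + u) - sk2.xs.v u b x) (1 + (x + u + b)) x * (c1n (x + u) - sk2.xs.v u b x - (c1n (x + u + b) - 1 / 2)) := fun hc => by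
    rw [hY]
    exact zKAphk2 hF x0 x1 h1 h2 h3 hb q3 hc
  have L3 : (∀ G ∈ cx_Aphk2, 0 < G.v u b x) → (pcB 3).L.v (c1n (x + u) - sk2.xs.v u b x) (x + u + (1 + b)) x = cQ x (x + u + b) (kcg.v (psn (x + u + b)) x) + sX_Aphk2.v (c1n (x + u) - sk2.xs.v u b x) (1 + (x + u + b)) x * (c1n (x + u) - sk2.xs.v u b x - (c1n (x + u + b) - 1 / 2)) := fun hc => by
    rw [hY]
    exact zLAphk2 hF x0 x1 h1 h2 h3 hb q3 hc
  have C3 : (∀ G ∈ cx_Aphk2, 0 < G.v u b x) → (scP esg pd 3).v (c1n (x + u) - sk2.xs.v u b x) (x + u + (1 + b)) x = esn x * ((cP (x + u + b) - 1 / 2 * cD (x + u + b) - (cR (x + u + b) + 2 * c1n (x + u + b) - 1) * kcg.v (psn (x + u + b)) x) + ((T_Aphk2.a true).at_ u b x).it * sD_Aphk2.v (c1n (x + u) - sk2.xs.v u b x) (1 + (x + u + b)) x * (c1n (x + u) - sk2.xs.v u b x - (c1n (x + u + b) - 1 / 2))) := fun hc => by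
    rw [hY]
    show esg.v x * (pd 3).v (c1n (x + u) - sk2.xs.v u b x) (1 + (x + u + b)) x = _
    rw [esg_n, div_it (zDAphk2 hF hU x0 x1 h1 h2 h3 hb q3 hc) hit]
  exact bothAp (T := T_Aphk2) (sk := sk_Aphk2) (cx := cx_Aphk2) (sk2 := sk_Aphk2) (cx2 := cx_Aphk2) D hb hκ hd hit t1 t3 hx hX (dc x0 x1) (by linarith) (by linarith) (by norm_num [T_Aphk2]) (by norm_num [T_Aphk2]) K5 hs K7 hs K1 (sk2K u hb qs (by linarith)) K3 L1 (sk2L u hb qs (by linarith)) L3 C1 (sk2C u hb qs (by linarith)) C3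
theorem AE2_023 {x κ y y' : ℝ} (hF : SideOk PP tK tL pcB x) (hU : ThrOk PP tU pd x) (hκ : κ * h0 = ken x) (x0 : 1 / 2 ≤ x) (x1 : x ≤ 293668389 / 536870912)
    (F : FactsA PP 0 2 3 0 2 1 (-1) y y') (h1 : |y - x| < 5 / 256) (h2 : |y' - 1| < 1 / 32) (h3 : |y + y' - (1 + x)| < 5 / 256) :
    DirEA (3 / 10) κ PP tK tL tC pcB (scP esg pd) 0 2 3 0 2 1 (-1) x y y' := by
  obtain ⟨u, rfl⟩ : ∃ u, y = x + u := ⟨y - x, by ring⟩
  obtain ⟨b, rfl⟩ : ∃ b, y' = 1 + b := ⟨y' - 1, by ring⟩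
  rw [show x + u - x = u by ring] at h1
  rw [show 1 + b - 1 = b by ring] at h2
  rw [show x + u + (1 + b) - (1 + x) = u + b by ring] at h3
  obtain ⟨u1, u2⟩ := abs_lt.1 h1
  exact fE_Aphk2 hF hU hκ x0 x1 h1 h2 h3 F (t1_0 F.q1) (shK0 F.q1 (by linarith) (by linarith)) (shL0 F.q1 (by linarith) (by linarith)) (shC0 F.q1 (by linarith) (by linarith))
theorem molE_A_023_02_0 {κ x : ℝ} (hκ : κ * h0 = ken x) (hx : ((536870912 : ℕ) : ℝ) / S ≤ x) (hx' : x ≤ (((536870912 : ℕ) : ℝ) + (50465866 : ℕ)) / S) :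
    AltEA 3 κ (eng.v x) (3 / 40) (tnt (h0 * x) (3 / 10)) PP tK tL tC pcB (scP esg pd) [⟨0, 0, 1, 20971520⟩, ⟨1, 1, 0, 33554432⟩, ⟨2, 1, 1, 20971520⟩] 0 2 3 0 2 (sgb true) (sgb false) x := by
  obtain ⟨x0, x1⟩ := xr hx hx'
  exact altEA_s fun y y' F h1 h2 h3 => DirEA.st (eng_n x) (AE2_023 (sideB hx hx') (thrU hx hx') hκ x0 x1 F (h1.trans_eq (by norm_num)) (h2.trans_eq (by norm_num)) (h3.trans_eq (by norm_num)))
theorem AE2_123 {x κ y y' : ℝ} (hF : SideOk PP tK tL pcB x) (hU : ThrOk PP tU pd x) (hκ : κ * h0 = ken x) (x0 : 1 / 2 ≤ x) (x1 : x ≤ 293668389 / 536870912)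
    (F : FactsA PP 1 2 3 0 2 1 (-1) y y') (h1 : |y - x| < 5 / 256) (h2 : |y' - 1| < 1 / 32) (h3 : |y + y' - (1 + x)| < 5 / 256) :
    DirEA (3 / 10) κ PP tK tL tC pcB (scP esg pd) 1 2 3 0 2 1 (-1) x y y' := by
  obtain ⟨u, rfl⟩ : ∃ u, y = x + u := ⟨y - x, by ring⟩
  obtain ⟨b, rfl⟩ : ∃ b, y' = 1 + b := ⟨y' - 1, by ring⟩
  rw [show x + u - x = u by ring] at h1
  rw [show 1 + b - 1 = b by ring] at h2
  rw [show x + u + (1 + b) - (1 + x) = u + b by ring] at h3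
  obtain ⟨u1, u2⟩ := abs_lt.1 h1
  exact fE_Aphk2 hF hU hκ x0 x1 h1 h2 h3 F (t1_1 F.q1) (shK1 F.q1 (by linarith) (by linarith)) (shL1 F.q1 (by linarith) (by linarith)) (shC1 F.q1 (by linarith) (by linarith))
theorem molE_A_123_02_0 {κ x : ℝ} (hκ : κ * h0 = ken x) (hx : ((536870912 : ℕ) : ℝ) / S ≤ x) (hx' : x ≤ (((536870912 : ℕ) : ℝ) + (50465866 : ℕ)) / S) :
    AltEA 3 κ (eng.v x) (3 / 40) (tnt (h0 * x) (3 / 10)) PP tK tL tC pcB (scP esg pd) [⟨0, 0, 1, 20971520⟩, ⟨1, 1, 0, 33554432⟩, ⟨2, 1, 1, 20971520⟩] 1 2 3 0 2 (sgb true) (sgb false) x := by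
  obtain ⟨x0, x1⟩ := xr hx hx'
  exact altEA_s fun y y' F h1 h2 h3 => DirEA.st (eng_n x) (AE2_123 (sideB hx hx') (thrU hx hx') hκ x0 x1 F (h1.trans_eq (by norm_num)) (h2.trans_eq (by norm_num)) (h3.trans_eq (by norm_num)))
theorem w_Aplk3 {u b x : ℝ} (x0 : 1 / 2 ≤ x) (x1 : x ≤ 293668389 / 536870912) (h1 : |u| < 5 / 256) (h2 : |b| < 1 / 32) (h3 : |u + b| < 5 / 256) (hb : 0 ≤ b) : (w3W false).v (1 + (x + u + b)) ≤ c1n (x + u) - sk3.xs.v u b x := by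
  obtain ⟨u1, u2⟩ := abs_lt.1 h1
  obtain ⟨b1, b2⟩ := abs_lt.1 h2
  obtain ⟨v1, v2⟩ := abs_lt.1 h3
  have cm1 : (fXS 1 4 5).v u b x ≤ 1 / 2 := fXS_le (by norm_num) hb
  have cm2 : c1n (x + u) ≥ c1n (x + u + b) := c1n_le' (by linarith) (by linarith)
  rw [w3W_A]
  show c1n (x + u + b) - 1 / 2 ≤ c1n (x + u) - (fXS 1 4 5).v u b x
  linarith
theorem zKAplk3 {u b x : ℝ} (hF : SideOk PP tK tL pcB x) (x0 : 1 / 2 ≤ x) (x1 : x ≤ 293668389 / 536870912) (h1 : |u| < 5 / 256) (h2 : |b| < 1 / 32) (h3 : |u + b| < 5 / 256) (hb : 0 ≤ b) (q3 : InQ 2 (1 + (x + u + b)))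
    (hc : ∀ G ∈ cx_Aplk3, 0 < G.v u b x) : (pcB 2).K.v (c1n (x + u) - sk3.xs.v u b x) (1 + (x + u + b)) x =
    ((c1n (x + u + b) - 1 / 2) * cG (x + u + b) + kcg.v (psn (x + u + b)) x) * (x + u + b) + sK_Aplk3.v (c1n (x + u) - sk3.xs.v u b x) (1 + (x + u + b)) x * (c1n (x + u) - sk3.xs.v u b x - (c1n (x + u + b) - 1 / 2)) := by
  have hw := w_Aplk3 x0 x1 h1 h2 h3 hb
  obtain ⟨u1, u2⟩ := abs_lt.1 h1
  obtain ⟨b1, b2⟩ := abs_lt.1 h2
  obtain ⟨v1, v2⟩ := abs_lt.1 h3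
  have y1 := q3.1
  have y2 := q3.2
  have c0 : 0 < (tCC (w3W false) cv3p).v (c1n (x + u) - sk3.xs.v u b x) (1 + (x + u + b)) x := hc (f3A sk3.xs (tCC (w3W false) cv3p)) (by unfold cx_Aplk3; simp only [List.mem_cons, true_or, or_true])
  have c1 : 0 < (tCC cv4p (w3W false)).v (c1n (x + u) - sk3.xs.v u b x) (1 + (x + u + b)) x := hc (f3A sk3.xs (tCC cv4p (w3W false))) (by unfold cx_Aplk3; simp only [List.mem_cons, true_or, or_true])
  have c2 : 0 < (tCX cv4p).v (c1n (x + u) - sk3.xs.v u b x) (1 + (x + u + b)) x := hc (f3A sk3.xs (tCX cv4p)) (by unfold cx_Aplk3; simp only [List.mem_cons, true_or, or_true])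
  refine (sKAplk3 hF q3 (by linarith) (by linarith) c0 c1 c2 hw).trans ?_
  rw [w3K_A, w3W_A]
  push_cast
  ring
theorem zLAplk3 {u b x : ℝ} (hF : SideOk PP tK tL pcB x) (x0 : 1 / 2 ≤ x) (x1 : x ≤ 293668389 / 536870912) (h1 : |u| < 5 / 256) (h2 : |b| < 1 / 32) (h3 : |u + b| < 5 / 256) (hb : 0 ≤ b) (q3 : InQ 2 (1 + (x + u + b)))
    (hc : ∀ G ∈ cx_Aplk3, 0 < G.v u b x) : (pcB 2).L.v (c1n (x + u) - sk3.xs.v u b x) (1 + (x + u + b)) x =
    cQ x (x + u + b) (kcg.v (psn (x + u + b)) x) + sX_Aplk3.v (c1n (x + u) - sk3.xs.v u b x) (1 + (x + u + b)) x * (c1n (x + u) - sk3.xs.v u b x - (c1n (x + u + b) - 1 / 2)) := by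
  have hw := w_Aplk3 x0 x1 h1 h2 h3 hb
  obtain ⟨u1, u2⟩ := abs_lt.1 h1
  obtain ⟨b1, b2⟩ := abs_lt.1 h2
  obtain ⟨v1, v2⟩ := abs_lt.1 h3
  have y1 := q3.1
  have y2 := q3.2
  have c0 : 0 < (tCC (w3W false) cv3p).v (c1n (x + u) - sk3.xs.v u b x) (1 + (x + u + b)) x := hc (f3A sk3.xs (tCC (w3W false) cv3p)) (by unfold cx_Aplk3; simp only [List.mem_cons, true_or, or_true])
  have c1 : 0 < (tCC cv4p (w3W false)).v (c1n (x + u) - sk3.xs.v u b x) (1 + (x + u + b)) x := hc (f3A sk3.xs (tCC cv4p (w3W false))) (by unfold cx_Aplk3; simp only [List.mem_cons, true_or, or_true])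
  have c2 : 0 < (tCX cv4p).v (c1n (x + u) - sk3.xs.v u b x) (1 + (x + u + b)) x := hc (f3A sk3.xs (tCX cv4p)) (by unfold cx_Aplk3; simp only [List.mem_cons, true_or, or_true])
  refine (sLAplk3 hF q3 (by linarith) (by linarith) c0 c1 c2 hw).trans ?_
  rw [w3Q_A, w3W_A]
theorem zDAplk3 {u b x : ℝ} (hF : SideOk PP tK tL pcB x) (hU : ThrOk PP tU pd x) (x0 : 1 / 2 ≤ x) (x1 : x ≤ 293668389 / 536870912) (h1 : |u| < 5 / 256) (h2 : |b| < 1 / 32) (h3 : |u + b| < 5 / 256) (hb : 0 ≤ b) (q3 : InQ 2 (1 + (x + u + b)))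
    (hc : ∀ G ∈ cx_Aplk3, 0 < G.v u b x) : (pd 2).v (c1n (x + u) - sk3.xs.v u b x) (1 + (x + u + b)) x * (x + u + b) =
    (cP (x + u + b) - 1 / 2 * cD (x + u + b) - (cR (x + u + b) + 2 * c1n (x + u + b) - 1) * kcg.v (psn (x + u + b)) x) * (x + u + b) + sD_Aplk3.v (c1n (x + u) - sk3.xs.v u b x) (1 + (x + u + b)) x * (c1n (x + u) - sk3.xs.v u b x - (c1n (x + u + b) - 1 / 2)) := by
  have hw := w_Aplk3 x0 x1 h1 h2 h3 hb
  obtain ⟨u1, u2⟩ := abs_lt.1 h1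
  obtain ⟨b1, b2⟩ := abs_lt.1 h2
  obtain ⟨v1, v2⟩ := abs_lt.1 h3
  have y1 := q3.1
  have y2 := q3.2
  have c0 : 0 < (tCC (w3W false) cv3p).v (c1n (x + u) - sk3.xs.v u b x) (1 + (x + u + b)) x := hc (f3A sk3.xs (tCC (w3W false) cv3p)) (by unfold cx_Aplk3; simp only [List.mem_cons, true_or, or_true])
  have c1 : 0 < (tCC cv4p (w3W false)).v (c1n (x + u) - sk3.xs.v u b x) (1 + (x + u + b)) x := hc (f3A sk3.xs (tCC cv4p (w3W false))) (by unfold cx_Aplk3; simp only [List.mem_cons, true_or, or_true])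
  have c2 : 0 < (tCX cv4p).v (c1n (x + u) - sk3.xs.v u b x) (1 + (x + u + b)) x := hc (f3A sk3.xs (tCX cv4p)) (by unfold cx_Aplk3; simp only [List.mem_cons, true_or, or_true])
  have e := sDAplk3 hF hU q3 (by linarith) (by linarith) c0 c1 c2 hw
  rw [w3D_A, w3W_A] at e
  push_cast at e
  linear_combination e
theorem fE_Aplk3 {a : ℕ} {x u b κ τ : ℝ} (hF : SideOk PP tK tL pcB x) (hU : ThrOk PP tU pd x) (hκ : κ * h0 = ken x)
    (x0 : 1 / 2 ≤ x) (x1 : x ≤ 293668389 / 536870912) (h1 : |u| < 5 / 256) (h2 : |b| < 1 / 32) (h3 : |u + b| < 5 / 256) (F : FactsA PP a 2 2 0 3 1 (-1) (x + u) (1 + b))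
    (t1 : tau (h0 * (x + u)) = h0 * τ) (K1 : tK 0 a (x + u) x = (c1n (x + u) * cG (x + u) + kcg.v (psn (x + u)) x) * τ) (L1 : tL 0 a (x + u) x = cQ x (x + u) (kcg.v (psn (x + u)) x)) (C1 : tC 0 a (x + u) x = esn x * (cP (x + u) - (cR (x + u) + 2 * c1n (x + u)) * kcg.v (psn (x + u)) x)) :
    DirEA (3 / 10) κ PP tK tL tC pcB (scP esg pd) a 2 2 0 3 1 (-1) x (x + u) (1 + b) := by
  obtain ⟨u1, u2⟩ := abs_lt.1 h1
  obtain ⟨b1, b2⟩ := abs_lt.1 h2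
  obtain ⟨v1, v2⟩ := abs_lt.1 h3
  have qs := F.q2
  have hb : 0 ≤ b := by linarith [qs.1]
  have D : DomA u b x := ⟨by linarith, by linarith, by linarith, by linarith, by linarith, by linarith, by linarith, by linarith⟩
  have hY : x + u + (1 + b) = 1 + (x + u + b) := by ring
  have q3 : InQ 2 (1 + (x + u + b)) := hY ▸ F.q3
  obtain ⟨p1, p2⟩ := psr (y := x + u) (by linarith) (by linarith)
  obtain ⟨p3, p4⟩ := psr (y := x + u + b) (by linarith) (by linarith)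
  have hd := dqAp (dq_t x) hb (by linarith) (by linarith) (by linarith) (by linarith) p1 p2 p3 p4
  have hs : ∀ G ∈ sk_Aplk3, G.v u b x ≤ 0 := skPMA (v := 20971520) (hi := false) (abs_le.2 ⟨by unfold S; norm_num; linarith, by unfold S; norm_num; linarith⟩) (by simp only [cond_true, cond_false]; linarith [q3.2])
  obtain ⟨r1, r2⟩ := rX x0 x1
  have K5 := Cht.cert (ng := false) (r := 20971520) ct_0Aplk3 (u := u) (b := b) (x := x) (by unfold S; norm_num; linarith) (by unfold S; norm_num; linarith) (by simp only [cond_true, cond_false]; linarith) (by simp only [cond_true, cond_false]; unfold S; norm_num; linarith) r1 r2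
  have K7 := Cht.cert (ng := false) (r := 20971520) ct_2Aplk3 (u := u) (b := b) (x := x) (by unfold S; norm_num; linarith) (by unfold S; norm_num; linarith) (by simp only [cond_true, cond_false]; linarith) (by simp only [cond_true, cond_false]; unfold S; norm_num; linarith) r1 r2
  have t3 := t3A2 F.q3
  have hit : ((T_Aplk3.a true).at_ u b x).it * (x + u + b) = 1 := by
    show (x + u + b)⁻¹ * _ = _
    exact inv_mul_cancel₀ (ne_of_gt (by linarith))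
  have hx : sk3.xs.v u b x = 1 / 2 + b * sk3.ws.v u b x := stK_x (by norm_num) (by linarith) (by linarith)
  have hX : crv PP 3 2 (1 + b) = sk3.xs.v u b x := sX3 u
  have K3 : (∀ G ∈ cx_Aplk3, 0 < G.v u b x) → (pcB 2).K.v (c1n (x + u) - sk3.xs.v u b x) (x + u + (1 + b)) x = ((c1n (x + u + b) - 1 / 2) * cG (x + u + b) + kcg.v (psn (x + u + b)) x) * (x + u + b) + sK_Aplk3.v (c1n (x + u) - sk3.xs.v u b x) (1 + (x + u + b)) x * (c1n (x + u) - sk3.xs.v u b x - (c1n (x + u + b) - 1 / 2)) := fun hc => by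
    rw [hY]
    exact zKAplk3 hF x0 x1 h1 h2 h3 hb q3 hc
  have L3 : (∀ G ∈ cx_Aplk3, 0 < G.v u b x) → (pcB 2).L.v (c1n (x + u) - sk3.xs.v u b x) (x + u + (1 + b)) x = cQ x (x + u + b) (kcg.v (psn (x + u + b)) x) + sX_Aplk3.v (c1n (x + u) - sk3.xs.v u b x) (1 + (x + u + b)) x * (c1n (x + u) - sk3.xs.v u b x - (c1n (x + u + b) - 1 / 2)) := fun hc => by
    rw [hY]
    exact zLAplk3 hF x0 x1 h1 h2 h3 hb q3 hc
  have C3 : (∀ G ∈ cx_Aplk3, 0 < G.v u b x) → (scP esg pd 2).v (c1n (x + u) - sk3.xs.v u b x) (x + u + (1 + b)) x = esn x * ((cP (x + u + b) - 1 / 2 * cD (x + u + b) - (cR (x + u + b) + 2 * c1n (x + u + b) - 1) * kcg.v (psn (x + u + b)) x) + ((T_Aplk3.a true).at_ u b x).it * sD_Aplk3.v (c1n (x + u) - sk3.xs.v u b x) (1 + (x + u + b)) x * (c1n (x + u) - sk3.xs.v u b x - (c1n (x + u + b) - 1 / 2))) := fun hc => by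
    rw [hY]
    show esg.v x * (pd 2).v (c1n (x + u) - sk3.xs.v u b x) (1 + (x + u + b)) x = _
    rw [esg_n, div_it (zDAplk3 hF hU x0 x1 h1 h2 h3 hb q3 hc) hit]
  exact bothAp (T := T_Aplk3) (sk := sk_Aplk3) (cx := cx_Aplk3) (sk2 := sk_Aplk3) (cx2 := cx_Aplk3) D hb hκ hd hit t1 t3 hx hX (dc x0 x1) (by linarith) (by linarith) (by norm_num [T_Aplk3]) (by norm_num [T_Aplk3]) K5 hs K7 hs K1 (sk3K u hb qs (by linarith)) K3 L1 (sk3L u hb qs (by linarith)) L3 C1 (sk3C u hb qs (by linarith)) C3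
theorem AE3_022 {x κ y y' : ℝ} (hF : SideOk PP tK tL pcB x) (hU : ThrOk PP tU pd x) (hκ : κ * h0 = ken x) (x0 : 1 / 2 ≤ x) (x1 : x ≤ 293668389 / 536870912)
    (F : FactsA PP 0 2 2 0 3 1 (-1) y y') (h1 : |y - x| < 5 / 256) (h2 : |y' - 1| < 1 / 32) (h3 : |y + y' - (1 + x)| < 5 / 256) :
    DirEA (3 / 10) κ PP tK tL tC pcB (scP esg pd) 0 2 2 0 3 1 (-1) x y y' := by
  obtain ⟨u, rfl⟩ : ∃ u, y = x + u := ⟨y - x, by ring⟩
  obtain ⟨b, rfl⟩ : ∃ b, y' = 1 + b := ⟨y' - 1, by ring⟩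
  rw [show x + u - x = u by ring] at h1
  rw [show 1 + b - 1 = b by ring] at h2
  rw [show x + u + (1 + b) - (1 + x) = u + b by ring] at h3
  obtain ⟨u1, u2⟩ := abs_lt.1 h1
  exact fE_Aplk3 hF hU hκ x0 x1 h1 h2 h3 F (t1_0 F.q1) (shK0 F.q1 (by linarith) (by linarith)) (shL0 F.q1 (by linarith) (by linarith)) (shC0 F.q1 (by linarith) (by linarith))
theorem molE_A_022_03_0 {κ x : ℝ} (hκ : κ * h0 = ken x) (hx : ((536870912 : ℕ) : ℝ) / S ≤ x) (hx' : x ≤ (((536870912 : ℕ) : ℝ) + (50465866 : ℕ)) / S) :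
    AltEA 3 κ (eng.v x) (3 / 40) (tnt (h0 * x) (3 / 10)) PP tK tL tC pcB (scP esg pd) [⟨0, 0, 1, 20971520⟩, ⟨1, 1, 0, 33554432⟩, ⟨2, 1, 1, 20971520⟩] 0 2 2 0 3 (sgb true) (sgb false) x := by
  obtain ⟨x0, x1⟩ := xr hx hx'
  exact altEA_s fun y y' F h1 h2 h3 => DirEA.st (eng_n x) (AE3_022 (sideB hx hx') (thrU hx hx') hκ x0 x1 F (h1.trans_eq (by norm_num)) (h2.trans_eq (by norm_num)) (h3.trans_eq (by norm_num)))
theorem AE3_122 {x κ y y' : ℝ} (hF : SideOk PP tK tL pcB x) (hU : ThrOk PP tU pd x) (hκ : κ * h0 = ken x) (x0 : 1 / 2 ≤ x) (x1 : x ≤ 293668389 / 536870912)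
    (F : FactsA PP 1 2 2 0 3 1 (-1) y y') (h1 : |y - x| < 5 / 256) (h2 : |y' - 1| < 1 / 32) (h3 : |y + y' - (1 + x)| < 5 / 256) :
    DirEA (3 / 10) κ PP tK tL tC pcB (scP esg pd) 1 2 2 0 3 1 (-1) x y y' := by
  obtain ⟨u, rfl⟩ : ∃ u, y = x + u := ⟨y - x, by ring⟩
  obtain ⟨b, rfl⟩ : ∃ b, y' = 1 + b := ⟨y' - 1, by ring⟩
  rw [show x + u - x = u by ring] at h1
  rw [show 1 + b - 1 = b by ring] at h2
  rw [show x + u + (1 + b) - (1 + x) = u + b by ring] at h3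
  obtain ⟨u1, u2⟩ := abs_lt.1 h1
  exact fE_Aplk3 hF hU hκ x0 x1 h1 h2 h3 F (t1_1 F.q1) (shK1 F.q1 (by linarith) (by linarith)) (shL1 F.q1 (by linarith) (by linarith)) (shC1 F.q1 (by linarith) (by linarith))
theorem molE_A_122_03_0 {κ x : ℝ} (hκ : κ * h0 = ken x) (hx : ((536870912 : ℕ) : ℝ) / S ≤ x) (hx' : x ≤ (((536870912 : ℕ) : ℝ) + (50465866 : ℕ)) / S) :
    AltEA 3 κ (eng.v x) (3 / 40) (tnt (h0 * x) (3 / 10)) PP tK tL tC pcB (scP esg pd) [⟨0, 0, 1, 20971520⟩, ⟨1, 1, 0, 33554432⟩, ⟨2, 1, 1, 20971520⟩] 1 2 2 0 3 (sgb true) (sgb false) x := by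
  obtain ⟨x0, x1⟩ := xr hx hx'
  exact altEA_s fun y y' F h1 h2 h3 => DirEA.st (eng_n x) (AE3_122 (sideB hx hx') (thrU hx hx') hκ x0 x1 F (h1.trans_eq (by norm_num)) (h2.trans_eq (by norm_num)) (h3.trans_eq (by norm_num)))
theorem w_Aphk3 {u b x : ℝ} (x0 : 1 / 2 ≤ x) (x1 : x ≤ 293668389 / 536870912) (h1 : |u| < 5 / 256) (h2 : |b| < 1 / 32) (h3 : |u + b| < 5 / 256) (hb : 0 ≤ b) : (w3W false).v (1 + (x + u + b)) ≤ c1n (x + u) - sk3.xs.v u b x := by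
  obtain ⟨u1, u2⟩ := abs_lt.1 h1
  obtain ⟨b1, b2⟩ := abs_lt.1 h2
  obtain ⟨v1, v2⟩ := abs_lt.1 h3
  have cm1 : (fXS 1 4 5).v u b x ≤ 1 / 2 := fXS_le (by norm_num) hb
  have cm2 : c1n (x + u) ≥ c1n (x + u + b) := c1n_le' (by linarith) (by linarith)
  rw [w3W_A]
  show c1n (x + u + b) - 1 / 2 ≤ c1n (x + u) - (fXS 1 4 5).v u b x
  linarith
theorem zKAphk3 {u b x : ℝ} (hF : SideOk PP tK tL pcB x) (x0 : 1 / 2 ≤ x) (x1 : x ≤ 293668389 / 536870912) (h1 : |u| < 5 / 256) (h2 : |b| < 1 / 32) (h3 : |u + b| < 5 / 256) (hb : 0 ≤ b) (q3 : InQ 3 (1 + (x + u + b)))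
    (hc : ∀ G ∈ cx_Aphk3, 0 < G.v u b x) : (pcB 3).K.v (c1n (x + u) - sk3.xs.v u b x) (1 + (x + u + b)) x =
    ((c1n (x + u + b) - 1 / 2) * cG (x + u + b) + kcg.v (psn (x + u + b)) x) * -(1 - (x + u + b)) + sK_Aphk3.v (c1n (x + u) - sk3.xs.v u b x) (1 + (x + u + b)) x * (c1n (x + u) - sk3.xs.v u b x - (c1n (x + u + b) - 1 / 2)) := by
  have hw := w_Aphk3 x0 x1 h1 h2 h3 hb
  obtain ⟨u1, u2⟩ := abs_lt.1 h1
  obtain ⟨b1, b2⟩ := abs_lt.1 h2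
  obtain ⟨v1, v2⟩ := abs_lt.1 h3
  have y1 := q3.1
  have y2 := q3.2
  have c0 : 0 < (tCC (w3W false) cv3r).v (c1n (x + u) - sk3.xs.v u b x) (1 + (x + u + b)) x := hc (f3A sk3.xs (tCC (w3W false) cv3r)) (by unfold cx_Aphk3; simp only [List.mem_cons, true_or, or_true])
  have c1 : 0 < (tCC cv4r (w3W false)).v (c1n (x + u) - sk3.xs.v u b x) (1 + (x + u + b)) x := hc (f3A sk3.xs (tCC cv4r (w3W false))) (by unfold cx_Aphk3; simp only [List.mem_cons, true_or, or_true])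
  have c2 : 0 < (tCX cv4r).v (c1n (x + u) - sk3.xs.v u b x) (1 + (x + u + b)) x := hc (f3A sk3.xs (tCX cv4r)) (by unfold cx_Aphk3; simp only [List.mem_cons, true_or, or_true])
  refine (sKAphk3 hF q3 (by linarith) (by linarith) c0 c1 c2 hw).trans ?_
  rw [w3K_A, w3W_A]
  push_cast
  ring
theorem zLAphk3 {u b x : ℝ} (hF : SideOk PP tK tL pcB x) (x0 : 1 / 2 ≤ x) (x1 : x ≤ 293668389 / 536870912) (h1 : |u| < 5 / 256) (h2 : |b| < 1 / 32) (h3 : |u + b| < 5 / 256) (hb : 0 ≤ b) (q3 : InQ 3 (1 + (x + u + b)))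
    (hc : ∀ G ∈ cx_Aphk3, 0 < G.v u b x) : (pcB 3).L.v (c1n (x + u) - sk3.xs.v u b x) (1 + (x + u + b)) x =
    cQ x (x + u + b) (kcg.v (psn (x + u + b)) x) + sX_Aphk3.v (c1n (x + u) - sk3.xs.v u b x) (1 + (x + u + b)) x * (c1n (x + u) - sk3.xs.v u b x - (c1n (x + u + b) - 1 / 2)) := by
  have hw := w_Aphk3 x0 x1 h1 h2 h3 hb
  obtain ⟨u1, u2⟩ := abs_lt.1 h1
  obtain ⟨b1, b2⟩ := abs_lt.1 h2
  obtain ⟨v1, v2⟩ := abs_lt.1 h3
  have y1 := q3.1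
  have y2 := q3.2
  have c0 : 0 < (tCC (w3W false) cv3r).v (c1n (x + u) - sk3.xs.v u b x) (1 + (x + u + b)) x := hc (f3A sk3.xs (tCC (w3W false) cv3r)) (by unfold cx_Aphk3; simp only [List.mem_cons, true_or, or_true])
  have c1 : 0 < (tCC cv4r (w3W false)).v (c1n (x + u) - sk3.xs.v u b x) (1 + (x + u + b)) x := hc (f3A sk3.xs (tCC cv4r (w3W false))) (by unfold cx_Aphk3; simp only [List.mem_cons, true_or, or_true])
  have c2 : 0 < (tCX cv4r).v (c1n (x + u) - sk3.xs.v u b x) (1 + (x + u + b)) x := hc (f3A sk3.xs (tCX cv4r)) (by unfold cx_Aphk3; simp only [List.mem_cons, true_or, or_true])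
  refine (sLAphk3 hF q3 (by linarith) (by linarith) c0 c1 c2 hw).trans ?_
  rw [w3Q_A, w3W_A]
theorem zDAphk3 {u b x : ℝ} (hF : SideOk PP tK tL pcB x) (hU : ThrOk PP tU pd x) (x0 : 1 / 2 ≤ x) (x1 : x ≤ 293668389 / 536870912) (h1 : |u| < 5 / 256) (h2 : |b| < 1 / 32) (h3 : |u + b| < 5 / 256) (hb : 0 ≤ b) (q3 : InQ 3 (1 + (x + u + b)))
    (hc : ∀ G ∈ cx_Aphk3, 0 < G.v u b x) : (pd 3).v (c1n (x + u) - sk3.xs.v u b x) (1 + (x + u + b)) x * -(1 - (x + u + b)) =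
    (cP (x + u + b) - 1 / 2 * cD (x + u + b) - (cR (x + u + b) + 2 * c1n (x + u + b) - 1) * kcg.v (psn (x + u + b)) x) * -(1 - (x + u + b)) + sD_Aphk3.v (c1n (x + u) - sk3.xs.v u b x) (1 + (x + u + b)) x * (c1n (x + u) - sk3.xs.v u b x - (c1n (x + u + b) - 1 / 2)) := by
  have hw := w_Aphk3 x0 x1 h1 h2 h3 hb
  obtain ⟨u1, u2⟩ := abs_lt.1 h1
  obtain ⟨b1, b2⟩ := abs_lt.1 h2
  obtain ⟨v1, v2⟩ := abs_lt.1 h3
  have y1 := q3.1
  have y2 := q3.2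
  have c0 : 0 < (tCC (w3W false) cv3r).v (c1n (x + u) - sk3.xs.v u b x) (1 + (x + u + b)) x := hc (f3A sk3.xs (tCC (w3W false) cv3r)) (by unfold cx_Aphk3; simp only [List.mem_cons, true_or, or_true])
  have c1 : 0 < (tCC cv4r (w3W false)).v (c1n (x + u) - sk3.xs.v u b x) (1 + (x + u + b)) x := hc (f3A sk3.xs (tCC cv4r (w3W false))) (by unfold cx_Aphk3; simp only [List.mem_cons, true_or, or_true])
  have c2 : 0 < (tCX cv4r).v (c1n (x + u) - sk3.xs.v u b x) (1 + (x + u + b)) x := hc (f3A sk3.xs (tCX cv4r)) (by unfold cx_Aphk3; simp only [List.mem_cons, true_or, or_true])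
  have e := sDAphk3 hF hU q3 (by linarith) (by linarith) c0 c1 c2 hw
  rw [w3D_A, w3W_A] at e
  push_cast at e
  linear_combination e
theorem fE_Aphk3 {a : ℕ} {x u b κ τ : ℝ} (hF : SideOk PP tK tL pcB x) (hU : ThrOk PP tU pd x) (hκ : κ * h0 = ken x)
    (x0 : 1 / 2 ≤ x) (x1 : x ≤ 293668389 / 536870912) (h1 : |u| < 5 / 256) (h2 : |b| < 1 / 32) (h3 : |u + b| < 5 / 256) (F : FactsA PP a 2 3 0 3 1 (-1) (x + u) (1 + b))
    (t1 : tau (h0 * (x + u)) = h0 * τ) (K1 : tK 0 a (x + u) x = (c1n (x + u) * cG (x + u) + kcg.v (psn (x + u)) x) * τ) (L1 : tL 0 a (x + u) x = cQ x (x + u) (kcg.v (psn (x + u)) x)) (C1 : tC 0 a (x + u) x = esn x * (cP (x + u) - (cR (x + u) + 2 * c1n (x + u)) * kcg.v (psn (x + u)) x)) :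
    DirEA (3 / 10) κ PP tK tL tC pcB (scP esg pd) a 2 3 0 3 1 (-1) x (x + u) (1 + b) := by
  obtain ⟨u1, u2⟩ := abs_lt.1 h1
  obtain ⟨b1, b2⟩ := abs_lt.1 h2
  obtain ⟨v1, v2⟩ := abs_lt.1 h3
  have qs := F.q2
  have hb : 0 ≤ b := by linarith [qs.1]
  have D : DomA u b x := ⟨by linarith, by linarith, by linarith, by linarith, by linarith, by linarith, by linarith, by linarith⟩
  have hY : x + u + (1 + b) = 1 + (x + u + b) := by ring
  have q3 : InQ 3 (1 + (x + u + b)) := hY ▸ F.q3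
  obtain ⟨p1, p2⟩ := psr (y := x + u) (by linarith) (by linarith)
  obtain ⟨p3, p4⟩ := psr (y := x + u + b) (by linarith) (by linarith)
  have hd := dqAp (dq_t x) hb (by linarith) (by linarith) (by linarith) (by linarith) p1 p2 p3 p4
  have hs : ∀ G ∈ sk_Aphk3, G.v u b x ≤ 0 := skPMA (v := 20971520) (hi := true) (abs_le.2 ⟨by unfold S; norm_num; linarith, by unfold S; norm_num; linarith⟩) (by simp only [cond_true, cond_false]; linarith [q3.1])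
  obtain ⟨r1, r2⟩ := rX x0 x1
  have K5 := Cht.cert (ng := false) (r := 20971520) ct_0Aphk3 (u := u) (b := b) (x := x) (by unfold S; norm_num; linarith) (by unfold S; norm_num; linarith) (by simp only [cond_true, cond_false]; linarith) (by simp only [cond_true, cond_false]; unfold S; norm_num; linarith) r1 r2
  have K7 := Cht.cert (ng := false) (r := 20971520) ct_2Aphk3 (u := u) (b := b) (x := x) (by unfold S; norm_num; linarith) (by unfold S; norm_num; linarith) (by simp only [cond_true, cond_false]; linarith) (by simp only [cond_true, cond_false]; unfold S; norm_num; linarith) r1 r2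
  have t3 := t3A3 F.q3
  have hit : ((T_Aphk3.a true).at_ u b x).it * -(1 - (x + u + b)) = 1 := by
    show -(1 - (x + u + b))⁻¹ * _ = _
    rw [neg_mul_neg]
    exact inv_mul_cancel₀ (ne_of_gt (by linarith))
  have hx : sk3.xs.v u b x = 1 / 2 + b * sk3.ws.v u b x := stK_x (by norm_num) (by linarith) (by linarith)
  have hX : crv PP 3 2 (1 + b) = sk3.xs.v u b x := sX3 u
  have K3 : (∀ G ∈ cx_Aphk3, 0 < G.v u b x) → (pcB 3).K.v (c1n (x + u) - sk3.xs.v u b x) (x + u + (1 + b)) x = ((c1n (x + u + b) - 1 / 2) * cG (x + u + b) + kcg.v (psn (x + u + b)) x) * -(1 - (x + u + b)) + sK_Aphk3.v (c1n (x + u) - sk3.xs.v u b x) (1 + (x + u + b)) x * (c1n (x + u) - sk3.xs.v u b x - (c1n (x + u + b) - 1 / 2)) := fun hc => by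
    rw [hY]
    exact zKAphk3 hF x0 x1 h1 h2 h3 hb q3 hc
  have L3 : (∀ G ∈ cx_Aphk3, 0 < G.v u b x) → (pcB 3).L.v (c1n (x + u) - sk3.xs.v u b x) (x + u + (1 + b)) x = cQ x (x + u + b) (kcg.v (psn (x + u + b)) x) + sX_Aphk3.v (c1n (x + u) - sk3.xs.v u b x) (1 + (x + u + b)) x * (c1n (x + u) - sk3.xs.v u b x - (c1n (x + u + b) - 1 / 2)) := fun hc => by
    rw [hY]
    exact zLAphk3 hF x0 x1 h1 h2 h3 hb q3 hc
  have C3 : (∀ G ∈ cx_Aphk3, 0 < G.v u b x) → (scP esg pd 3).v (c1n (x + u) - sk3.xs.v u b x) (x + u + (1 + b)) x = esn x * ((cP (x + u + b) - 1 / 2 * cD (x + u + b) - (cR (x + u + b) + 2 * c1n (x + u + b) - 1) * kcg.v (psn (x + u + b)) x) + ((T_Aphk3.a true).at_ u b x).it * sD_Aphk3.v (c1n (x + u) - sk3.xs.v u b x) (1 + (x + u + b)) x * (c1n (x + u) - sk3.xs.v u b x - (c1n (x + u + b) - 1 / 2))) := fun hc => by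
    rw [hY]
    show esg.v x * (pd 3).v (c1n (x + u) - sk3.xs.v u b x) (1 + (x + u + b)) x = _
    rw [esg_n, div_it (zDAphk3 hF hU x0 x1 h1 h2 h3 hb q3 hc) hit]
  exact bothAp (T := T_Aphk3) (sk := sk_Aphk3) (cx := cx_Aphk3) (sk2 := sk_Aphk3) (cx2 := cx_Aphk3) D hb hκ hd hit t1 t3 hx hX (dc x0 x1) (by linarith) (by linarith) (by norm_num [T_Aphk3]) (by norm_num [T_Aphk3]) K5 hs K7 hs K1 (sk3K u hb qs (by linarith)) K3 L1 (sk3L u hb qs (by linarith)) L3 C1 (sk3C u hb qs (by linarith)) C3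
theorem AE3_023 {x κ y y' : ℝ} (hF : SideOk PP tK tL pcB x) (hU : ThrOk PP tU pd x) (hκ : κ * h0 = ken x) (x0 : 1 / 2 ≤ x) (x1 : x ≤ 293668389 / 536870912)
    (F : FactsA PP 0 2 3 0 3 1 (-1) y y') (h1 : |y - x| < 5 / 256) (h2 : |y' - 1| < 1 / 32) (h3 : |y + y' - (1 + x)| < 5 / 256) :
    DirEA (3 / 10) κ PP tK tL tC pcB (scP esg pd) 0 2 3 0 3 1 (-1) x y y' := by
  obtain ⟨u, rfl⟩ : ∃ u, y = x + u := ⟨y - x, by ring⟩
  obtain ⟨b, rfl⟩ : ∃ b, y' = 1 + b := ⟨y' - 1, by ring⟩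
  rw [show x + u - x = u by ring] at h1
  rw [show 1 + b - 1 = b by ring] at h2
  rw [show x + u + (1 + b) - (1 + x) = u + b by ring] at h3
  obtain ⟨u1, u2⟩ := abs_lt.1 h1
  exact fE_Aphk3 hF hU hκ x0 x1 h1 h2 h3 F (t1_0 F.q1) (shK0 F.q1 (by linarith) (by linarith)) (shL0 F.q1 (by linarith) (by linarith)) (shC0 F.q1 (by linarith) (by linarith))
theorem molE_A_023_03_0 {κ x : ℝ} (hκ : κ * h0 = ken x) (hx : ((536870912 : ℕ) : ℝ) / S ≤ x) (hx' : x ≤ (((536870912 : ℕ) : ℝ) + (50465866 : ℕ)) / S) :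
    AltEA 3 κ (eng.v x) (3 / 40) (tnt (h0 * x) (3 / 10)) PP tK tL tC pcB (scP esg pd) [⟨0, 0, 1, 20971520⟩, ⟨1, 1, 0, 33554432⟩, ⟨2, 1, 1, 20971520⟩] 0 2 3 0 3 (sgb true) (sgb false) x := by
  obtain ⟨x0, x1⟩ := xr hx hx'
  exact altEA_s fun y y' F h1 h2 h3 => DirEA.st (eng_n x) (AE3_023 (sideB hx hx') (thrU hx hx') hκ x0 x1 F (h1.trans_eq (by norm_num)) (h2.trans_eq (by norm_num)) (h3.trans_eq (by norm_num)))
theorem AE3_123 {x κ y y' : ℝ} (hF : SideOk PP tK tL pcB x) (hU : ThrOk PP tU pd x) (hκ : κ * h0 = ken x) (x0 : 1 / 2 ≤ x) (x1 : x ≤ 293668389 / 536870912)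
    (F : FactsA PP 1 2 3 0 3 1 (-1) y y') (h1 : |y - x| < 5 / 256) (h2 : |y' - 1| < 1 / 32) (h3 : |y + y' - (1 + x)| < 5 / 256) :
    DirEA (3 / 10) κ PP tK tL tC pcB (scP esg pd) 1 2 3 0 3 1 (-1) x y y' := by
  obtain ⟨u, rfl⟩ : ∃ u, y = x + u := ⟨y - x, by ring⟩
  obtain ⟨b, rfl⟩ : ∃ b, y' = 1 + b := ⟨y' - 1, by ring⟩
  rw [show x + u - x = u by ring] at h1
  rw [show 1 + b - 1 = b by ring] at h2
  rw [show x + u + (1 + b) - (1 + x) = u + b by ring] at h3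
  obtain ⟨u1, u2⟩ := abs_lt.1 h1
  exact fE_Aphk3 hF hU hκ x0 x1 h1 h2 h3 F (t1_1 F.q1) (shK1 F.q1 (by linarith) (by linarith)) (shL1 F.q1 (by linarith) (by linarith)) (shC1 F.q1 (by linarith) (by linarith))
theorem molE_A_123_03_0 {κ x : ℝ} (hκ : κ * h0 = ken x) (hx : ((536870912 : ℕ) : ℝ) / S ≤ x) (hx' : x ≤ (((536870912 : ℕ) : ℝ) + (50465866 : ℕ)) / S) :
    AltEA 3 κ (eng.v x) (3 / 40) (tnt (h0 * x) (3 / 10)) PP tK tL tC pcB (scP esg pd) [⟨0, 0, 1, 20971520⟩, ⟨1, 1, 0, 33554432⟩, ⟨2, 1, 1, 20971520⟩] 1 2 3 0 3 (sgb true) (sgb false) x := by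
  obtain ⟨x0, x1⟩ := xr hx hx'
  exact altEA_s fun y y' F h1 h2 h3 => DirEA.st (eng_n x) (AE3_123 (sideB hx hx') (thrU hx hx') hκ x0 x1 F (h1.trans_eq (by norm_num)) (h2.trans_eq (by norm_num)) (h3.trans_eq (by norm_num)))
theorem w_Aml {u b x : ℝ} (x0 : 1 / 2 ≤ x) (x1 : x ≤ 293668389 / 536870912) (h1 : |u| < 5 / 256) (h2 : |b| < 1 / 32) (h3 : |u + b| < 5 / 256) (hb : b < 0) : c1n (x + u) - sm.xs.v u b x ≤ (w3W false).v (1 + (x + u + b)) := by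
  obtain ⟨u1, u2⟩ := abs_lt.1 h1
  obtain ⟨b1, b2⟩ := abs_lt.1 h2
  obtain ⟨v1, v2⟩ := abs_lt.1 h3
  have cm1 : c1n (1 + b) ≥ 1 / 2 := c1n_half' hb.le (by linarith)
  have cm2 : c1n (x + u) ≤ c1n (x + u + b) := c1n_le' (by linarith) (by linarith)
  rw [w3W_A]
  show c1n (x + u) - c1n (1 + b) ≤ c1n (x + u + b) - 1 / 2
  linarith
theorem zKAml {u b x : ℝ} (hF : SideOk PP tK tL pcB x) (x0 : 1 / 2 ≤ x) (x1 : x ≤ 293668389 / 536870912) (h1 : |u| < 5 / 256) (h2 : |b| < 1 / 32) (h3 : |u + b| < 5 / 256) (hb : b < 0) (q3 : InQ 2 (1 + (x + u + b)))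
    (hc : ∀ G ∈ cx_Aml, 0 < G.v u b x) : (pcB 2).K.v (c1n (x + u) - sm.xs.v u b x) (1 + (x + u + b)) x =
    ((c1n (x + u + b) - 1 / 2) * cG (x + u + b) + kcg.v (psn (x + u + b)) x) * (x + u + b) + sK_Aml.v (c1n (x + u) - sm.xs.v u b x) (1 + (x + u + b)) x * (c1n (x + u) - sm.xs.v u b x - (c1n (x + u + b) - 1 / 2)) := by
  have hw := w_Aml x0 x1 h1 h2 h3 hb
  obtain ⟨u1, u2⟩ := abs_lt.1 h1
  obtain ⟨b1, b2⟩ := abs_lt.1 h2
  obtain ⟨v1, v2⟩ := abs_lt.1 h3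
  have y1 := q3.1
  have y2 := q3.2
  have c0 : 0 < (tCC (w3W false) cv3p).v (c1n (x + u) - sm.xs.v u b x) (1 + (x + u + b)) x := hc (f3A sm.xs (tCC (w3W false) cv3p)) (by unfold cx_Aml; simp only [List.mem_cons, true_or, or_true])
  have c1 : 0 < (tCC cv4p (w3W false)).v (c1n (x + u) - sm.xs.v u b x) (1 + (x + u + b)) x := hc (f3A sm.xs (tCC cv4p (w3W false))) (by unfold cx_Aml; simp only [List.mem_cons, true_or, or_true])
  have c2 : 0 < (tXC cv3p).v (c1n (x + u) - sm.xs.v u b x) (1 + (x + u + b)) x := hc (f3A sm.xs (tXC cv3p)) (by unfold cx_Aml; simp only [List.mem_cons, true_or, or_true])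
  refine (sKAml hF q3 (by linarith) (by linarith) c0 c1 c2 hw).trans ?_
  rw [w3K_A, w3W_A]
  push_cast
  ring
theorem zLAml {u b x : ℝ} (hF : SideOk PP tK tL pcB x) (x0 : 1 / 2 ≤ x) (x1 : x ≤ 293668389 / 536870912) (h1 : |u| < 5 / 256) (h2 : |b| < 1 / 32) (h3 : |u + b| < 5 / 256) (hb : b < 0) (q3 : InQ 2 (1 + (x + u + b)))
    (hc : ∀ G ∈ cx_Aml, 0 < G.v u b x) : (pcB 2).L.v (c1n (x + u) - sm.xs.v u b x) (1 + (x + u + b)) x =
    cQ x (x + u + b) (kcg.v (psn (x + u + b)) x) + sX_Aml.v (c1n (x + u) - sm.xs.v u b x) (1 + (x + u + b)) x * (c1n (x + u) - sm.xs.v u b x - (c1n (x + u + b) - 1 / 2)) := by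
  have hw := w_Aml x0 x1 h1 h2 h3 hb
  obtain ⟨u1, u2⟩ := abs_lt.1 h1
  obtain ⟨b1, b2⟩ := abs_lt.1 h2
  obtain ⟨v1, v2⟩ := abs_lt.1 h3
  have y1 := q3.1
  have y2 := q3.2
  have c0 : 0 < (tCC (w3W false) cv3p).v (c1n (x + u) - sm.xs.v u b x) (1 + (x + u + b)) x := hc (f3A sm.xs (tCC (w3W false) cv3p)) (by unfold cx_Aml; simp only [List.mem_cons, true_or, or_true])
  have c1 : 0 < (tCC cv4p (w3W false)).v (c1n (x + u) - sm.xs.v u b x) (1 + (x + u + b)) x := hc (f3A sm.xs (tCC cv4p (w3W false))) (by unfold cx_Aml; simp only [List.mem_cons, true_or, or_true])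
  have c2 : 0 < (tXC cv3p).v (c1n (x + u) - sm.xs.v u b x) (1 + (x + u + b)) x := hc (f3A sm.xs (tXC cv3p)) (by unfold cx_Aml; simp only [List.mem_cons, true_or, or_true])
  refine (sLAml hF q3 (by linarith) (by linarith) c0 c1 c2 hw).trans ?_
  rw [w3Q_A, w3W_A]
theorem zDAml {u b x : ℝ} (hF : SideOk PP tK tL pcB x) (hU : ThrOk PP tU pd x) (x0 : 1 / 2 ≤ x) (x1 : x ≤ 293668389 / 536870912) (h1 : |u| < 5 / 256) (h2 : |b| < 1 / 32) (h3 : |u + b| < 5 / 256) (hb : b < 0) (q3 : InQ 2 (1 + (x + u + b)))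
    (hc : ∀ G ∈ cx_Aml, 0 < G.v u b x) : (pd 2).v (c1n (x + u) - sm.xs.v u b x) (1 + (x + u + b)) x * (x + u + b) =
    (cP (x + u + b) - 1 / 2 * cD (x + u + b) - (cR (x + u + b) + 2 * c1n (x + u + b) - 1) * kcg.v (psn (x + u + b)) x) * (x + u + b) + sD_Aml.v (c1n (x + u) - sm.xs.v u b x) (1 + (x + u + b)) x * (c1n (x + u) - sm.xs.v u b x - (c1n (x + u + b) - 1 / 2)) := by
  have hw := w_Aml x0 x1 h1 h2 h3 hb
  obtain ⟨u1, u2⟩ := abs_lt.1 h1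
  obtain ⟨b1, b2⟩ := abs_lt.1 h2
  obtain ⟨v1, v2⟩ := abs_lt.1 h3
  have y1 := q3.1
  have y2 := q3.2
  have c0 : 0 < (tCC (w3W false) cv3p).v (c1n (x + u) - sm.xs.v u b x) (1 + (x + u + b)) x := hc (f3A sm.xs (tCC (w3W false) cv3p)) (by unfold cx_Aml; simp only [List.mem_cons, true_or, or_true])
  have c1 : 0 < (tCC cv4p (w3W false)).v (c1n (x + u) - sm.xs.v u b x) (1 + (x + u + b)) x := hc (f3A sm.xs (tCC cv4p (w3W false))) (by unfold cx_Aml; simp only [List.mem_cons, true_or, or_true])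
  have c2 : 0 < (tXC cv3p).v (c1n (x + u) - sm.xs.v u b x) (1 + (x + u + b)) x := hc (f3A sm.xs (tXC cv3p)) (by unfold cx_Aml; simp only [List.mem_cons, true_or, or_true])
  have e := sDAml hF hU q3 (by linarith) (by linarith) c0 c1 c2 hw
  rw [w3D_A, w3W_A] at e
  push_cast at e
  linear_combination e
theorem fE_Aml {a : ℕ} {x u b κ τ : ℝ} (hF : SideOk PP tK tL pcB x) (hU : ThrOk PP tU pd x) (hκ : κ * h0 = ken x)
    (x0 : 1 / 2 ≤ x) (x1 : x ≤ 293668389 / 536870912) (h1 : |u| < 5 / 256) (h2 : |b| < 1 / 32) (h3 : |u + b| < 5 / 256) (F : FactsA PP a 1 2 0 0 1 (-1) (x + u) (1 + b))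
    (t1 : tau (h0 * (x + u)) = h0 * τ) (K1 : tK 0 a (x + u) x = (c1n (x + u) * cG (x + u) + kcg.v (psn (x + u)) x) * τ) (L1 : tL 0 a (x + u) x = cQ x (x + u) (kcg.v (psn (x + u)) x)) (C1 : tC 0 a (x + u) x = esn x * (cP (x + u) - (cR (x + u) + 2 * c1n (x + u)) * kcg.v (psn (x + u)) x)) :
    DirEA (3 / 10) κ PP tK tL tC pcB (scP esg pd) a 1 2 0 0 1 (-1) x (x + u) (1 + b) := by
  obtain ⟨u1, u2⟩ := abs_lt.1 h1
  obtain ⟨b1, b2⟩ := abs_lt.1 h2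
  obtain ⟨v1, v2⟩ := abs_lt.1 h3
  have qs := F.q2
  have hs1 := F.k0 rfl
  have hb : b < 0 := by linarith [qs.2]
  have D : DomA u b x := ⟨by linarith, by linarith, by linarith, by linarith, by linarith, by linarith, by linarith, by linarith⟩
  have hY : x + u + (1 + b) = 1 + (x + u + b) := by ring
  have q3 : InQ 2 (1 + (x + u + b)) := hY ▸ F.q3
  obtain ⟨p1, p2⟩ := psr (y := x + u) (by linarith) (by linarith)
  obtain ⟨p3, p4⟩ := psr (y := x + u + b) (by linarith) (by linarith)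
  have hd := dqAm (dq_t x) hb (by linarith) (by linarith) (by linarith) (by linarith) p1 p2 p3 p4
  have hs : ∀ G ∈ sk_Aml, G.v u b x ≤ 0 := skPMA (v := 20971520) (hi := false) (abs_le.2 ⟨by unfold S; norm_num; linarith, by unfold S; norm_num; linarith⟩) (by simp only [cond_true, cond_false]; linarith [q3.2])
  obtain ⟨r1, r2⟩ := rX x0 x1
  have K5 := Cht.cert (ng := true) (r := 20971520) ct_0Aml (u := u) (b := b) (x := x) (by unfold S; norm_num; linarith) (by unfold S; norm_num; linarith) (by simp only [cond_true, cond_false]; linarith) (by simp only [cond_true, cond_false]; unfold S; norm_num; linarith) r1 r2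
  have K7 := Cht.cert (ng := true) (r := 20971520) ct_2Aml (u := u) (b := b) (x := x) (by unfold S; norm_num; linarith) (by unfold S; norm_num; linarith) (by simp only [cond_true, cond_false]; linarith) (by simp only [cond_true, cond_false]; unfold S; norm_num; linarith) r1 r2
  have t3 := t3A2 F.q3
  have hit : ((T_Aml.a false).at_ u b x).it * (x + u + b) = 1 := by
    show (x + u + b)⁻¹ * _ = _
    exact inv_mul_cancel₀ (ne_of_gt (by linarith))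
  have hx : sm.xs.v u b x = 1 / 2 + b * sm.ws.v u b x := stM_x (by linarith) (by linarith)
  have hX : crv PP 0 1 (1 + b) = sm.xs.v u b x := crv0 1 (1 + b)
  have K3 : (∀ G ∈ cx_Aml, 0 < G.v u b x) → (pcB 2).K.v (c1n (x + u) - sm.xs.v u b x) (x + u + (1 + b)) x = ((c1n (x + u + b) - 1 / 2) * cG (x + u + b) + kcg.v (psn (x + u + b)) x) * (x + u + b) + sK_Aml.v (c1n (x + u) - sm.xs.v u b x) (1 + (x + u + b)) x * (c1n (x + u) - sm.xs.v u b x - (c1n (x + u + b) - 1 / 2)) := fun hc => by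
    rw [hY]
    exact zKAml hF x0 x1 h1 h2 h3 hb q3 hc
  have L3 : (∀ G ∈ cx_Aml, 0 < G.v u b x) → (pcB 2).L.v (c1n (x + u) - sm.xs.v u b x) (x + u + (1 + b)) x = cQ x (x + u + b) (kcg.v (psn (x + u + b)) x) + sX_Aml.v (c1n (x + u) - sm.xs.v u b x) (1 + (x + u + b)) x * (c1n (x + u) - sm.xs.v u b x - (c1n (x + u + b) - 1 / 2)) := fun hc => by
    rw [hY]
    exact zLAml hF x0 x1 h1 h2 h3 hb q3 hc
  have C3 : (∀ G ∈ cx_Aml, 0 < G.v u b x) → (scP esg pd 2).v (c1n (x + u) - sm.xs.v u b x) (x + u + (1 + b)) x = esn x * ((cP (x + u + b) - 1 / 2 * cD (x + u + b) - (cR (x + u + b) + 2 * c1n (x + u + b) - 1) * kcg.v (psn (x + u + b)) x) + ((T_Aml.a false).at_ u b x).it * sD_Aml.v (c1n (x + u) - sm.xs.v u b x) (1 + (x + u + b)) x * (c1n (x + u) - sm.xs.v u b x - (c1n (x + u + b) - 1 / 2))) := fun hc => by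
    rw [hY]
    show esg.v x * (pd 2).v (c1n (x + u) - sm.xs.v u b x) (1 + (x + u + b)) x = _
    rw [esg_n, div_it (zDAml hF hU x0 x1 h1 h2 h3 hb q3 hc) hit]
  exact bothAm (T := T_Aml) (sk := sk_Aml) (cx := cx_Aml) (sk2 := sk_Aml) (cx2 := cx_Aml) D hb hκ hd hit t1 t3 hx hX (dc x0 x1) (by linarith) (by linarith) (by norm_num [T_Aml]) (by norm_num [T_Aml]) K5 hs K7 hs K1 (smK u hb qs (by linarith)) K3 L1 (smL u hb qs (by linarith)) L3 C1 (smC u hb qs (by linarith)) C3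
theorem AE_012 {x κ y y' : ℝ} (hF : SideOk PP tK tL pcB x) (hU : ThrOk PP tU pd x) (hκ : κ * h0 = ken x) (x0 : 1 / 2 ≤ x) (x1 : x ≤ 293668389 / 536870912)
    (F : FactsA PP 0 1 2 0 0 1 (-1) y y') (h1 : |y - x| < 5 / 256) (h2 : |y' - 1| < 1 / 32) (h3 : |y + y' - (1 + x)| < 5 / 256) :
    DirEA (3 / 10) κ PP tK tL tC pcB (scP esg pd) 0 1 2 0 0 1 (-1) x y y' := by
  obtain ⟨u, rfl⟩ : ∃ u, y = x + u := ⟨y - x, by ring⟩
  obtain ⟨b, rfl⟩ : ∃ b, y' = 1 + b := ⟨y' - 1, by ring⟩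
  rw [show x + u - x = u by ring] at h1
  rw [show 1 + b - 1 = b by ring] at h2
  rw [show x + u + (1 + b) - (1 + x) = u + b by ring] at h3
  obtain ⟨u1, u2⟩ := abs_lt.1 h1
  exact fE_Aml hF hU hκ x0 x1 h1 h2 h3 F (t1_0 F.q1) (shK0 F.q1 (by linarith) (by linarith)) (shL0 F.q1 (by linarith) (by linarith)) (shC0 F.q1 (by linarith) (by linarith))
theorem molE_A_012_00_0 {κ x : ℝ} (hκ : κ * h0 = ken x) (hx : ((536870912 : ℕ) : ℝ) / S ≤ x) (hx' : x ≤ (((536870912 : ℕ) : ℝ) + (50465866 : ℕ)) / S) :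
    AltEA 3 κ (eng.v x) (3 / 40) (tnt (h0 * x) (3 / 10)) PP tK tL tC pcB (scP esg pd) [⟨0, 0, 1, 20971520⟩, ⟨1, 1, 0, 33554432⟩, ⟨2, 1, 1, 20971520⟩] 0 1 2 0 0 (sgb true) (sgb false) x := by
  obtain ⟨x0, x1⟩ := xr hx hx'
  exact altEA_s fun y y' F h1 h2 h3 => DirEA.st (eng_n x) (AE_012 (sideB hx hx') (thrU hx hx') hκ x0 x1 F (h1.trans_eq (by norm_num)) (h2.trans_eq (by norm_num)) (h3.trans_eq (by norm_num)))
theorem ME_102 {x κ y y' : ℝ} (hF : SideOk PP tK tL pcB x) (hU : ThrOk PP tU pd x) (hκ : κ * h0 = ken x) (x0 : 1 / 2 ≤ x) (x1 : x ≤ 293668389 / 536870912)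
    (F : FactsA PP 1 0 2 0 0 1 (-1) y y') (h2 : |y - 1| < 1 / 32) (h1 : |y' - x| < 5 / 256) (h3 : |y + y' - (1 + x)| < 5 / 256) :
    StEA 3 κ (eng.v x) (3 / 40) (tnt (h0 * x) (3 / 10)) PP tK tL tC pcB (scP esg pd) 1 0 2 0 0 1 (-1) x y y' := by
  have F2 := factsA_mirror F
  rw [neg_neg] at F2
  have h3' : |y' + y - (1 + x)| < 5 / 256 := by rwa [add_comm y' y]
  obtain ⟨u1, u2⟩ := abs_lt.1 h1
  obtain ⟨b1, b2⟩ := abs_lt.1 h2
  have hX : (1 : ℝ) * crv PP 0 1 y + -1 * crv PP 0 0 y' ≠ 0 := by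
    rw [crv0, crv0]
    have := c1n_lt (y := y') (z := y) (by linarith) (by linarith) (by nlinarith)
    intro h
    linarith
  refine DirEA.mir (eng_n x) hF hU.sc F hX (by linarith) (by linarith) (by norm_num) (by norm_num) ?_
  rw [neg_neg]
  exact AE_012 hF hU hκ x0 x1 F2 h1 h2 h3'
theorem molE_A_102_00_1 {κ x : ℝ} (hκ : κ * h0 = ken x) (hx : ((536870912 : ℕ) : ℝ) / S ≤ x) (hx' : x ≤ (((536870912 : ℕ) : ℝ) + (50465866 : ℕ)) / S) :
    AltEA 3 κ (eng.v x) (3 / 40) (tnt (h0 * x) (3 / 10)) PP tK tL tC pcB (scP esg pd) [⟨0, 1, 0, 33554432⟩, ⟨1, 0, 1, 20971520⟩, ⟨2, 1, 1, 20971520⟩] 1 0 2 0 0 (sgb true) (sgb false) x := by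
  obtain ⟨x0, x1⟩ := xr hx hx'
  exact altEA_m fun y y' F h2 h1 h3 => ME_102 (sideB hx hx') (thrU hx hx') hκ x0 x1 F (h2.trans_eq (by norm_num)) (h1.trans_eq (by norm_num)) (h3.trans_eq (by norm_num))
theorem AE_112 {x κ y y' : ℝ} (hF : SideOk PP tK tL pcB x) (hU : ThrOk PP tU pd x) (hκ : κ * h0 = ken x) (x0 : 1 / 2 ≤ x) (x1 : x ≤ 293668389 / 536870912)
    (F : FactsA PP 1 1 2 0 0 1 (-1) y y') (h1 : |y - x| < 5 / 256) (h2 : |y' - 1| < 1 / 32) (h3 : |y + y' - (1 + x)| < 5 / 256) :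
    DirEA (3 / 10) κ PP tK tL tC pcB (scP esg pd) 1 1 2 0 0 1 (-1) x y y' := by
  obtain ⟨u, rfl⟩ : ∃ u, y = x + u := ⟨y - x, by ring⟩
  obtain ⟨b, rfl⟩ : ∃ b, y' = 1 + b := ⟨y' - 1, by ring⟩
  rw [show x + u - x = u by ring] at h1
  rw [show 1 + b - 1 = b by ring] at h2
  rw [show x + u + (1 + b) - (1 + x) = u + b by ring] at h3
  obtain ⟨u1, u2⟩ := abs_lt.1 h1
  exact fE_Aml hF hU hκ x0 x1 h1 h2 h3 F (t1_1 F.q1) (shK1 F.q1 (by linarith) (by linarith)) (shL1 F.q1 (by linarith) (by linarith)) (shC1 F.q1 (by linarith) (by linarith))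
theorem molE_A_112_00_0 {κ x : ℝ} (hκ : κ * h0 = ken x) (hx : ((536870912 : ℕ) : ℝ) / S ≤ x) (hx' : x ≤ (((536870912 : ℕ) : ℝ) + (50465866 : ℕ)) / S) :
    AltEA 3 κ (eng.v x) (3 / 40) (tnt (h0 * x) (3 / 10)) PP tK tL tC pcB (scP esg pd) [⟨0, 0, 1, 20971520⟩, ⟨1, 1, 0, 33554432⟩, ⟨2, 1, 1, 20971520⟩] 1 1 2 0 0 (sgb true) (sgb false) x := by
  obtain ⟨x0, x1⟩ := xr hx hx'
  exact altEA_s fun y y' F h1 h2 h3 => DirEA.st (eng_n x) (AE_112 (sideB hx hx') (thrU hx hx') hκ x0 x1 F (h1.trans_eq (by norm_num)) (h2.trans_eq (by norm_num)) (h3.trans_eq (by norm_num)))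
theorem ME_112 {x κ y y' : ℝ} (hF : SideOk PP tK tL pcB x) (hU : ThrOk PP tU pd x) (hκ : κ * h0 = ken x) (x0 : 1 / 2 ≤ x) (x1 : x ≤ 293668389 / 536870912)
    (F : FactsA PP 1 1 2 0 0 1 (-1) y y') (h2 : |y - 1| < 1 / 32) (h1 : |y' - x| < 5 / 256) (h3 : |y + y' - (1 + x)| < 5 / 256) :
    StEA 3 κ (eng.v x) (3 / 40) (tnt (h0 * x) (3 / 10)) PP tK tL tC pcB (scP esg pd) 1 1 2 0 0 1 (-1) x y y' := by
  have F2 := factsA_mirror F
  rw [neg_neg] at F2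
  have h3' : |y' + y - (1 + x)| < 5 / 256 := by rwa [add_comm y' y]
  obtain ⟨u1, u2⟩ := abs_lt.1 h1
  obtain ⟨b1, b2⟩ := abs_lt.1 h2
  have hX : (1 : ℝ) * crv PP 0 1 y + -1 * crv PP 0 1 y' ≠ 0 := by
    rw [crv0, crv0]
    have := c1n_lt (y := y') (z := y) (by linarith) (by linarith) (by nlinarith)
    intro h
    linarith
  refine DirEA.mir (eng_n x) hF hU.sc F hX (by linarith) (by linarith) (by norm_num) (by norm_num) ?_
  rw [neg_neg]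
  exact AE_112 hF hU hκ x0 x1 F2 h1 h2 h3'
theorem molE_A_112_00_1 {κ x : ℝ} (hκ : κ * h0 = ken x) (hx : ((536870912 : ℕ) : ℝ) / S ≤ x) (hx' : x ≤ (((536870912 : ℕ) : ℝ) + (50465866 : ℕ)) / S) :
    AltEA 3 κ (eng.v x) (3 / 40) (tnt (h0 * x) (3 / 10)) PP tK tL tC pcB (scP esg pd) [⟨0, 1, 0, 33554432⟩, ⟨1, 0, 1, 20971520⟩, ⟨2, 1, 1, 20971520⟩] 1 1 2 0 0 (sgb true) (sgb false) x := by
  obtain ⟨x0, x1⟩ := xr hx hx'
  exact altEA_m fun y y' F h2 h1 h3 => ME_112 (sideB hx hx') (thrU hx hx') hκ x0 x1 F (h2.trans_eq (by norm_num)) (h1.trans_eq (by norm_num)) (h3.trans_eq (by norm_num))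
theorem w_Amh {u b x : ℝ} (x0 : 1 / 2 ≤ x) (x1 : x ≤ 293668389 / 536870912) (h1 : |u| < 5 / 256) (h2 : |b| < 1 / 32) (h3 : |u + b| < 5 / 256) (hb : b < 0) : c1n (x + u) - sm.xs.v u b x ≤ (w3W false).v (1 + (x + u + b)) := by
  obtain ⟨u1, u2⟩ := abs_lt.1 h1
  obtain ⟨b1, b2⟩ := abs_lt.1 h2
  obtain ⟨v1, v2⟩ := abs_lt.1 h3
  have cm1 : c1n (1 + b) ≥ 1 / 2 := c1n_half' hb.le (by linarith)
  have cm2 : c1n (x + u) ≤ c1n (x + u + b) := c1n_le' (by linarith) (by linarith)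
  rw [w3W_A]
  show c1n (x + u) - c1n (1 + b) ≤ c1n (x + u + b) - 1 / 2
  linarith
theorem zKAmh {u b x : ℝ} (hF : SideOk PP tK tL pcB x) (x0 : 1 / 2 ≤ x) (x1 : x ≤ 293668389 / 536870912) (h1 : |u| < 5 / 256) (h2 : |b| < 1 / 32) (h3 : |u + b| < 5 / 256) (hb : b < 0) (q3 : InQ 3 (1 + (x + u + b)))
    (hc : ∀ G ∈ cx_Amh, 0 < G.v u b x) : (pcB 3).K.v (c1n (x + u) - sm.xs.v u b x) (1 + (x + u + b)) x =
    ((c1n (x + u + b) - 1 / 2) * cG (x + u + b) + kcg.v (psn (x + u + b)) x) * -(1 - (x + u + b)) + sK_Amh.v (c1n (x + u) - sm.xs.v u b x) (1 + (x + u + b)) x * (c1n (x + u) - sm.xs.v u b x - (c1n (x + u + b) - 1 / 2)) := by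
  have hw := w_Amh x0 x1 h1 h2 h3 hb
  obtain ⟨u1, u2⟩ := abs_lt.1 h1
  obtain ⟨b1, b2⟩ := abs_lt.1 h2
  obtain ⟨v1, v2⟩ := abs_lt.1 h3
  have y1 := q3.1
  have y2 := q3.2
  have c0 : 0 < (tCC (w3W false) cv3r).v (c1n (x + u) - sm.xs.v u b x) (1 + (x + u + b)) x := hc (f3A sm.xs (tCC (w3W false) cv3r)) (by unfold cx_Amh; simp only [List.mem_cons, true_or, or_true])
  have c1 : 0 < (tCC cv4r (w3W false)).v (c1n (x + u) - sm.xs.v u b x) (1 + (x + u + b)) x := hc (f3A sm.xs (tCC cv4r (w3W false))) (by unfold cx_Amh; simp only [List.mem_cons, true_or, or_true])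
  have c2 : 0 < (tXC cv3r).v (c1n (x + u) - sm.xs.v u b x) (1 + (x + u + b)) x := hc (f3A sm.xs (tXC cv3r)) (by unfold cx_Amh; simp only [List.mem_cons, true_or, or_true])
  refine (sKAmh hF q3 (by linarith) (by linarith) c0 c1 c2 hw).trans ?_
  rw [w3K_A, w3W_A]
  push_cast
  ring
theorem zLAmh {u b x : ℝ} (hF : SideOk PP tK tL pcB x) (x0 : 1 / 2 ≤ x) (x1 : x ≤ 293668389 / 536870912) (h1 : |u| < 5 / 256) (h2 : |b| < 1 / 32) (h3 : |u + b| < 5 / 256) (hb : b < 0) (q3 : InQ 3 (1 + (x + u + b)))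
    (hc : ∀ G ∈ cx_Amh, 0 < G.v u b x) : (pcB 3).L.v (c1n (x + u) - sm.xs.v u b x) (1 + (x + u + b)) x =
    cQ x (x + u + b) (kcg.v (psn (x + u + b)) x) + sX_Amh.v (c1n (x + u) - sm.xs.v u b x) (1 + (x + u + b)) x * (c1n (x + u) - sm.xs.v u b x - (c1n (x + u + b) - 1 / 2)) := by
  have hw := w_Amh x0 x1 h1 h2 h3 hb
  obtain ⟨u1, u2⟩ := abs_lt.1 h1
  obtain ⟨b1, b2⟩ := abs_lt.1 h2
  obtain ⟨v1, v2⟩ := abs_lt.1 h3
  have y1 := q3.1
  have y2 := q3.2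
  have c0 : 0 < (tCC (w3W false) cv3r).v (c1n (x + u) - sm.xs.v u b x) (1 + (x + u + b)) x := hc (f3A sm.xs (tCC (w3W false) cv3r)) (by unfold cx_Amh; simp only [List.mem_cons, true_or, or_true])
  have c1 : 0 < (tCC cv4r (w3W false)).v (c1n (x + u) - sm.xs.v u b x) (1 + (x + u + b)) x := hc (f3A sm.xs (tCC cv4r (w3W false))) (by unfold cx_Amh; simp only [List.mem_cons, true_or, or_true])
  have c2 : 0 < (tXC cv3r).v (c1n (x + u) - sm.xs.v u b x) (1 + (x + u + b)) x := hc (f3A sm.xs (tXC cv3r)) (by unfold cx_Amh; simp only [List.mem_cons, true_or, or_true])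
  refine (sLAmh hF q3 (by linarith) (by linarith) c0 c1 c2 hw).trans ?_
  rw [w3Q_A, w3W_A]
theorem zDAmh {u b x : ℝ} (hF : SideOk PP tK tL pcB x) (hU : ThrOk PP tU pd x) (x0 : 1 / 2 ≤ x) (x1 : x ≤ 293668389 / 536870912) (h1 : |u| < 5 / 256) (h2 : |b| < 1 / 32) (h3 : |u + b| < 5 / 256) (hb : b < 0) (q3 : InQ 3 (1 + (x + u + b)))
    (hc : ∀ G ∈ cx_Amh, 0 < G.v u b x) : (pd 3).v (c1n (x + u) - sm.xs.v u b x) (1 + (x + u + b)) x * -(1 - (x + u + b)) =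
    (cP (x + u + b) - 1 / 2 * cD (x + u + b) - (cR (x + u + b) + 2 * c1n (x + u + b) - 1) * kcg.v (psn (x + u + b)) x) * -(1 - (x + u + b)) + sD_Amh.v (c1n (x + u) - sm.xs.v u b x) (1 + (x + u + b)) x * (c1n (x + u) - sm.xs.v u b x - (c1n (x + u + b) - 1 / 2)) := by
  have hw := w_Amh x0 x1 h1 h2 h3 hb
  obtain ⟨u1, u2⟩ := abs_lt.1 h1
  obtain ⟨b1, b2⟩ := abs_lt.1 h2
  obtain ⟨v1, v2⟩ := abs_lt.1 h3
  have y1 := q3.1
  have y2 := q3.2
  have c0 : 0 < (tCC (w3W false) cv3r).v (c1n (x + u) - sm.xs.v u b x) (1 + (x + u + b)) x := hc (f3A sm.xs (tCC (w3W false) cv3r)) (by unfold cx_Amh; simp only [List.mem_cons, true_or, or_true])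
  have c1 : 0 < (tCC cv4r (w3W false)).v (c1n (x + u) - sm.xs.v u b x) (1 + (x + u + b)) x := hc (f3A sm.xs (tCC cv4r (w3W false))) (by unfold cx_Amh; simp only [List.mem_cons, true_or, or_true])
  have c2 : 0 < (tXC cv3r).v (c1n (x + u) - sm.xs.v u b x) (1 + (x + u + b)) x := hc (f3A sm.xs (tXC cv3r)) (by unfold cx_Amh; simp only [List.mem_cons, true_or, or_true])
  have e := sDAmh hF hU q3 (by linarith) (by linarith) c0 c1 c2 hw
  rw [w3D_A, w3W_A] at e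
  push_cast at e
  linear_combination e
theorem fE_Amh {a : ℕ} {x u b κ τ : ℝ} (hF : SideOk PP tK tL pcB x) (hU : ThrOk PP tU pd x) (hκ : κ * h0 = ken x)
    (x0 : 1 / 2 ≤ x) (x1 : x ≤ 293668389 / 536870912) (h1 : |u| < 5 / 256) (h2 : |b| < 1 / 32) (h3 : |u + b| < 5 / 256) (F : FactsA PP a 1 3 0 0 1 (-1) (x + u) (1 + b))
    (t1 : tau (h0 * (x + u)) = h0 * τ) (K1 : tK 0 a (x + u) x = (c1n (x + u) * cG (x + u) + kcg.v (psn (x + u)) x) * τ) (L1 : tL 0 a (x + u) x = cQ x (x + u) (kcg.v (psn (x + u)) x)) (C1 : tC 0 a (x + u) x = esn x * (cP (x + u) - (cR (x + u) + 2 * c1n (x + u)) * kcg.v (psn (x + u)) x)) :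
    DirEA (3 / 10) κ PP tK tL tC pcB (scP esg pd) a 1 3 0 0 1 (-1) x (x + u) (1 + b) := by
  obtain ⟨u1, u2⟩ := abs_lt.1 h1
  obtain ⟨b1, b2⟩ := abs_lt.1 h2
  obtain ⟨v1, v2⟩ := abs_lt.1 h3
  have qs := F.q2
  have hs1 := F.k0 rfl
  have hb : b < 0 := by linarith [qs.2]
  have D : DomA u b x := ⟨by linarith, by linarith, by linarith, by linarith, by linarith, by linarith, by linarith, by linarith⟩
  have hY : x + u + (1 + b) = 1 + (x + u + b) := by ring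
  have q3 : InQ 3 (1 + (x + u + b)) := hY ▸ F.q3
  obtain ⟨p1, p2⟩ := psr (y := x + u) (by linarith) (by linarith)
  obtain ⟨p3, p4⟩ := psr (y := x + u + b) (by linarith) (by linarith)
  have hd := dqAm (dq_t x) hb (by linarith) (by linarith) (by linarith) (by linarith) p1 p2 p3 p4
  have hs : ∀ G ∈ sk_Amh, G.v u b x ≤ 0 := skPMA (v := 20971520) (hi := true) (abs_le.2 ⟨by unfold S; norm_num; linarith, by unfold S; norm_num; linarith⟩) (by simp only [cond_true, cond_false]; linarith [q3.1])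
  obtain ⟨r1, r2⟩ := rX x0 x1
  have K5 := Cht.cert (ng := true) (r := 20971520) ct_0Amh (u := u) (b := b) (x := x) (by unfold S; norm_num; linarith) (by unfold S; norm_num; linarith) (by simp only [cond_true, cond_false]; linarith) (by simp only [cond_true, cond_false]; unfold S; norm_num; linarith) r1 r2
  have K7 := Cht.cert (ng := true) (r := 20971520) ct_2Amh (u := u) (b := b) (x := x) (by unfold S; norm_num; linarith) (by unfold S; norm_num; linarith) (by simp only [cond_true, cond_false]; linarith) (by simp only [cond_true, cond_false]; unfold S; norm_num; linarith) r1 r2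
  have t3 := t3A3 F.q3
  have hit : ((T_Amh.a false).at_ u b x).it * -(1 - (x + u + b)) = 1 := by
    show -(1 - (x + u + b))⁻¹ * _ = _
    rw [neg_mul_neg]
    exact inv_mul_cancel₀ (ne_of_gt (by linarith))
  have hx : sm.xs.v u b x = 1 / 2 + b * sm.ws.v u b x := stM_x (by linarith) (by linarith)
  have hX : crv PP 0 1 (1 + b) = sm.xs.v u b x := crv0 1 (1 + b)
  have K3 : (∀ G ∈ cx_Amh, 0 < G.v u b x) → (pcB 3).K.v (c1n (x + u) - sm.xs.v u b x) (x + u + (1 + b)) x = ((c1n (x + u + b) - 1 / 2) * cG (x + u + b) + kcg.v (psn (x + u + b)) x) * -(1 - (x + u + b)) + sK_Amh.v (c1n (x + u) - sm.xs.v u b x) (1 + (x + u + b)) x * (c1n (x + u) - sm.xs.v u b x - (c1n (x + u + b) - 1 / 2)) := fun hc => by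
    rw [hY]
    exact zKAmh hF x0 x1 h1 h2 h3 hb q3 hc
  have L3 : (∀ G ∈ cx_Amh, 0 < G.v u b x) → (pcB 3).L.v (c1n (x + u) - sm.xs.v u b x) (x + u + (1 + b)) x = cQ x (x + u + b) (kcg.v (psn (x + u + b)) x) + sX_Amh.v (c1n (x + u) - sm.xs.v u b x) (1 + (x + u + b)) x * (c1n (x + u) - sm.xs.v u b x - (c1n (x + u + b) - 1 / 2)) := fun hc => by
    rw [hY]
    exact zLAmh hF x0 x1 h1 h2 h3 hb q3 hc
  have C3 : (∀ G ∈ cx_Amh, 0 < G.v u b x) → (scP esg pd 3).v (c1n (x + u) - sm.xs.v u b x) (x + u + (1 + b)) x = esn x * ((cP (x + u + b) - 1 / 2 * cD (x + u + b) - (cR (x + u + b) + 2 * c1n (x + u + b) - 1) * kcg.v (psn (x + u + b)) x) + ((T_Amh.a false).at_ u b x).it * sD_Amh.v (c1n (x + u) - sm.xs.v u b x) (1 + (x + u + b)) x * (c1n (x + u) - sm.xs.v u b x - (c1n (x + u + b) - 1 / 2))) := fun hc => by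
    rw [hY]
    show esg.v x * (pd 3).v (c1n (x + u) - sm.xs.v u b x) (1 + (x + u + b)) x = _
    rw [esg_n, div_it (zDAmh hF hU x0 x1 h1 h2 h3 hb q3 hc) hit]
  exact bothAm (T := T_Amh) (sk := sk_Amh) (cx := cx_Amh) (sk2 := sk_Amh) (cx2 := cx_Amh) D hb hκ hd hit t1 t3 hx hX (dc x0 x1) (by linarith) (by linarith) (by norm_num [T_Amh]) (by norm_num [T_Amh]) K5 hs K7 hs K1 (smK u hb qs (by linarith)) K3 L1 (smL u hb qs (by linarith)) L3 C1 (smC u hb qs (by linarith)) C3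
theorem AE_013 {x κ y y' : ℝ} (hF : SideOk PP tK tL pcB x) (hU : ThrOk PP tU pd x) (hκ : κ * h0 = ken x) (x0 : 1 / 2 ≤ x) (x1 : x ≤ 293668389 / 536870912)
    (F : FactsA PP 0 1 3 0 0 1 (-1) y y') (h1 : |y - x| < 5 / 256) (h2 : |y' - 1| < 1 / 32) (h3 : |y + y' - (1 + x)| < 5 / 256) :
    DirEA (3 / 10) κ PP tK tL tC pcB (scP esg pd) 0 1 3 0 0 1 (-1) x y y' := by
  obtain ⟨u, rfl⟩ : ∃ u, y = x + u := ⟨y - x, by ring⟩
  obtain ⟨b, rfl⟩ : ∃ b, y' = 1 + b := ⟨y' - 1, by ring⟩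
  rw [show x + u - x = u by ring] at h1
  rw [show 1 + b - 1 = b by ring] at h2
  rw [show x + u + (1 + b) - (1 + x) = u + b by ring] at h3
  obtain ⟨u1, u2⟩ := abs_lt.1 h1
  exact fE_Amh hF hU hκ x0 x1 h1 h2 h3 F (t1_0 F.q1) (shK0 F.q1 (by linarith) (by linarith)) (shL0 F.q1 (by linarith) (by linarith)) (shC0 F.q1 (by linarith) (by linarith))
theorem molE_A_013_00_0 {κ x : ℝ} (hκ : κ * h0 = ken x) (hx : ((536870912 : ℕ) : ℝ) / S ≤ x) (hx' : x ≤ (((536870912 : ℕ) : ℝ) + (50465866 : ℕ)) / S) :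
    AltEA 3 κ (eng.v x) (3 / 40) (tnt (h0 * x) (3 / 10)) PP tK tL tC pcB (scP esg pd) [⟨0, 0, 1, 20971520⟩, ⟨1, 1, 0, 33554432⟩, ⟨2, 1, 1, 20971520⟩] 0 1 3 0 0 (sgb true) (sgb false) x := by
  obtain ⟨x0, x1⟩ := xr hx hx'
  exact altEA_s fun y y' F h1 h2 h3 => DirEA.st (eng_n x) (AE_013 (sideB hx hx') (thrU hx hx') hκ x0 x1 F (h1.trans_eq (by norm_num)) (h2.trans_eq (by norm_num)) (h3.trans_eq (by norm_num)))
theorem ME_103 {x κ y y' : ℝ} (hF : SideOk PP tK tL pcB x) (hU : ThrOk PP tU pd x) (hκ : κ * h0 = ken x) (x0 : 1 / 2 ≤ x) (x1 : x ≤ 293668389 / 536870912)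
    (F : FactsA PP 1 0 3 0 0 1 (-1) y y') (h2 : |y - 1| < 1 / 32) (h1 : |y' - x| < 5 / 256) (h3 : |y + y' - (1 + x)| < 5 / 256) :
    StEA 3 κ (eng.v x) (3 / 40) (tnt (h0 * x) (3 / 10)) PP tK tL tC pcB (scP esg pd) 1 0 3 0 0 1 (-1) x y y' := by
  have F2 := factsA_mirror F
  rw [neg_neg] at F2
  have h3' : |y' + y - (1 + x)| < 5 / 256 := by rwa [add_comm y' y]
  obtain ⟨u1, u2⟩ := abs_lt.1 h1
  obtain ⟨b1, b2⟩ := abs_lt.1 h2
  have hX : (1 : ℝ) * crv PP 0 1 y + -1 * crv PP 0 0 y' ≠ 0 := by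
    rw [crv0, crv0]
    have := c1n_lt (y := y') (z := y) (by linarith) (by linarith) (by nlinarith)
    intro h
    linarith
  refine DirEA.mir (eng_n x) hF hU.sc F hX (by linarith) (by linarith) (by norm_num) (by norm_num) ?_
  rw [neg_neg]
  exact AE_013 hF hU hκ x0 x1 F2 h1 h2 h3'
theorem molE_A_103_00_1 {κ x : ℝ} (hκ : κ * h0 = ken x) (hx : ((536870912 : ℕ) : ℝ) / S ≤ x) (hx' : x ≤ (((536870912 : ℕ) : ℝ) + (50465866 : ℕ)) / S) :
    AltEA 3 κ (eng.v x) (3 / 40) (tnt (h0 * x) (3 / 10)) PP tK tL tC pcB (scP esg pd) [⟨0, 1, 0, 33554432⟩, ⟨1, 0, 1, 20971520⟩, ⟨2, 1, 1, 20971520⟩] 1 0 3 0 0 (sgb true) (sgb false) x := by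
  obtain ⟨x0, x1⟩ := xr hx hx'
  exact altEA_m fun y y' F h2 h1 h3 => ME_103 (sideB hx hx') (thrU hx hx') hκ x0 x1 F (h2.trans_eq (by norm_num)) (h1.trans_eq (by norm_num)) (h3.trans_eq (by norm_num))
theorem AE_113 {x κ y y' : ℝ} (hF : SideOk PP tK tL pcB x) (hU : ThrOk PP tU pd x) (hκ : κ * h0 = ken x) (x0 : 1 / 2 ≤ x) (x1 : x ≤ 293668389 / 536870912)
    (F : FactsA PP 1 1 3 0 0 1 (-1) y y') (h1 : |y - x| < 5 / 256) (h2 : |y' - 1| < 1 / 32) (h3 : |y + y' - (1 + x)| < 5 / 256) :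
    DirEA (3 / 10) κ PP tK tL tC pcB (scP esg pd) 1 1 3 0 0 1 (-1) x y y' := by
  obtain ⟨u, rfl⟩ : ∃ u, y = x + u := ⟨y - x, by ring⟩
  obtain ⟨b, rfl⟩ : ∃ b, y' = 1 + b := ⟨y' - 1, by ring⟩
  rw [show x + u - x = u by ring] at h1
  rw [show 1 + b - 1 = b by ring] at h2
  rw [show x + u + (1 + b) - (1 + x) = u + b by ring] at h3
  obtain ⟨u1, u2⟩ := abs_lt.1 h1
  exact fE_Amh hF hU hκ x0 x1 h1 h2 h3 F (t1_1 F.q1) (shK1 F.q1 (by linarith) (by linarith)) (shL1 F.q1 (by linarith) (by linarith)) (shC1 F.q1 (by linarith) (by linarith))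
theorem molE_A_113_00_0 {κ x : ℝ} (hκ : κ * h0 = ken x) (hx : ((536870912 : ℕ) : ℝ) / S ≤ x) (hx' : x ≤ (((536870912 : ℕ) : ℝ) + (50465866 : ℕ)) / S) :
    AltEA 3 κ (eng.v x) (3 / 40) (tnt (h0 * x) (3 / 10)) PP tK tL tC pcB (scP esg pd) [⟨0, 0, 1, 20971520⟩, ⟨1, 1, 0, 33554432⟩, ⟨2, 1, 1, 20971520⟩] 1 1 3 0 0 (sgb true) (sgb false) x := by
  obtain ⟨x0, x1⟩ := xr hx hx'
  exact altEA_s fun y y' F h1 h2 h3 => DirEA.st (eng_n x) (AE_113 (sideB hx hx') (thrU hx hx') hκ x0 x1 F (h1.trans_eq (by norm_num)) (h2.trans_eq (by norm_num)) (h3.trans_eq (by norm_num)))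
theorem ME_113 {x κ y y' : ℝ} (hF : SideOk PP tK tL pcB x) (hU : ThrOk PP tU pd x) (hκ : κ * h0 = ken x) (x0 : 1 / 2 ≤ x) (x1 : x ≤ 293668389 / 536870912)
    (F : FactsA PP 1 1 3 0 0 1 (-1) y y') (h2 : |y - 1| < 1 / 32) (h1 : |y' - x| < 5 / 256) (h3 : |y + y' - (1 + x)| < 5 / 256) :
    StEA 3 κ (eng.v x) (3 / 40) (tnt (h0 * x) (3 / 10)) PP tK tL tC pcB (scP esg pd) 1 1 3 0 0 1 (-1) x y y' := by
  have F2 := factsA_mirror F
  rw [neg_neg] at F2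
  have h3' : |y' + y - (1 + x)| < 5 / 256 := by rwa [add_comm y' y]
  obtain ⟨u1, u2⟩ := abs_lt.1 h1
  obtain ⟨b1, b2⟩ := abs_lt.1 h2
  have hX : (1 : ℝ) * crv PP 0 1 y + -1 * crv PP 0 1 y' ≠ 0 := by
    rw [crv0, crv0]
    have := c1n_lt (y := y') (z := y) (by linarith) (by linarith) (by nlinarith)
    intro h
    linarith
  refine DirEA.mir (eng_n x) hF hU.sc F hX (by linarith) (by linarith) (by norm_num) (by norm_num) ?_
  rw [neg_neg]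
  exact AE_113 hF hU hκ x0 x1 F2 h1 h2 h3'
theorem molE_A_113_00_1 {κ x : ℝ} (hκ : κ * h0 = ken x) (hx : ((536870912 : ℕ) : ℝ) / S ≤ x) (hx' : x ≤ (((536870912 : ℕ) : ℝ) + (50465866 : ℕ)) / S) :
    AltEA 3 κ (eng.v x) (3 / 40) (tnt (h0 * x) (3 / 10)) PP tK tL tC pcB (scP esg pd) [⟨0, 1, 0, 33554432⟩, ⟨1, 0, 1, 20971520⟩, ⟨2, 1, 1, 20971520⟩] 1 1 3 0 0 (sgb true) (sgb false) x := by
  obtain ⟨x0, x1⟩ := xr hx hx'
  exact altEA_m fun y y' F h2 h1 h3 => ME_113 (sideB hx hx') (thrU hx hx') hκ x0 x1 F (h2.trans_eq (by norm_num)) (h1.trans_eq (by norm_num)) (h3.trans_eq (by norm_num))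
theorem w_Bpl {u b x : ℝ} (x0 : 1 / 2 ≤ x) (x1 : x ≤ 293668389 / 536870912) (h1 : |u| < 5 / 256) (h2 : |b| < 1 / 32) (h3 : |u - b| < 5 / 256) (hb : 0 ≤ b) : c1n (x + u) + sp.xs.v u b x ≤ (w3W true).v (1 - (x + u - b)) := by
  obtain ⟨u1, u2⟩ := abs_lt.1 h1
  obtain ⟨b1, b2⟩ := abs_lt.1 h2
  obtain ⟨v1, v2⟩ := abs_lt.1 h3
  have cm1 : c1n (1 + b) ≤ 1 / 2 := c1n_half hb
  have cm2 : c1n (x + u) ≤ c1n (x + u - b) := c1n_le' (by linarith) (by linarith)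
  rw [w3W_B]
  show c1n (x + u) + c1n (1 + b) ≤ c1n (x + u - b) + 1 / 2
  linarith
theorem zKBpl {u b x : ℝ} (hF : SideOk PP tK tL pcB x) (x0 : 1 / 2 ≤ x) (x1 : x ≤ 293668389 / 536870912) (h1 : |u| < 5 / 256) (h2 : |b| < 1 / 32) (h3 : |u - b| < 5 / 256) (hb : 0 ≤ b) (q3 : InQ 1 (1 - (x + u - b)))
    (hc : ∀ G ∈ cx_Bpl, 0 < G.v u b x) : (pcB 1).K.v (c1n (x + u) + sp.xs.v u b x) (1 - (x + u - b)) x =
    -(((c1n (x + u - b) + 1 / 2) * cG (x + u - b) + kcg.v (psn (x + u - b)) x) * -(x + u - b)) + sK_Bpl.v (c1n (x + u) + sp.xs.v u b x) (1 - (x + u - b)) x * (c1n (x + u) + sp.xs.v u b x - (c1n (x + u - b) + 1 / 2)) := by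
  have hw := w_Bpl x0 x1 h1 h2 h3 hb
  obtain ⟨u1, u2⟩ := abs_lt.1 h1
  obtain ⟨b1, b2⟩ := abs_lt.1 h2
  obtain ⟨v1, v2⟩ := abs_lt.1 h3
  have y1 := q3.1
  have y2 := q3.2
  have c0 : 0 < (tCC (w3W true) cv3m).v (c1n (x + u) + sp.xs.v u b x) (1 - (x + u - b)) x := hc (f3B sp.xs (tCC (w3W true) cv3m)) (by unfold cx_Bpl; simp only [List.mem_cons, true_or, or_true])
  have c1 : 0 < (tCC cv4m (w3W true)).v (c1n (x + u) + sp.xs.v u b x) (1 - (x + u - b)) x := hc (f3B sp.xs (tCC cv4m (w3W true))) (by unfold cx_Bpl; simp only [List.mem_cons, true_or, or_true])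
  have c2 : 0 < (tXC cv3m).v (c1n (x + u) + sp.xs.v u b x) (1 - (x + u - b)) x := hc (f3B sp.xs (tXC cv3m)) (by unfold cx_Bpl; simp only [List.mem_cons, true_or, or_true])
  refine (sKBpl hF q3 (by linarith) (by linarith) c0 c1 c2 hw).trans ?_
  rw [w3K_B, w3W_B]
  push_cast
  ring
theorem zLBpl {u b x : ℝ} (hF : SideOk PP tK tL pcB x) (x0 : 1 / 2 ≤ x) (x1 : x ≤ 293668389 / 536870912) (h1 : |u| < 5 / 256) (h2 : |b| < 1 / 32) (h3 : |u - b| < 5 / 256) (hb : 0 ≤ b) (q3 : InQ 1 (1 - (x + u - b)))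
    (hc : ∀ G ∈ cx_Bpl, 0 < G.v u b x) : (pcB 1).L.v (c1n (x + u) + sp.xs.v u b x) (1 - (x + u - b)) x =
    cQ x (x + u - b) (kcg.v (psn (x + u - b)) x) + sX_Bpl.v (c1n (x + u) + sp.xs.v u b x) (1 - (x + u - b)) x * (c1n (x + u) + sp.xs.v u b x - (c1n (x + u - b) + 1 / 2)) := by
  have hw := w_Bpl x0 x1 h1 h2 h3 hb
  obtain ⟨u1, u2⟩ := abs_lt.1 h1
  obtain ⟨b1, b2⟩ := abs_lt.1 h2
  obtain ⟨v1, v2⟩ := abs_lt.1 h3
  have y1 := q3.1
  have y2 := q3.2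
  have c0 : 0 < (tCC (w3W true) cv3m).v (c1n (x + u) + sp.xs.v u b x) (1 - (x + u - b)) x := hc (f3B sp.xs (tCC (w3W true) cv3m)) (by unfold cx_Bpl; simp only [List.mem_cons, true_or, or_true])
  have c1 : 0 < (tCC cv4m (w3W true)).v (c1n (x + u) + sp.xs.v u b x) (1 - (x + u - b)) x := hc (f3B sp.xs (tCC cv4m (w3W true))) (by unfold cx_Bpl; simp only [List.mem_cons, true_or, or_true])
  have c2 : 0 < (tXC cv3m).v (c1n (x + u) + sp.xs.v u b x) (1 - (x + u - b)) x := hc (f3B sp.xs (tXC cv3m)) (by unfold cx_Bpl; simp only [List.mem_cons, true_or, or_true])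
  refine (sLBpl hF q3 (by linarith) (by linarith) c0 c1 c2 hw).trans ?_
  rw [w3Q_B, w3W_B]
theorem zDBpl {u b x : ℝ} (hF : SideOk PP tK tL pcB x) (hU : ThrOk PP tU pd x) (x0 : 1 / 2 ≤ x) (x1 : x ≤ 293668389 / 536870912) (h1 : |u| < 5 / 256) (h2 : |b| < 1 / 32) (h3 : |u - b| < 5 / 256) (hb : 0 ≤ b) (q3 : InQ 1 (1 - (x + u - b)))
    (hc : ∀ G ∈ cx_Bpl, 0 < G.v u b x) : (pd 1).v (c1n (x + u) + sp.xs.v u b x) (1 - (x + u - b)) x * -(x + u - b) =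
    -((cP (x + u - b) + 1 / 2 * cD (x + u - b) - (cR (x + u - b) + 2 * c1n (x + u - b) + 1) * kcg.v (psn (x + u - b)) x) * -(x + u - b)) + sD_Bpl.v (c1n (x + u) + sp.xs.v u b x) (1 - (x + u - b)) x * (c1n (x + u) + sp.xs.v u b x - (c1n (x + u - b) + 1 / 2)) := by
  have hw := w_Bpl x0 x1 h1 h2 h3 hb
  obtain ⟨u1, u2⟩ := abs_lt.1 h1
  obtain ⟨b1, b2⟩ := abs_lt.1 h2
  obtain ⟨v1, v2⟩ := abs_lt.1 h3
  have y1 := q3.1
  have y2 := q3.2
  have c0 : 0 < (tCC (w3W true) cv3m).v (c1n (x + u) + sp.xs.v u b x) (1 - (x + u - b)) x := hc (f3B sp.xs (tCC (w3W true) cv3m)) (by unfold cx_Bpl; simp only [List.mem_cons, true_or, or_true])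
  have c1 : 0 < (tCC cv4m (w3W true)).v (c1n (x + u) + sp.xs.v u b x) (1 - (x + u - b)) x := hc (f3B sp.xs (tCC cv4m (w3W true))) (by unfold cx_Bpl; simp only [List.mem_cons, true_or, or_true])
  have c2 : 0 < (tXC cv3m).v (c1n (x + u) + sp.xs.v u b x) (1 - (x + u - b)) x := hc (f3B sp.xs (tXC cv3m)) (by unfold cx_Bpl; simp only [List.mem_cons, true_or, or_true])
  have e := sDBpl hF hU q3 (by linarith) (by linarith) c0 c1 c2 hw
  rw [w3D_B, w3W_B] at e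
  push_cast at e
  linear_combination e
theorem fE_Bpl {a : ℕ} {x u b κ τ y' : ℝ} (hF : SideOk PP tK tL pcB x) (hU : ThrOk PP tU pd x) (hκ : κ * h0 = ken x)
    (x0 : 1 / 2 ≤ x) (x1 : x ≤ 293668389 / 536870912) (h1 : |u| < 5 / 256) (h2 : |b| < 1 / 32) (h3 : |u - b| < 5 / 256) (hy : y' = 1 + b - (x + u)) (F : FactsB PP a 1 2 0 0 1 (-1) (x + u) y')
    (t1 : tau (h0 * (x + u)) = h0 * τ) (K1 : tK 0 a (x + u) x = (c1n (x + u) * cG (x + u) + kcg.v (psn (x + u)) x) * τ) (L1 : tL 0 a (x + u) x = cQ x (x + u) (kcg.v (psn (x + u)) x)) (C1 : tC 0 a (x + u) x = esn x * (cP (x + u) - (cR (x + u) + 2 * c1n (x + u)) * kcg.v (psn (x + u)) x)) :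
    DirEB (3 / 10) κ PP tK tL tC pcB (scP esg pd) a 1 2 0 0 1 (-1) x (x + u) y' := by
  obtain ⟨u1, u2⟩ := abs_lt.1 h1
  obtain ⟨b1, b2⟩ := abs_lt.1 h2
  obtain ⟨v1, v2⟩ := abs_lt.1 h3
  have e0 : x + u + y' = 1 + b := by rw [hy]; ring
  have qs : InQ 2 (1 + b) := e0 ▸ F.q3
  have hs1 : h0 * (1 + b) < 1 := e0 ▸ F.k0 rfl
  have hb : 0 ≤ b := by linarith [qs.1]
  have D : DomB u b x := ⟨by linarith, by linarith, by linarith, by linarith, by linarith, by linarith, by linarith, by linarith⟩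
  have hY : y' = 1 - (x + u - b) := by rw [hy]; ring
  have q3 : InQ 1 (1 - (x + u - b)) := hY ▸ F.q2
  obtain ⟨p1, p2⟩ := psr (y := x + u) (by linarith) (by linarith)
  obtain ⟨p3, p4⟩ := psr (y := x + u - b) (by linarith) (by linarith)
  have hd := dqBp (dq_t x) hb (by linarith) (by linarith) (by linarith) (by linarith) p1 p2 p3 p4
  have hs : ∀ G ∈ sk_Bpl, G.v u b x ≤ 0 := skPMB (v := 20971520) (hi := false) (abs_le.2 ⟨by unfold S; norm_num; linarith, by unfold S; norm_num; linarith⟩) (by simp only [cond_true, cond_false]; linarith [q3.1])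
  obtain ⟨r1, r2⟩ := rX x0 x1
  have K5 := Cht.cert (ng := false) (r := 20971520) ct_0Bpl (u := u) (b := b) (x := x) (by unfold S; norm_num; linarith) (by unfold S; norm_num; linarith) (by simp only [cond_true, cond_false]; linarith) (by simp only [cond_true, cond_false]; unfold S; norm_num; linarith) r1 r2
  have K7 := Cht.cert (ng := false) (r := 20971520) ct_2Bpl (u := u) (b := b) (x := x) (by unfold S; norm_num; linarith) (by unfold S; norm_num; linarith) (by simp only [cond_true, cond_false]; linarith) (by simp only [cond_true, cond_false]; unfold S; norm_num; linarith) r1 r2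
  have t3 := t3B1 F.q2 hy
  have hit : ((T_Bpl.b true).at_ u b x).it * -(x + u - b) = 1 := by
    show -(x + u - b)⁻¹ * _ = _
    rw [neg_mul_neg]
    exact inv_mul_cancel₀ (ne_of_gt (by linarith))
  have hx : sp.xs.v u b x = 1 / 2 + b * sp.ws.v u b x := stP_x (by linarith) (by linarith)
  have hX : crv PP 0 2 (1 + b) = sp.xs.v u b x := crv0 2 (1 + b)
  have od : 1 ≤ qqn (c1n (x + u) + sp.xs.v u b x) (1 - (x + u - b)) ∧ qqn (c1n (x + u) + sp.xs.v u b x) (1 - (x + u - b)) ≤ 3 ∧ c1n (x + u) + sp.xs.v u b x ≠ 0 := by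
    have l1 := F.len1
    have l3 := F.len3
    have cp := c1n_pos' (y := x + u) (by nlinarith)
    have cn : 0 ≤ c1n (1 + b) := Mol.c1n_nn (1 + b)
    have e : -1 * crv PP 0 2 (x + u + y') - 1 * crv PP 0 a (x + u) = -(c1n (x + u) + sp.xs.v u b x) := by
      rw [e0, hX, crv0]
      ring
    rw [e, qqn_neg, hY] at l1 l3
    refine ⟨l1, l3, ne_of_gt ?_⟩
    show 0 < c1n (x + u) + c1n (1 + b)
    linarith
  have eX : -sp.xs.v u b x - c1n (x + u) = -(c1n (x + u) + sp.xs.v u b x) := by ring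
  have K3 : (∀ G ∈ cx_Bpl, 0 < G.v u b x) → (pcB 1).K.v (-sp.xs.v u b x - c1n (x + u)) y' x = ((c1n (x + u - b) + 1 / 2) * cG (x + u - b) + kcg.v (psn (x + u - b)) x) * -(x + u - b) - sK_Bpl.v (c1n (x + u) + sp.xs.v u b x) (1 - (x + u - b)) x * (c1n (x + u) + sp.xs.v u b x - (c1n (x + u - b) + 1 / 2)) := fun hc => by
    rw [eX, hY, (hF.odd q3 od.1 od.2.1 od.2.2).1, zKBpl hF x0 x1 h1 h2 h3 hb q3 hc]
    ring
  have L3 : (∀ G ∈ cx_Bpl, 0 < G.v u b x) → (pcB 1).L.v (-sp.xs.v u b x - c1n (x + u)) y' x = -(cQ x (x + u - b) (kcg.v (psn (x + u - b)) x) + sX_Bpl.v (c1n (x + u) + sp.xs.v u b x) (1 - (x + u - b)) x * (c1n (x + u) + sp.xs.v u b x - (c1n (x + u - b) + 1 / 2))) := fun hc => by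
    rw [eX, hY, (hF.odd q3 od.1 od.2.1 od.2.2).2, zLBpl hF x0 x1 h1 h2 h3 hb q3 hc]
  have C3 : (∀ G ∈ cx_Bpl, 0 < G.v u b x) → (scP esg pd 1).v (-sp.xs.v u b x - c1n (x + u)) y' x = esn x * ((cP (x + u - b) + 1 / 2 * cD (x + u - b) - (cR (x + u - b) + 2 * c1n (x + u - b) + 1) * kcg.v (psn (x + u - b)) x) - ((T_Bpl.b true).at_ u b x).it * sD_Bpl.v (c1n (x + u) + sp.xs.v u b x) (1 - (x + u - b)) x * (c1n (x + u) + sp.xs.v u b x - (c1n (x + u - b) + 1 / 2))) := fun hc => by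
    rw [eX, hY]
    show esg.v x * (pd 1).v (-(c1n (x + u) + sp.xs.v u b x)) (1 - (x + u - b)) x = _
    rw [esg_n, hU.odd q3 od.1 od.2.1 od.2.2, div_it' (zDBpl hF hU x0 x1 h1 h2 h3 hb q3 hc) hit]
  exact bothBp (T := T_Bpl) (sk := sk_Bpl) (cx := cx_Bpl) (sk2 := sk_Bpl) (cx2 := cx_Bpl) D hb hκ hy hd hit t1 t3 hx hX (dc x0 x1) (by linarith) (by linarith) (by norm_num [T_Bpl]) (by norm_num [T_Bpl]) K5 hs K7 hs K1 (spK u hb qs hs1 (by linarith)) K3 L1 (spL u hb qs hs1 (by linarith)) L3 C1 (spC u hb qs hs1 (by linarith)) C3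
theorem BE_012 {x κ y y' : ℝ} (hF : SideOk PP tK tL pcB x) (hU : ThrOk PP tU pd x) (hκ : κ * h0 = ken x) (x0 : 1 / 2 ≤ x) (x1 : x ≤ 293668389 / 536870912)
    (F : FactsB PP 0 1 2 0 0 1 (-1) y y') (h1 : |y - x| < 5 / 256) (h3 : |y' - (1 - x)| < 5 / 256) (h2 : |y + y' - 1| < 1 / 32) :
    DirEB (3 / 10) κ PP tK tL tC pcB (scP esg pd) 0 1 2 0 0 1 (-1) x y y' := by
  obtain ⟨u, rfl⟩ : ∃ u, y = x + u := ⟨y - x, by ring⟩
  obtain ⟨b, hy⟩ : ∃ b, y' = 1 + b - (x + u) := ⟨y' + (x + u) - 1, by ring⟩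
  rw [show x + u - x = u by ring] at h1
  rw [show x + u + y' - 1 = b by rw [hy]; ring] at h2
  rw [show y' - (1 - x) = -(u - b) by rw [hy]; ring, abs_neg] at h3
  obtain ⟨u1, u2⟩ := abs_lt.1 h1
  exact fE_Bpl hF hU hκ x0 x1 h1 h2 h3 hy F (t1_0 F.q1) (shK0 F.q1 (by linarith) (by linarith)) (shL0 F.q1 (by linarith) (by linarith)) (shC0 F.q1 (by linarith) (by linarith))
theorem molE_B_012_00_0 {κ x : ℝ} (hκ : κ * h0 = ken x) (hx : ((536870912 : ℕ) : ℝ) / S ≤ x) (hx' : x ≤ (((536870912 : ℕ) : ℝ) + (50465866 : ℕ)) / S) :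
    AltEB 3 κ (eng.v x) (3 / 40) (tnt (h0 * x) (3 / 10)) PP tK tL tC pcB (scP esg pd) [⟨0, 0, 1, 20971520⟩, ⟨1, 1, 2, 20971520⟩, ⟨2, 1, 0, 33554432⟩] 0 1 2 0 0 (sgb true) (sgb false) x := by
  obtain ⟨x0, x1⟩ := xr hx hx'
  exact altEB_s fun y y' F h1 h3 h2 => DirEB.st (eng_n x) (BE_012 (sideB hx hx') (thrU hx hx') hκ x0 x1 F (h1.trans_eq (by norm_num)) (h3.trans_eq (by norm_num)) (h2.trans_eq (by norm_num)))
theorem BE_112 {x κ y y' : ℝ} (hF : SideOk PP tK tL pcB x) (hU : ThrOk PP tU pd x) (hκ : κ * h0 = ken x) (x0 : 1 / 2 ≤ x) (x1 : x ≤ 293668389 / 536870912)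
    (F : FactsB PP 1 1 2 0 0 1 (-1) y y') (h1 : |y - x| < 5 / 256) (h3 : |y' - (1 - x)| < 5 / 256) (h2 : |y + y' - 1| < 1 / 32) :
    DirEB (3 / 10) κ PP tK tL tC pcB (scP esg pd) 1 1 2 0 0 1 (-1) x y y' := by
  obtain ⟨u, rfl⟩ : ∃ u, y = x + u := ⟨y - x, by ring⟩
  obtain ⟨b, hy⟩ : ∃ b, y' = 1 + b - (x + u) := ⟨y' + (x + u) - 1, by ring⟩
  rw [show x + u - x = u by ring] at h1
  rw [show x + u + y' - 1 = b by rw [hy]; ring] at h2
  rw [show y' - (1 - x) = -(u - b) by rw [hy]; ring, abs_neg] at h3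
  obtain ⟨u1, u2⟩ := abs_lt.1 h1
  exact fE_Bpl hF hU hκ x0 x1 h1 h2 h3 hy F (t1_1 F.q1) (shK1 F.q1 (by linarith) (by linarith)) (shL1 F.q1 (by linarith) (by linarith)) (shC1 F.q1 (by linarith) (by linarith))
theorem molE_B_112_00_0 {κ x : ℝ} (hκ : κ * h0 = ken x) (hx : ((536870912 : ℕ) : ℝ) / S ≤ x) (hx' : x ≤ (((536870912 : ℕ) : ℝ) + (50465866 : ℕ)) / S) :
    AltEB 3 κ (eng.v x) (3 / 40) (tnt (h0 * x) (3 / 10)) PP tK tL tC pcB (scP esg pd) [⟨0, 0, 1, 20971520⟩, ⟨1, 1, 2, 20971520⟩, ⟨2, 1, 0, 33554432⟩] 1 1 2 0 0 (sgb true) (sgb false) x := by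
  obtain ⟨x0, x1⟩ := xr hx hx'
  exact altEB_s fun y y' F h1 h3 h2 => DirEB.st (eng_n x) (BE_112 (sideB hx hx') (thrU hx hx') hκ x0 x1 F (h1.trans_eq (by norm_num)) (h3.trans_eq (by norm_num)) (h2.trans_eq (by norm_num)))
theorem w_Bph {u b x : ℝ} (x0 : 1 / 2 ≤ x) (x1 : x ≤ 293668389 / 536870912) (h1 : |u| < 5 / 256) (h2 : |b| < 1 / 32) (h3 : |u - b| < 5 / 256) (hb : 0 ≤ b) : c1n (x + u) + sp.xs.v u b x ≤ (w3W true).v (1 - (x + u - b)) := by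
  obtain ⟨u1, u2⟩ := abs_lt.1 h1
  obtain ⟨b1, b2⟩ := abs_lt.1 h2
  obtain ⟨v1, v2⟩ := abs_lt.1 h3
  have cm1 : c1n (1 + b) ≤ 1 / 2 := c1n_half hb
  have cm2 : c1n (x + u) ≤ c1n (x + u - b) := c1n_le' (by linarith) (by linarith)
  rw [w3W_B]
  show c1n (x + u) + c1n (1 + b) ≤ c1n (x + u - b) + 1 / 2
  linarith
theorem zKBph {u b x : ℝ} (hF : SideOk PP tK tL pcB x) (x0 : 1 / 2 ≤ x) (x1 : x ≤ 293668389 / 536870912) (h1 : |u| < 5 / 256) (h2 : |b| < 1 / 32) (h3 : |u - b| < 5 / 256) (hb : 0 ≤ b) (q3 : InQ 0 (1 - (x + u - b)))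
    (hc : ∀ G ∈ cx_Bph, 0 < G.v u b x) : (pcB 0).K.v (c1n (x + u) + sp.xs.v u b x) (1 - (x + u - b)) x =
    -(((c1n (x + u - b) + 1 / 2) * cG (x + u - b) + kcg.v (psn (x + u - b)) x) * (1 - (x + u - b))) + sK_Bph.v (c1n (x + u) + sp.xs.v u b x) (1 - (x + u - b)) x * (c1n (x + u) + sp.xs.v u b x - (c1n (x + u - b) + 1 / 2)) := by
  have hw := w_Bph x0 x1 h1 h2 h3 hb
  obtain ⟨u1, u2⟩ := abs_lt.1 h1
  obtain ⟨b1, b2⟩ := abs_lt.1 h2
  obtain ⟨v1, v2⟩ := abs_lt.1 h3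
  have y1 := q3.1
  have y2 := q3.2
  have c0 : 0 < (tCC (w3W true) cv3m).v (c1n (x + u) + sp.xs.v u b x) (1 - (x + u - b)) x := hc (f3B sp.xs (tCC (w3W true) cv3m)) (by unfold cx_Bph; simp only [List.mem_cons, true_or, or_true])
  have c1 : 0 < (tCC cv4m (w3W true)).v (c1n (x + u) + sp.xs.v u b x) (1 - (x + u - b)) x := hc (f3B sp.xs (tCC cv4m (w3W true))) (by unfold cx_Bph; simp only [List.mem_cons, true_or, or_true])
  have c2 : 0 < (tXC cv3m).v (c1n (x + u) + sp.xs.v u b x) (1 - (x + u - b)) x := hc (f3B sp.xs (tXC cv3m)) (by unfold cx_Bph; simp only [List.mem_cons, true_or, or_true])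
  refine (sKBph hF q3 (by linarith) (by linarith) c0 c1 c2 hw).trans ?_
  rw [w3K_B, w3W_B]
  push_cast
  ring
theorem zLBph {u b x : ℝ} (hF : SideOk PP tK tL pcB x) (x0 : 1 / 2 ≤ x) (x1 : x ≤ 293668389 / 536870912) (h1 : |u| < 5 / 256) (h2 : |b| < 1 / 32) (h3 : |u - b| < 5 / 256) (hb : 0 ≤ b) (q3 : InQ 0 (1 - (x + u - b)))
    (hc : ∀ G ∈ cx_Bph, 0 < G.v u b x) : (pcB 0).L.v (c1n (x + u) + sp.xs.v u b x) (1 - (x + u - b)) x =
    cQ x (x + u - b) (kcg.v (psn (x + u - b)) x) + sX_Bph.v (c1n (x + u) + sp.xs.v u b x) (1 - (x + u - b)) x * (c1n (x + u) + sp.xs.v u b x - (c1n (x + u - b) + 1 / 2)) := by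
  have hw := w_Bph x0 x1 h1 h2 h3 hb
  obtain ⟨u1, u2⟩ := abs_lt.1 h1
  obtain ⟨b1, b2⟩ := abs_lt.1 h2
  obtain ⟨v1, v2⟩ := abs_lt.1 h3
  have y1 := q3.1
  have y2 := q3.2
  have c0 : 0 < (tCC (w3W true) cv3m).v (c1n (x + u) + sp.xs.v u b x) (1 - (x + u - b)) x := hc (f3B sp.xs (tCC (w3W true) cv3m)) (by unfold cx_Bph; simp only [List.mem_cons, true_or, or_true])
  have c1 : 0 < (tCC cv4m (w3W true)).v (c1n (x + u) + sp.xs.v u b x) (1 - (x + u - b)) x := hc (f3B sp.xs (tCC cv4m (w3W true))) (by unfold cx_Bph; simp only [List.mem_cons, true_or, or_true])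
  have c2 : 0 < (tXC cv3m).v (c1n (x + u) + sp.xs.v u b x) (1 - (x + u - b)) x := hc (f3B sp.xs (tXC cv3m)) (by unfold cx_Bph; simp only [List.mem_cons, true_or, or_true])
  refine (sLBph hF q3 (by linarith) (by linarith) c0 c1 c2 hw).trans ?_
  rw [w3Q_B, w3W_B]
theorem zDBph {u b x : ℝ} (hF : SideOk PP tK tL pcB x) (hU : ThrOk PP tU pd x) (x0 : 1 / 2 ≤ x) (x1 : x ≤ 293668389 / 536870912) (h1 : |u| < 5 / 256) (h2 : |b| < 1 / 32) (h3 : |u - b| < 5 / 256) (hb : 0 ≤ b) (q3 : InQ 0 (1 - (x + u - b)))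
    (hc : ∀ G ∈ cx_Bph, 0 < G.v u b x) : (pd 0).v (c1n (x + u) + sp.xs.v u b x) (1 - (x + u - b)) x * (1 - (x + u - b)) =
    -((cP (x + u - b) + 1 / 2 * cD (x + u - b) - (cR (x + u - b) + 2 * c1n (x + u - b) + 1) * kcg.v (psn (x + u - b)) x) * (1 - (x + u - b))) + sD_Bph.v (c1n (x + u) + sp.xs.v u b x) (1 - (x + u - b)) x * (c1n (x + u) + sp.xs.v u b x - (c1n (x + u - b) + 1 / 2)) := by
  have hw := w_Bph x0 x1 h1 h2 h3 hb
  obtain ⟨u1, u2⟩ := abs_lt.1 h1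
  obtain ⟨b1, b2⟩ := abs_lt.1 h2
  obtain ⟨v1, v2⟩ := abs_lt.1 h3
  have y1 := q3.1
  have y2 := q3.2
  have c0 : 0 < (tCC (w3W true) cv3m).v (c1n (x + u) + sp.xs.v u b x) (1 - (x + u - b)) x := hc (f3B sp.xs (tCC (w3W true) cv3m)) (by unfold cx_Bph; simp only [List.mem_cons, true_or, or_true])
  have c1 : 0 < (tCC cv4m (w3W true)).v (c1n (x + u) + sp.xs.v u b x) (1 - (x + u - b)) x := hc (f3B sp.xs (tCC cv4m (w3W true))) (by unfold cx_Bph; simp only [List.mem_cons, true_or, or_true])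
  have c2 : 0 < (tXC cv3m).v (c1n (x + u) + sp.xs.v u b x) (1 - (x + u - b)) x := hc (f3B sp.xs (tXC cv3m)) (by unfold cx_Bph; simp only [List.mem_cons, true_or, or_true])
  have e := sDBph hF hU q3 (by linarith) (by linarith) c0 c1 c2 hw
  rw [w3D_B, w3W_B] at e
  push_cast at e
  linear_combination e
theorem fE_Bph {a : ℕ} {x u b κ τ y' : ℝ} (hF : SideOk PP tK tL pcB x) (hU : ThrOk PP tU pd x) (hκ : κ * h0 = ken x)
    (x0 : 1 / 2 ≤ x) (x1 : x ≤ 293668389 / 536870912) (h1 : |u| < 5 / 256) (h2 : |b| < 1 / 32) (h3 : |u - b| < 5 / 256) (hy : y' = 1 + b - (x + u)) (F : FactsB PP a 0 2 0 0 1 (-1) (x + u) y')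
    (t1 : tau (h0 * (x + u)) = h0 * τ) (K1 : tK 0 a (x + u) x = (c1n (x + u) * cG (x + u) + kcg.v (psn (x + u)) x) * τ) (L1 : tL 0 a (x + u) x = cQ x (x + u) (kcg.v (psn (x + u)) x)) (C1 : tC 0 a (x + u) x = esn x * (cP (x + u) - (cR (x + u) + 2 * c1n (x + u)) * kcg.v (psn (x + u)) x)) :
    DirEB (3 / 10) κ PP tK tL tC pcB (scP esg pd) a 0 2 0 0 1 (-1) x (x + u) y' := by
  obtain ⟨u1, u2⟩ := abs_lt.1 h1
  obtain ⟨b1, b2⟩ := abs_lt.1 h2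
  obtain ⟨v1, v2⟩ := abs_lt.1 h3
  have e0 : x + u + y' = 1 + b := by rw [hy]; ring
  have qs : InQ 2 (1 + b) := e0 ▸ F.q3
  have hs1 : h0 * (1 + b) < 1 := e0 ▸ F.k0 rfl
  have hb : 0 ≤ b := by linarith [qs.1]
  have D : DomB u b x := ⟨by linarith, by linarith, by linarith, by linarith, by linarith, by linarith, by linarith, by linarith⟩
  have hY : y' = 1 - (x + u - b) := by rw [hy]; ring
  have q3 : InQ 0 (1 - (x + u - b)) := hY ▸ F.q2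
  obtain ⟨p1, p2⟩ := psr (y := x + u) (by linarith) (by linarith)
  obtain ⟨p3, p4⟩ := psr (y := x + u - b) (by linarith) (by linarith)
  have hd := dqBp (dq_t x) hb (by linarith) (by linarith) (by linarith) (by linarith) p1 p2 p3 p4
  have hs : ∀ G ∈ sk_Bph, G.v u b x ≤ 0 := skPMB (v := 20971520) (hi := true) (abs_le.2 ⟨by unfold S; norm_num; linarith, by unfold S; norm_num; linarith⟩) (by simp only [cond_true, cond_false]; linarith [q3.2])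
  obtain ⟨r1, r2⟩ := rX x0 x1
  have K5 := Cht.cert (ng := false) (r := 20971520) ct_0Bph (u := u) (b := b) (x := x) (by unfold S; norm_num; linarith) (by unfold S; norm_num; linarith) (by simp only [cond_true, cond_false]; linarith) (by simp only [cond_true, cond_false]; unfold S; norm_num; linarith) r1 r2
  have K7 := Cht.cert (ng := false) (r := 20971520) ct_2Bph (u := u) (b := b) (x := x) (by unfold S; norm_num; linarith) (by unfold S; norm_num; linarith) (by simp only [cond_true, cond_false]; linarith) (by simp only [cond_true, cond_false]; unfold S; norm_num; linarith) r1 r2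
  have t3 := t3B0 F.q2 hy
  have hit : ((T_Bph.b true).at_ u b x).it * (1 - (x + u - b)) = 1 := by
    show (1 - (x + u - b))⁻¹ * _ = _
    exact inv_mul_cancel₀ (ne_of_gt (by linarith))
  have hx : sp.xs.v u b x = 1 / 2 + b * sp.ws.v u b x := stP_x (by linarith) (by linarith)
  have hX : crv PP 0 2 (1 + b) = sp.xs.v u b x := crv0 2 (1 + b)
  have od : 1 ≤ qqn (c1n (x + u) + sp.xs.v u b x) (1 - (x + u - b)) ∧ qqn (c1n (x + u) + sp.xs.v u b x) (1 - (x + u - b)) ≤ 3 ∧ c1n (x + u) + sp.xs.v u b x ≠ 0 := by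
    have l1 := F.len1
    have l3 := F.len3
    have cp := c1n_pos' (y := x + u) (by nlinarith)
    have cn : 0 ≤ c1n (1 + b) := Mol.c1n_nn (1 + b)
    have e : -1 * crv PP 0 2 (x + u + y') - 1 * crv PP 0 a (x + u) = -(c1n (x + u) + sp.xs.v u b x) := by
      rw [e0, hX, crv0]
      ring
    rw [e, qqn_neg, hY] at l1 l3
    refine ⟨l1, l3, ne_of_gt ?_⟩
    show 0 < c1n (x + u) + c1n (1 + b)
    linarith
  have eX : -sp.xs.v u b x - c1n (x + u) = -(c1n (x + u) + sp.xs.v u b x) := by ring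
  have K3 : (∀ G ∈ cx_Bph, 0 < G.v u b x) → (pcB 0).K.v (-sp.xs.v u b x - c1n (x + u)) y' x = ((c1n (x + u - b) + 1 / 2) * cG (x + u - b) + kcg.v (psn (x + u - b)) x) * (1 - (x + u - b)) - sK_Bph.v (c1n (x + u) + sp.xs.v u b x) (1 - (x + u - b)) x * (c1n (x + u) + sp.xs.v u b x - (c1n (x + u - b) + 1 / 2)) := fun hc => by
    rw [eX, hY, (hF.odd q3 od.1 od.2.1 od.2.2).1, zKBph hF x0 x1 h1 h2 h3 hb q3 hc]
    ring
  have L3 : (∀ G ∈ cx_Bph, 0 < G.v u b x) → (pcB 0).L.v (-sp.xs.v u b x - c1n (x + u)) y' x = -(cQ x (x + u - b) (kcg.v (psn (x + u - b)) x) + sX_Bph.v (c1n (x + u) + sp.xs.v u b x) (1 - (x + u - b)) x * (c1n (x + u) + sp.xs.v u b x - (c1n (x + u - b) + 1 / 2))) := fun hc => by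
    rw [eX, hY, (hF.odd q3 od.1 od.2.1 od.2.2).2, zLBph hF x0 x1 h1 h2 h3 hb q3 hc]
  have C3 : (∀ G ∈ cx_Bph, 0 < G.v u b x) → (scP esg pd 0).v (-sp.xs.v u b x - c1n (x + u)) y' x = esn x * ((cP (x + u - b) + 1 / 2 * cD (x + u - b) - (cR (x + u - b) + 2 * c1n (x + u - b) + 1) * kcg.v (psn (x + u - b)) x) - ((T_Bph.b true).at_ u b x).it * sD_Bph.v (c1n (x + u) + sp.xs.v u b x) (1 - (x + u - b)) x * (c1n (x + u) + sp.xs.v u b x - (c1n (x + u - b) + 1 / 2))) := fun hc => by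
    rw [eX, hY]
    show esg.v x * (pd 0).v (-(c1n (x + u) + sp.xs.v u b x)) (1 - (x + u - b)) x = _
    rw [esg_n, hU.odd q3 od.1 od.2.1 od.2.2, div_it' (zDBph hF hU x0 x1 h1 h2 h3 hb q3 hc) hit]
  exact bothBp (T := T_Bph) (sk := sk_Bph) (cx := cx_Bph) (sk2 := sk_Bph) (cx2 := cx_Bph) D hb hκ hy hd hit t1 t3 hx hX (dc x0 x1) (by linarith) (by linarith) (by norm_num [T_Bph]) (by norm_num [T_Bph]) K5 hs K7 hs K1 (spK u hb qs hs1 (by linarith)) K3 L1 (spL u hb qs hs1 (by linarith)) L3 C1 (spC u hb qs hs1 (by linarith)) C3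
theorem BE_002 {x κ y y' : ℝ} (hF : SideOk PP tK tL pcB x) (hU : ThrOk PP tU pd x) (hκ : κ * h0 = ken x) (x0 : 1 / 2 ≤ x) (x1 : x ≤ 293668389 / 536870912)
    (F : FactsB PP 0 0 2 0 0 1 (-1) y y') (h1 : |y - x| < 5 / 256) (h3 : |y' - (1 - x)| < 5 / 256) (h2 : |y + y' - 1| < 1 / 32) :
    DirEB (3 / 10) κ PP tK tL tC pcB (scP esg pd) 0 0 2 0 0 1 (-1) x y y' := by
  obtain ⟨u, rfl⟩ : ∃ u, y = x + u := ⟨y - x, by ring⟩
  obtain ⟨b, hy⟩ : ∃ b, y' = 1 + b - (x + u) := ⟨y' + (x + u) - 1, by ring⟩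
  rw [show x + u - x = u by ring] at h1
  rw [show x + u + y' - 1 = b by rw [hy]; ring] at h2
  rw [show y' - (1 - x) = -(u - b) by rw [hy]; ring, abs_neg] at h3
  obtain ⟨u1, u2⟩ := abs_lt.1 h1
  exact fE_Bph hF hU hκ x0 x1 h1 h2 h3 hy F (t1_0 F.q1) (shK0 F.q1 (by linarith) (by linarith)) (shL0 F.q1 (by linarith) (by linarith)) (shC0 F.q1 (by linarith) (by linarith))
theorem molE_B_002_00_0 {κ x : ℝ} (hκ : κ * h0 = ken x) (hx : ((536870912 : ℕ) : ℝ) / S ≤ x) (hx' : x ≤ (((536870912 : ℕ) : ℝ) + (50465866 : ℕ)) / S) :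
    AltEB 3 κ (eng.v x) (3 / 40) (tnt (h0 * x) (3 / 10)) PP tK tL tC pcB (scP esg pd) [⟨0, 0, 1, 20971520⟩, ⟨1, 1, 2, 20971520⟩, ⟨2, 1, 0, 33554432⟩] 0 0 2 0 0 (sgb true) (sgb false) x := by
  obtain ⟨x0, x1⟩ := xr hx hx'
  exact altEB_s fun y y' F h1 h3 h2 => DirEB.st (eng_n x) (BE_002 (sideB hx hx') (thrU hx hx') hκ x0 x1 F (h1.trans_eq (by norm_num)) (h3.trans_eq (by norm_num)) (h2.trans_eq (by norm_num)))
theorem BE_102 {x κ y y' : ℝ} (hF : SideOk PP tK tL pcB x) (hU : ThrOk PP tU pd x) (hκ : κ * h0 = ken x) (x0 : 1 / 2 ≤ x) (x1 : x ≤ 293668389 / 536870912)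
    (F : FactsB PP 1 0 2 0 0 1 (-1) y y') (h1 : |y - x| < 5 / 256) (h3 : |y' - (1 - x)| < 5 / 256) (h2 : |y + y' - 1| < 1 / 32) :
    DirEB (3 / 10) κ PP tK tL tC pcB (scP esg pd) 1 0 2 0 0 1 (-1) x y y' := by
  obtain ⟨u, rfl⟩ : ∃ u, y = x + u := ⟨y - x, by ring⟩
  obtain ⟨b, hy⟩ : ∃ b, y' = 1 + b - (x + u) := ⟨y' + (x + u) - 1, by ring⟩
  rw [show x + u - x = u by ring] at h1
  rw [show x + u + y' - 1 = b by rw [hy]; ring] at h2
  rw [show y' - (1 - x) = -(u - b) by rw [hy]; ring, abs_neg] at h3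
  obtain ⟨u1, u2⟩ := abs_lt.1 h1
  exact fE_Bph hF hU hκ x0 x1 h1 h2 h3 hy F (t1_1 F.q1) (shK1 F.q1 (by linarith) (by linarith)) (shL1 F.q1 (by linarith) (by linarith)) (shC1 F.q1 (by linarith) (by linarith))
theorem molE_B_102_00_0 {κ x : ℝ} (hκ : κ * h0 = ken x) (hx : ((536870912 : ℕ) : ℝ) / S ≤ x) (hx' : x ≤ (((536870912 : ℕ) : ℝ) + (50465866 : ℕ)) / S) :
    AltEB 3 κ (eng.v x) (3 / 40) (tnt (h0 * x) (3 / 10)) PP tK tL tC pcB (scP esg pd) [⟨0, 0, 1, 20971520⟩, ⟨1, 1, 2, 20971520⟩, ⟨2, 1, 0, 33554432⟩] 1 0 2 0 0 (sgb true) (sgb false) x := by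
  obtain ⟨x0, x1⟩ := xr hx hx'
  exact altEB_s fun y y' F h1 h3 h2 => DirEB.st (eng_n x) (BE_102 (sideB hx hx') (thrU hx hx') hκ x0 x1 F (h1.trans_eq (by norm_num)) (h3.trans_eq (by norm_num)) (h2.trans_eq (by norm_num)))
theorem w_Bplk1 {u b x : ℝ} (x0 : 1 / 2 ≤ x) (x1 : x ≤ 293668389 / 536870912) (h1 : |u| < 5 / 256) (h2 : |b| < 1 / 32) (h3 : |u - b| < 5 / 256) (hb : 0 ≤ b) : c1n (x + u) + sk1.xs.v u b x ≤ (w3W true).v (1 - (x + u - b)) := by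
  obtain ⟨u1, u2⟩ := abs_lt.1 h1
  obtain ⟨b1, b2⟩ := abs_lt.1 h2
  obtain ⟨v1, v2⟩ := abs_lt.1 h3
  have cm1 : (fXS 22 3 25).v u b x ≤ 1 / 2 := fXS_le (by norm_num) hb
  have cm2 : c1n (x + u) ≤ c1n (x + u - b) := c1n_le' (by linarith) (by linarith)
  rw [w3W_B]
  show c1n (x + u) + (fXS 22 3 25).v u b x ≤ c1n (x + u - b) + 1 / 2
  linarith
theorem zKBplk1 {u b x : ℝ} (hF : SideOk PP tK tL pcB x) (x0 : 1 / 2 ≤ x) (x1 : x ≤ 293668389 / 536870912) (h1 : |u| < 5 / 256) (h2 : |b| < 1 / 32) (h3 : |u - b| < 5 / 256) (hb : 0 ≤ b) (q3 : InQ 1 (1 - (x + u - b)))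
    (hc : ∀ G ∈ cx_Bplk1, 0 < G.v u b x) : (pcB 1).K.v (c1n (x + u) + sk1.xs.v u b x) (1 - (x + u - b)) x =
    -(((c1n (x + u - b) + 1 / 2) * cG (x + u - b) + kcg.v (psn (x + u - b)) x) * -(x + u - b)) + sK_Bplk1.v (c1n (x + u) + sk1.xs.v u b x) (1 - (x + u - b)) x * (c1n (x + u) + sk1.xs.v u b x - (c1n (x + u - b) + 1 / 2)) := by
  have hw := w_Bplk1 x0 x1 h1 h2 h3 hb
  obtain ⟨u1, u2⟩ := abs_lt.1 h1
  obtain ⟨b1, b2⟩ := abs_lt.1 h2
  obtain ⟨v1, v2⟩ := abs_lt.1 h3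
  have y1 := q3.1
  have y2 := q3.2
  have c0 : 0 < (tCC (w3W true) cv3m).v (c1n (x + u) + sk1.xs.v u b x) (1 - (x + u - b)) x := hc (f3B sk1.xs (tCC (w3W true) cv3m)) (by unfold cx_Bplk1; simp only [List.mem_cons, true_or, or_true])
  have c1 : 0 < (tCC cv4m (w3W true)).v (c1n (x + u) + sk1.xs.v u b x) (1 - (x + u - b)) x := hc (f3B sk1.xs (tCC cv4m (w3W true))) (by unfold cx_Bplk1; simp only [List.mem_cons, true_or, or_true])
  have c2 : 0 < (tXC cv3m).v (c1n (x + u) + sk1.xs.v u b x) (1 - (x + u - b)) x := hc (f3B sk1.xs (tXC cv3m)) (by unfold cx_Bplk1; simp only [List.mem_cons, true_or, or_true])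
  refine (sKBplk1 hF q3 (by linarith) (by linarith) c0 c1 c2 hw).trans ?_
  rw [w3K_B, w3W_B]
  push_cast
  ring
theorem zLBplk1 {u b x : ℝ} (hF : SideOk PP tK tL pcB x) (x0 : 1 / 2 ≤ x) (x1 : x ≤ 293668389 / 536870912) (h1 : |u| < 5 / 256) (h2 : |b| < 1 / 32) (h3 : |u - b| < 5 / 256) (hb : 0 ≤ b) (q3 : InQ 1 (1 - (x + u - b)))
    (hc : ∀ G ∈ cx_Bplk1, 0 < G.v u b x) : (pcB 1).L.v (c1n (x + u) + sk1.xs.v u b x) (1 - (x + u - b)) x =
    cQ x (x + u - b) (kcg.v (psn (x + u - b)) x) + sX_Bplk1.v (c1n (x + u) + sk1.xs.v u b x) (1 - (x + u - b)) x * (c1n (x + u) + sk1.xs.v u b x - (c1n (x + u - b) + 1 / 2)) := by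
  have hw := w_Bplk1 x0 x1 h1 h2 h3 hb
  obtain ⟨u1, u2⟩ := abs_lt.1 h1
  obtain ⟨b1, b2⟩ := abs_lt.1 h2
  obtain ⟨v1, v2⟩ := abs_lt.1 h3
  have y1 := q3.1
  have y2 := q3.2
  have c0 : 0 < (tCC (w3W true) cv3m).v (c1n (x + u) + sk1.xs.v u b x) (1 - (x + u - b)) x := hc (f3B sk1.xs (tCC (w3W true) cv3m)) (by unfold cx_Bplk1; simp only [List.mem_cons, true_or, or_true])
  have c1 : 0 < (tCC cv4m (w3W true)).v (c1n (x + u) + sk1.xs.v u b x) (1 - (x + u - b)) x := hc (f3B sk1.xs (tCC cv4m (w3W true))) (by unfold cx_Bplk1; simp only [List.mem_cons, true_or, or_true])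
  have c2 : 0 < (tXC cv3m).v (c1n (x + u) + sk1.xs.v u b x) (1 - (x + u - b)) x := hc (f3B sk1.xs (tXC cv3m)) (by unfold cx_Bplk1; simp only [List.mem_cons, true_or, or_true])
  refine (sLBplk1 hF q3 (by linarith) (by linarith) c0 c1 c2 hw).trans ?_
  rw [w3Q_B, w3W_B]
theorem zDBplk1 {u b x : ℝ} (hF : SideOk PP tK tL pcB x) (hU : ThrOk PP tU pd x) (x0 : 1 / 2 ≤ x) (x1 : x ≤ 293668389 / 536870912) (h1 : |u| < 5 / 256) (h2 : |b| < 1 / 32) (h3 : |u - b| < 5 / 256) (hb : 0 ≤ b) (q3 : InQ 1 (1 - (x + u - b)))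
    (hc : ∀ G ∈ cx_Bplk1, 0 < G.v u b x) : (pd 1).v (c1n (x + u) + sk1.xs.v u b x) (1 - (x + u - b)) x * -(x + u - b) =
    -((cP (x + u - b) + 1 / 2 * cD (x + u - b) - (cR (x + u - b) + 2 * c1n (x + u - b) + 1) * kcg.v (psn (x + u - b)) x) * -(x + u - b)) + sD_Bplk1.v (c1n (x + u) + sk1.xs.v u b x) (1 - (x + u - b)) x * (c1n (x + u) + sk1.xs.v u b x - (c1n (x + u - b) + 1 / 2)) := by
  have hw := w_Bplk1 x0 x1 h1 h2 h3 hb
  obtain ⟨u1, u2⟩ := abs_lt.1 h1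
  obtain ⟨b1, b2⟩ := abs_lt.1 h2
  obtain ⟨v1, v2⟩ := abs_lt.1 h3
  have y1 := q3.1
  have y2 := q3.2
  have c0 : 0 < (tCC (w3W true) cv3m).v (c1n (x + u) + sk1.xs.v u b x) (1 - (x + u - b)) x := hc (f3B sk1.xs (tCC (w3W true) cv3m)) (by unfold cx_Bplk1; simp only [List.mem_cons, true_or, or_true])
  have c1 : 0 < (tCC cv4m (w3W true)).v (c1n (x + u) + sk1.xs.v u b x) (1 - (x + u - b)) x := hc (f3B sk1.xs (tCC cv4m (w3W true))) (by unfold cx_Bplk1; simp only [List.mem_cons, true_or, or_true])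
  have c2 : 0 < (tXC cv3m).v (c1n (x + u) + sk1.xs.v u b x) (1 - (x + u - b)) x := hc (f3B sk1.xs (tXC cv3m)) (by unfold cx_Bplk1; simp only [List.mem_cons, true_or, or_true])
  have e := sDBplk1 hF hU q3 (by linarith) (by linarith) c0 c1 c2 hw
  rw [w3D_B, w3W_B] at e
  push_cast at e
  linear_combination e
theorem fE_Bplk1 {a : ℕ} {x u b κ τ y' : ℝ} (hF : SideOk PP tK tL pcB x) (hU : ThrOk PP tU pd x) (hκ : κ * h0 = ken x)
    (x0 : 1 / 2 ≤ x) (x1 : x ≤ 293668389 / 536870912) (h1 : |u| < 5 / 256) (h2 : |b| < 1 / 32) (h3 : |u - b| < 5 / 256) (hy : y' = 1 + b - (x + u)) (F : FactsB PP a 1 2 0 1 1 (-1) (x + u) y')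
    (t1 : tau (h0 * (x + u)) = h0 * τ) (K1 : tK 0 a (x + u) x = (c1n (x + u) * cG (x + u) + kcg.v (psn (x + u)) x) * τ) (L1 : tL 0 a (x + u) x = cQ x (x + u) (kcg.v (psn (x + u)) x)) (C1 : tC 0 a (x + u) x = esn x * (cP (x + u) - (cR (x + u) + 2 * c1n (x + u)) * kcg.v (psn (x + u)) x)) :
    DirEB (3 / 10) κ PP tK tL tC pcB (scP esg pd) a 1 2 0 1 1 (-1) x (x + u) y' := by
  obtain ⟨u1, u2⟩ := abs_lt.1 h1
  obtain ⟨b1, b2⟩ := abs_lt.1 h2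
  obtain ⟨v1, v2⟩ := abs_lt.1 h3
  have e0 : x + u + y' = 1 + b := by rw [hy]; ring
  have qs : InQ 2 (1 + b) := e0 ▸ F.q3
  have hb : 0 ≤ b := by linarith [qs.1]
  have D : DomB u b x := ⟨by linarith, by linarith, by linarith, by linarith, by linarith, by linarith, by linarith, by linarith⟩
  have hY : y' = 1 - (x + u - b) := by rw [hy]; ring
  have q3 : InQ 1 (1 - (x + u - b)) := hY ▸ F.q2
  obtain ⟨p1, p2⟩ := psr (y := x + u) (by linarith) (by linarith)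
  obtain ⟨p3, p4⟩ := psr (y := x + u - b) (by linarith) (by linarith)
  have hd := dqBp (dq_t x) hb (by linarith) (by linarith) (by linarith) (by linarith) p1 p2 p3 p4
  have hs : ∀ G ∈ sk_Bplk1, G.v u b x ≤ 0 := skPMB (v := 20971520) (hi := false) (abs_le.2 ⟨by unfold S; norm_num; linarith, by unfold S; norm_num; linarith⟩) (by simp only [cond_true, cond_false]; linarith [q3.1])
  obtain ⟨r1, r2⟩ := rX x0 x1
  have K5 := Cht.cert (ng := false) (r := 20971520) ct_0Bplk1 (u := u) (b := b) (x := x) (by unfold S; norm_num; linarith) (by unfold S; norm_num; linarith) (by simp only [cond_true, cond_false]; linarith) (by simp only [cond_true, cond_false]; unfold S; norm_num; linarith) r1 r2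
  have K7 := Cht.cert (ng := false) (r := 20971520) ct_2Bplk1 (u := u) (b := b) (x := x) (by unfold S; norm_num; linarith) (by unfold S; norm_num; linarith) (by simp only [cond_true, cond_false]; linarith) (by simp only [cond_true, cond_false]; unfold S; norm_num; linarith) r1 r2
  have t3 := t3B1 F.q2 hy
  have hit : ((T_Bplk1.b true).at_ u b x).it * -(x + u - b) = 1 := by
    show -(x + u - b)⁻¹ * _ = _
    rw [neg_mul_neg]
    exact inv_mul_cancel₀ (ne_of_gt (by linarith))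
  have hx : sk1.xs.v u b x = 1 / 2 + b * sk1.ws.v u b x := stK_x (by norm_num) (by linarith) (by linarith)
  have hX : crv PP 1 2 (1 + b) = sk1.xs.v u b x := sX1 u
  have od : 1 ≤ qqn (c1n (x + u) + sk1.xs.v u b x) (1 - (x + u - b)) ∧ qqn (c1n (x + u) + sk1.xs.v u b x) (1 - (x + u - b)) ≤ 3 ∧ c1n (x + u) + sk1.xs.v u b x ≠ 0 := by
    have l1 := F.len1
    have l3 := F.len3
    have cp := c1n_pos' (y := x + u) (by nlinarith)
    have cn : 0 ≤ (fXS 22 3 25).v u b x := fXS_nn hb (by linarith)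
    have e : -1 * crv PP 1 2 (x + u + y') - 1 * crv PP 0 a (x + u) = -(c1n (x + u) + sk1.xs.v u b x) := by
      rw [e0, hX, crv0]
      ring
    rw [e, qqn_neg, hY] at l1 l3
    refine ⟨l1, l3, ne_of_gt ?_⟩
    show 0 < c1n (x + u) + (fXS 22 3 25).v u b x
    linarith
  have eX : -sk1.xs.v u b x - c1n (x + u) = -(c1n (x + u) + sk1.xs.v u b x) := by ring
  have K3 : (∀ G ∈ cx_Bplk1, 0 < G.v u b x) → (pcB 1).K.v (-sk1.xs.v u b x - c1n (x + u)) y' x = ((c1n (x + u - b) + 1 / 2) * cG (x + u - b) + kcg.v (psn (x + u - b)) x) * -(x + u - b) - sK_Bplk1.v (c1n (x + u) + sk1.xs.v u b x) (1 - (x + u - b)) x * (c1n (x + u) + sk1.xs.v u b x - (c1n (x + u - b) + 1 / 2)) := fun hc => by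
    rw [eX, hY, (hF.odd q3 od.1 od.2.1 od.2.2).1, zKBplk1 hF x0 x1 h1 h2 h3 hb q3 hc]
    ring
  have L3 : (∀ G ∈ cx_Bplk1, 0 < G.v u b x) → (pcB 1).L.v (-sk1.xs.v u b x - c1n (x + u)) y' x = -(cQ x (x + u - b) (kcg.v (psn (x + u - b)) x) + sX_Bplk1.v (c1n (x + u) + sk1.xs.v u b x) (1 - (x + u - b)) x * (c1n (x + u) + sk1.xs.v u b x - (c1n (x + u - b) + 1 / 2))) := fun hc => by
    rw [eX, hY, (hF.odd q3 od.1 od.2.1 od.2.2).2, zLBplk1 hF x0 x1 h1 h2 h3 hb q3 hc]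
  have C3 : (∀ G ∈ cx_Bplk1, 0 < G.v u b x) → (scP esg pd 1).v (-sk1.xs.v u b x - c1n (x + u)) y' x = esn x * ((cP (x + u - b) + 1 / 2 * cD (x + u - b) - (cR (x + u - b) + 2 * c1n (x + u - b) + 1) * kcg.v (psn (x + u - b)) x) - ((T_Bplk1.b true).at_ u b x).it * sD_Bplk1.v (c1n (x + u) + sk1.xs.v u b x) (1 - (x + u - b)) x * (c1n (x + u) + sk1.xs.v u b x - (c1n (x + u - b) + 1 / 2))) := fun hc => by
    rw [eX, hY]
    show esg.v x * (pd 1).v (-(c1n (x + u) + sk1.xs.v u b x)) (1 - (x + u - b)) x = _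
    rw [esg_n, hU.odd q3 od.1 od.2.1 od.2.2, div_it' (zDBplk1 hF hU x0 x1 h1 h2 h3 hb q3 hc) hit]
  exact bothBp (T := T_Bplk1) (sk := sk_Bplk1) (cx := cx_Bplk1) (sk2 := sk_Bplk1) (cx2 := cx_Bplk1) D hb hκ hy hd hit t1 t3 hx hX (dc x0 x1) (by linarith) (by linarith) (by norm_num [T_Bplk1]) (by norm_num [T_Bplk1]) K5 hs K7 hs K1 (sk1K u hb qs (by linarith)) K3 L1 (sk1L u hb qs (by linarith)) L3 C1 (sk1C u hb qs (by linarith)) C3
theorem BE1_012 {x κ y y' : ℝ} (hF : SideOk PP tK tL pcB x) (hU : ThrOk PP tU pd x) (hκ : κ * h0 = ken x) (x0 : 1 / 2 ≤ x) (x1 : x ≤ 293668389 / 536870912)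
    (F : FactsB PP 0 1 2 0 1 1 (-1) y y') (h1 : |y - x| < 5 / 256) (h3 : |y' - (1 - x)| < 5 / 256) (h2 : |y + y' - 1| < 1 / 32) :
    DirEB (3 / 10) κ PP tK tL tC pcB (scP esg pd) 0 1 2 0 1 1 (-1) x y y' := by
  obtain ⟨u, rfl⟩ : ∃ u, y = x + u := ⟨y - x, by ring⟩
  obtain ⟨b, hy⟩ : ∃ b, y' = 1 + b - (x + u) := ⟨y' + (x + u) - 1, by ring⟩
  rw [show x + u - x = u by ring] at h1
  rw [show x + u + y' - 1 = b by rw [hy]; ring] at h2
  rw [show y' - (1 - x) = -(u - b) by rw [hy]; ring, abs_neg] at h3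
  obtain ⟨u1, u2⟩ := abs_lt.1 h1
  exact fE_Bplk1 hF hU hκ x0 x1 h1 h2 h3 hy F (t1_0 F.q1) (shK0 F.q1 (by linarith) (by linarith)) (shL0 F.q1 (by linarith) (by linarith)) (shC0 F.q1 (by linarith) (by linarith))
theorem molE_B_012_01_0 {κ x : ℝ} (hκ : κ * h0 = ken x) (hx : ((536870912 : ℕ) : ℝ) / S ≤ x) (hx' : x ≤ (((536870912 : ℕ) : ℝ) + (50465866 : ℕ)) / S) :
    AltEB 3 κ (eng.v x) (3 / 40) (tnt (h0 * x) (3 / 10)) PP tK tL tC pcB (scP esg pd) [⟨0, 0, 1, 20971520⟩, ⟨1, 1, 2, 20971520⟩, ⟨2, 1, 0, 33554432⟩] 0 1 2 0 1 (sgb true) (sgb false) x := by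
  obtain ⟨x0, x1⟩ := xr hx hx'
  exact altEB_s fun y y' F h1 h3 h2 => DirEB.st (eng_n x) (BE1_012 (sideB hx hx') (thrU hx hx') hκ x0 x1 F (h1.trans_eq (by norm_num)) (h3.trans_eq (by norm_num)) (h2.trans_eq (by norm_num)))
theorem BE1_112 {x κ y y' : ℝ} (hF : SideOk PP tK tL pcB x) (hU : ThrOk PP tU pd x) (hκ : κ * h0 = ken x) (x0 : 1 / 2 ≤ x) (x1 : x ≤ 293668389 / 536870912)
    (F : FactsB PP 1 1 2 0 1 1 (-1) y y') (h1 : |y - x| < 5 / 256) (h3 : |y' - (1 - x)| < 5 / 256) (h2 : |y + y' - 1| < 1 / 32) :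
    DirEB (3 / 10) κ PP tK tL tC pcB (scP esg pd) 1 1 2 0 1 1 (-1) x y y' := by
  obtain ⟨u, rfl⟩ : ∃ u, y = x + u := ⟨y - x, by ring⟩
  obtain ⟨b, hy⟩ : ∃ b, y' = 1 + b - (x + u) := ⟨y' + (x + u) - 1, by ring⟩
  rw [show x + u - x = u by ring] at h1
  rw [show x + u + y' - 1 = b by rw [hy]; ring] at h2
  rw [show y' - (1 - x) = -(u - b) by rw [hy]; ring, abs_neg] at h3
  obtain ⟨u1, u2⟩ := abs_lt.1 h1
  exact fE_Bplk1 hF hU hκ x0 x1 h1 h2 h3 hy F (t1_1 F.q1) (shK1 F.q1 (by linarith) (by linarith)) (shL1 F.q1 (by linarith) (by linarith)) (shC1 F.q1 (by linarith) (by linarith))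
theorem molE_B_112_01_0 {κ x : ℝ} (hκ : κ * h0 = ken x) (hx : ((536870912 : ℕ) : ℝ) / S ≤ x) (hx' : x ≤ (((536870912 : ℕ) : ℝ) + (50465866 : ℕ)) / S) :
    AltEB 3 κ (eng.v x) (3 / 40) (tnt (h0 * x) (3 / 10)) PP tK tL tC pcB (scP esg pd) [⟨0, 0, 1, 20971520⟩, ⟨1, 1, 2, 20971520⟩, ⟨2, 1, 0, 33554432⟩] 1 1 2 0 1 (sgb true) (sgb false) x := by
  obtain ⟨x0, x1⟩ := xr hx hx'
  exact altEB_s fun y y' F h1 h3 h2 => DirEB.st (eng_n x) (BE1_112 (sideB hx hx') (thrU hx hx') hκ x0 x1 F (h1.trans_eq (by norm_num)) (h3.trans_eq (by norm_num)) (h2.trans_eq (by norm_num)))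
theorem w_Bphk1 {u b x : ℝ} (x0 : 1 / 2 ≤ x) (x1 : x ≤ 293668389 / 536870912) (h1 : |u| < 5 / 256) (h2 : |b| < 1 / 32) (h3 : |u - b| < 5 / 256) (hb : 0 ≤ b) : c1n (x + u) + sk1.xs.v u b x ≤ (w3W true).v (1 - (x + u - b)) := by
  obtain ⟨u1, u2⟩ := abs_lt.1 h1
  obtain ⟨b1, b2⟩ := abs_lt.1 h2
  obtain ⟨v1, v2⟩ := abs_lt.1 h3
  have cm1 : (fXS 22 3 25).v u b x ≤ 1 / 2 := fXS_le (by norm_num) hb
  have cm2 : c1n (x + u) ≤ c1n (x + u - b) := c1n_le' (by linarith) (by linarith)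
  rw [w3W_B]
  show c1n (x + u) + (fXS 22 3 25).v u b x ≤ c1n (x + u - b) + 1 / 2
  linarith
theorem zKBphk1 {u b x : ℝ} (hF : SideOk PP tK tL pcB x) (x0 : 1 / 2 ≤ x) (x1 : x ≤ 293668389 / 536870912) (h1 : |u| < 5 / 256) (h2 : |b| < 1 / 32) (h3 : |u - b| < 5 / 256) (hb : 0 ≤ b) (q3 : InQ 0 (1 - (x + u - b)))
    (hc : ∀ G ∈ cx_Bphk1, 0 < G.v u b x) : (pcB 0).K.v (c1n (x + u) + sk1.xs.v u b x) (1 - (x + u - b)) x =
    -(((c1n (x + u - b) + 1 / 2) * cG (x + u - b) + kcg.v (psn (x + u - b)) x) * (1 - (x + u - b))) + sK_Bphk1.v (c1n (x + u) + sk1.xs.v u b x) (1 - (x + u - b)) x * (c1n (x + u) + sk1.xs.v u b x - (c1n (x + u - b) + 1 / 2)) := by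
  have hw := w_Bphk1 x0 x1 h1 h2 h3 hb
  obtain ⟨u1, u2⟩ := abs_lt.1 h1
  obtain ⟨b1, b2⟩ := abs_lt.1 h2
  obtain ⟨v1, v2⟩ := abs_lt.1 h3
  have y1 := q3.1
  have y2 := q3.2
  have c0 : 0 < (tCC (w3W true) cv3m).v (c1n (x + u) + sk1.xs.v u b x) (1 - (x + u - b)) x := hc (f3B sk1.xs (tCC (w3W true) cv3m)) (by unfold cx_Bphk1; simp only [List.mem_cons, true_or, or_true])
  have c1 : 0 < (tCC cv4m (w3W true)).v (c1n (x + u) + sk1.xs.v u b x) (1 - (x + u - b)) x := hc (f3B sk1.xs (tCC cv4m (w3W true))) (by unfold cx_Bphk1; simp only [List.mem_cons, true_or, or_true])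
  have c2 : 0 < (tXC cv3m).v (c1n (x + u) + sk1.xs.v u b x) (1 - (x + u - b)) x := hc (f3B sk1.xs (tXC cv3m)) (by unfold cx_Bphk1; simp only [List.mem_cons, true_or, or_true])
  refine (sKBphk1 hF q3 (by linarith) (by linarith) c0 c1 c2 hw).trans ?_
  rw [w3K_B, w3W_B]
  push_cast
  ring
theorem zLBphk1 {u b x : ℝ} (hF : SideOk PP tK tL pcB x) (x0 : 1 / 2 ≤ x) (x1 : x ≤ 293668389 / 536870912) (h1 : |u| < 5 / 256) (h2 : |b| < 1 / 32) (h3 : |u - b| < 5 / 256) (hb : 0 ≤ b) (q3 : InQ 0 (1 - (x + u - b)))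
    (hc : ∀ G ∈ cx_Bphk1, 0 < G.v u b x) : (pcB 0).L.v (c1n (x + u) + sk1.xs.v u b x) (1 - (x + u - b)) x =
    cQ x (x + u - b) (kcg.v (psn (x + u - b)) x) + sX_Bphk1.v (c1n (x + u) + sk1.xs.v u b x) (1 - (x + u - b)) x * (c1n (x + u) + sk1.xs.v u b x - (c1n (x + u - b) + 1 / 2)) := by
  have hw := w_Bphk1 x0 x1 h1 h2 h3 hb
  obtain ⟨u1, u2⟩ := abs_lt.1 h1
  obtain ⟨b1, b2⟩ := abs_lt.1 h2
  obtain ⟨v1, v2⟩ := abs_lt.1 h3
  have y1 := q3.1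
  have y2 := q3.2
  have c0 : 0 < (tCC (w3W true) cv3m).v (c1n (x + u) + sk1.xs.v u b x) (1 - (x + u - b)) x := hc (f3B sk1.xs (tCC (w3W true) cv3m)) (by unfold cx_Bphk1; simp only [List.mem_cons, true_or, or_true])
  have c1 : 0 < (tCC cv4m (w3W true)).v (c1n (x + u) + sk1.xs.v u b x) (1 - (x + u - b)) x := hc (f3B sk1.xs (tCC cv4m (w3W true))) (by unfold cx_Bphk1; simp only [List.mem_cons, true_or, or_true])
  have c2 : 0 < (tXC cv3m).v (c1n (x + u) + sk1.xs.v u b x) (1 - (x + u - b)) x := hc (f3B sk1.xs (tXC cv3m)) (by unfold cx_Bphk1; simp only [List.mem_cons, true_or, or_true])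
  refine (sLBphk1 hF q3 (by linarith) (by linarith) c0 c1 c2 hw).trans ?_
  rw [w3Q_B, w3W_B]
theorem zDBphk1 {u b x : ℝ} (hF : SideOk PP tK tL pcB x) (hU : ThrOk PP tU pd x) (x0 : 1 / 2 ≤ x) (x1 : x ≤ 293668389 / 536870912) (h1 : |u| < 5 / 256) (h2 : |b| < 1 / 32) (h3 : |u - b| < 5 / 256) (hb : 0 ≤ b) (q3 : InQ 0 (1 - (x + u - b)))
    (hc : ∀ G ∈ cx_Bphk1, 0 < G.v u b x) : (pd 0).v (c1n (x + u) + sk1.xs.v u b x) (1 - (x + u - b)) x * (1 - (x + u - b)) =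
    -((cP (x + u - b) + 1 / 2 * cD (x + u - b) - (cR (x + u - b) + 2 * c1n (x + u - b) + 1) * kcg.v (psn (x + u - b)) x) * (1 - (x + u - b))) + sD_Bphk1.v (c1n (x + u) + sk1.xs.v u b x) (1 - (x + u - b)) x * (c1n (x + u) + sk1.xs.v u b x - (c1n (x + u - b) + 1 / 2)) := by
  have hw := w_Bphk1 x0 x1 h1 h2 h3 hb
  obtain ⟨u1, u2⟩ := abs_lt.1 h1
  obtain ⟨b1, b2⟩ := abs_lt.1 h2
  obtain ⟨v1, v2⟩ := abs_lt.1 h3
  have y1 := q3.1
  have y2 := q3.2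
  have c0 : 0 < (tCC (w3W true) cv3m).v (c1n (x + u) + sk1.xs.v u b x) (1 - (x + u - b)) x := hc (f3B sk1.xs (tCC (w3W true) cv3m)) (by unfold cx_Bphk1; simp only [List.mem_cons, true_or, or_true])
  have c1 : 0 < (tCC cv4m (w3W true)).v (c1n (x + u) + sk1.xs.v u b x) (1 - (x + u - b)) x := hc (f3B sk1.xs (tCC cv4m (w3W true))) (by unfold cx_Bphk1; simp only [List.mem_cons, true_or, or_true])
  have c2 : 0 < (tXC cv3m).v (c1n (x + u) + sk1.xs.v u b x) (1 - (x + u - b)) x := hc (f3B sk1.xs (tXC cv3m)) (by unfold cx_Bphk1; simp only [List.mem_cons, true_or, or_true])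
  have e := sDBphk1 hF hU q3 (by linarith) (by linarith) c0 c1 c2 hw
  rw [w3D_B, w3W_B] at e
  push_cast at e
  linear_combination e
theorem fE_Bphk1 {a : ℕ} {x u b κ τ y' : ℝ} (hF : SideOk PP tK tL pcB x) (hU : ThrOk PP tU pd x) (hκ : κ * h0 = ken x)
    (x0 : 1 / 2 ≤ x) (x1 : x ≤ 293668389 / 536870912) (h1 : |u| < 5 / 256) (h2 : |b| < 1 / 32) (h3 : |u - b| < 5 / 256) (hy : y' = 1 + b - (x + u)) (F : FactsB PP a 0 2 0 1 1 (-1) (x + u) y')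
    (t1 : tau (h0 * (x + u)) = h0 * τ) (K1 : tK 0 a (x + u) x = (c1n (x + u) * cG (x + u) + kcg.v (psn (x + u)) x) * τ) (L1 : tL 0 a (x + u) x = cQ x (x + u) (kcg.v (psn (x + u)) x)) (C1 : tC 0 a (x + u) x = esn x * (cP (x + u) - (cR (x + u) + 2 * c1n (x + u)) * kcg.v (psn (x + u)) x)) :
    DirEB (3 / 10) κ PP tK tL tC pcB (scP esg pd) a 0 2 0 1 1 (-1) x (x + u) y' := by
  obtain ⟨u1, u2⟩ := abs_lt.1 h1
  obtain ⟨b1, b2⟩ := abs_lt.1 h2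
  obtain ⟨v1, v2⟩ := abs_lt.1 h3
  have e0 : x + u + y' = 1 + b := by rw [hy]; ring
  have qs : InQ 2 (1 + b) := e0 ▸ F.q3
  have hb : 0 ≤ b := by linarith [qs.1]
  have D : DomB u b x := ⟨by linarith, by linarith, by linarith, by linarith, by linarith, by linarith, by linarith, by linarith⟩
  have hY : y' = 1 - (x + u - b) := by rw [hy]; ring
  have q3 : InQ 0 (1 - (x + u - b)) := hY ▸ F.q2
  obtain ⟨p1, p2⟩ := psr (y := x + u) (by linarith) (by linarith)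
  obtain ⟨p3, p4⟩ := psr (y := x + u - b) (by linarith) (by linarith)
  have hd := dqBp (dq_t x) hb (by linarith) (by linarith) (by linarith) (by linarith) p1 p2 p3 p4
  have hs : ∀ G ∈ sk_Bphk1, G.v u b x ≤ 0 := skPMB (v := 20971520) (hi := true) (abs_le.2 ⟨by unfold S; norm_num; linarith, by unfold S; norm_num; linarith⟩) (by simp only [cond_true, cond_false]; linarith [q3.2])
  obtain ⟨r1, r2⟩ := rX x0 x1
  have K5 := Cht.cert (ng := false) (r := 20971520) ct_0Bphk1 (u := u) (b := b) (x := x) (by unfold S; norm_num; linarith) (by unfold S; norm_num; linarith) (by simp only [cond_true, cond_false]; linarith) (by simp only [cond_true, cond_false]; unfold S; norm_num; linarith) r1 r2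
  have K7 := Cht.cert (ng := false) (r := 20971520) ct_2Bphk1 (u := u) (b := b) (x := x) (by unfold S; norm_num; linarith) (by unfold S; norm_num; linarith) (by simp only [cond_true, cond_false]; linarith) (by simp only [cond_true, cond_false]; unfold S; norm_num; linarith) r1 r2
  have t3 := t3B0 F.q2 hy
  have hit : ((T_Bphk1.b true).at_ u b x).it * (1 - (x + u - b)) = 1 := by
    show (1 - (x + u - b))⁻¹ * _ = _
    exact inv_mul_cancel₀ (ne_of_gt (by linarith))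
  have hx : sk1.xs.v u b x = 1 / 2 + b * sk1.ws.v u b x := stK_x (by norm_num) (by linarith) (by linarith)
  have hX : crv PP 1 2 (1 + b) = sk1.xs.v u b x := sX1 u
  have od : 1 ≤ qqn (c1n (x + u) + sk1.xs.v u b x) (1 - (x + u - b)) ∧ qqn (c1n (x + u) + sk1.xs.v u b x) (1 - (x + u - b)) ≤ 3 ∧ c1n (x + u) + sk1.xs.v u b x ≠ 0 := by
    have l1 := F.len1
    have l3 := F.len3
    have cp := c1n_pos' (y := x + u) (by nlinarith)
    have cn : 0 ≤ (fXS 22 3 25).v u b x := fXS_nn hb (by linarith)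
    have e : -1 * crv PP 1 2 (x + u + y') - 1 * crv PP 0 a (x + u) = -(c1n (x + u) + sk1.xs.v u b x) := by
      rw [e0, hX, crv0]
      ring
    rw [e, qqn_neg, hY] at l1 l3
    refine ⟨l1, l3, ne_of_gt ?_⟩
    show 0 < c1n (x + u) + (fXS 22 3 25).v u b x
    linarith
  have eX : -sk1.xs.v u b x - c1n (x + u) = -(c1n (x + u) + sk1.xs.v u b x) := by ring
  have K3 : (∀ G ∈ cx_Bphk1, 0 < G.v u b x) → (pcB 0).K.v (-sk1.xs.v u b x - c1n (x + u)) y' x = ((c1n (x + u - b) + 1 / 2) * cG (x + u - b) + kcg.v (psn (x + u - b)) x) * (1 - (x + u - b)) - sK_Bphk1.v (c1n (x + u) + sk1.xs.v u b x) (1 - (x + u - b)) x * (c1n (x + u) + sk1.xs.v u b x - (c1n (x + u - b) + 1 / 2)) := fun hc => by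
    rw [eX, hY, (hF.odd q3 od.1 od.2.1 od.2.2).1, zKBphk1 hF x0 x1 h1 h2 h3 hb q3 hc]
    ring
  have L3 : (∀ G ∈ cx_Bphk1, 0 < G.v u b x) → (pcB 0).L.v (-sk1.xs.v u b x - c1n (x + u)) y' x = -(cQ x (x + u - b) (kcg.v (psn (x + u - b)) x) + sX_Bphk1.v (c1n (x + u) + sk1.xs.v u b x) (1 - (x + u - b)) x * (c1n (x + u) + sk1.xs.v u b x - (c1n (x + u - b) + 1 / 2))) := fun hc => by
    rw [eX, hY, (hF.odd q3 od.1 od.2.1 od.2.2).2, zLBphk1 hF x0 x1 h1 h2 h3 hb q3 hc]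
  have C3 : (∀ G ∈ cx_Bphk1, 0 < G.v u b x) → (scP esg pd 0).v (-sk1.xs.v u b x - c1n (x + u)) y' x = esn x * ((cP (x + u - b) + 1 / 2 * cD (x + u - b) - (cR (x + u - b) + 2 * c1n (x + u - b) + 1) * kcg.v (psn (x + u - b)) x) - ((T_Bphk1.b true).at_ u b x).it * sD_Bphk1.v (c1n (x + u) + sk1.xs.v u b x) (1 - (x + u - b)) x * (c1n (x + u) + sk1.xs.v u b x - (c1n (x + u - b) + 1 / 2))) := fun hc => by
    rw [eX, hY]
    show esg.v x * (pd 0).v (-(c1n (x + u) + sk1.xs.v u b x)) (1 - (x + u - b)) x = _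
    rw [esg_n, hU.odd q3 od.1 od.2.1 od.2.2, div_it' (zDBphk1 hF hU x0 x1 h1 h2 h3 hb q3 hc) hit]
  exact bothBp (T := T_Bphk1) (sk := sk_Bphk1) (cx := cx_Bphk1) (sk2 := sk_Bphk1) (cx2 := cx_Bphk1) D hb hκ hy hd hit t1 t3 hx hX (dc x0 x1) (by linarith) (by linarith) (by norm_num [T_Bphk1]) (by norm_num [T_Bphk1]) K5 hs K7 hs K1 (sk1K u hb qs (by linarith)) K3 L1 (sk1L u hb qs (by linarith)) L3 C1 (sk1C u hb qs (by linarith)) C3
theorem BE1_002 {x κ y y' : ℝ} (hF : SideOk PP tK tL pcB x) (hU : ThrOk PP tU pd x) (hκ : κ * h0 = ken x) (x0 : 1 / 2 ≤ x) (x1 : x ≤ 293668389 / 536870912)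
    (F : FactsB PP 0 0 2 0 1 1 (-1) y y') (h1 : |y - x| < 5 / 256) (h3 : |y' - (1 - x)| < 5 / 256) (h2 : |y + y' - 1| < 1 / 32) :
    DirEB (3 / 10) κ PP tK tL tC pcB (scP esg pd) 0 0 2 0 1 1 (-1) x y y' := by
  obtain ⟨u, rfl⟩ : ∃ u, y = x + u := ⟨y - x, by ring⟩
  obtain ⟨b, hy⟩ : ∃ b, y' = 1 + b - (x + u) := ⟨y' + (x + u) - 1, by ring⟩
  rw [show x + u - x = u by ring] at h1
  rw [show x + u + y' - 1 = b by rw [hy]; ring] at h2
  rw [show y' - (1 - x) = -(u - b) by rw [hy]; ring, abs_neg] at h3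
  obtain ⟨u1, u2⟩ := abs_lt.1 h1
  exact fE_Bphk1 hF hU hκ x0 x1 h1 h2 h3 hy F (t1_0 F.q1) (shK0 F.q1 (by linarith) (by linarith)) (shL0 F.q1 (by linarith) (by linarith)) (shC0 F.q1 (by linarith) (by linarith))
theorem molE_B_002_01_0 {κ x : ℝ} (hκ : κ * h0 = ken x) (hx : ((536870912 : ℕ) : ℝ) / S ≤ x) (hx' : x ≤ (((536870912 : ℕ) : ℝ) + (50465866 : ℕ)) / S) :
    AltEB 3 κ (eng.v x) (3 / 40) (tnt (h0 * x) (3 / 10)) PP tK tL tC pcB (scP esg pd) [⟨0, 0, 1, 20971520⟩, ⟨1, 1, 2, 20971520⟩, ⟨2, 1, 0, 33554432⟩] 0 0 2 0 1 (sgb true) (sgb false) x := by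
  obtain ⟨x0, x1⟩ := xr hx hx'
  exact altEB_s fun y y' F h1 h3 h2 => DirEB.st (eng_n x) (BE1_002 (sideB hx hx') (thrU hx hx') hκ x0 x1 F (h1.trans_eq (by norm_num)) (h3.trans_eq (by norm_num)) (h2.trans_eq (by norm_num)))
theorem BE1_102 {x κ y y' : ℝ} (hF : SideOk PP tK tL pcB x) (hU : ThrOk PP tU pd x) (hκ : κ * h0 = ken x) (x0 : 1 / 2 ≤ x) (x1 : x ≤ 293668389 / 536870912)
    (F : FactsB PP 1 0 2 0 1 1 (-1) y y') (h1 : |y - x| < 5 / 256) (h3 : |y' - (1 - x)| < 5 / 256) (h2 : |y + y' - 1| < 1 / 32) :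
    DirEB (3 / 10) κ PP tK tL tC pcB (scP esg pd) 1 0 2 0 1 1 (-1) x y y' := by
  obtain ⟨u, rfl⟩ : ∃ u, y = x + u := ⟨y - x, by ring⟩
  obtain ⟨b, hy⟩ : ∃ b, y' = 1 + b - (x + u) := ⟨y' + (x + u) - 1, by ring⟩
  rw [show x + u - x = u by ring] at h1
  rw [show x + u + y' - 1 = b by rw [hy]; ring] at h2
  rw [show y' - (1 - x) = -(u - b) by rw [hy]; ring, abs_neg] at h3
  obtain ⟨u1, u2⟩ := abs_lt.1 h1
  exact fE_Bphk1 hF hU hκ x0 x1 h1 h2 h3 hy F (t1_1 F.q1) (shK1 F.q1 (by linarith) (by linarith)) (shL1 F.q1 (by linarith) (by linarith)) (shC1 F.q1 (by linarith) (by linarith))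
theorem molE_B_102_01_0 {κ x : ℝ} (hκ : κ * h0 = ken x) (hx : ((536870912 : ℕ) : ℝ) / S ≤ x) (hx' : x ≤ (((536870912 : ℕ) : ℝ) + (50465866 : ℕ)) / S) :
    AltEB 3 κ (eng.v x) (3 / 40) (tnt (h0 * x) (3 / 10)) PP tK tL tC pcB (scP esg pd) [⟨0, 0, 1, 20971520⟩, ⟨1, 1, 2, 20971520⟩, ⟨2, 1, 0, 33554432⟩] 1 0 2 0 1 (sgb true) (sgb false) x := by
  obtain ⟨x0, x1⟩ := xr hx hx'
  exact altEB_s fun y y' F h1 h3 h2 => DirEB.st (eng_n x) (BE1_102 (sideB hx hx') (thrU hx hx') hκ x0 x1 F (h1.trans_eq (by norm_num)) (h3.trans_eq (by norm_num)) (h2.trans_eq (by norm_num)))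
theorem w_Bplk2 {u b x : ℝ} (x0 : 1 / 2 ≤ x) (x1 : x ≤ 293668389 / 536870912) (h1 : |u| < 5 / 256) (h2 : |b| < 1 / 32) (h3 : |u - b| < 5 / 256) (hb : 0 ≤ b) : c1n (x + u) + sk2.xs.v u b x ≤ (w3W true).v (1 - (x + u - b)) := by
  obtain ⟨u1, u2⟩ := abs_lt.1 h1
  obtain ⟨b1, b2⟩ := abs_lt.1 h2
  obtain ⟨v1, v2⟩ := abs_lt.1 h3
  have cm1 : (fXS 3 2 5).v u b x ≤ 1 / 2 := fXS_le (by norm_num) hb
  have cm2 : c1n (x + u) ≤ c1n (x + u - b) := c1n_le' (by linarith) (by linarith)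
  rw [w3W_B]
  show c1n (x + u) + (fXS 3 2 5).v u b x ≤ c1n (x + u - b) + 1 / 2
  linarith
theorem zKBplk2 {u b x : ℝ} (hF : SideOk PP tK tL pcB x) (x0 : 1 / 2 ≤ x) (x1 : x ≤ 293668389 / 536870912) (h1 : |u| < 5 / 256) (h2 : |b| < 1 / 32) (h3 : |u - b| < 5 / 256) (hb : 0 ≤ b) (q3 : InQ 1 (1 - (x + u - b)))
    (hc : ∀ G ∈ cx_Bplk2, 0 < G.v u b x) : (pcB 1).K.v (c1n (x + u) + sk2.xs.v u b x) (1 - (x + u - b)) x =
    -(((c1n (x + u - b) + 1 / 2) * cG (x + u - b) + kcg.v (psn (x + u - b)) x) * -(x + u - b)) + sK_Bplk2.v (c1n (x + u) + sk2.xs.v u b x) (1 - (x + u - b)) x * (c1n (x + u) + sk2.xs.v u b x - (c1n (x + u - b) + 1 / 2)) := by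
  have hw := w_Bplk2 x0 x1 h1 h2 h3 hb
  obtain ⟨u1, u2⟩ := abs_lt.1 h1
  obtain ⟨b1, b2⟩ := abs_lt.1 h2
  obtain ⟨v1, v2⟩ := abs_lt.1 h3
  have y1 := q3.1
  have y2 := q3.2
  have c0 : 0 < (tCC (w3W true) cv3m).v (c1n (x + u) + sk2.xs.v u b x) (1 - (x + u - b)) x := hc (f3B sk2.xs (tCC (w3W true) cv3m)) (by unfold cx_Bplk2; simp only [List.mem_cons, true_or, or_true])
  have c1 : 0 < (tCC cv4m (w3W true)).v (c1n (x + u) + sk2.xs.v u b x) (1 - (x + u - b)) x := hc (f3B sk2.xs (tCC cv4m (w3W true))) (by unfold cx_Bplk2; simp only [List.mem_cons, true_or, or_true])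
  have c2 : 0 < (tXC cv3m).v (c1n (x + u) + sk2.xs.v u b x) (1 - (x + u - b)) x := hc (f3B sk2.xs (tXC cv3m)) (by unfold cx_Bplk2; simp only [List.mem_cons, true_or, or_true])
  refine (sKBplk2 hF q3 (by linarith) (by linarith) c0 c1 c2 hw).trans ?_
  rw [w3K_B, w3W_B]
  push_cast
  ring
theorem zLBplk2 {u b x : ℝ} (hF : SideOk PP tK tL pcB x) (x0 : 1 / 2 ≤ x) (x1 : x ≤ 293668389 / 536870912) (h1 : |u| < 5 / 256) (h2 : |b| < 1 / 32) (h3 : |u - b| < 5 / 256) (hb : 0 ≤ b) (q3 : InQ 1 (1 - (x + u - b)))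
    (hc : ∀ G ∈ cx_Bplk2, 0 < G.v u b x) : (pcB 1).L.v (c1n (x + u) + sk2.xs.v u b x) (1 - (x + u - b)) x =
    cQ x (x + u - b) (kcg.v (psn (x + u - b)) x) + sX_Bplk2.v (c1n (x + u) + sk2.xs.v u b x) (1 - (x + u - b)) x * (c1n (x + u) + sk2.xs.v u b x - (c1n (x + u - b) + 1 / 2)) := by
  have hw := w_Bplk2 x0 x1 h1 h2 h3 hb
  obtain ⟨u1, u2⟩ := abs_lt.1 h1
  obtain ⟨b1, b2⟩ := abs_lt.1 h2
  obtain ⟨v1, v2⟩ := abs_lt.1 h3
  have y1 := q3.1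
  have y2 := q3.2
  have c0 : 0 < (tCC (w3W true) cv3m).v (c1n (x + u) + sk2.xs.v u b x) (1 - (x + u - b)) x := hc (f3B sk2.xs (tCC (w3W true) cv3m)) (by unfold cx_Bplk2; simp only [List.mem_cons, true_or, or_true])
  have c1 : 0 < (tCC cv4m (w3W true)).v (c1n (x + u) + sk2.xs.v u b x) (1 - (x + u - b)) x := hc (f3B sk2.xs (tCC cv4m (w3W true))) (by unfold cx_Bplk2; simp only [List.mem_cons, true_or, or_true])
  have c2 : 0 < (tXC cv3m).v (c1n (x + u) + sk2.xs.v u b x) (1 - (x + u - b)) x := hc (f3B sk2.xs (tXC cv3m)) (by unfold cx_Bplk2; simp only [List.mem_cons, true_or, or_true])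
  refine (sLBplk2 hF q3 (by linarith) (by linarith) c0 c1 c2 hw).trans ?_
  rw [w3Q_B, w3W_B]
theorem zDBplk2 {u b x : ℝ} (hF : SideOk PP tK tL pcB x) (hU : ThrOk PP tU pd x) (x0 : 1 / 2 ≤ x) (x1 : x ≤ 293668389 / 536870912) (h1 : |u| < 5 / 256) (h2 : |b| < 1 / 32) (h3 : |u - b| < 5 / 256) (hb : 0 ≤ b) (q3 : InQ 1 (1 - (x + u - b)))
    (hc : ∀ G ∈ cx_Bplk2, 0 < G.v u b x) : (pd 1).v (c1n (x + u) + sk2.xs.v u b x) (1 - (x + u - b)) x * -(x + u - b) =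
    -((cP (x + u - b) + 1 / 2 * cD (x + u - b) - (cR (x + u - b) + 2 * c1n (x + u - b) + 1) * kcg.v (psn (x + u - b)) x) * -(x + u - b)) + sD_Bplk2.v (c1n (x + u) + sk2.xs.v u b x) (1 - (x + u - b)) x * (c1n (x + u) + sk2.xs.v u b x - (c1n (x + u - b) + 1 / 2)) := by
  have hw := w_Bplk2 x0 x1 h1 h2 h3 hb
  obtain ⟨u1, u2⟩ := abs_lt.1 h1
  obtain ⟨b1, b2⟩ := abs_lt.1 h2
  obtain ⟨v1, v2⟩ := abs_lt.1 h3
  have y1 := q3.1
  have y2 := q3.2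
  have c0 : 0 < (tCC (w3W true) cv3m).v (c1n (x + u) + sk2.xs.v u b x) (1 - (x + u - b)) x := hc (f3B sk2.xs (tCC (w3W true) cv3m)) (by unfold cx_Bplk2; simp only [List.mem_cons, true_or, or_true])
  have c1 : 0 < (tCC cv4m (w3W true)).v (c1n (x + u) + sk2.xs.v u b x) (1 - (x + u - b)) x := hc (f3B sk2.xs (tCC cv4m (w3W true))) (by unfold cx_Bplk2; simp only [List.mem_cons, true_or, or_true])
  have c2 : 0 < (tXC cv3m).v (c1n (x + u) + sk2.xs.v u b x) (1 - (x + u - b)) x := hc (f3B sk2.xs (tXC cv3m)) (by unfold cx_Bplk2; simp only [List.mem_cons, true_or, or_true])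
  have e := sDBplk2 hF hU q3 (by linarith) (by linarith) c0 c1 c2 hw
  rw [w3D_B, w3W_B] at e
  push_cast at e
  linear_combination e
theorem fE_Bplk2 {a : ℕ} {x u b κ τ y' : ℝ} (hF : SideOk PP tK tL pcB x) (hU : ThrOk PP tU pd x) (hκ : κ * h0 = ken x)
    (x0 : 1 / 2 ≤ x) (x1 : x ≤ 293668389 / 536870912) (h1 : |u| < 5 / 256) (h2 : |b| < 1 / 32) (h3 : |u - b| < 5 / 256) (hy : y' = 1 + b - (x + u)) (F : FactsB PP a 1 2 0 2 1 (-1) (x + u) y')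
    (t1 : tau (h0 * (x + u)) = h0 * τ) (K1 : tK 0 a (x + u) x = (c1n (x + u) * cG (x + u) + kcg.v (psn (x + u)) x) * τ) (L1 : tL 0 a (x + u) x = cQ x (x + u) (kcg.v (psn (x + u)) x)) (C1 : tC 0 a (x + u) x = esn x * (cP (x + u) - (cR (x + u) + 2 * c1n (x + u)) * kcg.v (psn (x + u)) x)) :
    DirEB (3 / 10) κ PP tK tL tC pcB (scP esg pd) a 1 2 0 2 1 (-1) x (x + u) y' := by
  obtain ⟨u1, u2⟩ := abs_lt.1 h1
  obtain ⟨b1, b2⟩ := abs_lt.1 h2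
  obtain ⟨v1, v2⟩ := abs_lt.1 h3
  have e0 : x + u + y' = 1 + b := by rw [hy]; ring
  have qs : InQ 2 (1 + b) := e0 ▸ F.q3
  have hb : 0 ≤ b := by linarith [qs.1]
  have D : DomB u b x := ⟨by linarith, by linarith, by linarith, by linarith, by linarith, by linarith, by linarith, by linarith⟩
  have hY : y' = 1 - (x + u - b) := by rw [hy]; ring
  have q3 : InQ 1 (1 - (x + u - b)) := hY ▸ F.q2
  obtain ⟨p1, p2⟩ := psr (y := x + u) (by linarith) (by linarith)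
  obtain ⟨p3, p4⟩ := psr (y := x + u - b) (by linarith) (by linarith)
  have hd := dqBp (dq_t x) hb (by linarith) (by linarith) (by linarith) (by linarith) p1 p2 p3 p4
  have hs : ∀ G ∈ sk_Bplk2, G.v u b x ≤ 0 := skPMB (v := 20971520) (hi := false) (abs_le.2 ⟨by unfold S; norm_num; linarith, by unfold S; norm_num; linarith⟩) (by simp only [cond_true, cond_false]; linarith [q3.1])
  obtain ⟨r1, r2⟩ := rX x0 x1
  have K5 := Cht.cert (ng := false) (r := 20971520) ct_0Bplk2 (u := u) (b := b) (x := x) (by unfold S; norm_num; linarith) (by unfold S; norm_num; linarith) (by simp only [cond_true, cond_false]; linarith) (by simp only [cond_true, cond_false]; unfold S; norm_num; linarith) r1 r2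
  have K7 := Cht.cert (ng := false) (r := 20971520) ct_2Bplk2 (u := u) (b := b) (x := x) (by unfold S; norm_num; linarith) (by unfold S; norm_num; linarith) (by simp only [cond_true, cond_false]; linarith) (by simp only [cond_true, cond_false]; unfold S; norm_num; linarith) r1 r2
  have t3 := t3B1 F.q2 hy
  have hit : ((T_Bplk2.b true).at_ u b x).it * -(x + u - b) = 1 := by
    show -(x + u - b)⁻¹ * _ = _
    rw [neg_mul_neg]
    exact inv_mul_cancel₀ (ne_of_gt (by linarith))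
  have hx : sk2.xs.v u b x = 1 / 2 + b * sk2.ws.v u b x := stK_x (by norm_num) (by linarith) (by linarith)
  have hX : crv PP 2 2 (1 + b) = sk2.xs.v u b x := sX2 u
  have od : 1 ≤ qqn (c1n (x + u) + sk2.xs.v u b x) (1 - (x + u - b)) ∧ qqn (c1n (x + u) + sk2.xs.v u b x) (1 - (x + u - b)) ≤ 3 ∧ c1n (x + u) + sk2.xs.v u b x ≠ 0 := by
    have l1 := F.len1
    have l3 := F.len3
    have cp := c1n_pos' (y := x + u) (by nlinarith)
    have cn : 0 ≤ (fXS 3 2 5).v u b x := fXS_nn hb (by linarith)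
    have e : -1 * crv PP 2 2 (x + u + y') - 1 * crv PP 0 a (x + u) = -(c1n (x + u) + sk2.xs.v u b x) := by
      rw [e0, hX, crv0]
      ring
    rw [e, qqn_neg, hY] at l1 l3
    refine ⟨l1, l3, ne_of_gt ?_⟩
    show 0 < c1n (x + u) + (fXS 3 2 5).v u b x
    linarith
  have eX : -sk2.xs.v u b x - c1n (x + u) = -(c1n (x + u) + sk2.xs.v u b x) := by ring
  have K3 : (∀ G ∈ cx_Bplk2, 0 < G.v u b x) → (pcB 1).K.v (-sk2.xs.v u b x - c1n (x + u)) y' x = ((c1n (x + u - b) + 1 / 2) * cG (x + u - b) + kcg.v (psn (x + u - b)) x) * -(x + u - b) - sK_Bplk2.v (c1n (x + u) + sk2.xs.v u b x) (1 - (x + u - b)) x * (c1n (x + u) + sk2.xs.v u b x - (c1n (x + u - b) + 1 / 2)) := fun hc => by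
    rw [eX, hY, (hF.odd q3 od.1 od.2.1 od.2.2).1, zKBplk2 hF x0 x1 h1 h2 h3 hb q3 hc]
    ring
  have L3 : (∀ G ∈ cx_Bplk2, 0 < G.v u b x) → (pcB 1).L.v (-sk2.xs.v u b x - c1n (x + u)) y' x = -(cQ x (x + u - b) (kcg.v (psn (x + u - b)) x) + sX_Bplk2.v (c1n (x + u) + sk2.xs.v u b x) (1 - (x + u - b)) x * (c1n (x + u) + sk2.xs.v u b x - (c1n (x + u - b) + 1 / 2))) := fun hc => by
    rw [eX, hY, (hF.odd q3 od.1 od.2.1 od.2.2).2, zLBplk2 hF x0 x1 h1 h2 h3 hb q3 hc]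
  have C3 : (∀ G ∈ cx_Bplk2, 0 < G.v u b x) → (scP esg pd 1).v (-sk2.xs.v u b x - c1n (x + u)) y' x = esn x * ((cP (x + u - b) + 1 / 2 * cD (x + u - b) - (cR (x + u - b) + 2 * c1n (x + u - b) + 1) * kcg.v (psn (x + u - b)) x) - ((T_Bplk2.b true).at_ u b x).it * sD_Bplk2.v (c1n (x + u) + sk2.xs.v u b x) (1 - (x + u - b)) x * (c1n (x + u) + sk2.xs.v u b x - (c1n (x + u - b) + 1 / 2))) := fun hc => by
    rw [eX, hY]
    show esg.v x * (pd 1).v (-(c1n (x + u) + sk2.xs.v u b x)) (1 - (x + u - b)) x = _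
    rw [esg_n, hU.odd q3 od.1 od.2.1 od.2.2, div_it' (zDBplk2 hF hU x0 x1 h1 h2 h3 hb q3 hc) hit]
  exact bothBp (T := T_Bplk2) (sk := sk_Bplk2) (cx := cx_Bplk2) (sk2 := sk_Bplk2) (cx2 := cx_Bplk2) D hb hκ hy hd hit t1 t3 hx hX (dc x0 x1) (by linarith) (by linarith) (by norm_num [T_Bplk2]) (by norm_num [T_Bplk2]) K5 hs K7 hs K1 (sk2K u hb qs (by linarith)) K3 L1 (sk2L u hb qs (by linarith)) L3 C1 (sk2C u hb qs (by linarith)) C3
theorem BE2_012 {x κ y y' : ℝ} (hF : SideOk PP tK tL pcB x) (hU : ThrOk PP tU pd x) (hκ : κ * h0 = ken x) (x0 : 1 / 2 ≤ x) (x1 : x ≤ 293668389 / 536870912)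
    (F : FactsB PP 0 1 2 0 2 1 (-1) y y') (h1 : |y - x| < 5 / 256) (h3 : |y' - (1 - x)| < 5 / 256) (h2 : |y + y' - 1| < 1 / 32) :
    DirEB (3 / 10) κ PP tK tL tC pcB (scP esg pd) 0 1 2 0 2 1 (-1) x y y' := by
  obtain ⟨u, rfl⟩ : ∃ u, y = x + u := ⟨y - x, by ring⟩
  obtain ⟨b, hy⟩ : ∃ b, y' = 1 + b - (x + u) := ⟨y' + (x + u) - 1, by ring⟩
  rw [show x + u - x = u by ring] at h1
  rw [show x + u + y' - 1 = b by rw [hy]; ring] at h2
  rw [show y' - (1 - x) = -(u - b) by rw [hy]; ring, abs_neg] at h3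
  obtain ⟨u1, u2⟩ := abs_lt.1 h1
  exact fE_Bplk2 hF hU hκ x0 x1 h1 h2 h3 hy F (t1_0 F.q1) (shK0 F.q1 (by linarith) (by linarith)) (shL0 F.q1 (by linarith) (by linarith)) (shC0 F.q1 (by linarith) (by linarith))
theorem molE_B_012_02_0 {κ x : ℝ} (hκ : κ * h0 = ken x) (hx : ((536870912 : ℕ) : ℝ) / S ≤ x) (hx' : x ≤ (((536870912 : ℕ) : ℝ) + (50465866 : ℕ)) / S) :
    AltEB 3 κ (eng.v x) (3 / 40) (tnt (h0 * x) (3 / 10)) PP tK tL tC pcB (scP esg pd) [⟨0, 0, 1, 20971520⟩, ⟨1, 1, 2, 20971520⟩, ⟨2, 1, 0, 33554432⟩] 0 1 2 0 2 (sgb true) (sgb false) x := by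
  obtain ⟨x0, x1⟩ := xr hx hx'
  exact altEB_s fun y y' F h1 h3 h2 => DirEB.st (eng_n x) (BE2_012 (sideB hx hx') (thrU hx hx') hκ x0 x1 F (h1.trans_eq (by norm_num)) (h3.trans_eq (by norm_num)) (h2.trans_eq (by norm_num)))
theorem BE2_112 {x κ y y' : ℝ} (hF : SideOk PP tK tL pcB x) (hU : ThrOk PP tU pd x) (hκ : κ * h0 = ken x) (x0 : 1 / 2 ≤ x) (x1 : x ≤ 293668389 / 536870912)
    (F : FactsB PP 1 1 2 0 2 1 (-1) y y') (h1 : |y - x| < 5 / 256) (h3 : |y' - (1 - x)| < 5 / 256) (h2 : |y + y' - 1| < 1 / 32) :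
    DirEB (3 / 10) κ PP tK tL tC pcB (scP esg pd) 1 1 2 0 2 1 (-1) x y y' := by
  obtain ⟨u, rfl⟩ : ∃ u, y = x + u := ⟨y - x, by ring⟩
  obtain ⟨b, hy⟩ : ∃ b, y' = 1 + b - (x + u) := ⟨y' + (x + u) - 1, by ring⟩
  rw [show x + u - x = u by ring] at h1
  rw [show x + u + y' - 1 = b by rw [hy]; ring] at h2
  rw [show y' - (1 - x) = -(u - b) by rw [hy]; ring, abs_neg] at h3
  obtain ⟨u1, u2⟩ := abs_lt.1 h1
  exact fE_Bplk2 hF hU hκ x0 x1 h1 h2 h3 hy F (t1_1 F.q1) (shK1 F.q1 (by linarith) (by linarith)) (shL1 F.q1 (by linarith) (by linarith)) (shC1 F.q1 (by linarith) (by linarith))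
theorem molE_B_112_02_0 {κ x : ℝ} (hκ : κ * h0 = ken x) (hx : ((536870912 : ℕ) : ℝ) / S ≤ x) (hx' : x ≤ (((536870912 : ℕ) : ℝ) + (50465866 : ℕ)) / S) :
    AltEB 3 κ (eng.v x) (3 / 40) (tnt (h0 * x) (3 / 10)) PP tK tL tC pcB (scP esg pd) [⟨0, 0, 1, 20971520⟩, ⟨1, 1, 2, 20971520⟩, ⟨2, 1, 0, 33554432⟩] 1 1 2 0 2 (sgb true) (sgb false) x := by
  obtain ⟨x0, x1⟩ := xr hx hx'
  exact altEB_s fun y y' F h1 h3 h2 => DirEB.st (eng_n x) (BE2_112 (sideB hx hx') (thrU hx hx') hκ x0 x1 F (h1.trans_eq (by norm_num)) (h3.trans_eq (by norm_num)) (h2.trans_eq (by norm_num)))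
theorem w_Bphk2 {u b x : ℝ} (x0 : 1 / 2 ≤ x) (x1 : x ≤ 293668389 / 536870912) (h1 : |u| < 5 / 256) (h2 : |b| < 1 / 32) (h3 : |u - b| < 5 / 256) (hb : 0 ≤ b) : c1n (x + u) + sk2.xs.v u b x ≤ (w3W true).v (1 - (x + u - b)) := by
  obtain ⟨u1, u2⟩ := abs_lt.1 h1
  obtain ⟨b1, b2⟩ := abs_lt.1 h2
  obtain ⟨v1, v2⟩ := abs_lt.1 h3
  have cm1 : (fXS 3 2 5).v u b x ≤ 1 / 2 := fXS_le (by norm_num) hb
  have cm2 : c1n (x + u) ≤ c1n (x + u - b) := c1n_le' (by linarith) (by linarith)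
  rw [w3W_B]
  show c1n (x + u) + (fXS 3 2 5).v u b x ≤ c1n (x + u - b) + 1 / 2
  linarith
theorem zKBphk2 {u b x : ℝ} (hF : SideOk PP tK tL pcB x) (x0 : 1 / 2 ≤ x) (x1 : x ≤ 293668389 / 536870912) (h1 : |u| < 5 / 256) (h2 : |b| < 1 / 32) (h3 : |u - b| < 5 / 256) (hb : 0 ≤ b) (q3 : InQ 0 (1 - (x + u - b)))
    (hc : ∀ G ∈ cx_Bphk2, 0 < G.v u b x) : (pcB 0).K.v (c1n (x + u) + sk2.xs.v u b x) (1 - (x + u - b)) x =
    -(((c1n (x + u - b) + 1 / 2) * cG (x + u - b) + kcg.v (psn (x + u - b)) x) * (1 - (x + u - b))) + sK_Bphk2.v (c1n (x + u) + sk2.xs.v u b x) (1 - (x + u - b)) x * (c1n (x + u) + sk2.xs.v u b x - (c1n (x + u - b) + 1 / 2)) := by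
  have hw := w_Bphk2 x0 x1 h1 h2 h3 hb
  obtain ⟨u1, u2⟩ := abs_lt.1 h1
  obtain ⟨b1, b2⟩ := abs_lt.1 h2
  obtain ⟨v1, v2⟩ := abs_lt.1 h3
  have y1 := q3.1
  have y2 := q3.2
  have c0 : 0 < (tCC (w3W true) cv3m).v (c1n (x + u) + sk2.xs.v u b x) (1 - (x + u - b)) x := hc (f3B sk2.xs (tCC (w3W true) cv3m)) (by unfold cx_Bphk2; simp only [List.mem_cons, true_or, or_true])
  have c1 : 0 < (tCC cv4m (w3W true)).v (c1n (x + u) + sk2.xs.v u b x) (1 - (x + u - b)) x := hc (f3B sk2.xs (tCC cv4m (w3W true))) (by unfold cx_Bphk2; simp only [List.mem_cons, true_or, or_true])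
  have c2 : 0 < (tXC cv3m).v (c1n (x + u) + sk2.xs.v u b x) (1 - (x + u - b)) x := hc (f3B sk2.xs (tXC cv3m)) (by unfold cx_Bphk2; simp only [List.mem_cons, true_or, or_true])
  refine (sKBphk2 hF q3 (by linarith) (by linarith) c0 c1 c2 hw).trans ?_
  rw [w3K_B, w3W_B]
  push_cast
  ring
theorem zLBphk2 {u b x : ℝ} (hF : SideOk PP tK tL pcB x) (x0 : 1 / 2 ≤ x) (x1 : x ≤ 293668389 / 536870912) (h1 : |u| < 5 / 256) (h2 : |b| < 1 / 32) (h3 : |u - b| < 5 / 256) (hb : 0 ≤ b) (q3 : InQ 0 (1 - (x + u - b)))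
    (hc : ∀ G ∈ cx_Bphk2, 0 < G.v u b x) : (pcB 0).L.v (c1n (x + u) + sk2.xs.v u b x) (1 - (x + u - b)) x =
    cQ x (x + u - b) (kcg.v (psn (x + u - b)) x) + sX_Bphk2.v (c1n (x + u) + sk2.xs.v u b x) (1 - (x + u - b)) x * (c1n (x + u) + sk2.xs.v u b x - (c1n (x + u - b) + 1 / 2)) := by
  have hw := w_Bphk2 x0 x1 h1 h2 h3 hb
  obtain ⟨u1, u2⟩ := abs_lt.1 h1
  obtain ⟨b1, b2⟩ := abs_lt.1 h2
  obtain ⟨v1, v2⟩ := abs_lt.1 h3
  have y1 := q3.1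
  have y2 := q3.2
  have c0 : 0 < (tCC (w3W true) cv3m).v (c1n (x + u) + sk2.xs.v u b x) (1 - (x + u - b)) x := hc (f3B sk2.xs (tCC (w3W true) cv3m)) (by unfold cx_Bphk2; simp only [List.mem_cons, true_or, or_true])
  have c1 : 0 < (tCC cv4m (w3W true)).v (c1n (x + u) + sk2.xs.v u b x) (1 - (x + u - b)) x := hc (f3B sk2.xs (tCC cv4m (w3W true))) (by unfold cx_Bphk2; simp only [List.mem_cons, true_or, or_true])
  have c2 : 0 < (tXC cv3m).v (c1n (x + u) + sk2.xs.v u b x) (1 - (x + u - b)) x := hc (f3B sk2.xs (tXC cv3m)) (by unfold cx_Bphk2; simp only [List.mem_cons, true_or, or_true])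
  refine (sLBphk2 hF q3 (by linarith) (by linarith) c0 c1 c2 hw).trans ?_
  rw [w3Q_B, w3W_B]
theorem zDBphk2 {u b x : ℝ} (hF : SideOk PP tK tL pcB x) (hU : ThrOk PP tU pd x) (x0 : 1 / 2 ≤ x) (x1 : x ≤ 293668389 / 536870912) (h1 : |u| < 5 / 256) (h2 : |b| < 1 / 32) (h3 : |u - b| < 5 / 256) (hb : 0 ≤ b) (q3 : InQ 0 (1 - (x + u - b)))
    (hc : ∀ G ∈ cx_Bphk2, 0 < G.v u b x) : (pd 0).v (c1n (x + u) + sk2.xs.v u b x) (1 - (x + u - b)) x * (1 - (x + u - b)) =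
    -((cP (x + u - b) + 1 / 2 * cD (x + u - b) - (cR (x + u - b) + 2 * c1n (x + u - b) + 1) * kcg.v (psn (x + u - b)) x) * (1 - (x + u - b))) + sD_Bphk2.v (c1n (x + u) + sk2.xs.v u b x) (1 - (x + u - b)) x * (c1n (x + u) + sk2.xs.v u b x - (c1n (x + u - b) + 1 / 2)) := by
  have hw := w_Bphk2 x0 x1 h1 h2 h3 hb
  obtain ⟨u1, u2⟩ := abs_lt.1 h1
  obtain ⟨b1, b2⟩ := abs_lt.1 h2
  obtain ⟨v1, v2⟩ := abs_lt.1 h3
  have y1 := q3.1
  have y2 := q3.2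
  have c0 : 0 < (tCC (w3W true) cv3m).v (c1n (x + u) + sk2.xs.v u b x) (1 - (x + u - b)) x := hc (f3B sk2.xs (tCC (w3W true) cv3m)) (by unfold cx_Bphk2; simp only [List.mem_cons, true_or, or_true])
  have c1 : 0 < (tCC cv4m (w3W true)).v (c1n (x + u) + sk2.xs.v u b x) (1 - (x + u - b)) x := hc (f3B sk2.xs (tCC cv4m (w3W true))) (by unfold cx_Bphk2; simp only [List.mem_cons, true_or, or_true])
  have c2 : 0 < (tXC cv3m).v (c1n (x + u) + sk2.xs.v u b x) (1 - (x + u - b)) x := hc (f3B sk2.xs (tXC cv3m)) (by unfold cx_Bphk2; simp only [List.mem_cons, true_or, or_true])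
  have e := sDBphk2 hF hU q3 (by linarith) (by linarith) c0 c1 c2 hw
  rw [w3D_B, w3W_B] at e
  push_cast at e
  linear_combination e
theorem fE_Bphk2 {a : ℕ} {x u b κ τ y' : ℝ} (hF : SideOk PP tK tL pcB x) (hU : ThrOk PP tU pd x) (hκ : κ * h0 = ken x)
    (x0 : 1 / 2 ≤ x) (x1 : x ≤ 293668389 / 536870912) (h1 : |u| < 5 / 256) (h2 : |b| < 1 / 32) (h3 : |u - b| < 5 / 256) (hy : y' = 1 + b - (x + u)) (F : FactsB PP a 0 2 0 2 1 (-1) (x + u) y')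
    (t1 : tau (h0 * (x + u)) = h0 * τ) (K1 : tK 0 a (x + u) x = (c1n (x + u) * cG (x + u) + kcg.v (psn (x + u)) x) * τ) (L1 : tL 0 a (x + u) x = cQ x (x + u) (kcg.v (psn (x + u)) x)) (C1 : tC 0 a (x + u) x = esn x * (cP (x + u) - (cR (x + u) + 2 * c1n (x + u)) * kcg.v (psn (x + u)) x)) :
    DirEB (3 / 10) κ PP tK tL tC pcB (scP esg pd) a 0 2 0 2 1 (-1) x (x + u) y' := by
  obtain ⟨u1, u2⟩ := abs_lt.1 h1
  obtain ⟨b1, b2⟩ := abs_lt.1 h2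
  obtain ⟨v1, v2⟩ := abs_lt.1 h3
  have e0 : x + u + y' = 1 + b := by rw [hy]; ring
  have qs : InQ 2 (1 + b) := e0 ▸ F.q3
  have hb : 0 ≤ b := by linarith [qs.1]
  have D : DomB u b x := ⟨by linarith, by linarith, by linarith, by linarith, by linarith, by linarith, by linarith, by linarith⟩
  have hY : y' = 1 - (x + u - b) := by rw [hy]; ring
  have q3 : InQ 0 (1 - (x + u - b)) := hY ▸ F.q2
  obtain ⟨p1, p2⟩ := psr (y := x + u) (by linarith) (by linarith)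
  obtain ⟨p3, p4⟩ := psr (y := x + u - b) (by linarith) (by linarith)
  have hd := dqBp (dq_t x) hb (by linarith) (by linarith) (by linarith) (by linarith) p1 p2 p3 p4
  have hs : ∀ G ∈ sk_Bphk2, G.v u b x ≤ 0 := skPMB (v := 20971520) (hi := true) (abs_le.2 ⟨by unfold S; norm_num; linarith, by unfold S; norm_num; linarith⟩) (by simp only [cond_true, cond_false]; linarith [q3.2])
  obtain ⟨r1, r2⟩ := rX x0 x1
  have K5 := Cht.cert (ng := false) (r := 20971520) ct_0Bphk2 (u := u) (b := b) (x := x) (by unfold S; norm_num; linarith) (by unfold S; norm_num; linarith) (by simp only [cond_true, cond_false]; linarith) (by simp only [cond_true, cond_false]; unfold S; norm_num; linarith) r1 r2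
  have K7 := Cht.cert (ng := false) (r := 20971520) ct_2Bphk2 (u := u) (b := b) (x := x) (by unfold S; norm_num; linarith) (by unfold S; norm_num; linarith) (by simp only [cond_true, cond_false]; linarith) (by simp only [cond_true, cond_false]; unfold S; norm_num; linarith) r1 r2
  have t3 := t3B0 F.q2 hy
  have hit : ((T_Bphk2.b true).at_ u b x).it * (1 - (x + u - b)) = 1 := by
    show (1 - (x + u - b))⁻¹ * _ = _
    exact inv_mul_cancel₀ (ne_of_gt (by linarith))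
  have hx : sk2.xs.v u b x = 1 / 2 + b * sk2.ws.v u b x := stK_x (by norm_num) (by linarith) (by linarith)
  have hX : crv PP 2 2 (1 + b) = sk2.xs.v u b x := sX2 u
  have od : 1 ≤ qqn (c1n (x + u) + sk2.xs.v u b x) (1 - (x + u - b)) ∧ qqn (c1n (x + u) + sk2.xs.v u b x) (1 - (x + u - b)) ≤ 3 ∧ c1n (x + u) + sk2.xs.v u b x ≠ 0 := by
    have l1 := F.len1
    have l3 := F.len3
    have cp := c1n_pos' (y := x + u) (by nlinarith)
    have cn : 0 ≤ (fXS 3 2 5).v u b x := fXS_nn hb (by linarith)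
    have e : -1 * crv PP 2 2 (x + u + y') - 1 * crv PP 0 a (x + u) = -(c1n (x + u) + sk2.xs.v u b x) := by
      rw [e0, hX, crv0]
      ring
    rw [e, qqn_neg, hY] at l1 l3
    refine ⟨l1, l3, ne_of_gt ?_⟩
    show 0 < c1n (x + u) + (fXS 3 2 5).v u b x
    linarith
  have eX : -sk2.xs.v u b x - c1n (x + u) = -(c1n (x + u) + sk2.xs.v u b x) := by ring
  have K3 : (∀ G ∈ cx_Bphk2, 0 < G.v u b x) → (pcB 0).K.v (-sk2.xs.v u b x - c1n (x + u)) y' x = ((c1n (x + u - b) + 1 / 2) * cG (x + u - b) + kcg.v (psn (x + u - b)) x) * (1 - (x + u - b)) - sK_Bphk2.v (c1n (x + u) + sk2.xs.v u b x) (1 - (x + u - b)) x * (c1n (x + u) + sk2.xs.v u b x - (c1n (x + u - b) + 1 / 2)) := fun hc => by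
    rw [eX, hY, (hF.odd q3 od.1 od.2.1 od.2.2).1, zKBphk2 hF x0 x1 h1 h2 h3 hb q3 hc]
    ring
  have L3 : (∀ G ∈ cx_Bphk2, 0 < G.v u b x) → (pcB 0).L.v (-sk2.xs.v u b x - c1n (x + u)) y' x = -(cQ x (x + u - b) (kcg.v (psn (x + u - b)) x) + sX_Bphk2.v (c1n (x + u) + sk2.xs.v u b x) (1 - (x + u - b)) x * (c1n (x + u) + sk2.xs.v u b x - (c1n (x + u - b) + 1 / 2))) := fun hc => by
    rw [eX, hY, (hF.odd q3 od.1 od.2.1 od.2.2).2, zLBphk2 hF x0 x1 h1 h2 h3 hb q3 hc]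
  have C3 : (∀ G ∈ cx_Bphk2, 0 < G.v u b x) → (scP esg pd 0).v (-sk2.xs.v u b x - c1n (x + u)) y' x = esn x * ((cP (x + u - b) + 1 / 2 * cD (x + u - b) - (cR (x + u - b) + 2 * c1n (x + u - b) + 1) * kcg.v (psn (x + u - b)) x) - ((T_Bphk2.b true).at_ u b x).it * sD_Bphk2.v (c1n (x + u) + sk2.xs.v u b x) (1 - (x + u - b)) x * (c1n (x + u) + sk2.xs.v u b x - (c1n (x + u - b) + 1 / 2))) := fun hc => by
    rw [eX, hY]
    show esg.v x * (pd 0).v (-(c1n (x + u) + sk2.xs.v u b x)) (1 - (x + u - b)) x = _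
    rw [esg_n, hU.odd q3 od.1 od.2.1 od.2.2, div_it' (zDBphk2 hF hU x0 x1 h1 h2 h3 hb q3 hc) hit]
  exact bothBp (T := T_Bphk2) (sk := sk_Bphk2) (cx := cx_Bphk2) (sk2 := sk_Bphk2) (cx2 := cx_Bphk2) D hb hκ hy hd hit t1 t3 hx hX (dc x0 x1) (by linarith) (by linarith) (by norm_num [T_Bphk2]) (by norm_num [T_Bphk2]) K5 hs K7 hs K1 (sk2K u hb qs (by linarith)) K3 L1 (sk2L u hb qs (by linarith)) L3 C1 (sk2C u hb qs (by linarith)) C3
theorem BE2_002 {x κ y y' : ℝ} (hF : SideOk PP tK tL pcB x) (hU : ThrOk PP tU pd x) (hκ : κ * h0 = ken x) (x0 : 1 / 2 ≤ x) (x1 : x ≤ 293668389 / 536870912)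
    (F : FactsB PP 0 0 2 0 2 1 (-1) y y') (h1 : |y - x| < 5 / 256) (h3 : |y' - (1 - x)| < 5 / 256) (h2 : |y + y' - 1| < 1 / 32) :
    DirEB (3 / 10) κ PP tK tL tC pcB (scP esg pd) 0 0 2 0 2 1 (-1) x y y' := by
  obtain ⟨u, rfl⟩ : ∃ u, y = x + u := ⟨y - x, by ring⟩
  obtain ⟨b, hy⟩ : ∃ b, y' = 1 + b - (x + u) := ⟨y' + (x + u) - 1, by ring⟩
  rw [show x + u - x = u by ring] at h1
  rw [show x + u + y' - 1 = b by rw [hy]; ring] at h2
  rw [show y' - (1 - x) = -(u - b) by rw [hy]; ring, abs_neg] at h3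
  obtain ⟨u1, u2⟩ := abs_lt.1 h1
  exact fE_Bphk2 hF hU hκ x0 x1 h1 h2 h3 hy F (t1_0 F.q1) (shK0 F.q1 (by linarith) (by linarith)) (shL0 F.q1 (by linarith) (by linarith)) (shC0 F.q1 (by linarith) (by linarith))
theorem molE_B_002_02_0 {κ x : ℝ} (hκ : κ * h0 = ken x) (hx : ((536870912 : ℕ) : ℝ) / S ≤ x) (hx' : x ≤ (((536870912 : ℕ) : ℝ) + (50465866 : ℕ)) / S) :
    AltEB 3 κ (eng.v x) (3 / 40) (tnt (h0 * x) (3 / 10)) PP tK tL tC pcB (scP esg pd) [⟨0, 0, 1, 20971520⟩, ⟨1, 1, 2, 20971520⟩, ⟨2, 1, 0, 33554432⟩] 0 0 2 0 2 (sgb true) (sgb false) x := by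
  obtain ⟨x0, x1⟩ := xr hx hx'
  exact altEB_s fun y y' F h1 h3 h2 => DirEB.st (eng_n x) (BE2_002 (sideB hx hx') (thrU hx hx') hκ x0 x1 F (h1.trans_eq (by norm_num)) (h3.trans_eq (by norm_num)) (h2.trans_eq (by norm_num)))
theorem BE2_102 {x κ y y' : ℝ} (hF : SideOk PP tK tL pcB x) (hU : ThrOk PP tU pd x) (hκ : κ * h0 = ken x) (x0 : 1 / 2 ≤ x) (x1 : x ≤ 293668389 / 536870912)
    (F : FactsB PP 1 0 2 0 2 1 (-1) y y') (h1 : |y - x| < 5 / 256) (h3 : |y' - (1 - x)| < 5 / 256) (h2 : |y + y' - 1| < 1 / 32) :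
    DirEB (3 / 10) κ PP tK tL tC pcB (scP esg pd) 1 0 2 0 2 1 (-1) x y y' := by
  obtain ⟨u, rfl⟩ : ∃ u, y = x + u := ⟨y - x, by ring⟩
  obtain ⟨b, hy⟩ : ∃ b, y' = 1 + b - (x + u) := ⟨y' + (x + u) - 1, by ring⟩
  rw [show x + u - x = u by ring] at h1
  rw [show x + u + y' - 1 = b by rw [hy]; ring] at h2
  rw [show y' - (1 - x) = -(u - b) by rw [hy]; ring, abs_neg] at h3
  obtain ⟨u1, u2⟩ := abs_lt.1 h1
  exact fE_Bphk2 hF hU hκ x0 x1 h1 h2 h3 hy F (t1_1 F.q1) (shK1 F.q1 (by linarith) (by linarith)) (shL1 F.q1 (by linarith) (by linarith)) (shC1 F.q1 (by linarith) (by linarith))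
theorem molE_B_102_02_0 {κ x : ℝ} (hκ : κ * h0 = ken x) (hx : ((536870912 : ℕ) : ℝ) / S ≤ x) (hx' : x ≤ (((536870912 : ℕ) : ℝ) + (50465866 : ℕ)) / S) :
    AltEB 3 κ (eng.v x) (3 / 40) (tnt (h0 * x) (3 / 10)) PP tK tL tC pcB (scP esg pd) [⟨0, 0, 1, 20971520⟩, ⟨1, 1, 2, 20971520⟩, ⟨2, 1, 0, 33554432⟩] 1 0 2 0 2 (sgb true) (sgb false) x := by
  obtain ⟨x0, x1⟩ := xr hx hx'
  exact altEB_s fun y y' F h1 h3 h2 => DirEB.st (eng_n x) (BE2_102 (sideB hx hx') (thrU hx hx') hκ x0 x1 F (h1.trans_eq (by norm_num)) (h3.trans_eq (by norm_num)) (h2.trans_eq (by norm_num)))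
theorem w_Bplk3 {u b x : ℝ} (x0 : 1 / 2 ≤ x) (x1 : x ≤ 293668389 / 536870912) (h1 : |u| < 5 / 256) (h2 : |b| < 1 / 32) (h3 : |u - b| < 5 / 256) (hb : 0 ≤ b) : c1n (x + u) + sk3.xs.v u b x ≤ (w3W true).v (1 - (x + u - b)) := by
  obtain ⟨u1, u2⟩ := abs_lt.1 h1
  obtain ⟨b1, b2⟩ := abs_lt.1 h2
  obtain ⟨v1, v2⟩ := abs_lt.1 h3
  have cm1 : (fXS 1 4 5).v u b x ≤ 1 / 2 := fXS_le (by norm_num) hb
  have cm2 : c1n (x + u) ≤ c1n (x + u - b) := c1n_le' (by linarith) (by linarith)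
  rw [w3W_B]
  show c1n (x + u) + (fXS 1 4 5).v u b x ≤ c1n (x + u - b) + 1 / 2
  linarith
theorem zKBplk3 {u b x : ℝ} (hF : SideOk PP tK tL pcB x) (x0 : 1 / 2 ≤ x) (x1 : x ≤ 293668389 / 536870912) (h1 : |u| < 5 / 256) (h2 : |b| < 1 / 32) (h3 : |u - b| < 5 / 256) (hb : 0 ≤ b) (q3 : InQ 1 (1 - (x + u - b)))
    (hc : ∀ G ∈ cx_Bplk3, 0 < G.v u b x) : (pcB 1).K.v (c1n (x + u) + sk3.xs.v u b x) (1 - (x + u - b)) x =
    -(((c1n (x + u - b) + 1 / 2) * cG (x + u - b) + kcg.v (psn (x + u - b)) x) * -(x + u - b)) + sK_Bplk3.v (c1n (x + u) + sk3.xs.v u b x) (1 - (x + u - b)) x * (c1n (x + u) + sk3.xs.v u b x - (c1n (x + u - b) + 1 / 2)) := by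
  have hw := w_Bplk3 x0 x1 h1 h2 h3 hb
  obtain ⟨u1, u2⟩ := abs_lt.1 h1
  obtain ⟨b1, b2⟩ := abs_lt.1 h2
  obtain ⟨v1, v2⟩ := abs_lt.1 h3
  have y1 := q3.1
  have y2 := q3.2
  have c0 : 0 < (tCC (w3W true) cv3m).v (c1n (x + u) + sk3.xs.v u b x) (1 - (x + u - b)) x := hc (f3B sk3.xs (tCC (w3W true) cv3m)) (by unfold cx_Bplk3; simp only [List.mem_cons, true_or, or_true])
  have c1 : 0 < (tCC cv4m (w3W true)).v (c1n (x + u) + sk3.xs.v u b x) (1 - (x + u - b)) x := hc (f3B sk3.xs (tCC cv4m (w3W true))) (by unfold cx_Bplk3; simp only [List.mem_cons, true_or, or_true])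
  have c2 : 0 < (tXC cv3m).v (c1n (x + u) + sk3.xs.v u b x) (1 - (x + u - b)) x := hc (f3B sk3.xs (tXC cv3m)) (by unfold cx_Bplk3; simp only [List.mem_cons, true_or, or_true])
  refine (sKBplk3 hF q3 (by linarith) (by linarith) c0 c1 c2 hw).trans ?_
  rw [w3K_B, w3W_B]
  push_cast
  ring
theorem zLBplk3 {u b x : ℝ} (hF : SideOk PP tK tL pcB x) (x0 : 1 / 2 ≤ x) (x1 : x ≤ 293668389 / 536870912) (h1 : |u| < 5 / 256) (h2 : |b| < 1 / 32) (h3 : |u - b| < 5 / 256) (hb : 0 ≤ b) (q3 : InQ 1 (1 - (x + u - b)))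
    (hc : ∀ G ∈ cx_Bplk3, 0 < G.v u b x) : (pcB 1).L.v (c1n (x + u) + sk3.xs.v u b x) (1 - (x + u - b)) x =
    cQ x (x + u - b) (kcg.v (psn (x + u - b)) x) + sX_Bplk3.v (c1n (x + u) + sk3.xs.v u b x) (1 - (x + u - b)) x * (c1n (x + u) + sk3.xs.v u b x - (c1n (x + u - b) + 1 / 2)) := by
  have hw := w_Bplk3 x0 x1 h1 h2 h3 hb
  obtain ⟨u1, u2⟩ := abs_lt.1 h1
  obtain ⟨b1, b2⟩ := abs_lt.1 h2
  obtain ⟨v1, v2⟩ := abs_lt.1 h3
  have y1 := q3.1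
  have y2 := q3.2
  have c0 : 0 < (tCC (w3W true) cv3m).v (c1n (x + u) + sk3.xs.v u b x) (1 - (x + u - b)) x := hc (f3B sk3.xs (tCC (w3W true) cv3m)) (by unfold cx_Bplk3; simp only [List.mem_cons, true_or, or_true])
  have c1 : 0 < (tCC cv4m (w3W true)).v (c1n (x + u) + sk3.xs.v u b x) (1 - (x + u - b)) x := hc (f3B sk3.xs (tCC cv4m (w3W true))) (by unfold cx_Bplk3; simp only [List.mem_cons, true_or, or_true])
  have c2 : 0 < (tXC cv3m).v (c1n (x + u) + sk3.xs.v u b x) (1 - (x + u - b)) x := hc (f3B sk3.xs (tXC cv3m)) (by unfold cx_Bplk3; simp only [List.mem_cons, true_or, or_true])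
  refine (sLBplk3 hF q3 (by linarith) (by linarith) c0 c1 c2 hw).trans ?_
  rw [w3Q_B, w3W_B]
theorem zDBplk3 {u b x : ℝ} (hF : SideOk PP tK tL pcB x) (hU : ThrOk PP tU pd x) (x0 : 1 / 2 ≤ x) (x1 : x ≤ 293668389 / 536870912) (h1 : |u| < 5 / 256) (h2 : |b| < 1 / 32) (h3 : |u - b| < 5 / 256) (hb : 0 ≤ b) (q3 : InQ 1 (1 - (x + u - b)))
    (hc : ∀ G ∈ cx_Bplk3, 0 < G.v u b x) : (pd 1).v (c1n (x + u) + sk3.xs.v u b x) (1 - (x + u - b)) x * -(x + u - b) =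
    -((cP (x + u - b) + 1 / 2 * cD (x + u - b) - (cR (x + u - b) + 2 * c1n (x + u - b) + 1) * kcg.v (psn (x + u - b)) x) * -(x + u - b)) + sD_Bplk3.v (c1n (x + u) + sk3.xs.v u b x) (1 - (x + u - b)) x * (c1n (x + u) + sk3.xs.v u b x - (c1n (x + u - b) + 1 / 2)) := by
  have hw := w_Bplk3 x0 x1 h1 h2 h3 hb
  obtain ⟨u1, u2⟩ := abs_lt.1 h1
  obtain ⟨b1, b2⟩ := abs_lt.1 h2
  obtain ⟨v1, v2⟩ := abs_lt.1 h3
  have y1 := q3.1
  have y2 := q3.2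
  have c0 : 0 < (tCC (w3W true) cv3m).v (c1n (x + u) + sk3.xs.v u b x) (1 - (x + u - b)) x := hc (f3B sk3.xs (tCC (w3W true) cv3m)) (by unfold cx_Bplk3; simp only [List.mem_cons, true_or, or_true])
  have c1 : 0 < (tCC cv4m (w3W true)).v (c1n (x + u) + sk3.xs.v u b x) (1 - (x + u - b)) x := hc (f3B sk3.xs (tCC cv4m (w3W true))) (by unfold cx_Bplk3; simp only [List.mem_cons, true_or, or_true])
  have c2 : 0 < (tXC cv3m).v (c1n (x + u) + sk3.xs.v u b x) (1 - (x + u - b)) x := hc (f3B sk3.xs (tXC cv3m)) (by unfold cx_Bplk3; simp only [List.mem_cons, true_or, or_true])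
  have e := sDBplk3 hF hU q3 (by linarith) (by linarith) c0 c1 c2 hw
  rw [w3D_B, w3W_B] at e
  push_cast at e
  linear_combination e
theorem fE_Bplk3 {a : ℕ} {x u b κ τ y' : ℝ} (hF : SideOk PP tK tL pcB x) (hU : ThrOk PP tU pd x) (hκ : κ * h0 = ken x)
    (x0 : 1 / 2 ≤ x) (x1 : x ≤ 293668389 / 536870912) (h1 : |u| < 5 / 256) (h2 : |b| < 1 / 32) (h3 : |u - b| < 5 / 256) (hy : y' = 1 + b - (x + u)) (F : FactsB PP a 1 2 0 3 1 (-1) (x + u) y')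
    (t1 : tau (h0 * (x + u)) = h0 * τ) (K1 : tK 0 a (x + u) x = (c1n (x + u) * cG (x + u) + kcg.v (psn (x + u)) x) * τ) (L1 : tL 0 a (x + u) x = cQ x (x + u) (kcg.v (psn (x + u)) x)) (C1 : tC 0 a (x + u) x = esn x * (cP (x + u) - (cR (x + u) + 2 * c1n (x + u)) * kcg.v (psn (x + u)) x)) :
    DirEB (3 / 10) κ PP tK tL tC pcB (scP esg pd) a 1 2 0 3 1 (-1) x (x + u) y' := by
  obtain ⟨u1, u2⟩ := abs_lt.1 h1
  obtain ⟨b1, b2⟩ := abs_lt.1 h2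
  obtain ⟨v1, v2⟩ := abs_lt.1 h3
  have e0 : x + u + y' = 1 + b := by rw [hy]; ring
  have qs : InQ 2 (1 + b) := e0 ▸ F.q3
  have hb : 0 ≤ b := by linarith [qs.1]
  have D : DomB u b x := ⟨by linarith, by linarith, by linarith, by linarith, by linarith, by linarith, by linarith, by linarith⟩
  have hY : y' = 1 - (x + u - b) := by rw [hy]; ring
  have q3 : InQ 1 (1 - (x + u - b)) := hY ▸ F.q2
  obtain ⟨p1, p2⟩ := psr (y := x + u) (by linarith) (by linarith)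
  obtain ⟨p3, p4⟩ := psr (y := x + u - b) (by linarith) (by linarith)
  have hd := dqBp (dq_t x) hb (by linarith) (by linarith) (by linarith) (by linarith) p1 p2 p3 p4
  have hs : ∀ G ∈ sk_Bplk3, G.v u b x ≤ 0 := skPMB (v := 20971520) (hi := false) (abs_le.2 ⟨by unfold S; norm_num; linarith, by unfold S; norm_num; linarith⟩) (by simp only [cond_true, cond_false]; linarith [q3.1])
  obtain ⟨r1, r2⟩ := rX x0 x1
  have K5 := Cht.cert (ng := false) (r := 20971520) ct_0Bplk3 (u := u) (b := b) (x := x) (by unfold S; norm_num; linarith) (by unfold S; norm_num; linarith) (by simp only [cond_true, cond_false]; linarith) (by simp only [cond_true, cond_false]; unfold S; norm_num; linarith) r1 r2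
  have K7 := Cht.cert (ng := false) (r := 20971520) ct_2Bplk3 (u := u) (b := b) (x := x) (by unfold S; norm_num; linarith) (by unfold S; norm_num; linarith) (by simp only [cond_true, cond_false]; linarith) (by simp only [cond_true, cond_false]; unfold S; norm_num; linarith) r1 r2
  have t3 := t3B1 F.q2 hy
  have hit : ((T_Bplk3.b true).at_ u b x).it * -(x + u - b) = 1 := by
    show -(x + u - b)⁻¹ * _ = _
    rw [neg_mul_neg]
    exact inv_mul_cancel₀ (ne_of_gt (by linarith))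
  have hx : sk3.xs.v u b x = 1 / 2 + b * sk3.ws.v u b x := stK_x (by norm_num) (by linarith) (by linarith)
  have hX : crv PP 3 2 (1 + b) = sk3.xs.v u b x := sX3 u
  have od : 1 ≤ qqn (c1n (x + u) + sk3.xs.v u b x) (1 - (x + u - b)) ∧ qqn (c1n (x + u) + sk3.xs.v u b x) (1 - (x + u - b)) ≤ 3 ∧ c1n (x + u) + sk3.xs.v u b x ≠ 0 := by
    have l1 := F.len1
    have l3 := F.len3
    have cp := c1n_pos' (y := x + u) (by nlinarith)
    have cn : 0 ≤ (fXS 1 4 5).v u b x := fXS_nn hb (by linarith)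
    have e : -1 * crv PP 3 2 (x + u + y') - 1 * crv PP 0 a (x + u) = -(c1n (x + u) + sk3.xs.v u b x) := by
      rw [e0, hX, crv0]
      ring
    rw [e, qqn_neg, hY] at l1 l3
    refine ⟨l1, l3, ne_of_gt ?_⟩
    show 0 < c1n (x + u) + (fXS 1 4 5).v u b x
    linarith
  have eX : -sk3.xs.v u b x - c1n (x + u) = -(c1n (x + u) + sk3.xs.v u b x) := by ring
  have K3 : (∀ G ∈ cx_Bplk3, 0 < G.v u b x) → (pcB 1).K.v (-sk3.xs.v u b x - c1n (x + u)) y' x = ((c1n (x + u - b) + 1 / 2) * cG (x + u - b) + kcg.v (psn (x + u - b)) x) * -(x + u - b) - sK_Bplk3.v (c1n (x + u) + sk3.xs.v u b x) (1 - (x + u - b)) x * (c1n (x + u) + sk3.xs.v u b x - (c1n (x + u - b) + 1 / 2)) := fun hc => by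
    rw [eX, hY, (hF.odd q3 od.1 od.2.1 od.2.2).1, zKBplk3 hF x0 x1 h1 h2 h3 hb q3 hc]
    ring
  have L3 : (∀ G ∈ cx_Bplk3, 0 < G.v u b x) → (pcB 1).L.v (-sk3.xs.v u b x - c1n (x + u)) y' x = -(cQ x (x + u - b) (kcg.v (psn (x + u - b)) x) + sX_Bplk3.v (c1n (x + u) + sk3.xs.v u b x) (1 - (x + u - b)) x * (c1n (x + u) + sk3.xs.v u b x - (c1n (x + u - b) + 1 / 2))) := fun hc => by
    rw [eX, hY, (hF.odd q3 od.1 od.2.1 od.2.2).2, zLBplk3 hF x0 x1 h1 h2 h3 hb q3 hc]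
  have C3 : (∀ G ∈ cx_Bplk3, 0 < G.v u b x) → (scP esg pd 1).v (-sk3.xs.v u b x - c1n (x + u)) y' x = esn x * ((cP (x + u - b) + 1 / 2 * cD (x + u - b) - (cR (x + u - b) + 2 * c1n (x + u - b) + 1) * kcg.v (psn (x + u - b)) x) - ((T_Bplk3.b true).at_ u b x).it * sD_Bplk3.v (c1n (x + u) + sk3.xs.v u b x) (1 - (x + u - b)) x * (c1n (x + u) + sk3.xs.v u b x - (c1n (x + u - b) + 1 / 2))) := fun hc => by
    rw [eX, hY]
    show esg.v x * (pd 1).v (-(c1n (x + u) + sk3.xs.v u b x)) (1 - (x + u - b)) x = _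
    rw [esg_n, hU.odd q3 od.1 od.2.1 od.2.2, div_it' (zDBplk3 hF hU x0 x1 h1 h2 h3 hb q3 hc) hit]
  exact bothBp (T := T_Bplk3) (sk := sk_Bplk3) (cx := cx_Bplk3) (sk2 := sk_Bplk3) (cx2 := cx_Bplk3) D hb hκ hy hd hit t1 t3 hx hX (dc x0 x1) (by linarith) (by linarith) (by norm_num [T_Bplk3]) (by norm_num [T_Bplk3]) K5 hs K7 hs K1 (sk3K u hb qs (by linarith)) K3 L1 (sk3L u hb qs (by linarith)) L3 C1 (sk3C u hb qs (by linarith)) C3
theorem BE3_012 {x κ y y' : ℝ} (hF : SideOk PP tK tL pcB x) (hU : ThrOk PP tU pd x) (hκ : κ * h0 = ken x) (x0 : 1 / 2 ≤ x) (x1 : x ≤ 293668389 / 536870912)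
    (F : FactsB PP 0 1 2 0 3 1 (-1) y y') (h1 : |y - x| < 5 / 256) (h3 : |y' - (1 - x)| < 5 / 256) (h2 : |y + y' - 1| < 1 / 32) :
    DirEB (3 / 10) κ PP tK tL tC pcB (scP esg pd) 0 1 2 0 3 1 (-1) x y y' := by
  obtain ⟨u, rfl⟩ : ∃ u, y = x + u := ⟨y - x, by ring⟩
  obtain ⟨b, hy⟩ : ∃ b, y' = 1 + b - (x + u) := ⟨y' + (x + u) - 1, by ring⟩
  rw [show x + u - x = u by ring] at h1
  rw [show x + u + y' - 1 = b by rw [hy]; ring] at h2
  rw [show y' - (1 - x) = -(u - b) by rw [hy]; ring, abs_neg] at h3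
  obtain ⟨u1, u2⟩ := abs_lt.1 h1
  exact fE_Bplk3 hF hU hκ x0 x1 h1 h2 h3 hy F (t1_0 F.q1) (shK0 F.q1 (by linarith) (by linarith)) (shL0 F.q1 (by linarith) (by linarith)) (shC0 F.q1 (by linarith) (by linarith))
theorem molE_B_012_03_0 {κ x : ℝ} (hκ : κ * h0 = ken x) (hx : ((536870912 : ℕ) : ℝ) / S ≤ x) (hx' : x ≤ (((536870912 : ℕ) : ℝ) + (50465866 : ℕ)) / S) :
    AltEB 3 κ (eng.v x) (3 / 40) (tnt (h0 * x) (3 / 10)) PP tK tL tC pcB (scP esg pd) [⟨0, 0, 1, 20971520⟩, ⟨1, 1, 2, 20971520⟩, ⟨2, 1, 0, 33554432⟩] 0 1 2 0 3 (sgb true) (sgb false) x := by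
  obtain ⟨x0, x1⟩ := xr hx hx'
  exact altEB_s fun y y' F h1 h3 h2 => DirEB.st (eng_n x) (BE3_012 (sideB hx hx') (thrU hx hx') hκ x0 x1 F (h1.trans_eq (by norm_num)) (h3.trans_eq (by norm_num)) (h2.trans_eq (by norm_num)))
theorem BE3_112 {x κ y y' : ℝ} (hF : SideOk PP tK tL pcB x) (hU : ThrOk PP tU pd x) (hκ : κ * h0 = ken x) (x0 : 1 / 2 ≤ x) (x1 : x ≤ 293668389 / 536870912)
    (F : FactsB PP 1 1 2 0 3 1 (-1) y y') (h1 : |y - x| < 5 / 256) (h3 : |y' - (1 - x)| < 5 / 256) (h2 : |y + y' - 1| < 1 / 32) :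
    DirEB (3 / 10) κ PP tK tL tC pcB (scP esg pd) 1 1 2 0 3 1 (-1) x y y' := by
  obtain ⟨u, rfl⟩ : ∃ u, y = x + u := ⟨y - x, by ring⟩
  obtain ⟨b, hy⟩ : ∃ b, y' = 1 + b - (x + u) := ⟨y' + (x + u) - 1, by ring⟩
  rw [show x + u - x = u by ring] at h1
  rw [show x + u + y' - 1 = b by rw [hy]; ring] at h2
  rw [show y' - (1 - x) = -(u - b) by rw [hy]; ring, abs_neg] at h3
  obtain ⟨u1, u2⟩ := abs_lt.1 h1
  exact fE_Bplk3 hF hU hκ x0 x1 h1 h2 h3 hy F (t1_1 F.q1) (shK1 F.q1 (by linarith) (by linarith)) (shL1 F.q1 (by linarith) (by linarith)) (shC1 F.q1 (by linarith) (by linarith))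
theorem molE_B_112_03_0 {κ x : ℝ} (hκ : κ * h0 = ken x) (hx : ((536870912 : ℕ) : ℝ) / S ≤ x) (hx' : x ≤ (((536870912 : ℕ) : ℝ) + (50465866 : ℕ)) / S) :
    AltEB 3 κ (eng.v x) (3 / 40) (tnt (h0 * x) (3 / 10)) PP tK tL tC pcB (scP esg pd) [⟨0, 0, 1, 20971520⟩, ⟨1, 1, 2, 20971520⟩, ⟨2, 1, 0, 33554432⟩] 1 1 2 0 3 (sgb true) (sgb false) x := by
  obtain ⟨x0, x1⟩ := xr hx hx'
  exact altEB_s fun y y' F h1 h3 h2 => DirEB.st (eng_n x) (BE3_112 (sideB hx hx') (thrU hx hx') hκ x0 x1 F (h1.trans_eq (by norm_num)) (h3.trans_eq (by norm_num)) (h2.trans_eq (by norm_num)))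
theorem w_Bphk3 {u b x : ℝ} (x0 : 1 / 2 ≤ x) (x1 : x ≤ 293668389 / 536870912) (h1 : |u| < 5 / 256) (h2 : |b| < 1 / 32) (h3 : |u - b| < 5 / 256) (hb : 0 ≤ b) : c1n (x + u) + sk3.xs.v u b x ≤ (w3W true).v (1 - (x + u - b)) := by
  obtain ⟨u1, u2⟩ := abs_lt.1 h1
  obtain ⟨b1, b2⟩ := abs_lt.1 h2
  obtain ⟨v1, v2⟩ := abs_lt.1 h3
  have cm1 : (fXS 1 4 5).v u b x ≤ 1 / 2 := fXS_le (by norm_num) hb
  have cm2 : c1n (x + u) ≤ c1n (x + u - b) := c1n_le' (by linarith) (by linarith)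
  rw [w3W_B]
  show c1n (x + u) + (fXS 1 4 5).v u b x ≤ c1n (x + u - b) + 1 / 2
  linarith
theorem zKBphk3 {u b x : ℝ} (hF : SideOk PP tK tL pcB x) (x0 : 1 / 2 ≤ x) (x1 : x ≤ 293668389 / 536870912) (h1 : |u| < 5 / 256) (h2 : |b| < 1 / 32) (h3 : |u - b| < 5 / 256) (hb : 0 ≤ b) (q3 : InQ 0 (1 - (x + u - b)))
    (hc : ∀ G ∈ cx_Bphk3, 0 < G.v u b x) : (pcB 0).K.v (c1n (x + u) + sk3.xs.v u b x) (1 - (x + u - b)) x =
    -(((c1n (x + u - b) + 1 / 2) * cG (x + u - b) + kcg.v (psn (x + u - b)) x) * (1 - (x + u - b))) + sK_Bphk3.v (c1n (x + u) + sk3.xs.v u b x) (1 - (x + u - b)) x * (c1n (x + u) + sk3.xs.v u b x - (c1n (x + u - b) + 1 / 2)) := by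
  have hw := w_Bphk3 x0 x1 h1 h2 h3 hb
  obtain ⟨u1, u2⟩ := abs_lt.1 h1
  obtain ⟨b1, b2⟩ := abs_lt.1 h2
  obtain ⟨v1, v2⟩ := abs_lt.1 h3
  have y1 := q3.1
  have y2 := q3.2
  have c0 : 0 < (tCC (w3W true) cv3m).v (c1n (x + u) + sk3.xs.v u b x) (1 - (x + u - b)) x := hc (f3B sk3.xs (tCC (w3W true) cv3m)) (by unfold cx_Bphk3; simp only [List.mem_cons, true_or, or_true])
  have c1 : 0 < (tCC cv4m (w3W true)).v (c1n (x + u) + sk3.xs.v u b x) (1 - (x + u - b)) x := hc (f3B sk3.xs (tCC cv4m (w3W true))) (by unfold cx_Bphk3; simp only [List.mem_cons, true_or, or_true])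
  have c2 : 0 < (tXC cv3m).v (c1n (x + u) + sk3.xs.v u b x) (1 - (x + u - b)) x := hc (f3B sk3.xs (tXC cv3m)) (by unfold cx_Bphk3; simp only [List.mem_cons, true_or, or_true])
  refine (sKBphk3 hF q3 (by linarith) (by linarith) c0 c1 c2 hw).trans ?_
  rw [w3K_B, w3W_B]
  push_cast
  ring
theorem zLBphk3 {u b x : ℝ} (hF : SideOk PP tK tL pcB x) (x0 : 1 / 2 ≤ x) (x1 : x ≤ 293668389 / 536870912) (h1 : |u| < 5 / 256) (h2 : |b| < 1 / 32) (h3 : |u - b| < 5 / 256) (hb : 0 ≤ b) (q3 : InQ 0 (1 - (x + u - b)))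
    (hc : ∀ G ∈ cx_Bphk3, 0 < G.v u b x) : (pcB 0).L.v (c1n (x + u) + sk3.xs.v u b x) (1 - (x + u - b)) x =
    cQ x (x + u - b) (kcg.v (psn (x + u - b)) x) + sX_Bphk3.v (c1n (x + u) + sk3.xs.v u b x) (1 - (x + u - b)) x * (c1n (x + u) + sk3.xs.v u b x - (c1n (x + u - b) + 1 / 2)) := by
  have hw := w_Bphk3 x0 x1 h1 h2 h3 hb
  obtain ⟨u1, u2⟩ := abs_lt.1 h1
  obtain ⟨b1, b2⟩ := abs_lt.1 h2
  obtain ⟨v1, v2⟩ := abs_lt.1 h3
  have y1 := q3.1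
  have y2 := q3.2
  have c0 : 0 < (tCC (w3W true) cv3m).v (c1n (x + u) + sk3.xs.v u b x) (1 - (x + u - b)) x := hc (f3B sk3.xs (tCC (w3W true) cv3m)) (by unfold cx_Bphk3; simp only [List.mem_cons, true_or, or_true])
  have c1 : 0 < (tCC cv4m (w3W true)).v (c1n (x + u) + sk3.xs.v u b x) (1 - (x + u - b)) x := hc (f3B sk3.xs (tCC cv4m (w3W true))) (by unfold cx_Bphk3; simp only [List.mem_cons, true_or, or_true])
  have c2 : 0 < (tXC cv3m).v (c1n (x + u) + sk3.xs.v u b x) (1 - (x + u - b)) x := hc (f3B sk3.xs (tXC cv3m)) (by unfold cx_Bphk3; simp only [List.mem_cons, true_or, or_true])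
  refine (sLBphk3 hF q3 (by linarith) (by linarith) c0 c1 c2 hw).trans ?_
  rw [w3Q_B, w3W_B]
theorem zDBphk3 {u b x : ℝ} (hF : SideOk PP tK tL pcB x) (hU : ThrOk PP tU pd x) (x0 : 1 / 2 ≤ x) (x1 : x ≤ 293668389 / 536870912) (h1 : |u| < 5 / 256) (h2 : |b| < 1 / 32) (h3 : |u - b| < 5 / 256) (hb : 0 ≤ b) (q3 : InQ 0 (1 - (x + u - b)))
    (hc : ∀ G ∈ cx_Bphk3, 0 < G.v u b x) : (pd 0).v (c1n (x + u) + sk3.xs.v u b x) (1 - (x + u - b)) x * (1 - (x + u - b)) =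
    -((cP (x + u - b) + 1 / 2 * cD (x + u - b) - (cR (x + u - b) + 2 * c1n (x + u - b) + 1) * kcg.v (psn (x + u - b)) x) * (1 - (x + u - b))) + sD_Bphk3.v (c1n (x + u) + sk3.xs.v u b x) (1 - (x + u - b)) x * (c1n (x + u) + sk3.xs.v u b x - (c1n (x + u - b) + 1 / 2)) := by
  have hw := w_Bphk3 x0 x1 h1 h2 h3 hb
  obtain ⟨u1, u2⟩ := abs_lt.1 h1
  obtain ⟨b1, b2⟩ := abs_lt.1 h2
  obtain ⟨v1, v2⟩ := abs_lt.1 h3
  have y1 := q3.1
  have y2 := q3.2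
  have c0 : 0 < (tCC (w3W true) cv3m).v (c1n (x + u) + sk3.xs.v u b x) (1 - (x + u - b)) x := hc (f3B sk3.xs (tCC (w3W true) cv3m)) (by unfold cx_Bphk3; simp only [List.mem_cons, true_or, or_true])
  have c1 : 0 < (tCC cv4m (w3W true)).v (c1n (x + u) + sk3.xs.v u b x) (1 - (x + u - b)) x := hc (f3B sk3.xs (tCC cv4m (w3W true))) (by unfold cx_Bphk3; simp only [List.mem_cons, true_or, or_true])
  have c2 : 0 < (tXC cv3m).v (c1n (x + u) + sk3.xs.v u b x) (1 - (x + u - b)) x := hc (f3B sk3.xs (tXC cv3m)) (by unfold cx_Bphk3; simp only [List.mem_cons, true_or, or_true])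
  have e := sDBphk3 hF hU q3 (by linarith) (by linarith) c0 c1 c2 hw
  rw [w3D_B, w3W_B] at e
  push_cast at e
  linear_combination e
theorem fE_Bphk3 {a : ℕ} {x u b κ τ y' : ℝ} (hF : SideOk PP tK tL pcB x) (hU : ThrOk PP tU pd x) (hκ : κ * h0 = ken x)
    (x0 : 1 / 2 ≤ x) (x1 : x ≤ 293668389 / 536870912) (h1 : |u| < 5 / 256) (h2 : |b| < 1 / 32) (h3 : |u - b| < 5 / 256) (hy : y' = 1 + b - (x + u)) (F : FactsB PP a 0 2 0 3 1 (-1) (x + u) y')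
    (t1 : tau (h0 * (x + u)) = h0 * τ) (K1 : tK 0 a (x + u) x = (c1n (x + u) * cG (x + u) + kcg.v (psn (x + u)) x) * τ) (L1 : tL 0 a (x + u) x = cQ x (x + u) (kcg.v (psn (x + u)) x)) (C1 : tC 0 a (x + u) x = esn x * (cP (x + u) - (cR (x + u) + 2 * c1n (x + u)) * kcg.v (psn (x + u)) x)) :
    DirEB (3 / 10) κ PP tK tL tC pcB (scP esg pd) a 0 2 0 3 1 (-1) x (x + u) y' := by
  obtain ⟨u1, u2⟩ := abs_lt.1 h1
  obtain ⟨b1, b2⟩ := abs_lt.1 h2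
  obtain ⟨v1, v2⟩ := abs_lt.1 h3
  have e0 : x + u + y' = 1 + b := by rw [hy]; ring
  have qs : InQ 2 (1 + b) := e0 ▸ F.q3
  have hb : 0 ≤ b := by linarith [qs.1]
  have D : DomB u b x := ⟨by linarith, by linarith, by linarith, by linarith, by linarith, by linarith, by linarith, by linarith⟩
  have hY : y' = 1 - (x + u - b) := by rw [hy]; ring
  have q3 : InQ 0 (1 - (x + u - b)) := hY ▸ F.q2
  obtain ⟨p1, p2⟩ := psr (y := x + u) (by linarith) (by linarith)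
  obtain ⟨p3, p4⟩ := psr (y := x + u - b) (by linarith) (by linarith)
  have hd := dqBp (dq_t x) hb (by linarith) (by linarith) (by linarith) (by linarith) p1 p2 p3 p4
  have hs : ∀ G ∈ sk_Bphk3, G.v u b x ≤ 0 := skPMB (v := 20971520) (hi := true) (abs_le.2 ⟨by unfold S; norm_num; linarith, by unfold S; norm_num; linarith⟩) (by simp only [cond_true, cond_false]; linarith [q3.2])
  obtain ⟨r1, r2⟩ := rX x0 x1
  have K5 := Cht.cert (ng := false) (r := 20971520) ct_0Bphk3 (u := u) (b := b) (x := x) (by unfold S; norm_num; linarith) (by unfold S; norm_num; linarith) (by simp only [cond_true, cond_false]; linarith) (by simp only [cond_true, cond_false]; unfold S; norm_num; linarith) r1 r2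
  have K7 := Cht.cert (ng := false) (r := 20971520) ct_2Bphk3 (u := u) (b := b) (x := x) (by unfold S; norm_num; linarith) (by unfold S; norm_num; linarith) (by simp only [cond_true, cond_false]; linarith) (by simp only [cond_true, cond_false]; unfold S; norm_num; linarith) r1 r2
  have t3 := t3B0 F.q2 hy
  have hit : ((T_Bphk3.b true).at_ u b x).it * (1 - (x + u - b)) = 1 := by
    show (1 - (x + u - b))⁻¹ * _ = _
    exact inv_mul_cancel₀ (ne_of_gt (by linarith))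
  have hx : sk3.xs.v u b x = 1 / 2 + b * sk3.ws.v u b x := stK_x (by norm_num) (by linarith) (by linarith)
  have hX : crv PP 3 2 (1 + b) = sk3.xs.v u b x := sX3 u
  have od : 1 ≤ qqn (c1n (x + u) + sk3.xs.v u b x) (1 - (x + u - b)) ∧ qqn (c1n (x + u) + sk3.xs.v u b x) (1 - (x + u - b)) ≤ 3 ∧ c1n (x + u) + sk3.xs.v u b x ≠ 0 := by
    have l1 := F.len1
    have l3 := F.len3
    have cp := c1n_pos' (y := x + u) (by nlinarith)
    have cn : 0 ≤ (fXS 1 4 5).v u b x := fXS_nn hb (by linarith)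
    have e : -1 * crv PP 3 2 (x + u + y') - 1 * crv PP 0 a (x + u) = -(c1n (x + u) + sk3.xs.v u b x) := by
      rw [e0, hX, crv0]
      ring
    rw [e, qqn_neg, hY] at l1 l3
    refine ⟨l1, l3, ne_of_gt ?_⟩
    show 0 < c1n (x + u) + (fXS 1 4 5).v u b x
    linarith
  have eX : -sk3.xs.v u b x - c1n (x + u) = -(c1n (x + u) + sk3.xs.v u b x) := by ring
  have K3 : (∀ G ∈ cx_Bphk3, 0 < G.v u b x) → (pcB 0).K.v (-sk3.xs.v u b x - c1n (x + u)) y' x = ((c1n (x + u - b) + 1 / 2) * cG (x + u - b) + kcg.v (psn (x + u - b)) x) * (1 - (x + u - b)) - sK_Bphk3.v (c1n (x + u) + sk3.xs.v u b x) (1 - (x + u - b)) x * (c1n (x + u) + sk3.xs.v u b x - (c1n (x + u - b) + 1 / 2)) := fun hc => by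
    rw [eX, hY, (hF.odd q3 od.1 od.2.1 od.2.2).1, zKBphk3 hF x0 x1 h1 h2 h3 hb q3 hc]
    ring
  have L3 : (∀ G ∈ cx_Bphk3, 0 < G.v u b x) → (pcB 0).L.v (-sk3.xs.v u b x - c1n (x + u)) y' x = -(cQ x (x + u - b) (kcg.v (psn (x + u - b)) x) + sX_Bphk3.v (c1n (x + u) + sk3.xs.v u b x) (1 - (x + u - b)) x * (c1n (x + u) + sk3.xs.v u b x - (c1n (x + u - b) + 1 / 2))) := fun hc => by
    rw [eX, hY, (hF.odd q3 od.1 od.2.1 od.2.2).2, zLBphk3 hF x0 x1 h1 h2 h3 hb q3 hc]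
  have C3 : (∀ G ∈ cx_Bphk3, 0 < G.v u b x) → (scP esg pd 0).v (-sk3.xs.v u b x - c1n (x + u)) y' x = esn x * ((cP (x + u - b) + 1 / 2 * cD (x + u - b) - (cR (x + u - b) + 2 * c1n (x + u - b) + 1) * kcg.v (psn (x + u - b)) x) - ((T_Bphk3.b true).at_ u b x).it * sD_Bphk3.v (c1n (x + u) + sk3.xs.v u b x) (1 - (x + u - b)) x * (c1n (x + u) + sk3.xs.v u b x - (c1n (x + u - b) + 1 / 2))) := fun hc => by
    rw [eX, hY]
    show esg.v x * (pd 0).v (-(c1n (x + u) + sk3.xs.v u b x)) (1 - (x + u - b)) x = _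
    rw [esg_n, hU.odd q3 od.1 od.2.1 od.2.2, div_it' (zDBphk3 hF hU x0 x1 h1 h2 h3 hb q3 hc) hit]
  exact bothBp (T := T_Bphk3) (sk := sk_Bphk3) (cx := cx_Bphk3) (sk2 := sk_Bphk3) (cx2 := cx_Bphk3) D hb hκ hy hd hit t1 t3 hx hX (dc x0 x1) (by linarith) (by linarith) (by norm_num [T_Bphk3]) (by norm_num [T_Bphk3]) K5 hs K7 hs K1 (sk3K u hb qs (by linarith)) K3 L1 (sk3L u hb qs (by linarith)) L3 C1 (sk3C u hb qs (by linarith)) C3
theorem BE3_002 {x κ y y' : ℝ} (hF : SideOk PP tK tL pcB x) (hU : ThrOk PP tU pd x) (hκ : κ * h0 = ken x) (x0 : 1 / 2 ≤ x) (x1 : x ≤ 293668389 / 536870912)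
    (F : FactsB PP 0 0 2 0 3 1 (-1) y y') (h1 : |y - x| < 5 / 256) (h3 : |y' - (1 - x)| < 5 / 256) (h2 : |y + y' - 1| < 1 / 32) :
    DirEB (3 / 10) κ PP tK tL tC pcB (scP esg pd) 0 0 2 0 3 1 (-1) x y y' := by
  obtain ⟨u, rfl⟩ : ∃ u, y = x + u := ⟨y - x, by ring⟩
  obtain ⟨b, hy⟩ : ∃ b, y' = 1 + b - (x + u) := ⟨y' + (x + u) - 1, by ring⟩
  rw [show x + u - x = u by ring] at h1
  rw [show x + u + y' - 1 = b by rw [hy]; ring] at h2
  rw [show y' - (1 - x) = -(u - b) by rw [hy]; ring, abs_neg] at h3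
  obtain ⟨u1, u2⟩ := abs_lt.1 h1
  exact fE_Bphk3 hF hU hκ x0 x1 h1 h2 h3 hy F (t1_0 F.q1) (shK0 F.q1 (by linarith) (by linarith)) (shL0 F.q1 (by linarith) (by linarith)) (shC0 F.q1 (by linarith) (by linarith))
theorem molE_B_002_03_0 {κ x : ℝ} (hκ : κ * h0 = ken x) (hx : ((536870912 : ℕ) : ℝ) / S ≤ x) (hx' : x ≤ (((536870912 : ℕ) : ℝ) + (50465866 : ℕ)) / S) :
    AltEB 3 κ (eng.v x) (3 / 40) (tnt (h0 * x) (3 / 10)) PP tK tL tC pcB (scP esg pd) [⟨0, 0, 1, 20971520⟩, ⟨1, 1, 2, 20971520⟩, ⟨2, 1, 0, 33554432⟩] 0 0 2 0 3 (sgb true) (sgb false) x := by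
  obtain ⟨x0, x1⟩ := xr hx hx'
  exact altEB_s fun y y' F h1 h3 h2 => DirEB.st (eng_n x) (BE3_002 (sideB hx hx') (thrU hx hx') hκ x0 x1 F (h1.trans_eq (by norm_num)) (h3.trans_eq (by norm_num)) (h2.trans_eq (by norm_num)))
theorem BE3_102 {x κ y y' : ℝ} (hF : SideOk PP tK tL pcB x) (hU : ThrOk PP tU pd x) (hκ : κ * h0 = ken x) (x0 : 1 / 2 ≤ x) (x1 : x ≤ 293668389 / 536870912)
    (F : FactsB PP 1 0 2 0 3 1 (-1) y y') (h1 : |y - x| < 5 / 256) (h3 : |y' - (1 - x)| < 5 / 256) (h2 : |y + y' - 1| < 1 / 32) :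
    DirEB (3 / 10) κ PP tK tL tC pcB (scP esg pd) 1 0 2 0 3 1 (-1) x y y' := by
  obtain ⟨u, rfl⟩ : ∃ u, y = x + u := ⟨y - x, by ring⟩
  obtain ⟨b, hy⟩ : ∃ b, y' = 1 + b - (x + u) := ⟨y' + (x + u) - 1, by ring⟩
  rw [show x + u - x = u by ring] at h1
  rw [show x + u + y' - 1 = b by rw [hy]; ring] at h2
  rw [show y' - (1 - x) = -(u - b) by rw [hy]; ring, abs_neg] at h3
  obtain ⟨u1, u2⟩ := abs_lt.1 h1
  exact fE_Bphk3 hF hU hκ x0 x1 h1 h2 h3 hy F (t1_1 F.q1) (shK1 F.q1 (by linarith) (by linarith)) (shL1 F.q1 (by linarith) (by linarith)) (shC1 F.q1 (by linarith) (by linarith))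
theorem molE_B_102_03_0 {κ x : ℝ} (hκ : κ * h0 = ken x) (hx : ((536870912 : ℕ) : ℝ) / S ≤ x) (hx' : x ≤ (((536870912 : ℕ) : ℝ) + (50465866 : ℕ)) / S) :
    AltEB 3 κ (eng.v x) (3 / 40) (tnt (h0 * x) (3 / 10)) PP tK tL tC pcB (scP esg pd) [⟨0, 0, 1, 20971520⟩, ⟨1, 1, 2, 20971520⟩, ⟨2, 1, 0, 33554432⟩] 1 0 2 0 3 (sgb true) (sgb false) x := by
  obtain ⟨x0, x1⟩ := xr hx hx'
  exact altEB_s fun y y' F h1 h3 h2 => DirEB.st (eng_n x) (BE3_102 (sideB hx hx') (thrU hx hx') hκ x0 x1 F (h1.trans_eq (by norm_num)) (h3.trans_eq (by norm_num)) (h2.trans_eq (by norm_num)))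
theorem w_Bml {u b x : ℝ} (x0 : 1 / 2 ≤ x) (x1 : x ≤ 293668389 / 536870912) (h1 : |u| < 5 / 256) (h2 : |b| < 1 / 32) (h3 : |u - b| < 5 / 256) (hb : b < 0) : (w3W true).v (1 - (x + u - b)) ≤ c1n (x + u) + sm.xs.v u b x := by
  obtain ⟨u1, u2⟩ := abs_lt.1 h1
  obtain ⟨b1, b2⟩ := abs_lt.1 h2
  obtain ⟨v1, v2⟩ := abs_lt.1 h3
  have cm1 : c1n (1 + b) ≥ 1 / 2 := c1n_half' hb.le (by linarith)
  have cm2 : c1n (x + u) ≥ c1n (x + u - b) := c1n_le' (by linarith) (by linarith)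
  rw [w3W_B]
  show c1n (x + u - b) + 1 / 2 ≤ c1n (x + u) + c1n (1 + b)
  linarith
theorem zKBml {u b x : ℝ} (hF : SideOk PP tK tL pcB x) (x0 : 1 / 2 ≤ x) (x1 : x ≤ 293668389 / 536870912) (h1 : |u| < 5 / 256) (h2 : |b| < 1 / 32) (h3 : |u - b| < 5 / 256) (hb : b < 0) (q3 : InQ 1 (1 - (x + u - b)))
    (hc : ∀ G ∈ cx_Bml, 0 < G.v u b x) : (pcB 1).K.v (c1n (x + u) + sm.xs.v u b x) (1 - (x + u - b)) x =
    -(((c1n (x + u - b) + 1 / 2) * cG (x + u - b) + kcg.v (psn (x + u - b)) x) * -(x + u - b)) + sK_Bml.v (c1n (x + u) + sm.xs.v u b x) (1 - (x + u - b)) x * (c1n (x + u) + sm.xs.v u b x - (c1n (x + u - b) + 1 / 2)) := by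
  have hw := w_Bml x0 x1 h1 h2 h3 hb
  obtain ⟨u1, u2⟩ := abs_lt.1 h1
  obtain ⟨b1, b2⟩ := abs_lt.1 h2
  obtain ⟨v1, v2⟩ := abs_lt.1 h3
  have y1 := q3.1
  have y2 := q3.2
  have c0 : 0 < (tCC (w3W true) cv3m).v (c1n (x + u) + sm.xs.v u b x) (1 - (x + u - b)) x := hc (f3B sm.xs (tCC (w3W true) cv3m)) (by unfold cx_Bml; simp only [List.mem_cons, true_or, or_true])
  have c1 : 0 < (tCC cv4m (w3W true)).v (c1n (x + u) + sm.xs.v u b x) (1 - (x + u - b)) x := hc (f3B sm.xs (tCC cv4m (w3W true))) (by unfold cx_Bml; simp only [List.mem_cons, true_or, or_true])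
  have c2 : 0 < (tCX cv4m).v (c1n (x + u) + sm.xs.v u b x) (1 - (x + u - b)) x := hc (f3B sm.xs (tCX cv4m)) (by unfold cx_Bml; simp only [List.mem_cons, true_or, or_true])
  refine (sKBml hF q3 (by linarith) (by linarith) c0 c1 c2 hw).trans ?_
  rw [w3K_B, w3W_B]
  push_cast
  ring
theorem zLBml {u b x : ℝ} (hF : SideOk PP tK tL pcB x) (x0 : 1 / 2 ≤ x) (x1 : x ≤ 293668389 / 536870912) (h1 : |u| < 5 / 256) (h2 : |b| < 1 / 32) (h3 : |u - b| < 5 / 256) (hb : b < 0) (q3 : InQ 1 (1 - (x + u - b)))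
    (hc : ∀ G ∈ cx_Bml, 0 < G.v u b x) : (pcB 1).L.v (c1n (x + u) + sm.xs.v u b x) (1 - (x + u - b)) x =
    cQ x (x + u - b) (kcg.v (psn (x + u - b)) x) + sX_Bml.v (c1n (x + u) + sm.xs.v u b x) (1 - (x + u - b)) x * (c1n (x + u) + sm.xs.v u b x - (c1n (x + u - b) + 1 / 2)) := by
  have hw := w_Bml x0 x1 h1 h2 h3 hb
  obtain ⟨u1, u2⟩ := abs_lt.1 h1
  obtain ⟨b1, b2⟩ := abs_lt.1 h2
  obtain ⟨v1, v2⟩ := abs_lt.1 h3
  have y1 := q3.1
  have y2 := q3.2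
  have c0 : 0 < (tCC (w3W true) cv3m).v (c1n (x + u) + sm.xs.v u b x) (1 - (x + u - b)) x := hc (f3B sm.xs (tCC (w3W true) cv3m)) (by unfold cx_Bml; simp only [List.mem_cons, true_or, or_true])
  have c1 : 0 < (tCC cv4m (w3W true)).v (c1n (x + u) + sm.xs.v u b x) (1 - (x + u - b)) x := hc (f3B sm.xs (tCC cv4m (w3W true))) (by unfold cx_Bml; simp only [List.mem_cons, true_or, or_true])
  have c2 : 0 < (tCX cv4m).v (c1n (x + u) + sm.xs.v u b x) (1 - (x + u - b)) x := hc (f3B sm.xs (tCX cv4m)) (by unfold cx_Bml; simp only [List.mem_cons, true_or, or_true])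
  refine (sLBml hF q3 (by linarith) (by linarith) c0 c1 c2 hw).trans ?_
  rw [w3Q_B, w3W_B]
theorem zDBml {u b x : ℝ} (hF : SideOk PP tK tL pcB x) (hU : ThrOk PP tU pd x) (x0 : 1 / 2 ≤ x) (x1 : x ≤ 293668389 / 536870912) (h1 : |u| < 5 / 256) (h2 : |b| < 1 / 32) (h3 : |u - b| < 5 / 256) (hb : b < 0) (q3 : InQ 1 (1 - (x + u - b)))
    (hc : ∀ G ∈ cx_Bml, 0 < G.v u b x) : (pd 1).v (c1n (x + u) + sm.xs.v u b x) (1 - (x + u - b)) x * -(x + u - b) =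
    -((cP (x + u - b) + 1 / 2 * cD (x + u - b) - (cR (x + u - b) + 2 * c1n (x + u - b) + 1) * kcg.v (psn (x + u - b)) x) * -(x + u - b)) + sD_Bml.v (c1n (x + u) + sm.xs.v u b x) (1 - (x + u - b)) x * (c1n (x + u) + sm.xs.v u b x - (c1n (x + u - b) + 1 / 2)) := by
  have hw := w_Bml x0 x1 h1 h2 h3 hb
  obtain ⟨u1, u2⟩ := abs_lt.1 h1
  obtain ⟨b1, b2⟩ := abs_lt.1 h2
  obtain ⟨v1, v2⟩ := abs_lt.1 h3
  have y1 := q3.1
  have y2 := q3.2
  have c0 : 0 < (tCC (w3W true) cv3m).v (c1n (x + u) + sm.xs.v u b x) (1 - (x + u - b)) x := hc (f3B sm.xs (tCC (w3W true) cv3m)) (by unfold cx_Bml; simp only [List.mem_cons, true_or, or_true])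
  have c1 : 0 < (tCC cv4m (w3W true)).v (c1n (x + u) + sm.xs.v u b x) (1 - (x + u - b)) x := hc (f3B sm.xs (tCC cv4m (w3W true))) (by unfold cx_Bml; simp only [List.mem_cons, true_or, or_true])
  have c2 : 0 < (tCX cv4m).v (c1n (x + u) + sm.xs.v u b x) (1 - (x + u - b)) x := hc (f3B sm.xs (tCX cv4m)) (by unfold cx_Bml; simp only [List.mem_cons, true_or, or_true])
  have e := sDBml hF hU q3 (by linarith) (by linarith) c0 c1 c2 hw
  rw [w3D_B, w3W_B] at e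
  push_cast at e
  linear_combination e
theorem fE_Bml {a : ℕ} {x u b κ τ y' : ℝ} (hF : SideOk PP tK tL pcB x) (hU : ThrOk PP tU pd x) (hκ : κ * h0 = ken x)
    (x0 : 1 / 2 ≤ x) (x1 : x ≤ 293668389 / 536870912) (h1 : |u| < 5 / 256) (h2 : |b| < 1 / 32) (h3 : |u - b| < 5 / 256) (hy : y' = 1 + b - (x + u)) (F : FactsB PP a 1 1 0 0 1 (-1) (x + u) y')
    (t1 : tau (h0 * (x + u)) = h0 * τ) (K1 : tK 0 a (x + u) x = (c1n (x + u) * cG (x + u) + kcg.v (psn (x + u)) x) * τ) (L1 : tL 0 a (x + u) x = cQ x (x + u) (kcg.v (psn (x + u)) x)) (C1 : tC 0 a (x + u) x = esn x * (cP (x + u) - (cR (x + u) + 2 * c1n (x + u)) * kcg.v (psn (x + u)) x)) :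
    DirEB (3 / 10) κ PP tK tL tC pcB (scP esg pd) a 1 1 0 0 1 (-1) x (x + u) y' := by
  obtain ⟨u1, u2⟩ := abs_lt.1 h1
  obtain ⟨b1, b2⟩ := abs_lt.1 h2
  obtain ⟨v1, v2⟩ := abs_lt.1 h3
  have e0 : x + u + y' = 1 + b := by rw [hy]; ring
  have qs : InQ 1 (1 + b) := e0 ▸ F.q3
  have hs1 : h0 * (1 + b) < 1 := e0 ▸ F.k0 rfl
  have hb : b < 0 := by linarith [qs.2]
  have D : DomB u b x := ⟨by linarith, by linarith, by linarith, by linarith, by linarith, by linarith, by linarith, by linarith⟩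
  have hY : y' = 1 - (x + u - b) := by rw [hy]; ring
  have q3 : InQ 1 (1 - (x + u - b)) := hY ▸ F.q2
  obtain ⟨p1, p2⟩ := psr (y := x + u) (by linarith) (by linarith)
  obtain ⟨p3, p4⟩ := psr (y := x + u - b) (by linarith) (by linarith)
  have hd := dqBm (dq_t x) hb (by linarith) (by linarith) (by linarith) (by linarith) p1 p2 p3 p4
  have hs : ∀ G ∈ sk_Bml, G.v u b x ≤ 0 := skPMB (v := 20971520) (hi := false) (abs_le.2 ⟨by unfold S; norm_num; linarith, by unfold S; norm_num; linarith⟩) (by simp only [cond_true, cond_false]; linarith [q3.1])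
  obtain ⟨r1, r2⟩ := rX x0 x1
  have K5 := Cht.cert (ng := true) (r := 20971520) ct_0Bml (u := u) (b := b) (x := x) (by unfold S; norm_num; linarith) (by unfold S; norm_num; linarith) (by simp only [cond_true, cond_false]; linarith) (by simp only [cond_true, cond_false]; unfold S; norm_num; linarith) r1 r2
  have K7 := Cht.cert (ng := true) (r := 20971520) ct_2Bml (u := u) (b := b) (x := x) (by unfold S; norm_num; linarith) (by unfold S; norm_num; linarith) (by simp only [cond_true, cond_false]; linarith) (by simp only [cond_true, cond_false]; unfold S; norm_num; linarith) r1 r2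
  have t3 := t3B1 F.q2 hy
  have hit : ((T_Bml.b false).at_ u b x).it * -(x + u - b) = 1 := by
    show -(x + u - b)⁻¹ * _ = _
    rw [neg_mul_neg]
    exact inv_mul_cancel₀ (ne_of_gt (by linarith))
  have hx : sm.xs.v u b x = 1 / 2 + b * sm.ws.v u b x := stM_x (by linarith) (by linarith)
  have hX : crv PP 0 1 (1 + b) = sm.xs.v u b x := crv0 1 (1 + b)
  have od : 1 ≤ qqn (c1n (x + u) + sm.xs.v u b x) (1 - (x + u - b)) ∧ qqn (c1n (x + u) + sm.xs.v u b x) (1 - (x + u - b)) ≤ 3 ∧ c1n (x + u) + sm.xs.v u b x ≠ 0 := by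
    have l1 := F.len1
    have l3 := F.len3
    have cp := c1n_pos' (y := x + u) (by nlinarith)
    have cn : 0 ≤ c1n (1 + b) := Mol.c1n_nn (1 + b)
    have e : -1 * crv PP 0 1 (x + u + y') - 1 * crv PP 0 a (x + u) = -(c1n (x + u) + sm.xs.v u b x) := by
      rw [e0, hX, crv0]
      ring
    rw [e, qqn_neg, hY] at l1 l3
    refine ⟨l1, l3, ne_of_gt ?_⟩
    show 0 < c1n (x + u) + c1n (1 + b)
    linarith
  have eX : -sm.xs.v u b x - c1n (x + u) = -(c1n (x + u) + sm.xs.v u b x) := by ring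
  have K3 : (∀ G ∈ cx_Bml, 0 < G.v u b x) → (pcB 1).K.v (-sm.xs.v u b x - c1n (x + u)) y' x = ((c1n (x + u - b) + 1 / 2) * cG (x + u - b) + kcg.v (psn (x + u - b)) x) * -(x + u - b) - sK_Bml.v (c1n (x + u) + sm.xs.v u b x) (1 - (x + u - b)) x * (c1n (x + u) + sm.xs.v u b x - (c1n (x + u - b) + 1 / 2)) := fun hc => by
    rw [eX, hY, (hF.odd q3 od.1 od.2.1 od.2.2).1, zKBml hF x0 x1 h1 h2 h3 hb q3 hc]
    ring
  have L3 : (∀ G ∈ cx_Bml, 0 < G.v u b x) → (pcB 1).L.v (-sm.xs.v u b x - c1n (x + u)) y' x = -(cQ x (x + u - b) (kcg.v (psn (x + u - b)) x) + sX_Bml.v (c1n (x + u) + sm.xs.v u b x) (1 - (x + u - b)) x * (c1n (x + u) + sm.xs.v u b x - (c1n (x + u - b) + 1 / 2))) := fun hc => by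
    rw [eX, hY, (hF.odd q3 od.1 od.2.1 od.2.2).2, zLBml hF x0 x1 h1 h2 h3 hb q3 hc]
  have C3 : (∀ G ∈ cx_Bml, 0 < G.v u b x) → (scP esg pd 1).v (-sm.xs.v u b x - c1n (x + u)) y' x = esn x * ((cP (x + u - b) + 1 / 2 * cD (x + u - b) - (cR (x + u - b) + 2 * c1n (x + u - b) + 1) * kcg.v (psn (x + u - b)) x) - ((T_Bml.b false).at_ u b x).it * sD_Bml.v (c1n (x + u) + sm.xs.v u b x) (1 - (x + u - b)) x * (c1n (x + u) + sm.xs.v u b x - (c1n (x + u - b) + 1 / 2))) := fun hc => by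
    rw [eX, hY]
    show esg.v x * (pd 1).v (-(c1n (x + u) + sm.xs.v u b x)) (1 - (x + u - b)) x = _
    rw [esg_n, hU.odd q3 od.1 od.2.1 od.2.2, div_it' (zDBml hF hU x0 x1 h1 h2 h3 hb q3 hc) hit]
  exact bothBm (T := T_Bml) (sk := sk_Bml) (cx := cx_Bml) (sk2 := sk_Bml) (cx2 := cx_Bml) D hb hκ hy hd hit t1 t3 hx hX (dc x0 x1) (by linarith) (by linarith) (by norm_num [T_Bml]) (by norm_num [T_Bml]) K5 hs K7 hs K1 (smK u hb qs (by linarith)) K3 L1 (smL u hb qs (by linarith)) L3 C1 (smC u hb qs (by linarith)) C3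
theorem BE_011 {x κ y y' : ℝ} (hF : SideOk PP tK tL pcB x) (hU : ThrOk PP tU pd x) (hκ : κ * h0 = ken x) (x0 : 1 / 2 ≤ x) (x1 : x ≤ 293668389 / 536870912)
    (F : FactsB PP 0 1 1 0 0 1 (-1) y y') (h1 : |y - x| < 5 / 256) (h3 : |y' - (1 - x)| < 5 / 256) (h2 : |y + y' - 1| < 1 / 32) :
    DirEB (3 / 10) κ PP tK tL tC pcB (scP esg pd) 0 1 1 0 0 1 (-1) x y y' := by
  obtain ⟨u, rfl⟩ : ∃ u, y = x + u := ⟨y - x, by ring⟩
  obtain ⟨b, hy⟩ : ∃ b, y' = 1 + b - (x + u) := ⟨y' + (x + u) - 1, by ring⟩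
  rw [show x + u - x = u by ring] at h1
  rw [show x + u + y' - 1 = b by rw [hy]; ring] at h2
  rw [show y' - (1 - x) = -(u - b) by rw [hy]; ring, abs_neg] at h3
  obtain ⟨u1, u2⟩ := abs_lt.1 h1
  exact fE_Bml hF hU hκ x0 x1 h1 h2 h3 hy F (t1_0 F.q1) (shK0 F.q1 (by linarith) (by linarith)) (shL0 F.q1 (by linarith) (by linarith)) (shC0 F.q1 (by linarith) (by linarith))
theorem molE_B_011_00_0 {κ x : ℝ} (hκ : κ * h0 = ken x) (hx : ((536870912 : ℕ) : ℝ) / S ≤ x) (hx' : x ≤ (((536870912 : ℕ) : ℝ) + (50465866 : ℕ)) / S) :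
    AltEB 3 κ (eng.v x) (3 / 40) (tnt (h0 * x) (3 / 10)) PP tK tL tC pcB (scP esg pd) [⟨0, 0, 1, 20971520⟩, ⟨1, 1, 2, 20971520⟩, ⟨2, 1, 0, 33554432⟩] 0 1 1 0 0 (sgb true) (sgb false) x := by
  obtain ⟨x0, x1⟩ := xr hx hx'
  exact altEB_s fun y y' F h1 h3 h2 => DirEB.st (eng_n x) (BE_011 (sideB hx hx') (thrU hx hx') hκ x0 x1 F (h1.trans_eq (by norm_num)) (h3.trans_eq (by norm_num)) (h2.trans_eq (by norm_num)))
theorem BE_111 {x κ y y' : ℝ} (hF : SideOk PP tK tL pcB x) (hU : ThrOk PP tU pd x) (hκ : κ * h0 = ken x) (x0 : 1 / 2 ≤ x) (x1 : x ≤ 293668389 / 536870912)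
    (F : FactsB PP 1 1 1 0 0 1 (-1) y y') (h1 : |y - x| < 5 / 256) (h3 : |y' - (1 - x)| < 5 / 256) (h2 : |y + y' - 1| < 1 / 32) :
    DirEB (3 / 10) κ PP tK tL tC pcB (scP esg pd) 1 1 1 0 0 1 (-1) x y y' := by
  obtain ⟨u, rfl⟩ : ∃ u, y = x + u := ⟨y - x, by ring⟩
  obtain ⟨b, hy⟩ : ∃ b, y' = 1 + b - (x + u) := ⟨y' + (x + u) - 1, by ring⟩
  rw [show x + u - x = u by ring] at h1
  rw [show x + u + y' - 1 = b by rw [hy]; ring] at h2
  rw [show y' - (1 - x) = -(u - b) by rw [hy]; ring, abs_neg] at h3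
  obtain ⟨u1, u2⟩ := abs_lt.1 h1
  exact fE_Bml hF hU hκ x0 x1 h1 h2 h3 hy F (t1_1 F.q1) (shK1 F.q1 (by linarith) (by linarith)) (shL1 F.q1 (by linarith) (by linarith)) (shC1 F.q1 (by linarith) (by linarith))
theorem molE_B_111_00_0 {κ x : ℝ} (hκ : κ * h0 = ken x) (hx : ((536870912 : ℕ) : ℝ) / S ≤ x) (hx' : x ≤ (((536870912 : ℕ) : ℝ) + (50465866 : ℕ)) / S) :
    AltEB 3 κ (eng.v x) (3 / 40) (tnt (h0 * x) (3 / 10)) PP tK tL tC pcB (scP esg pd) [⟨0, 0, 1, 20971520⟩, ⟨1, 1, 2, 20971520⟩, ⟨2, 1, 0, 33554432⟩] 1 1 1 0 0 (sgb true) (sgb false) x := by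
  obtain ⟨x0, x1⟩ := xr hx hx'
  exact altEB_s fun y y' F h1 h3 h2 => DirEB.st (eng_n x) (BE_111 (sideB hx hx') (thrU hx hx') hκ x0 x1 F (h1.trans_eq (by norm_num)) (h3.trans_eq (by norm_num)) (h2.trans_eq (by norm_num)))
theorem w_Bmh {u b x : ℝ} (x0 : 1 / 2 ≤ x) (x1 : x ≤ 293668389 / 536870912) (h1 : |u| < 5 / 256) (h2 : |b| < 1 / 32) (h3 : |u - b| < 5 / 256) (hb : b < 0) : (w3W true).v (1 - (x + u - b)) ≤ c1n (x + u) + sm.xs.v u b x := by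
  obtain ⟨u1, u2⟩ := abs_lt.1 h1
  obtain ⟨b1, b2⟩ := abs_lt.1 h2
  obtain ⟨v1, v2⟩ := abs_lt.1 h3
  have cm1 : c1n (1 + b) ≥ 1 / 2 := c1n_half' hb.le (by linarith)
  have cm2 : c1n (x + u) ≥ c1n (x + u - b) := c1n_le' (by linarith) (by linarith)
  rw [w3W_B]
  show c1n (x + u - b) + 1 / 2 ≤ c1n (x + u) + c1n (1 + b)
  linarith
theorem zKBmh {u b x : ℝ} (hF : SideOk PP tK tL pcB x) (x0 : 1 / 2 ≤ x) (x1 : x ≤ 293668389 / 536870912) (h1 : |u| < 5 / 256) (h2 : |b| < 1 / 32) (h3 : |u - b| < 5 / 256) (hb : b < 0) (q3 : InQ 0 (1 - (x + u - b)))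
    (hc : ∀ G ∈ cx_Bmh, 0 < G.v u b x) : (pcB 0).K.v (c1n (x + u) + sm.xs.v u b x) (1 - (x + u - b)) x =
    -(((c1n (x + u - b) + 1 / 2) * cG (x + u - b) + kcg.v (psn (x + u - b)) x) * (1 - (x + u - b))) + sK_Bmh.v (c1n (x + u) + sm.xs.v u b x) (1 - (x + u - b)) x * (c1n (x + u) + sm.xs.v u b x - (c1n (x + u - b) + 1 / 2)) := by
  have hw := w_Bmh x0 x1 h1 h2 h3 hb
  obtain ⟨u1, u2⟩ := abs_lt.1 h1
  obtain ⟨b1, b2⟩ := abs_lt.1 h2
  obtain ⟨v1, v2⟩ := abs_lt.1 h3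
  have y1 := q3.1
  have y2 := q3.2
  have c0 : 0 < (tCC (w3W true) cv3m).v (c1n (x + u) + sm.xs.v u b x) (1 - (x + u - b)) x := hc (f3B sm.xs (tCC (w3W true) cv3m)) (by unfold cx_Bmh; simp only [List.mem_cons, true_or, or_true])
  have c1 : 0 < (tCC cv4m (w3W true)).v (c1n (x + u) + sm.xs.v u b x) (1 - (x + u - b)) x := hc (f3B sm.xs (tCC cv4m (w3W true))) (by unfold cx_Bmh; simp only [List.mem_cons, true_or, or_true])
  have c2 : 0 < (tCX cv4m).v (c1n (x + u) + sm.xs.v u b x) (1 - (x + u - b)) x := hc (f3B sm.xs (tCX cv4m)) (by unfold cx_Bmh; simp only [List.mem_cons, true_or, or_true])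
  refine (sKBmh hF q3 (by linarith) (by linarith) c0 c1 c2 hw).trans ?_
  rw [w3K_B, w3W_B]
  push_cast
  ring
theorem zLBmh {u b x : ℝ} (hF : SideOk PP tK tL pcB x) (x0 : 1 / 2 ≤ x) (x1 : x ≤ 293668389 / 536870912) (h1 : |u| < 5 / 256) (h2 : |b| < 1 / 32) (h3 : |u - b| < 5 / 256) (hb : b < 0) (q3 : InQ 0 (1 - (x + u - b)))
    (hc : ∀ G ∈ cx_Bmh, 0 < G.v u b x) : (pcB 0).L.v (c1n (x + u) + sm.xs.v u b x) (1 - (x + u - b)) x =
    cQ x (x + u - b) (kcg.v (psn (x + u - b)) x) + sX_Bmh.v (c1n (x + u) + sm.xs.v u b x) (1 - (x + u - b)) x * (c1n (x + u) + sm.xs.v u b x - (c1n (x + u - b) + 1 / 2)) := by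
  have hw := w_Bmh x0 x1 h1 h2 h3 hb
  obtain ⟨u1, u2⟩ := abs_lt.1 h1
  obtain ⟨b1, b2⟩ := abs_lt.1 h2
  obtain ⟨v1, v2⟩ := abs_lt.1 h3
  have y1 := q3.1
  have y2 := q3.2
  have c0 : 0 < (tCC (w3W true) cv3m).v (c1n (x + u) + sm.xs.v u b x) (1 - (x + u - b)) x := hc (f3B sm.xs (tCC (w3W true) cv3m)) (by unfold cx_Bmh; simp only [List.mem_cons, true_or, or_true])
  have c1 : 0 < (tCC cv4m (w3W true)).v (c1n (x + u) + sm.xs.v u b x) (1 - (x + u - b)) x := hc (f3B sm.xs (tCC cv4m (w3W true))) (by unfold cx_Bmh; simp only [List.mem_cons, true_or, or_true])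
  have c2 : 0 < (tCX cv4m).v (c1n (x + u) + sm.xs.v u b x) (1 - (x + u - b)) x := hc (f3B sm.xs (tCX cv4m)) (by unfold cx_Bmh; simp only [List.mem_cons, true_or, or_true])
  refine (sLBmh hF q3 (by linarith) (by linarith) c0 c1 c2 hw).trans ?_
  rw [w3Q_B, w3W_B]
theorem zDBmh {u b x : ℝ} (hF : SideOk PP tK tL pcB x) (hU : ThrOk PP tU pd x) (x0 : 1 / 2 ≤ x) (x1 : x ≤ 293668389 / 536870912) (h1 : |u| < 5 / 256) (h2 : |b| < 1 / 32) (h3 : |u - b| < 5 / 256) (hb : b < 0) (q3 : InQ 0 (1 - (x + u - b)))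
    (hc : ∀ G ∈ cx_Bmh, 0 < G.v u b x) : (pd 0).v (c1n (x + u) + sm.xs.v u b x) (1 - (x + u - b)) x * (1 - (x + u - b)) =
    -((cP (x + u - b) + 1 / 2 * cD (x + u - b) - (cR (x + u - b) + 2 * c1n (x + u - b) + 1) * kcg.v (psn (x + u - b)) x) * (1 - (x + u - b))) + sD_Bmh.v (c1n (x + u) + sm.xs.v u b x) (1 - (x + u - b)) x * (c1n (x + u) + sm.xs.v u b x - (c1n (x + u - b) + 1 / 2)) := by
  have hw := w_Bmh x0 x1 h1 h2 h3 hb
  obtain ⟨u1, u2⟩ := abs_lt.1 h1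
  obtain ⟨b1, b2⟩ := abs_lt.1 h2
  obtain ⟨v1, v2⟩ := abs_lt.1 h3
  have y1 := q3.1
  have y2 := q3.2
  have c0 : 0 < (tCC (w3W true) cv3m).v (c1n (x + u) + sm.xs.v u b x) (1 - (x + u - b)) x := hc (f3B sm.xs (tCC (w3W true) cv3m)) (by unfold cx_Bmh; simp only [List.mem_cons, true_or, or_true])
  have c1 : 0 < (tCC cv4m (w3W true)).v (c1n (x + u) + sm.xs.v u b x) (1 - (x + u - b)) x := hc (f3B sm.xs (tCC cv4m (w3W true))) (by unfold cx_Bmh; simp only [List.mem_cons, true_or, or_true])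
  have c2 : 0 < (tCX cv4m).v (c1n (x + u) + sm.xs.v u b x) (1 - (x + u - b)) x := hc (f3B sm.xs (tCX cv4m)) (by unfold cx_Bmh; simp only [List.mem_cons, true_or, or_true])
  have e := sDBmh hF hU q3 (by linarith) (by linarith) c0 c1 c2 hw
  rw [w3D_B, w3W_B] at e
  push_cast at e
  linear_combination e
theorem fE_Bmh {a : ℕ} {x u b κ τ y' : ℝ} (hF : SideOk PP tK tL pcB x) (hU : ThrOk PP tU pd x) (hκ : κ * h0 = ken x)
    (x0 : 1 / 2 ≤ x) (x1 : x ≤ 293668389 / 536870912) (h1 : |u| < 5 / 256) (h2 : |b| < 1 / 32) (h3 : |u - b| < 5 / 256) (hy : y' = 1 + b - (x + u)) (F : FactsB PP a 0 1 0 0 1 (-1) (x + u) y')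
    (t1 : tau (h0 * (x + u)) = h0 * τ) (K1 : tK 0 a (x + u) x = (c1n (x + u) * cG (x + u) + kcg.v (psn (x + u)) x) * τ) (L1 : tL 0 a (x + u) x = cQ x (x + u) (kcg.v (psn (x + u)) x)) (C1 : tC 0 a (x + u) x = esn x * (cP (x + u) - (cR (x + u) + 2 * c1n (x + u)) * kcg.v (psn (x + u)) x)) :
    DirEB (3 / 10) κ PP tK tL tC pcB (scP esg pd) a 0 1 0 0 1 (-1) x (x + u) y' := by
  obtain ⟨u1, u2⟩ := abs_lt.1 h1
  obtain ⟨b1, b2⟩ := abs_lt.1 h2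
  obtain ⟨v1, v2⟩ := abs_lt.1 h3
  have e0 : x + u + y' = 1 + b := by rw [hy]; ring
  have qs : InQ 1 (1 + b) := e0 ▸ F.q3
  have hs1 : h0 * (1 + b) < 1 := e0 ▸ F.k0 rfl
  have hb : b < 0 := by linarith [qs.2]
  have D : DomB u b x := ⟨by linarith, by linarith, by linarith, by linarith, by linarith, by linarith, by linarith, by linarith⟩
  have hY : y' = 1 - (x + u - b) := by rw [hy]; ring
  have q3 : InQ 0 (1 - (x + u - b)) := hY ▸ F.q2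
  obtain ⟨p1, p2⟩ := psr (y := x + u) (by linarith) (by linarith)
  obtain ⟨p3, p4⟩ := psr (y := x + u - b) (by linarith) (by linarith)
  have hd := dqBm (dq_t x) hb (by linarith) (by linarith) (by linarith) (by linarith) p1 p2 p3 p4
  have hs : ∀ G ∈ sk_Bmh, G.v u b x ≤ 0 := skPMB (v := 20971520) (hi := true) (abs_le.2 ⟨by unfold S; norm_num; linarith, by unfold S; norm_num; linarith⟩) (by simp only [cond_true, cond_false]; linarith [q3.2])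
  obtain ⟨r1, r2⟩ := rX x0 x1
  have K5 := Cht.cert (ng := true) (r := 20971520) ct_0Bmh (u := u) (b := b) (x := x) (by unfold S; norm_num; linarith) (by unfold S; norm_num; linarith) (by simp only [cond_true, cond_false]; linarith) (by simp only [cond_true, cond_false]; unfold S; norm_num; linarith) r1 r2
  have K7 := Cht.cert (ng := true) (r := 20971520) ct_2Bmh (u := u) (b := b) (x := x) (by unfold S; norm_num; linarith) (by unfold S; norm_num; linarith) (by simp only [cond_true, cond_false]; linarith) (by simp only [cond_true, cond_false]; unfold S; norm_num; linarith) r1 r2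
  have t3 := t3B0 F.q2 hy
  have hit : ((T_Bmh.b false).at_ u b x).it * (1 - (x + u - b)) = 1 := by
    show (1 - (x + u - b))⁻¹ * _ = _
    exact inv_mul_cancel₀ (ne_of_gt (by linarith))
  have hx : sm.xs.v u b x = 1 / 2 + b * sm.ws.v u b x := stM_x (by linarith) (by linarith)
  have hX : crv PP 0 1 (1 + b) = sm.xs.v u b x := crv0 1 (1 + b)
  have od : 1 ≤ qqn (c1n (x + u) + sm.xs.v u b x) (1 - (x + u - b)) ∧ qqn (c1n (x + u) + sm.xs.v u b x) (1 - (x + u - b)) ≤ 3 ∧ c1n (x + u) + sm.xs.v u b x ≠ 0 := by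
    have l1 := F.len1
    have l3 := F.len3
    have cp := c1n_pos' (y := x + u) (by nlinarith)
    have cn : 0 ≤ c1n (1 + b) := Mol.c1n_nn (1 + b)
    have e : -1 * crv PP 0 1 (x + u + y') - 1 * crv PP 0 a (x + u) = -(c1n (x + u) + sm.xs.v u b x) := by
      rw [e0, hX, crv0]
      ring
    rw [e, qqn_neg, hY] at l1 l3
    refine ⟨l1, l3, ne_of_gt ?_⟩
    show 0 < c1n (x + u) + c1n (1 + b)
    linarith
  have eX : -sm.xs.v u b x - c1n (x + u) = -(c1n (x + u) + sm.xs.v u b x) := by ring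
  have K3 : (∀ G ∈ cx_Bmh, 0 < G.v u b x) → (pcB 0).K.v (-sm.xs.v u b x - c1n (x + u)) y' x = ((c1n (x + u - b) + 1 / 2) * cG (x + u - b) + kcg.v (psn (x + u - b)) x) * (1 - (x + u - b)) - sK_Bmh.v (c1n (x + u) + sm.xs.v u b x) (1 - (x + u - b)) x * (c1n (x + u) + sm.xs.v u b x - (c1n (x + u - b) + 1 / 2)) := fun hc => by
    rw [eX, hY, (hF.odd q3 od.1 od.2.1 od.2.2).1, zKBmh hF x0 x1 h1 h2 h3 hb q3 hc]
    ring
  have L3 : (∀ G ∈ cx_Bmh, 0 < G.v u b x) → (pcB 0).L.v (-sm.xs.v u b x - c1n (x + u)) y' x = -(cQ x (x + u - b) (kcg.v (psn (x + u - b)) x) + sX_Bmh.v (c1n (x + u) + sm.xs.v u b x) (1 - (x + u - b)) x * (c1n (x + u) + sm.xs.v u b x - (c1n (x + u - b) + 1 / 2))) := fun hc => by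
    rw [eX, hY, (hF.odd q3 od.1 od.2.1 od.2.2).2, zLBmh hF x0 x1 h1 h2 h3 hb q3 hc]
  have C3 : (∀ G ∈ cx_Bmh, 0 < G.v u b x) → (scP esg pd 0).v (-sm.xs.v u b x - c1n (x + u)) y' x = esn x * ((cP (x + u - b) + 1 / 2 * cD (x + u - b) - (cR (x + u - b) + 2 * c1n (x + u - b) + 1) * kcg.v (psn (x + u - b)) x) - ((T_Bmh.b false).at_ u b x).it * sD_Bmh.v (c1n (x + u) + sm.xs.v u b x) (1 - (x + u - b)) x * (c1n (x + u) + sm.xs.v u b x - (c1n (x + u - b) + 1 / 2))) := fun hc => by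
    rw [eX, hY]
    show esg.v x * (pd 0).v (-(c1n (x + u) + sm.xs.v u b x)) (1 - (x + u - b)) x = _
    rw [esg_n, hU.odd q3 od.1 od.2.1 od.2.2, div_it' (zDBmh hF hU x0 x1 h1 h2 h3 hb q3 hc) hit]
  exact bothBm (T := T_Bmh) (sk := sk_Bmh) (cx := cx_Bmh) (sk2 := sk_Bmh) (cx2 := cx_Bmh) D hb hκ hy hd hit t1 t3 hx hX (dc x0 x1) (by linarith) (by linarith) (by norm_num [T_Bmh]) (by norm_num [T_Bmh]) K5 hs K7 hs K1 (smK u hb qs (by linarith)) K3 L1 (smL u hb qs (by linarith)) L3 C1 (smC u hb qs (by linarith)) C3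
theorem BE_001 {x κ y y' : ℝ} (hF : SideOk PP tK tL pcB x) (hU : ThrOk PP tU pd x) (hκ : κ * h0 = ken x) (x0 : 1 / 2 ≤ x) (x1 : x ≤ 293668389 / 536870912)
    (F : FactsB PP 0 0 1 0 0 1 (-1) y y') (h1 : |y - x| < 5 / 256) (h3 : |y' - (1 - x)| < 5 / 256) (h2 : |y + y' - 1| < 1 / 32) :
    DirEB (3 / 10) κ PP tK tL tC pcB (scP esg pd) 0 0 1 0 0 1 (-1) x y y' := by
  obtain ⟨u, rfl⟩ : ∃ u, y = x + u := ⟨y - x, by ring⟩
  obtain ⟨b, hy⟩ : ∃ b, y' = 1 + b - (x + u) := ⟨y' + (x + u) - 1, by ring⟩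
  rw [show x + u - x = u by ring] at h1
  rw [show x + u + y' - 1 = b by rw [hy]; ring] at h2
  rw [show y' - (1 - x) = -(u - b) by rw [hy]; ring, abs_neg] at h3
  obtain ⟨u1, u2⟩ := abs_lt.1 h1
  exact fE_Bmh hF hU hκ x0 x1 h1 h2 h3 hy F (t1_0 F.q1) (shK0 F.q1 (by linarith) (by linarith)) (shL0 F.q1 (by linarith) (by linarith)) (shC0 F.q1 (by linarith) (by linarith))
theorem molE_B_001_00_0 {κ x : ℝ} (hκ : κ * h0 = ken x) (hx : ((536870912 : ℕ) : ℝ) / S ≤ x) (hx' : x ≤ (((536870912 : ℕ) : ℝ) + (50465866 : ℕ)) / S) :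
    AltEB 3 κ (eng.v x) (3 / 40) (tnt (h0 * x) (3 / 10)) PP tK tL tC pcB (scP esg pd) [⟨0, 0, 1, 20971520⟩, ⟨1, 1, 2, 20971520⟩, ⟨2, 1, 0, 33554432⟩] 0 0 1 0 0 (sgb true) (sgb false) x := by
  obtain ⟨x0, x1⟩ := xr hx hx'
  exact altEB_s fun y y' F h1 h3 h2 => DirEB.st (eng_n x) (BE_001 (sideB hx hx') (thrU hx hx') hκ x0 x1 F (h1.trans_eq (by norm_num)) (h3.trans_eq (by norm_num)) (h2.trans_eq (by norm_num)))
theorem BE_101 {x κ y y' : ℝ} (hF : SideOk PP tK tL pcB x) (hU : ThrOk PP tU pd x) (hκ : κ * h0 = ken x) (x0 : 1 / 2 ≤ x) (x1 : x ≤ 293668389 / 536870912)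
    (F : FactsB PP 1 0 1 0 0 1 (-1) y y') (h1 : |y - x| < 5 / 256) (h3 : |y' - (1 - x)| < 5 / 256) (h2 : |y + y' - 1| < 1 / 32) :
    DirEB (3 / 10) κ PP tK tL tC pcB (scP esg pd) 1 0 1 0 0 1 (-1) x y y' := by
  obtain ⟨u, rfl⟩ : ∃ u, y = x + u := ⟨y - x, by ring⟩
  obtain ⟨b, hy⟩ : ∃ b, y' = 1 + b - (x + u) := ⟨y' + (x + u) - 1, by ring⟩
  rw [show x + u - x = u by ring] at h1
  rw [show x + u + y' - 1 = b by rw [hy]; ring] at h2
  rw [show y' - (1 - x) = -(u - b) by rw [hy]; ring, abs_neg] at h3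
  obtain ⟨u1, u2⟩ := abs_lt.1 h1
  exact fE_Bmh hF hU hκ x0 x1 h1 h2 h3 hy F (t1_1 F.q1) (shK1 F.q1 (by linarith) (by linarith)) (shL1 F.q1 (by linarith) (by linarith)) (shC1 F.q1 (by linarith) (by linarith))
theorem molE_B_101_00_0 {κ x : ℝ} (hκ : κ * h0 = ken x) (hx : ((536870912 : ℕ) : ℝ) / S ≤ x) (hx' : x ≤ (((536870912 : ℕ) : ℝ) + (50465866 : ℕ)) / S) :
    AltEB 3 κ (eng.v x) (3 / 40) (tnt (h0 * x) (3 / 10)) PP tK tL tC pcB (scP esg pd) [⟨0, 0, 1, 20971520⟩, ⟨1, 1, 2, 20971520⟩, ⟨2, 1, 0, 33554432⟩] 1 0 1 0 0 (sgb true) (sgb false) x := by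
  obtain ⟨x0, x1⟩ := xr hx hx'
  exact altEB_s fun y y' F h1 h3 h2 => DirEB.st (eng_n x) (BE_101 (sideB hx hx') (thrU hx hx') hκ x0 x1 F (h1.trans_eq (by norm_num)) (h3.trans_eq (by norm_num)) (h2.trans_eq (by norm_num)))

end Pool.Agent.Strip051.G.I5000_5470.Tab.Mo
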