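import Pool.Agent.Strip051.PB.StripQF
import Pool.Agent.Strip051.PB.StripC
import Pool.Agent.Strip051.G.I5000_5470.Fact

/-! # Facts about the strips of a table (generated) -/

set_option linter.all false
set_option maxRecDepth 4000

namespace Pool.Agent.Strip051.G.I5000_5470.Tab.St

open Pool.Agent.Strip051.PB Pool.Agent.StripNear Pool.Agent.Strip051.LC
open Pool.Agent.Strip051.G.I5000_5470.Tab

noncomputable def sl1 : Fn1 := ⟨_, _, fun h1 => (enc_norm (enc_subr 79050793 10000000 (enc_scale 53937367 2000000 (enc_subr 1047 2000 h1))))⟩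
noncomputable def sv1 : Fn1 := ⟨_, _, fun h1 => (enc_norm (enc_subr 1018997 625000 (enc_scale 111356089 20000000 (enc_subr 1047 2000 h1))))⟩
noncomputable def sw1 : Fn1 := ⟨_, _, fun h1 => (enc_norm (enc_subr 4407147 500000 (enc_scale 599321 20000 (enc_subr 1047 2000 h1))))⟩
noncomputable def sl2 : Fn1 := ⟨_, _, fun h1 => (enc_norm (enc_subr 401739887 20000000 (enc_scale 12893 2000000 (enc_subr 1047 2000 h1))))⟩
noncomputable def sv2 : Fn1 := ⟨_, _, fun h1 => (enc_norm (enc_subr 109283153 25000000 (enc_neg (enc_scale 4986991 10000000 (enc_subr 1047 2000 h1)))))⟩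
noncomputable def sw2 : Fn1 := ⟨_, _, fun h1 => (enc_norm (enc_subr 4469951 200000 (enc_scale 801 100000 (enc_subr 1047 2000 h1))))⟩
noncomputable def sl3 : Fn1 := ⟨_, _, fun h1 => (enc_norm (enc_subr 264048557 20000000 (enc_scale 7584471 1000000 (enc_subr 1047 2000 h1))))⟩
noncomputable def sv3 : Fn1 := ⟨_, _, fun h1 => (enc_norm (enc_subr 467877 156250 (enc_scale 10169059 10000000 (enc_subr 1047 2000 h1))))⟩
noncomputable def sw3 : Fn1 := ⟨_, _, fun h1 => (enc_norm (enc_subr 13744047 1000000 (enc_scale 474027 50000 (enc_subr 1047 2000 h1))))⟩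
noncomputable def sl4 : Fn1 := ⟨_, _, fun h1 => (enc_norm (enc_sub (enc_rat _ 67024257 5000000) (enc_scale 24651297 2000000 (enc_subr 1047 2000 h1))))⟩
noncomputable def sv4 : Fn1 := ⟨_, _, fun h1 => (enc_norm (enc_sub (enc_rat _ 83093053 50000000) (enc_scale 9869459 4000000 (enc_subr 1047 2000 h1))))⟩
noncomputable def sw4 : Fn1 := ⟨_, _, fun h1 => (enc_norm (enc_sub (enc_rat _ 1516647 62500) (enc_scale 1896249 100000 (enc_subr 1047 2000 h1))))⟩
noncomputable def sl5 : Fn1 := ⟨_, _, fun h1 => (enc_norm (enc_add (enc_scale 9481309 2000000 (enc_subr 1047 2000 h1)) (enc_rat _ 287953059 20000000)))⟩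
noncomputable def sv5 : Fn1 := ⟨_, _, fun h1 => (enc_norm (enc_add (enc_scale 1851611 20000000 (enc_subr 1047 2000 h1)) (enc_rat _ 362156263 200000000)))⟩
noncomputable def sw5 : Fn1 := ⟨_, _, fun h1 => (enc_norm (enc_add (enc_scale 189627 20000 (enc_subr 1047 2000 h1)) (enc_rat _ 25921021 1000000)))⟩
noncomputable def sl6 : Fn1 := ⟨_, _, fun h1 => (enc_norm (enc_add (enc_scale 10511 2000000 (enc_subr 1047 2000 h1)) (enc_rat _ 54422461 20000000)))⟩
noncomputable def sv6 : Fn1 := ⟨_, _, fun h1 => (enc_norm (enc_sub (enc_rat _ 35121509 100000000) (enc_scale 2496721 5000000 (enc_subr 1047 2000 h1))))⟩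
noncomputable def sw6 : Fn1 := ⟨_, _, fun h1 => (enc_norm (enc_add (enc_scale 211 20000 (enc_subr 1047 2000 h1)) (enc_rat _ 2567961 1000000)))⟩
noncomputable def sl7 : Fn1 := ⟨_, _, fun h1 => (enc_norm (enc_subr 84258053 20000000 (enc_neg (enc_scale 14529 2000000 (enc_subr 1047 2000 h1)))))⟩
noncomputable def sv7 : Fn1 := ⟨_, _, fun h1 => (enc_norm (enc_subr 34218749 100000000 (enc_neg (enc_scale 2502981 5000000 (enc_subr 1047 2000 h1)))))⟩
noncomputable def sw7 : Fn1 := ⟨_, _, fun h1 => (enc_norm (enc_subr 14767103 1000000 (enc_neg (enc_scale 83 4000 (enc_subr 1047 2000 h1)))))⟩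
noncomputable def sl8 : Fn1 := ⟨_, _, fun h1 => (enc_norm (enc_subr 13827973 10000000 (enc_scale 30002039 1000000 (enc_subr 1047 2000 h1))))⟩
noncomputable def sv8 : Fn1 := ⟨_, _, fun h1 => (enc_norm (enc_subr 40603 312500 (enc_scale 2187627 1250000 (enc_subr 1047 2000 h1))))⟩
noncomputable def sw8 : Fn1 := ⟨_, _, fun h1 => (enc_norm (enc_subr 2666709 500000 (enc_scale 5000513 50000 (enc_subr 1047 2000 h1))))⟩
noncomputable def sl9 : Fn1 := ⟨_, _, fun h1 => (enc_norm (enc_sub (enc_rat _ 34528611 20000000) (enc_scale 19999973 2000000 (enc_subr 1047 2000 h1))))⟩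
noncomputable def sv9 : Fn1 := ⟨_, _, fun h1 => (enc_norm (enc_sub (enc_rat _ 5106359 200000000) (enc_scale 4999993 20000000 (enc_subr 1047 2000 h1))))⟩
noncomputable def sw9 : Fn1 := ⟨_, _, fun h1 => (enc_norm (enc_sub (enc_rat _ 10212721 1000000) (enc_scale 9999987 100000 (enc_subr 1047 2000 h1))))⟩
noncomputable def sl10 : Fn1 := ⟨_, _, fun h1 => (enc_rat _ 3525793 5000000)⟩
noncomputable def sv10 : Fn1 := ⟨_, _, fun h1 => (enc_pnc _ 0)⟩
noncomputable def sl11 : Fn1 := ⟨_, _, fun h1 => (enc_norm (enc_sub (enc_rat _ 34528611 20000000) (enc_scale 19999973 2000000 (enc_subr 1047 2000 h1))))⟩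
noncomputable def sv11 : Fn1 := ⟨_, _, fun h1 => (enc_norm (enc_subr 5106359 200000000 (enc_scale 4999993 20000000 (enc_subr 1047 2000 h1))))⟩
noncomputable def sw11 : Fn1 := ⟨_, _, fun h1 => (enc_norm (enc_subr 10212721 1000000 (enc_scale 9999987 100000 (enc_subr 1047 2000 h1))))⟩
noncomputable def sl12 : Fn1 := ⟨_, _, fun h1 => (enc_norm (enc_subr 13827973 10000000 (enc_scale 30002039 1000000 (enc_subr 1047 2000 h1))))⟩
noncomputable def sv12 : Fn1 := ⟨_, _, fun h1 => (enc_norm (enc_sub (enc_rat _ 40603 312500) (enc_scale 2187627 1250000 (enc_subr 1047 2000 h1))))⟩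
noncomputable def sw12 : Fn1 := ⟨_, _, fun h1 => (enc_norm (enc_sub (enc_rat _ 2666709 500000) (enc_scale 5000513 50000 (enc_subr 1047 2000 h1))))⟩
noncomputable def sl13 : Fn1 := ⟨_, _, fun h1 => (enc_norm (enc_subr 84258053 20000000 (enc_neg (enc_scale 14529 2000000 (enc_subr 1047 2000 h1)))))⟩
noncomputable def sv13 : Fn1 := ⟨_, _, fun h1 => (enc_norm (enc_add (enc_scale 2502981 5000000 (enc_subr 1047 2000 h1)) (enc_rat _ 34218749 100000000)))⟩
noncomputable def sw13 : Fn1 := ⟨_, _, fun h1 => (enc_norm (enc_add (enc_scale 83 4000 (enc_subr 1047 2000 h1)) (enc_rat _ 14767103 1000000)))⟩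
noncomputable def sl14 : Fn1 := ⟨_, _, fun h1 => (enc_norm (enc_add (enc_scale 10511 2000000 (enc_subr 1047 2000 h1)) (enc_rat _ 54422461 20000000)))⟩
noncomputable def sv14 : Fn1 := ⟨_, _, fun h1 => (enc_norm (enc_subr 35121509 100000000 (enc_scale 2496721 5000000 (enc_subr 1047 2000 h1))))⟩
noncomputable def sw14 : Fn1 := ⟨_, _, fun h1 => (enc_norm (enc_subr 2567961 1000000 (enc_neg (enc_scale 211 20000 (enc_subr 1047 2000 h1)))))⟩
noncomputable def sl15 : Fn1 := ⟨_, _, fun h1 => (enc_norm (enc_add (enc_scale 9481309 2000000 (enc_subr 1047 2000 h1)) (enc_rat _ 287953059 20000000)))⟩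
noncomputable def sv15 : Fn1 := ⟨_, _, fun h1 => (enc_norm (enc_subr 362156263 200000000 (enc_neg (enc_scale 1851611 20000000 (enc_subr 1047 2000 h1)))))⟩
noncomputable def sw15 : Fn1 := ⟨_, _, fun h1 => (enc_norm (enc_subr 25921021 1000000 (enc_neg (enc_scale 189627 20000 (enc_subr 1047 2000 h1)))))⟩
noncomputable def sl16 : Fn1 := ⟨_, _, fun h1 => (enc_norm (enc_sub (enc_rat _ 67024257 5000000) (enc_scale 24651297 2000000 (enc_subr 1047 2000 h1))))⟩
noncomputable def sv16 : Fn1 := ⟨_, _, fun h1 => (enc_norm (enc_subr 83093053 50000000 (enc_scale 9869459 4000000 (enc_subr 1047 2000 h1))))⟩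
noncomputable def sw16 : Fn1 := ⟨_, _, fun h1 => (enc_norm (enc_subr 1516647 62500 (enc_scale 1896249 100000 (enc_subr 1047 2000 h1))))⟩
noncomputable def sl17 : Fn1 := ⟨_, _, fun h1 => (enc_norm (enc_subr 264048557 20000000 (enc_scale 7584471 1000000 (enc_subr 1047 2000 h1))))⟩
noncomputable def sv17 : Fn1 := ⟨_, _, fun h1 => (enc_norm (enc_sub (enc_rat _ 467877 156250) (enc_scale 10169059 10000000 (enc_subr 1047 2000 h1))))⟩
noncomputable def sw17 : Fn1 := ⟨_, _, fun h1 => (enc_norm (enc_sub (enc_rat _ 13744047 1000000) (enc_scale 474027 50000 (enc_subr 1047 2000 h1))))⟩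
noncomputable def sl18 : Fn1 := ⟨_, _, fun h1 => (enc_norm (enc_subr 401739887 20000000 (enc_scale 12893 2000000 (enc_subr 1047 2000 h1))))⟩
noncomputable def sv18 : Fn1 := ⟨_, _, fun h1 => (enc_norm (enc_add (enc_scale 4986991 10000000 (enc_subr 1047 2000 h1)) (enc_rat _ 109283153 25000000)))⟩
noncomputable def sw18 : Fn1 := ⟨_, _, fun h1 => (enc_norm (enc_sub (enc_rat _ 4469951 200000) (enc_scale 801 100000 (enc_subr 1047 2000 h1))))⟩
noncomputable def sl19 : Fn1 := ⟨_, _, fun h1 => (enc_norm (enc_subr 79050793 10000000 (enc_scale 53937367 2000000 (enc_subr 1047 2000 h1))))⟩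
noncomputable def sv19 : Fn1 := ⟨_, _, fun h1 => (enc_norm (enc_sub (enc_rat _ 1018997 625000) (enc_scale 111356089 20000000 (enc_subr 1047 2000 h1))))⟩
noncomputable def sw19 : Fn1 := ⟨_, _, fun h1 => (enc_norm (enc_sub (enc_rat _ 4407147 500000) (enc_scale 599321 20000 (enc_subr 1047 2000 h1))))⟩
noncomputable def sl38 : Fn1 := ⟨_, _, fun h1 => (enc_norm (enc_sub (enc_rat _ 11434891 75000000) (enc_scale 3545087 625000 (enc_subr 1047 2000 h1))))⟩
noncomputable def sv38 : Fn1 := ⟨_, _, fun h1 => (enc_norm (enc_sub (enc_rat _ 21896507 300000000) (enc_scale 5782623 5000000 (enc_subr 1047 2000 h1))))⟩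
noncomputable def sw38 : Fn1 := ⟨_, _, fun h1 => (enc_norm (enc_sub (enc_rat _ 12977 1000000) (enc_scale 335909 50000 (enc_subr 1047 2000 h1))))⟩
noncomputable def sl39 : Fn1 := ⟨_, _, fun h1 => (enc_norm (enc_subr 212389987 150000000 (enc_scale 70305103 7500000 (enc_subr 1047 2000 h1))))⟩
noncomputable def sv39 : Fn1 := ⟨_, _, fun h1 => (enc_norm (enc_subr 2040444751 7500000000 (enc_scale 807610969 375000000 (enc_subr 1047 2000 h1))))⟩
noncomputable def sw39 : Fn1 := ⟨_, _, fun h1 => (enc_norm (enc_subr 884647 500000 (enc_scale 259493 25000 (enc_subr 1047 2000 h1))))⟩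
noncomputable def sl40 : Fn1 := ⟨_, _, fun h1 => (enc_norm (enc_sub (enc_rat _ 29315143 30000000) (enc_scale 2519923 300000 (enc_subr 1047 2000 h1))))⟩
noncomputable def sv40 : Fn1 := ⟨_, _, fun h1 => (enc_norm (enc_sub (enc_rat _ 1369729361 7500000000) (enc_scale 91753871 75000000 (enc_subr 1047 2000 h1))))⟩
noncomputable def sw40 : Fn1 := ⟨_, _, fun h1 => (enc_norm (enc_sub (enc_rat _ 172441 125000) (enc_scale 32517 2500 (enc_subr 1047 2000 h1))))⟩
noncomputable def sl41 : Fn1 := ⟨_, _, fun h1 => (enc_norm (enc_sub (enc_rat _ 38989617 50000000) (enc_scale 104415223 15000000 (enc_subr 1047 2000 h1))))⟩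
noncomputable def sv41 : Fn1 := ⟨_, _, fun h1 => (enc_norm (enc_sub (enc_rat _ 377624859 2500000000) (enc_scale 372445523 375000000 (enc_subr 1047 2000 h1))))⟩
noncomputable def sw41 : Fn1 := ⟨_, _, fun h1 => (enc_norm (enc_sub (enc_rat _ 1071123 1000000) (enc_scale 1075879 100000 (enc_subr 1047 2000 h1))))⟩
noncomputable def sl42 : Fn1 := ⟨_, _, fun h1 => (enc_norm (enc_add (enc_scale 20914547 15000000 (enc_subr 1047 2000 h1)) (enc_rat _ 6902467 10000000)))⟩
noncomputable def sv42 : Fn1 := ⟨_, _, fun h1 => (enc_norm (enc_add (enc_scale 3487621 37500000 (enc_subr 1047 2000 h1)) (enc_rat _ 139409 1000000)))⟩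
noncomputable def sw42 : Fn1 := ⟨_, _, fun h1 => (enc_norm (enc_add (enc_scale 530913 100000 (enc_subr 1047 2000 h1)) (enc_rat _ 22473 25000)))⟩
noncomputable def sl43 : Fn1 := ⟨_, _, fun h1 => (enc_norm (enc_sub (enc_rat _ 59072947 100000000) (enc_scale 2999259 10000000 (enc_subr 1047 2000 h1))))⟩
noncomputable def sv43 : Fn1 := ⟨_, _, fun h1 => (enc_norm (enc_sub (enc_rat _ 64728637 500000000) (enc_scale 3820989 50000000 (enc_subr 1047 2000 h1))))⟩
noncomputable def sw43 : Fn1 := ⟨_, _, fun h1 => (enc_norm (enc_add (enc_scale 26839 25000 (enc_subr 1047 2000 h1)) (enc_rat _ 650127 1000000)))⟩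
noncomputable def sl44_2 : Fn1 := ⟨_, _, fun h1 => (enc_subr 1047 2000 h1)⟩
noncomputable def sl44 : Fn1 := ⟨_, _, fun h1 => (enc_norm (enc_sub (enc_add (enc_scale 5426743 3750000 (sl44_2.enc h1)) (enc_rat _ 3801283 18750000)) (enc_scale 8552709 500000 (enc_sq (enc_norm (sl44_2.enc h1))))))⟩
noncomputable def sv44_2 : Fn1 := ⟨_, _, fun h1 => (enc_subr 1047 2000 h1)⟩
noncomputable def sv44 : Fn1 := ⟨_, _, fun h1 => (enc_norm (enc_sub (enc_add (enc_scale 47508497 750000000 (sv44_2.enc h1)) (enc_rat _ 738133039 7500000000)) (enc_scale 3833973 3125000 (enc_sq (enc_norm (sv44_2.enc h1))))))⟩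
noncomputable def sw44_2 : Fn1 := ⟨_, _, fun h1 => (enc_subr 1047 2000 h1)⟩
noncomputable def sw44 : Fn1 := ⟨_, _, fun h1 => (enc_norm (enc_sub (enc_subr 140589 250000 (enc_scale 20416 3125 (sw44_2.enc h1))) (enc_scale 294921 5000 (enc_sq (enc_norm (sw44_2.enc h1))))))⟩
noncomputable def sl45_2 : Fn1 := ⟨_, _, fun h1 => (enc_subr 1047 2000 h1)⟩
noncomputable def sl45 : Fn1 := ⟨_, _, fun h1 => (enc_norm (enc_add (enc_add (enc_scale 779091955913269 664686230000000 (sl45_2.enc h1)) (enc_rat _ 43994058429449 664686230000000)) (enc_scale 9754918128459 496034500000 (enc_sq (enc_norm (sl45_2.enc h1))))))⟩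
noncomputable def sv45_2 : Fn1 := ⟨_, _, fun h1 => (enc_subr 1047 2000 h1)⟩
noncomputable def sv45 : Fn1 := ⟨_, _, fun h1 => (enc_norm (enc_add (enc_add (enc_scale 116241181005703 2556485500000000 (sv45_2.enc h1)) (enc_rat _ 71535380973943 798901718750000)) (enc_scale 14402230283 15262600000 (enc_sq (enc_norm (sv45_2.enc h1))))))⟩
noncomputable def sw45_2 : Fn1 := ⟨_, _, fun h1 => (enc_subr 1047 2000 h1)⟩
noncomputable def sw45 : Fn1 := ⟨_, _, fun h1 => (enc_norm (enc_add (enc_subr 543769 500000 (enc_scale 547537 100000 (sw45_2.enc h1))) (enc_scale 477197 5000 (enc_sq (enc_norm (sw45_2.enc h1))))))⟩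
noncomputable def sl47 : Fn1 := ⟨_, _, fun h1 => (enc_norm (enc_add (enc_scale 1307165529 2985781250 (enc_subr 1047 2000 h1)) (enc_rat _ 4198367113859 37071460000000)))⟩
noncomputable def sv47 : Fn1 := ⟨_, _, fun h1 => (enc_norm (enc_add (enc_scale 54060117 47772500000 (enc_subr 1047 2000 h1)) (enc_rat _ 180767812387189 1853573000000000)))⟩
noncomputable def sw47 : Fn1 := ⟨_, _, fun h1 => (enc_norm (enc_subr 1139469 200000 (enc_scale 66651 6250 (enc_subr 1047 2000 h1))))⟩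
noncomputable def sl48 : Fn1 := ⟨_, _, fun h1 => (enc_norm (enc_add (enc_scale 3244411 5000000 (enc_subr 1047 2000 h1)) (enc_rat _ 3416 390625)))⟩
noncomputable def sv48 : Fn1 := ⟨_, _, fun h1 => (enc_norm (enc_add (enc_scale 7619 100000000 (enc_subr 1047 2000 h1)) (enc_rat _ 196093009 2000000000)))⟩
noncomputable def sw48 : Fn1 := ⟨_, _, fun h1 => (enc_norm (enc_subr 472041 1000000 (enc_scale 2747 25000 (enc_subr 1047 2000 h1))))⟩
noncomputable def sl49 : Fn1 := ⟨_, _, fun h1 => (enc_norm (enc_subr 195839 5000000 (enc_scale 624057 1000000 (enc_subr 1047 2000 h1))))⟩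
noncomputable def sv49 : Fn1 := ⟨_, _, fun h1 => (enc_norm (enc_add (enc_scale 871 1250000 (enc_subr 1047 2000 h1)) (enc_rat _ 9924433 100000000)))⟩
noncomputable def sw49 : Fn1 := ⟨_, _, fun h1 => (enc_norm (enc_add (enc_scale 17907 50000 (enc_subr 1047 2000 h1)) (enc_rat _ 1771 250000)))⟩
noncomputable def sl50 : Fn1 := ⟨_, _, fun h1 => (enc_norm (enc_add (enc_scale 7457 40000 (enc_subr 1047 2000 h1)) (enc_rat _ 1569119 10000000)))⟩
noncomputable def sv50 : Fn1 := ⟨_, _, fun h1 => (enc_norm (enc_add (enc_scale 28223 1250000 (enc_subr 1047 2000 h1)) (enc_rat _ 4472017 50000000)))⟩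
noncomputable def sw50 : Fn1 := ⟨_, _, fun h1 => (enc_norm (enc_subr 486657 500000 (enc_scale 25463 10000 (enc_subr 1047 2000 h1))))⟩
noncomputable def sl51 : Fn1 := ⟨_, _, fun h1 => (enc_norm (enc_subr 1395777 20000000 (enc_scale 1938891 2000000 (enc_subr 1047 2000 h1))))⟩
noncomputable def sv51 : Fn1 := ⟨_, _, fun h1 => (enc_norm (enc_sub (enc_rat _ 1064429 10000000) (enc_scale 361481 10000000 (enc_subr 1047 2000 h1))))⟩
noncomputable def sw51 : Fn1 := ⟨_, _, fun h1 => (enc_norm (enc_subr 43529 200000 (enc_neg (enc_scale 6377 100000 (enc_subr 1047 2000 h1)))))⟩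
noncomputable def sl52 : Fn1 := ⟨_, _, fun h1 => (enc_norm (enc_add (enc_scale 110283 62500 (enc_subr 1047 2000 h1)) (enc_rat _ 540099 2500000)))⟩
noncomputable def sv52 : Fn1 := ⟨_, _, fun h1 => (enc_norm (enc_sub (enc_rat _ 1557201 20000000) (enc_scale 578281 5000000 (enc_subr 1047 2000 h1))))⟩
noncomputable def sw52 : Fn1 := ⟨_, _, fun h1 => (enc_norm (enc_subr 116527 125000 (enc_neg (enc_scale 51287 25000 (enc_subr 1047 2000 h1)))))⟩
noncomputable def sl53 : Fn1 := ⟨_, _, fun h1 => (enc_norm (enc_add (enc_scale 8113 4000 (enc_subr 1047 2000 h1)) (enc_rat _ 594619 2500000)))⟩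
noncomputable def sv53 : Fn1 := ⟨_, _, fun h1 => (enc_norm (enc_sub (enc_rat _ 1502681 20000000) (enc_scale 1486217 10000000 (enc_subr 1047 2000 h1))))⟩
noncomputable def sw53 : Fn1 := ⟨_, _, fun h1 => (enc_norm (enc_subr 121979 125000 (enc_neg (enc_scale 64473 25000 (enc_subr 1047 2000 h1)))))⟩
noncomputable def sl54 : Fn1 := ⟨_, _, fun h1 => (enc_norm (enc_subr 1725251 4000000 (enc_scale 766333 100000 (enc_subr 1047 2000 h1))))⟩
noncomputable def sv54 : Fn1 := ⟨_, _, fun h1 => (enc_norm (enc_sub (enc_rat _ 280813 1600000) (enc_scale 9938837 10000000 (enc_subr 1047 2000 h1))))⟩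
noncomputable def sw54 : Fn1 := ⟨_, _, fun h1 => (enc_norm (enc_sub (enc_rat _ 27887 200000) (enc_scale 74817 6250 (enc_subr 1047 2000 h1))))⟩
noncomputable def sl55 : Fn1 := ⟨_, _, fun h1 => (enc_norm (enc_subr 12007533 20000000 (enc_scale 3128837 2000000 (enc_subr 1047 2000 h1))))⟩
noncomputable def sv55 : Fn1 := ⟨_, _, fun h1 => (enc_norm (enc_add (enc_scale 734259 10000000 (enc_subr 1047 2000 h1)) (enc_rat _ 20509429 100000000)))⟩
noncomputable def sw55 : Fn1 := ⟨_, _, fun h1 => (enc_norm (enc_sub (enc_rat _ 76191 200000) (enc_scale 325799 100000 (enc_subr 1047 2000 h1))))⟩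
noncomputable def sl56 : Fn1 := ⟨_, _, fun h1 => (enc_norm (enc_subr 24416583 50000000 (enc_scale 7785813 2000000 (enc_subr 1047 2000 h1))))⟩
noncomputable def sv56 : Fn1 := ⟨_, _, fun h1 => (enc_norm (enc_sub (enc_rat _ 91342627 500000000) (enc_scale 3922717 10000000 (enc_subr 1047 2000 h1))))⟩
noncomputable def sw56 : Fn1 := ⟨_, _, fun h1 => (enc_norm (enc_sub (enc_rat _ 240899 1000000) (enc_scale 30843 5000 (enc_subr 1047 2000 h1))))⟩
noncomputable def sl57 : Fn1 := ⟨_, _, fun h1 => (enc_norm (enc_subr 59648453 75000000 (enc_scale 51254519 7500000 (enc_subr 1047 2000 h1))))⟩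
noncomputable def sv57 : Fn1 := ⟨_, _, fun h1 => (enc_norm (enc_sub (enc_rat _ 75066331 300000000) (enc_scale 15589469 15000000 (enc_subr 1047 2000 h1))))⟩
noncomputable def sw57 : Fn1 := ⟨_, _, fun h1 => (enc_norm (enc_sub (enc_rat _ 589741 1000000) (enc_scale 237767 25000 (enc_subr 1047 2000 h1))))⟩
noncomputable def skf0 : Fn2 := ⟨_, _, fun h1 h2 => (enc_norm (enc_add (bf1q0.enc h1 h2) (enc_mul (enc_norm (enc_sub (enc_mul (c1g.enc h1) (bf1q0.enc h1 h2)) (kf0q0.enc h1 h2))) (enc_inv (enc_sub (cv1m.enc h1) (c1g.enc h1))))))⟩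
noncomputable def sxf0 : Fn2 := ⟨_, _, fun h1 h2 => (enc_norm (enc_mul (enc_norm (enc_sub (l1q0.enc h1 h2) (l0q0.enc h1 h2))) (enc_inv (enc_sub (cv1m.enc h1) (c1g.enc h1)))))⟩
noncomputable def skl0 : Fn2 := ⟨_, _, fun h1 h2 => (enc_norm (enc_add (bf5q0.enc h1 h2) (enc_mul (enc_norm (enc_sub (kf6q0.enc h1 h2) (enc_mul (c3g.enc h1) (bf5q0.enc h1 h2)))) (enc_inv (enc_sub (c3g.enc h1) (cv5m.enc h1))))))⟩
noncomputable def sxl0 : Fn2 := ⟨_, _, fun h1 h2 => (enc_norm (enc_mul (enc_norm (enc_sub (l6q0.enc h1 h2) (l5q0.enc h1 h2))) (enc_inv (enc_sub (c3g.enc h1) (cv5m.enc h1)))))⟩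
noncomputable def skf1 : Fn2 := ⟨_, _, fun h1 h2 => (enc_norm (enc_add (bf1q1.enc h1 h2) (enc_mul (enc_norm (enc_sub (enc_mul (c1g.enc h1) (bf1q1.enc h1 h2)) (kf0q1.enc h1 h2))) (enc_inv (enc_sub (cv1m.enc h1) (c1g.enc h1))))))⟩
noncomputable def sxf1 : Fn2 := ⟨_, _, fun h1 h2 => (enc_norm (enc_mul (enc_norm (enc_sub (l1q1.enc h1 h2) (l0q1.enc h1 h2))) (enc_inv (enc_sub (cv1m.enc h1) (c1g.enc h1)))))⟩
noncomputable def skl1 : Fn2 := ⟨_, _, fun h1 h2 => (enc_norm (enc_add (bf5q1.enc h1 h2) (enc_mul (enc_norm (enc_sub (kf6q1.enc h1 h2) (enc_mul (c3g.enc h1) (bf5q1.enc h1 h2)))) (enc_inv (enc_sub (c3g.enc h1) (cv5m.enc h1))))))⟩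
noncomputable def sxl1 : Fn2 := ⟨_, _, fun h1 h2 => (enc_norm (enc_mul (enc_norm (enc_sub (l6q1.enc h1 h2) (l5q1.enc h1 h2))) (enc_inv (enc_sub (c3g.enc h1) (cv5m.enc h1)))))⟩
noncomputable def skf2 : Fn2 := ⟨_, _, fun h1 h2 => (enc_norm (enc_add (bf1q2.enc h1 h2) (enc_mul (enc_norm (enc_add (enc_mul (c1g.enc h1) (enc_norm (enc_subn 1 (bf1q2.enc h1 h2)))) (enc_mul (enc_norm (enc_subn 1 h1)) (kcg.enc (c1g.enc h1) h2)))) (enc_inv (enc_sub (cv1p.enc h1) (c1g.enc h1))))))⟩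
noncomputable def sxf2 : Fn2 := ⟨_, _, fun h1 h2 => (enc_norm (enc_mul (enc_norm (enc_sub (l1q2.enc h1 h2) (l0q2.enc h1 h2))) (enc_inv (enc_sub (cv1p.enc h1) (c1g.enc h1)))))⟩
noncomputable def skl2 : Fn2 := ⟨_, _, fun h1 h2 => (enc_norm (enc_add (bf5q2.enc h1 h2) (enc_mul (enc_norm (enc_sub (kf6q2.enc h1 h2) (enc_mul (c3g.enc h1) (bf5q2.enc h1 h2)))) (enc_inv (enc_sub (c3g.enc h1) (cv5p.enc h1))))))⟩
noncomputable def sxl2 : Fn2 := ⟨_, _, fun h1 h2 => (enc_norm (enc_mul (enc_norm (enc_sub (l6q2.enc h1 h2) (l5q2.enc h1 h2))) (enc_inv (enc_sub (c3g.enc h1) (cv5p.enc h1)))))⟩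
noncomputable def skl3 : Fn2 := ⟨_, _, fun h1 h2 => (enc_norm (enc_add (bf5q3.enc h1 h2) (enc_mul (enc_norm (enc_sub (kf6q3.enc h1 h2) (enc_mul (c3g.enc h1) (bf5q3.enc h1 h2)))) (enc_inv (enc_sub (c3g.enc h1) (cv5r.enc h1))))))⟩
noncomputable def sxl3 : Fn2 := ⟨_, _, fun h1 h2 => (enc_norm (enc_mul (enc_norm (enc_sub (l6q3.enc h1 h2) (l5q3.enc h1 h2))) (enc_inv (enc_sub (c3g.enc h1) (cv5r.enc h1)))))⟩
noncomputable def rhk : Fn2 := ⟨_, _, fun h1 h2 => (enc_norm (enc_mul (enc_norm (enc_sub (bf1q2.enc h1 h2) (n0b.enc h1 h2))) (enc_norm (enc_mul (cv1p.enc h1) (enc_inv (enc_sub (cv1p.enc h1) (c1g.enc h1)))))))⟩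
noncomputable def rhx : Fn2 := ⟨_, _, fun h1 h2 => (enc_norm (enc_mul (enc_norm (enc_sub (bx1q2.enc h1 h2) (n0x.enc h1 h2))) (enc_norm (enc_mul (cv1p.enc h1) (enc_inv (enc_sub (cv1p.enc h1) (c1g.enc h1)))))))⟩
noncomputable def sbk : Fn1 := ⟨_, _, fun h1 => (enc_norm (enc_subr 296409 115000 (enc_scale 2913 1150 (enc_subr 1047 2000 h1))))⟩
noncomputable def sbx : Fn1 := ⟨_, _, fun h1 => (enc_norm (enc_add (enc_scale 157 5750 (enc_subr 1047 2000 h1)) (enc_rat _ 198019 115000)))⟩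
noncomputable def frw : Fn1 := ⟨_, _, fun h1 => (enc_norm (enc_scale 3 25 (enc_sub (enc_subr 1 2 (swg.enc h1)) (c1g.enc h1))))⟩
noncomputable def q1k : Fn1 := ⟨_, _, fun h1 => (enc_norm (enc_sub (enc_rat _ 767 25000) (enc_scale 4029 2500 (enc_subr 1047 2000 h1))))⟩
noncomputable def q1x : Fn1 := ⟨_, _, fun h1 => (enc_norm (enc_subr 99 6250 (enc_scale 47 500 (enc_subr 1047 2000 h1))))⟩
noncomputable def a2k0 : Fn1 := ⟨_, _, fun h1 => (enc_norm (enc_sub (enc_rat _ 448901 500000) (enc_scale 130191 100000 (enc_subr 1047 2000 h1))))⟩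
noncomputable def a2k1 : Fn1 := ⟨_, _, fun h1 => (enc_norm (enc_subr 429 2000 (enc_neg (enc_scale 40017 5000 (enc_subr 1047 2000 h1)))))⟩
noncomputable def b2k0 : Fn1 := ⟨_, _, fun h1 => (enc_norm (enc_sub (enc_rat _ 447973 500000) (enc_scale 59287 50000 (enc_subr 1047 2000 h1))))⟩
noncomputable def b2k1 : Fn1 := ⟨_, _, fun h1 => (enc_norm (enc_subr 194947 58000 (enc_scale 14243 1450 (enc_subr 1047 2000 h1))))⟩
noncomputable def a2x0 : Fn1 := ⟨_, _, fun h1 => (enc_norm (enc_subr 217703 1000000 (enc_neg (enc_scale 4741 6250 (enc_subr 1047 2000 h1)))))⟩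
noncomputable def a2x1 : Fn1 := ⟨_, _, fun h1 => (enc_norm (enc_add (enc_scale 3453 5000 (enc_subr 1047 2000 h1)) (enc_rat _ 14821 50000)))⟩
noncomputable def b2x0 : Fn1 := ⟨_, _, fun h1 => (enc_norm (enc_subr 109403 500000 (enc_neg (enc_scale 37617 50000 (enc_subr 1047 2000 h1)))))⟩
noncomputable def b2x1 : Fn1 := ⟨_, _, fun h1 => (enc_norm (enc_add (enc_scale 42633 11600 (enc_subr 1047 2000 h1)) (enc_rat _ 19167 11600)))⟩
noncomputable def k0c : Fn1 := ⟨_, _, fun h1 => (enc_rat _ 3525793 5000000)⟩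
noncomputable def m0c : Fn1 := ⟨_, _, fun h1 => (enc_norm (enc_subr 4198367113859 18535730000000 (enc_neg (enc_scale 1307165529 1492890625 (enc_subr 1047 2000 h1)))))⟩
noncomputable def sl77 : Fn1 := ⟨_, _, fun h1 => (enc_norm (enc_sub (enc_rat _ 19370893395087 185357300000000) (enc_scale 20168152871 95545000000 (enc_subr 1047 2000 h1))))⟩
noncomputable def sv77 : Fn1 := ⟨_, _, fun h1 => (enc_norm (enc_sub (enc_rat _ 1937082196779 3707146000000000) (enc_scale 2016813209 1910900000000 (enc_subr 1047 2000 h1))))⟩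
noncomputable def sw77 : Fn1 := ⟨_, _, fun h1 => (enc_norm (enc_sub (enc_rat _ 653163 125000) (enc_scale 263857 25000 (enc_subr 1047 2000 h1))))⟩
noncomputable def sl78 : Fn1 := ⟨_, _, fun h1 => (enc_pnc _ 0)⟩
noncomputable def sv78 : Fn1 := ⟨_, _, fun h1 => (enc_pnc _ 0)⟩
noncomputable def sl79 : Fn1 := ⟨_, _, fun h1 => (enc_norm (enc_sub (enc_rat _ 19370893395087 185357300000000) (enc_scale 20168152871 95545000000 (enc_subr 1047 2000 h1))))⟩
noncomputable def sv79 : Fn1 := ⟨_, _, fun h1 => (enc_norm (enc_subr 1937082196779 3707146000000000 (enc_scale 2016813209 1910900000000 (enc_subr 1047 2000 h1))))⟩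
noncomputable def sw79 : Fn1 := ⟨_, _, fun h1 => (enc_norm (enc_subr 653163 125000 (enc_scale 263857 25000 (enc_subr 1047 2000 h1))))⟩
noncomputable def kqf : Fn2 := ⟨_, _, fun h1 h2 => (enc_norm (enc_mul (enc_norm (enc_subn 1 h1)) (enc_norm (enc_case (enc_subr 1 20 (c1g.enc h1)) (enc_rat _ 3525793 5000000) (enc_mul (kcg.enc (c1g.enc h1) h2) (enc_inv (c1g.enc h1)))))))⟩
noncomputable def skm : Fn2 := ⟨_, _, fun h1 h2 => (enc_norm (enc_sub (enc_mul (enc_norm (enc_mul (cv1p.enc h1) (enc_inv (enc_sub (cv1p.enc h1) (c1g.enc h1))))) (enc_norm (enc_add (enc_subn 1 (bf1q2.enc h1 h2)) (kqf.enc h1 h2)))) (kqf.enc h1 h2)))⟩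
noncomputable def cv1pA : Fn2 := ⟨_, _, fun h1 h2 => (enc_norm (enc_add (enc_scale 22 25 h1) (enc_scale 3 25 (enc_subr 1 2 (swg.enc h2)))))⟩
noncomputable def cv2pA : Fn2 := ⟨_, _, fun h1 h2 => (enc_norm (enc_add (enc_scale 3 5 h1) (enc_scale 2 5 (enc_subr 1 2 (swg.enc h2)))))⟩
noncomputable def cv3pA : Fn2 := ⟨_, _, fun h1 h2 => (enc_norm (enc_add (enc_scale 1 5 h1) (enc_scale 4 5 (enc_subr 1 2 (swg.enc h2)))))⟩
noncomputable def kf4q2A_4 : Fn3 := ⟨_, _, fun h1 h2 h3 => (enc_subr 1047 2000 h3)⟩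
noncomputable def kf4q2A_8 : Fn3 := ⟨_, _, fun h1 h2 h3 => (enc_subn 1 h2)⟩
noncomputable def kf4q2A_9 : Fn3 := ⟨_, _, fun h1 h2 h3 => (gsg.enc (enc_norm (kf4q2A_8.enc h1 h2 h3)))⟩
noncomputable def kf4q2A_10 : Fn3 := ⟨_, _, fun h1 h2 h3 => (enc_scale 3 4 (kf4q2A_8.enc h1 h2 h3))⟩
noncomputable def kf4q2A_11 : Fn3 := ⟨_, _, fun h1 h2 h3 => (enc_half (kf4q2A_9.enc h1 h2 h3))⟩
noncomputable def kf4q2A_138 : Fn3 := ⟨_, _, fun h1 h2 h3 => (enc_mul (cv3pA.enc h1 h2) (enc_norm (enc_case (enc_subr 1 4 h1) (enc_case (enc_subr 1 10 h1) (enc_case (enc_subr 1 20 h1) (enc_add (enc_add (enc_scale 18577 25000 h1) (enc_rat _ 674237 1000000)) (enc_mul (enc_norm (kf4q2A_4.enc h1 h2 h3)) (enc_norm (enc_subr 42007 100000 (enc_scale 3041 2500 h1))))) (enc_add (enc_add (enc_scale 9289 12500 h1) (enc_rat _ 134847 200000)) (enc_mul (enc_norm (kf4q2A_4.enc h1 h2 h3)) (enc_norm (enc_subr 21123 50000 (enc_scale 6321 5000 h1)))))) (enc_case (enc_subr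 3 20 h1) (enc_add (enc_add (enc_scale 1891 2500 h1) (enc_rat _ 672907 1000000)) (enc_mul (enc_norm (kf4q2A_4.enc h1 h2 h3)) (enc_norm (enc_subr 17579 50000 (enc_scale 2777 5000 h1))))) (enc_case (enc_subr 1 5 h1) (enc_add (enc_add (enc_scale 9601 12500 h1) (enc_rat _ 134231 200000)) (enc_mul (enc_norm (kf4q2A_4.enc h1 h2 h3)) (enc_norm (enc_subr 10643 50000 (enc_neg (enc_scale 1847 5000 h1)))))) (enc_add (enc_add (enc_scale 19189 25000 h1) (enc_rat _ 671259 1000000)) (enc_mul (enc_norm (kf4q2A_4.enc h1 h2 h3)) (enc_norm (enc_subr 213 2000 (enc_neg (enc_scale 2253 2500 h1))))))))) (enc_case (enc_subr 7 20 h1) (enc_case (enc_subr 3 10 h1) (enc_add (enc_add (enc_scale 36841 50000 h1) (enc_rat _ 21217 31250)) (enc_mul (enc_norm (kf4q2A_4.enc h1 h2 h3)) (enc_norm (enc_subr 37 250 (enc_neg (enc_scale 919 1250 h1)))))) (enc_add (enc_add (enc_scale 16473 25000 h1) (enc_rat _ 351157 500000)) (enc_mul (enc_norm (kf4q2A_4.enc h1 h2 h3))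 (enc_norm (enc_subr 8977 25000 (enc_neg (enc_scale 79 2500 h1))))))) (enc_case (enc_subr 2 5 h1) (enc_add (enc_add (enc_scale 2869 5000 h1) (enc_rat _ 366053 500000)) (enc_mul (enc_norm (kf4q2A_4.enc h1 h2 h3)) (enc_norm (enc_subr 62669 100000 (enc_scale 733 1000 h1))))) (enc_case (enc_subr 9 20 h1) (enc_add (enc_add (enc_scale 23677 50000 h1) (enc_rat _ 77221 100000)) (enc_mul (enc_norm (kf4q2A_4.enc h1 h2 h3)) (enc_norm (enc_subr 103749 100000 (enc_scale 44 25 h1))))) (enc_add (enc_add (enc_scale 14697 50000 h1) (enc_rat _ 85303 100000)) (enc_mul (enc_norm (kf4q2A_4.enc h1 h2 h3)) (enc_norm (enc_subr 24549 10000 (enc_scale 24549 5000 h1)))))))))))⟩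
noncomputable def kf4q2A : Fn3 := ⟨_, _, fun h1 h2 h3 => (enc_norm (enc_case (enc_subr 37 25 h2) (enc_mul (cv4p.enc h2) (bf4q2.enc h2 h3)) (enc_add (kf4q2A_138.enc h1 h2 h3) (enc_mul (enc_norm (enc_mul (enc_norm (enc_sub (enc_mul (enc_norm (kf4q2A_8.enc h1 h2 h3)) (enc_norm (enc_add (enc_mul (enc_norm (enc_sub (enc_sub (kf4q2A_11.enc h1 h2 h3) (kf4q2A_10.enc h1 h2 h3)) (enc_sub (enc_rat _ 1 4) (enc_scale 3 8 (enc_mul (enc_norm (kf4q2A_8.enc h1 h2 h3)) (enc_inv (kf4q2A_9.enc h1 h2 h3))))))) (enc_inv (esg.enc (enc_norm (kf4q2A_8.enc h1 h2 h3))))) (kcg.enc (enc_norm (enc_sub (kf4q2A_10.enc h1 h2 h3) (kf4q2A_11.enc h1 h2 h3))) h3)))) (kf4q2A_138.enc h1 h2 h3))) (enc_norm (enc_sub (cv4p.enc h2) (cv3pA.enc h1 h2))))) (enc_inv (enc_sub (enc_subr 1 2 (swg.enc h2)) (cv3pA.enc h1 h2)))))))⟩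
noncomputable def lm3pA : Fn3 := ⟨_, _, fun h1 h2 h3 => (enc_lam (enc_norm (enc_sub h1 (cv3pA.enc h2 h3))) (enc_sub (cv4p.enc h3) (cv3pA.enc h2 h3)))⟩
noncomputable def bf3q2A_3 : Fn3 := ⟨_, _, fun h1 h2 h3 => (enc_subr 1047 2000 h3)⟩
noncomputable def bf3q2A : Fn3 := ⟨_, _, fun h1 h2 h3 => (enc_norm (enc_case (enc_subr 1 4 h1) (enc_case (enc_subr 1 10 h1) (enc_case (enc_subr 1 20 h1) (enc_add (enc_add (enc_scale 18577 25000 h1) (enc_rat _ 674237 1000000)) (enc_mul (enc_norm (bf3q2A_3.enc h1 h2 h3)) (enc_norm (enc_subr 42007 100000 (enc_scale 3041 2500 h1))))) (enc_add (enc_add (enc_scale 9289 12500 h1) (enc_rat _ 134847 200000)) (enc_mul (enc_norm (bf3q2A_3.enc h1 h2 h3)) (enc_norm (enc_subr 21123 50000 (enc_scale 6321 5000 h1)))))) (enc_case (enc_subr 3 20 h1) (enc_add (enc_add (enc_scale 1891 2500 h1) (enc_rat _ 672907 1000000)) (enc_mul (enc_norm (bf3q2A_3.enc h1 h2 h3)) (enc_norm (enc_subr 17579 50000 (enc_scale 2777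 5000 h1))))) (enc_case (enc_subr 1 5 h1) (enc_add (enc_add (enc_scale 9601 12500 h1) (enc_rat _ 134231 200000)) (enc_mul (enc_norm (bf3q2A_3.enc h1 h2 h3)) (enc_norm (enc_subr 10643 50000 (enc_neg (enc_scale 1847 5000 h1)))))) (enc_add (enc_add (enc_scale 19189 25000 h1) (enc_rat _ 671259 1000000)) (enc_mul (enc_norm (bf3q2A_3.enc h1 h2 h3)) (enc_norm (enc_subr 213 2000 (enc_neg (enc_scale 2253 2500 h1))))))))) (enc_case (enc_subr 7 20 h1) (enc_case (enc_subr 3 10 h1) (enc_add (enc_add (enc_scale 36841 50000 h1) (enc_rat _ 21217 31250)) (enc_mul (enc_norm (bf3q2A_3.enc h1 h2 h3)) (enc_norm (enc_subr 37 250 (enc_neg (enc_scale 919 1250 h1)))))) (enc_add (enc_add (enc_scale 16473 25000 h1) (enc_rat _ 351157 500000)) (enc_mul (enc_norm (bf3q2A_3.enc h1 h2 h3)) (enc_norm (enc_subr 8977 25000 (enc_neg (enc_scale 79 2500 h1))))))) (enc_case (enc_subr 2 5 h1) (enc_add (enc_add (enc_scale 2869 5000 h1) (enc_rat _ 366053 500000)) (enc_mul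 (enc_norm (bf3q2A_3.enc h1 h2 h3)) (enc_norm (enc_subr 62669 100000 (enc_scale 733 1000 h1))))) (enc_case (enc_subr 9 20 h1) (enc_add (enc_add (enc_scale 23677 50000 h1) (enc_rat _ 77221 100000)) (enc_mul (enc_norm (bf3q2A_3.enc h1 h2 h3)) (enc_norm (enc_subr 103749 100000 (enc_scale 44 25 h1))))) (enc_add (enc_add (enc_scale 14697 50000 h1) (enc_rat _ 85303 100000)) (enc_mul (enc_norm (bf3q2A_3.enc h1 h2 h3)) (enc_norm (enc_subr 24549 10000 (enc_scale 24549 5000 h1))))))))))⟩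
noncomputable def kf3q2A_5 : Fn3 := ⟨_, _, fun h1 h2 h3 => (enc_subr 1047 2000 h3)⟩
noncomputable def kf3q2A : Fn3 := ⟨_, _, fun h1 h2 h3 => (enc_norm (enc_mul (cv3pA.enc h1 h2) (enc_norm (enc_case (enc_subr 1 4 h1) (enc_case (enc_subr 1 10 h1) (enc_case (enc_subr 1 20 h1) (enc_add (enc_add (enc_scale 18577 25000 h1) (enc_rat _ 674237 1000000)) (enc_mul (enc_norm (kf3q2A_5.enc h1 h2 h3)) (enc_norm (enc_subr 42007 100000 (enc_scale 3041 2500 h1))))) (enc_add (enc_add (enc_scale 9289 12500 h1) (enc_rat _ 134847 200000)) (enc_mul (enc_norm (kf3q2A_5.enc h1 h2 h3)) (enc_norm (enc_subr 21123 50000 (enc_scale 6321 5000 h1)))))) (enc_case (enc_subr 3 20 h1) (enc_add (enc_add (enc_scale 1891 2500 h1) (enc_rat _ 672907 1000000)) (enc_mul (enc_norm (kf3q2A_5.enc h1 h2 h3)) (enc_norm (enc_subr 17579 50000 (enc_scale 2777 5000 h1))))) (enc_case (enc_subr 1 5 h1) (enc_add (enc_add (enc_scale 9601 12500 h1) (enc_rat _ 134231 200000)) (enc_mul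 (enc_norm (kf3q2A_5.enc h1 h2 h3)) (enc_norm (enc_subr 10643 50000 (enc_neg (enc_scale 1847 5000 h1)))))) (enc_add (enc_add (enc_scale 19189 25000 h1) (enc_rat _ 671259 1000000)) (enc_mul (enc_norm (kf3q2A_5.enc h1 h2 h3)) (enc_norm (enc_subr 213 2000 (enc_neg (enc_scale 2253 2500 h1))))))))) (enc_case (enc_subr 7 20 h1) (enc_case (enc_subr 3 10 h1) (enc_add (enc_add (enc_scale 36841 50000 h1) (enc_rat _ 21217 31250)) (enc_mul (enc_norm (kf3q2A_5.enc h1 h2 h3)) (enc_norm (enc_subr 37 250 (enc_neg (enc_scale 919 1250 h1)))))) (enc_add (enc_add (enc_scale 16473 25000 h1) (enc_rat _ 351157 500000)) (enc_mul (enc_norm (kf3q2A_5.enc h1 h2 h3)) (enc_norm (enc_subr 8977 25000 (enc_neg (enc_scale 79 2500 h1))))))) (enc_case (enc_subr 2 5 h1) (enc_add (enc_add (enc_scale 2869 5000 h1) (enc_rat _ 366053 500000)) (enc_mul (enc_norm (kf3q2A_5.enc h1 h2 h3)) (enc_norm (enc_subr 62669 100000 (enc_scale 733 1000 h1))))) (enc_case (enc_subr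 9 20 h1) (enc_add (enc_add (enc_scale 23677 50000 h1) (enc_rat _ 77221 100000)) (enc_mul (enc_norm (kf3q2A_5.enc h1 h2 h3)) (enc_norm (enc_subr 103749 100000 (enc_scale 44 25 h1))))) (enc_add (enc_add (enc_scale 14697 50000 h1) (enc_rat _ 85303 100000)) (enc_mul (enc_norm (kf3q2A_5.enc h1 h2 h3)) (enc_norm (enc_subr 24549 10000 (enc_scale 24549 5000 h1))))))))))))⟩
noncomputable def lm2pA : Fn3 := ⟨_, _, fun h1 h2 h3 => (enc_lam (enc_norm (enc_sub h1 (cv2pA.enc h2 h3))) (enc_sub (cv3pA.enc h2 h3) (cv2pA.enc h2 h3)))⟩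
noncomputable def bf2q2A_3 : Fn3 := ⟨_, _, fun h1 h2 h3 => (enc_subr 1047 2000 h3)⟩
noncomputable def bf2q2A : Fn3 := ⟨_, _, fun h1 h2 h3 => (enc_norm (enc_case (enc_subr 1 4 h1) (enc_case (enc_subr 1 10 h1) (enc_case (enc_subr 1 20 h1) (enc_add (enc_sub (enc_rat _ 448901 500000) (enc_scale 429 2000 h1)) (enc_mul (enc_norm (bf2q2A_3.enc h1 h2 h3)) (enc_norm (enc_subr 130191 100000 (enc_neg (enc_scale 40017 5000 h1)))))) (enc_add (enc_sub (enc_rat _ 58401 62500) (enc_scale 47339 50000 h1)) (enc_mul (enc_norm (bf2q2A_3.enc h1 h2 h3)) (enc_norm (enc_subr 221009 100000 (enc_scale 50801 5000 h1)))))) (enc_case (enc_subr 3 20 h1) (enc_add (enc_sub (enc_rat _ 29111 31250) (enc_scale 45907 50000 h1)) (enc_mul (enc_norm (bf2q2A_3.enc h1 h2 h3)) (enc_norm (enc_subr 217659 100000 (enc_scale 24563 2500 h1))))) (enc_case (enc_subr 1 5 h1) (enc_add (enc_add (enc_scale 28047 50000 h1) (enc_rat _ 70969 100000)) (enc_mul (enc_norm (bf2q2A_3.enc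 h1 h2 h3)) (enc_norm (enc_subr 40323 25000 (enc_scale 30337 5000 h1))))) (enc_add (enc_add (enc_scale 3729 5000 h1) (enc_rat _ 336359 500000)) (enc_mul (enc_norm (bf2q2A_3.enc h1 h2 h3)) (enc_norm (enc_subr 2717 3125 (enc_scale 47 20 h1)))))))) (enc_case (enc_subr 7 20 h1) (enc_case (enc_subr 3 10 h1) (enc_add (enc_add (enc_scale 38493 50000 h1) (enc_rat _ 666703 1000000)) (enc_mul (enc_norm (bf2q2A_3.enc h1 h2 h3)) (enc_norm (enc_subr 45019 100000 (enc_scale 673 1000 h1))))) (enc_add (enc_add (enc_scale 38087 50000 h1) (enc_rat _ 669139 1000000)) (enc_mul (enc_norm (bf2q2A_3.enc h1 h2 h3)) (enc_norm (enc_subr 31741 100000 (enc_scale 144 625 h1)))))) (enc_case (enc_subr 2 5 h1) (enc_add (enc_add (enc_scale 2162 3125 h1) (enc_rat _ 173401 250000)) (enc_mul (enc_norm (bf2q2A_3.enc h1 h2 h3)) (enc_norm (enc_subr 22363 50000 (enc_scale 3007 5000 h1))))) (enc_case (enc_subr 9 20 h1) (enc_add (enc_add (enc_scale 9113 25000 h1) (enc_rat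 _ 206133 250000)) (enc_mul (enc_norm (bf2q2A_3.enc h1 h2 h3)) (enc_norm (enc_subr 45659 50000 (enc_scale 8831 5000 h1))))) (enc_add (enc_add (enc_scale 5717 25000 h1) (enc_rat _ 44283 50000)) (enc_mul (enc_norm (bf2q2A_3.enc h1 h2 h3)) (enc_norm (enc_subr 11839 10000 (enc_scale 11839 5000 h1))))))))))⟩
noncomputable def lm1pA : Fn3 := ⟨_, _, fun h1 h2 h3 => (enc_lam (enc_norm (enc_sub h1 (cv1pA.enc h2 h3))) (enc_sub (cv2pA.enc h2 h3) (cv1pA.enc h2 h3)))⟩
noncomputable def bf1q2A_3 : Fn3 := ⟨_, _, fun h1 h2 h3 => (enc_subr 1047 2000 h3)⟩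
noncomputable def bf1q2A : Fn3 := ⟨_, _, fun h1 h2 h3 => (enc_norm (enc_add (enc_sub (enc_pnc _ 1) (enc_scale 3525793 5000000 (enc_subn 1 h2))) (enc_case (enc_subr 1 4 h1) (enc_case (enc_subr 1 10 h1) (enc_case (enc_subr 1 20 h1) (enc_sub (enc_scale 767 25000 h1) (enc_mul (enc_norm (bf1q2A_3.enc h1 h2 h3)) (enc_scale 4029 2500 h1))) (enc_add (enc_subr 49399 1000000 (enc_scale 50933 50000 h1)) (enc_mul (enc_norm (bf1q2A_3.enc h1 h2 h3)) (enc_norm (enc_sub (enc_rat _ 5093 20000) (enc_scale 33523 5000 h1)))))) (enc_case (enc_subr 3 20 h1) (enc_add (enc_sub (enc_rat _ 98237 1000000) (enc_scale 4577 10000 h1)) (enc_mul (enc_norm (bf1q2A_3.enc h1 h2 h3)) (enc_norm (enc_subr 28183 100000 (enc_neg (enc_scale 6699 5000 h1)))))) (enc_case (enc_subr 1 5 h1) (enc_add (enc_sub (enc_rat _ 149669 1000000) (enc_scale 40029 50000 h1)) (enc_mul (enc_norm (bf1q2A_3.enc h1 h2 h3)) (enc_norm (enc_subr 17951 20000 (enc_scale 553 200 h1))))) (enc_add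 (enc_sub (enc_rat _ 112977 1000000) (enc_scale 3857 6250 h1)) (enc_mul (enc_norm (bf1q2A_3.enc h1 h2 h3)) (enc_norm (enc_subr 87403 100000 (enc_scale 13237 5000 h1)))))))) (enc_case (enc_subr 7 20 h1) (enc_case (enc_subr 3 10 h1) (enc_add (enc_subr 101719 500000 (enc_scale 32427 50000 h1)) (enc_mul (enc_norm (bf1q2A_3.enc h1 h2 h3)) (enc_norm (enc_subr 7267 25000 (enc_scale 157 500 h1))))) (enc_add (enc_subr 101971 500000 (enc_scale 32511 50000 h1)) (enc_mul (enc_norm (bf1q2A_3.enc h1 h2 h3)) (enc_norm (enc_subr 11621 50000 (enc_scale 599 5000 h1)))))) (enc_case (enc_subr 2 5 h1) (enc_add (enc_subr 116687 1000000 (enc_scale 10023 25000 h1)) (enc_mul (enc_norm (bf1q2A_3.enc h1 h2 h3)) (enc_norm (enc_subr 62673 100000 (enc_scale 779 625 h1))))) (enc_case (enc_subr 9 20 h1) (enc_add (enc_sub (enc_rat _ 38109 200000) (enc_scale 9179 25000 h1)) (enc_mul (enc_norm (bf1q2A_3.enc h1 h2 h3)) (enc_norm (enc_subr 89617 100000 (enc_scale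 48 25 h1))))) (enc_add (enc_sub (enc_rat _ 25323 100000) (enc_scale 25323 50000 h1)) (enc_mul (enc_norm (bf1q2A_3.enc h1 h2 h3)) (enc_norm (enc_subr 3217 10000 (enc_scale 3217 5000 h1)))))))))))⟩
noncomputable def lm0pA : Fn3 := ⟨_, _, fun h1 h2 h3 => (enc_lam (enc_norm (enc_sub h1 h2)) (enc_sub (cv1pA.enc h2 h3) h2))⟩
noncomputable def rkbq2A_37 : Fn4Q := ⟨_, _, fun h1 h2 h3 h4 => (enc_subn 1 h3)⟩
noncomputable def rkbq2A_38 : Fn4Q := ⟨_, _, fun h1 h2 h3 h4 => (gsg.enc (enc_norm (rkbq2A_37.enc h1 h2 h3 h4)))⟩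
noncomputable def rkbq2A_39 : Fn4Q := ⟨_, _, fun h1 h2 h3 h4 => (enc_scale 3 4 (rkbq2A_37.enc h1 h2 h3 h4))⟩
noncomputable def rkbq2A_40 : Fn4Q := ⟨_, _, fun h1 h2 h3 h4 => (enc_half (rkbq2A_38.enc h1 h2 h3 h4))⟩
noncomputable def rkbq2A_59 : Fn4Q := ⟨_, _, fun h1 h2 h3 h4 => (enc_sub h1 (cv3pA.enc h2 h3))⟩
noncomputable def rkbq2A : Fn4Q := ⟨_, _, fun h1 h2 h3 h4 => (enc_case (enc_sub h1 (cv1pA.enc h2 h3)) (enc_add (enc_mul h1 (bf1q2A.enc h2 h3 h4)) (enc_mul (enc_norm (enc_sub (enc_pnc _ 1) (lm0pA.enc h1 h2 h3))) (enc_norm (enc_mul h2 (enc_norm (enc_sub (n0b.enc h3 h4) (bf1q2A.enc h2 h3 h4))))))) (enc_case (enc_sub h1 (cv2pA.enc h2 h3)) (enc_add (enc_mul h1 (bf2q2A.enc h2 h3 h4)) (enc_mul (enc_norm (enc_mul (enc_norm (enc_sub (enc_pnc _ 1) (lm1pA.enc h1 h2 h3))) (cv1pA.enc h2 h3))) (enc_norm (enc_sub (bf1q2A.enc h2 h3 h4) (bf2q2A.enc h2 h3 h4))))) (enc_case (rkbq2A_59.enc h1 h2 h3 h4) (enc_add (enc_mul h1 (bf3q2A.enc h2 h3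 h4)) (enc_mul (enc_norm (enc_mul (enc_norm (enc_sub (enc_pnc _ 1) (lm2pA.enc h1 h2 h3))) (cv2pA.enc h2 h3))) (enc_norm (enc_sub (bf2q2A.enc h2 h3 h4) (bf3q2A.enc h2 h3 h4))))) (enc_case (enc_sub h1 (cv4p.enc h3)) (enc_case (enc_subr 37 25 h3) (enc_add (enc_mul h1 (bf4q2.enc h3 h4)) (enc_mul (enc_norm (enc_mul (enc_norm (enc_sub (enc_pnc _ 1) (lm3pA.enc h1 h2 h3))) (cv3pA.enc h2 h3))) (enc_norm (enc_sub (bf3q2A.enc h2 h3 h4) (bf4q2.enc h3 h4))))) (enc_add (kf3q2A.enc h2 h3 h4) (enc_mul (enc_norm (enc_mul (enc_norm (rkbq2A_59.enc h1 h2 h3 h4)) (enc_inv (enc_sub (enc_subr 1 2 (swg.enc h3)) (cv3pA.enc h2 h3))))) (enc_norm (enc_sub (enc_mul (enc_norm (rkbq2A_37.enc h1 h2 h3 h4)) (enc_norm (enc_add (enc_mul (enc_norm (enc_sub (enc_sub (rkbq2A_40.enc h1 h2 h3 h4) (rkbq2A_39.enc h1 h2 h3 h4)) (enc_sub (enc_rat _ 1 4) (enc_scale 3 8 (enc_mul (enc_norm (rkbq2A_37.enc h1 h2 h3 h4)) (enc_inv (rkbq2A_38.enc h1 h2 h3 h4))))))) (enc_inv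 (esg.enc (enc_norm (rkbq2A_37.enc h1 h2 h3 h4))))) (kcg.enc (enc_norm (enc_sub (rkbq2A_39.enc h1 h2 h3 h4) (rkbq2A_40.enc h1 h2 h3 h4))) h4)))) (kf3q2A.enc h2 h3 h4)))))) (enc_case (enc_sub h1 (cv5p.enc h3)) (enc_add (enc_mul h1 (bf5q2.enc h3 h4)) (enc_mul (enc_norm (enc_sub (enc_pnc _ 1) (lm4p.enc h1 h3))) (enc_norm (enc_sub (kf4q2A.enc h2 h3 h4) (enc_mul (cv4p.enc h3) (bf5q2.enc h3 h4)))))) (enc_add (kf5q2.enc h3 h4) (enc_mul (lm5p.enc h1 h3) (enc_norm (enc_sub (kf6q2.enc h3 h4) (kf5q2.enc h3 h4))))))))))⟩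
noncomputable def rsbq2A : Fn4Q := ⟨_, _, fun h1 h2 h3 h4 => (enc_case h1 (enc_neg (rkbq2A.enc (enc_neg h1) h2 h3 h4)) (rkbq2A.enc h1 h2 h3 h4))⟩
noncomputable def l4q2A_4 : Fn3 := ⟨_, _, fun h1 h2 h3 => (enc_subr 1047 2000 h3)⟩
noncomputable def l4q2A_8 : Fn3 := ⟨_, _, fun h1 h2 h3 => (enc_subn 1 h2)⟩
noncomputable def l4q2A_132 : Fn3 := ⟨_, _, fun h1 h2 h3 => (enc_mul (cv3pA.enc h1 h2) (enc_norm (enc_case (enc_subr 1 4 h1) (enc_case (enc_subr 1 10 h1) (enc_case (enc_subr 1 20 h1) (enc_add (enc_subr 57251 1000000 (enc_scale 7283 25000 h1)) (enc_mul (enc_norm (l4q2A_4.enc h1 h2 h3)) (enc_norm (enc_subr 2809 10000 (enc_neg (enc_scale 1427 5000 h1)))))) (enc_add (enc_subr 28233 500000 (enc_scale 13781 50000 h1)) (enc_mul (enc_norm (l4q2A_4.enc h1 h2 h3)) (enc_norm (enc_subr 29033 100000 (enc_neg (enc_scale 121 1250 h1))))))) (enc_case (enc_subr 3 20 h1) (enc_add (enc_subr 973 20000 (enc_scale 9873 50000 h1)) (enc_mul (enc_norm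 (l4q2A_4.enc h1 h2 h3)) (enc_norm (enc_subr 36711 100000 (enc_scale 671 1000 h1))))) (enc_case (enc_subr 1 5 h1) (enc_add (enc_subr 18907 500000 (enc_scale 6261 50000 h1)) (enc_mul (enc_norm (l4q2A_4.enc h1 h2 h3)) (enc_norm (enc_subr 39267 100000 (enc_scale 4207 5000 h1))))) (enc_add (enc_subr 15433 500000 (enc_scale 1131 12500 h1)) (enc_mul (enc_norm (l4q2A_4.enc h1 h2 h3)) (enc_norm (enc_subr 35351 100000 (enc_scale 807 1250 h1)))))))) (enc_case (enc_subr 7 20 h1) (enc_case (enc_subr 3 10 h1) (enc_add (enc_subr 763 31250 (enc_scale 1617 25000 h1)) (enc_mul (enc_norm (l4q2A_4.enc h1 h2 h3)) (enc_norm (enc_subr 16453 50000 (enc_scale 2739 5000 h1))))) (enc_add (enc_subr 4691 250000 (enc_scale 573 12500 h1)) (enc_mul (enc_norm (l4q2A_4.enc h1 h2 h3)) (enc_norm (enc_subr 3847 12500 (enc_scale 298 625 h1)))))) (enc_case (enc_subr 2 5 h1) (enc_add (enc_subr 11827 1000000 (enc_scale 1301 50000 h1)) (enc_mul (enc_norm (l4q2A_4.enc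 h1 h2 h3)) (enc_norm (enc_subr 6529 20000 (enc_scale 2651 5000 h1))))) (enc_case (enc_subr 9 20 h1) (enc_add (enc_subr 1167 200000 (enc_scale 69 6250 h1)) (enc_mul (enc_norm (l4q2A_4.enc h1 h2 h3)) (enc_norm (enc_subr 42077 100000 (enc_scale 383 500 h1))))) (enc_add (enc_subr 867 100000 (enc_scale 867 50000 h1)) (enc_mul (enc_norm (l4q2A_4.enc h1 h2 h3)) (enc_norm (enc_subr 7607 10000 (enc_scale 7607 5000 h1)))))))))))⟩
noncomputable def l4q2A : Fn3 := ⟨_, _, fun h1 h2 h3 => (enc_norm (enc_case (enc_subr 37 25 h2) (enc_mul (cv4p.enc h2) (bx4q2.enc h2 h3)) (enc_add (l4q2A_132.enc h1 h2 h3) (enc_mul (enc_norm (enc_mul (enc_norm (enc_sub (enc_sub (qsg.enc (enc_norm (l4q2A_8.enc h1 h2 h3))) (enc_mul (enc_norm (enc_nat 2 (enc_sub (l4q2A_8.enc h1 h2 h3) h3))) (enc_norm (enc_mul (esg.enc (enc_norm (l4q2A_8.enc h1 h2 h3))) (kcg.enc (enc_norm (enc_sub (enc_scale 3 4 (l4q2A_8.enc h1 h2 h3)) (enc_half (gsg.enc (enc_norm (l4q2A_8.enc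 h1 h2 h3)))))) h3))))) (l4q2A_132.enc h1 h2 h3))) (enc_norm (enc_sub (cv4p.enc h2) (cv3pA.enc h1 h2))))) (enc_inv (enc_sub (enc_subr 1 2 (swg.enc h2)) (cv3pA.enc h1 h2)))))))⟩
noncomputable def bx3q2A_3 : Fn3 := ⟨_, _, fun h1 h2 h3 => (enc_subr 1047 2000 h3)⟩
noncomputable def bx3q2A : Fn3 := ⟨_, _, fun h1 h2 h3 => (enc_norm (enc_case (enc_subr 1 4 h1) (enc_case (enc_subr 1 10 h1) (enc_case (enc_subr 1 20 h1) (enc_add (enc_subr 57251 1000000 (enc_scale 7283 25000 h1)) (enc_mul (enc_norm (bx3q2A_3.enc h1 h2 h3)) (enc_norm (enc_subr 2809 10000 (enc_neg (enc_scale 1427 5000 h1)))))) (enc_add (enc_subr 28233 500000 (enc_scale 13781 50000 h1)) (enc_mul (enc_norm (bx3q2A_3.enc h1 h2 h3)) (enc_norm (enc_subr 29033 100000 (enc_neg (enc_scale 121 1250 h1))))))) (enc_case (enc_subr 3 20 h1) (enc_add (enc_subr 973 20000 (enc_scale 9873 50000 h1)) (enc_mul (enc_norm (bx3q2A_3.enc h1 h2 h3)) (enc_norm (enc_subr 36711 100000 (enc_scale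 671 1000 h1))))) (enc_case (enc_subr 1 5 h1) (enc_add (enc_subr 18907 500000 (enc_scale 6261 50000 h1)) (enc_mul (enc_norm (bx3q2A_3.enc h1 h2 h3)) (enc_norm (enc_subr 39267 100000 (enc_scale 4207 5000 h1))))) (enc_add (enc_subr 15433 500000 (enc_scale 1131 12500 h1)) (enc_mul (enc_norm (bx3q2A_3.enc h1 h2 h3)) (enc_norm (enc_subr 35351 100000 (enc_scale 807 1250 h1)))))))) (enc_case (enc_subr 7 20 h1) (enc_case (enc_subr 3 10 h1) (enc_add (enc_subr 763 31250 (enc_scale 1617 25000 h1)) (enc_mul (enc_norm (bx3q2A_3.enc h1 h2 h3)) (enc_norm (enc_subr 16453 50000 (enc_scale 2739 5000 h1))))) (enc_add (enc_subr 4691 250000 (enc_scale 573 12500 h1)) (enc_mul (enc_norm (bx3q2A_3.enc h1 h2 h3)) (enc_norm (enc_subr 3847 12500 (enc_scale 298 625 h1)))))) (enc_case (enc_subr 2 5 h1) (enc_add (enc_subr 11827 1000000 (enc_scale 1301 50000 h1)) (enc_mul (enc_norm (bx3q2A_3.enc h1 h2 h3)) (enc_norm (enc_subr 6529 20000 (enc_scale 2651 5000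 h1))))) (enc_case (enc_subr 9 20 h1) (enc_add (enc_subr 1167 200000 (enc_scale 69 6250 h1)) (enc_mul (enc_norm (bx3q2A_3.enc h1 h2 h3)) (enc_norm (enc_subr 42077 100000 (enc_scale 383 500 h1))))) (enc_add (enc_subr 867 100000 (enc_scale 867 50000 h1)) (enc_mul (enc_norm (bx3q2A_3.enc h1 h2 h3)) (enc_norm (enc_subr 7607 10000 (enc_scale 7607 5000 h1))))))))))⟩
noncomputable def l3q2A_5 : Fn3 := ⟨_, _, fun h1 h2 h3 => (enc_subr 1047 2000 h3)⟩
noncomputable def l3q2A : Fn3 := ⟨_, _, fun h1 h2 h3 => (enc_norm (enc_mul (cv3pA.enc h1 h2) (enc_norm (enc_case (enc_subr 1 4 h1) (enc_case (enc_subr 1 10 h1) (enc_case (enc_subr 1 20 h1) (enc_add (enc_subr 57251 1000000 (enc_scale 7283 25000 h1)) (enc_mul (enc_norm (l3q2A_5.enc h1 h2 h3)) (enc_norm (enc_subr 2809 10000 (enc_neg (enc_scale 1427 5000 h1)))))) (enc_add (enc_subr 28233 500000 (enc_scale 13781 50000 h1)) (enc_mul (enc_norm (l3q2A_5.enc h1 h2 h3)) (enc_norm (enc_subr 29033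 100000 (enc_neg (enc_scale 121 1250 h1))))))) (enc_case (enc_subr 3 20 h1) (enc_add (enc_subr 973 20000 (enc_scale 9873 50000 h1)) (enc_mul (enc_norm (l3q2A_5.enc h1 h2 h3)) (enc_norm (enc_subr 36711 100000 (enc_scale 671 1000 h1))))) (enc_case (enc_subr 1 5 h1) (enc_add (enc_subr 18907 500000 (enc_scale 6261 50000 h1)) (enc_mul (enc_norm (l3q2A_5.enc h1 h2 h3)) (enc_norm (enc_subr 39267 100000 (enc_scale 4207 5000 h1))))) (enc_add (enc_subr 15433 500000 (enc_scale 1131 12500 h1)) (enc_mul (enc_norm (l3q2A_5.enc h1 h2 h3)) (enc_norm (enc_subr 35351 100000 (enc_scale 807 1250 h1)))))))) (enc_case (enc_subr 7 20 h1) (enc_case (enc_subr 3 10 h1) (enc_add (enc_subr 763 31250 (enc_scale 1617 25000 h1)) (enc_mul (enc_norm (l3q2A_5.enc h1 h2 h3)) (enc_norm (enc_subr 16453 50000 (enc_scale 2739 5000 h1))))) (enc_add (enc_subr 4691 250000 (enc_scale 573 12500 h1)) (enc_mul (enc_norm (l3q2A_5.enc h1 h2 h3)) (enc_norm (enc_subr 3847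 12500 (enc_scale 298 625 h1)))))) (enc_case (enc_subr 2 5 h1) (enc_add (enc_subr 11827 1000000 (enc_scale 1301 50000 h1)) (enc_mul (enc_norm (l3q2A_5.enc h1 h2 h3)) (enc_norm (enc_subr 6529 20000 (enc_scale 2651 5000 h1))))) (enc_case (enc_subr 9 20 h1) (enc_add (enc_subr 1167 200000 (enc_scale 69 6250 h1)) (enc_mul (enc_norm (l3q2A_5.enc h1 h2 h3)) (enc_norm (enc_subr 42077 100000 (enc_scale 383 500 h1))))) (enc_add (enc_subr 867 100000 (enc_scale 867 50000 h1)) (enc_mul (enc_norm (l3q2A_5.enc h1 h2 h3)) (enc_norm (enc_subr 7607 10000 (enc_scale 7607 5000 h1))))))))))))⟩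
noncomputable def bx2q2A_3 : Fn3 := ⟨_, _, fun h1 h2 h3 => (enc_subr 1047 2000 h3)⟩
noncomputable def bx2q2A : Fn3 := ⟨_, _, fun h1 h2 h3 => (enc_norm (enc_case (enc_subr 1 4 h1) (enc_case (enc_subr 1 10 h1) (enc_case (enc_subr 1 20 h1) (enc_add (enc_subr 217703 1000000 (enc_scale 14821 50000 h1)) (enc_mul (enc_norm (bx2q2A_3.enc h1 h2 h3)) (enc_norm (enc_subr 4741 6250 (enc_scale 3453 5000 h1))))) (enc_add (enc_subr 225211 1000000 (enc_scale 22329 50000 h1)) (enc_mul (enc_norm (bx2q2A_3.enc h1 h2 h3)) (enc_norm (enc_subr 9937 12500 (enc_scale 7093 5000 h1)))))) (enc_case (enc_subr 3 20 h1) (enc_add (enc_subr 241087 1000000 (enc_scale 30267 50000 h1)) (enc_mul (enc_norm (bx2q2A_3.enc h1 h2 h3)) (enc_norm (enc_subr 44857 50000 (enc_scale 6101 2500 h1))))) (enc_case (enc_subr 1 5 h1) (enc_add (enc_subr 63121 250000 (enc_scale 17033 25000 h1)) (enc_mul (enc_norm (bx2q2A_3.enc h1 h2 h3)) (enc_norm (enc_subr 84461 100000 (enc_scale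 10451 5000 h1))))) (enc_add (enc_subr 30137 125000 (enc_scale 31219 50000 h1)) (enc_mul (enc_norm (bx2q2A_3.enc h1 h2 h3)) (enc_norm (enc_subr 82069 100000 (enc_scale 9853 5000 h1)))))))) (enc_case (enc_subr 7 20 h1) (enc_case (enc_subr 3 10 h1) (enc_add (enc_subr 113293 500000 (enc_scale 28317 50000 h1)) (enc_mul (enc_norm (bx2q2A_3.enc h1 h2 h3)) (enc_norm (enc_subr 37217 50000 (enc_scale 4163 2500 h1))))) (enc_add (enc_subr 103333 500000 (enc_scale 24997 50000 h1)) (enc_mul (enc_norm (bx2q2A_3.enc h1 h2 h3)) (enc_norm (enc_subr 6193 10000 (enc_scale 3121 2500 h1)))))) (enc_case (enc_subr 2 5 h1) (enc_add (enc_subr 15537 100000 (enc_scale 17669 50000 h1)) (enc_mul (enc_norm (bx2q2A_3.enc h1 h2 h3)) (enc_norm (enc_subr 5983 10000 (enc_scale 2971 2500 h1))))) (enc_case (enc_subr 9 20 h1) (enc_add (enc_subr 43641 500000 (enc_scale 4579 25000 h1)) (enc_mul (enc_norm (bx2q2A_3.enc h1 h2 h3)) (enc_norm (enc_subr 30887 50000 (enc_scale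 1237 1000 h1))))) (enc_add (enc_subr 243 5000 (enc_scale 243 2500 h1)) (enc_mul (enc_norm (bx2q2A_3.enc h1 h2 h3)) (enc_norm (enc_subr 6109 10000 (enc_scale 6109 5000 h1))))))))))⟩
noncomputable def bx1q2A_3 : Fn3 := ⟨_, _, fun h1 h2 h3 => (enc_subr 1047 2000 h3)⟩
noncomputable def bx1q2A : Fn3 := ⟨_, _, fun h1 h2 h3 => (enc_norm (enc_add (enc_subr 4198367113859 18535730000000 (enc_neg (enc_scale 1307165529 1492890625 (bx1q2A_3.enc h1 h2 h3)))) (enc_case (enc_subr 1 4 h1) (enc_case (enc_subr 1 10 h1) (enc_case (enc_subr 1 20 h1) (enc_sub (enc_mul (enc_norm (bx1q2A_3.enc h1 h2 h3)) (enc_scale 47 500 h1)) (enc_scale 99 6250 h1)) (enc_add (enc_sub (enc_rat _ 261 200000) (enc_scale 2097 50000 h1)) (enc_mul (enc_norm (bx1q2A_3.enc h1 h2 h3)) (enc_norm (enc_subr 443 6250 (enc_scale 3779 2500 h1)))))) (enc_case (enc_subr 3 20 h1) (enc_add (enc_subr 3853 1000000 (enc_scale 241 25000 h1)) (enc_mul (enc_norm (bx1q2A_3.enc h1 h2 h3))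 (enc_norm (enc_subr 5461 50000 (enc_scale 379 200 h1))))) (enc_case (enc_subr 1 5 h1) (enc_add (enc_subr 60139 1000000 (enc_scale 4811 12500 h1)) (enc_mul (enc_norm (bx1q2A_3.enc h1 h2 h3)) (enc_norm (enc_subr 16439 100000 (enc_scale 5657 2500 h1))))) (enc_add (enc_subr 137079 1000000 (enc_scale 38479 50000 h1)) (enc_mul (enc_norm (bx1q2A_3.enc h1 h2 h3)) (enc_norm (enc_subr 7283 20000 (enc_scale 4077 1250 h1)))))))) (enc_case (enc_subr 7 20 h1) (enc_case (enc_subr 3 10 h1) (enc_add (enc_subr 199389 1000000 (enc_scale 50941 50000 h1)) (enc_mul (enc_norm (bx1q2A_3.enc h1 h2 h3)) (enc_norm (enc_add (enc_scale 2173 1250 h1) (enc_rat _ 333 20000))))) (enc_add (enc_subr 199563 1000000 (enc_scale 5097 5000 h1)) (enc_mul (enc_norm (bx1q2A_3.enc h1 h2 h3)) (enc_norm (enc_add (enc_scale 17 20 h1) (enc_rat _ 28317 100000)))))) (enc_case (enc_subr 2 5 h1) (enc_add (enc_subr 75537 500000 (enc_scale 44043 50000 h1)) (enc_mul (enc_norm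 (bx1q2A_3.enc h1 h2 h3)) (enc_norm (enc_add (enc_scale 2661 2500 h1) (enc_rat _ 20813 100000))))) (enc_case (enc_subr 9 20 h1) (enc_add (enc_add (enc_scale 187 500 h1) (enc_rat _ 5167 100000)) (enc_mul (enc_norm (bx1q2A_3.enc h1 h2 h3)) (enc_norm (enc_subr 18451 100000 (enc_scale 1023 500 h1))))) (enc_add (enc_add (enc_scale 121062585759 926786500000 h1) (enc_rat _ 2987741256269 18535730000000)) (enc_mul (enc_norm (bx1q2A_3.enc h1 h2 h3)) (enc_norm (enc_subr 12383652301 23886250000 (enc_scale 6659660153 2388625000 h1)))))))))))⟩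
noncomputable def rxq2A_37 : Fn4Q := ⟨_, _, fun h1 h2 h3 h4 => (enc_subn 1 h3)⟩
noncomputable def rxq2A_54 : Fn4Q := ⟨_, _, fun h1 h2 h3 h4 => (enc_sub h1 (cv3pA.enc h2 h3))⟩
noncomputable def rxq2A : Fn4Q := ⟨_, _, fun h1 h2 h3 h4 => (enc_case (enc_sub h1 (cv1pA.enc h2 h3)) (enc_add (enc_mul h1 (bx1q2A.enc h2 h3 h4)) (enc_mul (enc_norm (enc_sub (enc_pnc _ 1) (lm0pA.enc h1 h2 h3))) (enc_norm (enc_mul h2 (enc_norm (enc_sub (n0x.enc h3 h4) (bx1q2A.enc h2 h3 h4))))))) (enc_case (enc_sub h1 (cv2pA.enc h2 h3)) (enc_add (enc_mul h1 (bx2q2A.enc h2 h3 h4)) (enc_mul (enc_norm (enc_mul (enc_norm (enc_sub (enc_pnc _ 1) (lm1pA.enc h1 h2 h3))) (cv1pA.enc h2 h3))) (enc_norm (enc_sub (bx1q2A.enc h2 h3 h4) (bx2q2A.enc h2 h3 h4))))) (enc_case (rxq2A_54.enc h1 h2 h3 h4) (enc_add (enc_mul h1 (bx3q2A.enc h2 h3 h4)) (enc_mul (enc_norm (enc_mul (enc_norm (enc_sub (enc_pnc _ 1) (lm2pA.enc h1 h2 h3))) (cv2pA.enc h2 h3))) (enc_norm (enc_sub (bx2q2A.enc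 h2 h3 h4) (bx3q2A.enc h2 h3 h4))))) (enc_case (enc_sub h1 (cv4p.enc h3)) (enc_case (enc_subr 37 25 h3) (enc_add (enc_mul h1 (bx4q2.enc h3 h4)) (enc_mul (enc_norm (enc_mul (enc_norm (enc_sub (enc_pnc _ 1) (lm3pA.enc h1 h2 h3))) (cv3pA.enc h2 h3))) (enc_norm (enc_sub (bx3q2A.enc h2 h3 h4) (bx4q2.enc h3 h4))))) (enc_add (l3q2A.enc h2 h3 h4) (enc_mul (enc_norm (enc_mul (enc_norm (rxq2A_54.enc h1 h2 h3 h4)) (enc_inv (enc_sub (enc_subr 1 2 (swg.enc h3)) (cv3pA.enc h2 h3))))) (enc_norm (enc_sub (enc_sub (qsg.enc (enc_norm (rxq2A_37.enc h1 h2 h3 h4))) (enc_mul (enc_norm (enc_nat 2 (enc_sub (rxq2A_37.enc h1 h2 h3 h4) h4))) (enc_norm (enc_mul (esg.enc (enc_norm (rxq2A_37.enc h1 h2 h3 h4))) (kcg.enc (enc_norm (enc_sub (enc_scale 3 4 (rxq2A_37.enc h1 h2 h3 h4)) (enc_half (gsg.enc (enc_norm (rxq2A_37.enc h1 h2 h3 h4)))))) h4))))) (l3q2A.enc h2 h3 h4)))))) (enc_case (enc_sub h1 (cv5p.enc h3)) (enc_add (enc_mul h1 (bx5q2.enc h3 h4)) (enc_mul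 (enc_norm (enc_sub (enc_pnc _ 1) (lm4p.enc h1 h3))) (enc_norm (enc_sub (l4q2A.enc h2 h3 h4) (enc_mul (cv4p.enc h3) (bx5q2.enc h3 h4)))))) (enc_add (l5q2.enc h3 h4) (enc_mul (lm5p.enc h1 h3) (enc_norm (enc_sub (l6q2.enc h3 h4) (l5q2.enc h3 h4))))))))))⟩
noncomputable def rlq2A : Fn4Q := ⟨_, _, fun h1 h2 h3 h4 => (enc_case h1 (enc_neg (rxq2A.enc (enc_neg h1) h2 h3 h4)) (rxq2A.enc h1 h2 h3 h4))⟩
noncomputable def cv1pB : Fn1 := ⟨_, _, fun h1 => (enc_norm (enc_add (enc_scale 22 25 (enc_pnc _ 0)) (enc_scale 3 25 (enc_subr 1 2 (swg.enc h1)))))⟩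
noncomputable def cv2pB : Fn1 := ⟨_, _, fun h1 => (enc_norm (enc_add (enc_scale 3 5 (enc_pnc _ 0)) (enc_scale 2 5 (enc_subr 1 2 (swg.enc h1)))))⟩
noncomputable def cv3pB : Fn1 := ⟨_, _, fun h1 => (enc_norm (enc_add (enc_scale 1 5 (enc_pnc _ 0)) (enc_scale 4 5 (enc_subr 1 2 (swg.enc h1)))))⟩
noncomputable def kf4q2B_4 : Fn2 := ⟨_, _, fun h1 h2 => (enc_subr 1047 2000 h2)⟩
noncomputable def kf4q2B_8 : Fn2 := ⟨_, _, fun h1 h2 => (enc_subn 1 h1)⟩
noncomputable def kf4q2B_9 : Fn2 := ⟨_, _, fun h1 h2 => (gsg.enc (enc_norm (kf4q2B_8.enc h1 h2)))⟩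
noncomputable def kf4q2B_10 : Fn2 := ⟨_, _, fun h1 h2 => (enc_scale 3 4 (kf4q2B_8.enc h1 h2))⟩
noncomputable def kf4q2B_11 : Fn2 := ⟨_, _, fun h1 h2 => (enc_half (kf4q2B_9.enc h1 h2))⟩
noncomputable def kf4q2B_57 : Fn2 := ⟨_, _, fun h1 h2 => (enc_mul (cv3pB.enc h1) (enc_norm (enc_case (enc_subr 127 100 h1) (enc_add (enc_sub (enc_rat _ 35635023 11600000) (enc_scale 240821 116000 h1)) (enc_mul (enc_norm (kf4q2B_4.enc h1 h2)) (enc_norm (enc_subr 3462613 290000 (enc_scale 2893 290 h1))))) (enc_case (enc_subr 69 50 h1) (enc_add (enc_sub (enc_rat _ 2571803 687500) (enc_scale 143147 55000 h1)) (enc_mul (enc_norm (kf4q2B_4.enc h1 h2)) (enc_norm (enc_subr 275709 25000 (enc_scale 4629 500 h1))))) (enc_add (enc_subr 37201 50000 (enc_scale 809 1250 h1)) (enc_mul (enc_norm (kf4q2B_4.enc h1 h2)) (enc_norm (enc_sub (enc_rat _ 6662093 200000) (enc_scale 274459 12000 h1)))))))))⟩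
noncomputable def kf4q2B : Fn2 := ⟨_, _, fun h1 h2 => (enc_norm (enc_case (enc_subr 37 25 h1) (enc_mul (cv4p.enc h1) (bf4q2.enc h1 h2)) (enc_add (kf4q2B_57.enc h1 h2) (enc_mul (enc_norm (enc_mul (enc_norm (enc_sub (enc_mul (enc_norm (kf4q2B_8.enc h1 h2)) (enc_norm (enc_add (enc_mul (enc_norm (enc_sub (enc_sub (kf4q2B_11.enc h1 h2) (kf4q2B_10.enc h1 h2)) (enc_sub (enc_rat _ 1 4) (enc_scale 3 8 (enc_mul (enc_norm (kf4q2B_8.enc h1 h2)) (enc_inv (kf4q2B_9.enc h1 h2))))))) (enc_inv (esg.enc (enc_norm (kf4q2B_8.enc h1 h2))))) (kcg.enc (enc_norm (enc_sub (kf4q2B_10.enc h1 h2) (kf4q2B_11.enc h1 h2))) h2)))) (kf4q2B_57.enc h1 h2))) (enc_norm (enc_sub (cv4p.enc h1) (cv3pB.enc h1))))) (enc_inv (enc_sub (enc_subr 1 2 (swg.enc h1)) (cv3pB.enc h1)))))))⟩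
noncomputable def lm3pB : Fn2 := ⟨_, _, fun h1 h2 => (enc_lam (enc_norm (enc_sub h1 (cv3pB.enc h2))) (enc_sub (cv4p.enc h2) (cv3pB.enc h2)))⟩
noncomputable def bf3q2B_3 : Fn2 := ⟨_, _, fun h1 h2 => (enc_subr 1047 2000 h2)⟩
noncomputable def bf3q2B : Fn2 := ⟨_, _, fun h1 h2 => (enc_norm (enc_case (enc_subr 127 100 h1) (enc_add (enc_sub (enc_rat _ 35635023 11600000) (enc_scale 240821 116000 h1)) (enc_mul (enc_norm (bf3q2B_3.enc h1 h2)) (enc_norm (enc_subr 3462613 290000 (enc_scale 2893 290 h1))))) (enc_case (enc_subr 69 50 h1) (enc_add (enc_sub (enc_rat _ 2571803 687500) (enc_scale 143147 55000 h1)) (enc_mul (enc_norm (bf3q2B_3.enc h1 h2)) (enc_norm (enc_subr 275709 25000 (enc_scale 4629 500 h1))))) (enc_add (enc_subr 37201 50000 (enc_scale 809 1250 h1)) (enc_mul (enc_norm (bf3q2B_3.enc h1 h2)) (enc_norm (enc_sub (enc_rat _ 6662093 200000) (enc_scale 274459 12000 h1))))))))⟩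
noncomputable def kf3q2B_4 : Fn2 := ⟨_, _, fun h1 h2 => (enc_subr 1047 2000 h2)⟩
noncomputable def kf3q2B : Fn2 := ⟨_, _, fun h1 h2 => (enc_norm (enc_mul (cv3pB.enc h1) (enc_norm (enc_case (enc_subr 127 100 h1) (enc_add (enc_sub (enc_rat _ 35635023 11600000) (enc_scale 240821 116000 h1)) (enc_mul (enc_norm (kf3q2B_4.enc h1 h2)) (enc_norm (enc_subr 3462613 290000 (enc_scale 2893 290 h1))))) (enc_case (enc_subr 69 50 h1) (enc_add (enc_sub (enc_rat _ 2571803 687500) (enc_scale 143147 55000 h1)) (enc_mul (enc_norm (kf3q2B_4.enc h1 h2)) (enc_norm (enc_subr 275709 25000 (enc_scale 4629 500 h1))))) (enc_add (enc_subr 37201 50000 (enc_scale 809 1250 h1)) (enc_mul (enc_norm (kf3q2B_4.enc h1 h2)) (enc_norm (enc_sub (enc_rat _ 6662093 200000) (enc_scale 274459 12000 h1))))))))))⟩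
noncomputable def lm2pB : Fn2 := ⟨_, _, fun h1 h2 => (enc_lam (enc_norm (enc_sub h1 (cv2pB.enc h2))) (enc_sub (cv3pB.enc h2) (cv2pB.enc h2)))⟩
noncomputable def bf2q2B_3 : Fn2 := ⟨_, _, fun h1 h2 => (enc_subr 1047 2000 h2)⟩
noncomputable def bf2q2B : Fn2 := ⟨_, _, fun h1 h2 => (enc_norm (enc_case (enc_subr 127 100 h1) (enc_add (enc_sub (enc_rat _ 138466853 29000000) (enc_scale 194947 58000 h1)) (enc_mul (enc_norm (bf2q2B_3.enc h1 h2)) (enc_norm (enc_subr 3631149 290000 (enc_scale 14243 1450 h1))))) (enc_case (enc_subr 69 50 h1) (enc_add (enc_sub (enc_rat _ 25154717 5500000) (enc_scale 176153 55000 h1)) (enc_mul (enc_norm (bf2q2B_3.enc h1 h2)) (enc_norm (enc_subr 196243 22000 (enc_scale 3843 550 h1))))) (enc_add (enc_sub (enc_rat _ 9029253 2000000) (enc_scale 379207 120000 h1)) (enc_mul (enc_norm (bf2q2B_3.enc h1 h2)) (enc_norm (enc_subr 317579 50000 (enc_scale 2563 500 h1))))))))⟩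
noncomputable def lm1pB : Fn2 := ⟨_, _, fun h1 h2 => (enc_lam (enc_norm (enc_sub h1 (cv1pB.enc h2))) (enc_sub (cv2pB.enc h2) (cv1pB.enc h2)))⟩
noncomputable def bf1q2B_3 : Fn2 := ⟨_, _, fun h1 h2 => (enc_subr 1047 2000 h2)⟩
noncomputable def bf1q2B : Fn2 := ⟨_, _, fun h1 h2 => (enc_norm (enc_add (enc_sub (enc_pnc _ 1) (enc_scale 3525793 5000000 (enc_subn 1 h1))) (enc_case (enc_subr 127 100 h1) (enc_case (enc_subr 231 200 h1) (enc_pnc _ 0) (enc_add (enc_sub (enc_rat _ 68470479 23000000) (enc_scale 296409 115000 h1)) (enc_mul (enc_norm (bf1q2B_3.enc h1 h2)) (enc_norm (enc_subr 672903 230000 (enc_scale 2913 1150 h1)))))) (enc_case (enc_subr 139 100 h1) (enc_add (enc_sub (enc_rat _ 7157513 2400000) (enc_scale 309799 120000 h1)) (enc_mul (enc_norm (bf1q2B_3.enc h1 h2)) (enc_norm (enc_subr 4108267 1200000 (enc_scale 35101 12000 h1))))) (enc_add (enc_sub (enc_rat _ 32831481 11000000) (enc_scale 284171 110000 h1)) (enc_mul (enc_norm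 (bf1q2B_3.enc h1 h2)) (enc_norm (enc_subr 4061437 1100000 (enc_scale 17151 5500 h1)))))))))⟩
noncomputable def lm0pB : Fn2 := ⟨_, _, fun h1 h2 => (enc_lam (enc_norm (enc_subn 0 h1)) (enc_subn 0 (cv1pB.enc h2)))⟩
noncomputable def rkbq2B_37 : Fn3 := ⟨_, _, fun h1 h2 h3 => (enc_subn 1 h2)⟩
noncomputable def rkbq2B_38 : Fn3 := ⟨_, _, fun h1 h2 h3 => (gsg.enc (enc_norm (rkbq2B_37.enc h1 h2 h3)))⟩
noncomputable def rkbq2B_39 : Fn3 := ⟨_, _, fun h1 h2 h3 => (enc_scale 3 4 (rkbq2B_37.enc h1 h2 h3))⟩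
noncomputable def rkbq2B_40 : Fn3 := ⟨_, _, fun h1 h2 h3 => (enc_half (rkbq2B_38.enc h1 h2 h3))⟩
noncomputable def rkbq2B_59 : Fn3 := ⟨_, _, fun h1 h2 h3 => (enc_sub h1 (cv3pB.enc h2))⟩
noncomputable def rkbq2B_90 : Fn3 := ⟨_, _, fun h1 h2 h3 => (enc_mul h1 (bf1q2B.enc h2 h3))⟩
noncomputable def rkbq2B : Fn3 := ⟨_, _, fun h1 h2 h3 => (enc_case (enc_sub h1 (cv1pB.enc h2)) (enc_case (enc_subr 2887 2500 h2) (enc_add (rkbq2B_90.enc h1 h2 h3) (enc_mul (enc_norm (enc_sub (enc_pnc _ 1) (lm0pB.enc h1 h2))) (enc_norm (enc_mul (enc_pnc _ 0) (enc_norm (enc_sub (n0b.enc h2 h3) (bf1q2B.enc h2 h3))))))) (rkbq2B_90.enc h1 h2 h3)) (enc_case (enc_sub h1 (cv2pB.enc h2)) (enc_add (enc_mul h1 (bf2q2B.enc h2 h3)) (enc_mul (enc_norm (enc_mul (enc_norm (enc_sub (enc_pnc _ 1) (lm1pB.enc h1 h2))) (cv1pB.enc h2))) (enc_norm (enc_sub (bf1q2B.enc h2 h3) (bf2q2B.enc h2 h3))))) (enc_case (rkbq2B_59.enc h1 h2 h3) (enc_add (enc_mul h1 (bf3q2B.enc h2 h3))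 (enc_mul (enc_norm (enc_mul (enc_norm (enc_sub (enc_pnc _ 1) (lm2pB.enc h1 h2))) (cv2pB.enc h2))) (enc_norm (enc_sub (bf2q2B.enc h2 h3) (bf3q2B.enc h2 h3))))) (enc_case (enc_sub h1 (cv4p.enc h2)) (enc_case (enc_subr 37 25 h2) (enc_add (enc_mul h1 (bf4q2.enc h2 h3)) (enc_mul (enc_norm (enc_mul (enc_norm (enc_sub (enc_pnc _ 1) (lm3pB.enc h1 h2))) (cv3pB.enc h2))) (enc_norm (enc_sub (bf3q2B.enc h2 h3) (bf4q2.enc h2 h3))))) (enc_add (kf3q2B.enc h2 h3) (enc_mul (enc_norm (enc_mul (enc_norm (rkbq2B_59.enc h1 h2 h3)) (enc_inv (enc_sub (enc_subr 1 2 (swg.enc h2)) (cv3pB.enc h2))))) (enc_norm (enc_sub (enc_mul (enc_norm (rkbq2B_37.enc h1 h2 h3)) (enc_norm (enc_add (enc_mul (enc_norm (enc_sub (enc_sub (rkbq2B_40.enc h1 h2 h3) (rkbq2B_39.enc h1 h2 h3)) (enc_sub (enc_rat _ 1 4) (enc_scale 3 8 (enc_mul (enc_norm (rkbq2B_37.enc h1 h2 h3)) (enc_inv (rkbq2B_38.enc h1 h2 h3))))))) (enc_inv (esg.enc (enc_norm (rkbq2B_37.enc h1 h2 h3))))) (kcg.enc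 (enc_norm (enc_sub (rkbq2B_39.enc h1 h2 h3) (rkbq2B_40.enc h1 h2 h3))) h3)))) (kf3q2B.enc h2 h3)))))) (enc_case (enc_sub h1 (cv5p.enc h2)) (enc_add (enc_mul h1 (bf5q2.enc h2 h3)) (enc_mul (enc_norm (enc_sub (enc_pnc _ 1) (lm4p.enc h1 h2))) (enc_norm (enc_sub (kf4q2B.enc h2 h3) (enc_mul (cv4p.enc h2) (bf5q2.enc h2 h3)))))) (enc_add (kf5q2.enc h2 h3) (enc_mul (lm5p.enc h1 h2) (enc_norm (enc_sub (kf6q2.enc h2 h3) (kf5q2.enc h2 h3))))))))))⟩
noncomputable def rsbq2B : Fn3 := ⟨_, _, fun h1 h2 h3 => (enc_case h1 (enc_neg (rkbq2B.enc (enc_neg h1) h2 h3)) (rkbq2B.enc h1 h2 h3))⟩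
noncomputable def l4q2B_4 : Fn2 := ⟨_, _, fun h1 h2 => (enc_subr 1047 2000 h2)⟩
noncomputable def l4q2B_8 : Fn2 := ⟨_, _, fun h1 h2 => (enc_subn 1 h1)⟩
noncomputable def l4q2B_52 : Fn2 := ⟨_, _, fun h1 h2 => (enc_mul (cv3pB.enc h1) (enc_norm (enc_case (enc_subr 127 100 h1) (enc_add (enc_subr 24390071 29000000 (enc_scale 39373 58000 h1)) (enc_mul (enc_norm (l4q2B_4.enc h1 h2)) (enc_norm (enc_subr 6297463 2900000 (enc_scale 2371 1450 h1))))) (enc_case (enc_subr 69 50 h1) (enc_add (enc_subr 12658317 11000000 (enc_scale 101499 110000 h1)) (enc_mul (enc_norm (l4q2B_4.enc h1 h2)) (enc_norm (enc_subr 193129 100000 (enc_scale 723 500 h1))))) (enc_add (enc_subr 1119359 1000000 (enc_scale 26999 30000 h1)) (enc_mul (enc_norm (l4q2B_4.enc h1 h2)) (enc_norm (enc_sub (enc_rat _ 358893 50000) (enc_scale 30929 6000 h1)))))))))⟩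
noncomputable def l4q2B : Fn2 := ⟨_, _, fun h1 h2 => (enc_norm (enc_case (enc_subr 37 25 h1) (enc_mul (cv4p.enc h1) (bx4q2.enc h1 h2)) (enc_add (l4q2B_52.enc h1 h2) (enc_mul (enc_norm (enc_mul (enc_norm (enc_sub (enc_sub (qsg.enc (enc_norm (l4q2B_8.enc h1 h2))) (enc_mul (enc_norm (enc_nat 2 (enc_sub (l4q2B_8.enc h1 h2) h2))) (enc_norm (enc_mul (esg.enc (enc_norm (l4q2B_8.enc h1 h2))) (kcg.enc (enc_norm (enc_sub (enc_scale 3 4 (l4q2B_8.enc h1 h2)) (enc_half (gsg.enc (enc_norm (l4q2B_8.enc h1 h2)))))) h2))))) (l4q2B_52.enc h1 h2))) (enc_norm (enc_sub (cv4p.enc h1) (cv3pB.enc h1))))) (enc_inv (enc_sub (enc_subr 1 2 (swg.enc h1)) (cv3pB.enc h1)))))))⟩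
noncomputable def bx3q2B_3 : Fn2 := ⟨_, _, fun h1 h2 => (enc_subr 1047 2000 h2)⟩
noncomputable def bx3q2B : Fn2 := ⟨_, _, fun h1 h2 => (enc_norm (enc_case (enc_subr 127 100 h1) (enc_add (enc_subr 24390071 29000000 (enc_scale 39373 58000 h1)) (enc_mul (enc_norm (bx3q2B_3.enc h1 h2)) (enc_norm (enc_subr 6297463 2900000 (enc_scale 2371 1450 h1))))) (enc_case (enc_subr 69 50 h1) (enc_add (enc_subr 12658317 11000000 (enc_scale 101499 110000 h1)) (enc_mul (enc_norm (bx3q2B_3.enc h1 h2)) (enc_norm (enc_subr 193129 100000 (enc_scale 723 500 h1))))) (enc_add (enc_subr 1119359 1000000 (enc_scale 26999 30000 h1)) (enc_mul (enc_norm (bx3q2B_3.enc h1 h2)) (enc_norm (enc_sub (enc_rat _ 358893 50000) (enc_scale 30929 6000 h1))))))))⟩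
noncomputable def l3q2B_4 : Fn2 := ⟨_, _, fun h1 h2 => (enc_subr 1047 2000 h2)⟩
noncomputable def l3q2B : Fn2 := ⟨_, _, fun h1 h2 => (enc_norm (enc_mul (cv3pB.enc h1) (enc_norm (enc_case (enc_subr 127 100 h1) (enc_add (enc_subr 24390071 29000000 (enc_scale 39373 58000 h1)) (enc_mul (enc_norm (l3q2B_4.enc h1 h2)) (enc_norm (enc_subr 6297463 2900000 (enc_scale 2371 1450 h1))))) (enc_case (enc_subr 69 50 h1) (enc_add (enc_subr 12658317 11000000 (enc_scale 101499 110000 h1)) (enc_mul (enc_norm (l3q2B_4.enc h1 h2)) (enc_norm (enc_subr 193129 100000 (enc_scale 723 500 h1))))) (enc_add (enc_subr 1119359 1000000 (enc_scale 26999 30000 h1)) (enc_mul (enc_norm (l3q2B_4.enc h1 h2)) (enc_norm (enc_sub (enc_rat _ 358893 50000) (enc_scale 30929 6000 h1))))))))))⟩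
noncomputable def bx2q2B_3 : Fn2 := ⟨_, _, fun h1 h2 => (enc_subr 1047 2000 h2)⟩
noncomputable def bx2q2B : Fn2 := ⟨_, _, fun h1 h2 => (enc_norm (enc_case (enc_subr 127 100 h1) (enc_add (enc_subr 61642169 29000000 (enc_scale 19167 11600 h1)) (enc_mul (enc_norm (bx2q2B_3.enc h1 h2)) (enc_norm (enc_subr 28962813 5800000 (enc_scale 42633 11600 h1))))) (enc_case (enc_subr 69 50 h1) (enc_add (enc_subr 23465201 11000000 (enc_scale 36483 22000 h1)) (enc_mul (enc_norm (bx2q2B_3.enc h1 h2)) (enc_norm (enc_sub (enc_rat _ 656291 550000) (enc_scale 13159 11000 h1))))) (enc_add (enc_subr 529861 250000 (enc_scale 32967 20000 h1)) (enc_mul (enc_norm (bx2q2B_3.enc h1 h2)) (enc_norm (enc_sub (enc_rat _ 358061 200000) (enc_scale 19547 12000 h1))))))))⟩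
noncomputable def bx1q2B_3 : Fn2 := ⟨_, _, fun h1 h2 => (enc_subr 1047 2000 h2)⟩
noncomputable def bx1q2B : Fn2 := ⟨_, _, fun h1 h2 => (enc_norm (enc_add (enc_subr 4198367113859 18535730000000 (enc_neg (enc_scale 1307165529 1492890625 (bx1q2B_3.enc h1 h2)))) (enc_case (enc_subr 127 100 h1) (enc_case (enc_subr 231 200 h1) (enc_pnc _ 0) (enc_add (enc_subr 45742389 23000000 (enc_scale 198019 115000 h1)) (enc_mul (enc_norm (bx1q2B_3.enc h1 h2)) (enc_norm (enc_subr 36267 1150000 (enc_scale 157 5750 h1)))))) (enc_case (enc_subr 139 100 h1) (enc_add (enc_subr 7973591 4000000 (enc_scale 69021 40000 h1)) (enc_mul (enc_norm (bx1q2B_3.enc h1 h2)) (enc_norm (enc_sub (enc_rat _ 2231 120000) (enc_scale 73 6000 h1))))) (enc_add (enc_subr 21942839 11000000 (enc_scale 189919 110000 h1)) (enc_mul (enc_norm (bx1q2B_3.enc h1 h2)) (enc_norm (enc_sub (enc_rat _ 1413 34375) (enc_scale 39 1375 h1)))))))))⟩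
noncomputable def rxq2B_37 : Fn3 := ⟨_, _, fun h1 h2 h3 => (enc_subn 1 h2)⟩
noncomputable def rxq2B_54 : Fn3 := ⟨_, _, fun h1 h2 h3 => (enc_sub h1 (cv3pB.enc h2))⟩
noncomputable def rxq2B_85 : Fn3 := ⟨_, _, fun h1 h2 h3 => (enc_mul h1 (bx1q2B.enc h2 h3))⟩
noncomputable def rxq2B : Fn3 := ⟨_, _, fun h1 h2 h3 => (enc_case (enc_sub h1 (cv1pB.enc h2)) (enc_case (enc_subr 2887 2500 h2) (enc_add (rxq2B_85.enc h1 h2 h3) (enc_mul (enc_norm (enc_sub (enc_pnc _ 1) (lm0pB.enc h1 h2))) (enc_norm (enc_mul (enc_pnc _ 0) (enc_norm (enc_sub (n0x.enc h2 h3) (bx1q2B.enc h2 h3))))))) (rxq2B_85.enc h1 h2 h3)) (enc_case (enc_sub h1 (cv2pB.enc h2)) (enc_add (enc_mul h1 (bx2q2B.enc h2 h3)) (enc_mul (enc_norm (enc_mul (enc_norm (enc_sub (enc_pnc _ 1) (lm1pB.enc h1 h2))) (cv1pB.enc h2))) (enc_norm (enc_sub (bx1q2B.enc h2 h3) (bx2q2B.enc h2 h3))))) (enc_case (rxq2B_54.enc h1 h2 h3) (enc_add (enc_mul h1 (bx3q2B.enc h2 h3)) (enc_mul (enc_norm (enc_mul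 (enc_norm (enc_sub (enc_pnc _ 1) (lm2pB.enc h1 h2))) (cv2pB.enc h2))) (enc_norm (enc_sub (bx2q2B.enc h2 h3) (bx3q2B.enc h2 h3))))) (enc_case (enc_sub h1 (cv4p.enc h2)) (enc_case (enc_subr 37 25 h2) (enc_add (enc_mul h1 (bx4q2.enc h2 h3)) (enc_mul (enc_norm (enc_mul (enc_norm (enc_sub (enc_pnc _ 1) (lm3pB.enc h1 h2))) (cv3pB.enc h2))) (enc_norm (enc_sub (bx3q2B.enc h2 h3) (bx4q2.enc h2 h3))))) (enc_add (l3q2B.enc h2 h3) (enc_mul (enc_norm (enc_mul (enc_norm (rxq2B_54.enc h1 h2 h3)) (enc_inv (enc_sub (enc_subr 1 2 (swg.enc h2)) (cv3pB.enc h2))))) (enc_norm (enc_sub (enc_sub (qsg.enc (enc_norm (rxq2B_37.enc h1 h2 h3))) (enc_mul (enc_norm (enc_nat 2 (enc_sub (rxq2B_37.enc h1 h2 h3) h3))) (enc_norm (enc_mul (esg.enc (enc_norm (rxq2B_37.enc h1 h2 h3))) (kcg.enc (enc_norm (enc_sub (enc_scale 3 4 (rxq2B_37.enc h1 h2 h3)) (enc_half (gsg.enc (enc_norm (rxq2B_37.enc h1 h2 h3)))))) h3))))) (l3q2B.enc h2 h3)))))) (enc_case (enc_sub h1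 (cv5p.enc h2)) (enc_add (enc_mul h1 (bx5q2.enc h2 h3)) (enc_mul (enc_norm (enc_sub (enc_pnc _ 1) (lm4p.enc h1 h2))) (enc_norm (enc_sub (l4q2B.enc h2 h3) (enc_mul (cv4p.enc h2) (bx5q2.enc h2 h3)))))) (enc_add (l5q2.enc h2 h3) (enc_mul (lm5p.enc h1 h2) (enc_norm (enc_sub (l6q2.enc h2 h3) (l5q2.enc h2 h3))))))))))⟩
noncomputable def rlq2B : Fn3 := ⟨_, _, fun h1 h2 h3 => (enc_case h1 (enc_neg (rxq2B.enc (enc_neg h1) h2 h3)) (rxq2B.enc h1 h2 h3))⟩
noncomputable def dt1 : DT := .quad sw1 sl1 sv1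
noncomputable def dt2 : DT := .quad sw2 sl2 sv2
noncomputable def dt3 : DT := .quad sw3 sl3 sv3
noncomputable def dt4 : DT := .quad sw4 sl4 sv4
noncomputable def dt5 : DT := .quad sw5 sl5 sv5
noncomputable def dt6 : DT := .quad sw6 sl6 sv6
noncomputable def dt7 : DT := .quad sw7 sl7 sv7
noncomputable def dt8 : DT := .quad sw8 sl8 sv8
noncomputable def dt9 : DT := .quad sw9 sl9 sv9
noncomputable def dt10 : DT := .lin sl10 sv10
noncomputable def dt11 : DT := .quad sw11 sl11 sv11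
noncomputable def dt12 : DT := .quad sw12 sl12 sv12
noncomputable def dt13 : DT := .quad sw13 sl13 sv13
noncomputable def dt14 : DT := .quad sw14 sl14 sv14
noncomputable def dt15 : DT := .quad sw15 sl15 sv15
noncomputable def dt16 : DT := .quad sw16 sl16 sv16
noncomputable def dt17 : DT := .quad sw17 sl17 sv17
noncomputable def dt18 : DT := .quad sw18 sl18 sv18
noncomputable def dt19 : DT := .quad sw19 sl19 sv19
noncomputable def dt20 : DT := .node ((Cn.rt 9 20).ng) dt1 dt2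
noncomputable def dt21 : DT := .node ((Cn.rt 7 20).ng) dt3 dt4
noncomputable def dt22 : DT := .node ((Cn.rt 2 5).ng) dt20 dt21
noncomputable def dt23 : DT := .node ((Cn.rt 1 4).ng) dt5 dt6
noncomputable def dt24 : DT := .node ((Cn.rt 1 10).ng) dt8 dt9
noncomputable def dt25 : DT := .node ((Cn.rt 3 20).ng) dt7 dt24
noncomputable def dt26 : DT := .node ((Cn.rt 1 5).ng) dt23 dt25
noncomputable def dt27 : DT := .node ((Cn.rt 3 10).ng) dt22 dt26
noncomputable def dt28 : DT := .node (Cn.rt 1 20) dt10 dt11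
noncomputable def dt29 : DT := .node (Cn.rt 1 5) dt13 dt14
noncomputable def dt30 : DT := .node (Cn.rt 3 20) dt12 dt29
noncomputable def dt31 : DT := .node (Cn.rt 1 10) dt28 dt30
noncomputable def dt32 : DT := .node (Cn.rt 3 10) dt15 dt16
noncomputable def dt33 : DT := .node (Cn.rt 9 20) dt18 dt19
noncomputable def dt34 : DT := .node (Cn.rt 2 5) dt17 dt33
noncomputable def dt35 : DT := .node (Cn.rt 7 20) dt32 dt34
noncomputable def dt36 : DT := .node (Cn.rt 1 4) dt31 dt35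
noncomputable def dt37 : DT := .node ((Cn.rt 1 20).ng) dt27 dt36
noncomputable def dt38 : DT := .quad sw38 sl38 sv38
noncomputable def dt39 : DT := .quad sw39 sl39 sv39
noncomputable def dt40 : DT := .quad sw40 sl40 sv40
noncomputable def dt41 : DT := .quad sw41 sl41 sv41
noncomputable def dt42 : DT := .quad sw42 sl42 sv42
noncomputable def dt43 : DT := .quad sw43 sl43 sv43
noncomputable def dt44 : DT := .quad sw44 sl44 sv44
noncomputable def dt45 : DT := .quad sw45 sl45 sv45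
noncomputable def dt46 : DT := .clo
noncomputable def dt47 : DT := .quad sw47 sl47 sv47
noncomputable def dt48 : DT := .quad sw48 sl48 sv48
noncomputable def dt49 : DT := .quad sw49 sl49 sv49
noncomputable def dt50 : DT := .quad sw50 sl50 sv50
noncomputable def dt51 : DT := .quad sw51 sl51 sv51
noncomputable def dt52 : DT := .quad sw52 sl52 sv52
noncomputable def dt53 : DT := .quad sw53 sl53 sv53
noncomputable def dt54 : DT := .quad sw54 sl54 sv54
noncomputable def dt55 : DT := .quad sw55 sl55 sv55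
noncomputable def dt56 : DT := .quad sw56 sl56 sv56
noncomputable def dt57 : DT := .quad sw57 sl57 sv57
noncomputable def dt58 : DT := .node ((Cn.rt 11 25).ng) dt38 dt39
noncomputable def dt59 : DT := .node ((Cn.rt 13 50).ng) dt41 dt42
noncomputable def dt60 : DT := .node ((Cn.rt 8 25).ng) dt40 dt59
noncomputable def dt61 : DT := .node ((Cn.rt 19 50).ng) dt58 dt60
noncomputable def dt62 : DT := .node ((Cn.rt 4 25).ng) dt43 dt44
noncomputable def dt63 : DT := .node ((Cn.rt 1 97).ng) dt46 dt47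
noncomputable def dt64 : DT := .node ((Cn.rt 13 134).ng) dt45 dt63
noncomputable def dt65 : DT := .node ((Cn.rt 13 100).ng) dt62 dt64
noncomputable def dt66 : DT := .node ((Cn.rt 1 5).ng) dt61 dt65
noncomputable def dt67 : DT := .node (Cn.rt 1 20) dt48 dt49
noncomputable def dt68 : DT := .node (Cn.rt 1 5) dt51 dt52
noncomputable def dt69 : DT := .node (Cn.rt 3 20) dt50 dt68
noncomputable def dt70 : DT := .node (Cn.rt 1 10) dt67 dt69
noncomputable def dt71 : DT := .node (Cn.rt 3 10) dt53 dt54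
noncomputable def dt72 : DT := .node (Cn.rt 11 25) dt56 dt57
noncomputable def dt73 : DT := .node (Cn.rt 2 5) dt55 dt72
noncomputable def dt74 : DT := .node (Cn.rt 7 20) dt71 dt73
noncomputable def dt75 : DT := .node (Cn.rt 1 4) dt70 dt74
noncomputable def dt76 : DT := .node (Cn.rt 1 100) dt66 dt75
noncomputable def dt77 : DT := .quad sw77 sl77 sv77
noncomputable def dt78 : DT := .lin sl78 sv78
noncomputable def dt79 : DT := .quad sw79 sl79 sv79
noncomputable def dt80 : DT := .node (Cn.rt 1 100) dt78 dt79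
noncomputable def dt81 : DT := .node ((Cn.rt 1 100).ng) dt77 dt80
noncomputable def dd : SDat := ⟨dt37, kcg, dt76, Kh.T⟩
noncomputable def gf0 : Sg := ⟨cv1m, skf0, sxf0⟩
noncomputable def gf1 : Sg := ⟨cv1m, skf1, sxf1⟩
noncomputable def gf2 : Sg := ⟨cv1p, skf2, sxf2⟩
noncomputable def gf3 : Sg := ⟨cv1r, skf2, sxf2⟩
noncomputable def gl0 : Sg := ⟨cv5m, skl0, sxl0⟩
noncomputable def gl1 : Sg := ⟨cv5m, skl1, sxl1⟩
noncomputable def gl2 : Sg := ⟨cv5p, skl2, sxl2⟩
noncomputable def gl3 : Sg := ⟨cv5r, skl3, sxl3⟩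
noncomputable def vv : Vt := ⟨(Cn.rt 1 100), (Cn.rt 115471 100000), (Cn.rt 231 200), (Cn.rt 127 100), k0c, m0c, sbk, sbx, rhk, rhx, bf1q2, bx1q2, (Cn.rt 1 97), (Cn.rt 115471 100000), skm, dt81⟩
noncomputable def ff (q : ℕ) : Sg := match q with
  | 0 => gf0
  | 1 => gf1
  | 2 => gf2
  | _ => gf3
noncomputable def fl (q : ℕ) : Sg := match q with
  | 0 => gl0
  | 1 => gl1
  | 2 => gl2
  | _ => gl3
noncomputable def tt : STab 6 := ⟨dd, 0, 5, ff, fl, vv⟩
noncomputable def ww : Wt := ⟨(Cn.rt 1 20), (Cn.rt 577 500), (Cn.rt 23093 20000), q1k, q1x, frw, cv2p, a2k0, a2k1, a2x0, a2x1, b2k0, b2k1, b2x0, b2x1, rsbq2A, rlq2A, ⟨rsbq2B, rlq2B⟩⟩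
theorem kcl0 {p x : ℝ} (h1 : -1 / 2 ≤ p) (h2 : p ≤ -9 / 20) : kcg.v p x = (-1018997 / 625000 + (x - 1047 / 2000) * (111356089 / 20000000)) + (-79050793 / 10000000 + (x - 1047 / 2000) * (53937367 / 2000000)) * p + (-4407147 / 500000 + (x - 1047 / 2000) * (599321 / 20000)) * p ^ 2 := by
  simp only [kcg, kcg_3, kcg_6, kcg_9, kcg_12, kcg_13, kcg_16, kcg_28, kcg_36, kcg_41, kcg_53, kcg_61, kcg_62, kcg_67, kcg_78, kcg_85, kcg_86, kcg_91, kcg_102, kcg_107, kcg_111, kcg_124, kcg_134, kcg_137, kcg_138, kcg_141, kcg_153, kcg_158, kcg_161, kcg_171, kcg_179, kcg_180, kcg_185, kcg_195, kcg_203, kcg_207, kcg_216, kcg_221, kcg_228, kcg_229, kcg_230, kcg_250, kcg_260, kcg_281, kcg_282, kcg_303]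
  rcases eq_or_lt_of_le h1 with h | h1
  · subst h
    ((try push_cast); (repeat first | rw [if_pos (by linarith)] | rw [if_neg (by linarith)] | erw [if_pos (by linarith)] | erw [if_neg (by linarith)]); (try push_cast); (try ring1))
  rcases eq_or_lt_of_le h2 with h | h2
  · subst h
    ((try push_cast); (repeat first | rw [if_pos (by linarith)] | rw [if_neg (by linarith)] | erw [if_pos (by linarith)] | erw [if_neg (by linarith)]); (try push_cast); (try ring1))
  · ((try push_cast); (repeat first | rw [if_pos (by linarith)] | rw [if_neg (by linarith)] | erw [if_pos (by linarith)] | erw [if_neg (by linarith)]); (try push_cast); (try ring1))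
theorem kcl1 {p x : ℝ} (h1 : -9 / 20 ≤ p) (h2 : p ≤ -2 / 5) : kcg.v p x = (-109283153 / 25000000 + (x - 1047 / 2000) * (-4986991 / 10000000)) + (-401739887 / 20000000 + (x - 1047 / 2000) * (12893 / 2000000)) * p + (-4469951 / 200000 + (x - 1047 / 2000) * (801 / 100000)) * p ^ 2 := by
  simp only [kcg, kcg_3, kcg_6, kcg_9, kcg_12, kcg_13, kcg_16, kcg_28, kcg_36, kcg_41, kcg_53, kcg_61, kcg_62, kcg_67, kcg_78, kcg_85, kcg_86, kcg_91, kcg_102, kcg_107, kcg_111, kcg_124, kcg_134, kcg_137, kcg_138, kcg_141, kcg_153, kcg_158, kcg_161, kcg_171, kcg_179, kcg_180, kcg_185, kcg_195, kcg_203, kcg_207, kcg_216, kcg_221, kcg_228, kcg_229, kcg_230, kcg_250, kcg_260, kcg_281, kcg_282, kcg_303]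
  rcases eq_or_lt_of_le h1 with h | h1
  · subst h
    ((try push_cast); (repeat first | rw [if_pos (by linarith)] | rw [if_neg (by linarith)] | erw [if_pos (by linarith)] | erw [if_neg (by linarith)]); (try push_cast); (try ring1))
  rcases eq_or_lt_of_le h2 with h | h2
  · subst h
    ((try push_cast); (repeat first | rw [if_pos (by linarith)] | rw [if_neg (by linarith)] | erw [if_pos (by linarith)] | erw [if_neg (by linarith)]); (try push_cast); (try ring1))
  · ((try push_cast); (repeat first | rw [if_pos (by linarith)] | rw [if_neg (by linarith)] | erw [if_pos (by linarith)] | erw [if_neg (by linarith)]); (try push_cast); (try ring1))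
theorem kcl2 {p x : ℝ} (h1 : -2 / 5 ≤ p) (h2 : p ≤ -7 / 20) : kcg.v p x = (-467877 / 156250 + (x - 1047 / 2000) * (10169059 / 10000000)) + (-264048557 / 20000000 + (x - 1047 / 2000) * (7584471 / 1000000)) * p + (-13744047 / 1000000 + (x - 1047 / 2000) * (474027 / 50000)) * p ^ 2 := by
  simp only [kcg, kcg_3, kcg_6, kcg_9, kcg_12, kcg_13, kcg_16, kcg_28, kcg_36, kcg_41, kcg_53, kcg_61, kcg_62, kcg_67, kcg_78, kcg_85, kcg_86, kcg_91, kcg_102, kcg_107, kcg_111, kcg_124, kcg_134, kcg_137, kcg_138, kcg_141, kcg_153, kcg_158, kcg_161, kcg_171, kcg_179, kcg_180, kcg_185, kcg_195, kcg_203, kcg_207, kcg_216, kcg_221, kcg_228, kcg_229, kcg_230, kcg_250, kcg_260, kcg_281, kcg_282, kcg_303]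
  rcases eq_or_lt_of_le h1 with h | h1
  · subst h
    ((try push_cast); (repeat first | rw [if_pos (by linarith)] | rw [if_neg (by linarith)] | erw [if_pos (by linarith)] | erw [if_neg (by linarith)]); (try push_cast); (try ring1))
  rcases eq_or_lt_of_le h2 with h | h2
  · subst h
    ((try push_cast); (repeat first | rw [if_pos (by linarith)] | rw [if_neg (by linarith)] | erw [if_pos (by linarith)] | erw [if_neg (by linarith)]); (try push_cast); (try ring1))
  · ((try push_cast); (repeat first | rw [if_pos (by linarith)] | rw [if_neg (by linarith)] | erw [if_pos (by linarith)] | erw [if_neg (by linarith)]); (try push_cast); (try ring1))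
theorem kcl3 {p x : ℝ} (h1 : -7 / 20 ≤ p) (h2 : p ≤ -3 / 10) : kcg.v p x = (83093053 / 50000000 + (x - 1047 / 2000) * (-9869459 / 4000000)) + (67024257 / 5000000 + (x - 1047 / 2000) * (-24651297 / 2000000)) * p + (1516647 / 62500 + (x - 1047 / 2000) * (-1896249 / 100000)) * p ^ 2 := by
  simp only [kcg, kcg_3, kcg_6, kcg_9, kcg_12, kcg_13, kcg_16, kcg_28, kcg_36, kcg_41, kcg_53, kcg_61, kcg_62, kcg_67, kcg_78, kcg_85, kcg_86, kcg_91, kcg_102, kcg_107, kcg_111, kcg_124, kcg_134, kcg_137, kcg_138, kcg_141, kcg_153, kcg_158, kcg_161, kcg_171, kcg_179, kcg_180, kcg_185, kcg_195, kcg_203, kcg_207, kcg_216, kcg_221, kcg_228, kcg_229, kcg_230, kcg_250, kcg_260, kcg_281, kcg_282, kcg_303]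
  rcases eq_or_lt_of_le h1 with h | h1
  · subst h
    ((try push_cast); (repeat first | rw [if_pos (by linarith)] | rw [if_neg (by linarith)] | erw [if_pos (by linarith)] | erw [if_neg (by linarith)]); (try push_cast); (try ring1))
  rcases eq_or_lt_of_le h2 with h | h2
  · subst h
    ((try push_cast); (repeat first | rw [if_pos (by linarith)] | rw [if_neg (by linarith)] | erw [if_pos (by linarith)] | erw [if_neg (by linarith)]); (try push_cast); (try ring1))
  · ((try push_cast); (repeat first | rw [if_pos (by linarith)] | rw [if_neg (by linarith)] | erw [if_pos (by linarith)] | erw [if_neg (by linarith)]); (try push_cast); (try ring1))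
theorem kcl4 {p x : ℝ} (h1 : -3 / 10 ≤ p) (h2 : p ≤ -1 / 4) : kcg.v p x = (362156263 / 200000000 + (x - 1047 / 2000) * (1851611 / 20000000)) + (287953059 / 20000000 + (x - 1047 / 2000) * (9481309 / 2000000)) * p + (25921021 / 1000000 + (x - 1047 / 2000) * (189627 / 20000)) * p ^ 2 := by
  simp only [kcg, kcg_3, kcg_6, kcg_9, kcg_12, kcg_13, kcg_16, kcg_28, kcg_36, kcg_41, kcg_53, kcg_61, kcg_62, kcg_67, kcg_78, kcg_85, kcg_86, kcg_91, kcg_102, kcg_107, kcg_111, kcg_124, kcg_134, kcg_137, kcg_138, kcg_141, kcg_153, kcg_158, kcg_161, kcg_171, kcg_179, kcg_180, kcg_185, kcg_195, kcg_203, kcg_207, kcg_216, kcg_221, kcg_228, kcg_229, kcg_230, kcg_250, kcg_260, kcg_281, kcg_282, kcg_303]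
  rcases eq_or_lt_of_le h1 with h | h1
  · subst h
    ((try push_cast); (repeat first | rw [if_pos (by linarith)] | rw [if_neg (by linarith)] | erw [if_pos (by linarith)] | erw [if_neg (by linarith)]); (try push_cast); (try ring1))
  rcases eq_or_lt_of_le h2 with h | h2
  · subst h
    ((try push_cast); (repeat first | rw [if_pos (by linarith)] | rw [if_neg (by linarith)] | erw [if_pos (by linarith)] | erw [if_neg (by linarith)]); (try push_cast); (try ring1))
  · ((try push_cast); (repeat first | rw [if_pos (by linarith)] | rw [if_neg (by linarith)] | erw [if_pos (by linarith)] | erw [if_neg (by linarith)]); (try push_cast); (try ring1))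
theorem kcl5 {p x : ℝ} (h1 : -1 / 4 ≤ p) (h2 : p ≤ -1 / 5) : kcg.v p x = (35121509 / 100000000 + (x - 1047 / 2000) * (-2496721 / 5000000)) + (54422461 / 20000000 + (x - 1047 / 2000) * (10511 / 2000000)) * p + (2567961 / 1000000 + (x - 1047 / 2000) * (211 / 20000)) * p ^ 2 := by
  simp only [kcg, kcg_3, kcg_6, kcg_9, kcg_12, kcg_13, kcg_16, kcg_28, kcg_36, kcg_41, kcg_53, kcg_61, kcg_62, kcg_67, kcg_78, kcg_85, kcg_86, kcg_91, kcg_102, kcg_107, kcg_111, kcg_124, kcg_134, kcg_137, kcg_138, kcg_141, kcg_153, kcg_158, kcg_161, kcg_171, kcg_179, kcg_180, kcg_185, kcg_195, kcg_203, kcg_207, kcg_216, kcg_221, kcg_228, kcg_229, kcg_230, kcg_250, kcg_260, kcg_281, kcg_282, kcg_303]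
  rcases eq_or_lt_of_le h1 with h | h1
  · subst h
    ((try push_cast); (repeat first | rw [if_pos (by linarith)] | rw [if_neg (by linarith)] | erw [if_pos (by linarith)] | erw [if_neg (by linarith)]); (try push_cast); (try ring1))
  rcases eq_or_lt_of_le h2 with h | h2
  · subst h
    ((try push_cast); (repeat first | rw [if_pos (by linarith)] | rw [if_neg (by linarith)] | erw [if_pos (by linarith)] | erw [if_neg (by linarith)]); (try push_cast); (try ring1))
  · ((try push_cast); (repeat first | rw [if_pos (by linarith)] | rw [if_neg (by linarith)] | erw [if_pos (by linarith)] | erw [if_neg (by linarith)]); (try push_cast); (try ring1))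
theorem kcl6 {p x : ℝ} (h1 : -1 / 5 ≤ p) (h2 : p ≤ -3 / 20) : kcg.v p x = (-34218749 / 100000000 + (x - 1047 / 2000) * (-2502981 / 5000000)) + (-84258053 / 20000000 + (x - 1047 / 2000) * (-14529 / 2000000)) * p + (-14767103 / 1000000 + (x - 1047 / 2000) * (-83 / 4000)) * p ^ 2 := by
  simp only [kcg, kcg_3, kcg_6, kcg_9, kcg_12, kcg_13, kcg_16, kcg_28, kcg_36, kcg_41, kcg_53, kcg_61, kcg_62, kcg_67, kcg_78, kcg_85, kcg_86, kcg_91, kcg_102, kcg_107, kcg_111, kcg_124, kcg_134, kcg_137, kcg_138, kcg_141, kcg_153, kcg_158, kcg_161, kcg_171, kcg_179, kcg_180, kcg_185, kcg_195, kcg_203, kcg_207, kcg_216, kcg_221, kcg_228, kcg_229, kcg_230, kcg_250, kcg_260, kcg_281, kcg_282, kcg_303]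
  rcases eq_or_lt_of_le h1 with h | h1
  · subst h
    ((try push_cast); (repeat first | rw [if_pos (by linarith)] | rw [if_neg (by linarith)] | erw [if_pos (by linarith)] | erw [if_neg (by linarith)]); (try push_cast); (try ring1))
  rcases eq_or_lt_of_le h2 with h | h2
  · subst h
    ((try push_cast); (repeat first | rw [if_pos (by linarith)] | rw [if_neg (by linarith)] | erw [if_pos (by linarith)] | erw [if_neg (by linarith)]); (try push_cast); (try ring1))
  · ((try push_cast); (repeat first | rw [if_pos (by linarith)] | rw [if_neg (by linarith)] | erw [if_pos (by linarith)] | erw [if_neg (by linarith)]); (try push_cast); (try ring1))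
theorem kcl7 {p x : ℝ} (h1 : -3 / 20 ≤ p) (h2 : p ≤ -1 / 10) : kcg.v p x = (-40603 / 312500 + (x - 1047 / 2000) * (2187627 / 1250000)) + (-13827973 / 10000000 + (x - 1047 / 2000) * (30002039 / 1000000)) * p + (-2666709 / 500000 + (x - 1047 / 2000) * (5000513 / 50000)) * p ^ 2 := by
  simp only [kcg, kcg_3, kcg_6, kcg_9, kcg_12, kcg_13, kcg_16, kcg_28, kcg_36, kcg_41, kcg_53, kcg_61, kcg_62, kcg_67, kcg_78, kcg_85, kcg_86, kcg_91, kcg_102, kcg_107, kcg_111, kcg_124, kcg_134, kcg_137, kcg_138, kcg_141, kcg_153, kcg_158, kcg_161, kcg_171, kcg_179, kcg_180, kcg_185, kcg_195, kcg_203, kcg_207, kcg_216, kcg_221, kcg_228, kcg_229, kcg_230, kcg_250, kcg_260, kcg_281, kcg_282, kcg_303]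
  rcases eq_or_lt_of_le h1 with h | h1
  · subst h
    ((try push_cast); (repeat first | rw [if_pos (by linarith)] | rw [if_neg (by linarith)] | erw [if_pos (by linarith)] | erw [if_neg (by linarith)]); (try push_cast); (try ring1))
  rcases eq_or_lt_of_le h2 with h | h2
  · subst h
    ((try push_cast); (repeat first | rw [if_pos (by linarith)] | rw [if_neg (by linarith)] | erw [if_pos (by linarith)] | erw [if_neg (by linarith)]); (try push_cast); (try ring1))
  · ((try push_cast); (repeat first | rw [if_pos (by linarith)] | rw [if_neg (by linarith)] | erw [if_pos (by linarith)] | erw [if_neg (by linarith)]); (try push_cast); (try ring1))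
theorem kcl8 {p x : ℝ} (h1 : -1 / 10 ≤ p) (h2 : p ≤ -1 / 20) : kcg.v p x = (5106359 / 200000000 + (x - 1047 / 2000) * (-4999993 / 20000000)) + (34528611 / 20000000 + (x - 1047 / 2000) * (-19999973 / 2000000)) * p + (10212721 / 1000000 + (x - 1047 / 2000) * (-9999987 / 100000)) * p ^ 2 := by
  simp only [kcg, kcg_3, kcg_6, kcg_9, kcg_12, kcg_13, kcg_16, kcg_28, kcg_36, kcg_41, kcg_53, kcg_61, kcg_62, kcg_67, kcg_78, kcg_85, kcg_86, kcg_91, kcg_102, kcg_107, kcg_111, kcg_124, kcg_134, kcg_137, kcg_138, kcg_141, kcg_153, kcg_158, kcg_161, kcg_171, kcg_179, kcg_180, kcg_185, kcg_195, kcg_203, kcg_207, kcg_216, kcg_221, kcg_228, kcg_229, kcg_230, kcg_250, kcg_260, kcg_281, kcg_282, kcg_303]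
  rcases eq_or_lt_of_le h1 with h | h1
  · subst h
    ((try push_cast); (repeat first | rw [if_pos (by linarith)] | rw [if_neg (by linarith)] | erw [if_pos (by linarith)] | erw [if_neg (by linarith)]); (try push_cast); (try ring1))
  rcases eq_or_lt_of_le h2 with h | h2
  · subst h
    ((try push_cast); (repeat first | rw [if_pos (by linarith)] | rw [if_neg (by linarith)] | erw [if_pos (by linarith)] | erw [if_neg (by linarith)]); (try push_cast); (try ring1))
  · ((try push_cast); (repeat first | rw [if_pos (by linarith)] | rw [if_neg (by linarith)] | erw [if_pos (by linarith)] | erw [if_neg (by linarith)]); (try push_cast); (try ring1))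
theorem kcl9 {p x : ℝ} (h1 : -1 / 20 ≤ p) (h2 : p ≤ 1 / 20) : kcg.v p x = (0) + (3525793 / 5000000) * p := by
  simp only [kcg, kcg_3, kcg_6, kcg_9, kcg_12, kcg_13, kcg_16, kcg_28, kcg_36, kcg_41, kcg_53, kcg_61, kcg_62, kcg_67, kcg_78, kcg_85, kcg_86, kcg_91, kcg_102, kcg_107, kcg_111, kcg_124, kcg_134, kcg_137, kcg_138, kcg_141, kcg_153, kcg_158, kcg_161, kcg_171, kcg_179, kcg_180, kcg_185, kcg_195, kcg_203, kcg_207, kcg_216, kcg_221, kcg_228, kcg_229, kcg_230, kcg_250, kcg_260, kcg_281, kcg_282, kcg_303]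
  rcases eq_or_lt_of_le h1 with h | h1
  · subst h
    ((try push_cast); (repeat first | rw [if_pos (by linarith)] | rw [if_neg (by linarith)] | erw [if_pos (by linarith)] | erw [if_neg (by linarith)]); (try push_cast); (try ring1))
  rcases eq_or_lt_of_le h2 with h | h2
  · subst h
    ((try push_cast); (repeat first | rw [if_pos (by linarith)] | rw [if_neg (by linarith)] | erw [if_pos (by linarith)] | erw [if_neg (by linarith)]); (try push_cast); (try ring1))
  rcases lt_trichotomy p 0 with h | h | h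
  · ((try push_cast); (repeat first | rw [if_pos (by linarith)] | rw [if_neg (by linarith)] | erw [if_pos (by linarith)] | erw [if_neg (by linarith)]); (try push_cast); (try ring1))
  · subst h
    ((try push_cast); (repeat first | rw [if_pos (by linarith)] | rw [if_neg (by linarith)] | erw [if_pos (by linarith)] | erw [if_neg (by linarith)]); (try push_cast); (try ring1))
  · ((try push_cast); (repeat first | rw [if_pos (by linarith)] | rw [if_neg (by linarith)] | erw [if_pos (by linarith)] | erw [if_neg (by linarith)]); (try push_cast); (try ring1))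
theorem kcl10 {p x : ℝ} (h1 : 1 / 20 ≤ p) (h2 : p ≤ 1 / 10) : kcg.v p x = (-5106359 / 200000000 + (x - 1047 / 2000) * (4999993 / 20000000)) + (34528611 / 20000000 + (x - 1047 / 2000) * (-19999973 / 2000000)) * p + (-10212721 / 1000000 + (x - 1047 / 2000) * (9999987 / 100000)) * p ^ 2 := by
  simp only [kcg, kcg_3, kcg_6, kcg_9, kcg_12, kcg_13, kcg_16, kcg_28, kcg_36, kcg_41, kcg_53, kcg_61, kcg_62, kcg_67, kcg_78, kcg_85, kcg_86, kcg_91, kcg_102, kcg_107, kcg_111, kcg_124, kcg_134, kcg_137, kcg_138, kcg_141, kcg_153, kcg_158, kcg_161, kcg_171, kcg_179, kcg_180, kcg_185, kcg_195, kcg_203, kcg_207, kcg_216, kcg_221, kcg_228, kcg_229, kcg_230, kcg_250, kcg_260, kcg_281, kcg_282, kcg_303]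
  rcases eq_or_lt_of_le h1 with h | h1
  · subst h
    ((try push_cast); (repeat first | rw [if_pos (by linarith)] | rw [if_neg (by linarith)] | erw [if_pos (by linarith)] | erw [if_neg (by linarith)]); (try push_cast); (try ring1))
  rcases eq_or_lt_of_le h2 with h | h2
  · subst h
    ((try push_cast); (repeat first | rw [if_pos (by linarith)] | rw [if_neg (by linarith)] | erw [if_pos (by linarith)] | erw [if_neg (by linarith)]); (try push_cast); (try ring1))
  · ((try push_cast); (repeat first | rw [if_pos (by linarith)] | rw [if_neg (by linarith)] | erw [if_pos (by linarith)] | erw [if_neg (by linarith)]); (try push_cast); (try ring1))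
theorem kcl11 {p x : ℝ} (h1 : 1 / 10 ≤ p) (h2 : p ≤ 3 / 20) : kcg.v p x = (40603 / 312500 + (x - 1047 / 2000) * (-2187627 / 1250000)) + (-13827973 / 10000000 + (x - 1047 / 2000) * (30002039 / 1000000)) * p + (2666709 / 500000 + (x - 1047 / 2000) * (-5000513 / 50000)) * p ^ 2 := by
  simp only [kcg, kcg_3, kcg_6, kcg_9, kcg_12, kcg_13, kcg_16, kcg_28, kcg_36, kcg_41, kcg_53, kcg_61, kcg_62, kcg_67, kcg_78, kcg_85, kcg_86, kcg_91, kcg_102, kcg_107, kcg_111, kcg_124, kcg_134, kcg_137, kcg_138, kcg_141, kcg_153, kcg_158, kcg_161, kcg_171, kcg_179, kcg_180, kcg_185, kcg_195, kcg_203, kcg_207, kcg_216, kcg_221, kcg_228, kcg_229, kcg_230, kcg_250, kcg_260, kcg_281, kcg_282, kcg_303]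
  rcases eq_or_lt_of_le h1 with h | h1
  · subst h
    ((try push_cast); (repeat first | rw [if_pos (by linarith)] | rw [if_neg (by linarith)] | erw [if_pos (by linarith)] | erw [if_neg (by linarith)]); (try push_cast); (try ring1))
  rcases eq_or_lt_of_le h2 with h | h2
  · subst h
    ((try push_cast); (repeat first | rw [if_pos (by linarith)] | rw [if_neg (by linarith)] | erw [if_pos (by linarith)] | erw [if_neg (by linarith)]); (try push_cast); (try ring1))
  · ((try push_cast); (repeat first | rw [if_pos (by linarith)] | rw [if_neg (by linarith)] | erw [if_pos (by linarith)] | erw [if_neg (by linarith)]); (try push_cast); (try ring1))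
theorem kcl12 {p x : ℝ} (h1 : 3 / 20 ≤ p) (h2 : p ≤ 1 / 5) : kcg.v p x = (34218749 / 100000000 + (x - 1047 / 2000) * (2502981 / 5000000)) + (-84258053 / 20000000 + (x - 1047 / 2000) * (-14529 / 2000000)) * p + (14767103 / 1000000 + (x - 1047 / 2000) * (83 / 4000)) * p ^ 2 := by
  simp only [kcg, kcg_3, kcg_6, kcg_9, kcg_12, kcg_13, kcg_16, kcg_28, kcg_36, kcg_41, kcg_53, kcg_61, kcg_62, kcg_67, kcg_78, kcg_85, kcg_86, kcg_91, kcg_102, kcg_107, kcg_111, kcg_124, kcg_134, kcg_137, kcg_138, kcg_141, kcg_153, kcg_158, kcg_161, kcg_171, kcg_179, kcg_180, kcg_185, kcg_195, kcg_203, kcg_207, kcg_216, kcg_221, kcg_228, kcg_229, kcg_230, kcg_250, kcg_260, kcg_281, kcg_282, kcg_303]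
  rcases eq_or_lt_of_le h1 with h | h1
  · subst h
    ((try push_cast); (repeat first | rw [if_pos (by linarith)] | rw [if_neg (by linarith)] | erw [if_pos (by linarith)] | erw [if_neg (by linarith)]); (try push_cast); (try ring1))
  rcases eq_or_lt_of_le h2 with h | h2
  · subst h
    ((try push_cast); (repeat first | rw [if_pos (by linarith)] | rw [if_neg (by linarith)] | erw [if_pos (by linarith)] | erw [if_neg (by linarith)]); (try push_cast); (try ring1))
  · ((try push_cast); (repeat first | rw [if_pos (by linarith)] | rw [if_neg (by linarith)] | erw [if_pos (by linarith)] | erw [if_neg (by linarith)]); (try push_cast); (try ring1))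
theorem kcl13 {p x : ℝ} (h1 : 1 / 5 ≤ p) (h2 : p ≤ 1 / 4) : kcg.v p x = (-35121509 / 100000000 + (x - 1047 / 2000) * (2496721 / 5000000)) + (54422461 / 20000000 + (x - 1047 / 2000) * (10511 / 2000000)) * p + (-2567961 / 1000000 + (x - 1047 / 2000) * (-211 / 20000)) * p ^ 2 := by
  simp only [kcg, kcg_3, kcg_6, kcg_9, kcg_12, kcg_13, kcg_16, kcg_28, kcg_36, kcg_41, kcg_53, kcg_61, kcg_62, kcg_67, kcg_78, kcg_85, kcg_86, kcg_91, kcg_102, kcg_107, kcg_111, kcg_124, kcg_134, kcg_137, kcg_138, kcg_141, kcg_153, kcg_158, kcg_161, kcg_171, kcg_179, kcg_180, kcg_185, kcg_195, kcg_203, kcg_207, kcg_216, kcg_221, kcg_228, kcg_229, kcg_230, kcg_250, kcg_260, kcg_281, kcg_282, kcg_303]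
  rcases eq_or_lt_of_le h1 with h | h1
  · subst h
    ((try push_cast); (repeat first | rw [if_pos (by linarith)] | rw [if_neg (by linarith)] | erw [if_pos (by linarith)] | erw [if_neg (by linarith)]); (try push_cast); (try ring1))
  rcases eq_or_lt_of_le h2 with h | h2
  · subst h
    ((try push_cast); (repeat first | rw [if_pos (by linarith)] | rw [if_neg (by linarith)] | erw [if_pos (by linarith)] | erw [if_neg (by linarith)]); (try push_cast); (try ring1))
  · ((try push_cast); (repeat first | rw [if_pos (by linarith)] | rw [if_neg (by linarith)] | erw [if_pos (by linarith)] | erw [if_neg (by linarith)]); (try push_cast); (try ring1))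
theorem kcl14 {p x : ℝ} (h1 : 1 / 4 ≤ p) (h2 : p ≤ 3 / 10) : kcg.v p x = (-362156263 / 200000000 + (x - 1047 / 2000) * (-1851611 / 20000000)) + (287953059 / 20000000 + (x - 1047 / 2000) * (9481309 / 2000000)) * p + (-25921021 / 1000000 + (x - 1047 / 2000) * (-189627 / 20000)) * p ^ 2 := by
  simp only [kcg, kcg_3, kcg_6, kcg_9, kcg_12, kcg_13, kcg_16, kcg_28, kcg_36, kcg_41, kcg_53, kcg_61, kcg_62, kcg_67, kcg_78, kcg_85, kcg_86, kcg_91, kcg_102, kcg_107, kcg_111, kcg_124, kcg_134, kcg_137, kcg_138, kcg_141, kcg_153, kcg_158, kcg_161, kcg_171, kcg_179, kcg_180, kcg_185, kcg_195, kcg_203, kcg_207, kcg_216, kcg_221, kcg_228, kcg_229, kcg_230, kcg_250, kcg_260, kcg_281, kcg_282, kcg_303]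
  rcases eq_or_lt_of_le h1 with h | h1
  · subst h
    ((try push_cast); (repeat first | rw [if_pos (by linarith)] | rw [if_neg (by linarith)] | erw [if_pos (by linarith)] | erw [if_neg (by linarith)]); (try push_cast); (try ring1))
  rcases eq_or_lt_of_le h2 with h | h2
  · subst h
    ((try push_cast); (repeat first | rw [if_pos (by linarith)] | rw [if_neg (by linarith)] | erw [if_pos (by linarith)] | erw [if_neg (by linarith)]); (try push_cast); (try ring1))
  · ((try push_cast); (repeat first | rw [if_pos (by linarith)] | rw [if_neg (by linarith)] | erw [if_pos (by linarith)] | erw [if_neg (by linarith)]); (try push_cast); (try ring1))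
theorem kcl15 {p x : ℝ} (h1 : 3 / 10 ≤ p) (h2 : p ≤ 7 / 20) : kcg.v p x = (-83093053 / 50000000 + (x - 1047 / 2000) * (9869459 / 4000000)) + (67024257 / 5000000 + (x - 1047 / 2000) * (-24651297 / 2000000)) * p + (-1516647 / 62500 + (x - 1047 / 2000) * (1896249 / 100000)) * p ^ 2 := by
  simp only [kcg, kcg_3, kcg_6, kcg_9, kcg_12, kcg_13, kcg_16, kcg_28, kcg_36, kcg_41, kcg_53, kcg_61, kcg_62, kcg_67, kcg_78, kcg_85, kcg_86, kcg_91, kcg_102, kcg_107, kcg_111, kcg_124, kcg_134, kcg_137, kcg_138, kcg_141, kcg_153, kcg_158, kcg_161, kcg_171, kcg_179, kcg_180, kcg_185, kcg_195, kcg_203, kcg_207, kcg_216, kcg_221, kcg_228, kcg_229, kcg_230, kcg_250, kcg_260, kcg_281, kcg_282, kcg_303]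
  rcases eq_or_lt_of_le h1 with h | h1
  · subst h
    ((try push_cast); (repeat first | rw [if_pos (by linarith)] | rw [if_neg (by linarith)] | erw [if_pos (by linarith)] | erw [if_neg (by linarith)]); (try push_cast); (try ring1))
  rcases eq_or_lt_of_le h2 with h | h2
  · subst h
    ((try push_cast); (repeat first | rw [if_pos (by linarith)] | rw [if_neg (by linarith)] | erw [if_pos (by linarith)] | erw [if_neg (by linarith)]); (try push_cast); (try ring1))
  · ((try push_cast); (repeat first | rw [if_pos (by linarith)] | rw [if_neg (by linarith)] | erw [if_pos (by linarith)] | erw [if_neg (by linarith)]); (try push_cast); (try ring1))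
theorem kcl16 {p x : ℝ} (h1 : 7 / 20 ≤ p) (h2 : p ≤ 2 / 5) : kcg.v p x = (467877 / 156250 + (x - 1047 / 2000) * (-10169059 / 10000000)) + (-264048557 / 20000000 + (x - 1047 / 2000) * (7584471 / 1000000)) * p + (13744047 / 1000000 + (x - 1047 / 2000) * (-474027 / 50000)) * p ^ 2 := by
  simp only [kcg, kcg_3, kcg_6, kcg_9, kcg_12, kcg_13, kcg_16, kcg_28, kcg_36, kcg_41, kcg_53, kcg_61, kcg_62, kcg_67, kcg_78, kcg_85, kcg_86, kcg_91, kcg_102, kcg_107, kcg_111, kcg_124, kcg_134, kcg_137, kcg_138, kcg_141, kcg_153, kcg_158, kcg_161, kcg_171, kcg_179, kcg_180, kcg_185, kcg_195, kcg_203, kcg_207, kcg_216, kcg_221, kcg_228, kcg_229, kcg_230, kcg_250, kcg_260, kcg_281, kcg_282, kcg_303]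
  rcases eq_or_lt_of_le h1 with h | h1
  · subst h
    ((try push_cast); (repeat first | rw [if_pos (by linarith)] | rw [if_neg (by linarith)] | erw [if_pos (by linarith)] | erw [if_neg (by linarith)]); (try push_cast); (try ring1))
  rcases eq_or_lt_of_le h2 with h | h2
  · subst h
    ((try push_cast); (repeat first | rw [if_pos (by linarith)] | rw [if_neg (by linarith)] | erw [if_pos (by linarith)] | erw [if_neg (by linarith)]); (try push_cast); (try ring1))
  · ((try push_cast); (repeat first | rw [if_pos (by linarith)] | rw [if_neg (by linarith)] | erw [if_pos (by linarith)] | erw [if_neg (by linarith)]); (try push_cast); (try ring1))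
theorem kcl17 {p x : ℝ} (h1 : 2 / 5 ≤ p) (h2 : p ≤ 9 / 20) : kcg.v p x = (109283153 / 25000000 + (x - 1047 / 2000) * (4986991 / 10000000)) + (-401739887 / 20000000 + (x - 1047 / 2000) * (12893 / 2000000)) * p + (4469951 / 200000 + (x - 1047 / 2000) * (-801 / 100000)) * p ^ 2 := by
  simp only [kcg, kcg_3, kcg_6, kcg_9, kcg_12, kcg_13, kcg_16, kcg_28, kcg_36, kcg_41, kcg_53, kcg_61, kcg_62, kcg_67, kcg_78, kcg_85, kcg_86, kcg_91, kcg_102, kcg_107, kcg_111, kcg_124, kcg_134, kcg_137, kcg_138, kcg_141, kcg_153, kcg_158, kcg_161, kcg_171, kcg_179, kcg_180, kcg_185, kcg_195, kcg_203, kcg_207, kcg_216, kcg_221, kcg_228, kcg_229, kcg_230, kcg_250, kcg_260, kcg_281, kcg_282, kcg_303]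
  rcases eq_or_lt_of_le h1 with h | h1
  · subst h
    ((try push_cast); (repeat first | rw [if_pos (by linarith)] | rw [if_neg (by linarith)] | erw [if_pos (by linarith)] | erw [if_neg (by linarith)]); (try push_cast); (try ring1))
  rcases eq_or_lt_of_le h2 with h | h2
  · subst h
    ((try push_cast); (repeat first | rw [if_pos (by linarith)] | rw [if_neg (by linarith)] | erw [if_pos (by linarith)] | erw [if_neg (by linarith)]); (try push_cast); (try ring1))
  · ((try push_cast); (repeat first | rw [if_pos (by linarith)] | rw [if_neg (by linarith)] | erw [if_pos (by linarith)] | erw [if_neg (by linarith)]); (try push_cast); (try ring1))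
theorem kcl18 {p x : ℝ} (h1 : 9 / 20 ≤ p) (h2 : p ≤ 1 / 2) : kcg.v p x = (1018997 / 625000 + (x - 1047 / 2000) * (-111356089 / 20000000)) + (-79050793 / 10000000 + (x - 1047 / 2000) * (53937367 / 2000000)) * p + (4407147 / 500000 + (x - 1047 / 2000) * (-599321 / 20000)) * p ^ 2 := by
  simp only [kcg, kcg_3, kcg_6, kcg_9, kcg_12, kcg_13, kcg_16, kcg_28, kcg_36, kcg_41, kcg_53, kcg_61, kcg_62, kcg_67, kcg_78, kcg_85, kcg_86, kcg_91, kcg_102, kcg_107, kcg_111, kcg_124, kcg_134, kcg_137, kcg_138, kcg_141, kcg_153, kcg_158, kcg_161, kcg_171, kcg_179, kcg_180, kcg_185, kcg_195, kcg_203, kcg_207, kcg_216, kcg_221, kcg_228, kcg_229, kcg_230, kcg_250, kcg_260, kcg_281, kcg_282, kcg_303]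
  rcases eq_or_lt_of_le h1 with h | h1
  · subst h
    ((try push_cast); (repeat first | rw [if_pos (by linarith)] | rw [if_neg (by linarith)] | erw [if_pos (by linarith)] | erw [if_neg (by linarith)]); (try push_cast); (try ring1))
  rcases eq_or_lt_of_le h2 with h | h2
  · subst h
    ((try push_cast); (repeat first | rw [if_pos (by linarith)] | rw [if_neg (by linarith)] | erw [if_pos (by linarith)] | erw [if_neg (by linarith)]); (try push_cast); (try ring1))
  · ((try push_cast); (repeat first | rw [if_pos (by linarith)] | rw [if_neg (by linarith)] | erw [if_pos (by linarith)] | erw [if_neg (by linarith)]); (try push_cast); (try ring1))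
theorem kvh0 {p x : ℝ} (h2 : p ≤ -9 / 20) : dt37.kv p x = (-1018997 / 625000 + (x - 1047 / 2000) * (111356089 / 20000000)) + (-79050793 / 10000000 + (x - 1047 / 2000) * (53937367 / 2000000)) * p + (-4407147 / 500000 + (x - 1047 / 2000) * (599321 / 20000)) * p ^ 2 := by
  refine (DT.kv_le (by simp only [Cn.rt_v, Cn.ng_v]; push_cast; linarith)).trans ?_
  refine (DT.kv_le (by simp only [Cn.rt_v, Cn.ng_v]; push_cast; linarith)).trans ?_
  refine (DT.kv_le (by simp only [Cn.rt_v, Cn.ng_v]; push_cast; linarith)).trans ?_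
  refine (DT.kv_le (by simp only [Cn.rt_v, Cn.ng_v]; push_cast; linarith)).trans ?_
  simp only [dt1, DT.kv, sw1, sl1, sv1]
  ((try push_cast); ring1)
theorem kvh1 {p x : ℝ} (h1 : -9 / 20 < p) (h2 : p ≤ -2 / 5) : dt37.kv p x = (-109283153 / 25000000 + (x - 1047 / 2000) * (-4986991 / 10000000)) + (-401739887 / 20000000 + (x - 1047 / 2000) * (12893 / 2000000)) * p + (-4469951 / 200000 + (x - 1047 / 2000) * (801 / 100000)) * p ^ 2 := by
  refine (DT.kv_le (by simp only [Cn.rt_v, Cn.ng_v]; push_cast; linarith)).trans ?_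
  refine (DT.kv_le (by simp only [Cn.rt_v, Cn.ng_v]; push_cast; linarith)).trans ?_
  refine (DT.kv_le (by simp only [Cn.rt_v, Cn.ng_v]; push_cast; linarith)).trans ?_
  refine (DT.kv_gt (by simp only [Cn.rt_v, Cn.ng_v]; push_cast; linarith)).trans ?_
  simp only [dt2, DT.kv, sw2, sl2, sv2]
  ((try push_cast); ring1)
theorem kvh2 {p x : ℝ} (h1 : -2 / 5 < p) (h2 : p ≤ -7 / 20) : dt37.kv p x = (-467877 / 156250 + (x - 1047 / 2000) * (10169059 / 10000000)) + (-264048557 / 20000000 + (x - 1047 / 2000) * (7584471 / 1000000)) * p + (-13744047 / 1000000 + (x - 1047 / 2000) * (474027 / 50000)) * p ^ 2 := by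
  refine (DT.kv_le (by simp only [Cn.rt_v, Cn.ng_v]; push_cast; linarith)).trans ?_
  refine (DT.kv_le (by simp only [Cn.rt_v, Cn.ng_v]; push_cast; linarith)).trans ?_
  refine (DT.kv_gt (by simp only [Cn.rt_v, Cn.ng_v]; push_cast; linarith)).trans ?_
  refine (DT.kv_le (by simp only [Cn.rt_v, Cn.ng_v]; push_cast; linarith)).trans ?_
  simp only [dt3, DT.kv, sw3, sl3, sv3]
  ((try push_cast); ring1)
theorem kvh3 {p x : ℝ} (h1 : -7 / 20 < p) (h2 : p ≤ -3 / 10) : dt37.kv p x = (83093053 / 50000000 + (x - 1047 / 2000) * (-9869459 / 4000000)) + (67024257 / 5000000 + (x - 1047 / 2000) * (-24651297 / 2000000)) * p + (1516647 / 62500 + (x - 1047 / 2000) * (-1896249 / 100000)) * p ^ 2 := by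
  refine (DT.kv_le (by simp only [Cn.rt_v, Cn.ng_v]; push_cast; linarith)).trans ?_
  refine (DT.kv_le (by simp only [Cn.rt_v, Cn.ng_v]; push_cast; linarith)).trans ?_
  refine (DT.kv_gt (by simp only [Cn.rt_v, Cn.ng_v]; push_cast; linarith)).trans ?_
  refine (DT.kv_gt (by simp only [Cn.rt_v, Cn.ng_v]; push_cast; linarith)).trans ?_
  simp only [dt4, DT.kv, sw4, sl4, sv4]
  ((try push_cast); ring1)
theorem kvh4 {p x : ℝ} (h1 : -3 / 10 < p) (h2 : p ≤ -1 / 4) : dt37.kv p x = (362156263 / 200000000 + (x - 1047 / 2000) * (1851611 / 20000000)) + (287953059 / 20000000 + (x - 1047 / 2000) * (9481309 / 2000000)) * p + (25921021 / 1000000 + (x - 1047 / 2000) * (189627 / 20000)) * p ^ 2 := by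
  refine (DT.kv_le (by simp only [Cn.rt_v, Cn.ng_v]; push_cast; linarith)).trans ?_
  refine (DT.kv_gt (by simp only [Cn.rt_v, Cn.ng_v]; push_cast; linarith)).trans ?_
  refine (DT.kv_le (by simp only [Cn.rt_v, Cn.ng_v]; push_cast; linarith)).trans ?_
  refine (DT.kv_le (by simp only [Cn.rt_v, Cn.ng_v]; push_cast; linarith)).trans ?_
  simp only [dt5, DT.kv, sw5, sl5, sv5]
  ((try push_cast); ring1)
theorem kvh5 {p x : ℝ} (h1 : -1 / 4 < p) (h2 : p ≤ -1 / 5) : dt37.kv p x = (35121509 / 100000000 + (x - 1047 / 2000) * (-2496721 / 5000000)) + (54422461 / 20000000 + (x - 1047 / 2000) * (10511 / 2000000)) * p + (2567961 / 1000000 + (x - 1047 / 2000) * (211 / 20000)) * p ^ 2 := by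
  refine (DT.kv_le (by simp only [Cn.rt_v, Cn.ng_v]; push_cast; linarith)).trans ?_
  refine (DT.kv_gt (by simp only [Cn.rt_v, Cn.ng_v]; push_cast; linarith)).trans ?_
  refine (DT.kv_le (by simp only [Cn.rt_v, Cn.ng_v]; push_cast; linarith)).trans ?_
  refine (DT.kv_gt (by simp only [Cn.rt_v, Cn.ng_v]; push_cast; linarith)).trans ?_
  simp only [dt6, DT.kv, sw6, sl6, sv6]
  ((try push_cast); ring1)
theorem kvh6 {p x : ℝ} (h1 : -1 / 5 < p) (h2 : p ≤ -3 / 20) : dt37.kv p x = (-34218749 / 100000000 + (x - 1047 / 2000) * (-2502981 / 5000000)) + (-84258053 / 20000000 + (x - 1047 / 2000) * (-14529 / 2000000)) * p + (-14767103 / 1000000 + (x - 1047 / 2000) * (-83 / 4000)) * p ^ 2 := by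
  refine (DT.kv_le (by simp only [Cn.rt_v, Cn.ng_v]; push_cast; linarith)).trans ?_
  refine (DT.kv_gt (by simp only [Cn.rt_v, Cn.ng_v]; push_cast; linarith)).trans ?_
  refine (DT.kv_gt (by simp only [Cn.rt_v, Cn.ng_v]; push_cast; linarith)).trans ?_
  refine (DT.kv_le (by simp only [Cn.rt_v, Cn.ng_v]; push_cast; linarith)).trans ?_
  simp only [dt7, DT.kv, sw7, sl7, sv7]
  ((try push_cast); ring1)
theorem kvh7 {p x : ℝ} (h1 : -3 / 20 < p) (h2 : p ≤ -1 / 10) : dt37.kv p x = (-40603 / 312500 + (x - 1047 / 2000) * (2187627 / 1250000)) + (-13827973 / 10000000 + (x - 1047 / 2000) * (30002039 / 1000000)) * p + (-2666709 / 500000 + (x - 1047 / 2000) * (5000513 / 50000)) * p ^ 2 := by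
  refine (DT.kv_le (by simp only [Cn.rt_v, Cn.ng_v]; push_cast; linarith)).trans ?_
  refine (DT.kv_gt (by simp only [Cn.rt_v, Cn.ng_v]; push_cast; linarith)).trans ?_
  refine (DT.kv_gt (by simp only [Cn.rt_v, Cn.ng_v]; push_cast; linarith)).trans ?_
  refine (DT.kv_gt (by simp only [Cn.rt_v, Cn.ng_v]; push_cast; linarith)).trans ?_
  refine (DT.kv_le (by simp only [Cn.rt_v, Cn.ng_v]; push_cast; linarith)).trans ?_
  simp only [dt8, DT.kv, sw8, sl8, sv8]
  ((try push_cast); ring1)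
theorem kvh8 {p x : ℝ} (h1 : -1 / 10 < p) (h2 : p ≤ -1 / 20) : dt37.kv p x = (5106359 / 200000000 + (x - 1047 / 2000) * (-4999993 / 20000000)) + (34528611 / 20000000 + (x - 1047 / 2000) * (-19999973 / 2000000)) * p + (10212721 / 1000000 + (x - 1047 / 2000) * (-9999987 / 100000)) * p ^ 2 := by
  refine (DT.kv_le (by simp only [Cn.rt_v, Cn.ng_v]; push_cast; linarith)).trans ?_
  refine (DT.kv_gt (by simp only [Cn.rt_v, Cn.ng_v]; push_cast; linarith)).trans ?_
  refine (DT.kv_gt (by simp only [Cn.rt_v, Cn.ng_v]; push_cast; linarith)).trans ?_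
  refine (DT.kv_gt (by simp only [Cn.rt_v, Cn.ng_v]; push_cast; linarith)).trans ?_
  refine (DT.kv_gt (by simp only [Cn.rt_v, Cn.ng_v]; push_cast; linarith)).trans ?_
  simp only [dt9, DT.kv, sw9, sl9, sv9]
  ((try push_cast); ring1)
theorem kvh9 {p x : ℝ} (h1 : -1 / 20 < p) (h2 : p ≤ 1 / 20) : dt37.kv p x = (0) + (3525793 / 5000000) * p := by
  refine (DT.kv_gt (by simp only [Cn.rt_v, Cn.ng_v]; push_cast; linarith)).trans ?_
  refine (DT.kv_le (by simp only [Cn.rt_v, Cn.ng_v]; push_cast; linarith)).trans ?_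
  refine (DT.kv_le (by simp only [Cn.rt_v, Cn.ng_v]; push_cast; linarith)).trans ?_
  refine (DT.kv_le (by simp only [Cn.rt_v, Cn.ng_v]; push_cast; linarith)).trans ?_
  simp only [dt10, DT.kv, sl10, sv10]
  ((try push_cast); ring1)
theorem kvh10 {p x : ℝ} (h1 : 1 / 20 < p) (h2 : p ≤ 1 / 10) : dt37.kv p x = (-5106359 / 200000000 + (x - 1047 / 2000) * (4999993 / 20000000)) + (34528611 / 20000000 + (x - 1047 / 2000) * (-19999973 / 2000000)) * p + (-10212721 / 1000000 + (x - 1047 / 2000) * (9999987 / 100000)) * p ^ 2 := by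
  refine (DT.kv_gt (by simp only [Cn.rt_v, Cn.ng_v]; push_cast; linarith)).trans ?_
  refine (DT.kv_le (by simp only [Cn.rt_v, Cn.ng_v]; push_cast; linarith)).trans ?_
  refine (DT.kv_le (by simp only [Cn.rt_v, Cn.ng_v]; push_cast; linarith)).trans ?_
  refine (DT.kv_gt (by simp only [Cn.rt_v, Cn.ng_v]; push_cast; linarith)).trans ?_
  simp only [dt11, DT.kv, sw11, sl11, sv11]
  ((try push_cast); ring1)
theorem kvh11 {p x : ℝ} (h1 : 1 / 10 < p) (h2 : p ≤ 3 / 20) : dt37.kv p x = (40603 / 312500 + (x - 1047 / 2000) * (-2187627 / 1250000)) + (-13827973 / 10000000 + (x - 1047 / 2000) * (30002039 / 1000000)) * p + (2666709 / 500000 + (x - 1047 / 2000) * (-5000513 / 50000)) * p ^ 2 := by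
  refine (DT.kv_gt (by simp only [Cn.rt_v, Cn.ng_v]; push_cast; linarith)).trans ?_
  refine (DT.kv_le (by simp only [Cn.rt_v, Cn.ng_v]; push_cast; linarith)).trans ?_
  refine (DT.kv_gt (by simp only [Cn.rt_v, Cn.ng_v]; push_cast; linarith)).trans ?_
  refine (DT.kv_le (by simp only [Cn.rt_v, Cn.ng_v]; push_cast; linarith)).trans ?_
  simp only [dt12, DT.kv, sw12, sl12, sv12]
  ((try push_cast); ring1)
theorem kvh12 {p x : ℝ} (h1 : 3 / 20 < p) (h2 : p ≤ 1 / 5) : dt37.kv p x = (34218749 / 100000000 + (x - 1047 / 2000) * (2502981 / 5000000)) + (-84258053 / 20000000 + (x - 1047 / 2000) * (-14529 / 2000000)) * p + (14767103 / 1000000 + (x - 1047 / 2000) * (83 / 4000)) * p ^ 2 := by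
  refine (DT.kv_gt (by simp only [Cn.rt_v, Cn.ng_v]; push_cast; linarith)).trans ?_
  refine (DT.kv_le (by simp only [Cn.rt_v, Cn.ng_v]; push_cast; linarith)).trans ?_
  refine (DT.kv_gt (by simp only [Cn.rt_v, Cn.ng_v]; push_cast; linarith)).trans ?_
  refine (DT.kv_gt (by simp only [Cn.rt_v, Cn.ng_v]; push_cast; linarith)).trans ?_
  refine (DT.kv_le (by simp only [Cn.rt_v, Cn.ng_v]; push_cast; linarith)).trans ?_
  simp only [dt13, DT.kv, sw13, sl13, sv13]
  ((try push_cast); ring1)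
theorem kvh13 {p x : ℝ} (h1 : 1 / 5 < p) (h2 : p ≤ 1 / 4) : dt37.kv p x = (-35121509 / 100000000 + (x - 1047 / 2000) * (2496721 / 5000000)) + (54422461 / 20000000 + (x - 1047 / 2000) * (10511 / 2000000)) * p + (-2567961 / 1000000 + (x - 1047 / 2000) * (-211 / 20000)) * p ^ 2 := by
  refine (DT.kv_gt (by simp only [Cn.rt_v, Cn.ng_v]; push_cast; linarith)).trans ?_
  refine (DT.kv_le (by simp only [Cn.rt_v, Cn.ng_v]; push_cast; linarith)).trans ?_
  refine (DT.kv_gt (by simp only [Cn.rt_v, Cn.ng_v]; push_cast; linarith)).trans ?_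
  refine (DT.kv_gt (by simp only [Cn.rt_v, Cn.ng_v]; push_cast; linarith)).trans ?_
  refine (DT.kv_gt (by simp only [Cn.rt_v, Cn.ng_v]; push_cast; linarith)).trans ?_
  simp only [dt14, DT.kv, sw14, sl14, sv14]
  ((try push_cast); ring1)
theorem kvh14 {p x : ℝ} (h1 : 1 / 4 < p) (h2 : p ≤ 3 / 10) : dt37.kv p x = (-362156263 / 200000000 + (x - 1047 / 2000) * (-1851611 / 20000000)) + (287953059 / 20000000 + (x - 1047 / 2000) * (9481309 / 2000000)) * p + (-25921021 / 1000000 + (x - 1047 / 2000) * (-189627 / 20000)) * p ^ 2 := by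
  refine (DT.kv_gt (by simp only [Cn.rt_v, Cn.ng_v]; push_cast; linarith)).trans ?_
  refine (DT.kv_gt (by simp only [Cn.rt_v, Cn.ng_v]; push_cast; linarith)).trans ?_
  refine (DT.kv_le (by simp only [Cn.rt_v, Cn.ng_v]; push_cast; linarith)).trans ?_
  refine (DT.kv_le (by simp only [Cn.rt_v, Cn.ng_v]; push_cast; linarith)).trans ?_
  simp only [dt15, DT.kv, sw15, sl15, sv15]
  ((try push_cast); ring1)
theorem kvh15 {p x : ℝ} (h1 : 3 / 10 < p) (h2 : p ≤ 7 / 20) : dt37.kv p x = (-83093053 / 50000000 + (x - 1047 / 2000) * (9869459 / 4000000)) + (67024257 / 5000000 + (x - 1047 / 2000) * (-24651297 / 2000000)) * p + (-1516647 / 62500 + (x - 1047 / 2000) * (1896249 / 100000)) * p ^ 2 := by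
  refine (DT.kv_gt (by simp only [Cn.rt_v, Cn.ng_v]; push_cast; linarith)).trans ?_
  refine (DT.kv_gt (by simp only [Cn.rt_v, Cn.ng_v]; push_cast; linarith)).trans ?_
  refine (DT.kv_le (by simp only [Cn.rt_v, Cn.ng_v]; push_cast; linarith)).trans ?_
  refine (DT.kv_gt (by simp only [Cn.rt_v, Cn.ng_v]; push_cast; linarith)).trans ?_
  simp only [dt16, DT.kv, sw16, sl16, sv16]
  ((try push_cast); ring1)
theorem kvh16 {p x : ℝ} (h1 : 7 / 20 < p) (h2 : p ≤ 2 / 5) : dt37.kv p x = (467877 / 156250 + (x - 1047 / 2000) * (-10169059 / 10000000)) + (-264048557 / 20000000 + (x - 1047 / 2000) * (7584471 / 1000000)) * p + (13744047 / 1000000 + (x - 1047 / 2000) * (-474027 / 50000)) * p ^ 2 := by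
  refine (DT.kv_gt (by simp only [Cn.rt_v, Cn.ng_v]; push_cast; linarith)).trans ?_
  refine (DT.kv_gt (by simp only [Cn.rt_v, Cn.ng_v]; push_cast; linarith)).trans ?_
  refine (DT.kv_gt (by simp only [Cn.rt_v, Cn.ng_v]; push_cast; linarith)).trans ?_
  refine (DT.kv_le (by simp only [Cn.rt_v, Cn.ng_v]; push_cast; linarith)).trans ?_
  simp only [dt17, DT.kv, sw17, sl17, sv17]
  ((try push_cast); ring1)
theorem kvh17 {p x : ℝ} (h1 : 2 / 5 < p) (h2 : p ≤ 9 / 20) : dt37.kv p x = (109283153 / 25000000 + (x - 1047 / 2000) * (4986991 / 10000000)) + (-401739887 / 20000000 + (x - 1047 / 2000) * (12893 / 2000000)) * p + (4469951 / 200000 + (x - 1047 / 2000) * (-801 / 100000)) * p ^ 2 := by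
  refine (DT.kv_gt (by simp only [Cn.rt_v, Cn.ng_v]; push_cast; linarith)).trans ?_
  refine (DT.kv_gt (by simp only [Cn.rt_v, Cn.ng_v]; push_cast; linarith)).trans ?_
  refine (DT.kv_gt (by simp only [Cn.rt_v, Cn.ng_v]; push_cast; linarith)).trans ?_
  refine (DT.kv_gt (by simp only [Cn.rt_v, Cn.ng_v]; push_cast; linarith)).trans ?_
  refine (DT.kv_le (by simp only [Cn.rt_v, Cn.ng_v]; push_cast; linarith)).trans ?_
  simp only [dt18, DT.kv, sw18, sl18, sv18]
  ((try push_cast); ring1)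
theorem kvh18 {p x : ℝ} (h1 : 9 / 20 < p) (h2 : p ≤ 1 / 2) : dt37.kv p x = (1018997 / 625000 + (x - 1047 / 2000) * (-111356089 / 20000000)) + (-79050793 / 10000000 + (x - 1047 / 2000) * (53937367 / 2000000)) * p + (4407147 / 500000 + (x - 1047 / 2000) * (-599321 / 20000)) * p ^ 2 := by
  refine (DT.kv_gt (by simp only [Cn.rt_v, Cn.ng_v]; push_cast; linarith)).trans ?_
  refine (DT.kv_gt (by simp only [Cn.rt_v, Cn.ng_v]; push_cast; linarith)).trans ?_
  refine (DT.kv_gt (by simp only [Cn.rt_v, Cn.ng_v]; push_cast; linarith)).trans ?_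
  refine (DT.kv_gt (by simp only [Cn.rt_v, Cn.ng_v]; push_cast; linarith)).trans ?_
  refine (DT.kv_gt (by simp only [Cn.rt_v, Cn.ng_v]; push_cast; linarith)).trans ?_
  simp only [dt19, DT.kv, sw19, sl19, sv19]
  ((try push_cast); ring1)
theorem kvl0 {p x : ℝ} (h1 : -1 / 2 ≤ p) (h2 : p ≤ -9 / 20) : dt37.kv p x = (-1018997 / 625000 + (x - 1047 / 2000) * (111356089 / 20000000)) + (-79050793 / 10000000 + (x - 1047 / 2000) * (53937367 / 2000000)) * p + (-4407147 / 500000 + (x - 1047 / 2000) * (599321 / 20000)) * p ^ 2 := by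
  exact kvh0 h2
theorem kvl1 {p x : ℝ} (h1 : -9 / 20 ≤ p) (h2 : p ≤ -2 / 5) : dt37.kv p x = (-109283153 / 25000000 + (x - 1047 / 2000) * (-4986991 / 10000000)) + (-401739887 / 20000000 + (x - 1047 / 2000) * (12893 / 2000000)) * p + (-4469951 / 200000 + (x - 1047 / 2000) * (801 / 100000)) * p ^ 2 := by
  rcases eq_or_lt_of_le h1 with h | h1
  · subst h
    rw [kvh0 (by norm_num)]
    ring1
  · exact kvh1 h1 h2
theorem kvl2 {p x : ℝ} (h1 : -2 / 5 ≤ p) (h2 : p ≤ -7 / 20) : dt37.kv p x = (-467877 / 156250 + (x - 1047 / 2000) * (10169059 / 10000000)) + (-264048557 / 20000000 + (x - 1047 / 2000) * (7584471 / 1000000)) * p + (-13744047 / 1000000 + (x - 1047 / 2000) * (474027 / 50000)) * p ^ 2 := by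
  rcases eq_or_lt_of_le h1 with h | h1
  · subst h
    rw [kvh1 (by norm_num) (by norm_num)]
    ring1
  · exact kvh2 h1 h2
theorem kvl3 {p x : ℝ} (h1 : -7 / 20 ≤ p) (h2 : p ≤ -3 / 10) : dt37.kv p x = (83093053 / 50000000 + (x - 1047 / 2000) * (-9869459 / 4000000)) + (67024257 / 5000000 + (x - 1047 / 2000) * (-24651297 / 2000000)) * p + (1516647 / 62500 + (x - 1047 / 2000) * (-1896249 / 100000)) * p ^ 2 := by
  rcases eq_or_lt_of_le h1 with h | h1
  · subst h
    rw [kvh2 (by norm_num) (by norm_num)]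
    ring1
  · exact kvh3 h1 h2
theorem kvl4 {p x : ℝ} (h1 : -3 / 10 ≤ p) (h2 : p ≤ -1 / 4) : dt37.kv p x = (362156263 / 200000000 + (x - 1047 / 2000) * (1851611 / 20000000)) + (287953059 / 20000000 + (x - 1047 / 2000) * (9481309 / 2000000)) * p + (25921021 / 1000000 + (x - 1047 / 2000) * (189627 / 20000)) * p ^ 2 := by
  rcases eq_or_lt_of_le h1 with h | h1
  · subst h
    rw [kvh3 (by norm_num) (by norm_num)]
    ring1
  · exact kvh4 h1 h2
theorem kvl5 {p x : ℝ} (h1 : -1 / 4 ≤ p) (h2 : p ≤ -1 / 5) : dt37.kv p x = (35121509 / 100000000 + (x - 1047 / 2000) * (-2496721 / 5000000)) + (54422461 / 20000000 + (x - 1047 / 2000) * (10511 / 2000000)) * p + (2567961 / 1000000 + (x - 1047 / 2000) * (211 / 20000)) * p ^ 2 := by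
  rcases eq_or_lt_of_le h1 with h | h1
  · subst h
    rw [kvh4 (by norm_num) (by norm_num)]
    ring1
  · exact kvh5 h1 h2
theorem kvl6 {p x : ℝ} (h1 : -1 / 5 ≤ p) (h2 : p ≤ -3 / 20) : dt37.kv p x = (-34218749 / 100000000 + (x - 1047 / 2000) * (-2502981 / 5000000)) + (-84258053 / 20000000 + (x - 1047 / 2000) * (-14529 / 2000000)) * p + (-14767103 / 1000000 + (x - 1047 / 2000) * (-83 / 4000)) * p ^ 2 := by
  rcases eq_or_lt_of_le h1 with h | h1
  · subst h
    rw [kvh5 (by norm_num) (by norm_num)]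
    ring1
  · exact kvh6 h1 h2
theorem kvl7 {p x : ℝ} (h1 : -3 / 20 ≤ p) (h2 : p ≤ -1 / 10) : dt37.kv p x = (-40603 / 312500 + (x - 1047 / 2000) * (2187627 / 1250000)) + (-13827973 / 10000000 + (x - 1047 / 2000) * (30002039 / 1000000)) * p + (-2666709 / 500000 + (x - 1047 / 2000) * (5000513 / 50000)) * p ^ 2 := by
  rcases eq_or_lt_of_le h1 with h | h1
  · subst h
    rw [kvh6 (by norm_num) (by norm_num)]
    ring1
  · exact kvh7 h1 h2
theorem kvl8 {p x : ℝ} (h1 : -1 / 10 ≤ p) (h2 : p ≤ -1 / 20) : dt37.kv p x = (5106359 / 200000000 + (x - 1047 / 2000) * (-4999993 / 20000000)) + (34528611 / 20000000 + (x - 1047 / 2000) * (-19999973 / 2000000)) * p + (10212721 / 1000000 + (x - 1047 / 2000) * (-9999987 / 100000)) * p ^ 2 := by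
  rcases eq_or_lt_of_le h1 with h | h1
  · subst h
    rw [kvh7 (by norm_num) (by norm_num)]
    ring1
  · exact kvh8 h1 h2
theorem kvl9 {p x : ℝ} (h1 : -1 / 20 ≤ p) (h2 : p ≤ 1 / 20) : dt37.kv p x = (0) + (3525793 / 5000000) * p := by
  rcases eq_or_lt_of_le h1 with h | h1
  · subst h
    rw [kvh8 (by norm_num) (by norm_num)]
    ring1
  · exact kvh9 h1 h2
theorem kvl10 {p x : ℝ} (h1 : 1 / 20 ≤ p) (h2 : p ≤ 1 / 10) : dt37.kv p x = (-5106359 / 200000000 + (x - 1047 / 2000) * (4999993 / 20000000)) + (34528611 / 20000000 + (x - 1047 / 2000) * (-19999973 / 2000000)) * p + (-10212721 / 1000000 + (x - 1047 / 2000) * (9999987 / 100000)) * p ^ 2 := by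
  rcases eq_or_lt_of_le h1 with h | h1
  · subst h
    rw [kvh9 (by norm_num) (by norm_num)]
    ring1
  · exact kvh10 h1 h2
theorem kvl11 {p x : ℝ} (h1 : 1 / 10 ≤ p) (h2 : p ≤ 3 / 20) : dt37.kv p x = (40603 / 312500 + (x - 1047 / 2000) * (-2187627 / 1250000)) + (-13827973 / 10000000 + (x - 1047 / 2000) * (30002039 / 1000000)) * p + (2666709 / 500000 + (x - 1047 / 2000) * (-5000513 / 50000)) * p ^ 2 := by
  rcases eq_or_lt_of_le h1 with h | h1
  · subst h
    rw [kvh10 (by norm_num) (by norm_num)]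
    ring1
  · exact kvh11 h1 h2
theorem kvl12 {p x : ℝ} (h1 : 3 / 20 ≤ p) (h2 : p ≤ 1 / 5) : dt37.kv p x = (34218749 / 100000000 + (x - 1047 / 2000) * (2502981 / 5000000)) + (-84258053 / 20000000 + (x - 1047 / 2000) * (-14529 / 2000000)) * p + (14767103 / 1000000 + (x - 1047 / 2000) * (83 / 4000)) * p ^ 2 := by
  rcases eq_or_lt_of_le h1 with h | h1
  · subst h
    rw [kvh11 (by norm_num) (by norm_num)]
    ring1
  · exact kvh12 h1 h2
theorem kvl13 {p x : ℝ} (h1 : 1 / 5 ≤ p) (h2 : p ≤ 1 / 4) : dt37.kv p x = (-35121509 / 100000000 + (x - 1047 / 2000) * (2496721 / 5000000)) + (54422461 / 20000000 + (x - 1047 / 2000) * (10511 / 2000000)) * p + (-2567961 / 1000000 + (x - 1047 / 2000) * (-211 / 20000)) * p ^ 2 := by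
  rcases eq_or_lt_of_le h1 with h | h1
  · subst h
    rw [kvh12 (by norm_num) (by norm_num)]
    ring1
  · exact kvh13 h1 h2
theorem kvl14 {p x : ℝ} (h1 : 1 / 4 ≤ p) (h2 : p ≤ 3 / 10) : dt37.kv p x = (-362156263 / 200000000 + (x - 1047 / 2000) * (-1851611 / 20000000)) + (287953059 / 20000000 + (x - 1047 / 2000) * (9481309 / 2000000)) * p + (-25921021 / 1000000 + (x - 1047 / 2000) * (-189627 / 20000)) * p ^ 2 := by
  rcases eq_or_lt_of_le h1 with h | h1
  · subst h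
    rw [kvh13 (by norm_num) (by norm_num)]
    ring1
  · exact kvh14 h1 h2
theorem kvl15 {p x : ℝ} (h1 : 3 / 10 ≤ p) (h2 : p ≤ 7 / 20) : dt37.kv p x = (-83093053 / 50000000 + (x - 1047 / 2000) * (9869459 / 4000000)) + (67024257 / 5000000 + (x - 1047 / 2000) * (-24651297 / 2000000)) * p + (-1516647 / 62500 + (x - 1047 / 2000) * (1896249 / 100000)) * p ^ 2 := by
  rcases eq_or_lt_of_le h1 with h | h1
  · subst h
    rw [kvh14 (by norm_num) (by norm_num)]
    ring1
  · exact kvh15 h1 h2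
theorem kvl16 {p x : ℝ} (h1 : 7 / 20 ≤ p) (h2 : p ≤ 2 / 5) : dt37.kv p x = (467877 / 156250 + (x - 1047 / 2000) * (-10169059 / 10000000)) + (-264048557 / 20000000 + (x - 1047 / 2000) * (7584471 / 1000000)) * p + (13744047 / 1000000 + (x - 1047 / 2000) * (-474027 / 50000)) * p ^ 2 := by
  rcases eq_or_lt_of_le h1 with h | h1
  · subst h
    rw [kvh15 (by norm_num) (by norm_num)]
    ring1
  · exact kvh16 h1 h2
theorem kvl17 {p x : ℝ} (h1 : 2 / 5 ≤ p) (h2 : p ≤ 9 / 20) : dt37.kv p x = (109283153 / 25000000 + (x - 1047 / 2000) * (4986991 / 10000000)) + (-401739887 / 20000000 + (x - 1047 / 2000) * (12893 / 2000000)) * p + (4469951 / 200000 + (x - 1047 / 2000) * (-801 / 100000)) * p ^ 2 := by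
  rcases eq_or_lt_of_le h1 with h | h1
  · subst h
    rw [kvh16 (by norm_num) (by norm_num)]
    ring1
  · exact kvh17 h1 h2
theorem kvl18 {p x : ℝ} (h1 : 9 / 20 ≤ p) (h2 : p ≤ 1 / 2) : dt37.kv p x = (1018997 / 625000 + (x - 1047 / 2000) * (-111356089 / 20000000)) + (-79050793 / 10000000 + (x - 1047 / 2000) * (53937367 / 2000000)) * p + (4407147 / 500000 + (x - 1047 / 2000) * (-599321 / 20000)) * p ^ 2 := by
  rcases eq_or_lt_of_le h1 with h | h1
  · subst h
    rw [kvh17 (by norm_num) (by norm_num)]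
    ring1
  · exact kvh18 h1 h2
theorem kfe {x p : ℝ} (h : |p| ≤ 1 / 2) : kcg.v p x = dt37.kv p x := by
  obtain ⟨h1, h2⟩ := abs_le.1 h
  rcases le_total p (-9 / 20) with g0 | g1000
  · rw [kcl0 (by linarith) g0, kvl0 (by linarith) g0]
  rcases le_total p (-2 / 5) with g1 | g1001
  · rw [kcl1 g1000 g1, kvl1 g1000 g1]
  rcases le_total p (-7 / 20) with g2 | g1002
  · rw [kcl2 g1001 g2, kvl2 g1001 g2]
  rcases le_total p (-3 / 10) with g3 | g1003
  · rw [kcl3 g1002 g3, kvl3 g1002 g3]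
  rcases le_total p (-1 / 4) with g4 | g1004
  · rw [kcl4 g1003 g4, kvl4 g1003 g4]
  rcases le_total p (-1 / 5) with g5 | g1005
  · rw [kcl5 g1004 g5, kvl5 g1004 g5]
  rcases le_total p (-3 / 20) with g6 | g1006
  · rw [kcl6 g1005 g6, kvl6 g1005 g6]
  rcases le_total p (-1 / 10) with g7 | g1007
  · rw [kcl7 g1006 g7, kvl7 g1006 g7]
  rcases le_total p (-1 / 20) with g8 | g1008
  · rw [kcl8 g1007 g8, kvl8 g1007 g8]
  rcases le_total p (1 / 20) with g9 | g1009
  · rw [kcl9 g1008 g9, kvl9 g1008 g9]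
  rcases le_total p (1 / 10) with g10 | g1010
  · rw [kcl10 g1009 g10, kvl10 g1009 g10]
  rcases le_total p (3 / 20) with g11 | g1011
  · rw [kcl11 g1010 g11, kvl11 g1010 g11]
  rcases le_total p (1 / 5) with g12 | g1012
  · rw [kcl12 g1011 g12, kvl12 g1011 g12]
  rcases le_total p (1 / 4) with g13 | g1013
  · rw [kcl13 g1012 g13, kvl13 g1012 g13]
  rcases le_total p (3 / 10) with g14 | g1014
  · rw [kcl14 g1013 g14, kvl14 g1013 g14]
  rcases le_total p (7 / 20) with g15 | g1015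
  · rw [kcl15 g1014 g15, kvl15 g1014 g15]
  rcases le_total p (2 / 5) with g16 | g1016
  · rw [kcl16 g1015 g16, kvl16 g1015 g16]
  rcases le_total p (9 / 20) with g17 | g1017
  · rw [kcl17 g1016 g17, kvl17 g1016 g17]
  · rw [kcl18 g1017 (by linarith), kvl18 g1017 (by linarith)]
theorem odd {x p : ℝ} (h : |p| ≤ 1 / 2) : kcg.v (-p) x = -kcg.v p x := by
  obtain ⟨h1, h2⟩ := abs_le.1 h
  rcases le_total p (-9 / 20) with g0 | g1000
  · rw [kcl0 (by linarith) g0, kcl18 (p := -p) (by linarith) (by linarith)]; ring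
  rcases le_total p (-2 / 5) with g1 | g1001
  · rw [kcl1 g1000 g1, kcl17 (p := -p) (by linarith) (by linarith)]; ring
  rcases le_total p (-7 / 20) with g2 | g1002
  · rw [kcl2 g1001 g2, kcl16 (p := -p) (by linarith) (by linarith)]; ring
  rcases le_total p (-3 / 10) with g3 | g1003
  · rw [kcl3 g1002 g3, kcl15 (p := -p) (by linarith) (by linarith)]; ring
  rcases le_total p (-1 / 4) with g4 | g1004
  · rw [kcl4 g1003 g4, kcl14 (p := -p) (by linarith) (by linarith)]; ring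
  rcases le_total p (-1 / 5) with g5 | g1005
  · rw [kcl5 g1004 g5, kcl13 (p := -p) (by linarith) (by linarith)]; ring
  rcases le_total p (-3 / 20) with g6 | g1006
  · rw [kcl6 g1005 g6, kcl12 (p := -p) (by linarith) (by linarith)]; ring
  rcases le_total p (-1 / 10) with g7 | g1007
  · rw [kcl7 g1006 g7, kcl11 (p := -p) (by linarith) (by linarith)]; ring
  rcases le_total p (-1 / 20) with g8 | g1008
  · rw [kcl8 g1007 g8, kcl10 (p := -p) (by linarith) (by linarith)]; ring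
  rcases le_total p (1 / 20) with g9 | g1009
  · rw [kcl9 g1008 g9, kcl9 (p := -p) (by linarith) (by linarith)]; ring
  rcases le_total p (1 / 10) with g10 | g1010
  · rw [kcl10 g1009 g10, kcl8 (p := -p) (by linarith) (by linarith)]; ring
  rcases le_total p (3 / 20) with g11 | g1011
  · rw [kcl11 g1010 g11, kcl7 (p := -p) (by linarith) (by linarith)]; ring
  rcases le_total p (1 / 5) with g12 | g1012
  · rw [kcl12 g1011 g12, kcl6 (p := -p) (by linarith) (by linarith)]; ring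
  rcases le_total p (1 / 4) with g13 | g1013
  · rw [kcl13 g1012 g13, kcl5 (p := -p) (by linarith) (by linarith)]; ring
  rcases le_total p (3 / 10) with g14 | g1014
  · rw [kcl14 g1013 g14, kcl4 (p := -p) (by linarith) (by linarith)]; ring
  rcases le_total p (7 / 20) with g15 | g1015
  · rw [kcl15 g1014 g15, kcl3 (p := -p) (by linarith) (by linarith)]; ring
  rcases le_total p (2 / 5) with g16 | g1016
  · rw [kcl16 g1015 g16, kcl2 (p := -p) (by linarith) (by linarith)]; ring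
  rcases le_total p (9 / 20) with g17 | g1017
  · rw [kcl17 g1016 g17, kcl1 (p := -p) (by linarith) (by linarith)]; ring
  · rw [kcl18 g1017 (by linarith), kcl0 (p := -p) (by linarith) (by linarith)]; ring
theorem ctA : cT (-13 / 134) = 61 / 67 := by
  unfold cT
  rw [show (3 / 4 * (1 - (-13 / 134 : ℝ) ^ 2)) = (231 / 268) ^ 2 by norm_num, Real.sqrt_sq (by norm_num)]
  norm_num
theorem ctB : cT (-1 / 97) = 169 / 194 := by
  unfold cT
  rw [show (3 / 4 * (1 - (-1 / 97 : ℝ) ^ 2)) = (84 / 97) ^ 2 by norm_num, Real.sqrt_sq (by norm_num)]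
  norm_num
theorem kgA {x : ℝ} : kcg.v (-13 / 134) x = (-5144020363 / 112225000000 + (x - 1047 / 2000) * (-2480622039 / 11222500000)) := by
  rw [kcl8 (by norm_num) (by norm_num)]
  ring
theorem kgB {x : ℝ} : kcg.v (-1 / 97) x = (-3525793 / 485000000) := by
  rw [kcl9 (by norm_num) (by norm_num)]
  ring
theorem ka_dt1 (x : ℝ) : dt1.kv (-1 / 2) x = (2371419 / 20000000 + (x - 1047 / 2000) * (-531281 / 1250000)) := by
  simp only [dt1, DT.kv, sw1, sl1, sv1]
  ((try push_cast); ring1)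
theorem kb_dt1 (x : ℝ) : dt1.kv (-9 / 20) x = (2839919 / 20000000 + (x - 1047 / 2000) * (-249989 / 500000)) := by
  simp only [dt1, DT.kv, sw1, sl1, sv1]
  ((try push_cast); ring1)
theorem ka_dt2 (x : ℝ) : dt2.kv (-9 / 20) x = (2839919 / 20000000 + (x - 1047 / 2000) * (-249989 / 500000)) := by
  simp only [dt2, DT.kv, sw2, sl2, sv2]
  ((try push_cast); ring1)
theorem kb_dt2 (x : ℝ) : dt2.kv (-2 / 5) x = (4375541 / 50000000 + (x - 1047 / 2000) * (-4999961 / 10000000)) := by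
  simp only [dt2, DT.kv, sw2, sl2, sv2]
  ((try push_cast); ring1)
theorem ka_dt20 (x : ℝ) : dt20.kv (-1 / 2) x = (2371419 / 20000000 + (x - 1047 / 2000) * (-531281 / 1250000)) :=
  (DT.kv_le (by simp only [Cn.rt_v, Cn.ng_v]; norm_num)).trans (ka_dt1 x)
theorem kb_dt20 (x : ℝ) : dt20.kv (-2 / 5) x = (4375541 / 50000000 + (x - 1047 / 2000) * (-4999961 / 10000000)) :=
  (DT.kv_gt (by simp only [Cn.rt_v, Cn.ng_v]; norm_num)).trans (kb_dt2 x)
theorem ka_dt3 (x : ℝ) : dt3.kv (-2 / 5) x = (4375541 / 50000000 + (x - 1047 / 2000) * (-4999961 / 10000000)) := by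
  simp only [dt3, DT.kv, sw3, sl3, sv3]
  ((try push_cast); ring1)
theorem kb_dt3 (x : ℝ) : dt3.kv (-7 / 20) x = (-5720881 / 100000000 + (x - 1047 / 2000) * (-297683 / 625000)) := by
  simp only [dt3, DT.kv, sw3, sl3, sv3]
  ((try push_cast); ring1)
theorem ka_dt4 (x : ℝ) : dt4.kv (-7 / 20) x = (-5720881 / 100000000 + (x - 1047 / 2000) * (-297683 / 625000)) := by
  simp only [dt4, DT.kv, sw4, sl4, sv4]
  ((try push_cast); ring1)
theorem kb_dt4 (x : ℝ) : dt4.kv (-3 / 10) x = (-4390567 / 25000000 + (x - 1047 / 2000) * (-4762943 / 10000000)) := by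
  simp only [dt4, DT.kv, sw4, sl4, sv4]
  ((try push_cast); ring1)
theorem ka_dt21 (x : ℝ) : dt21.kv (-2 / 5) x = (4375541 / 50000000 + (x - 1047 / 2000) * (-4999961 / 10000000)) :=
  (DT.kv_le (by simp only [Cn.rt_v, Cn.ng_v]; norm_num)).trans (ka_dt3 x)
theorem kb_dt21 (x : ℝ) : dt21.kv (-3 / 10) x = (-4390567 / 25000000 + (x - 1047 / 2000) * (-4762943 / 10000000)) :=
  (DT.kv_gt (by simp only [Cn.rt_v, Cn.ng_v]; norm_num)).trans (kb_dt4 x)
theorem ka_dt22 (x : ℝ) : dt22.kv (-1 / 2) x = (2371419 / 20000000 + (x - 1047 / 2000) * (-531281 / 1250000)) :=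
  (DT.kv_le (by simp only [Cn.rt_v, Cn.ng_v]; norm_num)).trans (ka_dt20 x)
theorem kb_dt22 (x : ℝ) : dt22.kv (-3 / 10) x = (-4390567 / 25000000 + (x - 1047 / 2000) * (-4762943 / 10000000)) :=
  (DT.kv_gt (by simp only [Cn.rt_v, Cn.ng_v]; norm_num)).trans (kb_dt21 x)
theorem ka_dt5 (x : ℝ) : dt5.kv (-3 / 10) x = (-4390567 / 25000000 + (x - 1047 / 2000) * (-4762943 / 10000000)) := by
  simp only [dt5, DT.kv, sw5, sl5, sv5]
  ((try push_cast); ring1)
theorem kb_dt5 (x : ℝ) : dt5.kv (-1 / 4) x = (-16856811 / 100000000 + (x - 1047 / 2000) * (-4999987 / 10000000)) := by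
  simp only [dt5, DT.kv, sw5, sl5, sv5]
  ((try push_cast); ring1)
theorem ka_dt6 (x : ℝ) : dt6.kv (-1 / 4) x = (-16856811 / 100000000 + (x - 1047 / 2000) * (-4999987 / 10000000)) := by
  simp only [dt6, DT.kv, sw6, sl6, sv6]
  ((try push_cast); ring1)
theorem kb_dt6 (x : ℝ) : dt6.kv (-1 / 5) x = (-2257277 / 25000000 + (x - 1047 / 2000) * (-4999733 / 10000000)) := by
  simp only [dt6, DT.kv, sw6, sl6, sv6]
  ((try push_cast); ring1)
theorem ka_dt23 (x : ℝ) : dt23.kv (-3 / 10) x = (-4390567 / 25000000 + (x - 1047 / 2000) * (-4762943 / 10000000)) :=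
  (DT.kv_le (by simp only [Cn.rt_v, Cn.ng_v]; norm_num)).trans (ka_dt5 x)
theorem kb_dt23 (x : ℝ) : dt23.kv (-1 / 5) x = (-2257277 / 25000000 + (x - 1047 / 2000) * (-4999733 / 10000000)) :=
  (DT.kv_gt (by simp only [Cn.rt_v, Cn.ng_v]; norm_num)).trans (kb_dt6 x)
theorem ka_dt7 (x : ℝ) : dt7.kv (-1 / 5) x = (-2257277 / 25000000 + (x - 1047 / 2000) * (-4999733 / 10000000)) := by
  simp only [dt7, DT.kv, sw7, sl7, sv7]
  ((try push_cast); ring1)
theorem kb_dt7 (x : ℝ) : dt7.kv (-3 / 20) x = (-4251191 / 100000000 + (x - 1047 / 2000) * (-2499867 / 5000000)) := by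
  simp only [dt7, DT.kv, sw7, sl7, sv7]
  ((try push_cast); ring1)
theorem ka_dt8 (x : ℝ) : dt8.kv (-3 / 20) x = (-4251191 / 100000000 + (x - 1047 / 2000) * (-2499867 / 5000000)) := by
  simp only [dt8, DT.kv, sw8, sl8, sv8]
  ((try push_cast); ring1)
theorem kb_dt8 (x : ℝ) : dt8.kv (-1 / 10) x = (-899681 / 20000000 + (x - 1047 / 2000) * (-2499997 / 10000000)) := by
  simp only [dt8, DT.kv, sw8, sl8, sv8]
  ((try push_cast); ring1)
theorem ka_dt9 (x : ℝ) : dt9.kv (-1 / 10) x = (-899681 / 20000000 + (x - 1047 / 2000) * (-2499997 / 10000000)) := by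
  simp only [dt9, DT.kv, sw9, sl9, sv9]
  ((try push_cast); ring1)
theorem kb_dt9 (x : ℝ) : dt9.kv (-1 / 20) x = (-3525793 / 100000000) := by
  simp only [dt9, DT.kv, sw9, sl9, sv9]
  ((try push_cast); ring1)
theorem ka_dt24 (x : ℝ) : dt24.kv (-3 / 20) x = (-4251191 / 100000000 + (x - 1047 / 2000) * (-2499867 / 5000000)) :=
  (DT.kv_le (by simp only [Cn.rt_v, Cn.ng_v]; norm_num)).trans (ka_dt8 x)
theorem kb_dt24 (x : ℝ) : dt24.kv (-1 / 20) x = (-3525793 / 100000000) :=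
  (DT.kv_gt (by simp only [Cn.rt_v, Cn.ng_v]; norm_num)).trans (kb_dt9 x)
theorem ka_dt25 (x : ℝ) : dt25.kv (-1 / 5) x = (-2257277 / 25000000 + (x - 1047 / 2000) * (-4999733 / 10000000)) :=
  (DT.kv_le (by simp only [Cn.rt_v, Cn.ng_v]; norm_num)).trans (ka_dt7 x)
theorem kb_dt25 (x : ℝ) : dt25.kv (-1 / 20) x = (-3525793 / 100000000) :=
  (DT.kv_gt (by simp only [Cn.rt_v, Cn.ng_v]; norm_num)).trans (kb_dt24 x)
theorem ka_dt26 (x : ℝ) : dt26.kv (-3 / 10) x = (-4390567 / 25000000 + (x - 1047 / 2000) * (-4762943 / 10000000)) :=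
  (DT.kv_le (by simp only [Cn.rt_v, Cn.ng_v]; norm_num)).trans (ka_dt23 x)
theorem kb_dt26 (x : ℝ) : dt26.kv (-1 / 20) x = (-3525793 / 100000000) :=
  (DT.kv_gt (by simp only [Cn.rt_v, Cn.ng_v]; norm_num)).trans (kb_dt25 x)
theorem ka_dt27 (x : ℝ) : dt27.kv (-1 / 2) x = (2371419 / 20000000 + (x - 1047 / 2000) * (-531281 / 1250000)) :=
  (DT.kv_le (by simp only [Cn.rt_v, Cn.ng_v]; norm_num)).trans (ka_dt22 x)
theorem kb_dt27 (x : ℝ) : dt27.kv (-1 / 20) x = (-3525793 / 100000000) :=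
  (DT.kv_gt (by simp only [Cn.rt_v, Cn.ng_v]; norm_num)).trans (kb_dt26 x)
theorem ka_dt10 (x : ℝ) : dt10.kv (-1 / 20) x = (-3525793 / 100000000) := by
  simp only [dt10, DT.kv, sl10, sv10]
  ((try push_cast); ring1)
theorem kb_dt10 (x : ℝ) : dt10.kv (1 / 20) x = (3525793 / 100000000) := by
  simp only [dt10, DT.kv, sl10, sv10]
  ((try push_cast); ring1)
theorem ka_dt11 (x : ℝ) : dt11.kv (1 / 20) x = (3525793 / 100000000) := by
  simp only [dt11, DT.kv, sw11, sl11, sv11]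
  ((try push_cast); ring1)
theorem kb_dt11 (x : ℝ) : dt11.kv (1 / 10) x = (899681 / 20000000 + (x - 1047 / 2000) * (2499997 / 10000000)) := by
  simp only [dt11, DT.kv, sw11, sl11, sv11]
  ((try push_cast); ring1)
theorem ka_dt28 (x : ℝ) : dt28.kv (-1 / 20) x = (-3525793 / 100000000) :=
  (DT.kv_le (by simp only [Cn.rt_v, Cn.ng_v]; norm_num)).trans (ka_dt10 x)
theorem kb_dt28 (x : ℝ) : dt28.kv (1 / 10) x = (899681 / 20000000 + (x - 1047 / 2000) * (2499997 / 10000000)) :=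
  (DT.kv_gt (by simp only [Cn.rt_v, Cn.ng_v]; norm_num)).trans (kb_dt11 x)
theorem ka_dt12 (x : ℝ) : dt12.kv (1 / 10) x = (899681 / 20000000 + (x - 1047 / 2000) * (2499997 / 10000000)) := by
  simp only [dt12, DT.kv, sw12, sl12, sv12]
  ((try push_cast); ring1)
theorem kb_dt12 (x : ℝ) : dt12.kv (3 / 20) x = (4251191 / 100000000 + (x - 1047 / 2000) * (2499867 / 5000000)) := by
  simp only [dt12, DT.kv, sw12, sl12, sv12]
  ((try push_cast); ring1)
theorem ka_dt13 (x : ℝ) : dt13.kv (3 / 20) x = (4251191 / 100000000 + (x - 1047 / 2000) * (2499867 / 5000000)) := by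
  simp only [dt13, DT.kv, sw13, sl13, sv13]
  ((try push_cast); ring1)
theorem kb_dt13 (x : ℝ) : dt13.kv (1 / 5) x = (2257277 / 25000000 + (x - 1047 / 2000) * (4999733 / 10000000)) := by
  simp only [dt13, DT.kv, sw13, sl13, sv13]
  ((try push_cast); ring1)
theorem ka_dt14 (x : ℝ) : dt14.kv (1 / 5) x = (2257277 / 25000000 + (x - 1047 / 2000) * (4999733 / 10000000)) := by
  simp only [dt14, DT.kv, sw14, sl14, sv14]
  ((try push_cast); ring1)
theorem kb_dt14 (x : ℝ) : dt14.kv (1 / 4) x = (16856811 / 100000000 + (x - 1047 / 2000) * (4999987 / 10000000)) := by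
  simp only [dt14, DT.kv, sw14, sl14, sv14]
  ((try push_cast); ring1)
theorem ka_dt29 (x : ℝ) : dt29.kv (3 / 20) x = (4251191 / 100000000 + (x - 1047 / 2000) * (2499867 / 5000000)) :=
  (DT.kv_le (by simp only [Cn.rt_v, Cn.ng_v]; norm_num)).trans (ka_dt13 x)
theorem kb_dt29 (x : ℝ) : dt29.kv (1 / 4) x = (16856811 / 100000000 + (x - 1047 / 2000) * (4999987 / 10000000)) :=
  (DT.kv_gt (by simp only [Cn.rt_v, Cn.ng_v]; norm_num)).trans (kb_dt14 x)
theorem ka_dt30 (x : ℝ) : dt30.kv (1 / 10) x = (899681 / 20000000 + (x - 1047 / 2000) * (2499997 / 10000000)) :=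
  (DT.kv_le (by simp only [Cn.rt_v, Cn.ng_v]; norm_num)).trans (ka_dt12 x)
theorem kb_dt30 (x : ℝ) : dt30.kv (1 / 4) x = (16856811 / 100000000 + (x - 1047 / 2000) * (4999987 / 10000000)) :=
  (DT.kv_gt (by simp only [Cn.rt_v, Cn.ng_v]; norm_num)).trans (kb_dt29 x)
theorem ka_dt31 (x : ℝ) : dt31.kv (-1 / 20) x = (-3525793 / 100000000) :=
  (DT.kv_le (by simp only [Cn.rt_v, Cn.ng_v]; norm_num)).trans (ka_dt28 x)
theorem kb_dt31 (x : ℝ) : dt31.kv (1 / 4) x = (16856811 / 100000000 + (x - 1047 / 2000) * (4999987 / 10000000)) :=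
  (DT.kv_gt (by simp only [Cn.rt_v, Cn.ng_v]; norm_num)).trans (kb_dt30 x)
theorem ka_dt15 (x : ℝ) : dt15.kv (1 / 4) x = (16856811 / 100000000 + (x - 1047 / 2000) * (4999987 / 10000000)) := by
  simp only [dt15, DT.kv, sw15, sl15, sv15]
  ((try push_cast); ring1)
theorem kb_dt15 (x : ℝ) : dt15.kv (3 / 10) x = (4390567 / 25000000 + (x - 1047 / 2000) * (4762943 / 10000000)) := by
  simp only [dt15, DT.kv, sw15, sl15, sv15]
  ((try push_cast); ring1)
theorem ka_dt16 (x : ℝ) : dt16.kv (3 / 10) x = (4390567 / 25000000 + (x - 1047 / 2000) * (4762943 / 10000000)) := by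
  simp only [dt16, DT.kv, sw16, sl16, sv16]
  ((try push_cast); ring1)
theorem kb_dt16 (x : ℝ) : dt16.kv (7 / 20) x = (5720881 / 100000000 + (x - 1047 / 2000) * (297683 / 625000)) := by
  simp only [dt16, DT.kv, sw16, sl16, sv16]
  ((try push_cast); ring1)
theorem ka_dt32 (x : ℝ) : dt32.kv (1 / 4) x = (16856811 / 100000000 + (x - 1047 / 2000) * (4999987 / 10000000)) :=
  (DT.kv_le (by simp only [Cn.rt_v, Cn.ng_v]; norm_num)).trans (ka_dt15 x)
theorem kb_dt32 (x : ℝ) : dt32.kv (7 / 20) x = (5720881 / 100000000 + (x - 1047 / 2000) * (297683 / 625000)) :=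
  (DT.kv_gt (by simp only [Cn.rt_v, Cn.ng_v]; norm_num)).trans (kb_dt16 x)
theorem ka_dt17 (x : ℝ) : dt17.kv (7 / 20) x = (5720881 / 100000000 + (x - 1047 / 2000) * (297683 / 625000)) := by
  simp only [dt17, DT.kv, sw17, sl17, sv17]
  ((try push_cast); ring1)
theorem kb_dt17 (x : ℝ) : dt17.kv (2 / 5) x = (-4375541 / 50000000 + (x - 1047 / 2000) * (4999961 / 10000000)) := by
  simp only [dt17, DT.kv, sw17, sl17, sv17]
  ((try push_cast); ring1)
theorem ka_dt18 (x : ℝ) : dt18.kv (2 / 5) x = (-4375541 / 50000000 + (x - 1047 / 2000) * (4999961 / 10000000)) := by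
  simp only [dt18, DT.kv, sw18, sl18, sv18]
  ((try push_cast); ring1)
theorem kb_dt18 (x : ℝ) : dt18.kv (9 / 20) x = (-2839919 / 20000000 + (x - 1047 / 2000) * (249989 / 500000)) := by
  simp only [dt18, DT.kv, sw18, sl18, sv18]
  ((try push_cast); ring1)
theorem ka_dt19 (x : ℝ) : dt19.kv (9 / 20) x = (-2839919 / 20000000 + (x - 1047 / 2000) * (249989 / 500000)) := by
  simp only [dt19, DT.kv, sw19, sl19, sv19]
  ((try push_cast); ring1)
theorem kb_dt19 (x : ℝ) : dt19.kv (1 / 2) x = (-2371419 / 20000000 + (x - 1047 / 2000) * (531281 / 1250000)) := by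
  simp only [dt19, DT.kv, sw19, sl19, sv19]
  ((try push_cast); ring1)
theorem ka_dt33 (x : ℝ) : dt33.kv (2 / 5) x = (-4375541 / 50000000 + (x - 1047 / 2000) * (4999961 / 10000000)) :=
  (DT.kv_le (by simp only [Cn.rt_v, Cn.ng_v]; norm_num)).trans (ka_dt18 x)
theorem kb_dt33 (x : ℝ) : dt33.kv (1 / 2) x = (-2371419 / 20000000 + (x - 1047 / 2000) * (531281 / 1250000)) :=
  (DT.kv_gt (by simp only [Cn.rt_v, Cn.ng_v]; norm_num)).trans (kb_dt19 x)
theorem ka_dt34 (x : ℝ) : dt34.kv (7 / 20) x = (5720881 / 100000000 + (x - 1047 / 2000) * (297683 / 625000)) :=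
  (DT.kv_le (by simp only [Cn.rt_v, Cn.ng_v]; norm_num)).trans (ka_dt17 x)
theorem kb_dt34 (x : ℝ) : dt34.kv (1 / 2) x = (-2371419 / 20000000 + (x - 1047 / 2000) * (531281 / 1250000)) :=
  (DT.kv_gt (by simp only [Cn.rt_v, Cn.ng_v]; norm_num)).trans (kb_dt33 x)
theorem ka_dt35 (x : ℝ) : dt35.kv (1 / 4) x = (16856811 / 100000000 + (x - 1047 / 2000) * (4999987 / 10000000)) :=
  (DT.kv_le (by simp only [Cn.rt_v, Cn.ng_v]; norm_num)).trans (ka_dt32 x)
theorem kb_dt35 (x : ℝ) : dt35.kv (1 / 2) x = (-2371419 / 20000000 + (x - 1047 / 2000) * (531281 / 1250000)) :=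
  (DT.kv_gt (by simp only [Cn.rt_v, Cn.ng_v]; norm_num)).trans (kb_dt34 x)
theorem ka_dt36 (x : ℝ) : dt36.kv (-1 / 20) x = (-3525793 / 100000000) :=
  (DT.kv_le (by simp only [Cn.rt_v, Cn.ng_v]; norm_num)).trans (ka_dt31 x)
theorem kb_dt36 (x : ℝ) : dt36.kv (1 / 2) x = (-2371419 / 20000000 + (x - 1047 / 2000) * (531281 / 1250000)) :=
  (DT.kv_gt (by simp only [Cn.rt_v, Cn.ng_v]; norm_num)).trans (kb_dt35 x)
theorem ka_dt37 (x : ℝ) : dt37.kv (-1 / 2) x = (2371419 / 20000000 + (x - 1047 / 2000) * (-531281 / 1250000)) :=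
  (DT.kv_le (by simp only [Cn.rt_v, Cn.ng_v]; norm_num)).trans (ka_dt27 x)
theorem kb_dt37 (x : ℝ) : dt37.kv (1 / 2) x = (-2371419 / 20000000 + (x - 1047 / 2000) * (531281 / 1250000)) :=
  (DT.kv_gt (by simp only [Cn.rt_v, Cn.ng_v]; norm_num)).trans (kb_dt36 x)
theorem ko_dt1 (x : ℝ) : dt1.KOk x := trivial
theorem ko_dt2 (x : ℝ) : dt2.KOk x := trivial
theorem ko_dt20 (x : ℝ) : dt20.KOk x :=
  DT.kOk_node (v := -9 / 20) (by simp only [Cn.rt_v, Cn.ng_v]; norm_num) (kb_dt1 x) (ka_dt2 x) (by ring1) (ko_dt1 x) (ko_dt2 x)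
theorem ko_dt3 (x : ℝ) : dt3.KOk x := trivial
theorem ko_dt4 (x : ℝ) : dt4.KOk x := trivial
theorem ko_dt21 (x : ℝ) : dt21.KOk x :=
  DT.kOk_node (v := -7 / 20) (by simp only [Cn.rt_v, Cn.ng_v]; norm_num) (kb_dt3 x) (ka_dt4 x) (by ring1) (ko_dt3 x) (ko_dt4 x)
theorem ko_dt22 (x : ℝ) : dt22.KOk x :=
  DT.kOk_node (v := -2 / 5) (by simp only [Cn.rt_v, Cn.ng_v]; norm_num) (kb_dt20 x) (ka_dt21 x) (by ring1) (ko_dt20 x) (ko_dt21 x)
theorem ko_dt5 (x : ℝ) : dt5.KOk x := trivial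
theorem ko_dt6 (x : ℝ) : dt6.KOk x := trivial
theorem ko_dt23 (x : ℝ) : dt23.KOk x :=
  DT.kOk_node (v := -1 / 4) (by simp only [Cn.rt_v, Cn.ng_v]; norm_num) (kb_dt5 x) (ka_dt6 x) (by ring1) (ko_dt5 x) (ko_dt6 x)
theorem ko_dt7 (x : ℝ) : dt7.KOk x := trivial
theorem ko_dt8 (x : ℝ) : dt8.KOk x := trivial
theorem ko_dt9 (x : ℝ) : dt9.KOk x := trivial
theorem ko_dt24 (x : ℝ) : dt24.KOk x :=
  DT.kOk_node (v := -1 / 10) (by simp only [Cn.rt_v, Cn.ng_v]; norm_num) (kb_dt8 x) (ka_dt9 x) (by ring1) (ko_dt8 x) (ko_dt9 x)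
theorem ko_dt25 (x : ℝ) : dt25.KOk x :=
  DT.kOk_node (v := -3 / 20) (by simp only [Cn.rt_v, Cn.ng_v]; norm_num) (kb_dt7 x) (ka_dt24 x) (by ring1) (ko_dt7 x) (ko_dt24 x)
theorem ko_dt26 (x : ℝ) : dt26.KOk x :=
  DT.kOk_node (v := -1 / 5) (by simp only [Cn.rt_v, Cn.ng_v]; norm_num) (kb_dt23 x) (ka_dt25 x) (by ring1) (ko_dt23 x) (ko_dt25 x)
theorem ko_dt27 (x : ℝ) : dt27.KOk x :=
  DT.kOk_node (v := -3 / 10) (by simp only [Cn.rt_v, Cn.ng_v]; norm_num) (kb_dt22 x) (ka_dt26 x) (by ring1) (ko_dt22 x) (ko_dt26 x)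
theorem ko_dt10 (x : ℝ) : dt10.KOk x := trivial
theorem ko_dt11 (x : ℝ) : dt11.KOk x := trivial
theorem ko_dt28 (x : ℝ) : dt28.KOk x :=
  DT.kOk_node (v := 1 / 20) (by simp only [Cn.rt_v, Cn.ng_v]; norm_num) (kb_dt10 x) (ka_dt11 x) (by ring1) (ko_dt10 x) (ko_dt11 x)
theorem ko_dt12 (x : ℝ) : dt12.KOk x := trivial
theorem ko_dt13 (x : ℝ) : dt13.KOk x := trivial
theorem ko_dt14 (x : ℝ) : dt14.KOk x := trivial
theorem ko_dt29 (x : ℝ) : dt29.KOk x :=
  DT.kOk_node (v := 1 / 5) (by simp only [Cn.rt_v, Cn.ng_v]; norm_num) (kb_dt13 x) (ka_dt14 x) (by ring1) (ko_dt13 x) (ko_dt14 x)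
theorem ko_dt30 (x : ℝ) : dt30.KOk x :=
  DT.kOk_node (v := 3 / 20) (by simp only [Cn.rt_v, Cn.ng_v]; norm_num) (kb_dt12 x) (ka_dt29 x) (by ring1) (ko_dt12 x) (ko_dt29 x)
theorem ko_dt31 (x : ℝ) : dt31.KOk x :=
  DT.kOk_node (v := 1 / 10) (by simp only [Cn.rt_v, Cn.ng_v]; norm_num) (kb_dt28 x) (ka_dt30 x) (by ring1) (ko_dt28 x) (ko_dt30 x)
theorem ko_dt15 (x : ℝ) : dt15.KOk x := trivial
theorem ko_dt16 (x : ℝ) : dt16.KOk x := trivial
theorem ko_dt32 (x : ℝ) : dt32.KOk x :=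
  DT.kOk_node (v := 3 / 10) (by simp only [Cn.rt_v, Cn.ng_v]; norm_num) (kb_dt15 x) (ka_dt16 x) (by ring1) (ko_dt15 x) (ko_dt16 x)
theorem ko_dt17 (x : ℝ) : dt17.KOk x := trivial
theorem ko_dt18 (x : ℝ) : dt18.KOk x := trivial
theorem ko_dt19 (x : ℝ) : dt19.KOk x := trivial
theorem ko_dt33 (x : ℝ) : dt33.KOk x :=
  DT.kOk_node (v := 9 / 20) (by simp only [Cn.rt_v, Cn.ng_v]; norm_num) (kb_dt18 x) (ka_dt19 x) (by ring1) (ko_dt18 x) (ko_dt19 x)
theorem ko_dt34 (x : ℝ) : dt34.KOk x :=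
  DT.kOk_node (v := 2 / 5) (by simp only [Cn.rt_v, Cn.ng_v]; norm_num) (kb_dt17 x) (ka_dt33 x) (by ring1) (ko_dt17 x) (ko_dt33 x)
theorem ko_dt35 (x : ℝ) : dt35.KOk x :=
  DT.kOk_node (v := 7 / 20) (by simp only [Cn.rt_v, Cn.ng_v]; norm_num) (kb_dt32 x) (ka_dt34 x) (by ring1) (ko_dt32 x) (ko_dt34 x)
theorem ko_dt36 (x : ℝ) : dt36.KOk x :=
  DT.kOk_node (v := 1 / 4) (by simp only [Cn.rt_v, Cn.ng_v]; norm_num) (kb_dt31 x) (ka_dt35 x) (by ring1) (ko_dt31 x) (ko_dt35 x)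
theorem ko_dt37 (x : ℝ) : dt37.KOk x :=
  DT.kOk_node (v := -1 / 20) (by simp only [Cn.rt_v, Cn.ng_v]; norm_num) (kb_dt27 x) (ka_dt36 x) (by ring1) (ko_dt27 x) (ko_dt36 x)
theorem txl0 {p c x : ℝ} (h1 : -1 / 2 ≤ p) (h2 : p ≤ -11 / 25) : txg.v p c x = dt76.val (fun p x => kcg.v p x) p c x := by
  symm
  refine (DT.val_le (by simp only [Cn.rt_v, Cn.ng_v]; push_cast; linarith)).trans ?_
  refine (DT.val_le (by simp only [Cn.rt_v, Cn.ng_v]; push_cast; linarith)).trans ?_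
  refine (DT.val_le (by simp only [Cn.rt_v, Cn.ng_v]; push_cast; linarith)).trans ?_
  refine (DT.val_le (by simp only [Cn.rt_v, Cn.ng_v]; push_cast; linarith)).trans ?_
  simp only [dt38, DT.val, cloR, sw38, sl38, sv38, txg, txg_4, txg_6, txg_27, txg_30, txg_33, txg_75, txg_116, txg_119, txg_165, txg_225, txg_226, txg_228, txg_230, txg_270, txg_293, txg_336, txg_338, txg_358, txg_398, txg_418]
  rcases eq_or_lt_of_le h1 with h | h1
  · subst h
    ((try push_cast); (repeat first | rw [if_pos (by linarith)] | rw [if_neg (by linarith)] | erw [if_pos (by linarith)] | erw [if_neg (by linarith)]); (try push_cast); (try ring1))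
  rcases eq_or_lt_of_le h2 with h | h2
  · subst h
    ((try push_cast); (repeat first | rw [if_pos (by linarith)] | rw [if_neg (by linarith)] | erw [if_pos (by linarith)] | erw [if_neg (by linarith)]); (try push_cast); (try ring1))
  · ((try push_cast); (repeat first | rw [if_pos (by linarith)] | rw [if_neg (by linarith)] | erw [if_pos (by linarith)] | erw [if_neg (by linarith)]); (try push_cast); (try ring1))
theorem txl1 {p c x : ℝ} (h1 : -11 / 25 < p) (h2 : p ≤ -19 / 50) : txg.v p c x = dt76.val (fun p x => kcg.v p x) p c x := by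
  symm
  refine (DT.val_le (by simp only [Cn.rt_v, Cn.ng_v]; push_cast; linarith)).trans ?_
  refine (DT.val_le (by simp only [Cn.rt_v, Cn.ng_v]; push_cast; linarith)).trans ?_
  refine (DT.val_le (by simp only [Cn.rt_v, Cn.ng_v]; push_cast; linarith)).trans ?_
  refine (DT.val_gt (by simp only [Cn.rt_v, Cn.ng_v]; push_cast; linarith)).trans ?_
  simp only [dt39, DT.val, cloR, sw39, sl39, sv39, txg, txg_4, txg_6, txg_27, txg_30, txg_33, txg_75, txg_116, txg_119, txg_165, txg_225, txg_226, txg_228, txg_230, txg_270, txg_293, txg_336, txg_338, txg_358, txg_398, txg_418]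
  rcases eq_or_lt_of_le h2 with h | h2
  · subst h
    ((try push_cast); (repeat first | rw [if_pos (by linarith)] | rw [if_neg (by linarith)] | erw [if_pos (by linarith)] | erw [if_neg (by linarith)]); (try push_cast); (try ring1))
  · ((try push_cast); (repeat first | rw [if_pos (by linarith)] | rw [if_neg (by linarith)] | erw [if_pos (by linarith)] | erw [if_neg (by linarith)]); (try push_cast); (try ring1))
theorem txl2 {p c x : ℝ} (h1 : -19 / 50 < p) (h2 : p ≤ -8 / 25) : txg.v p c x = dt76.val (fun p x => kcg.v p x) p c x := by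
  symm
  refine (DT.val_le (by simp only [Cn.rt_v, Cn.ng_v]; push_cast; linarith)).trans ?_
  refine (DT.val_le (by simp only [Cn.rt_v, Cn.ng_v]; push_cast; linarith)).trans ?_
  refine (DT.val_gt (by simp only [Cn.rt_v, Cn.ng_v]; push_cast; linarith)).trans ?_
  refine (DT.val_le (by simp only [Cn.rt_v, Cn.ng_v]; push_cast; linarith)).trans ?_
  simp only [dt40, DT.val, cloR, sw40, sl40, sv40, txg, txg_4, txg_6, txg_27, txg_30, txg_33, txg_75, txg_116, txg_119, txg_165, txg_225, txg_226, txg_228, txg_230, txg_270, txg_293, txg_336, txg_338, txg_358, txg_398, txg_418]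
  rcases eq_or_lt_of_le h2 with h | h2
  · subst h
    ((try push_cast); (repeat first | rw [if_pos (by linarith)] | rw [if_neg (by linarith)] | erw [if_pos (by linarith)] | erw [if_neg (by linarith)]); (try push_cast); (try ring1))
  · ((try push_cast); (repeat first | rw [if_pos (by linarith)] | rw [if_neg (by linarith)] | erw [if_pos (by linarith)] | erw [if_neg (by linarith)]); (try push_cast); (try ring1))
theorem txl3 {p c x : ℝ} (h1 : -8 / 25 < p) (h2 : p ≤ -13 / 50) : txg.v p c x = dt76.val (fun p x => kcg.v p x) p c x := by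
  symm
  refine (DT.val_le (by simp only [Cn.rt_v, Cn.ng_v]; push_cast; linarith)).trans ?_
  refine (DT.val_le (by simp only [Cn.rt_v, Cn.ng_v]; push_cast; linarith)).trans ?_
  refine (DT.val_gt (by simp only [Cn.rt_v, Cn.ng_v]; push_cast; linarith)).trans ?_
  refine (DT.val_gt (by simp only [Cn.rt_v, Cn.ng_v]; push_cast; linarith)).trans ?_
  refine (DT.val_le (by simp only [Cn.rt_v, Cn.ng_v]; push_cast; linarith)).trans ?_
  simp only [dt41, DT.val, cloR, sw41, sl41, sv41, txg, txg_4, txg_6, txg_27, txg_30, txg_33, txg_75, txg_116, txg_119, txg_165, txg_225, txg_226, txg_228, txg_230, txg_270, txg_293, txg_336, txg_338, txg_358, txg_398, txg_418]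
  rcases eq_or_lt_of_le h2 with h | h2
  · subst h
    ((try push_cast); (repeat first | rw [if_pos (by linarith)] | rw [if_neg (by linarith)] | erw [if_pos (by linarith)] | erw [if_neg (by linarith)]); (try push_cast); (try ring1))
  · ((try push_cast); (repeat first | rw [if_pos (by linarith)] | rw [if_neg (by linarith)] | erw [if_pos (by linarith)] | erw [if_neg (by linarith)]); (try push_cast); (try ring1))
theorem txl4 {p c x : ℝ} (h1 : -13 / 50 < p) (h2 : p ≤ -1 / 5) : txg.v p c x = dt76.val (fun p x => kcg.v p x) p c x := by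
  symm
  refine (DT.val_le (by simp only [Cn.rt_v, Cn.ng_v]; push_cast; linarith)).trans ?_
  refine (DT.val_le (by simp only [Cn.rt_v, Cn.ng_v]; push_cast; linarith)).trans ?_
  refine (DT.val_gt (by simp only [Cn.rt_v, Cn.ng_v]; push_cast; linarith)).trans ?_
  refine (DT.val_gt (by simp only [Cn.rt_v, Cn.ng_v]; push_cast; linarith)).trans ?_
  refine (DT.val_gt (by simp only [Cn.rt_v, Cn.ng_v]; push_cast; linarith)).trans ?_
  simp only [dt42, DT.val, cloR, sw42, sl42, sv42, txg, txg_4, txg_6, txg_27, txg_30, txg_33, txg_75, txg_116, txg_119, txg_165, txg_225, txg_226, txg_228, txg_230, txg_270, txg_293, txg_336, txg_338, txg_358, txg_398, txg_418]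
  rcases eq_or_lt_of_le h2 with h | h2
  · subst h
    ((try push_cast); (repeat first | rw [if_pos (by linarith)] | rw [if_neg (by linarith)] | erw [if_pos (by linarith)] | erw [if_neg (by linarith)]); (try push_cast); (try ring1))
  · ((try push_cast); (repeat first | rw [if_pos (by linarith)] | rw [if_neg (by linarith)] | erw [if_pos (by linarith)] | erw [if_neg (by linarith)]); (try push_cast); (try ring1))
theorem txl5 {p c x : ℝ} (h1 : -1 / 5 < p) (h2 : p ≤ -4 / 25) : txg.v p c x = dt76.val (fun p x => kcg.v p x) p c x := by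
  symm
  refine (DT.val_le (by simp only [Cn.rt_v, Cn.ng_v]; push_cast; linarith)).trans ?_
  refine (DT.val_gt (by simp only [Cn.rt_v, Cn.ng_v]; push_cast; linarith)).trans ?_
  refine (DT.val_le (by simp only [Cn.rt_v, Cn.ng_v]; push_cast; linarith)).trans ?_
  refine (DT.val_le (by simp only [Cn.rt_v, Cn.ng_v]; push_cast; linarith)).trans ?_
  simp only [dt43, DT.val, cloR, sw43, sl43, sv43, txg, txg_4, txg_6, txg_27, txg_30, txg_33, txg_75, txg_116, txg_119, txg_165, txg_225, txg_226, txg_228, txg_230, txg_270, txg_293, txg_336, txg_338, txg_358, txg_398, txg_418]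
  rcases eq_or_lt_of_le h2 with h | h2
  · subst h
    ((try push_cast); (repeat first | rw [if_pos (by linarith)] | rw [if_neg (by linarith)] | erw [if_pos (by linarith)] | erw [if_neg (by linarith)]); (try push_cast); (try ring1))
  · ((try push_cast); (repeat first | rw [if_pos (by linarith)] | rw [if_neg (by linarith)] | erw [if_pos (by linarith)] | erw [if_neg (by linarith)]); (try push_cast); (try ring1))
theorem txl6 {p c x : ℝ} (h1 : -4 / 25 < p) (h2 : p ≤ -13 / 100) : txg.v p c x = dt76.val (fun p x => kcg.v p x) p c x := by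
  symm
  refine (DT.val_le (by simp only [Cn.rt_v, Cn.ng_v]; push_cast; linarith)).trans ?_
  refine (DT.val_gt (by simp only [Cn.rt_v, Cn.ng_v]; push_cast; linarith)).trans ?_
  refine (DT.val_le (by simp only [Cn.rt_v, Cn.ng_v]; push_cast; linarith)).trans ?_
  refine (DT.val_gt (by simp only [Cn.rt_v, Cn.ng_v]; push_cast; linarith)).trans ?_
  simp only [dt44, DT.val, cloR, sw44, sw44_2, sl44, sl44_2, sv44, sv44_2, txg, txg_4, txg_6, txg_27, txg_30, txg_33, txg_75, txg_116, txg_119, txg_165, txg_225, txg_226, txg_228, txg_230, txg_270, txg_293, txg_336, txg_338, txg_358, txg_398, txg_418]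
  rcases eq_or_lt_of_le h2 with h | h2
  · subst h
    ((try push_cast); (repeat first | rw [if_pos (by linarith)] | rw [if_neg (by linarith)] | erw [if_pos (by linarith)] | erw [if_neg (by linarith)]); (try push_cast); (try ring1))
  · ((try push_cast); (repeat first | rw [if_pos (by linarith)] | rw [if_neg (by linarith)] | erw [if_pos (by linarith)] | erw [if_neg (by linarith)]); (try push_cast); (try ring1))
theorem txl7 {p c x : ℝ} (h1 : -13 / 100 < p) (h2 : p ≤ -13 / 134) : txg.v p c x = dt76.val (fun p x => kcg.v p x) p c x := by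
  symm
  refine (DT.val_le (by simp only [Cn.rt_v, Cn.ng_v]; push_cast; linarith)).trans ?_
  refine (DT.val_gt (by simp only [Cn.rt_v, Cn.ng_v]; push_cast; linarith)).trans ?_
  refine (DT.val_gt (by simp only [Cn.rt_v, Cn.ng_v]; push_cast; linarith)).trans ?_
  refine (DT.val_le (by simp only [Cn.rt_v, Cn.ng_v]; push_cast; linarith)).trans ?_
  simp only [dt45, DT.val, cloR, sw45, sw45_2, sl45, sl45_2, sv45, sv45_2, txg, txg_4, txg_6, txg_27, txg_30, txg_33, txg_75, txg_116, txg_119, txg_165, txg_225, txg_226, txg_228, txg_230, txg_270, txg_293, txg_336, txg_338, txg_358, txg_398, txg_418]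
  rcases eq_or_lt_of_le h2 with h | h2
  · subst h
    ((try push_cast); (repeat first | rw [if_pos (by linarith)] | rw [if_neg (by linarith)] | erw [if_pos (by linarith)] | erw [if_neg (by linarith)]); (try push_cast); (try ring1))
  · ((try push_cast); (repeat first | rw [if_pos (by linarith)] | rw [if_neg (by linarith)] | erw [if_pos (by linarith)] | erw [if_neg (by linarith)]); (try push_cast); (try ring1))
theorem txl8 {p c x : ℝ} (h1 : -13 / 134 < p) (h2 : p ≤ -1 / 97) : txg.v p c x = dt76.val (fun p x => kcg.v p x) p c x := by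
  symm
  refine (DT.val_le (by simp only [Cn.rt_v, Cn.ng_v]; push_cast; linarith)).trans ?_
  refine (DT.val_gt (by simp only [Cn.rt_v, Cn.ng_v]; push_cast; linarith)).trans ?_
  refine (DT.val_gt (by simp only [Cn.rt_v, Cn.ng_v]; push_cast; linarith)).trans ?_
  refine (DT.val_gt (by simp only [Cn.rt_v, Cn.ng_v]; push_cast; linarith)).trans ?_
  refine (DT.val_le (by simp only [Cn.rt_v, Cn.ng_v]; push_cast; linarith)).trans ?_
  simp only [dt46, DT.val, cloR, txg, txg_4, txg_6, txg_27, txg_30, txg_33, txg_75, txg_116, txg_119, txg_165, txg_225, txg_226, txg_228, txg_230, txg_270, txg_293, txg_336, txg_338, txg_358, txg_398, txg_418]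
  rcases eq_or_lt_of_le h2 with h | h2
  · subst h
    ((try push_cast); (repeat first | rw [if_pos (by linarith)] | rw [if_neg (by linarith)] | erw [if_pos (by linarith)] | erw [if_neg (by linarith)]); (try push_cast); (try ring1))
  · ((try push_cast); (repeat first | rw [if_pos (by linarith)] | rw [if_neg (by linarith)] | erw [if_pos (by linarith)] | erw [if_neg (by linarith)]); (try push_cast); (try ring1))
theorem txl9 {p c x : ℝ} (h1 : -1 / 97 < p) (h2 : p ≤ 1 / 100) : txg.v p c x = dt76.val (fun p x => kcg.v p x) p c x := by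
  symm
  refine (DT.val_le (by simp only [Cn.rt_v, Cn.ng_v]; push_cast; linarith)).trans ?_
  refine (DT.val_gt (by simp only [Cn.rt_v, Cn.ng_v]; push_cast; linarith)).trans ?_
  refine (DT.val_gt (by simp only [Cn.rt_v, Cn.ng_v]; push_cast; linarith)).trans ?_
  refine (DT.val_gt (by simp only [Cn.rt_v, Cn.ng_v]; push_cast; linarith)).trans ?_
  refine (DT.val_gt (by simp only [Cn.rt_v, Cn.ng_v]; push_cast; linarith)).trans ?_
  simp only [dt47, DT.val, cloR, sw47, sl47, sv47, txg, txg_4, txg_6, txg_27, txg_30, txg_33, txg_75, txg_116, txg_119, txg_165, txg_225, txg_226, txg_228, txg_230, txg_270, txg_293, txg_336, txg_338, txg_358, txg_398, txg_418]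
  rcases eq_or_lt_of_le h2 with h | h2
  · subst h
    ((try push_cast); (repeat first | rw [if_pos (by linarith)] | rw [if_neg (by linarith)] | erw [if_pos (by linarith)] | erw [if_neg (by linarith)]); (try push_cast); (try ring1))
  · ((try push_cast); (repeat first | rw [if_pos (by linarith)] | rw [if_neg (by linarith)] | erw [if_pos (by linarith)] | erw [if_neg (by linarith)]); (try push_cast); (try ring1))
theorem txl10 {p c x : ℝ} (h1 : 1 / 100 < p) (h2 : p ≤ 1 / 20) : txg.v p c x = dt76.val (fun p x => kcg.v p x) p c x := by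
  symm
  refine (DT.val_gt (by simp only [Cn.rt_v, Cn.ng_v]; push_cast; linarith)).trans ?_
  refine (DT.val_le (by simp only [Cn.rt_v, Cn.ng_v]; push_cast; linarith)).trans ?_
  refine (DT.val_le (by simp only [Cn.rt_v, Cn.ng_v]; push_cast; linarith)).trans ?_
  refine (DT.val_le (by simp only [Cn.rt_v, Cn.ng_v]; push_cast; linarith)).trans ?_
  simp only [dt48, DT.val, cloR, sw48, sl48, sv48, txg, txg_4, txg_6, txg_27, txg_30, txg_33, txg_75, txg_116, txg_119, txg_165, txg_225, txg_226, txg_228, txg_230, txg_270, txg_293, txg_336, txg_338, txg_358, txg_398, txg_418]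
  rcases eq_or_lt_of_le h2 with h | h2
  · subst h
    ((try push_cast); (repeat first | rw [if_pos (by linarith)] | rw [if_neg (by linarith)] | erw [if_pos (by linarith)] | erw [if_neg (by linarith)]); (try push_cast); (try ring1))
  · ((try push_cast); (repeat first | rw [if_pos (by linarith)] | rw [if_neg (by linarith)] | erw [if_pos (by linarith)] | erw [if_neg (by linarith)]); (try push_cast); (try ring1))
theorem txl11 {p c x : ℝ} (h1 : 1 / 20 < p) (h2 : p ≤ 1 / 10) : txg.v p c x = dt76.val (fun p x => kcg.v p x) p c x := by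
  symm
  refine (DT.val_gt (by simp only [Cn.rt_v, Cn.ng_v]; push_cast; linarith)).trans ?_
  refine (DT.val_le (by simp only [Cn.rt_v, Cn.ng_v]; push_cast; linarith)).trans ?_
  refine (DT.val_le (by simp only [Cn.rt_v, Cn.ng_v]; push_cast; linarith)).trans ?_
  refine (DT.val_gt (by simp only [Cn.rt_v, Cn.ng_v]; push_cast; linarith)).trans ?_
  simp only [dt49, DT.val, cloR, sw49, sl49, sv49, txg, txg_4, txg_6, txg_27, txg_30, txg_33, txg_75, txg_116, txg_119, txg_165, txg_225, txg_226, txg_228, txg_230, txg_270, txg_293, txg_336, txg_338, txg_358, txg_398, txg_418]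
  rcases eq_or_lt_of_le h2 with h | h2
  · subst h
    ((try push_cast); (repeat first | rw [if_pos (by linarith)] | rw [if_neg (by linarith)] | erw [if_pos (by linarith)] | erw [if_neg (by linarith)]); (try push_cast); (try ring1))
  · ((try push_cast); (repeat first | rw [if_pos (by linarith)] | rw [if_neg (by linarith)] | erw [if_pos (by linarith)] | erw [if_neg (by linarith)]); (try push_cast); (try ring1))
theorem txl12 {p c x : ℝ} (h1 : 1 / 10 < p) (h2 : p ≤ 3 / 20) : txg.v p c x = dt76.val (fun p x => kcg.v p x) p c x := by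
  symm
  refine (DT.val_gt (by simp only [Cn.rt_v, Cn.ng_v]; push_cast; linarith)).trans ?_
  refine (DT.val_le (by simp only [Cn.rt_v, Cn.ng_v]; push_cast; linarith)).trans ?_
  refine (DT.val_gt (by simp only [Cn.rt_v, Cn.ng_v]; push_cast; linarith)).trans ?_
  refine (DT.val_le (by simp only [Cn.rt_v, Cn.ng_v]; push_cast; linarith)).trans ?_
  simp only [dt50, DT.val, cloR, sw50, sl50, sv50, txg, txg_4, txg_6, txg_27, txg_30, txg_33, txg_75, txg_116, txg_119, txg_165, txg_225, txg_226, txg_228, txg_230, txg_270, txg_293, txg_336, txg_338, txg_358, txg_398, txg_418]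
  rcases eq_or_lt_of_le h2 with h | h2
  · subst h
    ((try push_cast); (repeat first | rw [if_pos (by linarith)] | rw [if_neg (by linarith)] | erw [if_pos (by linarith)] | erw [if_neg (by linarith)]); (try push_cast); (try ring1))
  · ((try push_cast); (repeat first | rw [if_pos (by linarith)] | rw [if_neg (by linarith)] | erw [if_pos (by linarith)] | erw [if_neg (by linarith)]); (try push_cast); (try ring1))
theorem txl13 {p c x : ℝ} (h1 : 3 / 20 < p) (h2 : p ≤ 1 / 5) : txg.v p c x = dt76.val (fun p x => kcg.v p x) p c x := by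
  symm
  refine (DT.val_gt (by simp only [Cn.rt_v, Cn.ng_v]; push_cast; linarith)).trans ?_
  refine (DT.val_le (by simp only [Cn.rt_v, Cn.ng_v]; push_cast; linarith)).trans ?_
  refine (DT.val_gt (by simp only [Cn.rt_v, Cn.ng_v]; push_cast; linarith)).trans ?_
  refine (DT.val_gt (by simp only [Cn.rt_v, Cn.ng_v]; push_cast; linarith)).trans ?_
  refine (DT.val_le (by simp only [Cn.rt_v, Cn.ng_v]; push_cast; linarith)).trans ?_
  simp only [dt51, DT.val, cloR, sw51, sl51, sv51, txg, txg_4, txg_6, txg_27, txg_30, txg_33, txg_75, txg_116, txg_119, txg_165, txg_225, txg_226, txg_228, txg_230, txg_270, txg_293, txg_336, txg_338, txg_358, txg_398, txg_418]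
  rcases eq_or_lt_of_le h2 with h | h2
  · subst h
    ((try push_cast); (repeat first | rw [if_pos (by linarith)] | rw [if_neg (by linarith)] | erw [if_pos (by linarith)] | erw [if_neg (by linarith)]); (try push_cast); (try ring1))
  · ((try push_cast); (repeat first | rw [if_pos (by linarith)] | rw [if_neg (by linarith)] | erw [if_pos (by linarith)] | erw [if_neg (by linarith)]); (try push_cast); (try ring1))
theorem txl14 {p c x : ℝ} (h1 : 1 / 5 < p) (h2 : p ≤ 1 / 4) : txg.v p c x = dt76.val (fun p x => kcg.v p x) p c x := by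
  symm
  refine (DT.val_gt (by simp only [Cn.rt_v, Cn.ng_v]; push_cast; linarith)).trans ?_
  refine (DT.val_le (by simp only [Cn.rt_v, Cn.ng_v]; push_cast; linarith)).trans ?_
  refine (DT.val_gt (by simp only [Cn.rt_v, Cn.ng_v]; push_cast; linarith)).trans ?_
  refine (DT.val_gt (by simp only [Cn.rt_v, Cn.ng_v]; push_cast; linarith)).trans ?_
  refine (DT.val_gt (by simp only [Cn.rt_v, Cn.ng_v]; push_cast; linarith)).trans ?_
  simp only [dt52, DT.val, cloR, sw52, sl52, sv52, txg, txg_4, txg_6, txg_27, txg_30, txg_33, txg_75, txg_116, txg_119, txg_165, txg_225, txg_226, txg_228, txg_230, txg_270, txg_293, txg_336, txg_338, txg_358, txg_398, txg_418]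
  rcases eq_or_lt_of_le h2 with h | h2
  · subst h
    ((try push_cast); (repeat first | rw [if_pos (by linarith)] | rw [if_neg (by linarith)] | erw [if_pos (by linarith)] | erw [if_neg (by linarith)]); (try push_cast); (try ring1))
  · ((try push_cast); (repeat first | rw [if_pos (by linarith)] | rw [if_neg (by linarith)] | erw [if_pos (by linarith)] | erw [if_neg (by linarith)]); (try push_cast); (try ring1))
theorem txl15 {p c x : ℝ} (h1 : 1 / 4 < p) (h2 : p ≤ 3 / 10) : txg.v p c x = dt76.val (fun p x => kcg.v p x) p c x := by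
  symm
  refine (DT.val_gt (by simp only [Cn.rt_v, Cn.ng_v]; push_cast; linarith)).trans ?_
  refine (DT.val_gt (by simp only [Cn.rt_v, Cn.ng_v]; push_cast; linarith)).trans ?_
  refine (DT.val_le (by simp only [Cn.rt_v, Cn.ng_v]; push_cast; linarith)).trans ?_
  refine (DT.val_le (by simp only [Cn.rt_v, Cn.ng_v]; push_cast; linarith)).trans ?_
  simp only [dt53, DT.val, cloR, sw53, sl53, sv53, txg, txg_4, txg_6, txg_27, txg_30, txg_33, txg_75, txg_116, txg_119, txg_165, txg_225, txg_226, txg_228, txg_230, txg_270, txg_293, txg_336, txg_338, txg_358, txg_398, txg_418]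
  rcases eq_or_lt_of_le h2 with h | h2
  · subst h
    ((try push_cast); (repeat first | rw [if_pos (by linarith)] | rw [if_neg (by linarith)] | erw [if_pos (by linarith)] | erw [if_neg (by linarith)]); (try push_cast); (try ring1))
  · ((try push_cast); (repeat first | rw [if_pos (by linarith)] | rw [if_neg (by linarith)] | erw [if_pos (by linarith)] | erw [if_neg (by linarith)]); (try push_cast); (try ring1))
theorem txl16 {p c x : ℝ} (h1 : 3 / 10 < p) (h2 : p ≤ 7 / 20) : txg.v p c x = dt76.val (fun p x => kcg.v p x) p c x := by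
  symm
  refine (DT.val_gt (by simp only [Cn.rt_v, Cn.ng_v]; push_cast; linarith)).trans ?_
  refine (DT.val_gt (by simp only [Cn.rt_v, Cn.ng_v]; push_cast; linarith)).trans ?_
  refine (DT.val_le (by simp only [Cn.rt_v, Cn.ng_v]; push_cast; linarith)).trans ?_
  refine (DT.val_gt (by simp only [Cn.rt_v, Cn.ng_v]; push_cast; linarith)).trans ?_
  simp only [dt54, DT.val, cloR, sw54, sl54, sv54, txg, txg_4, txg_6, txg_27, txg_30, txg_33, txg_75, txg_116, txg_119, txg_165, txg_225, txg_226, txg_228, txg_230, txg_270, txg_293, txg_336, txg_338, txg_358, txg_398, txg_418]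
  rcases eq_or_lt_of_le h2 with h | h2
  · subst h
    ((try push_cast); (repeat first | rw [if_pos (by linarith)] | rw [if_neg (by linarith)] | erw [if_pos (by linarith)] | erw [if_neg (by linarith)]); (try push_cast); (try ring1))
  · ((try push_cast); (repeat first | rw [if_pos (by linarith)] | rw [if_neg (by linarith)] | erw [if_pos (by linarith)] | erw [if_neg (by linarith)]); (try push_cast); (try ring1))
theorem txl17 {p c x : ℝ} (h1 : 7 / 20 < p) (h2 : p ≤ 2 / 5) : txg.v p c x = dt76.val (fun p x => kcg.v p x) p c x := by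
  symm
  refine (DT.val_gt (by simp only [Cn.rt_v, Cn.ng_v]; push_cast; linarith)).trans ?_
  refine (DT.val_gt (by simp only [Cn.rt_v, Cn.ng_v]; push_cast; linarith)).trans ?_
  refine (DT.val_gt (by simp only [Cn.rt_v, Cn.ng_v]; push_cast; linarith)).trans ?_
  refine (DT.val_le (by simp only [Cn.rt_v, Cn.ng_v]; push_cast; linarith)).trans ?_
  simp only [dt55, DT.val, cloR, sw55, sl55, sv55, txg, txg_4, txg_6, txg_27, txg_30, txg_33, txg_75, txg_116, txg_119, txg_165, txg_225, txg_226, txg_228, txg_230, txg_270, txg_293, txg_336, txg_338, txg_358, txg_398, txg_418]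
  rcases eq_or_lt_of_le h2 with h | h2
  · subst h
    ((try push_cast); (repeat first | rw [if_pos (by linarith)] | rw [if_neg (by linarith)] | erw [if_pos (by linarith)] | erw [if_neg (by linarith)]); (try push_cast); (try ring1))
  · ((try push_cast); (repeat first | rw [if_pos (by linarith)] | rw [if_neg (by linarith)] | erw [if_pos (by linarith)] | erw [if_neg (by linarith)]); (try push_cast); (try ring1))
theorem txl18 {p c x : ℝ} (h1 : 2 / 5 < p) (h2 : p ≤ 11 / 25) : txg.v p c x = dt76.val (fun p x => kcg.v p x) p c x := by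
  symm
  refine (DT.val_gt (by simp only [Cn.rt_v, Cn.ng_v]; push_cast; linarith)).trans ?_
  refine (DT.val_gt (by simp only [Cn.rt_v, Cn.ng_v]; push_cast; linarith)).trans ?_
  refine (DT.val_gt (by simp only [Cn.rt_v, Cn.ng_v]; push_cast; linarith)).trans ?_
  refine (DT.val_gt (by simp only [Cn.rt_v, Cn.ng_v]; push_cast; linarith)).trans ?_
  refine (DT.val_le (by simp only [Cn.rt_v, Cn.ng_v]; push_cast; linarith)).trans ?_
  simp only [dt56, DT.val, cloR, sw56, sl56, sv56, txg, txg_4, txg_6, txg_27, txg_30, txg_33, txg_75, txg_116, txg_119, txg_165, txg_225, txg_226, txg_228, txg_230, txg_270, txg_293, txg_336, txg_338, txg_358, txg_398, txg_418]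
  rcases eq_or_lt_of_le h2 with h | h2
  · subst h
    ((try push_cast); (repeat first | rw [if_pos (by linarith)] | rw [if_neg (by linarith)] | erw [if_pos (by linarith)] | erw [if_neg (by linarith)]); (try push_cast); (try ring1))
  · ((try push_cast); (repeat first | rw [if_pos (by linarith)] | rw [if_neg (by linarith)] | erw [if_pos (by linarith)] | erw [if_neg (by linarith)]); (try push_cast); (try ring1))
theorem txl19 {p c x : ℝ} (h1 : 11 / 25 < p) (h2 : p ≤ 1 / 2) : txg.v p c x = dt76.val (fun p x => kcg.v p x) p c x := by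
  symm
  refine (DT.val_gt (by simp only [Cn.rt_v, Cn.ng_v]; push_cast; linarith)).trans ?_
  refine (DT.val_gt (by simp only [Cn.rt_v, Cn.ng_v]; push_cast; linarith)).trans ?_
  refine (DT.val_gt (by simp only [Cn.rt_v, Cn.ng_v]; push_cast; linarith)).trans ?_
  refine (DT.val_gt (by simp only [Cn.rt_v, Cn.ng_v]; push_cast; linarith)).trans ?_
  refine (DT.val_gt (by simp only [Cn.rt_v, Cn.ng_v]; push_cast; linarith)).trans ?_
  simp only [dt57, DT.val, cloR, sw57, sl57, sv57, txg, txg_4, txg_6, txg_27, txg_30, txg_33, txg_75, txg_116, txg_119, txg_165, txg_225, txg_226, txg_228, txg_230, txg_270, txg_293, txg_336, txg_338, txg_358, txg_398, txg_418]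
  rcases eq_or_lt_of_le h2 with h | h2
  · subst h
    ((try push_cast); (repeat first | rw [if_pos (by linarith)] | rw [if_neg (by linarith)] | erw [if_pos (by linarith)] | erw [if_neg (by linarith)]); (try push_cast); (try ring1))
  · ((try push_cast); (repeat first | rw [if_pos (by linarith)] | rw [if_neg (by linarith)] | erw [if_pos (by linarith)] | erw [if_neg (by linarith)]); (try push_cast); (try ring1))
theorem txe {x : ℝ} (p c : ℝ) (h : |p| ≤ 1 / 2) : txg.v p c x = dt76.val (fun p x => kcg.v p x) p c x := by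
  obtain ⟨h1, h2⟩ := abs_le.1 h
  rcases le_or_gt p (-11 / 25) with g0 | g1000
  · exact txl0 (by linarith) g0
  rcases le_or_gt p (-19 / 50) with g1 | g1001
  · exact txl1 g1000 g1
  rcases le_or_gt p (-8 / 25) with g2 | g1002
  · exact txl2 g1001 g2
  rcases le_or_gt p (-13 / 50) with g3 | g1003
  · exact txl3 g1002 g3
  rcases le_or_gt p (-1 / 5) with g4 | g1004
  · exact txl4 g1003 g4
  rcases le_or_gt p (-4 / 25) with g5 | g1005
  · exact txl5 g1004 g5
  rcases le_or_gt p (-13 / 100) with g6 | g1006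
  · exact txl6 g1005 g6
  rcases le_or_gt p (-13 / 134) with g7 | g1007
  · exact txl7 g1006 g7
  rcases le_or_gt p (-1 / 97) with g8 | g1008
  · exact txl8 g1007 g8
  rcases le_or_gt p (1 / 100) with g9 | g1009
  · exact txl9 g1008 g9
  rcases le_or_gt p (1 / 20) with g10 | g1010
  · exact txl10 g1009 g10
  rcases le_or_gt p (1 / 10) with g11 | g1011
  · exact txl11 g1010 g11
  rcases le_or_gt p (3 / 20) with g12 | g1012
  · exact txl12 g1011 g12
  rcases le_or_gt p (1 / 5) with g13 | g1013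
  · exact txl13 g1012 g13
  rcases le_or_gt p (1 / 4) with g14 | g1014
  · exact txl14 g1013 g14
  rcases le_or_gt p (3 / 10) with g15 | g1015
  · exact txl15 g1014 g15
  rcases le_or_gt p (7 / 20) with g16 | g1016
  · exact txl16 g1015 g16
  rcases le_or_gt p (2 / 5) with g17 | g1017
  · exact txl17 g1016 g17
  rcases le_or_gt p (11 / 25) with g18 | g1018
  · exact txl18 g1017 g18
  · exact txl19 g1018 (by linarith)
theorem ta_dt38 (x : ℝ) : dt38.val (fun p x => kcg.v p x) (-1 / 2) (cT (-1 / 2)) x = (0) := by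
  simp only [dt38, DT.val, sw38, sl38, sv38]
  ((try push_cast); ring1)
theorem tb_dt38 (x : ℝ) : dt38.val (fun p x => kcg.v p x) (-11 / 25) (cT (-11 / 25)) x = (841601 / 100000000 + (x - 1047 / 2000) * (38577 / 1000000)) := by
  simp only [dt38, DT.val, sw38, sl38, sv38]
  ((try push_cast); ring1)
theorem ta_dt39 (x : ℝ) : dt39.val (fun p x => kcg.v p x) (-11 / 25) (cT (-11 / 25)) x = (841601 / 100000000 + (x - 1047 / 2000) * (38577 / 1000000)) := by
  simp only [dt39, DT.val, sw39, sl39, sv39]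
  ((try push_cast); ring1)
theorem tb_dt39 (x : ℝ) : dt39.val (fun p x => kcg.v p x) (-19 / 50) (cT (-19 / 50)) x = (65683 / 6250000 + (x - 1047 / 2000) * (225839 / 2500000)) := by
  simp only [dt39, DT.val, sw39, sl39, sv39]
  ((try push_cast); ring1)
theorem ta_dt58 (x : ℝ) : dt58.val (fun p x => kcg.v p x) (-1 / 2) (cT (-1 / 2)) x = (0) :=
  (DT.val_le (by simp only [Cn.rt_v, Cn.ng_v]; norm_num)).trans (ta_dt38 x)
theorem tb_dt58 (x : ℝ) : dt58.val (fun p x => kcg.v p x) (-19 / 50) (cT (-19 / 50)) x = (65683 / 6250000 + (x - 1047 / 2000) * (225839 / 2500000)) :=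
  (DT.val_gt (by simp only [Cn.rt_v, Cn.ng_v]; norm_num)).trans (tb_dt39 x)
theorem ta_dt40 (x : ℝ) : dt40.val (fun p x => kcg.v p x) (-19 / 50) (cT (-19 / 50)) x = (65683 / 6250000 + (x - 1047 / 2000) * (225839 / 2500000)) := by
  simp only [dt40, DT.val, sw40, sl40, sv40]
  ((try push_cast); ring1)
theorem tb_dt40 (x : ℝ) : dt40.val (fun p x => kcg.v p x) (-8 / 25) (cT (-8 / 25)) x = (1119939 / 100000000 + (x - 1047 / 2000) * (663183 / 5000000)) := by
  simp only [dt40, DT.val, sw40, sl40, sv40]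
  ((try push_cast); ring1)
theorem ta_dt41 (x : ℝ) : dt41.val (fun p x => kcg.v p x) (-8 / 25) (cT (-8 / 25)) x = (1119939 / 100000000 + (x - 1047 / 2000) * (663183 / 5000000)) := by
  simp only [dt41, DT.val, sw41, sl41, sv41]
  ((try push_cast); ring1)
theorem tb_dt41 (x : ℝ) : dt41.val (fun p x => kcg.v p x) (-13 / 50) (cT (-13 / 50)) x = (414237 / 20000000 + (x - 1047 / 2000) * (111727 / 1250000)) := by
  simp only [dt41, DT.val, sw41, sl41, sv41]
  ((try push_cast); ring1)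
theorem ta_dt42 (x : ℝ) : dt42.val (fun p x => kcg.v p x) (-13 / 50) (cT (-13 / 50)) x = (414237 / 20000000 + (x - 1047 / 2000) * (111727 / 1250000)) := by
  simp only [dt42, DT.val, sw42, sl42, sv42]
  ((try push_cast); ring1)
theorem tb_dt42 (x : ℝ) : dt42.val (fun p x => kcg.v p x) (-1 / 5) (cT (-1 / 5)) x = (1865823 / 50000000 + (x - 1047 / 2000) * (132539 / 5000000)) := by
  simp only [dt42, DT.val, sw42, sl42, sv42]
  ((try push_cast); ring1)
theorem ta_dt59 (x : ℝ) : dt59.val (fun p x => kcg.v p x) (-8 / 25) (cT (-8 / 25)) x = (1119939 / 100000000 + (x - 1047 / 2000) * (663183 / 5000000)) :=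
  (DT.val_le (by simp only [Cn.rt_v, Cn.ng_v]; norm_num)).trans (ta_dt41 x)
theorem tb_dt59 (x : ℝ) : dt59.val (fun p x => kcg.v p x) (-1 / 5) (cT (-1 / 5)) x = (1865823 / 50000000 + (x - 1047 / 2000) * (132539 / 5000000)) :=
  (DT.val_gt (by simp only [Cn.rt_v, Cn.ng_v]; norm_num)).trans (tb_dt42 x)
theorem ta_dt60 (x : ℝ) : dt60.val (fun p x => kcg.v p x) (-19 / 50) (cT (-19 / 50)) x = (65683 / 6250000 + (x - 1047 / 2000) * (225839 / 2500000)) :=
  (DT.val_le (by simp only [Cn.rt_v, Cn.ng_v]; norm_num)).trans (ta_dt40 x)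
theorem tb_dt60 (x : ℝ) : dt60.val (fun p x => kcg.v p x) (-1 / 5) (cT (-1 / 5)) x = (1865823 / 50000000 + (x - 1047 / 2000) * (132539 / 5000000)) :=
  (DT.val_gt (by simp only [Cn.rt_v, Cn.ng_v]; norm_num)).trans (tb_dt59 x)
theorem ta_dt61 (x : ℝ) : dt61.val (fun p x => kcg.v p x) (-1 / 2) (cT (-1 / 2)) x = (0) :=
  (DT.val_le (by simp only [Cn.rt_v, Cn.ng_v]; norm_num)).trans (ta_dt58 x)
theorem tb_dt61 (x : ℝ) : dt61.val (fun p x => kcg.v p x) (-1 / 5) (cT (-1 / 5)) x = (1865823 / 50000000 + (x - 1047 / 2000) * (132539 / 5000000)) :=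
  (DT.val_gt (by simp only [Cn.rt_v, Cn.ng_v]; norm_num)).trans (tb_dt60 x)
theorem ta_dt43 (x : ℝ) : dt43.val (fun p x => kcg.v p x) (-1 / 5) (cT (-1 / 5)) x = (1865823 / 50000000 + (x - 1047 / 2000) * (132539 / 5000000)) := by
  simp only [dt43, DT.val, sw43, sl43, sv43]
  ((try push_cast); ring1)
theorem tb_dt43 (x : ℝ) : dt43.val (fun p x => kcg.v p x) (-4 / 25) (cT (-4 / 25)) x = (5158381 / 100000000 + (x - 1047 / 2000) * (-1897 / 2000000)) := by
  simp only [dt43, DT.val, sw43, sl43, sv43]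
  ((try push_cast); ring1)
theorem ta_dt44 (x : ℝ) : dt44.val (fun p x => kcg.v p x) (-4 / 25) (cT (-4 / 25)) x = (5158381 / 100000000 + (x - 1047 / 2000) * (-1897 / 2000000)) := by
  simp only [dt44, DT.val, sw44, sw44_2, sl44, sl44_2, sv44, sv44_2]
  ((try push_cast); ring1)
theorem tb_dt44 (x : ℝ) : dt44.val (fun p x => kcg.v p x) (-13 / 100) (cT (-13 / 100)) x = (1563959 / 25000000 + (x - 1047 / 2000) * (-143727 / 10000000)) := by
  simp only [dt44, DT.val, sw44, sw44_2, sl44, sl44_2, sv44, sv44_2]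
  ((try push_cast); ring1)
theorem ta_dt62 (x : ℝ) : dt62.val (fun p x => kcg.v p x) (-1 / 5) (cT (-1 / 5)) x = (1865823 / 50000000 + (x - 1047 / 2000) * (132539 / 5000000)) :=
  (DT.val_le (by simp only [Cn.rt_v, Cn.ng_v]; norm_num)).trans (ta_dt43 x)
theorem tb_dt62 (x : ℝ) : dt62.val (fun p x => kcg.v p x) (-13 / 100) (cT (-13 / 100)) x = (1563959 / 25000000 + (x - 1047 / 2000) * (-143727 / 10000000)) :=
  (DT.val_gt (by simp only [Cn.rt_v, Cn.ng_v]; norm_num)).trans (tb_dt44 x)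
theorem ta_dt45 (x : ℝ) : dt45.val (fun p x => kcg.v p x) (-13 / 100) (cT (-13 / 100)) x = (1563959 / 25000000 + (x - 1047 / 2000) * (-143727 / 10000000)) := by
  simp only [dt45, DT.val, sw45, sw45_2, sl45, sl45_2, sv45, sv45_2]
  ((try push_cast); ring1)
theorem tb_dt45 (x : ℝ) : dt45.val (fun p x => kcg.v p x) (-13 / 134) (61 / 67) x = (3671794418787913 / 50377802500000000 + (x - 1047 / 2000) * (-84183217782011 / 5037780250000000) + (x - 1047 / 2000) ^ 2 * (-2480622039 / 37595375000)) := by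
  simp only [dt45, DT.val, sw45, sw45_2, sl45, sl45_2, sv45, sv45_2]
  ((try push_cast); ring1)
theorem ta_dt46 (x : ℝ) : dt46.val (fun p x => kcg.v p x) (-13 / 134) (61 / 67) x = (3671794418787913 / 50377802500000000 + (x - 1047 / 2000) * (-84183217782011 / 5037780250000000) + (x - 1047 / 2000) ^ 2 * (-2480622039 / 37595375000)) := by
  simp only [dt46, DT.val, cloR, kgA]
  ring1
theorem tb_dt46 (x : ℝ) : dt46.val (fun p x => kcg.v p x) (-1 / 97) (169 / 194) x = (87389283656139 / 912673000000000 + (x - 1047 / 2000) * (-10577379 / 4704500000)) := by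
  simp only [dt46, DT.val, cloR, kgB]
  ring1
theorem ta_dt47 (x : ℝ) : dt47.val (fun p x => kcg.v p x) (-1 / 97) (169 / 194) x = (87389283656139 / 912673000000000 + (x - 1047 / 2000) * (-10577379 / 4704500000)) := by
  simp only [dt47, DT.val, sw47, sl47, sv47]
  ((try push_cast); ring1)
theorem tb_dt47 (x : ℝ) : dt47.val (fun p x => kcg.v p x) (1 / 100) (cT (1 / 100)) x = (392347 / 4000000 + (x - 1047 / 2000) * (411 / 62500)) := by
  simp only [dt47, DT.val, sw47, sl47, sv47]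
  ((try push_cast); ring1)
theorem ta_dt63 (x : ℝ) : dt63.val (fun p x => kcg.v p x) (-13 / 134) (61 / 67) x = (3671794418787913 / 50377802500000000 + (x - 1047 / 2000) * (-84183217782011 / 5037780250000000) + (x - 1047 / 2000) ^ 2 * (-2480622039 / 37595375000)) :=
  (DT.val_le (by simp only [Cn.rt_v, Cn.ng_v]; norm_num)).trans (ta_dt46 x)
theorem tb_dt63 (x : ℝ) : dt63.val (fun p x => kcg.v p x) (1 / 100) (cT (1 / 100)) x = (392347 / 4000000 + (x - 1047 / 2000) * (411 / 62500)) :=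
  (DT.val_gt (by simp only [Cn.rt_v, Cn.ng_v]; norm_num)).trans (tb_dt47 x)
theorem ta_dt64 (x : ℝ) : dt64.val (fun p x => kcg.v p x) (-13 / 100) (cT (-13 / 100)) x = (1563959 / 25000000 + (x - 1047 / 2000) * (-143727 / 10000000)) :=
  (DT.val_le (by simp only [Cn.rt_v, Cn.ng_v]; norm_num)).trans (ta_dt45 x)
theorem tb_dt64 (x : ℝ) : dt64.val (fun p x => kcg.v p x) (1 / 100) (cT (1 / 100)) x = (392347 / 4000000 + (x - 1047 / 2000) * (411 / 62500)) :=
  (DT.val_gt (by simp only [Cn.rt_v, Cn.ng_v]; norm_num)).trans (tb_dt63 x)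
theorem ta_dt65 (x : ℝ) : dt65.val (fun p x => kcg.v p x) (-1 / 5) (cT (-1 / 5)) x = (1865823 / 50000000 + (x - 1047 / 2000) * (132539 / 5000000)) :=
  (DT.val_le (by simp only [Cn.rt_v, Cn.ng_v]; norm_num)).trans (ta_dt62 x)
theorem tb_dt65 (x : ℝ) : dt65.val (fun p x => kcg.v p x) (1 / 100) (cT (1 / 100)) x = (392347 / 4000000 + (x - 1047 / 2000) * (411 / 62500)) :=
  (DT.val_gt (by simp only [Cn.rt_v, Cn.ng_v]; norm_num)).trans (tb_dt64 x)
theorem ta_dt66 (x : ℝ) : dt66.val (fun p x => kcg.v p x) (-1 / 2) (cT (-1 / 2)) x = (0) :=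
  (DT.val_le (by simp only [Cn.rt_v, Cn.ng_v]; norm_num)).trans (ta_dt61 x)
theorem tb_dt66 (x : ℝ) : dt66.val (fun p x => kcg.v p x) (1 / 100) (cT (1 / 100)) x = (392347 / 4000000 + (x - 1047 / 2000) * (411 / 62500)) :=
  (DT.val_gt (by simp only [Cn.rt_v, Cn.ng_v]; norm_num)).trans (tb_dt65 x)
theorem ta_dt48 (x : ℝ) : dt48.val (fun p x => kcg.v p x) (1 / 100) (cT (1 / 100)) x = (392347 / 4000000 + (x - 1047 / 2000) * (411 / 62500)) := by
  simp only [dt48, DT.val, sw48, sl48, sv48]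
  ((try push_cast); ring1)
theorem tb_dt48 (x : ℝ) : dt48.val (fun p x => kcg.v p x) (1 / 20) (cT (1 / 20)) x = (1946073 / 20000000 + (x - 1047 / 2000) * (6559 / 200000)) := by
  simp only [dt48, DT.val, sw48, sl48, sv48]
  ((try push_cast); ring1)
theorem ta_dt49 (x : ℝ) : dt49.val (fun p x => kcg.v p x) (1 / 20) (cT (1 / 20)) x = (1946073 / 20000000 + (x - 1047 / 2000) * (6559 / 200000)) := by
  simp only [dt49, DT.val, sw49, sl49, sv49]
  ((try push_cast); ring1)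
theorem tb_dt49 (x : ℝ) : dt49.val (fun p x => kcg.v p x) (1 / 10) (cT (1 / 10)) x = (9539839 / 100000000 + (x - 1047 / 2000) * (666839 / 10000000)) := by
  simp only [dt49, DT.val, sw49, sl49, sv49]
  ((try push_cast); ring1)
theorem ta_dt67 (x : ℝ) : dt67.val (fun p x => kcg.v p x) (1 / 100) (cT (1 / 100)) x = (392347 / 4000000 + (x - 1047 / 2000) * (411 / 62500)) :=
  (DT.val_le (by simp only [Cn.rt_v, Cn.ng_v]; norm_num)).trans (ta_dt48 x)
theorem tb_dt67 (x : ℝ) : dt67.val (fun p x => kcg.v p x) (1 / 10) (cT (1 / 10)) x = (9539839 / 100000000 + (x - 1047 / 2000) * (666839 / 10000000)) :=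
  (DT.val_gt (by simp only [Cn.rt_v, Cn.ng_v]; norm_num)).trans (tb_dt49 x)
theorem ta_dt50 (x : ℝ) : dt50.val (fun p x => kcg.v p x) (1 / 10) (cT (1 / 10)) x = (9539839 / 100000000 + (x - 1047 / 2000) * (666839 / 10000000)) := by
  simp only [dt50, DT.val, sw50, sl50, sv50]
  ((try push_cast); ring1)
theorem tb_dt50 (x : ℝ) : dt50.val (fun p x => kcg.v p x) (3 / 20) (cT (3 / 20)) x = (2276939 / 25000000 + (x - 1047 / 2000) * (1078339 / 10000000)) := by
  simp only [dt50, DT.val, sw50, sl50, sv50]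
  ((try push_cast); ring1)
theorem ta_dt51 (x : ℝ) : dt51.val (fun p x => kcg.v p x) (3 / 20) (cT (3 / 20)) x = (2276939 / 25000000 + (x - 1047 / 2000) * (1078339 / 10000000)) := by
  simp only [dt51, DT.val, sw51, sl51, sv51]
  ((try push_cast); ring1)
theorem tb_dt51 (x : ℝ) : dt51.val (fun p x => kcg.v p x) (1 / 5) (cT (1 / 5)) x = (8377933 / 100000000 + (x - 1047 / 2000) * (775951 / 5000000)) := by
  simp only [dt51, DT.val, sw51, sl51, sv51]
  ((try push_cast); ring1)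
theorem ta_dt52 (x : ℝ) : dt52.val (fun p x => kcg.v p x) (1 / 5) (cT (1 / 5)) x = (8377933 / 100000000 + (x - 1047 / 2000) * (775951 / 5000000)) := by
  simp only [dt52, DT.val, sw52, sl52, sv52]
  ((try push_cast); ring1)
theorem tb_dt52 (x : ℝ) : dt52.val (fun p x => kcg.v p x) (1 / 4) (cT (1 / 4)) x = (1472129 / 20000000 + (x - 1047 / 2000) * (1972583 / 10000000)) := by
  simp only [dt52, DT.val, sw52, sl52, sv52]
  ((try push_cast); ring1)
theorem ta_dt68 (x : ℝ) : dt68.val (fun p x => kcg.v p x) (3 / 20) (cT (3 / 20)) x = (2276939 / 25000000 + (x - 1047 / 2000) * (1078339 / 10000000)) :=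
  (DT.val_le (by simp only [Cn.rt_v, Cn.ng_v]; norm_num)).trans (ta_dt51 x)
theorem tb_dt68 (x : ℝ) : dt68.val (fun p x => kcg.v p x) (1 / 4) (cT (1 / 4)) x = (1472129 / 20000000 + (x - 1047 / 2000) * (1972583 / 10000000)) :=
  (DT.val_gt (by simp only [Cn.rt_v, Cn.ng_v]; norm_num)).trans (tb_dt52 x)
theorem ta_dt69 (x : ℝ) : dt69.val (fun p x => kcg.v p x) (1 / 10) (cT (1 / 10)) x = (9539839 / 100000000 + (x - 1047 / 2000) * (666839 / 10000000)) :=
  (DT.val_le (by simp only [Cn.rt_v, Cn.ng_v]; norm_num)).trans (ta_dt50 x)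
theorem tb_dt69 (x : ℝ) : dt69.val (fun p x => kcg.v p x) (1 / 4) (cT (1 / 4)) x = (1472129 / 20000000 + (x - 1047 / 2000) * (1972583 / 10000000)) :=
  (DT.val_gt (by simp only [Cn.rt_v, Cn.ng_v]; norm_num)).trans (tb_dt68 x)
theorem ta_dt70 (x : ℝ) : dt70.val (fun p x => kcg.v p x) (1 / 100) (cT (1 / 100)) x = (392347 / 4000000 + (x - 1047 / 2000) * (411 / 62500)) :=
  (DT.val_le (by simp only [Cn.rt_v, Cn.ng_v]; norm_num)).trans (ta_dt67 x)
theorem tb_dt70 (x : ℝ) : dt70.val (fun p x => kcg.v p x) (1 / 4) (cT (1 / 4)) x = (1472129 / 20000000 + (x - 1047 / 2000) * (1972583 / 10000000)) :=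
  (DT.val_gt (by simp only [Cn.rt_v, Cn.ng_v]; norm_num)).trans (tb_dt69 x)
theorem ta_dt53 (x : ℝ) : dt53.val (fun p x => kcg.v p x) (1 / 4) (cT (1 / 4)) x = (1472129 / 20000000 + (x - 1047 / 2000) * (1972583 / 10000000)) := by
  simp only [dt53, DT.val, sw53, sl53, sv53]
  ((try push_cast); ring1)
theorem tb_dt53 (x : ℝ) : dt53.val (fun p x => kcg.v p x) (3 / 10) (cT (3 / 10)) x = (1173269 / 20000000 + (x - 1047 / 2000) * (455501 / 2000000)) := by
  simp only [dt53, DT.val, sw53, sl53, sv53]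
  ((try push_cast); ring1)
theorem ta_dt54 (x : ℝ) : dt54.val (fun p x => kcg.v p x) (3 / 10) (cT (3 / 10)) x = (1173269 / 20000000 + (x - 1047 / 2000) * (455501 / 2000000)) := by
  simp only [dt54, DT.val, sw54, sl54, sv54]
  ((try push_cast); ring1)
theorem tb_dt54 (x : ℝ) : dt54.val (fun p x => kcg.v p x) (7 / 20) (cT (7 / 20)) x = (832589 / 20000000 + (x - 1047 / 2000) * (1109343 / 5000000)) := by
  simp only [dt54, DT.val, sw54, sl54, sv54]
  ((try push_cast); ring1)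
theorem ta_dt71 (x : ℝ) : dt71.val (fun p x => kcg.v p x) (1 / 4) (cT (1 / 4)) x = (1472129 / 20000000 + (x - 1047 / 2000) * (1972583 / 10000000)) :=
  (DT.val_le (by simp only [Cn.rt_v, Cn.ng_v]; norm_num)).trans (ta_dt53 x)
theorem tb_dt71 (x : ℝ) : dt71.val (fun p x => kcg.v p x) (7 / 20) (cT (7 / 20)) x = (832589 / 20000000 + (x - 1047 / 2000) * (1109343 / 5000000)) :=
  (DT.val_gt (by simp only [Cn.rt_v, Cn.ng_v]; norm_num)).trans (tb_dt54 x)
theorem ta_dt55 (x : ℝ) : dt55.val (fun p x => kcg.v p x) (7 / 20) (cT (7 / 20)) x = (832589 / 20000000 + (x - 1047 / 2000) * (1109343 / 5000000)) := by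
  simp only [dt55, DT.val, sw55, sl55, sv55]
  ((try push_cast); ring1)
theorem tb_dt55 (x : ℝ) : dt55.val (fun p x => kcg.v p x) (2 / 5) (cT (2 / 5)) x = (2589643 / 100000000 + (x - 1047 / 2000) * (1779149 / 10000000)) := by
  simp only [dt55, DT.val, sw55, sl55, sv55]
  ((try push_cast); ring1)
theorem ta_dt56 (x : ℝ) : dt56.val (fun p x => kcg.v p x) (2 / 5) (cT (2 / 5)) x = (2589643 / 100000000 + (x - 1047 / 2000) * (1779149 / 10000000)) := by
  simp only [dt56, DT.val, sw56, sl56, sv56]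
  ((try push_cast); ring1)
theorem tb_dt56 (x : ℝ) : dt56.val (fun p x => kcg.v p x) (11 / 25) (cT (11 / 25)) x = (1445737 / 100000000 + (x - 1047 / 2000) * (631831 / 5000000)) := by
  simp only [dt56, DT.val, sw56, sl56, sv56]
  ((try push_cast); ring1)
theorem ta_dt57 (x : ℝ) : dt57.val (fun p x => kcg.v p x) (11 / 25) (cT (11 / 25)) x = (1445737 / 100000000 + (x - 1047 / 2000) * (631831 / 5000000)) := by
  simp only [dt57, DT.val, sw57, sl57, sv57]
  ((try push_cast); ring1)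
theorem tb_dt57 (x : ℝ) : dt57.val (fun p x => kcg.v p x) (1 / 2) (cT (1 / 2)) x = (0) := by
  simp only [dt57, DT.val, sw57, sl57, sv57]
  ((try push_cast); ring1)
theorem ta_dt72 (x : ℝ) : dt72.val (fun p x => kcg.v p x) (2 / 5) (cT (2 / 5)) x = (2589643 / 100000000 + (x - 1047 / 2000) * (1779149 / 10000000)) :=
  (DT.val_le (by simp only [Cn.rt_v, Cn.ng_v]; norm_num)).trans (ta_dt56 x)
theorem tb_dt72 (x : ℝ) : dt72.val (fun p x => kcg.v p x) (1 / 2) (cT (1 / 2)) x = (0) :=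
  (DT.val_gt (by simp only [Cn.rt_v, Cn.ng_v]; norm_num)).trans (tb_dt57 x)
theorem ta_dt73 (x : ℝ) : dt73.val (fun p x => kcg.v p x) (7 / 20) (cT (7 / 20)) x = (832589 / 20000000 + (x - 1047 / 2000) * (1109343 / 5000000)) :=
  (DT.val_le (by simp only [Cn.rt_v, Cn.ng_v]; norm_num)).trans (ta_dt55 x)
theorem tb_dt73 (x : ℝ) : dt73.val (fun p x => kcg.v p x) (1 / 2) (cT (1 / 2)) x = (0) :=
  (DT.val_gt (by simp only [Cn.rt_v, Cn.ng_v]; norm_num)).trans (tb_dt72 x)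
theorem ta_dt74 (x : ℝ) : dt74.val (fun p x => kcg.v p x) (1 / 4) (cT (1 / 4)) x = (1472129 / 20000000 + (x - 1047 / 2000) * (1972583 / 10000000)) :=
  (DT.val_le (by simp only [Cn.rt_v, Cn.ng_v]; norm_num)).trans (ta_dt71 x)
theorem tb_dt74 (x : ℝ) : dt74.val (fun p x => kcg.v p x) (1 / 2) (cT (1 / 2)) x = (0) :=
  (DT.val_gt (by simp only [Cn.rt_v, Cn.ng_v]; norm_num)).trans (tb_dt73 x)
theorem ta_dt75 (x : ℝ) : dt75.val (fun p x => kcg.v p x) (1 / 100) (cT (1 / 100)) x = (392347 / 4000000 + (x - 1047 / 2000) * (411 / 62500)) :=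
  (DT.val_le (by simp only [Cn.rt_v, Cn.ng_v]; norm_num)).trans (ta_dt70 x)
theorem tb_dt75 (x : ℝ) : dt75.val (fun p x => kcg.v p x) (1 / 2) (cT (1 / 2)) x = (0) :=
  (DT.val_gt (by simp only [Cn.rt_v, Cn.ng_v]; norm_num)).trans (tb_dt74 x)
theorem ta_dt76 (x : ℝ) : dt76.val (fun p x => kcg.v p x) (-1 / 2) (cT (-1 / 2)) x = (0) :=
  (DT.val_le (by simp only [Cn.rt_v, Cn.ng_v]; norm_num)).trans (ta_dt66 x)
theorem tb_dt76 (x : ℝ) : dt76.val (fun p x => kcg.v p x) (1 / 2) (cT (1 / 2)) x = (0) :=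
  (DT.val_gt (by simp only [Cn.rt_v, Cn.ng_v]; norm_num)).trans (tb_dt75 x)
theorem to_dt38 (x : ℝ) : dt38.Ok (fun p x => kcg.v p x) x := trivial
theorem to_dt39 (x : ℝ) : dt39.Ok (fun p x => kcg.v p x) x := trivial
theorem to_dt58 (x : ℝ) : dt58.Ok (fun p x => kcg.v p x) x :=
  DT.ok_node (v := -11 / 25) (by simp only [Cn.rt_v, Cn.ng_v]; norm_num) (by rw [abs_le]; constructor <;> norm_num) rfl (tb_dt38 x) (ta_dt39 x) (by ring1) (to_dt38 x) (to_dt39 x)
theorem to_dt40 (x : ℝ) : dt40.Ok (fun p x => kcg.v p x) x := trivial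
theorem to_dt41 (x : ℝ) : dt41.Ok (fun p x => kcg.v p x) x := trivial
theorem to_dt42 (x : ℝ) : dt42.Ok (fun p x => kcg.v p x) x := trivial
theorem to_dt59 (x : ℝ) : dt59.Ok (fun p x => kcg.v p x) x :=
  DT.ok_node (v := -13 / 50) (by simp only [Cn.rt_v, Cn.ng_v]; norm_num) (by rw [abs_le]; constructor <;> norm_num) rfl (tb_dt41 x) (ta_dt42 x) (by ring1) (to_dt41 x) (to_dt42 x)
theorem to_dt60 (x : ℝ) : dt60.Ok (fun p x => kcg.v p x) x :=
  DT.ok_node (v := -8 / 25) (by simp only [Cn.rt_v, Cn.ng_v]; norm_num) (by rw [abs_le]; constructor <;> norm_num) rfl (tb_dt40 x) (ta_dt59 x) (by ring1) (to_dt40 x) (to_dt59 x)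
theorem to_dt61 (x : ℝ) : dt61.Ok (fun p x => kcg.v p x) x :=
  DT.ok_node (v := -19 / 50) (by simp only [Cn.rt_v, Cn.ng_v]; norm_num) (by rw [abs_le]; constructor <;> norm_num) rfl (tb_dt58 x) (ta_dt60 x) (by ring1) (to_dt58 x) (to_dt60 x)
theorem to_dt43 (x : ℝ) : dt43.Ok (fun p x => kcg.v p x) x := trivial
theorem to_dt44 (x : ℝ) : dt44.Ok (fun p x => kcg.v p x) x := trivial
theorem to_dt62 (x : ℝ) : dt62.Ok (fun p x => kcg.v p x) x :=
  DT.ok_node (v := -4 / 25) (by simp only [Cn.rt_v, Cn.ng_v]; norm_num) (by rw [abs_le]; constructor <;> norm_num) rfl (tb_dt43 x) (ta_dt44 x) (by ring1) (to_dt43 x) (to_dt44 x)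
theorem to_dt45 (x : ℝ) : dt45.Ok (fun p x => kcg.v p x) x := trivial
theorem to_dt46 (x : ℝ) : dt46.Ok (fun p x => kcg.v p x) x := trivial
theorem to_dt47 (x : ℝ) : dt47.Ok (fun p x => kcg.v p x) x := trivial
theorem to_dt63 (x : ℝ) : dt63.Ok (fun p x => kcg.v p x) x :=
  DT.ok_node (v := -1 / 97) (by simp only [Cn.rt_v, Cn.ng_v]; norm_num) (by rw [abs_le]; constructor <;> norm_num) ctB (tb_dt46 x) (ta_dt47 x) (by ring1) (to_dt46 x) (to_dt47 x)
theorem to_dt64 (x : ℝ) : dt64.Ok (fun p x => kcg.v p x) x :=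
  DT.ok_node (v := -13 / 134) (by simp only [Cn.rt_v, Cn.ng_v]; norm_num) (by rw [abs_le]; constructor <;> norm_num) ctA (tb_dt45 x) (ta_dt63 x) (by ring1) (to_dt45 x) (to_dt63 x)
theorem to_dt65 (x : ℝ) : dt65.Ok (fun p x => kcg.v p x) x :=
  DT.ok_node (v := -13 / 100) (by simp only [Cn.rt_v, Cn.ng_v]; norm_num) (by rw [abs_le]; constructor <;> norm_num) rfl (tb_dt62 x) (ta_dt64 x) (by ring1) (to_dt62 x) (to_dt64 x)
theorem to_dt66 (x : ℝ) : dt66.Ok (fun p x => kcg.v p x) x :=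
  DT.ok_node (v := -1 / 5) (by simp only [Cn.rt_v, Cn.ng_v]; norm_num) (by rw [abs_le]; constructor <;> norm_num) rfl (tb_dt61 x) (ta_dt65 x) (by ring1) (to_dt61 x) (to_dt65 x)
theorem to_dt48 (x : ℝ) : dt48.Ok (fun p x => kcg.v p x) x := trivial
theorem to_dt49 (x : ℝ) : dt49.Ok (fun p x => kcg.v p x) x := trivial
theorem to_dt67 (x : ℝ) : dt67.Ok (fun p x => kcg.v p x) x :=
  DT.ok_node (v := 1 / 20) (by simp only [Cn.rt_v, Cn.ng_v]; norm_num) (by rw [abs_le]; constructor <;> norm_num) rfl (tb_dt48 x) (ta_dt49 x) (by ring1) (to_dt48 x) (to_dt49 x)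
theorem to_dt50 (x : ℝ) : dt50.Ok (fun p x => kcg.v p x) x := trivial
theorem to_dt51 (x : ℝ) : dt51.Ok (fun p x => kcg.v p x) x := trivial
theorem to_dt52 (x : ℝ) : dt52.Ok (fun p x => kcg.v p x) x := trivial
theorem to_dt68 (x : ℝ) : dt68.Ok (fun p x => kcg.v p x) x :=
  DT.ok_node (v := 1 / 5) (by simp only [Cn.rt_v, Cn.ng_v]; norm_num) (by rw [abs_le]; constructor <;> norm_num) rfl (tb_dt51 x) (ta_dt52 x) (by ring1) (to_dt51 x) (to_dt52 x)
theorem to_dt69 (x : ℝ) : dt69.Ok (fun p x => kcg.v p x) x :=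
  DT.ok_node (v := 3 / 20) (by simp only [Cn.rt_v, Cn.ng_v]; norm_num) (by rw [abs_le]; constructor <;> norm_num) rfl (tb_dt50 x) (ta_dt68 x) (by ring1) (to_dt50 x) (to_dt68 x)
theorem to_dt70 (x : ℝ) : dt70.Ok (fun p x => kcg.v p x) x :=
  DT.ok_node (v := 1 / 10) (by simp only [Cn.rt_v, Cn.ng_v]; norm_num) (by rw [abs_le]; constructor <;> norm_num) rfl (tb_dt67 x) (ta_dt69 x) (by ring1) (to_dt67 x) (to_dt69 x)
theorem to_dt53 (x : ℝ) : dt53.Ok (fun p x => kcg.v p x) x := trivial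
theorem to_dt54 (x : ℝ) : dt54.Ok (fun p x => kcg.v p x) x := trivial
theorem to_dt71 (x : ℝ) : dt71.Ok (fun p x => kcg.v p x) x :=
  DT.ok_node (v := 3 / 10) (by simp only [Cn.rt_v, Cn.ng_v]; norm_num) (by rw [abs_le]; constructor <;> norm_num) rfl (tb_dt53 x) (ta_dt54 x) (by ring1) (to_dt53 x) (to_dt54 x)
theorem to_dt55 (x : ℝ) : dt55.Ok (fun p x => kcg.v p x) x := trivial
theorem to_dt56 (x : ℝ) : dt56.Ok (fun p x => kcg.v p x) x := trivial
theorem to_dt57 (x : ℝ) : dt57.Ok (fun p x => kcg.v p x) x := trivial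
theorem to_dt72 (x : ℝ) : dt72.Ok (fun p x => kcg.v p x) x :=
  DT.ok_node (v := 11 / 25) (by simp only [Cn.rt_v, Cn.ng_v]; norm_num) (by rw [abs_le]; constructor <;> norm_num) rfl (tb_dt56 x) (ta_dt57 x) (by ring1) (to_dt56 x) (to_dt57 x)
theorem to_dt73 (x : ℝ) : dt73.Ok (fun p x => kcg.v p x) x :=
  DT.ok_node (v := 2 / 5) (by simp only [Cn.rt_v, Cn.ng_v]; norm_num) (by rw [abs_le]; constructor <;> norm_num) rfl (tb_dt55 x) (ta_dt72 x) (by ring1) (to_dt55 x) (to_dt72 x)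
theorem to_dt74 (x : ℝ) : dt74.Ok (fun p x => kcg.v p x) x :=
  DT.ok_node (v := 7 / 20) (by simp only [Cn.rt_v, Cn.ng_v]; norm_num) (by rw [abs_le]; constructor <;> norm_num) rfl (tb_dt71 x) (ta_dt73 x) (by ring1) (to_dt71 x) (to_dt73 x)
theorem to_dt75 (x : ℝ) : dt75.Ok (fun p x => kcg.v p x) x :=
  DT.ok_node (v := 1 / 4) (by simp only [Cn.rt_v, Cn.ng_v]; norm_num) (by rw [abs_le]; constructor <;> norm_num) rfl (tb_dt70 x) (ta_dt74 x) (by ring1) (to_dt70 x) (to_dt74 x)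
theorem to_dt76 (x : ℝ) : dt76.Ok (fun p x => kcg.v p x) x :=
  DT.ok_node (v := 1 / 100) (by simp only [Cn.rt_v, Cn.ng_v]; norm_num) (by rw [abs_le]; constructor <;> norm_num) rfl (tb_dt66 x) (ta_dt75 x) (by ring1) (to_dt66 x) (to_dt75 x)
theorem dok (x : ℝ) : dd.Ok x := ⟨ko_dt37 x, fun p h => kfe h, to_dt76 x⟩
theorem K0_ (x : ℝ) : ∀ q y, OnC (0 : Fin 7) q y → TightK (tyO q) q (fun p => dd.kf.v p x) (c1n y) y (tK 0 q y x) := by
  refine K0_of (R := fun q y => tK 0 q y x) (kc := fun p => kcg.v p x) ?_ ?_ ?_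
  · intro y h
    show tK 0 0 y x = _
    ·
      rw [← (atB00 h).K]
      show kf0q0.v y x = _
      simp only [kf0q0, kf0q0_9, kf0q0_12, c1g_v]
      ((try push_cast); (try simp only [mul_inv]); (try ring_nf))
  · intro y h
    show tK 0 1 y x = _
    ·
      rw [← (atB01 h).K]
      show kf0q1.v y x = _
      simp only [kf0q1, kf0q1_10, c1g_v]
      ((try push_cast); (try simp only [mul_inv]); (try ring_nf))
  · intro y h
    show tK 0 2 y x = _
    ·
      have ey := yag_v h.1.nonneg (h.2 rfl)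
      rw [← (atB02 h).K]
      show kfc02.v (c1n y) x = _
      simp only [kfc02, c1g_v, ey]
      ((try push_cast); (try simp only [mul_inv]); (try ring_nf))
theorem L0_ (x : ℝ) : ∀ q y, OnC (0 : Fin 7) q y → TightL (tyO q) (fun p c => dd.TX.val dd.kf.v p c x) (c1n y) y (tL 0 q y x) := by
  refine L0_of (R := fun q y => tL 0 q y x) (tx := fun p c => txg.v p c x) txe ?_ ?_ ?_
  · intro y h
    show tL 0 0 y x = _
    ·
      rw [← (atB00 h).L]
      show l0q0.v y x = _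
      simp only [l0q0, c1g_v]
      ((try push_cast); (try simp only [mul_inv]); (try ring_nf))
  · intro y h
    show tL 0 1 y x = _
    ·
      rw [← (atB01 h).L]
      show l0q1.v y x = _
      simp only [l0q1, c1g_v]
      ((try push_cast); (try simp only [mul_inv]); (try ring_nf))
  · intro y h
    show tL 0 2 y x = _
    ·
      have ey := yag_v h.1.nonneg (h.2 rfl)
      rw [← (atB02 h).L]
      show lc02.v (c1n y) x = _
      simp only [lc02, lc02_7, lc02_8, c1g_v, ey]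
      ((try push_cast); (try simp only [mul_inv]); (try ring_nf))
theorem Kn_ (x : ℝ) : ∀ q y, InQ q y → TightK (tyN q) q (fun p => dd.kf.v p x) (c3n y) y (tK (Fin.last 6) q y x) := by
  refine Kn_of (R := fun q y => tK 6 q y x) (kc := fun p => kcg.v p x) ?_ ?_ ?_ ?_
  · intro y h
    show tK 6 0 y x = _
    ·
      rw [← (atB60 (onc h (by decide))).K]
      show kf6q0.v y x = _
      simp only [kf6q0, c3g_v]
      ((try push_cast); (try simp only [mul_inv]); (try ring_nf))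
  · intro y h
    show tK 6 1 y x = _
    ·
      rw [← (atB61 (onc h (by decide))).K]
      show kf6q1.v y x = _
      simp only [kf6q1, c3g_v]
      ((try push_cast); (try simp only [mul_inv]); (try ring_nf))
  · intro y h
    show tK 6 2 y x = _
    ·
      rw [← (atB62 (onc h (by decide))).K]
      show kf6q2.v y x = _
      simp only [kf6q2, c3g_v]
      ((try push_cast); (try simp only [mul_inv]); (try ring_nf))
  · intro y h
    show tK 6 3 y x = _
    ·
      have ey := ycg_v h.nonneg h.le_two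
      rw [← (atB63 (onc h (by decide))).K]
      show kfc63.v (c3n y) x = _
      simp only [kfc63, c3g_v, ey]
      ((try push_cast); (try simp only [mul_inv]); (try ring_nf))
theorem Ln_ (x : ℝ) : ∀ q y, InQ q y → TightL (tyN q) (fun p c => dd.TX.val dd.kf.v p c x) (c3n y) y (tL (Fin.last 6) q y x) := by
  refine Ln_of (R := fun q y => tL 6 q y x) (tx := fun p c => txg.v p c x) txe ?_ ?_ ?_ ?_
  · intro y h
    show tL 6 0 y x = _
    ·
      rw [← (atB60 (onc h (by decide))).L]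
      show l6q0.v y x = _
      simp only [l6q0, l6q0_6, l6q0_7, l6q0_8, c3g_v]
      ((try push_cast); (try simp only [mul_inv]); (try ring_nf))
  · intro y h
    show tL 6 1 y x = _
    ·
      rw [← (atB61 (onc h (by decide))).L]
      show l6q1.v y x = _
      simp only [l6q1, l6q1_7, l6q1_8, l6q1_9, c3g_v]
      ((try push_cast); (try simp only [mul_inv]); (try ring_nf))
  · intro y h
    show tL 6 2 y x = _
    ·
      rw [← (atB62 (onc h (by decide))).L]
      show l6q2.v y x = _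
      simp only [l6q2, l6q2_7, l6q2_8, l6q2_9, l6q2_12, l6q2_14, c3g_v]
      ((try push_cast); (try simp only [mul_inv]); (try ring_nf))
  · intro y h
    show tL 6 3 y x = _
    ·
      have ey := ycg_v h.nonneg h.le_two
      rw [← (atB63 (onc h (by decide))).L]
      show lc63.v (c3n y) x = _
      simp only [lc63, lc63_7, lc63_8, lc63_9, lc63_12, lc63_14, c3g_v, ey]
      ((try push_cast); (try simp only [mul_inv]); (try ring_nf))
theorem f0_ : ∀ q y, InQ q y → (ff q).f.v y = crv PP 1 q y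
  | 0, y, _ => ecv1q0.symm
  | 1, y, _ => ecv1q1.symm
  | 2, y, _ => ecv1q2.symm
  | 3, y, h => (ecv1q3 h.1).symm
theorem fn_ : ∀ q y, InQ q y → (fl q).f.v y = crv PP 5 q y
  | 0, y, _ => ecv5q0.symm
  | 1, y, _ => ecv5q1.symm
  | 2, y, _ => ecv5q2.symm
  | 3, y, h => (ecv5q3 h.1).symm
theorem yK00 {y x : ℝ} (h : OnC (0 : Fin 7) 0 y) : tK 0 0 y x = kf0q0.v y x := (atB00 h).K.symm
theorem yK10 {y x : ℝ} (h : InQ 0 y) : tK 1 0 y x = kf1q0.v y x := (atB10 (onc h (by decide))).K.symm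
theorem yK01 {y x : ℝ} (h : OnC (0 : Fin 7) 1 y) : tK 0 1 y x = kf0q1.v y x := (atB01 h).K.symm
theorem yK11 {y x : ℝ} (h : InQ 1 y) : tK 1 1 y x = kf1q1.v y x := (atB11 (onc h (by decide))).K.symm
theorem yK02 {y x : ℝ} (h : OnC (0 : Fin 7) 2 y) : tK 0 2 y x = kf0q2.v y x := by
  rw [← (atB02 h).K]
  show kfc02.v (c1n y) x = _
  have ey := yag_v h.1.nonneg (h.2 rfl)
  simp only [kfc02, kf0q2, ey, c1g_v, c3g_v, swg_v]
  ((try push_cast); (try ring_nf))
theorem yK12 {y x : ℝ} (h : InQ 2 y) : tK 1 2 y x = kf1q2.v y x := (atB12 (onc h (by decide))).K.symm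
theorem yK60 {y x : ℝ} (h : InQ 0 y) : tK 6 0 y x = kf6q0.v y x := (atB60 (onc h (by decide))).K.symm
theorem yK50 {y x : ℝ} (h : InQ 0 y) : tK 5 0 y x = kf5q0.v y x := (atB50 (onc h (by decide))).K.symm
theorem yK61 {y x : ℝ} (h : InQ 1 y) : tK 6 1 y x = kf6q1.v y x := (atB61 (onc h (by decide))).K.symm
theorem yK51 {y x : ℝ} (h : InQ 1 y) : tK 5 1 y x = kf5q1.v y x := (atB51 (onc h (by decide))).K.symm
theorem yK62 {y x : ℝ} (h : InQ 2 y) : tK 6 2 y x = kf6q2.v y x := (atB62 (onc h (by decide))).K.symm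
theorem yK52 {y x : ℝ} (h : InQ 2 y) : tK 5 2 y x = kf5q2.v y x := (atB52 (onc h (by decide))).K.symm
theorem yK63 {y x : ℝ} (h : InQ 3 y) : tK 6 3 y x = kf6q3.v y x := by
  rw [← (atB63 (onc h (by decide))).K]
  show kfc63.v (c3n y) x = _
  have ey := ycg_v h.nonneg h.le_two
  simp only [kfc63, kf6q3, ey, c1g_v, c3g_v, swg_v]
  ((try push_cast); (try ring_nf))
theorem yK53 {y x : ℝ} (h : InQ 3 y) : tK 5 3 y x = kf5q3.v y x := by
  rw [← (atB53 (onc h (by decide))).K]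
  show kfc53.v (c3n y) x = _
  have ey := ycg_v h.nonneg h.le_two
  simp only [kfc53, kfc53_11, kf5q3, kf5q3_4, cv5r, ey, c1g_v, c3g_v, swg_v]
  ((try push_cast); (try ring_nf))
theorem yL00 {y x : ℝ} (h : OnC (0 : Fin 7) 0 y) : tL 0 0 y x = l0q0.v y x := (atB00 h).L.symm
theorem yL10 {y x : ℝ} (h : InQ 0 y) : tL 1 0 y x = l1q0.v y x := (atB10 (onc h (by decide))).L.symm
theorem yL01 {y x : ℝ} (h : OnC (0 : Fin 7) 1 y) : tL 0 1 y x = l0q1.v y x := (atB01 h).L.symm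
theorem yL11 {y x : ℝ} (h : InQ 1 y) : tL 1 1 y x = l1q1.v y x := (atB11 (onc h (by decide))).L.symm
theorem yL02 {y x : ℝ} (h : OnC (0 : Fin 7) 2 y) : tL 0 2 y x = l0q2.v y x := by
  rw [← (atB02 h).L]
  show lc02.v (c1n y) x = _
  have ey := yag_v h.1.nonneg (h.2 rfl)
  simp only [lc02, lc02_7, lc02_8, l0q2, l0q2_7, l0q2_8, ey, c1g_v, c3g_v, swg_v]
  ((try push_cast); (try ring_nf))
theorem yL12 {y x : ℝ} (h : InQ 2 y) : tL 1 2 y x = l1q2.v y x := (atB12 (onc h (by decide))).L.symm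
theorem yL60 {y x : ℝ} (h : InQ 0 y) : tL 6 0 y x = l6q0.v y x := (atB60 (onc h (by decide))).L.symm
theorem yL50 {y x : ℝ} (h : InQ 0 y) : tL 5 0 y x = l5q0.v y x := (atB50 (onc h (by decide))).L.symm
theorem yL61 {y x : ℝ} (h : InQ 1 y) : tL 6 1 y x = l6q1.v y x := (atB61 (onc h (by decide))).L.symm
theorem yL51 {y x : ℝ} (h : InQ 1 y) : tL 5 1 y x = l5q1.v y x := (atB51 (onc h (by decide))).L.symm
theorem yL62 {y x : ℝ} (h : InQ 2 y) : tL 6 2 y x = l6q2.v y x := (atB62 (onc h (by decide))).L.symm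
theorem yL52 {y x : ℝ} (h : InQ 2 y) : tL 5 2 y x = l5q2.v y x := (atB52 (onc h (by decide))).L.symm
theorem yL63 {y x : ℝ} (h : InQ 3 y) : tL 6 3 y x = l6q3.v y x := by
  rw [← (atB63 (onc h (by decide))).L]
  show lc63.v (c3n y) x = _
  have ey := ycg_v h.nonneg h.le_two
  simp only [lc63, lc63_7, lc63_8, lc63_9, lc63_12, lc63_14, l6q3, l6q3_7, l6q3_8, l6q3_9, l6q3_12, l6q3_14, ey, c1g_v, c3g_v, swg_v]
  ((try push_cast); (try ring_nf))
theorem yL53 {y x : ℝ} (h : InQ 3 y) : tL 5 3 y x = l5q3.v y x := by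
  rw [← (atB53 (onc h (by decide))).L]
  show lc53.v (c3n y) x = _
  have ey := ycg_v h.nonneg h.le_two
  simp only [lc53, lc53_11, l5q3, l5q3_4, cv5r, ey, c1g_v, c3g_v, swg_v]
  ((try push_cast); (try ring_nf))
theorem sK0_ (x : ℝ) : ∀ q y, OnC (0 : Fin 7) q y → c1n y < crv PP 1 q y →
    (ff q).SK.v y x * (crv PP 1 q y - c1n y) = tK 1 q y x - tK 0 q y x := by
  intro q y h hlt
  rcases onC_q h with rfl | rfl | rfl
  · rw [yK10 h.1, yK00 h]
    rw [ecv1q0, ← c1g_v] at hlt ⊢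
    have hd : 0 < cv1m.v y - c1g.v y := sub_pos.2 hlt
    have hi := inv_mul_cancel₀ hd.ne'
    show skf0.v y x * _ = _
    simp only [skf0, kf1q0]
    (try push_cast)
    linear_combination (c1g.v y * bf1q0.v y x - kf0q0.v y x) * hi
  · rw [yK11 h.1, yK01 h]
    rw [ecv1q1, ← c1g_v] at hlt ⊢
    have hd : 0 < cv1m.v y - c1g.v y := sub_pos.2 hlt
    have hi := inv_mul_cancel₀ hd.ne'
    show skf1.v y x * _ = _
    simp only [skf1, kf1q1]
    (try push_cast)
    linear_combination (c1g.v y * bf1q1.v y x - kf0q1.v y x) * hi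
  · rw [yK12 h.1, yK02 h]
    rw [ecv1q2, ← c1g_v] at hlt ⊢
    have hd : 0 < cv1p.v y - c1g.v y := sub_pos.2 hlt
    have hi := inv_mul_cancel₀ hd.ne'
    have hB : kf1q2.v y x = cv1p.v y * bf1q2.v y x := by
      simp only [kf1q2, kf1q2_4, kf1q2_9, bf1q2, bf1q2_3, bf1q2_8]
    have hb : |c1g.v y| ≤ 1 / 2 := by rw [c1g_v]; exact bnd_O h
    have eo := odd (x := x) hb
    show skf2.v y x * _ = _
    simp only [skf2, hB, kf0q2, eo]
    (try push_cast)
    linear_combination (c1g.v y * (bf1q2.v y x - 1) + (y - 1) * kcg.v (c1g.v y) x) * hi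
theorem sX0_ (x : ℝ) : ∀ q y, OnC (0 : Fin 7) q y → c1n y < crv PP 1 q y →
    (ff q).SX.v y x * (crv PP 1 q y - c1n y) = tL 1 q y x - tL 0 q y x := by
  intro q y h hlt
  rcases onC_q h with rfl | rfl | rfl
  · rw [yL10 h.1, yL00 h]
    rw [ecv1q0, ← c1g_v] at hlt ⊢
    have hd : 0 < cv1m.v y - c1g.v y := sub_pos.2 hlt
    have hi := inv_mul_cancel₀ hd.ne'
    show sxf0.v y x * _ = _
    simp only [sxf0]
    (try push_cast)
    linear_combination (l1q0.v y x - l0q0.v y x) * hi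
  · rw [yL11 h.1, yL01 h]
    rw [ecv1q1, ← c1g_v] at hlt ⊢
    have hd : 0 < cv1m.v y - c1g.v y := sub_pos.2 hlt
    have hi := inv_mul_cancel₀ hd.ne'
    show sxf1.v y x * _ = _
    simp only [sxf1]
    (try push_cast)
    linear_combination (l1q1.v y x - l0q1.v y x) * hi
  · rw [yL12 h.1, yL02 h]
    rw [ecv1q2, ← c1g_v] at hlt ⊢
    have hd : 0 < cv1p.v y - c1g.v y := sub_pos.2 hlt
    have hi := inv_mul_cancel₀ hd.ne'
    show sxf2.v y x * _ = _
    simp only [sxf2]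
    (try push_cast)
    linear_combination (l1q2.v y x - l0q2.v y x) * hi
theorem sKn_ (x : ℝ) : ∀ q y, InQ q y → crv PP 5 q y < c3n y →
    (fl q).SK.v y x * (c3n y - crv PP 5 q y) = tK 6 q y x - tK 5 q y x := by
  intro q y h hlt
  match q, h with
  | 0, h =>
    rw [yK60 h, yK50 h]
    rw [ecv5q0, ← c3g_v] at hlt ⊢
    have hd : 0 < c3g.v y - cv5m.v y := sub_pos.2 hlt
    have hi := inv_mul_cancel₀ hd.ne'
    show skl0.v y x * _ = _
    simp only [skl0, kf5q0]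
    (try push_cast)
    linear_combination (kf6q0.v y x - c3g.v y * bf5q0.v y x) * hi
  | 1, h =>
    rw [yK61 h, yK51 h]
    rw [ecv5q1, ← c3g_v] at hlt ⊢
    have hd : 0 < c3g.v y - cv5m.v y := sub_pos.2 hlt
    have hi := inv_mul_cancel₀ hd.ne'
    show skl1.v y x * _ = _
    simp only [skl1, kf5q1]
    (try push_cast)
    linear_combination (kf6q1.v y x - c3g.v y * bf5q1.v y x) * hi
  | 2, h =>
    rw [yK62 h, yK52 h]
    rw [ecv5q2, ← c3g_v] at hlt ⊢
    have hd : 0 < c3g.v y - cv5p.v y := sub_pos.2 hlt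
    have hi := inv_mul_cancel₀ hd.ne'
    show skl2.v y x * _ = _
    simp only [skl2, kf5q2]
    (try push_cast)
    linear_combination (kf6q2.v y x - c3g.v y * bf5q2.v y x) * hi
  | 3, h =>
    rw [yK63 h, yK53 h]
    rw [ecv5q3 h.1, ← c3g_v] at hlt ⊢
    have hd : 0 < c3g.v y - cv5r.v y := sub_pos.2 hlt
    have hi := inv_mul_cancel₀ hd.ne'
    have hB : kf5q3.v y x = cv5r.v y * bf5q3.v y x := by
      simp only [kf5q3, kf5q3_4, bf5q3, bf5q3_3]
    show skl3.v y x * _ = _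
    simp only [skl3, hB]
    (try push_cast)
    linear_combination (kf6q3.v y x - c3g.v y * bf5q3.v y x) * hi
theorem sXn_ (x : ℝ) : ∀ q y, InQ q y → crv PP 5 q y < c3n y →
    (fl q).SX.v y x * (c3n y - crv PP 5 q y) = tL 6 q y x - tL 5 q y x := by
  intro q y h hlt
  match q, h with
  | 0, h =>
    rw [yL60 h, yL50 h]
    rw [ecv5q0, ← c3g_v] at hlt ⊢
    have hd : 0 < c3g.v y - cv5m.v y := sub_pos.2 hlt
    have hi := inv_mul_cancel₀ hd.ne'
    show sxl0.v y x * _ = _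
    simp only [sxl0]
    (try push_cast)
    linear_combination (l6q0.v y x - l5q0.v y x) * hi
  | 1, h =>
    rw [yL61 h, yL51 h]
    rw [ecv5q1, ← c3g_v] at hlt ⊢
    have hd : 0 < c3g.v y - cv5m.v y := sub_pos.2 hlt
    have hi := inv_mul_cancel₀ hd.ne'
    show sxl1.v y x * _ = _
    simp only [sxl1]
    (try push_cast)
    linear_combination (l6q1.v y x - l5q1.v y x) * hi
  | 2, h =>
    rw [yL62 h, yL52 h]
    rw [ecv5q2, ← c3g_v] at hlt ⊢
    have hd : 0 < c3g.v y - cv5p.v y := sub_pos.2 hlt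
    have hi := inv_mul_cancel₀ hd.ne'
    show sxl2.v y x * _ = _
    simp only [sxl2]
    (try push_cast)
    linear_combination (l6q2.v y x - l5q2.v y x) * hi
  | 3, h =>
    rw [yL63 h, yL53 h]
    rw [ecv5q3 h.1, ← c3g_v] at hlt ⊢
    have hd : 0 < c3g.v y - cv5r.v y := sub_pos.2 hlt
    have hi := inv_mul_cancel₀ hd.ne'
    show sxl3.v y x * _ = _
    simp only [sxl3]
    (try push_cast)
    linear_combination (l6q3.v y x - l5q3.v y x) * hi
theorem kn_ (x : ℝ) : ∀ X, |X| ≤ vv.k1.v → kcg.v (-X) x = -(k0c.v x * X) := by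
  intro X h
  have h : |X| ≤ 1 / 100 := by
    refine h.trans_eq ?_
    show (Cn.rt 1 100).v = _
    rw [Cn.rt_v]
    norm_num
  obtain ⟨h1, h2⟩ := abs_le.1 h
  rw [kcl9 (p := -X) (by linarith) (by linarith)]
  simp only [k0c]
  push_cast
  ring
theorem tvm {p x : ℝ} (h1 : -1 / 97 ≤ p) (h2 : p ≤ 1 / 100) : dt76.val (fun p x => kcg.v p x) p (cT p) x = (180767812387189 / 1853573000000000 + (x - 1047 / 2000) * (54060117 / 47772500000)) + (4198367113859 / 37071460000000 + (x - 1047 / 2000) * (1307165529 / 2985781250)) * p + (-1139469 / 200000 + (x - 1047 / 2000) * (66651 / 6250)) * p ^ 2 := by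
  rcases eq_or_lt_of_le h1 with h | h1
  · subst h
    rw [ctB]
    refine (DT.val_le (by simp only [Cn.rt_v, Cn.ng_v]; push_cast; linarith)).trans ?_
    refine (DT.val_gt (by simp only [Cn.rt_v, Cn.ng_v]; push_cast; linarith)).trans ?_
    refine (DT.val_gt (by simp only [Cn.rt_v, Cn.ng_v]; push_cast; linarith)).trans ?_
    refine (DT.val_gt (by simp only [Cn.rt_v, Cn.ng_v]; push_cast; linarith)).trans ?_
    refine (DT.val_le (by simp only [Cn.rt_v, Cn.ng_v]; push_cast; linarith)).trans ?_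
    exact (tb_dt46 x).trans (by ring1)
  ·
    refine (DT.val_le (by simp only [Cn.rt_v, Cn.ng_v]; push_cast; linarith)).trans ?_
    refine (DT.val_gt (by simp only [Cn.rt_v, Cn.ng_v]; push_cast; linarith)).trans ?_
    refine (DT.val_gt (by simp only [Cn.rt_v, Cn.ng_v]; push_cast; linarith)).trans ?_
    refine (DT.val_gt (by simp only [Cn.rt_v, Cn.ng_v]; push_cast; linarith)).trans ?_
    refine (DT.val_gt (by simp only [Cn.rt_v, Cn.ng_v]; push_cast; linarith)).trans ?_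
    simp only [dt47, DT.val, sw47, sl47, sv47]
    ((try push_cast); ring1)
theorem tn_ (x : ℝ) : ∀ X, |X| ≤ vv.k1.v → dd.tF x (-X) - dd.tF x X = m0c.v x * X := by
  intro X h
  have h : |X| ≤ 1 / 100 := by
    refine h.trans_eq ?_
    show (Cn.rt 1 100).v = _
    rw [Cn.rt_v]
    norm_num
  obtain ⟨h1, h2⟩ := abs_le.1 h
  show dt76.val (fun p x => kcg.v p x) (-X) (cT (-X)) x - dt76.val (fun p x => kcg.v p x) X (cT X) x = _
  rw [tvm (p := -X) (by linarith) (by linarith), tvm (p := X) (by linarith) (by linarith)]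
  simp only [m0c]
  push_cast
  ring
theorem vK_ (x : ℝ) : ∀ y, InQ 2 y → tK 1 2 y x = crv PP 1 2 y * bf1q2.v y x := by
  intro y h
  rw [yK12 h, ecv1q2]
  simp only [kf1q2, kf1q2_4, kf1q2_9, bf1q2, bf1q2_3, bf1q2_8]
theorem vX_ (x : ℝ) : ∀ y, InQ 2 y → tL 1 2 y x = crv PP 1 2 y * bx1q2.v y x := by
  intro y h
  rw [yL12 h, ecv1q2]
  simp only [l1q2, l1q2_4, l1q2_11, bx1q2, bx1q2_3, bx1q2_10]
theorem n0_rK (y x : ℝ) : n0b.v y x = (1 - (y - 1) * k0c.v x) := by
  simp only [n0b, k0c]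
  all_goals (try push_cast)
  all_goals (try ring)
theorem rK_ (x : ℝ) : ∀ y, OnC (0 : Fin 7) 2 y → c1n y < crv PP 1 2 y →
    rhk.v y x * (crv PP 1 2 y - c1n y) = crv PP 1 2 y * (bf1q2.v y x - (1 - (y - 1) * k0c.v x)) := by
  intro y h hlt
  rw [ecv1q2, ← c1g_v] at hlt ⊢
  have hd : 0 < cv1p.v y - c1g.v y := sub_pos.2 hlt
  have hi := inv_mul_cancel₀ hd.ne'
  rw [← n0_rK]
  simp only [rhk]
  linear_combination ((bf1q2.v y x - n0b.v y x) * cv1p.v y) * hi
theorem n0_rX (y x : ℝ) : n0x.v y x = m0c.v x := by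
  simp only [n0x, m0c]
  all_goals (try push_cast)
  all_goals (try ring)
theorem rX_ (x : ℝ) : ∀ y, OnC (0 : Fin 7) 2 y → c1n y < crv PP 1 2 y →
    rhx.v y x * (crv PP 1 2 y - c1n y) = crv PP 1 2 y * (bx1q2.v y x - m0c.v x) := by
  intro y h hlt
  rw [ecv1q2, ← c1g_v] at hlt ⊢
  have hd : 0 < cv1p.v y - c1g.v y := sub_pos.2 hlt
  have hi := inv_mul_cancel₀ hd.ne'
  rw [← n0_rX]
  simp only [rhx]
  linear_combination ((bx1q2.v y x - n0x.v y x) * cv1p.v y) * hi
theorem flat_ (x : ℝ) : ∀ y, InQ 2 y → vv.ya.v ≤ y → y ≤ vv.yb.v → bf1q2.v y x = 1 - (y - 1) * k0c.v x ∧ bx1q2.v y x = m0c.v x := by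
  intro y h h1 h2
  have ea : vv.ya.v = 115471 / 100000 := by
    show (Cn.rt 115471 100000).v = _
    rw [Cn.rt_v]
    norm_num
  have eb : vv.yb.v = 231 / 200 := by
    show (Cn.rt 231 200).v = _
    rw [Cn.rt_v]
    norm_num
  rw [ea] at h1
  rw [eb] at h2
  have hy2 : 4 / 3 ≤ y ^ 2 := by nlinarith
  constructor
  · simp only [bf1q2, bf1q2_3, bf1q2_8, k0c]
    rcases eq_or_lt_of_le h1 with g | h1
    · subst g
      ((try push_cast); (repeat first | rw [if_pos (by linarith)] | rw [if_neg (by linarith)] | erw [if_pos (by linarith)] | erw [if_neg (by linarith)]); (try push_cast); (try ring1))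
    rcases eq_or_lt_of_le h2 with g | h2
    · subst g
      ((try push_cast); (repeat first | rw [if_pos (by linarith)] | rw [if_neg (by linarith)] | erw [if_pos (by linarith)] | erw [if_neg (by linarith)]); (try push_cast); (try ring1))
    · ((try push_cast); (repeat first | rw [if_pos (by linarith)] | rw [if_neg (by linarith)] | erw [if_pos (by linarith)] | erw [if_neg (by linarith)]); (try push_cast); (try ring1))
  · simp only [bx1q2, bx1q2_3, bx1q2_10, m0c]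
    rcases eq_or_lt_of_le h1 with g | h1
    · subst g
      ((try push_cast); (repeat first | rw [if_pos (by linarith)] | rw [if_neg (by linarith)] | erw [if_pos (by linarith)] | erw [if_neg (by linarith)]); (try push_cast); (try ring1))
    rcases eq_or_lt_of_le h2 with g | h2
    · subst g
      ((try push_cast); (repeat first | rw [if_pos (by linarith)] | rw [if_neg (by linarith)] | erw [if_pos (by linarith)] | erw [if_neg (by linarith)]); (try push_cast); (try ring1))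
    · ((try push_cast); (repeat first | rw [if_pos (by linarith)] | rw [if_neg (by linarith)] | erw [if_pos (by linarith)] | erw [if_neg (by linarith)]); (try push_cast); (try ring1))
theorem abk_ (x : ℝ) : ∀ y, InQ 2 y → vv.yb.v ≤ y → y ≤ vv.yk.v → bf1q2.v y x = 1 - (y - 1) * k0c.v x + sbk.v x * (y - vv.yb.v) ∧
    bx1q2.v y x = m0c.v x + sbx.v x * (y - vv.yb.v) := by
  intro y h h1 h2
  have eb : vv.yb.v = 231 / 200 := by
    show (Cn.rt 231 200).v = _
    rw [Cn.rt_v]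
    norm_num
  have ek : vv.yk.v = 127 / 100 := by
    show (Cn.rt 127 100).v = _
    rw [Cn.rt_v]
    norm_num
  rw [eb] at h1 ⊢
  rw [ek] at h2
  have hy2 : 4 / 3 ≤ y ^ 2 := by nlinarith
  constructor
  · simp only [bf1q2, bf1q2_3, bf1q2_8, k0c, sbk]
    rcases eq_or_lt_of_le h1 with g | h1
    · subst g
      ((try push_cast); (repeat first | rw [if_pos (by linarith)] | rw [if_neg (by linarith)] | erw [if_pos (by linarith)] | erw [if_neg (by linarith)]); (try push_cast); (try ring1))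
    rcases eq_or_lt_of_le h2 with g | h2
    · subst g
      ((try push_cast); (repeat first | rw [if_pos (by linarith)] | rw [if_neg (by linarith)] | erw [if_pos (by linarith)] | erw [if_neg (by linarith)]); (try push_cast); (try ring1))
    · ((try push_cast); (repeat first | rw [if_pos (by linarith)] | rw [if_neg (by linarith)] | erw [if_pos (by linarith)] | erw [if_neg (by linarith)]); (try push_cast); (try ring1))
  · simp only [bx1q2, bx1q2_3, bx1q2_10, m0c, sbx]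
    rcases eq_or_lt_of_le h1 with g | h1
    · subst g
      ((try push_cast); (repeat first | rw [if_pos (by linarith)] | rw [if_neg (by linarith)] | erw [if_pos (by linarith)] | erw [if_neg (by linarith)]); (try push_cast); (try ring1))
    rcases eq_or_lt_of_le h2 with g | h2
    · subst g
      ((try push_cast); (repeat first | rw [if_pos (by linarith)] | rw [if_neg (by linarith)] | erw [if_pos (by linarith)] | erw [if_neg (by linarith)]); (try push_cast); (try ring1))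
    · ((try push_cast); (repeat first | rw [if_pos (by linarith)] | rw [if_neg (by linarith)] | erw [if_pos (by linarith)] | erw [if_neg (by linarith)]); (try push_cast); (try ring1))
theorem ka_dt77 (x : ℝ) : dt77.kv (-1 / 97) x = (179773457823 / 359593162000000000 + (x - 1047 / 2000) * (-187139853 / 185357300000000)) := by
  simp only [dt77, DT.kv, sw77, sl77, sv77]
  ((try push_cast); ring1)
theorem kb_dt77 (x : ℝ) : dt77.kv (-1 / 100) x = (0) := by
  simp only [dt77, DT.kv, sw77, sl77, sv77]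
  ((try push_cast); ring1)
theorem ka_dt78 (x : ℝ) : dt78.kv (-1 / 100) x = (0) := by
  simp only [dt78, DT.kv, sl78, sv78]
  ((try push_cast); ring1)
theorem kb_dt78 (x : ℝ) : dt78.kv (1 / 100) x = (0) := by
  simp only [dt78, DT.kv, sl78, sv78]
  ((try push_cast); ring1)
theorem ka_dt79 (x : ℝ) : dt79.kv (1 / 100) x = (0) := by
  simp only [dt79, DT.kv, sw79, sl79, sv79]
  ((try push_cast); ring1)
theorem kb_dt79 (x : ℝ) : dt79.kv (1 / 97) x = (-179773457823 / 359593162000000000 + (x - 1047 / 2000) * (187139853 / 185357300000000)) := by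
  simp only [dt79, DT.kv, sw79, sl79, sv79]
  ((try push_cast); ring1)
theorem ka_dt80 (x : ℝ) : dt80.kv (-1 / 100) x = (0) :=
  (DT.kv_le (by simp only [Cn.rt_v, Cn.ng_v]; norm_num)).trans (ka_dt78 x)
theorem kb_dt80 (x : ℝ) : dt80.kv (1 / 97) x = (-179773457823 / 359593162000000000 + (x - 1047 / 2000) * (187139853 / 185357300000000)) :=
  (DT.kv_gt (by simp only [Cn.rt_v, Cn.ng_v]; norm_num)).trans (kb_dt79 x)
theorem ka_dt81 (x : ℝ) : dt81.kv (-1 / 97) x = (179773457823 / 359593162000000000 + (x - 1047 / 2000) * (-187139853 / 185357300000000)) :=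
  (DT.kv_le (by simp only [Cn.rt_v, Cn.ng_v]; norm_num)).trans (ka_dt77 x)
theorem kb_dt81 (x : ℝ) : dt81.kv (1 / 97) x = (-179773457823 / 359593162000000000 + (x - 1047 / 2000) * (187139853 / 185357300000000)) :=
  (DT.kv_gt (by simp only [Cn.rt_v, Cn.ng_v]; norm_num)).trans (kb_dt80 x)
theorem ko_dt77 (x : ℝ) : dt77.KOk x := trivial
theorem ko_dt78 (x : ℝ) : dt78.KOk x := trivial
theorem ko_dt79 (x : ℝ) : dt79.KOk x := trivial
theorem ko_dt80 (x : ℝ) : dt80.KOk x :=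
  DT.kOk_node (v := 1 / 100) (by simp only [Cn.rt_v, Cn.ng_v]; norm_num) (kb_dt78 x) (ka_dt79 x) (by ring1) (ko_dt78 x) (ko_dt79 x)
theorem ko_dt81 (x : ℝ) : dt81.KOk x :=
  DT.kOk_node (v := -1 / 100) (by simp only [Cn.rt_v, Cn.ng_v]; norm_num) (kb_dt77 x) (ka_dt80 x) (by ring1) (ko_dt77 x) (ko_dt80 x)
theorem phl0 {p x : ℝ} (h2 : p ≤ -1 / 100) : dt81.kv p x = (1937082196779 / 3707146000000000 + (x - 1047 / 2000) * (-2016813209 / 1910900000000)) + (19370893395087 / 185357300000000 + (x - 1047 / 2000) * (-20168152871 / 95545000000)) * p + (653163 / 125000 + (x - 1047 / 2000) * (-263857 / 25000)) * p ^ 2 := by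
  refine (DT.kv_le (by simp only [Cn.rt_v, Cn.ng_v]; push_cast; linarith)).trans ?_
  simp only [dt77, DT.kv, sw77, sl77, sv77]
  ((try push_cast); ring1)
theorem phl1 {p x : ℝ} (h1 : -1 / 100 < p) (h2 : p ≤ 1 / 100) : dt81.kv p x = (0) + (0) * p := by
  refine (DT.kv_gt (by simp only [Cn.rt_v, Cn.ng_v]; push_cast; linarith)).trans ?_
  refine (DT.kv_le (by simp only [Cn.rt_v, Cn.ng_v]; push_cast; linarith)).trans ?_
  simp only [dt78, DT.kv, sl78, sv78]
  ((try push_cast); ring1)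
theorem phl2 {p x : ℝ} (h1 : 1 / 100 < p) (h2 : p ≤ 1 / 97) : dt81.kv p x = (-1937082196779 / 3707146000000000 + (x - 1047 / 2000) * (2016813209 / 1910900000000)) + (19370893395087 / 185357300000000 + (x - 1047 / 2000) * (-20168152871 / 95545000000)) * p + (-653163 / 125000 + (x - 1047 / 2000) * (263857 / 25000)) * p ^ 2 := by
  refine (DT.kv_gt (by simp only [Cn.rt_v, Cn.ng_v]; push_cast; linarith)).trans ?_
  refine (DT.kv_gt (by simp only [Cn.rt_v, Cn.ng_v]; push_cast; linarith)).trans ?_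
  simp only [dt79, DT.kv, sw79, sl79, sv79]
  ((try push_cast); ring1)
theorem tvc9 {p x : ℝ} (h1 : -1 / 97 ≤ p) (h2 : p ≤ 1 / 100) : dt76.val (fun p x => kcg.v p x) p (cT p) x = (180767812387189 / 1853573000000000 + (x - 1047 / 2000) * (54060117 / 47772500000)) + (4198367113859 / 37071460000000 + (x - 1047 / 2000) * (1307165529 / 2985781250)) * p + (-1139469 / 200000 + (x - 1047 / 2000) * (66651 / 6250)) * p ^ 2 := by
  rcases eq_or_lt_of_le h1 with h | h1
  · subst h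
    rw [ctB]
    refine (DT.val_le (by simp only [Cn.rt_v, Cn.ng_v]; push_cast; linarith)).trans ?_
    refine (DT.val_gt (by simp only [Cn.rt_v, Cn.ng_v]; push_cast; linarith)).trans ?_
    refine (DT.val_gt (by simp only [Cn.rt_v, Cn.ng_v]; push_cast; linarith)).trans ?_
    refine (DT.val_gt (by simp only [Cn.rt_v, Cn.ng_v]; push_cast; linarith)).trans ?_
    refine (DT.val_le (by simp only [Cn.rt_v, Cn.ng_v]; push_cast; linarith)).trans ?_
    exact (tb_dt46 x).trans (by ring1)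
  ·
    refine (DT.val_le (by simp only [Cn.rt_v, Cn.ng_v]; push_cast; linarith)).trans ?_
    refine (DT.val_gt (by simp only [Cn.rt_v, Cn.ng_v]; push_cast; linarith)).trans ?_
    refine (DT.val_gt (by simp only [Cn.rt_v, Cn.ng_v]; push_cast; linarith)).trans ?_
    refine (DT.val_gt (by simp only [Cn.rt_v, Cn.ng_v]; push_cast; linarith)).trans ?_
    refine (DT.val_gt (by simp only [Cn.rt_v, Cn.ng_v]; push_cast; linarith)).trans ?_
    simp only [dt47, DT.val, sw47, sl47, sv47]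
    ((try push_cast); ring1)
theorem tvc10 {p x : ℝ} (h1 : 1 / 100 ≤ p) (h2 : p ≤ 1 / 20) : dt76.val (fun p x => kcg.v p x) p (cT p) x = (196093009 / 2000000000 + (x - 1047 / 2000) * (7619 / 100000000)) + (3416 / 390625 + (x - 1047 / 2000) * (3244411 / 5000000)) * p + (-472041 / 1000000 + (x - 1047 / 2000) * (2747 / 25000)) * p ^ 2 := by
  rcases eq_or_lt_of_le h1 with h | h1
  · subst h
    refine (DT.val_le (by simp only [Cn.rt_v, Cn.ng_v]; push_cast; linarith)).trans ?_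
    refine (DT.val_gt (by simp only [Cn.rt_v, Cn.ng_v]; push_cast; linarith)).trans ?_
    refine (DT.val_gt (by simp only [Cn.rt_v, Cn.ng_v]; push_cast; linarith)).trans ?_
    refine (DT.val_gt (by simp only [Cn.rt_v, Cn.ng_v]; push_cast; linarith)).trans ?_
    refine (DT.val_gt (by simp only [Cn.rt_v, Cn.ng_v]; push_cast; linarith)).trans ?_
    simp only [dt47, DT.val, sw47, sl47, sv47]
    ((try push_cast); ring1)
  ·
    refine (DT.val_gt (by simp only [Cn.rt_v, Cn.ng_v]; push_cast; linarith)).trans ?_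
    refine (DT.val_le (by simp only [Cn.rt_v, Cn.ng_v]; push_cast; linarith)).trans ?_
    refine (DT.val_le (by simp only [Cn.rt_v, Cn.ng_v]; push_cast; linarith)).trans ?_
    refine (DT.val_le (by simp only [Cn.rt_v, Cn.ng_v]; push_cast; linarith)).trans ?_
    simp only [dt48, DT.val, sw48, sl48, sv48]
    ((try push_cast); ring1)
theorem ph_ (x : ℝ) : ∀ u, |u| ≤ vv.k2.v → dd.tF x (-u) - dd.tF x u = m0c.v x * u + dt81.kv u x := by
  intro u h
  have h : |u| ≤ 1 / 97 := by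
    refine h.trans_eq ?_
    show (Cn.rt 1 97).v = _
    rw [Cn.rt_v]
    norm_num
  obtain ⟨h1, h2⟩ := abs_le.1 h
  show dt76.val (fun p x => kcg.v p x) (-u) (cT (-u)) x - dt76.val (fun p x => kcg.v p x) u (cT u) x = _
  rcases le_or_gt u (-1 / 100) with g0 | g1000
  ·
    rw [tvc10 (p := -u) (by linarith) (by linarith), tvc9 (p := u) (by linarith) (by linarith), phl0 g0]
    simp only [m0c]
    push_cast
    ring
  rcases le_or_gt u (1 / 100) with g1 | g1001
  ·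
    rw [tvc9 (p := -u) (by linarith) (by linarith), tvc9 (p := u) (by linarith) (by linarith), phl1 g1000 g1]
    simp only [m0c]
    push_cast
    ring
  ·
    rw [tvc9 (p := -u) (by linarith) (by linarith), tvc10 (p := u) (by linarith) (by linarith), phl2 g1001 (by linarith)]
    simp only [m0c]
    push_cast
    ring
theorem kqf_ {y : ℝ} (x : ℝ) (h : OnC (0 : Fin 7) 2 y) : kqf.v y x * c1g.v y = (y - 1) * kcg.v (c1g.v y) x := by
  have h0 : 0 ≤ c1g.v y := by rw [c1g_v]; exact c1n_nn y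
  simp only [kqf]
  (try push_cast)
  split_ifs with hh
  · rw [kcl9 (p := c1g.v y) (by linarith) (by linarith)]
    ring
  · have hc : c1g.v y ≠ 0 := by
      intro e
      rw [e] at hh
      exact hh (by norm_num)
    have hi := inv_mul_cancel₀ hc
    linear_combination ((y - 1) * kcg.v (c1g.v y) x) * hi
theorem sM_ (x : ℝ) : ∀ y, OnC (0 : Fin 7) 2 y → c1n y < crv PP 1 2 y →
    (1 + skm.v y x) * (crv PP 1 2 y - c1n y) = tK 1 2 y x - tK 0 2 y x := by
  intro y h hlt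
  rw [yK12 h.1, yK02 h]
  rw [ecv1q2, ← c1g_v] at hlt ⊢
  have hd : 0 < cv1p.v y - c1g.v y := sub_pos.2 hlt
  have hi := inv_mul_cancel₀ hd.ne'
  have hb : |c1g.v y| ≤ 1 / 2 := by rw [c1g_v]; exact bnd_O h
  have eo := odd (x := x) hb
  have hk := kqf_ x h
  have hB : kf1q2.v y x = cv1p.v y * bf1q2.v y x := by
    simp only [kf1q2, kf1q2_4, kf1q2_9, bf1q2, bf1q2_3, bf1q2_8]
  simp only [skm, hB, kf0q2, eo]
  (try push_cast)
  linear_combination (cv1p.v y * ((bf1q2.v y x - 1) + kqf.v y x)) * hi + hk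
theorem ok (x : ℝ) : tt.Ok PP tK tL x where
  i0 := rfl
  il := rfl
  rl := by
    show 1 < PP.ρ 5
    have e : PP.ρ 5 = 17 / 10 := rfl
    rw [e]
    norm_num
  ok := dok x
  kh := rfl
  odd := fun p h => odd h
  K0 := K0_ x
  L0 := L0_ x
  Kn := Kn_ x
  Ln := Ln_ x
  f0 := f0_
  fn := fn_
  sK0 := sK0_ x
  sX0 := sX0_ x
  sKn := sKn_ x
  sXn := sXn_ x
  k1 := by
    show 0 ≤ (Cn.rt 1 100).v ∧ (Cn.rt 1 100).v ≤ 1 / 2
    rw [Cn.rt_v]
    constructor <;> norm_num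
  kn := kn_ x
  tn := tn_ x
  vK := vK_ x
  vX := vX_ x
  rK := rK_ x
  rX := rX_ x
  yb := by
    show 0 ≤ (Cn.rt 231 200).v ∧ 1 ≤ 3 / 4 * (Cn.rt 231 200).v ^ 2
    rw [Cn.rt_v]
    constructor <;> norm_num
  flat := flat_ x
  abk := abk_ x
  phk := ko_dt81 x
  ph := ph_ x
  sM := sM_ x
  yz := by
    show (Cn.rt 115471 100000).v ≤ (Cn.rt 115471 100000).v ∧ 0 ≤ (Cn.rt 115471 100000).v ∧ 1 ≤ 3 / 4 * (Cn.rt 115471 100000).v ^ 2 + (Cn.rt 1 100).v ^ 2
    simp only [Cn.rt_v]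
    refine ⟨?_, ?_, ?_⟩ <;> norm_num
theorem yK22_ {y x : ℝ} (h : InQ 2 y) : tK 2 2 y x = kf2q2.v y x := (atB22 (onc h (by decide))).K.symm
theorem yL22_ {y x : ℝ} (h : InQ 2 y) : tL 2 2 y x = l2q2.v y x := (atB22 (onc h (by decide))).L.symm
theorem fr_ : ∀ y, InQ 2 y → crv PP 1 2 y = c1n y + ww.FR.v y := by
  intro y h
  rw [ecv1q2, ← c1g_v]
  show _ = c1g.v y + frw.v y
  simp only [cv1p, frw]
  push_cast
  ring
theorem f2_ : ∀ y, InQ 2 y → ww.f2.v y = crv PP 2 2 y := fun _ _ => ecv2q2.symm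
theorem b1_ (x : ℝ) : ∀ y, InQ 2 y → y ≤ vv.yb.v → c1n y ≤ ww.c2.v → bf1q2.v y x = 1 - (y - 1) * k0c.v x + q1k.v x * c1n y ∧
    bx1q2.v y x = m0c.v x + q1x.v x * c1n y := by
  intro y h h1 h2
  have eb : vv.yb.v = 231 / 200 := by
    show (Cn.rt 231 200).v = _
    rw [Cn.rt_v]
    norm_num
  have ec2 : ww.c2.v = 1 / 20 := by
    show (Cn.rt 1 20).v = _
    rw [Cn.rt_v]
    norm_num
  rw [eb] at h1
  rw [ec2] at h2
  have hcv : c1g.v y ≤ 1 / 20 := by
    rw [c1g_v]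
    linarith
  rcases lt_or_ge (3 / 4 * y ^ 2) 1 with ht | ht
  · rw [← c1g_v]
    constructor
    · simp only [bf1q2, bf1q2_3, bf1q2_8, k0c, q1k]
      (try push_cast)
      (repeat first | rw [if_pos (by linarith)] | rw [if_neg (by linarith)])
      (try push_cast)
      ring1
    · simp only [bx1q2, bx1q2_3, bx1q2_10, m0c, q1x]
      (try push_cast)
      (repeat first | rw [if_pos (by linarith)] | rw [if_neg (by linarith)])
      (try push_cast)
      ring1
  · have hz : c1n y = 0 := by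
      unfold c1n
      exact Real.sqrt_eq_zero_of_nonpos (by linarith)
    rw [hz]
    constructor
    · simp only [bf1q2, bf1q2_3, bf1q2_8, k0c, q1k]
      (try push_cast)
      (repeat first | rw [if_pos (by linarith)] | rw [if_neg (by linarith)])
      (try push_cast)
      ring1
    · simp only [bx1q2, bx1q2_3, bx1q2_10, m0c, q1x]
      (try push_cast)
      (repeat first | rw [if_pos (by linarith)] | rw [if_neg (by linarith)])
      (try push_cast)
      ring1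
theorem a2_ (x : ℝ) : ∀ y, InQ 2 y → 3 / 4 * y ^ 2 < 1 → c1n y ≤ ww.c2.v →
    tK 2 2 y x = crv PP 2 2 y * (a2k0.v x + a2k1.v x * c1n y) ∧
    tL 2 2 y x = crv PP 2 2 y * (a2x0.v x + a2x1.v x * c1n y) := by
  intro y h ht h2
  have ec2 : ww.c2.v = 1 / 20 := by
    show (Cn.rt 1 20).v = _
    rw [Cn.rt_v]
    norm_num
  rw [ec2] at h2
  have hcv : c1g.v y ≤ 1 / 20 := by
    rw [c1g_v]
    linarith
  rw [yK22_ h, yL22_ h, ecv2q2, ← c1g_v]
  constructor
  · simp only [kf2q2, kf2q2_4, a2k0, a2k1]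
    (try push_cast)
    (repeat first | rw [if_pos (by linarith)] | rw [if_neg (by linarith)])
    (try push_cast)
    ring1
  · simp only [l2q2, l2q2_4, a2x0, a2x1]
    (try push_cast)
    (repeat first | rw [if_pos (by linarith)] | rw [if_neg (by linarith)])
    (try push_cast)
    ring1
theorem b2_ (x : ℝ) : ∀ y, InQ 2 y → 1 ≤ 3 / 4 * y ^ 2 → y ≤ vv.yb.v →
    tK 2 2 y x = crv PP 2 2 y * (b2k0.v x + b2k1.v x * (y - ww.y2.v)) ∧
    tL 2 2 y x = crv PP 2 2 y * (b2x0.v x + b2x1.v x * (y - ww.y2.v)) := by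
  intro y h ht h2
  have eb : vv.yb.v = 231 / 200 := by
    show (Cn.rt 231 200).v = _
    rw [Cn.rt_v]
    norm_num
  have ey2 : ww.y2.v = 577 / 500 := by
    show (Cn.rt 577 500).v = _
    rw [Cn.rt_v]
    norm_num
  rw [eb] at h2
  rw [ey2, yK22_ h, yL22_ h, ecv2q2]
  constructor
  · simp only [kf2q2, kf2q2_4, b2k0, b2k1]
    (try push_cast)
    (repeat first | rw [if_pos (by linarith)] | rw [if_neg (by linarith)])
    (try push_cast)
    ring1
  · simp only [l2q2, l2q2_4, b2x0, b2x1]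
    (try push_cast)
    (repeat first | rw [if_pos (by linarith)] | rw [if_neg (by linarith)])
    (try push_cast)
    ring1
theorem ecv1pA {y : ℝ} (h1 : 23093 / 20000 < y) (h2 : 3 / 4 * y ^ 2 < 1) : cv1p.v y = cv1pA.v (c1g.v y) y := by
  simp only [cv1p, cv1pA]
  all_goals (first | rfl | ring)
theorem ecv2pA {y : ℝ} (h1 : 23093 / 20000 < y) (h2 : 3 / 4 * y ^ 2 < 1) : cv2p.v y = cv2pA.v (c1g.v y) y := by
  simp only [cv2p, cv2pA]
  all_goals (first | rfl | ring)
theorem ecv3pA {y : ℝ} (h1 : 23093 / 20000 < y) (h2 : 3 / 4 * y ^ 2 < 1) : cv3p.v y = cv3pA.v (c1g.v y) y := by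
  simp only [cv3p, cv3pA]
  all_goals (first | rfl | ring)
theorem ekf4q2A {y a2 : ℝ} (h1 : 23093 / 20000 < y) (h2 : 3 / 4 * y ^ 2 < 1) : kf4q2.v y a2 = kf4q2A.v (c1g.v y) y a2 := by
  have ht : ¬ (((1 : ℕ) : ℝ) - ((3 : ℕ) : ℝ) / ((4 : ℕ) : ℝ) * y ^ 2 ≤ 0) := by
    push_cast
    linarith
  simp only [kf4q2, kf4q2_4, kf4q2_8, kf4q2_9, kf4q2_10, kf4q2_11, kf4q2_188, kf4q2A, kf4q2A_4, kf4q2A_8, kf4q2A_9, kf4q2A_10, kf4q2A_11, kf4q2A_138, if_neg ht, ecv3pA h1 h2]
  all_goals (first | rfl | ring)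
theorem elm3pA {a1 y : ℝ} (h1 : 23093 / 20000 < y) (h2 : 3 / 4 * y ^ 2 < 1) : lm3p.v a1 y = lm3pA.v a1 (c1g.v y) y := by
  simp only [lm3p, lm3pA, ecv3pA h1 h2]
  all_goals (first | rfl | ring)
theorem ebf3q2A {y a2 : ℝ} (h1 : 23093 / 20000 < y) (h2 : 3 / 4 * y ^ 2 < 1) : bf3q2.v y a2 = bf3q2A.v (c1g.v y) y a2 := by
  have ht : ¬ (((1 : ℕ) : ℝ) - ((3 : ℕ) : ℝ) / ((4 : ℕ) : ℝ) * y ^ 2 ≤ 0) := by
    push_cast
    linarith
  simp only [bf3q2, bf3q2_3, bf3q2A, bf3q2A_3, if_neg ht]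
  all_goals (first | rfl | ring)
theorem ekf3q2A {y a2 : ℝ} (h1 : 23093 / 20000 < y) (h2 : 3 / 4 * y ^ 2 < 1) : kf3q2.v y a2 = kf3q2A.v (c1g.v y) y a2 := by
  have ht : ¬ (((1 : ℕ) : ℝ) - ((3 : ℕ) : ℝ) / ((4 : ℕ) : ℝ) * y ^ 2 ≤ 0) := by
    push_cast
    linarith
  simp only [kf3q2, kf3q2_4, kf3q2A, kf3q2A_5, if_neg ht, ecv3pA h1 h2]
  all_goals (first | rfl | ring)
theorem elm2pA {a1 y : ℝ} (h1 : 23093 / 20000 < y) (h2 : 3 / 4 * y ^ 2 < 1) : lm2p.v a1 y = lm2pA.v a1 (c1g.v y) y := by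
  simp only [lm2p, lm2pA, ecv2pA h1 h2, ecv3pA h1 h2]
  all_goals (first | rfl | ring)
theorem ebf2q2A {y a2 : ℝ} (h1 : 23093 / 20000 < y) (h2 : 3 / 4 * y ^ 2 < 1) : bf2q2.v y a2 = bf2q2A.v (c1g.v y) y a2 := by
  have ht : ¬ (((1 : ℕ) : ℝ) - ((3 : ℕ) : ℝ) / ((4 : ℕ) : ℝ) * y ^ 2 ≤ 0) := by
    push_cast
    linarith
  simp only [bf2q2, bf2q2_3, bf2q2A, bf2q2A_3, if_neg ht]
  all_goals (first | rfl | ring)
theorem elm1pA {a1 y : ℝ} (h1 : 23093 / 20000 < y) (h2 : 3 / 4 * y ^ 2 < 1) : lm1p.v a1 y = lm1pA.v a1 (c1g.v y) y := by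
  simp only [lm1p, lm1pA, ecv1pA h1 h2, ecv2pA h1 h2]
  all_goals (first | rfl | ring)
theorem ebf1q2A {y a2 : ℝ} (h1 : 23093 / 20000 < y) (h2 : 3 / 4 * y ^ 2 < 1) : bf1q2.v y a2 = bf1q2A.v (c1g.v y) y a2 := by
  have ht : ¬ (((1 : ℕ) : ℝ) - ((3 : ℕ) : ℝ) / ((4 : ℕ) : ℝ) * y ^ 2 ≤ 0) := by
    push_cast
    linarith
  simp only [bf1q2, bf1q2_3, bf1q2_8, bf1q2A, bf1q2A_3, if_neg ht]
  all_goals (first | rfl | ring)
theorem elm0pA {a1 y : ℝ} (h1 : 23093 / 20000 < y) (h2 : 3 / 4 * y ^ 2 < 1) : lm0p.v a1 y = lm0pA.v a1 (c1g.v y) y := by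
  simp only [lm0p, lm0pA, ecv1pA h1 h2]
  all_goals (first | rfl | ring)
theorem erkbq2A {a1 y a3 : ℝ} (h1 : 23093 / 20000 < y) (h2 : 3 / 4 * y ^ 2 < 1) : rkbq2.v a1 y a3 = rkbq2A.v a1 (c1g.v y) y a3 := by
  have hr0 : ¬ (y - ((577 : ℕ) : ℝ) / ((500 : ℕ) : ℝ) ≤ 0) := by
    push_cast
    linarith
  have hr1 : y - ((2887 : ℕ) : ℝ) / ((2500 : ℕ) : ℝ) ≤ 0 := by
    push_cast
    nlinarith
  simp only [rkbq2, rkbq2_38, rkbq2_39, rkbq2_40, rkbq2_41, rkbq2_61, rkbq2_95, rkbq2_97, rkbq2A, rkbq2A_37, rkbq2A_38, rkbq2A_39, rkbq2A_40, rkbq2A_59, if_neg hr0, if_pos hr1, ecv1pA h1 h2, ecv2pA h1 h2, ecv3pA h1 h2, ekf4q2A h1 h2, elm3pA h1 h2, ebf3q2A h1 h2, ekf3q2A h1 h2, elm2pA h1 h2, ebf2q2A h1 h2, elm1pA h1 h2, ebf1q2A h1 h2, elm0pA h1 h2]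
  all_goals (first | rfl | ring)
theorem ersbq2A {a1 y a3 : ℝ} (h1 : 23093 / 20000 < y) (h2 : 3 / 4 * y ^ 2 < 1) : rsbq2.v a1 y a3 = rsbq2A.v a1 (c1g.v y) y a3 := by
  simp only [rsbq2, rsbq2A, erkbq2A h1 h2]
  all_goals (first | rfl | ring)
theorem el4q2A {y a2 : ℝ} (h1 : 23093 / 20000 < y) (h2 : 3 / 4 * y ^ 2 < 1) : l4q2.v y a2 = l4q2A.v (c1g.v y) y a2 := by
  have ht : ¬ (((1 : ℕ) : ℝ) - ((3 : ℕ) : ℝ) / ((4 : ℕ) : ℝ) * y ^ 2 ≤ 0) := by
    push_cast
    linarith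
  simp only [l4q2, l4q2_4, l4q2_8, l4q2_192, l4q2A, l4q2A_4, l4q2A_8, l4q2A_132, if_neg ht, ecv3pA h1 h2]
  all_goals (first | rfl | ring)
theorem ebx3q2A {y a2 : ℝ} (h1 : 23093 / 20000 < y) (h2 : 3 / 4 * y ^ 2 < 1) : bx3q2.v y a2 = bx3q2A.v (c1g.v y) y a2 := by
  have ht : ¬ (((1 : ℕ) : ℝ) - ((3 : ℕ) : ℝ) / ((4 : ℕ) : ℝ) * y ^ 2 ≤ 0) := by
    push_cast
    linarith
  simp only [bx3q2, bx3q2_3, bx3q2A, bx3q2A_3, if_neg ht]
  all_goals (first | rfl | ring)
theorem el3q2A {y a2 : ℝ} (h1 : 23093 / 20000 < y) (h2 : 3 / 4 * y ^ 2 < 1) : l3q2.v y a2 = l3q2A.v (c1g.v y) y a2 := by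
  have ht : ¬ (((1 : ℕ) : ℝ) - ((3 : ℕ) : ℝ) / ((4 : ℕ) : ℝ) * y ^ 2 ≤ 0) := by
    push_cast
    linarith
  simp only [l3q2, l3q2_4, l3q2A, l3q2A_5, if_neg ht, ecv3pA h1 h2]
  all_goals (first | rfl | ring)
theorem ebx2q2A {y a2 : ℝ} (h1 : 23093 / 20000 < y) (h2 : 3 / 4 * y ^ 2 < 1) : bx2q2.v y a2 = bx2q2A.v (c1g.v y) y a2 := by
  have ht : ¬ (((1 : ℕ) : ℝ) - ((3 : ℕ) : ℝ) / ((4 : ℕ) : ℝ) * y ^ 2 ≤ 0) := by
    push_cast
    linarith
  simp only [bx2q2, bx2q2_3, bx2q2A, bx2q2A_3, if_neg ht]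
  all_goals (first | rfl | ring)
theorem ebx1q2A {y a2 : ℝ} (h1 : 23093 / 20000 < y) (h2 : 3 / 4 * y ^ 2 < 1) : bx1q2.v y a2 = bx1q2A.v (c1g.v y) y a2 := by
  have ht : ¬ (((1 : ℕ) : ℝ) - ((3 : ℕ) : ℝ) / ((4 : ℕ) : ℝ) * y ^ 2 ≤ 0) := by
    push_cast
    linarith
  simp only [bx1q2, bx1q2_3, bx1q2_10, bx1q2A, bx1q2A_3, if_neg ht]
  all_goals (first | rfl | ring)
theorem erxq2A {a1 y a3 : ℝ} (h1 : 23093 / 20000 < y) (h2 : 3 / 4 * y ^ 2 < 1) : rxq2.v a1 y a3 = rxq2A.v a1 (c1g.v y) y a3 := by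
  have hr0 : ¬ (y - ((23093 : ℕ) : ℝ) / ((20000 : ℕ) : ℝ) ≤ 0) := by
    push_cast
    linarith
  have hr1 : y - ((2887 : ℕ) : ℝ) / ((2500 : ℕ) : ℝ) ≤ 0 := by
    push_cast
    nlinarith
  simp only [rxq2, rxq2_38, rxq2_56, rxq2_90, rxq2_92, rxq2A, rxq2A_37, rxq2A_54, if_neg hr0, if_pos hr1, ecv1pA h1 h2, ecv2pA h1 h2, ecv3pA h1 h2, el4q2A h1 h2, elm3pA h1 h2, ebx3q2A h1 h2, el3q2A h1 h2, elm2pA h1 h2, ebx2q2A h1 h2, elm1pA h1 h2, ebx1q2A h1 h2, elm0pA h1 h2]
  all_goals (first | rfl | ring)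
theorem erlq2A {a1 y a3 : ℝ} (h1 : 23093 / 20000 < y) (h2 : 3 / 4 * y ^ 2 < 1) : rlq2.v a1 y a3 = rlq2A.v a1 (c1g.v y) y a3 := by
  simp only [rlq2, rlq2A, erxq2A h1 h2]
  all_goals (first | rfl | ring)
theorem c0_ {y : ℝ} (h2 : 1 ≤ 3 / 4 * y ^ 2) : c1g.v y = ((0 : ℕ) : ℝ) := by
  rw [c1g_v]
  unfold c1n
  push_cast
  exact Real.sqrt_eq_zero_of_nonpos (by linarith)
theorem ecv1pB {y : ℝ} (h1 : 23093 / 20000 < y) (h2 : 1 ≤ 3 / 4 * y ^ 2) : cv1p.v y = cv1pB.v y := by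
  simp only [cv1p, cv1pB, c0_ h2]
  all_goals (first | rfl | ring)
theorem ecv2pB {y : ℝ} (h1 : 23093 / 20000 < y) (h2 : 1 ≤ 3 / 4 * y ^ 2) : cv2p.v y = cv2pB.v y := by
  simp only [cv2p, cv2pB, c0_ h2]
  all_goals (first | rfl | ring)
theorem ecv3pB {y : ℝ} (h1 : 23093 / 20000 < y) (h2 : 1 ≤ 3 / 4 * y ^ 2) : cv3p.v y = cv3pB.v y := by
  simp only [cv3p, cv3pB, c0_ h2]
  all_goals (first | rfl | ring)
theorem ekf4q2B {y a2 : ℝ} (h1 : 23093 / 20000 < y) (h2 : 1 ≤ 3 / 4 * y ^ 2) : kf4q2.v y a2 = kf4q2B.v y a2 := by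
  have ht : ((1 : ℕ) : ℝ) - ((3 : ℕ) : ℝ) / ((4 : ℕ) : ℝ) * y ^ 2 ≤ 0 := by
    push_cast
    linarith
  simp only [kf4q2, kf4q2_4, kf4q2_8, kf4q2_9, kf4q2_10, kf4q2_11, kf4q2_188, kf4q2B, kf4q2B_4, kf4q2B_8, kf4q2B_9, kf4q2B_10, kf4q2B_11, kf4q2B_57, if_pos ht, ecv3pB h1 h2, c0_ h2]
  all_goals (first | rfl | ring)
theorem elm3pB {a1 y : ℝ} (h1 : 23093 / 20000 < y) (h2 : 1 ≤ 3 / 4 * y ^ 2) : lm3p.v a1 y = lm3pB.v a1 y := by
  simp only [lm3p, lm3pB, ecv3pB h1 h2]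
  all_goals (first | rfl | ring)
theorem ebf3q2B {y a2 : ℝ} (h1 : 23093 / 20000 < y) (h2 : 1 ≤ 3 / 4 * y ^ 2) : bf3q2.v y a2 = bf3q2B.v y a2 := by
  have ht : ((1 : ℕ) : ℝ) - ((3 : ℕ) : ℝ) / ((4 : ℕ) : ℝ) * y ^ 2 ≤ 0 := by
    push_cast
    linarith
  simp only [bf3q2, bf3q2_3, bf3q2B, bf3q2B_3, if_pos ht, c0_ h2]
  all_goals (first | rfl | ring)
theorem ekf3q2B {y a2 : ℝ} (h1 : 23093 / 20000 < y) (h2 : 1 ≤ 3 / 4 * y ^ 2) : kf3q2.v y a2 = kf3q2B.v y a2 := by
  have ht : ((1 : ℕ) : ℝ) - ((3 : ℕ) : ℝ) / ((4 : ℕ) : ℝ) * y ^ 2 ≤ 0 := by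
    push_cast
    linarith
  simp only [kf3q2, kf3q2_4, kf3q2B, kf3q2B_4, if_pos ht, ecv3pB h1 h2, c0_ h2]
  all_goals (first | rfl | ring)
theorem elm2pB {a1 y : ℝ} (h1 : 23093 / 20000 < y) (h2 : 1 ≤ 3 / 4 * y ^ 2) : lm2p.v a1 y = lm2pB.v a1 y := by
  simp only [lm2p, lm2pB, ecv2pB h1 h2, ecv3pB h1 h2]
  all_goals (first | rfl | ring)
theorem ebf2q2B {y a2 : ℝ} (h1 : 23093 / 20000 < y) (h2 : 1 ≤ 3 / 4 * y ^ 2) : bf2q2.v y a2 = bf2q2B.v y a2 := by
  have ht : ((1 : ℕ) : ℝ) - ((3 : ℕ) : ℝ) / ((4 : ℕ) : ℝ) * y ^ 2 ≤ 0 := by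
    push_cast
    linarith
  simp only [bf2q2, bf2q2_3, bf2q2B, bf2q2B_3, if_pos ht, c0_ h2]
  all_goals (first | rfl | ring)
theorem elm1pB {a1 y : ℝ} (h1 : 23093 / 20000 < y) (h2 : 1 ≤ 3 / 4 * y ^ 2) : lm1p.v a1 y = lm1pB.v a1 y := by
  simp only [lm1p, lm1pB, ecv1pB h1 h2, ecv2pB h1 h2]
  all_goals (first | rfl | ring)
theorem ebf1q2B {y a2 : ℝ} (h1 : 23093 / 20000 < y) (h2 : 1 ≤ 3 / 4 * y ^ 2) : bf1q2.v y a2 = bf1q2B.v y a2 := by
  have ht : ((1 : ℕ) : ℝ) - ((3 : ℕ) : ℝ) / ((4 : ℕ) : ℝ) * y ^ 2 ≤ 0 := by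
    push_cast
    linarith
  simp only [bf1q2, bf1q2_3, bf1q2_8, bf1q2B, bf1q2B_3, if_pos ht, c0_ h2]
  all_goals (first | rfl | ring)
theorem elm0pB {a1 y : ℝ} (h1 : 23093 / 20000 < y) (h2 : 1 ≤ 3 / 4 * y ^ 2) : lm0p.v a1 y = lm0pB.v a1 y := by
  simp only [lm0p, lm0pB, ecv1pB h1 h2, c0_ h2]
  all_goals (first | rfl | ring)
theorem erkbq2B {a1 y a3 : ℝ} (h1 : 23093 / 20000 < y) (h2 : 1 ≤ 3 / 4 * y ^ 2) : rkbq2.v a1 y a3 = rkbq2B.v a1 y a3 := by
  have hr0 : ¬ (y - ((577 : ℕ) : ℝ) / ((500 : ℕ) : ℝ) ≤ 0) := by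
    push_cast
    linarith
  simp only [rkbq2, rkbq2_38, rkbq2_39, rkbq2_40, rkbq2_41, rkbq2_61, rkbq2_95, rkbq2_97, rkbq2B, rkbq2B_37, rkbq2B_38, rkbq2B_39, rkbq2B_40, rkbq2B_59, rkbq2B_90, if_neg hr0, ecv1pB h1 h2, ecv2pB h1 h2, ecv3pB h1 h2, ekf4q2B h1 h2, elm3pB h1 h2, ebf3q2B h1 h2, ekf3q2B h1 h2, elm2pB h1 h2, ebf2q2B h1 h2, elm1pB h1 h2, ebf1q2B h1 h2, elm0pB h1 h2, c0_ h2]
  all_goals (first | rfl | ring)
theorem ersbq2B {a1 y a3 : ℝ} (h1 : 23093 / 20000 < y) (h2 : 1 ≤ 3 / 4 * y ^ 2) : rsbq2.v a1 y a3 = rsbq2B.v a1 y a3 := by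
  simp only [rsbq2, rsbq2B, erkbq2B h1 h2]
  all_goals (first | rfl | ring)
theorem el4q2B {y a2 : ℝ} (h1 : 23093 / 20000 < y) (h2 : 1 ≤ 3 / 4 * y ^ 2) : l4q2.v y a2 = l4q2B.v y a2 := by
  have ht : ((1 : ℕ) : ℝ) - ((3 : ℕ) : ℝ) / ((4 : ℕ) : ℝ) * y ^ 2 ≤ 0 := by
    push_cast
    linarith
  simp only [l4q2, l4q2_4, l4q2_8, l4q2_192, l4q2B, l4q2B_4, l4q2B_8, l4q2B_52, if_pos ht, ecv3pB h1 h2, c0_ h2]
  all_goals (first | rfl | ring)
theorem ebx3q2B {y a2 : ℝ} (h1 : 23093 / 20000 < y) (h2 : 1 ≤ 3 / 4 * y ^ 2) : bx3q2.v y a2 = bx3q2B.v y a2 := by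
  have ht : ((1 : ℕ) : ℝ) - ((3 : ℕ) : ℝ) / ((4 : ℕ) : ℝ) * y ^ 2 ≤ 0 := by
    push_cast
    linarith
  simp only [bx3q2, bx3q2_3, bx3q2B, bx3q2B_3, if_pos ht, c0_ h2]
  all_goals (first | rfl | ring)
theorem el3q2B {y a2 : ℝ} (h1 : 23093 / 20000 < y) (h2 : 1 ≤ 3 / 4 * y ^ 2) : l3q2.v y a2 = l3q2B.v y a2 := by
  have ht : ((1 : ℕ) : ℝ) - ((3 : ℕ) : ℝ) / ((4 : ℕ) : ℝ) * y ^ 2 ≤ 0 := by
    push_cast
    linarith
  simp only [l3q2, l3q2_4, l3q2B, l3q2B_4, if_pos ht, ecv3pB h1 h2, c0_ h2]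
  all_goals (first | rfl | ring)
theorem ebx2q2B {y a2 : ℝ} (h1 : 23093 / 20000 < y) (h2 : 1 ≤ 3 / 4 * y ^ 2) : bx2q2.v y a2 = bx2q2B.v y a2 := by
  have ht : ((1 : ℕ) : ℝ) - ((3 : ℕ) : ℝ) / ((4 : ℕ) : ℝ) * y ^ 2 ≤ 0 := by
    push_cast
    linarith
  simp only [bx2q2, bx2q2_3, bx2q2B, bx2q2B_3, if_pos ht, c0_ h2]
  all_goals (first | rfl | ring)
theorem ebx1q2B {y a2 : ℝ} (h1 : 23093 / 20000 < y) (h2 : 1 ≤ 3 / 4 * y ^ 2) : bx1q2.v y a2 = bx1q2B.v y a2 := by
  have ht : ((1 : ℕ) : ℝ) - ((3 : ℕ) : ℝ) / ((4 : ℕ) : ℝ) * y ^ 2 ≤ 0 := by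
    push_cast
    linarith
  simp only [bx1q2, bx1q2_3, bx1q2_10, bx1q2B, bx1q2B_3, if_pos ht, c0_ h2]
  all_goals (first | rfl | ring)
theorem erxq2B {a1 y a3 : ℝ} (h1 : 23093 / 20000 < y) (h2 : 1 ≤ 3 / 4 * y ^ 2) : rxq2.v a1 y a3 = rxq2B.v a1 y a3 := by
  have hr0 : ¬ (y - ((23093 : ℕ) : ℝ) / ((20000 : ℕ) : ℝ) ≤ 0) := by
    push_cast
    linarith
  simp only [rxq2, rxq2_38, rxq2_56, rxq2_90, rxq2_92, rxq2B, rxq2B_37, rxq2B_54, rxq2B_85, if_neg hr0, ecv1pB h1 h2, ecv2pB h1 h2, ecv3pB h1 h2, el4q2B h1 h2, elm3pB h1 h2, ebx3q2B h1 h2, el3q2B h1 h2, elm2pB h1 h2, ebx2q2B h1 h2, elm1pB h1 h2, ebx1q2B h1 h2, elm0pB h1 h2, c0_ h2]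
  all_goals (first | rfl | ring)
theorem erlq2B {a1 y a3 : ℝ} (h1 : 23093 / 20000 < y) (h2 : 1 ≤ 3 / 4 * y ^ 2) : rlq2.v a1 y a3 = rlq2B.v a1 y a3 := by
  simp only [rlq2, rlq2B, erxq2B h1 h2]
  all_goals (first | rfl | ring)
theorem pA_ (x : ℝ) : ∀ X y, ww.ym.v < y → 3 / 4 * y ^ 2 < 1 →
    (pcB 2).K.v X y x = ww.AK.v X (c1n y) y x ∧ (pcB 2).L.v X y x = ww.AL.v X (c1n y) y x := by
  intro X y h1 h2
  have em : ww.ym.v = 23093 / 20000 := by
    show (Cn.rt 23093 20000).v = _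
    rw [Cn.rt_v]
    norm_num
  rw [em] at h1
  rw [← c1g_v]
  exact ⟨ersbq2A h1 h2, erlq2A h1 h2⟩
theorem pB_ (x : ℝ) : ∀ X y, ww.ym.v < y → 1 ≤ 3 / 4 * y ^ 2 →
    (pcB 2).K.v X y x = ww.B.K.v X y x ∧ (pcB 2).L.v X y x = ww.B.L.v X y x := by
  intro X y h1 h2
  have em : ww.ym.v = 23093 / 20000 := by
    show (Cn.rt 23093 20000).v = _
    rw [Cn.rt_v]
    norm_num
  rw [em] at h1
  exact ⟨ersbq2B h1 h2, erlq2B h1 h2⟩
theorem ok6 (x : ℝ) : tt.Ok6 ww 1 PP tK tL pcB x where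
  hi := rfl
  c2n := by
    show 0 ≤ (Cn.rt 1 20).v
    rw [Cn.rt_v]
    norm_num
  c2h := by
    show (Cn.rt 1 20).v ≤ 1 / 2
    rw [Cn.rt_v]
    norm_num
  fr := fr_
  b1 := b1_ x
  f2 := f2_
  a2 := a2_ x
  b2 := b2_ x
  pA := pA_ x
  pB := pB_ x
theorem okx6 {x : ℝ} (hx : ((536870912 : ℕ) : ℝ) / S ≤ x) (hx' : x ≤ (((536870912 : ℕ) : ℝ) + (50465866 : ℕ)) / S) : tt.Ok6 ww 1 PP tK tL pcB x := ok6 x
theorem okx {x : ℝ} (hx : ((536870912 : ℕ) : ℝ) / S ≤ x) (hx' : x ≤ (((536870912 : ℕ) : ℝ) + (50465866 : ℕ)) / S) : tt.Ok PP tK tL x := ok x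

end Pool.Agent.Strip051.G.I5000_5470.Tab.St
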