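import Pool.Agent.Strip051.G.I5000_5470.StH
import Pool.Agent.Strip051.G.I5000_5470.StF

/-! # Unit strips 13 (generated) -/

set_option linter.all false
set_option maxRecDepth 100000

namespace Pool.Agent.Strip051.G.I5000_5470.Tab.St.C

open Pool.Agent.Strip051.PB Pool.Agent.Strip051.PB.T Pool.Agent.StripNear Pool.Agent.Strip051.LC
open Pool.Agent.Strip051.G.I5000_5470.Tab Pool.Agent.Strip051.G.I5000_5470.Tab.St

noncomputable def cut_A00pp_001_s1 : Cut := Cut.of [[⟨4, 0, 0, 1449551462⟩]]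

noncomputable def f_A00pp_001_s1 : ℕ → ℕ → ℕ → ℕ → Bool := onCell 0 536870912 0 536870912 536870912 50465866
    (rowF 0 true true true .up 0 0 1 (qsf 0 536870912 0 536870912 1) ndB0q0 ndB0q0 pcB1 cut_A00pp_001_s1 Ext.none)

def k0_A00pp_001_s1 : ∃ t, chk3 f_A00pp_001_s1 t 1 1 1 = true :=
  ⟨(l 4), by decide +kernel⟩

theorem c_A00pp_001_s1 : CertF 0 536870912 0 536870912 536870912 50465866 true true true .up 0 0 1
    ndB0q0 ndB0q0 pcB1 cut_A00pp_001_s1 Ext.none :=
  certF0 (fam := true) (s1 := true) (s2 := true) (a := 0) (b := 0) (c := 1) (cn := .up) (n1 := ndB0q0) (n2 := ndB0q0) (pc := pcB1) (cut := cut_A00pp_001_s1) (xt := Ext.none) (P1 := 0) (W1 := 536870912) (P2 := 0) (W2 := 536870912) (P3 := 536870912) (W3 := 50465866)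
    rfl k0_A00pp_001_s1

theorem s_A00pp_001_s1 {κ x : ℝ} (hκ : κ * h0 = ken x) (hx : ((536870912 : ℕ) : ℝ) / S ≤ x)
    (hx' : x ≤ (((536870912 : ℕ) : ℝ) + (50465866 : ℕ)) / S) :
    AltA (VFD κ) PP tK tL pcB [⟨3, 0, 0, 1449551462⟩] 0 0 1 0 0 (sgb true) (sgb true) x :=
  strip_altAD (m := 1449551462) true rfl hκ (SH.κ0 hκ (SH.hx1 hx).le (SH.hx2 hx').le) (SH.hx1 hx).le (SH.hx2 hx') (covB00).cov (covB00).cov hx hx' c_A00pp_001_s1 cutA_nil (noExt_A)

noncomputable def cut_A00pp_001_s3 : Cut := Cut.of [[⟨3, 0, 0, 2845415833⟩]]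

noncomputable def f_A00pp_001_s3 : ℕ → ℕ → ℕ → ℕ → Bool := onCell 0 536870912 0 536870912 536870912 50465866
    (rowF 0 true true true .up 0 0 1 (qsf 0 536870912 0 536870912 1) ndB0q0 ndB0q0 pcB1 cut_A00pp_001_s3 Ext.none)

def k0_A00pp_001_s3 : ∃ t, chk3 f_A00pp_001_s3 t 1 1 1 = true :=
  ⟨(l 4), by decide +kernel⟩

theorem c_A00pp_001_s3 : CertF 0 536870912 0 536870912 536870912 50465866 true true true .up 0 0 1
    ndB0q0 ndB0q0 pcB1 cut_A00pp_001_s3 Ext.none :=
  certF0 (fam := true) (s1 := true) (s2 := true) (a := 0) (b := 0) (c := 1) (cn := .up) (n1 := ndB0q0) (n2 := ndB0q0) (pc := pcB1) (cut := cut_A00pp_001_s3) (xt := Ext.none) (P1 := 0) (W1 := 536870912) (P2 := 0) (W2 := 536870912) (P3 := 536870912) (W3 := 50465866)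
    rfl k0_A00pp_001_s3

theorem s_A00pp_001_s3 {κ x : ℝ} (hκ : κ * h0 = ken x) (hx : ((536870912 : ℕ) : ℝ) / S ≤ x)
    (hx' : x ≤ (((536870912 : ℕ) : ℝ) + (50465866 : ℕ)) / S) :
    AltA (VFD κ) PP tK tL pcB [⟨4, 0, 0, 2845415833⟩] 0 0 1 0 0 (sgb true) (sgb true) x :=
  strip_altAD (m := 2845415833) false rfl hκ (SH.κ0 hκ (SH.hx1 hx).le (SH.hx2 hx').le) (SH.hx1 hx).le (SH.hx2 hx') (covB00).cov (covB00).cov hx hx' c_A00pp_001_s3 cutA_nil (noExt_A)

noncomputable def cut_A00pp_011_s1 : Cut := Cut.of [[⟨4, 0, 0, 1449551462⟩], [⟨0, 0, 0, 67108864⟩, ⟨1, 1, 0, 67108864⟩, ⟨2, 1, 0, 67108864⟩]]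

noncomputable def f_A00pp_011_s1 : ℕ → ℕ → ℕ → ℕ → Bool := onCell 0 536870912 536870912 536870912 536870912 50465866
    (rowF 0 true true true .pnn 0 1 1 (qsf 0 536870912 536870912 536870912 1) ndB0q0 ndB0q1 pcB1 cut_A00pp_011_s1 Ext.none)

def k0_A00pp_011_s1 : ∃ t, chk3 f_A00pp_011_s1 t 1 1 1 = true :=
  ⟨(l 6), by decide +kernel⟩

theorem c_A00pp_011_s1 : CertF 0 536870912 536870912 536870912 536870912 50465866 true true true .pnn 0 1 1
    ndB0q0 ndB0q1 pcB1 cut_A00pp_011_s1 Ext.none :=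
  certF0 (fam := true) (s1 := true) (s2 := true) (a := 0) (b := 1) (c := 1) (cn := .pnn) (n1 := ndB0q0) (n2 := ndB0q1) (pc := pcB1) (cut := cut_A00pp_011_s1) (xt := Ext.none) (P1 := 0) (W1 := 536870912) (P2 := 536870912) (W2 := 536870912) (P3 := 536870912) (W3 := 50465866)
    rfl k0_A00pp_011_s1

theorem s_A00pp_011_s1 {κ x : ℝ} (hκ : κ * h0 = ken x) (hx : ((536870912 : ℕ) : ℝ) / S ≤ x)
    (hx' : x ≤ (((536870912 : ℕ) : ℝ) + (50465866 : ℕ)) / S)
    (H : CutA (VFD κ) PP tK tL pcB (Cut.of [[⟨0, 0, 0, 67108864⟩, ⟨1, 1, 0, 67108864⟩, ⟨2, 1, 0, 67108864⟩]]) 0 1 1 0 0 (sgb true) (sgb true) x) :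
    AltA (VFD κ) PP tK tL pcB [⟨3, 0, 0, 1449551462⟩] 0 1 1 0 0 (sgb true) (sgb true) x :=
  strip_altAD (m := 1449551462) true rfl hκ (SH.κ0 hκ (SH.hx1 hx).le (SH.hx2 hx').le) (SH.hx1 hx).le (SH.hx2 hx') (covB00).cov (covB01).cov hx hx' c_A00pp_011_s1 H (noExt_A)

noncomputable def cut_A00pp_011_s3 : Cut := Cut.of [[⟨3, 0, 0, 2845415833⟩], [⟨0, 0, 0, 67108864⟩, ⟨1, 1, 0, 67108864⟩, ⟨2, 1, 0, 67108864⟩]]

noncomputable def f_A00pp_011_s3 : ℕ → ℕ → ℕ → ℕ → Bool := onCell 0 536870912 536870912 536870912 536870912 50465866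
    (rowF 0 true true true .pnn 0 1 1 (qsf 0 536870912 536870912 536870912 1) ndB0q0 ndB0q1 pcB1 cut_A00pp_011_s3 Ext.none)

def k0_A00pp_011_s3 : ∃ t, chk3 f_A00pp_011_s3 t 1 1 1 = true :=
  ⟨(a (b (l 4) (b (l 4) (a (b (l 4) (a (b (l 4) (a (l 14) (l 4))) (l 4))) (l 4)))) (l 4)), by decide +kernel⟩

theorem c_A00pp_011_s3 : CertF 0 536870912 536870912 536870912 536870912 50465866 true true true .pnn 0 1 1
    ndB0q0 ndB0q1 pcB1 cut_A00pp_011_s3 Ext.none :=
  certF0 (fam := true) (s1 := true) (s2 := true) (a := 0) (b := 1) (c := 1) (cn := .pnn) (n1 := ndB0q0) (n2 := ndB0q1) (pc := pcB1) (cut := cut_A00pp_011_s3) (xt := Ext.none) (P1 := 0) (W1 := 536870912) (P2 := 536870912) (W2 := 536870912) (P3 := 536870912) (W3 := 50465866)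
    rfl k0_A00pp_011_s3

theorem s_A00pp_011_s3 {κ x : ℝ} (hκ : κ * h0 = ken x) (hx : ((536870912 : ℕ) : ℝ) / S ≤ x)
    (hx' : x ≤ (((536870912 : ℕ) : ℝ) + (50465866 : ℕ)) / S)
    (H : CutA (VFD κ) PP tK tL pcB (Cut.of [[⟨0, 0, 0, 67108864⟩, ⟨1, 1, 0, 67108864⟩, ⟨2, 1, 0, 67108864⟩]]) 0 1 1 0 0 (sgb true) (sgb true) x) :
    AltA (VFD κ) PP tK tL pcB [⟨4, 0, 0, 2845415833⟩] 0 1 1 0 0 (sgb true) (sgb true) x :=
  strip_altAD (m := 2845415833) false rfl hκ (SH.κ0 hκ (SH.hx1 hx).le (SH.hx2 hx').le) (SH.hx1 hx).le (SH.hx2 hx') (covB00).cov (covB01).cov hx hx' c_A00pp_011_s3 H (noExt_A)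

noncomputable def cut_A00pp_012_s1 : Cut := Cut.of [[⟨4, 0, 0, 1449551462⟩], [⟨0, 0, 0, 67108864⟩, ⟨1, 1, 0, 67108864⟩, ⟨2, 1, 0, 67108864⟩]]

noncomputable def f_A00pp_012_s1 : ℕ → ℕ → ℕ → ℕ → Bool := onCell 0 536870912 536870912 536870912 536870912 50465866
    (rowF 0 true true true .pnp 0 1 2 (qsf 0 536870912 536870912 536870912 2) ndB0q0 ndB0q1 pcB2 cut_A00pp_012_s1 Ext.none)

def k0_A00pp_012_s1 : ∃ t, chk3 f_A00pp_012_s1 t 1 1 1 = true :=
  ⟨(l 6), by decide +kernel⟩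

theorem c_A00pp_012_s1 : CertF 0 536870912 536870912 536870912 536870912 50465866 true true true .pnp 0 1 2
    ndB0q0 ndB0q1 pcB2 cut_A00pp_012_s1 Ext.none :=
  certF0 (fam := true) (s1 := true) (s2 := true) (a := 0) (b := 1) (c := 2) (cn := .pnp) (n1 := ndB0q0) (n2 := ndB0q1) (pc := pcB2) (cut := cut_A00pp_012_s1) (xt := Ext.none) (P1 := 0) (W1 := 536870912) (P2 := 536870912) (W2 := 536870912) (P3 := 536870912) (W3 := 50465866)
    rfl k0_A00pp_012_s1

theorem s_A00pp_012_s1 {κ x : ℝ} (hκ : κ * h0 = ken x) (hx : ((536870912 : ℕ) : ℝ) / S ≤ x)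
    (hx' : x ≤ (((536870912 : ℕ) : ℝ) + (50465866 : ℕ)) / S)
    (H : CutA (VFD κ) PP tK tL pcB (Cut.of [[⟨0, 0, 0, 67108864⟩, ⟨1, 1, 0, 67108864⟩, ⟨2, 1, 0, 67108864⟩]]) 0 1 2 0 0 (sgb true) (sgb true) x) :
    AltA (VFD κ) PP tK tL pcB [⟨3, 0, 0, 1449551462⟩] 0 1 2 0 0 (sgb true) (sgb true) x :=
  strip_altAD (m := 1449551462) true rfl hκ (SH.κ0 hκ (SH.hx1 hx).le (SH.hx2 hx').le) (SH.hx1 hx).le (SH.hx2 hx') (covB00).cov (covB01).cov hx hx' c_A00pp_012_s1 H (noExt_A)

noncomputable def cut_A00pp_012_s3 : Cut := Cut.of [[⟨3, 0, 0, 2845415833⟩], [⟨0, 0, 0, 67108864⟩, ⟨1, 1, 0, 67108864⟩, ⟨2, 1, 0, 67108864⟩]]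

noncomputable def f_A00pp_012_s3 : ℕ → ℕ → ℕ → ℕ → Bool := onCell 0 536870912 536870912 536870912 536870912 50465866
    (rowF 0 true true true .pnp 0 1 2 (qsf 0 536870912 536870912 536870912 2) ndB0q0 ndB0q1 pcB2 cut_A00pp_012_s3 Ext.none)

def k0_A00pp_012_s3 : ∃ t, chk3 f_A00pp_012_s3 t 1 1 1 = true :=
  ⟨(b (l 4) (a (a (a (b (l 1) (a (b (l 1) (b (l 4) (l 14))) (l 4))) (l 4)) (l 4)) (l 4))), by decide +kernel⟩

theorem c_A00pp_012_s3 : CertF 0 536870912 536870912 536870912 536870912 50465866 true true true .pnp 0 1 2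
    ndB0q0 ndB0q1 pcB2 cut_A00pp_012_s3 Ext.none :=
  certF0 (fam := true) (s1 := true) (s2 := true) (a := 0) (b := 1) (c := 2) (cn := .pnp) (n1 := ndB0q0) (n2 := ndB0q1) (pc := pcB2) (cut := cut_A00pp_012_s3) (xt := Ext.none) (P1 := 0) (W1 := 536870912) (P2 := 536870912) (W2 := 536870912) (P3 := 536870912) (W3 := 50465866)
    rfl k0_A00pp_012_s3

theorem s_A00pp_012_s3 {κ x : ℝ} (hκ : κ * h0 = ken x) (hx : ((536870912 : ℕ) : ℝ) / S ≤ x)
    (hx' : x ≤ (((536870912 : ℕ) : ℝ) + (50465866 : ℕ)) / S)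
    (H : CutA (VFD κ) PP tK tL pcB (Cut.of [[⟨0, 0, 0, 67108864⟩, ⟨1, 1, 0, 67108864⟩, ⟨2, 1, 0, 67108864⟩]]) 0 1 2 0 0 (sgb true) (sgb true) x) :
    AltA (VFD κ) PP tK tL pcB [⟨4, 0, 0, 2845415833⟩] 0 1 2 0 0 (sgb true) (sgb true) x :=
  strip_altAD (m := 2845415833) false rfl hκ (SH.κ0 hκ (SH.hx1 hx).le (SH.hx2 hx').le) (SH.hx1 hx).le (SH.hx2 hx') (covB00).cov (covB01).cov hx hx' c_A00pp_012_s3 H (noExt_A)

noncomputable def cut_A00pp_022_s1 : Cut := Cut.of [[⟨4, 0, 0, 1449551462⟩], [⟨0, 0, 0, 67108864⟩, ⟨1, 1, 0, 67108864⟩, ⟨2, 1, 0, 67108864⟩]]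

noncomputable def f_A00pp_022_s1 : ℕ → ℕ → ℕ → ℕ → Bool := onCell 0 536870912 0 536870912 536870912 50465866
    (rowF 0 true true true .pp 0 2 2 (qsf 0 536870912 0 536870912 2) ndB0q0 ndB0q2 pcB2 cut_A00pp_022_s1 Ext.none)

def k0_A00pp_022_s1 : ∃ t, chk3 f_A00pp_022_s1 t 1 1 1 = true :=
  ⟨(l 6), by decide +kernel⟩

theorem c_A00pp_022_s1 : CertF 0 536870912 0 536870912 536870912 50465866 true true true .pp 0 2 2
    ndB0q0 ndB0q2 pcB2 cut_A00pp_022_s1 Ext.none :=
  certF0 (fam := true) (s1 := true) (s2 := true) (a := 0) (b := 2) (c := 2) (cn := .pp) (n1 := ndB0q0) (n2 := ndB0q2) (pc := pcB2) (cut := cut_A00pp_022_s1) (xt := Ext.none) (P1 := 0) (W1 := 536870912) (P2 := 0) (W2 := 536870912) (P3 := 536870912) (W3 := 50465866)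
    rfl k0_A00pp_022_s1

theorem s_A00pp_022_s1 {κ x : ℝ} (hκ : κ * h0 = ken x) (hx : ((536870912 : ℕ) : ℝ) / S ≤ x)
    (hx' : x ≤ (((536870912 : ℕ) : ℝ) + (50465866 : ℕ)) / S)
    (H : CutA (VFD κ) PP tK tL pcB (Cut.of [[⟨0, 0, 0, 67108864⟩, ⟨1, 1, 0, 67108864⟩, ⟨2, 1, 0, 67108864⟩]]) 0 2 2 0 0 (sgb true) (sgb true) x) :
    AltA (VFD κ) PP tK tL pcB [⟨3, 0, 0, 1449551462⟩] 0 2 2 0 0 (sgb true) (sgb true) x :=
  strip_altAD (m := 1449551462) true rfl hκ (SH.κ0 hκ (SH.hx1 hx).le (SH.hx2 hx').le) (SH.hx1 hx).le (SH.hx2 hx') (covB00).cov (covB02).cov hx hx' c_A00pp_022_s1 H (noExt_A)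

noncomputable def cut_A00pp_022_s3 : Cut := Cut.of [[⟨3, 0, 0, 2845415833⟩], [⟨0, 0, 0, 67108864⟩, ⟨1, 1, 0, 67108864⟩, ⟨2, 1, 0, 67108864⟩]]

noncomputable def xt_A00pp_022_s3 : Ext := strExt6 dd true true true .u0 .u2 .s2 .pp 0 2 2 rfl rfl gl2 vv ww ndB0q0 ndB0q2

noncomputable def f_A00pp_022_s3 : ℕ → ℕ → ℕ → ℕ → Bool := onCell 0 536870912 0 536870912 536870912 50465866
    (rowF 0 true true true .pp 0 2 2 (qsf 0 536870912 0 536870912 2) ndB0q0 ndB0q2 pcB2 cut_A00pp_022_s3 xt_A00pp_022_s3)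

def k0_A00pp_022_s3 : ∃ t, chk3 f_A00pp_022_s3 t 2 2 1 = true :=
  ⟨(a (b (l 6) (b (l 6) (a (l 6) (b (l 6) (a (b (l 6) (l 16619512)) (a (l 16594048) (l 16650392))))))) (b (a (l 6) (b (l 6) (a (l 6) (l 16632784)))) (b (a (a (l 6) (b (l 6) (l 16629608))) (a (b (l 16638920) (b (l 16651728) (l 16659784))) (b (l 16661552) (l 16721728)))) (a (a (a (b (l 16607800) (l 16664992)) (b (l 16622544) (a (l 16634136) (l 16641528)))) (a (b (l 16637112) (b (l 16648552) (l 16657064))) (b (l 16651216) (b (l 16662832) (l 16692408))))) (a (a (b (l 16706656) (b (l 16676528) (c (l 16686952) (l 16704472)))) (b (l 16719568) (b (l 16710664) (c (l 1068282383) (l 1068057103))))) (b (a (b (l 16686096) (l 16693976)) (l 1069039119)) (b (a (l 16723392) (l 16730440)) (a (b (l 16709176) (l 1068196367)) (l 1068396047))))))))), by decide +kernel⟩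

def k1_A00pp_022_s3 : ∃ t, chk3 f_A00pp_022_s3 t 8 6 1 = true :=
  ⟨(b (b (a (l 6) (a (l 6) (b (l 6) (a (l 16581920) (l 16587872))))) (b (a (l 6) (a (l 16584296) (a (l 16593744) (l 16600096)))) (a (a (a (l 6) (a (l 6) (l 16579776))) (a (l 16583832) (l 16589176))) (a (l 16618080) (l 16619960))))) (b (a (a (b (a (a (b (l 6) (l 16587376)) (l 16597592)) (a (l 16590040) (l 16592952))) (a (a (b (l 16594000) (l 16611256)) (b (l 16597096) (l 16603968))) (a (a (l 16613376) (l 16604448)) (l 16617256)))) (b (a (a (l 16595840) (l 16598720)) (b (l 16599448) (l 16606536))) (a (a (l 16620344) (l 16623408)) (b (l 16613776) (l 16621184))))) (a (a (b (l 16608672) (b (l 16619736) (l 16627328))) (b (l 16614304) (l 16629552))) (a (b (l 16619920) (l 16635552)) (b (l 16626080) (l 16662512))))) (a (b (b (a (a (a (a (l 16606864) (l 16608520)) (l 16610984)) (a (l 16614256) (l 16617504))) (a (l 16632832) (l 16628736))) (a (a (a (a (l 16619144) (l 16615600)) (l 16623384))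 (a (l 16621512) (l 16624856))) (a (l 16640312) (l 16636408)))) (a (a (c (a (b (l 16623472) (l 16630840)) (b (l 16626848) (l 16634304))) (a (b (l 16620392) (l 16622424)) (b (l 16623968) (l 16631320)))) (a (b (l 16628872) (l 16636352)) (b (l 16632304) (l 16639872)))) (a (a (b (l 16635720) (l 16643360)) (b (l 16639112) (l 16646840))) (b (l 16644168) (l 16652024))))) (b (b (a (a (l 16635072) (l 16641368)) (a (l 16668616) (l 16653920))) (a (a (l 16642936) (l 16649416)) (a (l 16655880) (l 16683296)))) (a (a (b (l 16650864) (l 16658880)) (b (l 16657520) (l 16665696))) (a (b (l 16664152) (l 16672480)) (b (l 16691744) (l 16679256)))))))), by decide +kernel⟩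

def k2_A00pp_022_s3 : ∃ t, chk3 f_A00pp_022_s3 t 9 6 1 = true :=
  ⟨(a (b (b (a (l 16630376) (l 16641840)) (a (a (b (l 16647888) (l 16661128)) (b (l 16610912) (l 16666968))) (c (l 16657656) (l 16646376)))) (a (b (a (b (l 16632744) (l 16668520)) (b (c (l 16660992) (l 16659712)) (l 16674872))) (b (a (a (l 16662920) (l 16666112)) (l 16681400)) (b (a (l 16698368) (l 16684040)) (c (l 16692264) (l 16689112))))) (b (a (b (l 16666240) (l 1067665423)) (b (l 16650848) (l 16687760))) (a (b (l 1067572239) (l 1066996239)) (b (l 1067518991) (l 1066938895)))))) (b (a (b (c (l 16655808) (l 16655720)) (b (l 16632032) (l 16667024))) (b (b (l 16622616) (l 16675608)) (b (b (l 16684936) (l 16649688)) (a (l 16656808) (l 16664024))))) (b (a (a (b (l 16657720) (l 16694992)) (b (l 16664912) (l 16691776))) (b (a (l 16693112) (l 1066590223)) (a (l 1066481167) (l 1066472463)))) (a (a (b (l 1066423311) (l 1066360335)) (b (l 1066415631) (l 1066349583))) (b (a (l 1066410511)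 (l 1067480079)) (a (l 1066350607) (l 1067428367))))))), by decide +kernel⟩

def k3_A00pp_022_s3 : ∃ t, chk3 f_A00pp_022_s3 t 8 28 1 = true :=
  ⟨(b (a (b (a (a (c (a (l 16638336) (l 16641880)) (a (l 16635104) (l 16638824))) (a (l 16643968) (l 16647560))) (a (c (l 16654120) (l 16651672)) (l 16659976))) (c (a (a (a (l 16645960) (l 16649576)) (l 16654960)) (a (l 16662072) (l 16669120))) (c (a (a (a (l 16643520) (l 16647272)) (l 16652856)) (a (l 16660216) (l 16667504))) (a (a (a (l 16641904) (l 16645736)) (l 16651440)) (a (l 16658960) (l 16666400)))))) (b (a (a (l 16666984) (l 16673944)) (a (l 16680880) (l 16687784))) (a (a (l 16675192) (l 16682288)) (a (l 16689352) (l 16696392))))) (b (a (a (a (a (c (l 16653736) (l 16650504)) (l 16655888)) (a (l 16659632) (l 16663360))) (a (c (l 16670152) (l 16667672)) (l 16676248))) (a (a (l 16683520) (l 16690744)) (a (l 16697920) (l 16715568)))) (b (a (a (a (a (l 16658056) (l 16661872)) (a (l 16665672) (l 16669440)))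 (a (l 16675064) (l 16682488))) (a (a (l 16689848) (l 16697152)) (a (l 16704416) (l 16711648)))) (a (a (a (a (l 14) (l 16665928)) (a (l 16669752) (l 16673552))) (a (l 16679216) (l 16686696))) (a (a (l 16694112) (l 16701472)) (a (l 16708784) (l 16716072))))))), by decide +kernel⟩

def k4_A00pp_022_s3 : ∃ t, chk3 f_A00pp_022_s3 t 8 29 1 = true :=
  ⟨(a (b (a (a (a (l 14) (a (l 14) (b (l 16673072) (l 14)))) (a (b (l 16675968) (l 16684416)) (b (l 16679808) (l 16688304)))) (a (a (b (l 16683624) (l 16692168)) (b (l 16687424) (l 16696016))) (a (b (l 16691208) (l 16699840)) (b (l 16694968) (l 16703648))))) (c (a (b (b (a (l 14) (l 16694048)) (l 14)) (l 14)) (a (a (b (l 16701976) (l 14)) (b (l 16705792) (l 16714672))) (b (l 16711472) (a (l 16718504) (l 16722320))))) (a (a (l 14) (a (l 14) (b (l 16695856) (l 14)))) (a (a (b (l 16699840) (l 14)) (b (l 16703792) (l 16712872))) (a (b (l 16707728) (l 16716840)) (b (l 16711648) (l 16720792))))))) (a (b (b (a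 (c (l 16701464) (l 16699688)) (c (l 16708760) (l 16707248))) (a (c (l 16710160) (l 16708496)) (c (l 16717552) (l 16716144)))) (b (a (a (l 16716336) (l 16720152)) (a (l 16723960) (l 16727744))) (a (a (c (l 16726128) (l 16724728)) (c (l 16729912) (l 16728640))) (a (c (l 16733688) (l 16732544)) (l 1067177999))))) (a (b (a (b (l 16713560) (l 16722464)) (b (l 16717240) (l 16726192))) (a (a (l 1066153487) (l 1066153487)) (b (l 16740528) (l 1066109455)))) (a (b (l 1067369487) (l 1067626511)) (b (l 1066290703) (l 1066685967)))))), by decide +kernel⟩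

def k5_A00pp_022_s3 : ∃ t, chk3 f_A00pp_022_s3 t 8 15 1 = true :=
  ⟨(a (b (a (l 14) (b (b (a (l 14) (a (c (l 16727624) (l 16731424)) (c (l 16731472) (l 16735408)))) (a (l 14) (a (l 14) (a (c (l 16739872) (l 16744016)) (c (l 16741808) (l 16746016)))))) (l 14))) (l 14)) (a (b (a (b (b (a (c (l 16735312) (l 16739376)) (a (l 1066008591) (l 1066011663))) (a (a (l 1066441231) (l 1065908239)) (a (l 1065912335) (l 1065915919)))) (b (b (a (a (l 16755768) (l 1065832975)) (a (l 1065837583) (l 1065841679))) (a (l 14) (a (l 1065786383) (l 1065790991)))) (a (l 14) (a (l 14) (l 1065713679))))) (b (b (a (a (l 1066014735) (l 1066017295)) (l 1067089423)) (a (a (l 1065919503) (l 1065922575)) (l 1067532815))) (b (a (a (l 1065820175) (l 1065824271)) (c (l 1065934351) (l 1066788367))) (a (a (l 1065718287) (l 1065722383)) (a (l 1065726991) (l 1065731087)))))) (a (l 14) (a (a (l 14) (a (l 14) (l 4))) (l 4)))) (b (a (b (b (a (l 1066020879) (l 1066024975)) (a (l 1065928719)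 (l 1065934351))) (a (a (l 1065784847) (l 1065788431)) (a (l 1065792015) (l 1065795087)))) (a (b (b (l 1066028047) (l 1065938959)) (l 1066333199)) (b (l 1067061263) (l 1065802255)))) (l 4)))), by decide +kernel⟩

def k6_A00pp_022_s3 : ∃ t, chk3 f_A00pp_022_s3 t 9 7 1 = true :=
  ⟨(b (a (a (b (a (a (b (l 1067571727) (l 1066399759)) (b (l 1067016719) (l 1066387471))) (b (a (l 1066460687) (l 1066440719)) (a (l 1066373647) (l 1066359311)))) (a (a (b (l 1066284047) (l 1066147343)) (b (l 1066276879) (l 1066144783))) (a (b (l 1066268687) (l 1066141199)) (b (l 1066259983) (l 1066137615))))) (b (a (b (l 1066268687) (c (l 1067981839) (l 1067894799))) (b (l 1066357263) (l 1066296847))) (a (b (l 1067313167) (l 1068272143)) (b (l 1066217999) (l 1066113551))))) (b (a (a (b (l 1066308111) (l 1066259471)) (b (l 1066276879) (l 1066220559))) (b (a (l 1066812431) (l 1067361295)) (b (l 1068352015) (l 1065901583)))) (a (a (b (l 1066193423) (l 1066100239)) (b (l 1066165263)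 (l 1066084367))) (b (l 1065853967) (l 4))))) (b (b (b (a (a (a (c (l 1067185167) (l 1068613647)) (a (l 1066031119) (l 1066030607))) (a (l 1066022415) (l 4))) (l 4)) (a (a (a (c (l 1067107343) (l 1067988495)) (l 1065944079)) (l 4)) (l 4))) (l 4)) (l 4))), by decide +kernel⟩

def k7_A00pp_022_s3 : ∃ t, chk3 f_A00pp_022_s3 t 10 6 1 = true :=
  ⟨(b (a (b (a (b (l 16637128) (l 16669096)) (b (l 16672816) (c (l 16705496) (l 16682848)))) (a (b (c (l 16682104) (l 16681296)) (a (l 16692240) (l 16699512))) (b (a (l 16671720) (l 16700024)) (a (l 1066754575) (l 1066766351))))) (b (a (b (c (l 16709840) (l 16686192)) (a (l 16673848) (l 16691704))) (a (b (l 16677520) (l 1067622415)) (b (l 16705592) (b (l 16692744) (l 16698720))))) (a (b (a (l 1067011087) (l 1067047951)) (a (l 1066784783) (l 1066811407))) (a (b (b (l 16708368) (l 1067026959)) (a (l 1066839055) (l 1066859023))) (b (b (l 1067192847) (l 1067064847)) (b (l 1066943503) (l 1066827791))))))) (a (b (a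 (a (b (l 1067121679) (l 1067001359)) (b (l 1066581519) (l 1066456591))) (a (b (l 1066580495) (l 1066987023)) (b (l 1066583055) (a (l 1066446863) (l 1066444303))))) (a (b (a (l 1067475983) (l 1066934799)) (a (b (l 1066371087) (l 1066344975)) (b (l 1066373135) (l 1066351119)))) (b (a (a (l 1066395663) (l 1066393615)) (a (l 1066391055) (l 1066388495))) (a (b (l 1066375695) (l 1066358287)) (a (l 1066372623) (l 1066375183)))))) (a (b (a (b (l 1066590223) (b (l 1066471951) (l 1066413583))) (b (a (l 1066600463) (l 1066610191)) (a (l 1066440207) (l 1066441231)))) (b (a (b (l 1066382863) (l 1066382863)) (b (l 1066374671) (l 1066378767))) (a (l 1066377743) (l 1066381327)))) (b (b (a (b (l 1066680847) (l 1066578447)) (b (a (l 1066710031) (l 1066726415)) (a (l 1066604559) (l 1066621967)))) (a (a (l 1066443791) (b (l 1066491407) (l 1066411023))) (b (a (l 1066504719) (a (l 1066518031) (l 1066526735))) (a (l 1066416143) (a (l 1066424335) (l 1066432015))))))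 (b (a (b (b (l 1066369551) (l 1066362895)) (l 1066373135)) (b (a (b (l 1066366479) (l 1066354703)) (b (l 1066366991) (b (l 1066348559) (l 1066349583)))) (l 1066633743))) (a (a (l 1066384911) (l 1066385935)) (l 4))))))), by decide +kernel⟩

def k8_A00pp_022_s3 : ∃ t, chk3 f_A00pp_022_s3 t 11 12 1 = true :=
  ⟨(a (a (b (b (b (l 1067830287) (l 1068210703)) (b (a (l 16699728) (l 16706592)) (a (l 16716224) (l 1067395599)))) (b (b (a (l 1067225615) (l 1067254287)) (a (l 1067094543) (l 1067120143))) (a (b (l 1066971151) (l 1066853903)) (b (l 1066993679) (l 1066873871))))) (b (b (a (l 1067819535) (l 1067865103)) (b (a (l 16723864) (l 1067620367)) (a (l 1067429391) (l 1067464207)))) (b (b (a (l 1067284495) (l 1067314703)) (a (l 1067146255) (l 1067172367))) (b (a (c (l 1067099151) (l 1066931727)) (c (l 1067124239) (l 1066952207))) (a (c (l 1066973199) (l 1066811919)) (c (l 1066995215) (l 1066828815))))))) (b (b (a (a (l 1067910671) (l 1067958287)) (a (l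 1068007951) (l 1068060687))) (a (a (b (l 1067659791) (l 1067499535)) (b (l 1067699215) (l 1067533839))) (a (l 1067655183) (b (l 1067785231) (l 1067609615))))) (a (b (a (b (l 1067345935) (b (l 1067234831) (l 1067163663))) (b (l 1067375631) (b (l 1067261455) (l 1067188239)))) (a (b (a (l 1067056143) (l 1067067407)) (a (l 1066927119) (l 1066936847))) (b (b (l 1067117583) (l 1067049999)) (a (l 1066946575) (l 1066955791))))) (b (a (b (l 1067406351) (b (l 1067288079) (l 1067212303))) (b (b (l 1067481615) (l 1067398671)) (a (b (l 1067309071) (l 1067230735)) (b (l 1067324943) (b (l 1067264527) (l 1067225103)))))) (b (b (a (a (l 1067133967) (l 1067144207)) (a (b (l 1067173903) (l 1067137039)) (b (l 1067185167) (l 1067280399)))) (a (l 1067068943) (l 1067088399))) (a (l 1066967567) (a (l 1066979855) (l 4)))))))), by decide +kernel⟩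

def k9_A00pp_022_s3 : ∃ t, chk3 f_A00pp_022_s3 t 11 13 1 = true :=
  ⟨(a (b (a (b (a (b (a (l 1066739215) (l 1066747919)) (a (l 1066634767) (l 1066642447))) (b (l 1066760207) (a (l 1066649615) (l 1066656783)))) (a (a (b (l 1066536463) (a (l 1066442767) (l 1066445839))) (b (l 1066543631) (l 1066450959))) (b (a (l 1066549775) (l 1066555407)) (a (l 1066456079) (l 1066461199))))) (b (b (a (c (l 1066853903) (l 1066697743)) (b (l 1066822159) (l 1066764303))) (a (a (l 1066663951) (l 1066670607)) (a (l 1066677263) (l 1066683919)))) (a (b (a (l 1066561551) (l 1066567183)) (a (b (l 1066488847) (l 1066442767)) (b (l 1066493967) (l 4)))) (b (a (l 1066572303) (l 1066577935)) (l 4))))) (a (b (b (b (a (a (a (l 1066373647) (l 1066381839)) (l 1066385423)) (a (l 1066390031) (l 4))) (b (a (a (a (l 1066343439) (a (l 1066353167) (l 1066352143))) (l 1066354191)) (l 4)) (a (a (a (l 1066344463) (a (l 1066331151) (l 1066336271))) (l 4)) (l 4)))) (a (a (a (l 1066359823)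 (l 4)) (l 4)) (l 4))) (l 4)) (l 4))) (b (b (a (a (b (c (a (l 1066886671) (l 1066895887)) (a (l 1066722831) (l 1066729999))) (b (l 1066721807) (l 1066665487))) (b (c (a (l 1066904591) (l 1066913295)) (a (l 1066737167) (l 1066744335))) (a (b (c (l 1066812943) (l 1066649615)) (l 4)) (l 4)))) (b (a (b (l 1066870287) (l 4)) (l 4)) (l 4))) (l 4)) (l 4))), by decide +kernel⟩

def k10_A00pp_022_s3 : ∃ t, chk3 f_A00pp_022_s3 t 5 7 1 = true :=
  ⟨(a (b (b (a (a (a (b (a (l 1066296335) (l 1066301967)) (l 1066755599)) (b (l 1066309647) (l 1066237967))) (b (a (b (b (l 1066341903) (l 1066329103)) (l 1066308111)) (b (a (l 1066345487) (l 1066351631)) (l 1066323983))) (a (l 1066258447) (l 4)))) (a (b (a (b (b (l 1066362895) (l 4)) (l 4)) (l 4)) (l 4)) (l 4))) (l 4)) (l 4)) (l 4)), by decide +kernel⟩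

def k11_A00pp_022_s3 : ∃ t, chk3 f_A00pp_022_s3 t 3 1 1 = true :=
  ⟨(b (a (b (b (a (b (l 6) (l 16715640)) (a (b (l 16635904) (l 16652168)) (b (l 16647208) (l 16664824)))) (a (a (l 16734672) (l 16730168)) (a (b (l 16671088) (l 16694080)) (b (l 16768680) (l 66672604007))))) (a (b (a (b (l 16682072) (l 1071080463)) (b (l 16742376) (a (l 16716400) (l 16767608)))) (a (a (b (l 1069150223) (b (l 1068811791) (l 1068523023))) (b (l 1069254671) (b (l 1068937743) (l 1068660239)))) (b (a (l 1069341199) (l 1069388815)) (a (b (l 1069055503) (b (l 1068879887) (l 1068726287))) (a (l 1068995087) (l 1069038095)))))) (b (b (a (l 16759600) (a (l 16729824) (l 72578220487))) (a (l 1069633551) (a (l 1069566991) (l 1069493775)))) (b (a (l 1070571535) (a (l 1069748751) (l 1069692431))) (a (l 1069152271) (a (l 1069267983) (l 4))))))) (b (l 2) (b (l 2) (b (l 2) (l 4))))) (a (b (b (a (a (b (b (a (l 1068143119) (l 1068264463)) (b (a (l 1067854351) (l 1067956751)) (a (l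 1067669519) (l 1067758607)))) (b (a (b (a (l 1067473935) (l 1067509775)) (a (a (b (l 1067339791) (l 1067257871)) (l 1067313167)) (l 1067335695))) (b (l 1067567631) (l 4))) (a (b (a (b (a (a (b (l 1067194895) (a (l 1067154447) (l 1067157007))) (l 1067181583)) (l 1067190799)) (l 4)) (l 4)) (l 4)) (l 4)))) (b (a (b (b (l 1068515343) (l 1068291599)) (l 1067966479)) (b (a (l 1068520463) (b (l 1068764687) (l 4))) (l 4))) (l 4))) (l 4)) (l 4)) (l 4)) (l 4))), by decide +kernel⟩

theorem t12_A00pp_022_s3 : ∃ t, chk3 f_A00pp_022_s3 t 11 6 1 = true := ex3_b k8_A00pp_022_s3 k9_A00pp_022_s3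

theorem t13_A00pp_022_s3 : ∃ t, chk3 f_A00pp_022_s3 t 5 6 1 = true := ex3_a k7_A00pp_022_s3 t12_A00pp_022_s3

theorem t14_A00pp_022_s3 : ∃ t, chk3 f_A00pp_022_s3 t 5 3 1 = true := ex3_b t13_A00pp_022_s3 k10_A00pp_022_s3

theorem t15_A00pp_022_s3 : ∃ t, chk3 f_A00pp_022_s3 t 8 14 1 = true := ex3_b k3_A00pp_022_s3 k4_A00pp_022_s3

theorem t16_A00pp_022_s3 : ∃ t, chk3 f_A00pp_022_s3 t 8 7 1 = true := ex3_b t15_A00pp_022_s3 k5_A00pp_022_s3

theorem t17_A00pp_022_s3 : ∃ t, chk3 f_A00pp_022_s3 t 4 7 1 = true := ex3_a t16_A00pp_022_s3 k6_A00pp_022_s3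

theorem t18_A00pp_022_s3 : ∃ t, chk3 f_A00pp_022_s3 t 4 6 1 = true := ex3_a k1_A00pp_022_s3 k2_A00pp_022_s3

theorem t19_A00pp_022_s3 : ∃ t, chk3 f_A00pp_022_s3 t 4 3 1 = true := ex3_b t18_A00pp_022_s3 t17_A00pp_022_s3

theorem t20_A00pp_022_s3 : ∃ t, chk3 f_A00pp_022_s3 t 2 3 1 = true := ex3_a t19_A00pp_022_s3 t14_A00pp_022_s3

theorem t21_A00pp_022_s3 : ∃ t, chk3 f_A00pp_022_s3 t 2 1 1 = true := ex3_b k0_A00pp_022_s3 t20_A00pp_022_s3

theorem t22_A00pp_022_s3 : ∃ t, chk3 f_A00pp_022_s3 t 1 1 1 = true := ex3_a t21_A00pp_022_s3 k11_A00pp_022_s3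

theorem c_A00pp_022_s3 : CertF 0 536870912 0 536870912 536870912 50465866 true true true .pp 0 2 2
    ndB0q0 ndB0q2 pcB2 cut_A00pp_022_s3 xt_A00pp_022_s3 :=
  certF0 (fam := true) (s1 := true) (s2 := true) (a := 0) (b := 2) (c := 2) (cn := .pp) (n1 := ndB0q0) (n2 := ndB0q2) (pc := pcB2) (cut := cut_A00pp_022_s3) (xt := xt_A00pp_022_s3) (P1 := 0) (W1 := 536870912) (P2 := 0) (W2 := 536870912) (P3 := 536870912) (W3 := 50465866)
    rfl t22_A00pp_022_s3

theorem s_A00pp_022_s3 {κ x : ℝ} (hκ : κ * h0 = ken x) (hx : ((536870912 : ℕ) : ℝ) / S ≤ x)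
    (hx' : x ≤ (((536870912 : ℕ) : ℝ) + (50465866 : ℕ)) / S)
    (H : CutA (VFD κ) PP tK tL pcB (Cut.of [[⟨0, 0, 0, 67108864⟩, ⟨1, 1, 0, 67108864⟩, ⟨2, 1, 0, 67108864⟩]]) 0 2 2 0 0 (sgb true) (sgb true) x) :
    AltA (VFD κ) PP tK tL pcB [⟨4, 0, 0, 2845415833⟩] 0 2 2 0 0 (sgb true) (sgb true) x :=
  strip_altAD (m := 2845415833) false rfl hκ (SH.κ0 hκ (SH.hx1 hx).le (SH.hx2 hx').le) (SH.hx1 hx).le (SH.hx2 hx') (covB00).cov (covB02).cov hx hx' c_A00pp_022_s3 H ((okx6 hx hx').extA (T := tt) (okx hx hx') (sideB hx hx') hκ rfl rfl (.O 0 true) (.O 2 true) (Or.inl rfl))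

noncomputable def cut_A00pp_023_s1 : Cut := Cut.of [[⟨4, 0, 0, 1449551462⟩]]

noncomputable def f_A00pp_023_s1 : ℕ → ℕ → ℕ → ℕ → Bool := onCell 0 536870912 0 536870912 536870912 50465866
    (rowF 0 true true true .up 0 2 3 (qsf 0 536870912 0 536870912 3) ndB0q0 ndB0q2 pcB3 cut_A00pp_023_s1 Ext.none)

def k0_A00pp_023_s1 : ∃ t, chk3 f_A00pp_023_s1 t 1 1 1 = true :=
  ⟨(l 6), by decide +kernel⟩

theorem c_A00pp_023_s1 : CertF 0 536870912 0 536870912 536870912 50465866 true true true .up 0 2 3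
    ndB0q0 ndB0q2 pcB3 cut_A00pp_023_s1 Ext.none :=
  certF0 (fam := true) (s1 := true) (s2 := true) (a := 0) (b := 2) (c := 3) (cn := .up) (n1 := ndB0q0) (n2 := ndB0q2) (pc := pcB3) (cut := cut_A00pp_023_s1) (xt := Ext.none) (P1 := 0) (W1 := 536870912) (P2 := 0) (W2 := 536870912) (P3 := 536870912) (W3 := 50465866)
    rfl k0_A00pp_023_s1

theorem s_A00pp_023_s1 {κ x : ℝ} (hκ : κ * h0 = ken x) (hx : ((536870912 : ℕ) : ℝ) / S ≤ x)
    (hx' : x ≤ (((536870912 : ℕ) : ℝ) + (50465866 : ℕ)) / S) :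
    AltA (VFD κ) PP tK tL pcB [⟨3, 0, 0, 1449551462⟩] 0 2 3 0 0 (sgb true) (sgb true) x :=
  strip_altAD (m := 1449551462) true rfl hκ (SH.κ0 hκ (SH.hx1 hx).le (SH.hx2 hx').le) (SH.hx1 hx).le (SH.hx2 hx') (covB00).cov (covB02).cov hx hx' c_A00pp_023_s1 cutA_nil (noExt_A)

noncomputable def cut_A00pp_023_s3 : Cut := Cut.of [[⟨3, 0, 0, 2845415833⟩]]

noncomputable def xt_A00pp_023_s3 : Ext := strExt6 dd true true true .u0 .u2 .s2 .up 0 2 3 rfl rfl gl3 vv ww ndB0q0 ndB0q2

noncomputable def f_A00pp_023_s3 : ℕ → ℕ → ℕ → ℕ → Bool := onCell 1610612736 536870912 0 536870912 536870912 50465866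
    (rowF 2 true true true .up 0 2 3 (qsf 0 536870912 0 536870912 3) ndB0q0 ndB0q2 pcB3 cut_A00pp_023_s3 xt_A00pp_023_s3)

def k0_A00pp_023_s3 : ∃ t, chk3 f_A00pp_023_s3 t 1 1 1 = true :=
  ⟨(a (b (b (a (a (b (a (b (l 16678448) (l 16691056)) (b (l 16678768) (l 16778488))) (a (b (l 16790344) (a (l 16724496) (l 16728592))) (b (a (l 16711296) (l 16715304)) (a (l 16775664) (l 1069005839))))) (b (a (b (l 16685448) (c (l 16795784) (l 16782704))) (b (a (l 16714808) (l 16730744)) (a (l 16731112) (l 16744904)))) (a (b (a (l 16719872) (l 16777384)) (a (l 1069038607) (c (l 1069229583) (l 1068277263)))) (b (a (b (l 16744648) (l 1069446159)) (c (l 1070455823) (l 1069629455))) (a (l 1069317647) (b (a (l 1069757455) (l 1070005263)) (l 1069805071))))))) (a (b (a (b (a (l 16744080) (l 16754664)) (a (l 1070784015) (l 1071247375))) (l 2)) (a (b (c (l 1071229455) (l 1070443535)) (a (b (l 1073113615) (l 4)) (l 4))) (l 2))) (l 2))) (a (a (b (a (b (a (l 16766160) (l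 1069900303)) (l 1070219279)) (b (a (b (l 16772408) (l 1069603343)) (b (l 1069108751) (l 1069164559))) (a (l 1069805583) (l 1069454863)))) (a (b (l 1070329359) (l 4)) (l 4))) (b (b (a (a (l 1068659215) (l 1068585487)) (l 4)) (l 4)) (l 4))) (l 4))) (l 4)) (l 2)), by decide +kernel⟩

theorem c_A00pp_023_s3 : CertF 0 536870912 0 536870912 536870912 50465866 true true true .up 0 2 3
    ndB0q0 ndB0q2 pcB3 cut_A00pp_023_s3 xt_A00pp_023_s3 :=
  certF2 (fam := true) (s1 := true) (s2 := true) (a := 0) (b := 2) (c := 3) (cn := .up) (n1 := ndB0q0) (n2 := ndB0q2) (pc := pcB3) (cut := cut_A00pp_023_s3) (xt := xt_A00pp_023_s3) (P1 := 0) (W1 := 536870912) (P2 := 0) (W2 := 536870912) (P3 := 536870912) (W3 := 50465866)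
    rfl (fun _ => rfl) k0_A00pp_023_s3

theorem s_A00pp_023_s3 {κ x : ℝ} (hκ : κ * h0 = ken x) (hx : ((536870912 : ℕ) : ℝ) / S ≤ x)
    (hx' : x ≤ (((536870912 : ℕ) : ℝ) + (50465866 : ℕ)) / S) :
    AltA (VFD κ) PP tK tL pcB [⟨4, 0, 0, 2845415833⟩] 0 2 3 0 0 (sgb true) (sgb true) x :=
  strip_altAD (m := 2845415833) false rfl hκ (SH.κ0 hκ (SH.hx1 hx).le (SH.hx2 hx').le) (SH.hx1 hx).le (SH.hx2 hx') (covB00).cov (covB02).cov hx hx' c_A00pp_023_s3 cutA_nil ((okx6 hx hx').extA (T := tt) (okx hx hx') (sideB hx hx') hκ rfl rfl (.O 0 true) (.O 2 true) (Or.inr rfl))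

noncomputable def cut_A00pp_101_s1 : Cut := Cut.of [[⟨4, 0, 0, 1449551462⟩]]

noncomputable def f_A00pp_101_s1 : ℕ → ℕ → ℕ → ℕ → Bool := onCell 536870912 536870912 0 536870912 536870912 50465866
    (rowF 0 true true true .npn 1 0 1 (qsf 536870912 536870912 0 536870912 1) ndB0q1 ndB0q0 pcB1 cut_A00pp_101_s1 Ext.none)

def k0_A00pp_101_s1 : ∃ t, chk3 f_A00pp_101_s1 t 1 1 1 = true :=
  ⟨(l 6), by decide +kernel⟩

theorem c_A00pp_101_s1 : CertF 536870912 536870912 0 536870912 536870912 50465866 true true true .npn 1 0 1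
    ndB0q1 ndB0q0 pcB1 cut_A00pp_101_s1 Ext.none :=
  certF0 (fam := true) (s1 := true) (s2 := true) (a := 1) (b := 0) (c := 1) (cn := .npn) (n1 := ndB0q1) (n2 := ndB0q0) (pc := pcB1) (cut := cut_A00pp_101_s1) (xt := Ext.none) (P1 := 536870912) (W1 := 536870912) (P2 := 0) (W2 := 536870912) (P3 := 536870912) (W3 := 50465866)
    rfl k0_A00pp_101_s1

theorem s_A00pp_101_s1 {κ x : ℝ} (hκ : κ * h0 = ken x) (hx : ((536870912 : ℕ) : ℝ) / S ≤ x)
    (hx' : x ≤ (((536870912 : ℕ) : ℝ) + (50465866 : ℕ)) / S) :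
    AltA (VFD κ) PP tK tL pcB [⟨3, 0, 0, 1449551462⟩] 1 0 1 0 0 (sgb true) (sgb true) x :=
  strip_altAD (m := 1449551462) true rfl hκ (SH.κ0 hκ (SH.hx1 hx).le (SH.hx2 hx').le) (SH.hx1 hx).le (SH.hx2 hx') (covB01).cov (covB00).cov hx hx' c_A00pp_101_s1 cutA_nil (noExt_A)

noncomputable def cut_A00pp_101_s3 : Cut := Cut.of [[⟨3, 0, 0, 2845415833⟩]]

noncomputable def f_A00pp_101_s3 : ℕ → ℕ → ℕ → ℕ → Bool := onCell 536870912 536870912 0 536870912 536870912 50465866
    (rowF 0 true true true .npn 1 0 1 (qsf 536870912 536870912 0 536870912 1) ndB0q1 ndB0q0 pcB1 cut_A00pp_101_s3 Ext.none)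

def k0_A00pp_101_s3 : ∃ t, chk3 f_A00pp_101_s3 t 1 1 1 = true :=
  ⟨(a (l 4) (l 5)), by decide +kernel⟩

theorem c_A00pp_101_s3 : CertF 536870912 536870912 0 536870912 536870912 50465866 true true true .npn 1 0 1
    ndB0q1 ndB0q0 pcB1 cut_A00pp_101_s3 Ext.none :=
  certF0 (fam := true) (s1 := true) (s2 := true) (a := 1) (b := 0) (c := 1) (cn := .npn) (n1 := ndB0q1) (n2 := ndB0q0) (pc := pcB1) (cut := cut_A00pp_101_s3) (xt := Ext.none) (P1 := 536870912) (W1 := 536870912) (P2 := 0) (W2 := 536870912) (P3 := 536870912) (W3 := 50465866)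
    rfl k0_A00pp_101_s3

theorem s_A00pp_101_s3 {κ x : ℝ} (hκ : κ * h0 = ken x) (hx : ((536870912 : ℕ) : ℝ) / S ≤ x)
    (hx' : x ≤ (((536870912 : ℕ) : ℝ) + (50465866 : ℕ)) / S) :
    AltA (VFD κ) PP tK tL pcB [⟨4, 0, 0, 2845415833⟩] 1 0 1 0 0 (sgb true) (sgb true) x :=
  strip_altAD (m := 2845415833) false rfl hκ (SH.κ0 hκ (SH.hx1 hx).le (SH.hx2 hx').le) (SH.hx1 hx).le (SH.hx2 hx') (covB01).cov (covB00).cov hx hx' c_A00pp_101_s3 cutA_nil (noExt_A)

noncomputable def cut_A00pp_102_s1 : Cut := Cut.of [[⟨4, 0, 0, 1449551462⟩]]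

noncomputable def f_A00pp_102_s1 : ℕ → ℕ → ℕ → ℕ → Bool := onCell 536870912 536870912 0 536870912 536870912 50465866
    (rowF 0 true true true .npp 1 0 2 (qsf 536870912 536870912 0 536870912 2) ndB0q1 ndB0q0 pcB2 cut_A00pp_102_s1 Ext.none)

def k0_A00pp_102_s1 : ∃ t, chk3 f_A00pp_102_s1 t 1 1 1 = true :=
  ⟨(l 6), by decide +kernel⟩

theorem c_A00pp_102_s1 : CertF 536870912 536870912 0 536870912 536870912 50465866 true true true .npp 1 0 2
    ndB0q1 ndB0q0 pcB2 cut_A00pp_102_s1 Ext.none :=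
  certF0 (fam := true) (s1 := true) (s2 := true) (a := 1) (b := 0) (c := 2) (cn := .npp) (n1 := ndB0q1) (n2 := ndB0q0) (pc := pcB2) (cut := cut_A00pp_102_s1) (xt := Ext.none) (P1 := 536870912) (W1 := 536870912) (P2 := 0) (W2 := 536870912) (P3 := 536870912) (W3 := 50465866)
    rfl k0_A00pp_102_s1

theorem s_A00pp_102_s1 {κ x : ℝ} (hκ : κ * h0 = ken x) (hx : ((536870912 : ℕ) : ℝ) / S ≤ x)
    (hx' : x ≤ (((536870912 : ℕ) : ℝ) + (50465866 : ℕ)) / S) :
    AltA (VFD κ) PP tK tL pcB [⟨3, 0, 0, 1449551462⟩] 1 0 2 0 0 (sgb true) (sgb true) x :=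
  strip_altAD (m := 1449551462) true rfl hκ (SH.κ0 hκ (SH.hx1 hx).le (SH.hx2 hx').le) (SH.hx1 hx).le (SH.hx2 hx') (covB01).cov (covB00).cov hx hx' c_A00pp_102_s1 cutA_nil (noExt_A)

noncomputable def cut_A00pp_102_s3 : Cut := Cut.of [[⟨3, 0, 0, 2845415833⟩]]

noncomputable def f_A00pp_102_s3 : ℕ → ℕ → ℕ → ℕ → Bool := onCell 536870912 536870912 0 536870912 536870912 50465866
    (rowF 0 true true true .npp 1 0 2 (qsf 536870912 536870912 0 536870912 2) ndB0q1 ndB0q0 pcB2 cut_A00pp_102_s3 Ext.none)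

def k0_A00pp_102_s3 : ∃ t, chk3 f_A00pp_102_s3 t 1 1 1 = true :=
  ⟨(a (l 4) (l 5)), by decide +kernel⟩

theorem c_A00pp_102_s3 : CertF 536870912 536870912 0 536870912 536870912 50465866 true true true .npp 1 0 2
    ndB0q1 ndB0q0 pcB2 cut_A00pp_102_s3 Ext.none :=
  certF0 (fam := true) (s1 := true) (s2 := true) (a := 1) (b := 0) (c := 2) (cn := .npp) (n1 := ndB0q1) (n2 := ndB0q0) (pc := pcB2) (cut := cut_A00pp_102_s3) (xt := Ext.none) (P1 := 536870912) (W1 := 536870912) (P2 := 0) (W2 := 536870912) (P3 := 536870912) (W3 := 50465866)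
    rfl k0_A00pp_102_s3

theorem s_A00pp_102_s3 {κ x : ℝ} (hκ : κ * h0 = ken x) (hx : ((536870912 : ℕ) : ℝ) / S ≤ x)
    (hx' : x ≤ (((536870912 : ℕ) : ℝ) + (50465866 : ℕ)) / S) :
    AltA (VFD κ) PP tK tL pcB [⟨4, 0, 0, 2845415833⟩] 1 0 2 0 0 (sgb true) (sgb true) x :=
  strip_altAD (m := 2845415833) false rfl hκ (SH.κ0 hκ (SH.hx1 hx).le (SH.hx2 hx').le) (SH.hx1 hx).le (SH.hx2 hx') (covB01).cov (covB00).cov hx hx' c_A00pp_102_s3 cutA_nil (noExt_A)

noncomputable def cut_A00pp_112_s1 : Cut := Cut.of [[⟨4, 0, 0, 1449551462⟩]]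

noncomputable def f_A00pp_112_s1 : ℕ → ℕ → ℕ → ℕ → Bool := onCell 536870912 536870912 536870912 536870912 536870912 50465866
    (rowF 0 true true true .dn 1 1 2 (qsf 536870912 536870912 536870912 536870912 2) ndB0q1 ndB0q1 pcB2 cut_A00pp_112_s1 Ext.none)

def k0_A00pp_112_s1 : ∃ t, chk3 f_A00pp_112_s1 t 1 1 1 = true :=
  ⟨(l 4), by decide +kernel⟩

theorem c_A00pp_112_s1 : CertF 536870912 536870912 536870912 536870912 536870912 50465866 true true true .dn 1 1 2
    ndB0q1 ndB0q1 pcB2 cut_A00pp_112_s1 Ext.none :=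
  certF0 (fam := true) (s1 := true) (s2 := true) (a := 1) (b := 1) (c := 2) (cn := .dn) (n1 := ndB0q1) (n2 := ndB0q1) (pc := pcB2) (cut := cut_A00pp_112_s1) (xt := Ext.none) (P1 := 536870912) (W1 := 536870912) (P2 := 536870912) (W2 := 536870912) (P3 := 536870912) (W3 := 50465866)
    rfl k0_A00pp_112_s1

theorem s_A00pp_112_s1 {κ x : ℝ} (hκ : κ * h0 = ken x) (hx : ((536870912 : ℕ) : ℝ) / S ≤ x)
    (hx' : x ≤ (((536870912 : ℕ) : ℝ) + (50465866 : ℕ)) / S) :
    AltA (VFD κ) PP tK tL pcB [⟨3, 0, 0, 1449551462⟩] 1 1 2 0 0 (sgb true) (sgb true) x :=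
  strip_altAD (m := 1449551462) true rfl hκ (SH.κ0 hκ (SH.hx1 hx).le (SH.hx2 hx').le) (SH.hx1 hx).le (SH.hx2 hx') (covB01).cov (covB01).cov hx hx' c_A00pp_112_s1 cutA_nil (noExt_A)

noncomputable def cut_A00pp_112_s3 : Cut := Cut.of [[⟨3, 0, 0, 2845415833⟩]]

noncomputable def f_A00pp_112_s3 : ℕ → ℕ → ℕ → ℕ → Bool := onCell 536870912 536870912 536870912 536870912 536870912 50465866
    (rowF 0 true true true .dn 1 1 2 (qsf 536870912 536870912 536870912 536870912 2) ndB0q1 ndB0q1 pcB2 cut_A00pp_112_s3 Ext.none)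

def k0_A00pp_112_s3 : ∃ t, chk3 f_A00pp_112_s3 t 1 1 1 = true :=
  ⟨(l 4), by decide +kernel⟩

theorem c_A00pp_112_s3 : CertF 536870912 536870912 536870912 536870912 536870912 50465866 true true true .dn 1 1 2
    ndB0q1 ndB0q1 pcB2 cut_A00pp_112_s3 Ext.none :=
  certF0 (fam := true) (s1 := true) (s2 := true) (a := 1) (b := 1) (c := 2) (cn := .dn) (n1 := ndB0q1) (n2 := ndB0q1) (pc := pcB2) (cut := cut_A00pp_112_s3) (xt := Ext.none) (P1 := 536870912) (W1 := 536870912) (P2 := 536870912) (W2 := 536870912) (P3 := 536870912) (W3 := 50465866)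
    rfl k0_A00pp_112_s3

theorem s_A00pp_112_s3 {κ x : ℝ} (hκ : κ * h0 = ken x) (hx : ((536870912 : ℕ) : ℝ) / S ≤ x)
    (hx' : x ≤ (((536870912 : ℕ) : ℝ) + (50465866 : ℕ)) / S) :
    AltA (VFD κ) PP tK tL pcB [⟨4, 0, 0, 2845415833⟩] 1 1 2 0 0 (sgb true) (sgb true) x :=
  strip_altAD (m := 2845415833) false rfl hκ (SH.κ0 hκ (SH.hx1 hx).le (SH.hx2 hx').le) (SH.hx1 hx).le (SH.hx2 hx') (covB01).cov (covB01).cov hx hx' c_A00pp_112_s3 cutA_nil (noExt_A)

noncomputable def cut_A00pp_113_s1 : Cut := Cut.of [[⟨4, 0, 0, 1449551462⟩]]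

noncomputable def f_A00pp_113_s1 : ℕ → ℕ → ℕ → ℕ → Bool := onCell 536870912 536870912 536870912 536870912 536870912 50465866
    (rowF 0 true true true .nn 1 1 3 (qsf 536870912 536870912 536870912 536870912 3) ndB0q1 ndB0q1 pcB3 cut_A00pp_113_s1 Ext.none)

def k0_A00pp_113_s1 : ∃ t, chk3 f_A00pp_113_s1 t 1 1 1 = true :=
  ⟨(l 4), by decide +kernel⟩

theorem c_A00pp_113_s1 : CertF 536870912 536870912 536870912 536870912 536870912 50465866 true true true .nn 1 1 3
    ndB0q1 ndB0q1 pcB3 cut_A00pp_113_s1 Ext.none :=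
  certF0 (fam := true) (s1 := true) (s2 := true) (a := 1) (b := 1) (c := 3) (cn := .nn) (n1 := ndB0q1) (n2 := ndB0q1) (pc := pcB3) (cut := cut_A00pp_113_s1) (xt := Ext.none) (P1 := 536870912) (W1 := 536870912) (P2 := 536870912) (W2 := 536870912) (P3 := 536870912) (W3 := 50465866)
    rfl k0_A00pp_113_s1

theorem s_A00pp_113_s1 {κ x : ℝ} (hκ : κ * h0 = ken x) (hx : ((536870912 : ℕ) : ℝ) / S ≤ x)
    (hx' : x ≤ (((536870912 : ℕ) : ℝ) + (50465866 : ℕ)) / S) :
    AltA (VFD κ) PP tK tL pcB [⟨3, 0, 0, 1449551462⟩] 1 1 3 0 0 (sgb true) (sgb true) x :=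
  strip_altAD (m := 1449551462) true rfl hκ (SH.κ0 hκ (SH.hx1 hx).le (SH.hx2 hx').le) (SH.hx1 hx).le (SH.hx2 hx') (covB01).cov (covB01).cov hx hx' c_A00pp_113_s1 cutA_nil (noExt_A)

noncomputable def cut_A00pp_113_s3 : Cut := Cut.of [[⟨3, 0, 0, 2845415833⟩]]

noncomputable def f_A00pp_113_s3 : ℕ → ℕ → ℕ → ℕ → Bool := onCell 536870912 536870912 536870912 536870912 536870912 50465866
    (rowF 0 true true true .nn 1 1 3 (qsf 536870912 536870912 536870912 536870912 3) ndB0q1 ndB0q1 pcB3 cut_A00pp_113_s3 Ext.none)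

def k0_A00pp_113_s3 : ∃ t, chk3 f_A00pp_113_s3 t 1 1 1 = true :=
  ⟨(l 4), by decide +kernel⟩

theorem c_A00pp_113_s3 : CertF 536870912 536870912 536870912 536870912 536870912 50465866 true true true .nn 1 1 3
    ndB0q1 ndB0q1 pcB3 cut_A00pp_113_s3 Ext.none :=
  certF0 (fam := true) (s1 := true) (s2 := true) (a := 1) (b := 1) (c := 3) (cn := .nn) (n1 := ndB0q1) (n2 := ndB0q1) (pc := pcB3) (cut := cut_A00pp_113_s3) (xt := Ext.none) (P1 := 536870912) (W1 := 536870912) (P2 := 536870912) (W2 := 536870912) (P3 := 536870912) (W3 := 50465866)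
    rfl k0_A00pp_113_s3

theorem s_A00pp_113_s3 {κ x : ℝ} (hκ : κ * h0 = ken x) (hx : ((536870912 : ℕ) : ℝ) / S ≤ x)
    (hx' : x ≤ (((536870912 : ℕ) : ℝ) + (50465866 : ℕ)) / S) :
    AltA (VFD κ) PP tK tL pcB [⟨4, 0, 0, 2845415833⟩] 1 1 3 0 0 (sgb true) (sgb true) x :=
  strip_altAD (m := 2845415833) false rfl hκ (SH.κ0 hκ (SH.hx1 hx).le (SH.hx2 hx').le) (SH.hx1 hx).le (SH.hx2 hx') (covB01).cov (covB01).cov hx hx' c_A00pp_113_s3 cutA_nil (noExt_A)

noncomputable def cut_A00pp_123_s1 : Cut := Cut.of [[⟨4, 0, 0, 1449551462⟩]]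

noncomputable def f_A00pp_123_s1 : ℕ → ℕ → ℕ → ℕ → Bool := onCell 536870912 536870912 0 536870912 536870912 50465866
    (rowF 0 true true true .npn 1 2 3 (qsf 536870912 536870912 0 536870912 3) ndB0q1 ndB0q2 pcB3 cut_A00pp_123_s1 Ext.none)

def k0_A00pp_123_s1 : ∃ t, chk3 f_A00pp_123_s1 t 1 1 1 = true :=
  ⟨(l 6), by decide +kernel⟩

theorem c_A00pp_123_s1 : CertF 536870912 536870912 0 536870912 536870912 50465866 true true true .npn 1 2 3
    ndB0q1 ndB0q2 pcB3 cut_A00pp_123_s1 Ext.none :=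
  certF0 (fam := true) (s1 := true) (s2 := true) (a := 1) (b := 2) (c := 3) (cn := .npn) (n1 := ndB0q1) (n2 := ndB0q2) (pc := pcB3) (cut := cut_A00pp_123_s1) (xt := Ext.none) (P1 := 536870912) (W1 := 536870912) (P2 := 0) (W2 := 536870912) (P3 := 536870912) (W3 := 50465866)
    rfl k0_A00pp_123_s1

theorem s_A00pp_123_s1 {κ x : ℝ} (hκ : κ * h0 = ken x) (hx : ((536870912 : ℕ) : ℝ) / S ≤ x)
    (hx' : x ≤ (((536870912 : ℕ) : ℝ) + (50465866 : ℕ)) / S) :
    AltA (VFD κ) PP tK tL pcB [⟨3, 0, 0, 1449551462⟩] 1 2 3 0 0 (sgb true) (sgb true) x :=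
  strip_altAD (m := 1449551462) true rfl hκ (SH.κ0 hκ (SH.hx1 hx).le (SH.hx2 hx').le) (SH.hx1 hx).le (SH.hx2 hx') (covB01).cov (covB02).cov hx hx' c_A00pp_123_s1 cutA_nil (noExt_A)

noncomputable def cut_A00pp_123_s3 : Cut := Cut.of [[⟨3, 0, 0, 2845415833⟩]]

noncomputable def xt_A00pp_123_s3 : Ext := strExt6 dd true true true .u0 .u2 .s2 .npn 1 2 3 rfl rfl gl3 vv ww ndB0q1 ndB0q2

noncomputable def f_A00pp_123_s3 : ℕ → ℕ → ℕ → ℕ → Bool := onCell 536870912 536870912 0 536870912 536870912 50465866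
    (rowF 0 true true true .npn 1 2 3 (qsf 536870912 536870912 0 536870912 3) ndB0q1 ndB0q2 pcB3 cut_A00pp_123_s3 xt_A00pp_123_s3)

def k0_A00pp_123_s3 : ∃ t, chk3 f_A00pp_123_s3 t 1 1 1 = true :=
  ⟨(a (b (a (b (a (b (a (b (b (l 1071917583) (l 1071847951)) (l 1071737359)) (b (b (a (l 1072229903) (l 1072491535)) (l 1072308751)) (l 1072212495))) (b (a (l 1071525903) (l 4)) (l 4))) (b (a (a (b (b (l 1072804367) (l 4)) (l 4)) (l 4)) (l 4)) (l 4))) (l 4)) (l 4)) (l 4)) (l 4)), by decide +kernel⟩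

theorem c_A00pp_123_s3 : CertF 536870912 536870912 0 536870912 536870912 50465866 true true true .npn 1 2 3
    ndB0q1 ndB0q2 pcB3 cut_A00pp_123_s3 xt_A00pp_123_s3 :=
  certF0 (fam := true) (s1 := true) (s2 := true) (a := 1) (b := 2) (c := 3) (cn := .npn) (n1 := ndB0q1) (n2 := ndB0q2) (pc := pcB3) (cut := cut_A00pp_123_s3) (xt := xt_A00pp_123_s3) (P1 := 536870912) (W1 := 536870912) (P2 := 0) (W2 := 536870912) (P3 := 536870912) (W3 := 50465866)
    rfl k0_A00pp_123_s3

theorem s_A00pp_123_s3 {κ x : ℝ} (hκ : κ * h0 = ken x) (hx : ((536870912 : ℕ) : ℝ) / S ≤ x)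
    (hx' : x ≤ (((536870912 : ℕ) : ℝ) + (50465866 : ℕ)) / S) :
    AltA (VFD κ) PP tK tL pcB [⟨4, 0, 0, 2845415833⟩] 1 2 3 0 0 (sgb true) (sgb true) x :=
  strip_altAD (m := 2845415833) false rfl hκ (SH.κ0 hκ (SH.hx1 hx).le (SH.hx2 hx').le) (SH.hx1 hx).le (SH.hx2 hx') (covB01).cov (covB02).cov hx hx' c_A00pp_123_s3 cutA_nil ((okx6 hx hx').extA (T := tt) (okx hx hx') (sideB hx hx') hκ rfl rfl (.O 1 true) (.O 2 true) (Or.inr rfl))

noncomputable def cut_A00pp_202_s1 : Cut := Cut.of [[⟨4, 0, 0, 1449551462⟩]]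

noncomputable def f_A00pp_202_s1 : ℕ → ℕ → ℕ → ℕ → Bool := onCell 0 536870912 0 536870912 536870912 50465866
    (rowF 0 true true true .pp 2 0 2 (qsf 0 536870912 0 536870912 2) ndB0q2 ndB0q0 pcB2 cut_A00pp_202_s1 Ext.none)

def k0_A00pp_202_s1 : ∃ t, chk3 f_A00pp_202_s1 t 1 1 1 = true :=
  ⟨(l 5), by decide +kernel⟩

theorem c_A00pp_202_s1 : CertF 0 536870912 0 536870912 536870912 50465866 true true true .pp 2 0 2
    ndB0q2 ndB0q0 pcB2 cut_A00pp_202_s1 Ext.none :=
  certF0 (fam := true) (s1 := true) (s2 := true) (a := 2) (b := 0) (c := 2) (cn := .pp) (n1 := ndB0q2) (n2 := ndB0q0) (pc := pcB2) (cut := cut_A00pp_202_s1) (xt := Ext.none) (P1 := 0) (W1 := 536870912) (P2 := 0) (W2 := 536870912) (P3 := 536870912) (W3 := 50465866)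
    rfl k0_A00pp_202_s1

theorem s_A00pp_202_s1 {κ x : ℝ} (hκ : κ * h0 = ken x) (hx : ((536870912 : ℕ) : ℝ) / S ≤ x)
    (hx' : x ≤ (((536870912 : ℕ) : ℝ) + (50465866 : ℕ)) / S) :
    AltA (VFD κ) PP tK tL pcB [⟨3, 0, 0, 1449551462⟩] 2 0 2 0 0 (sgb true) (sgb true) x :=
  strip_altAD (m := 1449551462) true rfl hκ (SH.κ0 hκ (SH.hx1 hx).le (SH.hx2 hx').le) (SH.hx1 hx).le (SH.hx2 hx') (covB02).cov (covB00).cov hx hx' c_A00pp_202_s1 cutA_nil (noExt_A)

noncomputable def cut_A00pp_202_s3 : Cut := Cut.of [[⟨3, 0, 0, 2845415833⟩]]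

noncomputable def f_A00pp_202_s3 : ℕ → ℕ → ℕ → ℕ → Bool := onCell 0 536870912 0 536870912 536870912 50465866
    (rowF 0 true true true .pp 2 0 2 (qsf 0 536870912 0 536870912 2) ndB0q2 ndB0q0 pcB2 cut_A00pp_202_s3 Ext.none)

def k0_A00pp_202_s3 : ∃ t, chk3 f_A00pp_202_s3 t 1 1 1 = true :=
  ⟨(l 5), by decide +kernel⟩

theorem c_A00pp_202_s3 : CertF 0 536870912 0 536870912 536870912 50465866 true true true .pp 2 0 2
    ndB0q2 ndB0q0 pcB2 cut_A00pp_202_s3 Ext.none :=
  certF0 (fam := true) (s1 := true) (s2 := true) (a := 2) (b := 0) (c := 2) (cn := .pp) (n1 := ndB0q2) (n2 := ndB0q0) (pc := pcB2) (cut := cut_A00pp_202_s3) (xt := Ext.none) (P1 := 0) (W1 := 536870912) (P2 := 0) (W2 := 536870912) (P3 := 536870912) (W3 := 50465866)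
    rfl k0_A00pp_202_s3

theorem s_A00pp_202_s3 {κ x : ℝ} (hκ : κ * h0 = ken x) (hx : ((536870912 : ℕ) : ℝ) / S ≤ x)
    (hx' : x ≤ (((536870912 : ℕ) : ℝ) + (50465866 : ℕ)) / S) :
    AltA (VFD κ) PP tK tL pcB [⟨4, 0, 0, 2845415833⟩] 2 0 2 0 0 (sgb true) (sgb true) x :=
  strip_altAD (m := 2845415833) false rfl hκ (SH.κ0 hκ (SH.hx1 hx).le (SH.hx2 hx').le) (SH.hx1 hx).le (SH.hx2 hx') (covB02).cov (covB00).cov hx hx' c_A00pp_202_s3 cutA_nil (noExt_A)

noncomputable def cut_A00pp_203_s1 : Cut := Cut.of [[⟨4, 0, 0, 1449551462⟩]]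

noncomputable def f_A00pp_203_s1 : ℕ → ℕ → ℕ → ℕ → Bool := onCell 0 536870912 0 536870912 536870912 50465866
    (rowF 0 true true true .up 2 0 3 (qsf 0 536870912 0 536870912 3) ndB0q2 ndB0q0 pcB3 cut_A00pp_203_s1 Ext.none)

def k0_A00pp_203_s1 : ∃ t, chk3 f_A00pp_203_s1 t 1 1 1 = true :=
  ⟨(l 5), by decide +kernel⟩

theorem c_A00pp_203_s1 : CertF 0 536870912 0 536870912 536870912 50465866 true true true .up 2 0 3
    ndB0q2 ndB0q0 pcB3 cut_A00pp_203_s1 Ext.none :=
  certF0 (fam := true) (s1 := true) (s2 := true) (a := 2) (b := 0) (c := 3) (cn := .up) (n1 := ndB0q2) (n2 := ndB0q0) (pc := pcB3) (cut := cut_A00pp_203_s1) (xt := Ext.none) (P1 := 0) (W1 := 536870912) (P2 := 0) (W2 := 536870912) (P3 := 536870912) (W3 := 50465866)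
    rfl k0_A00pp_203_s1

theorem s_A00pp_203_s1 {κ x : ℝ} (hκ : κ * h0 = ken x) (hx : ((536870912 : ℕ) : ℝ) / S ≤ x)
    (hx' : x ≤ (((536870912 : ℕ) : ℝ) + (50465866 : ℕ)) / S) :
    AltA (VFD κ) PP tK tL pcB [⟨3, 0, 0, 1449551462⟩] 2 0 3 0 0 (sgb true) (sgb true) x :=
  strip_altAD (m := 1449551462) true rfl hκ (SH.κ0 hκ (SH.hx1 hx).le (SH.hx2 hx').le) (SH.hx1 hx).le (SH.hx2 hx') (covB02).cov (covB00).cov hx hx' c_A00pp_203_s1 cutA_nil (noExt_A)

noncomputable def cut_A00pp_203_s3 : Cut := Cut.of [[⟨3, 0, 0, 2845415833⟩]]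

noncomputable def f_A00pp_203_s3 : ℕ → ℕ → ℕ → ℕ → Bool := onCell 0 536870912 0 536870912 536870912 50465866
    (rowF 0 true true true .up 2 0 3 (qsf 0 536870912 0 536870912 3) ndB0q2 ndB0q0 pcB3 cut_A00pp_203_s3 Ext.none)

def k0_A00pp_203_s3 : ∃ t, chk3 f_A00pp_203_s3 t 1 1 1 = true :=
  ⟨(l 5), by decide +kernel⟩

theorem c_A00pp_203_s3 : CertF 0 536870912 0 536870912 536870912 50465866 true true true .up 2 0 3
    ndB0q2 ndB0q0 pcB3 cut_A00pp_203_s3 Ext.none :=
  certF0 (fam := true) (s1 := true) (s2 := true) (a := 2) (b := 0) (c := 3) (cn := .up) (n1 := ndB0q2) (n2 := ndB0q0) (pc := pcB3) (cut := cut_A00pp_203_s3) (xt := Ext.none) (P1 := 0) (W1 := 536870912) (P2 := 0) (W2 := 536870912) (P3 := 536870912) (W3 := 50465866)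
    rfl k0_A00pp_203_s3

theorem s_A00pp_203_s3 {κ x : ℝ} (hκ : κ * h0 = ken x) (hx : ((536870912 : ℕ) : ℝ) / S ≤ x)
    (hx' : x ≤ (((536870912 : ℕ) : ℝ) + (50465866 : ℕ)) / S) :
    AltA (VFD κ) PP tK tL pcB [⟨4, 0, 0, 2845415833⟩] 2 0 3 0 0 (sgb true) (sgb true) x :=
  strip_altAD (m := 2845415833) false rfl hκ (SH.κ0 hκ (SH.hx1 hx).le (SH.hx2 hx').le) (SH.hx1 hx).le (SH.hx2 hx') (covB02).cov (covB00).cov hx hx' c_A00pp_203_s3 cutA_nil (noExt_A)

noncomputable def cut_A00pp_213_s1 : Cut := Cut.of [[⟨4, 0, 0, 1449551462⟩]]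

noncomputable def f_A00pp_213_s1 : ℕ → ℕ → ℕ → ℕ → Bool := onCell 0 536870912 536870912 536870912 536870912 50465866
    (rowF 0 true true true .pnn 2 1 3 (qsf 0 536870912 536870912 536870912 3) ndB0q2 ndB0q1 pcB3 cut_A00pp_213_s1 Ext.none)

def k0_A00pp_213_s1 : ∃ t, chk3 f_A00pp_213_s1 t 1 1 1 = true :=
  ⟨(l 6), by decide +kernel⟩

theorem c_A00pp_213_s1 : CertF 0 536870912 536870912 536870912 536870912 50465866 true true true .pnn 2 1 3
    ndB0q2 ndB0q1 pcB3 cut_A00pp_213_s1 Ext.none :=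
  certF0 (fam := true) (s1 := true) (s2 := true) (a := 2) (b := 1) (c := 3) (cn := .pnn) (n1 := ndB0q2) (n2 := ndB0q1) (pc := pcB3) (cut := cut_A00pp_213_s1) (xt := Ext.none) (P1 := 0) (W1 := 536870912) (P2 := 536870912) (W2 := 536870912) (P3 := 536870912) (W3 := 50465866)
    rfl k0_A00pp_213_s1

theorem s_A00pp_213_s1 {κ x : ℝ} (hκ : κ * h0 = ken x) (hx : ((536870912 : ℕ) : ℝ) / S ≤ x)
    (hx' : x ≤ (((536870912 : ℕ) : ℝ) + (50465866 : ℕ)) / S) :
    AltA (VFD κ) PP tK tL pcB [⟨3, 0, 0, 1449551462⟩] 2 1 3 0 0 (sgb true) (sgb true) x :=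
  strip_altAD (m := 1449551462) true rfl hκ (SH.κ0 hκ (SH.hx1 hx).le (SH.hx2 hx').le) (SH.hx1 hx).le (SH.hx2 hx') (covB02).cov (covB01).cov hx hx' c_A00pp_213_s1 cutA_nil (noExt_A)

noncomputable def cut_A00pp_213_s3 : Cut := Cut.of [[⟨3, 0, 0, 2845415833⟩]]

noncomputable def f_A00pp_213_s3 : ℕ → ℕ → ℕ → ℕ → Bool := onCell 0 536870912 536870912 536870912 536870912 50465866
    (rowF 0 true true true .pnn 2 1 3 (qsf 0 536870912 536870912 536870912 3) ndB0q2 ndB0q1 pcB3 cut_A00pp_213_s3 Ext.none)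

def k0_A00pp_213_s3 : ∃ t, chk3 f_A00pp_213_s3 t 1 1 1 = true :=
  ⟨(a (l 5) (l 4)), by decide +kernel⟩

theorem c_A00pp_213_s3 : CertF 0 536870912 536870912 536870912 536870912 50465866 true true true .pnn 2 1 3
    ndB0q2 ndB0q1 pcB3 cut_A00pp_213_s3 Ext.none :=
  certF0 (fam := true) (s1 := true) (s2 := true) (a := 2) (b := 1) (c := 3) (cn := .pnn) (n1 := ndB0q2) (n2 := ndB0q1) (pc := pcB3) (cut := cut_A00pp_213_s3) (xt := Ext.none) (P1 := 0) (W1 := 536870912) (P2 := 536870912) (W2 := 536870912) (P3 := 536870912) (W3 := 50465866)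
    rfl k0_A00pp_213_s3

theorem s_A00pp_213_s3 {κ x : ℝ} (hκ : κ * h0 = ken x) (hx : ((536870912 : ℕ) : ℝ) / S ≤ x)
    (hx' : x ≤ (((536870912 : ℕ) : ℝ) + (50465866 : ℕ)) / S) :
    AltA (VFD κ) PP tK tL pcB [⟨4, 0, 0, 2845415833⟩] 2 1 3 0 0 (sgb true) (sgb true) x :=
  strip_altAD (m := 2845415833) false rfl hκ (SH.κ0 hκ (SH.hx1 hx).le (SH.hx2 hx').le) (SH.hx1 hx).le (SH.hx2 hx') (covB02).cov (covB01).cov hx hx' c_A00pp_213_s3 cutA_nil (noExt_A)

noncomputable def cut_A00pm_001_s1 : Cut := Cut.of [[⟨4, 0, 0, 1449551462⟩]]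

noncomputable def f_A00pm_001_s1 : ℕ → ℕ → ℕ → ℕ → Bool := onCell 0 536870912 0 536870912 536870912 50465866
    (rowF 0 true true false .up 0 0 1 (qsf 0 536870912 0 536870912 1) ndB0q0 ndB0q0 pcB1 cut_A00pm_001_s1 Ext.none)

def k0_A00pm_001_s1 : ∃ t, chk3 f_A00pm_001_s1 t 1 1 1 = true :=
  ⟨(l 3), by decide +kernel⟩

theorem c_A00pm_001_s1 : CertF 0 536870912 0 536870912 536870912 50465866 true true false .up 0 0 1
    ndB0q0 ndB0q0 pcB1 cut_A00pm_001_s1 Ext.none :=
  certF0 (fam := true) (s1 := true) (s2 := false) (a := 0) (b := 0) (c := 1) (cn := .up) (n1 := ndB0q0) (n2 := ndB0q0) (pc := pcB1) (cut := cut_A00pm_001_s1) (xt := Ext.none) (P1 := 0) (W1 := 536870912) (P2 := 0) (W2 := 536870912) (P3 := 536870912) (W3 := 50465866)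
    rfl k0_A00pm_001_s1

theorem s_A00pm_001_s1 {κ x : ℝ} (hκ : κ * h0 = ken x) (hx : ((536870912 : ℕ) : ℝ) / S ≤ x)
    (hx' : x ≤ (((536870912 : ℕ) : ℝ) + (50465866 : ℕ)) / S) :
    AltA (VFD κ) PP tK tL pcB [⟨3, 0, 0, 1449551462⟩] 0 0 1 0 0 (sgb true) (sgb false) x :=
  strip_altAD (m := 1449551462) true rfl hκ (SH.κ0 hκ (SH.hx1 hx).le (SH.hx2 hx').le) (SH.hx1 hx).le (SH.hx2 hx') (covB00).cov (covB00).cov hx hx' c_A00pm_001_s1 cutA_nil (noExt_A)

noncomputable def cut_A00pm_001_s3 : Cut := Cut.of [[⟨3, 0, 0, 2845415833⟩]]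

noncomputable def f_A00pm_001_s3 : ℕ → ℕ → ℕ → ℕ → Bool := onCell 0 536870912 0 536870912 536870912 50465866
    (rowF 0 true true false .up 0 0 1 (qsf 0 536870912 0 536870912 1) ndB0q0 ndB0q0 pcB1 cut_A00pm_001_s3 Ext.none)

def k0_A00pm_001_s3 : ∃ t, chk3 f_A00pm_001_s3 t 1 1 1 = true :=
  ⟨(l 3), by decide +kernel⟩

theorem c_A00pm_001_s3 : CertF 0 536870912 0 536870912 536870912 50465866 true true false .up 0 0 1
    ndB0q0 ndB0q0 pcB1 cut_A00pm_001_s3 Ext.none :=
  certF0 (fam := true) (s1 := true) (s2 := false) (a := 0) (b := 0) (c := 1) (cn := .up) (n1 := ndB0q0) (n2 := ndB0q0) (pc := pcB1) (cut := cut_A00pm_001_s3) (xt := Ext.none) (P1 := 0) (W1 := 536870912) (P2 := 0) (W2 := 536870912) (P3 := 536870912) (W3 := 50465866)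
    rfl k0_A00pm_001_s3

theorem s_A00pm_001_s3 {κ x : ℝ} (hκ : κ * h0 = ken x) (hx : ((536870912 : ℕ) : ℝ) / S ≤ x)
    (hx' : x ≤ (((536870912 : ℕ) : ℝ) + (50465866 : ℕ)) / S) :
    AltA (VFD κ) PP tK tL pcB [⟨4, 0, 0, 2845415833⟩] 0 0 1 0 0 (sgb true) (sgb false) x :=
  strip_altAD (m := 2845415833) false rfl hκ (SH.κ0 hκ (SH.hx1 hx).le (SH.hx2 hx').le) (SH.hx1 hx).le (SH.hx2 hx') (covB00).cov (covB00).cov hx hx' c_A00pm_001_s3 cutA_nil (noExt_A)

noncomputable def cut_A00pm_011_s1 : Cut := Cut.of [[⟨4, 0, 0, 1449551462⟩], [⟨0, 0, 0, 67108864⟩, ⟨1, 1, 0, 67108864⟩, ⟨2, 1, 0, 67108864⟩]]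

noncomputable def f_A00pm_011_s1 : ℕ → ℕ → ℕ → ℕ → Bool := onCell 536870912 536870912 536870912 536870912 536870912 50465866
    (rowF 2 true true false .pnn 0 1 1 (qsf 0 536870912 536870912 536870912 1) ndB0q0 ndB0q1 pcB1 cut_A00pm_011_s1 Ext.none)

def k0_A00pm_011_s1 : ∃ t, chk3 f_A00pm_011_s1 t 1 1 1 = true :=
  ⟨(a (l 3) (b (l 3) (a (l 3) (b (l 3) (a (l 3) (b (l 3) (a (l 3) (b (l 3) (l 14))))))))), by decide +kernel⟩

theorem c_A00pm_011_s1 : CertF 0 536870912 536870912 536870912 536870912 50465866 true true false .pnn 0 1 1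
    ndB0q0 ndB0q1 pcB1 cut_A00pm_011_s1 Ext.none :=
  certF2 (fam := true) (s1 := true) (s2 := false) (a := 0) (b := 1) (c := 1) (cn := .pnn) (n1 := ndB0q0) (n2 := ndB0q1) (pc := pcB1) (cut := cut_A00pm_011_s1) (xt := Ext.none) (P1 := 0) (W1 := 536870912) (P2 := 536870912) (W2 := 536870912) (P3 := 536870912) (W3 := 50465866)
    rfl (fun _ => rfl) k0_A00pm_011_s1

theorem s_A00pm_011_s1 {κ x : ℝ} (hκ : κ * h0 = ken x) (hx : ((536870912 : ℕ) : ℝ) / S ≤ x)
    (hx' : x ≤ (((536870912 : ℕ) : ℝ) + (50465866 : ℕ)) / S)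
    (H : CutA (VFD κ) PP tK tL pcB (Cut.of [[⟨0, 0, 0, 67108864⟩, ⟨1, 1, 0, 67108864⟩, ⟨2, 1, 0, 67108864⟩]]) 0 1 1 0 0 (sgb true) (sgb false) x) :
    AltA (VFD κ) PP tK tL pcB [⟨3, 0, 0, 1449551462⟩] 0 1 1 0 0 (sgb true) (sgb false) x :=
  strip_altAD (m := 1449551462) true rfl hκ (SH.κ0 hκ (SH.hx1 hx).le (SH.hx2 hx').le) (SH.hx1 hx).le (SH.hx2 hx') (covB00).cov (covB01).cov hx hx' c_A00pm_011_s1 H (noExt_A)

noncomputable def cut_A00pm_011_s3 : Cut := Cut.of [[⟨3, 0, 0, 2845415833⟩], [⟨0, 0, 0, 67108864⟩, ⟨1, 1, 0, 67108864⟩, ⟨2, 1, 0, 67108864⟩]]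

noncomputable def f_A00pm_011_s3 : ℕ → ℕ → ℕ → ℕ → Bool := onCell 0 536870912 536870912 536870912 536870912 50465866
    (rowF 0 true true false .pnn 0 1 1 (qsf 0 536870912 536870912 536870912 1) ndB0q0 ndB0q1 pcB1 cut_A00pm_011_s3 Ext.none)

def k0_A00pm_011_s3 : ∃ t, chk3 f_A00pm_011_s3 t 1 1 1 = true :=
  ⟨(l 6), by decide +kernel⟩

theorem c_A00pm_011_s3 : CertF 0 536870912 536870912 536870912 536870912 50465866 true true false .pnn 0 1 1
    ndB0q0 ndB0q1 pcB1 cut_A00pm_011_s3 Ext.none :=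
  certF0 (fam := true) (s1 := true) (s2 := false) (a := 0) (b := 1) (c := 1) (cn := .pnn) (n1 := ndB0q0) (n2 := ndB0q1) (pc := pcB1) (cut := cut_A00pm_011_s3) (xt := Ext.none) (P1 := 0) (W1 := 536870912) (P2 := 536870912) (W2 := 536870912) (P3 := 536870912) (W3 := 50465866)
    rfl k0_A00pm_011_s3

theorem s_A00pm_011_s3 {κ x : ℝ} (hκ : κ * h0 = ken x) (hx : ((536870912 : ℕ) : ℝ) / S ≤ x)
    (hx' : x ≤ (((536870912 : ℕ) : ℝ) + (50465866 : ℕ)) / S)
    (H : CutA (VFD κ) PP tK tL pcB (Cut.of [[⟨0, 0, 0, 67108864⟩, ⟨1, 1, 0, 67108864⟩, ⟨2, 1, 0, 67108864⟩]]) 0 1 1 0 0 (sgb true) (sgb false) x) :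
    AltA (VFD κ) PP tK tL pcB [⟨4, 0, 0, 2845415833⟩] 0 1 1 0 0 (sgb true) (sgb false) x :=
  strip_altAD (m := 2845415833) false rfl hκ (SH.κ0 hκ (SH.hx1 hx).le (SH.hx2 hx').le) (SH.hx1 hx).le (SH.hx2 hx') (covB00).cov (covB01).cov hx hx' c_A00pm_011_s3 H (noExt_A)

noncomputable def cut_A00pm_012_s3 : Cut := Cut.of [[⟨3, 0, 0, 2845415833⟩], [⟨0, 0, 0, 67108864⟩, ⟨1, 1, 0, 67108864⟩, ⟨2, 1, 0, 67108864⟩], [⟨0, 0, 1, 20971520⟩, ⟨1, 1, 0, 33554432⟩, ⟨2, 1, 1, 20971520⟩]]

noncomputable def f_A00pm_012_s3 : ℕ → ℕ → ℕ → ℕ → Bool := onCell 0 536870912 536870912 536870912 536870912 50465866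
    (rowF 0 true true false .pnp 0 1 2 (qsf 0 536870912 536870912 536870912 2) ndB0q0 ndB0q1 pcB2 cut_A00pm_012_s3 Ext.none)

def k0_A00pm_012_s3 : ∃ t, chk3 f_A00pm_012_s3 t 1 1 1 = true :=
  ⟨(l 6), by decide +kernel⟩

theorem c_A00pm_012_s3 : CertF 0 536870912 536870912 536870912 536870912 50465866 true true false .pnp 0 1 2
    ndB0q0 ndB0q1 pcB2 cut_A00pm_012_s3 Ext.none :=
  certF0 (fam := true) (s1 := true) (s2 := false) (a := 0) (b := 1) (c := 2) (cn := .pnp) (n1 := ndB0q0) (n2 := ndB0q1) (pc := pcB2) (cut := cut_A00pm_012_s3) (xt := Ext.none) (P1 := 0) (W1 := 536870912) (P2 := 536870912) (W2 := 536870912) (P3 := 536870912) (W3 := 50465866)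
    rfl k0_A00pm_012_s3

theorem s_A00pm_012_s3 {κ x : ℝ} (hκ : κ * h0 = ken x) (hx : ((536870912 : ℕ) : ℝ) / S ≤ x)
    (hx' : x ≤ (((536870912 : ℕ) : ℝ) + (50465866 : ℕ)) / S)
    (H : CutA (VFD κ) PP tK tL pcB (Cut.of [[⟨0, 0, 0, 67108864⟩, ⟨1, 1, 0, 67108864⟩, ⟨2, 1, 0, 67108864⟩], [⟨0, 0, 1, 20971520⟩, ⟨1, 1, 0, 33554432⟩, ⟨2, 1, 1, 20971520⟩]]) 0 1 2 0 0 (sgb true) (sgb false) x) :
    AltA (VFD κ) PP tK tL pcB [⟨4, 0, 0, 2845415833⟩] 0 1 2 0 0 (sgb true) (sgb false) x :=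
  strip_altAD (m := 2845415833) false rfl hκ (SH.κ0 hκ (SH.hx1 hx).le (SH.hx2 hx').le) (SH.hx1 hx).le (SH.hx2 hx') (covB00).cov (covB01).cov hx hx' c_A00pm_012_s3 H (noExt_A)

noncomputable def cut_A00pm_022_s1 : Cut := Cut.of [[⟨4, 0, 0, 1449551462⟩], [⟨0, 0, 0, 67108864⟩, ⟨1, 1, 0, 67108864⟩, ⟨2, 1, 0, 67108864⟩], [⟨0, 0, 1, 20971520⟩, ⟨1, 1, 0, 33554432⟩, ⟨2, 1, 1, 20971520⟩]]

noncomputable def f_A00pm_022_s1 : ℕ → ℕ → ℕ → ℕ → Bool := onCell 1073741824 536870912 0 536870912 536870912 50465866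
    (rowF 2 true true false .pp 0 2 2 (qsf 0 536870912 0 536870912 2) ndB0q0 ndB0q2 pcB2 cut_A00pm_022_s1 Ext.none)

def k0_A00pm_022_s1 : ∃ t, chk3 f_A00pm_022_s1 t 4 2 1 = true :=
  ⟨(a (l 1) (l 6)), by decide +kernel⟩

def k1_A00pm_022_s1 : ∃ t, chk3 f_A00pm_022_s1 t 8 3 1 = true :=
  ⟨(a (b (l 1) (b (l 1) (l 14))) (a (b (l 1) (b (b (l 1) (l 14)) (l 14))) (a (b (l 1) (b (b (l 1) (l 14)) (l 14))) (b (l 1) (b (b (b (l 1) (l 16654296)) (b (l 16664440) (l 16674384))) (a (l 14) (a (l 14) (b (b (l 16681456) (l 16690864)) (b (l 16700144) (b (l 16706824) (l 16711144))))))))))), by decide +kernel⟩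

def k2_A00pm_022_s1 : ∃ t, chk3 f_A00pm_022_s1 t 9 3 1 = true :=
  ⟨(b (c (b (a (l 1) (l 6)) (a (b (a (l 1) (l 16615808)) (a (a (l 1) (l 16620232)) (b (l 16607880) (l 16616472)))) (b (a (b (l 16581248) (l 16589344)) (l 6)) (b (l 16612632) (l 16599000))))) (b (a (l 1) (l 6)) (a (b (a (l 1) (l 16591256)) (a (a (l 1) (l 16617160)) (b (l 16605520) (l 16614904)))) (b (a (l 16583656) (l 6)) (a (l 16600752) (l 16590672)))))) (b (a (b (a (b (a (l 16638648) (l 16633200)) (l 16640352)) (b (l 16624792) (l 16633560))) (a (a (b (l 16658224) (l 16667744)) (l 16677528)) (c (l 16667592) (l 16646648)))) (a (b (l 16659152) (l 16665464)) (b (l 16647488) (a (l 16625088) (l 16619280))))) (b (a (b (a (l 16699696) (l 16680880)) (a (c (l 16683232) (l 16682568)) (l 16710632))) (a (b (l 16646720) (l 16654920)) (b (l 16633896) (l 16662456)))) (b (a (a (b (l 16710512) (b (l 16692848) (l 16695024))) (b (l 16675040) (c (l 16680240) (l 16678336)))) (a (a (l 16666360) (l 16659272))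 (a (l 16652256) (l 16645344)))) (b (a (a (a (l 16702048) (l 16694456)) (a (l 16686944) (l 16679480))) (a (a (l 16672104) (l 16664800)) (a (l 16657560) (l 16650416)))) (a (a (a (a (a (l 16709200) (l 16707256)) (l 16704352)) (a (l 16700496) (l 16696656))) (a (a (l 16692832) (l 16689024)) (a (l 16685216) (l 16681440)))) (a (a (a (l 16677680) (l 16673944)) (l 16673592)) (a (l 16660968) (l 16653672))))))))), by decide +kernel⟩

def k3_A00pm_022_s1 : ∃ t, chk3 f_A00pm_022_s1 t 5 2 1 = true :=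
  ⟨(l 6), by decide +kernel⟩

def k4_A00pm_022_s1 : ∃ t, chk3 f_A00pm_022_s1 t 5 6 1 = true :=
  ⟨(a (b (l 6) (a (a (b (l 6) (l 16579472)) (l 6)) (l 6))) (l 6)), by decide +kernel⟩

def k5_A00pm_022_s1 : ∃ t, chk3 f_A00pm_022_s1 t 10 14 1 = true :=
  ⟨(b (a (a (l 16637488) (a (l 16588432) (a (l 16584888) (a (l 16582944) (l 16623344))))) (b (l 6) (l 6))) (a (a (l 16673640) (a (l 16602512) (a (l 16598384) (a (l 16596104) (c (l 16639024) (l 16592152)))))) (a (a (l 16633176) (l 16585176)) (l 16575936)))), by decide +kernel⟩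

def k6_A00pm_022_s1 : ∃ t, chk3 f_A00pm_022_s1 t 10 15 1 = true :=
  ⟨(a (a (b (b (l 16621488) (b (l 16668648) (l 16630112))) (a (b (l 16638520) (b (l 16643360) (l 16646472))) (b (l 16631808) (a (l 16639688) (l 16636184))))) (b (b (a (l 16612504) (a (l 16607960) (a (l 16605432) (b (l 16601864) (l 16646808))))) (a (l 16618952) (a (l 16614136) (a (l 16611448) (b (c (l 16610472) (l 16605696)) (c (l 16613344) (l 16650488))))))) (b (a (l 16625112) (b (a (l 16618560) (a (l 16615752) (a (a (a (l 16614520) (l 16613896)) (l 16613648)) (l 16613128)))) (a (l 16621416) (a (l 16618520) (a (a (a (l 16617248) (a (l 16616912) (l 16616560))) (l 16616352)) (l 16615816)))))) (a (b (l 16629464) (a (l 16634064) (l 16630496))) (a (b (l 16624160) (a (l 16627768) (l 16625872))) (a (b (l 16621184) (a (l 16624360) (a (l 16623536) (l 16622920)))) (a (a (a (b (l 16619872) (l 16627616)) (b (a (l 16619528) (b (l 16618520) (l 16619792))) (a (b (l 16621400) (l 16622616)) (a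 (a (b (l 16621184) (l 16622392)) (b (l 16621040) (c (l 16630296) (l 16619848)))) (b (l 16621016) (l 16622224)))))) (b (l 16618944) (b (l 16620808) (l 16622008)))) (b (l 16618400) (b (l 16620248) (l 16621448)))))))))) (a (a (b (b (l 16642048) (c (l 16608688) (l 16603480))) (a (b (l 16612776) (b (l 16616592) (b (l 16618408) (a (l 16620320) (l 16618848))))) (b (l 16609688) (b (l 16613432) (l 16621032))))) (b (b (l 16593832) (l 16599400)) (b (l 16604672) (b (l 16608352) (b (l 16610096) (l 16611232)))))) (b (c (l 16631904) (l 16626896)) (b (l 16605480) (b (l 16598608) (a (l 16604080) (l 16597784))))))), by decide +kernel⟩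

def k7_A00pm_022_s1 : ∃ t, chk3 f_A00pm_022_s1 t 11 7 1 = true :=
  ⟨(a (a (b (l 6) (b (b (l 16572584) (l 16577968)) (b (l 16583184) (b (l 16586720) (l 16588968))))) (b (l 6) (b (l 6) (b (l 16572544) (b (l 16576080) (l 16578176)))))) (a (b (l 6) (b (l 6) (b (l 6) (l 16567256)))) (l 6))), by decide +kernel⟩

def k8_A00pm_022_s1 : ∃ t, chk3 f_A00pm_022_s1 t 3 1 1 = true :=
  ⟨(b (l 6) (l 6)), by decide +kernel⟩

theorem t9_A00pm_022_s1 : ∃ t, chk3 f_A00pm_022_s1 t 10 7 1 = true := ex3_b k5_A00pm_022_s1 k6_A00pm_022_s1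

theorem t10_A00pm_022_s1 : ∃ t, chk3 f_A00pm_022_s1 t 5 7 1 = true := ex3_a t9_A00pm_022_s1 k7_A00pm_022_s1

theorem t11_A00pm_022_s1 : ∃ t, chk3 f_A00pm_022_s1 t 5 3 1 = true := ex3_b k4_A00pm_022_s1 t10_A00pm_022_s1

theorem t12_A00pm_022_s1 : ∃ t, chk3 f_A00pm_022_s1 t 5 1 1 = true := ex3_b k3_A00pm_022_s1 t11_A00pm_022_s1

theorem t13_A00pm_022_s1 : ∃ t, chk3 f_A00pm_022_s1 t 4 3 1 = true := ex3_a k1_A00pm_022_s1 k2_A00pm_022_s1

theorem t14_A00pm_022_s1 : ∃ t, chk3 f_A00pm_022_s1 t 4 1 1 = true := ex3_b k0_A00pm_022_s1 t13_A00pm_022_s1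

theorem t15_A00pm_022_s1 : ∃ t, chk3 f_A00pm_022_s1 t 2 1 1 = true := ex3_a t14_A00pm_022_s1 t12_A00pm_022_s1

theorem t16_A00pm_022_s1 : ∃ t, chk3 f_A00pm_022_s1 t 1 1 1 = true := ex3_a t15_A00pm_022_s1 k8_A00pm_022_s1

theorem c_A00pm_022_s1 : CertF 0 536870912 0 536870912 536870912 50465866 true true false .pp 0 2 2
    ndB0q0 ndB0q2 pcB2 cut_A00pm_022_s1 Ext.none :=
  certF2 (fam := true) (s1 := true) (s2 := false) (a := 0) (b := 2) (c := 2) (cn := .pp) (n1 := ndB0q0) (n2 := ndB0q2) (pc := pcB2) (cut := cut_A00pm_022_s1) (xt := Ext.none) (P1 := 0) (W1 := 536870912) (P2 := 0) (W2 := 536870912) (P3 := 536870912) (W3 := 50465866)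
    rfl (fun _ => rfl) t16_A00pm_022_s1

theorem s_A00pm_022_s1 {κ x : ℝ} (hκ : κ * h0 = ken x) (hx : ((536870912 : ℕ) : ℝ) / S ≤ x)
    (hx' : x ≤ (((536870912 : ℕ) : ℝ) + (50465866 : ℕ)) / S)
    (H : CutA (VFD κ) PP tK tL pcB (Cut.of [[⟨0, 0, 0, 67108864⟩, ⟨1, 1, 0, 67108864⟩, ⟨2, 1, 0, 67108864⟩], [⟨0, 0, 1, 20971520⟩, ⟨1, 1, 0, 33554432⟩, ⟨2, 1, 1, 20971520⟩]]) 0 2 2 0 0 (sgb true) (sgb false) x) :
    AltA (VFD κ) PP tK tL pcB [⟨3, 0, 0, 1449551462⟩] 0 2 2 0 0 (sgb true) (sgb false) x :=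
  strip_altAD (m := 1449551462) true rfl hκ (SH.κ0 hκ (SH.hx1 hx).le (SH.hx2 hx').le) (SH.hx1 hx).le (SH.hx2 hx') (covB00).cov (covB02).cov hx hx' c_A00pm_022_s1 H (noExt_A)

noncomputable def cut_A00pm_022_s3 : Cut := Cut.of [[⟨3, 0, 0, 2845415833⟩], [⟨0, 0, 0, 67108864⟩, ⟨1, 1, 0, 67108864⟩, ⟨2, 1, 0, 67108864⟩], [⟨0, 0, 1, 20971520⟩, ⟨1, 1, 0, 33554432⟩, ⟨2, 1, 1, 20971520⟩]]

noncomputable def f_A00pm_022_s3 : ℕ → ℕ → ℕ → ℕ → Bool := onCell 1073741824 536870912 0 536870912 536870912 50465866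
    (rowF 2 true true false .pp 0 2 2 (qsf 0 536870912 0 536870912 2) ndB0q0 ndB0q2 pcB2 cut_A00pm_022_s3 Ext.none)

def k0_A00pm_022_s3 : ∃ t, chk3 f_A00pm_022_s3 t 1 1 1 = true :=
  ⟨(a (l 6) (b (l 6) (l 6))), by decide +kernel⟩

theorem c_A00pm_022_s3 : CertF 0 536870912 0 536870912 536870912 50465866 true true false .pp 0 2 2
    ndB0q0 ndB0q2 pcB2 cut_A00pm_022_s3 Ext.none :=
  certF2 (fam := true) (s1 := true) (s2 := false) (a := 0) (b := 2) (c := 2) (cn := .pp) (n1 := ndB0q0) (n2 := ndB0q2) (pc := pcB2) (cut := cut_A00pm_022_s3) (xt := Ext.none) (P1 := 0) (W1 := 536870912) (P2 := 0) (W2 := 536870912) (P3 := 536870912) (W3 := 50465866)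
    rfl (fun _ => rfl) k0_A00pm_022_s3

theorem s_A00pm_022_s3 {κ x : ℝ} (hκ : κ * h0 = ken x) (hx : ((536870912 : ℕ) : ℝ) / S ≤ x)
    (hx' : x ≤ (((536870912 : ℕ) : ℝ) + (50465866 : ℕ)) / S)
    (H : CutA (VFD κ) PP tK tL pcB (Cut.of [[⟨0, 0, 0, 67108864⟩, ⟨1, 1, 0, 67108864⟩, ⟨2, 1, 0, 67108864⟩], [⟨0, 0, 1, 20971520⟩, ⟨1, 1, 0, 33554432⟩, ⟨2, 1, 1, 20971520⟩]]) 0 2 2 0 0 (sgb true) (sgb false) x) :
    AltA (VFD κ) PP tK tL pcB [⟨4, 0, 0, 2845415833⟩] 0 2 2 0 0 (sgb true) (sgb false) x :=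
  strip_altAD (m := 2845415833) false rfl hκ (SH.κ0 hκ (SH.hx1 hx).le (SH.hx2 hx').le) (SH.hx1 hx).le (SH.hx2 hx') (covB00).cov (covB02).cov hx hx' c_A00pm_022_s3 H (noExt_A)

noncomputable def cut_A00pm_023_s1 : Cut := Cut.of [[⟨4, 0, 0, 1449551462⟩], [⟨0, 0, 1, 20971520⟩, ⟨1, 1, 0, 33554432⟩, ⟨2, 1, 1, 20971520⟩]]

noncomputable def f_A00pm_023_s1 : ℕ → ℕ → ℕ → ℕ → Bool := onCell 1610612736 536870912 0 536870912 536870912 50465866
    (rowF 2 true true false .up 0 2 3 (qsf 0 536870912 0 536870912 3) ndB0q0 ndB0q2 pcB3 cut_A00pm_023_s1 Ext.none)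

def k0_A00pm_023_s1 : ∃ t, chk3 f_A00pm_023_s1 t 1 1 1 = true :=
  ⟨(l 6), by decide +kernel⟩

theorem c_A00pm_023_s1 : CertF 0 536870912 0 536870912 536870912 50465866 true true false .up 0 2 3
    ndB0q0 ndB0q2 pcB3 cut_A00pm_023_s1 Ext.none :=
  certF2 (fam := true) (s1 := true) (s2 := false) (a := 0) (b := 2) (c := 3) (cn := .up) (n1 := ndB0q0) (n2 := ndB0q2) (pc := pcB3) (cut := cut_A00pm_023_s1) (xt := Ext.none) (P1 := 0) (W1 := 536870912) (P2 := 0) (W2 := 536870912) (P3 := 536870912) (W3 := 50465866)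
    rfl (fun _ => rfl) k0_A00pm_023_s1

theorem s_A00pm_023_s1 {κ x : ℝ} (hκ : κ * h0 = ken x) (hx : ((536870912 : ℕ) : ℝ) / S ≤ x)
    (hx' : x ≤ (((536870912 : ℕ) : ℝ) + (50465866 : ℕ)) / S)
    (H : CutA (VFD κ) PP tK tL pcB (Cut.of [[⟨0, 0, 1, 20971520⟩, ⟨1, 1, 0, 33554432⟩, ⟨2, 1, 1, 20971520⟩]]) 0 2 3 0 0 (sgb true) (sgb false) x) :
    AltA (VFD κ) PP tK tL pcB [⟨3, 0, 0, 1449551462⟩] 0 2 3 0 0 (sgb true) (sgb false) x :=
  strip_altAD (m := 1449551462) true rfl hκ (SH.κ0 hκ (SH.hx1 hx).le (SH.hx2 hx').le) (SH.hx1 hx).le (SH.hx2 hx') (covB00).cov (covB02).cov hx hx' c_A00pm_023_s1 H (noExt_A)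

noncomputable def cut_A00pm_023_s3 : Cut := Cut.of [[⟨3, 0, 0, 2845415833⟩], [⟨0, 0, 1, 20971520⟩, ⟨1, 1, 0, 33554432⟩, ⟨2, 1, 1, 20971520⟩]]

noncomputable def f_A00pm_023_s3 : ℕ → ℕ → ℕ → ℕ → Bool := onCell 0 536870912 0 536870912 536870912 50465866
    (rowF 0 true true false .up 0 2 3 (qsf 0 536870912 0 536870912 3) ndB0q0 ndB0q2 pcB3 cut_A00pm_023_s3 Ext.none)

def k0_A00pm_023_s3 : ∃ t, chk3 f_A00pm_023_s3 t 1 1 1 = true :=
  ⟨(a (l 1) (b (a (b (a (l 1) (b (b (a (l 1) (l 16667344)) (l 6)) (l 6))) (l 6)) (b (a (b (a (b (l 16663928) (l 6)) (b (l 16664776) (l 16646216))) (l 6)) (a (b (b (l 16707432) (l 16693920)) (b (l 16678976) (l 6))) (b (b (a (l 16732032) (l 16744568)) (l 16729280)) (b (l 16719984) (l 16709776))))) (a (l 6) (l 6)))) (l 6))), by decide +kernel⟩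

theorem c_A00pm_023_s3 : CertF 0 536870912 0 536870912 536870912 50465866 true true false .up 0 2 3
    ndB0q0 ndB0q2 pcB3 cut_A00pm_023_s3 Ext.none :=
  certF0 (fam := true) (s1 := true) (s2 := false) (a := 0) (b := 2) (c := 3) (cn := .up) (n1 := ndB0q0) (n2 := ndB0q2) (pc := pcB3) (cut := cut_A00pm_023_s3) (xt := Ext.none) (P1 := 0) (W1 := 536870912) (P2 := 0) (W2 := 536870912) (P3 := 536870912) (W3 := 50465866)
    rfl k0_A00pm_023_s3

theorem s_A00pm_023_s3 {κ x : ℝ} (hκ : κ * h0 = ken x) (hx : ((536870912 : ℕ) : ℝ) / S ≤ x)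
    (hx' : x ≤ (((536870912 : ℕ) : ℝ) + (50465866 : ℕ)) / S)
    (H : CutA (VFD κ) PP tK tL pcB (Cut.of [[⟨0, 0, 1, 20971520⟩, ⟨1, 1, 0, 33554432⟩, ⟨2, 1, 1, 20971520⟩]]) 0 2 3 0 0 (sgb true) (sgb false) x) :
    AltA (VFD κ) PP tK tL pcB [⟨4, 0, 0, 2845415833⟩] 0 2 3 0 0 (sgb true) (sgb false) x :=
  strip_altAD (m := 2845415833) false rfl hκ (SH.κ0 hκ (SH.hx1 hx).le (SH.hx2 hx').le) (SH.hx1 hx).le (SH.hx2 hx') (covB00).cov (covB02).cov hx hx' c_A00pm_023_s3 H (noExt_A)

noncomputable def cut_A00pm_101_s1 : Cut := Cut.of [[⟨4, 0, 0, 1449551462⟩], [⟨0, 1, 0, 67108864⟩, ⟨1, 0, 0, 67108864⟩, ⟨2, 1, 0, 67108864⟩]]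

noncomputable def f_A00pm_101_s1 : ℕ → ℕ → ℕ → ℕ → Bool := onCell 536870912 536870912 536870912 536870912 536870912 50465866
    (rowF 1 true true false .npn 1 0 1 (qsf 536870912 536870912 0 536870912 1) ndB0q1 ndB0q0 pcB1 cut_A00pm_101_s1 Ext.none)

def k0_A00pm_101_s1 : ∃ t, chk3 f_A00pm_101_s1 t 1 1 1 = true :=
  ⟨(b (l 3) (a (l 3) (b (l 3) (a (l 3) (b (l 3) (a (l 3) (b (l 3) (a (l 3) (l 14))))))))), by decide +kernel⟩

theorem c_A00pm_101_s1 : CertF 536870912 536870912 0 536870912 536870912 50465866 true true false .npn 1 0 1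
    ndB0q1 ndB0q0 pcB1 cut_A00pm_101_s1 Ext.none :=
  certF1 (fam := true) (s1 := true) (s2 := false) (a := 1) (b := 0) (c := 1) (cn := .npn) (n1 := ndB0q1) (n2 := ndB0q0) (pc := pcB1) (cut := cut_A00pm_101_s1) (xt := Ext.none) (P1 := 536870912) (W1 := 536870912) (P2 := 0) (W2 := 536870912) (P3 := 536870912) (W3 := 50465866)
    rfl (fun _ => rfl) k0_A00pm_101_s1

theorem s_A00pm_101_s1 {κ x : ℝ} (hκ : κ * h0 = ken x) (hx : ((536870912 : ℕ) : ℝ) / S ≤ x)
    (hx' : x ≤ (((536870912 : ℕ) : ℝ) + (50465866 : ℕ)) / S)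
    (H : CutA (VFD κ) PP tK tL pcB (Cut.of [[⟨0, 1, 0, 67108864⟩, ⟨1, 0, 0, 67108864⟩, ⟨2, 1, 0, 67108864⟩]]) 1 0 1 0 0 (sgb true) (sgb false) x) :
    AltA (VFD κ) PP tK tL pcB [⟨3, 0, 0, 1449551462⟩] 1 0 1 0 0 (sgb true) (sgb false) x :=
  strip_altAD (m := 1449551462) true rfl hκ (SH.κ0 hκ (SH.hx1 hx).le (SH.hx2 hx').le) (SH.hx1 hx).le (SH.hx2 hx') (covB01).cov (covB00).cov hx hx' c_A00pm_101_s1 H (noExt_A)

noncomputable def cut_A00pm_101_s3 : Cut := Cut.of [[⟨3, 0, 0, 2845415833⟩], [⟨0, 1, 0, 67108864⟩, ⟨1, 0, 0, 67108864⟩, ⟨2, 1, 0, 67108864⟩]]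

noncomputable def f_A00pm_101_s3 : ℕ → ℕ → ℕ → ℕ → Bool := onCell 536870912 536870912 0 536870912 536870912 50465866
    (rowF 0 true true false .npn 1 0 1 (qsf 536870912 536870912 0 536870912 1) ndB0q1 ndB0q0 pcB1 cut_A00pm_101_s3 Ext.none)

def k0_A00pm_101_s3 : ∃ t, chk3 f_A00pm_101_s3 t 1 1 1 = true :=
  ⟨(l 6), by decide +kernel⟩

theorem c_A00pm_101_s3 : CertF 536870912 536870912 0 536870912 536870912 50465866 true true false .npn 1 0 1
    ndB0q1 ndB0q0 pcB1 cut_A00pm_101_s3 Ext.none :=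
  certF0 (fam := true) (s1 := true) (s2 := false) (a := 1) (b := 0) (c := 1) (cn := .npn) (n1 := ndB0q1) (n2 := ndB0q0) (pc := pcB1) (cut := cut_A00pm_101_s3) (xt := Ext.none) (P1 := 536870912) (W1 := 536870912) (P2 := 0) (W2 := 536870912) (P3 := 536870912) (W3 := 50465866)
    rfl k0_A00pm_101_s3

theorem s_A00pm_101_s3 {κ x : ℝ} (hκ : κ * h0 = ken x) (hx : ((536870912 : ℕ) : ℝ) / S ≤ x)
    (hx' : x ≤ (((536870912 : ℕ) : ℝ) + (50465866 : ℕ)) / S)
    (H : CutA (VFD κ) PP tK tL pcB (Cut.of [[⟨0, 1, 0, 67108864⟩, ⟨1, 0, 0, 67108864⟩, ⟨2, 1, 0, 67108864⟩]]) 1 0 1 0 0 (sgb true) (sgb false) x) :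
    AltA (VFD κ) PP tK tL pcB [⟨4, 0, 0, 2845415833⟩] 1 0 1 0 0 (sgb true) (sgb false) x :=
  strip_altAD (m := 2845415833) false rfl hκ (SH.κ0 hκ (SH.hx1 hx).le (SH.hx2 hx').le) (SH.hx1 hx).le (SH.hx2 hx') (covB01).cov (covB00).cov hx hx' c_A00pm_101_s3 H (noExt_A)

noncomputable def cut_A00pm_102_s3 : Cut := Cut.of [[⟨3, 0, 0, 2845415833⟩], [⟨0, 1, 0, 67108864⟩, ⟨1, 0, 0, 67108864⟩, ⟨2, 1, 0, 67108864⟩], [⟨0, 1, 0, 33554432⟩, ⟨1, 0, 1, 20971520⟩, ⟨2, 1, 1, 20971520⟩]]

noncomputable def f_A00pm_102_s3 : ℕ → ℕ → ℕ → ℕ → Bool := onCell 536870912 536870912 0 536870912 536870912 50465866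
    (rowF 0 true true false .npp 1 0 2 (qsf 536870912 536870912 0 536870912 2) ndB0q1 ndB0q0 pcB2 cut_A00pm_102_s3 Ext.none)

def k0_A00pm_102_s3 : ∃ t, chk3 f_A00pm_102_s3 t 1 1 1 = true :=
  ⟨(l 6), by decide +kernel⟩

theorem c_A00pm_102_s3 : CertF 536870912 536870912 0 536870912 536870912 50465866 true true false .npp 1 0 2
    ndB0q1 ndB0q0 pcB2 cut_A00pm_102_s3 Ext.none :=
  certF0 (fam := true) (s1 := true) (s2 := false) (a := 1) (b := 0) (c := 2) (cn := .npp) (n1 := ndB0q1) (n2 := ndB0q0) (pc := pcB2) (cut := cut_A00pm_102_s3) (xt := Ext.none) (P1 := 536870912) (W1 := 536870912) (P2 := 0) (W2 := 536870912) (P3 := 536870912) (W3 := 50465866)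
    rfl k0_A00pm_102_s3

theorem s_A00pm_102_s3 {κ x : ℝ} (hκ : κ * h0 = ken x) (hx : ((536870912 : ℕ) : ℝ) / S ≤ x)
    (hx' : x ≤ (((536870912 : ℕ) : ℝ) + (50465866 : ℕ)) / S)
    (H : CutA (VFD κ) PP tK tL pcB (Cut.of [[⟨0, 1, 0, 67108864⟩, ⟨1, 0, 0, 67108864⟩, ⟨2, 1, 0, 67108864⟩], [⟨0, 1, 0, 33554432⟩, ⟨1, 0, 1, 20971520⟩, ⟨2, 1, 1, 20971520⟩]]) 1 0 2 0 0 (sgb true) (sgb false) x) :
    AltA (VFD κ) PP tK tL pcB [⟨4, 0, 0, 2845415833⟩] 1 0 2 0 0 (sgb true) (sgb false) x :=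
  strip_altAD (m := 2845415833) false rfl hκ (SH.κ0 hκ (SH.hx1 hx).le (SH.hx2 hx').le) (SH.hx1 hx).le (SH.hx2 hx') (covB01).cov (covB00).cov hx hx' c_A00pm_102_s3 H (noExt_A)

noncomputable def cut_A00pm_112_s1 : Cut := Cut.of [[⟨4, 0, 0, 1449551462⟩], [⟨0, 0, 1, 20971520⟩, ⟨1, 1, 0, 33554432⟩, ⟨2, 1, 1, 20971520⟩], [⟨0, 1, 0, 33554432⟩, ⟨1, 0, 1, 20971520⟩, ⟨2, 1, 1, 20971520⟩]]

noncomputable def xt_A00pm_112_s1 : Ext := strExt6 dd true true false .u0 .u0m .u2 .dn 1 1 2 rfl rfl gf2 vv ww ndB0q1 ndB0q1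

noncomputable def f_A00pm_112_s1 : ℕ → ℕ → ℕ → ℕ → Bool := onCell 536870912 536870912 1073741824 536870912 536870912 50465866
    (rowF 1 true true false .dn 1 1 2 (qsf 536870912 536870912 536870912 536870912 2) ndB0q1 ndB0q1 pcB2 cut_A00pm_112_s1 xt_A00pm_112_s1)

def k0_A00pm_112_s1 : ∃ t, chk3 f_A00pm_112_s1 t 2 4 1 = true :=
  ⟨(a (l 3) (l 3)), by decide +kernel⟩

def k1_A00pm_112_s1 : ∃ t, chk3 f_A00pm_112_s1 t 2 40 1 = true :=
  ⟨(a (l 3) (a (l 3) (l 1))), by decide +kernel⟩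

def k2_A00pm_112_s1 : ∃ t, chk3 f_A00pm_112_s1 t 4 82 1 = true :=
  ⟨(l 3), by decide +kernel⟩

def k3_A00pm_112_s1 : ∃ t, chk3 f_A00pm_112_s1 t 4 166 1 = true :=
  ⟨(a (b (l 3) (a (b (l 3) (a (c (b (a (b (l 1072612479) (l 1072579199)) (l 3)) (a (b (l 1072536703) (l 1072482943)) (b (l 1073066111) (l 1073032831)))) (b (b (l 1072034943) (l 1072003199)) (b (l 1071965311) (a (l 1071703679) (l 1072124543))))) (l 3))) (l 3))) (l 3)), by decide +kernel⟩

def k4_A00pm_112_s1 : ∃ t, chk3 f_A00pm_112_s1 t 32 334 2 = true :=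
  ⟨(b (b (b (a (l 1072414335) (l 1072988287)) (b (l 1072655487) (a (l 1072299647) (l 1072910463)))) (b (b (a (l 1072243327) (l 1072871551)) (c (l 1072717951) (l 1072302719))) (b (c (l 1072652415) (l 1072240767)) (c (b (l 1072595583) (l 1072614639)) (b (l 1072188031) (l 1072204015)))))) (b (b (a (b (l 1072153327) (l 1072257775)) (b (l 1072825583) (a (l 1072754927) (l 1073050863)))) (a (b (l 1072343791) (c (l 1072621807) (l 1072209647))) (b (a (l 1072823535) (l 1073103599)) (a (l 1072877295) (l 1073143023))))) (b (a (b (c (l 1072684783) (l 1072266479)) (c (l 1072737007) (l 1072314607))) (b (a (l 1072920303) (l 1073173231)) (a (l 1072954607) (l 1073195247)))) (a (b (a (l 1072416495) (l 1072713967)) (a (a (l 16776648) (l 16776736)) (a (l 16776824) (l 1072812271)))) (b (a (l 1072981743) (l 1073212143)) (a (b (l 1072998127) (l 1073007343)) (b (l 1073221359) (l 1073225967)))))))), by decide +kernel⟩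

def k5_A00pm_112_s1 : ∃ t, chk3 f_A00pm_112_s1 t 32 1340 2 = true :=
  ⟨(b (b (a (b (a (l 1072479983) (l 1072762607)) (a (l 1072493807) (l 1072772847))) (a (b (l 1073015023) (l 1073021167)) (b (l 1073230063) (l 1073232111)))) (a (a (a (b (c (l 16776720) (l 16776536)) (c (l 16776744) (l 16776536))) (b (l 16776720) (c (c (l 16776856) (l 16776768)) (l 16776624)))) (b (l 1072781039) (a (a (l 16776776) (l 16776816)) (l 16776872)))) (b (a (l 1073025775) (l 1073233647)) (a (a (l 16776936) (l 16776992)) (b (l 1073233647) (l 1073233135)))))) (b (b (a (b (a (a (l 16776664) (l 16776728)) (a (c (l 16776888) (l 16776704)) (l 16776864))) (a (l 68648169231) (a (c (l 16776904) (l 16776704)) (c (l 16776952) (l 16776776))))) (b (a (l 1073029871) (l 1073232111)) (a (l 1073029359) (l 1073230575)))) (a (a (a (l 16776712) (l 68656558351)) (a (l 68656558863) (a (l 68664947471) (b (l 16776888) (l 16776904))))) (a (a (b (c (l 16777016) (l 16776840)) (c (a (l 16777024)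 (l 16777040)) (l 16776840))) (b (l 16776976) (b (a (l 16776960) (l 16776992)) (l 68673336591)))) (b (l 1073228015) (b (l 1073225455) (l 1073222895)))))) (b (b (a (a (l 68656558863) (a (l 68664947983) (l 68673336591))) (a (a (l 68673337103) (b (l 68681725711) (l 68681725711))) (a (b (l 68681725711) (a (l 16777024) (l 68681726223))) (b (l 16777064) (b (l 68690114831) (l 68690114831)))))) (a (a (a (l 68656558863) (l 68664947983)) (a (l 68673336591) (l 68673341199))) (a (a (l 73785973540000660799) (l 73786149461894659391)) (a (a (l 73786255015036091711) (l 73786325383788657983)) (a (l 73786360568177524031) (c (l 73786817965106953535) (l 68673336591))))))) (a (a (l 16776792) (l 16776912)) (a (l 68681726223) (l 68690114831)))))), by decide +kernel⟩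

def k6_A00pm_112_s1 : ∃ t, chk3 f_A00pm_112_s1 t 32 1341 2 = true :=
  ⟨(b (b (a (a (l 16776784) (l 16776904)) (a (l 68681726223) (l 68690115343))) (b (a (a (l 16776776) (l 16776904)) (a (l 68681726223) (l 68690115343))) (a (a (l 16776776) (l 16776896)) (a (a (l 16776968) (l 16777008)) (a (l 16777040) (l 16777064)))))) (a (a (l 16776752) (l 16776880)) (a (a (l 16776952) (l 16776992)) (a (l 16777024) (l 16777056))))), by decide +kernel⟩

def k7_A00pm_112_s1 : ∃ t, chk3 f_A00pm_112_s1 t 32 671 2 = true :=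
  ⟨(a (a (l 16776672) (a (l 16776776) (l 16776832))) (a (a (l 16776888) (l 16776928)) (a (l 16776968) (l 16777000)))), by decide +kernel⟩

def k8_A00pm_112_s1 : ∃ t, chk3 f_A00pm_112_s1 t 32 334 3 = true :=
  ⟨(b (b (b (a (l 1071638655) (l 1072077951)) (b (l 1071812223) (l 1072847487))) (b (b (a (l 1071485567) (l 1071965823)) (a (l 1071429759) (l 1071923839))) (b (a (l 1071367295) (l 1071876223)) (b (a (l 1071314559) (l 1071835263)) (a (l 1071325423) (l 1071848175)))))) (b (b (a (b (l 1071395055) (l 1071473391)) (b (l 1071908591) (a (l 1071853295) (l 1072085231)))) (a (b (l 1071539439) (l 1072669423)) (b (a (l 1071907567) (l 1072128751)) (a (l 1071951599) (l 1072162031))))) (b (a (b (a (l 1071521519) (l 1071763183)) (a (l 1071566575) (l 1071801071))) (b (a (l 1071987439) (l 1072189167)) (a (l 1072017647) (l 1072210159)))) (a (b (a (l 1071605487) (l 1071833839)) (a (l 1072445679) (l 1072399087))) (b (a (l 1072043247) (l 1072228079)) (a (l 1072601327)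 (l 1072778991))))))), by decide +kernel⟩

def k9_A00pm_112_s1 : ∃ t, chk3 f_A00pm_112_s1 t 32 1340 3 = true :=
  ⟨(b (b (a (b (a (l 1071663343) (l 1071880943)) (a (l 1071677679) (l 1071892207))) (a (b (l 1072078575) (l 1072086767)) (b (l 1072251119) (l 1072256751)))) (a (a (a (b (c (l 16776352) (l 16776168)) (c (l 16776336) (a (l 16776104) (l 16776168)))) (b (l 16776360) (c (l 16776440) (a (l 16776232) (l 16776280))))) (b (l 1071902447) (a (a (l 16776416) (l 16776464)) (l 16776528)))) (b (a (l 1072093935) (l 1072261359)) (a (a (l 16776600) (l 16776664)) (b (l 1072264431) (l 1072266479)))))) (b (b (a (b (a (a (l 16776208) (l 16776328)) (a (c (l 16776520) (l 16776336)) (l 16776512))) (a (l 68581056271) (a (c (l 16776512) (l 16776320)) (c (l 16776592) (l 16776416))))) (b (a (l 1072105711) (l 1072268015)) (a (l 1072108271) (l 1072269551)))) (b (a (a (l 68581056271) (a (l 16776392) (c (l 16776584) (l 16776400)))) (a (a (a (l 16776560) (l 16776592))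 (l 16776648)) (l 1072270575))) (b (a (a (l 68581056271) (l 68597834511)) (a (a (a (l 16776544) (l 16776584)) (a (l 16776624) (l 16776656))) (l 1072271599))) (a (a (l 68581056271) (l 68597834511)) (a (a (l 68606224143) (l 68614612751)) (l 1072272111)))))) (b (b (a (a (l 68581056271) (a (l 68589445391) (l 68597834511))) (a (a (l 68606225679) (b (l 68614612751) (l 68614612751))) (a (b (l 68623001871) (a (l 16776664) (l 68623001871))) (b (l 16776752) (b (l 68631390991) (l 68623001871)))))) (a (a (l 73782279180075695423) (a (l 68589445391) (l 68597834511))) (a (a (l 68606223631) (l 73784214320985177407)) (a (a (l 68614612751) (l 73784601349170429247)) (a (l 73784742086692339007) (a (l 73784847639833771327) (l 73784918008594726207))))))) (a (a (l 16776128) (l 16776352)) (a (l 68606223631) (l 68623001871)))))), by decide +kernel⟩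

def k10_A00pm_112_s1 : ∃ t, chk3 f_A00pm_112_s1 t 32 1341 3 = true :=
  ⟨(b (b (a (a (l 16776112) (l 16776328)) (a (l 68606224143) (l 68623001871))) (b (a (a (l 16776088) (l 16776312)) (a (l 68606224143) (l 68623001871))) (a (a (l 16776072) (l 16776296)) (a (a (l 16776440) (l 16776520)) (a (l 16776600) (l 16776664)))))) (a (a (l 16776032) (l 16776256)) (a (a (l 16776400) (l 16776480)) (a (l 16776560) (l 16776632))))), by decide +kernel⟩

def k11_A00pm_112_s1 : ∃ t, chk3 f_A00pm_112_s1 t 32 671 3 = true :=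
  ⟨(a (a (l 16775856) (a (l 16776032) (l 16776136))) (a (a (l 16776240) (l 16776328)) (a (l 16776408) (l 16776480)))), by decide +kernel⟩

def k12_A00pm_112_s1 : ∃ t, chk3 f_A00pm_112_s1 t 33 668 2 = true :=
  ⟨(b (a (b (l 1073449599) (b (l 1073427583) (l 1073409663))) (l 3)) (a (b (b (l 1073388159) (a (l 1073243263) (l 1073470079))) (b (c (l 1073587839) (l 1073078399)) (b (a (l 1073175679) (l 1073422975)) (a (l 1073193711) (l 1073437935))))) (b (a (b (l 3) (a (l 1073603199) (l 3))) (l 3)) (a (b (a (b (l 1073591423) (l 1073582207)) (a (b (l 3) (l 1073639551)) (l 3))) (a (b (b (l 1073574527) (l 1073569407)) (b (l 1073576175) (l 1073586927))) (b (a (b (l 1073633407) (l 1073629311)) (b (l 3) (a (a (b (l 1073652351) (l 1073653375)) (b (l 3) (l 1073656959))) (l 3)))) (a (b (a (l 1073625327) (a (l 1073638127) (l 1073646319))) (a (l 1073630959) (l 1073644783))) (a (a (b (l 1073651439) (l 1073651951)) (l 1073654511)) (l 1073656559)))))) (b (l 3) (b (l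 3) (l 1073668847))))))), by decide +kernel⟩

def k13_A00pm_112_s1 : ∃ t, chk3 f_A00pm_112_s1 t 33 669 2 = true :=
  ⟨(b (a (b (a (b (l 1073253103) (a (l 1073246447) (l 1073361647))) (a (b (l 1073427183) (l 1073461999)) (b (b (l 1073515247) (l 1073530607)) (a (l 1073525999) (l 1073562863))))) (a (b (a (l 1073285871) (l 1073391343)) (a (l 1073313519) (l 1073410799))) (b (a (l 1073481455) (l 1073555183)) (a (l 1073493231) (l 1073559791))))) (a (b (a (b (a (b (l 1073578223) (l 1073587439)) (b (l 1073613039) (l 1073617647))) (a (l 1073594607) (l 1073620207))) (b (a (b (a (l 1073634543) (l 1073645295)) (l 1073640687)) (a (l 1073650927) (l 1073653999))) (a (l 1073639151) (l 1073649391)))) (a (b (l 1073609455) (l 1073608431)) (b (a (l 1073636079) (l 1073645807)) (l 1073637615)))) (b (l 1073665263) (l 1073658095)))) (a (b (a (b (a (l 1073332975) (l 1073423599)) (l 1073390831)) (b (a (l 1073499887) (l 1073560815)) (a (l 1073502959) (l 1073560303)))) (b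 (a (l 1073397487) (l 1073532655)) (a (b (l 1073400559) (l 1073401583)) (b (l 1073530607) (l 1073528559))))) (b (a (a (b (l 1073605871) (l 1073602287)) (b (l 1073633519) (l 1073628911))) (l 1073650415)) (a (b (a (l 1073597679) (l 1073623279)) (a (l 1073592047) (l 1073617135))) (b (l 1073643247) (l 1073637615)))))), by decide +kernel⟩

def k14_A00pm_112_s1 : ∃ t, chk3 f_A00pm_112_s1 t 33 670 2 = true :=
  ⟨(b (b (a (b (a (b (l 1073401583) (l 1073401071)) (b (l 1073525999) (l 1073522927))) (b (a (l 1073399535) (l 1073519343)) (a (b (l 1073397487) (l 1073395951)) (b (l 1073516271) (l 1073513711))))) (b (a (a (l 1073584879) (l 1073609967)) (l 1073630447)) (b (a (a (l 1073578735) (l 1073603823)) (l 1073624303)) (a (a (l 1073573615) (l 1073597679)) (l 1073619183))))) (b (b (a (b (a (l 1073393391) (l 1073510639)) (a (l 1073390831) (l 1073507567))) (a (b (l 1073583855) (l 1073579247)) (l 1073613551))) (a (b (a (l 1073387247) (l 1073503471)) (b (a (l 1073384175)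 (l 1073499887)) (a (l 1073381103) (l 1073496815)))) (b (a (a (l 1073561327) (l 1073585903)) (l 1073607919)) (a (b (l 1073571055) (l 1073568495)) (b (l 1073604335) (l 1073601263)))))) (b (b (a (a (l 68698503951) (l 18443366167818009807)) (a (l 18443366167818009807) (l 18445618105070648527))) (a (a (a (b (b (b (l 68690114831) (b (l 68690114831) (l 68698503951))) (l 16777096)) (l 16777096)) (a (l 68698503951) (l 68698503951))) (l 18443366167818009807)) (a (l 18443366167818009807) (l 18445618105070648527)))) (a (a (a (l 16777096) (l 68698503951)) (l 18443366167818009807)) (a (l 18443366167818009807) (l 18445618105070648527)))))) (b (b (a (a (a (l 16777096) (l 68698503951)) (l 18443366167818009807)) (a (l 18443366167818009807) (l 18445618105070648527))) (b (a (a (a (l 16777088) (l 68698503951)) (l 18443366167818009807)) (a (l 18443366167818009807) (l 18445618105070648527))) (b (a (a (a (l 16777088) (l 68698503951)) (l 18443366167818009807)) (a (l 18443366167818009807)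 (l 18445618105070648527))) (a (a (a (l 16777088) (c (l 16777184) (l 16777024))) (a (l 16777128) (l 16777144))) (a (a (l 16777160) (l 16777168)) (a (l 16777176) (l 16777184))))))) (a (a (a (l 16777080) (c (l 16777184) (l 16777008))) (a (l 16777120) (l 16777136))) (a (a (l 16777152) (l 16777160)) (a (l 16777168) (l 16777176)))))), by decide +kernel⟩

def k15_A00pm_112_s1 : ∃ t, chk3 f_A00pm_112_s1 t 33 671 2 = true :=
  ⟨(a (a (a (c (l 16777144) (l 16776904)) (a (l 16777040) (l 16777056))) (a (l 16777072) (b (l 16777112) (l 16777080)))) (a (a (b (l 16777128) (l 16777096)) (c (l 16777216) (l 16777032))) (a (l 16777136) (l 16777144)))), by decide +kernel⟩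

def k16_A00pm_112_s1 : ∃ t, chk3 f_A00pm_112_s1 t 33 334 3 = true :=
  ⟨(b (b (a (b (l 1072447615) (b (l 1072421503) (l 1072402047))) (l 3)) (a (b (b (l 1072379007) (a (l 1072254079) (l 1072444031))) (b (b (l 1072329855) (l 1072312959)) (b (a (l 1072188543) (l 1072394367)) (a (l 1072200943) (l 1072405231))))) (b (a (b (l 3) (a (l 1072564351) (l 3))) (l 3)) (a (b (a (b (l 1072550015) (l 1072539263)) (a (b (l 3) (l 1072595071)) (l 3))) (a (b (b (l 1072530047) (l 1072524415)) (a (l 1072515311) (l 1072554223))) (b (a (b (l 1072587903) (l 1072582783)) (b (l 3) (a (b (a (l 1072606335) (l 3)) (a (l 1072606847) (l 1072610943))) (l 3)))) (a (b (a (l 1072577775) (l 1072596207)) (l 1072591087)) (a (a (b (l 1072604911) (l 1072605935)) (l 1072609007)) (l 1072611055)))))) (b (l 3) (b (l 3) (l 1072625391))))))) (b (a (b (a (b (l 1072248559) (l 1072292079)) (b (a (l 1072394991) (b (l 1072472815) (l 1072486639))) (a (l 1072425711) (a (l 1072483055) (l 1072517359)))))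 (a (b (a (l 1072277231) (l 1072365807)) (a (l 1072301807) (l 1072384751))) (b (a (l 1072444655) (l 1072512239)) (a (l 1072457455) (l 1072518895))))) (a (b (a (b (b (a (l 1072531183) (l 1072565487)) (l 1072556271)) (a (l 1072548591) (l 1072574703))) (b (a (b (a (l 1072587503) (l 1072599279)) (l 1072595183)) (a (l 1072607471) (l 1072611055))) (a (l 1072595695) (l 1072608495)))) (a (b (l 1072565999) (l 1072568047)) (b (l 1073139439) (l 1072602351)))) (b (l 1072624367) (l 1072623343)))) (a (b (a (b (l 1072897775) (l 1072373487)) (b (a (l 1072466159) (l 1072523503)) (l 1072500975))) (b (a (l 1072383215) (l 1072504047)) (a (l 1072927471) (l 1072506095)))) (b (a (a (b (l 1072569071) (l 1072569071)) (b (l 1072601327) (l 1072600303))) (l 1072621807)) (a (b (a (l 1072569071) (l 1072599279)) (a (l 1072568047) (l 1072597743))) (b (l 1072620271) (l 1072619247))))))), by decide +kernel⟩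

def k17_A00pm_112_s1 : ∃ t, chk3 f_A00pm_112_s1 t 33 670 3 = true :=
  ⟨(b (b (a (b (a (b (l 1072395503) (l 1072398063)) (b (l 1072507119) (l 1072507119))) (b (a (l 1072400111) (l 1072507631)) (a (b (l 1072401135) (l 1072402159)) (b (l 1072507631) (l 1072507119))))) (b (a (a (l 1072567023) (l 1072596207)) (l 1072618223)) (b (a (l 1072718575) (l 1072616687)) (a (a (l 1072564975) (l 1072592623)) (l 1072615663))))) (b (b (a (b (a (l 1072402671) (l 1072507119)) (a (l 1072403183) (l 1072506607))) (a (b (l 1072582383) (l 1072578799)) (l 1072614639))) (a (b (a (l 1072403183) (l 1072506095)) (b (a (l 1072403695) (l 1072505583)) (a (l 1072403183) (l 1072505071)))) (b (a (l 1072577775) (l 1072613615)) (a (b (l 1072577263) (l 1072576239)) (b (l 1072612591) (l 1072612079)))))) (b (b (a (a (l 68631390991) (l 18425350669729787087)) (a (l 18427602606990814927) (l 18427602606990814927))) (a (a (a (c (l 68648169231) (a (a (l 68614612751) (l 68614612751)) (l 68614612751)))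 (l 68631390991)) (l 18425350669729787087)) (a (l 18427602606990814927) (l 18427602606990814927)))) (a (a (a (l 16776776) (l 68631390991)) (l 18425350669729787087)) (a (l 18427602606990814927) (l 18427602606990814927)))))) (b (b (a (a (a (l 16776752) (l 68631390991)) (l 18425350669729787087)) (a (l 18427602606990814927) (l 18427602606990814927))) (b (a (a (a (l 16776736) (l 68639780111)) (l 18425350669729787087)) (a (l 18427602606990814927) (l 18427602606990814927))) (b (a (a (a (l 16776728) (l 68639780111)) (l 18425350669729787087)) (a (l 18427602606990814927) (l 18427602606990814927))) (a (a (a (l 16776720) (c (l 16776856) (l 16776696))) (a (l 16776816) (l 16776848))) (a (a (l 16776880) (l 16776912)) (a (l 16776936) (l 16776952))))))) (a (a (a (l 16776688) (c (l 16776832) (l 16776656))) (a (l 16776784) (l 16776824))) (a (a (l 16776856) (l 16776880)) (a (l 16776904) (l 16776928)))))), by decide +kernel⟩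

def k18_A00pm_112_s1 : ∃ t, chk3 f_A00pm_112_s1 t 33 671 3 = true :=
  ⟨(c (a (a (a (l 16776664) (l 16776720)) (a (l 16776760) (l 16776792))) (a (a (l 16776824) (l 16776856)) (a (l 16776880) (l 16776896)))) (a (a (a (l 16776432) (l 16776496)) (a (l 16776552) (l 16776592))) (a (a (l 16776632) (l 16776672)) (a (l 16776704) (l 16776728))))), by decide +kernel⟩

def k19_A00pm_112_s1 : ∃ t, chk3 f_A00pm_112_s1 t 34 167 2 = true :=
  ⟨(b (b (l 3) (b (b (l 1073710319) (l 1073705711)) (b (a (l 1073682159) (l 1073715951)) (b (l 1073694959) (l 1073690863))))) (b (b (b (b (l 1073685231) (b (l 1073680623) (l 1073676015))) (b (b (a (l 1073649903) (l 1073691375)) (b (l 1073665775) (b (l 1073662703) (a (l 1073639151) (l 1073681647))))) (a (a (l 18445618105079037647) (l 18445618105079037647)) (a (l 18445618105079037647) (l 18445618105079037647))))) (b (b (a (l 18445618105079037647) (a (l 18445618105079037647) (l 18445618105079037647))) (b (a (l 18445618105079037647)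 (l 68715282191)) (a (b (l 18445618105079037647) (a (l 16777184) (c (l 16777240) (l 16777152)))) (a (a (l 16777200) (l 16777200)) (a (l 16777208) (l 16777208)))))) (a (a (c (l 16777240) (l 16777128)) (a (l 16777192) (l 16777192))) (a (a (l 16777200) (l 16777200)) (a (l 16777200) (l 16777208)))))) (a (a (b (l 16777168) (l 16777144)) (b (l 16777176) (l 16777160))) (a (a (l 16777176) (l 16777184)) (a (l 16777192) (l 16777192)))))), by decide +kernel⟩

def k20_A00pm_112_s1 : ∃ t, chk3 f_A00pm_112_s1 t 35 167 2 = true :=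
  ⟨(b (b (l 3) (b (l 3) (b (l 3) (a (l 1073734895) (l 3))))) (b (b (b (b (l 1073740527) (b (l 1073738479) (a (l 1073726191) (l 1073744623)))) (b (b (a (l 1073722607) (b (l 1073743599) (l 1073742575))) (b (b (l 1073731311) (l 1073729775)) (b (a (l 1073716975) (b (l 1073740015) (b (l 1073739503) (l 1073739503)))) (a (l 1073714927) (a (b (l 1073734383) (l 1073733359)) (b (a (l 1073741039) (l 1073744623)) (a (l 1073740527) (l 1073744111)))))))) (b (b (a (a (l 18445618105079037647) (l 18445618105079037647)) (a (a (l 18445618105079037647) (a (l 16777216) (l 16777216))) (a (a (l 18447869904892722895) (l 18447869904892722895)) (a (l 18447870042331676367) (l 18447870042331676367))))) (a (a (l 18445618105079037647) (l 18445618105079037647)) (a (a (l 18445618105079037647) (l 18445618105079037647)) (a (a (l 16777216) (l 16777216)) (a (l 16777216) (l 18447870042331676367)))))) (a (a (l 18445618105079037647) (l 18445618105079037647)) (a (a (l 16777216) (l 18445618105079037647))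 (a (a (l 16777216) (l 16777216)) (a (l 16777216) (l 16777216)))))))) (b (b (a (a (l 18445618105079037647) (l 18445618105079037647)) (a (a (l 16777216) (l 16777216)) (a (a (l 16777216) (l 16777216)) (a (l 16777216) (l 16777216))))) (b (a (a (l 18445618105079037647) (l 18445618105079037647)) (a (a (l 16777216) (l 16777216)) (a (l 18447869904892722895) (l 68715282191)))) (b (a (a (l 18445618105079037647) (l 18445618105079037647)) (a (a (l 16777216) (l 16777216)) (a (l 16777216) (l 68715282191)))) (a (a (a (l 16777208) (l 16777208)) (a (l 16777216) (l 16777216))) (a (a (l 16777216) (l 16777216)) (a (l 16777216) (c (l 16777232) (l 16777200)))))))) (a (a (a (l 16777208) (l 16777208)) (a (l 16777208) (l 16777208))) (a (a (l 16777216) (l 16777216)) (a (c (l 16777240) (l 16777192)) (c (l 16777240) (l 16777192))))))) (a (a (a (l 16777200) (l 16777200)) (a (l 16777200) (l 16777208))) (a (a (l 16777208) (l 16777208)) (a (b (l 16777216) (l 16777208)) (b (l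 16777216) (l 16777216))))))), by decide +kernel⟩

def k21_A00pm_112_s1 : ∃ t, chk3 f_A00pm_112_s1 t 34 167 3 = true :=
  ⟨(b (b (l 3) (b (b (l 1072679151) (l 1072678127)) (b (l 1072677103) (b (l 1072676591) (l 1072675567))))) (b (b (b (b (l 1072674543) (b (l 1072673519) (l 1072672495))) (b (b (a (l 1072650479) (l 1072691439)) (b (l 1072670447) (b (l 1072669935) (a (l 1072648431) (l 1072689391))))) (a (b (l 18427602606990814927) (l 18427602606990814927)) (a (l 18427602606990814927) (l 18429854544251842767))))) (b (b (a (l 18427602606990814927) (a (l 18427602606990814927) (l 18429854544251842767))) (b (a (l 18427602606990814927) (l 68648169231)) (a (a (a (l 16776976) (l 16776992)) (a (l 16777016) (l 16777032))) (a (a (l 16777048) (l 16777056)) (a (l 16777072) (l 16777088)))))) (a (a (a (l 16776952) (l 16776968)) (a (l 16776984) (l 16777000))) (a (a (l 16777016) (l 16777032)) (a (l 16777048) (l 16777056)))))) (a (a (b (l 16776888) (l 16776800)) (a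 (l 16776880) (l 16776896))) (a (a (l 16776912) (l 16776928)) (a (l 16776944) (l 16776960)))))), by decide +kernel⟩

def k22_A00pm_112_s1 : ∃ t, chk3 f_A00pm_112_s1 t 35 167 3 = true :=
  ⟨(b (b (l 3) (b (l 3) (b (l 3) (a (l 1072726255) (l 3))))) (b (b (b (b (l 1072738031) (b (l 1072737519) (a (l 1072724207) (l 1072747759)))) (b (b (b (l 1072736495) (l 1072735983)) (b (a (l 1072723183) (l 1072746735)) (b (a (l 1072722671) (b (l 1072746735) (b (l 1072746735) (l 1072746735)))) (a (l 1072722159) (a (b (l 1072741103) (l 1072741103)) (b (a (l 1072748783) (l 1072753391)) (a (l 1072748783) (l 1072753391)))))))) (b (b (a (a (l 18429854544251842767) (l 18429854544251842767)) (a (a (l 18429854544251842767) (a (l 16777184) (l 16777192))) (a (a (l 18429854544251842767) (l 18429854544251842767)) (a (l 18429854544251842767) (l 18429854544251842767))))) (a (a (l 18429854544251842767) (l 18429854544251842767)) (a (a (l 18429854544251842767) (l 18429854544251842767))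 (a (a (l 16777184) (l 16777192)) (a (l 16777192) (l 18429854544251842767)))))) (a (a (l 18429854544251842767) (l 18429854544251842767)) (a (a (l 16777168) (l 18429854544251842767)) (a (a (l 16777184) (l 16777184)) (a (l 16777184) (l 16777192)))))))) (b (b (a (a (l 18429854544251842767) (l 18429854544251842767)) (a (a (l 16777152) (l 18429854544251842767)) (a (a (l 16777168) (l 16777168)) (a (l 16777176) (l 16777176))))) (b (a (a (l 18429854544251842767) (l 18429854544251842767)) (a (a (l 16777144) (l 16777152)) (a (l 18429854544251842767) (l 68656558351)))) (b (a (a (l 18429854544251842767) (l 18429854544251842767)) (a (a (l 16777136) (l 16777144)) (a (l 18429854544251842767) (l 18429854544251842767)))) (a (a (a (l 16777096) (l 16777104)) (a (l 16777112) (l 16777120))) (a (a (l 16777128) (l 16777136)) (a (l 16777144) (c (l 16777168) (l 16777136)))))))) (a (a (a (l 16777072) (l 16777080)) (a (l 16777096) (l 16777104))) (a (a (l 16777112) (l 16777120))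 (a (c (l 16777144) (l 16777104)) (c (l 16777152) (l 16777112))))))) (a (a (a (l 16776976) (l 16776984)) (a (l 16777000) (l 16777008))) (a (a (l 16777016) (l 16777024)) (a (b (l 16777072) (l 16777000)) (b (l 16777080) (l 16777008))))))), by decide +kernel⟩

def k23_A00pm_112_s1 : ∃ t, chk3 f_A00pm_112_s1 t 9 334 1 = true :=
  ⟨(a (l 3) (b (l 3) (b (a (l 3) (b (a (l 3) (l 1073162495)) (a (l 1073198847) (l 1073159935)))) (a (b (l 3) (b (l 1073236735) (l 1073236223))) (b (a (l 1073196799) (l 1073156863)) (b (l 1073175295) (l 1073172735))))))), by decide +kernel⟩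

def k24_A00pm_112_s1 : ∃ t, chk3 f_A00pm_112_s1 t 9 2680 1 = true :=
  ⟨(a (a (l 3) (l 3)) (b (a (l 1073234687) (a (l 1073190143) (l 1073148159))) (a (b (l 1073233151) (a (l 1073242879) (l 1073219327))) (b (l 1072630527) (a (l 1073185535) (l 1073143039)))))), by decide +kernel⟩

def k25_A00pm_112_s1 : ∃ t, chk3 f_A00pm_112_s1 t 18 10724 1 = true :=
  ⟨(a (a (a (a (b (l 3) (l 1073254127)) (l 3)) (l 3)) (l 3)) (a (l 3) (a (l 3) (b (l 1073253631) (l 1073253119))))), by decide +kernel⟩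

def k26_A00pm_112_s1 : ∃ t, chk3 f_A00pm_112_s1 t 36 21450 2 = true :=
  ⟨(a (a (b (l 1073749743) (l 1073749743)) (a (a (a (b (l 3) (l 1073750767)) (l 3)) (l 3)) (l 3))) (l 3)), by decide +kernel⟩

def k27_A00pm_112_s1 : ∃ t, chk3 f_A00pm_112_s1 t 144 21451 2 = true :=
  ⟨(a (b (b (l 1073748207) (b (l 1073748207) (l 1073748207))) (b (b (l 1073747695) (l 1073747695)) (b (l 1073747695) (l 1073747183)))) (b (b (b (l 1073750255) (a (l 1073749743) (l 1073750255))) (a (b (l 1073749743) (l 1073749743)) (b (b (l 1073750255) (b (l 1073750255) (l 1073750255))) (a (l 1073750255) (b (l 1073750255) (l 1073750255)))))) (b (a (b (l 1073749231) (l 1073749231)) (a (a (l 18447870042340065487) (l 18447870042340065487)) (a (l 18447870042340065487) (l 18447870042340065487)))) (a (a (l 18447870042340064975) (l 18447870042340065487)) (a (l 18447870042340065487) (l 18447870042340065487)))))), by decide +kernel⟩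

def k28_A00pm_112_s1 : ∃ t, chk3 f_A00pm_112_s1 t 290 42902 2 = true :=
  ⟨(a (b (a (b (l 1073750767) (b (l 1073750767) (b (l 1073750767) (b (l 1073750767) (l 1073750767))))) (a (b (l 3) (b (a (l 1073750767) (l 3)) (a (b (a (l 1073750767) (b (l 1073750767) (a (l 1073750767) (b (l 1073750767) (a (b (l 1073750767) (b (l 1073750767) (a (l 1073750767) (b (l 1073750767) (l 1073750767))))) (b (a (l 1073750767) (l 3)) (a (b (l 1073750767) (l 1073750767)) (l 1073750767)))))))) (b (a (l 1073750767) (a (b (a (l 1073750767) (b (l 1073750767) (l 1073750767))) (l 1073750767)) (b (a (b (a (b (l 1073750767) (l 1073750767)) (l 1073750767)) (l 1073750767)) (l 1073750767)) (l 1073750767)))) (a (b (l 1073750767) (l 1073750767)) (a (l 1073750767) (l 1073750767))))) (b (b (l 3) (b (l 3) (b (l 3) (l 1073750767)))) (l 1073750767))))) (l 3))) (a (b (b (a (l 1073750767) (b (a (l 1073750767) (b (l 1073750767) (l 1073750767))) (a (l 1073750767) (l 1073750767)))) (a (b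 (l 1073750767) (l 1073750767)) (b (l 1073750767) (l 1073750767)))) (a (l 1073750767) (b (l 1073750767) (l 1073750767)))) (b (a (b (a (b (a (l 1073750767) (l 1073750767)) (l 1073750767)) (l 1073750767)) (a (l 1073750767) (l 1073750767))) (b (a (l 1073750767) (a (l 1073750767) (l 3))) (a (b (l 1073750767) (b (l 1073750767) (l 1073750767))) (b (a (b (l 1073750767) (b (l 1073750767) (l 1073750767))) (a (b (l 3) (a (b (l 1073750767) (b (l 1074287855) (l 1073750591))) (b (l 3) (l 1073750767)))) (l 3))) (a (a (b (l 1073750767) (l 1073750767)) (b (a (b (l 1073750767) (l 1073750767)) (l 1073750767)) (l 1073750767))) (l 1073750767)))))) (a (a (b (l 1073750767) (l 1073750767)) (a (l 18447870042340065487) (l 18447870042340065487))) (a (a (l 18447870042340065487) (a (l 18447870042340065487) (l 1073750767))) (a (l 1073750767) (l 1073750767))))))) (b (l 3) (b (b (l 3) (b (l 3) (l 1073750591))) (l 1073750591)))), by decide +kernel⟩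

def k29_A00pm_112_s1 : ∃ t, chk3 f_A00pm_112_s1 t 290 42903 2 = true :=
  ⟨(a (a (a (b (l 18447870042340065487) (l 1073750255)) (a (l 18447870042340065487) (b (l 18447870042340065487) (l 1073750767)))) (a (a (a (l 18447870042340065487) (l 18447870042340065487)) (b (l 1073750767) (l 1073750767))) (a (a (l 1073750767) (l 1073750767)) (l 1073750767)))) (l 1073750591)), by decide +kernel⟩

def k30_A00pm_112_s1 : ∃ t, chk3 f_A00pm_112_s1 t 291 21451 2 = true :=
  ⟨(b (l 3) (l 1073750591)), by decide +kernel⟩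

def k31_A00pm_112_s1 : ∃ t, chk3 f_A00pm_112_s1 t 73 21451 2 = true :=
  ⟨(l 3), by decide +kernel⟩

def k32_A00pm_112_s1 : ∃ t, chk3 f_A00pm_112_s1 t 74 10725 2 = true :=
  ⟨(b (l 3) (b (l 3) (l 1073747535))), by decide +kernel⟩

def k33_A00pm_112_s1 : ∃ t, chk3 f_A00pm_112_s1 t 150 21450 2 = true :=
  ⟨(a (l 3) (b (l 1073750783) (l 1073750271))), by decide +kernel⟩

def k34_A00pm_112_s1 : ∃ t, chk3 f_A00pm_112_s1 t 300 21451 2 = true :=
  ⟨(b (a (b (l 3) (b (l 3) (l 1073750607))) (b (a (l 3) (b (a (l 3) (l 1073750783)) (a (a (l 3) (b (l 3) (b (a (l 3) (a (l 3) (b (l 3) (b (a (l 3) (l 1073750783)) (a (b (l 3) (l 1073750783)) (b (l 1073750783) (a (b (l 1073750783) (l 1073750783)) (l 1073750783)))))))) (a (l 1073750783) (b (a (l 1073750783) (b (a (l 1073750783) (l 1073750783)) (l 1073750783))) (l 1073750783)))))) (b (l 1073750783) (b (l 1073750783) (a (b (a (a (b (a (b (a (b (l 1073750783) (l 1073750783)) (l 1073750783)) (l 1073750783)) (l 1073750783))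 (a (l 1073750783) (l 1073750783))) (b (l 1073750783) (l 1073750783))) (l 1073750783)) (a (a (l 1073750783) (l 1073750783)) (l 1073750783))) (l 1073750783))))))) (a (a (b (l 3) (l 1073750607)) (b (b (a (l 3) (l 1073750783)) (a (b (l 3) (l 1073750607)) (b (a (b (a (l 3) (l 1073750783)) (a (l 1073750783) (b (a (l 1073750783) (l 1073750783)) (l 1073750783)))) (b (l 1073750783) (a (b (l 1073750783) (l 1073750783)) (l 1073750783)))) (a (a (l 1073750607) (l 1073750783)) (a (l 1073750783) (l 1073750783)))))) (a (l 1073750607) (a (l 1073750783) (a (l 1073750783) (l 1073750783)))))) (b (a (b (l 1073750783) (a (b (l 1073750783) (b (l 1073750783) (l 1073750783))) (l 1073750783))) (b (b (a (a (l 1073750783) (l 1073750783)) (b (l 1073750783) (l 1073750783))) (a (l 1073750783) (l 1073750783))) (a (l 1073750783) (l 1073750783)))) (a (a (a (b (l 1073750783) (l 1073750783)) (l 18447870042340065503)) (b (l 1073750783) (l 1073750783))) (b (l 1073750783) (l 1073750783)))))))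 (a (l 1073750607) (a (a (l 1073750607) (a (l 1073750607) (l 18447870042340065503))) (a (a (a (l 18447870042340065503) (l 18447870042340065503)) (a (l 18447870042340065503) (b (l 1073750783) (l 1073750783)))) (a (a (l 18447870042340065503) (l 18447870042340065503)) (b (l 18447870042340065503) (l 1073750783))))))), by decide +kernel⟩

def k35_A00pm_112_s1 : ∃ t, chk3 f_A00pm_112_s1 t 301 21451 2 = true :=
  ⟨(b (b (b (l 1073750271) (b (l 1073750271) (b (l 1073750271) (l 1073750271)))) (a (a (b (b (b (l 1073750783) (l 1073750783)) (a (b (l 1073750783) (l 1073750783)) (l 1073750783))) (a (l 1073750783) (l 1073750783))) (b (b (l 1073750271) (l 1073750271)) (b (l 1073750271) (l 1073750271)))) (b (b (l 1073749759) (l 1073749759)) (b (l 1073749759) (l 1073749759))))) (a (a (a (b (l 18447870042340065503) (l 18447870042340065503)) (l 18447870042340065503)) (a (l 18447870042340065503) (l 18447870042340065503))) (a (a (l 18447870042340065503) (l 18447870042340065503))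 (a (l 18447870042340065503) (l 18447870042340064991))))), by decide +kernel⟩

def k36_A00pm_112_s1 : ∃ t, chk3 f_A00pm_112_s1 t 151 10725 2 = true :=
  ⟨(b (b (l 1073748223) (l 1073748223)) (b (b (l 1073747711) (b (l 1073747199) (a (l 1073748223) (l 1073745663)))) (b (a (b (l 1073748223) (l 1073748223)) (l 1073745663)) (a (a (b (l 1073748735) (l 1073748223)) (l 1073747199)) (l 1073745151))))), by decide +kernel⟩

def k37_A00pm_112_s1 : ∃ t, chk3 f_A00pm_112_s1 t 36 21450 3 = true :=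
  ⟨(a (a (b (l 1072759023) (l 1072759023)) (a (a (a (b (l 3) (l 1072762607)) (l 3)) (l 3)) (l 3))) (l 3)), by decide +kernel⟩

def k38_A00pm_112_s1 : ∃ t, chk3 f_A00pm_112_s1 t 144 21451 3 = true :=
  ⟨(a (b (b (l 1072757487) (b (l 1072757487) (l 1072757487))) (b (b (l 1072756975) (l 1072756975)) (b (l 1072756975) (l 1072756975)))) (b (b (b (l 1072760559) (l 1072760559)) (a (b (l 1072760047) (l 1072759535)) (b (b (l 1072761071) (b (l 1072761071) (l 1072761071))) (a (l 1072761071) (b (l 1072761583) (l 1072761583)))))) (a (a (b (l 1072222447) (l 18429854544251842767)) (a (l 18429854544251842767) (l 18429854544251842767))) (a (a (l 18429854544251842767) (l 18429854544251842767)) (a (l 18429854544251842767) (l 18429854544251842767)))))), by decide +kernel⟩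

def k39_A00pm_112_s1 : ∃ t, chk3 f_A00pm_112_s1 t 290 42902 3 = true :=
  ⟨(a (b (a (b (l 1072762095) (b (l 1072762095) (b (l 1072762095) (b (l 1072762095) (l 1072762095))))) (a (b (l 3) (b (a (l 1072762607) (l 3)) (a (b (a (l 1072762607) (b (l 1072762607) (a (l 1072762607) (b (l 1072762607) (a (b (l 1072762607) (b (l 1072762607) (a (l 1072762607) (b (l 1072762607) (l 1072762607))))) (b (a (l 1072762607) (l 3)) (a (l 1073299695) (l 1072762607)))))))) (b (a (l 1072762607) (a (b (a (l 1072762607) (b (l 1072762607) (l 1072762607))) (l 1072762607)) (a (a (a (b (l 1073299695) (l 1072762607)) (l 1072762607)) (l 1072762607)) (l 1072762607)))) (a (l 1072762607) (a (l 1072762607) (l 1072762607))))) (b (a (b (l 3) (b (l 3) (l 1073299695))) (l 3)) (l 1072763119))))) (l 3))) (a (b (a (b (l 1072762095) (b (l 1072762095) (l 1072762095))) (a (b (a (l 1072762095) (l 1072762607)) (l 1072762607)) (b (a (l 1072762607) (l 1072762607)) (l 1072762607)))) (a (l 1072762095)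 (l 1072762607))) (b (a (b (a (b (a (l 1072762607) (l 1072762607)) (l 1072762607)) (l 1072762607)) (a (l 1072762607) (l 1072762607))) (b (a (l 1072763119) (a (l 1072763119) (l 3))) (a (b (l 1072763119) (b (l 1072763119) (l 1072763119))) (b (a (b (l 1072763119) (b (l 1072763119) (l 1072763119))) (a (b (l 3) (a (b (l 1072763119) (b (l 1072763119) (l 1072762943))) (b (l 3) (l 1072763119)))) (l 3))) (a (b (a (l 1072763119) (a (b (l 1072763119) (l 1072763119)) (l 1072763119))) (a (l 1072763119) (l 1072763119))) (l 1072763119)))))) (a (a (b (l 1072762607) (l 1072762607)) (a (l 18429854544251842767) (l 18429854544251842767))) (a (a (l 18429854544251842767) (a (l 18429854544251842767) (l 1072763119))) (a (l 1072763119) (l 1072763119))))))) (b (l 3) (b (b (l 3) (b (l 3) (l 1072763455))) (l 1072763455)))), by decide +kernel⟩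

def k40_A00pm_112_s1 : ∃ t, chk3 f_A00pm_112_s1 t 290 42903 3 = true :=
  ⟨(a (a (a (b (l 18429854544251842767) (l 1072762095)) (a (l 18429854544251842767) (l 18429854544251842767))) (a (a (a (l 18429854544251842767) (l 18429854544251842767)) (l 18429854544251842767)) (a (l 1073299695) (l 1072763119)))) (l 1072763455)), by decide +kernel⟩

def k41_A00pm_112_s1 : ∃ t, chk3 f_A00pm_112_s1 t 291 21451 3 = true :=
  ⟨(b (l 3) (l 1072764991)), by decide +kernel⟩

def k42_A00pm_112_s1 : ∃ t, chk3 f_A00pm_112_s1 t 73 21451 3 = true :=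
  ⟨(l 3), by decide +kernel⟩

def k43_A00pm_112_s1 : ∃ t, chk3 f_A00pm_112_s1 t 74 10725 3 = true :=
  ⟨(b (l 3) (b (l 3) (l 1072767055))), by decide +kernel⟩

def k44_A00pm_112_s1 : ∃ t, chk3 f_A00pm_112_s1 t 150 21450 3 = true :=
  ⟨(a (l 3) (b (l 1072761087) (l 1072761087))), by decide +kernel⟩

def k45_A00pm_112_s1 : ∃ t, chk3 f_A00pm_112_s1 t 300 21451 3 = true :=
  ⟨(b (a (b (l 3) (b (l 3) (l 1072763983))) (b (a (l 3) (b (a (l 3) (l 1072762623)) (a (a (l 3) (b (l 3) (b (a (l 3) (a (l 3) (b (l 3) (b (a (l 3) (l 1072762623)) (a (b (l 3) (l 1072762623)) (b (l 1072762623) (a (b (l 1072762623) (l 1072762623)) (l 1072762623)))))))) (a (l 1072763135) (a (l 1072762623) (a (l 1072762623) (a (l 1072762623) (l 1072762623)))))))) (b (l 1072762623) (b (l 1072762623) (a (b (a (a (b (a (b (a (b (l 1072762623) (l 1072762623)) (l 1072762623)) (l 1072762623)) (l 1072762623)) (a (l 1072762623) (l 1072762623))) (b (l 1072762623) (l 1072762623))) (l 1072762623))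 (a (a (l 1072762623) (l 1072762623)) (l 1072762623))) (l 1072762623))))))) (a (a (b (l 3) (l 1072763471)) (b (b (a (l 3) (l 1072763135)) (a (b (l 3) (l 1072762959)) (b (a (b (a (l 3) (l 1072763135)) (a (l 1072763135) (b (l 1072763135) (l 1072763135)))) (b (l 1072763135) (a (b (l 1072763135) (l 1072763135)) (l 1072763135)))) (a (l 1072763135) (a (l 1072763135) (l 1072763135)))))) (a (l 1072762959) (a (l 1072763135) (a (l 1072763135) (l 1072763135)))))) (b (a (b (l 1072763135) (a (b (l 1072763135) (b (l 1072763135) (l 1072763135))) (l 1072762623))) (a (b (a (l 1072762623) (l 1072762623)) (l 1072762623)) (b (b (b (l 1072762623) (l 1072762623)) (l 1072762623)) (l 1072762623)))) (a (a (a (b (l 1072763135) (l 1072763135)) (l 18429854544251842783)) (b (l 1072762623) (l 1072762623))) (b (l 1072762623) (l 1072762623))))))) (a (l 1072763983) (a (a (l 1072763471) (a (l 1072762959) (l 18429854544251842783))) (a (a (a (l 18429854544251842783) (l 18429854544251842783))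 (a (l 18429854544251842783) (l 18438861743506583775))) (a (b (l 18429854544251842783) (l 1072762623)) (l 18429854544251842783)))))), by decide +kernel⟩

def k46_A00pm_112_s1 : ∃ t, chk3 f_A00pm_112_s1 t 301 21451 3 = true :=
  ⟨(b (b (b (l 1072761087) (b (l 1072761087) (b (l 1072761087) (l 1072761087)))) (a (a (b (b (b (l 1072762111) (l 1072762111)) (a (b (l 1072762111) (l 1072762111)) (l 1072762111))) (a (l 1072762111) (l 1072762111))) (b (b (l 1072761599) (l 1072761599)) (b (l 1072761599) (l 1072761599)))) (b (b (l 1072760575) (l 1072760575)) (l 1072760575)))) (a (a (a (b (l 18429854544251842783) (l 1072762111)) (l 18429854544251842783)) (a (l 18429854544251842783) (l 18429854544251842783))) (a (a (l 18429854544251842783) (l 18429854544251842783)) (a (l 18429854544251842783) (l 18429854544251842783))))), by decide +kernel⟩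

def k47_A00pm_112_s1 : ∃ t, chk3 f_A00pm_112_s1 t 151 10725 3 = true :=
  ⟨(b (b (l 1072756479) (l 1072756479)) (b (b (l 1072755967) (b (l 1072755967) (a (l 1072758015) (l 1072753919)))) (b (a (b (l 1072758015) (l 1072758015)) (l 1072753919)) (a (a (a (l 18429854544251842783) (l 1072758015)) (l 1072756991)) (l 1072753919))))), by decide +kernel⟩

def k48_A00pm_112_s1 : ∃ t, chk3 f_A00pm_112_s1 t 19 5362 1 = true :=
  ⟨(b (a (a (b (l 1073242367) (l 1073241343)) (l 1073217279)) (b (l 1073163007) (l 1073161471))) (b (a (a (l 1073240319) (l 1073214719)) (l 1072622335)) (a (b (a (a (b (l 1073244415) (l 1073243903)) (l 1073233663)) (l 1073213695)) (a (a (b (l 1073243903) (a (l 1073245439) (l 1073240831))) (b (l 1073233151) (l 1073232639))) (l 1073212159))) (b (l 1073157375) (a (l 1073177343) (l 1073133823)))))), by decide +kernel⟩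

def k49_A00pm_112_s1 : ∃ t, chk3 f_A00pm_112_s1 t 9 21452 1 = true :=
  ⟨(a (a (a (a (a (a (a (l 18438862293295954127) (l 18438862293295954127)) (a (l 18438862293295954127) (l 18438862293295954127))) (a (a (l 18438862293295954127) (b (l 18438862293295954127) (l 18438862293295954127))) (a (a (l 18438862293295954127) (l 18438862293295954127)) (a (l 18438862293295954127) (b (l 18438862293295954127) (l 18438862293295954127)))))) (a (a (a (a (b (l 18438862293295954127) (l 18438862293295954127)) (a (l 18438862293295954127) (b (l 18438862293295954127) (l 18438862293295954127)))) (a (a (a (l 18438862293295954127) (l 18438862293295954127)) (l 18438862293295954127)) (b (l 1073257199) (l 1073256175)))) (l 1073257023)) (l 1073258047))) (l 1328660053651576776821872942632663343)) (a (l 18438862293295954111) (a (a (a (l 1073257039) (a (l 18438862293295954143) (a (a (l 18438862293295954143) (a (l 18438862293295954143) (l 18447869492550695135))) (a (a (l 18438862293295954143)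 (l 18438862293295954143)) (b (l 18438862293295954143) (l 18438862293295954143)))))) (a (a (a (a (l 18438862293295954143) (l 18438862293295954143)) (b (l 18438862293295954143) (l 18438862293295954143))) (a (l 18438862293295954143) (l 18438862293295954143))) (a (a (l 18438862293295954143) (l 18438862293295954143)) (b (l 18438862293295954143) (l 18438862293295954143))))) (a (a (a (l 18438862293295954143) (l 18438862293295954143)) (a (l 18438862293295954143) (l 18438862293295954143))) (a (a (l 18438862293295954143) (l 18438862293295954143)) (a (l 18438862293295954143) (l 18438862293295954143))))))) (a (a (a (a (a (a (l 18438862293295954143) (l 18438862293295954143)) (a (l 18438862293295954143) (l 16777200))) (a (l 18438862293295954143) (l 18438862293295954143))) (a (a (l 18438862293295954143) (l 18438862293295954143)) (l 18438862293295954143))) (a (a (l 18438862293295953631) (l 18438862293287565023)) (l 18436610356034926303))) (a (a (l 18436610356034926303)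 (l 18436610356034926303)) (a (l 18436610356034926303) (l 18436610356034926303))))), by decide +kernel⟩

def k50_A00pm_112_s1 : ∃ t, chk3 f_A00pm_112_s1 t 9 21453 1 = true :=
  ⟨(a (a (a (a (a (a (a (l 18438862293295954127) (l 18438862293295954127)) (a (l 18438862293295954127) (l 18438862293295954127))) (a (a (l 18438862293295954127) (l 18438862293295954127)) (a (l 18438862293295954127) (a (l 18438862293295954127) (l 18438862293295954127))))) (a (a (a (a (l 18438862293295954127) (a (l 18438862293295954127) (l 18438862293295954127))) (a (a (l 18438862293295954127) (l 18438862293295954127)) (l 18438862293295954127))) (l 1073254463)) (l 1073255999))) (l 1328660053651576776821872942632663343)) (a (l 18438862293295954111) (a (a (a (l 1073254991) (a (l 18438862293295954143) (a (a (l 18438862293295954143) (l 18438862293295954143)) (a (l 18438862293295954143) (l 18438862293295954143))))) (a (a (a (l 18438862293295954143) (l 18438862293295954143)) (a (l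 18438862293295954143) (l 18438862293295954143))) (a (l 18438862293295954143) (l 18438862293295954143)))) (a (a (a (l 18438862293295954143) (l 18438862293295954143)) (a (l 18438862293295954143) (l 18438862293295954143))) (a (l 18438862293295954143) (l 18438862293295954143)))))) (a (a (a (a (a (l 18438862293295954143) (l 18438862293295954143)) (a (l 18438862293295954143) (l 18438862293295954143))) (a (a (l 18438862293295954143) (l 16777192)) (l 18438862293295954143))) (a (l 18438862293287565023) (l 18436610356034926303))) (a (a (l 18436610356034926303) (l 18436610356034926303)) (a (l 18436610356034926303) (l 18436610356034926303))))), by decide +kernel⟩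

def k51_A00pm_112_s1 : ∃ t, chk3 f_A00pm_112_s1 t 9 10727 1 = true :=
  ⟨(a (a (a (a (a (a (l 68690114831) (a (l 16777208) (l 18438862293295954127))) (a (a (l 18438862293295954127) (l 18438862293295954127)) (a (l 18438862293295954127) (l 68690114831)))) (a (a (a (l 68690114831) (l 68690114831)) (l 18438862293295954127)) (l 1073254959))) (l 1073259055)) (a (l 1073258031) (a (a (a (l 1073253935) (a (l 18438862293295954143) (a (l 18438862293295954143) (l 68690114847)))) (a (a (l 68690114847) (l 68690114847)) (a (l 18438862293295954143) (l 18438862293295954143)))) (a (a (a (l 18438862293295954143) (l 16777208)) (a (l 16777208) (l 16777200))) (a (l 68690114847) (l 18438862293295954143)))))) (a (a (a (a (a (l 18438862293295954143) (l 16777200)) (a (l 16777200) (l 16777192))) (a (l 68690114847) (l 18438862293295954143))) (a (l 18438862293287565023) (l 18436610356034926303))) (a (a (l 18436610356034926303) (l 18436610356034926303)) (a (l 18436610356034926303)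 (l 18436610356034926303))))), by decide +kernel⟩

def k52_A00pm_112_s1 : ∃ t, chk3 f_A00pm_112_s1 t 9 5364 1 = true :=
  ⟨(a (a (a (a (a (a (l 68690114831) (l 68656558351)) (a (a (l 18438862293295954127) (l 18438862293295954127)) (a (l 18438862293295954127) (l 18447869492550695119)))) (a (a (a (l 68690114831) (l 68690114831)) (l 18438862293295954127)) (l 1073255471))) (l 1073259567)) (a (l 1073258543) (a (a (a (l 1073254447) (a (l 18438862293295954143) (l 68690114847))) (a (a (l 68690114847) (l 68690114847)) (a (l 18438862293295954143) (l 18438862293295954143)))) (a (a (a (l 18438862293295954143) (l 16777200)) (l 68690114847)) (a (l 68690114847) (l 68690114847)))))) (a (a (a (a (a (l 16777192) (l 16777192)) (a (l 16777192) (l 16777192))) (a (l 68690114847) (l 18438862293295954143))) (a (l 68681725727) (l 18436610356034926303))) (a (a (l 18436610356034926303) (l 18436610356034926303)) (a (l 18436610356034926303) (l 18436610356034926303))))), by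 decide +kernel⟩

def k53_A00pm_112_s1 : ∃ t, chk3 f_A00pm_112_s1 t 9 10730 1 = true :=
  ⟨(a (a (a (a (a (a (l 18438862293295954127) (l 18438862293295954127)) (a (l 18447869492550695119) (l 68690114831))) (a (a (l 68690114831) (l 18438862293295954127)) (l 1073255983))) (l 1073260079)) (a (l 1073259567) (a (a (a (l 1073254959) (l 68690114847)) (a (l 68690114847) (l 68690114847))) (a (a (l 18438862293295954143) (l 18438862293295954143)) (a (l 18438862293295954143) (l 16777192)))))) (a (a (a (a (a (l 16777184) (l 16777184)) (l 68690114847)) (a (l 18438862293295954143) (l 18438862293295954143))) (a (l 18438862293295953631) (l 18436610356034926303))) (a (a (l 18436610356034926303) (l 18436610356034926303)) (l 68681725727)))), by decide +kernel⟩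

def k54_A00pm_112_s1 : ∃ t, chk3 f_A00pm_112_s1 t 9 21462 1 = true :=
  ⟨(a (a (a (a (a (a (l 18438862293295954127) (l 18438862293295954127)) (a (l 18438862293295954127) (l 68690114831))) (a (a (l 68690114831) (l 18438862293295954127)) (l 1073256495))) (l 1073260591)) (a (l 1073259567) (a (a (a (l 1073255471) (l 68690114847)) (a (l 68690114847) (l 18438862293295954143))) (a (a (l 18438862293295954143) (l 18438862293295954143)) (a (l 16777184) (l 16777184)))))) (a (a (a (a (l 68690114847) (l 18438862293295954143)) (a (l 18438862293295954143) (l 18438862293295954143))) (a (l 18438862293295953631) (l 18436610356034926303))) (a (a (l 18436610356034926303) (l 18436610356034926303)) (l 68681725727)))), by decide +kernel⟩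

def k55_A00pm_112_s1 : ∃ t, chk3 f_A00pm_112_s1 t 9 21463 1 = true :=
  ⟨(a (a (a (a (c (a (a (l 16777216) (l 16777216)) (a (l 16777216) (l 16777216))) (a (a (l 16777152) (l 16777160)) (a (l 16777160) (l 16777160)))) (a (a (a (l 16777192) (a (l 16777192) (l 16777192))) (a (a (l 16777192) (l 16777192)) (l 16777192))) (a (a (l 16777192) (l 16777192)) (a (l 16777192) (l 16777192))))) (a (c (a (a (l 16777216) (l 16777216)) (a (l 16777216) (l 16777216))) (a (a (l 16777168) (l 16777168)) (a (l 16777168) (l 16777168)))) (a (a (l 16777192) (l 16777192)) (a (l 16777192) (l 16777192))))) (a (a (c (a (c (l 16777224) (l 16777208)) (a (l 16777216) (l 16777216))) (a (c (l 16777184) (l 16777160)) (a (l 16777168) (l 16777168)))) (c (a (a (l 16777216) (l 16777216)) (a (l 16777216) (l 16777216))) (a (a (l 16777168) (l 16777168)) (a (l 16777168) (l 16777168))))) (a (c (a (c (a (l 16777232) (l 16777232)) (a (l 16777200) (l 16777200))) (a (a (l 16777216) (l 16777216))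 (l 16777216))) (a (c (a (l 16777176) (l 16777176)) (a (l 16777152) (l 16777152))) (a (a (l 16777160) (l 16777160)) (l 16777160)))) (c (a (a (l 16777216) (l 16777216)) (c (l 16777232) (l 16777200))) (a (a (l 16777160) (l 16777152)) (c (l 16777168) (l 16777136))))))) (a (a (a (a (a (l 16777184) (l 16777184)) (a (l 16777176) (l 16777176))) (c (a (l 16777216) (l 16777216)) (a (l 16777136) (l 16777128)))) (a (a (l 16777168) (l 16777160)) (a (l 16777152) (l 16777144)))) (a (a (a (l 16777144) (l 16777136)) (a (l 16777128) (l 16777112))) (a (a (l 16777104) (l 16777096)) (a (l 16777088) (l 16777072)))))), by decide +kernel⟩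

def k56_A00pm_112_s1 : ∃ t, chk3 f_A00pm_112_s1 t 9 2683 1 = true :=
  ⟨(a (a (a (a (c (a (a (l 16777216) (l 16777216)) (a (l 16777216) (l 16777216))) (a (a (l 16777136) (l 16777136)) (a (l 16777136) (l 16777144)))) (a (c (a (c (l 16777232) (l 16777200)) (a (l 16777216) (l 16777216))) (a (c (l 16777160) (l 16777128)) (a (l 16777144) (l 16777144)))) (l 1073255007))) (l 1073261151)) (a (l 1073260127) (a (c (a (a (l 1073744991) (a (l 16777216) (l 16777216))) (a (a (l 16777216) (l 16777216)) (l 16777216))) (a (a (l 1072762463) (a (l 16777144) (l 16777144))) (a (a (l 16777144) (l 16777144)) (l 16777144)))) (c (a (a (l 16777216) (l 16777216)) (c (l 16777232) (l 16777192))) (a (a (l 16777136) (l 16777136)) (c (l 16777152) (l 16777112))))))) (a (a (a (a (a (l 16777168) (l 16777168)) (a (l 16777168) (l 16777168))) (c (a (l 16777216) (l 16777216)) (a (l 16777112) (l 16777104)))) (a (a (a (l 16777152) (l 16777152)) (l 16777152)) (a (l 16777144) (l 16777136))))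 (a (a (a (l 16777128) (l 16777120)) (a (l 16777112) (l 16777104))) (a (a (l 16777096) (l 16777080)) (a (l 16777072) (l 16777056)))))), by decide +kernel⟩

def k57_A00pm_112_s1 : ∃ t, chk3 f_A00pm_112_s1 t 9 671 1 = true :=
  ⟨(a (a (a (a (c (a (a (l 16777216) (l 16777216)) (a (l 16777216) (l 16777216))) (a (a (l 16777048) (l 16777048)) (a (l 16777048) (l 16777056)))) (a (a (b (a (l 16777152) (l 16777152)) (l 16777120)) (b (a (l 16777152) (l 16777152)) (l 16777120))) (l 1073258591))) (l 1073264735)) (a (l 1073264735) (a (a (a (l 1073258591) (a (l 1073257055) (b (l 16777152) (l 16777120)))) (a (b (a (l 16777152) (l 16777152)) (l 16777120)) (a (a (l 16777136) (l 16777136)) (l 16777136)))) (c (a (a (l 16777216) (l 16777216)) (a (l 16777216) (l 16777216))) (a (a (l 16777056) (l 16777048)) (a (l 16777048) (l 16777040))))))) (a (a (a (a (a (l 16777128) (l 16777128)) (a (l 16777120) (l 16777120))) (c (a (l 16777208) (l 16777208)) (a (l 16777024) (l 16777016))))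 (a (c (a (l 16777208) (l 16777200)) (a (l 16777008) (l 16776992))) (a (l 16777088) (l 16777080)))) (a (a (a (l 16777072) (l 16777064)) (a (l 16777056) (l 16777040))) (a (a (l 16777032) (l 16777016)) (a (l 16777008) (l 16776992)))))), by decide +kernel⟩

def k58_A00pm_112_s1 : ∃ t, chk3 f_A00pm_112_s1 t 5 82 1 = true :=
  ⟨(a (a (l 3) (l 1)) (l 1)), by decide +kernel⟩

def k59_A00pm_112_s1 : ∃ t, chk3 f_A00pm_112_s1 t 5 166 1 = true :=
  ⟨(a (a (b (l 3) (a (b (l 3) (b (l 3) (a (l 3) (b (l 3) (c (l 1073262735) (l 1072304783)))))) (a (b (l 3) (b (b (l 3) (c (l 1072805007) (l 1071973007))) (b (c (l 1072786575) (l 1071946895)) (c (l 1072758927) (l 1071913615))))) (b (a (b (l 3) (b (l 3) (l 1072077455))) (l 1)) (b (a (b (l 1072058511) (l 1072032911)) (l 1)) (b (c (l 1072219279) (l 1071517327)) (c (l 1072173199) (l 1071469199)))))))) (l 1)) (l 1)), by decide +kernel⟩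

def k60_A00pm_112_s1 : ∃ t, chk3 f_A00pm_112_s1 t 20 1336 1 = true :=
  ⟨(a (a (l 3) (b (c (l 1073244303) (l 1072279695)) (c (b (l 1073223311) (l 1073205391)) (b (l 1072254607) (l 1072235151))))) (b (c (a (l 1072720015) (l 1072112271)) (a (l 1071871631) (l 1071410319))) (c (a (b (l 1072679567) (l 1072647823)) (b (l 1072053391) (l 1072007311))) (a (b (l 1071830671) (l 1071799951)) (b (l 1071355535) (l 1071314063)))))), by decide +kernel⟩

def k61_A00pm_112_s1 : ∃ t, chk3 f_A00pm_112_s1 t 20 1337 1 = true :=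
  ⟨(a (b (a (a (l 3) (b (c (l 1073516687) (l 1072489103)) (c (l 1073503887) (l 1072473231)))) (c (b (l 1073184399) (l 1073158799)) (b (l 1072212111) (l 1072185487)))) (a (a (a (b (l 3) (a (b (l 3) (l 1073138431)) (a (b (l 3) (l 1073134335)) (b (b (l 3) (c (b (l 1073653391) (a (l 1073655951) (l 1073648271))) (b (l 1072607375) (l 1073142415)))) (b (a (b (a (l 1073132287) (l 1073133823)) (l 1073131775)) (b (l 1073127167) (l 1073128703))) (l 1073129215)))))) (b (b (c (l 1073621135) (l 1072578703)) (c (l 1073615503) (l 1072571535))) (b (b (c (l 1073610895) (l 1072565391)) (a (b (l 1073104015) (b (l 1073102479) (l 1073101967))) (l 1073063567))) (a (b (a (b (l 1073114879) (l 1073118463)) (l 1073099519)) (a (l 1073121023) (l 1073106687))) (b (l 1073070847) (l 1073081087)))))) (b (c (b (l 1073491599) (l 1073482383)) (b (l 1072458895) (l 1072448143))) (a (b (c (l 1073521807) (l 1072481423)) (b (l 1073006335) (l 1073020671))) (b (b (l 1072905359) (l 1072899215))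 (l 1072918271))))) (b (c (c (l 1073373327) (l 1072882831)) (b (l 1072162447) (l 1072145551))) (b (c (l 1073635983) (l 1072127119)) (a (c (l 1073257215) (l 1072253183)) (l 1072500991)))))) (b (c (a (b (l 1072610959) (l 1072566927)) (b (l 1071954575) (l 1071893647))) (b (a (l 1071765135) (l 1071267471)) (a (l 1071724687) (l 1071214735)))) (c (b (a (l 1072515727) (l 1071823503)) (a (b (l 1072470671) (l 1072494847)) (b (l 1071762575) (l 1071784703)))) (b (a (l 1071678607) (l 1071154831)) (a (b (l 1071638671) (l 1071655167)) (b (l 1071104143) (l 1071118591))))))), by decide +kernel⟩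

def k62_A00pm_112_s1 : ∃ t, chk3 f_A00pm_112_s1 t 21 668 1 = true :=
  ⟨(l 1), by decide +kernel⟩

def k63_A00pm_112_s1 : ∃ t, chk3 f_A00pm_112_s1 t 10 1338 1 = true :=
  ⟨(a (a (a (b (a (a (b (a (l 1073137919) (a (l 1073133311) (l 1073129727))) (l 1073133311)) (b (b (a (a (l 1073123071) (b (l 1073110271) (l 1073112831))) (c (l 1073614079) (l 1072566527))) (a (l 1073119487) (a (l 1073103103) (l 1073089279)))) (a (l 1073120511) (l 1073101567)))) (b (a (b (c (l 1073559807) (l 1072513791)) (a (l 1073066239) (l 1073030399))) (b (c (l 1073468671) (l 1072431359)) (a (l 1072990463) (l 1072946943)))) (a (b (a (l 1073073407) (l 1073041151)) (l 1073064191)) (c (b (l 1073507071) (l 1073518847)) (b (l 1072465663) (l 1072476927)))))) (a (a (b (l 1073131775) (l 1073130239)) (b (a (l 1073119999) (l 1073104127)) (l 1073112831))) (b (a (a (l 1073082623) (l 1073056511)) (a (l 1073026303) (b (l 1072987391) (l 1072995583)))) (a (l 1073075455) (l 1073021183)))))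 (b (c (b (a (a (l 1073376511) (l 1073257215)) (l 1073054975)) (a (a (l 1073423103) (l 1073316607)) (l 1073131263))) (a (b (a (l 1072351487) (l 1072252159)) (a (l 1072391423) (l 1072301311))) (b (l 1072088831) (l 1072149759)))) (c (a (b (a (l 1073452287) (l 1073356543)) (a (l 1073471743) (l 1073384703))) (b (a (l 1073246975) (l 1073124095)) (a (l 1073283839) (l 1073170175)))) (a (b (a (l 1072418559) (l 1072336127)) (a (l 1072438015) (l 1072362239))) (b (a (l 1072244479) (l 1072145151)) (a (l 1072277247) (l 1072184063))))))) (b (a (c (b (l 1072588543) (a (l 1072846079) (l 1072528639))) (b (l 1071725311) (a (l 1071924479) (l 1071679231)))) (c (b (l 1071889151) (l 1072009983)) (b (l 1071195903) (l 1071286527)))) (c (a (b (a (l 1072919295) (l 1072616191)) (a (l 1072977663) (l 1072688383))) (b (c (l 1072299775) (l 1071926015)) (c (l 1072393983) (l 1072009471)))) (a (b (a (l 1071982847) (l 1071747327)) (a (l 1072029951) (l 1071804671))) (b (a (l 1071495935)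 (l 1071233279)) (a (l 1071560959) (l 1071304447))))))) (l 1)), by decide +kernel⟩

def k64_A00pm_112_s1 : ∃ t, chk3 f_A00pm_112_s1 t 10 1339 1 = true :=
  ⟨(a (a (a (b (a (a (b (l 1073128191) (l 1073126655)) (b (l 1073111807) (l 1073110271))) (b (a (l 1073078015) (l 1073028863)) (a (l 1073079039) (l 1073033983)))) (a (b (a (l 1073124095) (l 1073108223)) (a (l 1073121535) (l 1073105663))) (b (a (l 1073079039) (l 1073037055)) (a (l 1073078015) (l 1073038591))))) (b (a (b (a (l 1072966399) (l 1072891135)) (a (l 1072976127) (l 1072906495))) (b (c (a (l 1073311487) (l 1073205503)) (a (l 1072302847) (l 1072215295))) (a (l 1072825599) (c (l 1073232639) (l 1072240895))))) (b (a (a (l 1072983295) (l 1072917759)) (c (l 1073302271) (l 1072302335))) (a (b (l 1072957183) (l 1072959743)) (c (l 1073315583) (l 1072318207)))))) (b (a (c (b (a (c (l 1073265407) (l 1072783103)) (l 1072748287)) (a (c (l 1073303807) (l 1072819455)) (c (l 1073026303) (l 1072570623))))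 (b (a (a (l 1072119551) (l 1072017663)) (l 1071853311)) (a (a (l 1072150271) (l 1072052991)) (l 1072431871)))) (c (b (a (l 1072441599) (l 1072112383)) (a (l 1072502527) (l 1072182527))) (b (a (l 1071617791) (l 1071367935)) (a (l 1071667455) (l 1071424255))))) (a (b (c (a (c (l 1073334527) (l 1072849151)) (c (l 1073068799) (l 1072610559))) (a (b (l 1072123647) (l 1072136447)) (c (l 1072156927) (l 1071706879)))) (a (c (l 1073114879) (l 1072153855)) (c (a (l 1072937727) (l 16776888)) (b (l 1071955199) (l 1071970047))))) (b (a (c (a (l 16776824) (l 16776736)) (a (l 16776520) (l 16776424))) (a (a (l 16776512) (l 16776456)) (l 1))) (c (a (a (l 16776816) (l 16776736)) (a (l 16776640) (l 16776536))) (a (a (l 16776496) (l 16776408)) (a (l 16776304) (l 16776200)))))))) (l 1)), by decide +kernel⟩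

def k65_A00pm_112_s1 : ∃ t, chk3 f_A00pm_112_s1 t 11 334 1 = true :=
  ⟨(l 1), by decide +kernel⟩

def k66_A00pm_112_s1 : ∃ t, chk3 f_A00pm_112_s1 t 5 2680 1 = true :=
  ⟨(a (a (a (a (b (a (a (l 1073117951) (l 1073102591)) (b (l 1073059071) (l 1073058047))) (a (b (a (l 1073114879) (l 1073099519)) (a (l 1073112319) (l 1073096959))) (b (a (l 1073073919) (l 1073037567)) (b (l 1073055487) (l 1073054463))))) (b (a (b (l 1072961791) (l 1072963327)) (b (l 1072823039) (l 1072828159))) (b (a (b (l 1072963839) (l 1072964351)) (b (l 1072831231) (l 1072832767))) (a (b (l 1072964351) (l 1072964351)) (b (l 1072834303) (l 1072835327)))))) (a (b (a (b (l 1072646911) (c (l 1073136383) (l 1072178943))) (b (c (l 1072894719) (l 1071983871)) (c (l 1072907007) (l 1071996671)))) (b (a (c (l 1073142527) (l 1072187647)) (c (l 1072917247) (l 1072008447))) (a (b (l 1072667903) (l 1072670463)) (b (l 1072468735) (c (l 1072927487) (l 1072022271)))))) (b (a (c (a (l 16776816)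 (l 16776728)) (a (l 16776480) (l 16776384))) (a (a (l 16776488) (l 16776440)) (a (a (l 16776400) (l 1)) (l 1)))) (c (a (a (l 16776808) (b (l 16776728) (c (l 16776816) (l 16776632)))) (a (c (b (l 16776728) (l 16776752)) (b (l 16776544) (l 16776552))) (b (c (l 16776648) (l 16776448)) (l 16776576)))) (b (a (l 1071807231) (a (c (l 16776360) (l 16776176)) (c (l 16776248) (a (l 16776088) (l 1))))) (a (a (l 16776448) (c (l 16776448) (a (l 16776296) (l 16776240)))) (a (c (l 16776344) (a (l 16776184) (l 16776112))) (l 16776120)))))))) (l 1)) (l 1)), by decide +kernel⟩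

def k67_A00pm_112_s1 : ∃ t, chk3 f_A00pm_112_s1 t 5 5362 1 = true :=
  ⟨(a (a (a (b (a (a (b (l 1073102591) (l 1073100543)) (b (l 1073053439) (l 1073051903))) (a (b (l 1072963839) (l 1072963327)) (b (l 1072836351) (c (l 1073327871) (l 1072349951))))) (a (b (a (a (l 1073105663) (l 1073090303)) (l 1073049855)) (a (b (l 1073096447) (l 1073094911)) (b (l 1073048319) (l 1073046783)))) (b (a (b (l 1072962303) (l 1072961791)) (b (l 1072836863) (l 1072836863))) (b (a (l 1072960767) (l 1072836351)) (a (l 1072959743) (l 1072835839)))))) (a (b (a (b (c (l 1073149183) (l 1072200447)) (c (l 1073149695) (l 1072204031))) (a (a (l 16776784) (l 16776752)) (a (l 16776712) (b (l 16776680) (c (l 16776856) (l 16776496)))))) (b (a (c (l 1073149183) (l 1072207103)) (a (a (l 16776776) (c (l 16776920) (l 16776568))) (a (c (l 16776896) (l 16776528)) (c (l 16776872) (l 16776488))))) (b (c (a (a (l 16777032) (c (l 16777072) (l 16776904))) (a (c (l 16777024) (l 16776848))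 (l 16776896))) (a (a (l 16776712) (c (l 16776736) (l 16776568))) (a (c (l 16776672) (l 16776496)) (l 16776496)))) (a (a (l 1072720127) (c (l 68673337119) (l 68614612767))) (a (c (l 16776944) (l 68614612767)) (l 68631391519)))))) (c (a (b (a (c (b (l 16776896) (l 16776912)) (b (l 16776712) (l 16776720))) (c (l 16776856) (l 16776640))) (a (l 68656558879) (l 68656558367))) (b (a (l 16776680) (l 16776608)) (a (l 16776728) (l 16776656)))) (a (b (a (c (b (l 16776528) (l 16776528)) (b (l 16776352) (l 16776336))) (c (l 16776432) (b (l 16776240) (l 16776216)))) (c (l 68606223647) (l 68581058335))) (b (a (l 68581056287) (l 16776088)) (a (l 16776184) (l 16776056))))))) (l 1)) (l 1)), by decide +kernel⟩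

def k68_A00pm_112_s1 : ∃ t, chk3 f_A00pm_112_s1 t 5 5363 1 = true :=
  ⟨(a (a (b (b (a (a (a (a (l 18436610356034926303) (l 18436610356034925791)) (a (l 18434358418773898463) (l 18434358418773898463))) (a (a (l 18434358418773898463) (l 18434358281326555871)) (a (l 18432106481512870623) (b (l 1072798463) (c (b (l 68690114847) (l 68690114847)) (l 68631393055)))))) (c (a (a (a (b (l 68681725727) (b (l 68681725727) (l 68681726239))) (b (l 68681725727) (l 68681725727))) (a (l 68673339167) (l 68673336607))) (a (a (l 68664947999) (l 16776840)) (l 68648169759))) (a (a (a (b (l 68623001887) (b (l 68623001887) (l 68623001887))) (b (l 68614612767) (l 68614612767))) (c (l 68623001887) (l 68589449503))) (a (a (l 68597834527) (l 16776264)) (l 68572667167))))) (a (c (a (a (l 18445617967631695071) (l 18443366167818009823)) (a (a (l 16777144) (l 68698503967)) (b (b (a (b (l 68690114847) (b (l 68690115359) (l 68698503967))) (a (b (l 16777080) (l 68690114847))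 (l 73786395752549612351))) (l 68698503967)) (l 68698503967)))) (a (a (l 18427602606990814943) (l 18425350669729787103)) (a (a (l 16776880) (l 68639780127)) (a (c (l 68648169247) (a (l 68614612767) (a (l 68614612767) (l 68614614815)))) (a (a (a (l 73784988377347292479) (l 73784953192975203647)) (l 73784918008586337599)) (l 73784812455444905279)))))) (a (c (a (a (a (l 73786325383797046591) (l 73786290199408180543)) (l 73786184646275136831)) (a (l 73786008724381138239) (l 68673346335))) (a (a (a (l 73784671717931384127) (l 68623005983)) (l 73784284689746132287)) (a (l 68606227743) (l 68597834527)))) (a (a (a (l 73784425427276430655) (l 73784249505374043455)) (l 73784003214710701375)) (c (l 73784918008611503423) (l 73781821783137877311)))))) (a (a (a (l 68673336607) (l 68673336607)) (a (a (l 18434358418773898463) (l 68664947487)) (a (l 68664947487) (l 68656558879)))) (a (a (a (l 68656558367) (l 16776808)) (a (l 16776752) (l 16776688))) (a (l 68732065055)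 (l 68614615327))))) (l 1)) (l 1)), by decide +kernel⟩

def k69_A00pm_112_s1 : ∃ t, chk3 f_A00pm_112_s1 t 5 1341 1 = true :=
  ⟨(a (a (b (b (a (a (a (l 68673336607) (l 68673336607)) (a (a (l 18434358418773898463) (l 68664947487)) (a (l 68664947487) (l 68656558879)))) (a (a (a (l 68656558367) (l 68648169759)) (a (l 16776744) (l 16776672))) (a (c (l 16776864) (l 16776256)) (c (l 16776736) (l 16776024))))) (b (a (a (a (l 68673336607) (l 68673336607)) (a (a (l 18434358418773898463) (l 68664947487)) (a (l 68664947487) (l 68656558879)))) (a (a (a (l 68656558367) (l 68648169759)) (a (l 16776728) (l 16776664))) (a (c (l 16776864) (l 16776240)) (l 68648173855)))) (b (a (a (a (l 68681725727) (l 68673336607)) (a (a (l 18434358418773898463) (l 68664947487)) (a (l 68664947487) (l 68664947487)))) (a (a (a (l 68656558367) (l 68648169759)) (a (l 16776728) (l 16776664))) (a (c (l 16776864) (l 16776232)) (l 68614617375)))) (a (a (c (a (a (l 16777176) (l 16777168))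 (a (l 16777160) (l 16777152))) (a (a (l 16776944) (l 16776920)) (a (l 16776896) (l 16776864)))) (a (a (a (l 16776984) (l 16776976)) (a (l 16776960) (l 16776944))) (a (a (l 16776928) (l 16776912)) (a (l 16776888) (l 16776864))))) (a (a (c (a (l 16777048) (l 16777016)) (a (l 16776624) (l 16776544))) (a (l 16776720) (l 16776656))) (a (a (l 16776584) (l 16776496)) (c (l 16776728) (l 16775992)))))))) (a (a (c (a (a (l 16777168) (l 16777160)) (a (l 16777152) (l 16777144))) (a (a (l 16776920) (l 16776896)) (a (l 16776864) (l 16776840)))) (c (a (a (l 16777128) (c (l 16777192) (l 16777016))) (a (l 16777088) (l 16777064))) (a (a (l 16776800) (c (l 16776848) (l 16776680))) (a (c (l 16776808) (l 16776624)) (l 16776656))))) (a (a (c (a (l 16777040) (l 16777008)) (a (l 16776592) (l 16776520))) (a (l 16776704) (l 16776632))) (a (c (l 16776848) (l 16776192)) (c (l 16776712) (l 16775960)))))) (l 1)) (l 1)), by decide +kernel⟩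

def k70_A00pm_112_s1 : ∃ t, chk3 f_A00pm_112_s1 t 5 671 1 = true :=
  ⟨(a (a (a (a (a (a (a (l 16776976) (l 16776968)) (a (l 16776960) (a (l 16776960) (l 16776952)))) (c (a (b (l 16777136) (l 16777112)) (b (l 16777120) (l 16777096))) (a (b (l 16776800) (l 16776712)) (b (l 16776768) (l 16776680))))) (c (a (a (l 16777088) (c (l 16777168) (l 16776960))) (a (c (l 16777160) (l 16776928)) (l 16777024))) (a (a (b (l 16776736) (l 16776640)) (c (l 16776752) (l 16776536))) (a (c (l 16776704) (l 16776480)) (l 16776536))))) (a (a (c (a (l 16776992) (l 16776960)) (a (l 16776464) (l 16776392))) (c (a (l 16776920) (l 16776872)) (a (l 16776304) (l 16776216)))) (a (a (l 16776464) (l 16776376)) (c (l 16776648) (l 16775824))))) (a (a (a (a (l 16776064) (l 1)) (l 1)) (l 1)) (l 1))) (l 1)), by decide +kernel⟩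

def k71_A00pm_112_s1 : ∃ t, chk3 f_A00pm_112_s1 t 16 42 1 = true :=
  ⟨(b (a (c (b (a (a (b (l 16776472) (l 16776192)) (b (c (l 16776864) (l 16776384)) (l 16776384))) (a (b (b (l 16776808) (l 16776696)) (l 16776536)) (b (a (l 16776824) (l 16776872)) (l 16776656)))) (a (a (l 16775760) (l 16776000)) (a (l 16776200) (l 16776368)))) (b (a (b (a (l 16775424) (l 16775680)) (a (l 16774848) (l 16775128))) (a (b (b (l 16776024) (l 16775768)) (l 16775376)) (b (a (l 16776040) (l 16776128)) (l 16775592)))) (a (a (l 16773960) (l 16774288)) (a (l 16774584) (l 16774848))))) (b (c (b (a (a (a (l 16776904) (a (l 16776928) (l 16776944))) (a (a (l 16776952) (l 16776968)) (l 16776992))) (a (a (l 16777016) (l 16777040)) (a (l 16777056) (l 16777072)))) (a (a (b (l 16776800) (l 16776712)) (b (l 16776872) (l 16776800))) (a (l 16776904) (l 16776960)))) (b (a (a (a (l 16776200) (a (l 16776256) (l 16776288))) (a (a (l 16776320) (l 16776344)) (l 16776384))) (a (a (l 16776424)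 (l 16776464)) (a (l 16776504) (l 16776536)))) (a (a (b (l 16775896) (l 16775664)) (b (l 16776040) (l 16775824))) (a (l 16776048) (l 16776136))))) (a (a (c (l 16779120) (l 16777696)) (b (c (l 16776688) (l 16775488)) (l 16778408))) (a (b (c (l 16776776) (l 16775632)) (l 16775928)) (b (l 16776304) (l 16776056)))))) (a (b (a (a (l 16779176) (l 16779528)) (a (l 16779848) (l 16780120))) (a (c (l 16774712) (l 16771728)) (c (l 16775368) (l 16772584)))) (a (a (b (l 16780360) (l 16774432)) (b (b (l 16775488) (l 16775176)) (l 16774696))) (b (a (l 16778136) (l 16775672)) (a (l 16774936) (l 16775144)))))), by decide +kernel⟩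

def k72_A00pm_112_s1 : ∃ t, chk3 f_A00pm_112_s1 t 17 42 1 = true :=
  ⟨(b (a (b (b (a (a (b (l 16776888) (c (l 16777072) (l 16776488))) (a (l 16776864) (l 16776880))) (a (a (l 16776896) (l 16776912)) (a (l 16776928) (l 16776944)))) (a (a (c (l 16777008) (l 16776216)) (l 16776664)) (a (l 16776712) (l 16776752)))) (a (b (a (l 16776384) (l 16776456)) (a (l 16776160) (l 16776248))) (a (l 16776424) (l 16776488)))) (b (b (a (a (a (l 16776952) (l 16776968)) (a (l 16776976) (l 16776984))) (a (a (l 16777000) (a (l 16777000) (l 16777008))) (a (a (l 16777008) (l 16777016)) (a (l 16777016) (l 16777024))))) (a (a (l 16776792) (l 16776824)) (a (l 16776848) (b (l 16776912) (l 16776840))))) (a (a (l 16776544) (l 16776592)) (a (l 16776632) (a (l 16776656) (l 16776672)))))) (a (a (b (a (l 16775808) (l 16775928)) (l 16778040)) (b (a (l 16776032) (l 16776128)) (a (l 16775640) (l 16775776)))) (a (b (b (l 16776328) (l 16776168)) (l 16775936)) (b (a (l 16776352) (l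 16776408)) (l 16776120))))), by decide +kernel⟩

def k73_A00pm_112_s1 : ∃ t, chk3 f_A00pm_112_s1 t 8 43 1 = true :=
  ⟨(a (b (a (a (c (b (l 16774072) (l 16773400)) (b (l 16770472) (l 16769184))) (b (c (l 16774864) (l 16771472)) (l 16782792))) (a (b (c (l 16775488) (l 16772304)) (l 16783656)) (a (l 16779272) (l 16774320)))) (a (a (a (l 16779864) (l 16780536)) (c (l 16778712) (l 16768536))) (a (b (l 16772432) (l 16771664)) (b (l 16773264) (l 16772624))))) (a (b (a (b (l 16774944) (l 16774464)) (b (l 16775328) (l 16774952))) (a (l 16784192) (l 16774352))) (b (a (b (l 16775632) (l 16775328)) (b (l 16775872) (l 16775632))) (a (l 16774872) (b (l 16775400) (l 16775176)))))), by decide +kernel⟩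

def k74_A00pm_112_s1 : ∃ t, chk3 f_A00pm_112_s1 t 18 21 1 = true :=
  ⟨(a (a (b (b (b (a (a (b (a (l 16777024) (l 16777024)) (l 16776888)) (b (a (l 16777032) (l 16777032)) (l 16776896))) (a (b (b (c (l 16777216) (l 16776920)) (l 16777000)) (l 16776904)) (b (b (c (l 16777216) (l 16776920)) (l 16777008)) (l 16776912)))) (a (b (l 16776760) (l 16776632)) (b (l 16776784) (l 16776664)))) (b (a (l 16776448) (l 16776488)) (a (l 16776224) (l 16776280)))) (b (b (l 16776048) (l 16775856)) (l 16775600))) (b (a (b (b (l 1073277535) (a (l 16776736) (l 16776736))) (b (l 16776520) (l 16776320))) (b (l 1073294431) (b (l 16776536) (l 16776352)))) (b (a (l 16776064) (l 16776120)) (l 16775840)))) (a (b (b (l 1073295455) (l 1073349743)) (b (a (l 16776160) (l 16776176)) (l 16775984))) (a (a (b (b (l 1073290847) (l 16776456)) (l 16776096)) (b (b (b (b (b (c (l 16777216) (l 16776920)) (l 16777008)) (l 16776912)) (l 16776736)) (l 16776456)) (l 1073435743))) (a (b (b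 (b (b (b (c (l 16777216) (l 16776912)) (l 16777000)) (l 16776904)) (l 16776736)) (l 1073345119)) (l 1073436255)) (b (b (b (b (b (l 16777064) (l 16776992)) (l 16776896)) (l 16776728)) (b (l 16776520) (l 16776360))) (l 1073434735)))))), by decide +kernel⟩

def k75_A00pm_112_s1 : ∃ t, chk3 f_A00pm_112_s1 t 19 21 1 = true :=
  ⟨(b (a (b (b (b (a (a (a (a (l 16777024) (l 16777024)) (a (l 16777016) (l 16777016))) (a (l 16777008) (l 16777000))) (a (a (l 16776992) (l 16776984)) (a (l 16776976) (l 16776960)))) (a (a (c (l 16777216) (l 16776560)) (l 16776864)) (a (l 16776848) (l 16776816)))) (a (a (a (l 16776712) (l 16776704)) (l 16776680)) (a (l 16776648) (l 16776608)))) (a (b (a (l 16776504) (l 16776472)) (a (l 16776336) (l 16776296))) (a (b (l 16776432) (l 16776248)) (l 16776280)))) (b (b (a (a (b (a (l 16776952) (l 16776936)) (l 16776784)) (b (a (l 16776920) (l 16776904)) (l 16776744))) (b (a (b (l 16776928) (l 16776832)) (b (l 16776896) (l 16776800)))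 (a (l 16776704) (l 16776656)))) (a (a (l 16776568) (l 16776512)) (a (l 16776456) (l 16776384)))) (a (a (l 16776208) (l 16776136)) (b (l 16776128) (l 16775888))))) (a (a (b (a (l 16776152) (l 16776120)) (l 16776024)) (a (b (l 16776064) (l 16775952)) (b (l 16775992) (l 16775880)))) (a (b (b (l 16775920) (l 16775808)) (b (l 16775744) (l 16775728))) (b (l 16775624) (b (l 16775480) (l 16775448)))))), by decide +kernel⟩

def k76_A00pm_112_s1 : ∃ t, chk3 f_A00pm_112_s1 t 20 42 1 = true :=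
  ⟨(b (a (b (c (a (a (a (l 16777040) (l 16777024)) (b (a (l 16777048) (l 16777032)) (l 16776952))) (a (b (a (l 16777008) (l 16776976)) (l 16776888)) (a (b (a (l 16776952) (l 16776944)) (l 16776832)) (b (l 16776920) (l 16776792))))) (a (a (a (l 16776384) (l 16776344)) (b (a (l 16776488) (l 16776448)) (l 16776120))) (a (b (a (l 16776408) (l 16776360)) (l 16776016)) (a (b (b (l 16776400) (l 16776208)) (l 16775928)) (b (l 16776240) (l 16775856)))))) (a (a (l 16776312) (l 16776224)) (a (a (l 16776152) (l 16776096)) (b (c (l 16776712) (l 16775528)) (l 16775896))))) (c (b (a (a (b (a (l 16776888) (l 16776848)) (l 16776736)) (b (a (l 16776800) (l 16776752)) (l 16776632))) (a (a (l 16776608) (l 16776544)) (b (l 16776512) (l 16776336)))) (a (a (l 16779176) (l 16776432)) (a (l 16776280) (l 16776104)))) (b (a (a (b (a (l 16776168) (l 16776080)) (l 16775736)) (b (a (l 16775992) (l 16775896)) (l 16775544))) (a (b (l 16775736) (l 16775320)) (b (l 16775496) (l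 16775064)))) (a (a (l 16777800) (l 16774960)) (a (l 16774720) (l 16774440)))))) (a (a (a (l 16775840) (l 16775712)) (a (l 16775568) (b (a (l 16775632) (l 16775552)) (l 16775240)))) (b (a (a (b (l 16775528) (l 16775320)) (l 16780472)) (a (l 16780248) (l 16774744))) (a (a (l 16775040) (l 16774816)) (a (l 16774568) (l 16774280)))))), by decide +kernel⟩

def k77_A00pm_112_s1 : ∃ t, chk3 f_A00pm_112_s1 t 21 42 1 = true :=
  ⟨(a (b (b (a (a (a (a (l 16778320) (l 16778256)) (l 16139683687)) (a (l 38688261703) (l 1))) (l 1)) (a (a (a (l 16775064) (l 16774920)) (a (l 16774768) (l 16774608))) (a (l 37614523015) (l 1)))) (a (a (b (l 16774448) (l 16773960)) (b (l 16774112) (l 16773600))) (a (b (l 16773744) (l 16773200)) (a (l 16139684135) (l 15602812775))))) (b (l 1) (b (l 1) (a (c (l 16778880) (l 16770416)) (l 1))))), by decide +kernel⟩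

def k78_A00pm_112_s1 : ∃ t, chk3 f_A00pm_112_s1 t 10 43 1 = true :=
  ⟨(b (a (a (a (b (l 16775416) (l 16775240)) (l 16774936)) (a (a (l 16774584) (l 16779560)) (a (l 16779264) (l 16778944)))) (a (a (a (l 16783832) (l 16778184)) (c (b (l 16774280) (l 16774112)) (l 16780872))) (a (c (b (l 16773352) (l 16773128)) (l 16779720)) (c (l 31172067559) (l 16767920))))) (a (a (a (l 16775088) (l 16774624)) (a (l 16774040) (b (l 16773448) (l 16773248)))) (a (a (b (l 16772648) (l 16772392)) (c (l 16773968) (l 16769144))) (a (c (l 16772912) (l 16767880)) (c (l 16771664) (l 16766456)))))), by decide +kernel⟩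

def k79_A00pm_112_s1 : ∃ t, chk3 f_A00pm_112_s1 t 11 21 1 = true :=
  ⟨(a (a (a (a (b (l 1) (b (l 1) (l 16767896))) (l 1)) (l 1)) (l 1)) (l 1)), by decide +kernel⟩

def k80_A00pm_112_s1 : ∃ t, chk3 f_A00pm_112_s1 t 4 11 1 = true :=
  ⟨(a (b (a (b (b (a (a (c (l 16770760) (l 16764440)) (c (l 16772208) (l 16766056))) (a (c (l 16773448) (l 16767504)) (l 16771616))) (a (a (l 16786224) (l 16767088)) (a (l 16779216) (l 16770176)))) (a (a (b (l 16762816) (l 16760208)) (b (l 16764968) (l 16762712))) (a (b (l 16766896) (l 16764960)) (b (l 16768632) (l 16766984))))) (b (b (a (a (l 16772632) (l 16773504)) (a (l 16774248) (l 16774840))) (a (a (l 16771464) (l 16772600)) (a (l 16773576) (l 16774392)))) (a (b (a (l 16770200) (l 16771624)) (a (l 16768840) (l 16770544))) (b (a (l 16772856) (l 16773912)) (l 16772768))))) (a (b (a (c (b (l 16774816) (l 16762080)) (b (l 16753600) (l 16750352))) (c (b (l 16769440) (l 16767968)) (b (l 16758864) (l 16756288)))) (a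 (c (b (l 16759616) (l 16756920)) (l 16766208)) (a (l 16778080) (l 16760336)))) (b (a (b (a (l 16767392) (l 16769392)) (l 16767024)) (b (l 16793024) (l 16771288))) (a (c (l 16792384) (l 16758256)) (b (l 16770456) (l 16769536)))))) (a (b (a (b (b (a (l 16775304) (l 16775656)) (a (l 16775040) (l 16775536))) (b (a (l 16774784) (l 16775464)) (l 16774992))) (b (a (l 16775888) (l 16776064)) (a (l 16776032) (l 16776456)))) (a (b (b (l 16774832) (l 16774656)) (b (l 16774440) (l 16774192))) (b (a (l 16776400) (l 16777184)) (a (l 16776832) (l 16778128))))) (b (b (a (b (a (l 16776056) (l 16775976)) (a (l 16776224) (l 16776184))) (b (a (l 16775784) (l 16775488)) (a (l 16776024) (l 16775728)))) (a (l 16776768) (b (a (l 16776432) (l 16776160)) (l 16776920)))) (a (b (l 16777928) (l 16779504)) (b (l 16778144) (l 16780328)))))), by decide +kernel⟩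

def k81_A00pm_112_s1 : ∃ t, chk3 f_A00pm_112_s1 t 5 11 1 = true :=
  ⟨(a (b (a (a (b (a (b (l 16775088) (l 16775304)) (b (l 16774560) (l 16774736))) (b (a (l 16775736) (l 16775144)) (a (l 16776384) (l 16775792)))) (a (b (l 16773912) (l 16774648)) (a (b (l 16773288) (l 16773920)) (b (l 16772824) (l 16773384))))) (b (b (a (a (l 16772144) (l 16792016)) (a (c (l 16772848) (l 16766792)) (c (l 16771504) (l 16765256)))) (a (a (l 16772048) (l 16770840)) (a (l 16769464) (l 16767920)))) (a (b (l 16792584) (l 16772072)) (a (a (l 16769928) (l 16769120)) (a (l 16768256) (l 16767352)))))) (a (a (b (a (l 16777736) (l 16777184)) (l 16780056)) (a (b (l 16773768) (l 16779120)) (b (l 16775352) (l 16778128)))) (a (b (a (l 16774072) (l 16793512)) (b (l 16775272) (l 16776944))) (b (b (l 16769392) (l 16770288)) (a (l 16773336) (l 16771160)))))) (b (a (a (b (a (b (a (l 16767136) (l 16766264)) (l 16766192)) (b (l 27950838135) (l 16764248))) (a (a (l 16787376) (l 16786376))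 (a (l 16785360) (l 16784256)))) (a (a (b (l 25266479735) (l 16783096)) (b (l 1) (l 16781872))) (b (l 1) (a (l 16139667543) (l 16139664823))))) (a (a (a (b (l 1) (l 21508371079)) (l 1)) (l 1)) (l 1))) (a (b (a (a (l 16787624) (l 16785288)) (c (b (l 16765712) (l 16766576)) (b (l 16755000) (l 16754872)))) (a (l 16788448) (a (l 16763368) (l 16760328)))) (b (a (a (a (l 16756760) (l 16755160)) (l 17213416343)) (a (l 18824021735) (l 1))) (a (a (l 16757056) (l 16753552)) (a (l 16749696) (l 16745496))))))), by decide +kernel⟩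

def k82_A00pm_112_s1 : ∃ t, chk3 f_A00pm_112_s1 t 4 6 1 = true :=
  ⟨(b (a (a (b (a (a (b (l 16742640) (l 16734656)) (b (l 16747384) (l 16740400))) (a (b (l 16751752) (l 16745688)) (b (l 16755776) (l 16750584)))) (a (b (l 16729152) (l 16719512)) (b (l 16741880) (l 16734536)))) (b (b (a (c (l 16769048) (l 16753776)) (b (l 16768560) (l 16767496))) (a (c (l 16766064) (l 16748920)) (l 16807656))) (b (a (l 16752960) (l 16763008)) (a (l 16747800) (l 16759768))))) (a (b (a (b (b (l 16773904) (l 16773552)) (l 16772952)) (b (a (l 16777248) (l 16779160)) (a (l 16777568) (l 16780216)))) (a (b (l 16771912) (l 16770552)) (b (l 16779528) (l 16779936)))) (b (a (b (l 16781392) (l 16783448)) (b (l 16783088) (l 16786312))) (a (b (l 16785608) (l 16787752)) (l 16791776))))) (b (b (a (a (a (l 16708160) (l 16726096)) (a (l 16741640) (l 16755912))) (a (a (l 16768720) (l 16780104)) (l 16793992))) (a (a (a (l 6) (l 16716008)) (a (l 16734432) (l 16751112))) (a (a (l 16766344)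 (l 16779888)) (l 16796944)))) (a (l 6) (l 6)))), by decide +kernel⟩

def k83_A00pm_112_s1 : ∃ t, chk3 f_A00pm_112_s1 t 5 6 1 = true :=
  ⟨(a (b (a (a (b (l 16785376) (l 16794880)) (b (a (l 16784952) (l 16784200)) (l 16795960))) (b (a (b (b (l 16778904) (l 16781168)) (l 16785096)) (b (b (l 16775056) (l 16777336)) (b (l 16779952) (l 16782904)))) (b (a (l 16791312) (l 16787976)) (l 16797616)))) (b (a (a (l 16806208) (l 16810464)) (b (l 16806728) (l 16816984))) (l 6))) (b (a (b (b (a (a (l 16772400) (l 16769552)) (l 16764800)) (a (b (l 16774688) (l 16777632)) (a (l 16771248) (l 16767624)))) (b (a (l 16782768) (l 16796872)) (a (l 16790976) (l 16784072)))) (b (b (a (c (l 16765376) (l 16750136)) (c (l 16757000) (l 16742104))) (a (l 16761672) (l 16794880))) (a (b (l 16767600) (l 16775424)) (b (l 16758096) (l 16765304))))) (b (a (b (l 16797584) (l 16809296)) (b (a (l 16785184) (l 16774600)) (a (l 16796928) (l 16786048)))) (l 6)))), by decide +kernel⟩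

def k84_A00pm_112_s1 : ∃ t, chk3 f_A00pm_112_s1 t 2 7 1 = true :=
  ⟨(a (l 6) (l 6)), by decide +kernel⟩

def k85_A00pm_112_s1 : ∃ t, chk3 f_A00pm_112_s1 t 3 1 1 = true :=
  ⟨(b (a (b (l 1) (b (l 1) (b (l 1) (a (a (a (b (l 1) (c (l 18824012503) (l 16732432))) (l 1)) (l 1)) (l 1))))) (l 1)) (b (a (b (b (a (a (b (a (l 16782024) (l 16770680)) (a (l 16742968) (l 16731560))) (a (b (l 1) (l 16717920)) (l 1))) (l 1)) (b (a (a (a (l 16747576) (l 16735632)) (a (l 16722016) (l 16705584))) (l 1)) (a (a (a (l 16753920) (l 16741384)) (a (l 16727176) (l 16710984))) (a (a (l 16691216) (l 1)) (l 1))))) (b (b (a (a (a (l 16762488) (l 16748960)) (a (l 16734096) (l 16717360))) (a (a (l 16698016) (l 16675464)) (l 1))) (a (a (a (l 16773336) (l 16758952)) (a (l 16742960) (l 16725528))) (l 6))) (l 6))) (a (b (l 1) (l 6)) (l 1))) (l 6))), by decide +kernel⟩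

theorem t86_A00pm_112_s1 : ∃ t, chk3 f_A00pm_112_s1 t 2 6 1 = true := ex3_a k82_A00pm_112_s1 k83_A00pm_112_s1

theorem t87_A00pm_112_s1 : ∃ t, chk3 f_A00pm_112_s1 t 2 3 1 = true := ex3_b t86_A00pm_112_s1 k84_A00pm_112_s1

theorem t88_A00pm_112_s1 : ∃ t, chk3 f_A00pm_112_s1 t 2 11 1 = true := ex3_a k80_A00pm_112_s1 k81_A00pm_112_s1

theorem t89_A00pm_112_s1 : ∃ t, chk3 f_A00pm_112_s1 t 10 42 1 = true := ex3_a k76_A00pm_112_s1 k77_A00pm_112_s1

theorem t90_A00pm_112_s1 : ∃ t, chk3 f_A00pm_112_s1 t 10 21 1 = true := ex3_b t89_A00pm_112_s1 k78_A00pm_112_s1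

theorem t91_A00pm_112_s1 : ∃ t, chk3 f_A00pm_112_s1 t 5 21 1 = true := ex3_a t90_A00pm_112_s1 k79_A00pm_112_s1

theorem t92_A00pm_112_s1 : ∃ t, chk3 f_A00pm_112_s1 t 9 21 1 = true := ex3_a k74_A00pm_112_s1 k75_A00pm_112_s1

theorem t93_A00pm_112_s1 : ∃ t, chk3 f_A00pm_112_s1 t 8 42 1 = true := ex3_a k71_A00pm_112_s1 k72_A00pm_112_s1

theorem t94_A00pm_112_s1 : ∃ t, chk3 f_A00pm_112_s1 t 8 21 1 = true := ex3_b t93_A00pm_112_s1 k73_A00pm_112_s1

theorem t95_A00pm_112_s1 : ∃ t, chk3 f_A00pm_112_s1 t 4 21 1 = true := ex3_a t94_A00pm_112_s1 t92_A00pm_112_s1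

theorem t96_A00pm_112_s1 : ∃ t, chk3 f_A00pm_112_s1 t 2 21 1 = true := ex3_a t95_A00pm_112_s1 t91_A00pm_112_s1

theorem t97_A00pm_112_s1 : ∃ t, chk3 f_A00pm_112_s1 t 5 2681 1 = true := ex3_b k67_A00pm_112_s1 k68_A00pm_112_s1

theorem t98_A00pm_112_s1 : ∃ t, chk3 f_A00pm_112_s1 t 5 1340 1 = true := ex3_b k66_A00pm_112_s1 t97_A00pm_112_s1

theorem t99_A00pm_112_s1 : ∃ t, chk3 f_A00pm_112_s1 t 5 670 1 = true := ex3_b t98_A00pm_112_s1 k69_A00pm_112_s1

theorem t100_A00pm_112_s1 : ∃ t, chk3 f_A00pm_112_s1 t 5 335 1 = true := ex3_b t99_A00pm_112_s1 k70_A00pm_112_s1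

theorem t101_A00pm_112_s1 : ∃ t, chk3 f_A00pm_112_s1 t 10 669 1 = true := ex3_b k63_A00pm_112_s1 k64_A00pm_112_s1

theorem t102_A00pm_112_s1 : ∃ t, chk3 f_A00pm_112_s1 t 20 668 1 = true := ex3_b k60_A00pm_112_s1 k61_A00pm_112_s1

theorem t103_A00pm_112_s1 : ∃ t, chk3 f_A00pm_112_s1 t 10 668 1 = true := ex3_a t102_A00pm_112_s1 k62_A00pm_112_s1

theorem t104_A00pm_112_s1 : ∃ t, chk3 f_A00pm_112_s1 t 10 334 1 = true := ex3_b t103_A00pm_112_s1 t101_A00pm_112_s1

theorem t105_A00pm_112_s1 : ∃ t, chk3 f_A00pm_112_s1 t 5 334 1 = true := ex3_a t104_A00pm_112_s1 k65_A00pm_112_s1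

theorem t106_A00pm_112_s1 : ∃ t, chk3 f_A00pm_112_s1 t 5 167 1 = true := ex3_b t105_A00pm_112_s1 t100_A00pm_112_s1

theorem t107_A00pm_112_s1 : ∃ t, chk3 f_A00pm_112_s1 t 5 83 1 = true := ex3_b k59_A00pm_112_s1 t106_A00pm_112_s1

theorem t108_A00pm_112_s1 : ∃ t, chk3 f_A00pm_112_s1 t 5 41 1 = true := ex3_b k58_A00pm_112_s1 t107_A00pm_112_s1

theorem t109_A00pm_112_s1 : ∃ t, chk3 f_A00pm_112_s1 t 9 10731 1 = true := ex3_b k54_A00pm_112_s1 k55_A00pm_112_s1

theorem t110_A00pm_112_s1 : ∃ t, chk3 f_A00pm_112_s1 t 9 5365 1 = true := ex3_b k53_A00pm_112_s1 t109_A00pm_112_s1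

theorem t111_A00pm_112_s1 : ∃ t, chk3 f_A00pm_112_s1 t 9 2682 1 = true := ex3_b k52_A00pm_112_s1 t110_A00pm_112_s1

theorem t112_A00pm_112_s1 : ∃ t, chk3 f_A00pm_112_s1 t 9 1341 1 = true := ex3_b t111_A00pm_112_s1 k56_A00pm_112_s1

theorem t113_A00pm_112_s1 : ∃ t, chk3 f_A00pm_112_s1 t 9 10726 1 = true := ex3_b k49_A00pm_112_s1 k50_A00pm_112_s1

theorem t114_A00pm_112_s1 : ∃ t, chk3 f_A00pm_112_s1 t 9 5363 1 = true := ex3_b t113_A00pm_112_s1 k51_A00pm_112_s1

theorem t115_A00pm_112_s1 : ∃ t, chk3 f_A00pm_112_s1 t 150 21451 3 = true := ex3_a k45_A00pm_112_s1 k46_A00pm_112_s1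

theorem t116_A00pm_112_s1 : ∃ t, chk3 f_A00pm_112_s1 t 150 10725 3 = true := ex3_b k44_A00pm_112_s1 t115_A00pm_112_s1

theorem t117_A00pm_112_s1 : ∃ t, chk3 f_A00pm_112_s1 t 75 10725 3 = true := ex3_a t116_A00pm_112_s1 k47_A00pm_112_s1

theorem t118_A00pm_112_s1 : ∃ t, chk3 f_A00pm_112_s1 t 37 10725 3 = true := ex3_a k43_A00pm_112_s1 t117_A00pm_112_s1

theorem t119_A00pm_112_s1 : ∃ t, chk3 f_A00pm_112_s1 t 290 21451 3 = true := ex3_b k39_A00pm_112_s1 k40_A00pm_112_s1

theorem t120_A00pm_112_s1 : ∃ t, chk3 f_A00pm_112_s1 t 145 21451 3 = true := ex3_a t119_A00pm_112_s1 k41_A00pm_112_s1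

theorem t121_A00pm_112_s1 : ∃ t, chk3 f_A00pm_112_s1 t 72 21451 3 = true := ex3_a k38_A00pm_112_s1 t120_A00pm_112_s1

theorem t122_A00pm_112_s1 : ∃ t, chk3 f_A00pm_112_s1 t 36 21451 3 = true := ex3_a t121_A00pm_112_s1 k42_A00pm_112_s1

theorem t123_A00pm_112_s1 : ∃ t, chk3 f_A00pm_112_s1 t 36 10725 3 = true := ex3_b k37_A00pm_112_s1 t122_A00pm_112_s1

theorem t124_A00pm_112_s1 : ∃ t, chk3 f_A00pm_112_s1 t 18 10725 3 = true := ex3_a t123_A00pm_112_s1 t118_A00pm_112_s1

theorem t125_A00pm_112_s1 : ∃ t, chk3 f_A00pm_112_s1 t 150 21451 2 = true := ex3_a k34_A00pm_112_s1 k35_A00pm_112_s1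

theorem t126_A00pm_112_s1 : ∃ t, chk3 f_A00pm_112_s1 t 150 10725 2 = true := ex3_b k33_A00pm_112_s1 t125_A00pm_112_s1

theorem t127_A00pm_112_s1 : ∃ t, chk3 f_A00pm_112_s1 t 75 10725 2 = true := ex3_a t126_A00pm_112_s1 k36_A00pm_112_s1

theorem t128_A00pm_112_s1 : ∃ t, chk3 f_A00pm_112_s1 t 37 10725 2 = true := ex3_a k32_A00pm_112_s1 t127_A00pm_112_s1

theorem t129_A00pm_112_s1 : ∃ t, chk3 f_A00pm_112_s1 t 290 21451 2 = true := ex3_b k28_A00pm_112_s1 k29_A00pm_112_s1

theorem t130_A00pm_112_s1 : ∃ t, chk3 f_A00pm_112_s1 t 145 21451 2 = true := ex3_a t129_A00pm_112_s1 k30_A00pm_112_s1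

theorem t131_A00pm_112_s1 : ∃ t, chk3 f_A00pm_112_s1 t 72 21451 2 = true := ex3_a k27_A00pm_112_s1 t130_A00pm_112_s1

theorem t132_A00pm_112_s1 : ∃ t, chk3 f_A00pm_112_s1 t 36 21451 2 = true := ex3_a t131_A00pm_112_s1 k31_A00pm_112_s1

theorem t133_A00pm_112_s1 : ∃ t, chk3 f_A00pm_112_s1 t 36 10725 2 = true := ex3_b k26_A00pm_112_s1 t132_A00pm_112_s1

theorem t134_A00pm_112_s1 : ∃ t, chk3 f_A00pm_112_s1 t 18 10725 2 = true := ex3_a t133_A00pm_112_s1 t128_A00pm_112_s1

theorem t135_A00pm_112_s1 : ∃ t, chk3 f_A00pm_112_s1 t 18 10725 1 = true := ex3_c t134_A00pm_112_s1 t124_A00pm_112_s1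

theorem t136_A00pm_112_s1 : ∃ t, chk3 f_A00pm_112_s1 t 18 5362 1 = true := ex3_b k25_A00pm_112_s1 t135_A00pm_112_s1

theorem t137_A00pm_112_s1 : ∃ t, chk3 f_A00pm_112_s1 t 9 5362 1 = true := ex3_a t136_A00pm_112_s1 k48_A00pm_112_s1

theorem t138_A00pm_112_s1 : ∃ t, chk3 f_A00pm_112_s1 t 9 2681 1 = true := ex3_b t137_A00pm_112_s1 t114_A00pm_112_s1

theorem t139_A00pm_112_s1 : ∃ t, chk3 f_A00pm_112_s1 t 9 1340 1 = true := ex3_b k24_A00pm_112_s1 t138_A00pm_112_s1

theorem t140_A00pm_112_s1 : ∃ t, chk3 f_A00pm_112_s1 t 9 670 1 = true := ex3_b t139_A00pm_112_s1 t112_A00pm_112_s1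

theorem t141_A00pm_112_s1 : ∃ t, chk3 f_A00pm_112_s1 t 9 335 1 = true := ex3_b t140_A00pm_112_s1 k57_A00pm_112_s1

theorem t142_A00pm_112_s1 : ∃ t, chk3 f_A00pm_112_s1 t 9 167 1 = true := ex3_b k23_A00pm_112_s1 t141_A00pm_112_s1

theorem t143_A00pm_112_s1 : ∃ t, chk3 f_A00pm_112_s1 t 17 167 3 = true := ex3_a k21_A00pm_112_s1 k22_A00pm_112_s1

theorem t144_A00pm_112_s1 : ∃ t, chk3 f_A00pm_112_s1 t 17 167 2 = true := ex3_a k19_A00pm_112_s1 k20_A00pm_112_s1

theorem t145_A00pm_112_s1 : ∃ t, chk3 f_A00pm_112_s1 t 17 167 1 = true := ex3_c t144_A00pm_112_s1 t143_A00pm_112_s1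

theorem t146_A00pm_112_s1 : ∃ t, chk3 f_A00pm_112_s1 t 33 335 3 = true := ex3_b k17_A00pm_112_s1 k18_A00pm_112_s1

theorem t147_A00pm_112_s1 : ∃ t, chk3 f_A00pm_112_s1 t 33 167 3 = true := ex3_b k16_A00pm_112_s1 t146_A00pm_112_s1

theorem t148_A00pm_112_s1 : ∃ t, chk3 f_A00pm_112_s1 t 33 335 2 = true := ex3_b k14_A00pm_112_s1 k15_A00pm_112_s1

theorem t149_A00pm_112_s1 : ∃ t, chk3 f_A00pm_112_s1 t 33 334 2 = true := ex3_b k12_A00pm_112_s1 k13_A00pm_112_s1

theorem t150_A00pm_112_s1 : ∃ t, chk3 f_A00pm_112_s1 t 33 167 2 = true := ex3_b t149_A00pm_112_s1 t148_A00pm_112_s1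

theorem t151_A00pm_112_s1 : ∃ t, chk3 f_A00pm_112_s1 t 33 167 1 = true := ex3_c t150_A00pm_112_s1 t147_A00pm_112_s1

theorem t152_A00pm_112_s1 : ∃ t, chk3 f_A00pm_112_s1 t 32 670 3 = true := ex3_b k9_A00pm_112_s1 k10_A00pm_112_s1

theorem t153_A00pm_112_s1 : ∃ t, chk3 f_A00pm_112_s1 t 32 335 3 = true := ex3_b t152_A00pm_112_s1 k11_A00pm_112_s1

theorem t154_A00pm_112_s1 : ∃ t, chk3 f_A00pm_112_s1 t 32 167 3 = true := ex3_b k8_A00pm_112_s1 t153_A00pm_112_s1

theorem t155_A00pm_112_s1 : ∃ t, chk3 f_A00pm_112_s1 t 32 670 2 = true := ex3_b k5_A00pm_112_s1 k6_A00pm_112_s1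

theorem t156_A00pm_112_s1 : ∃ t, chk3 f_A00pm_112_s1 t 32 335 2 = true := ex3_b t155_A00pm_112_s1 k7_A00pm_112_s1

theorem t157_A00pm_112_s1 : ∃ t, chk3 f_A00pm_112_s1 t 32 167 2 = true := ex3_b k4_A00pm_112_s1 t156_A00pm_112_s1

theorem t158_A00pm_112_s1 : ∃ t, chk3 f_A00pm_112_s1 t 32 167 1 = true := ex3_c t157_A00pm_112_s1 t154_A00pm_112_s1

theorem t159_A00pm_112_s1 : ∃ t, chk3 f_A00pm_112_s1 t 16 167 1 = true := ex3_a t158_A00pm_112_s1 t151_A00pm_112_s1

theorem t160_A00pm_112_s1 : ∃ t, chk3 f_A00pm_112_s1 t 8 167 1 = true := ex3_a t159_A00pm_112_s1 t145_A00pm_112_s1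

theorem t161_A00pm_112_s1 : ∃ t, chk3 f_A00pm_112_s1 t 4 167 1 = true := ex3_a t160_A00pm_112_s1 t142_A00pm_112_s1

theorem t162_A00pm_112_s1 : ∃ t, chk3 f_A00pm_112_s1 t 4 83 1 = true := ex3_b k3_A00pm_112_s1 t161_A00pm_112_s1

theorem t163_A00pm_112_s1 : ∃ t, chk3 f_A00pm_112_s1 t 4 41 1 = true := ex3_b k2_A00pm_112_s1 t162_A00pm_112_s1

theorem t164_A00pm_112_s1 : ∃ t, chk3 f_A00pm_112_s1 t 2 41 1 = true := ex3_a t163_A00pm_112_s1 t108_A00pm_112_s1

theorem t165_A00pm_112_s1 : ∃ t, chk3 f_A00pm_112_s1 t 2 20 1 = true := ex3_b k1_A00pm_112_s1 t164_A00pm_112_s1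

theorem t166_A00pm_112_s1 : ∃ t, chk3 f_A00pm_112_s1 t 2 10 1 = true := ex3_b t165_A00pm_112_s1 t96_A00pm_112_s1

theorem t167_A00pm_112_s1 : ∃ t, chk3 f_A00pm_112_s1 t 2 5 1 = true := ex3_b t166_A00pm_112_s1 t88_A00pm_112_s1

theorem t168_A00pm_112_s1 : ∃ t, chk3 f_A00pm_112_s1 t 2 2 1 = true := ex3_b k0_A00pm_112_s1 t167_A00pm_112_s1

theorem t169_A00pm_112_s1 : ∃ t, chk3 f_A00pm_112_s1 t 2 1 1 = true := ex3_b t168_A00pm_112_s1 t87_A00pm_112_s1

theorem t170_A00pm_112_s1 : ∃ t, chk3 f_A00pm_112_s1 t 1 1 1 = true := ex3_a t169_A00pm_112_s1 k85_A00pm_112_s1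

theorem c_A00pm_112_s1 : CertF 536870912 536870912 536870912 536870912 536870912 50465866 true true false .dn 1 1 2
    ndB0q1 ndB0q1 pcB2 cut_A00pm_112_s1 xt_A00pm_112_s1 :=
  certF1 (fam := true) (s1 := true) (s2 := false) (a := 1) (b := 1) (c := 2) (cn := .dn) (n1 := ndB0q1) (n2 := ndB0q1) (pc := pcB2) (cut := cut_A00pm_112_s1) (xt := xt_A00pm_112_s1) (P1 := 536870912) (W1 := 536870912) (P2 := 536870912) (W2 := 536870912) (P3 := 536870912) (W3 := 50465866)
    rfl (fun _ => rfl) t170_A00pm_112_s1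

theorem s_A00pm_112_s1 {κ x : ℝ} (hκ : κ * h0 = ken x) (hx : ((536870912 : ℕ) : ℝ) / S ≤ x)
    (hx' : x ≤ (((536870912 : ℕ) : ℝ) + (50465866 : ℕ)) / S)
    (H : CutA (VFD κ) PP tK tL pcB (Cut.of [[⟨0, 0, 1, 20971520⟩, ⟨1, 1, 0, 33554432⟩, ⟨2, 1, 1, 20971520⟩], [⟨0, 1, 0, 33554432⟩, ⟨1, 0, 1, 20971520⟩, ⟨2, 1, 1, 20971520⟩]]) 1 1 2 0 0 (sgb true) (sgb false) x) :
    AltA (VFD κ) PP tK tL pcB [⟨3, 0, 0, 1449551462⟩] 1 1 2 0 0 (sgb true) (sgb false) x :=
  strip_altAD (m := 1449551462) true rfl hκ (SH.κ0 hκ (SH.hx1 hx).le (SH.hx2 hx').le) (SH.hx1 hx).le (SH.hx2 hx') (covB01).cov (covB01).cov hx hx' c_A00pm_112_s1 H ((okx6 hx hx').extA (T := tt) (okx hx hx') (sideB hx hx') hκ rfl rfl (.O 1 true) (.O 1 false) rfl)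

noncomputable def cut_A00pm_112_s3 : Cut := Cut.of [[⟨3, 0, 0, 2845415833⟩], [⟨0, 0, 1, 20971520⟩, ⟨1, 1, 0, 33554432⟩, ⟨2, 1, 1, 20971520⟩], [⟨0, 1, 0, 33554432⟩, ⟨1, 0, 1, 20971520⟩, ⟨2, 1, 1, 20971520⟩]]

noncomputable def f_A00pm_112_s3 : ℕ → ℕ → ℕ → ℕ → Bool := onCell 536870912 536870912 1073741824 536870912 536870912 50465866
    (rowF 1 true true false .dn 1 1 2 (qsf 536870912 536870912 536870912 536870912 2) ndB0q1 ndB0q1 pcB2 cut_A00pm_112_s3 Ext.none)

def k0_A00pm_112_s3 : ∃ t, chk3 f_A00pm_112_s3 t 1 1 1 = true :=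
  ⟨(l 6), by decide +kernel⟩

theorem c_A00pm_112_s3 : CertF 536870912 536870912 536870912 536870912 536870912 50465866 true true false .dn 1 1 2
    ndB0q1 ndB0q1 pcB2 cut_A00pm_112_s3 Ext.none :=
  certF1 (fam := true) (s1 := true) (s2 := false) (a := 1) (b := 1) (c := 2) (cn := .dn) (n1 := ndB0q1) (n2 := ndB0q1) (pc := pcB2) (cut := cut_A00pm_112_s3) (xt := Ext.none) (P1 := 536870912) (W1 := 536870912) (P2 := 536870912) (W2 := 536870912) (P3 := 536870912) (W3 := 50465866)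
    rfl (fun _ => rfl) k0_A00pm_112_s3

theorem s_A00pm_112_s3 {κ x : ℝ} (hκ : κ * h0 = ken x) (hx : ((536870912 : ℕ) : ℝ) / S ≤ x)
    (hx' : x ≤ (((536870912 : ℕ) : ℝ) + (50465866 : ℕ)) / S)
    (H : CutA (VFD κ) PP tK tL pcB (Cut.of [[⟨0, 0, 1, 20971520⟩, ⟨1, 1, 0, 33554432⟩, ⟨2, 1, 1, 20971520⟩], [⟨0, 1, 0, 33554432⟩, ⟨1, 0, 1, 20971520⟩, ⟨2, 1, 1, 20971520⟩]]) 1 1 2 0 0 (sgb true) (sgb false) x) :
    AltA (VFD κ) PP tK tL pcB [⟨4, 0, 0, 2845415833⟩] 1 1 2 0 0 (sgb true) (sgb false) x :=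
  strip_altAD (m := 2845415833) false rfl hκ (SH.κ0 hκ (SH.hx1 hx).le (SH.hx2 hx').le) (SH.hx1 hx).le (SH.hx2 hx') (covB01).cov (covB01).cov hx hx' c_A00pm_112_s3 H (noExt_A)

noncomputable def cut_A00pm_113_s1 : Cut := Cut.of [[⟨4, 0, 0, 1449551462⟩], [⟨0, 1, 0, 67108864⟩, ⟨1, 1, 0, 67108864⟩, ⟨2, 2, 0, 16777216⟩], [⟨0, 0, 1, 20971520⟩, ⟨1, 1, 0, 33554432⟩, ⟨2, 1, 1, 20971520⟩], [⟨0, 1, 0, 33554432⟩, ⟨1, 0, 1, 20971520⟩, ⟨2, 1, 1, 20971520⟩]]

noncomputable def f_A00pm_113_s1 : ℕ → ℕ → ℕ → ℕ → Bool := onCell 536870912 536870912 1610612736 536870912 536870912 50465866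
    (rowF 1 true true false .nn 1 1 3 (qsf 536870912 536870912 536870912 536870912 3) ndB0q1 ndB0q1 pcB3 cut_A00pm_113_s1 Ext.none)

def k0_A00pm_113_s1 : ∃ t, chk3 f_A00pm_113_s1 t 1 1 1 = true :=
  ⟨(b (a (b (l 6) (l 6)) (l 6)) (l 6)), by decide +kernel⟩

theorem c_A00pm_113_s1 : CertF 536870912 536870912 536870912 536870912 536870912 50465866 true true false .nn 1 1 3
    ndB0q1 ndB0q1 pcB3 cut_A00pm_113_s1 Ext.none :=
  certF1 (fam := true) (s1 := true) (s2 := false) (a := 1) (b := 1) (c := 3) (cn := .nn) (n1 := ndB0q1) (n2 := ndB0q1) (pc := pcB3) (cut := cut_A00pm_113_s1) (xt := Ext.none) (P1 := 536870912) (W1 := 536870912) (P2 := 536870912) (W2 := 536870912) (P3 := 536870912) (W3 := 50465866)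
    rfl (fun _ => rfl) k0_A00pm_113_s1

theorem s_A00pm_113_s1 {κ x : ℝ} (hκ : κ * h0 = ken x) (hx : ((536870912 : ℕ) : ℝ) / S ≤ x)
    (hx' : x ≤ (((536870912 : ℕ) : ℝ) + (50465866 : ℕ)) / S)
    (H : CutA (VFD κ) PP tK tL pcB (Cut.of [[⟨0, 1, 0, 67108864⟩, ⟨1, 1, 0, 67108864⟩, ⟨2, 2, 0, 16777216⟩], [⟨0, 0, 1, 20971520⟩, ⟨1, 1, 0, 33554432⟩, ⟨2, 1, 1, 20971520⟩], [⟨0, 1, 0, 33554432⟩, ⟨1, 0, 1, 20971520⟩, ⟨2, 1, 1, 20971520⟩]]) 1 1 3 0 0 (sgb true) (sgb false) x) :
    AltA (VFD κ) PP tK tL pcB [⟨3, 0, 0, 1449551462⟩] 1 1 3 0 0 (sgb true) (sgb false) x :=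
  strip_altAD (m := 1449551462) true rfl hκ (SH.κ0 hκ (SH.hx1 hx).le (SH.hx2 hx').le) (SH.hx1 hx).le (SH.hx2 hx') (covB01).cov (covB01).cov hx hx' c_A00pm_113_s1 H (noExt_A)

noncomputable def cut_A00pm_113_s3 : Cut := Cut.of [[⟨3, 0, 0, 2845415833⟩], [⟨0, 1, 0, 67108864⟩, ⟨1, 1, 0, 67108864⟩, ⟨2, 2, 0, 16777216⟩], [⟨0, 0, 1, 20971520⟩, ⟨1, 1, 0, 33554432⟩, ⟨2, 1, 1, 20971520⟩], [⟨0, 1, 0, 33554432⟩, ⟨1, 0, 1, 20971520⟩, ⟨2, 1, 1, 20971520⟩]]

noncomputable def f_A00pm_113_s3 : ℕ → ℕ → ℕ → ℕ → Bool := onCell 536870912 536870912 536870912 536870912 536870912 50465866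
    (rowF 0 true true false .nn 1 1 3 (qsf 536870912 536870912 536870912 536870912 3) ndB0q1 ndB0q1 pcB3 cut_A00pm_113_s3 Ext.none)

def k0_A00pm_113_s3 : ∃ t, chk3 f_A00pm_113_s3 t 1 1 1 = true :=
  ⟨(a (l 6) (b (l 6) (a (b (l 6) (a (l 6) (a (l 6) (a (l 6) (b (l 6) (b (l 6) (b (l 6) (l 16884760)))))))) (b (a (l 6) (a (l 6) (a (l 6) (b (l 6) (b (l 6) (b (l 6) (l 16884760))))))) (a (b (l 6) (b (a (l 6) (b (l 16908720) (l 16891024))) (a (b (l 16891232) (a (l 16879048) (l 16871800))) (b (c (l 16791656) (l 16830224)) (a (l 16862424) (b (l 16855328) (l 16846792))))))) (b (a (b (l 6) (a (l 16908720) (l 16891024))) (b (a (l 16891232) (a (l 16879640) (l 16871896))) (a (c (l 16791656) (l 16830224)) (b (l 16862424) (a (l 16855328) (l 16846792)))))) (a (b (l 16875544) (a (b (l 16855472) (b (l 16842440) (l 16833768))) (b (l 16841448) (b (l 16807344) (b (l 16821808) (l 16817432)))))) (b (a (a (l 16853032) (l 16844232)) (a (b (l 16842440) (l 16807344)) (b (l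 16833768) (a (l 16821808) (l 16817432))))) (b (a (l 16826536) (a (l 16792424) (a (c (l 16786288) (l 16785568)) (b (l 16806328) (a (l 16799848) (l 16797664)))))) (a (b (l 16792424) (a (b (l 16810680) (l 16806328)) (b (l 16803088) (a (l 16800664) (l 16796848))))) (b (a (l 16801848) (a (l 16795376) (a (c (l 16781840) (l 16781488)) (b (l 16791920) (l 14))))) (a (b (l 16795376) (b (c (l 16781840) (l 16781488)) (a (l 16791920) (l 14)))) (b (a (l 16789520) (l 14)) (l 14)))))))))))))), by decide +kernel⟩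

theorem c_A00pm_113_s3 : CertF 536870912 536870912 536870912 536870912 536870912 50465866 true true false .nn 1 1 3
    ndB0q1 ndB0q1 pcB3 cut_A00pm_113_s3 Ext.none :=
  certF0 (fam := true) (s1 := true) (s2 := false) (a := 1) (b := 1) (c := 3) (cn := .nn) (n1 := ndB0q1) (n2 := ndB0q1) (pc := pcB3) (cut := cut_A00pm_113_s3) (xt := Ext.none) (P1 := 536870912) (W1 := 536870912) (P2 := 536870912) (W2 := 536870912) (P3 := 536870912) (W3 := 50465866)
    rfl k0_A00pm_113_s3

theorem s_A00pm_113_s3 {κ x : ℝ} (hκ : κ * h0 = ken x) (hx : ((536870912 : ℕ) : ℝ) / S ≤ x)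
    (hx' : x ≤ (((536870912 : ℕ) : ℝ) + (50465866 : ℕ)) / S)
    (H : CutA (VFD κ) PP tK tL pcB (Cut.of [[⟨0, 1, 0, 67108864⟩, ⟨1, 1, 0, 67108864⟩, ⟨2, 2, 0, 16777216⟩], [⟨0, 0, 1, 20971520⟩, ⟨1, 1, 0, 33554432⟩, ⟨2, 1, 1, 20971520⟩], [⟨0, 1, 0, 33554432⟩, ⟨1, 0, 1, 20971520⟩, ⟨2, 1, 1, 20971520⟩]]) 1 1 3 0 0 (sgb true) (sgb false) x) :
    AltA (VFD κ) PP tK tL pcB [⟨4, 0, 0, 2845415833⟩] 1 1 3 0 0 (sgb true) (sgb false) x :=
  strip_altAD (m := 2845415833) false rfl hκ (SH.κ0 hκ (SH.hx1 hx).le (SH.hx2 hx').le) (SH.hx1 hx).le (SH.hx2 hx') (covB01).cov (covB01).cov hx hx' c_A00pm_113_s3 H (noExt_A)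

noncomputable def cut_A00pm_123_s1 : Cut := Cut.of [[⟨4, 0, 0, 1449551462⟩], [⟨0, 1, 0, 67108864⟩, ⟨1, 1, 0, 67108864⟩, ⟨2, 2, 0, 16777216⟩], [⟨0, 0, 1, 20971520⟩, ⟨1, 1, 0, 33554432⟩, ⟨2, 1, 1, 20971520⟩]]

noncomputable def f_A00pm_123_s1 : ℕ → ℕ → ℕ → ℕ → Bool := onCell 536870912 536870912 0 536870912 536870912 50465866
    (rowF 0 true true false .npn 1 2 3 (qsf 536870912 536870912 0 536870912 3) ndB0q1 ndB0q2 pcB3 cut_A00pm_123_s1 Ext.none)

def k0_A00pm_123_s1 : ∃ t, chk3 f_A00pm_123_s1 t 1 1 1 = true :=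
  ⟨(l 6), by decide +kernel⟩

theorem c_A00pm_123_s1 : CertF 536870912 536870912 0 536870912 536870912 50465866 true true false .npn 1 2 3
    ndB0q1 ndB0q2 pcB3 cut_A00pm_123_s1 Ext.none :=
  certF0 (fam := true) (s1 := true) (s2 := false) (a := 1) (b := 2) (c := 3) (cn := .npn) (n1 := ndB0q1) (n2 := ndB0q2) (pc := pcB3) (cut := cut_A00pm_123_s1) (xt := Ext.none) (P1 := 536870912) (W1 := 536870912) (P2 := 0) (W2 := 536870912) (P3 := 536870912) (W3 := 50465866)
    rfl k0_A00pm_123_s1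

theorem s_A00pm_123_s1 {κ x : ℝ} (hκ : κ * h0 = ken x) (hx : ((536870912 : ℕ) : ℝ) / S ≤ x)
    (hx' : x ≤ (((536870912 : ℕ) : ℝ) + (50465866 : ℕ)) / S)
    (H : CutA (VFD κ) PP tK tL pcB (Cut.of [[⟨0, 1, 0, 67108864⟩, ⟨1, 1, 0, 67108864⟩, ⟨2, 2, 0, 16777216⟩], [⟨0, 0, 1, 20971520⟩, ⟨1, 1, 0, 33554432⟩, ⟨2, 1, 1, 20971520⟩]]) 1 2 3 0 0 (sgb true) (sgb false) x) :
    AltA (VFD κ) PP tK tL pcB [⟨3, 0, 0, 1449551462⟩] 1 2 3 0 0 (sgb true) (sgb false) x :=
  strip_altAD (m := 1449551462) true rfl hκ (SH.κ0 hκ (SH.hx1 hx).le (SH.hx2 hx').le) (SH.hx1 hx).le (SH.hx2 hx') (covB01).cov (covB02).cov hx hx' c_A00pm_123_s1 H (noExt_A)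

end Pool.Agent.Strip051.G.I5000_5470.Tab.St.C
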