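import Pool.Agent.Strip051.G.I5000_5470.StH
import Pool.Agent.Strip051.G.I5000_5470.StF

/-! # Unit strips 14 (generated) -/

set_option linter.all false
set_option maxRecDepth 100000

namespace Pool.Agent.Strip051.G.I5000_5470.Tab.St.C

open Pool.Agent.Strip051.PB Pool.Agent.Strip051.PB.T Pool.Agent.StripNear Pool.Agent.Strip051.LC
open Pool.Agent.Strip051.G.I5000_5470.Tab Pool.Agent.Strip051.G.I5000_5470.Tab.St

noncomputable def cut_A00pm_123_s3 : Cut := Cut.of [[⟨3, 0, 0, 2845415833⟩], [⟨0, 1, 0, 67108864⟩, ⟨1, 1, 0, 67108864⟩, ⟨2, 2, 0, 16777216⟩], [⟨0, 0, 1, 20971520⟩, ⟨1, 1, 0, 33554432⟩, ⟨2, 1, 1, 20971520⟩]]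

noncomputable def xt_A00pm_123_s3 : Ext := strExt6 dd true true false .u0 .u2 .s2 .npn 1 2 3 rfl rfl gl3 vv ww ndB0q1 ndB0q2

noncomputable def f_A00pm_123_s3 : ℕ → ℕ → ℕ → ℕ → Bool := onCell 1610612736 536870912 0 536870912 536870912 50465866
    (rowF 2 true true false .npn 1 2 3 (qsf 536870912 536870912 0 536870912 3) ndB0q1 ndB0q2 pcB3 cut_A00pm_123_s3 xt_A00pm_123_s3)

def k0_A00pm_123_s3 : ∃ t, chk3 f_A00pm_123_s3 t 2 1 1 = true :=
  ⟨(a (b (b (l 1) (l 6)) (l 6)) (b (b (a (b (a (b (a (l 1) (l 16745776)) (l 16731688)) (b (a (l 16754920) (l 16761592)) (l 16794528))) (a (b (l 16724968) (l 16719632)) (a (l 16741664) (l 16750216)))) (b (a (b (b (a (l 16767944) (a (l 16771312) (l 16773312))) (a (l 16765144) (l 16770080))) (a (l 16761552) (l 16767256))) (a (b (b (l 1072890383) (a (l 16773112) (l 16774632))) (l 16782464)) (b (b (l 1073165839) (l 1073224207)) (l 1073312783)))) (a (a (l 16756200) (l 16763408)) (b (a (l 16770224)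 (l 16774288)) (a (l 16769456) (l 16774464)))))) (a (b (a (l 16796672) (b (l 16742528) (l 16741088))) (l 6)) (b (a (b (l 16841424) (l 16759056)) (b (l 16773160) (l 16775696))) (a (a (l 6) (l 16769880)) (b (l 16780000) (l 16785616)))))) (b (a (l 6) (l 6)) (l 6)))), by decide +kernel⟩

def k1_A00pm_123_s3 : ∃ t, chk3 f_A00pm_123_s3 t 6 2 1 = true :=
  ⟨(a (b (b (b (a (b (l 4) (l 1073559055)) (l 4)) (a (l 1076877327) (l 1074560527))) (b (a (l 1076437007) (l 1074128399)) (a (a (l 16777640) (l 1076107791)) (b (a (l 1074113039) (l 1074297871)) (a (l 16780472) (l 1074368015)))))) (b (a (a (b (l 16779736) (l 16783208)) (b (l 16781896) (l 16786080))) (b (a (l 16783032) (b (l 16782208) (l 16784408))) (a (l 16787744) (l 16788656)))) (a (b (a (l 16788296) (l 16791776)) (l 16797184)) (b (a (l 16794304) (l 16795800)) (a (l 16802312) (b (l 16801872) (l 16806224))))))) (b (b (l 4) (b (a (a (a (l 1074346511) (l 4)) (l 4)) (l 4)) (a (a (b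 (a (b (l 1074416655) (l 1074449423)) (b (l 1074502671) (l 1074544655))) (a (l 1074517519) (l 1074612751))) (b (l 1074615311) (l 1074702863))) (l 4)))) (a (b (a (a (b (a (l 16783056) (l 1074689551)) (l 16788480)) (b (l 1074752527) (l 16787872))) (b (c (l 1075099151) (l 1074581007)) (b (l 1075524623) (l 1075099151)))) (a (b (l 16795528) (b (l 16807088) (l 16806088))) (b (b (l 16791296) (l 16795224)) (b (l 16799448) (a (b (l 16803448) (l 16805568)) (a (l 16803352) (l 16802328))))))) (b (a (b (a (b (l 1074838543) (l 1074929679)) (b (l 1074954255) (l 1075039759))) (a (b (l 1075030543) (l 1075144207)) (b (l 1075155471) (l 16784256)))) (b (a (l 1077831695) (l 4)) (a (l 1075377167) (l 1075502095)))) (a (b (a (b (l 16788888) (l 16792632)) (a (l 16789896) (l 16789440))) (a (b (l 16796576) (b (l 16799608) (b (l 16801136) (l 16812656)))) (b (l 16795504) (l 16820520)))) (b (b (l 1075623951) (l 1075733007)) (a (b (l 16794344) (l 16798432))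 (l 16752768)))))))), by decide +kernel⟩

def k2_A00pm_123_s3 : ∃ t, chk3 f_A00pm_123_s3 t 6 6 1 = true :=
  ⟨(a (b (a (b (l 16804992) (l 16814736)) (b (l 16770416) (l 16821560))) (a (l 6) (b (l 16832216) (a (l 6) (l 16842080))))) (a (b (a (b (l 16812880) (l 16821832)) (b (a (l 16811160) (b (a (l 16807640) (b (l 16805472) (l 16807656))) (l 16811376))) (l 16776640))) (a (b (l 16830592) (l 16839536)) (b (l 16826656) (c (l 16840088) (l 16828736))))) (b (b (a (b (a (b (b (a (l 16803824) (a (l 16802824) (l 16802352))) (b (a (l 16815056) (a (l 16803592) (l 16803112))) (a (l 16805096) (a (a (l 16804264) (a (l 16804016) (l 16814328))) (a (c (a (l 16806504) (l 16806408)) (l 16800696)) (l 16803584)))))) (a (l 16806424) (b (a (l 16804872) (b (b (a (c (b (c (a (l 16808216) (l 16808120)) (l 16805384)) (l 16806920)) (l 16801032)) (l 16803960)) (l 16809464)) (l 16804616))) (l 16805648)))) (a (b (l 16802712) (b (b (l 16803968) (l 16804464))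 (l 16805160))) (b (l 16802360) (l 16804400)))) (a (a (l 16809512) (l 16808176)) (l 16807360))) (a (b (l 16802480) (b (l 16805352) (l 16807056))) (b (l 16800664) (l 16804496)))) (a (b (a (l 16812784) (l 16810976)) (l 16815568)) (b (l 16808568) (l 16811592)))) (b (a (a (l 16822096) (l 16819536)) (l 16816344)) (a (a (c (l 16834992) (l 16824272)) (l 16826656)) (c (l 16827624) (l 16818192))))))), by decide +kernel⟩

def k3_A00pm_123_s3 : ∃ t, chk3 f_A00pm_123_s3 t 6 7 1 = true :=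
  ⟨(a (l 6) (b (a (b (a (a (l 6) (l 16858088)) (b (l 16840904) (l 16845752))) (a (l 6) (a (l 6) (l 16852096)))) (a (b (a (b (l 16836024) (l 16840872)) (b (l 16832896) (l 16837648))) (a (b (l 16846128) (l 16851728)) (b (l 16842832) (l 16848592)))) (c (b (b (l 16834064) (l 16839008)) (b (l 16844456) (l 16850440))) (b (b (l 16823448) (c (l 16830648) (l 16824944))) (b (a (l 16833848) (l 16831696)) (l 16838624)))))) (a (l 6) (a (a (l 6) (b (b (l 16854912) (l 16861904)) (l 6))) (b (b (l 16851184) (l 16858328)) (a (l 16871080) (l 16868576))))))), by decide +kernel⟩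

def k4_A00pm_123_s3 : ∃ t, chk3 f_A00pm_123_s3 t 7 2 1 = true :=
  ⟨(b (l 4) (a (a (b (a (b (l 4) (a (l 1075599887) (l 1075670031))) (l 4)) (a (b (b (l 1075822095) (l 1076998159)) (a (l 1075979791) (l 1076023311))) (b (b (a (a (l 1075901455) (b (l 4) (l 1075924495))) (a (b (l 4) (l 1075949071)) (l 4))) (a (a (l 1075961359) (l 1075968527)) (l 1076007439))) (a (l 1076581391) (b (l 1076062223) (l 1076118031)))))) (b (l 4) (a (a (b (b (l 4) (a (l 1076045327) (l 4))) (b (a (l 1076099599) (l 1076126223)) (l 1076169743))) (b (l 4) (b (b (l 4) (a (l 1076165647) (a (l 1076185615) (l 4)))) (a (l 1076207119) (b (a (l 1076212751) (l 1076226063)) (l 1076247055)))))) (b (l 4) (b (l 4) (a (a (b (a (c (l 1076384271) (l 1076087823)) (l 4)) (a (l 1076266511) (l 1076280335))) (b (l 4) (a (b (l 4) (a (l 1076296719) (b (l 4) (l 1076311055)))) (l 4)))) (l 4))))))) (l 4))), by decide +kernel⟩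

def k5_A00pm_123_s3 : ∃ t, chk3 f_A00pm_123_s3 t 28 6 1 = true :=
  ⟨(b (a (b (a (l 16779288) (l 16776464)) (b (a (l 16805272) (l 16802944)) (l 16807112))) (b (a (b (l 16792496) (l 16796352)) (b (l 1076166671) (l 16793320))) (a (b (l 16800160) (l 16803176)) (b (l 16796976) (l 16800456))))) (b (a (l 16811528) (l 16806232)) (a (b (l 16816072) (l 16819664)) (b (l 16810864) (l 16814448))))), by decide +kernel⟩

def k6_A00pm_123_s3 : ∃ t, chk3 f_A00pm_123_s3 t 29 12 1 = true :=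
  ⟨(a (a (b (b (a (l 1076200975) (l 1076225039)) (l 1076219919)) (b (l 1076215823) (l 16797376))) (b (b (a (b (l 1076243471) (l 1076247055)) (b (l 1076272655) (l 1076264975))) (a (l 1076239375) (b (l 1076254223) (l 1076245007)))) (b (a (l 16791248) (l 1076244495)) (a (l 16794808) (l 16793200))))) (b (a (b (a (b (a (l 1076284431) (b (l 1076296207) (l 1076289551))) (a (l 1076273167) (l 1076275215))) (b (a (a (l 1076296207) (l 1076306959)) (b (l 1076329999) (l 1076325391))) (a (b (l 1076296207) (l 1076293135)) (b (l 1076321807) (l 1076319759))))) (a (b (l 1076263439) (l 1076264975)) (b (a (l 1076291599) (l 1076318223)) (a (l 1076293135) (l 1076320271))))) (b (a (b (a (b (l 4) (a (l 1076347407) (l 1076362767))) (l 4)) (a (b (a (l 1076343823) (l 1076359183)) (a (l 1076341263) (l 1076357135))) (b (a (c (b (l 1076526095) (l 1076526607)) (l 1076216847)) (b (l 4) (c (l 1076542991) (l 1076232719)))) (a (l 1076373007) (l 1076389903)))))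 (b (l 4) (a (b (l 4) (a (l 1076407311) (b (l 4) (l 1076425231)))) (l 4)))) (a (b (a (l 1076347919) (b (l 1076380687) (l 1076380175))) (a (l 1076349967) (l 1076382223))) (b (a (b (a (l 1076406287) (l 1076424207)) (l 1076415503)) (b (a (l 1076443151) (b (l 4) (l 1076462095))) (a (l 1076442639) (l 1076462095)))) (a (l 1076417039) (b (l 1076453391) (l 1076455439))))))) (a (b (a (l 1076273167) (b (l 1076313615) (l 1076323855))) (a (l 1076300303) (b (l 16789080) (l 16790944)))) (b (a (b (a (l 1076356111) (l 1076388367)) (l 1076383247)) (b (a (l 1076423183) (l 1076460559)) (c (l 1076632591) (l 1076265487)))) (b (a (l 1076398095) (l 1076467727)) (a (l 16789336) (l 1076486671))))))), by decide +kernel⟩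

def k7_A00pm_123_s3 : ∃ t, chk3 f_A00pm_123_s3 t 29 13 1 = true :=
  ⟨(b (b (a (a (l 16800400) (a (l 16798424) (l 16797024))) (a (a (l 16795384) (l 16793792)) (a (c (l 16793328) (l 16791040)) (b (l 16789592) (l 16791528))))) (a (l 16802264) (a (b (a (l 16798064) (l 16796728)) (l 16798992)) (a (b (l 16795104) (l 16796992)) (b (l 16793480) (l 16795536)))))) (b (a (l 16805576) (a (l 16801632) (b (a (l 16798712) (l 16797224)) (l 16799736)))) (a (l 16809352) (a (l 16805352) (l 16802536))))), by decide +kernel⟩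

def k8_A00pm_123_s3 : ∃ t, chk3 f_A00pm_123_s3 t 14 7 1 = true :=
  ⟨(b (a (b (a (b (l 16823800) (l 16828440)) (b (l 16818720) (l 16823560))) (a (b (a (l 16834968) (l 16832576)) (l 16839872)) (b (l 16828920) (l 16834864)))) (b (a (b (l 16813640) (l 16818408)) (b (l 16808112) (l 16812632))) (a (b (l 16823600) (l 16829176)) (b (l 16817464) (a (l 16824328) (l 16820656)))))) (b (a (a (b (l 16846488) (l 16853464)) (b (l 16841240) (l 16847816))) (a (b (l 16835216) (l 16841072)) (b (a (l 16829680) (l 16825552)) (l 16832600)))) (a (a (a (l 16865856) (l 16862856)) (b (l 16854512) (l 16860880))) (a (b (l 16846672) (l 16851848)) (b (l 16836992) (l 16840832)))))), by decide +kernel⟩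

def k9_A00pm_123_s3 : ∃ t, chk3 f_A00pm_123_s3 t 30 12 1 = true :=
  ⟨(a (b (a (a (b (l 4) (b (b (l 4) (a (c (l 1076648975) (a (l 1076317711) (l 1076339727))) (a (a (l 1076250127) (l 4)) (l 4)))) (a (b (c (l 1076653583) (l 1076325903)) (l 1076495375)) (a (b (l 1076525071) (l 1076526607)) (b (l 1076546575) (l 1076548623)))))) (a (b (l 4) (b (l 4) (a (b (a (l 1076563471) (l 4)) (l 1076571151)) (b (l 4) (l 1076594191))))) (a (b (l 4) (b (l 4) (b (l 4) (l 1076617743)))) (l 4)))) (l 4)) (a (a (a (b (b (l 1076500495) (l 1076510735)) (b (l 1076525071) (l 1076544015))) (b (b (c (l 1076708879) (l 1076368911)) (l 1076552719)) (b (l 1076567055) (l 1076585999)))) (a (b (b (c (l 1076750351) (l 1076417039)) (l 1076597263)) (b (l 1076611087) (l 1076630543))) (b (b (a (l 1076622351) (l 1076646415)) (l 1076644367)) (b (l 1076658191) (l 1076677135))))) (a (a (b (b (a (l 1076671503) (l 1076697103)) (l 1076694031)) (b (b (l 1076703247) (l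 1076711439)) (l 1076726799))) (b (b (l 4) (l 1076745743)) (b (c (l 1076922895) (l 1076587023)) (l 1076778511)))) (a (b (b (l 4) (l 1076800015)) (b (a (l 1076798991) (l 1076826639)) (l 1076833295))) (b (l 4) (b (b (l 1077268495) (l 1076874255)) (l 1076889103))))))) (b (l 4) (a (b (l 4) (a (b (b (l 4) (l 1076963855)) (a (l 1076946959) (l 1077006863))) (a (b (l 4) (l 1077068815)) (l 4)))) (l 4)))), by decide +kernel⟩

def k10_A00pm_123_s3 : ∃ t, chk3 f_A00pm_123_s3 t 30 13 1 = true :=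
  ⟨(a (b (a (a (b (b (l 1076590607) (l 16789832)) (c (l 16793864) (l 16791720))) (b (b (l 1076679183) (l 1076708367)) (b (l 16790032) (l 16792040)))) (a (b (b (c (l 1076952079) (l 1076596239)) (c (l 1076983311) (l 1076621327))) (b (c (l 16788800) (l 16787504)) (l 16790176))) (b (a (b (l 1076856335) (l 1076883471)) (b (l 1076912143) (l 1076938767))) (c (b (l 1077113871) (l 16788784)) (b (l 1076766223) (l 16787592)))))) (b (b (a (a (b (l 16795344) (l 16796240)) (l 16794056)) (a (l 16792208) (l 16790240))) (a (a (l 16797544) (b (l 16795584) (l 16796424))) (a (b (l 16793752) (l 16794848)) (l 16792320)))) (a (l 16799536) (b (a (b (l 16795704) (l 16796672)) (b (l 16793976) (a (l 16795376) (l 16794536)))) (l 16797096))))) (b (a (b (b (a (a (l 1076969487) (l 1077028879)) (a (l 1077090319) (l 1077154319))) (a (a (l 1076995599) (l 1077054991)) (a (l 1077115919) (l 1077179407)))) (b (c (a (l 1077217295) (l 1077327887)) (a (l 1076891151)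 (l 1078098447))) (c (a (l 1077253135) (l 1077362703)) (a (l 1076923407) (l 1077594127))))) (b (b (a (a (l 1077219855) (l 4)) (l 4)) (a (a (l 1077244943) (l 1077312015)) (l 4))) (b (a (c (l 1077445647) (l 1077705231)) (a (l 1077409295) (l 1077479951))) (a (c (l 1077478927) (l 1077736463)) (a (l 1077441039) (l 1077511183)))))) (a (b (a (b (c (l 16788656) (l 16787584)) (l 16790224)) (c (b (l 1077400079) (l 16788424)) (b (l 1077630479) (l 16787504)))) (a (b (l 16792392) (b (a (l 16794544) (l 16793544)) (l 16794944))) (b (l 16790152) (b (l 16791824) (l 16793016))))) (b (a (b (c (l 1077515791) (l 1077772815)) (a (l 16786176) (l 1077458447))) (a (b (l 1077476367) (l 1077528079)) (b (l 1077546511) (l 1077602831)))) (a (b (c (l 16788096) (l 16787368)) (l 16789992)) (b (a (l 16785816) (l 16779216)) (c (l 16777128) (l 16781856)))))))), by decide +kernel⟩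

def k11_A00pm_123_s3 : ∃ t, chk3 f_A00pm_123_s3 t 30 7 1 = true :=
  ⟨(b (a (b (b (a (l 16803464) (l 16800064)) (a (l 16807696) (l 16804080))) (b (a (l 16812168) (l 16808112)) (a (l 16816568) (l 16812096)))) (b (b (a (b (a (l 16796400) (b (a (l 16794488) (l 16793528)) (l 16794904))) (l 16797288)) (a (b (b (l 16791688) (l 16792840)) (l 16794072)) (b (l 16779112) (a (l 16792448) (l 16791160))))) (a (l 16800008) (b (a (l 16795872) (l 16793424)) (l 16796312)))) (a (b (l 16803648) (l 16807096)) (b (l 16798680) (a (l 16803072) (l 16800280)))))) (b (a (b (a (l 16820904) (l 16815808)) (l 16822192)) (b (a (l 16810320) (a (l 16805952) (l 16802944))) (a (l 16813312) (l 16806984)))) (a (b (l 16825480) (l 16828240)) (b (a (l 16815904) (l 16809168)) (a (l 16818000) (l 16810888)))))), by decide +kernel⟩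

def k12_A00pm_123_s3 : ∃ t, chk3 f_A00pm_123_s3 t 31 6 1 = true :=
  ⟨(b (l 4) (a (a (b (a (b (l 4) (a (c (l 1079290895) (l 1079599119)) (l 4))) (l 4)) (b (a (a (b (l 1078136847) (l 1077679631)) (b (l 1079835663) (l 1078296591))) (b (a (l 1075597839) (l 4)) (l 1077850127))) (b (a (a (l 1077766671) (l 1077834767)) (l 1077925391)) (a (a (l 16780008) (l 16783744)) (l 1077996559))))) (b (l 4) (b (l 4) (b (a (a (l 1077985295) (l 4)) (l 4)) (a (a (l 1078055439) (l 1078630415)) (a (a (l 1078113807) (l 4)) (l 4))))))) (l 4))), by decide +kernel⟩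

def k13_A00pm_123_s3 : ∃ t, chk3 f_A00pm_123_s3 t 62 28 1 = true :=
  ⟨(a (a (b (a (l 16788552) (c (l 16787152) (l 16786872))) (b (a (b (l 16791240) (l 16792016)) (l 16790264)) (l 16792432))) (b (b (l 1080209935) (a (l 16786480) (l 16782208))) (b (c (l 16782512) (l 16787656)) (a (b (l 16790048) (l 16790824)) (b (l 16788168) (l 16789016)))))) (b (a (b (a (l 1078120975) (c (l 1079801871) (l 1078118927))) (a (l 1079792143) (a (l 1079233039) (a (l 1078148111) (l 1078140431))))) (a (a (b (b (l 1078161935) (l 1078710799)) (b (l 1078143503) (l 1078114319))) (b (b (c (l 1078720015) (l 1078140943)) (c (a (l 1078160911) (b (l 1078161423) (l 1078148623))) (l 1078168079))) (b (a (l 1078133263) (l 1078126607)) (l 1078637583)))) (a (c (b (b (l 4) (b (l 4) (l 1078408719))) (b (c (l 1078262287) (l 1078118415)) (l 1078099471))) (b (b (l 4) (l 1078151695)) (l 1079711247))) (b (l 4) (a (b (b (l 1078114319) (l 1078099983)) (l 1078213135))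 (b (a (b (l 4) (l 1078095375)) (l 4)) (b (l 1078079503) (l 1078066191)))))))) (a (a (b (l 1078661647) (l 16786736)) (a (b (l 1078102031) (l 16785368)) (b (l 1078624271) (l 16784464)))) (a (a (b (c (l 1079160847) (l 1078067215)) (l 1079094799)) (b (b (l 1078072847) (l 1078046223)) (a (l 1078012431) (l 1078542863)))) (b (c (a (b (l 1078076943) (l 1078055439)) (b (a (l 1078606863) (l 1078602255)) (l 1078046735))) (a (l 1079109135) (b (l 1078036495) (l 1078005263)))) (b (a (l 1078008335) (a (l 1076926479) (l 1078531599))) (a (l 1077981711) (l 1077970447)))))))), by decide +kernel⟩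

def k14_A00pm_123_s3 : ∃ t, chk3 f_A00pm_123_s3 t 62 29 1 = true :=
  ⟨(a (a (b (l 16794664) (l 16797384)) (b (b (l 16791104) (l 16792504)) (l 16794400))) (b (a (b (a (b (l 16787968) (l 16788856)) (b (l 16786136) (a (l 16787384) (l 16775952)))) (a (l 16790128) (l 16788192))) (a (b (a (l 16779928) (c (l 16784336) (l 16784224))) (b (a (l 16786296) (l 16785376)) (l 16791896))) (a (b (b (l 16780376) (l 16783760)) (b (l 16784496) (l 16785208))) (b (b (l 1077942287) (l 16780256)) (b (l 16783616) (l 16784312)))))) (a (l 16793944) (b (a (l 16787816) (a (l 16786368) (a (l 16785672) (b (l 16784800) (l 16785544))))) (l 16788352))))), by decide +kernel⟩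

def k15_A00pm_123_s3 : ∃ t, chk3 f_A00pm_123_s3 t 62 15 1 = true :=
  ⟨(b (a (b (l 16793048) (l 16795144)) (a (b (l 16793456) (l 16795296)) (b (b (l 16789664) (l 16790592)) (a (l 16792704) (l 16790968))))) (a (b (a (l 16803968) (l 16800432)) (a (l 16805432) (l 16801760))) (b (a (l 16796864) (b (l 16792912) (l 16793552))) (b (l 16795936) (l 16796384))))), by decide +kernel⟩

def k16_A00pm_123_s3 : ∃ t, chk3 f_A00pm_123_s3 t 252 56 1 = true :=
  ⟨(b (l 4) (b (l 4) (a (a (c (a (b (l 1078088207) (l 1078076943)) (b (l 4) (l 1078072847))) (l 1078054927)) (l 4)) (l 4)))), by decide +kernel⟩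

def k17_A00pm_123_s3 : ∃ t, chk3 f_A00pm_123_s3 t 504 57 1 = true :=
  ⟨(b (c (c (a (a (b (l 1079147535) (l 1078055951)) (b (a (l 1078607887) (l 1078606351)) (l 1078589455))) (b (a (b (l 1078070799) (l 1078062095)) (b (l 4) (a (l 1078059023) (l 4)))) (a (a (l 1078049807) (l 1078584847)) (b (l 1078049807) (l 1078041103))))) (a (b (l 1078047247) (b (l 1078029327) (l 1078018063))) (b (c (a (l 1078583311) (l 1079115791)) (l 1078032399)) (a (l 1078554127) (l 1078550031))))) (a (b (l 1078023183) (l 1077991951)) (b (l 1078010383) (l 1077979663)))) (c (a (a (b (l 1078558223) (l 1077999119)) (b (l 1079090703) (l 1077994511))) (a (b (c (l 1079106063) (l 1078532623)) (l 1078527503)) (b (b (l 1078013455) (l 1078003215)) (c (l 1079083535) (l 1077965839))))) (a (b (l 1077963279) (l 1077928975)) (b (l 1077950479) (l 1077916175))))), by decide +kernel⟩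

def k18_A00pm_123_s3 : ∃ t, chk3 f_A00pm_123_s3 t 505 57 1 = true :=
  ⟨(b (a (b (l 4) (c (a (a (b (l 1078030351) (l 1078020623)) (b (l 1078028815) (l 1078018575))) (b (l 4) (a (l 1078017039) (a (l 1078016015) (l 4))))) (c (l 1077912591) (l 1077959695)))) (l 4)) (c (a (b (b (a (l 1078009871) (a (l 1078008335) (l 1078006287))) (a (l 1077999631) (a (l 1077997071) (l 1077995023)))) (b (a (l 1077988367) (l 1077984783)) (a (l 1077977615) (l 1077974031)))) (c (b (a (c (a (b (a (l 1078035471) (l 1078034959)) (l 1078026767)) (b (l 4) (l 1078025231))) (b (c (l 1078555663) (l 1078008335)) (l 1078003215))) (a (b (l 4) (a (l 1078012431) (l 1078011919))) (l 4))) (c (a (b (l 1078554127) (l 1078008847)) (b (a (l 1078014991) (l 1078550543)) (c (l 1078550031) (l 1077999631)))) (a (b (l 1077992975) (l 1077983247)) (b (l 1077989903) (l 1077980175))))) (b (a (b (l 1077985295) (l 1077972495)) (b (l 4) (l 1077968911))) (a (a (l 1077955087)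 (l 1078490127)) (a (l 1078488591) (l 1079023631)))))) (a (b (c (b (l 1078496783) (l 1078480911)) (l 1077926927)) (a (l 1078445071) (l 1078439439))) (b (c (b (l 1079561231) (l 1079008783)) (l 1077916175)) (a (l 1078971407) (l 1079503887)))))), by decide +kernel⟩

def k19_A00pm_123_s3 : ∃ t, chk3 f_A00pm_123_s3 t 253 28 1 = true :=
  ⟨(b (l 4) (a (a (b (l 4) (b (l 4) (b (b (l 4) (a (a (a (l 1077931023) (l 1077930511)) (l 4)) (l 4))) (b (a (a (l 1078460943) (a (l 1077922831) (l 1077921807))) (l 4)) (c (a (a (l 1077963279) (l 1077961743)) (a (a (l 1077961231) (l 1077960207)) (l 4))) (l 1078948367)))))) (l 4)) (l 4))), by decide +kernel⟩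

def k20_A00pm_123_s3 : ∃ t, chk3 f_A00pm_123_s3 t 252 29 1 = true :=
  ⟨(b (a (b (c (a (b (l 1080121871) (l 1080101391)) (a (b (l 1077968911) (l 16781392)) (b (l 1078502415) (l 16780952)))) (a (b (l 1076284431) (l 16781952)) (b (l 1077882895) (c (l 16778480) (l 16781064))))) (a (c (c (l 16780592) (l 16783128)) (l 16780392)) (b (c (l 1081148943) (l 16781800)) (c (l 16782640) (l 16782488))))) (b (a (a (b (c (l 1079840783) (l 1077874703)) (c (l 1079015951) (l 16780432))) (b (b (l 1077917199) (l 1077903887)) (a (l 1078423055) (l 1078421007)))) (a (b (b (a (l 1077914127) (l 1077912591)) (l 1078436879)) (b (l 1077887503) (l 1077875215))) (b (a (b (l 1077910543) (l 1077897743)) (b (l 1077909007) (l 1077896207))) (b (l 1078958095) (l 1077872143))))) (a (a (b (l 1079475215) (l 16781904)) (b (a (l 1077861903) (l 1078396943)) (l 14))) (a (b (a (l 1078395407) (l 1078930959)) (l 14)) (b (b (l 1077859855) (l 14)) (l 14)))))) (a (a (a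 (b (b (l 16789568) (l 16785072)) (l 16786168)) (l 14)) (l 14)) (l 14))), by decide +kernel⟩

def k21_A00pm_123_s3 : ∃ t, chk3 f_A00pm_123_s3 t 253 29 1 = true :=
  ⟨(b (a (b (c (a (c (b (a (a (b (l 1077982735) (l 1077974031)) (b (l 1077981199) (l 1077973007))) (c (a (b (a (l 1077994511) (l 1077993999)) (l 1077986831)) (b (b (l 1077995023) (l 1077991439)) (l 1078522895))) (b (a (l 1077966351) (l 1077965327)) (l 1078493711)))) (a (b (l 1077965327) (l 1077957647)) (b (a (l 1077963791) (l 1077962767)) (l 1079029263)))) (a (a (b (l 1078461967) (l 1078439951)) (b (l 1078997519) (l 1078438927))) (b (b (l 1077927439) (l 1077916175)) (b (l 1077904911) (l 1077894671))))) (c (b (a (a (c (a (b (b (l 4) (l 1077990415)) (l 1077984783)) (b (l 4) (a (l 1077984783) (l 1078521359)))) (b (l 1077964303) (l 1077955087))) (b (l 4) (a (b (l 1077970959) (l 1077966863)) (b (l 4) (l 1077966351))))) (a (a (b (l 4) (b (l 4) (l 1077965839))) (l 4))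 (l 4))) (a (a (b (l 1078498831) (l 1077954575)) (b (b (l 1077962767) (l 1077959183)) (l 1078490127))) (b (b (c (a (c (l 1078254095) (l 1077969423)) (a (l 1078245391) (l 4))) (a (l 1077946895) (l 1077945871))) (a (l 1077958159) (a (l 1077957647) (l 14)))) (l 14)))) (b (a (b (a (l 1077925391) (l 4)) (l 1078450703)) (a (b (l 4) (l 1077912079)) (l 4))) (a (b (l 1077902863) (l 1077892111)) (b (a (l 1077901327) (l 1077900303)) (l 14)))))) (a (b (a (l 1080004623) (c (l 1080022543) (l 1078908431))) (a (l 1079437327) (l 1080507919))) (b (b (a (l 1077858831) (l 4)) (a (l 1077842959) (l 1077840399))) (a (a (l 1078895119) (l 1078894095)) (b (l 1077825551) (l 14)))))) (b (a (a (b (l 1078930959) (l 14)) (l 14)) (l 14)) (l 14))) (b (a (a (b (l 4) (b (b (l 4) (l 14)) (l 14))) (l 4)) (l 4)) (l 14))) (l 14)), by decide +kernel⟩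

def k22_A00pm_123_s3 : ∃ t, chk3 f_A00pm_123_s3 t 126 15 1 = true :=
  ⟨(a (a (a (b (a (b (l 16788184) (l 16789872)) (l 14)) (b (l 16790976) (l 16791952))) (l 14)) (l 14)) (l 14)), by decide +kernel⟩

def k23_A00pm_123_s3 : ∃ t, chk3 f_A00pm_123_s3 t 127 7 1 = true :=
  ⟨(b (b (l 4) (b (b (l 4) (l 14)) (l 14))) (l 14)), by decide +kernel⟩

theorem t24_A00pm_123_s3 : ∃ t, chk3 f_A00pm_123_s3 t 126 29 1 = true := ex3_a k20_A00pm_123_s3 k21_A00pm_123_s3

theorem t25_A00pm_123_s3 : ∃ t, chk3 f_A00pm_123_s3 t 252 57 1 = true := ex3_a k17_A00pm_123_s3 k18_A00pm_123_s3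

theorem t26_A00pm_123_s3 : ∃ t, chk3 f_A00pm_123_s3 t 252 28 1 = true := ex3_b k16_A00pm_123_s3 t25_A00pm_123_s3

theorem t27_A00pm_123_s3 : ∃ t, chk3 f_A00pm_123_s3 t 126 28 1 = true := ex3_a t26_A00pm_123_s3 k19_A00pm_123_s3

theorem t28_A00pm_123_s3 : ∃ t, chk3 f_A00pm_123_s3 t 126 14 1 = true := ex3_b t27_A00pm_123_s3 t24_A00pm_123_s3

theorem t29_A00pm_123_s3 : ∃ t, chk3 f_A00pm_123_s3 t 126 7 1 = true := ex3_b t28_A00pm_123_s3 k22_A00pm_123_s3

theorem t30_A00pm_123_s3 : ∃ t, chk3 f_A00pm_123_s3 t 63 7 1 = true := ex3_a t29_A00pm_123_s3 k23_A00pm_123_s3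

theorem t31_A00pm_123_s3 : ∃ t, chk3 f_A00pm_123_s3 t 62 14 1 = true := ex3_b k13_A00pm_123_s3 k14_A00pm_123_s3

theorem t32_A00pm_123_s3 : ∃ t, chk3 f_A00pm_123_s3 t 62 7 1 = true := ex3_b t31_A00pm_123_s3 k15_A00pm_123_s3

theorem t33_A00pm_123_s3 : ∃ t, chk3 f_A00pm_123_s3 t 31 7 1 = true := ex3_a t32_A00pm_123_s3 t30_A00pm_123_s3

theorem t34_A00pm_123_s3 : ∃ t, chk3 f_A00pm_123_s3 t 31 3 1 = true := ex3_b k12_A00pm_123_s3 t33_A00pm_123_s3

theorem t35_A00pm_123_s3 : ∃ t, chk3 f_A00pm_123_s3 t 30 6 1 = true := ex3_b k9_A00pm_123_s3 k10_A00pm_123_s3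

theorem t36_A00pm_123_s3 : ∃ t, chk3 f_A00pm_123_s3 t 30 3 1 = true := ex3_b t35_A00pm_123_s3 k11_A00pm_123_s3

theorem t37_A00pm_123_s3 : ∃ t, chk3 f_A00pm_123_s3 t 15 3 1 = true := ex3_a t36_A00pm_123_s3 t34_A00pm_123_s3

theorem t38_A00pm_123_s3 : ∃ t, chk3 f_A00pm_123_s3 t 29 6 1 = true := ex3_b k6_A00pm_123_s3 k7_A00pm_123_s3

theorem t39_A00pm_123_s3 : ∃ t, chk3 f_A00pm_123_s3 t 14 6 1 = true := ex3_a k5_A00pm_123_s3 t38_A00pm_123_s3

theorem t40_A00pm_123_s3 : ∃ t, chk3 f_A00pm_123_s3 t 14 3 1 = true := ex3_b t39_A00pm_123_s3 k8_A00pm_123_s3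

theorem t41_A00pm_123_s3 : ∃ t, chk3 f_A00pm_123_s3 t 7 3 1 = true := ex3_a t40_A00pm_123_s3 t37_A00pm_123_s3

theorem t42_A00pm_123_s3 : ∃ t, chk3 f_A00pm_123_s3 t 7 1 1 = true := ex3_b k4_A00pm_123_s3 t41_A00pm_123_s3

theorem t43_A00pm_123_s3 : ∃ t, chk3 f_A00pm_123_s3 t 6 3 1 = true := ex3_b k2_A00pm_123_s3 k3_A00pm_123_s3

theorem t44_A00pm_123_s3 : ∃ t, chk3 f_A00pm_123_s3 t 6 1 1 = true := ex3_b k1_A00pm_123_s3 t43_A00pm_123_s3

theorem t45_A00pm_123_s3 : ∃ t, chk3 f_A00pm_123_s3 t 3 1 1 = true := ex3_a t44_A00pm_123_s3 t42_A00pm_123_s3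

theorem t46_A00pm_123_s3 : ∃ t, chk3 f_A00pm_123_s3 t 1 1 1 = true := ex3_a k0_A00pm_123_s3 t45_A00pm_123_s3

theorem c_A00pm_123_s3 : CertF 536870912 536870912 0 536870912 536870912 50465866 true true false .npn 1 2 3
    ndB0q1 ndB0q2 pcB3 cut_A00pm_123_s3 xt_A00pm_123_s3 :=
  certF2 (fam := true) (s1 := true) (s2 := false) (a := 1) (b := 2) (c := 3) (cn := .npn) (n1 := ndB0q1) (n2 := ndB0q2) (pc := pcB3) (cut := cut_A00pm_123_s3) (xt := xt_A00pm_123_s3) (P1 := 536870912) (W1 := 536870912) (P2 := 0) (W2 := 536870912) (P3 := 536870912) (W3 := 50465866)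
    rfl (fun _ => rfl) t46_A00pm_123_s3

theorem s_A00pm_123_s3 {κ x : ℝ} (hκ : κ * h0 = ken x) (hx : ((536870912 : ℕ) : ℝ) / S ≤ x)
    (hx' : x ≤ (((536870912 : ℕ) : ℝ) + (50465866 : ℕ)) / S)
    (H : CutA (VFD κ) PP tK tL pcB (Cut.of [[⟨0, 1, 0, 67108864⟩, ⟨1, 1, 0, 67108864⟩, ⟨2, 2, 0, 16777216⟩], [⟨0, 0, 1, 20971520⟩, ⟨1, 1, 0, 33554432⟩, ⟨2, 1, 1, 20971520⟩]]) 1 2 3 0 0 (sgb true) (sgb false) x) :
    AltA (VFD κ) PP tK tL pcB [⟨4, 0, 0, 2845415833⟩] 1 2 3 0 0 (sgb true) (sgb false) x :=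
  strip_altAD (m := 2845415833) false rfl hκ (SH.κ0 hκ (SH.hx1 hx).le (SH.hx2 hx').le) (SH.hx1 hx).le (SH.hx2 hx') (covB01).cov (covB02).cov hx hx' c_A00pm_123_s3 H ((okx6 hx hx').extA (T := tt) (okx hx hx') (sideB hx hx') hκ rfl rfl (.O 1 true) (.O 2 false) (Or.inr rfl))

noncomputable def cut_A00pm_202_s1 : Cut := Cut.of [[⟨4, 0, 0, 1449551462⟩], [⟨0, 1, 0, 67108864⟩, ⟨1, 0, 0, 67108864⟩, ⟨2, 1, 0, 67108864⟩], [⟨0, 1, 0, 33554432⟩, ⟨1, 0, 1, 20971520⟩, ⟨2, 1, 1, 20971520⟩]]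

noncomputable def f_A00pm_202_s1 : ℕ → ℕ → ℕ → ℕ → Bool := onCell 0 536870912 1073741824 536870912 536870912 50465866
    (rowF 1 true true false .pp 2 0 2 (qsf 0 536870912 0 536870912 2) ndB0q2 ndB0q0 pcB2 cut_A00pm_202_s1 Ext.none)

def k0_A00pm_202_s1 : ∃ t, chk3 f_A00pm_202_s1 t 2 1 1 = true :=
  ⟨(b (b (b (l 1) (l 6)) (l 6)) (l 6)), by decide +kernel⟩

def k1_A00pm_202_s1 : ∃ t, chk3 f_A00pm_202_s1 t 3 8 1 = true :=
  ⟨(b (a (l 1) (a (l 1) (l 14))) (b (a (l 1) (a (a (l 1) (l 14)) (l 14))) (b (a (l 1) (a (a (l 1) (l 14)) (l 14))) (a (l 1) (a (a (a (l 1) (l 16654296)) (a (l 16664440) (l 16674384))) (b (l 14) (a (a (l 16682328) (l 16691768)) (a (l 16701080) (a (l 16707784) (a (l 16711040) (l 16713176))))))))))), by decide +kernel⟩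

def k2_A00pm_202_s1 : ∃ t, chk3 f_A00pm_202_s1 t 3 9 1 = true :=
  ⟨(a (c (a (b (l 1) (l 6)) (b (a (b (l 1) (b (l 16597064) (l 16592552))) (b (b (l 1) (l 16620232)) (a (l 16607880) (l 16616472)))) (a (b (a (l 16581248) (l 16589344)) (l 6)) (a (l 16612632) (l 16599000))))) (a (b (l 1) (l 6)) (b (a (b (l 1) (b (l 16593056) (l 16589416))) (b (b (l 1) (l 16617160)) (a (l 16605520) (l 16614904)))) (a (b (l 16604632) (l 6)) (b (l 16600752) (l 16590672)))))) (a (b (a (b (a (b (l 16638648) (l 16633200)) (l 16640352)) (a (l 16624792) (l 16633560))) (b (b (a (l 16658224) (l 16667744)) (l 16677528)) (c (l 16667592) (l 16646648)))) (a (b (l 16659152) (l 16647488)) (a (l 16676048) (b (l 16638248) (l 16626064))))) (a (b (a (b (l 16699696) (l 16680880)) (b (c (l 16683232) (l 16682568)) (l 16710632))) (a (b (l 16646720) (l 16633896)) (b (l 16654920) (l 16662456)))) (a (b (b (a (l 16710512) (a (l 16692848) (l 16695024))) (a (l 16675040)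 (c (l 16680240) (l 16678336)))) (b (b (l 16666360) (l 16659272)) (b (l 16652256) (l 16645344)))) (a (b (b (b (l 16702048) (l 16694456)) (b (l 16686944) (l 16679480))) (b (b (l 16672104) (l 16664800)) (b (l 16657560) (l 16650416)))) (b (b (b (a (l 16705232) (b (l 16709272) (l 16705384))) (b (l 16700496) (l 16696656))) (a (b (l 16689936) (l 16682368)) (b (l 16697136) (l 16684264)))) (b (b (a (l 16674888) (l 16676704)) (l 16673592)) (b (l 16660968) (l 16653672))))))))), by decide +kernel⟩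

def k3_A00pm_202_s1 : ∃ t, chk3 f_A00pm_202_s1 t 6 5 1 = true :=
  ⟨(b (a (l 6) (b (b (a (l 6) (l 16579472)) (l 6)) (l 6))) (l 6)), by decide +kernel⟩

def k4_A00pm_202_s1 : ∃ t, chk3 f_A00pm_202_s1 t 14 10 1 = true :=
  ⟨(a (b (b (l 16637488) (b (l 16588432) (b (l 16584888) (b (l 16582944) (l 16623344))))) (a (l 6) (l 6))) (b (b (l 16673640) (b (l 16602512) (b (l 16598384) (b (l 16596104) (c (l 16639024) (l 16592152)))))) (b (a (l 16585056) (l 16633032)) (l 16575936)))), by decide +kernel⟩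

def k5_A00pm_202_s1 : ∃ t, chk3 f_A00pm_202_s1 t 15 10 1 = true :=
  ⟨(b (b (a (a (l 16621488) (a (l 16668648) (l 16630112))) (a (b (l 16638520) (l 16631808)) (a (b (l 16643360) (l 16636408)) (b (l 16646472) (l 16639352))))) (a (a (b (l 16612504) (b (l 16607960) (b (l 16605432) (a (l 16601864) (l 16646808))))) (b (l 16618952) (b (l 16614136) (b (l 16611448) (b (c (l 16633208) (l 16649448)) (l 16608952)))))) (a (b (l 16625112) (a (b (l 16618560) (b (l 16615752) (b (b (b (l 16614520) (l 16613896)) (l 16613648)) (l 16613128)))) (b (l 16621416) (b (l 16618520) (b (b (b (l 16617248) (a (l 16615936) (l 16632992))) (l 16616352)) (l 16615816)))))) (b (a (l 16629464) (b (l 16634064) (l 16630496))) (b (a (l 16624160) (b (l 16627768) (l 16625872))) (b (a (l 16621184) (b (l 16624360) (a (l 16622584) (l 16623816)))) (b (b (b (a (l 16619872) (l 16627616)) (a (b (l 16619528) (a (l 16618520) (l 16619792))) (b (a (l 16621400) (l 16622616))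 (b (b (a (l 16621184) (l 16622392)) (a (l 16621040) (c (l 16630296) (l 16619848)))) (a (l 16621016) (l 16622224)))))) (a (l 16618944) (a (l 16620808) (l 16622008)))) (a (l 16618400) (a (l 16620248) (l 16621448)))))))))) (b (b (a (a (l 16642048) (c (l 16608688) (l 16603480))) (b (a (l 16612776) (a (l 16616592) (a (l 16618408) (b (l 16620320) (l 16618848))))) (a (l 16609688) (a (l 16613432) (l 16621032))))) (a (a (l 16593832) (l 16599400)) (a (l 16604672) (a (l 16608352) (a (l 16610096) (l 16611232)))))) (a (c (l 16631904) (l 16626896)) (a (l 16605480) (a (l 16598608) (b (l 16604080) (l 16597784))))))), by decide +kernel⟩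

def k6_A00pm_202_s1 : ∃ t, chk3 f_A00pm_202_s1 t 7 11 1 = true :=
  ⟨(b (b (a (l 6) (a (a (l 16572584) (l 16577968)) (a (l 16583184) (a (l 16586720) (l 16588968))))) (a (l 6) (a (l 6) (a (l 16572544) (a (l 16576080) (l 16578176)))))) (a (l 6) (a (l 6) (a (l 6) (b (l 16567256) (l 6)))))), by decide +kernel⟩

def k7_A00pm_202_s1 : ∃ t, chk3 f_A00pm_202_s1 t 3 3 1 = true :=
  ⟨(l 6), by decide +kernel⟩

theorem t8_A00pm_202_s1 : ∃ t, chk3 f_A00pm_202_s1 t 7 10 1 = true := ex3_a k4_A00pm_202_s1 k5_A00pm_202_s1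

theorem t9_A00pm_202_s1 : ∃ t, chk3 f_A00pm_202_s1 t 7 5 1 = true := ex3_b t8_A00pm_202_s1 k6_A00pm_202_s1

theorem t10_A00pm_202_s1 : ∃ t, chk3 f_A00pm_202_s1 t 3 5 1 = true := ex3_a k3_A00pm_202_s1 t9_A00pm_202_s1

theorem t11_A00pm_202_s1 : ∃ t, chk3 f_A00pm_202_s1 t 3 4 1 = true := ex3_b k1_A00pm_202_s1 k2_A00pm_202_s1

theorem t12_A00pm_202_s1 : ∃ t, chk3 f_A00pm_202_s1 t 3 2 1 = true := ex3_b t11_A00pm_202_s1 t10_A00pm_202_s1

theorem t13_A00pm_202_s1 : ∃ t, chk3 f_A00pm_202_s1 t 3 1 1 = true := ex3_b t12_A00pm_202_s1 k7_A00pm_202_s1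

theorem t14_A00pm_202_s1 : ∃ t, chk3 f_A00pm_202_s1 t 1 1 1 = true := ex3_a k0_A00pm_202_s1 t13_A00pm_202_s1

theorem c_A00pm_202_s1 : CertF 0 536870912 0 536870912 536870912 50465866 true true false .pp 2 0 2
    ndB0q2 ndB0q0 pcB2 cut_A00pm_202_s1 Ext.none :=
  certF1 (fam := true) (s1 := true) (s2 := false) (a := 2) (b := 0) (c := 2) (cn := .pp) (n1 := ndB0q2) (n2 := ndB0q0) (pc := pcB2) (cut := cut_A00pm_202_s1) (xt := Ext.none) (P1 := 0) (W1 := 536870912) (P2 := 0) (W2 := 536870912) (P3 := 536870912) (W3 := 50465866)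
    rfl (fun _ => rfl) t14_A00pm_202_s1

theorem s_A00pm_202_s1 {κ x : ℝ} (hκ : κ * h0 = ken x) (hx : ((536870912 : ℕ) : ℝ) / S ≤ x)
    (hx' : x ≤ (((536870912 : ℕ) : ℝ) + (50465866 : ℕ)) / S)
    (H : CutA (VFD κ) PP tK tL pcB (Cut.of [[⟨0, 1, 0, 67108864⟩, ⟨1, 0, 0, 67108864⟩, ⟨2, 1, 0, 67108864⟩], [⟨0, 1, 0, 33554432⟩, ⟨1, 0, 1, 20971520⟩, ⟨2, 1, 1, 20971520⟩]]) 2 0 2 0 0 (sgb true) (sgb false) x) :
    AltA (VFD κ) PP tK tL pcB [⟨3, 0, 0, 1449551462⟩] 2 0 2 0 0 (sgb true) (sgb false) x :=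
  strip_altAD (m := 1449551462) true rfl hκ (SH.κ0 hκ (SH.hx1 hx).le (SH.hx2 hx').le) (SH.hx1 hx).le (SH.hx2 hx') (covB02).cov (covB00).cov hx hx' c_A00pm_202_s1 H (noExt_A)

noncomputable def cut_A00pm_202_s3 : Cut := Cut.of [[⟨3, 0, 0, 2845415833⟩], [⟨0, 1, 0, 67108864⟩, ⟨1, 0, 0, 67108864⟩, ⟨2, 1, 0, 67108864⟩], [⟨0, 1, 0, 33554432⟩, ⟨1, 0, 1, 20971520⟩, ⟨2, 1, 1, 20971520⟩]]

noncomputable def f_A00pm_202_s3 : ℕ → ℕ → ℕ → ℕ → Bool := onCell 0 536870912 1073741824 536870912 536870912 50465866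
    (rowF 1 true true false .pp 2 0 2 (qsf 0 536870912 0 536870912 2) ndB0q2 ndB0q0 pcB2 cut_A00pm_202_s3 Ext.none)

def k0_A00pm_202_s3 : ∃ t, chk3 f_A00pm_202_s3 t 1 1 1 = true :=
  ⟨(a (b (l 6) (l 6)) (l 6)), by decide +kernel⟩

theorem c_A00pm_202_s3 : CertF 0 536870912 0 536870912 536870912 50465866 true true false .pp 2 0 2
    ndB0q2 ndB0q0 pcB2 cut_A00pm_202_s3 Ext.none :=
  certF1 (fam := true) (s1 := true) (s2 := false) (a := 2) (b := 0) (c := 2) (cn := .pp) (n1 := ndB0q2) (n2 := ndB0q0) (pc := pcB2) (cut := cut_A00pm_202_s3) (xt := Ext.none) (P1 := 0) (W1 := 536870912) (P2 := 0) (W2 := 536870912) (P3 := 536870912) (W3 := 50465866)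
    rfl (fun _ => rfl) k0_A00pm_202_s3

theorem s_A00pm_202_s3 {κ x : ℝ} (hκ : κ * h0 = ken x) (hx : ((536870912 : ℕ) : ℝ) / S ≤ x)
    (hx' : x ≤ (((536870912 : ℕ) : ℝ) + (50465866 : ℕ)) / S)
    (H : CutA (VFD κ) PP tK tL pcB (Cut.of [[⟨0, 1, 0, 67108864⟩, ⟨1, 0, 0, 67108864⟩, ⟨2, 1, 0, 67108864⟩], [⟨0, 1, 0, 33554432⟩, ⟨1, 0, 1, 20971520⟩, ⟨2, 1, 1, 20971520⟩]]) 2 0 2 0 0 (sgb true) (sgb false) x) :
    AltA (VFD κ) PP tK tL pcB [⟨4, 0, 0, 2845415833⟩] 2 0 2 0 0 (sgb true) (sgb false) x :=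
  strip_altAD (m := 2845415833) false rfl hκ (SH.κ0 hκ (SH.hx1 hx).le (SH.hx2 hx').le) (SH.hx1 hx).le (SH.hx2 hx') (covB02).cov (covB00).cov hx hx' c_A00pm_202_s3 H (noExt_A)

noncomputable def cut_A00pm_203_s1 : Cut := Cut.of [[⟨4, 0, 0, 1449551462⟩], [⟨0, 1, 0, 33554432⟩, ⟨1, 0, 1, 20971520⟩, ⟨2, 1, 1, 20971520⟩]]

noncomputable def f_A00pm_203_s1 : ℕ → ℕ → ℕ → ℕ → Bool := onCell 0 536870912 1610612736 536870912 536870912 50465866
    (rowF 1 true true false .up 2 0 3 (qsf 0 536870912 0 536870912 3) ndB0q2 ndB0q0 pcB3 cut_A00pm_203_s1 Ext.none)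

def k0_A00pm_203_s1 : ∃ t, chk3 f_A00pm_203_s1 t 1 1 1 = true :=
  ⟨(l 6), by decide +kernel⟩

theorem c_A00pm_203_s1 : CertF 0 536870912 0 536870912 536870912 50465866 true true false .up 2 0 3
    ndB0q2 ndB0q0 pcB3 cut_A00pm_203_s1 Ext.none :=
  certF1 (fam := true) (s1 := true) (s2 := false) (a := 2) (b := 0) (c := 3) (cn := .up) (n1 := ndB0q2) (n2 := ndB0q0) (pc := pcB3) (cut := cut_A00pm_203_s1) (xt := Ext.none) (P1 := 0) (W1 := 536870912) (P2 := 0) (W2 := 536870912) (P3 := 536870912) (W3 := 50465866)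
    rfl (fun _ => rfl) k0_A00pm_203_s1

theorem s_A00pm_203_s1 {κ x : ℝ} (hκ : κ * h0 = ken x) (hx : ((536870912 : ℕ) : ℝ) / S ≤ x)
    (hx' : x ≤ (((536870912 : ℕ) : ℝ) + (50465866 : ℕ)) / S)
    (H : CutA (VFD κ) PP tK tL pcB (Cut.of [[⟨0, 1, 0, 33554432⟩, ⟨1, 0, 1, 20971520⟩, ⟨2, 1, 1, 20971520⟩]]) 2 0 3 0 0 (sgb true) (sgb false) x) :
    AltA (VFD κ) PP tK tL pcB [⟨3, 0, 0, 1449551462⟩] 2 0 3 0 0 (sgb true) (sgb false) x :=
  strip_altAD (m := 1449551462) true rfl hκ (SH.κ0 hκ (SH.hx1 hx).le (SH.hx2 hx').le) (SH.hx1 hx).le (SH.hx2 hx') (covB02).cov (covB00).cov hx hx' c_A00pm_203_s1 H (noExt_A)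

noncomputable def cut_A00pm_203_s3 : Cut := Cut.of [[⟨3, 0, 0, 2845415833⟩], [⟨0, 1, 0, 33554432⟩, ⟨1, 0, 1, 20971520⟩, ⟨2, 1, 1, 20971520⟩]]

noncomputable def f_A00pm_203_s3 : ℕ → ℕ → ℕ → ℕ → Bool := onCell 0 536870912 0 536870912 536870912 50465866
    (rowF 0 true true false .up 2 0 3 (qsf 0 536870912 0 536870912 3) ndB0q2 ndB0q0 pcB3 cut_A00pm_203_s3 Ext.none)

def k0_A00pm_203_s3 : ∃ t, chk3 f_A00pm_203_s3 t 1 1 1 = true :=
  ⟨(a (b (l 1) (b (a (b (l 1) (a (a (b (l 1) (l 16667344)) (l 6)) (l 6))) (l 6)) (a (b (a (b (a (l 16663928) (l 6)) (a (l 16664776) (l 16646216))) (l 6)) (b (a (a (l 16707432) (l 16693920)) (a (l 16678976) (l 6))) (a (a (b (l 16732032) (l 16744568)) (l 16729280)) (a (l 16719984) (l 16709776))))) (b (l 6) (l 6))))) (l 6)), by decide +kernel⟩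

theorem c_A00pm_203_s3 : CertF 0 536870912 0 536870912 536870912 50465866 true true false .up 2 0 3
    ndB0q2 ndB0q0 pcB3 cut_A00pm_203_s3 Ext.none :=
  certF0 (fam := true) (s1 := true) (s2 := false) (a := 2) (b := 0) (c := 3) (cn := .up) (n1 := ndB0q2) (n2 := ndB0q0) (pc := pcB3) (cut := cut_A00pm_203_s3) (xt := Ext.none) (P1 := 0) (W1 := 536870912) (P2 := 0) (W2 := 536870912) (P3 := 536870912) (W3 := 50465866)
    rfl k0_A00pm_203_s3

theorem s_A00pm_203_s3 {κ x : ℝ} (hκ : κ * h0 = ken x) (hx : ((536870912 : ℕ) : ℝ) / S ≤ x)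
    (hx' : x ≤ (((536870912 : ℕ) : ℝ) + (50465866 : ℕ)) / S)
    (H : CutA (VFD κ) PP tK tL pcB (Cut.of [[⟨0, 1, 0, 33554432⟩, ⟨1, 0, 1, 20971520⟩, ⟨2, 1, 1, 20971520⟩]]) 2 0 3 0 0 (sgb true) (sgb false) x) :
    AltA (VFD κ) PP tK tL pcB [⟨4, 0, 0, 2845415833⟩] 2 0 3 0 0 (sgb true) (sgb false) x :=
  strip_altAD (m := 2845415833) false rfl hκ (SH.κ0 hκ (SH.hx1 hx).le (SH.hx2 hx').le) (SH.hx1 hx).le (SH.hx2 hx') (covB02).cov (covB00).cov hx hx' c_A00pm_203_s3 H (noExt_A)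

noncomputable def cut_A00pm_213_s1 : Cut := Cut.of [[⟨4, 0, 0, 1449551462⟩], [⟨0, 1, 0, 67108864⟩, ⟨1, 1, 0, 67108864⟩, ⟨2, 2, 0, 16777216⟩], [⟨0, 1, 0, 33554432⟩, ⟨1, 0, 1, 20971520⟩, ⟨2, 1, 1, 20971520⟩]]

noncomputable def f_A00pm_213_s1 : ℕ → ℕ → ℕ → ℕ → Bool := onCell 0 536870912 536870912 536870912 536870912 50465866
    (rowF 0 true true false .pnn 2 1 3 (qsf 0 536870912 536870912 536870912 3) ndB0q2 ndB0q1 pcB3 cut_A00pm_213_s1 Ext.none)

def k0_A00pm_213_s1 : ∃ t, chk3 f_A00pm_213_s1 t 1 1 1 = true :=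
  ⟨(l 6), by decide +kernel⟩

theorem c_A00pm_213_s1 : CertF 0 536870912 536870912 536870912 536870912 50465866 true true false .pnn 2 1 3
    ndB0q2 ndB0q1 pcB3 cut_A00pm_213_s1 Ext.none :=
  certF0 (fam := true) (s1 := true) (s2 := false) (a := 2) (b := 1) (c := 3) (cn := .pnn) (n1 := ndB0q2) (n2 := ndB0q1) (pc := pcB3) (cut := cut_A00pm_213_s1) (xt := Ext.none) (P1 := 0) (W1 := 536870912) (P2 := 536870912) (W2 := 536870912) (P3 := 536870912) (W3 := 50465866)
    rfl k0_A00pm_213_s1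

theorem s_A00pm_213_s1 {κ x : ℝ} (hκ : κ * h0 = ken x) (hx : ((536870912 : ℕ) : ℝ) / S ≤ x)
    (hx' : x ≤ (((536870912 : ℕ) : ℝ) + (50465866 : ℕ)) / S)
    (H : CutA (VFD κ) PP tK tL pcB (Cut.of [[⟨0, 1, 0, 67108864⟩, ⟨1, 1, 0, 67108864⟩, ⟨2, 2, 0, 16777216⟩], [⟨0, 1, 0, 33554432⟩, ⟨1, 0, 1, 20971520⟩, ⟨2, 1, 1, 20971520⟩]]) 2 1 3 0 0 (sgb true) (sgb false) x) :
    AltA (VFD κ) PP tK tL pcB [⟨3, 0, 0, 1449551462⟩] 2 1 3 0 0 (sgb true) (sgb false) x :=
  strip_altAD (m := 1449551462) true rfl hκ (SH.κ0 hκ (SH.hx1 hx).le (SH.hx2 hx').le) (SH.hx1 hx).le (SH.hx2 hx') (covB02).cov (covB01).cov hx hx' c_A00pm_213_s1 H (noExt_A)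

noncomputable def cut_A00pm_213_s3 : Cut := Cut.of [[⟨3, 0, 0, 2845415833⟩], [⟨0, 1, 0, 67108864⟩, ⟨1, 1, 0, 67108864⟩, ⟨2, 2, 0, 16777216⟩], [⟨0, 1, 0, 33554432⟩, ⟨1, 0, 1, 20971520⟩, ⟨2, 1, 1, 20971520⟩]]

noncomputable def xt_A00pm_213_s3 : Ext := strExt6 dd true true false .u2 .u0m .s2m .pnn 2 1 3 rfl rfl gl3 vv ww ndB0q2 ndB0q1

noncomputable def f_A00pm_213_s3 : ℕ → ℕ → ℕ → ℕ → Bool := onCell 0 536870912 1610612736 536870912 536870912 50465866
    (rowF 1 true true false .pnn 2 1 3 (qsf 0 536870912 536870912 536870912 3) ndB0q2 ndB0q1 pcB3 cut_A00pm_213_s3 xt_A00pm_213_s3)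

def k0_A00pm_213_s3 : ∃ t, chk3 f_A00pm_213_s3 t 2 2 1 = true :=
  ⟨(b (a (l 1) (l 6)) (a (a (b (a (b (b (l 1) (l 16745776)) (b (l 16754920) (l 16761592))) (b (l 16731688) (l 16794528))) (b (a (a (b (l 16767944) (b (l 16771312) (l 16773312))) (b (l 16765144) (l 16770080))) (b (l 16761552) (l 16767256))) (a (b (a (a (l 1072875535) (l 1072903695)) (b (l 16773112) (l 16774632))) (a (a (b (l 1073085455) (l 4)) (b (l 1073114127) (l 1073243151))) (b (l 1073157647) (l 1073287183)))) (b (l 16782464) (b (l 16774440) (l 1074450447)))))) (b (b (a (l 16724968) (l 16719632)) (b (l 16741664) (l 16750216))) (b (b (l 16756200) (l 16763408)) (a (b (l 16770224) (l 16774288)) (b (l 16769456) (l 16774464)))))) (b (a (b (l 16796672) (a (l 16742528) (l 16741088))) (l 6)) (a (b (a (l 16841424) (l 16759056)) (a (l 16773160) (l 16775696))) (b (b (l 6) (l 16769880)) (a (l 16780000) (l 16785616))))))), by decide +kernel⟩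

def k1_A00pm_213_s3 : ∃ t, chk3 f_A00pm_213_s3 t 2 12 1 = true :=
  ⟨(a (a (a (b (a (l 4) (l 1074099215)) (l 4)) (b (a (l 1074696719) (b (l 1073585167) (l 1073786383))) (a (l 4) (b (l 1076106767) (l 4))))) (a (b (b (l 16776736) (b (l 16777688) (l 1073902095))) (l 1075199503)) (b (b (l 16777640) (a (l 16778760) (l 16779736))) (a (b (l 1076796943) (a (l 1074280463) (l 1075921935))) (b (l 16780472) (b (l 16780504) (l 16780240))))))) (a (b (b (a (l 16779736) (l 16783208)) (a (l 16781896) (l 16786080))) (a (b (l 16783032) (a (l 16782208) (l 16784408))) (b (l 16787744) (l 16788656)))) (b (a (b (l 16788296) (l 16791776)) (l 16797184)) (a (b (l 16794304) (l 16795800)) (b (l 16802312) (a (l 16801872) (l 16806224))))))), by decide +kernel⟩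

def k2_A00pm_213_s3 : ∃ t, chk3 f_A00pm_213_s3 t 2 13 1 = true :=
  ⟨(a (a (l 4) (b (b (b (a (l 1074345999) (a (a (l 1074953231) (b (l 16778640) (l 1075542031))) (b (l 16779896) (l 16779600)))) (a (l 4) (a (a (c (l 1076384783) (l 1074238991)) (b (l 1074515983) (l 1074562575))) (l 1074609167)))) (a (l 4) (a (a (l 4) (l 1074634767)) (l 1074701839)))) (a (l 4) (l 4)))) (b (a (a (a (b (b (l 16781760) (l 1074704911)) (l 1074792975)) (a (b (l 1074734095) (l 1074862095)) (b (l 16784432) (l 1074909199)))) (b (a (l 16786552) (l 16789832)) (b (l 16786808) (a (l 16783904) (l 16787016))))) (b (a (l 16795528) (a (l 16807088) (l 16806088))) (a (a (l 16791296) (l 16795224)) (a (l 16799448) (b (a (l 16803448) (l 16805568)) (b (l 16803352) (l 16802328))))))) (a (b (b (a (a (l 1074838031) (a (l 1074905615) (l 1074951695))) (a (b (l 16782800) (l 1075036175)) (l 1075144207))) (a (a (l 1074954255) (a (l 1075022351) (l 1075068431))) (a (b (l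 16781456) (l 1077307407)) (l 16784256)))) (a (b (a (l 4) (b (l 1075164687) (l 1075234831))) (l 4)) (b (b (l 1075336719) (l 1075410959)) (l 1075502607)))) (a (a (b (b (l 16788888) (l 16787752)) (l 1075622927)) (b (b (l 16792632) (l 16791568)) (a (l 1075706895) (l 16769504)))) (b (a (b (l 16796576) (l 16795504)) (b (a (l 16799608) (a (l 16801136) (l 16812656))) (l 16820520))) (b (a (l 16794344) (l 16798432)) (l 16752768))))))), by decide +kernel⟩

def k3_A00pm_213_s3 : ∃ t, chk3 f_A00pm_213_s3 t 2 7 1 = true :=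
  ⟨(a (l 4) (b (b (a (b (a (l 4) (b (l 1075599887) (a (l 4) (l 1075729423)))) (l 4)) (a (b (a (b (l 1075779087) (l 1075848719)) (b (l 1075882511) (b (l 16779072) (l 1074360335)))) (b (a (b (l 1075881999) (a (l 4) (c (l 1076079631) (l 1077103119)))) (a (b (l 1075968015) (l 1075921935)) (l 1077058575))) (a (a (l 4) (a (l 4) (a (l 4) (l 1075975695)))) (b (l 1075992591) (l 1076018703))))) (a (b (b (l 16790240) (l 1075995663)) (b (l 1076016143) (l 1076062223))) (b (l 1073342479) (b (l 1076068367) (l 1076117519)))))) (a (l 4) (b (a (a (l 4) (a (l 4) (b (b (l 1076058127) (l 4)) (l 4)))) (b (a (b (l 1076099599) (a (l 1076111887) (l 1076139023))) (b (l 1076154383) (l 1076180495))) (a (a (l 4) (b (l 1076165647) (b (l 1076185615) (l 4)))) (b (a (l 1076192783) (l 1076220431)) (a (b (l 1076212239) (l 1076226063)) (l 1076247055)))))) (a (l 4) (b (a (l 4) (b (a (a (l 4) (b (l 1076246031) (l 4))) (b (l 1076266511) (a (l 1076273167) (l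 1076286991)))) (a (l 4) (b (a (l 4) (b (l 1076296719) (a (l 4) (l 1076308495)))) (l 4))))) (l 4)))))) (l 4))), by decide +kernel⟩

def k4_A00pm_213_s3 : ∃ t, chk3 f_A00pm_213_s3 t 3 2 1 = true :=
  ⟨(b (l 6) (a (b (l 6) (l 6)) (l 6))), by decide +kernel⟩

def k5_A00pm_213_s3 : ∃ t, chk3 f_A00pm_213_s3 t 6 6 1 = true :=
  ⟨(b (a (a (b (l 16804992) (l 16770416)) (b (l 16814736) (l 16821560))) (b (l 6) (a (l 16832216) (a (l 16839688) (l 6))))) (b (a (b (a (l 16812880) (l 16821832)) (a (b (l 16811160) (a (b (l 16807640) (a (l 16805472) (l 16807656))) (l 16811376))) (l 16776640))) (b (a (l 16830592) (l 16839536)) (a (l 16826656) (c (l 16840088) (l 16828736))))) (a (a (b (a (b (a (a (b (l 16803824) (b (l 16802824) (l 16802352))) (a (b (l 16815056) (b (l 16803592) (l 16803112))) (b (l 16805096) (b (b (l 16804264) (b (l 16804016) (l 16814328))) (b (c (b (l 16806504) (l 16806408)) (l 16800696)) (l 16803584)))))) (b (l 16806424)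 (a (b (l 16804872) (a (a (b (c (a (c (b (l 16808216) (l 16808120)) (l 16805384)) (l 16806920)) (l 16801032)) (l 16803960)) (l 16809464)) (l 16804616))) (l 16805648)))) (a (b (l 16802712) (l 16802360)) (b (a (a (l 16803968) (l 16804464)) (l 16805160)) (l 16804400)))) (b (b (l 16809512) (l 16808176)) (l 16807360))) (b (a (l 16802480) (a (l 16805352) (l 16807056))) (a (l 16800664) (l 16804496)))) (b (a (b (l 16812784) (l 16810976)) (l 16815568)) (a (l 16808568) (l 16811592)))) (a (b (b (l 16822096) (l 16819536)) (l 16816344)) (b (b (c (l 16834992) (l 16824272)) (l 16826656)) (c (l 16827624) (l 16818192))))))), by decide +kernel⟩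

def k6_A00pm_213_s3 : ∃ t, chk3 f_A00pm_213_s3 t 7 6 1 = true :=
  ⟨(b (l 6) (a (b (a (a (b (l 16846464) (l 16840904)) (b (l 6) (l 16845752))) (a (b (l 6) (l 16850792)) (l 6))) (b (a (a (b (l 16836024) (l 16832896)) (b (l 16840872) (l 16837648))) (a (b (l 16846128) (l 16842832)) (a (l 16848672) (l 16851648)))) (c (a (a (l 16834064) (l 16839008)) (a (l 16844456) (l 16850440))) (a (a (l 16823448) (c (l 16830648) (l 16824944))) (a (a (l 16831440) (l 16834224)) (l 16838624)))))) (b (l 6) (b (a (a (a (l 16854792) (l 16858000)) (l 16863248)) (l 6)) (a (a (l 16851184) (l 16858328)) (a (l 16865880) (l 16873728))))))), by decide +kernel⟩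

def k7_A00pm_213_s3 : ∃ t, chk3 f_A00pm_213_s3 t 6 28 1 = true :=
  ⟨(a (b (a (b (l 16779288) (l 16776464)) (a (b (l 16805272) (l 16802944)) (l 16807112))) (b (a (a (l 16792496) (l 16796352)) (a (l 16800160) (l 16803176))) (a (a (l 1077239823) (l 16793320)) (a (l 16796976) (l 16800456))))) (a (b (l 16811528) (l 16806232)) (b (a (l 16816072) (l 16819664)) (a (l 16810864) (l 16814448))))), by decide +kernel⟩

def k8_A00pm_213_s3 : ∃ t, chk3 f_A00pm_213_s3 t 12 58 1 = true :=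
  ⟨(a (a (a (b (l 1076207119) (b (l 1076243471) (a (l 1076265487) (l 1076268559)))) (b (l 1076217359) (b (l 1076247055) (b (l 1076260367) (l 1076267535))))) (b (b (l 16790960) (l 1076225551)) (b (a (l 16786760) (l 16788560)) (a (l 1076253199) (l 1076244495))))) (b (a (b (l 16794568) (l 16792912)) (l 16797376)) (a (b (l 16791248) (a (l 16788664) (l 16790464))) (b (l 16794808) (l 16793200))))), by decide +kernel⟩

def k9_A00pm_213_s3 : ∃ t, chk3 f_A00pm_213_s3 t 12 59 1 = true :=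
  ⟨(a (b (a (a (b (b (a (l 1076279823) (l 1076282895)) (a (a (l 1076293647) (l 1076295183)) (l 1076289039))) (b (a (b (a (l 1076306447) (l 1076299791)) (a (b (l 1076310031) (l 1076313615)) (l 1076308495))) (b (l 1076294671) (l 1076304399))) (a (b (l 1076322831) (l 1076336655)) (l 1076325391)))) (b (b (l 1076272655) (l 1076278799)) (b (a (l 1076295695) (l 1076293135)) (a (l 1076321807) (l 1076319759))))) (b (a (l 1076266511) (l 1076264463)) (a (b (l 1076291599) (l 1076318223)) (b (l 1076293135) (l 1076320271))))) (a (b (a (b (a (l 4) (b (l 1076347407) (l 1076362767))) (l 4)) (b (a (a (l 1076352527) (l 1076619279)) (b (l 1076341263) (l 1076357135))) (a (b (a (b (l 1076371983) (l 1076380175)) (l 1076911631)) (a (l 4) (l 1076391439))) (b (l 1076373007) (l 1076389903))))) (a (l 4) (b (a (l 4) (b (l 1076676111) (a (l 4) (l 1076425231)))) (l 4)))) (b (a (b (a (l 1076347919) (l 1076347919)) (a (l 1076380687) (l 1076380175))) (b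 (l 1076349967) (l 1076382223))) (a (b (a (b (l 1076406287) (l 1076424207)) (l 1076414991)) (a (b (a (l 1076443151) (l 1076442639)) (a (l 4) (l 1076462095))) (b (l 1076442639) (l 1076462095)))) (b (a (l 1076416015) (l 1076418063)) (a (l 1076453391) (l 1076455439))))))) (a (b (b (a (l 1076268559) (l 16788840)) (a (l 1076313615) (l 1076323855))) (a (a (b (l 1076370447) (a (l 1076439567) (l 1076441103))) (b (l 1076375055) (l 1076444687))) (b (l 1076383247) (c (l 1076632591) (l 1076265487))))) (b (a (b (l 16790672) (l 16789080)) (b (l 16792520) (l 16790944))) (a (b (l 1076934671) (a (l 1076463119) (l 1076471311))) (b (l 16789336) (c (l 16788408) (l 16786920))))))), by decide +kernel⟩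

def k10_A00pm_213_s3 : ∃ t, chk3 f_A00pm_213_s3 t 13 29 1 = true :=
  ⟨(a (a (b (b (l 16800400) (b (l 16798424) (l 16797024))) (b (b (l 16795384) (l 16793792)) (a (b (l 16791232) (l 16789592)) (b (l 16793152) (l 16791528))))) (b (l 16802264) (b (a (b (l 16798064) (l 16796728)) (l 16798992)) (b (a (l 16795104) (l 16796992)) (a (l 16793480) (l 16795536)))))) (a (b (l 16805576) (b (l 16801632) (a (b (l 16798712) (l 16797224)) (l 16799736)))) (b (l 16809352) (b (l 16805352) (l 16802536))))), by decide +kernel⟩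

def k11_A00pm_213_s3 : ∃ t, chk3 f_A00pm_213_s3 t 7 14 1 = true :=
  ⟨(a (b (a (a (b (l 16823800) (l 16818720)) (b (l 16828440) (l 16823560))) (a (b (a (l 16832352) (l 16835208)) (l 16828920)) (b (l 16839872) (l 16834864)))) (a (b (a (l 16813640) (l 16818408)) (a (l 16808112) (l 16812632))) (b (a (l 16823600) (l 16829176)) (a (l 16817464) (b (l 16824328) (l 16820656)))))) (a (b (a (b (l 16846488) (l 16841240)) (b (l 16853464) (l 16847816))) (b (a (l 16835216) (l 16841072)) (a (b (l 16829680) (l 16825552)) (l 16832600)))) (b (a (b (l 16860672) (l 16854512)) (b (l 16867960) (l 16860880))) (b (a (l 16846672) (l 16851848)) (a (l 16836992) (l 16840832)))))), by decide +kernel⟩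

def k12_A00pm_213_s3 : ∃ t, chk3 f_A00pm_213_s3 t 12 30 1 = true :=
  ⟨(b (a (a (l 4) (b (b (a (a (l 4) (a (b (b (l 1076482063) (l 1076502543)) (l 4)) (b (c (l 1076649999) (l 1076327951)) (b (l 1076524047) (l 4))))) (b (a (c (l 1076653583) (l 1076325903)) (l 1076495375)) (a (c (l 1076693007) (a (l 1076371983) (l 1076370447))) (c (l 1076698639) (l 1076369423))))) (b (a (l 4) (a (a (l 4) (a (l 4) (l 1076581391))) (c (l 1076740623) (l 1076417039)))) (a (l 4) (a (l 4) (a (l 4) (l 1076630543)))))) (l 4))) (a (b (a (c (b (a (l 1076685839) (l 1076693007)) (a (l 1076769295) (l 1076776463))) (a (b (b (l 1076323343) (l 1076368399)) (b (l 1076416527) (l 1076467215))) (b (l 1076346895) (c (l 1076529167) (l 1076355087))))) (b (b (l 1076510223) (l 1076552719)) (c (l 1077326351) (a (l 1076444687) (l 1076447247))))) (b (c (a (a (l 4) (l 1076868623)) (a (l 1076876303) (l 1076885007))) (a (a (l 4) (b (l 1076520975) (l 4))) (a (l 1077088271)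 (l 1076554255)))) (a (l 4) (a (l 4) (b (l 1076802575) (l 4)))))) (a (a (b (b (l 1076542479) (l 1076631055)) (b (c (l 1076894735) (l 1076557839)) (b (l 1076809231) (b (l 1076851215) (l 1076879887))))) (b (b (l 1076550671) (l 1076639247)) (a (b (l 1076735503) (b (l 1076814863) (l 1076871183))) (b (l 1076740111) (b (l 1076819471) (l 1076875791)))))) (b (a (b (l 1076560399) (l 1076648975)) (b (l 1076571151) (l 1076660239))) (b (a (b (l 1076720655) (l 1076772879)) (b (l 1076731919) (l 1076783631))) (c (b (l 1076996623) (l 1077047823)) (b (l 1076661775) (l 1076722191)))))))) (a (l 4) (b (b (a (l 4) (a (a (l 4) (l 1076963343)) (c (l 1077129743) (l 1076819983)))) (a (l 4) (a (l 4) (c (l 1077243407) (l 1077491727))))) (l 4)))), by decide +kernel⟩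

def k13_A00pm_213_s3 : ∃ t, chk3 f_A00pm_213_s3 t 13 60 1 = true :=
  ⟨(a (a (b (a (a (b (l 1076583439) (l 1076672015)) (b (l 16788360) (l 1076685327))) (b (l 16789832) (c (l 16788728) (l 16787344)))) (b (a (b (l 1077287951) (l 1076802575)) (a (l 1076798479) (l 1076813327))) (a (b (l 1076856335) (l 1076911631)) (b (l 1076883471) (l 1076938767))))) (b (a (b (l 16791800) (l 16790032)) (b (l 16793792) (l 16792040))) (a (a (b (l 16787656) (l 1076935183)) (b (l 16788664) (l 1076951567))) (b (l 16790176) (c (l 16788784) (l 16787592)))))) (a (a (b (b (a (l 16795344) (l 16796240)) (l 16794056)) (b (l 16792208) (l 16790240))) (b (b (l 16797544) (a (l 16795584) (l 16796424))) (b (a (l 16793752) (l 16794848)) (l 16792320)))) (b (l 16799536) (a (b (a (l 16795704) (l 16796672)) (a (l 16793976) (b (l 16795376) (l 16794536)))) (l 16797096))))), by decide +kernel⟩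

def k14_A00pm_213_s3 : ∃ t, chk3 f_A00pm_213_s3 t 13 61 1 = true :=
  ⟨(a (b (a (b (a (a (l 1076994063) (l 1077006351)) (a (l 1077019663) (l 1077033487))) (a (a (l 1077117967) (b (l 1077095951) (l 1077159439))) (b (l 1077653007) (l 1077715983)))) (c (a (b (l 1077217295) (l 1077864463)) (b (l 1077252623) (l 1077362191))) (a (b (b (l 16784192) (l 1076920847)) (b (l 1076987407) (l 1077056527))) (b (b (l 16786136) (l 16785120)) (b (l 16784048) (l 1077088271)))))) (a (b (a (b (l 1078025231) (l 4)) (a (l 1077273615) (l 1077286927))) (l 4)) (b (a (c (l 1077445135) (l 1078778383)) (c (l 1077478927) (l 1078810127))) (a (c (l 1078106639) (l 1078393359)) (c (l 1078138895) (l 1078961679)))))) (a (b (a (a (b (l 16787616) (l 1077239823)) (b (l 16788648) (l 1077259279))) (b (l 16790224) (c (l 16788424) (l 16787504)))) (b (a (a (l 1077368335) (l 1077387279)) (a (l 1077411343) (l 1077443599))) (a (a (l 1077504527) (l 1077523471)) (b (l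 1078601743) (l 1080815119))))) (a (b (b (l 16792392) (l 16790152)) (b (c (l 16788096) (l 16787368)) (b (l 16785816) (l 16779216)))) (b (b (a (b (l 16794544) (l 16793544)) (l 16794944)) (a (l 16791824) (l 16793016))) (b (l 16789992) (c (l 16777128) (l 16781856))))))), by decide +kernel⟩

def k15_A00pm_213_s3 : ∃ t, chk3 f_A00pm_213_s3 t 7 30 1 = true :=
  ⟨(a (b (a (a (b (l 16803464) (l 16800064)) (b (l 16807696) (l 16804080))) (a (b (l 16812168) (l 16808112)) (b (l 16816568) (l 16812096)))) (a (a (b (a (b (l 16796400) (a (b (l 16794488) (l 16793528)) (l 16794904))) (l 16797288)) (a (b (a (l 16791688) (l 16792840)) (l 16779112)) (b (l 16794072) (b (l 16792448) (l 16791160))))) (b (l 16800008) (a (b (l 16795872) (l 16793424)) (l 16796312)))) (b (a (l 16803648) (l 16807096)) (a (l 16798680) (b (l 16803072) (l 16800280)))))) (a (b (a (b (l 16820904) (l 16815808)) (l 16822192)) (a (b (l 16810320) (b (l 16805952) (l 16802944)))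 (b (l 16813312) (l 16806984)))) (b (a (l 16825480) (l 16828240)) (a (b (l 16815904) (l 16809168)) (b (l 16818000) (l 16810888)))))), by decide +kernel⟩

def k16_A00pm_213_s3 : ∃ t, chk3 f_A00pm_213_s3 t 6 31 1 = true :=
  ⟨(a (l 4) (b (a (b (a (l 4) (b (a (l 4) (c (l 1079343631) (l 1080197135))) (l 4))) (l 4)) (a (b (b (a (b (l 1078154255) (l 1079301135)) (b (a (l 1077650447) (l 1077701135)) (l 1077768207))) (a (b (l 1077755407) (l 4)) (l 1077849615))) (l 4)) (a (b (b (b (l 1077766671) (l 1077836303)) (l 1077924879)) (b (b (l 1077984783) (l 4)) (l 4))) (b (b (b (l 16780008) (l 16783744)) (l 1078532623)) (b (b (l 1078055439) (l 1079703567)) (b (b (l 1079187471) (l 4)) (l 4))))))) (l 4))), by decide +kernel⟩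

def k17_A00pm_213_s3 : ∃ t, chk3 f_A00pm_213_s3 t 28 62 1 = true :=
  ⟨(b (b (a (a (c (l 16786840) (l 16786520)) (l 16788848)) (a (b (a (l 16791240) (l 16792016)) (l 16790264)) (l 16792432))) (a (a (l 1080746511) (b (l 16786480) (l 16782208))) (a (c (l 16782512) (l 16787656)) (b (a (l 16790048) (l 16790824)) (a (l 16788168) (l 16789016)))))) (a (b (a (b (l 1079194639) (a (l 1078140943) (l 1078709263))) (b (l 1080328719) (a (l 1078702095) (l 1078672399)))) (b (a (a (b (l 1078161935) (b (l 1078171663) (l 4))) (b (l 1079247375) (c (b (l 1078697487) (a (l 1078161423) (l 1078148623))) (l 1078168079)))) (a (b (l 1078680591) (b (l 1078133263) (l 1078126607))) (b (l 1078114319) (l 1078637583)))) (b (a (a (l 4) (a (l 4) (c (l 1078140431) (l 1078142991)))) (a (a (a (l 1078127119) (l 1078119951)) (l 1079182863)) (a (l 1078094863) (l 1078080527)))) (a (l 4) (a (a (b (l 1078114319) (l 4)) (b (l 1078099983) (a (l 4) (l 1078090255))))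 (c (c (a (l 1078640655) (l 1078093839)) (l 1078081551)) (l 1078068751))))))) (b (a (b (l 1080809487) (a (l 1078643727) (l 1078079503))) (b (l 16786736) (b (l 16785368) (l 16784464)))) (a (a (b (b (l 1078086671) (l 1078072847)) (b (a (l 1078066703) (l 1078053391)) (b (l 1078051855) (a (l 1078052367) (l 1078039055))))) (b (b (l 1078059535) (l 1078046223)) (b (l 1078033935) (a (l 1079102479) (l 1078552591))))) (b (a (b (l 16783152) (l 1078020111)) (b (l 16783984) (l 16780472))) (c (a (b (l 1078034959) (l 1078026255)) (b (l 16779616) (l 1078005263))) (a (l 1079053327) (l 1078484495)))))))), by decide +kernel⟩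

def k18_A00pm_213_s3 : ∃ t, chk3 f_A00pm_213_s3 t 29 62 1 = true :=
  ⟨(b (b (a (l 16794664) (l 16797384)) (a (a (l 16791104) (l 16792504)) (l 16794400))) (a (b (a (b (a (l 16787968) (l 16788856)) (a (l 16786136) (b (l 16787384) (l 16775952)))) (b (l 16790128) (l 16788192))) (b (a (a (b (l 16784784) (l 16783888)) (l 16779856)) (a (b (l 16786296) (l 16785376)) (l 16791896))) (b (a (a (l 16780376) (l 16783760)) (a (l 16784496) (l 16785208))) (a (a (l 1077941775) (l 16780256)) (a (l 16783616) (l 16784312)))))) (b (l 16793944) (a (a (b (l 16787424) (b (l 16785984) (b (l 16785280) (l 16784800)))) (l 16787232)) (l 16788352))))), by decide +kernel⟩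

def k19_A00pm_213_s3 : ∃ t, chk3 f_A00pm_213_s3 t 15 62 1 = true :=
  ⟨(a (b (a (l 16793048) (l 16795144)) (b (a (l 16793456) (l 16795296)) (a (a (l 16789664) (l 16790592)) (b (l 16792704) (l 16790968))))) (b (a (b (l 16803968) (l 16800432)) (b (l 16805432) (l 16801760))) (a (b (l 16796864) (a (l 16792912) (l 16793552))) (a (l 16795936) (l 16796384))))), by decide +kernel⟩

def k20_A00pm_213_s3 : ∃ t, chk3 f_A00pm_213_s3 t 56 252 1 = true :=
  ⟨(a (l 4) (a (l 4) (b (b (c (a (b (l 1078088207) (l 4)) (b (l 1078076943) (l 1078609423))) (l 1078054927)) (l 4)) (l 4)))), by decide +kernel⟩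

def k21_A00pm_213_s3 : ∃ t, chk3 f_A00pm_213_s3 t 57 252 1 = true :=
  ⟨(a (a (b (c (b (c (a (c (l 1078888463) (l 1078069775)) (l 1078604303)) (l 1078047247)) (c (a (b (l 1078607887) (l 4)) (b (l 1078062095) (a (l 4) (l 1078055951)))) (a (l 1078580239) (l 1078568463)))) (b (l 1078023183) (l 1078278671))) (l 4)) (b (a (b (a (l 1078557711) (l 1078551055)) (b (l 1078547471) (a (l 1078008847) (l 1078002191)))) (b (a (l 1078007823) (l 1078001679)) (b (l 1077997583) (a (l 1077996047) (l 1077989903))))) (b (c (c (b (a (a (l 1078048271) (l 1078044175)) (l 1078574607)) (a (l 4) (a (l 1078305295) (l 1078032399)))) (a (a (l 1078014991) (l 1078009359)) (l 1079074319))) (b (l 1077971983) (l 1077966863))) (l 4)))) (b (b (a (a (a (l 1077995535) (l 1077989391)) (l 1079053327)) (a (l 1078502927) (l 1078488591))) (c (a (a (c (l 1079107599) (l 1077998095)) (c (l 1078562319) (l 1077986831))) (a (l 1079067663) (l 1078519823))) (a (l 1077949967)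 (l 1077916175)))) (c (b (c (a (b (a (l 1078029327) (l 1078021135)) (a (a (l 1078028303) (l 1078024207)) (l 1078823439))) (a (a (l 1078548495) (l 1078006799)) (a (l 1078002191) (l 1077997583)))) (a (a (l 1079063567) (l 1079052303)) (a (l 1078501903) (l 1077953039)))) (c (a (b (b (a (a (l 1078026255) (l 1078022159)) (l 1078014991)) (a (l 4) (l 1078550543))) (a (l 4) (a (l 4) (b (l 1078009871) (l 4))))) (a (a (b (l 1078007311) (a (l 1078005263) (l 1078003215))) (b (l 1078002703) (l 1077999631))) (b (l 1077995535) (a (l 1077995023) (l 1077990927))))) (a (a (b (l 1077984783) (l 4)) (b (l 1077972495) (l 1077968911))) (a (a (l 1078497807) (l 1078491663)) (a (l 1077948943) (l 1077942799)))))) (b (a (b (l 1077942287) (l 1077937167)) (c (l 1077920783) (l 1077889551))) (a (c (a (l 1079560719) (l 1078471695)) (b (l 1077919759) (l 1077915151))) (a (l 1079513615) (l 1078960143))))))), by decide +kernel⟩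

def k22_A00pm_213_s3 : ∃ t, chk3 f_A00pm_213_s3 t 28 253 1 = true :=
  ⟨(a (l 4) (a (l 4) (a (l 4) (b (b (c (c (b (b (a (a (l 4) (l 1077997583)) (a (l 1077993487) (l 1077988879))) (a (l 4) (a (l 1077991951) (l 1077987855)))) (b (a (l 4) (a (l 4) (l 1077986319))) (l 4))) (a (b (l 1077953551) (l 4)) (b (l 1077941775) (l 1078475791)))) (a (a (l 4) (l 1078427663)) (a (l 1078419471) (l 1077874191)))) (l 4)) (l 4))))), by decide +kernel⟩

def k23_A00pm_213_s3 : ∃ t, chk3 f_A00pm_213_s3 t 29 252 1 = true :=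
  ⟨(a (a (b (a (a (b (l 1077937679) (a (l 1077931023) (l 1077924367))) (b (l 1077923855) (l 1078987791))) (a (b (l 1077910543) (l 1078437903)) (b (l 16782184) (l 1078425103)))) (a (a (b (b (l 1077921295) (l 1077917199)) (b (a (l 1077916175) (l 1077910031)) (b (l 1077910543) (l 1078446095)))) (b (b (l 1077907983) (l 1077903887)) (b (l 1078436879) (a (l 1077899791) (l 1077893647))))) (a (b (c (l 1079018511) (l 1077847567)) (b (l 1077887503) (a (l 1077886991) (l 1077880847)))) (b (c (l 1078471695) (l 1077832207)) (b (l 1077875215) (l 1078408719)))))) (b (a (a (b (l 16782552) (l 1078412815)) (b (l 16782912) (l 16782040))) (b (l 16783440) (c (l 16782640) (l 16782488)))) (a (a (b (c (l 1078462479) (l 16780760)) (b (l 1077863439) (l 1077859855))) (b (l 1079466511) (b (l 1077851663) (l 14)))) (a (b (l 1078918671) (l 14)) (l 14))))) (b (a (b (a (a (l 16783944) (l 16789520)) (l 16784848)) (l 14)) (l 16785448)) (l 14))), by decide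 +kernel⟩

def k24_A00pm_213_s3 : ∃ t, chk3 f_A00pm_213_s3 t 29 253 1 = true :=
  ⟨(a (a (b (c (a (c (b (b (a (a (l 1077983759) (l 1077979663)) (a (l 1077975567) (l 1077971471))) (c (a (a (b (l 1077996047) (l 1077995023)) (a (l 1077992463) (l 1077990927))) (a (l 1078524943) (l 1077984271))) (a (a (l 1077967887) (l 1077963279)) (l 1078493711)))) (b (b (c (b (a (a (l 4) (l 1077990415)) (a (l 1077986831) (l 1077983247))) (a (l 4) (a (l 1077986319) (l 1077982735)))) (a (l 1078567951) (l 1077955087))) (a (l 4) (a (a (l 4) (l 1077969935)) (a (l 1077967887) (l 1077965839))))) (b (b (a (l 4) (a (l 4) (l 1078234639))) (l 4)) (l 4)))) (a (b (b (l 1077929999) (l 1077926927)) (a (l 4) (b (l 1077921807) (l 4)))) (b (a (l 1078456335) (l 1078450703)) (b (l 1078450191) (a (l 4) (l 1077908495)))))) (a (a (b (b (l 1077937679) (l 1078472207)) (c (c (b (b (l 1077979151) (l 1077978127)) (a (b (l 1077978127) (l 4)) (b (l 1077976591) (a (l 4)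 (l 1077975055))))) (b (l 1077947919) (l 1078482959))) (b (l 1077905423) (l 1077903375)))) (b (b (l 1077933071) (l 1077931023)) (c (b (c (l 1078512143) (l 1077943823)) (b (l 1077958159) (b (l 1077957647) (l 14)))) (b (l 1077899791) (l 1077898255))))) (a (b (b (l 1077928463) (l 1077926415)) (b (a (l 1077925391) (l 1077923343)) (l 14))) (b (b (l 1077923855) (l 1077921807)) (l 14))))) (a (b (a (c (l 1078956047) (l 1078380559)) (c (l 1078941711) (l 1077826575))) (a (b (l 1077858319) (l 4)) (b (l 1077842959) (l 1077840399)))) (b (a (l 1079441935) (l 1079427087)) (a (a (l 1079439887) (l 1078895631)) (a (l 1078887951) (l 14)))))) (a (l 4) (a (a (l 4) (l 14)) (l 14)))) (b (a (a (a (b (b (l 1077859855) (l 14)) (l 14)) (l 14)) (l 14)) (l 14)) (l 14))) (l 14)), by decide +kernel⟩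

def k25_A00pm_213_s3 : ∃ t, chk3 f_A00pm_213_s3 t 15 126 1 = true :=
  ⟨(b (b (a (a (a (l 16786816) (l 16788048)) (l 16789216)) (b (a (l 16790976) (l 16791952)) (l 14))) (l 14)) (l 14)), by decide +kernel⟩

def k26_A00pm_213_s3 : ∃ t, chk3 f_A00pm_213_s3 t 7 127 1 = true :=
  ⟨(a (a (l 4) (a (a (l 4) (l 14)) (l 14))) (l 14)), by decide +kernel⟩

theorem t27_A00pm_213_s3 : ∃ t, chk3 f_A00pm_213_s3 t 29 126 1 = true := ex3_b k23_A00pm_213_s3 k24_A00pm_213_s3

theorem t28_A00pm_213_s3 : ∃ t, chk3 f_A00pm_213_s3 t 28 252 1 = true := ex3_a k20_A00pm_213_s3 k21_A00pm_213_s3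

theorem t29_A00pm_213_s3 : ∃ t, chk3 f_A00pm_213_s3 t 28 126 1 = true := ex3_b t28_A00pm_213_s3 k22_A00pm_213_s3

theorem t30_A00pm_213_s3 : ∃ t, chk3 f_A00pm_213_s3 t 14 126 1 = true := ex3_a t29_A00pm_213_s3 t27_A00pm_213_s3

theorem t31_A00pm_213_s3 : ∃ t, chk3 f_A00pm_213_s3 t 7 126 1 = true := ex3_a t30_A00pm_213_s3 k25_A00pm_213_s3

theorem t32_A00pm_213_s3 : ∃ t, chk3 f_A00pm_213_s3 t 7 63 1 = true := ex3_b t31_A00pm_213_s3 k26_A00pm_213_s3

theorem t33_A00pm_213_s3 : ∃ t, chk3 f_A00pm_213_s3 t 14 62 1 = true := ex3_a k17_A00pm_213_s3 k18_A00pm_213_s3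

theorem t34_A00pm_213_s3 : ∃ t, chk3 f_A00pm_213_s3 t 7 62 1 = true := ex3_a t33_A00pm_213_s3 k19_A00pm_213_s3

theorem t35_A00pm_213_s3 : ∃ t, chk3 f_A00pm_213_s3 t 7 31 1 = true := ex3_b t34_A00pm_213_s3 t32_A00pm_213_s3

theorem t36_A00pm_213_s3 : ∃ t, chk3 f_A00pm_213_s3 t 3 31 1 = true := ex3_a k16_A00pm_213_s3 t35_A00pm_213_s3

theorem t37_A00pm_213_s3 : ∃ t, chk3 f_A00pm_213_s3 t 13 30 1 = true := ex3_b k13_A00pm_213_s3 k14_A00pm_213_s3

theorem t38_A00pm_213_s3 : ∃ t, chk3 f_A00pm_213_s3 t 6 30 1 = true := ex3_a k12_A00pm_213_s3 t37_A00pm_213_s3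

theorem t39_A00pm_213_s3 : ∃ t, chk3 f_A00pm_213_s3 t 3 30 1 = true := ex3_a t38_A00pm_213_s3 k15_A00pm_213_s3

theorem t40_A00pm_213_s3 : ∃ t, chk3 f_A00pm_213_s3 t 3 15 1 = true := ex3_b t39_A00pm_213_s3 t36_A00pm_213_s3

theorem t41_A00pm_213_s3 : ∃ t, chk3 f_A00pm_213_s3 t 12 29 1 = true := ex3_b k8_A00pm_213_s3 k9_A00pm_213_s3

theorem t42_A00pm_213_s3 : ∃ t, chk3 f_A00pm_213_s3 t 6 29 1 = true := ex3_a t41_A00pm_213_s3 k10_A00pm_213_s3

theorem t43_A00pm_213_s3 : ∃ t, chk3 f_A00pm_213_s3 t 6 14 1 = true := ex3_b k7_A00pm_213_s3 t42_A00pm_213_s3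

theorem t44_A00pm_213_s3 : ∃ t, chk3 f_A00pm_213_s3 t 3 14 1 = true := ex3_a t43_A00pm_213_s3 k11_A00pm_213_s3

theorem t45_A00pm_213_s3 : ∃ t, chk3 f_A00pm_213_s3 t 3 7 1 = true := ex3_b t44_A00pm_213_s3 t40_A00pm_213_s3

theorem t46_A00pm_213_s3 : ∃ t, chk3 f_A00pm_213_s3 t 3 6 1 = true := ex3_a k5_A00pm_213_s3 k6_A00pm_213_s3

theorem t47_A00pm_213_s3 : ∃ t, chk3 f_A00pm_213_s3 t 3 3 1 = true := ex3_b t46_A00pm_213_s3 t45_A00pm_213_s3

theorem t48_A00pm_213_s3 : ∃ t, chk3 f_A00pm_213_s3 t 3 1 1 = true := ex3_b k4_A00pm_213_s3 t47_A00pm_213_s3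

theorem t49_A00pm_213_s3 : ∃ t, chk3 f_A00pm_213_s3 t 2 6 1 = true := ex3_b k1_A00pm_213_s3 k2_A00pm_213_s3

theorem t50_A00pm_213_s3 : ∃ t, chk3 f_A00pm_213_s3 t 2 3 1 = true := ex3_b t49_A00pm_213_s3 k3_A00pm_213_s3

theorem t51_A00pm_213_s3 : ∃ t, chk3 f_A00pm_213_s3 t 2 1 1 = true := ex3_b k0_A00pm_213_s3 t50_A00pm_213_s3

theorem t52_A00pm_213_s3 : ∃ t, chk3 f_A00pm_213_s3 t 1 1 1 = true := ex3_a t51_A00pm_213_s3 t48_A00pm_213_s3

theorem c_A00pm_213_s3 : CertF 0 536870912 536870912 536870912 536870912 50465866 true true false .pnn 2 1 3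
    ndB0q2 ndB0q1 pcB3 cut_A00pm_213_s3 xt_A00pm_213_s3 :=
  certF1 (fam := true) (s1 := true) (s2 := false) (a := 2) (b := 1) (c := 3) (cn := .pnn) (n1 := ndB0q2) (n2 := ndB0q1) (pc := pcB3) (cut := cut_A00pm_213_s3) (xt := xt_A00pm_213_s3) (P1 := 0) (W1 := 536870912) (P2 := 536870912) (W2 := 536870912) (P3 := 536870912) (W3 := 50465866)
    rfl (fun _ => rfl) t52_A00pm_213_s3

theorem s_A00pm_213_s3 {κ x : ℝ} (hκ : κ * h0 = ken x) (hx : ((536870912 : ℕ) : ℝ) / S ≤ x)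
    (hx' : x ≤ (((536870912 : ℕ) : ℝ) + (50465866 : ℕ)) / S)
    (H : CutA (VFD κ) PP tK tL pcB (Cut.of [[⟨0, 1, 0, 67108864⟩, ⟨1, 1, 0, 67108864⟩, ⟨2, 2, 0, 16777216⟩], [⟨0, 1, 0, 33554432⟩, ⟨1, 0, 1, 20971520⟩, ⟨2, 1, 1, 20971520⟩]]) 2 1 3 0 0 (sgb true) (sgb false) x) :
    AltA (VFD κ) PP tK tL pcB [⟨4, 0, 0, 2845415833⟩] 2 1 3 0 0 (sgb true) (sgb false) x :=
  strip_altAD (m := 2845415833) false rfl hκ (SH.κ0 hκ (SH.hx1 hx).le (SH.hx2 hx').le) (SH.hx1 hx).le (SH.hx2 hx') (covB02).cov (covB01).cov hx hx' c_A00pm_213_s3 H ((okx6 hx hx').extA (T := tt) (okx hx hx') (sideB hx hx') hκ rfl rfl (.O 2 true) (.O 1 false) (Or.inr rfl))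

noncomputable def cut_A00mm_001_s1 : Cut := Cut.of [[⟨4, 0, 0, 1449551462⟩]]

noncomputable def f_A00mm_001_s1 : ℕ → ℕ → ℕ → ℕ → Bool := onCell 0 536870912 0 536870912 536870912 50465866
    (rowF 0 true false false .up 0 0 1 (qsf 0 536870912 0 536870912 1) ndB0q0 ndB0q0 pcB1 cut_A00mm_001_s1 Ext.none)

def k0_A00mm_001_s1 : ∃ t, chk3 f_A00mm_001_s1 t 1 1 1 = true :=
  ⟨(l 4), by decide +kernel⟩

theorem c_A00mm_001_s1 : CertF 0 536870912 0 536870912 536870912 50465866 true false false .up 0 0 1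
    ndB0q0 ndB0q0 pcB1 cut_A00mm_001_s1 Ext.none :=
  certF0 (fam := true) (s1 := false) (s2 := false) (a := 0) (b := 0) (c := 1) (cn := .up) (n1 := ndB0q0) (n2 := ndB0q0) (pc := pcB1) (cut := cut_A00mm_001_s1) (xt := Ext.none) (P1 := 0) (W1 := 536870912) (P2 := 0) (W2 := 536870912) (P3 := 536870912) (W3 := 50465866)
    rfl k0_A00mm_001_s1

theorem s_A00mm_001_s1 {κ x : ℝ} (hκ : κ * h0 = ken x) (hx : ((536870912 : ℕ) : ℝ) / S ≤ x)
    (hx' : x ≤ (((536870912 : ℕ) : ℝ) + (50465866 : ℕ)) / S) :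
    AltA (VFD κ) PP tK tL pcB [⟨3, 0, 0, 1449551462⟩] 0 0 1 0 0 (sgb false) (sgb false) x :=
  strip_altAD (m := 1449551462) true rfl hκ (SH.κ0 hκ (SH.hx1 hx).le (SH.hx2 hx').le) (SH.hx1 hx).le (SH.hx2 hx') (covB00).cov (covB00).cov hx hx' c_A00mm_001_s1 cutA_nil (noExt_A)

noncomputable def cut_A00mm_001_s3 : Cut := Cut.of [[⟨3, 0, 0, 2845415833⟩]]

noncomputable def f_A00mm_001_s3 : ℕ → ℕ → ℕ → ℕ → Bool := onCell 0 536870912 0 536870912 536870912 50465866
    (rowF 0 true false false .up 0 0 1 (qsf 0 536870912 0 536870912 1) ndB0q0 ndB0q0 pcB1 cut_A00mm_001_s3 Ext.none)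

def k0_A00mm_001_s3 : ∃ t, chk3 f_A00mm_001_s3 t 1 1 1 = true :=
  ⟨(l 4), by decide +kernel⟩

theorem c_A00mm_001_s3 : CertF 0 536870912 0 536870912 536870912 50465866 true false false .up 0 0 1
    ndB0q0 ndB0q0 pcB1 cut_A00mm_001_s3 Ext.none :=
  certF0 (fam := true) (s1 := false) (s2 := false) (a := 0) (b := 0) (c := 1) (cn := .up) (n1 := ndB0q0) (n2 := ndB0q0) (pc := pcB1) (cut := cut_A00mm_001_s3) (xt := Ext.none) (P1 := 0) (W1 := 536870912) (P2 := 0) (W2 := 536870912) (P3 := 536870912) (W3 := 50465866)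
    rfl k0_A00mm_001_s3

theorem s_A00mm_001_s3 {κ x : ℝ} (hκ : κ * h0 = ken x) (hx : ((536870912 : ℕ) : ℝ) / S ≤ x)
    (hx' : x ≤ (((536870912 : ℕ) : ℝ) + (50465866 : ℕ)) / S) :
    AltA (VFD κ) PP tK tL pcB [⟨4, 0, 0, 2845415833⟩] 0 0 1 0 0 (sgb false) (sgb false) x :=
  strip_altAD (m := 2845415833) false rfl hκ (SH.κ0 hκ (SH.hx1 hx).le (SH.hx2 hx').le) (SH.hx1 hx).le (SH.hx2 hx') (covB00).cov (covB00).cov hx hx' c_A00mm_001_s3 cutA_nil (noExt_A)

noncomputable def cut_A00mm_011_s1 : Cut := Cut.of [[⟨4, 0, 0, 1449551462⟩]]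

noncomputable def f_A00mm_011_s1 : ℕ → ℕ → ℕ → ℕ → Bool := onCell 0 536870912 536870912 536870912 536870912 50465866
    (rowF 0 true false false .pnn 0 1 1 (qsf 0 536870912 536870912 536870912 1) ndB0q0 ndB0q1 pcB1 cut_A00mm_011_s1 Ext.none)

def k0_A00mm_011_s1 : ∃ t, chk3 f_A00mm_011_s1 t 1 1 1 = true :=
  ⟨(l 6), by decide +kernel⟩

theorem c_A00mm_011_s1 : CertF 0 536870912 536870912 536870912 536870912 50465866 true false false .pnn 0 1 1
    ndB0q0 ndB0q1 pcB1 cut_A00mm_011_s1 Ext.none :=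
  certF0 (fam := true) (s1 := false) (s2 := false) (a := 0) (b := 1) (c := 1) (cn := .pnn) (n1 := ndB0q0) (n2 := ndB0q1) (pc := pcB1) (cut := cut_A00mm_011_s1) (xt := Ext.none) (P1 := 0) (W1 := 536870912) (P2 := 536870912) (W2 := 536870912) (P3 := 536870912) (W3 := 50465866)
    rfl k0_A00mm_011_s1

theorem s_A00mm_011_s1 {κ x : ℝ} (hκ : κ * h0 = ken x) (hx : ((536870912 : ℕ) : ℝ) / S ≤ x)
    (hx' : x ≤ (((536870912 : ℕ) : ℝ) + (50465866 : ℕ)) / S) :
    AltA (VFD κ) PP tK tL pcB [⟨3, 0, 0, 1449551462⟩] 0 1 1 0 0 (sgb false) (sgb false) x :=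
  strip_altAD (m := 1449551462) true rfl hκ (SH.κ0 hκ (SH.hx1 hx).le (SH.hx2 hx').le) (SH.hx1 hx).le (SH.hx2 hx') (covB00).cov (covB01).cov hx hx' c_A00mm_011_s1 cutA_nil (noExt_A)

noncomputable def cut_A00mm_011_s3 : Cut := Cut.of [[⟨3, 0, 0, 2845415833⟩]]

noncomputable def f_A00mm_011_s3 : ℕ → ℕ → ℕ → ℕ → Bool := onCell 0 536870912 536870912 536870912 536870912 50465866
    (rowF 0 true false false .pnn 0 1 1 (qsf 0 536870912 536870912 536870912 1) ndB0q0 ndB0q1 pcB1 cut_A00mm_011_s3 Ext.none)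

def k0_A00mm_011_s3 : ∃ t, chk3 f_A00mm_011_s3 t 1 1 1 = true :=
  ⟨(a (l 5) (l 4)), by decide +kernel⟩

theorem c_A00mm_011_s3 : CertF 0 536870912 536870912 536870912 536870912 50465866 true false false .pnn 0 1 1
    ndB0q0 ndB0q1 pcB1 cut_A00mm_011_s3 Ext.none :=
  certF0 (fam := true) (s1 := false) (s2 := false) (a := 0) (b := 1) (c := 1) (cn := .pnn) (n1 := ndB0q0) (n2 := ndB0q1) (pc := pcB1) (cut := cut_A00mm_011_s3) (xt := Ext.none) (P1 := 0) (W1 := 536870912) (P2 := 536870912) (W2 := 536870912) (P3 := 536870912) (W3 := 50465866)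
    rfl k0_A00mm_011_s3

theorem s_A00mm_011_s3 {κ x : ℝ} (hκ : κ * h0 = ken x) (hx : ((536870912 : ℕ) : ℝ) / S ≤ x)
    (hx' : x ≤ (((536870912 : ℕ) : ℝ) + (50465866 : ℕ)) / S) :
    AltA (VFD κ) PP tK tL pcB [⟨4, 0, 0, 2845415833⟩] 0 1 1 0 0 (sgb false) (sgb false) x :=
  strip_altAD (m := 2845415833) false rfl hκ (SH.κ0 hκ (SH.hx1 hx).le (SH.hx2 hx').le) (SH.hx1 hx).le (SH.hx2 hx') (covB00).cov (covB01).cov hx hx' c_A00mm_011_s3 cutA_nil (noExt_A)

noncomputable def cut_A00mm_012_s1 : Cut := Cut.of [[⟨4, 0, 0, 1449551462⟩]]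

noncomputable def f_A00mm_012_s1 : ℕ → ℕ → ℕ → ℕ → Bool := onCell 0 536870912 536870912 536870912 536870912 50465866
    (rowF 0 true false false .pnp 0 1 2 (qsf 0 536870912 536870912 536870912 2) ndB0q0 ndB0q1 pcB2 cut_A00mm_012_s1 Ext.none)

def k0_A00mm_012_s1 : ∃ t, chk3 f_A00mm_012_s1 t 1 1 1 = true :=
  ⟨(l 6), by decide +kernel⟩

theorem c_A00mm_012_s1 : CertF 0 536870912 536870912 536870912 536870912 50465866 true false false .pnp 0 1 2
    ndB0q0 ndB0q1 pcB2 cut_A00mm_012_s1 Ext.none :=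
  certF0 (fam := true) (s1 := false) (s2 := false) (a := 0) (b := 1) (c := 2) (cn := .pnp) (n1 := ndB0q0) (n2 := ndB0q1) (pc := pcB2) (cut := cut_A00mm_012_s1) (xt := Ext.none) (P1 := 0) (W1 := 536870912) (P2 := 536870912) (W2 := 536870912) (P3 := 536870912) (W3 := 50465866)
    rfl k0_A00mm_012_s1

theorem s_A00mm_012_s1 {κ x : ℝ} (hκ : κ * h0 = ken x) (hx : ((536870912 : ℕ) : ℝ) / S ≤ x)
    (hx' : x ≤ (((536870912 : ℕ) : ℝ) + (50465866 : ℕ)) / S) :
    AltA (VFD κ) PP tK tL pcB [⟨3, 0, 0, 1449551462⟩] 0 1 2 0 0 (sgb false) (sgb false) x :=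
  strip_altAD (m := 1449551462) true rfl hκ (SH.κ0 hκ (SH.hx1 hx).le (SH.hx2 hx').le) (SH.hx1 hx).le (SH.hx2 hx') (covB00).cov (covB01).cov hx hx' c_A00mm_012_s1 cutA_nil (noExt_A)

noncomputable def cut_A00mm_012_s3 : Cut := Cut.of [[⟨3, 0, 0, 2845415833⟩]]

noncomputable def f_A00mm_012_s3 : ℕ → ℕ → ℕ → ℕ → Bool := onCell 0 536870912 536870912 536870912 536870912 50465866
    (rowF 0 true false false .pnp 0 1 2 (qsf 0 536870912 536870912 536870912 2) ndB0q0 ndB0q1 pcB2 cut_A00mm_012_s3 Ext.none)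

def k0_A00mm_012_s3 : ∃ t, chk3 f_A00mm_012_s3 t 1 1 1 = true :=
  ⟨(b (l 4) (l 5)), by decide +kernel⟩

theorem c_A00mm_012_s3 : CertF 0 536870912 536870912 536870912 536870912 50465866 true false false .pnp 0 1 2
    ndB0q0 ndB0q1 pcB2 cut_A00mm_012_s3 Ext.none :=
  certF0 (fam := true) (s1 := false) (s2 := false) (a := 0) (b := 1) (c := 2) (cn := .pnp) (n1 := ndB0q0) (n2 := ndB0q1) (pc := pcB2) (cut := cut_A00mm_012_s3) (xt := Ext.none) (P1 := 0) (W1 := 536870912) (P2 := 536870912) (W2 := 536870912) (P3 := 536870912) (W3 := 50465866)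
    rfl k0_A00mm_012_s3

theorem s_A00mm_012_s3 {κ x : ℝ} (hκ : κ * h0 = ken x) (hx : ((536870912 : ℕ) : ℝ) / S ≤ x)
    (hx' : x ≤ (((536870912 : ℕ) : ℝ) + (50465866 : ℕ)) / S) :
    AltA (VFD κ) PP tK tL pcB [⟨4, 0, 0, 2845415833⟩] 0 1 2 0 0 (sgb false) (sgb false) x :=
  strip_altAD (m := 2845415833) false rfl hκ (SH.κ0 hκ (SH.hx1 hx).le (SH.hx2 hx').le) (SH.hx1 hx).le (SH.hx2 hx') (covB00).cov (covB01).cov hx hx' c_A00mm_012_s3 cutA_nil (noExt_A)

noncomputable def cut_A00mm_022_s1 : Cut := Cut.of [[⟨4, 0, 0, 1449551462⟩]]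

noncomputable def f_A00mm_022_s1 : ℕ → ℕ → ℕ → ℕ → Bool := onCell 0 536870912 0 536870912 536870912 50465866
    (rowF 0 true false false .pp 0 2 2 (qsf 0 536870912 0 536870912 2) ndB0q0 ndB0q2 pcB2 cut_A00mm_022_s1 Ext.none)

def k0_A00mm_022_s1 : ∃ t, chk3 f_A00mm_022_s1 t 1 1 1 = true :=
  ⟨(l 5), by decide +kernel⟩

theorem c_A00mm_022_s1 : CertF 0 536870912 0 536870912 536870912 50465866 true false false .pp 0 2 2
    ndB0q0 ndB0q2 pcB2 cut_A00mm_022_s1 Ext.none :=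
  certF0 (fam := true) (s1 := false) (s2 := false) (a := 0) (b := 2) (c := 2) (cn := .pp) (n1 := ndB0q0) (n2 := ndB0q2) (pc := pcB2) (cut := cut_A00mm_022_s1) (xt := Ext.none) (P1 := 0) (W1 := 536870912) (P2 := 0) (W2 := 536870912) (P3 := 536870912) (W3 := 50465866)
    rfl k0_A00mm_022_s1

theorem s_A00mm_022_s1 {κ x : ℝ} (hκ : κ * h0 = ken x) (hx : ((536870912 : ℕ) : ℝ) / S ≤ x)
    (hx' : x ≤ (((536870912 : ℕ) : ℝ) + (50465866 : ℕ)) / S) :
    AltA (VFD κ) PP tK tL pcB [⟨3, 0, 0, 1449551462⟩] 0 2 2 0 0 (sgb false) (sgb false) x :=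
  strip_altAD (m := 1449551462) true rfl hκ (SH.κ0 hκ (SH.hx1 hx).le (SH.hx2 hx').le) (SH.hx1 hx).le (SH.hx2 hx') (covB00).cov (covB02).cov hx hx' c_A00mm_022_s1 cutA_nil (noExt_A)

noncomputable def cut_A00mm_022_s3 : Cut := Cut.of [[⟨3, 0, 0, 2845415833⟩]]

noncomputable def f_A00mm_022_s3 : ℕ → ℕ → ℕ → ℕ → Bool := onCell 0 536870912 0 536870912 536870912 50465866
    (rowF 0 true false false .pp 0 2 2 (qsf 0 536870912 0 536870912 2) ndB0q0 ndB0q2 pcB2 cut_A00mm_022_s3 Ext.none)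

def k0_A00mm_022_s3 : ∃ t, chk3 f_A00mm_022_s3 t 1 1 1 = true :=
  ⟨(l 5), by decide +kernel⟩

theorem c_A00mm_022_s3 : CertF 0 536870912 0 536870912 536870912 50465866 true false false .pp 0 2 2
    ndB0q0 ndB0q2 pcB2 cut_A00mm_022_s3 Ext.none :=
  certF0 (fam := true) (s1 := false) (s2 := false) (a := 0) (b := 2) (c := 2) (cn := .pp) (n1 := ndB0q0) (n2 := ndB0q2) (pc := pcB2) (cut := cut_A00mm_022_s3) (xt := Ext.none) (P1 := 0) (W1 := 536870912) (P2 := 0) (W2 := 536870912) (P3 := 536870912) (W3 := 50465866)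
    rfl k0_A00mm_022_s3

theorem s_A00mm_022_s3 {κ x : ℝ} (hκ : κ * h0 = ken x) (hx : ((536870912 : ℕ) : ℝ) / S ≤ x)
    (hx' : x ≤ (((536870912 : ℕ) : ℝ) + (50465866 : ℕ)) / S) :
    AltA (VFD κ) PP tK tL pcB [⟨4, 0, 0, 2845415833⟩] 0 2 2 0 0 (sgb false) (sgb false) x :=
  strip_altAD (m := 2845415833) false rfl hκ (SH.κ0 hκ (SH.hx1 hx).le (SH.hx2 hx').le) (SH.hx1 hx).le (SH.hx2 hx') (covB00).cov (covB02).cov hx hx' c_A00mm_022_s3 cutA_nil (noExt_A)

noncomputable def cut_A00mm_023_s1 : Cut := Cut.of [[⟨4, 0, 0, 1449551462⟩]]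

noncomputable def f_A00mm_023_s1 : ℕ → ℕ → ℕ → ℕ → Bool := onCell 0 536870912 0 536870912 536870912 50465866
    (rowF 0 true false false .up 0 2 3 (qsf 0 536870912 0 536870912 3) ndB0q0 ndB0q2 pcB3 cut_A00mm_023_s1 Ext.none)

def k0_A00mm_023_s1 : ∃ t, chk3 f_A00mm_023_s1 t 1 1 1 = true :=
  ⟨(l 5), by decide +kernel⟩

theorem c_A00mm_023_s1 : CertF 0 536870912 0 536870912 536870912 50465866 true false false .up 0 2 3
    ndB0q0 ndB0q2 pcB3 cut_A00mm_023_s1 Ext.none :=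
  certF0 (fam := true) (s1 := false) (s2 := false) (a := 0) (b := 2) (c := 3) (cn := .up) (n1 := ndB0q0) (n2 := ndB0q2) (pc := pcB3) (cut := cut_A00mm_023_s1) (xt := Ext.none) (P1 := 0) (W1 := 536870912) (P2 := 0) (W2 := 536870912) (P3 := 536870912) (W3 := 50465866)
    rfl k0_A00mm_023_s1

theorem s_A00mm_023_s1 {κ x : ℝ} (hκ : κ * h0 = ken x) (hx : ((536870912 : ℕ) : ℝ) / S ≤ x)
    (hx' : x ≤ (((536870912 : ℕ) : ℝ) + (50465866 : ℕ)) / S) :
    AltA (VFD κ) PP tK tL pcB [⟨3, 0, 0, 1449551462⟩] 0 2 3 0 0 (sgb false) (sgb false) x :=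
  strip_altAD (m := 1449551462) true rfl hκ (SH.κ0 hκ (SH.hx1 hx).le (SH.hx2 hx').le) (SH.hx1 hx).le (SH.hx2 hx') (covB00).cov (covB02).cov hx hx' c_A00mm_023_s1 cutA_nil (noExt_A)

noncomputable def cut_A00mm_023_s3 : Cut := Cut.of [[⟨3, 0, 0, 2845415833⟩]]

noncomputable def f_A00mm_023_s3 : ℕ → ℕ → ℕ → ℕ → Bool := onCell 0 536870912 0 536870912 536870912 50465866
    (rowF 0 true false false .up 0 2 3 (qsf 0 536870912 0 536870912 3) ndB0q0 ndB0q2 pcB3 cut_A00mm_023_s3 Ext.none)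

def k0_A00mm_023_s3 : ∃ t, chk3 f_A00mm_023_s3 t 1 1 1 = true :=
  ⟨(l 5), by decide +kernel⟩

theorem c_A00mm_023_s3 : CertF 0 536870912 0 536870912 536870912 50465866 true false false .up 0 2 3
    ndB0q0 ndB0q2 pcB3 cut_A00mm_023_s3 Ext.none :=
  certF0 (fam := true) (s1 := false) (s2 := false) (a := 0) (b := 2) (c := 3) (cn := .up) (n1 := ndB0q0) (n2 := ndB0q2) (pc := pcB3) (cut := cut_A00mm_023_s3) (xt := Ext.none) (P1 := 0) (W1 := 536870912) (P2 := 0) (W2 := 536870912) (P3 := 536870912) (W3 := 50465866)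
    rfl k0_A00mm_023_s3

theorem s_A00mm_023_s3 {κ x : ℝ} (hκ : κ * h0 = ken x) (hx : ((536870912 : ℕ) : ℝ) / S ≤ x)
    (hx' : x ≤ (((536870912 : ℕ) : ℝ) + (50465866 : ℕ)) / S) :
    AltA (VFD κ) PP tK tL pcB [⟨4, 0, 0, 2845415833⟩] 0 2 3 0 0 (sgb false) (sgb false) x :=
  strip_altAD (m := 2845415833) false rfl hκ (SH.κ0 hκ (SH.hx1 hx).le (SH.hx2 hx').le) (SH.hx1 hx).le (SH.hx2 hx') (covB00).cov (covB02).cov hx hx' c_A00mm_023_s3 cutA_nil (noExt_A)

noncomputable def cut_A00mm_101_s1 : Cut := Cut.of [[⟨4, 0, 0, 1449551462⟩], [⟨0, 1, 0, 67108864⟩, ⟨1, 0, 0, 67108864⟩, ⟨2, 1, 0, 67108864⟩]]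

noncomputable def f_A00mm_101_s1 : ℕ → ℕ → ℕ → ℕ → Bool := onCell 536870912 536870912 0 536870912 536870912 50465866
    (rowF 0 true false false .npn 1 0 1 (qsf 536870912 536870912 0 536870912 1) ndB0q1 ndB0q0 pcB1 cut_A00mm_101_s1 Ext.none)

def k0_A00mm_101_s1 : ∃ t, chk3 f_A00mm_101_s1 t 1 1 1 = true :=
  ⟨(l 6), by decide +kernel⟩

theorem c_A00mm_101_s1 : CertF 536870912 536870912 0 536870912 536870912 50465866 true false false .npn 1 0 1
    ndB0q1 ndB0q0 pcB1 cut_A00mm_101_s1 Ext.none :=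
  certF0 (fam := true) (s1 := false) (s2 := false) (a := 1) (b := 0) (c := 1) (cn := .npn) (n1 := ndB0q1) (n2 := ndB0q0) (pc := pcB1) (cut := cut_A00mm_101_s1) (xt := Ext.none) (P1 := 536870912) (W1 := 536870912) (P2 := 0) (W2 := 536870912) (P3 := 536870912) (W3 := 50465866)
    rfl k0_A00mm_101_s1

theorem s_A00mm_101_s1 {κ x : ℝ} (hκ : κ * h0 = ken x) (hx : ((536870912 : ℕ) : ℝ) / S ≤ x)
    (hx' : x ≤ (((536870912 : ℕ) : ℝ) + (50465866 : ℕ)) / S)
    (H : CutA (VFD κ) PP tK tL pcB (Cut.of [[⟨0, 1, 0, 67108864⟩, ⟨1, 0, 0, 67108864⟩, ⟨2, 1, 0, 67108864⟩]]) 1 0 1 0 0 (sgb false) (sgb false) x) :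
    AltA (VFD κ) PP tK tL pcB [⟨3, 0, 0, 1449551462⟩] 1 0 1 0 0 (sgb false) (sgb false) x :=
  strip_altAD (m := 1449551462) true rfl hκ (SH.κ0 hκ (SH.hx1 hx).le (SH.hx2 hx').le) (SH.hx1 hx).le (SH.hx2 hx') (covB01).cov (covB00).cov hx hx' c_A00mm_101_s1 H (noExt_A)

noncomputable def cut_A00mm_101_s3 : Cut := Cut.of [[⟨3, 0, 0, 2845415833⟩], [⟨0, 1, 0, 67108864⟩, ⟨1, 0, 0, 67108864⟩, ⟨2, 1, 0, 67108864⟩]]

noncomputable def f_A00mm_101_s3 : ℕ → ℕ → ℕ → ℕ → Bool := onCell 536870912 536870912 0 536870912 536870912 50465866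
    (rowF 0 true false false .npn 1 0 1 (qsf 536870912 536870912 0 536870912 1) ndB0q1 ndB0q0 pcB1 cut_A00mm_101_s3 Ext.none)

def k0_A00mm_101_s3 : ∃ t, chk3 f_A00mm_101_s3 t 1 1 1 = true :=
  ⟨(a (l 4) (b (a (l 4) (b (a (l 4) (b (a (l 4) (b (l 14) (l 4))) (l 4))) (l 4))) (l 4))), by decide +kernel⟩

theorem c_A00mm_101_s3 : CertF 536870912 536870912 0 536870912 536870912 50465866 true false false .npn 1 0 1
    ndB0q1 ndB0q0 pcB1 cut_A00mm_101_s3 Ext.none :=
  certF0 (fam := true) (s1 := false) (s2 := false) (a := 1) (b := 0) (c := 1) (cn := .npn) (n1 := ndB0q1) (n2 := ndB0q0) (pc := pcB1) (cut := cut_A00mm_101_s3) (xt := Ext.none) (P1 := 536870912) (W1 := 536870912) (P2 := 0) (W2 := 536870912) (P3 := 536870912) (W3 := 50465866)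
    rfl k0_A00mm_101_s3

theorem s_A00mm_101_s3 {κ x : ℝ} (hκ : κ * h0 = ken x) (hx : ((536870912 : ℕ) : ℝ) / S ≤ x)
    (hx' : x ≤ (((536870912 : ℕ) : ℝ) + (50465866 : ℕ)) / S)
    (H : CutA (VFD κ) PP tK tL pcB (Cut.of [[⟨0, 1, 0, 67108864⟩, ⟨1, 0, 0, 67108864⟩, ⟨2, 1, 0, 67108864⟩]]) 1 0 1 0 0 (sgb false) (sgb false) x) :
    AltA (VFD κ) PP tK tL pcB [⟨4, 0, 0, 2845415833⟩] 1 0 1 0 0 (sgb false) (sgb false) x :=
  strip_altAD (m := 2845415833) false rfl hκ (SH.κ0 hκ (SH.hx1 hx).le (SH.hx2 hx').le) (SH.hx1 hx).le (SH.hx2 hx') (covB01).cov (covB00).cov hx hx' c_A00mm_101_s3 H (noExt_A)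

noncomputable def cut_A00mm_102_s1 : Cut := Cut.of [[⟨4, 0, 0, 1449551462⟩], [⟨0, 1, 0, 67108864⟩, ⟨1, 0, 0, 67108864⟩, ⟨2, 1, 0, 67108864⟩]]

noncomputable def f_A00mm_102_s1 : ℕ → ℕ → ℕ → ℕ → Bool := onCell 536870912 536870912 0 536870912 536870912 50465866
    (rowF 0 true false false .npp 1 0 2 (qsf 536870912 536870912 0 536870912 2) ndB0q1 ndB0q0 pcB2 cut_A00mm_102_s1 Ext.none)

def k0_A00mm_102_s1 : ∃ t, chk3 f_A00mm_102_s1 t 1 1 1 = true :=
  ⟨(l 6), by decide +kernel⟩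

theorem c_A00mm_102_s1 : CertF 536870912 536870912 0 536870912 536870912 50465866 true false false .npp 1 0 2
    ndB0q1 ndB0q0 pcB2 cut_A00mm_102_s1 Ext.none :=
  certF0 (fam := true) (s1 := false) (s2 := false) (a := 1) (b := 0) (c := 2) (cn := .npp) (n1 := ndB0q1) (n2 := ndB0q0) (pc := pcB2) (cut := cut_A00mm_102_s1) (xt := Ext.none) (P1 := 536870912) (W1 := 536870912) (P2 := 0) (W2 := 536870912) (P3 := 536870912) (W3 := 50465866)
    rfl k0_A00mm_102_s1

theorem s_A00mm_102_s1 {κ x : ℝ} (hκ : κ * h0 = ken x) (hx : ((536870912 : ℕ) : ℝ) / S ≤ x)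
    (hx' : x ≤ (((536870912 : ℕ) : ℝ) + (50465866 : ℕ)) / S)
    (H : CutA (VFD κ) PP tK tL pcB (Cut.of [[⟨0, 1, 0, 67108864⟩, ⟨1, 0, 0, 67108864⟩, ⟨2, 1, 0, 67108864⟩]]) 1 0 2 0 0 (sgb false) (sgb false) x) :
    AltA (VFD κ) PP tK tL pcB [⟨3, 0, 0, 1449551462⟩] 1 0 2 0 0 (sgb false) (sgb false) x :=
  strip_altAD (m := 1449551462) true rfl hκ (SH.κ0 hκ (SH.hx1 hx).le (SH.hx2 hx').le) (SH.hx1 hx).le (SH.hx2 hx') (covB01).cov (covB00).cov hx hx' c_A00mm_102_s1 H (noExt_A)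

noncomputable def cut_A00mm_102_s3 : Cut := Cut.of [[⟨3, 0, 0, 2845415833⟩], [⟨0, 1, 0, 67108864⟩, ⟨1, 0, 0, 67108864⟩, ⟨2, 1, 0, 67108864⟩]]

noncomputable def f_A00mm_102_s3 : ℕ → ℕ → ℕ → ℕ → Bool := onCell 536870912 536870912 0 536870912 536870912 50465866
    (rowF 0 true false false .npp 1 0 2 (qsf 536870912 536870912 0 536870912 2) ndB0q1 ndB0q0 pcB2 cut_A00mm_102_s3 Ext.none)

def k0_A00mm_102_s3 : ∃ t, chk3 f_A00mm_102_s3 t 1 1 1 = true :=
  ⟨(a (l 4) (b (a (l 4) (a (l 4) (a (l 4) (b (b (b (l 14) (l 4)) (l 4)) (l 4))))) (l 4))), by decide +kernel⟩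

theorem c_A00mm_102_s3 : CertF 536870912 536870912 0 536870912 536870912 50465866 true false false .npp 1 0 2
    ndB0q1 ndB0q0 pcB2 cut_A00mm_102_s3 Ext.none :=
  certF0 (fam := true) (s1 := false) (s2 := false) (a := 1) (b := 0) (c := 2) (cn := .npp) (n1 := ndB0q1) (n2 := ndB0q0) (pc := pcB2) (cut := cut_A00mm_102_s3) (xt := Ext.none) (P1 := 536870912) (W1 := 536870912) (P2 := 0) (W2 := 536870912) (P3 := 536870912) (W3 := 50465866)
    rfl k0_A00mm_102_s3

theorem s_A00mm_102_s3 {κ x : ℝ} (hκ : κ * h0 = ken x) (hx : ((536870912 : ℕ) : ℝ) / S ≤ x)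
    (hx' : x ≤ (((536870912 : ℕ) : ℝ) + (50465866 : ℕ)) / S)
    (H : CutA (VFD κ) PP tK tL pcB (Cut.of [[⟨0, 1, 0, 67108864⟩, ⟨1, 0, 0, 67108864⟩, ⟨2, 1, 0, 67108864⟩]]) 1 0 2 0 0 (sgb false) (sgb false) x) :
    AltA (VFD κ) PP tK tL pcB [⟨4, 0, 0, 2845415833⟩] 1 0 2 0 0 (sgb false) (sgb false) x :=
  strip_altAD (m := 2845415833) false rfl hκ (SH.κ0 hκ (SH.hx1 hx).le (SH.hx2 hx').le) (SH.hx1 hx).le (SH.hx2 hx') (covB01).cov (covB00).cov hx hx' c_A00mm_102_s3 H (noExt_A)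

noncomputable def cut_A00mm_112_s1 : Cut := Cut.of [[⟨4, 0, 0, 1449551462⟩]]

noncomputable def f_A00mm_112_s1 : ℕ → ℕ → ℕ → ℕ → Bool := onCell 536870912 536870912 536870912 536870912 536870912 50465866
    (rowF 0 true false false .dn 1 1 2 (qsf 536870912 536870912 536870912 536870912 2) ndB0q1 ndB0q1 pcB2 cut_A00mm_112_s1 Ext.none)

def k0_A00mm_112_s1 : ∃ t, chk3 f_A00mm_112_s1 t 1 1 1 = true :=
  ⟨(l 4), by decide +kernel⟩

theorem c_A00mm_112_s1 : CertF 536870912 536870912 536870912 536870912 536870912 50465866 true false false .dn 1 1 2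
    ndB0q1 ndB0q1 pcB2 cut_A00mm_112_s1 Ext.none :=
  certF0 (fam := true) (s1 := false) (s2 := false) (a := 1) (b := 1) (c := 2) (cn := .dn) (n1 := ndB0q1) (n2 := ndB0q1) (pc := pcB2) (cut := cut_A00mm_112_s1) (xt := Ext.none) (P1 := 536870912) (W1 := 536870912) (P2 := 536870912) (W2 := 536870912) (P3 := 536870912) (W3 := 50465866)
    rfl k0_A00mm_112_s1

theorem s_A00mm_112_s1 {κ x : ℝ} (hκ : κ * h0 = ken x) (hx : ((536870912 : ℕ) : ℝ) / S ≤ x)
    (hx' : x ≤ (((536870912 : ℕ) : ℝ) + (50465866 : ℕ)) / S) :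
    AltA (VFD κ) PP tK tL pcB [⟨3, 0, 0, 1449551462⟩] 1 1 2 0 0 (sgb false) (sgb false) x :=
  strip_altAD (m := 1449551462) true rfl hκ (SH.κ0 hκ (SH.hx1 hx).le (SH.hx2 hx').le) (SH.hx1 hx).le (SH.hx2 hx') (covB01).cov (covB01).cov hx hx' c_A00mm_112_s1 cutA_nil (noExt_A)

noncomputable def cut_A00mm_112_s3 : Cut := Cut.of [[⟨3, 0, 0, 2845415833⟩]]

noncomputable def f_A00mm_112_s3 : ℕ → ℕ → ℕ → ℕ → Bool := onCell 536870912 536870912 536870912 536870912 536870912 50465866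
    (rowF 0 true false false .dn 1 1 2 (qsf 536870912 536870912 536870912 536870912 2) ndB0q1 ndB0q1 pcB2 cut_A00mm_112_s3 Ext.none)

def k0_A00mm_112_s3 : ∃ t, chk3 f_A00mm_112_s3 t 1 1 1 = true :=
  ⟨(l 4), by decide +kernel⟩

theorem c_A00mm_112_s3 : CertF 536870912 536870912 536870912 536870912 536870912 50465866 true false false .dn 1 1 2
    ndB0q1 ndB0q1 pcB2 cut_A00mm_112_s3 Ext.none :=
  certF0 (fam := true) (s1 := false) (s2 := false) (a := 1) (b := 1) (c := 2) (cn := .dn) (n1 := ndB0q1) (n2 := ndB0q1) (pc := pcB2) (cut := cut_A00mm_112_s3) (xt := Ext.none) (P1 := 536870912) (W1 := 536870912) (P2 := 536870912) (W2 := 536870912) (P3 := 536870912) (W3 := 50465866)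
    rfl k0_A00mm_112_s3

theorem s_A00mm_112_s3 {κ x : ℝ} (hκ : κ * h0 = ken x) (hx : ((536870912 : ℕ) : ℝ) / S ≤ x)
    (hx' : x ≤ (((536870912 : ℕ) : ℝ) + (50465866 : ℕ)) / S) :
    AltA (VFD κ) PP tK tL pcB [⟨4, 0, 0, 2845415833⟩] 1 1 2 0 0 (sgb false) (sgb false) x :=
  strip_altAD (m := 2845415833) false rfl hκ (SH.κ0 hκ (SH.hx1 hx).le (SH.hx2 hx').le) (SH.hx1 hx).le (SH.hx2 hx') (covB01).cov (covB01).cov hx hx' c_A00mm_112_s3 cutA_nil (noExt_A)

noncomputable def cut_A00mm_113_s1 : Cut := Cut.of [[⟨4, 0, 0, 1449551462⟩]]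

noncomputable def f_A00mm_113_s1 : ℕ → ℕ → ℕ → ℕ → Bool := onCell 536870912 536870912 536870912 536870912 536870912 50465866
    (rowF 0 true false false .nn 1 1 3 (qsf 536870912 536870912 536870912 536870912 3) ndB0q1 ndB0q1 pcB3 cut_A00mm_113_s1 Ext.none)

def k0_A00mm_113_s1 : ∃ t, chk3 f_A00mm_113_s1 t 1 1 1 = true :=
  ⟨(l 4), by decide +kernel⟩

theorem c_A00mm_113_s1 : CertF 536870912 536870912 536870912 536870912 536870912 50465866 true false false .nn 1 1 3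
    ndB0q1 ndB0q1 pcB3 cut_A00mm_113_s1 Ext.none :=
  certF0 (fam := true) (s1 := false) (s2 := false) (a := 1) (b := 1) (c := 3) (cn := .nn) (n1 := ndB0q1) (n2 := ndB0q1) (pc := pcB3) (cut := cut_A00mm_113_s1) (xt := Ext.none) (P1 := 536870912) (W1 := 536870912) (P2 := 536870912) (W2 := 536870912) (P3 := 536870912) (W3 := 50465866)
    rfl k0_A00mm_113_s1

theorem s_A00mm_113_s1 {κ x : ℝ} (hκ : κ * h0 = ken x) (hx : ((536870912 : ℕ) : ℝ) / S ≤ x)
    (hx' : x ≤ (((536870912 : ℕ) : ℝ) + (50465866 : ℕ)) / S) :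
    AltA (VFD κ) PP tK tL pcB [⟨3, 0, 0, 1449551462⟩] 1 1 3 0 0 (sgb false) (sgb false) x :=
  strip_altAD (m := 1449551462) true rfl hκ (SH.κ0 hκ (SH.hx1 hx).le (SH.hx2 hx').le) (SH.hx1 hx).le (SH.hx2 hx') (covB01).cov (covB01).cov hx hx' c_A00mm_113_s1 cutA_nil (noExt_A)

noncomputable def cut_A00mm_113_s3 : Cut := Cut.of [[⟨3, 0, 0, 2845415833⟩]]

noncomputable def f_A00mm_113_s3 : ℕ → ℕ → ℕ → ℕ → Bool := onCell 536870912 536870912 536870912 536870912 536870912 50465866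
    (rowF 0 true false false .nn 1 1 3 (qsf 536870912 536870912 536870912 536870912 3) ndB0q1 ndB0q1 pcB3 cut_A00mm_113_s3 Ext.none)

def k0_A00mm_113_s3 : ∃ t, chk3 f_A00mm_113_s3 t 1 1 1 = true :=
  ⟨(l 4), by decide +kernel⟩

theorem c_A00mm_113_s3 : CertF 536870912 536870912 536870912 536870912 536870912 50465866 true false false .nn 1 1 3
    ndB0q1 ndB0q1 pcB3 cut_A00mm_113_s3 Ext.none :=
  certF0 (fam := true) (s1 := false) (s2 := false) (a := 1) (b := 1) (c := 3) (cn := .nn) (n1 := ndB0q1) (n2 := ndB0q1) (pc := pcB3) (cut := cut_A00mm_113_s3) (xt := Ext.none) (P1 := 536870912) (W1 := 536870912) (P2 := 536870912) (W2 := 536870912) (P3 := 536870912) (W3 := 50465866)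
    rfl k0_A00mm_113_s3

theorem s_A00mm_113_s3 {κ x : ℝ} (hκ : κ * h0 = ken x) (hx : ((536870912 : ℕ) : ℝ) / S ≤ x)
    (hx' : x ≤ (((536870912 : ℕ) : ℝ) + (50465866 : ℕ)) / S) :
    AltA (VFD κ) PP tK tL pcB [⟨4, 0, 0, 2845415833⟩] 1 1 3 0 0 (sgb false) (sgb false) x :=
  strip_altAD (m := 2845415833) false rfl hκ (SH.κ0 hκ (SH.hx1 hx).le (SH.hx2 hx').le) (SH.hx1 hx).le (SH.hx2 hx') (covB01).cov (covB01).cov hx hx' c_A00mm_113_s3 cutA_nil (noExt_A)

noncomputable def cut_A00mm_123_s1 : Cut := Cut.of [[⟨4, 0, 0, 1449551462⟩]]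

noncomputable def f_A00mm_123_s1 : ℕ → ℕ → ℕ → ℕ → Bool := onCell 536870912 536870912 0 536870912 536870912 50465866
    (rowF 0 true false false .npn 1 2 3 (qsf 536870912 536870912 0 536870912 3) ndB0q1 ndB0q2 pcB3 cut_A00mm_123_s1 Ext.none)

def k0_A00mm_123_s1 : ∃ t, chk3 f_A00mm_123_s1 t 1 1 1 = true :=
  ⟨(l 6), by decide +kernel⟩

theorem c_A00mm_123_s1 : CertF 536870912 536870912 0 536870912 536870912 50465866 true false false .npn 1 2 3
    ndB0q1 ndB0q2 pcB3 cut_A00mm_123_s1 Ext.none :=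
  certF0 (fam := true) (s1 := false) (s2 := false) (a := 1) (b := 2) (c := 3) (cn := .npn) (n1 := ndB0q1) (n2 := ndB0q2) (pc := pcB3) (cut := cut_A00mm_123_s1) (xt := Ext.none) (P1 := 536870912) (W1 := 536870912) (P2 := 0) (W2 := 536870912) (P3 := 536870912) (W3 := 50465866)
    rfl k0_A00mm_123_s1

theorem s_A00mm_123_s1 {κ x : ℝ} (hκ : κ * h0 = ken x) (hx : ((536870912 : ℕ) : ℝ) / S ≤ x)
    (hx' : x ≤ (((536870912 : ℕ) : ℝ) + (50465866 : ℕ)) / S) :
    AltA (VFD κ) PP tK tL pcB [⟨3, 0, 0, 1449551462⟩] 1 2 3 0 0 (sgb false) (sgb false) x :=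
  strip_altAD (m := 1449551462) true rfl hκ (SH.κ0 hκ (SH.hx1 hx).le (SH.hx2 hx').le) (SH.hx1 hx).le (SH.hx2 hx') (covB01).cov (covB02).cov hx hx' c_A00mm_123_s1 cutA_nil (noExt_A)

noncomputable def cut_A00mm_123_s3 : Cut := Cut.of [[⟨3, 0, 0, 2845415833⟩]]

noncomputable def f_A00mm_123_s3 : ℕ → ℕ → ℕ → ℕ → Bool := onCell 536870912 536870912 0 536870912 536870912 50465866
    (rowF 0 true false false .npn 1 2 3 (qsf 536870912 536870912 0 536870912 3) ndB0q1 ndB0q2 pcB3 cut_A00mm_123_s3 Ext.none)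

def k0_A00mm_123_s3 : ∃ t, chk3 f_A00mm_123_s3 t 1 1 1 = true :=
  ⟨(a (l 5) (l 4)), by decide +kernel⟩

theorem c_A00mm_123_s3 : CertF 536870912 536870912 0 536870912 536870912 50465866 true false false .npn 1 2 3
    ndB0q1 ndB0q2 pcB3 cut_A00mm_123_s3 Ext.none :=
  certF0 (fam := true) (s1 := false) (s2 := false) (a := 1) (b := 2) (c := 3) (cn := .npn) (n1 := ndB0q1) (n2 := ndB0q2) (pc := pcB3) (cut := cut_A00mm_123_s3) (xt := Ext.none) (P1 := 536870912) (W1 := 536870912) (P2 := 0) (W2 := 536870912) (P3 := 536870912) (W3 := 50465866)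
    rfl k0_A00mm_123_s3

theorem s_A00mm_123_s3 {κ x : ℝ} (hκ : κ * h0 = ken x) (hx : ((536870912 : ℕ) : ℝ) / S ≤ x)
    (hx' : x ≤ (((536870912 : ℕ) : ℝ) + (50465866 : ℕ)) / S) :
    AltA (VFD κ) PP tK tL pcB [⟨4, 0, 0, 2845415833⟩] 1 2 3 0 0 (sgb false) (sgb false) x :=
  strip_altAD (m := 2845415833) false rfl hκ (SH.κ0 hκ (SH.hx1 hx).le (SH.hx2 hx').le) (SH.hx1 hx).le (SH.hx2 hx') (covB01).cov (covB02).cov hx hx' c_A00mm_123_s3 cutA_nil (noExt_A)

noncomputable def cut_A00mm_202_s1 : Cut := Cut.of [[⟨4, 0, 0, 1449551462⟩], [⟨0, 1, 0, 67108864⟩, ⟨1, 0, 0, 67108864⟩, ⟨2, 1, 0, 67108864⟩]]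

noncomputable def f_A00mm_202_s1 : ℕ → ℕ → ℕ → ℕ → Bool := onCell 0 536870912 0 536870912 536870912 50465866
    (rowF 0 true false false .pp 2 0 2 (qsf 0 536870912 0 536870912 2) ndB0q2 ndB0q0 pcB2 cut_A00mm_202_s1 Ext.none)

def k0_A00mm_202_s1 : ∃ t, chk3 f_A00mm_202_s1 t 1 1 1 = true :=
  ⟨(l 6), by decide +kernel⟩

theorem c_A00mm_202_s1 : CertF 0 536870912 0 536870912 536870912 50465866 true false false .pp 2 0 2
    ndB0q2 ndB0q0 pcB2 cut_A00mm_202_s1 Ext.none :=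
  certF0 (fam := true) (s1 := false) (s2 := false) (a := 2) (b := 0) (c := 2) (cn := .pp) (n1 := ndB0q2) (n2 := ndB0q0) (pc := pcB2) (cut := cut_A00mm_202_s1) (xt := Ext.none) (P1 := 0) (W1 := 536870912) (P2 := 0) (W2 := 536870912) (P3 := 536870912) (W3 := 50465866)
    rfl k0_A00mm_202_s1

theorem s_A00mm_202_s1 {κ x : ℝ} (hκ : κ * h0 = ken x) (hx : ((536870912 : ℕ) : ℝ) / S ≤ x)
    (hx' : x ≤ (((536870912 : ℕ) : ℝ) + (50465866 : ℕ)) / S)
    (H : CutA (VFD κ) PP tK tL pcB (Cut.of [[⟨0, 1, 0, 67108864⟩, ⟨1, 0, 0, 67108864⟩, ⟨2, 1, 0, 67108864⟩]]) 2 0 2 0 0 (sgb false) (sgb false) x) :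
    AltA (VFD κ) PP tK tL pcB [⟨3, 0, 0, 1449551462⟩] 2 0 2 0 0 (sgb false) (sgb false) x :=
  strip_altAD (m := 1449551462) true rfl hκ (SH.κ0 hκ (SH.hx1 hx).le (SH.hx2 hx').le) (SH.hx1 hx).le (SH.hx2 hx') (covB02).cov (covB00).cov hx hx' c_A00mm_202_s1 H (noExt_A)

noncomputable def cut_A00mm_202_s3 : Cut := Cut.of [[⟨3, 0, 0, 2845415833⟩], [⟨0, 1, 0, 67108864⟩, ⟨1, 0, 0, 67108864⟩, ⟨2, 1, 0, 67108864⟩]]

noncomputable def xt_A00mm_202_s3 : Ext := strExt6 dd true false false .u2 .u0m .s2m .pp 2 0 2 rfl rfl gl2 vv ww ndB0q2 ndB0q0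

noncomputable def f_A00mm_202_s3 : ℕ → ℕ → ℕ → ℕ → Bool := onCell 0 536870912 0 536870912 536870912 50465866
    (rowF 0 true false false .pp 2 0 2 (qsf 0 536870912 0 536870912 2) ndB0q2 ndB0q0 pcB2 cut_A00mm_202_s3 xt_A00mm_202_s3)

def k0_A00mm_202_s3 : ∃ t, chk3 f_A00mm_202_s3 t 2 2 1 = true :=
  ⟨(b (a (l 6) (b (l 6) (a (l 6) (a (l 6) (b (a (l 6) (l 16619512)) (b (l 16594048) (l 16650392))))))) (a (b (l 6) (a (l 6) (b (l 6) (l 16632784)))) (a (b (b (l 6) (a (l 6) (l 16629608))) (b (a (l 16638920) (a (l 16651728) (l 16659784))) (a (l 16661552) (l 16732208)))) (b (b (a (a (l 16611592) (l 16660624)) (b (l 16664992) (a (l 16633840) (l 16642296)))) (b (a (l 16637112) (a (l 16648552) (l 16657064))) (a (l 16651216) (a (l 16662832) (l 16692408))))) (a (b (b (l 16706656) (l 16719568)) (a (b (l 16686096) (l 16697968)) (b (l 16693976) (l 16706056)))) (b (a (b (l 16676528) (l 16710664)) (b (c (l 16686952) (l 16704472)) (a (l 16696320)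 (l 1068091919)))) (a (b (l 16723392) (l 16730440)) (b (a (l 16709176) (l 1068196879)) (a (l 16732112) (l 1068312079)))))))))), by decide +kernel⟩

def k1_A00mm_202_s3 : ∃ t, chk3 f_A00mm_202_s3 t 2 3 1 = true :=
  ⟨(a (b (a (b (a (l 6) (l 16715640)) (b (a (l 16635904) (l 16652168)) (a (l 16647208) (l 16664824)))) (b (b (l 16734672) (l 16730168)) (a (b (l 16671088) (l 16768680)) (b (l 16694080) (l 66672604007))))) (l 2)) (b (b (a (b (a (l 16682072) (b (l 16696440) (l 16706768))) (a (l 16742376) (b (l 16716400) (l 16767608)))) (a (b (a (b (l 16709304) (l 16720048)) (b (l 16717624) (l 16749592))) (b (a (l 16730096) (l 1069252111)) (a (l 16760600) (l 1069305359)))) (b (a (b (c (l 16727824) (l 16746200)) (b (l 16735032) (l 16740520))) (b (a (l 1068602895) (l 1068436495)) (a (l 1068739087) (l 1068574223)))) (b (a (b (l 16756336) (l 1069079055)) (a (l 1068879375) (b (l 1068688399) (l 1068767759)))) (b (a (l 1069111823) (a (l 1068968975)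 (l 1068850191))) (a (l 1069139983) (a (l 1069003791) (a (l 1068928015) (l 1068893199))))))))) (a (a (b (l 16759600) (b (l 16729824) (l 72578220487))) (b (a (l 16765576) (l 1069639183)) (b (a (l 16788776) (l 1069671439)) (l 1070579727)))) (a (b (a (a (l 1069615631) (l 1069556751)) (l 1069424143)) (a (b (l 1069686287) (a (l 1069611535) (l 1069723151))) (b (l 1069542415) (l 1069612047)))) (b (a (l 1069240847) (l 1069051919)) (b (l 1069265423) (l 4)))))) (a (l 2) (a (l 2) (l 4))))), by decide +kernel⟩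

def k2_A00mm_202_s3 : ∃ t, chk3 f_A00mm_202_s3 t 6 8 1 = true :=
  ⟨(a (a (b (l 6) (b (l 6) (a (l 6) (b (l 16581920) (l 16587872))))) (a (b (l 6) (b (l 16584296) (b (l 16593744) (l 16600096)))) (b (b (b (l 6) (b (l 6) (l 16579776))) (b (l 16583832) (l 16589176))) (b (l 16618080) (l 16619960))))) (a (b (b (a (b (b (a (l 6) (l 16587376)) (l 16597592)) (b (l 16590040) (l 16592952))) (a (b (b (l 16594000) (l 16597096)) (l 16601704)) (b (b (l 16611256) (l 16603968)) (a (l 16606944) (l 16610488))))) (a (b (b (l 16595840) (l 16598720)) (a (l 16599448) (l 16606536))) (b (b (l 16620344) (l 16623408)) (a (l 16613776) (l 16621184))))) (b (a (b (l 16608672) (l 16614304)) (b (a (l 16619736) (l 16627328)) (l 16634800))) (a (b (l 16619920) (l 16626080)) (b (l 16646032) (l 16662512))))) (b (b (a (b (b (a (b (l 16606864) (l 16608520)) (b (l 16619144) (l 16615600))) (a (l 16610984) (l 16623384))) (b (a (l 16614256) (l 16621512)) (a (l 16617504)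 (l 16624856)))) (b (c (b (a (l 16623472) (l 16630840)) (a (l 16626848) (l 16634304))) (b (a (l 16620392) (b (l 16626752) (l 16628584))) (a (l 16623968) (l 16631320)))) (b (a (l 16628872) (l 16636352)) (a (l 16632304) (l 16639872))))) (a (a (b (l 16632832) (l 16628736)) (b (l 16640312) (l 16636408))) (a (b (b (l 16635720) (l 16639112)) (l 16644168)) (b (b (l 16643360) (l 16646840)) (l 16652024))))) (a (b (b (a (l 16635072) (l 16642936)) (a (l 16641368) (l 16649416))) (b (a (l 16668616) (l 16655880)) (a (l 16653920) (l 16683296)))) (b (a (b (l 16650864) (l 16657520)) (b (l 16658880) (l 16665696))) (a (b (l 16664152) (l 16691744)) (b (l 16672480) (l 16679256)))))))), by decide +kernel⟩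

def k3_A00mm_202_s3 : ∃ t, chk3 f_A00mm_202_s3 t 6 9 1 = true :=
  ⟨(a (b (a (b (l 16630376) (l 16641840)) (b (b (a (l 16647888) (l 16661128)) (a (l 16610912) (l 16666968))) (c (l 16657656) (l 16646376)))) (b (a (c (l 16655808) (l 16655720)) (a (l 16632032) (l 16667024))) (a (a (l 16622616) (l 16675608)) (a (b (l 16642736) (l 16649920)) (b (l 16656808) (l 16664024)))))) (a (b (a (a (b (l 1068079119) (l 16644168)) (b (l 1067323407) (l 1067202575))) (a (b (l 16667736) (l 1067133455)) (b (l 16675736) (l 1067058703)))) (a (a (b (l 16657360) (l 1067167247)) (b (l 16675752) (l 1066562575))) (b (b (l 16694992) (l 16691776)) (b (c (l 16709504) (l 16688584)) (a (l 16712648) (l 16715928)))))) (b (a (a (b (a (l 16661176) (l 16665504)) (l 1067560975)) (b (l 1066859023) (l 1067002895))) (b (b (a (l 16698368) (l 1066551311)) (a (l 16684040) (l 16692816))) (a (l 1066445327) (l 1066423823)))) (a (a (b (l 1066974223) (b (l 16701584) (l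 1066418191))) (b (l 1066942479) (c (l 1067477007) (l 1067456527)))) (b (a (b (l 1066375183) (l 16711944)) (l 1066876431)) (a (b (l 1066368527) (l 1066370063)) (b (l 1066334735) (l 1066339855)))))))), by decide +kernel⟩

def k4_A00mm_202_s3 : ∃ t, chk3 f_A00mm_202_s3 t 7 16 1 = true :=
  ⟨(a (a (a (a (b (b (a (b (c (l 16636440) (l 16633216)) (l 16638448)) (b (l 16638592) (l 16642248))) (b (l 16643968) (l 16647560))) (b (b (l 16651128) (l 16654680)) (l 16659976))) (b (b (a (b (l 16642400) (l 16646096)) (b (l 16646248) (l 16649976))) (b (l 16651720) (l 16655384))) (b (b (l 16659024) (l 16662648)) (l 16668048)))) (b (a (b (b (c (l 16653736) (l 16650504)) (l 16655888)) (b (l 16659632) (l 16663360))) (b (b (c (l 16661664) (l 16658496)) (l 16663904)) (b (l 16667712) (l 16671504)))) (a (b (c (l 16670152) (l 16667672)) (l 16676248)) (b (c (l 16678360) (l 16675920)) (c (l 16685656) (l 16683520)))))) (a (b (b (a (a (b (l 14) (l 16670032))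 (l 14)) (l 14)) (a (b (l 16675968) (l 16679808)) (b (l 16689656) (l 16688304)))) (b (a (c (l 16686704) (l 16684352)) (b (l 16692168) (l 16696016))) (a (c (l 16694112) (l 16692056)) (c (l 16702712) (l 16700776))))) (b (a (a (a (b (l 14) (l 1066197007)) (l 14)) (l 14)) (l 14)) (b (a (b (l 16700904) (l 16704792)) (b (l 14) (a (l 16711496) (l 16716040)))) (a (b (l 16708656) (l 16712504)) (a (l 1066650639) (a (l 1066080271) (l 1066056207)))))))) (b (l 14) (b (a (l 14) (l 14)) (b (a (a (a (a (l 16724568) (l 16729232)) (l 14)) (l 14)) (l 14)) (a (a (a (c (l 16731472) (l 16735408)) (a (c (l 16738464) (l 16737344)) (c (l 16743200) (l 16742208)))) (l 14)) (l 14)))))), by decide +kernel⟩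

def k5_A00mm_202_s3 : ∃ t, chk3 f_A00mm_202_s3 t 14 17 1 = true :=
  ⟨(a (a (b (a (b (l 16666984) (l 16673944)) (b (l 16675192) (l 16682288))) (a (b (l 16680880) (l 16687784)) (b (l 16689352) (l 16696392)))) (b (a (b (l 16683520) (l 16690744)) (b (l 16691984) (l 16699312))) (a (b (l 16697920) (l 16715568)) (b (l 16717088) (l 1066924559))))) (c (a (b (a (b (l 16701464) (l 16708760)) (b (l 16710160) (l 16717552))) (a (b (l 16716024) (l 16723264)) (b (l 16724904) (l 16742712)))) (a (b (b (l 16719008) (l 16736968)) (a (l 1066293775) (l 1066795535))) (a (b (b (l 16725744) (l 16733272)) (l 1067295759)) (b (b (l 16730296) (l 16737864)) (l 1067794447))))) (a (b (a (b (l 16699688) (l 16707248)) (b (l 16708496) (l 16716144))) (a (b (l 16714760) (l 16722224)) (b (l 16734224) (l 16736528)))) (a (a (b (a (l 1066130959) (l 1066108943)) (l 1066661903)) (a (b (l 1066086415) (l 1066095631)) (b (l 1066063375) (l 1066074639)))) (a (b (b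 (l 16724360) (l 16732144)) (b (l 16745104) (l 1066042383))) (b (b (l 16729008) (l 16742064)) (b (l 1065994255) (l 1065999887)))))))), by decide +kernel⟩

def k6_A00mm_202_s3 : ∃ t, chk3 f_A00mm_202_s3 t 15 17 1 = true :=
  ⟨(b (a (a (a (a (b (l 1067104271) (l 1066040335)) (b (b (l 16737064) (l 16746200)) (l 1067067407))) (a (a (a (l 1065961999) (l 1065950223)) (a (l 1065937935) (l 1065925647))) (a (b (l 1065899535) (l 1065912847)) (b (l 1065874447) (l 1065888271))))) (a (a (a (b (l 1065849359) (l 1065863695)) (b (l 1065823759) (l 1065838607))) (a (b (l 1065798159) (l 1065813519)) (b (l 1066309135) (l 1065788431)))) (b (b (l 14) (a (a (l 1065750543) (l 1065724431)) (l 14))) (b (a (a (l 1065758735) (l 1065733135)) (a (l 1065707023) (l 1066217487))) (a (a (l 1065766415) (l 1065740815)) (a (l 1065714703) (l 1065688591))))))) (b (l 14) (b (b (l 14) (b (l 14) (l 4))) (l 4)))) (a (b (a (a (a (l 1066046991) (l 1066002447)) (a (l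 1067566607) (a (l 1065924111) (l 1065900047)))) (a (a (a (l 1065875983) (l 1065851407)) (a (l 1065826831) (l 1065801743))) (a (a (l 1065777167) (l 1065751567)) (l 4)))) (a (a (a (l 1066050575) (l 1066007567)) (a (l 1067037199) (c (l 1067090959) (l 1067962895)))) (b (a (a (l 1067477519) (a (l 1065835535) (l 4))) (l 4)) (a (a (l 1066945039) (l 4)) (l 4))))) (l 4))), by decide +kernel⟩

def k7_A00mm_202_s3 : ∃ t, chk3 f_A00mm_202_s3 t 7 9 1 = true :=
  ⟨(b (a (a (a (b (a (b (l 1066510863) (l 1066469391)) (b (l 16708664) (l 1066430479))) (a (l 1066398735) (l 1066368527))) (a (b (b (l 1066418191) (l 1066387983)) (a (l 1066345999) (l 1066328079))) (b (a (l 1066369551) (l 1066343951)) (l 1068444687)))) (a (b (b (a (l 1066845711) (c (l 1067390479) (l 1067781647))) (a (l 1066826255) (l 1067842063))) (a (l 1068938767) (a (l 1066221583) (l 1066195983)))) (a (a (b (l 1066731535) (l 1066168335)) (b (b (l 1066164751) (l 1066156559))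 (l 1066138639))) (a (b (b (l 1066128399) (l 1066122255)) (l 1066107919)) (b (b (l 1066089999) (l 1066086415)) (l 1066075663)))))) (a (a (a (a (b (b (l 1066051087) (l 1066049039)) (b (l 1066044431) (l 4))) (b (a (l 1066022927) (l 1066002959)) (l 4))) (b (b (a (l 1067042319) (c (l 1067094031) (l 1067972623))) (a (l 1065969679) (l 4))) (l 4))) (l 4)) (l 4))) (a (a (a (a (b (l 1066309135) (b (l 1066296847) (l 1066305039))) (b (l 1066279439) (b (l 1066255375) (l 1066265615)))) (a (b (l 1066251791) (b (l 1066211855) (l 1066757647))) (b (l 1066226703) (l 1066044943)))) (a (a (b (l 1066196495) (l 1066143759)) (b (a (l 1066172943) (l 1066152975)) (l 1065570319))) (a (b (b (l 1068270095) (l 1067713551)) (l 4)) (l 4)))) (l 4))), by decide +kernel⟩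

def k8_A00mm_202_s3 : ∃ t, chk3 f_A00mm_202_s3 t 12 10 1 = true :=
  ⟨(a (b (b (a (l 16637128) (l 16669096)) (a (l 16672816) (c (l 16705496) (l 16682848)))) (b (a (c (l 16709840) (l 16686192)) (b (l 16673848) (l 16691704))) (a (b (l 16677520) (l 16705592)) (a (b (l 16685592) (l 16692744)) (b (l 16691544) (l 16698720)))))) (b (a (b (b (l 16657152) (l 16664416)) (b (l 16671720) (l 16700024))) (a (b (l 1067329039) (a (l 1066836495) (l 1066785295))) (b (l 1067239439) (a (l 1066736655) (l 1066689551))))) (a (b (a (b (l 16683120) (l 16690536)) (b (l 16689808) (l 16707704))) (a (b (l 16708368) (l 1067192847)) (b (l 1067027471) (c (l 16723080) (l 16721584))))) (a (b (b (l 16696864) (l 1066868751)) (b (l 1066907663) (b (l 16722400) (l 1066951695)))) (b (b (l 16709504) (l 1066757135)) (b (l 1066792463) (a (l 1066856975) (l 1066800655)))))))), by decide +kernel⟩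

def k9_A00mm_202_s3 : ∃ t, chk3 f_A00mm_202_s3 t 24 11 1 = true :=
  ⟨(b (a (b (a (l 1067831823) (l 1067675663)) (a (l 1067925007) (l 1067760143))) (a (b (b (l 16699728) (l 16706592)) (b (l 16723864) (l 1067620367))) (b (b (l 16716224) (l 1067395599)) (b (l 1067429391) (l 1067464207))))) (b (a (a (l 1068021263) (l 1067847695)) (a (b (l 1067659791) (l 1067699215)) (b (l 1067499535) (l 1067533839)))) (a (a (l 1068126735) (l 1067941903)) (a (b (l 1067740687) (l 1067785231)) (b (l 1067570191) (l 1067609103)))))), by decide +kernel⟩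

def k10_A00mm_202_s3 : ∃ t, chk3 f_A00mm_202_s3 t 25 11 1 = true :=
  ⟨(b (a (a (b (c (b (l 16712992) (l 16725120)) (b (l 16721792) (l 1067166735))) (b (a (l 1067320335) (l 1067249167)) (a (l 1067351567) (l 1067278351)))) (b (b (a (l 1067127311) (l 1067063311)) (a (l 1067153423) (l 1067087887))) (b (a (l 1067180047) (l 1067112975)) (a (l 1067207183) (l 1067138063))))) (b (a (b (a (l 1067001871) (l 1066941455)) (a (l 1067024911) (l 1066963471))) (b (a (l 1066883087) (l 1066826255)) (a (l 1066903567) (l 1066845199)))) (a (a (b (l 1067047951) (l 1067071503)) (b (l 1066984975) (l 1067006479))) (b (a (l 1066923535) (l 1066863631)) (a (l 1066943503) (c (l 1066963983) (l 1066799119))))))) (a (b (a (b (a (l 1067383823) (l 1067308559)) (a (l 1067414543) (l 1067337231))) (b (a (l 1067235343) (l 1067164175)) (a (l 1067261967) (l 1067188751)))) (a (b (a (l 1067446799) (l 1067366415)) (a (l 1067481103) (l 1067398159))) (b (a (l 1067288079)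 (b (l 1067206159) (l 1067218447))) (a (b (l 1067309071) (l 1067324431)) (b (l 1067230735) (a (l 1067264015) (l 1067224591))))))) (b (a (b (a (l 1067095055) (l 1067028495)) (a (b (l 1067112463) (l 1067123215)) (l 1067049999))) (b (a (b (l 1066958863) (l 1066968591)) (b (l 1066895887) (l 1066905103))) (b (l 1066946063) (l 1066955279)))) (a (a (b (a (l 1067157007) (l 1067121167)) (a (b (l 1067173903) (b (l 1067182095) (l 1067187727))) (b (l 1067137039) (a (l 1067157007) (l 1067138063))))) (b (l 1067068943) (b (l 1067083279) (l 1067093007)))) (b (a (l 1067000847) (l 1066934799)) (a (b (l 1067013647) (l 4)) (l 4))))))), by decide +kernel⟩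

def k11_A00mm_202_s3 : ∃ t, chk3 f_A00mm_202_s3 t 13 10 1 = true :=
  ⟨(a (b (a (b (a (l 1067695119) (l 1067622415)) (b (a (l 16697304) (l 1066543631)) (a (l 1066626063) (l 1066543631)))) (b (a (b (l 16709480) (l 1066483727)) (c (l 1067526159) (l 1067492367))) (a (b (l 1066478095) (l 1066473999)) (b (l 1066427407) (l 1066420239))))) (a (b (b (a (l 1066635791) (l 1066547727)) (a (l 1066653199) (l 1067095055))) (a (b (b (l 1066673167) (l 1066691087)) (a (l 1066745359) (l 1066691599))) (b (b (l 1066572303) (l 1066586127)) (b (l 1066604559) (l 1066621455))))) (b (a (b (l 1066472463) (b (l 1066473999) (l 1066477071))) (b (l 1066950671) (a (l 1066424335) (l 1066397199)))) (a (b (b (l 1066482191) (l 1066490895)) (b (a (l 1066529295) (l 1066481167)) (a (l 1066546703) (l 1066498575)))) (b (a (l 1066426895) (b (l 1066394639) (l 1066394127))) (b (a (l 1066436623) (l 1066397199)) (a (l 1066451471) (b (l 1066402831) (l 1066409999)))))))))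 (b (a (b (a (a (l 1066414095) (l 1066403855)) (b (l 1066393103) (l 1066390543))) (a (b (l 1066397711) (l 1066927631)) (b (l 1066388495) (l 1066385935)))) (b (a (b (l 1066371599) (l 1066373647)) (b (l 1066882575) (a (l 1066358799) (l 1066346511)))) (a (b (l 1066912783) (l 1066378255)) (b (a (l 1066364431) (l 1066354191)) (b (l 1066363407) (l 1066366991)))))) (a (a (a (b (b (l 1066387471) (l 1066378767)) (b (b (l 1066372623) (l 1066368527)) (b (a (l 1066373135) (l 1066360847)) (a (l 1066376207) (l 1066359311))))) (b (b (l 1066381839) (l 1066373647)) (b (b (l 1066365967) (l 1066360335)) (a (b (l 1066354191) (b (l 1066349583) (l 1066347535))) (b (l 1066356239) (l 1066349583)))))) (a (b (l 1066380303) (b (l 1066370063) (l 1066360847))) (b (l 1066381839) (b (l 1066376207) (l 1066638351))))) (a (b (b (l 1066380303) (l 1066918415)) (b (a (l 1066380815) (l 1066383887)) (l 4))) (b (b (l 1066372111) (a (l 1066380815) (l 1066378255)))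 (l 4)))))), by decide +kernel⟩

def k12_A00mm_202_s3 : ∃ t, chk3 f_A00mm_202_s3 t 26 11 1 = true :=
  ⟨(b (a (a (b (b (a (l 1066770447) (l 1066716687)) (a (l 1066788367) (l 1066733071))) (a (b (l 1066805263) (c (l 1066902543) (l 1066740751))) (b (l 1066748943) (a (l 1066778639) (l 1066749967))))) (b (b (a (l 1066663951) (l 1066613263)) (a (l 1066679311) (l 1066627087))) (b (a (l 1066693647) (l 1066640399)) (a (l 1066707983) (b (l 1066650127) (l 1066656783)))))) (b (a (b (a (b (l 1066560527) (l 1066567695)) (b (l 1066512911) (l 1066519567))) (a (l 1066576911) (b (l 1066525199) (l 1066531343)))) (b (b (a (l 1066466319) (b (l 1066418191) (l 1066424335))) (a (l 1066472975) (l 1066428431))) (a (b (l 1066478607) (l 1066483727)) (b (l 1066433551) (l 1066438159))))) (a (b (a (b (l 1066586127) (l 1066592271)) (b (l 1066536463) (l 1066542095))) (a (b (l 1066597903) (l 1066603535)) (b (l 1066547215) (l 4)))) (b (a (b (l 1066488847)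 (l 1066493455)) (b (a (l 1066454031) (l 4)) (l 4))) (l 4))))) (a (b (a (b (a (b (l 1066834959) (a (l 1066859023) (l 1066828303))) (c (b (l 1066856463) (a (l 1066880015) (l 1066849807))) (b (l 1066694159) (a (l 1066715663) (l 1066686479))))) (a (b (l 1066851855) (l 1066860047)) (a (a (l 1066817551) (l 1066802191)) (b (c (l 1066857999) (l 1066693135)) (l 4))))) (b (a (l 1066721807) (a (l 1066679823) (l 1066652175))) (a (a (b (b (l 1066744847) (l 4)) (l 4)) (l 4)) (l 4)))) (a (a (b (l 1066870287) (l 4)) (l 4)) (l 4))) (l 4))), by decide +kernel⟩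

def k13_A00mm_202_s3 : ∃ t, chk3 f_A00mm_202_s3 t 27 11 1 = true :=
  ⟨(b (a (b (a (b (a (b (b (a (l 1066385423) (l 1066363919)) (l 1066381327)) (l 1066385423)) (a (b (b (a (l 1066350095) (l 1066344975)) (b (a (l 1066353679) (a (l 1066345999) (l 1066339855))) (l 1066351631))) (l 1066354191)) (b (b (l 1066344463) (a (a (a (l 1066338831) (l 1066338831)) (l 1066339343)) (l 1066341903))) (l 4)))) (a (b (l 1066390031) (l 4)) (l 4))) (b (b (a (b (l 1066353679) (l 4)) (l 4)) (l 4)) (l 4))) (l 4)) (l 4)) (l 4)), by decide +kernel⟩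

def k14_A00mm_202_s3 : ∃ t, chk3 f_A00mm_202_s3 t 7 5 1 = true :=
  ⟨(b (a (a (a (b (a (b (a (l 1066328079) (l 1066312719)) (b (a (b (l 1066340367) (l 1066345487)) (l 1066330127)) (a (b (l 1066350607) (l 1066355727)) (b (l 1066876431) (a (l 1066349071) (l 1066343951)))))) (b (a (l 1066295823) (l 1066277903)) (a (l 1066323471) (l 1066309135)))) (a (b (a (b (l 1066363919) (l 4)) (l 4)) (l 4)) (l 4))) (b (a (b (b (l 1067844623) (l 1066255375)) (a (l 1066293775) (l 4))) (b (b (l 1067807247) (l 4)) (l 4))) (l 4))) (l 4)) (l 4)) (l 4)), by decide +kernel⟩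

def k15_A00mm_202_s3 : ∃ t, chk3 f_A00mm_202_s3 t 3 3 1 = true :=
  ⟨(b (a (a (b (b (a (a (a (b (l 1068241423) (l 1068369423)) (b (l 1068045327) (l 1068160015))) (a (b (l 1067854351) (l 1067956239)) (b (b (l 1067649039) (l 1067690511)) (l 1067758095)))) (a (a (b (b (l 1067473423) (l 1067509263)) (b (l 1067547151) (l 4))) (b (b (a (l 1067346959) (b (l 1067257871) (l 1067271695))) (a (l 1067378191) (l 1067292687))) (l 4))) (b (b (a (a (a (b (l 1067197967) (l 1067210767)) (b (a (b (b (l 1067163663) (l 1067166735)) (l 1067171343)) (b (b (l 1067144719) (l 1067147791)) (l 4))) (l 4))) (l 4)) (l 4)) (l 4)) (l 4)))) (a (a (b (a (c (l 1068636175) (l 1068395535)) (c (l 1068407823) (l 1068176911))) (a (b (l 1068638223) (l 1068727311)) (b (l 1068403215) (l 4)))) (b (a (l 1068072463) (l 1067859983)) (l 4))) (l 4))) (l 4)) (l 4)) (l 4)) (l 4)), by decide +kernel⟩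

theorem t16_A00mm_202_s3 : ∃ t, chk3 f_A00mm_202_s3 t 13 11 1 = true := ex3_a k12_A00mm_202_s3 k13_A00mm_202_s3

theorem t17_A00mm_202_s3 : ∃ t, chk3 f_A00mm_202_s3 t 13 5 1 = true := ex3_b k11_A00mm_202_s3 t16_A00mm_202_s3

theorem t18_A00mm_202_s3 : ∃ t, chk3 f_A00mm_202_s3 t 12 11 1 = true := ex3_a k9_A00mm_202_s3 k10_A00mm_202_s3

theorem t19_A00mm_202_s3 : ∃ t, chk3 f_A00mm_202_s3 t 12 5 1 = true := ex3_b k8_A00mm_202_s3 t18_A00mm_202_s3

theorem t20_A00mm_202_s3 : ∃ t, chk3 f_A00mm_202_s3 t 6 5 1 = true := ex3_a t19_A00mm_202_s3 t17_A00mm_202_s3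

theorem t21_A00mm_202_s3 : ∃ t, chk3 f_A00mm_202_s3 t 3 5 1 = true := ex3_a t20_A00mm_202_s3 k14_A00mm_202_s3

theorem t22_A00mm_202_s3 : ∃ t, chk3 f_A00mm_202_s3 t 7 17 1 = true := ex3_a k5_A00mm_202_s3 k6_A00mm_202_s3

theorem t23_A00mm_202_s3 : ∃ t, chk3 f_A00mm_202_s3 t 7 8 1 = true := ex3_b k4_A00mm_202_s3 t22_A00mm_202_s3

theorem t24_A00mm_202_s3 : ∃ t, chk3 f_A00mm_202_s3 t 7 4 1 = true := ex3_b t23_A00mm_202_s3 k7_A00mm_202_s3

theorem t25_A00mm_202_s3 : ∃ t, chk3 f_A00mm_202_s3 t 6 4 1 = true := ex3_b k2_A00mm_202_s3 k3_A00mm_202_s3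

theorem t26_A00mm_202_s3 : ∃ t, chk3 f_A00mm_202_s3 t 3 4 1 = true := ex3_a t25_A00mm_202_s3 t24_A00mm_202_s3

theorem t27_A00mm_202_s3 : ∃ t, chk3 f_A00mm_202_s3 t 3 2 1 = true := ex3_b t26_A00mm_202_s3 t21_A00mm_202_s3

theorem t28_A00mm_202_s3 : ∃ t, chk3 f_A00mm_202_s3 t 3 1 1 = true := ex3_b t27_A00mm_202_s3 k15_A00mm_202_s3

theorem t29_A00mm_202_s3 : ∃ t, chk3 f_A00mm_202_s3 t 2 1 1 = true := ex3_b k0_A00mm_202_s3 k1_A00mm_202_s3

theorem t30_A00mm_202_s3 : ∃ t, chk3 f_A00mm_202_s3 t 1 1 1 = true := ex3_a t29_A00mm_202_s3 t28_A00mm_202_s3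

theorem c_A00mm_202_s3 : CertF 0 536870912 0 536870912 536870912 50465866 true false false .pp 2 0 2
    ndB0q2 ndB0q0 pcB2 cut_A00mm_202_s3 xt_A00mm_202_s3 :=
  certF0 (fam := true) (s1 := false) (s2 := false) (a := 2) (b := 0) (c := 2) (cn := .pp) (n1 := ndB0q2) (n2 := ndB0q0) (pc := pcB2) (cut := cut_A00mm_202_s3) (xt := xt_A00mm_202_s3) (P1 := 0) (W1 := 536870912) (P2 := 0) (W2 := 536870912) (P3 := 536870912) (W3 := 50465866)
    rfl t30_A00mm_202_s3

theorem s_A00mm_202_s3 {κ x : ℝ} (hκ : κ * h0 = ken x) (hx : ((536870912 : ℕ) : ℝ) / S ≤ x)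
    (hx' : x ≤ (((536870912 : ℕ) : ℝ) + (50465866 : ℕ)) / S)
    (H : CutA (VFD κ) PP tK tL pcB (Cut.of [[⟨0, 1, 0, 67108864⟩, ⟨1, 0, 0, 67108864⟩, ⟨2, 1, 0, 67108864⟩]]) 2 0 2 0 0 (sgb false) (sgb false) x) :
    AltA (VFD κ) PP tK tL pcB [⟨4, 0, 0, 2845415833⟩] 2 0 2 0 0 (sgb false) (sgb false) x :=
  strip_altAD (m := 2845415833) false rfl hκ (SH.κ0 hκ (SH.hx1 hx).le (SH.hx2 hx').le) (SH.hx1 hx).le (SH.hx2 hx') (covB02).cov (covB00).cov hx hx' c_A00mm_202_s3 H ((okx6 hx hx').extA (T := tt) (okx hx hx') (sideB hx hx') hκ rfl rfl (.O 2 false) (.O 0 false) (Or.inl rfl))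

noncomputable def cut_A00mm_203_s1 : Cut := Cut.of [[⟨4, 0, 0, 1449551462⟩]]

noncomputable def f_A00mm_203_s1 : ℕ → ℕ → ℕ → ℕ → Bool := onCell 0 536870912 0 536870912 536870912 50465866
    (rowF 0 true false false .up 2 0 3 (qsf 0 536870912 0 536870912 3) ndB0q2 ndB0q0 pcB3 cut_A00mm_203_s1 Ext.none)

def k0_A00mm_203_s1 : ∃ t, chk3 f_A00mm_203_s1 t 1 1 1 = true :=
  ⟨(l 6), by decide +kernel⟩

theorem c_A00mm_203_s1 : CertF 0 536870912 0 536870912 536870912 50465866 true false false .up 2 0 3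
    ndB0q2 ndB0q0 pcB3 cut_A00mm_203_s1 Ext.none :=
  certF0 (fam := true) (s1 := false) (s2 := false) (a := 2) (b := 0) (c := 3) (cn := .up) (n1 := ndB0q2) (n2 := ndB0q0) (pc := pcB3) (cut := cut_A00mm_203_s1) (xt := Ext.none) (P1 := 0) (W1 := 536870912) (P2 := 0) (W2 := 536870912) (P3 := 536870912) (W3 := 50465866)
    rfl k0_A00mm_203_s1

theorem s_A00mm_203_s1 {κ x : ℝ} (hκ : κ * h0 = ken x) (hx : ((536870912 : ℕ) : ℝ) / S ≤ x)
    (hx' : x ≤ (((536870912 : ℕ) : ℝ) + (50465866 : ℕ)) / S) :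
    AltA (VFD κ) PP tK tL pcB [⟨3, 0, 0, 1449551462⟩] 2 0 3 0 0 (sgb false) (sgb false) x :=
  strip_altAD (m := 1449551462) true rfl hκ (SH.κ0 hκ (SH.hx1 hx).le (SH.hx2 hx').le) (SH.hx1 hx).le (SH.hx2 hx') (covB02).cov (covB00).cov hx hx' c_A00mm_203_s1 cutA_nil (noExt_A)

noncomputable def cut_A00mm_203_s3 : Cut := Cut.of [[⟨3, 0, 0, 2845415833⟩]]

noncomputable def xt_A00mm_203_s3 : Ext := strExt6 dd true false false .u2 .u0m .s2m .up 2 0 3 rfl rfl gl3 vv ww ndB0q2 ndB0q0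

noncomputable def f_A00mm_203_s3 : ℕ → ℕ → ℕ → ℕ → Bool := onCell 0 536870912 1610612736 536870912 536870912 50465866
    (rowF 1 true false false .up 2 0 3 (qsf 0 536870912 0 536870912 3) ndB0q2 ndB0q0 pcB3 cut_A00mm_203_s3 xt_A00mm_203_s3)

def k0_A00mm_203_s3 : ∃ t, chk3 f_A00mm_203_s3 t 1 1 1 = true :=
  ⟨(a (b (a (b (b (a (b (a (l 16678448) (l 16691056)) (a (l 16678768) (l 16778488))) (a (b (l 16790344) (b (l 16711296) (l 16715304))) (b (b (l 16724496) (l 16728592)) (b (l 16775664) (b (l 16780128) (l 16783328)))))) (a (b (a (l 16685448) (c (l 16795784) (l 16782704))) (a (b (l 16714808) (l 16730744)) (b (l 16731112) (l 16744904)))) (a (a (b (b (l 16713792) (l 16729856)) (b (l 16744648) (c (l 16759088) (l 16754496)))) (b (b (l 16726232) (l 16741048)) (b (c (l 16777896) (l 16773272)) (b (l 16773528) (b (l 16777240) (l 1070183951)))))) (b (a (b (l 16781944) (c (l 16776312) (l 16771712))) (c (l 1069444623) (l 1069292559)))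 (a (a (b (l 1069372943) (a (c (l 1071965199) (l 1069503503)) (l 1069896207))) (b (l 1069335055) (l 1070942735))) (b (l 1069279247) (c (l 1070259215) (l 1069388815)))))))) (b (b (a (a (b (l 16744080) (l 16754664)) (a (b (l 16752968) (l 16762264)) (b (l 16780448) (l 1071204879)))) (a (b (c (l 1070986255) (l 1070187023)) (l 1071066127)) (a (b (a (c (l 1071508495) (l 1070127631)) (l 4)) (l 4)) (l 4)))) (a (l 2) (l 2))) (l 2))) (b (b (a (a (b (b (l 16766160) (a (l 16745152) (l 1069920783))) (a (b (l 16772408) (b (l 16756888) (l 1068979215))) (c (b (l 1069759503) (l 1069324815)) (b (l 1069443599) (l 1069033487))))) (b (a (l 1070174735) (l 1070265359)) (b (a (l 1069739023) (l 1069871119)) (b (l 1070086671) (l 4))))) (b (a (a (a (l 1070322703) (l 1071015439)) (l 4)) (l 4)) (l 4))) (a (a (b (a (c (l 1069368847) (l 1069355023)) (b (a (l 1068667919) (l 1068699151)) (l 4))) (l 4)) (l 4)) (l 4))) (l 4))) (l 2)) (b (l 4) (l 2))), by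 decide +kernel⟩

theorem c_A00mm_203_s3 : CertF 0 536870912 0 536870912 536870912 50465866 true false false .up 2 0 3
    ndB0q2 ndB0q0 pcB3 cut_A00mm_203_s3 xt_A00mm_203_s3 :=
  certF1 (fam := true) (s1 := false) (s2 := false) (a := 2) (b := 0) (c := 3) (cn := .up) (n1 := ndB0q2) (n2 := ndB0q0) (pc := pcB3) (cut := cut_A00mm_203_s3) (xt := xt_A00mm_203_s3) (P1 := 0) (W1 := 536870912) (P2 := 0) (W2 := 536870912) (P3 := 536870912) (W3 := 50465866)
    rfl (fun _ => rfl) k0_A00mm_203_s3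

theorem s_A00mm_203_s3 {κ x : ℝ} (hκ : κ * h0 = ken x) (hx : ((536870912 : ℕ) : ℝ) / S ≤ x)
    (hx' : x ≤ (((536870912 : ℕ) : ℝ) + (50465866 : ℕ)) / S) :
    AltA (VFD κ) PP tK tL pcB [⟨4, 0, 0, 2845415833⟩] 2 0 3 0 0 (sgb false) (sgb false) x :=
  strip_altAD (m := 2845415833) false rfl hκ (SH.κ0 hκ (SH.hx1 hx).le (SH.hx2 hx').le) (SH.hx1 hx).le (SH.hx2 hx') (covB02).cov (covB00).cov hx hx' c_A00mm_203_s3 cutA_nil ((okx6 hx hx').extA (T := tt) (okx hx hx') (sideB hx hx') hκ rfl rfl (.O 2 false) (.O 0 false) (Or.inr rfl))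

noncomputable def cut_A00mm_213_s1 : Cut := Cut.of [[⟨4, 0, 0, 1449551462⟩]]

noncomputable def f_A00mm_213_s1 : ℕ → ℕ → ℕ → ℕ → Bool := onCell 0 536870912 536870912 536870912 536870912 50465866
    (rowF 0 true false false .pnn 2 1 3 (qsf 0 536870912 536870912 536870912 3) ndB0q2 ndB0q1 pcB3 cut_A00mm_213_s1 Ext.none)

def k0_A00mm_213_s1 : ∃ t, chk3 f_A00mm_213_s1 t 1 1 1 = true :=
  ⟨(l 6), by decide +kernel⟩

theorem c_A00mm_213_s1 : CertF 0 536870912 536870912 536870912 536870912 50465866 true false false .pnn 2 1 3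
    ndB0q2 ndB0q1 pcB3 cut_A00mm_213_s1 Ext.none :=
  certF0 (fam := true) (s1 := false) (s2 := false) (a := 2) (b := 1) (c := 3) (cn := .pnn) (n1 := ndB0q2) (n2 := ndB0q1) (pc := pcB3) (cut := cut_A00mm_213_s1) (xt := Ext.none) (P1 := 0) (W1 := 536870912) (P2 := 536870912) (W2 := 536870912) (P3 := 536870912) (W3 := 50465866)
    rfl k0_A00mm_213_s1

theorem s_A00mm_213_s1 {κ x : ℝ} (hκ : κ * h0 = ken x) (hx : ((536870912 : ℕ) : ℝ) / S ≤ x)
    (hx' : x ≤ (((536870912 : ℕ) : ℝ) + (50465866 : ℕ)) / S) :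
    AltA (VFD κ) PP tK tL pcB [⟨3, 0, 0, 1449551462⟩] 2 1 3 0 0 (sgb false) (sgb false) x :=
  strip_altAD (m := 1449551462) true rfl hκ (SH.κ0 hκ (SH.hx1 hx).le (SH.hx2 hx').le) (SH.hx1 hx).le (SH.hx2 hx') (covB02).cov (covB01).cov hx hx' c_A00mm_213_s1 cutA_nil (noExt_A)

noncomputable def cut_A00mm_213_s3 : Cut := Cut.of [[⟨3, 0, 0, 2845415833⟩]]

noncomputable def xt_A00mm_213_s3 : Ext := strExt6 dd true false false .u2 .u0m .s2m .pnn 2 1 3 rfl rfl gl3 vv ww ndB0q2 ndB0q1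

noncomputable def f_A00mm_213_s3 : ℕ → ℕ → ℕ → ℕ → Bool := onCell 0 536870912 536870912 536870912 536870912 50465866
    (rowF 0 true false false .pnn 2 1 3 (qsf 0 536870912 536870912 536870912 3) ndB0q2 ndB0q1 pcB3 cut_A00mm_213_s3 xt_A00mm_213_s3)

def k0_A00mm_213_s3 : ∃ t, chk3 f_A00mm_213_s3 t 1 1 1 = true :=
  ⟨(a (b (a (b (b (a (b (a (a (b (l 16759720) (l 16765952)) (b (l 16763824) (l 1071978511))) (b (a (l 1071608847) (l 1071515151)) (a (l 1073523727) (l 1071829519)))) (a (a (b (l 1072229391) (a (b (l 16772912) (l 16774744)) (l 1072476687))) (l 1072306191)) (a (l 1072243215) (l 4)))) (a (b (b (l 1071342095) (l 4)) (l 4)) (l 4))) (a (b (a (b (a (b (a (l 1072743439) (l 1072714255)) (l 1072876559)) (l 4)) (l 4)) (l 4)) (l 4)) (l 4))) (l 4)) (l 4)) (l 4)) (l 4)), by decide +kernel⟩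

theorem c_A00mm_213_s3 : CertF 0 536870912 536870912 536870912 536870912 50465866 true false false .pnn 2 1 3
    ndB0q2 ndB0q1 pcB3 cut_A00mm_213_s3 xt_A00mm_213_s3 :=
  certF0 (fam := true) (s1 := false) (s2 := false) (a := 2) (b := 1) (c := 3) (cn := .pnn) (n1 := ndB0q2) (n2 := ndB0q1) (pc := pcB3) (cut := cut_A00mm_213_s3) (xt := xt_A00mm_213_s3) (P1 := 0) (W1 := 536870912) (P2 := 536870912) (W2 := 536870912) (P3 := 536870912) (W3 := 50465866)
    rfl k0_A00mm_213_s3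

theorem s_A00mm_213_s3 {κ x : ℝ} (hκ : κ * h0 = ken x) (hx : ((536870912 : ℕ) : ℝ) / S ≤ x)
    (hx' : x ≤ (((536870912 : ℕ) : ℝ) + (50465866 : ℕ)) / S) :
    AltA (VFD κ) PP tK tL pcB [⟨4, 0, 0, 2845415833⟩] 2 1 3 0 0 (sgb false) (sgb false) x :=
  strip_altAD (m := 2845415833) false rfl hκ (SH.κ0 hκ (SH.hx1 hx).le (SH.hx2 hx').le) (SH.hx1 hx).le (SH.hx2 hx') (covB02).cov (covB01).cov hx hx' c_A00mm_213_s3 cutA_nil ((okx6 hx hx').extA (T := tt) (okx hx hx') (sideB hx hx') hκ rfl rfl (.O 2 false) (.O 1 false) (Or.inr rfl))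

noncomputable def cut_A06pp_001_s1 : Cut := Cut.of [[⟨4, 0, 0, 1449551462⟩]]

noncomputable def f_A06pp_001_s1 : ℕ → ℕ → ℕ → ℕ → Bool := onCell 0 536870912 0 536870912 536870912 50465866
    (rowF 0 true true true .up 0 0 1 (qsf 0 536870912 0 536870912 1) ndB0q0 ndB6q0 pcB1 cut_A06pp_001_s1 Ext.none)

def k0_A06pp_001_s1 : ∃ t, chk3 f_A06pp_001_s1 t 1 1 1 = true :=
  ⟨(l 4), by decide +kernel⟩

theorem c_A06pp_001_s1 : CertF 0 536870912 0 536870912 536870912 50465866 true true true .up 0 0 1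
    ndB0q0 ndB6q0 pcB1 cut_A06pp_001_s1 Ext.none :=
  certF0 (fam := true) (s1 := true) (s2 := true) (a := 0) (b := 0) (c := 1) (cn := .up) (n1 := ndB0q0) (n2 := ndB6q0) (pc := pcB1) (cut := cut_A06pp_001_s1) (xt := Ext.none) (P1 := 0) (W1 := 536870912) (P2 := 0) (W2 := 536870912) (P3 := 536870912) (W3 := 50465866)
    rfl k0_A06pp_001_s1

theorem s_A06pp_001_s1 {κ x : ℝ} (hκ : κ * h0 = ken x) (hx : ((536870912 : ℕ) : ℝ) / S ≤ x)
    (hx' : x ≤ (((536870912 : ℕ) : ℝ) + (50465866 : ℕ)) / S) :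
    AltA (VFD κ) PP tK tL pcB [⟨3, 0, 0, 1449551462⟩] 0 0 1 0 6 (sgb true) (sgb true) x :=
  strip_altAD (m := 1449551462) true rfl hκ (SH.κ0 hκ (SH.hx1 hx).le (SH.hx2 hx').le) (SH.hx1 hx).le (SH.hx2 hx') (covB00).cov (covB60).cov hx hx' c_A06pp_001_s1 cutA_nil (noExt_A)

noncomputable def cut_A06pp_011_s1 : Cut := Cut.of [[⟨4, 0, 0, 1449551462⟩]]

noncomputable def f_A06pp_011_s1 : ℕ → ℕ → ℕ → ℕ → Bool := onCell 0 536870912 536870912 536870912 536870912 50465866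
    (rowF 0 true true true .pnn 0 1 1 (qsf 0 536870912 536870912 536870912 1) ndB0q0 ndB6q1 pcB1 cut_A06pp_011_s1 Ext.none)

def k0_A06pp_011_s1 : ∃ t, chk3 f_A06pp_011_s1 t 1 1 1 = true :=
  ⟨(l 4), by decide +kernel⟩

theorem c_A06pp_011_s1 : CertF 0 536870912 536870912 536870912 536870912 50465866 true true true .pnn 0 1 1
    ndB0q0 ndB6q1 pcB1 cut_A06pp_011_s1 Ext.none :=
  certF0 (fam := true) (s1 := true) (s2 := true) (a := 0) (b := 1) (c := 1) (cn := .pnn) (n1 := ndB0q0) (n2 := ndB6q1) (pc := pcB1) (cut := cut_A06pp_011_s1) (xt := Ext.none) (P1 := 0) (W1 := 536870912) (P2 := 536870912) (W2 := 536870912) (P3 := 536870912) (W3 := 50465866)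
    rfl k0_A06pp_011_s1

theorem s_A06pp_011_s1 {κ x : ℝ} (hκ : κ * h0 = ken x) (hx : ((536870912 : ℕ) : ℝ) / S ≤ x)
    (hx' : x ≤ (((536870912 : ℕ) : ℝ) + (50465866 : ℕ)) / S) :
    AltA (VFD κ) PP tK tL pcB [⟨3, 0, 0, 1449551462⟩] 0 1 1 0 6 (sgb true) (sgb true) x :=
  strip_altAD (m := 1449551462) true rfl hκ (SH.κ0 hκ (SH.hx1 hx).le (SH.hx2 hx').le) (SH.hx1 hx).le (SH.hx2 hx') (covB00).cov (covB61).cov hx hx' c_A06pp_011_s1 cutA_nil (noExt_A)

noncomputable def cut_A06pp_012_s1 : Cut := Cut.of [[⟨4, 0, 0, 1449551462⟩]]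

noncomputable def f_A06pp_012_s1 : ℕ → ℕ → ℕ → ℕ → Bool := onCell 0 536870912 536870912 536870912 536870912 50465866
    (rowF 0 true true true .pnp 0 1 2 (qsf 0 536870912 536870912 536870912 2) ndB0q0 ndB6q1 pcB2 cut_A06pp_012_s1 Ext.none)

def k0_A06pp_012_s1 : ∃ t, chk3 f_A06pp_012_s1 t 1 1 1 = true :=
  ⟨(l 4), by decide +kernel⟩

theorem c_A06pp_012_s1 : CertF 0 536870912 536870912 536870912 536870912 50465866 true true true .pnp 0 1 2
    ndB0q0 ndB6q1 pcB2 cut_A06pp_012_s1 Ext.none :=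
  certF0 (fam := true) (s1 := true) (s2 := true) (a := 0) (b := 1) (c := 2) (cn := .pnp) (n1 := ndB0q0) (n2 := ndB6q1) (pc := pcB2) (cut := cut_A06pp_012_s1) (xt := Ext.none) (P1 := 0) (W1 := 536870912) (P2 := 536870912) (W2 := 536870912) (P3 := 536870912) (W3 := 50465866)
    rfl k0_A06pp_012_s1

theorem s_A06pp_012_s1 {κ x : ℝ} (hκ : κ * h0 = ken x) (hx : ((536870912 : ℕ) : ℝ) / S ≤ x)
    (hx' : x ≤ (((536870912 : ℕ) : ℝ) + (50465866 : ℕ)) / S) :
    AltA (VFD κ) PP tK tL pcB [⟨3, 0, 0, 1449551462⟩] 0 1 2 0 6 (sgb true) (sgb true) x :=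
  strip_altAD (m := 1449551462) true rfl hκ (SH.κ0 hκ (SH.hx1 hx).le (SH.hx2 hx').le) (SH.hx1 hx).le (SH.hx2 hx') (covB00).cov (covB61).cov hx hx' c_A06pp_012_s1 cutA_nil (noExt_A)

noncomputable def cut_A06pp_022_s1 : Cut := Cut.of [[⟨4, 0, 0, 1449551462⟩]]

noncomputable def f_A06pp_022_s1 : ℕ → ℕ → ℕ → ℕ → Bool := onCell 0 536870912 1073741824 536870912 536870912 50465866
    (rowF 0 true true true .pp 0 2 2 (qsf 0 536870912 1073741824 536870912 2) ndB0q0 ndB6q2 pcB2 cut_A06pp_022_s1 Ext.none)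

def k0_A06pp_022_s1 : ∃ t, chk3 f_A06pp_022_s1 t 1 1 1 = true :=
  ⟨(l 4), by decide +kernel⟩

theorem c_A06pp_022_s1 : CertF 0 536870912 1073741824 536870912 536870912 50465866 true true true .pp 0 2 2
    ndB0q0 ndB6q2 pcB2 cut_A06pp_022_s1 Ext.none :=
  certF0 (fam := true) (s1 := true) (s2 := true) (a := 0) (b := 2) (c := 2) (cn := .pp) (n1 := ndB0q0) (n2 := ndB6q2) (pc := pcB2) (cut := cut_A06pp_022_s1) (xt := Ext.none) (P1 := 0) (W1 := 536870912) (P2 := 1073741824) (W2 := 536870912) (P3 := 536870912) (W3 := 50465866)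
    rfl k0_A06pp_022_s1

theorem s_A06pp_022_s1 {κ x : ℝ} (hκ : κ * h0 = ken x) (hx : ((536870912 : ℕ) : ℝ) / S ≤ x)
    (hx' : x ≤ (((536870912 : ℕ) : ℝ) + (50465866 : ℕ)) / S) :
    AltA (VFD κ) PP tK tL pcB [⟨3, 0, 0, 1449551462⟩] 0 2 2 0 6 (sgb true) (sgb true) x :=
  strip_altAD (m := 1449551462) true rfl hκ (SH.κ0 hκ (SH.hx1 hx).le (SH.hx2 hx').le) (SH.hx1 hx).le (SH.hx2 hx') (covB00).cov (covB62).cov hx hx' c_A06pp_022_s1 cutA_nil (noExt_A)

noncomputable def cut_A06pp_023_s1 : Cut := Cut.of [[⟨4, 0, 0, 1449551462⟩]]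

noncomputable def f_A06pp_023_s1 : ℕ → ℕ → ℕ → ℕ → Bool := onCell 0 536870912 1073741824 536870912 536870912 50465866
    (rowF 0 true true true .up 0 2 3 (qsf 0 536870912 1073741824 536870912 3) ndB0q0 ndB6q2 pcB3 cut_A06pp_023_s1 Ext.none)

def k0_A06pp_023_s1 : ∃ t, chk3 f_A06pp_023_s1 t 1 1 1 = true :=
  ⟨(l 4), by decide +kernel⟩

theorem c_A06pp_023_s1 : CertF 0 536870912 1073741824 536870912 536870912 50465866 true true true .up 0 2 3
    ndB0q0 ndB6q2 pcB3 cut_A06pp_023_s1 Ext.none :=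
  certF0 (fam := true) (s1 := true) (s2 := true) (a := 0) (b := 2) (c := 3) (cn := .up) (n1 := ndB0q0) (n2 := ndB6q2) (pc := pcB3) (cut := cut_A06pp_023_s1) (xt := Ext.none) (P1 := 0) (W1 := 536870912) (P2 := 1073741824) (W2 := 536870912) (P3 := 536870912) (W3 := 50465866)
    rfl k0_A06pp_023_s1

theorem s_A06pp_023_s1 {κ x : ℝ} (hκ : κ * h0 = ken x) (hx : ((536870912 : ℕ) : ℝ) / S ≤ x)
    (hx' : x ≤ (((536870912 : ℕ) : ℝ) + (50465866 : ℕ)) / S) :
    AltA (VFD κ) PP tK tL pcB [⟨3, 0, 0, 1449551462⟩] 0 2 3 0 6 (sgb true) (sgb true) x :=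
  strip_altAD (m := 1449551462) true rfl hκ (SH.κ0 hκ (SH.hx1 hx).le (SH.hx2 hx').le) (SH.hx1 hx).le (SH.hx2 hx') (covB00).cov (covB62).cov hx hx' c_A06pp_023_s1 cutA_nil (noExt_A)

noncomputable def cut_A06pp_033_s1 : Cut := Cut.of [[⟨4, 0, 0, 1449551462⟩]]

noncomputable def f_A06pp_033_s1 : ℕ → ℕ → ℕ → ℕ → Bool := onCell 0 536870912 0 1230186008 536870912 50465866
    (rowF 0 true true true .pnn 0 3 3 (qsf 0 536870912 0 1230186008 3) ndB0q0 ndB6q3 pcB3 cut_A06pp_033_s1 Ext.none)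

def k0_A06pp_033_s1 : ∃ t, chk3 f_A06pp_033_s1 t 1 1 1 = true :=
  ⟨(l 4), by decide +kernel⟩

theorem c_A06pp_033_s1 : CertF 0 536870912 0 1230186008 536870912 50465866 true true true .pnn 0 3 3
    ndB0q0 ndB6q3 pcB3 cut_A06pp_033_s1 Ext.none :=
  certF0 (fam := true) (s1 := true) (s2 := true) (a := 0) (b := 3) (c := 3) (cn := .pnn) (n1 := ndB0q0) (n2 := ndB6q3) (pc := pcB3) (cut := cut_A06pp_033_s1) (xt := Ext.none) (P1 := 0) (W1 := 536870912) (P2 := 0) (W2 := 1230186008) (P3 := 536870912) (W3 := 50465866)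
    rfl k0_A06pp_033_s1

theorem s_A06pp_033_s1 {κ x : ℝ} (hκ : κ * h0 = ken x) (hx : ((536870912 : ℕ) : ℝ) / S ≤ x)
    (hx' : x ≤ (((536870912 : ℕ) : ℝ) + (50465866 : ℕ)) / S) :
    AltA (VFD κ) PP tK tL pcB [⟨3, 0, 0, 1449551462⟩] 0 3 3 0 6 (sgb true) (sgb true) x :=
  strip_altAD (m := 1449551462) true rfl hκ (SH.κ0 hκ (SH.hx1 hx).le (SH.hx2 hx').le) (SH.hx1 hx).le (SH.hx2 hx') (covB00).cov (covB63).cov hx hx' c_A06pp_033_s1 cutA_nil (noExt_A)

noncomputable def cut_A06pp_101_s1 : Cut := Cut.of [[⟨4, 0, 0, 1449551462⟩]]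

noncomputable def f_A06pp_101_s1 : ℕ → ℕ → ℕ → ℕ → Bool := onCell 536870912 536870912 0 536870912 536870912 50465866
    (rowF 0 true true true .npn 1 0 1 (qsf 536870912 536870912 0 536870912 1) ndB0q1 ndB6q0 pcB1 cut_A06pp_101_s1 Ext.none)

def k0_A06pp_101_s1 : ∃ t, chk3 f_A06pp_101_s1 t 1 1 1 = true :=
  ⟨(l 4), by decide +kernel⟩

theorem c_A06pp_101_s1 : CertF 536870912 536870912 0 536870912 536870912 50465866 true true true .npn 1 0 1
    ndB0q1 ndB6q0 pcB1 cut_A06pp_101_s1 Ext.none :=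
  certF0 (fam := true) (s1 := true) (s2 := true) (a := 1) (b := 0) (c := 1) (cn := .npn) (n1 := ndB0q1) (n2 := ndB6q0) (pc := pcB1) (cut := cut_A06pp_101_s1) (xt := Ext.none) (P1 := 536870912) (W1 := 536870912) (P2 := 0) (W2 := 536870912) (P3 := 536870912) (W3 := 50465866)
    rfl k0_A06pp_101_s1

theorem s_A06pp_101_s1 {κ x : ℝ} (hκ : κ * h0 = ken x) (hx : ((536870912 : ℕ) : ℝ) / S ≤ x)
    (hx' : x ≤ (((536870912 : ℕ) : ℝ) + (50465866 : ℕ)) / S) :
    AltA (VFD κ) PP tK tL pcB [⟨3, 0, 0, 1449551462⟩] 1 0 1 0 6 (sgb true) (sgb true) x :=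
  strip_altAD (m := 1449551462) true rfl hκ (SH.κ0 hκ (SH.hx1 hx).le (SH.hx2 hx').le) (SH.hx1 hx).le (SH.hx2 hx') (covB01).cov (covB60).cov hx hx' c_A06pp_101_s1 cutA_nil (noExt_A)

noncomputable def cut_A06pp_102_s1 : Cut := Cut.of [[⟨4, 0, 0, 1449551462⟩]]

noncomputable def f_A06pp_102_s1 : ℕ → ℕ → ℕ → ℕ → Bool := onCell 536870912 536870912 0 536870912 536870912 50465866
    (rowF 0 true true true .npp 1 0 2 (qsf 536870912 536870912 0 536870912 2) ndB0q1 ndB6q0 pcB2 cut_A06pp_102_s1 Ext.none)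

def k0_A06pp_102_s1 : ∃ t, chk3 f_A06pp_102_s1 t 1 1 1 = true :=
  ⟨(l 4), by decide +kernel⟩

theorem c_A06pp_102_s1 : CertF 536870912 536870912 0 536870912 536870912 50465866 true true true .npp 1 0 2
    ndB0q1 ndB6q0 pcB2 cut_A06pp_102_s1 Ext.none :=
  certF0 (fam := true) (s1 := true) (s2 := true) (a := 1) (b := 0) (c := 2) (cn := .npp) (n1 := ndB0q1) (n2 := ndB6q0) (pc := pcB2) (cut := cut_A06pp_102_s1) (xt := Ext.none) (P1 := 536870912) (W1 := 536870912) (P2 := 0) (W2 := 536870912) (P3 := 536870912) (W3 := 50465866)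
    rfl k0_A06pp_102_s1

theorem s_A06pp_102_s1 {κ x : ℝ} (hκ : κ * h0 = ken x) (hx : ((536870912 : ℕ) : ℝ) / S ≤ x)
    (hx' : x ≤ (((536870912 : ℕ) : ℝ) + (50465866 : ℕ)) / S) :
    AltA (VFD κ) PP tK tL pcB [⟨3, 0, 0, 1449551462⟩] 1 0 2 0 6 (sgb true) (sgb true) x :=
  strip_altAD (m := 1449551462) true rfl hκ (SH.κ0 hκ (SH.hx1 hx).le (SH.hx2 hx').le) (SH.hx1 hx).le (SH.hx2 hx') (covB01).cov (covB60).cov hx hx' c_A06pp_102_s1 cutA_nil (noExt_A)

noncomputable def cut_A06pp_112_s1 : Cut := Cut.of [[⟨4, 0, 0, 1449551462⟩]]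

noncomputable def f_A06pp_112_s1 : ℕ → ℕ → ℕ → ℕ → Bool := onCell 536870912 536870912 536870912 536870912 536870912 50465866
    (rowF 0 true true true .dn 1 1 2 (qsf 536870912 536870912 536870912 536870912 2) ndB0q1 ndB6q1 pcB2 cut_A06pp_112_s1 Ext.none)

def k0_A06pp_112_s1 : ∃ t, chk3 f_A06pp_112_s1 t 1 1 1 = true :=
  ⟨(l 4), by decide +kernel⟩

theorem c_A06pp_112_s1 : CertF 536870912 536870912 536870912 536870912 536870912 50465866 true true true .dn 1 1 2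
    ndB0q1 ndB6q1 pcB2 cut_A06pp_112_s1 Ext.none :=
  certF0 (fam := true) (s1 := true) (s2 := true) (a := 1) (b := 1) (c := 2) (cn := .dn) (n1 := ndB0q1) (n2 := ndB6q1) (pc := pcB2) (cut := cut_A06pp_112_s1) (xt := Ext.none) (P1 := 536870912) (W1 := 536870912) (P2 := 536870912) (W2 := 536870912) (P3 := 536870912) (W3 := 50465866)
    rfl k0_A06pp_112_s1

theorem s_A06pp_112_s1 {κ x : ℝ} (hκ : κ * h0 = ken x) (hx : ((536870912 : ℕ) : ℝ) / S ≤ x)
    (hx' : x ≤ (((536870912 : ℕ) : ℝ) + (50465866 : ℕ)) / S) :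
    AltA (VFD κ) PP tK tL pcB [⟨3, 0, 0, 1449551462⟩] 1 1 2 0 6 (sgb true) (sgb true) x :=
  strip_altAD (m := 1449551462) true rfl hκ (SH.κ0 hκ (SH.hx1 hx).le (SH.hx2 hx').le) (SH.hx1 hx).le (SH.hx2 hx') (covB01).cov (covB61).cov hx hx' c_A06pp_112_s1 cutA_nil (noExt_A)

noncomputable def cut_A06pp_113_s1 : Cut := Cut.of [[⟨4, 0, 0, 1449551462⟩]]

noncomputable def f_A06pp_113_s1 : ℕ → ℕ → ℕ → ℕ → Bool := onCell 536870912 536870912 536870912 536870912 536870912 50465866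
    (rowF 0 true true true .nn 1 1 3 (qsf 536870912 536870912 536870912 536870912 3) ndB0q1 ndB6q1 pcB3 cut_A06pp_113_s1 Ext.none)

def k0_A06pp_113_s1 : ∃ t, chk3 f_A06pp_113_s1 t 1 1 1 = true :=
  ⟨(l 4), by decide +kernel⟩

theorem c_A06pp_113_s1 : CertF 536870912 536870912 536870912 536870912 536870912 50465866 true true true .nn 1 1 3
    ndB0q1 ndB6q1 pcB3 cut_A06pp_113_s1 Ext.none :=
  certF0 (fam := true) (s1 := true) (s2 := true) (a := 1) (b := 1) (c := 3) (cn := .nn) (n1 := ndB0q1) (n2 := ndB6q1) (pc := pcB3) (cut := cut_A06pp_113_s1) (xt := Ext.none) (P1 := 536870912) (W1 := 536870912) (P2 := 536870912) (W2 := 536870912) (P3 := 536870912) (W3 := 50465866)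
    rfl k0_A06pp_113_s1

theorem s_A06pp_113_s1 {κ x : ℝ} (hκ : κ * h0 = ken x) (hx : ((536870912 : ℕ) : ℝ) / S ≤ x)
    (hx' : x ≤ (((536870912 : ℕ) : ℝ) + (50465866 : ℕ)) / S) :
    AltA (VFD κ) PP tK tL pcB [⟨3, 0, 0, 1449551462⟩] 1 1 3 0 6 (sgb true) (sgb true) x :=
  strip_altAD (m := 1449551462) true rfl hκ (SH.κ0 hκ (SH.hx1 hx).le (SH.hx2 hx').le) (SH.hx1 hx).le (SH.hx2 hx') (covB01).cov (covB61).cov hx hx' c_A06pp_113_s1 cutA_nil (noExt_A)

noncomputable def cut_A06pp_123_s1 : Cut := Cut.of [[⟨4, 0, 0, 1449551462⟩]]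

noncomputable def f_A06pp_123_s1 : ℕ → ℕ → ℕ → ℕ → Bool := onCell 536870912 536870912 1073741824 536870912 536870912 50465866
    (rowF 0 true true true .npn 1 2 3 (qsf 536870912 536870912 1073741824 536870912 3) ndB0q1 ndB6q2 pcB3 cut_A06pp_123_s1 Ext.none)

def k0_A06pp_123_s1 : ∃ t, chk3 f_A06pp_123_s1 t 1 1 1 = true :=
  ⟨(l 4), by decide +kernel⟩

theorem c_A06pp_123_s1 : CertF 536870912 536870912 1073741824 536870912 536870912 50465866 true true true .npn 1 2 3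
    ndB0q1 ndB6q2 pcB3 cut_A06pp_123_s1 Ext.none :=
  certF0 (fam := true) (s1 := true) (s2 := true) (a := 1) (b := 2) (c := 3) (cn := .npn) (n1 := ndB0q1) (n2 := ndB6q2) (pc := pcB3) (cut := cut_A06pp_123_s1) (xt := Ext.none) (P1 := 536870912) (W1 := 536870912) (P2 := 1073741824) (W2 := 536870912) (P3 := 536870912) (W3 := 50465866)
    rfl k0_A06pp_123_s1

theorem s_A06pp_123_s1 {κ x : ℝ} (hκ : κ * h0 = ken x) (hx : ((536870912 : ℕ) : ℝ) / S ≤ x)
    (hx' : x ≤ (((536870912 : ℕ) : ℝ) + (50465866 : ℕ)) / S) :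
    AltA (VFD κ) PP tK tL pcB [⟨3, 0, 0, 1449551462⟩] 1 2 3 0 6 (sgb true) (sgb true) x :=
  strip_altAD (m := 1449551462) true rfl hκ (SH.κ0 hκ (SH.hx1 hx).le (SH.hx2 hx').le) (SH.hx1 hx).le (SH.hx2 hx') (covB01).cov (covB62).cov hx hx' c_A06pp_123_s1 cutA_nil (noExt_A)

noncomputable def cut_A06pp_133_s1 : Cut := Cut.of [[⟨4, 0, 0, 1449551462⟩]]

noncomputable def f_A06pp_133_s1 : ℕ → ℕ → ℕ → ℕ → Bool := onCell 536870912 536870912 0 1230186008 536870912 50465866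
    (rowF 0 true true true .dn 1 3 3 (qsf 536870912 536870912 0 1230186008 3) ndB0q1 ndB6q3 pcB3 cut_A06pp_133_s1 Ext.none)

def k0_A06pp_133_s1 : ∃ t, chk3 f_A06pp_133_s1 t 1 1 1 = true :=
  ⟨(l 4), by decide +kernel⟩

theorem c_A06pp_133_s1 : CertF 536870912 536870912 0 1230186008 536870912 50465866 true true true .dn 1 3 3
    ndB0q1 ndB6q3 pcB3 cut_A06pp_133_s1 Ext.none :=
  certF0 (fam := true) (s1 := true) (s2 := true) (a := 1) (b := 3) (c := 3) (cn := .dn) (n1 := ndB0q1) (n2 := ndB6q3) (pc := pcB3) (cut := cut_A06pp_133_s1) (xt := Ext.none) (P1 := 536870912) (W1 := 536870912) (P2 := 0) (W2 := 1230186008) (P3 := 536870912) (W3 := 50465866)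
    rfl k0_A06pp_133_s1

theorem s_A06pp_133_s1 {κ x : ℝ} (hκ : κ * h0 = ken x) (hx : ((536870912 : ℕ) : ℝ) / S ≤ x)
    (hx' : x ≤ (((536870912 : ℕ) : ℝ) + (50465866 : ℕ)) / S) :
    AltA (VFD κ) PP tK tL pcB [⟨3, 0, 0, 1449551462⟩] 1 3 3 0 6 (sgb true) (sgb true) x :=
  strip_altAD (m := 1449551462) true rfl hκ (SH.κ0 hκ (SH.hx1 hx).le (SH.hx2 hx').le) (SH.hx1 hx).le (SH.hx2 hx') (covB01).cov (covB63).cov hx hx' c_A06pp_133_s1 cutA_nil (noExt_A)

noncomputable def cut_A06pp_202_s1 : Cut := Cut.of [[⟨4, 0, 0, 1449551462⟩]]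

noncomputable def f_A06pp_202_s1 : ℕ → ℕ → ℕ → ℕ → Bool := onCell 0 536870912 0 536870912 536870912 50465866
    (rowF 0 true true true .pp 2 0 2 (qsf 0 536870912 0 536870912 2) ndB0q2 ndB6q0 pcB2 cut_A06pp_202_s1 Ext.none)

def k0_A06pp_202_s1 : ∃ t, chk3 f_A06pp_202_s1 t 1 1 1 = true :=
  ⟨(l 4), by decide +kernel⟩

theorem c_A06pp_202_s1 : CertF 0 536870912 0 536870912 536870912 50465866 true true true .pp 2 0 2
    ndB0q2 ndB6q0 pcB2 cut_A06pp_202_s1 Ext.none :=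
  certF0 (fam := true) (s1 := true) (s2 := true) (a := 2) (b := 0) (c := 2) (cn := .pp) (n1 := ndB0q2) (n2 := ndB6q0) (pc := pcB2) (cut := cut_A06pp_202_s1) (xt := Ext.none) (P1 := 0) (W1 := 536870912) (P2 := 0) (W2 := 536870912) (P3 := 536870912) (W3 := 50465866)
    rfl k0_A06pp_202_s1

theorem s_A06pp_202_s1 {κ x : ℝ} (hκ : κ * h0 = ken x) (hx : ((536870912 : ℕ) : ℝ) / S ≤ x)
    (hx' : x ≤ (((536870912 : ℕ) : ℝ) + (50465866 : ℕ)) / S) :
    AltA (VFD κ) PP tK tL pcB [⟨3, 0, 0, 1449551462⟩] 2 0 2 0 6 (sgb true) (sgb true) x :=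
  strip_altAD (m := 1449551462) true rfl hκ (SH.κ0 hκ (SH.hx1 hx).le (SH.hx2 hx').le) (SH.hx1 hx).le (SH.hx2 hx') (covB02).cov (covB60).cov hx hx' c_A06pp_202_s1 cutA_nil (noExt_A)

noncomputable def cut_A06pp_203_s1 : Cut := Cut.of [[⟨4, 0, 0, 1449551462⟩]]

noncomputable def f_A06pp_203_s1 : ℕ → ℕ → ℕ → ℕ → Bool := onCell 0 536870912 0 536870912 536870912 50465866
    (rowF 0 true true true .up 2 0 3 (qsf 0 536870912 0 536870912 3) ndB0q2 ndB6q0 pcB3 cut_A06pp_203_s1 Ext.none)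

def k0_A06pp_203_s1 : ∃ t, chk3 f_A06pp_203_s1 t 1 1 1 = true :=
  ⟨(l 4), by decide +kernel⟩

theorem c_A06pp_203_s1 : CertF 0 536870912 0 536870912 536870912 50465866 true true true .up 2 0 3
    ndB0q2 ndB6q0 pcB3 cut_A06pp_203_s1 Ext.none :=
  certF0 (fam := true) (s1 := true) (s2 := true) (a := 2) (b := 0) (c := 3) (cn := .up) (n1 := ndB0q2) (n2 := ndB6q0) (pc := pcB3) (cut := cut_A06pp_203_s1) (xt := Ext.none) (P1 := 0) (W1 := 536870912) (P2 := 0) (W2 := 536870912) (P3 := 536870912) (W3 := 50465866)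
    rfl k0_A06pp_203_s1

theorem s_A06pp_203_s1 {κ x : ℝ} (hκ : κ * h0 = ken x) (hx : ((536870912 : ℕ) : ℝ) / S ≤ x)
    (hx' : x ≤ (((536870912 : ℕ) : ℝ) + (50465866 : ℕ)) / S) :
    AltA (VFD κ) PP tK tL pcB [⟨3, 0, 0, 1449551462⟩] 2 0 3 0 6 (sgb true) (sgb true) x :=
  strip_altAD (m := 1449551462) true rfl hκ (SH.κ0 hκ (SH.hx1 hx).le (SH.hx2 hx').le) (SH.hx1 hx).le (SH.hx2 hx') (covB02).cov (covB60).cov hx hx' c_A06pp_203_s1 cutA_nil (noExt_A)

noncomputable def cut_A06pp_213_s1 : Cut := Cut.of [[⟨4, 0, 0, 1449551462⟩]]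

noncomputable def f_A06pp_213_s1 : ℕ → ℕ → ℕ → ℕ → Bool := onCell 0 536870912 536870912 536870912 536870912 50465866
    (rowF 0 true true true .pnn 2 1 3 (qsf 0 536870912 536870912 536870912 3) ndB0q2 ndB6q1 pcB3 cut_A06pp_213_s1 Ext.none)

def k0_A06pp_213_s1 : ∃ t, chk3 f_A06pp_213_s1 t 1 1 1 = true :=
  ⟨(l 4), by decide +kernel⟩

theorem c_A06pp_213_s1 : CertF 0 536870912 536870912 536870912 536870912 50465866 true true true .pnn 2 1 3
    ndB0q2 ndB6q1 pcB3 cut_A06pp_213_s1 Ext.none :=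
  certF0 (fam := true) (s1 := true) (s2 := true) (a := 2) (b := 1) (c := 3) (cn := .pnn) (n1 := ndB0q2) (n2 := ndB6q1) (pc := pcB3) (cut := cut_A06pp_213_s1) (xt := Ext.none) (P1 := 0) (W1 := 536870912) (P2 := 536870912) (W2 := 536870912) (P3 := 536870912) (W3 := 50465866)
    rfl k0_A06pp_213_s1

theorem s_A06pp_213_s1 {κ x : ℝ} (hκ : κ * h0 = ken x) (hx : ((536870912 : ℕ) : ℝ) / S ≤ x)
    (hx' : x ≤ (((536870912 : ℕ) : ℝ) + (50465866 : ℕ)) / S) :
    AltA (VFD κ) PP tK tL pcB [⟨3, 0, 0, 1449551462⟩] 2 1 3 0 6 (sgb true) (sgb true) x :=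
  strip_altAD (m := 1449551462) true rfl hκ (SH.κ0 hκ (SH.hx1 hx).le (SH.hx2 hx').le) (SH.hx1 hx).le (SH.hx2 hx') (covB02).cov (covB61).cov hx hx' c_A06pp_213_s1 cutA_nil (noExt_A)

noncomputable def cut_A06pm_001_s1 : Cut := Cut.of [[⟨4, 0, 0, 1449551462⟩]]

noncomputable def xt_A06pm_001_s1 : Ext := strExt6 dd true true false .u0 .s0m .u0m .up 0 0 1 rfl rfl gf1 vv ww ndB0q0 ndB6q0

noncomputable def f_A06pm_001_s1 : ℕ → ℕ → ℕ → ℕ → Bool := onCell 0 536870912 536870912 536870912 536870912 50465866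
    (rowF 1 true true false .up 0 0 1 (qsf 0 536870912 0 536870912 1) ndB0q0 ndB6q0 pcB1 cut_A06pm_001_s1 xt_A06pm_001_s1)

def k0_A06pm_001_s1 : ∃ t, chk3 f_A06pm_001_s1 t 2 1 1 = true :=
  ⟨(b (l 3) (b (b (l 3) (l 2)) (l 2))), by decide +kernel⟩

def k1_A06pm_001_s1 : ∃ t, chk3 f_A06pm_001_s1 t 6 1 1 = true :=
  ⟨(b (b (l 3) (l 3)) (b (b (a (a (l 3) (b (l 3) (a (l 3) (b (l 3) (l 1048788495))))) (b (a (l 3) (a (b (l 3) (l 1054106639)) (b (l 1057691663) (l 1056303119)))) (a (l 1048004623) (b (l 1052872719) (l 1051073551))))) (a (b (a (l 2) (a (l 2) (b (l 1047798799) (l 2)))) (l 2)) (b (a (b (l 1048165903) (a (l 1048110095) (l 1048399375))) (b (l 1048653327) (l 1048544271))) (a (b (a (l 2) (l 16738592)) (l 2)) (b (l 1048625679) (l 1048645647)))))) (b (a (l 2) (b (a (l 2) (b (l 91368401399) (l 2))) (l 2))) (l 2)))), by decide +kernel⟩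

def k2_A06pm_001_s1 : ∃ t, chk3 f_A06pm_001_s1 t 7 2 1 = true :=
  ⟨(b (l 3) (a (b (l 3) (b (a (l 3) (a (l 3) (b (l 3) (l 1064338959)))) (a (b (l 1061405711) (l 1060569103)) (a (b (b (l 1062898191) (l 1062606863)) (l 1062045199)) (b (c (l 1065432079) (l 1061884431)) (a (l 1062709263) (l 1063175695))))))) (b (b (a (l 3) (a (l 3) (l 1069504527))) (a (b (l 3) (a (l 3) (l 1067051535))) (b (a (a (l 3) (l 1068354063)) (l 1068795407)) (a (a (b (l 1067591183) (l 1067339791)) (b (l 1067924495) (l 1069253647))) (b (l 1068405263) (l 1068138511)))))) (b (a (b (l 1066130447) (l 1065546255)) (a (a (l 1066685967) (b (l 1067243023) (l 16755552))) (b (a (l 1067574799) (l 1067903503)) (l 1067264015)))) (a (b (c (l 1066641423) (l 1065432591)) (a (l 1063859215) (l 16739576))) (a (b (l 1066065935) (l 16734128)) (b (l 16741784) (l 16730000)))))))), by decide +kernel⟩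

def k3_A06pm_001_s1 : ∃ t, chk3 f_A06pm_001_s1 t 7 3 1 = true :=
  ⟨(b (b (a (b (a (b (l 1059591183) (l 1058404879)) (a (b (l 1061186575) (l 1060181519)) (b (l 1062141967) (l 16720608)))) (a (b (l 1056996879) (l 1056440335)) (b (a (l 16707464) (l 16699144)) (a (l 16681432) (l 16673768))))) (b (a (a (b (l 16731104) (l 16713392)) (b (l 16724896) (l 16707656))) (a (b (l 16719896) (l 16703144)) (l 16708384))) (a (b (a (l 16692472) (l 16687280)) (a (l 16667800) (l 16663352))) (a (l 16714080) (b (l 16681056) (l 16658664)))))) (a (b (a (b (l 1053560847) (l 1051483151)) (b (a (l 16650552) (l 16643944)) (a (l 16614112) (l 16609016)))) (a (b (l 16618096) (l 16601072)) (b (l 16569384) (a (l 16521280) (l 16521032))))) (b (a (b (l 16720600) (a (l 16605304) (l 16602904))) (a (b (l 16633112) (l 16601888)) (l 16617976))) (a (a (b (l 16566448) (l 16521312)) (l 16628384)) (a (l 16545464) (l 16548160)))))) (b (a (b (a (b (l 16569120) (b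 (l 16524592) (l 16508352))) (b (a (l 16462648) (l 16465456)) (a (l 16510880) (l 16400440)))) (a (b (l 16503776) (l 2)) (b (l 16460680) (l 16429424)))) (b (a (a (l 16522600) (l 16444048)) (a (l 16449552) (l 16456608))) (a (b (l 16340864) (l 16347928)) (a (l 16321776) (l 16335608))))) (a (b (a (l 2) (l 16378984)) (l 2)) (a (b (l 16302320) (l 16245768)) (b (l 16331288) (l 16205840)))))), by decide +kernel⟩

theorem t4_A06pm_001_s1 : ∃ t, chk3 f_A06pm_001_s1 t 7 1 1 = true := ex3_b k2_A06pm_001_s1 k3_A06pm_001_s1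

theorem t5_A06pm_001_s1 : ∃ t, chk3 f_A06pm_001_s1 t 3 1 1 = true := ex3_a k1_A06pm_001_s1 t4_A06pm_001_s1

theorem t6_A06pm_001_s1 : ∃ t, chk3 f_A06pm_001_s1 t 1 1 1 = true := ex3_a k0_A06pm_001_s1 t5_A06pm_001_s1

theorem c_A06pm_001_s1 : CertF 0 536870912 0 536870912 536870912 50465866 true true false .up 0 0 1
    ndB0q0 ndB6q0 pcB1 cut_A06pm_001_s1 xt_A06pm_001_s1 :=
  certF1 (fam := true) (s1 := true) (s2 := false) (a := 0) (b := 0) (c := 1) (cn := .up) (n1 := ndB0q0) (n2 := ndB6q0) (pc := pcB1) (cut := cut_A06pm_001_s1) (xt := xt_A06pm_001_s1) (P1 := 0) (W1 := 536870912) (P2 := 0) (W2 := 536870912) (P3 := 536870912) (W3 := 50465866)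
    rfl (fun _ => rfl) t6_A06pm_001_s1

theorem s_A06pm_001_s1 {κ x : ℝ} (hκ : κ * h0 = ken x) (hx : ((536870912 : ℕ) : ℝ) / S ≤ x)
    (hx' : x ≤ (((536870912 : ℕ) : ℝ) + (50465866 : ℕ)) / S) :
    AltA (VFD κ) PP tK tL pcB [⟨3, 0, 0, 1449551462⟩] 0 0 1 0 6 (sgb true) (sgb false) x :=
  strip_altAD (m := 1449551462) true rfl hκ (SH.κ0 hκ (SH.hx1 hx).le (SH.hx2 hx').le) (SH.hx1 hx).le (SH.hx2 hx') (covB00).cov (covB60).cov hx hx' c_A06pm_001_s1 cutA_nil ((okx6 hx hx').extA (T := tt) (okx hx hx') (sideB hx hx') hκ rfl rfl (.O 0 true) (.N 0 false) (Or.inr rfl))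

noncomputable def cut_A06pm_011_s1 : Cut := Cut.of [[⟨4, 0, 0, 1449551462⟩], [⟨0, 0, 0, 67108864⟩, ⟨1, 1, 0, 67108864⟩, ⟨2, 1, 0, 67108864⟩]]

noncomputable def xt_A06pm_011_s1 : Ext := strExt6 dd true true false .u0 .s0m .u0m .pnn 0 1 1 rfl rfl gf1 vv ww ndB0q0 ndB6q1

noncomputable def f_A06pm_011_s1 : ℕ → ℕ → ℕ → ℕ → Bool := onCell 0 536870912 536870912 536870912 536870912 50465866
    (rowF 1 true true false .pnn 0 1 1 (qsf 0 536870912 536870912 536870912 1) ndB0q0 ndB6q1 pcB1 cut_A06pm_011_s1 xt_A06pm_011_s1)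

def k0_A06pm_011_s1 : ∃ t, chk3 f_A06pm_011_s1 t 1 2 1 = true :=
  ⟨(a (l 3) (a (b (l 1) (l 3)) (l 1))), by decide +kernel⟩

def k1_A06pm_011_s1 : ∃ t, chk3 f_A06pm_011_s1 t 2 6 1 = true :=
  ⟨(b (l 3) (b (l 3) (a (l 3) (a (l 3) (a (b (l 3) (a (l 3) (l 1043696143))) (b (a (l 3) (b (l 1045158415) (l 1044106255))) (a (l 1043846671) (l 1044113935)))))))), by decide +kernel⟩

def k2_A06pm_011_s1 : ∃ t, chk3 f_A06pm_011_s1 t 4 7 1 = true :=
  ⟨(b (b (l 3) (a (l 3) (a (l 3) (a (l 3) (b (l 3) (l 1046903311)))))) (b (b (a (l 3) (a (a (l 3) (a (l 3) (l 1047584783))) (a (l 1047432207) (l 1047421455)))) (a (a (l 3) (a (l 3) (a (l 3) (a (l 3) (l 1047993359))))) (a (a (a (l 1051181583) (l 1049563151)) (a (l 1047931407) (l 1047917583))) (a (l 1051138575) (l 1048021007))))) (a (b (a (b (l 3) (l 14)) (a (a (b (l 3) (a (l 14) (l 1048268815))) (a (l 1051437583) (l 1049302031))) (a (b (l 1050807823) (l 1051477519)) (c (l 1051452431) (l 1049800207)))))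 (b (a (l 14) (a (a (l 14) (a (l 14) (l 1048427023))) (a (a (l 1048438287) (l 1048448015)) (l 1048421903)))) (a (l 14) (a (l 14) (a (b (l 16739920) (l 14)) (l 1049095695)))))) (a (a (a (b (l 1050386447) (l 1051734031)) (b (l 1048781327) (l 1049075215))) (a (b (l 1048263183) (l 1048572431)) (b (l 1048299023) (l 1048613391)))) (a (b (a (l 1048341519) (l 1048392207)) (b (l 16699608) (l 16694224))) (b (l 1048453647) (l 1048795151))))))), by decide +kernel⟩

def k3_A06pm_011_s1 : ∃ t, chk3 f_A06pm_011_s1 t 5 7 1 = true :=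
  ⟨(b (a (b (a (l 3) (b (l 3) (a (l 1045125135) (l 1044521999)))) (a (a (b (l 3) (l 1048228879)) (b (l 1045905935) (l 1046696975))) (b (a (l 1045563919) (l 1045667855)) (a (l 1046818319) (l 1046979087))))) (b (a (b (a (b (l 3) (l 1043820047)) (l 1043794959)) (a (b (l 1045515791) (l 1046396943)) (l 1046067215))) (b (l 1044793359) (a (l 1044003343) (l 1044195855)))) (a (b (a (l 1046957583) (l 1045752847)) (a (b (l 16718312) (l 16724552)) (l 1048382991))) (b (l 1046964239) (a (l 16689144) (l 16624664)))))) (a (b (a (a (b (l 1047524879) (l 1048172047)) (b (l 1047631375) (l 1048332815))) (b (a (l 1047792655) (l 1048002063)) (a (l 1051218447) (l 1048779279)))) (a (a (b (l 16697440) (l 16666416)) (b (l 1048832527) (l 16627800))) (a (b (l 16682152) (l 16652360)) (b (l 16664336) (l 16635328))))) (b (a (a (b (l 1048254479) (l 16674904)) (b (l 16683384) (l 16656376))) (b (a (l 16663072) (l 16683752)) (a (l 16595384) (l 16575600))))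 (a (a (b (l 16646840) (l 16576808)) (b (l 16587400) (l 16560304))) (b (l 16644264) (a (l 16543680) (l 16525824))))))), by decide +kernel⟩

def k4_A06pm_011_s1 : ∃ t, chk3 f_A06pm_011_s1 t 3 3 1 = true :=
  ⟨(b (b (a (a (a (l 3) (b (l 3) (a (l 3) (b (l 3) (l 1047889423))))) (b (l 1) (a (l 1048026639) (l 1)))) (l 1)) (a (a (b (a (b (l 3) (l 1047610383)) (a (l 1046266895) (b (l 1047806479) (l 1047229455)))) (a (b (a (b (l 1044581903) (l 1044556815)) (l 1045214735)) (a (b (l 1044531215) (l 1044506127)) (l 1045096975))) (b (l 1049153551) (l 1046786063)))) (b (a (b (l 1048179727) (l 1050893839)) (b (l 1) (l 1048555535))) (a (b (l 1050279951) (l 1047954447)) (b (l 16674288) (l 16632232))))) (a (b (l 1) (a (a (l 16611320) (l 1)) (l 1))) (l 1)))) (a (b (a (b (a (b (a (l 1044483087) (l 1044998671)) (a (l 1044499983) (l 16666304))) (b (l 1046585871) (a (l 16654952) (l 16634712)))) (a (b (a (l 16668360) (l 16684904)) (c (l 16611728)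 (l 16629512))) (b (l 16619216) (l 16579664)))) (b (a (b (l 16641192) (l 16606000)) (b (l 16599144) (l 16565848))) (a (b (l 16570136) (l 16575976)) (b (l 16531048) (l 16537656))))) (a (b (b (a (l 16629352) (l 16600864)) (a (l 16627760) (l 16579096))) (a (b (l 16604632) (l 16578928)) (b (a (l 16485336) (l 16457672)) (l 16530928)))) (b (a (b (l 16542456) (l 16435592)) (l 16463072)) (a (l 16485040) (l 16420248))))) (b (a (b (a (b (l 16549584) (l 16538416)) (a (b (l 1) (l 16427648)) (l 1))) (a (b (l 16526168) (l 16493080)) (l 16446528))) (b (l 1) (a (l 71973771575) (l 1)))) (a (a (b (l 16441000) (l 16286800)) (b (l 16381592) (l 16232224))) (b (a (l 16305024) (l 16248720)) (a (l 16244080) (l 16119456))))))), by decide +kernel⟩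

theorem t5_A06pm_011_s1 : ∃ t, chk3 f_A06pm_011_s1 t 2 7 1 = true := ex3_a k2_A06pm_011_s1 k3_A06pm_011_s1

theorem t6_A06pm_011_s1 : ∃ t, chk3 f_A06pm_011_s1 t 2 3 1 = true := ex3_b k1_A06pm_011_s1 t5_A06pm_011_s1

theorem t7_A06pm_011_s1 : ∃ t, chk3 f_A06pm_011_s1 t 1 3 1 = true := ex3_a t6_A06pm_011_s1 k4_A06pm_011_s1

theorem t8_A06pm_011_s1 : ∃ t, chk3 f_A06pm_011_s1 t 1 1 1 = true := ex3_b k0_A06pm_011_s1 t7_A06pm_011_s1

theorem c_A06pm_011_s1 : CertF 0 536870912 536870912 536870912 536870912 50465866 true true false .pnn 0 1 1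
    ndB0q0 ndB6q1 pcB1 cut_A06pm_011_s1 xt_A06pm_011_s1 :=
  certF1 (fam := true) (s1 := true) (s2 := false) (a := 0) (b := 1) (c := 1) (cn := .pnn) (n1 := ndB0q0) (n2 := ndB6q1) (pc := pcB1) (cut := cut_A06pm_011_s1) (xt := xt_A06pm_011_s1) (P1 := 0) (W1 := 536870912) (P2 := 536870912) (W2 := 536870912) (P3 := 536870912) (W3 := 50465866)
    rfl (fun _ => rfl) t8_A06pm_011_s1

theorem s_A06pm_011_s1 {κ x : ℝ} (hκ : κ * h0 = ken x) (hx : ((536870912 : ℕ) : ℝ) / S ≤ x)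
    (hx' : x ≤ (((536870912 : ℕ) : ℝ) + (50465866 : ℕ)) / S)
    (H : CutA (VFD κ) PP tK tL pcB (Cut.of [[⟨0, 0, 0, 67108864⟩, ⟨1, 1, 0, 67108864⟩, ⟨2, 1, 0, 67108864⟩]]) 0 1 1 0 6 (sgb true) (sgb false) x) :
    AltA (VFD κ) PP tK tL pcB [⟨3, 0, 0, 1449551462⟩] 0 1 1 0 6 (sgb true) (sgb false) x :=
  strip_altAD (m := 1449551462) true rfl hκ (SH.κ0 hκ (SH.hx1 hx).le (SH.hx2 hx').le) (SH.hx1 hx).le (SH.hx2 hx') (covB00).cov (covB61).cov hx hx' c_A06pm_011_s1 H ((okx6 hx hx').extA (T := tt) (okx hx hx') (sideB hx hx') hκ rfl rfl (.O 0 true) (.N 1 false) (Or.inr rfl))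

noncomputable def cut_A06pm_012_s1 : Cut := Cut.of [[⟨4, 0, 0, 1449551462⟩], [⟨0, 0, 0, 67108864⟩, ⟨1, 1, 0, 67108864⟩, ⟨2, 1, 0, 67108864⟩]]

noncomputable def f_A06pm_012_s1 : ℕ → ℕ → ℕ → ℕ → Bool := onCell 1073741824 536870912 536870912 536870912 536870912 50465866
    (rowF 2 true true false .pnp 0 1 2 (qsf 0 536870912 536870912 536870912 2) ndB0q0 ndB6q1 pcB2 cut_A06pm_012_s1 Ext.none)

def k0_A06pm_012_s1 : ∃ t, chk3 f_A06pm_012_s1 t 4 2 1 = true :=
  ⟨(b (a (b (a (b (l 16242296) (l 16194336)) (l 6)) (a (b (l 16234968) (l 16287112)) (b (l 16107864) (l 16149320)))) (l 6)) (a (b (a (b (l 16262512) (l 16322128)) (b (l 16199304) (l 16253960))) (a (b (b (l 16365456) (l 16475232)) (a (l 16527624) (l 16408392))) (b (l 16391464) (l 16524376)))) (b (a (b (l 16227536) (l 16274320)) (l 6)) (b (a (l 16324072) (l 16177216)) (a (l 16287256) (l 16221392)))))), by decide +kernel⟩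

def k1_A06pm_012_s1 : ∃ t, chk3 f_A06pm_012_s1 t 8 3 1 = true :=
  ⟨(b (a (b (b (a (a (l 16576936) (l 16475312)) (l 16532752)) (a (a (l 16571888) (l 16595552)) (l 16568160))) (b (a (b (l 16547400) (l 16565232)) (l 16601336)) (a (b (l 16583456) (l 16643848)) (l 16571888)))) (b (b (a (l 16414368) (l 16380072)) (a (l 16448992) (l 16414856))) (b (a (l 16564112) (l 16445152)) (a (l 16595152) (l 16473560))))) (a (b (a (b (b (l 16662432) (l 16670528)) (a (b (l 16711744) (a (l 16693944) (l 16681808))) (c (l 16686632) (l 16675896)))) (b (l 16627552) (b (l 16653840) (c (l 16650720) (l 16628696))))) (a (b (a (b (a (l 16722112) (l 16699536)) (l 14)) (b (l 16702632) (a (l 14) (l 16692832)))) (l 14)) (b (b (a (l 16658064) (l 16676640)) (b (a (l 16691712) (l 16647104)) (a (a (l 14) (l 16673064)) (l 16655240)))) (b (a (l 14) (b (l 16663240) (l 14))) (l 14))))) (b (b (b (l 16619752) (a (l 16635176) (l 16510024))) (b (a (l 16651584) (l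 16525160)) (a (a (l 16595208) (l 16573040)) (l 16540416)))) (b (b (a (a (l 16611664) (l 16589016)) (l 16597552)) (a (a (l 16648744) (l 16604680)) (b (l 16566872) (l 16574280)))) (b (a (a (b (l 16639544) (l 16647224)) (b (l 16616152) (l 16623632))) (b (l 16581576) (l 16609720))) (a (b (a (l 14) (l 16630968)) (l 14)) (b (a (l 16607440) (l 16584192)) (a (l 16614432) (l 16590976))))))))), by decide +kernel⟩

def k2_A06pm_012_s1 : ∃ t, chk3 f_A06pm_012_s1 t 9 3 1 = true :=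
  ⟨(b (b (a (b (l 16329792) (l 16448320)) (b (l 16262664) (l 16300144))) (a (b (l 16478496) (a (l 16437616) (l 16403800))) (b (l 16330104) (l 16439616)))) (b (b (a (b (l 16439416) (l 16535968)) (a (l 16393120) (l 16361120))) (a (a (l 16564792) (l 16451984)) (b (l 16392416) (l 16486512)))) (b (a (b (a (l 16512448) (l 16471000)) (a (l 16526360) (l 16483704))) (b (l 16496808) (a (l 16442912) (l 16404304)))) (a (a (b (b (l 16536624) (l 16543336)) (b (l 16549928) (l 16598320))) (b (l 16496232) (b (l 16505416) (l 16511376)))) (a (b (l 16454184) (l 16507144)) (b (l 16414144) (l 16423832))))))), by decide +kernel⟩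

def k3_A06pm_012_s1 : ∃ t, chk3 f_A06pm_012_s1 t 5 1 1 = true :=
  ⟨(b (b (l 6) (l 6)) (b (a (a (b (a (l 16317176) (l 6)) (a (b (l 16284200) (l 16310112)) (a (l 16275440) (a (l 16264992) (l 16344328))))) (b (l 6) (b (l 6) (l 16248152)))) (l 6)) (a (b (a (a (b (l 16330632) (l 16347712)) (b (a (l 16308888) (l 16382504)) (a (l 16325360) (a (l 16314856) (l 16310120))))) (b (l 16267392) (l 16281920))) (a (a (b (l 16364192) (b (l 16376432) (l 16384608))) (a (b (l 16339536) (l 16353344)) (b (a (l 16328152) (l 16322584)) (a (l 16340600) (b (l 16331000) (l 16336552)))))) (a (b (l 16303776) (l 16355112)) (b (l 16279528) (l 16284392))))) (a (b (l 6) (a (b (l 16257560) (l 16258560)) (l 6))) (l 6))))), by decide +kernel⟩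

def k4_A06pm_012_s1 : ∃ t, chk3 f_A06pm_012_s1 t 3 1 1 = true :=
  ⟨(b (l 6) (l 6)), by decide +kernel⟩

theorem t5_A06pm_012_s1 : ∃ t, chk3 f_A06pm_012_s1 t 4 3 1 = true := ex3_a k1_A06pm_012_s1 k2_A06pm_012_s1

theorem t6_A06pm_012_s1 : ∃ t, chk3 f_A06pm_012_s1 t 4 1 1 = true := ex3_b k0_A06pm_012_s1 t5_A06pm_012_s1

theorem t7_A06pm_012_s1 : ∃ t, chk3 f_A06pm_012_s1 t 2 1 1 = true := ex3_a t6_A06pm_012_s1 k3_A06pm_012_s1

theorem t8_A06pm_012_s1 : ∃ t, chk3 f_A06pm_012_s1 t 1 1 1 = true := ex3_a t7_A06pm_012_s1 k4_A06pm_012_s1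

theorem c_A06pm_012_s1 : CertF 0 536870912 536870912 536870912 536870912 50465866 true true false .pnp 0 1 2
    ndB0q0 ndB6q1 pcB2 cut_A06pm_012_s1 Ext.none :=
  certF2 (fam := true) (s1 := true) (s2 := false) (a := 0) (b := 1) (c := 2) (cn := .pnp) (n1 := ndB0q0) (n2 := ndB6q1) (pc := pcB2) (cut := cut_A06pm_012_s1) (xt := Ext.none) (P1 := 0) (W1 := 536870912) (P2 := 536870912) (W2 := 536870912) (P3 := 536870912) (W3 := 50465866)
    rfl (fun _ => rfl) t8_A06pm_012_s1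

theorem s_A06pm_012_s1 {κ x : ℝ} (hκ : κ * h0 = ken x) (hx : ((536870912 : ℕ) : ℝ) / S ≤ x)
    (hx' : x ≤ (((536870912 : ℕ) : ℝ) + (50465866 : ℕ)) / S)
    (H : CutA (VFD κ) PP tK tL pcB (Cut.of [[⟨0, 0, 0, 67108864⟩, ⟨1, 1, 0, 67108864⟩, ⟨2, 1, 0, 67108864⟩]]) 0 1 2 0 6 (sgb true) (sgb false) x) :
    AltA (VFD κ) PP tK tL pcB [⟨3, 0, 0, 1449551462⟩] 0 1 2 0 6 (sgb true) (sgb false) x :=
  strip_altAD (m := 1449551462) true rfl hκ (SH.κ0 hκ (SH.hx1 hx).le (SH.hx2 hx').le) (SH.hx1 hx).le (SH.hx2 hx') (covB00).cov (covB61).cov hx hx' c_A06pm_012_s1 H (noExt_A)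

noncomputable def cut_A06pm_022_s1 : Cut := Cut.of [[⟨4, 0, 0, 1449551462⟩], [⟨0, 0, 0, 67108864⟩, ⟨1, 1, 0, 67108864⟩, ⟨2, 1, 0, 67108864⟩]]

noncomputable def f_A06pm_022_s1 : ℕ → ℕ → ℕ → ℕ → Bool := onCell 0 536870912 1073741824 536870912 536870912 50465866
    (rowF 1 true true false .pp 0 2 2 (qsf 0 536870912 1073741824 536870912 2) ndB0q0 ndB6q2 pcB2 cut_A06pm_022_s1 Ext.none)

def k0_A06pm_022_s1 : ∃ t, chk3 f_A06pm_022_s1 t 2 4 1 = true :=
  ⟨(b (a (a (a (b (l 14) (b (l 14) (b (l 14) (a (l 16647504) (l 16674816))))) (b (a (l 14) (l 1)) (b (a (l 14) (a (l 14) (l 1))) (a (b (l 14) (l 16616688)) (b (a (l 14) (l 16608288)) (a (l 16603552) (l 16594312))))))) (b (l 1) (b (l 1) (a (a (b (l 1) (l 16600696)) (l 1)) (l 1))))) (l 1)) (a (a (a (b (a (a (l 16652368) (l 16646280)) (b (l 16609760) (l 16579160))) (b (l 16596624) (l 16545464))) (b (b (a (b (l 16601912) (l 16587176)) (a (l 16582128) (l 16615320))) (a (l 16565208)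 (l 16549728))) (b (a (l 16536264) (l 16522032)) (l 16585512)))) (b (b (a (a (b (l 33319171015) (l 67678882503)) (b (l 1) (l 16533368))) (l 1)) (a (a (b (l 16539424) (l 16526104)) (b (l 16520632) (l 16507984))) (a (b (l 1) (l 16488352)) (l 1)))) (a (b (a (l 16506312) (l 16531096)) (a (l 16480416) (l 16464512))) (b (a (b (l 16476448) (l 16464656)) (l 16450448)) (a (l 16447240) (l 75731729111)))))) (b (l 1) (a (a (b (l 1) (a (l 16408392) (l 1))) (l 1)) (l 1))))), by decide +kernel⟩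

def k1_A06pm_022_s1 : ∃ t, chk3 f_A06pm_022_s1 t 2 5 1 = true :=
  ⟨(a (b (b (a (b (a (l 16505712) (l 16474752)) (b (a (l 16557936) (l 16455280)) (a (b (l 16463920) (b (l 16459312) (l 16456776))) (b (l 16446040) (b (l 16441856) (l 16439560)))))) (b (a (l 16448136) (a (l 16424624) (l 16407312))) (b (a (l 16430408) (l 16400264)) (a (b (l 16422008) (l 16501640)) (b (l 16392768) (l 16472968)))))) (a (a (b (l 16482712) (l 16412504)) (b (l 16425096) (l 16399984))) (a (l 16517824) (b (l 16376112) (l 16356704))))) (a (b (a (l 16537208) (l 16362536)) (a (l 16308168) (l 16311872))) (b (a (l 16347992) (l 16328344)) (a (l 16304392) (l 16291224))))) (b (b (a (b (a (a (l 16388632) (l 16368480)) (l 1)) (b (a (l 16406952) (l 1)) (a (b (l 16358576) (b (l 16355752) (l 16354344))) (b (l 1) (b (l 1) (l 16315616)))))) (l 1)) (a (a (b (l 16344464) (l 16328312)) (b (l 51572285895) (l 16295352))) (a (b (l 1) (l 16257024)) (l 1)))) (b (a (a (l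 16304896) (b (l 16283464) (l 16271856))) (a (b (l 84321242663) (l 16242248)) (a (l 74120631655) (l 1)))) (a (a (l 16274552) (l 16254872)) (l 6))))), by decide +kernel⟩

def k2_A06pm_022_s1 : ∃ t, chk3 f_A06pm_022_s1 t 2 3 1 = true :=
  ⟨(b (b (a (a (b (a (l 16240312) (l 16257464)) (a (l 16167072) (l 6))) (a (b (l 16260136) (l 6)) (l 16446112))) (l 6)) (l 6)) (l 6)), by decide +kernel⟩

def k3_A06pm_022_s1 : ∃ t, chk3 f_A06pm_022_s1 t 3 1 1 = true :=
  ⟨(b (b (l 1) (a (b (l 1) (l 6)) (l 1))) (l 6)), by decide +kernel⟩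

theorem t4_A06pm_022_s1 : ∃ t, chk3 f_A06pm_022_s1 t 2 2 1 = true := ex3_b k0_A06pm_022_s1 k1_A06pm_022_s1

theorem t5_A06pm_022_s1 : ∃ t, chk3 f_A06pm_022_s1 t 2 1 1 = true := ex3_b t4_A06pm_022_s1 k2_A06pm_022_s1

theorem t6_A06pm_022_s1 : ∃ t, chk3 f_A06pm_022_s1 t 1 1 1 = true := ex3_a t5_A06pm_022_s1 k3_A06pm_022_s1

theorem c_A06pm_022_s1 : CertF 0 536870912 1073741824 536870912 536870912 50465866 true true false .pp 0 2 2
    ndB0q0 ndB6q2 pcB2 cut_A06pm_022_s1 Ext.none :=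
  certF1 (fam := true) (s1 := true) (s2 := false) (a := 0) (b := 2) (c := 2) (cn := .pp) (n1 := ndB0q0) (n2 := ndB6q2) (pc := pcB2) (cut := cut_A06pm_022_s1) (xt := Ext.none) (P1 := 0) (W1 := 536870912) (P2 := 1073741824) (W2 := 536870912) (P3 := 536870912) (W3 := 50465866)
    rfl (fun _ => rfl) t6_A06pm_022_s1

theorem s_A06pm_022_s1 {κ x : ℝ} (hκ : κ * h0 = ken x) (hx : ((536870912 : ℕ) : ℝ) / S ≤ x)
    (hx' : x ≤ (((536870912 : ℕ) : ℝ) + (50465866 : ℕ)) / S)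
    (H : CutA (VFD κ) PP tK tL pcB (Cut.of [[⟨0, 0, 0, 67108864⟩, ⟨1, 1, 0, 67108864⟩, ⟨2, 1, 0, 67108864⟩]]) 0 2 2 0 6 (sgb true) (sgb false) x) :
    AltA (VFD κ) PP tK tL pcB [⟨3, 0, 0, 1449551462⟩] 0 2 2 0 6 (sgb true) (sgb false) x :=
  strip_altAD (m := 1449551462) true rfl hκ (SH.κ0 hκ (SH.hx1 hx).le (SH.hx2 hx').le) (SH.hx1 hx).le (SH.hx2 hx') (covB00).cov (covB62).cov hx hx' c_A06pm_022_s1 H (noExt_A)

noncomputable def cut_A06pm_023_s1 : Cut := Cut.of [[⟨4, 0, 0, 1449551462⟩]]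

noncomputable def f_A06pm_023_s1 : ℕ → ℕ → ℕ → ℕ → Bool := onCell 1610612736 536870912 1073741824 536870912 536870912 50465866
    (rowF 2 true true false .up 0 2 3 (qsf 0 536870912 1073741824 536870912 3) ndB0q0 ndB6q2 pcB3 cut_A06pm_023_s1 Ext.none)

def k0_A06pm_023_s1 : ∃ t, chk3 f_A06pm_023_s1 t 1 1 1 = true :=
  ⟨(a (l 6) (l 6)), by decide +kernel⟩

theorem c_A06pm_023_s1 : CertF 0 536870912 1073741824 536870912 536870912 50465866 true true false .up 0 2 3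
    ndB0q0 ndB6q2 pcB3 cut_A06pm_023_s1 Ext.none :=
  certF2 (fam := true) (s1 := true) (s2 := false) (a := 0) (b := 2) (c := 3) (cn := .up) (n1 := ndB0q0) (n2 := ndB6q2) (pc := pcB3) (cut := cut_A06pm_023_s1) (xt := Ext.none) (P1 := 0) (W1 := 536870912) (P2 := 1073741824) (W2 := 536870912) (P3 := 536870912) (W3 := 50465866)
    rfl (fun _ => rfl) k0_A06pm_023_s1

theorem s_A06pm_023_s1 {κ x : ℝ} (hκ : κ * h0 = ken x) (hx : ((536870912 : ℕ) : ℝ) / S ≤ x)
    (hx' : x ≤ (((536870912 : ℕ) : ℝ) + (50465866 : ℕ)) / S) :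
    AltA (VFD κ) PP tK tL pcB [⟨3, 0, 0, 1449551462⟩] 0 2 3 0 6 (sgb true) (sgb false) x :=
  strip_altAD (m := 1449551462) true rfl hκ (SH.κ0 hκ (SH.hx1 hx).le (SH.hx2 hx').le) (SH.hx1 hx).le (SH.hx2 hx') (covB00).cov (covB62).cov hx hx' c_A06pm_023_s1 cutA_nil (noExt_A)

noncomputable def cut_A06pm_033_s1 : Cut := Cut.of [[⟨4, 0, 0, 1449551462⟩]]

noncomputable def f_A06pm_033_s1 : ℕ → ℕ → ℕ → ℕ → Bool := onCell 1610612736 536870912 0 1230186008 536870912 50465866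
    (rowF 2 true true false .pnn 0 3 3 (qsf 0 536870912 0 1230186008 3) ndB0q0 ndB6q3 pcB3 cut_A06pm_033_s1 Ext.none)

def k0_A06pm_033_s1 : ∃ t, chk3 f_A06pm_033_s1 t 1 1 1 = true :=
  ⟨(b (l 6) (l 6)), by decide +kernel⟩

theorem c_A06pm_033_s1 : CertF 0 536870912 0 1230186008 536870912 50465866 true true false .pnn 0 3 3
    ndB0q0 ndB6q3 pcB3 cut_A06pm_033_s1 Ext.none :=
  certF2 (fam := true) (s1 := true) (s2 := false) (a := 0) (b := 3) (c := 3) (cn := .pnn) (n1 := ndB0q0) (n2 := ndB6q3) (pc := pcB3) (cut := cut_A06pm_033_s1) (xt := Ext.none) (P1 := 0) (W1 := 536870912) (P2 := 0) (W2 := 1230186008) (P3 := 536870912) (W3 := 50465866)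
    rfl (fun _ => rfl) k0_A06pm_033_s1

theorem s_A06pm_033_s1 {κ x : ℝ} (hκ : κ * h0 = ken x) (hx : ((536870912 : ℕ) : ℝ) / S ≤ x)
    (hx' : x ≤ (((536870912 : ℕ) : ℝ) + (50465866 : ℕ)) / S) :
    AltA (VFD κ) PP tK tL pcB [⟨3, 0, 0, 1449551462⟩] 0 3 3 0 6 (sgb true) (sgb false) x :=
  strip_altAD (m := 1449551462) true rfl hκ (SH.κ0 hκ (SH.hx1 hx).le (SH.hx2 hx').le) (SH.hx1 hx).le (SH.hx2 hx') (covB00).cov (covB63).cov hx hx' c_A06pm_033_s1 cutA_nil (noExt_A)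

noncomputable def cut_A06pm_101_s1 : Cut := Cut.of [[⟨4, 0, 0, 1449551462⟩]]

noncomputable def xt_A06pm_101_s1 : Ext := strExt6 dd true true false .u0 .s0m .u0m .npn 1 0 1 rfl rfl gf1 vv ww ndB0q1 ndB6q0

noncomputable def f_A06pm_101_s1 : ℕ → ℕ → ℕ → ℕ → Bool := onCell 536870912 536870912 536870912 536870912 536870912 50465866
    (rowF 1 true true false .npn 1 0 1 (qsf 536870912 536870912 0 536870912 1) ndB0q1 ndB6q0 pcB1 cut_A06pm_101_s1 xt_A06pm_101_s1)

def k0_A06pm_101_s1 : ∃ t, chk3 f_A06pm_101_s1 t 1 2 1 = true :=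
  ⟨(a (b (b (a (a (l 3) (a (a (l 3) (l 1)) (l 1))) (l 1)) (a (a (b (a (l 3) (b (l 3) (l 1071280143))) (a (b (l 3) (l 1070597647)) (l 1071090703))) (a (b (a (b (l 1071455759) (l 1071401999)) (b (l 1071475215) (l 1071448079))) (a (b (l 1071317519) (l 16771160)) (b (l 1071391759) (l 16768600)))) (b (b (l 1) (a (l 16772888) (l 1))) (a (b (l 16769224) (l 16766048)) (l 16766128))))) (a (a (b (l 1) (l 145525623975)) (l 1)) (l 1)))) (a (b (a (b (a (b (a (l 1070121487) (l 1070493199)) (l 1069951503)) (b (l 1070839311) (l 1070607887))) (a (b (l 1069557775) (a (l 1068855823) (l 16761008))) (b (l 1070320143) (l 16756904)))) (a (b (a (l 1071025167) (l 16763408)) (a (l 16756464) (l 16754400))) (b (a (l 16761048) (l 16758656)) (b (l 16753816) (l 16748848))))) (b (a (a (b (a (l 1068372495) (l 16753696)) (a (l 16748256) (l 16745512))) (b (l 16750016) (l 16742480))) (a (a (l 16743832) (l 16742328)) (b (l 16743280) (l 16737432)))) (a (a (a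 (b (l 16738504) (l 16727192)) (l 16731000)) (a (l 16729736) (l 16728808))) (a (a (l 16728272) (l 16727856)) (l 16727096))))) (b (a (b (a (a (l 16756528) (l 16755536)) (l 16841600)) (a (b (l 16833248) (l 16744976)) (b (l 16746512) (l 16740576)))) (b (l 1) (a (b (l 1) (l 16742376)) (l 1)))) (a (b (a (l 16737640) (l 16733936)) (a (l 16726320) (l 16724672))) (b (a (l 16731936) (l 16737424)) (a (l 16721824) (l 16721352))))))) (a (b (l 1) (a (b (l 1) (a (b (l 1) (l 16728952)) (l 1))) (l 1))) (l 1))), by decide +kernel⟩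

def k1_A06pm_101_s1 : ∃ t, chk3 f_A06pm_101_s1 t 1 3 1 = true :=
  ⟨(a (b (a (a (b (a (b (a (l 16706448) (l 16705600)) (a (l 16669832) (l 16670888))) (b (a (l 16705720) (l 16706248)) (l 16673392))) (a (b (a (l 16619752) (l 16623080)) (l 16555848)) (b (l 16629424) (l 16570792)))) (b (a (b (l 16707064) (l 16678384)) (l 16696928)) (a (a (l 16611344) (l 16617920)) (l 16627384)))) (a (b (b (l 16878464) (l 16690288)) (a (l 16639440) (l 16649664))) (a (b (l 16704080) (l 16658752)) (b (l 16788384) (l 6))))) (a (a (b (a (b (l 16554464) (l 16358424)) (b (l 16493464) (l 16392936))) (a (b (l 16211416) (l 16085312)) (b (l 16261808) (l 16090800)))) (b (a (b (l 16517688) (l 16426792)) (l 16502288)) (a (b (l 16309432) (l 6)) (l 6)))) (b (a (a (l 16528424) (l 6)) (l 6)) (l 6)))) (a (b (a (l 6) (l 6)) (l 6)) (l 6))), by decide +kernel⟩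

theorem t2_A06pm_101_s1 : ∃ t, chk3 f_A06pm_101_s1 t 1 1 1 = true := ex3_b k0_A06pm_101_s1 k1_A06pm_101_s1

theorem c_A06pm_101_s1 : CertF 536870912 536870912 0 536870912 536870912 50465866 true true false .npn 1 0 1
    ndB0q1 ndB6q0 pcB1 cut_A06pm_101_s1 xt_A06pm_101_s1 :=
  certF1 (fam := true) (s1 := true) (s2 := false) (a := 1) (b := 0) (c := 1) (cn := .npn) (n1 := ndB0q1) (n2 := ndB6q0) (pc := pcB1) (cut := cut_A06pm_101_s1) (xt := xt_A06pm_101_s1) (P1 := 536870912) (W1 := 536870912) (P2 := 0) (W2 := 536870912) (P3 := 536870912) (W3 := 50465866)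
    rfl (fun _ => rfl) t2_A06pm_101_s1

theorem s_A06pm_101_s1 {κ x : ℝ} (hκ : κ * h0 = ken x) (hx : ((536870912 : ℕ) : ℝ) / S ≤ x)
    (hx' : x ≤ (((536870912 : ℕ) : ℝ) + (50465866 : ℕ)) / S) :
    AltA (VFD κ) PP tK tL pcB [⟨3, 0, 0, 1449551462⟩] 1 0 1 0 6 (sgb true) (sgb false) x :=
  strip_altAD (m := 1449551462) true rfl hκ (SH.κ0 hκ (SH.hx1 hx).le (SH.hx2 hx').le) (SH.hx1 hx).le (SH.hx2 hx') (covB01).cov (covB60).cov hx hx' c_A06pm_101_s1 cutA_nil ((okx6 hx hx').extA (T := tt) (okx hx hx') (sideB hx hx') hκ rfl rfl (.O 1 true) (.N 0 false) (Or.inr rfl))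

noncomputable def cut_A06pm_102_s1 : Cut := Cut.of [[⟨4, 0, 0, 1449551462⟩]]

noncomputable def f_A06pm_102_s1 : ℕ → ℕ → ℕ → ℕ → Bool := onCell 536870912 536870912 1073741824 536870912 536870912 50465866
    (rowF 1 true true false .npp 1 0 2 (qsf 536870912 536870912 0 536870912 2) ndB0q1 ndB6q0 pcB2 cut_A06pm_102_s1 Ext.none)

def k0_A06pm_102_s1 : ∃ t, chk3 f_A06pm_102_s1 t 1 1 1 = true :=
  ⟨(a (b (a (b (a (b (a (b (l 6) (l 6)) (l 6)) (l 6)) (l 6)) (l 6)) (l 6)) (l 6)) (l 6)), by decide +kernel⟩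

theorem c_A06pm_102_s1 : CertF 536870912 536870912 0 536870912 536870912 50465866 true true false .npp 1 0 2
    ndB0q1 ndB6q0 pcB2 cut_A06pm_102_s1 Ext.none :=
  certF1 (fam := true) (s1 := true) (s2 := false) (a := 1) (b := 0) (c := 2) (cn := .npp) (n1 := ndB0q1) (n2 := ndB6q0) (pc := pcB2) (cut := cut_A06pm_102_s1) (xt := Ext.none) (P1 := 536870912) (W1 := 536870912) (P2 := 0) (W2 := 536870912) (P3 := 536870912) (W3 := 50465866)
    rfl (fun _ => rfl) k0_A06pm_102_s1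

theorem s_A06pm_102_s1 {κ x : ℝ} (hκ : κ * h0 = ken x) (hx : ((536870912 : ℕ) : ℝ) / S ≤ x)
    (hx' : x ≤ (((536870912 : ℕ) : ℝ) + (50465866 : ℕ)) / S) :
    AltA (VFD κ) PP tK tL pcB [⟨3, 0, 0, 1449551462⟩] 1 0 2 0 6 (sgb true) (sgb false) x :=
  strip_altAD (m := 1449551462) true rfl hκ (SH.κ0 hκ (SH.hx1 hx).le (SH.hx2 hx').le) (SH.hx1 hx).le (SH.hx2 hx') (covB01).cov (covB60).cov hx hx' c_A06pm_102_s1 cutA_nil (noExt_A)

noncomputable def cut_A06pm_112_s1 : Cut := Cut.of [[⟨4, 0, 0, 1449551462⟩]]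

noncomputable def f_A06pm_112_s1 : ℕ → ℕ → ℕ → ℕ → Bool := onCell 536870912 536870912 536870912 536870912 536870912 50465866
    (rowF 0 true true false .dn 1 1 2 (qsf 536870912 536870912 536870912 536870912 2) ndB0q1 ndB6q1 pcB2 cut_A06pm_112_s1 Ext.none)

def k0_A06pm_112_s1 : ∃ t, chk3 f_A06pm_112_s1 t 1 1 1 = true :=
  ⟨(a (b (a (b (a (b (a (b (l 6) (l 6)) (l 6)) (l 6)) (l 6)) (l 6)) (l 6)) (l 6)) (l 6)), by decide +kernel⟩

theorem c_A06pm_112_s1 : CertF 536870912 536870912 536870912 536870912 536870912 50465866 true true false .dn 1 1 2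
    ndB0q1 ndB6q1 pcB2 cut_A06pm_112_s1 Ext.none :=
  certF0 (fam := true) (s1 := true) (s2 := false) (a := 1) (b := 1) (c := 2) (cn := .dn) (n1 := ndB0q1) (n2 := ndB6q1) (pc := pcB2) (cut := cut_A06pm_112_s1) (xt := Ext.none) (P1 := 536870912) (W1 := 536870912) (P2 := 536870912) (W2 := 536870912) (P3 := 536870912) (W3 := 50465866)
    rfl k0_A06pm_112_s1

theorem s_A06pm_112_s1 {κ x : ℝ} (hκ : κ * h0 = ken x) (hx : ((536870912 : ℕ) : ℝ) / S ≤ x)
    (hx' : x ≤ (((536870912 : ℕ) : ℝ) + (50465866 : ℕ)) / S) :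
    AltA (VFD κ) PP tK tL pcB [⟨3, 0, 0, 1449551462⟩] 1 1 2 0 6 (sgb true) (sgb false) x :=
  strip_altAD (m := 1449551462) true rfl hκ (SH.κ0 hκ (SH.hx1 hx).le (SH.hx2 hx').le) (SH.hx1 hx).le (SH.hx2 hx') (covB01).cov (covB61).cov hx hx' c_A06pm_112_s1 cutA_nil (noExt_A)

noncomputable def cut_A06pm_113_s1 : Cut := Cut.of [[⟨4, 0, 0, 1449551462⟩]]

noncomputable def f_A06pm_113_s1 : ℕ → ℕ → ℕ → ℕ → Bool := onCell 536870912 536870912 1610612736 536870912 536870912 50465866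
    (rowF 1 true true false .nn 1 1 3 (qsf 536870912 536870912 536870912 536870912 3) ndB0q1 ndB6q1 pcB3 cut_A06pm_113_s1 Ext.none)

def k0_A06pm_113_s1 : ∃ t, chk3 f_A06pm_113_s1 t 1 1 1 = true :=
  ⟨(l 6), by decide +kernel⟩

theorem c_A06pm_113_s1 : CertF 536870912 536870912 536870912 536870912 536870912 50465866 true true false .nn 1 1 3
    ndB0q1 ndB6q1 pcB3 cut_A06pm_113_s1 Ext.none :=
  certF1 (fam := true) (s1 := true) (s2 := false) (a := 1) (b := 1) (c := 3) (cn := .nn) (n1 := ndB0q1) (n2 := ndB6q1) (pc := pcB3) (cut := cut_A06pm_113_s1) (xt := Ext.none) (P1 := 536870912) (W1 := 536870912) (P2 := 536870912) (W2 := 536870912) (P3 := 536870912) (W3 := 50465866)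
    rfl (fun _ => rfl) k0_A06pm_113_s1

theorem s_A06pm_113_s1 {κ x : ℝ} (hκ : κ * h0 = ken x) (hx : ((536870912 : ℕ) : ℝ) / S ≤ x)
    (hx' : x ≤ (((536870912 : ℕ) : ℝ) + (50465866 : ℕ)) / S) :
    AltA (VFD κ) PP tK tL pcB [⟨3, 0, 0, 1449551462⟩] 1 1 3 0 6 (sgb true) (sgb false) x :=
  strip_altAD (m := 1449551462) true rfl hκ (SH.κ0 hκ (SH.hx1 hx).le (SH.hx2 hx').le) (SH.hx1 hx).le (SH.hx2 hx') (covB01).cov (covB61).cov hx hx' c_A06pm_113_s1 cutA_nil (noExt_A)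

noncomputable def cut_A06pm_123_s1 : Cut := Cut.of [[⟨4, 0, 0, 1449551462⟩]]

noncomputable def f_A06pm_123_s1 : ℕ → ℕ → ℕ → ℕ → Bool := onCell 536870912 536870912 1073741824 536870912 536870912 50465866
    (rowF 0 true true false .npn 1 2 3 (qsf 536870912 536870912 1073741824 536870912 3) ndB0q1 ndB6q2 pcB3 cut_A06pm_123_s1 Ext.none)

def k0_A06pm_123_s1 : ∃ t, chk3 f_A06pm_123_s1 t 1 1 1 = true :=
  ⟨(l 6), by decide +kernel⟩

theorem c_A06pm_123_s1 : CertF 536870912 536870912 1073741824 536870912 536870912 50465866 true true false .npn 1 2 3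
    ndB0q1 ndB6q2 pcB3 cut_A06pm_123_s1 Ext.none :=
  certF0 (fam := true) (s1 := true) (s2 := false) (a := 1) (b := 2) (c := 3) (cn := .npn) (n1 := ndB0q1) (n2 := ndB6q2) (pc := pcB3) (cut := cut_A06pm_123_s1) (xt := Ext.none) (P1 := 536870912) (W1 := 536870912) (P2 := 1073741824) (W2 := 536870912) (P3 := 536870912) (W3 := 50465866)
    rfl k0_A06pm_123_s1

theorem s_A06pm_123_s1 {κ x : ℝ} (hκ : κ * h0 = ken x) (hx : ((536870912 : ℕ) : ℝ) / S ≤ x)
    (hx' : x ≤ (((536870912 : ℕ) : ℝ) + (50465866 : ℕ)) / S) :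
    AltA (VFD κ) PP tK tL pcB [⟨3, 0, 0, 1449551462⟩] 1 2 3 0 6 (sgb true) (sgb false) x :=
  strip_altAD (m := 1449551462) true rfl hκ (SH.κ0 hκ (SH.hx1 hx).le (SH.hx2 hx').le) (SH.hx1 hx).le (SH.hx2 hx') (covB01).cov (covB62).cov hx hx' c_A06pm_123_s1 cutA_nil (noExt_A)

noncomputable def cut_A06pm_133_s1 : Cut := Cut.of [[⟨4, 0, 0, 1449551462⟩]]

noncomputable def f_A06pm_133_s1 : ℕ → ℕ → ℕ → ℕ → Bool := onCell 536870912 536870912 0 1230186008 536870912 50465866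
    (rowF 0 true true false .dn 1 3 3 (qsf 536870912 536870912 0 1230186008 3) ndB0q1 ndB6q3 pcB3 cut_A06pm_133_s1 Ext.none)

def k0_A06pm_133_s1 : ∃ t, chk3 f_A06pm_133_s1 t 1 1 1 = true :=
  ⟨(l 6), by decide +kernel⟩

theorem c_A06pm_133_s1 : CertF 536870912 536870912 0 1230186008 536870912 50465866 true true false .dn 1 3 3
    ndB0q1 ndB6q3 pcB3 cut_A06pm_133_s1 Ext.none :=
  certF0 (fam := true) (s1 := true) (s2 := false) (a := 1) (b := 3) (c := 3) (cn := .dn) (n1 := ndB0q1) (n2 := ndB6q3) (pc := pcB3) (cut := cut_A06pm_133_s1) (xt := Ext.none) (P1 := 536870912) (W1 := 536870912) (P2 := 0) (W2 := 1230186008) (P3 := 536870912) (W3 := 50465866)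
    rfl k0_A06pm_133_s1

theorem s_A06pm_133_s1 {κ x : ℝ} (hκ : κ * h0 = ken x) (hx : ((536870912 : ℕ) : ℝ) / S ≤ x)
    (hx' : x ≤ (((536870912 : ℕ) : ℝ) + (50465866 : ℕ)) / S) :
    AltA (VFD κ) PP tK tL pcB [⟨3, 0, 0, 1449551462⟩] 1 3 3 0 6 (sgb true) (sgb false) x :=
  strip_altAD (m := 1449551462) true rfl hκ (SH.κ0 hκ (SH.hx1 hx).le (SH.hx2 hx').le) (SH.hx1 hx).le (SH.hx2 hx') (covB01).cov (covB63).cov hx hx' c_A06pm_133_s1 cutA_nil (noExt_A)

noncomputable def cut_A06pm_202_s1 : Cut := Cut.of [[⟨4, 0, 0, 1449551462⟩]]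

noncomputable def f_A06pm_202_s1 : ℕ → ℕ → ℕ → ℕ → Bool := onCell 0 536870912 0 536870912 536870912 50465866
    (rowF 0 true true false .pp 2 0 2 (qsf 0 536870912 0 536870912 2) ndB0q2 ndB6q0 pcB2 cut_A06pm_202_s1 Ext.none)

def k0_A06pm_202_s1 : ∃ t, chk3 f_A06pm_202_s1 t 1 1 1 = true :=
  ⟨(l 6), by decide +kernel⟩

theorem c_A06pm_202_s1 : CertF 0 536870912 0 536870912 536870912 50465866 true true false .pp 2 0 2
    ndB0q2 ndB6q0 pcB2 cut_A06pm_202_s1 Ext.none :=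
  certF0 (fam := true) (s1 := true) (s2 := false) (a := 2) (b := 0) (c := 2) (cn := .pp) (n1 := ndB0q2) (n2 := ndB6q0) (pc := pcB2) (cut := cut_A06pm_202_s1) (xt := Ext.none) (P1 := 0) (W1 := 536870912) (P2 := 0) (W2 := 536870912) (P3 := 536870912) (W3 := 50465866)
    rfl k0_A06pm_202_s1

theorem s_A06pm_202_s1 {κ x : ℝ} (hκ : κ * h0 = ken x) (hx : ((536870912 : ℕ) : ℝ) / S ≤ x)
    (hx' : x ≤ (((536870912 : ℕ) : ℝ) + (50465866 : ℕ)) / S) :
    AltA (VFD κ) PP tK tL pcB [⟨3, 0, 0, 1449551462⟩] 2 0 2 0 6 (sgb true) (sgb false) x :=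
  strip_altAD (m := 1449551462) true rfl hκ (SH.κ0 hκ (SH.hx1 hx).le (SH.hx2 hx').le) (SH.hx1 hx).le (SH.hx2 hx') (covB02).cov (covB60).cov hx hx' c_A06pm_202_s1 cutA_nil (noExt_A)

noncomputable def cut_A06pm_203_s1 : Cut := Cut.of [[⟨4, 0, 0, 1449551462⟩]]

noncomputable def f_A06pm_203_s1 : ℕ → ℕ → ℕ → ℕ → Bool := onCell 0 536870912 0 536870912 536870912 50465866
    (rowF 0 true true false .up 2 0 3 (qsf 0 536870912 0 536870912 3) ndB0q2 ndB6q0 pcB3 cut_A06pm_203_s1 Ext.none)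

def k0_A06pm_203_s1 : ∃ t, chk3 f_A06pm_203_s1 t 1 1 1 = true :=
  ⟨(l 6), by decide +kernel⟩

theorem c_A06pm_203_s1 : CertF 0 536870912 0 536870912 536870912 50465866 true true false .up 2 0 3
    ndB0q2 ndB6q0 pcB3 cut_A06pm_203_s1 Ext.none :=
  certF0 (fam := true) (s1 := true) (s2 := false) (a := 2) (b := 0) (c := 3) (cn := .up) (n1 := ndB0q2) (n2 := ndB6q0) (pc := pcB3) (cut := cut_A06pm_203_s1) (xt := Ext.none) (P1 := 0) (W1 := 536870912) (P2 := 0) (W2 := 536870912) (P3 := 536870912) (W3 := 50465866)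
    rfl k0_A06pm_203_s1

theorem s_A06pm_203_s1 {κ x : ℝ} (hκ : κ * h0 = ken x) (hx : ((536870912 : ℕ) : ℝ) / S ≤ x)
    (hx' : x ≤ (((536870912 : ℕ) : ℝ) + (50465866 : ℕ)) / S) :
    AltA (VFD κ) PP tK tL pcB [⟨3, 0, 0, 1449551462⟩] 2 0 3 0 6 (sgb true) (sgb false) x :=
  strip_altAD (m := 1449551462) true rfl hκ (SH.κ0 hκ (SH.hx1 hx).le (SH.hx2 hx').le) (SH.hx1 hx).le (SH.hx2 hx') (covB02).cov (covB60).cov hx hx' c_A06pm_203_s1 cutA_nil (noExt_A)

noncomputable def cut_A06pm_213_s1 : Cut := Cut.of [[⟨4, 0, 0, 1449551462⟩]]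

noncomputable def f_A06pm_213_s1 : ℕ → ℕ → ℕ → ℕ → Bool := onCell 0 536870912 536870912 536870912 536870912 50465866
    (rowF 0 true true false .pnn 2 1 3 (qsf 0 536870912 536870912 536870912 3) ndB0q2 ndB6q1 pcB3 cut_A06pm_213_s1 Ext.none)

def k0_A06pm_213_s1 : ∃ t, chk3 f_A06pm_213_s1 t 1 1 1 = true :=
  ⟨(l 6), by decide +kernel⟩

theorem c_A06pm_213_s1 : CertF 0 536870912 536870912 536870912 536870912 50465866 true true false .pnn 2 1 3
    ndB0q2 ndB6q1 pcB3 cut_A06pm_213_s1 Ext.none :=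
  certF0 (fam := true) (s1 := true) (s2 := false) (a := 2) (b := 1) (c := 3) (cn := .pnn) (n1 := ndB0q2) (n2 := ndB6q1) (pc := pcB3) (cut := cut_A06pm_213_s1) (xt := Ext.none) (P1 := 0) (W1 := 536870912) (P2 := 536870912) (W2 := 536870912) (P3 := 536870912) (W3 := 50465866)
    rfl k0_A06pm_213_s1

theorem s_A06pm_213_s1 {κ x : ℝ} (hκ : κ * h0 = ken x) (hx : ((536870912 : ℕ) : ℝ) / S ≤ x)
    (hx' : x ≤ (((536870912 : ℕ) : ℝ) + (50465866 : ℕ)) / S) :
    AltA (VFD κ) PP tK tL pcB [⟨3, 0, 0, 1449551462⟩] 2 1 3 0 6 (sgb true) (sgb false) x :=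
  strip_altAD (m := 1449551462) true rfl hκ (SH.κ0 hκ (SH.hx1 hx).le (SH.hx2 hx').le) (SH.hx1 hx).le (SH.hx2 hx') (covB02).cov (covB61).cov hx hx' c_A06pm_213_s1 cutA_nil (noExt_A)

noncomputable def cut_A06mm_001_s1 : Cut := Cut.of [[⟨4, 0, 0, 1449551462⟩]]

noncomputable def f_A06mm_001_s1 : ℕ → ℕ → ℕ → ℕ → Bool := onCell 0 536870912 0 536870912 536870912 50465866
    (rowF 0 true false false .up 0 0 1 (qsf 0 536870912 0 536870912 1) ndB0q0 ndB6q0 pcB1 cut_A06mm_001_s1 Ext.none)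

def k0_A06mm_001_s1 : ∃ t, chk3 f_A06mm_001_s1 t 1 1 1 = true :=
  ⟨(l 4), by decide +kernel⟩

theorem c_A06mm_001_s1 : CertF 0 536870912 0 536870912 536870912 50465866 true false false .up 0 0 1
    ndB0q0 ndB6q0 pcB1 cut_A06mm_001_s1 Ext.none :=
  certF0 (fam := true) (s1 := false) (s2 := false) (a := 0) (b := 0) (c := 1) (cn := .up) (n1 := ndB0q0) (n2 := ndB6q0) (pc := pcB1) (cut := cut_A06mm_001_s1) (xt := Ext.none) (P1 := 0) (W1 := 536870912) (P2 := 0) (W2 := 536870912) (P3 := 536870912) (W3 := 50465866)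
    rfl k0_A06mm_001_s1

theorem s_A06mm_001_s1 {κ x : ℝ} (hκ : κ * h0 = ken x) (hx : ((536870912 : ℕ) : ℝ) / S ≤ x)
    (hx' : x ≤ (((536870912 : ℕ) : ℝ) + (50465866 : ℕ)) / S) :
    AltA (VFD κ) PP tK tL pcB [⟨3, 0, 0, 1449551462⟩] 0 0 1 0 6 (sgb false) (sgb false) x :=
  strip_altAD (m := 1449551462) true rfl hκ (SH.κ0 hκ (SH.hx1 hx).le (SH.hx2 hx').le) (SH.hx1 hx).le (SH.hx2 hx') (covB00).cov (covB60).cov hx hx' c_A06mm_001_s1 cutA_nil (noExt_A)

noncomputable def cut_A06mm_011_s1 : Cut := Cut.of [[⟨4, 0, 0, 1449551462⟩]]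

noncomputable def f_A06mm_011_s1 : ℕ → ℕ → ℕ → ℕ → Bool := onCell 0 536870912 536870912 536870912 536870912 50465866
    (rowF 0 true false false .pnn 0 1 1 (qsf 0 536870912 536870912 536870912 1) ndB0q0 ndB6q1 pcB1 cut_A06mm_011_s1 Ext.none)

def k0_A06mm_011_s1 : ∃ t, chk3 f_A06mm_011_s1 t 1 1 1 = true :=
  ⟨(l 4), by decide +kernel⟩

theorem c_A06mm_011_s1 : CertF 0 536870912 536870912 536870912 536870912 50465866 true false false .pnn 0 1 1
    ndB0q0 ndB6q1 pcB1 cut_A06mm_011_s1 Ext.none :=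
  certF0 (fam := true) (s1 := false) (s2 := false) (a := 0) (b := 1) (c := 1) (cn := .pnn) (n1 := ndB0q0) (n2 := ndB6q1) (pc := pcB1) (cut := cut_A06mm_011_s1) (xt := Ext.none) (P1 := 0) (W1 := 536870912) (P2 := 536870912) (W2 := 536870912) (P3 := 536870912) (W3 := 50465866)
    rfl k0_A06mm_011_s1

theorem s_A06mm_011_s1 {κ x : ℝ} (hκ : κ * h0 = ken x) (hx : ((536870912 : ℕ) : ℝ) / S ≤ x)
    (hx' : x ≤ (((536870912 : ℕ) : ℝ) + (50465866 : ℕ)) / S) :
    AltA (VFD κ) PP tK tL pcB [⟨3, 0, 0, 1449551462⟩] 0 1 1 0 6 (sgb false) (sgb false) x :=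
  strip_altAD (m := 1449551462) true rfl hκ (SH.κ0 hκ (SH.hx1 hx).le (SH.hx2 hx').le) (SH.hx1 hx).le (SH.hx2 hx') (covB00).cov (covB61).cov hx hx' c_A06mm_011_s1 cutA_nil (noExt_A)

noncomputable def cut_A06mm_012_s1 : Cut := Cut.of [[⟨4, 0, 0, 1449551462⟩]]

noncomputable def f_A06mm_012_s1 : ℕ → ℕ → ℕ → ℕ → Bool := onCell 0 536870912 536870912 536870912 536870912 50465866
    (rowF 0 true false false .pnp 0 1 2 (qsf 0 536870912 536870912 536870912 2) ndB0q0 ndB6q1 pcB2 cut_A06mm_012_s1 Ext.none)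

def k0_A06mm_012_s1 : ∃ t, chk3 f_A06mm_012_s1 t 1 1 1 = true :=
  ⟨(l 4), by decide +kernel⟩

theorem c_A06mm_012_s1 : CertF 0 536870912 536870912 536870912 536870912 50465866 true false false .pnp 0 1 2
    ndB0q0 ndB6q1 pcB2 cut_A06mm_012_s1 Ext.none :=
  certF0 (fam := true) (s1 := false) (s2 := false) (a := 0) (b := 1) (c := 2) (cn := .pnp) (n1 := ndB0q0) (n2 := ndB6q1) (pc := pcB2) (cut := cut_A06mm_012_s1) (xt := Ext.none) (P1 := 0) (W1 := 536870912) (P2 := 536870912) (W2 := 536870912) (P3 := 536870912) (W3 := 50465866)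
    rfl k0_A06mm_012_s1

theorem s_A06mm_012_s1 {κ x : ℝ} (hκ : κ * h0 = ken x) (hx : ((536870912 : ℕ) : ℝ) / S ≤ x)
    (hx' : x ≤ (((536870912 : ℕ) : ℝ) + (50465866 : ℕ)) / S) :
    AltA (VFD κ) PP tK tL pcB [⟨3, 0, 0, 1449551462⟩] 0 1 2 0 6 (sgb false) (sgb false) x :=
  strip_altAD (m := 1449551462) true rfl hκ (SH.κ0 hκ (SH.hx1 hx).le (SH.hx2 hx').le) (SH.hx1 hx).le (SH.hx2 hx') (covB00).cov (covB61).cov hx hx' c_A06mm_012_s1 cutA_nil (noExt_A)

noncomputable def cut_A06mm_022_s1 : Cut := Cut.of [[⟨4, 0, 0, 1449551462⟩]]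

noncomputable def f_A06mm_022_s1 : ℕ → ℕ → ℕ → ℕ → Bool := onCell 0 536870912 1073741824 536870912 536870912 50465866
    (rowF 0 true false false .pp 0 2 2 (qsf 0 536870912 1073741824 536870912 2) ndB0q0 ndB6q2 pcB2 cut_A06mm_022_s1 Ext.none)

def k0_A06mm_022_s1 : ∃ t, chk3 f_A06mm_022_s1 t 1 1 1 = true :=
  ⟨(l 4), by decide +kernel⟩

theorem c_A06mm_022_s1 : CertF 0 536870912 1073741824 536870912 536870912 50465866 true false false .pp 0 2 2
    ndB0q0 ndB6q2 pcB2 cut_A06mm_022_s1 Ext.none :=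
  certF0 (fam := true) (s1 := false) (s2 := false) (a := 0) (b := 2) (c := 2) (cn := .pp) (n1 := ndB0q0) (n2 := ndB6q2) (pc := pcB2) (cut := cut_A06mm_022_s1) (xt := Ext.none) (P1 := 0) (W1 := 536870912) (P2 := 1073741824) (W2 := 536870912) (P3 := 536870912) (W3 := 50465866)
    rfl k0_A06mm_022_s1

theorem s_A06mm_022_s1 {κ x : ℝ} (hκ : κ * h0 = ken x) (hx : ((536870912 : ℕ) : ℝ) / S ≤ x)
    (hx' : x ≤ (((536870912 : ℕ) : ℝ) + (50465866 : ℕ)) / S) :
    AltA (VFD κ) PP tK tL pcB [⟨3, 0, 0, 1449551462⟩] 0 2 2 0 6 (sgb false) (sgb false) x :=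
  strip_altAD (m := 1449551462) true rfl hκ (SH.κ0 hκ (SH.hx1 hx).le (SH.hx2 hx').le) (SH.hx1 hx).le (SH.hx2 hx') (covB00).cov (covB62).cov hx hx' c_A06mm_022_s1 cutA_nil (noExt_A)

noncomputable def cut_A06mm_023_s1 : Cut := Cut.of [[⟨4, 0, 0, 1449551462⟩]]

noncomputable def f_A06mm_023_s1 : ℕ → ℕ → ℕ → ℕ → Bool := onCell 0 536870912 1073741824 536870912 536870912 50465866
    (rowF 0 true false false .up 0 2 3 (qsf 0 536870912 1073741824 536870912 3) ndB0q0 ndB6q2 pcB3 cut_A06mm_023_s1 Ext.none)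

def k0_A06mm_023_s1 : ∃ t, chk3 f_A06mm_023_s1 t 1 1 1 = true :=
  ⟨(l 4), by decide +kernel⟩

theorem c_A06mm_023_s1 : CertF 0 536870912 1073741824 536870912 536870912 50465866 true false false .up 0 2 3
    ndB0q0 ndB6q2 pcB3 cut_A06mm_023_s1 Ext.none :=
  certF0 (fam := true) (s1 := false) (s2 := false) (a := 0) (b := 2) (c := 3) (cn := .up) (n1 := ndB0q0) (n2 := ndB6q2) (pc := pcB3) (cut := cut_A06mm_023_s1) (xt := Ext.none) (P1 := 0) (W1 := 536870912) (P2 := 1073741824) (W2 := 536870912) (P3 := 536870912) (W3 := 50465866)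
    rfl k0_A06mm_023_s1

theorem s_A06mm_023_s1 {κ x : ℝ} (hκ : κ * h0 = ken x) (hx : ((536870912 : ℕ) : ℝ) / S ≤ x)
    (hx' : x ≤ (((536870912 : ℕ) : ℝ) + (50465866 : ℕ)) / S) :
    AltA (VFD κ) PP tK tL pcB [⟨3, 0, 0, 1449551462⟩] 0 2 3 0 6 (sgb false) (sgb false) x :=
  strip_altAD (m := 1449551462) true rfl hκ (SH.κ0 hκ (SH.hx1 hx).le (SH.hx2 hx').le) (SH.hx1 hx).le (SH.hx2 hx') (covB00).cov (covB62).cov hx hx' c_A06mm_023_s1 cutA_nil (noExt_A)

noncomputable def cut_A06mm_033_s1 : Cut := Cut.of [[⟨4, 0, 0, 1449551462⟩]]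

noncomputable def f_A06mm_033_s1 : ℕ → ℕ → ℕ → ℕ → Bool := onCell 0 536870912 0 1230186008 536870912 50465866
    (rowF 0 true false false .pnn 0 3 3 (qsf 0 536870912 0 1230186008 3) ndB0q0 ndB6q3 pcB3 cut_A06mm_033_s1 Ext.none)

def k0_A06mm_033_s1 : ∃ t, chk3 f_A06mm_033_s1 t 1 1 1 = true :=
  ⟨(l 4), by decide +kernel⟩

theorem c_A06mm_033_s1 : CertF 0 536870912 0 1230186008 536870912 50465866 true false false .pnn 0 3 3
    ndB0q0 ndB6q3 pcB3 cut_A06mm_033_s1 Ext.none :=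
  certF0 (fam := true) (s1 := false) (s2 := false) (a := 0) (b := 3) (c := 3) (cn := .pnn) (n1 := ndB0q0) (n2 := ndB6q3) (pc := pcB3) (cut := cut_A06mm_033_s1) (xt := Ext.none) (P1 := 0) (W1 := 536870912) (P2 := 0) (W2 := 1230186008) (P3 := 536870912) (W3 := 50465866)
    rfl k0_A06mm_033_s1

theorem s_A06mm_033_s1 {κ x : ℝ} (hκ : κ * h0 = ken x) (hx : ((536870912 : ℕ) : ℝ) / S ≤ x)
    (hx' : x ≤ (((536870912 : ℕ) : ℝ) + (50465866 : ℕ)) / S) :
    AltA (VFD κ) PP tK tL pcB [⟨3, 0, 0, 1449551462⟩] 0 3 3 0 6 (sgb false) (sgb false) x :=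
  strip_altAD (m := 1449551462) true rfl hκ (SH.κ0 hκ (SH.hx1 hx).le (SH.hx2 hx').le) (SH.hx1 hx).le (SH.hx2 hx') (covB00).cov (covB63).cov hx hx' c_A06mm_033_s1 cutA_nil (noExt_A)

noncomputable def cut_A06mm_101_s1 : Cut := Cut.of [[⟨4, 0, 0, 1449551462⟩]]

noncomputable def f_A06mm_101_s1 : ℕ → ℕ → ℕ → ℕ → Bool := onCell 536870912 536870912 0 536870912 536870912 50465866
    (rowF 0 true false false .npn 1 0 1 (qsf 536870912 536870912 0 536870912 1) ndB0q1 ndB6q0 pcB1 cut_A06mm_101_s1 Ext.none)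

def k0_A06mm_101_s1 : ∃ t, chk3 f_A06mm_101_s1 t 1 1 1 = true :=
  ⟨(l 4), by decide +kernel⟩

theorem c_A06mm_101_s1 : CertF 536870912 536870912 0 536870912 536870912 50465866 true false false .npn 1 0 1
    ndB0q1 ndB6q0 pcB1 cut_A06mm_101_s1 Ext.none :=
  certF0 (fam := true) (s1 := false) (s2 := false) (a := 1) (b := 0) (c := 1) (cn := .npn) (n1 := ndB0q1) (n2 := ndB6q0) (pc := pcB1) (cut := cut_A06mm_101_s1) (xt := Ext.none) (P1 := 536870912) (W1 := 536870912) (P2 := 0) (W2 := 536870912) (P3 := 536870912) (W3 := 50465866)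
    rfl k0_A06mm_101_s1

theorem s_A06mm_101_s1 {κ x : ℝ} (hκ : κ * h0 = ken x) (hx : ((536870912 : ℕ) : ℝ) / S ≤ x)
    (hx' : x ≤ (((536870912 : ℕ) : ℝ) + (50465866 : ℕ)) / S) :
    AltA (VFD κ) PP tK tL pcB [⟨3, 0, 0, 1449551462⟩] 1 0 1 0 6 (sgb false) (sgb false) x :=
  strip_altAD (m := 1449551462) true rfl hκ (SH.κ0 hκ (SH.hx1 hx).le (SH.hx2 hx').le) (SH.hx1 hx).le (SH.hx2 hx') (covB01).cov (covB60).cov hx hx' c_A06mm_101_s1 cutA_nil (noExt_A)

noncomputable def cut_A06mm_102_s1 : Cut := Cut.of [[⟨4, 0, 0, 1449551462⟩]]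

noncomputable def f_A06mm_102_s1 : ℕ → ℕ → ℕ → ℕ → Bool := onCell 536870912 536870912 0 536870912 536870912 50465866
    (rowF 0 true false false .npp 1 0 2 (qsf 536870912 536870912 0 536870912 2) ndB0q1 ndB6q0 pcB2 cut_A06mm_102_s1 Ext.none)

def k0_A06mm_102_s1 : ∃ t, chk3 f_A06mm_102_s1 t 1 1 1 = true :=
  ⟨(l 4), by decide +kernel⟩

theorem c_A06mm_102_s1 : CertF 536870912 536870912 0 536870912 536870912 50465866 true false false .npp 1 0 2
    ndB0q1 ndB6q0 pcB2 cut_A06mm_102_s1 Ext.none :=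
  certF0 (fam := true) (s1 := false) (s2 := false) (a := 1) (b := 0) (c := 2) (cn := .npp) (n1 := ndB0q1) (n2 := ndB6q0) (pc := pcB2) (cut := cut_A06mm_102_s1) (xt := Ext.none) (P1 := 536870912) (W1 := 536870912) (P2 := 0) (W2 := 536870912) (P3 := 536870912) (W3 := 50465866)
    rfl k0_A06mm_102_s1

theorem s_A06mm_102_s1 {κ x : ℝ} (hκ : κ * h0 = ken x) (hx : ((536870912 : ℕ) : ℝ) / S ≤ x)
    (hx' : x ≤ (((536870912 : ℕ) : ℝ) + (50465866 : ℕ)) / S) :
    AltA (VFD κ) PP tK tL pcB [⟨3, 0, 0, 1449551462⟩] 1 0 2 0 6 (sgb false) (sgb false) x :=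
  strip_altAD (m := 1449551462) true rfl hκ (SH.κ0 hκ (SH.hx1 hx).le (SH.hx2 hx').le) (SH.hx1 hx).le (SH.hx2 hx') (covB01).cov (covB60).cov hx hx' c_A06mm_102_s1 cutA_nil (noExt_A)

noncomputable def cut_A06mm_112_s1 : Cut := Cut.of [[⟨4, 0, 0, 1449551462⟩]]

noncomputable def f_A06mm_112_s1 : ℕ → ℕ → ℕ → ℕ → Bool := onCell 536870912 536870912 536870912 536870912 536870912 50465866
    (rowF 0 true false false .dn 1 1 2 (qsf 536870912 536870912 536870912 536870912 2) ndB0q1 ndB6q1 pcB2 cut_A06mm_112_s1 Ext.none)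

def k0_A06mm_112_s1 : ∃ t, chk3 f_A06mm_112_s1 t 1 1 1 = true :=
  ⟨(l 4), by decide +kernel⟩

theorem c_A06mm_112_s1 : CertF 536870912 536870912 536870912 536870912 536870912 50465866 true false false .dn 1 1 2
    ndB0q1 ndB6q1 pcB2 cut_A06mm_112_s1 Ext.none :=
  certF0 (fam := true) (s1 := false) (s2 := false) (a := 1) (b := 1) (c := 2) (cn := .dn) (n1 := ndB0q1) (n2 := ndB6q1) (pc := pcB2) (cut := cut_A06mm_112_s1) (xt := Ext.none) (P1 := 536870912) (W1 := 536870912) (P2 := 536870912) (W2 := 536870912) (P3 := 536870912) (W3 := 50465866)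
    rfl k0_A06mm_112_s1

theorem s_A06mm_112_s1 {κ x : ℝ} (hκ : κ * h0 = ken x) (hx : ((536870912 : ℕ) : ℝ) / S ≤ x)
    (hx' : x ≤ (((536870912 : ℕ) : ℝ) + (50465866 : ℕ)) / S) :
    AltA (VFD κ) PP tK tL pcB [⟨3, 0, 0, 1449551462⟩] 1 1 2 0 6 (sgb false) (sgb false) x :=
  strip_altAD (m := 1449551462) true rfl hκ (SH.κ0 hκ (SH.hx1 hx).le (SH.hx2 hx').le) (SH.hx1 hx).le (SH.hx2 hx') (covB01).cov (covB61).cov hx hx' c_A06mm_112_s1 cutA_nil (noExt_A)

noncomputable def cut_A06mm_113_s1 : Cut := Cut.of [[⟨4, 0, 0, 1449551462⟩]]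

noncomputable def f_A06mm_113_s1 : ℕ → ℕ → ℕ → ℕ → Bool := onCell 536870912 536870912 536870912 536870912 536870912 50465866
    (rowF 0 true false false .nn 1 1 3 (qsf 536870912 536870912 536870912 536870912 3) ndB0q1 ndB6q1 pcB3 cut_A06mm_113_s1 Ext.none)

def k0_A06mm_113_s1 : ∃ t, chk3 f_A06mm_113_s1 t 1 1 1 = true :=
  ⟨(l 4), by decide +kernel⟩

theorem c_A06mm_113_s1 : CertF 536870912 536870912 536870912 536870912 536870912 50465866 true false false .nn 1 1 3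
    ndB0q1 ndB6q1 pcB3 cut_A06mm_113_s1 Ext.none :=
  certF0 (fam := true) (s1 := false) (s2 := false) (a := 1) (b := 1) (c := 3) (cn := .nn) (n1 := ndB0q1) (n2 := ndB6q1) (pc := pcB3) (cut := cut_A06mm_113_s1) (xt := Ext.none) (P1 := 536870912) (W1 := 536870912) (P2 := 536870912) (W2 := 536870912) (P3 := 536870912) (W3 := 50465866)
    rfl k0_A06mm_113_s1

theorem s_A06mm_113_s1 {κ x : ℝ} (hκ : κ * h0 = ken x) (hx : ((536870912 : ℕ) : ℝ) / S ≤ x)
    (hx' : x ≤ (((536870912 : ℕ) : ℝ) + (50465866 : ℕ)) / S) :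
    AltA (VFD κ) PP tK tL pcB [⟨3, 0, 0, 1449551462⟩] 1 1 3 0 6 (sgb false) (sgb false) x :=
  strip_altAD (m := 1449551462) true rfl hκ (SH.κ0 hκ (SH.hx1 hx).le (SH.hx2 hx').le) (SH.hx1 hx).le (SH.hx2 hx') (covB01).cov (covB61).cov hx hx' c_A06mm_113_s1 cutA_nil (noExt_A)

noncomputable def cut_A06mm_123_s1 : Cut := Cut.of [[⟨4, 0, 0, 1449551462⟩]]

noncomputable def f_A06mm_123_s1 : ℕ → ℕ → ℕ → ℕ → Bool := onCell 536870912 536870912 1073741824 536870912 536870912 50465866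
    (rowF 0 true false false .npn 1 2 3 (qsf 536870912 536870912 1073741824 536870912 3) ndB0q1 ndB6q2 pcB3 cut_A06mm_123_s1 Ext.none)

def k0_A06mm_123_s1 : ∃ t, chk3 f_A06mm_123_s1 t 1 1 1 = true :=
  ⟨(l 4), by decide +kernel⟩

theorem c_A06mm_123_s1 : CertF 536870912 536870912 1073741824 536870912 536870912 50465866 true false false .npn 1 2 3
    ndB0q1 ndB6q2 pcB3 cut_A06mm_123_s1 Ext.none :=
  certF0 (fam := true) (s1 := false) (s2 := false) (a := 1) (b := 2) (c := 3) (cn := .npn) (n1 := ndB0q1) (n2 := ndB6q2) (pc := pcB3) (cut := cut_A06mm_123_s1) (xt := Ext.none) (P1 := 536870912) (W1 := 536870912) (P2 := 1073741824) (W2 := 536870912) (P3 := 536870912) (W3 := 50465866)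
    rfl k0_A06mm_123_s1

theorem s_A06mm_123_s1 {κ x : ℝ} (hκ : κ * h0 = ken x) (hx : ((536870912 : ℕ) : ℝ) / S ≤ x)
    (hx' : x ≤ (((536870912 : ℕ) : ℝ) + (50465866 : ℕ)) / S) :
    AltA (VFD κ) PP tK tL pcB [⟨3, 0, 0, 1449551462⟩] 1 2 3 0 6 (sgb false) (sgb false) x :=
  strip_altAD (m := 1449551462) true rfl hκ (SH.κ0 hκ (SH.hx1 hx).le (SH.hx2 hx').le) (SH.hx1 hx).le (SH.hx2 hx') (covB01).cov (covB62).cov hx hx' c_A06mm_123_s1 cutA_nil (noExt_A)

noncomputable def cut_A06mm_133_s1 : Cut := Cut.of [[⟨4, 0, 0, 1449551462⟩]]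

noncomputable def f_A06mm_133_s1 : ℕ → ℕ → ℕ → ℕ → Bool := onCell 536870912 536870912 0 1230186008 536870912 50465866
    (rowF 0 true false false .dn 1 3 3 (qsf 536870912 536870912 0 1230186008 3) ndB0q1 ndB6q3 pcB3 cut_A06mm_133_s1 Ext.none)

def k0_A06mm_133_s1 : ∃ t, chk3 f_A06mm_133_s1 t 1 1 1 = true :=
  ⟨(l 4), by decide +kernel⟩

theorem c_A06mm_133_s1 : CertF 536870912 536870912 0 1230186008 536870912 50465866 true false false .dn 1 3 3
    ndB0q1 ndB6q3 pcB3 cut_A06mm_133_s1 Ext.none :=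
  certF0 (fam := true) (s1 := false) (s2 := false) (a := 1) (b := 3) (c := 3) (cn := .dn) (n1 := ndB0q1) (n2 := ndB6q3) (pc := pcB3) (cut := cut_A06mm_133_s1) (xt := Ext.none) (P1 := 536870912) (W1 := 536870912) (P2 := 0) (W2 := 1230186008) (P3 := 536870912) (W3 := 50465866)
    rfl k0_A06mm_133_s1

theorem s_A06mm_133_s1 {κ x : ℝ} (hκ : κ * h0 = ken x) (hx : ((536870912 : ℕ) : ℝ) / S ≤ x)
    (hx' : x ≤ (((536870912 : ℕ) : ℝ) + (50465866 : ℕ)) / S) :
    AltA (VFD κ) PP tK tL pcB [⟨3, 0, 0, 1449551462⟩] 1 3 3 0 6 (sgb false) (sgb false) x :=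
  strip_altAD (m := 1449551462) true rfl hκ (SH.κ0 hκ (SH.hx1 hx).le (SH.hx2 hx').le) (SH.hx1 hx).le (SH.hx2 hx') (covB01).cov (covB63).cov hx hx' c_A06mm_133_s1 cutA_nil (noExt_A)

noncomputable def cut_A06mm_202_s1 : Cut := Cut.of [[⟨4, 0, 0, 1449551462⟩]]

noncomputable def f_A06mm_202_s1 : ℕ → ℕ → ℕ → ℕ → Bool := onCell 0 536870912 0 536870912 536870912 50465866
    (rowF 0 true false false .pp 2 0 2 (qsf 0 536870912 0 536870912 2) ndB0q2 ndB6q0 pcB2 cut_A06mm_202_s1 Ext.none)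

def k0_A06mm_202_s1 : ∃ t, chk3 f_A06mm_202_s1 t 1 1 1 = true :=
  ⟨(l 4), by decide +kernel⟩

theorem c_A06mm_202_s1 : CertF 0 536870912 0 536870912 536870912 50465866 true false false .pp 2 0 2
    ndB0q2 ndB6q0 pcB2 cut_A06mm_202_s1 Ext.none :=
  certF0 (fam := true) (s1 := false) (s2 := false) (a := 2) (b := 0) (c := 2) (cn := .pp) (n1 := ndB0q2) (n2 := ndB6q0) (pc := pcB2) (cut := cut_A06mm_202_s1) (xt := Ext.none) (P1 := 0) (W1 := 536870912) (P2 := 0) (W2 := 536870912) (P3 := 536870912) (W3 := 50465866)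
    rfl k0_A06mm_202_s1

theorem s_A06mm_202_s1 {κ x : ℝ} (hκ : κ * h0 = ken x) (hx : ((536870912 : ℕ) : ℝ) / S ≤ x)
    (hx' : x ≤ (((536870912 : ℕ) : ℝ) + (50465866 : ℕ)) / S) :
    AltA (VFD κ) PP tK tL pcB [⟨3, 0, 0, 1449551462⟩] 2 0 2 0 6 (sgb false) (sgb false) x :=
  strip_altAD (m := 1449551462) true rfl hκ (SH.κ0 hκ (SH.hx1 hx).le (SH.hx2 hx').le) (SH.hx1 hx).le (SH.hx2 hx') (covB02).cov (covB60).cov hx hx' c_A06mm_202_s1 cutA_nil (noExt_A)

noncomputable def cut_A06mm_203_s1 : Cut := Cut.of [[⟨4, 0, 0, 1449551462⟩]]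

noncomputable def f_A06mm_203_s1 : ℕ → ℕ → ℕ → ℕ → Bool := onCell 0 536870912 0 536870912 536870912 50465866
    (rowF 0 true false false .up 2 0 3 (qsf 0 536870912 0 536870912 3) ndB0q2 ndB6q0 pcB3 cut_A06mm_203_s1 Ext.none)

def k0_A06mm_203_s1 : ∃ t, chk3 f_A06mm_203_s1 t 1 1 1 = true :=
  ⟨(l 4), by decide +kernel⟩

theorem c_A06mm_203_s1 : CertF 0 536870912 0 536870912 536870912 50465866 true false false .up 2 0 3
    ndB0q2 ndB6q0 pcB3 cut_A06mm_203_s1 Ext.none :=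
  certF0 (fam := true) (s1 := false) (s2 := false) (a := 2) (b := 0) (c := 3) (cn := .up) (n1 := ndB0q2) (n2 := ndB6q0) (pc := pcB3) (cut := cut_A06mm_203_s1) (xt := Ext.none) (P1 := 0) (W1 := 536870912) (P2 := 0) (W2 := 536870912) (P3 := 536870912) (W3 := 50465866)
    rfl k0_A06mm_203_s1

theorem s_A06mm_203_s1 {κ x : ℝ} (hκ : κ * h0 = ken x) (hx : ((536870912 : ℕ) : ℝ) / S ≤ x)
    (hx' : x ≤ (((536870912 : ℕ) : ℝ) + (50465866 : ℕ)) / S) :
    AltA (VFD κ) PP tK tL pcB [⟨3, 0, 0, 1449551462⟩] 2 0 3 0 6 (sgb false) (sgb false) x :=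
  strip_altAD (m := 1449551462) true rfl hκ (SH.κ0 hκ (SH.hx1 hx).le (SH.hx2 hx').le) (SH.hx1 hx).le (SH.hx2 hx') (covB02).cov (covB60).cov hx hx' c_A06mm_203_s1 cutA_nil (noExt_A)

noncomputable def cut_A06mm_213_s1 : Cut := Cut.of [[⟨4, 0, 0, 1449551462⟩]]

noncomputable def f_A06mm_213_s1 : ℕ → ℕ → ℕ → ℕ → Bool := onCell 0 536870912 536870912 536870912 536870912 50465866
    (rowF 0 true false false .pnn 2 1 3 (qsf 0 536870912 536870912 536870912 3) ndB0q2 ndB6q1 pcB3 cut_A06mm_213_s1 Ext.none)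

def k0_A06mm_213_s1 : ∃ t, chk3 f_A06mm_213_s1 t 1 1 1 = true :=
  ⟨(l 4), by decide +kernel⟩

theorem c_A06mm_213_s1 : CertF 0 536870912 536870912 536870912 536870912 50465866 true false false .pnn 2 1 3
    ndB0q2 ndB6q1 pcB3 cut_A06mm_213_s1 Ext.none :=
  certF0 (fam := true) (s1 := false) (s2 := false) (a := 2) (b := 1) (c := 3) (cn := .pnn) (n1 := ndB0q2) (n2 := ndB6q1) (pc := pcB3) (cut := cut_A06mm_213_s1) (xt := Ext.none) (P1 := 0) (W1 := 536870912) (P2 := 536870912) (W2 := 536870912) (P3 := 536870912) (W3 := 50465866)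
    rfl k0_A06mm_213_s1

theorem s_A06mm_213_s1 {κ x : ℝ} (hκ : κ * h0 = ken x) (hx : ((536870912 : ℕ) : ℝ) / S ≤ x)
    (hx' : x ≤ (((536870912 : ℕ) : ℝ) + (50465866 : ℕ)) / S) :
    AltA (VFD κ) PP tK tL pcB [⟨3, 0, 0, 1449551462⟩] 2 1 3 0 6 (sgb false) (sgb false) x :=
  strip_altAD (m := 1449551462) true rfl hκ (SH.κ0 hκ (SH.hx1 hx).le (SH.hx2 hx').le) (SH.hx1 hx).le (SH.hx2 hx') (covB02).cov (covB61).cov hx hx' c_A06mm_213_s1 cutA_nil (noExt_A)

noncomputable def cut_B00pp_001_s1 : Cut := Cut.of [[⟨4, 0, 0, 1449551462⟩]]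

noncomputable def f_B00pp_001_s1 : ℕ → ℕ → ℕ → ℕ → Bool := onCell 0 536870912 0 536870912 536870912 50465866
    (rowF 1 false true true .up 0 0 1 (qsf 0 536870912 536870912 536870912 0) ndB0q0 ndB0q1 pcB0 cut_B00pp_001_s1 Ext.none)

def k0_B00pp_001_s1 : ∃ t, chk3 f_B00pp_001_s1 t 1 1 1 = true :=
  ⟨(l 3), by decide +kernel⟩

theorem c_B00pp_001_s1 : CertF 0 536870912 536870912 536870912 536870912 50465866 false true true .up 0 0 1
    ndB0q0 ndB0q1 pcB0 cut_B00pp_001_s1 Ext.none :=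
  certF1 (fam := false) (s1 := true) (s2 := true) (a := 0) (b := 0) (c := 1) (cn := .up) (n1 := ndB0q0) (n2 := ndB0q1) (pc := pcB0) (cut := cut_B00pp_001_s1) (xt := Ext.none) (P1 := 0) (W1 := 536870912) (P2 := 536870912) (W2 := 536870912) (P3 := 536870912) (W3 := 50465866)
    rfl (fun _ => rfl) k0_B00pp_001_s1

theorem s_B00pp_001_s1 {κ x : ℝ} (hκ : κ * h0 = ken x) (hx : ((536870912 : ℕ) : ℝ) / S ≤ x)
    (hx' : x ≤ (((536870912 : ℕ) : ℝ) + (50465866 : ℕ)) / S) :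
    AltB (VFD κ) PP tK tL pcB [⟨3, 0, 0, 1449551462⟩] 0 0 1 0 0 (sgb true) (sgb true) x :=
  strip_altBD (m := 1449551462) true rfl hκ (SH.κ0 hκ (SH.hx1 hx).le (SH.hx2 hx').le) (SH.hx1 hx).le (SH.hx2 hx') (covB00).cov (covB01).cov hx hx' c_B00pp_001_s1 cutB_nil (noExt_B)

noncomputable def cut_B00pp_001_s3 : Cut := Cut.of [[⟨3, 0, 0, 2845415833⟩]]

noncomputable def f_B00pp_001_s3 : ℕ → ℕ → ℕ → ℕ → Bool := onCell 0 536870912 536870912 536870912 536870912 50465866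
    (rowF 0 false true true .up 0 0 1 (qsf 0 536870912 536870912 536870912 0) ndB0q0 ndB0q1 pcB0 cut_B00pp_001_s3 Ext.none)

def k0_B00pp_001_s3 : ∃ t, chk3 f_B00pp_001_s3 t 1 1 1 = true :=
  ⟨(l 6), by decide +kernel⟩

theorem c_B00pp_001_s3 : CertF 0 536870912 536870912 536870912 536870912 50465866 false true true .up 0 0 1
    ndB0q0 ndB0q1 pcB0 cut_B00pp_001_s3 Ext.none :=
  certF0 (fam := false) (s1 := true) (s2 := true) (a := 0) (b := 0) (c := 1) (cn := .up) (n1 := ndB0q0) (n2 := ndB0q1) (pc := pcB0) (cut := cut_B00pp_001_s3) (xt := Ext.none) (P1 := 0) (W1 := 536870912) (P2 := 536870912) (W2 := 536870912) (P3 := 536870912) (W3 := 50465866)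
    rfl k0_B00pp_001_s3

theorem s_B00pp_001_s3 {κ x : ℝ} (hκ : κ * h0 = ken x) (hx : ((536870912 : ℕ) : ℝ) / S ≤ x)
    (hx' : x ≤ (((536870912 : ℕ) : ℝ) + (50465866 : ℕ)) / S) :
    AltB (VFD κ) PP tK tL pcB [⟨4, 0, 0, 2845415833⟩] 0 0 1 0 0 (sgb true) (sgb true) x :=
  strip_altBD (m := 2845415833) false rfl hκ (SH.κ0 hκ (SH.hx1 hx).le (SH.hx2 hx').le) (SH.hx1 hx).le (SH.hx2 hx') (covB00).cov (covB01).cov hx hx' c_B00pp_001_s3 cutB_nil (noExt_B)

noncomputable def cut_B00pp_011_s1 : Cut := Cut.of [[⟨4, 0, 0, 1449551462⟩], [⟨0, 0, 0, 67108864⟩, ⟨1, 1, 0, 67108864⟩, ⟨2, 1, 0, 67108864⟩]]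

noncomputable def f_B00pp_011_s1 : ℕ → ℕ → ℕ → ℕ → Bool := onCell 536870912 536870912 536870912 536870912 536870912 50465866
    (rowF 2 false true true .pnn 0 1 1 (qsf 0 536870912 536870912 536870912 1) ndB0q0 ndB0q1 pcB1 cut_B00pp_011_s1 Ext.none)

def k0_B00pp_011_s1 : ∃ t, chk3 f_B00pp_011_s1 t 1 1 1 = true :=
  ⟨(a (l 3) (b (l 3) (a (l 3) (b (l 3) (a (l 3) (b (l 3) (b (l 3) (a (l 3) (l 14))))))))), by decide +kernel⟩

theorem c_B00pp_011_s1 : CertF 0 536870912 536870912 536870912 536870912 50465866 false true true .pnn 0 1 1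
    ndB0q0 ndB0q1 pcB1 cut_B00pp_011_s1 Ext.none :=
  certF2 (fam := false) (s1 := true) (s2 := true) (a := 0) (b := 1) (c := 1) (cn := .pnn) (n1 := ndB0q0) (n2 := ndB0q1) (pc := pcB1) (cut := cut_B00pp_011_s1) (xt := Ext.none) (P1 := 0) (W1 := 536870912) (P2 := 536870912) (W2 := 536870912) (P3 := 536870912) (W3 := 50465866)
    rfl (fun _ => rfl) k0_B00pp_011_s1

theorem s_B00pp_011_s1 {κ x : ℝ} (hκ : κ * h0 = ken x) (hx : ((536870912 : ℕ) : ℝ) / S ≤ x)
    (hx' : x ≤ (((536870912 : ℕ) : ℝ) + (50465866 : ℕ)) / S)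
    (H : CutB (VFD κ) PP tK tL pcB (Cut.of [[⟨0, 0, 0, 67108864⟩, ⟨1, 1, 0, 67108864⟩, ⟨2, 1, 0, 67108864⟩]]) 0 1 1 0 0 (sgb true) (sgb true) x) :
    AltB (VFD κ) PP tK tL pcB [⟨3, 0, 0, 1449551462⟩] 0 1 1 0 0 (sgb true) (sgb true) x :=
  strip_altBD (m := 1449551462) true rfl hκ (SH.κ0 hκ (SH.hx1 hx).le (SH.hx2 hx').le) (SH.hx1 hx).le (SH.hx2 hx') (covB00).cov (covB01).cov hx hx' c_B00pp_011_s1 H (noExt_B)

noncomputable def cut_B00pp_011_s3 : Cut := Cut.of [[⟨3, 0, 0, 2845415833⟩], [⟨0, 0, 0, 67108864⟩, ⟨1, 1, 0, 67108864⟩, ⟨2, 1, 0, 67108864⟩]]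

noncomputable def f_B00pp_011_s3 : ℕ → ℕ → ℕ → ℕ → Bool := onCell 0 536870912 536870912 536870912 536870912 50465866
    (rowF 0 false true true .pnn 0 1 1 (qsf 0 536870912 536870912 536870912 1) ndB0q0 ndB0q1 pcB1 cut_B00pp_011_s3 Ext.none)

def k0_B00pp_011_s3 : ∃ t, chk3 f_B00pp_011_s3 t 1 1 1 = true :=
  ⟨(l 6), by decide +kernel⟩

theorem c_B00pp_011_s3 : CertF 0 536870912 536870912 536870912 536870912 50465866 false true true .pnn 0 1 1
    ndB0q0 ndB0q1 pcB1 cut_B00pp_011_s3 Ext.none :=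
  certF0 (fam := false) (s1 := true) (s2 := true) (a := 0) (b := 1) (c := 1) (cn := .pnn) (n1 := ndB0q0) (n2 := ndB0q1) (pc := pcB1) (cut := cut_B00pp_011_s3) (xt := Ext.none) (P1 := 0) (W1 := 536870912) (P2 := 536870912) (W2 := 536870912) (P3 := 536870912) (W3 := 50465866)
    rfl k0_B00pp_011_s3

theorem s_B00pp_011_s3 {κ x : ℝ} (hκ : κ * h0 = ken x) (hx : ((536870912 : ℕ) : ℝ) / S ≤ x)
    (hx' : x ≤ (((536870912 : ℕ) : ℝ) + (50465866 : ℕ)) / S)
    (H : CutB (VFD κ) PP tK tL pcB (Cut.of [[⟨0, 0, 0, 67108864⟩, ⟨1, 1, 0, 67108864⟩, ⟨2, 1, 0, 67108864⟩]]) 0 1 1 0 0 (sgb true) (sgb true) x) :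
    AltB (VFD κ) PP tK tL pcB [⟨4, 0, 0, 2845415833⟩] 0 1 1 0 0 (sgb true) (sgb true) x :=
  strip_altBD (m := 2845415833) false rfl hκ (SH.κ0 hκ (SH.hx1 hx).le (SH.hx2 hx').le) (SH.hx1 hx).le (SH.hx2 hx') (covB00).cov (covB01).cov hx hx' c_B00pp_011_s3 H (noExt_B)

noncomputable def cut_B00pp_012_s1 : Cut := Cut.of [[⟨4, 0, 0, 1449551462⟩], [⟨0, 0, 0, 67108864⟩, ⟨1, 1, 0, 67108864⟩, ⟨2, 1, 0, 67108864⟩]]

noncomputable def xt_B00pp_012_s1 : Ext := strExt6 dd false true true .u0 .u2 .u0m .pnp 0 1 2 rfl rfl gf1 vv ww ndB0q0 ndB0q2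

noncomputable def f_B00pp_012_s1 : ℕ → ℕ → ℕ → ℕ → Bool := onCell 536870912 536870912 0 536870912 536870912 50465866
    (rowF 2 false true true .pnp 0 1 2 (qsf 0 536870912 0 536870912 1) ndB0q0 ndB0q2 pcB1 cut_B00pp_012_s1 xt_B00pp_012_s1)

def k0_B00pp_012_s1 : ∃ t, chk3 f_B00pp_012_s1 t 4 2 1 = true :=
  ⟨(b (l 2) (l 3)), by decide +kernel⟩

def k1_B00pp_012_s1 : ∃ t, chk3 f_B00pp_012_s1 t 10 2 1 = true :=
  ⟨(b (b (a (a (l 2) (a (l 2) (b (b (l 16746360) (l 16737136)) (l 1068127759)))) (b (a (b (a (c (l 16721200) (l 16739024)) (a (l 16715176) (l 16712488))) (a (l 16731216) (b (l 16722512) (l 16728104)))) (b (l 16705352) (a (c (l 16720752) (l 16738888)) (b (l 16710544) (l 16715904))))) (a (b (l 1068224527) (l 1068041743)) (c (b (l 16749392) (l 1068117519)) (b (l 16747240) (l 1067914255)))))) (a (b (a (l 2) (l 1067728911)) (l 3)) (b (b (a (l 1067827727) (a (l 1067808271) (l 1067805199))) (a (l 1067614735) (a (c (l 1067671055)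 (l 1067542031)) (a (l 1067609615) (l 1067637775))))) (a (b (b (b (l 1067483151) (l 3)) (l 3)) (l 3)) (a (b (b (c (l 1067507215) (l 1067407375)) (l 1067409935)) (l 3)) (b (c (l 1067524111) (l 1067421199)) (l 1067656207))))))) (l 3)), by decide +kernel⟩

def k2_B00pp_012_s1 : ∃ t, chk3 f_B00pp_012_s1 t 11 2 1 = true :=
  ⟨(b (b (b (a (a (b (l 16693536) (l 16704456)) (b (l 16680840) (l 16691688))) (a (b (l 16668208) (l 16678880)) (b (l 16656616) (l 16667104)))) (a (a (b (a (b (l 16715448) (l 16720896)) (b (l 16709680) (l 16715032))) (a (l 16728944) (l 16723040))) (b (l 16702408) (a (b (l 16713776) (l 16719176)) (b (l 16707048) (l 16712504))))) (b (a (l 16689480) (l 16677560)) (a (c (l 16700792) (l 16699120)) (l 16688032))))) (a (b (a (b (a (l 16750600) (l 1067905039)) (a (c (l 16762704) (l 1067623439)) (a (l 16757856) (l 16754784)))) (b (a (l 16727592) (l 16720952)) (c (l 1067844623) (l 1067699727)))) (b (a (c (l 1068360207)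 (a (l 1067590159) (l 1067668495))) (c (l 1067875343) (l 1067687439))) (a (l 1067805199) (c (l 1067984911) (l 1067728399))))) (b (b (a (a (b (l 16711552) (l 16717320)) (b (l 16705072) (l 16710928))) (a (l 16701816) (l 16696216))) (a (a (l 16726360) (l 16719936)) (a (b (l 16710728) (l 16716856)) (b (l 16704856) (c (l 16711744) (l 16710344)))))) (a (c (a (b (l 16739472) (l 1067971087)) (l 1067924495)) (a (b (l 16759360) (l 1067734543)) (b (l 16731976) (l 16755064)))) (b (a (l 16726456) (l 16720608)) (a (l 1067895823) (l 16733312))))))) (b (a (b (a (b (c (l 1068053007) (l 1067724303)) (l 3)) (b (c (l 1068091919) (l 1067768335)) (c (l 1068198927) (l 1067811855)))) (l 3)) (b (b (a (a (c (l 1068074511) (l 1067773455)) (l 1068201999)) (c (l 1068144143) (a (l 1067837967) (l 16755224)))) (a (a (l 1068804111) (c (l 1068190735) (l 1067845135))) (b (l 1068096527) (l 1068184079)))) (a (b (c (l 1068414991) (l 1068028431)) (l 3)) (b (a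 (l 1068296207) (l 1068357135)) (l 1068497423))))) (l 3))), by decide +kernel⟩

def k3_B00pp_012_s1 : ∃ t, chk3 f_B00pp_012_s1 t 2 3 1 = true :=
  ⟨(l 3), by decide +kernel⟩

def k4_B00pp_012_s1 : ∃ t, chk3 f_B00pp_012_s1 t 6 4 1 = true :=
  ⟨(a (b (b (a (a (l 16672568) (l 16642632)) (a (l 16634664) (l 16626888))) (a (a (b (l 16667056) (l 16677432)) (l 16683848)) (a (l 16675456) (l 16646176)))) (a (b (b (a (l 16688344) (l 16678856)) (a (a (a (l 16703800) (l 16701280)) (l 16697520)) (l 16700904))) (b (b (a (a (c (l 16712736) (l 16711032)) (c (l 16707616) (l 16705640))) (l 16710032)) (a (a (l 16718288) (a (l 16714368) (l 16711776))) (a (c (l 16709256) (l 16706832)) (l 16703464)))) (a (a (l 16727752) (l 16722448)) (a (b (a (l 16715592) (c (l 16714384) (l 16711800))) (l 16720472)) (a (b (a (l 16711288) (l 16710160)) (l 16716872)) (b (l 16708440) (b (l 16712936) (l 16715992)))))))) (b (a (b (l 16670192) (l 16681552)) (b (l 16661488)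 (l 16672568))) (b (a (a (l 16695864) (l 16691320)) (a (l 16686648) (l 16681872))) (a (a (a (a (b (l 16706728) (a (l 16712992) (l 16712416))) (l 16708592)) (l 16717336)) (b (l 16700344) (l 16706240))) (a (b (l 16695552) (l 16701384)) (l 16693560))))))) (b (a (b (a (l 16618728) (l 6)) (a (l 16637448) (l 16628392))) (b (l 6) (a (l 16618608) (l 6)))) (a (b (a (l 16678648) (l 16689944)) (a (b (l 16674504) (a (l 16688520) (l 16683376))) (b (l 16664328) (l 16717408)))) (b (a (l 16637648) (l 16626208)) (a (c (l 16703920) (l 16655464)) (c (l 16649848) (l 16643136))))))), by decide +kernel⟩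

def k5_B00pp_012_s1 : ∃ t, chk3 f_B00pp_012_s1 t 12 5 1 = true :=
  ⟨(b (a (b (a (b (a (l 16745192) (l 16734624)) (a (l 1068253711) (l 1068335119))) (b (a (l 16729520) (b (l 16721656) (l 16727568))) (a (l 1068420111) (l 1068506639)))) (a (b (l 1068457999) (l 1068608527)) (b (a (l 1068567567) (l 1068640271)) (a (l 1068699663) (l 1068748815))))) (b (a (a (b (b (a (a (l 16718680) (l 16712272)) (c (b (l 16715872) (l 16718832)) (b (l 16712472) (l 16715456)))) (l 16722728)) (b (l 16728480) (l 16734128))) (b (b (a (a (b (l 16712424) (l 16715304)) (l 16712664)) (l 16710832)) (a (b (a (l 16718208) (l 16716984)) (l 16720464)) (b (c (l 16716944) (b (l 16712504) (l 16713936))) (a (l 16718592) (c (l 16719184) (l 16715456)))))) (b (a (l 16724728) (l 16722200)) (l 16729048)))) (b (a (b (a (l 16708360) (l 16705880)) (a (a (b (l 16713248) (b (l 16715368) (l 16716768))) (l 16713408)) (l 16711520))) (b (l 16702096) (l 16707688))) (a (b (a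 (b (a (l 16718888) (b (l 16716904) (l 16718312))) (l 16721040)) (b (a (b (l 16715632) (l 16717016)) (l 16715056)) (a (l 16719112) (b (l 16717120) (l 16718512))))) (a (l 16725184) (l 16722584))) (b (a (b (l 16713128) (a (b (l 16715832) (l 16717200)) (l 16715224))) (l 16711904)) (a (b (a (l 16719272) (b (l 16717264) (l 16718632))) (l 16721312)) (b (a (b (l 16715960) (l 16717304)) (l 16715312)) (a (l 16719328) (b (l 16717320) (l 16718664))))))))) (b (a (a (l 1068684815) (l 1068706319)) (a (b (l 16729240) (l 16734400)) (b (b (l 16722632) (l 16725232)) (l 16729056)))) (a (l 1068761615) (a (l 16744408) (l 1068725263)))))) (a (b (b (a (l 1068739087) (a (l 1068797967) (l 1068816911))) (a (l 3) (l 1068703247))) (l 3)) (a (b (b (b (l 1068769807) (l 1068735503)) (l 1068639759)) (l 1068443151)) (b (b (b (l 1068712975) (l 1068667407)) (l 1068570127)) (l 1068907535))))), by decide +kernel⟩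

def k6_B00pp_012_s1 : ∃ t, chk3 f_B00pp_012_s1 t 13 10 1 = true :=
  ⟨(a (b (a (b (a (l 16710224) (l 16694456)) (a (b (l 16718432) (a (b (l 16713328) (a (l 16721888) (l 16715320))) (l 16711976))) (b (l 16702576) (l 16728872)))) (b (a (l 16689088) (l 16683520)) (a (b (l 16697112) (l 16702376)) (l 16694056)))) (a (b (a (b (a (b (a (l 16719296) (l 16723176)) (l 16721192)) (a (b (l 16716568) (l 16719160)) (b (l 16715224) (l 16717784)))) (l 1069244431)) (b (a (b (l 16713176) (l 16726200)) (l 16711696)) (b (a (c (l 16720400) (l 16716016)) (l 16715440)) (a (l 16720704) (c (l 16720104) (l 16715664)))))) (a (l 1068701711) (b (l 1068682255) (l 16727664)))) (b (a (a (b (l 16708904) (l 16724352)) (l 16729536)) (a (l 16705624) (l 16702616))) (a (b (a (b (c (l 16719704) (l 16715216)) (l 16719872)) (b (l 16714584) (c (l 16719152) (l 16714648)))) (a (l 16723368) (l 16720400))) (b (a (l 16712776) (l 16709704)) (a (b (l 16716216) (l 16718488))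 (c (l 16716464) (l 16711936)))))))) (a (b (a (b (l 16677704) (l 16688048)) (l 16718704)) (a (b (l 16697952) (a (l 16708848) (l 16705624))) (b (l 16691504) (l 16700664)))) (b (c (l 16712080) (l 16663688)) (a (l 16731360) (l 16682432))))), by decide +kernel⟩

def k7_B00pp_012_s1 : ∃ t, chk3 f_B00pp_012_s1 t 13 11 1 = true :=
  ⟨(a (b (a (b (a (l 16740056) (l 1068605455)) (a (l 16748904) (l 16743200))) (b (a (l 1068554767) (b (c (l 16722304) (l 16718144)) (l 16724584))) (l 1069444623))) (a (a (l 1068833295) (a (l 1068248591) (l 1068208655))) (b (l 1068194831) (b (l 1068034575) (l 1067899919))))) (b (a (b (a (b (a (l 16715464) (l 16712168)) (l 16718088)) (a (b (l 16708848) (l 16713040)) (l 16707520))) (a (l 16724456) (b (l 16715504) (l 16719744)))) (b (a (l 16702312) (l 16695184)) (a (b (l 16708440) (l 16712640)) (l 16724256)))) (a (b (b (l 16748488) (l 16752856)) (l 1068269071)) (b (a (l 16719072) (l 16711696)) (b (l 16721936)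 (l 16726352)))))), by decide +kernel⟩

def k8_B00pp_012_s1 : ∃ t, chk3 f_B00pp_012_s1 t 7 2 1 = true :=
  ⟨(b (a (b (l 6) (a (b (a (l 16613848) (l 6)) (a (l 16633432) (l 16619696))) (b (l 6) (a (l 16605664) (l 6))))) (l 6)) (a (b (a (a (b (l 16695096) (l 16713560)) (b (l 16638768) (l 16656752))) (a (b (l 16624104) (l 16641664)) (b (l 16609432) (l 16626600)))) (a (a (b (a (l 16733888) (l 16684472)) (b (a (l 16704144) (l 16696536)) (a (l 16712736) (l 16704992)))) (b (l 16715032) (b (l 16685080) (a (l 16739144) (l 16689496))))) (a (b (l 16657832) (l 16715744)) (b (l 16684520) (l 16679696))))) (b (a (b (a (l 16594952) (l 6)) (a (l 16611792) (l 16597768))) (a (b (l 6) (l 16584800)) (l 6))) (b (a (a (l 16627896) (c (l 16614784) (l 16613096))) (a (b (l 16596976) (l 16605248)) (a (l 16613000) (l 16607128)))) (b (a (a (l 16640120) (l 16626552)) (a (c (l 16614000) (l 16613480)) (a (l 16604768) (l 16598904)))) (a (a (l 16648712) (a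 (l 16638784) (l 16632832))) (a (a (l 16632112) (b (l 16618056) (l 16623688))) (a (b (l 16612200) (l 16617672)) (b (l 16606368) (l 16611696)))))))))), by decide +kernel⟩

def k9_B00pp_012_s1 : ∃ t, chk3 f_B00pp_012_s1 t 6 6 1 = true :=
  ⟨(a (b (a (l 3) (b (b (a (l 3) (b (a (l 3) (l 1068154895)) (l 3))) (l 3)) (l 3))) (l 3)) (b (a (a (b (b (b (l 1067962895) (l 1067782159)) (b (l 1067606543) (l 3))) (l 3)) (b (a (b (l 1067703311) (l 1067366415)) (b (l 1067588111) (l 1067260431))) (b (b (a (b (l 1067168271) (l 3)) (l 1067030031)) (b (a (l 3) (a (l 3) (l 1066896399))) (l 3))) (l 3)))) (b (a (b (a (l 1067472911) (l 1067357711)) (a (l 1067153423) (l 1067046415))) (b (l 1067188239) (a (l 1066941455) (l 1066841103)))) (a (b (a (b (l 1066929167) (a (b (l 1066847759) (l 1066778127)) (a (l 1066776591) (l 1066752527)))) (a (b (l 1066854415) (a (l 1066728463) (l 1066703887))) (b (l 1066803727) (l 1066668559)))) (a (b (a (l 3) (b (a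 (b (l 1066692111) (l 3)) (b (l 1066668559) (a (b (l 1066650127) (l 3)) (b (l 1066638351) (l 1066622479))))) (a (l 3) (a (l 3) (b (l 1066599951) (l 3)))))) (l 3)) (a (b (b (a (b (l 1066645519) (l 1066613263)) (l 1066606095)) (a (l 1066568207) (l 1066546191))) (a (l 3) (b (l 1066487823) (l 3)))) (b (b (l 1066571791) (l 1066513423)) (a (l 1066438159) (l 1066417167)))))) (a (b (b (l 1066730511) (l 1066598927)) (b (a (l 1066499599) (l 1066456591)) (l 1066364431))) (b (l 1066572815) (b (l 1066393615) (l 1066284047))))))) (a (l 3) (b (a (l 3) (b (a (b (a (b (l 1066305039) (l 3)) (l 1066240015)) (l 3)) (b (l 1066182159) (l 1066086927))) (a (l 3) (a (l 3) (b (l 1065983503) (l 3)))))) (l 3))))), by decide +kernel⟩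

def k10_B00pp_012_s1 : ∃ t, chk3 f_B00pp_012_s1 t 14 6 1 = true :=
  ⟨(a (b (b (a (b (l 1066982927) (l 1066701327)) (b (a (l 16706192) (l 16698304)) (l 16743496))) (a (b (a (l 1066488335) (l 16750368)) (a (l 1066261007) (l 1066191375))) (b (l 1066848271) (l 1067981327)))) (b (a (a (b (b (l 1066110479) (l 1066018319)) (a (l 1065910287) (l 1065879567))) (b (l 1065999887) (l 1065836559))) (b (a (l 1065944591) (l 1065895951)) (a (a (l 1065799695) (l 1065772047)) (l 1065760783)))) (a (a (l 3) (b (b (a (l 1065747983) (l 1065723407)) (l 3)) (l 3))) (b (a (b (a (l 1065704463) (l 1065686543)) (l 1065718287)) (l 1067809807)) (a (a (l 3) (l 1065766927)) (l 1065767439)))))) (b (b (a (b (l 16728712) (l 16719176)) (a (l 16682864) (l 16676560))) (a (b (l 16730624) (l 1066940431)) (a (b (l 16743656) (l 16733304)) (b (l 16716624) (l 16706592))))) (b (a (b (a (l 16745960) (l 16739688)) (a (l 1066016271) (l 1066221071))) (b (a (l 16744000)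 (l 1066679823)) (a (l 1067997199) (a (l 16744736) (l 16741496))))) (a (a (b (l 1066399759) (l 1065787919)) (b (l 1066061327) (b (l 1065943567) (l 1065867279)))) (b (a (a (l 1066187279) (l 1066997263)) (b (l 1066396175) (l 1066311695))) (a (b (l 1066101775) (l 1066022927)) (a (l 1067769871) (l 1067827727)))))))), by decide +kernel⟩

def k11_B00pp_012_s1 : ∃ t, chk3 f_B00pp_012_s1 t 30 6 1 = true :=
  ⟨(b (a (b (b (a (l 16663600) (l 16657312)) (a (l 16655440) (b (l 16666632) (l 16672776)))) (b (a (l 16688968) (l 16681936)) (a (a (l 16702216) (l 16699024)) (a (l 16695632) (l 16692104))))) (b (a (b (l 16651000) (b (l 16660040) (l 16666016))) (b (b (l 16641720) (l 16642376)) (b (l 16653464) (l 16659272)))) (a (b (a (l 16676672) (l 16673168)) (a (l 16688480) (l 16684824))) (a (b (l 16669680) (c (l 16682792) (l 16679728))) (b (a (l 16667064) (l 16665336)) (c (l 16679152) (l 16676128))))))) (a (b (a (b (l 1067863055) (b (l 16718344)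 (l 16733968))) (a (b (l 16706128) (l 16737056)) (b (l 16724000) (l 16733816)))) (b (a (b (l 1066502159) (l 1066416655)) (b (l 16727264) (l 1066499599))) (b (a (l 1066333711) (l 1066416143)) (a (l 1066252815) (l 1066334223))))) (a (b (b (b (a (l 16697112) (l 16693480)) (a (l 16702288) (l 16698984))) (c (l 16730288) (l 16706768))) (b (b (l 16715336) (l 16730832)) (b (l 1066478095) (l 1066395151)))) (b (b (b (c (l 16689488) (l 16686416)) (c (l 16695096) (l 16692048))) (b (a (l 16700656) (l 16697128)) (l 16703800))) (b (b (l 16708624) (l 16713520)) (b (l 16718504) (l 16734056))))))), by decide +kernel⟩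

def k12_B00pp_012_s1 : ∃ t, chk3 f_B00pp_012_s1 t 31 12 1 = true :=
  ⟨(b (a (b (a (b (l 16635496) (b (l 16639800) (l 16642656))) (b (l 16629304) (b (l 16633488) (l 16636264)))) (a (b (b (l 16645496) (l 16648328)) (a (l 16654240) (l 16650904))) (b (b (l 16639032) (l 16636552)) (a (l 16647576) (l 16644264))))) (b (b (a (l 16617896) (a (l 16618544) (l 16615488))) (a (a (l 16630144) (l 16627000)) (a (l 16623872) (l 16620752)))) (b (a (a (l 16635576) (l 16632360)) (a (l 16629160) (b (l 16624672) (l 16627272)))) (a (a (l 16638352) (a (l 16638504) (l 16636872))) (a (b (l 16633104) (l 16635728)) (b (l 16629872) (l 16632464))))))) (b (a (a (a (b (l 16659896) (l 16665528)) (b (l 16656488) (l 16662040))) (a (b (l 16653088) (c (l 16660096) (l 16657224))) (b (a (l 16650552) (l 16648864)) (c (l 16656632) (l 16653800))))) (a (a (b (a (l 16647184) (l 16645504)) (c (l 16653176) (l 16650384))) (b (b (l 16641664) (l 16644312)) (c (l 16649736)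 (l 16647000)))) (a (b (b (l 16638352) (l 16640960)) (c (l 16646320) (l 16643632))) (b (b (l 16635056) (l 16637640)) (c (l 16642920) (l 16640296)))))) (a (a (a (b (l 16671136) (l 16676720)) (b (l 16667576) (l 16673096))) (c (b (a (l 16665576) (l 16662032)) (a (l 16671024) (l 16667408))) (b (a (l 16662680) (l 16659192)) (a (l 16668136) (l 16664584))))) (a (b (c (a (l 16658504) (l 16655000)) (a (l 16655720) (l 16652280))) (c (a (l 16663816) (l 16660248)) (a (l 16661064) (l 16657560)))) (b (a (c (l 16651520) (l 16648856)) (c (l 16648056) (l 16645464))) (a (c (l 16656696) (l 16654080)) (c (l 16653176) (l 16650632)))))))), by decide +kernel⟩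

def k13_B00pp_012_s1 : ∃ t, chk3 f_B00pp_012_s1 t 31 13 1 = true :=
  ⟨(b (b (a (a (c (b (l 16682008) (l 16687528)) (b (l 16679056) (l 16684608))) (a (b (l 16674936) (l 16680376)) (b (l 16671296) (l 16676672)))) (b (a (c (a (l 16669112) (l 16665472)) (a (l 16666408) (l 16662848))) (a (c (l 16661864) (l 16659320)) (c (l 16658280) (l 16655824)))) (a (a (l 16672992) (l 16669336)) (a (l 16665712) (l 16662112))))) (a (a (a (b (l 16693424) (l 16698728)) (b (l 16689608) (l 16695040))) (b (c (l 16685360) (l 16682664)) (l 16689344))) (b (a (c (l 16677792) (l 16675288)) (a (l 16670920) (l 16667272))) (a (l 16681760) (b (l 16672992) (l 16675592)))))) (b (b (a (a (l 16712384) (b (l 16693368) (l 16695992))) (a (l 16687064) (l 16679504))) (a (a (l 16706672) (a (l 16701520) (l 16698008))) (a (l 16692344) (l 16684736)))) (a (a (c (l 16725392) (l 16734272)) (b (l 16704584) (l 16709456))) (a (b (a (l 16699376) (l 16695696)) (l 16702424))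 (b (l 16690000) (a (l 16697080) (l 16693312))))))), by decide +kernel⟩

def k14_B00pp_012_s1 : ∃ t, chk3 f_B00pp_012_s1 t 6 7 1 = true :=
  ⟨(l 3), by decide +kernel⟩

def k15_B00pp_012_s1 : ∃ t, chk3 f_B00pp_012_s1 t 7 14 1 = true :=
  ⟨(a (a (l 3) (b (a (a (b (b (l 1065808911) (l 3)) (l 3)) (b (b (l 1066371087) (l 1065834511)) (l 3))) (a (b (b (c (l 1067082255) (l 1065898511)) (l 1065873423)) (l 1066379791)) (b (b (l 1066071055) (l 1065995279)) (l 1066419215)))) (a (l 3) (a (l 3) (b (l 1065836047) (l 3)))))) (a (b (a (b (a (b (l 1066174479) (l 1066098191)) (b (l 1066253839) (l 1066175503))) (b (l 1066589199) (l 1066514447))) (a (b (b (l 1066313231) (l 16751640)) (l 1066109967)) (b (b (l 16728704) (l 16733912)) (l 1066686991)))) (a (b (l 1069078031) (a (l 3) (l 1067956751))) (b (a (l 1066496015) (c (l 1067382287) (l 1066502671))) (b (a (l 1065872399) (l 1067509775)) (a (l 1067295759) (a (l 1066384399) (l 1066932751)))))))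 (b (b (a (a (b (l 16742528) (l 16726672)) (l 16716936)) (a (l 16709760) (l 16707888))) (a (a (l 16744984) (l 16737624)) (a (l 16730280) (l 16722968)))) (a (b (a (a (l 1067103759) (l 1067653135)) (b (l 16740176) (c (l 16745632) (l 16740120)))) (b (a (a (l 1065931791) (l 1065944591)) (a (l 1066492943) (l 1067040783))) (b (a (l 1067495951) (a (l 16756744) (l 14))) (a (c (l 1067474959) (l 1065833487)) (a (l 1065880591) (l 14)))))) (b (a (b (l 16732720) (c (l 16738128) (l 16732576))) (a (l 16734984) (l 14))) (a (a (b (l 16745088) (l 14)) (l 14)) (l 14))))))), by decide +kernel⟩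

def k16_B00pp_012_s1 : ∃ t, chk3 f_B00pp_012_s1 t 7 15 1 = true :=
  ⟨(a (l 3) (a (b (a (l 3) (b (b (b (a (a (l 1065786383) (l 1065797135)) (a (l 1065807887) (l 1065818639))) (a (a (l 3) (l 1065767439)) (l 1067381775))) (b (a (l 3) (c (l 1067357711) (l 1065713679))) (a (l 3) (c (l 1067325455) (l 1065677839))))) (a (l 3) (a (l 3) (a (l 3) (a (l 3) (l 14))))))) (l 3)) (a (b (b (a (a (b (l 1067147791) (c (l 1066822159) (l 1065710095))) (b (a (l 1065818127) (l 1065822223)) (l 14))) (l 14)) (l 14)) (l 14)) (l 14)))), by decide +kernel⟩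

theorem t17_B00pp_012_s1 : ∃ t, chk3 f_B00pp_012_s1 t 7 7 1 = true := ex3_b k15_B00pp_012_s1 k16_B00pp_012_s1

theorem t18_B00pp_012_s1 : ∃ t, chk3 f_B00pp_012_s1 t 3 7 1 = true := ex3_a k14_B00pp_012_s1 t17_B00pp_012_s1

theorem t19_B00pp_012_s1 : ∃ t, chk3 f_B00pp_012_s1 t 31 6 1 = true := ex3_b k12_B00pp_012_s1 k13_B00pp_012_s1

theorem t20_B00pp_012_s1 : ∃ t, chk3 f_B00pp_012_s1 t 15 6 1 = true := ex3_a k11_B00pp_012_s1 t19_B00pp_012_s1

theorem t21_B00pp_012_s1 : ∃ t, chk3 f_B00pp_012_s1 t 7 6 1 = true := ex3_a k10_B00pp_012_s1 t20_B00pp_012_s1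

theorem t22_B00pp_012_s1 : ∃ t, chk3 f_B00pp_012_s1 t 3 6 1 = true := ex3_a k9_B00pp_012_s1 t21_B00pp_012_s1

theorem t23_B00pp_012_s1 : ∃ t, chk3 f_B00pp_012_s1 t 3 3 1 = true := ex3_b t22_B00pp_012_s1 t18_B00pp_012_s1

theorem t24_B00pp_012_s1 : ∃ t, chk3 f_B00pp_012_s1 t 13 5 1 = true := ex3_b k6_B00pp_012_s1 k7_B00pp_012_s1

theorem t25_B00pp_012_s1 : ∃ t, chk3 f_B00pp_012_s1 t 6 5 1 = true := ex3_a k5_B00pp_012_s1 t24_B00pp_012_s1

theorem t26_B00pp_012_s1 : ∃ t, chk3 f_B00pp_012_s1 t 6 2 1 = true := ex3_b k4_B00pp_012_s1 t25_B00pp_012_s1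

theorem t27_B00pp_012_s1 : ∃ t, chk3 f_B00pp_012_s1 t 3 2 1 = true := ex3_a t26_B00pp_012_s1 k8_B00pp_012_s1

theorem t28_B00pp_012_s1 : ∃ t, chk3 f_B00pp_012_s1 t 3 1 1 = true := ex3_b t27_B00pp_012_s1 t23_B00pp_012_s1

theorem t29_B00pp_012_s1 : ∃ t, chk3 f_B00pp_012_s1 t 5 2 1 = true := ex3_a k1_B00pp_012_s1 k2_B00pp_012_s1

theorem t30_B00pp_012_s1 : ∃ t, chk3 f_B00pp_012_s1 t 2 2 1 = true := ex3_a k0_B00pp_012_s1 t29_B00pp_012_s1

theorem t31_B00pp_012_s1 : ∃ t, chk3 f_B00pp_012_s1 t 2 1 1 = true := ex3_b t30_B00pp_012_s1 k3_B00pp_012_s1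

theorem t32_B00pp_012_s1 : ∃ t, chk3 f_B00pp_012_s1 t 1 1 1 = true := ex3_a t31_B00pp_012_s1 t28_B00pp_012_s1

theorem c_B00pp_012_s1 : CertF 0 536870912 0 536870912 536870912 50465866 false true true .pnp 0 1 2
    ndB0q0 ndB0q2 pcB1 cut_B00pp_012_s1 xt_B00pp_012_s1 :=
  certF2 (fam := false) (s1 := true) (s2 := true) (a := 0) (b := 1) (c := 2) (cn := .pnp) (n1 := ndB0q0) (n2 := ndB0q2) (pc := pcB1) (cut := cut_B00pp_012_s1) (xt := xt_B00pp_012_s1) (P1 := 0) (W1 := 536870912) (P2 := 0) (W2 := 536870912) (P3 := 536870912) (W3 := 50465866)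
    rfl (fun _ => rfl) t32_B00pp_012_s1

theorem s_B00pp_012_s1 {κ x : ℝ} (hκ : κ * h0 = ken x) (hx : ((536870912 : ℕ) : ℝ) / S ≤ x)
    (hx' : x ≤ (((536870912 : ℕ) : ℝ) + (50465866 : ℕ)) / S)
    (H : CutB (VFD κ) PP tK tL pcB (Cut.of [[⟨0, 0, 0, 67108864⟩, ⟨1, 1, 0, 67108864⟩, ⟨2, 1, 0, 67108864⟩]]) 0 1 2 0 0 (sgb true) (sgb true) x) :
    AltB (VFD κ) PP tK tL pcB [⟨3, 0, 0, 1449551462⟩] 0 1 2 0 0 (sgb true) (sgb true) x :=
  strip_altBD (m := 1449551462) true rfl hκ (SH.κ0 hκ (SH.hx1 hx).le (SH.hx2 hx').le) (SH.hx1 hx).le (SH.hx2 hx') (covB00).cov (covB02).cov hx hx' c_B00pp_012_s1 H ((okx6 hx hx').extB (T := tt) (okx hx hx') (sideB hx hx') hκ rfl rfl (.O 0 true) (.O 2 true) (Or.inr rfl))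

noncomputable def cut_B00pp_012_s3 : Cut := Cut.of [[⟨3, 0, 0, 2845415833⟩], [⟨0, 0, 0, 67108864⟩, ⟨1, 1, 0, 67108864⟩, ⟨2, 1, 0, 67108864⟩]]

noncomputable def f_B00pp_012_s3 : ℕ → ℕ → ℕ → ℕ → Bool := onCell 0 536870912 0 536870912 536870912 50465866
    (rowF 0 false true true .pnp 0 1 2 (qsf 0 536870912 0 536870912 1) ndB0q0 ndB0q2 pcB1 cut_B00pp_012_s3 Ext.none)

def k0_B00pp_012_s3 : ∃ t, chk3 f_B00pp_012_s3 t 1 1 1 = true :=
  ⟨(l 6), by decide +kernel⟩

theorem c_B00pp_012_s3 : CertF 0 536870912 0 536870912 536870912 50465866 false true true .pnp 0 1 2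
    ndB0q0 ndB0q2 pcB1 cut_B00pp_012_s3 Ext.none :=
  certF0 (fam := false) (s1 := true) (s2 := true) (a := 0) (b := 1) (c := 2) (cn := .pnp) (n1 := ndB0q0) (n2 := ndB0q2) (pc := pcB1) (cut := cut_B00pp_012_s3) (xt := Ext.none) (P1 := 0) (W1 := 536870912) (P2 := 0) (W2 := 536870912) (P3 := 536870912) (W3 := 50465866)
    rfl k0_B00pp_012_s3

theorem s_B00pp_012_s3 {κ x : ℝ} (hκ : κ * h0 = ken x) (hx : ((536870912 : ℕ) : ℝ) / S ≤ x)
    (hx' : x ≤ (((536870912 : ℕ) : ℝ) + (50465866 : ℕ)) / S)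
    (H : CutB (VFD κ) PP tK tL pcB (Cut.of [[⟨0, 0, 0, 67108864⟩, ⟨1, 1, 0, 67108864⟩, ⟨2, 1, 0, 67108864⟩]]) 0 1 2 0 0 (sgb true) (sgb true) x) :
    AltB (VFD κ) PP tK tL pcB [⟨4, 0, 0, 2845415833⟩] 0 1 2 0 0 (sgb true) (sgb true) x :=
  strip_altBD (m := 2845415833) false rfl hκ (SH.κ0 hκ (SH.hx1 hx).le (SH.hx2 hx').le) (SH.hx1 hx).le (SH.hx2 hx') (covB00).cov (covB02).cov hx hx' c_B00pp_012_s3 H (noExt_B)

end Pool.Agent.Strip051.G.I5000_5470.Tab.St.C
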