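import Pool.Agent.Strip051.PB.StripB

/-! # The range of a table and its constant (generated) -/

namespace Pool.Agent.Strip051.G.I5000_5470.Tab.SH

open Pool.Agent.Strip051.PB Pool.Agent.StripNear Pool.Agent.Strip051.LC

theorem hx1 {x : ℝ} (hx : ((536870912 : ℕ) : ℝ) / S ≤ x) : 0 < x := by
  rw [S_num] at hx
  norm_num at hx
  linarith

theorem hx2 {x : ℝ} (hx' : x ≤ (((536870912 : ℕ) : ℝ) + (50465866 : ℕ)) / S) : x < 1 := by
  rw [S_num] at hx'
  norm_num at hx'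
  linarith

theorem κ0 {κ x : ℝ} (hκ : κ * h0 = ken x) (h0x : 0 ≤ x) (h1x : x ≤ 1) : 0 ≤ κ := by
  have h := ken_nonneg h0x h1x
  rw [← hκ] at h
  exact nonneg_of_mul_nonneg_left h h0_pos

end Pool.Agent.Strip051.G.I5000_5470.Tab.SH
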