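import Pool.Agent.Strip051.G.I5000_5470.St1
import Pool.Agent.Strip051.G.I5000_5470.St2
import Pool.Agent.Strip051.G.I5000_5470.St3
import Pool.Agent.Strip051.G.I5000_5470.St4
import Pool.Agent.Strip051.G.I5000_5470.St5
import Pool.Agent.Strip051.G.I5000_5470.StH
import Pool.Agent.Strip051.G.I5000_5470.StF

/-! # Unit strips 6 (generated) -/

set_option linter.all false
set_option maxRecDepth 100000

namespace Pool.Agent.Strip051.G.I5000_5470.Tab.St.C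

open Pool.Agent.Strip051.PB Pool.Agent.Strip051.PB.T Pool.Agent.StripNear Pool.Agent.Strip051.LC
open Pool.Agent.Strip051.G.I5000_5470.Tab Pool.Agent.Strip051.G.I5000_5470.Tab.St

theorem t479_A00pm_012_s1 : ∃ t, chk3 f_A00pm_012_s1 t 7 6 1 = true := ex3_b k476_A00pm_012_s1 k477_A00pm_012_s1

theorem t480_A00pm_012_s1 : ∃ t, chk3 f_A00pm_012_s1 t 3 6 1 = true := ex3_a k475_A00pm_012_s1 t479_A00pm_012_s1

theorem t481_A00pm_012_s1 : ∃ t, chk3 f_A00pm_012_s1 t 3 3 1 = true := ex3_b t480_A00pm_012_s1 k478_A00pm_012_s1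

theorem t482_A00pm_012_s1 : ∃ t, chk3 f_A00pm_012_s1 t 7 11 1 = true := ex3_a k473_A00pm_012_s1 k474_A00pm_012_s1

theorem t483_A00pm_012_s1 : ∃ t, chk3 f_A00pm_012_s1 t 13 11 1 = true := ex3_b k471_A00pm_012_s1 k472_A00pm_012_s1

theorem t484_A00pm_012_s1 : ∃ t, chk3 f_A00pm_012_s1 t 6 11 1 = true := ex3_a k470_A00pm_012_s1 t483_A00pm_012_s1

theorem t485_A00pm_012_s1 : ∃ t, chk3 f_A00pm_012_s1 t 3 11 1 = true := ex3_a t484_A00pm_012_s1 t482_A00pm_012_s1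

theorem t486_A00pm_012_s1 : ∃ t, chk3 f_A00pm_012_s1 t 15 42 1 = true := ex3_a k467_A00pm_012_s1 k468_A00pm_012_s1

theorem t487_A00pm_012_s1 : ∃ t, chk3 f_A00pm_012_s1 t 15 21 1 = true := ex3_b t486_A00pm_012_s1 k469_A00pm_012_s1

theorem t488_A00pm_012_s1 : ∃ t, chk3 f_A00pm_012_s1 t 14 21 1 = true := ex3_a k465_A00pm_012_s1 k466_A00pm_012_s1

theorem t489_A00pm_012_s1 : ∃ t, chk3 f_A00pm_012_s1 t 7 21 1 = true := ex3_a t488_A00pm_012_s1 t487_A00pm_012_s1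

theorem t490_A00pm_012_s1 : ∃ t, chk3 f_A00pm_012_s1 t 15 2682 1 = true := ex3_b k461_A00pm_012_s1 k462_A00pm_012_s1

theorem t491_A00pm_012_s1 : ∃ t, chk3 f_A00pm_012_s1 t 15 1341 1 = true := ex3_b t490_A00pm_012_s1 k463_A00pm_012_s1

theorem t492_A00pm_012_s1 : ∃ t, chk3 f_A00pm_012_s1 t 15 10726 1 = true := ex3_b k458_A00pm_012_s1 k459_A00pm_012_s1

theorem t493_A00pm_012_s1 : ∃ t, chk3 f_A00pm_012_s1 t 15 5363 1 = true := ex3_b t492_A00pm_012_s1 k460_A00pm_012_s1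

theorem t494_A00pm_012_s1 : ∃ t, chk3 f_A00pm_012_s1 t 31 5362 1 = true := ex3_b k456_A00pm_012_s1 k457_A00pm_012_s1

theorem t495_A00pm_012_s1 : ∃ t, chk3 f_A00pm_012_s1 t 15 5362 1 = true := ex3_a k455_A00pm_012_s1 t494_A00pm_012_s1

theorem t496_A00pm_012_s1 : ∃ t, chk3 f_A00pm_012_s1 t 15 2681 1 = true := ex3_b t495_A00pm_012_s1 t493_A00pm_012_s1

theorem t497_A00pm_012_s1 : ∃ t, chk3 f_A00pm_012_s1 t 31 2680 1 = true := ex3_c k453_A00pm_012_s1 k454_A00pm_012_s1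

theorem t498_A00pm_012_s1 : ∃ t, chk3 f_A00pm_012_s1 t 15 2680 1 = true := ex3_a k452_A00pm_012_s1 t497_A00pm_012_s1

theorem t499_A00pm_012_s1 : ∃ t, chk3 f_A00pm_012_s1 t 15 1340 1 = true := ex3_b t498_A00pm_012_s1 t496_A00pm_012_s1

theorem t500_A00pm_012_s1 : ∃ t, chk3 f_A00pm_012_s1 t 15 670 1 = true := ex3_b t499_A00pm_012_s1 t491_A00pm_012_s1

theorem t501_A00pm_012_s1 : ∃ t, chk3 f_A00pm_012_s1 t 15 335 1 = true := ex3_b t500_A00pm_012_s1 k464_A00pm_012_s1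

theorem t502_A00pm_012_s1 : ∃ t, chk3 f_A00pm_012_s1 t 63 669 1 = true := ex3_a k450_A00pm_012_s1 k451_A00pm_012_s1

theorem t503_A00pm_012_s1 : ∃ t, chk3 f_A00pm_012_s1 t 62 1339 1 = true := ex3_a k448_A00pm_012_s1 k449_A00pm_012_s1

theorem t504_A00pm_012_s1 : ∃ t, chk3 f_A00pm_012_s1 t 62 1338 1 = true := ex3_a k446_A00pm_012_s1 k447_A00pm_012_s1

theorem t505_A00pm_012_s1 : ∃ t, chk3 f_A00pm_012_s1 t 62 669 1 = true := ex3_b t504_A00pm_012_s1 t503_A00pm_012_s1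

theorem t506_A00pm_012_s1 : ∃ t, chk3 f_A00pm_012_s1 t 31 669 1 = true := ex3_a t505_A00pm_012_s1 t502_A00pm_012_s1

theorem t507_A00pm_012_s1 : ∃ t, chk3 f_A00pm_012_s1 t 62 668 3 = true := ex3_a k443_A00pm_012_s1 k444_A00pm_012_s1

theorem t508_A00pm_012_s1 : ∃ t, chk3 f_A00pm_012_s1 t 31 668 3 = true := ex3_a t507_A00pm_012_s1 k445_A00pm_012_s1

theorem t509_A00pm_012_s1 : ∃ t, chk3 f_A00pm_012_s1 t 124 668 2 = true := ex3_a k439_A00pm_012_s1 k440_A00pm_012_s1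

theorem t510_A00pm_012_s1 : ∃ t, chk3 f_A00pm_012_s1 t 62 668 2 = true := ex3_a t509_A00pm_012_s1 k441_A00pm_012_s1

theorem t511_A00pm_012_s1 : ∃ t, chk3 f_A00pm_012_s1 t 31 668 2 = true := ex3_a t510_A00pm_012_s1 k442_A00pm_012_s1

theorem t512_A00pm_012_s1 : ∃ t, chk3 f_A00pm_012_s1 t 31 668 1 = true := ex3_c t511_A00pm_012_s1 t508_A00pm_012_s1

theorem t513_A00pm_012_s1 : ∃ t, chk3 f_A00pm_012_s1 t 31 334 1 = true := ex3_b t512_A00pm_012_s1 t506_A00pm_012_s1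

theorem t514_A00pm_012_s1 : ∃ t, chk3 f_A00pm_012_s1 t 244 669 7 = true := ex3_c k435_A00pm_012_s1 k436_A00pm_012_s1

theorem t515_A00pm_012_s1 : ∃ t, chk3 f_A00pm_012_s1 t 122 669 7 = true := ex3_a t514_A00pm_012_s1 k437_A00pm_012_s1

theorem t516_A00pm_012_s1 : ∃ t, chk3 f_A00pm_012_s1 t 122 669 3 = true := ex3_c k434_A00pm_012_s1 t515_A00pm_012_s1

theorem t517_A00pm_012_s1 : ∃ t, chk3 f_A00pm_012_s1 t 61 669 3 = true := ex3_a t516_A00pm_012_s1 k438_A00pm_012_s1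

theorem t518_A00pm_012_s1 : ∃ t, chk3 f_A00pm_012_s1 t 30 669 3 = true := ex3_a k433_A00pm_012_s1 t517_A00pm_012_s1

theorem t519_A00pm_012_s1 : ∃ t, chk3 f_A00pm_012_s1 t 61 669 2 = true := ex3_a k431_A00pm_012_s1 k432_A00pm_012_s1

theorem t520_A00pm_012_s1 : ∃ t, chk3 f_A00pm_012_s1 t 30 669 2 = true := ex3_a k430_A00pm_012_s1 t519_A00pm_012_s1

theorem t521_A00pm_012_s1 : ∃ t, chk3 f_A00pm_012_s1 t 30 669 1 = true := ex3_c t520_A00pm_012_s1 t518_A00pm_012_s1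

theorem t522_A00pm_012_s1 : ∃ t, chk3 f_A00pm_012_s1 t 61 668 3 = true := ex3_a k428_A00pm_012_s1 k429_A00pm_012_s1

theorem t523_A00pm_012_s1 : ∃ t, chk3 f_A00pm_012_s1 t 30 668 3 = true := ex3_a k427_A00pm_012_s1 t522_A00pm_012_s1

theorem t524_A00pm_012_s1 : ∃ t, chk3 f_A00pm_012_s1 t 123 668 2 = true := ex3_c k425_A00pm_012_s1 k426_A00pm_012_s1

theorem t525_A00pm_012_s1 : ∃ t, chk3 f_A00pm_012_s1 t 61 668 2 = true := ex3_a k424_A00pm_012_s1 t524_A00pm_012_s1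

theorem t526_A00pm_012_s1 : ∃ t, chk3 f_A00pm_012_s1 t 30 668 2 = true := ex3_a k423_A00pm_012_s1 t525_A00pm_012_s1

theorem t527_A00pm_012_s1 : ∃ t, chk3 f_A00pm_012_s1 t 30 668 1 = true := ex3_c t526_A00pm_012_s1 t523_A00pm_012_s1

theorem t528_A00pm_012_s1 : ∃ t, chk3 f_A00pm_012_s1 t 30 334 1 = true := ex3_b t527_A00pm_012_s1 t521_A00pm_012_s1

theorem t529_A00pm_012_s1 : ∃ t, chk3 f_A00pm_012_s1 t 15 334 1 = true := ex3_a t528_A00pm_012_s1 t513_A00pm_012_s1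

theorem t530_A00pm_012_s1 : ∃ t, chk3 f_A00pm_012_s1 t 15 167 1 = true := ex3_b t529_A00pm_012_s1 t501_A00pm_012_s1

theorem t531_A00pm_012_s1 : ∃ t, chk3 f_A00pm_012_s1 t 14 1341 1 = true := ex3_b k420_A00pm_012_s1 k421_A00pm_012_s1

theorem t532_A00pm_012_s1 : ∃ t, chk3 f_A00pm_012_s1 t 14 10726 1 = true := ex3_b k417_A00pm_012_s1 k418_A00pm_012_s1

theorem t533_A00pm_012_s1 : ∃ t, chk3 f_A00pm_012_s1 t 14 5363 1 = true := ex3_b t532_A00pm_012_s1 k419_A00pm_012_s1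

theorem t534_A00pm_012_s1 : ∃ t, chk3 f_A00pm_012_s1 t 14 2681 1 = true := ex3_b k416_A00pm_012_s1 t533_A00pm_012_s1

theorem t535_A00pm_012_s1 : ∃ t, chk3 f_A00pm_012_s1 t 14 1340 1 = true := ex3_b k415_A00pm_012_s1 t534_A00pm_012_s1

theorem t536_A00pm_012_s1 : ∃ t, chk3 f_A00pm_012_s1 t 14 670 1 = true := ex3_b t535_A00pm_012_s1 t531_A00pm_012_s1

theorem t537_A00pm_012_s1 : ∃ t, chk3 f_A00pm_012_s1 t 14 335 1 = true := ex3_b t536_A00pm_012_s1 k422_A00pm_012_s1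

theorem t538_A00pm_012_s1 : ∃ t, chk3 f_A00pm_012_s1 t 59 668 1 = true := ex3_a k412_A00pm_012_s1 k413_A00pm_012_s1

theorem t539_A00pm_012_s1 : ∃ t, chk3 f_A00pm_012_s1 t 29 668 1 = true := ex3_a k411_A00pm_012_s1 t538_A00pm_012_s1

theorem t540_A00pm_012_s1 : ∃ t, chk3 f_A00pm_012_s1 t 29 334 1 = true := ex3_b t539_A00pm_012_s1 k414_A00pm_012_s1

theorem t541_A00pm_012_s1 : ∃ t, chk3 f_A00pm_012_s1 t 14 334 1 = true := ex3_a k410_A00pm_012_s1 t540_A00pm_012_s1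

theorem t542_A00pm_012_s1 : ∃ t, chk3 f_A00pm_012_s1 t 14 167 1 = true := ex3_b t541_A00pm_012_s1 t537_A00pm_012_s1

theorem t543_A00pm_012_s1 : ∃ t, chk3 f_A00pm_012_s1 t 7 167 1 = true := ex3_a t542_A00pm_012_s1 t530_A00pm_012_s1

theorem t544_A00pm_012_s1 : ∃ t, chk3 f_A00pm_012_s1 t 62 333 1 = true := ex3_b k407_A00pm_012_s1 k408_A00pm_012_s1

theorem t545_A00pm_012_s1 : ∃ t, chk3 f_A00pm_012_s1 t 31 333 1 = true := ex3_a t544_A00pm_012_s1 k409_A00pm_012_s1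

theorem t546_A00pm_012_s1 : ∃ t, chk3 f_A00pm_012_s1 t 61 333 3 = true := ex3_c k405_A00pm_012_s1 k406_A00pm_012_s1

theorem t547_A00pm_012_s1 : ∃ t, chk3 f_A00pm_012_s1 t 61 333 2 = true := ex3_c k403_A00pm_012_s1 k404_A00pm_012_s1

theorem t548_A00pm_012_s1 : ∃ t, chk3 f_A00pm_012_s1 t 61 333 1 = true := ex3_c t547_A00pm_012_s1 t546_A00pm_012_s1

theorem t549_A00pm_012_s1 : ∃ t, chk3 f_A00pm_012_s1 t 60 667 1 = true := ex3_a k401_A00pm_012_s1 k402_A00pm_012_s1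

theorem t550_A00pm_012_s1 : ∃ t, chk3 f_A00pm_012_s1 t 60 666 1 = true := ex3_a k399_A00pm_012_s1 k400_A00pm_012_s1

theorem t551_A00pm_012_s1 : ∃ t, chk3 f_A00pm_012_s1 t 60 333 1 = true := ex3_b t550_A00pm_012_s1 t549_A00pm_012_s1

theorem t552_A00pm_012_s1 : ∃ t, chk3 f_A00pm_012_s1 t 30 333 1 = true := ex3_a t551_A00pm_012_s1 t548_A00pm_012_s1

theorem t553_A00pm_012_s1 : ∃ t, chk3 f_A00pm_012_s1 t 15 333 1 = true := ex3_a t552_A00pm_012_s1 t545_A00pm_012_s1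

theorem t554_A00pm_012_s1 : ∃ t, chk3 f_A00pm_012_s1 t 124 664 1 = true := ex3_c k394_A00pm_012_s1 k395_A00pm_012_s1

theorem t555_A00pm_012_s1 : ∃ t, chk3 f_A00pm_012_s1 t 62 664 1 = true := ex3_a t554_A00pm_012_s1 k396_A00pm_012_s1

theorem t556_A00pm_012_s1 : ∃ t, chk3 f_A00pm_012_s1 t 62 332 1 = true := ex3_b t555_A00pm_012_s1 k397_A00pm_012_s1

theorem t557_A00pm_012_s1 : ∃ t, chk3 f_A00pm_012_s1 t 31 332 1 = true := ex3_a t556_A00pm_012_s1 k398_A00pm_012_s1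

theorem t558_A00pm_012_s1 : ∃ t, chk3 f_A00pm_012_s1 t 60 332 1 = true := ex3_c k391_A00pm_012_s1 k392_A00pm_012_s1

theorem t559_A00pm_012_s1 : ∃ t, chk3 f_A00pm_012_s1 t 30 332 1 = true := ex3_a t558_A00pm_012_s1 k393_A00pm_012_s1

theorem t560_A00pm_012_s1 : ∃ t, chk3 f_A00pm_012_s1 t 15 332 1 = true := ex3_a t559_A00pm_012_s1 t557_A00pm_012_s1

theorem t561_A00pm_012_s1 : ∃ t, chk3 f_A00pm_012_s1 t 15 166 1 = true := ex3_b t560_A00pm_012_s1 t553_A00pm_012_s1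

theorem t562_A00pm_012_s1 : ∃ t, chk3 f_A00pm_012_s1 t 59 667 1 = true := ex3_a k389_A00pm_012_s1 k390_A00pm_012_s1

theorem t563_A00pm_012_s1 : ∃ t, chk3 f_A00pm_012_s1 t 59 333 1 = true := ex3_b k388_A00pm_012_s1 t562_A00pm_012_s1

theorem t564_A00pm_012_s1 : ∃ t, chk3 f_A00pm_012_s1 t 58 333 1 = true := ex3_a k386_A00pm_012_s1 k387_A00pm_012_s1

theorem t565_A00pm_012_s1 : ∃ t, chk3 f_A00pm_012_s1 t 29 333 1 = true := ex3_a t564_A00pm_012_s1 t563_A00pm_012_s1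

theorem t566_A00pm_012_s1 : ∃ t, chk3 f_A00pm_012_s1 t 59 332 3 = true := ex3_b k384_A00pm_012_s1 k385_A00pm_012_s1

theorem t567_A00pm_012_s1 : ∃ t, chk3 f_A00pm_012_s1 t 29 332 3 = true := ex3_a k383_A00pm_012_s1 t566_A00pm_012_s1

theorem t568_A00pm_012_s1 : ∃ t, chk3 f_A00pm_012_s1 t 59 664 2 = true := ex3_a k380_A00pm_012_s1 k381_A00pm_012_s1

theorem t569_A00pm_012_s1 : ∃ t, chk3 f_A00pm_012_s1 t 29 664 2 = true := ex3_a k379_A00pm_012_s1 t568_A00pm_012_s1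

theorem t570_A00pm_012_s1 : ∃ t, chk3 f_A00pm_012_s1 t 29 332 2 = true := ex3_b t569_A00pm_012_s1 k382_A00pm_012_s1

theorem t571_A00pm_012_s1 : ∃ t, chk3 f_A00pm_012_s1 t 29 332 1 = true := ex3_c t570_A00pm_012_s1 t567_A00pm_012_s1

theorem t572_A00pm_012_s1 : ∃ t, chk3 f_A00pm_012_s1 t 29 166 1 = true := ex3_b t571_A00pm_012_s1 t565_A00pm_012_s1

theorem t573_A00pm_012_s1 : ∃ t, chk3 f_A00pm_012_s1 t 57 332 1 = true := ex3_a k376_A00pm_012_s1 k377_A00pm_012_s1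

theorem t574_A00pm_012_s1 : ∃ t, chk3 f_A00pm_012_s1 t 28 332 1 = true := ex3_a k375_A00pm_012_s1 t573_A00pm_012_s1

theorem t575_A00pm_012_s1 : ∃ t, chk3 f_A00pm_012_s1 t 28 166 1 = true := ex3_b t574_A00pm_012_s1 k378_A00pm_012_s1

theorem t576_A00pm_012_s1 : ∃ t, chk3 f_A00pm_012_s1 t 14 166 1 = true := ex3_a t575_A00pm_012_s1 t572_A00pm_012_s1

theorem t577_A00pm_012_s1 : ∃ t, chk3 f_A00pm_012_s1 t 7 166 1 = true := ex3_a t576_A00pm_012_s1 t561_A00pm_012_s1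

theorem t578_A00pm_012_s1 : ∃ t, chk3 f_A00pm_012_s1 t 7 83 1 = true := ex3_b t577_A00pm_012_s1 t543_A00pm_012_s1

theorem t579_A00pm_012_s1 : ∃ t, chk3 f_A00pm_012_s1 t 30 331 1 = true := ex3_a k372_A00pm_012_s1 k373_A00pm_012_s1

theorem t580_A00pm_012_s1 : ∃ t, chk3 f_A00pm_012_s1 t 60 330 3 = true := ex3_b k369_A00pm_012_s1 k370_A00pm_012_s1

theorem t581_A00pm_012_s1 : ∃ t, chk3 f_A00pm_012_s1 t 60 330 1 = true := ex3_c k368_A00pm_012_s1 t580_A00pm_012_s1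

theorem t582_A00pm_012_s1 : ∃ t, chk3 f_A00pm_012_s1 t 30 330 1 = true := ex3_a t581_A00pm_012_s1 k371_A00pm_012_s1

theorem t583_A00pm_012_s1 : ∃ t, chk3 f_A00pm_012_s1 t 30 165 1 = true := ex3_b t582_A00pm_012_s1 t579_A00pm_012_s1

theorem t584_A00pm_012_s1 : ∃ t, chk3 f_A00pm_012_s1 t 15 165 1 = true := ex3_a t583_A00pm_012_s1 k374_A00pm_012_s1

theorem t585_A00pm_012_s1 : ∃ t, chk3 f_A00pm_012_s1 t 118 331 1 = true := ex3_c k365_A00pm_012_s1 k366_A00pm_012_s1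

theorem t586_A00pm_012_s1 : ∃ t, chk3 f_A00pm_012_s1 t 59 331 1 = true := ex3_a t585_A00pm_012_s1 k367_A00pm_012_s1

theorem t587_A00pm_012_s1 : ∃ t, chk3 f_A00pm_012_s1 t 59 165 1 = true := ex3_b k364_A00pm_012_s1 t586_A00pm_012_s1

theorem t588_A00pm_012_s1 : ∃ t, chk3 f_A00pm_012_s1 t 117 331 1 = true := ex3_b k362_A00pm_012_s1 k363_A00pm_012_s1

theorem t589_A00pm_012_s1 : ∃ t, chk3 f_A00pm_012_s1 t 58 331 1 = true := ex3_a k361_A00pm_012_s1 t588_A00pm_012_s1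

theorem t590_A00pm_012_s1 : ∃ t, chk3 f_A00pm_012_s1 t 58 165 1 = true := ex3_b k360_A00pm_012_s1 t589_A00pm_012_s1

theorem t591_A00pm_012_s1 : ∃ t, chk3 f_A00pm_012_s1 t 29 165 1 = true := ex3_a t590_A00pm_012_s1 t587_A00pm_012_s1

theorem t592_A00pm_012_s1 : ∃ t, chk3 f_A00pm_012_s1 t 57 165 1 = true := ex3_b k358_A00pm_012_s1 k359_A00pm_012_s1

theorem t593_A00pm_012_s1 : ∃ t, chk3 f_A00pm_012_s1 t 56 331 1 = true := ex3_a k356_A00pm_012_s1 k357_A00pm_012_s1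

theorem t594_A00pm_012_s1 : ∃ t, chk3 f_A00pm_012_s1 t 56 165 1 = true := ex3_b k355_A00pm_012_s1 t593_A00pm_012_s1

theorem t595_A00pm_012_s1 : ∃ t, chk3 f_A00pm_012_s1 t 28 165 1 = true := ex3_a t594_A00pm_012_s1 t592_A00pm_012_s1

theorem t596_A00pm_012_s1 : ∃ t, chk3 f_A00pm_012_s1 t 14 165 1 = true := ex3_a t595_A00pm_012_s1 t591_A00pm_012_s1

theorem t597_A00pm_012_s1 : ∃ t, chk3 f_A00pm_012_s1 t 7 165 1 = true := ex3_a t596_A00pm_012_s1 t584_A00pm_012_s1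

theorem t598_A00pm_012_s1 : ∃ t, chk3 f_A00pm_012_s1 t 29 164 1 = true := ex3_b k352_A00pm_012_s1 k353_A00pm_012_s1

theorem t599_A00pm_012_s1 : ∃ t, chk3 f_A00pm_012_s1 t 56 328 1 = true := ex3_a k348_A00pm_012_s1 k349_A00pm_012_s1

theorem t600_A00pm_012_s1 : ∃ t, chk3 f_A00pm_012_s1 t 56 164 1 = true := ex3_b t599_A00pm_012_s1 k350_A00pm_012_s1

theorem t601_A00pm_012_s1 : ∃ t, chk3 f_A00pm_012_s1 t 28 164 1 = true := ex3_a t600_A00pm_012_s1 k351_A00pm_012_s1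

theorem t602_A00pm_012_s1 : ∃ t, chk3 f_A00pm_012_s1 t 14 164 1 = true := ex3_a t601_A00pm_012_s1 t598_A00pm_012_s1

theorem t603_A00pm_012_s1 : ∃ t, chk3 f_A00pm_012_s1 t 7 164 1 = true := ex3_a t602_A00pm_012_s1 k354_A00pm_012_s1

theorem t604_A00pm_012_s1 : ∃ t, chk3 f_A00pm_012_s1 t 7 82 1 = true := ex3_b t603_A00pm_012_s1 t597_A00pm_012_s1

theorem t605_A00pm_012_s1 : ∃ t, chk3 f_A00pm_012_s1 t 7 41 1 = true := ex3_b t604_A00pm_012_s1 t578_A00pm_012_s1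

theorem t606_A00pm_012_s1 : ∃ t, chk3 f_A00pm_012_s1 t 14 163 3 = true := ex3_a k345_A00pm_012_s1 k346_A00pm_012_s1

theorem t607_A00pm_012_s1 : ∃ t, chk3 f_A00pm_012_s1 t 14 81 3 = true := ex3_b k344_A00pm_012_s1 t606_A00pm_012_s1

theorem t608_A00pm_012_s1 : ∃ t, chk3 f_A00pm_012_s1 t 7 81 3 = true := ex3_a t607_A00pm_012_s1 k347_A00pm_012_s1

theorem t609_A00pm_012_s1 : ∃ t, chk3 f_A00pm_012_s1 t 14 163 2 = true := ex3_a k341_A00pm_012_s1 k342_A00pm_012_s1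

theorem t610_A00pm_012_s1 : ∃ t, chk3 f_A00pm_012_s1 t 14 81 2 = true := ex3_b k340_A00pm_012_s1 t609_A00pm_012_s1

theorem t611_A00pm_012_s1 : ∃ t, chk3 f_A00pm_012_s1 t 7 81 2 = true := ex3_a t610_A00pm_012_s1 k343_A00pm_012_s1

theorem t612_A00pm_012_s1 : ∃ t, chk3 f_A00pm_012_s1 t 7 81 1 = true := ex3_c t611_A00pm_012_s1 t608_A00pm_012_s1

theorem t613_A00pm_012_s1 : ∃ t, chk3 f_A00pm_012_s1 t 7 40 1 = true := ex3_b k339_A00pm_012_s1 t612_A00pm_012_s1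

theorem t614_A00pm_012_s1 : ∃ t, chk3 f_A00pm_012_s1 t 7 20 1 = true := ex3_b t613_A00pm_012_s1 t605_A00pm_012_s1

theorem t615_A00pm_012_s1 : ∃ t, chk3 f_A00pm_012_s1 t 7 10 1 = true := ex3_b t614_A00pm_012_s1 t489_A00pm_012_s1

theorem t616_A00pm_012_s1 : ∃ t, chk3 f_A00pm_012_s1 t 26 21 1 = true := ex3_b k336_A00pm_012_s1 k337_A00pm_012_s1

theorem t617_A00pm_012_s1 : ∃ t, chk3 f_A00pm_012_s1 t 13 21 1 = true := ex3_a t616_A00pm_012_s1 k338_A00pm_012_s1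

theorem t618_A00pm_012_s1 : ∃ t, chk3 f_A00pm_012_s1 t 6 21 1 = true := ex3_a k335_A00pm_012_s1 t617_A00pm_012_s1

theorem t619_A00pm_012_s1 : ∃ t, chk3 f_A00pm_012_s1 t 27 167 3 = true := ex3_b k333_A00pm_012_s1 k334_A00pm_012_s1

theorem t620_A00pm_012_s1 : ∃ t, chk3 f_A00pm_012_s1 t 27 167 2 = true := ex3_b k331_A00pm_012_s1 k332_A00pm_012_s1

theorem t621_A00pm_012_s1 : ∃ t, chk3 f_A00pm_012_s1 t 27 167 1 = true := ex3_c t620_A00pm_012_s1 t619_A00pm_012_s1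

theorem t622_A00pm_012_s1 : ∃ t, chk3 f_A00pm_012_s1 t 26 1340 1 = true := ex3_b k327_A00pm_012_s1 k328_A00pm_012_s1

theorem t623_A00pm_012_s1 : ∃ t, chk3 f_A00pm_012_s1 t 26 670 1 = true := ex3_b t622_A00pm_012_s1 k329_A00pm_012_s1

theorem t624_A00pm_012_s1 : ∃ t, chk3 f_A00pm_012_s1 t 26 335 1 = true := ex3_b t623_A00pm_012_s1 k330_A00pm_012_s1

theorem t625_A00pm_012_s1 : ∃ t, chk3 f_A00pm_012_s1 t 26 167 1 = true := ex3_b k326_A00pm_012_s1 t624_A00pm_012_s1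

theorem t626_A00pm_012_s1 : ∃ t, chk3 f_A00pm_012_s1 t 13 167 1 = true := ex3_a t625_A00pm_012_s1 t621_A00pm_012_s1

theorem t627_A00pm_012_s1 : ∃ t, chk3 f_A00pm_012_s1 t 53 166 1 = true := ex3_b k323_A00pm_012_s1 k324_A00pm_012_s1

theorem t628_A00pm_012_s1 : ∃ t, chk3 f_A00pm_012_s1 t 26 166 1 = true := ex3_a k322_A00pm_012_s1 t627_A00pm_012_s1

theorem t629_A00pm_012_s1 : ∃ t, chk3 f_A00pm_012_s1 t 13 166 1 = true := ex3_a t628_A00pm_012_s1 k325_A00pm_012_s1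

theorem t630_A00pm_012_s1 : ∃ t, chk3 f_A00pm_012_s1 t 13 83 1 = true := ex3_b t629_A00pm_012_s1 t626_A00pm_012_s1

theorem t631_A00pm_012_s1 : ∃ t, chk3 f_A00pm_012_s1 t 12 670 1 = true := ex3_b k319_A00pm_012_s1 k320_A00pm_012_s1

theorem t632_A00pm_012_s1 : ∃ t, chk3 f_A00pm_012_s1 t 12 335 1 = true := ex3_b t631_A00pm_012_s1 k321_A00pm_012_s1

theorem t633_A00pm_012_s1 : ∃ t, chk3 f_A00pm_012_s1 t 12 167 1 = true := ex3_b k318_A00pm_012_s1 t632_A00pm_012_s1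

theorem t634_A00pm_012_s1 : ∃ t, chk3 f_A00pm_012_s1 t 12 83 1 = true := ex3_b k317_A00pm_012_s1 t633_A00pm_012_s1

theorem t635_A00pm_012_s1 : ∃ t, chk3 f_A00pm_012_s1 t 6 83 1 = true := ex3_a t634_A00pm_012_s1 t630_A00pm_012_s1

theorem t636_A00pm_012_s1 : ∃ t, chk3 f_A00pm_012_s1 t 55 330 1 = true := ex3_a k314_A00pm_012_s1 k315_A00pm_012_s1

theorem t637_A00pm_012_s1 : ∃ t, chk3 f_A00pm_012_s1 t 55 165 1 = true := ex3_b t636_A00pm_012_s1 k316_A00pm_012_s1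

theorem t638_A00pm_012_s1 : ∃ t, chk3 f_A00pm_012_s1 t 27 165 1 = true := ex3_a k313_A00pm_012_s1 t637_A00pm_012_s1

theorem t639_A00pm_012_s1 : ∃ t, chk3 f_A00pm_012_s1 t 27 164 1 = true := ex3_a k311_A00pm_012_s1 k312_A00pm_012_s1

theorem t640_A00pm_012_s1 : ∃ t, chk3 f_A00pm_012_s1 t 27 82 1 = true := ex3_b t639_A00pm_012_s1 t638_A00pm_012_s1

theorem t641_A00pm_012_s1 : ∃ t, chk3 f_A00pm_012_s1 t 52 165 1 = true := ex3_c k308_A00pm_012_s1 k309_A00pm_012_s1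

theorem t642_A00pm_012_s1 : ∃ t, chk3 f_A00pm_012_s1 t 26 165 1 = true := ex3_a t641_A00pm_012_s1 k310_A00pm_012_s1

theorem t643_A00pm_012_s1 : ∃ t, chk3 f_A00pm_012_s1 t 26 82 1 = true := ex3_b k307_A00pm_012_s1 t642_A00pm_012_s1

theorem t644_A00pm_012_s1 : ∃ t, chk3 f_A00pm_012_s1 t 13 82 1 = true := ex3_a t643_A00pm_012_s1 t640_A00pm_012_s1

theorem t645_A00pm_012_s1 : ∃ t, chk3 f_A00pm_012_s1 t 25 164 1 = true := ex3_a k304_A00pm_012_s1 k305_A00pm_012_s1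

theorem t646_A00pm_012_s1 : ∃ t, chk3 f_A00pm_012_s1 t 25 82 1 = true := ex3_b t645_A00pm_012_s1 k306_A00pm_012_s1

theorem t647_A00pm_012_s1 : ∃ t, chk3 f_A00pm_012_s1 t 24 82 1 = true := ex3_a k302_A00pm_012_s1 k303_A00pm_012_s1

theorem t648_A00pm_012_s1 : ∃ t, chk3 f_A00pm_012_s1 t 12 82 1 = true := ex3_a t647_A00pm_012_s1 t646_A00pm_012_s1

theorem t649_A00pm_012_s1 : ∃ t, chk3 f_A00pm_012_s1 t 6 82 1 = true := ex3_a t648_A00pm_012_s1 t644_A00pm_012_s1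

theorem t650_A00pm_012_s1 : ∃ t, chk3 f_A00pm_012_s1 t 6 41 1 = true := ex3_b t649_A00pm_012_s1 t635_A00pm_012_s1

theorem t651_A00pm_012_s1 : ∃ t, chk3 f_A00pm_012_s1 t 27 81 1 = true := ex3_b k300_A00pm_012_s1 k301_A00pm_012_s1

theorem t652_A00pm_012_s1 : ∃ t, chk3 f_A00pm_012_s1 t 53 81 1 = true := ex3_b k298_A00pm_012_s1 k299_A00pm_012_s1

theorem t653_A00pm_012_s1 : ∃ t, chk3 f_A00pm_012_s1 t 26 81 1 = true := ex3_a k297_A00pm_012_s1 t652_A00pm_012_s1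

theorem t654_A00pm_012_s1 : ∃ t, chk3 f_A00pm_012_s1 t 13 81 1 = true := ex3_a t653_A00pm_012_s1 t651_A00pm_012_s1

theorem t655_A00pm_012_s1 : ∃ t, chk3 f_A00pm_012_s1 t 27 80 1 = true := ex3_b k295_A00pm_012_s1 k296_A00pm_012_s1

theorem t656_A00pm_012_s1 : ∃ t, chk3 f_A00pm_012_s1 t 53 323 1 = true := ex3_a k293_A00pm_012_s1 k294_A00pm_012_s1

theorem t657_A00pm_012_s1 : ∃ t, chk3 f_A00pm_012_s1 t 53 161 1 = true := ex3_b k292_A00pm_012_s1 t656_A00pm_012_s1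

theorem t658_A00pm_012_s1 : ∃ t, chk3 f_A00pm_012_s1 t 26 161 1 = true := ex3_a k291_A00pm_012_s1 t657_A00pm_012_s1

theorem t659_A00pm_012_s1 : ∃ t, chk3 f_A00pm_012_s1 t 26 80 1 = true := ex3_b k290_A00pm_012_s1 t658_A00pm_012_s1

theorem t660_A00pm_012_s1 : ∃ t, chk3 f_A00pm_012_s1 t 13 80 1 = true := ex3_a t659_A00pm_012_s1 t655_A00pm_012_s1

theorem t661_A00pm_012_s1 : ∃ t, chk3 f_A00pm_012_s1 t 13 40 1 = true := ex3_b t660_A00pm_012_s1 t654_A00pm_012_s1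

theorem t662_A00pm_012_s1 : ∃ t, chk3 f_A00pm_012_s1 t 25 163 1 = true := ex3_a k288_A00pm_012_s1 k289_A00pm_012_s1

theorem t663_A00pm_012_s1 : ∃ t, chk3 f_A00pm_012_s1 t 25 81 1 = true := ex3_b k287_A00pm_012_s1 t662_A00pm_012_s1

theorem t664_A00pm_012_s1 : ∃ t, chk3 f_A00pm_012_s1 t 25 80 1 = true := ex3_b k285_A00pm_012_s1 k286_A00pm_012_s1

theorem t665_A00pm_012_s1 : ∃ t, chk3 f_A00pm_012_s1 t 25 40 1 = true := ex3_b t664_A00pm_012_s1 t663_A00pm_012_s1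

theorem t666_A00pm_012_s1 : ∃ t, chk3 f_A00pm_012_s1 t 49 81 1 = true := ex3_b k283_A00pm_012_s1 k284_A00pm_012_s1

theorem t667_A00pm_012_s1 : ∃ t, chk3 f_A00pm_012_s1 t 24 81 1 = true := ex3_a k282_A00pm_012_s1 t666_A00pm_012_s1

theorem t668_A00pm_012_s1 : ∃ t, chk3 f_A00pm_012_s1 t 24 80 1 = true := ex3_a k280_A00pm_012_s1 k281_A00pm_012_s1

theorem t669_A00pm_012_s1 : ∃ t, chk3 f_A00pm_012_s1 t 24 40 1 = true := ex3_b t668_A00pm_012_s1 t667_A00pm_012_s1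

theorem t670_A00pm_012_s1 : ∃ t, chk3 f_A00pm_012_s1 t 12 40 1 = true := ex3_a t669_A00pm_012_s1 t665_A00pm_012_s1

theorem t671_A00pm_012_s1 : ∃ t, chk3 f_A00pm_012_s1 t 6 40 1 = true := ex3_a t670_A00pm_012_s1 t661_A00pm_012_s1

theorem t672_A00pm_012_s1 : ∃ t, chk3 f_A00pm_012_s1 t 6 20 1 = true := ex3_b t671_A00pm_012_s1 t650_A00pm_012_s1

theorem t673_A00pm_012_s1 : ∃ t, chk3 f_A00pm_012_s1 t 6 10 1 = true := ex3_b t672_A00pm_012_s1 t618_A00pm_012_s1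

theorem t674_A00pm_012_s1 : ∃ t, chk3 f_A00pm_012_s1 t 3 10 1 = true := ex3_a t673_A00pm_012_s1 t615_A00pm_012_s1

theorem t675_A00pm_012_s1 : ∃ t, chk3 f_A00pm_012_s1 t 3 5 1 = true := ex3_b t674_A00pm_012_s1 t485_A00pm_012_s1

theorem t676_A00pm_012_s1 : ∃ t, chk3 f_A00pm_012_s1 t 200 316 1 = true := ex3_b k271_A00pm_012_s1 k272_A00pm_012_s1

theorem t677_A00pm_012_s1 : ∃ t, chk3 f_A00pm_012_s1 t 100 316 1 = true := ex3_a t676_A00pm_012_s1 k273_A00pm_012_s1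

theorem t678_A00pm_012_s1 : ∃ t, chk3 f_A00pm_012_s1 t 100 158 1 = true := ex3_b t677_A00pm_012_s1 k274_A00pm_012_s1

theorem t679_A00pm_012_s1 : ∃ t, chk3 f_A00pm_012_s1 t 50 158 1 = true := ex3_a t678_A00pm_012_s1 k275_A00pm_012_s1

theorem t680_A00pm_012_s1 : ∃ t, chk3 f_A00pm_012_s1 t 50 79 1 = true := ex3_b t679_A00pm_012_s1 k276_A00pm_012_s1

theorem t681_A00pm_012_s1 : ∃ t, chk3 f_A00pm_012_s1 t 25 79 1 = true := ex3_a t680_A00pm_012_s1 k277_A00pm_012_s1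

theorem t682_A00pm_012_s1 : ∃ t, chk3 f_A00pm_012_s1 t 25 78 1 = true := ex3_a k269_A00pm_012_s1 k270_A00pm_012_s1

theorem t683_A00pm_012_s1 : ∃ t, chk3 f_A00pm_012_s1 t 25 39 1 = true := ex3_b t682_A00pm_012_s1 t681_A00pm_012_s1

theorem t684_A00pm_012_s1 : ∃ t, chk3 f_A00pm_012_s1 t 49 79 1 = true := ex3_b k267_A00pm_012_s1 k268_A00pm_012_s1

theorem t685_A00pm_012_s1 : ∃ t, chk3 f_A00pm_012_s1 t 24 79 1 = true := ex3_a k266_A00pm_012_s1 t684_A00pm_012_s1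

theorem t686_A00pm_012_s1 : ∃ t, chk3 f_A00pm_012_s1 t 99 315 1 = true := ex3_a k264_A00pm_012_s1 k265_A00pm_012_s1

theorem t687_A00pm_012_s1 : ∃ t, chk3 f_A00pm_012_s1 t 99 157 1 = true := ex3_b k263_A00pm_012_s1 t686_A00pm_012_s1

theorem t688_A00pm_012_s1 : ∃ t, chk3 f_A00pm_012_s1 t 98 157 1 = true := ex3_b k261_A00pm_012_s1 k262_A00pm_012_s1

theorem t689_A00pm_012_s1 : ∃ t, chk3 f_A00pm_012_s1 t 49 157 1 = true := ex3_a t688_A00pm_012_s1 t687_A00pm_012_s1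

theorem t690_A00pm_012_s1 : ∃ t, chk3 f_A00pm_012_s1 t 49 78 1 = true := ex3_b k260_A00pm_012_s1 t689_A00pm_012_s1

theorem t691_A00pm_012_s1 : ∃ t, chk3 f_A00pm_012_s1 t 97 156 1 = true := ex3_b k257_A00pm_012_s1 k258_A00pm_012_s1

theorem t692_A00pm_012_s1 : ∃ t, chk3 f_A00pm_012_s1 t 48 156 1 = true := ex3_a k256_A00pm_012_s1 t691_A00pm_012_s1

theorem t693_A00pm_012_s1 : ∃ t, chk3 f_A00pm_012_s1 t 48 78 1 = true := ex3_b t692_A00pm_012_s1 k259_A00pm_012_s1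

theorem t694_A00pm_012_s1 : ∃ t, chk3 f_A00pm_012_s1 t 24 78 1 = true := ex3_a t693_A00pm_012_s1 t690_A00pm_012_s1

theorem t695_A00pm_012_s1 : ∃ t, chk3 f_A00pm_012_s1 t 24 39 1 = true := ex3_b t694_A00pm_012_s1 t685_A00pm_012_s1

theorem t696_A00pm_012_s1 : ∃ t, chk3 f_A00pm_012_s1 t 12 39 1 = true := ex3_a t695_A00pm_012_s1 t683_A00pm_012_s1

theorem t697_A00pm_012_s1 : ∃ t, chk3 f_A00pm_012_s1 t 24 77 1 = true := ex3_a k253_A00pm_012_s1 k254_A00pm_012_s1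

theorem t698_A00pm_012_s1 : ∃ t, chk3 f_A00pm_012_s1 t 24 38 1 = true := ex3_b k252_A00pm_012_s1 t697_A00pm_012_s1

theorem t699_A00pm_012_s1 : ∃ t, chk3 f_A00pm_012_s1 t 12 38 1 = true := ex3_a t698_A00pm_012_s1 k255_A00pm_012_s1

theorem t700_A00pm_012_s1 : ∃ t, chk3 f_A00pm_012_s1 t 12 19 1 = true := ex3_b t699_A00pm_012_s1 t696_A00pm_012_s1

theorem t701_A00pm_012_s1 : ∃ t, chk3 f_A00pm_012_s1 t 12 9 1 = true := ex3_b k251_A00pm_012_s1 t700_A00pm_012_s1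

theorem t702_A00pm_012_s1 : ∃ t, chk3 f_A00pm_012_s1 t 6 9 1 = true := ex3_a t701_A00pm_012_s1 k278_A00pm_012_s1

theorem t703_A00pm_012_s1 : ∃ t, chk3 f_A00pm_012_s1 t 6 4 1 = true := ex3_b k250_A00pm_012_s1 t702_A00pm_012_s1

theorem t704_A00pm_012_s1 : ∃ t, chk3 f_A00pm_012_s1 t 3 4 1 = true := ex3_a t703_A00pm_012_s1 k279_A00pm_012_s1

theorem t705_A00pm_012_s1 : ∃ t, chk3 f_A00pm_012_s1 t 3 2 1 = true := ex3_b t704_A00pm_012_s1 t675_A00pm_012_s1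

theorem t706_A00pm_012_s1 : ∃ t, chk3 f_A00pm_012_s1 t 3 1 1 = true := ex3_b t705_A00pm_012_s1 t481_A00pm_012_s1

theorem t707_A00pm_012_s1 : ∃ t, chk3 f_A00pm_012_s1 t 11 21 1 = true := ex3_a k246_A00pm_012_s1 k247_A00pm_012_s1

theorem t708_A00pm_012_s1 : ∃ t, chk3 f_A00pm_012_s1 t 5 21 1 = true := ex3_a k245_A00pm_012_s1 t707_A00pm_012_s1

theorem t709_A00pm_012_s1 : ∃ t, chk3 f_A00pm_012_s1 t 11 1340 1 = true := ex3_b k241_A00pm_012_s1 k242_A00pm_012_s1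

theorem t710_A00pm_012_s1 : ∃ t, chk3 f_A00pm_012_s1 t 11 670 1 = true := ex3_b t709_A00pm_012_s1 k243_A00pm_012_s1

theorem t711_A00pm_012_s1 : ∃ t, chk3 f_A00pm_012_s1 t 11 335 1 = true := ex3_b t710_A00pm_012_s1 k244_A00pm_012_s1

theorem t712_A00pm_012_s1 : ∃ t, chk3 f_A00pm_012_s1 t 11 167 1 = true := ex3_b k240_A00pm_012_s1 t711_A00pm_012_s1

theorem t713_A00pm_012_s1 : ∃ t, chk3 f_A00pm_012_s1 t 11 83 1 = true := ex3_b k239_A00pm_012_s1 t712_A00pm_012_s1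

theorem t714_A00pm_012_s1 : ∃ t, chk3 f_A00pm_012_s1 t 11 82 1 = true := ex3_a k237_A00pm_012_s1 k238_A00pm_012_s1

theorem t715_A00pm_012_s1 : ∃ t, chk3 f_A00pm_012_s1 t 11 41 1 = true := ex3_b t714_A00pm_012_s1 t713_A00pm_012_s1

theorem t716_A00pm_012_s1 : ∃ t, chk3 f_A00pm_012_s1 t 10 83 1 = true := ex3_a k235_A00pm_012_s1 k236_A00pm_012_s1

theorem t717_A00pm_012_s1 : ∃ t, chk3 f_A00pm_012_s1 t 10 41 1 = true := ex3_b k234_A00pm_012_s1 t716_A00pm_012_s1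

theorem t718_A00pm_012_s1 : ∃ t, chk3 f_A00pm_012_s1 t 5 41 1 = true := ex3_a t717_A00pm_012_s1 t715_A00pm_012_s1

theorem t719_A00pm_012_s1 : ∃ t, chk3 f_A00pm_012_s1 t 23 40 1 = true := ex3_b k232_A00pm_012_s1 k233_A00pm_012_s1

theorem t720_A00pm_012_s1 : ∃ t, chk3 f_A00pm_012_s1 t 11 40 1 = true := ex3_a k231_A00pm_012_s1 t719_A00pm_012_s1

theorem t721_A00pm_012_s1 : ∃ t, chk3 f_A00pm_012_s1 t 5 40 1 = true := ex3_a k230_A00pm_012_s1 t720_A00pm_012_s1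

theorem t722_A00pm_012_s1 : ∃ t, chk3 f_A00pm_012_s1 t 5 20 1 = true := ex3_b t721_A00pm_012_s1 t718_A00pm_012_s1

theorem t723_A00pm_012_s1 : ∃ t, chk3 f_A00pm_012_s1 t 5 10 1 = true := ex3_b t722_A00pm_012_s1 t708_A00pm_012_s1

theorem t724_A00pm_012_s1 : ∃ t, chk3 f_A00pm_012_s1 t 5 5 1 = true := ex3_b t723_A00pm_012_s1 k248_A00pm_012_s1

theorem t725_A00pm_012_s1 : ∃ t, chk3 f_A00pm_012_s1 t 2 5 1 = true := ex3_a k229_A00pm_012_s1 t724_A00pm_012_s1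

theorem t726_A00pm_012_s1 : ∃ t, chk3 f_A00pm_012_s1 t 23 39 1 = true := ex3_b k227_A00pm_012_s1 k228_A00pm_012_s1

theorem t727_A00pm_012_s1 : ∃ t, chk3 f_A00pm_012_s1 t 11 39 1 = true := ex3_a k226_A00pm_012_s1 t726_A00pm_012_s1

theorem t728_A00pm_012_s1 : ∃ t, chk3 f_A00pm_012_s1 t 95 155 1 = true := ex3_b k224_A00pm_012_s1 k225_A00pm_012_s1

theorem t729_A00pm_012_s1 : ∃ t, chk3 f_A00pm_012_s1 t 47 155 1 = true := ex3_a k223_A00pm_012_s1 t728_A00pm_012_s1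

theorem t730_A00pm_012_s1 : ∃ t, chk3 f_A00pm_012_s1 t 47 77 1 = true := ex3_b k222_A00pm_012_s1 t729_A00pm_012_s1

theorem t731_A00pm_012_s1 : ∃ t, chk3 f_A00pm_012_s1 t 23 77 1 = true := ex3_a k221_A00pm_012_s1 t730_A00pm_012_s1

theorem t732_A00pm_012_s1 : ∃ t, chk3 f_A00pm_012_s1 t 46 76 1 = true := ex3_b k218_A00pm_012_s1 k219_A00pm_012_s1

theorem t733_A00pm_012_s1 : ∃ t, chk3 f_A00pm_012_s1 t 23 76 1 = true := ex3_a t732_A00pm_012_s1 k220_A00pm_012_s1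

theorem t734_A00pm_012_s1 : ∃ t, chk3 f_A00pm_012_s1 t 23 38 1 = true := ex3_b t733_A00pm_012_s1 t731_A00pm_012_s1

theorem t735_A00pm_012_s1 : ∃ t, chk3 f_A00pm_012_s1 t 45 152 1 = true := ex3_a k214_A00pm_012_s1 k215_A00pm_012_s1

theorem t736_A00pm_012_s1 : ∃ t, chk3 f_A00pm_012_s1 t 45 76 1 = true := ex3_b t735_A00pm_012_s1 k216_A00pm_012_s1

theorem t737_A00pm_012_s1 : ∃ t, chk3 f_A00pm_012_s1 t 22 76 1 = true := ex3_a k213_A00pm_012_s1 t736_A00pm_012_s1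

theorem t738_A00pm_012_s1 : ∃ t, chk3 f_A00pm_012_s1 t 22 38 1 = true := ex3_b t737_A00pm_012_s1 k217_A00pm_012_s1

theorem t739_A00pm_012_s1 : ∃ t, chk3 f_A00pm_012_s1 t 11 38 1 = true := ex3_a t738_A00pm_012_s1 t734_A00pm_012_s1

theorem t740_A00pm_012_s1 : ∃ t, chk3 f_A00pm_012_s1 t 11 19 1 = true := ex3_b t739_A00pm_012_s1 t727_A00pm_012_s1

theorem t741_A00pm_012_s1 : ∃ t, chk3 f_A00pm_012_s1 t 10 19 1 = true := ex3_a k211_A00pm_012_s1 k212_A00pm_012_s1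

theorem t742_A00pm_012_s1 : ∃ t, chk3 f_A00pm_012_s1 t 5 19 1 = true := ex3_a t741_A00pm_012_s1 t740_A00pm_012_s1

theorem t743_A00pm_012_s1 : ∃ t, chk3 f_A00pm_012_s1 t 44 151 1 = true := ex3_a k207_A00pm_012_s1 k208_A00pm_012_s1

theorem t744_A00pm_012_s1 : ∃ t, chk3 f_A00pm_012_s1 t 88 300 1 = true := ex3_a k203_A00pm_012_s1 k204_A00pm_012_s1

theorem t745_A00pm_012_s1 : ∃ t, chk3 f_A00pm_012_s1 t 88 150 1 = true := ex3_b t744_A00pm_012_s1 k205_A00pm_012_s1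

theorem t746_A00pm_012_s1 : ∃ t, chk3 f_A00pm_012_s1 t 44 150 1 = true := ex3_a t745_A00pm_012_s1 k206_A00pm_012_s1

theorem t747_A00pm_012_s1 : ∃ t, chk3 f_A00pm_012_s1 t 44 75 1 = true := ex3_b t746_A00pm_012_s1 t743_A00pm_012_s1

theorem t748_A00pm_012_s1 : ∃ t, chk3 f_A00pm_012_s1 t 22 75 1 = true := ex3_a t747_A00pm_012_s1 k209_A00pm_012_s1

theorem t749_A00pm_012_s1 : ∃ t, chk3 f_A00pm_012_s1 t 22 37 1 = true := ex3_b k202_A00pm_012_s1 t748_A00pm_012_s1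

theorem t750_A00pm_012_s1 : ∃ t, chk3 f_A00pm_012_s1 t 11 37 1 = true := ex3_a t749_A00pm_012_s1 k210_A00pm_012_s1

theorem t751_A00pm_012_s1 : ∃ t, chk3 f_A00pm_012_s1 t 11 18 1 = true := ex3_b k201_A00pm_012_s1 t750_A00pm_012_s1

theorem t752_A00pm_012_s1 : ∃ t, chk3 f_A00pm_012_s1 t 87 299 1 = true := ex3_a k198_A00pm_012_s1 k199_A00pm_012_s1

theorem t753_A00pm_012_s1 : ∃ t, chk3 f_A00pm_012_s1 t 87 149 1 = true := ex3_b k197_A00pm_012_s1 t752_A00pm_012_s1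

theorem t754_A00pm_012_s1 : ∃ t, chk3 f_A00pm_012_s1 t 43 149 1 = true := ex3_a k196_A00pm_012_s1 t753_A00pm_012_s1

theorem t755_A00pm_012_s1 : ∃ t, chk3 f_A00pm_012_s1 t 86 148 1 = true := ex3_b k193_A00pm_012_s1 k194_A00pm_012_s1

theorem t756_A00pm_012_s1 : ∃ t, chk3 f_A00pm_012_s1 t 43 148 1 = true := ex3_a t755_A00pm_012_s1 k195_A00pm_012_s1

theorem t757_A00pm_012_s1 : ∃ t, chk3 f_A00pm_012_s1 t 43 74 1 = true := ex3_b t756_A00pm_012_s1 t754_A00pm_012_s1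

theorem t758_A00pm_012_s1 : ∃ t, chk3 f_A00pm_012_s1 t 42 148 1 = true := ex3_a k190_A00pm_012_s1 k191_A00pm_012_s1

theorem t759_A00pm_012_s1 : ∃ t, chk3 f_A00pm_012_s1 t 42 74 1 = true := ex3_b t758_A00pm_012_s1 k192_A00pm_012_s1

theorem t760_A00pm_012_s1 : ∃ t, chk3 f_A00pm_012_s1 t 21 74 1 = true := ex3_a t759_A00pm_012_s1 t757_A00pm_012_s1

theorem t761_A00pm_012_s1 : ∃ t, chk3 f_A00pm_012_s1 t 21 37 1 = true := ex3_b t760_A00pm_012_s1 k200_A00pm_012_s1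

theorem t762_A00pm_012_s1 : ∃ t, chk3 f_A00pm_012_s1 t 20 37 1 = true := ex3_a k188_A00pm_012_s1 k189_A00pm_012_s1

theorem t763_A00pm_012_s1 : ∃ t, chk3 f_A00pm_012_s1 t 10 37 1 = true := ex3_a t762_A00pm_012_s1 t761_A00pm_012_s1

theorem t764_A00pm_012_s1 : ∃ t, chk3 f_A00pm_012_s1 t 84 147 1 = true := ex3_b k184_A00pm_012_s1 k185_A00pm_012_s1

theorem t765_A00pm_012_s1 : ∃ t, chk3 f_A00pm_012_s1 t 42 147 1 = true := ex3_a t764_A00pm_012_s1 k186_A00pm_012_s1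

theorem t766_A00pm_012_s1 : ∃ t, chk3 f_A00pm_012_s1 t 42 73 1 = true := ex3_b k183_A00pm_012_s1 t765_A00pm_012_s1

theorem t767_A00pm_012_s1 : ∃ t, chk3 f_A00pm_012_s1 t 21 73 1 = true := ex3_a t766_A00pm_012_s1 k187_A00pm_012_s1

theorem t768_A00pm_012_s1 : ∃ t, chk3 f_A00pm_012_s1 t 21 36 1 = true := ex3_b k182_A00pm_012_s1 t767_A00pm_012_s1

theorem t769_A00pm_012_s1 : ∃ t, chk3 f_A00pm_012_s1 t 83 293 1 = true := ex3_a k179_A00pm_012_s1 k180_A00pm_012_s1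

theorem t770_A00pm_012_s1 : ∃ t, chk3 f_A00pm_012_s1 t 166 292 1 = true := ex3_b k176_A00pm_012_s1 k177_A00pm_012_s1

theorem t771_A00pm_012_s1 : ∃ t, chk3 f_A00pm_012_s1 t 83 292 1 = true := ex3_a t770_A00pm_012_s1 k178_A00pm_012_s1

theorem t772_A00pm_012_s1 : ∃ t, chk3 f_A00pm_012_s1 t 83 146 1 = true := ex3_b t771_A00pm_012_s1 t769_A00pm_012_s1

theorem t773_A00pm_012_s1 : ∃ t, chk3 f_A00pm_012_s1 t 82 146 1 = true := ex3_b k174_A00pm_012_s1 k175_A00pm_012_s1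

theorem t774_A00pm_012_s1 : ∃ t, chk3 f_A00pm_012_s1 t 41 146 1 = true := ex3_a t773_A00pm_012_s1 t772_A00pm_012_s1

theorem t775_A00pm_012_s1 : ∃ t, chk3 f_A00pm_012_s1 t 41 73 1 = true := ex3_b t774_A00pm_012_s1 k181_A00pm_012_s1

theorem t776_A00pm_012_s1 : ∃ t, chk3 f_A00pm_012_s1 t 81 146 1 = true := ex3_b k171_A00pm_012_s1 k172_A00pm_012_s1

theorem t777_A00pm_012_s1 : ∃ t, chk3 f_A00pm_012_s1 t 81 73 1 = true := ex3_b t776_A00pm_012_s1 k173_A00pm_012_s1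

theorem t778_A00pm_012_s1 : ∃ t, chk3 f_A00pm_012_s1 t 40 73 1 = true := ex3_a k170_A00pm_012_s1 t777_A00pm_012_s1

theorem t779_A00pm_012_s1 : ∃ t, chk3 f_A00pm_012_s1 t 20 73 1 = true := ex3_a t778_A00pm_012_s1 t775_A00pm_012_s1

theorem t780_A00pm_012_s1 : ∃ t, chk3 f_A00pm_012_s1 t 82 291 1 = true := ex3_a k167_A00pm_012_s1 k168_A00pm_012_s1

theorem t781_A00pm_012_s1 : ∃ t, chk3 f_A00pm_012_s1 t 82 145 1 = true := ex3_b k166_A00pm_012_s1 t780_A00pm_012_s1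

theorem t782_A00pm_012_s1 : ∃ t, chk3 f_A00pm_012_s1 t 41 145 1 = true := ex3_a t781_A00pm_012_s1 k169_A00pm_012_s1

theorem t783_A00pm_012_s1 : ∃ t, chk3 f_A00pm_012_s1 t 41 72 1 = true := ex3_b k165_A00pm_012_s1 t782_A00pm_012_s1

theorem t784_A00pm_012_s1 : ∃ t, chk3 f_A00pm_012_s1 t 81 291 2 = true := ex3_a k162_A00pm_012_s1 k163_A00pm_012_s1

theorem t785_A00pm_012_s1 : ∃ t, chk3 f_A00pm_012_s1 t 81 291 1 = true := ex3_c t784_A00pm_012_s1 k164_A00pm_012_s1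

theorem t786_A00pm_012_s1 : ∃ t, chk3 f_A00pm_012_s1 t 81 290 1 = true := ex3_a k160_A00pm_012_s1 k161_A00pm_012_s1

theorem t787_A00pm_012_s1 : ∃ t, chk3 f_A00pm_012_s1 t 81 145 1 = true := ex3_b t786_A00pm_012_s1 t785_A00pm_012_s1

theorem t788_A00pm_012_s1 : ∃ t, chk3 f_A00pm_012_s1 t 80 290 2 = true := ex3_a k156_A00pm_012_s1 k157_A00pm_012_s1

theorem t789_A00pm_012_s1 : ∃ t, chk3 f_A00pm_012_s1 t 80 145 2 = true := ex3_b t788_A00pm_012_s1 k158_A00pm_012_s1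

theorem t790_A00pm_012_s1 : ∃ t, chk3 f_A00pm_012_s1 t 80 145 1 = true := ex3_c t789_A00pm_012_s1 k159_A00pm_012_s1

theorem t791_A00pm_012_s1 : ∃ t, chk3 f_A00pm_012_s1 t 40 145 1 = true := ex3_a t790_A00pm_012_s1 t787_A00pm_012_s1

theorem t792_A00pm_012_s1 : ∃ t, chk3 f_A00pm_012_s1 t 80 144 1 = true := ex3_b k153_A00pm_012_s1 k154_A00pm_012_s1

theorem t793_A00pm_012_s1 : ∃ t, chk3 f_A00pm_012_s1 t 40 144 1 = true := ex3_a t792_A00pm_012_s1 k155_A00pm_012_s1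

theorem t794_A00pm_012_s1 : ∃ t, chk3 f_A00pm_012_s1 t 40 72 1 = true := ex3_b t793_A00pm_012_s1 t791_A00pm_012_s1

theorem t795_A00pm_012_s1 : ∃ t, chk3 f_A00pm_012_s1 t 20 72 1 = true := ex3_a t794_A00pm_012_s1 t783_A00pm_012_s1

theorem t796_A00pm_012_s1 : ∃ t, chk3 f_A00pm_012_s1 t 20 36 1 = true := ex3_b t795_A00pm_012_s1 t779_A00pm_012_s1

theorem t797_A00pm_012_s1 : ∃ t, chk3 f_A00pm_012_s1 t 10 36 1 = true := ex3_a t796_A00pm_012_s1 t768_A00pm_012_s1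

theorem t798_A00pm_012_s1 : ∃ t, chk3 f_A00pm_012_s1 t 10 18 1 = true := ex3_b t797_A00pm_012_s1 t763_A00pm_012_s1

theorem t799_A00pm_012_s1 : ∃ t, chk3 f_A00pm_012_s1 t 5 18 1 = true := ex3_a t798_A00pm_012_s1 t751_A00pm_012_s1

theorem t800_A00pm_012_s1 : ∃ t, chk3 f_A00pm_012_s1 t 5 9 1 = true := ex3_b t799_A00pm_012_s1 t742_A00pm_012_s1

theorem t801_A00pm_012_s1 : ∃ t, chk3 f_A00pm_012_s1 t 5 4 1 = true := ex3_b k152_A00pm_012_s1 t800_A00pm_012_s1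

theorem t802_A00pm_012_s1 : ∃ t, chk3 f_A00pm_012_s1 t 39 145 1 = true := ex3_a k147_A00pm_012_s1 k148_A00pm_012_s1

theorem t803_A00pm_012_s1 : ∃ t, chk3 f_A00pm_012_s1 t 79 144 2 = true := ex3_c k144_A00pm_012_s1 k145_A00pm_012_s1

theorem t804_A00pm_012_s1 : ∃ t, chk3 f_A00pm_012_s1 t 79 144 1 = true := ex3_c t803_A00pm_012_s1 k146_A00pm_012_s1

theorem t805_A00pm_012_s1 : ∃ t, chk3 f_A00pm_012_s1 t 39 144 1 = true := ex3_a k143_A00pm_012_s1 t804_A00pm_012_s1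

theorem t806_A00pm_012_s1 : ∃ t, chk3 f_A00pm_012_s1 t 39 72 1 = true := ex3_b t805_A00pm_012_s1 t802_A00pm_012_s1

theorem t807_A00pm_012_s1 : ∃ t, chk3 f_A00pm_012_s1 t 39 36 1 = true := ex3_b t806_A00pm_012_s1 k149_A00pm_012_s1

theorem t808_A00pm_012_s1 : ∃ t, chk3 f_A00pm_012_s1 t 38 72 1 = true := ex3_a k140_A00pm_012_s1 k141_A00pm_012_s1

theorem t809_A00pm_012_s1 : ∃ t, chk3 f_A00pm_012_s1 t 38 36 1 = true := ex3_b t808_A00pm_012_s1 k142_A00pm_012_s1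

theorem t810_A00pm_012_s1 : ∃ t, chk3 f_A00pm_012_s1 t 19 36 1 = true := ex3_a t809_A00pm_012_s1 t807_A00pm_012_s1

theorem t811_A00pm_012_s1 : ∃ t, chk3 f_A00pm_012_s1 t 19 18 1 = true := ex3_b t810_A00pm_012_s1 k150_A00pm_012_s1

theorem t812_A00pm_012_s1 : ∃ t, chk3 f_A00pm_012_s1 t 18 18 1 = true := ex3_b k138_A00pm_012_s1 k139_A00pm_012_s1

theorem t813_A00pm_012_s1 : ∃ t, chk3 f_A00pm_012_s1 t 9 18 1 = true := ex3_a t812_A00pm_012_s1 t811_A00pm_012_s1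

theorem t814_A00pm_012_s1 : ∃ t, chk3 f_A00pm_012_s1 t 4 18 1 = true := ex3_a k137_A00pm_012_s1 t813_A00pm_012_s1

theorem t815_A00pm_012_s1 : ∃ t, chk3 f_A00pm_012_s1 t 4 9 1 = true := ex3_b t814_A00pm_012_s1 k151_A00pm_012_s1

theorem t816_A00pm_012_s1 : ∃ t, chk3 f_A00pm_012_s1 t 79 286 1 = true := ex3_a k134_A00pm_012_s1 k135_A00pm_012_s1

theorem t817_A00pm_012_s1 : ∃ t, chk3 f_A00pm_012_s1 t 79 143 1 = true := ex3_b t816_A00pm_012_s1 k136_A00pm_012_s1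

theorem t818_A00pm_012_s1 : ∃ t, chk3 f_A00pm_012_s1 t 39 143 1 = true := ex3_a k133_A00pm_012_s1 t817_A00pm_012_s1

theorem t819_A00pm_012_s1 : ∃ t, chk3 f_A00pm_012_s1 t 158 571 1 = true := ex3_a k130_A00pm_012_s1 k131_A00pm_012_s1

theorem t820_A00pm_012_s1 : ∃ t, chk3 f_A00pm_012_s1 t 158 285 1 = true := ex3_b k129_A00pm_012_s1 t819_A00pm_012_s1

theorem t821_A00pm_012_s1 : ∃ t, chk3 f_A00pm_012_s1 t 79 285 1 = true := ex3_a t820_A00pm_012_s1 k132_A00pm_012_s1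

theorem t822_A00pm_012_s1 : ∃ t, chk3 f_A00pm_012_s1 t 79 142 1 = true := ex3_b k128_A00pm_012_s1 t821_A00pm_012_s1

theorem t823_A00pm_012_s1 : ∃ t, chk3 f_A00pm_012_s1 t 78 142 1 = true := ex3_b k126_A00pm_012_s1 k127_A00pm_012_s1

theorem t824_A00pm_012_s1 : ∃ t, chk3 f_A00pm_012_s1 t 39 142 1 = true := ex3_a t823_A00pm_012_s1 t822_A00pm_012_s1

theorem t825_A00pm_012_s1 : ∃ t, chk3 f_A00pm_012_s1 t 39 71 1 = true := ex3_b t824_A00pm_012_s1 t818_A00pm_012_s1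

theorem t826_A00pm_012_s1 : ∃ t, chk3 f_A00pm_012_s1 t 38 143 1 = true := ex3_a k124_A00pm_012_s1 k125_A00pm_012_s1

theorem t827_A00pm_012_s1 : ∃ t, chk3 f_A00pm_012_s1 t 76 142 1 = true := ex3_c k121_A00pm_012_s1 k122_A00pm_012_s1

theorem t828_A00pm_012_s1 : ∃ t, chk3 f_A00pm_012_s1 t 38 142 1 = true := ex3_a t827_A00pm_012_s1 k123_A00pm_012_s1

theorem t829_A00pm_012_s1 : ∃ t, chk3 f_A00pm_012_s1 t 38 71 1 = true := ex3_b t828_A00pm_012_s1 t826_A00pm_012_s1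

theorem t830_A00pm_012_s1 : ∃ t, chk3 f_A00pm_012_s1 t 19 71 1 = true := ex3_a t829_A00pm_012_s1 t825_A00pm_012_s1

theorem t831_A00pm_012_s1 : ∃ t, chk3 f_A00pm_012_s1 t 77 282 1 = true := ex3_a k117_A00pm_012_s1 k118_A00pm_012_s1

theorem t832_A00pm_012_s1 : ∃ t, chk3 f_A00pm_012_s1 t 77 141 1 = true := ex3_b t831_A00pm_012_s1 k119_A00pm_012_s1

theorem t833_A00pm_012_s1 : ∃ t, chk3 f_A00pm_012_s1 t 76 282 4 = true := ex3_a k112_A00pm_012_s1 k113_A00pm_012_s1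

theorem t834_A00pm_012_s1 : ∃ t, chk3 f_A00pm_012_s1 t 76 282 2 = true := ex3_c t833_A00pm_012_s1 k114_A00pm_012_s1

theorem t835_A00pm_012_s1 : ∃ t, chk3 f_A00pm_012_s1 t 76 141 2 = true := ex3_b t834_A00pm_012_s1 k115_A00pm_012_s1

theorem t836_A00pm_012_s1 : ∃ t, chk3 f_A00pm_012_s1 t 76 141 1 = true := ex3_c t835_A00pm_012_s1 k116_A00pm_012_s1

theorem t837_A00pm_012_s1 : ∃ t, chk3 f_A00pm_012_s1 t 38 141 1 = true := ex3_a t836_A00pm_012_s1 t832_A00pm_012_s1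

theorem t838_A00pm_012_s1 : ∃ t, chk3 f_A00pm_012_s1 t 153 281 1 = true := ex3_a k109_A00pm_012_s1 k110_A00pm_012_s1

theorem t839_A00pm_012_s1 : ∃ t, chk3 f_A00pm_012_s1 t 152 281 4 = true := ex3_b k105_A00pm_012_s1 k106_A00pm_012_s1

theorem t840_A00pm_012_s1 : ∃ t, chk3 f_A00pm_012_s1 t 152 281 2 = true := ex3_c t839_A00pm_012_s1 k107_A00pm_012_s1

theorem t841_A00pm_012_s1 : ∃ t, chk3 f_A00pm_012_s1 t 152 281 1 = true := ex3_c t840_A00pm_012_s1 k108_A00pm_012_s1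

theorem t842_A00pm_012_s1 : ∃ t, chk3 f_A00pm_012_s1 t 76 281 1 = true := ex3_a t841_A00pm_012_s1 t838_A00pm_012_s1

theorem t843_A00pm_012_s1 : ∃ t, chk3 f_A00pm_012_s1 t 152 561 1 = true := ex3_c k102_A00pm_012_s1 k103_A00pm_012_s1

theorem t844_A00pm_012_s1 : ∃ t, chk3 f_A00pm_012_s1 t 152 560 1 = true := ex3_a k100_A00pm_012_s1 k101_A00pm_012_s1

theorem t845_A00pm_012_s1 : ∃ t, chk3 f_A00pm_012_s1 t 152 280 1 = true := ex3_b t844_A00pm_012_s1 t843_A00pm_012_s1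

theorem t846_A00pm_012_s1 : ∃ t, chk3 f_A00pm_012_s1 t 76 280 1 = true := ex3_a t845_A00pm_012_s1 k104_A00pm_012_s1

theorem t847_A00pm_012_s1 : ∃ t, chk3 f_A00pm_012_s1 t 76 140 1 = true := ex3_b t846_A00pm_012_s1 t842_A00pm_012_s1

theorem t848_A00pm_012_s1 : ∃ t, chk3 f_A00pm_012_s1 t 38 140 1 = true := ex3_a t847_A00pm_012_s1 k111_A00pm_012_s1

theorem t849_A00pm_012_s1 : ∃ t, chk3 f_A00pm_012_s1 t 38 70 1 = true := ex3_b t848_A00pm_012_s1 t837_A00pm_012_s1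

theorem t850_A00pm_012_s1 : ∃ t, chk3 f_A00pm_012_s1 t 19 70 1 = true := ex3_a t849_A00pm_012_s1 k120_A00pm_012_s1

theorem t851_A00pm_012_s1 : ∃ t, chk3 f_A00pm_012_s1 t 19 35 1 = true := ex3_b t850_A00pm_012_s1 t830_A00pm_012_s1

theorem t852_A00pm_012_s1 : ∃ t, chk3 f_A00pm_012_s1 t 19 17 1 = true := ex3_b k99_A00pm_012_s1 t851_A00pm_012_s1

theorem t853_A00pm_012_s1 : ∃ t, chk3 f_A00pm_012_s1 t 37 71 1 = true := ex3_b k97_A00pm_012_s1 k98_A00pm_012_s1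

theorem t854_A00pm_012_s1 : ∃ t, chk3 f_A00pm_012_s1 t 18 71 1 = true := ex3_a k96_A00pm_012_s1 t853_A00pm_012_s1

theorem t855_A00pm_012_s1 : ∃ t, chk3 f_A00pm_012_s1 t 75 282 4 = true := ex3_a k91_A00pm_012_s1 k92_A00pm_012_s1

theorem t856_A00pm_012_s1 : ∃ t, chk3 f_A00pm_012_s1 t 75 141 4 = true := ex3_b t855_A00pm_012_s1 k93_A00pm_012_s1

theorem t857_A00pm_012_s1 : ∃ t, chk3 f_A00pm_012_s1 t 75 141 2 = true := ex3_c t856_A00pm_012_s1 k94_A00pm_012_s1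

theorem t858_A00pm_012_s1 : ∃ t, chk3 f_A00pm_012_s1 t 75 141 1 = true := ex3_c t857_A00pm_012_s1 k95_A00pm_012_s1

theorem t859_A00pm_012_s1 : ∃ t, chk3 f_A00pm_012_s1 t 151 281 4 = true := ex3_b k87_A00pm_012_s1 k88_A00pm_012_s1

theorem t860_A00pm_012_s1 : ∃ t, chk3 f_A00pm_012_s1 t 75 281 4 = true := ex3_a k86_A00pm_012_s1 t859_A00pm_012_s1

theorem t861_A00pm_012_s1 : ∃ t, chk3 f_A00pm_012_s1 t 75 281 2 = true := ex3_c t860_A00pm_012_s1 k89_A00pm_012_s1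

theorem t862_A00pm_012_s1 : ∃ t, chk3 f_A00pm_012_s1 t 151 280 8 = true := ex3_b k82_A00pm_012_s1 k83_A00pm_012_s1

theorem t863_A00pm_012_s1 : ∃ t, chk3 f_A00pm_012_s1 t 151 280 4 = true := ex3_c t862_A00pm_012_s1 k84_A00pm_012_s1

theorem t864_A00pm_012_s1 : ∃ t, chk3 f_A00pm_012_s1 t 150 560 8 = true := ex3_a k78_A00pm_012_s1 k79_A00pm_012_s1

theorem t865_A00pm_012_s1 : ∃ t, chk3 f_A00pm_012_s1 t 150 280 8 = true := ex3_b t864_A00pm_012_s1 k80_A00pm_012_s1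

theorem t866_A00pm_012_s1 : ∃ t, chk3 f_A00pm_012_s1 t 150 280 4 = true := ex3_c t865_A00pm_012_s1 k81_A00pm_012_s1

theorem t867_A00pm_012_s1 : ∃ t, chk3 f_A00pm_012_s1 t 75 280 4 = true := ex3_a t866_A00pm_012_s1 t863_A00pm_012_s1

theorem t868_A00pm_012_s1 : ∃ t, chk3 f_A00pm_012_s1 t 75 280 2 = true := ex3_c t867_A00pm_012_s1 k85_A00pm_012_s1

theorem t869_A00pm_012_s1 : ∃ t, chk3 f_A00pm_012_s1 t 75 140 2 = true := ex3_b t868_A00pm_012_s1 t861_A00pm_012_s1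

theorem t870_A00pm_012_s1 : ∃ t, chk3 f_A00pm_012_s1 t 75 140 1 = true := ex3_c t869_A00pm_012_s1 k90_A00pm_012_s1

theorem t871_A00pm_012_s1 : ∃ t, chk3 f_A00pm_012_s1 t 75 70 1 = true := ex3_b t870_A00pm_012_s1 t858_A00pm_012_s1

theorem t872_A00pm_012_s1 : ∃ t, chk3 f_A00pm_012_s1 t 74 280 4 = true := ex3_a k72_A00pm_012_s1 k73_A00pm_012_s1

theorem t873_A00pm_012_s1 : ∃ t, chk3 f_A00pm_012_s1 t 74 140 4 = true := ex3_b t872_A00pm_012_s1 k74_A00pm_012_s1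

theorem t874_A00pm_012_s1 : ∃ t, chk3 f_A00pm_012_s1 t 74 140 2 = true := ex3_c t873_A00pm_012_s1 k75_A00pm_012_s1

theorem t875_A00pm_012_s1 : ∃ t, chk3 f_A00pm_012_s1 t 74 140 1 = true := ex3_c t874_A00pm_012_s1 k76_A00pm_012_s1

theorem t876_A00pm_012_s1 : ∃ t, chk3 f_A00pm_012_s1 t 74 70 1 = true := ex3_b t875_A00pm_012_s1 k77_A00pm_012_s1

theorem t877_A00pm_012_s1 : ∃ t, chk3 f_A00pm_012_s1 t 37 70 1 = true := ex3_a t876_A00pm_012_s1 t871_A00pm_012_s1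

theorem t878_A00pm_012_s1 : ∃ t, chk3 f_A00pm_012_s1 t 36 70 1 = true := ex3_a k70_A00pm_012_s1 k71_A00pm_012_s1

theorem t879_A00pm_012_s1 : ∃ t, chk3 f_A00pm_012_s1 t 18 70 1 = true := ex3_a t878_A00pm_012_s1 t877_A00pm_012_s1

theorem t880_A00pm_012_s1 : ∃ t, chk3 f_A00pm_012_s1 t 18 35 1 = true := ex3_b t879_A00pm_012_s1 t854_A00pm_012_s1

theorem t881_A00pm_012_s1 : ∃ t, chk3 f_A00pm_012_s1 t 151 559 2 = true := ex3_a k67_A00pm_012_s1 k68_A00pm_012_s1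

theorem t882_A00pm_012_s1 : ∃ t, chk3 f_A00pm_012_s1 t 151 559 1 = true := ex3_c t881_A00pm_012_s1 k69_A00pm_012_s1

theorem t883_A00pm_012_s1 : ∃ t, chk3 f_A00pm_012_s1 t 151 558 1 = true := ex3_a k65_A00pm_012_s1 k66_A00pm_012_s1

theorem t884_A00pm_012_s1 : ∃ t, chk3 f_A00pm_012_s1 t 151 279 1 = true := ex3_b t883_A00pm_012_s1 t882_A00pm_012_s1

theorem t885_A00pm_012_s1 : ∃ t, chk3 f_A00pm_012_s1 t 150 559 8 = true := ex3_a k60_A00pm_012_s1 k61_A00pm_012_s1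

theorem t886_A00pm_012_s1 : ∃ t, chk3 f_A00pm_012_s1 t 150 279 8 = true := ex3_b k59_A00pm_012_s1 t885_A00pm_012_s1

theorem t887_A00pm_012_s1 : ∃ t, chk3 f_A00pm_012_s1 t 150 279 4 = true := ex3_c t886_A00pm_012_s1 k62_A00pm_012_s1

theorem t888_A00pm_012_s1 : ∃ t, chk3 f_A00pm_012_s1 t 150 279 2 = true := ex3_c t887_A00pm_012_s1 k63_A00pm_012_s1

theorem t889_A00pm_012_s1 : ∃ t, chk3 f_A00pm_012_s1 t 150 279 1 = true := ex3_c t888_A00pm_012_s1 k64_A00pm_012_s1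

theorem t890_A00pm_012_s1 : ∃ t, chk3 f_A00pm_012_s1 t 75 279 1 = true := ex3_a t889_A00pm_012_s1 t884_A00pm_012_s1

theorem t891_A00pm_012_s1 : ∃ t, chk3 f_A00pm_012_s1 t 150 557 2 = true := ex3_a k55_A00pm_012_s1 k56_A00pm_012_s1

theorem t892_A00pm_012_s1 : ∃ t, chk3 f_A00pm_012_s1 t 150 557 1 = true := ex3_c t891_A00pm_012_s1 k57_A00pm_012_s1

theorem t893_A00pm_012_s1 : ∃ t, chk3 f_A00pm_012_s1 t 300 556 2 = true := ex3_c k51_A00pm_012_s1 k52_A00pm_012_s1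

theorem t894_A00pm_012_s1 : ∃ t, chk3 f_A00pm_012_s1 t 300 556 1 = true := ex3_c t893_A00pm_012_s1 k53_A00pm_012_s1

theorem t895_A00pm_012_s1 : ∃ t, chk3 f_A00pm_012_s1 t 150 556 1 = true := ex3_a t894_A00pm_012_s1 k54_A00pm_012_s1

theorem t896_A00pm_012_s1 : ∃ t, chk3 f_A00pm_012_s1 t 150 278 1 = true := ex3_b t895_A00pm_012_s1 t892_A00pm_012_s1

theorem t897_A00pm_012_s1 : ∃ t, chk3 f_A00pm_012_s1 t 75 278 1 = true := ex3_a t896_A00pm_012_s1 k58_A00pm_012_s1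

theorem t898_A00pm_012_s1 : ∃ t, chk3 f_A00pm_012_s1 t 75 139 1 = true := ex3_b t897_A00pm_012_s1 t890_A00pm_012_s1

theorem t899_A00pm_012_s1 : ∃ t, chk3 f_A00pm_012_s1 t 149 279 8 = true := ex3_a k46_A00pm_012_s1 k47_A00pm_012_s1

theorem t900_A00pm_012_s1 : ∃ t, chk3 f_A00pm_012_s1 t 149 279 4 = true := ex3_c t899_A00pm_012_s1 k48_A00pm_012_s1

theorem t901_A00pm_012_s1 : ∃ t, chk3 f_A00pm_012_s1 t 74 279 4 = true := ex3_a k45_A00pm_012_s1 t900_A00pm_012_s1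

theorem t902_A00pm_012_s1 : ∃ t, chk3 f_A00pm_012_s1 t 74 279 2 = true := ex3_c t901_A00pm_012_s1 k49_A00pm_012_s1

theorem t903_A00pm_012_s1 : ∃ t, chk3 f_A00pm_012_s1 t 74 279 1 = true := ex3_c t902_A00pm_012_s1 k50_A00pm_012_s1

theorem t904_A00pm_012_s1 : ∃ t, chk3 f_A00pm_012_s1 t 149 278 8 = true := ex3_a k40_A00pm_012_s1 k41_A00pm_012_s1

theorem t905_A00pm_012_s1 : ∃ t, chk3 f_A00pm_012_s1 t 149 278 4 = true := ex3_c t904_A00pm_012_s1 k42_A00pm_012_s1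

theorem t906_A00pm_012_s1 : ∃ t, chk3 f_A00pm_012_s1 t 149 278 2 = true := ex3_c t905_A00pm_012_s1 k43_A00pm_012_s1

theorem t907_A00pm_012_s1 : ∃ t, chk3 f_A00pm_012_s1 t 148 278 4 = true := ex3_a k37_A00pm_012_s1 k38_A00pm_012_s1

theorem t908_A00pm_012_s1 : ∃ t, chk3 f_A00pm_012_s1 t 148 278 2 = true := ex3_c t907_A00pm_012_s1 k39_A00pm_012_s1

theorem t909_A00pm_012_s1 : ∃ t, chk3 f_A00pm_012_s1 t 74 278 2 = true := ex3_a t908_A00pm_012_s1 t906_A00pm_012_s1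

theorem t910_A00pm_012_s1 : ∃ t, chk3 f_A00pm_012_s1 t 74 278 1 = true := ex3_c t909_A00pm_012_s1 k44_A00pm_012_s1

theorem t911_A00pm_012_s1 : ∃ t, chk3 f_A00pm_012_s1 t 74 139 1 = true := ex3_b t910_A00pm_012_s1 t903_A00pm_012_s1

theorem t912_A00pm_012_s1 : ∃ t, chk3 f_A00pm_012_s1 t 37 139 1 = true := ex3_a t911_A00pm_012_s1 t898_A00pm_012_s1

theorem t913_A00pm_012_s1 : ∃ t, chk3 f_A00pm_012_s1 t 149 555 2 = true := ex3_a k33_A00pm_012_s1 k34_A00pm_012_s1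

theorem t914_A00pm_012_s1 : ∃ t, chk3 f_A00pm_012_s1 t 149 555 1 = true := ex3_c t913_A00pm_012_s1 k35_A00pm_012_s1

theorem t915_A00pm_012_s1 : ∃ t, chk3 f_A00pm_012_s1 t 298 554 1 = true := ex3_c k30_A00pm_012_s1 k31_A00pm_012_s1

theorem t916_A00pm_012_s1 : ∃ t, chk3 f_A00pm_012_s1 t 149 554 1 = true := ex3_a t915_A00pm_012_s1 k32_A00pm_012_s1

theorem t917_A00pm_012_s1 : ∃ t, chk3 f_A00pm_012_s1 t 149 277 1 = true := ex3_b t916_A00pm_012_s1 t914_A00pm_012_s1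

theorem t918_A00pm_012_s1 : ∃ t, chk3 f_A00pm_012_s1 t 148 277 1 = true := ex3_a k28_A00pm_012_s1 k29_A00pm_012_s1

theorem t919_A00pm_012_s1 : ∃ t, chk3 f_A00pm_012_s1 t 74 277 1 = true := ex3_a t918_A00pm_012_s1 t917_A00pm_012_s1

theorem t920_A00pm_012_s1 : ∃ t, chk3 f_A00pm_012_s1 t 148 276 1 = true := ex3_b k25_A00pm_012_s1 k26_A00pm_012_s1

theorem t921_A00pm_012_s1 : ∃ t, chk3 f_A00pm_012_s1 t 74 276 1 = true := ex3_a t920_A00pm_012_s1 k27_A00pm_012_s1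

theorem t922_A00pm_012_s1 : ∃ t, chk3 f_A00pm_012_s1 t 74 138 1 = true := ex3_b t921_A00pm_012_s1 t919_A00pm_012_s1

theorem t923_A00pm_012_s1 : ∃ t, chk3 f_A00pm_012_s1 t 37 138 1 = true := ex3_a t922_A00pm_012_s1 k36_A00pm_012_s1

theorem t924_A00pm_012_s1 : ∃ t, chk3 f_A00pm_012_s1 t 37 69 1 = true := ex3_b t923_A00pm_012_s1 t912_A00pm_012_s1

theorem t925_A00pm_012_s1 : ∃ t, chk3 f_A00pm_012_s1 t 73 278 2 = true := ex3_a k21_A00pm_012_s1 k22_A00pm_012_s1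

theorem t926_A00pm_012_s1 : ∃ t, chk3 f_A00pm_012_s1 t 73 278 1 = true := ex3_c t925_A00pm_012_s1 k23_A00pm_012_s1

theorem t927_A00pm_012_s1 : ∃ t, chk3 f_A00pm_012_s1 t 73 139 1 = true := ex3_b t926_A00pm_012_s1 k24_A00pm_012_s1

theorem t928_A00pm_012_s1 : ∃ t, chk3 f_A00pm_012_s1 t 36 139 1 = true := ex3_a k20_A00pm_012_s1 t927_A00pm_012_s1

theorem t929_A00pm_012_s1 : ∃ t, chk3 f_A00pm_012_s1 t 73 277 2 = true := ex3_a k17_A00pm_012_s1 k18_A00pm_012_s1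

theorem t930_A00pm_012_s1 : ∃ t, chk3 f_A00pm_012_s1 t 73 277 1 = true := ex3_c t929_A00pm_012_s1 k19_A00pm_012_s1

theorem t931_A00pm_012_s1 : ∃ t, chk3 f_A00pm_012_s1 t 73 276 1 = true := ex3_a k15_A00pm_012_s1 k16_A00pm_012_s1

theorem t932_A00pm_012_s1 : ∃ t, chk3 f_A00pm_012_s1 t 73 138 1 = true := ex3_b t931_A00pm_012_s1 t930_A00pm_012_s1

theorem t933_A00pm_012_s1 : ∃ t, chk3 f_A00pm_012_s1 t 72 138 1 = true := ex3_b k13_A00pm_012_s1 k14_A00pm_012_s1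

theorem t934_A00pm_012_s1 : ∃ t, chk3 f_A00pm_012_s1 t 36 138 1 = true := ex3_a t933_A00pm_012_s1 t932_A00pm_012_s1

theorem t935_A00pm_012_s1 : ∃ t, chk3 f_A00pm_012_s1 t 36 69 1 = true := ex3_b t934_A00pm_012_s1 t928_A00pm_012_s1

theorem t936_A00pm_012_s1 : ∃ t, chk3 f_A00pm_012_s1 t 18 69 1 = true := ex3_a t935_A00pm_012_s1 t924_A00pm_012_s1

theorem t937_A00pm_012_s1 : ∃ t, chk3 f_A00pm_012_s1 t 73 137 1 = true := ex3_b k10_A00pm_012_s1 k11_A00pm_012_s1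

theorem t938_A00pm_012_s1 : ∃ t, chk3 f_A00pm_012_s1 t 72 137 1 = true := ex3_b k8_A00pm_012_s1 k9_A00pm_012_s1

theorem t939_A00pm_012_s1 : ∃ t, chk3 f_A00pm_012_s1 t 36 137 1 = true := ex3_a t938_A00pm_012_s1 t937_A00pm_012_s1

theorem t940_A00pm_012_s1 : ∃ t, chk3 f_A00pm_012_s1 t 72 273 1 = true := ex3_a k5_A00pm_012_s1 k6_A00pm_012_s1

theorem t941_A00pm_012_s1 : ∃ t, chk3 f_A00pm_012_s1 t 144 272 1 = true := ex3_b k2_A00pm_012_s1 k3_A00pm_012_s1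

theorem t942_A00pm_012_s1 : ∃ t, chk3 f_A00pm_012_s1 t 72 272 1 = true := ex3_a t941_A00pm_012_s1 k4_A00pm_012_s1

theorem t943_A00pm_012_s1 : ∃ t, chk3 f_A00pm_012_s1 t 72 136 1 = true := ex3_b t942_A00pm_012_s1 t940_A00pm_012_s1

theorem t944_A00pm_012_s1 : ∃ t, chk3 f_A00pm_012_s1 t 36 136 1 = true := ex3_a t943_A00pm_012_s1 k7_A00pm_012_s1

theorem t945_A00pm_012_s1 : ∃ t, chk3 f_A00pm_012_s1 t 36 68 1 = true := ex3_b t944_A00pm_012_s1 t939_A00pm_012_s1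

theorem t946_A00pm_012_s1 : ∃ t, chk3 f_A00pm_012_s1 t 18 68 1 = true := ex3_a t945_A00pm_012_s1 k12_A00pm_012_s1

theorem t947_A00pm_012_s1 : ∃ t, chk3 f_A00pm_012_s1 t 18 34 1 = true := ex3_b t946_A00pm_012_s1 t936_A00pm_012_s1

theorem t948_A00pm_012_s1 : ∃ t, chk3 f_A00pm_012_s1 t 18 17 1 = true := ex3_b t947_A00pm_012_s1 t880_A00pm_012_s1

theorem t949_A00pm_012_s1 : ∃ t, chk3 f_A00pm_012_s1 t 9 17 1 = true := ex3_a t948_A00pm_012_s1 t852_A00pm_012_s1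

theorem t950_A00pm_012_s1 : ∃ t, chk3 f_A00pm_012_s1 t 9 8 1 = true := ex3_b k1_A00pm_012_s1 t949_A00pm_012_s1

theorem t951_A00pm_012_s1 : ∃ t, chk3 f_A00pm_012_s1 t 4 8 1 = true := ex3_a k0_A00pm_012_s1 t950_A00pm_012_s1

theorem t952_A00pm_012_s1 : ∃ t, chk3 f_A00pm_012_s1 t 4 4 1 = true := ex3_b t951_A00pm_012_s1 t815_A00pm_012_s1

theorem t953_A00pm_012_s1 : ∃ t, chk3 f_A00pm_012_s1 t 2 4 1 = true := ex3_a t952_A00pm_012_s1 t801_A00pm_012_s1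

theorem t954_A00pm_012_s1 : ∃ t, chk3 f_A00pm_012_s1 t 2 2 1 = true := ex3_b t953_A00pm_012_s1 t725_A00pm_012_s1

theorem t955_A00pm_012_s1 : ∃ t, chk3 f_A00pm_012_s1 t 2 1 1 = true := ex3_b t954_A00pm_012_s1 k249_A00pm_012_s1

theorem t956_A00pm_012_s1 : ∃ t, chk3 f_A00pm_012_s1 t 1 1 1 = true := ex3_a t955_A00pm_012_s1 t706_A00pm_012_s1

theorem c_A00pm_012_s1 : CertF 0 536870912 536870912 536870912 536870912 50465866 true true false .pnp 0 1 2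
    ndB0q0 ndB0q1 pcB2 cut_A00pm_012_s1 xt_A00pm_012_s1 :=
  certF1 (fam := true) (s1 := true) (s2 := false) (a := 0) (b := 1) (c := 2) (cn := .pnp) (n1 := ndB0q0) (n2 := ndB0q1) (pc := pcB2) (cut := cut_A00pm_012_s1) (xt := xt_A00pm_012_s1) (P1 := 0) (W1 := 536870912) (P2 := 536870912) (W2 := 536870912) (P3 := 536870912) (W3 := 50465866)
    rfl (fun _ => rfl) t956_A00pm_012_s1

theorem s_A00pm_012_s1 {κ x : ℝ} (hκ : κ * h0 = ken x) (hx : ((536870912 : ℕ) : ℝ) / S ≤ x)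
    (hx' : x ≤ (((536870912 : ℕ) : ℝ) + (50465866 : ℕ)) / S)
    (H : CutA (VFD κ) PP tK tL pcB (Cut.of [[⟨0, 0, 0, 67108864⟩, ⟨1, 1, 0, 67108864⟩, ⟨2, 1, 0, 67108864⟩], [⟨0, 0, 1, 20971520⟩, ⟨1, 1, 0, 33554432⟩, ⟨2, 1, 1, 20971520⟩]]) 0 1 2 0 0 (sgb true) (sgb false) x) :
    AltA (VFD κ) PP tK tL pcB [⟨3, 0, 0, 1449551462⟩] 0 1 2 0 0 (sgb true) (sgb false) x :=
  strip_altAD (m := 1449551462) true rfl hκ (SH.κ0 hκ (SH.hx1 hx).le (SH.hx2 hx').le) (SH.hx1 hx).le (SH.hx2 hx') (covB00).cov (covB01).cov hx hx' c_A00pm_012_s1 H ((okx6 hx hx').extA (T := tt) (okx hx hx') (sideB hx hx') hκ rfl rfl (.O 0 true) (.O 1 false) rfl)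

end Pool.Agent.Strip051.G.I5000_5470.Tab.St.C
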