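import Pool.Agent.Strip051.G.I5000_5470.Tab
import Pool.Agent.Strip051.PB.StripB

/-! # Strips, near vertex: certificates 0 (generated) -/

set_option linter.all false
set_option maxRecDepth 100000

namespace Pool.Agent.Strip051.G.I5000_5470.Tab.CS.BA00

open Pool.Agent.Strip051.PB Pool.Agent.Strip051.PB.T
open Pool.Agent.Strip051.G.I5000_5470.Tab

noncomputable def cut_pp_001_s : Cut := Cut.of [[⟨4, 0, 0, 1449551462⟩]]

noncomputable def f_pp_001_s : ℕ → ℕ → ℕ → ℕ → Bool := onCell 0 536870912 0 536870912 536870912 50465866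
    (rowNE 3 eng mog cd0q0 cd0q0 pd1 0 true true true .up 0 0 1 (qsf 0 536870912 0 536870912 1) ndB0q0 ndB0q0 pcB1 cut_pp_001_s Ext.none)

def k0_pp_001_s : ∃ t, chk3 f_pp_001_s t 1 1 1 = true :=
  ⟨(l 4), by decide +kernel⟩

theorem c_pp_001_s : CertNE 0 536870912 0 536870912 536870912 50465866 3 eng mog cd0q0 cd0q0 pd1 true true true .up 0 0 1
    ndB0q0 ndB0q0 pcB1 cut_pp_001_s Ext.none :=
  certNE0 (fam := true) (s1 := true) (s2 := true) (a := 0) (b := 0) (c := 1) (cn := .up) (n1 := ndB0q0) (n2 := ndB0q0) (pc := pcB1) (cut := cut_pp_001_s) (xt := Ext.none) (P1 := 0) (W1 := 536870912) (P2 := 0) (W2 := 536870912) (P3 := 536870912) (W3 := 50465866) (N0 := 3) (En := eng) (mo := mog) (C1 := cd0q0) (C2 := cd0q0) (C3 := pd1)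
    rfl k0_pp_001_s

noncomputable def cut_pp_001_t : Cut := Cut.of [[⟨3, 0, 0, 2845415833⟩]]

noncomputable def f_pp_001_t : ℕ → ℕ → ℕ → ℕ → Bool := onCell 0 536870912 0 536870912 536870912 50465866
    (rowNE 3 eng mog cd0q0 cd0q0 pd1 0 true true true .up 0 0 1 (qsf 0 536870912 0 536870912 1) ndB0q0 ndB0q0 pcB1 cut_pp_001_t Ext.none)

def k0_pp_001_t : ∃ t, chk3 f_pp_001_t t 1 1 1 = true :=
  ⟨(l 4), by decide +kernel⟩

theorem c_pp_001_t : CertNE 0 536870912 0 536870912 536870912 50465866 3 eng mog cd0q0 cd0q0 pd1 true true true .up 0 0 1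
    ndB0q0 ndB0q0 pcB1 cut_pp_001_t Ext.none :=
  certNE0 (fam := true) (s1 := true) (s2 := true) (a := 0) (b := 0) (c := 1) (cn := .up) (n1 := ndB0q0) (n2 := ndB0q0) (pc := pcB1) (cut := cut_pp_001_t) (xt := Ext.none) (P1 := 0) (W1 := 536870912) (P2 := 0) (W2 := 536870912) (P3 := 536870912) (W3 := 50465866) (N0 := 3) (En := eng) (mo := mog) (C1 := cd0q0) (C2 := cd0q0) (C3 := pd1)
    rfl k0_pp_001_t

noncomputable def cut_pp_011_s : Cut := Cut.of [[⟨4, 0, 0, 1449551462⟩], [⟨0, 0, 0, 67108864⟩, ⟨1, 1, 0, 67108864⟩, ⟨2, 1, 0, 67108864⟩]]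

noncomputable def f_pp_011_s : ℕ → ℕ → ℕ → ℕ → Bool := onCell 0 536870912 536870912 536870912 536870912 50465866
    (rowNE 3 eng mog cd0q0 cd0q1 pd1 0 true true true .pnn 0 1 1 (qsf 0 536870912 536870912 536870912 1) ndB0q0 ndB0q1 pcB1 cut_pp_011_s Ext.none)

def k0_pp_011_s : ∃ t, chk3 f_pp_011_s t 1 1 1 = true :=
  ⟨(l 6), by decide +kernel⟩

theorem c_pp_011_s : CertNE 0 536870912 536870912 536870912 536870912 50465866 3 eng mog cd0q0 cd0q1 pd1 true true true .pnn 0 1 1
    ndB0q0 ndB0q1 pcB1 cut_pp_011_s Ext.none :=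
  certNE0 (fam := true) (s1 := true) (s2 := true) (a := 0) (b := 1) (c := 1) (cn := .pnn) (n1 := ndB0q0) (n2 := ndB0q1) (pc := pcB1) (cut := cut_pp_011_s) (xt := Ext.none) (P1 := 0) (W1 := 536870912) (P2 := 536870912) (W2 := 536870912) (P3 := 536870912) (W3 := 50465866) (N0 := 3) (En := eng) (mo := mog) (C1 := cd0q0) (C2 := cd0q1) (C3 := pd1)
    rfl k0_pp_011_s

noncomputable def cut_pp_011_t : Cut := Cut.of [[⟨3, 0, 0, 2845415833⟩], [⟨0, 0, 0, 67108864⟩, ⟨1, 1, 0, 67108864⟩, ⟨2, 1, 0, 67108864⟩]]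

noncomputable def f_pp_011_t : ℕ → ℕ → ℕ → ℕ → Bool := onCell 0 536870912 536870912 536870912 536870912 50465866
    (rowNE 3 eng mog cd0q0 cd0q1 pd1 0 true true true .pnn 0 1 1 (qsf 0 536870912 536870912 536870912 1) ndB0q0 ndB0q1 pcB1 cut_pp_011_t Ext.none)

def k0_pp_011_t : ∃ t, chk3 f_pp_011_t t 1 1 1 = true :=
  ⟨(a (b (l 4) (b (l 4) (a (b (l 4) (a (b (l 4) (a (l 14) (l 4))) (l 4))) (l 4)))) (l 4)), by decide +kernel⟩

theorem c_pp_011_t : CertNE 0 536870912 536870912 536870912 536870912 50465866 3 eng mog cd0q0 cd0q1 pd1 true true true .pnn 0 1 1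
    ndB0q0 ndB0q1 pcB1 cut_pp_011_t Ext.none :=
  certNE0 (fam := true) (s1 := true) (s2 := true) (a := 0) (b := 1) (c := 1) (cn := .pnn) (n1 := ndB0q0) (n2 := ndB0q1) (pc := pcB1) (cut := cut_pp_011_t) (xt := Ext.none) (P1 := 0) (W1 := 536870912) (P2 := 536870912) (W2 := 536870912) (P3 := 536870912) (W3 := 50465866) (N0 := 3) (En := eng) (mo := mog) (C1 := cd0q0) (C2 := cd0q1) (C3 := pd1)
    rfl k0_pp_011_t

noncomputable def cut_pp_012_s : Cut := Cut.of [[⟨4, 0, 0, 1449551462⟩], [⟨0, 0, 0, 67108864⟩, ⟨1, 1, 0, 67108864⟩, ⟨2, 1, 0, 67108864⟩]]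

noncomputable def f_pp_012_s : ℕ → ℕ → ℕ → ℕ → Bool := onCell 0 536870912 536870912 536870912 536870912 50465866
    (rowNE 3 eng mog cd0q0 cd0q1 pd2 0 true true true .pnp 0 1 2 (qsf 0 536870912 536870912 536870912 2) ndB0q0 ndB0q1 pcB2 cut_pp_012_s Ext.none)

def k0_pp_012_s : ∃ t, chk3 f_pp_012_s t 1 1 1 = true :=
  ⟨(l 6), by decide +kernel⟩

theorem c_pp_012_s : CertNE 0 536870912 536870912 536870912 536870912 50465866 3 eng mog cd0q0 cd0q1 pd2 true true true .pnp 0 1 2
    ndB0q0 ndB0q1 pcB2 cut_pp_012_s Ext.none :=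
  certNE0 (fam := true) (s1 := true) (s2 := true) (a := 0) (b := 1) (c := 2) (cn := .pnp) (n1 := ndB0q0) (n2 := ndB0q1) (pc := pcB2) (cut := cut_pp_012_s) (xt := Ext.none) (P1 := 0) (W1 := 536870912) (P2 := 536870912) (W2 := 536870912) (P3 := 536870912) (W3 := 50465866) (N0 := 3) (En := eng) (mo := mog) (C1 := cd0q0) (C2 := cd0q1) (C3 := pd2)
    rfl k0_pp_012_s

noncomputable def cut_pp_012_t : Cut := Cut.of [[⟨3, 0, 0, 2845415833⟩], [⟨0, 0, 0, 67108864⟩, ⟨1, 1, 0, 67108864⟩, ⟨2, 1, 0, 67108864⟩]]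

noncomputable def f_pp_012_t : ℕ → ℕ → ℕ → ℕ → Bool := onCell 0 536870912 536870912 536870912 536870912 50465866
    (rowNE 3 eng mog cd0q0 cd0q1 pd2 0 true true true .pnp 0 1 2 (qsf 0 536870912 536870912 536870912 2) ndB0q0 ndB0q1 pcB2 cut_pp_012_t Ext.none)

def k0_pp_012_t : ∃ t, chk3 f_pp_012_t t 1 1 1 = true :=
  ⟨(b (l 4) (a (b (l 4) (a (b (l 4) (a (b (l 4) (a (l 14) (l 4))) (l 4))) (l 4))) (l 4))), by decide +kernel⟩

theorem c_pp_012_t : CertNE 0 536870912 536870912 536870912 536870912 50465866 3 eng mog cd0q0 cd0q1 pd2 true true true .pnp 0 1 2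
    ndB0q0 ndB0q1 pcB2 cut_pp_012_t Ext.none :=
  certNE0 (fam := true) (s1 := true) (s2 := true) (a := 0) (b := 1) (c := 2) (cn := .pnp) (n1 := ndB0q0) (n2 := ndB0q1) (pc := pcB2) (cut := cut_pp_012_t) (xt := Ext.none) (P1 := 0) (W1 := 536870912) (P2 := 536870912) (W2 := 536870912) (P3 := 536870912) (W3 := 50465866) (N0 := 3) (En := eng) (mo := mog) (C1 := cd0q0) (C2 := cd0q1) (C3 := pd2)
    rfl k0_pp_012_t

noncomputable def cut_pp_022_s : Cut := Cut.of [[⟨4, 0, 0, 1449551462⟩], [⟨0, 0, 0, 67108864⟩, ⟨1, 1, 0, 67108864⟩, ⟨2, 1, 0, 67108864⟩]]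

noncomputable def f_pp_022_s : ℕ → ℕ → ℕ → ℕ → Bool := onCell 0 536870912 0 536870912 536870912 50465866
    (rowNE 3 eng mog cd0q0 cd0q2 pd2 0 true true true .pp 0 2 2 (qsf 0 536870912 0 536870912 2) ndB0q0 ndB0q2 pcB2 cut_pp_022_s Ext.none)

def k0_pp_022_s : ∃ t, chk3 f_pp_022_s t 1 1 1 = true :=
  ⟨(l 6), by decide +kernel⟩

theorem c_pp_022_s : CertNE 0 536870912 0 536870912 536870912 50465866 3 eng mog cd0q0 cd0q2 pd2 true true true .pp 0 2 2
    ndB0q0 ndB0q2 pcB2 cut_pp_022_s Ext.none :=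
  certNE0 (fam := true) (s1 := true) (s2 := true) (a := 0) (b := 2) (c := 2) (cn := .pp) (n1 := ndB0q0) (n2 := ndB0q2) (pc := pcB2) (cut := cut_pp_022_s) (xt := Ext.none) (P1 := 0) (W1 := 536870912) (P2 := 0) (W2 := 536870912) (P3 := 536870912) (W3 := 50465866) (N0 := 3) (En := eng) (mo := mog) (C1 := cd0q0) (C2 := cd0q2) (C3 := pd2)
    rfl k0_pp_022_s

noncomputable def cut_pp_022_t : Cut := Cut.of [[⟨3, 0, 0, 2845415833⟩], [⟨0, 0, 0, 67108864⟩, ⟨1, 1, 0, 67108864⟩, ⟨2, 1, 0, 67108864⟩]]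

noncomputable def f_pp_022_t : ℕ → ℕ → ℕ → ℕ → Bool := onCell 0 536870912 0 536870912 536870912 50465866
    (rowNE 3 eng mog cd0q0 cd0q2 pd2 0 true true true .pp 0 2 2 (qsf 0 536870912 0 536870912 2) ndB0q0 ndB0q2 pcB2 cut_pp_022_t Ext.none)

def k0_pp_022_t : ∃ t, chk3 f_pp_022_t t 2 2 1 = true :=
  ⟨(a (b (l 6) (a (l 6) (b (l 6) (b (l 6) (a (a (l 6) (l 16579936)) (a (l 16594048) (l 16629424))))))) (b (a (l 6) (b (l 6) (a (l 6) (l 16674728)))) (a (b (a (l 6) (b (l 6) (l 16629608))) (a (b (a (l 16607800) (l 16622544)) (a (l 16644024) (l 16658800))) (b (a (l 16637112) (l 16651216)) (a (l 16673520) (l 16687832))))) (b (a (a (l 16662464) (l 16674624)) (b (l 16661552) (l 16700752))) (a (b (a (l 16664712) (l 16677624)) (a (b (l 16676528) (l 16685232)) (b (l 16689696) (l 16698544)))) (b (a (l 16690072) (l 16702056)) (a (b (l 16702416) (l 16711440)) (b (l 16714712) (l 16723936))))))))), by decide +kernel⟩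

def k1_pp_022_t : ∃ t, chk3 f_pp_022_t t 4 6 1 = true :=
  ⟨(a (b (b (a (l 6) (a (l 6) (a (l 16597232) (l 16623672)))) (b (a (l 6) (a (l 16584296) (l 16596920))) (a (a (a (l 6) (l 16578416)) (l 16586512)) (a (l 16597104) (l 16609472))))) (a (b (a (b (a (l 16585632) (l 16591496)) (a (l 16619944) (l 16605224))) (a (b (l 16618256) (l 16611392)) (b (l 16603000) (l 16638464)))) (a (b (a (c (l 16635240) (l 16632504)) (a (l 16617896) (l 16621192))) (a (a (l 16636096) (l 16650104)) (c (l 16646176) (l 16643512)))) (b (a (l 16641832) (l 16644384)) (a (b (l 16637416) (l 16645104)) (b (l 16644168) (l 16652024)))))) (b (a (b (l 16632456) (a (l 16623544) (l 16629552))) (b (l 16643736) (l 16656888))) (a (b (a (b (l 16635072) (l 16642936)) (b (l 16641368) (l 16649416))) (a (b (l 16650864) (l 16658880)) (b (l 16657520) (l 16665696)))) (b (a (l 16651776) (l 16658144)) (a (b (l 16664152) (l 16672480)) (b (l 16670768) (l 16679256)))))))) (b (a (a (b (l 16609400) (b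 (l 16650352) (b (l 16639600) (l 16651728)))) (b (l 16620872) (b (l 16618072) (l 16632832)))) (b (a (l 16634872) (l 16670136)) (a (a (l 16656408) (l 16663512)) (b (l 16646312) (l 16660400))))) (b (b (a (a (c (l 16662888) (l 16666944)) (l 16682136)) (a (l 16682264) (l 16696736))) (a (a (l 16671528) (a (l 16692048) (l 16666792))) (a (l 16693368) (a (l 16688600) (l 16695928))))) (a (a (b (a (l 16664512) (l 16670912)) (a (l 16681736) (l 16688456))) (b (a (l 16698320) (b (l 16700568) (l 16709440))) (b (c (l 16714992) (l 16715008)) (l 16713536)))) (a (b (b (l 16690528) (l 16720320)) (a (b (l 16725496) (l 16729232)) (l 16726912))) (b (a (l 16706024) (l 16734400)) (a (l 16734376) (l 16741176)))))))), by decide +kernel⟩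

def k2_pp_022_t : ∃ t, chk3 f_pp_022_t t 16 14 1 = true :=
  ⟨(b (a (b (a (a (b (l 16636712) (l 16644328)) (b (l 16640352) (l 16648040))) (b (l 16656248) (a (l 16651720) (l 16655384)))) (a (a (b (l 16652112) (c (l 16661664) (l 16658496))) (b (l 16655888) (l 16663904))) (a (b (l 16659632) (l 16667712)) (b (l 16663360) (l 16671504))))) (b (a (a (l 16665584) (l 16658680)) (c (l 16675576) (l 16673432))) (a (b (l 16679400) (a (l 16675264) (l 16679008))) (b (l 16676248) (l 16684592))))) (a (b (a (a (l 14) (b (l 16672104) (l 14))) (a (b (l 16675968) (l 16684416)) (b (l 16679808) (l 16688304)))) (a (l 14) (b (a (l 14) (c (l 16698144) (l 16695856))) (l 14)))) (b (a (b (a (l 16683624) (l 16687424)) (a (l 16692168) (l 16696016))) (b (a (l 16691208) (l 16694968)) (a (l 16699840) (l 16703648)))) (a (b (a (l 16700904) (l 16704792)) (a (l 14) (c (l 16714672) (l 16712872)))) (b (a (l 16708656) (l 16712504)) (a (c (l 16718504) (l 16716840)) (l 16726800))))))), by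 decide +kernel⟩

def k3_pp_022_t : ∃ t, chk3 f_pp_022_t t 17 14 1 = true :=
  ⟨(b (a (b (a (b (l 16666984) (l 16675192)) (b (l 16673944) (l 16682288))) (a (a (l 16696432) (l 16700080)) (a (l 16703720) (l 16707344)))) (b (b (a (l 16680880) (l 16687784)) (a (l 16689352) (l 16696392))) (a (b (l 16697920) (l 16706600)) (b (l 16705080) (l 16724352))))) (b (a (a (b (l 16711064) (a (l 16707440) (l 16711216))) (b (l 16718496) (a (l 16714976) (l 16718728)))) (a (b (l 16725888) (a (l 16722464) (l 16726192))) (b (a (l 16720920) (l 16724592)) (c (l 16742712) (l 16741776))))) (b (a (a (a (l 16716336) (l 16720152)) (c (l 16736968) (l 16733080))) (a (a (l 16731520) (l 16745776)) (a (l 16744288) (l 16748032)))) (a (a (a (l 16730672) (l 16734520)) (a (l 16738360) (c (l 16737448) (l 16736424)))) (a (a (c (l 16741200) (l 16740296)) (c (l 16744944) (l 16754632))) (a (c (l 16753920) (l 16753232)) (c (l 16756336) (l 16756240)))))))), by decide +kernel⟩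

def k4_pp_022_t : ∃ t, chk3 f_pp_022_t t 16 15 1 = true :=
  ⟨(b (a (l 14) (b (a (l 14) (b (a (c (l 16727624) (l 16731424)) (c (l 16731472) (l 16735408))) (a (l 14) (b (l 16743144) (a (l 14) (l 16743688)))))) (l 14))) (l 14)), by decide +kernel⟩

def k5_pp_022_t : ∃ t, chk3 f_pp_022_t t 17 60 1 = true :=
  ⟨(b (b (a (a (a (l 16732368) (l 16736240)) (a (l 16740104) (l 16743952))) (a (a (l 16747784) (l 16756848)) (a (l 16760656) (a (l 16758264) (l 16760168))))) (a (a (a (l 16737064) (l 16740960)) (a (l 16744832) (l 16753936))) (a (a (l 16757784) (c (l 16756648) (l 16756112))) (a (c (l 16765656) (l 16765224)) (a (l 16765680) (c (l 16765112) (l 16764816))))))) (a (a (b (a (l 16747064) (l 16750968)) (a (c (l 16747072) (l 16746200)) (c (l 16750928) (l 16750184)))) (a (b (l 16753552) (c (l 16754776) (l 16759384))) (b (c (l 16753816) (l 16753168)) (c (l 16761224) (l 16760704))))) (a (a (a (b (l 16756392) (l 16763872)) (b (l 16758320) (c (l 16763368) (l 16762992))))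 (b (c (l 16764032) (l 16763608)) (b (c (l 16767632) (l 16767312)) (a (l 16771584) (l 16770888))))) (a (a (b (a (l 16768840) (l 16769800)) (b (l 16772976) (a (l 16769712) (l 16773296)))) (b (c (l 16771376) (l 16768472)) (b (l 16773912) (l 16773424)))) (b (a (b (l 16766688) (l 16774368)) (b (l 16773840) (a (l 16770560) (l 16774136)))) (b (c (a (l 16774264) (l 16776152)) (a (l 16774120) (l 16776056))) (a (c (l 16776696) (l 16776616)) (a (c (l 16776808) (l 16776760)) (b (l 16775808) (a (l 16778120) (b (l 16776976) (l 86134229959)))))))))))), by decide +kernel⟩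

def k6_pp_022_t : ∃ t, chk3 f_pp_022_t t 34 122 1 = true :=
  ⟨(a (a (b (c (l 16757128) (l 16753768)) (l 14)) (a (b (l 16759704) (c (l 16759664) (l 16759152))) (b (l 16761664) (c (l 16764224) (l 16763768))))) (b (a (a (l 16761000) (c (l 16760568) (l 16760096))) (b (c (l 16762232) (l 16761808)) (c (l 16767288) (l 16766936)))) (a (b (c (l 16765888) (l 16765488)) (a (l 16767208) (l 16769168))) (a (b (l 16768624) (c (l 16768624) (l 16768376))) (b (a (l 16767464) (l 16768440)) (c (l 16771856) (l 16771672))))))), by decide +kernel⟩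

def k7_pp_022_t : ∃ t, chk3 f_pp_022_t t 34 123 1 = true :=
  ⟨(a (a (l 14) (b (a (l 14) (b (l 16767744) (c (l 16767784) (l 16767512)))) (l 14))) (b (a (a (b (c (l 16767240) (l 16766952)) (c (l 16771040) (l 16770824))) (c (b (l 16771792) (c (l 16773016) (l 16772936))) (b (l 16771560) (c (l 16772856) (l 16772776))))) (b (b (a (l 16771696) (c (l 16775032) (l 16774896))) (a (c (l 16771720) (l 16771568)) (a (l 16775736) (l 16776056)))) (b (a (a (l 16772424) (l 16776024)) (a (l 16776344) (l 16776664))) (a (a (l 16775656) (b (l 16775664) (l 16776296))) (a (l 16776960) (a (l 16777696) (b (l 16776552) (c (l 41573942855) (l 42110813751))))))))) (b (a (a (a (l 14) (b (l 16772016) (l 16774600))) (a (b (l 16775616) (a (l 16774024) (l 16775832))) (c (l 16775968) (l 16775896)))) (a (a (b (l 16776272) (c (l 16777240) (l 16777536))) (a (b (l 16775696) (b (l 16776656) (a (l 36742104439) (l 87207970135)))) (b (l 16777496) (b (c (l 35668362727) (l 16777960)) (l 4)))))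 (b (b (a (l 16777592) (a (a (l 41037071975) (l 95261033895)) (l 4))) (a (a (l 16777984) (a (l 61438166903) (l 154316833527))) (l 4))) (b (a (a (a (l 104387839511) (l 4)) (l 4)) (l 4)) (l 4))))) (a (a (l 14) (b (b (a (l 16776544) (l 16777528)) (a (l 16777184) (a (l 16776616) (c (l 21709718935) (l 16777920))))) (a (b (c (l 16777184) (l 16777816)) (l 14)) (b (a (b (l 16777752) (l 70564972519)) (l 157538059255)) (l 4))))) (a (a (b (b (a (l 16777936) (b (l 52311361255) (l 159685542631))) (a (b (l 73786198023) (l 4)) (l 4))) (l 4)) (l 4)) (l 4)))))), by decide +kernel⟩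

def k8_pp_022_t : ∃ t, chk3 f_pp_022_t t 35 244 1 = true :=
  ⟨(a (b (a (a (l 16764936) (l 16769488)) (a (a (l 16768320) (l 16769288)) (c (l 16773440) (l 16773272)))) (a (a (l 16770032) (c (l 16769456) (l 16769240))) (b (a (l 16773280) (l 16775544)) (a (l 16775184) (l 16775152))))) (a (b (a (a (l 16774800) (a (l 16775528) (l 16776008))) (c (l 16775936) (l 16775864))) (a (a (l 16775976) (b (l 16775008) (l 16777568))) (a (b (l 16777280) (b (c (l 16778224) (l 16778216)) (a (l 52848232647) (l 4)))) (a (b (l 16778008) (l 150558737767)) (b (b (l 16776864) (l 73249327863)) (l 4)))))) (a (a (b (b (l 16775408) (c (l 6140462903) (l 16777952))) (a (b (b (l 66270005063) (l 4)) (l 4)) (l 4))) (b (b (l 16777680) (b (a (l 16778376) (l 79691778903)) (l 154316834119))) (l 4))) (b (b (b (a (a (l 16776776) (l 55532586647)) (l 159685543335)) (a (a (l 74323068855) (l 4)) (l 4))) (l 4)) (l 4))))), by decide +kernel⟩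

def k9_pp_022_t : ∃ t, chk3 f_pp_022_t t 35 245 1 = true :=
  ⟨(a (b (a (a (c (l 16772616) (l 16772416)) (a (l 16772664) (a (l 16774704) (l 16775192)))) (a (c (l 16775136) (l 16775040)) (a (c (l 16776568) (l 16776520)) (b (l 16776880) (a (l 16777896) (b (l 16776752) (l 60364425111))))))) (a (b (a (a (l 16771288) (l 16772264)) (l 16774704)) (c (a (l 16775712) (l 16776320)) (a (l 16775592) (l 16776256)))) (b (a (a (l 16776488) (l 16777456)) (b (a (l 16778112) (c (l 139284448295) (l 143042544647))) (a (a (l 40500201335) (l 149484995431)) (l 4)))) (a (a (c (l 16777760) (l 16777736)) (b (a (l 16776848) (a (l 16777864) (l 94187292055))) (a (a (l 61438166887) (l 95797905735)) (l 4)))) (l 4))))) (a (b (a (a (a (b (l 16776296) (b (l 45332039783) (l 4))) (b (l 16778096) (l 160759285271))) (b (b (a (l 16778264) (l 78081165303)) (c (l 143579415687) (l 147337512039))) (l 4))) (l 4)) (l 4)) (l 4))), by decide +kernel⟩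

def k10_pp_022_t : ∃ t, chk3 f_pp_022_t t 35 123 1 = true :=
  ⟨(a (b (a (b (a (a (b (l 16776424) (l 16776376)) (b (l 16774776) (l 16776864))) (a (b (l 16777064) (b (l 16778008) (a (l 17951622839) (l 137673835175)))) (a (b (l 16777792) (a (b (l 56606328583) (l 4)) (l 152706221271))) (b (b (l 16776648) (c (l 48016394279) (l 48553265175))) (l 4))))) (b (b (a (a (l 16776016) (a (l 16776752) (c (l 48016393847) (l 49090135655)))) (a (a (l 155390575559) (l 4)) (l 4))) (a (a (l 16777960) (a (a (l 49090135719) (l 102777226759)) (l 4))) (l 4))) (a (a (b (a (l 16778024) (c (l 130694513255) (l 75933682167))) (c (l 151632479575) (l 155390575927))) (l 4)) (l 4)))) (b (b (a (a (b (a (l 34057750295) (l 143579415303)) (l 160222414327)) (l 4)) (l 4)) (l 4)) (l 4))) (l 4)) (l 4)), by decide +kernel⟩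

def k11_pp_022_t : ∃ t, chk3 f_pp_022_t t 17 31 1 = true :=
  ⟨(b (a (b (a (l 14) (a (a (l 14) (a (l 14) (l 4))) (l 4))) (l 4)) (l 4)) (l 4)), by decide +kernel⟩

def k12_pp_022_t : ∃ t, chk3 f_pp_022_t t 18 28 1 = true :=
  ⟨(a (b (a (l 16700392) (l 16709992)) (b (a (l 16712224) (l 16740344)) (a (l 16726352) (c (l 16728680) (l 16727984))))) (b (a (l 16720928) (l 16730584)) (a (b (l 16726528) (l 16738224)) (b (l 16733712) (l 16748112))))), by decide +kernel⟩

def k13_pp_022_t : ∃ t, chk3 f_pp_022_t t 18 58 1 = true :=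
  ⟨(a (a (a (b (l 16728256) (l 16747816)) (b (l 16731920) (l 16751520))) (b (b (l 16745616) (l 16750176)) (a (c (l 16745024) (l 16744424)) (c (l 16759160) (l 16758648))))) (a (b (a (l 16753400) (l 16757064)) (c (l 16759400) (l 16759336))) (a (b (l 16750248) (l 16764760)) (b (l 16759160) (a (l 16767536) (l 16769392)))))), by decide +kernel⟩

def k14_pp_022_t : ∃ t, chk3 f_pp_022_t t 18 59 1 = true :=
  ⟨(b (b (a (a (a (l 16744208) (l 16747936)) (a (l 16751656) (l 16765864))) (a (a (l 16769584) (l 16768064)) (a (l 16771776) (c (l 16775552) (l 16775440))))) (a (a (a (l 16748848) (l 16752592)) (a (l 16766816) (l 16767928))) (a (a (l 16769040) (l 16771456)) (a (c (l 16775240) (l 16773816)) (b (c (l 16776448) (l 16776392)) (a (l 16777856) (a (b (l 16776040) (l 56069459127)) (b (l 16778952) (l 156464318183))))))))) (a (a (a (b (l 16764008) (c (l 16758456) (l 16758024))) (b (l 16762520) (c (l 16767424) (l 16767080)))) (a (b (c (l 16766448) (l 16766096)) (l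 16768728)) (b (l 16767400) (a (l 16771216) (l 16773096))))) (a (b (a (c (l 16773856) (l 16773680)) (a (l 16773952) (a (l 16775360) (l 16776288)))) (a (a (a (l 16774504) (l 16775448)) (b (l 16775656) (a (l 16774960) (l 16778520)))) (b (a (l 16777528) (b (l 16778808) (a (l 16778888) (l 134989481111)))) (b (b (a (l 16779032) (l 152706222039)) (a (a (l 16776536) (l 67880619511)) (l 4))) (a (a (a (l 16778432) (l 99019131479)) (l 4)) (l 4)))))) (b (a (a (b (l 16776504) (a (l 16778416) (a (l 16778472) (b (l 16776368) (l 88818584103))))) (b (c (l 16778392) (l 16778360)) (b (a (l 44258298823) (l 145190028743)) (l 160759286551)))) (b (a (a (b (l 16779176) (l 129620771783)) (b (l 75396812119) (l 4))) (l 4)) (l 4))) (a (b (b (a (a (a (l 57680072103) (l 115662129879)) (l 4)) (l 4)) (l 4)) (l 4)) (l 4)))))), by decide +kernel⟩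

def k15_pp_022_t : ∃ t, chk3 f_pp_022_t t 19 28 1 = true :=
  ⟨(b (b (a (a (l 16735696) (c (l 16750880) (l 16750760))) (a (l 16737360) (l 16755320))) (a (a (l 16731744) (a (l 16747624) (l 16751312))) (a (l 16756928) (l 16760480)))) (a (a (b (l 16751416) (l 16758352)) (b (a (l 16746376) (a (l 16759592) (l 16759472))) (c (l 16765424) (l 16765264)))) (a (b (a (b (l 16751432) (l 16763904)) (l 16767968)) (b (a (b (l 16770008) (l 16772336)) (l 16764416)) (b (a (l 16774672) (l 16773152)) (a (l 16766528) (a (l 16774552) (l 16771176)))))) (b (a (l 16771712) (l 16771512)) (b (a (l 16773400) (c (l 16774528) (l 16777096))) (a (a (l 16777120) (l 16776368)) (a (b (l 16774440) (a (l 16778936) (b (l 16776656) (l 93113553655)))) (a (b (l 16775832) (c (l 140358190791) (l 141968803463))) (b (c (l 27615300471) (l 16779400)) (l 4)))))))))), by decide +kernel⟩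

def k16_pp_022_t : ∃ t, chk3 f_pp_022_t t 38 29 1 = true :=
  ⟨(b (a (a (b (l 16762840) (b (l 16769824) (l 16773200))) (b (l 16767840) (b (l 16773528) (a (l 16777296) (c (l 16776552) (l 16776504)))))) (b (b (c (l 16769784) (l 16769656)) (a (l 16772552) (l 16776256))) (b (a (c (l 16775960) (l 16774576)) (b (c (l 16778480) (l 16777136)) (a (c (l 16778592) (l 16778576)) (a (b (l 16779392) (l 144653157687)) (b (l 82376135671) (l 4)))))) (a (a (b (l 16777216) (b (l 16778984) (a (l 16779056) (l 148411254183)))) (a (b (l 16778608) (c (l 143579416631) (l 145726900215))) (b (b (l 16776328) (l 80228650343)) (l 4)))) (b (b (a (a (l 61975039191) (l 160759285511)) (l 4)) (l 4)) (l 4)))))) (b (a (b (b (a (l 16776728) (a (l 16778864) (a (b (l 16776392) (l 85060488535)) (b (l 66806877191) (l 4))))) (a (a (l 16776848) (c (c (l 10972302231) (l 16778728)) (l 6677335607))) (a (a (b (l 16778216) (l 151632479815)) (c (l 145190029527) (l 147874384007))) (l 4)))) (a (b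 (b (a (l 16778624) (a (l 70564973735) (l 4))) (a (a (l 16779352) (l 75396813751)) (l 4))) (a (a (a (l 146263771047) (l 4)) (l 4)) (l 4))) (l 4))) (b (a (b (a (c (l 162369900391) (l 166127996663)) (l 4)) (l 4)) (l 4)) (l 4))) (l 4))), by decide +kernel⟩

def k17_pp_022_t : ∃ t, chk3 f_pp_022_t t 39 29 1 = true :=
  ⟨(b (a (a (b (b (l 16775280) (a (l 16776752) (b (l 16777112) (a (l 16779000) (b (l 16776720) (l 142505673927)))))) (b (b (a (a (b (l 16776272) (l 78081166583)) (b (l 60901297015) (l 4))) (c (l 161833029207) (l 164517383655))) (l 4)) (l 4))) (b (b (a (b (l 16776896) (l 16774000)) (a (b (l 16778296) (l 16778016)) (b (l 16773984) (a (l 16779376) (c (l 16779200) (l 16779192)))))) (b (b (a (l 16775760) (a (l 58753813303) (a (l 129620773303) (l 4)))) (a (c (l 34594622743) (l 31910268247)) (l 4))) (a (a (b (l 80765522839) (l 4)) (l 4)) (l 4)))) (l 4))) (b (b (a (b (a (l 16778008) (b (l 21172849783) (a (l 64659394279) (l 4)))) (a (b (a (l 16776680)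 (l 79154909367)) (l 149484996551)) (l 4))) (b (a (c (l 161296158119) (l 163980512567)) (l 4)) (l 4))) (l 4)) (l 4))) (l 4)), by decide +kernel⟩

def k18_pp_022_t : ∃ t, chk3 f_pp_022_t t 72 60 1 = true :=
  ⟨(b (a (a (b (l 16767304) (b (l 16765656) (l 16773320))) (b (l 16769192) (b (l 16772800) (l 16775216)))) (a (a (b (l 16770616) (b (l 16768976) (l 16776640))) (b (l 16771560) (l 16773760))) (c (b (l 16773088) (l 16775232)) (b (l 16772864) (l 16775128))))) (b (a (a (c (l 16774416) (l 16774272)) (b (l 16775024) (a (l 16776992) (l 16776640)))) (b (b (a (l 16773696) (l 16776904)) (a (l 16777536) (a (l 16777656) (b (l 16778304) (l 90966067831))))) (b (a (c (l 16778120) (l 16778096)) (a (b (l 54458845639) (l 151095608535)) (l 4))) (a (c (a (c (l 21172848775) (l 19562236023)) (c (l 131231384759) (l 132305126567))) (a (l 17951623431) (l 134989481095))) (l 4))))) (a (b (a (a (l 16776232) (b (l 16775256) (l 16778456))) (a (b (l 16777528) (a (c (l 49627007047)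 (l 50700748855)) (c (l 130157642615) (l 132841997159)))) (b (a (l 16778240) (a (l 57143199927) (l 69491231943))) (l 4)))) (a (a (c (b (c (l 16778256) (l 16778088)) (c (l 140358190583) (l 141968803303))) (b (l 16778400) (l 144116286919))) (b (b (c (l 71638714487) (l 72175585463)) (l 4)) (l 4))) (l 4))) (b (b (a (a (a (l 146800641271) (l 4)) (l 4)) (l 4)) (l 4)) (l 4))))), by decide +kernel⟩

def k19_pp_022_t : ∃ t, chk3 f_pp_022_t t 73 60 1 = true :=
  ⟨(b (b (a (a (l 16772240) (c (l 16774192) (l 16774064))) (a (b (l 16772192) (l 16776240)) (b (l 16776696) (a (l 16778472) (b (l 16776352) (a (l 52848233831) (l 140358190151))))))) (a (b (a (l 16775856) (a (l 16777280) (l 16778224))) (b (a (l 16777680) (a (l 16777792) (a (l 48553265511) (l 96334776903)))) (a (c (l 16778416) (l 16778232)) (a (b (l 58753814007) (l 4)) (l 4))))) (b (b (a (c (c (l 16778400) (l 16778392)) (l 16778696)) (a (a (l 88818584167) (l 4)) (l 4))) (a (a (a (l 16778232) (l 57680072167))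 (l 148948125319)) (l 4))) (l 4)))) (b (a (b (a (a (b (a (l 16778096) (l 54458845623)) (l 158074931095)) (a (b (l 134989480903) (l 4)) (l 4))) (l 4)) (l 4)) (l 4)) (l 4))), by decide +kernel⟩

def k20_pp_022_t : ∃ t, chk3 f_pp_022_t t 37 60 1 = true :=
  ⟨(b (a (b (a (b (b (a (l 16777976) (a (l 16778080) (a (l 64659394023) (l 152706221383)))) (a (a (l 16776088) (a (l 16776792) (l 49090137335))) (a (l 141431932295) (l 4)))) (b (a (a (a (l 16778376) (l 80765520679)) (l 161296156551)) (l 4)) (l 4))) (l 4)) (l 4)) (l 4)) (l 4)), by decide +kernel⟩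

def k21_pp_022_t : ∃ t, chk3 f_pp_022_t t 18 61 1 = true :=
  ⟨(l 4), by decide +kernel⟩

def k22_pp_022_t : ∃ t, chk3 f_pp_022_t t 19 30 1 = true :=
  ⟨(l 4), by decide +kernel⟩

def k23_pp_022_t : ∃ t, chk3 f_pp_022_t t 9 31 1 = true :=
  ⟨(l 4), by decide +kernel⟩

def k24_pp_022_t : ∃ t, chk3 f_pp_022_t t 10 12 1 = true :=
  ⟨(a (b (a (c (l 16685312) (l 16662856)) (c (l 16700296) (l 16698304))) (a (b (l 16681744) (b (l 16692184) (l 16699592))) (b (l 16696344) (c (l 16710864) (l 16710016))))) (b (b (a (l 16666584) (l 16681080)) (a (l 16698504) (l 16713096))) (a (b (l 16721600) (a (l 16721512) (l 16728920))) (b (c (l 16726608) (l 16724984)) (a (l 16736304) (l 16743632)))))), by decide +kernel⟩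

def k25_pp_022_t : ∃ t, chk3 f_pp_022_t t 20 13 1 = true :=
  ⟨(b (a (b (b (l 16707304) (l 16694352)) (a (l 16703256) (l 16710592))) (b (a (l 16722272) (l 16729608)) (a (l 16738896) (l 16746240)))) (b (a (a (l 16731304) (c (l 16749312) (l 16748976))) (a (b (l 16731064) (l 16740048)) (b (l 16738416) (l 16752648)))) (b (a (a (l 16734264) (l 16741664)) (a (l 16754280) (c (l 16767000) (l 16761488)))) (a (a (l 16748496) (l 16755904)) (a (a (l 16766680) (l 16770360)) (a (l 16768784) (a (l 16771536) (l 16773360)))))))), by decide +kernel⟩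

def k26_pp_022_t : ∃ t, chk3 f_pp_022_t t 21 26 1 = true :=
  ⟨(a (b (a (l 16736960) (l 16744328)) (a (c (l 16753816) (l 16753328)) (b (l 16756664) (l 16754752)))) (b (a (a (l 16749896) (l 16753584)) (c (l 16759448) (l 16758720))) (a (b (l 16743064) (l 16759480)) (b (l 16763560) (c (l 16769624) (l 16769320)))))), by decide +kernel⟩

def k27_pp_022_t : ∃ t, chk3 f_pp_022_t t 21 27 1 = true :=
  ⟨(b (a (a (b (l 16761488) (c (l 16765368) (l 16765072))) (b (c (l 16763736) (l 16763408)) (a (l 16770728) (l 16769144)))) (b (a (a (l 16769080) (l 16772752)) (a (l 16771176) (b (l 16767376) (l 16774432)))) (a (a (c (l 16772872) (l 16772712)) (b (l 16774208) (a (l 16777760) (l 16776968)))) (b (a (c (l 16775280) (l 16772576)) (b (c (l 16779128) (l 16780392)) (a (c (l 20635979383) (l 16779128)) (c (l 141431932775) (l 142505674519))))) (a (a (b (l 16775048) (a (l 27615300935) (a (l 88818584999) (l 143579415815)))) (b (b (l 16776328) (l 83449875063)) (l 172033576231)))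 (b (a (l 154853706295) (l 4)) (l 4))))))) (a (b (a (a (l 16767136) (l 16770792)) (b (a (l 16772200) (l 16775848)) (a (l 16776672) (b (l 16776576) (a (l 16775272) (a (l 18488495207) (a (l 79691779479) (l 136600093607)))))))) (a (b (a (l 16773856) (c (l 16774920) (l 16774840))) (a (a (l 16777432) (l 16776632)) (b (a (l 16774704) (a (l 16776080) (a (l 16778744) (l 73786197911)))) (b (a (l 16779024) (l 153779963623)) (a (a (l 16778392) (l 158074930487)) (l 4)))))) (b (a (b (c (l 16777424) (l 16777384)) (a (c (l 16778760) (l 16778736)) (a (a (l 74323069111) (l 132841996423)) (l 158074931223)))) (a (b (b (a (l 16776496) (l 88281713287)) (l 147337511735)) (l 4)) (l 4))) (a (b (a (c (b (l 134989480247) (l 4)) (l 146800641927)) (l 4)) (l 4)) (l 4))))) (b (a (b (b (a (l 16775752) (a (l 16778496) (a (a (l 33520880503) (l 86671101431)) (l 146263770695)))) (a (c (a (l 16774472) (l 13119786183)) (l 16779296)) (a (c (b (l 80765522039) (l 170959833655)) (l 137673834599))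 (l 4)))) (a (b (b (a (l 16776128) (c (l 140895061239) (l 141968802999))) (a (c (l 75396810935) (l 74323070407)) (l 4))) (a (l 163980512215) (l 4))) (l 4))) (l 4)) (l 4)))), by decide +kernel⟩

def k28_pp_022_t : ∃ t, chk3 f_pp_022_t t 11 12 1 = true :=
  ⟨(a (b (b (a (l 16694984) (l 16729400)) (a (a (l 16702696) (l 16709576)) (c (l 16741608) (l 16739824)))) (a (b (a (l 16715520) (l 16743456)) (a (c (l 16751320) (l 16750256)) (a (l 16756096) (l 16759608)))) (b (a (l 16750352) (l 16757184)) (a (a (l 16763104) (l 16766592)) (a (l 16770056) (l 16773512)))))) (b (a (b (l 16742488) (b (l 16750928) (l 16757152))) (b (l 16755184) (a (l 16763752) (l 16770136)))) (a (b (a (l 16763936) (l 16765376)) (a (c (l 16768424) (l 16778408)) (a (l 16775920) (b (l 16762344) (l 16775376))))) (b (a (l 16771984) (b (l 16759232) (l 16776936))) (b (b (a (l 16765464) (l 16777352)) (a (l 16779792) (a (l 16774344) (b (l 37815851223) (l 135526353127))))) (a (b (c (l 16781176) (l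 16783688)) (a (c (l 16780888) (l 16775592)) (b (l 84523622791) (l 4)))) (a (b (a (l 80228651447) (l 144653159511)) (l 4)) (l 4)))))))), by decide +kernel⟩

def k29_pp_022_t : ∃ t, chk3 f_pp_022_t t 22 13 1 = true :=
  ⟨(b (a (b (a (b (l 16762352) (l 16759936)) (b (l 16748504) (l 16767104))) (b (a (l 16763008) (c (l 16775592) (l 16775344))) (a (a (l 16769736) (l 16773384)) (b (a (l 16769608) (l 16778464)) (a (c (l 16779232) (l 16779168)) (a (b (l 16775584) (c (l 123178320695) (l 93113553975))) (b (l 78081168471) (l 4)))))))) (b (a (b (l 16766064) (l 16770952)) (b (l 16773088) (b (l 16779224) (a (l 16771144) (l 16779960))))) (b (b (a (a (l 16768248) (l 16771816)) (a (c (b (l 16774344) (l 29762787063)) (l 14193531399)) (b (a (l 16779664) (l 161296157255)) (l 170422964935)))) (a (a (l 16772504) (a (l 16780464) (b (l 16775928) (l 131768255815)))) (a (b (a (l 89892328695) (l 4)) (l 4)) (l 4)))) (a (b (a (b (l 11509175511) (a (l 39426462407) (l 163443641047)))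 (b (l 151095610951) (l 4))) (a (b (l 172033577895) (l 4)) (l 4))) (l 4))))) (b (a (b (a (a (b (l 16776288) (a (l 16777184) (b (l 16775280) (a (l 38352719399) (l 137673835751))))) (a (b (l 16773792) (b (a (l 16779312) (l 88818585735)) (l 4))) (b (b (l 16774512) (l 28689043815)) (l 172033577863)))) (b (a (b (a (l 16778992) (l 136063223303)) (a (l 148411255031) (l 4))) (l 4)) (l 4))) (a (b (a (a (a (b (l 82913005543) (l 4)) (l 167201738663)) (l 4)) (l 4)) (l 4)) (l 4))) (l 4)) (l 4))), by decide +kernel⟩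

def k30_pp_022_t : ∃ t, chk3 f_pp_022_t t 23 13 1 = true :=
  ⟨(b (b (a (b (a (b (l 16778032) (l 16776856)) (b (a (l 16772728) (a (l 16775336) (l 68417494039))) (a (b (l 16781088) (l 81302394919)) (l 161296159847)))) (a (b (a (l 16774016) (b (l 16780408) (l 132305127527))) (a (b (a (l 16776304) (l 90966073639)) (l 148411256231)) (l 4))) (b (a (l 168812353879) (l 4)) (l 4)))) (b (a (b (a (b (l 133915740279) (l 4)) (l 4)) (l 4)) (l 4)) (l 4))) (l 4)) (l 4)), by decide +kernel⟩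

def k31_pp_022_t : ∃ t, chk3 f_pp_022_t t 20 56 1 = true :=
  ⟨(a (b (a (l 16758184) (a (l 16768328) (l 16766776))) (a (a (l 16770000) (l 16768472)) (a (c (l 16772224) (l 16772104)) (b (l 16773576) (b (l 16776984) (l 16776640)))))) (b (a (a (l 16771112) (b (l 16771872) (l 16776384))) (b (a (l 16775536) (a (l 16775656) (b (l 16773728) (l 3456109623)))) (a (a (l 16776512) (b (l 16774584) (a (l 16779024) (b (l 16776744) (l 151095608455))))) (b (b (a (l 16775848) (a (l 73786198503) (l 168812349031))) (a (c (l 33520880775) (l 16778968)) (l 4))) (a (c (b (l 148948125255) (l 4)) (l 157538060791)) (l 4)))))) (a (b (a (c (l 16774664) (l 16777216)) (b (c (l 16777176) (l 16777136)) (a (l 16778520) (b (a (l 16776704) (l 88818585767)) (l 155927447431))))) (a (a (a (l 16778792) (b (l 16774960) (b (l 16776672) (l 99019133655)))) (a (b (l 16775872) (c (l 145726899879) (l 146800641639))) (b (c (l 27615300535) (l 16779432)) (l 4)))) (b (a (a (b (l 16778464) (l 4))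 (l 166127995367)) (l 4)) (l 4)))) (b (a (b (a (b (l 20635978983) (a (l 75933683447) (l 4))) (l 170422963543)) (l 4)) (l 4)) (l 4))))), by decide +kernel⟩

def k32_pp_022_t : ∃ t, chk3 f_pp_022_t t 20 57 1 = true :=
  ⟨(a (b (a (b (a (l 16771616) (l 16775320)) (a (l 16776216) (a (l 16776376) (a (l 16778752) (b (l 16774912) (b (l 16776640) (l 94724166327))))))) (b (a (b (l 16777872) (c (l 16778872) (l 16777528))) (b (a (l 16778008) (b (l 19562237031) (a (l 79154907767) (l 4)))) (a (b (a (l 16776656) (l 82913005655)) (l 151632480071)) (l 4)))) (a (b (b (a (l 16775720) (a (l 16778432) (l 157001188791))) (a (c (l 31373396903) (l 16779512)) (l 169349221015))) (a (c (b (l 139821319607) (l 4)) (l 150021867911)) (l 4))) (l 4)))) (a (b (a (b (c (l 16777072) (l 16777040)) (a (l 16778456) (b (a (l 16776648) (l 79691780199)) (l 149484996455)))) (b (b (a (l 20635978823) (l 160759286007)) (a (a (l 66270007095) (l 168275478375)) (l 4))) (l 4))) (a (b (a (a (b (l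 16778440) (l 4)) (l 160759286263)) (l 4)) (l 4)) (l 4))) (l 4))) (b (a (b (a (b (a (l 166127996183) (l 4)) (l 4)) (l 4)) (l 4)) (l 4)) (l 4))), by decide +kernel⟩

def k33_pp_022_t : ∃ t, chk3 f_pp_022_t t 21 28 1 = true :=
  ⟨(b (a (b (a (b (a (b (a (l 16778176) (c (b (l 26004687671) (l 141968803063)) (b (l 16779456) (l 142505673911)))) (a (a (b (l 16776792) (l 154316834007)) (l 153243092791)) (l 4))) (b (a (l 171496705511) (l 4)) (l 4))) (l 4)) (l 4)) (l 4)) (l 4)) (l 4)), by decide +kernel⟩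

def k34_pp_022_t : ∃ t, chk3 f_pp_022_t t 10 29 1 = true :=
  ⟨(l 4), by decide +kernel⟩

def k35_pp_022_t : ∃ t, chk3 f_pp_022_t t 10 15 1 = true :=
  ⟨(l 4), by decide +kernel⟩

def k36_pp_022_t : ∃ t, chk3 f_pp_022_t t 11 7 1 = true :=
  ⟨(l 4), by decide +kernel⟩

def k37_pp_022_t : ∃ t, chk3 f_pp_022_t t 3 2 1 = true :=
  ⟨(a (b (a (b (a (l 6) (l 16672880)) (a (l 16692728) (l 16730168))) (a (b (l 16685552) (l 16745504)) (a (b (l 16631632) (l 16735256)) (l 2)))) (a (b (a (b (l 16682072) (l 16743576)) (b (l 16742376) (a (l 16716400) (l 16725664)))) (a (b (a (l 16713504) (l 16745344)) (a (b (l 16726520) (l 16756952)) (b (l 16737776) (l 16768496)))) (b (a (l 16755504) (l 16770472)) (b (a (l 16769400) (l 16779376)) (a (c (l 16779936) (l 16779000)) (a (l 16776752) (b (l 16768656) (c (l 16782832) (l 16784616))))))))) (b (a (b (l 16738624) (a (l 16755840) (l 16743720))) (b (a (l 16729824) (l 16737792)) (a (l 16773080) (a (l 16779344) (l 2))))) (a (b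 (a (b (l 16749040) (l 16779152)) (b (l 16758104) (l 16782096))) (a (a (b (l 16765648) (b (l 16781432) (b (a (l 16776552) (l 103850976807)) (l 137673839847)))) (b (l 16780880) (b (b (l 61438177895) (l 119420227367)) (l 4)))) (b (b (a (l 16772472) (c (l 66270019543) (l 65196277543))) (a (b (l 53385112743) (l 110293420391)) (l 4))) (l 4)))) (b (a (b (l 16777280) (b (a (l 16771632) (c (l 49627018855) (l 16786648))) (a (c (l 59290696615) (l 59827567287)) (l 128010163815)))) (b (b (a (l 16770784) (l 16782992)) (a (l 45332051655) (l 117272753703))) (b (a (l 122104582583) (l 4)) (l 4)))) (a (b (b (a (l 134452616023) (l 4)) (l 4)) (l 4)) (l 4))))))) (b (l 2) (b (l 2) (b (l 2) (l 4))))), by decide +kernel⟩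

def k38_pp_022_t : ∃ t, chk3 f_pp_022_t t 3 3 1 = true :=
  ⟨(a (b (b (a (a (b (a (b (c (l 16768112) (l 16766872)) (a (l 16776440) (l 16777400))) (b (a (l 16776440) (l 16782248)) (b (a (l 16764488) (l 16780920)) (a (l 16781640) (a (a (l 16780776) (b (l 16774728) (l 92039818359))) (b (l 51237626263) (l 155390579943))))))) (b (a (b (a (l 16776144) (c (l 16781296) (l 16782432))) (b (a (l 16776344) (a (l 27615304679) (l 133915739767))) (a (c (a (l 16773288) (l 37815852599)) (l 20099115271)) (a (l 144116289527) (l 4))))) (b (a (b (a (l 16774920) (b (l 51237624119) (l 138747579031))) (a (b (l 86134234071) (l 157538061959)) (l 4))) (l 4)) (l 4))) (a (b (a (b (a (a (l 16778944) (l 84523619943)) (l 160759288903)) (l 4)) (l 4)) (l 4)) (l 4)))) (b (a (b (a (l 16777424) (b (l 16769456) (a (l 16779352) (b (l 16775288) (l 95797913143))))) (b (a (b (a (l 16773176) (l 16781400)) (a (l 42647690775) (l 133915741575))) (b (a (l 124788935143) (l 4)) (l 4))) (a (b (l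 152706226839) (l 4)) (l 4)))) (b (b (a (c (b (l 16773392) (l 48016403831)) (l 35131503319)) (b (a (l 16782424) (l 142505676727)) (l 4))) (a (b (a (l 82913014759) (l 4)) (l 4)) (l 4))) (l 4))) (l 4))) (l 4)) (l 4)) (l 4)) (l 4)), by decide +kernel⟩

theorem s39_pp_022_t : ∃ t, chk3 f_pp_022_t t 3 1 1 = true := ex3_b k37_pp_022_t k38_pp_022_t

theorem s40_pp_022_t : ∃ t, chk3 f_pp_022_t t 20 28 1 = true := ex3_b k31_pp_022_t k32_pp_022_t

theorem s41_pp_022_t : ∃ t, chk3 f_pp_022_t t 10 28 1 = true := ex3_a s40_pp_022_t k33_pp_022_t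

theorem s42_pp_022_t : ∃ t, chk3 f_pp_022_t t 10 14 1 = true := ex3_b s41_pp_022_t k34_pp_022_t

theorem s43_pp_022_t : ∃ t, chk3 f_pp_022_t t 10 7 1 = true := ex3_b s42_pp_022_t k35_pp_022_t

theorem s44_pp_022_t : ∃ t, chk3 f_pp_022_t t 5 7 1 = true := ex3_a s43_pp_022_t k36_pp_022_t

theorem s45_pp_022_t : ∃ t, chk3 f_pp_022_t t 11 13 1 = true := ex3_a k29_pp_022_t k30_pp_022_t

theorem s46_pp_022_t : ∃ t, chk3 f_pp_022_t t 11 6 1 = true := ex3_b k28_pp_022_t s45_pp_022_t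

theorem s47_pp_022_t : ∃ t, chk3 f_pp_022_t t 21 13 1 = true := ex3_b k26_pp_022_t k27_pp_022_t

theorem s48_pp_022_t : ∃ t, chk3 f_pp_022_t t 10 13 1 = true := ex3_a k25_pp_022_t s47_pp_022_t

theorem s49_pp_022_t : ∃ t, chk3 f_pp_022_t t 10 6 1 = true := ex3_b k24_pp_022_t s48_pp_022_t

theorem s50_pp_022_t : ∃ t, chk3 f_pp_022_t t 5 6 1 = true := ex3_a s49_pp_022_t s46_pp_022_t

theorem s51_pp_022_t : ∃ t, chk3 f_pp_022_t t 5 3 1 = true := ex3_b s50_pp_022_t s44_pp_022_t

theorem s52_pp_022_t : ∃ t, chk3 f_pp_022_t t 36 60 1 = true := ex3_a k18_pp_022_t k19_pp_022_t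

theorem s53_pp_022_t : ∃ t, chk3 f_pp_022_t t 18 60 1 = true := ex3_a s52_pp_022_t k20_pp_022_t

theorem s54_pp_022_t : ∃ t, chk3 f_pp_022_t t 18 30 1 = true := ex3_b s53_pp_022_t k21_pp_022_t

theorem s55_pp_022_t : ∃ t, chk3 f_pp_022_t t 9 30 1 = true := ex3_a s54_pp_022_t k22_pp_022_t

theorem s56_pp_022_t : ∃ t, chk3 f_pp_022_t t 9 15 1 = true := ex3_b s55_pp_022_t k23_pp_022_t

theorem s57_pp_022_t : ∃ t, chk3 f_pp_022_t t 19 29 1 = true := ex3_a k16_pp_022_t k17_pp_022_t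

theorem s58_pp_022_t : ∃ t, chk3 f_pp_022_t t 19 14 1 = true := ex3_b k15_pp_022_t s57_pp_022_t

theorem s59_pp_022_t : ∃ t, chk3 f_pp_022_t t 18 29 1 = true := ex3_b k13_pp_022_t k14_pp_022_t

theorem s60_pp_022_t : ∃ t, chk3 f_pp_022_t t 18 14 1 = true := ex3_b k12_pp_022_t s59_pp_022_t

theorem s61_pp_022_t : ∃ t, chk3 f_pp_022_t t 9 14 1 = true := ex3_a s60_pp_022_t s58_pp_022_t

theorem s62_pp_022_t : ∃ t, chk3 f_pp_022_t t 9 7 1 = true := ex3_b s61_pp_022_t s56_pp_022_t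

theorem s63_pp_022_t : ∃ t, chk3 f_pp_022_t t 35 122 1 = true := ex3_b k8_pp_022_t k9_pp_022_t

theorem s64_pp_022_t : ∃ t, chk3 f_pp_022_t t 35 61 1 = true := ex3_b s63_pp_022_t k10_pp_022_t

theorem s65_pp_022_t : ∃ t, chk3 f_pp_022_t t 34 61 1 = true := ex3_b k6_pp_022_t k7_pp_022_t

theorem s66_pp_022_t : ∃ t, chk3 f_pp_022_t t 17 61 1 = true := ex3_a s65_pp_022_t s64_pp_022_t

theorem s67_pp_022_t : ∃ t, chk3 f_pp_022_t t 17 30 1 = true := ex3_b k5_pp_022_t s66_pp_022_t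

theorem s68_pp_022_t : ∃ t, chk3 f_pp_022_t t 17 15 1 = true := ex3_b s67_pp_022_t k11_pp_022_t

theorem s69_pp_022_t : ∃ t, chk3 f_pp_022_t t 8 15 1 = true := ex3_a k4_pp_022_t s68_pp_022_t

theorem s70_pp_022_t : ∃ t, chk3 f_pp_022_t t 8 14 1 = true := ex3_a k2_pp_022_t k3_pp_022_t

theorem s71_pp_022_t : ∃ t, chk3 f_pp_022_t t 8 7 1 = true := ex3_b s70_pp_022_t s69_pp_022_t

theorem s72_pp_022_t : ∃ t, chk3 f_pp_022_t t 4 7 1 = true := ex3_a s71_pp_022_t s62_pp_022_t

theorem s73_pp_022_t : ∃ t, chk3 f_pp_022_t t 4 3 1 = true := ex3_b k1_pp_022_t s72_pp_022_t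

theorem s74_pp_022_t : ∃ t, chk3 f_pp_022_t t 2 3 1 = true := ex3_a s73_pp_022_t s51_pp_022_t

theorem s75_pp_022_t : ∃ t, chk3 f_pp_022_t t 2 1 1 = true := ex3_b k0_pp_022_t s74_pp_022_t

theorem s76_pp_022_t : ∃ t, chk3 f_pp_022_t t 1 1 1 = true := ex3_a s75_pp_022_t s39_pp_022_t

theorem c_pp_022_t : CertNE 0 536870912 0 536870912 536870912 50465866 3 eng mog cd0q0 cd0q2 pd2 true true true .pp 0 2 2
    ndB0q0 ndB0q2 pcB2 cut_pp_022_t Ext.none :=
  certNE0 (fam := true) (s1 := true) (s2 := true) (a := 0) (b := 2) (c := 2) (cn := .pp) (n1 := ndB0q0) (n2 := ndB0q2) (pc := pcB2) (cut := cut_pp_022_t) (xt := Ext.none) (P1 := 0) (W1 := 536870912) (P2 := 0) (W2 := 536870912) (P3 := 536870912) (W3 := 50465866) (N0 := 3) (En := eng) (mo := mog) (C1 := cd0q0) (C2 := cd0q2) (C3 := pd2)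
    rfl s76_pp_022_t

noncomputable def cut_pp_023_s : Cut := Cut.of [[⟨4, 0, 0, 1449551462⟩]]

noncomputable def f_pp_023_s : ℕ → ℕ → ℕ → ℕ → Bool := onCell 0 536870912 0 536870912 536870912 50465866
    (rowNE 3 eng mog cd0q0 cd0q2 pd3 0 true true true .up 0 2 3 (qsf 0 536870912 0 536870912 3) ndB0q0 ndB0q2 pcB3 cut_pp_023_s Ext.none)

def k0_pp_023_s : ∃ t, chk3 f_pp_023_s t 1 1 1 = true :=
  ⟨(l 6), by decide +kernel⟩

theorem c_pp_023_s : CertNE 0 536870912 0 536870912 536870912 50465866 3 eng mog cd0q0 cd0q2 pd3 true true true .up 0 2 3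
    ndB0q0 ndB0q2 pcB3 cut_pp_023_s Ext.none :=
  certNE0 (fam := true) (s1 := true) (s2 := true) (a := 0) (b := 2) (c := 3) (cn := .up) (n1 := ndB0q0) (n2 := ndB0q2) (pc := pcB3) (cut := cut_pp_023_s) (xt := Ext.none) (P1 := 0) (W1 := 536870912) (P2 := 0) (W2 := 536870912) (P3 := 536870912) (W3 := 50465866) (N0 := 3) (En := eng) (mo := mog) (C1 := cd0q0) (C2 := cd0q2) (C3 := pd3)
    rfl k0_pp_023_s

noncomputable def cut_pp_023_t : Cut := Cut.of [[⟨3, 0, 0, 2845415833⟩]]

noncomputable def f_pp_023_t : ℕ → ℕ → ℕ → ℕ → Bool := onCell 1610612736 536870912 0 536870912 536870912 50465866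
    (rowNE 3 eng mog cd0q0 cd0q2 pd3 2 true true true .up 0 2 3 (qsf 0 536870912 0 536870912 3) ndB0q0 ndB0q2 pcB3 cut_pp_023_t Ext.none)

def k0_pp_023_t : ∃ t, chk3 f_pp_023_t t 1 1 1 = true :=
  ⟨(a (b (a (b (a (b (a (b (l 16678448) (l 16691056)) (b (l 16678768) (l 16694608))) (a (b (l 16706464) (l 16768328)) (a (l 16764472) (b (l 16715304) (l 16739776))))) (b (a (b (l 16685448) (l 16726128)) (b (l 16722984) (a (l 16731112) (l 16744904)))) (a (b (a (l 16719872) (l 16735440)) (a (l 16767928) (b (l 16753016) (l 16786560)))) (b (a (l 16749616) (l 16782216)) (a (b (l 16765216) (b (l 45332064055) (a (l 16786936) (l 146263770919)))) (b (b (l 16788216) (a (l 16775104) (l 107072216295))) (a (l 144116287703) (l 4)))))))) (a (b (a (b (a (l 16745192) (l 16750776)) (a (b (l 16760288) (b (l 16767520) (l 22246606007))) (b (l 16787752) (b (a (l 16772592) (l 57143216647)) (a (b (l 16786952) (l 98482275383)) (l 140358194919)))))) (b (a (l 16778376) (b (l 16758888)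 (a (l 16769072) (b (l 16770408) (l 62511928375))))) (a (b (b (l 16782088) (a (l 16785688) (l 96334797799))) (b (a (l 125862677959) (l 4)) (l 4))) (b (b (a (l 75933701751) (l 4)) (l 4)) (l 4))))) (a (b (b (a (b (a (l 16784528) (b (l 71638728823) (l 133915742727))) (a (l 120493969767) (l 4))) (l 4)) (l 4)) (l 4)) (l 4))) (b (b (a (a (a (b (l 16765400) (b (l 16786168) (l 137136966695))) (b (l 16791472) (l 135526375799))) (b (b (a (l 16772464) (l 80765539175)) (a (l 92039830343) (l 4))) (l 4))) (l 4)) (l 4)) (l 4)))) (a (b (b (a (b (l 16780944) (a (l 16756232) (l 16765072))) (l 2)) (a (b (a (b (l 16766496) (a (l 16772208) (l 61975058151))) (b (l 46942676983) (b (l 97945423223) (l 4)))) (a (a (b (l 125325804407) (l 4)) (l 4)) (l 4))) (l 2))) (l 4)) (l 2))) (l 4)) (l 2)), by decide +kernel⟩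

theorem c_pp_023_t : CertNE 0 536870912 0 536870912 536870912 50465866 3 eng mog cd0q0 cd0q2 pd3 true true true .up 0 2 3
    ndB0q0 ndB0q2 pcB3 cut_pp_023_t Ext.none :=
  certNE2 (fam := true) (s1 := true) (s2 := true) (a := 0) (b := 2) (c := 3) (cn := .up) (n1 := ndB0q0) (n2 := ndB0q2) (pc := pcB3) (cut := cut_pp_023_t) (xt := Ext.none) (P1 := 0) (W1 := 536870912) (P2 := 0) (W2 := 536870912) (P3 := 536870912) (W3 := 50465866) (N0 := 3) (En := eng) (mo := mog) (C1 := cd0q0) (C2 := cd0q2) (C3 := pd3)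
    rfl (fun _ => rfl) k0_pp_023_t

noncomputable def cut_pp_101_s : Cut := Cut.of [[⟨4, 0, 0, 1449551462⟩]]

noncomputable def f_pp_101_s : ℕ → ℕ → ℕ → ℕ → Bool := onCell 536870912 536870912 0 536870912 536870912 50465866
    (rowNE 3 eng mog cd0q1 cd0q0 pd1 0 true true true .npn 1 0 1 (qsf 536870912 536870912 0 536870912 1) ndB0q1 ndB0q0 pcB1 cut_pp_101_s Ext.none)

def k0_pp_101_s : ∃ t, chk3 f_pp_101_s t 1 1 1 = true :=
  ⟨(l 6), by decide +kernel⟩

theorem c_pp_101_s : CertNE 536870912 536870912 0 536870912 536870912 50465866 3 eng mog cd0q1 cd0q0 pd1 true true true .npn 1 0 1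
    ndB0q1 ndB0q0 pcB1 cut_pp_101_s Ext.none :=
  certNE0 (fam := true) (s1 := true) (s2 := true) (a := 1) (b := 0) (c := 1) (cn := .npn) (n1 := ndB0q1) (n2 := ndB0q0) (pc := pcB1) (cut := cut_pp_101_s) (xt := Ext.none) (P1 := 536870912) (W1 := 536870912) (P2 := 0) (W2 := 536870912) (P3 := 536870912) (W3 := 50465866) (N0 := 3) (En := eng) (mo := mog) (C1 := cd0q1) (C2 := cd0q0) (C3 := pd1)
    rfl k0_pp_101_s

noncomputable def cut_pp_101_t : Cut := Cut.of [[⟨3, 0, 0, 2845415833⟩]]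

noncomputable def f_pp_101_t : ℕ → ℕ → ℕ → ℕ → Bool := onCell 536870912 536870912 0 536870912 536870912 50465866
    (rowNE 3 eng mog cd0q1 cd0q0 pd1 0 true true true .npn 1 0 1 (qsf 536870912 536870912 0 536870912 1) ndB0q1 ndB0q0 pcB1 cut_pp_101_t Ext.none)

def k0_pp_101_t : ∃ t, chk3 f_pp_101_t t 1 1 1 = true :=
  ⟨(a (l 4) (l 5)), by decide +kernel⟩

theorem c_pp_101_t : CertNE 536870912 536870912 0 536870912 536870912 50465866 3 eng mog cd0q1 cd0q0 pd1 true true true .npn 1 0 1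
    ndB0q1 ndB0q0 pcB1 cut_pp_101_t Ext.none :=
  certNE0 (fam := true) (s1 := true) (s2 := true) (a := 1) (b := 0) (c := 1) (cn := .npn) (n1 := ndB0q1) (n2 := ndB0q0) (pc := pcB1) (cut := cut_pp_101_t) (xt := Ext.none) (P1 := 536870912) (W1 := 536870912) (P2 := 0) (W2 := 536870912) (P3 := 536870912) (W3 := 50465866) (N0 := 3) (En := eng) (mo := mog) (C1 := cd0q1) (C2 := cd0q0) (C3 := pd1)
    rfl k0_pp_101_t

noncomputable def cut_pp_102_s : Cut := Cut.of [[⟨4, 0, 0, 1449551462⟩]]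

noncomputable def f_pp_102_s : ℕ → ℕ → ℕ → ℕ → Bool := onCell 536870912 536870912 0 536870912 536870912 50465866
    (rowNE 3 eng mog cd0q1 cd0q0 pd2 0 true true true .npp 1 0 2 (qsf 536870912 536870912 0 536870912 2) ndB0q1 ndB0q0 pcB2 cut_pp_102_s Ext.none)

def k0_pp_102_s : ∃ t, chk3 f_pp_102_s t 1 1 1 = true :=
  ⟨(l 6), by decide +kernel⟩

theorem c_pp_102_s : CertNE 536870912 536870912 0 536870912 536870912 50465866 3 eng mog cd0q1 cd0q0 pd2 true true true .npp 1 0 2
    ndB0q1 ndB0q0 pcB2 cut_pp_102_s Ext.none :=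
  certNE0 (fam := true) (s1 := true) (s2 := true) (a := 1) (b := 0) (c := 2) (cn := .npp) (n1 := ndB0q1) (n2 := ndB0q0) (pc := pcB2) (cut := cut_pp_102_s) (xt := Ext.none) (P1 := 536870912) (W1 := 536870912) (P2 := 0) (W2 := 536870912) (P3 := 536870912) (W3 := 50465866) (N0 := 3) (En := eng) (mo := mog) (C1 := cd0q1) (C2 := cd0q0) (C3 := pd2)
    rfl k0_pp_102_s

noncomputable def cut_pp_102_t : Cut := Cut.of [[⟨3, 0, 0, 2845415833⟩]]

noncomputable def f_pp_102_t : ℕ → ℕ → ℕ → ℕ → Bool := onCell 536870912 536870912 0 536870912 536870912 50465866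
    (rowNE 3 eng mog cd0q1 cd0q0 pd2 0 true true true .npp 1 0 2 (qsf 536870912 536870912 0 536870912 2) ndB0q1 ndB0q0 pcB2 cut_pp_102_t Ext.none)

def k0_pp_102_t : ∃ t, chk3 f_pp_102_t t 1 1 1 = true :=
  ⟨(a (l 4) (l 5)), by decide +kernel⟩

theorem c_pp_102_t : CertNE 536870912 536870912 0 536870912 536870912 50465866 3 eng mog cd0q1 cd0q0 pd2 true true true .npp 1 0 2
    ndB0q1 ndB0q0 pcB2 cut_pp_102_t Ext.none :=
  certNE0 (fam := true) (s1 := true) (s2 := true) (a := 1) (b := 0) (c := 2) (cn := .npp) (n1 := ndB0q1) (n2 := ndB0q0) (pc := pcB2) (cut := cut_pp_102_t) (xt := Ext.none) (P1 := 536870912) (W1 := 536870912) (P2 := 0) (W2 := 536870912) (P3 := 536870912) (W3 := 50465866) (N0 := 3) (En := eng) (mo := mog) (C1 := cd0q1) (C2 := cd0q0) (C3 := pd2)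
    rfl k0_pp_102_t

noncomputable def cut_pp_112_s : Cut := Cut.of [[⟨4, 0, 0, 1449551462⟩]]

noncomputable def f_pp_112_s : ℕ → ℕ → ℕ → ℕ → Bool := onCell 536870912 536870912 536870912 536870912 536870912 50465866
    (rowNE 3 eng mog cd0q1 cd0q1 pd2 0 true true true .dn 1 1 2 (qsf 536870912 536870912 536870912 536870912 2) ndB0q1 ndB0q1 pcB2 cut_pp_112_s Ext.none)

def k0_pp_112_s : ∃ t, chk3 f_pp_112_s t 1 1 1 = true :=
  ⟨(l 4), by decide +kernel⟩

theorem c_pp_112_s : CertNE 536870912 536870912 536870912 536870912 536870912 50465866 3 eng mog cd0q1 cd0q1 pd2 true true true .dn 1 1 2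
    ndB0q1 ndB0q1 pcB2 cut_pp_112_s Ext.none :=
  certNE0 (fam := true) (s1 := true) (s2 := true) (a := 1) (b := 1) (c := 2) (cn := .dn) (n1 := ndB0q1) (n2 := ndB0q1) (pc := pcB2) (cut := cut_pp_112_s) (xt := Ext.none) (P1 := 536870912) (W1 := 536870912) (P2 := 536870912) (W2 := 536870912) (P3 := 536870912) (W3 := 50465866) (N0 := 3) (En := eng) (mo := mog) (C1 := cd0q1) (C2 := cd0q1) (C3 := pd2)
    rfl k0_pp_112_s

noncomputable def cut_pp_112_t : Cut := Cut.of [[⟨3, 0, 0, 2845415833⟩]]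

noncomputable def f_pp_112_t : ℕ → ℕ → ℕ → ℕ → Bool := onCell 536870912 536870912 536870912 536870912 536870912 50465866
    (rowNE 3 eng mog cd0q1 cd0q1 pd2 0 true true true .dn 1 1 2 (qsf 536870912 536870912 536870912 536870912 2) ndB0q1 ndB0q1 pcB2 cut_pp_112_t Ext.none)

def k0_pp_112_t : ∃ t, chk3 f_pp_112_t t 1 1 1 = true :=
  ⟨(l 4), by decide +kernel⟩

theorem c_pp_112_t : CertNE 536870912 536870912 536870912 536870912 536870912 50465866 3 eng mog cd0q1 cd0q1 pd2 true true true .dn 1 1 2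
    ndB0q1 ndB0q1 pcB2 cut_pp_112_t Ext.none :=
  certNE0 (fam := true) (s1 := true) (s2 := true) (a := 1) (b := 1) (c := 2) (cn := .dn) (n1 := ndB0q1) (n2 := ndB0q1) (pc := pcB2) (cut := cut_pp_112_t) (xt := Ext.none) (P1 := 536870912) (W1 := 536870912) (P2 := 536870912) (W2 := 536870912) (P3 := 536870912) (W3 := 50465866) (N0 := 3) (En := eng) (mo := mog) (C1 := cd0q1) (C2 := cd0q1) (C3 := pd2)
    rfl k0_pp_112_t

noncomputable def cut_pp_113_s : Cut := Cut.of [[⟨4, 0, 0, 1449551462⟩]]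

noncomputable def f_pp_113_s : ℕ → ℕ → ℕ → ℕ → Bool := onCell 536870912 536870912 536870912 536870912 536870912 50465866
    (rowNE 3 eng mog cd0q1 cd0q1 pd3 0 true true true .nn 1 1 3 (qsf 536870912 536870912 536870912 536870912 3) ndB0q1 ndB0q1 pcB3 cut_pp_113_s Ext.none)

def k0_pp_113_s : ∃ t, chk3 f_pp_113_s t 1 1 1 = true :=
  ⟨(l 4), by decide +kernel⟩

theorem c_pp_113_s : CertNE 536870912 536870912 536870912 536870912 536870912 50465866 3 eng mog cd0q1 cd0q1 pd3 true true true .nn 1 1 3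
    ndB0q1 ndB0q1 pcB3 cut_pp_113_s Ext.none :=
  certNE0 (fam := true) (s1 := true) (s2 := true) (a := 1) (b := 1) (c := 3) (cn := .nn) (n1 := ndB0q1) (n2 := ndB0q1) (pc := pcB3) (cut := cut_pp_113_s) (xt := Ext.none) (P1 := 536870912) (W1 := 536870912) (P2 := 536870912) (W2 := 536870912) (P3 := 536870912) (W3 := 50465866) (N0 := 3) (En := eng) (mo := mog) (C1 := cd0q1) (C2 := cd0q1) (C3 := pd3)
    rfl k0_pp_113_s

noncomputable def cut_pp_113_t : Cut := Cut.of [[⟨3, 0, 0, 2845415833⟩]]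

noncomputable def f_pp_113_t : ℕ → ℕ → ℕ → ℕ → Bool := onCell 536870912 536870912 536870912 536870912 536870912 50465866
    (rowNE 3 eng mog cd0q1 cd0q1 pd3 0 true true true .nn 1 1 3 (qsf 536870912 536870912 536870912 536870912 3) ndB0q1 ndB0q1 pcB3 cut_pp_113_t Ext.none)

def k0_pp_113_t : ∃ t, chk3 f_pp_113_t t 1 1 1 = true :=
  ⟨(l 4), by decide +kernel⟩

theorem c_pp_113_t : CertNE 536870912 536870912 536870912 536870912 536870912 50465866 3 eng mog cd0q1 cd0q1 pd3 true true true .nn 1 1 3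
    ndB0q1 ndB0q1 pcB3 cut_pp_113_t Ext.none :=
  certNE0 (fam := true) (s1 := true) (s2 := true) (a := 1) (b := 1) (c := 3) (cn := .nn) (n1 := ndB0q1) (n2 := ndB0q1) (pc := pcB3) (cut := cut_pp_113_t) (xt := Ext.none) (P1 := 536870912) (W1 := 536870912) (P2 := 536870912) (W2 := 536870912) (P3 := 536870912) (W3 := 50465866) (N0 := 3) (En := eng) (mo := mog) (C1 := cd0q1) (C2 := cd0q1) (C3 := pd3)
    rfl k0_pp_113_t

noncomputable def cut_pp_123_s : Cut := Cut.of [[⟨4, 0, 0, 1449551462⟩]]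

noncomputable def f_pp_123_s : ℕ → ℕ → ℕ → ℕ → Bool := onCell 536870912 536870912 0 536870912 536870912 50465866
    (rowNE 3 eng mog cd0q1 cd0q2 pd3 0 true true true .npn 1 2 3 (qsf 536870912 536870912 0 536870912 3) ndB0q1 ndB0q2 pcB3 cut_pp_123_s Ext.none)

def k0_pp_123_s : ∃ t, chk3 f_pp_123_s t 1 1 1 = true :=
  ⟨(l 6), by decide +kernel⟩

theorem c_pp_123_s : CertNE 536870912 536870912 0 536870912 536870912 50465866 3 eng mog cd0q1 cd0q2 pd3 true true true .npn 1 2 3
    ndB0q1 ndB0q2 pcB3 cut_pp_123_s Ext.none :=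
  certNE0 (fam := true) (s1 := true) (s2 := true) (a := 1) (b := 2) (c := 3) (cn := .npn) (n1 := ndB0q1) (n2 := ndB0q2) (pc := pcB3) (cut := cut_pp_123_s) (xt := Ext.none) (P1 := 536870912) (W1 := 536870912) (P2 := 0) (W2 := 536870912) (P3 := 536870912) (W3 := 50465866) (N0 := 3) (En := eng) (mo := mog) (C1 := cd0q1) (C2 := cd0q2) (C3 := pd3)
    rfl k0_pp_123_s

noncomputable def cut_pp_123_t : Cut := Cut.of [[⟨3, 0, 0, 2845415833⟩]]

noncomputable def f_pp_123_t : ℕ → ℕ → ℕ → ℕ → Bool := onCell 536870912 536870912 0 536870912 536870912 50465866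
    (rowNE 3 eng mog cd0q1 cd0q2 pd3 0 true true true .npn 1 2 3 (qsf 536870912 536870912 0 536870912 3) ndB0q1 ndB0q2 pcB3 cut_pp_123_t Ext.none)

def k0_pp_123_t : ∃ t, chk3 f_pp_123_t t 1 1 1 = true :=
  ⟨(a (b (a (b (a (b (a (b (l 16785872) (a (l 16791480) (b (l 16773480) (b (l 70564998359) (l 102777262231))))) (b (a (l 16772272) (b (l 16774552) (l 85597389287))) (a (b (l 85597392087) (l 4)) (l 4)))) (a (b (a (b (a (l 69491250039) (l 118883352503)) (l 4)) (l 4)) (l 4)) (l 4))) (b (a (b (a (b (l 88818613111) (l 4)) (l 4)) (l 4)) (l 4)) (l 4))) (l 4)) (l 4)) (l 4)) (l 4)), by decide +kernel⟩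

theorem c_pp_123_t : CertNE 536870912 536870912 0 536870912 536870912 50465866 3 eng mog cd0q1 cd0q2 pd3 true true true .npn 1 2 3
    ndB0q1 ndB0q2 pcB3 cut_pp_123_t Ext.none :=
  certNE0 (fam := true) (s1 := true) (s2 := true) (a := 1) (b := 2) (c := 3) (cn := .npn) (n1 := ndB0q1) (n2 := ndB0q2) (pc := pcB3) (cut := cut_pp_123_t) (xt := Ext.none) (P1 := 536870912) (W1 := 536870912) (P2 := 0) (W2 := 536870912) (P3 := 536870912) (W3 := 50465866) (N0 := 3) (En := eng) (mo := mog) (C1 := cd0q1) (C2 := cd0q2) (C3 := pd3)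
    rfl k0_pp_123_t

noncomputable def cut_pp_202_s : Cut := Cut.of [[⟨4, 0, 0, 1449551462⟩]]

noncomputable def f_pp_202_s : ℕ → ℕ → ℕ → ℕ → Bool := onCell 0 536870912 0 536870912 536870912 50465866
    (rowNE 3 eng mog cd0q2 cd0q0 pd2 0 true true true .pp 2 0 2 (qsf 0 536870912 0 536870912 2) ndB0q2 ndB0q0 pcB2 cut_pp_202_s Ext.none)

def k0_pp_202_s : ∃ t, chk3 f_pp_202_s t 1 1 1 = true :=
  ⟨(l 5), by decide +kernel⟩

theorem c_pp_202_s : CertNE 0 536870912 0 536870912 536870912 50465866 3 eng mog cd0q2 cd0q0 pd2 true true true .pp 2 0 2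
    ndB0q2 ndB0q0 pcB2 cut_pp_202_s Ext.none :=
  certNE0 (fam := true) (s1 := true) (s2 := true) (a := 2) (b := 0) (c := 2) (cn := .pp) (n1 := ndB0q2) (n2 := ndB0q0) (pc := pcB2) (cut := cut_pp_202_s) (xt := Ext.none) (P1 := 0) (W1 := 536870912) (P2 := 0) (W2 := 536870912) (P3 := 536870912) (W3 := 50465866) (N0 := 3) (En := eng) (mo := mog) (C1 := cd0q2) (C2 := cd0q0) (C3 := pd2)
    rfl k0_pp_202_s

noncomputable def cut_pp_202_t : Cut := Cut.of [[⟨3, 0, 0, 2845415833⟩]]

noncomputable def f_pp_202_t : ℕ → ℕ → ℕ → ℕ → Bool := onCell 0 536870912 0 536870912 536870912 50465866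
    (rowNE 3 eng mog cd0q2 cd0q0 pd2 0 true true true .pp 2 0 2 (qsf 0 536870912 0 536870912 2) ndB0q2 ndB0q0 pcB2 cut_pp_202_t Ext.none)

def k0_pp_202_t : ∃ t, chk3 f_pp_202_t t 1 1 1 = true :=
  ⟨(l 5), by decide +kernel⟩

theorem c_pp_202_t : CertNE 0 536870912 0 536870912 536870912 50465866 3 eng mog cd0q2 cd0q0 pd2 true true true .pp 2 0 2
    ndB0q2 ndB0q0 pcB2 cut_pp_202_t Ext.none :=
  certNE0 (fam := true) (s1 := true) (s2 := true) (a := 2) (b := 0) (c := 2) (cn := .pp) (n1 := ndB0q2) (n2 := ndB0q0) (pc := pcB2) (cut := cut_pp_202_t) (xt := Ext.none) (P1 := 0) (W1 := 536870912) (P2 := 0) (W2 := 536870912) (P3 := 536870912) (W3 := 50465866) (N0 := 3) (En := eng) (mo := mog) (C1 := cd0q2) (C2 := cd0q0) (C3 := pd2)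
    rfl k0_pp_202_t

noncomputable def cut_pp_203_s : Cut := Cut.of [[⟨4, 0, 0, 1449551462⟩]]

noncomputable def f_pp_203_s : ℕ → ℕ → ℕ → ℕ → Bool := onCell 0 536870912 0 536870912 536870912 50465866
    (rowNE 3 eng mog cd0q2 cd0q0 pd3 0 true true true .up 2 0 3 (qsf 0 536870912 0 536870912 3) ndB0q2 ndB0q0 pcB3 cut_pp_203_s Ext.none)

def k0_pp_203_s : ∃ t, chk3 f_pp_203_s t 1 1 1 = true :=
  ⟨(l 5), by decide +kernel⟩

theorem c_pp_203_s : CertNE 0 536870912 0 536870912 536870912 50465866 3 eng mog cd0q2 cd0q0 pd3 true true true .up 2 0 3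
    ndB0q2 ndB0q0 pcB3 cut_pp_203_s Ext.none :=
  certNE0 (fam := true) (s1 := true) (s2 := true) (a := 2) (b := 0) (c := 3) (cn := .up) (n1 := ndB0q2) (n2 := ndB0q0) (pc := pcB3) (cut := cut_pp_203_s) (xt := Ext.none) (P1 := 0) (W1 := 536870912) (P2 := 0) (W2 := 536870912) (P3 := 536870912) (W3 := 50465866) (N0 := 3) (En := eng) (mo := mog) (C1 := cd0q2) (C2 := cd0q0) (C3 := pd3)
    rfl k0_pp_203_s

noncomputable def cut_pp_203_t : Cut := Cut.of [[⟨3, 0, 0, 2845415833⟩]]

noncomputable def f_pp_203_t : ℕ → ℕ → ℕ → ℕ → Bool := onCell 0 536870912 0 536870912 536870912 50465866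
    (rowNE 3 eng mog cd0q2 cd0q0 pd3 0 true true true .up 2 0 3 (qsf 0 536870912 0 536870912 3) ndB0q2 ndB0q0 pcB3 cut_pp_203_t Ext.none)

def k0_pp_203_t : ∃ t, chk3 f_pp_203_t t 1 1 1 = true :=
  ⟨(l 5), by decide +kernel⟩

theorem c_pp_203_t : CertNE 0 536870912 0 536870912 536870912 50465866 3 eng mog cd0q2 cd0q0 pd3 true true true .up 2 0 3
    ndB0q2 ndB0q0 pcB3 cut_pp_203_t Ext.none :=
  certNE0 (fam := true) (s1 := true) (s2 := true) (a := 2) (b := 0) (c := 3) (cn := .up) (n1 := ndB0q2) (n2 := ndB0q0) (pc := pcB3) (cut := cut_pp_203_t) (xt := Ext.none) (P1 := 0) (W1 := 536870912) (P2 := 0) (W2 := 536870912) (P3 := 536870912) (W3 := 50465866) (N0 := 3) (En := eng) (mo := mog) (C1 := cd0q2) (C2 := cd0q0) (C3 := pd3)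
    rfl k0_pp_203_t

noncomputable def cut_pp_213_s : Cut := Cut.of [[⟨4, 0, 0, 1449551462⟩]]

noncomputable def f_pp_213_s : ℕ → ℕ → ℕ → ℕ → Bool := onCell 0 536870912 536870912 536870912 536870912 50465866
    (rowNE 3 eng mog cd0q2 cd0q1 pd3 0 true true true .pnn 2 1 3 (qsf 0 536870912 536870912 536870912 3) ndB0q2 ndB0q1 pcB3 cut_pp_213_s Ext.none)

def k0_pp_213_s : ∃ t, chk3 f_pp_213_s t 1 1 1 = true :=
  ⟨(l 6), by decide +kernel⟩

theorem c_pp_213_s : CertNE 0 536870912 536870912 536870912 536870912 50465866 3 eng mog cd0q2 cd0q1 pd3 true true true .pnn 2 1 3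
    ndB0q2 ndB0q1 pcB3 cut_pp_213_s Ext.none :=
  certNE0 (fam := true) (s1 := true) (s2 := true) (a := 2) (b := 1) (c := 3) (cn := .pnn) (n1 := ndB0q2) (n2 := ndB0q1) (pc := pcB3) (cut := cut_pp_213_s) (xt := Ext.none) (P1 := 0) (W1 := 536870912) (P2 := 536870912) (W2 := 536870912) (P3 := 536870912) (W3 := 50465866) (N0 := 3) (En := eng) (mo := mog) (C1 := cd0q2) (C2 := cd0q1) (C3 := pd3)
    rfl k0_pp_213_s

noncomputable def cut_pp_213_t : Cut := Cut.of [[⟨3, 0, 0, 2845415833⟩]]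

noncomputable def f_pp_213_t : ℕ → ℕ → ℕ → ℕ → Bool := onCell 0 536870912 536870912 536870912 536870912 50465866
    (rowNE 3 eng mog cd0q2 cd0q1 pd3 0 true true true .pnn 2 1 3 (qsf 0 536870912 536870912 536870912 3) ndB0q2 ndB0q1 pcB3 cut_pp_213_t Ext.none)

def k0_pp_213_t : ∃ t, chk3 f_pp_213_t t 1 1 1 = true :=
  ⟨(a (l 5) (l 4)), by decide +kernel⟩

theorem c_pp_213_t : CertNE 0 536870912 536870912 536870912 536870912 50465866 3 eng mog cd0q2 cd0q1 pd3 true true true .pnn 2 1 3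
    ndB0q2 ndB0q1 pcB3 cut_pp_213_t Ext.none :=
  certNE0 (fam := true) (s1 := true) (s2 := true) (a := 2) (b := 1) (c := 3) (cn := .pnn) (n1 := ndB0q2) (n2 := ndB0q1) (pc := pcB3) (cut := cut_pp_213_t) (xt := Ext.none) (P1 := 0) (W1 := 536870912) (P2 := 536870912) (W2 := 536870912) (P3 := 536870912) (W3 := 50465866) (N0 := 3) (En := eng) (mo := mog) (C1 := cd0q2) (C2 := cd0q1) (C3 := pd3)
    rfl k0_pp_213_t

noncomputable def cut_pm_001_s : Cut := Cut.of [[⟨4, 0, 0, 1449551462⟩]]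

noncomputable def f_pm_001_s : ℕ → ℕ → ℕ → ℕ → Bool := onCell 0 536870912 0 536870912 536870912 50465866
    (rowNE 3 eng mog cd0q0 cd0q0 pd1 0 true true false .up 0 0 1 (qsf 0 536870912 0 536870912 1) ndB0q0 ndB0q0 pcB1 cut_pm_001_s Ext.none)

def k0_pm_001_s : ∃ t, chk3 f_pm_001_s t 1 1 1 = true :=
  ⟨(l 3), by decide +kernel⟩

theorem c_pm_001_s : CertNE 0 536870912 0 536870912 536870912 50465866 3 eng mog cd0q0 cd0q0 pd1 true true false .up 0 0 1
    ndB0q0 ndB0q0 pcB1 cut_pm_001_s Ext.none :=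
  certNE0 (fam := true) (s1 := true) (s2 := false) (a := 0) (b := 0) (c := 1) (cn := .up) (n1 := ndB0q0) (n2 := ndB0q0) (pc := pcB1) (cut := cut_pm_001_s) (xt := Ext.none) (P1 := 0) (W1 := 536870912) (P2 := 0) (W2 := 536870912) (P3 := 536870912) (W3 := 50465866) (N0 := 3) (En := eng) (mo := mog) (C1 := cd0q0) (C2 := cd0q0) (C3 := pd1)
    rfl k0_pm_001_s

noncomputable def cut_pm_001_t : Cut := Cut.of [[⟨3, 0, 0, 2845415833⟩]]

noncomputable def f_pm_001_t : ℕ → ℕ → ℕ → ℕ → Bool := onCell 0 536870912 0 536870912 536870912 50465866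
    (rowNE 3 eng mog cd0q0 cd0q0 pd1 0 true true false .up 0 0 1 (qsf 0 536870912 0 536870912 1) ndB0q0 ndB0q0 pcB1 cut_pm_001_t Ext.none)

def k0_pm_001_t : ∃ t, chk3 f_pm_001_t t 1 1 1 = true :=
  ⟨(l 3), by decide +kernel⟩

theorem c_pm_001_t : CertNE 0 536870912 0 536870912 536870912 50465866 3 eng mog cd0q0 cd0q0 pd1 true true false .up 0 0 1
    ndB0q0 ndB0q0 pcB1 cut_pm_001_t Ext.none :=
  certNE0 (fam := true) (s1 := true) (s2 := false) (a := 0) (b := 0) (c := 1) (cn := .up) (n1 := ndB0q0) (n2 := ndB0q0) (pc := pcB1) (cut := cut_pm_001_t) (xt := Ext.none) (P1 := 0) (W1 := 536870912) (P2 := 0) (W2 := 536870912) (P3 := 536870912) (W3 := 50465866) (N0 := 3) (En := eng) (mo := mog) (C1 := cd0q0) (C2 := cd0q0) (C3 := pd1)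
    rfl k0_pm_001_t

noncomputable def cut_pm_011_s : Cut := Cut.of [[⟨4, 0, 0, 1449551462⟩], [⟨0, 0, 0, 67108864⟩, ⟨1, 1, 0, 67108864⟩, ⟨2, 1, 0, 67108864⟩]]

noncomputable def f_pm_011_s : ℕ → ℕ → ℕ → ℕ → Bool := onCell 536870912 536870912 536870912 536870912 536870912 50465866
    (rowNE 3 eng mog cd0q0 cd0q1 pd1 2 true true false .pnn 0 1 1 (qsf 0 536870912 536870912 536870912 1) ndB0q0 ndB0q1 pcB1 cut_pm_011_s Ext.none)

def k0_pm_011_s : ∃ t, chk3 f_pm_011_s t 1 1 1 = true :=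
  ⟨(a (l 3) (b (l 3) (a (l 3) (b (l 3) (a (l 3) (b (l 3) (a (l 3) (b (l 3) (l 14))))))))), by decide +kernel⟩

theorem c_pm_011_s : CertNE 0 536870912 536870912 536870912 536870912 50465866 3 eng mog cd0q0 cd0q1 pd1 true true false .pnn 0 1 1
    ndB0q0 ndB0q1 pcB1 cut_pm_011_s Ext.none :=
  certNE2 (fam := true) (s1 := true) (s2 := false) (a := 0) (b := 1) (c := 1) (cn := .pnn) (n1 := ndB0q0) (n2 := ndB0q1) (pc := pcB1) (cut := cut_pm_011_s) (xt := Ext.none) (P1 := 0) (W1 := 536870912) (P2 := 536870912) (W2 := 536870912) (P3 := 536870912) (W3 := 50465866) (N0 := 3) (En := eng) (mo := mog) (C1 := cd0q0) (C2 := cd0q1) (C3 := pd1)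
    rfl (fun _ => rfl) k0_pm_011_s

noncomputable def cut_pm_011_t : Cut := Cut.of [[⟨3, 0, 0, 2845415833⟩], [⟨0, 0, 0, 67108864⟩, ⟨1, 1, 0, 67108864⟩, ⟨2, 1, 0, 67108864⟩]]

noncomputable def f_pm_011_t : ℕ → ℕ → ℕ → ℕ → Bool := onCell 0 536870912 536870912 536870912 536870912 50465866
    (rowNE 3 eng mog cd0q0 cd0q1 pd1 0 true true false .pnn 0 1 1 (qsf 0 536870912 536870912 536870912 1) ndB0q0 ndB0q1 pcB1 cut_pm_011_t Ext.none)

def k0_pm_011_t : ∃ t, chk3 f_pm_011_t t 1 1 1 = true :=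
  ⟨(l 6), by decide +kernel⟩

theorem c_pm_011_t : CertNE 0 536870912 536870912 536870912 536870912 50465866 3 eng mog cd0q0 cd0q1 pd1 true true false .pnn 0 1 1
    ndB0q0 ndB0q1 pcB1 cut_pm_011_t Ext.none :=
  certNE0 (fam := true) (s1 := true) (s2 := false) (a := 0) (b := 1) (c := 1) (cn := .pnn) (n1 := ndB0q0) (n2 := ndB0q1) (pc := pcB1) (cut := cut_pm_011_t) (xt := Ext.none) (P1 := 0) (W1 := 536870912) (P2 := 536870912) (W2 := 536870912) (P3 := 536870912) (W3 := 50465866) (N0 := 3) (En := eng) (mo := mog) (C1 := cd0q0) (C2 := cd0q1) (C3 := pd1)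
    rfl k0_pm_011_t

end Pool.Agent.Strip051.G.I5000_5470.Tab.CS.BA00

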