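import Pool.Agent.Strip051.G.I5000_5470.Tab
import Pool.Agent.Strip051.PB.StripB

/-! # Strips, near vertex: certificates 1 (generated) -/

set_option linter.all false
set_option maxRecDepth 100000

namespace Pool.Agent.Strip051.G.I5000_5470.Tab.CS.BA00

open Pool.Agent.Strip051.PB Pool.Agent.Strip051.PB.T
open Pool.Agent.Strip051.G.I5000_5470.Tab

noncomputable def cut_pm_012_s : Cut := Cut.of [[⟨4, 0, 0, 1449551462⟩], [⟨0, 0, 0, 67108864⟩, ⟨1, 1, 0, 67108864⟩, ⟨2, 1, 0, 67108864⟩], [⟨0, 0, 1, 20971520⟩, ⟨1, 1, 0, 33554432⟩, ⟨2, 1, 1, 20971520⟩]]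

noncomputable def f_pm_012_s : ℕ → ℕ → ℕ → ℕ → Bool := onCell 1073741824 536870912 536870912 536870912 536870912 50465866
    (rowNE 3 eng mog cd0q0 cd0q1 pd2 2 true true false .pnp 0 1 2 (qsf 0 536870912 536870912 536870912 2) ndB0q0 ndB0q1 pcB2 cut_pm_012_s Ext.none)

def k0_pm_012_s : ∃ t, chk3 f_pm_012_s t 4 2 1 = true :=
  ⟨(b (l 3) (l 3)), by decide +kernel⟩

def k1_pm_012_s : ∃ t, chk3 f_pm_012_s t 8 6 1 = true :=
  ⟨(l 3), by decide +kernel⟩

def k2_pm_012_s : ∃ t, chk3 f_pm_012_s t 18 6 1 = true :=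
  ⟨(b (l 3) (a (l 3) (b (l 3) (a (l 3) (b (l 3) (a (l 3) (b (l 3) (b (a (l 3) (a (a (l 206326203719) (b (l 3) (l 16778424))) (b (c (l 60834189911) (l 60834189783)) (l 16776136)))) (a (a (b (l 3) (a (a (l 285783098199) (l 168208368055)) (b (l 88214604583) (l 16776784)))) (b (a (l 181630141047) (l 58686703031)) (l 16777448))) (b (c (l 16778144) (l 16775456)) (l 16776808))))))))))), by decide +kernel⟩

def k3_pm_012_s : ∃ t, chk3 f_pm_012_s t 19 12 1 = true :=
  ⟨(a (l 3) (b (l 3) (a (b (l 3) (a (l 3) (b (l 3) (a (l 3) (b (l 3) (l 233169748775)))))) (b (a (l 3) (b (a (l 3) (b (l 3) (c (l 223506071975) (l 228337909943)))) (b (a (l 3) (a (l 174650820247) (l 55465477415))) (a (c (a (l 3) (l 142975435847)) (l 137606735975)) (c (l 16775864) (l 16775808)))))) (b (a (a (l 3) (b (l 243370295911) (a (l 188072592679) (l 49023028999)))) (a (c (c (b (l 67813508839) (l 16775056)) (l 44191190071)) (l 16780888)) (c (l 16773832) (l 16773696)))) (a (a (a (b (l 3) (a (l 96267670167) (l 16776656))) (b (l 142438565063)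 (l 16775672))) (b (l 16778224) (l 16773920))) (a (l 16776624) (l 16776080)))))))), by decide +kernel⟩

def k4_pm_012_s : ∃ t, chk3 f_pm_012_s t 38 13 1 = true :=
  ⟨(b (a (l 3) (b (l 3) (a (a (l 3) (b (l 3) (c (c (l 229411653863) (l 232632879207)) (l 228337911703)))) (a (b (l 3) (b (c (c (l 125795575655) (l 127943059239)) (l 126869317495)) (c (l 16778496) (l 16775832)))) (b (b (l 3) (c (l 101636383383) (l 105394479687))) (c (l 16778448) (l 16774424))))))) (a (b (a (b (l 3) (a (l 3) (l 296520519495))) (b (a (l 3) (b (l 3) (l 264308262807))) (a (b (l 284172486935) (c (l 39896227511) (l 16780952))) (b (c (l 16779416) (l 16776784)) (l 16774536))))) (a (a (b (b (l 3) (a (b (l 3) (l 57076093623)) (l 30232545767))) (b (c (l 16774888) (l 16774792)) (c (l 16775000) (l 16772192)))) (b (b (a (l 133848631143) (l 16776528)) (l 16774784)) (b (l 16772304) (l 16772400)))) (b (b (l 16778672) (l 16776272)) (b (c (l 16771360) (l 16771048)) (a (l 16768608) (b (l 16765512) (a (l 16770152) (l 16763816)))))))) (b (b (a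 (c (a (b (l 234243491399) (l 16779104)) (b (c (l 16781432) (l 16776176)) (l 16774152))) (b (a (l 147270414615) (l 16776152)) (l 16780448))) (c (a (l 16778048) (l 16775608)) (l 16771392))) (b (a (l 16778344) (l 16770728)) (a (l 16770832) (a (l 16767128) (l 16764768))))) (b (a (b (l 16768512) (a (l 16767368) (l 16765008))) (b (a (l 16764928) (l 16762768)) (l 16772344))) (b (a (a (c (l 16770496) (l 16764808)) (l 16762856)) (l 16759776)) (a (a (l 16762792) (l 16760720)) (l 16757664))))))), by decide +kernel⟩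

def k5_pm_012_s : ∃ t, chk3 f_pm_012_s t 39 13 1 = true :=
  ⟨(b (a (b (a (b (l 3) (a (l 253570844711) (b (l 203104977607) (c (l 16779024) (l 16776392))))) (b (a (a (l 257865811223) (b (l 3) (l 80161543415))) (b (a (l 163913401559) (l 16776408)) (l 16775168))) (c (a (l 16780120) (l 16777472)) (l 16781384)))) (a (b (a (b (a (l 161229047063) (l 16778968)) (l 16776352)) (c (l 16773576) (l 16773488))) (c (c (l 16776064) (l 16775984)) (c (l 16775904) (l 16770584)))) (b (c (l 16774784) (l 16774696)) (c (a (l 16771904) (l 16769352)) (a (l 16771744) (b (l 16764704) (l 16763000))))))) (b (a (a (b (c (l 16778712) (l 16773456)) (l 16774680)) (b (l 16776528) (l 16772744))) (b (c (a (l 16769544) (l 16773160)) (l 16775616)) (a (a (l 16771568) (l 16772384)) (l 16773024)))) (a (a (b (c (c (l 16770432) (l 16770408)) (l 16770376)) (c (l 16762136) (l 16761856))) (b (b (l 16764752) (l 16763256)) (c (l 16761424) (l 16760824)))) (b (c (l 16773608) (l 16762360)) (c (l 16760176) (l 16759128)))))) (a (b (a (b (c (a (l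 16770408) (b (l 16766192) (l 16764344))) (a (l 16767536) (l 16770256))) (b (a (l 16769104) (l 16762352)) (l 16761584))) (b (b (a (c (l 16763848) (l 16763568)) (l 16761520)) (l 16766216)) (c (l 16764064) (l 16758104)))) (b (a (l 16766632) (l 16765280)) (a (c (l 16760520) (l 16759456)) (b (l 16751832) (l 16749768))))) (b (b (a (c (c (l 16759080) (l 16758688)) (l 16758112)) (c (l 16767376) (l 16755544))) (a (c (c (l 16766400) (l 16755352)) (l 16754544)) (c (c (l 16753696) (l 16752856)) (l 16751640)))) (b (a (a (l 16751984) (l 16750640)) (a (l 16749168) (l 16752760))) (a (a (l 16748000) (l 16746480)) (b (l 16745088) (l 16742816))))))), by decide +kernel⟩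

def k6_pm_012_s : ∃ t, chk3 f_pm_012_s t 16 14 1 = true :=
  ⟨(l 3), by decide +kernel⟩

def k7_pm_012_s : ∃ t, chk3 f_pm_012_s t 17 28 1 = true :=
  ⟨(l 3), by decide +kernel⟩

def k8_pm_012_s : ∃ t, chk3 f_pm_012_s t 34 29 1 = true :=
  ⟨(l 3), by decide +kernel⟩

def k9_pm_012_s : ∃ t, chk3 f_pm_012_s t 35 58 1 = true :=
  ⟨(l 3), by decide +kernel⟩

def k10_pm_012_s : ∃ t, chk3 f_pm_012_s t 70 59 1 = true :=
  ⟨(b (l 3) (a (l 3) (b (l 3) (a (a (l 3) (a (l 3) (a (l 3) (b (l 3) (b (l 3) (b (l 3) (b (l 269140099383) (a (l 211694911591) (l 16777496))))))))) (b (a (l 3) (a (b (l 3) (b (l 3) (a (l 257865810311) (b (c (l 118279374103) (l 199346880631)) (c (l 16777128) (c (l 16777456) (l 65666023735))))))) (a (b (l 3) (b (b (l 268066357543) (a (l 212231782503) (l 16777496))) (l 16777440))) (a (b (l 3) (b (a (b (l 107541955271) (l 16777064)) (l 16777376)) (l 16776736))) (b (b (l 3) (b (l 3) (l 182167011447))) (l 16777448)))))) (a (a (b (l 3) (a (b (c (l 228874781015) (c (l 233706619191) (l 236390973735)))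 (b (a (a (l 109152568007) (l 16777192)) (l 16777088)) (l 16776960))) (b (b (a (l 242833424471) (a (l 93046440535) (l 16777168))) (l 7683965463)) (l 16776776)))) (b (b (a (l 3) (a (l 270750712151) (b (l 3) (a (l 110226309847) (l 16777192))))) (a (b (l 230485393639) (a (l 162302787719) (l 16777112))) (c (l 16777008) (c (l 16777656) (l 16777328))))) (c (l 16777872) (l 16777200)))) (a (b (b (b (a (a (l 186461978759) (l 16777472)) (l 16776936)) (l 16777368)) (l 16777240)) (l 16776648)) (b (l 16777200) (l 16776744))))))))), by decide +kernel⟩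

def k11_pm_012_s : ∃ t, chk3 f_pm_012_s t 142 118 1 = true :=
  ⟨(b (l 3) (a (l 3) (b (l 3) (a (l 3) (a (a (l 3) (b (l 3) (b (l 3) (b (l 282025001271) (a (l 234780360823) (l 62981669463)))))) (b (l 3) (b (a (a (l 3) (b (l 3) (l 188609462455))) (b (a (l 244444037239) (l 69424120423)) (l 16777408))) (a (a (b (l 142975434935) (l 16777048)) (l 16777336)) (l 16776800))))))))), by decide +kernel⟩

def k12_pm_012_s : ∃ t, chk3 f_pm_012_s t 142 238 1 = true :=
  ⟨(a (a (a (l 3) (b (l 3) (b (l 3) (b (a (l 3) (l 248739004775)) (b (a (l 3) (a (l 168745238679) (l 16777120))) (a (c (l 170892722311) (c (l 174113947719) (l 174113947719))) (l 16777000))))))) (b (a (l 3) (a (l 3) (a (l 3) (b (l 3) (l 272898196023))))) (b (a (b (l 3) (a (l 3) (b (l 247128391943) (a (l 185925107847) (l 16777144))))) (a (b (a (l 3) (b (l 3) (l 154249724023))) (c (l 16777688) (a (l 58149830903) (l 16776952)))) (b (a (b (l 199346880663) (l 16777104)) (l 38822478183)) (l 16776752)))) (b (a (a (b (b (l 235317231751) (l 156397207671))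 (c (l 16777104) (l 16777352))) (l 16777256)) (l 16777168)) (c (l 16777728) (l 16777048)))))) (a (b (b (a (l 3) (b (l 280414388839) (a (c (l 227801039159) (c (l 232096006423) (l 234243490055))) (b (a (l 226727297127) (l 58686702119)) (l 16777392))))) (b (b (a (l 274508808679) (a (c (l 16777312) (l 83382763719)) (l 16776872))) (a (a (l 3) (a (l 213305524359) (l 16777496))) (l 16777480))) (a (a (b (a (l 3) (l 165524013191)) (c (l 16777136) (l 69424120151))) (l 16777448)) (l 16777200)))) (a (b (a (l 16777320) (l 16777048)) (l 16776424)) (c (l 16776944) (l 16776552)))) (b (b (a (a (b (a (b (l 3) (l 137606725799)) (b (l 182703882407) (l 16777088))) (l 16776880)) (c (l 16777456) (l 16777400))) (a (l 16777096) (l 16776896))) (a (l 16777000) (a (l 16775776) (l 16775496)))) (c (l 16776152) (a (l 16776328) (l 16775768)))))), by decide +kernel⟩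

def k13_pm_012_s : ∃ t, chk3 f_pm_012_s t 142 239 1 = true :=
  ⟨(a (a (b (a (a (b (b (l 3) (b (a (l 233706618999) (l 67276636775)) (l 16777392))) (l 16777240)) (b (b (b (l 225653555367) (a (l 153712853111) (l 16777104))) (l 16776888)) (l 16776960))) (b (c (l 16777328) (c (l 16777312) (c (l 16777304) (l 16777304)))) (l 16776544))) (c (l 16776352) (l 16776280))) (b (b (a (l 16776760) (l 16776864)) (l 16776208)) (c (l 16773968) (l 16775160)))) (a (a (b (l 16775936) (l 16773096)) (b (l 16775392) (l 16772560))) (b (a (l 16773544) (l 16773008)) (a (l 16772024) (l 16771488))))), by decide +kernel⟩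

def k14_pm_012_s : ∃ t, chk3 f_pm_012_s t 286 59 1 = true :=
  ⟨(a (b (b (l 3) (a (b (l 3) (a (b (b (l 3) (b (l 227801038999) (a (l 156397207655) (l 16777104)))) (l 16777360)) (b (b (b (l 3) (a (l 251423359063) (l 72645345911))) (c (l 16776992) (l 16777312))) (l 16777080)))) (b (b (l 3) (b (l 3) (a (c (l 244444037463) (l 247128391991)) (b (c (l 169282109591) (l 167134625927)) (l 16777408))))) (b (a (a (b (b (l 158544691319) (l 16777056)) (l 16776776)) (l 16777480)) (l 16777272)) (l 16776656))))) (b (b (c (l 16776512) (c (l 16776448) (l 16776416))) (c (l 16773728) (l 16774896))) (b (l 16772784) (a (l 16770888) (b (l 16770680) (l 16769904)))))) (b (b (l 3) (b (a (b (a (l 3) (b (l 3) (b (l 3) (c (l 169282109591) (l 167134625927))))) (a (b (b (l 231022264471) (c (l 110226309287) (l 100562632951))) (l 16776896)) (c (l 16777464) (l 16777448)))) (b (b (a (c (l 244980908375) (l 248202133799)) (b (c (l 168745238663) (l 166060884103)) (l 16777408))) (b (a (c (l 107541954775) (l 100562632951)) (l 16776888))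 (l 16777496))) (l 16777192))) (c (l 16777192) (a (l 16776768) (l 16776504))))) (b (b (a (l 16775600) (l 16775008)) (l 16773776)) (b (l 16772392) (a (a (l 16771136) (l 16770840)) (l 16771688)))))), by decide +kernel⟩

def k15_pm_012_s : ∃ t, chk3 f_pm_012_s t 287 59 1 = true :=
  ⟨(b (b (a (b (l 3) (a (b (l 3) (a (b (l 3) (b (c (l 231022264439) (l 232096006247)) (c (l 104320729335) (l 98415149303)))) (b (b (l 287930581303) (c (l 166060884103) (l 163913400439))) (l 16777464)))) (b (b (l 286856839783) (a (c (l 241222811975) (l 244444037399)) (b (c (l 159081562311) (l 156397207735)) (l 16777392)))) (a (b (a (c (l 88751472983) (l 85530247431)) (l 16777000)) (l 16776688)) (l 16777240))))) (a (b (b (l 3) (a (l 3) (a (l 268066357751) (b (l 3) (b (l 282025001031) (l 16777176)))))) (b (b (a (b (a (l 3) (l 186998849655)) (c (l 16777488) (l 85530247543))) (l 16777616)) (l 16777376)) (l 16777456))) (b (b (c (l 284172485479) (l 289541194503)) (b (a (c (l 233169748263) (l 235317231879)) (b (c (l 147807273127)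 (l 140827951351)) (l 16777040))) (a (c (l 16777376) (c (l 16777376) (l 16777376))) (l 16776752)))) (c (l 16777272) (l 16776904))))) (b (a (a (b (a (l 16777352) (l 16777064)) (l 16777096)) (a (l 16777040) (l 16776744))) (c (l 16777352) (l 16775968))) (a (a (l 16775952) (l 16775352)) (l 16774448)))) (b (a (b (l 16774112) (l 16771256)) (b (l 16774200) (a (l 16770320) (l 16772304)))) (b (a (c (l 16771760) (l 16772456)) (c (l 16768576) (l 16771008))) (l 16770080)))), by decide +kernel⟩

def k16_pm_012_s : ∃ t, chk3 f_pm_012_s t 16 15 1 = true :=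
  ⟨(b (a (l 3) (b (l 3) (a (l 3) (b (l 3) (a (l 3) (a (b (l 3) (b (l 3) (b (l 3) (l 14)))) (b (l 3) (b (a (a (l 3) (a (l 3) (a (l 3) (b (l 3) (b (l 3) (b (l 3) (l 181630140503))))))) (a (b (l 3) (b (a (l 3) (b (l 3) (a (l 215989878903) (b (l 87677731463) (l 16777152))))) (a (b (a (l 250886488343) (c (l 74792829719) (l 144049176663))) (c (l 16777424) (c (l 16777424) (l 40433090743)))) (c (l 16777592) (l 16777264))))) (b (b (l 3) (a (l 250886487943) (a (b (l 3) (b (l 112910664471) (l 16777184))) (b (l 207399944295) (l 16777440))))) (b (a (b (a (l 176261431367) (c (l 16777160) (l 16777480))) (l 16777000)) (l 16777176)) (l 16777024))))) (a (a (b (b (c (l 249812747047) (l 262160776631)) (a (l 14) (a (l 14) (a (l 14) (l 16777352))))) (l 14)) (b (b (b (a (c (l 221895459143) (l 232096006439)) (b (a (c (l 90362086039) (l 94120182407)) (l 16777136)) (l 16777416))) (a (a (c (c (l 76403442471) (l 77477184295)) (l 151028498487)) (l 16777448)) (l 16776920))) (c (l 16777376) (l 16777048))) (c (l 16776712) (l 16776712))))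 (b (a (c (l 16777064) (l 16776896)) (c (l 16775872) (l 16776528))) (a (l 16776176) (l 16775640)))))))))))) (a (l 14) (b (a (l 14) (b (a (l 14) (b (a (l 14) (a (l 14) (a (l 14) (b (b (l 16774088) (l 14)) (l 14))))) (l 14))) (l 14))) (l 14)))), by decide +kernel⟩

def k17_pm_012_s : ∃ t, chk3 f_pm_012_s t 68 60 1 = true :=
  ⟨(l 3), by decide +kernel⟩

def k18_pm_012_s : ∃ t, chk3 f_pm_012_s t 69 120 1 = true :=
  ⟨(l 3), by decide +kernel⟩

def k19_pm_012_s : ∃ t, chk3 f_pm_012_s t 138 121 1 = true :=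
  ⟨(b (l 3) (a (l 3) (a (b (l 3) (b (a (l 3) (a (l 3) (b (l 3) (a (l 229948522807) (b (l 3) (l 16777512)))))) (b (a (c (l 238001586807) (l 247128392247)) (a (b (a (l 3) (l 145122918615)) (l 16777520)) (l 16777592))) (a (a (a (l 219747975463) (b (l 270750711895) (l 16777168))) (a (b (l 139754209479) (l 16777032)) (l 16777000))) (l 16777312))))) (a (b (l 3) (b (b (a (l 239075328423) (b (a (l 3) (l 159081562263)) (l 35064381751))) (a (a (b (l 155323465863) (l 16777048)) (l 16777672)) (l 16776808))) (l 16776968))) (b (b (l 3) (a (b (l 3) (a (l 236390973767) (b (l 3) (l 16777528)))) (b (l 244444037543) (a (b (l 163376529559) (l 16777056)) (l 16777352))))) (b (c (l 16777256) (l 16777416)) (l 16777072))))))), by decide +kernel⟩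

def k20_pm_012_s : ∃ t, chk3 f_pm_012_s t 139 242 1 = true :=
  ⟨(b (a (l 3) (a (b (l 3) (a (l 3) (a (b (l 3) (a (l 240149070135) (b (l 3) (l 16777520)))) (b (l 243370295703) (a (b (l 163376529543) (l 16777056)) (l 16777672)))))) (a (b (a (l 3) (b (l 3) (a (l 234243490087) (b (l 3) (l 16777512))))) (b (a (a (b (l 3) (l 16777520)) (b (l 159081562247) (l 16777048))) (l 16777600)) (l 16777328))) (b (b (a (l 238001586567) (b (c (l 109152568583) (l 188072591447)) (l 16777432))) (b (a (c (l 16777184) (l 102710116615)) (l 16776904)) (l 16776832))) (l 16776968))))) (b (a (b (l 3) (b (l 3) (a (l 3) (a (l 3) (a (l 3) (a (l 233169748071) (l 16777528))))))) (a (a (a (b (l 246054650279) (a (b (l 169818980471) (l 16777064)) (l 16777352))) (b (a (b (l 3) (l 16777528)) (b (l 165524013207) (l 16777064))) (l 16776816))) (c (l 16777264) (l 16777424))) (c (l 16777080) (l 16777072)))) (a (a (l 3) (b (a (c (l 249275875991) (l 258402681431)) (a (b (a (l 3) (l 171429593207)) (c (l 16777136) (l 16777464))) (l 16777288)))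 (a (a (a (l 242296553815) (b (l 3) (l 16777536))) (a (b (l 174113947735) (l 16777064)) (l 16777360))) (l 16777336)))) (a (a (l 16776992) (l 16777088)) (l 16776248))))), by decide +kernel⟩

def k21_pm_012_s : ∃ t, chk3 f_pm_012_s t 139 243 1 = true :=
  ⟨(a (a (a (b (b (a (l 3) (b (l 3) (a (l 241222811975) (b (l 3) (l 16777528))))) (b (a (b (a (l 3) (l 168208367735)) (c (l 16777136) (l 16777456))) (l 16777288)) (l 16777336))) (c (l 16776944) (l 16776928))) (b (b (a (b (l 246591521207) (a (b (l 170355851383) (l 16777064)) (l 16777360))) (b (b (a (l 3) (l 173577076823)) (c (l 16777136) (l 16777464))) (l 16776824))) (l 16776984)) (l 16776384))) (b (b (a (c (l 16777272) (l 16777432)) (l 16776712)) (l 16776808)) (c (l 16775560) (l 16775536)))) (b (a (a (l 16776392) (l 16775832)) (c (l 16773696) (l 16774984))) (a (l 16774440) (a (l 16773608) (b (l 16772160) (l 16771328)))))), by decide +kernel⟩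

def k22_pm_012_s : ∃ t, chk3 f_pm_012_s t 136 122 1 = true :=
  ⟨(b (l 3) (a (l 3) (a (l 3) (a (l 3) (a (l 3) (b (l 3) (b (l 3) (b (l 3) (b (l 251960230247) (a (l 182703882327) (l 16777488))))))))))), by decide +kernel⟩

def k23_pm_012_s : ∃ t, chk3 f_pm_012_s t 274 122 1 = true :=
  ⟨(b (l 3) (a (b (l 3) (b (a (l 3) (b (c (l 250349617895) (l 261087036071)) (b (a (l 3) (a (l 180556398663) (l 16777488))) (a (a (l 229948522615) (l 64592282295)) (l 16777008))))) (a (a (b (c (l 226727297479) (l 236390973847)) (b (b (l 122574340263) (l 16777448)) (l 16776960))) (b (b (a (l 3) (l 157470949479)) (c (l 16777448) (l 56002347319))) (l 16776792))) (c (l 16777264) (c (l 16777256) (l 16777416)))))) (a (b (b (l 3) (a (l 3) (b (l 3) (a (l 3) (b (l 3) (l 149417885831)))))) (b (b (a (b (l 213842395399) (b (l 114521276663) (l 16777440))) (c (l 16777664) (c (l 16777656) (l 16777496)))) (l 16777360)) (l 16776712))) (b (b (l 3) (b (b (l 247128392199) (a (l 3) (a (l 171429593159) (l 16777144)))) (a (b (a (l 222432329831)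 (l 61907927671)) (l 16777384)) (l 16777544)))) (b (l 16777200) (l 16775512)))))), by decide +kernel⟩

def k24_pm_012_s : ∃ t, chk3 f_pm_012_s t 275 122 1 = true :=
  ⟨(a (b (a (l 3) (a (l 3) (b (l 3) (b (l 3) (b (l 3) (l 239075328455)))))) (b (a (b (b (l 3) (a (c (l 217063621015) (l 225653555575)) (b (a (l 264845131863) (l 133848629447)) (l 32916898375)))) (b (a (a (b (l 71034733287) (l 16777008)) (l 16776976)) (l 16776776)) (l 16777136))) (b (b (a (b (l 3) (a (l 203641847927) (l 16777512))) (b (a (l 152102240407) (l 16777128)) (l 16776976))) (c (l 16777448) (l 16777448))) (l 16776800))) (b (l 16776784) (l 16776000)))) (b (b (l 3) (b (a (l 3) (a (l 258402680327) (b (l 3) (b (a (l 3) (l 198810009703)) (c (l 16777496) (l 83382763911)))))) (b (b (a (l 3) (a (a (l 185925107799) (l 16777160)) (l 16776952))) (a (a (l 3) (c (l 90898957543) (l 162839658631))) (l 16777536))) (a (a (b (a (l 3) (l 172503334983)) (c (l 16777136) (l 67276636487))) (l 8757707239)) (l 16777208))))) (b (b (a (l 16777280) (l 16777224))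 (l 16776640)) (a (l 16775616) (l 16775072))))), by decide +kernel⟩

def k25_pm_012_s : ∃ t, chk3 f_pm_012_s t 136 246 1 = true :=
  ⟨(a (b (l 3) (a (a (l 3) (b (l 3) (b (a (l 3) (a (l 3) (l 236390973831))) (b (a (l 3) (a (l 158544691255) (l 16777464))) (a (a (l 196662526071) (c (l 16777184) (l 43654316583))) (l 16776984)))))) (a (b (b (l 3) (a (l 3) (a (l 255718326711) (b (l 3) (l 141364822151))))) (b (a (b (a (l 3) (l 186461978711)) (a (b (l 98415149767) (l 16777160)) (l 16777080))) (a (b (l 38822478343) (l 16776944)) (l 16776920))) (l 16777176))) (a (b (b (l 3) (b (a (l 216526749799) (c (l 16777528) (l 54391734903))) (l 16777376))) (l 16776992)) (b (b (b (l 242833424727) (a (l 173577076807) (l 16777480))) (l 16777216)) (l 16776888)))))) (b (a (a (b (l 3) (b (l 3) (a (c (l 221895459271) (c (l 229411652007) (l 232632877447))) (b (a (l 3) (l 154786594887)) (c (l 16777440) (l 50096767271)))))) (b (c (l 250886487863) (c (l 260013294599) (l 265918873271))) (b (b (a (l 3) (a (l 181630140503) (l 16777488)))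 (a (a (l 227264168055) (c (l 16777216) (l 61371056775))) (l 16777008))) (c (l 16777472) (c (l 16777472) (l 16777472)))))) (a (a (b (b (l 3) (b (l 216526749975) (a (a (l 94657053495) (l 16777456)) (l 16777104)))) (l 16777120)) (b (b (a (l 3) (b (l 3) (l 159081562199))) (a (b (l 52244251239) (l 16776968)) (l 16776944))) (l 16777016))) (b (b (a (b (b (l 211694911591) (l 122037469351)) (l 16777392)) (l 16777232)) (l 16777256)) (l 16776608)))) (a (a (b (b (b (a (a (a (l 91435827975) (l 94120181895)) (l 16777096)) (l 16776896)) (l 16777136)) (l 16777136)) (l 16776480)) (b (l 16776816) (l 16775280))) (c (l 16776224) (c (l 16776216) (l 16775880)))))), by decide +kernel⟩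

def k26_pm_012_s : ∃ t, chk3 f_pm_012_s t 136 247 1 = true :=
  ⟨(a (b (b (a (a (a (a (b (l 3) (b (b (l 154249723959) (l 16777136)) (l 16776976))) (b (b (l 3) (l 166597754967)) (l 16776952))) (b (b (b (l 223506071655) (c (l 132238016631) (l 134922371191))) (c (l 16777408) (l 16777328))) (l 16776744))) (a (b (l 16777328) (l 16776480)) (l 16776760))) (a (l 16776680) (l 16776136))) (a (a (a (l 16777008) (l 16776736)) (l 16776336)) (c (l 16774872) (l 16775520)))) (a (b (c (l 16775720) (l 16775720)) (l 16774824)) (a (b (l 16774256) (b (l 16773584) (l 16774456))) (b (l 16773712) (a (l 16773616) (l 16772688)))))) (a (b (b (l 16775328) (c (l 16773792) (l 16775088))) (b (a (c (l 16773832) (l 16773816)) (l 16773944)) (l 16772016))) (b (a (b (l 16773856) (a (l 16774424) (l 16773496))) (b (l 16773320) (l 16773752))) (l 16772696)))), by decide +kernel⟩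

def k27_pm_012_s : ∃ t, chk3 f_pm_012_s t 137 123 1 = true :=
  ⟨(a (b (b (a (b (a (l 16776936) (l 16777040)) (l 16776120)) (c (l 16775800) (l 16775784))) (b (a (l 16775568) (a (l 16773448) (l 16773552))) (c (a (l 16774704) (l 16773624)) (a (l 16774672) (c (l 16773600) (l 16773584)))))) (b (a (b (a (a (l 16773568) (l 16772640)) (l 16772240)) (l 16771624)) (l 16772296)) (c (l 16771088) (l 16771048)))) (b (a (a (b (l 16774976) (b (l 16773672) (l 16771488))) (b (b (l 16773552) (l 16773176)) (l 16771384))) (b (a (b (l 16773008) (l 16772144)) (b (l 16773776) (l 16771600))) (l 16770568))) (c (b (l 16770696) (l 16768936)) (b (l 16769328) (l 16767568))))), by decide +kernel⟩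

def k28_pm_012_s : ∃ t, chk3 f_pm_012_s t 69 122 1 = true :=
  ⟨(b (b (a (a (a (a (l 3) (b (l 3) (a (b (l 3) (b (l 231022264615) (c (l 16777360) (l 105931342071)))) (b (c (l 211158040935) (l 218674233671)) (c (l 16777688) (a (l 16777584) (l 16776960))))))) (a (b (a (l 3) (b (l 3) (b (l 246591521095) (a (l 181630140503) (l 16777152))))) (a (b (b (c (l 92509570263) (l 160155304103)) (l 16777400)) (l 16776752)) (l 16777344))) (b (b (a (l 225116684663) (b (c (l 99488892151) (l 178408915015)) (l 16777424))) (a (a (b (l 78014055143) (l 16777016)) (l 16776984)) (l 16776776))) (l 16776928)))) (a (b (c (l 16777280) (c (l 16777280) (l 16777272))) (l 16776760)) (a (l 16776352) (l 16775800)))) (b (a (a (l 16774088) (l 16772976)) (a (a (l 16772152) (l 16771592)) (l 16772080))) (a (a (l 16773240) (a (l 16772416) (l 16771856))) (a (l 16772344) (l 16769928))))) (b (a (a (a (a (b (a (a (l 261087035815) (b (l 3) (l 147270402167))) (b (c (l 83919635543) (l 142975434951)) (l 16777048))) (c (l 16777520) (c (l 16777520)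 (l 16777512)))) (c (l 16777840) (l 16777176))) (l 16776848)) (c (l 16775368) (l 16775344))) (a (a (l 16773704) (a (l 16771568) (l 16771016))) (l 16770952))) (a (a (a (a (l 16776880) (l 16775672)) (l 16776160)) (a (l 16773744) (l 16772648))) (a (a (a (l 16771824) (l 16771272)) (l 16770448)) (l 16770112))))) (b (a (b (a (a (l 16776400) (l 16773992)) (a (l 16772896) (a (l 16772072) (l 16771520)))) (a (c (l 16775008) (l 16774976)) (a (a (l 16772312) (l 16771768)) (l 16770944)))) (c (a (l 16771056) (l 16768856)) (a (l 16769688) (l 16767488)))) (a (b (a (a (l 16773368) (a (l 16772552) (l 16772000))) (c (l 16771968) (l 16770608))) (a (a (a (l 16772784) (l 16773544)) (l 16772728)) (l 16770440))) (c (a (l 16769352) (l 16765856)) (a (l 16767976) (l 16765784)))))), by decide +kernel⟩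

def k29_pm_012_s : ∃ t, chk3 f_pm_012_s t 69 123 1 = true :=
  ⟨(a (b (a (b (a (a (b (l 16771920) (l 16771056)) (l 16770944)) (l 16770128)) (c (l 16770272) (l 16768896))) (c (b (l 16769824) (l 16768104)) (c (l 16768920) (l 16768864)))) (c (a (b (l 16768536) (l 16765480)) (c (l 16765504) (l 16765496))) (a (c (l 16767616) (l 16767552)) (c (l 16765456) (l 16764056))))) (b (c (a (c (l 16766624) (l 16766784)) (c (l 16765928) (l 16765920))) (a (c (l 16766744) (l 16766672)) (b (l 16764080) (l 16762360)))) (a (a (b (l 16763416) (l 16762992)) (b (l 16762336) (l 16761920))) (b (a (l 16761256) (l 16761488)) (c (c (l 16760336) (l 16759016)) (l 16759224)))))), by decide +kernel⟩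

def k30_pm_012_s : ∃ t, chk3 f_pm_012_s t 140 120 1 = true :=
  ⟨(a (b (l 3) (a (b (l 3) (b (a (l 3) (a (l 3) (b (l 3) (a (l 217063620855) (b (l 247128391799) (l 16777152)))))) (b (a (a (l 3) (l 231022264679)) (a (b (c (l 104320730343) (l 176798302295)) (l 16777416)) (l 16777568))) (a (a (a (l 226727297303) (b (l 270750711879) (l 16777168))) (b (c (l 16777168) (l 87677731207)) (l 16776960))) (l 16777296))))) (a (b (l 3) (b (a (b (c (l 221358588247) (l 226727297335)) (c (l 16777696) (c (l 16777696) (l 22179479863)))) (b (b (c (l 160155304087) (l 160692174983)) (l 16777392)) (l 16776760))) (l 16776936))) (b (b (l 3) (a (b (l 3) (b (l 233706619143) (a (l 164987142295) (l 16777128)))) (b (c (l 211694911783) (c (l 215453008151) (l 217600491783))) (c (l 16777016) (l 16777424))))) (c (l 16777448) (c (l 16777440) (l 16777104))))))) (a (b (b (l 3) (a (l 3) (a (l 3) (c (l 265918874903) (b (l 3) (l 270213841543)))))) (b (a (b (b (l 3) (b (c (l 234243490215) (l 240685941127)) (a (l 266992615751) (c (l 16777168)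 (l 91972698423))))) (b (a (b (c (l 144049176759) (l 142438564023)) (l 16777040)) (l 16776856)) (l 16777248))) (b (b (b (a (l 3) (a (l 183777624167) (l 16777144))) (a (c (l 175187689559) (l 175187689559)) (l 16777008))) (c (l 16777504) (l 16777496))) (l 16776888))) (c (l 16776608) (l 16776592)))) (b (b (l 3) (b (b (l 3) (a (l 3) (a (l 237464715623) (b (c (l 107005084903) (l 180019527767)) (c (l 16777096) (l 16777424)))))) (b (b (a (l 3) (a (a (l 147807273159) (l 16777104)) (l 16776896))) (a (a (l 3) (a (l 222432329847) (l 16777512))) (l 16777488))) (a (a (a (b (l 3) (l 74792829559)) (b (l 166060884119) (l 16777064))) (l 16777440)) (l 16777184))))) (b (b (c (l 16777520) (l 16777176)) (l 16776696)) (a (l 16775744) (l 16775192)))))), by decide +kernel⟩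

def k31_pm_012_s : ∃ t, chk3 f_pm_012_s t 141 120 1 = true :=
  ⟨(b (a (a (a (b (a (l 3) (b (l 3) (a (l 3) (b (l 3) (b (l 3) (l 167134625943)))))) (b (b (a (b (l 250349617431) (a (l 188609462375) (l 16777144))) (a (b (l 75866571399) (l 16777008)) (l 16776968))) (l 16777424)) (l 16776824))) (b (b (l 3) (a (b (l 275045679575) (b (a (l 222432329847) (l 65666024023)) (l 16777384))) (b (b (a (l 3) (l 203104976999)) (a (l 146196660423) (l 16777104))) (l 16776872)))) (c (l 16777328) (l 16777064)))) (b (b (b (a (c (l 259476423271) (l 267529486887)) (a (b (c (l 116668761367) (l 197199396983)) (c (l 16777128) (l 34527510839))) (l 16777432))) (a (b (a (l 3) (a (l 181093269623) (l 16777136))) (a (a (l 261087035511) (l 82309021783)) (l 16777008))) (l 16777344))) (a (c (l 16777312) (c (l 16777304) (c (l 16777296) (l 16777296)))) (l 16776744))) (c (l 16776504) (l 16776456)))) (c (b (a (l 16776976) (l 16777200)) (l 16776176)) (b (a (a (l 16777056) (l 16776656)) (l 16775816)) (c (l 16774792) (l 16774752))))) (b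 (a (a (a (l 16776256) (l 16775704)) (l 16774864)) (a (l 16773768) (a (l 16771632) (l 16773040)))) (a (c (l 16775160) (l 16773768)) (a (a (l 16773720) (l 16773184)) (c (l 16769864) (l 16772304)))))), by decide +kernel⟩

def k32_pm_012_s : ∃ t, chk3 f_pm_012_s t 70 121 1 = true :=
  ⟨(a (a (a (b (b (b (c (l 16777288) (c (l 16777280) (l 16777280))) (l 16776784)) (c (l 16775544) (l 16775536))) (b (l 16773888) (b (c (l 16771336) (l 16771304)) (l 16770496)))) (b (b (a (l 16776360) (l 16775792)) (l 16774424)) (b (b (l 16771872) (l 16772352)) (l 16769800)))) (a (b (b (l 16774952) (c (l 16774616) (l 16773288))) (b (b (l 16772064) (l 16769928)) (l 16768688))) (b (b (l 16773824) (b (l 16773904) (l 16773080))) (c (l 16768424) (l 16768376))))) (b (a (a (b (b (l 16771816) (l 16773608)) (c (l 16769848) (l 16769744))) (b (b (l 16773336) (l 16769904)) (l 16768648))) (b (l 16771264) (l 16769600))) (a (c (c (l 16769448) (l 16766728)) (l 16769328)) (b (l 16767928) (l 16766296))))), by decide +kernel⟩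

def k33_pm_012_s : ∃ t, chk3 f_pm_012_s t 71 60 1 = true :=
  ⟨(a (b (b (a (a (b (l 16775072) (l 16771864)) (b (l 16773664) (b (l 16771184) (l 16772024)))) (a (a (b (l 16771552) (a (l 16771432) (l 16771168))) (b (l 16771664) (l 16770760))) (b (b (a (l 16770880) (l 16771312)) (a (l 16770104) (l 16772176))) (l 16768592)))) (b (a (a (b (l 16771976) (l 16769888)) (l 16771808)) (l 16770120)) (a (l 16770696) (l 16767160)))) (a (b (c (l 16767016) (l 16765496)) (b (l 16765704) (l 16764064))) (c (b (l 16764816) (l 16762792)) (b (l 16763248) (l 16760000))))) (a (b (a (b (a (b (b (l 16769736) (l 16768912)) (l 16767680)) (l 16770496)) (l 16766216)) (b (l 16768240) (l 16764976))) (c (b (l 16761136) (l 16757824)) (b (l 16760968) (l 16757752)))) (b (b (c (l 16765176) (l 16765032)) (c (l 16763256) (l 16761872))) (c (b (l 16758720) (l 16755560)) (b (l 16758696) (l 16755496)))))), by decide +kernel⟩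

def k34_pm_012_s : ∃ t, chk3 f_pm_012_s t 35 61 1 = true :=
  ⟨(b (a (b (a (c (a (a (l 16769720) (l 16768616)) (c (l 16766968) (l 16768272))) (a (c (l 16769152) (l 16769096)) (l 16766912))) (c (a (c (l 16763472) (l 16763432)) (l 16763832)) (b (l 16765736) (l 16764072)))) (a (c (a (c (l 16765816) (l 16765816)) (c (l 16762304) (l 16762312))) (a (l 16765752) (l 16763552))) (a (b (l 16763560) (l 16761240)) (b (l 16761360) (a (l 16757632) (l 16756536)))))) (a (a (b (c (l 16761632) (l 16758960)) (c (b (l 16756536) (l 16757520)) (l 16756952))) (b (c (l 16759432) (l 16756736)) (c (b (l 16754328) (c (l 16755376) (l 16752688))) (b (l 16754272) (l 16752632))))) (a (b (c (l 16754560) (l 16754504)) (c (b (c (l 16752128) (l 16752136)) (l 16750528)) (l 16752888))) (b (b (l 16753160) (b (l 16754248) (a (l 16751696) (l 16750592)))) (c (l 16751760) (l 16749048)))))) (c (a (a (b (c (a (l 16762440) (l 16760256)) (b (l 16763504) (l 16759192))) (b (a (l 16759896) (a (l 16758272) (l 16757176))) (a (c (l 16758808) (l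 16756856)) (l 16754696)))) (b (b (a (l 16757616) (c (l 16758040) (l 16755432))) (a (c (l 16757240) (l 16755936)) (l 16756352))) (c (a (l 16756168) (l 16751536)) (l 16754976)))) (a (b (a (c (b (l 16753280) (l 16751784)) (l 16752376)) (l 16753032)) (c (l 16751176) (l 16748264))) (c (b (l 16747424) (l 16744472)) (l 16748256)))) (a (a (b (a (l 16762344) (l 16761472)) (b (a (c (l 16758512) (l 16758392)) (a (l 16756832) (l 16755760))) (a (c (l 16756800) (l 16755376)) (l 16754616)))) (b (b (a (l 16757520) (l 16755328)) (a (l 16756152) (l 16753672))) (a (l 16753320) (l 16751176)))) (a (b (a (l 16753648) (l 16750176)) (l 16747984)) (c (l 16750648) (l 16747880)))))), by decide +kernel⟩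

def k35_pm_012_s : ∃ t, chk3 f_pm_012_s t 68 31 1 = true :=
  ⟨(b (b (a (a (b (a (b (b (a (b (l 16773776) (l 16774640)) (c (l 16774328) (l 16774320))) (l 16774024)) (l 14)) (b (c (l 16773072) (l 16773064)) (l 16771280))) (l 14)) (b (c (b (l 16771136) (l 16769680)) (b (l 16771432) (l 16768328))) (b (c (l 16767888) (l 16766528)) (l 14)))) (b (b (c (a (l 16769320) (l 16765864)) (a (l 16767960) (l 16765792))) (c (a (l 16766232) (l 16765408)) (a (l 16766176) (l 16764016)))) (b (a (c (c (l 16764464) (l 16764440)) (l 16764376)) (c (b (l 16762760) (c (l 16761864) (l 16761864))) (a (l 16762760) (l 16761688)))) (a (b (c (l 16764408) (l 16763024)) (l 14)) (c (c (b (l 16763640) (l 16760192)) (l 16761840)) (l 16761776)))))) (b (a (l 14) (a (l 14) (c (c (a (l 14) (l 16762880)) (l 16757960)) (l 16760448)))) (l 14))) (l 14)), by decide +kernel⟩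

def k36_pm_012_s : ∃ t, chk3 f_pm_012_s t 69 31 1 = true :=
  ⟨(a (b (b (b (b (c (a (l 16763720) (l 16762888)) (a (l 16763632) (l 16761472))) (c (a (l 16762944) (c (c (l 16762280) (l 16761128)) (l 16761288))) (a (l 16761856) (b (l 16760144) (l 16759280))))) (c (b (a (b (c (l 16763240) (l 16760624)) (l 16762368)) (l 16760720)) (c (l 16760192) (l 16757416))) (a (b (b (l 16760528) (l 16759664)) (l 16758360)) (l 16757128)))) (a (b (c (c (l 16758744) (l 16755904)) (l 16755720)) (l 14)) (b (c (c (l 16754112) (l 16759096)) (l 16753624)) (b (c (l 16751416) (l 16750920)) (l 14))))) (l 14)) (b (c (b (b (b (a (c (b (l 16759864) (l 16758992)) (l 16759424)) (c (l 16759912) (l 16757272))) (c (a (l 16757736) (l 16755712)) (l 16759224))) (c (b (l 16755144) (l 16758792)) (l 16756760))) (b (b (a (l 16752784) (l 16750752)) (l 16751400)) (c (l 16747744) (l 16747320)))) (b (b (b (a (b (l 16759752) (l 16758880)) (l 16757184)) (a (l 16757600) (l 16755480))) (l 16756592)) (b (c (l 16750552) (l 16750416)) (b (l 16750408)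 (l 16745968))))) (b (b (c (c (l 16744280) (l 16743752)) (l 16745816)) (l 14)) (l 14)))), by decide +kernel⟩

def k37_pm_012_s : ∃ t, chk3 f_pm_012_s t 35 31 1 = true :=
  ⟨(a (a (b (b (b (c (c (b (l 16754248) (l 16752704)) (l 16753288)) (l 16755768)) (c (c (c (l 16755664) (l 16755496)) (l 16752664)) (l 16755008))) (b (c (c (l 16747096) (l 16746696)) (l 16748912)) (c (c (l 16743752) (l 16743256)) (l 16745344)))) (b (b (c (c (l 16740304) (l 16739712)) (l 16739056)) (b (c (l 16740576) (l 16736248)) (l 14))) (l 14))) (b (b (b (c (c (c (l 16754808) (l 16754648)) (l 16749192)) (l 16754168)) (c (c (l 16746336) (l 16751200)) (l 16745568))) (c (b (c (l 16743104) (l 16742624)) (l 16739472)) (b (c (l 16742264) (l 16747248)) (l 16738576)))) (b (b (c (b (l 16736872) (l 16735104)) (l 16737560)) (c (c (l 16732800) (l 16732056)) (c (l 16731448) (l 16730992)))) (b (c (l 16728728) (l 16727360)) (l 14))))) (a (b (b (c (c (b (l 16745504) (l 16742360)) (b (l 16750360) (l 16741888))) (b (l 16744728) (l 16741392))) (c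 (b (l 16741456) (l 16735464)) (b (l 16737960) (l 16734440)))) (b (b (b (l 16734856) (a (l 16731456) (l 16729432))) (c (l 16728448) (l 16727128))) (b (c (l 16724800) (l 16723312)) (c (l 16721040) (l 16719384))))) (c (b (b (b (c (l 16741432) (l 16740984)) (l 16738032)) (b (l 16734776) (l 16731432))) (b (b (b (l 16728864) (l 16727128)) (l 16724488)) (b (l 16720872) (l 16717152)))) (b (b (b (l 16740504) (l 16747680)) (b (l 16733792) (l 16730304))) (b (b (l 16726728) (l 16723056)) (b (l 16719280) (l 16715384))))))), by decide +kernel⟩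

def k38_pm_012_s : ∃ t, chk3 f_pm_012_s t 36 56 1 = true :=
  ⟨(l 3), by decide +kernel⟩

def k39_pm_012_s : ∃ t, chk3 f_pm_012_s t 72 57 1 = true :=
  ⟨(l 3), by decide +kernel⟩

def k40_pm_012_s : ∃ t, chk3 f_pm_012_s t 73 114 1 = true :=
  ⟨(a (l 3) (b (l 3) (b (l 3) (a (l 3) (a (l 3) (b (a (l 3) (b (l 3) (b (l 279877517767) (a (l 3) (a (l 161765917623) (l 16777488)))))) (b (a (l 3) (a (b (l 237464715463) (a (c (l 127406179079) (l 16777568)) (l 16777120))) (l 16777456))) (a (a (l 3) (b (c (c (l 209010557063) (l 209010557063)) (l 140827952375)) (a (c (l 97341407847) (l 16777216)) (l 16777072)))) (c (l 16777416) (l 16776752)))))))))), by decide +kernel⟩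

def k41_pm_012_s : ∃ t, chk3 f_pm_012_s t 73 230 1 = true :=
  ⟨(a (l 3) (a (b (l 3) (a (a (l 3) (a (l 3) (a (l 3) (b (l 3) (b (l 3) (c (l 248202133751) (l 250886488279))))))) (b (a (l 3) (a (b (l 3) (b (c (c (l 227264168119) (l 234243489847)) (l 230485393527)) (a (a (l 161229046519) (l 89825214967)) (l 16777096)))) (a (b (c (l 246591520999) (l 169818980487)) (l 16777360)) (b (b (l 249275875399) (l 16777480)) (l 16776872))))) (a (a (b (l 289004323207) (a (b (l 251423359079) (l 16777480)) (a (b (l 90898956791) (l 16777032)) (l 16777376)))) (b (b (a (l 3) (a (l 134922371703) (l 16777520))) (a (a (l 112910664279) (l 16777168)) (l 16777048))) (l 16777176))) (c (c (l 16777208) (l 16777208)) (l 16777200)))))) (a (a (b (b (l 3) (a (a (l 289541194231) (b (l 3) (b (l 183777625095) (c (l 76940313127) (l 16777200))))) (a (b (l 3) (a (b (l 129016791671) (l 16777080)) (l 16777416))) (b (a (l 252497100999) (b (l 3) (l 16777376))) (l 16776968))))) (b (a (b (c (c (l 16777416) (l 16777656)) (l 16777656)) (l 16776632))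 (l 16776824)) (l 16776568))) (b (b (b (c (l 284709356103) (l 289541194263)) (b (a (l 3) (a (c (l 160692175799) (l 161765917607)) (l 16777488))) (a (c (l 236390973639) (l 164450272567)) (l 16777384)))) (a (b (a (b (c (l 125258694759) (l 16777568)) (l 16777088)) (l 16777344)) (l 16776728)) (l 16777000))) (c (l 16776624) (l 16776936)))) (b (b (a (b (a (b (a (l 289004322887) (c (l 81772151351) (l 16777208))) (c (a (l 16777512) (l 16777024)) (l 16777104))) (l 16776872)) (l 16777072)) (l 16776856)) (c (l 16776768) (l 16777088))) (c (c (l 16775576) (l 16775984)) (l 16775968)))))), by decide +kernel⟩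

def k42_pm_012_s : ∃ t, chk3 f_pm_012_s t 146 231 1 = true :=
  ⟨(a (l 3) (a (b (l 3) (b (l 3) (a (l 3) (b (a (l 3) (b (l 3) (a (l 299741741271) (a (l 134922371703) (l 16777352))))) (a (a (l 260550164727) (b (l 276119421015) (c (l 16777496) (l 16777168)))) (a (a (b (l 110226309719) (l 16777056)) (l 16777392)) (l 16776952))))))) (b (a (l 3) (a (l 3) (b (l 3) (b (l 3) (b (a (l 3) (a (l 173577077511) (l 107005084231))) (a (a (l 149417886359) (l 83919634919)) (l 16777088))))))) (b (b (a (c (l 287393710007) (l 291151806999)) (a (b (a (l 299741741127) (a (l 125258695271) (l 16777512))) (a (a (l 101636375031) (l 16777152)) (l 16777032))) (l 16777216))) (b (a (a (l 3) (a (l 233169748055) (c (l 16777488) (l 16777160)))) (l 16777096)) (a (a (c (c (l 232632877255) (l 239075328071)) (l 238001586263)) (l 16777384)) (l 16777232)))) (a (a (b (a (b (a (l 163376530167) (l 94657053159)) (l 16777072)) (l 16777336)) (l 16776712)) (l 16776992)) (l 16776768)))))), by decide +kernel⟩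

def k43_pm_012_s : ∃ t, chk3 f_pm_012_s t 147 231 1 = true :=
  ⟨(b (a (a (a (b (a (l 3) (a (l 290614935415) (b (l 3) (b (l 3) (a (l 110763180631) (l 16777160)))))) (a (a (b (c (l 244980908263) (l 246591520983)) (l 16777352)) (b (b (l 246054649959) (l 16777472)) (l 16776864))) (a (b (a (b (l 87677731303) (l 16777024)) (l 16777368)) (l 16776704)) (l 16777064)))) (a (b (a (b (l 3) (b (a (l 133848629879) (l 16777352)) (l 16777040))) (b (a (l 258939551959) (b (l 3) (l 90362085879))) (l 16776976))) (l 16776984)) (b (b (a (b (a (l 175187690263) (l 112910664279)) (l 16777096)) (l 16777360)) (l 16776736)) (l 16776832)))) (a (b (a (l 16777016) (l 16776944)) (l 16776352)) (a (l 16776496) (l 16776256)))) (a (b (a (l 16776480) (l 16774528)) (l 16775088)) (b (l 16774384) (l 16773480)))) (a (c (a (a (a (l 16776672) (l 16777008)) (l 16776536)) (l 16775424)) (a (b (l 16776472) (l 16776456)) (l 16775560))) (c (a (l 16774320) (l 16773040)) (c (l 16773656) (l 16773616))))), by decide +kernel⟩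

def k44_pm_012_s : ∃ t, chk3 f_pm_012_s t 296 28 1 = true :=
  ⟨(b (l 3) (b (a (b (l 3) (a (b (a (l 3) (b (l 3) (b (l 3) (a (l 3) (b (l 3) (l 108078826199)))))) (a (b (b (b (l 3) (a (l 286856839239) (l 79624667735))) (c (c (l 16777336) (l 16777664)) (l 16777008))) (l 16777112)) (b (a (b (b (l 94120182423) (l 16777040)) (l 16776768)) (l 16777112)) (l 16776784)))) (b (b (c (c (l 284172485431) (l 286319969047)) (l 289541194455)) (b (a (c (l 248739004727) (l 251960230167)) (a (b (l 151028499367) (l 16777128)) (l 16777384))) (b (a (a (l 122574340887) (l 16777112)) (l 16776864)) (l 16777336)))) (b (c (l 16777032) (l 16776376)) (l 16776288))))) (b (b (l 3) (b (l 3) (a (l 3) (a (b (l 3) (b (l 215989878983) (a (l 109689438935) (l 16777088)))) (b (b (a (l 3) (l 149417886551)) (a (l 135996113719) (l 16777128))) (l 16777592)))))) (b (b (a (b (a (l 291688677783) (b (a (l 3) (l 96267666071)) (c (l 64055411015) (l 16777128)))) (a (b (a (l 174650819559) (l 16777520)) (l 16777416)) (l 16776856))) (a (l 16777120)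 (l 16777032))) (a (a (l 16776952) (l 16776952)) (l 16776456))) (c (a (l 16776168) (l 16775352)) (l 16776328))))) (b (c (b (a (a (l 16776160) (l 16775184)) (a (l 16774536) (l 16774536))) (a (a (l 16775016) (l 16774368)) (l 16772744))) (a (b (l 16776152) (l 16774672)) (b (l 16774848) (l 16772064)))) (b (c (a (l 16773224) (l 16771936)) (c (l 16772568) (l 16772528))) (c (a (l 16770456) (l 16769168)) (l 16771080)))))), by decide +kernel⟩

def k45_pm_012_s : ∃ t, chk3 f_pm_012_s t 297 28 1 = true :=
  ⟨(a (b (l 3) (b (b (a (b (l 3) (a (a (b (l 274508808663) (l 16777440)) (b (b (l 3) (a (l 181630140663) (l 116668760391))) (l 16776704))) (b (b (b (l 300278612279) (a (l 177872045047) (l 16777536))) (c (l 16777664) (l 16777008))) (l 16777112)))) (b (b (l 3) (a (b (l 3) (c (l 221895459063) (l 152102240631))) (b (l 239075328279) (c (a (l 83382763927) (l 16777000)) (l 16777080))))) (b (c (c (c (l 16777432) (l 16777352)) (l 16777352)) (l 16777352)) (l 16776608)))) (c (b (a (c (l 16776160) (l 16776824)) (l 16775504))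 (a (l 16774688) (l 16774032))) (b (l 16776160) (l 16775008)))) (b (b (c (c (l 16772888) (l 16772240)) (l 16772232)) (b (l 16771800) (l 16771072))) (c (b (l 16770632) (l 16767872)) (l 16769880))))) (b (b (l 3) (b (l 3) (b (l 3) (b (l 3) (a (l 3) (a (l 291151807095) (b (l 3) (a (a (l 224042942599) (l 151028498711)) (l 16777464))))))))) (b (b (b (b (b (a (l 283098743351) (a (a (c (l 107005084023) (l 16777720)) (l 16777432)) (l 16776848))) (a (a (l 256792068423) (a (c (l 91972698359) (l 16777864)) (l 16777728))) (l 16777304))) (a (a (b (a (a (l 134922371415) (l 16777488)) (l 16777040)) (l 16776752)) (l 16777256)) (l 16776752))) (a (b (l 16776680) (l 16775944)) (b (l 16776016) (l 16775280)))) (c (a (b (l 16774832) (l 16774024)) (b (l 16774168) (l 16773360))) (b (l 16775160) (l 16773688)))) (b (c (c (b (l 16771560) (l 16770760)) (a (l 16771840) (l 16771184))) (a (l 16771824) (l 16771168))) (b (c (l 16769328) (l 16768000)) (b (c (c (l 16768232) (l 16769568)) (l 16766912)) (a (a (l 16766704) (l 16767032))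 (l 16767200)))))))), by decide +kernel⟩

def k46_pm_012_s : ∃ t, chk3 f_pm_012_s t 298 28 1 = true :=
  ⟨(b (b (l 3) (a (b (l 3) (a (b (l 3) (a (b (l 3) (b (b (l 142438565127) (l 16777488)) (l 16776888))) (b (a (l 251423359367) (b (l 3) (l 75329700711))) (l 16777384)))) (b (a (l 3) (a (l 284709355767) (b (l 3) (b (l 3) (l 102173246455))))) (b (a (b (a (l 166597756327) (l 89288344535)) (l 16776952)) (l 16777448)) (l 16776880))))) (b (a (l 3) (b (l 3) (b (l 3) (l 266992615463)))) (b (b (b (a (l 3) (a (c (l 231022264455) (l 156934080007)) (l 16777744))) (a (c (l 239075328439) (l 242833424775)) (l 16777552))) (a (a (b (a (l 178408916471) (l 115058148375)) (l 16777664)) (l 16777512)) (l 16777000))) (a (b (l 16776944) (l 16776208)) (b (l 16776264) (l 16776184))))))) (a (b (b (b (a (b (l 16776816) (l 16776080)) (b (l 16776144) (l 16775408))) (c (a (l 16774976) (l 16774312)) (l 16775296))) (b (c (a (l 16774160) (l 16773488)) (l 16772520)) (c (a (l 16772696) (l 16772032)) (l 16771056)))) (b (c (b (l 16770256)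 (l 16769464)) (l 16769864)) (b (b (l 16768400) (a (l 16768008) (a (l 16767520) (l 16765880)))) (c (c (l 16767864) (l 16767896)) (l 16765912))))) (b (b (b (c (a (l 16775128) (l 16774472)) (l 16775416)) (c (a (l 16774312) (l 16773656)) (l 16772640))) (b (c (a (l 16772832) (l 16772176)) (l 16771184)) (b (l 16770920) (l 16770696)))) (b (a (b (l 16769944) (l 16768504)) (b (l 16769280) (a (l 16768008) (b (l 16766728) (l 16767328))))) (b (a (b (a (l 16767592) (l 16768568)) (l 16765392)) (l 16767712)) (l 16766600)))))), by decide +kernel⟩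

def k47_pm_012_s : ∃ t, chk3 f_pm_012_s t 299 28 1 = true :=
  ⟨(b (b (l 3) (b (b (a (l 300278612247) (b (a (l 3) (a (b (l 3) (l 93583312087)) (b (l 100562633959) (l 16776912)))) (a (b (a (l 3) (l 86603990215)) (a (l 79624668279) (l 16776872))) (l 16777200)))) (a (b (a (l 281488130791) (b (a (l 276656292199) (l 72108475463)) (c (l 45801800231) (l 16777648)))) (a (a (b (l 251960230199) (l 16777448)) (b (l 77477184007) (l 16776776))) (l 16777104))) (c (a (l 16776488) (l 16776152)) (l 16776448)))) (c (b (a (c (b (l 16776752) (l 16775384)) (l 16776368)) (c (l 16775088) (l 16775688))) (c (a (l 16774968) (l 16773672)) (a (l 16775568) (l 16772936)))) (a (b (l 16776352) (l 16775536)) (b (l 16775648) (l 16772872)))))) (b (b (b (c (c (a (l 16773528) (l 16772240)) (b (l 16773808) (l 16773080))) (c (l 16773392) (l 16773392))) (c (a (a (l 16773000) (l 16772352)) (l 16770728)) (l 16771936))) (b (c (a (l 16770544) (l 16769912)) (l 16770496)) (c (a (l 16769720) (l 16768432)) (l 16769056)))) (b (b (b (a (l 16768648)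 (a (l 16766344) (a (l 16768464) (l 16768128)))) (a (a (l 16766952) (l 16767600)) (c (l 16767296) (l 16765288)))) (a (b (a (l 16767464) (l 16766880)) (c (l 16767776) (l 16765176))) (l 16766832))) (c (l 16765440) (l 16765352))))), by decide +kernel⟩

def k48_pm_012_s : ∃ t, chk3 f_pm_012_s t 150 56 1 = true :=
  ⟨(b (a (b (l 3) (a (b (l 3) (b (a (l 3) (a (l 215453008183) (c (l 98415149623) (l 16777816)))) (a (b (l 209547428119) (a (l 107005084935) (l 16776952))) (l 16777280)))) (b (b (b (l 258939552519) (a (l 3) (l 111836922503))) (a (a (l 224579813735) (a (l 97878279719) (l 16777768))) (l 16776688))) (a (c (l 16776976) (l 16776288)) (l 16776952))))) (a (b (b (l 3) (b (b (l 279340647223) (a (l 3) (l 125258695303))) (a (a (l 241222812055) (l 120963728007)) (l 16776736)))) (b (b (l 16777688) (l 16777000)) (a (l 16776288) (l 16775624)))) (b (b (a (a (l 268066358087) (b (l 3) (l 94120183575))) (b (a (l 256255197655) (l 96267667239)) (l 16776768))) (c (l 16777416) (l 16777376))) (b (l 16776024) (l 16774640)))))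 (b (b (a (a (c (b (l 16776920) (l 16776880)) (l 16776536)) (b (l 16776224) (l 16774864))) (c (a (l 16774624) (l 16772040)) (l 16773824))) (a (a (c (c (l 16775200) (l 16774488)) (l 16774432)) (a (l 16774208) (l 16773472))) (c (a (l 16772584) (l 16770656)) (l 16772400)))) (b (c (a (a (l 16773760) (l 16772464)) (a (l 16771848) (l 16769272))) (a (a (l 16772976) (l 16771632)) (l 16772280))) (c (a (a (l 16772336) (l 16771056)) (c (l 16769408) (l 16769728))) (a (l 16772152) (l 16770832)))))), by decide +kernel⟩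

def k49_pm_012_s : ∃ t, chk3 f_pm_012_s t 151 56 1 = true :=
  ⟨(a (a (b (b (b (a (l 16777752) (l 16775792)) (l 16776080)) (b (l 16774712) (l 16773344))) (b (b (l 16771960) (a (l 16769576) (l 16768944))) (c (b (l 16768024) (l 16767936)) (l 16769608)))) (b (b (c (l 16775504) (l 16776704)) (c (l 16772848) (l 16771336))) (b (b (l 16772000) (l 16769304)) (b (l 16767584) (c (b (l 16768368) (l 16767744)) (l 16767664)))))) (b (b (b (l 16774176) (l 16773504)) (c (c (l 16771056) (l 16772216)) (l 16772016))) (b (a (c (l 16768264) (l 16767272)) (b (l 16766864) (a (l 16768416) (l 16767832)))) (b (a (b (l 16768304) (a (l 16767936) (l 16764760))) (l 16767520)) (c (c (l 16766544) (l 16766288)) (l 16763320)))))), by decide +kernel⟩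

def k50_pm_012_s : ∃ t, chk3 f_pm_012_s t 75 57 1 = true :=
  ⟨(b (a (a (a (b (c (b (l 16770904) (l 16770104)) (l 16770640)) (c (b (l 16768640) (b (l 16767512) (l 16767480))) (b (l 16767168) (a (l 16768704) (l 16768032))))) (b (c (b (l 16770280) (l 16768840)) (l 16770600)) (b (b (l 16767576) (a (l 16768448) (l 16767856))) (c (l 16767344) (l 16767016))))) (a (b (a (b (l 16769176) (l 16767728)) (b (l 16768544) (b (l 16766144) (l 16767712)))) (b (a (b (l 16767296) (l 16764640)) (l 16767040)) (l 16765968))) (b (b (a (l 16769216) (b (l 16766328) (l 16768216))) (a (b (l 16768128) (l 16767472)) (l 16767568))) (c (l 16764424) (l 16762688))))) (b (a (a (b (b (a (l 16768304) (l 16767720)) (l 16767696)) (l 16765056)) (b (l 16766536) (l 16765248))) (c (b (l 16762520) (l 16761256)) (l 16761360))) (c (a (a (l 16762176) (l 16761576)) (c (l 16759480) (l 16759152))) (a (l 16760968) (l 16763960))))) (a (a (b (b (a (l 16766936) (l 16765752)) (l 16764968)) (c (l 16763128) (l 16760104))) (c (b (l 16762784) (l 16760888))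 (b (l 16760536) (l 16757784)))) (a (b (b (a (l 16759736) (l 16758632)) (l 16763064)) (b (l 16756456) (l 16755088))) (b (c (l 16757968) (l 16761256)) (c (l 16756568) (l 16753280)))))), by decide +kernel⟩

def k51_pm_012_s : ∃ t, chk3 f_pm_012_s t 72 116 1 = true :=
  ⟨(a (l 3) (a (b (l 3) (b (l 3) (b (l 3) (b (l 3) (a (l 3) (a (l 3) (a (l 270750712167) (b (a (l 288467451975) (l 92509569671)) (l 4462739879))))))))) (b (l 3) (a (b (a (l 3) (a (l 3) (a (l 3) (b (l 3) (b (l 3) (l 253033971943)))))) (a (b (b (l 3) (a (l 3) (b (l 280951259415) (a (l 240149069911) (l 16777496))))) (b (a (b (a (l 3) (l 135996113799)) (a (l 114521277175) (l 16777096))) (l 16777456)) (l 16777064))) (a (b (b (b (l 3) (a (l 3) (a (l 143512306359) (l 16777200)))) (a (b (l 88214602375) (l 16777016)) (l 16776960))) (l 16777120)) (b (b (a (b (l 130627403927) (l 16777088)) (l 16777360)) (l 16776728)) (l 16776808))))) (b (a (b (l 3) (b (a (l 298131128743) (a (b (l 3) (c (l 102173246103) (l 16777536))) (b (c (l 123111211799) (l 122574340871))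 (l 16777072)))) (a (b (a (l 267529486423) (c (l 16777528) (l 16777192))) (l 16777408)) (l 16776872)))) (b (b (a (l 3) (b (l 3) (a (l 291151806535) (c (l 91972698695) (l 16777536))))) (a (a (c (l 243370295527) (l 247128391879)) (b (l 250349617255) (l 16777472))) (c (c (l 16777504) (l 16777336)) (l 16777336)))) (a (b (l 16777264) (l 16776560)) (l 16777096)))) (a (b (a (l 16777264) (l 16776952)) (l 16777000)) (c (l 16776776) (l 16776096)))))))), by decide +kernel⟩

def k52_pm_012_s : ∃ t, chk3 f_pm_012_s t 144 117 1 = true :=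
  ⟨(b (b (l 3) (a (l 3) (a (l 3) (b (a (l 3) (a (l 3) (b (l 3) (b (l 280951259415) (c (l 105931342167) (l 104320729415)))))) (b (a (l 3) (a (b (a (l 3) (l 131701146503)) (c (l 98415149463) (l 94657053079))) (l 16777616))) (a (a (l 259476422999) (b (c (l 172503335143) (l 171966464215)) (l 16777416))) (l 16777384))))))) (a (a (a (l 3) (b (l 3) (b (l 3) (b (l 271287583255) (b (a (l 3) (c (l 127406178535) (l 122037469447))) (a (l 193978171543) (l 16777008))))))) (b (a (l 3) (a (l 3) (b (l 3) (b (l 3) (l 243907166503))))) (a (b (b (l 3) (a (l 3) (b (l 240149069991) (c (l 113984405783) (l 111300051207))))) (a (b (b (l 182167011495) (l 16777424)) (l 16776808)) (l 16777352))) (b (b (a (b (l 3) (c (l 168745238743) (l 167134626007))) (a (a (l 101636374951) (l 16777432)) (l 16776992))) (c (l 16777488) (l 16777488))) (l 16776904))))) (a (b (b (a (l 3) (a (a (l 263771390407) (b (l 3) (a (l 176261431527) (l 123648082231)))) (b (c (l 221358588151) (l 223506071767)) (c (l 16777672) (l 16777672))))) (a (b (a (l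 287393710487) (b (l 210621169799) (c (l 16777472) (l 16777464)))) (b (a (c (l 156397207735) (l 150491627783)) (l 16776944)) (l 16777560))) (c (l 16777248) (l 16777240)))) (b (c (l 16777104) (l 16776856)) (l 16776656))) (b (a (b (a (a (b (c (l 79087796407) (l 75866570919)) (l 16776792)) (l 16777488)) (l 16777256)) (l 16776640)) (c (l 16776416) (l 16776416))) (c (l 16775840) (l 16775824)))))), by decide +kernel⟩

def k53_pm_012_s : ∃ t, chk3 f_pm_012_s t 145 117 1 = true :=
  ⟨(b (a (a (b (b (l 3) (a (b (l 3) (l 277730033543)) (a (b (l 3) (b (a (l 289004322887) (l 16777544)) (l 16777432))) (b (b (a (l 3) (l 203641847975)) (a (l 116131889927) (l 16777104))) (l 16776888))))) (a (b (a (b (c (l 231559135495) (l 233706619111)) (c (l 16777536) (l 16777368))) (a (b (b (l 135996113799) (l 16777096)) (l 16776808)) (l 16777504))) (l 16776968)) (b (l 16777040) (l 16777016)))) (b (b (a (a (b (l 3) (b (l 287930581287) (a (l 246591520871) (l 16777504)))) (b (c (c (l 234243490071) (l 235317231879)) (l 236927844583))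 (a (b (l 94657053335) (l 16777024)) (l 16776968)))) (b (b (a (a (l 138680468359) (l 16777136)) (l 16776912)) (l 16777200)) (l 16777240))) (a (a (a (l 16777424) (l 16776704)) (l 16777128)) (l 16776664))) (a (c (l 16776792) (l 16776776)) (l 16776016)))) (c (b (a (a (l 16776600) (l 16776480)) (l 16775568)) (a (l 16775272) (l 16774064))) (b (a (a (l 16776424) (l 16776464)) (l 16775536)) (a (l 16775240) (l 16774016))))) (a (c (b (a (l 16776168) (l 16774960)) (a (l 16774640) (l 16772128))) (a (b (l 16776152) (l 16774616)) (b (l 16774936) (l 16772088)))) (c (b (c (l 16773160) (l 16773152)) (l 16771488)) (c (a (l 16772800) (l 16771752)) (b (l 16772744) (a (l 16770840) (l 16769616))))))), by decide +kernel⟩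

def k54_pm_012_s : ∃ t, chk3 f_pm_012_s t 292 116 1 = true :=
  ⟨(a (b (b (l 3) (b (a (l 3) (a (l 3) (b (l 3) (b (c (l 235317231815) (c (l 243907166263) (l 244980908071))) (a (a (l 159618433703) (l 96804536807)) (l 16777104)))))) (b (a (c (l 287393710679) (l 292762419735)) (a (b (a (l 306184192087) (a (l 132774888055) (l 16777520))) (a (a (l 106468213319) (l 16777152)) (l 16777040))) (l 16777224))) (a (b (a (l 3) (a (l 231559135319) (l 16777488))) (a (c (l 228337909943) (l 234780360775)) (l 16777376))) (l 16777008))))) (b (b (a (b (b (a (a (c (l 112910663703) (l 111836922535)) (l 16777096)) (l 16776856)) (l 16777152)) (l 16777200)) (l 16776768)) (a (l 16776632) (l 16776664))) (a (l 16775904) (l 16775208)))) (b (b (a (b (l 3) (b (l 3) (a (l 3) (b (l 3) (a (l 3) (a (l 138143597191) (l 16777520))))))) (b (c (c (l 292225547847) (l 295446774583)) (l 298131129079)) (a (a (b (l 3) (b (a (l 167134626567) (l 101636375111)) (l 16777080))) (b (c (l 241759682791) (l 243907166407)) (l 16777344))) (b (a (b (l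 244444037223) (l 16777472)) (a (b (l 88751473127) (l 16777024)) (l 16777368))) (l 16776784))))) (b (a (b (a (a (l 260013293815) (b (l 276119421031) (c (l 16777496) (l 16777168)))) (a (a (b (l 112910664279) (l 16777056)) (l 16777400)) (l 16776952))) (c (a (l 16777296) (l 16776656)) (l 16777464))) (a (l 16776856) (l 16776872))) (a (a (l 16777056) (l 16776744)) (l 16776272)))) (c (b (l 16775960) (l 16774624)) (b (l 16775768) (l 16774576))))), by decide +kernel⟩

def k55_pm_012_s : ∃ t, chk3 f_pm_012_s t 293 116 1 = true :=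
  ⟨(a (a (b (b (b (a (b (l 3) (b (a (l 3) (a (l 139217339015) (l 16777360))) (a (a (l 113984406103) (l 16777168)) (l 16777048)))) (b (b (a (l 3) (a (l 177872044887) (l 125258695271))) (a (a (l 167134626567) (l 100562633191)) (l 16777112))) (l 16777232))) (c (l 16776992) (l 16777152))) (c (l 16776688) (l 16776672))) (b (l 16774856) (l 16773680))) (b (b (b (a (c (c (l 16777352) (l 16777432)) (l 16777432)) (l 16777120)) (l 16776528)) (l 16775728)) (b (l 16774560) (l 16771752)))) (b (b (b (a (l 16776648) (l 16776672)) (l 16775912)) (a (l 16775104) (l 16774808))) (a (b (l 16773936) (l 16771136)) (b (l 16773312) (l 16770520))))), by decide +kernel⟩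

def k56_pm_012_s : ∃ t, chk3 f_pm_012_s t 147 116 1 = true :=
  ⟨(a (a (b (c (b (l 16775368) (l 16773880)) (b (l 16775328) (l 16772520))) (b (a (l 16771384) (l 16770760)) (l 16770248))) (b (b (a (l 16774408) (l 16773776)) (l 16772288)) (b (l 16770480) (a (l 16771280) (b (l 16768408) (l 16767672)))))) (b (a (b (a (l 16771832) (l 16771200)) (l 16771352)) (b (l 16770904) (l 16770096))) (a (b (l 16769888) (a (b (l 16767784) (a (l 16767208) (l 16766896))) (b (a (l 16767320) (l 16767008)) (l 16766424)))) (b (b (c (l 16770344) (l 16767624)) (a (c (l 16769928) (l 16767200)) (l 16766640))) (c (l 16765872) (l 16765784)))))), by decide +kernel⟩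

def k57_pm_012_s : ∃ t, chk3 f_pm_012_s t 73 117 1 = true :=
  ⟨(b (b (a (a (a (a (l 16773984) (l 16774024)) (a (l 16773416) (l 16771488))) (c (l 16771304) (a (l 16771168) (l 16769280)))) (a (a (b (l 16768480) (a (l 16768048) (a (l 16767592) (l 16767280)))) (a (b (a (l 16767712) (l 16767400)) (l 16766816)) (c (l 16766600) (l 16766816)))) (c (l 16765024) (l 16764936)))) (a (a (a (a (l 16773128) (l 16771208)) (a (l 16770600) (l 16769992))) (c (a (l 16769120) (b (c (l 16768288) (l 16768256)) (a (l 16767840) (l 16767216)))) (a (l 16769008) (b (l 16768152) (a (l 16767712) (l 16767096)))))) (a (a (b (a (a (l 16767464) (l 16767152)) (l 16766688)) (l 16766256)) (l 16765056)) (l 16764504)))) (a (a (b (a (c (l 16770040) (l 16771264)) (b (l 16771792) (a (l 16768728) (a (l 16768272) (l 16767976))))) (b (a (l 16769536) (a (a (l 16768128) (l 16767824)) (l 16767368))) (a (a (c (l 16768480) (l 16768360)) (b (l 16768016) (l 16767640))) (l 16766920)))) (a (b (a (b (l 16768264) (a (l 16767664) (l 16767360))) (b (a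 (l 16767808) (l 16767504)) (l 16766904))) (l 16766080)) (c (l 16766304) (b (l 16766280) (l 16764784))))) (c (a (l 16765112) (l 16762632)) (a (b (l 16764448) (l 16762960)) (l 16761576))))), by decide +kernel⟩

def k58_pm_012_s : ∃ t, chk3 f_pm_012_s t 72 59 1 = true :=
  ⟨(b (a (b (a (a (a (b (b (a (b (l 3) (b (l 203641847959) (c (l 16777464) (l 16777296)))) (b (b (l 261087035639) (c (l 135996113143) (l 132238016759))) (l 16777584))) (l 16777320)) (l 16776648)) (b (b (a (a (c (l 16777560) (l 16777472)) (l 16777408)) (l 16777176)) (l 16777208)) (l 16776040))) (a (b (a (l 16777144) (l 16776840)) (l 16775440)) (b (l 16776392) (l 16774840)))) (a (b (a (l 16775792) (l 16775192)) (l 16773952)) (b (a (l 16774600) (l 16772688)) (l 16772760)))) (a (a (b (l 16775440) (l 16774528)) (b (l 16773584) (l 16770720))) (a (b (l 16773712) (a (l 16769840) (b (l 16769640) (l 16768864)))) (b (c (l 16769920) (l 16769872)) (b (a (l 16769048) (l 16768456)) (l 16767984)))))) (b (a (a (b (l 16772936) (l 16771568)) (b (l 16771904)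 (a (l 16770024) (c (l 16769296) (b (l 16769096) (l 16768328)))))) (b (b (a (l 16769776) (a (l 16768880) (b (l 16768472) (l 16768088)))) (c (a (l 16769056) (l 16767856)) (a (l 16768960) (a (l 16768056) (l 16767448))))) (a (b (c (l 16768296) (a (l 16768496) (l 16767896))) (l 16767496)) (l 16766680)))) (a (a (b (b (a (l 16769408) (l 16768816)) (a (l 16768640) (l 16768048))) (l 16767192)) (b (a (b (l 16768224) (l 16767456)) (l 16767240)) (l 16766008))) (c (c (l 16765024) (l 16765008)) (b (l 16765688) (l 16764160)))))) (a (b (a (a (b (l 16772960) (a (l 16771696) (l 16771112))) (b (b (l 16772184) (l 16770088)) (l 16767616))) (b (a (b (l 16768384) (l 16767608)) (l 16766824)) (l 16765864))) (c (a (l 16767168) (c (l 16763544) (l 16763552))) (a (l 16765840) (l 16764816)))) (b (c (a (c (l 16764304) (l 16764304)) (c (l 16763272) (l 16761960))) (a (l 16765384) (l 16762528))) (c (a (c (l 16761232) (l 16761240)) (l 16760224)) (a (l 16761160) (l 16758824)))))), by decide +kernel⟩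

def k59_pm_012_s : ∃ t, chk3 f_pm_012_s t 73 59 1 = true :=
  ⟨(b (a (b (a (a (b (c (l 16767032) (b (l 16767304) (l 16766544))) (l 16765480)) (b (l 16765792) (l 16764280))) (c (l 16764400) (b (l 16763896) (l 16762400)))) (c (a (c (l 16763952) (l 16762632)) (l 16761552)) (a (b (l 16763296) (l 16761784)) (l 16760472)))) (c (b (a (l 16762128) (l 16760976)) (a (l 16759136) (l 16758016))) (b (a (l 16761056) (l 16758304)) (a (l 16757752) (l 16755344))))) (a (c (b (a (l 16760920) (l 16758544)) (a (l 16757888) (l 16756848))) (b (a (l 16759512) (l 16757144)) (a (l 16756480) (l 16754136)))) (c (b (c (l 16756248) (l 16756272)) (l 16753296)) (b (l 16755544) (l 16751920))))), by decide +kernel⟩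

def k60_pm_012_s : ∃ t, chk3 f_pm_012_s t 74 29 1 = true :=
  ⟨(b (b (a (b (a (b (a (l 16769640) (a (l 16768024) (b (l 16767752) (l 16767024)))) (b (a (l 16767888) (a (a (l 16767096) (l 16766776)) (l 16766296))) (a (a (l 16767472) (c (l 16766864) (l 16766784))) (l 16765880)))) (a (b (b (a (l 16767112) (c (l 16769088) (l 16769048))) (c (l 16768680) (l 16768640))) (l 16764960)) (c (l 16767000) (l 16765688)))) (a (a (a (b (b (l 16766248) (l 16766008)) (l 16764904)) (l 16766312)) (l 16765360)) (c (l 16764736) (l 16763424)))) (a (b (c (l 16765056) (l 16765072)) (l 16762192)) (b (b (l 16763192) (l 16764408)) (c (l 16759912) (l 16757024))))) (a (a (b (c (l 16764376) (l 16761712)) (c (l 16761440) (l 16758792))) (b (c (l 16761816) (l 16759216)) (c (l 16758928) (l 16756312)))) (a (b (l 16758992) (l 16756448)) (b (l 16756880) (l 16754048))))) (b (a (a (b (a (l 16759136) (l 16757904)) (l 16756248)) (b (l 16757360) (l 16753144))) (c (b (l 16752592) (l 16752336)) (a (l 16752144) (l 16752312)))) (a (c (b (l 16754040)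 (l 16751128)) (b (l 16751432) (l 16745888))) (b (b (l 16749944) (l 16748512)) (a (c (b (l 16743128) (l 16741712)) (l 16742320)) (b (l 16743296) (l 16739360))))))), by decide +kernel⟩

def k61_pm_012_s : ∃ t, chk3 f_pm_012_s t 75 29 1 = true :=
  ⟨(a (b (b (c (b (a (l 16760392) (l 16755528)) (c (l 16756648) (l 16756352))) (b (l 16758784) (l 16756000))) (a (b (l 16754576) (l 16751752)) (b (l 16752312) (l 16752120)))) (b (b (c (l 16750704) (l 16744928)) (b (l 16748272) (l 16746848))) (b (a (c (l 16743496) (l 16740360)) (b (l 16744360) (l 16737816))) (c (l 16737296) (l 16736648))))) (b (b (a (c (b (l 16757272) (l 16750584)) (l 16753984)) (c (b (l 16751208) (l 16748448)) (l 16751752))) (c (b (c (l 16746928) (l 16751784)) (l 16743936)) (c (l 16748744) (l 16749768)))) (b (a (b (l 16741848) (b (l 16739720) (l 16743608))) (b (l 16742288) (b (l 16743528) (l 16736344)))) (c (b (l 16741120) (l 16733376)) (l 16733792))))), by decide +kernel⟩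

def k62_pm_012_s : ∃ t, chk3 f_pm_012_s t 18 30 2 = true :=
  ⟨(a (b (a (b (a (b (a (l 16764048) (l 16761776)) (a (l 16762248) (l 16759984))) (b (a (l 16760792) (l 16758488)) (c (l 16756568) (l 16756568)))) (a (b (c (l 16757984) (l 16757992)) (a (l 16753344) (b (l 16751912) (l 16751648)))) (a (b (l 16752008) (b (l 16749680) (l 16748072))) (b (c (l 16752368) (l 16749736)) (c (l 16749176) (l 16746592)))))) (b (a (a (b (l 16753552) (l 16750520)) (b (l 16751224) (l 16748216))) (b (l 16750984) (a (b (l 16746648) (l 16745128)) (b (l 16744288) (l 16742744))))) (a (b (a (b (l 16748240) (l 16746680)) (a (l 16746704) (l 16744544))) (l 16745760)) (b (l 16746936) (l 16744288))))) (a (b (b (a (a (b (l 16752280) (l 16749328)) (c (l 16747856) (l 16747904))) (l 16747192)) (a (c (l 16746096) (l 16745840)) (l 16744400))) (a (c (b (l 16748496) (l 16740320)) (l 16744696)) (b (l 16740872) (l 16735960)))) (b (a (b (l 16745672) (l 16740264)) (c (l 16737808) (l 16734736))) (a (b (l 16737408) (l 16731856)) (b (l 16730696)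 (l 16727784)))))) (b (a (b (a (b (c (b (l 16746304) (l 16744968)) (l 16745584)) (l 16745496)) (a (l 16743768) (l 16739128))) (a (c (l 16739176) (l 16736144)) (b (l 16738864) (l 16730952)))) (a (b (b (l 16734776) (l 16732208)) (b (l 16729584) (l 16726904))) (b (b (l 16730832) (l 16728240)) (c (l 16724608) (l 16723920))))) (b (a (a (b (l 16737528) (l 16729504)) (a (l 16730488) (l 16725824))) (a (c (l 16723144) (l 16722448)) (l 16722688))) (a (a (b (l 16726656) (l 16723744)) (l 16723776)) (b (l 16716496) (l 16713592)))))), by decide +kernel⟩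

def k63_pm_012_s : ∃ t, chk3 f_pm_012_s t 18 31 2 = true :=
  ⟨(a (b (a (a (b (b (l 16737048) (l 16733912)) (b (l 16730696) (l 16727384))) (b (b (l 16732936) (l 16729824)) (b (l 16726632) (l 16723352)))) (b (b (a (l 16728848) (l 16724792)) (l 16726360)) (b (l 16720576) (a (l 16719344) (l 16715360))))) (b (a (b (a (l 16723992) (l 16720008)) (a (l 16720520) (l 16716576))) (b (l 16714064) (l 16710696))) (a (b (c (l 16715528) (l 16714496)) (a (l 16713264) (l 16709392))) (b (l 16707216) (l 16708872))))) (b (b (a (a (l 16724496) (l 16715208)) (b (l 16710624) (l 16707600))) (a (b (a (l 16714584) (l 16710568)) (a (l 16711408) (l 16707448))) (b (l 16709792) (l 16701504)))) (b (a (b (l 16706224) (l 16702928)) (b (l 16698392) (l 16695176))) (a (b (l 16699520) (l 16696008)) (b (l 16691856) (l 16688424)))))), by decide +kernel⟩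

def k64_pm_012_s : ∃ t, chk3 f_pm_012_s t 18 15 3 = true :=
  ⟨(b (a (b (a (b (a (b (a (l 16762712) (l 16760400)) (a (l 16759576) (l 16757280))) (a (b (l 16758080) (l 16754984)) (b (l 16755760) (l 16754008)))) (a (c (b (l 16757952) (a (l 16758536) (l 16751056))) (b (l 16755224) (b (l 16752840) (l 16751248)))) (a (b (l 16751880) (b (l 16749528) (l 16753208))) (b (l 16749440) (l 16746504))))) (b (a (b (a (l 16753448) (l 16751120)) (a (l 16750400) (l 16748096))) (b (l 16748944) (a (b (l 16746544) (l 16745040)) (l 16743480)))) (a (b (a (b (l 16748104) (l 16751808)) (l 16745056)) (l 16743120)) (l 16742728)))) (a (b (a (b (a (a (l 16750280) (l 16749496)) (l 16747832)) (l 16745752)) (b (l 16744496) (l 16741328))) (a (c (l 16746376) (l 16740952)) (l 16742008))) (b (a (l 16743744) (l 16739496)) (b (l 16737168) (l 16734120))))) (b (a (b (a (b (a (l 16744128) (l 16741776)) (l 16739992)) (l 16742152)) (a (l 16740944) (l 16731464))) (b (b (l 16737168) (l 16734488)) (a (l 16727248) (l 16733544)))) (b (a (b (l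 16734592) (l 16731704)) (a (l 16732088) (l 16717416))) (a (a (b (l 16725616) (l 16722592)) (l 16730408)) (b (l 16715120) (l 16712136)))))) (a (b (b (a (b (l 16737432) (a (l 16732992) (l 16728800))) (b (a (l 16727848) (l 16723664)) (l 16727784))) (b (a (l 16730168) (l 16719256)) (a (a (l 16726176) (l 16722048)) (a (l 16717936) (l 16713848))))) (b (a (b (a (l 16722632) (l 16718544)) (l 16722216)) (b (l 16712448) (l 16708904))) (a (b (l 16718488) (l 16715952)) (b (l 16705248) (l 16701472))))) (b (b (a (a (l 16717928) (l 16713768)) (l 16711472)) (a (b (l 16716264) (l 16712968)) (b (l 16713288) (l 16699600)))) (b (a (b (l 16704360) (l 16700888)) (b (l 16696312) (l 16692912))) (a (b (l 16697304) (l 16693600)) (b (l 16689400) (l 16685776))))))), by decide +kernel⟩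

def k65_pm_012_s : ∃ t, chk3 f_pm_012_s t 76 28 1 = true :=
  ⟨(b (a (b (a (a (b (l 16772928) (l 16768960)) (b (l 16771680) (b (l 16767080) (l 16769656)))) (a (b (l 16767816) (b (l 16768448) (l 16768552))) (b (l 16767872) (b (l 16767336) (l 16763496))))) (b (a (a (b (c (l 16768448) (l 16765424)) (c (l 16767248) (l 16764176))) (b (l 16767784) (l 16763256))) (c (l 16763840) (l 16767224))) (a (c (c (l 16763704) (l 16762088)) (l 16764320)) (c (l 16760136) (l 16759488))))) (a (b (b (a (b (l 16771240) (l 16767416)) (b (l 16770104) (l 16763688))) (l 16767072)) (c (b (l 16760456) (l 16758080)) (b (l 16759792) (l 16757312)))) (b (b (l 16767904) (l 16760376)) (b (l 16758016) (c (l 16756064) (l 16755176)))))) (b (b (a (a (c (c (l 16759936) (l 16759592)) (l 16759128)) (c (l 16757680) (l 16756936))) (a (a (l 16755712) (l 16754672)) (a (l 16753640) (l 16752616)))) (a (a (a (l 16758688) (l 16756304)) (b (l 16755368) (l 16754056))) (c (c (a (l 16753376) (l 16751416)) (l 16751848)) (l 16753736)))) (b (a (a (a (l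 16756024) (l 16754960)) (b (l 16752736) (l 16751400))) (c (c (a (l 16750784) (l 16748840)) (a (l 16750248) (l 16748240))) (l 16748464))) (a (c (a (l 16751864) (l 16749832)) (l 16752296)) (c (a (l 16747840) (l 16748496)) (l 16745760)))))), by decide +kernel⟩

def k66_pm_012_s : ∃ t, chk3 f_pm_012_s t 77 28 1 = true :=
  ⟨(b (b (b (a (c (l 16759920) (l 16759184)) (l 16760728)) (c (a (l 16757712) (l 16753808)) (a (l 16756856) (l 16752688)))) (a (a (b (l 16755960) (l 16753552)) (b (l 16753928) (l 16751536))) (a (b (l 16751920) (l 16749536)) (b (l 16749936) (l 16747560))))) (c (b (a (b (a (l 16751664) (l 16749720)) (c (a (l 16749488) (l 16747592)) (l 16747864))) (b (c (a (l 16748176) (l 16746320)) (l 16746464)) (c (a (l 16745720) (l 16743872)) (l 16743968)))) (a (b (c (a (l 16746928) (l 16745040)) (a (l 16746256) (l 16744296))) (c (a (l 16744280) (l 16742408)) (l 16742608))) (b (c (a (l 16743176) (l 16741336)) (l 16741392)) (c (a (l 16740552) (l 16738712)) (a (l 16739712) (l 16737800)))))) (b (a (b (l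 16749504) (l 16746928)) (b (l 16745384) (l 16742824))) (a (b (l 16744296) (l 16741608)) (b (l 16740200) (l 16740160)))))), by decide +kernel⟩

def k67_pm_012_s : ∃ t, chk3 f_pm_012_s t 38 29 1 = true :=
  ⟨(b (a (a (b (b (c (c (l 16750968) (l 16747872)) (l 16752488)) (c (c (l 16745576) (l 16745096)) (l 16744472))) (a (b (l 16743152) (l 16740352)) (b (l 16741048) (a (l 16738768) (l 16737720))))) (a (b (c (b (l 16745096) (l 16742312)) (l 16745296)) (b (l 16738976) (a (l 16739344) (l 16735752)))) (b (c (b (l 16743136) (l 16740352)) (l 16745824)) (b (c (l 16742800) (l 16736400)) (l 16734336))))) (b (a (c (b (c (l 16740616) (l 16739888)) (a (l 16738416) (b (l 16737216) (l 16735888)))) (b (l 16738872) (a (l 16737120) (l 16740352)))) (c (b (a (b (l 16738096) (l 16739360)) (b (a (l 16736696) (l 16735808)) (l 16734984))) (a (b (l 16735440) (l 16734168)) (l 16733112))) (b (a (l 16741064) (b (l 16734504) (l 16733216))) (a (l 16733184) (l 16731296))))) (a (b (a (c (l 16740968) (l 16734416)) (l 16733200)) (c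 (l 16732304) (l 16730848))) (c (b (l 16731400) (l 16728800)) (b (l 16729632) (l 16727008)))))) (b (a (a (b (a (b (l 16738240) (l 16743472)) (c (l 16736120) (l 16735160))) (c (l 16734560) (l 16733584))) (c (b (l 16733360) (l 16730848)) (b (l 16732176) (l 16729592)))) (a (c (b (l 16729752) (l 16727176)) (l 16732184)) (c (b (l 16726168) (l 16723520)) (l 16728256)))) (a (c (c (a (l 16736360) (l 16727408)) (a (l 16730496) (l 16726648))) (a (b (l 16731008) (l 16728384)) (l 16730896))) (c (a (b (l 16724568) (l 16721936)) (b (l 16720840) (l 16718144))) (a (l 16721632) (l 16717616)))))), by decide +kernel⟩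

def k68_pm_012_s : ∃ t, chk3 f_pm_012_s t 78 28 1 = true :=
  ⟨(b (b (a (b (l 16751520) (l 16749296)) (a (l 16750128) (l 16745568))) (c (a (b (l 16747776) (c (l 16745904) (l 16745048))) (b (l 16744048) (c (l 16742272) (l 16741256)))) (a (b (l 16746248) (l 16743824)) (b (l 16742240) (l 16739824))))) (b (a (c (b (c (a (l 16744480) (l 16742656)) (l 16742640)) (c (a (l 16742040) (l 16740224)) (l 16740152))) (b (l 16741336) (l 16738784))) (b (c (c (b (l 16740528) (l 16739336)) (l 16738864)) (l 16737344)) (c (a (c (l 16738408) (l 16737328)) (a (b (l 16737112) (l 16738512)) (b (l 16736208) (l 16735040)))) (a (l 16735792) (b (l 16734456) (l 16733224)))))) (a (c (b (a (c (l 16739504) (l 16738544)) (b (l 16737808) (c (a (l 16737496) (l 16736624)) (l 16736008)))) (a (b (c (l 16740176) (l 16736568)) (c (a (l 16736696) (l 16735856)) (l 16735288))) (a (b (l 16738336) (l 16734496)) (l 16734264)))) (b (a (l 16737184) (l 16736496)) (a (b (l 16735184) (l 16733880)) (c (l 16733136) (l 16732160))))) (b (c (a (b (a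 (l 16736432) (l 16735568)) (l 16734808)) (l 16733720)) (a (b (l 16733872) (l 16732632)) (l 16731392))) (c (a (l 16733008) (l 16731328)) (l 16729840)))))), by decide +kernel⟩

def k69_pm_012_s : ∃ t, chk3 f_pm_012_s t 79 28 1 = true :=
  ⟨(b (b (b (a (l 16749240) (l 16740472)) (a (c (l 16742768) (l 16740744)) (a (l 16739040) (l 16737056)))) (a (a (c (b (l 16741328) (l 16739032)) (l 16738080)) (b (l 16738504) (a (l 16741784) (c (l 16742072) (l 16734408))))) (b (a (c (l 16737840) (l 16735384)) (c (b (l 16736552) (l 16735456)) (l 16733392))) (a (b (a (l 16735232) (l 16734320)) (l 16736264)) (c (l 16733848) (l 16731080)))))) (c (b (a (b (b (a (l 16737248) (a (l 16735952) (l 16735112))) (a (a (l 16736504) (l 16735648)) (l 16734416))) (a (c (l 16735008) (l 16733752)) (l 16732728))) (b (c (l 16733232) (l 16731768)) (c (l 16730984) (l 16729472)))) (a (a (b (c (l 16732704) (l 16731400)) (l 16732256)) (b (l 16730392) (l 16727960))) (a (b (l 16728712) (l 16726256)) (b (l 16727000) (l 16724536))))) (b (a (b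 (a (l 16734392) (l 16732504)) (a (l 16731968) (l 16730112))) (b (l 16729696) (l 16727312))) (a (b (a (l 16729544) (l 16727680)) (c (l 16726760) (l 16725480))) (b (l 16724856) (c (l 16723072) (l 16721616))))))), by decide +kernel⟩

def k70_pm_012_s : ∃ t, chk3 f_pm_012_s t 39 29 1 = true :=
  ⟨(b (a (b (a (c (a (b (l 16733920) (l 16731416)) (b (l 16732240) (l 16729720))) (b (l 16731048) (l 16728472))) (c (a (b (l 16730552) (l 16728008)) (b (l 16728848) (l 16726296))) (b (l 16727312) (c (l 16725304) (l 16724152))))) (a (c (b (l 16727976) (l 16725312)) (b (l 16725856) (l 16723184))) (c (b (c (l 16725176) (l 16723888)) (l 16721832)) (b (l 16722072) (l 16719376))))) (c (b (a (a (b (l 16727144) (l 16724568)) (b (l 16725448) (l 16722848))) (a (b (l 16723728) (l 16721112)) (b (l 16721976) (l 16719344)))) (a (a (b (l 16721920) (l 16719200)) (b (l 16720184) (l 16717440))) (a (b (l 16718416) (l 16715656)) (b (l 16716632) (a (l 16714312) (l 16713400)))))) (b (a (b (c (l 16724216) (l 16722912)) (c (l 16721608)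 (l 16720288))) (b (c (l 16720504) (l 16719024)) (c (l 16717864) (l 16716376)))) (a (b (c (l 16718936) (l 16717616)) (l 16718168)) (b (c (l 16715168) (l 16713680)) (c (l 16712408) (l 16710944))))))) (a (b (c (a (b (l 16722616) (l 16719880)) (b (l 16719072) (l 16716272))) (a (b (l 16720480) (l 16717744)) (b (l 16716624) (l 16713856)))) (c (a (b (l 16717136) (l 16714368)) (b (l 16713448) (l 16710616))) (a (l 16713624) (l 16709656)))) (b (a (c (b (c (l 16718872) (l 16714808)) (c (l 16713384) (l 16711960))) (b (l 16712776) (l 16709960))) (c (a (b (l 16712832) (l 16709944)) (b (l 16716248) (l 16708096))) (b (l 16708872) (l 16706032)))) (c (a (b (l 16709776) (l 16706856)) (c (b (l 16706832) (l 16703832)) (l 16703824))) (a (l 16710944) (l 16706944)))))), by decide +kernel⟩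

def k71_pm_012_s : ∃ t, chk3 f_pm_012_s t 19 30 1 = true :=
  ⟨(a (b (a (a (b (c (b (l 16726944) (l 16724312)) (l 16724384)) (c (c (l 16720696) (l 16719912)) (l 16718912))) (c (b (c (l 16722192) (l 16721368)) (l 16721608)) (b (l 16720296) (l 16714792)))) (c (b (a (c (l 16718392) (l 16717456)) (c (l 16714576) (l 16713528))) (a (l 16717672) (l 16708472))) (b (a (l 16716216) (l 16712128)) (a (l 16710672) (l 16706536))))) (a (b (c (a (l 16720000) (l 16710792)) (a (l 16713256) (l 16709128))) (c (a (l 16709032) (l 16705040)) (l 16710584))) (b (c (c (l 16715800) (l 16704264)) (l 16713384)) (c (l 16706832) (l 16697048))))) (b (a (b (c (c (a (l 16710768) (l 16706960)) (l 16718136)) (a (l 16708064) (l 16704016))) (c (b (l 16714440) (l 16701072)) (l 16710840))) (b (c (a (c (l 16703152) (l 16701816)) (c (l 16699296) (l 16697864))) (a (l 16699960) (l 16695880))) (c (a (l 16696584) (l 16692552)) (l 16692096)))) (a (b (c (b (l 16698168) (l 16695240)) (l 16694592)) (c (a (l 16692856) (l 16688784)) (l 16699216)))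 (b (c (a (l 16690640) (l 16686496)) (l 16686248)) (c (b (l 16684032) (l 16681168)) (b (l 16681824) (l 16678952))))))), by decide +kernel⟩

def k72_pm_012_s : ∃ t, chk3 f_pm_012_s t 19 31 1 = true :=
  ⟨(b (a (b (a (b (c (l 16702584) (l 16700816)) (c (l 16710080) (l 16697752))) (b (c (l 16694520) (l 16692560)) (c (l 16691632) (l 16689576)))) (a (c (b (l 16696656) (l 16693704)) (b (l 16694672) (l 16691552))) (c (l 16687408) (l 16685096)))) (a (b (b (c (l 16686448) (l 16684320)) (c (l 16683776) (l 16681496))) (c (l 16679680) (l 16677120))) (b (c (l 16677320) (l 16674872)) (c (l 16672056) (l 16669232))))) (a (a (b (c (b (l 16690664) (l 16687528)) (l 16691928)) (c (b (l 16684288) (l 16680936)) (b (l 16681568) (l 16678016)))) (b (c (l 16681480) (l 16678792)) (c (b (l 16676776) (l 16673504)) (b (l 16673792) (l 16670320))))) (b (a (c (l 16673904) (l 16670968)) (c (l 16666448) (l 16663224))) (a (c (l 16678232) (l 16664392)) (c (l 16670936) (l 16656800)))))), by decide +kernel⟩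

def k73_pm_012_s : ∃ t, chk3 f_pm_012_s t 10 4 1 = true :=
  ⟨(a (a (l 3) (l 2)) (l 2)), by decide +kernel⟩

def k74_pm_012_s : ∃ t, chk3 f_pm_012_s t 40 5 1 = true :=
  ⟨(b (l 3) (a (l 3) (b (l 3) (a (b (l 3) (b (l 3) (a (l 3) (c (b (a (l 3) (l 170892722183)) (a (l 186461978631) (l 45264931943))) (b (l 204715589479) (l 86067126119)))))) (a (b (l 3) (b (c (b (a (l 3) (l 141901694871)) (a (l 158007822247) (l 16776760))) (a (l 135459245303) (l 86603996391))) (c (a (b (l 16778120) (l 16776192)) (l 16778472)) (l 16778608)))) (a (b (b (l 3) (c (b (l 3) (l 120963729623)) (l 120963737415))) (b (b (l 16777968) (l 16776024)) (l 16777696))) (b (b (b (l 3) (l 204178718839)) (b (a (l 103246991991) (l 16776968)) (l 16776568))) (b (l 16778280) (l 16777112))))))))), by decide +kernel⟩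

def k75_pm_012_s : ∃ t, chk3 f_pm_012_s t 41 20 1 = true :=
  ⟨(a (l 3) (b (l 2) (a (a (l 3) (b (l 2) (a (b (l 116131897159) (l 100562639527)) (a (l 16779760) (l 16777008))))) (b (l 2) (a (a (a (l 16776856) (c (l 16782000) (l 16781832))) (a (l 16776576) (l 16781784))) (b (l 2) (a (a (a (l 16776408) (a (l 16776400) (l 16781640))) (l 16776352)) (l 16776232)))))))), by decide +kernel⟩

def k76_pm_012_s : ∃ t, chk3 f_pm_012_s t 41 21 1 = true :=
  ⟨(a (a (l 3) (b (l 3) (a (l 3) (a (b (l 3) (b (l 3) (l 124721831175))) (b (b (l 3) (l 180019532263)) (c (l 65129159527) (l 73719092183))))))) (a (a (a (a (b (l 3) (b (c (l 104857606695) (l 129553668935)) (l 16779448))) (b (b (l 3) (l 166597760279)) (b (c (l 16779672) (l 16777040)) (l 16776624)))) (b (b (c (l 162302793431) (l 168208373159)) (b (l 82309027751) (l 16779672))) (b (c (l 16779360) (l 16776704)) (c (l 16776264) (l 16776208))))) (a (b (a (b (l 93583317047) (l 16779480)) (b (l 16779656) (l 16776664))) (b (b (l 16779032) (l 16781368)) (c (l 16775712)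 (l 16775648)))) (a (b (b (l 16776872) (l 16779080)) (b (l 16781128) (l 16775216))) (b (b (l 16776688) (l 16781464)) (b (l 16780832) (l 16774840)))))) (a (a (a (b (b (l 16779104) (l 16781192)) (b (l 16780480) (c (l 16774392) (l 16774344)))) (b (b (l 16781464) (l 16780840)) (b (c (l 16780072) (l 16779976)) (c (l 16779072) (l 16778952))))) (a (b (b (l 16776096) (c (l 16775536) (l 16775328))) (b (c (l 16774704) (l 16774456)) (l 16778776))) (b (b (c (l 16776240) (l 16775896)) (c (l 16775640) (l 16775208))) (b (c (l 16774896) (l 16774248)) (c (l 16774032) (l 16773112)))))) (a (a (a (b (b (l 16779984) (l 16780664)) (b (l 16779856) (l 16778880))) (a (b (b (l 16776056) (l 16775456)) (b (l 16779912) (l 16778960))) (b (b (c (l 16780408) (l 16775656)) (c (l 16781232) (l 16774944))) (b (c (c (l 16775648) (l 16775000)) (l 16779304)) (c (l 16779720) (l 16773016)))))) (b (b (l 16776000) (l 16775392)) (b (l 16774592) (l 16773624)))) (b (b (l 16775880) (l 16775264)) (b (l 16774464) (l 16773488))))))), by decide +kernel⟩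

def k77_pm_012_s : ∃ t, chk3 f_pm_012_s t 82 11 1 = true :=
  ⟨(a (b (b (l 3) (a (a (l 3) (b (l 3) (b (l 3) (a (l 194515044567) (l 95730799559))))) (b (a (b (l 3) (l 192367561143)) (b (l 111300058247) (l 16779632))) (a (b (l 83919640519) (l 16779352)) (a (l 16779136) (l 16778840)))))) (b (b (a (a (c (b (l 176798304311) (l 64055412695)) (l 117742506055)) (a (b (l 16779656) (l 16776512)) (l 16779064))) (c (a (l 16778696) (l 16775568)) (l 16775552))) (a (c (a (l 16778888) (l 16775696)) (l 16778336)) (a (l 16777584) (l 16779736)))) (a (a (b (l 16777688) (l 16779256)) (b (l 16777152) (l 16773568))) (b (c (l 16779368) (l 16773504)) (c (b (l 16773552) (l 16778248)) (l 16777632)))))) (a (a (b (b (b (l 3) (b (l 198810011639) (l 92509575399))) (b (c (l 16779320) (l 16776624)) (c (l 16775944) (l 16775744)))) (b (b (a (l 16777712) (l 16780152)) (l 16774144)) (b (l 16778544) (b (l 16777768) (l 16771544))))) (b (b (a (b (l 3) (l 60834191031)) (b (l 118279381143) (l 16776760))) (b (l 16780104) (l 16779376)))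 (b (b (l 16779928) (l 16773928)) (b (b (l 16773288) (l 16777872)) (l 16770928))))) (a (b (b (b (c (l 56539224263) (l 16779632)) (l 16779048)) (b (l 16780400) (l 16780424))) (b (b (l 16779760) (b (l 16774008) (l 16778728))) (b (c (l 16772632) (l 16771680)) (l 16769848)))) (b (b (b (c (l 16776648) (l 16776576)) (c (l 16776192) (l 16776024))) (b (l 16780840) (l 16775064))) (b (b (b (l 16774640) (l 16774264)) (b (l 16778920) (l 16772720))) (b (l 16771112) (l 16768904))))))), by decide +kernel⟩

def k78_pm_012_s : ∃ t, chk3 f_pm_012_s t 166 11 1 = true :=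
  ⟨(a (a (b (b (a (b (l 16779024) (l 16775976)) (b (l 16781456) (l 16775784))) (c (b (l 16775624) (l 16780448)) (b (l 16775240) (l 16774648)))) (b (c (b (c (l 16779784) (l 16784648)) (l 16772680)) (b (l 16778816) (l 16771608))) (c (b (l 16770784) (l 16768888)) (b (l 16769352) (l 16767056))))) (b (b (b (l 16780352) (l 16780520)) (c (b (l 16774928) (b (l 16774448) (l 16773904))) (b (l 16774560) (l 16784048)))) (b (c (b (l 16772648) (l 16770928)) (b (l 16771800) (l 16769688))) (c (b (l 16769184) (l 16767512)) (l 16776280))))) (a (b (b (b (l 16780344) (a (l 16774728) (l 16779520))) (c (b (c (l 16773816) (l 16773656)) (l 16772392)) (b (l 16778632) (l 16771736)))) (b (c (b (l 16770912) (l 16769392)) (b (l 16769848) (l 16767864))) (b (l 16774728) (l 16775680)))) (b (b (b (c (l 16779488) (l 16779416)) (c (l 16778616) (l 16778384))) (c (b (l 16772136) (l 16770904)) (b (l 16771584) (l 16769920)))) (b (c (b (l 16769672) (l 16768424)) (b (l 16768208) (l 16766432))) (b (c (l 16767192) (l 16764664)) (l 16774984)))))),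 by decide +kernel⟩

def k79_pm_012_s : ∃ t, chk3 f_pm_012_s t 167 11 1 = true :=
  ⟨(a (a (b (a (b (b (c (l 16773408) (l 16773264)) (l 16777336)) (b (l 16776056) (l 16780024))) (b (b (a (l 16772808) (l 16772504)) (l 16777392)) (b (l 16778208) (a (l 16769272) (l 16769168))))) (b (b (c (c (l 16769728) (l 16768656)) (l 16777576)) (c (c (l 16768904) (l 16767552)) (l 16776064))) (c (b (l 16777752) (l 16766400)) (c (l 16774688) (l 16772992))))) (a (b (b (b (l 16777680) (l 16776592)) (b (l 16780752) (l 16779672))) (b (b (l 16778592) (l 16766984)) (b (l 16765864) (l 16764824)))) (b (b (b (l 16777736) (l 16781912)) (b (l 16780848) (l 16779792))) (b (b (l 16778720) (l 16777624)) (b (l 16766032) (l 16765000)))))) (a (a (a (b (b (b (l 16772592) (l 16771552)) (c (l 16779032) (l 16779344))) (b (b (l 16768424) (l 16767344)) (b (l 16766256) (l 16765232)))) (a (b (b (b (l 16772704) (l 16771688)) (c (l 16781856) (l 16779464))) (b (b (l 16768608) (l 16767536)) (b (l 16766464) (l 16765448)))) (c (b (b (b (l 16784048)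 (l 16772656)) (b (l 16771768) (l 16781368))) (b (b (l 16780488) (l 16779584)) (b (l 16768200) (l 16767360)))) (b (b (b (l 16771904) (l 16770776)) (b (l 16769624) (l 16768456))) (b (b (l 16767256) (l 16766024)) (l 16774656)))))) (b (b (b (l 16772584) (l 16771536)) (b (l 16770480) (l 16769416))) (b (b (l 16768344) (l 16767240)) (b (l 16766136) (l 16765072))))) (b (b (b (l 16772424) (l 16771344)) (b (l 16770256) (l 16769160))) (b (b (l 16768048) (l 16766920)) (b (l 16765760) (l 16764648)))))), by decide +kernel⟩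

def k80_pm_012_s : ∃ t, chk3 f_pm_012_s t 21 5 1 = true :=
  ⟨(b (b (a (b (l 2) (a (b (l 2) (c (l 16776336) (l 16774984))) (l 2))) (l 2)) (a (b (a (b (c (l 16775928) (l 16774384)) (c (l 16775360) (l 16773616))) (b (l 16774024) (l 16773248))) (a (b (c (l 16774616) (l 16772680)) (c (l 16773672) (l 16771576))) (b (l 16772296) (l 16781664)))) (b (a (b (l 2) (l 16772264)) (l 2)) (b (a (l 16771200) (l 16770360)) (a (l 16769968) (l 16769016)))))) (b (a (b (a (b (c (l 16772600) (l 16770360)) (c (l 16771408) (l 16769040))) (b (l 16780352) (l 16778904))) (b (a (c (l 16770232) (l 16767680)) (l 16766848)) (a (c (l 16769040) (l 16766288)) (l 16765240)))) (b (a (b (l 16768560) (l 16766936)) (b (l 16767496) (l 16765768))) (a (b (l 16765152) (l 16763224)) (b (l 16763800) (l 16761664))))) (b (a (a (b (c (l 16767848) (l 16764848)) (c (l 16766632) (l 16763384))) (b (l 16763584) (l 16761888))) (b (a (l 16761256) (l 16759360)) (a (l 16759224) (l 16757008)))) (b (a (a (l 16774088) (l 16760152)) (a (l 16757144) (l 16754584)))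 (a (a (l 16772736) (l 16758360)) (l 16769200)))))), by decide +kernel⟩

def k81_pm_012_s : ∃ t, chk3 f_pm_012_s t 11 2 1 = true :=
  ⟨(b (l 2) (b (a (b (l 2) (a (b (l 2) (b (l 2) (l 16789064))) (l 2))) (l 2)) (a (b (a (b (b (l 16787376) (l 16785488)) (b (a (l 16762808) (l 16762080)) (a (l 16760472) (l 16759648)))) (b (b (l 2) (l 16763840)) (b (l 16761520) (l 16758936)))) (b (a (b (a (l 16757952) (l 16756928)) (a (l 16755256) (l 16754008))) (b (l 16756064) (l 16752864))) (a (a (l 16772064) (l 16749328)) (b (l 16749448) (l 16745856))))) (b (b (l 2) (a (b (l 2) (l 16759032)) (l 2))) (a (b (b (l 16755968) (l 16752616)) (b (l 16748944) (l 16744872))) (b (l 16776256) (l 16747640))))))), by decide +kernel⟩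

def k82_pm_012_s : ∃ t, chk3 f_pm_012_s t 40 24 1 = true :=
  ⟨(b (a (a (l 3) (b (l 3) (a (l 3) (a (c (b (l 3) (l 188609462263)) (l 205252460343)) (c (b (l 195051913207) (l 16778128)) (l 128479923751)))))) (c (a (b (b (a (a (l 3) (l 194515042311)) (a (l 62444799671) (l 16776208))) (a (a (l 196662525959) (l 65129154247)) (l 16775864))) (a (a (b (l 65129154215) (l 16776168)) (l 16775832)) (l 16777448))) (a (b (c (l 16777632) (l 16774816)) (l 16778920)) (b (l 16779144) (l 16778120)))) (a (a (b (b (l 213842394935) (l 91435835415)) (l 16781248)) (b (l 16778656) (l 16774488))) (a (l 16779072) (b (l 16773288) (l 16772056)))))) (b (a (a (l 3) (a (c (b (a (l 3) (l 171966465799)) (a (l 161765918295) (l 16776704))) (b (l 134922382055) (l 105931344343))) (a (a (b (l 16778240) (l 16776128)) (l 16778808)) (l 16778248)))) (a (a (a (l 16777512) (l 16779432)) (l 16778440)) (a (c (l 16777640) (l 16771624)) (c (b (l 16777088) (l 16776272)) (l 16780856))))) (a (a (a (l 3) (b (c (a (l 3) (l 146733532887)) (l 134385510375))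 (c (a (l 97878283783) (l 16776456)) (l 16776720)))) (a (c (b (l 16778832) (l 16775280)) (l 16775616)) (c (l 16776968) (l 16774024)))) (a (c (a (l 16773128) (l 16777208)) (l 16778512)) (a (a (l 16776024) (l 16775400)) (l 16778944)))))), by decide +kernel⟩

def k83_pm_012_s : ∃ t, chk3 f_pm_012_s t 40 25 1 = true :=
  ⟨(a (b (b (a (c (a (b (a (l 248202133783) (l 81772155735)) (l 55465477703)) (l 16777936)) (a (a (l 142438566279) (l 16776424)) (l 16775168))) (a (l 16776256) (l 16777456))) (a (c (c (l 16779144) (l 16779024)) (l 16778864)) (a (l 16776656) (c (l 16775504) (l 16769584))))) (a (b (c (l 16776624) (l 16771016)) (a (l 16774424) (c (l 16773376) (l 16767520)))) (a (b (c (l 16774488) (l 16768592)) (l 16771760)) (b (c (l 16776048) (l 16777784)) (l 16764800))))) (b (a (b (a (c (l 16776496) (l 16770528)) (a (l 16775344) (l 16774720))) (a (c (l 16777224) (l 16778904)) (l 16767112))) (a (b (l 16767936) (l 16765080)) (b (l 16765664) (l 16762688)))) (a (c (b (l 16776280) (l 16773368)) (a (l 16774496)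 (l 16772464))) (b (c (l 16772216) (l 16770456)) (c (l 16769088) (l 16777616)))))), by decide +kernel⟩

def k84_pm_012_s : ∃ t, chk3 f_pm_012_s t 40 13 1 = true :=
  ⟨(b (a (b (a (a (b (a (l 16772104) (l 16771552)) (l 16763880)) (b (l 16765216) (l 16762456))) (b (c (l 16773896) (l 16772736)) (c (l 16771032) (l 16759144)))) (b (a (c (l 16760808) (l 16759544)) (c (l 16767944) (l 16755792))) (a (c (l 16757568) (l 16756024)) (c (l 16764496) (l 16752088))))) (b (a (b (c (l 16759872) (l 16758240)) (c (l 16756824) (l 16754944))) (b (l 16770008) (l 16766680))) (b (a (c (l 16753600) (l 16751448)) (l 16768424)) (c (a (l 16750040) (l 16745256)) (a (l 16747616) (l 16742264)))))) (a (b (a (b (c (l 16753992) (l 16752184)) (c (l 16755328) (l 16748024))) (c (b (l 16750224) (l 16756592)) (b (l 16748056) (l 16743704)))) (b (a (b (l 16756288) (l 16743552)) (c (b (l 16742808) (l 16740504)) (l 16739048))) (a (b (l 16741224) (l 16738824)) (a (b (l 16737888) (l 16735512)) (b (a (l 16736096) (l 16740360)) (l 16733568))))))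 (b (a (b (c (l 16746128) (l 16743440)) (c (a (l 16742984) (l 16740736)) (a (l 16740208) (l 16737672)))) (b (a (l 16741016) (b (l 16739272) (l 16737128))) (a (b (l 16737680) (a (l 16741416) (l 16735136))) (c (l 16736480) (b (l 16733608) (l 16731880)))))) (b (a (a (b (l 16738096) (c (l 16737368) (l 16734320))) (b (c (l 16737504) (l 16734272)) (l 16733936))) (c (b (l 16734816) (l 16733144)) (l 16740776))) (a (b (a (l 16733816) (l 16732104)) (l 16731048)) (c (b (l 16731344) (l 16729448)) (l 16726512))))))), by decide +kernel⟩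

def k85_pm_012_s : ∃ t, chk3 f_pm_012_s t 164 6 1 = true :=
  ⟨(a (b (b (a (b (b (l 16772992) (b (l 16772176) (l 16771400))) (b (l 16769392) (l 16766584))) (b (b (c (l 16778224) (l 16772064)) (b (l 16776784) (l 16770184))) (b (l 16768072) (l 16765272)))) (b (c (b (l 16774448) (l 16771544)) (c (l 16771592) (l 16770704))) (b (l 16767360) (l 16764056)))) (b (b (b (l 16771168) (l 16767760)) (b (l 16743320) (l 16760608))) (b (b (b (l 16752464) (l 16745624)) (c (l 16734864) (l 16730928))) (b (c (l 16742080) (l 16727488)) (b (l 16737176) (l 16724704)))))) (b (b (b (b (a (b (l 16772344) (l 16776792)) (a (l 16776480) (l 16770560))) (c (l 16769512) (l 16768248))) (b (c (l 16766960) (l 16765440)) (l 16774064))) (b (c (l 16771296) (l 16769024)) (c (l 16768448) (l 16773472)))) (b (b (l 16766024) (b (l 16742840) (c (l 16752200) (l 16737464)))) (b (b (c (l 16738760) (l 16734312)) (c (l 16735544) (l 16730976))) (b (c (l 16731944) (l 16727256)) (c (l 16733192) (l 16723152))))))), by decide +kernel⟩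

def k86_pm_012_s : ∃ t, chk3 f_pm_012_s t 165 6 1 = true :=
  ⟨(b (b (b (c (a (b (l 16769704) (l 16767392)) (b (l 16767984) (l 16765944))) (a (c (l 16777944) (l 16777248)) (c (l 16775968) (l 16775024)))) (a (b (l 16774616) (l 16772288)) (b (c (l 16763960) (l 16761424)) (l 16771112)))) (b (a (b (l 16770016) (l 16767624)) (b (l 16769128) (l 16777552))) (a (c (l 16770792) (l 16772504)) (c (l 16765872) (l 16771992))))) (b (b (a (b (l 16749064) (l 16746160)) (b (l 16749384) (b (l 16747464) (l 16766960)))) (b (a (b (l 16743960) (l 16742416)) (b (l 16765592) (l 16743064))) (a (c (l 16742904) (l 16737888)) (l 16740696)))) (b (b (c (a (l 16739712) (l 16740152)) (l 16745120)) (c (a (l 16736184) (l 16736312)) (a (l 16731008) (l 16730608)))) (b (c (a (l 16732256) (l 16732080)) (a (l 16727000) (l 16726344))) (a (b (l 16726328) (l 16724064)) (b (l 16725704) (l 16723304))))))), by decide +kernel⟩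

def k87_pm_012_s : ∃ t, chk3 f_pm_012_s t 166 12 1 = true :=
  ⟨(b (b (a (a (b (l 16776376) (l 16774352)) (b (l 16775072) (l 16773288))) (a (b (l 16774088) (l 16772576)) (b (l 16773656) (l 16772400)))) (a (b (c (l 16773608) (l 16759816)) (c (l 16761648) (l 16757888))) (b (c (l 16773312) (l 16758504)) (b (l 16780696) (l 16780120))))) (b (a (b (l 16773856) (l 16777416)) (b (b (l 16779560) (l 16779000)) (l 16778088))) (a (b (l 16775536) (l 16773472)) (b (c (l 16780064) (l 16752768)) (c (a (l 16756664) (l 16757552)) (l 16771368)))))), by decide +kernel⟩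

def k88_pm_012_s : ∃ t, chk3 f_pm_012_s t 167 12 1 = true :=
  ⟨(a (a (b (b (c (b (l 16765600) (l 16764856)) (l 16776400)) (b (l 16782448) (l 16781560))) (b (b (l 16780720) (c (l 16762328) (l 16755496))) (b (c (c (l 16772936) (l 16758768)) (l 16753448)) (l 16774784)))) (a (b (b (b (l 16763856) (l 16762952)) (l 16782672)) (b (b (l 16760512) (l 16780120)) (b (l 16756192) (l 16752552)))) (b (b (b (l 16764040) (l 16763136)) (b (l 16762280) (l 16761472))) (b (b (b (l 16760792) (l 16780976)) (c (l 16761232) (l 16754712))) (b (l 16754360) (l 16750632)))))) (a (b (b (a (a (b (l 16764272) (l 16763376)) (a (b (l 16764504) (l 16763616)) (c (b (l 16766584) (l 16765864)) (l 16772416)))) (l 16774104)) (b (a (a (l 16762528) (a (l 16762752) (a (a (l 16783760) (c (b (l 16775840) (c (l 16776120) (l 16763176))) (l 16770560))) (l 16762016)))) (l 16761816)) (a (a (l 16782488) (a (c (l 16784856) (l 16758400)) (a (a (l 16760264) (l 16780224)) (l 16758576)))) (l 16758376)))) (a (a (b (b (l 16780408) (l 16755976)) (b (l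 16752352) (l 16748552))) (a (b (b (l 16757872) (l 16754312)) (b (l 16750624) (l 16746768))) (a (a (b (l 16754872) (b (l 16749328) (l 16745440))) (b (b (l 16755616) (l 16751976)) (b (l 16748232) (l 16744328)))) (b (l 16753120) (l 16745656))))) (b (l 16752912) (l 16745432)))) (b (b (l 16773616) (b (l 16761296) (l 16757856))) (b (l 16752344) (l 16744848))))), by decide +kernel⟩

def k89_pm_012_s : ∃ t, chk3 f_pm_012_s t 166 13 1 = true :=
  ⟨(b (b (b (a (a (l 16749928) (l 16771416)) (a (l 16771848) (l 16750680))) (a (a (l 16768296) (l 16747448)) (l 16768216))) (a (b (l 16744072) (l 16740592)) (b (l 16764536) (c (l 16743120) (l 16736576))))) (b (c (a (b (l 16740000) (l 16735872)) (b (l 16739080) (l 16734680))) (a (b (l 16733872) (l 16729728)) (b (l 16732552) (l 16728168)))) (a (b (c (c (l 16733000) (l 16729760)) (l 16725216)) (c (b (l 16727736) (l 16725200)) (l 16720352))) (b (c (c (l 16731624) (l 16728208)) (l 16723424)) (c (b (l 16726064) (l 16723392)) (l 16718328)))))), by decide +kernel⟩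

def k90_pm_012_s : ∃ t, chk3 f_pm_012_s t 167 13 1 = true :=
  ⟨(a (a (b (b (b (l 16750128) (l 16746312)) (b (l 16742368) (l 16738320))) (b (c (b (l 16737520) (l 16732928)) (b (l 16730792) (l 16726248))) (b (c (c (l 16729704) (l 16726216)) (l 16721336)) (b (l 16731080) (l 16717856))))) (a (b (b (l 16767768) (c (l 16742104) (l 16735520))) (b (b (l 16732312) (c (l 16730992) (l 16724552))) (c (b (l 16725952) (l 16720536)) (l 16727448)))) (b (b (b (l 16746760) (l 16742784)) (c (l 16739744) (l 16733712))) (b (b (c (l 16733296) (l 16727312)) (c (l 16728656) (l 16722696))) (b (c (l 16723624) (l 16717712)) (c (l 16718224) (l 16712384))))))) (b (a (a (a (b (b (l 16744624) (l 16740608)) (c (l 16737272) (l 16731776))) (a (b (b (l 16742800) (l 16738768)) (b (l 16734672) (l 16730496))) (a (a (b (l 16760416) (c (l 16733688) (l 16728944))) (b (b (l 16740344) (l 16736312)) (b (l 16753208) (l 16749056)))) (b (l 16737752) (l 16729664))))) (b (l 16737528) (l 16729432))) (b (l 16736936) (l 16728824))) (a (a (a (b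 (b (c (l 16730832) (l 16725360)) (c (l 16726216) (l 16720744))) (b (c (l 16721208) (l 16715752)) (l 16713056))) (a (b (b (c (l 16728800) (l 16723728)) (c (l 16724200) (l 16719120))) (b (c (l 16719216) (l 16714136)) (l 16711272))) (a (a (b (b (l 16724856) (b (l 16721456) (l 16719064))) (b (c (l 16717776) (l 16712960)) (l 16709984))) (b (b (c (l 16726112) (l 16721664)) (c (l 16721576) (l 16717072))) (b (c (c (l 16717856) (l 16715472)) (l 16712120)) (c (l 16711352) (l 16706816))))) (b (b (l 16723368) (l 16718848)) (b (l 16713936) (l 16708664)))))) (b (b (l 16723136) (l 16718616)) (b (l 16713712) (l 16708448)))) (b (b (l 16722520) (l 16718016)) (b (l 16713128) (l 16707872)))))), by decide +kernel⟩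

def k91_pm_012_s : ∃ t, chk3 f_pm_012_s t 21 6 1 = true :=
  ⟨(b (b (b (a (a (b (l 16760920) (l 16759688)) (b (l 16756592) (l 16754840))) (b (l 16772032) (l 16769616))) (b (a (c (a (l 16760536) (l 16755536)) (l 16774104)) (l 16767248)) (a (a (l 16754816) (l 16749776)) (l 16763968)))) (b (a (b (l 16769112) (l 16765176)) (b (l 16738280) (l 16733528))) (b (a (l 16761208) (l 16728904)) (a (l 16759784) (l 16724504))))) (b (b (a (b (l 16753240) (l 16749160)) (b (l 16720160) (l 16736800))) (b (a (b (l 16746072) (l 16743984)) (l 16711664)) (a (c (l 16721960) (l 16717824)) (l 16728264)))) (c (b (a (b (l 16738752) (a (l 16716576) (l 16710080))) (b (l 16704904) (l 16700368))) (a (b (a (l 16711840) (l 16705432)) (a (l 16706680) (l 16700472))) (b (a (l 16698984) (l 16692528)) (a (l 16694120) (l 16687720))))) (b (a (b (l 16724040) (a (l 16712240) (l 16705776))) (b (l 16700792) (l 16696152))) (b (a (l 16725128) (l 16691440)) (a (l 16699080) (l 16686416))))))), by decide +kernel⟩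

def k92_pm_012_s : ∃ t, chk3 f_pm_012_s t 11 6 1 = true :=
  ⟨(b (b (a (a (b (b (l 16745520) (l 16742328)) (b (l 16739024) (l 16735456))) (b (l 16760992) (l 16752912))) (b (a (l 16759280) (l 16738360)) (a (l 16728696) (l 16727792)))) (b (a (a (l 16748816) (l 16742760)) (a (l 16717792) (l 16715672))) (a (a (l 16737760) (l 16709296)) (a (l 16703936) (l 16701048))))) (b (a (b (a (b (l 16709128) (l 16704408)) (l 16697208)) (a (b (l 16699792) (l 16695160)) (b (l 16689032) (l 16683992)))) (b (a (l 16690208) (l 16685480)) (a (l 16677272) (l 16670712)))) (a (b (a (c (l 16711272) (b (l 16688656) (l 16683856))) (b (l 16679016) (l 16694976))) (a (b (c (l 16683120) (l 16678912)) (c (l 16678160) (l 16673808))) (b (c (l 16671072) (l 16667024)) (c (l 16665936) (l 16661768))))) (b (a (b (l 16668528) (l 16663088)) (l 16677856)) (a (b (l 16657696) (c (l 16654136) (l 16650192))) (b (l 16647472) (l 16641592))))))), by decide +kernel⟩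

def k93_pm_012_s : ∃ t, chk3 f_pm_012_s t 80 28 1 = true :=
  ⟨(b (a (b (b (a (l 16737448) (c (l 16736744) (l 16733992))) (a (a (l 16735520) (l 16739800)) (l 16733160))) (c (b (l 16733424) (c (l 16732096) (l 16730512))) (b (l 16730504) (l 16728256)))) (b (a (b (l 16733384) (l 16731328)) (c (l 16732192) (l 16729016))) (c (b (l 16735200) (c (l 16728688) (l 16726928))) (b (l 16726688) (l 16724416))))) (c (b (a (b (c (l 16729920) (l 16728272)) (c (l 16727632) (l 16725936))) (a (b (l 16726432) (l 16724096)) (b (l 16724672) (c (l 16723280) (l 16721376))))) (a (b (c (a (l 16726120) (l 16724384)) (a (l 16724424) (l 16722608))) (c (a (l 16723648) (l 16721888)) (a (l 16721920) (l 16720088)))) (b (c (a (l 16722600) (l 16720848)) (a (l 16720752) (l 16718912))) (c (a (l 16720096) (l 16718312)) (a (l 16718224) (l 16716368)))))) (b (a (b (l 16725920) (l 16723512)) (b (l 16722064) (a (l 16720608) (l 16718664)))) (a (b (l 16721032) (c (l 16719312) (l 16717688))) (b (a (l 16718112) (l 16716160)) (a (l 16715552)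 (l 16713584))))))), by decide +kernel⟩

def k94_pm_012_s : ∃ t, chk3 f_pm_012_s t 81 28 1 = true :=
  ⟨(b (b (a (c (b (l 16730864) (l 16728824)) (l 16726256)) (a (l 16730552) (l 16733856))) (a (c (b (l 16726696) (c (l 16725496) (l 16723488))) (b (l 16722944) (l 16720632))) (c (b (l 16723184) (c (l 16722048) (l 16719808))) (b (l 16718992) (l 16716648))))) (a (b (c (b (c (l 16723216) (l 16721160)) (c (a (l 16721680) (l 16719992)) (a (l 16719648) (l 16717848)))) (b (l 16718240) (c (l 16716744) (l 16714832)))) (c (b (c (a (l 16719208) (l 16717488)) (a (l 16717152) (l 16715328))) (c (a (l 16716640) (l 16714888)) (a (l 16714576) (l 16712728)))) (b (c (l 16714224) (l 16712288)) (c (l 16711624) (l 16709688))))) (b (c (a (b (l 16719520) (c (l 16718208) (l 16715968))) (b (l 16717600) (l 16715128))) (b (l 16714224) (a (l 16712784) (l 16710680)))) (c (b (c (a (l 16715672) (l 16713744)) (a (l 16713424) (l 16711416))) (c (a (l 16713040) (l 16711080)) (a (l 16710792) (l 16708760)))) (b (a (l 16710224) (l 16708104))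 (a (l 16707600) (l 16705464))))))), by decide +kernel⟩

def k95_pm_012_s : ∃ t, chk3 f_pm_012_s t 40 58 1 = true :=
  ⟨(a (c (b (b (a (a (l 16720200) (l 16718392)) (a (l 16719160) (a (l 16715144) (l 16714264)))) (a (a (l 16717552) (l 16715720)) (a (l 16713856) (a (l 16712440) (l 16711552))))) (a (c (a (b (l 16715696) (l 16712896)) (b (l 16713888) (l 16711056))) (b (l 16713016) (l 16710216))) (c (a (b (l 16712032) (l 16709184)) (c (b (l 16710680) (l 16707800)) (l 16713520))) (b (a (l 16710168) (l 16708256)) (l 16706376))))) (b (a (b (c (l 16716712) (l 16715080)) (c (l 16714048) (l 16712416))) (b (a (l 16712936) (l 16710952)) (a (l 16710256) (l 16708256)))) (a (b (c (l 16711320) (l 16709704)) (l 16710352)) (b (c (l 16707392) (l 16705648)) (c (l 16704584) (l 16702864)))))) (c (b (a (a (c (b (l 16713976) (l 16711232)) (b (l 16711920) (l 16709192))) (c (b (l 16712192) (l 16709416)) (b (l 16710040) (l 16707280)))) (a (c (b (l 16710312) (l 16707504)) (b (l 16708080) (l 16705296))) (c (b (l 16708320) (l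 16705480)) (b (l 16706024) (l 16703216))))) (a (c (b (c (a (l 16708920) (l 16707088)) (l 16706952)) (c (a (l 16706008) (l 16704144)) (l 16704040))) (b (l 16708040) (l 16702536))) (c (c (b (a (l 16705160) (l 16703128)) (a (l 16702184) (l 16700112))) (b (l 16703024) (l 16700048))) (b (a (l 16702448) (l 16700344)) (l 16698456))))) (b (a (b (c (l 16708960) (l 16707024)) (c (l 16706232) (l 16704312))) (b (a (l 16704912) (l 16702760)) (a (l 16702160) (l 16700000)))) (a (b (c (l 16703440) (l 16701552)) (l 16699664)) (b (l 16708752) (l 16695416)))))), by decide +kernel⟩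

def k96_pm_012_s : ∃ t, chk3 f_pm_012_s t 40 59 1 = true :=
  ⟨(a (c (b (a (a (c (b (l 16710016) (l 16707072)) (l 16706872)) (c (b (l 16708160) (l 16705200)) (l 16704952))) (a (c (b (l 16706264) (l 16703280)) (l 16703000)) (c (b (l 16706992) (l 16701368)) (l 16701040)))) (a (c (b (l 16703112) (l 16700032)) (l 16699960)) (c (b (c (l 16699704) (l 16698824)) (l 16696144)) (l 16696008)))) (b (a (b (l 16704912) (l 16702048)) (b (l 16700872) (l 16697992))) (a (b (l 16699144) (l 16696208)) (b (l 16695064) (l 16692104))))) (c (b (a (c (a (b (l 16702528) (l 16699480)) (b (l 16705848) (l 16697528))) (b (l 16699592) (l 16696592))) (c (a (b (l 16703840) (l 16695496)) (b (l 16701728) (l 16693352))) (b (l 16695464) (l 16692416)))) (a (c (b (c (l 16695856) (l 16694912)) (l 16692208)) (l 16692000)) (c (b (c (l 16691728) (l 16690744)) (l 16688000)) (l 16687744)))) (b (a (b (l 16696792) (l 16693872)) (b (l 16692512) (l 16689568))) (a (b (l 16690920) (l 16687928)) (b (l 16686584) (l 16683568)))))), by decide +kernel⟩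

def k97_pm_012_s : ∃ t, chk3 f_pm_012_s t 40 15 1 = true :=
  ⟨(c (b (b (a (a (b (c (l 16695400) (l 16693896)) (l 16688456)) (b (c (l 16696632) (l 16689824)) (l 16684288))) (b (a (c (l 16692584) (l 16685704)) (c (l 16688296) (l 16681376))) (a (l 16680064) (l 16686080)))) (a (b (a (l 16682296) (l 16678032)) (b (l 16686216) (l 16673224))) (b (a (b (l 16675208) (l 16672192)) (b (l 16670720) (l 16668032))) (l 16666624)))) (b (b (a (l 16669600) (l 16661968)) (a (l 16664496) (l 16657032))) (b (a (l 16659064) (l 16651776)) (a (l 16653248) (b (l 16647584) (l 16644672)))))) (b (a (b (b (a (l 16691784) (l 16687616)) (l 16683704)) (b (l 16688240) (b (l 16673424) (l 16670800)))) (b (b (a (l 16683384) (l 16678992)) (l 16685512)) (b (a (l 16671304) (l 16666936)) (l 16663968)))) (b (b (a (l 16666888) (l 16658928)) (a (l 16661392) (l 16653592))) (a (b (l 16655544) (l 16649280)) (b (l 16647904) (l 16641824)))))), by decide +kernel⟩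

def k98_pm_012_s : ∃ t, chk3 f_pm_012_s t 82 28 1 = true :=
  ⟨(b (a (b (a (c (l 16723816) (l 16719416)) (c (l 16723576) (l 16718680))) (a (c (b (l 16720504) (l 16718176)) (b (l 16716008) (l 16713632))) (c (b (l 16720048) (l 16717584)) (l 16713864)))) (b (a (c (l 16723256) (l 16717888)) (c (l 16722512) (l 16716744))) (b (a (l 16716744) (l 16726088)) (a (c (l 16716904) (l 16711512)) (c (l 16715808) (l 16710080)))))) (a (b (a (b (a (l 16713768) (l 16723536)) (c (c (l 16714472) (l 16712064)) (l 16708640))) (c (b (l 16715040) (c (l 16713712) (l 16711104))) (b (l 16710040) (l 16707400)))) (a (c (b (c (l 16711864) (l 16709456)) (c (l 16709160) (l 16706768))) (b (l 16706040) (l 16703368))) (c (c (b (l 16710968) (l 16708120)) (b (l 16708368) (l 16705560))) (b (l 16704688) (l 16701920))))) (b (a (c (b (l 16714208) (c (l 16712840) (l 16710040))) (b (l 16708824) (l 16706072))) (c (b (c (l 16714488) (l 16711504)) (c (l 16711544) (l 16708592))) (b (l 16707280) (l 16704416)))) (c (a (c (b (l 16709944) (l 16706952))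 (b (l 16707176) (l 16704232))) (b (a (l 16707464) (l 16706600)) (c (a (l 16705824) (l 16704920)) (l 16702536)))) (a (b (l 16703248) (l 16700368)) (b (l 16701488) (l 16698504))))))), by decide +kernel⟩

def k99_pm_012_s : ∃ t, chk3 f_pm_012_s t 82 29 1 = true :=
  ⟨(b (a (c (c (b (a (a (b (l 16706752) (l 16703888)) (b (l 16705960) (l 16703056))) (b (c (l 16705840) (l 16704552)) (c (l 16702808) (l 16701544)))) (a (a (b (l 16700944) (l 16697920)) (b (l 16700072) (l 16697008))) (c (b (l 16704936) (l 16696504)) (l 16702144)))) (b (a (b (l 16704000) (l 16701152)) (b (l 16702672) (l 16699712))) (a (b (l 16698240) (l 16695264)) (b (l 16696680) (l 16693592))))) (b (a (b (l 16700640) (l 16697856)) (b (l 16699088) (l 16696208))) (a (b (l 16695016) (l 16692128)) (b (l 16693272) (l 16690296))))) (c (b (a (c (a (b (l 16704240) (l 16701120)) (b (l 16703496) (l 16700304))) (b (l 16701208) (l 16698128))) (c (a (b (l 16702648) (l 16699384)) (b (l 16701672) (l 16703592))) (b (l 16699392) (l 16696184)))) (c (a (c (b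 (c (l 16698448) (l 16697800)) (l 16694792)) (b (l 16696848) (l 16693560))) (c (b (a (l 16696712) (l 16695616)) (l 16692696)) (b (l 16694848) (l 16691432)))) (a (b (l 16694968) (l 16691760)) (b (l 16692920) (l 16689592))))) (b (a (b (l 16697432) (l 16694440)) (b (l 16695472) (l 16692384))) (a (b (l 16691408) (l 16688328)) (b (l 16689256) (l 16686080)))))) (a (c (b (c (a (c (b (l 16694896) (l 16691704)) (l 16702728)) (c (b (l 16693240) (l 16689912)) (l 16690480))) (a (l 16690688) (l 16688848))) (c (a (b (l 16687944) (l 16684648)) (b (l 16686016) (l 16682608))) (a (l 16684400) (l 16682352)))) (b (a (l 16698200) (l 16696232)) (a (l 16681688) (l 16679568)))) (c (b (a (c (b (c (l 16691392) (l 16690216)) (l 16687368)) (l 16686840)) (c (b (c (l 16689168) (l 16687968)) (l 16685008)) (l 16694992))) (b (c (a (l 16683888) (l 16681400)) (l 16680568)) (a (l 16684624) (l 16687256)))) (b (a (l 16694128) (l 16691744)) (a (l 16677288) (l 16674736)))))), by decide +kernel⟩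

def k100_pm_012_s : ∃ t, chk3 f_pm_012_s t 166 28 1 = true :=
  ⟨(b (a (b (c (l 16721240) (l 16715152)) (c (b (l 16717080) (l 16714200)) (b (l 16711048) (l 16708224)))) (a (b (l 16716640) (c (l 16714080) (l 16707920))) (b (l 16715328) (c (l 16712680) (l 16706472))))) (a (b (c (b (a (l 16711736) (l 16710736)) (a (l 16708712) (l 16707648))) (b (l 16705320) (a (l 16702928) (l 16701776)))) (c (c (b (a (l 16707112) (l 16706000)) (a (l 16703880) (l 16702712))) (b (l 16703560) (l 16705616))) (b (a (l 16699928) (l 16698720)) (a (l 16696864) (l 16695616))))) (b (c (a (b (l 16709528) (l 16706376)) (b (l 16708032) (l 16704816))) (a (l 16705904) (b (l 16701960) (l 16698872)))) (c (a (c (b (l 16704680) (l 16701320)) (l 16700008)) (a (b (l 16701976) (l 16698608)) (b (l 16701072) (l 16697680)))) (a (b (l 16697344) (l 16694184)) (b (l 16695720) (l 16692520))))))), by decide +kernel⟩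

def k101_pm_012_s : ∃ t, chk3 f_pm_012_s t 166 29 1 = true :=
  ⟨(b (c (a (b (c (b (a (l 16700568) (l 16699328)) (c (a (l 16697872) (l 16696576)) (l 16695832))) (b (a (l 16697752) (l 16696480)) (a (l 16694456) (l 16693128)))) (c (b (c (a (l 16694384) (l 16693016)) (l 16692360)) (a (l 16690176) (l 16688752))) (b (l 16695648) (l 16686968)))) (b (c (c (a (b (l 16698616) (l 16695064)) (b (l 16696864) (l 16693248))) (a (l 16700656) (b (l 16695400) (l 16691848)))) (a (b (l 16695016) (l 16691608)) (b (l 16693280) (l 16689816)))) (c (a (c (b (l 16691440) (l 16687752)) (l 16698784)) (b (c (l 16689560) (l 16688232)) (c (l 16685800) (l 16684552)))) (a (l 16694256) (b (l 16686296) (l 16682728)))))) (a (b (b (a (l 16693752) (l 16692456)) (l 16700408)) (b (l 16686704) (l 16683440))) (b (a (b (l 16690984) (l 16687736)) (b (l 16689264) (l 16685976))) (a (l 16693280) (l 16691456))))) (c (a (b (c (b (c (l 16686440) (l 16685240)) (l 16682160)) (b (l 16683480) (l 16679952))) (c (b (l 16678432) (l 16674672)) (l 16674592)))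 (b (c (a (b (l 16683400) (l 16679632)) (b (l 16681400) (l 16677584))) (a (l 16679272) (l 16677296))) (c (b (l 16674744) (l 16670872)) (b (l 16672776) (l 16669096))))) (b (a (b (l 16680152) (l 16676832)) (a (l 16676088) (l 16674192))) (a (l 16671816) (b (l 16670008) (l 16666592)))))), by decide +kernel⟩

def k102_pm_012_s : ∃ t, chk3 f_pm_012_s t 167 28 1 = true :=
  ⟨(b (b (a (a (c (l 16716872) (l 16710504)) (a (l 16711624) (l 16709528))) (a (a (a (l 16707376) (a (l 16705608) (a (a (l 16704328) (l 16703392)) (l 16703072)))) (l 16702856)) (l 16702288))) (a (a (c (b (l 16712368) (l 16709264)) (l 16704632)) (a (l 16705616) (c (l 16706392) (l 16700816)))) (a (a (a (l 16701384) (a (l 16699632) (a (a (l 16698368) (c (l 16699720) (l 16695312))) (l 16697160)))) (l 16696944)) (l 16696384)))) (a (a (b (c (b (l 16706080) (c (l 16704376) (l 16701272))) (b (l 16700040) (l 16696904))) (c (b (a (l 16700048) (l 16698864)) (c (a (l 16698112) (l 16696872)) (l 16694560))) (b (l 16693712) (l 16690464)))) (a (b (b (l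 16700912) (l 16708168)) (c (c (b (l 16698680) (l 16695160)) (l 16694080)) (l 16690080))) (b (c (b (l 16701616) (l 16698328)) (l 16694608)) (c (c (b (l 16696328) (c (l 16693504) (l 16692160))) (l 16691920)) (l 16688176))))) (a (b (a (a (c (l 16697664) (l 16692664)) (a (c (l 16695768) (l 16691080)) (a (a (c (l 16694408) (l 16689944)) (c (b (l 16695032) (b (l 16692608) (c (l 16697336) (l 16689880)))) (l 16689152))) (l 16690960)))) (l 16690744)) (a (a (c (c (b (l 16693928) (l 16690440)) (l 16689712)) (l 16686232)) (a (c (c (b (l 16691984) (l 16688512)) (l 16687920)) (l 16684656)) (c (a (a (b (l 16689440) (l 16686016)) (a (a (a (l 16687160) (a (l 16686960) (a (l 16686792) (b (l 16688296) (l 16684896))))) (l 16686536)) (l 16686528))) (l 16686504)) (a (a (l 16683536) (c (l 16683720) (l 16681824))) (l 16682552))))) (c (l 16686296) (l 16682336)))) (b (l 16690184) (c (l 16685736) (l 16681752)))))), by decide +kernel⟩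

def k103_pm_012_s : ∃ t, chk3 f_pm_012_s t 334 29 1 = true :=
  ⟨(b (c (a (b (c (a (b (l 16694552) (l 16690920)) (c (b (l 16694008) (l 16690304)) (l 16690768))) (b (l 16691104) (l 16687584))) (c (b (c (a (l 16687880) (l 16686544)) (l 16685896)) (c (l 16683376) (l 16682160))) (b (l 16684008) (l 16680392)))) (b (c (a (c (b (l 16692256) (l 16688560)) (l 16689072)) (c (b (l 16689888) (l 16686200)) (l 16686800))) (a (l 16687120) (l 16684976))) (c (a (c (l 16690744) (l 16681680)) (c (b (l 16682448) (l 16678632)) (b (l 16681288) (l 16677552)))) (a (l 16679944) (l 16688296))))) (a (b (b (l 16687168) (l 16683832)) (b (l 16680464) (l 16677064))) (a (b (l 16683456) (l 16676680)) (b (l 16681544) (l 16674776))))) (c (a (b (c (b (c (l 16679512) (l 16678376)) (l 16675064)) (l 16685376)) (c (b (l 16671152) (l 16667208)) (l 16667448))) (b (c (a (b (l 16676520) (l 16672632)) (b (l 16674256) (l 16670384))) (a (l 16672592) (l 16670480))) (c (a (l 16666744) (b (l 16666480) (l 16662544))) (a (l 16665128) (b (l 16664904)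 (l 16661168)))))) (a (b (l 16682408) (l 16665016)) (a (b (l 16669808) (l 16662896)) (b (l 16667912) (l 16666248)))))), by decide +kernel⟩

def k104_pm_012_s : ∃ t, chk3 f_pm_012_s t 2680 29 1 = true :=
  ⟨(b (b (c (c (c (b (l 16687480) (l 16683808)) (l 16684480)) (l 16682784)) (l 16679608)) (c (c (c (l 16683424) (l 16682392)) (l 16675648)) (l 16672856))) (b (c (c (b (l 16671968) (l 16668120)) (l 16668352)) (l 16666016)) (c (b (c (l 16664232) (l 16662808)) (c (l 16660528) (l 16659264))) (b (l 16660856) (l 16657560))))), by decide +kernel⟩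

def k105_pm_012_s : ∃ t, chk3 f_pm_012_s t 2681 29 1 = true :=
  ⟨(a (b (b (c (c (c (b (l 16685520) (l 16681872)) (l 16682608)) (l 16681024)) (l 16678048)) (c (c (b (a (l 16678152) (l 16677288)) (l 16679152)) (l 16673912)) (l 16671312))) (b (c (c (b (l 16670120) (l 16666288)) (l 16666640)) (l 16664496)) (b (c (c (l 16662432) (l 16661128)) (l 16659368)) (c (c (c (l 16659480) (l 16658856)) (c (l 16663504) (l 16657688))) (l 16656384))))) (a (b (a (b (c (c (c (l 16682320) (l 16681272)) (l 16679760)) (l 16676944)) (c (c (c (l 16674912) (l 16673992)) (l 16672672)) (l 16670224))) (c (c (a (a (a (b (l 16681208) (l 16673872)) (a (b (l 16681000) (l 16673672)) (b (a (l 16680824) (b (l 16682432) (l 16678848))) (c (l 16673848) (l 16675592))))) (b (l 16680600) (l 16673328))) (b (l 16680592) (l 16673320))) (b (b (l 16680608) (l 16682368)) (b (l 16678840) (l 16675264)))) (b (b (l 16677840) (l 16674512)) (c (l 16675472) (l 16668760))))) (b (a (c (c (b (l 16668808) (l 16664992)) (l 16665432)) (l 16663432)) (b (c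 (c (c (l 16673536) (c (l 16667712) (l 16672576))) (l 16666416)) (l 16664400)) (c (c (c (l 16669704) (l 16669016)) (b (l 16663696) (l 16661872))) (l 16661008)))) (c (a (b (l 16665776) (c (l 16658328) (l 16657168))) (a (a (a (b (l 16660000) (l 16657432)) (b (c (l 16665472) (a (l 16659248) (l 16659040))) (c (l 16668368) (c (l 16667496) (l 16656464))))) (b (l 16659584) (l 16657312))) (b (l 16659576) (l 16657304)))) (a (b (l 16658312) (l 16655648)) (b (b (l 16658456) (l 16667248)) (c (l 16666200) (l 16665288))))))) (b (b (c (c (l 16680560) (l 16678648)) (l 16675992)) (c (c (l 16673288) (l 16671608)) (l 16669304))) (b (c (c (l 16665824) (l 16664432)) (l 16662552)) (b (c (l 16659544) (l 16657472)) (c (l 16657272) (l 16655200))))))), by decide +kernel⟩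

def k106_pm_012_s : ∃ t, chk3 f_pm_012_s t 1341 29 1 = true :=
  ⟨(b (b (c (c (l 16680352) (l 16678432)) (l 16675768)) (c (c (l 16673080) (l 16671400)) (l 16669088))) (b (c (c (l 16665608) (l 16664216)) (l 16662320)) (c (b (l 16659328) (l 16657048)) (b (l 16657240) (l 16654960))))), by decide +kernel⟩

def k107_pm_012_s : ∃ t, chk3 f_pm_012_s t 671 29 1 = true :=
  ⟨(b (b (c (c (l 16679800) (l 16677872)) (l 16675192)) (c (c (l 16672528) (l 16670832)) (l 16668496))) (b (c (c (l 16665048) (l 16663640)) (l 16661720)) (c (b (l 16658752) (l 16656440)) (b (l 16656632) (l 16654336))))), by decide +kernel⟩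

def k108_pm_012_s : ∃ t, chk3 f_pm_012_s t 41 30 2 = true :=
  ⟨(a (b (a (b (c (b (l 16680232) (l 16676800)) (b (l 16678480) (l 16675168))) (b (l 16672568) (l 16669192))) (b (c (a (l 16674984) (l 16672208)) (a (l 16673272) (l 16670528))) (b (a (l 16668792) (l 16665936)) (a (l 16665520) (l 16663128))))) (b (a (b (l 16666296) (l 16664080)) (l 16661120)) (a (l 16660832) (l 16656880)))) (a (b (b (a (c (l 16668968) (l 16667360)) (b (c (l 16666976) (l 16665392)) (a (l 16663552) (l 16661672)))) (a (b (l 16663024) (l 16660872)) (a (l 16660040) (l 16658760)))) (b (a (l 16657960) (l 16655664)) (a (l 16653816) (l 16651624)))) (a (b (b (b (a (c (l 16663296) (l 16661864)) (c (a (l 16661136) (l 16659640)) (a (l 16659784) (l 16658328)))) (a (c (l 16660520) (l 16659128)) (l 16657896))) (a (l 16657344) (c (l 16656416) (l 16654808)))) (b (a (l 16653760) (c (l 16653072) (l 16651232))) (a (l 16649800) (l 16648264)))) (a (a (a (b (b (l 16657136) (l 16654224)) (b (l 16650864) (l 16647088))) (a (b (b (c (l 16657080)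 (l 16655712)) (l 16658776)) (b (l 16650232) (l 16646504))) (a (a (b (b (c (l 16656576) (l 16655208)) (l 16653072)) (b (l 16649808) (l 16646120))) (b (b (c (l 16656200) (l 16654840)) (c (l 16653560) (l 16651944))) (b (b (l 16650336) (l 16648616)) (l 16645840)))) (b (b (l 16655520) (l 16652744)) (b (l 16649504) (l 16645848)))))) (b (b (l 16655304) (l 16652528)) (b (l 16649304) (l 16645640)))) (b (b (l 16654720) (l 16651968)) (b (l 16648752) (l 16645104))))))), by decide +kernel⟩

def k109_pm_012_s : ∃ t, chk3 f_pm_012_s t 41 31 2 = true :=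
  ⟨(a (b (b (a (l 16656288) (l 16652432)) (a (l 16651488) (l 16647720))) (b (a (l 16646368) (l 16642704)) (a (l 16640880) (l 16637336)))) (a (b (b (l 16648320) (l 16654224)) (b (a (l 16639896) (l 16637920)) (a (l 16634616) (l 16632720)))) (b (b (a (a (l 16645568) (l 16644120)) (a (a (a (l 16643016) (a (l 16642480) (b (l 16653360) (l 16651320)))) (l 16641680)) (l 16641144))) (a (a (l 16641096) (l 16639728)) (a (a (a (l 16638696) (a (l 16638208) (b (l 16649216) (l 16647032)))) (l 16637464)) (l 16636920)))) (a (a (b (l 16636320) (l 16631192)) (b (l 16635032) (a (l 16630344) (l 16629680)))) (b (a (a (a (l 16634080) (a (l 16633632) (a (a (l 16633344) (l 16633144)) (l 16633144)))) (l 16632936)) (l 16632400)) (a (a (a (l 16629096) (a (l 16628696) (a (a (l 16628440) (b (l 16629512) (l 16626976))) (l 16628256)))) (l 16628048)) (l 16627512))))))), by decide +kernel⟩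

def k110_pm_012_s : ∃ t, chk3 f_pm_012_s t 41 15 3 = true :=
  ⟨(a (b (b (b (a (l 16684896) (b (l 16671112) (l 16667840))) (a (l 16668152) (b (l 16664592) (l 16661728)))) (a (b (l 16673088) (l 16657880)) (b (l 16658280) (l 16653688)))) (b (b (a (l 16652960) (l 16648864)) (a (l 16647752) (l 16643760))) (b (a (l 16642200) (l 16638312)) (a (l 16636248) (l 16632480))))) (b (a (b (b (a (l 16665096) (b (l 16663168) (l 16659968))) (a (l 16659272) (l 16656576))) (b (l 16664120) (l 16659696))) (a (b (b (a (b (l 16659872) (l 16657216)) (a (l 16667416) (l 16660944))) (a (l 16654432) (l 16652640))) (b (a (l 16650464) (l 16648800)) (a (l 16646160) (l 16644600)))) (a (a (a (b (b (l 16654632) (l 16651272)) (b (l 16647528) (l 16643424))) (a (b (b (l 16653904) (l 16650600)) (b (l 16646920) (l 16642872))) (b (b (c (l 16664104) (l 16663024)) (c (l 16660984) (l 16670200))) (b (c (l 16657456) (l 16645552)) (c (l 16653552) (l 16641512)))))) (b (b (l 16652824) (l 16649600)) (b (l 16646000) (l 16642024)))) (b (b (l 16652200)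 (l 16648992)) (b (l 16645400) (l 16641424)))))) (b (a (b (l 16644512) (l 16639552)) (a (b (a (l 16641592) (l 16640128)) (a (l 16636752) (l 16635376))) (a (a (a (b (l 16639040) (l 16634368)) (a (b (l 16638536) (l 16633912)) (b (c (l 16638856) (l 16637184)) (c (l 16634368) (l 16632560))))) (b (l 16637744) (l 16633184))) (b (l 16637144) (l 16632576))))) (a (b (l 16634256) (a (l 16629600) (l 16627592))) (b (a (a (l 16631576) (l 16630288)) (a (a (a (l 16629352) (a (l 16628944) (c (l 16629552) (l 16627584)))) (l 16628280)) (l 16627672))) (a (a (l 16626008) (l 16624808)) (a (a (a (l 16623952) (a (l 16623584) (c (l 16624336) (l 16622200)))) (l 16622976)) (l 16622368)))))))), by decide +kernel⟩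

def k111_pm_012_s : ∃ t, chk3 f_pm_012_s t 84 7 1 = true :=
  ⟨(b (b (b (b (l 16698856) (l 16703472)) (b (b (l 16688376) (l 16695696)) (c (c (b (l 16685200) (l 16681776)) (l 16681344)) (l 16678296)))) (b (b (c (c (b (l 16678272) (l 16679936)) (l 16674512)) (l 16671712)) (c (c (b (l 16671040) (l 16667336)) (l 16677928)) (l 16675464))) (b (c (c (b (l 16663576) (l 16659776)) (b (l 16662024) (l 16658376))) (l 16668640)) (a (c (b (c (l 16657448) (l 16656248)) (c (l 16655056) (l 16653856))) (b (l 16654616) (l 16652248))) (c (b (l 16653808) (l 16651264)) (b (l 16651424) (l 16648936))))))) (b (b (c (b (a (c (l 16653512) (l 16652072)) (c (l 16650392) (l 16648896))) (a (c (l 16650976) (l 16649256)) (l 16652232))) (b (a (l 16650144) (l 16646848)) (a (l 16646976) (l 16643688)))) (b (c (a (c (l 16647944) (l 16645984)) (l 16643880)) (a (l 16643408) (l 16640136))) (c (a (l 16653824) (l 16640320)) (a (l 16639456) (l 16636200))))) (b (c (b (a (l 16639400) (l 16636336)) (a (l 16635152) (l 16632048))) (b (a (l 16635184)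 (l 16631888)) (a (l 16630584) (l 16627256)))) (c (b (a (c (l 16632072) (l 16629256)) (l 16627496)) (a (b (l 16627000) (l 16629704)) (c (l 16624232) (l 16621072)))) (b (a (l 16625672) (l 16622320)) (a (l 16620368) (l 16617008))))))), by decide +kernel⟩

def k112_pm_012_s : ∃ t, chk3 f_pm_012_s t 85 7 1 = true :=
  ⟨(b (b (b (b (l 16692752) (l 16686960)) (b (a (l 16682320) (l 16679336)) (c (b (l 16678232) (l 16685344)) (l 16672224)))) (b (b (c (c (b (l 16672464) (l 16668880)) (l 16668616)) (l 16665616)) (c (c (b (l 16665232) (l 16661504)) (l 16661520)) (l 16658840))) (b (c (c (l 16655816) (l 16664720)) (l 16651944)) (c (b (l 16649344) (c (l 16647232) (l 16645920))) (b (l 16646736) (l 16644056)))))) (b (b (c (b (c (l 16645672) (l 16644120)) (c (l 16643176) (l 16641320))) (b (l 16641912) (l 16649216))) (c (b (c (l 16640184) (l 16638064)) (c (l 16636720) (l 16634376))) (b (c (l 16636088) (l 16634248)) (c (l 16632216) (l 16630224))))) (b (b (c (c (l 16632800) (l 16630264)) (l 16637328)) (c (c (l 16628552)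 (l 16625808)) (l 16622160))) (b (c (c (l 16623976) (l 16621032)) (l 16617144)) (c (a (l 16619200) (l 16615864)) (l 16611808)))))), by decide +kernel⟩

def k113_pm_012_s : ∃ t, chk3 f_pm_012_s t 43 7 1 = true :=
  ⟨(b (b (b (b (a (l 16686592) (l 16680312)) (a (l 16680920) (c (l 16677168) (l 16672464)))) (b (c (a (l 16677200) (l 16671248)) (l 16680016)) (c (a (c (l 16671856) (l 16669584)) (c (l 16666024) (l 16663728))) (a (l 16666216) (l 16660248))))) (b (b (c (a (c (b (l 16666696) (l 16663136)) (l 16662792)) (c (l 16659176) (l 16657008))) (a (l 16659632) (l 16653704))) (c (a (c (l 16657632) (l 16655704)) (c (l 16651952) (l 16649960))) (a (l 16652832) (l 16646928)))) (b (c (a (c (l 16650064) (l 16648392)) (c (l 16644400) (l 16642656))) (a (l 16645896) (l 16639976))) (c (b (a (l 16643512) (l 16637808)) (a (c (l 16641160) (l 16639784)) (c (l 16635256) (l 16633816)))) (b (l 16637632) (a (l 16637728) (l 16631592))))))) (a (b (b (c (b (c (l 16639528) (l 16637904)) (c (l 16637040) (l 16635096))) (b (l 16635512)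 (l 16632304))) (c (b (c (l 16634032) (l 16631832)) (l 16639816)) (b (l 16639184) (l 16624720)))) (b (b (c (l 16635808) (l 16620368)) (c (l 16620872) (l 16615616))) (b (c (l 16616096) (l 16610528)) (c (l 16621488) (l 16605104))))) (b (b (c (b (l 16637928) (l 16640528)) (b (l 16629280) (l 16626072))) (c (b (l 16626920) (l 16623336)) (b (l 16622456) (l 16618464)))) (b (b (c (l 16619320) (l 16614104)) (c (l 16614896) (l 16609352))) (b (c (l 16610040) (l 16604208)) (c (l 16604856) (l 16598728))))))), by decide +kernel⟩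

def k114_pm_012_s : ∃ t, chk3 f_pm_012_s t 11 28 1 = true :=
  ⟨(a (b (a (b (a (l 16674008) (l 16667720)) (c (a (l 16670920) (l 16664632)) (l 16663120))) (b (c (l 16660664) (l 16656352)) (c (c (l 16656272) (l 16654160)) (l 16650784)))) (a (b (c (c (a (l 16666384) (l 16660160)) (l 16671368)) (a (l 16660464) (l 16654312))) (c (a (c (l 16660136) (l 16657840)) (c (l 16654152) (l 16651880))) (l 16661784))) (b (c (a (c (l 16653880) (l 16651672)) (l 16646552)) (a (l 16648168) (l 16642040))) (c (c (a (l 16647992) (l 16641768)) (a (l 16645776) (l 16639640))) (a (l 16642240) (l 16636168)))))) (b (b (a (c (l 16648832) (l 16644744)) (l 16646224)) (a (c (l 16643232) (l 16639024)) (c (l 16631656) (l 16627736)))) (a (c (b (c (l 16638424) (l 16636456)) (c (l 16632456) (l 16630488))) (b (l 16633152) (l 16627160))) (b (c (l 16636352) (l 16621840)) (c (a (l 16622640) (l 16616896)) (l 16615704)))))), by decide +kernel⟩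

def k115_pm_012_s : ∃ t, chk3 f_pm_012_s t 11 29 1 = true :=
  ⟨(a (b (a (c (b (a (c (l 16653416) (l 16651224)) (c (l 16647600) (l 16645408))) (a (c (l 16646280) (l 16644256)) (c (l 16640592) (l 16638552)))) (b (a (l 16647824) (l 16641952)) (a (l 16641096) (l 16635312)))) (c (b (a (c (l 16641680) (l 16639528)) (c (l 16635576) (l 16633496))) (a (c (l 16634840) (l 16632816)) (c (l 16628992) (l 16627016)))) (b (a (l 16636056) (l 16630072)) (a (l 16629528) (l 16623728))))) (a (b (c (a (c (l 16638792) (l 16636992)) (l 16632296)) (a (l 16634168) (l 16628432))) (c (b (a (l 16632192) (l 16626632)) (a (l 16628752) (l 16623064))) (b (l 16625984) (a (l 16625624) (l 16619800))))) (c (b (a (l 16637168) (c (l 16621904) (l 16620104))) (a (b (l 16621096) (l 16617448)) (b (l 16615536) (l 16611856)))) (b (a (l 16622736) (l 16617048)) (b (l 16614680) (a (l 16614080) (l 16608440))))))) (b (a (c (b (a (c (l 16629408) (l 16627424)) (l 16622320)) (a (c (l 16622944) (l 16621056)) (c (l 16616840) (l 16615056)))) (b (a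 (l 16624080) (l 16618112)) (a (l 16617824) (l 16611912)))) (c (b (a (l 16616360) (l 16610544)) (a (l 16609920) (l 16604024))) (b (c (l 16610560) (l 16608304)) (c (l 16604208) (l 16602016))))) (a (c (b (a (c (l 16616120) (l 16614368)) (c (l 16610136) (l 16608488))) (a (b (l 16609912) (l 16606256)) (l 16602400))) (b (a (l 16611336) (c (l 16606576) (l 16604400))) (a (c (l 16605536) (l 16603528)) (c (l 16599896) (l 16597880))))) (b (c (a (l 16603360) (l 16597368)) (a (c (l 16600728) (l 16598600)) (l 16593904))) (c (a (l 16596544) (l 16590624)) (a (c (l 16594152) (l 16592168)) (l 16592704))))))), by decide +kernel⟩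

def k116_pm_012_s : ∃ t, chk3 f_pm_012_s t 11 30 1 = true :=
  ⟨(a (a (b (c (b (a (l 16626776) (l 16620952)) (a (l 16624176) (l 16618432))) (b (a (l 16623216) (l 16617280)) (a (l 16620016) (l 16614128)))) (c (b (a (l 16621080) (l 16615384)) (a (l 16617520) (l 16611864))) (b (a (l 16616416) (l 16610544)) (a (l 16612424) (l 16606568))))) (b (c (b (a (l 16615192) (l 16609448)) (a (l 16612776) (l 16607168))) (b (a (l 16611440) (l 16605672)) (a (l 16608360) (l 16602704)))) (b (c (a (l 16609808) (c (l 16605504) (l 16603104))) (a (l 16604840) (l 16599256))) (c (a (l 16606344) (l 16606192)) (a (l 16600896) (l 16595384)))))) (b (a (c (b (a (l 16603672) (c (l 16598576) (l 16597024))) (a (l 16601576) (c (l 16596912) (l 16594944)))) (b (a (l 16599936) (l 16604680)) (a (l 16597104) (l 16591544)))) (c (b (a (b (l 16592264) (l 16591560)) (b (l 16586176) (l 16585536))) (a (c (l 16591176) (l 16589304)) (c (l 16585304) (l 16583568)))) (b (a (c (l 16589416) (l 16587360)) (b (l 16583136) (l 16582056))) (a (l 16585968)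 (l 16580352))))) (a (b (c (a (c (l 16600048) (l 16597672)) (c (l 16594584) (l 16592256))) (a (l 16593784) (l 16588360))) (c (a (c (l 16596952) (l 16594272)) (c (l 16591656) (l 16589016))) (a (l 16589992) (l 16584704)))) (b (c (a (c (l 16589080) (l 16586832)) (c (l 16583488) (l 16581352))) (a (l 16582976) (l 16577576))) (c (a (c (l 16586352) (l 16583776)) (c (l 16581000) (l 16578512))) (a (l 16579472) (l 16574264))))))), by decide +kernel⟩

def k117_pm_012_s : ∃ t, chk3 f_pm_012_s t 11 31 1 = true :=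
  ⟨(a (b (a (b (c (a (l 16613520) (l 16607888)) (a (l 16608056) (l 16602208))) (a (c (l 16609104) (l 16603304)) (c (l 16603496) (l 16597472)))) (b (c (a (l 16602424) (l 16597096)) (a (l 16596560) (l 16591088))) (c (a (l 16598064) (l 16592792)) (a (l 16591840) (l 16586400))))) (a (b (a (c (l 16604272) (l 16598176)) (c (l 16598688) (l 16592352))) (a (c (l 16599024) (l 16592648)) (c (l 16593472) (l 16586848)))) (b (a (c (l 16593288) (l 16586736)) (c (l 16588056) (l 16581328))) (a (c (l 16588096) (l 16581248)) (c (l 16582904) (l 16575864)))))) (b (a (b (c (a (c (l 16593328) (l 16590392)) (c (l 16588168) (l 16585256))) (a (l 16585776) (l 16580584))) (c (a (l 16587648) (c (l 16584176) (l 16581016))) (a (l 16581136) (l 16576024)))) (a (b (c (c (l 16583040) (l 16580176)) (l 16575488)) (c (c (l 16579192) (l 16576064)) (l 16571032))) (b (c (c (l 16577896) (l 16575104)) (l 16570440)) (l 6)))) (a (b (a (c (l 16582976) (l 16576104)) (c (l 16588512) (l 16571048))) (a (c (l 16577880) (l 16570672)) (c (l 16583480)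 (l 16565664)))) (a (a (a (b (l 16571552) (l 6)) (l 6)) (l 6)) (l 6))))), by decide +kernel⟩

def k118_pm_012_s : ∃ t, chk3 f_pm_012_s t 3 2 1 = true :=
  ⟨(a (b (l 2) (b (l 2) (a (b (l 2) (a (b (l 2) (a (l 16749504) (l 2))) (l 2))) (l 2)))) (l 2)), by decide +kernel⟩

def k119_pm_012_s : ∃ t, chk3 f_pm_012_s t 12 6 1 = true :=
  ⟨(b (b (a (b (a (l 16740096) (l 16742968)) (a (l 16728760) (l 16731576))) (b (l 2) (l 16759256))) (a (b (a (l 16715848) (l 16717952)) (a (l 16700280) (l 16701984))) (b (l 16724128) (a (l 16705608) (l 16711000))))) (b (a (b (a (l 16683392) (l 16683560)) (a (l 16666544) (l 16665080))) (b (a (l 16686376) (l 16691248)) (a (l 16665880) (l 16669584)))) (a (b (a (l 16650728) (l 16646912)) (a (b (l 16639464) (l 16632488)) (b (l 16634008) (l 16625688)))) (b (a (l 16645648) (l 16647072)) (a (b (l 16630760) (l 16621152)) (c (l 16628024) (l 16621752))))))), by decide +kernel⟩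

def k120_pm_012_s : ∃ t, chk3 f_pm_012_s t 12 7 1 = true :=
  ⟨(b (b (a (b (a (b (l 16625808) (c (l 16621136) (l 16617464))) (c (b (l 16619552) (l 16611936)) (l 16612024))) (a (b (c (l 16614816) (l 16611120)) (c (l 16608392) (a (l 16607528) (l 16602216)))) (c (b (l 16604648) (l 16597720)) (b (l 16601216) (a (l 16597104) (l 16591736)))))) (a (b (b (l 16611936) (l 16602928)) (c (b (l 16595912) (l 16587584)) (b (l 16592512) (l 16584536)))) (b (c (l 16605856) (l 16601216)) (l 6)))) (a (b (c (a (b (a (l 16604864) (l 16599336)) (a (l 16598272) (l 16592656))) (b (a (l 16593816) (l 16587928)) (a (l 16587104) (l 16580928)))) (a (b (c (l 16599512) (l 16597376)) (c (l 16593016) (l 16590952))) (b (a (l 16590544) (l 16584904)) (a (l 16584032) (l 16578160))))) (a (c (b (a (l 16591536) (l 16585848)) (a (l 16584696) (l 16578936))) (b (c (l 16586448) (l 16584488)) (c (l 16579816) (l 16578000)))) (c (b (a (l 16580216) (l 16573968)) (a (l 16573216) (l 16566840))) (b (a (l 16577408) (l 16571480)) (a (l 16570752) (l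 16564728)))))) (b (a (a (c (b (l 16582232) (l 16574904)) (b (l 16579448) (l 16572424))) (l 6)) (l 6)) (l 6)))) (b (a (b (a (b (c (a (b (l 16580088) (l 16579336)) (b (l 16574056) (l 16573120))) (a (b (l 16577304) (l 16576144)) (b (l 16571552) (l 16570256)))) (c (a (c (l 16579216) (l 16577648)) (c (l 16573032) (l 16571664))) (a (l 16574608) (l 16568840)))) (a (b (c (b (l 16568136) (l 16566936)) (b (l 16565928) (l 16564424))) (l 6)) (l 6))) (a (a (b (c (c (l 16577752) (l 16575760)) (l 16572120)) (c (a (l 16575768) (l 16573048)) (l 16569040))) (a (b (b (l 16570936) (l 6)) (l 6)) (l 6))) (l 6))) (l 6)) (l 6))), by decide +kernel⟩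

def k121_pm_012_s : ∃ t, chk3 f_pm_012_s t 13 3 1 = true :=
  ⟨(a (b (b (b (l 2) (b (l 2) (l 16721184))) (a (b (a (l 16685040) (l 16689000)) (b (l 16651600) (l 6))) (l 6))) (l 6)) (b (l 6) (l 6))), by decide +kernel⟩

def k122_pm_012_s : ∃ t, chk3 f_pm_012_s t 7 3 1 = true :=
  ⟨(l 6), by decide +kernel⟩

theorem s123_pm_012_s : ∃ t, chk3 f_pm_012_s t 12 3 1 = true := ex3_b k119_pm_012_s k120_pm_012_s

theorem s124_pm_012_s : ∃ t, chk3 f_pm_012_s t 6 3 1 = true := ex3_a s123_pm_012_s k121_pm_012_s

theorem s125_pm_012_s : ∃ t, chk3 f_pm_012_s t 3 3 1 = true := ex3_a s124_pm_012_s k122_pm_012_s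

theorem s126_pm_012_s : ∃ t, chk3 f_pm_012_s t 3 1 1 = true := ex3_b k118_pm_012_s s125_pm_012_s

theorem s127_pm_012_s : ∃ t, chk3 f_pm_012_s t 11 15 1 = true := ex3_b k116_pm_012_s k117_pm_012_s

theorem s128_pm_012_s : ∃ t, chk3 f_pm_012_s t 11 14 1 = true := ex3_b k114_pm_012_s k115_pm_012_s

theorem s129_pm_012_s : ∃ t, chk3 f_pm_012_s t 11 7 1 = true := ex3_b s128_pm_012_s s127_pm_012_s

theorem s130_pm_012_s : ∃ t, chk3 f_pm_012_s t 42 7 1 = true := ex3_a k111_pm_012_s k112_pm_012_s

theorem s131_pm_012_s : ∃ t, chk3 f_pm_012_s t 21 7 1 = true := ex3_a s130_pm_012_s k113_pm_012_s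

theorem s132_pm_012_s : ∃ t, chk3 f_pm_012_s t 41 15 2 = true := ex3_b k108_pm_012_s k109_pm_012_s

theorem s133_pm_012_s : ∃ t, chk3 f_pm_012_s t 41 15 1 = true := ex3_c s132_pm_012_s k110_pm_012_s

theorem s134_pm_012_s : ∃ t, chk3 f_pm_012_s t 1340 29 1 = true := ex3_a k104_pm_012_s k105_pm_012_s

theorem s135_pm_012_s : ∃ t, chk3 f_pm_012_s t 670 29 1 = true := ex3_a s134_pm_012_s k106_pm_012_s

theorem s136_pm_012_s : ∃ t, chk3 f_pm_012_s t 335 29 1 = true := ex3_a s135_pm_012_s k107_pm_012_s

theorem s137_pm_012_s : ∃ t, chk3 f_pm_012_s t 167 29 1 = true := ex3_a k103_pm_012_s s136_pm_012_s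

theorem s138_pm_012_s : ∃ t, chk3 f_pm_012_s t 167 14 1 = true := ex3_b k102_pm_012_s s137_pm_012_s

theorem s139_pm_012_s : ∃ t, chk3 f_pm_012_s t 166 14 1 = true := ex3_b k100_pm_012_s k101_pm_012_s

theorem s140_pm_012_s : ∃ t, chk3 f_pm_012_s t 83 14 1 = true := ex3_a s139_pm_012_s s138_pm_012_s

theorem s141_pm_012_s : ∃ t, chk3 f_pm_012_s t 82 14 1 = true := ex3_b k98_pm_012_s k99_pm_012_s

theorem s142_pm_012_s : ∃ t, chk3 f_pm_012_s t 41 14 1 = true := ex3_a s141_pm_012_s s140_pm_012_s

theorem s143_pm_012_s : ∃ t, chk3 f_pm_012_s t 41 7 1 = true := ex3_b s142_pm_012_s s133_pm_012_s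

theorem s144_pm_012_s : ∃ t, chk3 f_pm_012_s t 40 29 1 = true := ex3_b k95_pm_012_s k96_pm_012_s

theorem s145_pm_012_s : ∃ t, chk3 f_pm_012_s t 40 28 1 = true := ex3_a k93_pm_012_s k94_pm_012_s

theorem s146_pm_012_s : ∃ t, chk3 f_pm_012_s t 40 14 1 = true := ex3_b s145_pm_012_s s144_pm_012_s

theorem s147_pm_012_s : ∃ t, chk3 f_pm_012_s t 40 7 1 = true := ex3_b s146_pm_012_s k97_pm_012_s

theorem s148_pm_012_s : ∃ t, chk3 f_pm_012_s t 20 7 1 = true := ex3_a s147_pm_012_s s143_pm_012_s

theorem s149_pm_012_s : ∃ t, chk3 f_pm_012_s t 10 7 1 = true := ex3_a s148_pm_012_s s131_pm_012_s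

theorem s150_pm_012_s : ∃ t, chk3 f_pm_012_s t 5 7 1 = true := ex3_a s149_pm_012_s s129_pm_012_s

theorem s151_pm_012_s : ∃ t, chk3 f_pm_012_s t 83 13 1 = true := ex3_a k89_pm_012_s k90_pm_012_s

theorem s152_pm_012_s : ∃ t, chk3 f_pm_012_s t 83 12 1 = true := ex3_a k87_pm_012_s k88_pm_012_s

theorem s153_pm_012_s : ∃ t, chk3 f_pm_012_s t 83 6 1 = true := ex3_b s152_pm_012_s s151_pm_012_s

theorem s154_pm_012_s : ∃ t, chk3 f_pm_012_s t 82 6 1 = true := ex3_a k85_pm_012_s k86_pm_012_s

theorem s155_pm_012_s : ∃ t, chk3 f_pm_012_s t 41 6 1 = true := ex3_a s154_pm_012_s s153_pm_012_s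

theorem s156_pm_012_s : ∃ t, chk3 f_pm_012_s t 40 12 1 = true := ex3_b k82_pm_012_s k83_pm_012_s

theorem s157_pm_012_s : ∃ t, chk3 f_pm_012_s t 40 6 1 = true := ex3_b s156_pm_012_s k84_pm_012_s

theorem s158_pm_012_s : ∃ t, chk3 f_pm_012_s t 20 6 1 = true := ex3_a s157_pm_012_s s155_pm_012_s

theorem s159_pm_012_s : ∃ t, chk3 f_pm_012_s t 10 6 1 = true := ex3_a s158_pm_012_s k91_pm_012_s

theorem s160_pm_012_s : ∃ t, chk3 f_pm_012_s t 5 6 1 = true := ex3_a s159_pm_012_s k92_pm_012_s

theorem s161_pm_012_s : ∃ t, chk3 f_pm_012_s t 5 3 1 = true := ex3_b s160_pm_012_s s150_pm_012_s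

theorem s162_pm_012_s : ∃ t, chk3 f_pm_012_s t 83 11 1 = true := ex3_a k78_pm_012_s k79_pm_012_s

theorem s163_pm_012_s : ∃ t, chk3 f_pm_012_s t 41 11 1 = true := ex3_a k77_pm_012_s s162_pm_012_s

theorem s164_pm_012_s : ∃ t, chk3 f_pm_012_s t 41 10 1 = true := ex3_b k75_pm_012_s k76_pm_012_s

theorem s165_pm_012_s : ∃ t, chk3 f_pm_012_s t 41 5 1 = true := ex3_b s164_pm_012_s s163_pm_012_s

theorem s166_pm_012_s : ∃ t, chk3 f_pm_012_s t 20 5 1 = true := ex3_a k74_pm_012_s s165_pm_012_s

theorem s167_pm_012_s : ∃ t, chk3 f_pm_012_s t 10 5 1 = true := ex3_a s166_pm_012_s k80_pm_012_s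

theorem s168_pm_012_s : ∃ t, chk3 f_pm_012_s t 10 2 1 = true := ex3_b k73_pm_012_s s167_pm_012_s

theorem s169_pm_012_s : ∃ t, chk3 f_pm_012_s t 5 2 1 = true := ex3_a s168_pm_012_s k81_pm_012_s

theorem s170_pm_012_s : ∃ t, chk3 f_pm_012_s t 5 1 1 = true := ex3_b s169_pm_012_s s161_pm_012_s

theorem s171_pm_012_s : ∃ t, chk3 f_pm_012_s t 19 15 1 = true := ex3_b k71_pm_012_s k72_pm_012_s

theorem s172_pm_012_s : ∃ t, chk3 f_pm_012_s t 39 28 1 = true := ex3_a k68_pm_012_s k69_pm_012_s

theorem s173_pm_012_s : ∃ t, chk3 f_pm_012_s t 39 14 1 = true := ex3_b s172_pm_012_s k70_pm_012_s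

theorem s174_pm_012_s : ∃ t, chk3 f_pm_012_s t 38 28 1 = true := ex3_a k65_pm_012_s k66_pm_012_s

theorem s175_pm_012_s : ∃ t, chk3 f_pm_012_s t 38 14 1 = true := ex3_b s174_pm_012_s k67_pm_012_s

theorem s176_pm_012_s : ∃ t, chk3 f_pm_012_s t 19 14 1 = true := ex3_a s175_pm_012_s s173_pm_012_s

theorem s177_pm_012_s : ∃ t, chk3 f_pm_012_s t 19 7 1 = true := ex3_b s176_pm_012_s s171_pm_012_s

theorem s178_pm_012_s : ∃ t, chk3 f_pm_012_s t 18 15 2 = true := ex3_b k62_pm_012_s k63_pm_012_s

theorem s179_pm_012_s : ∃ t, chk3 f_pm_012_s t 18 15 1 = true := ex3_c s178_pm_012_s k64_pm_012_s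

theorem s180_pm_012_s : ∃ t, chk3 f_pm_012_s t 37 29 1 = true := ex3_a k60_pm_012_s k61_pm_012_s

theorem s181_pm_012_s : ∃ t, chk3 f_pm_012_s t 36 59 1 = true := ex3_a k58_pm_012_s k59_pm_012_s

theorem s182_pm_012_s : ∃ t, chk3 f_pm_012_s t 146 116 1 = true := ex3_a k54_pm_012_s k55_pm_012_s

theorem s183_pm_012_s : ∃ t, chk3 f_pm_012_s t 73 116 1 = true := ex3_a s182_pm_012_s k56_pm_012_s

theorem s184_pm_012_s : ∃ t, chk3 f_pm_012_s t 73 58 1 = true := ex3_b s183_pm_012_s k57_pm_012_s

theorem s185_pm_012_s : ∃ t, chk3 f_pm_012_s t 72 117 1 = true := ex3_a k52_pm_012_s k53_pm_012_s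

theorem s186_pm_012_s : ∃ t, chk3 f_pm_012_s t 72 58 1 = true := ex3_b k51_pm_012_s s185_pm_012_s

theorem s187_pm_012_s : ∃ t, chk3 f_pm_012_s t 36 58 1 = true := ex3_a s186_pm_012_s s184_pm_012_s

theorem s188_pm_012_s : ∃ t, chk3 f_pm_012_s t 36 29 1 = true := ex3_b s187_pm_012_s s181_pm_012_s

theorem s189_pm_012_s : ∃ t, chk3 f_pm_012_s t 18 29 1 = true := ex3_a s188_pm_012_s s180_pm_012_s

theorem s190_pm_012_s : ∃ t, chk3 f_pm_012_s t 75 56 1 = true := ex3_a k48_pm_012_s k49_pm_012_s

theorem s191_pm_012_s : ∃ t, chk3 f_pm_012_s t 75 28 1 = true := ex3_b s190_pm_012_s k50_pm_012_s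

theorem s192_pm_012_s : ∃ t, chk3 f_pm_012_s t 149 28 1 = true := ex3_a k46_pm_012_s k47_pm_012_s

theorem s193_pm_012_s : ∃ t, chk3 f_pm_012_s t 148 28 1 = true := ex3_a k44_pm_012_s k45_pm_012_s

theorem s194_pm_012_s : ∃ t, chk3 f_pm_012_s t 74 28 1 = true := ex3_a s193_pm_012_s s192_pm_012_s

theorem s195_pm_012_s : ∃ t, chk3 f_pm_012_s t 37 28 1 = true := ex3_a s194_pm_012_s s191_pm_012_s

theorem s196_pm_012_s : ∃ t, chk3 f_pm_012_s t 73 231 1 = true := ex3_a k42_pm_012_s k43_pm_012_s

theorem s197_pm_012_s : ∃ t, chk3 f_pm_012_s t 73 115 1 = true := ex3_b k41_pm_012_s s196_pm_012_s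

theorem s198_pm_012_s : ∃ t, chk3 f_pm_012_s t 73 57 1 = true := ex3_b k40_pm_012_s s197_pm_012_s

theorem s199_pm_012_s : ∃ t, chk3 f_pm_012_s t 36 57 1 = true := ex3_a k39_pm_012_s s198_pm_012_s

theorem s200_pm_012_s : ∃ t, chk3 f_pm_012_s t 36 28 1 = true := ex3_b k38_pm_012_s s199_pm_012_s

theorem s201_pm_012_s : ∃ t, chk3 f_pm_012_s t 18 28 1 = true := ex3_a s200_pm_012_s s195_pm_012_s

theorem s202_pm_012_s : ∃ t, chk3 f_pm_012_s t 18 14 1 = true := ex3_b s201_pm_012_s s189_pm_012_s

theorem s203_pm_012_s : ∃ t, chk3 f_pm_012_s t 18 7 1 = true := ex3_b s202_pm_012_s s179_pm_012_s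

theorem s204_pm_012_s : ∃ t, chk3 f_pm_012_s t 9 7 1 = true := ex3_a s203_pm_012_s s177_pm_012_s

theorem s205_pm_012_s : ∃ t, chk3 f_pm_012_s t 34 31 1 = true := ex3_a k35_pm_012_s k36_pm_012_s

theorem s206_pm_012_s : ∃ t, chk3 f_pm_012_s t 17 31 1 = true := ex3_a s205_pm_012_s k37_pm_012_s

theorem s207_pm_012_s : ∃ t, chk3 f_pm_012_s t 70 120 1 = true := ex3_a k30_pm_012_s k31_pm_012_s

theorem s208_pm_012_s : ∃ t, chk3 f_pm_012_s t 70 60 1 = true := ex3_b s207_pm_012_s k32_pm_012_s

theorem s209_pm_012_s : ∃ t, chk3 f_pm_012_s t 35 60 1 = true := ex3_a s208_pm_012_s k33_pm_012_s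

theorem s210_pm_012_s : ∃ t, chk3 f_pm_012_s t 35 30 1 = true := ex3_b s209_pm_012_s k34_pm_012_s

theorem s211_pm_012_s : ∃ t, chk3 f_pm_012_s t 69 61 1 = true := ex3_b k28_pm_012_s k29_pm_012_s

theorem s212_pm_012_s : ∃ t, chk3 f_pm_012_s t 136 123 1 = true := ex3_b k25_pm_012_s k26_pm_012_s

theorem s213_pm_012_s : ∃ t, chk3 f_pm_012_s t 68 123 1 = true := ex3_a s212_pm_012_s k27_pm_012_s

theorem s214_pm_012_s : ∃ t, chk3 f_pm_012_s t 137 122 1 = true := ex3_a k23_pm_012_s k24_pm_012_s

theorem s215_pm_012_s : ∃ t, chk3 f_pm_012_s t 68 122 1 = true := ex3_a k22_pm_012_s s214_pm_012_s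

theorem s216_pm_012_s : ∃ t, chk3 f_pm_012_s t 68 61 1 = true := ex3_b s215_pm_012_s s213_pm_012_s

theorem s217_pm_012_s : ∃ t, chk3 f_pm_012_s t 34 61 1 = true := ex3_a s216_pm_012_s s211_pm_012_s

theorem s218_pm_012_s : ∃ t, chk3 f_pm_012_s t 139 121 1 = true := ex3_b k20_pm_012_s k21_pm_012_s

theorem s219_pm_012_s : ∃ t, chk3 f_pm_012_s t 69 121 1 = true := ex3_a k19_pm_012_s s218_pm_012_s

theorem s220_pm_012_s : ∃ t, chk3 f_pm_012_s t 69 60 1 = true := ex3_b k18_pm_012_s s219_pm_012_s

theorem s221_pm_012_s : ∃ t, chk3 f_pm_012_s t 34 60 1 = true := ex3_a k17_pm_012_s s220_pm_012_s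

theorem s222_pm_012_s : ∃ t, chk3 f_pm_012_s t 34 30 1 = true := ex3_b s221_pm_012_s s217_pm_012_s

theorem s223_pm_012_s : ∃ t, chk3 f_pm_012_s t 17 30 1 = true := ex3_a s222_pm_012_s s210_pm_012_s

theorem s224_pm_012_s : ∃ t, chk3 f_pm_012_s t 17 15 1 = true := ex3_b s223_pm_012_s s206_pm_012_s

theorem s225_pm_012_s : ∃ t, chk3 f_pm_012_s t 8 15 1 = true := ex3_a k16_pm_012_s s224_pm_012_s

theorem s226_pm_012_s : ∃ t, chk3 f_pm_012_s t 143 59 1 = true := ex3_a k14_pm_012_s k15_pm_012_s

theorem s227_pm_012_s : ∃ t, chk3 f_pm_012_s t 142 119 1 = true := ex3_b k12_pm_012_s k13_pm_012_s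

theorem s228_pm_012_s : ∃ t, chk3 f_pm_012_s t 142 59 1 = true := ex3_b k11_pm_012_s s227_pm_012_s

theorem s229_pm_012_s : ∃ t, chk3 f_pm_012_s t 71 59 1 = true := ex3_a s228_pm_012_s s226_pm_012_s

theorem s230_pm_012_s : ∃ t, chk3 f_pm_012_s t 35 59 1 = true := ex3_a k10_pm_012_s s229_pm_012_s

theorem s231_pm_012_s : ∃ t, chk3 f_pm_012_s t 35 29 1 = true := ex3_b k9_pm_012_s s230_pm_012_s

theorem s232_pm_012_s : ∃ t, chk3 f_pm_012_s t 17 29 1 = true := ex3_a k8_pm_012_s s231_pm_012_s

theorem s233_pm_012_s : ∃ t, chk3 f_pm_012_s t 17 14 1 = true := ex3_b k7_pm_012_s s232_pm_012_s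

theorem s234_pm_012_s : ∃ t, chk3 f_pm_012_s t 8 14 1 = true := ex3_a k6_pm_012_s s233_pm_012_s

theorem s235_pm_012_s : ∃ t, chk3 f_pm_012_s t 8 7 1 = true := ex3_b s234_pm_012_s s225_pm_012_s

theorem s236_pm_012_s : ∃ t, chk3 f_pm_012_s t 4 7 1 = true := ex3_a s235_pm_012_s s204_pm_012_s

theorem s237_pm_012_s : ∃ t, chk3 f_pm_012_s t 19 13 1 = true := ex3_a k4_pm_012_s k5_pm_012_s

theorem s238_pm_012_s : ∃ t, chk3 f_pm_012_s t 19 6 1 = true := ex3_b k3_pm_012_s s237_pm_012_s

theorem s239_pm_012_s : ∃ t, chk3 f_pm_012_s t 9 6 1 = true := ex3_a k2_pm_012_s s238_pm_012_s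

theorem s240_pm_012_s : ∃ t, chk3 f_pm_012_s t 4 6 1 = true := ex3_a k1_pm_012_s s239_pm_012_s

theorem s241_pm_012_s : ∃ t, chk3 f_pm_012_s t 4 3 1 = true := ex3_b s240_pm_012_s s236_pm_012_s

theorem s242_pm_012_s : ∃ t, chk3 f_pm_012_s t 4 1 1 = true := ex3_b k0_pm_012_s s241_pm_012_s

theorem s243_pm_012_s : ∃ t, chk3 f_pm_012_s t 2 1 1 = true := ex3_a s242_pm_012_s s170_pm_012_s

theorem s244_pm_012_s : ∃ t, chk3 f_pm_012_s t 1 1 1 = true := ex3_a s243_pm_012_s s126_pm_012_s

theorem c_pm_012_s : CertNE 0 536870912 536870912 536870912 536870912 50465866 3 eng mog cd0q0 cd0q1 pd2 true true false .pnp 0 1 2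
    ndB0q0 ndB0q1 pcB2 cut_pm_012_s Ext.none :=
  certNE2 (fam := true) (s1 := true) (s2 := false) (a := 0) (b := 1) (c := 2) (cn := .pnp) (n1 := ndB0q0) (n2 := ndB0q1) (pc := pcB2) (cut := cut_pm_012_s) (xt := Ext.none) (P1 := 0) (W1 := 536870912) (P2 := 536870912) (W2 := 536870912) (P3 := 536870912) (W3 := 50465866) (N0 := 3) (En := eng) (mo := mog) (C1 := cd0q0) (C2 := cd0q1) (C3 := pd2)
    rfl (fun _ => rfl) s244_pm_012_s

noncomputable def cut_pm_012_t : Cut := Cut.of [[⟨3, 0, 0, 2845415833⟩], [⟨0, 0, 0, 67108864⟩, ⟨1, 1, 0, 67108864⟩, ⟨2, 1, 0, 67108864⟩], [⟨0, 0, 1, 20971520⟩, ⟨1, 1, 0, 33554432⟩, ⟨2, 1, 1, 20971520⟩]]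

noncomputable def f_pm_012_t : ℕ → ℕ → ℕ → ℕ → Bool := onCell 0 536870912 536870912 536870912 536870912 50465866
    (rowNE 3 eng mog cd0q0 cd0q1 pd2 0 true true false .pnp 0 1 2 (qsf 0 536870912 536870912 536870912 2) ndB0q0 ndB0q1 pcB2 cut_pm_012_t Ext.none)

def k0_pm_012_t : ∃ t, chk3 f_pm_012_t t 1 1 1 = true :=
  ⟨(l 6), by decide +kernel⟩

theorem c_pm_012_t : CertNE 0 536870912 536870912 536870912 536870912 50465866 3 eng mog cd0q0 cd0q1 pd2 true true false .pnp 0 1 2
    ndB0q0 ndB0q1 pcB2 cut_pm_012_t Ext.none :=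
  certNE0 (fam := true) (s1 := true) (s2 := false) (a := 0) (b := 1) (c := 2) (cn := .pnp) (n1 := ndB0q0) (n2 := ndB0q1) (pc := pcB2) (cut := cut_pm_012_t) (xt := Ext.none) (P1 := 0) (W1 := 536870912) (P2 := 536870912) (W2 := 536870912) (P3 := 536870912) (W3 := 50465866) (N0 := 3) (En := eng) (mo := mog) (C1 := cd0q0) (C2 := cd0q1) (C3 := pd2)
    rfl k0_pm_012_t

noncomputable def cut_pm_022_s : Cut := Cut.of [[⟨4, 0, 0, 1449551462⟩], [⟨0, 0, 0, 67108864⟩, ⟨1, 1, 0, 67108864⟩, ⟨2, 1, 0, 67108864⟩], [⟨0, 0, 1, 20971520⟩, ⟨1, 1, 0, 33554432⟩, ⟨2, 1, 1, 20971520⟩]]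

noncomputable def f_pm_022_s : ℕ → ℕ → ℕ → ℕ → Bool := onCell 1073741824 536870912 0 536870912 536870912 50465866
    (rowNE 3 eng mog cd0q0 cd0q2 pd2 2 true true false .pp 0 2 2 (qsf 0 536870912 0 536870912 2) ndB0q0 ndB0q2 pcB2 cut_pm_022_s Ext.none)

def k0_pm_022_s : ∃ t, chk3 f_pm_022_s t 8 1 1 = true :=
  ⟨(b (l 1) (b (l 1) (b (a (l 1) (a (b (l 1) (l 14)) (a (b (l 1) (l 14)) (b (b (l 1) (b (l 16651712) (l 16656832))) (a (l 14) (b (l 16662896) (l 16672728))))))) (a (l 14) (a (l 14) (a (l 14) (a (l 14) (b (b (l 16682328) (l 16691768)) (b (c (l 16701608) (l 16700744)) (b (l 16707784) (c (l 16713040) (l 16711360)))))))))))), by decide +kernel⟩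

def k1_pm_022_s : ∃ t, chk3 f_pm_022_s t 9 2 1 = true :=
  ⟨(l 6), by decide +kernel⟩

def k2_pm_022_s : ∃ t, chk3 f_pm_022_s t 9 6 1 = true :=
  ⟨(b (a (l 1) (l 6)) (a (b (a (l 1) (a (b (l 1) (l 16599952)) (b (l 16586616) (l 16595664)))) (a (a (l 1) (b (l 16613928) (l 16623632))) (b (a (l 16609304) (l 16604536)) (a (l 16618512) (c (l 16613632) (l 16612432)))))) (b (a (a (b (l 16582600) (l 16591208)) (b (l 6) (l 16628536))) (l 6)) (a (b (c (l 16597176) (l 16596432)) (l 16620544)) (b (l 16586664) (l 16593848)))))), by decide +kernel⟩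

def k3_pm_022_s : ∃ t, chk3 f_pm_022_s t 9 7 1 = true :=
  ⟨(b (a (b (a (b (a (l 16638648) (l 16633200)) (a (l 16648528) (l 16642624))) (b (a (l 16617136) (l 16621928)) (l 16633560))) (b (a (a (c (l 16658608) (l 16657560)) (l 16651896)) (l 16663184)) (a (a (l 16667744) (l 16661000)) (l 16671808)))) (b (a (b (l 16613144) (l 16621088)) (l 16647488)) (b (c (l 16656080) (l 16644040)) (a (l 16659224) (l 16647040))))) (a (b (b (a (c (l 16694632) (l 16673496)) (l 16680880)) (a (a (l 16696848) (l 16700208)) (a (l 16693168) (l 16686192)))) (b (a (c (b (l 16716392) (a (l 16698384) (l 16691080))) (b (l 16689120) (l 16694032))) (a (a (l 16682608) (l 16678968)) (a (l 16675336) (l 16671728)))) (a (a (b (c (l 16702896) (l 16701376)) (c (b (l 16706200) (l 16708376)) (b (l 16704440) (l 16706448)))) (b (c (l 16695448) (l 16693672)) (c (b (l 16698648) (l 16700752)) (l 16708104)))) (b (a (c (l 16688080) (l 16686024)) (l 16679480)) (a (c (l 16697440) (l 16689848)) (c (l 16684720) (l 16682128))))))) (b (c (b (a (l 16647752)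 (l 16656320)) (a (l 16698032) (l 16663992))) (a (b (l 16646040) (l 16654064)) (b (l 16632832) (l 16640280)))) (b (a (b (a (l 16664376) (l 16657352)) (a (l 16668288) (l 16661128))) (c (a (l 16653840) (l 16647104)) (a (l 16650952) (l 16643872)))) (a (b (a (l 16672104) (l 16664800)) (a (c (l 16677352) (l 16674472)) (c (l 16670040) (l 16666888)))) (b (a (l 16657560) (l 16650416)) (a (c (l 16662792) (l 16659360)) (c (l 16655664) (l 16651920))))))))), by decide +kernel⟩

def k4_pm_022_s : ∃ t, chk3 f_pm_022_s t 5 2 1 = true :=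
  ⟨(l 6), by decide +kernel⟩

def k5_pm_022_s : ∃ t, chk3 f_pm_022_s t 5 6 1 = true :=
  ⟨(a (a (a (b (l 6) (b (l 6) (l 16621408))) (l 6)) (l 6)) (l 6)), by decide +kernel⟩

def k6_pm_022_s : ∃ t, chk3 f_pm_022_s t 20 7 1 = true :=
  ⟨(b (a (b (b (l 16591528) (l 16599336)) (a (l 16655520) (l 16670920))) (a (b (l 16609400) (c (l 16604912) (l 16600696))) (b (a (l 16584888) (a (l 16582944) (l 16649560))) (a (l 16661296) (a (l 16659024) (c (l 16649512) (l 16613128))))))) (a (b (b (b (l 16661640) (l 16665176)) (c (l 16651368) (l 16668800))) (b (a (c (l 16640472) (l 16636880)) (c (l 16633976) (l 16629968))) (b (a (l 16643360) (l 16636408)) (a (c (l 16648624) (l 16644552)) (c (l 16641704) (l 16637256)))))) (a (b (b (l 16612504) (a (l 16620576) (l 16617408))) (b (c (l 16627520) (l 16623072)) (a (b (l 16631248) (l 16634064)) (c (l 16642256) (l 16626880))))) (b (a (b (l 16607960) (l 16614136)) (b (a (l 16605432) (c (l 16627064) (l 16601296))) (a (l 16611448) (b (c (l 16610472) (l 16626664)) (c (l 16634312)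 (l 16650488)))))) (a (b (c (l 16622632) (l 16617816)) (b (l 16634648) (a (l 16627768) (a (l 16626368) (l 16625392))))) (a (b (c (l 16619872) (l 16614920)) (c (b (l 16623952) (a (l 16627200) (l 16626056))) (b (l 16618824) (l 16621272)))) (a (a (a (b (l 16615920) (b (l 16619872) (c (l 16625216) (l 16619936)))) (a (b (l 16615584) (b (l 16619528) (c (l 16624840) (l 16619600)))) (b (c (l 16617912) (l 16613064)) (b (c (l 16621888) (l 16616880)) (c (a (a (l 16624600) (l 16634928)) (l 16624424)) (l 16619272)))))) (b (l 16615032) (b (l 16618944) (c (l 16624232) (l 16619024))))) (b (l 16614504) (b (l 16618400) (c (l 16623704) (l 16618424))))))))))), by decide +kernel⟩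

def k7_pm_022_s : ∃ t, chk3 f_pm_022_s t 21 7 1 = true :=
  ⟨(a (b (b (l 6) (b (l 16647976) (c (l 16615000) (l 16588784)))) (b (b (c (l 16641768) (l 16594632)) (a (a (l 16607312) (l 16604336)) (l 16599400))) (a (b (a (l 16623264) (l 16609688)) (c (b (a (l 16619496) (l 16616424)) (a (c (l 16623608) (l 16620432)) (l 16618848))) (a (l 16615328) (l 16612032)))) (b (l 16625640) (b (l 16608352) (c (l 16634720) (l 16607952))))))) (b (b (l 6) (c (l 16620560) (l 16573808))) (b (b (l 16626352) (l 16631784)) (b (a (l 16598168) (l 16591912)) (b (c (l 16601632) (l 16595888)) (c (a (l 16607200) (l 16600960)) (l 16598016))))))), by decide +kernel⟩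

def k8_pm_022_s : ∃ t, chk3 f_pm_022_s t 11 7 1 = true :=
  ⟨(b (l 6) (b (a (a (a (l 16620208) (l 16614560)) (l 6)) (l 6)) (a (b (a (a (l 16585960) (l 16580376)) (l 16593520)) (b (a (l 16607688) (l 16576080)) (a (a (l 16602320) (l 16607152)) (a (l 16601784) (l 16596584))))) (a (a (b (l 6) (b (l 6) (c (l 16574168) (l 16567040)))) (l 6)) (l 6))))), by decide +kernel⟩

def k9_pm_022_s : ∃ t, chk3 f_pm_022_s t 3 1 1 = true :=
  ⟨(b (l 6) (l 6)), by decide +kernel⟩

theorem s10_pm_022_s : ∃ t, chk3 f_pm_022_s t 10 7 1 = true := ex3_a k6_pm_022_s k7_pm_022_s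

theorem s11_pm_022_s : ∃ t, chk3 f_pm_022_s t 5 7 1 = true := ex3_a s10_pm_022_s k8_pm_022_s

theorem s12_pm_022_s : ∃ t, chk3 f_pm_022_s t 5 3 1 = true := ex3_b k5_pm_022_s s11_pm_022_s

theorem s13_pm_022_s : ∃ t, chk3 f_pm_022_s t 5 1 1 = true := ex3_b k4_pm_022_s s12_pm_022_s

theorem s14_pm_022_s : ∃ t, chk3 f_pm_022_s t 9 3 1 = true := ex3_b k2_pm_022_s k3_pm_022_s

theorem s15_pm_022_s : ∃ t, chk3 f_pm_022_s t 9 1 1 = true := ex3_b k1_pm_022_s s14_pm_022_s

theorem s16_pm_022_s : ∃ t, chk3 f_pm_022_s t 4 1 1 = true := ex3_a k0_pm_022_s s15_pm_022_s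

theorem s17_pm_022_s : ∃ t, chk3 f_pm_022_s t 2 1 1 = true := ex3_a s16_pm_022_s s13_pm_022_s

theorem s18_pm_022_s : ∃ t, chk3 f_pm_022_s t 1 1 1 = true := ex3_a s17_pm_022_s k9_pm_022_s

theorem c_pm_022_s : CertNE 0 536870912 0 536870912 536870912 50465866 3 eng mog cd0q0 cd0q2 pd2 true true false .pp 0 2 2
    ndB0q0 ndB0q2 pcB2 cut_pm_022_s Ext.none :=
  certNE2 (fam := true) (s1 := true) (s2 := false) (a := 0) (b := 2) (c := 2) (cn := .pp) (n1 := ndB0q0) (n2 := ndB0q2) (pc := pcB2) (cut := cut_pm_022_s) (xt := Ext.none) (P1 := 0) (W1 := 536870912) (P2 := 0) (W2 := 536870912) (P3 := 536870912) (W3 := 50465866) (N0 := 3) (En := eng) (mo := mog) (C1 := cd0q0) (C2 := cd0q2) (C3 := pd2)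
    rfl (fun _ => rfl) s18_pm_022_s

noncomputable def cut_pm_022_t : Cut := Cut.of [[⟨3, 0, 0, 2845415833⟩], [⟨0, 0, 0, 67108864⟩, ⟨1, 1, 0, 67108864⟩, ⟨2, 1, 0, 67108864⟩], [⟨0, 0, 1, 20971520⟩, ⟨1, 1, 0, 33554432⟩, ⟨2, 1, 1, 20971520⟩]]

noncomputable def f_pm_022_t : ℕ → ℕ → ℕ → ℕ → Bool := onCell 1073741824 536870912 0 536870912 536870912 50465866
    (rowNE 3 eng mog cd0q0 cd0q2 pd2 2 true true false .pp 0 2 2 (qsf 0 536870912 0 536870912 2) ndB0q0 ndB0q2 pcB2 cut_pm_022_t Ext.none)

def k0_pm_022_t : ∃ t, chk3 f_pm_022_t t 1 1 1 = true :=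
  ⟨(a (l 6) (b (l 6) (l 6))), by decide +kernel⟩

theorem c_pm_022_t : CertNE 0 536870912 0 536870912 536870912 50465866 3 eng mog cd0q0 cd0q2 pd2 true true false .pp 0 2 2
    ndB0q0 ndB0q2 pcB2 cut_pm_022_t Ext.none :=
  certNE2 (fam := true) (s1 := true) (s2 := false) (a := 0) (b := 2) (c := 2) (cn := .pp) (n1 := ndB0q0) (n2 := ndB0q2) (pc := pcB2) (cut := cut_pm_022_t) (xt := Ext.none) (P1 := 0) (W1 := 536870912) (P2 := 0) (W2 := 536870912) (P3 := 536870912) (W3 := 50465866) (N0 := 3) (En := eng) (mo := mog) (C1 := cd0q0) (C2 := cd0q2) (C3 := pd2)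
    rfl (fun _ => rfl) k0_pm_022_t

noncomputable def cut_pm_023_s : Cut := Cut.of [[⟨4, 0, 0, 1449551462⟩], [⟨0, 0, 1, 20971520⟩, ⟨1, 1, 0, 33554432⟩, ⟨2, 1, 1, 20971520⟩]]

noncomputable def f_pm_023_s : ℕ → ℕ → ℕ → ℕ → Bool := onCell 1610612736 536870912 0 536870912 536870912 50465866
    (rowNE 3 eng mog cd0q0 cd0q2 pd3 2 true true false .up 0 2 3 (qsf 0 536870912 0 536870912 3) ndB0q0 ndB0q2 pcB3 cut_pm_023_s Ext.none)

def k0_pm_023_s : ∃ t, chk3 f_pm_023_s t 1 1 1 = true :=
  ⟨(l 6), by decide +kernel⟩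

theorem c_pm_023_s : CertNE 0 536870912 0 536870912 536870912 50465866 3 eng mog cd0q0 cd0q2 pd3 true true false .up 0 2 3
    ndB0q0 ndB0q2 pcB3 cut_pm_023_s Ext.none :=
  certNE2 (fam := true) (s1 := true) (s2 := false) (a := 0) (b := 2) (c := 3) (cn := .up) (n1 := ndB0q0) (n2 := ndB0q2) (pc := pcB3) (cut := cut_pm_023_s) (xt := Ext.none) (P1 := 0) (W1 := 536870912) (P2 := 0) (W2 := 536870912) (P3 := 536870912) (W3 := 50465866) (N0 := 3) (En := eng) (mo := mog) (C1 := cd0q0) (C2 := cd0q2) (C3 := pd3)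
    rfl (fun _ => rfl) k0_pm_023_s

noncomputable def cut_pm_023_t : Cut := Cut.of [[⟨3, 0, 0, 2845415833⟩], [⟨0, 0, 1, 20971520⟩, ⟨1, 1, 0, 33554432⟩, ⟨2, 1, 1, 20971520⟩]]

noncomputable def f_pm_023_t : ℕ → ℕ → ℕ → ℕ → Bool := onCell 0 536870912 0 536870912 536870912 50465866
    (rowNE 3 eng mog cd0q0 cd0q2 pd3 0 true true false .up 0 2 3 (qsf 0 536870912 0 536870912 3) ndB0q0 ndB0q2 pcB3 cut_pm_023_t Ext.none)

def k0_pm_023_t : ∃ t, chk3 f_pm_023_t t 1 1 1 = true :=
  ⟨(a (l 1) (b (a (b (a (l 1) (b (a (l 1) (b (l 16667344) (l 6))) (l 6))) (l 6)) (b (a (b (a (b (l 16663928) (l 6)) (b (l 16664776) (l 16646216))) (l 6)) (b (a (b (l 16707432) (l 16693920)) (b (l 16738608) (l 16729280))) (a (l 16671672) (b (l 16719984) (l 16709776))))) (a (l 6) (l 6)))) (l 6))), by decide +kernel⟩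

theorem c_pm_023_t : CertNE 0 536870912 0 536870912 536870912 50465866 3 eng mog cd0q0 cd0q2 pd3 true true false .up 0 2 3
    ndB0q0 ndB0q2 pcB3 cut_pm_023_t Ext.none :=
  certNE0 (fam := true) (s1 := true) (s2 := false) (a := 0) (b := 2) (c := 3) (cn := .up) (n1 := ndB0q0) (n2 := ndB0q2) (pc := pcB3) (cut := cut_pm_023_t) (xt := Ext.none) (P1 := 0) (W1 := 536870912) (P2 := 0) (W2 := 536870912) (P3 := 536870912) (W3 := 50465866) (N0 := 3) (En := eng) (mo := mog) (C1 := cd0q0) (C2 := cd0q2) (C3 := pd3)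
    rfl k0_pm_023_t

noncomputable def cut_pm_101_s : Cut := Cut.of [[⟨4, 0, 0, 1449551462⟩], [⟨0, 1, 0, 67108864⟩, ⟨1, 0, 0, 67108864⟩, ⟨2, 1, 0, 67108864⟩]]

noncomputable def f_pm_101_s : ℕ → ℕ → ℕ → ℕ → Bool := onCell 536870912 536870912 536870912 536870912 536870912 50465866
    (rowNE 3 eng mog cd0q1 cd0q0 pd1 1 true true false .npn 1 0 1 (qsf 536870912 536870912 0 536870912 1) ndB0q1 ndB0q0 pcB1 cut_pm_101_s Ext.none)

def k0_pm_101_s : ∃ t, chk3 f_pm_101_s t 1 1 1 = true :=
  ⟨(b (l 3) (a (l 3) (b (l 3) (a (l 3) (b (l 3) (a (l 3) (b (l 3) (a (l 3) (l 14))))))))), by decide +kernel⟩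

theorem c_pm_101_s : CertNE 536870912 536870912 0 536870912 536870912 50465866 3 eng mog cd0q1 cd0q0 pd1 true true false .npn 1 0 1
    ndB0q1 ndB0q0 pcB1 cut_pm_101_s Ext.none :=
  certNE1 (fam := true) (s1 := true) (s2 := false) (a := 1) (b := 0) (c := 1) (cn := .npn) (n1 := ndB0q1) (n2 := ndB0q0) (pc := pcB1) (cut := cut_pm_101_s) (xt := Ext.none) (P1 := 536870912) (W1 := 536870912) (P2 := 0) (W2 := 536870912) (P3 := 536870912) (W3 := 50465866) (N0 := 3) (En := eng) (mo := mog) (C1 := cd0q1) (C2 := cd0q0) (C3 := pd1)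
    rfl (fun _ => rfl) k0_pm_101_s

noncomputable def cut_pm_101_t : Cut := Cut.of [[⟨3, 0, 0, 2845415833⟩], [⟨0, 1, 0, 67108864⟩, ⟨1, 0, 0, 67108864⟩, ⟨2, 1, 0, 67108864⟩]]

noncomputable def f_pm_101_t : ℕ → ℕ → ℕ → ℕ → Bool := onCell 536870912 536870912 0 536870912 536870912 50465866
    (rowNE 3 eng mog cd0q1 cd0q0 pd1 0 true true false .npn 1 0 1 (qsf 536870912 536870912 0 536870912 1) ndB0q1 ndB0q0 pcB1 cut_pm_101_t Ext.none)

def k0_pm_101_t : ∃ t, chk3 f_pm_101_t t 1 1 1 = true :=
  ⟨(l 6), by decide +kernel⟩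

theorem c_pm_101_t : CertNE 536870912 536870912 0 536870912 536870912 50465866 3 eng mog cd0q1 cd0q0 pd1 true true false .npn 1 0 1
    ndB0q1 ndB0q0 pcB1 cut_pm_101_t Ext.none :=
  certNE0 (fam := true) (s1 := true) (s2 := false) (a := 1) (b := 0) (c := 1) (cn := .npn) (n1 := ndB0q1) (n2 := ndB0q0) (pc := pcB1) (cut := cut_pm_101_t) (xt := Ext.none) (P1 := 536870912) (W1 := 536870912) (P2 := 0) (W2 := 536870912) (P3 := 536870912) (W3 := 50465866) (N0 := 3) (En := eng) (mo := mog) (C1 := cd0q1) (C2 := cd0q0) (C3 := pd1)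
    rfl k0_pm_101_t

end Pool.Agent.Strip051.G.I5000_5470.Tab.CS.BA00

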