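import Pool.Agent.Strip051.G.I5000_5470.Tab
import Pool.Agent.Strip051.PB.StripB

/-! # Strips, near vertex: certificates 2 (generated) -/

set_option linter.all false
set_option maxRecDepth 100000

namespace Pool.Agent.Strip051.G.I5000_5470.Tab.CS.BA00

open Pool.Agent.Strip051.PB Pool.Agent.Strip051.PB.T
open Pool.Agent.Strip051.G.I5000_5470.Tab

noncomputable def cut_pm_102_s : Cut := Cut.of [[⟨4, 0, 0, 1449551462⟩], [⟨0, 1, 0, 67108864⟩, ⟨1, 0, 0, 67108864⟩, ⟨2, 1, 0, 67108864⟩], [⟨0, 1, 0, 33554432⟩, ⟨1, 0, 1, 20971520⟩, ⟨2, 1, 1, 20971520⟩]]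

noncomputable def f_pm_102_s : ℕ → ℕ → ℕ → ℕ → Bool := onCell 536870912 536870912 1073741824 536870912 536870912 50465866
    (rowNE 3 eng mog cd0q1 cd0q0 pd2 1 true true false .npp 1 0 2 (qsf 536870912 536870912 0 536870912 2) ndB0q1 ndB0q0 pcB2 cut_pm_102_s Ext.none)

def k0_pm_102_s : ∃ t, chk3 f_pm_102_s t 2 4 1 = true :=
  ⟨(a (l 3) (l 3)), by decide +kernel⟩

def k1_pm_102_s : ∃ t, chk3 f_pm_102_s t 4 10 1 = true :=
  ⟨(b (b (l 3) (l 2)) (l 2)), by decide +kernel⟩

def k2_pm_102_s : ∃ t, chk3 f_pm_102_s t 5 40 1 = true :=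
  ⟨(a (l 3) (b (l 3) (a (l 3) (b (a (l 3) (a (l 3) (b (l 3) (c (a (b (l 3) (c (l 170355851303) (l 177335174743))) (b (c (l 186461978663) (l 190220076631)) (c (l 45264931799) (l 16776824)))) (a (l 204715589479) (c (l 86603996887) (l 16779832))))))) (a (b (l 3) (b (a (l 3) (a (l 3) (c (a (l 116668765015) (l 72108477783)) (l 16777168)))) (a (a (l 3) (l 204178718839)) (a (b (l 103246991991) (l 16778280)) (l 16777880))))) (b (a (b (a (l 3) (a (l 214916136967) (a (l 119353118855) (l 116668761527)))) (c (a (c (l 142438565799) (l 146733532887)) (l 16778072)) (l 86603993767))) (c (a (b (l 38285609703) (l 16776160)) (l 16778472)) (l 25937579383))) (c (a (a (a (l 16778312) (l 16776232)) (l 16778424)) (a (l 16777872) (l 16779944))) (a (l 16778504) (l 16774568))))))))), by decide +kernel⟩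

def k3_pm_102_s : ∃ t, chk3 f_pm_102_s t 10 82 1 = true :=
  ⟨(a (l 3) (b (l 3) (a (l 3) (b (l 3) (b (a (l 3) (a (l 3) (l 124721831175))) (a (a (l 3) (l 180019532263)) (a (l 81772156727) (l 16779608)))))))), by decide +kernel⟩

def k4_pm_102_s : ∃ t, chk3 f_pm_102_s t 11 82 1 = true :=
  ⟨(a (b (a (l 3) (b (b (l 3) (a (l 3) (a (l 3) (a (l 164987145703) (l 97878283527))))) (b (a (a (l 3) (l 192367561143)) (a (a (l 105931347047) (l 16778376)) (l 16778040))) (a (a (a (l 197736269591) (l 109152572551)) (l 58149835415)) (c (l 16776424) (l 16776296)))))) (a (a (b (a (l 3) (b (l 3) (l 116131895975))) (a (b (l 71571608775) (l 16776736)) (b (l 16776880) (l 16776488)))) (b (b (a (l 198810011639) (l 92509575399)) (c (l 43654320295) (l 16779480))) (c (b (l 16776472) (l 16776192)) (b (l 16776376) (l 16776024))))) (b (a (c (b (l 16779320) (l 16776240)) (b (l 16776624) (l 16776104))) (c (a (l 16778536) (l 16778184)) (l 16780744))) (b (a (c (l 16775912) (l 16775704)) (c (l 16775352) (l 16775000))) (a (c (l 16775736)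 (l 16775448)) (l 16777680)))))) (a (b (b (c (a (a (b (l 176798304311) (l 16779512)) (b (l 64055412695) (l 16776416))) (b (l 16778888) (l 16778320))) (a (b (c (l 116131892679) (l 93046447687)) (l 16779168)) (l 16778336))) (a (c (a (l 16779304) (l 16778200)) (l 16780792)) (c (a (l 16777760) (l 16774720)) (l 16774496)))) (a (b (c (c (l 16777744) (l 16780168)) (l 16779864)) (a (c (l 16774912) (l 16774384)) (b (l 16774352) (l 16779504)))) (b (a (l 16776184) (l 16773824)) (c (b (a (l 16774344) (l 16773872)) (a (l 16774072) (l 16773184))) (b (l 16783808) (l 16783256)))))) (a (b (b (c (b (l 16775272) (l 16774784)) (l 16774560)) (c (l 16778056) (l 16773504))) (b (a (c (l 16776344) (l 16773008)) (b (l 16773128) (l 16777872))) (c (b (l 16777872) (l 16771696)) (l 16779048)))) (b (b (b (l 16776632) (l 16778808)) (a (l 16773160) (b (l 16772912) (l 16777664)))) (b (b (a (l 16777768) (l 16771544)) (l 16776176)) (c (l 16775296) (l 16768656))))))), by decide +kernel⟩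

def k5_pm_102_s : ∃ t, chk3 f_pm_102_s t 20 83 1 = true :=
  ⟨(a (l 2) (b (b (l 3) (a (l 2) (b (a (l 116131893223) (l 100562639527)) (b (l 11374957063) (l 16779624))))) (a (l 2) (b (b (b (l 16776856) (c (l 16779376) (l 16781832))) (b (l 16781816) (l 16780472))) (a (l 2) (b (b (b (l 16776408) (b (l 16776400) (c (l 16781976) (l 16776072)))) (l 16776352)) (l 16776232))))))), by decide +kernel⟩

def k6_pm_102_s : ∃ t, chk3 f_pm_102_s t 21 83 1 = true :=
  ⟨(b (b (b (b (a (l 3) (a (c (l 104857606695) (l 129553668935)) (c (l 16776840) (l 16776800)))) (a (a (l 3) (a (l 3) (l 126332441751))) (a (c (l 16779672) (l 16779656)) (l 16777936)))) (a (a (c (l 162302793431) (l 168208373159)) (a (l 82309027751) (a (l 16779712) (l 16776992)))) (a (c (l 16778704) (l 16779320)) (c (l 16776264) (l 16776208))))) (b (a (a (b (l 93583317047) (l 16779656)) (c (l 16779416) (l 16776728))) (a (a (c (l 16776440) (l 16776368)) (l 16781368)) (c (l 16780952) (l 16775648)))) (a (b (a (l 16776872) (c (l 16776512) (l 16776400))) (a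 (l 16776688) (l 16781464))) (a (c (l 16781024) (l 16780928)) (c (l 16775048) (l 16774984)))))) (b (b (b (a (a (l 16779104) (l 16781192)) (a (c (l 16775280) (l 16775176)) (c (l 16774392) (l 16774344)))) (a (a (l 16781464) (l 16780840)) (a (c (l 16780072) (l 16779976)) (c (l 16779072) (l 16778952))))) (b (a (a (l 16776096) (c (l 16775536) (l 16775328))) (a (c (l 16779944) (l 16779696)) (c (l 16773768) (l 16773296)))) (a (a (c (l 16781480) (l 16781136)) (c (l 16780888) (l 16780456))) (a (c (l 16774896) (l 16774248)) (c (l 16774032) (l 16773112)))))) (b (b (b (a (a (c (l 16776304) (l 16775800)) (l 16780664)) (a (c (l 16775120) (l 16774120)) (c (l 16774264) (l 16773024)))) (b (a (a (l 16781296) (l 16780696)) (a (c (l 16775272) (l 16774080)) (l 16778960))) (a (a (c (c (l 16780616) (l 16776264)) (l 16780896)) (c (c (l 16781504) (l 16775728)) (l 16780184))) (a (a (c (l 16780752) (l 16774296)) (c (l 16780368) (l 16773808))) (a (c (l 16779936) (l 16773280)) (a (l 16778848) (l 16778600))))))) (a (a (l 16776000)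 (l 16775392)) (a (l 16774592) (l 16773624)))) (a (a (l 16775880) (l 16775264)) (a (l 16774464) (l 16773488)))))), by decide +kernel⟩

def k7_pm_102_s : ∃ t, chk3 f_pm_102_s t 22 83 1 = true :=
  ⟨(b (b (b (a (a (a (c (l 16781696) (l 16776352)) (l 16780128)) (c (l 16778616) (l 16775752))) (c (a (l 16775624) (a (l 16775344) (l 16775112))) (a (l 16775240) (l 16774648)))) (a (a (c (l 16775816) (l 16775696)) (l 16779216)) (c (a (l 16774928) (c (l 16779488) (l 16773984))) (a (l 16774560) (l 16778808))))) (b (a (c (a (l 16775144) (l 16779768)) (a (l 16775040) (l 16774344))) (c (a (a (l 16774024) (l 16773512)) (l 16772392)) (a (l 16778632) (l 16771736)))) (a (b (a (l 16774536) (c (l 16773736) (l 16773560))) (a (c (l 16774040) (l 16773968)) (c (l 16773000) (l 16772728)))) (c (a (l 16772136) (l 16770904)) (a (l 16771584) (l 16769920)))))) (b (b (a (b (a (c (l 16773408) (l 16773264)) (l 16777336)) (c (a (l 16772848) (l 16771904)) (a (l 16772440) (l 16771096)))) (c (a (c (l 16771368) (l 16770808)) (c (l 16770536)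 (l 16769728))) (a (l 16775248) (l 16779040)))) (b (a (a (l 16777680) (l 16776592)) (a (l 16775504) (l 16779672))) (a (a (c (l 16773104) (l 16771896)) (c (l 16772208) (l 16770664))) (a (c (l 16771336) (l 16769416)) (c (l 16770488) (l 16768152)))))) (b (b (b (a (a (l 16777840) (l 16782040)) (a (l 16770520) (l 16769472))) (b (a (a (l 16783192) (l 16771688)) (a (l 16770664) (l 16769640))) (a (a (c (c (l 16779232) (l 16773144)) (l 16782392)) (c (c (l 16773144) (l 16772176)) (l 16770776))) (c (a (c (l 16772320) (l 16771224)) (c (l 16771504) (l 16770264))) (c (l 16777472) (l 16778976)))))) (a (c (l 16783440) (l 16781680)) (a (l 16770480) (l 16769416)))) (a (c (l 16778056) (l 16781472)) (a (l 16770256) (l 16769160)))))), by decide +kernel⟩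

def k8_pm_102_s : ∃ t, chk3 f_pm_102_s t 23 83 1 = true :=
  ⟨(b (c (b (b (a (a (a (l 16779960) (l 16774080)) (l 16777920)) (a (l 16770784) (l 16768888))) (a (a (l 16772648) (l 16770928)) (a (l 16769184) (l 16767512)))) (b (a (a (l 16770912) (l 16769392)) (a (l 16767888) (l 16766472))) (a (a (l 16769672) (l 16768424)) (a (l 16767192) (l 16766048))))) (a (b (a (b (c (l 16784256) (l 16773376)) (l 16771800)) (b (l 16771608) (l 16769688))) (a (b (l 16769848) (l 16768208)) (c (l 16777944) (l 16777096)))) (b (a (b (l 16769352) (l 16767520)) (b (l 16767056) (l 16765384))) (a (b (l 16765872) (l 16764664)) (l 16773856))))) (b (b (b (a (a (l 16776128) (l 16777432)) (a (l 16765640) (l 16764416))) (a (c (a (l 16769216) (l 16768320)) (a (l 16766944) (l 16765488))) (a (l 16776200) (l 16775104)))) (b (a (a (l 16778592) (l 16777472)) (c (l 16777792) (l 16773904))) (a (a (c (l 16769640) (l 16766864)) (l 16777624)) (c (l 16777992) (l 16774040))))) (b (b (b (a (a (l 16768424) (l 16767344)) (a (l 16766256) (l 16765232)))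 (b (a (a (l 16768608) (l 16767536)) (a (l 16766464) (l 16765448))) (a (a (c (c (l 16775952) (l 16769304)) (l 16767256)) (c (c (l 16775136) (l 16768320)) (l 16766024))) (c (a (c (l 16779568) (l 16767328)) (l 16772600)) (a (l 16764768) (l 16763576)))))) (a (a (l 16768344) (l 16767240)) (a (l 16766136) (l 16765072)))) (a (a (l 16768048) (l 16766920)) (a (l 16765760) (l 16764648)))))), by decide +kernel⟩

def k9_pm_102_s : ∃ t, chk3 f_pm_102_s t 5 21 1 = true :=
  ⟨(a (a (b (a (l 2) (b (a (l 2) (c (l 16776336) (l 16774984))) (l 2))) (l 2)) (b (a (b (a (c (l 16775928) (l 16774384)) (c (l 16775360) (l 16773616))) (a (l 16774024) (l 16773248))) (b (a (c (l 16779864) (l 16777928)) (c (l 16773672) (l 16776824))) (a (l 16782784) (c (l 16772768) (l 16769640))))) (a (b (a (l 2) (l 16772264)) (l 2)) (a (b (l 16771200) (l 16770360)) (b (l 16769968) (l 16769016)))))) (a (b (a (b (a (c (l 16772600) (l 16770360)) (c (l 16771408) (l 16769040))) (a (c (l 16771512) (l 16768280)) (c (l 16770104) (l 16766784)))) (b (a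 (c (l 16770232) (l 16767680)) (c (l 16769040) (l 16766288))) (a (l 16777328) (l 16775720)))) (a (b (a (l 16779048) (l 16777416)) (a (l 16767496) (l 16765768))) (a (b (l 16765152) (l 16763800)) (b (l 16763224) (l 16761664))))) (a (b (b (a (c (l 16767848) (l 16764848)) (c (l 16766632) (l 16763384))) (a (l 16774072) (l 16772376))) (a (c (l 16773200) (l 16757816)) (c (l 16781504) (l 16755608)))) (a (b (b (c (l 16765392) (l 16761864)) (l 16760152)) (b (l 16757144) (l 16754584))) (b (c (b (l 16764184) (l 16760496)) (l 16768736)) (b (l 16755000) (l 16752096))))))), by decide +kernel⟩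

def k10_pm_102_s : ∃ t, chk3 f_pm_102_s t 2 11 1 = true :=
  ⟨(a (l 2) (a (b (a (l 2) (b (a (l 2) (a (l 2) (l 16778576))) (l 2))) (l 2)) (b (a (b (a (b (a (l 16766704) (l 16764872)) (l 16786216)) (a (b (l 16762808) (l 16762080)) (b (l 16760472) (l 16759648)))) (a (a (l 2) (l 16763840)) (a (l 16761520) (l 16758936)))) (a (b (a (b (l 16757952) (l 16756928)) (b (l 16755256) (l 16754008))) (a (b (l 16756288) (l 16755936)) (l 16773840))) (b (a (l 16772608) (l 16748624)) (b (l 16769120) (l 16768296))))) (a (a (l 2) (b (a (l 2) (l 16759032)) (l 2))) (b (a (a (l 16755968) (l 16752616)) (a (l 16748944) (l 16744872))) (a (a (l 2) (l 16753552)) (l 16747640))))))), by decide +kernel⟩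

def k11_pm_102_s : ∃ t, chk3 f_pm_102_s t 2 3 1 = true :=
  ⟨(a (l 2) (b (a (l 2) (b (a (l 2) (b (a (l 2) (b (l 16749504) (l 2))) (l 2))) (l 2))) (l 2))), by decide +kernel⟩

def k12_pm_102_s : ∃ t, chk3 f_pm_102_s t 6 8 1 = true :=
  ⟨(l 3), by decide +kernel⟩

def k13_pm_102_s : ∃ t, chk3 f_pm_102_s t 6 18 1 = true :=
  ⟨(a (l 3) (b (l 3) (a (l 3) (b (l 3) (a (l 3) (b (l 3) (a (l 3) (b (a (l 3) (a (b (l 3) (b (l 181630141047) (l 58686703031))) (a (b (c (l 232096006807) (l 235317232215)) (l 16776464)) (b (b (a (l 185925110471) (l 61371057959)) (l 16776784)) (l 16775808))))) (a (b (b (l 206326203719) (a (l 3) (l 16778424))) (a (c (l 60834189911) (l 60834189783)) (l 16776136))) (a (c (l 16778144) (l 16775456)) (l 16775984))))))))))), by decide +kernel⟩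

def k14_pm_102_s : ∃ t, chk3 f_pm_102_s t 12 19 1 = true :=
  ⟨(b (l 3) (a (l 3) (b (a (l 3) (b (l 3) (a (l 3) (b (l 3) (a (l 3) (l 233169748775)))))) (a (b (l 3) (a (b (l 3) (a (l 3) (c (l 223506071975) (l 228337909943)))) (a (b (l 3) (c (b (l 176261432551) (l 16776616)) (l 117205632503))) (b (c (b (l 3) (l 142975435847)) (l 137606735975)) (c (l 16775864) (l 16775808)))))) (a (b (b (l 3) (a (l 243370295911) (b (l 188072592679) (l 49023028999)))) (b (c (c (a (l 67813508839) (l 16775056)) (l 44191190071)) (l 16780888)) (c (l 16779072) (l 16773696)))) (b (b (b (a (l 3) (c (l 71571608759) (l 16776976))) (a (l 142438565063) (l 16775672))) (a (l 16778224) (l 16773920))) (b (l 16776624) (l 16776080)))))))), by decide +kernel⟩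

def k15_pm_102_s : ∃ t, chk3 f_pm_102_s t 13 38 1 = true :=
  ⟨(a (b (l 3) (a (l 3) (b (a (l 3) (b (l 3) (a (l 3) (l 153175994743)))) (a (b (l 3) (a (l 3) (c (l 101636383383) (l 16777176)))) (b (a (l 129553664727) (l 16775856)) (l 16779712)))))) (b (a (b (a (l 3) (b (l 3) (l 296520519495))) (a (b (l 3) (a (l 3) (l 264308262807))) (b (a (l 284172486935) (c (l 39896227511) (l 31843163783))) (a (c (l 16779416) (l 16776784)) (l 16774536))))) (b (a (b (a (l 3) (b (a (l 3) (l 57076093623)) (l 30232545767))) (a (a (l 138143599607) (l 16779192)) (l 16774784))) (a (b (c (l 16774888) (l 16774792)) (l 16772304)) (b (b (l 16774224) (l 16772960)) (b (l 16771712) (l 16770472))))) (a (a (l 16776048) (l 16774968)) (a (b (l 16769824) (l 16767360)) (b (c (a (l 16768128) (l 16769488)) (l 16767120)) (b (a (l 16766112) (c (l 16765144) (l 16764696))) (a (l 16770192) (l 16763816)))))))) (a (a (a (b (b (l 221358589415) (l 16778792)) (l 16777800)) (b (b (l 33453772807) (l 16774096)) (l 16775640))) (b (a (l 16778344) (l 16770832))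 (a (l 16773352) (b (l 16767128) (l 16764768))))) (a (b (a (l 16768512) (b (l 16767368) (l 16765008))) (a (b (l 16764928) (l 16762768)) (l 16772344))) (a (b (b (a (l 16765544) (l 16764464)) (l 16762856)) (l 16765016)) (b (b (l 16766720) (l 16760720)) (c (l 16758112) (l 16757240)))))))), by decide +kernel⟩

def k16_pm_102_s : ∃ t, chk3 f_pm_102_s t 13 39 1 = true :=
  ⟨(a (b (a (b (a (l 3) (b (l 265382004775) (a (l 203104977607) (l 47412418487)))) (b (b (a (l 257865811223) (l 16779432)) (a (a (l 3) (l 16779736)) (l 16774248))) (a (a (a (l 140827952999) (l 16779216)) (l 16775168)) (l 16777456)))) (b (a (b (c (a (l 74255965143) (l 16775072)) (l 16781128)) (l 16778776)) (c (l 16776024) (l 16770624))) (a (c (l 16774784) (l 16769448)) (b (l 16770512) (a (l 16764752) (l 16763112)))))) (a (b (a (b (c (l 16778712) (l 16773456)) (l 16776528)) (b (l 16774680) (l 16772744))) (a (c (b (l 16769544) (l 16773160)) (l 16774960)) (b (a (l 16766840) (l 16765344)) (l 16773024)))) (b (a (c (b (l 16770672) (l 16768232))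 (b (l 16775616) (l 16763984))) (b (l 16767240) (l 16761120))) (a (c (l 16773608) (l 16762360)) (c (l 16760176) (l 16759128)))))) (b (a (b (b (a (l 16770280) (a (l 16764520) (l 16762608))) (a (a (l 16766080) (l 16764168)) (l 16761480))) (a (a (b (l 16763704) (l 16761520)) (l 16771456)) (c (l 16758824) (l 16758104)))) (a (b (l 16766632) (l 16765280)) (b (a (l 16755768) (c (l 16754256) (l 16753128))) (a (l 16751832) (l 16755008))))) (a (a (b (a (l 16769768) (l 16768160)) (c (l 16756888) (l 16755544))) (b (c (l 16766120) (l 16754544)) (c (l 16753272) (l 16751640)))) (a (b (c (l 16757280) (l 16750640)) (c (l 16754568) (l 16747424))) (a (b (l 16753544) (l 16745088)) (b (c (l 16747080) (l 16745320)) (l 16748064))))))), by decide +kernel⟩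

def k17_pm_102_s : ∃ t, chk3 f_pm_102_s t 14 16 1 = true :=
  ⟨(l 3), by decide +kernel⟩

def k18_pm_102_s : ∃ t, chk3 f_pm_102_s t 28 17 1 = true :=
  ⟨(l 3), by decide +kernel⟩

def k19_pm_102_s : ∃ t, chk3 f_pm_102_s t 29 34 1 = true :=
  ⟨(l 3), by decide +kernel⟩

def k20_pm_102_s : ∃ t, chk3 f_pm_102_s t 58 35 1 = true :=
  ⟨(l 3), by decide +kernel⟩

def k21_pm_102_s : ∃ t, chk3 f_pm_102_s t 59 70 1 = true :=
  ⟨(a (l 3) (b (l 3) (a (l 3) (a (b (l 3) (b (l 3) (b (a (l 3) (a (l 3) (b (l 257865810311) (a (b (l 3) (l 161229045879)) (a (b (l 103246987879) (l 16777104)) (l 16777080)))))) (a (b (l 3) (a (l 3) (a (l 3) (a (l 272898195703) (l 189146333383))))) (a (a (b (l 268066357543) (a (b (l 120426857143) (l 16777128)) (l 16777432))) (b (b (l 212231782503) (l 56002347527)) (l 16776960))) (c (l 16777472) (l 16777456))))))) (b (b (l 3) (b (l 3) (b (l 3) (a (l 3) (a (l 3) (a (l 269140099383) (b (l 211694911591) (l 58149831191)))))))) (b (b (a (l 3) (b (b (a (l 3) (a (a (l 123111211703) (l 16777176))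 (l 16777032))) (a (a (l 3) (l 185925107847)) (l 16777312))) (a (a (a (l 209010557063) (b (l 133848630007) (l 16777152))) (c (l 16777072) (l 16777400))) (l 16776776)))) (a (a (b (l 3) (a (l 3) (a (l 232632877191) (b (l 150491628359) (l 16777176))))) (b (a (l 230485393639) (b (l 162302787719) (l 16777112))) (a (c (l 16777104) (l 27548188935)) (l 16776904)))) (c (l 16777872) (l 16777200)))) (a (b (a (b (a (b (l 186461978759) (l 16777472)) (l 16777344)) (l 16777488)) (l 16777240)) (l 16777120)) (c (l 16777048) (l 16777008))))))))), by decide +kernel⟩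

def k22_pm_102_s : ∃ t, chk3 f_pm_102_s t 118 142 1 = true :=
  ⟨(a (l 3) (b (l 3) (b (l 3) (a (l 3) (a (l 3) (b (b (l 3) (a (l 3) (a (l 282025001271) (b (l 234780360823) (l 62981669463))))) (b (b (a (l 3) (a (l 142975434935) (l 16777048))) (a (a (l 3) (l 188609462455)) (l 16777336))) (a (a (b (l 244444037239) (l 69424120423)) (c (l 16777080) (l 16777400))) (l 16776800))))))))), by decide +kernel⟩

def k23_pm_102_s : ∃ t, chk3 f_pm_102_s t 118 286 1 = true :=
  ⟨(a (l 3) (b (a (a (l 3) (a (l 3) (b (l 3) (b (a (l 3) (l 230485393559)) (a (b (l 254107713623) (l 74792829559)) (l 30232543783)))))) (a (a (a (b (l 3) (b (b (l 158544691319) (l 16777104)) (l 16776896))) (b (b (l 3) (b (l 251423359063) (l 72645345911))) (l 16777504))) (b (b (a (l 227801038999) (b (l 156397207655) (l 16777104))) (c (l 16777648) (l 16777312))) (l 16777224))) (b (c (l 16777240) (l 16777208)) (l 16776656)))) (a (b (a (b (l 3) (a (l 3) (a (l 3) (b (l 254644584535) (l 75329700471))))) (a (b (a (l 231022264471) (b (l 160155304055)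 (l 16777104))) (c (l 16777648) (l 16777312))) (l 16777408))) (a (a (b (c (l 244980908375) (l 248202133799)) (a (b (l 252497100887) (l 74792829543)) (l 16777408))) (a (b (b (l 154249724103) (l 16777104)) (l 16776888)) (l 16777496))) (c (l 16777696) (l 16777008)))) (a (b (l 16777168) (l 16776920)) (a (l 16776640) (l 16776264)))))), by decide +kernel⟩

def k24_pm_102_s : ∃ t, chk3 f_pm_102_s t 118 287 1 = true :=
  ⟨(b (a (a (l 3) (a (b (l 3) (a (l 286856839783) (b (c (l 241222811975) (l 244444037399)) (a (a (l 202568106135) (l 123648082151)) (l 16777392))))) (a (a (b (l 287393710583) (b (a (l 125258694903) (l 16777440)) (l 16776872))) (b (b (l 3) (a (l 209010557063) (l 127406178551))) (l 16777488))) (b (b (a (c (l 231022264439) (l 232096006247)) (b (l 152639111351) (l 16777096))) (c (l 16776984) (l 16777632))) (l 16777200))))) (a (a (b (a (l 16777400) (l 16777016)) (l 16777280)) (a (l 16777000) (l 16776616))) (c (l 16775704) (l 16775616)))) (a (b (a (a (l 3) (b (l 3) (b (l 268066357095) (a (l 3) (a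 (l 282025001031) (l 16777504)))))) (a (a (b (a (a (l 289541193799) (l 199346880663)) (a (l 120426856679) (l 16777104))) (l 16777448)) (l 16777376)) (l 16776800))) (a (a (c (l 284172485479) (l 289541194503)) (a (a (b (l 3) (a (l 184851366055) (l 106468213015))) (b (l 212231782551) (l 16777040))) (b (a (a (l 109689438503) (l 16777096)) (l 16776952)) (l 16776752)))) (c (l 16777272) (l 16776904)))) (a (a (l 16776384) (l 16775616)) (a (l 16774856) (a (l 16774256) (l 16773864)))))), by decide +kernel⟩

def k25_pm_102_s : ∃ t, chk3 f_pm_102_s t 238 142 1 = true :=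
  ⟨(b (b (b (l 3) (a (l 3) (a (l 3) (a (c (l 255181455943) (c (l 261087035927) (l 264845132279))) (a (b (l 3) (b (l 168745238679) (l 16777120))) (b (a (l 219211104391) (b (l 146733531911) (l 16777160))) (l 16777000))))))) (a (b (l 3) (a (l 3) (a (l 3) (a (l 3) (l 269140098887))))) (b (a (a (l 3) (b (l 3) (a (l 247128391943) (b (l 185925107847) (l 16777464))))) (a (b (a (c (l 183240753271) (c (l 185925107799) (l 186461978695))) (c (l 16777104) (l 54928605463))) (l 16777256)) (l 16777176))) (a (b (a (a (l 3) (b (l 3) (l 154249724023))) (c (l 16777360) (c (l 16777352) (c (l 16777352) (l 21105738327))))) (a (a (b (l 199346880663) (l 16777480)) (l 16777368)) (l 16776752))) (c (l 16776336) (l 16776960)))))) (b (a (a (b (l 3) (a (l 280414388839) (b (a (l 3) (a (l 271824453863) (l 186461978807))) (a (b (l 226727297127) (l 58686702119)) (l 16777392))))) (a (a (b (l 274508808679) (b (c (l 16777312) (c (l 83919634631) (l 81235280071))) (l 16776872))) (b (b (l 3) (b (l 213305524359) (l 53317992967))) (l 16777152)))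 (b (b (a (b (l 3) (l 165524013191)) (c (l 16777464) (c (l 16777464) (l 75866570919)))) (c (l 16776960) (l 16777280))) (l 16777200)))) (a (b (a (l 16777208) (l 16776992)) (l 16776632)) (c (l 16776840) (l 16776120)))) (b (a (a (b (a (b (a (l 3) (l 137606725799)) (a (l 182703882407) (l 16777088))) (l 16777208)) (c (l 16777456) (c (l 16777440) (l 16777432)))) (c (l 16776208) (l 16776816))) (a (l 16776088) (l 16774680))) (a (a (c (l 16777056) (c (l 16777024) (l 16777008))) (c (l 16775672) (l 16776912))) (c (l 16774576) (l 16775768)))))), by decide +kernel⟩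

def k26_pm_102_s : ∃ t, chk3 f_pm_102_s t 239 142 1 = true :=
  ⟨(a (b (b (a (b (a (b (l 3) (a (l 225653555367) (b (l 153712853111) (l 16777104)))) (a (b (a (l 199883751591) (b (l 129016791751) (l 16777144))) (l 16776984)) (c (l 16777584) (l 16777416)))) (c (l 13052674599) (c (l 16777472) (c (l 16777304) (l 16777384))))) (c (l 16777496) (c (l 16776808) (l 16776800)))) (c (l 16776792) (a (l 16776792) (l 16776336)))) (b (c (l 16775728) (l 16775536)) (a (b (l 16773928) (l 16773384)) (a (b (l 16773360) (l 16772816)) (b (l 16772976) (l 16772440)))))) (a (b (b (a (l 16776568) (l 16776504)) (l 16775600)) (c (b (l 16774600) (l 16772256)) (b (l 16773136) (l 16772048)))) (b (b (l 16775920) (a (l 16773712) (l 16773976))) (b (a (l 16772632) (l 16772248)) (l 16771376))))), by decide +kernel⟩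

def k27_pm_102_s : ∃ t, chk3 f_pm_102_s t 119 143 1 = true :=
  ⟨(a (a (b (b (c (l 16776512) (c (l 16776448) (l 16776416))) (a (l 16775688) (c (l 16773688) (l 16773560)))) (c (b (c (l 16773248) (l 16774152)) (l 16771664)) (b (c (l 16774080) (l 16774032)) (l 16772832)))) (b (c (b (b (l 16774016) (l 16773440)) (c (l 16772608) (l 16772504))) (b (c (l 16774600) (l 16774536)) (c (l 16773080) (l 16773672)))) (a (b (l 16772952) (l 16770408)) (b (l 16770864) (a (l 16769800) (l 16772040)))))) (a (b (c (b (a (l 16772608) (l 16771864)) (l 16771032)) (b (c (l 16772080) (l 16772656)) (l 16772136))) (c (b (a (l 16770176) (l 16769432)) (l 16768576)) (b (a (l 16772600) (l 16771832)) (l 16771008)))) (b (a (b (l 16770984) (b (l 16770056) (l 16769456))) (b (b (l 16770512) (l 16770560)) (l 16768968))) (l 16768776)))), by decide +kernel⟩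

def k28_pm_102_s : ∃ t, chk3 f_pm_102_s t 15 16 1 = true :=
  ⟨(a (b (l 3) (a (l 3) (b (l 3) (a (l 3) (b (l 3) (a (l 3) (b (a (l 3) (a (l 3) (l 14))) (b (a (b (l 3) (b (l 3) (b (l 3) (a (l 3) (a (l 3) (a (l 3) (c (l 181630140471) (l 184851365975)))))))) (b (a (a (c (l 249812747047) (l 262160776631)) (b (l 14) (b (l 14) (b (l 14) (l 16777352))))) (l 14)) (a (a (b (a (c (l 221895459143) (l 232096006439)) (b (a (a (l 3) (l 225653555239)) (l 94657052775)) (l 37748736151))) (a (a (b (c (l 90362086039) (l 94120182407)) (l 16777136)) (l 16777416)) (l 16776920))) (c (l 16777376) (l 16777048))) (c (l 16776712) (l 16776712))))) (a (a (a (l 3) (b (l 3) (b (l 250886487943) (b (a (l 3) (a (a (l 3) (l 199346880567)) (l 16777272))) (a (l 207399944295) (l 16777440)))))) (a (b (a (l 3) (b (l 3) (b (l 215989878903) (a (c (l 16777536) (l 89288344199)) (l 16777152))))) (b (a (b (c (l 173577076823) (l 179482656839)) (c (l 16777160) (l 30232543687))) (l 16777328)) (l 16777176))) (b (b (b (a (l 250886488343) (a (l 115595018327)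 (l 16777112))) (a (a (c (l 115595019047) (l 121500599063)) (l 84993376391)) (l 16777032))) (c (l 16777264) (l 16777352))) (c (l 16776536) (l 16776864))))) (b (a (c (l 16777064) (a (l 16776960) (l 16776184))) (a (l 16775736) (l 16775624))) (a (a (l 16776744) (l 16775648)) (a (l 16775528) (l 16775088))))))))))))) (b (l 14) (a (b (l 14) (a (b (l 14) (a (b (l 14) (b (l 14) (b (l 14) (a (a (a (l 16774312) (l 14)) (l 14)) (l 14))))) (l 14))) (l 14))) (l 14)))), by decide +kernel⟩

def k29_pm_102_s : ∃ t, chk3 f_pm_102_s t 60 68 1 = true :=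
  ⟨(l 3), by decide +kernel⟩

def k30_pm_102_s : ∃ t, chk3 f_pm_102_s t 120 69 1 = true :=
  ⟨(l 3), by decide +kernel⟩

def k31_pm_102_s : ∃ t, chk3 f_pm_102_s t 121 138 1 = true :=
  ⟨(a (l 3) (b (l 3) (b (a (l 3) (a (a (l 3) (a (l 3) (b (l 3) (b (l 3) (a (l 190756946039) (l 109689438439)))))) (b (a (c (l 238001586807) (l 247128392247)) (b (a (l 260013293911) (a (l 178945785959) (l 96267665687))) (a (a (l 125258694903) (l 16777448)) (l 16776968)))) (a (b (a (a (l 243907166359) (l 159081562263)) (c (l 16777112) (l 16777440))) (l 16777264)) (l 16777312))))) (b (a (l 3) (a (b (a (l 239075328423) (a (a (l 139217338551) (l 16777464)) (l 16776976))) (a (a (b (l 3) (l 159081562263)) (c (l 16777128) (l 16777448))) (l 16776808))) (l 16777048))) (a (a (l 3) (a (c (l 246054650519) (l 255181455959)) (b (a (l 3) (a (l 198810009735) (l 117205631223))) (a (a (l 145659789511) (l 16777472)) (l 16776992))))) (a (c (l 16777256) (c (l 16777256) (l 16777256))) (l 16777072))))))), by decide +kernel⟩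

def k32_pm_102_s : ∃ t, chk3 f_pm_102_s t 121 278 1 = true :=
  ⟨(b (a (l 3) (b (a (a (b (l 3) (a (l 3) (a (l 3) (a (l 205789331575) (l 122037469431))))) (a (b (a (b (l 3) (l 168208367735)) (c (l 16777136) (l 33453769031))) (l 16777448)) (l 16777336))) (c (l 16776944) (l 16776928))) (a (a (b (a (l 246591521207) (a (a (l 148881014999) (l 16777480)) (l 16776992))) (a (a (b (l 3) (l 173577076823)) (c (l 16777136) (l 34527510855))) (l 16776824))) (l 16777072)) (c (l 16776384) (l 16776368))))) (a (a (l 3) (a (a (l 3) (a (l 3) (b (l 3) (b (l 3) (a (l 206863073399) (l 123648082167)))))) (a (b (c (l 249275875991) (l 258402681431)) (b (a (b (l 3) (l 171429593207)) (c (l 16777136) (l 33990639943))) (l 16777456))) (b (b (a (l 3) (a (l 207936815223) (l 124184953079))) (a (a (l 149954756823) (l 16777480)) (l 16777000))) (l 16777336))))) (b (a (a (c (l 16777272) (c (l 16777264) (l 16777264))) (l 16777088)) (c (l 16775176) (l 16775408))) (a (c (l 16776952) (l 16776944)) (a (l 16774384) (l 16773544)))))), by decide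 +kernel⟩

def k33_pm_102_s : ∃ t, chk3 f_pm_102_s t 121 279 1 = true :=
  ⟨(a (b (b (a (l 3) (a (b (a (l 246591521191) (a (a (l 148881014983) (l 16777480)) (l 16776992))) (a (a (b (l 3) (l 165524013207)) (c (l 16777128) (l 16777376))) (l 16776816))) (l 16777072))) (a (a (l 3) (b (a (l 3) (a (l 3) (a (l 201494364279) (l 119889985783)))) (a (l 243370295703) (a (a (l 143512305863) (l 16777472)) (l 16776984))))) (a (c (l 16777264) (a (l 16777472) (l 16776392))) (l 16777088)))) (a (a (a (b (l 3) (b (l 238001586567) (a (c (l 109689439495) (l 188072591447)) (c (l 16777112) (l 16777432))))) (a (b (l 3) (b (a (l 131701145863) (l 16777456)) (l 16776904))) (b (b (l 3) (a (l 193441300599) (l 113984405735))) (l 16777488)))) (b (a (b (a (a (l 252497100951) (l 167671496871)) (c (l 16777120) (l 16777448))) (l 16777440)) (l 16777328)) (l 16777056))) (c (l 16776664) (c (l 16776656) (l 16776648))))) (b (a (a (l 16776368) (a (l 16775904) (l 16774832))) (a (a (l 16774416) (l 16774648)) (l 16773368))) (a (a (a (l 16775624)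 (l 16774552)) (c (l 16773280) (l 16773256))) (a (l 16772440) (b (l 16771880) (l 16772632)))))), by decide +kernel⟩

def k34_pm_102_s : ∃ t, chk3 f_pm_102_s t 122 136 1 = true :=
  ⟨(a (l 3) (b (l 3) (b (l 3) (b (l 3) (b (l 3) (a (l 3) (a (l 3) (a (l 3) (a (l 251960230247) (b (l 182703882327) (l 42043703815))))))))))), by decide +kernel⟩

def k35_pm_102_s : ∃ t, chk3 f_pm_102_s t 122 274 1 = true :=
  ⟨(a (l 3) (b (a (l 3) (a (b (l 3) (a (c (l 250349617895) (l 261087036071)) (a (b (l 3) (b (l 180556398663) (l 16777488))) (b (b (l 229948522615) (c (l 16777216) (l 64592282247))) (l 16777008))))) (b (b (b (a (l 3) (a (a (l 117742502679) (l 16777192)) (l 16777024))) (a (l 224042942791) (l 16777328))) (a (a (b (l 3) (l 158007820391)) (c (l 16777448) (c (l 16777448) (l 54928605495)))) (l 16776792))) (c (l 16777424) (c (l 16777424) (c (l 16777256) (l 16777416))))))) (b (a (b (l 3) (a (l 3) (a (l 3) (a (l 3) (b (l 3) (l 149417885831)))))) (a (a (b (a (l 213842395399) (a (b (l 115058148103) (l 16777152)) (l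 16777440))) (c (l 16777664) (c (l 16777328) (l 29695672711)))) (l 16777360)) (l 16776712))) (a (a (l 3) (b (a (l 3) (a (a (l 200957493367) (b (l 109152568055) (l 16777152))) (l 16777384))) (a (a (l 240685941063) (b (l 171429593159) (l 16777472))) (l 16777544)))) (c (l 16777256) (c (l 16777256) (l 16776920))))))), by decide +kernel⟩

def k36_pm_102_s : ∃ t, chk3 f_pm_102_s t 122 275 1 = true :=
  ⟨(b (a (b (l 3) (a (l 3) (a (l 3) (a (l 3) (b (l 3) (l 239075328455)))))) (a (b (a (a (l 3) (b (c (l 217063621015) (l 225653555575)) (a (a (l 233706619031) (l 147270402183)) (c (l 16777096) (l 16777424))))) (a (b (a (a (b (l 105394471623) (l 16777144)) (l 16777104)) (l 16776944)) (l 16776776)) (l 16777136))) (a (a (b (a (l 3) (b (l 203641847927) (l 56539218519))) (a (a (l 136532984007) (l 16777472)) (l 16776976))) (c (l 16777448) (l 16777448))) (l 16776800))) (a (a (l 16776760) (l 16776328)) (b (l 16775624) (l 16775072))))) (a (a (l 3) (a (a (l 3) (b (l 3) (a (c (l 227264168407) (l 235854102951)) (b (l 252497101143)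 (a (l 117205631223) (l 16777440)))))) (a (a (b (l 3) (b (b (l 185925107799) (l 16777488)) (l 16776952))) (b (b (l 3) (a (l 217600491623) (l 129553662135))) (l 16777368))) (b (b (a (b (l 3) (l 172503334983)) (c (l 16777464) (l 67276636487))) (c (l 16776968) (l 16777296))) (l 16777208))))) (b (a (c (l 16777344) (c (l 16777336) (l 16777008))) (a (l 16775392) (l 16773872))) (a (a (l 16776568) (l 16776360)) (c (l 16774424) (l 16774728)))))), by decide +kernel⟩

def k37_pm_102_s : ∃ t, chk3 f_pm_102_s t 246 272 1 = true :=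
  ⟨(a (l 3) (b (b (l 3) (a (l 3) (a (a (l 3) (b (l 3) (l 231559135559))) (a (b (l 3) (b (c (l 158544691239) (l 162302787623)) (l 16777296))) (b (b (l 196662526071) (a (l 134385500279) (l 16777128))) (l 16776984)))))) (b (a (a (l 3) (b (l 3) (b (l 255718326711) (a (l 3) (c (l 75329700631) (l 140827951239)))))) (a (b (a (a (l 3) (l 189683204215)) (a (b (l 98415149767) (l 16777136)) (l 16777424))) (a (a (b (l 113447534759) (l 16777088)) (l 16777048)) (l 16776880))) (c (l 16776688) (l 16777016)))) (b (a (a (l 3) (a (b (l 216526749799) (a (l 88751473271) (l 16777144))) (l 18421383415))) (l 16776992)) (a (a (a (l 242833424727) (b (l 173577076807) (l 32380027335))) (l 16777216)) (l 16776888)))))), by decide +kernel⟩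

def k38_pm_102_s : ∃ t, chk3 f_pm_102_s t 246 273 1 = true :=
  ⟨(a (b (b (a (l 3) (a (l 3) (b (c (l 221895459271) (c (l 229411652007) (l 232632877447))) (a (b (l 3) (l 154786594887)) (c (l 16777280) (c (l 16777360) (l 49023025447))))))) (a (c (l 250886487863) (c (l 260013294599) (l 265918873271))) (a (a (b (l 3) (b (l 181630140503) (l 38822478327))) (b (b (l 227264168055) (a (l 97341407879) (l 16777160))) (l 16777336))) (c (l 16777472) (c (l 16777472) (l 16777304)))))) (a (a (b (b (l 3) (b (l 3) (a (l 3) (l 159081562199)))) (b (a (a (l 211694911591) (c (l 120426856631) (l 123111211175))) (c (l 16777064) (l 16777392))) (l 16777232))) (b (b (a (l 216526749975) (a (c (l 68350378727) (l 121500598439)) (l 16777448))) (a (c (l 16777288) (c (l 16777368) (l 53854863671))) (l 16776904))) (l 16777256))) (b (c (l 16777152) (l 16777144)) (l 16776608)))) (a (b (b (a (a (b (a (b (l 109152568071) (l 16777152)) (l 16777440)) (l 16776896)) (l 16777136)) (l 16777136)) (l 16776896)) (b (l 16776272) (c (l 16775080)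 (l 16775064)))) (b (b (l 16776480) (c (l 16775288) (l 16775936))) (b (c (l 16774744) (l 16775384)) (l 16774856))))), by decide +kernel⟩

def k39_pm_102_s : ∃ t, chk3 f_pm_102_s t 247 136 1 = true :=
  ⟨(b (b (b (a (a (b (b (a (l 3) (a (a (l 154249723959) (l 16777136)) (l 16776976))) (a (a (l 3) (c (l 166060884039) (l 171429593143))) (l 16777280))) (a (a (a (l 223506071655) (b (l 122574340903) (l 16777176))) (c (l 16777408) (l 29158801639))) (l 16777072))) (c (l 16776872) (l 16776872))) (a (a (l 16775552) (l 16775440)) (a (l 16774664) (l 16774216)))) (a (a (a (c (l 16777440) (a (l 16777224) (l 16776672))) (l 16777000)) (c (l 16775680) (l 16776336))) (a (a (l 16775344) (l 16774568)) (l 16773904)))) (b (a (a (a (l 16776896) (l 16775800)) (a (l 16775360) (l 16774920))) (a (c (l 16774256) (l 16774248)) (a (l 16773584) (c (l 16773144) (l 16774448))))) (a (a (a (l 16775704) (l 16775264)) (a (l 16774824) (l 16774376))) (a (l 16773712) (a (l 16774360) (l 16772600)))))) (a (b (b (a (a (l 16775160) (l 16774720))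 (l 16774712)) (a (a (l 16774624) (l 16774184)) (l 16774176))) (b (a (l 16773856) (a (l 16773200) (l 16774072))) (a (c (l 16773328) (l 16773304)) (l 16774408)))) (b (a (b (a (l 16773392) (l 16774264)) (a (l 16774168) (l 16772416))) (l 16772016)) (l 16773352)))), by decide +kernel⟩

def k40_pm_102_s : ∃ t, chk3 f_pm_102_s t 123 137 1 = true :=
  ⟨(b (a (b (b (a (a (a (l 16777152) (l 16776056)) (l 16776064)) (a (a (l 16774752) (l 16774312)) (l 16773656))) (a (a (l 16776392) (a (l 16775080) (l 16774640))) (a (l 16774640) (a (l 16773328) (l 16772896))))) (b (a (a (l 16775840) (l 16774976)) (a (l 16773448) (a (l 16772792) (l 16772352)))) (a (a (l 16775296) (l 16773776)) (a (a (l 16773120) (l 16772680)) (l 16772032))))) (a (b (a (b (a (l 16772992) (l 16772560)) (l 16773544)) (l 16771624)) (l 16772296)) (c (l 16770432) (l 16771048)))) (a (b (b (a (c (l 16774984) (l 16774304)) (a (a (l 16772576) (l 16772144)) (l 16771488))) (a (a (l 16773552) (a (l 16772904) (l 16772464))) (l 16772688))) (a (b (a (l 16773008)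 (a (l 16772360) (l 16771928))) (a (a (l 16772680) (l 16772248)) (l 16771600))) (l 16771880))) (c (a (l 16770696) (l 16768936)) (a (l 16769328) (l 16767568))))), by decide +kernel⟩

def k41_pm_102_s : ∃ t, chk3 f_pm_102_s t 122 138 1 = true :=
  ⟨(a (b (b (b (a (l 3) (a (a (a (b (l 3) (a (l 191293816935) (l 108078825703))) (b (a (l 241759682711) (l 154786594967)) (l 16777376))) (b (c (l 16777656) (l 15200158087)) (l 16776728))) (l 16776880))) (a (a (l 3) (a (a (l 3) (a (l 259476423127) (b (l 3) (l 177335173239)))) (b (a (l 231022264615) (a (l 140291080391) (l 16777472))) (a (a (l 94120182039) (l 16777080)) (l 16776920))))) (c (l 16777248) (c (l 16777408) (l 16777072))))) (b (a (a (b (l 3) (a (l 3) (a (l 246591521095) (a (l 160155304103) (l 55465476743))))) (a (b (a (c (l 92509570263) (l 160155304103)) (l 16777400)) (l 16777560)) (l 16777272))) (c (l 16776864) (l 16776848))) (a (a (b (a (c (l 220821717383) (l 228874781031)) (a (a (l 112910663911) (l 16777104)) (l 16776944))) (a (a (c (l 99488892151)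 (l 178408915015)) (l 16777504)) (l 16776776))) (l 16776928)) (a (l 16775424) (l 16775224))))) (a (a (b (b (c (l 16777232) (l 16777392)) (l 16776672)) (c (l 16775200) (l 16776488))) (c (b (l 16775456) (l 16775008)) (b (l 16776752) (l 16774984)))) (a (c (b (l 16775920) (l 16773512)) (b (l 16775240) (l 16773480))) (b (a (l 16774616) (l 16774848)) (l 16773464))))) (a (a (b (c (b (l 16776408) (l 16774656)) (b (l 16775736) (l 16774632))) (b (l 16773552) (a (a (l 16772768) (l 16772560)) (l 16772240)))) (b (b (b (l 16775160) (l 16773960)) (l 16773792)) (b (b (a (l 16772528) (l 16772096)) (l 16772424)) (l 16770944)))) (b (b (b (a (l 16773648) (l 16772784)) (a (l 16773096) (a (l 16772448) (l 16772024)))) (b (a (l 16773208) (l 16771688)) (a (a (l 16772216) (l 16771792)) (l 16771144)))) (b (c (l 16770776) (l 16770728)) (l 16769664))))), by decide +kernel⟩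

def k42_pm_102_s : ∃ t, chk3 f_pm_102_s t 122 139 1 = true :=
  ⟨(b (b (a (a (a (a (l 16774952) (l 16774528)) (a (l 16774104) (l 16773032))) (a (a (l 16772608) (l 16772840)) (a (a (l 16772520) (l 16772960)) (l 16772648)))) (a (l 16770272) (l 16768568))) (a (a (a (a (l 16773192) (l 16772768)) (b (l 16772416) (l 16772512))) (a (b (l 16772224) (l 16771016)) (l 16770448))) (a (l 16769176) (l 16767480)))) (b (a (a (a (b (l 16772152) (l 16772248)) (a (l 16772224) (l 16770824))) (l 16769768)) (c (l 16768232) (l 16767184))) (a (a (a (a (l 16770976) (l 16770560)) (l 16769928)) (l 16768664)) (c (l 16767464) (l 16766088))))), by decide +kernel⟩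

def k43_pm_102_s : ∃ t, chk3 f_pm_102_s t 123 69 1 = true :=
  ⟨(b (a (b (a (b (a (a (l 16772520) (l 16771432)) (l 16770784)) (l 16770128)) (c (l 16770272) (l 16768896))) (c (a (l 16769824) (l 16768104)) (c (l 16768920) (l 16768864)))) (c (b (a (l 16768536) (l 16765480)) (c (l 16765504) (l 16765496))) (b (c (l 16767616) (l 16767552)) (c (l 16765456) (l 16764056))))) (a (c (b (c (l 16766464) (l 16766784)) (c (l 16765928) (l 16765920))) (b (c (l 16766744) (l 16766672)) (a (l 16764080) (l 16762360)))) (b (a (a (l 16764616) (l 16762448)) (a (l 16761576) (l 16760712))) (a (a (l 16761144) (l 16760288)) (b (l 16759528) (l 16760416)))))), by decide +kernel⟩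

def k44_pm_102_s : ∃ t, chk3 f_pm_102_s t 240 70 1 = true :=
  ⟨(b (b (l 3) (a (l 3) (a (a (l 3) (b (l 3) (b (l 3) (b (c (l 235854102903) (l 242296553815)) (a (c (l 107005084903) (c (l 182167011383) (l 182167011383))) (c (l 16777096) (l 16777424))))))) (b (a (l 3) (a (l 3) (b (l 3) (l 256255197655)))) (a (a (b (l 3) (b (b (l 147807273159) (l 16777104)) (l 16776896))) (b (b (l 3) (b (l 222432329847) (l 66202894935))) (l 16777488))) (b (b (a (a (l 265382002807) (l 176261431463)) (b (l 74792829559) (l 16777064))) (c (l 16776952) (l 16777608))) (l 16777184))))))) (b (b (b (a (b (l 3) (b (l 3) (a (l 3) (a (l 3) (a (l 3) (l 167134625943)))))) (a (a (b (a (l 250349617431) (b (l 188609462375) (l 16777472))) (a (a (b (l 107541955191) (l 16777112)) (l 16777088)) (l 16776936))) (c (l 16776776) (l 16777424))) (l 16777152))) (a (a (l 3) (b (a (l 275045679575) (a (b (l 222432329847) (l 65666024023)) (l 16777384))) (a (a (a (l 3) (l 208473686167)) (b (l 146196660423) (l 16777104))) (l 16776872)))) (c (l 16777328)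 (c (l 16777312) (l 16776976))))) (a (a (b (a (c (l 259476423271) (l 267529486887)) (a (b (l 3) (b (l 181093269623) (l 16777464))) (b (c (l 175724560487) (c (l 177872044103) (l 178945785911))) (l 16777008)))) (b (a (a (b (l 3) (l 159618433143)) (c (l 16777128) (c (l 16777448) (l 32916898103)))) (l 16776824)) (c (l 16777408) (l 16777392)))) (b (c (l 16777640) (c (l 16777304) (c (l 16777296) (l 16777376)))) (l 16777072))) (c (l 16776504) (l 16776784)))) (b (c (a (l 16777144) (l 16775408)) (a (c (l 16776944) (c (l 16776936) (l 16776768))) (c (l 16775344) (l 16775320)))) (c (a (l 16775888) (l 16774328)) (a (l 16775816) (c (l 16774240) (l 16774192))))))), by decide +kernel⟩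

def k45_pm_102_s : ∃ t, chk3 f_pm_102_s t 241 70 1 = true :=
  ⟨(b (b (b (a (l 3) (b (a (l 3) (b (a (l 3) (a (l 262697648455) (a (l 180556398727) (l 101099503895)))) (a (c (l 229411651959) (l 235854102871)) (a (a (l 121500598519) (l 16777112)) (l 16776960))))) (a (a (l 3) (b (l 3) (a (l 249812746535) (a (l 165524013207) (l 61371056775))))) (a (b (a (c (l 104320730343) (l 176798302295)) (l 16777416)) (l 16777568)) (l 16777296))))) (b (a (l 3) (a (b (a (c (l 221358588247) (l 226727297335)) (a (a (l 104857600295) (l 16777096)) (l 16776936))) (a (a (a (l 206326202503) (l 125258694903)) (l 16777392)) (l 16776760))) (l 16777016))) (a (a (l 3) (b (a (l 3) (a (l 233706619143) (a (l 145122918599) (l 16777472)))) (a (a (l 3) (a (l 250349617287) (l 166060884119))) (c (l 16777016) (c (l 16777672) (l 16777344)))))) (c (l 16777448) (c (l 16777440) (l 16777104)))))) (b (a (b (a (b (l 270750712551) (a (l 3) (a (a (l 3) (l 204178718855)) (b (l 89825214567) (l 16777096))))) (a (b (a (b (l 211158040679) (l 16777504))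 (l 16777368)) (l 16776856)) (l 16777248))) (a (a (a (b (l 3) (b (l 183777624167) (l 16777144))) (b (c (l 175187689559) (l 175187689559)) (l 16777008))) (c (l 16777504) (c (l 16777496) (l 16777496)))) (l 16777216))) (c (l 16776608) (l 16776752))) (a (a (a (b (l 16777344) (l 16776120)) (l 16776976)) (l 16776696)) (a (l 16775880) (a (l 16773952) (l 16774856)))))) (b (b (a (a (l 16776384) (l 16775576)) (a (a (l 16773656) (l 16773248)) (l 16773944))) (a (a (l 16775272) (a (l 16773352) (l 16772952))) (a (l 16773656) (l 16771536)))) (a (c (b (l 16773824) (l 16773392)) (b (l 16773720) (c (l 16772616) (l 16772896)))) (a (b (l 16772552) (l 16772456)) (b (a (l 16773256) (l 16770240)) (l 16769328)))))), by decide +kernel⟩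

def k46_pm_102_s : ∃ t, chk3 f_pm_102_s t 121 70 1 = true :=
  ⟨(a (a (b (b (a (b (b (c (l 16777240) (l 16777320)) (l 16776672)) (l 16776488)) (b (c (l 16775472) (l 16776784)) (c (l 16774352) (l 16774344)))) (c (b (c (l 16774984) (l 16774952)) (l 16773864)) (b (c (l 16774952) (l 16774936)) (l 16773816)))) (a (b (b (l 16771816) (a (l 16773536) (l 16773136))) (l 16769056)) (b (b (a (l 16771192) (l 16772104)) (l 16769904)) (l 16768224)))) (b (a (b (b (c (l 16774648) (l 16774640)) (c (l 16773528) (l 16773520))) (b (l 16773712) (a (l 16771488) (l 16772392)))) (b (b (a (l 16775336) (l 16774920)) (l 16774008)) (c (b (l 16771584) (l 16770520)) (b (l 16771568) (l 16770448))))) (b (a (b (l 16772808) (l 16769064)) (l 16768784)) (l 16769600)))) (b (b (b (a (c (l 16773888) (l 16773544)) (a (a (l 16772520) (l 16772104)) (l 16770496))) (a (a (l 16773184) (a (l 16772232) (l 16772144))) (l 16769800))) (b (a (a (a (l 16772272) (l 16770552)) (l 16769928)) (l 16768688)) (c (l 16768424) (l 16768376)))) (b (c (c (l 16769448)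 (l 16766728)) (l 16768016)) (a (l 16767928) (l 16766296))))), by decide +kernel⟩

def k47_pm_102_s : ∃ t, chk3 f_pm_102_s t 60 71 1 = true :=
  ⟨(a (b (a (b (a (c (b (c (l 16774848) (l 16774776)) (l 16773096)) (b (c (l 16774720) (l 16774344)) (c (l 16772312) (l 16773560)))) (a (b (l 16772912) (l 16771184)) (b (l 16771472) (a (l 16771896) (l 16771512))))) (b (b (a (l 16771552) (a (l 16770376) (l 16769584))) (a (c (l 16773760) (l 16770904)) (l 16770272))) (a (b (a (l 16770880) (a (l 16770296) (l 16769912))) (a (c (l 16773104) (l 16770208)) (a (l 16769752) (l 16769336)))) (l 16768592)))) (a (b (b (a (c (l 16770768) (l 16771896)) (l 16771192)) (l 16770824)) (l 16769464)) (b (l 16770696) (l 16767160)))) (a (b (b (a (a (c (l 16772200) (l 16770616)) (l 16768600)) (l 16767368)) (l 16768240)) (c (l 16766488) (l 16765032))) (c (b (l 16764432) (l 16763256)) (b (l 16764168) (l 16761872))))) (a (b (c (b (l 16767016) (l 16764816)) (b (l 16765496) (l 16763248))) (c (b (l 16761136) (l 16758720)) (b (l 16760968) (l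 16758696)))) (b (c (b (l 16764992) (l 16762792)) (a (l 16764560) (l 16762928))) (c (c (l 16759328) (l 16759296)) (b (l 16757752) (l 16755496)))))), by decide +kernel⟩

def k48_pm_102_s : ∃ t, chk3 f_pm_102_s t 61 35 1 = true :=
  ⟨(a (b (a (b (c (a (b (l 16768696) (l 16766472)) (b (l 16767024) (l 16764816))) (b (c (l 16769152) (l 16769096)) (l 16766912))) (c (b (c (l 16763472) (l 16763432)) (l 16763832)) (a (l 16765736) (l 16764072)))) (b (c (b (c (l 16765816) (l 16765816)) (c (l 16762304) (l 16762312))) (b (l 16765752) (l 16763552))) (a (c (l 16761808) (l 16762400)) (b (l 16761896) (l 16759704))))) (b (a (c (b (l 16761632) (l 16756808)) (c (l 16760496) (l 16760424))) (b (c (l 16758344) (l 16756952)) (a (l 16756952) (a (l 16755720) (l 16752272))))) (b (a (c (l 16754560) (l 16754504)) (c (l 16755576) (l 16752568))) (a (a (l 16753160) (a (l 16751952) (l 16751144))) (l 16751712))))) (b (b (b (a (c (c (l 16761128) (l 16761128)) (l 16762344)) (a (a (l 16758976) (l 16758120)) (c (l 16759472) (c (l 16756800)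 (l 16755376))))) (a (c (l 16761576) (l 16761472)) (a (a (l 16758784) (l 16758584)) (l 16759920)))) (b (a (a (l 16760216) (a (l 16756336) (l 16758112))) (c (l 16758696) (l 16753320))) (a (a (a (l 16755832) (l 16757616)) (l 16756360)) (l 16755832)))) (a (b (b (a (l 16756336) (l 16751544)) (l 16754152)) (b (l 16753352) (l 16751208))) (b (c (l 16751016) (l 16747984)) (c (l 16744272) (l 16743736)))))), by decide +kernel⟩

def k49_pm_102_s : ∃ t, chk3 f_pm_102_s t 31 34 1 = true :=
  ⟨(a (a (a (a (b (b (b (a (b (b (a (l 16773776) (c (l 16774640) (l 16773984))) (a (a (l 16773344) (l 16773120)) (l 16772792))) (l 16773512)) (b (l 16774112) (l 16771312))) (b (l 16771992) (l 16770920))) (c (b (l 16769320) (l 16765864)) (b (l 16767960) (l 16765792)))) (b (c (b (l 16763720) (l 16761576)) (a (l 16764304) (l 16763424))) (c (b (l 16762056) (l 16759888)) (b (a (l 16759752) (l 16758880)) (l 16757184))))) (b (b (b (b (l 14) (l 16771280)) (b (l 16770208) (l 16769136))) (c (b (l 16766232) (l 16764096)) (b (l 16766176)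 (l 16764016)))) (b (c (b (l 16761960) (l 16762440)) (b (l 16761856) (a (l 16760144) (l 16759280)))) (b (a (l 16760720) (l 16757224)) (l 16760760))))) (b (a (b (b (l 14) (c (l 16766584) (l 16766528))) (a (b (l 16765864) (l 16765360)) (b (l 16764968) (b (l 16762384) (l 16761312))))) (b (l 14) (b (a (a (l 16763312) (l 14)) (l 14)) (c (l 16764168) (l 16761776))))) (b (a (b (a (a (l 16762792) (l 16762352)) (l 16762344)) (l 16760656)) (c (l 16760112) (l 16757312))) (c (a (l 16760288) (l 16754728)) (l 16756592))))) (b (b (l 14) (a (b (l 14) (a (c (l 16758888) (l 16758720)) (l 14))) (l 14))) (a (c (b (c (a (l 16758560) (l 16754288)) (b (l 16755904) (l 16759096))) (b (l 16753912) (l 16749920))) (b (c (l 16757344) (l 16754640)) (c (l 16750552) (l 16750416)))) (a (b (c (l 16752432) (l 16754592)) (c (l 16748384) (l 16753032))) (b (l 14) (c (l 16746648) (l 16745968))))))) (a (b (l 14) (a (b (l 14) (c (a (l 16744896) (l 14)) (l 16745816))) (l 14))) (l 14))), by decide +kernel⟩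

def k50_pm_102_s : ∃ t, chk3 f_pm_102_s t 31 35 1 = true :=
  ⟨(b (a (c (a (a (b (a (l 16759400) (l 16752584)) (c (l 16749480) (l 16749192))) (a (b (l 16750984) (l 16746944)) (b (l 16754608) (l 16745320)))) (a (b (c (l 16747096) (l 16746696)) (l 16742848)) (b (l 16743488) (l 16739472)))) (a (b (a (l 16755768) (l 16755008)) (a (l 16748928) (l 16745568))) (b (a (l 16748912) (l 16745344)) (a (c (l 16742264) (l 16747248)) (l 16738576))))) (b (a (a (c (l 16739992) (l 16739056)) (a (c (l 16737296) (l 16736248)) (l 14))) (l 14)) (a (c (a (a (l 16736872) (l 16735104)) (c (l 16732800) (l 16732056))) (a (l 16737560) (l 16733824))) (a (c (c (l 16729160) (l 16728328)) (l 16727360)) (l 14))))) (c (b (a (a (a (a (l 16751320) (l 16744512)) (l 16742112)) (a (l 16738832) (l 16735464))) (a (a (a (l 16732880) (l 16731120)) (l 16728448)) (a (l 16724800) (c (l 16721552) (l 16720568))))) (a (a (a (l 16741192) (l 16738032)) (a (l 16734776) (l 16731432))) (a (a (l 16728000) (l 16724488)) (a (l 16720872) (l 16717152)))))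 (a (a (b (a (l 16744728) (l 16741392)) (a (l 16740504) (l 16747680))) (b (a (l 16737960) (l 16734440)) (a (l 16733792) (l 16730304)))) (a (a (b (l 16733448) (l 16726728)) (b (l 16727128) (l 16723056))) (a (b (l 16723312) (l 16719280)) (b (l 16719384) (l 16715384))))))), by decide +kernel⟩

def k51_pm_102_s : ∃ t, chk3 f_pm_102_s t 56 36 1 = true :=
  ⟨(l 3), by decide +kernel⟩

def k52_pm_102_s : ∃ t, chk3 f_pm_102_s t 57 72 1 = true :=
  ⟨(l 3), by decide +kernel⟩

def k53_pm_102_s : ∃ t, chk3 f_pm_102_s t 114 73 1 = true :=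
  ⟨(b (l 3) (a (l 3) (a (l 3) (b (l 3) (b (l 3) (b (b (l 3) (a (l 3) (a (l 3) (a (c (c (l 209010557063) (l 209010557063)) (l 140827952375)) (b (c (l 97341407847) (l 16777216)) (l 16777072)))))) (a (b (l 3) (a (l 3) (b (l 254644584695) (a (l 172503335895) (l 16777488))))) (a (b (b (c (l 225653555399) (l 229411651719)) (a (c (l 142975435591) (l 143512306503)) (l 16777120))) (c (l 16777296) (l 16776968))) (c (l 16777088) (l 16776752)))))))))), by decide +kernel⟩

def k54_pm_102_s : ∃ t, chk3 f_pm_102_s t 115 146 1 = true :=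
  ⟨(a (l 3) (b (l 3) (b (a (l 3) (a (l 3) (b (l 3) (a (b (l 3) (b (l 299204870471) (a (l 3) (a (l 144049177223) (l 16777512))))) (a (b (l 279340646663) (b (a (l 117742502407) (l 16777152)) (l 16777040))) (b (b (l 241222811751) (c (l 83919634679) (l 16777168))) (l 16776936))))))) (a (b (l 3) (b (l 3) (a (l 3) (a (l 3) (a (a (l 285783097575) (b (l 3) (l 101636375031))) (b (a (l 162839659207) (l 16777448)) (l 16777088))))))) (b (a (a (c (l 287393710007) (l 291151806999)) (a (b (l 3) (b (l 233169748055) (c (l 16777488) (l 16777160)))) (b (c (c (l 232632877255) (l 239075328071)) (l 238001586263)) (c (l 16777384) (l 16777056))))) (b (a (b (a (a (l 171429593815) (l 88751473127)) (l 16777072)) (l 16777336)) (l 16776712)) (c (l 16777240) (l 16776576)))) (a (b (a (a (b (l 299741741127) (a (l 133848629879) (l 16777504))) (b (a (l 149954756791) (l 16777144)) (l 16777032))) (l 16777160)) (a (l 16777216) (l 16776512))) (l 16776768))))))), by decide +kernel⟩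

def k55_pm_102_s : ∃ t, chk3 f_pm_102_s t 115 294 1 = true :=
  ⟨(b (a (b (l 3) (b (l 3) (a (l 3) (a (l 3) (a (l 3) (a (l 3) (a (l 3) (l 235854102647)))))))) (a (b (a (a (l 3) (a (l 3) (b (l 3) (b (l 277193162855) (a (l 118279373319) (l 16777160)))))) (a (a (b (l 260550164727) (a (b (l 94120182247) (l 16777064)) (l 16777048))) (b (b (a (l 3) (l 126869308007)) (c (l 16777472) (l 16777144))) (l 16776904))) (c (c (l 16777280) (l 16777440)) (l 16777440)))) (a (a (a (b (l 3) (b (a (l 178408915751) (l 108078825975)) (l 16777456))) (b (b (l 3) (a (l 168745239255) (l 84456505831))) (l 16777344))) (a (b (b (a (l 142438564487) (l 16777512)) (l 16777072)) (l 16776832)) (l 16777128))) (c (l 16776992) (l 16776984)))) (a (b (a (l 16777064) (l 16776696)) (l 16776248)) (a (l 16776328) (l 16775792))))) (a (a (l 3) (a (b (l 3) (b (a (l 3) (a (c (c (l 227264168119) (l 234243489847)) (l 230485393527)) (b (a (l 168745239255) (l 84456505831)) (l 16777096)))) (a (a (l 260550164727) (b (a (l 3) (l 129553662583)) (l 16777480)))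 (c (l 16777280) (l 16776952))))) (b (b (a (l 289004323207) (a (b (l 251423359079) (c (l 86603989255) (l 16777176))) (c (l 16777400) (l 16777072)))) (a (a (b (l 3) (a (l 143512306311) (l 16777512))) (b (a (l 119889986071) (l 16777160)) (l 16777048))) (l 16777176))) (c (c (l 16777208) (l 16777208)) (l 16777200))))) (a (a (b (c (l 16776936) (l 16777096)) (l 16776464)) (c (l 16776368) (l 16776680))) (c (c (b (l 16775408) (l 16774616)) (a (l 16775952) (l 16774552))) (c (l 16775240) (l 16775544)))))), by decide +kernel⟩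

def k56_pm_102_s : ∃ t, chk3 f_pm_102_s t 115 295 1 = true :=
  ⟨(a (b (a (a (b (l 3) (a (c (l 284709356103) (l 289541194263)) (a (b (l 3) (b (c (l 160692175799) (l 161765917607)) (l 16777448))) (b (c (l 236390973639) (l 164450272567)) (c (l 16777384) (l 16777056)))))) (b (a (b (l 3) (a (l 3) (b (l 3) (a (l 162839659207) (l 16777368))))) (a (b (l 295446774071) (b (a (l 136532984439) (l 16777176)) (l 16777064))) (b (b (l 275045679207) (c (l 76940313127) (l 16777200))) (l 16776960)))) (b (a (b (a (a (l 175724561127) (l 97878278647)) (l 16777088)) (l 16777344)) (l 16776728)) (c (l 16777248) (l 16776584))))) (b (a (a (c (c (c (b (l 16777496) (l 16776680)) (l 16777336)) (l 16777496)) (l 16777496)) (l 16777120)) (l 16776568)) (c (l 16776544) (l 16776936)))) (a (b (b (a (a (a (b (l 289004322887) (c (l 81772151351) (l 16777208))) (a (b (l 100562633207) (l 16777072)) (l 16777056))) (l 16777152)) (l 16776920)) (c (c (l 16776888) (l 16776968)) (l 16776968))) (a (a (l 16777040) (l 16776672)) (l 16776112))) (a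 (b (l 16776016) (a (l 16775560) (l 16774864))) (c (b (l 16775280) (l 16774640)) (l 16775600))))) (c (b (b (a (a (l 16775168) (l 16775088)) (c (l 16774632) (l 16773976))) (a (a (l 16775184) (l 16774448)) (l 16773344))) (a (c (a (l 16774224) (l 16772832)) (a (l 16774224) (l 16772832))) (l 16773040))) (a (a (b (l 16774832) (l 16774200)) (b (l 16775400) (l 16773128))) (a (b (l 16773992) (l 16772056)) (b (l 16772920) (l 16771320)))))), by decide +kernel⟩

def k57_pm_102_s : ∃ t, chk3 f_pm_102_s t 112 74 1 = true :=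
  ⟨(l 3), by decide +kernel⟩

def k58_pm_102_s : ∃ t, chk3 f_pm_102_s t 113 148 1 = true :=
  ⟨(a (l 3) (a (l 3) (a (l 3) (a (l 3) (b (l 3) (b (l 3) (b (l 3) (b (l 290078065047) (a (c (l 185388236999) (l 183240753415)) (l 16777456)))))))))), by decide +kernel⟩

def k59_pm_102_s : ∃ t, chk3 f_pm_102_s t 113 298 1 = true :=
  ⟨(b (a (l 3) (b (a (l 3) (b (a (l 3) (a (a (c (l 210084298887) (l 207936815319)) (l 57076089559)) (l 16776888))) (a (b (l 251423359367) (a (l 3) (l 75329700711))) (l 16777384)))) (a (a (l 3) (a (l 3) (a (l 282561872327) (b (l 3) (l 99488891879))))) (b (a (a (a (l 170892723559) (l 113984405991)) (l 16776952)) (l 16776392)) (a (l 16777448) (l 16776712)))))) (a (a (l 3) (a (l 3) (a (l 3) (b (l 3) (l 257865810391))))) (a (b (b (a (l 3) (a (a (l 298131128615) (l 112910664727)) (l 16777664))) (a (c (l 240149070279) (l 243907166615)) (l 16777592))) (b (a (a (c (l 231022264455) (l 156934080007)) (l 16777720)) (l 16776512)) (a (a (l 16777584) (l 16776728)) (l 16776832)))) (a (c (c (b (l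 16776960) (l 16776304)) (l 16776280)) (l 16775952)) (c (c (b (l 16776240) (l 16774928)) (l 16775872)) (l 16776520)))))), by decide +kernel⟩

def k60_pm_102_s : ∃ t, chk3 f_pm_102_s t 113 299 1 = true :=
  ⟨(b (a (a (c (l 297594259079) (l 304573580791)) (b (a (l 281488130791) (b (a (l 251960230199) (l 65129153063)) (a (l 77477184007) (l 16776776)))) (b (a (a (l 276656292199) (l 64055411751)) (l 16777280)) (a (a (l 72108475463) (l 16776824)) (l 16776608))))) (b (c (a (c (a (l 16776752) (l 16776368)) (l 16776368)) (c (l 16775128) (l 16775240))) (a (l 16776032) (l 16775880))) (a (c (c (c (l 16776072) (l 16776056)) (l 16776032)) (l 16775352)) (c (c (l 16773984) (l 16773920)) (l 16774544))))) (b (a (a (a (l 3) (a (b (l 3) (l 86603990215)) (b (l 79624668279) (l 16776872)))) (c (c (a (l 16776520) (l 16775816)) (l 16776480)) (l 16776136))) (c (a (a (l 16775416) (l 16774376)) (l 16773952)) (a (l 16775984) (l 16774520)))) (a (a (b (a (a (l 3) (l 93583312087)) (l 16777040)) (a (a (l 99488891479) (l 16776912))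 (l 16776704))) (c (c (c (l 16776184) (l 16776160)) (l 16776136)) (l 16775456))) (c (a (c (l 16774112) (l 16774048)) (l 16773960)) (a (l 16775304) (l 16772536)))))), by decide +kernel⟩

def k61_pm_102_s : ∃ t, chk3 f_pm_102_s t 114 296 1 = true :=
  ⟨(b (a (l 3) (b (b (a (l 3) (a (a (a (l 3) (a (l 222432329863) (b (l 176261432039) (l 16777160)))) (c (c (l 16777504) (l 16777664)) (l 16777664))) (l 16777112))) (a (a (l 3) (a (l 3) (a (l 3) (a (l 262697648247) (b (l 3) (l 16777208)))))) (a (b (a (a (a (l 139217339015) (l 16777184)) (l 16777040)) (l 16776768)) (l 16777112)) (l 16776784)))) (a (a (c (c (l 284172485431) (l 286319969047)) (l 289541194455)) (a (b (c (l 248739004727) (l 251960230167)) (b (a (l 151028499367) (l 16777128)) (l 16777384))) (a (b (b (a (l 174113948391) (l 16777544)) (l 16777112)) (l 16776864)) (l 16777336)))) (a (c (l 16777032) (l 16776376)) (l 16776288))))) (a (a (l 3) (a (l 3) (b (l 3) (b (a (l 3) (a (l 215989878983) (b (l 109689438935) (l 16777088)))) (a (a (a (l 3) (l 234243489911))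 (a (l 148881015063) (l 55465476743))) (l 16777592)))))) (a (a (b (a (b (l 291688677783) (a (b (l 3) (l 96267666071)) (c (l 64055411015) (l 16777128)))) (a (b (b (l 174650819559) (l 16777520)) (l 16776944)) (c (l 16777416) (l 16776928)))) (c (l 16777032) (l 16776544))) (c (b (l 16776792) (l 16776456)) (l 16776784))) (b (a (l 16776376) (c (l 16775472) (l 16774976))) (c (c (a (l 16775712) (l 16774320)) (l 16775352)) (l 16776000)))))), by decide +kernel⟩

def k62_pm_102_s : ∃ t, chk3 f_pm_102_s t 115 296 1 = true :=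
  ⟨(a (c (b (b (a (a (l 16775552) (l 16775464)) (c (l 16774280) (l 16774360))) (a (a (l 16775552) (l 16774656)) (c (l 16773056) (l 16773056)))) (b (a (c (c (l 16774528) (l 16774528)) (l 16774536)) (l 16772408)) (a (a (l 16774248) (l 16772856)) (l 16771760)))) (b (a (c (l 16775832) (l 16776144)) (a (l 16774384) (l 16773648))) (a (a (l 16774560) (l 16773824)) (c (l 16773384) (l 16772048))))) (a (b (c (l 16772568) (c (l 16771896) (l 16771864))) (c (l 16771280) (l 16770592))) (c (b (l 16771768) (l 16770480)) (c (l 16771096) (l 16769736))))), by decide +kernel⟩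

def k63_pm_102_s : ∃ t, chk3 f_pm_102_s t 57 594 1 = true :=
  ⟨(a (a (a (a (l 3) (b (l 3) (b (c (a (l 3) (l 221895459063)) (l 250349617575)) (a (c (l 239075328295) (l 248202133607)) (a (a (l 86603989735) (l 16777456)) (l 16776992)))))) (a (b (b (b (l 274508808663) (a (l 3) (a (l 173040206807) (l 16777168)))) (a (a (l 300278612279) (a (l 216526749879) (l 132774887767))) (c (l 16777336) (l 16777008)))) (a (b (c (l 36674994663) (l 16777048)) (l 16776712)) (l 16777168))) (a (b (b (l 16777464) (l 16776640)) (l 16776792)) (b (l 16777088) (l 16776424))))) (a (a (c (c (b (l 16775880) (l 16775864)) (l 16776208)) (l 16776856)) (c (c (b (l 16775792) (l 16775128)) (l 16775384)) (l 16776120))) (a (c (c (c (l 16774720) (l 16774728)) (l 16774648)) (l 16774728)) (c (c (l 16773328) (l 16774000)) (l 16773984))))) (a (c (c (a (l 16772888) (l 16772080)) (a (l 16772240) (l 16770784))) (a (c (l 16772896) (l 16773528)) (l 16772072))) (c (a (l 16770632) (l 16769184)) (c (l 16769896) (l 16768544))))), by decide +kernel⟩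

def k64_pm_102_s : ∃ t, chk3 f_pm_102_s t 57 595 1 = true :=
  ⟨(a (a (a (a (a (b (l 283098743351) (b (b (c (l 107005084023) (l 16777720)) (l 16777432)) (l 16776848))) (b (b (l 256792068423) (a (c (l 134922371415) (l 16777376)) (l 16777064))) (l 16777304))) (b (b (a (a (a (l 148344144151) (l 16777496)) (l 16777024)) (l 16776752)) (l 16777256)) (c (l 16776752) (l 16776096)))) (b (c (c (a (l 16776032) (l 16775952)) (l 16776312)) (l 16776968)) (c (c (a (l 16775704) (l 16775296)) (c (l 16775640) (l 16776296))) (l 16776296)))) (c (a (b (a (a (l 16775384) (l 16775016)) (l 16774304)) (c (l 16774192) (l 16774176))) (b (l 16773368) (l 16772704))) (c (a (b (l 16775496) (l 16774832)) (l 16773040)) (a (l 16775152) (l 16773024))))) (a (a (c (c (l 16771560) (l 16770928)) (l 16771576)) (c (c (l 16770760) (l 16769472)) (l 16769456))) (a (c (l 16768672) (l 16768000)) (a (a (l 16767120) (b (l 16767088) (l 16767096))) (b (a (l 16766728) (l 16767016)) (l 16766792)))))), by decide +kernel⟩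

def k65_pm_102_s : ∃ t, chk3 f_pm_102_s t 57 149 1 = true :=
  ⟨(a (a (b (c (a (a (b (c (b (l 16776832) (l 16776176)) (l 16776312)) (c (c (l 16774552) (l 16775176)) (l 16775136))) (c (b (b (l 16776104) (l 16774792)) (l 16773808)) (b (l 16775736) (l 16774400)))) (a (b (c (c (l 16775056) (l 16775024)) (l 16775008)) (l 16773696)) (b (c (l 16773648) (l 16774272)) (l 16773608)))) (a (a (b (l 16776480) (l 16775128)) (b (l 16776400) (l 16774392))) (a (b (l 16775008) (l 16773664)) (b (l 16774272) (l 16773592))))) (b (c (c (a (l 16773528) (l 16772072)) (a (l 16772792) (l 16771312))) (a (c (l 16774072) (l 16772760)) (l 16772608))) (c (c (a (l 16772240) (l 16771448)) (a (l 16771480) (l 16770008))) (c (l 16771992) (l 16771992))))) (a (b (b (c (c (l 16773208) (l 16773832)) (c (l 16773832) (l 16773824))) (c (c (l 16771896) (l 16771184)) (l 16772496))) (c (b (a (l 16770256) (l 16769520)) (l 16769256)) (l 16770496))) (b (c (c (b (l 16771728) (l 16771080)) (a (l 16772072) (l 16771352))) (b (l 16772368) (l 16769736)))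 (c (b (l 16769720) (l 16768432)) (l 16769056))))) (a (a (b (c (c (b (l 16770912) (l 16769608)) (l 16769936)) (l 16770256)) (a (b (l 16768648) (b (l 16766344) (a (l 16767168) (l 16768120)))) (c (b (l 16767912) (c (l 16766736) (l 16767896))) (b (l 16766616) (l 16765288))))) (b (a (b (l 16769840) (l 16768536)) (b (l 16769120) (a (l 16767992) (b (l 16766648) (l 16767312))))) (b (b (a (a (l 16766416) (l 16767368)) (l 16766824)) (c (l 16767160) (l 16765208))) (l 16766832)))) (a (b (b (a (l 16768400) (b (l 16768008) (c (l 16767336) (l 16766024)))) (a (b (a (l 16767608) (l 16767240)) (l 16768072)) (l 16765064))) (c (l 16766128) (l 16763440))) (b (b (c (c (l 16767208) (l 16767896)) (c (l 16767896) (l 16764912))) (l 16766600)) (l 16764624))))), by decide +kernel⟩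

def k66_pm_102_s : ∃ t, chk3 f_pm_102_s t 112 150 1 = true :=
  ⟨(b (a (l 3) (a (b (l 3) (a (a (l 258939552519) (b (l 3) (c (l 79087797783) (l 16777528)))) (b (a (l 228874781031) (a (l 96804537815) (l 16777752))) (l 16778000)))) (b (a (b (l 3) (a (l 219211104583) (c (l 95193924135) (l 16777480)))) (b (a (l 209547428119) (b (l 106468214023) (l 16776952))) (c (l 16777208) (l 16776616)))) (c (a (a (l 16777168) (l 16776496)) (b (l 16776632) (l 16775320))) (l 16777264))))) (b (a (a (l 3) (b (b (l 261087036199) (a (l 3) (l 120963728007))) (a (a (l 250349617591) (l 125258695303)) (l 16778048)))) (c (a (a (l 16777704) (l 16777024)) (c (c (l 16775384) (l 16775360)) (l 16775320))) (a (l 16777328) (l 16775912)))) (a (a (b (b (l 268066358087) (a (l 3) (l 94120183575))) (a (a (l 257865810391) (l 96267667239)) (l 16776768))) (c (l 16777416) (l 16777376))) (a (c (c (l 16775768) (l 16774736)) (l 16774672)) (c (c (l 16773440) (l 16773368)) (l 16774576)))))), by decide +kernel⟩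

def k67_pm_102_s : ∃ t, chk3 f_pm_102_s t 113 150 1 = true :=
  ⟨(b (b (a (b (c (a (a (a (l 16777432) (l 16776424)) (l 16776224)) (c (l 16774864) (l 16776128))) (a (l 16776216) (l 16776080))) (c (a (a (a (l 16776112) (l 16775768)) (l 16775568)) (l 16774680)) (a (l 16776848) (l 16775400)))) (c (c (a (l 16773800) (l 16772392)) (a (l 16773064) (l 16771624))) (a (c (l 16774304) (l 16772976)) (l 16772832)))) (a (b (a (c (a (l 16775936) (l 16774592)) (l 16776168)) (c (l 16773536) (l 16773416))) (c (a (c (l 16774312) (l 16774256)) (l 16772896)) (a (l 16775496) (l 16772744)))) (a (c (l 16772464) (l 16772944)) (c (l 16771056) (l 16770176))))) (b (a (c (a (c (l 16773360) (l 16773280)) (c (l 16772640) (l 16771880))) (a (c (l 16773208) (l 16773152)) (l 16772408))) (c (a (l 16771192) (l 16769784)) (l 16770904))) (a (a (c (l 16772040) (l 16773168)) (c (l 16771312) (l 16770432))) (c (a (l 16769928) (l 16767880)) (l 16769600))))), by decide +kernel⟩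

def k68_pm_102_s : ∃ t, chk3 f_pm_102_s t 57 150 1 = true :=
  ⟨(a (a (b (a (c (c (b (l 16771624) (l 16769056)) (l 16770848)) (l 16770688)) (c (b (l 16769448) (l 16768840)) (l 16770552))) (b (c (a (l 16769024) (a (l 16766640) (a (l 16767400) (l 16767704)))) (a (l 16767408) (l 16767880))) (a (a (l 16769264) (b (l 16766240) (l 16768216))) (a (b (a (l 16765688) (l 16767960)) (l 16767560)) (l 16767192))))) (b (b (a (c (l 16768640) (l 16767168)) (a (b (l 16766432) (l 16767720)) (b (a (l 16765896) (l 16766848)) (l 16767664)))) (b (a (c (l 16767352) (l 16766160)) (c (l 16766312) (l 16764736))) (a (a (l 16768568) (l 16767200)) (l 16766824)))) (b (a (c (c (a (l 16767328) (l 16764672)) (l 16766136)) (l 16765872)) (l 16765968)) (c (l 16764424) (l 16762688))))) (b (a (a (b (l 16766608) (l 16765752)) (a (l 16765312) (l 16764624))) (c (l 16763128) (l 16760104))) (c (a (c (l 16762424) (l 16760856)) (l 16760888)) (a (l 16763160) (l 16757784))))), by decide +kernel⟩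

def k69_pm_102_s : ∃ t, chk3 f_pm_102_s t 28 151 1 = true :=
  ⟨(b (a (b (a (a (c (a (l 16777448) (l 16776120)) (a (l 16777408) (l 16774728))) (a (c (a (l 16773808) (l 16773136)) (l 16773344)) (c (l 16773440) (l 16771944)))) (a (a (c (l 16770768) (l 16770544)) (a (l 16770920) (l 16770224))) (c (a (l 16768024) (l 16767120)) (l 16768304)))) (a (a (c (a (l 16774856) (l 16774848)) (l 16776704)) (a (c (l 16773520) (l 16772024)) (c (l 16770872) (l 16770640)))) (a (c (c (l 16769584) (l 16768760)) (l 16769864)) (a (c (l 16766792) (l 16766432)) (a (b (l 16765864) (l 16767872)) (c (l 16767744) (l 16764712))))))) (a (a (a (b (a (b (l 16768304) (l 16767720)) (c (l 16767584) (l 16764560))) (l 16767192)) (b (l 16764400) (l 16765904))) (c (a (l 16765400) (l 16760800)) (l 16760968))) (a (a (a (l 16760832) (l 16758840)) (l 16761752)) (a (l 16761696) (l 16755088))))) (a (a (a (a (b (l 16774824) (l 16773536)) (c (c (l 16773016) (l 16774208)) (l 16774064))) (a (c (c (l 16770400) (l 16770264)) (l 16771392)) (c (l 16770312)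 (l 16771328)))) (b (a (a (l 16770736) (l 16768048)) (b (a (a (l 16766016) (l 16767936)) (l 16766992)) (a (c (l 16767920) (l 16764888)) (l 16763800)))) (a (a (l 16766864) (a (l 16768448) (a (l 16767952) (l 16767640)))) (a (c (l 16767104) (l 16764040)) (l 16766248))))) (a (a (c (a (l 16762520) (l 16761256)) (l 16761360)) (c (c (l 16759480) (l 16759152)) (l 16762648))) (a (c (l 16757968) (l 16761256)) (c (l 16755256) (l 16753280)))))), by decide +kernel⟩

def k70_pm_102_s : ∃ t, chk3 f_pm_102_s t 58 144 1 = true :=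
  ⟨(a (l 3) (b (a (l 3) (b (b (l 3) (a (l 3) (a (l 3) (a (c (l 270213841463) (l 275582550519)) (a (b (l 3) (a (l 159618433223) (l 16777488))) (b (c (l 197199396967) (l 196662526055)) (l 16777008))))))) (a (b (l 3) (b (l 3) (a (l 3) (a (l 3) (l 243907166503))))) (b (a (a (l 3) (b (l 3) (a (l 240149069991) (a (l 142975434999) (l 16777464))))) (b (a (a (c (l 184851366023) (l 182703882391)) (l 16777424)) (l 16776808)) (l 16777352))) (a (a (b (a (l 3) (c (l 168745238743) (l 167134626007))) (a (c (l 100562633015) (l 93046440327)) (l 16776968))) (c (l 16777488) (l 16777488))) (l 16776904)))))) (a (b (l 3) (a (l 3) (a (b (l 3) (b (l 3) (a (l 3) (a (l 280951259415) (b (l 238538457175) (l 16777176)))))) (a (b (l 3) (b (a (a (l 174650819943) (l 211694911607)) (b (l 108615697143) (l 16777088))) (l 16777616))) (b (b (l 259476422999) (a (c (l 172503335143) (l 171966464215)) (l 16777416))) (l 16777384)))))) (b (a (a (b (l 3) (a (b (l 3) (a (l 3) (a (l 248202133639) (l 164987142343)))) (a (b (l 264308261111) (l 16810770807))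 (b (a (l 174650818775) (l 93046440359)) (l 16776920))))) (b (a (b (l 287393710487) (a (l 210621169799) (c (l 16777304) (l 16777464)))) (a (b (c (l 156397207735) (l 150491627783)) (l 16776944)) (l 16777480))) (c (l 16777248) (l 16777240)))) (a (c (l 16776936) (c (l 16776776) (l 16776768))) (c (l 16776656) (l 16776648)))) (a (b (a (a (a (b (a (l 151565369607) (l 16777480)) (l 16776896)) (l 16777504)) (l 16777216)) (l 16776640)) (c (l 16776744) (l 16776496))) (c (l 16775840) (l 16775824))))))), by decide +kernel⟩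

def k71_pm_102_s : ∃ t, chk3 f_pm_102_s t 58 290 1 = true :=
  ⟨(b (a (l 3) (a (a (a (l 3) (b (c (c (l 282561872711) (l 285783098135)) (l 289541193143)) (b (a (l 3) (a (b (l 289004322887) (l 93583311511)) (l 16777432))) (a (a (a (l 3) (l 221895458919)) (b (l 116131889927) (l 16777104))) (l 16776888))))) (a (a (b (a (b (l 3) (a (l 162839658791) (l 16777576))) (b (a (l 170355852535) (l 179482656999)) (l 16777024))) (l 16777312)) (b (a (b (b (l 16777536) (l 16777056)) (l 16776832)) (l 16776792)) (l 16776280))) (b (l 16776880) (l 16776360)))) (c (a (l 16776168) (a (l 16775024) (l 16774256))) (a (c (l 16776160) (l 16776144)) (c (l 16774216) (l 16773944)))))) (a (a (l 3) (a (l 3) (a (l 3) (a (l 3) (b (l 3) (b (l 270750712167) (a (a (l 236390973543) (b (l 174113948439) (l 16777168))) (c (l 16777432) (l 16777424))))))))) (a (a (a (a (a (b (l 3) (b (b (l 138680468359) (l 16777136)) (l 16776912))) (b (a (l 280414388615) (b (l 3) (l 183240753383))) (l 16777360))) (b (b (a (l 287930581287) (b (l 246591520871)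 (l 16777504))) (a (b (l 94657053335) (l 16777064)) (l 16776952))) (l 16777240))) (b (a (b (l 16777464) (l 16776664)) (l 16777088)) (l 16776664))) (c (c (l 16776488) (l 16776488)) (c (l 16776480) (l 16776136)))) (a (a (b (l 16774328) (l 16775032)) (c (l 16773928) (l 16773896))) (b (c (l 16773744) (l 16773048)) (a (l 16772688) (l 16771440))))))), by decide +kernel⟩

def k72_pm_102_s : ∃ t, chk3 f_pm_102_s t 58 582 1 = true :=
  ⟨(a (a (l 3) (a (b (l 3) (b (l 3) (a (l 3) (a (l 3) (a (l 3) (l 249275875543)))))) (a (a (b (l 3) (a (b (l 3) (b (c (l 130627404583) (l 130627404583)) (l 16777128))) (b (b (l 3) (a (l 155323466391) (l 16777192))) (l 16777008)))) (a (b (l 290078065095) (b (a (b (l 125258695271) (l 16777096)) (l 16777080)) (l 16776824))) (b (b (l 3) (b (l 240149069911) (l 16777496))) (l 16777112)))) (a (b (b (a (a (l 295446774007) (l 216526749815)) (b (c (l 114521277143) (l 113984406183)) (l 16777096))) (l 16777456)) (l 16777152)) (b (a (l 16777160) (l 16776640)) (l 16776120)))))) (a (b (a (a (l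 16776816) (l 16776712)) (c (l 16775576) (l 16774240))) (c (a (l 16776480) (c (l 16774968) (l 16774968))) (a (l 16776464) (l 16774280)))) (c (a (c (l 16773104) (l 16773264)) (l 16770936)) (a (c (a (l 16774112) (l 16772040)) (a (l 16774072) (l 16771992))) (c (l 16773520) (l 16772152)))))), by decide +kernel⟩

def k73_pm_102_s : ∃ t, chk3 f_pm_102_s t 58 583 1 = true :=
  ⟨(a (a (l 3) (a (b (a (l 3) (b (a (l 298131128743) (a (b (l 267529486423) (c (l 16777480) (l 16777192))) (c (l 16777408) (l 16777408)))) (a (b (a (l 3) (c (l 102173246103) (l 101099504263))) (a (c (l 123111211143) (l 122574340871)) (l 16777072))) (l 16776872)))) (a (a (b (l 3) (a (l 3) (b (l 291151806535) (a (l 131164275319) (l 16777168))))) (b (b (c (l 243370295527) (l 247128391879)) (a (l 250349617255) (l 16777472))) (c (c (c (l 16777504) (l 16777336)) (l 16777336)) (l 16777496)))) (a (c (l 16777280) (l 16777432)) (l 16777056)))) (a (b (a (l 16776968) (l 16776920)) (l 16776488)) (c (l 16776704) (l 16776032))))) (a (a (a (a (l 16776128)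 (l 16775752)) (c (l 16774616) (l 16773848))) (a (c (c (l 16773128) (l 16773120)) (c (l 16774408) (l 16774376))) (c (l 16773688) (c (l 16773648) (l 16772296))))) (c (c (l 16771808) (l 16771792)) (a (c (l 16771528) (l 16771800)) (l 16770312))))), by decide +kernel⟩

def k74_pm_102_s : ∃ t, chk3 f_pm_102_s t 116 292 1 = true :=
  ⟨(a (a (b (l 3) (b (b (l 3) (b (l 3) (a (l 3) (a (l 3) (a (l 3) (a (l 148344144519) (l 16777512))))))) (a (a (l 3) (b (l 3) (l 288467452295))) (b (a (c (a (l 3) (l 238538457287)) (l 257328939303)) (b (a (a (l 174650819303) (l 95193924087)) (l 16777080)) (l 16777344))) (a (b (a (l 244444037223) (l 16777472)) (a (a (l 95730794999) (l 16777128)) (l 16776984))) (l 16777112)))))) (b (a (a (l 3) (b (l 3) (b (l 3) (a (c (l 235317231815) (c (l 243907166263) (l 244980908071))) (b (a (l 171966464727) (l 16777456)) (l 16777104)))))) (a (b (c (l 287393710679) (l 292762419735)) (b (a (b (l 306184192087) (a (l 142438564487) (l 16777184))) (a (b (l 113984406023) (l 16777088)) (l 16777400)))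 (l 16777224))) (b (a (b (l 3) (b (l 231559135319) (c (l 16777488) (l 16777160)))) (b (c (c (l 228337909943) (l 235317231671)) (l 234780360775)) (l 16777376))) (c (l 16777336) (l 16776672))))) (a (b (a (b (b (l 260013293815) (a (l 276119421031) (c (l 16777496) (l 16777168)))) (b (a (a (l 120963727975) (l 16777152)) (l 16777016)) (l 16776952))) (c (b (l 16777296) (l 16776656)) (l 16777296))) (b (l 16776936) (l 16776872))) (b (a (l 16777088) (l 16776712)) (l 16776272))))) (b (a (a (b (a (a (b (b (a (l 163913401079) (l 16777528)) (l 16777096)) (l 16776856)) (l 16777152)) (l 16776872)) (l 16776768)) (b (l 16776632) (l 16776664))) (a (a (l 16775752) (l 16776032)) (b (l 16774464) (l 16774504)))) (a (a (a (l 16776352) (l 16776296)) (b (l 16774736) (l 16774768))) (a (c (c (l 16774344) (l 16774336)) (l 16774304)) (c (l 16773592) (a (l 16773736) (l 16772704))))))), by decide +kernel⟩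

def k75_pm_102_s : ∃ t, chk3 f_pm_102_s t 116 293 1 = true :=
  ⟨(b (a (b (a (a (b (a (l 3) (a (b (l 3) (a (l 148881015431) (l 16777352))) (b (a (l 122037469719) (l 16777160)) (l 16777048)))) (a (a (a (l 3) (b (l 3) (l 120963727975))) (b (a (l 174650819303) (l 94657053175)) (l 16777440))) (l 16777232))) (c (l 16776992) (l 16777152))) (c (l 16776688) (l 16776016))) (a (a (a (b (c (l 16777464) (l 16777624)) (l 16776656)) (l 16777088)) (l 16776528)) (c (l 16775736) (l 16776040)))) (b (c (a (c (l 16774536) (l 16774536)) (l 16773704)) (a (l 16774504) (c (l 16773664) (l 16772312)))) (c (a (c (l 16773920) (l 16773912)) (l 16771776)) (a (a (l 16773592) (l 16772840)) (l 16772040))))) (a (b (c (a (l 16776608) (c (l 16774792) (l 16775440))) (a (l 16776264) (l 16775408))) (c (a (l 16775976) (c (l 16774168) (l 16774160))) (a (l 16776280) (l 16774120)))) (c (a (c (l 16773648) (l 16772984)) (l 16770856)) (a (c (l 16772872) (a (l 16772632) (l 16771880))) (c (l 16770808) (l 16770744)))))), by decide +kernel⟩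

def k76_pm_102_s : ∃ t, chk3 f_pm_102_s t 116 147 1 = true :=
  ⟨(a (a (b (b (a (b (l 16776040) (l 16774672)) (c (c (l 16774344) (l 16774336)) (l 16774304))) (c (c (l 16773456) (l 16773608)) (c (l 16773504) (a (l 16774416) (l 16772360))))) (b (c (l 16771536) (c (l 16771504) (l 16771784))) (a (l 16770616) (l 16769888)))) (b (c (b (c (l 16773888) (l 16773224)) (l 16771320)) (b (c (l 16773192) (l 16772992)) (c (l 16773904) (l 16771888)))) (b (a (l 16770416) (l 16769680)) (l 16769440)))) (a (b (c (c (l 16771792) (l 16771776)) (c (l 16771080) (b (l 16770992) (l 16769736)))) (b (c (l 16768608) (l 16768512)) (c (a (c (l 16770352) (l 16767712)) (b (l 16769928) (l 16766664))) (a (l 16767624) (b (l 16767200) (l 16766576)))))) (b (b (c (l 16769624) (l 16769528)) (a (l 16771344) (a (l 16768168) (b (l 16768112) (l 16767488))))) (b (b (a (l 16767784) (a (l 16767240) (l 16766864))) (a (a (l 16767352) (l 16766976)) (l 16766424))) (c (l 16765872) (l 16765784)))))), by decide +kernel⟩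

def k77_pm_102_s : ∃ t, chk3 f_pm_102_s t 117 73 1 = true :=
  ⟨(a (b (b (b (c (a (a (a (l 16774256) (l 16773880)) (l 16773320)) (l 16772192)) (a (b (l 16773960) (a (l 16773064) (l 16772304))) (a (l 16772176) (l 16771096)))) (c (c (l 16772392) (a (l 16771808) (l 16772936))) (a (a (a (l 16772320) (l 16771944)) (l 16771376)) (l 16770896)))) (a (c (c (l 16771304) (l 16771288)) (b (l 16771168) (l 16769280))) (b (c (l 16769120) (l 16769008)) (b (a (l 16768536) (a (l 16767976) (l 16767608))) (c (a (l 16767968) (l 16767216)) (a (l 16767840) (l 16767096))))))) (b (a (b (a (l 16768480) (b (l 16768048) (a (l 16767624) (l 16767248)))) (b (a (a (l 16767744) (l 16767368)) (l 16766816)) (c (l 16766600) (a (l 16766856) (l 16766120))))) (b (b (a (a (l 16767496) (l 16767120)) (l 16766560)) (l 16766320)) (l 16765224))) (c (l 16765592) (a (l 16764936) (l 16763464))))) (b (b (b (b (a (l 16770312) (a (l 16769184) (a (l 16768624) (l 16768248)))) (a (l 16770368) (a (l 16768584) (a (l 16768016) (l 16767640))))) (a (b (c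 (l 16769144) (l 16769032)) (a (l 16768872) (a (l 16768312) (l 16767936)))) (a (b (a (l 16768168) (l 16767792)) (l 16767368)) (l 16766920)))) (a (b (b (a (l 16768264) (a (l 16767704) (l 16767328))) (a (a (l 16767840) (l 16767464)) (l 16766904))) (a (l 16766736) (l 16765984))) (c (l 16765512) (l 16765400)))) (c (b (l 16765112) (l 16762632)) (b (a (l 16764448) (l 16762960)) (l 16761576))))), by decide +kernel⟩

def k78_pm_102_s : ∃ t, chk3 f_pm_102_s t 118 72 1 = true :=
  ⟨(b (a (b (a (a (a (b (b (a (l 272361324983) (b (l 3) (a (l 171429593303) (l 69424120471)))) (b (c (l 16777344) (l 16777512)) (l 16776720))) (l 16776952)) (b (b (b (a (l 203641847959) (c (l 16777464) (l 16777376))) (l 16777584)) (l 16777136)) (l 16776888))) (b (c (l 16777200) (c (l 16776848) (l 16776848))) (l 16776304))) (c (b (l 16776376) (c (l 16775184) (l 16775136))) (b (l 16776336) (l 16775136)))) (c (a (b (c (l 16775496) (l 16775496)) (c (l 16774136) (l 16773976))) (b (c (l 16773944) (l 16773952)) (l 16772768))) (a (b (l 16775488)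 (c (l 16773960) (l 16773608))) (b (c (l 16773944) (l 16773920)) (c (l 16771440) (l 16772712)))))) (a (a (b (b (l 16775168) (a (l 16774168) (l 16773784))) (b (l 16772464) (l 16770296))) (b (c (b (l 16773136) (l 16771896)) (b (l 16773072) (l 16771880))) (b (l 16770704) (l 16769528)))) (b (c (b (l 16773288) (l 16770720)) (b (l 16773208) (l 16770712))) (a (b (l 16769936) (b (l 16769048) (l 16768456))) (b (b (l 16769456) (l 16768864)) (l 16767984)))))) (a (b (a (b (c (l 16772784) (a (l 16772144) (l 16772688))) (a (l 16770976) (l 16770216))) (a (b (l 16770640) (l 16769448)) (b (l 16769880) (b (l 16768984) (a (l 16768584) (l 16768200)))))) (a (b (a (l 16769776) (c (l 16769056) (l 16768960))) (b (a (l 16768880) (a (l 16768272) (l 16767928))) (a (a (l 16768472) (l 16768088)) (l 16767520)))) (b (a (b (c (l 16768592) (l 16768496)) (c (l 16767992) (l 16767896))) (l 16767496)) (l 16766680)))) (b (b (a (b (a (l 16769408) (a (l 16768832) (l 16768448))) (a (a (l 16769008) (l 16768624)) (l 16768048))) (l 16767192))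 (a (b (a (a (l 16768416) (l 16768032)) (l 16767456)) (l 16767240)) (l 16766008))) (c (c (l 16766336) (l 16765008)) (a (l 16765688) (l 16764160)))))), by decide +kernel⟩

def k79_pm_102_s : ∃ t, chk3 f_pm_102_s t 119 72 1 = true :=
  ⟨(b (a (b (a (b (l 16772960) (a (c (l 16769552) (l 16769536)) (a (l 16770288) (l 16768584)))) (b (a (a (l 16771992) (l 16771600)) (l 16768392)) (l 16767616))) (a (a (a (b (l 16768576) (l 16767408)) (l 16767608)) (l 16767024)) (l 16766848))) (c (b (l 16767168) (c (l 16763544) (l 16763552))) (b (l 16767152) (l 16764816)))) (a (c (b (c (l 16764304) (l 16764304)) (c (l 16763272) (l 16761960))) (b (a (l 16765008) (l 16763472)) (l 16762528))) (c (b (c (l 16761232) (l 16761240)) (l 16760224)) (b (l 16762472) (l 16758824))))), by decide +kernel⟩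

def k80_pm_102_s : ∃ t, chk3 f_pm_102_s t 59 73 1 = true :=
  ⟨(a (b (a (a (b (b (b (a (a (l 16767864) (l 16767488)) (l 16766920)) (l 16766696)) (c (l 16765832) (l 16765712))) (c (l 16764008) (l 16763896))) (c (b (l 16764920) (l 16762504)) (b (l 16764808) (l 16762400)))) (c (b (c (l 16763952) (l 16762632)) (l 16761552)) (b (a (l 16763296) (l 16761784)) (l 16760472)))) (c (a (b (l 16762128) (l 16760976)) (b (l 16759136) (l 16758016))) (a (b (l 16761136) (l 16758304)) (b (l 16757752) (l 16755344))))) (b (c (a (b (l 16760920) (l 16758544)) (b (l 16757888) (l 16756848))) (a (b (l 16759840) (l 16757144)) (b (l 16756480) (l 16754136)))) (c (a (c (l 16756248) (l 16756272)) (l 16753296)) (a (l 16755544) (l 16751920))))), by decide +kernel⟩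

def k81_pm_102_s : ∃ t, chk3 f_pm_102_s t 58 37 1 = true :=
  ⟨(b (a (b (a (b (a (a (c (l 16769376) (l 16768664)) (b (l 16768616) (a (l 16767528) (b (l 16767480) (l 16766840))))) (b (b (l 16767840) (a (l 16767568) (a (l 16767024) (l 16766656)))) (a (b (a (l 16767120) (l 16766752)) (l 16766392)) (l 16765880)))) (b (a (b (a (l 16767112) (c (l 16769008) (l 16768960))) (a (a (l 16766648) (l 16766280)) (l 16765736))) (l 16764960)) (c (l 16766832) (l 16765688)))) (b (b (b (a (a (a (l 16766928) (l 16766560)) (l 16766008)) (l 16764904)) (l 16766312)) (l 16765688)) (c (l 16764736) (l 16763424)))) (a (b (c (l 16765056) (l 16765072)) (c (l 16762688) (l 16759872))) (c (b (l 16762264) (l 16759912)) (c (l 16760920) (l 16760912))))) (b (c (a (b (l 16764376) (l 16761816)) (b (l 16761440) (l 16758928))) (a (b (l 16762368) (l 16759216)) (b (l 16758792) (l 16756312)))) (a (c (c (l 16757744) (l 16758152)) (l 16758064)) (b (l 16756448) (l 16754048))))) (a (b (c (a (b (l 16760392) (l 16755528)) (c (l 16756648) (l 16756352)))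 (a (l 16758784) (l 16756000))) (b (c (a (l 16757272) (l 16750584)) (l 16753984)) (c (a (l 16751208) (l 16748448)) (l 16750440)))) (b (c (a (c (l 16753872) (l 16756192)) (l 16750912)) (b (l 16755568) (l 16753280))) (c (a (c (l 16746928) (l 16751784)) (l 16743936)) (c (l 16748744) (l 16749768)))))), by decide +kernel⟩

def k82_pm_102_s : ∃ t, chk3 f_pm_102_s t 59 37 1 = true :=
  ⟨(b (a (b (a (c (c (l 16757296) (l 16757280)) (l 16757264)) (b (l 16756248) (l 16753144))) (c (a (l 16752592) (l 16752336)) (b (l 16752144) (l 16752312)))) (b (c (a (l 16754040) (l 16751128)) (a (l 16751432) (l 16745888))) (a (a (l 16749944) (l 16748512)) (c (c (l 16746784) (l 16741248)) (b (l 16742320) (l 16739920)))))) (a (b (c (b (l 16750400) (l 16748184)) (b (l 16749888) (l 16747616))) (a (c (l 16741128) (l 16740448)) (c (b (l 16739400) (l 16737416)) (b (l 16738744) (l 16736648))))) (b (a (c (c (l 16740048) (l 16739704)) (c (l 16739416) (l 16739192))) (l 16742184)) (c (l 16735944) (l 16733792))))), by decide +kernel⟩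

def k83_pm_102_s : ∃ t, chk3 f_pm_102_s t 30 36 1 = true :=
  ⟨(a (b (a (b (c (a (b (l 16764048) (l 16761776)) (b (l 16762248) (l 16757368))) (a (b (l 16762712) (l 16760400)) (b (l 16759576) (l 16757280)))) (b (c (a (l 16760792) (l 16755096)) (a (l 16758080) (l 16754984))) (c (a (l 16758488) (l 16752816)) (a (l 16755760) (l 16754008))))) (b (a (a (b (l 16757272) (l 16755016)) (b (l 16755696) (l 16753448))) (a (a (l 16756016) (l 16755224)) (b (l 16752536) (l 16751616)))) (b (a (c (l 16752008) (l 16751880)) (a (l 16752256) (l 16748056))) (a (c (l 16749752) (l 16749440)) (c (l 16746584) (l 16746504)))))) (a (b (a (c (c (l 16755000) (l 16755008)) (b (l 16753448) (l 16751120))) (c (l 16752320) (b (l 16750400) (l 16748096)))) (a (c (l 16752952) (l 16748944)) (a (b (l 16746632) (l 16744296)) (b (l 16745120) (l 16742776))))) (b (a (a (b (l 16748208) (l 16745904)) (b (l 16746656) (l 16744360))) (l 16747088)) (c (l 16745624) (l 16742728))))) (c (b (a (b (a (b (l 16752760) (l 16747888)) (l 16745960)) (b (l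 16749472) (l 16747392))) (a (a (l 16744328) (l 16742872)) (b (l 16742720) (l 16735960)))) (a (b (c (l 16744480) (l 16738872)) (l 16737568)) (b (c (l 16738840) (l 16743576)) (a (l 16730696) (l 16727784))))) (b (a (b (a (a (a (l 16750456) (l 16749336)) (l 16748144)) (l 16745752)) (a (l 16744496) (l 16741328))) (b (c (l 16746376) (l 16740952)) (l 16742008))) (a (b (l 16743744) (l 16739496)) (a (l 16737168) (l 16734120)))))), by decide +kernel⟩

def k84_pm_102_s : ∃ t, chk3 f_pm_102_s t 31 36 1 = true :=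
  ⟨(a (a (b (b (c (a (l 16737048) (l 16733912)) (a (l 16736272) (l 16732992))) (c (a (l 16732936) (l 16729824)) (l 16733056))) (c (a (l 16732056) (l 16723736)) (a (b (l 16727848) (l 16723664)) (l 16727784)))) (b (a (c (l 16733904) (l 16730168)) (b (l 16726704) (c (l 16723352) (l 16722048)))) (a (c (l 16720576) (l 16719256)) (b (c (l 16719344) (l 16717936)) (c (l 16715360) (l 16713848)))))) (a (b (c (a (b (l 16723992) (l 16720008)) (b (l 16720520) (l 16716576))) (a (b (l 16722632) (l 16718544)) (l 16722216))) (c (a (l 16714064) (l 16710696)) (a (l 16712448) (l 16708904)))) (b (c (a (c (l 16715528) (l 16714496)) (b (l 16713264) (l 16709392))) (a (l 16718488) (l 16714648))) (c (a (l 16712456) (c (l 16704272) (l 16703024))) (a (l 16705248) (l 16701472)))))), by decide +kernel⟩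

def k85_pm_102_s : ∃ t, chk3 f_pm_102_s t 15 37 1 = true :=
  ⟨(b (a (a (a (b (a (c (c (l 16745664) (l 16745584)) (b (l 16744128) (l 16741776))) (l 16745232)) (c (l 16742760) (l 16742152))) (b (c (l 16741584) (l 16740944)) (c (l 16732296) (l 16731464)))) (a (b (c (l 16732864) (l 16730032)) (c (l 16729464) (l 16725808))) (c (b (l 16730456) (l 16721152)) (b (a (l 16725616) (l 16722592)) (l 16730408))))) (a (a (c (a (l 16718736) (l 16715688)) (b (l 16717928) (l 16713768))) (c (a (l 16717816) (l 16714664)) (a (l 16711024) (l 16712968)))) (a (c (a (l 16706224) (l 16702928)) (a (l 16704360) (l 16700888))) (c (a (l 16710008) (b (l 16697920) (l 16694112))) (a (l 16697304) (l 16693600)))))) (c (a (a (b (a (l 16736120) (a (l 16729584) (l 16726904))) (a (a (l 16730832) (l 16728240)) (l 16724248))) (a (b (l 16722784) (l 16718752)) (a (l 16716496) (l 16713592)))) (a (a (l 16714368) (a (l 16704544) (l 16701504))) (a (a (l 16698392) (l 16695176)) (a (l 16691856) (l 16688424))))) (a (b (a (a (l 16732688) (l 16727248))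 (a (l 16732088) (l 16715728))) (a (a (l 16728520) (l 16733544)) (a (l 16717416) (l 16711560)))) (a (a (l 16712776) (a (l 16713288) (l 16699600))) (a (a (l 16696312) (l 16692912)) (a (l 16689400) (l 16685776))))))), by decide +kernel⟩

def k86_pm_102_s : ∃ t, chk3 f_pm_102_s t 28 76 1 = true :=
  ⟨(a (b (a (a (a (c (b (l 16771776) (l 16768032)) (b (l 16770216) (l 16767688))) (b (c (l 16770488) (l 16768880)) (c (l 16769344) (l 16767656)))) (b (a (c (l 16767872) (l 16767536)) (a (l 16766696) (b (l 16766640) (l 16768024)))) (b (a (c (l 16768664) (l 16765640)) (c (l 16767480) (l 16764400))) (a (l 16767992) (l 16763496))))) (a (b (b (a (a (l 16768584) (l 16767920)) (c (l 16767248) (l 16764176))) (a (c (l 16767368) (l 16764296)) (l 16763256))) (c (l 16763840) (l 16767224))) (b (c (c (l 16763704) (l 16762088)) (l 16764320)) (c (l 16761448) (l 16759488))))) (a (a (b (b (a (l 16768616) (c (l 16765032) (l 16767200))) (a (c (l 16765096) (l 16767264)) (l 16763688))) (c (l 16762952) (l 16762400))) (b (c (l 16762776)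 (l 16767456)) (l 16762992))) (b (c (a (l 16760456) (l 16758080)) (a (l 16759792) (l 16757312))) (a (c (l 16758424) (l 16757640)) (c (l 16756064) (l 16755176)))))) (a (b (a (b (c (c (l 16760592) (l 16759592)) (l 16760440)) (a (l 16757928) (l 16756656))) (a (b (l 16757488) (l 16755368)) (b (l 16756176) (l 16754056)))) (c (a (b (l 16755640) (l 16753632)) (c (b (l 16753376) (l 16751416)) (b (l 16752872) (l 16750848)))) (a (b (l 16754776) (l 16752648)) (b (l 16752176) (l 16750064))))) (b (b (c (a (l 16757192) (l 16751864)) (a (l 16753816) (l 16751088))) (c (a (l 16755144) (l 16749832)) (a (l 16751656) (l 16748936)))) (c (b (a (c (l 16750784) (l 16750248)) (l 16747840)) (a (c (l 16748840) (l 16748240)) (l 16748496))) (a (l 16751088) (l 16745760)))))), by decide +kernel⟩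

def k87_pm_102_s : ∃ t, chk3 f_pm_102_s t 28 77 1 = true :=
  ⟨(a (a (b (a (c (l 16765160) (b (l 16760248) (l 16758136))) (c (l 16760328) (l 16756856))) (c (a (l 16755992) (l 16753808)) (a (l 16755000) (l 16752688)))) (b (a (b (l 16755960) (l 16753928)) (c (c (l 16754696) (l 16752808)) (l 16752016))) (c (a (l 16751560) (c (l 16749600) (l 16748888))) (a (l 16750320) (l 16747880))))) (c (a (b (a (b (l 16751664) (l 16750376)) (c (b (l 16749488) (l 16747592)) (l 16747864))) (a (c (b (l 16748176) (l 16746320)) (l 16746464)) (c (b (l 16745720) (l 16743872)) (l 16743968)))) (a (b (c (b (l 16746928) (l 16745040)) (b (l 16746256) (l 16744296))) (c (b (l 16743176) (l 16741336)) (l 16741392))) (b (c (b (l 16744280) (l 16742408)) (l 16742608)) (b (l 16742744) (l 16740872))))) (a (b (a (l 16749504) (l 16746928)) (a (l 16745384) (l 16742824))) (b (a (l 16744296) (l 16741608)) (a (l 16740200) (b (l 16738544) (l 16736520))))))), by decide +kernel⟩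

def k88_pm_102_s : ∃ t, chk3 f_pm_102_s t 29 38 1 = true :=
  ⟨(a (b (a (b (a (c (c (l 16750968) (l 16747872)) (l 16749872)) (c (c (l 16745576) (l 16745096)) (l 16744472))) (c (a (c (l 16744408) (l 16743816)) (l 16743952)) (a (l 16743008) (l 16740232)))) (b (a (c (l 16742544) (l 16741680)) (a (l 16739992) (b (l 16739648) (l 16737544)))) (b (a (l 16738976) (c (l 16736800) (l 16735752))) (a (a (l 16737640) (l 16741504)) (l 16734336))))) (b (a (c (a (c (l 16740616) (l 16739888)) (b (l 16738416) (a (l 16737216) (l 16735888)))) (a (l 16738872) (b (l 16737120) (l 16740352)))) (a (a (c (l 16740736) (l 16735408)) (l 16738704)) (c (l 16732304) (l 16730848)))) (a (c (a (a (b (l 16738096) (a (l 16736568) (l 16735928))) (b (l 16736736) (l 16734984))) (a (l 16737872) (l 16733320))) (a (b (l 16741064) (a (l 16734504) (l 16733216))) (b (l 16733184) (l 16731296)))) (c (a (l 16731400) (l 16728800)) (a (l 16729632) (l 16727008)))))) (a (b (b (a (b (c (l 16738032) (l 16742448)) (l 16735608)) (c (l 16734560) (l 16733584)))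 (c (l 16737360) (a (l 16732176) (l 16729592)))) (b (c (l 16733712) (l 16732184)) (c (l 16730096) (l 16728256)))) (b (c (b (l 16736040) (l 16727016)) (b (a (l 16731008) (l 16728384)) (l 16730896))) (c (b (l 16723256) (l 16719496)) (b (l 16721632) (l 16717616)))))), by decide +kernel⟩

def k89_pm_102_s : ∃ t, chk3 f_pm_102_s t 28 78 1 = true :=
  ⟨(a (a (a (b (c (l 16752168) (l 16750904)) (l 16752864)) (b (c (l 16750008) (l 16748608)) (l 16745408))) (c (b (a (l 16747776) (c (l 16747216) (l 16745048))) (a (l 16744048) (c (l 16742272) (l 16741256)))) (b (a (l 16746248) (l 16743824)) (a (l 16742240) (l 16739824))))) (a (b (c (a (c (b (l 16744480) (l 16742656)) (l 16742640)) (c (b (l 16742040) (l 16740224)) (l 16740152))) (a (l 16741336) (l 16738784))) (a (c (c (a (l 16740528) (l 16739336)) (l 16738864)) (l 16737344)) (c (b (c (l 16738408) (l 16737328)) (c (a (l 16737240) (l 16736064)) (a (l 16736088) (l 16734888)))) (b (l 16735792) (a (l 16734456) (l 16733224)))))) (b (c (a (a (c (l 16739232) (l 16738240))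 (b (l 16738368) (b (l 16736976) (l 16736080)))) (b (a (c (l 16737552) (l 16736568)) (a (l 16738704) (l 16735456))) (c (a (l 16738456) (l 16734632)) (l 16734160)))) (a (b (l 16737184) (a (l 16735840) (l 16734528))) (b (a (l 16735184) (l 16733880)) (c (l 16733136) (l 16732160))))) (a (c (b (a (b (l 16736432) (l 16735568)) (l 16734808)) (l 16733720)) (b (a (l 16733872) (l 16732632)) (l 16731392))) (c (c (l 16734088) (l 16731560)) (c (l 16730400) (l 16729296))))))), by decide +kernel⟩

def k90_pm_102_s : ∃ t, chk3 f_pm_102_s t 28 79 1 = true :=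
  ⟨(a (a (b (c (a (l 16744960) (l 16742768)) (a (l 16743064) (l 16740744))) (a (l 16750960) (b (l 16739040) (l 16737056)))) (b (b (c (a (l 16741328) (l 16739032)) (l 16738080)) (a (l 16738504) (c (c (l 16737904) (l 16736664)) (l 16734904)))) (a (b (c (l 16737840) (l 16735384)) (c (a (l 16736552) (l 16735456)) (a (l 16733952) (l 16732792)))) (b (c (a (l 16736080) (l 16734968)) (a (l 16733544) (l 16732376))) (c (l 16733848) (l 16731080)))))) (a (b (b (a (a (c (l 16737248) (l 16734992)) (c (b (l 16736504) (l 16735648)) (l 16733768))) (c (c (l 16735008) (l 16733752)) (l 16731968))) (a (c (a (l 16738160) (l 16734416)) (a (l 16733080) (l 16731896))) (c (l 16732728) (l 16730112)))) (c (a (c (l 16733232) (l 16731768)) (c (l 16730984) (l 16729472))) (a (l 16729696) (l 16727312)))) (b (c (a (b (l 16734664) (l 16730392)) (b (l 16729640) (l 16727960))) (a (b (l 16729544) (l 16727680)) (c (l 16726760) (l 16725480)))) (b (a (c (l 16728712) (l 16725808)) (c (l 16726256) (l 16723288))) (c (a (l 16727000) (l 16724536))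 (a (l 16723912) (l 16721392))))))), by decide +kernel⟩

def k91_pm_102_s : ∃ t, chk3 f_pm_102_s t 29 39 1 = true :=
  ⟨(a (b (a (b (c (a (b (l 16733920) (l 16732240)) (c (l 16731120) (l 16730016))) (a (c (l 16731528) (l 16730568)) (l 16728472))) (b (c (a (l 16730552) (l 16728008)) (a (l 16728248) (l 16725664))) (c (a (l 16728848) (l 16726296)) (a (l 16726376) (l 16723784))))) (b (c (a (l 16727976) (l 16725312)) (a (l 16725856) (l 16723184))) (c (a (c (l 16725176) (l 16723888)) (l 16721832)) (a (l 16722072) (l 16719376))))) (a (b (c (a (b (l 16727144) (l 16725448)) (a (l 16726984) (l 16723048))) (a (c (l 16724216) (l 16722912)) (c (l 16721608) (l 16720288)))) (b (c (a (l 16723728) (l 16721112)) (a (l 16720712) (l 16718080))) (c (a (l 16721976) (l 16719344)) (a (l 16718800) (l 16716152))))) (b (b (c (a (l 16721920) (l 16719200)) (a (l 16719224) (l 16716512))) (c (a (l 16720184) (l 16717440)) (a (l 16717312) (l 16714584)))) (c (a (c (l 16718344) (l 16716720)) (c (l 16715568) (l 16713952))) (a (c (l 16715168)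 (l 16713680)) (c (l 16712408) (l 16710944))))))) (b (a (c (b (a (l 16722616) (l 16719880)) (a (l 16719072) (l 16716272))) (b (a (l 16720480) (l 16717744)) (a (l 16716624) (l 16713856)))) (c (b (l 16715760) (l 16712032)) (b (l 16713624) (l 16709656)))) (a (b (c (a (l 16715520) (l 16712664)) (a (l 16712776) (l 16709960))) (c (a (l 16711912) (l 16709016)) (a (l 16708872) (l 16706032)))) (c (b (a (l 16709776) (l 16706856)) (a (l 16706056) (l 16703080))) (b (l 16710944) (l 16706944)))))), by decide +kernel⟩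

def k92_pm_102_s : ∃ t, chk3 f_pm_102_s t 15 19 1 = true :=
  ⟨(a (b (a (b (b (a (c (l 16725632) (l 16724384)) (c (l 16720288) (l 16718912))) (c (a (l 16721776) (l 16716368)) (a (l 16720296) (l 16714792)))) (c (a (b (l 16717912) (l 16714040)) (b (l 16712432) (l 16708472))) (a (b (l 16716216) (l 16712128)) (b (l 16710672) (l 16706536))))) (b (a (c (b (l 16714760) (l 16710792)) (b (l 16713256) (l 16709128))) (c (l 16717512) (l 16710584))) (a (c (l 16715264) (l 16713384)) (c (l 16698968) (l 16697048))))) (a (b (a (c (b (l 16710184) (l 16706328)) (b (l 16708064) (l 16704016))) (c (l 16713000) (l 16710840))) (a (c (b (l 16702472) (l 16698568)) (b (l 16699960) (l 16695880))) (c (l 16705032) (l 16692096)))) (b (a (c (l 16696712) (l 16694592)) (c (l 16701296) (l 16699216))) (a (c (l 16688552) (l 16686248)) (a (l 16693368) (a (l 16691168) (l 16689792))))))) (b (a (a (b (a (l 16701640) (c (l 16699592) (l 16697752))) (a (b (l 16695528) (l 16691432)) (b (l 16692560) (l 16688536)))) (b (c (a (l 16696656) (l 16693704))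 (a (l 16694672) (l 16691552))) (c (l 16687408) (l 16685096)))) (b (a (c (a (l 16690664) (l 16687528)) (l 16691928)) (c (a (l 16684288) (l 16680936)) (a (l 16681568) (l 16678016)))) (a (c (l 16688032) (l 16678792)) (c (a (l 16676776) (l 16673504)) (l 16677312))))) (a (b (a (a (c (l 16686448) (l 16684320)) (l 16693056)) (c (l 16679680) (l 16677120))) (a (c (l 16677320) (l 16674872)) (c (l 16672056) (l 16669232)))) (c (a (b (l 16673904) (l 16666448)) (b (a (l 16669320) (l 16666144)) (a (l 16661984) (l 16658888)))) (a (b (l 16670968) (l 16663224)) (b (l 16664392) (l 16656800))))))), by decide +kernel⟩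

def k93_pm_102_s : ∃ t, chk3 f_pm_102_s t 24 40 1 = true :=
  ⟨(a (b (b (l 3) (a (l 3) (b (l 3) (b (c (a (l 3) (l 188609462263)) (l 205252460343)) (c (a (l 195051913207) (l 62981670359)) (l 128479923751)))))) (b (a (b (c (a (b (l 3) (l 194515042311)) (b (l 196662525959) (l 65129154247))) (a (l 213842394935) (l 91435835415))) (c (a (c (b (l 49023028535) (l 16776248)) (l 16779104)) (l 16775864)) (l 16778656))) (c (b (a (b (l 65129154215) (l 16776200)) (l 16775808)) (l 16778104)) (b (l 16778632) (l 16774488)))) (a (a (b (a (l 16777856) (l 16777520)) (l 16776504)) (b (l 16777016) (l 16773296))) (b (c (l 16776304) (l 16773112)) (c (l 16778120) (l 16772056)))))) (a (b (b (l 3) (b (c (a (b (l 3) (l 171966465799)) (b (l 161765918295) (l 16776704))) (a (l 134922382055) (l 105931344343))) (b (a (a (l 60834188279) (l 16776600)) (l 16775936)) (l 16778248)))) (b (c (b (l 16777320) (l 16778720)) (l 16778864)) (b (c (l 16777640) (l 16771624)) (c (a (l 16777088) (l 16776272)) (l 16780856))))) (b (b (b (l 3) (c (a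 (b (l 3) (l 146733532887)) (b (l 97878283783) (l 16776456))) (a (l 134385510375) (l 16779344)))) (b (c (a (l 16778832) (l 16775280)) (l 16775616)) (c (l 16776968) (l 16774024)))) (b (b (l 16776792) (c (l 16777208) (l 16771216))) (b (a (c (l 16771392) (l 16770456)) (l 16775240)) (l 16778944)))))), by decide +kernel⟩

def k94_pm_102_s : ∃ t, chk3 f_pm_102_s t 25 40 1 = true :=
  ⟨(b (a (a (b (a (b (c (b (l 248202133783) (l 81772155735)) (l 153175984215)) (l 16778416)) (b (a (b (l 122037470183) (l 16776288)) (l 16778768)) (l 16774672))) (b (l 16777568) (l 16777456))) (b (c (c (l 16777832) (l 16779024)) (l 16778864)) (b (l 16776656) (a (l 16770624) (l 16774656))))) (b (a (b (l 16777248) (l 16775688)) (b (l 16774424) (c (l 16773376) (l 16767520)))) (b (a (c (l 16774488) (l 16768592)) (l 16771760)) (a (c (a (l 16774000) (l 16767392)) (l 16777784)) (l 16775288))))) (a (b (a (a (b (l 16771496) (l 16776856)) (b (l 16775688) (l 16774488))) (b (a (l 16775992) (l 16768192)) (l 16767112))) (a (b (l 16767936) (l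 16765664)) (b (l 16765080) (l 16773176)))) (b (c (a (l 16776280) (l 16773368)) (b (l 16774496) (l 16772464))) (a (c (l 16772216) (l 16770456)) (c (l 16769088) (l 16777616)))))), by decide +kernel⟩

def k95_pm_102_s : ∃ t, chk3 f_pm_102_s t 13 40 1 = true :=
  ⟨(a (b (a (b (a (b (c (l 16774800) (l 16766328)) (l 16775704)) (c (l 16774192) (l 16762712))) (a (c (l 16773896) (l 16772736)) (c (l 16771032) (l 16759144)))) (a (b (c (l 16760808) (l 16759544)) (c (l 16767944) (l 16755792))) (b (c (l 16757568) (l 16756024)) (c (l 16764496) (l 16752088))))) (a (b (a (c (l 16759872) (l 16758240)) (c (l 16756824) (l 16754944))) (a (c (l 16765880) (l 16753224)) (c (l 16762688) (l 16749776)))) (a (b (c (l 16753600) (l 16751448)) (l 16763184)) (b (c (l 16750040) (l 16747616)) (c (l 16745256) (l 16742264)))))) (b (a (b (a (c (l 16753992) (l 16752184)) (c (l 16750080) (l 16748024))) (c (a (l 16750224) (l 16746112)) (a (l 16748056) (l 16743704)))) (a (b (a (l 16745800) (l 16743552)) (c (a (l 16742808) (l 16740504)) (l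 16739048))) (b (a (l 16741224) (l 16738824)) (b (a (l 16737888) (c (l 16736936) (l 16734152))) (a (c (l 16737088) (l 16734232)) (l 16733568)))))) (a (b (a (c (l 16746128) (l 16743440)) (c (b (l 16742984) (l 16740736)) (l 16744096))) (a (b (l 16741016) (a (l 16739272) (l 16737128))) (a (b (l 16737680) (c (l 16737200) (l 16733608))) (b (c (l 16737456) (l 16734040)) (l 16733672))))) (b (a (b (a (l 16738096) (c (l 16737368) (l 16734320))) (a (c (l 16737504) (l 16734272)) (l 16733936))) (a (b (l 16733816) (l 16732104)) (l 16731048))) (a (c (b (l 16734872) (l 16733128)) (l 16740776)) (c (a (l 16731344) (l 16729448)) (l 16734376))))))), by decide +kernel⟩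

def k96_pm_102_s : ∃ t, chk3 f_pm_102_s t 12 82 1 = true :=
  ⟨(a (b (b (b (a (a (l 16778240) (a (l 16772176) (l 16776648))) (a (l 16769392) (l 16766584))) (a (a (a (l 16772864) (l 16777552)) (c (a (l 16772088) (l 16770784)) (l 16770352))) (a (l 16768072) (l 16765272)))) (a (a (a (b (l 16777592) (l 16776800)) (b (l 16776792) (l 16770224))) (c (l 16769512) (l 16768248))) (a (a (l 16766848) (l 16765520)) (l 16771448)))) (a (c (b (a (l 16774952) (l 16767392)) (a (l 16778472) (l 16776424))) (b (c (l 16776632) (l 16777248)) (c (l 16775968) (l 16775024)))) (b (c (a (l 16765112) (l 16762968)) (l 16772472)) (a (c (l 16763960) (l 16761424)) (l 16771112))))) (b (a (b (c (a (l 16774448) (l 16771544)) (c (l 16771592) (l 16770704))) (c (l 16771296) (l 16769024))) (a (b (l 16767360) (l 16765864)) (b (l 16764056) (l 16752360)))) (a (a (b (l 16770016) (l 16769128)) (b (l 16767624) (l 16767064))) (a (b (l 16775560) (l 16754336)) (b (l 16751880) (l 16751928)))))), by decide +kernel⟩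

def k97_pm_102_s : ∃ t, chk3 f_pm_102_s t 13 82 1 = true :=
  ⟨(a (b (b (a (c (l 16765664) (l 16768128)) (a (l 16764296) (l 16760608))) (a (c (l 16759920) (l 16766984)) (a (l 16742840) (a (l 16740296) (l 16759680))))) (a (b (a (l 16749064) (l 16746160)) (a (l 16749384) (c (l 16749368) (l 16744024)))) (a (b (a (l 16743960) (l 16763392)) (c (l 16757272) (l 16741224))) (b (c (l 16742904) (l 16737888)) (l 16740696))))) (b (a (a (b (a (c (l 16738656) (l 16734944)) (c (l 16737104) (l 16733288))) (c (l 16738760) (l 16734312))) (b (c (l 16734864) (l 16730928)) (c (l 16735544) (l 16730976)))) (a (b (c (l 16731592) (l 16727488)) (c (l 16731944) (l 16727256))) (a (b (l 16737176) (l 16726536)) (b (l 16724704) (l 16724416))))) (a (a (b (l 16747576) (c (l 16740152) (l 16734496))) (c (b (l 16736184) (l 16736312)) (b (l 16731008) (l 16730608)))) (a (c (b (l 16732256) (l 16732080)) (b (l 16727000) (l 16726344))) (a (b (l 16726328) (l 16725704)) (b (l 16724064) (l 16723304))))))), by decide +kernel⟩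

def k98_pm_102_s : ∃ t, chk3 f_pm_102_s t 24 83 1 = true :=
  ⟨(b (a (b (a (c (c (l 16774880) (l 16776248)) (l 16774456)) (b (l 16774352) (l 16773288))) (a (b (l 16774088) (l 16773656)) (b (l 16772576) (l 16772400)))) (b (a (c (l 16773608) (l 16759816)) (c (l 16772136) (l 16757888))) (a (b (l 16771136) (l 16781704)) (a (l 16775448) (l 16780120))))) (b (b (a (a (c (l 16765600) (l 16761304)) (a (l 16783640) (l 16783152))) (a (l 16779824) (l 16781560))) (b (a (a (l 16763856) (l 16762952)) (a (l 16762096) (l 16761288))) (a (a (l 16764040) (l 16763136)) (a (l 16762280) (l 16761472))))) (b (b (b (a (a (l 16764272) (l 16763376)) (a (l 16762528) (l 16778560))) (b (a (a (l 16764504) (l 16763616)) (a (l 16762752) (a (l 16782784) (l 16760512)))) (a (c (a (l 16777072) (l 16776344)) (a (l 16762464) (l 16761400))) (b (a (c (b (l 16765360) (b (b (b (l 16765336) (a (l 16765368) (l 16764320))) (l 16764336)) (l 16764328))) (b (l 16760280) (a (l 16760656) (l 16759608)))) (b (l 16760264) (c (l 16761696) (l 16756888))))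 (a (l 16762016) (l 16758576)))))) (a (a (l 16764088) (l 16763160)) (a (l 16761816) (l 16758376)))) (a (a (l 16763624) (l 16762648)) (a (l 16761296) (l 16757856)))))), by decide +kernel⟩

def k99_pm_102_s : ∃ t, chk3 f_pm_102_s t 25 83 1 = true :=
  ⟨(b (a (c (b (a (l 16760280) (l 16758832)) (a (l 16761008) (l 16760072))) (b (l 16765584) (l 16775960))) (b (a (l 16775536) (l 16773472)) (b (a (l 16755240) (l 16774352)) (a (l 16777104) (a (l 16775744) (l 16753312)))))) (b (b (a (a (l 16780720) (c (l 16762328) (l 16755496))) (a (b (l 16777904) (a (l 16757952) (l 16756336))) (l 16774784))) (b (a (a (l 16760512) (c (l 16762672) (l 16755712))) (a (l 16756192) (l 16752552))) (a (a (c (l 16773992) (l 16757152)) (c (l 16761232) (l 16754712))) (a (l 16754360) (l 16750632))))) (b (b (b (a (a (c (l 16762472) (l 16756496)) (l 16755976)) (a (l 16752352) (l 16748552))) (b (a (a (l 16757872) (l 16754312)) (a (l 16750624) (l 16746768))) (b (b (a (l 16775840) (a (l 16749328) (l 16745440))) (a (a (l 16776584) (l 16751976))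 (a (l 16769200) (l 16765304)))) (a (l 16753120) (l 16745656))))) (a (l 16752912) (l 16745432))) (a (l 16752344) (l 16744848))))), by decide +kernel⟩

def k100_pm_102_s : ∃ t, chk3 f_pm_102_s t 13 166 1 = true :=
  ⟨(a (a (b (a (c (b (l 16752872) (l 16753640)) (l 16747256)) (c (b (l 16750400) (l 16750680)) (l 16744408))) (c (b (a (l 16754264) (l 16750736)) (l 16752368)) (b (l 16766968) (l 16745560)))) (b (a (l 16765040) (l 16761560)) (a (l 16764536) (c (l 16743120) (l 16736576))))) (a (c (b (a (l 16740000) (l 16735872)) (a (l 16739080) (l 16734680))) (b (a (l 16733872) (l 16729728)) (a (l 16732552) (l 16728168)))) (b (a (c (l 16731360) (l 16725216)) (a (l 16735072) (l 16722064))) (a (c (b (l 16730384) (l 16729376)) (l 16723424)) (c (a (l 16726064) (l 16723392)) (l 16718328)))))), by decide +kernel⟩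

def k101_pm_102_s : ∃ t, chk3 f_pm_102_s t 13 167 1 = true :=
  ⟨(b (b (a (a (a (l 16750128) (l 16746312)) (a (l 16742368) (l 16759288))) (a (a (c (l 16737520) (l 16730792)) (c (l 16732928) (l 16726248))) (a (c (l 16727936) (l 16721336)) (c (l 16722584) (l 16716080))))) (b (a (a (a (l 16748744) (l 16744816)) (c (l 16742104) (l 16735520))) (a (a (l 16732312) (l 16727680)) (a (l 16733160) (l 16717312)))) (a (a (a (l 16746760) (l 16742784)) (c (l 16739744) (l 16733712))) (a (a (l 16730216) (c (l 16728656) (l 16722696))) (a (c (l 16723624) (l 16717712)) (c (l 16718224) (l 16712384))))))) (a (b (b (b (a (a (l 16744624) (l 16740608)) (c (l 16737272) (l 16731776))) (b (a (a (l 16742800) (l 16738768)) (a (l 16734672) (l 16730496))) (b (b (a (a (l 16741448) (l 16737416)) (c (l 16733688) (l 16728944))) (a (a (l 16761312) (l 16757288)) (a (l 16753208) (l 16738568)))) (a (l 16737752) (l 16729664))))) (a (l 16737528) (l 16729432))) (a (l 16736936) (l 16728824))) (b (b (b (a (a (l 16728016) (l 16723400)) (a (l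 16718408) (l 16713056))) (b (a (a (l 16726192) (l 16721592)) (a (l 16716608) (l 16711272))) (b (b (a (a (l 16724856) (l 16720272)) (a (l 16715304) (l 16709984))) (a (a (c (l 16726112) (l 16721664)) (c (l 16721576) (l 16717072))) (a (c (l 16716648) (l 16712120)) (c (l 16711352) (l 16706816))))) (a (a (l 16723368) (l 16718848)) (a (l 16713936) (l 16708664)))))) (a (a (l 16723136) (l 16718616)) (a (l 16713712) (l 16708448)))) (a (a (l 16722520) (l 16718016)) (a (l 16713128) (l 16707872)))))), by decide +kernel⟩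

def k102_pm_102_s : ∃ t, chk3 f_pm_102_s t 6 21 1 = true :=
  ⟨(a (a (a (b (a (b (l 16781888) (l 16756592)) (b (l 16759688) (l 16754840))) (a (l 16768096) (l 16769616))) (b (a (b (c (l 16771024) (l 16755888)) (l 16753056)) (c (l 16775616) (l 16749896))) (a (b (l 16748400) (l 16744256)) (b (l 16745216) (l 16741016))))) (a (b (b (a (l 16750912) (l 16747112)) (l 16764376)) (a (l 16738280) (l 16733528))) (a (b (b (l 16743272) (l 16737296)) (l 16728904)) (b (a (l 16758208) (l 16756280)) (l 16724504))))) (a (a (b (a (l 16753240) (a (l 16750192) (l 16748136))) (a (l 16720160) (l 16736800))) (a (b (a (l 16746072) (l 16743984)) (l 16711664)) (b (c (l 16721960) (l 16717824)) (l 16728264)))) (a (b (a (b (l 16739816) (l 16712328)) (c (l 16723800) (l 16708992))) (a (l 16723800) (l 16719216))) (b (a (c (b (l 16711840) (l 16705432)) (l 16725128)) (b (c (l 16706680) (l 16702216)) (l 16708664))) (a (b (l 16696768) (l 16690368)) (c (l 16706632) (l 16686416))))))), by decide +kernel⟩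

def k103_pm_102_s : ∃ t, chk3 f_pm_102_s t 6 11 1 = true :=
  ⟨(a (a (b (b (a (a (l 16745520) (l 16742328)) (a (l 16739024) (l 16735456))) (a (a (l 16741968) (l 16738056)) (l 16763400))) (a (b (a (l 16740552) (l 16736016)) (l 16759328)) (b (l 16728696) (l 16727792)))) (a (b (b (l 16759304) (l 16763736)) (b (l 16738760) (l 16715672))) (b (b (l 16737760) (l 16709296)) (b (l 16703936) (l 16701048))))) (a (b (a (b (a (l 16709128) (l 16704408)) (l 16697208)) (b (a (l 16699792) (l 16695160)) (a (l 16689032) (l 16683992)))) (a (b (l 16690208) (l 16685480)) (b (l 16677272) (l 16670712)))) (b (a (b (a (l 16690656) (l 16685912)) (a (l 16679016) (l 16674000))) (b (a (l 16681032) (c (l 16678160) (l 16673808))) (a (l 16669088) (l 16663904)))) (a (b (a (l 16668528) (l 16663088)) (l 16656880)) (b (a (l 16657696) (l 16652240)) (a (l 16647472) (l 16641592))))))), by decide +kernel⟩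

def k104_pm_102_s : ∃ t, chk3 f_pm_102_s t 28 80 1 = true :=
  ⟨(a (b (a (a (b (l 16737448) (c (l 16736744) (l 16733992))) (b (c (a (l 16736952) (l 16735856)) (l 16733736)) (l 16733160))) (c (a (l 16733424) (c (l 16732096) (l 16730512))) (a (l 16730504) (l 16728256)))) (a (b (a (l 16733384) (l 16731328)) (c (l 16732192) (l 16729016))) (a (b (l 16729200) (l 16727384)) (c (c (l 16728688) (l 16726928)) (l 16724416))))) (a (b (c (a (c (l 16729920) (l 16728272)) (c (l 16727632) (l 16725936))) (a (l 16725920) (c (l 16724304) (l 16722744)))) (b (c (a (l 16726432) (l 16724096)) (a (l 16723032) (l 16720608))) (c (a (l 16724672) (c (l 16723280) (l 16721376))) (a (l 16721096) (l 16718664))))) (b (b (c (a (l 16725264) (l 16722776)) (a (l 16722008) (l 16719464))) (c (a (c (l 16724384) (l 16722608)) (c (l 16721888) (l 16720088))) (a (l 16720072) (l 16717528)))) (c (a (c (b (l 16722600) (l 16720848)) (b (l 16720752) (l 16718912))) (c (b (l 16720096) (l 16718312)) (b (l 16718224) (l 16716368)))) (a (b (l 16718112)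 (l 16716160)) (b (l 16715552) (l 16713584))))))), by decide +kernel⟩

def k105_pm_102_s : ∃ t, chk3 f_pm_102_s t 28 81 1 = true :=
  ⟨(a (a (b (c (a (l 16730864) (l 16728824)) (l 16728872)) (c (a (l 16727456) (l 16725368)) (b (l 16723368) (l 16721336)))) (b (c (a (l 16726696) (c (l 16725496) (l 16723488))) (a (l 16722944) (l 16720632))) (c (a (l 16723184) (c (l 16722048) (l 16719808))) (a (l 16718992) (l 16716648))))) (a (b (c (a (c (l 16723216) (l 16721160)) (c (b (l 16721680) (l 16719992)) (b (l 16719648) (l 16717848)))) (a (b (l 16719216) (l 16717280)) (b (l 16716760) (l 16714808)))) (b (c (a (l 16719520) (c (l 16718208) (l 16715968))) (a (l 16715272) (l 16712784))) (c (a (l 16717600) (l 16720376)) (a (l 16713184) (l 16710680))))) (b (c (a (c (b (l 16719208) (l 16717488)) (b (l 16717152) (l 16715328))) (c (b (l 16716640) (l 16714888)) (b (l 16714576) (l 16712728)))) (a (b (l 16714232) (l 16712264)) (b (l 16711640) (l 16709656)))) (c (a (c (b (l 16715672) (l 16713744)) (b (l 16713424) (l 16711416)))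 (c (b (l 16713040) (l 16711080)) (b (l 16710792) (l 16708760)))) (a (b (l 16710224) (l 16708104)) (b (l 16707600) (l 16705464))))))), by decide +kernel⟩

def k106_pm_102_s : ∃ t, chk3 f_pm_102_s t 58 40 1 = true :=
  ⟨(b (c (a (a (b (b (l 16720200) (l 16718392)) (b (l 16716544) (a (l 16715368) (l 16714032)))) (b (c (l 16720152) (l 16715752)) (b (l 16713856) (a (l 16712680) (l 16711304))))) (b (c (a (l 16714792) (l 16711968)) (a (l 16713016) (l 16710216))) (a (b (l 16711088) (l 16714456)) (b (l 16708256) (l 16706352))))) (a (b (a (c (l 16716712) (l 16715080)) (c (l 16714048) (l 16712416))) (b (a (l 16712936) (l 16710256)) (a (l 16710952) (l 16708256)))) (b (a (c (l 16711320) (l 16709704)) (c (l 16708544) (l 16706936))) (a (c (l 16712632) (l 16705648)) (c (l 16704584) (l 16702864)))))) (c (a (a (b (c (b (l 16713976) (l 16712192)) (b (l 16711920) (l 16710040))) (c (b (l 16710312) (l 16708320)) (b (l 16708080) (l 16706024)))) (b (b (l 16714784) (a (l 16709040) (l 16707632))) (c (b (l 16707504) (l 16705480))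 (b (l 16705296) (l 16703216))))) (b (a (b (l 16712632) (l 16710736)) (c (l 16709800) (l 16702536))) (c (a (b (l 16704608) (l 16702560)) (l 16707144)) (a (l 16707936) (l 16698456))))) (a (b (a (b (l 16708992) (l 16706984)) (b (l 16706280) (l 16704248))) (a (b (l 16704912) (l 16702760)) (b (l 16702160) (l 16700000)))) (b (a (c (l 16703440) (l 16701552)) (c (l 16700600) (l 16698744))) (a (b (l 16699368) (l 16697184)) (l 16705896)))))), by decide +kernel⟩

def k107_pm_102_s : ∃ t, chk3 f_pm_102_s t 59 40 1 = true :=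
  ⟨(b (a (c (b (a (c (l 16709080) (l 16707360)) (l 16705272)) (c (a (l 16705312) (l 16702320)) (a (l 16703480) (l 16700528)))) (b (a (l 16704912) (l 16702048)) (a (l 16706120) (l 16697992)))) (a (c (b (l 16702280) (l 16698384)) (b (l 16699144) (l 16695064))) (c (b (l 16699232) (l 16695304)) (b (l 16696208) (l 16692104))))) (c (a (a (b (c (l 16701560) (l 16699592)) (c (l 16697536) (l 16695464))) (b (l 16697536) (l 16698648))) (a (b (l 16694448) (l 16690264)) (b (l 16691312) (l 16687072)))) (a (b (a (l 16696792) (l 16693872)) (a (l 16692512) (l 16689568))) (b (a (l 16690920) (l 16687928)) (a (l 16686584) (l 16683568)))))), by decide +kernel⟩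

def k108_pm_102_s : ∃ t, chk3 f_pm_102_s t 15 40 1 = true :=
  ⟨(a (a (b (b (a (c (l 16694640) (l 16691784)) (l 16687112)) (a (c (l 16690592) (l 16687616)) (l 16690776))) (a (c (b (l 16686512) (l 16682200)) (b (l 16683384) (l 16678992))) (c (b (l 16680064) (l 16675592)) (l 16685512)))) (b (a (c (b (l 16682296) (l 16678032)) (l 16688240)) (a (a (l 16685672) (l 16684320)) (l 16671968))) (a (b (c (l 16673752) (l 16671304)) (c (l 16679920) (l 16666936))) (c (l 16666624) (l 16663968))))) (a (a (b (c (l 16669600) (l 16666888)) (c (l 16661968) (l 16658928))) (b (c (l 16664496) (l 16661392)) (c (l 16657032) (l 16653592)))) (c (b (a (l 16659064) (a (l 16654736) (l 16651728))) (a (l 16651776) (b (l 16647936) (l 16644408)))) (b (a (l 16655544) (l 16649280)) (a (l 16647904) (b (l 16643696) (l 16639976))))))), by decide +kernel⟩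

def k109_pm_102_s : ∃ t, chk3 f_pm_102_s t 28 82 1 = true :=
  ⟨(a (b (a (b (c (l 16723816) (b (l 16719744) (l 16719072))) (c (l 16723576) (l 16718680))) (b (c (a (l 16720504) (l 16718176)) (a (l 16716008) (l 16713632))) (c (a (l 16720048) (l 16717584)) (a (l 16715096) (l 16712608))))) (a (b (c (a (l 16724464) (l 16722032)) (l 16717888)) (c (a (l 16723784) (l 16721208)) (l 16716744))) (b (c (a (l 16719512) (l 16716904)) (a (l 16714120) (l 16711512))) (c (a (l 16718552) (c (l 16717328) (l 16714320))) (a (l 16712800) (l 16710080)))))) (b (a (b (c (a (b (l 16716088) (l 16715440)) (c (l 16714472) (l 16712064))) (a (l 16711176) (l 16708640))) (c (a (l 16715040) (c (l 16713712) (l 16711104))) (a (l 16710040) (l 16707400)))) (b (c (a (c (l 16711864) (l 16709456)) (c (l 16709160) (l 16706768))) (a (l 16706040) (l 16703368))) (c (c (a (l 16710968) (l 16708120)) (a (l 16708368) (l 16705560))) (a (l 16704688) (l 16701920))))) (a (b (c (a (c (l 16715632) (l 16712816)) (c (l 16712840) (l 16710040))) (a (c (l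 16710120) (l 16707560)) (c (l 16707360) (l 16704808)))) (c (a (c (l 16714488) (l 16711504)) (c (l 16711544) (l 16708592))) (a (c (l 16708656) (l 16705944)) (c (l 16705776) (l 16703096))))) (c (b (c (a (l 16709944) (l 16706952)) (a (l 16707176) (l 16704232))) (a (b (l 16712704) (l 16709224)) (c (b (l 16705824) (l 16704920)) (l 16702536)))) (b (a (c (l 16704528) (l 16702000)) (c (l 16701624) (l 16699136))) (c (a (l 16702832) (l 16699816)) (a (l 16700184) (l 16697232)))))))), by decide +kernel⟩

def k110_pm_102_s : ∃ t, chk3 f_pm_102_s t 29 82 1 = true :=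
  ⟨(a (b (c (a (b (c (a (l 16706360) (l 16703472)) (a (l 16704000) (l 16701152))) (c (a (l 16705192) (l 16702176)) (a (l 16702672) (l 16699712)))) (b (c (a (l 16700512) (l 16697464)) (a (l 16698240) (l 16695264))) (c (a (l 16699080) (l 16695904)) (a (l 16696680) (l 16693592))))) (a (b (a (l 16700640) (l 16697856)) (a (l 16699088) (l 16696208))) (b (a (l 16695016) (l 16692128)) (a (l 16693272) (l 16690296))))) (c (a (b (c (a (l 16703880) (l 16700720)) (a (l 16701208) (l 16698128))) (c (a (l 16707408) (l 16698872)) (a (l 16699392) (l 16696184)))) (c (b (a (l 16697480) (l 16694176)) (a (l 16695504) (l 16692064))) (b (a (l 16694968) (l 16691760)) (a (l 16692920) (l 16689592))))) (a (b (a (l 16697432) (l 16694440)) (a (c (l 16696744) (l 16694224)) (c (l 16693624) (l 16691176)))) (b (a (l 16691408) (l 16688328)) (a (l 16689256) (l 16686080)))))) (b (c (a (a (b (l 16698520) (l 16691544)) (b (l 16690144) (l 16688296))) (a (b (l 16686952) (l 16684992)) (l 16693168))) (a (b (a (l 16689192) (l 16686216)) (l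 16693616)) (b (l 16681688) (l 16679568)))) (c (a (a (b (l 16694880) (a (l 16688240) (l 16686504))) (b (l 16686264) (l 16683880))) (c (b (l 16682128) (l 16679576)) (b (l 16680128) (l 16677576)))) (a (b (a (l 16685216) (l 16682064)) (a (l 16682872) (l 16679640))) (b (l 16677288) (l 16674736)))))), by decide +kernel⟩

def k111_pm_102_s : ∃ t, chk3 f_pm_102_s t 14 332 1 = true :=
  ⟨(a (a (a (c (a (l 16722584) (l 16719872)) (l 16715152)) (b (c (a (l 16717504) (l 16714664)) (l 16710152)) (c (a (l 16716632) (l 16713728)) (l 16709128)))) (b (a (c (a (l 16711736) (l 16708712)) (a (l 16705872) (l 16702928))) (a (c (c (l 16707112) (l 16704136)) (l 16699928)) (c (c (l 16703880) (l 16700976)) (l 16696864)))) (a (c (a (l 16710736) (l 16707648)) (a (l 16704768) (l 16701776))) (a (c (l 16709720) (l 16698720)) (c (a (l 16702040) (l 16700392)) (l 16695616)))))) (a (c (a (c (a (b (l 16700568) (l 16699328)) (b (l 16697176) (l 16695872))) (a (b (l 16697752) (l 16696480)) (b (l 16694456) (l 16693128)))) (c (a (l 16698272)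 (l 16689464)) (a (l 16695648) (l 16686968)))) (a (a (b (l 16693752) (l 16692456)) (b (l 16690600) (l 16689256))) (a (b (l 16687400) (l 16686008)) (b (l 16684160) (l 16682728))))) (a (a (c (a (l 16685536) (l 16683752)) (l 16680152)) (c (l 16681040) (l 16676832))) (c (a (l 16677400) (l 16673720)) (l 16671816))))), by decide +kernel⟩

def k112_pm_102_s : ∃ t, chk3 f_pm_102_s t 14 333 1 = true :=
  ⟨(b (a (a (a (l 16721888) (c (a (l 16715552) (l 16712584)) (l 16707920))) (a (c (a (l 16709528) (l 16706376)) (a (l 16703488) (l 16700440))) (c (c (a (l 16704680) (l 16701320)) (a (l 16701640) (l 16698360))) (a (l 16697344) (c (l 16695544) (l 16692864)))))) (a (a (a (c (c (l 16697880) (l 16695016)) (l 16696224)) (c (c (l 16694360) (l 16691608)) (l 16687736))) (a (c (a (l 16690328) (l 16688544)) (l 16684448)) (c (l 16691096) (l 16681128)))) (a (c (a (l 16682216) (l 16678536)) (l 16686576)) (c (l 16672944) (l 16669312))))) (a (a (a (l 16725816) (c (a (l 16714184) (l 16711152)) (l 16706472))) (a (c (a (l 16708032)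 (c (l 16706400) (l 16703272))) (a (l 16701960) (l 16698872))) (c (c (a (l 16703064) (l 16699640)) (a (l 16700016) (l 16696680))) (a (l 16695720) (c (l 16693864) (l 16691200)))))) (a (a (a (c (c (l 16696128) (l 16693280)) (c (l 16690568) (l 16688000))) (c (c (l 16692544) (l 16689816)) (l 16691216))) (c (c (a (l 16688888) (l 16685176)) (a (l 16686296) (l 16682728))) (c (l 16682120) (l 16690336)))) (a (c (c (l 16679496) (l 16677296)) (a (l 16675896) (l 16672488))) (c (l 16681328) (l 16667344)))))), by decide +kernel⟩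

def k113_pm_102_s : ∃ t, chk3 f_pm_102_s t 14 334 1 = true :=
  ⟨(b (a (a (a (c (l 16716872) (l 16710504)) (c (a (l 16712368) (l 16709264)) (l 16704632))) (a (c (a (c (l 16707688) (l 16704512)) (c (l 16704376) (l 16701272))) (a (l 16700040) (l 16696904))) (c (a (b (l 16700048) (l 16698864)) (b (l 16696624) (l 16700648))) (c (a (l 16695088) (l 16691792)) (a (l 16692368) (l 16689168)))))) (a (c (a (c (a (b (l 16694552) (l 16693288)) (l 16695504)) (a (l 16691104) (l 16687584))) (c (a (l 16686544) (l 16682768)) (a (l 16684008) (l 16680392)))) (a (c (a (l 16688440) (l 16685048)) (a (l 16685928) (l 16682648))) (c (l 16690368) (a (l 16679344) (l 16676016))))) (a (c (c (a (l 16678936) (l 16675064)) (l 16685376)) (a (l 16673640) (l 16670200))) (c (a (l 16670216) (l 16666376)) (l 16675504))))) (b (a (a (a (l 16711624) (c (l 16708680) (l 16702712))) (a (c (a (l 16703896) (l 16700592)) (l 16696512)) (a (c (l 16697208) (l 16691712)) (c (l 16693744) (l 16688440))))) (a (a (c (c (a (l 16691568) (l 16687896)) (l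 16687120)) (c (l 16684640) (l 16682296))) (c (c (l 16682272) (l 16679944)) (c (l 16677736) (l 16675656)))) (a (c (c (l 16674584) (l 16672592)) (l 16669808)) (c (l 16665920) (l 16662896))))) (a (a (a (l 16709528) (c (l 16706392) (l 16700816))) (a (c (a (l 16701616) (c (l 16699752) (l 16696952))) (l 16694608)) (a (c (a (l 16695808) (l 16694096)) (l 16689800)) (c (c (l 16692824) (l 16690208)) (l 16686528))))) (a (c (a (c (a (l 16689240) (l 16685584)) (l 16687592)) (c (a (l 16681864) (l 16678088)) (l 16683048))) (a (a (l 16683216) (l 16679864)) (c (l 16675760) (l 16673824)))) (a (c (c (l 16682816) (l 16670480)) (c (l 16668744) (l 16667120))) (c (a (l 16665680) (l 16661848)) (a (l 16662736) (l 16659288)))))))), by decide +kernel⟩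

def k114_pm_102_s : ∃ t, chk3 f_pm_102_s t 14 2680 1 = true :=
  ⟨(a (a (a (l 16707376) (c (l 16704040) (l 16698856))) (a (c (a (l 16699288) (l 16696016)) (l 16692664)) (a (c (l 16692648) (l 16687856)) (c (l 16689208) (l 16684584))))) (a (c (a (c (a (l 16686872) (l 16683232)) (l 16682784)) (c (l 16677664) (l 16675648))) (a (c (l 16680632) (l 16678608)) (c (l 16673752) (l 16671984)))) (c (a (c (l 16670048) (l 16668352)) (a (l 16663504) (l 16659888))) (a (l 16671256) (a (l 16660856) (l 16657560)))))), by decide +kernel⟩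

def k115_pm_102_s : ∃ t, chk3 f_pm_102_s t 14 5362 1 = true :=
  ⟨(a (a (a (l 16705608) (c (l 16702128) (l 16697264))) (a (c (a (l 16697392) (l 16694128)) (l 16691080)) (a (c (l 16693400) (l 16686280)) (c (l 16687344) (l 16683016))))) (a (c (a (c (a (l 16684952) (l 16681336)) (l 16681024)) (c (l 16681032) (l 16673912))) (a (c (l 16679008) (l 16677120)) (c (l 16672152) (l 16670504)))) (a (c (c (l 16673456) (l 16666640)) (c (l 16665184) (l 16663840))) (a (c (l 16661768) (l 16659368)) (c (c (l 16659168) (l 16657976)) (a (l 16656888) (l 16655776))))))), by decide +kernel⟩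

def k116_pm_102_s : ∃ t, chk3 f_pm_102_s t 14 10726 1 = true :=
  ⟨(b (a (a (a (l 16704328) (l 16698368)) (a (c (a (l 16696032) (l 16692776)) (l 16689944)) (c (c (l 16688864) (l 16686640)) (l 16683536)))) (a (c (a (c (l 16681792) (l 16679760)) (c (l 16674448) (l 16672672))) (a (l 16676944) (l 16670224))) (a (c (c (l 16666904) (l 16665432)) (l 16663432)) (a (c (l 16660536) (l 16658312)) (c (l 16657736) (l 16655648)))))) (a (a (a (l 16703392) (a (l 16698968) (a (l 16696688) (l 16705640)))) (a (c (a (c (a (l 16696984) (l 16695376)) (l 16693904)) (c (c (l 16693504) (l 16692352)) (l 16690696))) (c (l 16690176) (l 16688160))) (b (b (c (b (l 16687160) (b (l 16686960) (a (l 16688344) (l 16684944)))) (a (l 16684384) (a (l 16681952) (l 16685560)))) (c (l 16686536) (l 16682592))) (c (l 16686528) (l 16682584))))) (c (b (b (b (a (a (l 16680200) (l 16678240)) (a (l 16665616) (a (l 16660000) (l 16657432)))) (b (a (a (l 16680000) (l 16678040)) (a (l 16665424) (a (l 16659816) (l 16657344)))) (a (a (c (a (l 16682480)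 (l 16678896)) (l 16678768)) (c (l 16673400) (l 16671712))) (a (c (l 16665904) (l 16664504)) (a (l 16659600) (l 16657280)))))) (a (a (l 16679624) (l 16672472)) (a (l 16665152) (a (l 16659584) (l 16657312))))) (a (a (l 16679616) (l 16672464)) (a (l 16665144) (a (l 16659576) (l 16657304))))) (a (a (b (b (b (l 16676464) (a (l 16677784) (l 16674464))) (l 16676032)) (l 16676024)) (a (c (l 16677184) (l 16670408)) (c (l 16668504) (l 16667104)))) (a (a (c (l 16665048) (l 16663784)) (c (l 16661568) (l 16660464))) (a (a (l 16658456) (c (l 16667712) (l 16666816))) (c (l 16666200) (c (l 16665504) (l 16663440))))))))), by decide +kernel⟩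

def k117_pm_102_s : ∃ t, chk3 f_pm_102_s t 14 10727 1 = true :=
  ⟨(a (a (a (l 16703072) (l 16697160)) (a (c (l 16693104) (l 16688928)) (c (l 16686504) (l 16682552)))) (a (c (a (l 16679584) (l 16672440)) (a (l 16675992) (l 16669304))) (a (c (l 16665112) (l 16662552)) (a (c (l 16659544) (l 16657472)) (l 16656176))))), by decide +kernel⟩

def k118_pm_102_s : ∃ t, chk3 f_pm_102_s t 14 1341 1 = true :=
  ⟨(a (a (a (l 16702856) (l 16696944)) (a (c (l 16692896) (l 16688704)) (c (l 16686296) (l 16682336)))) (a (c (a (l 16679376) (l 16677472)) (a (l 16675768) (l 16669088))) (a (c (l 16664896) (l 16662320)) (a (c (l 16659328) (l 16657240)) (l 16655944))))), by decide +kernel⟩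

def k119_pm_102_s : ∃ t, chk3 f_pm_102_s t 14 671 1 = true :=
  ⟨(a (a (a (l 16702288) (l 16696384)) (a (c (l 16692344) (l 16688128)) (c (l 16685736) (l 16681752)))) (a (c (a (l 16678824) (l 16676904)) (a (l 16675192) (l 16668496))) (a (c (l 16664328) (l 16661720)) (a (c (l 16658752) (l 16656632)) (l 16655336))))), by decide +kernel⟩

def k120_pm_102_s : ∃ t, chk3 f_pm_102_s t 15 82 1 = true :=
  ⟨(b (a (a (a (c (a (l 16679344) (l 16675976)) (l 16684896)) (c (a (l 16672568) (l 16669192)) (l 16668152))) (a (a (l 16680728) (l 16662712)) (l 16659304))) (a (a (l 16654560) (c (l 16651488) (l 16647752))) (a (c (l 16646368) (l 16642200)) (c (l 16640880) (l 16636248))))) (a (a (a (c (b (l 16674120) (l 16671352)) (a (l 16671112) (l 16667840))) (b (c (l 16667216) (l 16664488)) (c (l 16675112) (l 16661912)))) (a (l 16667520) (c (l 16656880) (l 16653688)))) (a (a (c (l 16652432) (l 16648864)) (c (l 16647720) (l 16643760))) (a (c (l 16642704) (l 16638312)) (c (l 16642576) (l 16632480)))))), by decide +kernel⟩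

def k121_pm_102_s : ∃ t, chk3 f_pm_102_s t 15 166 1 = true :=
  ⟨(c (a (a (a (b (l 16668152) (a (l 16666176) (l 16673152))) (b (l 16672472) (l 16669872))) (a (l 16667224) (l 16663152))) (a (a (l 16648320) (l 16651608)) (a (b (l 16639896) (l 16637920)) (b (l 16634616) (a (l 16634048) (l 16631352)))))) (a (a (a (b (l 16665096) (a (l 16663168) (l 16659968))) (b (l 16659272) (l 16656576))) (a (l 16653632) (l 16659696))) (a (a (l 16644512) (l 16639552)) (a (b (l 16635336) (l 16633240)) (b (l 16629600) (l 16627592)))))), by decide +kernel⟩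

def k122_pm_102_s : ∃ t, chk3 f_pm_102_s t 15 334 1 = true :=
  ⟨(b (a (a (a (a (c (l 16662568) (l 16659872)) (c (l 16659816) (l 16657216))) (c (l 16657344) (l 16654432))) (c (a (l 16653760) (l 16649800)) (a (l 16650464) (l 16646160)))) (a (a (c (l 16645568) (l 16641592)) (c (l 16641096) (l 16636752))) (a (c (l 16636320) (l 16631576)) (c (l 16631192) (l 16626008))))) (a (a (a (b (a (c (l 16660448) (l 16657936)) (l 16657120)) (a (c (l 16658968) (l 16656552)) (l 16656064))) (c (l 16655592) (l 16652640))) (c (a (l 16652128) (l 16648264)) (a (l 16648800) (l 16644600)))) (a (c (a (l 16644120) (l 16639728)) (a (l 16640128) (l 16635376))) (a (c (l 16635032) (l 16630288)) (c (a (l 16631280) (l 16628656)) (l 16624808)))))), by decide +kernel⟩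

def k123_pm_102_s : ∃ t, chk3 f_pm_102_s t 30 335 1 = true :=
  ⟨(b (b (b (a (c (a (l 16657136) (l 16654224)) (a (l 16654632) (l 16651272))) (c (a (l 16650864) (l 16647088)) (a (l 16647528) (l 16643424)))) (b (a (c (a (l 16656384) (l 16653536)) (a (l 16653904) (l 16650600))) (c (a (l 16650232) (l 16646504)) (a (l 16646920) (l 16642872)))) (a (c (a (b (b (l 16655872) (l 16655504)) (l 16655520)) (b (b (l 16653072) (l 16652728)) (l 16652744))) (a (c (l 16664104) (l 16663024)) (c (l 16660984) (l 16659712)))) (c (a (b (b (l 16649808) (l 16649496)) (l 16649504)) (a (l 16657256) (l 16655336))) (a (c (l 16667944) (l 16645552)) (c (l 16643064) (l 16641512))))))) (a (c (a (l 16655304) (l 16652528)) (a (l 16652824) (l 16649600))) (a (c (l 16649304) (l 16646000)) (c (l 16645640) (l 16642024))))) (a (c (a (l 16654720) (l 16651968)) (a (l 16652200) (l 16648992))) (a (c (l 16648752) (l 16645400)) (c (l 16645104) (l 16641424))))), by decide +kernel⟩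

def k124_pm_102_s : ∃ t, chk3 f_pm_102_s t 31 335 1 = true :=
  ⟨(c (a (b (b (b (a (l 16643016) (l 16638696)) (b (a (l 16642480) (l 16638208)) (a (a (l 16653360) (l 16651320)) (a (l 16649216) (a (l 16637104) (l 16635992)))))) (a (l 16641680) (l 16637464))) (a (l 16641144) (l 16636920))) (b (b (b (a (l 16634080) (l 16629096)) (b (a (l 16633632) (c (l 16630200) (l 16627280))) (b (b (a (l 16633344) (l 16628440)) (a (l 16633144) (a (l 16629512) (l 16626976)))) (a (l 16633144) (l 16628256))))) (a (l 16632936) (l 16628048))) (a (l 16632400) (l 16627512)))) (a (b (b (b (a (l 16639040) (l 16634368)) (b (a (l 16638536) (l 16633912)) (a (c (l 16638856) (l 16637184)) (c (l 16634368) (l 16632560))))) (a (l 16637744) (l 16633184))) (a (l 16637144) (l 16632576))) (a (b (b (b (l 16629352) (b (l 16628944) (c (l 16629552) (l 16627584)))) (l 16628280)) (l 16627672)) (b (b (b (l 16623952) (b (l 16623584) (a (l 16624584) (l 16632312)))) (l 16622976)) (l 16622368))))), by decide +kernel⟩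

def k125_pm_102_s : ∃ t, chk3 f_pm_102_s t 14 21 1 = true :=
  ⟨(a (a (b (a (b (l 16698856) (l 16692752)) (b (c (l 16695248) (l 16690816)) (l 16686960))) (a (b (l 16686592) (l 16680312)) (b (l 16680920) (l 16685304)))) (b (a (a (b (l 16698864) (l 16682392)) (c (b (l 16687400) (l 16681512)) (l 16701024))) (c (b (c (a (l 16685200) (l 16681776)) (l 16686592)) (c (a (l 16679360) (l 16675960)) (l 16675448))) (b (l 16688784) (l 16672224)))) (a (c (b (l 16677200) (l 16671248)) (l 16680016)) (c (b (c (l 16671856) (l 16669584)) (c (l 16666024) (l 16663728))) (b (l 16666216) (l 16660248)))))) (a (b (a (c (b (c (a (l 16678272) (l 16674696)) (a (l 16676248) (l 16672760))) (c (a (l 16672464) (l 16668880)) (l 16668616))) (b (a (l 16673376) (l 16670040)) (l 16665616))) (c (b (c (a (l 16671040) (l 16667336)) (l 16677928)) (c (l 16668616) (l 16661520))) (b (a (l 16666672) (l 16663280)) (l 16669328)))) (a (c (b (c (a (l 16666696) (l 16663136)) (l 16662792)) (c (l 16659176) (l 16657008))) (b (l 16659632) (l 16653704)))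 (c (b (c (l 16657632) (l 16655704)) (c (l 16651952) (l 16649960))) (b (l 16652832) (l 16646928))))) (b (a (c (a (b (l 16673280) (l 16656888)) (b (l 16659064) (l 16653136))) (b (a (l 16659864) (l 16656440)) (l 16662432))) (c (a (b (b (l 16656832) (l 16653808)) (l 16649344)) (b (b (l 16654448) (l 16651264)) (l 16657056))) (a (b (b (l 16654616) (l 16651424)) (l 16646736)) (b (b (l 16652248) (l 16648936)) (l 16644056))))) (a (c (b (c (l 16650064) (l 16648392)) (c (l 16644400) (l 16642656))) (b (l 16645896) (l 16639976))) (c (a (b (l 16643512) (l 16637808)) (b (l 16645712) (c (l 16635256) (l 16633816)))) (a (l 16648120) (b (l 16637728) (l 16631592)))))))), by decide +kernel⟩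

def k126_pm_102_s : ∃ t, chk3 f_pm_102_s t 15 21 1 = true :=
  ⟨(b (b (a (a (c (a (b (l 16663264) (l 16649632)) (b (l 16660576) (l 16646992))) (a (b (l 16650144) (l 16646848)) (b (l 16646976) (l 16643688)))) (a (c (b (l 16657424) (l 16643880)) (b (l 16643408) (l 16640136))) (b (c (l 16653824) (l 16639456)) (c (l 16640320) (l 16636200))))) (a (c (a (b (l 16639400) (l 16636336)) (b (l 16635152) (l 16632048))) (a (b (l 16635184) (l 16631888)) (b (l 16630584) (l 16627256)))) (c (a (b (c (l 16632072) (l 16629256)) (l 16627496)) (a (b (l 16627000) (l 16623856)) (b (l 16629704) (l 16621320)))) (a (b (l 16625672) (l 16622320)) (b (l 16620368) (l 16617008)))))) (a (a (c (a (c (l 16645672) (l 16644120)) (c (l 16643176) (l 16641320))) (a (l 16652400) (l 16649216))) (a (c (c (l 16640184) (l 16638064)) (l 16635152)) (c (c (l 16636720) (l 16634376)) (l 16631192)))) (a (a (c (c (l 16632800) (l 16630264)) (l 16626840)) (c (c (l 16628552) (l 16625808)) (l 16622160))) (a (c (c (l 16623976) (l 16621032)) (l 16617144))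 (c (a (l 16618776) (l 16616224)) (l 16611808)))))) (a (a (c (a (b (c (l 16639528) (l 16637904)) (c (l 16633528) (l 16631840))) (b (c (l 16637040) (l 16635096)) (l 16635288))) (a (b (l 16635512) (l 16629280)) (b (l 16632304) (l 16626072)))) (c (a (b (l 16638160) (l 16626920)) (b (l 16639816) (l 16623336))) (a (b (l 16628704) (l 16622456)) (b (l 16624720) (l 16618464))))) (a (c (a (b (l 16635808) (l 16619320)) (b (l 16631360) (l 16614896))) (a (b (l 16620368) (l 16614104)) (b (l 16615616) (l 16609352)))) (a (c (b (l 16616096) (l 16610040)) (b (l 16610528) (l 16604208))) (c (b (l 16621488) (l 16604856)) (b (l 16605104) (l 16598728))))))), by decide +kernel⟩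

def k127_pm_102_s : ∃ t, chk3 f_pm_102_s t 28 11 1 = true :=
  ⟨(b (a (b (a (b (l 16674008) (l 16667720)) (c (b (l 16670920) (l 16664632)) (l 16663120))) (a (c (l 16660664) (l 16656352)) (c (l 16655232) (l 16650784)))) (b (a (c (b (l 16665216) (l 16659024)) (b (l 16660464) (l 16654312))) (c (b (l 16658992) (l 16653032)) (b (l 16654296) (l 16648312)))) (b (a (c (l 16652792) (l 16648168)) (c (l 16646896) (l 16642240))) (a (l 16653376) (c (l 16640728) (l 16636168)))))) (a (b (a (l 16646872) (c (l 16643232) (l 16639024))) (a (l 16635736) (l 16629816))) (b (a (c (l 16637464) (l 16633152)) (c (b (l 16634536) (l 16628520)) (l 16627160))) (a (c (l 16625864) (l 16621840)) (c (l 16619736) (l 16615704)))))), by decide +kernel⟩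

def k128_pm_102_s : ∃ t, chk3 f_pm_102_s t 29 11 1 = true :=
  ⟨(b (a (b (a (c (b (c (l 16653416) (l 16651224)) (c (l 16647600) (l 16645408))) (b (l 16647824) (l 16641952))) (c (b (c (l 16646280) (l 16644256)) (c (l 16640592) (l 16638552))) (b (l 16641096) (l 16635312)))) (a (c (b (c (l 16641680) (l 16639528)) (c (l 16635576) (l 16633496))) (b (l 16636056) (l 16630072))) (c (b (c (l 16634840) (l 16632816)) (c (l 16628992) (l 16627016))) (b (l 16629528) (l 16623728))))) (b (a (c (b (c (l 16638792) (l 16636992)) (c (l 16633192) (l 16631368))) (b (l 16634168) (l 16628432))) (c (a (b (l 16632192) (l 16626632)) (b (l 16633992) (a (l 16623752) (l 16622296)))) (a (l 16625984) (b (l 16625624) (l 16619800))))) (c (a (b (c (l 16627584) (l 16625752)) (c (l 16621904) (l 16620104))) (b (a (l 16621096) (c (l 16618184) (l 16616664))) (a (l 16615536) (c (l 16612584) (l 16611072))))) (a (b (l 16622736) (l 16617048)) (b (l 16626304) (l 16610184)))))) (a (b (a (c (b (c (l 16629408) (l 16627424)) (l 16622320)) (b (l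 16624080) (l 16618112))) (c (b (c (l 16622944) (l 16621056)) (c (l 16616840) (l 16615056))) (b (l 16617824) (l 16611912)))) (a (c (b (l 16616360) (l 16610544)) (l 16609464)) (c (b (l 16609920) (l 16604024)) (l 16603144)))) (b (c (a (b (c (l 16616120) (l 16614368)) (c (l 16610136) (l 16608488))) (b (c (a (l 16610680) (l 16606960)) (l 16607304)) (c (l 16603096) (l 16601632)))) (a (b (l 16611336) (l 16605520)) (b (l 16604560) (l 16598920)))) (a (c (b (l 16604672) (l 16597368)) (b (l 16599704) (l 16593904))) (c (b (l 16607024) (l 16590624)) (b (l 16593192) (l 16587464))))))), by decide +kernel⟩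

def k129_pm_102_s : ∃ t, chk3 f_pm_102_s t 30 11 1 = true :=
  ⟨(b (b (a (c (a (b (l 16626776) (l 16620952)) (b (l 16624176) (l 16618432))) (a (b (l 16623216) (l 16617280)) (b (l 16620016) (l 16614128)))) (c (a (b (l 16621080) (l 16615384)) (b (l 16617520) (l 16611864))) (a (b (l 16616416) (l 16610544)) (b (l 16612424) (l 16606568))))) (a (c (a (b (c (l 16616040) (l 16614312)) (c (l 16610272) (l 16608568))) (b (l 16612776) (c (l 16608192) (l 16606112)))) (a (b (l 16611440) (l 16605672)) (b (l 16608360) (l 16602704)))) (c (a (b (c (l 16611000) (l 16608600)) (c (l 16605504) (l 16603104))) (b (l 16606344) (c (l 16602280) (l 16599592)))) (a (b (l 16604840) (l 16599256)) (b (l 16600896) (l 16595384)))))) (a (b (c (a (b (c (l 16604464) (l 16602824)) (c (a (l 16598896) (l 16598232)) (l 16597024))) (b (c (l 16602576) (l 16600536)) (c (l 16596912) (l 16594944)))) (a (b (l 16599936) (l 16594192)) (b (l 16597104) (l 16591544)))) (c (a (b (a (c (l 16592880) (l 16591560)) (l 16591560)) (a (l 16586176) (l 16585536)))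 (b (b (l 16591712) (l 16588848)) (c (l 16585304) (l 16583568)))) (a (b (c (l 16589416) (l 16587360)) (a (l 16583136) (l 16582056))) (b (l 16585968) (l 16580352))))) (b (c (a (b (c (l 16600048) (l 16597672)) (c (l 16594584) (l 16592256))) (b (c (l 16596952) (l 16594272)) (c (l 16591656) (l 16589016)))) (a (b (l 16593784) (l 16588360)) (b (l 16589992) (l 16584704)))) (c (a (b (c (b (l 16590472) (l 16587696)) (l 16586832)) (c (a (l 16584000) (l 16582920)) (l 16581352))) (b (c (a (l 16587088) (l 16585576)) (l 16583776)) (c (a (l 16581680) (l 16580280)) (l 16578512)))) (a (b (l 16582976) (l 16577576)) (b (l 16579472) (l 16574264))))))), by decide +kernel⟩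

def k130_pm_102_s : ∃ t, chk3 f_pm_102_s t 31 11 1 = true :=
  ⟨(b (a (b (a (c (b (l 16613520) (l 16607888)) (b (l 16608056) (l 16602208))) (c (b (l 16609104) (l 16603496)) (b (l 16603304) (l 16597472)))) (c (a (b (l 16602424) (l 16607576)) (b (l 16598064) (l 16592792))) (a (b (l 16596560) (l 16591088)) (b (l 16591840) (l 16586400))))) (b (a (b (c (l 16604272) (l 16598176)) (c (l 16598688) (l 16592352))) (c (b (l 16599024) (l 16593472)) (b (l 16592648) (l 16586848)))) (a (c (b (l 16593288) (l 16588056)) (b (l 16586736) (l 16581328))) (b (c (l 16588096) (l 16581248)) (c (l 16582904) (l 16575864)))))) (a (b (a (c (b (c (l 16593328) (l 16590392)) (c (l 16588168) (l 16585256))) (b (l 16585776) (l 16580584))) (c (b (l 16592888) (c (l 16584176) (l 16581016))) (b (l 16581136) (c (l 16577720) (l 16574296))))) (b (a (c (c (l 16583040) (l 16580176)) (c (l 16577104) (l 16573824))) (c (c (l 16579192) (l 16576064)) (c (l 16572752) (l 16569264)))) (a (c (c (a (l 16578728) (l 16577032)) (l 16575104)) (l 16570440))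 (l 6)))) (b (a (c (b (l 16582976) (c (l 16579704) (l 16576320))) (b (l 16576104) (c (l 16572832) (l 16569240)))) (b (c (l 16577880) (l 16570672)) (a (b (l 16571928) (l 6)) (l 6)))) (a (a (b (c (l 16574336) (l 16567400)) (l 6)) (l 6)) (l 6))))), by decide +kernel⟩

def k131_pm_102_s : ∃ t, chk3 f_pm_102_s t 6 12 1 = true :=
  ⟨(a (a (b (a (b (l 16740096) (l 16742968)) (b (l 16728760) (l 16731576))) (a (l 2) (l 16759256))) (b (a (b (l 16715848) (l 16717952)) (b (l 16700280) (l 16701984))) (a (l 16724128) (b (l 16705608) (l 16711000))))) (a (b (a (b (l 16683392) (l 16683560)) (b (l 16666544) (l 16665080))) (a (b (l 16686376) (l 16691248)) (b (l 16665880) (l 16669584)))) (b (a (b (l 16650728) (l 16646912)) (b (l 16635928) (l 16629936))) (a (b (l 16645648) (l 16647072)) (b (l 16625912) (l 16625072)))))), by decide +kernel⟩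

def k132_pm_102_s : ∃ t, chk3 f_pm_102_s t 7 12 1 = true :=
  ⟨(a (a (b (a (b (a (l 16625808) (l 16619448)) (a (l 16617832) (l 16610320))) (b (a (l 16613128) (b (l 16609576) (l 16604176))) (a (l 16603120) (c (l 16597720) (l 16594400))))) (b (a (a (l 16611936) (l 16602928)) (a (l 16594424) (l 16596768))) (a (c (l 16605856) (l 16601216)) (l 6)))) (b (b (a (a (c (b (l 16604864) (l 16599336)) (l 16598488)) (c (b (l 16598272) (l 16592656)) (l 16592032))) (c (a (b (l 16591536) (l 16585848)) (b (l 16584696) (l 16578936))) (a (l 16585512) (b (l 16581752) (l 16576224))))) (a (a (b (l 16592376) (l 16586632)) (c (b (l 16587104) (l 16580928)) (l 16591440))) (c (a (b (l 16580216) (l 16573968)) (b (l 16573216) (l 16566840))) (a (b (l 16577408) (l 16571480)) (b (l 16570752) (l 16564728)))))) (a (b (b (a (l 16581072) (a (l 16575680) (l 16572136))) (l 6)) (l 6)) (l 6)))) (a (b (a (a (b (c (b (a (l 16585336) (l 16579336)) (a (l 16574056) (l 16573120))) (b (a (l 16577304) (l 16576144)) (a (l 16571552) (l 16570256))))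 (b (c (a (l 16568136) (l 16566936)) (a (l 16565928) (l 16564424))) (l 6))) (b (c (b (c (l 16579216) (l 16577648)) (c (l 16573032) (l 16571664))) (b (l 16574608) (l 16568840))) (l 6))) (b (b (a (c (a (l 16577296) (l 16576264)) (l 16572120)) (c (c (a (l 16576160) (l 16574896)) (l 16573184)) (l 16569040))) (a (a (c (l 16571368) (l 16567168)) (l 6)) (l 6))) (l 6))) (l 6)) (l 6))), by decide +kernel⟩

def k133_pm_102_s : ∃ t, chk3 f_pm_102_s t 3 13 1 = true :=
  ⟨(b (a (a (a (l 2) (a (l 2) (l 16721184))) (b (a (a (l 16698040) (l 16675496)) (a (l 16651600) (l 6))) (l 6))) (l 6)) (a (l 6) (l 6))), by decide +kernel⟩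

def k134_pm_102_s : ∃ t, chk3 f_pm_102_s t 3 7 1 = true :=
  ⟨(l 6), by decide +kernel⟩

theorem s135_pm_102_s : ∃ t, chk3 f_pm_102_s t 3 12 1 = true := ex3_a k131_pm_102_s k132_pm_102_s

theorem s136_pm_102_s : ∃ t, chk3 f_pm_102_s t 3 6 1 = true := ex3_b s135_pm_102_s k133_pm_102_s

theorem s137_pm_102_s : ∃ t, chk3 f_pm_102_s t 3 3 1 = true := ex3_b s136_pm_102_s k134_pm_102_s

theorem s138_pm_102_s : ∃ t, chk3 f_pm_102_s t 15 11 1 = true := ex3_a k129_pm_102_s k130_pm_102_s

theorem s139_pm_102_s : ∃ t, chk3 f_pm_102_s t 14 11 1 = true := ex3_a k127_pm_102_s k128_pm_102_s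

theorem s140_pm_102_s : ∃ t, chk3 f_pm_102_s t 7 11 1 = true := ex3_a s139_pm_102_s s138_pm_102_s

theorem s141_pm_102_s : ∃ t, chk3 f_pm_102_s t 7 21 1 = true := ex3_a k125_pm_102_s k126_pm_102_s

theorem s142_pm_102_s : ∃ t, chk3 f_pm_102_s t 15 335 1 = true := ex3_a k123_pm_102_s k124_pm_102_s

theorem s143_pm_102_s : ∃ t, chk3 f_pm_102_s t 15 167 1 = true := ex3_b k122_pm_102_s s142_pm_102_s

theorem s144_pm_102_s : ∃ t, chk3 f_pm_102_s t 15 83 1 = true := ex3_b k121_pm_102_s s143_pm_102_s

theorem s145_pm_102_s : ∃ t, chk3 f_pm_102_s t 15 41 1 = true := ex3_b k120_pm_102_s s144_pm_102_s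

theorem s146_pm_102_s : ∃ t, chk3 f_pm_102_s t 14 5363 1 = true := ex3_b k116_pm_102_s k117_pm_102_s

theorem s147_pm_102_s : ∃ t, chk3 f_pm_102_s t 14 2681 1 = true := ex3_b k115_pm_102_s s146_pm_102_s

theorem s148_pm_102_s : ∃ t, chk3 f_pm_102_s t 14 1340 1 = true := ex3_b k114_pm_102_s s147_pm_102_s

theorem s149_pm_102_s : ∃ t, chk3 f_pm_102_s t 14 670 1 = true := ex3_b s148_pm_102_s k118_pm_102_s

theorem s150_pm_102_s : ∃ t, chk3 f_pm_102_s t 14 335 1 = true := ex3_b s149_pm_102_s k119_pm_102_s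

theorem s151_pm_102_s : ∃ t, chk3 f_pm_102_s t 14 167 1 = true := ex3_b k113_pm_102_s s150_pm_102_s

theorem s152_pm_102_s : ∃ t, chk3 f_pm_102_s t 14 166 1 = true := ex3_b k111_pm_102_s k112_pm_102_s

theorem s153_pm_102_s : ∃ t, chk3 f_pm_102_s t 14 83 1 = true := ex3_b s152_pm_102_s s151_pm_102_s

theorem s154_pm_102_s : ∃ t, chk3 f_pm_102_s t 14 82 1 = true := ex3_a k109_pm_102_s k110_pm_102_s

theorem s155_pm_102_s : ∃ t, chk3 f_pm_102_s t 14 41 1 = true := ex3_b s154_pm_102_s s153_pm_102_s

theorem s156_pm_102_s : ∃ t, chk3 f_pm_102_s t 7 41 1 = true := ex3_a s155_pm_102_s s145_pm_102_s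

theorem s157_pm_102_s : ∃ t, chk3 f_pm_102_s t 29 40 1 = true := ex3_a k106_pm_102_s k107_pm_102_s

theorem s158_pm_102_s : ∃ t, chk3 f_pm_102_s t 28 40 1 = true := ex3_b k104_pm_102_s k105_pm_102_s

theorem s159_pm_102_s : ∃ t, chk3 f_pm_102_s t 14 40 1 = true := ex3_a s158_pm_102_s s157_pm_102_s

theorem s160_pm_102_s : ∃ t, chk3 f_pm_102_s t 7 40 1 = true := ex3_a s159_pm_102_s k108_pm_102_s

theorem s161_pm_102_s : ∃ t, chk3 f_pm_102_s t 7 20 1 = true := ex3_b s160_pm_102_s s156_pm_102_s

theorem s162_pm_102_s : ∃ t, chk3 f_pm_102_s t 7 10 1 = true := ex3_b s161_pm_102_s s141_pm_102_s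

theorem s163_pm_102_s : ∃ t, chk3 f_pm_102_s t 7 5 1 = true := ex3_b s162_pm_102_s s140_pm_102_s

theorem s164_pm_102_s : ∃ t, chk3 f_pm_102_s t 13 83 1 = true := ex3_b k100_pm_102_s k101_pm_102_s

theorem s165_pm_102_s : ∃ t, chk3 f_pm_102_s t 12 83 1 = true := ex3_a k98_pm_102_s k99_pm_102_s

theorem s166_pm_102_s : ∃ t, chk3 f_pm_102_s t 6 83 1 = true := ex3_a s165_pm_102_s s164_pm_102_s

theorem s167_pm_102_s : ∃ t, chk3 f_pm_102_s t 6 82 1 = true := ex3_a k96_pm_102_s k97_pm_102_s

theorem s168_pm_102_s : ∃ t, chk3 f_pm_102_s t 6 41 1 = true := ex3_b s167_pm_102_s s166_pm_102_s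

theorem s169_pm_102_s : ∃ t, chk3 f_pm_102_s t 12 40 1 = true := ex3_a k93_pm_102_s k94_pm_102_s

theorem s170_pm_102_s : ∃ t, chk3 f_pm_102_s t 6 40 1 = true := ex3_a s169_pm_102_s k95_pm_102_s

theorem s171_pm_102_s : ∃ t, chk3 f_pm_102_s t 6 20 1 = true := ex3_b s170_pm_102_s s168_pm_102_s

theorem s172_pm_102_s : ∃ t, chk3 f_pm_102_s t 6 10 1 = true := ex3_b s171_pm_102_s k102_pm_102_s

theorem s173_pm_102_s : ∃ t, chk3 f_pm_102_s t 6 5 1 = true := ex3_b s172_pm_102_s k103_pm_102_s

theorem s174_pm_102_s : ∃ t, chk3 f_pm_102_s t 3 5 1 = true := ex3_a s173_pm_102_s s163_pm_102_s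

theorem s175_pm_102_s : ∃ t, chk3 f_pm_102_s t 28 39 1 = true := ex3_b k89_pm_102_s k90_pm_102_s

theorem s176_pm_102_s : ∃ t, chk3 f_pm_102_s t 14 39 1 = true := ex3_a s175_pm_102_s k91_pm_102_s

theorem s177_pm_102_s : ∃ t, chk3 f_pm_102_s t 28 38 1 = true := ex3_b k86_pm_102_s k87_pm_102_s

theorem s178_pm_102_s : ∃ t, chk3 f_pm_102_s t 14 38 1 = true := ex3_a s177_pm_102_s k88_pm_102_s

theorem s179_pm_102_s : ∃ t, chk3 f_pm_102_s t 14 19 1 = true := ex3_b s178_pm_102_s s176_pm_102_s

theorem s180_pm_102_s : ∃ t, chk3 f_pm_102_s t 7 19 1 = true := ex3_a s179_pm_102_s k92_pm_102_s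

theorem s181_pm_102_s : ∃ t, chk3 f_pm_102_s t 15 36 1 = true := ex3_a k83_pm_102_s k84_pm_102_s

theorem s182_pm_102_s : ∃ t, chk3 f_pm_102_s t 15 18 1 = true := ex3_b s181_pm_102_s k85_pm_102_s

theorem s183_pm_102_s : ∃ t, chk3 f_pm_102_s t 29 37 1 = true := ex3_a k81_pm_102_s k82_pm_102_s

theorem s184_pm_102_s : ∃ t, chk3 f_pm_102_s t 59 72 1 = true := ex3_a k78_pm_102_s k79_pm_102_s

theorem s185_pm_102_s : ∃ t, chk3 f_pm_102_s t 59 36 1 = true := ex3_b s184_pm_102_s k80_pm_102_s

theorem s186_pm_102_s : ∃ t, chk3 f_pm_102_s t 116 146 1 = true := ex3_b k74_pm_102_s k75_pm_102_s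

theorem s187_pm_102_s : ∃ t, chk3 f_pm_102_s t 116 73 1 = true := ex3_b s186_pm_102_s k76_pm_102_s

theorem s188_pm_102_s : ∃ t, chk3 f_pm_102_s t 58 73 1 = true := ex3_a s187_pm_102_s k77_pm_102_s

theorem s189_pm_102_s : ∃ t, chk3 f_pm_102_s t 58 291 1 = true := ex3_b k72_pm_102_s k73_pm_102_s

theorem s190_pm_102_s : ∃ t, chk3 f_pm_102_s t 58 145 1 = true := ex3_b k71_pm_102_s s189_pm_102_s

theorem s191_pm_102_s : ∃ t, chk3 f_pm_102_s t 58 72 1 = true := ex3_b k70_pm_102_s s190_pm_102_s

theorem s192_pm_102_s : ∃ t, chk3 f_pm_102_s t 58 36 1 = true := ex3_b s191_pm_102_s s188_pm_102_s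

theorem s193_pm_102_s : ∃ t, chk3 f_pm_102_s t 29 36 1 = true := ex3_a s192_pm_102_s s185_pm_102_s

theorem s194_pm_102_s : ∃ t, chk3 f_pm_102_s t 29 18 1 = true := ex3_b s193_pm_102_s s183_pm_102_s

theorem s195_pm_102_s : ∃ t, chk3 f_pm_102_s t 56 150 1 = true := ex3_a k66_pm_102_s k67_pm_102_s

theorem s196_pm_102_s : ∃ t, chk3 f_pm_102_s t 28 150 1 = true := ex3_a s195_pm_102_s k68_pm_102_s

theorem s197_pm_102_s : ∃ t, chk3 f_pm_102_s t 28 75 1 = true := ex3_b s196_pm_102_s k69_pm_102_s

theorem s198_pm_102_s : ∃ t, chk3 f_pm_102_s t 57 297 1 = true := ex3_b k63_pm_102_s k64_pm_102_s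

theorem s199_pm_102_s : ∃ t, chk3 f_pm_102_s t 57 296 1 = true := ex3_a k61_pm_102_s k62_pm_102_s

theorem s200_pm_102_s : ∃ t, chk3 f_pm_102_s t 57 148 1 = true := ex3_b s199_pm_102_s s198_pm_102_s

theorem s201_pm_102_s : ∃ t, chk3 f_pm_102_s t 57 74 1 = true := ex3_b s200_pm_102_s k65_pm_102_s

theorem s202_pm_102_s : ∃ t, chk3 f_pm_102_s t 113 149 1 = true := ex3_b k59_pm_102_s k60_pm_102_s

theorem s203_pm_102_s : ∃ t, chk3 f_pm_102_s t 113 74 1 = true := ex3_b k58_pm_102_s s202_pm_102_s

theorem s204_pm_102_s : ∃ t, chk3 f_pm_102_s t 56 74 1 = true := ex3_a k57_pm_102_s s203_pm_102_s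

theorem s205_pm_102_s : ∃ t, chk3 f_pm_102_s t 28 74 1 = true := ex3_a s204_pm_102_s s201_pm_102_s

theorem s206_pm_102_s : ∃ t, chk3 f_pm_102_s t 28 37 1 = true := ex3_b s205_pm_102_s s197_pm_102_s

theorem s207_pm_102_s : ∃ t, chk3 f_pm_102_s t 115 147 1 = true := ex3_b k55_pm_102_s k56_pm_102_s

theorem s208_pm_102_s : ∃ t, chk3 f_pm_102_s t 115 73 1 = true := ex3_b k54_pm_102_s s207_pm_102_s

theorem s209_pm_102_s : ∃ t, chk3 f_pm_102_s t 57 73 1 = true := ex3_a k53_pm_102_s s208_pm_102_s

theorem s210_pm_102_s : ∃ t, chk3 f_pm_102_s t 57 36 1 = true := ex3_b k52_pm_102_s s209_pm_102_s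

theorem s211_pm_102_s : ∃ t, chk3 f_pm_102_s t 28 36 1 = true := ex3_a k51_pm_102_s s210_pm_102_s

theorem s212_pm_102_s : ∃ t, chk3 f_pm_102_s t 28 18 1 = true := ex3_b s211_pm_102_s s206_pm_102_s

theorem s213_pm_102_s : ∃ t, chk3 f_pm_102_s t 14 18 1 = true := ex3_a s212_pm_102_s s194_pm_102_s

theorem s214_pm_102_s : ∃ t, chk3 f_pm_102_s t 7 18 1 = true := ex3_a s213_pm_102_s s182_pm_102_s

theorem s215_pm_102_s : ∃ t, chk3 f_pm_102_s t 7 9 1 = true := ex3_b s214_pm_102_s s180_pm_102_s

theorem s216_pm_102_s : ∃ t, chk3 f_pm_102_s t 31 17 1 = true := ex3_b k49_pm_102_s k50_pm_102_s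

theorem s217_pm_102_s : ∃ t, chk3 f_pm_102_s t 120 70 1 = true := ex3_a k44_pm_102_s k45_pm_102_s

theorem s218_pm_102_s : ∃ t, chk3 f_pm_102_s t 60 70 1 = true := ex3_a s217_pm_102_s k46_pm_102_s

theorem s219_pm_102_s : ∃ t, chk3 f_pm_102_s t 60 35 1 = true := ex3_b s218_pm_102_s k47_pm_102_s

theorem s220_pm_102_s : ∃ t, chk3 f_pm_102_s t 30 35 1 = true := ex3_a s219_pm_102_s k48_pm_102_s

theorem s221_pm_102_s : ∃ t, chk3 f_pm_102_s t 122 69 1 = true := ex3_b k41_pm_102_s k42_pm_102_s

theorem s222_pm_102_s : ∃ t, chk3 f_pm_102_s t 61 69 1 = true := ex3_a s221_pm_102_s k43_pm_102_s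

theorem s223_pm_102_s : ∃ t, chk3 f_pm_102_s t 246 136 1 = true := ex3_b k37_pm_102_s k38_pm_102_s

theorem s224_pm_102_s : ∃ t, chk3 f_pm_102_s t 123 136 1 = true := ex3_a s223_pm_102_s k39_pm_102_s

theorem s225_pm_102_s : ∃ t, chk3 f_pm_102_s t 123 68 1 = true := ex3_b s224_pm_102_s k40_pm_102_s

theorem s226_pm_102_s : ∃ t, chk3 f_pm_102_s t 122 137 1 = true := ex3_b k35_pm_102_s k36_pm_102_s

theorem s227_pm_102_s : ∃ t, chk3 f_pm_102_s t 122 68 1 = true := ex3_b k34_pm_102_s s226_pm_102_s

theorem s228_pm_102_s : ∃ t, chk3 f_pm_102_s t 61 68 1 = true := ex3_a s227_pm_102_s s225_pm_102_s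

theorem s229_pm_102_s : ∃ t, chk3 f_pm_102_s t 61 34 1 = true := ex3_b s228_pm_102_s s222_pm_102_s

theorem s230_pm_102_s : ∃ t, chk3 f_pm_102_s t 121 139 1 = true := ex3_b k32_pm_102_s k33_pm_102_s

theorem s231_pm_102_s : ∃ t, chk3 f_pm_102_s t 121 69 1 = true := ex3_b k31_pm_102_s s230_pm_102_s

theorem s232_pm_102_s : ∃ t, chk3 f_pm_102_s t 60 69 1 = true := ex3_a k30_pm_102_s s231_pm_102_s

theorem s233_pm_102_s : ∃ t, chk3 f_pm_102_s t 60 34 1 = true := ex3_b k29_pm_102_s s232_pm_102_s

theorem s234_pm_102_s : ∃ t, chk3 f_pm_102_s t 30 34 1 = true := ex3_a s233_pm_102_s s229_pm_102_s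

theorem s235_pm_102_s : ∃ t, chk3 f_pm_102_s t 30 17 1 = true := ex3_b s234_pm_102_s s220_pm_102_s

theorem s236_pm_102_s : ∃ t, chk3 f_pm_102_s t 15 17 1 = true := ex3_a s235_pm_102_s s216_pm_102_s

theorem s237_pm_102_s : ∃ t, chk3 f_pm_102_s t 15 8 1 = true := ex3_b k28_pm_102_s s236_pm_102_s

theorem s238_pm_102_s : ∃ t, chk3 f_pm_102_s t 119 142 1 = true := ex3_a k25_pm_102_s k26_pm_102_s

theorem s239_pm_102_s : ∃ t, chk3 f_pm_102_s t 119 71 1 = true := ex3_b s238_pm_102_s k27_pm_102_s

theorem s240_pm_102_s : ∃ t, chk3 f_pm_102_s t 118 143 1 = true := ex3_b k23_pm_102_s k24_pm_102_s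

theorem s241_pm_102_s : ∃ t, chk3 f_pm_102_s t 118 71 1 = true := ex3_b k22_pm_102_s s240_pm_102_s

theorem s242_pm_102_s : ∃ t, chk3 f_pm_102_s t 59 71 1 = true := ex3_a s241_pm_102_s s239_pm_102_s

theorem s243_pm_102_s : ∃ t, chk3 f_pm_102_s t 59 35 1 = true := ex3_b k21_pm_102_s s242_pm_102_s

theorem s244_pm_102_s : ∃ t, chk3 f_pm_102_s t 29 35 1 = true := ex3_a k20_pm_102_s s243_pm_102_s

theorem s245_pm_102_s : ∃ t, chk3 f_pm_102_s t 29 17 1 = true := ex3_b k19_pm_102_s s244_pm_102_s

theorem s246_pm_102_s : ∃ t, chk3 f_pm_102_s t 14 17 1 = true := ex3_a k18_pm_102_s s245_pm_102_s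

theorem s247_pm_102_s : ∃ t, chk3 f_pm_102_s t 14 8 1 = true := ex3_b k17_pm_102_s s246_pm_102_s

theorem s248_pm_102_s : ∃ t, chk3 f_pm_102_s t 7 8 1 = true := ex3_a s247_pm_102_s s237_pm_102_s

theorem s249_pm_102_s : ∃ t, chk3 f_pm_102_s t 7 4 1 = true := ex3_b s248_pm_102_s s215_pm_102_s

theorem s250_pm_102_s : ∃ t, chk3 f_pm_102_s t 13 19 1 = true := ex3_b k15_pm_102_s k16_pm_102_s

theorem s251_pm_102_s : ∃ t, chk3 f_pm_102_s t 6 19 1 = true := ex3_a k14_pm_102_s s250_pm_102_s

theorem s252_pm_102_s : ∃ t, chk3 f_pm_102_s t 6 9 1 = true := ex3_b k13_pm_102_s s251_pm_102_s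

theorem s253_pm_102_s : ∃ t, chk3 f_pm_102_s t 6 4 1 = true := ex3_b k12_pm_102_s s252_pm_102_s

theorem s254_pm_102_s : ∃ t, chk3 f_pm_102_s t 3 4 1 = true := ex3_a s253_pm_102_s s249_pm_102_s

theorem s255_pm_102_s : ∃ t, chk3 f_pm_102_s t 3 2 1 = true := ex3_b s254_pm_102_s s174_pm_102_s

theorem s256_pm_102_s : ∃ t, chk3 f_pm_102_s t 3 1 1 = true := ex3_b s255_pm_102_s s137_pm_102_s

theorem s257_pm_102_s : ∃ t, chk3 f_pm_102_s t 11 83 1 = true := ex3_a k7_pm_102_s k8_pm_102_s

theorem s258_pm_102_s : ∃ t, chk3 f_pm_102_s t 10 83 1 = true := ex3_a k5_pm_102_s k6_pm_102_s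

theorem s259_pm_102_s : ∃ t, chk3 f_pm_102_s t 5 83 1 = true := ex3_a s258_pm_102_s s257_pm_102_s

theorem s260_pm_102_s : ∃ t, chk3 f_pm_102_s t 5 82 1 = true := ex3_a k3_pm_102_s k4_pm_102_s

theorem s261_pm_102_s : ∃ t, chk3 f_pm_102_s t 5 41 1 = true := ex3_b s260_pm_102_s s259_pm_102_s

theorem s262_pm_102_s : ∃ t, chk3 f_pm_102_s t 5 20 1 = true := ex3_b k2_pm_102_s s261_pm_102_s

theorem s263_pm_102_s : ∃ t, chk3 f_pm_102_s t 5 10 1 = true := ex3_b s262_pm_102_s k9_pm_102_s

theorem s264_pm_102_s : ∃ t, chk3 f_pm_102_s t 2 10 1 = true := ex3_a k1_pm_102_s s263_pm_102_s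

theorem s265_pm_102_s : ∃ t, chk3 f_pm_102_s t 2 5 1 = true := ex3_b s264_pm_102_s k10_pm_102_s

theorem s266_pm_102_s : ∃ t, chk3 f_pm_102_s t 2 2 1 = true := ex3_b k0_pm_102_s s265_pm_102_s

theorem s267_pm_102_s : ∃ t, chk3 f_pm_102_s t 2 1 1 = true := ex3_b s266_pm_102_s k11_pm_102_s

theorem s268_pm_102_s : ∃ t, chk3 f_pm_102_s t 1 1 1 = true := ex3_a s267_pm_102_s s256_pm_102_s

theorem c_pm_102_s : CertNE 536870912 536870912 0 536870912 536870912 50465866 3 eng mog cd0q1 cd0q0 pd2 true true false .npp 1 0 2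
    ndB0q1 ndB0q0 pcB2 cut_pm_102_s Ext.none :=
  certNE1 (fam := true) (s1 := true) (s2 := false) (a := 1) (b := 0) (c := 2) (cn := .npp) (n1 := ndB0q1) (n2 := ndB0q0) (pc := pcB2) (cut := cut_pm_102_s) (xt := Ext.none) (P1 := 536870912) (W1 := 536870912) (P2 := 0) (W2 := 536870912) (P3 := 536870912) (W3 := 50465866) (N0 := 3) (En := eng) (mo := mog) (C1 := cd0q1) (C2 := cd0q0) (C3 := pd2)
    rfl (fun _ => rfl) s268_pm_102_s

noncomputable def cut_pm_102_t : Cut := Cut.of [[⟨3, 0, 0, 2845415833⟩], [⟨0, 1, 0, 67108864⟩, ⟨1, 0, 0, 67108864⟩, ⟨2, 1, 0, 67108864⟩], [⟨0, 1, 0, 33554432⟩, ⟨1, 0, 1, 20971520⟩, ⟨2, 1, 1, 20971520⟩]]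

noncomputable def f_pm_102_t : ℕ → ℕ → ℕ → ℕ → Bool := onCell 536870912 536870912 0 536870912 536870912 50465866
    (rowNE 3 eng mog cd0q1 cd0q0 pd2 0 true true false .npp 1 0 2 (qsf 536870912 536870912 0 536870912 2) ndB0q1 ndB0q0 pcB2 cut_pm_102_t Ext.none)

def k0_pm_102_t : ∃ t, chk3 f_pm_102_t t 1 1 1 = true :=
  ⟨(l 6), by decide +kernel⟩

theorem c_pm_102_t : CertNE 536870912 536870912 0 536870912 536870912 50465866 3 eng mog cd0q1 cd0q0 pd2 true true false .npp 1 0 2
    ndB0q1 ndB0q0 pcB2 cut_pm_102_t Ext.none :=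
  certNE0 (fam := true) (s1 := true) (s2 := false) (a := 1) (b := 0) (c := 2) (cn := .npp) (n1 := ndB0q1) (n2 := ndB0q0) (pc := pcB2) (cut := cut_pm_102_t) (xt := Ext.none) (P1 := 536870912) (W1 := 536870912) (P2 := 0) (W2 := 536870912) (P3 := 536870912) (W3 := 50465866) (N0 := 3) (En := eng) (mo := mog) (C1 := cd0q1) (C2 := cd0q0) (C3 := pd2)
    rfl k0_pm_102_t

noncomputable def cut_pm_112_s : Cut := Cut.of [[⟨4, 0, 0, 1449551462⟩], [⟨0, 0, 1, 20971520⟩, ⟨1, 1, 0, 33554432⟩, ⟨2, 1, 1, 20971520⟩], [⟨0, 1, 0, 33554432⟩, ⟨1, 0, 1, 20971520⟩, ⟨2, 1, 1, 20971520⟩]]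

noncomputable def f_pm_112_s : ℕ → ℕ → ℕ → ℕ → Bool := onCell 1073741824 536870912 536870912 536870912 536870912 50465866
    (rowNE 3 eng mog cd0q1 cd0q1 pd2 2 true true false .dn 1 1 2 (qsf 536870912 536870912 536870912 536870912 2) ndB0q1 ndB0q1 pcB2 cut_pm_112_s Ext.none)

def k0_pm_112_s : ∃ t, chk3 f_pm_112_s t 4 2 1 = true :=
  ⟨(b (l 3) (l 3)), by decide +kernel⟩

def k1_pm_112_s : ∃ t, chk3 f_pm_112_s t 40 2 1 = true :=
  ⟨(b (l 3) (b (l 3) (l 1))), by decide +kernel⟩

def k2_pm_112_s : ∃ t, chk3 f_pm_112_s t 82 4 1 = true :=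
  ⟨(l 3), by decide +kernel⟩

def k3_pm_112_s : ∃ t, chk3 f_pm_112_s t 166 4 1 = true :=
  ⟨(b (b (b (a (l 3) (a (l 3) (a (b (c (l 97341413223) (l 98415154903)) (l 3)) (b (a (l 16779776) (l 16777088)) (l 16780168))))) (l 3)) (l 3)) (l 3)), by decide +kernel⟩

def k4_pm_112_s : ∃ t, chk3 f_pm_112_s t 167 4 1 = true :=
  ⟨(b (a (a (b (a (b (b (c (l 16777032) (l 16776928)) (l 16779784)) (b (l 16779816) (l 3))) (b (b (b (l 16776728) (l 16779504)) (l 16780664)) (b (l 16779808) (l 16782416)))) (l 3)) (a (b (b (b (l 16779320) (l 16779592)) (b (l 16777128) (l 16777192))) (b (l 16782400) (l 3))) (b (b (a (b (l 16776656) (l 16776928)) (b (l 16776624) (l 16776904))) (b (c (l 16777168) (l 16776976)) (l 16782392))) (b (c (l 16782456) (l 16782432)) (l 16782384))))) (a (b (a (a (b (b (c (l 16776776) (l 16776408)) (l 16776872)) (b (l 16777032) (l 16777112))) (a (b (b (c (l 16776800) (l 16776344)) (c (l 16777008) (l 16776672))) (b (l 16777008) (l 16777088))) (b (a (a (b (l 16776576) (l 16782080)) (b (c (l 16776872)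 (l 16776272)) (c (l 16782280) (l 16776632)))) (b (l 16776552) (l 16776824))) (b (b (c (l 16782352) (l 16776808)) (l 16777016)) (l 16777072))))) (b (b (l 16776504) (l 16776784)) (b (l 16776952) (l 16777040)))) (a (a (b (l 16777168) (l 16777216)) (a (b (l 16777152) (l 16777200)) (b (l 16777144) (l 16777192)))) (b (l 16777112) (l 16777168)))) (b (b (b (l 16776352) (l 16776656)) (b (l 16776848) (l 16776952))) (b (l 16777040) (l 16777112))))) (a (b (l 3) (a (l 3) (a (b (l 3) (l 16782424)) (b (l 16782400) (c (l 16782456) (l 16782416)))))) (a (b (a (a (b (l 3) (l 3)) (a (b (l 16777208) (l 16777208)) (b (l 16777208) (l 16777208)))) (b (l 16777192) (l 16777192))) (a (a (b (l 16777208) (l 16777160)) (a (b (l 16777200) (l 16777144)) (b (l 16777184) (l 16777136)))) (b (l 16777168) (l 16777104)))) (b (b (l 16777136) (l 16777136)) (b (l 16777104) (l 16777040)))))), by decide +kernel⟩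

def k5_pm_112_s : ∃ t, chk3 f_pm_112_s t 41 5 1 = true :=
  ⟨(b (a (b (l 3) (l 1)) (a (b (a (l 3) (a (b (l 3) (b (l 3) (c (l 135996119015) (l 144586054407)))) (a (b (l 3) (b (c (l 143512309543) (l 150491631095)) (l 16779760))) (b (b (l 3) (l 153712857207)) (b (l 16780152) (l 16777008)))))) (l 1)) (b (b (b (a (a (c (l 101636384183) (l 102710125751)) (a (l 16777176) (l 16782376))) (a (a (a (l 16777096) (a (l 16777080) (l 16777064))) (l 16777032)) (l 16776952))) (a (a (a (l 16779832) (l 16782384)) (a (l 16777088) (c (l 16777144) (l 16776936)))) (a (a (a (l 16777000) (a (l 16776976) (b (l 16782240) (l 16782168)))) (l 16776928)) (l 16776840)))) (b (a (a (a (l 16779712) (b (l 16777024) (l 16782152))) (a (c (l 16776992) (l 16776800)) (a (l 16776864) (l 16776840)))) (a (a (a (l 16776816) (a (c (l 16776976) (l 16776616)) (b (l 16782080) (l 16781968)))) (l 16776752)) (l 16776640))) (a (a (a (l 16776856) (c (l 16782000) (l 16781832))) (a (l 16781816) (l 16781784))) (a (a (a (l 16781744) (a (l 16781736) (b (l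 16781824) (l 16781640)))) (l 16776448)) (l 16776328))))) (a (l 1) (a (l 1) (b (b (l 16775880) (l 1)) (l 1))))))) (l 1)), by decide +kernel⟩

def k6_pm_112_s : ∃ t, chk3 f_pm_112_s t 21 2 1 = true :=
  ⟨(b (b (b (a (b (a (a (b (l 16775848) (l 16778840)) (b (l 16775000) (l 16775496))) (b (l 16773664) (l 16774360))) (a (a (b (l 16776480) (l 16776640)) (b (l 16775864) (l 16776128))) (b (l 16774904) (l 16775320)))) (b (b (a (l 16771760) (l 16769728)) (a (l 16772736) (l 16770976))) (b (a (l 16773536) (l 16772048)) (a (l 16774176) (l 16772944))))) (a (b (a (b (b (l 16776504) (l 16776560)) (l 16776640)) (b (l 16775640) (l 16775896))) (a (b (l 16776728) (l 16776792)) (l 16776176))) (b (b (a (l 16774712) (l 16773704)) (l 16774744)) (b (l 16775184) (l 16775520))))) (b (a (b (a (b (l 16776832) (l 16776856)) (l 16776400)) (a (b (l 16776864) (l 16776848)) (l 16776456))) (b (l 16775872) (b (l 16776064) (l 16776104)))) (a (b (a (a (l 16776920) (l 16776664)) (l 16776360)) (a (b (l 16776688) (l 16776584)) (l 16776088)))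 (b (b (l 16776064) (l 16775952)) (b (l 16775768) (l 16775512)))))) (b (b (a (b (a (b (b (l 16776496) (l 16776424)) (b (l 16776336) (l 16776232))) (b (l 16775776) (l 16775496))) (a (b (c (l 16777928) (l 16778064)) (c (l 16776336) (l 16774984))) (b (l 16775120) (l 16774640)))) (b (b (l 16775176) (l 16774744)) (b (a (l 16774456) (l 16774040)) (a (l 16773864) (l 16773344))))) (a (b (a (b (c (l 16775928) (l 16774384)) (c (l 16775360) (l 16773616))) (b (l 16774024) (l 16773248))) (a (l 1) (b (l 16782784) (l 1)))) (b (a (b (l 16773144) (l 16772264)) (b (l 16772512) (l 16771528))) (b (a (l 16771200) (l 16770360)) (a (l 16769968) (l 16769016)))))) (b (b (a (l 1) (b (a (l 1) (l 16767496)) (l 1))) (l 1)) (l 1)))), by decide +kernel⟩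

def k7_pm_112_s : ∃ t, chk3 f_pm_112_s t 11 2 1 = true :=
  ⟨(b (b (a (b (a (b (a (a (l 16784600) (l 16767816)) (l 16787168)) (b (l 16790576) (l 16791880))) (b (b (l 16761544) (l 16763864)) (b (l 16765952) (l 16767840)))) (a (b (a (l 16773088) (l 16772056)) (b (l 16773920) (l 16774608))) (b (a (l 16770920) (l 16769720)) (l 16773096)))) (b (b (a (b (l 16755992) (l 16759048)) (a (l 16753232) (l 16750104))) (a (b (l 16761824) (l 16764328)) (l 16790216))) (b (a (b (l 16766640) (l 16768800)) (l 16764776)) (a (l 16771680) (l 16770032))))) (b (a (b (a (b (l 16775168) (l 16775592)) (b (l 16774648) (l 16775432))) (a (l 16775992) (l 16776272))) (b (a (l 16774752) (l 16774320)) (a (l 16776808) (l 16777520)))) (a (b (a (l 16776104) (l 16776768)) (a (l 16775744) (l 16776600))) (b (a (l 16777928) (l 16779504)) (a (l 16778144) (l 16780328)))))) (b (a (b (b (a (b (l 16775168) (l 16774616)) (l 16775752)) (a (b (l 16773912) (l 16773056)) (l 16774176))) (a (b (a (l 16792584) (l 16771480)) (b (l 16790544) (l 16789056)))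 (b (l 16771800) (b (l 16769544) (l 16767808))))) (b (b (a (l 16777488) (l 16780056)) (a (l 16775904) (l 16778664))) (b (a (l 16773336) (l 16776072)) (a (l 16769792) (l 16772280))))) (a (b (b (a (b (l 16787376) (l 16785488)) (b (l 16765912) (l 16763840))) (a (b (l 20434648935) (l 1)) (b (l 16761512) (l 16758928)))) (b (a (l 1) (a (l 1) (l 16775336))) (l 1))) (b (b (a (b (l 16766656) (l 16764312)) (l 16767480)) (a (b (l 16761776) (l 16759024)) (l 16761872))) (b (a (b (l 16755968) (l 16752608)) (l 16776256)) (a (l 18287166647) (l 16747632))))))), by decide +kernel⟩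

def k8_pm_112_s : ∃ t, chk3 f_pm_112_s t 2 3 1 = true :=
  ⟨(a (l 1) (b (a (l 1) (b (a (l 1) (b (b (a (l 1) (l 16738344)) (l 1)) (l 1))) (l 1))) (l 1))), by decide +kernel⟩

def k9_pm_112_s : ∃ t, chk3 f_pm_112_s t 3 2 1 = true :=
  ⟨(a (a (b (b (b (a (b (a (l 16745072) (l 16737592)) (a (l 16753816) (l 16748176))) (b (a (l 16729152) (l 16719512)) (a (l 16741880) (l 16734536)))) (a (b (a (l 16761352) (l 16757432)) (a (l 16768048) (l 16765712))) (a (b (l 16752960) (l 16763008)) (b (l 16747800) (l 16759768))))) (b (a (b (a (l 16773760) (l 16772952)) (a (l 16778248) (l 16778952))) (b (a (l 16771912) (l 16770552)) (l 16800744))) (a (b (a (l 16781392) (l 16783448)) (a (l 16783088) (l 16786312))) (a (l 16787992) (l 16791016))))) (b (b (a (b (a (l 16783408) (l 16787512)) (a (l 16782416) (l 16787104))) (b (l 16794880) (l 16795960))) (a (b (a (l 16780000) (l 16785096)) (a (l 16776152) (l 16781384))) (b (l 16794888) (l 16791736)))) (b (a (b (a (l 16771016) (l 16776112)) (a (l 16764800) (l 16769472))) (b (l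 16786688) (l 16800752))) (a (b (a (l 16757696) (l 16761672)) (a (l 16749496) (l 16752936))) (b (a (l 16767600) (l 16775424)) (a (l 16758096) (l 16765304))))))) (a (b (b (b (b (a (l 16708160) (l 6)) (a (l 16726096) (l 16716008))) (a (l 16748976) (l 16743040))) (b (b (l 16767656) (l 16780096)) (b (l 16790808) (l 16799608)))) (b (a (b (l 16805304) (l 16806728)) (b (l 16812232) (l 16816984))) (a (b (l 16797584) (l 16801112)) (b (l 16809296) (l 16791784))))) (b (b (l 6) (l 6)) (l 6)))) (b (l 6) (l 6))), by decide +kernel⟩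

def k10_pm_112_s : ∃ t, chk3 f_pm_112_s t 3 3 1 = true :=
  ⟨(a (a (b (b (b (a (b (a (l 16740080) (l 16742968)) (a (l 16728736) (l 16731560))) (b (a (l 16747576) (l 16753920)) (l 16759248))) (a (b (a (l 1) (l 16717920)) (l 1)) (b (l 16745072) (a (l 16705584) (l 16710984))))) (b (a (l 1) (b (a (l 1) (l 16691216)) (l 1))) (l 1))) (l 1)) (a (b (b (b (b (l 16767648) (l 16753672)) (b (l 16738416) (l 16721176))) (a (b (a (l 16684992) (l 16688968)) (l 1)) (l 6))) (l 1)) (b (l 6) (l 6)))) (l 6)), by decide +kernel⟩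

theorem s11_pm_112_s : ∃ t, chk3 f_pm_112_s t 3 1 1 = true := ex3_b k9_pm_112_s k10_pm_112_s

theorem s12_pm_112_s : ∃ t, chk3 f_pm_112_s t 83 4 1 = true := ex3_a k3_pm_112_s k4_pm_112_s

theorem s13_pm_112_s : ∃ t, chk3 f_pm_112_s t 41 4 1 = true := ex3_a k2_pm_112_s s12_pm_112_s

theorem s14_pm_112_s : ∃ t, chk3 f_pm_112_s t 41 2 1 = true := ex3_b s13_pm_112_s k5_pm_112_s

theorem s15_pm_112_s : ∃ t, chk3 f_pm_112_s t 20 2 1 = true := ex3_a k1_pm_112_s s14_pm_112_s

theorem s16_pm_112_s : ∃ t, chk3 f_pm_112_s t 10 2 1 = true := ex3_a s15_pm_112_s k6_pm_112_s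

theorem s17_pm_112_s : ∃ t, chk3 f_pm_112_s t 5 2 1 = true := ex3_a s16_pm_112_s k7_pm_112_s

theorem s18_pm_112_s : ∃ t, chk3 f_pm_112_s t 2 2 1 = true := ex3_a k0_pm_112_s s17_pm_112_s

theorem s19_pm_112_s : ∃ t, chk3 f_pm_112_s t 2 1 1 = true := ex3_b s18_pm_112_s k8_pm_112_s

theorem s20_pm_112_s : ∃ t, chk3 f_pm_112_s t 1 1 1 = true := ex3_a s19_pm_112_s s11_pm_112_s

theorem c_pm_112_s : CertNE 536870912 536870912 536870912 536870912 536870912 50465866 3 eng mog cd0q1 cd0q1 pd2 true true false .dn 1 1 2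
    ndB0q1 ndB0q1 pcB2 cut_pm_112_s Ext.none :=
  certNE2 (fam := true) (s1 := true) (s2 := false) (a := 1) (b := 1) (c := 2) (cn := .dn) (n1 := ndB0q1) (n2 := ndB0q1) (pc := pcB2) (cut := cut_pm_112_s) (xt := Ext.none) (P1 := 536870912) (W1 := 536870912) (P2 := 536870912) (W2 := 536870912) (P3 := 536870912) (W3 := 50465866) (N0 := 3) (En := eng) (mo := mog) (C1 := cd0q1) (C2 := cd0q1) (C3 := pd2)
    rfl (fun _ => rfl) s20_pm_112_s

noncomputable def cut_pm_112_t : Cut := Cut.of [[⟨3, 0, 0, 2845415833⟩], [⟨0, 0, 1, 20971520⟩, ⟨1, 1, 0, 33554432⟩, ⟨2, 1, 1, 20971520⟩], [⟨0, 1, 0, 33554432⟩, ⟨1, 0, 1, 20971520⟩, ⟨2, 1, 1, 20971520⟩]]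

noncomputable def f_pm_112_t : ℕ → ℕ → ℕ → ℕ → Bool := onCell 536870912 536870912 1073741824 536870912 536870912 50465866
    (rowNE 3 eng mog cd0q1 cd0q1 pd2 1 true true false .dn 1 1 2 (qsf 536870912 536870912 536870912 536870912 2) ndB0q1 ndB0q1 pcB2 cut_pm_112_t Ext.none)

def k0_pm_112_t : ∃ t, chk3 f_pm_112_t t 1 1 1 = true :=
  ⟨(l 6), by decide +kernel⟩

theorem c_pm_112_t : CertNE 536870912 536870912 536870912 536870912 536870912 50465866 3 eng mog cd0q1 cd0q1 pd2 true true false .dn 1 1 2
    ndB0q1 ndB0q1 pcB2 cut_pm_112_t Ext.none :=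
  certNE1 (fam := true) (s1 := true) (s2 := false) (a := 1) (b := 1) (c := 2) (cn := .dn) (n1 := ndB0q1) (n2 := ndB0q1) (pc := pcB2) (cut := cut_pm_112_t) (xt := Ext.none) (P1 := 536870912) (W1 := 536870912) (P2 := 536870912) (W2 := 536870912) (P3 := 536870912) (W3 := 50465866) (N0 := 3) (En := eng) (mo := mog) (C1 := cd0q1) (C2 := cd0q1) (C3 := pd2)
    rfl (fun _ => rfl) k0_pm_112_t

noncomputable def cut_pm_113_s : Cut := Cut.of [[⟨4, 0, 0, 1449551462⟩], [⟨0, 1, 0, 67108864⟩, ⟨1, 1, 0, 67108864⟩, ⟨2, 2, 0, 16777216⟩], [⟨0, 0, 1, 20971520⟩, ⟨1, 1, 0, 33554432⟩, ⟨2, 1, 1, 20971520⟩], [⟨0, 1, 0, 33554432⟩, ⟨1, 0, 1, 20971520⟩, ⟨2, 1, 1, 20971520⟩]]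

noncomputable def f_pm_113_s : ℕ → ℕ → ℕ → ℕ → Bool := onCell 1610612736 536870912 536870912 536870912 536870912 50465866
    (rowNE 3 eng mog cd0q1 cd0q1 pd3 2 true true false .nn 1 1 3 (qsf 536870912 536870912 536870912 536870912 3) ndB0q1 ndB0q1 pcB3 cut_pm_113_s Ext.none)

def k0_pm_113_s : ∃ t, chk3 f_pm_113_s t 1 1 1 = true :=
  ⟨(a (b (a (l 6) (l 6)) (l 6)) (l 6)), by decide +kernel⟩

theorem c_pm_113_s : CertNE 536870912 536870912 536870912 536870912 536870912 50465866 3 eng mog cd0q1 cd0q1 pd3 true true false .nn 1 1 3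
    ndB0q1 ndB0q1 pcB3 cut_pm_113_s Ext.none :=
  certNE2 (fam := true) (s1 := true) (s2 := false) (a := 1) (b := 1) (c := 3) (cn := .nn) (n1 := ndB0q1) (n2 := ndB0q1) (pc := pcB3) (cut := cut_pm_113_s) (xt := Ext.none) (P1 := 536870912) (W1 := 536870912) (P2 := 536870912) (W2 := 536870912) (P3 := 536870912) (W3 := 50465866) (N0 := 3) (En := eng) (mo := mog) (C1 := cd0q1) (C2 := cd0q1) (C3 := pd3)
    rfl (fun _ => rfl) k0_pm_113_s

noncomputable def cut_pm_113_t : Cut := Cut.of [[⟨3, 0, 0, 2845415833⟩], [⟨0, 1, 0, 67108864⟩, ⟨1, 1, 0, 67108864⟩, ⟨2, 2, 0, 16777216⟩], [⟨0, 0, 1, 20971520⟩, ⟨1, 1, 0, 33554432⟩, ⟨2, 1, 1, 20971520⟩], [⟨0, 1, 0, 33554432⟩, ⟨1, 0, 1, 20971520⟩, ⟨2, 1, 1, 20971520⟩]]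

noncomputable def f_pm_113_t : ℕ → ℕ → ℕ → ℕ → Bool := onCell 536870912 536870912 536870912 536870912 536870912 50465866
    (rowNE 3 eng mog cd0q1 cd0q1 pd3 0 true true false .nn 1 1 3 (qsf 536870912 536870912 536870912 536870912 3) ndB0q1 ndB0q1 pcB3 cut_pm_113_t Ext.none)

def k0_pm_113_t : ∃ t, chk3 f_pm_113_t t 1 1 1 = true :=
  ⟨(a (l 6) (b (l 6) (a (b (l 6) (b (l 6) (a (l 6) (b (l 6) (a (l 6) (b (l 6) (l 16903008))))))) (b (a (l 6) (b (l 6) (a (l 6) (b (l 6) (a (l 6) (l 16887272)))))) (a (b (l 6) (b (a (l 6) (l 16899760)) (a (b (l 16891232) (a (l 16879048) (l 16871800))) (b (l 16831928) (a (l 16862424) (l 16851048)))))) (b (a (b (l 6) (l 16899760)) (a (b (l 16891232) (l 16852904)) (b (l 16896728) (b (l 16862424) (l 16851048))))) (a (b (l 16875544) (b (l 16848616) (a (l 16796144) (b (l 16828320) (l 16798648))))) (b (a (l 16848616) (b (l 16817112) (a (l 16828320) (l 16798648)))) (b (a (l 16826536) (a (l 16813400) (b (l 16808496) (a (l 16803088) (l 16798760))))) (a (b (l 16813400) (a (l 16808496)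 (b (l 16803088) (l 16798760)))) (b (a (l 16801848) (a (l 16795376) (b (l 16793000) (l 16789128)))) (a (b (l 16795376) (b (l 16781672) (a (l 16791920) (l 14)))) (b (a (l 16789520) (l 14)) (l 14)))))))))))))), by decide +kernel⟩

theorem c_pm_113_t : CertNE 536870912 536870912 536870912 536870912 536870912 50465866 3 eng mog cd0q1 cd0q1 pd3 true true false .nn 1 1 3
    ndB0q1 ndB0q1 pcB3 cut_pm_113_t Ext.none :=
  certNE0 (fam := true) (s1 := true) (s2 := false) (a := 1) (b := 1) (c := 3) (cn := .nn) (n1 := ndB0q1) (n2 := ndB0q1) (pc := pcB3) (cut := cut_pm_113_t) (xt := Ext.none) (P1 := 536870912) (W1 := 536870912) (P2 := 536870912) (W2 := 536870912) (P3 := 536870912) (W3 := 50465866) (N0 := 3) (En := eng) (mo := mog) (C1 := cd0q1) (C2 := cd0q1) (C3 := pd3)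
    rfl k0_pm_113_t

noncomputable def cut_pm_123_s : Cut := Cut.of [[⟨4, 0, 0, 1449551462⟩], [⟨0, 1, 0, 67108864⟩, ⟨1, 1, 0, 67108864⟩, ⟨2, 2, 0, 16777216⟩], [⟨0, 0, 1, 20971520⟩, ⟨1, 1, 0, 33554432⟩, ⟨2, 1, 1, 20971520⟩]]

noncomputable def f_pm_123_s : ℕ → ℕ → ℕ → ℕ → Bool := onCell 536870912 536870912 0 536870912 536870912 50465866
    (rowNE 3 eng mog cd0q1 cd0q2 pd3 0 true true false .npn 1 2 3 (qsf 536870912 536870912 0 536870912 3) ndB0q1 ndB0q2 pcB3 cut_pm_123_s Ext.none)

def k0_pm_123_s : ∃ t, chk3 f_pm_123_s t 1 1 1 = true :=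
  ⟨(l 6), by decide +kernel⟩

theorem c_pm_123_s : CertNE 536870912 536870912 0 536870912 536870912 50465866 3 eng mog cd0q1 cd0q2 pd3 true true false .npn 1 2 3
    ndB0q1 ndB0q2 pcB3 cut_pm_123_s Ext.none :=
  certNE0 (fam := true) (s1 := true) (s2 := false) (a := 1) (b := 2) (c := 3) (cn := .npn) (n1 := ndB0q1) (n2 := ndB0q2) (pc := pcB3) (cut := cut_pm_123_s) (xt := Ext.none) (P1 := 536870912) (W1 := 536870912) (P2 := 0) (W2 := 536870912) (P3 := 536870912) (W3 := 50465866) (N0 := 3) (En := eng) (mo := mog) (C1 := cd0q1) (C2 := cd0q2) (C3 := pd3)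
    rfl k0_pm_123_s

end Pool.Agent.Strip051.G.I5000_5470.Tab.CS.BA00

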