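import Pool.Agent.Strip051.G.I5000_5470.Tab
import Pool.Agent.Strip051.PB.StripB

/-! # Strips, near vertex: certificates 3 (generated) -/

set_option linter.all false
set_option maxRecDepth 100000

namespace Pool.Agent.Strip051.G.I5000_5470.Tab.CS.BA00

open Pool.Agent.Strip051.PB Pool.Agent.Strip051.PB.T
open Pool.Agent.Strip051.G.I5000_5470.Tab

noncomputable def cut_pm_123_t : Cut := Cut.of [[⟨3, 0, 0, 2845415833⟩], [⟨0, 1, 0, 67108864⟩, ⟨1, 1, 0, 67108864⟩, ⟨2, 2, 0, 16777216⟩], [⟨0, 0, 1, 20971520⟩, ⟨1, 1, 0, 33554432⟩, ⟨2, 1, 1, 20971520⟩]]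

noncomputable def f_pm_123_t : ℕ → ℕ → ℕ → ℕ → Bool := onCell 1610612736 536870912 0 536870912 536870912 50465866
    (rowNE 3 eng mog cd0q1 cd0q2 pd3 2 true true false .npn 1 2 3 (qsf 536870912 536870912 0 536870912 3) ndB0q1 ndB0q2 pcB3 cut_pm_123_t Ext.none)

def k0_pm_123_t : ∃ t, chk3 f_pm_123_t t 2 1 1 = true :=
  ⟨(a (b (b (l 1) (l 6)) (l 6)) (b (a (b (a (a (l 1) (b (l 16742240) (l 16729552))) (b (b (l 16758408) (l 16752584)) (l 16725016))) (b (a (l 16712792) (b (l 16742528) (l 16741088))) (l 6))) (b (b (a (b (l 16790016) (l 16764584)) (b (a (l 16774760) (b (l 101166632983) (l 16776240))) (a (l 16771976) (l 16775056)))) (a (a (l 16756200) (l 16763408)) (a (l 16769920) (l 16774456)))) (b (a (b (l 16757536) (l 16759056)) (b (l 16773160) (l 16775696))) (a (b (l 16762208) (l 6)) (b (l 16780000) (l 16785616)))))) (b (a (l 6) (l 6)) (l 6)))), by decide +kernel⟩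

def k1_pm_123_t : ∃ t, chk3 f_pm_123_t t 6 2 1 = true :=
  ⟨(a (b (b (a (b (a (b (l 4) (l 102777245703)) (l 4)) (a (l 16776744) (b (a (l 83986760759) (l 132841994695)) (l 48553285719)))) (b (l 4) (a (b (l 4) (a (l 90429217591) (l 154853701527))) (l 4)))) (a (a (l 16777272) (b (l 16777848) (l 16779280))) (b (a (b (a (l 16777664) (l 16782768)) (l 16778304)) (b (a (l 107072191943) (l 162369893479)) (a (l 16777976) (l 68417506007)))) (a (l 16779888) (l 16779680))))) (b (a (a (l 16781440) (l 16784048)) (a (l 16766432) (b (l 16783320) (l 16788656)))) (a (b (l 16790256) (l 16797184)) (b (a (l 16794304) (l 16795800)) (a (l 16802312) (l 16804080)))))) (b (b (l 4) (b (a (a (b (l 4) (a (l 121567726727) (l 4))) (l 4)) (l 4)) (a (a (b (a (l 16778120) (b (l 108145959719) (l 16777720))) (l 16779384)) (b (a (l 142505691223) (l 4)) (a (l 56069472711) (b (l 151632476247) (l 88281729095))))) (l 4)))) (a (b (a (b (l 16782616) (l 16788144)) (b (b (l 16784704) (l 16781832)) (l 16765192))) (b (l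 16794600) (a (l 16804048) (l 16801856)))) (b (a (b (b (a (b (l 105461605127) (l 16778104)) (b (l 4) (l 124788952631))) (a (l 16779808) (b (l 65733147495) (l 16779064)))) (a (l 16762968) (l 16782720))) (b (b (l 4) (a (b (l 145190025495) (l 86134247495)) (l 4))) (b (a (l 16779608) (b (l 106535342359) (l 16778488))) (a (l 16782848) (l 16780936))))) (b (a (l 16790296) (l 16787576)) (a (l 16777256) (l 16795696))))))), by decide +kernel⟩

def k2_pm_123_t : ∃ t, chk3 f_pm_123_t t 6 3 1 = true :=
  ⟨(b (a (b (a (b (l 16804992) (l 16814736)) (b (l 16812352) (l 16821560))) (a (l 6) (b (l 16832216) (l 16842504)))) (b (a (b (a (l 16812880) (l 16810184)) (l 16841496)) (b (a (b (l 16804280) (l 16808152)) (l 16803520)) (a (l 16813848) (l 16810144)))) (a (b (l 16849736) (l 16857976)) (b (a (l 16820872) (l 16816344)) (a (l 16828288) (l 16822960)))))) (a (l 6) (b (a (b (a (l 16848848) (l 16843344)) (l 16856968)) (b (a (l 16836896) (l 16831144)) (a (l 16847320) (l 16841800)))) (a (l 6) (b (a (l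 16860072) (l 16854816)) (a (l 6) (l 16869888))))))), by decide +kernel⟩

def k3_pm_123_t : ∃ t, chk3 f_pm_123_t t 7 2 1 = true :=
  ⟨(a (b (l 4) (a (b (b (l 4) (a (b (a (a (l 134452618023) (l 4)) (l 4)) (a (b (l 73786211543) (l 16779544)) (b (l 151632476055) (a (l 16777904) (l 129620769975))))) (l 4))) (a (b (a (l 16784320) (b (l 51774500023) (l 16783632))) (l 16790992)) (b (a (b (b (a (l 109756562215) (l 4)) (a (l 16778664) (l 84523626935))) (l 16780784)) (b (b (l 4) (l 151632486487)) (b (a (l 74323076855) (l 134452608007)) (l 60364434055)))) (a (l 16786752) (b (l 16781672) (l 16785600)))))) (b (l 4) (a (b (b (l 4) (a (b (l 4) (a (l 122104577463) (l 4))) (l 4))) (a (b (b (a (l 16778472) (l 97408532279)) (l 16779560)) (l 16782512)) (b (b (l 4) (a (l 94187305479) (l 165591120167))) (a (l 16780104) (b (l 87207982071) (l 16779384)))))) (b (l 4) (a (b (l 4) (a (b (l 155927443991) (l 81839272151)) (b (l 4) (b (l 4) (l 114588401543))))) (l 4))))))) (l 4)), by decide +kernel⟩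

def k4_pm_123_t : ∃ t, chk3 f_pm_123_t t 14 3 1 = true :=
  ⟨(b (a (b (a (b (l 16798968) (b (l 16804072) (l 16807112))) (b (l 16792936) (b (l 16798680) (l 16801648)))) (b (a (l 16811528) (l 16806232)) (a (l 16817896) (l 16812800)))) (b (a (b (a (l 16788288) (b (l 16783112) (l 16765848))) (a (l 16795680) (l 16792304))) (b (a (b (a (l 16780560) (b (a (l 16778336) (l 85597366455)) (l 16779792))) (l 16783496)) (b (a (b (a (l 116199013767) (l 4)) (a (l 16778488) (l 80228656871))) (b (l 4) (a (l 118346498199) (l 4)))) (a (l 16780912) (b (l 66270014551) (l 16780080))))) (a (l 16783784) (b (l 16783816) (l 16777096))))) (b (a (b (a (l 16800400) (l 16797712)) (l 16802264)) (a (b (l 16794624) (l 16798112)) (b (l 16791392) (b (l 16794296) (l 16796280))))) (a (l 16807504) (b (a (l 16801632) (l 16798720)) (l 16803968)))))) (b (a (b (a (l 16826240) (l 16821160)) (a (l 16836880) (l 16831944))) (a (b (l 16816048) (b (l 16823600) (l 16829176))) (b (b (l 16808112) (l 16812632)) (b (l 16817464)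 (l 16822552))))) (a (b (a (l 16850040) (l 16844616)) (a (l 16864424) (l 16857840))) (b (a (b (l 16835216) (l 16841072)) (b (l 16827656) (l 16832600))) (a (b (l 16846672) (l 16851848)) (b (l 16836992) (l 16840832))))))), by decide +kernel⟩

def k5_pm_123_t : ∃ t, chk3 f_pm_123_t t 30 12 1 = true :=
  ⟨(a (b (a (b (l 4) (a (b (a (l 122104594983) (l 219815082391)) (a (l 16778696) (l 75396818647))) (b (l 4) (a (b (l 224646921143) (l 16781128)) (l 233773726055))))) (l 4)) (a (b (a (l 16781144) (b (a (l 16778728) (l 76470560983)) (l 16780200))) (l 16784088)) (b (a (b (a (b (l 4) (l 128547039159)) (l 4)) (a (l 16778696) (l 81839271383))) (b (l 4) (a (b (l 4) (l 143042554311)) (l 4)))) (a (l 16781192) (b (a (l 16778608) (b (l 158611809383) (l 16778032))) (l 16780088)))))) (b (l 4) (a (b (l 4) (a (b (a (b (l 4) (c (l 170422965175) (l 171496709383))) (l 4)) (a (b (l 16777952) (l 16778928)) (a (b (l 133378873927) (l 16778064)) (b (l 271891561607) (l 82913007255))))) (b (l 4) (a (a (a (b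 (l 4) (l 141968806951)) (l 255248563079)) (l 4)) (l 4))))) (l 4)))), by decide +kernel⟩

def k6_pm_123_t : ∃ t, chk3 f_pm_123_t t 60 13 1 = true :=
  ⟨(b (a (b (l 16777496) (l 16791936)) (b (a (l 16785176) (l 16783144)) (l 16782960))) (a (b (b (l 16795008) (l 16796656)) (l 16799536)) (b (a (l 16793368) (l 16791296)) (b (a (l 16796120) (l 16794480)) (l 16797096))))), by decide +kernel⟩

def k7_pm_123_t : ∃ t, chk3 f_pm_123_t t 122 26 1 = true :=
  ⟨(b (a (b (l 16779904) (l 16781968)) (b (a (a (l 16778448) (b (b (l 175254802615) (l 16777600)) (l 16778360))) (a (b (b (l 4) (l 195655895351)) (l 56606330455)) (b (l 4) (b (l 222499440823) (c (l 88281714615) (l 87744843863)))))) (a (l 16780232) (l 16776392)))) (a (l 16785064) (b (l 16779088) (a (l 16784384) (l 16783200))))), by decide +kernel⟩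

def k8_pm_123_t : ∃ t, chk3 f_pm_123_t t 123 52 1 = true :=
  ⟨(a (b (a (a (a (b (l 4) (l 262227885431)) (l 4)) (l 4)) (l 4)) (b (a (a (a (l 50700749239) (b (a (l 123715193831) (l 179012896823)) (l 16777640))) (b (l 4) (a (c (l 94187293831) (l 93650422903)) (a (l 164517382423) (l 275649658535))))) (l 4)) (a (a (l 16778592) (c (l 36742104759) (l 34057750151))) (a (a (b (b (l 210688279687) (l 81839261591)) (l 16777728)) (a (b (l 255248563927) (l 16777488)) (b (l 4) (b (l 136600094455) (l 16777448))))) (b (l 4) (a (b (l 292829527751) (a (l 89892324887) (c (l 176865412311) (l 179012895895)))) (l 4))))))) (l 4)), by decide +kernel⟩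

def k9_pm_123_t : ∃ t, chk3 f_pm_123_t t 246 53 1 = true :=
  ⟨(a (b (l 16778552) (l 16776728)) (b (a (c (l 16777320) (l 16777520)) (b (b (a (l 16777600) (b (a (b (l 165054252903) (l 16777296)) (l 261691014983)) (a (l 16777480) (b (l 101703484615) (l 16777376))))) (l 16777312)) (l 16778768))) (l 16779216))), by decide +kernel⟩

def k10_pm_123_t : ∃ t, chk3 f_pm_123_t t 247 106 1 = true :=
  ⟨(b (a (a (a (b (a (b (l 4) (b (l 290682044263) (a (l 16777264) (l 167201735591)))) (l 4)) (b (a (l 16777408) (b (a (l 133915739095) (l 213372633991)) (l 16777480))) (l 16777592))) (b (l 4) (b (a (b (l 4) (a (l 168812348263) (l 4))) (l 4)) (a (a (l 16777384) (b (l 123178320807) (l 16777360))) (b (l 241826791303) (a (l 16777288) (l 159148671863))))))) (a (b (l 4) (c (l 297661365911) (l 298735107495))) (l 4))) (l 4)) (b (a (a (c (l 16777192) (l 16777144)) (a (b (a (b (a (l 113514644327) (l 199950861047)) (l 16777336)) (a (b (l 4) (l 147874382791)) (l 284239593287))) (a (l 16777536) (c (l 72712454951)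 (c (l 70564971287) (l 69491229463))))) (b (l 4) (a (a (b (l 190824055559) (l 16777296)) (b (l 4) (l 141968802759))) (l 278334013223))))) (l 4)) (a (a (l 16778360) (a (l 16777848) (b (b (a (l 16777392) (a (l 98482258599) (c (l 182770991895) (l 185992217335)))) (l 16777440)) (l 16777640)))) (a (a (b (a (a (b (l 4) (c (l 134989480919) (l 135526351831))) (l 267059724119)) (l 4)) (a (c (l 66806874791) (l 64659391127)) (a (b (c (l 176865411879) (l 180086637319)) (l 16777312)) (b (l 4) (c (l 130157642727) (l 130694513639)))))) (a (b (l 4) (c (l 268670336871) (l 272965304055))) (l 4))) (l 4))))), by decide +kernel⟩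

def k11_pm_123_t : ∃ t, chk3 f_pm_123_t t 247 107 1 = true :=
  ⟨(a (b (a (l 16776536) (a (l 16777344) (l 16777000))) (l 16778576)) (a (b (b (a (l 16777040) (b (b (a (a (l 89892323959) (c (l 173107315495) (b (l 145190025911) (l 135526351575)))) (l 4)) (a (l 16777360) (a (c (l 126936417191) (l 127473288167)) (l 233236856759)))) (a (l 16777560) (a (l 16777432) (l 69491229271))))) (c (l 16778080) (l 16778024))) (l 16777544)) (b (b (a (b (l 4) (b (a (b (l 274039046039) (a (l 132305126119) (l 4))) (l 4)) (a (a (l 16777320) (c (l 124252062551) (l 124252062551))) (c (l 248806113847) (l 252027339255))))) (l 4)) (b (b (a (a (l 16777408) (a (l 16777488) (a (l 144116286247) (b (l 4) (l 173107315095))))) (l 4)) (a (l 16777456) (a (a (a (l 16777264) (l 143579415335)) (b (l 4) (l 201561473479))) (l 4)))) (a (l 16777656) (a (c (l 63048778263) (l 61438165559)) (b (b (l 270280949655) (a (l 131231384263) (l 4))) (a (l 16777328) (b (l 161296155271) (l 16777272)))))))) (a (l 16777024) (b (l 16777048)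 (l 16778240)))))), by decide +kernel⟩

def k12_pm_123_t : ∃ t, chk3 f_pm_123_t t 61 27 1 = true :=
  ⟨(a (b (a (l 16778704) (b (l 16785872) (l 16787976))) (b (a (l 16792392) (l 16790152)) (a (l 16794480) (l 16792472)))) (b (a (b (l 16780808) (l 16780312)) (b (a (l 16778856) (a (l 16780456) (b (l 16776600) (l 16780296)))) (a (l 16783616) (l 16777024)))) (a (b (l 16787744) (l 16789992)) (b (l 16785144) (l 16776880))))), by decide +kernel⟩

def k13_pm_123_t : ∃ t, chk3 f_pm_123_t t 30 7 1 = true :=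
  ⟨(b (a (b (b (a (l 16803464) (l 16800064)) (a (l 16807696) (l 16804080))) (b (l 16810200) (a (l 16816568) (l 16812096)))) (b (a (b (b (l 16795264) (l 16797288)) (l 16800008)) (b (a (b (l 16792328) (l 16794072)) (b (l 16779112) (l 16791816))) (a (l 16796712) (l 16794184)))) (b (a (l 16803648) (l 16798680)) (l 16804456)))) (b (a (b (l 16818432) (l 16822192)) (b (l 16802208) (l 16810184))) (a (b (l 16825480) (l 16828240)) (b (l 16791608) (l 16793496))))), by decide +kernel⟩

def k14_pm_123_t : ∃ t, chk3 f_pm_123_t t 62 12 1 = true :=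
  ⟨(l 4), by decide +kernel⟩

def k15_pm_123_t : ∃ t, chk3 f_pm_123_t t 62 26 1 = true :=
  ⟨(a (b (l 4) (a (b (l 4) (a (a (a (b (a (b (l 4) (b (l 4) (b (l 4) (a (b (l 4) (l 202635215303)) (l 4))))) (l 4)) (b (b (b (a (a (l 85060485671) (b (a (l 235384340695) (l 4)) (l 130694513399))) (l 4)) (a (l 16777368) (a (b (l 163443638919) (l 16777272)) (c (l 232163114951) (l 235384340391))))) (a (l 16777568) (c (l 65733132871) (c (l 62511907335) (l 61975036455))))) (l 16777888))) (b (l 4) (b (b (l 4) (b (a (b (l 278870884247) (a (l 133915738855) (l 4))) (l 4)) (a (a (l 16777320) (b (c (l 167738606183) (l 170422960727)) (l 16777272))) (a (b (l 4) (l 211762020807)) (l 4))))) (b (b (a (l 16777408) (a (l 89892323879) (a (b (l 254711693511) (l 16777248)) (b (l 4) (l 188676571527))))) (l 16777128)) (l 16777656))))) (b (l 4) (b (l 4) (a (b (b (l 4) (a (a (a (l 104387838535) (b (l 260617273543) (l 16777240))) (c (l 246658629575) (l 249879854999))) (l 4))) (a (b (c (l 80765518455) (c (l 79691776631)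 (l 78618034807))) (l 16777448)) (a (b (b (l 286923947959) (c (l 144653157079) (l 145726898903))) (l 16777312)) (b (l 4) (b (c (l 184918475319) (l 188139700775)) (l 16777424)))))) (a (a (a (b (l 4) (c (l 272965304215) (l 277260271447))) (l 4)) (l 4)) (l 4)))))) (l 4))) (l 4))) (l 4)), by decide +kernel⟩

def k16_pm_123_t : ∃ t, chk3 f_pm_123_t t 496 108 1 = true :=
  ⟨(a (b (c (l 16777240) (l 16777160)) (l 16776960)) (b (b (a (a (l 16777792) (l 16776952)) (b (b (a (a (b (l 125325804215) (l 16777296)) (b (l 307325042615) (c (l 157001187991) (l 159148671623)))) (l 4)) (a (l 16777352) (a (b (c (l 196729635367) (l 199950860823)) (l 102777225703)) (l 272965304231)))) (a (l 16777560) (a (l 16777416) (a (l 16777352) (b (c (l 124788933351) (l 124252062439)) (l 16777368))))))) (c (l 16777416) (l 16777368))) (l 16778200))), by decide +kernel⟩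

def k17_pm_123_t : ∃ t, chk3 f_pm_123_t t 497 108 1 = true :=
  ⟨(a (b (a (b (b (l 4) (b (b (l 4) (a (a (a (l 134989480439) (l 250953597143)) (l 4)) (l 4))) (a (a (l 16777304) (b (a (l 189213442439) (l 4)) (c (l 114588385831) (l 114051514919)))) (l 300882591591)))) (b (a (l 16777456) (b (a (b (a (l 16777240) (l 191897797079)) (l 16777280)) (b (l 4) (b (l 246121758999) (l 161296155191)))) (a (l 16777384) (l 81839260103)))) (l 16776976))) (b (l 4) (b (b (l 4) (a (a (a (b (l 217667600695) (l 16777256)) (b (l 4) (l 163443638759))) (l 316988718983)) (l 4))) (b (b (a (a (l 16777296) (a (l 125862674871) (l 233773728039))) (l 4)) (a (l 16777320) (a (a (l 174181056999) (l 4)) (l 4)))) (a (l 16777416) (a (c (l 92576678439) (c (l 91502936615) (l 90966065703))) (b (l 274039046087) (a (l 16777248) (l 195119022471))))))))) (b (a (l 16778040) (c (l 16777104) (a (l 16777744) (l 16777232)))) (l 16777736))) (b (l 4) (b (a (b (b (a (a (b (a (l 150021865959) (l 281555239063)) (l 95261032887))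 (c (l 262227886023) (c (l 265985982359) (l 267596595079)))) (l 4)) (b (a (a (l 16777328) (a (l 16777256) (l 162906767847))) (l 317525589879)) (a (l 16777344) (a (a (l 125862674871) (l 234310598951)) (l 4))))) (b (a (l 16777448) (a (l 16777304) (b (a (l 175791669735) (l 4)) (c (l 112977773111) (l 112440902199))))) (l 16777160))) (b (l 4) (a (a (b (l 291218915223) (a (l 16777400) (b (l 192434667991) (l 16777264)))) (a (b (l 4) (b (l 4) (l 155390575079))) (l 314841235303))) (l 4)))) (a (c (l 16777840) (l 16777808)) (b (a (a (l 16777456) (a (l 16777384) (b (l 74323067335) (l 16777400)))) (b (a (a (b (l 223573180711) (l 16777256)) (b (l 4) (l 170422960615))) (l 4)) (a (l 16777328) (b (a (l 134989480455) (l 252027338967)) (l 16777352))))) (l 16777168)))))), by decide +kernel⟩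

def k18_pm_123_t : ∃ t, chk3 f_pm_123_t t 248 109 1 = true :=
  ⟨(b (a (l 16780296) (a (l 16779200) (a (l 16777328) (b (l 16777328) (l 16778528))))) (a (l 16776144) (c (l 16779976) (l 16779848)))), by decide +kernel⟩

def k19_pm_123_t : ∃ t, chk3 f_pm_123_t t 996 54 1 = true :=
  ⟨(a (b (b (l 4) (b (l 4) (b (a (b (l 4) (a (a (b (l 4) (l 194045280647)) (l 4)) (l 4))) (l 4)) (b (a (b (a (a (l 16777264) (l 146263769655)) (l 297661366199)) (a (l 16777304) (a (l 116735869351) (l 213909504391)))) (l 4)) (a (c (l 16777368) (l 16777360)) (a (b (a (c (l 166664864231) (l 168812347879)) (a (l 156464315559) (l 4))) (c (l 16777416) (l 107609063911))) (c (l 286387077047) (l 291218915207)))))))) (b (b (b (a (l 16777560) (b (a (l 16777352) (a (l 16777360) (b (l 193508409735) (l 16777264)))) (l 16777440))) (l 16777736)) (l 16778144)) (l 16778960))) (b (l 4) (b (a (b (b (b (a (a (b (l 4) (l 146800640567)) (l 303030075303)) (l 4)) (a (c (l 16777296) (l 68954358167)) (a (b (l 221962567991) (l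 16777256)) (b (l 4) (c (l 169349218791) (l 171496702439)))))) (l 16777120)) (l 16777856)) (b (b (l 4) (b (b (a (a (l 136600093175) (l 256859177175)) (l 4)) (a (l 72712454503) (a (l 199950860679) (l 4)))) (a (l 16777368) (a (l 16777296) (a (l 74859938183) (b (l 192971538759) (l 16777272))))))) (l 16777168))) (l 16777256)))), by decide +kernel⟩

def k20_pm_123_t : ∃ t, chk3 f_pm_123_t t 997 54 1 = true :=
  ⟨(b (l 4) (b (b (b (l 4) (b (l 4) (a (a (b (l 316451848055) (a (a (l 123715191239) (l 232163115303)) (l 4))) (l 4)) (l 4)))) (a (b (b (a (a (l 16777312) (b (a (c (l 175791669735) (l 178476024295)) (l 4)) (a (l 16777272) (l 144116285943)))) (c (l 309472526215) (l 314304364343))) (a (l 16777392) (a (a (l 72175583607) (b (c (l 208540795271) (l 213372633463)) (l 16777256))) (a (b (l 4) (c (l 165054251495) (l 167201735143))) (l 327189266343))))) (a (l 16777600) (a (l 16777448) (a (l 16777376) (b (b (l 134452609543) (l 16777296)) (l 16777392)))))) (b (l 4) (a (b (a (a (b (l 247732371751)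 (l 16777248)) (b (l 4) (c (l 195655893399) (l 192434667991)))) (l 4)) (a (l 16777320) (b (b (l 251490468135) (c (l 165054251591) (c (l 167738606135) (l 173107315175)))) (c (l 16777264) (l 77007421911))))) (a (a (b (l 4) (c (l 266522853335) (l 271354691495))) (l 4)) (l 4)))))) (b (a (l 16777416) (a (b (l 16777144) (l 16777744)) (b (b (b (a (a (l 16777256) (c (l 179549766119) (l 183307862487))) (l 4)) (a (l 16777296) (a (c (l 147874382327) (l 150021865959)) (l 280481497287)))) (a (l 16777392) (c (l 71101841831) (l 70028100007)))) (l 16777216)))) (c (l 16777616) (l 16776920))))), by decide +kernel⟩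

def k21_pm_123_t : ∃ t, chk3 f_pm_123_t t 499 108 1 = true :=
  ⟨(l 4), by decide +kernel⟩

def k22_pm_123_t : ∃ t, chk3 f_pm_123_t t 998 109 1 = true :=
  ⟨(b (l 4) (a (b (b (b (l 4) (a (a (a (b (c (l 216056988039) (l 220888826231)) (l 16777336)) (b (l 4) (c (l 173107315175) (l 174717927911)))) (l 4)) (l 4))) (a (b (a (l 16777328) (b (a (c (l 142505673207) (l 143579415031)) (c (l 268670337239) (l 274575917255))) (c (l 73786196327) (l 16777272)))) (c (l 16777416) (l 16777408))) (b (a (a (b (l 4) (b (l 4) (a (l 141968802055) (l 267059724391)))) (l 4)) (l 4)) (b (a (a (c (l 16777256) (l 16777256)) (c (b (l 171496702519) (l 133915738471)) (l 169886089703))) (c (l 333094846407) (l 334705459095))) (a (l 16777304) (c (c (c (c (l 150558737367) (l 152169350103)) (l 151632479191)) (l 177402282599)) (a (l 138747576823) (l 264912240839)))))))) (a (c (l 16777760) (l 16777744)) (b (a (l 16777224) (b (c (c (l 69491229031) (l 16777304)) (l 16777304)) (l 16777440))) (l 16777360)))) (b (l 4)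 (a (b (b (a (b (a (c (c (a (l 163980509687) (l 180623508103)) (l 205319569799)) (l 199950860759)) (l 4)) (c (c (c (l 131768255127) (l 16777560)) (l 131231384215)) (a (l 16777264) (l 166127993319)))) (c (l 330410491815) (l 332557975399))) (c (a (l 16777336) (b (c (c (l 150021866455) (l 151095608279)) (l 151095607623)) (c (l 16777360) (l 16777272)))) (a (l 16777336) (a (l 77544292871) (b (l 258469789943) (l 16777248)))))) (c (l 16777168) (l 16777480))) (b (b (l 4) (a (a (b (l 4) (c (c (c (l 159685542631) (l 161296155351)) (l 201024602519)) (l 197266506199))) (l 4)) (l 4))) (b (c (a (c (c (l 79691776615) (l 77544292967)) (l 78081163879)) (b (l 325578653639) (c (c (l 150021866455) (c (l 151632479191) (l 150558737367))) (l 151095608279)))) (b (a (a (l 16777264) (l 163980509671)) (l 328799879063)) (a (l 16777304) (a (l 133378867639) (l 256322306295))))) (c (c (c (l 16777360) (l 16777360)) (l 16777360)) (c (l 16777352) (l 16777352))))))))), by decide +kernel⟩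

def k23_pm_123_t : ∃ t, chk3 f_pm_123_t t 999 109 1 = true :=
  ⟨(b (l 4) (b (l 4) (b (l 4) (b (l 4) (a (a (a (b (a (c (c (a (l 160222413303) (l 178476024455)) (l 200487731607)) (l 196192764375)) (l 4)) (c (c (c (l 130694513271) (l 130694513255)) (l 129083900519)) (a (l 16777264) (l 163980509671)))) (c (c (l 329336750007) (l 332557975447)) (l 332021104487))) (l 4)) (l 4)))))), by decide +kernel⟩

def k24_pm_123_t : ∃ t, chk3 f_pm_123_t t 248 55 1 = true :=
  ⟨(b (a (l 16777800) (b (l 16781008) (l 16776856))) (a (l 16785248) (l 16783744))), by decide +kernel⟩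

def k25_pm_123_t : ∃ t, chk3 f_pm_123_t t 498 110 1 = true :=
  ⟨(a (a (l 16780592) (l 16777584)) (b (a (l 16779264) (l 16777552)) (l 16780152))), by decide +kernel⟩

def k26_pm_123_t : ∃ t, chk3 f_pm_123_t t 499 110 2 = true :=
  ⟨(b (b (a (c (c (l 16777200) (l 16777352)) (l 16777344)) (a (a (a (c (l 16777552) (l 16777544)) (b (b (b (c (c (l 150558737367) (c (l 150558737367) (l 151632479191))) (l 151095608279)) (c (l 16777272) (l 16777272))) (l 16777208)) (l 16777576))) (b (b (a (a (b (l 4) (c (l 161296155367) (l 201561473431))) (l 4)) (l 4)) (a (c (c (l 81302389431) (b (l 132305125991) (l 16777304))) (l 78081163879)) (b (c (l 328263008215) (l 332021104567)) (c (a (l 16777392) (l 175791670055)) (l 177402282631))))) (c (c (l 16777432) (l 16777264)) (l 16777424)))) (b (l 4) (b (a (a (b (a (c (l 161296155447) (l 208540795271)) (l 4)) (c (l 135526351543) (l 136063222455))) (c (l 337389813687) (l 339537297303))) (l 4)) (a (b (a (l 16777224) (c (a (l 16777392) (l 177402282791))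 (l 180086637191))) (c (l 16777320) (l 16777320))) (a (c (c (l 268133466071) (l 269207207879)) (l 272428433335)) (l 4))))))) (a (l 16777904) (a (c (l 16777944) (l 16777936)) (a (c (l 16777632) (l 16777624)) (b (b (a (c (c (l 80765518519) (l 80765518503)) (c (l 79691776679) (l 79691776679))) (a (b (l 4) (c (l 16777552) (l 16777224))) (c (l 298198237143) (l 303030075335)))) (c (l 16777352) (l 16777352))) (c (l 16777560) (l 16777552))))))) (a (l 16779376) (a (l 16777448) (b (l 16777416) (l 16778616))))), by decide +kernel⟩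

def k27_pm_123_t : ∃ t, chk3 f_pm_123_t t 499 110 3 = true :=
  ⟨(b (b (a (c (l 16777328) (l 16777152)) (a (b (a (b (a (l 16777336) (a (l 77544292871) (b (l 256859177207) (l 16777248)))) (l 16777416)) (b (a (a (b (l 4) (l 197266506199)) (l 4)) (l 4)) (b (a (a (l 16777264) (l 166664864231)) (l 333094846359)) (a (l 16777304) (a (l 138210705927) (l 262227886327)))))) (a (l 16777616) (c (l 16777256) (c (l 16777088) (l 44258295719))))) (b (l 4) (a (b (a (a (b (l 202098344407) (l 16777264)) (b (l 4) (l 170422960615))) (l 339537297255)) (b (a (l 16777304) (a (l 141968802295) (l 270280949959))) (l 68417487223))) (b (l 4) (a (a (b (l 4) (l 207467053527)) (l 4)) (l 4))))))) (a (l 16778512) (a (l 16777912) (b (a (l 16777480) (b (a (a (l 16777288) (b (l 175254798823) (l 16777272))) (a (b (l 4) (l 146800640503)) (l 305177558935))) (c (l 16777352) (l 67880616375)))) (l 16777648))))) (a (l 16779304) (c (l 16777208) (l 16777184)))), by decide +kernel⟩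

def k28_pm_123_t : ∃ t, chk3 f_pm_123_t t 249 111 1 = true :=
  ⟨(a (c (l 16782256) (l 16782096)) (c (a (l 16781024) (c (l 16777584) (l 16777544))) (b (l 16777352) (l 16781032)))), by decide +kernel⟩

def k29_pm_123_t : ∃ t, chk3 f_pm_123_t t 125 54 1 = true :=
  ⟨(l 4), by decide +kernel⟩

def k30_pm_123_t : ∃ t, chk3 f_pm_123_t t 2000 110 1 = true :=
  ⟨(b (b (l 4) (b (b (l 4) (a (a (b (a (c (c (l 166664864551) (l 212835762647)) (l 224646922615)) (l 4)) (c (c (l 141431931607) (l 141431931639)) (a (l 16777256) (l 182234120679)))) (l 4)) (l 4))) (a (a (c (c (l 16777400) (l 16777400)) (l 16777392)) (b (b (a (c (c (l 16777464) (l 152706220535)) (l 154316833255)) (c (c (l 184918475543) (l 296587624567)) (l 298735108247))) (c (c (l 16777264) (l 16777264)) (l 75933680039))) (c (l 16777200) (l 16777360)))) (a (c (c (b (l 283702722503) (b (l 144653157111) (l 16777296))) (b (l 287997689783) (c (c (l 82913002263) (l 82913002263)) (l 83986744119)))) (a (b (c (l 276186529719) (l 277797142439))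 (l 16777288)) (b (l 4) (b (l 198340247943) (l 16777264))))) (a (b (l 4) (b (l 4) (c (c (l 152706220615) (l 162369896935)) (l 163443638759)))) (c (c (l 333094846375) (l 336852942711)) (l 337926684471))))))) (a (c (c (l 16777376) (l 16777368)) (l 16777352)) (a (c (c (l 16777224) (l 16777216)) (l 16777200)) (b (b (b (c (c (l 16777456) (l 73249325543)) (c (l 16777456) (l 72712454631))) (c (l 16777424) (l 16777424))) (c (l 16777632) (l 16777616))) (c (l 16778040) (l 16778016)))))), by decide +kernel⟩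

def k31_pm_123_t : ∃ t, chk3 f_pm_123_t t 2001 110 1 = true :=
  ⟨(b (l 4) (b (b (b (a (b (c (c (l 300345720759) (l 304640688023)) (c (l 307861913463) (l 310009397079))) (a (a (c (c (l 16777248) (l 16777248)) (l 16777248)) (c (c (l 162906768183) (l 208540795287)) (l 204245828055))) (l 4))) (l 4)) (a (a (c (c (l 16777320) (l 16777320)) (l 16777320)) (a (b (c (c (l 152706220727) (l 172570444263)) (l 174181056999)) (c (l 16777280) (l 16777272))) (b (a (c (c (l 161296153783) (l 163980508327)) (l 165591121047)) (l 4)) (c (c (l 16777384) (l 146263769591)) (l 146800640503))))) (c (c (l 319136202663) (l 323968040823)) (c (l 327189266247) (l 328799878951))))) (a (c (c (l 16777472) (l 16777472)) (l 16777464)) (b (a (a (c (c (l 16777280) (l 16777360)) (l 72712454519)) (b (c (c (l 169349219111) (l 224110051719)) (l 228405018999)) (c (c (l 16777256) (l 16777256)) (l 16777256)))) (a (b (l 4) (c (c (l 158074929895) (l 185455346151)) (l 187065958887))) (l 4))) (c (a (l 16777216) (c (l 77544292983)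 (c (l 77544292983) (l 16777440)))) (a (l 16777376) (a (l 16777304) (b (l 160222413287) (l 16777280)))))))) (c (c (l 16777120) (l 16777112)) (l 16777104)))), by decide +kernel⟩

def k32_pm_123_t : ∃ t, chk3 f_pm_123_t t 1001 110 1 = true :=
  ⟨(b (l 4) (b (b (l 4) (b (l 4) (a (a (b (c (c (l 328263008183) (l 333094846359)) (l 335242329943)) (a (a (c (c (l 16777232) (l 134989480375)) (l 134452609463)) (c (c (l 176328540967) (l 241826791815)) (l 256859177239))) (l 4))) (l 4)) (l 4)))) (a (c (b (b (a (a (c (l 16777312) (l 16777312)) (b (a (c (l 163980510007) (a (l 168275476967) (l 184918475431))) (l 4)) (c (l 139821318839) (c (l 140358189751) (l 139821318839))))) (c (l 347053490071) (l 348664102759))) (c (a (l 16777392) (a (a (l 80765518407) (b (l 184918475543) (l 16777240))) (l 284776464343))) (a (l 16777392) (a (b (c (l 159148671383) (l 188139700871)) (l 74859938183)) (c (l 287460818871) (l 289608302503)))))) (a (l 16777264) (a (l 16777272) (b (a (c (l 16777288) (l 16777288)) (b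 (c (l 161296155367) (a (l 157538058727) (l 180086637175))) (l 16777264))) (l 16777392))))) (b (b (a (a (l 16777304) (a (b (l 204245828055) (l 16777264)) (b (l 4) (l 175254798823)))) (l 349737844519)) (a (l 16777384) (b (a (a (l 148948124151) (l 289071431879)) (l 4)) (a (l 74859938183) (a (l 233773728119) (l 4)))))) (a (l 16777584) (a (l 16777424) (a (l 16777352) (b (b (l 194045280727) (l 16777264)) (l 16777368))))))) (b (l 4) (a (b (a (a (b (l 4) (c (c (l 157001187911) (c (l 16777208) (l 16777536))) (l 166664864231))) (c (c (l 334705459159) (l 338463555511)) (l 340074168215))) (l 4)) (a (c (c (l 74323067399) (c (l 16777288) (l 16777288))) (a (l 16777312) (a (l 16777272) (l 80228647399)))) (a (b (c (c (l 181160379175) (c (l 181697250071) (l 264912240935))) (l 272428433655)) (c (c (l 16777240) (l 16777240)) (l 16777240))) (b (l 4) (c (c (l 169349219111) (c (l 169349219111) (l 213909504471))) (l 215520117207)))))) (l 4)))))), by decide +kernel⟩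

def k33_pm_123_t : ∃ t, chk3 f_pm_123_t t 501 110 1 = true :=
  ⟨(l 4), by decide +kernel⟩

def k34_pm_123_t : ∃ t, chk3 f_pm_123_t t 500 111 1 = true :=
  ⟨(a (c (b (c (l 16777496) (l 16777480)) (l 16779880)) (b (l 16777448) (l 16779816))) (b (b (a (c (c (l 16777896) (l 16777232)) (l 16777216)) (b (a (c (c (l 16777440) (l 37278973831)) (l 33520877271)) (b (a (a (b (c (c (l 159148671719) (c (l 159148671719) (l 184918475239))) (c (l 185455346151) (l 188139700695))) (c (l 16777272) (l 16777272))) (b (l 4) (c (c (l 152706220615) (l 153243091527)) (l 161833026023)))) (c (c (l 332021104583) (l 335779200935)) (l 338463555447))) (a (c (l 16777344) (l 16777344)) (a (c (c (l 16777432) (l 75933680087)) (l 76470550999)) (b (c (c (l 179549766439) (a (l 175254798983) (l 4))) (l 262764757271)) (c (c (l 16777248) (l 16777248)) (l 16777248))))))) (c (c (l 16777600) (l 16776944)) (l 16776936)))) (c (c (l 16776912) (l 16777232)) (l 16777208))) (c (c (l 16779032) (l 16777704)) (l 16777672)))),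 by decide +kernel⟩

def k35_pm_123_t : ∃ t, chk3 f_pm_123_t t 2004 111 1 = true :=
  ⟨(b (a (b (b (a (a (b (l 4) (b (l 4) (c (c (l 168275477303) (c (l 168275477287) (l 217667600775))) (l 211225149911)))) (l 4)) (l 4)) (b (a (a (c (l 47479521271) (l 16777296)) (b (c (b (a (l 172033573271) (l 4)) (l 146800640391)) (l 183307862503)) (c (l 16777272) (l 16777272)))) (a (b (l 4) (c (c (l 157538058743) (l 157538058743)) (l 159685542375))) (c (a (l 320209944535) (l 4)) (l 330410491799)))) (a (c (l 16777400) (l 16777392)) (c (c (l 16777456) (l 73249325543)) (c (l 16777296) (l 73249325543)))))) (c (l 16777192) (l 16777672))) (b (b (l 4) (b (l 4) (b (c (c (l 307325042615) (c (l 308935655335) (l 311620009879))) (a (l 287997689783) (l 4))) (a (a (c (l 76470550839) (l 16777248)) (c (c (l 168275477303) (l 169349218455)) (l 211225149911))) (l 4))))) (b (b (a (c (l 16777160) (l 16777320)) (b (a (c (b (l 180623508055) (l 146800640391)) (l 183844733415)) (l 4)) (c (c (l 83449873031) (l 82913002103))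 (a (l 16777272) (l 160759284199))))) (c (l 16777400) (l 16777392))) (c (l 16777600) (l 16777592))))) (c (c (l 16778384) (l 16777064)) (l 16777696))), by decide +kernel⟩

def k36_pm_123_t : ∃ t, chk3 f_pm_123_t t 2005 111 1 = true :=
  ⟨(b (b (l 4) (b (a (b (c (c (l 338463555495) (l 342221651831)) (l 343832264487)) (b (a (a (c (l 83986743735) (l 137673834935)) (c (c (l 181160379175) (l 182234120983)) (l 264375370007))) (l 4)) (a (c (l 73786196343) (l 16777272)) (a (c (c (l 169886090039) (l 170959831847)) (l 214446375383)) (l 4))))) (l 4)) (b (a (a (c (l 16777376) (l 16777368)) (a (c (l 16777296) (l 16777288)) (b (c (c (l 160759284455) (l 161296155367)) (l 187602829799)) (c (l 16777272) (l 16777272))))) (a (a (b (l 4) (c (l 156464316999) (l 164517380583))) (c (l 335242330055) (l 341147910039))) (l 4))) (a (c (l 16777456) (l 16777448)) (a (c (c (l 16777456) (l 16777456)) (c (l 16777288) (l 73786196487))) (b (c (l 294977011671) (l 299808849831)) (a (c (l 16777240) (l 16777240))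 (c (l 173644186407) (l 231626244471))))))))) (b (a (c (l 16777784) (l 16777776)) (c (c (l 16777240) (l 16777240)) (a (l 16777616) (b (l 37815844711) (l 16777640))))) (c (l 16778208) (l 16778192)))), by decide +kernel⟩

def k37_pm_123_t : ∃ t, chk3 f_pm_123_t t 2006 111 1 = true :=
  ⟨(b (l 4) (b (b (a (b (a (b (a (c (l 169886089959) (a (l 167738605975) (l 183307862679))) (l 4)) (c (l 84523614919) (a (l 16777264) (c (l 171496702439) (l 173644186071))))) (c (l 350811586471) (l 354569682791))) (a (c (l 16777344) (l 16777336)) (a (c (l 78618034759) (c (l 77544292855) (l 77544292855))) (b (c (l 187602830183) (l 293903270087)) (c (l 16777240) (l 81839260055)))))) (a (b (l 4) (a (b (l 4) (c (l 178476024615) (l 250416726311))) (l 4))) (l 4))) (a (c (l 16777488) (l 16777480)) (b (a (a (c (l 16777288) (l 16777288)) (b (c (l 168275477287) (c (l 214983246215) (l 208003924439))) (c (l 16777264) (l 16777264)))) (a (b (l 4) (c (l 159685542631) (c (l 182770991591) (l 183307862503)))) (l 4)))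 (a (c (l 16777392) (l 16777384)) (c (c (l 75933680247) (l 16777528)) (a (l 16777304) (a (l 74859938151) (b (l 196729635143) (l 16777272))))))))) (c (l 16777120) (c (l 16777112) (l 16777104))))), by decide +kernel⟩

def k38_pm_123_t : ∃ t, chk3 f_pm_123_t t 2007 111 1 = true :=
  ⟨(b (l 4) (b (b (l 4) (a (b (l 4) (a (b (c (l 329873620935) (l 336316071831)) (a (c (l 16777232) (c (l 16777392) (l 16777392))) (c (l 183307862903) (c (l 269744079143) (l 276723400935))))) (l 4))) (l 4))) (b (b (a (a (c (l 16777304) (c (l 16777304) (l 16777304))) (a (b (c (l 175254799143) (c (l 223573180887) (l 234847469943))) (c (l 16777256) (l 16777256))) (b (l 4) (c (l 165591122743) (c (l 198340248039) (l 200487731671)))))) (l 4)) (a (c (l 16777384) (c (l 16777376) (l 16777376))) (a (a (c (l 82913002183) (b (c (l 176865411559) (l 178476024279)) (l 16777280))) (b (a (c (l 173107313847) (b (l 4) (l 170422959527))) (l 4)) (c (l 16777464) (c (l 156464316919) (l 155927446007))))) (c (l 333631717303) (c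 (l 339537297287) (l 342221651815)))))) (a (c (l 16777576) (l 16777576)) (b (a (c (l 16777352) (l 16777344)) (a (c (l 16777264) (c (l 75396809175) (l 16777432))) (b (c (l 182234121079) (c (l 264912240935) (l 268670337303))) (c (l 16777248) (c (l 16777240) (l 16777240)))))) (c (l 16777424) (l 16777424))))))), by decide +kernel⟩

def k39_pm_123_t : ∃ t, chk3 f_pm_123_t t 251 55 1 = true :=
  ⟨(b (l 4) (b (l 4) (b (l 4) (b (l 4) (a (a (a (a (b (a (a (b (l 4) (c (l 174181057319) (c (l 220351955415) (l 223036309959)))) (l 4)) (l 4)) (a (b (a (c (l 16777256) (l 73249325303)) (c (l 165054251831) (c (a (l 168275476887) (l 184381604503)) (l 198877118935)))) (c (l 16777296) (l 16777296))) (a (b (l 4) (c (l 158611800759) (c (l 176328540647) (l 177939153367)))) (c (l 359938392007) (l 362622746503))))) (l 4)) (l 4)) (l 4)) (l 4)))))), by decide +kernel⟩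

def k40_pm_123_t : ∃ t, chk3 f_pm_123_t t 63 6 1 = true :=
  ⟨(l 4), by decide +kernel⟩

def k41_pm_123_t : ∃ t, chk3 f_pm_123_t t 124 14 1 = true :=
  ⟨(b (b (a (b (l 16786688) (l 16788848)) (b (a (l 16784344) (c (l 16782768) (l 16782640))) (a (l 16786480) (l 16784824)))) (a (b (c (l 16796320) (l 16795984)) (l 16792432)) (b (l 16787752) (a (l 16790416) (l 16793808))))) (b (a (l 16794664) (l 16797000)) (l 16795896))), by decide +kernel⟩

def k42_pm_123_t : ∃ t, chk3 f_pm_123_t t 250 28 1 = true :=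
  ⟨(b (a (b (c (a (l 16781488) (l 16778008)) (a (l 16781400) (l 16777944))) (c (l 16783120) (l 16783080))) (b (a (c (b (l 16777912) (l 16780280)) (b (l 16777880) (l 16780232))) (b (a (c (l 16778568) (l 16777232)) (c (c (l 16777480) (l 16777472)) (c (c (l 16777464) (l 16776808)) (l 16777456)))) (c (l 16779384) (l 16778056)))) (c (b (l 16778208) (l 16781800)) (a (l 16781784) (l 16778256))))) (a (b (l 16785000) (l 16786736)) (b (c (l 16783200) (l 16783184)) (l 16784920)))), by decide +kernel⟩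

def k43_pm_123_t : ∃ t, chk3 f_pm_123_t t 2008 112 1 = true :=
  ⟨(b (b (b (a (a (c (l 16777456) (l 16777456)) (c (c (l 72712454823) (l 72175583911)) (c (c (l 71638712967) (l 16777512)) (c (l 71101842007) (b (l 74323067431) (l 16777408)))))) (b (b (c (l 337926684583) (c (l 344369135463) (l 347053489991))) (a (a (c (l 16777232) (c (l 82913001911) (l 16777232))) (c (l 183307862903) (c (l 267596595495) (l 270817820951)))) (l 4))) (a (c (l 16777304) (c (l 72712454567) (l 16777304))) (a (b (c (l 175791670055) (c (l 223573180887) (l 226257535431))) (c (l 16777256) (c (l 16777256) (l 16777256)))) (b (l 4) (c (l 167201735479) (c (c (l 206930182551) (l 202098344407)) (l 202635215319)))))))) (c (l 16777232) (c (c (l 16777552) (l 16777552)) (l 16777224)))) (c (l 16777952) (c (l 16777944) (l 16777936)))) (c (l 16778720) (l 16777400))), by decide +kernel⟩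

def k44_pm_123_t : ∃ t, chk3 f_pm_123_t t 2009 112 1 = true :=
  ⟨(b (b (b (l 4) (b (a (a (a (c (l 82376131271) (b (c (a (l 16777224) (l 175254798983)) (l 182770991575)) (l 16777272))) (b (l 4) (c (l 16777544) (c (l 161833026039) (l 162906767847))))) (c (l 343832264631) (c (l 349737844615) (l 351348457319)))) (l 4)) (a (a (c (l 16777344) (l 16777344)) (a (c (l 16777264) (c (l 75933680119) (l 16777424))) (b (c (l 187065959271) (c (l 277797142823) (l 285313335527))) (c (l 16777240) (c (l 16777240) (l 16777240)))))) (a (c (l 298735108039) (c (c (l 303566946215) (l 305177558935)) (l 306251300743))) (l 4))))) (b (a (c (l 16777488) (c (l 16777488) (l 16777480))) (b (a (a (c (l 16777280) (c (l 16777280) (l 16777280))) (b (c (l 171496702759) (c (l 219815084423) (l 212835762647))) (c (l 16777264) (c (l 16777264) (l 16777264))))) (a (b (l 4) (c (l 164517380839) (c (l 191360926183) (l 192971538903)))) (l 4))) (a (c (l 16777384) (l 16777384)) (c (l 75933680311) (a (l 16777176) (b (c (l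 173644186087) (l 173644186087)) (l 16777280))))))) (c (l 16777632) (c (l 16776976) (l 16777632))))) (c (l 16777616) (c (l 16777624) (l 16776960)))), by decide +kernel⟩

def k45_pm_123_t : ∃ t, chk3 f_pm_123_t t 1004 113 1 = true :=
  ⟨(b (c (l 16779496) (l 16778184)) (l 16779144)), by decide +kernel⟩

def k46_pm_123_t : ∃ t, chk3 f_pm_123_t t 2010 56 1 = true :=
  ⟨(b (b (b (l 4) (b (a (b (l 4) (a (b (c (l 355643424711) (c (l 359938391975) (l 361012133767))) (a (c (l 16777224) (c (l 155927446007) (l 16777384))) (c (l 191897797559) (c (l 308398784711) (l 312693751991))))) (l 4))) (l 4)) (b (a (a (c (l 16777296) (c (l 72175583719) (l 16777296))) (a (b (c (l 184918475639) (c (l 270817820967) (l 274575917335))) (c (l 16777240) (c (l 16777240) (l 16777240)))) (b (l 4) (c (l 179012895527) (c (l 229478760919) (l 240753049975)))))) (l 4)) (a (c (l 16777368) (c (l 16777368) (l 16777368))) (a (b (a (c (l 170959831863) (c (l 216056988039) (l 210688278999))) (l 4)) (c (l 81302389511) (c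 (c (l 16777560) (l 148411253511)) (c (l 148411253495) (l 148411253495))))) (l 4)))))) (a (c (l 16777288) (c (l 16777288) (l 16777288))) (a (c (l 25467813623) (c (l 27078426359) (l 16777120))) (b (c (b (a (l 72175583927) (b (a (l 163443639255) (l 179549766759)) (l 16777320))) (l 16777536)) (b (b (a (c (l 79691776631) (l 81302389367)) (b (c (l 173107313479) (l 171496700727)) (c (l 16777544) (l 16777216)))) (l 16777184)) (l 16777544))) (c (l 16777920) (l 16777920)))))) (c (l 16777680) (b (l 16777520) (l 16779792)))), by decide +kernel⟩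

def k47_pm_123_t : ∃ t, chk3 f_pm_123_t t 2011 56 1 = true :=
  ⟨(b (b (l 4) (a (b (b (b (c (l 349200973703) (c (l 355106553671) (l 357790908183))) (a (a (c (l 16777264) (c (l 16777264) (l 16777264))) (a (c (l 156464317175) (c (l 163443638903) (l 160759284375))) (c (l 177402282967) (c (l 209077666343) (l 209614537255))))) (c (l 301419462599) (c (l 306251300759) (l 308398784391))))) (a (c (l 16777432) (c (l 16777432) (l 16777432))) (b (a (c (l 16777280) (c (l 16777280) (l 16777280))) (c (l 153779962775) (a (c (l 16777240) (l 16777560)) (c (l 176865411719) (l 177939153527))))) (c (l 16777384) (l 16777216))))) (c (l 16777752) (c (l 16777752) (l 16777752)))) (b (b (l 4) (b (a (a (b (l 4) (c (l 173644186343) (c (l 197266506215) (l 199413989847)))) (l 4)) (l 4)) (c (a (l 75933680343) (b (l 374970777543) (l 170959831527))) (a (c (l 75396809383) (l 77007422119)) (b (c (l 375507648407) (l 379265744775)) (c (l 210688279159) (a (l 16777544) (l 173107313559)))))))) (b (a (c (l 16777464)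 (l 16777296)) (c (l 16777512) (c (l 16777352) (l 73786196647)))) (c (l 16777656) (l 16777328)))))) (b (c (l 16777072) (b (l 16777488) (l 16778632))) (l 16778360))), by decide +kernel⟩

def k48_pm_123_t : ∃ t, chk3 f_pm_123_t t 1006 112 1 = true :=
  ⟨(b (l 4) (b (l 4) (a (a (b (b (a (a (c (l 163980509671) (c (l 184918475559) (a (l 171496702567) (l 220888826391)))) (b (l 4) (c (l 184918475639) (c (l 269744079143) (l 271891562775))))) (l 4)) (a (c (l 16777304) (c (l 16777304) (l 16777304))) (a (c (l 157001188327) (c (l 165591122743) (b (l 234310599111) (l 16777248)))) (b (l 4) (c (l 173107315511) (c (l 214446375383) (l 215520117207))))))) (c (l 16777440) (c (l 16777440) (l 16777440)))) (b (l 4) (b (a (a (c (l 81839260423) (b (c (l 16777208) (l 199413989847)) (l 28689039271))) (b (l 4) (c (l 16777208) (c (l 16777208) (l 184381604311))))) (c (l 378192002983) (c (l 379265744759) (l 382486970199)))) (a (c (l 16777336) (l 16777168)) (b (c (l 170959831607) (c (l 213372633719) (c (l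 213909504631) (l 215520117351)))) (c (l 16777256) (c (l 16777248) (l 78081163831)))))))) (a (a (c (l 364233359143) (b (l 4) (c (l 359938391863) (l 362085875463)))) (l 4)) (l 4))))), by decide +kernel⟩

def k49_pm_123_t : ∃ t, chk3 f_pm_123_t t 1006 113 1 = true :=
  ⟨(a (c (b (c (l 16776960) (l 16776960)) (l 16778912)) (b (b (c (l 16777696) (l 16777040)) (l 16777528)) (l 16777592))) (b (b (a (b (a (a (c (l 16777328) (c (l 16777328) (l 74323067479))) (b (c (l 170422961095) (c (l 180623508247) (b (l 283702722839) (l 16777240)))) (c (l 16777336) (l 16777336)))) (b (c (l 308398784455) (c (l 313230622615) (c (l 315914977159) (l 316988718967)))) (c (l 80765518711) (c (l 80765518711) (a (l 16777280) (b (l 228405019079) (l 16777256))))))) (c (l 16777488) (c (l 16777488) (l 16777488)))) (b (b (l 4) (a (c (l 279944626119) (a (b (l 4) (c (l 16777536) (l 211762020823))) (l 4))) (l 4))) (b (a (c (l 78081164103) (c (l 16777584) (c (l 79154905911) (l 80228647735)))) (a (b (l 4) (c (l 16777208)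 (c (l 16777208) (l 184381604311)))) (l 4))) (c (l 16777576) (c (l 16777328) (c (l 71101842055) (l 72175583879))))))) (c (l 16777744) (c (l 16777744) (l 16777088)))) (c (l 16778464) (c (l 16778464) (l 16777152))))), by decide +kernel⟩

def k50_pm_123_t : ∃ t, chk3 f_pm_123_t t 1007 112 1 = true :=
  ⟨(l 4), by decide +kernel⟩

def k51_pm_123_t : ∃ t, chk3 f_pm_123_t t 1007 226 1 = true :=
  ⟨(b (b (l 4) (b (l 4) (a (a (a (b (c (l 357790908359) (c (l 364233359271) (l 365307101063))) (c (l 204245828231) (c (l 200487731927) (c (l 206393311863) (l 206393311863))))) (l 4)) (l 4)) (l 4)))) (b (a (a (a (c (l 16777352) (c (l 16777352) (c (l 16777352) (l 16777352)))) (b (a (c (l 183307862823) (c (l 184381604647) (c (l 189750313671) (l 189750313671)))) (c (l 292292657607) (c (l 298735108519) (l 308935655735)))) (c (l 16777304) (c (l 16777304) (l 16777464))))) (a (a (b (l 4) (c (l 168812348215) (c (l 169349219111) (c (l 169349219111) (l 173107315415))))) (c (l 311083138999) (c (l 315914977143)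 (c (l 318599332327) (l 320209944391))))) (l 4))) (l 4)) (a (a (c (l 16777536) (l 16777208)) (a (c (l 16777376) (c (l 16777376) (l 16777376))) (b (a (c (l 159148671735) (c (l 16777552) (c (l 158611800823) (l 157538058999)))) (b (l 4) (c (l 16777216) (c (l 16777208) (l 200487731671))))) (c (l 16777320) (l 16777320))))) (b (l 4) (a (a (a (c (l 16777240) (b (c (l 16777208) (l 188676571607)) (l 16777272))) (b (l 4) (c (l 16777216) (c (l 16777208) (l 176865411559))))) (c (l 377118261159) (l 379802615655))) (l 4)))))), by decide +kernel⟩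

def k52_pm_123_t : ∃ t, chk3 f_pm_123_t t 1007 227 1 = true :=
  ⟨(b (a (c (l 16777792) (a (l 16777896) (l 16777264))) (b (a (a (c (l 16777392) (l 16777392)) (a (c (l 16777312) (c (l 16777312) (c (l 16777312) (l 72175583831)))) (b (c (l 196729635639) (b (a (l 333094846583) (l 4)) (c (l 16777224) (l 156464316919)))) (l 16777320)))) (a (b (c (l 348127231927) (c (l 354569682823) (l 358327779175))) (a (c (l 16777264) (c (l 16777256) (l 75396809207))) (c (l 184918475559) (b (l 299271979239) (a (l 16777248) (l 156464316839)))))) (c (l 343832264583) (c (l 349737844551) (c (l 352422199079) (l 355106553607)))))) (a (c (l 16777576) (l 16777576)) (a (c (l 16777416) (l 16777408)) (b (c (c (l 79691777047) (l 83449873335)) (b (a (l 79154905511) (c (l 256859177335) (l 258469790071))) (l 72175583591))) (l 16777360)))))) (a (a (l 16778368) (l 16777496)) (c (l 16777824) (c (l 16777816) (l 16777160))))), by decide +kernel⟩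

def k53_pm_123_t : ∃ t, chk3 f_pm_123_t t 251 57 1 = true :=
  ⟨(a (a (b (l 16779872) (l 16783568)) (b (b (l 16780496) (l 16781392)) (l 16782680))) (b (c (a (l 16778112) (b (c (l 16777432) (l 16777424)) (l 16779640))) (b (a (l 16778296) (a (l 16778944) (l 16777856))) (a (l 16780496) (l 16779616)))) (c (a (l 16781824) (l 16780936)) (a (l 16781768) (l 16779408))))), by decide +kernel⟩

def k54_pm_123_t : ∃ t, chk3 f_pm_123_t t 125 29 1 = true :=
  ⟨(b (a (b (a (c (l 16798952) (l 16798912)) (c (l 16791816) (l 16791688))) (l 16795744)) (b (a (l 16784720) (c (l 16783000) (l 16782896))) (b (a (c (l 16785928) (l 16785760)) (l 16784056)) (a (l 16786656) (c (l 16784856) (l 16787272)))))) (a (l 16791328) (a (l 16788584) (b (b (c (l 16785616) (l 16785464)) (l 16786272)) (l 16787376))))), by decide +kernel⟩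

def k55_pm_123_t : ∃ t, chk3 f_pm_123_t t 62 15 1 = true :=
  ⟨(b (a (b (l 16798288) (l 16800392)) (b (a (l 16793456) (l 16790152)) (a (l 16795296) (l 16791840)))) (b (a (l 16802200) (l 16789816)) (a (l 16803600) (b (l 16795936) (l 16796384))))), by decide +kernel⟩

def k56_pm_123_t : ∃ t, chk3 f_pm_123_t t 1008 28 1 = true :=
  ⟨(b (b (l 4) (b (l 4) (b (b (l 4) (a (a (a (b (c (l 302493204423) (c (l 307861913495) (c (l 309472526215) (l 312156880759)))) (c (l 80228647799) (a (l 16777280) (b (a (l 192971538839) (l 328799879287)) (l 16777256))))) (a (c (l 303566946887) (c (l 308935655303) (b (l 4) (c (l 265449111975) (l 265985982967))))) (l 4))) (l 4)) (l 4))) (a (b (b (a (c (l 74323067815) (c (l 74859938727) (c (l 74859938679) (c (l 74859938679) (a (l 16777368) (l 80228647735)))))) (a (a (b (l 4) (a (l 159148671399) (l 250416726327))) (l 4)) (l 4))) (a (l 16777184) (a (c (l 16777592) (c (l 16777264) (c (l 16777264) (l 77544293111)))) (a (b (l 4) (a (l 16777224) (l 173107315335)))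 (l 381950099367))))) (a (l 16777280) (a (l 16777440) (c (l 16777664) (c (l 16777328) (c (l 16777328) (l 73786196695))))))) (b (l 4) (a (b (a (a (a (b (l 347053490215) (l 16777232)) (b (l 4) (l 182234120679))) (l 355106553783)) (l 4)) (a (c (l 16777280) (c (l 16777280) (l 16777440))) (b (l 341147910359) (a (l 81839260167) (l 305177559287))))) (l 4))))))) (b (b (b (a (c (l 16777848) (l 16777272)) (b (b (a (c (l 16777344) (c (l 16777344) (l 77544293111))) (a (b (c (l 318599332119) (l 323968041239)) (a (l 16777232) (l 278334013735))) (l 4))) (a (l 16777456) (a (l 75933680183) (a (b (l 262764757367) (l 16777240)) (b (l 4) (l 245048017367)))))) (a (l 16777632) (a (l 16777464) (a (l 16777384) (l 16777328)))))) (a (l 16777648) (c (l 16777864) (l 16777208)))) (a (l 16778312) (c (l 16778536) (l 16778520)))) (b (a (l 16779832) (l 16779392)) (l 16780440)))), by decide +kernel⟩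

def k57_pm_123_t : ∃ t, chk3 f_pm_123_t t 1009 28 1 = true :=
  ⟨(b (l 4) (b (b (b (b (l 4) (a (a (b (a (a (c (l 168812348215) (l 169886090023)) (l 278870884791)) (l 4)) (a (l 16777304) (a (c (l 161833026375) (l 162369897271)) (l 264912241175)))) (l 4)) (l 4))) (b (a (a (l 16777112) (b (a (a (c (l 160222413559) (l 159685542647)) (c (l 254174822951) (l 257932919303))) (l 4)) (a (l 16777312) (a (c (l 16777560) (l 154316833527)) (c (l 241289921143) (l 246121759319)))))) (l 4)) (a (c (l 16777544) (l 16777208)) (a (b (a (a (l 82376131335) (c (l 234310599303) (l 238605566567))) (l 4)) (a (l 16777320) (a (l 80228647703) (c (l 173644186903) (l 233236857447))))) (l 4))))) (b (b (a (l 16777760) (a (l 16777432) (b (a (a (l 79154905879) (b (l 172033571575) (l 172033573431))) (l 392687517575)) (a (l 16777328) (a (l 79691776759) (b (l 173644184311) (l 16777544))))))) (a (l 16777984) (c (l 16777552) (l 16776888)))) (a (l 16778312) (c (l 16777880) (l 16777872))))) (a (b (l 16778952) (l 16777160))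 (b (a (l 16778624) (l 16778408)) (l 16779344))))), by decide +kernel⟩

def k58_pm_123_t : ∃ t, chk3 f_pm_123_t t 505 56 1 = true :=
  ⟨(l 4), by decide +kernel⟩

def k59_pm_123_t : ∃ t, chk3 f_pm_123_t t 505 114 1 = true :=
  ⟨(a (b (l 4) (a (a (b (b (c (l 390540033879) (l 394835001015)) (b (a (a (l 80765518535) (b (l 172033571575) (l 16777544))) (l 384097582983)) (a (l 16777328) (a (l 80228647639) (b (c (l 169349217047) (l 172570442567)) (l 16777544)))))) (c (l 16777552) (l 16777544))) (b (c (l 391076904695) (b (l 4) (l 393224388279))) (b (b (a (a (l 79691776679) (b (c (l 168275475223) (l 171496700743)) (l 16777544))) (l 380339486599)) (a (l 16777328) (a (l 79154905735) (b (c (l 168275475223) (l 170959829831)) (l 16777544))))) (l 16777440)))) (b (l 4) (b (a (c (l 387855679319) (l 393761259191)) (l 4)) (a (b (a (a (l 79154905735) (b (c (l 168275475223) (l 170959829831)) (l 16777464))) (l 382486970247)) (a (l 16777328) (a (l 80228647591) (b (c (l 168275475223) (l 171496700743))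 (l 166127993335))))) (c (l 391613775703) (l 396982484663))))))) (l 4)), by decide +kernel⟩

def k60_pm_123_t : ∃ t, chk3 f_pm_123_t t 505 115 1 = true :=
  ⟨(a (b (b (b (a (l 16777760) (a (l 16777440) (a (b (a (l 80228647639) (b (c (l 169349217047) (l 172570442551)) (l 168812347895))) (l 16777328)) (b (l 391076904839) (a (l 81302389447) (b (c (l 171496700695) (l 176328538935)) (l 166664864327))))))) (a (l 16777976) (c (l 16777544) (l 16777216)))) (a (l 16778296) (c (l 16777864) (l 16777856)))) (a (l 16778912) (c (l 16778488) (l 16778464)))) (a (a (b (b (b (c (l 398056226647) (l 402888064695)) (b (a (a (c (l 16777240) (l 82913002183)) (b (c (l 168812346087) (l 173107313383)) (l 172570444343))) (l 404498677639)) (a (l 16777320) (a (c (l 16777568) (l 83449873127)) (b (l 4) (l 180086637111)))))) (c (l 16777536) (l 16777200))) (l 16777496)) (b (b (l 4) (b (b (a (a (b (l 183307862583) (l 16777264)) (b (l 4) (l 192971538919))) (l 4)) (a (l 16777320) (a (b (l 197803377127) (l 16777264))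 (b (l 4) (l 202635215335))))) (c (l 16777424) (l 16777416)))) (b (l 16777728) (l 16776824)))) (a (b (b (l 4) (b (l 4) (b (a (a (b (l 208003924455) (l 16777256)) (b (l 4) (l 213372633575))) (l 4)) (a (l 16777312) (a (a (l 16777480) (b (l 314304364759) (l 16777240))) (c (l 270817821223) (b (l 4) (l 174181057399)))))))) (b (c (l 16777184) (c (l 16777512) (l 16777184))) (l 16777920))) (b (l 4) (b (b (b (a (a (a (l 85597356647) (b (l 354569683079) (l 16777232))) (c (l 289608303047) (l 292292657655))) (l 4)) (a (l 16777296) (a (b (l 250416726487) (l 16777240)) (b (l 4) (l 259543531991))))) (c (l 16777400) (c (l 16777400) (l 38352715655)))) (l 16777704)))))), by decide +kernel⟩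

def k61_pm_123_t : ∃ t, chk3 f_pm_123_t t 253 28 1 = true :=
  ⟨(b (l 4) (a (b (l 4) (a (b (l 4) (a (b (b (l 4) (a (a (b (a (b (l 279944626551) (l 16777232)) (l 331484234071)) (l 80765518455)) (b (l 4) (b (l 344369135543) (a (l 16777552) (a (l 309472526551) (l 4)))))) (l 4))) (b (a (a (l 16777440) (a (l 16777360) (b (l 82376131207) (l 16777352)))) (b (a (a (b (a (l 334705459335) (l 4)) (l 160759284295)) (l 392150646695)) (l 4)) (a (c (l 16777272) (l 80765518583)) (b (l 409330515879) (a (l 177939153463) (l 4)))))) (a (l 16777584) (a (l 16777424) (a (l 16777344) (b (b (l 187602829879) (l 16777264)) (l 16777336))))))) (b (l 4) (b (l 4) (a (a (a (b (b (l 4) (l 203172086247)) (l 16777280)) (b (l 4) (a (l 16777400) (b (l 307325042903) (l 16777240))))) (a (a (b (l 4) (b (l 4) (l 16777536))) (l 393761259399)) (l 4))) (l 4)))))) (l 4))) (l 4))), by decide +kernel⟩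

def k62_pm_123_t : ∃ t, chk3 f_pm_123_t t 252 29 1 = true :=
  ⟨(b (a (b (a (l 16780312) (a (l 16780960) (l 16779872))) (c (l 16782728) (l 16782584))) (a (b (b (a (l 16777088) (l 16779272)) (l 16780256)) (c (l 16778784) (l 16778664))) (b (a (b (l 16778840) (l 16778288)) (b (a (l 16778512) (l 16778296)) (l 16777856))) (c (l 16780520) (b (l 16777456) (l 14)))))) (a (a (a (b (b (l 16779088) (l 16785072)) (l 16786168)) (l 14)) (l 14)) (l 14))), by decide +kernel⟩

def k63_pm_123_t : ∃ t, chk3 f_pm_123_t t 506 116 1 = true :=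
  ⟨(a (a (b (b (c (l 16777784) (l 16777112)) (l 16778168)) (l 16778080)) (a (b (b (b (a (l 16777408) (a (l 16777320) (b (a (l 86134227559) (b (l 379265744983) (l 16777232))) (l 16777320)))) (l 16777552)) (l 16777840)) (l 16778408)) (b (b (b (a (a (b (b (l 4) (l 256859177431)) (l 16777264)) (b (l 4) (b (l 274039046599) (l 16777232)))) (c (l 377655132039) (c (l 386245066551) (l 390003162887)))) (b (a (l 16777336) (a (l 80228647479) (b (a (l 311620010199) (l 4)) (l 160759284215)))) (l 16777384))) (l 16777296)) (l 16777704)))) (a (b (a (b (b (l 4) (a (b (l 395371872135) (a (c (l 16777240) (l 82376131271)) (b (a (l 173644184583) (l 4)) (l 157538058407)))) (l 4))) (b (a (l 16777368) (b (a (b (l 193508409911) (l 16777256)) (b (l 4) (a (l 16777216) (l 306788171991)))) (l 16777304))) (l 16777504))) (b (l 4) (b (b (l 4) (a (a (a (l 83449872999) (b (l 349737844903) (l 16777232))) (c (l 298198237639) (c (l 304640688551) (l 305177559527)))) (l 4))) (a (c (l 16777344) (l 16777336)) (a (b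 (b (l 272965304775) (l 16777232)) (l 16777312)) (b (l 344906006455) (l 80228647479))))))) (b (a (l 16777792) (a (l 16777624) (l 16777520))) (l 16777728))) (b (b (l 4) (b (l 4) (b (l 4) (a (a (b (l 373360164791) (a (l 160222413383) (a (l 379802615895) (l 4)))) (l 4)) (l 4))))) (b (b (a (a (a (l 16777344) (b (b (l 175254798903) (l 16777264)) (l 16777336))) (a (b (b (l 4) (l 191897797175)) (l 16777280)) (b (l 4) (a (l 16777400) (b (l 312156881111) (l 16777240)))))) (a (a (a (b (l 4) (b (l 4) (l 16777536))) (l 413625483143)) (l 4)) (l 4))) (a (l 16777448) (a (a (l 39426457479) (b (b (l 261691015639) (l 14)) (l 14))) (l 14)))) (l 14))))), by decide +kernel⟩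

def k64_pm_123_t : ∃ t, chk3 f_pm_123_t t 507 116 1 = true :=
  ⟨(b (l 4) (b (b (l 4) (l 14)) (l 14))), by decide +kernel⟩

def k65_pm_123_t : ∃ t, chk3 f_pm_123_t t 253 117 1 = true :=
  ⟨(b (a (a (a (l 16778160) (l 14)) (l 14)) (l 14)) (l 14)), by decide +kernel⟩

def k66_pm_123_t : ∃ t, chk3 f_pm_123_t t 253 59 1 = true :=
  ⟨(l 14), by decide +kernel⟩

def k67_pm_123_t : ∃ t, chk3 f_pm_123_t t 126 15 1 = true :=
  ⟨(a (a (b (b (l 16787456) (l 16789216)) (b (l 16790520) (l 16791488))) (l 14)) (l 14)), by decide +kernel⟩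

def k68_pm_123_t : ∃ t, chk3 f_pm_123_t t 127 7 1 = true :=
  ⟨(b (b (l 4) (b (b (l 4) (l 14)) (l 14))) (l 14)), by decide +kernel⟩

theorem s69_pm_123_t : ∃ t, chk3 f_pm_123_t t 253 116 1 = true := ex3_a k63_pm_123_t k64_pm_123_t

theorem s70_pm_123_t : ∃ t, chk3 f_pm_123_t t 253 58 1 = true := ex3_b s69_pm_123_t k65_pm_123_t

theorem s71_pm_123_t : ∃ t, chk3 f_pm_123_t t 253 29 1 = true := ex3_b s70_pm_123_t k66_pm_123_t

theorem s72_pm_123_t : ∃ t, chk3 f_pm_123_t t 126 29 1 = true := ex3_a k62_pm_123_t s71_pm_123_t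

theorem s73_pm_123_t : ∃ t, chk3 f_pm_123_t t 505 57 1 = true := ex3_b k59_pm_123_t k60_pm_123_t

theorem s74_pm_123_t : ∃ t, chk3 f_pm_123_t t 505 28 1 = true := ex3_b k58_pm_123_t s73_pm_123_t

theorem s75_pm_123_t : ∃ t, chk3 f_pm_123_t t 504 28 1 = true := ex3_a k56_pm_123_t k57_pm_123_t

theorem s76_pm_123_t : ∃ t, chk3 f_pm_123_t t 252 28 1 = true := ex3_a s75_pm_123_t s74_pm_123_t

theorem s77_pm_123_t : ∃ t, chk3 f_pm_123_t t 126 28 1 = true := ex3_a s76_pm_123_t k61_pm_123_t

theorem s78_pm_123_t : ∃ t, chk3 f_pm_123_t t 126 14 1 = true := ex3_b s77_pm_123_t s72_pm_123_t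

theorem s79_pm_123_t : ∃ t, chk3 f_pm_123_t t 126 7 1 = true := ex3_b s78_pm_123_t k67_pm_123_t

theorem s80_pm_123_t : ∃ t, chk3 f_pm_123_t t 63 7 1 = true := ex3_a s79_pm_123_t k68_pm_123_t

theorem s81_pm_123_t : ∃ t, chk3 f_pm_123_t t 1007 113 1 = true := ex3_b k51_pm_123_t k52_pm_123_t

theorem s82_pm_123_t : ∃ t, chk3 f_pm_123_t t 1007 56 1 = true := ex3_b k50_pm_123_t s81_pm_123_t

theorem s83_pm_123_t : ∃ t, chk3 f_pm_123_t t 1006 56 1 = true := ex3_b k48_pm_123_t k49_pm_123_t

theorem s84_pm_123_t : ∃ t, chk3 f_pm_123_t t 503 56 1 = true := ex3_a s83_pm_123_t s82_pm_123_t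

theorem s85_pm_123_t : ∃ t, chk3 f_pm_123_t t 1005 56 1 = true := ex3_a k46_pm_123_t k47_pm_123_t

theorem s86_pm_123_t : ∃ t, chk3 f_pm_123_t t 1004 112 1 = true := ex3_a k43_pm_123_t k44_pm_123_t

theorem s87_pm_123_t : ∃ t, chk3 f_pm_123_t t 1004 56 1 = true := ex3_b s86_pm_123_t k45_pm_123_t

theorem s88_pm_123_t : ∃ t, chk3 f_pm_123_t t 502 56 1 = true := ex3_a s87_pm_123_t s85_pm_123_t

theorem s89_pm_123_t : ∃ t, chk3 f_pm_123_t t 251 56 1 = true := ex3_a s88_pm_123_t s84_pm_123_t

theorem s90_pm_123_t : ∃ t, chk3 f_pm_123_t t 251 28 1 = true := ex3_b s89_pm_123_t k53_pm_123_t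

theorem s91_pm_123_t : ∃ t, chk3 f_pm_123_t t 125 28 1 = true := ex3_a k42_pm_123_t s90_pm_123_t

theorem s92_pm_123_t : ∃ t, chk3 f_pm_123_t t 125 14 1 = true := ex3_b s91_pm_123_t k54_pm_123_t

theorem s93_pm_123_t : ∃ t, chk3 f_pm_123_t t 62 14 1 = true := ex3_a k41_pm_123_t s92_pm_123_t

theorem s94_pm_123_t : ∃ t, chk3 f_pm_123_t t 62 7 1 = true := ex3_b s93_pm_123_t k55_pm_123_t

theorem s95_pm_123_t : ∃ t, chk3 f_pm_123_t t 31 7 1 = true := ex3_a s94_pm_123_t s80_pm_123_t

theorem s96_pm_123_t : ∃ t, chk3 f_pm_123_t t 1003 111 1 = true := ex3_a k37_pm_123_t k38_pm_123_t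

theorem s97_pm_123_t : ∃ t, chk3 f_pm_123_t t 1002 111 1 = true := ex3_a k35_pm_123_t k36_pm_123_t

theorem s98_pm_123_t : ∃ t, chk3 f_pm_123_t t 501 111 1 = true := ex3_a s97_pm_123_t s96_pm_123_t

theorem s99_pm_123_t : ∃ t, chk3 f_pm_123_t t 250 111 1 = true := ex3_a k34_pm_123_t s98_pm_123_t

theorem s100_pm_123_t : ∃ t, chk3 f_pm_123_t t 1000 110 1 = true := ex3_a k30_pm_123_t k31_pm_123_t

theorem s101_pm_123_t : ∃ t, chk3 f_pm_123_t t 500 110 1 = true := ex3_a s100_pm_123_t k32_pm_123_t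

theorem s102_pm_123_t : ∃ t, chk3 f_pm_123_t t 250 110 1 = true := ex3_a s101_pm_123_t k33_pm_123_t

theorem s103_pm_123_t : ∃ t, chk3 f_pm_123_t t 250 55 1 = true := ex3_b s102_pm_123_t s99_pm_123_t

theorem s104_pm_123_t : ∃ t, chk3 f_pm_123_t t 125 55 1 = true := ex3_a s103_pm_123_t k39_pm_123_t

theorem s105_pm_123_t : ∃ t, chk3 f_pm_123_t t 125 27 1 = true := ex3_b k29_pm_123_t s104_pm_123_t

theorem s106_pm_123_t : ∃ t, chk3 f_pm_123_t t 499 110 1 = true := ex3_c k26_pm_123_t k27_pm_123_t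

theorem s107_pm_123_t : ∃ t, chk3 f_pm_123_t t 249 110 1 = true := ex3_a k25_pm_123_t s106_pm_123_t

theorem s108_pm_123_t : ∃ t, chk3 f_pm_123_t t 249 55 1 = true := ex3_b s107_pm_123_t k28_pm_123_t

theorem s109_pm_123_t : ∃ t, chk3 f_pm_123_t t 124 55 1 = true := ex3_a k24_pm_123_t s108_pm_123_t

theorem s110_pm_123_t : ∃ t, chk3 f_pm_123_t t 499 109 1 = true := ex3_a k22_pm_123_t k23_pm_123_t

theorem s111_pm_123_t : ∃ t, chk3 f_pm_123_t t 499 54 1 = true := ex3_b k21_pm_123_t s110_pm_123_t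

theorem s112_pm_123_t : ∃ t, chk3 f_pm_123_t t 498 54 1 = true := ex3_a k19_pm_123_t k20_pm_123_t

theorem s113_pm_123_t : ∃ t, chk3 f_pm_123_t t 249 54 1 = true := ex3_a s112_pm_123_t s111_pm_123_t

theorem s114_pm_123_t : ∃ t, chk3 f_pm_123_t t 248 108 1 = true := ex3_a k16_pm_123_t k17_pm_123_t

theorem s115_pm_123_t : ∃ t, chk3 f_pm_123_t t 248 54 1 = true := ex3_b s114_pm_123_t k18_pm_123_t

theorem s116_pm_123_t : ∃ t, chk3 f_pm_123_t t 124 54 1 = true := ex3_a s115_pm_123_t s113_pm_123_t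

theorem s117_pm_123_t : ∃ t, chk3 f_pm_123_t t 124 27 1 = true := ex3_b s116_pm_123_t s109_pm_123_t

theorem s118_pm_123_t : ∃ t, chk3 f_pm_123_t t 62 27 1 = true := ex3_a s117_pm_123_t s105_pm_123_t

theorem s119_pm_123_t : ∃ t, chk3 f_pm_123_t t 62 13 1 = true := ex3_b k15_pm_123_t s118_pm_123_t

theorem s120_pm_123_t : ∃ t, chk3 f_pm_123_t t 62 6 1 = true := ex3_b k14_pm_123_t s119_pm_123_t

theorem s121_pm_123_t : ∃ t, chk3 f_pm_123_t t 31 6 1 = true := ex3_a s120_pm_123_t k40_pm_123_t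

theorem s122_pm_123_t : ∃ t, chk3 f_pm_123_t t 31 3 1 = true := ex3_b s121_pm_123_t s95_pm_123_t

theorem s123_pm_123_t : ∃ t, chk3 f_pm_123_t t 247 53 1 = true := ex3_b k10_pm_123_t k11_pm_123_t

theorem s124_pm_123_t : ∃ t, chk3 f_pm_123_t t 123 53 1 = true := ex3_a k9_pm_123_t s123_pm_123_t

theorem s125_pm_123_t : ∃ t, chk3 f_pm_123_t t 123 26 1 = true := ex3_b k8_pm_123_t s124_pm_123_t

theorem s126_pm_123_t : ∃ t, chk3 f_pm_123_t t 61 26 1 = true := ex3_a k7_pm_123_t s125_pm_123_t

theorem s127_pm_123_t : ∃ t, chk3 f_pm_123_t t 61 13 1 = true := ex3_b s126_pm_123_t k12_pm_123_t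

theorem s128_pm_123_t : ∃ t, chk3 f_pm_123_t t 30 13 1 = true := ex3_a k6_pm_123_t s127_pm_123_t

theorem s129_pm_123_t : ∃ t, chk3 f_pm_123_t t 30 6 1 = true := ex3_b k5_pm_123_t s128_pm_123_t

theorem s130_pm_123_t : ∃ t, chk3 f_pm_123_t t 30 3 1 = true := ex3_b s129_pm_123_t k13_pm_123_t

theorem s131_pm_123_t : ∃ t, chk3 f_pm_123_t t 15 3 1 = true := ex3_a s130_pm_123_t s122_pm_123_t

theorem s132_pm_123_t : ∃ t, chk3 f_pm_123_t t 7 3 1 = true := ex3_a k4_pm_123_t s131_pm_123_t

theorem s133_pm_123_t : ∃ t, chk3 f_pm_123_t t 7 1 1 = true := ex3_b k3_pm_123_t s132_pm_123_t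

theorem s134_pm_123_t : ∃ t, chk3 f_pm_123_t t 6 1 1 = true := ex3_b k1_pm_123_t k2_pm_123_t

theorem s135_pm_123_t : ∃ t, chk3 f_pm_123_t t 3 1 1 = true := ex3_a s134_pm_123_t s133_pm_123_t

theorem s136_pm_123_t : ∃ t, chk3 f_pm_123_t t 1 1 1 = true := ex3_a k0_pm_123_t s135_pm_123_t

theorem c_pm_123_t : CertNE 536870912 536870912 0 536870912 536870912 50465866 3 eng mog cd0q1 cd0q2 pd3 true true false .npn 1 2 3
    ndB0q1 ndB0q2 pcB3 cut_pm_123_t Ext.none :=
  certNE2 (fam := true) (s1 := true) (s2 := false) (a := 1) (b := 2) (c := 3) (cn := .npn) (n1 := ndB0q1) (n2 := ndB0q2) (pc := pcB3) (cut := cut_pm_123_t) (xt := Ext.none) (P1 := 536870912) (W1 := 536870912) (P2 := 0) (W2 := 536870912) (P3 := 536870912) (W3 := 50465866) (N0 := 3) (En := eng) (mo := mog) (C1 := cd0q1) (C2 := cd0q2) (C3 := pd3)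
    rfl (fun _ => rfl) s136_pm_123_t

noncomputable def cut_pm_202_s : Cut := Cut.of [[⟨4, 0, 0, 1449551462⟩], [⟨0, 1, 0, 67108864⟩, ⟨1, 0, 0, 67108864⟩, ⟨2, 1, 0, 67108864⟩], [⟨0, 1, 0, 33554432⟩, ⟨1, 0, 1, 20971520⟩, ⟨2, 1, 1, 20971520⟩]]

noncomputable def f_pm_202_s : ℕ → ℕ → ℕ → ℕ → Bool := onCell 0 536870912 1073741824 536870912 536870912 50465866
    (rowNE 3 eng mog cd0q2 cd0q0 pd2 1 true true false .pp 2 0 2 (qsf 0 536870912 0 536870912 2) ndB0q2 ndB0q0 pcB2 cut_pm_202_s Ext.none)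

def k0_pm_202_s : ∃ t, chk3 f_pm_202_s t 2 1 1 = true :=
  ⟨(b (b (b (l 1) (l 6)) (l 6)) (l 6)), by decide +kernel⟩

def k1_pm_202_s : ∃ t, chk3 f_pm_202_s t 3 8 1 = true :=
  ⟨(a (l 1) (a (b (l 1) (b (a (l 1) (l 14)) (b (a (l 1) (l 14)) (a (a (l 1) (a (l 16651712) (l 16656832))) (b (l 14) (a (l 16662896) (l 16672728))))))) (b (l 14) (b (l 14) (b (l 14) (b (l 14) (a (a (l 16682328) (l 16691768)) (a (c (l 16701608) (l 16700744)) (a (l 16707784) (c (l 16713040) (l 16711360))))))))))), by decide +kernel⟩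

def k2_pm_202_s : ∃ t, chk3 f_pm_202_s t 6 9 1 = true :=
  ⟨(a (b (l 1) (l 6)) (b (a (b (l 1) (b (a (l 1) (l 16599952)) (a (l 16586616) (l 16595664)))) (b (b (l 1) (a (l 16613928) (l 16623632))) (a (b (l 16609304) (l 16604536)) (b (l 16618512) (c (l 16613632) (l 16612432)))))) (a (b (b (a (l 16582600) (l 16591208)) (a (l 6) (l 16628536))) (l 6)) (b (a (c (l 16597176) (l 16596432)) (l 16618248)) (a (l 16586664) (l 16593848)))))), by decide +kernel⟩

def k3_pm_202_s : ∃ t, chk3 f_pm_202_s t 7 9 1 = true :=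
  ⟨(a (b (a (b (a (b (l 16638648) (l 16633200)) (b (l 16648528) (l 16642624))) (a (b (l 16627624) (l 16621928)) (l 16633560))) (a (b (b (c (l 16658608) (l 16657560)) (l 16651896)) (l 16663184)) (b (b (l 16667744) (l 16661000)) (l 16671808)))) (b (a (a (l 16613144) (l 16621088)) (a (l 16629536) (l 16659224))) (a (l 16647488) (b (l 16667032) (l 16661224))))) (a (b (a (b (c (l 16694632) (l 16673496)) (l 16680880)) (b (b (l 16707336) (l 16700208)) (a (l 16687472) (l 16691792)))) (b (a (l 16688664) (c (l 16677056) (l 16654064))) (a (l 16675840) (c (l 16643024) (l 16640280))))) (b (a (b (c (a (l 16711152) (b (l 16698384) (l 16691080))) (a (l 16689120) (l 16693376))) (c (b (l 16681728) (l 16674624)) (a (l 16695304) (l 16707168)))) (b (a (a (b (l 16700960) (l 16693408)) (c (l 16710728) (l 16709016))) (c (b (a (l 16706200) (l 16708376)) (a (l 16698648) (l 16700752))) (b (l 16712008) (l 16697624)))) (a (b (l 16697432) (l 16679480)) (b (c (a (l 16691176) (l 16693208)) (l 16689848)) (c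 (l 16684720) (l 16682128)))))) (a (b (a (b (l 16664376) (l 16657352)) (b (l 16668288) (l 16661128))) (b (a (l 16650416) (l 16654040)) (l 16655824))) (b (a (b (l 16672104) (l 16664800)) (b (c (l 16677352) (l 16674472)) (c (l 16670040) (l 16666888)))) (b (a (l 16657560) (c (l 16662792) (l 16659360))) (a (l 16650416) (c (l 16655664) (l 16651920))))))))), by decide +kernel⟩

def k4_pm_202_s : ∃ t, chk3 f_pm_202_s t 6 5 1 = true :=
  ⟨(b (b (a (l 6) (b (a (l 6) (l 16621408)) (l 6))) (l 6)) (l 6)), by decide +kernel⟩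

def k5_pm_202_s : ∃ t, chk3 f_pm_202_s t 14 5 1 = true :=
  ⟨(b (b (b (a (a (l 16591528) (l 16599336)) (b (l 16655520) (l 16649952))) (b (a (l 16609400) (l 16665432)) (a (b (l 16584888) (b (l 16582944) (l 16644312))) (b (l 16640328) (b (l 16638048) (c (l 16639024) (l 16592152))))))) (b (a (l 6) (a (l 16647976) (l 16654000))) (a (l 6) (a (l 6) (l 16578744))))) (l 6)), by decide +kernel⟩

def k6_pm_202_s : ∃ t, chk3 f_pm_202_s t 30 5 1 = true :=
  ⟨(b (a (b (b (c (l 16623416) (l 16620000)) (b (l 16612504) (b (l 16607960) (b (l 16605432) (c (l 16627064) (l 16601296)))))) (b (c (l 16641768) (l 16594632)) (l 16626352))) (b (b (c (l 16651368) (l 16668800)) (b (l 16618952) (b (l 16614136) (b (l 16611448) (a (c (l 16610472) (l 16605696)) (c (l 16634312) (l 16629520))))))) (b (b (b (l 16607312) (l 16604336)) (l 16599400)) (l 16631784)))) (b (b (a (l 16572584) (l 16577968)) (l 6)) (l 6))), by decide +kernel⟩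

def k7_pm_202_s : ∃ t, chk3 f_pm_202_s t 31 5 1 = true :=
  ⟨(b (b (b (a (b (l 16649008) (c (l 16633976) (l 16629968))) (a (b (l 16643360) (l 16657376)) (b (c (l 16648624) (l 16644552)) (c (l 16641704) (l 16637256))))) (b (a (c (l 16627520) (l 16623072)) (c (a (l 16631960) (b (l 16636584) (l 16633136))) (a (l 16627296) (l 16629952)))) (b (a (c (l 16622632) (l 16617816)) (c (a (l 16626848) (b (l 16630504) (l 16628672))) (a (l 16621840) (l 16624360)))) (b (a (c (l 16619872) (l 16614920)) (c (a (l 16623952) (b (l 16627200) (c (l 16627624) (l 16624584)))) (b (l 16620696) (l 16619568)))) (b (b (b (a (l 16615920) (c (a (l 16622648) (l 16625216)) (l 16618776))) (b (a (l 16615584) (c (a (l 16622280) (l 16624840)) (l 16618440))) (a (c (l 16617912) (l 16613064)) (c (a (l 16621888) (b (b (l 16624600) (c (l 16625992) (l 16622992))) (l 16624424))) (a (l 16616880) (l 16629752)))))) (a (l 16615032) (c (a (l 16621696) (l 16624232)) (l 16617872)))) (a (l 16614504) (c (a (l 16621184) (l 16623704))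 (l 16617280)))))))) (b (b (a (b (c (l 16615624) (l 16610416)) (l 16609688)) (c (a (b (l 16619496) (l 16616424)) (b (c (l 16623608) (l 16620432)) (l 16618848))) (b (a (l 16614128) (l 16616448)) (l 16612032)))) (a (c (l 16607576) (l 16602192)) (c (a (l 16611344) (l 16624240)) (a (l 16605744) (l 16607952))))) (a (b (l 16598168) (l 16591912)) (c (a (l 16601632) (b (l 16607200) (l 16600960))) (b (l 16610712) (l 16593840)))))) (b (a (b (b (l 16585960) (l 16580376)) (c (l 16575528) (l 16569704))) (b (c (a (l 16589848) (b (l 16595096) (l 16589536))) (b (l 16587784) (l 16582024))) (a (l 16597048) (b (c (l 16584248) (l 16577480)) (c (l 16579120) (l 16572152)))))) (b (b (a (l 6) (a (l 6) (c (l 16574168) (l 16567040)))) (l 6)) (l 6)))), by decide +kernel⟩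

def k8_pm_202_s : ∃ t, chk3 f_pm_202_s t 3 3 1 = true :=
  ⟨(l 6), by decide +kernel⟩

theorem s9_pm_202_s : ∃ t, chk3 f_pm_202_s t 15 5 1 = true := ex3_a k6_pm_202_s k7_pm_202_s

theorem s10_pm_202_s : ∃ t, chk3 f_pm_202_s t 7 5 1 = true := ex3_a k5_pm_202_s s9_pm_202_s

theorem s11_pm_202_s : ∃ t, chk3 f_pm_202_s t 3 5 1 = true := ex3_a k4_pm_202_s s10_pm_202_s

theorem s12_pm_202_s : ∃ t, chk3 f_pm_202_s t 3 9 1 = true := ex3_a k2_pm_202_s k3_pm_202_s

theorem s13_pm_202_s : ∃ t, chk3 f_pm_202_s t 3 4 1 = true := ex3_b k1_pm_202_s s12_pm_202_s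

theorem s14_pm_202_s : ∃ t, chk3 f_pm_202_s t 3 2 1 = true := ex3_b s13_pm_202_s s11_pm_202_s

theorem s15_pm_202_s : ∃ t, chk3 f_pm_202_s t 3 1 1 = true := ex3_b s14_pm_202_s k8_pm_202_s

theorem s16_pm_202_s : ∃ t, chk3 f_pm_202_s t 1 1 1 = true := ex3_a k0_pm_202_s s15_pm_202_s

theorem c_pm_202_s : CertNE 0 536870912 0 536870912 536870912 50465866 3 eng mog cd0q2 cd0q0 pd2 true true false .pp 2 0 2
    ndB0q2 ndB0q0 pcB2 cut_pm_202_s Ext.none :=
  certNE1 (fam := true) (s1 := true) (s2 := false) (a := 2) (b := 0) (c := 2) (cn := .pp) (n1 := ndB0q2) (n2 := ndB0q0) (pc := pcB2) (cut := cut_pm_202_s) (xt := Ext.none) (P1 := 0) (W1 := 536870912) (P2 := 0) (W2 := 536870912) (P3 := 536870912) (W3 := 50465866) (N0 := 3) (En := eng) (mo := mog) (C1 := cd0q2) (C2 := cd0q0) (C3 := pd2)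
    rfl (fun _ => rfl) s16_pm_202_s

noncomputable def cut_pm_202_t : Cut := Cut.of [[⟨3, 0, 0, 2845415833⟩], [⟨0, 1, 0, 67108864⟩, ⟨1, 0, 0, 67108864⟩, ⟨2, 1, 0, 67108864⟩], [⟨0, 1, 0, 33554432⟩, ⟨1, 0, 1, 20971520⟩, ⟨2, 1, 1, 20971520⟩]]

noncomputable def f_pm_202_t : ℕ → ℕ → ℕ → ℕ → Bool := onCell 0 536870912 1073741824 536870912 536870912 50465866
    (rowNE 3 eng mog cd0q2 cd0q0 pd2 1 true true false .pp 2 0 2 (qsf 0 536870912 0 536870912 2) ndB0q2 ndB0q0 pcB2 cut_pm_202_t Ext.none)

def k0_pm_202_t : ∃ t, chk3 f_pm_202_t t 1 1 1 = true :=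
  ⟨(a (b (l 6) (l 6)) (l 6)), by decide +kernel⟩

theorem c_pm_202_t : CertNE 0 536870912 0 536870912 536870912 50465866 3 eng mog cd0q2 cd0q0 pd2 true true false .pp 2 0 2
    ndB0q2 ndB0q0 pcB2 cut_pm_202_t Ext.none :=
  certNE1 (fam := true) (s1 := true) (s2 := false) (a := 2) (b := 0) (c := 2) (cn := .pp) (n1 := ndB0q2) (n2 := ndB0q0) (pc := pcB2) (cut := cut_pm_202_t) (xt := Ext.none) (P1 := 0) (W1 := 536870912) (P2 := 0) (W2 := 536870912) (P3 := 536870912) (W3 := 50465866) (N0 := 3) (En := eng) (mo := mog) (C1 := cd0q2) (C2 := cd0q0) (C3 := pd2)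
    rfl (fun _ => rfl) k0_pm_202_t

noncomputable def cut_pm_203_s : Cut := Cut.of [[⟨4, 0, 0, 1449551462⟩], [⟨0, 1, 0, 33554432⟩, ⟨1, 0, 1, 20971520⟩, ⟨2, 1, 1, 20971520⟩]]

noncomputable def f_pm_203_s : ℕ → ℕ → ℕ → ℕ → Bool := onCell 0 536870912 1610612736 536870912 536870912 50465866
    (rowNE 3 eng mog cd0q2 cd0q0 pd3 1 true true false .up 2 0 3 (qsf 0 536870912 0 536870912 3) ndB0q2 ndB0q0 pcB3 cut_pm_203_s Ext.none)

def k0_pm_203_s : ∃ t, chk3 f_pm_203_s t 1 1 1 = true :=
  ⟨(l 6), by decide +kernel⟩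

theorem c_pm_203_s : CertNE 0 536870912 0 536870912 536870912 50465866 3 eng mog cd0q2 cd0q0 pd3 true true false .up 2 0 3
    ndB0q2 ndB0q0 pcB3 cut_pm_203_s Ext.none :=
  certNE1 (fam := true) (s1 := true) (s2 := false) (a := 2) (b := 0) (c := 3) (cn := .up) (n1 := ndB0q2) (n2 := ndB0q0) (pc := pcB3) (cut := cut_pm_203_s) (xt := Ext.none) (P1 := 0) (W1 := 536870912) (P2 := 0) (W2 := 536870912) (P3 := 536870912) (W3 := 50465866) (N0 := 3) (En := eng) (mo := mog) (C1 := cd0q2) (C2 := cd0q0) (C3 := pd3)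
    rfl (fun _ => rfl) k0_pm_203_s

noncomputable def cut_pm_203_t : Cut := Cut.of [[⟨3, 0, 0, 2845415833⟩], [⟨0, 1, 0, 33554432⟩, ⟨1, 0, 1, 20971520⟩, ⟨2, 1, 1, 20971520⟩]]

noncomputable def f_pm_203_t : ℕ → ℕ → ℕ → ℕ → Bool := onCell 0 536870912 0 536870912 536870912 50465866
    (rowNE 3 eng mog cd0q2 cd0q0 pd3 0 true true false .up 2 0 3 (qsf 0 536870912 0 536870912 3) ndB0q2 ndB0q0 pcB3 cut_pm_203_t Ext.none)

def k0_pm_203_t : ∃ t, chk3 f_pm_203_t t 1 1 1 = true :=
  ⟨(a (b (l 1) (b (a (b (l 1) (a (b (l 1) (a (l 16667344) (l 6))) (l 6))) (l 6)) (a (b (a (b (a (l 16663928) (l 6)) (a (l 16664776) (l 16646216))) (l 6)) (a (b (a (l 16707432) (l 16693920)) (a (l 16738608) (l 16729280))) (b (l 16676912) (a (l 16719984) (l 16709776))))) (b (l 6) (l 6))))) (l 6)), by decide +kernel⟩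

theorem c_pm_203_t : CertNE 0 536870912 0 536870912 536870912 50465866 3 eng mog cd0q2 cd0q0 pd3 true true false .up 2 0 3
    ndB0q2 ndB0q0 pcB3 cut_pm_203_t Ext.none :=
  certNE0 (fam := true) (s1 := true) (s2 := false) (a := 2) (b := 0) (c := 3) (cn := .up) (n1 := ndB0q2) (n2 := ndB0q0) (pc := pcB3) (cut := cut_pm_203_t) (xt := Ext.none) (P1 := 0) (W1 := 536870912) (P2 := 0) (W2 := 536870912) (P3 := 536870912) (W3 := 50465866) (N0 := 3) (En := eng) (mo := mog) (C1 := cd0q2) (C2 := cd0q0) (C3 := pd3)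
    rfl k0_pm_203_t

noncomputable def cut_pm_213_s : Cut := Cut.of [[⟨4, 0, 0, 1449551462⟩], [⟨0, 1, 0, 67108864⟩, ⟨1, 1, 0, 67108864⟩, ⟨2, 2, 0, 16777216⟩], [⟨0, 1, 0, 33554432⟩, ⟨1, 0, 1, 20971520⟩, ⟨2, 1, 1, 20971520⟩]]

noncomputable def f_pm_213_s : ℕ → ℕ → ℕ → ℕ → Bool := onCell 0 536870912 536870912 536870912 536870912 50465866
    (rowNE 3 eng mog cd0q2 cd0q1 pd3 0 true true false .pnn 2 1 3 (qsf 0 536870912 536870912 536870912 3) ndB0q2 ndB0q1 pcB3 cut_pm_213_s Ext.none)

def k0_pm_213_s : ∃ t, chk3 f_pm_213_s t 1 1 1 = true :=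
  ⟨(l 6), by decide +kernel⟩

theorem c_pm_213_s : CertNE 0 536870912 536870912 536870912 536870912 50465866 3 eng mog cd0q2 cd0q1 pd3 true true false .pnn 2 1 3
    ndB0q2 ndB0q1 pcB3 cut_pm_213_s Ext.none :=
  certNE0 (fam := true) (s1 := true) (s2 := false) (a := 2) (b := 1) (c := 3) (cn := .pnn) (n1 := ndB0q2) (n2 := ndB0q1) (pc := pcB3) (cut := cut_pm_213_s) (xt := Ext.none) (P1 := 0) (W1 := 536870912) (P2 := 536870912) (W2 := 536870912) (P3 := 536870912) (W3 := 50465866) (N0 := 3) (En := eng) (mo := mog) (C1 := cd0q2) (C2 := cd0q1) (C3 := pd3)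
    rfl k0_pm_213_s

noncomputable def cut_pm_213_t : Cut := Cut.of [[⟨3, 0, 0, 2845415833⟩], [⟨0, 1, 0, 67108864⟩, ⟨1, 1, 0, 67108864⟩, ⟨2, 2, 0, 16777216⟩], [⟨0, 1, 0, 33554432⟩, ⟨1, 0, 1, 20971520⟩, ⟨2, 1, 1, 20971520⟩]]

noncomputable def f_pm_213_t : ℕ → ℕ → ℕ → ℕ → Bool := onCell 0 536870912 1610612736 536870912 536870912 50465866
    (rowNE 3 eng mog cd0q2 cd0q1 pd3 1 true true false .pnn 2 1 3 (qsf 0 536870912 536870912 536870912 3) ndB0q2 ndB0q1 pcB3 cut_pm_213_t Ext.none)

def k0_pm_213_t : ∃ t, chk3 f_pm_213_t t 4 1 1 = true :=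
  ⟨(b (b (l 1) (b (b (b (l 1) (a (l 16742240) (l 16729552))) (a (a (l 16758408) (l 16752584)) (l 16725016))) (a (b (a (l 16790016) (l 16764584)) (a (b (l 16774760) (a (l 101166612007) (l 16776240))) (b (l 16771976) (l 16775056)))) (b (b (l 16756200) (l 16763408)) (b (l 16769920) (l 16774456)))))) (b (a (b (b (a (b (a (l 4) (l 102777224727)) (l 4)) (b (l 16776744) (a (b (l 83986760759) (l 132841994695)) (l 16788440)))) (a (l 4) (b (a (l 4) (b (l 90429217591) (l 154853701527))) (l 4)))) (l 4)) (a (b (b (b (l 16776736) (l 16777848)) (b (b (l 16778024) (l 42647700887)) (a (b (l 107072191943) (l 162369893479)) (b (l 16777976) (l 68417506007))))) (b (b (a (l 4) (b (l 121567726727) (l 4))) (l 4)) (l 4))) (b (b (l 16778584) (b (l 16779888) (l 16779680))) (b (b (a (b (l 16778120) (a (l 108145959719) (l 16777720))) (l 16779384)) (a (b (l 142505691223) (l 4)) (b (l 56069472711) (a (l 151632476247) (l 88281729095))))) (l 4))))) (l 4))), by decide +kernel⟩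

def k1_pm_213_t : ∃ t, chk3 f_pm_213_t t 5 2 1 = true :=
  ⟨(b (l 6) (b (a (b (l 16712792) (a (l 16742528) (l 16741088))) (l 6)) (a (b (a (l 16757536) (l 16759056)) (a (l 16773160) (l 16775696))) (b (l 16827824) (a (l 16780000) (l 16785616)))))), by decide +kernel⟩

def k2_pm_213_t : ∃ t, chk3 f_pm_213_t t 5 3 1 = true :=
  ⟨(b (b (a (b (b (l 16781440) (l 16784048)) (b (l 16764472) (a (l 16783320) (l 16788656)))) (b (a (l 16790256) (l 16797184)) (a (b (l 16794304) (l 16795800)) (l 16824320)))) (b (a (b (a (l 16782616) (l 16788144)) (a (a (l 16784704) (l 16781832)) (l 16765192))) (a (l 16794600) (b (l 16804048) (l 16801856)))) (a (b (a (a (b (a (l 105461605127) (l 16778104)) (a (l 4) (l 124788952631))) (b (l 16779808) (a (l 65733147495) (l 16779064)))) (b (l 16783944) (l 16782720))) (a (a (l 4) (b (a (l 145190025495) (l 86134247495)) (l 4))) (a (b (l 16779608) (a (l 106535342359) (l 16778488))) (b (l 16782848) (l 16780936))))) (a (b (l 16790296) (l 16787576)) (b (l 16777256)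 (l 16795696)))))) (b (b (a (a (l 4) (b (a (b (a (l 4) (l 128010172631)) (l 4)) (b (a (l 73786211543) (l 16779544)) (a (l 151632476055) (b (l 16777904) (l 129620769975))))) (l 4))) (b (a (b (l 16784320) (a (l 51774500023) (l 16783632))) (l 16790992)) (a (a (b (a (b (l 109756562215) (l 4)) (b (l 16778664) (l 84523626935))) (a (l 4) (l 151632476007))) (b (l 16780784) (a (b (l 16781872) (l 134452608007)) (l 60364434055)))) (b (l 16786752) (a (l 16781672) (l 16785600)))))) (a (l 4) (b (a (a (l 4) (b (a (l 4) (b (l 122104577463) (l 4))) (l 4))) (b (a (a (b (l 16778472) (l 97408532279)) (l 16779560)) (l 16782512)) (a (a (l 4) (b (l 94187305479) (l 166127991079))) (b (l 16780104) (a (l 87207982071) (l 16779384)))))) (a (l 4) (b (a (l 4) (b (a (l 155927443991) (l 81839272151)) (a (l 4) (a (l 4) (l 114588401543))))) (l 4)))))) (l 4))), by decide +kernel⟩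

def k3_pm_213_t : ∃ t, chk3 f_pm_213_t t 3 2 1 = true :=
  ⟨(b (l 6) (a (b (l 6) (l 6)) (l 6))), by decide +kernel⟩

def k4_pm_213_t : ∃ t, chk3 f_pm_213_t t 3 6 1 = true :=
  ⟨(a (b (a (b (a (l 16804992) (l 16814736)) (a (l 16812352) (l 16821560))) (b (l 6) (a (l 16832216) (l 16842504)))) (a (b (a (b (l 16812880) (l 16810184)) (l 16820528)) (a (b (a (l 16804280) (l 16808152)) (l 16803520)) (b (l 16813848) (l 16810144)))) (b (a (l 16849736) (l 16878944)) (a (b (l 16820872) (l 16816344)) (b (l 16828288) (l 16822960)))))) (b (l 6) (a (b (a (b (l 16848848) (l 16843344)) (b (l 6) (l 16853632))) (a (b (l 16836896) (l 16831144)) (b (l 16847320) (l 16841800)))) (b (l 6) (a (b (l 16860072) (l 16854816)) (b (l 6) (l 16869888))))))), by decide +kernel⟩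

def k5_pm_213_t : ∃ t, chk3 f_pm_213_t t 3 14 1 = true :=
  ⟨(a (b (a (b (a (l 16798968) (a (l 16804072) (l 16807112))) (a (l 16792936) (b (l 16801760) (l 16798880)))) (a (b (l 16811528) (l 16806232)) (b (l 16817896) (l 16812800)))) (a (b (a (b (l 16788288) (a (l 16783112) (l 16776336))) (b (l 16795680) (l 16792304))) (a (b (a (b (l 16780560) (a (c (l 74323078247) (l 72175594487)) (l 16779792))) (c (l 16783904) (l 16783064))) (a (b (a (c (l 145726897319) (l 150558734967)) (c (l 70564981271) (l 67343755479))) (a (l 4) (b (a (l 4) (l 111367168503)) (l 4)))) (b (c (l 16781144) (l 16780672)) (a (c (b (l 16778696) (l 77544301287)) (l 16780872)) (l 16780080))))) (b (c (l 16784656) (l 16788112)) (a (c (l 16784256) (l 16783360)) (l 16777096))))) (a (b (a (b (l 16800400) (l 16797712)) (l 16802264)) (b (a (l 16794624) (l 16798112)) (a (l 16791392) (l 16800648)))) (b (l 16807504) (a (b (l 16801632) (l 16798720)) (l 16803968)))))) (a (b (a (b (l 16826240) (l 16821160)) (b (l 16836880)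 (l 16831944))) (b (a (l 16816048) (l 16847416)) (a (a (l 16808112) (l 16812632)) (a (l 16817464) (l 16822552))))) (b (a (b (l 16850040) (l 16844616)) (b (l 16864424) (l 16857840))) (a (b (a (l 16835216) (l 16841072)) (a (l 16827656) (l 16832600))) (b (a (l 16846672) (l 16851848)) (a (l 16836992) (l 16840832))))))), by decide +kernel⟩

def k6_pm_213_t : ∃ t, chk3 f_pm_213_t t 12 30 1 = true :=
  ⟨(b (a (b (a (l 4) (b (a (b (a (l 4) (l 110293426759)) (l 219278211479)) (b (l 16778696) (a (l 100629750375) (l 16778224)))) (a (l 4) (b (a (l 224646921143) (l 113514652759)) (l 233773726055))))) (l 4)) (b (a (b (l 16781144) (a (b (l 16778728) (l 76470560983)) (l 16780200))) (l 16784088)) (a (b (a (b (a (l 4) (l 128547039159)) (l 4)) (b (l 16778696) (l 81839271383))) (a (l 4) (b (a (l 4) (l 143042554311)) (l 4)))) (b (l 16781192) (a (b (l 16778608) (a (l 158611809383) (l 16778032))) (l 16780088)))))) (a (l 4) (b (a (l 4) (b (a (b (a (l 4) (c (l 170422965175) (l 171496706759))) (l 4))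 (b (l 44795172647) (a (a (l 250953596087) (l 167738612583)) (c (l 66806880199) (l 65196267543))))) (a (l 4) (a (l 4) (a (l 4) (b (b (l 157538063079) (l 4)) (l 4))))))) (l 4)))), by decide +kernel⟩

def k7_pm_213_t : ∃ t, chk3 f_pm_213_t t 13 60 1 = true :=
  ⟨(a (b (a (l 16777496) (l 16791936)) (a (b (l 16785176) (l 16783144)) (l 16782960))) (b (a (a (l 16795008) (l 16796656)) (l 16799536)) (a (b (l 16793368) (l 16791296)) (a (b (l 16796120) (l 16794480)) (l 16797096))))), by decide +kernel⟩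

def k8_pm_213_t : ∃ t, chk3 f_pm_213_t t 26 122 1 = true :=
  ⟨(a (b (a (l 16779904) (l 16781968)) (a (b (b (l 16778448) (a (a (l 175254802615) (l 16777600)) (l 16778360))) (b (a (a (l 4) (l 195655892727)) (l 56606330455)) (a (l 4) (a (l 222499438199) (c (l 88281714615) (l 87744843863)))))) (b (l 16780232) (l 16776392)))) (b (l 16785064) (a (l 16779088) (l 16778552)))), by decide +kernel⟩

def k9_pm_213_t : ∃ t, chk3 f_pm_213_t t 52 123 1 = true :=
  ⟨(b (a (a (l 4) (a (l 4) (b (b (l 255785434615) (l 4)) (l 4)))) (a (b (b (b (l 16778368) (a (a (l 258469789431) (l 16778544)) (l 16777640))) (a (l 4) (b (c (l 94187293831) (l 93650422903)) (a (l 4) (l 181697251495))))) (l 4)) (b (a (b (l 16778328) (l 16778024)) (l 16778536)) (b (b (a (a (l 210688279687) (l 81839261591)) (l 16777728)) (b (a (l 255785434839) (l 16777488)) (a (l 4) (a (l 136600094455) (l 16777448))))) (a (l 4) (b (a (l 292829527751) (b (l 89892324887) (a (l 4) (l 139821319511)))) (l 4))))))) (l 4)), by decide +kernel⟩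

def k10_pm_213_t : ∃ t, chk3 f_pm_213_t t 53 246 1 = true :=
  ⟨(b (a (l 16778552) (l 16776728)) (a (b (c (l 16777648) (l 16777520)) (a (a (b (l 16777600) (a (b (a (l 165054252903) (l 16777296)) (l 261691014983)) (b (l 16777480) (a (l 101703484615) (l 16777376))))) (l 16777312)) (l 16778768))) (l 16779376))), by decide +kernel⟩

def k11_pm_213_t : ∃ t, chk3 f_pm_213_t t 106 247 1 = true :=
  ⟨(a (b (b (b (a (b (a (l 4) (a (l 290682044263) (a (l 184381604791) (l 123178320759)))) (l 4)) (a (b (l 16777408) (a (a (l 201561473927) (l 141431931927)) (l 16777640))) (l 16777592))) (a (l 4) (a (b (a (l 4) (a (l 283702722439) (l 176865411943))) (l 4)) (b (a (a (l 116198998967) (l 16777304)) (l 16777408)) (a (l 241826791303) (b (l 16777288) (l 159148671863))))))) (a (l 4) (a (l 4) (a (l 4) (l 4))))) (l 4)) (a (b (b (c (l 16777192) (l 16777144)) (b (a (b (a (b (l 113514644327) (l 199950861047)) (l 16777336)) (b (a (l 4) (l 147874382791)) (l 284239593287))) (b (l 16777536) (c (l 72712454951)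 (l 70564971287)))) (a (l 4) (b (a (b (l 190824055559) (l 4)) (b (l 16777296) (l 141968802759))) (l 278334013223))))) (l 4)) (b (b (l 16778360) (b (l 16777848) (a (b (l 16777456) (b (l 76470551255) (a (c (l 182770991895) (l 185992217335)) (l 16777304)))) (l 16777640)))) (b (b (a (b (b (a (l 4) (l 135526351831)) (l 267059724119)) (l 4)) (b (c (l 66806874791) (l 64659391127)) (b (a (c (l 176865411879) (l 180086637319)) (l 16777312)) (a (l 4) (c (l 130157642727) (l 130694513639)))))) (a (l 4) (b (c (l 269207207783) (l 272965304055)) (l 4)))) (l 4))))), by decide +kernel⟩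

def k12_pm_213_t : ∃ t, chk3 f_pm_213_t t 107 247 1 = true :=
  ⟨(b (a (a (b (l 16778896) (l 16778208)) (l 16777776)) (l 16779888)) (b (a (a (b (l 16777040) (a (a (b (b (l 16777528) (c (l 173107315495) (l 175254799127))) (l 4)) (b (l 16777360) (b (c (l 126936417191) (l 127473288167)) (l 233236856759)))) (a (b (l 16777496) (l 73786196567)) (l 16777544)))) (l 16777400)) (l 16777544)) (a (a (b (a (l 4) (a (b (a (l 274039046039) (b (l 132305126119) (l 4))) (l 4)) (b (b (l 16777320) (c (l 124252062551) (l 124252062551))) (b (l 229478761031) (l 4))))) (l 4)) (a (a (b (b (l 16777408) (b (l 16777448) (b (l 144116286247) (a (l 4) (l 173107315095))))) (l 4)) (b (l 16777456) (b (b (c (l 123715191735) (l 123715191719)) (a (l 4) (l 201561473479))) (l 4)))) (b (l 16777656) (a (b (l 72712454711) (a (l 270280949655) (b (l 131231384263) (l 4)))) (a (b (l 16777424) (b (l 16777288) (l 161296155271))) (l 55532585383)))))) (a (b (l 16778064) (l 16777048)) (l 16778424))))), by decide +kernel⟩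

def k13_pm_213_t : ∃ t, chk3 f_pm_213_t t 27 61 1 = true :=
  ⟨(b (a (b (l 16778704) (a (l 16785872) (l 16787976))) (a (b (l 16792392) (l 16790152)) (b (l 16794480) (l 16792472)))) (a (b (a (l 16780808) (l 16780312)) (a (b (l 16781480) (a (a (l 16777992) (l 16777216)) (l 16778016))) (b (l 16783616) (l 16777024)))) (b (a (l 16787744) (l 16789992)) (a (l 16785144) (l 16776880))))), by decide +kernel⟩

def k14_pm_213_t : ∃ t, chk3 f_pm_213_t t 7 30 1 = true :=
  ⟨(a (b (a (a (b (l 16803464) (l 16800064)) (b (l 16807696) (l 16804080))) (a (l 16810200) (l 16794648))) (a (b (a (a (l 16795264) (l 16797288)) (l 16800008)) (a (b (a (l 16792328) (l 16794072)) (a (l 16779112) (l 16791816))) (b (l 16796712) (l 16794184)))) (a (l 16801216) (l 16804456)))) (a (b (a (l 16818432) (l 16822192)) (a (l 16807448) (l 16810184))) (b (a (l 16825480) (l 16828240)) (a (l 16791608) (l 16793496))))), by decide +kernel⟩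

def k15_pm_213_t : ∃ t, chk3 f_pm_213_t t 12 62 1 = true :=
  ⟨(l 4), by decide +kernel⟩

def k16_pm_213_t : ∃ t, chk3 f_pm_213_t t 26 62 1 = true :=
  ⟨(b (a (l 4) (b (a (l 4) (b (b (b (a (a (l 4) (b (a (l 4) (a (l 4) (a (l 4) (b (l 202635215303) (l 4))))) (l 4))) (a (a (a (b (b (l 85060485671) (a (a (l 4) (l 236994953511)) (l 130694513399))) (l 4)) (b (l 16777368) (b (a (l 163443638919) (l 16777272)) (c (l 232163114951) (l 235384340391))))) (b (l 16777568) (c (l 65733132871) (c (l 62511907335) (l 61975036455))))) (l 16777888))) (a (l 4) (a (a (l 4) (a (b (a (l 278870884247) (b (l 133915738855) (l 4))) (l 4)) (b (b (l 16777320) (a (c (l 167738606183) (l 170422960727)) (l 16777272))) (a (l 4) (b (l 211762020807) (l 4)))))) (a (a (b (l 16777408) (b (l 89892323879) (a (a (l 4) (l 259006660807)) (l 138747577063)))) (l 16777456)) (l 16777656))))) (a (l 4) (a (l 4) (b (a (a (l 4) (b (b (a (a (l 229478760743) (l 150021866039)) (l 16777264)) (c (l 246658629575) (l 249879854999)))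 (l 4))) (b (a (c (l 80765518455) (c (l 79691776631) (l 78618034807))) (l 16777448)) (b (a (a (l 286923947959) (c (l 144653157079) (l 145726898903))) (l 16777312)) (a (l 4) (a (c (l 184918475319) (l 188139700775)) (l 16777264)))))) (b (a (l 4) (a (l 4) (c (l 272965304215) (l 276723400535)))) (l 4)))))) (l 4))) (l 4))) (l 4)), by decide +kernel⟩

def k17_pm_213_t : ∃ t, chk3 f_pm_213_t t 108 496 1 = true :=
  ⟨(b (a (c (l 16777240) (l 16777160)) (l 16776960)) (a (b (a (a (l 16776904) (l 16777832)) (l 16776928)) (a (a (a (b (b (a (l 125325804215) (l 16777296)) (a (l 307325042615) (c (l 157001187991) (l 159148671623)))) (l 4)) (b (l 16777352) (b (a (c (l 196729635367) (l 199950860823)) (l 102777225703)) (l 272965304231)))) (b (l 16777560) (b (l 16777416) (a (a (c (l 134989480647) (l 133915738855)) (l 16777288)) (l 16777392))))) (l 16777216))) (l 16778200))), by decide +kernel⟩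

def k18_pm_213_t : ∃ t, chk3 f_pm_213_t t 108 497 1 = true :=
  ⟨(b (a (b (a (a (l 4) (b (b (a (a (l 4) (a (l 209614537159) (l 146263769655))) (l 16777304)) (a (l 4) (a (b (l 189213442439) (l 4)) (l 114051514919)))) (c (l 306788171607) (l 310009396951)))) (a (b (l 16777456) (b (b (l 68954358183) (a (a (l 191897797079) (l 16777264)) (l 16777360))) (a (a (l 4) (a (l 246121758999) (l 161296155191))) (l 81839260103)))) (l 16777632))) (a (l 4) (a (a (l 4) (b (a (c (l 268133466039) (l 271891562359)) (b (c (l 129083900599) (l 128547029671)) (l 315378106279))) (l 4))) (a (a (b (b (l 16777296) (a (l 206930182535) (l 139284447815))) (l 4)) (b (l 16777320) (b (c (l 210688278999) (l 213372633527)) (l 4)))) (b (l 16777416) (b (c (l 92576678439) (l 90966065703)) (a (l 274039046087) (a (l 175254798823) (l 116735869383))))))))) (a (b (l 16778040) (c (l 16777016) (c (l 16777000) (l 16776992)))) (l 16777080))) (a (l 4) (a (b (a (a (b (b (a (b (l 150021865959) (l 281555239063)) (l 95261032887))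 (c (l 262227886023) (c (l 265985982359) (l 267596595079)))) (l 4)) (a (b (b (l 16777328) (c (l 129083900599) (l 128010158727))) (l 317525589879)) (b (l 16777344) (b (a (l 206393311623) (l 139821318727)) (l 4))))) (a (b (l 16777448) (b (l 16777304) (a (b (l 175791669735) (l 4)) (c (l 112977773111) (l 112440902199))))) (l 16777160))) (a (l 4) (b (b (a (l 291218915223) (b (l 16777360) (a (l 192434667991) (l 16777264)))) (b (a (l 4) (a (l 4) (l 155390575079))) (l 314841235303))) (l 4)))) (b (l 16777336) (a (b (c (l 67343745511) (c (l 65733132759) (c (l 64122520007) (l 63585649095)))) (a (b (b (a (l 223573180711) (l 16777256)) (a (l 4) (l 170422960615))) (l 4)) (b (l 16777328) (a (b (l 134989480455) (l 252027338967)) (l 16777272))))) (l 16777088)))))), by decide +kernel⟩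

def k19_pm_213_t : ∃ t, chk3 f_pm_213_t t 109 248 1 = true :=
  ⟨(a (b (l 16780296) (b (l 16779200) (a (b (l 16777056) (l 16777984)) (l 16778720)))) (b (l 16776144) (c (l 16779976) (l 16779848)))), by decide +kernel⟩

def k20_pm_213_t : ∃ t, chk3 f_pm_213_t t 108 249 1 = true :=
  ⟨(a (l 4) (a (l 4) (b (b (b (a (b (a (l 4) (b (b (a (l 4) (l 194045280647)) (l 4)) (l 4))) (l 4)) (a (b (a (b (b (l 16777264) (l 146263769655)) (l 297661366199)) (b (l 16777304) (b (l 116735869351) (l 213909504391)))) (l 4)) (b (l 46942650263) (b (a (b (l 168275476967) (a (l 4) (l 156464315639))) (c (l 16777416) (l 107609063911))) (c (l 286387077047) (l 291218915207)))))) (l 4)) (l 4)) (l 4)))), by decide +kernel⟩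

def k21_pm_213_t : ∃ t, chk3 f_pm_213_t t 109 498 1 = true :=
  ⟨(b (b (a (a (a (b (l 16777560) (a (b (l 16777352) (b (l 16777280) (a (l 193508409735) (l 16777264)))) (l 16777440))) (l 16777736)) (l 16778144)) (l 16778960)) (a (b (a (a (a (b (b (a (l 4) (l 146800640567)) (l 303030075303)) (l 4)) (b (c (l 16777296) (l 68954358167)) (b (a (l 221962567991) (l 16777256)) (a (l 4) (c (l 169349218791) (l 171496702439)))))) (l 16777120)) (l 16777856)) (a (a (l 4) (a (a (b (b (l 136600093175) (l 256859177175)) (l 4)) (b (l 16777392) (b (l 199950860679) (l 4)))) (b (l 16777368) (a (b (l 16777264) (l 157538058727)) (l 16777304))))) (l 16777328))) (l 16777256))) (b (a (b (a (a (l 4) (a (l 4) (a (l 316451848055) (b (b (l 123715191239) (l 232163115303)) (l 4))))) (a (a (b (l 16777312) (a (b (c (l 175791669735) (l 178476024295)) (l 4)) (b (l 16777272) (l 144116285943)))) (l 16777392)) (l 16777600))) (a (l 4) (a (a (c (l 309472526215) (l 314304364343)) (b (b (l 72175583607) (a (c (l 208540795271)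 (l 213372633463)) (l 16777256))) (b (a (l 4) (c (l 165054251495) (l 167201735143))) (l 327189266343)))) (a (b (l 16777384) (a (b (l 16777272) (l 134452609543)) (l 16777320))) (l 16777472))))) (c (l 16777544) (l 16777176))) (a (a (l 4) (a (l 4) (a (b (b (a (l 272965304263) (b (l 16777248) (c (l 195655893399) (l 192434667991)))) (l 4)) (l 4)) (b (b (l 16777320) (a (a (l 251490468135) (b (l 16777232) (l 154853702919))) (c (l 16777264) (l 77007421911)))) (a (l 4) (a (l 4) (b (l 244511146279) (l 4)))))))) (a (b (l 16777120) (a (a (b (b (l 16777288) (a (c (l 179549766119) (l 183307862487)) (l 16777272))) (b (a (l 4) (l 148948124151)) (l 301419462583))) (c (l 16777352) (c (l 16777344) (l 65196261799)))) (l 16777544))) (l 16778048))))), by decide +kernel⟩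

def k22_pm_213_t : ∃ t, chk3 f_pm_213_t t 109 499 1 = true :=
  ⟨(a (l 4) (b (b (a (a (b (a (l 4) (b (b (a (l 217667600775) (l 16777256)) (a (l 4) (c (l 173107315175) (l 174717927911)))) (l 4))) (l 4)) (a (b (b (l 16777328) (a (b (l 142505673207) (l 270280949959)) (l 73249325415))) (b (b (a (l 4) (c (l 208003924375) (l 213909504375))) (l 4)) (l 4))) (b (l 16777416) (a (b (b (l 16777256) (a (l 147337511543) (l 16777224))) (l 332021104551)) (b (l 16777304) (b (l 138747576839) (l 260617273559))))))) (b (l 16777096) (a (a (c (l 16777352) (l 64122519911)) (l 16777488)) (l 16777688)))) (a (l 4) (a (b (a (b (b (a (c (l 203708957079) (l 199950860759)) (l 16777264)) (a (l 4) (c (l 164517380583) (l 166127993319)))) (l 329873620871)) (b (l 16777336) (a (b (l 136063222279) (l 250953597223)) (l 73786196343)))) (b (b (b (a (l 4) (a (l 4) (l 173644186007))) (l 316451848055)) (l 4)) (l 4))) (b (l 16777488) (a (a (b (a (c (l 148411253319) (l 148948124231)) (l 16777256)) (l 325578653623)) (b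 (l 16777304) (b (l 134989480455) (l 249342984487)))) (c (l 16777360) (l 49627004887))))))) (a (l 4) (a (l 4) (a (l 4) (b (b (b (b (a (c (l 160222413607) (l 196192764375)) (l 16777264)) (a (l 4) (c (l 149484995207) (l 163980509671)))) (l 329336749959)) (l 4)) (l 4))))))), by decide +kernel⟩

def k23_pm_213_t : ∃ t, chk3 f_pm_213_t t 55 124 1 = true :=
  ⟨(b (a (b (l 16777800) (a (l 16781008) (l 16776856))) (b (l 16785248) (l 16783744))) (a (b (a (b (l 16779848) (l 16777752)) (l 16777920)) (b (a (b (l 16777480) (c (l 16777096) (c (l 16777400) (l 16777384)))) (l 16779344)) (b (a (a (a (b (a (b (l 16777336) (a (b (l 135526351367) (l 250416726311)) (l 16777352))) (l 16777424)) (a (b (b (a (l 4) (c (l 161296155431) (l 197266506199))) (l 4)) (l 4)) (a (b (a (c (l 144653157015) (l 150558736967)) (l 16777256)) (l 330410491831)) (b (l 16777304) (b (l 138210705927) (l 254174822695)))))) (b (l 16777624) (c (l 36742102647) (c (l 16777424) (l 44795166631))))) (l 16777272)) (l 16778736)) (a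 (a (a (l 4) (a (b (b (b (a (c (l 162906768167) (l 202098344407)) (l 16777264)) (a (l 4) (c (l 153243091607) (l 170422960615)))) (l 336852942727)) (l 4)) (b (b (l 16777336) (a (b (l 141431931399) (l 265985982679)) (l 73786196327))) (b (b (a (l 4) (c (l 165591122727) (l 207467053527))) (l 4)) (l 4))))) (a (b (l 16777160) (b (b (l 16777192) (a (a (a (l 150558736983) (l 16777224)) (l 16777272)) (l 16777376))) (b (a (a (l 4) (l 146800640503)) (l 16777328)) (a (l 299808849847) (l 73249325431))))) (l 16777160))) (c (l 16777032) (l 16777000)))))) (b (l 16779560) (a (b (l 16780424) (l 16779608)) (l 16781096))))), by decide +kernel⟩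

def k24_pm_213_t : ∃ t, chk3 f_pm_213_t t 54 125 1 = true :=
  ⟨(l 4), by decide +kernel⟩

def k25_pm_213_t : ∃ t, chk3 f_pm_213_t t 110 1000 1 = true :=
  ⟨(b (a (a (l 4) (a (a (l 4) (b (b (b (a (c (l 168275477287) (l 224646922615)) (l 16777256)) (a (l 4) (c (l 156464317159) (l 182234120679)))) (l 4)) (l 4))) (a (b (b (l 16777328) (b (a (a (l 196729635143) (l 16777240)) (l 16777288)) (a (l 290682044615) (l 128010158535)))) (b (a (l 4) (b (l 238068695335) (l 4))) (l 4))) (b (l 16777416) (b (b (l 16777288) (a (c (l 160222413543) (l 198340247943)) (l 16777264))) (b (a (l 4) (c (l 155390575159) (l 163443638759))) (l 326652395431))))))) (a (b (l 16777096) (b (l 16777264) (a (a (a (b (l 16777280) (l 137673835015)) (l 16777320)) (l 16777424)) (l 16777624)))) (l 16778184))) (a (l 4) (a (a (b (a (b (b (a (l 254174822695) (l 16777248)) (a (l 4) (c (l 164517380903) (l 204245828055)))) (l 4)) (b (l 16777320) (b (a (a (l 174717928023) (l 16777224)) (l 16777280)) (a (a (l 4) (l 162906766503))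 (c (l 16777472) (l 146800640503)))))) (b (c (l 323431169927) (l 329873620775)) (l 4))) (b (l 16777144) (a (a (b (b (l 82376130983) (c (l 170422960935) (l 228405018999))) (l 4)) (b (l 16777280) (b (c (l 159148671719) (l 187065958887)) (l 4)))) (b (l 16777384) (b (l 16777304) (a (a (l 205319569735) (l 16777232)) (l 16777288))))))) (b (l 16777872) (l 16777168))))), by decide +kernel⟩

def k26_pm_213_t : ∃ t, chk3 f_pm_213_t t 110 1001 1 = true :=
  ⟨(a (l 4) (b (b (a (b (a (l 4) (a (l 4) (a (l 320209944503) (b (l 134452609463) (l 252564209959))))) (l 4)) (a (a (b (c (l 16777312) (l 16777304)) (b (a (c (l 165054251815) (l 204245828055)) (l 16777264)) (a (l 4) (c (l 155927446199) (l 175254798823))))) (l 16777384)) (l 16777584))) (a (l 4) (a (a (l 347053490007) (b (b (a (a (l 188676571463) (l 16777240)) (l 16777288)) (a (l 284776464583) (l 81839260071))) (a (l 4) (a (l 4) (b (l 201024602439) (l 4)))))) (a (b (l 16777368) (b (l 16777288) (a (c (l 162369897191) (l 194045280727)) (l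 16777264)))) (l 16777448))))) (a (l 4) (a (l 4) (b (a (b (b (a (l 4) (c (l 151632478871) (l 166664864231))) (l 335779200935)) (l 4)) (b (a (b (l 16777280) (l 142505673223)) (l 16777320)) (b (a (l 264375370023) (l 16777408)) (a (l 4) (c (l 170422960935) (l 215520117207)))))) (l 4)))))), by decide +kernel⟩

def k27_pm_213_t : ∃ t, chk3 f_pm_213_t t 111 500 1 = true :=
  ⟨(b (a (c (l 16777488) (l 16777448)) (l 16779848)) (b (a (a (a (l 16777096) (l 16778016)) (l 16778416)) (l 16779216)) (a (a (a (b (c (l 16777440) (l 16777104)) (a (b (b (a (c (l 159685542631) (l 186529087975)) (l 16777272)) (a (l 4) (c (l 153779962439) (l 161833026023)))) (l 333094846359)) (b (l 16777344) (a (b (l 139284447751) (l 258469789991)) (l 73786196343))))) (c (l 16777600) (l 16776936))) (l 16777336)) (l 16777480)))), by decide +kernel⟩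

def k28_pm_213_t : ∃ t, chk3 f_pm_213_t t 110 501 1 = true :=
  ⟨(l 4), by decide +kernel⟩

def k29_pm_213_t : ∃ t, chk3 f_pm_213_t t 111 1002 1 = true :=
  ⟨(a (b (b (a (a (b (b (b (a (l 4) (a (l 4) (l 185992216983))) (l 336316071799)) (l 4)) (l 4)) (b (b (l 16777152) (a (a (c (l 158611800807) (l 183307862503)) (l 16777272)) (l 16777368))) (b (a (a (l 4) (c (l 151632478791) (l 159685542375))) (l 16777320)) (a (l 324504911799) (c (l 16777432) (l 76470550999)))))) (l 16777184)) (a (a (l 4) (b (a (l 4) (b (a (l 257396048167) (l 16777248)) (a (l 4) (c (l 168812348199) (l 211225149911))))) (l 4))) (a (a (b (l 16777320) (b (a (c (l 159148671719) (l 183844733415)) (l 16777272)) (a (l 4) (c (l 152706220615) (l 160759284199))))) (l 16777400)) (l 16777600)))) (a (l 4) (b (a (a (c (l 338463555463) (l 344369135399)) (a (b (b (l 139821318663) (l 260080402727)) (l 4)) (b (l 73786196343) (b (c (l 170422960935) (l 214446375383)) (l 4))))) (b (l 16777440) (b (l 38889586567) (a (a (c (l 161296155367)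 (l 187602829799)) (l 16777272)) (l 16777368))))) (a (l 4) (a (b (b (a (l 4) (c (l 156464316999) (l 164517380583))) (l 335242330023)) (l 4)) (b (c (l 73249325575) (c (l 16777288) (l 73786196487))) (b (a (l 268133466407) (l 16777408)) (a (l 4) (c (l 173644186407) (l 231626244471)))))))))) (a (b (l 16777448) (b (l 16777128) (a (c (l 16777440) (l 32447135447)) (l 16777696)))) (c (l 16777112) (l 16777088)))), by decide +kernel⟩

def k30_pm_213_t : ∃ t, chk3 f_pm_213_t t 111 1003 1 = true :=
  ⟨(a (l 4) (b (a (a (a (b (b (b (a (c (l 169886089959) (l 196729635287)) (l 16777264)) (a (l 4) (c (l 158611800711) (l 172033573351)))) (l 351348457351)) (l 4)) (b (b (l 16777336) (b (a (l 151095607799) (l 16777288)) (a (l 289608302791) (l 82913001927)))) (b (a (l 4) (b (l 240753049991) (l 4))) (l 4)))) (b (l 16777152) (a (b (b (l 16777288) (a (c (l 168275477287) (l 208003924439)) (l 16777264))) (b (a (l 4) (c (l 159685542631) (l 183307862503))) (l 4))) (b (l 16777384) (a (a (b (l 16777256) (l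 205319569735)) (l 16777264)) (l 16777312)))))) (c (l 16777120) (l 16777112))) (b (a (b (a (l 4) (a (l 4) (a (l 330410491831) (b (l 143042544135) (l 268133466407))))) (l 4)) (a (a (b (a (l 72712454503) (l 16777336)) (b (a (c (l 175254799143) (l 225720664519)) (l 16777256)) (a (l 4) (c (l 165591122743) (l 200487731671))))) (l 16777056)) (l 16777576))) (a (l 4) (a (a (l 4) (b (b (a (a (l 177402282583) (l 16777224)) (l 16777280)) (a (a (l 4) (l 170422959271)) (l 157538058743))) (l 333631717271))) (a (b (l 16777352) (a (b (l 82913001927) (l 263301628199)) (l 16777440))) (l 16777424))))))), by decide +kernel⟩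

def k31_pm_213_t : ∃ t, chk3 f_pm_213_t t 55 251 1 = true :=
  ⟨(a (l 4) (a (l 4) (a (l 4) (a (l 4) (b (b (b (b (a (a (l 4) (a (l 359401521031) (b (b (l 195655893319) (l 4)) (l 4)))) (b (b (l 16777288) (a (a (l 187602829991) (l 16777376)) (l 16777264))) (b (a (l 4) (c (l 158611800759) (l 176865411559))) (l 360475262887)))) (l 4)) (l 4)) (l 4)) (l 4)))))), by decide +kernel⟩

def k32_pm_213_t : ∃ t, chk3 f_pm_213_t t 6 63 1 = true :=
  ⟨(l 4), by decide +kernel⟩

def k33_pm_213_t : ∃ t, chk3 f_pm_213_t t 14 124 1 = true :=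
  ⟨(a (a (b (a (l 16786688) (l 16788848)) (a (b (l 16784344) (l 16782704)) (l 16780408))) (b (a (c (l 16791072) (l 16795984)) (l 16792432)) (a (l 16787752) (a (l 16789080) (l 16800520))))) (a (b (l 16794664) (l 16791752)) (l 16795896))), by decide +kernel⟩

def k34_pm_213_t : ∃ t, chk3 f_pm_213_t t 28 250 1 = true :=
  ⟨(a (b (a (b (l 16781448) (l 16777976)) (l 16783128)) (a (a (b (l 16777896) (b (l 16777248) (a (a (l 16777072) (l 16777992)) (l 16778384)))) (b (l 16780256) (l 16778072))) (b (l 16781768) (l 16778248)))) (b (a (l 16785000) (l 16786736)) (a (l 16783184) (l 16784920)))), by decide +kernel⟩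

def k35_pm_213_t : ∃ t, chk3 f_pm_213_t t 56 1004 1 = true :=
  ⟨(a (b (a (a (a (b (b (l 16777456) (a (a (b (l 16777280) (l 158074929655)) (l 16777312)) (l 16777416))) (a (b (a (l 323431169975) (b (l 82913001927) (l 265985982759))) (l 4)) (b (l 71638712743) (b (a (l 223573180887) (l 16777256)) (a (l 4) (c (l 167201735479) (l 202635215319))))))) (c (l 16777232) (l 29762780887))) (l 16777288)) (l 16777408)) (a (a (a (l 4) (a (b (b (b (a (l 181697249767) (l 16777272)) (a (l 4) (l 162906767863))) (l 343832264599)) (l 4)) (b (b (l 16777344) (a (b (l 83449872903) (l 275649659175)) (l 16777432))) (b (a (l 4) (b (l 241289920903) (l 4))) (l 4))))) (a (b (l 16777488) (b (b (l 38889586551) (a (a (l 210688279015) (l 16777264)) (l 16777360))) (b (a (a (l 4) (l 191897797095)) (l 16777304)) (a (l 4) (a (l 174181056999) (l 16777280)))))) (l 16777144))) (c (l 16776968) (l 16776968)))) (c (l 16778016) (l 16777848))), by decide +kernel⟩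

def k36_pm_213_t : ∃ t, chk3 f_pm_213_t t 56 1005 1 = true :=
  ⟨(b (a (a (a (l 4) (a (a (l 4) (b (b (a (l 357790908327) (b (l 157538058743) (l 305177559239))) (l 4)) (l 4))) (a (b (b (c (l 16777296) (l 16777456)) (b (a (l 269207208231) (l 16777240)) (a (l 4) (l 228941890007)))) (l 4)) (b (c (l 16777368) (l 16777368)) (b (b (a (l 208540795367) (l 16777264)) (a (l 4) (l 190824055271))) (l 4)))))) (a (b (l 16777032) (b (l 16777112) (a (a (a (a (l 261154144711) (c (l 165591122823) (l 193508409911))) (c (l 16777248) (l 78081163831))) (l 16777352)) (l 16777536)))) (l 16777432))) (a (l 16778824) (l 16779792))) (a (a (l 4) (a (a (b (a (c (l 349200973703) (l 355106553639)) (b (b (l 75396809223) (a (l 274039046439) (l 16777240))) (c (l 301419462599) (c (l 306251300759) (l 308398784391))))) (l 4)) (b (b (l 16777432) (b (l 16777344) (a (a (l 216056988119) (l 16777256)) (l 16777352)))) (b (a (b (a (l 4) (l 197803377127)) (l 4)) (c (l 75933680343) (c (l 16777264) (l 77007422119)))) (b (a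 (l 4) (a (c (l 175254797143) (l 176865409847)) (l 166664864247))) (l 362085875559))))) (b (l 16777752) (a (c (l 77544293399) (c (l 16777408) (a (l 73786196631) (l 16777472)))) (l 16777656))))) (a (a (l 16778136) (l 16778632)) (l 16779344)))), by decide +kernel⟩

def k37_pm_213_t : ∃ t, chk3 f_pm_213_t t 56 1006 1 = true :=
  ⟨(a (a (l 4) (a (l 4) (b (a (b (a (b (b (a (l 296050753751) (l 16777232)) (l 293903270311)) (l 4)) (b (l 16777304) (b (a (l 231089373655) (l 16777248)) (a (l 4) (l 212835762663))))) (l 4)) (b (l 16777112) (a (b (b (a (l 197803377127) (l 16777264)) (a (l 4) (l 183307862503))) (l 378192002951)) (b (l 16777336) (a (a (l 256859177415) (a (l 208540795367) (l 174181057079))) (l 77007422007)))))) (b (a (l 4) (c (l 358327779159) (l 364233359063))) (l 4))))) (b (a (a (b (l 16777808) (l 16777096)) (l 16778184)) (l 16778904)) (a (a (a (b (b (b (l 73249325687) (a (a (l 277797142823) (l 16777240)) (l 16777336))) (a (c (l 308398784455) (l 313230622599)) (a (a (l 196192764471)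 (l 16777520)) (l 16777280)))) (b (a (l 4) (a (l 4) (b (l 209614537191) (l 4)))) (l 4))) (b (l 16777488) (b (c (l 73249325927) (c (l 71638713111) (a (l 79691776823) (l 16777384)))) (a (b (a (l 4) (l 183307862503)) (l 4)) (c (l 16777272) (l 75933680311)))))) (c (l 16777744) (l 16777088))) (l 16777480)))), by decide +kernel⟩

def k38_pm_213_t : ∃ t, chk3 f_pm_213_t t 56 1007 1 = true :=
  ⟨(a (l 4) (b (a (a (a (l 4) (b (b (b (a (l 4) (a (l 172033571671) (l 16777224))) (l 356180295543)) (l 4)) (l 4))) (a (a (b (b (l 16777448) (a (l 316451848487) (a (l 215520117287) (l 161296155255)))) (l 4)) (b (c (l 16777352) (l 16777352)) (b (a (l 281018368439) (c (l 168275477223) (l 168275477223))) (l 4)))) (b (l 16777536) (b (l 16777376) (a (b (a (l 210151408103) (l 16777264)) (c (l 179549766919) (l 249342984711))) (l 16777320)))))) (c (l 16777040) (c (l 16776712) (l 16777368)))) (a (a (l 4) (a (l 4) (a (l 4) (b (b (b (l 80228647703) (a (l 4) (l 16777536))) (l 376581390215)) (l 4))))) (a (a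 (a (b (b (l 16777336) (a (c (l 211225150087) (l 213372633719)) (l 16777576))) (c (l 357790908295) (l 364233359143))) (b (l 16777400) (b (a (a (l 227868148263) (l 172033573479)) (l 16777264)) (l 323968040871)))) (b (l 16777576) (b (l 16777416) (a (a (a (l 209077666359) (l 157538058871)) (l 16777272)) (l 16777360))))) (l 16777168))))), by decide +kernel⟩

def k39_pm_213_t : ∃ t, chk3 f_pm_213_t t 57 251 1 = true :=
  ⟨(a (b (b (l 16781840) (l 16778328)) (a (b (l 16779608) (b (l 16778952) (l 16777200))) (b (l 16780504) (l 16779624)))) (b (l 16783120) (b (l 16781792) (l 16779592)))), by decide +kernel⟩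

def k40_pm_213_t : ∃ t, chk3 f_pm_213_t t 29 125 1 = true :=
  ⟨(b (a (a (b (l 16798920) (l 16791744)) (l 16789192)) (l 16791328)) (a (a (b (l 16784720) (l 16782944)) (a (b (l 16785832) (l 16784056)) (b (l 16786656) (l 16787368)))) (b (l 16788584) (a (c (l 16796488) (l 16792264)) (l 16787376))))), by decide +kernel⟩

def k41_pm_213_t : ∃ t, chk3 f_pm_213_t t 15 62 1 = true :=
  ⟨(a (b (a (l 16798288) (l 16800392)) (a (b (l 16793456) (l 16790152)) (b (l 16795296) (l 16791840)))) (a (b (l 16802200) (l 16795064)) (b (l 16803600) (a (l 16795936) (l 16796384))))), by decide +kernel⟩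

def k42_pm_213_t : ∃ t, chk3 f_pm_213_t t 28 1008 1 = true :=
  ⟨(a (a (l 4) (a (l 4) (a (a (l 4) (b (b (b (a (c (l 302493204423) (l 307861913495)) (c (l 80228647799) (c (l 80228647879) (l 81302389703)))) (a (l 4) (a (l 4) (l 256859177495)))) (l 4)) (l 4))) (b (a (b (b (l 16777432) (c (l 73786196871) (c (l 74323067783) (l 74859938695)))) (b (a (a (l 4) (b (l 194582151655) (l 4))) (l 78081164103)) (a (l 4) (a (l 4) (b (l 16777536) (l 171496700663)))))) (b (l 16777608) (a (b (l 16777384) (l 74859938487)) (l 16777448)))) (a (l 4) (b (a (b (a (l 366917713831) (c (l 168812348615) (l 208003924679))) (l 4)) (b (l 16777608) (a (l 340611039447) (c (l 189750313783) (l 191897797415))))) (l 4))))))) (a (b (a (a (l 16777192) (l 16778304)) (l 16778968)) (a (a (b (a (b (l 16777456) (l 77544293191)) (l 16777632)) (a (a (b (a (l 316451848535) (c (l 182234120999) (l 183844733719))) (l 4)) (b (l 16777296) (a (l 296050753975) (c (l 173644186423) (l 174717928231))))) (c (l 16777416) (l 16777408))))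 (l 16777208)) (l 16777216))) (a (l 16779608) (l 16780440)))), by decide +kernel⟩

def k43_pm_213_t : ∃ t, chk3 f_pm_213_t t 28 1009 1 = true :=
  ⟨(a (l 4) (a (b (b (a (a (a (l 4) (a (b (a (l 284239593911) (c (l 166664864567) (l 167201735463))) (l 4)) (b (l 16777304) (a (l 270280950199) (c (l 163980509943) (l 164517380839)))))) (c (l 16777536) (l 16776880))) (l 16778200)) (a (a (l 4) (a (a (b (a (l 259006661143) (l 159148671735)) (l 4)) (b (l 16777312) (a (c (l 248806113831) (l 248269242967)) (l 153779962631)))) (l 16777432))) (c (l 16777992) (l 16777976)))) (b (a (a (l 4) (a (l 4) (a (b (a (c (l 236994953847) (l 240216179303)) (l 81839260423)) (l 4)) (b (l 16777320) (a (c (l 174181057815) (l 234847470183)) (l 79691776791)))))) (a (l 16777216) (l 16777984))) (a (a (l 4) (l 4)) (a (a (a (b (a (c (l 172570445079) (l 229478761063)) (l 80765518567)) (l 392687517575)) (b (l 16777328) (b (l 79691776759) (a (l 173644184311) (l 16777544))))) (l 16777440)) (l 16777768))))) (a (b (l 16778952)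 (l 16777864)) (l 16779568)))), by decide +kernel⟩

def k44_pm_213_t : ∃ t, chk3 f_pm_213_t t 56 505 1 = true :=
  ⟨(l 4), by decide +kernel⟩

def k45_pm_213_t : ∃ t, chk3 f_pm_213_t t 57 1010 1 = true :=
  ⟨(b (a (b (a (l 4) (a (a (c (l 390540033879) (l 394835001015)) (a (b (b (l 80765518535) (a (l 172033571575) (l 16777544))) (l 384097582983)) (b (l 16777328) (b (l 16777576) (a (l 171496700679) (l 16777544)))))) (l 16777224))) (a (l 4) (a (c (l 391076904695) (a (l 4) (l 393224388279))) (a (a (b (b (l 16777552) (a (c (l 168275475223) (l 171496700743)) (l 16777544))) (l 380339486599)) (b (l 16777328) (b (l 79154905735) (a (c (l 168275475223) (l 170959829831)) (l 16777544))))) (l 16777440))))) (a (a (l 16777216) (l 16778296)) (l 16778912))) (a (a (l 4) (a (l 4) (a (b (c (l 387855679319) (l 393761259191)) (l 4)) (b (a (b (b (l 79154905735) (a (c (l 168275475223) (l 170959829831)) (l 16777544))) (l 382486970247)) (b (l 16777328) (b (l 80228647591) (a (c (l 168275475223) (l 171496700743))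 (l 16777544))))) (c (l 391613775703) (l 396982484663)))))) (a (a (a (b (l 16777440) (a (b (b (l 80228647639) (a (c (l 169349217047) (l 172570442551)) (l 168812347895))) (l 391076904839)) (b (l 16777328) (b (l 81302389447) (a (c (l 171496700695) (l 176328538935)) (l 166664864327)))))) (c (l 16777544) (l 16777216))) (c (l 16777864) (l 16777856))) (l 16777824)))), by decide +kernel⟩

def k46_pm_213_t : ∃ t, chk3 f_pm_213_t t 57 1011 1 = true :=
  ⟨(a (l 4) (b (b (a (a (a (c (l 398056226647) (l 402888064695)) (a (b (b (l 80228647671) (a (a (l 4) (l 169886088199)) (l 172570444343))) (l 404498677639)) (b (l 16777320) (b (c (l 16777240) (l 83449873127)) (a (l 4) (l 180086637111)))))) (c (l 16777536) (l 16776872))) (l 16777496)) (a (a (l 4) (a (a (b (b (a (l 183307862583) (l 16777264)) (a (l 4) (l 192971538919))) (l 4)) (b (l 16777320) (b (a (l 197803377127) (l 16777264)) (a (l 4) (l 202635215335))))) (l 31373393767))) (c (l 16777944) (l 16777272)))) (b (a (a (l 4) (a (l 4) (a (b (b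 (a (l 208003924455) (l 16777256)) (a (l 4) (l 213372633575))) (l 4)) (b (l 16777312) (b (a (l 170422961015) (l 16777256)) (a (l 4) (l 171496702263))))))) (a (c (l 16777512) (c (l 16777512) (l 16777184))) (l 16777920))) (a (l 4) (a (a (a (b (b (a (a (l 345442877575) (l 16777536)) (l 16777248)) (c (l 289608303047) (l 292292657655))) (l 4)) (b (l 16777296) (b (a (l 250416726487) (l 16777240)) (a (l 4) (l 259543531991))))) (c (l 16777400) (c (l 16777400) (l 16777152)))) (l 16777704)))))), by decide +kernel⟩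

def k47_pm_213_t : ∃ t, chk3 f_pm_213_t t 28 253 1 = true :=
  ⟨(a (l 4) (b (a (l 4) (b (a (l 4) (b (a (a (l 4) (b (b (a (b (a (l 279944626551) (l 16777232)) (l 331484234071)) (l 80765518455)) (b (a (l 4) (a (a (l 4) (l 289071431911)) (l 16777224))) (l 381950099319))) (l 4))) (a (b (a (a (b (l 16777360) (l 81839260295)) (l 16777360)) (l 16777432)) (a (b (b (a (a (l 4) (l 335779201159)) (l 160759284295)) (l 392150646695)) (l 4)) (b (c (l 16777272) (l 80765518583)) (a (l 409330515879) (b (l 177939153463) (l 4)))))) (b (l 16777584) (b (l 16777424) (a (a (b (l 16777264) (l 187602829879)) (l 16777288)) (l 16777368)))))) (a (l 4) (a (l 4) (b (b (b (a (a (l 4) (l 203172086247)) (l 16777280)) (a (l 4) (a (l 167201734967) (l 16777256)))) (b (a (l 4) (a (l 4) (a (l 322894299351) (l 16777536)))) (l 4))) (l 4)))))) (l 4))) (l 4))), by decide +kernel⟩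

def k48_pm_213_t : ∃ t, chk3 f_pm_213_t t 29 252 1 = true :=
  ⟨(a (b (a (b (l 16781624) (l 16780744)) (l 16781336)) (b (a (a (l 16779488) (l 16780256)) (l 16781344)) (b (a (a (l 16778840) (l 16779600)) (l 16778064)) (a (a (a (l 16778208) (l 16777288)) (l 16777856)) (l 16780256))))) (b (a (b (a (l 16778856) (l 16784848)) (l 14)) (l 16785448)) (l 14))), by decide +kernel⟩

def k49_pm_213_t : ∃ t, chk3 f_pm_213_t t 116 506 1 = true :=
  ⟨(b (a (a (b (c (l 16777784) (l 16777112)) (b (a (b (l 16777408) (b (l 16777320) (a (a (c (l 16777696) (l 177402282935)) (l 16777240)) (l 16777320)))) (l 16777552)) (b (a (b (a (c (l 302493204935) (l 311620010407)) (l 16777264)) (a (l 4) (a (l 274039046599) (l 16777232)))) (l 16777384)) (a (c (l 377655132039) (c (l 386245066551) (l 390003162887))) (a (a (b (l 16777224) (a (l 4) (l 314304364759))) (l 81302389383)) (l 16777328)))))) (b (l 16778168) (c (l 16777736) (l 16777072)))) (b (l 16778736) (c (l 16778320) (l 16777632)))) (b (a (b (a (a (l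 4) (b (a (l 395371872135) (b (l 83449873095) (a (a (l 4) (l 174717926407)) (l 157538059063)))) (l 4))) (a (b (l 16777368) (a (b (a (l 193508409911) (l 16777256)) (a (l 4) (a (l 284776464695) (l 16777216)))) (l 16777304))) (l 16777504))) (a (l 4) (a (a (l 4) (b (b (a (a (l 328263008471) (l 197266506135)) (l 16777248)) (c (l 298198237639) (c (l 304640688551) (l 305177559527)))) (l 4))) (b (c (l 16777344) (l 16777336)) (b (a (a (l 272965304775) (l 16777232)) (l 16777312)) (a (l 344906006455) (l 80228647479))))))) (a (a (b (l 16777696) (l 16777480)) (l 16777776)) (l 16778056))) (a (a (l 4) (a (l 4) (a (l 4) (b (b (a (l 373360164791) (b (l 160222413383) (a (l 4) (l 381950099575)))) (l 4)) (l 4))))) (a (a (b (b (a (a (b (l 16777272) (l 175254798903)) (l 16777296)) (l 16777360)) (b (a (a (l 4) (l 191897797175)) (l 16777280)) (a (l 4) (a (a (l 287460819255) (l 16777216)) (l 16777256))))) (b (b (a (l 4) (a (l 4) (a (l 337926684887) (l 203708957079)))) (l 4)) (l 4))) (b (l 16777448) (b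 (b (l 16777320) (a (a (l 261691015639) (l 14)) (l 14))) (l 14)))) (l 14))))), by decide +kernel⟩

def k50_pm_213_t : ∃ t, chk3 f_pm_213_t t 116 507 1 = true :=
  ⟨(a (l 4) (a (a (l 4) (l 14)) (l 14))), by decide +kernel⟩

def k51_pm_213_t : ∃ t, chk3 f_pm_213_t t 117 253 1 = true :=
  ⟨(b (b (b (l 16779168) (l 14)) (l 14)) (l 14)), by decide +kernel⟩

def k52_pm_213_t : ∃ t, chk3 f_pm_213_t t 59 253 1 = true :=
  ⟨(l 14), by decide +kernel⟩

def k53_pm_213_t : ∃ t, chk3 f_pm_213_t t 15 126 1 = true :=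
  ⟨(b (b (a (a (l 16787456) (l 16789216)) (a (l 16790520) (l 16791488))) (l 14)) (l 14)), by decide +kernel⟩

def k54_pm_213_t : ∃ t, chk3 f_pm_213_t t 7 127 1 = true :=
  ⟨(a (a (l 4) (a (a (l 4) (l 14)) (l 14))) (l 14)), by decide +kernel⟩

theorem s55_pm_213_t : ∃ t, chk3 f_pm_213_t t 116 253 1 = true := ex3_b k49_pm_213_t k50_pm_213_t

theorem s56_pm_213_t : ∃ t, chk3 f_pm_213_t t 58 253 1 = true := ex3_a s55_pm_213_t k51_pm_213_t

theorem s57_pm_213_t : ∃ t, chk3 f_pm_213_t t 29 253 1 = true := ex3_a s56_pm_213_t k52_pm_213_t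

theorem s58_pm_213_t : ∃ t, chk3 f_pm_213_t t 29 126 1 = true := ex3_b k48_pm_213_t s57_pm_213_t

theorem s59_pm_213_t : ∃ t, chk3 f_pm_213_t t 57 505 1 = true := ex3_b k45_pm_213_t k46_pm_213_t

theorem s60_pm_213_t : ∃ t, chk3 f_pm_213_t t 28 505 1 = true := ex3_a k44_pm_213_t s59_pm_213_t

theorem s61_pm_213_t : ∃ t, chk3 f_pm_213_t t 28 504 1 = true := ex3_b k42_pm_213_t k43_pm_213_t

theorem s62_pm_213_t : ∃ t, chk3 f_pm_213_t t 28 252 1 = true := ex3_b s61_pm_213_t s60_pm_213_t

theorem s63_pm_213_t : ∃ t, chk3 f_pm_213_t t 28 126 1 = true := ex3_b s62_pm_213_t k47_pm_213_t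

theorem s64_pm_213_t : ∃ t, chk3 f_pm_213_t t 14 126 1 = true := ex3_a s63_pm_213_t s58_pm_213_t

theorem s65_pm_213_t : ∃ t, chk3 f_pm_213_t t 7 126 1 = true := ex3_a s64_pm_213_t k53_pm_213_t

theorem s66_pm_213_t : ∃ t, chk3 f_pm_213_t t 7 63 1 = true := ex3_b s65_pm_213_t k54_pm_213_t

theorem s67_pm_213_t : ∃ t, chk3 f_pm_213_t t 56 503 1 = true := ex3_b k37_pm_213_t k38_pm_213_t

theorem s68_pm_213_t : ∃ t, chk3 f_pm_213_t t 56 502 1 = true := ex3_b k35_pm_213_t k36_pm_213_t

theorem s69_pm_213_t : ∃ t, chk3 f_pm_213_t t 56 251 1 = true := ex3_b s68_pm_213_t s67_pm_213_t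

theorem s70_pm_213_t : ∃ t, chk3 f_pm_213_t t 28 251 1 = true := ex3_a s69_pm_213_t k39_pm_213_t

theorem s71_pm_213_t : ∃ t, chk3 f_pm_213_t t 28 125 1 = true := ex3_b k34_pm_213_t s70_pm_213_t

theorem s72_pm_213_t : ∃ t, chk3 f_pm_213_t t 14 125 1 = true := ex3_a s71_pm_213_t k40_pm_213_t

theorem s73_pm_213_t : ∃ t, chk3 f_pm_213_t t 14 62 1 = true := ex3_b k33_pm_213_t s72_pm_213_t

theorem s74_pm_213_t : ∃ t, chk3 f_pm_213_t t 7 62 1 = true := ex3_a s73_pm_213_t k41_pm_213_t

theorem s75_pm_213_t : ∃ t, chk3 f_pm_213_t t 7 31 1 = true := ex3_b s74_pm_213_t s66_pm_213_t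

theorem s76_pm_213_t : ∃ t, chk3 f_pm_213_t t 111 501 1 = true := ex3_b k29_pm_213_t k30_pm_213_t

theorem s77_pm_213_t : ∃ t, chk3 f_pm_213_t t 55 501 1 = true := ex3_a k28_pm_213_t s76_pm_213_t

theorem s78_pm_213_t : ∃ t, chk3 f_pm_213_t t 110 500 1 = true := ex3_b k25_pm_213_t k26_pm_213_t

theorem s79_pm_213_t : ∃ t, chk3 f_pm_213_t t 55 500 1 = true := ex3_a s78_pm_213_t k27_pm_213_t

theorem s80_pm_213_t : ∃ t, chk3 f_pm_213_t t 55 250 1 = true := ex3_b s79_pm_213_t s77_pm_213_t

theorem s81_pm_213_t : ∃ t, chk3 f_pm_213_t t 55 125 1 = true := ex3_b s80_pm_213_t k31_pm_213_t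

theorem s82_pm_213_t : ∃ t, chk3 f_pm_213_t t 27 125 1 = true := ex3_a k24_pm_213_t s81_pm_213_t

theorem s83_pm_213_t : ∃ t, chk3 f_pm_213_t t 109 249 1 = true := ex3_b k21_pm_213_t k22_pm_213_t

theorem s84_pm_213_t : ∃ t, chk3 f_pm_213_t t 54 249 1 = true := ex3_a k20_pm_213_t s83_pm_213_t

theorem s85_pm_213_t : ∃ t, chk3 f_pm_213_t t 108 248 1 = true := ex3_b k17_pm_213_t k18_pm_213_t

theorem s86_pm_213_t : ∃ t, chk3 f_pm_213_t t 54 248 1 = true := ex3_a s85_pm_213_t k19_pm_213_t

theorem s87_pm_213_t : ∃ t, chk3 f_pm_213_t t 54 124 1 = true := ex3_b s86_pm_213_t s84_pm_213_t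

theorem s88_pm_213_t : ∃ t, chk3 f_pm_213_t t 27 124 1 = true := ex3_a s87_pm_213_t k23_pm_213_t

theorem s89_pm_213_t : ∃ t, chk3 f_pm_213_t t 27 62 1 = true := ex3_b s88_pm_213_t s82_pm_213_t

theorem s90_pm_213_t : ∃ t, chk3 f_pm_213_t t 13 62 1 = true := ex3_a k16_pm_213_t s89_pm_213_t

theorem s91_pm_213_t : ∃ t, chk3 f_pm_213_t t 6 62 1 = true := ex3_a k15_pm_213_t s90_pm_213_t

theorem s92_pm_213_t : ∃ t, chk3 f_pm_213_t t 6 31 1 = true := ex3_b s91_pm_213_t k32_pm_213_t

theorem s93_pm_213_t : ∃ t, chk3 f_pm_213_t t 3 31 1 = true := ex3_a s92_pm_213_t s75_pm_213_t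

theorem s94_pm_213_t : ∃ t, chk3 f_pm_213_t t 53 247 1 = true := ex3_a k11_pm_213_t k12_pm_213_t

theorem s95_pm_213_t : ∃ t, chk3 f_pm_213_t t 53 123 1 = true := ex3_b k10_pm_213_t s94_pm_213_t

theorem s96_pm_213_t : ∃ t, chk3 f_pm_213_t t 26 123 1 = true := ex3_a k9_pm_213_t s95_pm_213_t

theorem s97_pm_213_t : ∃ t, chk3 f_pm_213_t t 26 61 1 = true := ex3_b k8_pm_213_t s96_pm_213_t

theorem s98_pm_213_t : ∃ t, chk3 f_pm_213_t t 13 61 1 = true := ex3_a s97_pm_213_t k13_pm_213_t

theorem s99_pm_213_t : ∃ t, chk3 f_pm_213_t t 13 30 1 = true := ex3_b k7_pm_213_t s98_pm_213_t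

theorem s100_pm_213_t : ∃ t, chk3 f_pm_213_t t 6 30 1 = true := ex3_a k6_pm_213_t s99_pm_213_t

theorem s101_pm_213_t : ∃ t, chk3 f_pm_213_t t 3 30 1 = true := ex3_a s100_pm_213_t k14_pm_213_t

theorem s102_pm_213_t : ∃ t, chk3 f_pm_213_t t 3 15 1 = true := ex3_b s101_pm_213_t s93_pm_213_t

theorem s103_pm_213_t : ∃ t, chk3 f_pm_213_t t 3 7 1 = true := ex3_b k5_pm_213_t s102_pm_213_t

theorem s104_pm_213_t : ∃ t, chk3 f_pm_213_t t 3 3 1 = true := ex3_b k4_pm_213_t s103_pm_213_t

theorem s105_pm_213_t : ∃ t, chk3 f_pm_213_t t 3 1 1 = true := ex3_b k3_pm_213_t s104_pm_213_t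

theorem s106_pm_213_t : ∃ t, chk3 f_pm_213_t t 5 1 1 = true := ex3_b k1_pm_213_t k2_pm_213_t

theorem s107_pm_213_t : ∃ t, chk3 f_pm_213_t t 2 1 1 = true := ex3_a k0_pm_213_t s106_pm_213_t

theorem s108_pm_213_t : ∃ t, chk3 f_pm_213_t t 1 1 1 = true := ex3_a s107_pm_213_t s105_pm_213_t

theorem c_pm_213_t : CertNE 0 536870912 536870912 536870912 536870912 50465866 3 eng mog cd0q2 cd0q1 pd3 true true false .pnn 2 1 3
    ndB0q2 ndB0q1 pcB3 cut_pm_213_t Ext.none :=
  certNE1 (fam := true) (s1 := true) (s2 := false) (a := 2) (b := 1) (c := 3) (cn := .pnn) (n1 := ndB0q2) (n2 := ndB0q1) (pc := pcB3) (cut := cut_pm_213_t) (xt := Ext.none) (P1 := 0) (W1 := 536870912) (P2 := 536870912) (W2 := 536870912) (P3 := 536870912) (W3 := 50465866) (N0 := 3) (En := eng) (mo := mog) (C1 := cd0q2) (C2 := cd0q1) (C3 := pd3)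
    rfl (fun _ => rfl) s108_pm_213_t

noncomputable def cut_mm_001_s : Cut := Cut.of [[⟨4, 0, 0, 1449551462⟩]]

noncomputable def f_mm_001_s : ℕ → ℕ → ℕ → ℕ → Bool := onCell 0 536870912 0 536870912 536870912 50465866
    (rowNE 3 eng mog cd0q0 cd0q0 pd1 0 true false false .up 0 0 1 (qsf 0 536870912 0 536870912 1) ndB0q0 ndB0q0 pcB1 cut_mm_001_s Ext.none)

def k0_mm_001_s : ∃ t, chk3 f_mm_001_s t 1 1 1 = true :=
  ⟨(l 4), by decide +kernel⟩

theorem c_mm_001_s : CertNE 0 536870912 0 536870912 536870912 50465866 3 eng mog cd0q0 cd0q0 pd1 true false false .up 0 0 1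
    ndB0q0 ndB0q0 pcB1 cut_mm_001_s Ext.none :=
  certNE0 (fam := true) (s1 := false) (s2 := false) (a := 0) (b := 0) (c := 1) (cn := .up) (n1 := ndB0q0) (n2 := ndB0q0) (pc := pcB1) (cut := cut_mm_001_s) (xt := Ext.none) (P1 := 0) (W1 := 536870912) (P2 := 0) (W2 := 536870912) (P3 := 536870912) (W3 := 50465866) (N0 := 3) (En := eng) (mo := mog) (C1 := cd0q0) (C2 := cd0q0) (C3 := pd1)
    rfl k0_mm_001_s

noncomputable def cut_mm_001_t : Cut := Cut.of [[⟨3, 0, 0, 2845415833⟩]]

noncomputable def f_mm_001_t : ℕ → ℕ → ℕ → ℕ → Bool := onCell 0 536870912 0 536870912 536870912 50465866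
    (rowNE 3 eng mog cd0q0 cd0q0 pd1 0 true false false .up 0 0 1 (qsf 0 536870912 0 536870912 1) ndB0q0 ndB0q0 pcB1 cut_mm_001_t Ext.none)

def k0_mm_001_t : ∃ t, chk3 f_mm_001_t t 1 1 1 = true :=
  ⟨(l 4), by decide +kernel⟩

theorem c_mm_001_t : CertNE 0 536870912 0 536870912 536870912 50465866 3 eng mog cd0q0 cd0q0 pd1 true false false .up 0 0 1
    ndB0q0 ndB0q0 pcB1 cut_mm_001_t Ext.none :=
  certNE0 (fam := true) (s1 := false) (s2 := false) (a := 0) (b := 0) (c := 1) (cn := .up) (n1 := ndB0q0) (n2 := ndB0q0) (pc := pcB1) (cut := cut_mm_001_t) (xt := Ext.none) (P1 := 0) (W1 := 536870912) (P2 := 0) (W2 := 536870912) (P3 := 536870912) (W3 := 50465866) (N0 := 3) (En := eng) (mo := mog) (C1 := cd0q0) (C2 := cd0q0) (C3 := pd1)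
    rfl k0_mm_001_t

noncomputable def cut_mm_011_s : Cut := Cut.of [[⟨4, 0, 0, 1449551462⟩]]

noncomputable def f_mm_011_s : ℕ → ℕ → ℕ → ℕ → Bool := onCell 0 536870912 536870912 536870912 536870912 50465866
    (rowNE 3 eng mog cd0q0 cd0q1 pd1 0 true false false .pnn 0 1 1 (qsf 0 536870912 536870912 536870912 1) ndB0q0 ndB0q1 pcB1 cut_mm_011_s Ext.none)

def k0_mm_011_s : ∃ t, chk3 f_mm_011_s t 1 1 1 = true :=
  ⟨(l 6), by decide +kernel⟩

theorem c_mm_011_s : CertNE 0 536870912 536870912 536870912 536870912 50465866 3 eng mog cd0q0 cd0q1 pd1 true false false .pnn 0 1 1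
    ndB0q0 ndB0q1 pcB1 cut_mm_011_s Ext.none :=
  certNE0 (fam := true) (s1 := false) (s2 := false) (a := 0) (b := 1) (c := 1) (cn := .pnn) (n1 := ndB0q0) (n2 := ndB0q1) (pc := pcB1) (cut := cut_mm_011_s) (xt := Ext.none) (P1 := 0) (W1 := 536870912) (P2 := 536870912) (W2 := 536870912) (P3 := 536870912) (W3 := 50465866) (N0 := 3) (En := eng) (mo := mog) (C1 := cd0q0) (C2 := cd0q1) (C3 := pd1)
    rfl k0_mm_011_s

noncomputable def cut_mm_011_t : Cut := Cut.of [[⟨3, 0, 0, 2845415833⟩]]

noncomputable def f_mm_011_t : ℕ → ℕ → ℕ → ℕ → Bool := onCell 0 536870912 536870912 536870912 536870912 50465866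
    (rowNE 3 eng mog cd0q0 cd0q1 pd1 0 true false false .pnn 0 1 1 (qsf 0 536870912 536870912 536870912 1) ndB0q0 ndB0q1 pcB1 cut_mm_011_t Ext.none)

def k0_mm_011_t : ∃ t, chk3 f_mm_011_t t 1 1 1 = true :=
  ⟨(a (l 5) (l 4)), by decide +kernel⟩

theorem c_mm_011_t : CertNE 0 536870912 536870912 536870912 536870912 50465866 3 eng mog cd0q0 cd0q1 pd1 true false false .pnn 0 1 1
    ndB0q0 ndB0q1 pcB1 cut_mm_011_t Ext.none :=
  certNE0 (fam := true) (s1 := false) (s2 := false) (a := 0) (b := 1) (c := 1) (cn := .pnn) (n1 := ndB0q0) (n2 := ndB0q1) (pc := pcB1) (cut := cut_mm_011_t) (xt := Ext.none) (P1 := 0) (W1 := 536870912) (P2 := 536870912) (W2 := 536870912) (P3 := 536870912) (W3 := 50465866) (N0 := 3) (En := eng) (mo := mog) (C1 := cd0q0) (C2 := cd0q1) (C3 := pd1)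
    rfl k0_mm_011_t

noncomputable def cut_mm_012_s : Cut := Cut.of [[⟨4, 0, 0, 1449551462⟩]]

noncomputable def f_mm_012_s : ℕ → ℕ → ℕ → ℕ → Bool := onCell 0 536870912 536870912 536870912 536870912 50465866
    (rowNE 3 eng mog cd0q0 cd0q1 pd2 0 true false false .pnp 0 1 2 (qsf 0 536870912 536870912 536870912 2) ndB0q0 ndB0q1 pcB2 cut_mm_012_s Ext.none)

def k0_mm_012_s : ∃ t, chk3 f_mm_012_s t 1 1 1 = true :=
  ⟨(l 6), by decide +kernel⟩

theorem c_mm_012_s : CertNE 0 536870912 536870912 536870912 536870912 50465866 3 eng mog cd0q0 cd0q1 pd2 true false false .pnp 0 1 2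
    ndB0q0 ndB0q1 pcB2 cut_mm_012_s Ext.none :=
  certNE0 (fam := true) (s1 := false) (s2 := false) (a := 0) (b := 1) (c := 2) (cn := .pnp) (n1 := ndB0q0) (n2 := ndB0q1) (pc := pcB2) (cut := cut_mm_012_s) (xt := Ext.none) (P1 := 0) (W1 := 536870912) (P2 := 536870912) (W2 := 536870912) (P3 := 536870912) (W3 := 50465866) (N0 := 3) (En := eng) (mo := mog) (C1 := cd0q0) (C2 := cd0q1) (C3 := pd2)
    rfl k0_mm_012_s

noncomputable def cut_mm_012_t : Cut := Cut.of [[⟨3, 0, 0, 2845415833⟩]]

noncomputable def f_mm_012_t : ℕ → ℕ → ℕ → ℕ → Bool := onCell 0 536870912 536870912 536870912 536870912 50465866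
    (rowNE 3 eng mog cd0q0 cd0q1 pd2 0 true false false .pnp 0 1 2 (qsf 0 536870912 536870912 536870912 2) ndB0q0 ndB0q1 pcB2 cut_mm_012_t Ext.none)

def k0_mm_012_t : ∃ t, chk3 f_mm_012_t t 1 1 1 = true :=
  ⟨(b (l 4) (l 5)), by decide +kernel⟩

theorem c_mm_012_t : CertNE 0 536870912 536870912 536870912 536870912 50465866 3 eng mog cd0q0 cd0q1 pd2 true false false .pnp 0 1 2
    ndB0q0 ndB0q1 pcB2 cut_mm_012_t Ext.none :=
  certNE0 (fam := true) (s1 := false) (s2 := false) (a := 0) (b := 1) (c := 2) (cn := .pnp) (n1 := ndB0q0) (n2 := ndB0q1) (pc := pcB2) (cut := cut_mm_012_t) (xt := Ext.none) (P1 := 0) (W1 := 536870912) (P2 := 536870912) (W2 := 536870912) (P3 := 536870912) (W3 := 50465866) (N0 := 3) (En := eng) (mo := mog) (C1 := cd0q0) (C2 := cd0q1) (C3 := pd2)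
    rfl k0_mm_012_t

noncomputable def cut_mm_022_s : Cut := Cut.of [[⟨4, 0, 0, 1449551462⟩]]

noncomputable def f_mm_022_s : ℕ → ℕ → ℕ → ℕ → Bool := onCell 0 536870912 0 536870912 536870912 50465866
    (rowNE 3 eng mog cd0q0 cd0q2 pd2 0 true false false .pp 0 2 2 (qsf 0 536870912 0 536870912 2) ndB0q0 ndB0q2 pcB2 cut_mm_022_s Ext.none)

def k0_mm_022_s : ∃ t, chk3 f_mm_022_s t 1 1 1 = true :=
  ⟨(l 5), by decide +kernel⟩

theorem c_mm_022_s : CertNE 0 536870912 0 536870912 536870912 50465866 3 eng mog cd0q0 cd0q2 pd2 true false false .pp 0 2 2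
    ndB0q0 ndB0q2 pcB2 cut_mm_022_s Ext.none :=
  certNE0 (fam := true) (s1 := false) (s2 := false) (a := 0) (b := 2) (c := 2) (cn := .pp) (n1 := ndB0q0) (n2 := ndB0q2) (pc := pcB2) (cut := cut_mm_022_s) (xt := Ext.none) (P1 := 0) (W1 := 536870912) (P2 := 0) (W2 := 536870912) (P3 := 536870912) (W3 := 50465866) (N0 := 3) (En := eng) (mo := mog) (C1 := cd0q0) (C2 := cd0q2) (C3 := pd2)
    rfl k0_mm_022_s

noncomputable def cut_mm_022_t : Cut := Cut.of [[⟨3, 0, 0, 2845415833⟩]]

noncomputable def f_mm_022_t : ℕ → ℕ → ℕ → ℕ → Bool := onCell 0 536870912 0 536870912 536870912 50465866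
    (rowNE 3 eng mog cd0q0 cd0q2 pd2 0 true false false .pp 0 2 2 (qsf 0 536870912 0 536870912 2) ndB0q0 ndB0q2 pcB2 cut_mm_022_t Ext.none)

def k0_mm_022_t : ∃ t, chk3 f_mm_022_t t 1 1 1 = true :=
  ⟨(l 5), by decide +kernel⟩

theorem c_mm_022_t : CertNE 0 536870912 0 536870912 536870912 50465866 3 eng mog cd0q0 cd0q2 pd2 true false false .pp 0 2 2
    ndB0q0 ndB0q2 pcB2 cut_mm_022_t Ext.none :=
  certNE0 (fam := true) (s1 := false) (s2 := false) (a := 0) (b := 2) (c := 2) (cn := .pp) (n1 := ndB0q0) (n2 := ndB0q2) (pc := pcB2) (cut := cut_mm_022_t) (xt := Ext.none) (P1 := 0) (W1 := 536870912) (P2 := 0) (W2 := 536870912) (P3 := 536870912) (W3 := 50465866) (N0 := 3) (En := eng) (mo := mog) (C1 := cd0q0) (C2 := cd0q2) (C3 := pd2)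
    rfl k0_mm_022_t

noncomputable def cut_mm_023_s : Cut := Cut.of [[⟨4, 0, 0, 1449551462⟩]]

noncomputable def f_mm_023_s : ℕ → ℕ → ℕ → ℕ → Bool := onCell 0 536870912 0 536870912 536870912 50465866
    (rowNE 3 eng mog cd0q0 cd0q2 pd3 0 true false false .up 0 2 3 (qsf 0 536870912 0 536870912 3) ndB0q0 ndB0q2 pcB3 cut_mm_023_s Ext.none)

def k0_mm_023_s : ∃ t, chk3 f_mm_023_s t 1 1 1 = true :=
  ⟨(l 5), by decide +kernel⟩

theorem c_mm_023_s : CertNE 0 536870912 0 536870912 536870912 50465866 3 eng mog cd0q0 cd0q2 pd3 true false false .up 0 2 3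
    ndB0q0 ndB0q2 pcB3 cut_mm_023_s Ext.none :=
  certNE0 (fam := true) (s1 := false) (s2 := false) (a := 0) (b := 2) (c := 3) (cn := .up) (n1 := ndB0q0) (n2 := ndB0q2) (pc := pcB3) (cut := cut_mm_023_s) (xt := Ext.none) (P1 := 0) (W1 := 536870912) (P2 := 0) (W2 := 536870912) (P3 := 536870912) (W3 := 50465866) (N0 := 3) (En := eng) (mo := mog) (C1 := cd0q0) (C2 := cd0q2) (C3 := pd3)
    rfl k0_mm_023_s

noncomputable def cut_mm_023_t : Cut := Cut.of [[⟨3, 0, 0, 2845415833⟩]]

noncomputable def f_mm_023_t : ℕ → ℕ → ℕ → ℕ → Bool := onCell 0 536870912 0 536870912 536870912 50465866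
    (rowNE 3 eng mog cd0q0 cd0q2 pd3 0 true false false .up 0 2 3 (qsf 0 536870912 0 536870912 3) ndB0q0 ndB0q2 pcB3 cut_mm_023_t Ext.none)

def k0_mm_023_t : ∃ t, chk3 f_mm_023_t t 1 1 1 = true :=
  ⟨(l 5), by decide +kernel⟩

theorem c_mm_023_t : CertNE 0 536870912 0 536870912 536870912 50465866 3 eng mog cd0q0 cd0q2 pd3 true false false .up 0 2 3
    ndB0q0 ndB0q2 pcB3 cut_mm_023_t Ext.none :=
  certNE0 (fam := true) (s1 := false) (s2 := false) (a := 0) (b := 2) (c := 3) (cn := .up) (n1 := ndB0q0) (n2 := ndB0q2) (pc := pcB3) (cut := cut_mm_023_t) (xt := Ext.none) (P1 := 0) (W1 := 536870912) (P2 := 0) (W2 := 536870912) (P3 := 536870912) (W3 := 50465866) (N0 := 3) (En := eng) (mo := mog) (C1 := cd0q0) (C2 := cd0q2) (C3 := pd3)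
    rfl k0_mm_023_t

noncomputable def cut_mm_101_s : Cut := Cut.of [[⟨4, 0, 0, 1449551462⟩], [⟨0, 1, 0, 67108864⟩, ⟨1, 0, 0, 67108864⟩, ⟨2, 1, 0, 67108864⟩]]

noncomputable def f_mm_101_s : ℕ → ℕ → ℕ → ℕ → Bool := onCell 536870912 536870912 0 536870912 536870912 50465866
    (rowNE 3 eng mog cd0q1 cd0q0 pd1 0 true false false .npn 1 0 1 (qsf 536870912 536870912 0 536870912 1) ndB0q1 ndB0q0 pcB1 cut_mm_101_s Ext.none)

def k0_mm_101_s : ∃ t, chk3 f_mm_101_s t 1 1 1 = true :=
  ⟨(l 6), by decide +kernel⟩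

theorem c_mm_101_s : CertNE 536870912 536870912 0 536870912 536870912 50465866 3 eng mog cd0q1 cd0q0 pd1 true false false .npn 1 0 1
    ndB0q1 ndB0q0 pcB1 cut_mm_101_s Ext.none :=
  certNE0 (fam := true) (s1 := false) (s2 := false) (a := 1) (b := 0) (c := 1) (cn := .npn) (n1 := ndB0q1) (n2 := ndB0q0) (pc := pcB1) (cut := cut_mm_101_s) (xt := Ext.none) (P1 := 536870912) (W1 := 536870912) (P2 := 0) (W2 := 536870912) (P3 := 536870912) (W3 := 50465866) (N0 := 3) (En := eng) (mo := mog) (C1 := cd0q1) (C2 := cd0q0) (C3 := pd1)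
    rfl k0_mm_101_s

noncomputable def cut_mm_101_t : Cut := Cut.of [[⟨3, 0, 0, 2845415833⟩], [⟨0, 1, 0, 67108864⟩, ⟨1, 0, 0, 67108864⟩, ⟨2, 1, 0, 67108864⟩]]

noncomputable def f_mm_101_t : ℕ → ℕ → ℕ → ℕ → Bool := onCell 536870912 536870912 0 536870912 536870912 50465866
    (rowNE 3 eng mog cd0q1 cd0q0 pd1 0 true false false .npn 1 0 1 (qsf 536870912 536870912 0 536870912 1) ndB0q1 ndB0q0 pcB1 cut_mm_101_t Ext.none)

def k0_mm_101_t : ∃ t, chk3 f_mm_101_t t 1 1 1 = true :=
  ⟨(a (l 4) (b (a (l 4) (b (a (l 4) (b (a (l 4) (b (l 14) (l 4))) (l 4))) (l 4))) (l 4))), by decide +kernel⟩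

theorem c_mm_101_t : CertNE 536870912 536870912 0 536870912 536870912 50465866 3 eng mog cd0q1 cd0q0 pd1 true false false .npn 1 0 1
    ndB0q1 ndB0q0 pcB1 cut_mm_101_t Ext.none :=
  certNE0 (fam := true) (s1 := false) (s2 := false) (a := 1) (b := 0) (c := 1) (cn := .npn) (n1 := ndB0q1) (n2 := ndB0q0) (pc := pcB1) (cut := cut_mm_101_t) (xt := Ext.none) (P1 := 536870912) (W1 := 536870912) (P2 := 0) (W2 := 536870912) (P3 := 536870912) (W3 := 50465866) (N0 := 3) (En := eng) (mo := mog) (C1 := cd0q1) (C2 := cd0q0) (C3 := pd1)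
    rfl k0_mm_101_t

noncomputable def cut_mm_102_s : Cut := Cut.of [[⟨4, 0, 0, 1449551462⟩], [⟨0, 1, 0, 67108864⟩, ⟨1, 0, 0, 67108864⟩, ⟨2, 1, 0, 67108864⟩]]

noncomputable def f_mm_102_s : ℕ → ℕ → ℕ → ℕ → Bool := onCell 536870912 536870912 0 536870912 536870912 50465866
    (rowNE 3 eng mog cd0q1 cd0q0 pd2 0 true false false .npp 1 0 2 (qsf 536870912 536870912 0 536870912 2) ndB0q1 ndB0q0 pcB2 cut_mm_102_s Ext.none)

def k0_mm_102_s : ∃ t, chk3 f_mm_102_s t 1 1 1 = true :=
  ⟨(l 6), by decide +kernel⟩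

theorem c_mm_102_s : CertNE 536870912 536870912 0 536870912 536870912 50465866 3 eng mog cd0q1 cd0q0 pd2 true false false .npp 1 0 2
    ndB0q1 ndB0q0 pcB2 cut_mm_102_s Ext.none :=
  certNE0 (fam := true) (s1 := false) (s2 := false) (a := 1) (b := 0) (c := 2) (cn := .npp) (n1 := ndB0q1) (n2 := ndB0q0) (pc := pcB2) (cut := cut_mm_102_s) (xt := Ext.none) (P1 := 536870912) (W1 := 536870912) (P2 := 0) (W2 := 536870912) (P3 := 536870912) (W3 := 50465866) (N0 := 3) (En := eng) (mo := mog) (C1 := cd0q1) (C2 := cd0q0) (C3 := pd2)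
    rfl k0_mm_102_s

noncomputable def cut_mm_102_t : Cut := Cut.of [[⟨3, 0, 0, 2845415833⟩], [⟨0, 1, 0, 67108864⟩, ⟨1, 0, 0, 67108864⟩, ⟨2, 1, 0, 67108864⟩]]

noncomputable def f_mm_102_t : ℕ → ℕ → ℕ → ℕ → Bool := onCell 536870912 536870912 0 536870912 536870912 50465866
    (rowNE 3 eng mog cd0q1 cd0q0 pd2 0 true false false .npp 1 0 2 (qsf 536870912 536870912 0 536870912 2) ndB0q1 ndB0q0 pcB2 cut_mm_102_t Ext.none)

def k0_mm_102_t : ∃ t, chk3 f_mm_102_t t 1 1 1 = true :=
  ⟨(a (l 4) (b (a (l 4) (b (a (l 4) (b (a (l 4) (b (l 14) (l 4))) (l 4))) (l 4))) (l 4))), by decide +kernel⟩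

theorem c_mm_102_t : CertNE 536870912 536870912 0 536870912 536870912 50465866 3 eng mog cd0q1 cd0q0 pd2 true false false .npp 1 0 2
    ndB0q1 ndB0q0 pcB2 cut_mm_102_t Ext.none :=
  certNE0 (fam := true) (s1 := false) (s2 := false) (a := 1) (b := 0) (c := 2) (cn := .npp) (n1 := ndB0q1) (n2 := ndB0q0) (pc := pcB2) (cut := cut_mm_102_t) (xt := Ext.none) (P1 := 536870912) (W1 := 536870912) (P2 := 0) (W2 := 536870912) (P3 := 536870912) (W3 := 50465866) (N0 := 3) (En := eng) (mo := mog) (C1 := cd0q1) (C2 := cd0q0) (C3 := pd2)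
    rfl k0_mm_102_t

noncomputable def cut_mm_112_s : Cut := Cut.of [[⟨4, 0, 0, 1449551462⟩]]

noncomputable def f_mm_112_s : ℕ → ℕ → ℕ → ℕ → Bool := onCell 536870912 536870912 536870912 536870912 536870912 50465866
    (rowNE 3 eng mog cd0q1 cd0q1 pd2 0 true false false .dn 1 1 2 (qsf 536870912 536870912 536870912 536870912 2) ndB0q1 ndB0q1 pcB2 cut_mm_112_s Ext.none)

def k0_mm_112_s : ∃ t, chk3 f_mm_112_s t 1 1 1 = true :=
  ⟨(l 4), by decide +kernel⟩

theorem c_mm_112_s : CertNE 536870912 536870912 536870912 536870912 536870912 50465866 3 eng mog cd0q1 cd0q1 pd2 true false false .dn 1 1 2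
    ndB0q1 ndB0q1 pcB2 cut_mm_112_s Ext.none :=
  certNE0 (fam := true) (s1 := false) (s2 := false) (a := 1) (b := 1) (c := 2) (cn := .dn) (n1 := ndB0q1) (n2 := ndB0q1) (pc := pcB2) (cut := cut_mm_112_s) (xt := Ext.none) (P1 := 536870912) (W1 := 536870912) (P2 := 536870912) (W2 := 536870912) (P3 := 536870912) (W3 := 50465866) (N0 := 3) (En := eng) (mo := mog) (C1 := cd0q1) (C2 := cd0q1) (C3 := pd2)
    rfl k0_mm_112_s

noncomputable def cut_mm_112_t : Cut := Cut.of [[⟨3, 0, 0, 2845415833⟩]]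

noncomputable def f_mm_112_t : ℕ → ℕ → ℕ → ℕ → Bool := onCell 536870912 536870912 536870912 536870912 536870912 50465866
    (rowNE 3 eng mog cd0q1 cd0q1 pd2 0 true false false .dn 1 1 2 (qsf 536870912 536870912 536870912 536870912 2) ndB0q1 ndB0q1 pcB2 cut_mm_112_t Ext.none)

def k0_mm_112_t : ∃ t, chk3 f_mm_112_t t 1 1 1 = true :=
  ⟨(l 4), by decide +kernel⟩

theorem c_mm_112_t : CertNE 536870912 536870912 536870912 536870912 536870912 50465866 3 eng mog cd0q1 cd0q1 pd2 true false false .dn 1 1 2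
    ndB0q1 ndB0q1 pcB2 cut_mm_112_t Ext.none :=
  certNE0 (fam := true) (s1 := false) (s2 := false) (a := 1) (b := 1) (c := 2) (cn := .dn) (n1 := ndB0q1) (n2 := ndB0q1) (pc := pcB2) (cut := cut_mm_112_t) (xt := Ext.none) (P1 := 536870912) (W1 := 536870912) (P2 := 536870912) (W2 := 536870912) (P3 := 536870912) (W3 := 50465866) (N0 := 3) (En := eng) (mo := mog) (C1 := cd0q1) (C2 := cd0q1) (C3 := pd2)
    rfl k0_mm_112_t

noncomputable def cut_mm_113_s : Cut := Cut.of [[⟨4, 0, 0, 1449551462⟩]]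

noncomputable def f_mm_113_s : ℕ → ℕ → ℕ → ℕ → Bool := onCell 536870912 536870912 536870912 536870912 536870912 50465866
    (rowNE 3 eng mog cd0q1 cd0q1 pd3 0 true false false .nn 1 1 3 (qsf 536870912 536870912 536870912 536870912 3) ndB0q1 ndB0q1 pcB3 cut_mm_113_s Ext.none)

def k0_mm_113_s : ∃ t, chk3 f_mm_113_s t 1 1 1 = true :=
  ⟨(l 4), by decide +kernel⟩

theorem c_mm_113_s : CertNE 536870912 536870912 536870912 536870912 536870912 50465866 3 eng mog cd0q1 cd0q1 pd3 true false false .nn 1 1 3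
    ndB0q1 ndB0q1 pcB3 cut_mm_113_s Ext.none :=
  certNE0 (fam := true) (s1 := false) (s2 := false) (a := 1) (b := 1) (c := 3) (cn := .nn) (n1 := ndB0q1) (n2 := ndB0q1) (pc := pcB3) (cut := cut_mm_113_s) (xt := Ext.none) (P1 := 536870912) (W1 := 536870912) (P2 := 536870912) (W2 := 536870912) (P3 := 536870912) (W3 := 50465866) (N0 := 3) (En := eng) (mo := mog) (C1 := cd0q1) (C2 := cd0q1) (C3 := pd3)
    rfl k0_mm_113_s

noncomputable def cut_mm_113_t : Cut := Cut.of [[⟨3, 0, 0, 2845415833⟩]]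

noncomputable def f_mm_113_t : ℕ → ℕ → ℕ → ℕ → Bool := onCell 536870912 536870912 536870912 536870912 536870912 50465866
    (rowNE 3 eng mog cd0q1 cd0q1 pd3 0 true false false .nn 1 1 3 (qsf 536870912 536870912 536870912 536870912 3) ndB0q1 ndB0q1 pcB3 cut_mm_113_t Ext.none)

def k0_mm_113_t : ∃ t, chk3 f_mm_113_t t 1 1 1 = true :=
  ⟨(l 4), by decide +kernel⟩

theorem c_mm_113_t : CertNE 536870912 536870912 536870912 536870912 536870912 50465866 3 eng mog cd0q1 cd0q1 pd3 true false false .nn 1 1 3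
    ndB0q1 ndB0q1 pcB3 cut_mm_113_t Ext.none :=
  certNE0 (fam := true) (s1 := false) (s2 := false) (a := 1) (b := 1) (c := 3) (cn := .nn) (n1 := ndB0q1) (n2 := ndB0q1) (pc := pcB3) (cut := cut_mm_113_t) (xt := Ext.none) (P1 := 536870912) (W1 := 536870912) (P2 := 536870912) (W2 := 536870912) (P3 := 536870912) (W3 := 50465866) (N0 := 3) (En := eng) (mo := mog) (C1 := cd0q1) (C2 := cd0q1) (C3 := pd3)
    rfl k0_mm_113_t

noncomputable def cut_mm_123_s : Cut := Cut.of [[⟨4, 0, 0, 1449551462⟩]]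

noncomputable def f_mm_123_s : ℕ → ℕ → ℕ → ℕ → Bool := onCell 536870912 536870912 0 536870912 536870912 50465866
    (rowNE 3 eng mog cd0q1 cd0q2 pd3 0 true false false .npn 1 2 3 (qsf 536870912 536870912 0 536870912 3) ndB0q1 ndB0q2 pcB3 cut_mm_123_s Ext.none)

def k0_mm_123_s : ∃ t, chk3 f_mm_123_s t 1 1 1 = true :=
  ⟨(l 6), by decide +kernel⟩

theorem c_mm_123_s : CertNE 536870912 536870912 0 536870912 536870912 50465866 3 eng mog cd0q1 cd0q2 pd3 true false false .npn 1 2 3
    ndB0q1 ndB0q2 pcB3 cut_mm_123_s Ext.none :=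
  certNE0 (fam := true) (s1 := false) (s2 := false) (a := 1) (b := 2) (c := 3) (cn := .npn) (n1 := ndB0q1) (n2 := ndB0q2) (pc := pcB3) (cut := cut_mm_123_s) (xt := Ext.none) (P1 := 536870912) (W1 := 536870912) (P2 := 0) (W2 := 536870912) (P3 := 536870912) (W3 := 50465866) (N0 := 3) (En := eng) (mo := mog) (C1 := cd0q1) (C2 := cd0q2) (C3 := pd3)
    rfl k0_mm_123_s

noncomputable def cut_mm_123_t : Cut := Cut.of [[⟨3, 0, 0, 2845415833⟩]]

noncomputable def f_mm_123_t : ℕ → ℕ → ℕ → ℕ → Bool := onCell 536870912 536870912 0 536870912 536870912 50465866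
    (rowNE 3 eng mog cd0q1 cd0q2 pd3 0 true false false .npn 1 2 3 (qsf 536870912 536870912 0 536870912 3) ndB0q1 ndB0q2 pcB3 cut_mm_123_t Ext.none)

def k0_mm_123_t : ∃ t, chk3 f_mm_123_t t 1 1 1 = true :=
  ⟨(a (l 5) (l 4)), by decide +kernel⟩

theorem c_mm_123_t : CertNE 536870912 536870912 0 536870912 536870912 50465866 3 eng mog cd0q1 cd0q2 pd3 true false false .npn 1 2 3
    ndB0q1 ndB0q2 pcB3 cut_mm_123_t Ext.none :=
  certNE0 (fam := true) (s1 := false) (s2 := false) (a := 1) (b := 2) (c := 3) (cn := .npn) (n1 := ndB0q1) (n2 := ndB0q2) (pc := pcB3) (cut := cut_mm_123_t) (xt := Ext.none) (P1 := 536870912) (W1 := 536870912) (P2 := 0) (W2 := 536870912) (P3 := 536870912) (W3 := 50465866) (N0 := 3) (En := eng) (mo := mog) (C1 := cd0q1) (C2 := cd0q2) (C3 := pd3)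
    rfl k0_mm_123_t

noncomputable def cut_mm_202_s : Cut := Cut.of [[⟨4, 0, 0, 1449551462⟩], [⟨0, 1, 0, 67108864⟩, ⟨1, 0, 0, 67108864⟩, ⟨2, 1, 0, 67108864⟩]]

noncomputable def f_mm_202_s : ℕ → ℕ → ℕ → ℕ → Bool := onCell 0 536870912 0 536870912 536870912 50465866
    (rowNE 3 eng mog cd0q2 cd0q0 pd2 0 true false false .pp 2 0 2 (qsf 0 536870912 0 536870912 2) ndB0q2 ndB0q0 pcB2 cut_mm_202_s Ext.none)

def k0_mm_202_s : ∃ t, chk3 f_mm_202_s t 1 1 1 = true :=
  ⟨(l 6), by decide +kernel⟩

theorem c_mm_202_s : CertNE 0 536870912 0 536870912 536870912 50465866 3 eng mog cd0q2 cd0q0 pd2 true false false .pp 2 0 2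
    ndB0q2 ndB0q0 pcB2 cut_mm_202_s Ext.none :=
  certNE0 (fam := true) (s1 := false) (s2 := false) (a := 2) (b := 0) (c := 2) (cn := .pp) (n1 := ndB0q2) (n2 := ndB0q0) (pc := pcB2) (cut := cut_mm_202_s) (xt := Ext.none) (P1 := 0) (W1 := 536870912) (P2 := 0) (W2 := 536870912) (P3 := 536870912) (W3 := 50465866) (N0 := 3) (En := eng) (mo := mog) (C1 := cd0q2) (C2 := cd0q0) (C3 := pd2)
    rfl k0_mm_202_s

noncomputable def cut_mm_202_t : Cut := Cut.of [[⟨3, 0, 0, 2845415833⟩], [⟨0, 1, 0, 67108864⟩, ⟨1, 0, 0, 67108864⟩, ⟨2, 1, 0, 67108864⟩]]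

noncomputable def f_mm_202_t : ℕ → ℕ → ℕ → ℕ → Bool := onCell 0 536870912 0 536870912 536870912 50465866
    (rowNE 3 eng mog cd0q2 cd0q0 pd2 0 true false false .pp 2 0 2 (qsf 0 536870912 0 536870912 2) ndB0q2 ndB0q0 pcB2 cut_mm_202_t Ext.none)

def k0_mm_202_t : ∃ t, chk3 f_mm_202_t t 2 2 1 = true :=
  ⟨(b (a (l 6) (b (l 6) (a (l 6) (a (l 6) (b (a (l 6) (l 16598536)) (b (l 16594048) (l 16629424))))))) (a (b (l 6) (a (l 6) (b (l 6) (l 16674728)))) (b (a (b (l 6) (a (l 6) (l 16629608))) (b (a (b (l 16607800) (l 16622544)) (b (l 16644024) (l 16658800))) (a (b (l 16637112) (l 16651216)) (b (l 16673520) (l 16687832))))) (a (b (b (l 16683432) (l 16695592)) (a (l 16661552) (l 16721728))) (b (a (b (l 16664712) (l 16677624)) (b (l 16712048) (a (l 16689696) (l 16698544)))) (a (b (l 16690072) (l 16702056)) (b (a (l 16702416) (l 16711440)) (a (l 16714712) (l 16744912))))))))), by decide +kernel⟩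

def k1_mm_202_t : ∃ t, chk3 f_mm_202_t t 2 3 1 = true :=
  ⟨(b (a (b (a (b (l 6) (l 16672880)) (b (l 16692728) (l 16730168))) (b (a (l 16685552) (l 16745504)) (b (a (l 16631632) (l 16693312)) (l 2)))) (b (a (b (a (l 16682072) (l 16743576)) (a (l 16721400) (b (l 16716400) (l 16725664)))) (b (a (b (l 16713504) (l 16745344)) (b (a (l 16726520) (l 16756952)) (a (l 16737776) (l 16768496)))) (a (b (l 16755504) (l 16775712)) (a (b (l 16748432) (l 16779376)) (b (c (l 16779936) (l 16779000)) (b (l 16787240) (a (l 16768656) (c (l 16782176) (l 16784616))))))))) (a (b (a (l 16738624) (c (l 16782512) (l 16779936))) (a (b (l 16729824) (l 16737792)) (b (l 16773080) (l 16781440)))) (b (a (b (c (l 16775392) (l 16773856)) (a (l 16758104) (l 16777840))) (b (a (b (l 16765648) (l 16780880)) (a (b (l 16784056) (a (l 61438177895) (l 119420227367))) (b (a (l 70028113367) (l 137673839847)) (l 4)))) (a (a (b (l 16772472) (l 66270020439)) (b (a (l 16781784) (l 110293420391)) (l 4))) (l 4)))) (a (b (a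 (l 16787768) (a (b (l 16771632) (l 49090148775)) (b (l 60364439303) (l 128010163815)))) (a (a (l 53787773559) (b (l 16786192) (l 117272743223))) (a (b (l 122104582583) (l 4)) (l 4)))) (a (b (b (l 136600104023) (l 4)) (l 4)) (l 4))))))) (a (l 2) (a (l 2) (a (l 2) (l 4))))), by decide +kernel⟩

def k2_mm_202_t : ∃ t, chk3 f_mm_202_t t 6 4 1 = true :=
  ⟨(b (a (a (b (l 6) (b (l 6) (b (l 16597232) (l 16634160)))) (a (b (l 6) (b (l 16584296) (l 16617888))) (b (b (b (l 6) (l 16578416)) (l 16607480)) (b (l 16597104) (l 16609472))))) (b (a (b (a (b (l 16585632) (l 16591496)) (b (b (l 16597400) (l 16600544)) (l 16626192))) (a (b (l 16618256) (l 16603000)) (b (l 16621872) (l 16648952)))) (b (a (b (b (l 16632208) (l 16614584)) (b (l 16617896) (l 16621192))) (b (b (a (l 16621936) (l 16629256)) (l 16639616)) (b (l 16653600) (l 16636104)))) (a (b (a (l 16622344) (l 16629832)) (a (l 16628736) (l 16636408))) (b (a (l 16637416) (l 16645104)) (a (l 16644168) (l 16652024)))))) (a (b (a (l 16632456)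 (b (l 16623544) (l 16629552))) (a (l 16643736) (l 16656888))) (b (a (b (a (l 16635072) (l 16642936)) (a (l 16641368) (l 16649416))) (b (a (l 16650864) (l 16658880)) (a (l 16657520) (l 16665696)))) (a (b (l 16651776) (l 16658144)) (a (l 16667456) (b (l 16672480) (l 16679256)))))))) (a (b (b (a (l 16609400) (a (l 16650352) (c (l 16647840) (l 16642288)))) (a (l 16620872) (l 16662248))) (a (b (l 16634872) (l 16670136)) (b (l 16666496) (a (l 16646312) (l 16660400))))) (a (a (b (b (b (l 16632744) (l 16660272)) (l 16679512)) (b (l 16682264) (l 16696736))) (b (b (l 16671528) (b (l 16681560) (l 16666792))) (b (l 16698616) (l 16705360)))) (b (b (a (b (l 16664512) (l 16670912)) (b (l 16681736) (l 16688456))) (a (b (l 16698320) (a (l 16700568) (l 16709440))) (b (l 16705688) (c (l 16722936) (l 16722928))))) (b (a (a (l 16690528) (l 16720320)) (b (a (l 16725496) (l 16729232)) (l 16726912))) (a (b (l 16706024) (l 16734400)) (b (l 16734376) (b (l 16750456) (l 16743696))))))))), by decide +kernel⟩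

def k3_mm_202_t : ∃ t, chk3 f_mm_202_t t 14 16 1 = true :=
  ⟨(a (b (b (a (b (a (l 16636712) (l 16644328)) (a (l 16640352) (l 16648040))) (b (a (l 16652112) (c (l 16661664) (l 16658496))) (a (l 16655888) (l 16663904)))) (a (a (l 16656248) (b (l 16651720) (l 16655384))) (b (a (l 16659632) (l 16667712)) (a (l 16663360) (l 16671504))))) (a (a (b (l 16652912) (l 16659976)) (b (l 16660840) (l 16668048))) (b (a (l 16679400) (b (l 16675264) (l 16679008))) (a (l 16676248) (l 16695080))))) (b (a (b (b (l 14) (a (l 16672104) (l 14))) (b (a (l 16675968) (c (l 16685728) (l 16683120))) (a (l 16679808) (l 16688304)))) (b (l 14) (a (b (l 14) (c (l 16698144) (l 16695856))) (l 14)))) (a (b (a (b (l 16683624) (l 16687424)) (b (l 16692168) (l 16696016))) (a (b (l 16691208) (l 16694968)) (b (l 16699840) (l 16703648)))) (b (a (b (l 16700904) (l 16704792)) (b (l 14) (c (l 16714672) (l 16712872)))) (a (b (l 16708656) (l 16712504)) (b (c (l 16718504) (l 16716840)) (l 16729424))))))), by decide +kernel⟩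

def k4_mm_202_t : ∃ t, chk3 f_mm_202_t t 14 17 1 = true :=
  ⟨(a (b (a (b (a (l 16666984) (l 16675192)) (a (l 16673944) (l 16682288))) (b (b (l 16696432) (l 16700080)) (b (l 16703720) (l 16707344)))) (a (a (b (l 16680880) (l 16687784)) (b (l 16689352) (l 16696392))) (b (a (l 16697920) (l 16706600)) (a (l 16705080) (l 16724352))))) (a (b (b (a (l 16711064) (b (l 16707440) (l 16711216))) (a (l 16718496) (b (l 16714976) (l 16718728)))) (b (a (l 16725888) (b (l 16722464) (l 16726192))) (a (b (l 16720920) (l 16724592)) (c (l 16742712) (l 16741776))))) (b (b (a (b (l 16716336) (l 16720152)) (b (l 16730672) (l 16734520))) (a (c (l 16736968) (l 16732424)) (b (l 16740984) (c (l 16737448) (l 16736424))))) (a (b (b (l 16731520) (l 16745776)) (b (l 16744288) (l 16748032))) (a (b (b (l 16738416) (l 16742208)) (c (l 16753456) (l 16752776))) (b (c (l 16750624) (l 16749824)) (b (l 16750680) (l 16759704)))))))), by decide +kernel⟩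

def k5_mm_202_t : ∃ t, chk3 f_mm_202_t t 15 16 1 = true :=
  ⟨(a (b (l 14) (a (b (l 14) (a (b (c (l 16732864) (l 16731424)) (c (l 16731472) (l 16735408))) (b (l 14) (a (l 16743144) (c (l 16743200) (l 16742208)))))) (l 14))) (l 14)), by decide +kernel⟩

def k6_mm_202_t : ∃ t, chk3 f_mm_202_t t 60 17 1 = true :=
  ⟨(a (a (b (b (b (l 16732368) (l 16736240)) (b (l 16740104) (l 16743952))) (b (b (l 16747784) (l 16756848)) (b (l 16760656) (a (l 16758024) (l 16765648))))) (b (b (b (l 16737064) (l 16740960)) (b (l 16744832) (l 16753936))) (b (b (l 16757784) (c (l 16756648) (l 16756112))) (a (b (l 16764240) (l 16765432)) (b (l 16766648) (a (l 16769856) (l 16771064))))))) (b (a (b (b (l 16747064) (l 16750968)) (b (c (l 16750000) (l 16749240)) (c (l 16753816) (l 16753168)))) (b (b (c (l 16747072) (l 16746200)) (c (l 16750928) (l 16750184))) (b (c (l 16760016) (l 16759384)) (c (l 16761224) (l 16760704))))) (b (b (a (c (l 16762856) (l 16762328)) (b (l 16763872) (c (l 16763368) (l 16762992))))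 (a (c (l 16764032) (l 16763776)) (a (c (l 16767632) (l 16767312)) (b (l 16771584) (l 16770888))))) (a (a (b (a (l 16768456) (l 16769672)) (b (l 16766688) (l 16773840))) (b (b (l 16765296) (l 16772456)) (b (l 16771744) (a (l 16775664) (l 16774264))))) (a (b (b (l 16772976) (c (l 16769752) (l 16769560))) (c (b (l 16774264) (l 16776152)) (b (l 16774120) (l 16776056)))) (b (b (a (l 16769576) (l 16773432)) (l 16773424)) (b (c (l 16775384) (l 16776616)) (b (c (l 16776808) (l 16776760)) (a (l 16775808) (a (l 16778048) (b (l 16778432) (l 86134229959)))))))))))), by decide +kernel⟩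

def k7_mm_202_t : ∃ t, chk3 f_mm_202_t t 61 68 1 = true :=
  ⟨(b (a (a (c (l 16757128) (l 16753768)) (l 14)) (l 14)) (b (a (a (l 16759704) (c (l 16759664) (l 16759152))) (l 14)) (a (a (l 16759040) (c (l 16764224) (l 16763768))) (a (a (l 16767744) (c (l 16767784) (l 16767512))) (l 14))))), by decide +kernel⟩

def k8_mm_202_t : ∃ t, chk3 f_mm_202_t t 122 69 1 = true :=
  ⟨(a (b (b (l 16761000) (a (l 16759096) (l 16761568))) (a (c (l 16762232) (l 16761808)) (c (l 16767288) (l 16766936)))) (a (b (c (l 16765888) (l 16765488)) (b (l 16768624) (a (l 16767328) (l 16768576)))) (b (b (l 16767208) (l 16769168)) (b (c (l 16768624) (l 16768376)) (c (l 16771856) (l 16771672)))))), by decide +kernel⟩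

def k9_mm_202_t : ∃ t, chk3 f_mm_202_t t 123 69 1 = true :=
  ⟨(b (b (b (a (a (l 16766600) (l 16771744)) (l 14)) (a (a (l 16767584) (l 16771424)) (a (a (l 16772016) (l 16774600)) (l 14)))) (b (a (a (l 16771184) (a (l 16770456) (l 16771728))) (a (a (l 16774312) (a (l 16775264) (l 16775904))) (a (c (l 16776888) (l 16775528)) (a (c (l 16777184) (l 16777816)) (l 14))))) (a (a (l 16772168) (c (l 16773456) (l 16773312))) (a (c (l 16775640) (l 16775896)) (a (a (l 16776872) (b (l 16776616) (a (l 16776944) (l 48553264823)))) (a (b (a (l 16777752) (a (l 63048779271) (l 93650421559))) (l 157538059255)) (l 4))))))) (a (a (a (b (l 16772352) (c (l 16775032) (l 16774896))) (b (c (l 16771720) (l 16771568)) (b (l 16775736) (l 16776056)))) (a (b (b (l 16775040) (l 16776024)) (b (l 16776344) (l 16776664))) (b (b (l 16775656) (a (l 16775664) (l 16776296))) (b (l 16776960) (a (l 16777624) (b (l 16776704) (c (l 41573942855) (l 42110813751)))))))) (a (a (b (b (l 16776272) (a (l 16775624) (l 16777576)))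 (b (a (c (l 16777928) (l 16777904)) (b (l 16777984) (a (l 57680070455) (l 4)))) (a (b (a (l 16777840) (l 104924710391)) (l 4)) (l 4)))) (a (b (b (l 16777232) (b (l 16776656) (c (l 35668362727) (l 16777960)))) (a (b (b (l 101166613959) (l 4)) (l 4)) (l 4))) (b (b (c (l 16777880) (l 16777864)) (b (a (l 16777792) (l 77007423543)) (l 4))) (l 4)))) (b (a (b (a (b (l 16777936) (a (l 52311361255) (l 159685542631))) (a (b (l 73786198023) (l 4)) (l 4))) (l 4)) (l 4)) (l 4))))), by decide +kernel⟩

def k10_mm_202_t : ∃ t, chk3 f_mm_202_t t 244 35 1 = true :=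
  ⟨(b (b (a (b (l 16764936) (l 16769488)) (b (l 16770032) (c (l 16769456) (l 16769240)))) (b (c (a (l 16768920) (l 16772672)) (a (l 16768688) (l 16772512))) (b (a (l 16772872) (c (l 16775416) (l 16775296))) (a (l 16773840) (l 16775008))))) (b (a (b (b (l 16774800) (a (l 16772528) (l 16776384))) (c (c (l 16775952) (l 16775920)) (l 16775864))) (b (a (l 16775840) (b (l 16775288) (l 16777568))) (b (a (l 16777280) (a (c (l 16778224) (l 16778216)) (b (l 52848232647) (l 4)))) (a (a (l 16777936) (b (l 16778320) (l 73249327863))) (c (l 153779963719) (l 158074930967)))))) (b (b (a (a (l 16775408) (c (l 6140462903) (l 16777952))) (b (a (a (l 66270005063) (l 4)) (l 4)) (l 4))) (a (a (l 16777680) (a (b (l 16778376) (l 79691778903)) (l 154316834119))) (l 4))) (a (a (a (b (a (l 16778176) (l 39963330903)) (l 159685543335)) (b (b (l 74323068855) (l 4)) (l 4))) (l 4)) (l 4))))), by decide +kernel⟩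

def k11_mm_202_t : ∃ t, chk3 f_mm_202_t t 245 35 1 = true :=
  ⟨(b (a (b (b (c (l 16772616) (l 16772416)) (b (l 16772664) (a (l 16771696) (l 16775568)))) (b (c (l 16775136) (l 16775040)) (b (c (l 16776568) (l 16776520)) (a (l 16776880) (a (l 16777824) (a (l 16777968) (b (l 16777056) (l 122104579319)))))))) (b (a (b (a (l 16774080) (l 16774712)) (l 16774704)) (c (b (l 16775712) (l 16776320)) (b (l 16775592) (l 16776256)))) (a (b (b (l 16776488) (l 16777456)) (b (a (l 16778112) (b (l 40500201335) (l 149484995431))) (a (c (l 139284448295) (l 143042544647)) (l 4)))) (b (a (b (l 16776120) (b (l 16778160) (c (l 53921974407) (l 54458845303)))) (b (l 16778064) (c (c (l 134452610007) (l 136063222727)) (l 138747577255)))) (l 4))))) (b (a (b (b (b (a (l 16776296) (a (l 45332039783) (l 4))) (a (l 2382366599) (l 160759285271))) (a (a (b (l 16778264) (l 78081165303)) (c (l 143579415687) (l 147337512039))) (l 4))) (l 4)) (l 4)) (l 4))), by decide +kernel⟩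

def k12_mm_202_t : ∃ t, chk3 f_mm_202_t t 123 35 1 = true :=
  ⟨(b (a (b (a (b (b (a (l 16776424) (l 16776376)) (c (c (l 16776760) (l 16776736)) (l 16776368))) (b (a (l 16777064) (a (l 16778008) (b (l 17951622839) (l 137673835175)))) (b (a (l 16777792) (a (a (l 16777912) (l 97945389271)) (l 4))) (a (a (l 16776648) (c (l 48016394279) (l 48553265175))) (l 4))))) (a (a (b (b (l 16776016) (b (l 16776752) (c (l 48016393847) (l 49090135655)))) (a (b (l 156464317543) (l 4)) (l 4))) (b (b (l 16777800) (b (a (l 16777872) (l 121567708423)) (l 4))) (l 4))) (b (b (a (b (l 12582913623) (c (l 130694513255) (l 75933682167))) (c (l 151632479575) (l 155390575927))) (l 4)) (l 4)))) (a (a (b (b (a (b (l 34057750295) (l 143579415303)) (l 160222414327)) (l 4)) (l 4)) (l 4)) (l 4))) (l 4)) (l 4)), by decide +kernel⟩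

def k13_mm_202_t : ∃ t, chk3 f_mm_202_t t 31 17 1 = true :=
  ⟨(a (b (a (b (l 14) (b (b (l 14) (b (l 14) (l 4))) (l 4))) (l 4)) (l 4)) (l 4)), by decide +kernel⟩

def k14_mm_202_t : ∃ t, chk3 f_mm_202_t t 28 18 1 = true :=
  ⟨(b (a (b (a (l 16694696) (l 16703424)) (l 16709992)) (b (a (l 16733192) (b (l 16719304) (l 16722920))) (a (l 16740344) (c (l 16728680) (l 16727984))))) (a (b (l 16720928) (l 16730584)) (a (b (l 16726528) (l 16733712)) (b (l 16738224) (l 16748112))))), by decide +kernel⟩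

def k15_mm_202_t : ∃ t, chk3 f_mm_202_t t 58 18 1 = true :=
  ⟨(b (b (a (c (l 16730496) (l 16729664)) (b (l 16747816) (l 16746272))) (a (a (l 16745616) (l 16750176)) (b (c (l 16745024) (l 16744424)) (c (l 16759160) (l 16758648))))) (b (a (b (l 16753400) (l 16757064)) (a (l 16754272) (b (l 16764920) (l 16768624)))) (a (c (l 16757480) (l 16757144)) (c (b (l 16764896) (l 16768568)) (b (l 16764616) (l 16768352)))))), by decide +kernel⟩

def k16_mm_202_t : ∃ t, chk3 f_mm_202_t t 59 18 1 = true :=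
  ⟨(a (a (b (b (a (l 16755400) (l 16752472)) (b (l 16751656) (l 16765864))) (b (b (l 16769584) (l 16768064)) (b (l 16771776) (c (l 16775552) (l 16775440))))) (b (b (b (l 16748848) (l 16752592)) (b (l 16766816) (l 16767928))) (b (b (l 16769040) (l 16771456)) (b (a (l 16775312) (l 16776368)) (a (c (l 16776448) (l 16776392)) (b (l 16777856) (a (a (l 16778832) (l 20635979143)) (b (l 56069459127) (l 156464318183))))))))) (b (b (a (b (l 16764008) (l 16759904)) (b (c (l 16758456) (l 16758024)) (c (l 16767424) (l 16767080)))) (b (a (c (l 16766448) (l 16766096)) (b (l 16770080) (a (l 16765528) (l 16773152)))) (a (l 16767400) (a (l 16770960) (l 16773352))))) (b (a (b (c (l 16773856) (l 16773680)) (a (l 16773696) (b (l 16772520) (l 16777016)))) (b (a (c (l 16774768) (l 16774664)) (b (l 16776176) (a (l 16774832) (l 16778648)))) (a (b (l 16777528) (a (l 16778808) (b (l 23320332935) (a (l 89355454999) (l 4))))) (a (b (a (l 16779032) (b (l 16776536) (l 67880619511))) (c (l 155927448103) (l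 157001189863))) (b (b (a (l 16778456) (l 88818585591)) (l 4)) (l 4)))))) (a (b (b (a (l 16776504) (a (l 16778288) (a (l 16778536) (b (l 16776696) (l 98482260487))))) (a (c (l 16778392) (l 16778360)) (a (b (l 44258298823) (l 145190028743)) (l 160759286551)))) (a (b (b (a (l 16779176) (l 129620771783)) (a (l 75396812119) (l 4))) (l 4)) (l 4))) (b (a (a (b (a (b (l 16778568) (l 4)) (l 157538060375)) (l 4)) (l 4)) (l 4)) (l 4)))))), by decide +kernel⟩

def k17_mm_202_t : ∃ t, chk3 f_mm_202_t t 28 19 1 = true :=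
  ⟨(a (b (b (a (l 16735696) (l 16731744)) (a (c (l 16750880) (l 16750760)) (b (l 16747624) (l 16751312)))) (b (a (l 16737360) (l 16756928)) (a (l 16755320) (l 16761136)))) (b (b (a (l 16751416) (c (l 16760768) (l 16760504))) (a (b (l 16746376) (b (l 16759592) (l 16759472))) (c (l 16765424) (l 16765264)))) (b (a (b (a (l 16751432) (l 16763904)) (l 16767968)) (a (b (a (l 16770008) (l 16772336)) (l 16764416)) (a (b (l 16769432) (l 16773152)) (b (l 16766528) (b (l 16774552) (l 16771176)))))) (a (b (l 16766472) (l 16771512)) (a (b (l 16773400) (b (l 16776200) (l 16775432))) (b (b (l 16777120) (l 16776368)) (b (a (l 16774440) (a (l 16778816) (a (l 54995717063) (l 92039810663)))) (b (a (l 16775832) (c (l 140358190791) (l 141968803463))) (a (c (l 27615300471) (l 16778744)) (l 4)))))))))), by decide +kernel⟩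

def k18_mm_202_t : ∃ t, chk3 f_mm_202_t t 29 38 1 = true :=
  ⟨(a (b (a (b (l 16762840) (l 16767840)) (a (b (l 16769824) (l 16773528)) (b (l 16773200) (b (l 16777296) (c (l 16776552) (l 16776504)))))) (a (a (c (l 16769784) (l 16769656)) (b (l 16772552) (c (l 16776288) (l 16776224)))) (a (b (c (l 16775960) (l 16774576)) (a (c (l 16778480) (l 16777136)) (b (c (l 16778592) (l 16778576)) (a (b (l 16779392) (l 81839264759)) (a (l 147874383463) (l 4)))))) (b (b (a (l 16777216) (a (l 16778984) (b (l 16779056) (l 147874383271)))) (b (a (l 16778608) (c (l 143579416631) (l 145726900215))) (a (a (l 16776328) (l 80228650343)) (l 4)))) (a (a (b (b (l 61975039191) (l 160759285511)) (l 4)) (l 4)) (l 4)))))) (a (a (b (b (a (l 16776728) (b (l 16776848) (a (l 16775496) (c (l 21172849831) (l 16778648))))) (a (b (l 16778864) (a (b (l 16776392) (l 66806877191)) (b (l 85060488535) (l 4)))) (b (b (a (l 16778216) (l 151632479815)) (c (l 145190029527) (l 147874384007))) (l 4)))) (b (a (b (c (l 162369900391)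 (l 166127996663)) (l 4)) (l 4)) (l 4))) (b (b (a (a (b (l 16778624) (b (l 70564973735) (l 4))) (b (b (l 16779352) (l 75396813751)) (l 4))) (a (b (b (l 140358190343) (l 4)) (l 4)) (l 4))) (l 4)) (l 4))) (l 4))), by decide +kernel⟩

def k19_mm_202_t : ∃ t, chk3 f_mm_202_t t 29 39 1 = true :=
  ⟨(a (b (b (a (a (l 16775280) (b (c (l 16776440) (l 16776400)) (a (l 16777112) (a (l 16778872) (b (l 16778280) (l 142505673927)))))) (a (a (b (a (c (l 24930946167) (l 16779368)) (b (l 78081166583) (l 4))) (c (l 161833029207) (l 164517383655))) (l 4)) (l 4))) (a (a (b (a (l 16776896) (l 16774000)) (b (a (l 16778296) (l 16778016)) (a (l 16773984) (b (l 16779376) (c (l 16779200) (l 16779192)))))) (a (a (b (l 16775760) (b (l 58753813303) (a (l 104387843927) (l 4)))) (b (b (l 16776472) (l 75933682855)) (l 4))) (a (b (c (l 139284448871) (l 140895061559)) (l 4)) (l 4)))) (l 4))) (a (a (b (a (b (l 16778008) (a (l 21172849783) (a (l 85060488599) (l 151095608951)))) (b (a (a (l 16778832) (l 76470554135))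 (l 149484996551)) (l 4))) (a (b (c (l 161296158119) (l 163980512567)) (l 4)) (l 4))) (l 4)) (l 4))) (l 4)), by decide +kernel⟩

def k20_mm_202_t : ∃ t, chk3 f_mm_202_t t 60 72 1 = true :=
  ⟨(a (b (b (a (l 16767304) (a (l 16765656) (l 16773320))) (a (l 16769192) (a (l 16772800) (l 16775216)))) (b (b (a (l 16770616) (a (l 16768976) (l 16774024))) (a (l 16771560) (l 16773760))) (c (a (l 16773088) (l 16775232)) (a (l 16772864) (l 16775128))))) (a (b (b (c (l 16774416) (l 16774272)) (a (l 16775024) (a (l 16776856) (l 16776776)))) (a (a (b (l 16773696) (l 16776904)) (b (l 16777536) (b (l 16777656) (a (l 16778304) (l 90966067831))))) (b (c (a (l 16778120) (b (c (l 21172848775) (l 19562236023)) (c (l 131231384759) (l 132305126567)))) (a (l 16778096) (b (l 17951623431) (l 134989481095)))) (a (b (a (a (l 16778424) (l 63585651543)) (l 151095608535)) (l 4)) (l 4))))) (b (a (b (a (l 16777400) (c (l 16777832) (l 16777960))) (b (a (l 16777528) (a (c (l 42110814167) (l 16778448)) (c (l 138747577351)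 (l 141968802791)))) (a (b (l 16778240) (a (l 16778416) (l 98482260999))) (l 4)))) (b (b (c (a (c (l 13119784839) (l 16778088)) (c (l 140358190583) (l 141968803303))) (a (l 16778400) (l 144116286919))) (a (a (c (l 71638714487) (l 72175585463)) (l 4)) (l 4))) (l 4))) (a (a (a (b (b (l 145190028391) (l 4)) (l 4)) (l 4)) (l 4)) (l 4))))), by decide +kernel⟩

def k21_mm_202_t : ∃ t, chk3 f_mm_202_t t 60 73 1 = true :=
  ⟨(a (a (a (b (l 16771984) (b (l 16774808) (l 16776696))) (a (b (l 16773784) (b (l 16773992) (l 16778504))) (b (l 16774664) (b (l 16777824) (b (l 16777928) (a (l 55532587447) (l 150558737607))))))) (b (b (a (l 16775856) (b (l 16777816) (c (l 16778448) (l 16778752)))) (b (a (l 16777280) (a (l 16777792) (a (l 58753814007) (l 4)))) (a (l 16776912) (a (a (l 41573943527) (l 138210706375)) (l 4))))) (a (a (b (c (c (l 16778400) (l 16778392)) (l 16778696)) (a (b (l 84523616743) (l 4)) (l 4))) (b (b (a (l 16778160) (l 64122523095)) (l 148948125319)) (l 4))) (l 4)))) (a (b (a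 (b (a (a (b (l 16778024) (l 99019131463)) (b (l 53385104103) (l 4))) (c (l 160222415671) (l 164517382903))) (l 4)) (l 4)) (l 4)) (l 4))), by decide +kernel⟩

def k22_mm_202_t : ∃ t, chk3 f_mm_202_t t 60 37 1 = true :=
  ⟨(a (b (a (b (a (a (b (l 16777976) (b (l 16778736) (a (l 60901297511) (l 4)))) (b (a (l 16778880) (b (l 16776384) (l 54995717495))) (b (l 141431932295) (l 4)))) (a (b (b (a (l 16778304) (l 91502938727)) (l 158074931079)) (l 4)) (l 4))) (l 4)) (l 4)) (l 4)) (l 4)), by decide +kernel⟩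

def k23_mm_202_t : ∃ t, chk3 f_mm_202_t t 61 18 1 = true :=
  ⟨(l 4), by decide +kernel⟩

def k24_mm_202_t : ∃ t, chk3 f_mm_202_t t 30 19 1 = true :=
  ⟨(l 4), by decide +kernel⟩

def k25_mm_202_t : ∃ t, chk3 f_mm_202_t t 31 9 1 = true :=
  ⟨(l 4), by decide +kernel⟩

def k26_mm_202_t : ∃ t, chk3 f_mm_202_t t 12 10 1 = true :=
  ⟨(b (a (b (b (l 16660024) (l 16667312)) (c (l 16700296) (l 16698304))) (b (a (l 16681744) (l 16674888)) (a (l 16696344) (l 16720952)))) (a (b (c (l 16715216) (l 16712856)) (a (l 16681080) (l 16713096))) (b (a (l 16711112) (a (l 16721552) (l 16728920))) (a (c (l 16726608) (l 16724984)) (b (l 16736304) (l 16743632)))))), by decide +kernel⟩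

def k27_mm_202_t : ∃ t, chk3 f_mm_202_t t 13 20 1 = true :=
  ⟨(a (b (a (l 16697536) (a (l 16702648) (l 16732176))) (a (b (l 16722272) (l 16729608)) (b (l 16738896) (l 16746240)))) (a (b (b (l 16731304) (c (l 16749312) (l 16748976))) (a (b (l 16731064) (l 16738416)) (b (l 16740048) (l 16752648)))) (b (b (a (l 16734264) (l 16748496)) (a (l 16744280) (l 16755904))) (b (a (l 16756904) (b (l 16766680) (l 16770360))) (a (b (l 16754560) (l 16768712)) (b (l 16768784) (a (l 16764952) (l 16774688)))))))), by decide +kernel⟩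

def k28_mm_202_t : ∃ t, chk3 f_mm_202_t t 26 21 1 = true :=
  ⟨(b (a (b (l 16736960) (l 16744328)) (b (c (l 16753816) (l 16753328)) (a (l 16756664) (l 16754752)))) (a (b (b (l 16749896) (l 16753584)) (c (l 16759448) (l 16758720))) (b (a (l 16743064) (l 16759480)) (a (l 16763560) (c (l 16769624) (l 16769320)))))), by decide +kernel⟩

def k29_mm_202_t : ∃ t, chk3 f_mm_202_t t 54 21 1 = true :=
  ⟨(b (b (a (l 16761488) (c (l 16765368) (l 16765072))) (a (c (l 16763736) (l 16763408)) (b (l 16770728) (l 16769144)))) (a (b (b (l 16769080) (l 16767504)) (b (l 16771176) (a (l 16767376) (l 16774432)))) (b (b (c (l 16772872) (l 16772712)) (a (l 16774208) (b (l 16777760) (l 16776968)))) (a (b (c (l 16775280) (l 16772576)) (a (c (l 16779128) (l 16780392)) (b (c (l 20635979383) (l 16779128)) (c (l 141431932119) (l 142505674519))))) (b (b (a (l 16775048) (a (l 16778720) (a (l 94187294087) (l 156464318007)))) (a (c (a (l 16776336) (l 74859943031)) (l 31910269175)) (l 172033576231))) (a (b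 (l 154853706295) (l 4)) (l 4))))))), by decide +kernel⟩

def k30_mm_202_t : ∃ t, chk3 f_mm_202_t t 55 21 1 = true :=
  ⟨(b (a (b (b (l 16767136) (l 16770792)) (a (b (l 16772200) (l 16775848)) (b (l 16776672) (b (l 16776784) (a (l 16774864) (a (l 16779176) (a (l 83449875815) (l 148411253991)))))))) (b (a (b (l 16773856) (c (l 16774920) (l 16774840))) (b (b (l 16777432) (l 16776632)) (a (a (l 16777680) (b (l 16775264) (a (l 16778136) (l 82913004903)))) (a (b (l 16779024) (l 153779963623)) (b (a (l 74323070119) (l 140895060951)) (l 4)))))) (a (b (a (c (l 16777424) (l 16777384)) (b (c (l 16778760) (l 16778736)) (a (a (l 36205235207) (l 101166616135)) (l 166127995111)))) (a (b (c (a (l 32447138919) (l 147337512423)) (a (l 16779600) (l 147874383287))) (l 4)) (l 4))) (b (a (b (c (a (l 134989480247) (l 4)) (l 146800641927)) (l 4)) (l 4)) (l 4))))) (a (b (a (a (b (l 16775752) (b (l 16778496) (a (a (l 16779496) (l 84523617703)) (l 153779963671)))) (b (c (b (l 16774472) (l 13119786183))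 (l 16779296)) (b (a (c (l 80765522039) (l 79691781479)) (l 172033575431)) (l 4)))) (b (a (a (b (l 16776128) (c (l 140895061239) (l 141968802999))) (b (c (l 75396810935) (l 74323070407)) (l 4))) (b (l 163980512215) (l 4))) (l 4))) (l 4)) (l 4))), by decide +kernel⟩

def k31_mm_202_t : ∃ t, chk3 f_mm_202_t t 12 11 1 = true :=
  ⟨(b (a (a (b (l 16694984) (l 16729400)) (b (l 16727120) (c (l 16741608) (l 16739824)))) (b (a (c (l 16740720) (l 16739232)) (b (l 16750800) (b (l 16756096) (l 16759608)))) (a (b (l 16750352) (l 16757184)) (b (b (l 16763104) (l 16766592)) (c (l 16761624) (l 16771456)))))) (a (b (a (l 16742488) (b (l 16750728) (l 16757272))) (a (c (l 16756032) (l 16754352)) (b (l 16763752) (l 16770136)))) (b (a (b (b (l 16762264) (l 16765624)) (b (l 16768960) (l 16772280))) (a (b (l 16764352) (c (l 16771360) (l 16760432))) (b (l 16772056) (b (l 16777208) (c (l 16775464) (l 16770040)))))) (a (b (c (l 16777536) (l 16776912)) (a (l 16769712) (l 16776936))) (a (a (b (l 16775952)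 (c (l 16772184) (l 16772040))) (b (l 16774552) (b (l 16779584) (c (a (l 16782056) (l 137136965927)) (l 82376137383))))) (b (a (c (b (l 16771616) (l 16780240)) (l 16778448)) (b (c (l 20635982055) (l 16780832)) (a (c (l 94724168855) (l 91502943447)) (l 4)))) (a (b (a (c (l 53921978935) (l 52848237047)) (l 150021868935)) (l 4)) (l 4)))))))), by decide +kernel⟩

def k32_mm_202_t : ∃ t, chk3 f_mm_202_t t 13 22 1 = true :=
  ⟨(a (b (a (b (a (l 16762352) (l 16759936)) (a (l 16748504) (l 16767104))) (a (b (l 16763008) (c (l 16775592) (l 16775344))) (b (b (l 16769736) (l 16773384)) (a (b (l 16769608) (l 16775840)) (b (c (l 16779232) (l 16779168)) (b (a (l 16775584) (c (l 123178320695) (l 93113553975))) (a (l 78081167159) (l 4)))))))) (a (b (a (l 16766064) (l 16770952)) (a (l 16773088) (a (l 16779224) (b (l 16771144) (l 16779960))))) (a (a (b (b (l 16768248) (l 16771816)) (b (c (a (l 16774344) (l 29762787063)) (l 14193531399)) (a (b (l 16779664) (l 161296157255)) (l 170422964935)))) (b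 (b (l 16772504) (a (l 16780272) (b (l 16776304) (l 131768255815)))) (b (a (b (l 89892328695) (l 4)) (l 4)) (l 4)))) (b (a (b (a (c (l 16779736) (l 16781008)) (b (l 39426462407) (l 163443641047))) (b (l 160222416791) (l 4))) (b (a (l 172033577895) (l 4)) (l 4))) (l 4))))) (a (b (a (b (b (a (l 16776288) (a (l 16776984) (b (l 16775680) (a (l 16779616) (l 144116286887))))) (b (a (l 16773792) (a (a (l 16776584) (l 85060491287)) (l 4))) (a (c (a (l 16774536) (l 29225914343)) (l 16779568)) (l 172033577863)))) (a (b (a (b (l 16778992) (l 136063223303)) (b (l 148411255031) (l 4))) (l 4)) (l 4))) (b (a (a (b (a (b (l 78618038167) (l 4)) (l 165591125751)) (l 4)) (l 4)) (l 4)) (l 4))) (l 4)) (l 4))), by decide +kernel⟩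

def k33_mm_202_t : ∃ t, chk3 f_mm_202_t t 13 23 1 = true :=
  ⟨(a (a (b (a (a (b (l 16778032) (b (l 16772728) (a (l 16780408) (b (l 16776376) (l 94724170055))))) (b (c (l 16776920) (l 16771552)) (b (a (l 15267271527) (b (l 16779688) (l 160759286295))) (b (l 158074932887) (l 4))))) (b (a (b (l 16774016) (b (l 35668367815) (a (l 76470555543) (l 4)))) (b (a (b (l 16776304) (l 90966073639)) (l 148411256231)) (l 4))) (a (b (a (l 168275481159) (l 4)) (l 4)) (l 4)))) (a (b (a (b (a (b (l 83986750823) (l 4)) (l 4)) (l 4)) (l 4)) (l 4)) (l 4))) (l 4)) (l 4)), by decide +kernel⟩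

def k34_mm_202_t : ∃ t, chk3 f_mm_202_t t 56 20 1 = true :=
  ⟨(b (a (b (l 16758184) (b (l 16768328) (l 16766776))) (b (b (l 16770000) (l 16768472)) (b (c (l 16772224) (l 16772104)) (a (l 16773576) (b (l 16777208) (l 16776424)))))) (a (b (b (l 16771112) (a (l 16771872) (l 16776384))) (a (b (l 16775536) (a (l 16778064) (c (b (l 16774176) (l 16778624)) (l 16778992)))) (b (b (l 16776512) (a (l 16774584) (a (l 16778904) (a (l 38352718935) (l 103314099879))))) (a (a (b (l 16775848) (a (l 84523617687) (l 150021866775))) (b (a (l 16779328) (l 75933682855)) (l 4))) (b (c (a (l 148948125255) (l 4)) (l 157538060791)) (l 4)))))) (b (a (b (c (l 16774664) (l 16777216)) (a (c (l 16777176) (l 16777136)) (b (l 16778520) (a (a (l 16778856) (l 85060488695)) (l 155927447431))))) (b (b (a (l 16774496) (a (l 16778832) (a (l 36205235159) (l 96871648823)))) (b (a (l 16775872) (c (l 145726899879) (l 146800641639))) (a (c (l 27615300535) (l 16779432)) (l 4)))) (a (a (b (a (l 77007424775) (l 144116286615))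 (l 4)) (l 4)) (l 4)))) (a (b (a (b (c (a (l 16778712) (l 137136964679)) (a (l 16779352) (l 137136964631))) (l 170422963543)) (l 4)) (l 4)) (l 4))))), by decide +kernel⟩

def k35_mm_202_t : ∃ t, chk3 f_mm_202_t t 57 20 1 = true :=
  ⟨(b (a (b (a (b (l 16771616) (l 16775320)) (b (l 16776216) (a (l 16776144) (a (l 16778528) (b (l 16775480) (a (l 36205235111) (l 93113552423))))))) (a (b (a (l 16777872) (c (l 16778872) (l 16777528))) (a (b (l 16778008) (a (l 19562237031) (a (l 88818584919) (l 153779963415)))) (b (a (a (l 16778144) (l 79691779495)) (l 151632480071)) (l 4)))) (b (a (a (b (l 16775720) (a (l 72175586519) (l 139821319255))) (b (c (l 31373396903) (l 16778856)) (l 169349221015))) (b (c (a (l 139821319607) (l 4)) (l 150021867911)) (l 4))) (l 4)))) (b (a (b (a (c (l 16777072) (l 16777040)) (b (l 16778784) (a (a (l 16778136) (l 76470553383)) (l 149484996455)))) (a (a (b (l 20635978823) (l 160759286007)) (b (a (l 85597359431) (l 151095608871)) (l 4))) (l 4))) (b (a (a (b (a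 (l 69491231975) (l 138210706567)) (l 4)) (l 4)) (l 4)) (l 4))) (l 4))) (a (b (a (b (a (b (l 166127996183) (l 4)) (l 4)) (l 4)) (l 4)) (l 4)) (l 4))), by decide +kernel⟩

def k36_mm_202_t : ∃ t, chk3 f_mm_202_t t 28 21 1 = true :=
  ⟨(a (b (a (b (a (b (a (b (l 16778176) (c (a (l 26004687671) (l 141968803063)) (a (l 16779456) (l 142505673911)))) (b (a (a (l 29225913095) (l 94187294023)) (l 161296156679)) (l 4))) (a (b (l 171496705511) (l 4)) (l 4))) (l 4)) (l 4)) (l 4)) (l 4)) (l 4)), by decide +kernel⟩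

def k37_mm_202_t : ∃ t, chk3 f_mm_202_t t 29 10 1 = true :=
  ⟨(l 4), by decide +kernel⟩

def k38_mm_202_t : ∃ t, chk3 f_mm_202_t t 15 10 1 = true :=
  ⟨(l 4), by decide +kernel⟩

def k39_mm_202_t : ∃ t, chk3 f_mm_202_t t 7 11 1 = true :=
  ⟨(l 4), by decide +kernel⟩

def k40_mm_202_t : ∃ t, chk3 f_mm_202_t t 3 3 1 = true :=
  ⟨(b (a (a (b (b (a (b (a (c (l 16768112) (l 16766872)) (b (l 16765952) (l 16777400))) (a (b (l 16776440) (l 16782248)) (a (b (l 16764488) (l 16780920)) (b (l 16781640) (a (c (l 34057759191) (l 31910275351)) (b (b (l 16782064) (l 92039818359)) (l 155390579943))))))) (b (a (a (b (l 16776144) (c (l 16782608) (l 16782432))) (b (a (l 16776344) (a (l 16780144) (b (l 16774176) (l 81302395879)))) (a (b (l 27615304679) (l 133915739767)) (b (l 144116289527) (l 4))))) (a (a (b (b (b (l 26541561143) (l 84523622567)) (l 160759288903)) (l 4)) (l 4)) (l 4))) (a (a (b (a (b (l 16774920) (a (l 16780440) (l 138747579031))) (b (a (l 86134234071) (l 157538061959)) (l 4)))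 (l 4)) (l 4)) (l 4)))) (a (b (a (b (l 16777424) (a (l 16769456) (b (l 16779352) (a (l 16775288) (l 95797913143))))) (a (b (a (b (l 16773176) (l 16781400)) (b (l 42647690775) (l 133915741575))) (a (b (l 124788935143) (l 4)) (l 4))) (b (a (l 152706226839) (l 4)) (l 4)))) (a (a (b (c (l 37278987271) (l 35131503319)) (a (b (l 16782424) (l 142505676727)) (l 4))) (b (a (b (l 82913014759) (l 4)) (l 4)) (l 4))) (l 4))) (l 4))) (l 4)) (l 4)) (l 4)) (l 4)), by decide +kernel⟩

theorem s41_mm_202_t : ∃ t, chk3 f_mm_202_t t 28 20 1 = true := ex3_a k34_mm_202_t k35_mm_202_t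

theorem s42_mm_202_t : ∃ t, chk3 f_mm_202_t t 28 10 1 = true := ex3_b s41_mm_202_t k36_mm_202_t

theorem s43_mm_202_t : ∃ t, chk3 f_mm_202_t t 14 10 1 = true := ex3_a s42_mm_202_t k37_mm_202_t

theorem s44_mm_202_t : ∃ t, chk3 f_mm_202_t t 7 10 1 = true := ex3_a s43_mm_202_t k38_mm_202_t

theorem s45_mm_202_t : ∃ t, chk3 f_mm_202_t t 7 5 1 = true := ex3_b s44_mm_202_t k39_mm_202_t

theorem s46_mm_202_t : ∃ t, chk3 f_mm_202_t t 13 11 1 = true := ex3_b k32_mm_202_t k33_mm_202_t

theorem s47_mm_202_t : ∃ t, chk3 f_mm_202_t t 6 11 1 = true := ex3_a k31_mm_202_t s46_mm_202_t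

theorem s48_mm_202_t : ∃ t, chk3 f_mm_202_t t 27 21 1 = true := ex3_a k29_mm_202_t k30_mm_202_t

theorem s49_mm_202_t : ∃ t, chk3 f_mm_202_t t 13 21 1 = true := ex3_a k28_mm_202_t s48_mm_202_t

theorem s50_mm_202_t : ∃ t, chk3 f_mm_202_t t 13 10 1 = true := ex3_b k27_mm_202_t s49_mm_202_t

theorem s51_mm_202_t : ∃ t, chk3 f_mm_202_t t 6 10 1 = true := ex3_a k26_mm_202_t s50_mm_202_t

theorem s52_mm_202_t : ∃ t, chk3 f_mm_202_t t 6 5 1 = true := ex3_b s51_mm_202_t s47_mm_202_t

theorem s53_mm_202_t : ∃ t, chk3 f_mm_202_t t 3 5 1 = true := ex3_a s52_mm_202_t s45_mm_202_t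

theorem s54_mm_202_t : ∃ t, chk3 f_mm_202_t t 60 36 1 = true := ex3_b k20_mm_202_t k21_mm_202_t

theorem s55_mm_202_t : ∃ t, chk3 f_mm_202_t t 60 18 1 = true := ex3_b s54_mm_202_t k22_mm_202_t

theorem s56_mm_202_t : ∃ t, chk3 f_mm_202_t t 30 18 1 = true := ex3_a s55_mm_202_t k23_mm_202_t

theorem s57_mm_202_t : ∃ t, chk3 f_mm_202_t t 30 9 1 = true := ex3_b s56_mm_202_t k24_mm_202_t

theorem s58_mm_202_t : ∃ t, chk3 f_mm_202_t t 15 9 1 = true := ex3_a s57_mm_202_t k25_mm_202_t

theorem s59_mm_202_t : ∃ t, chk3 f_mm_202_t t 29 19 1 = true := ex3_b k18_mm_202_t k19_mm_202_t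

theorem s60_mm_202_t : ∃ t, chk3 f_mm_202_t t 14 19 1 = true := ex3_a k17_mm_202_t s59_mm_202_t

theorem s61_mm_202_t : ∃ t, chk3 f_mm_202_t t 29 18 1 = true := ex3_a k15_mm_202_t k16_mm_202_t

theorem s62_mm_202_t : ∃ t, chk3 f_mm_202_t t 14 18 1 = true := ex3_a k14_mm_202_t s61_mm_202_t

theorem s63_mm_202_t : ∃ t, chk3 f_mm_202_t t 14 9 1 = true := ex3_b s62_mm_202_t s60_mm_202_t

theorem s64_mm_202_t : ∃ t, chk3 f_mm_202_t t 7 9 1 = true := ex3_a s63_mm_202_t s58_mm_202_t

theorem s65_mm_202_t : ∃ t, chk3 f_mm_202_t t 122 35 1 = true := ex3_a k10_mm_202_t k11_mm_202_t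

theorem s66_mm_202_t : ∃ t, chk3 f_mm_202_t t 61 35 1 = true := ex3_a s65_mm_202_t k12_mm_202_t

theorem s67_mm_202_t : ∃ t, chk3 f_mm_202_t t 61 69 1 = true := ex3_a k8_mm_202_t k9_mm_202_t

theorem s68_mm_202_t : ∃ t, chk3 f_mm_202_t t 61 34 1 = true := ex3_b k7_mm_202_t s67_mm_202_t

theorem s69_mm_202_t : ∃ t, chk3 f_mm_202_t t 61 17 1 = true := ex3_b s68_mm_202_t s66_mm_202_t

theorem s70_mm_202_t : ∃ t, chk3 f_mm_202_t t 30 17 1 = true := ex3_a k6_mm_202_t s69_mm_202_t

theorem s71_mm_202_t : ∃ t, chk3 f_mm_202_t t 15 17 1 = true := ex3_a s70_mm_202_t k13_mm_202_t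

theorem s72_mm_202_t : ∃ t, chk3 f_mm_202_t t 15 8 1 = true := ex3_b k5_mm_202_t s71_mm_202_t

theorem s73_mm_202_t : ∃ t, chk3 f_mm_202_t t 14 8 1 = true := ex3_b k3_mm_202_t k4_mm_202_t

theorem s74_mm_202_t : ∃ t, chk3 f_mm_202_t t 7 8 1 = true := ex3_a s73_mm_202_t s72_mm_202_t

theorem s75_mm_202_t : ∃ t, chk3 f_mm_202_t t 7 4 1 = true := ex3_b s74_mm_202_t s64_mm_202_t

theorem s76_mm_202_t : ∃ t, chk3 f_mm_202_t t 3 4 1 = true := ex3_a k2_mm_202_t s75_mm_202_t

theorem s77_mm_202_t : ∃ t, chk3 f_mm_202_t t 3 2 1 = true := ex3_b s76_mm_202_t s53_mm_202_t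

theorem s78_mm_202_t : ∃ t, chk3 f_mm_202_t t 3 1 1 = true := ex3_b s77_mm_202_t k40_mm_202_t

theorem s79_mm_202_t : ∃ t, chk3 f_mm_202_t t 2 1 1 = true := ex3_b k0_mm_202_t k1_mm_202_t

theorem s80_mm_202_t : ∃ t, chk3 f_mm_202_t t 1 1 1 = true := ex3_a s79_mm_202_t s78_mm_202_t

theorem c_mm_202_t : CertNE 0 536870912 0 536870912 536870912 50465866 3 eng mog cd0q2 cd0q0 pd2 true false false .pp 2 0 2
    ndB0q2 ndB0q0 pcB2 cut_mm_202_t Ext.none :=
  certNE0 (fam := true) (s1 := false) (s2 := false) (a := 2) (b := 0) (c := 2) (cn := .pp) (n1 := ndB0q2) (n2 := ndB0q0) (pc := pcB2) (cut := cut_mm_202_t) (xt := Ext.none) (P1 := 0) (W1 := 536870912) (P2 := 0) (W2 := 536870912) (P3 := 536870912) (W3 := 50465866) (N0 := 3) (En := eng) (mo := mog) (C1 := cd0q2) (C2 := cd0q0) (C3 := pd2)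
    rfl s80_mm_202_t

noncomputable def cut_mm_203_s : Cut := Cut.of [[⟨4, 0, 0, 1449551462⟩]]

noncomputable def f_mm_203_s : ℕ → ℕ → ℕ → ℕ → Bool := onCell 0 536870912 0 536870912 536870912 50465866
    (rowNE 3 eng mog cd0q2 cd0q0 pd3 0 true false false .up 2 0 3 (qsf 0 536870912 0 536870912 3) ndB0q2 ndB0q0 pcB3 cut_mm_203_s Ext.none)

def k0_mm_203_s : ∃ t, chk3 f_mm_203_s t 1 1 1 = true :=
  ⟨(l 6), by decide +kernel⟩

theorem c_mm_203_s : CertNE 0 536870912 0 536870912 536870912 50465866 3 eng mog cd0q2 cd0q0 pd3 true false false .up 2 0 3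
    ndB0q2 ndB0q0 pcB3 cut_mm_203_s Ext.none :=
  certNE0 (fam := true) (s1 := false) (s2 := false) (a := 2) (b := 0) (c := 3) (cn := .up) (n1 := ndB0q2) (n2 := ndB0q0) (pc := pcB3) (cut := cut_mm_203_s) (xt := Ext.none) (P1 := 0) (W1 := 536870912) (P2 := 0) (W2 := 536870912) (P3 := 536870912) (W3 := 50465866) (N0 := 3) (En := eng) (mo := mog) (C1 := cd0q2) (C2 := cd0q0) (C3 := pd3)
    rfl k0_mm_203_s

noncomputable def cut_mm_203_t : Cut := Cut.of [[⟨3, 0, 0, 2845415833⟩]]

noncomputable def f_mm_203_t : ℕ → ℕ → ℕ → ℕ → Bool := onCell 0 536870912 1610612736 536870912 536870912 50465866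
    (rowNE 3 eng mog cd0q2 cd0q0 pd3 1 true false false .up 2 0 3 (qsf 0 536870912 0 536870912 3) ndB0q2 ndB0q0 pcB3 cut_mm_203_t Ext.none)

def k0_mm_203_t : ∃ t, chk3 f_mm_203_t t 1 1 1 = true :=
  ⟨(b (a (b (a (b (a (b (a (l 16678448) (l 16691056)) (a (l 16678768) (l 16694608))) (b (a (l 16706464) (l 16768328)) (b (l 16764472) (a (l 16715304) (l 16739776))))) (a (b (a (l 16685448) (l 16726128)) (a (l 16722984) (b (l 16731112) (l 16744904)))) (b (a (b (l 16719872) (l 16735440)) (b (l 16767928) (l 16785512))) (a (b (l 16749616) (l 16782216)) (b (a (l 16765216) (b (l 16789440) (l 86671129383))) (a (b (l 16772648) (l 74859965847)) (b (l 144116287703) (l 4)))))))) (b (a (b (a (b (l 16745192) (l 16750776)) (b (a (l 16760288) (l 18488508903)) (a (l 16766784) (a (b (l 16772592) (l 56606345735)) (b (l 75396830823) (l 140358194919)))))) (a (b (l 16778376) (a (l 16758888) (b (l 16769072) (l 45868933687)))) (b (a (a (l 16792576) (b (l 16775208) (l 96334797799))) (b (l 133915745207) (l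 4))) (a (a (b (l 75933701751) (l 4)) (l 4)) (l 4))))) (b (a (a (b (a (b (l 16785840) (l 106535322583)) (b (l 120493969767) (l 4))) (l 4)) (l 4)) (l 4)) (l 4))) (a (a (b (b (a (l 23857228023) (b (a (l 16775680) (l 137136966695)) (l 135526354823))) (a (b (l 63048805959) (l 115125257559)) (l 4))) (l 4)) (l 4)) (l 4)))) (b (a (a (b (a (l 16780944) (b (l 16756232) (l 16765072))) (l 2)) (b (a (b (a (l 16766496) (b (l 16772208) (l 61975058151))) (a (l 46405806071) (a (l 97408552311) (l 4)))) (b (a (a (l 119957115959) (l 4)) (l 4)) (l 4))) (l 2))) (l 4)) (l 2))) (l 4)) (l 2)), by decide +kernel⟩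

theorem c_mm_203_t : CertNE 0 536870912 0 536870912 536870912 50465866 3 eng mog cd0q2 cd0q0 pd3 true false false .up 2 0 3
    ndB0q2 ndB0q0 pcB3 cut_mm_203_t Ext.none :=
  certNE1 (fam := true) (s1 := false) (s2 := false) (a := 2) (b := 0) (c := 3) (cn := .up) (n1 := ndB0q2) (n2 := ndB0q0) (pc := pcB3) (cut := cut_mm_203_t) (xt := Ext.none) (P1 := 0) (W1 := 536870912) (P2 := 0) (W2 := 536870912) (P3 := 536870912) (W3 := 50465866) (N0 := 3) (En := eng) (mo := mog) (C1 := cd0q2) (C2 := cd0q0) (C3 := pd3)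
    rfl (fun _ => rfl) k0_mm_203_t

noncomputable def cut_mm_213_s : Cut := Cut.of [[⟨4, 0, 0, 1449551462⟩]]

noncomputable def f_mm_213_s : ℕ → ℕ → ℕ → ℕ → Bool := onCell 0 536870912 536870912 536870912 536870912 50465866
    (rowNE 3 eng mog cd0q2 cd0q1 pd3 0 true false false .pnn 2 1 3 (qsf 0 536870912 536870912 536870912 3) ndB0q2 ndB0q1 pcB3 cut_mm_213_s Ext.none)

def k0_mm_213_s : ∃ t, chk3 f_mm_213_s t 1 1 1 = true :=
  ⟨(l 6), by decide +kernel⟩

theorem c_mm_213_s : CertNE 0 536870912 536870912 536870912 536870912 50465866 3 eng mog cd0q2 cd0q1 pd3 true false false .pnn 2 1 3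
    ndB0q2 ndB0q1 pcB3 cut_mm_213_s Ext.none :=
  certNE0 (fam := true) (s1 := false) (s2 := false) (a := 2) (b := 1) (c := 3) (cn := .pnn) (n1 := ndB0q2) (n2 := ndB0q1) (pc := pcB3) (cut := cut_mm_213_s) (xt := Ext.none) (P1 := 0) (W1 := 536870912) (P2 := 536870912) (W2 := 536870912) (P3 := 536870912) (W3 := 50465866) (N0 := 3) (En := eng) (mo := mog) (C1 := cd0q2) (C2 := cd0q1) (C3 := pd3)
    rfl k0_mm_213_s

noncomputable def cut_mm_213_t : Cut := Cut.of [[⟨3, 0, 0, 2845415833⟩]]

noncomputable def f_mm_213_t : ℕ → ℕ → ℕ → ℕ → Bool := onCell 0 536870912 536870912 536870912 536870912 50465866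
    (rowNE 3 eng mog cd0q2 cd0q1 pd3 0 true false false .pnn 2 1 3 (qsf 0 536870912 536870912 536870912 3) ndB0q2 ndB0q1 pcB3 cut_mm_213_t Ext.none)

def k0_mm_213_t : ∃ t, chk3 f_mm_213_t t 1 1 1 = true :=
  ⟨(a (b (b (a (b (a (b (a (l 16785872) (b (l 16791480) (a (l 16773480) (a (l 70564998359) (l 102777262231))))) (a (b (l 16772272) (a (l 16774552) (l 85597389287))) (b (a (l 85597392087) (l 4)) (l 4)))) (b (a (b (a (b (l 69491250039) (l 123178319799)) (l 4)) (l 4)) (l 4)) (l 4))) (a (b (a (b (a (l 88818613111) (l 4)) (l 4)) (l 4)) (l 4)) (l 4))) (l 4)) (l 4)) (l 4)) (l 4)), by decide +kernel⟩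

theorem c_mm_213_t : CertNE 0 536870912 536870912 536870912 536870912 50465866 3 eng mog cd0q2 cd0q1 pd3 true false false .pnn 2 1 3
    ndB0q2 ndB0q1 pcB3 cut_mm_213_t Ext.none :=
  certNE0 (fam := true) (s1 := false) (s2 := false) (a := 2) (b := 1) (c := 3) (cn := .pnn) (n1 := ndB0q2) (n2 := ndB0q1) (pc := pcB3) (cut := cut_mm_213_t) (xt := Ext.none) (P1 := 0) (W1 := 536870912) (P2 := 536870912) (W2 := 536870912) (P3 := 536870912) (W3 := 50465866) (N0 := 3) (En := eng) (mo := mog) (C1 := cd0q2) (C2 := cd0q1) (C3 := pd3)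
    rfl k0_mm_213_t

end Pool.Agent.Strip051.G.I5000_5470.Tab.CS.BA00

namespace Pool.Agent.Strip051.G.I5000_5470.Tab.CS.BA06

open Pool.Agent.Strip051.PB Pool.Agent.Strip051.PB.T
open Pool.Agent.Strip051.G.I5000_5470.Tab

noncomputable def cut_pp_001_s : Cut := Cut.of [[⟨4, 0, 0, 1449551462⟩]]

noncomputable def f_pp_001_s : ℕ → ℕ → ℕ → ℕ → Bool := onCell 0 536870912 0 536870912 536870912 50465866
    (rowNE 3 eng mog cd0q0 cd6q0 pd1 0 true true true .up 0 0 1 (qsf 0 536870912 0 536870912 1) ndB0q0 ndB6q0 pcB1 cut_pp_001_s Ext.none)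

def k0_pp_001_s : ∃ t, chk3 f_pp_001_s t 1 1 1 = true :=
  ⟨(l 4), by decide +kernel⟩

theorem c_pp_001_s : CertNE 0 536870912 0 536870912 536870912 50465866 3 eng mog cd0q0 cd6q0 pd1 true true true .up 0 0 1
    ndB0q0 ndB6q0 pcB1 cut_pp_001_s Ext.none :=
  certNE0 (fam := true) (s1 := true) (s2 := true) (a := 0) (b := 0) (c := 1) (cn := .up) (n1 := ndB0q0) (n2 := ndB6q0) (pc := pcB1) (cut := cut_pp_001_s) (xt := Ext.none) (P1 := 0) (W1 := 536870912) (P2 := 0) (W2 := 536870912) (P3 := 536870912) (W3 := 50465866) (N0 := 3) (En := eng) (mo := mog) (C1 := cd0q0) (C2 := cd6q0) (C3 := pd1)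
    rfl k0_pp_001_s

noncomputable def cut_pp_011_s : Cut := Cut.of [[⟨4, 0, 0, 1449551462⟩]]

noncomputable def f_pp_011_s : ℕ → ℕ → ℕ → ℕ → Bool := onCell 0 536870912 536870912 536870912 536870912 50465866
    (rowNE 3 eng mog cd0q0 cd6q1 pd1 0 true true true .pnn 0 1 1 (qsf 0 536870912 536870912 536870912 1) ndB0q0 ndB6q1 pcB1 cut_pp_011_s Ext.none)

def k0_pp_011_s : ∃ t, chk3 f_pp_011_s t 1 1 1 = true :=
  ⟨(l 4), by decide +kernel⟩

theorem c_pp_011_s : CertNE 0 536870912 536870912 536870912 536870912 50465866 3 eng mog cd0q0 cd6q1 pd1 true true true .pnn 0 1 1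
    ndB0q0 ndB6q1 pcB1 cut_pp_011_s Ext.none :=
  certNE0 (fam := true) (s1 := true) (s2 := true) (a := 0) (b := 1) (c := 1) (cn := .pnn) (n1 := ndB0q0) (n2 := ndB6q1) (pc := pcB1) (cut := cut_pp_011_s) (xt := Ext.none) (P1 := 0) (W1 := 536870912) (P2 := 536870912) (W2 := 536870912) (P3 := 536870912) (W3 := 50465866) (N0 := 3) (En := eng) (mo := mog) (C1 := cd0q0) (C2 := cd6q1) (C3 := pd1)
    rfl k0_pp_011_s

noncomputable def cut_pp_012_s : Cut := Cut.of [[⟨4, 0, 0, 1449551462⟩]]

noncomputable def f_pp_012_s : ℕ → ℕ → ℕ → ℕ → Bool := onCell 0 536870912 536870912 536870912 536870912 50465866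
    (rowNE 3 eng mog cd0q0 cd6q1 pd2 0 true true true .pnp 0 1 2 (qsf 0 536870912 536870912 536870912 2) ndB0q0 ndB6q1 pcB2 cut_pp_012_s Ext.none)

def k0_pp_012_s : ∃ t, chk3 f_pp_012_s t 1 1 1 = true :=
  ⟨(l 4), by decide +kernel⟩

theorem c_pp_012_s : CertNE 0 536870912 536870912 536870912 536870912 50465866 3 eng mog cd0q0 cd6q1 pd2 true true true .pnp 0 1 2
    ndB0q0 ndB6q1 pcB2 cut_pp_012_s Ext.none :=
  certNE0 (fam := true) (s1 := true) (s2 := true) (a := 0) (b := 1) (c := 2) (cn := .pnp) (n1 := ndB0q0) (n2 := ndB6q1) (pc := pcB2) (cut := cut_pp_012_s) (xt := Ext.none) (P1 := 0) (W1 := 536870912) (P2 := 536870912) (W2 := 536870912) (P3 := 536870912) (W3 := 50465866) (N0 := 3) (En := eng) (mo := mog) (C1 := cd0q0) (C2 := cd6q1) (C3 := pd2)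
    rfl k0_pp_012_s

noncomputable def cut_pp_022_s : Cut := Cut.of [[⟨4, 0, 0, 1449551462⟩]]

noncomputable def f_pp_022_s : ℕ → ℕ → ℕ → ℕ → Bool := onCell 0 536870912 1073741824 536870912 536870912 50465866
    (rowNE 3 eng mog cd0q0 cd6q2 pd2 0 true true true .pp 0 2 2 (qsf 0 536870912 1073741824 536870912 2) ndB0q0 ndB6q2 pcB2 cut_pp_022_s Ext.none)

def k0_pp_022_s : ∃ t, chk3 f_pp_022_s t 1 1 1 = true :=
  ⟨(l 4), by decide +kernel⟩

theorem c_pp_022_s : CertNE 0 536870912 1073741824 536870912 536870912 50465866 3 eng mog cd0q0 cd6q2 pd2 true true true .pp 0 2 2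
    ndB0q0 ndB6q2 pcB2 cut_pp_022_s Ext.none :=
  certNE0 (fam := true) (s1 := true) (s2 := true) (a := 0) (b := 2) (c := 2) (cn := .pp) (n1 := ndB0q0) (n2 := ndB6q2) (pc := pcB2) (cut := cut_pp_022_s) (xt := Ext.none) (P1 := 0) (W1 := 536870912) (P2 := 1073741824) (W2 := 536870912) (P3 := 536870912) (W3 := 50465866) (N0 := 3) (En := eng) (mo := mog) (C1 := cd0q0) (C2 := cd6q2) (C3 := pd2)
    rfl k0_pp_022_s

noncomputable def cut_pp_023_s : Cut := Cut.of [[⟨4, 0, 0, 1449551462⟩]]

noncomputable def f_pp_023_s : ℕ → ℕ → ℕ → ℕ → Bool := onCell 0 536870912 1073741824 536870912 536870912 50465866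
    (rowNE 3 eng mog cd0q0 cd6q2 pd3 0 true true true .up 0 2 3 (qsf 0 536870912 1073741824 536870912 3) ndB0q0 ndB6q2 pcB3 cut_pp_023_s Ext.none)

def k0_pp_023_s : ∃ t, chk3 f_pp_023_s t 1 1 1 = true :=
  ⟨(l 4), by decide +kernel⟩

theorem c_pp_023_s : CertNE 0 536870912 1073741824 536870912 536870912 50465866 3 eng mog cd0q0 cd6q2 pd3 true true true .up 0 2 3
    ndB0q0 ndB6q2 pcB3 cut_pp_023_s Ext.none :=
  certNE0 (fam := true) (s1 := true) (s2 := true) (a := 0) (b := 2) (c := 3) (cn := .up) (n1 := ndB0q0) (n2 := ndB6q2) (pc := pcB3) (cut := cut_pp_023_s) (xt := Ext.none) (P1 := 0) (W1 := 536870912) (P2 := 1073741824) (W2 := 536870912) (P3 := 536870912) (W3 := 50465866) (N0 := 3) (En := eng) (mo := mog) (C1 := cd0q0) (C2 := cd6q2) (C3 := pd3)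
    rfl k0_pp_023_s

noncomputable def cut_pp_033_s : Cut := Cut.of [[⟨4, 0, 0, 1449551462⟩]]

noncomputable def f_pp_033_s : ℕ → ℕ → ℕ → ℕ → Bool := onCell 0 536870912 0 1230186008 536870912 50465866
    (rowNE 3 eng mog cd0q0 cd6q3 pd3 0 true true true .pnn 0 3 3 (qsf 0 536870912 0 1230186008 3) ndB0q0 ndB6q3 pcB3 cut_pp_033_s Ext.none)

def k0_pp_033_s : ∃ t, chk3 f_pp_033_s t 1 1 1 = true :=
  ⟨(l 4), by decide +kernel⟩

theorem c_pp_033_s : CertNE 0 536870912 0 1230186008 536870912 50465866 3 eng mog cd0q0 cd6q3 pd3 true true true .pnn 0 3 3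
    ndB0q0 ndB6q3 pcB3 cut_pp_033_s Ext.none :=
  certNE0 (fam := true) (s1 := true) (s2 := true) (a := 0) (b := 3) (c := 3) (cn := .pnn) (n1 := ndB0q0) (n2 := ndB6q3) (pc := pcB3) (cut := cut_pp_033_s) (xt := Ext.none) (P1 := 0) (W1 := 536870912) (P2 := 0) (W2 := 1230186008) (P3 := 536870912) (W3 := 50465866) (N0 := 3) (En := eng) (mo := mog) (C1 := cd0q0) (C2 := cd6q3) (C3 := pd3)
    rfl k0_pp_033_s

noncomputable def cut_pp_101_s : Cut := Cut.of [[⟨4, 0, 0, 1449551462⟩]]

noncomputable def f_pp_101_s : ℕ → ℕ → ℕ → ℕ → Bool := onCell 536870912 536870912 0 536870912 536870912 50465866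
    (rowNE 3 eng mog cd0q1 cd6q0 pd1 0 true true true .npn 1 0 1 (qsf 536870912 536870912 0 536870912 1) ndB0q1 ndB6q0 pcB1 cut_pp_101_s Ext.none)

def k0_pp_101_s : ∃ t, chk3 f_pp_101_s t 1 1 1 = true :=
  ⟨(l 4), by decide +kernel⟩

theorem c_pp_101_s : CertNE 536870912 536870912 0 536870912 536870912 50465866 3 eng mog cd0q1 cd6q0 pd1 true true true .npn 1 0 1
    ndB0q1 ndB6q0 pcB1 cut_pp_101_s Ext.none :=
  certNE0 (fam := true) (s1 := true) (s2 := true) (a := 1) (b := 0) (c := 1) (cn := .npn) (n1 := ndB0q1) (n2 := ndB6q0) (pc := pcB1) (cut := cut_pp_101_s) (xt := Ext.none) (P1 := 536870912) (W1 := 536870912) (P2 := 0) (W2 := 536870912) (P3 := 536870912) (W3 := 50465866) (N0 := 3) (En := eng) (mo := mog) (C1 := cd0q1) (C2 := cd6q0) (C3 := pd1)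
    rfl k0_pp_101_s

noncomputable def cut_pp_102_s : Cut := Cut.of [[⟨4, 0, 0, 1449551462⟩]]

noncomputable def f_pp_102_s : ℕ → ℕ → ℕ → ℕ → Bool := onCell 536870912 536870912 0 536870912 536870912 50465866
    (rowNE 3 eng mog cd0q1 cd6q0 pd2 0 true true true .npp 1 0 2 (qsf 536870912 536870912 0 536870912 2) ndB0q1 ndB6q0 pcB2 cut_pp_102_s Ext.none)

def k0_pp_102_s : ∃ t, chk3 f_pp_102_s t 1 1 1 = true :=
  ⟨(l 4), by decide +kernel⟩

theorem c_pp_102_s : CertNE 536870912 536870912 0 536870912 536870912 50465866 3 eng mog cd0q1 cd6q0 pd2 true true true .npp 1 0 2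
    ndB0q1 ndB6q0 pcB2 cut_pp_102_s Ext.none :=
  certNE0 (fam := true) (s1 := true) (s2 := true) (a := 1) (b := 0) (c := 2) (cn := .npp) (n1 := ndB0q1) (n2 := ndB6q0) (pc := pcB2) (cut := cut_pp_102_s) (xt := Ext.none) (P1 := 536870912) (W1 := 536870912) (P2 := 0) (W2 := 536870912) (P3 := 536870912) (W3 := 50465866) (N0 := 3) (En := eng) (mo := mog) (C1 := cd0q1) (C2 := cd6q0) (C3 := pd2)
    rfl k0_pp_102_s

noncomputable def cut_pp_112_s : Cut := Cut.of [[⟨4, 0, 0, 1449551462⟩]]

noncomputable def f_pp_112_s : ℕ → ℕ → ℕ → ℕ → Bool := onCell 536870912 536870912 536870912 536870912 536870912 50465866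
    (rowNE 3 eng mog cd0q1 cd6q1 pd2 0 true true true .dn 1 1 2 (qsf 536870912 536870912 536870912 536870912 2) ndB0q1 ndB6q1 pcB2 cut_pp_112_s Ext.none)

def k0_pp_112_s : ∃ t, chk3 f_pp_112_s t 1 1 1 = true :=
  ⟨(l 4), by decide +kernel⟩

theorem c_pp_112_s : CertNE 536870912 536870912 536870912 536870912 536870912 50465866 3 eng mog cd0q1 cd6q1 pd2 true true true .dn 1 1 2
    ndB0q1 ndB6q1 pcB2 cut_pp_112_s Ext.none :=
  certNE0 (fam := true) (s1 := true) (s2 := true) (a := 1) (b := 1) (c := 2) (cn := .dn) (n1 := ndB0q1) (n2 := ndB6q1) (pc := pcB2) (cut := cut_pp_112_s) (xt := Ext.none) (P1 := 536870912) (W1 := 536870912) (P2 := 536870912) (W2 := 536870912) (P3 := 536870912) (W3 := 50465866) (N0 := 3) (En := eng) (mo := mog) (C1 := cd0q1) (C2 := cd6q1) (C3 := pd2)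
    rfl k0_pp_112_s

noncomputable def cut_pp_113_s : Cut := Cut.of [[⟨4, 0, 0, 1449551462⟩]]

noncomputable def f_pp_113_s : ℕ → ℕ → ℕ → ℕ → Bool := onCell 536870912 536870912 536870912 536870912 536870912 50465866
    (rowNE 3 eng mog cd0q1 cd6q1 pd3 0 true true true .nn 1 1 3 (qsf 536870912 536870912 536870912 536870912 3) ndB0q1 ndB6q1 pcB3 cut_pp_113_s Ext.none)

def k0_pp_113_s : ∃ t, chk3 f_pp_113_s t 1 1 1 = true :=
  ⟨(l 4), by decide +kernel⟩

theorem c_pp_113_s : CertNE 536870912 536870912 536870912 536870912 536870912 50465866 3 eng mog cd0q1 cd6q1 pd3 true true true .nn 1 1 3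
    ndB0q1 ndB6q1 pcB3 cut_pp_113_s Ext.none :=
  certNE0 (fam := true) (s1 := true) (s2 := true) (a := 1) (b := 1) (c := 3) (cn := .nn) (n1 := ndB0q1) (n2 := ndB6q1) (pc := pcB3) (cut := cut_pp_113_s) (xt := Ext.none) (P1 := 536870912) (W1 := 536870912) (P2 := 536870912) (W2 := 536870912) (P3 := 536870912) (W3 := 50465866) (N0 := 3) (En := eng) (mo := mog) (C1 := cd0q1) (C2 := cd6q1) (C3 := pd3)
    rfl k0_pp_113_s

noncomputable def cut_pp_123_s : Cut := Cut.of [[⟨4, 0, 0, 1449551462⟩]]

noncomputable def f_pp_123_s : ℕ → ℕ → ℕ → ℕ → Bool := onCell 536870912 536870912 1073741824 536870912 536870912 50465866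
    (rowNE 3 eng mog cd0q1 cd6q2 pd3 0 true true true .npn 1 2 3 (qsf 536870912 536870912 1073741824 536870912 3) ndB0q1 ndB6q2 pcB3 cut_pp_123_s Ext.none)

def k0_pp_123_s : ∃ t, chk3 f_pp_123_s t 1 1 1 = true :=
  ⟨(l 4), by decide +kernel⟩

theorem c_pp_123_s : CertNE 536870912 536870912 1073741824 536870912 536870912 50465866 3 eng mog cd0q1 cd6q2 pd3 true true true .npn 1 2 3
    ndB0q1 ndB6q2 pcB3 cut_pp_123_s Ext.none :=
  certNE0 (fam := true) (s1 := true) (s2 := true) (a := 1) (b := 2) (c := 3) (cn := .npn) (n1 := ndB0q1) (n2 := ndB6q2) (pc := pcB3) (cut := cut_pp_123_s) (xt := Ext.none) (P1 := 536870912) (W1 := 536870912) (P2 := 1073741824) (W2 := 536870912) (P3 := 536870912) (W3 := 50465866) (N0 := 3) (En := eng) (mo := mog) (C1 := cd0q1) (C2 := cd6q2) (C3 := pd3)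
    rfl k0_pp_123_s

noncomputable def cut_pp_133_s : Cut := Cut.of [[⟨4, 0, 0, 1449551462⟩]]

noncomputable def f_pp_133_s : ℕ → ℕ → ℕ → ℕ → Bool := onCell 536870912 536870912 0 1230186008 536870912 50465866
    (rowNE 3 eng mog cd0q1 cd6q3 pd3 0 true true true .dn 1 3 3 (qsf 536870912 536870912 0 1230186008 3) ndB0q1 ndB6q3 pcB3 cut_pp_133_s Ext.none)

def k0_pp_133_s : ∃ t, chk3 f_pp_133_s t 1 1 1 = true :=
  ⟨(l 4), by decide +kernel⟩

theorem c_pp_133_s : CertNE 536870912 536870912 0 1230186008 536870912 50465866 3 eng mog cd0q1 cd6q3 pd3 true true true .dn 1 3 3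
    ndB0q1 ndB6q3 pcB3 cut_pp_133_s Ext.none :=
  certNE0 (fam := true) (s1 := true) (s2 := true) (a := 1) (b := 3) (c := 3) (cn := .dn) (n1 := ndB0q1) (n2 := ndB6q3) (pc := pcB3) (cut := cut_pp_133_s) (xt := Ext.none) (P1 := 536870912) (W1 := 536870912) (P2 := 0) (W2 := 1230186008) (P3 := 536870912) (W3 := 50465866) (N0 := 3) (En := eng) (mo := mog) (C1 := cd0q1) (C2 := cd6q3) (C3 := pd3)
    rfl k0_pp_133_s

noncomputable def cut_pp_202_s : Cut := Cut.of [[⟨4, 0, 0, 1449551462⟩]]

noncomputable def f_pp_202_s : ℕ → ℕ → ℕ → ℕ → Bool := onCell 0 536870912 0 536870912 536870912 50465866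
    (rowNE 3 eng mog cd0q2 cd6q0 pd2 0 true true true .pp 2 0 2 (qsf 0 536870912 0 536870912 2) ndB0q2 ndB6q0 pcB2 cut_pp_202_s Ext.none)

def k0_pp_202_s : ∃ t, chk3 f_pp_202_s t 1 1 1 = true :=
  ⟨(l 4), by decide +kernel⟩

theorem c_pp_202_s : CertNE 0 536870912 0 536870912 536870912 50465866 3 eng mog cd0q2 cd6q0 pd2 true true true .pp 2 0 2
    ndB0q2 ndB6q0 pcB2 cut_pp_202_s Ext.none :=
  certNE0 (fam := true) (s1 := true) (s2 := true) (a := 2) (b := 0) (c := 2) (cn := .pp) (n1 := ndB0q2) (n2 := ndB6q0) (pc := pcB2) (cut := cut_pp_202_s) (xt := Ext.none) (P1 := 0) (W1 := 536870912) (P2 := 0) (W2 := 536870912) (P3 := 536870912) (W3 := 50465866) (N0 := 3) (En := eng) (mo := mog) (C1 := cd0q2) (C2 := cd6q0) (C3 := pd2)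
    rfl k0_pp_202_s

noncomputable def cut_pp_203_s : Cut := Cut.of [[⟨4, 0, 0, 1449551462⟩]]

noncomputable def f_pp_203_s : ℕ → ℕ → ℕ → ℕ → Bool := onCell 0 536870912 0 536870912 536870912 50465866
    (rowNE 3 eng mog cd0q2 cd6q0 pd3 0 true true true .up 2 0 3 (qsf 0 536870912 0 536870912 3) ndB0q2 ndB6q0 pcB3 cut_pp_203_s Ext.none)

def k0_pp_203_s : ∃ t, chk3 f_pp_203_s t 1 1 1 = true :=
  ⟨(l 4), by decide +kernel⟩

theorem c_pp_203_s : CertNE 0 536870912 0 536870912 536870912 50465866 3 eng mog cd0q2 cd6q0 pd3 true true true .up 2 0 3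
    ndB0q2 ndB6q0 pcB3 cut_pp_203_s Ext.none :=
  certNE0 (fam := true) (s1 := true) (s2 := true) (a := 2) (b := 0) (c := 3) (cn := .up) (n1 := ndB0q2) (n2 := ndB6q0) (pc := pcB3) (cut := cut_pp_203_s) (xt := Ext.none) (P1 := 0) (W1 := 536870912) (P2 := 0) (W2 := 536870912) (P3 := 536870912) (W3 := 50465866) (N0 := 3) (En := eng) (mo := mog) (C1 := cd0q2) (C2 := cd6q0) (C3 := pd3)
    rfl k0_pp_203_s

noncomputable def cut_pp_213_s : Cut := Cut.of [[⟨4, 0, 0, 1449551462⟩]]

noncomputable def f_pp_213_s : ℕ → ℕ → ℕ → ℕ → Bool := onCell 0 536870912 536870912 536870912 536870912 50465866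
    (rowNE 3 eng mog cd0q2 cd6q1 pd3 0 true true true .pnn 2 1 3 (qsf 0 536870912 536870912 536870912 3) ndB0q2 ndB6q1 pcB3 cut_pp_213_s Ext.none)

def k0_pp_213_s : ∃ t, chk3 f_pp_213_s t 1 1 1 = true :=
  ⟨(l 4), by decide +kernel⟩

theorem c_pp_213_s : CertNE 0 536870912 536870912 536870912 536870912 50465866 3 eng mog cd0q2 cd6q1 pd3 true true true .pnn 2 1 3
    ndB0q2 ndB6q1 pcB3 cut_pp_213_s Ext.none :=
  certNE0 (fam := true) (s1 := true) (s2 := true) (a := 2) (b := 1) (c := 3) (cn := .pnn) (n1 := ndB0q2) (n2 := ndB6q1) (pc := pcB3) (cut := cut_pp_213_s) (xt := Ext.none) (P1 := 0) (W1 := 536870912) (P2 := 536870912) (W2 := 536870912) (P3 := 536870912) (W3 := 50465866) (N0 := 3) (En := eng) (mo := mog) (C1 := cd0q2) (C2 := cd6q1) (C3 := pd3)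
    rfl k0_pp_213_s

noncomputable def cut_pm_001_s : Cut := Cut.of [[⟨4, 0, 0, 1449551462⟩]]

noncomputable def f_pm_001_s : ℕ → ℕ → ℕ → ℕ → Bool := onCell 0 536870912 536870912 536870912 536870912 50465866
    (rowNE 3 eng mog cd0q0 cd6q0 pd1 1 true true false .up 0 0 1 (qsf 0 536870912 0 536870912 1) ndB0q0 ndB6q0 pcB1 cut_pm_001_s Ext.none)

def k0_pm_001_s : ∃ t, chk3 f_pm_001_s t 2 1 1 = true :=
  ⟨(b (l 3) (b (b (l 3) (l 2)) (l 2))), by decide +kernel⟩

def k1_pm_001_s : ∃ t, chk3 f_pm_001_s t 3 4 1 = true :=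
  ⟨(l 3), by decide +kernel⟩

def k2_pm_001_s : ∃ t, chk3 f_pm_001_s t 6 5 1 = true :=
  ⟨(l 3), by decide +kernel⟩

def k3_pm_001_s : ∃ t, chk3 f_pm_001_s t 14 10 1 = true :=
  ⟨(l 3), by decide +kernel⟩

def k4_pm_001_s : ∃ t, chk3 f_pm_001_s t 15 20 1 = true :=
  ⟨(a (l 3) (b (l 3) (a (l 3) (b (l 3) (a (l 3) (b (a (l 3) (a (l 3) (b (l 3) (b (l 3) (a (l 611663740775) (a (b (l 619716804535) (b (a (l 565492842471) (l 207936816391)) (l 84456506551))) (b (c (b (l 410337148935) (l 117205632407)) (l 249275878103)) (l 16777064)))))))) (a (b (l 3) (a (l 3) (a (a (l 3) (b (l 3) (b (l 3) (a (l 457581789159) (l 206863075223))))) (b (a (l 3) (b (l 3) (b (l 557439778775) (l 271824455927)))) (a (b (b (l 515563847655) (l 235317233735)) (l 16777088)) (c (l 16777088) (l 16776960))))))) (b (b (a (c (a (l 3) (l 585357066247)) (l 599315709527)) (a (b (a (l 550460456903) (a (b (l 321216579479) (l 16777184)) (l 63518540887))) (b (a (a (l 310479161335) (l 16777176)) (l 16777072)) (l 16777064)))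 (a (b (l 16777048) (l 16776896)) (l 16776832)))) (b (a (a (l 3) (a (c (l 493552140295) (l 497847107495)) (a (a (l 249275877127) (l 114521277655)) (l 16777128)))) (c (a (l 16775728) (l 16776848)) (l 16775368))) (a (c (a (a (l 3) (l 462950498311)) (c (a (l 86603990647) (l 16777112)) (l 16777096))) (a (l 521469427559) (l 16777032))) (l 16776648)))) (a (a (a (b (b (b (l 598778838999) (l 308868549095)) (l 37211866295)) (l 16776880)) (c (b (c (l 16777792) (l 16777080)) (l 16776888)) (l 16776792))) (a (b (b (l 16776992) (l 16776832)) (l 16776592)) (l 16776608))) (l 16776248)))))))))), by decide +kernel⟩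

def k5_pm_001_s : ∃ t, chk3 f_pm_001_s t 30 21 1 = true :=
  ⟨(b (l 3) (a (l 3) (b (a (l 3) (b (l 3) (a (l 3) (b (l 3) (a (l 3) (l 609516255943)))))) (a (b (l 3) (a (l 3) (b (l 3) (b (l 613274353767) (a (l 3) (a (l 543481135143) (a (l 246591525191) (l 16777016)))))))) (b (a (b (l 3) (a (l 3) (a (l 3) (a (l 583209582615) (b (l 3) (l 266992620343)))))) (b (b (a (l 3) (a (l 530059362311) (a (l 232632881303) (l 16777008)))) (a (c (l 539186168023) (l 543481134919)) (c (a (l 97878281911) (l 16776792)) (l 16776760)))) (b (a (a (a (l 602000064519) (l 313163519271)) (l 66739768423)) (c (l 16776592) (l 16776192))) (a (l 16778376) (l 16775920))))) (a (b (b (a (l 3) (a (a (l 482814722071) (l 218137366647)) (l 16776880))) (a (a (l 639044157479) (a (l 314774132343) (l 167134629239))) (l 16776608))) (a (a (a (b (l 295446778935) (l 16776800)) (l 24326966199)) (l 16776512)) (l 16775880))) (a (a (b (l 16776224) (l 16775256)) (l 16775328)) (l 16774720)))))))), by decide +kernel⟩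

def k6_pm_001_s : ∃ t, chk3 f_pm_001_s t 62 42 1 = true :=
  ⟨(b (l 3) (a (l 3) (b (a (l 3) (b (b (l 3) (a (l 3) (a (l 3) (a (l 3) (b (l 3) (l 255718329383)))))) (b (a (l 3) (a (a (l 592336388039) (b (l 604684419031) (l 191830690263))) (a (b (l 224042945303) (l 16777016)) (l 16776944)))) (a (a (l 3) (a (l 535964942295) (b (l 523616911335) (l 16777144)))) (c (a (l 16778400) (l 16776808)) (l 16776704)))))) (b (b (a (l 3) (a (a (a (l 488720302055) (b (l 313700388855) (l 16777104))) (l 16778256)) (l 16776424))) (a (a (l 3) (a (l 3) (a (b (l 3) (l 278803778775)) (b (l 308331679255) (l 16777064))))) (a (a (l 16776896) (l 16776552)) (l 16776032)))) (b (a (a (l 615958708135) (a (c (b (l 410337148967) (l 97878280935)) (l 233169753591)) (l 16776856))) (a (l 16776328) (l 16775640))) (a (a (a (l 579451486167) (a (a (l 413558374391) (l 233169751719)) (l 74792831511))) (a (l 16776808) (l 16776448))) (l 16775576))))))), by decide +kernel⟩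

def k7_pm_001_s : ∃ t, chk3 f_pm_001_s t 63 84 1 = true :=
  ⟨(a (b (a (l 3) (b (l 3) (a (l 3) (a (b (l 3) (b (c (l 499994591255) (l 503752687495)) (a (a (l 539723038695) (l 277193165207)) (l 16777112)))) (a (c (b (l 525227524119) (l 16777096)) (b (l 529522491239) (l 16776992))) (b (b (l 499457720279) (l 93583312599)) (l 16775416))))))) (b (a (c (l 634749188999) (l 640654769335)) (b (a (a (l 3) (a (a (l 524153782215) (b (l 3) (l 199883753351))) (b (l 311552904551) (l 16777080)))) (c (a (l 16777016) (l 16776800)) (l 16776648))) (a (a (a (b (l 630991093703) (l 220284848839)) (b (a (l 308868549495) (l 16777832)) (l 16777048))) (c (l 16776992) (l 16776800))) (l 16776424)))) (b (a (a (l 3) (a (l 574082776999) (b (a (l 553681682391) (l 189683206583)) (c (l 64055412967) (l 16777048))))) (a (c (a (l 16776968) (l 16776744)) (l 16776544)) (l 16776072))) (a (b (a (l 3) (a (a (l 486035947495) (l 107005085655)) (l 16776904))) (a (c (l 561197875271) (l 564955971319)) (a (l 16778032) (l 16776728))))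 (l 16776024))))) (b (a (b (b (a (b (l 627769868119) (a (l 3) (a (l 604147548103) (a (l 309942291079) (l 111836923239))))) (a (b (a (a (l 310479162231) (l 169818982103)) (l 16777072)) (l 16776328)) (l 16776768))) (b (a (a (l 584283324327) (a (a (l 282025003415) (l 16777152)) (l 16777040))) (l 16776672)) (a (a (a (l 531133104087) (a (l 246591523063) (l 16777136))) (l 16775968)) (l 16776504)))) (a (b (a (b (a (a (l 206863075223) (l 16777120)) (l 16777008)) (l 16775608)) (l 16776696)) (l 16776512)) (l 16776080))) (b (l 16775880) (l 16775216))) (a (c (l 16775912) (l 16774768)) (l 16774176)))), by decide +kernel⟩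

def k8_pm_001_s : ∃ t, chk3 f_pm_001_s t 63 85 1 = true :=
  ⟨(a (b (a (b (b (b (a (a (l 3) (a (l 312626646775) (l 16777112))) (a (l 16776872) (l 16776544))) (a (a (a (l 3) (l 310479162887)) (l 16777016)) (l 16776520))) (a (a (a (b (l 287393713431) (l 16777056)) (l 16776984)) (c (l 16775560) (l 16776600))) (l 16776240))) (a (a (b (l 16776688) (l 16776312)) (l 16776168)) (l 16775680))) (l 16775096)) (a (l 16774832) (l 16773560))) (c (l 16773944) (l 16771144))), by decide +kernel⟩

def k9_pm_001_s : ∃ t, chk3 f_pm_001_s t 31 43 1 = true :=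
  ⟨(a (b (a (b (a (l 3) (b (a (l 3) (c (b (l 572472164503) (a (l 499994591319) (a (l 185925111575) (l 16777048)))) (b (l 575693389543) (a (l 502678945655) (l 16779000))))) (b (a (a (l 3) (b (l 3) (l 312089777431))) (a (b (l 129016794311) (l 16776920)) (l 16776656))) (a (a (a (l 557439778791) (l 283098747943)) (a (l 16778544) (l 16776880))) (c (l 16774000) (l 16776208)))))) (a (b (a (l 3) (a (b (l 3) (a (l 452749950967) (l 190756949751))) (b (b (l 527911878647) (l 224579817607)) (l 16776872)))) (b (a (a (l 621327417335) (a (l 309942294119) (l 119353117863))) (c (l 16776776) (l 16776480))) (a (a (a (l 278803780567) (l 16778376)) (l 16776768)) (l 16776176)))) (b (a (c (b (l 16776856) (l 16776536)) (l 16776336)) (l 16775760)) (l 16775248)))) (b (a (a (b (b (a (a (a (l 291688681639) (l 180556401767)) (l 16777032)) (l 16776760)) (a (l 16776704) (l 16776336))) (l 16775888)) (b (l 16776008) (l 16775160))) (l 16774536)) (c (l 16774488) (l 16772536)))) (a (b (a (b (a (c (b (l 16776688)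 (l 16776344)) (l 16776056)) (l 16775496)) (l 16774960)) (l 16773880)) (l 16777984)) (c (l 16772432) (l 16769120)))) (b (a (c (l 16773248) (l 16770192)) (l 16769304)) (a (l 16768120) (l 16765760)))), by decide +kernel⟩

def k10_pm_001_s : ∃ t, chk3 f_pm_001_s t 14 22 1 = true :=
  ⟨(a (l 3) (b (l 3) (a (l 3) (b (a (l 3) (b (a (l 3) (b (l 3) (a (l 3) (l 563345359223)))) (a (a (l 3) (a (l 610053128855) (b (l 3) (b (l 3) (l 226190431159))))) (b (b (a (l 3) (a (l 451676209271) (l 16776944))) (a (c (l 471003562343) (l 477446012967)) (l 16776584))) (a (a (b (l 270213846663) (l 16776656)) (l 16776432)) (l 16775616)))))) (a (b (a (l 3) (b (l 3) (a (l 3) (b (l 491941527815) (a (l 294909909159) (l 16776792)))))) (b (a (l 597705098167) (a (a (b (l 619716804935) (l 205789336087)) (b (l 250349622583) (l 16776576))) (l 16776048))) (b (a (a (l 3) (a (l 509121396967) (l 130090536775))) (l 16775576)) (a (a (l 504826429783) (l 16779256)) (l 16774864))))) (b (a (b (b (a (l 565492842839) (c (l 81772155159)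 (l 16776752))) (a (a (l 486572818599) (l 16778312)) (l 16776168))) (a (l 16778896) (l 16775152))) (b (a (l 16775392) (l 16774312)) (l 16773512))) (a (c (l 16774304) (l 16772992)) (l 16771456)))))))), by decide +kernel⟩

def k11_pm_001_s : ∃ t, chk3 f_pm_001_s t 28 23 1 = true :=
  ⟨(b (a (l 3) (b (l 3) (a (l 3) (b (l 3) (a (l 3) (b (l 3) (a (l 3) (b (l 499457720839) (a (l 392083538087) (l 16776744)))))))))) (a (b (l 3) (a (l 3) (b (a (l 3) (b (l 3) (a (l 3) (c (l 525227525607) (l 538112426807))))) (a (a (l 3) (b (l 3) (a (l 516100719543) (b (l 541870523047) (l 140827954231))))) (b (b (a (l 3) (a (l 409263407383) (l 16778072))) (a (a (l 3) (l 262697652183)) (l 16776184))) (a (a (b (l 213305528055) (l 16776184)) (l 16775888)) (l 16774704))))))) (b (a (b (l 3) (a (l 3) (b (a (l 3) (a (l 588041421751) (b (l 3) (l 229948526119)))) (a (b (l 538112426759) (a (l 452213080407) (l 108615699015))) (a (b (l 154249727351) (l 16776152)) (l 16775872)))))) (b (b (a (l 588041422423) (a (a (b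 (l 3) (l 204178722823)) (b (l 251960234695) (l 16776440))) (l 16775816))) (a (a (c (b (l 3) (l 477446013655)) (l 520932557367)) (b (a (l 486035947895) (l 129016794183)) (l 16778432))) (c (l 16775152) (l 16774416)))) (a (b (a (a (b (l 278266909703) (l 16776496)) (l 16776216)) (l 16775144)) (l 16774056)) (l 16772128)))) (a (b (a (a (b (l 3) (c (b (a (l 528448750311) (l 200957496855)) (l 76940315543)) (l 200957500487))) (b (a (b (l 3) (l 249812750071)) (b (l 391546667223) (l 16776544))) (l 16775512))) (b (c (l 16778056) (l 16774840)) (l 16773264))) (a (b (l 16775656) (l 16772392)) (l 16770376))) (b (l 16780352) (l 16766056)))))), by decide +kernel⟩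

def k12_pm_001_s : ∃ t, chk3 f_pm_001_s t 29 23 1 = true :=
  ⟨(b (a (b (a (b (l 3) (a (l 3) (b (l 3) (l 604147549463)))) (b (a (l 3) (b (a (l 3) (a (l 3) (b (l 3) (l 264308266487)))) (b (a (l 595020743191) (a (l 218674238199) (l 16776576))) (a (a (l 526301266215) (l 138143600343)) (l 16776136))))) (a (b (a (l 3) (b (l 515563848103) (a (l 410337149079) (l 16776816)))) (a (a (b (l 3) (l 221358592455)) (b (l 268066362567) (l 16776560))) (l 16775984))) (b (a (c (l 16779040) (l 16776080)) (l 16775008)) (l 16774096))))) (a (b (a (a (l 3) (a (l 3) (b (l 3) (b (l 3) (l 265382007847))))) (b (b (a (l 3) (a (l 523616911703) (l 142438567463))) (a (l 511268880855) (l 48486157287))) (b (a (a (l 406042181799) (l 16776792)) (l 16775808)) (l 16775664)))) (a (b (a (a (l 545091748503) (b (l 570861552071) (l 141901696343))) (a (b (l 219211108439) (l 16776368)) (l 16776104))) (a (c (l 16778600) (l 16775968)) (l 16774784))) (b (a (l 16775104) (l 16773784)) (l 16772784)))) (b (a (b (a (l 16775704)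 (l 16774424)) (l 16773472)) (l 16771752)) (l 16780240)))) (b (a (b (a (a (b (a (b (l 309405423815) (l 16776696)) (l 16776448)) (l 16775280)) (b (l 16775552) (l 16774080))) (l 16773056)) (l 16776472)) (c (l 16769848) (l 16766592))) (a (l 16777032) (l 16762104)))) (a (b (a (b (a (l 16778144) (l 16770248)) (l 16768056)) (l 16785648)) (a (l 16762544) (l 16757464))) (b (l 16778608) (l 16750512)))), by decide +kernel⟩

def k13_pm_001_s : ∃ t, chk3 f_pm_001_s t 30 44 1 = true :=
  ⟨(a (b (a (l 3) (b (l 3) (a (l 3) (b (l 613811224855) (b (a (l 3) (a (l 534891200599) (l 167671501063))) (a (l 533280587895) (c (l 16778856) (l 16776704)))))))) (a (b (l 3) (a (l 3) (b (a (l 3) (b (l 569250939079) (a (l 504289558631) (l 115595022167)))) (b (a (l 509658267815) (l 16778024)) (a (a (l 404431568967) (l 16776880)) (l 16776120)))))) (b (b (b (a (l 3) (a (a (l 440401920055) (l 16776952)) (l 16776248))) (a (a (l 3) (c (l 468856077927) (l 474224787415))) (a (l 16776640) (l 16775696)))) (b (a (a (l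 3) (a (l 269676976071) (l 16776800))) (a (l 16776080) (l 16775136))) (a (a (a (l 603610677399) (l 227801044151)) (l 16776480)) (l 16775040)))) (a (b (a (a (b (l 189683208839) (l 16776552)) (l 16776344)) (l 16775608)) (l 16774928)) (l 16778832))))) (b (a (b (a (b (l 3) (a (l 3) (a (b (l 3) (l 287930587479)) (b (l 408726536215) (l 16776856))))) (b (b (a (l 540796780615) (a (l 110226313063) (l 16776624))) (a (a (l 453823692839) (l 16778304)) (l 16776336))) (a (c (l 16776624) (l 16776272)) (l 16775568)))) (b (a (a (a (b (l 634749190231) (l 208473691079)) (b (l 249275881047) (l 16776720))) (c (l 16776504) (l 16776096))) (l 16774960)) (a (a (c (l 16776376) (l 16775904)) (l 16775232)) (l 16773896)))) (b (a (b (c (l 16775752) (l 16774864)) (l 16774280)) (l 16773136)) (l 16771864))) (a (b (a (l 16774024) (l 16772240)) (l 16770840)) (b (l 16769688) (l 16767416))))), by decide +kernel⟩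

def k14_pm_001_s : ∃ t, chk3 f_pm_001_s t 30 45 1 = true :=
  ⟨(a (b (a (b (a (b (a (l 616495579543) (a (b (l 3) (l 233706624183)) (b (l 276656297943) (l 16776704)))) (a (b (a (l 554755424439) (l 190756950503)) (l 59223576519)) (l 16776040))) (b (a (l 16776232) (l 16775216)) (l 16774496))) (a (b (a (l 16775832) (l 16774784)) (l 16774024)) (l 16772616))) (c (l 16777456) (l 16780128))) (a (c (l 16771136) (l 16768240)) (l 16765784))) (b (a (l 16767264) (l 16763896)) (l 16781464))), by decide +kernel⟩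

def k15_pm_001_s : ∃ t, chk3 f_pm_001_s t 31 22 1 = true :=
  ⟨(b (a (b (a (l 16780208) (l 16766800)) (b (l 16785976) (l 16783736))) (b (l 16762992) (l 16779720))) (a (b (l 16759312) (l 16754424)) (l 16772936))), by decide +kernel⟩

def k16_pm_001_s : ∃ t, chk3 f_pm_001_s t 15 23 1 = true :=
  ⟨(a (b (a (b (a (l 16764064) (l 16760248)) (l 16756088)) (b (l 16755064) (l 16749224))) (a (l 16767136) (l 16739576))) (b (a (l 16767312) (l 16741784)) (a (l 16734128) (l 16730000)))), by decide +kernel⟩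

def k17_pm_001_s : ∃ t, chk3 f_pm_001_s t 12 12 1 = true :=
  ⟨(b (l 3) (a (l 3) (b (l 3) (a (l 3) (b (l 3) (a (b (l 3) (l 2)) (b (a (l 3) (b (l 481204116279) (a (l 420537699447) (l 129553667415)))) (a (b (a (l 2) (l 351281350183)) (l 2)) (c (l 16779960) (l 16772016)))))))))), by decide +kernel⟩

def k18_pm_001_s : ∃ t, chk3 f_pm_001_s t 13 24 1 = true :=
  ⟨(a (l 3) (b (a (l 3) (b (l 3) (a (b (l 3) (a (l 3) (a (l 3) (b (l 3) (a (l 490867786983) (b (l 516637590391) (l 16778208))))))) (b (a (b (l 3) (a (l 3) (l 516637591159))) (b (a (l 3) (b (l 463487370055) (a (l 268603232615) (l 16776536)))) (a (b (a (l 532743717735) (l 220284849639)) (l 98952022807)) (l 16775288)))) (a (b (a (c (b (l 3) (l 406579053335)) (l 461339886535)) (a (b (l 407115923879) (l 16776480)) (l 16778760))) (a (b (l 126332440167) (l 16775496)) (l 16774248))) (l 16775328)))))) (a (b (a (l 3) (b (l 3) (a (l 3) (b (a (l 3) (b (l 3) (l 381346120263))) (a (b (l 495699625367) (l 212768658519)) (l 71571606647))))))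 (a (b (a (l 3) (b (l 3) (a (l 3) (l 460803016503)))) (a (a (l 3) (b (l 3) (a (l 409800279127) (l 189146338327)))) (b (a (b (l 532743718871) (l 244980914103)) (c (l 96267669399) (l 16775832))) (l 16779344)))) (b (a (b (a (l 532206848423) (b (l 404968440631) (l 124721827223))) (a (b (l 229948528199) (l 16775928)) (l 16774456))) (l 16777928)) (c (l 16775112) (l 16778600))))) (b (a (b (a (b (l 3) (a (l 494089013015) (c (b (l 351281349031) (l 16776408)) (l 192904436119)))) (b (a (c (b (l 436643824695) (l 149954760711)) (l 246591528823)) (l 16778176)) (l 16779272))) (a (c (b (a (b (l 190756950567) (l 16775896)) (l 16774704)) (l 16773232)) (l 16778936)) (l 16780656))) (a (b (l 16776768) (l 16766456)) (l 16775888))) (a (b (l 16777160) (l 16760976)) (l 16756520)))))), by decide +kernel⟩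

def k19_pm_001_s : ∃ t, chk3 f_pm_001_s t 13 25 1 = true :=
  ⟨(a (b (a (b (l 3) (a (l 3) (b (l 3) (a (l 3) (b (l 504826434919) (a (l 438254438919) (l 142438569351))))))) (b (a (b (l 3) (a (l 3) (b (l 3) (l 512342626887)))) (b (a (l 3) (b (l 507510787879) (c (a (l 409800279927) (l 117205635575)) (l 215453018839)))) (a (b (a (l 3) (a (l 440938792471) (l 209010562679))) (a (a (l 346986381959) (l 133848633255)) (l 16774488))) (c (l 16779408) (l 16771896))))) (a (b (a (b (l 3) (a (l 3) (c (l 354502575351) (l 262160786375)))) (b (a (l 434496342103) (c (l 133848634695) (l 16776224))) (l 39896223399))) (a (b (c (a (l 199883758663) (l 16774656)) (l 134385507735)) (l 16777352)) (l 16778776))) (b (c (l 16776632) (l 16777576)) (l 16781424))))) (a (b (a (b (a (l 3) (b (l 3) (l 494089017463))) (a (b (l 3) (a (l 3) (l 364166252055))) (b (a (l 433422601079) (l 138680473047)) (l 16779280)))) (b (a (b (a (l 3) (c (l 364166252071) (l 272361333943))) (c (a (l 200957500775) (l 16774536)) (l 16781152)))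 (c (l 27011321815) (l 16772096))) (c (l 16777984) (l 16777832)))) (a (b (a (a (b (l 202568113511) (l 16773536)) (l 16777856)) (l 16778880)) (l 16774176)) (l 16777072))) (b (a (b (l 16774096) (l 16777104)) (l 16769520)) (a (l 16765776) (l 16754408))))) (b (a (b (a (b (a (a (b (a (l 236390979975) (l 16778904)) (l 16773696)) (l 16778152)) (l 16779920)) (l 16775656)) (l 16780656)) (c (l 16773872) (l 16768472))) (b (l 16774360) (l 16755952))) (a (b (l 16755992) (l 16739208)) (l 16733672)))), by decide +kernel⟩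

def k20_pm_001_s : ∃ t, chk3 f_pm_001_s t 6 13 1 = true :=
  ⟨(a (b (a (l 2) (b (a (l 2) (a (l 2) (a (l 2) (b (l 16781616) (l 2))))) (l 2))) (l 2)) (a (b (b (a (b (a (l 16773304) (l 16762152)) (l 16762936)) (b (l 16744896) (l 16730064))) (a (l 29628502135) (b (l 16693904) (l 16699616)))) (b (a (l 2) (l 16675680)) (l 2))) (b (b (a (l 16735160) (l 16698072)) (a (l 16684336) (l 16660672))) (b (b (l 16670616) (l 16655064)) (b (l 16639336) (l 16623264)))))), by decide +kernel⟩

def k21_pm_001_s : ∃ t, chk3 f_pm_001_s t 7 6 1 = true :=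
  ⟨(b (a (b (a (b (a (b (a (b (a (l 3) (b (l 3) (a (l 528985621927) (c (b (a (l 545091748791) (l 218674237095)) (l 94120184919)) (l 210621176887))))) (b (b (a (l 3) (a (a (l 421611438471) (l 16778096)) (l 16775536))) (a (a (l 3) (c (l 420537696999) (l 316921618231))) (l 16777928))) (a (a (a (l 511805752439) (b (l 548849845047) (l 149954759751))) (a (b (l 222432333495) (l 16776128)) (l 16775816))) (l 16773696)))) (a (b (b (a (a (b (l 3) (l 269676974743)) (b (l 418390212951) (l 16776584))) (c (l 16778672) (l 16775696))) (l 16777256)) (l 16781960)) (b (a (l 16778496) (l 16771688)) (l 16768288)))) (a (b (a (c (b (l 16778472) (l 16773224)) (l 16773360)) (l 16770392)) (l 16777976)) (l 16773728))) (b (a (l 16776280) (l 16760048)) (l 16775208))) (a (b (a (l 16781192) (l 16753760)) (l 16767408)) (b (l 16744872) (l 16734616)))) (b (a (b (l 16773056) (l 16743616)) (l 16759672)) (a (l 16750400) (l 16720608)))) (a (b (a (b (l 16734920) (l 16722240)) (l 16717328)) (a (l 16700800) (l 16690464)))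 (b (a (l 16707464) (l 16699144)) (a (l 16681432) (l 16673768))))) (b (a (b (a (l 16731104) (l 16724896)) (a (l 16713392) (l 16707656))) (a (b (l 16719896) (l 16703144)) (l 16708384))) (a (b (l 16710512) (l 16665208)) (a (l 16672136) (l 16691032))))) (a (b (a (b (a (l 16667120) (l 16658368)) (l 16654336)) (b (a (l 16650552) (l 16643944)) (l 16590096))) (a (b (l 16618096) (l 16601072)) (b (l 16569384) (l 16536352)))) (b (a (b (l 16636712) (a (l 16605304) (l 16602904))) (a (b (l 16633112) (l 16601888)) (l 16617976))) (a (b (a (l 16566448) (l 16565592)) (l 16521256)) (a (l 16545464) (l 16548160)))))), by decide +kernel⟩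

def k22_pm_001_s : ∃ t, chk3 f_pm_001_s t 3 7 1 = true :=
  ⟨(a (b (a (l 2) (b (a (l 2) (b (l 59156155847) (l 2))) (l 2))) (l 2)) (b (a (b (a (b (l 16579600) (l 16743206039)) (b (l 16505536) (l 16470944))) (a (a (l 2) (l 16452168)) (b (l 16439712) (l 16366512)))) (a (b (b (l 16470064) (l 16410400)) (a (l 16342984) (l 16308696))) (b (a (l 16449552) (l 16456608)) (a (l 16321776) (l 16335608))))) (a (b (a (l 2) (l 16399952)) (l 2)) (a (b (l 16302320) (l 16245768)) (b (l 16236912) (l 16163896)))))), by decide +kernel⟩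

theorem s23_pm_001_s : ∃ t, chk3 f_pm_001_s t 13 12 1 = true := ex3_b k18_pm_001_s k19_pm_001_s

theorem s24_pm_001_s : ∃ t, chk3 f_pm_001_s t 6 12 1 = true := ex3_a k17_pm_001_s s23_pm_001_s

theorem s25_pm_001_s : ∃ t, chk3 f_pm_001_s t 6 6 1 = true := ex3_b s24_pm_001_s k20_pm_001_s

theorem s26_pm_001_s : ∃ t, chk3 f_pm_001_s t 3 6 1 = true := ex3_a s25_pm_001_s k21_pm_001_s

theorem s27_pm_001_s : ∃ t, chk3 f_pm_001_s t 3 3 1 = true := ex3_b s26_pm_001_s k22_pm_001_s

theorem s28_pm_001_s : ∃ t, chk3 f_pm_001_s t 30 22 1 = true := ex3_b k13_pm_001_s k14_pm_001_s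

theorem s29_pm_001_s : ∃ t, chk3 f_pm_001_s t 15 22 1 = true := ex3_a s28_pm_001_s k15_pm_001_s

theorem s30_pm_001_s : ∃ t, chk3 f_pm_001_s t 15 11 1 = true := ex3_b s29_pm_001_s k16_pm_001_s

theorem s31_pm_001_s : ∃ t, chk3 f_pm_001_s t 14 23 1 = true := ex3_a k11_pm_001_s k12_pm_001_s

theorem s32_pm_001_s : ∃ t, chk3 f_pm_001_s t 14 11 1 = true := ex3_b k10_pm_001_s s31_pm_001_s

theorem s33_pm_001_s : ∃ t, chk3 f_pm_001_s t 7 11 1 = true := ex3_a s32_pm_001_s s30_pm_001_s

theorem s34_pm_001_s : ∃ t, chk3 f_pm_001_s t 63 42 1 = true := ex3_b k7_pm_001_s k8_pm_001_s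

theorem s35_pm_001_s : ∃ t, chk3 f_pm_001_s t 31 42 1 = true := ex3_a k6_pm_001_s s34_pm_001_s

theorem s36_pm_001_s : ∃ t, chk3 f_pm_001_s t 31 21 1 = true := ex3_b s35_pm_001_s k9_pm_001_s

theorem s37_pm_001_s : ∃ t, chk3 f_pm_001_s t 15 21 1 = true := ex3_a k5_pm_001_s s36_pm_001_s

theorem s38_pm_001_s : ∃ t, chk3 f_pm_001_s t 15 10 1 = true := ex3_b k4_pm_001_s s37_pm_001_s

theorem s39_pm_001_s : ∃ t, chk3 f_pm_001_s t 7 10 1 = true := ex3_a k3_pm_001_s s38_pm_001_s

theorem s40_pm_001_s : ∃ t, chk3 f_pm_001_s t 7 5 1 = true := ex3_b s39_pm_001_s s33_pm_001_s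

theorem s41_pm_001_s : ∃ t, chk3 f_pm_001_s t 3 5 1 = true := ex3_a k2_pm_001_s s40_pm_001_s

theorem s42_pm_001_s : ∃ t, chk3 f_pm_001_s t 3 2 1 = true := ex3_b k1_pm_001_s s41_pm_001_s

theorem s43_pm_001_s : ∃ t, chk3 f_pm_001_s t 3 1 1 = true := ex3_b s42_pm_001_s s27_pm_001_s

theorem s44_pm_001_s : ∃ t, chk3 f_pm_001_s t 1 1 1 = true := ex3_a k0_pm_001_s s43_pm_001_s

theorem c_pm_001_s : CertNE 0 536870912 0 536870912 536870912 50465866 3 eng mog cd0q0 cd6q0 pd1 true true false .up 0 0 1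
    ndB0q0 ndB6q0 pcB1 cut_pm_001_s Ext.none :=
  certNE1 (fam := true) (s1 := true) (s2 := false) (a := 0) (b := 0) (c := 1) (cn := .up) (n1 := ndB0q0) (n2 := ndB6q0) (pc := pcB1) (cut := cut_pm_001_s) (xt := Ext.none) (P1 := 0) (W1 := 536870912) (P2 := 0) (W2 := 536870912) (P3 := 536870912) (W3 := 50465866) (N0 := 3) (En := eng) (mo := mog) (C1 := cd0q0) (C2 := cd6q0) (C3 := pd1)
    rfl (fun _ => rfl) s44_pm_001_s

end Pool.Agent.Strip051.G.I5000_5470.Tab.CS.BA06

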