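import Pool.Agent.Strip051.G.I5000_5470.StH
import Pool.Agent.Strip051.G.I5000_5470.StF

/-! # Unit strips 15 (generated) -/

set_option linter.all false
set_option maxRecDepth 100000

namespace Pool.Agent.Strip051.G.I5000_5470.Tab.St.C

open Pool.Agent.Strip051.PB Pool.Agent.Strip051.PB.T Pool.Agent.StripNear Pool.Agent.Strip051.LC
open Pool.Agent.Strip051.G.I5000_5470.Tab Pool.Agent.Strip051.G.I5000_5470.Tab.St

noncomputable def cut_B00pp_022_s1 : Cut := Cut.of [[⟨4, 0, 0, 1449551462⟩], [⟨0, 0, 0, 67108864⟩, ⟨1, 1, 0, 67108864⟩, ⟨2, 1, 0, 67108864⟩]]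

noncomputable def f_B00pp_022_s1 : ℕ → ℕ → ℕ → ℕ → Bool := onCell 1073741824 536870912 0 536870912 536870912 50465866
    (rowF 2 false true true .pp 0 2 2 (qsf 0 536870912 0 536870912 2) ndB0q0 ndB0q2 pcB2 cut_B00pp_022_s1 Ext.none)

def k0_B00pp_022_s1 : ∃ t, chk3 f_B00pp_022_s1 t 4 2 1 = true :=
  ⟨(b (l 6) (a (a (b (l 6) (b (l 6) (b (l 16617936) (a (l 16620968) (l 16591360))))) (l 6)) (l 6))), by decide +kernel⟩

def k1_B00pp_022_s1 : ∃ t, chk3 f_B00pp_022_s1 t 16 12 1 = true :=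
  ⟨(b (b (a (c (a (l 16633728) (l 16629264)) (l 16629680)) (l 16621536)) (a (c (a (c (b (l 16620536) (l 16635760)) (l 16632288)) (l 16638704)) (a (l 16641448) (l 16616056))) (c (l 16631464) (l 16630032)))) (b (a (c (a (c (b (c (l 16640776) (l 16629720)) (a (c (l 16636176) (l 16635632)) (l 16633512))) (a (l 16637768) (l 16640704))) (b (l 16624728) (l 16639888))) (a (c (l 16641056) (l 16640440)) (l 16625592))) (c (a (l 16622144) (l 16617048)) (l 16639240))) (b (a (c (a (c (a (a (b (l 16640032) (l 16642408)) (l 16640024)) (l 16638200)) (l 16643808)) (c (l 16634472) (l 16633712))) (a (l 16648096) (l 16632784))) (c (l 16636912) (l 16625216))) (a (c (a (a (c (c (b (l 16644408) (l 16652008)) (l 16645152)) (l 16649832)) (b (l 16641320) (l 16643704))) (c (l 16639112) (l 16638448))) (a (a (l 16649280) (l 16641360)) (l 16637640))) (c (l 16641472) (l 16650864)))))), by decide +kernel⟩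

def k2_B00pp_022_s1 : ∃ t, chk3 f_B00pp_022_s1 t 16 13 1 = true :=
  ⟨(a (a (b (a (b (c (c (b (b (l 16654168) (l 16656552)) (b (l 16658944) (l 16656384))) (a (b (l 16650376) (l 16655656)) (b (l 16648872) (l 16654144)))) (a (b (l 16649872) (l 16655056)) (b (l 16648496) (l 16653672)))) (a (b (c (b (c (l 16659872) (l 16659640)) (l 16662472)) (l 16660264)) (c (a (l 16666912) (l 16666120)) (l 16665488))) (b (c (l 16659560) (l 16658864)) (c (a (l 16665328) (l 16664536)) (l 16664072))))) (b (c (b (c (l 16647616) (l 16646992)) (l 16657328)) (a (l 16649712) (l 16648312))) (b (c (l 16657200) (l 16656736)) (a (l 16663064) (l 16661536))))) (a (b (a (b (b (l 16670064) (l 16672728)) (b (l 16675384) (l 16678040))) (b (a (l 16670256) (l 16669496)) (l 16675176))) (a (b (b (l 16680688) (l 16683328)) (c (l 16688040) (l 16686416))) (b (l 16680456) (l 16685720)))) (b (a (b (l 16668344) (l 16673624)) (b (l 16666808) (l 16672072))) (b (l 16678104)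 (l 16683344))))) (b (b (c (b (l 16648712) (l 16658688)) (l 16655496)) (a (c (l 16661960) (l 16656472)) (l 16664256))) (b (a (l 16667120) (l 16663976)) (b (l 16673344) (l 16678520))))) (b (b (a (c (l 16651056) (l 16660672)) (l 16655680)) (a (l 16660128) (l 16644008))) (b (b (l 16674952) (l 16679784)) (a (l 16669440) (l 16663104))))), by decide +kernel⟩

def k3_B00pp_022_s1 : ∃ t, chk3 f_B00pp_022_s1 t 17 6 1 = true :=
  ⟨(b (a (b (b (l 16632984) (l 16620888)) (b (c (l 16609296) (l 16608040)) (c (l 16618096) (l 16616880)))) (c (b (l 16627712) (l 16623960)) (b (l 16584864) (l 16601608)))) (b (a (b (c (l 16647872) (l 16625816)) (l 16635384)) (b (l 16615000) (l 16623472))) (b (a (l 16644456) (l 16673952)) (a (l 16653696) (l 16682600))))), by decide +kernel⟩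

def k4_B00pp_022_s1 : ∃ t, chk3 f_B00pp_022_s1 t 8 7 1 = true :=
  ⟨(b (b (a (a (a (b (a (b (a (l 16692568) (l 16690976)) (a (l 16697832) (l 16696224))) (b (l 16688568) (l 16693792))) (a (b (l 16702288) (l 14)) (l 16701640))) (b (a (l 16687944) (l 16684640)) (b (l 16694024) (l 14)))) (b (a (l 16679624) (l 16672936)) (a (l 16689792) (l 16682880)))) (a (b (l 16663072) (a (l 16676000) (l 16668976))) (b (l 16649384) (a (l 16661776) (l 16654408))))) (a (l 14) (a (l 14) (a (l 14) (a (l 14) (l 1)))))) (a (l 14) (a (l 14) (l 1)))), by decide +kernel⟩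

def k5_B00pp_022_s1 : ∃ t, chk3 f_B00pp_022_s1 t 9 3 1 = true :=
  ⟨(b (b (a (b (l 6) (a (a (l 16594104) (l 16588448)) (l 16579808))) (l 6)) (a (b (b (a (l 16603168) (l 16590928)) (a (l 16611112) (l 16598296))) (a (b (l 16619064) (l 16627072)) (b (l 16605608) (l 1)))) (b (a (l 16581752) (l 1)) (l 1)))) (a (a (b (b (b (l 16635088) (l 16643032)) (l 1)) (l 1)) (l 1)) (l 1))), by decide +kernel⟩

def k6_B00pp_022_s1 : ∃ t, chk3 f_B00pp_022_s1 t 5 1 1 = true :=
  ⟨(b (l 6) (b (l 1) (l 1))), by decide +kernel⟩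

def k7_B00pp_022_s1 : ∃ t, chk3 f_B00pp_022_s1 t 3 1 1 = true :=
  ⟨(l 1), by decide +kernel⟩

theorem t8_B00pp_022_s1 : ∃ t, chk3 f_B00pp_022_s1 t 16 6 1 = true := ex3_b k1_B00pp_022_s1 k2_B00pp_022_s1

theorem t9_B00pp_022_s1 : ∃ t, chk3 f_B00pp_022_s1 t 8 6 1 = true := ex3_a t8_B00pp_022_s1 k3_B00pp_022_s1

theorem t10_B00pp_022_s1 : ∃ t, chk3 f_B00pp_022_s1 t 8 3 1 = true := ex3_b t9_B00pp_022_s1 k4_B00pp_022_s1

theorem t11_B00pp_022_s1 : ∃ t, chk3 f_B00pp_022_s1 t 4 3 1 = true := ex3_a t10_B00pp_022_s1 k5_B00pp_022_s1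

theorem t12_B00pp_022_s1 : ∃ t, chk3 f_B00pp_022_s1 t 4 1 1 = true := ex3_b k0_B00pp_022_s1 t11_B00pp_022_s1

theorem t13_B00pp_022_s1 : ∃ t, chk3 f_B00pp_022_s1 t 2 1 1 = true := ex3_a t12_B00pp_022_s1 k6_B00pp_022_s1

theorem t14_B00pp_022_s1 : ∃ t, chk3 f_B00pp_022_s1 t 1 1 1 = true := ex3_a t13_B00pp_022_s1 k7_B00pp_022_s1

theorem c_B00pp_022_s1 : CertF 0 536870912 0 536870912 536870912 50465866 false true true .pp 0 2 2
    ndB0q0 ndB0q2 pcB2 cut_B00pp_022_s1 Ext.none :=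
  certF2 (fam := false) (s1 := true) (s2 := true) (a := 0) (b := 2) (c := 2) (cn := .pp) (n1 := ndB0q0) (n2 := ndB0q2) (pc := pcB2) (cut := cut_B00pp_022_s1) (xt := Ext.none) (P1 := 0) (W1 := 536870912) (P2 := 0) (W2 := 536870912) (P3 := 536870912) (W3 := 50465866)
    rfl (fun _ => rfl) t14_B00pp_022_s1

theorem s_B00pp_022_s1 {κ x : ℝ} (hκ : κ * h0 = ken x) (hx : ((536870912 : ℕ) : ℝ) / S ≤ x)
    (hx' : x ≤ (((536870912 : ℕ) : ℝ) + (50465866 : ℕ)) / S)
    (H : CutB (VFD κ) PP tK tL pcB (Cut.of [[⟨0, 0, 0, 67108864⟩, ⟨1, 1, 0, 67108864⟩, ⟨2, 1, 0, 67108864⟩]]) 0 2 2 0 0 (sgb true) (sgb true) x) :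
    AltB (VFD κ) PP tK tL pcB [⟨3, 0, 0, 1449551462⟩] 0 2 2 0 0 (sgb true) (sgb true) x :=
  strip_altBD (m := 1449551462) true rfl hκ (SH.κ0 hκ (SH.hx1 hx).le (SH.hx2 hx').le) (SH.hx1 hx).le (SH.hx2 hx') (covB00).cov (covB02).cov hx hx' c_B00pp_022_s1 H (noExt_B)

noncomputable def cut_B00pp_022_s3 : Cut := Cut.of [[⟨3, 0, 0, 2845415833⟩], [⟨0, 0, 0, 67108864⟩, ⟨1, 1, 0, 67108864⟩, ⟨2, 1, 0, 67108864⟩]]

noncomputable def f_B00pp_022_s3 : ℕ → ℕ → ℕ → ℕ → Bool := onCell 0 536870912 0 536870912 536870912 50465866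
    (rowF 0 false true true .pp 0 2 2 (qsf 0 536870912 0 536870912 2) ndB0q0 ndB0q2 pcB2 cut_B00pp_022_s3 Ext.none)

def k0_B00pp_022_s3 : ∃ t, chk3 f_B00pp_022_s3 t 1 1 1 = true :=
  ⟨(l 6), by decide +kernel⟩

theorem c_B00pp_022_s3 : CertF 0 536870912 0 536870912 536870912 50465866 false true true .pp 0 2 2
    ndB0q0 ndB0q2 pcB2 cut_B00pp_022_s3 Ext.none :=
  certF0 (fam := false) (s1 := true) (s2 := true) (a := 0) (b := 2) (c := 2) (cn := .pp) (n1 := ndB0q0) (n2 := ndB0q2) (pc := pcB2) (cut := cut_B00pp_022_s3) (xt := Ext.none) (P1 := 0) (W1 := 536870912) (P2 := 0) (W2 := 536870912) (P3 := 536870912) (W3 := 50465866)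
    rfl k0_B00pp_022_s3

theorem s_B00pp_022_s3 {κ x : ℝ} (hκ : κ * h0 = ken x) (hx : ((536870912 : ℕ) : ℝ) / S ≤ x)
    (hx' : x ≤ (((536870912 : ℕ) : ℝ) + (50465866 : ℕ)) / S)
    (H : CutB (VFD κ) PP tK tL pcB (Cut.of [[⟨0, 0, 0, 67108864⟩, ⟨1, 1, 0, 67108864⟩, ⟨2, 1, 0, 67108864⟩]]) 0 2 2 0 0 (sgb true) (sgb true) x) :
    AltB (VFD κ) PP tK tL pcB [⟨4, 0, 0, 2845415833⟩] 0 2 2 0 0 (sgb true) (sgb true) x :=
  strip_altBD (m := 2845415833) false rfl hκ (SH.κ0 hκ (SH.hx1 hx).le (SH.hx2 hx').le) (SH.hx1 hx).le (SH.hx2 hx') (covB00).cov (covB02).cov hx hx' c_B00pp_022_s3 H (noExt_B)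

noncomputable def cut_B00pp_101_s1 : Cut := Cut.of [[⟨4, 0, 0, 1449551462⟩]]

noncomputable def f_B00pp_101_s1 : ℕ → ℕ → ℕ → ℕ → Bool := onCell 536870912 536870912 536870912 536870912 536870912 50465866
    (rowF 0 false true true .npn 1 0 1 (qsf 536870912 536870912 536870912 536870912 0) ndB0q1 ndB0q1 pcB0 cut_B00pp_101_s1 Ext.none)

def k0_B00pp_101_s1 : ∃ t, chk3 f_B00pp_101_s1 t 1 1 1 = true :=
  ⟨(l 3), by decide +kernel⟩

theorem c_B00pp_101_s1 : CertF 536870912 536870912 536870912 536870912 536870912 50465866 false true true .npn 1 0 1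
    ndB0q1 ndB0q1 pcB0 cut_B00pp_101_s1 Ext.none :=
  certF0 (fam := false) (s1 := true) (s2 := true) (a := 1) (b := 0) (c := 1) (cn := .npn) (n1 := ndB0q1) (n2 := ndB0q1) (pc := pcB0) (cut := cut_B00pp_101_s1) (xt := Ext.none) (P1 := 536870912) (W1 := 536870912) (P2 := 536870912) (W2 := 536870912) (P3 := 536870912) (W3 := 50465866)
    rfl k0_B00pp_101_s1

theorem s_B00pp_101_s1 {κ x : ℝ} (hκ : κ * h0 = ken x) (hx : ((536870912 : ℕ) : ℝ) / S ≤ x)
    (hx' : x ≤ (((536870912 : ℕ) : ℝ) + (50465866 : ℕ)) / S) :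
    AltB (VFD κ) PP tK tL pcB [⟨3, 0, 0, 1449551462⟩] 1 0 1 0 0 (sgb true) (sgb true) x :=
  strip_altBD (m := 1449551462) true rfl hκ (SH.κ0 hκ (SH.hx1 hx).le (SH.hx2 hx').le) (SH.hx1 hx).le (SH.hx2 hx') (covB01).cov (covB01).cov hx hx' c_B00pp_101_s1 cutB_nil (noExt_B)

noncomputable def cut_B00pp_101_s3 : Cut := Cut.of [[⟨3, 0, 0, 2845415833⟩]]

noncomputable def f_B00pp_101_s3 : ℕ → ℕ → ℕ → ℕ → Bool := onCell 536870912 536870912 536870912 536870912 536870912 50465866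
    (rowF 0 false true true .npn 1 0 1 (qsf 536870912 536870912 536870912 536870912 0) ndB0q1 ndB0q1 pcB0 cut_B00pp_101_s3 Ext.none)

def k0_B00pp_101_s3 : ∃ t, chk3 f_B00pp_101_s3 t 1 1 1 = true :=
  ⟨(l 3), by decide +kernel⟩

theorem c_B00pp_101_s3 : CertF 536870912 536870912 536870912 536870912 536870912 50465866 false true true .npn 1 0 1
    ndB0q1 ndB0q1 pcB0 cut_B00pp_101_s3 Ext.none :=
  certF0 (fam := false) (s1 := true) (s2 := true) (a := 1) (b := 0) (c := 1) (cn := .npn) (n1 := ndB0q1) (n2 := ndB0q1) (pc := pcB0) (cut := cut_B00pp_101_s3) (xt := Ext.none) (P1 := 536870912) (W1 := 536870912) (P2 := 536870912) (W2 := 536870912) (P3 := 536870912) (W3 := 50465866)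
    rfl k0_B00pp_101_s3

theorem s_B00pp_101_s3 {κ x : ℝ} (hκ : κ * h0 = ken x) (hx : ((536870912 : ℕ) : ℝ) / S ≤ x)
    (hx' : x ≤ (((536870912 : ℕ) : ℝ) + (50465866 : ℕ)) / S) :
    AltB (VFD κ) PP tK tL pcB [⟨4, 0, 0, 2845415833⟩] 1 0 1 0 0 (sgb true) (sgb true) x :=
  strip_altBD (m := 2845415833) false rfl hκ (SH.κ0 hκ (SH.hx1 hx).le (SH.hx2 hx').le) (SH.hx1 hx).le (SH.hx2 hx') (covB01).cov (covB01).cov hx hx' c_B00pp_101_s3 cutB_nil (noExt_B)

noncomputable def cut_B00pp_102_s1 : Cut := Cut.of [[⟨4, 0, 0, 1449551462⟩]]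

noncomputable def f_B00pp_102_s1 : ℕ → ℕ → ℕ → ℕ → Bool := onCell 0 536870912 0 536870912 536870912 50465866
    (rowF 2 false true true .npp 1 0 2 (qsf 536870912 536870912 0 536870912 0) ndB0q1 ndB0q2 pcB0 cut_B00pp_102_s1 Ext.none)

def k0_B00pp_102_s1 : ∃ t, chk3 f_B00pp_102_s1 t 1 1 1 = true :=
  ⟨(a (b (l 3) (l 3)) (l 3)), by decide +kernel⟩

theorem c_B00pp_102_s1 : CertF 536870912 536870912 0 536870912 536870912 50465866 false true true .npp 1 0 2
    ndB0q1 ndB0q2 pcB0 cut_B00pp_102_s1 Ext.none :=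
  certF2 (fam := false) (s1 := true) (s2 := true) (a := 1) (b := 0) (c := 2) (cn := .npp) (n1 := ndB0q1) (n2 := ndB0q2) (pc := pcB0) (cut := cut_B00pp_102_s1) (xt := Ext.none) (P1 := 536870912) (W1 := 536870912) (P2 := 0) (W2 := 536870912) (P3 := 536870912) (W3 := 50465866)
    rfl (fun _ => rfl) k0_B00pp_102_s1

theorem s_B00pp_102_s1 {κ x : ℝ} (hκ : κ * h0 = ken x) (hx : ((536870912 : ℕ) : ℝ) / S ≤ x)
    (hx' : x ≤ (((536870912 : ℕ) : ℝ) + (50465866 : ℕ)) / S) :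
    AltB (VFD κ) PP tK tL pcB [⟨3, 0, 0, 1449551462⟩] 1 0 2 0 0 (sgb true) (sgb true) x :=
  strip_altBD (m := 1449551462) true rfl hκ (SH.κ0 hκ (SH.hx1 hx).le (SH.hx2 hx').le) (SH.hx1 hx).le (SH.hx2 hx') (covB01).cov (covB02).cov hx hx' c_B00pp_102_s1 cutB_nil (noExt_B)

noncomputable def cut_B00pp_102_s3 : Cut := Cut.of [[⟨3, 0, 0, 2845415833⟩]]

noncomputable def f_B00pp_102_s3 : ℕ → ℕ → ℕ → ℕ → Bool := onCell 536870912 536870912 0 536870912 536870912 50465866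
    (rowF 0 false true true .npp 1 0 2 (qsf 536870912 536870912 0 536870912 0) ndB0q1 ndB0q2 pcB0 cut_B00pp_102_s3 Ext.none)

def k0_B00pp_102_s3 : ∃ t, chk3 f_B00pp_102_s3 t 1 1 1 = true :=
  ⟨(l 6), by decide +kernel⟩

theorem c_B00pp_102_s3 : CertF 536870912 536870912 0 536870912 536870912 50465866 false true true .npp 1 0 2
    ndB0q1 ndB0q2 pcB0 cut_B00pp_102_s3 Ext.none :=
  certF0 (fam := false) (s1 := true) (s2 := true) (a := 1) (b := 0) (c := 2) (cn := .npp) (n1 := ndB0q1) (n2 := ndB0q2) (pc := pcB0) (cut := cut_B00pp_102_s3) (xt := Ext.none) (P1 := 536870912) (W1 := 536870912) (P2 := 0) (W2 := 536870912) (P3 := 536870912) (W3 := 50465866)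
    rfl k0_B00pp_102_s3

theorem s_B00pp_102_s3 {κ x : ℝ} (hκ : κ * h0 = ken x) (hx : ((536870912 : ℕ) : ℝ) / S ≤ x)
    (hx' : x ≤ (((536870912 : ℕ) : ℝ) + (50465866 : ℕ)) / S) :
    AltB (VFD κ) PP tK tL pcB [⟨4, 0, 0, 2845415833⟩] 1 0 2 0 0 (sgb true) (sgb true) x :=
  strip_altBD (m := 2845415833) false rfl hκ (SH.κ0 hκ (SH.hx1 hx).le (SH.hx2 hx').le) (SH.hx1 hx).le (SH.hx2 hx') (covB01).cov (covB02).cov hx hx' c_B00pp_102_s3 cutB_nil (noExt_B)

noncomputable def cut_B00pp_112_s1 : Cut := Cut.of [[⟨4, 0, 0, 1449551462⟩]]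

noncomputable def xt_B00pp_112_s1 : Ext := strExt6 dd false true true .u0 .u2 .u0m .dn 1 1 2 rfl rfl gf1 vv ww ndB0q1 ndB0q2

noncomputable def f_B00pp_112_s1 : ℕ → ℕ → ℕ → ℕ → Bool := onCell 536870912 536870912 0 536870912 536870912 50465866
    (rowF 0 false true true .dn 1 1 2 (qsf 536870912 536870912 0 536870912 1) ndB0q1 ndB0q2 pcB1 cut_B00pp_112_s1 xt_B00pp_112_s1)

def k0_B00pp_112_s1 : ∃ t, chk3 f_B00pp_112_s1 t 1 1 1 = true :=
  ⟨(a (b (b (a (b (a (b (b (a (a (b (l 16747184) (l 16732224)) (l 1068151311)) (a (l 1067880463) (b (a (l 16778344) (l 1067429903)) (l 1067562511)))) (a (a (l 1068284943) (l 1068147727)) (l 1067737103))) (a (a (b (l 1068251663) (l 1068055055)) (l 1069718031)) (a (l 1067890191) (l 3)))) (a (b (a (b (a (b (l 1067801615) (l 1067740175)) (l 1068268047)) (l 3)) (l 3)) (l 3)) (l 3))) (a (a (b (a (l 1067726351) (l 3)) (l 3)) (l 3)) (l 3))) (l 3)) (l 3)) (l 3)) (l 1)), by decide +kernel⟩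

theorem c_B00pp_112_s1 : CertF 536870912 536870912 0 536870912 536870912 50465866 false true true .dn 1 1 2
    ndB0q1 ndB0q2 pcB1 cut_B00pp_112_s1 xt_B00pp_112_s1 :=
  certF0 (fam := false) (s1 := true) (s2 := true) (a := 1) (b := 1) (c := 2) (cn := .dn) (n1 := ndB0q1) (n2 := ndB0q2) (pc := pcB1) (cut := cut_B00pp_112_s1) (xt := xt_B00pp_112_s1) (P1 := 536870912) (W1 := 536870912) (P2 := 0) (W2 := 536870912) (P3 := 536870912) (W3 := 50465866)
    rfl k0_B00pp_112_s1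

theorem s_B00pp_112_s1 {κ x : ℝ} (hκ : κ * h0 = ken x) (hx : ((536870912 : ℕ) : ℝ) / S ≤ x)
    (hx' : x ≤ (((536870912 : ℕ) : ℝ) + (50465866 : ℕ)) / S) :
    AltB (VFD κ) PP tK tL pcB [⟨3, 0, 0, 1449551462⟩] 1 1 2 0 0 (sgb true) (sgb true) x :=
  strip_altBD (m := 1449551462) true rfl hκ (SH.κ0 hκ (SH.hx1 hx).le (SH.hx2 hx').le) (SH.hx1 hx).le (SH.hx2 hx') (covB01).cov (covB02).cov hx hx' c_B00pp_112_s1 cutB_nil ((okx6 hx hx').extB (T := tt) (okx hx hx') (sideB hx hx') hκ rfl rfl (.O 1 true) (.O 2 true) (Or.inr rfl))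

noncomputable def cut_B00pp_112_s3 : Cut := Cut.of [[⟨3, 0, 0, 2845415833⟩]]

noncomputable def f_B00pp_112_s3 : ℕ → ℕ → ℕ → ℕ → Bool := onCell 536870912 536870912 0 536870912 536870912 50465866
    (rowF 0 false true true .dn 1 1 2 (qsf 536870912 536870912 0 536870912 1) ndB0q1 ndB0q2 pcB1 cut_B00pp_112_s3 Ext.none)

def k0_B00pp_112_s3 : ∃ t, chk3 f_B00pp_112_s3 t 1 1 1 = true :=
  ⟨(l 6), by decide +kernel⟩

theorem c_B00pp_112_s3 : CertF 536870912 536870912 0 536870912 536870912 50465866 false true true .dn 1 1 2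
    ndB0q1 ndB0q2 pcB1 cut_B00pp_112_s3 Ext.none :=
  certF0 (fam := false) (s1 := true) (s2 := true) (a := 1) (b := 1) (c := 2) (cn := .dn) (n1 := ndB0q1) (n2 := ndB0q2) (pc := pcB1) (cut := cut_B00pp_112_s3) (xt := Ext.none) (P1 := 536870912) (W1 := 536870912) (P2 := 0) (W2 := 536870912) (P3 := 536870912) (W3 := 50465866)
    rfl k0_B00pp_112_s3

theorem s_B00pp_112_s3 {κ x : ℝ} (hκ : κ * h0 = ken x) (hx : ((536870912 : ℕ) : ℝ) / S ≤ x)
    (hx' : x ≤ (((536870912 : ℕ) : ℝ) + (50465866 : ℕ)) / S) :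
    AltB (VFD κ) PP tK tL pcB [⟨4, 0, 0, 2845415833⟩] 1 1 2 0 0 (sgb true) (sgb true) x :=
  strip_altBD (m := 2845415833) false rfl hκ (SH.κ0 hκ (SH.hx1 hx).le (SH.hx2 hx').le) (SH.hx1 hx).le (SH.hx2 hx') (covB01).cov (covB02).cov hx hx' c_B00pp_112_s3 cutB_nil (noExt_B)

noncomputable def cut_B00pp_202_s1 : Cut := Cut.of [[⟨4, 0, 0, 1449551462⟩]]

noncomputable def f_B00pp_202_s1 : ℕ → ℕ → ℕ → ℕ → Bool := onCell 0 536870912 0 536870912 536870912 50465866
    (rowF 0 false true true .pp 2 0 2 (qsf 0 536870912 0 536870912 0) ndB0q2 ndB0q2 pcB0 cut_B00pp_202_s1 Ext.none)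

def k0_B00pp_202_s1 : ∃ t, chk3 f_B00pp_202_s1 t 1 1 1 = true :=
  ⟨(l 3), by decide +kernel⟩

theorem c_B00pp_202_s1 : CertF 0 536870912 0 536870912 536870912 50465866 false true true .pp 2 0 2
    ndB0q2 ndB0q2 pcB0 cut_B00pp_202_s1 Ext.none :=
  certF0 (fam := false) (s1 := true) (s2 := true) (a := 2) (b := 0) (c := 2) (cn := .pp) (n1 := ndB0q2) (n2 := ndB0q2) (pc := pcB0) (cut := cut_B00pp_202_s1) (xt := Ext.none) (P1 := 0) (W1 := 536870912) (P2 := 0) (W2 := 536870912) (P3 := 536870912) (W3 := 50465866)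
    rfl k0_B00pp_202_s1

theorem s_B00pp_202_s1 {κ x : ℝ} (hκ : κ * h0 = ken x) (hx : ((536870912 : ℕ) : ℝ) / S ≤ x)
    (hx' : x ≤ (((536870912 : ℕ) : ℝ) + (50465866 : ℕ)) / S) :
    AltB (VFD κ) PP tK tL pcB [⟨3, 0, 0, 1449551462⟩] 2 0 2 0 0 (sgb true) (sgb true) x :=
  strip_altBD (m := 1449551462) true rfl hκ (SH.κ0 hκ (SH.hx1 hx).le (SH.hx2 hx').le) (SH.hx1 hx).le (SH.hx2 hx') (covB02).cov (covB02).cov hx hx' c_B00pp_202_s1 cutB_nil (noExt_B)

noncomputable def cut_B00pp_202_s3 : Cut := Cut.of [[⟨3, 0, 0, 2845415833⟩]]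

noncomputable def f_B00pp_202_s3 : ℕ → ℕ → ℕ → ℕ → Bool := onCell 0 536870912 0 536870912 536870912 50465866
    (rowF 0 false true true .pp 2 0 2 (qsf 0 536870912 0 536870912 0) ndB0q2 ndB0q2 pcB0 cut_B00pp_202_s3 Ext.none)

def k0_B00pp_202_s3 : ∃ t, chk3 f_B00pp_202_s3 t 1 1 1 = true :=
  ⟨(l 3), by decide +kernel⟩

theorem c_B00pp_202_s3 : CertF 0 536870912 0 536870912 536870912 50465866 false true true .pp 2 0 2
    ndB0q2 ndB0q2 pcB0 cut_B00pp_202_s3 Ext.none :=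
  certF0 (fam := false) (s1 := true) (s2 := true) (a := 2) (b := 0) (c := 2) (cn := .pp) (n1 := ndB0q2) (n2 := ndB0q2) (pc := pcB0) (cut := cut_B00pp_202_s3) (xt := Ext.none) (P1 := 0) (W1 := 536870912) (P2 := 0) (W2 := 536870912) (P3 := 536870912) (W3 := 50465866)
    rfl k0_B00pp_202_s3

theorem s_B00pp_202_s3 {κ x : ℝ} (hκ : κ * h0 = ken x) (hx : ((536870912 : ℕ) : ℝ) / S ≤ x)
    (hx' : x ≤ (((536870912 : ℕ) : ℝ) + (50465866 : ℕ)) / S) :
    AltB (VFD κ) PP tK tL pcB [⟨4, 0, 0, 2845415833⟩] 2 0 2 0 0 (sgb true) (sgb true) x :=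
  strip_altBD (m := 2845415833) false rfl hκ (SH.κ0 hκ (SH.hx1 hx).le (SH.hx2 hx').le) (SH.hx1 hx).le (SH.hx2 hx') (covB02).cov (covB02).cov hx hx' c_B00pp_202_s3 cutB_nil (noExt_B)

noncomputable def cut_B00pm_001_s1 : Cut := Cut.of [[⟨4, 0, 0, 1449551462⟩], [⟨0, 0, 1, 20971520⟩, ⟨1, 1, 2, 20971520⟩, ⟨2, 1, 0, 33554432⟩]]

noncomputable def f_B00pm_001_s1 : ℕ → ℕ → ℕ → ℕ → Bool := onCell 0 536870912 536870912 536870912 536870912 50465866
    (rowF 0 false true false .up 0 0 1 (qsf 0 536870912 536870912 536870912 0) ndB0q0 ndB0q1 pcB0 cut_B00pm_001_s1 Ext.none)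

def k0_B00pm_001_s1 : ∃ t, chk3 f_B00pm_001_s1 t 1 1 1 = true :=
  ⟨(l 6), by decide +kernel⟩

theorem c_B00pm_001_s1 : CertF 0 536870912 536870912 536870912 536870912 50465866 false true false .up 0 0 1
    ndB0q0 ndB0q1 pcB0 cut_B00pm_001_s1 Ext.none :=
  certF0 (fam := false) (s1 := true) (s2 := false) (a := 0) (b := 0) (c := 1) (cn := .up) (n1 := ndB0q0) (n2 := ndB0q1) (pc := pcB0) (cut := cut_B00pm_001_s1) (xt := Ext.none) (P1 := 0) (W1 := 536870912) (P2 := 536870912) (W2 := 536870912) (P3 := 536870912) (W3 := 50465866)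
    rfl k0_B00pm_001_s1

theorem s_B00pm_001_s1 {κ x : ℝ} (hκ : κ * h0 = ken x) (hx : ((536870912 : ℕ) : ℝ) / S ≤ x)
    (hx' : x ≤ (((536870912 : ℕ) : ℝ) + (50465866 : ℕ)) / S)
    (H : CutB (VFD κ) PP tK tL pcB (Cut.of [[⟨0, 0, 1, 20971520⟩, ⟨1, 1, 2, 20971520⟩, ⟨2, 1, 0, 33554432⟩]]) 0 0 1 0 0 (sgb true) (sgb false) x) :
    AltB (VFD κ) PP tK tL pcB [⟨3, 0, 0, 1449551462⟩] 0 0 1 0 0 (sgb true) (sgb false) x :=
  strip_altBD (m := 1449551462) true rfl hκ (SH.κ0 hκ (SH.hx1 hx).le (SH.hx2 hx').le) (SH.hx1 hx).le (SH.hx2 hx') (covB00).cov (covB01).cov hx hx' c_B00pm_001_s1 H (noExt_B)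

noncomputable def cut_B00pm_001_s3 : Cut := Cut.of [[⟨3, 0, 0, 2845415833⟩], [⟨0, 0, 1, 20971520⟩, ⟨1, 1, 2, 20971520⟩, ⟨2, 1, 0, 33554432⟩]]

noncomputable def xt_B00pm_001_s3 : Ext := strExt6 dd false true false .u0 .u0m .s0m .up 0 0 1 rfl rfl gl0 vv ww ndB0q0 ndB0q1

noncomputable def f_B00pm_001_s3 : ℕ → ℕ → ℕ → ℕ → Bool := onCell 0 536870912 536870912 536870912 536870912 50465866
    (rowF 0 false true false .up 0 0 1 (qsf 0 536870912 536870912 536870912 0) ndB0q0 ndB0q1 pcB0 cut_B00pm_001_s3 xt_B00pm_001_s3)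

def k0_B00pm_001_s3 : ∃ t, chk3 f_B00pm_001_s3 t 2 1 1 = true :=
  ⟨(b (l 4) (b (b (l 4) (l 2)) (l 2))), by decide +kernel⟩

def k1_B00pm_001_s3 : ∃ t, chk3 f_B00pm_001_s3 t 6 2 1 = true :=
  ⟨(b (l 4) (l 4)), by decide +kernel⟩

def k2_B00pm_001_s3 : ∃ t, chk3 f_B00pm_001_s3 t 7 4 1 = true :=
  ⟨(l 4), by decide +kernel⟩

def k3_B00pm_001_s3 : ∃ t, chk3 f_B00pm_001_s3 t 14 5 1 = true :=
  ⟨(b (l 4) (b (b (l 4) (a (l 4) (a (l 4) (c (b (l 1073253391) (l 1073302543)) (c (b (l 1072586255) (l 1072654863)) (b (l 1072157711) (l 1072238095))))))) (a (b (b (l 4) (l 1071190031)) (a (l 1071200783) (l 1071722511))) (c (a (b (b (a (l 1072985103) (a (l 1073158671) (b (a (l 1073284111) (l 1073317391)) (l 1073220623)))) (l 1072929295)) (a (l 1072555023) (l 1072784399))) (b (b (a (b (l 1073342479) (a (l 1073334287) (l 1073382415))) (b (l 1073351183) (l 1073385487))) (a (a (l 1073217039) (l 1073339919)) (l 1073422863))) (a (l 1073012751)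 (b (l 1073359375) (l 1073185295))))) (b (a (b (a (b (l 4) (l 1072038927)) (b (a (l 4) (a (b (l 4) (l 1072405007)) (b (l 1072470031) (l 1072462351)))) (c (l 1072498703) (l 1072070671)))) (a (l 1071905295) (l 1072171535))) (b (a (b (c (l 1072705039) (b (l 1072280079) (l 1072308239))) (a (b (l 1072512015) (l 1072492559)) (l 1072558095))) (b (l 1072520207) (l 1072570383))) (a (a (l 1072375823) (b (l 1072563727) (l 1072489487))) (b (l 1072628239) (l 1072653327))))) (a (a (l 1071642127) (l 1071906319)) (a (b (l 1072265231) (l 1072086031)) (b (c (l 1072769551) (l 1072391183)) (l 1072395279))))))))), by decide +kernel⟩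

def k4_B00pm_001_s3 : ∃ t, chk3 f_B00pm_001_s3 t 15 10 1 = true :=
  ⟨(a (a (l 4) (b (l 4) (a (a (l 4) (b (l 4) (b (l 4) (c (l 1073384463) (l 1072495631))))) (b (l 4) (b (b (l 4) (c (l 1073439247) (l 1072548367))) (c (l 1073425935) (l 1072547855))))))) (b (a (l 4) (b (l 4) (c (l 1074028047) (l 1073171983)))) (a (b (a (l 4) (a (c (l 1073672719) (l 1072793615)) (l 1073291791))) (b (b (b (a (a (l 4) (a (l 4) (l 1073098255))) (c (l 1073634319) (l 1072764431))) (b (a (a (l 4) (a (a (l 4) (c (l 1073516047) (l 1072634895))) (c (l 1073539599) (l 1072661007)))) (c (l 1073623055) (l 1072753679))) (a (a (l 4) (a (c (l 1073505807) (l 1072626191)) (c (a (l 1073524751) (l 1073541135)) (l 1072655887)))) (a (c (l 1073582607) (l 1072710671)) (l 1073203727))))) (a (a (c (l 1073481743) (l 1072601103)) (a (c (l 1073503247) (l 1072627727)) (a (c (l 1073513487) (l 1072641039)) (b (c (l 1073532943) (l 1072659471)) (l 1073075727))))) (c (a (a (b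 (l 1073555983) (l 1073544719)) (l 1073582607)) (l 1073631247)) (a (a (b (l 1072685071) (l 1072677391)) (l 1072716303)) (a (l 1072752143) (l 1072787983)))))) (a (a (c (l 1073466895) (l 1072598543)) (c (a (l 1073486863) (l 1073501711)) (a (l 1072624143) (l 1072642063)))) (a (a (c (l 1073524239) (l 1072667663)) (b (c (l 1073559567) (l 1072701455)) (l 1073104911))) (b (c (l 1073606671) (l 1072752655)) (c (l 1073584655) (l 1072739343))))))) (c (b (l 1073903631) (b (b (l 1073822735) (a (l 1073729039) (l 1073856015))) (a (b (l 1073702927) (l 1073678863)) (l 1073817103)))) (b (l 1073052687) (b (b (l 1072976399) (a (l 1072878095) (l 1073019919))) (a (b (l 1072858639) (a (l 1072806927) (l 1072875535))) (l 1072989199)))))))), by decide +kernel⟩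

def k5_B00pm_001_s3 : ∃ t, chk3 f_B00pm_001_s3 t 30 11 1 = true :=
  ⟨(b (c (b (a (a (b (l 4) (c (l 1073506831) (l 1073048591))) (b (l 1073313295) (l 1073317391))) (b (c (l 1073619471) (l 1073164815)) (l 1073385487))) (a (c (b (l 1073539599) (l 1073562639)) (b (l 1073096719) (l 1073132047))) (b (l 1073389583) (l 1073402895)))) (b (b (a (a (l 4) (c (l 1072639503) (l 1072214543))) (a (l 1072488463) (l 1072552463))) (a (a (a (l 4) (c (l 1072619023) (l 1072196111))) (l 1072448527)) (a (l 1072506383) (l 1072564751)))) (a (c (b (a (l 1072645135) (l 1072689167)) (l 1072716815)) (b (a (l 1072229903) (l 1072282127)) (a (l 1072292879) (l 1072335375)))) (b (l 1072562191) (l 1072597519))))) (c (b (a (a (b (l 1073378831) (l 1073444879)) (b (l 1073393679) (l 1073447439))) (b (l 1073426959) (l 1073464847))) (a (a (a (l 1073435663) (l 1073505807)) (l 1073547791)) (c (l 1073739279) (l 1073373199)))) (b (b (a (c (a (l 1072765455) (l 1072789007))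 (a (l 1072373775) (l 1072404495))) (c (l 1072834575) (l 1072461327))) (a (a (l 1072668175) (l 1072680463)) (c (l 1072894479) (l 1072535055)))) (b (a (a (a (l 1072752655) (l 1072790031)) (l 1072789519)) (l 1072799759)) (a (a (l 1072712207) (l 1072890895)) (l 1072908303)))))), by decide +kernel⟩

def k6_B00pm_001_s3 : ∃ t, chk3 f_B00pm_001_s3 t 31 11 1 = true :=
  ⟨(c (b (a (a (b (b (l 1073464335) (l 1073453071)) (l 1073451535)) (b (b (a (l 1073512463) (l 1073560591)) (l 1073516559)) (b (l 1073504271) (l 1073500687)))) (b (a (b (b (l 1073656847) (l 1073636879)) (l 1073614351)) (b (l 1073769999) (l 1073728527))) (a (l 1073586191) (l 1073686031)))) (a (b (a (l 1073477135) (l 1073513487)) (a (l 1073550863) (l 16775008))) (b (b (l 1073617935) (l 16775656)) (b (l 16775640) (l 16775816))))) (b (a (b (a (b (l 1072617487) (l 1072624143)) (a (b (l 1072674319) (l 1072675855)) (b (l 1072728591) (l 1072723471)))) (a (l 1072652815) (b (l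 1072706575) (l 1072722959)))) (b (a (b (a (l 1072789007) (l 1072854543)) (l 1072807439)) (b (b (l 1072963087) (l 1072948239)) (l 1072931343))) (a (b (l 1072803855) (l 1072809999)) (b (l 1072917007) (l 16769312))))) (a (b (a (b (l 1072698895) (l 1072750095)) (b (l 1072749583) (l 16767792))) (a (l 1072862735) (l 1072885263))) (b (b (a (l 16768320) (l 16768312)) (l 1072900111)) (a (l 1072933903) (l 16766640)))))), by decide +kernel⟩

def k7_B00pm_001_s3 : ∃ t, chk3 f_B00pm_001_s3 t 6 6 1 = true :=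
  ⟨(b (a (a (l 4) (b (l 4) (a (l 4) (b (l 4) (a (l 1069288975) (l 1067932687)))))) (b (a (l 4) (a (b (l 4) (l 1069702159)) (b (a (l 1070272015) (l 1070466063)) (a (l 1070135311) (l 1070268431))))) (a (b (l 1069972495) (a (l 1068303887) (l 1068942351))) (a (b (l 1069662223) (l 1069572623)) (a (l 1069928463) (l 1070551567)))))) (a (b (a (l 2) (b (a (l 2) (a (l 2) (l 1068431887))) (l 2))) (l 2)) (b (a (b (a (b (l 1068175375) (l 1068133391)) (l 1068619279)) (a (b (l 1068131343) (l 2)) (l 1068475407))) (b (a (l 1069269519) (l 1069907983)) (a (l 1068932623) (l 1069591567)))) (a (b (a (l 2) (b (l 29091600471) (l 2))) (l 2)) (b (a (c (l 11911720263) (l 1068387343)) (l 1070316559)) (a (b (l 32849630951) (l 2)) (b (l 16693448) (l 16685448)))))))), by decide +kernel⟩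

def k8_B00pm_001_s3 : ∃ t, chk3 f_B00pm_001_s3 t 7 12 1 = true :=
  ⟨(a (b (a (b (l 1071147023) (a (b (l 1070628367) (l 1070468111)) (l 1071063055))) (a (b (c (l 1072339471) (l 1071430671)) (c (l 1072017423) (l 1071087631))) (a (b (l 1072244751) (l 1071904783)) (b (a (l 1072443407) (l 1072582671)) (l 1072163343))))) (a (b (a (l 1070301711) (l 1070738447)) (a (l 1070230031) (l 1070436879))) (a (b (l 1071219727) (l 1070902799)) (b (c (l 1072141327) (l 1071256079)) (c (l 16726128) (l 16732584)))))) (c (b (a (a (b (a (l 1073179663) (l 1073436687)) (l 1072957967)) (b (a (l 1073614863) (l 1073693711)) (l 1073466895))) (a (b (l 1073682959) (a (l 1073761295) (l 1073836047))) (b (l 16776528) (l 16778952)))) (a (a (b (l 16739024) (l 16750936)) (b (l 16766000) (l 16757224))) (b (a (l 1073613327) (l 1075027983)) (a (l 16765984) (l 16778144))))) (b (a (a (a (b (l 1072431119) (l 1072052239)) (b (l 1072748047) (l 1072363023))) (b (b (c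 (l 1073171471) (l 1072868879)) (a (l 1072970255) (l 1073137679))) (a (l 16751824) (l 1072997903)))) (a (b (a (l 16747144) (l 16767280)) (a (c (l 1073343503) (l 1073089039)) (l 1073311759))) (b (b (l 16766544) (l 16767096)) (l 16726992)))) (a (b (a (l 1071831055) (l 1072443919)) (a (l 16715184) (l 16700920))) (b (a (c (l 1073201167) (l 1073486351)) (b (l 16772056) (l 16730256))) (a (l 16752752) (l 16724664))))))), by decide +kernel⟩

def k9_B00pm_001_s3 : ∃ t, chk3 f_B00pm_001_s3 t 7 13 1 = true :=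
  ⟨(a (b (a (b (a (l 1070230543) (l 16728816)) (a (b (l 1070231567) (l 1070131727)) (l 1070371855))) (b (a (l 16725816) (l 16727152)) (a (l 16712696) (l 16712952)))) (a (b (a (l 1069842959) (b (l 1070394895) (l 16705208))) (a (b (l 16692496) (l 16683840)) (b (l 16695688) (a (l 16684472) (l 16685600))))) (b (a (a (l 16705896) (l 16701976)) (a (l 16698448) (l 16699704))) (a (b (a (l 16699824) (l 16697312)) (a (l 16688544) (l 16691008))) (b (a (l 16691768) (l 16687864)) (a (l 16688664) (l 16684568))))))) (a (b (a (b (l 16689152) (l 16717056)) (b (l 16695912) (l 16723976))) (b (a (b (l 16705720) (l 16697936)) (a (l 16706632) (l 16667976))) (a (b (l 16690488) (l 16682984)) (l 6)))) (b (b (a (l 16747408) (l 16760816)) (a (l 16692848) (b (l 16750920) (l 6)))) (b (a (a (l 16630512) (l 6)) (l 6)) (l 6))))), by decide +kernel⟩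

def k10_B00pm_001_s3 : ∃ t, chk3 f_B00pm_001_s3 t 3 7 1 = true :=
  ⟨(a (b (a (l 2) (b (a (l 2) (b (a (l 2) (b (a (l 2) (l 16677304)) (l 2))) (l 2))) (l 2))) (l 2)) (b (a (a (a (b (b (a (b (l 16674576) (l 16666496)) (b (l 16673336) (l 16665112))) (b (a (l 2) (l 16655896)) (l 2))) (l 2)) (b (a (b (b (l 16674176) (l 16664768)) (b (l 16655336) (l 16645392))) (b (b (l 16675368) (l 16665376)) (b (l 16655632) (l 6)))) (l 6))) (b (b (a (b (l 16689416) (a (l 16666824) (l 16669056))) (b (a (b (l 16684968) (l 16680712)) (l 6)) (l 6))) (l 6)) (l 6))) (l 6)) (l 6))), by decide +kernel⟩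

theorem t11_B00pm_001_s3 : ∃ t, chk3 f_B00pm_001_s3 t 7 6 1 = true := ex3_b k8_B00pm_001_s3 k9_B00pm_001_s3

theorem t12_B00pm_001_s3 : ∃ t, chk3 f_B00pm_001_s3 t 3 6 1 = true := ex3_a k7_B00pm_001_s3 t11_B00pm_001_s3

theorem t13_B00pm_001_s3 : ∃ t, chk3 f_B00pm_001_s3 t 3 3 1 = true := ex3_b t12_B00pm_001_s3 k10_B00pm_001_s3

theorem t14_B00pm_001_s3 : ∃ t, chk3 f_B00pm_001_s3 t 15 11 1 = true := ex3_a k5_B00pm_001_s3 k6_B00pm_001_s3

theorem t15_B00pm_001_s3 : ∃ t, chk3 f_B00pm_001_s3 t 15 5 1 = true := ex3_b k4_B00pm_001_s3 t14_B00pm_001_s3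

theorem t16_B00pm_001_s3 : ∃ t, chk3 f_B00pm_001_s3 t 7 5 1 = true := ex3_a k3_B00pm_001_s3 t15_B00pm_001_s3

theorem t17_B00pm_001_s3 : ∃ t, chk3 f_B00pm_001_s3 t 7 2 1 = true := ex3_b k2_B00pm_001_s3 t16_B00pm_001_s3

theorem t18_B00pm_001_s3 : ∃ t, chk3 f_B00pm_001_s3 t 3 2 1 = true := ex3_a k1_B00pm_001_s3 t17_B00pm_001_s3

theorem t19_B00pm_001_s3 : ∃ t, chk3 f_B00pm_001_s3 t 3 1 1 = true := ex3_b t18_B00pm_001_s3 t13_B00pm_001_s3

theorem t20_B00pm_001_s3 : ∃ t, chk3 f_B00pm_001_s3 t 1 1 1 = true := ex3_a k0_B00pm_001_s3 t19_B00pm_001_s3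

theorem c_B00pm_001_s3 : CertF 0 536870912 536870912 536870912 536870912 50465866 false true false .up 0 0 1
    ndB0q0 ndB0q1 pcB0 cut_B00pm_001_s3 xt_B00pm_001_s3 :=
  certF0 (fam := false) (s1 := true) (s2 := false) (a := 0) (b := 0) (c := 1) (cn := .up) (n1 := ndB0q0) (n2 := ndB0q1) (pc := pcB0) (cut := cut_B00pm_001_s3) (xt := xt_B00pm_001_s3) (P1 := 0) (W1 := 536870912) (P2 := 536870912) (W2 := 536870912) (P3 := 536870912) (W3 := 50465866)
    rfl t20_B00pm_001_s3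

theorem s_B00pm_001_s3 {κ x : ℝ} (hκ : κ * h0 = ken x) (hx : ((536870912 : ℕ) : ℝ) / S ≤ x)
    (hx' : x ≤ (((536870912 : ℕ) : ℝ) + (50465866 : ℕ)) / S)
    (H : CutB (VFD κ) PP tK tL pcB (Cut.of [[⟨0, 0, 1, 20971520⟩, ⟨1, 1, 2, 20971520⟩, ⟨2, 1, 0, 33554432⟩]]) 0 0 1 0 0 (sgb true) (sgb false) x) :
    AltB (VFD κ) PP tK tL pcB [⟨4, 0, 0, 2845415833⟩] 0 0 1 0 0 (sgb true) (sgb false) x :=
  strip_altBD (m := 2845415833) false rfl hκ (SH.κ0 hκ (SH.hx1 hx).le (SH.hx2 hx').le) (SH.hx1 hx).le (SH.hx2 hx') (covB00).cov (covB01).cov hx hx' c_B00pm_001_s3 H ((okx6 hx hx').extB (T := tt) (okx hx hx') (sideB hx hx') hκ rfl rfl (.O 0 true) (.O 1 false) (Or.inl rfl))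

noncomputable def cut_B00pm_011_s1 : Cut := Cut.of [[⟨4, 0, 0, 1449551462⟩], [⟨0, 0, 0, 67108864⟩, ⟨1, 1, 0, 67108864⟩, ⟨2, 1, 0, 67108864⟩], [⟨0, 0, 1, 20971520⟩, ⟨1, 1, 2, 20971520⟩, ⟨2, 1, 0, 33554432⟩]]

noncomputable def f_B00pm_011_s1 : ℕ → ℕ → ℕ → ℕ → Bool := onCell 0 536870912 536870912 536870912 536870912 50465866
    (rowF 0 false true false .pnn 0 1 1 (qsf 0 536870912 536870912 536870912 1) ndB0q0 ndB0q1 pcB1 cut_B00pm_011_s1 Ext.none)

def k0_B00pm_011_s1 : ∃ t, chk3 f_B00pm_011_s1 t 1 1 1 = true :=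
  ⟨(l 6), by decide +kernel⟩

theorem c_B00pm_011_s1 : CertF 0 536870912 536870912 536870912 536870912 50465866 false true false .pnn 0 1 1
    ndB0q0 ndB0q1 pcB1 cut_B00pm_011_s1 Ext.none :=
  certF0 (fam := false) (s1 := true) (s2 := false) (a := 0) (b := 1) (c := 1) (cn := .pnn) (n1 := ndB0q0) (n2 := ndB0q1) (pc := pcB1) (cut := cut_B00pm_011_s1) (xt := Ext.none) (P1 := 0) (W1 := 536870912) (P2 := 536870912) (W2 := 536870912) (P3 := 536870912) (W3 := 50465866)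
    rfl k0_B00pm_011_s1

theorem s_B00pm_011_s1 {κ x : ℝ} (hκ : κ * h0 = ken x) (hx : ((536870912 : ℕ) : ℝ) / S ≤ x)
    (hx' : x ≤ (((536870912 : ℕ) : ℝ) + (50465866 : ℕ)) / S)
    (H : CutB (VFD κ) PP tK tL pcB (Cut.of [[⟨0, 0, 0, 67108864⟩, ⟨1, 1, 0, 67108864⟩, ⟨2, 1, 0, 67108864⟩], [⟨0, 0, 1, 20971520⟩, ⟨1, 1, 2, 20971520⟩, ⟨2, 1, 0, 33554432⟩]]) 0 1 1 0 0 (sgb true) (sgb false) x) :
    AltB (VFD κ) PP tK tL pcB [⟨3, 0, 0, 1449551462⟩] 0 1 1 0 0 (sgb true) (sgb false) x :=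
  strip_altBD (m := 1449551462) true rfl hκ (SH.κ0 hκ (SH.hx1 hx).le (SH.hx2 hx').le) (SH.hx1 hx).le (SH.hx2 hx') (covB00).cov (covB01).cov hx hx' c_B00pm_011_s1 H (noExt_B)

noncomputable def cut_B00pm_011_s3 : Cut := Cut.of [[⟨3, 0, 0, 2845415833⟩], [⟨0, 0, 0, 67108864⟩, ⟨1, 1, 0, 67108864⟩, ⟨2, 1, 0, 67108864⟩], [⟨0, 0, 1, 20971520⟩, ⟨1, 1, 2, 20971520⟩, ⟨2, 1, 0, 33554432⟩]]

noncomputable def xt_B00pm_011_s3 : Ext := strExt6 dd false true false .u0 .u0m .s0m .pnn 0 1 1 rfl rfl gl1 vv ww ndB0q0 ndB0q1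

noncomputable def f_B00pm_011_s3 : ℕ → ℕ → ℕ → ℕ → Bool := onCell 0 536870912 536870912 536870912 536870912 50465866
    (rowF 0 false true false .pnn 0 1 1 (qsf 0 536870912 536870912 536870912 1) ndB0q0 ndB0q1 pcB1 cut_B00pm_011_s3 xt_B00pm_011_s3)

def k0_B00pm_011_s3 : ∃ t, chk3 f_B00pm_011_s3 t 2 2 1 = true :=
  ⟨(l 4), by decide +kernel⟩

def k1_B00pm_011_s3 : ∃ t, chk3 f_B00pm_011_s3 t 4 6 1 = true :=
  ⟨(l 4), by decide +kernel⟩

def k2_B00pm_011_s3 : ∃ t, chk3 f_B00pm_011_s3 t 4 14 1 = true :=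
  ⟨(b (l 4) (a (l 4) (a (l 4) (a (l 4) (b (l 4) (b (l 4) (a (l 1065025551) (l 1065066511)))))))), by decide +kernel⟩

def k3_B00pm_011_s3 : ∃ t, chk3 f_B00pm_011_s3 t 4 30 1 = true :=
  ⟨(a (b (l 4) (a (l 4) (a (l 4) (a (l 4) (b (l 4) (a (l 4) (c (l 1065422863) (l 1065067535)))))))) (a (a (b (l 4) (a (b (l 4) (a (c (l 1065454095) (l 1065102351)) (l 1065309711))) (b (a (l 1065251855) (l 1065274383)) (a (l 1065337871) (l 1065363983))))) (b (a (l 4) (b (l 4) (l 1065220111))) (a (a (b (l 1065294863) (l 1065388047)) (b (l 1065312271) (l 1065409551))) (b (l 1065328655) (a (l 1065429007) (l 1065445903)))))) (b (a (a (b (l 4) (l 1065228815)) (b (l 1065088015) (l 1065222671))) (a (b (l 1065091599) (l 1065202191)) (b (l 1065130511) (l 1065203215)))) (a (b (a (l 1065347599) (l 1065353231)) (a (b (l 1065433103) (a (l 16743528) (l 16739496))) (b (l 1065447439) (b (l 16745688) (a (l 16733616) (l 16729512)))))) (b (a (l 1065344527) (l 1065320975))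 (a (b (b (l 16734040) (l 16741008)) (b (l 16737384) (l 16723416))) (b (b (l 16736120) (l 16722072)) (l 16716912)))))))), by decide +kernel⟩

def k4_B00pm_011_s3 : ∃ t, chk3 f_B00pm_011_s3 t 8 31 1 = true :=
  ⟨(b (a (b (l 4) (l 14)) (b (b (a (l 4) (a (a (l 4) (l 1065768975)) (a (l 1065267727) (l 1065302543)))) (a (a (l 4) (a (l 4) (a (l 4) (l 1065207823)))) (a (a (c (l 1065948687) (l 1065046543)) (l 1066341903)) (a (l 1065304591) (l 1065339919))))) (b (a (a (b (l 4) (l 14)) (a (a (l 1065723407) (l 1065205263)) (a (l 1065224207) (l 1065243151)))) (a (a (c (l 1066521615) (l 1065081871)) (c (l 1065484303) (l 1065120783))) (a (l 1065340943) (l 1065377295)))) (a (a (l 14) (a (a (l 14) (l 1065240591)) (a (l 1065259535) (l 1065278479)))) (a (a (a (l 1065297423) (l 1065316367)) (b (l 1065331215) (a (b (l 16757776) (a (l 16756336) (l 16760560))) (b (l 16761000) (l 16759040))))) (b (b (a (l 16761840) (a (l 16753576) (l 16751568))) (a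 (a (l 16755672) (l 16758904)) (c (l 16756440) (l 16760552)))) (a (a (b (l 16758976) (l 16751792)) (l 16750744)) (l 16747744)))))))) (a (l 14) (a (b (b (a (l 14) (a (l 14) (a (l 14) (b (b (l 16759960) (l 14)) (l 14))))) (l 14)) (l 14)) (a (a (b (b (b (a (b (c (l 16763592) (l 16757496)) (l 16761192)) (b (a (l 16761640) (l 16755384)) (l 16753928))) (l 16757232)) (b (l 16748040) (l 14))) (l 14)) (b (b (b (l 16757120) (l 16747960)) (b (l 16744032) (l 16740088))) (b (b (l 16736136) (l 14)) (l 14)))) (b (a (b (b (l 16747864) (l 16743968)) (l 16743336)) (b (l 16752424) (l 16744640))) (b (b (c (l 16741736) (l 16739712)) (l 16726304)) (l 16730864))))))), by decide +kernel⟩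

def k5_B00pm_011_s3 : ∃ t, chk3 f_B00pm_011_s3 t 9 31 1 = true :=
  ⟨(b (a (a (b (a (a (c (l 1065531407) (l 1065177615)) (l 1065926159)) (a (l 1065420303) (b (l 1065428495) (b (l 16750752) (b (l 16747944) (l 16746080)))))) (b (a (b (a (l 1065403407) (c (l 16757032) (l 16750680))) (a (a (l 16757688) (a (l 16756184) (l 16755176))) (b (c (l 16759472) (l 16758256)) (l 16746472)))) (b (a (b (l 16748192) (l 16756768)) (l 16753720)) (l 16741464))) (a (b (a (l 16752832) (l 16743616)) (l 16752256)) (c (l 16747128) (l 16734912))))) (b (a (b (a (l 1065455119) (l 1065479695)) (b (a (l 16746744) (c (l 16753928) (l 16752552))) (a (b (l 16743960) (l 16742072)) (l 16739032)))) (b (b (l 16754600) (a (l 16742464) (l 16748920))) (a (b (l 16749224) (l 16735072)) (l 16732944)))) (a (b (c (l 16736272) (l 16734576)) (l 16738432)) (b (l 16727552) (l 16720152))))) (b (a (a (b (a (b (l 16738096) (l 16734416)) (l 16742680)) (l 16726984)) (b (l 16726208)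 (l 16719032))) (a (l 16725072) (l 16706472))) (a (a (c (l 16727688) (l 16714872)) (l 16718720)) (a (l 16700400) (l 16692496))))) (b (b (a (a (a (c (l 16742120) (l 16745608)) (c (l 16729200) (l 16727144))) (a (l 16730912) (l 16712720))) (a (a (l 16705048) (l 16697392)) (a (l 16689720) (l 16681976)))) (a (a (a (c (l 16739808) (l 16727240)) (a (l 16722480) (l 16729112))) (a (a (l 16725280) (l 16731944)) (a (l 16707160) (l 16703352)))) (a (a (l 16697656) (l 16690080)) (l 16678712)))) (b (a (a (a (a (a (l 16733896) (l 16721480)) (l 16729072)) (l 16723336)) (c (l 16703040) (l 16699936))) (a (l 16686504) (l 16671544))) (a (a (a (l 16712696) (l 16705120)) (c (l 16695592) (l 16692176))) (a (l 16679096) (l 16664352)))))), by decide +kernel⟩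

def k6_B00pm_011_s3 : ∃ t, chk3 f_B00pm_011_s3 t 5 6 1 = true :=
  ⟨(a (l 4) (b (l 4) (b (l 4) (a (b (l 4) (a (l 4) (l 1063361039))) (b (a (l 4) (b (c (l 1064215055) (l 1063629327)) (l 1063622671))) (a (l 1064778255) (l 1064637455))))))), by decide +kernel⟩

def k7_B00pm_011_s3 : ∃ t, chk3 f_B00pm_011_s3 t 5 14 1 = true :=
  ⟨(a (a (b (l 4) (a (b (l 4) (a (b (l 1065542159) (l 1065626127)) (b (l 1065007631) (l 1065104911)))) (b (a (a (l 1064825359) (l 1064802319)) (c (b (l 1064780303) (l 1064924175)) (l 1064651791))) (b (a (l 1064993807) (l 1064962063)) (a (l 1065105935) (l 1065090063)))))) (b (b (l 4) (b (a (l 4) (c (l 1063858703) (l 1063799823))) (a (a (l 4) (l 1064303119)) (l 1065672719)))) (a (a (b (a (l 1065240079) (l 1064659471)) (b (l 1064911375) (l 1065055759))) (b (l 1064582671) (b (l 1064840207) (l 1065001999)))) (a (b (l 1064461327) (c (l 1064894479) (l 1064776719))) (b (l 1064314895) (l 1064734223)))))) (b (a (b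 (a (a (a (l 1064792591) (l 1063109647)) (l 1063019023)) (a (l 1062928399) (l 1063467535))) (a (a (b (b (l 1063985167) (l 1063561231)) (l 1063740431)) (b (l 1063378959) (l 1063615503))) (b (a (l 1063263247) (l 1063153679)) (l 1063709711)))) (b (a (a (l 1063030799) (l 1063203855)) (a (l 1063390735) (l 1063589903))) (b (a (c (l 1063875599) (l 1063728143)) (a (l 1063338511) (l 1063529999))) (a (a (l 1063281167) (l 1063758863)) (c (l 1064402959) (l 1063981071)))))) (b (a (a (a (l 1065217551) (l 1063982607)) (a (l 1063851535) (l 1064279567))) (a (a (l 1064177167) (c (l 1064062991) (l 1063595023))) (b (c (a (l 1064050191) (l 1063992847)) (l 1064558095)) (a (l 1064208911) (a (l 1064554511) (b (l 1064221199) (b (l 16656160) (l 16652736)))))))) (a (a (a (l 1065141775) (b (l 16720528) (c (l 16707072) (l 16706904)))) (b (l 1064166415) (a (a (l 16698976) (l 16672504)) (l 16674600)))) (b (b (a (l 1063889423) (a (c (l 16659552) (l 16648000))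 (a (l 16662400) (l 16657776)))) (a (a (l 16663288) (l 16672752)) (a (l 16640952) (l 16652896)))) (a (b (l 16671600) (l 16644088)) (c (l 16648080) (l 16646704)))))))), by decide +kernel⟩

def k8_B00pm_011_s3 : ∃ t, chk3 f_B00pm_011_s3 t 5 30 1 = true :=
  ⟨(a (a (b (a (a (b (l 1065166351) (l 1065240591)) (b (l 1065196047) (l 1065280527))) (a (b (l 1065210895) (l 1065308175)) (b (l 1065209359) (b (l 16718968) (c (l 16717944) (l 16721744)))))) (a (b (a (b (l 1065290767) (a (l 16734984) (b (l 16722064) (l 16718408)))) (b (a (l 16723440) (l 16719408)) (b (l 16726440) (l 16712432)))) (a (b (l 16725840) (l 16708552)) (b (l 16707152) (l 16700224)))) (b (a (b (a (l 16715280) (l 16711088)) (l 16706112)) (b (l 16704808) (l 16697840))) (a (l 16695600) (l 16687400))))) (b (a (b (a (l 1065191439) (l 1065154575)) (a (b (l 16720912) (c (l 16714456) (l 16702528))) (b (c (l 16712616) (l 16700792)) (l 16694496)))) (a (b (b (l 16706016) (l 16709760))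 (a (l 16691008) (l 16686408))) (b (b (l 16696440) (l 16694728)) (l 16679152)))) (a (a (b (l 16692832) (l 16678992)) (b (l 16684040) (l 16670328))) (a (b (l 16674936) (l 16661368)) (b (l 16665464) (l 16652048)))))) (a (b (b (a (a (b (l 16707272) (l 16679408)) (l 16693160)) (l 16661432)) (a (a (l 16669088) (l 16658712)) (l 16642832))) (b (a (a (l 16655568) (l 16645376)) (l 16629760)) (a (c (l 16658608) (l 16637008)) (l 16617008)))) (a (a (b (l 16654112) (l 16628528)) (b (l 16664048) (l 16638824))) (b (a (l 16652936) (l 16622848)) (l 16602328))))), by decide +kernel⟩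

def k9_B00pm_011_s3 : ∃ t, chk3 f_B00pm_011_s3 t 5 31 1 = true :=
  ⟨(a (b (b (a (a (a (l 16708752) (b (l 16693384) (l 16686592))) (a (b (l 16685224) (l 16678424)) (l 16673696))) (a (c (l 16672688) (l 16660096)) (c (l 16644320) (l 16642688)))) (a (a (a (l 16684512) (l 16676416)) (a (b (l 16671672) (l 16664960)) (b (l 16663592) (l 16656960)))) (a (b (l 16651232) (l 16644656)) (b (l 16633888) (l 16627416))))) (a (b (a (b (l 16670176) (l 16663296)) (a (l 16654784) (l 16646848))) (a (l 16652904) (l 16647944))) (a (b (l 16634800) (l 16621704)) (b (l 16617984) (l 16605424))))) (b (b (a (a (c (l 16666832) (l 16624096)) (l 16604584)) (c (l 16614624) (l 16616536))) (a (a (b (l 16657128) (l 16609056)) (l 16592576)) (b (l 16607200) (l 16601896)))) (a (a (b (l 16600008) (l 16588064)) (a (l 16580208) (l 16612760))) (a (l 16556512) (l 16537112))))), by decide +kernel⟩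

def k10_B00pm_011_s3 : ∃ t, chk3 f_B00pm_011_s3 t 3 2 1 = true :=
  ⟨(a (b (l 1) (l 4)) (l 1)), by decide +kernel⟩

def k11_B00pm_011_s3 : ∃ t, chk3 f_B00pm_011_s3 t 3 6 1 = true :=
  ⟨(a (b (a (a (l 4) (b (l 4) (a (l 4) (b (l 4) (a (b (l 4) (l 1066743823)) (l 1067793935)))))) (b (l 1) (a (b (l 1) (a (l 1067637263) (l 1))) (l 1)))) (a (b (a (b (l 4) (a (l 1064275471) (l 1064908303))) (a (b (l 1065878543) (l 1065623055)) (b (a (l 1066510351) (l 1067021839)) (l 1066416655)))) (a (b (a (a (b (l 1064036879) (l 1063978511)) (b (l 1064314383) (l 1064245263))) (b (l 1064768015) (l 1064681487))) (a (a (l 1063897615) (l 1064149519)) (c (l 1065150479) (l 1064498191)))) (b (a (l 1065388559) (b (l 1066200079) (l 1066062351))) (a (l 1065712143) (l 1065868303))))) (b (a (b (a (b (l 1067490831) (l 1067373071)) (l 1067938319)) (a (b (l 1067246095) (l 1067107343)) (l 1067738639))) (b (l 1) (a (l 1068237327) (l 1)))) (a (b (a (b (l 1066955279)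 (l 16728576)) (b (l 16732280) (l 16700400))) (a (b (l 16695352) (l 16682528)) (b (l 16688800) (l 16676584)))) (b (a (b (l 16704944) (l 16694680)) (b (l 1) (l 16690696))) (a (b (l 16683768) (l 16672264)) (b (l 16680480) (a (l 16670168) (l 16669192))))))))) (b (l 1) (a (b (l 1) (a (b (l 1) (a (b (l 1) (a (l 16668136) (l 1))) (l 1))) (l 1))) (l 1)))), by decide +kernel⟩

def k12_B00pm_011_s3 : ∃ t, chk3 f_B00pm_011_s3 t 12 14 1 = true :=
  ⟨(b (a (b (a (b (l 1063937551) (l 1064425999)) (b (l 1064445967) (l 1064377359))) (a (b (a (l 1063733775) (l 1063953423)) (c (l 1064831503) (l 1063813647))) (a (b (l 1064188943) (l 1064129551)) (c (l 1064421903) (l 1064385551))))) (b (a (b (l 1065028111) (l 1064937999)) (b (l 1065685007) (l 1065571855))) (b (a (c (l 1064897039) (l 16655432)) (c (l 16648144) (l 16645616))) (b (a (l 16644376) (a (l 16637296) (l 16633976))) (a (c (l 16658120) (l 16636192)) (a (l 16629672) (l 16626696))))))) (a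 (b (a (a (b (l 1063640591) (b (l 16651752) (a (b (l 16660904) (l 16647568)) (l 16653024)))) (b (l 1063849999) (c (b (l 16653864) (l 16645528)) (l 16651368)))) (c (b (b (l 16660832) (a (l 16655656) (l 16649448))) (a (l 16643264) (l 16617200))) (b (a (l 16660672) (l 16654032)) (a (l 16644488) (l 16617784))))) (a (a (b (c (a (l 16645248) (l 16639696)) (l 16645176)) (a (l 16635816) (l 16630968))) (b (l 16634896) (c (l 16624056) (l 16642296)))) (b (l 16626024) (l 16610304)))) (b (b (a (b (a (l 16631160) (l 16626136)) (l 16642296)) (c (l 16619072) (l 16616728))) (a (l 16631512) (l 16604096))) (a (a (l 16621672) (l 16628424)) (c (l 16625272) (l 16623488)))))), by decide +kernel⟩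

def k13_B00pm_011_s3 : ∃ t, chk3 f_B00pm_011_s3 t 13 14 1 = true :=
  ⟨(b (a (a (a (b (l 1066145295) (b (l 16642384) (c (l 16629432) (l 16625824)))) (b (l 1066469391) (b (c (l 16663064) (l 16637640)) (l 16626400)))) (b (b (l 16663768) (a (l 16651416) (l 16649744))) (b (b (a (l 16641168) (l 16639248)) (l 16633816)) (l 16624624)))) (b (a (a (b (l 16660824) (a (l 16648648) (l 16668856))) (b (l 16659424) (b (l 16650264) (l 16643944)))) (a (b (l 16658904) (c (l 16671472) (l 16641880))) (b (b (l 16660784) (l 16654912)) (l 16646688)))) (a (b (l 16656504) (l 16623600)) (b (a (l 16635424) (l 16635624)) (l 16666032))))) (b (b (a (a (l 16614096) (l 16611960)) (a (l 16611424) (l 16612424))) (a (a (l 16600656) (l 16598992)) (a (l 16598976) (l 16600528)))) (a (a (c (l 16623648) (l 16577760)) (c (l 16581976) (l 16575752))) (a (c (l 16604952) (l 16575400)) (l 6))))), by decide +kernel⟩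

def k14_B00pm_011_s3 : ∃ t, chk3 f_B00pm_011_s3 t 6 15 1 = true :=
  ⟨(a (b (b (a (b (a (a (l 16599752) (l 16611384)) (c (l 16594504) (l 16595888))) (a (l 16625088) (a (l 16611432) (l 16599288)))) (a (c (l 16597904) (l 16599560)) (c (l 16594320) (l 16593856)))) (a (a (l 16586440) (b (c (l 16556248) (l 16552168)) (l 16543992))) (a (b (l 16563840) (a (l 16530176) (l 16558424))) (b (l 16528368) (l 6))))) (a (b (a (l 16563192) (l 16569000)) (b (l 16558568) (l 6))) (b (l 6) (l 6)))) (b (a (b (a (l 16597832) (c (l 16553496) (l 16548144))) (l 6)) (l 6)) (l 6))), by decide +kernel⟩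

def k15_B00pm_011_s3 : ∃ t, chk3 f_B00pm_011_s3 t 7 7 1 = true :=
  ⟨(b (a (a (b (b (a (a (b (b (l 16660200) (l 16654336)) (l 16646216)) (b (a (l 16676976) (l 1)) (l 16645304))) (a (b (l 1) (l 16643912)) (l 1))) (a (a (b (l 16635416) (l 16624584)) (b (l 16634624) (l 16624208))) (a (b (l 16633344) (l 16623056)) (b (l 9160100023) (l 6))))) (a (b (a (l 16649696) (l 6)) (l 6)) (l 6))) (b (b (l 1) (l 6)) (l 6))) (l 6)) (l 6)), by decide +kernel⟩

theorem t16_B00pm_011_s3 : ∃ t, chk3 f_B00pm_011_s3 t 6 14 1 = true := ex3_a k12_B00pm_011_s3 k13_B00pm_011_s3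

theorem t17_B00pm_011_s3 : ∃ t, chk3 f_B00pm_011_s3 t 6 7 1 = true := ex3_b t16_B00pm_011_s3 k14_B00pm_011_s3

theorem t18_B00pm_011_s3 : ∃ t, chk3 f_B00pm_011_s3 t 3 7 1 = true := ex3_a t17_B00pm_011_s3 k15_B00pm_011_s3

theorem t19_B00pm_011_s3 : ∃ t, chk3 f_B00pm_011_s3 t 3 3 1 = true := ex3_b k11_B00pm_011_s3 t18_B00pm_011_s3

theorem t20_B00pm_011_s3 : ∃ t, chk3 f_B00pm_011_s3 t 3 1 1 = true := ex3_b k10_B00pm_011_s3 t19_B00pm_011_s3

theorem t21_B00pm_011_s3 : ∃ t, chk3 f_B00pm_011_s3 t 5 15 1 = true := ex3_b k8_B00pm_011_s3 k9_B00pm_011_s3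

theorem t22_B00pm_011_s3 : ∃ t, chk3 f_B00pm_011_s3 t 5 7 1 = true := ex3_b k7_B00pm_011_s3 t21_B00pm_011_s3

theorem t23_B00pm_011_s3 : ∃ t, chk3 f_B00pm_011_s3 t 5 3 1 = true := ex3_b k6_B00pm_011_s3 t22_B00pm_011_s3

theorem t24_B00pm_011_s3 : ∃ t, chk3 f_B00pm_011_s3 t 4 31 1 = true := ex3_a k4_B00pm_011_s3 k5_B00pm_011_s3

theorem t25_B00pm_011_s3 : ∃ t, chk3 f_B00pm_011_s3 t 4 15 1 = true := ex3_b k3_B00pm_011_s3 t24_B00pm_011_s3

theorem t26_B00pm_011_s3 : ∃ t, chk3 f_B00pm_011_s3 t 4 7 1 = true := ex3_b k2_B00pm_011_s3 t25_B00pm_011_s3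

theorem t27_B00pm_011_s3 : ∃ t, chk3 f_B00pm_011_s3 t 4 3 1 = true := ex3_b k1_B00pm_011_s3 t26_B00pm_011_s3

theorem t28_B00pm_011_s3 : ∃ t, chk3 f_B00pm_011_s3 t 2 3 1 = true := ex3_a t27_B00pm_011_s3 t23_B00pm_011_s3

theorem t29_B00pm_011_s3 : ∃ t, chk3 f_B00pm_011_s3 t 2 1 1 = true := ex3_b k0_B00pm_011_s3 t28_B00pm_011_s3

theorem t30_B00pm_011_s3 : ∃ t, chk3 f_B00pm_011_s3 t 1 1 1 = true := ex3_a t29_B00pm_011_s3 t20_B00pm_011_s3

theorem c_B00pm_011_s3 : CertF 0 536870912 536870912 536870912 536870912 50465866 false true false .pnn 0 1 1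
    ndB0q0 ndB0q1 pcB1 cut_B00pm_011_s3 xt_B00pm_011_s3 :=
  certF0 (fam := false) (s1 := true) (s2 := false) (a := 0) (b := 1) (c := 1) (cn := .pnn) (n1 := ndB0q0) (n2 := ndB0q1) (pc := pcB1) (cut := cut_B00pm_011_s3) (xt := xt_B00pm_011_s3) (P1 := 0) (W1 := 536870912) (P2 := 536870912) (W2 := 536870912) (P3 := 536870912) (W3 := 50465866)
    rfl t30_B00pm_011_s3

theorem s_B00pm_011_s3 {κ x : ℝ} (hκ : κ * h0 = ken x) (hx : ((536870912 : ℕ) : ℝ) / S ≤ x)
    (hx' : x ≤ (((536870912 : ℕ) : ℝ) + (50465866 : ℕ)) / S)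
    (H : CutB (VFD κ) PP tK tL pcB (Cut.of [[⟨0, 0, 0, 67108864⟩, ⟨1, 1, 0, 67108864⟩, ⟨2, 1, 0, 67108864⟩], [⟨0, 0, 1, 20971520⟩, ⟨1, 1, 2, 20971520⟩, ⟨2, 1, 0, 33554432⟩]]) 0 1 1 0 0 (sgb true) (sgb false) x) :
    AltB (VFD κ) PP tK tL pcB [⟨4, 0, 0, 2845415833⟩] 0 1 1 0 0 (sgb true) (sgb false) x :=
  strip_altBD (m := 2845415833) false rfl hκ (SH.κ0 hκ (SH.hx1 hx).le (SH.hx2 hx').le) (SH.hx1 hx).le (SH.hx2 hx') (covB00).cov (covB01).cov hx hx' c_B00pm_011_s3 H ((okx6 hx hx').extB (T := tt) (okx hx hx') (sideB hx hx') hκ rfl rfl (.O 0 true) (.O 1 false) (Or.inr rfl))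

noncomputable def cut_B00pm_012_s1 : Cut := Cut.of [[⟨4, 0, 0, 1449551462⟩], [⟨0, 0, 0, 67108864⟩, ⟨1, 1, 0, 67108864⟩, ⟨2, 1, 0, 67108864⟩], [⟨0, 0, 1, 20971520⟩, ⟨1, 1, 2, 20971520⟩, ⟨2, 1, 0, 33554432⟩]]

noncomputable def f_B00pm_012_s1 : ℕ → ℕ → ℕ → ℕ → Bool := onCell 0 536870912 0 536870912 536870912 50465866
    (rowF 0 false true false .pnp 0 1 2 (qsf 0 536870912 0 536870912 1) ndB0q0 ndB0q2 pcB1 cut_B00pm_012_s1 Ext.none)

def k0_B00pm_012_s1 : ∃ t, chk3 f_B00pm_012_s1 t 1 1 1 = true :=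
  ⟨(a (l 6) (b (a (b (a (l 6) (b (a (l 6) (b (a (l 6) (l 6)) (l 6))) (l 6))) (l 6)) (b (a (b (a (b (a (l 16623544) (l 16632112)) (l 6)) (a (b (l 16642088) (l 16621784)) (b (l 16653456) (l 16632592)))) (l 6)) (b (a (a (b (l 16686776) (l 16644440)) (b (b (l 16683696) (l 16672712)) (l 16656456))) (b (a (b (l 16695576) (l 16684616)) (b (l 16727592) (l 16695392))) (a (c (l 16671632) (l 16686096)) (l 16699424)))) (b (a (a (l 16622192) (l 16633704)) (a (a (l 16642496) (l 16648144)) (l 16653968))) (a (l 6) (a (b (a (l 16623504) (l 16628544)) (l 6)) (c (l 16628720) (l 16622472))))))) (l 6))) (l 6))), by decide +kernel⟩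

theorem c_B00pm_012_s1 : CertF 0 536870912 0 536870912 536870912 50465866 false true false .pnp 0 1 2
    ndB0q0 ndB0q2 pcB1 cut_B00pm_012_s1 Ext.none :=
  certF0 (fam := false) (s1 := true) (s2 := false) (a := 0) (b := 1) (c := 2) (cn := .pnp) (n1 := ndB0q0) (n2 := ndB0q2) (pc := pcB1) (cut := cut_B00pm_012_s1) (xt := Ext.none) (P1 := 0) (W1 := 536870912) (P2 := 0) (W2 := 536870912) (P3 := 536870912) (W3 := 50465866)
    rfl k0_B00pm_012_s1

theorem s_B00pm_012_s1 {κ x : ℝ} (hκ : κ * h0 = ken x) (hx : ((536870912 : ℕ) : ℝ) / S ≤ x)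
    (hx' : x ≤ (((536870912 : ℕ) : ℝ) + (50465866 : ℕ)) / S)
    (H : CutB (VFD κ) PP tK tL pcB (Cut.of [[⟨0, 0, 0, 67108864⟩, ⟨1, 1, 0, 67108864⟩, ⟨2, 1, 0, 67108864⟩], [⟨0, 0, 1, 20971520⟩, ⟨1, 1, 2, 20971520⟩, ⟨2, 1, 0, 33554432⟩]]) 0 1 2 0 0 (sgb true) (sgb false) x) :
    AltB (VFD κ) PP tK tL pcB [⟨3, 0, 0, 1449551462⟩] 0 1 2 0 0 (sgb true) (sgb false) x :=
  strip_altBD (m := 1449551462) true rfl hκ (SH.κ0 hκ (SH.hx1 hx).le (SH.hx2 hx').le) (SH.hx1 hx).le (SH.hx2 hx') (covB00).cov (covB02).cov hx hx' c_B00pm_012_s1 H (noExt_B)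

noncomputable def cut_B00pm_012_s3 : Cut := Cut.of [[⟨3, 0, 0, 2845415833⟩], [⟨0, 0, 0, 67108864⟩, ⟨1, 1, 0, 67108864⟩, ⟨2, 1, 0, 67108864⟩], [⟨0, 0, 1, 20971520⟩, ⟨1, 1, 2, 20971520⟩, ⟨2, 1, 0, 33554432⟩]]

noncomputable def f_B00pm_012_s3 : ℕ → ℕ → ℕ → ℕ → Bool := onCell 0 536870912 0 536870912 536870912 50465866
    (rowF 0 false true false .pnp 0 1 2 (qsf 0 536870912 0 536870912 1) ndB0q0 ndB0q2 pcB1 cut_B00pm_012_s3 Ext.none)

def k0_B00pm_012_s3 : ∃ t, chk3 f_B00pm_012_s3 t 1 1 1 = true :=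
  ⟨(a (b (l 6) (a (b (a (l 2) (a (a (a (l 2) (l 6)) (l 6)) (l 6))) (b (a (a (l 2) (a (b (l 2) (l 14)) (b (a (l 2) (l 16623088)) (b (l 16642264) (l 16641992))))) (b (a (a (b (l 16587608) (l 16601048)) (l 16584416)) (a (l 16574656) (l 6))) (a (a (a (l 16625464) (l 16619680)) (a (l 16655920) (l 16608344))) (b (l 16629832) (l 16642800))))) (a (a (l 14) (a (l 14) (a (l 14) (b (b (l 16654904) (l 16671608)) (b (l 16710000) (b (l 16702512) (b (l 16709408) (l 16714072)))))))) (b (a (b (a (l 16645328) (l 16632856)) (a (l 16682480) (l 16648328))) (a (b (l 16620624) (l 16635384)) (b (l 16608448) (l 16622504)))) (b (a (a (b (l 16674072) (l 16682688)) (l 16685496)) (a (l 16650872) (l 16637288))) (a (a (b (l 16691488) (a (l 16704200) (l 16696744))) (b (l 16677088) (a (l 16689368) (l 16682064)))) (a (a (l 16691616) (l 16663504)) (a (l 16656360) (l 16649200))))))))) (b (l 6) (b (a (b (l 6) (a (a (l 16577608) (l 16565992)) (l 6))) (l 6)) (a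 (b (a (a (l 16644808) (l 16589824)) (a (l 16576184) (l 16603632))) (a (a (b (l 16623552) (l 16648824)) (b (l 16609448) (l 16623520))) (b (a (l 16594744) (l 16579384)) (a (b (l 16604696) (l 16611640)) (l 16592408))))) (b (l 6) (a (a (b (l 16563256) (l 16575688)) (b (l 6) (l 16600072))) (b (l 6) (b (l 6) (l 16533672)))))))))) (b (l 6) (a (l 6) (l 6)))), by decide +kernel⟩

theorem c_B00pm_012_s3 : CertF 0 536870912 0 536870912 536870912 50465866 false true false .pnp 0 1 2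
    ndB0q0 ndB0q2 pcB1 cut_B00pm_012_s3 Ext.none :=
  certF0 (fam := false) (s1 := true) (s2 := false) (a := 0) (b := 1) (c := 2) (cn := .pnp) (n1 := ndB0q0) (n2 := ndB0q2) (pc := pcB1) (cut := cut_B00pm_012_s3) (xt := Ext.none) (P1 := 0) (W1 := 536870912) (P2 := 0) (W2 := 536870912) (P3 := 536870912) (W3 := 50465866)
    rfl k0_B00pm_012_s3

theorem s_B00pm_012_s3 {κ x : ℝ} (hκ : κ * h0 = ken x) (hx : ((536870912 : ℕ) : ℝ) / S ≤ x)
    (hx' : x ≤ (((536870912 : ℕ) : ℝ) + (50465866 : ℕ)) / S)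
    (H : CutB (VFD κ) PP tK tL pcB (Cut.of [[⟨0, 0, 0, 67108864⟩, ⟨1, 1, 0, 67108864⟩, ⟨2, 1, 0, 67108864⟩], [⟨0, 0, 1, 20971520⟩, ⟨1, 1, 2, 20971520⟩, ⟨2, 1, 0, 33554432⟩]]) 0 1 2 0 0 (sgb true) (sgb false) x) :
    AltB (VFD κ) PP tK tL pcB [⟨4, 0, 0, 2845415833⟩] 0 1 2 0 0 (sgb true) (sgb false) x :=
  strip_altBD (m := 2845415833) false rfl hκ (SH.κ0 hκ (SH.hx1 hx).le (SH.hx2 hx').le) (SH.hx1 hx).le (SH.hx2 hx') (covB00).cov (covB02).cov hx hx' c_B00pm_012_s3 H (noExt_B)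

noncomputable def cut_B00pm_022_s1 : Cut := Cut.of [[⟨4, 0, 0, 1449551462⟩], [⟨0, 0, 0, 67108864⟩, ⟨1, 1, 0, 67108864⟩, ⟨2, 1, 0, 67108864⟩]]

noncomputable def f_B00pm_022_s1 : ℕ → ℕ → ℕ → ℕ → Bool := onCell 1073741824 536870912 0 536870912 536870912 50465866
    (rowF 2 false true false .pp 0 2 2 (qsf 0 536870912 0 536870912 2) ndB0q0 ndB0q2 pcB2 cut_B00pm_022_s1 Ext.none)

def k0_B00pm_022_s1 : ∃ t, chk3 f_B00pm_022_s1 t 1 1 1 = true :=
  ⟨(l 6), by decide +kernel⟩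

theorem c_B00pm_022_s1 : CertF 0 536870912 0 536870912 536870912 50465866 false true false .pp 0 2 2
    ndB0q0 ndB0q2 pcB2 cut_B00pm_022_s1 Ext.none :=
  certF2 (fam := false) (s1 := true) (s2 := false) (a := 0) (b := 2) (c := 2) (cn := .pp) (n1 := ndB0q0) (n2 := ndB0q2) (pc := pcB2) (cut := cut_B00pm_022_s1) (xt := Ext.none) (P1 := 0) (W1 := 536870912) (P2 := 0) (W2 := 536870912) (P3 := 536870912) (W3 := 50465866)
    rfl (fun _ => rfl) k0_B00pm_022_s1

theorem s_B00pm_022_s1 {κ x : ℝ} (hκ : κ * h0 = ken x) (hx : ((536870912 : ℕ) : ℝ) / S ≤ x)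
    (hx' : x ≤ (((536870912 : ℕ) : ℝ) + (50465866 : ℕ)) / S)
    (H : CutB (VFD κ) PP tK tL pcB (Cut.of [[⟨0, 0, 0, 67108864⟩, ⟨1, 1, 0, 67108864⟩, ⟨2, 1, 0, 67108864⟩]]) 0 2 2 0 0 (sgb true) (sgb false) x) :
    AltB (VFD κ) PP tK tL pcB [⟨3, 0, 0, 1449551462⟩] 0 2 2 0 0 (sgb true) (sgb false) x :=
  strip_altBD (m := 1449551462) true rfl hκ (SH.κ0 hκ (SH.hx1 hx).le (SH.hx2 hx').le) (SH.hx1 hx).le (SH.hx2 hx') (covB00).cov (covB02).cov hx hx' c_B00pm_022_s1 H (noExt_B)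

noncomputable def cut_B00pm_022_s3 : Cut := Cut.of [[⟨3, 0, 0, 2845415833⟩], [⟨0, 0, 0, 67108864⟩, ⟨1, 1, 0, 67108864⟩, ⟨2, 1, 0, 67108864⟩]]

noncomputable def f_B00pm_022_s3 : ℕ → ℕ → ℕ → ℕ → Bool := onCell 0 536870912 0 536870912 536870912 50465866
    (rowF 0 false true false .pp 0 2 2 (qsf 0 536870912 0 536870912 2) ndB0q0 ndB0q2 pcB2 cut_B00pm_022_s3 Ext.none)

def k0_B00pm_022_s3 : ∃ t, chk3 f_B00pm_022_s3 t 1 1 1 = true :=
  ⟨(a (b (l 6) (a (b (b (l 6) (a (a (a (b (b (a (b (l 6) (l 16583680)) (l 6)) (a (a (b (l 16591320) (l 16598008)) (l 16602856)) (a (l 16590032) (l 16587648)))) (a (a (b (a (b (l 16605440) (l 16612440)) (b (l 16604248) (l 16611208))) (b (a (l 16619560) (l 16618296)) (b (l 16624344) (l 16628000)))) (b (b (l 16602440) (l 16609352)) (b (l 16616384) (l 16623552)))) (a (b (l 16613912) (l 16617360)) (b (l 16600904) (l 16614696))))) (a (b (b (l 6) (b (l 6) (l 16587184))) (b (a (l 16598344) (l 16595744))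 (a (l 16611992) (l 16609248)))) (b (l 6) (b (l 16591776) (l 16636512))))) (a (b (l 6) (b (a (l 16586360) (l 16580864)) (a (l 16599328) (l 16593448)))) (b (l 6) (b (l 6) (l 16585104))))) (b (l 6) (a (l 6) (l 1))))) (a (a (b (b (a (a (a (b (b (b (l 16631688) (l 16635424)) (a (l 16641784) (l 16640416))) (b (a (l 16649520) (l 16648120)) (l 14))) (b (b (l 16630872) (l 16638344)) (b (l 16645992) (l 14)))) (b (a (l 16631856) (l 16629048)) (a (l 16647008) (l 16644056)))) (b (a (b (l 16621136) (l 16628352)) (l 16650344)) (a (a (l 16641056) (l 16638016)) (l 16633368)))) (l 14)) (l 14)) (a (b (b (b (a (l 16612856) (l 16606664)) (l 16644760)) (l 14)) (l 14)) (b (b (b (l 16597616) (l 16610848)) (b (l 16635200) (l 16639168))) (l 1)))) (a (a (b (b (b (l 16585208) (l 16597416)) (l 1)) (l 1)) (l 1)) (l 1)))) (b (l 1) (l 1)))) (l 1)), by decide +kernel⟩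

theorem c_B00pm_022_s3 : CertF 0 536870912 0 536870912 536870912 50465866 false true false .pp 0 2 2
    ndB0q0 ndB0q2 pcB2 cut_B00pm_022_s3 Ext.none :=
  certF0 (fam := false) (s1 := true) (s2 := false) (a := 0) (b := 2) (c := 2) (cn := .pp) (n1 := ndB0q0) (n2 := ndB0q2) (pc := pcB2) (cut := cut_B00pm_022_s3) (xt := Ext.none) (P1 := 0) (W1 := 536870912) (P2 := 0) (W2 := 536870912) (P3 := 536870912) (W3 := 50465866)
    rfl k0_B00pm_022_s3

theorem s_B00pm_022_s3 {κ x : ℝ} (hκ : κ * h0 = ken x) (hx : ((536870912 : ℕ) : ℝ) / S ≤ x)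
    (hx' : x ≤ (((536870912 : ℕ) : ℝ) + (50465866 : ℕ)) / S)
    (H : CutB (VFD κ) PP tK tL pcB (Cut.of [[⟨0, 0, 0, 67108864⟩, ⟨1, 1, 0, 67108864⟩, ⟨2, 1, 0, 67108864⟩]]) 0 2 2 0 0 (sgb true) (sgb false) x) :
    AltB (VFD κ) PP tK tL pcB [⟨4, 0, 0, 2845415833⟩] 0 2 2 0 0 (sgb true) (sgb false) x :=
  strip_altBD (m := 2845415833) false rfl hκ (SH.κ0 hκ (SH.hx1 hx).le (SH.hx2 hx').le) (SH.hx1 hx).le (SH.hx2 hx') (covB00).cov (covB02).cov hx hx' c_B00pm_022_s3 H (noExt_B)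

noncomputable def cut_B00pm_101_s1 : Cut := Cut.of [[⟨4, 0, 0, 1449551462⟩], [⟨0, 1, 0, 67108864⟩, ⟨1, 0, 0, 67108864⟩, ⟨2, 1, 0, 67108864⟩], [⟨0, 0, 1, 20971520⟩, ⟨1, 1, 2, 20971520⟩, ⟨2, 1, 0, 33554432⟩]]

noncomputable def f_B00pm_101_s1 : ℕ → ℕ → ℕ → ℕ → Bool := onCell 536870912 536870912 536870912 536870912 536870912 50465866
    (rowF 0 false true false .npn 1 0 1 (qsf 536870912 536870912 536870912 536870912 0) ndB0q1 ndB0q1 pcB0 cut_B00pm_101_s1 Ext.none)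

def k0_B00pm_101_s1 : ∃ t, chk3 f_B00pm_101_s1 t 2 1 1 = true :=
  ⟨(l 6), by decide +kernel⟩

def k1_B00pm_101_s1 : ∃ t, chk3 f_B00pm_101_s1 t 3 2 1 = true :=
  ⟨(l 6), by decide +kernel⟩

def k2_B00pm_101_s1 : ∃ t, chk3 f_B00pm_101_s1 t 6 3 1 = true :=
  ⟨(b (l 6) (b (l 6) (b (l 6) (a (l 6) (a (l 6) (a (l 6) (a (l 6) (b (l 6) (b (l 6) (l 16851416)))))))))), by decide +kernel⟩

def k3_B00pm_101_s1 : ∃ t, chk3 f_B00pm_101_s1 t 7 3 1 = true :=
  ⟨(b (a (l 6) (l 1)) (b (a (l 6) (b (l 1) (b (l 1) (a (a (c (l 61773909703) (l 45667747719)) (l 1)) (l 1))))) (a (a (b (l 6) (b (b (a (l 6) (a (l 6) (l 16847952))) (a (l 6) (c (a (l 16855832) (l 16852640)) (l 16839384)))) (a (a (b (l 16851312) (l 16869664)) (b (l 16869424) (a (l 16846472) (l 16844904)))) (b (c (a (l 16852640) (l 16849272)) (a (l 16838416) (l 16835568))) (c (a (l 16849256) (l 16845696)) (a (l 16835944) (l 16832944))))))) (b (b (a (l 6) (b (l 16848872) (l 16846216)))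 (a (b (l 16849048) (c (l 16854344) (l 16838672))) (b (c (l 16851256) (l 16835816)) (c (l 16868864) (l 16833432))))) (b (a (b (a (l 16845128) (l 16842208)) (c (a (l 16849376) (l 16845984)) (l 16833904))) (b (c (a (l 16846112) (l 16842520)) (l 16830896)) (c (a (l 16842408) (l 16838632)) (a (l 16829680) (l 16826672))))) (c (a (a (b (l 16845824) (l 16852536)) (b (l 16842240) (c (l 16841216) (l 16835352)))) (b (a (c (l 16841488) (l 16835496)) (c (l 16837288) (l 16831728))) (a (c (l 16837024) (l 16831584)) (c (l 16832592) (l 16827608))))) (a (b (a (l 16832728) (l 16829824)) (a (l 16829960) (l 16826904))) (b (a (l 16826816) (l 16823656)) (a (l 16823728) (l 16820400)))))))) (b (a (b (a (a (l 16843232) (l 16850648)) (b (l 1) (l 14))) (a (a (b (l 16838888) (l 16835800)) (l 14)) (l 14))) (b (l 1) (l 14))) (a (a (a (a (b (b (l 16833400) (c (l 16835656) (l 16824320))) (c (b (l 16831352) (l 16826768)) (b (l 16821184) (l 16817792)))) (l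 14)) (l 14)) (l 14)) (l 14)))))), by decide +kernel⟩

theorem t4_B00pm_101_s1 : ∃ t, chk3 f_B00pm_101_s1 t 3 3 1 = true := ex3_a k2_B00pm_101_s1 k3_B00pm_101_s1

theorem t5_B00pm_101_s1 : ∃ t, chk3 f_B00pm_101_s1 t 3 1 1 = true := ex3_b k1_B00pm_101_s1 t4_B00pm_101_s1

theorem t6_B00pm_101_s1 : ∃ t, chk3 f_B00pm_101_s1 t 1 1 1 = true := ex3_a k0_B00pm_101_s1 t5_B00pm_101_s1

theorem c_B00pm_101_s1 : CertF 536870912 536870912 536870912 536870912 536870912 50465866 false true false .npn 1 0 1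
    ndB0q1 ndB0q1 pcB0 cut_B00pm_101_s1 Ext.none :=
  certF0 (fam := false) (s1 := true) (s2 := false) (a := 1) (b := 0) (c := 1) (cn := .npn) (n1 := ndB0q1) (n2 := ndB0q1) (pc := pcB0) (cut := cut_B00pm_101_s1) (xt := Ext.none) (P1 := 536870912) (W1 := 536870912) (P2 := 536870912) (W2 := 536870912) (P3 := 536870912) (W3 := 50465866)
    rfl t6_B00pm_101_s1

theorem s_B00pm_101_s1 {κ x : ℝ} (hκ : κ * h0 = ken x) (hx : ((536870912 : ℕ) : ℝ) / S ≤ x)
    (hx' : x ≤ (((536870912 : ℕ) : ℝ) + (50465866 : ℕ)) / S)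
    (H : CutB (VFD κ) PP tK tL pcB (Cut.of [[⟨0, 1, 0, 67108864⟩, ⟨1, 0, 0, 67108864⟩, ⟨2, 1, 0, 67108864⟩], [⟨0, 0, 1, 20971520⟩, ⟨1, 1, 2, 20971520⟩, ⟨2, 1, 0, 33554432⟩]]) 1 0 1 0 0 (sgb true) (sgb false) x) :
    AltB (VFD κ) PP tK tL pcB [⟨3, 0, 0, 1449551462⟩] 1 0 1 0 0 (sgb true) (sgb false) x :=
  strip_altBD (m := 1449551462) true rfl hκ (SH.κ0 hκ (SH.hx1 hx).le (SH.hx2 hx').le) (SH.hx1 hx).le (SH.hx2 hx') (covB01).cov (covB01).cov hx hx' c_B00pm_101_s1 H (noExt_B)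

noncomputable def cut_B00pm_101_s3 : Cut := Cut.of [[⟨3, 0, 0, 2845415833⟩], [⟨0, 1, 0, 67108864⟩, ⟨1, 0, 0, 67108864⟩, ⟨2, 1, 0, 67108864⟩], [⟨0, 0, 1, 20971520⟩, ⟨1, 1, 2, 20971520⟩, ⟨2, 1, 0, 33554432⟩]]

noncomputable def xt_B00pm_101_s3 : Ext := strExt6 dd false true false .u0 .u0m .s0m .npn 1 0 1 rfl rfl gl0 vv ww ndB0q1 ndB0q1

noncomputable def f_B00pm_101_s3 : ℕ → ℕ → ℕ → ℕ → Bool := onCell 536870912 536870912 536870912 536870912 536870912 50465866
    (rowF 0 false true false .npn 1 0 1 (qsf 536870912 536870912 536870912 536870912 0) ndB0q1 ndB0q1 pcB0 cut_B00pm_101_s3 xt_B00pm_101_s3)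

def k0_B00pm_101_s3 : ∃ t, chk3 f_B00pm_101_s3 t 4 4 1 = true :=
  ⟨(a (b (l 4) (b (a (l 4) (b (l 4) (b (l 4) (b (l 4) (l 1074302991))))) (b (a (l 4) (a (l 1074248719) (l 1074332175))) (a (a (l 4) (a (l 4) (a (l 4) (l 1074168847)))) (l 1074278927))))) (b (a (a (l 4) (l 1)) (l 1)) (a (b (a (b (b (l 4) (a (l 4) (b (l 4) (a (l 4) (b (l 4) (a (l 4) (l 1074442767))))))) (a (a (b (l 4) (b (b (l 4) (l 1074386447)) (l 1074384399))) (a (b (l 4) (b (a (b (b (l 4) (l 1074398223)) (l 1074397199)) (b (b (l 1074402831) (l 1074402319)) (l 1074401807))) (a (l 1074395663) (l 1074400271)))) (b (b (l 4) (l 1074410511)) (b (b (l 1074408975) (a (l 1074406415) (l 1074410511))) (a (l 1074404879) (l 1074408975)))))) (b (b (a (b (l 4) (a (l 4) (l 1074427407))) (l 1074439695)) (l 1074431503)) (a (b (l 1074421775) (l 1074420239)) (b (l 1074438671) (l 1074437647)))))) (b (b (l 1) (a (b (l 1) (a (l 1074454031) (l 1))) (l 1))) (a (b (l 1074463247) (l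 1074463247)) (b (a (l 1074484751) (l 1)) (a (l 1074486287) (l 39225131783)))))) (a (a (a (l 1074374671) (b (a (l 1074392591) (b (l 1074403855) (l 1074397711))) (l 1074383375))) (b (b (a (a (l 1074412559) (l 1074421775)) (l 1074435087)) (a (l 1074412047) (l 1074430479))) (a (l 1074402319) (l 1074421263)))) (a (b (b (l 1074461199) (l 1074457103)) (l 1073913359)) (b (l 1074493967) (a (l 1074476047) (l 16783160)))))) (b (b (l 1) (a (a (b (l 1) (l 47815068183)) (l 1)) (l 1))) (a (b (a (l 1074525711) (l 43520110983)) (a (l 16784008) (l 16785256))) (b (l 61773726663) (l 16787352))))))), by decide +kernel⟩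

def k1_B00pm_101_s3 : ∃ t, chk3 f_B00pm_101_s3 t 8 5 1 = true :=
  ⟨(b (b (b (b (a (a (l 4) (a (l 1074045967) (c (l 1074535439) (l 1073737743)))) (a (c (l 1074601487) (l 1073817615)) (l 1074298895))) (a (a (l 1073870863) (c (l 1074470415) (l 1073666575))) (a (a (l 1074162703) (l 1074212879)) (l 1074281999)))) (a (a (l 1073820175) (c (l 1074409487) (l 1073611279))) (a (a (l 1074122255) (l 1074178575)) (c (l 1074629647) (l 1073878543))))) (a (b (a (c (l 1074147343) (l 1073327631)) (c (l 1074347535) (l 1073556495))) (c (a (b (l 1074059279) (l 1074004495)) (b (l 1074291215) (l 1074243599))) (a (b (a (l 1073173519) (l 1073311247)) (a (l 1073126927) (l 1073262607))) (b (l 1073505807) (l 1073464335))))) (a (b (c (l 1074488847) (l 1073723407)) (b (l 1074065423) (a (l 1074009103) (l 16780920)))) (b (c (l 1074583567) (l 1073840655)) (b (l 1074176015) (l 1074161167)))))) (a (b (b (a (a (a (b (l 1073448463) (l 1073412623)) (b (l 1073512463)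 (l 1073475599))) (b (l 1073609231) (l 1073570831))) (c (a (l 1074110479) (l 1074226703)) (a (l 1073339407) (l 1073468431)))) (c (a (b (a (l 16777800) (l 16779088)) (l 1073837583)) (a (l 16780552) (l 16782416))) (a (b (a (l 16770624) (l 16771144)) (a (l 16769592) (l 16770192))) (a (l 1073284111) (l 16772600))))) (b (a (c (b (l 16777968) (l 16777848)) (b (l 1073084431) (l 16768096))) (c (b (l 16781360) (l 16781312)) (b (l 16770816) (l 16770144)))) (a (c (l 16777824) (b (l 16767536) (l 16767232))) (c (l 16781336) (l 16769400))))) (b (c (b (a (a (l 1074334735) (l 1074422287)) (l 1074514447)) (a (l 16785384) (l 1074470415))) (b (a (a (l 1073588751) (l 1073688079)) (b (l 16777832) (l 1073794063))) (a (l 1073582095) (l 1073774095)))) (b (a (c (l 16785536) (l 16773304)) (c (l 16790232) (l 16776728))) (a (l 16779008) (l 16783248)))))), by decide +kernel⟩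

def k2_B00pm_101_s3 : ∃ t, chk3 f_B00pm_101_s3 t 9 5 1 = true :=
  ⟨(b (a (b (a (b (a (b (l 1074359311) (l 1074344463)) (b (l 1074399247) (l 1074384911))) (a (l 1074315791) (l 1074357775))) (a (b (l 1074432527) (l 1074397711)) (b (l 1074469903) (l 1074436623)))) (a (b (a (l 1074273807) (l 1074315791)) (a (c (l 16789144) (l 16779032)) (c (l 16790712) (l 16779912)))) (b (a (l 1074356751) (l 16786936)) (a (c (l 16792344) (l 16780864)) (l 16787928))))) (b (a (b (a (l 16785720) (l 16787056)) (a (l 16787168) (l 16788592))) (b (l 16789112) (l 16790768))) (a (b (l 16788992) (l 16790048)) (b (l 16792112) (l 16793256))))) (a (b (a (b (c (l 16791648) (b (l 16779592) (l 16779792))) (a (l 1074214927) (l 16787608))) (b (a (l 16787640) (l 16789056)) (b (l 16789360) (l 16790152)))) (a (b (a (l 16786744) (l 16788856)) (l 16787936)) (b (b (l 16791056) (l 16792008)) (l 16792840)))) (b (a (b (l 16791248) (l 16792736)) (b (l 16794528) (l 16796064)))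 (b (a (l 16794608) (l 16797944)) (a (l 16797000) (l 6)))))), by decide +kernel⟩

def k3_B00pm_101_s3 : ∃ t, chk3 f_B00pm_101_s3 t 5 2 1 = true :=
  ⟨(b (a (b (l 1) (b (l 1) (a (a (b (l 1) (l 16791024)) (l 1)) (l 1)))) (l 1)) (b (a (a (b (a (b (l 16792408) (l 16793992)) (b (l 16796448) (l 16797520))) (a (b (l 16795464) (l 16796712)) (b (l 16798816) (l 16800160)))) (b (b (l 1) (l 59089471271)) (b (l 16804520) (l 16805200)))) (b (l 1) (a (l 6) (l 1)))) (a (b (a (b (l 16820520) (l 16801160)) (l 6)) (l 6)) (l 6)))), by decide +kernel⟩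

def k4_B00pm_101_s3 : ∃ t, chk3 f_B00pm_101_s3 t 2 3 1 = true :=
  ⟨(b (a (b (a (b (a (b (a (c (l 16778560) (l 16767336)) (c (l 16782000) (l 16769424))) (a (c (l 16780544) (l 16769160)) (l 16777096))) (b (a (l 16779312) (l 16783608)) (a (l 16780648) (l 16784752)))) (a (a (b (l 16778688) (a (l 16782000) (l 16785384))) (b (l 16780464) (l 16786544))) (b (l 16785096) (l 16789736)))) (b (a (a (b (l 16788352) (l 16789376)) (l 16835832)) (l 6)) (l 6))) (a (a (b (b (a (l 16820560) (l 6)) (l 6)) (l 6)) (l 6)) (l 6))) (l 6)) (l 6)), by decide +kernel⟩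

def k5_B00pm_101_s3 : ∃ t, chk3 f_B00pm_101_s3 t 3 1 1 = true :=
  ⟨(b (a (b (l 1) (l 6)) (l 1)) (l 6)), by decide +kernel⟩

theorem t6_B00pm_101_s3 : ∃ t, chk3 f_B00pm_101_s3 t 4 5 1 = true := ex3_a k1_B00pm_101_s3 k2_B00pm_101_s3

theorem t7_B00pm_101_s3 : ∃ t, chk3 f_B00pm_101_s3 t 4 2 1 = true := ex3_b k0_B00pm_101_s3 t6_B00pm_101_s3

theorem t8_B00pm_101_s3 : ∃ t, chk3 f_B00pm_101_s3 t 2 2 1 = true := ex3_a t7_B00pm_101_s3 k3_B00pm_101_s3

theorem t9_B00pm_101_s3 : ∃ t, chk3 f_B00pm_101_s3 t 2 1 1 = true := ex3_b t8_B00pm_101_s3 k4_B00pm_101_s3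

theorem t10_B00pm_101_s3 : ∃ t, chk3 f_B00pm_101_s3 t 1 1 1 = true := ex3_a t9_B00pm_101_s3 k5_B00pm_101_s3

theorem c_B00pm_101_s3 : CertF 536870912 536870912 536870912 536870912 536870912 50465866 false true false .npn 1 0 1
    ndB0q1 ndB0q1 pcB0 cut_B00pm_101_s3 xt_B00pm_101_s3 :=
  certF0 (fam := false) (s1 := true) (s2 := false) (a := 1) (b := 0) (c := 1) (cn := .npn) (n1 := ndB0q1) (n2 := ndB0q1) (pc := pcB0) (cut := cut_B00pm_101_s3) (xt := xt_B00pm_101_s3) (P1 := 536870912) (W1 := 536870912) (P2 := 536870912) (W2 := 536870912) (P3 := 536870912) (W3 := 50465866)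
    rfl t10_B00pm_101_s3

theorem s_B00pm_101_s3 {κ x : ℝ} (hκ : κ * h0 = ken x) (hx : ((536870912 : ℕ) : ℝ) / S ≤ x)
    (hx' : x ≤ (((536870912 : ℕ) : ℝ) + (50465866 : ℕ)) / S)
    (H : CutB (VFD κ) PP tK tL pcB (Cut.of [[⟨0, 1, 0, 67108864⟩, ⟨1, 0, 0, 67108864⟩, ⟨2, 1, 0, 67108864⟩], [⟨0, 0, 1, 20971520⟩, ⟨1, 1, 2, 20971520⟩, ⟨2, 1, 0, 33554432⟩]]) 1 0 1 0 0 (sgb true) (sgb false) x) :
    AltB (VFD κ) PP tK tL pcB [⟨4, 0, 0, 2845415833⟩] 1 0 1 0 0 (sgb true) (sgb false) x :=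
  strip_altBD (m := 2845415833) false rfl hκ (SH.κ0 hκ (SH.hx1 hx).le (SH.hx2 hx').le) (SH.hx1 hx).le (SH.hx2 hx') (covB01).cov (covB01).cov hx hx' c_B00pm_101_s3 H ((okx6 hx hx').extB (T := tt) (okx hx hx') (sideB hx hx') hκ rfl rfl (.O 1 true) (.O 1 false) (Or.inl rfl))

noncomputable def cut_B00pm_102_s1 : Cut := Cut.of [[⟨4, 0, 0, 1449551462⟩], [⟨0, 1, 0, 67108864⟩, ⟨1, 0, 0, 67108864⟩, ⟨2, 1, 0, 67108864⟩], [⟨0, 0, 1, 20971520⟩, ⟨1, 1, 2, 20971520⟩, ⟨2, 1, 0, 33554432⟩]]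

noncomputable def xt_B00pm_102_s1 : Ext := strExt6 dd false true false .u0 .u2 .u0m .npp 1 0 2 rfl rfl gf0 vv ww ndB0q1 ndB0q2

noncomputable def f_B00pm_102_s1 : ℕ → ℕ → ℕ → ℕ → Bool := onCell 536870912 536870912 0 536870912 536870912 50465866
    (rowF 0 false true false .npp 1 0 2 (qsf 536870912 536870912 0 536870912 0) ndB0q1 ndB0q2 pcB0 cut_B00pm_102_s1 xt_B00pm_102_s1)

def k0_B00pm_102_s1 : ∃ t, chk3 f_B00pm_102_s1 t 4 2 1 = true :=
  ⟨(b (l 2) (a (l 2) (a (l 2) (a (l 2) (a (l 2) (b (l 2) (b (l 2) (l 16803464)))))))), by decide +kernel⟩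

def k1_B00pm_102_s1 : ∃ t, chk3 f_B00pm_102_s1 t 5 4 1 = true :=
  ⟨(a (b (a (a (l 2) (l 3)) (l 3)) (a (a (l 2) (b (l 1076068367) (b (b (l 1076062735) (l 1076051983)) (c (l 1076303375) (l 1075763215))))) (a (a (b (l 1075203599) (b (b (l 1075212303) (l 1075208207)) (b (l 1075205647) (l 16784960)))) (b (l 1074149391) (b (c (b (l 1074977807) (l 1076050447)) (b (l 1074425871) (l 1074426383))) (c (l 1074968591) (l 1074428943))))) (b (l 3) (b (b (a (b (a (l 1074347023) (l 3)) (l 1075834895)) (l 3)) (c (l 1073747983) (l 1073205775))) (c (a (l 1074505743) (l 1074078223)) (l 1073223695))))))) (b (l 3) (a (a (b (l 3) (b (l 3) (a (l 1073467919) (a (l 1073253391) (l 3))))) (l 3)) (l 3)))), by decide +kernel⟩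

def k2_B00pm_102_s1 : ∃ t, chk3 f_B00pm_102_s1 t 10 5 1 = true :=
  ⟨(b (a (b (a (b (l 2) (a (l 2) (l 16792240))) (b (a (b (l 16799032) (l 16797968)) (b (l 16792512) (l 16793672))) (a (l 16791576) (a (l 16790864) (l 16790512))))) (a (a (l 2) (c (l 16787216) (l 16776680))) (b (c (l 16767536) (l 16780288)) (a (l 16779104) (l 16778856))))) (b (b (a (a (c (l 16789296) (l 16785552)) (c (l 1074973711) (l 16781264))) (c (a (l 1074487823) (l 1074078223)) (a (l 1073969167) (l 1073564687)))) (a (a (b (c (l 16791144) (l 16786480)) (l 16787744)) (b (l 16784280) (c (l 16776208) (l 16782160)))) (c (a (l 16771760) (l 1074067983)) (l 1073214991)))) (a (b (a (l 16783136) (b (l 16783360) (l 16780656))) (c (l 16766032) (l 16763504))) (b (a (b (a (l 16760632) (l 16779720)) (l 16779440)) (b (l 16777712) (a (l 16762376) (l 16787176)))) (a (l 16776328) (a (l 16775536) (l 16775240))))))) (a (b (a (c (b (l 16780248) (l 16776632)) (b (l 16766816)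 (l 16761736))) (b (a (l 16774456) (l 16774576)) (a (l 16770640) (l 16771112)))) (a (b (l 16765624) (l 16762784)) (b (l 16809928) (l 16765824)))) (b (a (a (b (l 16774376) (l 16771264)) (b (l 16773888) (l 16771112))) (b (a (l 16773144) (l 16782920)) (a (l 16770688) (l 16770288)))) (a (b (a (l 16768856) (l 16769032)) (l 16767440)) (b (a (l 16768912) (l 16768808)) (l 16788928)))))), by decide +kernel⟩

def k3_B00pm_102_s1 : ∃ t, chk3 f_B00pm_102_s1 t 22 10 1 = true :=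
  ⟨(b (a (c (b (c (l 1073744911) (l 1073473551)) (a (l 1073751055) (a (l 1073554447) (l 1073442831)))) (b (c (l 1073749519) (l 1072962575)) (a (l 1073245711) (a (l 1073042447) (l 1072924175))))) (b (a (b (c (l 1073272847) (l 1072729103)) (l 1073009679)) (b (l 3) (l 1072849935))) (a (b (l 1073024015) (c (l 1073306639) (l 1072780303))) (b (l 1072868367) (a (c (l 1073196559) (l 1072658447)) (c (l 1073137167) (l 1072588815))))))) (a (a (b (b (l 1073496591) (l 16775408)) (b (a (b (l 16775512) (l 16775112)) (b (l 16774752) (l 16774424))) (l 16773840))) (b (c (a (l 16776176) (l 1073453583)) (a (l 16773272) (l 1072950799))) (a (b (l 16773968) (b (l 16773496) (l 16773080))) (b (l 16773520) (b (l 16773096) (l 16772744)))))) (c (b (a (b (l 1073316879) (l 1073326607)) (b (a (l 1073210895) (l 1073154063)) (l 1073196047))) (a (l 1073339919) (a (l 1073245199) (l 1073198095)))) (b (a (b (l 1072798735) (l 1072818703)) (b (a (l 1072681487)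 (l 1072616975)) (l 1072673295))) (a (l 1072847887) (a (l 1072742927) (l 1072690703))))))), by decide +kernel⟩

def k4_B00pm_102_s1 : ∃ t, chk3 f_B00pm_102_s1 t 23 10 1 = true :=
  ⟨(a (b (b (l 3) (b (a (a (a (l 1072794639) (l 3)) (l 3)) (l 3)) (a (a (c (a (l 1073101327) (l 1073076239)) (a (l 1072548367) (l 1072517647))) (c (l 1073042447) (l 1072476175))) (l 3)))) (c (a (b (a (b (a (l 1073119759) (l 1073095183)) (l 1073125391)) (b (c (l 1073211919) (l 1072920591)) (l 1073086479))) (a (l 1073421839) (l 1073120271))) (b (a (b (b (c (l 1073179151) (l 1072882191)) (c (a (l 1073195535) (l 1073185807)) (l 1072896527))) (a (l 1073065999) (l 1073056271))) (b (b (l 3) (l 1073026063)) (l 1073047567))) (a (l 1073100303) (l 1073092623)))) (a (b (a (b (a (l 1072577551) (l 1072548367)) (l 1072592399)) (b (c (l 1072643087) (l 1072380431)) (l 1072544271))) (a (l 1072636943) (l 1072596495))) (b (a (b (b (c (l 1072599567) (l 1072331791)) (c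 (l 1072616975) (l 1072352783))) (a (l 1072518671) (l 1072506383))) (b (b (l 3) (l 1072462351)) (l 1072494607))) (a (l 1072570895) (l 1072560143)))))) (b (l 3) (b (b (l 3) (a (a (l 1072761359) (l 1072771087)) (l 3))) (a (b (l 1072806927) (l 1072850959)) (b (l 1072858127) (l 1072910351)))))), by decide +kernel⟩

def k5_B00pm_102_s1 : ∃ t, chk3 f_B00pm_102_s1 t 11 11 1 = true :=
  ⟨(a (b (a (b (a (b (l 16772488) (l 16771400)) (b (l 16772144) (l 16771184))) (a (l 16770104) (l 16780584))) (b (a (b (a (b (l 16777376) (l 16771720)) (b (l 16771976) (a (l 16771784) (l 16771552)))) (l 16771112)) (b (a (l 16777000) (l 16771960)) (a (b (a (l 16771408) (l 16771232)) (l 16770984)) (b (l 16771320) (a (l 16771160) (l 16771032)))))) (a (b (l 16770472) (l 16769992)) (b (l 16775888) (l 16770288))))) (a (b (a (l 16768920) (l 16769192)) (b (l 16768664) (l 16768664))) (b (a (l 16769584) (b (l 16770088) (l 16770048))) (b (l 16790800) (l 16770096)))))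 (b (b (a (a (a (a (b (l 16772136) (l 16771280)) (l 1072931343)) (l 1072911375)) (a (l 1073166351) (l 1072897551))) (b (a (l 1072896527) (l 1072964623)) (a (l 1072944655) (l 1073021967)))) (a (a (b (a (b (a (l 16771024) (l 16776176)) (l 16770744)) (b (l 16771128) (a (l 16771008) (l 16776224)))) (a (l 16770560) (l 16770776))) (b (a (b (l 16771688) (l 16771240)) (l 16772080)) (a (b (a (l 16771144) (l 16776424)) (l 16771040)) (b (l 16776728) (b (l 16776664) (l 16771520)))))) (b (a (l 1072993807) (l 1073080335)) (a (a (b (l 16772256) (l 16782360)) (l 16772832)) (l 1073138703))))) (b (a (a (b (l 16770568) (l 16770648)) (b (l 16771240) (l 16771432))) (b (a (b (a (b (l 16771864) (l 16771984)) (l 16772384)) (a (l 16771928) (b (l 16772432) (l 16772584)))) (b (l 16773664) (a (l 16773016) (l 16773952)))) (a (l 16772416) (b (a (b (l 16773136) (l 16773312)) (l 16773768)) (a (l 16773376) (l 16774128)))))) (a (a (l 16771136) (l 16793056))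 (b (a (l 16772896) (l 16774144)) (a (l 16773576) (l 16774936))))))), by decide +kernel⟩

def k6_B00pm_102_s1 : ∃ t, chk3 f_B00pm_102_s1 t 2 3 1 = true :=
  ⟨(a (b (l 6) (l 6)) (b (a (b (b (a (b (a (b (l 16761120) (l 6)) (l 16764400)) (a (l 6) (b (l 16763272) (l 6)))) (a (b (l 16766656) (l 16766624)) (b (l 16767760) (l 16768336)))) (a (l 6) (b (a (b (l 16766768) (l 6)) (b (l 16769280) (l 16769688))) (a (l 6) (l 16772328))))) (l 6)) (b (b (a (b (a (l 16769040) (l 16791832)) (a (l 16770176) (l 16772528))) (b (a (b (l 16772544) (l 16773424)) (b (l 16775152) (l 16776280))) (a (l 16775136) (l 16778360)))) (a (b (a (l 16772144) (l 16775032)) (a (b (l 16773672) (l 16776032)) (l 16778120))) (b (a (l 16778160) (l 16781880)) (a (l 16782144) (l 16786368))))) (b (a (a (l 16780696) (b (l 16710008) (l 16788272))) (b (a (l 16828592) (l 16791976)) (a (l 16793976) (l 16882704)))) (a (l 6) (a (l 16805488) (l 16727976)))))) (l 6))), by decide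 +kernel⟩

def k7_B00pm_102_s1 : ∃ t, chk3 f_B00pm_102_s1 t 3 2 1 = true :=
  ⟨(a (b (l 3) (a (b (a (b (l 3) (a (b (l 3) (a (b (l 3) (l 1073014287)) (l 3))) (l 3))) (l 3)) (a (b (a (b (a (b (l 1073077263) (b (l 1073126927) (l 1073161231))) (b (l 1073232911) (a (l 1073263631) (b (l 1073337359) (l 1073371151))))) (a (b (l 1073211407) (l 1073278991)) (a (l 1073375247) (l 1073470991)))) (b (a (b (l 3) (l 1073535503)) (l 3)) (a (l 1073666063) (l 1073941519)))) (a (b (a (b (l 1073350159) (b (l 16775128) (a (l 16774640) (l 16775608)))) (l 1073584143)) (b (a (b (a (l 16775096) (l 16775624)) (a (l 16775344) (l 16776184))) (b (l 16776984) (l 16787544))) (a (l 16776400) (b (a (l 16777400) (l 16777960)) (l 16778440))))) (b (l 1073991695) (a (b (l 16778520) (b (l 16779216) (l 16779544))) (l 1074348559))))) (b (a (b (l 3) (l 1074350607)) (l 3)) (a (l 1075168783) (a (l 1075008015) (a (l 1075200527) (l 1073209871))))))) (l 3))) (l 3)), by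 decide +kernel⟩

def k8_B00pm_102_s1 : ∃ t, chk3 f_B00pm_102_s1 t 12 6 1 = true :=
  ⟨(b (b (a (b (a (b (l 16799280) (l 16779680)) (b (a (b (l 16801320) (l 16781368)) (b (l 16781544) (l 16782096))) (a (l 16782336) (a (l 16783616) (l 16783664))))) (a (l 16803104) (a (l 16785008) (l 16786280)))) (a (b (b (l 1074885135) (a (a (l 16783696) (l 16783840)) (l 16783488))) (b (a (a (l 16786016) (l 16785840)) (a (l 16785656) (l 16785544))) (a (l 16787944) (a (l 16788344) (l 16787960))))) (b (a (l 1075326479) (l 1075584015)) (a (b (l 16774312) (a (l 16787544) (l 16787152))) (l 1075795471))))) (a (a (b (l 16786136) (l 16791072)) (b (l 16789880) (l 16795168))) (b (a (a (l 16791512) (l 16791864)) (a (b (b (l 16768496) (l 16791120)) (l 16793064)) (a (b (l 16789360) (l 16792744)) (b (l 16788712) (l 16791912))))) (a (b (l 16795928) (l 16799088)) (a (l 16755600) (l 16796696)))))) (b (a (a (b (l 16797104) (l 16803976)) (b (l 16801656) (l 16809512)))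 (b (a (l 16762328) (l 16761368)) (a (l 16811736) (l 16809768)))) (a (b (a (l 16813800) (a (l 16817592) (l 16735712))) (a (l 16823768) (a (l 16828504) (l 16829632)))) (b (a (l 16819536) (l 16816616)) (a (l 16827520) (l 16823352)))))), by decide +kernel⟩

def k9_B00pm_102_s1 : ∃ t, chk3 f_B00pm_102_s1 t 13 6 1 = true :=
  ⟨(b (b (a (a (c (l 1078262799) (l 1075078671)) (l 1074379791)) (l 3)) (a (a (b (a (b (l 16776616) (a (l 16790984) (l 16789904))) (l 1076470287)) (b (a (b (l 16772064) (l 16794888)) (l 16770224)) (a (l 16796872) (a (l 16795720) (l 16773216))))) (b (l 1076697615) (a (b (l 16787840) (l 16770592)) (l 1076847631)))) (a (a (l 1074182671) (l 1074747407)) (c (b (l 3) (l 1076869647)) (l 1077961743))))) (a (b (b (a (l 16800336) (a (b (b (l 16773464) (l 16775424)) (l 16798360)) (b (l 16791520) (a (l 16775456) (l 16773360))))) (a (l 16806352) (l 16801240))) (a (b (l 16812736) (l 16819632)) (b (l 16807176) (l 16813600))))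 (b (a (b (a (b (l 16787128) (l 16791120)) (l 1076981263)) (a (b (a (l 16775152) (l 16772840)) (l 16798088)) (b (l 16790432) (a (l 16774504) (l 16771864))))) (a (a (l 1076936207) (l 1076860431)) (l 1077241359))) (a (b (a (l 16802184) (b (l 16797088) (l 16799520))) (a (l 16808072) (l 16803768))) (b (a (b (a (b (l 16792832) (l 16794368)) (b (l 16790192) (l 16791760))) (l 16795200)) (b (l 1076577807) (a (b (l 16790704) (l 16792352)) (b (l 16788232) (l 16789680))))) (a (l 16799224) (b (a (l 16794280) (l 16792112)) (l 16796008)))))))), by decide +kernel⟩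

def k10_B00pm_102_s1 : ∃ t, chk3 f_B00pm_102_s1 t 6 7 1 = true :=
  ⟨(b (a (a (b (a (b (l 16836208) (l 6)) (b (l 16754672) (l 16847976))) (l 6)) (b (a (l 16839792) (b (a (l 16832752) (l 16831136)) (l 16839720))) (a (l 16857744) (l 16894424)))) (b (b (a (a (a (l 16828400) (l 16825096)) (a (l 16822088) (l 16818672))) (a (l 16812360) (a (l 16805528) (l 16800784)))) (a (a (l 16834576) (b (l 16867856) (l 16830080))) (a (b (l 16817696) (a (l 16823632) (l 16818936))) (a (l 16812624) (l 16807784))))) (a (a (b (l 16842328) (l 16850312)) (b (l 16835032) (l 16842384))) (b (a (a (l 16828896) (b (l 16823192) (l 16826240))) (a (b (l 16818072) (l 16822024)) (b (l 16813504) (l 16859312)))) (a (l 16833496) (a (l 16826608) (l 16822032))))))) (a (l 6) (b (a (a (b (l 16858376) (l 6)) (b (l 16849752) (l 16856936))) (a (b (l 16840200) (l 16846640)) (b (l 16830360) (a (l 16838736) (l 16833656))))) (b (b (a (a (l 6) (l 16861552)) (a (l 16850592)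 (a (l 16842592) (l 16838440)))) (a (l 6) (a (l 16852456) (a (l 16845632) (b (l 16841456) (l 16842928)))))) (a (l 6) (a (b (a (l 6) (l 16851200)) (l 6)) (b (a (l 16847816) (l 16845192)) (a (b (l 16850136) (l 6)) (l 16848416))))))))), by decide +kernel⟩

def k11_B00pm_102_s1 : ∃ t, chk3 f_B00pm_102_s1 t 7 6 1 = true :=
  ⟨(a (b (l 3) (a (b (a (b (l 3) (l 1076320783)) (l 3)) (a (b (a (l 1076333071) (a (l 1076159503) (l 1076068879))) (a (b (a (b (l 16788704) (l 16790424)) (b (l 16786456) (a (l 16788432) (l 16787248)))) (a (l 16792456) (a (l 16790680) (l 16800184)))) (b (l 1076071951) (a (b (a (l 16787512) (l 16786440)) (a (l 16789048) (l 16787968))) (b (l 16784864) (a (l 16786640) (l 16785664))))))) (b (a (l 1078029839) (l 3)) (a (l 1075833359) (l 1075670031))))) (b (l 3) (a (b (l 3) (a (b (l 3) (a (l 1075600911) (l 1075567631))) (l 3))) (l 3))))) (l 3)), by decide +kernel⟩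

def k12_B00pm_102_s1 : ∃ t, chk3 f_B00pm_102_s1 t 28 14 1 = true :=
  ⟨(b (a (b (a (a (l 16797184) (l 16794776)) (a (l 16792376) (b (b (a (l 16788240) (l 16787112)) (l 16789160)) (l 16791592)))) (a (l 16802880) (b (l 16796184) (l 16799768)))) (b (b (a (a (b (a (b (l 16785608) (l 16786232)) (l 16784928)) (a (l 16787480) (b (l 16785856) (l 16786720)))) (a (b (l 16783968) (b (l 16784920) (l 16796000))) (l 16783688))) (a (l 1075720207) (l 1075670543))) (a (a (l 16789224) (b (a (l 16786816) (b (a (l 16785488) (l 16785008)) (l 16786088))) (l 16787760))) (a (b (a (b (l 16784368) (a (l 16785200) (l 16784784))) (l 16783816)) (a (b (a (l 16786000) (l 16785520)) (l 16786544)) (b (a (l 16790184) (l 16784552)) (a (l 16785776) (b (l 16785032) (l 16785464)))))) (a (b (l 16782968) (b (l 16783920) (a (b (l 16784608) (l 16784920)) (l 16784352)))) (l 1075694095))))) (a (b (a (l 16792584) (l 16790280)) (a (l 16796120) (l 16793784))) (b (a (b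 (l 16787248) (l 16788936)) (b (a (b (a (l 16785576) (b (l 16784816) (l 16785264))) (l 16786096)) (b (a (b (l 16784424) (l 16795208)) (l 16784176)) (a (b (l 16785176) (l 16785536)) (b (l 16789872) (l 16785080))))) (a (l 16787360) (l 16786336)))) (a (l 16791560) (b (l 16788552) (l 16790312))))))) (b (a (a (b (l 16808520) (l 16812120)) (l 16805496)) (a (b (l 16798648) (l 16802504)) (b (a (l 16795192) (l 16793008)) (a (l 16798960) (l 16796696))))) (a (b (a (l 16837352) (b (l 16810280) (l 16812400))) (a (l 16818952) (l 16814584))) (a (b (l 16806480) (a (b (l 16810672) (l 16811992)) (l 16829960))) (b (l 16801616) (a (l 16827336) (l 16804176))))))), by decide +kernel⟩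

def k13_B00pm_102_s1 : ∃ t, chk3 f_B00pm_102_s1 t 58 56 1 = true :=
  ⟨(a (b (a (b (l 1075625487) (l 1075644431)) (b (l 1075600399) (c (a (l 1075896335) (l 1075893263)) (l 1075380239)))) (a (b (l 1075665935) (l 1075689487)) (a (b (l 1075653647) (l 1075681807)) (c (l 1075933711) (l 1075420687))))) (b (b (l 3) (a (a (a (b (l 1075611663) (l 1075625999)) (l 1075617807)) (l 1075617295)) (l 3))) (a (a (l 1075664911) (l 1076742671)) (a (a (l 1075673615) (l 1076483087)) (b (l 3) (l 1075706895)))))), by decide +kernel⟩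

def k14_B00pm_102_s1 : ∃ t, chk3 f_B00pm_102_s1 t 116 57 1 = true :=
  ⟨(b (a (b (a (b (l 16783560) (a (b (l 16784256) (a (l 16784664) (l 16784488))) (l 16784016))) (l 1075713551)) (a (b (a (b (a (l 16785096) (l 16784856)) (l 16785368)) (a (b (l 16784592) (l 16785032)) (b (l 16784416) (l 16784776)))) (l 16785752)) (a (b (c (l 16790400) (l 16783408)) (b (c (a (l 16785936) (l 16785656)) (l 16783968)) (l 16785224))) (b (l 16783880) (b (l 16784360) (c (a (l 16785864) (l 16785576)) (l 16789144))))))) (a (a (a (b (l 1075712527) (b (l 16783576) (l 16784240))) (l 1075727887)) (l 1075728911)) (l 1075731471))) (a (b (a (l 16787032) (c (l 16787096) (l 16785088))) (a (l 16788768) (l 16787760))) (b (a (b (a (b (a (a (l 16784888) (l 16784760)) (a (l 16789872) (l 16784504))) (l 16785104)) (b (l 16784280) (a (a (l 16784832) (l 16789944)) (b (l 16784440) (l 16784616))))) (c (l 16786528) (l 16784608))) (b (l 1075779087) (a (b (a (b (l 16784584)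 (l 16784816)) (b (l 16784392) (l 16784560))) (l 16790272)) (b (l 16784184) (a (b (l 16784536) (l 16784776)) (b (l 16784352) (l 16784512))))))) (a (l 16786776) (b (a (l 16785632) (c (b (l 16788560) (l 16786360)) (l 16784336))) (l 16786248)))))), by decide +kernel⟩

def k15_B00pm_102_s1 : ∃ t, chk3 f_B00pm_102_s1 t 117 57 1 = true :=
  ⟨(a (b (a (l 1075737615) (l 1076283919)) (b (l 1075806223) (b (a (a (b (a (b (l 16784496) (l 16784728)) (c (l 16785280) (l 16783576))) (a (l 16785024) (b (l 16789952) (l 16784904)))) (b (l 16784112) (a (b (l 16784464) (l 16789936)) (l 16784360)))) (l 1075850255)) (b (a (a (l 16785336) (c (a (l 16785928) (b (l 16785568) (l 16785784))) (l 16784096))) (a (a (b (l 16784448) (a (l 16784712) (l 16784584))) (l 16784344)) (l 16784048))) (b (a (l 16785424) (a (c (a (l 16785768) (l 16785520)) (l 16783960)) (l 16784328))) (a (l 16785640) (a (l 16784960) (c (a (l 16785496) (l 16785272)) (l 16783704)))))))))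 (b (c (a (l 1076027919) (l 1076043791)) (l 1075522575)) (b (a (l 1075830799) (l 1075850767)) (l 1076430863)))), by decide +kernel⟩

def k16_B00pm_102_s1 : ∃ t, chk3 f_B00pm_102_s1 t 59 28 1 = true :=
  ⟨(a (a (b (a (b (l 3) (b (l 3) (l 1076257807))) (l 3)) (b (c (c (b (l 1076193807) (l 1076238351)) (l 1075935247)) (l 1075559951)) (c (b (l 1076683279) (l 1076199951)) (l 1076218383)))) (b (l 3) (b (b (l 3) (a (l 1075869199) (l 1076973071))) (b (c (a (l 1076186127) (l 1076216335)) (l 1075714063)) (a (l 1075994127) (l 1076029967)))))) (b (l 3) (b (l 3) (a (c (b (l 1076801039) (l 1076328463)) (l 1075828239)) (b (l 3) (l 1076177423)))))), by decide +kernel⟩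

def k17_B00pm_102_s1 : ∃ t, chk3 f_B00pm_102_s1 t 58 29 1 = true :=
  ⟨(b (a (b (a (b (l 16790016) (l 16791800)) (b (c (l 16789208) (l 16786952)) (l 16789784))) (a (l 16794536) (l 16792480))) (b (a (b (a (c (l 16787656) (l 16785648)) (a (l 16788536) (b (a (l 16785168) (b (b (a (l 16784664) (l 16784544)) (l 16784832)) (l 16785136))) (l 16785888)))) (c (l 16789008) (l 16786840))) (b (a (b (a (a (b (c (b (l 16785248) (l 16785448)) (l 16783696)) (l 16784936)) (b (l 16784304) (c (b (l 16785424) (l 16785680)) (l 16783920)))) (a (b (l 16784096) (b (l 16784384) (l 16789808))) (l 16784088))) (a (l 16785440) (b (a (a (l 16784952) (l 16790104)) (b (l 16784552) (l 16784800))) (l 16785208)))) (b (l 1075949583) (a (b (c (l 16785144) (l 16783608)) (a (b (l 16784792) (l 16784984)) (b (l 16784544) (l 16784776)))) (c (l 16784904) (l 16783448))))) (b (a (l 16786072) (a (l 16785408) (b (a (b (l 16784768) (l 16784976)) (b (l 16784552) (l 16784760)))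 (l 16785192)))) (c (l 16787464) (l 16785600))))) (a (b (l 16789632) (l 16791408)) (b (c (l 16788856) (l 16786808)) (l 16789536))))) (a (b (l 16797176) (l 16800928)) (b (a (l 16794120) (l 16792200)) (l 16796768)))), by decide +kernel⟩

def k18_B00pm_102_s1 : ∃ t, chk3 f_B00pm_102_s1 t 59 29 1 = true :=
  ⟨(b (a (b (a (b (l 1077084175) (a (b (a (b (l 16784344) (a (b (l 16784752) (l 16784984)) (b (l 16784544) (l 16784744)))) (l 16784128)) (a (l 16785416) (b (c (b (l 16790624) (a (l 16785776) (l 16785504))) (l 16789280)) (l 16785216)))) (a (b (l 16783704) (b (l 16784328) (a (a (l 16784928) (l 16784792)) (l 16784616)))) (l 1076106255)))) (a (l 1076099599) (l 1076139023))) (b (a (b (a (l 16786032) (a (c (b (l 16785992) (l 16786416)) (l 16784728)) (b (c (a (l 16785592) (l 16785336)) (l 16784064)) (c (l 16785976) (l 16784552))))) (l 16786456)) (a (a (a (b (b (l 16784432) (l 16790088)) (l 16785512)) (b (l 16784424) (b (l 16785112)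 (l 16785512)))) (b (l 16784096) (b (c (l 16785400) (l 16784112)) (c (l 16785936) (l 16784616))))) (a (b (l 16783640) (b (l 16784312) (l 16789968))) (l 1076271631)))) (a (l 16787752) (b (a (l 16786048) (b (a (c (l 16785912) (l 16784648)) (l 16784736)) (a (l 16785640) (c (l 16785888) (l 16784672))))) (l 16786480))))) (b (a (c (l 1076431887) (l 1076002319)) (l 1076306959)) (a (a (b (l 1076309007) (b (c (l 16784824) (l 16783768)) (b (a (l 16790496) (l 16784776)) (a (l 16785680) (l 16785264))))) (l 1076408335)) (l 1076497423)))) (a (b (b (a (l 16789488) (l 16787768)) (a (l 16791240) (l 16789480))) (a (l 16793888) (l 16792072))) (b (b (a (a (l 16786544) (b (b (a (l 16785272) (l 16784808)) (a (l 16785752) (l 16785280))) (l 16786208))) (a (b (l 16784304) (a (b (l 16785296) (l 16785824)) (b (l 16784824) (l 16785280)))) (l 1076641807))) (a (l 16787808) (a (b (a (l 16786392) (l 16785960)) (l 16786856)) (b (a (b (l 16785104) (l 16785576))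 (l 16784656)) (a (l 16786064) (b (l 16785376) (l 16785704))))))) (a (b (l 16789416) (l 16790976)) (b (l 16787384) (l 16788856)))))), by decide +kernel⟩

def k19_B00pm_102_s1 : ∃ t, chk3 f_B00pm_102_s1 t 15 14 1 = true :=
  ⟨(a (b (l 3) (a (b (b (a (a (l 1076424207) (l 3)) (l 3)) (a (a (l 1076563983) (l 1076539919)) (a (l 1076482575) (l 3)))) (a (b (a (b (l 1076602383) (a (b (l 16783744) (a (b (l 16784704) (l 16785176)) (l 16784288))) (l 1076584463))) (l 1076541967)) (a (b (a (b (a (l 16785696) (b (l 16790216) (l 16785336))) (l 16786144)) (b (a (b (l 16784336) (l 16790016)) (l 16783936)) (a (l 16785352) (b (l 16789824) (l 16785008))))) (a (l 16787256) (l 16786184))) (b (a (b (l 16782992) (a (b (l 16783976) (a (l 16784568) (l 16784240))) (l 16783576))) (l 1076536847)) (a (b (a (l 16785040) (b (a (l 16784384) (l 16784064)) (l 16784680))) (l 16785480)) (b (a (b (l 16783616) (a (l 16784192) (l 16783896))) (l 16783216)) (a (b (a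 (l 16784608) (l 16784352)) (l 16784856)) (b (a (l 16784016) (l 16783736)) (a (l 16784456) (l 16789416))))))))) (b (a (l 1076493839) (l 1076455951)) (b (a (l 1076507151) (l 1076475919)) (a (a (b (l 1076523023) (a (b (l 16783272) (a (l 16783840) (l 16783560))) (l 16782872))) (l 1076509199)) (l 1076490255)))))) (a (b (l 3) (a (b (l 3) (a (l 1076464143) (l 1076455439))) (l 3))) (l 3)))) (l 3)), by decide +kernel⟩

def k20_B00pm_102_s1 : ∃ t, chk3 f_B00pm_102_s1 t 14 15 1 = true :=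
  ⟨(b (a (b (a (a (l 16823184) (b (l 16817280) (l 16820248))) (a (l 16814592) (b (a (l 16809928) (l 16829120)) (l 16812104)))) (a (a (l 16829320) (l 16825480)) (a (l 16821552) (l 16817600)))) (b (a (b (a (b (a (l 16804712) (l 16802680)) (a (l 16806768) (l 16804496))) (a (l 16801264) (l 16799416))) (a (l 16808080) (b (a (l 16804336) (l 16801976)) (l 16805040)))) (a (b (a (l 16797432) (l 16795432)) (b (l 16799024) (a (b (l 16801304) (l 16802416)) (l 16799616)))) (b (a (l 16793344) (b (l 16790416) (l 16792048))) (a (l 16796768) (l 16794648))))) (a (a (b (l 16811704) (l 16815680)) (b (l 16807704) (l 16811720))) (b (a (a (l 16804664) (b (b (l 16801232) (l 16802112)) (l 16803568))) (a (b (b (l 16798976) (l 16800008)) (l 16801544)) (b (l 16797408) (b (l 16798784) (l 16799936))))) (a (l 16807664) (a (l 16804544) (l 16802408))))))) (a (b (a (b (l 16833312) (b (a (l 16838128) (l 16834728)) (l 16838712))) (b (l 16825824) (a (b (l 16831112)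 (l 16833376)) (l 16870104)))) (a (b (l 16840752) (a (l 16845600) (l 16842488))) (b (l 16876064) (a (l 16839160) (a (l 16836632) (l 16834936)))))) (b (a (b (a (l 16820008) (l 16816088)) (a (l 16824592) (l 16820824))) (b (a (l 16812048) (l 16807864)) (a (l 16816792) (l 16812608)))) (b (b (a (a (l 16828280) (l 16845440)) (a (l 16841368) (l 16816320))) (a (l 16827992) (a (l 16822536) (b (l 16818264) (l 16819096))))) (a (a (a (l 16833232) (l 16831504)) (a (l 16829744) (l 16827952))) (a (a (l 16826112) (l 16824232)) (a (l 16822296) (l 16841280)))))))), by decide +kernel⟩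

def k21_B00pm_102_s1 : ∃ t, chk3 f_B00pm_102_s1 t 60 30 1 = true :=
  ⟨(b (a (b (a (b (l 16788272) (l 16789904)) (b (a (l 16786648) (l 16785560)) (l 16787728))) (a (b (l 16791608) (l 16793392)) (b (l 16789432) (l 16791208)))) (b (a (b (a (b (a (b (a (l 16784304) (l 16789240)) (l 16784536)) (b (l 16788752) (a (l 16784144) (b (l 16783704) (l 16783952))))) (l 16784856)) (b (a (c (l 16783608) (l 16782688)) (l 16782544)) (a (b (a (l 16789224) (b (l 16783552) (l 16783776))) (l 16784224)) (b (l 16783208) (a (b (l 16783688) (l 16783912)) (b (l 16783392) (l 16783608))))))) (a (l 16786080) (b (a (l 16784832) (l 16784296)) (l 16785376)))) (b (l 1076506127) (a (b (a (b (a (b (l 16783520) (l 16783760)) (l 16788552)) (l 16789184)) (b (l 16782880) (a (b (l 16783352) (l 16783600)) (l 16783152)))) (a (l 16784528) (b (a (l 16783896) (b (l 16783520) (l 16783720))) (l 16784176)))) (b (l 1076514831) (a (b (a (b (l 16783192) (l 16783440)) (l 16783008))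 (a (l 16783744) (b (l 16783352) (l 16783568)))) (b (l 16782560) (a (b (l 16783048) (l 16783272)) (l 16782856)))))))) (a (b (a (l 16787768) (l 16786648)) (l 16788984)) (b (a (l 16785520) (b (a (l 16784232) (b (a (l 16783608) (b (l 16783184) (l 16783424))) (l 16783872))) (l 16784808))) (a (l 16787280) (l 16786136)))))) (b (a (a (b (l 16795248) (a (l 16797608) (l 16796640))) (b (l 16793056) (l 16794984))) (a (b (l 16790824) (l 16792744)) (b (a (l 16789120) (l 16787960)) (l 16790448)))) (a (b (a (b (l 16798768) (l 16799712)) (b (l 16796376) (a (l 16798128) (l 16796912)))) (l 16800192)) (b (a (l 16794680) (l 16792432)) (a (b (a (l 16796896) (l 16795640)) (l 16797416)) (b (l 16793968) (a (l 16795592) (l 16794384)))))))), by decide +kernel⟩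

def k22_B00pm_102_s1 : ∃ t, chk3 f_B00pm_102_s1 t 61 60 1 = true :=
  ⟨(a (b (a (b (l 1077027855) (a (l 1076513807) (l 1076509711))) (a (b (l 1076483087) (l 1076507151)) (b (l 1076481039) (l 1076506639)))) (a (b (a (b (a (b (a (b (l 16782888) (l 16783104)) (l 16782696)) (a (l 16783464) (b (l 16783024) (l 16783272)))) (b (l 16782240) (a (l 16785440) (l 16782536)))) (a (l 16783944) (b (a (b (l 16783192) (l 16783400)) (b (l 16782864) (l 16783112))) (l 16783576)))) (b (l 1076527631) (a (b (l 16782520) (a (b (l 16783032) (l 16783248)) (b (l 16782712) (l 16782952)))) (l 16782144)))) (a (b (l 16784528) (l 16785416)) (b (a (l 16783656) (b (a (b (l 16782864) (l 16783104)) (b (l 16782568) (l 16782784))) (a (l 16783424) (l 16783144)))) (l 16784240)))) (b (a (l 1076533263) (l 1076534287)) (a (b (a (b (l 16782216) (a (b (l 16782704) (l 16782960)) (b (l 16782408) (l 16782616)))) (l 16781832)) (a (b (a (l 16783272) (b (l 16782880) (l 16783088)))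 (l 16783576)) (b (a (b (l 16782544) (a (l 16782872) (l 16782712))) (l 16782344)) (a (l 16783120) (b (a (l 16782800) (l 16782632)) (l 16782936)))))) (b (l 1076556303) (a (b (l 16781896) (a (b (l 16782392) (a (l 16782720) (l 16782544))) (l 16782200))) (l 1076571151))))))) (a (b (a (l 1076493327) (l 3)) (a (l 1076550671) (l 1076556303))) (b (l 3) (a (c (l 1076829199) (l 1076316175)) (c (l 1076839951) (l 1076322319)))))), by decide +kernel⟩

def k23_B00pm_102_s1 : ∃ t, chk3 f_B00pm_102_s1 t 61 61 1 = true :=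
  ⟨(a (b (a (b (a (l 16786792) (b (l 16785152) (l 16786080))) (a (l 16788696) (l 16787504))) (b (a (b (a (l 16784256) (l 16783656)) (l 16784880)) (b (a (b (a (l 16782968) (b (a (l 16782640) (l 16782464)) (l 16782792))) (l 16783280)) (b (a (b (l 16782240) (a (l 16782560) (l 16782384))) (l 16782048)) (a (l 16782832) (b (a (l 16782472) (l 16782304)) (l 16782640))))) (a (l 16783968) (l 16783360)))) (a (b (l 16785824) (l 16786784)) (b (l 16784600) (l 16785560))))) (a (b (l 16790072) (l 16792112)) (b (a (l 16788256) (l 16787032)) (c (l 16790824) (l 16788608))))) (b (a (b (a (b (a (b (l 16781576) (a (b (l 16782080) (a (l 16782384) (l 16782232))) (l 16781888))) (l 1076592143)) (a (b (a (b (a (l 16782624) (l 16782480)) (l 16782776)) (b (a (l 16782304) (l 16782160)) (a (l 16782552) (l 16782400)))) (l 16782976)) (b (a (b (l 16781920) (l 16782144)) (l 16781728)) (a (b (a (l 16782480) (l 16782312)) (l 16782624)) (b (l 16782064) (a (l 16782400)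 (l 16782224))))))) (a (b (l 1076595215) (b (l 16781248) (l 16781712))) (l 1076606991))) (a (b (c (l 16783936) (l 16782840)) (l 16784320)) (b (a (b (a (b (a (l 16782320) (l 16782144)) (l 16782472)) (b (l 16781912) (a (l 16782240) (l 16782064)))) (c (l 16783176) (l 16782216))) (a (b (l 16781712) (a (b (l 16782152) (l 14)) (l 14))) (b (l 16781400) (l 14)))) (a (l 16783376) (l 14))))) (b (a (l 1076614159) (l 1076624399)) (l 14))) (a (b (a (b (l 16785288) (l 16786280)) (l 14)) (l 14)) (l 14)))), by decide +kernel⟩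

def k24_B00pm_102_s1 : ∃ t, chk3 f_B00pm_102_s1 t 30 31 1 = true :=
  ⟨(b (a (b (a (b (l 16802376) (l 16804648)) (b (a (l 16798984) (b (a (l 16796680) (l 16795552)) (l 16797192))) (l 16800072))) (a (l 16808224) (b (l 16802408) (l 16804832)))) (b (a (b (a (b (a (l 16794240) (l 16793096)) (a (l 16795448) (l 16794176))) (b (l 16791248) (l 14))) (a (l 16796472) (l 14))) (l 14)) (l 14))) (a (a (b (b (l 16811984) (b (l 16813832) (l 16815096))) (a (l 16839232) (l 16826640))) (b (b (l 16807336) (l 14)) (l 14))) (l 14))), by decide +kernel⟩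

def k25_B00pm_102_s1 : ∃ t, chk3 f_B00pm_102_s1 t 31 15 1 = true :=
  ⟨(b (b (l 3) (l 14)) (l 14)), by decide +kernel⟩

theorem t26_B00pm_102_s1 : ∃ t, chk3 f_B00pm_102_s1 t 61 30 1 = true := ex3_b k22_B00pm_102_s1 k23_B00pm_102_s1

theorem t27_B00pm_102_s1 : ∃ t, chk3 f_B00pm_102_s1 t 30 30 1 = true := ex3_a k21_B00pm_102_s1 t26_B00pm_102_s1

theorem t28_B00pm_102_s1 : ∃ t, chk3 f_B00pm_102_s1 t 30 15 1 = true := ex3_b t27_B00pm_102_s1 k24_B00pm_102_s1

theorem t29_B00pm_102_s1 : ∃ t, chk3 f_B00pm_102_s1 t 15 15 1 = true := ex3_a t28_B00pm_102_s1 k25_B00pm_102_s1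

theorem t30_B00pm_102_s1 : ∃ t, chk3 f_B00pm_102_s1 t 7 15 1 = true := ex3_a k20_B00pm_102_s1 t29_B00pm_102_s1

theorem t31_B00pm_102_s1 : ∃ t, chk3 f_B00pm_102_s1 t 29 29 1 = true := ex3_a k17_B00pm_102_s1 k18_B00pm_102_s1

theorem t32_B00pm_102_s1 : ∃ t, chk3 f_B00pm_102_s1 t 58 57 1 = true := ex3_a k14_B00pm_102_s1 k15_B00pm_102_s1

theorem t33_B00pm_102_s1 : ∃ t, chk3 f_B00pm_102_s1 t 58 28 1 = true := ex3_b k13_B00pm_102_s1 t32_B00pm_102_s1

theorem t34_B00pm_102_s1 : ∃ t, chk3 f_B00pm_102_s1 t 29 28 1 = true := ex3_a t33_B00pm_102_s1 k16_B00pm_102_s1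

theorem t35_B00pm_102_s1 : ∃ t, chk3 f_B00pm_102_s1 t 29 14 1 = true := ex3_b t34_B00pm_102_s1 t31_B00pm_102_s1

theorem t36_B00pm_102_s1 : ∃ t, chk3 f_B00pm_102_s1 t 14 14 1 = true := ex3_a k12_B00pm_102_s1 t35_B00pm_102_s1

theorem t37_B00pm_102_s1 : ∃ t, chk3 f_B00pm_102_s1 t 7 14 1 = true := ex3_a t36_B00pm_102_s1 k19_B00pm_102_s1

theorem t38_B00pm_102_s1 : ∃ t, chk3 f_B00pm_102_s1 t 7 7 1 = true := ex3_b t37_B00pm_102_s1 t30_B00pm_102_s1

theorem t39_B00pm_102_s1 : ∃ t, chk3 f_B00pm_102_s1 t 7 3 1 = true := ex3_b k11_B00pm_102_s1 t38_B00pm_102_s1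

theorem t40_B00pm_102_s1 : ∃ t, chk3 f_B00pm_102_s1 t 6 6 1 = true := ex3_a k8_B00pm_102_s1 k9_B00pm_102_s1

theorem t41_B00pm_102_s1 : ∃ t, chk3 f_B00pm_102_s1 t 6 3 1 = true := ex3_b t40_B00pm_102_s1 k10_B00pm_102_s1

theorem t42_B00pm_102_s1 : ∃ t, chk3 f_B00pm_102_s1 t 3 3 1 = true := ex3_a t41_B00pm_102_s1 t39_B00pm_102_s1

theorem t43_B00pm_102_s1 : ∃ t, chk3 f_B00pm_102_s1 t 3 1 1 = true := ex3_b k7_B00pm_102_s1 t42_B00pm_102_s1

theorem t44_B00pm_102_s1 : ∃ t, chk3 f_B00pm_102_s1 t 11 10 1 = true := ex3_a k3_B00pm_102_s1 k4_B00pm_102_s1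

theorem t45_B00pm_102_s1 : ∃ t, chk3 f_B00pm_102_s1 t 11 5 1 = true := ex3_b t44_B00pm_102_s1 k5_B00pm_102_s1

theorem t46_B00pm_102_s1 : ∃ t, chk3 f_B00pm_102_s1 t 5 5 1 = true := ex3_a k2_B00pm_102_s1 t45_B00pm_102_s1

theorem t47_B00pm_102_s1 : ∃ t, chk3 f_B00pm_102_s1 t 5 2 1 = true := ex3_b k1_B00pm_102_s1 t46_B00pm_102_s1

theorem t48_B00pm_102_s1 : ∃ t, chk3 f_B00pm_102_s1 t 2 2 1 = true := ex3_a k0_B00pm_102_s1 t47_B00pm_102_s1

theorem t49_B00pm_102_s1 : ∃ t, chk3 f_B00pm_102_s1 t 2 1 1 = true := ex3_b t48_B00pm_102_s1 k6_B00pm_102_s1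

theorem t50_B00pm_102_s1 : ∃ t, chk3 f_B00pm_102_s1 t 1 1 1 = true := ex3_a t49_B00pm_102_s1 t43_B00pm_102_s1

theorem c_B00pm_102_s1 : CertF 536870912 536870912 0 536870912 536870912 50465866 false true false .npp 1 0 2
    ndB0q1 ndB0q2 pcB0 cut_B00pm_102_s1 xt_B00pm_102_s1 :=
  certF0 (fam := false) (s1 := true) (s2 := false) (a := 1) (b := 0) (c := 2) (cn := .npp) (n1 := ndB0q1) (n2 := ndB0q2) (pc := pcB0) (cut := cut_B00pm_102_s1) (xt := xt_B00pm_102_s1) (P1 := 536870912) (W1 := 536870912) (P2 := 0) (W2 := 536870912) (P3 := 536870912) (W3 := 50465866)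
    rfl t50_B00pm_102_s1

theorem s_B00pm_102_s1 {κ x : ℝ} (hκ : κ * h0 = ken x) (hx : ((536870912 : ℕ) : ℝ) / S ≤ x)
    (hx' : x ≤ (((536870912 : ℕ) : ℝ) + (50465866 : ℕ)) / S)
    (H : CutB (VFD κ) PP tK tL pcB (Cut.of [[⟨0, 1, 0, 67108864⟩, ⟨1, 0, 0, 67108864⟩, ⟨2, 1, 0, 67108864⟩], [⟨0, 0, 1, 20971520⟩, ⟨1, 1, 2, 20971520⟩, ⟨2, 1, 0, 33554432⟩]]) 1 0 2 0 0 (sgb true) (sgb false) x) :
    AltB (VFD κ) PP tK tL pcB [⟨3, 0, 0, 1449551462⟩] 1 0 2 0 0 (sgb true) (sgb false) x :=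
  strip_altBD (m := 1449551462) true rfl hκ (SH.κ0 hκ (SH.hx1 hx).le (SH.hx2 hx').le) (SH.hx1 hx).le (SH.hx2 hx') (covB01).cov (covB02).cov hx hx' c_B00pm_102_s1 H ((okx6 hx hx').extB (T := tt) (okx hx hx') (sideB hx hx') hκ rfl rfl (.O 1 true) (.O 2 false) (Or.inl rfl))

noncomputable def cut_B00pm_102_s3 : Cut := Cut.of [[⟨3, 0, 0, 2845415833⟩], [⟨0, 1, 0, 67108864⟩, ⟨1, 0, 0, 67108864⟩, ⟨2, 1, 0, 67108864⟩], [⟨0, 0, 1, 20971520⟩, ⟨1, 1, 2, 20971520⟩, ⟨2, 1, 0, 33554432⟩]]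

noncomputable def f_B00pm_102_s3 : ℕ → ℕ → ℕ → ℕ → Bool := onCell 536870912 536870912 0 536870912 536870912 50465866
    (rowF 0 false true false .npp 1 0 2 (qsf 536870912 536870912 0 536870912 0) ndB0q1 ndB0q2 pcB0 cut_B00pm_102_s3 Ext.none)

def k0_B00pm_102_s3 : ∃ t, chk3 f_B00pm_102_s3 t 1 1 1 = true :=
  ⟨(l 6), by decide +kernel⟩

theorem c_B00pm_102_s3 : CertF 536870912 536870912 0 536870912 536870912 50465866 false true false .npp 1 0 2
    ndB0q1 ndB0q2 pcB0 cut_B00pm_102_s3 Ext.none :=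
  certF0 (fam := false) (s1 := true) (s2 := false) (a := 1) (b := 0) (c := 2) (cn := .npp) (n1 := ndB0q1) (n2 := ndB0q2) (pc := pcB0) (cut := cut_B00pm_102_s3) (xt := Ext.none) (P1 := 536870912) (W1 := 536870912) (P2 := 0) (W2 := 536870912) (P3 := 536870912) (W3 := 50465866)
    rfl k0_B00pm_102_s3

theorem s_B00pm_102_s3 {κ x : ℝ} (hκ : κ * h0 = ken x) (hx : ((536870912 : ℕ) : ℝ) / S ≤ x)
    (hx' : x ≤ (((536870912 : ℕ) : ℝ) + (50465866 : ℕ)) / S)
    (H : CutB (VFD κ) PP tK tL pcB (Cut.of [[⟨0, 1, 0, 67108864⟩, ⟨1, 0, 0, 67108864⟩, ⟨2, 1, 0, 67108864⟩], [⟨0, 0, 1, 20971520⟩, ⟨1, 1, 2, 20971520⟩, ⟨2, 1, 0, 33554432⟩]]) 1 0 2 0 0 (sgb true) (sgb false) x) :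
    AltB (VFD κ) PP tK tL pcB [⟨4, 0, 0, 2845415833⟩] 1 0 2 0 0 (sgb true) (sgb false) x :=
  strip_altBD (m := 2845415833) false rfl hκ (SH.κ0 hκ (SH.hx1 hx).le (SH.hx2 hx').le) (SH.hx1 hx).le (SH.hx2 hx') (covB01).cov (covB02).cov hx hx' c_B00pm_102_s3 H (noExt_B)

noncomputable def cut_B00pm_112_s1 : Cut := Cut.of [[⟨4, 0, 0, 1449551462⟩], [⟨0, 0, 1, 20971520⟩, ⟨1, 1, 2, 20971520⟩, ⟨2, 1, 0, 33554432⟩]]

noncomputable def xt_B00pm_112_s1 : Ext := strExt6 dd false true false .u0 .u2 .u0m .dn 1 1 2 rfl rfl gf1 vv ww ndB0q1 ndB0q2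

noncomputable def f_B00pm_112_s1 : ℕ → ℕ → ℕ → ℕ → Bool := onCell 536870912 536870912 0 536870912 536870912 50465866
    (rowF 2 false true false .dn 1 1 2 (qsf 536870912 536870912 0 536870912 1) ndB0q1 ndB0q2 pcB1 cut_B00pm_112_s1 xt_B00pm_112_s1)

def k0_B00pm_112_s1 : ∃ t, chk3 f_B00pm_112_s1 t 4 4 1 = true :=
  ⟨(a (b (a (b (l 3) (a (b (l 3) (a (l 3) (l 1071145999))) (b (l 1071998479) (a (l 1071067663) (l 1070920207))))) (b (b (b (l 3) (l 1070075407)) (l 1070153231)) (a (b (l 1070518799) (l 1070614031)) (l 1069983247)))) (b (a (a (a (b (l 1071223823) (l 1071288847)) (l 1071245327)) (a (l 1071166479) (l 1071017487))) (a (b (l 1070681103) (a (l 16757136) (l 16751496))) (b (l 16750376) (a (l 16744944) (l 16737976))))) (a (a (a (b (b (l 1072410127) (a (l 1071898127) (l 16763640))) (b (c (l 1071849999) (l 1070962703)) (c (l 1071884815) (l 16765568)))) (b (b (l 1071327247) (l 16771896)) (b (l 16758560) (a (b (l 16757232) (l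 16755808)) (l 16755048))))) (a (b (l 1071263759) (b (a (l 16755728) (l 16753872)) (l 16752320))) (b (a (l 16756272) (l 16753648)) (l 16749232)))) (a (b (a (l 16739576) (l 16744480)) (l 16739472)) (l 16727544))))) (b (a (b (a (b (a (b (l 1069149199) (l 1069206031)) (l 1068755471)) (a (l 1069286927) (b (l 16775888) (l 16759848)))) (b (a (l 1068292623) (b (l 1067761167) (l 16756352))) (a (l 16776128) (l 16746424)))) (a (b (l 1069185551) (l 16744960)) (b (l 16738360) (b (l 16728408) (l 16722560))))) (a (b (b (a (l 1067459599) (l 16766496)) (a (l 16736576) (l 16731000))) (b (a (l 16721664) (l 16758184)) (a (l 16708248) (l 16700320)))) (b (b (l 1067891215) (a (l 16725424) (l 16762504))) (b (a (l 16752472) (l 16706200)) (l 16693928))))) (b (a (a (b (a (l 16738440) (l 16729784)) (l 16723696)) (l 16712424)) (a (l 16762864) (l 16669664))) (a (a (l 16706464) (l 16679768)) (a (l 16647576) (l 16632208)))))), by decide +kernel⟩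

def k1_B00pm_112_s1 : ∃ t, chk3 f_B00pm_112_s1 t 4 5 1 = true :=
  ⟨(a (a (b (b (a (a (a (b (a (b (b (l 16757488) (b (l 16777352) (l 16766432))) (l 16775576)) (b (b (l 16756808) (l 16776752)) (l 16754080))) (c (b (l 16757472) (l 16756104)) (l 16746064))) (b (b (a (b (l 16756192) (l 16755096)) (l 16776256)) (l 16753144)) (c (l 16755576) (l 16744384)))) (b (a (l 16752888) (l 16751048)) (a (l 16748192) (l 16746048)))) (a (b (l 16747752) (l 16742240)) (l 16739192))) (b (a (a (a (c (a (l 16754568) (l 16753872)) (l 16741392)) (c (l 16752664) (l 16739360))) (a (l 16743848) (l 16741344))) (l 16754632)) (a (a (a (c (a (l 16752416) (l 16751544)) (l 16737128)) (l 16763352)) (l 16759432)) (l 16770320)))) (a (b (a (b (a (c (l 16750064) (l 16733272)) (l 16739120)) (c (l 16747128) (l 16728200))) (b (l 16734616) (l 16731120))) (b (a (l 16777232) (l 16727928)) (a (l 16733152) (l 6)))) (b (a (l 16767328) (l 16716504)) (b (l 16714304) (l 6)))))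 (b (a (b (a (l 16732168) (l 16723872)) (l 16734768)) (b (l 16708888) (l 16690864))) (b (a (l 16742368) (l 16673544)) (l 6)))) (a (b (a (b (l 16683928) (l 16661736)) (b (l 16652832) (l 16625920))) (l 6)) (b (b (a (l 16615504) (l 16593440)) (a (l 16582960) (l 6))) (l 6)))), by decide +kernel⟩

def k2_B00pm_112_s1 : ∃ t, chk3 f_B00pm_112_s1 t 4 3 1 = true :=
  ⟨(b (l 6) (l 6)), by decide +kernel⟩

def k3_B00pm_112_s1 : ∃ t, chk3 f_B00pm_112_s1 t 5 1 1 = true :=
  ⟨(b (a (b (b (a (b (a (b (a (l 16728744) (l 16744840)) (a (l 16736224) (l 16710552))) (b (a (b (l 16721616) (l 16715104)) (l 16712984)) (l 16703776))) (a (l 16735256) (l 16727280))) (l 1)) (a (a (b (l 16748120) (l 16672464)) (b (l 16658400) (l 16627368))) (l 1))) (a (b (b (a (l 16637816) (l 6)) (l 6)) (l 6)) (l 1))) (l 1)) (l 6)), by decide +kernel⟩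

def k4_B00pm_112_s1 : ∃ t, chk3 f_B00pm_112_s1 t 3 1 1 = true :=
  ⟨(l 1), by decide +kernel⟩

theorem t5_B00pm_112_s1 : ∃ t, chk3 f_B00pm_112_s1 t 4 2 1 = true := ex3_b k0_B00pm_112_s1 k1_B00pm_112_s1

theorem t6_B00pm_112_s1 : ∃ t, chk3 f_B00pm_112_s1 t 4 1 1 = true := ex3_b t5_B00pm_112_s1 k2_B00pm_112_s1

theorem t7_B00pm_112_s1 : ∃ t, chk3 f_B00pm_112_s1 t 2 1 1 = true := ex3_a t6_B00pm_112_s1 k3_B00pm_112_s1

theorem t8_B00pm_112_s1 : ∃ t, chk3 f_B00pm_112_s1 t 1 1 1 = true := ex3_a t7_B00pm_112_s1 k4_B00pm_112_s1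

theorem c_B00pm_112_s1 : CertF 536870912 536870912 0 536870912 536870912 50465866 false true false .dn 1 1 2
    ndB0q1 ndB0q2 pcB1 cut_B00pm_112_s1 xt_B00pm_112_s1 :=
  certF2 (fam := false) (s1 := true) (s2 := false) (a := 1) (b := 1) (c := 2) (cn := .dn) (n1 := ndB0q1) (n2 := ndB0q2) (pc := pcB1) (cut := cut_B00pm_112_s1) (xt := xt_B00pm_112_s1) (P1 := 536870912) (W1 := 536870912) (P2 := 0) (W2 := 536870912) (P3 := 536870912) (W3 := 50465866)
    rfl (fun _ => rfl) t8_B00pm_112_s1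

theorem s_B00pm_112_s1 {κ x : ℝ} (hκ : κ * h0 = ken x) (hx : ((536870912 : ℕ) : ℝ) / S ≤ x)
    (hx' : x ≤ (((536870912 : ℕ) : ℝ) + (50465866 : ℕ)) / S)
    (H : CutB (VFD κ) PP tK tL pcB (Cut.of [[⟨0, 0, 1, 20971520⟩, ⟨1, 1, 2, 20971520⟩, ⟨2, 1, 0, 33554432⟩]]) 1 1 2 0 0 (sgb true) (sgb false) x) :
    AltB (VFD κ) PP tK tL pcB [⟨3, 0, 0, 1449551462⟩] 1 1 2 0 0 (sgb true) (sgb false) x :=
  strip_altBD (m := 1449551462) true rfl hκ (SH.κ0 hκ (SH.hx1 hx).le (SH.hx2 hx').le) (SH.hx1 hx).le (SH.hx2 hx') (covB01).cov (covB02).cov hx hx' c_B00pm_112_s1 H ((okx6 hx hx').extB (T := tt) (okx hx hx') (sideB hx hx') hκ rfl rfl (.O 1 true) (.O 2 false) (Or.inr rfl))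

noncomputable def cut_B00pm_112_s3 : Cut := Cut.of [[⟨3, 0, 0, 2845415833⟩], [⟨0, 0, 1, 20971520⟩, ⟨1, 1, 2, 20971520⟩, ⟨2, 1, 0, 33554432⟩]]

noncomputable def f_B00pm_112_s3 : ℕ → ℕ → ℕ → ℕ → Bool := onCell 536870912 536870912 0 536870912 536870912 50465866
    (rowF 0 false true false .dn 1 1 2 (qsf 536870912 536870912 0 536870912 1) ndB0q1 ndB0q2 pcB1 cut_B00pm_112_s3 Ext.none)

def k0_B00pm_112_s3 : ∃ t, chk3 f_B00pm_112_s3 t 1 1 1 = true :=
  ⟨(l 6), by decide +kernel⟩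

theorem c_B00pm_112_s3 : CertF 536870912 536870912 0 536870912 536870912 50465866 false true false .dn 1 1 2
    ndB0q1 ndB0q2 pcB1 cut_B00pm_112_s3 Ext.none :=
  certF0 (fam := false) (s1 := true) (s2 := false) (a := 1) (b := 1) (c := 2) (cn := .dn) (n1 := ndB0q1) (n2 := ndB0q2) (pc := pcB1) (cut := cut_B00pm_112_s3) (xt := Ext.none) (P1 := 536870912) (W1 := 536870912) (P2 := 0) (W2 := 536870912) (P3 := 536870912) (W3 := 50465866)
    rfl k0_B00pm_112_s3

theorem s_B00pm_112_s3 {κ x : ℝ} (hκ : κ * h0 = ken x) (hx : ((536870912 : ℕ) : ℝ) / S ≤ x)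
    (hx' : x ≤ (((536870912 : ℕ) : ℝ) + (50465866 : ℕ)) / S)
    (H : CutB (VFD κ) PP tK tL pcB (Cut.of [[⟨0, 0, 1, 20971520⟩, ⟨1, 1, 2, 20971520⟩, ⟨2, 1, 0, 33554432⟩]]) 1 1 2 0 0 (sgb true) (sgb false) x) :
    AltB (VFD κ) PP tK tL pcB [⟨4, 0, 0, 2845415833⟩] 1 1 2 0 0 (sgb true) (sgb false) x :=
  strip_altBD (m := 2845415833) false rfl hκ (SH.κ0 hκ (SH.hx1 hx).le (SH.hx2 hx').le) (SH.hx1 hx).le (SH.hx2 hx') (covB01).cov (covB02).cov hx hx' c_B00pm_112_s3 H (noExt_B)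

noncomputable def cut_B00pm_202_s1 : Cut := Cut.of [[⟨4, 0, 0, 1449551462⟩], [⟨0, 1, 0, 67108864⟩, ⟨1, 0, 0, 67108864⟩, ⟨2, 1, 0, 67108864⟩]]

noncomputable def f_B00pm_202_s1 : ℕ → ℕ → ℕ → ℕ → Bool := onCell 0 536870912 0 536870912 536870912 50465866
    (rowF 0 false true false .pp 2 0 2 (qsf 0 536870912 0 536870912 0) ndB0q2 ndB0q2 pcB0 cut_B00pm_202_s1 Ext.none)

def k0_B00pm_202_s1 : ∃ t, chk3 f_B00pm_202_s1 t 1 1 1 = true :=
  ⟨(a (l 3) (b (l 3) (b (l 3) (a (l 3) (b (l 3) (a (l 3) (l 14))))))), by decide +kernel⟩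

theorem c_B00pm_202_s1 : CertF 0 536870912 0 536870912 536870912 50465866 false true false .pp 2 0 2
    ndB0q2 ndB0q2 pcB0 cut_B00pm_202_s1 Ext.none :=
  certF0 (fam := false) (s1 := true) (s2 := false) (a := 2) (b := 0) (c := 2) (cn := .pp) (n1 := ndB0q2) (n2 := ndB0q2) (pc := pcB0) (cut := cut_B00pm_202_s1) (xt := Ext.none) (P1 := 0) (W1 := 536870912) (P2 := 0) (W2 := 536870912) (P3 := 536870912) (W3 := 50465866)
    rfl k0_B00pm_202_s1

theorem s_B00pm_202_s1 {κ x : ℝ} (hκ : κ * h0 = ken x) (hx : ((536870912 : ℕ) : ℝ) / S ≤ x)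
    (hx' : x ≤ (((536870912 : ℕ) : ℝ) + (50465866 : ℕ)) / S)
    (H : CutB (VFD κ) PP tK tL pcB (Cut.of [[⟨0, 1, 0, 67108864⟩, ⟨1, 0, 0, 67108864⟩, ⟨2, 1, 0, 67108864⟩]]) 2 0 2 0 0 (sgb true) (sgb false) x) :
    AltB (VFD κ) PP tK tL pcB [⟨3, 0, 0, 1449551462⟩] 2 0 2 0 0 (sgb true) (sgb false) x :=
  strip_altBD (m := 1449551462) true rfl hκ (SH.κ0 hκ (SH.hx1 hx).le (SH.hx2 hx').le) (SH.hx1 hx).le (SH.hx2 hx') (covB02).cov (covB02).cov hx hx' c_B00pm_202_s1 H (noExt_B)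

noncomputable def cut_B00pm_202_s3 : Cut := Cut.of [[⟨3, 0, 0, 2845415833⟩], [⟨0, 1, 0, 67108864⟩, ⟨1, 0, 0, 67108864⟩, ⟨2, 1, 0, 67108864⟩]]

noncomputable def f_B00pm_202_s3 : ℕ → ℕ → ℕ → ℕ → Bool := onCell 0 536870912 0 536870912 536870912 50465866
    (rowF 0 false true false .pp 2 0 2 (qsf 0 536870912 0 536870912 0) ndB0q2 ndB0q2 pcB0 cut_B00pm_202_s3 Ext.none)

def k0_B00pm_202_s3 : ∃ t, chk3 f_B00pm_202_s3 t 1 1 1 = true :=
  ⟨(l 6), by decide +kernel⟩

theorem c_B00pm_202_s3 : CertF 0 536870912 0 536870912 536870912 50465866 false true false .pp 2 0 2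
    ndB0q2 ndB0q2 pcB0 cut_B00pm_202_s3 Ext.none :=
  certF0 (fam := false) (s1 := true) (s2 := false) (a := 2) (b := 0) (c := 2) (cn := .pp) (n1 := ndB0q2) (n2 := ndB0q2) (pc := pcB0) (cut := cut_B00pm_202_s3) (xt := Ext.none) (P1 := 0) (W1 := 536870912) (P2 := 0) (W2 := 536870912) (P3 := 536870912) (W3 := 50465866)
    rfl k0_B00pm_202_s3

theorem s_B00pm_202_s3 {κ x : ℝ} (hκ : κ * h0 = ken x) (hx : ((536870912 : ℕ) : ℝ) / S ≤ x)
    (hx' : x ≤ (((536870912 : ℕ) : ℝ) + (50465866 : ℕ)) / S)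
    (H : CutB (VFD κ) PP tK tL pcB (Cut.of [[⟨0, 1, 0, 67108864⟩, ⟨1, 0, 0, 67108864⟩, ⟨2, 1, 0, 67108864⟩]]) 2 0 2 0 0 (sgb true) (sgb false) x) :
    AltB (VFD κ) PP tK tL pcB [⟨4, 0, 0, 2845415833⟩] 2 0 2 0 0 (sgb true) (sgb false) x :=
  strip_altBD (m := 2845415833) false rfl hκ (SH.κ0 hκ (SH.hx1 hx).le (SH.hx2 hx').le) (SH.hx1 hx).le (SH.hx2 hx') (covB02).cov (covB02).cov hx hx' c_B00pm_202_s3 H (noExt_B)

noncomputable def cut_B00mm_001_s1 : Cut := Cut.of [[⟨4, 0, 0, 1449551462⟩]]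

noncomputable def f_B00mm_001_s1 : ℕ → ℕ → ℕ → ℕ → Bool := onCell 0 536870912 0 536870912 536870912 50465866
    (rowF 1 false false false .up 0 0 1 (qsf 0 536870912 536870912 536870912 0) ndB0q0 ndB0q1 pcB0 cut_B00mm_001_s1 Ext.none)

def k0_B00mm_001_s1 : ∃ t, chk3 f_B00mm_001_s1 t 1 1 1 = true :=
  ⟨(l 3), by decide +kernel⟩

theorem c_B00mm_001_s1 : CertF 0 536870912 536870912 536870912 536870912 50465866 false false false .up 0 0 1
    ndB0q0 ndB0q1 pcB0 cut_B00mm_001_s1 Ext.none :=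
  certF1 (fam := false) (s1 := false) (s2 := false) (a := 0) (b := 0) (c := 1) (cn := .up) (n1 := ndB0q0) (n2 := ndB0q1) (pc := pcB0) (cut := cut_B00mm_001_s1) (xt := Ext.none) (P1 := 0) (W1 := 536870912) (P2 := 536870912) (W2 := 536870912) (P3 := 536870912) (W3 := 50465866)
    rfl (fun _ => rfl) k0_B00mm_001_s1

theorem s_B00mm_001_s1 {κ x : ℝ} (hκ : κ * h0 = ken x) (hx : ((536870912 : ℕ) : ℝ) / S ≤ x)
    (hx' : x ≤ (((536870912 : ℕ) : ℝ) + (50465866 : ℕ)) / S) :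
    AltB (VFD κ) PP tK tL pcB [⟨3, 0, 0, 1449551462⟩] 0 0 1 0 0 (sgb false) (sgb false) x :=
  strip_altBD (m := 1449551462) true rfl hκ (SH.κ0 hκ (SH.hx1 hx).le (SH.hx2 hx').le) (SH.hx1 hx).le (SH.hx2 hx') (covB00).cov (covB01).cov hx hx' c_B00mm_001_s1 cutB_nil (noExt_B)

noncomputable def cut_B00mm_001_s3 : Cut := Cut.of [[⟨3, 0, 0, 2845415833⟩]]

noncomputable def f_B00mm_001_s3 : ℕ → ℕ → ℕ → ℕ → Bool := onCell 0 536870912 536870912 536870912 536870912 50465866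
    (rowF 0 false false false .up 0 0 1 (qsf 0 536870912 536870912 536870912 0) ndB0q0 ndB0q1 pcB0 cut_B00mm_001_s3 Ext.none)

def k0_B00mm_001_s3 : ∃ t, chk3 f_B00mm_001_s3 t 1 1 1 = true :=
  ⟨(l 6), by decide +kernel⟩

theorem c_B00mm_001_s3 : CertF 0 536870912 536870912 536870912 536870912 50465866 false false false .up 0 0 1
    ndB0q0 ndB0q1 pcB0 cut_B00mm_001_s3 Ext.none :=
  certF0 (fam := false) (s1 := false) (s2 := false) (a := 0) (b := 0) (c := 1) (cn := .up) (n1 := ndB0q0) (n2 := ndB0q1) (pc := pcB0) (cut := cut_B00mm_001_s3) (xt := Ext.none) (P1 := 0) (W1 := 536870912) (P2 := 536870912) (W2 := 536870912) (P3 := 536870912) (W3 := 50465866)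
    rfl k0_B00mm_001_s3

theorem s_B00mm_001_s3 {κ x : ℝ} (hκ : κ * h0 = ken x) (hx : ((536870912 : ℕ) : ℝ) / S ≤ x)
    (hx' : x ≤ (((536870912 : ℕ) : ℝ) + (50465866 : ℕ)) / S) :
    AltB (VFD κ) PP tK tL pcB [⟨4, 0, 0, 2845415833⟩] 0 0 1 0 0 (sgb false) (sgb false) x :=
  strip_altBD (m := 2845415833) false rfl hκ (SH.κ0 hκ (SH.hx1 hx).le (SH.hx2 hx').le) (SH.hx1 hx).le (SH.hx2 hx') (covB00).cov (covB01).cov hx hx' c_B00mm_001_s3 cutB_nil (noExt_B)

noncomputable def cut_B00mm_011_s1 : Cut := Cut.of [[⟨4, 0, 0, 1449551462⟩]]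

noncomputable def f_B00mm_011_s1 : ℕ → ℕ → ℕ → ℕ → Bool := onCell 0 536870912 536870912 536870912 536870912 50465866
    (rowF 1 false false false .pnn 0 1 1 (qsf 0 536870912 536870912 536870912 1) ndB0q0 ndB0q1 pcB1 cut_B00mm_011_s1 Ext.none)

def k0_B00mm_011_s1 : ∃ t, chk3 f_B00mm_011_s1 t 1 1 1 = true :=
  ⟨(l 5), by decide +kernel⟩

theorem c_B00mm_011_s1 : CertF 0 536870912 536870912 536870912 536870912 50465866 false false false .pnn 0 1 1
    ndB0q0 ndB0q1 pcB1 cut_B00mm_011_s1 Ext.none :=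
  certF1 (fam := false) (s1 := false) (s2 := false) (a := 0) (b := 1) (c := 1) (cn := .pnn) (n1 := ndB0q0) (n2 := ndB0q1) (pc := pcB1) (cut := cut_B00mm_011_s1) (xt := Ext.none) (P1 := 0) (W1 := 536870912) (P2 := 536870912) (W2 := 536870912) (P3 := 536870912) (W3 := 50465866)
    rfl (fun _ => rfl) k0_B00mm_011_s1

theorem s_B00mm_011_s1 {κ x : ℝ} (hκ : κ * h0 = ken x) (hx : ((536870912 : ℕ) : ℝ) / S ≤ x)
    (hx' : x ≤ (((536870912 : ℕ) : ℝ) + (50465866 : ℕ)) / S) :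
    AltB (VFD κ) PP tK tL pcB [⟨3, 0, 0, 1449551462⟩] 0 1 1 0 0 (sgb false) (sgb false) x :=
  strip_altBD (m := 1449551462) true rfl hκ (SH.κ0 hκ (SH.hx1 hx).le (SH.hx2 hx').le) (SH.hx1 hx).le (SH.hx2 hx') (covB00).cov (covB01).cov hx hx' c_B00mm_011_s1 cutB_nil (noExt_B)

noncomputable def cut_B00mm_011_s3 : Cut := Cut.of [[⟨3, 0, 0, 2845415833⟩]]

noncomputable def f_B00mm_011_s3 : ℕ → ℕ → ℕ → ℕ → Bool := onCell 0 536870912 536870912 536870912 536870912 50465866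
    (rowF 0 false false false .pnn 0 1 1 (qsf 0 536870912 536870912 536870912 1) ndB0q0 ndB0q1 pcB1 cut_B00mm_011_s3 Ext.none)

def k0_B00mm_011_s3 : ∃ t, chk3 f_B00mm_011_s3 t 1 1 1 = true :=
  ⟨(l 6), by decide +kernel⟩

theorem c_B00mm_011_s3 : CertF 0 536870912 536870912 536870912 536870912 50465866 false false false .pnn 0 1 1
    ndB0q0 ndB0q1 pcB1 cut_B00mm_011_s3 Ext.none :=
  certF0 (fam := false) (s1 := false) (s2 := false) (a := 0) (b := 1) (c := 1) (cn := .pnn) (n1 := ndB0q0) (n2 := ndB0q1) (pc := pcB1) (cut := cut_B00mm_011_s3) (xt := Ext.none) (P1 := 0) (W1 := 536870912) (P2 := 536870912) (W2 := 536870912) (P3 := 536870912) (W3 := 50465866)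
    rfl k0_B00mm_011_s3

theorem s_B00mm_011_s3 {κ x : ℝ} (hκ : κ * h0 = ken x) (hx : ((536870912 : ℕ) : ℝ) / S ≤ x)
    (hx' : x ≤ (((536870912 : ℕ) : ℝ) + (50465866 : ℕ)) / S) :
    AltB (VFD κ) PP tK tL pcB [⟨4, 0, 0, 2845415833⟩] 0 1 1 0 0 (sgb false) (sgb false) x :=
  strip_altBD (m := 2845415833) false rfl hκ (SH.κ0 hκ (SH.hx1 hx).le (SH.hx2 hx').le) (SH.hx1 hx).le (SH.hx2 hx') (covB00).cov (covB01).cov hx hx' c_B00mm_011_s3 cutB_nil (noExt_B)

noncomputable def cut_B00mm_012_s1 : Cut := Cut.of [[⟨4, 0, 0, 1449551462⟩]]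

noncomputable def f_B00mm_012_s1 : ℕ → ℕ → ℕ → ℕ → Bool := onCell 0 536870912 0 536870912 536870912 50465866
    (rowF 0 false false false .pnp 0 1 2 (qsf 0 536870912 0 536870912 1) ndB0q0 ndB0q2 pcB1 cut_B00mm_012_s1 Ext.none)

def k0_B00mm_012_s1 : ∃ t, chk3 f_B00mm_012_s1 t 1 1 1 = true :=
  ⟨(l 5), by decide +kernel⟩

theorem c_B00mm_012_s1 : CertF 0 536870912 0 536870912 536870912 50465866 false false false .pnp 0 1 2
    ndB0q0 ndB0q2 pcB1 cut_B00mm_012_s1 Ext.none :=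
  certF0 (fam := false) (s1 := false) (s2 := false) (a := 0) (b := 1) (c := 2) (cn := .pnp) (n1 := ndB0q0) (n2 := ndB0q2) (pc := pcB1) (cut := cut_B00mm_012_s1) (xt := Ext.none) (P1 := 0) (W1 := 536870912) (P2 := 0) (W2 := 536870912) (P3 := 536870912) (W3 := 50465866)
    rfl k0_B00mm_012_s1

theorem s_B00mm_012_s1 {κ x : ℝ} (hκ : κ * h0 = ken x) (hx : ((536870912 : ℕ) : ℝ) / S ≤ x)
    (hx' : x ≤ (((536870912 : ℕ) : ℝ) + (50465866 : ℕ)) / S) :
    AltB (VFD κ) PP tK tL pcB [⟨3, 0, 0, 1449551462⟩] 0 1 2 0 0 (sgb false) (sgb false) x :=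
  strip_altBD (m := 1449551462) true rfl hκ (SH.κ0 hκ (SH.hx1 hx).le (SH.hx2 hx').le) (SH.hx1 hx).le (SH.hx2 hx') (covB00).cov (covB02).cov hx hx' c_B00mm_012_s1 cutB_nil (noExt_B)

noncomputable def cut_B00mm_012_s3 : Cut := Cut.of [[⟨3, 0, 0, 2845415833⟩]]

noncomputable def f_B00mm_012_s3 : ℕ → ℕ → ℕ → ℕ → Bool := onCell 0 536870912 0 536870912 536870912 50465866
    (rowF 0 false false false .pnp 0 1 2 (qsf 0 536870912 0 536870912 1) ndB0q0 ndB0q2 pcB1 cut_B00mm_012_s3 Ext.none)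

def k0_B00mm_012_s3 : ∃ t, chk3 f_B00mm_012_s3 t 1 1 1 = true :=
  ⟨(l 5), by decide +kernel⟩

theorem c_B00mm_012_s3 : CertF 0 536870912 0 536870912 536870912 50465866 false false false .pnp 0 1 2
    ndB0q0 ndB0q2 pcB1 cut_B00mm_012_s3 Ext.none :=
  certF0 (fam := false) (s1 := false) (s2 := false) (a := 0) (b := 1) (c := 2) (cn := .pnp) (n1 := ndB0q0) (n2 := ndB0q2) (pc := pcB1) (cut := cut_B00mm_012_s3) (xt := Ext.none) (P1 := 0) (W1 := 536870912) (P2 := 0) (W2 := 536870912) (P3 := 536870912) (W3 := 50465866)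
    rfl k0_B00mm_012_s3

theorem s_B00mm_012_s3 {κ x : ℝ} (hκ : κ * h0 = ken x) (hx : ((536870912 : ℕ) : ℝ) / S ≤ x)
    (hx' : x ≤ (((536870912 : ℕ) : ℝ) + (50465866 : ℕ)) / S) :
    AltB (VFD κ) PP tK tL pcB [⟨4, 0, 0, 2845415833⟩] 0 1 2 0 0 (sgb false) (sgb false) x :=
  strip_altBD (m := 2845415833) false rfl hκ (SH.κ0 hκ (SH.hx1 hx).le (SH.hx2 hx').le) (SH.hx1 hx).le (SH.hx2 hx') (covB00).cov (covB02).cov hx hx' c_B00mm_012_s3 cutB_nil (noExt_B)

noncomputable def cut_B00mm_022_s1 : Cut := Cut.of [[⟨4, 0, 0, 1449551462⟩]]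

noncomputable def f_B00mm_022_s1 : ℕ → ℕ → ℕ → ℕ → Bool := onCell 0 536870912 0 536870912 536870912 50465866
    (rowF 0 false false false .pp 0 2 2 (qsf 0 536870912 0 536870912 2) ndB0q0 ndB0q2 pcB2 cut_B00mm_022_s1 Ext.none)

def k0_B00mm_022_s1 : ∃ t, chk3 f_B00mm_022_s1 t 1 1 1 = true :=
  ⟨(l 5), by decide +kernel⟩

theorem c_B00mm_022_s1 : CertF 0 536870912 0 536870912 536870912 50465866 false false false .pp 0 2 2
    ndB0q0 ndB0q2 pcB2 cut_B00mm_022_s1 Ext.none :=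
  certF0 (fam := false) (s1 := false) (s2 := false) (a := 0) (b := 2) (c := 2) (cn := .pp) (n1 := ndB0q0) (n2 := ndB0q2) (pc := pcB2) (cut := cut_B00mm_022_s1) (xt := Ext.none) (P1 := 0) (W1 := 536870912) (P2 := 0) (W2 := 536870912) (P3 := 536870912) (W3 := 50465866)
    rfl k0_B00mm_022_s1

theorem s_B00mm_022_s1 {κ x : ℝ} (hκ : κ * h0 = ken x) (hx : ((536870912 : ℕ) : ℝ) / S ≤ x)
    (hx' : x ≤ (((536870912 : ℕ) : ℝ) + (50465866 : ℕ)) / S) :
    AltB (VFD κ) PP tK tL pcB [⟨3, 0, 0, 1449551462⟩] 0 2 2 0 0 (sgb false) (sgb false) x :=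
  strip_altBD (m := 1449551462) true rfl hκ (SH.κ0 hκ (SH.hx1 hx).le (SH.hx2 hx').le) (SH.hx1 hx).le (SH.hx2 hx') (covB00).cov (covB02).cov hx hx' c_B00mm_022_s1 cutB_nil (noExt_B)

noncomputable def cut_B00mm_022_s3 : Cut := Cut.of [[⟨3, 0, 0, 2845415833⟩]]

noncomputable def f_B00mm_022_s3 : ℕ → ℕ → ℕ → ℕ → Bool := onCell 0 536870912 0 536870912 536870912 50465866
    (rowF 0 false false false .pp 0 2 2 (qsf 0 536870912 0 536870912 2) ndB0q0 ndB0q2 pcB2 cut_B00mm_022_s3 Ext.none)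

def k0_B00mm_022_s3 : ∃ t, chk3 f_B00mm_022_s3 t 1 1 1 = true :=
  ⟨(l 5), by decide +kernel⟩

theorem c_B00mm_022_s3 : CertF 0 536870912 0 536870912 536870912 50465866 false false false .pp 0 2 2
    ndB0q0 ndB0q2 pcB2 cut_B00mm_022_s3 Ext.none :=
  certF0 (fam := false) (s1 := false) (s2 := false) (a := 0) (b := 2) (c := 2) (cn := .pp) (n1 := ndB0q0) (n2 := ndB0q2) (pc := pcB2) (cut := cut_B00mm_022_s3) (xt := Ext.none) (P1 := 0) (W1 := 536870912) (P2 := 0) (W2 := 536870912) (P3 := 536870912) (W3 := 50465866)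
    rfl k0_B00mm_022_s3

theorem s_B00mm_022_s3 {κ x : ℝ} (hκ : κ * h0 = ken x) (hx : ((536870912 : ℕ) : ℝ) / S ≤ x)
    (hx' : x ≤ (((536870912 : ℕ) : ℝ) + (50465866 : ℕ)) / S) :
    AltB (VFD κ) PP tK tL pcB [⟨4, 0, 0, 2845415833⟩] 0 2 2 0 0 (sgb false) (sgb false) x :=
  strip_altBD (m := 2845415833) false rfl hκ (SH.κ0 hκ (SH.hx1 hx).le (SH.hx2 hx').le) (SH.hx1 hx).le (SH.hx2 hx') (covB00).cov (covB02).cov hx hx' c_B00mm_022_s3 cutB_nil (noExt_B)

noncomputable def cut_B00mm_101_s1 : Cut := Cut.of [[⟨4, 0, 0, 1449551462⟩]]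

noncomputable def f_B00mm_101_s1 : ℕ → ℕ → ℕ → ℕ → Bool := onCell 536870912 536870912 536870912 536870912 536870912 50465866
    (rowF 0 false false false .npn 1 0 1 (qsf 536870912 536870912 536870912 536870912 0) ndB0q1 ndB0q1 pcB0 cut_B00mm_101_s1 Ext.none)

def k0_B00mm_101_s1 : ∃ t, chk3 f_B00mm_101_s1 t 1 1 1 = true :=
  ⟨(l 3), by decide +kernel⟩

theorem c_B00mm_101_s1 : CertF 536870912 536870912 536870912 536870912 536870912 50465866 false false false .npn 1 0 1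
    ndB0q1 ndB0q1 pcB0 cut_B00mm_101_s1 Ext.none :=
  certF0 (fam := false) (s1 := false) (s2 := false) (a := 1) (b := 0) (c := 1) (cn := .npn) (n1 := ndB0q1) (n2 := ndB0q1) (pc := pcB0) (cut := cut_B00mm_101_s1) (xt := Ext.none) (P1 := 536870912) (W1 := 536870912) (P2 := 536870912) (W2 := 536870912) (P3 := 536870912) (W3 := 50465866)
    rfl k0_B00mm_101_s1

theorem s_B00mm_101_s1 {κ x : ℝ} (hκ : κ * h0 = ken x) (hx : ((536870912 : ℕ) : ℝ) / S ≤ x)
    (hx' : x ≤ (((536870912 : ℕ) : ℝ) + (50465866 : ℕ)) / S) :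
    AltB (VFD κ) PP tK tL pcB [⟨3, 0, 0, 1449551462⟩] 1 0 1 0 0 (sgb false) (sgb false) x :=
  strip_altBD (m := 1449551462) true rfl hκ (SH.κ0 hκ (SH.hx1 hx).le (SH.hx2 hx').le) (SH.hx1 hx).le (SH.hx2 hx') (covB01).cov (covB01).cov hx hx' c_B00mm_101_s1 cutB_nil (noExt_B)

noncomputable def cut_B00mm_101_s3 : Cut := Cut.of [[⟨3, 0, 0, 2845415833⟩]]

noncomputable def f_B00mm_101_s3 : ℕ → ℕ → ℕ → ℕ → Bool := onCell 536870912 536870912 536870912 536870912 536870912 50465866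
    (rowF 0 false false false .npn 1 0 1 (qsf 536870912 536870912 536870912 536870912 0) ndB0q1 ndB0q1 pcB0 cut_B00mm_101_s3 Ext.none)

def k0_B00mm_101_s3 : ∃ t, chk3 f_B00mm_101_s3 t 1 1 1 = true :=
  ⟨(l 3), by decide +kernel⟩

theorem c_B00mm_101_s3 : CertF 536870912 536870912 536870912 536870912 536870912 50465866 false false false .npn 1 0 1
    ndB0q1 ndB0q1 pcB0 cut_B00mm_101_s3 Ext.none :=
  certF0 (fam := false) (s1 := false) (s2 := false) (a := 1) (b := 0) (c := 1) (cn := .npn) (n1 := ndB0q1) (n2 := ndB0q1) (pc := pcB0) (cut := cut_B00mm_101_s3) (xt := Ext.none) (P1 := 536870912) (W1 := 536870912) (P2 := 536870912) (W2 := 536870912) (P3 := 536870912) (W3 := 50465866)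
    rfl k0_B00mm_101_s3

theorem s_B00mm_101_s3 {κ x : ℝ} (hκ : κ * h0 = ken x) (hx : ((536870912 : ℕ) : ℝ) / S ≤ x)
    (hx' : x ≤ (((536870912 : ℕ) : ℝ) + (50465866 : ℕ)) / S) :
    AltB (VFD κ) PP tK tL pcB [⟨4, 0, 0, 2845415833⟩] 1 0 1 0 0 (sgb false) (sgb false) x :=
  strip_altBD (m := 2845415833) false rfl hκ (SH.κ0 hκ (SH.hx1 hx).le (SH.hx2 hx').le) (SH.hx1 hx).le (SH.hx2 hx') (covB01).cov (covB01).cov hx hx' c_B00mm_101_s3 cutB_nil (noExt_B)

noncomputable def cut_B00mm_102_s1 : Cut := Cut.of [[⟨4, 0, 0, 1449551462⟩]]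

noncomputable def f_B00mm_102_s1 : ℕ → ℕ → ℕ → ℕ → Bool := onCell 536870912 536870912 0 536870912 536870912 50465866
    (rowF 0 false false false .npp 1 0 2 (qsf 536870912 536870912 0 536870912 0) ndB0q1 ndB0q2 pcB0 cut_B00mm_102_s1 Ext.none)

def k0_B00mm_102_s1 : ∃ t, chk3 f_B00mm_102_s1 t 1 1 1 = true :=
  ⟨(a (l 5) (l 3)), by decide +kernel⟩

theorem c_B00mm_102_s1 : CertF 536870912 536870912 0 536870912 536870912 50465866 false false false .npp 1 0 2
    ndB0q1 ndB0q2 pcB0 cut_B00mm_102_s1 Ext.none :=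
  certF0 (fam := false) (s1 := false) (s2 := false) (a := 1) (b := 0) (c := 2) (cn := .npp) (n1 := ndB0q1) (n2 := ndB0q2) (pc := pcB0) (cut := cut_B00mm_102_s1) (xt := Ext.none) (P1 := 536870912) (W1 := 536870912) (P2 := 0) (W2 := 536870912) (P3 := 536870912) (W3 := 50465866)
    rfl k0_B00mm_102_s1

theorem s_B00mm_102_s1 {κ x : ℝ} (hκ : κ * h0 = ken x) (hx : ((536870912 : ℕ) : ℝ) / S ≤ x)
    (hx' : x ≤ (((536870912 : ℕ) : ℝ) + (50465866 : ℕ)) / S) :
    AltB (VFD κ) PP tK tL pcB [⟨3, 0, 0, 1449551462⟩] 1 0 2 0 0 (sgb false) (sgb false) x :=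
  strip_altBD (m := 1449551462) true rfl hκ (SH.κ0 hκ (SH.hx1 hx).le (SH.hx2 hx').le) (SH.hx1 hx).le (SH.hx2 hx') (covB01).cov (covB02).cov hx hx' c_B00mm_102_s1 cutB_nil (noExt_B)

noncomputable def cut_B00mm_102_s3 : Cut := Cut.of [[⟨3, 0, 0, 2845415833⟩]]

noncomputable def f_B00mm_102_s3 : ℕ → ℕ → ℕ → ℕ → Bool := onCell 536870912 536870912 0 536870912 536870912 50465866
    (rowF 0 false false false .npp 1 0 2 (qsf 536870912 536870912 0 536870912 0) ndB0q1 ndB0q2 pcB0 cut_B00mm_102_s3 Ext.none)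

def k0_B00mm_102_s3 : ∃ t, chk3 f_B00mm_102_s3 t 1 1 1 = true :=
  ⟨(l 6), by decide +kernel⟩

theorem c_B00mm_102_s3 : CertF 536870912 536870912 0 536870912 536870912 50465866 false false false .npp 1 0 2
    ndB0q1 ndB0q2 pcB0 cut_B00mm_102_s3 Ext.none :=
  certF0 (fam := false) (s1 := false) (s2 := false) (a := 1) (b := 0) (c := 2) (cn := .npp) (n1 := ndB0q1) (n2 := ndB0q2) (pc := pcB0) (cut := cut_B00mm_102_s3) (xt := Ext.none) (P1 := 536870912) (W1 := 536870912) (P2 := 0) (W2 := 536870912) (P3 := 536870912) (W3 := 50465866)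
    rfl k0_B00mm_102_s3

theorem s_B00mm_102_s3 {κ x : ℝ} (hκ : κ * h0 = ken x) (hx : ((536870912 : ℕ) : ℝ) / S ≤ x)
    (hx' : x ≤ (((536870912 : ℕ) : ℝ) + (50465866 : ℕ)) / S) :
    AltB (VFD κ) PP tK tL pcB [⟨4, 0, 0, 2845415833⟩] 1 0 2 0 0 (sgb false) (sgb false) x :=
  strip_altBD (m := 2845415833) false rfl hκ (SH.κ0 hκ (SH.hx1 hx).le (SH.hx2 hx').le) (SH.hx1 hx).le (SH.hx2 hx') (covB01).cov (covB02).cov hx hx' c_B00mm_102_s3 cutB_nil (noExt_B)

noncomputable def cut_B00mm_112_s1 : Cut := Cut.of [[⟨4, 0, 0, 1449551462⟩]]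

noncomputable def f_B00mm_112_s1 : ℕ → ℕ → ℕ → ℕ → Bool := onCell 536870912 536870912 0 536870912 536870912 50465866
    (rowF 2 false false false .dn 1 1 2 (qsf 536870912 536870912 0 536870912 1) ndB0q1 ndB0q2 pcB1 cut_B00mm_112_s1 Ext.none)

def k0_B00mm_112_s1 : ∃ t, chk3 f_B00mm_112_s1 t 1 1 1 = true :=
  ⟨(l 5), by decide +kernel⟩

theorem c_B00mm_112_s1 : CertF 536870912 536870912 0 536870912 536870912 50465866 false false false .dn 1 1 2
    ndB0q1 ndB0q2 pcB1 cut_B00mm_112_s1 Ext.none :=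
  certF2 (fam := false) (s1 := false) (s2 := false) (a := 1) (b := 1) (c := 2) (cn := .dn) (n1 := ndB0q1) (n2 := ndB0q2) (pc := pcB1) (cut := cut_B00mm_112_s1) (xt := Ext.none) (P1 := 536870912) (W1 := 536870912) (P2 := 0) (W2 := 536870912) (P3 := 536870912) (W3 := 50465866)
    rfl (fun _ => rfl) k0_B00mm_112_s1

theorem s_B00mm_112_s1 {κ x : ℝ} (hκ : κ * h0 = ken x) (hx : ((536870912 : ℕ) : ℝ) / S ≤ x)
    (hx' : x ≤ (((536870912 : ℕ) : ℝ) + (50465866 : ℕ)) / S) :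
    AltB (VFD κ) PP tK tL pcB [⟨3, 0, 0, 1449551462⟩] 1 1 2 0 0 (sgb false) (sgb false) x :=
  strip_altBD (m := 1449551462) true rfl hκ (SH.κ0 hκ (SH.hx1 hx).le (SH.hx2 hx').le) (SH.hx1 hx).le (SH.hx2 hx') (covB01).cov (covB02).cov hx hx' c_B00mm_112_s1 cutB_nil (noExt_B)

noncomputable def cut_B00mm_112_s3 : Cut := Cut.of [[⟨3, 0, 0, 2845415833⟩]]

noncomputable def f_B00mm_112_s3 : ℕ → ℕ → ℕ → ℕ → Bool := onCell 536870912 536870912 0 536870912 536870912 50465866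
    (rowF 0 false false false .dn 1 1 2 (qsf 536870912 536870912 0 536870912 1) ndB0q1 ndB0q2 pcB1 cut_B00mm_112_s3 Ext.none)

def k0_B00mm_112_s3 : ∃ t, chk3 f_B00mm_112_s3 t 1 1 1 = true :=
  ⟨(l 6), by decide +kernel⟩

theorem c_B00mm_112_s3 : CertF 536870912 536870912 0 536870912 536870912 50465866 false false false .dn 1 1 2
    ndB0q1 ndB0q2 pcB1 cut_B00mm_112_s3 Ext.none :=
  certF0 (fam := false) (s1 := false) (s2 := false) (a := 1) (b := 1) (c := 2) (cn := .dn) (n1 := ndB0q1) (n2 := ndB0q2) (pc := pcB1) (cut := cut_B00mm_112_s3) (xt := Ext.none) (P1 := 536870912) (W1 := 536870912) (P2 := 0) (W2 := 536870912) (P3 := 536870912) (W3 := 50465866)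
    rfl k0_B00mm_112_s3

theorem s_B00mm_112_s3 {κ x : ℝ} (hκ : κ * h0 = ken x) (hx : ((536870912 : ℕ) : ℝ) / S ≤ x)
    (hx' : x ≤ (((536870912 : ℕ) : ℝ) + (50465866 : ℕ)) / S) :
    AltB (VFD κ) PP tK tL pcB [⟨4, 0, 0, 2845415833⟩] 1 1 2 0 0 (sgb false) (sgb false) x :=
  strip_altBD (m := 2845415833) false rfl hκ (SH.κ0 hκ (SH.hx1 hx).le (SH.hx2 hx').le) (SH.hx1 hx).le (SH.hx2 hx') (covB01).cov (covB02).cov hx hx' c_B00mm_112_s3 cutB_nil (noExt_B)

noncomputable def cut_B00mm_202_s1 : Cut := Cut.of [[⟨4, 0, 0, 1449551462⟩]]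

noncomputable def f_B00mm_202_s1 : ℕ → ℕ → ℕ → ℕ → Bool := onCell 0 536870912 0 536870912 536870912 50465866
    (rowF 0 false false false .pp 2 0 2 (qsf 0 536870912 0 536870912 0) ndB0q2 ndB0q2 pcB0 cut_B00mm_202_s1 Ext.none)

def k0_B00mm_202_s1 : ∃ t, chk3 f_B00mm_202_s1 t 1 1 1 = true :=
  ⟨(l 3), by decide +kernel⟩

theorem c_B00mm_202_s1 : CertF 0 536870912 0 536870912 536870912 50465866 false false false .pp 2 0 2
    ndB0q2 ndB0q2 pcB0 cut_B00mm_202_s1 Ext.none :=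
  certF0 (fam := false) (s1 := false) (s2 := false) (a := 2) (b := 0) (c := 2) (cn := .pp) (n1 := ndB0q2) (n2 := ndB0q2) (pc := pcB0) (cut := cut_B00mm_202_s1) (xt := Ext.none) (P1 := 0) (W1 := 536870912) (P2 := 0) (W2 := 536870912) (P3 := 536870912) (W3 := 50465866)
    rfl k0_B00mm_202_s1

theorem s_B00mm_202_s1 {κ x : ℝ} (hκ : κ * h0 = ken x) (hx : ((536870912 : ℕ) : ℝ) / S ≤ x)
    (hx' : x ≤ (((536870912 : ℕ) : ℝ) + (50465866 : ℕ)) / S) :
    AltB (VFD κ) PP tK tL pcB [⟨3, 0, 0, 1449551462⟩] 2 0 2 0 0 (sgb false) (sgb false) x :=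
  strip_altBD (m := 1449551462) true rfl hκ (SH.κ0 hκ (SH.hx1 hx).le (SH.hx2 hx').le) (SH.hx1 hx).le (SH.hx2 hx') (covB02).cov (covB02).cov hx hx' c_B00mm_202_s1 cutB_nil (noExt_B)

noncomputable def cut_B00mm_202_s3 : Cut := Cut.of [[⟨3, 0, 0, 2845415833⟩]]

noncomputable def f_B00mm_202_s3 : ℕ → ℕ → ℕ → ℕ → Bool := onCell 0 536870912 0 536870912 536870912 50465866
    (rowF 0 false false false .pp 2 0 2 (qsf 0 536870912 0 536870912 0) ndB0q2 ndB0q2 pcB0 cut_B00mm_202_s3 Ext.none)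

def k0_B00mm_202_s3 : ∃ t, chk3 f_B00mm_202_s3 t 1 1 1 = true :=
  ⟨(l 3), by decide +kernel⟩

theorem c_B00mm_202_s3 : CertF 0 536870912 0 536870912 536870912 50465866 false false false .pp 2 0 2
    ndB0q2 ndB0q2 pcB0 cut_B00mm_202_s3 Ext.none :=
  certF0 (fam := false) (s1 := false) (s2 := false) (a := 2) (b := 0) (c := 2) (cn := .pp) (n1 := ndB0q2) (n2 := ndB0q2) (pc := pcB0) (cut := cut_B00mm_202_s3) (xt := Ext.none) (P1 := 0) (W1 := 536870912) (P2 := 0) (W2 := 536870912) (P3 := 536870912) (W3 := 50465866)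
    rfl k0_B00mm_202_s3

theorem s_B00mm_202_s3 {κ x : ℝ} (hκ : κ * h0 = ken x) (hx : ((536870912 : ℕ) : ℝ) / S ≤ x)
    (hx' : x ≤ (((536870912 : ℕ) : ℝ) + (50465866 : ℕ)) / S) :
    AltB (VFD κ) PP tK tL pcB [⟨4, 0, 0, 2845415833⟩] 2 0 2 0 0 (sgb false) (sgb false) x :=
  strip_altBD (m := 2845415833) false rfl hκ (SH.κ0 hκ (SH.hx1 hx).le (SH.hx2 hx').le) (SH.hx1 hx).le (SH.hx2 hx') (covB02).cov (covB02).cov hx hx' c_B00mm_202_s3 cutB_nil (noExt_B)

noncomputable def cut_B06pp_001_s1 : Cut := Cut.of [[⟨4, 0, 0, 1449551462⟩]]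

noncomputable def f_B06pp_001_s1 : ℕ → ℕ → ℕ → ℕ → Bool := onCell 0 536870912 0 536870912 536870912 50465866
    (rowF 1 false true true .up 0 0 1 (qsf 0 536870912 536870912 536870912 0) ndB0q0 ndB6q1 pcB0 cut_B06pp_001_s1 Ext.none)

def k0_B06pp_001_s1 : ∃ t, chk3 f_B06pp_001_s1 t 1 1 1 = true :=
  ⟨(l 3), by decide +kernel⟩

theorem c_B06pp_001_s1 : CertF 0 536870912 536870912 536870912 536870912 50465866 false true true .up 0 0 1
    ndB0q0 ndB6q1 pcB0 cut_B06pp_001_s1 Ext.none :=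
  certF1 (fam := false) (s1 := true) (s2 := true) (a := 0) (b := 0) (c := 1) (cn := .up) (n1 := ndB0q0) (n2 := ndB6q1) (pc := pcB0) (cut := cut_B06pp_001_s1) (xt := Ext.none) (P1 := 0) (W1 := 536870912) (P2 := 536870912) (W2 := 536870912) (P3 := 536870912) (W3 := 50465866)
    rfl (fun _ => rfl) k0_B06pp_001_s1

theorem s_B06pp_001_s1 {κ x : ℝ} (hκ : κ * h0 = ken x) (hx : ((536870912 : ℕ) : ℝ) / S ≤ x)
    (hx' : x ≤ (((536870912 : ℕ) : ℝ) + (50465866 : ℕ)) / S) :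
    AltB (VFD κ) PP tK tL pcB [⟨3, 0, 0, 1449551462⟩] 0 0 1 0 6 (sgb true) (sgb true) x :=
  strip_altBD (m := 1449551462) true rfl hκ (SH.κ0 hκ (SH.hx1 hx).le (SH.hx2 hx').le) (SH.hx1 hx).le (SH.hx2 hx') (covB00).cov (covB61).cov hx hx' c_B06pp_001_s1 cutB_nil (noExt_B)

noncomputable def cut_B06pp_011_s1 : Cut := Cut.of [[⟨4, 0, 0, 1449551462⟩], [⟨0, 0, 0, 67108864⟩, ⟨1, 1, 0, 67108864⟩, ⟨2, 1, 0, 67108864⟩]]

noncomputable def f_B06pp_011_s1 : ℕ → ℕ → ℕ → ℕ → Bool := onCell 0 536870912 536870912 536870912 536870912 50465866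
    (rowF 1 false true true .pnn 0 1 1 (qsf 0 536870912 536870912 536870912 1) ndB0q0 ndB6q1 pcB1 cut_B06pp_011_s1 Ext.none)

def k0_B06pp_011_s1 : ∃ t, chk3 f_B06pp_011_s1 t 1 1 1 = true :=
  ⟨(b (l 3) (a (b (l 3) (a (b (l 3) (a (b (l 3) (a (l 14) (l 3))) (l 3))) (l 3))) (l 3))), by decide +kernel⟩

theorem c_B06pp_011_s1 : CertF 0 536870912 536870912 536870912 536870912 50465866 false true true .pnn 0 1 1
    ndB0q0 ndB6q1 pcB1 cut_B06pp_011_s1 Ext.none :=
  certF1 (fam := false) (s1 := true) (s2 := true) (a := 0) (b := 1) (c := 1) (cn := .pnn) (n1 := ndB0q0) (n2 := ndB6q1) (pc := pcB1) (cut := cut_B06pp_011_s1) (xt := Ext.none) (P1 := 0) (W1 := 536870912) (P2 := 536870912) (W2 := 536870912) (P3 := 536870912) (W3 := 50465866)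
    rfl (fun _ => rfl) k0_B06pp_011_s1

theorem s_B06pp_011_s1 {κ x : ℝ} (hκ : κ * h0 = ken x) (hx : ((536870912 : ℕ) : ℝ) / S ≤ x)
    (hx' : x ≤ (((536870912 : ℕ) : ℝ) + (50465866 : ℕ)) / S)
    (H : CutB (VFD κ) PP tK tL pcB (Cut.of [[⟨0, 0, 0, 67108864⟩, ⟨1, 1, 0, 67108864⟩, ⟨2, 1, 0, 67108864⟩]]) 0 1 1 0 6 (sgb true) (sgb true) x) :
    AltB (VFD κ) PP tK tL pcB [⟨3, 0, 0, 1449551462⟩] 0 1 1 0 6 (sgb true) (sgb true) x :=
  strip_altBD (m := 1449551462) true rfl hκ (SH.κ0 hκ (SH.hx1 hx).le (SH.hx2 hx').le) (SH.hx1 hx).le (SH.hx2 hx') (covB00).cov (covB61).cov hx hx' c_B06pp_011_s1 H (noExt_B)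

noncomputable def cut_B06pp_012_s1 : Cut := Cut.of [[⟨4, 0, 0, 1449551462⟩], [⟨0, 0, 0, 67108864⟩, ⟨1, 1, 0, 67108864⟩, ⟨2, 1, 0, 67108864⟩]]

noncomputable def f_B06pp_012_s1 : ℕ → ℕ → ℕ → ℕ → Bool := onCell 0 536870912 536870912 536870912 536870912 50465866
    (rowF 1 false true true .pnp 0 1 2 (qsf 0 536870912 1073741824 536870912 1) ndB0q0 ndB6q2 pcB1 cut_B06pp_012_s1 Ext.none)

def k0_B06pp_012_s1 : ∃ t, chk3 f_B06pp_012_s1 t 1 1 1 = true :=
  ⟨(b (l 3) (a (a (a (a (b (l 1) (b (l 1) (b (l 3) (l 14)))) (l 3)) (l 3)) (l 3)) (l 3))), by decide +kernel⟩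

theorem c_B06pp_012_s1 : CertF 0 536870912 1073741824 536870912 536870912 50465866 false true true .pnp 0 1 2
    ndB0q0 ndB6q2 pcB1 cut_B06pp_012_s1 Ext.none :=
  certF1 (fam := false) (s1 := true) (s2 := true) (a := 0) (b := 1) (c := 2) (cn := .pnp) (n1 := ndB0q0) (n2 := ndB6q2) (pc := pcB1) (cut := cut_B06pp_012_s1) (xt := Ext.none) (P1 := 0) (W1 := 536870912) (P2 := 1073741824) (W2 := 536870912) (P3 := 536870912) (W3 := 50465866)
    rfl (fun _ => rfl) k0_B06pp_012_s1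

theorem s_B06pp_012_s1 {κ x : ℝ} (hκ : κ * h0 = ken x) (hx : ((536870912 : ℕ) : ℝ) / S ≤ x)
    (hx' : x ≤ (((536870912 : ℕ) : ℝ) + (50465866 : ℕ)) / S)
    (H : CutB (VFD κ) PP tK tL pcB (Cut.of [[⟨0, 0, 0, 67108864⟩, ⟨1, 1, 0, 67108864⟩, ⟨2, 1, 0, 67108864⟩]]) 0 1 2 0 6 (sgb true) (sgb true) x) :
    AltB (VFD κ) PP tK tL pcB [⟨3, 0, 0, 1449551462⟩] 0 1 2 0 6 (sgb true) (sgb true) x :=
  strip_altBD (m := 1449551462) true rfl hκ (SH.κ0 hκ (SH.hx1 hx).le (SH.hx2 hx').le) (SH.hx1 hx).le (SH.hx2 hx') (covB00).cov (covB62).cov hx hx' c_B06pp_012_s1 H (noExt_B)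

noncomputable def cut_B06pp_022_s1 : Cut := Cut.of [[⟨4, 0, 0, 1449551462⟩], [⟨0, 0, 0, 67108864⟩, ⟨1, 1, 0, 67108864⟩, ⟨2, 1, 0, 67108864⟩]]

noncomputable def xt_B06pp_022_s1 : Ext := strExt6 dd false true true .u0 .s2 .u2 .pp 0 2 2 rfl rfl gf2 vv ww ndB0q0 ndB6q2

noncomputable def f_B06pp_022_s1 : ℕ → ℕ → ℕ → ℕ → Bool := onCell 0 536870912 1073741824 536870912 536870912 50465866
    (rowF 1 false true true .pp 0 2 2 (qsf 0 536870912 1073741824 536870912 2) ndB0q0 ndB6q2 pcB2 cut_B06pp_022_s1 xt_B06pp_022_s1)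

def k0_B06pp_022_s1 : ∃ t, chk3 f_B06pp_022_s1 t 8 16 1 = true :=
  ⟨(a (b (l 14) (a (l 14) (b (l 14) (a (l 14) (b (l 14) (a (l 14) (l 16750800))))))) (b (a (a (l 14) (l 3)) (l 3)) (a (b (a (a (l 14) (b (l 14) (b (l 14) (b (l 14) (b (l 14) (l 16766288)))))) (b (a (l 1049270911) (l 3)) (a (a (b (l 1048810111) (b (l 1048836735) (a (l 16771856) (l 16770208)))) (l 1048822399)) (l 1048799359)))) (a (b (a (c (l 16762992) (l 16762952)) (b (a (l 16762728) (l 16769912)) (l 16764800))) (a (l 16754704) (l 16758592))) (b (b (b (a (a (c (l 16772896) (l 16767648)) (c (l 16772216) (l 16772200))) (l 1048843903)) (a (a (l 16765576) (a (l 16767032) (l 16768000))) (a (c (l 16772080) (l 16772064)) (l 1048875647)))) (a (l 16768680) (a (a (l 16771104) (b (l 16767856) (l 16765784))) (a (b (l 16768824) (l 16766752)) (b (l 16769792) (l 16767712)))))) (a (c (l 16762480) (l 16762448)) (b (l 16768400) (l 16764248)))))) (b (a (b (l 3) (a (l 1048792703)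 (l 3))) (l 3)) (b (a (a (b (l 1048845951) (b (l 1048872063) (a (l 16771776) (l 1048900735)))) (l 1048854143)) (l 1052020863)) (a (b (a (a (b (a (l 16766600) (l 16767560)) (l 16765000)) (b (b (l 16769520) (l 16768480)) (c (l 16769544) (l 16769536)))) (l 1048906367)) (a (l 16768088) (a (b (c (l 16769376) (l 16769376)) (l 16764680)) (b (l 16771288) (c (l 16769200) (l 16769200)))))) (a (l 1048913023) (l 1048902783)))))))), by decide +kernel⟩

def k1_B06pp_022_s1 : ∃ t, chk3 f_B06pp_022_s1 t 8 17 1 = true :=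
  ⟨(a (b (a (a (l 14) (b (l 14) (l 16699160))) (b (a (a (l 14) (l 16735904)) (b (c (l 16745912) (l 16740552)) (l 16727096))) (a (l 16717512) (l 16725224)))) (a (a (l 16687608) (l 16695544)) (b (a (l 16690592) (l 16698256)) (l 16698920)))) (b (b (a (a (b (c (l 16753624) (l 16748312)) (c (l 16745352) (l 16745240))) (b (a (l 16754160) (l 16758008)) (c (l 16747808) (l 16752960)))) (b (a (b (a (l 16758680) (l 16767744)) (c (l 16761680) (l 16761640))) (a (a (b (b (a (l 16765928) (l 16766872)) (l 16764312)) (l 16761184)) (b (b (l 16770920) (c (l 16771464) (l 16768824))) (l 16768328))) (b (l 1048945279) (b (a (a (l 16765544) (l 16766488)) (l 16767912)) (c (l 16770128) (l 16770104)))))) (a (a (l 16753520) (l 16757320)) (b (a (l 16757960) (c (l 16766992) (l 16766960))) (c (l 16760944) (l 16760872)))))) (b (a (a (l 16737048) (l 16744720)) (a (c (l 16752376) (l 16752256)) (a (l 16752768) (l 16756528)))) (a (a (l 16718288) (l 16736424))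 (a (l 16744016) (c (l 16751592) (l 16740968)))))) (a (b (a (l 16705872) (l 16723984)) (l 16714080)) (a (b (a (l 16729656) (l 16733416)) (l 16714888)) (a (b (l 16737152) (l 16720472)) (b (l 16740872) (l 16724160))))))), by decide +kernel⟩

def k2_B06pp_022_s1 : ∃ t, chk3 f_B06pp_022_s1 t 9 16 1 = true :=
  ⟨(a (b (l 3) (b (l 3) (a (a (b (l 3) (l 1052086911)) (l 3)) (l 3)))) (l 3)), by decide +kernel⟩

def k3_B06pp_022_s1 : ∃ t, chk3 f_B06pp_022_s1 t 18 17 1 = true :=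
  ⟨(b (b (a (b (a (l 1051050111) (l 1048863871)) (a (b (a (a (a (l 16769336) (l 16770272)) (b (l 16767488) (l 16765392))) (l 1048958591)) (a (c (l 16766576) (l 16766536)) (a (b (l 16765168) (l 16763080)) (b (l 16767040) (l 16764944))))) (l 1051059327))) (a (b (l 3) (l 1048856703)) (l 3))) (a (b (a (b (b (a (l 16758176) (l 16767160)) (l 16763192)) (c (l 16760080) (l 16759992))) (b (a (a (b (l 16764704) (l 16762608)) (b (l 16766568) (l 16764464))) (l 1048964223)) (a (c (l 16765648) (l 16765592)) (a (b (l 16764216) (l 16762112)) (b (l 16766072) (l 16763960)))))) (a (a (l 16751896) (l 16755616)) (b (a (l 16761416) (c (l 16765136) (l 16765080))) (c (l 16759088) (l 16759008))))) (b (a (l 1048913023) (l 1048840831)) (a (b (a (a (b (l 16763696) (l 16761584)) (b (l 16765536) (l 16763424))) (l 1048959103)) (a (c (l 16764592) (l 16764544)) (a (c (l 16767344) (l 16762048)) (c (l 16769176) (l 16763888))))) (l 1048898687))))) (b (a (b (a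 (c (l 16750664) (l 16740040)) (a (l 16756144) (l 16754568))) (a (l 16742224) (l 16749544))) (b (a (a (l 16758232) (b (c (l 16764008) (l 16763976)) (l 16754520))) (a (b (a (l 16766736) (l 16768560)) (l 16763392)) (b (l 1048934015) (c (l 16767032) (l 16767000))))) (a (a (l 16755008) (l 16758632)) (a (l 16757008) (b (l 16762752) (l 16753240)))))) (a (b (c (l 16737536) (l 16737376)) (c (l 16729176) (l 16728928))) (a (b (l 16748336) (l 16729376)) (b (l 16755512) (l 16736496)))))), by decide +kernel⟩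

def k4_B06pp_022_s1 : ∃ t, chk3 f_B06pp_022_s1 t 19 17 1 = true :=
  ⟨(b (b (l 3) (a (b (l 3) (l 1051930239)) (l 3))) (b (b (a (l 1051980927) (l 1049160319)) (a (a (a (b (l 16766368) (l 16762152)) (b (l 16769984) (l 16765728))) (l 1048939647)) (l 1048877695))) (a (b (b (a (a (l 16752624) (l 16756336)) (a (l 16765136) (l 16768736))) (a (l 16760688) (a (l 16761008) (c (l 16764712) (l 16764400))))) (a (l 16748832) (b (a (l 16751152) (l 16765344)) (l 16748496)))) (b (l 1049247871) (a (a (b (l 16763616) (l 16753768)) (b (l 16767200) (l 16762536))) (l 1048897663)))))), by decide +kernel⟩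

def k5_B06pp_022_s1 : ∃ t, chk3 f_B06pp_022_s1 t 5 8 1 = true :=
  ⟨(a (b (l 3) (b (l 3) (a (b (l 3) (a (b (l 1049276031) (l 1048863359)) (l 3))) (l 3)))) (l 3)), by decide +kernel⟩

def k6_B06pp_022_s1 : ∃ t, chk3 f_B06pp_022_s1 t 4 9 1 = true :=
  ⟨(a (b (a (a (b (a (l 16633848) (l 16641592)) (l 16625832)) (b (b (l 16661288) (l 16644840)) (l 16641248))) (b (a (a (l 16685488) (l 16693016)) (b (a (l 16687784) (l 16695152)) (l 16695808))) (a (l 16656264) (b (l 16658168) (l 16641520))))) (a (a (b (l 16572560) (l 16540824)) (b (l 16587744) (l 16555616))) (b (a (l 16602424) (l 16658496)) (a (l 16569800) (l 16583296))))) (b (b (a (a (b (a (l 16712912) (l 16720080)) (a (l 16685672) (l 16692768))) (b (a (l 16727176) (l 16734216)) (b (l 16728456) (l 16719952)))) (b (a (b (a (l 16745504) (l 16752504)) (c (l 16740504) (l 16740232))) (b (a (b (l 16756416) (l 16746816)) (b (a (l 16761672) (l 16765176)) (a (l 16752040) (l 16760768))))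 (a (l 16750752) (b (l 16754616) (l 16744968))))) (a (b (l 16731760) (l 16733584)) (b (a (l 16731520) (l 16748824)) (l 16736600))))) (a (a (b (l 16672384) (l 16655496)) (b (a (l 16682760) (l 16689568)) (l 16669008))) (b (a (c (l 16720792) (l 16720312)) (a (l 16730496) (l 16737096))) (a (l 16703136) (l 16716008))))) (a (b (a (l 16672016) (l 16685032)) (a (l 16596064) (l 16608192))) (b (a (b (l 16664544) (l 16646720)) (b (l 16719000) (l 16658808))) (b (l 16655576) (l 16658192)))))), by decide +kernel⟩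

def k7_B06pp_022_s1 : ∃ t, chk3 f_B06pp_022_s1 t 5 18 1 = true :=
  ⟨(a (b (a (b (a (b (l 1048350335) (b (a (a (l 16759824) (l 16758056)) (l 1048342143)) (a (a (l 16750144) (l 16753600)) (a (l 16762312) (l 16765776))))) (b (l 1050634367) (a (l 1048155775) (l 1047929471)))) (a (b (a (l 16755672) (b (a (l 16752584) (l 16756032)) (l 16755040))) (a (l 16736232) (l 16753504))) (b (b (l 1048078975) (a (a (l 16754944) (l 16758376)) (l 1048009855))) (b (a (a (l 16750392) (l 16764296)) (l 1048035455)) (a (l 16758000) (a (l 16763104) (l 16756016))))))) (a (b (b (l 3) (l 1047534207)) (l 1047617151)) (b (l 3) (l 1047014527)))) (a (b (a (b (l 16741072) (l 16742496)) (a (b (l 16751112) (l 16731408)) (b (a (l 16756144) (b (l 16756616) (l 16746696))) (l 16758992)))) (a (l 16728840) (a (l 16738464) (l 16744896)))) (b (a (b (a (b (l 16761696) (a (l 16755304) (l 16763920))) (l 1047524991)) (a (b (a (l 16745352) (l 16759184)) (l 16742296)) (b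 (a (l 16762552) (l 16755424)) (a (l 16747280) (l 16761120))))) (b (l 1047036031) (l 1047583359))) (a (b (a (l 16735160) (l 16752200)) (l 16749752)) (b (a (b (a (l 16759608) (l 16752448)) (a (l 16744224) (l 16758024))) (b (l 1046858879) (l 16763024))) (a (l 16759792) (b (a (l 16746168) (l 16760056)) (l 16753944)))))))) (b (l 3) (a (b (b (a (l 1049711743) (l 3)) (a (l 1046522495) (l 1046506111))) (a (b (l 1046921343) (a (b (l 16765320) (a (l 16758872) (l 16751840))) (l 1047393407))) (l 1047219839))) (b (l 3) (a (b (l 3) (l 1047590527)) (l 3)))))), by decide +kernel⟩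

def k8_B06pp_022_s1 : ∃ t, chk3 f_B06pp_022_s1 t 5 19 1 = true :=
  ⟨(a (b (a (a (b (l 16731376) (l 16691696)) (b (l 16722736) (l 16726488))) (b (a (l 16736520) (b (c (l 16754816) (l 16754120)) (l 16745944))) (a (l 16719640) (c (l 16734112) (l 16732928))))) (a (b (a (l 16653856) (l 16688952)) (a (l 16637424) (l 16693808))) (b (a (l 16682304) (l 16738232)) (a (l 16697864) (l 16722840))))) (b (a (b (a (b (a (b (l 16756136) (l 16741248)) (b (l 16762720) (b (l 16759208) (l 16757024)))) (a (l 16734856) (l 16751736))) (b (l 1047954047) (a (b (a (l 16747952) (l 16751232)) (l 16755712)) (b (l 16766560) (l 16761912))))) (a (b (l 16750616) (l 16742392)) (b (a (l 16738816) (b (l 16757440) (l 16742728))) (l 16754480)))) (b (b (a (l 1048136319) (l 1048321151)) (a (l 1048616063) (l 1048867455))) (a (b (a (b (l 16753192) (l 16759056)) (l 1049056895)) (a (l 16752784) (b (l 16760576) (l 16745736)))) (b (l 1049299583) (a (b (l 16766688) (l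 16751536)) (l 1049635967)))))) (a (b (a (l 16730200) (c (l 16742872) (l 16741664))) (a (l 16715336) (l 16738400))) (b (a (b (a (l 16733960) (l 16739416)) (l 16728584)) (b (a (b (l 16757440) (l 16742704)) (b (l 16752784) (l 16758472))) (a (l 16736488) (l 16762608)))) (b (a (l 16721504) (l 16753032)) (a (l 16757728) (l 16726984))))))), by decide +kernel⟩

def k9_B06pp_022_s1 : ∃ t, chk3 f_B06pp_022_s1 t 4 5 1 = true :=
  ⟨(b (b (b (b (a (a (l 16524800) (l 16552136)) (a (l 16576328) (l 16640880))) (a (a (l 16551464) (l 16536024)) (a (l 16559056) (l 16623464)))) (a (a (b (l 16494704) (b (a (l 16477472) (l 16490952)) (b (a (l 16472744) (l 16486592)) (b (b (b (l 16478424) (b (l 16478336) (l 16478424))) (l 16477808)) (l 16476352))))) (b (l 16520104) (b (l 16508744) (b (l 16588080) (b (b (b (l 16503112) (b (l 16503264) (l 16587448))) (l 16503024)) (l 16501456)))))) (b (a (l 16541664) (c (l 16587752) (l 16648336))) (b (a (l 16528912)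 (l 16636792)) (a (b (l 16523672) (b (l 16532824) (l 16520544))) (b (l 16626856) (l 16588696))))))) (b (a (a (a (l 16453032) (l 16550544)) (a (l 16478280) (l 16488192))) (a (l 16500920) (l 16557416))) (a (a (a (l 16422472) (l 16434264)) (l 16448496)) (a (l 16462296) (l 16573200))))) (a (a (b (b (b (l 16404024) (l 16387208)) (l 16361328)) (l 16306672)) (b (l 16435064) (l 16406416))) (a (b (l 16496128) (l 16490376)) (b (b (l 16548864) (l 16525384)) (c (l 16494400) (l 16489496)))))), by decide +kernel⟩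

def k10_B06pp_022_s1 : ∃ t, chk3 f_B06pp_022_s1 t 5 5 1 = true :=
  ⟨(b (b (b (a (a (b (c (l 16671512) (l 16669256)) (l 16675192)) (b (a (l 16692632) (b (l 16668976) (l 16660832))) (a (l 16635216) (l 16691296)))) (a (a (b (l 16720568) (l 16704880)) (b (l 16734520) (a (l 16714448) (l 16720944)))) (a (b (l 16736840) (l 16731072)) (b (b (l 16720840) (l 16713640)) (l 16743544))))) (b (a (a (b (l 16642848) (l 16637472)) (a (l 16664976) (l 16680296))) (a (b (a (l 16653128) (l 16665536)) (l 16700128)) (b (b (l 16726064) (l 16725176)) (c (l 16729264) (l 16721872))))) (b (a (a (l 16651440) (a (l 16614904) (l 16631568))) (a (a (l 16647216) (l 16661864)) (b (l 16766392) (l 16764784)))) (a (a (a (b (l 16570312) (l 16601888)) (b (l 16672520) (a (l 16615624) (l 16624704)))) (b (a (l 16690440) (l 16707640)) (b (b (b (l 16608944) (b (l 16606528) (l 16645896))) (l 16602624)) (l 16601496)))) (a (b (a (l 16723864) (l 16739120)) (b (b (b (l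 16641488) (b (l 16639000) (l 16678264))) (l 16634856)) (l 16633760))) (b (a (l 16711448) (l 16724600)) (b (b (b (l 16669944) (b (l 16667384) (l 16706552))) (l 16662976)) (l 16661880)))))))) (a (a (b (l 16615552) (l 16612264)) (a (l 16652008) (l 16669536))) (a (a (l 16685904) (l 16680136)) (b (b (l 16697208) (l 16727512)) (l 16667664))))) (a (a (b (a (l 16567672) (l 16587600)) (a (l 16440352) (l 16460664))) (b (a (l 16606688) (l 16540712)) (a (l 16479672) (l 16496704)))) (b (a (b (l 16575944) (l 16553144)) (b (l 16602560) (l 16579976))) (a (l 16603576) (l 16627808))))), by decide +kernel⟩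

def k11_B06pp_022_s1 : ∃ t, chk3 f_B06pp_022_s1 t 2 3 1 = true :=
  ⟨(b (a (b (a (a (a (l 16323920) (l 16344488)) (a (l 16389144) (l 16433136))) (a (b (l 16405320) (l 16365048)) (b (l 16450736) (l 16326416)))) (a (l 6) (b (a (l 16243280) (l 16289416)) (l 6)))) (b (a (b (a (l 16534200) (l 16529408)) (a (l 16367984) (l 16403808))) (b (a (l 16474904) (l 16502688)) (a (l 16438336) (l 16472888)))) (a (b (a (l 16330160) (l 16371824)) (l 6)) (a (l 16491824) (l 2))))) (l 6)), by decide +kernel⟩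

def k12_B06pp_022_s1 : ∃ t, chk3 f_B06pp_022_s1 t 3 4 1 = true :=
  ⟨(b (l 3) (a (b (l 3) (a (a (b (b (b (l 3) (a (l 1049116287) (l 3))) (b (a (l 1049632383) (l 3)) (l 1050118783))) (b (b (l 1050112639) (a (a (b (l 16769776) (l 16744296)) (b (l 16754632) (l 16770384))) (l 1049905791))) (a (b (a (l 16739336) (b (l 16745040) (l 16742832))) (l 16737192)) (a (b (b (l 16750184) (l 16747448)) (l 16744048)) (b (l 1050379903) (b (l 16749768) (l 16747488))))))) (b (l 3) (b (a (b (l 1050825343) (l 1050397311)) (b (l 3) (a (l 1050775679) (l 1051524223)))) (a (b (l 1050645119) (b (l 1052629631) (a (l 16751704) (l 16756168)))) (b (a (l 1051299967) (l 1051178111)) (l 1053112959)))))) (b (l 3) (b (l 3) (a (b (l 1051318911) (l 1053596799)) (l 3)))))) (l 3))), by decide +kernel⟩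

def k13_B06pp_022_s1 : ∃ t, chk3 f_B06pp_022_s1 t 3 40 1 = true :=
  ⟨(b (b (a (a (a (a (l 16773496) (l 16741240)) (a (b (a (l 16749264) (l 16753200)) (l 16748584)) (b (l 1054614143) (a (l 16754232) (l 16758152))))) (a (l 1055501439) (a (l 1056061055) (l 3)))) (l 3)) (a (a (a (a (l 16766672) (l 16734776)) (a (l 16764600) (a (l 16770744) (b (l 16755104) (l 16752184))))) (a (a (b (l 1056377471) (a (l 16756040) (l 16759744))) (l 1057079423)) (a (b (l 1057234047) (l 1058462847)) (b (l 1058484351) (l 1058103423))))) (l 2))) (a (a (a (a (b (l 16717304) (l 16708736)) (b (l 16769520) (l 16761024))) (a (b (l 16736656) (l 16728224)) (b (l 16745080) (l 16736928)))) (a (b (a (b (l 16765736) (l 16751800)) (b (a (l 16760552) (l 16763696)) (a (l 16757824) (l 16761000)))) (a (l 16745792) (b (l 16777392) (l 16794080)))) (a (b (l 1058637439) (a (a (l 16769504) (l 16770928)) (b (l 16763856) (l 16761216)))) (b (l 1058851455) (l 1059262591)))))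 (l 2))), by decide +kernel⟩

def k14_B06pp_022_s1 : ∃ t, chk3 f_B06pp_022_s1 t 3 41 1 = true :=
  ⟨(a (b (a (b (a (a (l 16700944) (l 16710912)) (a (l 16719664) (l 16728152))) (a (b (l 16703736) (l 16745144)) (a (l 16715960) (l 16723352)))) (a (b (a (l 16736864) (b (l 16747464) (l 16743128))) (a (l 16730872) (l 16758864))) (b (a (b (l 16766136) (l 16750656)) (b (a (l 16771496) (l 2)) (l 2))) (a (b (l 16746328) (l 16742752)) (l 2))))) (a (a (b (b (l 16745304) (l 16745520)) (b (b (l 16702224) (l 16740200)) (b (b (b (l 16693704) (b (l 16691072) (l 16730128))) (l 16686328)) (l 16685192)))) (b (a (l 16757696) (l 16742288)) (b (b (l 16761624) (a (l 16713464) (l 16806376))) (b (b (b (l 16714056) (b (l 16711392) (l 16708424))) (l 16706344)) (l 16705216))))) (a (b (b (a (l 16728024) (l 16733920)) (a (l 16726992) (l 16731776))) (b (a (b (l 16728216) (l 16728832)) (l 16763968)) (b (b (b (l 16729912) (b (l 16771176) (l 73564100838775981887)))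 (l 16726048)) (l 16724872)))) (a (b (b (l 16739240) (l 16735928)) (b (b (l 16735728) (l 16736096)) (l 16734928))) (l 2))))) (l 2)), by decide +kernel⟩

def k15_B06pp_022_s1 : ∃ t, chk3 f_B06pp_022_s1 t 3 21 1 = true :=
  ⟨(a (a (a (b (b (l 16678312) (l 16666312)) (l 16648744)) (b (b (l 16698424) (l 16686672)) (l 16667976))) (a (b (b (l 16759040) (l 16703576)) (l 16683040)) (a (l 31239136039) (l 2)))) (l 2)), by decide +kernel⟩

def k16_B06pp_022_s1 : ∃ t, chk3 f_B06pp_022_s1 t 3 11 1 = true :=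
  ⟨(a (b (a (a (b (l 16625200) (l 16601096)) (l 16713648)) (a (l 16731536) (l 2))) (a (a (l 16566128) (l 16588112)) (l 2))) (l 2)), by decide +kernel⟩

def k17_B06pp_022_s1 : ∃ t, chk3 f_B06pp_022_s1 t 3 3 1 = true :=
  ⟨(a (b (b (a (b (a (l 16530216) (l 2)) (l 2)) (l 2)) (l 2)) (l 2)) (l 2)), by decide +kernel⟩

theorem t18_B06pp_022_s1 : ∃ t, chk3 f_B06pp_022_s1 t 3 20 1 = true := ex3_b k13_B06pp_022_s1 k14_B06pp_022_s1

theorem t19_B06pp_022_s1 : ∃ t, chk3 f_B06pp_022_s1 t 3 10 1 = true := ex3_b t18_B06pp_022_s1 k15_B06pp_022_s1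

theorem t20_B06pp_022_s1 : ∃ t, chk3 f_B06pp_022_s1 t 3 5 1 = true := ex3_b t19_B06pp_022_s1 k16_B06pp_022_s1

theorem t21_B06pp_022_s1 : ∃ t, chk3 f_B06pp_022_s1 t 3 2 1 = true := ex3_b k12_B06pp_022_s1 t20_B06pp_022_s1

theorem t22_B06pp_022_s1 : ∃ t, chk3 f_B06pp_022_s1 t 3 1 1 = true := ex3_b t21_B06pp_022_s1 k17_B06pp_022_s1

theorem t23_B06pp_022_s1 : ∃ t, chk3 f_B06pp_022_s1 t 2 5 1 = true := ex3_a k9_B06pp_022_s1 k10_B06pp_022_s1

theorem t24_B06pp_022_s1 : ∃ t, chk3 f_B06pp_022_s1 t 5 9 1 = true := ex3_b k7_B06pp_022_s1 k8_B06pp_022_s1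

theorem t25_B06pp_022_s1 : ∃ t, chk3 f_B06pp_022_s1 t 2 9 1 = true := ex3_a k6_B06pp_022_s1 t24_B06pp_022_s1

theorem t26_B06pp_022_s1 : ∃ t, chk3 f_B06pp_022_s1 t 9 17 1 = true := ex3_a k3_B06pp_022_s1 k4_B06pp_022_s1

theorem t27_B06pp_022_s1 : ∃ t, chk3 f_B06pp_022_s1 t 9 8 1 = true := ex3_b k2_B06pp_022_s1 t26_B06pp_022_s1

theorem t28_B06pp_022_s1 : ∃ t, chk3 f_B06pp_022_s1 t 8 8 1 = true := ex3_b k0_B06pp_022_s1 k1_B06pp_022_s1

theorem t29_B06pp_022_s1 : ∃ t, chk3 f_B06pp_022_s1 t 4 8 1 = true := ex3_a t28_B06pp_022_s1 t27_B06pp_022_s1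

theorem t30_B06pp_022_s1 : ∃ t, chk3 f_B06pp_022_s1 t 2 8 1 = true := ex3_a t29_B06pp_022_s1 k5_B06pp_022_s1

theorem t31_B06pp_022_s1 : ∃ t, chk3 f_B06pp_022_s1 t 2 4 1 = true := ex3_b t30_B06pp_022_s1 t25_B06pp_022_s1

theorem t32_B06pp_022_s1 : ∃ t, chk3 f_B06pp_022_s1 t 2 2 1 = true := ex3_b t31_B06pp_022_s1 t23_B06pp_022_s1

theorem t33_B06pp_022_s1 : ∃ t, chk3 f_B06pp_022_s1 t 2 1 1 = true := ex3_b t32_B06pp_022_s1 k11_B06pp_022_s1

theorem t34_B06pp_022_s1 : ∃ t, chk3 f_B06pp_022_s1 t 1 1 1 = true := ex3_a t33_B06pp_022_s1 t22_B06pp_022_s1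

theorem c_B06pp_022_s1 : CertF 0 536870912 1073741824 536870912 536870912 50465866 false true true .pp 0 2 2
    ndB0q0 ndB6q2 pcB2 cut_B06pp_022_s1 xt_B06pp_022_s1 :=
  certF1 (fam := false) (s1 := true) (s2 := true) (a := 0) (b := 2) (c := 2) (cn := .pp) (n1 := ndB0q0) (n2 := ndB6q2) (pc := pcB2) (cut := cut_B06pp_022_s1) (xt := xt_B06pp_022_s1) (P1 := 0) (W1 := 536870912) (P2 := 1073741824) (W2 := 536870912) (P3 := 536870912) (W3 := 50465866)
    rfl (fun _ => rfl) t34_B06pp_022_s1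

theorem s_B06pp_022_s1 {κ x : ℝ} (hκ : κ * h0 = ken x) (hx : ((536870912 : ℕ) : ℝ) / S ≤ x)
    (hx' : x ≤ (((536870912 : ℕ) : ℝ) + (50465866 : ℕ)) / S)
    (H : CutB (VFD κ) PP tK tL pcB (Cut.of [[⟨0, 0, 0, 67108864⟩, ⟨1, 1, 0, 67108864⟩, ⟨2, 1, 0, 67108864⟩]]) 0 2 2 0 6 (sgb true) (sgb true) x) :
    AltB (VFD κ) PP tK tL pcB [⟨3, 0, 0, 1449551462⟩] 0 2 2 0 6 (sgb true) (sgb true) x :=
  strip_altBD (m := 1449551462) true rfl hκ (SH.κ0 hκ (SH.hx1 hx).le (SH.hx2 hx').le) (SH.hx1 hx).le (SH.hx2 hx') (covB00).cov (covB62).cov hx hx' c_B06pp_022_s1 H ((okx6 hx hx').extB (T := tt) (okx hx hx') (sideB hx hx') hκ rfl rfl (.O 0 true) (.N 2 true) rfl)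

noncomputable def cut_B06pp_023_s1 : Cut := Cut.of [[⟨4, 0, 0, 1449551462⟩]]

noncomputable def xt_B06pp_023_s1 : Ext := strExt6 dd false true true .u0 .s2 .u2 .up 0 2 3 rfl rfl gf2 vv ww ndB0q0 ndB6q3

noncomputable def f_B06pp_023_s1 : ℕ → ℕ → ℕ → ℕ → Bool := onCell 1073741824 536870912 0 1230186008 536870912 50465866
    (rowF 2 false true true .up 0 2 3 (qsf 0 536870912 0 1230186008 2) ndB0q0 ndB6q3 pcB2 cut_B06pp_023_s1 xt_B06pp_023_s1)

def k0_B06pp_023_s1 : ∃ t, chk3 f_B06pp_023_s1 t 1 2 1 = true :=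
  ⟨(a (l 2) (a (l 2) (l 6))), by decide +kernel⟩

def k1_B06pp_023_s1 : ∃ t, chk3 f_B06pp_023_s1 t 1 6 1 = true :=
  ⟨(a (a (l 2) (a (l 2) (b (l 2) (a (l 2) (b (l 2) (l 231492124743)))))) (a (b (a (l 2) (b (l 16830168) (l 16825176))) (a (b (a (l 16780936) (l 16788096)) (a (l 16761080) (l 16760160))) (b (l 16792192) (l 16760024)))) (l 6))), by decide +kernel⟩

def k2_B06pp_023_s1 : ∃ t, chk3 f_B06pp_023_s1 t 4 7 1 = true :=
  ⟨(b (l 2) (l 3)), by decide +kernel⟩

def k3_B06pp_023_s1 : ∃ t, chk3 f_B06pp_023_s1 t 40 7 1 = true :=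
  ⟨(b (l 3) (b (l 3) (a (b (l 3) (a (l 3) (b (l 3) (a (l 3) (l 1057937023))))) (b (a (l 3) (b (a (l 3) (b (l 3) (l 1057623167))) (a (l 1058124927) (b (l 1058050175) (l 1058441855))))) (a (b (l 1057687679) (l 1060861567)) (b (a (l 1058266751) (l 1058961023)) (a (l 1058826367) (l 1059551871)))))))), by decide +kernel⟩

def k4_B06pp_023_s1 : ∃ t, chk3 f_B06pp_023_s1 t 41 14 1 = true :=
  ⟨(a (l 3) (a (b (l 2) (b (l 2) (a (b (l 3) (a (l 3) (l 1064878719))) (b (a (l 1068766335) (b (l 2) (l 1065907839))) (a (b (l 1065203839) (l 1064282751)) (b (l 1064908927) (l 1063933055))))))) (a (b (l 2) (b (l 2) (b (a (a (b (l 1066549887) (l 1065468031)) (b (l 1066131583) (l 1064992383))) (a (b (l 1066503407) (l 16774456)) (b (l 1067066095) (l 16779384)))) (b (a (a (l 1064411263) (l 1063884927)) (a (l 16773320) (l 16778224))) (a (a (l 16778720) (l 16783032)) (a (l 16771944) (l 16782080))))))) (b (l 2) (b (l 2) (b (b (a (a (a (l 16774808) (a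 (l 16774688) (l 18354279623))) (l 16774392)) (l 16773792)) (a (a (a (l 16773880) (a (l 16773784) (l 16784200))) (l 16773456)) (l 16772824))) (a (b (a (a (l 16772736) (a (l 16772648) (l 16772592))) (l 16772304)) (a (a (l 16771352) (a (l 16771296) (l 16771240))) (l 16770912))) (l 16781432)))))))), by decide +kernel⟩

def k5_B06pp_023_s1 : ∃ t, chk3 f_B06pp_023_s1 t 82 15 1 = true :=
  ⟨(b (a (b (l 3) (b (l 3) (a (b (l 3) (l 1058059391)) (c (l 1059627135) (l 1058898559))))) (b (b (a (l 3) (b (l 3) (a (l 3) (l 1062256255)))) (a (l 3) (a (l 1061415551) (l 1062448767)))) (b (a (c (b (l 1060398207) (l 1060617343)) (b (l 1060332159) (l 1060412543))) (b (l 1062183039) (a (l 1061793919) (l 1062779519)))) (a (c (l 1060885631) (l 1060489855)) (c (l 1063089279) (l 1062304383)))))) (b (a (b (a (b (l 1060856335) (a (l 1058310783) (l 1058624127))) (b (l 1059448959) (l 1061188735))) (a (c (l 1063009919) (l 1059670143)) (b (l 1059771007) (l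 16778152)))) (a (b (b (a (l 1060424831) (l 16780880)) (l 1061909119)) (b (l 16767104) (l 16775352))) (b (b (l 16779352) (l 16777384)) (b (l 16774880) (l 16761168))))) (a (b (a (b (l 1059707519) (l 16766264)) (b (l 16765544) (l 16773416))) (a (b (l 16774272) (a (l 16761888) (l 16759872))) (b (l 16780728) (l 16755200)))) (b (a (b (l 16783112) (l 16758448)) (l 16775880)) (a (l 16751696) (l 16788784)))))), by decide +kernel⟩

def k6_B06pp_023_s1 : ∃ t, chk3 f_B06pp_023_s1 t 166 15 1 = true :=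
  ⟨(b (b (a (b (a (a (b (l 3) (l 1064243839)) (b (c (l 1063306879) (l 1063939199)) (b (l 1063172735) (l 1062879871)))) (b (b (l 1063798399) (c (l 1063094911) (l 1063654015))) (c (b (l 1062634623) (l 1062373503)) (b (l 1063283839) (l 1063056511))))) (a (a (l 1063295615) (b (l 1063186559) (l 1063315583))) (b (c (l 1062281855) (l 1062915199)) (l 1062619263)))) (a (b (b (b (l 1063607423) (l 1063162495)) (c (l 1062313599) (l 1062809215))) (b (c (l 16782600) (l 16777616)) (l 16781304))) (b (b (a (l 1063080063) (l 16778232)) (c (l 16782480) (l 16782520))) (b (l 16780784) (l 16779032))))) (a (a (b (b (l 1063460991) (l 16777184)) (b (l 16770624) (l 16769248))) (b (b (l 16781896) (l 16770064)) (b (l 16768560) (l 16766680)))) (b (a (b (l 16769352) (l 16788656)) (b (l 16777216) (l 16785512))) (b (a (l 16786600) (l 16761696)) (l 16781576))))) (b (a (b (b (a (l 16767392) (l 16763968)) (l 16773056)) (b (l 16779528) (l 16754848))) (b (b (l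 16778504) (l 16796256)) (b (l 16793064) (l 16789944)))) (b (a (b (l 16751152) (l 16747480)) (b (l 16786872) (l 16741880))) (a (l 16784048) (l 16737632))))), by decide +kernel⟩

def k7_B06pp_023_s1 : ∃ t, chk3 f_B06pp_023_s1 t 167 15 1 = true :=
  ⟨(b (a (b (a (a (b (b (l 16772056) (l 16770384)) (b (l 16768568) (l 16766552))) (b (b (l 16770984) (l 16779656)) (b (l 16788280) (l 16765176)))) (b (a (b (l 16770312) (l 16768376)) (b (l 16769960) (l 16767992))) (b (a (l 16766424) (l 16765896)) (a (l 16764280) (l 16763776))))) (a (b (b (l 16784320) (l 16760976)) (b (l 16758560) (l 16756088))) (b (a (l 16781776) (l 16781488)) (b (l 16767792) (l 16775976))))) (a (a (a (b (b (b (l 16769720) (l 16767808)) (l 16785672)) (b (l 16760432) (l 16755992))) (a (b (b (b (l 16769688) (l 16767800)) (l 16785704)) (b (l 16760512) (l 16756112))) (a (a (b (b (b (l 16769736) (l 16767872)) (l 16764832)) (b (l 16760648) (l 16756272))) (b (b (b (l 16769672)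 (l 16767792)) (l 16785696)) (b (l 16760504) (l 16756104)))) (b (b (l 16779048) (l 16764504)) (b (l 16760224) (l 16755760)))))) (a (a (b (b (l 16778968) (l 16764408)) (b (l 16760112) (l 16755632))) (a (b (b (l 16778880) (l 16764312)) (b (l 16760008) (l 16755512))) (b (b (l 16778824) (l 16764248)) (b (l 16759928) (l 16755424))))) (b (b (l 16778672) (l 16764072)) (b (l 16759736) (l 16755208))))) (b (b (l 16778032) (l 16763368)) (b (l 16758944) (l 16754312))))) (b (b (a (a (l 16762584) (b (l 16794488) (l 16749952))) (b (l 16772368) (l 16790720))) (a (a (l 16746672) (l 16767112)) (b (l 16788144) (l 16785624)))) (b (a (a (l 16741440) (l 16741232)) (l 16760904)) (a (a (l 16736688) (l 16736768)) (l 16756384))))), by decide +kernel⟩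

def k8_B06pp_023_s1 : ∃ t, chk3 f_B06pp_023_s1 t 21 7 1 = true :=
  ⟨(b (b (b (l 2) (l 322760125511)) (a (a (b (b (l 2) (l 172436235719)) (b (a (l 16776496) (l 16767920)) (a (l 16779136) (l 16764928)))) (b (a (l 5469375063) (l 16765288)) (b (l 16762960) (l 16759328)))) (b (a (l 16761160) (l 16755688)) (a (l 16754192) (l 16747088))))) (b (a (a (b (b (a (l 16775448) (l 16760832)) (l 16779160)) (b (l 16795104) (l 16747848))) (b (b (l 16754536) (l 16748784)) (b (l 16742688) (l 16736096)))) (b (a (l 16742816) (l 16733792)) (l 16764440))) (b (a (b (l 16777440) (l 16770480)) (l 16746160)) (a (b (l 16722280) (l 16716720)) (l 16687128))))), by decide +kernel⟩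

def k9_B06pp_023_s1 : ∃ t, chk3 f_B06pp_023_s1 t 11 7 1 = true :=
  ⟨(b (a (b (b (l 16759128) (l 16751416)) (b (l 16784040) (l 16771376))) (b (b (l 16748616) (l 16735664)) (b (l 16720376) (l 16700608)))) (a (b (b (l 16752904) (l 16750720)) (b (a (l 16676256) (l 16648552)) (l 16660560))) (b (b (l 16673424) (l 16640880)) (b (l 16606648) (l 16578336))))), by decide +kernel⟩

def k10_B06pp_023_s1 : ∃ t, chk3 f_B06pp_023_s1 t 3 7 1 = true :=
  ⟨(a (b (a (b (a (l 16732032) (l 16725280)) (a (l 16688656) (l 16673680))) (b (l 16719160) (l 16655616))) (b (a (b (l 16709680) (l 16656624)) (a (l 16555784) (l 6))) (b (a (l 16610688) (l 16418512)) (a (a (l 16517584) (l 16457552)) (l 16363016))))) (l 6)), by decide +kernel⟩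

theorem t11_B06pp_023_s1 : ∃ t, chk3 f_B06pp_023_s1 t 83 15 1 = true := ex3_a k6_B06pp_023_s1 k7_B06pp_023_s1

theorem t12_B06pp_023_s1 : ∃ t, chk3 f_B06pp_023_s1 t 41 15 1 = true := ex3_a k5_B06pp_023_s1 t11_B06pp_023_s1

theorem t13_B06pp_023_s1 : ∃ t, chk3 f_B06pp_023_s1 t 41 7 1 = true := ex3_b k4_B06pp_023_s1 t12_B06pp_023_s1

theorem t14_B06pp_023_s1 : ∃ t, chk3 f_B06pp_023_s1 t 20 7 1 = true := ex3_a k3_B06pp_023_s1 t13_B06pp_023_s1

theorem t15_B06pp_023_s1 : ∃ t, chk3 f_B06pp_023_s1 t 10 7 1 = true := ex3_a t14_B06pp_023_s1 k8_B06pp_023_s1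

theorem t16_B06pp_023_s1 : ∃ t, chk3 f_B06pp_023_s1 t 5 7 1 = true := ex3_a t15_B06pp_023_s1 k9_B06pp_023_s1

theorem t17_B06pp_023_s1 : ∃ t, chk3 f_B06pp_023_s1 t 2 7 1 = true := ex3_a k2_B06pp_023_s1 t16_B06pp_023_s1

theorem t18_B06pp_023_s1 : ∃ t, chk3 f_B06pp_023_s1 t 1 7 1 = true := ex3_a t17_B06pp_023_s1 k10_B06pp_023_s1

theorem t19_B06pp_023_s1 : ∃ t, chk3 f_B06pp_023_s1 t 1 3 1 = true := ex3_b k1_B06pp_023_s1 t18_B06pp_023_s1

theorem t20_B06pp_023_s1 : ∃ t, chk3 f_B06pp_023_s1 t 1 1 1 = true := ex3_b k0_B06pp_023_s1 t19_B06pp_023_s1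

theorem c_B06pp_023_s1 : CertF 0 536870912 0 1230186008 536870912 50465866 false true true .up 0 2 3
    ndB0q0 ndB6q3 pcB2 cut_B06pp_023_s1 xt_B06pp_023_s1 :=
  certF2 (fam := false) (s1 := true) (s2 := true) (a := 0) (b := 2) (c := 3) (cn := .up) (n1 := ndB0q0) (n2 := ndB6q3) (pc := pcB2) (cut := cut_B06pp_023_s1) (xt := xt_B06pp_023_s1) (P1 := 0) (W1 := 536870912) (P2 := 0) (W2 := 1230186008) (P3 := 536870912) (W3 := 50465866)
    rfl (fun _ => rfl) t20_B06pp_023_s1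

theorem s_B06pp_023_s1 {κ x : ℝ} (hκ : κ * h0 = ken x) (hx : ((536870912 : ℕ) : ℝ) / S ≤ x)
    (hx' : x ≤ (((536870912 : ℕ) : ℝ) + (50465866 : ℕ)) / S) :
    AltB (VFD κ) PP tK tL pcB [⟨3, 0, 0, 1449551462⟩] 0 2 3 0 6 (sgb true) (sgb true) x :=
  strip_altBD (m := 1449551462) true rfl hκ (SH.κ0 hκ (SH.hx1 hx).le (SH.hx2 hx').le) (SH.hx1 hx).le (SH.hx2 hx') (covB00).cov (covB63).cov hx hx' c_B06pp_023_s1 cutB_nil ((okx6 hx hx').extB (T := tt) (okx hx hx') (sideB hx hx') hκ rfl rfl (.O 0 true) (.N 3 true) rfl)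

noncomputable def cut_B06pp_033_s1 : Cut := Cut.of [[⟨4, 0, 0, 1449551462⟩]]

noncomputable def f_B06pp_033_s1 : ℕ → ℕ → ℕ → ℕ → Bool := onCell 1610612736 536870912 0 1230186008 536870912 50465866
    (rowF 2 false true true .pnn 0 3 3 (qsf 0 536870912 0 1230186008 3) ndB0q0 ndB6q3 pcB3 cut_B06pp_033_s1 Ext.none)

def k0_B06pp_033_s1 : ∃ t, chk3 f_B06pp_033_s1 t 1 1 1 = true :=
  ⟨(b (l 6) (l 6)), by decide +kernel⟩

theorem c_B06pp_033_s1 : CertF 0 536870912 0 1230186008 536870912 50465866 false true true .pnn 0 3 3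
    ndB0q0 ndB6q3 pcB3 cut_B06pp_033_s1 Ext.none :=
  certF2 (fam := false) (s1 := true) (s2 := true) (a := 0) (b := 3) (c := 3) (cn := .pnn) (n1 := ndB0q0) (n2 := ndB6q3) (pc := pcB3) (cut := cut_B06pp_033_s1) (xt := Ext.none) (P1 := 0) (W1 := 536870912) (P2 := 0) (W2 := 1230186008) (P3 := 536870912) (W3 := 50465866)
    rfl (fun _ => rfl) k0_B06pp_033_s1

theorem s_B06pp_033_s1 {κ x : ℝ} (hκ : κ * h0 = ken x) (hx : ((536870912 : ℕ) : ℝ) / S ≤ x)
    (hx' : x ≤ (((536870912 : ℕ) : ℝ) + (50465866 : ℕ)) / S) :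
    AltB (VFD κ) PP tK tL pcB [⟨3, 0, 0, 1449551462⟩] 0 3 3 0 6 (sgb true) (sgb true) x :=
  strip_altBD (m := 1449551462) true rfl hκ (SH.κ0 hκ (SH.hx1 hx).le (SH.hx2 hx').le) (SH.hx1 hx).le (SH.hx2 hx') (covB00).cov (covB63).cov hx hx' c_B06pp_033_s1 cutB_nil (noExt_B)

noncomputable def cut_B06pp_101_s1 : Cut := Cut.of [[⟨4, 0, 0, 1449551462⟩]]

noncomputable def f_B06pp_101_s1 : ℕ → ℕ → ℕ → ℕ → Bool := onCell 536870912 536870912 536870912 536870912 536870912 50465866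
    (rowF 0 false true true .npn 1 0 1 (qsf 536870912 536870912 536870912 536870912 0) ndB0q1 ndB6q1 pcB0 cut_B06pp_101_s1 Ext.none)

def k0_B06pp_101_s1 : ∃ t, chk3 f_B06pp_101_s1 t 1 1 1 = true :=
  ⟨(a (l 3) (l 5)), by decide +kernel⟩

theorem c_B06pp_101_s1 : CertF 536870912 536870912 536870912 536870912 536870912 50465866 false true true .npn 1 0 1
    ndB0q1 ndB6q1 pcB0 cut_B06pp_101_s1 Ext.none :=
  certF0 (fam := false) (s1 := true) (s2 := true) (a := 1) (b := 0) (c := 1) (cn := .npn) (n1 := ndB0q1) (n2 := ndB6q1) (pc := pcB0) (cut := cut_B06pp_101_s1) (xt := Ext.none) (P1 := 536870912) (W1 := 536870912) (P2 := 536870912) (W2 := 536870912) (P3 := 536870912) (W3 := 50465866)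
    rfl k0_B06pp_101_s1

theorem s_B06pp_101_s1 {κ x : ℝ} (hκ : κ * h0 = ken x) (hx : ((536870912 : ℕ) : ℝ) / S ≤ x)
    (hx' : x ≤ (((536870912 : ℕ) : ℝ) + (50465866 : ℕ)) / S) :
    AltB (VFD κ) PP tK tL pcB [⟨3, 0, 0, 1449551462⟩] 1 0 1 0 6 (sgb true) (sgb true) x :=
  strip_altBD (m := 1449551462) true rfl hκ (SH.κ0 hκ (SH.hx1 hx).le (SH.hx2 hx').le) (SH.hx1 hx).le (SH.hx2 hx') (covB01).cov (covB61).cov hx hx' c_B06pp_101_s1 cutB_nil (noExt_B)

noncomputable def cut_B06pp_102_s1 : Cut := Cut.of [[⟨4, 0, 0, 1449551462⟩]]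

noncomputable def f_B06pp_102_s1 : ℕ → ℕ → ℕ → ℕ → Bool := onCell 536870912 536870912 1073741824 536870912 536870912 50465866
    (rowF 0 false true true .npp 1 0 2 (qsf 536870912 536870912 1073741824 536870912 0) ndB0q1 ndB6q2 pcB0 cut_B06pp_102_s1 Ext.none)

def k0_B06pp_102_s1 : ∃ t, chk3 f_B06pp_102_s1 t 1 1 1 = true :=
  ⟨(a (l 3) (b (l 5) (l 3))), by decide +kernel⟩

theorem c_B06pp_102_s1 : CertF 536870912 536870912 1073741824 536870912 536870912 50465866 false true true .npp 1 0 2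
    ndB0q1 ndB6q2 pcB0 cut_B06pp_102_s1 Ext.none :=
  certF0 (fam := false) (s1 := true) (s2 := true) (a := 1) (b := 0) (c := 2) (cn := .npp) (n1 := ndB0q1) (n2 := ndB6q2) (pc := pcB0) (cut := cut_B06pp_102_s1) (xt := Ext.none) (P1 := 536870912) (W1 := 536870912) (P2 := 1073741824) (W2 := 536870912) (P3 := 536870912) (W3 := 50465866)
    rfl k0_B06pp_102_s1

theorem s_B06pp_102_s1 {κ x : ℝ} (hκ : κ * h0 = ken x) (hx : ((536870912 : ℕ) : ℝ) / S ≤ x)
    (hx' : x ≤ (((536870912 : ℕ) : ℝ) + (50465866 : ℕ)) / S) :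
    AltB (VFD κ) PP tK tL pcB [⟨3, 0, 0, 1449551462⟩] 1 0 2 0 6 (sgb true) (sgb true) x :=
  strip_altBD (m := 1449551462) true rfl hκ (SH.κ0 hκ (SH.hx1 hx).le (SH.hx2 hx').le) (SH.hx1 hx).le (SH.hx2 hx') (covB01).cov (covB62).cov hx hx' c_B06pp_102_s1 cutB_nil (noExt_B)

noncomputable def cut_B06pp_112_s1 : Cut := Cut.of [[⟨4, 0, 0, 1449551462⟩]]

noncomputable def f_B06pp_112_s1 : ℕ → ℕ → ℕ → ℕ → Bool := onCell 536870912 536870912 1073741824 536870912 536870912 50465866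
    (rowF 0 false true true .dn 1 1 2 (qsf 536870912 536870912 1073741824 536870912 1) ndB0q1 ndB6q2 pcB1 cut_B06pp_112_s1 Ext.none)

def k0_B06pp_112_s1 : ∃ t, chk3 f_B06pp_112_s1 t 1 1 1 = true :=
  ⟨(a (l 3) (b (l 5) (l 3))), by decide +kernel⟩

theorem c_B06pp_112_s1 : CertF 536870912 536870912 1073741824 536870912 536870912 50465866 false true true .dn 1 1 2
    ndB0q1 ndB6q2 pcB1 cut_B06pp_112_s1 Ext.none :=
  certF0 (fam := false) (s1 := true) (s2 := true) (a := 1) (b := 1) (c := 2) (cn := .dn) (n1 := ndB0q1) (n2 := ndB6q2) (pc := pcB1) (cut := cut_B06pp_112_s1) (xt := Ext.none) (P1 := 536870912) (W1 := 536870912) (P2 := 1073741824) (W2 := 536870912) (P3 := 536870912) (W3 := 50465866)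
    rfl k0_B06pp_112_s1

theorem s_B06pp_112_s1 {κ x : ℝ} (hκ : κ * h0 = ken x) (hx : ((536870912 : ℕ) : ℝ) / S ≤ x)
    (hx' : x ≤ (((536870912 : ℕ) : ℝ) + (50465866 : ℕ)) / S) :
    AltB (VFD κ) PP tK tL pcB [⟨3, 0, 0, 1449551462⟩] 1 1 2 0 6 (sgb true) (sgb true) x :=
  strip_altBD (m := 1449551462) true rfl hκ (SH.κ0 hκ (SH.hx1 hx).le (SH.hx2 hx').le) (SH.hx1 hx).le (SH.hx2 hx') (covB01).cov (covB62).cov hx hx' c_B06pp_112_s1 cutB_nil (noExt_B)

noncomputable def cut_B06pp_113_s1 : Cut := Cut.of [[⟨4, 0, 0, 1449551462⟩], [⟨0, 1, 0, 67108864⟩, ⟨1, 1, 0, 67108864⟩, ⟨2, 2, 0, 16777216⟩]]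

noncomputable def f_B06pp_113_s1 : ℕ → ℕ → ℕ → ℕ → Bool := onCell 536870912 536870912 0 1230186008 536870912 50465866
    (rowF 2 false true true .nn 1 1 3 (qsf 536870912 536870912 0 1230186008 1) ndB0q1 ndB6q3 pcB1 cut_B06pp_113_s1 Ext.none)

def k0_B06pp_113_s1 : ∃ t, chk3 f_B06pp_113_s1 t 1 1 1 = true :=
  ⟨(b (a (l 2) (a (l 2) (b (a (l 2) (b (a (l 2) (l 14)) (l 3))) (l 3)))) (a (a (b (l 2) (b (l 2) (l 3))) (b (b (l 2) (a (l 2) (l 3))) (l 3))) (b (a (l 3) (l 3)) (l 3)))), by decide +kernel⟩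

theorem c_B06pp_113_s1 : CertF 536870912 536870912 0 1230186008 536870912 50465866 false true true .nn 1 1 3
    ndB0q1 ndB6q3 pcB1 cut_B06pp_113_s1 Ext.none :=
  certF2 (fam := false) (s1 := true) (s2 := true) (a := 1) (b := 1) (c := 3) (cn := .nn) (n1 := ndB0q1) (n2 := ndB6q3) (pc := pcB1) (cut := cut_B06pp_113_s1) (xt := Ext.none) (P1 := 536870912) (W1 := 536870912) (P2 := 0) (W2 := 1230186008) (P3 := 536870912) (W3 := 50465866)
    rfl (fun _ => rfl) k0_B06pp_113_s1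

theorem s_B06pp_113_s1 {κ x : ℝ} (hκ : κ * h0 = ken x) (hx : ((536870912 : ℕ) : ℝ) / S ≤ x)
    (hx' : x ≤ (((536870912 : ℕ) : ℝ) + (50465866 : ℕ)) / S)
    (H : CutB (VFD κ) PP tK tL pcB (Cut.of [[⟨0, 1, 0, 67108864⟩, ⟨1, 1, 0, 67108864⟩, ⟨2, 2, 0, 16777216⟩]]) 1 1 3 0 6 (sgb true) (sgb true) x) :
    AltB (VFD κ) PP tK tL pcB [⟨3, 0, 0, 1449551462⟩] 1 1 3 0 6 (sgb true) (sgb true) x :=
  strip_altBD (m := 1449551462) true rfl hκ (SH.κ0 hκ (SH.hx1 hx).le (SH.hx2 hx').le) (SH.hx1 hx).le (SH.hx2 hx') (covB01).cov (covB63).cov hx hx' c_B06pp_113_s1 H (noExt_B)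

end Pool.Agent.Strip051.G.I5000_5470.Tab.St.C
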