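import Pool.Agent.Strip051.G.I5000_5470.Tab
import Pool.Agent.Strip051.PB.StripB

/-! # Strips, near vertex: certificates 4 (generated) -/

set_option linter.all false
set_option maxRecDepth 100000

namespace Pool.Agent.Strip051.G.I5000_5470.Tab.CS.BA06

open Pool.Agent.Strip051.PB Pool.Agent.Strip051.PB.T
open Pool.Agent.Strip051.G.I5000_5470.Tab

noncomputable def cut_pm_011_s : Cut := Cut.of [[⟨4, 0, 0, 1449551462⟩], [⟨0, 0, 0, 67108864⟩, ⟨1, 1, 0, 67108864⟩, ⟨2, 1, 0, 67108864⟩]]

noncomputable def f_pm_011_s : ℕ → ℕ → ℕ → ℕ → Bool := onCell 0 536870912 536870912 536870912 536870912 50465866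
    (rowNE 3 eng mog cd0q0 cd6q1 pd1 1 true true false .pnn 0 1 1 (qsf 0 536870912 536870912 536870912 1) ndB0q0 ndB6q1 pcB1 cut_pm_011_s Ext.none)

def k0_pm_011_s : ∃ t, chk3 f_pm_011_s t 1 2 1 = true :=
  ⟨(a (l 3) (b (l 1) (a (l 3) (l 1)))), by decide +kernel⟩

def k1_pm_011_s : ∃ t, chk3 f_pm_011_s t 4 6 1 = true :=
  ⟨(l 3), by decide +kernel⟩

def k2_pm_011_s : ∃ t, chk3 f_pm_011_s t 5 12 1 = true :=
  ⟨(l 3), by decide +kernel⟩

def k3_pm_011_s : ∃ t, chk3 f_pm_011_s t 10 13 1 = true :=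
  ⟨(l 3), by decide +kernel⟩

def k4_pm_011_s : ∃ t, chk3 f_pm_011_s t 11 26 1 = true :=
  ⟨(l 3), by decide +kernel⟩

def k5_pm_011_s : ∃ t, chk3 f_pm_011_s t 11 27 1 = true :=
  ⟨(a (b (l 3) (a (l 3) (b (l 3) (a (l 3) (b (l 3) (a (l 3) (b (a (l 3) (a (l 3) (b (l 3) (l 360408155415)))) (b (a (l 512342626471) (a (l 118279376551) (l 16775632))) (a (a (a (l 432885729255) (l 173577080407)) (l 16777680)) (l 16774136)))))))))) (b (a (l 3) (b (a (l 3) (b (l 3) (a (l 3) (b (l 3) (l 501068342279))))) (a (b (l 3) (c (a (b (l 3) (l 510195148887)) (b (l 468856085399) (a (l 196125663927) (l 16774832)))) (a (l 516100730695) (b (l 474761665431) (l 111300060135))))) (b (a (b (l 3) (a (l 505900178055) (c (l 190756954407) (l 173577085191)))) (c (b (c (l 181630151783) (l 180019539031)) (l 16773080)) (b (l 165524024727) (l 16773040)))) (a (c (c (l 16780400) (l 16783000)) (b (l 16779928) (l 16770272))) (l 16774360)))))) (a (b (a (l 3) (b (a (l 3) (a (l 3) (b (l 3) (b (l 489257176839) (l 123648086903)))))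 (b (a (a (l 3) (l 468319212199)) (a (a (l 148344150615) (l 16781088)) (l 16773592))) (a (a (c (l 341080803175) (l 340543932263)) (l 16775160)) (l 16770656))))) (a (b (a (a (l 3) (b (l 3) (a (l 414095248823) (b (l 493552143047) (l 16776360))))) (a (b (l 475835405159) (l 16779168)) (b (a (l 152102246919) (l 16781200)) (l 16772248)))) (b (a (a (b (a (l 495699626727) (l 16779088)) (l 16778248)) (l 16773760)) (l 16779768)) (a (c (l 16773424) (l 16773392)) (l 16775296)))) (b (a (b (l 16777456) (l 16767760)) (l 16774472)) (l 16768552)))) (b (b (c (a (a (b (a (l 455971180919) (l 101099509767)) (l 16778768)) (b (l 16771936) (l 16767544))) (l 16771264)) (a (a (b (l 181093281991) (l 16773496)) (l 16769680)) (l 16781600))) (a (a (l 16772120) (l 16771360)) (l 16762368))) (a (b (l 16765480) (l 16767056)) (b (l 16763984) (l 16755088))))))), by decide +kernel⟩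

def k6_pm_011_s : ∃ t, chk3 f_pm_011_s t 4 14 1 = true :=
  ⟨(a (l 3) (b (l 3) (a (l 3) (b (l 3) (a (l 3) (b (l 3) (a (b (l 3) (a (l 3) (b (l 3) (b (a (l 3) (b (l 3) (a (l 3) (a (l 3) (l 218137364519))))) (b (a (l 3) (a (a (l 3) (l 408189666071)) (l 34527512007))) (a (a (l 3) (l 471540434631)) (a (a (l 151028500055) (l 16776592)) (l 16775688)))))))) (b (a (l 3) (b (b (l 3) (a (l 3) (a (l 3) (a (l 3) (l 503752690167))))) (b (a (l 3) (b (a (l 3) (a (l 258939554103) (l 16778288))) (a (a (l 449528726599) (l 142438565399)) (l 16776240)))) (b (a (a (l 3) (a (l 499994592711) (l 196125656951))) (l 16777128)) (a (a (a (l 3) (l 248202135799)) (l 16777944)) (l 16774784)))))) (a (b (b (a (l 3) (b (a (l 3) (l 459729274439)) (a (l 496236496823) (a (l 183240754983) (l 16776704))))) (a (b (l 3) (a (l 3) (a (l 423222051735) (l 16777904)))) (a (a (b (l 234243491991) (l 16776464)) (l 16777688)) (l 16775456)))) (a (b (b (a (a (l 472614175991) (l 168745240247)) (l 16776352)) (l 16777568))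 (l 16775696)) (c (l 16775608) (l 16774944)))) (b (b (a (a (a (b (l 132238017991) (l 16776088)) (l 16776000)) (l 16775080)) (l 16773232)) (l 16775016)) (l 16773248))))))))))), by decide +kernel⟩

def k7_pm_011_s : ∃ t, chk3 f_pm_011_s t 8 30 1 = true :=
  ⟨(a (l 3) (b (l 3) (a (l 3) (b (l 3) (a (l 3) (b (l 3) (a (l 3) (b (l 3) (a (a (l 3) (b (l 3) (b (l 3) (b (b (l 484962206887) (a (l 3) (l 195051914199))) (a (l 394767892983) (l 16777576)))))) (b (a (l 3) (b (a (l 3) (l 499994592759)) (b (a (l 3) (a (l 205252461847) (l 16777104))) (b (a (l 220821718359) (l 16776856)) (l 16777704))))) (a (b (b (b (l 455434306551) (a (l 3) (l 16777616))) (a (a (l 279340648055) (l 155860337511)) (l 16776824))) (a (l 16777272) (l 16776064))) (c (l 16777056) (l 16776720))))))))))))), by decide +kernel⟩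

def k8_pm_011_s : ∃ t, chk3 f_pm_011_s t 16 31 1 = true :=
  ⟨(b (b (l 3) (l 14)) (l 14)), by decide +kernel⟩

def k9_pm_011_s : ∃ t, chk3 f_pm_011_s t 34 124 1 = true :=
  ⟨(a (l 3) (b (l 3) (a (l 3) (a (l 3) (b (l 3) (b (l 3) (a (b (l 3) (b (a (l 3) (c (l 448454984487) (l 459729273623))) (a (c (l 462950499175) (l 474761659223)) (b (a (l 240149070887) (l 16777104)) (l 16777640))))) (a (a (b (l 3) (b (b (l 212768654295) (l 16777088)) (l 16776704))) (b (b (l 3) (l 420537696711)) (l 16777344))) (b (b (a (l 3) (a (l 386177958743) (l 254644585207))) (a (a (l 130090533751) (l 16777440)) (l 16776904))) (l 16776936)))))))))), by decide +kernel⟩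

def k10_pm_011_s : ∃ t, chk3 f_pm_011_s t 34 125 1 = true :=
  ⟨(a (b (b (l 3) (l 14)) (l 14)) (b (a (b (a (l 3) (b (l 3) (b (a (l 3) (a (l 3) (b (l 3) (a (l 416779600343) (b (l 184851366775) (l 16777056)))))) (a (a (l 3) (b (l 3) (b (l 446844371511) (a (l 248202134583) (l 16777120))))) (a (b (b (l 430201373175) (a (l 222969201655) (l 16777088))) (l 16777328)) (c (l 16777208) (l 16777048))))))) (b (a (b (b (l 3) (l 14)) (l 14)) (b (a (a (b (b (l 463487369847) (a (l 272898196599) (l 16777480))) (a (l 16777528) (l 16776768))) (b (l 16777360) (l 16776360))) (l 16776384)) (a (l 16776448) (l 16774792)))) (a (l 14) (a (l 16775328) (l 16774584))))) (b (a (a (b (a (l 3) (b (l 3) (b (l 3) (b (a (l 3) (l 133848629991)) (c (l 16777448) (l 86067118727)))))) (b (a (b (a (a (l 468319207959) (l 257328939767)) (a (l 139217339031) (l 16777408))) (l 16777432)) (l 16776976)) (l 16776400))) (b (a (b (b (l 3) (l 495699624935)) (b (b (a (l 306721064167) (l 16777536)) (l 71034733111)) (l 16776712)))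 (b (b (l 481740981159) (b (a (l 293836162215) (l 16777504)) (l 16777544))) (l 16777080))) (b (l 16776328) (l 16774664)))) (b (b (a (a (b (b (a (l 266992616503) (l 16777136)) (l 16777352)) (l 16776640)) (l 16777008)) (l 16776192)) (c (l 16776048) (l 16776048))) (c (l 16774856) (l 16774848)))) (a (b (a (l 16775200) (l 16774448)) (l 16772960)) (a (l 16772680) (l 16771272))))) (a (a (l 14) (a (l 14) (b (l 16771536) (l 14)))) (b (a (l 16770568) (l 16769064)) (l 16766088))))), by decide +kernel⟩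

def k11_pm_011_s : ∃ t, chk3 f_pm_011_s t 70 248 1 = true :=
  ⟨(a (l 3) (b (l 3) (b (a (l 3) (a (l 3) (a (l 3) (b (l 3) (a (l 496773366967) (b (l 3) (c (l 163376530567) (l 165524014215)))))))) (a (b (l 3) (b (l 3) (a (l 3) (a (l 3) (l 449528726263))))) (b (a (b (l 3) (a (l 3) (c (l 410874020455) (l 421074567767)))) (b (a (a (l 3) (a (l 308868547447) (l 152639112119))) (l 16777592)) (c (l 16777360) (l 16777520)))) (a (b (a (l 433422598823) (l 51170509559)) (a (c (l 16777712) (l 66202895175)) (l 16776512))) (l 16776600))))))), by decide +kernel⟩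

def k12_pm_011_s : ∃ t, chk3 f_pm_011_s t 70 249 1 = true :=
  ⟨(b (b (a (l 3) (a (b (a (a (l 3) (a (l 3) (l 486035948663))) (b (a (l 465097982791) (a (l 151028499287) (l 16776960))) (a (b (l 173577077655) (l 16777008)) (l 16776592)))) (a (a (b (l 495699624935) (a (a (l 312626643847) (l 155323466679)) (l 16777408))) (a (b (a (l 284709356343) (l 130627404663)) (l 16776808)) (l 16777440))) (l 16776760))) (a (c (l 16776176) (l 16776336)) (l 16775736)))) (a (a (l 3) (b (a (l 3) (a (b (l 3) (b (a (l 3) (l 169282110279)) (l 116668760791))) (b (b (a (l 3) (l 16777568)) (l 95193924231)) (l 16776744)))) (a (a (b (l 3) (a (l 448991855159) (c (l 119889986551) (l 120963728375)))) (b (a (l 426980147703) (l 125795566359)) (l 16777480))) (c (l 16776912) (l 16776912))))) (a (a (b (l 16776840) (l 16775168)) (l 16775896)) (l 16774256)))) (a (b (a (a (b (l 3) (b (a (l 3) (b (l 499994591991) (a (l 3) (l 16777544)))) (b (a (l 3) (l 76403442263)) (a (a (l 3) (l 143512306439)) (l 16776848)))))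 (b (a (b (l 3) (b (l 479593497271) (a (l 300815484087) (l 16777184)))) (b (b (l 458118660727) (a (l 271824454759) (l 16777144))) (l 16777552))) (a (b (l 16777592) (l 16776424)) (l 16776136)))) (b (a (c (l 16776992) (c (l 16776992) (l 16777072))) (l 16775248)) (l 16775760))) (a (a (b (a (b (a (l 95730795175) (l 16776872)) (l 16776496)) (l 16776864)) (l 16776120)) (c (l 16776200) (l 16775536))) (l 16774568))) (a (b (l 16774416) (l 16773696)) (l 16771864)))), by decide +kernel⟩

def k13_pm_011_s : ∃ t, chk3 f_pm_011_s t 71 124 1 = true :=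
  ⟨(b (a (b (b (a (l 3) (a (l 3) (b (l 3) (b (a (l 3) (l 450065597175)) (a (l 466708595543) (l 93046440775)))))) (a (a (l 3) (a (l 3) (b (l 3) (b (l 3) (a (l 221358589271) (l 16777464)))))) (a (a (b (l 499994592743) (b (a (l 198810010887) (l 16777752)) (l 16776720))) (b (b (l 484962206631) (a (l 175724561575) (l 16777048))) (l 16776424))) (a (b (b (c (l 16777800) (l 116668760903)) (l 16776632)) (l 16775872)) (l 16776648))))) (a (a (a (b (b (l 3) (b (a (l 467782337143) (l 138143597623)) (l 16777552))) (l 16776280)) (b (b (b (l 3) (a (l 265918875223) (l 142975435591))) (l 16777256)) (l 16776392))) (b (b (b (a (a (c (l 241759684007) (l 246054651303)) (l 117742502647)) (l 16776768)) (l 16777192)) (l 16776432)) (l 16775568))) (b (c (l 16775776) (c (l 16775616) (l 16775776))) (l 16773920)))) (a (a (b (b (b (b (a (l 3) (l 414095245895)) (a (l 431275115175) (l 16777664))) (a (b (l 68350378823) (l 16776544)) (l 16776248))) (l 16776312)) (l 16773936)) (b (b (b (c (l 16777744) (l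 16777416)) (l 16775424)) (l 16775216)) (l 16773488))) (b (b (a (l 16776136) (l 16773720)) (l 16773552)) (l 16771832)))) (b (a (a (b (l 16774088) (l 16770752)) (l 16772192)) (l 16768888)) (a (c (l 16769240) (l 16769224)) (l 16764832)))), by decide +kernel⟩

def k14_pm_011_s : ∃ t, chk3 f_pm_011_s t 35 125 1 = true :=
  ⟨(a (b (a (b (a (b (c (l 16774712) (l 16774712)) (l 16772688)) (c (l 16771528) (l 16771512))) (c (l 16769712) (l 16769856))) (b (c (l 16769568) (l 16769552)) (l 16765512))) (a (b (l 16765808) (l 16764376)) (c (l 16762064) (l 16762024)))) (a (b (b (l 16765184) (l 16758512)) (l 16757680)) (b (l 16760072) (l 16753296)))), by decide +kernel⟩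

def k15_pm_011_s : ∃ t, chk3 f_pm_011_s t 17 63 1 = true :=
  ⟨(b (a (a (l 14) (b (b (a (l 14) (l 16762024)) (l 14)) (l 14))) (b (a (a (l 16756984) (l 16753952)) (l 16747400)) (a (c (l 16748040) (l 16747976)) (l 16744552)))) (a (l 14) (b (a (l 16739920) (l 16725984)) (a (l 14) (l 16717904))))), by decide +kernel⟩

def k16_pm_011_s : ∃ t, chk3 f_pm_011_s t 18 60 1 = true :=
  ⟨(a (l 3) (b (l 3) (a (l 3) (b (l 3) (a (b (l 3) (a (l 3) (a (b (l 3) (b (l 496773367735) (b (a (l 501068334103) (l 16777832)) (l 16777944)))) (b (b (l 3) (l 469929821863)) (a (b (a (l 218674235543) (l 153175983351)) (l 16776344)) (l 16777584)))))) (b (b (b (l 3) (a (l 3) (a (l 3) (a (l 459729274023) (l 157470951063))))) (a (b (l 3) (a (l 3) (b (l 3) (l 386177958551)))) (a (b (a (l 498383979959) (a (l 227264170183) (l 161229047079))) (l 16777968)) (l 16777640)))) (a (b (b (c (a (l 438791308711) (l 16778112)) (a (l 446844372375) (l 60834186599))) (a (a (l 151565370999) (l 16776648)) (l 16775784))) (l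 16776144)) (c (l 16776160) (l 16775504))))))))), by decide +kernel⟩

def k17_pm_011_s : ∃ t, chk3 f_pm_011_s t 36 122 1 = true :=
  ⟨(a (l 3) (b (l 3) (a (b (l 3) (b (l 3) (b (l 3) (b (l 3) (a (l 3) (a (l 3) (l 446844372071))))))) (b (a (l 3) (a (l 3) (b (l 3) (b (l 3) (b (l 458655532231) (a (l 454897435415) (l 16777056))))))) (b (b (a (l 3) (a (a (l 500531463655) (a (l 410337149607) (l 174113948999))) (l 16777720))) (b (a (l 3) (a (a (l 152102241431) (l 16776664)) (l 16775816))) (a (a (l 3) (a (l 3) (l 186998850663))) (l 16777184)))) (a (a (b (a (l 3) (a (l 487646561383) (l 387788571207))) (b (a (l 218674235207) (l 16776896)) (l 16777976))) (b (a (a (l 156397208807) (l 16777608)) (l 16776528)) (l 16775792))) (l 16775920))))))), by decide +kernel⟩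

def k18_pm_011_s : ∃ t, chk3 f_pm_011_s t 72 123 1 = true :=
  ⟨(b (b (l 3) (a (l 3) (a (b (l 3) (a (a (l 3) (b (l 3) (b (l 3) (l 173040206871)))) (b (b (l 483888465271) (a (l 490867786695) (l 111300051975))) (a (b (l 143512306711) (l 16776696)) (l 16776392))))) (b (a (b (l 3) (a (l 468319208679) (b (l 428053889687) (l 16777704)))) (b (b (b (l 493015270615) (l 414095246055)) (a (a (l 3) (l 198810010871)) (l 16776936))) (l 16777440))) (a (b (c (l 16777880) (l 16777712)) (l 16775552)) (l 16776248)))))) (a (b (a (b (l 3) (a (b (l 3) (a (l 3) (l 479593497927))) (a (b (l 3) (b (l 447381242615) (l 92509569863))) (b (a (l 3) (l 442012533623)) (l 23253222167))))) (b (b (b (l 3) (a (l 3) (a (l 3) (a (l 268603229767) (l 16777544))))) (b (a (l 3) (a (a (l 294909904551) (l 170355852183)) (l 16776848))) (a (a (l 3) (a (l 498383979239) (l 174113948823))) (l 16777272)))) (b (a (b (a (l 408726536759) (l 16777600)) (l 16777704)) (l 16775856)) (l 16776384)))) (b (a (b (a (b (a (l 486035948471)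 (l 107541955575)) (a (l 133311759367) (l 16776632))) (l 16776712)) (c (l 16776912) (l 16776584))) (l 16775192)) (a (l 16775552) (l 16774480)))) (a (b (b (a (b (b (a (l 192904430727) (l 16776744)) (l 16776520)) (l 16775760)) (l 16775808)) (l 16774992)) (l 16773272)) (b (c (l 16775088) (l 16774424)) (l 16771040))))), by decide +kernel⟩

def k19_pm_011_s : ∃ t, chk3 f_pm_011_s t 73 123 1 = true :=
  ⟨(b (b (b (a (a (b (l 3) (a (l 3) (l 501068335111))) (b (b (a (l 3) (a (l 436106953399) (l 16777008))) (a (l 475835401543) (l 16777440))) (a (a (b (l 480130368407) (l 128479921207)) (l 16777688)) (l 16776024)))) (a (c (l 16776152) (l 16776144)) (l 16775200))) (a (b (a (a (l 3) (a (b (l 3) (l 186461979735)) (c (l 16777632) (l 72108475543)))) (l 16776552)) (a (a (a (a (l 483888464983) (l 385104216631)) (b (l 209010558151) (l 16776832))) (l 16777552)) (l 16775872))) (l 16773984))) (b (a (a (a (b (l 16777008) (l 16775336)) (l 16776032)) (l 16774352)) (l 16772280)) (a (c (l 16774760)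 (l 16774104)) (l 16770256)))) (a (b (a (l 16772848) (l 16770600)) (l 16767680)) (a (l 16767640) (l 16766696)))), by decide +kernel⟩

def k20_pm_011_s : ∃ t, chk3 f_pm_011_s t 37 61 1 = true :=
  ⟨(b (b (a (a (a (l 3) (b (l 3) (b (l 3) (a (b (l 3) (l 499457722327)) (b (l 474224789223) (b (a (l 464024240967) (l 16777072)) (l 16777504))))))) (b (a (l 3) (b (l 3) (b (a (l 3) (b (l 464024241383) (a (l 292225550519) (l 16777072)))) (a (b (l 497847109095) (c (l 194515044791) (l 365239992839))) (l 16777904))))) (b (b (b (a (l 3) (a (l 90362086551) (l 16775832))) (a (a (l 3) (l 398525989639)) (l 16777208))) (a (c (a (l 445770630647) (l 16778168)) (a (l 454360565223) (a (l 121500599767) (l 16776560)))) (l 16776448))) (a (b (b (a (a (l 243370297271) (l 16776944)) (l 16776088)) (l 16777464)) (l 16776704)) (l 16776240))))) (a (b (b (a (b (a (l 3) (a (l 408726536999) (l 102710117687))) (a (a (l 444696888359) (a (l 193978172855) (l 16777704))) (l 16776328))) (l 16776584)) (a (a (l 16777424)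 (l 16774808)) (l 16773080))) (c (l 16773816) (l 16774296))) (b (c (l 16773264) (l 16773248)) (l 16771816)))) (b (a (a (b (a (b (l 3) (a (l 3) (a (l 408726536999) (c (l 16777728) (l 99488892231))))) (a (b (a (c (l 203104979447) (l 374903669303)) (l 16777760)) (l 16776208)) (l 16776888))) (a (a (b (b (l 428053890007) (a (l 235854104471) (l 16776928))) (l 16777768)) (l 16776976)) (l 16775432))) (a (a (l 16775392) (l 16774912)) (l 16773192))) (c (l 16770104) (l 16769744))) (a (a (a (b (l 16775680) (l 16772344)) (l 16773704)) (l 16770288)) (l 16766032)))) (a (a (b (b (l 16771448) (l 16769368)) (l 16763296)) (b (l 16766832) (l 16758760))) (b (b (l 16761992) (l 16757968)) (l 16751928)))), by decide +kernel⟩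

def k21_pm_011_s : ∃ t, chk3 f_pm_011_s t 76 60 1 = true :=
  ⟨(b (l 3) (b (b (a (l 3) (b (a (l 3) (b (a (l 3) (a (l 413021504343) (l 110763181383))) (a (a (l 455971177607) (l 153712854631)) (l 16776336)))) (b (a (a (l 3) (a (l 498383979943) (l 196662527895))) (l 16777216)) (a (a (b (l 3) (l 384030474919)) (l 16777960)) (l 16774888))))) (a (a (a (l 3) (b (l 3) (b (l 501068335095) (a (a (l 450065597319) (l 216526751255)) (l 16777608))))) (b (b (a (l 3) (l 445233759671)) (a (l 474761660119) (a (l 158007821975) (l 16776656)))) (b (a (a (l 199346882487) (l 16776808)) (l 16775928)) (l 16776808)))) (b (a (a (a (b (l 116668761463) (l 16776072)) (l 16775992)) (l 16775120)) (l 16775976)) (l 16775120)))) (a (b (a (b (b (a (a (l 418927084423) (l 117205632391)) (l 16776224)) (l 16777096)) (l 16775576)) (c (l 16775576) (l 16774912))) (l 16773328)) (b (l 16773376) (l 16770624))))), by decide +kernel⟩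

def k22_pm_011_s : ∃ t, chk3 f_pm_011_s t 77 60 1 = true :=
  ⟨(a (b (b (l 3) (b (b (l 3) (b (l 3) (a (l 3) (a (l 3) (a (l 3) (l 219747977271)))))) (b (a (a (l 3) (b (l 3) (l 465097983607))) (c (a (b (l 428590761303) (l 16778200)) (l 16777528)) (a (b (l 437717566775) (l 84456506903)) (l 16777848)))) (a (b (a (l 495699625911) (a (l 188072593239) (l 16776752))) (a (a (l 232096008327) (l 16778224)) (l 16776024))) (l 16776072))))) (b (b (a (b (l 16776392) (l 16773040)) (l 16774320)) (l 16771432)) (l 16767968))) (b (a (b (l 3) (a (b (b (l 3) (b (a (l 475835401495) (l 174650820343)) (l 16777872))) (l 16775976)) (b (b (b (l 3) (a (l 431811986391) (l 128479921607))) (l 16777200)) (l 16775440)))) (b (b (l 3) (b (l 3) (b (a (l 3) (l 473687918295)) (a (l 501605206039) (a (l 202031237047) (l 16776792)))))) (b (b (a (b (a (l 248739006711) (l 16777616)) (l 16776232)) (l 16775552)) (l 16776720)) (l 16773656)))) (b (c (l 16771392) (l 16771336)) (l 16763264)))), by decide +kernel⟩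

def k23_pm_011_s : ∃ t, chk3 f_pm_011_s t 39 60 1 = true :=
  ⟨(b (a (b (a (b (a (l 3) (b (l 3) (b (a (l 3) (a (l 435570082791) (l 131164276167))) (a (a (l 483351594295) (l 179482658567)) (l 16776400))))) (b (b (a (a (l 3) (a (l 3) (l 227264170087))) (l 16777616)) (a (a (l 440401921415) (l 43117446567)) (l 16774952))) (a (a (a (b (l 155860338279) (l 16776192)) (l 16777416)) (l 16775208)) (l 16776032)))) (b (a (b (b (a (l 501605206055) (a (l 200420624295) (l 16776776))) (a (a (l 249812748535) (l 16777608)) (l 16776048))) (l 16776416)) (c (l 16776352) (l 16775688))) (c (l 16773464) (l 16774752)))) (a (b (a (l 16775360) (l 16772960)) (l 16772704)) (l 16769952))) (a (b (b (l 16774016) (l 16771240)) (l 16765144)) (b (l 16768432) (l 16765568)))) (a (b (c (l 16766920) (l 16766808)) (l 16761424)) (a (l 16758312) (l 16753536)))), by decide +kernel⟩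

def k24_pm_011_s : ∃ t, chk3 f_pm_011_s t 19 61 1 = true :=
  ⟨(a (b (a (b (a (l 16769208) (l 16764560)) (l 16761448)) (b (l 16757560) (l 16754784))) (b (a (l 16756032) (l 16736304)) (l 16746048))) (b (a (l 16749424) (l 16740024)) (b (l 16732840) (l 16735432)))), by decide +kernel⟩

def k25_pm_011_s : ∃ t, chk3 f_pm_011_s t 9 31 1 = true :=
  ⟨(b (a (a (b (a (b (b (a (a (a (l 16772912) (l 16773112)) (l 16771448)) (l 16768104)) (a (l 16768512) (l 16766680))) (a (c (l 16765064) (l 16765040)) (l 16760616))) (b (a (l 16764232) (l 16759736)) (l 16755216))) (a (b (b (l 16756776) (l 16752736)) (l 16746672)) (b (l 16751080) (l 16732520)))) (b (a (b (l 16752968) (l 16750152)) (a (l 16747392) (l 16742848))) (a (a (l 16740328) (l 16735840)) (l 16729088)))) (a (b (a (l 16736016) (l 16726872)) (l 16719776)) (b (l 16713112) (l 16707832)))) (a (b (a (a (a (l 16738072) (l 16737584)) (l 16728312)) (b (l 16721568) (l 16713560))) (a (b (l 16723288) (l 16715256)) (c (l 16701792) (l 16711872))))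 (a (b (l 16699608) (l 16683744)) (a (l 16683472) (l 16669280))))), by decide +kernel⟩

def k26_pm_011_s : ∃ t, chk3 f_pm_011_s t 20 28 1 = true :=
  ⟨(l 3), by decide +kernel⟩

def k27_pm_011_s : ∃ t, chk3 f_pm_011_s t 21 56 1 = true :=
  ⟨(l 3), by decide +kernel⟩

def k28_pm_011_s : ∃ t, chk3 f_pm_011_s t 42 57 1 = true :=
  ⟨(b (l 3) (a (l 3) (b (l 3) (a (a (l 3) (b (l 3) (b (l 3) (a (a (l 3) (b (l 3) (b (l 510195139703) (l 174650819863)))) (a (b (l 490330916215) (l 26474448071)) (b (b (l 275582551847) (l 16777632)) (l 16776168))))))) (b (a (a (l 3) (a (l 3) (a (l 3) (b (l 3) (b (l 3) (l 431275115271)))))) (a (b (l 3) (a (b (l 3) (b (l 218137363959) (l 16776824))) (b (b (l 509121397831) (l 162839659799)) (l 16776408)))) (b (b (l 3) (a (l 483888465223) (b (l 264308262631) (l 16777600)))) (a (b (l 20031997079) (l 16775728)) (l 16776896))))) (b (a (b (a (l 510732011799) (a (b (l 466171724631) (l 16777760)) (l 16778000))) (a (a (b (l 3) (l 222969202199)) (b (l 169282110759)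 (l 16776704))) (l 16777256))) (a (l 16776104) (l 16776368))) (a (a (a (l 16777008) (l 16776656)) (l 16776936)) (l 16774880)))))))), by decide +kernel⟩

def k29_pm_011_s : ∃ t, chk3 f_pm_011_s t 86 114 1 = true :=
  ⟨(b (l 3) (a (l 3) (b (l 3) (b (l 3) (b (l 3) (a (l 3) (a (l 3) (a (b (l 3) (l 408726536759)) (b (c (l 209547429335) (l 207399945687)) (l 16776800)))))))))), by decide +kernel⟩

def k30_pm_011_s : ∃ t, chk3 f_pm_011_s t 87 114 1 = true :=
  ⟨(b (a (l 3) (b (l 3) (b (a (l 3) (a (l 3) (a (b (l 3) (b (l 512879494295) (c (l 171966465351) (l 16777904)))) (b (l 488183432583) (b (l 79087797303) (l 16776536)))))) (b (a (l 3) (a (a (c (l 465097983207) (l 468856079591)) (b (c (l 230485395063) (l 232096007767)) (l 16777512))) (l 16776712))) (a (a (l 3) (b (l 508047656631) (a (l 3) (a (l 223506072791) (l 16776992))))) (a (a (a (l 16777728) (l 16776552)) (l 16776016)) (l 16777560))))))) (a (b (a (l 3) (a (b (l 3) (b (l 3) (a (l 499994592727) (b (l 426443276935) (l 16777648)))))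 (b (b (l 3) (a (l 3) (l 509658269335))) (b (b (a (l 3) (a (l 257328940391) (l 16777056))) (a (a (l 324974675607) (l 16777704)) (l 16776680))) (c (l 16776856) (l 16776200)))))) (b (a (b (b (l 3) (a (l 3) (a (l 3) (a (l 287930582487) (l 16777776))))) (b (a (l 3) (a (a (l 509121397543) (l 184314496071)) (l 16776744))) (a (a (l 3) (l 446844371703)) (l 16777528)))) (a (a (b (b (l 130090534039) (l 16776592)) (l 16775760)) (l 16776256)) (l 16777160))) (a (b (a (b (a (l 502678946855) (l 16777704)) (a (a (l 236927845655) (l 16777024)) (l 16776496))) (l 16777024)) (c (l 16776296) (l 16776624))) (l 16775656)))) (b (b (a (a (a (b (l 3) (b (l 459192402759) (l 73719088151))) (b (a (l 511805752727) (a (l 468856079239) (l 404431569447))) (l 16777632))) (a (b (b (a (l 308331677127) (l 16777800)) (l 16776768)) (l 16775936)) (l 16776600))) (a (l 16776016) (l 16775888))) (a (c (a (l 16776320) (l 16776528)) (l 16775936)) (l 16774376))) (c (a (l 16773912) (l 16773656)) (l 16773784))))), by decide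 +kernel⟩

def k31_pm_011_s : ∃ t, chk3 f_pm_011_s t 43 115 1 = true :=
  ⟨(a (b (a (b (l 3) (a (b (l 3) (a (b (l 3) (c (l 505900173543) (l 512879495383))) (a (b (l 3) (b (l 451676209927) (l 16777720))) (b (a (l 510732010839) (l 416779600567)) (l 16777952))))) (a (a (b (l 3) (b (b (l 198273140167) (l 16776776)) (l 16775952))) (b (b (l 3) (b (l 495162754023) (l 143512306871))) (l 16776464))) (b (b (a (c (l 467782337767) (l 472614175975)) (b (c (l 240149071479) (l 240149071479)) (l 16777536))) (c (l 16777552) (l 16777720))) (l 16776080))))) (a (a (b (b (l 3) (b (a (l 3) (l 497847109063)) (a (b (l 510732010695) (c (l 185925109079) (l 16777936))) (b (l 129553663127) (l 16776592))))) (b (a (l 16776736) (l 16776528)) (l 16775992))) (b (b (b (l 3) (b (l 3) (a (l 3) (a (l 326585288343) (l 16777712))))) (b (b (a (l 425906406023) (l 16776840)) (l 16777624)) (l 16776472))) (l 16775368))) (b (b (a (a (b (l 510195140247) (a (b (l 262160778599) (l 16776872)) (l 16777448))) (b (b (l 465097982807)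 (l 77477184567)) (l 16776272))) (a (b (l 16777656) (l 16775568)) (l 16776072))) (a (a (l 16775976) (l 16777240)) (l 16776184))) (l 16773912)))) (a (b (b (a (b (a (a (b (l 3) (l 210621171159)) (b (l 154786596071) (l 16776656))) (l 16777208)) (a (l 16776840) (l 16774808))) (l 16775896)) (a (c (l 16776480) (l 16776480)) (l 16773704))) (c (l 16773128) (l 16773128))) (b (c (l 16771904) (l 16773224)) (l 16768832)))) (a (b (b (a (b (l 16776280) (l 16774072)) (l 16772992)) (c (l 16771952) (l 16771960))) (b (l 16767544) (l 16763248))) (b (b (l 16769832) (l 16766208)) (l 16759768)))), by decide +kernel⟩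

def k32_pm_011_s : ∃ t, chk3 f_pm_011_s t 20 58 1 = true :=
  ⟨(a (l 3) (b (a (l 3) (b (l 3) (a (l 3) (b (l 3) (b (a (l 3) (a (l 3) (a (l 491941529847) (b (l 3) (l 149954758375))))) (a (b (l 3) (a (l 3) (l 454897436199))) (a (b (a (l 3) (l 217063622855)) (l 27011319271)) (l 16777392)))))))) (b (a (a (l 3) (a (l 3) (a (l 3) (b (l 3) (b (l 3) (b (l 3) (a (l 420537697143) (l 16777680)))))))) (a (b (a (l 3) (b (l 3) (a (b (l 3) (a (l 510732011031) (l 203641849735))) (b (a (l 447381242951) (l 130627405399)) (l 16777688))))) (b (b (a (a (l 3) (l 437180695927)) (c (l 16777936) (l 16777608))) (a (a (l 483351594823) (a (l 159618434631) (l 16776536))) (l 16776216))) (a (a (a (b (l 221895460871) (l 16776368)) (l 16777560)) (l 16775272)) (l 16775936)))) (b (b (a (a (b (l 502142076935) (a (l 240149072231) (l 16778184))) (a (b (l 174650820487) (l 16776216)) (l 16777400))) (l 16775752)) (a (l 16776256) (l 16774928))) (c (l 16774384) (l 16774368))))) (a (a (b (b (l 3) (a (l 3) (a (l 3)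 (a (l 3) (l 508584528295))))) (b (a (l 3) (a (b (l 3) (a (l 447381242935) (l 16778120))) (a (b (l 248202135783) (l 16776488)) (l 16777680)))) (b (a (a (l 3) (a (l 506973914615) (l 200420624247))) (l 16777064)) (a (a (l 432348857655) (l 16777936)) (l 16774704))))) (a (a (b (b (l 3) (b (l 460266145367) (a (l 190756947735) (l 16776664)))) (l 16775992)) (b (b (b (l 3) (c (l 413558375575) (l 420000826503))) (c (l 16778200) (l 16778032))) (l 16775680))) (b (b (b (a (a (l 482814723399) (l 176261433015)) (l 16776288)) (l 16777512)) (l 16775600)) (l 16773736)))) (a (b (a (c (l 16774720) (l 16774712)) (l 16772752)) (l 16772472)) (b (l 16771456) (l 16767280))))))), by decide +kernel⟩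

def k33_pm_011_s : ∃ t, chk3 f_pm_011_s t 40 118 1 = true :=
  ⟨(a (b (l 3) (a (b (l 3) (b (l 3) (b (l 3) (a (l 3) (a (l 3) (a (l 464024241335) (l 158544692839))))))) (b (a (l 3) (b (l 3) (b (a (l 3) (a (l 3) (l 218137364503))) (a (l 442012534183) (l 16778016))))) (a (a (b (l 3) (b (a (l 409800278839) (l 16777672)) (l 16776280))) (b (b (l 481740982071) (a (l 216526751751) (l 16776808))) (l 16775552))) (a (b (a (b (l 162839660151) (l 16776184)) (l 16776080)) (l 16774304)) (l 16775408)))))) (b (a (b (l 3) (a (l 3) (b (a (l 3) (b (l 3) (l 440938792343))) (b (a (l 482277852983) (a (l 162302789223) (l 16776584))) (a (a (l 217063622663) (l 16776800)) (l 16775856)))))) (a (b (a (l 3) (b (l 3) (b (l 3) (a (l 462950499511) (l 156397209175))))) (b (a (b (a (l 507510785623) (l 214379268071)) (l 16777992)) (l 16777248)) (l 16775792))) (a (b (b (l 507510787239) (b (a (l 266992617831) (l 16778288)) (l 16776240))) (l 16774936)) (b (b (b (l 474224789239) (a (l 208473687991) (l 16776752)))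 (l 16775496)) (l 16774968))))) (a (b (b (a (b (a (l 3) (a (l 412484633415) (l 16777672))) (a (a (l 469392950487) (l 163913401975)) (l 16776280))) (l 16776224)) (a (a (l 16777280) (l 16774712)) (l 16772824))) (c (l 16773600) (l 16774888))) (b (l 16774008) (l 16771168))))), by decide +kernel⟩

def k34_pm_011_s : ∃ t, chk3 f_pm_011_s t 40 119 1 = true :=
  ⟨(b (b (a (b (b (a (a (l 3) (a (a (l 503215818311) (l 212231784423)) (l 16777792))) (l 16775008)) (a (a (a (l 3) (l 436106954087)) (c (l 16777376) (l 16778032))) (l 16774952))) (a (a (b (a (l 474224789223) (a (l 151028500055) (l 16776576))) (a (a (l 205252462519) (l 16776776)) (l 16775848))) (l 16775816)) (l 16773400))) (c (l 16769608) (l 16769520))) (a (a (a (c (l 16776504) (l 16775672)) (l 16774024)) (l 16770304)) (l 16765464))) (a (a (c (l 16771744) (l 16771424)) (l 16766784)) (l 16761984))), by decide +kernel⟩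

def k35_pm_011_s : ∃ t, chk3 f_pm_011_s t 41 59 1 = true :=
  ⟨(b (a (a (b (b (a (a (b (b (l 54928606919) (l 16775800)) (l 16774224)) (l 16775304)) (l 16774688)) (l 16773088)) (l 16768184)) (b (b (l 16773456) (l 16769296)) (l 16763104))) (b (a (l 16766232) (l 16761072)) (l 16760704))) (a (b (l 16760096) (l 16754664)) (a (l 16751144) (l 16746120)))), by decide +kernel⟩

def k36_pm_011_s : ∃ t, chk3 f_pm_011_s t 42 116 1 = true :=
  ⟨(a (b (a (l 3) (b (b (l 3) (b (l 3) (a (l 3) (a (l 3) (a (l 489794045303) (a (l 226190427991) (l 79087797447))))))) (b (b (a (l 3) (a (a (l 3) (a (l 456508048295) (l 203104978647))) (l 16777824))) (b (a (l 3) (a (a (l 223506073111) (l 16776712)) (l 16775704))) (a (a (l 3) (l 457581790439)) (l 16776824)))) (a (a (b (l 511268882679) (a (l 414095246151) (l 60297315623))) (a (b (a (l 266455746631) (l 156397209031)) (l 16776304)) (l 16777480))) (c (l 16775800) (l 16775800)))))) (a (b (b (a (l 3) (b (a (l 3) (a (l 482277852487) (a (l 218674235175)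 (l 16777728)))) (a (a (l 3) (c (l 373829927463) (l 236927846535))) (l 16777800)))) (b (a (a (l 3) (a (l 3) (l 443086275607))) (a (a (l 123648083479) (l 16776416)) (l 16775424))) (a (a (l 511268882583) (a (c (l 188609464327) (l 197736269655)) (l 16776680))) (l 16776328)))) (a (b (b (a (a (l 402820956903) (l 16777920)) (l 16775936)) (l 16776840)) (l 16776552)) (l 16774960))) (b (a (a (b (l 16777008) (l 16773552)) (l 16775904)) (l 16773880)) (c (l 16772264) (l 16773552))))) (b (a (b (b (a (a (b (l 3) (l 511805753623)) (a (b (l 3) (a (l 414632116903) (l 160155305431))) (b (l 455434306679) (l 16778024)))) (a (a (b (b (l 225653556775) (l 16776848)) (l 16776040)) (l 16777208)) (l 16776192))) (a (a (b (a (c (l 418390213479) (l 423222051687)) (c (l 62444799303) (l 16777968))) (l 16777552)) (l 16776416)) (l 16776016))) (a (a (b (l 16777248) (l 16772464)) (l 16774808)) (l 16772768))) (b (a (a (l 16775056) (l 16773680)) (l 16771616)) (l 16771272))) (a (b (l 16771120) (l 16768184))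 (l 16765552)))), by decide +kernel⟩

def k37_pm_011_s : ∃ t, chk3 f_pm_011_s t 42 117 1 = true :=
  ⟨(a (a (b (b (c (l 16773344) (l 16773328)) (l 16770400)) (l 16764136)) (b (b (l 16769312) (l 16765112)) (l 16758896))) (b (a (l 16761888) (l 16761800)) (l 16756248))), by decide +kernel⟩

def k38_pm_011_s : ∃ t, chk3 f_pm_011_s t 43 58 1 = true :=
  ⟨(b (a (b (a (b (l 16770072) (l 16765800)) (l 16762424)) (c (l 16762136) (l 16761904))) (b (l 16757416) (l 16751128))) (a (b (l 16753776) (l 16745688)) (l 16739048))), by decide +kernel⟩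

def k39_pm_011_s : ∃ t, chk3 f_pm_011_s t 21 59 1 = true :=
  ⟨(a (b (a (b (l 16758552) (l 16750472)) (b (l 16748168) (l 16740200))) (a (l 16738560) (l 16728464))) (b (a (l 16733800) (l 16733912)) (b (l 16727584) (l 16720024)))), by decide +kernel⟩

def k40_pm_011_s : ∃ t, chk3 f_pm_011_s t 44 112 1 = true :=
  ⟨(l 3), by decide +kernel⟩

def k41_pm_011_s : ∃ t, chk3 f_pm_011_s t 88 113 1 = true :=
  ⟨(b (l 3) (a (b (l 3) (b (l 3) (b (l 3) (b (l 3) (a (l 3) (a (l 3) (a (l 3) (a (l 512342623111) (l 201494365319))))))))) (b (a (l 3) (b (l 3) (a (a (l 3) (b (l 3) (l 478519756119))) (b (b (l 512342624199) (a (l 3) (l 184851367351))) (b (a (l 245517780743) (l 16776728)) (l 16777184)))))) (b (b (a (l 3) (a (a (b (l 506973914231) (l 162302788919)) (c (l 16777760) (l 16776776))) (l 16777000))) (a (a (l 3) (a (c (l 461339886807) (l 464561112279)) (a (b (l 322827191975) (l 16777008)) (l 16777744)))) (a (l 16776672) (l 16774560)))) (a (a (b (b (l 507510785719) (a (l 3) (l 135459243223)))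 (b (a (a (l 302962968087) (l 16777792)) (l 16776600)) (l 16777056))) (a (b (l 16777696) (l 16775592)) (l 16776080))) (l 16776224)))))), by decide +kernel⟩

def k42_pm_011_s : ∃ t, chk3 f_pm_011_s t 89 113 1 = true :=
  ⟨(b (a (b (l 3) (a (a (l 3) (b (l 3) (a (l 3) (b (l 3) (l 506437043783))))) (a (b (l 3) (b (a (l 3) (b (l 3) (l 227264169623))) (b (a (l 434496340679) (l 16776840)) (l 16777632)))) (b (b (l 3) (b (l 484425336327) (a (l 511268881543) (l 16777720)))) (b (a (b (l 163376530807) (l 16776672)) (l 16776224)) (l 16776776)))))) (a (b (b (l 3) (a (a (l 3) (b (l 3) (l 512342624023))) (a (b (l 3) (b (l 470466691991) (l 16777768))) (b (a (l 3) (l 424832664327)) (l 16777976))))) (a (b (b (a (c (l 434496341015) (l 438791308295)) (b (l 182167012823) (l 16776720))) (l 16777232)) (l 16777184)) (c (b (l 16776656) (l 16775720)) (l 16775528)))) (a (b (a (b (l 3) (b (b (l 202031236615) (l 16776768)) (l 16775928))) (b (b (l 3) (b (l 486035948535) (l 137069855959))) (l 16776408)))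 (l 16775376)) (b (b (b (a (l 458118661319) (b (l 217063622247) (l 16776816))) (l 16777648)) (l 16777272)) (l 16773904))))) (b (a (b (a (b (a (l 3) (a (b (l 3) (l 207399945767)) (b (l 141901694263) (l 16776616)))) (a (a (l 494089012695) (b (l 268603230071) (l 16777608))) (l 16776800))) (c (a (l 16776552) (l 16776400)) (l 16775816))) (a (a (a (a (b (l 63518541031) (l 16775896)) (l 16776752)) (l 16776208)) (l 16777080)) (l 16774880))) (a (l 16773736) (l 16772760))) (a (a (c (l 16775096) (l 16774432)) (l 16771512)) (l 16769728)))), by decide +kernel⟩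

def k43_pm_011_s : ∃ t, chk3 f_pm_011_s t 45 56 1 = true :=
  ⟨(b (a (b (a (l 3) (b (l 3) (a (l 3) (a (b (l 3) (b (l 520395688167) (a (l 257865812679) (l 16776864)))) (b (a (l 3) (l 455434307479)) (b (l 81772152903) (l 16775760))))))) (a (a (b (l 3) (a (b (l 3) (b (c (l 503752689655) (l 508047656935)) (a (a (l 444160017287) (l 181630142231)) (l 16778056)))) (a (b (l 3) (a (b (l 188072593207) (l 16776192)) (l 16777696))) (b (a (l 491404658727) (b (l 3) (l 193978173271))) (l 16777144))))) (a (b (l 3) (b (b (a (l 494625883479) (l 146196662103)) (l 16777728)) (l 16776040))) (b (b (l 3) (b (l 517711333495) (a (l 387788571303) (l 16778128)))) (b (l 16776808) (l 16773256))))) (b (b (a (b (a (l 3) (a (l 509121398231) (l 161765918663))) (a (a (l 3) (l 251423361671)) (l 16777784))) (l 16776128)) (a (a (a (b (l 154249725847) (l 16776080)) (l 16775896)) (l 16776104)) (l 16777816))) (a (c (l 16774792) (l 16774776)) (l 16774448))))) (b (a (b (b (a (l 3) (a (l 494089013943) (b (l 241759686167)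 (l 16776544)))) (a (b (l 520932560631) (a (l 3) (l 170355854167))) (a (l 39896221863) (l 16774872)))) (b (a (b (a (l 378124895063) (l 16776160)) (l 16777744)) (l 16778616)) (a (l 16776720) (l 16771128)))) (b (a (c (l 16776384) (l 16776368)) (l 16776024)) (l 16773032))) (a (b (l 16774488) (l 16770000)) (l 16768920)))) (a (b (a (b (b (a (a (l 16776416) (l 16776576)) (l 16776992)) (l 16774904)) (l 16772520)) (c (l 16770512) (l 16769160))) (a (c (l 16768728) (l 16766072)) (l 16760176))) (b (c (l 16765552) (l 16765488)) (l 16756504)))), by decide +kernel⟩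

def k44_pm_011_s : ∃ t, chk3 f_pm_011_s t 22 57 1 = true :=
  ⟨(a (b (a (b (a (b (b (a (l 3) (b (a (a (l 3) (l 512879494855)) (a (b (l 464024240983) (l 74255959159)) (l 16777624))) (a (a (a (l 508584527127) (b (l 3) (l 16777720))) (a (b (l 265918875015) (l 16776872)) (l 16777440))) (l 16776536)))) (a (b (a (l 3) (a (l 509121398311) (b (l 435570082503) (l 16777664)))) (b (a (l 3) (a (a (l 226727298279) (l 16776992)) (l 16776456))) (a (a (l 3) (a (l 309405419047) (l 16777808))) (l 16776256)))) (a (a (b (l 16777224) (l 16775448)) (l 16775944)) (l 16776816)))) (b (a (b (a (b (a (l 407115924007) (l 16776776)) (l 16777560)) (l 16776728)) (c (l 16776000) (l 16776328))) (l 16775304)) (a (l 16775960) (l 16773056)))) (b (a (a (a (b (l 16776008) (l 16773104)) (l 16775472)) (l 16775032)) (l 16773512)) (c (l 16772424) (l 16772424)))) (a (b (a (l 16773264) (l 16769696)) (l 16769296)) (c (l 16768288) (l 16765680)))) (b (a (b (l 16770272) (l 16766584)) (l 16764280)) (c (l 16761432) (l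 16762104)))) (a (b (a (a (l 16764096) (l 16761224)) (l 16756912)) (l 16756560)) (b (l 16753416) (l 16745112)))) (b (a (b (l 16759352) (l 16750304)) (l 16748176)) (a (l 16742744) (l 16730848)))), by decide +kernel⟩

def k45_pm_011_s : ∃ t, chk3 f_pm_011_s t 23 28 1 = true :=
  ⟨(b (a (b (a (b (c (l 16771608) (l 16771528)) (l 16762592)) (b (l 16759600) (l 16761112))) (a (l 16754328) (l 16742360))) (b (a (l 16753624) (l 16741680)) (a (l 16735632) (l 16723696)))) (a (b (a (l 16736232) (l 16729504)) (c (l 16718416) (l 16717712))) (b (l 16712864) (l 16693504)))), by decide +kernel⟩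

def k46_pm_011_s : ∃ t, chk3 f_pm_011_s t 11 29 1 = true :=
  ⟨(a (b (a (b (a (b (l 16748280) (l 16740192)) (l 16733064)) (a (l 16728360) (l 16728056))) (b (a (l 16732160) (l 16720576)) (b (l 16715128) (l 16707776)))) (a (b (b (l 16722064) (l 16714592)) (a (l 16687680) (l 16698504))) (b (l 16702288) (l 16682992)))) (b (a (b (l 16708136) (l 16688632)) (a (l 16677848) (l 16665800))) (a (b (l 16674880) (l 16661560)) (b (l 16630928) (l 16639288))))), by decide +kernel⟩

def k47_pm_011_s : ∃ t, chk3 f_pm_011_s t 5 15 1 = true :=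
  ⟨(a (b (a (b (a (b (a (b (l 16763416) (l 16758320)) (a (l 16755008) (l 16750112))) (a (l 16746360) (l 16736760))) (b (a (l 16742752) (l 16732896)) (b (l 16726152) (l 16728912)))) (a (b (l 16731104) (l 16710272)) (a (l 16711824) (l 16699800)))) (b (b (a (b (l 16732400) (l 16724768)) (l 16698352)) (a (l 16702936) (l 16683648))) (a (b (l 16687944) (l 16662552)) (b (l 16679576) (l 16644120))))) (b (a (a (b (l 16684240) (l 16668704)) (b (l 16665904) (l 16650648))) (a (b (l 16668632) (l 16632760)) (b (l 16629640) (l 16615136)))) (a (a (l 16666416) (l 16638288)) (a (b (l 16617856) (l 16602976)) (b (l 16600632) (l 16586152)))))) (b (a (b (a (b (l 16699664) (l 16675000)) (b (l 16669224) (l 16634664))) (a (b (l 16660936) (l 16625944)) (b (l 16621160) (l 16607680)))) (a (b (b (l 16627592) (l 16614680)) (l 16616360)) (b (l 16641808) (l 16575600)))) (b (a (a (b (l 16611920) (l 16597864)) (l 16608376)) (a (l 16569520) (l 16551032))) (a (a (l 16597776) (l 16560304)) (b (l 16562368)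 (l 16591128)))))), by decide +kernel⟩

def k48_pm_011_s : ∃ t, chk3 f_pm_011_s t 6 12 1 = true :=
  ⟨(a (b (l 3) (a (l 3) (b (l 3) (a (l 3) (b (l 3) (a (b (l 3) (a (l 3) (b (l 3) (l 467782344215)))) (b (a (l 3) (b (l 1) (a (l 421074570359) (l 1)))) (a (a (b (l 3) (l 187535727559)) (b (l 351281350199) (l 16774368))) (c (l 16777376) (l 16772048)))))))))) (b (l 1) (a (b (l 1) (a (b (l 1) (a (b (l 1) (l 16784744)) (l 1))) (l 1))) (l 1)))), by decide +kernel⟩

def k49_pm_011_s : ∃ t, chk3 f_pm_011_s t 12 26 1 = true :=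
  ⟨(a (b (l 3) (a (b (l 3) (a (l 3) (b (l 3) (a (b (l 3) (l 465634860487)) (b (a (l 491404663783) (l 210084307671)) (l 16780224)))))) (b (a (b (l 3) (a (l 3) (b (l 3) (a (l 3) (l 372756187559))))) (b (a (l 3) (b (l 438791313991) (a (l 222432338743) (l 16774912)))) (a (b (a (l 447381246807) (l 16780616)) (l 16779240)) (l 16780672)))) (a (b (a (b (l 486572827575) (a (l 407115927063) (l 16781240))) (c (b (l 96804544231) (l 16771576)) (l 16778864))) (c (l 16776088) (l 16778600))) (b (l 16770048) (l 16777400)))))) (b (a (b (a (l 3) (b (l 3) (a (l 3) (b (l 461339893831) (a (l 382956735543) (l 16781104)))))) (a (b (a (l 3) (b (l 3) (l 455434313159))) (a (b (l 3) (a (l 474761664407) (l 185925115255))) (a (b (l 364166252775) (l 16774304)) (l 16778672)))) (b (a (b (a (l 466708601543) (l 213305532583)) (l 81235286343)) (l 16776600)) (c (l 16776808) (l 16766160))))) (b (a (b (a (b (l 3) (a (l 3) (l 233706627767))) (b (a (l 402820959479) (l 16780096)) (l 16778960))) (a (c (b (l 104320736023)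 (l 16771632)) (l 16778760)) (l 16778400))) (b (l 16774480) (l 16780656))) (a (b (l 16783880) (l 16776008)) (l 16769088)))) (a (b (a (b (a (c (l 16780472) (l 16772536)) (l 16777256)) (l 16782448)) (l 16775136)) (a (l 16770056) (l 16758824))) (b (l 16761392) (l 16742728))))), by decide +kernel⟩

def k50_pm_011_s : ∃ t, chk3 f_pm_011_s t 12 27 1 = true :=
  ⟨(a (b (a (b (a (b (a (l 3) (b (l 3) (a (l 471540438327) (l 16780832)))) (a (b (a (l 3) (l 260013304231)) (c (l 83382771623) (l 16780992))) (c (l 16782432) (l 16771888)))) (b (a (a (b (l 238538466871) (l 16773888)) (l 16778288)) (l 16779056)) (l 16769512))) (a (b (c (l 16771536) (l 16771416)) (l 16767672)) (c (l 16771088) (l 16770800)))) (b (a (l 16771144) (l 16764744)) (a (l 16759208) (l 16747672)))) (a (a (b (c (l 16760216) (l 16765160)) (l 16742384)) (b (c (l 16753696) (l 16753264)) (l 16735848))) (b (c (l 16736392) (l 16735720)) (c (l 16718896) (l 16718136))))) (b (a (b (l 16747760) (l 16730872)) (a (l 16723208) (l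 16712984))) (a (b (l 16713736) (l 16696360)) (l 16694776)))), by decide +kernel⟩

def k51_pm_011_s : ∃ t, chk3 f_pm_011_s t 13 13 1 = true :=
  ⟨(b (a (b (a (b (a (l 16773448) (l 16762296)) (l 16752776)) (l 29024528935)) (a (l 16742544) (l 16707592))) (b (l 1) (a (l 16684944) (l 1)))) (a (b (b (l 16715880) (l 16700192)) (c (l 16676576) (l 16674088))) (b (l 16674288) (l 16632232)))), by decide +kernel⟩

def k52_pm_011_s : ∃ t, chk3 f_pm_011_s t 7 6 1 = true :=
  ⟨(b (l 1) (a (b (l 1) (a (a (l 16621808) (l 1)) (l 1))) (l 1))), by decide +kernel⟩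

def k53_pm_011_s : ∃ t, chk3 f_pm_011_s t 3 7 1 = true :=
  ⟨(a (b (a (b (a (b (a (b (a (l 16729792) (l 16718048)) (l 16705952)) (b (l 16700800) (l 16682912))) (a (b (l 16687888) (l 16669720)) (b (l 16664896) (l 16646768)))) (a (b (b (l 16678760) (l 16640000)) (l 16633984)) (b (l 16649440) (l 16613744)))) (a (b (a (l 16657872) (l 16621992)) (a (l 16643088) (l 16597800))) (b (l 16616600) (l 16580976)))) (b (a (b (l 16651672) (l 16616488)) (b (a (l 16568424) (l 16546224)) (a (l 16534112) (l 16513032)))) (a (b (l 16570136) (l 16534032)) (b (l 16531048) (l 16474744))))) (a (b (a (a (b (l 16598688) (l 16554712)) (b (l 16575328) (l 16532712))) (b (a (l 16529888) (l 16503928)) (a (l 16529968) (l 16460904)))) (a (b (a (l 16531752) (l 16530832)) (a (l 16505984) (l 16484208))) (b (a (l 16485336) (l 16457672)) (l 16530928)))) (b (a (b (l 16500512) (l 16456560)) (l 16463072)) (a (b (l 16412344) (l 16389952)) (l 16399280))))) (b (a (b (a (b (a (l 16521592) (l 16492560)) (a (l 16488944)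 (l 16460808))) (a (l 16495912) (l 1))) (a (c (l 16510448) (l 16486096)) (l 16446528))) (a (b (l 1) (l 16366912)) (l 1))) (a (b (a (l 16399064) (l 16339648)) (a (l 16328744) (l 16253192))) (b (a (l 16263080) (l 16206784)) (a (l 16202136) (l 16140432)))))), by decide +kernel⟩

theorem s54_pm_011_s : ∃ t, chk3 f_pm_011_s t 12 13 1 = true := ex3_b k49_pm_011_s k50_pm_011_s

theorem s55_pm_011_s : ∃ t, chk3 f_pm_011_s t 6 13 1 = true := ex3_a s54_pm_011_s k51_pm_011_s

theorem s56_pm_011_s : ∃ t, chk3 f_pm_011_s t 6 6 1 = true := ex3_b k48_pm_011_s s55_pm_011_s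

theorem s57_pm_011_s : ∃ t, chk3 f_pm_011_s t 3 6 1 = true := ex3_a s56_pm_011_s k52_pm_011_s

theorem s58_pm_011_s : ∃ t, chk3 f_pm_011_s t 3 3 1 = true := ex3_b s57_pm_011_s k53_pm_011_s

theorem s59_pm_011_s : ∃ t, chk3 f_pm_011_s t 44 113 1 = true := ex3_a k41_pm_011_s k42_pm_011_s

theorem s60_pm_011_s : ∃ t, chk3 f_pm_011_s t 44 56 1 = true := ex3_b k40_pm_011_s s59_pm_011_s

theorem s61_pm_011_s : ∃ t, chk3 f_pm_011_s t 22 56 1 = true := ex3_a s60_pm_011_s k43_pm_011_s

theorem s62_pm_011_s : ∃ t, chk3 f_pm_011_s t 22 28 1 = true := ex3_b s61_pm_011_s k44_pm_011_s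

theorem s63_pm_011_s : ∃ t, chk3 f_pm_011_s t 11 28 1 = true := ex3_a s62_pm_011_s k45_pm_011_s

theorem s64_pm_011_s : ∃ t, chk3 f_pm_011_s t 11 14 1 = true := ex3_b s63_pm_011_s k46_pm_011_s

theorem s65_pm_011_s : ∃ t, chk3 f_pm_011_s t 42 58 1 = true := ex3_b k36_pm_011_s k37_pm_011_s

theorem s66_pm_011_s : ∃ t, chk3 f_pm_011_s t 21 58 1 = true := ex3_a s65_pm_011_s k38_pm_011_s

theorem s67_pm_011_s : ∃ t, chk3 f_pm_011_s t 21 29 1 = true := ex3_b s66_pm_011_s k39_pm_011_s

theorem s68_pm_011_s : ∃ t, chk3 f_pm_011_s t 40 59 1 = true := ex3_b k33_pm_011_s k34_pm_011_s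

theorem s69_pm_011_s : ∃ t, chk3 f_pm_011_s t 20 59 1 = true := ex3_a s68_pm_011_s k35_pm_011_s

theorem s70_pm_011_s : ∃ t, chk3 f_pm_011_s t 20 29 1 = true := ex3_b k32_pm_011_s s69_pm_011_s

theorem s71_pm_011_s : ∃ t, chk3 f_pm_011_s t 10 29 1 = true := ex3_a s70_pm_011_s s67_pm_011_s

theorem s72_pm_011_s : ∃ t, chk3 f_pm_011_s t 43 114 1 = true := ex3_a k29_pm_011_s k30_pm_011_s

theorem s73_pm_011_s : ∃ t, chk3 f_pm_011_s t 43 57 1 = true := ex3_b s72_pm_011_s k31_pm_011_s

theorem s74_pm_011_s : ∃ t, chk3 f_pm_011_s t 21 57 1 = true := ex3_a k28_pm_011_s s73_pm_011_s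

theorem s75_pm_011_s : ∃ t, chk3 f_pm_011_s t 21 28 1 = true := ex3_b k27_pm_011_s s74_pm_011_s

theorem s76_pm_011_s : ∃ t, chk3 f_pm_011_s t 10 28 1 = true := ex3_a k26_pm_011_s s75_pm_011_s

theorem s77_pm_011_s : ∃ t, chk3 f_pm_011_s t 10 14 1 = true := ex3_b s76_pm_011_s s71_pm_011_s

theorem s78_pm_011_s : ∃ t, chk3 f_pm_011_s t 5 14 1 = true := ex3_a s77_pm_011_s s64_pm_011_s

theorem s79_pm_011_s : ∃ t, chk3 f_pm_011_s t 5 7 1 = true := ex3_b s78_pm_011_s k47_pm_011_s

theorem s80_pm_011_s : ∃ t, chk3 f_pm_011_s t 38 60 1 = true := ex3_a k21_pm_011_s k22_pm_011_s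

theorem s81_pm_011_s : ∃ t, chk3 f_pm_011_s t 19 60 1 = true := ex3_a s80_pm_011_s k23_pm_011_s

theorem s82_pm_011_s : ∃ t, chk3 f_pm_011_s t 19 30 1 = true := ex3_b s81_pm_011_s k24_pm_011_s

theorem s83_pm_011_s : ∃ t, chk3 f_pm_011_s t 36 123 1 = true := ex3_a k18_pm_011_s k19_pm_011_s

theorem s84_pm_011_s : ∃ t, chk3 f_pm_011_s t 36 61 1 = true := ex3_b k17_pm_011_s s83_pm_011_s

theorem s85_pm_011_s : ∃ t, chk3 f_pm_011_s t 18 61 1 = true := ex3_a s84_pm_011_s k20_pm_011_s

theorem s86_pm_011_s : ∃ t, chk3 f_pm_011_s t 18 30 1 = true := ex3_b k16_pm_011_s s85_pm_011_s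

theorem s87_pm_011_s : ∃ t, chk3 f_pm_011_s t 9 30 1 = true := ex3_a s86_pm_011_s s82_pm_011_s

theorem s88_pm_011_s : ∃ t, chk3 f_pm_011_s t 9 15 1 = true := ex3_b s87_pm_011_s k25_pm_011_s

theorem s89_pm_011_s : ∃ t, chk3 f_pm_011_s t 70 124 1 = true := ex3_b k11_pm_011_s k12_pm_011_s

theorem s90_pm_011_s : ∃ t, chk3 f_pm_011_s t 35 124 1 = true := ex3_a s89_pm_011_s k13_pm_011_s

theorem s91_pm_011_s : ∃ t, chk3 f_pm_011_s t 35 62 1 = true := ex3_b s90_pm_011_s k14_pm_011_s

theorem s92_pm_011_s : ∃ t, chk3 f_pm_011_s t 34 62 1 = true := ex3_b k9_pm_011_s k10_pm_011_s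

theorem s93_pm_011_s : ∃ t, chk3 f_pm_011_s t 17 62 1 = true := ex3_a s92_pm_011_s s91_pm_011_s

theorem s94_pm_011_s : ∃ t, chk3 f_pm_011_s t 17 31 1 = true := ex3_b s93_pm_011_s k15_pm_011_s

theorem s95_pm_011_s : ∃ t, chk3 f_pm_011_s t 8 31 1 = true := ex3_a k8_pm_011_s s94_pm_011_s

theorem s96_pm_011_s : ∃ t, chk3 f_pm_011_s t 8 15 1 = true := ex3_b k7_pm_011_s s95_pm_011_s

theorem s97_pm_011_s : ∃ t, chk3 f_pm_011_s t 4 15 1 = true := ex3_a s96_pm_011_s s88_pm_011_s

theorem s98_pm_011_s : ∃ t, chk3 f_pm_011_s t 4 7 1 = true := ex3_b k6_pm_011_s s97_pm_011_s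

theorem s99_pm_011_s : ∃ t, chk3 f_pm_011_s t 2 7 1 = true := ex3_a s98_pm_011_s s79_pm_011_s

theorem s100_pm_011_s : ∃ t, chk3 f_pm_011_s t 11 13 1 = true := ex3_b k4_pm_011_s k5_pm_011_s

theorem s101_pm_011_s : ∃ t, chk3 f_pm_011_s t 5 13 1 = true := ex3_a k3_pm_011_s s100_pm_011_s

theorem s102_pm_011_s : ∃ t, chk3 f_pm_011_s t 5 6 1 = true := ex3_b k2_pm_011_s s101_pm_011_s

theorem s103_pm_011_s : ∃ t, chk3 f_pm_011_s t 2 6 1 = true := ex3_a k1_pm_011_s s102_pm_011_s

theorem s104_pm_011_s : ∃ t, chk3 f_pm_011_s t 2 3 1 = true := ex3_b s103_pm_011_s s99_pm_011_s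

theorem s105_pm_011_s : ∃ t, chk3 f_pm_011_s t 1 3 1 = true := ex3_a s104_pm_011_s s58_pm_011_s

theorem s106_pm_011_s : ∃ t, chk3 f_pm_011_s t 1 1 1 = true := ex3_b k0_pm_011_s s105_pm_011_s

theorem c_pm_011_s : CertNE 0 536870912 536870912 536870912 536870912 50465866 3 eng mog cd0q0 cd6q1 pd1 true true false .pnn 0 1 1
    ndB0q0 ndB6q1 pcB1 cut_pm_011_s Ext.none :=
  certNE1 (fam := true) (s1 := true) (s2 := false) (a := 0) (b := 1) (c := 1) (cn := .pnn) (n1 := ndB0q0) (n2 := ndB6q1) (pc := pcB1) (cut := cut_pm_011_s) (xt := Ext.none) (P1 := 0) (W1 := 536870912) (P2 := 536870912) (W2 := 536870912) (P3 := 536870912) (W3 := 50465866) (N0 := 3) (En := eng) (mo := mog) (C1 := cd0q0) (C2 := cd6q1) (C3 := pd1)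
    rfl (fun _ => rfl) s106_pm_011_s

noncomputable def cut_pm_012_s : Cut := Cut.of [[⟨4, 0, 0, 1449551462⟩], [⟨0, 0, 0, 67108864⟩, ⟨1, 1, 0, 67108864⟩, ⟨2, 1, 0, 67108864⟩]]

noncomputable def f_pm_012_s : ℕ → ℕ → ℕ → ℕ → Bool := onCell 1073741824 536870912 536870912 536870912 536870912 50465866
    (rowNE 3 eng mog cd0q0 cd6q1 pd2 2 true true false .pnp 0 1 2 (qsf 0 536870912 536870912 536870912 2) ndB0q0 ndB6q1 pcB2 cut_pm_012_s Ext.none)

def k0_pm_012_s : ∃ t, chk3 f_pm_012_s t 2 2 1 = true :=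
  ⟨(a (b (a (b (a (b (l 16116472) (l 16152392)) (l 6)) (a (b (l 16214000) (l 16266136)) (b (l 16107864) (l 16149320)))) (l 6)) (a (b (a (b (l 16325424) (a (l 16340480) (l 16305032))) (b (l 16199304) (a (l 16291664) (l 16237592)))) (a (b (a (l 16480136) (l 16402880)) (a (b (l 16432792) (l 16454392)) (l 16471304))) (b (l 16454384) (a (l 16373848) (l 16339384))))) (b (a (b (l 16185592) (l 16253344)) (l 6)) (b (a (l 16324072) (l 16240128)) (a (l 16392112) (l 16284304)))))) (b (l 6) (l 6))), by decide +kernel⟩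

def k1_pm_012_s : ∃ t, chk3 f_pm_012_s t 8 3 1 = true :=
  ⟨(a (a (b (b (b (b (l 16495504) (l 16514560)) (b (l 16553856) (l 16534896))) (a (b (l 16597760) (l 16638672)) (b (l 16556968) (l 16582096)))) (b (b (b (l 16651952) (a (l 16651224) (l 16627800))) (a (b (l 16680288) (a (l 16693944) (l 16681808))) (b (l 16646032) (l 16685000)))) (b (a (b (a (b (l 16707232) (l 14)) (l 16720504)) (l 14)) (b (c (l 16702800) (l 16702432)) (a (l 14) (l 16698080)))) (l 14)))) (b (b (b (l 16532752) (b (l 16475728) (l 16492744))) (b (a (l 16569000) (l 16528936)) (b (l 16584360) (l 16559528)))) (b (b (c (l 16628184) (l 16626848)) (b (l 16632864) (a (l 16640792) (l 16638776)))) (b (b (a (l 16668552) (a (l 16640512) (l 16628888))) (b (a (a (l 16676680) (l 16664808)) (l 16647104)) (a (a (l 14) (l 16673064)) (l 16676208)))) (b (a (l 14) (b (a (l 14) (l 16657280)) (l 14))) (l 14)))))) (b (b (b (a (l 16435336) (l 16380072)) (a (l 16532880) (l 16414856))) (b (a (b (l 16472848) (l 16488112)) (l 16487096))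 (a (a (l 16541936) (l 16501672)) (b (l 16466488) (l 16480712))))) (b (b (b (a (l 16535024) (l 16495144)) (a (l 16593232) (l 16510024))) (b (a (a (l 16578552) (l 16556920)) (l 16525160)) (a (a (l 16595208) (l 16573040)) (l 16561384)))) (b (b (a (a (l 16611664) (l 16589016)) (a (l 16566656) (l 16544640))) (a (a (b (l 16623784) (l 16631728)) (l 16625656)) (a (l 16581872) (l 16559368)))) (b (a (a (b (l 16639544) (l 16657712)) (b (l 16616152) (l 16623632))) (a (b (l 16593024) (l 16600304)) (l 16594712))) (a (b (a (l 14) (l 16651944)) (l 14)) (b (a (l 16607440) (l 16584192)) (a (b (l 16612696) (l 14)) (l 16590976))))))))), by decide +kernel⟩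

def k2_pm_012_s : ∃ t, chk3 f_pm_012_s t 9 3 1 = true :=
  ⟨(b (b (a (b (a (l 16346552) (l 16312992)) (a (l 16381536) (l 16348328))) (b (l 16367520) (a (l 16316000) (l 16283920)))) (a (b (a (l 16411136) (l 16378200)) (a (l 16479560) (l 16403800))) (b (a (l 16346232) (l 16314680)) (a (l 16371224) (l 16340072))))) (b (b (a (a (b (l 16457448) (l 16470736)) (l 16469576)) (a (l 16435064) (l 16361120))) (a (a (b (l 16484472) (l 16498424)) (b (l 16445768) (l 16458296))) (a (b (l 16409456) (l 16420344)) (b (l 16375472) (l 16384952))))) (b (a (b (a (l 16512448) (l 16471000)) (a (a (l 16537272) (l 16515536)) (l 16504680))) (a (b (l 16431576) (l 16442912)) (b (l 16394488) (l 16404304)))) (a (b (a (b (l 16536624) (l 16564312)) (a (l 16507008) (l 16485552))) (a (b (a (l 16561272) (l 16538664)) (a (l 16567832) (l 16544992))) (b (l 16526384) (a (l 16522480) (l 16500352))))) (a (b (a (l 16464504) (l 16443952)) (b (l 16462480) (l 16488864))) (b (l 16435112) (a (l 16433968) (l 16413776)))))))),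 by decide +kernel⟩

def k3_pm_012_s : ∃ t, chk3 f_pm_012_s t 5 3 1 = true :=
  ⟨(b (a (b (a (a (b (l 6) (l 16252016)) (l 6)) (l 6)) (b (a (a (l 16284200) (a (l 16261560) (l 6))) (l 6)) (a (a (l 16310112) (a (l 16288360) (a (l 16278056) (l 16273384)))) (l 16332032)))) (l 6)) (b (a (a (a (b (l 16330632) (b (l 16343912) (l 16352024))) (b (a (l 16308888) (a (l 16298760) (l 16336328))) (a (l 16325360) (a (l 16314856) (a (l 16310304) (l 16308072)))))) (b (a (l 16278040) (l 6)) (a (l 16292992) (l 16271552)))) (l 6)) (a (a (a (b (b (l 16360112) (l 16368176)) (b (l 16397400) (a (l 16394144) (l 16375120)))) (a (b (l 16339536) (b (l 16349872) (l 16356824))) (b (a (l 16328152) (a (l 16323112) (l 16320456))) (a (b (l 16337480) (l 16343728)) (a (b (l 16331880) (l 16337712)) (b (l 16328776) (l 16334240))))))) (b (a (b (l 16301640) (l 16306408)) (l 16279528)) (a (b (l 16310944) (a (l 16323296) (l 16307424))) (b (l 16283344) (l 16285432))))) (a (a (b (l 16278528) (b (l 16258896) (l 16258736)))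 (l 6)) (l 6))))), by decide +kernel⟩

def k4_pm_012_s : ∃ t, chk3 f_pm_012_s t 3 1 1 = true :=
  ⟨(b (l 6) (l 6)), by decide +kernel⟩

theorem s5_pm_012_s : ∃ t, chk3 f_pm_012_s t 4 3 1 = true := ex3_a k1_pm_012_s k2_pm_012_s

theorem s6_pm_012_s : ∃ t, chk3 f_pm_012_s t 2 3 1 = true := ex3_a s5_pm_012_s k3_pm_012_s

theorem s7_pm_012_s : ∃ t, chk3 f_pm_012_s t 2 1 1 = true := ex3_b k0_pm_012_s s6_pm_012_s

theorem s8_pm_012_s : ∃ t, chk3 f_pm_012_s t 1 1 1 = true := ex3_a s7_pm_012_s k4_pm_012_s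

theorem c_pm_012_s : CertNE 0 536870912 536870912 536870912 536870912 50465866 3 eng mog cd0q0 cd6q1 pd2 true true false .pnp 0 1 2
    ndB0q0 ndB6q1 pcB2 cut_pm_012_s Ext.none :=
  certNE2 (fam := true) (s1 := true) (s2 := false) (a := 0) (b := 1) (c := 2) (cn := .pnp) (n1 := ndB0q0) (n2 := ndB6q1) (pc := pcB2) (cut := cut_pm_012_s) (xt := Ext.none) (P1 := 0) (W1 := 536870912) (P2 := 536870912) (W2 := 536870912) (P3 := 536870912) (W3 := 50465866) (N0 := 3) (En := eng) (mo := mog) (C1 := cd0q0) (C2 := cd6q1) (C3 := pd2)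
    rfl (fun _ => rfl) s8_pm_012_s

noncomputable def cut_pm_022_s : Cut := Cut.of [[⟨4, 0, 0, 1449551462⟩], [⟨0, 0, 0, 67108864⟩, ⟨1, 1, 0, 67108864⟩, ⟨2, 1, 0, 67108864⟩]]

noncomputable def f_pm_022_s : ℕ → ℕ → ℕ → ℕ → Bool := onCell 1073741824 536870912 1073741824 536870912 536870912 50465866
    (rowNE 3 eng mog cd0q0 cd6q2 pd2 2 true true false .pp 0 2 2 (qsf 0 536870912 1073741824 536870912 2) ndB0q0 ndB6q2 pcB2 cut_pm_022_s Ext.none)

def k0_pm_022_s : ∃ t, chk3 f_pm_022_s t 4 2 1 = true :=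
  ⟨(a (b (b (a (b (l 14) (b (l 14) (l 1))) (b (a (l 14) (a (l 14) (a (l 14) (b (l 16597720) (l 16615080))))) (a (b (l 14) (b (l 14) (l 1))) (b (a (l 14) (b (l 16653848) (l 16640392))) (a (b (l 14) (l 455836759399)) (b (l 16647504) (b (l 16652712) (l 231424714759)))))))) (a (l 1) (a (l 1) (b (b (a (l 1) (l 458521087671)) (l 1)) (l 1))))) (l 1)) (b (b (a (b (a (b (b (a (l 16575752) (l 16552824)) (a (l 16584848) (l 16561984))) (b (l 16603104) (l 16611472))) (b (a (l 16555840) (l 16512648)) (a (l 16552528) (l 16530408)))) (a (b (a (b (l 16609880) (l 16617456)) (l 16591048)) (b (l 16634288) (l 16641112))) (b (a (l 16568688) (l 16546688)) (a (l 16583336) (l 16561472))))) (b (b (a (a (l 16490792) (l 16469352)) (a (l 16448368) (l 16427856))) (a (l 16518888) (l 16456040))) (a (b (l 16514344) (l 16529320)) (b (l 16472632) (l 16487832))))) (a (b (a (b (a (b (l 16674808) (l 452615468375)) (b (l 16615384) (l 16621712))) (l 431677462135)) (b (l 16627448) (a (a (l 156262750263) (l 16644744))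 (l 16586272)))) (a (l 1) (b (l 418792530583) (l 1)))) (b (a (b (a (l 16553344) (l 16532336)) (l 16575624)) (b (l 16501600) (l 16534800))) (a (b (l 168073787271) (l 405907561591)) (b (l 16545424) (l 125124088855)))))) (a (l 1) (b (b (a (l 1) (l 415571180775)) (l 1)) (l 1))))), by decide +kernel⟩

def k1_pm_022_s : ∃ t, chk3 f_pm_022_s t 5 2 1 = true :=
  ⟨(b (a (b (a (a (b (b (a (l 16407864) (l 16388448)) (l 16416120)) (b (l 16432768) (l 16448120))) (a (b (b (l 16369728) (l 16387672)) (l 16412128)) (b (a (b (l 16356288) (l 16374184)) (a (l 16359136) (b (l 16346376) (l 16364248)))) (a (l 16398616) (a (l 16392328) (l 16388640)))))) (b (a (b (a (l 16335152) (l 16318584)) (l 16344448)) (b (l 16295344) (l 16312440))) (a (b (l 16360872) (l 16376088)) (l 16335768)))) (a (a (b (b (l 16462120) (l 16474720)) (b (l 16485808) (a (l 16504504) (l 16485920)))) (a (b (l 16440360) (l 16463064)) (b (a (l 16426920) (a (l 16420672) (l 16417000))) (a (l 16449880) (a (l 16443760) (l 16440192))))))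 (b (a (l 16396824) (l 16363088)) (a (l 16441040) (l 16386088))))) (a (b (b (b (a (l 16267256) (b (l 16238264) (l 16246336))) (a (l 16283440) (l 16257776))) (b (l 16284752) (l 16298312))) (b (l 16358888) (l 16338672))) (b (b (l 6) (b (l 6) (l 16249592))) (b (l 16264776) (l 16283120))))) (b (a (a (a (b (b (a (l 16511608) (l 16493480)) (l 172368724087)) (l 1)) (a (b (b (l 16475832) (l 16481704)) (l 1)) (a (b (b (l 16462992) (l 16469440)) (l 1)) (a (b (l 16460584) (l 1)) (b (c (l 16459928) (l 16475232)) (b (l 185253454311) (l 1))))))) (b (a (a (l 16446120) (l 16428888)) (l 16403720)) (a (b (l 124050169031) (l 164852269927)) (l 16435288)))) (b (a (l 16355840) (l 16298328)) (a (l 16388000) (l 16308816)))) (a (a (l 1) (b (a (l 1) (l 171294775735)) (l 1))) (a (b (b (l 16411728) (l 16366704)) (l 200822720407)) (b (l 16353704) (l 16300528)))))), by decide +kernel⟩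

def k2_pm_022_s : ∃ t, chk3 f_pm_022_s t 3 2 1 = true :=
  ⟨(a (a (b (l 6) (a (b (b (l 16249704) (l 16257736)) (b (l 16260304) (l 16250880))) (l 6))) (l 6)) (l 6)), by decide +kernel⟩

def k3_pm_022_s : ∃ t, chk3 f_pm_022_s t 1 3 1 = true :=
  ⟨(a (a (l 1) (a (l 1) (b (b (b (l 412886407623) (l 1)) (l 1)) (l 1)))) (a (a (b (b (b (l 16361632) (a (l 447782791543) (l 16164912))) (b (l 464425802791) (l 1))) (l 1)) (a (b (l 6) (l 1)) (l 6))) (l 6))), by decide +kernel⟩

theorem s4_pm_022_s : ∃ t, chk3 f_pm_022_s t 2 2 1 = true := ex3_a k0_pm_022_s k1_pm_022_s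

theorem s5_pm_022_s : ∃ t, chk3 f_pm_022_s t 1 2 1 = true := ex3_a s4_pm_022_s k2_pm_022_s

theorem s6_pm_022_s : ∃ t, chk3 f_pm_022_s t 1 1 1 = true := ex3_b s5_pm_022_s k3_pm_022_s

theorem c_pm_022_s : CertNE 0 536870912 1073741824 536870912 536870912 50465866 3 eng mog cd0q0 cd6q2 pd2 true true false .pp 0 2 2
    ndB0q0 ndB6q2 pcB2 cut_pm_022_s Ext.none :=
  certNE2 (fam := true) (s1 := true) (s2 := false) (a := 0) (b := 2) (c := 2) (cn := .pp) (n1 := ndB0q0) (n2 := ndB6q2) (pc := pcB2) (cut := cut_pm_022_s) (xt := Ext.none) (P1 := 0) (W1 := 536870912) (P2 := 1073741824) (W2 := 536870912) (P3 := 536870912) (W3 := 50465866) (N0 := 3) (En := eng) (mo := mog) (C1 := cd0q0) (C2 := cd6q2) (C3 := pd2)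
    rfl (fun _ => rfl) s6_pm_022_s

noncomputable def cut_pm_023_s : Cut := Cut.of [[⟨4, 0, 0, 1449551462⟩]]

noncomputable def f_pm_023_s : ℕ → ℕ → ℕ → ℕ → Bool := onCell 1610612736 536870912 1073741824 536870912 536870912 50465866
    (rowNE 3 eng mog cd0q0 cd6q2 pd3 2 true true false .up 0 2 3 (qsf 0 536870912 1073741824 536870912 3) ndB0q0 ndB6q2 pcB3 cut_pm_023_s Ext.none)

def k0_pm_023_s : ∃ t, chk3 f_pm_023_s t 1 1 1 = true :=
  ⟨(a (l 6) (l 6)), by decide +kernel⟩

theorem c_pm_023_s : CertNE 0 536870912 1073741824 536870912 536870912 50465866 3 eng mog cd0q0 cd6q2 pd3 true true false .up 0 2 3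
    ndB0q0 ndB6q2 pcB3 cut_pm_023_s Ext.none :=
  certNE2 (fam := true) (s1 := true) (s2 := false) (a := 0) (b := 2) (c := 3) (cn := .up) (n1 := ndB0q0) (n2 := ndB6q2) (pc := pcB3) (cut := cut_pm_023_s) (xt := Ext.none) (P1 := 0) (W1 := 536870912) (P2 := 1073741824) (W2 := 536870912) (P3 := 536870912) (W3 := 50465866) (N0 := 3) (En := eng) (mo := mog) (C1 := cd0q0) (C2 := cd6q2) (C3 := pd3)
    rfl (fun _ => rfl) k0_pm_023_s

noncomputable def cut_pm_033_s : Cut := Cut.of [[⟨4, 0, 0, 1449551462⟩]]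

noncomputable def f_pm_033_s : ℕ → ℕ → ℕ → ℕ → Bool := onCell 1610612736 536870912 0 1230186008 536870912 50465866
    (rowNE 3 eng mog cd0q0 cd6q3 pd3 2 true true false .pnn 0 3 3 (qsf 0 536870912 0 1230186008 3) ndB0q0 ndB6q3 pcB3 cut_pm_033_s Ext.none)

def k0_pm_033_s : ∃ t, chk3 f_pm_033_s t 1 1 1 = true :=
  ⟨(b (l 6) (l 6)), by decide +kernel⟩

theorem c_pm_033_s : CertNE 0 536870912 0 1230186008 536870912 50465866 3 eng mog cd0q0 cd6q3 pd3 true true false .pnn 0 3 3
    ndB0q0 ndB6q3 pcB3 cut_pm_033_s Ext.none :=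
  certNE2 (fam := true) (s1 := true) (s2 := false) (a := 0) (b := 3) (c := 3) (cn := .pnn) (n1 := ndB0q0) (n2 := ndB6q3) (pc := pcB3) (cut := cut_pm_033_s) (xt := Ext.none) (P1 := 0) (W1 := 536870912) (P2 := 0) (W2 := 1230186008) (P3 := 536870912) (W3 := 50465866) (N0 := 3) (En := eng) (mo := mog) (C1 := cd0q0) (C2 := cd6q3) (C3 := pd3)
    rfl (fun _ => rfl) k0_pm_033_s

noncomputable def cut_pm_101_s : Cut := Cut.of [[⟨4, 0, 0, 1449551462⟩]]

noncomputable def f_pm_101_s : ℕ → ℕ → ℕ → ℕ → Bool := onCell 536870912 536870912 536870912 536870912 536870912 50465866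
    (rowNE 3 eng mog cd0q1 cd6q0 pd1 1 true true false .npn 1 0 1 (qsf 536870912 536870912 0 536870912 1) ndB0q1 ndB6q0 pcB1 cut_pm_101_s Ext.none)

def k0_pm_101_s : ∃ t, chk3 f_pm_101_s t 4 8 1 = true :=
  ⟨(a (l 3) (a (a (l 3) (l 1)) (l 1))), by decide +kernel⟩

def k1_pm_101_s : ∃ t, chk3 f_pm_101_s t 8 18 1 = true :=
  ⟨(a (l 3) (b (l 3) (a (l 3) (b (l 3) (a (l 3) (b (l 3) (a (l 3) (b (l 3) (a (l 3) (a (l 444696892343) (b (l 304036715831) (l 16777088)))))))))))), by decide +kernel⟩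

def k2_pm_101_s : ∃ t, chk3 f_pm_101_s t 16 19 1 = true :=
  ⟨(b (l 3) (a (l 3) (b (l 3) (a (l 3) (b (l 3) (a (l 3) (b (b (l 3) (a (l 3) (b (l 518248202039) (a (l 3) (l 217600495255))))) (a (b (l 3) (a (l 3) (b (l 416242728903) (l 147807276151)))) (a (b (b (l 439865049015) (l 195588787511)) (l 16777024)) (c (l 16777056) (l 16776816))))))))))), by decide +kernel⟩

def k3_pm_101_s : ∃ t, chk3 f_pm_101_s t 17 38 1 = true :=
  ⟨(a (b (l 3) (a (l 3) (b (l 3) (a (l 3) (b (l 597168225575) (a (l 571398422071) (a (b (l 550997327655) (l 175724565223)) (b (l 216526754839) (l 16777000))))))))) (b (a (b (l 3) (a (l 3) (b (l 3) (a (l 3) (a (b (l 3) (l 290078071031)) (b (l 297057393367) (l 16777056))))))) (b (a (b (l 3) (a (l 3) (a (b (l 3) (l 298668006247)) (b (l 298131135495) (l 16777072))))) (b (a (b (l 440401925063) (a (l 297594264743) (l 16777088))) (l 16776920)) (a (l 16776912) (l 16776568)))) (a (a (a (b (b (l 3) (l 299204876839)) (l 16776968)) (b (b (l 299204876999) (l 16777064))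 (l 16776800))) (b (l 16776896) (l 16776544))) (l 16776208)))) (a (b (a (b (l 3) (a (l 601463193095) (a (b (l 597168226055) (l 250349622871)) (b (l 260550170455) (l 16777032))))) (a (a (b (b (l 3) (l 270750717863)) (l 16776944)) (b (b (l 280414394455) (l 16777040)) (l 16776768))) (b (l 16776872) (l 16776512)))) (a (b (b (a (a (l 574619647767) (l 239075333543)) (l 16776936)) (a (a (l 228337915127) (l 16777016)) (l 16776752))) (a (c (l 16777008) (l 16776648)) (l 16776472))) (l 16776128))) (b (a (l 16776176) (l 16775488)) (l 16775096))))), by decide +kernel⟩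

def k4_pm_101_s : ∃ t, chk3 f_pm_101_s t 17 39 1 = true :=
  ⟨(a (b (a (b (l 3) (a (l 3) (b (a (l 3) (c (l 527375007591) (l 535964941735))) (a (a (l 3) (b (l 3) (l 429664501655))) (a (b (l 444160016263) (l 76940315495)) (b (l 90362088631) (l 16776928))))))) (b (a (b (l 573545905495) (a (l 544554876519) (a (b (l 499994591063) (l 129016795015)) (b (l 141364826327) (l 16776968))))) (b (b (a (a (l 526301265735) (l 164450275895)) (l 16776904)) (a (a (l 152639115655) (l 16776984)) (l 16776712))) (a (c (l 16774360) (l 16776592)) (l 16776424)))) (a (b (b (a (a (l 472614174583) (l 116131892935)) (l 16776864)) (a (a (l 103783861623) (l 16776952)) (l 16776672))) (a (a (l 16774216) (l 16776648)) (l 16776376))) (l 16776024)))) (a (b (a (b (a (l 3) (a (l 3) (a (l 564955971319) (b (l 3) (l 300815487783))))) (b (a (l 3) (a (a (l 519321943927) (l 286319972999)) (l 16777088))) (a (a (l 3) (a (l 497847107463) (l 266992619687))) (l 16776976)))) (b (b (a (a (a (l 562271616871) (l 297594262663))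 (l 16778416)) (l 16775512)) (a (l 16778312) (l 16776616))) (a (a (l 16776792) (l 16776600)) (l 16776312)))) (a (b (a (a (b (a (l 475835400087) (l 245517783191)) (l 16777048)) (l 16775976)) (l 16774048)) (a (l 16776632) (l 16776248))) (l 16775880))) (b (l 16775584) (l 16774752)))) (b (a (b (a (l 16776080) (l 16775376)) (l 16774944)) (l 16773952)) (l 16773032))), by decide +kernel⟩

def k5_pm_101_s : ∃ t, chk3 f_pm_101_s t 9 9 1 = true :=
  ⟨(b (a (b (a (b (l 3) (a (l 3) (b (l 3) (a (l 3) (b (l 3) (a (l 3) (a (l 478519754503) (a (l 298131137143) (l 167537285095))))))))) (b (l 1) (a (b (l 1) (a (b (l 1) (a (l 16776968) (l 1))) (l 1))) (l 1)))) (a (b (a (b (l 3) (a (l 3) (b (l 3) (a (l 3) (a (l 471003561751) (a (l 297057395159) (l 149954762471))))))) (b (a (b (l 3) (b (l 533280589879) (a (l 3) (a (l 299741748743) (l 16777120))))) (b (a (a (l 478519754519) (a (l 298131137143) (l 187535726567))) (l 16776960)) (a (l 16776960) (l 16776632)))) (a (b (a (a (l 475835399959) (a (l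 296520524407) (l 154249729847))) (l 16776952)) (a (l 16776952) (l 16776624))) (l 16776304)))) (a (b (a (b (l 3) (a (l 3) (a (l 459192401703) (a (l 294909911207) (l 138143602055))))) (b (a (a (l 465097981735) (a (l 295983653175) (l 145122924007))) (l 16776944)) (a (l 16776944) (l 16776616)))) (a (b (a (a (l 452213079863) (a (l 286319976455) (l 130627409111))) (l 16776936)) (a (l 16776928) (l 16776592))) (l 16776272))) (b (a (l 16776288) (l 16775640)) (l 16775280)))) (b (a (b (a (l 16776320) (l 16775744)) (l 16775336)) (l 16774656)) (l 16773696)))) (b (l 1) (a (l 16772888) (l 1)))) (a (b (a (b (a (b (a (l 16776240) (l 16775576)) (l 16775200)) (l 16774232)) (l 16773448)) (b (l 16772264) (l 16770840))) (a (l 16771160) (l 16768600))) (b (a (l 16769224) (l 16768136)) (l 16765000)))), by decide +kernel⟩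

def k6_pm_101_s : ∃ t, chk3 f_pm_101_s t 5 4 1 = true :=
  ⟨(b (l 1) (a (b (l 1) (a (l 124050779479) (l 1))) (l 1))), by decide +kernel⟩

def k7_pm_101_s : ∃ t, chk3 f_pm_101_s t 32 40 1 = true :=
  ⟨(b (l 3) (a (l 3) (b (l 3) (a (b (l 3) (a (l 3) (c (l 610053128119) (l 617032449351)))) (a (b (l 3) (a (b (l 3) (a (b (l 608442515367) (c (b (l 298131130951) (l 16777848)) (l 230485396087))) (b (a (a (l 472614174695) (l 297594259703)) (a (l 173040207447) (l 16777176))) (l 16777088)))) (a (b (b (l 3) (b (l 435033210855) (a (l 290078066279) (l 16777168)))) (c (l 16776120) (l 16776968))) (b (b (a (l 453823692759) (a (l 267529488311) (l 132774888775))) (l 16777112)) (l 16776912))))) (a (b (b (l 3) (b (a (l 3) (a (l 513416363975) (l 275045681399))) (a (a (l 483351592919) (a (l 301352355911) (l 164450272759))) (l 16777128)))) (b (a (b (l 16777120) (l 16776992)) (l 16776936)) (l 16776736))) (b (a (b (a (l 565492842391) (b (l 3) (l 300815485415))) (b (l 16777792) (l 16777008))) (b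 (b (c (l 425906405367) (l 303499841223)) (l 54391735607)) (l 16775976))) (l 16776632)))))))), by decide +kernel⟩

def k8_pm_101_s : ∃ t, chk3 f_pm_101_s t 33 80 1 = true :=
  ⟨(a (b (l 3) (a (l 3) (b (a (l 3) (b (c (l 547776102311) (l 555829165639)) (b (a (l 3) (a (l 300278615783) (l 16777152))) (a (a (l 3) (l 301889228439)) (l 16777096))))) (b (b (a (l 3) (a (a (l 301889228279) (l 16777136)) (l 16776976))) (a (a (l 3) (a (l 3) (l 300815486311))) (c (l 16777072) (l 16776872)))) (b (a (a (l 3) (a (l 296520518935) (l 16777128))) (a (l 16776960) (l 16776744))) (a (a (a (l 3) (l 277730036775)) (l 16777064)) (l 16776736))))))) (b (a (b (b (l 597168225751) (a (l 3) (a (l 573009035063) (b (c (l 364703121399) (l 300815488055)) (c (l 107541957191) (l 16777120)))))) (b (a (l 570324680407) (a (b (a (l 520395685815) (l 196125657463)) (l 85530249559)) (l 16776984))) (a (a (l 527911878487) (a (b (l 484425334711) (l 16777176)) (l 72108476647))) (a (l 16776968) (l 16776768))))) (b (a (b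 (a (b (l 392620408775) (l 125795568407)) (l 16777016)) (c (l 16777032) (l 16776768))) (l 16776600)) (a (l 16776568) (l 16776168)))) (a (b (a (a (b (a (b (l 447381241799) (l 16777160)) (l 16778096)) (l 16775296)) (b (l 16776952) (l 16776728))) (l 16776528)) (l 16776280)) (l 16775688)))), by decide +kernel⟩

def k9_pm_101_s : ∃ t, chk3 f_pm_101_s t 33 81 1 = true :=
  ⟨(a (b (a (b (a (l 3) (b (b (l 607368773367) (a (l 3) (a (l 584820195239) (a (l 301352356487) (l 16777184))))) (b (a (l 578377744247) (a (a (l 300278614503) (l 16777176)) (l 16777096))) (a (a (l 533280587703) (a (l 278266907031) (l 16777168))) (l 16777032))))) (b (a (a (l 3) (a (l 526838136711) (b (l 512342622135) (c (l 133848631335) (l 16777160))))) (a (a (a (b (l 252497103095) (l 16777096)) (l 16777096)) (l 16777016)) (l 16776848))) (a (a (a (c (l 499994591207) (l 506973912903)) (b (l 469392949191) (c (l 94120183495) (l 16777144)))) (b (a (a (l 171966465767) (l 16777144)) (l 16777056)) (l 16775680))) (l 16776712))))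 (b (a (b (a (a (b (l 258939554695) (l 16777104)) (l 16777048)) (l 16776888)) (a (l 16776864) (l 16776648))) (l 16776440)) (l 16776176))) (a (b (a (a (b (c (c (l 16777792) (l 16777072)) (l 16776968)) (l 16776784)) (l 16776680)) (l 16776336)) (l 16776056)) (l 16775424))) (b (l 16777768) (l 16774160))), by decide +kernel⟩

def k10_pm_101_s : ∃ t, chk3 f_pm_101_s t 128 82 1 = true :=
  ⟨(b (l 3) (b (l 3) (b (l 3) (a (l 3) (a (l 3) (a (a (l 3) (b (l 3) (a (l 548312973271) (b (l 3) (l 238538458071))))) (b (c (c (l 520395685911) (l 522543169511)) (l 524153782167)) (a (b (a (l 323364062647) (l 269140100231)) (l 16777160)) (l 16777136))))))))), by decide +kernel⟩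

def k11_pm_101_s : ∃ t, chk3 f_pm_101_s t 129 82 1 = true :=
  ⟨(a (b (l 3) (a (b (l 3) (c (b (b (l 599852580855) (a (l 546702360583) (b (a (l 496236494855) (l 126332437431)) (l 44728058759)))) (a (b (a (b (a (l 604684419079) (l 309942289735)) (l 16777192)) (l 16777168)) (l 16776440)) (b (l 16776448) (l 16777008)))) (a (b (l 589115162407) (b (l 143512307687) (l 16776968))) (b (b (l 590188904311) (l 194515043863)) (l 16776888))))) (b (b (l 3) (b (l 3) (a (l 607368773559) (a (b (l 612737482711) (a (l 308331676919) (l 100562633399))) (b (a (a (l 315310998759) (l 304573580247)) (l 130627404567)) (l 16777144)))))) (b (b (a (a (b (l 548312973287) (a (l 247665263575) (l 16777184))) (b (a (l 277193163911) (l 16777184)) (l 16777136))) (c (l 16776464) (l 16777024))) (a (b (l 16776520) (l 16777024)) (l 16776928))) (l 16776776))))) (b (a (l 3) (a (l 3) (b (l 3) (b (l 3) (b (l 3) (b (l 526301265879) (a (l 461339885543) (a (l 153712853799) (l 16777176))))))))) (a (b (b (a (l 3) (b (l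 3) (b (b (l 573545906135) (a (l 3) (l 263771391111))) (a (b (a (l 3) (l 304036709335)) (l 232632878039)) (l 16777168))))) (a (b (b (b (l 521469427671) (a (l 3) (l 199346881399))) (a (c (a (l 303499838919) (l 149954757495)) (l 16777216)) (l 16777152))) (a (b (l 16777152) (l 16777080)) (l 16777048))) (c (c (b (l 16776832) (l 16777096)) (l 16776400)) (l 16776960)))) (b (l 16776808) (l 16776520))) (b (b (a (b (b (c (l 492478398471) (l 498920849335)) (a (a (l 552071069671) (l 301889225975)) (l 16777504))) (c (l 16776736) (l 16777064))) (b (c (l 16777480) (l 16777080)) (l 16776976))) (l 16776832)) (l 16776408))))), by decide +kernel⟩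

def k12_pm_101_s : ∃ t, chk3 f_pm_101_s t 65 82 1 = true :=
  ⟨(b (a (b (b (a (l 3) (a (c (l 578377744359) (l 584820195015)) (a (b (l 550997327799) (b (a (l 307794806679) (l 16777192)) (l 16777488))) (b (b (c (l 295983647127) (l 299204872583)) (l 69424120855)) (l 16776416))))) (b (a (l 3) (a (a (c (l 503752687607) (l 510732009351)) (a (b (l 301352355751) (l 16777176)) (l 16777152))) (a (a (l 16777088) (l 16777024)) (l 16776936)))) (a (a (l 3) (a (l 3) (a (l 3) (b (l 3) (l 299204871863))))) (a (c (a (a (b (l 298131130119) (l 16777184)) (l 16777168)) (l 16777112)) (l 49559898071)) (l 16776864))))) (b (b (a (a (l 3) (a (a (l 3) (b (l 3) (l 262697649687))) (a (b (l 284172486247) (l 16777160)) (l 16777128)))) (a (a (l 16776296) (l 16776912)) (l 16776728))) (a (a (a (l 3) (a (l 577304002503) (b (l 598241968087) (a (l 299741742327) (l 16777192))))) (a (a (a (b (l 300278613351) (l 16777160)) (l 44728058583)) (l 16777120)) (l 16777024))) (l 16776712))) (a (a (a (b (a (l 544018005959)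 (b (l 537038684135) (a (l 242296554455) (l 16777184)))) (b (c (l 58149831575) (l 16777144)) (l 16776440))) (b (a (a (b (l 270213842055) (l 16777152)) (l 16777152)) (l 16777104)) (l 16777000))) (a (a (l 16776976) (l 16776912)) (l 16776816))) (l 16776512)))) (a (b (a (b (a (b (l 16777080) (l 16776944)) (l 16776888)) (l 16776688)) (l 16776576)) (l 16776160)) (l 16775960))) (a (b (b (a (a (a (l 16776920) (l 16776792)) (l 16776608)) (l 16776232)) (l 16776200)) (l 16775776)) (l 16775088))), by decide +kernel⟩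

def k13_pm_101_s : ∃ t, chk3 f_pm_101_s t 32 83 1 = true :=
  ⟨(b (a (a (b (b (a (l 3) (a (a (a (l 607905644439) (b (l 3) (b (l 601463193575) (l 209547429143)))) (b (a (l 629917351879) (a (l 495162752999) (b (l 3) (l 16777528)))) (a (a (b (l 308331676999) (l 16777152)) (l 16777568)) (l 16777112)))) (b (c (a (a (b (l 286856840647) (l 16777176)) (l 16777152)) (l 16777088)) (l 16778024)) (a (l 16777008) (l 16776872))))) (a (a (l 3) (b (b (l 588041420711) (a (l 3) (a (l 507510783975) (l 137606726583)))) (a (a (l 509121396695) (b (l 316921612183) (l 16777184))) (c (l 16777152) (l 16777080))))) (a (b (a (a (b (l 184314496103) (l 16777128)) (l 16777096)) (l 16776992)) (l 16776912)) (l 16776720)))) (a (a (a (b (b (l 3) (b (c (l 449528725511) (l 313700387591)) (a (l 287930582631) (l 16777160)))) (b (l 16777080) (l 16776920))) (b (b (b (l 487646560231) (a (l 313700386567) (l 16777168))) (l 16777088)) (l 16776864))) (b (a (b (l 16777432) (l 16776952)) (l 16776888)) (l 16776656)))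 (l 16777216))) (a (a (b (l 16776600) (l 16776000)) (l 16776040)) (l 16775648))) (l 16777680)) (a (a (b (a (l 16776328) (l 16775784)) (l 16775424)) (l 16774680)) (l 16773176))), by decide +kernel⟩

def k14_pm_101_s : ∃ t, chk3 f_pm_101_s t 33 41 1 = true :=
  ⟨(b (a (c (b (l 16775720) (l 16775016)) (l 16778424)) (l 16772576)) (a (l 16771952) (l 16770280))), by decide +kernel⟩

def k15_pm_101_s : ∃ t, chk3 f_pm_101_s t 17 20 1 = true :=
  ⟨(b (a (b (a (b (l 16775400) (l 16774504)) (l 16773448)) (l 16772304)) (l 16770400)) (a (b (l 16770240) (l 16767984)) (l 16766344))), by decide +kernel⟩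

def k16_pm_101_s : ∃ t, chk3 f_pm_101_s t 8 21 1 = true :=
  ⟨(a (b (a (b (a (c (l 16774520) (l 16771944)) (l 16771216)) (a (l 16770336) (l 16768360))) (a (l 16768008) (l 16766384))) (a (b (l 16766136) (l 16762664)) (l 16761008))) (b (a (l 16764160) (l 16761520)) (l 16756904))), by decide +kernel⟩

def k17_pm_101_s : ∃ t, chk3 f_pm_101_s t 9 10 1 = true :=
  ⟨(b (a (b (a (l 16767776) (l 16765288)) (l 16762592)) (b (l 16761600) (l 16758000))) (a (a (l 16756464) (l 16754400)) (b (l 16753816) (l 16748848)))), by decide +kernel⟩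

def k18_pm_101_s : ∃ t, chk3 f_pm_101_s t 4 11 1 = true :=
  ⟨(a (b (a (b (a (b (l 16758880) (l 16754760)) (l 16753696)) (a (l 16748256) (l 16745512))) (b (l 16750016) (l 16742480))) (a (b (a (l 16738504) (l 16736256)) (l 16726160)) (b (l 16733992) (l 16724032)))) (b (a (b (l 16746296) (l 16739536)) (b (l 16743280) (l 16737432))) (a (a (l 16728272) (l 16727856)) (l 16727096)))), by decide +kernel⟩

def k19_pm_101_s : ∃ t, chk3 f_pm_101_s t 5 5 1 = true :=
  ⟨(b (a (b (a (a (l 16756528) (l 16755536)) (l 16778688)) (a (b (l 16749368) (l 16744976)) (b (l 16746512) (l 16740576)))) (b (l 1) (a (l 16789064) (l 1)))) (a (a (b (l 16737640) (l 16726320)) (b (l 16733936) (l 16724672))) (a (b (l 16731936) (l 16721824)) (l 49425868151)))), by decide +kernel⟩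

def k20_pm_101_s : ∃ t, chk3 f_pm_101_s t 3 2 1 = true :=
  ⟨(a (b (l 1) (a (b (l 1) (a (l 16740056) (l 1))) (l 1))) (l 1)), by decide +kernel⟩

def k21_pm_101_s : ∃ t, chk3 f_pm_101_s t 1 3 1 = true :=
  ⟨(a (b (a (b (a (b (a (a (l 16706448) (l 16705600)) (a (l 16705720) (l 16706248))) (a (a (l 16669832) (l 16670888)) (l 16673392))) (a (b (l 16707064) (l 16678384)) (l 16696928))) (a (a (b (a (l 16619752) (l 16623080)) (l 16555848)) (b (l 16629424) (l 16570792))) (a (b (l 16639264) (l 16586920)) (l 16627384)))) (a (b (a (l 16700280) (l 16702640)) (a (l 16639440) (l 16649664))) (b (a (l 16704080) (l 16704496)) (a (l 16658752) (l 6))))) (a (a (b (a (b (l 16533488) (l 16400368)) (b (l 16493464) (l 16392936))) (a (b (l 16211416) (l 16090560)) (b (l 16261808) (l 16090800)))) (b (a (b (l 16517688) (l 16426792)) (l 16502288)) (a (b (l 16309432) (l 6)) (l 6)))) (a (b (a (l 16528424) (l 6)) (l 6)) (l 6)))) (a (b (a (l 6) (l 6)) (l 6)) (l 6))), by decide +kernel⟩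

theorem s22_pm_101_s : ∃ t, chk3 f_pm_101_s t 64 82 1 = true := ex3_a k10_pm_101_s k11_pm_101_s

theorem s23_pm_101_s : ∃ t, chk3 f_pm_101_s t 32 82 1 = true := ex3_a s22_pm_101_s k12_pm_101_s

theorem s24_pm_101_s : ∃ t, chk3 f_pm_101_s t 32 41 1 = true := ex3_b s23_pm_101_s k13_pm_101_s

theorem s25_pm_101_s : ∃ t, chk3 f_pm_101_s t 16 41 1 = true := ex3_a s24_pm_101_s k14_pm_101_s

theorem s26_pm_101_s : ∃ t, chk3 f_pm_101_s t 33 40 1 = true := ex3_b k8_pm_101_s k9_pm_101_s

theorem s27_pm_101_s : ∃ t, chk3 f_pm_101_s t 16 40 1 = true := ex3_a k7_pm_101_s s26_pm_101_s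

theorem s28_pm_101_s : ∃ t, chk3 f_pm_101_s t 16 20 1 = true := ex3_b s27_pm_101_s s25_pm_101_s

theorem s29_pm_101_s : ∃ t, chk3 f_pm_101_s t 8 20 1 = true := ex3_a s28_pm_101_s k15_pm_101_s

theorem s30_pm_101_s : ∃ t, chk3 f_pm_101_s t 8 10 1 = true := ex3_b s29_pm_101_s k16_pm_101_s

theorem s31_pm_101_s : ∃ t, chk3 f_pm_101_s t 4 10 1 = true := ex3_a s30_pm_101_s k17_pm_101_s

theorem s32_pm_101_s : ∃ t, chk3 f_pm_101_s t 4 5 1 = true := ex3_b s31_pm_101_s k18_pm_101_s

theorem s33_pm_101_s : ∃ t, chk3 f_pm_101_s t 2 5 1 = true := ex3_a s32_pm_101_s k19_pm_101_s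

theorem s34_pm_101_s : ∃ t, chk3 f_pm_101_s t 17 19 1 = true := ex3_b k3_pm_101_s k4_pm_101_s

theorem s35_pm_101_s : ∃ t, chk3 f_pm_101_s t 8 19 1 = true := ex3_a k2_pm_101_s s34_pm_101_s

theorem s36_pm_101_s : ∃ t, chk3 f_pm_101_s t 8 9 1 = true := ex3_b k1_pm_101_s s35_pm_101_s

theorem s37_pm_101_s : ∃ t, chk3 f_pm_101_s t 4 9 1 = true := ex3_a s36_pm_101_s k5_pm_101_s

theorem s38_pm_101_s : ∃ t, chk3 f_pm_101_s t 4 4 1 = true := ex3_b k0_pm_101_s s37_pm_101_s

theorem s39_pm_101_s : ∃ t, chk3 f_pm_101_s t 2 4 1 = true := ex3_a s38_pm_101_s k6_pm_101_s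

theorem s40_pm_101_s : ∃ t, chk3 f_pm_101_s t 2 2 1 = true := ex3_b s39_pm_101_s s33_pm_101_s

theorem s41_pm_101_s : ∃ t, chk3 f_pm_101_s t 1 2 1 = true := ex3_a s40_pm_101_s k20_pm_101_s

theorem s42_pm_101_s : ∃ t, chk3 f_pm_101_s t 1 1 1 = true := ex3_b s41_pm_101_s k21_pm_101_s

theorem c_pm_101_s : CertNE 536870912 536870912 0 536870912 536870912 50465866 3 eng mog cd0q1 cd6q0 pd1 true true false .npn 1 0 1
    ndB0q1 ndB6q0 pcB1 cut_pm_101_s Ext.none :=
  certNE1 (fam := true) (s1 := true) (s2 := false) (a := 1) (b := 0) (c := 1) (cn := .npn) (n1 := ndB0q1) (n2 := ndB6q0) (pc := pcB1) (cut := cut_pm_101_s) (xt := Ext.none) (P1 := 536870912) (W1 := 536870912) (P2 := 0) (W2 := 536870912) (P3 := 536870912) (W3 := 50465866) (N0 := 3) (En := eng) (mo := mog) (C1 := cd0q1) (C2 := cd6q0) (C3 := pd1)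
    rfl (fun _ => rfl) s42_pm_101_s

noncomputable def cut_pm_102_s : Cut := Cut.of [[⟨4, 0, 0, 1449551462⟩]]

noncomputable def f_pm_102_s : ℕ → ℕ → ℕ → ℕ → Bool := onCell 536870912 536870912 1073741824 536870912 536870912 50465866
    (rowNE 3 eng mog cd0q1 cd6q0 pd2 1 true true false .npp 1 0 2 (qsf 536870912 536870912 0 536870912 2) ndB0q1 ndB6q0 pcB2 cut_pm_102_s Ext.none)

def k0_pm_102_s : ∃ t, chk3 f_pm_102_s t 1 1 1 = true :=
  ⟨(a (b (b (a (a (b (a (b (l 6) (l 6)) (l 6)) (l 6)) (l 6)) (l 6)) (l 6)) (l 6)) (l 6)), by decide +kernel⟩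

theorem c_pm_102_s : CertNE 536870912 536870912 0 536870912 536870912 50465866 3 eng mog cd0q1 cd6q0 pd2 true true false .npp 1 0 2
    ndB0q1 ndB6q0 pcB2 cut_pm_102_s Ext.none :=
  certNE1 (fam := true) (s1 := true) (s2 := false) (a := 1) (b := 0) (c := 2) (cn := .npp) (n1 := ndB0q1) (n2 := ndB6q0) (pc := pcB2) (cut := cut_pm_102_s) (xt := Ext.none) (P1 := 536870912) (W1 := 536870912) (P2 := 0) (W2 := 536870912) (P3 := 536870912) (W3 := 50465866) (N0 := 3) (En := eng) (mo := mog) (C1 := cd0q1) (C2 := cd6q0) (C3 := pd2)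
    rfl (fun _ => rfl) k0_pm_102_s

noncomputable def cut_pm_112_s : Cut := Cut.of [[⟨4, 0, 0, 1449551462⟩]]

noncomputable def f_pm_112_s : ℕ → ℕ → ℕ → ℕ → Bool := onCell 536870912 536870912 536870912 536870912 536870912 50465866
    (rowNE 3 eng mog cd0q1 cd6q1 pd2 0 true true false .dn 1 1 2 (qsf 536870912 536870912 536870912 536870912 2) ndB0q1 ndB6q1 pcB2 cut_pm_112_s Ext.none)

def k0_pm_112_s : ∃ t, chk3 f_pm_112_s t 1 1 1 = true :=
  ⟨(a (b (a (b (a (b (a (b (l 6) (l 6)) (l 6)) (l 6)) (l 6)) (l 6)) (l 6)) (l 6)) (l 6)), by decide +kernel⟩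

theorem c_pm_112_s : CertNE 536870912 536870912 536870912 536870912 536870912 50465866 3 eng mog cd0q1 cd6q1 pd2 true true false .dn 1 1 2
    ndB0q1 ndB6q1 pcB2 cut_pm_112_s Ext.none :=
  certNE0 (fam := true) (s1 := true) (s2 := false) (a := 1) (b := 1) (c := 2) (cn := .dn) (n1 := ndB0q1) (n2 := ndB6q1) (pc := pcB2) (cut := cut_pm_112_s) (xt := Ext.none) (P1 := 536870912) (W1 := 536870912) (P2 := 536870912) (W2 := 536870912) (P3 := 536870912) (W3 := 50465866) (N0 := 3) (En := eng) (mo := mog) (C1 := cd0q1) (C2 := cd6q1) (C3 := pd2)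
    rfl k0_pm_112_s

noncomputable def cut_pm_113_s : Cut := Cut.of [[⟨4, 0, 0, 1449551462⟩]]

noncomputable def f_pm_113_s : ℕ → ℕ → ℕ → ℕ → Bool := onCell 536870912 536870912 1610612736 536870912 536870912 50465866
    (rowNE 3 eng mog cd0q1 cd6q1 pd3 1 true true false .nn 1 1 3 (qsf 536870912 536870912 536870912 536870912 3) ndB0q1 ndB6q1 pcB3 cut_pm_113_s Ext.none)

def k0_pm_113_s : ∃ t, chk3 f_pm_113_s t 1 1 1 = true :=
  ⟨(l 6), by decide +kernel⟩

theorem c_pm_113_s : CertNE 536870912 536870912 536870912 536870912 536870912 50465866 3 eng mog cd0q1 cd6q1 pd3 true true false .nn 1 1 3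
    ndB0q1 ndB6q1 pcB3 cut_pm_113_s Ext.none :=
  certNE1 (fam := true) (s1 := true) (s2 := false) (a := 1) (b := 1) (c := 3) (cn := .nn) (n1 := ndB0q1) (n2 := ndB6q1) (pc := pcB3) (cut := cut_pm_113_s) (xt := Ext.none) (P1 := 536870912) (W1 := 536870912) (P2 := 536870912) (W2 := 536870912) (P3 := 536870912) (W3 := 50465866) (N0 := 3) (En := eng) (mo := mog) (C1 := cd0q1) (C2 := cd6q1) (C3 := pd3)
    rfl (fun _ => rfl) k0_pm_113_s

noncomputable def cut_pm_123_s : Cut := Cut.of [[⟨4, 0, 0, 1449551462⟩]]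

noncomputable def f_pm_123_s : ℕ → ℕ → ℕ → ℕ → Bool := onCell 536870912 536870912 1073741824 536870912 536870912 50465866
    (rowNE 3 eng mog cd0q1 cd6q2 pd3 0 true true false .npn 1 2 3 (qsf 536870912 536870912 1073741824 536870912 3) ndB0q1 ndB6q2 pcB3 cut_pm_123_s Ext.none)

def k0_pm_123_s : ∃ t, chk3 f_pm_123_s t 1 1 1 = true :=
  ⟨(l 6), by decide +kernel⟩

theorem c_pm_123_s : CertNE 536870912 536870912 1073741824 536870912 536870912 50465866 3 eng mog cd0q1 cd6q2 pd3 true true false .npn 1 2 3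
    ndB0q1 ndB6q2 pcB3 cut_pm_123_s Ext.none :=
  certNE0 (fam := true) (s1 := true) (s2 := false) (a := 1) (b := 2) (c := 3) (cn := .npn) (n1 := ndB0q1) (n2 := ndB6q2) (pc := pcB3) (cut := cut_pm_123_s) (xt := Ext.none) (P1 := 536870912) (W1 := 536870912) (P2 := 1073741824) (W2 := 536870912) (P3 := 536870912) (W3 := 50465866) (N0 := 3) (En := eng) (mo := mog) (C1 := cd0q1) (C2 := cd6q2) (C3 := pd3)
    rfl k0_pm_123_s

noncomputable def cut_pm_133_s : Cut := Cut.of [[⟨4, 0, 0, 1449551462⟩]]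

noncomputable def f_pm_133_s : ℕ → ℕ → ℕ → ℕ → Bool := onCell 536870912 536870912 0 1230186008 536870912 50465866
    (rowNE 3 eng mog cd0q1 cd6q3 pd3 0 true true false .dn 1 3 3 (qsf 536870912 536870912 0 1230186008 3) ndB0q1 ndB6q3 pcB3 cut_pm_133_s Ext.none)

def k0_pm_133_s : ∃ t, chk3 f_pm_133_s t 1 1 1 = true :=
  ⟨(l 6), by decide +kernel⟩

theorem c_pm_133_s : CertNE 536870912 536870912 0 1230186008 536870912 50465866 3 eng mog cd0q1 cd6q3 pd3 true true false .dn 1 3 3
    ndB0q1 ndB6q3 pcB3 cut_pm_133_s Ext.none :=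
  certNE0 (fam := true) (s1 := true) (s2 := false) (a := 1) (b := 3) (c := 3) (cn := .dn) (n1 := ndB0q1) (n2 := ndB6q3) (pc := pcB3) (cut := cut_pm_133_s) (xt := Ext.none) (P1 := 536870912) (W1 := 536870912) (P2 := 0) (W2 := 1230186008) (P3 := 536870912) (W3 := 50465866) (N0 := 3) (En := eng) (mo := mog) (C1 := cd0q1) (C2 := cd6q3) (C3 := pd3)
    rfl k0_pm_133_s

noncomputable def cut_pm_202_s : Cut := Cut.of [[⟨4, 0, 0, 1449551462⟩]]

noncomputable def f_pm_202_s : ℕ → ℕ → ℕ → ℕ → Bool := onCell 0 536870912 0 536870912 536870912 50465866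
    (rowNE 3 eng mog cd0q2 cd6q0 pd2 0 true true false .pp 2 0 2 (qsf 0 536870912 0 536870912 2) ndB0q2 ndB6q0 pcB2 cut_pm_202_s Ext.none)

def k0_pm_202_s : ∃ t, chk3 f_pm_202_s t 1 1 1 = true :=
  ⟨(l 6), by decide +kernel⟩

theorem c_pm_202_s : CertNE 0 536870912 0 536870912 536870912 50465866 3 eng mog cd0q2 cd6q0 pd2 true true false .pp 2 0 2
    ndB0q2 ndB6q0 pcB2 cut_pm_202_s Ext.none :=
  certNE0 (fam := true) (s1 := true) (s2 := false) (a := 2) (b := 0) (c := 2) (cn := .pp) (n1 := ndB0q2) (n2 := ndB6q0) (pc := pcB2) (cut := cut_pm_202_s) (xt := Ext.none) (P1 := 0) (W1 := 536870912) (P2 := 0) (W2 := 536870912) (P3 := 536870912) (W3 := 50465866) (N0 := 3) (En := eng) (mo := mog) (C1 := cd0q2) (C2 := cd6q0) (C3 := pd2)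
    rfl k0_pm_202_s

noncomputable def cut_pm_203_s : Cut := Cut.of [[⟨4, 0, 0, 1449551462⟩]]

noncomputable def f_pm_203_s : ℕ → ℕ → ℕ → ℕ → Bool := onCell 0 536870912 0 536870912 536870912 50465866
    (rowNE 3 eng mog cd0q2 cd6q0 pd3 0 true true false .up 2 0 3 (qsf 0 536870912 0 536870912 3) ndB0q2 ndB6q0 pcB3 cut_pm_203_s Ext.none)

def k0_pm_203_s : ∃ t, chk3 f_pm_203_s t 1 1 1 = true :=
  ⟨(l 6), by decide +kernel⟩

theorem c_pm_203_s : CertNE 0 536870912 0 536870912 536870912 50465866 3 eng mog cd0q2 cd6q0 pd3 true true false .up 2 0 3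
    ndB0q2 ndB6q0 pcB3 cut_pm_203_s Ext.none :=
  certNE0 (fam := true) (s1 := true) (s2 := false) (a := 2) (b := 0) (c := 3) (cn := .up) (n1 := ndB0q2) (n2 := ndB6q0) (pc := pcB3) (cut := cut_pm_203_s) (xt := Ext.none) (P1 := 0) (W1 := 536870912) (P2 := 0) (W2 := 536870912) (P3 := 536870912) (W3 := 50465866) (N0 := 3) (En := eng) (mo := mog) (C1 := cd0q2) (C2 := cd6q0) (C3 := pd3)
    rfl k0_pm_203_s

noncomputable def cut_pm_213_s : Cut := Cut.of [[⟨4, 0, 0, 1449551462⟩]]

noncomputable def f_pm_213_s : ℕ → ℕ → ℕ → ℕ → Bool := onCell 0 536870912 536870912 536870912 536870912 50465866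
    (rowNE 3 eng mog cd0q2 cd6q1 pd3 0 true true false .pnn 2 1 3 (qsf 0 536870912 536870912 536870912 3) ndB0q2 ndB6q1 pcB3 cut_pm_213_s Ext.none)

def k0_pm_213_s : ∃ t, chk3 f_pm_213_s t 1 1 1 = true :=
  ⟨(l 6), by decide +kernel⟩

theorem c_pm_213_s : CertNE 0 536870912 536870912 536870912 536870912 50465866 3 eng mog cd0q2 cd6q1 pd3 true true false .pnn 2 1 3
    ndB0q2 ndB6q1 pcB3 cut_pm_213_s Ext.none :=
  certNE0 (fam := true) (s1 := true) (s2 := false) (a := 2) (b := 1) (c := 3) (cn := .pnn) (n1 := ndB0q2) (n2 := ndB6q1) (pc := pcB3) (cut := cut_pm_213_s) (xt := Ext.none) (P1 := 0) (W1 := 536870912) (P2 := 536870912) (W2 := 536870912) (P3 := 536870912) (W3 := 50465866) (N0 := 3) (En := eng) (mo := mog) (C1 := cd0q2) (C2 := cd6q1) (C3 := pd3)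
    rfl k0_pm_213_s

noncomputable def cut_mm_001_s : Cut := Cut.of [[⟨4, 0, 0, 1449551462⟩]]

noncomputable def f_mm_001_s : ℕ → ℕ → ℕ → ℕ → Bool := onCell 0 536870912 0 536870912 536870912 50465866
    (rowNE 3 eng mog cd0q0 cd6q0 pd1 0 true false false .up 0 0 1 (qsf 0 536870912 0 536870912 1) ndB0q0 ndB6q0 pcB1 cut_mm_001_s Ext.none)

def k0_mm_001_s : ∃ t, chk3 f_mm_001_s t 1 1 1 = true :=
  ⟨(l 4), by decide +kernel⟩

theorem c_mm_001_s : CertNE 0 536870912 0 536870912 536870912 50465866 3 eng mog cd0q0 cd6q0 pd1 true false false .up 0 0 1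
    ndB0q0 ndB6q0 pcB1 cut_mm_001_s Ext.none :=
  certNE0 (fam := true) (s1 := false) (s2 := false) (a := 0) (b := 0) (c := 1) (cn := .up) (n1 := ndB0q0) (n2 := ndB6q0) (pc := pcB1) (cut := cut_mm_001_s) (xt := Ext.none) (P1 := 0) (W1 := 536870912) (P2 := 0) (W2 := 536870912) (P3 := 536870912) (W3 := 50465866) (N0 := 3) (En := eng) (mo := mog) (C1 := cd0q0) (C2 := cd6q0) (C3 := pd1)
    rfl k0_mm_001_s

noncomputable def cut_mm_011_s : Cut := Cut.of [[⟨4, 0, 0, 1449551462⟩]]

noncomputable def f_mm_011_s : ℕ → ℕ → ℕ → ℕ → Bool := onCell 0 536870912 536870912 536870912 536870912 50465866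
    (rowNE 3 eng mog cd0q0 cd6q1 pd1 0 true false false .pnn 0 1 1 (qsf 0 536870912 536870912 536870912 1) ndB0q0 ndB6q1 pcB1 cut_mm_011_s Ext.none)

def k0_mm_011_s : ∃ t, chk3 f_mm_011_s t 1 1 1 = true :=
  ⟨(l 4), by decide +kernel⟩

theorem c_mm_011_s : CertNE 0 536870912 536870912 536870912 536870912 50465866 3 eng mog cd0q0 cd6q1 pd1 true false false .pnn 0 1 1
    ndB0q0 ndB6q1 pcB1 cut_mm_011_s Ext.none :=
  certNE0 (fam := true) (s1 := false) (s2 := false) (a := 0) (b := 1) (c := 1) (cn := .pnn) (n1 := ndB0q0) (n2 := ndB6q1) (pc := pcB1) (cut := cut_mm_011_s) (xt := Ext.none) (P1 := 0) (W1 := 536870912) (P2 := 536870912) (W2 := 536870912) (P3 := 536870912) (W3 := 50465866) (N0 := 3) (En := eng) (mo := mog) (C1 := cd0q0) (C2 := cd6q1) (C3 := pd1)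
    rfl k0_mm_011_s

noncomputable def cut_mm_012_s : Cut := Cut.of [[⟨4, 0, 0, 1449551462⟩]]

noncomputable def f_mm_012_s : ℕ → ℕ → ℕ → ℕ → Bool := onCell 0 536870912 536870912 536870912 536870912 50465866
    (rowNE 3 eng mog cd0q0 cd6q1 pd2 0 true false false .pnp 0 1 2 (qsf 0 536870912 536870912 536870912 2) ndB0q0 ndB6q1 pcB2 cut_mm_012_s Ext.none)

def k0_mm_012_s : ∃ t, chk3 f_mm_012_s t 1 1 1 = true :=
  ⟨(l 4), by decide +kernel⟩

theorem c_mm_012_s : CertNE 0 536870912 536870912 536870912 536870912 50465866 3 eng mog cd0q0 cd6q1 pd2 true false false .pnp 0 1 2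
    ndB0q0 ndB6q1 pcB2 cut_mm_012_s Ext.none :=
  certNE0 (fam := true) (s1 := false) (s2 := false) (a := 0) (b := 1) (c := 2) (cn := .pnp) (n1 := ndB0q0) (n2 := ndB6q1) (pc := pcB2) (cut := cut_mm_012_s) (xt := Ext.none) (P1 := 0) (W1 := 536870912) (P2 := 536870912) (W2 := 536870912) (P3 := 536870912) (W3 := 50465866) (N0 := 3) (En := eng) (mo := mog) (C1 := cd0q0) (C2 := cd6q1) (C3 := pd2)
    rfl k0_mm_012_s

noncomputable def cut_mm_022_s : Cut := Cut.of [[⟨4, 0, 0, 1449551462⟩]]

noncomputable def f_mm_022_s : ℕ → ℕ → ℕ → ℕ → Bool := onCell 0 536870912 1073741824 536870912 536870912 50465866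
    (rowNE 3 eng mog cd0q0 cd6q2 pd2 0 true false false .pp 0 2 2 (qsf 0 536870912 1073741824 536870912 2) ndB0q0 ndB6q2 pcB2 cut_mm_022_s Ext.none)

def k0_mm_022_s : ∃ t, chk3 f_mm_022_s t 1 1 1 = true :=
  ⟨(l 4), by decide +kernel⟩

theorem c_mm_022_s : CertNE 0 536870912 1073741824 536870912 536870912 50465866 3 eng mog cd0q0 cd6q2 pd2 true false false .pp 0 2 2
    ndB0q0 ndB6q2 pcB2 cut_mm_022_s Ext.none :=
  certNE0 (fam := true) (s1 := false) (s2 := false) (a := 0) (b := 2) (c := 2) (cn := .pp) (n1 := ndB0q0) (n2 := ndB6q2) (pc := pcB2) (cut := cut_mm_022_s) (xt := Ext.none) (P1 := 0) (W1 := 536870912) (P2 := 1073741824) (W2 := 536870912) (P3 := 536870912) (W3 := 50465866) (N0 := 3) (En := eng) (mo := mog) (C1 := cd0q0) (C2 := cd6q2) (C3 := pd2)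
    rfl k0_mm_022_s

noncomputable def cut_mm_023_s : Cut := Cut.of [[⟨4, 0, 0, 1449551462⟩]]

noncomputable def f_mm_023_s : ℕ → ℕ → ℕ → ℕ → Bool := onCell 0 536870912 1073741824 536870912 536870912 50465866
    (rowNE 3 eng mog cd0q0 cd6q2 pd3 0 true false false .up 0 2 3 (qsf 0 536870912 1073741824 536870912 3) ndB0q0 ndB6q2 pcB3 cut_mm_023_s Ext.none)

def k0_mm_023_s : ∃ t, chk3 f_mm_023_s t 1 1 1 = true :=
  ⟨(l 4), by decide +kernel⟩

theorem c_mm_023_s : CertNE 0 536870912 1073741824 536870912 536870912 50465866 3 eng mog cd0q0 cd6q2 pd3 true false false .up 0 2 3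
    ndB0q0 ndB6q2 pcB3 cut_mm_023_s Ext.none :=
  certNE0 (fam := true) (s1 := false) (s2 := false) (a := 0) (b := 2) (c := 3) (cn := .up) (n1 := ndB0q0) (n2 := ndB6q2) (pc := pcB3) (cut := cut_mm_023_s) (xt := Ext.none) (P1 := 0) (W1 := 536870912) (P2 := 1073741824) (W2 := 536870912) (P3 := 536870912) (W3 := 50465866) (N0 := 3) (En := eng) (mo := mog) (C1 := cd0q0) (C2 := cd6q2) (C3 := pd3)
    rfl k0_mm_023_s

noncomputable def cut_mm_033_s : Cut := Cut.of [[⟨4, 0, 0, 1449551462⟩]]

noncomputable def f_mm_033_s : ℕ → ℕ → ℕ → ℕ → Bool := onCell 0 536870912 0 1230186008 536870912 50465866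
    (rowNE 3 eng mog cd0q0 cd6q3 pd3 0 true false false .pnn 0 3 3 (qsf 0 536870912 0 1230186008 3) ndB0q0 ndB6q3 pcB3 cut_mm_033_s Ext.none)

def k0_mm_033_s : ∃ t, chk3 f_mm_033_s t 1 1 1 = true :=
  ⟨(l 4), by decide +kernel⟩

theorem c_mm_033_s : CertNE 0 536870912 0 1230186008 536870912 50465866 3 eng mog cd0q0 cd6q3 pd3 true false false .pnn 0 3 3
    ndB0q0 ndB6q3 pcB3 cut_mm_033_s Ext.none :=
  certNE0 (fam := true) (s1 := false) (s2 := false) (a := 0) (b := 3) (c := 3) (cn := .pnn) (n1 := ndB0q0) (n2 := ndB6q3) (pc := pcB3) (cut := cut_mm_033_s) (xt := Ext.none) (P1 := 0) (W1 := 536870912) (P2 := 0) (W2 := 1230186008) (P3 := 536870912) (W3 := 50465866) (N0 := 3) (En := eng) (mo := mog) (C1 := cd0q0) (C2 := cd6q3) (C3 := pd3)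
    rfl k0_mm_033_s

noncomputable def cut_mm_101_s : Cut := Cut.of [[⟨4, 0, 0, 1449551462⟩]]

noncomputable def f_mm_101_s : ℕ → ℕ → ℕ → ℕ → Bool := onCell 536870912 536870912 0 536870912 536870912 50465866
    (rowNE 3 eng mog cd0q1 cd6q0 pd1 0 true false false .npn 1 0 1 (qsf 536870912 536870912 0 536870912 1) ndB0q1 ndB6q0 pcB1 cut_mm_101_s Ext.none)

def k0_mm_101_s : ∃ t, chk3 f_mm_101_s t 1 1 1 = true :=
  ⟨(l 4), by decide +kernel⟩

theorem c_mm_101_s : CertNE 536870912 536870912 0 536870912 536870912 50465866 3 eng mog cd0q1 cd6q0 pd1 true false false .npn 1 0 1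
    ndB0q1 ndB6q0 pcB1 cut_mm_101_s Ext.none :=
  certNE0 (fam := true) (s1 := false) (s2 := false) (a := 1) (b := 0) (c := 1) (cn := .npn) (n1 := ndB0q1) (n2 := ndB6q0) (pc := pcB1) (cut := cut_mm_101_s) (xt := Ext.none) (P1 := 536870912) (W1 := 536870912) (P2 := 0) (W2 := 536870912) (P3 := 536870912) (W3 := 50465866) (N0 := 3) (En := eng) (mo := mog) (C1 := cd0q1) (C2 := cd6q0) (C3 := pd1)
    rfl k0_mm_101_s

noncomputable def cut_mm_102_s : Cut := Cut.of [[⟨4, 0, 0, 1449551462⟩]]

noncomputable def f_mm_102_s : ℕ → ℕ → ℕ → ℕ → Bool := onCell 536870912 536870912 0 536870912 536870912 50465866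
    (rowNE 3 eng mog cd0q1 cd6q0 pd2 0 true false false .npp 1 0 2 (qsf 536870912 536870912 0 536870912 2) ndB0q1 ndB6q0 pcB2 cut_mm_102_s Ext.none)

def k0_mm_102_s : ∃ t, chk3 f_mm_102_s t 1 1 1 = true :=
  ⟨(l 4), by decide +kernel⟩

theorem c_mm_102_s : CertNE 536870912 536870912 0 536870912 536870912 50465866 3 eng mog cd0q1 cd6q0 pd2 true false false .npp 1 0 2
    ndB0q1 ndB6q0 pcB2 cut_mm_102_s Ext.none :=
  certNE0 (fam := true) (s1 := false) (s2 := false) (a := 1) (b := 0) (c := 2) (cn := .npp) (n1 := ndB0q1) (n2 := ndB6q0) (pc := pcB2) (cut := cut_mm_102_s) (xt := Ext.none) (P1 := 536870912) (W1 := 536870912) (P2 := 0) (W2 := 536870912) (P3 := 536870912) (W3 := 50465866) (N0 := 3) (En := eng) (mo := mog) (C1 := cd0q1) (C2 := cd6q0) (C3 := pd2)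
    rfl k0_mm_102_s

noncomputable def cut_mm_112_s : Cut := Cut.of [[⟨4, 0, 0, 1449551462⟩]]

noncomputable def f_mm_112_s : ℕ → ℕ → ℕ → ℕ → Bool := onCell 536870912 536870912 536870912 536870912 536870912 50465866
    (rowNE 3 eng mog cd0q1 cd6q1 pd2 0 true false false .dn 1 1 2 (qsf 536870912 536870912 536870912 536870912 2) ndB0q1 ndB6q1 pcB2 cut_mm_112_s Ext.none)

def k0_mm_112_s : ∃ t, chk3 f_mm_112_s t 1 1 1 = true :=
  ⟨(l 4), by decide +kernel⟩

theorem c_mm_112_s : CertNE 536870912 536870912 536870912 536870912 536870912 50465866 3 eng mog cd0q1 cd6q1 pd2 true false false .dn 1 1 2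
    ndB0q1 ndB6q1 pcB2 cut_mm_112_s Ext.none :=
  certNE0 (fam := true) (s1 := false) (s2 := false) (a := 1) (b := 1) (c := 2) (cn := .dn) (n1 := ndB0q1) (n2 := ndB6q1) (pc := pcB2) (cut := cut_mm_112_s) (xt := Ext.none) (P1 := 536870912) (W1 := 536870912) (P2 := 536870912) (W2 := 536870912) (P3 := 536870912) (W3 := 50465866) (N0 := 3) (En := eng) (mo := mog) (C1 := cd0q1) (C2 := cd6q1) (C3 := pd2)
    rfl k0_mm_112_s

noncomputable def cut_mm_113_s : Cut := Cut.of [[⟨4, 0, 0, 1449551462⟩]]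

noncomputable def f_mm_113_s : ℕ → ℕ → ℕ → ℕ → Bool := onCell 536870912 536870912 536870912 536870912 536870912 50465866
    (rowNE 3 eng mog cd0q1 cd6q1 pd3 0 true false false .nn 1 1 3 (qsf 536870912 536870912 536870912 536870912 3) ndB0q1 ndB6q1 pcB3 cut_mm_113_s Ext.none)

def k0_mm_113_s : ∃ t, chk3 f_mm_113_s t 1 1 1 = true :=
  ⟨(l 4), by decide +kernel⟩

theorem c_mm_113_s : CertNE 536870912 536870912 536870912 536870912 536870912 50465866 3 eng mog cd0q1 cd6q1 pd3 true false false .nn 1 1 3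
    ndB0q1 ndB6q1 pcB3 cut_mm_113_s Ext.none :=
  certNE0 (fam := true) (s1 := false) (s2 := false) (a := 1) (b := 1) (c := 3) (cn := .nn) (n1 := ndB0q1) (n2 := ndB6q1) (pc := pcB3) (cut := cut_mm_113_s) (xt := Ext.none) (P1 := 536870912) (W1 := 536870912) (P2 := 536870912) (W2 := 536870912) (P3 := 536870912) (W3 := 50465866) (N0 := 3) (En := eng) (mo := mog) (C1 := cd0q1) (C2 := cd6q1) (C3 := pd3)
    rfl k0_mm_113_s

noncomputable def cut_mm_123_s : Cut := Cut.of [[⟨4, 0, 0, 1449551462⟩]]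

noncomputable def f_mm_123_s : ℕ → ℕ → ℕ → ℕ → Bool := onCell 536870912 536870912 1073741824 536870912 536870912 50465866
    (rowNE 3 eng mog cd0q1 cd6q2 pd3 0 true false false .npn 1 2 3 (qsf 536870912 536870912 1073741824 536870912 3) ndB0q1 ndB6q2 pcB3 cut_mm_123_s Ext.none)

def k0_mm_123_s : ∃ t, chk3 f_mm_123_s t 1 1 1 = true :=
  ⟨(l 4), by decide +kernel⟩

theorem c_mm_123_s : CertNE 536870912 536870912 1073741824 536870912 536870912 50465866 3 eng mog cd0q1 cd6q2 pd3 true false false .npn 1 2 3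
    ndB0q1 ndB6q2 pcB3 cut_mm_123_s Ext.none :=
  certNE0 (fam := true) (s1 := false) (s2 := false) (a := 1) (b := 2) (c := 3) (cn := .npn) (n1 := ndB0q1) (n2 := ndB6q2) (pc := pcB3) (cut := cut_mm_123_s) (xt := Ext.none) (P1 := 536870912) (W1 := 536870912) (P2 := 1073741824) (W2 := 536870912) (P3 := 536870912) (W3 := 50465866) (N0 := 3) (En := eng) (mo := mog) (C1 := cd0q1) (C2 := cd6q2) (C3 := pd3)
    rfl k0_mm_123_s

noncomputable def cut_mm_133_s : Cut := Cut.of [[⟨4, 0, 0, 1449551462⟩]]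

noncomputable def f_mm_133_s : ℕ → ℕ → ℕ → ℕ → Bool := onCell 536870912 536870912 0 1230186008 536870912 50465866
    (rowNE 3 eng mog cd0q1 cd6q3 pd3 0 true false false .dn 1 3 3 (qsf 536870912 536870912 0 1230186008 3) ndB0q1 ndB6q3 pcB3 cut_mm_133_s Ext.none)

def k0_mm_133_s : ∃ t, chk3 f_mm_133_s t 1 1 1 = true :=
  ⟨(l 4), by decide +kernel⟩

theorem c_mm_133_s : CertNE 536870912 536870912 0 1230186008 536870912 50465866 3 eng mog cd0q1 cd6q3 pd3 true false false .dn 1 3 3
    ndB0q1 ndB6q3 pcB3 cut_mm_133_s Ext.none :=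
  certNE0 (fam := true) (s1 := false) (s2 := false) (a := 1) (b := 3) (c := 3) (cn := .dn) (n1 := ndB0q1) (n2 := ndB6q3) (pc := pcB3) (cut := cut_mm_133_s) (xt := Ext.none) (P1 := 536870912) (W1 := 536870912) (P2 := 0) (W2 := 1230186008) (P3 := 536870912) (W3 := 50465866) (N0 := 3) (En := eng) (mo := mog) (C1 := cd0q1) (C2 := cd6q3) (C3 := pd3)
    rfl k0_mm_133_s

noncomputable def cut_mm_202_s : Cut := Cut.of [[⟨4, 0, 0, 1449551462⟩]]

noncomputable def f_mm_202_s : ℕ → ℕ → ℕ → ℕ → Bool := onCell 0 536870912 0 536870912 536870912 50465866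
    (rowNE 3 eng mog cd0q2 cd6q0 pd2 0 true false false .pp 2 0 2 (qsf 0 536870912 0 536870912 2) ndB0q2 ndB6q0 pcB2 cut_mm_202_s Ext.none)

def k0_mm_202_s : ∃ t, chk3 f_mm_202_s t 1 1 1 = true :=
  ⟨(l 4), by decide +kernel⟩

theorem c_mm_202_s : CertNE 0 536870912 0 536870912 536870912 50465866 3 eng mog cd0q2 cd6q0 pd2 true false false .pp 2 0 2
    ndB0q2 ndB6q0 pcB2 cut_mm_202_s Ext.none :=
  certNE0 (fam := true) (s1 := false) (s2 := false) (a := 2) (b := 0) (c := 2) (cn := .pp) (n1 := ndB0q2) (n2 := ndB6q0) (pc := pcB2) (cut := cut_mm_202_s) (xt := Ext.none) (P1 := 0) (W1 := 536870912) (P2 := 0) (W2 := 536870912) (P3 := 536870912) (W3 := 50465866) (N0 := 3) (En := eng) (mo := mog) (C1 := cd0q2) (C2 := cd6q0) (C3 := pd2)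
    rfl k0_mm_202_s

noncomputable def cut_mm_203_s : Cut := Cut.of [[⟨4, 0, 0, 1449551462⟩]]

noncomputable def f_mm_203_s : ℕ → ℕ → ℕ → ℕ → Bool := onCell 0 536870912 0 536870912 536870912 50465866
    (rowNE 3 eng mog cd0q2 cd6q0 pd3 0 true false false .up 2 0 3 (qsf 0 536870912 0 536870912 3) ndB0q2 ndB6q0 pcB3 cut_mm_203_s Ext.none)

def k0_mm_203_s : ∃ t, chk3 f_mm_203_s t 1 1 1 = true :=
  ⟨(l 4), by decide +kernel⟩

theorem c_mm_203_s : CertNE 0 536870912 0 536870912 536870912 50465866 3 eng mog cd0q2 cd6q0 pd3 true false false .up 2 0 3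
    ndB0q2 ndB6q0 pcB3 cut_mm_203_s Ext.none :=
  certNE0 (fam := true) (s1 := false) (s2 := false) (a := 2) (b := 0) (c := 3) (cn := .up) (n1 := ndB0q2) (n2 := ndB6q0) (pc := pcB3) (cut := cut_mm_203_s) (xt := Ext.none) (P1 := 0) (W1 := 536870912) (P2 := 0) (W2 := 536870912) (P3 := 536870912) (W3 := 50465866) (N0 := 3) (En := eng) (mo := mog) (C1 := cd0q2) (C2 := cd6q0) (C3 := pd3)
    rfl k0_mm_203_s

noncomputable def cut_mm_213_s : Cut := Cut.of [[⟨4, 0, 0, 1449551462⟩]]

noncomputable def f_mm_213_s : ℕ → ℕ → ℕ → ℕ → Bool := onCell 0 536870912 536870912 536870912 536870912 50465866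
    (rowNE 3 eng mog cd0q2 cd6q1 pd3 0 true false false .pnn 2 1 3 (qsf 0 536870912 536870912 536870912 3) ndB0q2 ndB6q1 pcB3 cut_mm_213_s Ext.none)

def k0_mm_213_s : ∃ t, chk3 f_mm_213_s t 1 1 1 = true :=
  ⟨(l 4), by decide +kernel⟩

theorem c_mm_213_s : CertNE 0 536870912 536870912 536870912 536870912 50465866 3 eng mog cd0q2 cd6q1 pd3 true false false .pnn 2 1 3
    ndB0q2 ndB6q1 pcB3 cut_mm_213_s Ext.none :=
  certNE0 (fam := true) (s1 := false) (s2 := false) (a := 2) (b := 1) (c := 3) (cn := .pnn) (n1 := ndB0q2) (n2 := ndB6q1) (pc := pcB3) (cut := cut_mm_213_s) (xt := Ext.none) (P1 := 0) (W1 := 536870912) (P2 := 536870912) (W2 := 536870912) (P3 := 536870912) (W3 := 50465866) (N0 := 3) (En := eng) (mo := mog) (C1 := cd0q2) (C2 := cd6q1) (C3 := pd3)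
    rfl k0_mm_213_s

end Pool.Agent.Strip051.G.I5000_5470.Tab.CS.BA06

namespace Pool.Agent.Strip051.G.I5000_5470.Tab.CS.BB00

open Pool.Agent.Strip051.PB Pool.Agent.Strip051.PB.T
open Pool.Agent.Strip051.G.I5000_5470.Tab

noncomputable def cut_pp_001_s : Cut := Cut.of [[⟨4, 0, 0, 1449551462⟩]]

noncomputable def f_pp_001_s : ℕ → ℕ → ℕ → ℕ → Bool := onCell 0 536870912 0 536870912 536870912 50465866
    (rowNE 3 eng mog cd0q0 cd0q1 pd0 1 false true true .up 0 0 1 (qsf 0 536870912 536870912 536870912 0) ndB0q0 ndB0q1 pcB0 cut_pp_001_s Ext.none)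

def k0_pp_001_s : ∃ t, chk3 f_pp_001_s t 1 1 1 = true :=
  ⟨(l 3), by decide +kernel⟩

theorem c_pp_001_s : CertNE 0 536870912 536870912 536870912 536870912 50465866 3 eng mog cd0q0 cd0q1 pd0 false true true .up 0 0 1
    ndB0q0 ndB0q1 pcB0 cut_pp_001_s Ext.none :=
  certNE1 (fam := false) (s1 := true) (s2 := true) (a := 0) (b := 0) (c := 1) (cn := .up) (n1 := ndB0q0) (n2 := ndB0q1) (pc := pcB0) (cut := cut_pp_001_s) (xt := Ext.none) (P1 := 0) (W1 := 536870912) (P2 := 536870912) (W2 := 536870912) (P3 := 536870912) (W3 := 50465866) (N0 := 3) (En := eng) (mo := mog) (C1 := cd0q0) (C2 := cd0q1) (C3 := pd0)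
    rfl (fun _ => rfl) k0_pp_001_s

noncomputable def cut_pp_001_t : Cut := Cut.of [[⟨3, 0, 0, 2845415833⟩]]

noncomputable def f_pp_001_t : ℕ → ℕ → ℕ → ℕ → Bool := onCell 0 536870912 536870912 536870912 536870912 50465866
    (rowNE 3 eng mog cd0q0 cd0q1 pd0 0 false true true .up 0 0 1 (qsf 0 536870912 536870912 536870912 0) ndB0q0 ndB0q1 pcB0 cut_pp_001_t Ext.none)

def k0_pp_001_t : ∃ t, chk3 f_pp_001_t t 1 1 1 = true :=
  ⟨(l 6), by decide +kernel⟩

theorem c_pp_001_t : CertNE 0 536870912 536870912 536870912 536870912 50465866 3 eng mog cd0q0 cd0q1 pd0 false true true .up 0 0 1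
    ndB0q0 ndB0q1 pcB0 cut_pp_001_t Ext.none :=
  certNE0 (fam := false) (s1 := true) (s2 := true) (a := 0) (b := 0) (c := 1) (cn := .up) (n1 := ndB0q0) (n2 := ndB0q1) (pc := pcB0) (cut := cut_pp_001_t) (xt := Ext.none) (P1 := 0) (W1 := 536870912) (P2 := 536870912) (W2 := 536870912) (P3 := 536870912) (W3 := 50465866) (N0 := 3) (En := eng) (mo := mog) (C1 := cd0q0) (C2 := cd0q1) (C3 := pd0)
    rfl k0_pp_001_t

noncomputable def cut_pp_011_s : Cut := Cut.of [[⟨4, 0, 0, 1449551462⟩], [⟨0, 0, 0, 67108864⟩, ⟨1, 1, 0, 67108864⟩, ⟨2, 1, 0, 67108864⟩]]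

noncomputable def f_pp_011_s : ℕ → ℕ → ℕ → ℕ → Bool := onCell 536870912 536870912 536870912 536870912 536870912 50465866
    (rowNE 3 eng mog cd0q0 cd0q1 pd1 2 false true true .pnn 0 1 1 (qsf 0 536870912 536870912 536870912 1) ndB0q0 ndB0q1 pcB1 cut_pp_011_s Ext.none)

def k0_pp_011_s : ∃ t, chk3 f_pp_011_s t 1 1 1 = true :=
  ⟨(a (l 3) (b (l 3) (a (l 3) (b (l 3) (a (l 3) (b (l 3) (b (l 3) (a (l 3) (l 14))))))))), by decide +kernel⟩

theorem c_pp_011_s : CertNE 0 536870912 536870912 536870912 536870912 50465866 3 eng mog cd0q0 cd0q1 pd1 false true true .pnn 0 1 1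
    ndB0q0 ndB0q1 pcB1 cut_pp_011_s Ext.none :=
  certNE2 (fam := false) (s1 := true) (s2 := true) (a := 0) (b := 1) (c := 1) (cn := .pnn) (n1 := ndB0q0) (n2 := ndB0q1) (pc := pcB1) (cut := cut_pp_011_s) (xt := Ext.none) (P1 := 0) (W1 := 536870912) (P2 := 536870912) (W2 := 536870912) (P3 := 536870912) (W3 := 50465866) (N0 := 3) (En := eng) (mo := mog) (C1 := cd0q0) (C2 := cd0q1) (C3 := pd1)
    rfl (fun _ => rfl) k0_pp_011_s

noncomputable def cut_pp_011_t : Cut := Cut.of [[⟨3, 0, 0, 2845415833⟩], [⟨0, 0, 0, 67108864⟩, ⟨1, 1, 0, 67108864⟩, ⟨2, 1, 0, 67108864⟩]]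

noncomputable def f_pp_011_t : ℕ → ℕ → ℕ → ℕ → Bool := onCell 0 536870912 536870912 536870912 536870912 50465866
    (rowNE 3 eng mog cd0q0 cd0q1 pd1 0 false true true .pnn 0 1 1 (qsf 0 536870912 536870912 536870912 1) ndB0q0 ndB0q1 pcB1 cut_pp_011_t Ext.none)

def k0_pp_011_t : ∃ t, chk3 f_pp_011_t t 1 1 1 = true :=
  ⟨(l 6), by decide +kernel⟩

theorem c_pp_011_t : CertNE 0 536870912 536870912 536870912 536870912 50465866 3 eng mog cd0q0 cd0q1 pd1 false true true .pnn 0 1 1
    ndB0q0 ndB0q1 pcB1 cut_pp_011_t Ext.none :=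
  certNE0 (fam := false) (s1 := true) (s2 := true) (a := 0) (b := 1) (c := 1) (cn := .pnn) (n1 := ndB0q0) (n2 := ndB0q1) (pc := pcB1) (cut := cut_pp_011_t) (xt := Ext.none) (P1 := 0) (W1 := 536870912) (P2 := 536870912) (W2 := 536870912) (P3 := 536870912) (W3 := 50465866) (N0 := 3) (En := eng) (mo := mog) (C1 := cd0q0) (C2 := cd0q1) (C3 := pd1)
    rfl k0_pp_011_t

noncomputable def cut_pp_012_s : Cut := Cut.of [[⟨4, 0, 0, 1449551462⟩], [⟨0, 0, 0, 67108864⟩, ⟨1, 1, 0, 67108864⟩, ⟨2, 1, 0, 67108864⟩]]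

noncomputable def f_pp_012_s : ℕ → ℕ → ℕ → ℕ → Bool := onCell 536870912 536870912 0 536870912 536870912 50465866
    (rowNE 3 eng mog cd0q0 cd0q2 pd1 2 false true true .pnp 0 1 2 (qsf 0 536870912 0 536870912 1) ndB0q0 ndB0q2 pcB1 cut_pp_012_s Ext.none)

def k0_pp_012_s : ∃ t, chk3 f_pp_012_s t 4 2 1 = true :=
  ⟨(b (l 2) (l 3)), by decide +kernel⟩

def k1_pp_012_s : ∃ t, chk3 f_pp_012_s t 20 4 1 = true :=
  ⟨(a (l 2) (b (a (l 2) (a (l 2) (b (b (l 16723944) (l 16735664)) (l 16771320)))) (b (a (l 2) (b (b (a (l 16776008) (l 16767576)) (a (a (l 2) (b (l 16774528) (b (c (l 107474849655) (l 111232945975)) (l 152102241287)))) (a (a (b (l 16773320) (b (l 16775624) (l 80161541239))) (l 16779288)) (l 16778072)))) (b (a (l 3) (b (a (l 156397209303) (b (c (l 32916901447) (l 31306288647)) (l 146196661111))) (l 3))) (l 3)))) (l 3)))), by decide +kernel⟩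

def k2_pp_012_s : ∃ t, chk3 f_pp_012_s t 21 8 1 = true :=
  ⟨(b (a (b (a (l 16740568) (a (l 16715176) (l 16712488))) (a (l 16731216) (l 16746376))) (b (l 16705352) (a (l 16740288) (l 16713072)))) (a (b (l 16760656) (a (l 16775056) (l 16747776))) (b (l 16748312) (c (l 16759864) (l 16758496))))), by decide +kernel⟩

def k3_pp_012_s : ∃ t, chk3 f_pp_012_s t 21 9 1 = true :=
  ⟨(b (a (b (a (a (b (l 16764384) (l 16775648)) (l 16774632)) (l 16769784)) (a (b (a (a (b (b (l 16775056) (l 30232547175)) (b (l 143512306455) (l 3))) (b (l 16774200) (b (l 27548192455) (l 140291080887)))) (a (a (b (l 16772976) (l 17884515767)) (l 16778944)) (l 16777712))) (a (l 3) (b (a (b (l 137606726215) (l 3)) (b (l 16779008) (c (l 133848629767) (l 136532984231)))) (l 3)))) (b (a (l 16780488) (l 16766712)) (a (b (c (l 16778632) (l 16778576)) (a (b (c (l 130627404151) (l 132774887719)) (l 3)) (b (l 16778824) (c (l 126869307639) (l 129553662103))))) (c (l 16778840) (l 16778096)))))) (b (a (l 16773752)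 (l 16746320)) (a (a (b (l 16763408) (l 16780040)) (l 16773616)) (l 16773960)))) (a (b (a (l 3) (b (a (l 3) (b (a (b (c (l 123648082007) (l 126332436487)) (l 3)) (b (l 16776008) (c (l 95193928535) (l 97341412183)))) (l 3))) (l 3))) (l 3)) (b (a (b (a (b (l 16778856) (a (b (c (l 90898961287) (l 92509573959)) (l 3)) (b (l 16775800) (c (l 86067123079) (l 87677735719))))) (c (l 16777776) (l 16777696))) (a (l 3) (b (b (a (c (l 81235284791) (l 82845897479)) (l 16775616)) (a (l 3) (c (l 76403446455) (l 77477188295)))) (l 168208371543)))) (b (c (l 16778136) (l 16777944)) (a (b (l 16779168) (b (a (c (l 71034737271) (l 72645349943)) (l 16775440)) (a (l 163376531223) (c (l 65666027975) (l 67276640743))))) (c (l 16777528) (l 16777400))))) (a (l 3) (b (a (a (l 3) (l 167671501479)) (b (a (b (c (l 35601256711) (l 16779528)) (l 154786596359)) (b (l 16775264) (l 33453773079))) (a (l 3) (l 157470951831)))) (l 3)))))), by decide +kernel⟩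

def k4_pp_012_s : ∃ t, chk3 f_pp_012_s t 11 4 1 = true :=
  ⟨(b (b (a (a (l 16719960) (l 16686264)) (a (l 16673544) (l 16661864))) (a (a (b (a (l 16739264) (l 16733192)) (l 16746928)) (b (l 16702408) (a (l 16737568) (l 16730640)))) (a (l 16715608) (l 16682736)))) (a (b (a (a (b (l 16740112) (l 16772896)) (a (l 16762376) (l 16759312))) (a (l 16754360) (l 16747776))) (a (b (a (b (l 16782160) (l 16777920)) (a (l 16780632) (l 16777544))) (a (b (a (b (l 16773616) (a (b (l 29695676311) (l 145659790519)) (c (l 16778504) (l 16778440)))) (l 16774256)) (a (b (a (l 3) (b (l 141364823031) (l 3))) (l 3)) (b (a (b (l 16779112) (l 137069855527)) (l 16778264)) (a (l 3) (b (l 132238015783) (l 3)))))) (a (b (l 16768848) (b (l 16773296) (a (b (l 16776280) (c (l 127406178695) (l 101099509095))) (l 16778064)))) (b (l 16765752) (b (l 16780688) (l 16775744)))))) (a (b (l 16772736) (a (l 16776072) (l 16783416))) (b (l 16766312) (l 16768216))))) (b (a (b (a (l 16735512) (l 16728880)) (l 16744088))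 (b (l 16698920) (b (l 16728656) (l 16734992)))) (b (a (c (l 16757272) (l 16756128)) (l 16723488)) (a (a (l 16772400) (l 16745200)) (l 16757160)))))), by decide +kernel⟩

def k5_pp_012_s : ∃ t, chk3 f_pp_012_s t 10 5 1 = true :=
  ⟨(l 3), by decide +kernel⟩

def k6_pp_012_s : ∃ t, chk3 f_pp_012_s t 22 10 1 = true :=
  ⟨(b (a (b (a (l 3) (b (a (b (a (l 3) (b (c (l 93046445495) (l 94657058151)) (l 3))) (l 3)) (b (a (b (l 16778680) (a (l 118816248407) (l 16778424))) (l 16775232)) (a (l 3) (b (c (l 81235285207) (l 82845897927)) (l 3))))) (l 3))) (l 3)) (b (a (b (a (a (b (l 16773688) (a (b (l 16776216) (l 103246991463)) (l 16778792))) (l 16778816)) (l 16773880)) (a (b (a (l 165524016599) (b (c (l 70497866423) (l 16779744)) (l 163376531591))) (l 3)) (a (b (c (b (l 16775648) (l 65129156935)) (l 24326967607)) (l 161765919847)) (b (l 16774776) (b (c (l 35601256231) (l 16779520)) (l 152102242023)))))) (b (l 16777104) (a (a (a (b (l 16773624) (b (l 16775744) (l 72645348759))) (l 16779520))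 (l 16778376)) (l 16781320)))) (a (l 3) (b (a (b (a (b (l 146196661735) (l 3)) (b (c (l 16778984) (l 16776640)) (c (l 139217339655) (l 142975435975)))) (l 3)) (b (c (a (l 16778832) (l 16774392)) (l 16780248)) (a (b (c (l 133311759351) (l 109689443911)) (l 3)) (b (l 16779024) (a (l 160155305591) (l 86067122167)))))) (l 3))))) (l 3)), by decide +kernel⟩

def k7_pp_012_s : ∃ t, chk3 f_pp_012_s t 23 20 1 = true :=
  ⟨(a (b (a (a (l 16775360) (l 16782768)) (l 16767696)) (a (b (a (c (b (l 16772176) (l 16778824)) (l 16778552)) (l 16780872)) (a (b (b (a (a (l 151565370743) (l 78550929223)) (l 16778760)) (a (l 3) (a (l 144049177703) (l 70497864775)))) (l 3)) (b (l 16777200) (a (a (l 148881016919) (b (l 36674996903) (l 3))) (b (l 16775888) (a (l 129553662471) (l 16778200))))))) (b (l 16776376) (a (c (l 16775736) (l 16772848)) (l 16780536))))) (b (c (l 16770000) (l 16768624)) (a (c (l 16773784) (l 16783448)) (l 16778176)))), by decide +kernel⟩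

def k8_pp_012_s : ∃ t, chk3 f_pp_012_s t 23 21 1 = true :=
  ⟨(a (b (a (b (a (l 3) (b (a (l 3) (l 160692178663)) (l 3))) (l 3)) (b (a (b (a (b (a (l 90898960103) (l 16778064)) (l 158544693511)) (a (b (l 16776008) (l 83382767047)) (l 16778576))) (a (l 3) (b (l 153712855015) (l 3)))) (b (l 16776760) (a (b (a (l 78014056167) (l 16776480)) (l 147270403783)) (a (b (l 16775760) (l 69960992087)) (l 16775696))))) (a (l 3) (b (a (l 3) (b (c (l 140291081639) (l 142438565239)) (l 3))) (l 3))))) (l 3)) (b (a (b (a (c (l 16777984) (l 16772440)) (l 16780240)) (a (b (c (a (b (l 26474449255) (a (l 3) (l 124184953175))) (l 13052676087)) (a (l 79624670311) (l 16775760))) (a (l 3) (b (c (a (l 156397209287) (l 87140863191)) (l 99488896183)) (l 3)))) (b (l 16776312) (a (c (b (l 16778968) (a (l 147270403479) (l 79087799175))) (l 44728062887)) (l 16778176))))) (b (l 16776040) (a (l 16774816) (l 16769448)))) (a (b (a (l 3) (a (l 3) (b (b (a (l 139754210359) (l 71034733783)) (l 3)) (l 3)))) (l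 3)) (b (a (a (b (b (l 16776048) (a (l 131164275415) (l 36138126023))) (l 3)) (b (l 16775296) (b (a (a (l 138143597415) (l 86603991511)) (l 16778128)) (l 154786597287)))) (a (b (l 16773936) (a (b (l 16776128) (a (l 100025764759) (l 76403443719))) (l 16777376))) (l 16776440))) (a (l 3) (b (a (b (l 148881016935) (l 3)) (c (b (a (l 78550927831) (l 16776560)) (l 141364823831)) (l 87677736663))) (l 3))))))), by decide +kernel⟩

def k9_pp_012_s : ∃ t, chk3 f_pp_012_s t 11 11 1 = true :=
  ⟨(l 3), by decide +kernel⟩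

def k10_pp_012_s : ∃ t, chk3 f_pp_012_s t 2 3 1 = true :=
  ⟨(l 3), by decide +kernel⟩

def k11_pp_012_s : ∃ t, chk3 f_pp_012_s t 6 4 1 = true :=
  ⟨(a (b (a (b (l 16667920) (a (l 16672184) (l 16662872))) (b (l 16651664) (a (l 16654488) (l 16646176)))) (a (b (a (b (l 16688344) (l 16699912)) (l 16684552)) (a (b (a (l 16715192) (l 16709840)) (l 16725064)) (b (l 16702576) (a (l 16717512) (l 16712616))))) (b (a (l 16675800) (l 16666968)) (a (b (l 16693560) (l 16726480)) (l 16711088))))) (b (a (b (l 16635440) (a (l 16637448) (l 16628392))) (b (l 6) (a (l 16618608) (l 6)))) (a (b (a (l 16657672) (l 16648000)) (a (l 16701168) (l 16690840))) (b (a (l 16637648) (l 16626208)) (a (l 16658768) (l 16646544)))))), by decide +kernel⟩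

def k12_pp_012_s : ∃ t, chk3 f_pp_012_s t 12 10 1 = true :=
  ⟨(a (b (a (b (l 16758224) (c (l 16770768) (l 16769176))) (a (l 16756464) (l 16751544))) (b (a (a (l 16773248) (l 16778432)) (c (l 16771712) (l 16769840))) (a (a (b (a (l 16777040) (l 16769136)) (a (b (a (a (b (l 16775856) (l 43117448119)) (l 16775792)) (l 16774792)) (b (c (a (l 134922372519) (l 27548191415)) (l 81235285703)) (a (l 3) (a (l 152639113159) (l 92509572231))))) (a (b (l 16773472) (l 16273901319)) (l 16773352)))) (b (l 16775680) (c (l 16780840) (l 16769832)))) (a (l 16773040) (l 16757480))))) (b (a (b (a (l 16719896) (l 16714912)) (l 16728816)) (b (l 16728352) (a (l 16721200) (l 16736896)))) (a (b (l 16760640) (a (l 16752336) (l 16747104))) (a (l 16747408) (l 16742048))))), by decide +kernel⟩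

def k13_pp_012_s : ∃ t, chk3 f_pp_012_s t 24 11 1 = true :=
  ⟨(b (a (b (a (b (a (l 3) (b (a (a (l 151565372359) (b (l 83919637319) (l 3))) (b (l 16776312) (a (l 139217339655) (l 71034735607)))) (l 3))) (l 3)) (b (a (b (l 16777560) (a (a (l 140827953399) (b (l 40969964183) (l 3))) (a (b (l 16776352) (l 97341410311)) (l 16778256)))) (l 16778768)) (a (b (a (l 3) (l 149954760583)) (l 3)) (b (b (c (a (l 70497863287) (l 16775808)) (l 16776360)) (c (a (l 144049178823) (l 40433094215)) (l 84993383927))) (a (l 3) (c (l 142438567079) (l 145122921623))))))) (l 3)) (b (a (b (l 16774952) (a (b (l 16774416) (a (b (l 33990642935) (l 131164276119)) (l 18958256999))) (l 16778232))) (c (l 16777776) (l 16776928))) (a (b (a (a (l 3) (b (b (l 124184953815) (l 3)) (l 3))) (a (b (b (l 16776432) (a (l 140827952663) (l 73182219463))) (l 3)) (b (l 16775704) (b (l 80161541735) (l 3))))) (l 3)) (a (b (a (b (l 16774416) (b (l 16776104) (l 78550928567))) (l 16779496)) (b (a (l 151565373383) (b (l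 69960993575) (l 143512307991))) (l 3))) (b (l 16772304) (b (c (c (l 28085062311) (l 16780976)) (l 16775632)) (a (l 140827954391) (b (l 16779368) (l 127406179847))))))))) (l 3)), by decide +kernel⟩

def k14_pp_012_s : ∃ t, chk3 f_pp_012_s t 25 11 1 = true :=
  ⟨(b (a (a (b (l 16772160) (b (l 16778864) (a (c (l 16778264) (l 16774088)) (l 16782056)))) (b (l 16756392) (l 16775808))) (a (b (l 16751032) (l 16770408)) (c (l 16772112) (l 16769944)))) (a (b (a (b (a (b (a (l 129016793591) (a (l 77477187335) (l 36674997975))) (l 3)) (b (l 16777608) (c (a (l 118279374359) (l 47412415575)) (l 74792835255)))) (a (l 3) (b (l 149417891143) (l 3)))) (b (c (l 16777568) (l 16771920)) (a (a (b (b (l 62444800695) (l 141364824215)) (l 3)) (b (l 35601254871) (l 139754212391))) (c (b (l 16774352) (a (l 63518546487) (l 16775928))) (l 37211870167))))) (a (l 3) (b (a (l 3) (b (c (l 133848633079) (l 135459245799)) (l 3))) (l 3)))) (b (a (c (a (l 16775880) (l 16778496)) (l 16779168)) (l 16773984))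 (a (b (a (a (b (c (l 50096772711) (l 16776840)) (l 3)) (b (l 16775480) (c (l 110226310375) (l 78550933415)))) (c (c (l 18421388583) (l 16779896)) (l 16774496))) (a (l 3) (b (c (a (l 143512309239) (l 65666030759)) (l 83919645815)) (l 3)))) (b (c (l 16775960) (l 16770192)) (a (b (l 16779288) (c (a (l 130627406471) (l 51707386119)) (l 73182226871))) (l 16778976))))))), by decide +kernel⟩

def k15_pp_012_s : ∃ t, chk3 f_pp_012_s t 13 5 1 = true :=
  ⟨(a (b (b (a (b (l 16697104) (l 16728888)) (b (l 16686328) (l 16696920))) (a (b (a (l 16742120) (l 16736560)) (a (l 16730904) (l 16725336))) (b (a (l 16709984) (l 16704128)) (a (l 16737944) (l 16734512))))) (b (a (b (a (l 16740056) (l 16734440)) (c (l 16768256) (l 16765808))) (b (a (l 16728592) (l 16722432)) (a (l 16737264) (l 16731008)))) (a (a (b (l 16778888) (b (l 16775288) (l 16779944))) (b (l 16752144) (l 16776920))) (b (c (l 16765128) (l 16762664)) (a (l 16776008) (l 16769584)))))) (b (b (a (l 16711360) (l 16687928)) (a (c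 (l 16723040) (l 16696784)) (l 16706920))) (a (a (b (b (l 16731704) (l 16724456)) (b (l 16733120) (l 16741928))) (b (b (l 16709232) (l 16717640)) (b (l 16726224) (l 16734976)))) (b (b (l 16698768) (a (l 16710552) (l 16703280))) (b (a (l 16719072) (l 16711696)) (c (l 16746160) (l 16743896))))))), by decide +kernel⟩

def k16_pp_012_s : ∃ t, chk3 f_pp_012_s t 7 2 1 = true :=
  ⟨(b (a (b (l 6) (a (b (a (l 16613848) (l 6)) (a (l 16633432) (l 16619696))) (b (l 6) (a (l 16605664) (l 6))))) (l 6)) (a (a (b (a (b (l 16653152) (l 16671616)) (b (l 16638768) (l 16656752))) (b (a (l 16709184) (l 16694056)) (b (a (a (l 16704144) (l 16696536)) (l 16685080)) (a (a (l 16712736) (l 16704992)) (a (l 16697200) (l 16689496)))))) (b (a (b (l 16624104) (l 16641664)) (b (l 16609432) (l 16626600))) (a (b (l 16657832) (l 16694768)) (b (l 16663552) (l 16658720))))) (b (a (a (b (l 16594952) (l 16611792)) (b (l 6) (l 16597768))) (b (l 6) (a (l 16584800) (l 6)))) (a (a (b (l 16627896) (l 16665280)) (b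 (l 16614024) (l 16651832))) (a (b (l 16601152) (b (l 16613840) (l 16623888))) (b (l 16589064) (b (l 16601816) (l 16612016)))))))), by decide +kernel⟩

def k17_pp_012_s : ∃ t, chk3 f_pp_012_s t 12 6 1 = true :=
  ⟨(b (a (l 3) (b (a (l 3) (b (a (l 3) (a (l 3) (b (b (a (l 117205632775) (l 36138128951)) (l 144586053063)) (l 3)))) (l 3))) (l 3))) (l 3)), by decide +kernel⟩

def k18_pp_012_s : ∃ t, chk3 f_pp_012_s t 26 12 1 = true :=
  ⟨(b (a (b (a (a (a (b (b (l 16775176) (l 68887256999)) (l 3)) (b (l 16780192) (l 139217344231))) (b (l 16777984) (a (b (l 54928612263) (l 3)) (b (l 16775664) (l 119889987719))))) (b (l 16778720) (c (a (c (l 18421387495) (l 16779944)) (l 16771752)) (l 16780848)))) (a (l 3) (b (a (a (l 151028505703) (b (l 73182224631) (l 3))) (b (l 16780632) (a (l 139754212695) (l 51707387207)))) (l 3)))) (b (a (a (l 16776512) (l 16773328)) (c (l 16779480) (l 16767840))) (a (b (c (l 16779944) (l 16777008)) (a (b (a (l 89825224055) (a (l 52244254327) (l 16776288)))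 (l 3)) (a (b (l 16775072) (b (l 39896224503) (l 115595024167))) (c (l 16774848) (l 16774712))))) (a (c (l 16775080) (l 16774672)) (c (l 16777056) (l 16776480)))))) (a (l 3) (b (a (a (l 3) (b (c (l 158544699479) (l 156397215783)) (l 3))) (b (c (a (b (c (l 16781032) (l 16781656)) (l 140291084359)) (c (l 16779744) (l 16779680))) (a (b (l 16781616) (l 139217342519)) (l 16779568))) (a (l 3) (b (c (a (l 160692179575) (l 77477191735)) (l 84456518343)) (l 3))))) (l 3)))), by decide +kernel⟩

def k19_pp_012_s : ∃ t, chk3 f_pp_012_s t 27 12 1 = true :=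
  ⟨(b (a (a (b (c (l 16751880) (l 16771440)) (c (a (l 16773712) (l 16770312)) (l 16776480))) (b (c (l 16744968) (l 16743376)) (c (c (l 16765312) (l 16775320)) (l 16774568)))) (a (b (l 16757928) (c (l 16768352) (l 16746264))) (b (l 16729512) (l 16757720)))) (a (b (a (b (c (a (l 16771104) (l 16778168)) (l 16769040)) (a (c (b (l 16780456) (a (l 149954760103) (l 61371062887))) (b (l 16775112) (l 69961002599))) (c (l 16778408) (l 16772984)))) (b (c (l 16772920) (l 16782800)) (a (l 16780008) (l 16776400)))) (a (a (l 3) (b (b (a (l 83919643879) (l 16781752)) (l 169818986743)) (l 3))) (a (b (b (l 16773824) (c (l 30769423095) (l 16781976))) (b (l 161229050823) (l 3))) (b (l 16771656) (b (l 22716358583) (a (l 3) (l 68350387063))))))) (b (a (b (l 16765328) (a (l 16762256) (l 16758552))) (a (l 16772976) (l 16769184))) (a (b (l 16771384) (a (b (l 16772384) (l 16780600)) (l 16780632))) (b (l 16769120) (c (l 16775120) (l 16774816))))))), by decide +kernel⟩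

def k20_pp_012_s : ∃ t, chk3 f_pp_012_s t 13 13 1 = true :=
  ⟨(a (l 3) (b (a (l 3) (b (a (b (a (b (a (l 170892726327) (l 50633645735)) (l 3)) (b (l 16779864) (a (l 152639113911) (b (l 16775944) (l 54391739815))))) (l 3)) (b (a (a (l 16778552) (l 16776656)) (l 16773792)) (a (b (a (b (l 40969966151) (l 170892724951)) (a (l 26474449703) (l 16775472))) (a (l 3) (b (l 156934079191) (l 3)))) (b (c (l 16775752) (l 16775664)) (a (b (c (l 16778960) (l 16778944)) (a (l 177872046263) (a (l 97878281751) (l 41506834951)))) (c (l 16777824) (l 16777776))))))) (a (l 3) (b (a (l 3) (b (a (l 3) (b (a (c (l 158007821767) (l 158544692663)) (a (b (l 16776856) (l 113447537047)) (l 16778072))) (l 3))) (l 3))) (l 3))))) (l 3))), by decide +kernel⟩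

def k21_pp_012_s : ∃ t, chk3 f_pp_012_s t 6 7 1 = true :=
  ⟨(l 3), by decide +kernel⟩

def k22_pp_012_s : ∃ t, chk3 f_pp_012_s t 28 12 1 = true :=
  ⟨(b (a (b (c (l 16739624) (l 16738232)) (a (l 16752688) (l 16744896))) (a (a (l 16734136) (l 16730168)) (a (l 16726200) (l 16722264)))) (a (b (a (l 16763424) (l 16755608)) (a (c (l 16769792) (l 16769368)) (l 16763080))) (b (a (l 16747688) (l 16718728)) (a (l 16756448) (l 16751008))))), by decide +kernel⟩

def k23_pp_012_s : ∃ t, chk3 f_pp_012_s t 56 26 1 = true :=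
  ⟨(b (a (b (c (l 16773368) (l 16773120)) (a (b (l 16774480) (c (l 16777568) (l 16777480))) (l 16772112))) (a (a (l 16772048) (l 16769424)) (l 16769072))) (a (b (b (a (a (b (l 16776864) (a (a (l 151028499623) (b (l 16776944) (l 171966464999))) (c (c (l 19495126263) (l 18421384423)) (l 16777912)))) (l 16776512)) (l 16775400)) (a (a (a (l 3) (a (l 3) (b (l 158007821655) (l 3)))) (b (a (b (l 16777776) (a (l 180556399767) (l 76403443527))) (l 16777520)) (a (l 3) (a (l 170892723719) (b (l 64592282663) (l 3)))))) (a (b (l 16777368) (b (l 16777216) (a (a (l 85530248551) (l 16777584)) (l 16776192)))) (l 16776192)))) (a (l 3) (b (a (b (b (a (l 169282110871) (a (l 65129153495) (l 16776720))) (a (l 3) (a (l 3) (l 143512306215)))) (l 3)) (a (a (b (c (l 16777608) (l 16777928)) (l 182167013207)) (b (l 16776136) (b (a (l 91435828999) (l 59760444631)) (l 3)))) (b (l 16778024) (b (l 16777872) (a (l 153175982807) (a (l 65129153831) (l 16776968))))))) (l 3)))) (b (a (a (l 16775632) (l 16773336))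 (l 16772992)) (b (a (a (a (a (l 16777080) (l 16776256)) (l 16776832)) (l 16775352)) (l 16773696)) (b (a (a (b (a (a (a (l 152102240823) (l 70497863031)) (l 16777544)) (l 16776152)) (a (c (l 167671498071) (l 169282110791)) (a (b (l 16776976) (l 88751474167)) (l 16776680)))) (c (l 16776384) (l 16776360))) (l 16775368)) (a (b (a (a (l 3) (a (l 3) (b (l 73182217431) (l 183240754007)))) (a (a (a (l 28621931319) (l 16776840)) (l 16776472)) (l 16775728))) (a (l 3) (a (a (l 171966465031) (b (l 16777712) (l 100562634391))) (l 16777824)))) (a (l 16777256) (l 16775272)))))))), by decide +kernel⟩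

def k24_pp_012_s : ∃ t, chk3 f_pp_012_s t 57 26 1 = true :=
  ⟨(b (a (b (l 16767936) (l 16763496)) (l 16757656)) (a (a (b (l 16771624) (a (l 16773568) (l 16771568))) (b (l 16767608) (l 16768552))) (a (l 16767336) (l 16762944)))), by decide +kernel⟩

def k25_pp_012_s : ∃ t, chk3 f_pp_012_s t 56 27 1 = true :=
  ⟨(b (a (l 3) (b (a (b (a (l 3) (a (l 3) (b (a (a (l 183777625687) (c (b (l 140827951495) (l 3)) (l 160692175975))) (b (a (a (l 78550926151) (l 29158802087)) (l 16777576)) (l 184314496151))) (l 3)))) (l 3)) (b (b (a (a (b (l 16777608) (a (b (l 32916898535) (l 162839659095)) (l 16777488))) (l 16777008)) (l 16776832)) (b (a (b (a (a (l 3) (a (l 3) (l 82309022663))) (l 16777328)) (a (l 3) (a (a (l 112373794023) (l 16777512)) (l 16776816)))) (l 16776528)) (a (a (l 3) (a (l 3) (b (a (l 89825215511) (l 16777080)) (l 175187690215)))) (a (a (a (b (l 16776832) (l 67813507911)) (l 16776776)) (l 16776408)) (l 16775664))))) (a (l 3) (a (b (b (a (a (l 3) (l 162839659159)) (b (l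 16777648) (a (l 183777624631) (l 75329700743)))) (l 3)) (l 3)) (b (b (l 16777424) (a (a (l 167671497447) (b (l 16777480) (l 3))) (b (l 16776776) (a (l 82845893575) (l 16777048))))) (a (l 3) (a (l 3) (b (l 172503335719) (l 3))))))))) (l 3))) (l 3)), by decide +kernel⟩

def k26_pp_012_s : ∃ t, chk3 f_pp_012_s t 114 108 1 = true :=
  ⟨(b (a (c (l 16776016) (l 16775912)) (l 16773232)) (a (a (a (b (c (l 16777152) (l 16777144)) (b (a (b (c (l 22716351063) (l 16777064)) (c (l 152639111639) (l 102710118039))) (l 16777576)) (a (l 3) (a (l 181630141287) (b (a (l 83919635255) (l 16777488)) (l 3)))))) (b (l 16777456) (b (l 16777320) (b (l 16777256) (a (a (c (l 114521277191) (l 114521277191)) (l 16777440)) (l 16776736)))))) (a (b (l 16773840) (l 16776720)) (l 16776248))) (c (l 16775064) (l 16775056)))), by decide +kernel⟩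

def k27_pp_012_s : ∃ t, chk3 f_pp_012_s t 228 109 1 = true :=
  ⟨(b (b (b (a (a (l 3) (a (l 185925108871) (b (a (a (l 93046440871) (l 16777520)) (l 16777008)) (c (l 164450271815) (l 164987142727))))) (a (a (a (b (l 16776752) (l 29695672839)) (l 16776704)) (l 16776328)) (l 16776896))) (a (l 3) (a (a (a (l 186998850519) (b (a (l 102173246439) (l 68887249607)) (l 3))) (b (l 16777568) (a (l 162839658903) (c (l 59223573223) (l 16777176))))) (l 16777184)))) (a (l 3) (a (l 3) (a (b (b (a (a (l 110763181095) (l 77477184263)) (l 16777400)) (l 175187690183)) (l 3)) (a (b (a (b (l 16776880) (l 81772151639)) (l 8220836311)) (l 3)) (b (l 16777424) (a (l 178945786599) (b (l 86067118951) (l 3))))))))) (l 3)), by decide +kernel⟩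

def k28_pp_012_s : ∃ t, chk3 f_pp_012_s t 229 109 1 = true :=
  ⟨(b (a (b (l 16776448) (b (c (l 16776800) (l 16776952)) (a (a (b (c (l 16777464) (l 16776976)) (a (l 178408915463) (a (l 89825215367) (l 66739765671)))) (l 16777328)) (l 16777240)))) (c (l 16775896) (l 16775888))) (a (b (a (b (a (l 3) (b (a (b (l 87677731559) (l 3)) (c (l 27011318247) (l 16777128))) (l 186461979447))) (l 3)) (a (a (b (b (l 16776880) (b (l 16777504) (l 113984406455))) (l 3)) (b (l 16777480) (b (l 159618433399) (l 3)))) (b (l 16777112) (b (b (l 16777592) (a (l 80161538743) (l 16777008))) (a (l 3) (b (l 63518540375) (l 122574341095))))))) (l 3)) (b (a (a (c (c (l 16777336) (l 16777328)) (l 16777328)) (l 16776832)) (l 16776416)) (b (b (a (a (a (l 167134626215) (b (l 16777096) (l 89288344311))) (l 16777472)) (l 16777384)) (a (a (l 3) (a (b (l 72108475015) (l 126332437543)) (c (l 16777408) (l 16777080)))) (l 16777120))) (a (a (l 3) (a (l 3) (b (l 173040206311) (l 3)))) (a (b (a (b (l 16777448) (l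 98415149911)) (l 16776968)) (a (l 3) (a (l 174113948039) (b (l 16777200) (l 3))))) (a (b (l 16776720) (b (l 16777008) (l 64055411287))) (l 16777320)))))))), by decide +kernel⟩

def k29_pp_012_s : ∃ t, chk3 f_pp_012_s t 115 54 1 = true :=
  ⟨(b (a (c (l 16770800) (l 16770816)) (l 16766872)) (b (a (c (l 16774216) (l 16774216)) (l 16771568)) (a (a (a (a (b (l 16774368) (l 16776728)) (l 16776608)) (l 16776192)) (l 16775040)) (l 16773384)))), by decide +kernel⟩

def k30_pp_012_s : ∃ t, chk3 f_pp_012_s t 114 55 1 = true :=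
  ⟨(b (a (l 3) (b (b (b (b (a (l 3) (a (l 3) (a (l 3) (a (l 180019528215) (b (l 16777480) (l 107005084551)))))) (l 3)) (l 3)) (l 3)) (l 3))) (l 3)), by decide +kernel⟩

def k31_pp_012_s : ∃ t, chk3 f_pp_012_s t 230 110 1 = true :=
  ⟨(a (b (b (a (a (b (b (l 16777528) (a (c (c (l 154786595143) (l 132238017159)) (l 132238017159)) (a (b (l 16777104) (l 101636375175)) (l 16777400)))) (b (l 186998850359) (l 3))) (b (l 16777224) (a (b (b (l 23790092823) (l 115595019191)) (l 3)) (b (l 16777352) (c (l 161229046135) (l 138680468151)))))) (b (l 16777144) (a (a (b (l 16776776) (b (l 16777064) (c (l 81235280535) (l 16777584)))) (l 16777376)) (l 16777008)))) (a (l 3) (b (b (a (a (l 3) (b (a (l 88751473223) (l 16777144)) (l 123648082919))) (c (c (l 16777416) (l 16777584)) (l 16777584))) (a (l 3) (a (c (l 167134626215) (l 168745238935)) (b (l 16777416) (c (l 89288344263) (l 88214602439)))))) (l 3)))) (l 3)) (a (a (b (b (l 16776784) (b (l 16777280) (a (b (b (a (l 100025762423) (l 16777168))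 (l 184851366279)) (l 3)) (b (c (l 17347641719) (l 16777080)) (l 173577077207))))) (l 3)) (b (b (l 16776288) (b (l 16777440) (a (b (l 16776832) (b (l 16777448) (a (l 163376529863) (l 81772151335)))) (l 16777432)))) (a (l 3) (b (b (b (a (l 173040206199) (b (l 16777352) (l 3))) (l 3)) (l 3)) (l 3))))) (b (b (l 16775552) (c (l 16776760) (l 16777080))) (b (b (a (a (b (a (b (l 16777064) (l 87140860487)) (l 16777040)) (l 179482657287)) (b (l 16776856) (b (l 16777384) (c (l 105394471719) (l 104320729927))))) (c (l 16777328) (l 16777328))) (a (l 3) (a (b (a (l 180556399015) (b (l 16777424) (l 3))) (l 3)) (b (b (l 16777032) (a (l 97878278759) (l 16777160))) (l 185925108263))))) (l 3))))), by decide +kernel⟩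

def k32_pp_012_s : ∃ t, chk3 f_pp_012_s t 231 110 1 = true :=
  ⟨(b (a (c (l 16776152) (l 16776144)) (l 16774176)) (b (a (a (b (l 16777248) (b (l 16777080) (a (a (c (b (l 16777456) (l 113447535479)) (l 94120182343)) (l 16777344)) (l 16777304)))) (l 16776648)) (l 16775824)) (a (b (b (a (b (a (a (l 3) (a (l 125258695431) (l 79087796759))) (l 16777256)) (a (l 3) (a (a (l 108078826135) (l 16777512)) (l 16777000)))) (l 16776944)) (a (a (l 3) (a (l 3) (c (b (l 71571603815) (l 120963728295)) (l 100025762407)))) (c (c (l 16777408) (l 16777320)) (l 16777320)))) (a (l 3) (b (a (a (c (c (l 164987142535) (l 164987142535)) (l 166060884343)) (b (l 16777080) (a (l 118816244423) (l 16777368)))) (l 16777456)) (a (l 3) (a (b (c (l 79624667543) (l 16777544)) (l 180019528039)) (c (l 13052674391) (l 16777056))))))) (a (c (a (l 16776776) (l 16776936)) (l 16776856)) (l 16776200))))), by decide +kernel⟩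

def k33_pp_012_s : ∃ t, chk3 f_pp_012_s t 115 111 1 = true :=
  ⟨(a (l 3) (b (b (b (a (a (l 3) (a (l 3) (a (l 3) (b (c (l 169818980791) (l 171429593511)) (l 3))))) (a (a (a (b (b (l 16777424) (a (l 125795566311) (l 74255958535))) (l 3)) (b (l 16777600) (b (a (l 103783858823) (l 16777496)) (l 187535720839)))) (a (a (b (l 16776760) (b (l 16777048) (l 79087796759))) (l 16777488)) (l 16777304))) (l 16776768))) (a (l 3) (a (b (a (l 3) (a (c (l 175724560855) (l 177335173575)) (b (l 16777448) (a (l 127943050007) (l 83919634983))))) (l 3)) (a (b (l 16777336) (a (b (a (l 112910664359) (l 16777360)) (l 3)) (a (b (l 16777072) (l 88214602311)) (l 16777368)))) (l 16777200))))) (b (a (l 3) (a (l 3) (a (a (l 3) (b (l 181630140919) (l 3))) (a (b (b (l 20568867159) (a (l 3) (l 93046440535))) (l 3)) (b (l 16777320) (a (l 181630140823) (b (l 16777456) (l 3)))))))) (l 3))) (l 3))), by decide +kernel⟩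

def k34_pp_012_s : ∃ t, chk3 f_pp_012_s t 29 12 1 = true :=
  ⟨(b (b (a (l 16707736) (l 16672920)) (a (b (l 16716216) (l 16722272)) (a (l 16689592) (l 16683080)))) (a (b (l 16730624) (c (l 16737368) (l 16741240))) (a (b (l 16722680) (l 16733304)) (b (b (l 16692760) (l 16698712)) (l 16706592))))), by decide +kernel⟩

def k35_pp_012_s : ∃ t, chk3 f_pp_012_s t 29 26 1 = true :=
  ⟨(a (b (a (l 16756448) (l 16750176)) (a (l 16760344) (l 16750968))) (b (a (b (l 16720312) (l 16725704)) (l 16737864)) (a (l 16744376) (l 16748360)))), by decide +kernel⟩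

def k36_pp_012_s : ∃ t, chk3 f_pp_012_s t 58 54 1 = true :=
  ⟨(b (a (l 16763984) (l 16759512)) (a (a (l 16769224) (l 16765496)) (l 16762656))), by decide +kernel⟩

def k37_pp_012_s : ∃ t, chk3 f_pp_012_s t 116 110 1 = true :=
  ⟨(b (a (l 16772536) (l 16769976)) (a (a (a (l 16775768) (l 16774784)) (l 16773312)) (l 16771680))), by decide +kernel⟩

def k38_pp_012_s : ∃ t, chk3 f_pp_012_s t 232 111 1 = true :=
  ⟨(a (a (b (b (l 16776744) (a (b (a (b (l 16776744) (b (l 16777024) (a (l 97341407847) (l 16777152)))) (l 16777344)) (b (a (l 186998850071) (b (c (l 16777408) (l 16777160)) (c (l 112910664551) (l 111836922727)))) (l 3))) (b (l 16776976) (b (l 16777464) (a (a (l 188609462711) (b (l 76940313095) (l 3))) (b (l 16777048) (a (l 105931342471) (l 16777176)))))))) (b (a (l 3) (b (b (l 189683204903) (l 3)) (l 3))) (l 3))) (b (b (l 16775760) (c (c (l 16776944) (l 16776944)) (l 16776944))) (b (b (b (a (a (b (c (l 32380027223) (l 16777184)) (c (l 118816244663) (l 118279373703)))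 (l 16777360)) (l 16777320)) (b (a (a (l 3) (a (l 3) (l 85530247735))) (l 16777272)) (a (l 3) (a (a (l 114521277095) (l 16777360)) (l 16777008))))) (a (l 3) (a (l 3) (b (b (c (l 75866571143) (l 16777528)) (l 125258695671)) (l 3))))) (l 3)))) (a (b (b (l 16776088) (l 16776296)) (a (b (b (l 16777016) (b (c (l 16777416) (l 16777576)) (a (c (l 167671497111) (l 169282109831)) (b (l 16777088) (a (l 124184953559) (l 16777376)))))) (l 3)) (b (c (l 16777064) (l 16776904)) (b (a (b (b (c (l 70497862215) (l 16777544)) (l 127406179351)) (l 3)) (b (c (l 16777392) (l 16777392)) (c (l 172503335351) (l 173577077159)))) (l 3))))) (b (l 16775208) (b (c (l 16776824) (l 16776824)) (a (b (a (b (l 16776824) (b (l 16777432) (c (l 94120182519) (l 93046440695)))) (l 16777416)) (a (l 3) (b (b (c (l 75866571367) (l 74792829527)) (l 189683204487)) (l 3)))) (b (l 16777048) (b (c (c (l 4999610839) (l 16777448)) (l 16777616)) (a (l 177872044487) (b (l 16777448) (c (l 99488891671) (l 98952020759))))))))))),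 by decide +kernel⟩

def k39_pp_012_s : ∃ t, chk3 f_pp_012_s t 233 111 1 = true :=
  ⟨(b (c (l 16774392) (l 16774072)) (b (a (l 16776008) (l 16774712)) (a (a (a (b (l 16775904) (l 16777232)) (l 16777104)) (l 16776368)) (l 16775560)))), by decide +kernel⟩

def k40_pp_012_s : ∃ t, chk3 f_pp_012_s t 117 55 1 = true :=
  ⟨(a (b (l 16767720) (a (b (l 16773112) (l 16773512)) (l 16772048))) (b (l 16764032) (c (l 16769976) (l 16769792)))), by decide +kernel⟩

def k41_pp_012_s : ∃ t, chk3 f_pp_012_s t 59 27 1 = true :=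
  ⟨(b (a (b (l 16752616) (l 16758200)) (c (l 16749136) (l 16748080))) (a (b (l 16761224) (a (l 16766152) (l 16762488))) (b (l 16756752) (l 16759680)))), by decide +kernel⟩

def k42_pp_012_s : ∃ t, chk3 f_pp_012_s t 28 7 1 = true :=
  ⟨(l 3), by decide +kernel⟩

def k43_pp_012_s : ∃ t, chk3 f_pp_012_s t 116 56 1 = true :=
  ⟨(b (a (l 3) (b (a (b (a (b (b (a (a (b (c (l 81235280519) (l 80161538679)) (l 3)) (c (c (l 11978932823) (l 16777424)) (l 16777424))) (l 16776728)) (a (c (l 184314495703) (l 185925108423)) (a (b (l 16777464) (c (l 104857600855) (l 104320729911))) (l 16777640)))) (a (l 3) (a (l 3) (b (a (l 180556398983) (b (l 16777536) (l 3))) (l 3))))) (a (b (l 16777088) (a (b (a (b (l 16777080) (l 94120182359)) (l 16777056)) (l 185388237319)) (b (l 16776872) (b (l 16777480) (l 109689439095))))) (c (c (l 16777136) (l 16777296)) (l 16777136)))) (b (a (l 3) (a (l 3) (b (a (c (c (l 156397207863) (l 134385500791)) (l 135996113511)) (b (l 16777032) (l 72645345943))) (l 190220075783))))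 (l 3))) (a (b (c (l 16776568) (l 16776240)) (a (a (b (b (l 16776888) (b (l 16777496) (l 113984406455))) (l 3)) (b (l 16777480) (b (b (l 95730795303) (l 3)) (l 3)))) (b (l 16777120) (a (b (b (l 16777048) (l 77477184183)) (l 191830688311)) (b (l 16776896) (b (l 16777512) (l 118816244695))))))) (b (l 16775920) (b (l 16777040) (c (c (l 16777296) (l 16777128)) (l 16777296)))))) (b (a (l 3) (a (l 3) (a (b (b (a (l 164987142487) (b (l 16777064) (l 81772151511))) (l 3)) (l 3)) (a (b (b (l 16776912) (b (l 16777520) (l 123111212007))) (l 3)) (b (l 16777512) (b (l 167671497079) (l 3))))))) (l 3)))) (l 3)), by decide +kernel⟩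

def k44_pp_012_s : ∃ t, chk3 f_pp_012_s t 234 56 1 = true :=
  ⟨(a (b (a (b (c (l 16776344) (l 16776344)) (b (b (l 16776904) (a (a (b (b (l 16777080) (l 85530247911)) (l 3)) (b (l 16776928) (b (l 66739765847) (l 126869308455)))) (c (l 16777400) (l 16777400)))) (b (b (a (l 3) (a (l 170892722567) (a (l 77477184279) (l 16777448)))) (l 3)) (l 3)))) (b (l 16775368) (b (c (l 16776296) (l 16776296)) (b (a (a (b (l 16776936) (c (l 120426856951) (l 119889986039))) (l 16777536)) (l 16777168)) (a (b (l 178945786503) (l 3)) (a (b (a (l 80698409767) (l 16777464)) (l 3)) (b (l 16776952) (a (l 116131890279) (l 81772151607))))))))) (l 3)) (b (b (l 16774568) (b (l 16775824) (b (l 16776608) (a (a (a (l 16777544) (l 16776648)) (l 16776280)) (l 16776864))))) (b (a (b (a (b (a (l 182703883015) (b (a (l 83382764343) (l 16777472)) (l 3))) (l 3)) (a (b (b (l 16776960) (a (l 118816244871) (l 84456506183))) (l 3)) (b (l 16777560) (l 184314495767)))) (l 3)) (b (b (l 16776952) (a (a (b (a (l 85530248023)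 (l 16777480)) (l 3)) (b (l 16776968) (c (l 126332437047) (l 127406178855)))) (c (l 16777448) (l 16777448)))) (b (a (l 3) (a (l 185925108519) (b (c (l 70497862471) (l 87677731319)) (l 3)))) (l 3)))) (l 3)))), by decide +kernel⟩

def k45_pp_012_s : ∃ t, chk3 f_pp_012_s t 235 56 1 = true :=
  ⟨(a (b (b (l 16772616) (a (l 16775432) (l 16775120))) (b (b (a (c (l 16777000) (l 16776344)) (l 16776032)) (a (b (b (l 16777272) (a (a (c (l 127943049799) (l 129553662519)) (l 16777432)) (l 16776744))) (a (c (l 186998850599) (l 189683205127)) (b (a (c (l 90362085895) (l 89825214983)) (l 16776992)) (c (l 163376529911) (l 164987142631))))) (b (l 16777136) (a (c (l 16777464) (l 16777464)) (l 16776320))))) (b (a (l 3) (a (b (a (l 187535721287) (b (c (l 73719087975) (l 91435827735)) (l 3))) (l 3)) (b (b (l 16776872) (a (c (l 131164275303) (l 132238017111)) (l 16777448))) (l 189683205175)))) (l 3)))) (b (b (l 16773328) (l 16773656)) (a (b (b (l 16773744) (l 16776536)) (b (b (l 16776984) (a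 (b (a (c (l 74792829799) (l 93046440487)) (l 16777000)) (c (l 166060884487) (l 167671497207))) (c (l 16777480) (c (l 16777480) (l 16777480))))) (b (a (l 3) (a (l 189146334055) (b (c (l 75866571639) (l 95193924135)) (l 3)))) (l 3)))) (b (l 16775480) (b (c (l 16777040) (l 16776384)) (b (b (l 16777464) (a (a (c (l 134385500791) (l 135459242615)) (l 26474447351)) (l 16776768))) (a (l 189683205191) (b (a (a (l 123648082439) (l 75329700311)) (l 16777016)) (c (l 167134626343) (l 168745239063)))))))))), by decide +kernel⟩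

def k46_pp_012_s : ∃ t, chk3 f_pp_012_s t 58 57 1 = true :=
  ⟨(l 3), by decide +kernel⟩

def k47_pp_012_s : ∃ t, chk3 f_pp_012_s t 59 56 1 = true :=
  ⟨(a (b (a (b (l 16770496) (l 16772096)) (l 16768208)) (a (a (b (l 16774680) (b (l 16775912) (a (a (b (l 16776104) (a (b (l 16776776) (l 27548189191)) (l 16776712))) (l 16776640)) (l 16776568)))) (b (l 16772752) (a (l 16775520) (l 16775208)))) (b (l 16769904) (a (l 16773760) (l 16771848))))) (b (a (l 16764504) (l 16760848)) (a (c (l 16770296) (l 16770136)) (l 16766480)))), by decide +kernel⟩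

def k48_pp_012_s : ∃ t, chk3 f_pp_012_s t 236 114 1 = true :=
  ⟨(b (b (a (a (a (b (a (l 189146334071) (b (c (l 78014055399) (l 97341407815)) (l 3))) (l 3)) (b (b (l 16777552) (a (c (l 137606726279) (l 138143597191)) (c (l 16777480) (l 17347642039)))) (l 189683205207))) (b (l 16777008) (a (b (a (a (l 126332437015) (l 81235280279)) (l 16777024)) (c (l 168208368183) (l 169818980903))) (b (l 16776664) (c (l 16777480) (a (l 17884512951) (l 16776904))))))) (a (c (l 16777064) (l 16776408)) (l 16776096))) (a (b (b (a (l 3) (a (l 3) (a (l 189683204647) (c (l 79087797239) (l 108615696807))))) (l 3)) (l 3)) (a (b (a (b (l 16777560) (a (c (l 139217339031) (l 139754209943)) (c (l 16777488) (l 18421383879)))) (l 16777264)) (b (a (l 189146333975) (a (a (l 100025762759) (l 83382763927)) (l 16777360))) (a (l 3) (c (l 169282110007) (l 170892722727))))) (a (b (l 16776120) (b (l 16776672) (a (a (l 80161538535) (l 16777096)) (l 16776912)))) (l 16776984))))) (b (a (l 3) (a (l 3) (b (b (a (a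 (l 189146333751) (a (l 129016791591) (l 83919634839))) (l 16777568)) (a (l 3) (a (c (l 107541955815) (l 161229046103)) (a (l 84456505751) (l 16777096))))) (l 3)))) (l 3))), by decide +kernel⟩

def k49_pp_012_s : ∃ t, chk3 f_pp_012_s t 237 114 1 = true :=
  ⟨(a (b (a (c (l 16776520) (l 16776184)) (l 16775544)) (a (a (b (b (l 16777264) (a (b (b (l 16777520) (l 115595019223)) (l 3)) (b (l 16777360) (l 161229046103)))) (l 3)) (a (b (b (l 16776248) (b (l 16776792) (a (l 83382763943) (l 16777096)))) (l 3)) (b (l 16777024) (b (b (a (l 133848629719) (l 82845893031)) (l 3)) (l 3))))) (b (c (l 16777072) (l 16776744)) (b (a (b (l 16777568) (a (l 160692175191) (a (l 82845893031) (l 16777096)))) (l 16777272)) (a (l 3) (a (b (b (l 16777520) (l 115058148311)) (l 3)) (b (l 16777368) (l 160692175191)))))))) (b (l 16774752) (a (b (l 16776104) (a (b (l 16776128) (b (l 16776672) (a (a (l 82309022119) (l 16777424)) (l 16776912)))) (l 16776824))) (c (l 16776528) (l 16776192))))), by decide +kernel⟩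

def k50_pp_012_s : ∃ t, chk3 f_pp_012_s t 119 114 1 = true :=
  ⟨(b (a (c (l 16771936) (l 16771856)) (l 16770728)) (a (a (a (l 16775560) (l 16775248)) (l 16773808)) (l 16772264))), by decide +kernel⟩

def k51_pp_012_s : ∃ t, chk3 f_pp_012_s t 118 115 1 = true :=
  ⟨(a (l 3) (b (a (l 3) (b (b (b (a (a (a (l 3) (b (l 54391734887) (l 114521277399))) (l 16777408)) (l 16776848)) (a (a (l 3) (a (l 159618433367) (a (a (l 73182216903) (l 53317992983)) (l 16777424)))) (l 16777208))) (a (l 3) (b (a (a (b (l 53317993063) (l 113447535623)) (l 16777360)) (l 16776672)) (a (b (c (l 159618433431) (l 162839658887)) (l 3)) (a (a (b (l 16777128) (l 102710117015)) (l 16777424)) (l 16776912)))))) (b (b (a (l 3) (a (l 3) (a (l 186998850103) (b (l 50633638487) (l 110226310135))))) (l 3)) (l 3)))) (l 3))), by decide +kernel⟩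

def k52_pp_012_s : ∃ t, chk3 f_pp_012_s t 119 115 1 = true :=
  ⟨(a (b (b (a (a (c (l 16777080) (l 16776744)) (l 16776112)) (l 16774664)) (a (b (a (a (b (l 16777400) (a (c (l 135996113559) (l 158544691527)) (a (b (l 16777120) (l 101099504279)) (l 16777424)))) (l 16777264)) (l 16776536)) (a (a (c (l 185925108839) (l 188609463367)) (a (b (b (l 49559896631) (l 109152568311)) (l 3)) (b (l 16777360) (c (l 100562634023) (l 156934078791))))) (b (l 16777080) (a (a (a (a (l 68350378679) (l 16777472)) (l 16777416)) (l 16776904)) (l 16776544))))) (a (l 16776592) (l 16775624)))) (b (a (a (l 3) (b (b (a (a (l 186461979175) (b (l 47949283879) (l 107541955559))) (l 16777400)) (a (l 3) (a (c (l 99488892183) (l 156397207863)) (a (a (l 66739765943) (l 16777504)) (l 16777088))))) (a (l 3) (a (l 3) (l 186461979495))))) (b (a (a (l 16777256) (l 16776120)) (l 16776704)) (a (a (a (b (a (l 124721824199) (a (l 65666024119) (l 16777504))) (l 3)) (b (l 16777352) (c (l 97878279447) (l 154786595127))))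 (a (a (b (l 16776840) (a (l 64592282279) (l 16777504))) (l 16777560)) (l 16776720))) (l 16776768)))) (b (a (l 3) (a (a (l 3) (a (l 185925108583) (b (a (l 123648082359) (l 72645345671)) (l 3)))) (a (b (l 16777552) (a (a (l 182703882663) (l 122574340535)) (a (l 71034732935) (l 16777080)))) (l 16777248)))) (a (l 3) (a (l 3) (a (c (l 184851366983) (l 188072592407)) (a (b (a (l 120963727799) (l 71034732919)) (l 3)) (b (l 16777344) (a (l 181093269911) (l 116668760567)))))))))) (a (b (c (l 16774800) (l 16774768)) (b (c (l 16775632) (l 16775616)) (a (a (a (b (l 16776232) (a (b (l 16776832) (l 69424120183)) (l 16777544))) (l 16777008)) (l 16776808)) (l 16776576)))) (b (l 16772864) (a (l 16775552) (l 16775240))))), by decide +kernel⟩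

def k53_pp_012_s : ∃ t, chk3 f_pp_012_s t 29 29 1 = true :=
  ⟨(a (l 3) (b (a (l 3) (b (a (l 3) (b (a (b (a (b (b (a (a (l 182167011831) (a (l 115058147831) (l 67813507447))) (l 16777544)) (a (l 3) (a (a (l 178945786247) (l 114521276903)) (a (l 63518540215) (l 16777064))))) (a (l 3) (a (l 3) (l 183240753975)))) (a (b (l 16777240) (b (a (a (l 112910664167) (l 61907927479)) (l 16777328)) (a (l 3) (a (l 175724560759) (b (l 16777208) (l 3)))))) (b (l 16776096) (a (a (b (l 16776816) (l 60834185639)) (l 16777536)) (l 16776696))))) (b (b (a (l 3) (a (l 3) (a (l 177335173607) (a (b (l 16777208) (l 3)) (l 59223572903))))) (l 3)) (l 3))) (a (b (c (l 16777048) (l 16776720)) (b (a (b (l 16777528) (a (b (a (l 108078826167) (l 16777200)) (l 3)) (a (l 58149831063) (l 16777048)))) (l 16777224)) (a (a (l 3) (a (l 3) (l 178945786535))) (a (b (a (b (l 16777200) (l 3)) (l 56002347415)) (l 3)) (b (l 16776984) (b (a (l 103246987943) (l 16777192)) (l 3))))))) (b (l 16776080) (a (a (b (l 16776208)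 (a (b (l 16776800) (l 54391734663)) (l 16777512))) (l 16776976)) (l 16776776))))) (a (l 3) (a (l 3) (b (b (b (a (a (l 171429593543) (b (l 16777456) (c (l 86603989815) (l 88214602551)))) (l 16777512)) (a (l 3) (a (b (a (l 98415149719) (l 16777184)) (l 122574341223)) (c (l 16777096) (l 16777416))))) (a (l 3) (a (l 3) (b (l 168745238967) (l 3))))) (l 3)))))) (l 3))) (l 3))), by decide +kernel⟩

def k54_pp_012_s : ∃ t, chk3 f_pp_012_s t 29 15 1 = true :=
  ⟨(l 3), by decide +kernel⟩

def k55_pp_012_s : ∃ t, chk3 f_pp_012_s t 15 6 1 = true :=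
  ⟨(a (b (a (b (b (l 16660464) (a (l 16655440) (l 16690704))) (b (a (l 16688968) (l 16681936)) (a (b (l 16697936) (l 16703264)) (b (l 16690968) (l 16696760))))) (b (b (l 16650472) (a (l 16684024) (l 16656400))) (a (b (l 16674920) (l 16686648)) (b (l 16667936) (l 16679368))))) (b (a (b (a (l 16710760) (b (l 16702120) (l 16707008))) (a (l 16741904) (l 16735440))) (a (b (b (l 16695256) (l 16700632)) (l 16707976)) (b (l 16701152) (b (l 16698864) (l 16703800))))) (a (b (a (l 16737224) (a (l 16747248) (l 16722912))) (a (a (l 16754248) (l 16750744)) (b (l 16742848) (l 16737648)))) (b (a (c (l 16718848) (l 16737952)) (b (l 16708624) (l 16713520))) (a (l 16733936) (l 16724976)))))) (b (b (a (a (b (l 16638384) (l 16649776)) (b (l 16632112) (l 16643200))) (a (b (l 16625872) (l 16636672)) (b (l 16619680) (c (l 16631608) (l 16629000))))) (b (a (a (l 16661016) (l 16654144)) (a (l 16649968) (c (l 16642048) (l 16639384)))) (a (a (c (l 16673720) (l 16670760)) (c (l 16666536) (l 16663672)))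 (a (c (l 16659416) (l 16656672)) (c (l 16652384) (l 16649776)))))) (b (a (b (a (l 16683240) (l 16675840)) (a (b (l 16691536) (l 16696840)) (l 16686656))) (b (a (l 16668536) (b (l 16658728) (l 16663912))) (a (l 16679128) (a (l 16673552) (l 16669880))))) (a (b (a (b (l 16701896) (l 16706672)) (b (l 16694648) (l 16705016))) (a (b (l 16711544) (l 16716512)) (c (l 16707968) (l 16727192)))) (b (a (b (l 16687064) (l 16692344)) (a (l 16684024) (l 16680256))) (b (a (a (l 16699376) (l 16695696)) (l 16690000)) (a (l 16702424) (a (l 16697080) (l 16693312))))))))), by decide +kernel⟩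

def k56_pp_012_s : ∃ t, chk3 f_pp_012_s t 30 28 1 = true :=
  ⟨(a (b (a (b (l 16755416) (c (l 16761144) (l 16760792))) (b (l 16753480) (l 16753656))) (a (a (b (l 16768400) (b (l 16771320) (a (l 16773808) (l 16771896)))) (b (l 16764672) (c (l 16770352) (l 16770216)))) (b (l 16761744) (a (l 16766512) (l 16762776))))) (b (a (a (l 16750800) (l 16736720)) (l 16739184)) (a (b (l 16757008) (l 16759808)) (a (l 16754200) (l 16750512))))), by decide +kernel⟩

def k57_pp_012_s : ∃ t, chk3 f_pp_012_s t 240 58 1 = true :=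
  ⟨(a (b (a (b (b (l 16773808) (l 16776552)) (b (b (c (l 16776312) (l 16776960)) (a (b (a (a (l 98952020391) (l 16777392)) (l 16776968)) (a (l 3) (b (l 62444798679) (l 122037470279)))) (c (l 16777440) (c (l 16777440) (l 16777432))))) (b (b (a (l 3) (a (l 166597755287) (a (l 95193923991) (l 16777464)))) (l 3)) (l 3)))) (b (l 16775528) (b (c (l 16777016) (l 16776680)) (b (b (l 16777248) (a (a (b (l 58686702279) (l 120963728439)) (l 16777400)) (l 16776704))) (a (a (l 3) (b (l 163376529799) (l 3))) (b (a (a (l 87677731271) (l 16777456)) (l 16776944)) (a (l 3) (b (l 54391734935) (l 117742502871))))))))) (l 3)) (b (b (l 16774736) (b (l 16776056) (a (a (a (b (l 16776168) (l 16777456)) (l 16776936)) (l 16776576)) (l 16776512)))) (b (b (a (b (b (a (a (l 159618433399) (a (l 82845893047) (l 16777440))) (l 16776808)) (a (l 3) (a (b (l 50096767607) (l 110763181063)) (l 16777376)))) (a (l 3) (a (l 3) (b (l 156397207895) (l 3))))) (b (l 16776920) (a (b (a (a (l 74792829431) (l 16777096))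 (l 16776920)) (a (l 3) (b (l 16777512) (l 105394471927)))) (l 16777392)))) (b (a (l 3) (a (l 3) (b (a (b (l 83382764407) (l 3)) (c (l 16777152) (l 54391734711))) (l 187535721207)))) (l 3))) (l 3)))), by decide +kernel⟩

def k58_pp_012_s : ∃ t, chk3 f_pp_012_s t 241 58 1 = true :=
  ⟨(a (b (b (l 16772824) (a (l 16775488) (l 16775184))) (a (b (b (c (l 16776968) (l 16776312)) (b (b (l 16777200) (a (a (b (l 16777504) (l 100562633687)) (l 16777016)) (l 16776656))) (a (c (l 164987142999) (c (l 168208368455) (b (l 162839658999) (l 3)))) (b (a (l 50096767399) (l 16776888)) (a (l 181630140919) (a (l 117205631383) (l 64592281959))))))) (l 3)) (b (b (l 16776000) (a (b (l 16776000) (l 16777360)) (l 16777184))) (b (b (b (a (a (a (l 176261431671) (l 115058147719)) (l 29158801879)) (l 16776752)) (a (l 180556399287) (a (a (l 111300051335) (l 16777496)) (l 16776992)))) (a (l 3) (a (l 3) (a (l 178945786535) (b (l 104320729543) (l 3)))))) (l 3))))) (b (b (l 16768296) (l 16773744)) (a (b (c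 (l 16777064) (l 16776400)) (b (b (l 16776864) (a (b (c (l 16776984) (l 16777472)) (a (l 171966464439) (a (l 101099504055) (l 16777480)))) (l 16777328))) (a (l 3) (b (b (a (a (l 105931342967) (l 97878278567)) (l 16777416)) (l 173040206455)) (l 3))))) (b (l 16775440) (b (l 16776664) (a (b (b (l 16776720) (a (a (l 94657053079) (l 16777464)) (l 16776952))) (a (l 3) (a (l 170355851879) (b (l 91435827591) (l 3))))) (b (l 16776416) (b (l 16777600) (a (l 161765917047) (c (l 16777184) (l 65129152951))))))))))), by decide +kernel⟩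

def k59_pp_012_s : ∃ t, chk3 f_pp_012_s t 121 58 1 = true :=
  ⟨(b (a (c (l 16772160) (l 16771088)) (l 16768312)) (b (a (a (l 16774656) (l 16772736)) (l 16769864)) (b (a (a (l 16776120) (l 16774848)) (l 16771968)) (a (a (a (b (l 16777008) (l 16777216)) (l 16776392)) (l 16774944)) (l 16773368))))), by decide +kernel⟩

def k60_pp_012_s : ∃ t, chk3 f_pp_012_s t 120 59 1 = true :=
  ⟨(l 3), by decide +kernel⟩

def k61_pp_012_s : ∃ t, chk3 f_pp_012_s t 242 59 1 = true :=
  ⟨(a (b (b (b (a (b (b (a (a (a (l 94657053751) (l 81235280311)) (l 16777704)) (l 16776688)) (a (c (l 162302788167) (l 167671497255)) (c (l 16777696) (a (l 60297314695) (l 16776920))))) (a (l 3) (a (l 3) (a (l 162302788135) (b (l 73719087511) (l 3)))))) (b (l 16776792) (a (b (l 16777568) (a (a (l 188609462695) (l 85530248183)) (l 35601253207))) (l 16777256)))) (b (a (l 3) (a (c (l 185925108807) (l 191830688791)) (b (a (a (l 120426856871) (l 66202894711)) (l 16777008)) (c (l 154786595319) (l 159618433511)))))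 (l 3))) (l 3)) (l 3)) (b (a (a (b (b (l 16777080) (a (b (b (l 16776768) (l 42580574695)) (l 183240753959)) (b (l 16776704) (b (a (l 112373793159) (l 16777504)) (l 3))))) (l 3)) (b (b (l 16776600) (b (l 16776344) (a (b (l 16776992) (a (l 169818980711) (l 108078825847))) (l 12515803623)))) (a (l 3) (b (b (l 178945786615) (l 3)) (l 3))))) (b (b (l 16775872) (c (l 16777280) (l 16776952))) (b (a (b (b (a (a (l 100025762231) (l 16777480)) (l 16776968)) (a (l 3) (a (l 156934078855) (l 96267665815)))) (l 3)) (a (b (l 16777560) (l 174113948375)) (b (l 16776664) (b (a (l 91435827591) (l 16777128)) (l 3))))) (l 3)))) (l 3))), by decide +kernel⟩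

def k62_pp_012_s : ∃ t, chk3 f_pp_012_s t 243 59 1 = true :=
  ⟨(b (b (a (c (l 16775792) (c (l 16775784) (l 16775776))) (l 16774520)) (b (a (a (b (l 16776712) (b (l 16777240) (a (a (a (l 96267666503) (l 87140860279)) (l 16777712)) (l 16776696)))) (l 16776760)) (l 16775640)) (b (a (a (a (b (l 166060884551) (l 3)) (b (c (l 16777704) (c (l 16777704) (l 36138123751))) (a (l 3) (a (l 88214602775) (l 74792829335))))) (c (l 16777152) (l 16777320))) (l 16776360)) (a (a (l 3) (b (a (a (a (l 190220075447) (l 84456506375)) (l 33453769559)) (l 16776784)) (a (l 188609463015) (a (a (l 80698409959) (l 65129152887)) (l 16777016))))) (a (l 16776888) (l 16775264)))))) (b (a (a (l 3) (a (l 3) (b (b (b (c (l 153175982583) (l 158544691687)) (l 3)) (l 3)) (l 3)))) (b (a (a (b (b (c (l 16777656) (l 16777496)) (a (l 178408915415) (a (l 109689438599) (l 16777504)))) (l 3)) (b (l 16777344) (b (a (a (l 170892722487) (l 105394471271)) (l 16777424)) (l 176261431943)))) (b (l 16776624) (b (l 16777144)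 (a (a (a (l 96267665831) (l 16777472)) (l 16776960)) (l 16776600))))) (a (l 3) (b (a (a (l 3) (a (l 173040206439) (b (l 91435827591) (l 3)))) (b (l 16777608) (a (l 160155304327) (c (l 16777840) (l 40969962231))))) (l 3))))) (l 3))), by decide +kernel⟩

def k63_pp_012_s : ∃ t, chk3 f_pp_012_s t 61 58 1 = true :=
  ⟨(a (b (a (l 16764536) (l 16760776)) (a (c (l 16770136) (l 16770048)) (l 16766272))) (b (l 16757768) (a (l 16762472) (l 16758688)))), by decide +kernel⟩

def k64_pp_012_s : ∃ t, chk3 f_pp_012_s t 61 59 1 = true :=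
  ⟨(b (b (a (a (c (l 16771656) (l 16771616)) (l 16767792)) (a (l 16766584) (l 16757528))) (a (a (a (a (l 16775216) (l 16774912)) (l 16773464)) (c (l 16770592) (l 16770560))) (a (l 16766728) (l 16765512)))) (b (a (a (a (a (b (l 16776336) (b (c (l 16776400) (l 16777056)) (a (b (a (a (l 138680467863) (l 77477183911)) (l 16777704)) (c (l 160692175415) (l 165524013607))) (a (a (b (l 16776864) (l 71571603863)) (l 16777576)) (l 16776736))))) (b (l 16775696) (a (l 16776760) (l 16776848)))) (a (b (l 16773416) (l 16776128)) (l 16774792))) (a (a (l 16774808) (l 16773840)) (l 16772392))) (a (c (l 16769512) (l 16769480)) (l 16765648))) (a (a (b (b (a (a (a (l 3) (a (l 191293817687) (b (b (l 16777504) (l 96267666391)) (l 3)))) (a (b (l 16777552) (a (a (l 189683204375) (l 121500598615)) (l 27548189495))) (l 16777240))) (c (l 16776688) (l 16776360))) (a (a (l 3) (a (c (l 184851366935) (l 191293817831)) (a (b (a (l 111836922247) (l 16777504)) (l 3)) (b (l 16776992) (a (l 172503335223) (l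 106468213095)))))) (a (a (c (l 16777456) (l 4462739911)) (l 16776320)) (l 16776248)))) (a (l 3) (a (b (b (a (a (l 169818980791) (a (l 100562633047) (l 16777472))) (l 16776840)) (a (l 3) (a (a (l 155323466071) (l 90898956679)) (l 16777400)))) (a (l 3) (a (l 3) (b (l 159618433399) (l 3))))) (a (b (l 16777184) (a (b (a (l 84456505719) (l 16777120)) (l 3)) (b (l 16776936) (a (l 136532984215) (l 79087796567))))) (a (b (l 16776168) (l 16777520)) (l 16776928)))))) (a (b (c (l 16775104) (l 16775096)) (a (c (l 16776328) (l 16776488)) (l 16776008))) (c (l 16774352) (a (l 16774336) (l 16774680))))) (a (a (a (l 16773720) (l 16772752)) (l 16771304)) (c (l 16768416) (l 16768376)))))), by decide +kernel⟩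

def k65_pp_012_s : ∃ t, chk3 f_pp_012_s t 31 14 1 = true :=
  ⟨(b (a (b (a (l 16729368) (l 16716936)) (a (a (l 16746824) (l 16743144)) (l 16739584))) (a (b (l 16709760) (c (l 16725464) (l 16719480))) (a (b (l 16704400) (l 16714304)) (b (l 16703472) (l 16721152))))) (a (b (a (b (l 16747656) (a (l 16754904) (l 16745880))) (a (l 16749952) (l 16746200))) (a (b (a (l 16760320) (l 16756504)) (a (c (a (l 16764168) (l 16762248)) (l 16764448)) (c (l 16760672) (l 16761896)))) (b (a (l 16752696) (l 16748888)) (a (a (l 16759064) (l 16757144)) (l 14))))) (a (b (a (l 16742456) (l 16738712)) (a (b (l 16745088) (l 14)) (l 14))) (b (a (l 16734984) (l 14)) (l 14))))), by decide +kernel⟩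

def k66_pp_012_s : ∃ t, chk3 f_pp_012_s t 60 30 1 = true :=
  ⟨(l 3), by decide +kernel⟩

def k67_pp_012_s : ∃ t, chk3 f_pp_012_s t 122 60 1 = true :=
  ⟨(b (a (b (b (b (a (l 3) (a (l 3) (a (l 3) (b (a (a (l 192904430007) (l 130090533239)) (c (l 16777808) (l 30232543927))) (l 190220075751))))) (l 3)) (l 3)) (l 3)) (b (b (a (b (a (a (a (b (l 16776904) (a (l 123648082263) (l 59223572935))) (l 16777488)) (l 16777128)) (l 16776400)) (b (a (a (a (l 3) (a (l 185925107975) (l 112910664087))) (c (l 16777648) (l 20031996295))) (l 16776920)) (a (a (l 3) (a (l 176261431767) (a (l 106468213111) (l 51170509111)))) (c (l 16777272) (l 16777272))))) (a (a (l 16776016) (l 16776192)) (l 16775464))) (b (a (a (l 3) (b (a (a (a (l 167134626071) (l 100025762135)) (l 24863834519)) (l 16776720)) (a (c (l 170892722823) (l 177872044647)) (a (a (l 89825214855) (l 16777456)) (l 16776944))))) (a (a (l 16777064) (l 16775920)) (l 16775848))) (a (b (a (l 3) (a (l 3) (a (l 3) (a (l 146733531479) (l 83382763879)))))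 (l 3)) (a (a (b (l 2315256231) (a (l 154249724247) (a (l 77477183815) (l 16777424)))) (l 16776944)) (l 16776544))))) (b (a (l 3) (a (b (a (c (l 190756947031) (l 198273139751)) (a (b (a (l 128479920487) (l 66202894727)) (l 3)) (b (l 16777344) (a (l 185388237191) (l 120963727687))))) (l 3)) (b (a (b (l 16776656) (a (a (l 56002347447) (l 16777064)) (l 16776880))) (l 16777000)) (b (a (a (l 180556399063) (a (l 109689438599) (l 52781121863))) (l 16777192)) (a (l 3) (a (a (l 170355851559) (l 102173245799)) (c (l 16777744) (l 16777504)))))))) (b (b (a (l 3) (a (l 3) (a (l 3) (a (l 3) (l 167134626215))))) (l 3)) (l 3))))) (l 3)), by decide +kernel⟩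

def k68_pp_012_s : ∃ t, chk3 f_pp_012_s t 123 120 1 = true :=
  ⟨(a (b (b (a (l 16774008) (l 16773376)) (a (a (l 16775552) (l 16774912)) (l 16773456))) (a (a (b (b (l 16776264) (a (l 16776880) (l 16776064))) (b (a (a (b (b (l 16777104) (a (l 111300051799) (l 16777544))) (l 3)) (b (l 16776952) (b (c (l 16777216) (l 43654316695)) (l 179482656999)))) (c (l 16777416) (c (l 16777416) (l 16777328)))) (a (l 3) (b (a (a (l 3) (l 140291080519)) (a (b (l 16777136) (l 91972698855)) (l 16777424))) (l 194515043063))))) (b (c (l 16776304) (l 16775640)) (a (b (l 16776928) (b (l 16777120) (a (b (l 29695672951) (l 153175982375)) (l 16777344)))) (b (l 16775784) (l 16776808))))) (a (b (l 16775328) (c (l 16776056) (l 16776216))) (b (l 16774352) (l 16775408))))) (a (b (c (l 16772136) (l 16772112)) (b (l 16772896) (a (l 16774768) (l 16773792)))) (b (l 16769536) (a (l 16772288) (l 16771152))))), by decide +kernel⟩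

def k69_pp_012_s : ∃ t, chk3 f_pp_012_s t 246 121 1 = true :=
  ⟨(b (b (a (a (l 3) (b (a (b (a (l 3) (b (a (l 109689439015) (l 16777544)) (l 3))) (l 3)) (b (a (c (l 16777456) (c (l 42580574519) (l 43654316343))) (l 16776880)) (a (l 181093269975) (a (b (l 16777200) (l 3)) (l 51170509127))))) (l 3))) (b (a (a (b (l 16776512) (l 16777272)) (l 16776856)) (l 16776120)) (a (a (b (a (b (a (l 89825215207) (l 16777184)) (l 192904429943)) (a (l 40433090919) (l 16777024))) (a (l 3) (c (l 163376529831) (l 170892722567)))) (b (l 16777048) (a (a (b (l 16777168) (l 107541955367)) (l 32916898119)) (l 16776944)))) (c (l 16776816) (l 16776648))))) (a (l 3) (a (b (a (l 3) (a (l 3) (b (b (c (l 16777536) (l 40969962119)) (l 176261431527)) (l 3)))) (l 3)) (b (a (b (c (l 16777584) (l 16777416)) (a (a (l 3) (c (l 81235280919) (l 141364822311))) (b (l 16777064) (a (l 87140860631) (l 16777176))))) (c (l 16776616) (l 16776936))) (a (c (l 192367559751) (c (l 198273139751) (l 202568106359))) (a (b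 (b (c (l 16777168) (l 27011318327)) (l 149417885975)) (l 3)) (b (l 16777336) (b (a (l 103783858967) (l 16777456)) (l 3))))))))) (l 3)), by decide +kernel⟩

def k70_pp_012_s : ∃ t, chk3 f_pp_012_s t 247 121 1 = true :=
  ⟨(b (b (a (a (a (l 16775736) (l 16775248)) (l 16774520)) (a (l 16774200) (l 16771912))) (a (a (a (b (l 16776776) (b (l 16776968) (a (a (b (l 16777088) (l 67276636743)) (l 16777048)) (l 16776872)))) (b (l 16775632) (l 16776656))) (c (l 16775904) (c (l 16775904) (l 16775896)))) (a (a (l 16775168) (l 16775336)) (l 16774608)))) (a (a (b (b (b (a (a (l 177335173575) (b (l 16777456) (a (l 115058148215) (l 57076089367)))) (c (l 16776848) (l 16777176))) (a (l 3) (a (b (a (l 82845893335) (l 16777168)) (l 185925108071)) (c (l 16777400) (c (l 16777400) (l 8220836375)))))) (a (l 3) (a (l 3) (b (a (l 3) (l 153175982343)) (l 3))))) (l 3)) (a (b (b (c (l 16776536) (l 16776856)) (b (a (a (b (l 16777152) (l 98952020743)) (l 27011318055)) (l 16776928)) (a (l 3) (b (a (l 62444798519)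 (l 16777128)) (l 166597755111))))) (l 3)) (b (b (l 16776696) (a (a (b (l 16776744) (l 16777424)) (l 16777128)) (l 16776944))) (b (b (a (a (l 193441300903) (b (l 51707380231) (l 3))) (a (b (l 16777112) (l 77477184183)) (l 16777400))) (a (l 3) (l 185925108215))) (l 3))))) (b (a (b (l 16775968) (c (l 16776656) (l 16776488))) (c (l 16775336) (l 16775328))) (b (a (a (b (l 16777096) (a (b (c (l 16777480) (l 19495125479)) (a (l 3) (c (l 16777504) (l 67276636743)))) (l 16777320))) (c (l 16776448) (l 16776776))) (c (l 16776376) (l 16776368))) (a (b (b (a (a (l 3) (a (c (l 90898957047) (l 94657053431)) (l 16777352))) (l 16777208)) (a (l 197199397479) (l 14))) (a (l 3) (l 14))) (l 14)))))), by decide +kernel⟩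

def k71_pp_012_s : ∃ t, chk3 f_pp_012_s t 61 61 1 = true :=
  ⟨(a (l 3) (a (l 3) (a (l 3) (a (l 3) (l 14))))), by decide +kernel⟩

def k72_pp_012_s : ∃ t, chk3 f_pp_012_s t 30 31 1 = true :=
  ⟨(l 3), by decide +kernel⟩

def k73_pp_012_s : ∃ t, chk3 f_pp_012_s t 31 15 1 = true :=
  ⟨(b (a (b (a (a (a (b (b (l 16768256) (a (l 16770184) (l 16770520))) (b (b (l 16771760) (a (l 16773632) (l 16771344))) (a (a (b (l 16775256) (l 14)) (l 14)) (l 14)))) (b (b (l 16766320) (l 16768408)) (a (b (l 16771152) (l 14)) (l 14)))) (b (a (b (l 16761760) (l 16767120)) (b (l 16759824) (l 14))) (l 14))) (l 14)) (l 14)) (l 14)) (l 14)), by decide +kernel⟩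

theorem s74_pp_012_s : ∃ t, chk3 f_pp_012_s t 123 121 1 = true := ex3_a k69_pp_012_s k70_pp_012_s

theorem s75_pp_012_s : ∃ t, chk3 f_pp_012_s t 123 60 1 = true := ex3_b k68_pp_012_s s74_pp_012_s

theorem s76_pp_012_s : ∃ t, chk3 f_pp_012_s t 61 60 1 = true := ex3_a k67_pp_012_s s75_pp_012_s

theorem s77_pp_012_s : ∃ t, chk3 f_pp_012_s t 61 30 1 = true := ex3_b s76_pp_012_s k71_pp_012_s

theorem s78_pp_012_s : ∃ t, chk3 f_pp_012_s t 30 30 1 = true := ex3_a k66_pp_012_s s77_pp_012_s

theorem s79_pp_012_s : ∃ t, chk3 f_pp_012_s t 30 15 1 = true := ex3_b s78_pp_012_s k72_pp_012_s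

theorem s80_pp_012_s : ∃ t, chk3 f_pp_012_s t 15 15 1 = true := ex3_a s79_pp_012_s k73_pp_012_s

theorem s81_pp_012_s : ∃ t, chk3 f_pp_012_s t 61 29 1 = true := ex3_b k63_pp_012_s k64_pp_012_s

theorem s82_pp_012_s : ∃ t, chk3 f_pp_012_s t 121 59 1 = true := ex3_a k61_pp_012_s k62_pp_012_s

theorem s83_pp_012_s : ∃ t, chk3 f_pp_012_s t 60 59 1 = true := ex3_a k60_pp_012_s s82_pp_012_s

theorem s84_pp_012_s : ∃ t, chk3 f_pp_012_s t 120 58 1 = true := ex3_a k57_pp_012_s k58_pp_012_s

theorem s85_pp_012_s : ∃ t, chk3 f_pp_012_s t 60 58 1 = true := ex3_a s84_pp_012_s k59_pp_012_s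

theorem s86_pp_012_s : ∃ t, chk3 f_pp_012_s t 60 29 1 = true := ex3_b s85_pp_012_s s83_pp_012_s

theorem s87_pp_012_s : ∃ t, chk3 f_pp_012_s t 30 29 1 = true := ex3_a s86_pp_012_s s81_pp_012_s

theorem s88_pp_012_s : ∃ t, chk3 f_pp_012_s t 30 14 1 = true := ex3_b k56_pp_012_s s87_pp_012_s

theorem s89_pp_012_s : ∃ t, chk3 f_pp_012_s t 15 14 1 = true := ex3_a s88_pp_012_s k65_pp_012_s

theorem s90_pp_012_s : ∃ t, chk3 f_pp_012_s t 15 7 1 = true := ex3_b s89_pp_012_s s80_pp_012_s

theorem s91_pp_012_s : ∃ t, chk3 f_pp_012_s t 15 3 1 = true := ex3_b k55_pp_012_s s90_pp_012_s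

theorem s92_pp_012_s : ∃ t, chk3 f_pp_012_s t 59 115 1 = true := ex3_a k51_pp_012_s k52_pp_012_s

theorem s93_pp_012_s : ∃ t, chk3 f_pp_012_s t 118 114 1 = true := ex3_a k48_pp_012_s k49_pp_012_s

theorem s94_pp_012_s : ∃ t, chk3 f_pp_012_s t 59 114 1 = true := ex3_a s93_pp_012_s k50_pp_012_s

theorem s95_pp_012_s : ∃ t, chk3 f_pp_012_s t 59 57 1 = true := ex3_b s94_pp_012_s s92_pp_012_s

theorem s96_pp_012_s : ∃ t, chk3 f_pp_012_s t 59 28 1 = true := ex3_b k47_pp_012_s s95_pp_012_s

theorem s97_pp_012_s : ∃ t, chk3 f_pp_012_s t 117 56 1 = true := ex3_a k44_pp_012_s k45_pp_012_s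

theorem s98_pp_012_s : ∃ t, chk3 f_pp_012_s t 58 56 1 = true := ex3_a k43_pp_012_s s97_pp_012_s

theorem s99_pp_012_s : ∃ t, chk3 f_pp_012_s t 58 28 1 = true := ex3_b s98_pp_012_s k46_pp_012_s

theorem s100_pp_012_s : ∃ t, chk3 f_pp_012_s t 29 28 1 = true := ex3_a s99_pp_012_s s96_pp_012_s

theorem s101_pp_012_s : ∃ t, chk3 f_pp_012_s t 29 14 1 = true := ex3_b s100_pp_012_s k53_pp_012_s

theorem s102_pp_012_s : ∃ t, chk3 f_pp_012_s t 29 7 1 = true := ex3_b s101_pp_012_s k54_pp_012_s

theorem s103_pp_012_s : ∃ t, chk3 f_pp_012_s t 14 7 1 = true := ex3_a k42_pp_012_s s102_pp_012_s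

theorem s104_pp_012_s : ∃ t, chk3 f_pp_012_s t 116 111 1 = true := ex3_a k38_pp_012_s k39_pp_012_s

theorem s105_pp_012_s : ∃ t, chk3 f_pp_012_s t 116 55 1 = true := ex3_b k37_pp_012_s s104_pp_012_s

theorem s106_pp_012_s : ∃ t, chk3 f_pp_012_s t 58 55 1 = true := ex3_a s105_pp_012_s k40_pp_012_s

theorem s107_pp_012_s : ∃ t, chk3 f_pp_012_s t 58 27 1 = true := ex3_b k36_pp_012_s s106_pp_012_s

theorem s108_pp_012_s : ∃ t, chk3 f_pp_012_s t 29 27 1 = true := ex3_a s107_pp_012_s k41_pp_012_s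

theorem s109_pp_012_s : ∃ t, chk3 f_pp_012_s t 29 13 1 = true := ex3_b k35_pp_012_s s108_pp_012_s

theorem s110_pp_012_s : ∃ t, chk3 f_pp_012_s t 29 6 1 = true := ex3_b k34_pp_012_s s109_pp_012_s

theorem s111_pp_012_s : ∃ t, chk3 f_pp_012_s t 115 110 1 = true := ex3_a k31_pp_012_s k32_pp_012_s

theorem s112_pp_012_s : ∃ t, chk3 f_pp_012_s t 115 55 1 = true := ex3_b s111_pp_012_s k33_pp_012_s

theorem s113_pp_012_s : ∃ t, chk3 f_pp_012_s t 57 55 1 = true := ex3_a k30_pp_012_s s112_pp_012_s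

theorem s114_pp_012_s : ∃ t, chk3 f_pp_012_s t 114 109 1 = true := ex3_a k27_pp_012_s k28_pp_012_s

theorem s115_pp_012_s : ∃ t, chk3 f_pp_012_s t 114 54 1 = true := ex3_b k26_pp_012_s s114_pp_012_s

theorem s116_pp_012_s : ∃ t, chk3 f_pp_012_s t 57 54 1 = true := ex3_a s115_pp_012_s k29_pp_012_s

theorem s117_pp_012_s : ∃ t, chk3 f_pp_012_s t 57 27 1 = true := ex3_b s116_pp_012_s s113_pp_012_s

theorem s118_pp_012_s : ∃ t, chk3 f_pp_012_s t 28 27 1 = true := ex3_a k25_pp_012_s s117_pp_012_s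

theorem s119_pp_012_s : ∃ t, chk3 f_pp_012_s t 28 26 1 = true := ex3_a k23_pp_012_s k24_pp_012_s

theorem s120_pp_012_s : ∃ t, chk3 f_pp_012_s t 28 13 1 = true := ex3_b s119_pp_012_s s118_pp_012_s

theorem s121_pp_012_s : ∃ t, chk3 f_pp_012_s t 28 6 1 = true := ex3_b k22_pp_012_s s120_pp_012_s

theorem s122_pp_012_s : ∃ t, chk3 f_pp_012_s t 14 6 1 = true := ex3_a s121_pp_012_s s110_pp_012_s

theorem s123_pp_012_s : ∃ t, chk3 f_pp_012_s t 14 3 1 = true := ex3_b s122_pp_012_s s103_pp_012_s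

theorem s124_pp_012_s : ∃ t, chk3 f_pp_012_s t 7 3 1 = true := ex3_a s123_pp_012_s s91_pp_012_s

theorem s125_pp_012_s : ∃ t, chk3 f_pp_012_s t 13 12 1 = true := ex3_a k18_pp_012_s k19_pp_012_s

theorem s126_pp_012_s : ∃ t, chk3 f_pp_012_s t 13 6 1 = true := ex3_b s125_pp_012_s k20_pp_012_s

theorem s127_pp_012_s : ∃ t, chk3 f_pp_012_s t 6 6 1 = true := ex3_a k17_pp_012_s s126_pp_012_s

theorem s128_pp_012_s : ∃ t, chk3 f_pp_012_s t 6 3 1 = true := ex3_b s127_pp_012_s k21_pp_012_s

theorem s129_pp_012_s : ∃ t, chk3 f_pp_012_s t 3 3 1 = true := ex3_a s128_pp_012_s s124_pp_012_s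

theorem s130_pp_012_s : ∃ t, chk3 f_pp_012_s t 12 11 1 = true := ex3_a k13_pp_012_s k14_pp_012_s

theorem s131_pp_012_s : ∃ t, chk3 f_pp_012_s t 12 5 1 = true := ex3_b k12_pp_012_s s130_pp_012_s

theorem s132_pp_012_s : ∃ t, chk3 f_pp_012_s t 6 5 1 = true := ex3_a s131_pp_012_s k15_pp_012_s

theorem s133_pp_012_s : ∃ t, chk3 f_pp_012_s t 6 2 1 = true := ex3_b k11_pp_012_s s132_pp_012_s

theorem s134_pp_012_s : ∃ t, chk3 f_pp_012_s t 3 2 1 = true := ex3_a s133_pp_012_s k16_pp_012_s

theorem s135_pp_012_s : ∃ t, chk3 f_pp_012_s t 3 1 1 = true := ex3_b s134_pp_012_s s129_pp_012_s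

theorem s136_pp_012_s : ∃ t, chk3 f_pp_012_s t 23 10 1 = true := ex3_b k7_pp_012_s k8_pp_012_s

theorem s137_pp_012_s : ∃ t, chk3 f_pp_012_s t 11 10 1 = true := ex3_a k6_pp_012_s s136_pp_012_s

theorem s138_pp_012_s : ∃ t, chk3 f_pp_012_s t 11 5 1 = true := ex3_b s137_pp_012_s k9_pp_012_s

theorem s139_pp_012_s : ∃ t, chk3 f_pp_012_s t 5 5 1 = true := ex3_a k5_pp_012_s s138_pp_012_s

theorem s140_pp_012_s : ∃ t, chk3 f_pp_012_s t 21 4 1 = true := ex3_b k2_pp_012_s k3_pp_012_s

theorem s141_pp_012_s : ∃ t, chk3 f_pp_012_s t 10 4 1 = true := ex3_a k1_pp_012_s s140_pp_012_s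

theorem s142_pp_012_s : ∃ t, chk3 f_pp_012_s t 5 4 1 = true := ex3_a s141_pp_012_s k4_pp_012_s

theorem s143_pp_012_s : ∃ t, chk3 f_pp_012_s t 5 2 1 = true := ex3_b s142_pp_012_s s139_pp_012_s

theorem s144_pp_012_s : ∃ t, chk3 f_pp_012_s t 2 2 1 = true := ex3_a k0_pp_012_s s143_pp_012_s

theorem s145_pp_012_s : ∃ t, chk3 f_pp_012_s t 2 1 1 = true := ex3_b s144_pp_012_s k10_pp_012_s

theorem s146_pp_012_s : ∃ t, chk3 f_pp_012_s t 1 1 1 = true := ex3_a s145_pp_012_s s135_pp_012_s

theorem c_pp_012_s : CertNE 0 536870912 0 536870912 536870912 50465866 3 eng mog cd0q0 cd0q2 pd1 false true true .pnp 0 1 2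
    ndB0q0 ndB0q2 pcB1 cut_pp_012_s Ext.none :=
  certNE2 (fam := false) (s1 := true) (s2 := true) (a := 0) (b := 1) (c := 2) (cn := .pnp) (n1 := ndB0q0) (n2 := ndB0q2) (pc := pcB1) (cut := cut_pp_012_s) (xt := Ext.none) (P1 := 0) (W1 := 536870912) (P2 := 0) (W2 := 536870912) (P3 := 536870912) (W3 := 50465866) (N0 := 3) (En := eng) (mo := mog) (C1 := cd0q0) (C2 := cd0q2) (C3 := pd1)
    rfl (fun _ => rfl) s146_pp_012_s

noncomputable def cut_pp_012_t : Cut := Cut.of [[⟨3, 0, 0, 2845415833⟩], [⟨0, 0, 0, 67108864⟩, ⟨1, 1, 0, 67108864⟩, ⟨2, 1, 0, 67108864⟩]]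

noncomputable def f_pp_012_t : ℕ → ℕ → ℕ → ℕ → Bool := onCell 0 536870912 0 536870912 536870912 50465866
    (rowNE 3 eng mog cd0q0 cd0q2 pd1 0 false true true .pnp 0 1 2 (qsf 0 536870912 0 536870912 1) ndB0q0 ndB0q2 pcB1 cut_pp_012_t Ext.none)

def k0_pp_012_t : ∃ t, chk3 f_pp_012_t t 1 1 1 = true :=
  ⟨(l 6), by decide +kernel⟩

theorem c_pp_012_t : CertNE 0 536870912 0 536870912 536870912 50465866 3 eng mog cd0q0 cd0q2 pd1 false true true .pnp 0 1 2
    ndB0q0 ndB0q2 pcB1 cut_pp_012_t Ext.none :=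
  certNE0 (fam := false) (s1 := true) (s2 := true) (a := 0) (b := 1) (c := 2) (cn := .pnp) (n1 := ndB0q0) (n2 := ndB0q2) (pc := pcB1) (cut := cut_pp_012_t) (xt := Ext.none) (P1 := 0) (W1 := 536870912) (P2 := 0) (W2 := 536870912) (P3 := 536870912) (W3 := 50465866) (N0 := 3) (En := eng) (mo := mog) (C1 := cd0q0) (C2 := cd0q2) (C3 := pd1)
    rfl k0_pp_012_t

noncomputable def cut_pp_022_s : Cut := Cut.of [[⟨4, 0, 0, 1449551462⟩], [⟨0, 0, 0, 67108864⟩, ⟨1, 1, 0, 67108864⟩, ⟨2, 1, 0, 67108864⟩]]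

noncomputable def f_pp_022_s : ℕ → ℕ → ℕ → ℕ → Bool := onCell 1073741824 536870912 0 536870912 536870912 50465866
    (rowNE 3 eng mog cd0q0 cd0q2 pd2 2 false true true .pp 0 2 2 (qsf 0 536870912 0 536870912 2) ndB0q0 ndB0q2 pcB2 cut_pp_022_s Ext.none)

def k0_pp_022_s : ∃ t, chk3 f_pp_022_s t 4 2 1 = true :=
  ⟨(b (l 6) (a (a (b (l 6) (b (l 6) (a (l 16616360) (l 16586904)))) (l 6)) (l 6))), by decide +kernel⟩

def k1_pp_022_s : ∃ t, chk3 f_pp_022_s t 8 3 1 = true :=
  ⟨(b (b (a (b (a (c (l 16631096) (l 16634536)) (b (l 16621536) (l 16630736))) (a (b (l 16647000) (c (l 16659912) (l 16658672))) (b (l 16639912) (a (l 16630728) (l 16625520))))) (b (a (c (l 16616984) (l 16615896)) (c (l 16606744) (l 16584864))) (a (a (l 16636816) (l 16610560)) (b (l 16598136) (l 16606568))))) (a (a (b (b (b (l 16666464) (l 16667424)) (a (c (l 16661472) (l 16660776)) (l 16655128))) (a (b (a (b (l 16670640) (l 16675944)) (l 16670232)) (a (c (l 16684568) (l 16683088)) (l 16681400))) (b (l 16665552)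 (l 16675952)))) (b (a (l 16660680) (l 16639424)) (b (l 16677384) (l 16682904)))) (b (a (b (l 16657888) (l 16635384)) (b (l 16615000) (l 16644448))) (b (a (l 16644456) (a (l 16635168) (l 16628808))) (a (l 16664176) (a (l 16643968) (l 16637304))))))) (a (b (b (b (a (a (a (c (l 16695184) (l 16693544)) (l 16691200)) (l 16682368)) (a (l 16679624) (l 16672936))) (b (a (a (a (l 16702288) (l 16699008)) (l 16694024)) (l 16704744)) (l 14))) (l 14)) (l 14)) (a (b (b (b (a (l 16666392) (l 16680680)) (a (l 16676000) (l 16700432))) (l 14)) (l 14)) (b (a (b (b (l 16652864) (l 16661776)) (l 14)) (b (b (l 16645864) (l 16654408)) (b (l 16662832) (l 1)))) (l 1))))), by decide +kernel⟩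

def k2_pp_022_s : ∃ t, chk3 f_pp_022_s t 9 3 1 = true :=
  ⟨(b (b (a (b (l 6) (b (a (l 16587200) (l 6)) (a (l 16595200) (l 16583488)))) (l 6)) (a (b (b (a (l 16603168) (l 16590928)) (a (l 16611112) (a (l 16601536) (l 16595024)))) (a (b (l 16619064) (a (l 16630520) (l 16623584))) (b (a (l 16609016) (l 1)) (l 1)))) (b (a (b (l 16578296) (l 1)) (l 1)) (l 1)))) (b (a (b (a (b (a (l 16638720) (l 16631416)) (a (l 16646872) (l 1))) (l 1)) (l 1)) (l 1)) (l 1))), by decide +kernel⟩

def k3_pp_022_s : ∃ t, chk3 f_pp_022_s t 5 1 1 = true :=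
  ⟨(b (l 6) (b (l 1) (l 1))), by decide +kernel⟩

def k4_pp_022_s : ∃ t, chk3 f_pp_022_s t 3 1 1 = true :=
  ⟨(l 1), by decide +kernel⟩

theorem s5_pp_022_s : ∃ t, chk3 f_pp_022_s t 4 3 1 = true := ex3_a k1_pp_022_s k2_pp_022_s

theorem s6_pp_022_s : ∃ t, chk3 f_pp_022_s t 4 1 1 = true := ex3_b k0_pp_022_s s5_pp_022_s

theorem s7_pp_022_s : ∃ t, chk3 f_pp_022_s t 2 1 1 = true := ex3_a s6_pp_022_s k3_pp_022_s

theorem s8_pp_022_s : ∃ t, chk3 f_pp_022_s t 1 1 1 = true := ex3_a s7_pp_022_s k4_pp_022_s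

theorem c_pp_022_s : CertNE 0 536870912 0 536870912 536870912 50465866 3 eng mog cd0q0 cd0q2 pd2 false true true .pp 0 2 2
    ndB0q0 ndB0q2 pcB2 cut_pp_022_s Ext.none :=
  certNE2 (fam := false) (s1 := true) (s2 := true) (a := 0) (b := 2) (c := 2) (cn := .pp) (n1 := ndB0q0) (n2 := ndB0q2) (pc := pcB2) (cut := cut_pp_022_s) (xt := Ext.none) (P1 := 0) (W1 := 536870912) (P2 := 0) (W2 := 536870912) (P3 := 536870912) (W3 := 50465866) (N0 := 3) (En := eng) (mo := mog) (C1 := cd0q0) (C2 := cd0q2) (C3 := pd2)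
    rfl (fun _ => rfl) s8_pp_022_s

noncomputable def cut_pp_022_t : Cut := Cut.of [[⟨3, 0, 0, 2845415833⟩], [⟨0, 0, 0, 67108864⟩, ⟨1, 1, 0, 67108864⟩, ⟨2, 1, 0, 67108864⟩]]

noncomputable def f_pp_022_t : ℕ → ℕ → ℕ → ℕ → Bool := onCell 0 536870912 0 536870912 536870912 50465866
    (rowNE 3 eng mog cd0q0 cd0q2 pd2 0 false true true .pp 0 2 2 (qsf 0 536870912 0 536870912 2) ndB0q0 ndB0q2 pcB2 cut_pp_022_t Ext.none)

def k0_pp_022_t : ∃ t, chk3 f_pp_022_t t 1 1 1 = true :=
  ⟨(l 6), by decide +kernel⟩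

theorem c_pp_022_t : CertNE 0 536870912 0 536870912 536870912 50465866 3 eng mog cd0q0 cd0q2 pd2 false true true .pp 0 2 2
    ndB0q0 ndB0q2 pcB2 cut_pp_022_t Ext.none :=
  certNE0 (fam := false) (s1 := true) (s2 := true) (a := 0) (b := 2) (c := 2) (cn := .pp) (n1 := ndB0q0) (n2 := ndB0q2) (pc := pcB2) (cut := cut_pp_022_t) (xt := Ext.none) (P1 := 0) (W1 := 536870912) (P2 := 0) (W2 := 536870912) (P3 := 536870912) (W3 := 50465866) (N0 := 3) (En := eng) (mo := mog) (C1 := cd0q0) (C2 := cd0q2) (C3 := pd2)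
    rfl k0_pp_022_t

noncomputable def cut_pp_101_s : Cut := Cut.of [[⟨4, 0, 0, 1449551462⟩]]

noncomputable def f_pp_101_s : ℕ → ℕ → ℕ → ℕ → Bool := onCell 536870912 536870912 536870912 536870912 536870912 50465866
    (rowNE 3 eng mog cd0q1 cd0q1 pd0 0 false true true .npn 1 0 1 (qsf 536870912 536870912 536870912 536870912 0) ndB0q1 ndB0q1 pcB0 cut_pp_101_s Ext.none)

def k0_pp_101_s : ∃ t, chk3 f_pp_101_s t 1 1 1 = true :=
  ⟨(l 3), by decide +kernel⟩

theorem c_pp_101_s : CertNE 536870912 536870912 536870912 536870912 536870912 50465866 3 eng mog cd0q1 cd0q1 pd0 false true true .npn 1 0 1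
    ndB0q1 ndB0q1 pcB0 cut_pp_101_s Ext.none :=
  certNE0 (fam := false) (s1 := true) (s2 := true) (a := 1) (b := 0) (c := 1) (cn := .npn) (n1 := ndB0q1) (n2 := ndB0q1) (pc := pcB0) (cut := cut_pp_101_s) (xt := Ext.none) (P1 := 536870912) (W1 := 536870912) (P2 := 536870912) (W2 := 536870912) (P3 := 536870912) (W3 := 50465866) (N0 := 3) (En := eng) (mo := mog) (C1 := cd0q1) (C2 := cd0q1) (C3 := pd0)
    rfl k0_pp_101_s

noncomputable def cut_pp_101_t : Cut := Cut.of [[⟨3, 0, 0, 2845415833⟩]]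

noncomputable def f_pp_101_t : ℕ → ℕ → ℕ → ℕ → Bool := onCell 536870912 536870912 536870912 536870912 536870912 50465866
    (rowNE 3 eng mog cd0q1 cd0q1 pd0 0 false true true .npn 1 0 1 (qsf 536870912 536870912 536870912 536870912 0) ndB0q1 ndB0q1 pcB0 cut_pp_101_t Ext.none)

def k0_pp_101_t : ∃ t, chk3 f_pp_101_t t 1 1 1 = true :=
  ⟨(l 3), by decide +kernel⟩

theorem c_pp_101_t : CertNE 536870912 536870912 536870912 536870912 536870912 50465866 3 eng mog cd0q1 cd0q1 pd0 false true true .npn 1 0 1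
    ndB0q1 ndB0q1 pcB0 cut_pp_101_t Ext.none :=
  certNE0 (fam := false) (s1 := true) (s2 := true) (a := 1) (b := 0) (c := 1) (cn := .npn) (n1 := ndB0q1) (n2 := ndB0q1) (pc := pcB0) (cut := cut_pp_101_t) (xt := Ext.none) (P1 := 536870912) (W1 := 536870912) (P2 := 536870912) (W2 := 536870912) (P3 := 536870912) (W3 := 50465866) (N0 := 3) (En := eng) (mo := mog) (C1 := cd0q1) (C2 := cd0q1) (C3 := pd0)
    rfl k0_pp_101_t

noncomputable def cut_pp_102_s : Cut := Cut.of [[⟨4, 0, 0, 1449551462⟩]]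

noncomputable def f_pp_102_s : ℕ → ℕ → ℕ → ℕ → Bool := onCell 0 536870912 0 536870912 536870912 50465866
    (rowNE 3 eng mog cd0q1 cd0q2 pd0 2 false true true .npp 1 0 2 (qsf 536870912 536870912 0 536870912 0) ndB0q1 ndB0q2 pcB0 cut_pp_102_s Ext.none)

def k0_pp_102_s : ∃ t, chk3 f_pp_102_s t 1 1 1 = true :=
  ⟨(a (b (l 3) (l 3)) (l 3)), by decide +kernel⟩

theorem c_pp_102_s : CertNE 536870912 536870912 0 536870912 536870912 50465866 3 eng mog cd0q1 cd0q2 pd0 false true true .npp 1 0 2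
    ndB0q1 ndB0q2 pcB0 cut_pp_102_s Ext.none :=
  certNE2 (fam := false) (s1 := true) (s2 := true) (a := 1) (b := 0) (c := 2) (cn := .npp) (n1 := ndB0q1) (n2 := ndB0q2) (pc := pcB0) (cut := cut_pp_102_s) (xt := Ext.none) (P1 := 536870912) (W1 := 536870912) (P2 := 0) (W2 := 536870912) (P3 := 536870912) (W3 := 50465866) (N0 := 3) (En := eng) (mo := mog) (C1 := cd0q1) (C2 := cd0q2) (C3 := pd0)
    rfl (fun _ => rfl) k0_pp_102_s

noncomputable def cut_pp_102_t : Cut := Cut.of [[⟨3, 0, 0, 2845415833⟩]]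

noncomputable def f_pp_102_t : ℕ → ℕ → ℕ → ℕ → Bool := onCell 536870912 536870912 0 536870912 536870912 50465866
    (rowNE 3 eng mog cd0q1 cd0q2 pd0 0 false true true .npp 1 0 2 (qsf 536870912 536870912 0 536870912 0) ndB0q1 ndB0q2 pcB0 cut_pp_102_t Ext.none)

def k0_pp_102_t : ∃ t, chk3 f_pp_102_t t 1 1 1 = true :=
  ⟨(l 6), by decide +kernel⟩

theorem c_pp_102_t : CertNE 536870912 536870912 0 536870912 536870912 50465866 3 eng mog cd0q1 cd0q2 pd0 false true true .npp 1 0 2
    ndB0q1 ndB0q2 pcB0 cut_pp_102_t Ext.none :=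
  certNE0 (fam := false) (s1 := true) (s2 := true) (a := 1) (b := 0) (c := 2) (cn := .npp) (n1 := ndB0q1) (n2 := ndB0q2) (pc := pcB0) (cut := cut_pp_102_t) (xt := Ext.none) (P1 := 536870912) (W1 := 536870912) (P2 := 0) (W2 := 536870912) (P3 := 536870912) (W3 := 50465866) (N0 := 3) (En := eng) (mo := mog) (C1 := cd0q1) (C2 := cd0q2) (C3 := pd0)
    rfl k0_pp_102_t

noncomputable def cut_pp_112_s : Cut := Cut.of [[⟨4, 0, 0, 1449551462⟩]]

noncomputable def f_pp_112_s : ℕ → ℕ → ℕ → ℕ → Bool := onCell 536870912 536870912 0 536870912 536870912 50465866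
    (rowNE 3 eng mog cd0q1 cd0q2 pd1 0 false true true .dn 1 1 2 (qsf 536870912 536870912 0 536870912 1) ndB0q1 ndB0q2 pcB1 cut_pp_112_s Ext.none)

def k0_pp_112_s : ∃ t, chk3 f_pp_112_s t 8 8 1 = true :=
  ⟨(a (b (b (a (a (l 16726496) (l 16731920)) (l 16761176)) (a (l 16762456) (c (l 16774696) (l 16773416)))) (a (b (a (l 16750752) (l 16777768)) (a (b (l 16780856) (l 16776576)) (b (l 16776552) (a (l 16776040) (b (l 16772328) (a (l 16774760) (b (l 16775520) (l 72108478999)))))))) (b (a (l 16773304) (b (l 16776120) (a (l 16770512) (l 16780152)))) (a (b (a (l 16770696) (b (l 16772200) (a (l 16774592) (l 29158806583)))) (a (b (a (l 16774672) (b (l 16775432) (l 67813511543))) (b (a (l 69960995271) (l 158544692279)) (l 161765918423))) (b (b (a (l 16779648) (l 145122919319)) (l 148881016343)) (l 3)))) (b (a (b (b (l 16774488) (l 16780056)) (b (a (l 16779560) (l 140291080967)) (l 145122919767))) (b (b (l 86067124503) (l 145122919575)) (l 3))) (l 3)))))) (b (a (b (l 16772536) (a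 (l 16782864) (b (l 16764760) (l 16776744)))) (b (a (l 16781816) (b (l 16763720) (l 16781400))) (a (b (l 16781728) (b (a (l 16774720) (l 95730802023)) (a (l 111300050343) (l 3)))) (b (a (b (l 16774536) (l 95193930583)) (l 125258694439)) (l 3))))) (a (b (a (b (a (l 16770200) (l 16778592)) (b (a (l 16775104) (b (l 82845898423) (l 141901693751))) (a (b (l 84456511367) (l 143512306663)) (l 3)))) (b (b (a (l 16774904) (l 112373792247)) (a (l 113447534167) (l 3))) (l 3))) (l 3)) (l 3)))), by decide +kernel⟩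

def k1_pp_112_s : ∃ t, chk3 f_pp_112_s t 8 9 1 = true :=
  ⟨(a (b (a (b (a (b (a (l 16776168) (b (l 16777720) (a (l 16774960) (b (l 16775728) (a (l 62981672087) (l 125258694935)))))) (a (b (a (l 16777696) (b (l 16775856) (a (l 77477186935) (l 141364822519)))) (a (a (b (l 80698412503) (l 3)) (l 155323467175)) (l 3))) (b (a (a (b (l 73719090439) (l 3)) (l 148881015991)) (l 3)) (l 3)))) (b (a (b (a (l 16774856) (b (l 16775624) (l 76940317303))) (b (a (c (l 78014058903) (l 80698413335)) (l 3)) (l 3))) (b (b (a (l 74255962711) (l 163913401575)) (l 3)) (l 3))) (l 3))) (l 3)) (l 3)) (l 3)) (l 3)), by decide +kernel⟩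

def k2_pp_112_s : ∃ t, chk3 f_pp_112_s t 9 4 1 = true :=
  ⟨(b (a (b (a (b (a (b (l 16771192) (a (b (l 16774472) (l 95193930039)) (l 125795565127))) (b (a (b (l 16774696) (l 98952025735)) (l 128479919495)) (l 3))) (l 3)) (l 3)) (l 3)) (l 3)) (l 3)), by decide +kernel⟩

def k3_pp_112_s : ∃ t, chk3 f_pp_112_s t 4 5 1 = true :=
  ⟨(l 3), by decide +kernel⟩

def k4_pp_112_s : ∃ t, chk3 f_pp_112_s t 5 2 1 = true :=
  ⟨(l 3), by decide +kernel⟩

def k5_pp_112_s : ∃ t, chk3 f_pp_112_s t 2 3 1 = true :=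
  ⟨(l 3), by decide +kernel⟩

def k6_pp_112_s : ∃ t, chk3 f_pp_112_s t 3 1 1 = true :=
  ⟨(l 1), by decide +kernel⟩

theorem s7_pp_112_s : ∃ t, chk3 f_pp_112_s t 8 4 1 = true := ex3_b k0_pp_112_s k1_pp_112_s

theorem s8_pp_112_s : ∃ t, chk3 f_pp_112_s t 4 4 1 = true := ex3_a s7_pp_112_s k2_pp_112_s

theorem s9_pp_112_s : ∃ t, chk3 f_pp_112_s t 4 2 1 = true := ex3_b s8_pp_112_s k3_pp_112_s

theorem s10_pp_112_s : ∃ t, chk3 f_pp_112_s t 2 2 1 = true := ex3_a s9_pp_112_s k4_pp_112_s

theorem s11_pp_112_s : ∃ t, chk3 f_pp_112_s t 2 1 1 = true := ex3_b s10_pp_112_s k5_pp_112_s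

theorem s12_pp_112_s : ∃ t, chk3 f_pp_112_s t 1 1 1 = true := ex3_a s11_pp_112_s k6_pp_112_s

theorem c_pp_112_s : CertNE 536870912 536870912 0 536870912 536870912 50465866 3 eng mog cd0q1 cd0q2 pd1 false true true .dn 1 1 2
    ndB0q1 ndB0q2 pcB1 cut_pp_112_s Ext.none :=
  certNE0 (fam := false) (s1 := true) (s2 := true) (a := 1) (b := 1) (c := 2) (cn := .dn) (n1 := ndB0q1) (n2 := ndB0q2) (pc := pcB1) (cut := cut_pp_112_s) (xt := Ext.none) (P1 := 536870912) (W1 := 536870912) (P2 := 0) (W2 := 536870912) (P3 := 536870912) (W3 := 50465866) (N0 := 3) (En := eng) (mo := mog) (C1 := cd0q1) (C2 := cd0q2) (C3 := pd1)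
    rfl s12_pp_112_s

noncomputable def cut_pp_112_t : Cut := Cut.of [[⟨3, 0, 0, 2845415833⟩]]

noncomputable def f_pp_112_t : ℕ → ℕ → ℕ → ℕ → Bool := onCell 536870912 536870912 0 536870912 536870912 50465866
    (rowNE 3 eng mog cd0q1 cd0q2 pd1 0 false true true .dn 1 1 2 (qsf 536870912 536870912 0 536870912 1) ndB0q1 ndB0q2 pcB1 cut_pp_112_t Ext.none)

def k0_pp_112_t : ∃ t, chk3 f_pp_112_t t 1 1 1 = true :=
  ⟨(l 6), by decide +kernel⟩

theorem c_pp_112_t : CertNE 536870912 536870912 0 536870912 536870912 50465866 3 eng mog cd0q1 cd0q2 pd1 false true true .dn 1 1 2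
    ndB0q1 ndB0q2 pcB1 cut_pp_112_t Ext.none :=
  certNE0 (fam := false) (s1 := true) (s2 := true) (a := 1) (b := 1) (c := 2) (cn := .dn) (n1 := ndB0q1) (n2 := ndB0q2) (pc := pcB1) (cut := cut_pp_112_t) (xt := Ext.none) (P1 := 536870912) (W1 := 536870912) (P2 := 0) (W2 := 536870912) (P3 := 536870912) (W3 := 50465866) (N0 := 3) (En := eng) (mo := mog) (C1 := cd0q1) (C2 := cd0q2) (C3 := pd1)
    rfl k0_pp_112_t

noncomputable def cut_pp_202_s : Cut := Cut.of [[⟨4, 0, 0, 1449551462⟩]]

noncomputable def f_pp_202_s : ℕ → ℕ → ℕ → ℕ → Bool := onCell 0 536870912 0 536870912 536870912 50465866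
    (rowNE 3 eng mog cd0q2 cd0q2 pd0 0 false true true .pp 2 0 2 (qsf 0 536870912 0 536870912 0) ndB0q2 ndB0q2 pcB0 cut_pp_202_s Ext.none)

def k0_pp_202_s : ∃ t, chk3 f_pp_202_s t 1 1 1 = true :=
  ⟨(l 3), by decide +kernel⟩

theorem c_pp_202_s : CertNE 0 536870912 0 536870912 536870912 50465866 3 eng mog cd0q2 cd0q2 pd0 false true true .pp 2 0 2
    ndB0q2 ndB0q2 pcB0 cut_pp_202_s Ext.none :=
  certNE0 (fam := false) (s1 := true) (s2 := true) (a := 2) (b := 0) (c := 2) (cn := .pp) (n1 := ndB0q2) (n2 := ndB0q2) (pc := pcB0) (cut := cut_pp_202_s) (xt := Ext.none) (P1 := 0) (W1 := 536870912) (P2 := 0) (W2 := 536870912) (P3 := 536870912) (W3 := 50465866) (N0 := 3) (En := eng) (mo := mog) (C1 := cd0q2) (C2 := cd0q2) (C3 := pd0)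
    rfl k0_pp_202_s

noncomputable def cut_pp_202_t : Cut := Cut.of [[⟨3, 0, 0, 2845415833⟩]]

noncomputable def f_pp_202_t : ℕ → ℕ → ℕ → ℕ → Bool := onCell 0 536870912 0 536870912 536870912 50465866
    (rowNE 3 eng mog cd0q2 cd0q2 pd0 0 false true true .pp 2 0 2 (qsf 0 536870912 0 536870912 0) ndB0q2 ndB0q2 pcB0 cut_pp_202_t Ext.none)

def k0_pp_202_t : ∃ t, chk3 f_pp_202_t t 1 1 1 = true :=
  ⟨(l 3), by decide +kernel⟩

theorem c_pp_202_t : CertNE 0 536870912 0 536870912 536870912 50465866 3 eng mog cd0q2 cd0q2 pd0 false true true .pp 2 0 2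
    ndB0q2 ndB0q2 pcB0 cut_pp_202_t Ext.none :=
  certNE0 (fam := false) (s1 := true) (s2 := true) (a := 2) (b := 0) (c := 2) (cn := .pp) (n1 := ndB0q2) (n2 := ndB0q2) (pc := pcB0) (cut := cut_pp_202_t) (xt := Ext.none) (P1 := 0) (W1 := 536870912) (P2 := 0) (W2 := 536870912) (P3 := 536870912) (W3 := 50465866) (N0 := 3) (En := eng) (mo := mog) (C1 := cd0q2) (C2 := cd0q2) (C3 := pd0)
    rfl k0_pp_202_t

noncomputable def cut_pm_001_s : Cut := Cut.of [[⟨4, 0, 0, 1449551462⟩], [⟨0, 0, 1, 20971520⟩, ⟨1, 1, 2, 20971520⟩, ⟨2, 1, 0, 33554432⟩]]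

noncomputable def f_pm_001_s : ℕ → ℕ → ℕ → ℕ → Bool := onCell 0 536870912 536870912 536870912 536870912 50465866
    (rowNE 3 eng mog cd0q0 cd0q1 pd0 0 false true false .up 0 0 1 (qsf 0 536870912 536870912 536870912 0) ndB0q0 ndB0q1 pcB0 cut_pm_001_s Ext.none)

def k0_pm_001_s : ∃ t, chk3 f_pm_001_s t 1 1 1 = true :=
  ⟨(l 6), by decide +kernel⟩

theorem c_pm_001_s : CertNE 0 536870912 536870912 536870912 536870912 50465866 3 eng mog cd0q0 cd0q1 pd0 false true false .up 0 0 1
    ndB0q0 ndB0q1 pcB0 cut_pm_001_s Ext.none :=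
  certNE0 (fam := false) (s1 := true) (s2 := false) (a := 0) (b := 0) (c := 1) (cn := .up) (n1 := ndB0q0) (n2 := ndB0q1) (pc := pcB0) (cut := cut_pm_001_s) (xt := Ext.none) (P1 := 0) (W1 := 536870912) (P2 := 536870912) (W2 := 536870912) (P3 := 536870912) (W3 := 50465866) (N0 := 3) (En := eng) (mo := mog) (C1 := cd0q0) (C2 := cd0q1) (C3 := pd0)
    rfl k0_pm_001_s

noncomputable def cut_pm_001_t : Cut := Cut.of [[⟨3, 0, 0, 2845415833⟩], [⟨0, 0, 1, 20971520⟩, ⟨1, 1, 2, 20971520⟩, ⟨2, 1, 0, 33554432⟩]]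

noncomputable def f_pm_001_t : ℕ → ℕ → ℕ → ℕ → Bool := onCell 0 536870912 536870912 536870912 536870912 50465866
    (rowNE 3 eng mog cd0q0 cd0q1 pd0 0 false true false .up 0 0 1 (qsf 0 536870912 536870912 536870912 0) ndB0q0 ndB0q1 pcB0 cut_pm_001_t Ext.none)

def k0_pm_001_t : ∃ t, chk3 f_pm_001_t t 2 1 1 = true :=
  ⟨(b (l 4) (b (b (l 4) (l 2)) (l 2))), by decide +kernel⟩

def k1_pm_001_t : ∃ t, chk3 f_pm_001_t t 6 2 1 = true :=
  ⟨(b (l 4) (l 4)), by decide +kernel⟩

def k2_pm_001_t : ∃ t, chk3 f_pm_001_t t 7 4 1 = true :=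
  ⟨(l 4), by decide +kernel⟩

def k3_pm_001_t : ∃ t, chk3 f_pm_001_t t 14 10 1 = true :=
  ⟨(l 4), by decide +kernel⟩

def k4_pm_001_t : ∃ t, chk3 f_pm_001_t t 15 20 1 = true :=
  ⟨(a (l 4) (b (l 4) (a (l 4) (b (l 4) (a (l 4) (b (a (l 4) (b (l 4) (a (l 4) (b (l 4) (a (c (l 239142436871) (l 241289920231)) (b (a (l 237531824055) (a (b (l 244511145959) (l 97408517543)) (a (l 79691777543) (l 16777224)))) (a (a (b (l 117809612775) (l 16777896)) (l 42647684503)) (l 16777216)))))))) (a (a (l 4) (b (l 4) (b (a (l 4) (a (l 4) (a (l 221962567607) (b (l 4) (l 110830291303))))) (b (a (l 4) (a (a (a (l 232699985879) (l 110293420423)) (l 99556001879)) (l 16777216))) (a (a (l 4) (c (l 110293421063) (l 110830291943))) (l 16777856)))))) (a (a (a (b (l 4) (b (b (b (l 232163114967) (l 110293420503)) (l 16777872)) (l 16776208))) (b (b (l 4) (b (l 4) (c (l 173107314695) (l 109219679863)))) (c (b (l 16777904) (l 16777280)) (l 16777136)))) (b (c (b (c (l 227868147799) (l 228941889479)) (a (b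 (l 185992216583) (l 36742104583)) (b (l 47479523159) (l 16777248)))) (b (l 227868147463) (a (a (l 111367164007) (l 84523617175)) (l 16777200)))) (a (b (a (l 16777200) (l 16777200)) (l 16777184)) (l 16777184)))) (b (b (a (b (a (l 207467053655) (a (a (l 110830291175) (l 90966066903)) (l 16777880))) (a (a (a (l 109756549175) (l 74323068407)) (l 16777216)) (l 16777208))) (a (b (l 16777208) (l 16777208)) (l 16777208))) (a (a (a (l 16777208) (l 16777200)) (l 16777200)) (l 16777192))) (l 16777176)))))))))), by decide +kernel⟩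

def k5_pm_001_t : ∃ t, chk3 f_pm_001_t t 30 21 1 = true :=
  ⟨(b (l 4) (a (l 4) (b (a (l 4) (b (l 4) (a (l 4) (b (l 4) (a (l 4) (c (l 235921211703) (l 236994952887))))))) (a (b (l 4) (a (l 4) (b (l 4) (a (l 4) (b (l 223036309559) (a (l 199413989415) (l 61975040839))))))) (b (a (b (l 4) (a (l 4) (a (l 4) (a (l 217667600407) (b (l 4) (l 108145939319)))))) (b (b (a (l 4) (a (l 195655892999) (a (l 94724165975) (l 16777176)))) (a (c (a (l 4) (l 182770991223)) (l 202635214679)) (a (l 44258300103) (l 16777080)))) (b (a (a (a (l 225720664071) (l 109219681719)) (l 16779160)) (c (l 16777136) (l 16776896))) (a (l 16779072) (l 16776904))))) (a (b (b (a (l 4) (c (a (l 109756553463) (l 16777192)) (l 60364429815))) (a (a (l 240216178727) (l 102240360535)) (l 16777064))) (b (a (a (l 88281716151) (l 16777104)) (l 16776944)) (a (l 16777032) (l 16776832)))) (b (a (c (l 16774472) (l 16776760)) (l 16776728)) (l 16776592)))))))), by decide +kernel⟩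

def k6_pm_001_t : ∃ t, chk3 f_pm_001_t t 62 42 1 = true :=
  ⟨(b (l 4) (a (l 4) (b (a (l 4) (a (b (l 4) (a (l 4) (b (l 4) (a (l 199950860247) (b (l 111367163879) (l 16777224)))))) (a (b (l 4) (a (b (l 224110051271) (l 28689041975)) (b (a (l 166127995431) (l 109219680327)) (l 16777160)))) (b (a (l 243974274951) (b (l 4) (b (l 4) (l 103850970151)))) (c (b (c (l 21172849335) (l 16777224)) (l 16777216)) (l 16777104)))))) (b (b (a (l 4) (a (a (b (l 188139701511) (a (l 105998454695) (l 16777208))) (l 16778480)) (c (l 16777208) (l 16776944)))) (a (a (l 4) (a (l 4) (c (a (l 164517380135) (l 71638715911)) (l 106535327655)))) (a (a (l 16777152) (l 16777088)) (l 16777000)))) (b (a (a (c (l 243437404327) (l 245048016567)) (a (b (a (l 240216178663) (l 100092873719)) (l 44258298951)) (l 16777144))) (a (l 16777040) (l 16776920))) (a (a (a (l 217667600343) (a (a (l 108682810231) (l 95261036231)) (l 16778520))) (a (l 16777128) (l 16777056))) (l 16776896))))))), by decide +kernel⟩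

def k7_pm_001_t : ∃ t, chk3 f_pm_001_t t 63 84 1 = true :=
  ⟨(a (b (a (l 4) (b (l 4) (a (l 4) (a (b (l 4) (a (c (a (l 226794405911) (l 169349219639)) (l 181697249159)) (b (a (l 225183793111) (l 110293420663)) (l 16777208)))) (b (b (c (l 206393311255) (l 208003923815)) (a (l 172570445063) (l 40500201255))) (c (l 16777240) (l 16777152))))))) (a (b (a (l 4) (c (b (l 4) (l 243437404247)) (l 247195500007))) (b (a (l 4) (a (c (l 225720664119) (l 227331276583)) (a (b (l 207467053015) (l 57680070967)) (c (l 32447138263) (l 16777208))))) (a (c (a (l 4) (l 206393311287)) (l 219815083719)) (a (b (a (l 110293421895) (l 16778544)) (l 16778512)) (c (l 16777232) (l 16777088)))))) (a (a (b (b (l 4) (b (a (l 241289920455) (l 102777228279)) (a (l 90429197047) (l 16777192)))) (b (a (l 16777176) (l 16777160)) (l 16777112))) (b (a (b (b (l 4) (l 109219679463)) (l 16777184)) (b (b (a (l 111367162743) (l 97945389159)) (l 16777200)) (l 16777168))) (l 16777104))) (b (a (b (a (l 16777192) (l 16777176))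 (l 16777136)) (l 16777128)) (l 16777048))))) (b (a (b (a (b (a (l 4) (b (l 243974274983) (a (l 230015631303) (a (l 110293420663) (l 16777888))))) (b (a (l 220351954871) (a (a (l 110830291319) (l 16777224)) (l 16777200))) (a (a (l 198877118423) (a (l 100629743863) (l 16777216))) (l 16777192)))) (a (b (a (b (a (l 106535324535) (l 61438166695)) (l 16777200)) (l 16777200)) (l 16777176)) (c (b (l 16777272) (l 16777312)) (l 16774432)))) (a (b (c (a (c (l 6677333879) (l 16777224)) (l 16777264)) (l 16777120)) (l 16777144)) (l 16777120))) (a (b (l 16777144) (l 16777096)) (l 16777104))) (a (a (a (l 16777056) (l 16777032)) (l 16777008)) (l 16776984)))), by decide +kernel⟩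

def k8_pm_001_t : ∃ t, chk3 f_pm_001_t t 63 85 1 = true :=
  ⟨(a (b (a (b (b (b (a (a (l 4) (a (l 106535325511) (l 16777208))) (c (l 16775184) (l 16777048))) (a (a (a (l 4) (l 110293421575)) (l 16777184)) (l 16777112))) (a (a (a (b (l 108682808647) (l 16777192)) (l 16777176)) (a (l 16777152) (l 16777128))) (l 16777064))) (a (a (b (l 16775816) (l 16777056)) (l 16777040)) (l 16776968))) (c (l 16777296) (l 16776552))) (a (c (l 16777216) (l 16776408)) (l 16776672))) (c (b (l 16777536) (l 16777584)) (c (l 16776264) (l 16775464)))), by decide +kernel⟩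

def k9_pm_001_t : ∃ t, chk3 f_pm_001_t t 31 43 1 = true :=
  ⟨(a (b (a (b (a (l 4) (b (a (l 4) (a (c (b (l 4) (l 186529087575)) (l 211762020103)) (a (b (l 4) (l 78618038279)) (b (l 185455345639) (l 16777168))))) (a (a (b (l 4) (a (l 211762020343) (l 109219681399))) (b (b (l 4) (l 108682810807)) (l 19562237063))) (c (b (a (l 16778872) (l 16777176)) (l 16774536)) (l 16779624))))) (a (b (a (l 4) (a (b (l 4) (a (l 108682811303) (l 79154909031))) (b (a (l 186529087479) (l 96871649815)) (l 16777136)))) (b (a (a (l 234310598647) (a (l 109219681879) (l 16778880))) (c (l 16777160) (l 16776984))) (a (c (a (l 78618039207) (l 16777176)) (l 36742108279)) (l 16776968)))) (b (a (c (b (l 16777184) (l 16777136)) (l 16776952)) (l 16776872)) (c (l 16777048) (l 16776456))))) (b (a (a (b (a (b (a (l 95797907943) (l 16777184)) (l 16777104)) (b (l 16777112) (l 16777024))) (l 16776912)) (b (l 16776960) (l 16776776))) (c (l 16777120) (l 16776256))) (c (c (l 16777304) (l 16776696)) (l 16775840))))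 (a (b (a (b (a (c (a (l 16777144) (l 16777112)) (l 16776856)) (l 16776800)) (l 16776672)) (l 16779048)) (c (l 16776792) (l 16775520))) (c (c (l 16777288) (l 16776272)) (l 16777472)))) (b (a (a (b (l 16776496) (l 16776160)) (b (l 16776392) (l 16776080))) (c (l 16780200) (l 16774888))) (a (c (l 16779608) (l 16774176)) (c (l 16777496) (l 16773824))))), by decide +kernel⟩

def k10_pm_001_t : ∃ t, chk3 f_pm_001_t t 14 22 1 = true :=
  ⟨(a (l 4) (b (l 4) (a (l 4) (b (a (l 4) (b (a (l 4) (b (l 4) (a (l 4) (c (l 208003924631) (l 210688278583))))) (a (b (l 4) (a (l 4) (a (l 219815084407) (b (l 4) (l 93113554295))))) (b (b (a (l 4) (a (l 108145941991) (l 16777208))) (a (c (l 169886093495) (l 172033572903)) (l 16777096))) (a (a (b (l 108682811415) (l 16777096)) (l 16777048)) (l 16776872)))))) (a (a (b (l 4) (b (c (l 219815085447) (l 224110051703)) (b (a (l 4) (a (l 181160378599) (l 16779280))) (a (c (l 181697249799) (l 184381603991)) (l 16779768))))) (a (b (l 4) (b (a (b (l 225720664375)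 (l 85597361159)) (b (l 101166618407) (l 16777088))) (l 16776944))) (b (b (l 4) (a (b (l 4) (l 109756553671)) (b (l 108682812583) (l 16777152)))) (c (l 16777032) (l 16776672))))) (b (a (b (b (a (l 203172086087) (c (l 16779544) (l 16777192))) (a (a (l 173644185767) (l 16779880)) (l 16776992))) (a (l 9361690951) (l 16776792))) (b (a (l 16776832) (l 16776600)) (l 16776448))) (a (a (l 16776624) (l 16776400)) (l 16776064)))))))), by decide +kernel⟩

def k11_pm_001_t : ∃ t, chk3 f_pm_001_t t 28 23 1 = true :=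
  ⟨(b (a (l 4) (b (l 4) (a (l 4) (b (l 4) (a (l 4) (b (l 4) (a (l 4) (a (b (l 4) (l 107609069799)) (b (l 157538061127) (l 16777104)))))))))) (a (b (l 4) (a (l 4) (b (a (l 4) (b (l 4) (a (l 4) (c (b (l 4) (l 177402282903)) (l 194045281031))))) (a (b (l 4) (a (l 4) (b (l 197266506679) (a (l 166664864231) (l 58216943143))))) (b (a (a (l 4) (b (l 4) (l 100629746823))) (a (b (l 105461585863) (l 16776968)) (l 22783462407))) (a (a (b (l 83986747655) (l 16776792)) (l 16776672)) (l 16776200))))))) (b (a (b (l 4) (a (l 4) (b (a (l 4) (a (l 209077666679) (b (l 4) (l 90966070087)))) (a (a (b (l 4) (l 157001187655)) (b (l 179012895175) (l 48016395383))) (c (b (l 41037074311) (l 16776824)) (l 16776848)))))) (b (b (a (a (l 4) (c (l 206930183495) (l 213372633735))) (a (a (b (l 4) (l 82913006071)) (b (l 99556005143) (l 16776968))) (l 16776784))) (b (a (a (l 4) (a (l 169886089575) (l 56606330455))) (l 16776576)) (a (a (a (l 4) (l 107609069895)) (l 25467817399)) (l 16776288)))) (a (a (b (a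 (b (l 107609069095) (l 16776968)) (l 16776888)) (l 16776360)) (c (l 16776456) (l 16775944))) (l 16778160)))) (a (b (a (a (b (l 4) (c (b (a (l 187602830007) (l 67880619879)) (l 34057751799)) (l 69491236599))) (b (a (b (l 4) (l 96871650311)) (b (l 107072198439) (l 16776968))) (l 16776560))) (c (b (l 16778928) (l 16776072)) (l 16775848))) (a (c (l 16776016) (l 16775376)) (l 16774616))) (a (c (l 16777664) (l 16773728)) (l 16776168)))))), by decide +kernel⟩

def k12_pm_001_t : ∃ t, chk3 f_pm_001_t t 29 46 1 = true :=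
  ⟨(a (b (a (b (l 4) (a (l 4) (b (l 4) (a (l 4) (c (l 216056988839) (l 222499439047)))))) (b (a (l 4) (b (b (l 4) (a (l 4) (a (l 4) (l 105998456839)))) (b (a (l 211762020871) (a (l 101166619783) (l 16777104))) (a (a (l 185992216855) (l 61975040391)) (l 16777016))))) (a (a (b (l 4) (a (b (l 4) (l 90966070343)) (b (l 107609069463) (l 16777064)))) (b (a (b (l 4) (l 108682812023)) (b (l 164517380311) (l 16777168))) (l 16776952))) (c (b (a (l 16779768) (l 16777000)) (l 16776856)) (l 16780480))))) (a (b (a (a (l 4) (a (l 4) (b (l 4) (b (l 4) (l 105461585479))))) (a (b (c (b (l 4) (l 180086637191)) (l 195655893399)) (a (b (l 108145940871) (l 16777080)) (l 16778336))) (b (a (b (l 184381604167) (l 16778536)) (b (l 62511911271) (l 16776984))) (l 16776760)))) (a (b (a (b (l 209077666455) (a (l 179012895063) (l 61438169079))) (a (b (l 89355457431) (l 16776976)) (l 16776904))) (c (a (l 15267270103) (l 16776736)) (l 16776568))) (c (b (l 16776720) (l 16776400)) (l 16775928)))) (a (b (c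 (b (l 16776904) (l 16776656)) (l 16776256)) (l 16775672)) (c (l 16776256) (l 16775008))))) (b (a (b (a (b (a (a (b (l 109756553895) (l 16777136)) (l 16777096)) (l 16776904)) (b (l 16778304) (l 16779328))) (l 16776448)) (a (b (c (l 16782112) (l 16781392)) (c (l 16776720) (l 16775744))) (c (l 16776640) (l 16775368)))) (c (c (l 16776824) (l 16775968)) (l 16774720))) (a (b (a (l 16775712) (a (l 16775584) (a (l 16775528) (l 16775464)))) (l 16774824)) (b (c (l 16776232) (l 16773856)) (a (c (l 16776120) (l 16773488)) (l 16774600)))))), by decide +kernel⟩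

def k13_pm_001_t : ∃ t, chk3 f_pm_001_t t 29 47 1 = true :=
  ⟨(a (a (b (a (b (a (l 16776104) (l 16775744)) (l 16774776)) (a (l 16774856) (l 16774560))) (c (l 16773736) (l 16771272))) (b (c (l 16775000) (l 16772848)) (c (l 16773232) (l 16769928)))) (a (b (c (l 16774904) (l 16771968)) (l 16771192)) (b (a (l 16773544) (b (l 16774184) (l 16773368))) (l 16771512)))), by decide +kernel⟩

def k14_pm_001_t : ∃ t, chk3 f_pm_001_t t 30 44 1 = true :=
  ⟨(a (b (a (l 4) (a (l 4) (b (l 4) (b (c (l 234310599447) (l 237531823895)) (b (a (l 4) (a (l 195119022151) (l 59290686103))) (a (c (l 197803376951) (l 199413989303)) (l 23857205783))))))) (a (b (l 4) (a (l 4) (b (a (l 4) (b (l 210688278727) (a (l 182234120295) (l 16779880)))) (a (a (b (l 4) (l 110830295831)) (b (l 108682812871) (l 16777160))) (c (l 16777144) (l 16776960)))))) (b (a (b (a (l 4) (a (l 4) (b (l 4) (l 110293424887)))) (b (a (l 4) (a (l 109219682471) (l 16777120))) (a (a (l 221962567815) (l 94187296183)) (l 16777040))))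 (b (a (a (b (l 108145941927) (l 16777152)) (l 16779728)) (l 16776912)) (a (l 16776880) (l 16776656)))) (a (a (b (c (b (l 35131495127) (l 16777104)) (l 16777056)) (l 16776800)) (b (l 16776840) (l 16776576))) (l 16776360))))) (b (a (b (a (b (l 4) (a (l 4) (a (b (l 4) (l 109756553767)) (b (l 108682812631) (l 16777136))))) (b (a (a (b (l 4) (l 165054251047)) (b (l 182234120231) (l 16778512))) (c (b (l 16779176) (l 16777120)) (l 16777008))) (a (c (l 16777136) (l 16776936)) (l 16776816)))) (a (b (a (a (b (l 236994953303) (l 86671103255)) (b (l 101703489479) (l 16777096))) (c (l 16777112) (l 16776880))) (a (l 16776952) (l 16776736))) (c (l 16776896) (l 16776184)))) (a (b (b (a (l 16776848) (l 16776648)) (l 16776504)) (l 16776136)) (c (l 16776688) (l 16775320)))) (a (b (a (c (l 16776848) (l 16776072)) (l 16776040)) (c (l 16776504) (l 16774984))) (c (l 16776304) (l 16774152))))), by decide +kernel⟩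

def k15_pm_001_t : ∃ t, chk3 f_pm_001_t t 30 45 1 = true :=
  ⟨(a (b (b (a (a (b (a (l 227331277191) (a (b (l 4) (l 95797909015)) (b (l 110293424327) (l 16777096)))) (a (b (a (l 201024602279) (l 67343750039)) (l 30836527847)) (l 16776944))) (b (a (l 16776992) (l 16776760)) (l 16776600))) (c (l 16776624) (l 16775488))) (a (a (b (a (l 16776904) (l 16776680)) (l 16776520)) (l 16776200)) (l 16778168))) (a (c (c (l 16776800) (l 16776008)) (l 16777488)) (c (l 16776040) (l 16773640)))) (a (b (c (l 16776144) (l 16773872)) (c (l 16775736) (l 16772504))) (b (c (l 16775888) (l 16772760)) (l 16783928)))), by decide +kernel⟩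

def k16_pm_001_t : ∃ t, chk3 f_pm_001_t t 31 22 1 = true :=
  ⟨(a (b (a (b (c (c (l 16777040) (l 16775960)) (l 16774456)) (c (l 16776104) (l 16773088))) (b (c (l 16776448) (l 16773536)) (c (l 16776096) (l 16772232)))) (a (b (c (l 16775720) (l 16771768)) (l 16772880)) (b (l 16783776) (l 16772512)))) (b (a (b (c (l 16776728) (l 16772960)) (l 16784488)) (b (c (l 16777320) (l 16772696)) (l 16774232))) (b (a (l 16773224) (l 16773504)) (a (l 16772488) (l 16772816))))), by decide +kernel⟩

def k17_pm_001_t : ∃ t, chk3 f_pm_001_t t 15 23 1 = true :=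
  ⟨(a (b (a (b (a (c (l 16776032) (l 16773520)) (c (l 16775704) (l 16772368))) (a (l 16784608) (l 16773416))) (b (a (l 16773320) (l 16772704)) (a (l 16772752) (l 16772160)))) (a (b (a (a (b (l 16774080) (l 16773696)) (l 16773664)) (l 16773136)) (a (a (l 16772256) (l 16762352)) (b (l 16773192) (l 16762560)))) (a (b (l 16772472) (l 16772568)) (b (l 16771872) (l 16771920))))) (b (a (b (a (l 16772168) (l 16771824)) (a (l 16771624) (l 16771288))) (b (a (l 16771832) (l 16772192)) (a (l 16771304) (l 16771688)))) (a (a (b (l 16771320) (l 16771336)) (b (l 16770968) (l 16770928))) (a (l 16770864) (l 16771240))))), by decide +kernel⟩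

def k18_pm_001_t : ∃ t, chk3 f_pm_001_t t 12 12 1 = true :=
  ⟨(b (l 4) (a (l 4) (b (l 4) (a (l 4) (b (l 4) (a (b (l 4) (l 2)) (b (a (l 4) (a (b (l 4) (l 150021868215)) (b (l 170422964439) (l 48553270055)))) (a (b (a (l 2) (l 93113559287)) (l 2)) (c (l 16779936) (l 16774352)))))))))), by decide +kernel⟩

def k19_pm_001_t : ∃ t, chk3 f_pm_001_t t 13 24 1 = true :=
  ⟨(a (l 4) (b (a (l 4) (b (l 4) (a (b (l 4) (a (l 4) (b (l 4) (a (l 4) (c (b (l 186529089015) (l 88818587703)) (l 104387848359)))))) (b (a (b (l 4) (a (l 4) (c (l 182234122055) (l 188676572343)))) (b (a (l 4) (c (b (l 159685542855) (l 63048782791)) (l 95797912759))) (a (b (a (l 188676571943) (l 83449876663)) (l 41573945015)) (l 16776312)))) (a (b (b (a (l 4) (c (l 80228652551) (l 16777232))) (c (a (l 141431931623) (l 16776744)) (l 67343753703))) (c (a (l 35668365543) (l 16776024)) (l 16776208))) (l 16777704)))))) (a (b (a (l 4) (b (l 4) (a (l 4) (b (a (l 4) (b (l 4) (l 102240362071))) (a (b (l 171496703271) (l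 74323073095)) (l 30836527191)))))) (a (b (a (l 4) (b (l 4) (a (l 4) (c (l 160759285719) (l 166664865175))))) (b (a (l 4) (c (a (b (l 181697251431) (l 87207975319)) (l 38352720295)) (l 71638723703))) (a (a (l 4) (a (l 140895061015) (l 71101847431))) (l 16779744)))) (b (a (b (a (l 185455347943) (b (l 139284448007) (l 16779328))) (a (a (l 78618040615) (l 16779376)) (l 16775928))) (c (l 16777888) (l 16774904))) (a (l 16779648) (l 16772456))))) (b (a (b (b (a (a (l 4) (l 4)) (c (a (b (l 151632479207) (l 58216944055)) (l 16776552)) (l 59290690679))) (a (a (c (l 173107316695) (l 179549766999)) (b (l 98482265447) (l 16779472))) (l 16775712))) (a (a (b (b (l 67880621463) (l 16776512)) (l 16775576)) (l 16775256)) (l 16773912))) (b (a (l 16777152) (l 16772816)) (l 16781808))) (a (b (l 16777536) (l 16769752)) (l 16778144)))))), by decide +kernel⟩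

def k20_pm_001_t : ∃ t, chk3 f_pm_001_t t 26 25 1 = true :=
  ⟨(b (a (b (l 4) (a (l 4) (b (l 4) (a (l 4) (b (a (l 4) (l 174181059879)) (c (a (l 149484997287) (l 52848236631)) (l 77007434567))))))) (b (a (b (l 4) (a (l 4) (b (l 4) (a (l 4) (c (b (l 4) (l 160222414951)) (l 170422962551)))))) (b (a (l 4) (b (a (l 4) (l 169886091479)) (c (a (b (l 4) (l 94724168695)) (l 45868913895)) (l 76470562727)))) (a (b (a (l 4) (a (l 152169350583) (l 77544299463))) (a (a (l 92576686519) (l 16779648)) (l 16776072))) (c (l 16779928) (l 16774984))))) (a (a (b (a (l 4) (b (l 4) (a (l 156464318279) (l 79691783175)))) (c (b (a (l 72712462263) (l 16776120)) (l 16775136)) (l 31910274599))) (b (c (b (a (l 146263771367) (l 50700752631)) (l 16778640)) (b (l 79691788791) (l 16775792))) (l 16773464))) (a (b (a (l 16780200) (l 16779136)) (l 16771352)) (b (l 16772288) (l 16779872)))))) (a (b (a (b (a (l 4) (b (l 4) (a (l 4) (l 173107318567)))) (b (a (l 4) (a (l 151632480951) (l 52311366247))) (a (a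 (l 4) (c (l 128010159255) (l 16781704))) (l 18488497815)))) (b (a (b (a (l 4) (a (l 158611802279) (l 82376137863))) (c (a (l 73249333495) (l 16776032)) (l 16782024))) (c (l 11509175799) (l 16774736))) (a (l 16779088) (l 16771288)))) (a (a (b (a (b (l 73786204871) (l 16775312)) (l 16774864)) (l 16771656)) (b (l 16772768) (l 16768904))) (c (l 16778048) (l 16787176)))) (b (a (c (b (l 16782168) (l 16768440)) (l 16779384)) (l 16775888)) (a (l 16772704) (l 16758320))))), by decide +kernel⟩

def k21_pm_001_t : ∃ t, chk3 f_pm_001_t t 27 25 1 = true :=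
  ⟨(b (a (b (a (b (a (a (b (a (l 86134234199) (l 16779528)) (l 16775656)) (l 16775288)) (l 16773712)) (l 16782416)) (c (l 16780472) (l 16768640))) (a (c (l 16779040) (l 16766896)) (l 16763888))) (a (b (l 16765800) (l 16760488)) (b (l 16762640) (l 16757432)))) (a (a (b (a (l 16773384) (l 16782200)) (l 16755312)) (b (l 16758528) (l 16773792))) (b (l 16764040) (l 16748416)))), by decide +kernel⟩

def k22_pm_001_t : ∃ t, chk3 f_pm_001_t t 6 13 1 = true :=
  ⟨(a (b (a (l 2) (b (a (l 2) (a (l 2) (a (l 2) (b (l 16778856) (l 2))))) (l 2))) (l 2)) (b (a (b (a (b (a (l 16777368) (l 16780136)) (c (l 16770848) (l 16772968))) (b (a (l 16754560) (l 16750744)) (l 16765608))) (a (b (l 17280512487) (l 2)) (b (l 16757520) (l 16749512)))) (b (a (b (l 16767584) (l 16738664)) (a (b (l 16744400) (l 16737128)) (b (l 16742112) (l 16736512)))) (a (b (l 16730416) (l 16722128)) (l 16745080)))) (a (b (a (l 2) (b (l 16741664) (l 2))) (l 2)) (b (a (b (l 16713808) (l 16705792)) (b (l 16710808) (l 16702008)))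 (a (b (l 16719200) (l 2)) (b (l 16693448) (l 16685448))))))), by decide +kernel⟩

def k23_pm_001_t : ∃ t, chk3 f_pm_001_t t 6 7 1 = true :=
  ⟨(b (a (l 2) (b (a (l 2) (b (a (l 2) (b (a (l 2) (l 75799316471)) (l 2))) (l 2))) (l 2))) (l 2)), by decide +kernel⟩

def k24_pm_001_t : ∃ t, chk3 f_pm_001_t t 14 12 1 = true :=
  ⟨(b (a (b (a (b (a (b (a (l 4) (b (l 4) (a (c (l 187602830983) (l 194045281271)) (c (b (a (l 194045281127) (l 82913005751)) (l 39426461223)) (l 80228654951))))) (b (a (a (l 4) (a (l 4) (b (l 4) (l 101703488631)))) (a (a (b (l 105461585719) (l 16776944)) (l 16778792)) (l 16776240))) (a (a (a (l 181160379431) (b (l 192434668279) (l 60364426791))) (c (b (l 51774492935) (l 16776648)) (l 16776808))) (l 16775640)))) (b (b (a (a (a (b (l 4) (l 102240359591)) (b (l 105461585831) (l 16776960))) (c (l 16778096) (l 16776568))) (l 16775672)) (a (l 16778728) (l 16774816))) (a (l 16779968) (l 16773464)))) (a (b (a (c (b (l 16778976) (l 16775480)) (l 16775424)) (l 16774152))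 (l 16777992)) (c (l 16777480) (l 16770016)))) (a (b (c (b (l 16774288) (l 16772896)) (l 16771712)) (l 16768976)) (b (c (l 16772264) (l 16769448)) (l 16767320)))) (a (b (a (c (l 16770664) (l 16768408)) (l 16766848)) (a (l 16764480) (l 16762080))) (b (a (l 16764840) (l 16763328)) (l 16759408)))) (a (b (a (b (l 16769560) (l 16766160)) (b (l 16768744) (l 16765472))) (a (l 16760112) (l 16759608))) (b (b (a (l 16768488) (l 16768928)) (l 16765448)) (a (l 16759640) (l 16760368))))) (a (b (a (a (l 16767336) (l 16753960)) (b (l 16754384) (l 16748920))) (a (b (l 16747648) (l 16742464)) (l 16739768))) (b (a (l 16762584) (l 16750744)) (a (l 16738832) (l 16739808))))), by decide +kernel⟩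

def k25_pm_001_t : ∃ t, chk3 f_pm_001_t t 15 12 1 = true :=
  ⟨(a (b (a (b (a (l 16763368) (b (b (l 16772456) (l 16771320)) (l 16769128))) (b (l 16764632) (l 16760792))) (b (a (b (b (l 16772944) (l 16772936)) (l 16771664)) (b (l 16772408) (l 16752080))) (b (a (l 16768624) (l 16771928)) (l 16766584)))) (b (a (l 16754040) (l 16760120)) (a (l 16743480) (l 16749928)))) (b (b (a (c (l 16776088) (l 16746600)) (b (l 16771240) (l 16771888))) (a (a (b (l 16773696) (l 16772584)) (b (l 16773408) (l 16774872))) (l 16773744))) (b (a (b (l 16750128) (l 16766808)) (a (l 16754800) (l 16778096))) (a (l 16759192) (l 16751152))))), by decide +kernel⟩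

def k26_pm_001_t : ∃ t, chk3 f_pm_001_t t 7 13 1 = true :=
  ⟨(a (b (a (b (a (l 16755872) (l 16728816)) (a (b (l 16727408) (l 16720624)) (l 16719272))) (a (b (l 16725816) (l 16712696)) (b (l 16727152) (l 16712952)))) (a (b (a (l 16707016) (b (l 16712256) (l 16705208))) (a (b (l 16692496) (l 16704816)) (b (l 16695688) (a (l 16684472) (l 16685600))))) (b (a (l 16703808) (l 16699200)) (a (b (a (l 16699824) (l 16697312)) (a (l 16688544) (l 16691008))) (b (l 16689328) (l 16686480)))))) (b (a (b (a (l 16731096) (l 16737856)) (a (l 16717056) (l 16723976))) (b (a (l 16747408) (l 16760816)) (a (l 16734784) (l 16727408)))) (a (b (a (b (l 16705720) (l 16697936)) (b (l 16713328) (l 16704168))) (a (l 16686816) (l 6))) (b (a (l 16695904) (l 6)) (l 6))))), by decide +kernel⟩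

def k27_pm_001_t : ∃ t, chk3 f_pm_001_t t 7 7 1 = true :=
  ⟨(b (a (b (a (b (a (b (a (b (l 16677264) (l 16672728)) (l 16694304)) (a (l 81704871607) (c (l 16675584) (l 16654912)))) (b (l 16695616) (a (l 16685744) (l 16665376)))) (a (b (a (l 2) (c (l 72041171431) (l 75262353751))) (l 2)) (a (b (c (b (l 16668840) (l 16664192)) (l 16644384)) (a (l 2) (l 6))) (b (c (b (l 16669592) (l 16664880)) (l 16644272)) (l 6))))) (b (a (b (l 16699904) (a (l 16666824) (l 16669056))) (b (a (l 16682440) (l 6)) (l 6))) (l 6))) (a (a (l 2) (l 6)) (l 6))) (l 6)) (l 6)), by decide +kernel⟩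

theorem s28_pm_001_t : ∃ t, chk3 f_pm_001_t t 7 12 1 = true := ex3_a k24_pm_001_t k25_pm_001_t

theorem s29_pm_001_t : ∃ t, chk3 f_pm_001_t t 7 6 1 = true := ex3_b s28_pm_001_t k26_pm_001_t

theorem s30_pm_001_t : ∃ t, chk3 f_pm_001_t t 7 3 1 = true := ex3_b s29_pm_001_t k27_pm_001_t

theorem s31_pm_001_t : ∃ t, chk3 f_pm_001_t t 13 25 1 = true := ex3_a k20_pm_001_t k21_pm_001_t

theorem s32_pm_001_t : ∃ t, chk3 f_pm_001_t t 13 12 1 = true := ex3_b k19_pm_001_t s31_pm_001_t

theorem s33_pm_001_t : ∃ t, chk3 f_pm_001_t t 6 12 1 = true := ex3_a k18_pm_001_t s32_pm_001_t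

theorem s34_pm_001_t : ∃ t, chk3 f_pm_001_t t 6 6 1 = true := ex3_b s33_pm_001_t k22_pm_001_t

theorem s35_pm_001_t : ∃ t, chk3 f_pm_001_t t 6 3 1 = true := ex3_b s34_pm_001_t k23_pm_001_t

theorem s36_pm_001_t : ∃ t, chk3 f_pm_001_t t 3 3 1 = true := ex3_a s35_pm_001_t s30_pm_001_t

theorem s37_pm_001_t : ∃ t, chk3 f_pm_001_t t 30 22 1 = true := ex3_b k14_pm_001_t k15_pm_001_t

theorem s38_pm_001_t : ∃ t, chk3 f_pm_001_t t 15 22 1 = true := ex3_a s37_pm_001_t k16_pm_001_t

theorem s39_pm_001_t : ∃ t, chk3 f_pm_001_t t 15 11 1 = true := ex3_b s38_pm_001_t k17_pm_001_t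

theorem s40_pm_001_t : ∃ t, chk3 f_pm_001_t t 29 23 1 = true := ex3_b k12_pm_001_t k13_pm_001_t

theorem s41_pm_001_t : ∃ t, chk3 f_pm_001_t t 14 23 1 = true := ex3_a k11_pm_001_t s40_pm_001_t

theorem s42_pm_001_t : ∃ t, chk3 f_pm_001_t t 14 11 1 = true := ex3_b k10_pm_001_t s41_pm_001_t

theorem s43_pm_001_t : ∃ t, chk3 f_pm_001_t t 7 11 1 = true := ex3_a s42_pm_001_t s39_pm_001_t

theorem s44_pm_001_t : ∃ t, chk3 f_pm_001_t t 63 42 1 = true := ex3_b k7_pm_001_t k8_pm_001_t

theorem s45_pm_001_t : ∃ t, chk3 f_pm_001_t t 31 42 1 = true := ex3_a k6_pm_001_t s44_pm_001_t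

theorem s46_pm_001_t : ∃ t, chk3 f_pm_001_t t 31 21 1 = true := ex3_b s45_pm_001_t k9_pm_001_t

theorem s47_pm_001_t : ∃ t, chk3 f_pm_001_t t 15 21 1 = true := ex3_a k5_pm_001_t s46_pm_001_t

theorem s48_pm_001_t : ∃ t, chk3 f_pm_001_t t 15 10 1 = true := ex3_b k4_pm_001_t s47_pm_001_t

theorem s49_pm_001_t : ∃ t, chk3 f_pm_001_t t 7 10 1 = true := ex3_a k3_pm_001_t s48_pm_001_t

theorem s50_pm_001_t : ∃ t, chk3 f_pm_001_t t 7 5 1 = true := ex3_b s49_pm_001_t s43_pm_001_t

theorem s51_pm_001_t : ∃ t, chk3 f_pm_001_t t 7 2 1 = true := ex3_b k2_pm_001_t s50_pm_001_t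

theorem s52_pm_001_t : ∃ t, chk3 f_pm_001_t t 3 2 1 = true := ex3_a k1_pm_001_t s51_pm_001_t

theorem s53_pm_001_t : ∃ t, chk3 f_pm_001_t t 3 1 1 = true := ex3_b s52_pm_001_t s36_pm_001_t

theorem s54_pm_001_t : ∃ t, chk3 f_pm_001_t t 1 1 1 = true := ex3_a k0_pm_001_t s53_pm_001_t

theorem c_pm_001_t : CertNE 0 536870912 536870912 536870912 536870912 50465866 3 eng mog cd0q0 cd0q1 pd0 false true false .up 0 0 1
    ndB0q0 ndB0q1 pcB0 cut_pm_001_t Ext.none :=
  certNE0 (fam := false) (s1 := true) (s2 := false) (a := 0) (b := 0) (c := 1) (cn := .up) (n1 := ndB0q0) (n2 := ndB0q1) (pc := pcB0) (cut := cut_pm_001_t) (xt := Ext.none) (P1 := 0) (W1 := 536870912) (P2 := 536870912) (W2 := 536870912) (P3 := 536870912) (W3 := 50465866) (N0 := 3) (En := eng) (mo := mog) (C1 := cd0q0) (C2 := cd0q1) (C3 := pd0)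
    rfl s54_pm_001_t

noncomputable def cut_pm_011_s : Cut := Cut.of [[⟨4, 0, 0, 1449551462⟩], [⟨0, 0, 0, 67108864⟩, ⟨1, 1, 0, 67108864⟩, ⟨2, 1, 0, 67108864⟩], [⟨0, 0, 1, 20971520⟩, ⟨1, 1, 2, 20971520⟩, ⟨2, 1, 0, 33554432⟩]]

noncomputable def f_pm_011_s : ℕ → ℕ → ℕ → ℕ → Bool := onCell 0 536870912 536870912 536870912 536870912 50465866
    (rowNE 3 eng mog cd0q0 cd0q1 pd1 0 false true false .pnn 0 1 1 (qsf 0 536870912 536870912 536870912 1) ndB0q0 ndB0q1 pcB1 cut_pm_011_s Ext.none)

def k0_pm_011_s : ∃ t, chk3 f_pm_011_s t 1 1 1 = true :=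
  ⟨(l 6), by decide +kernel⟩

theorem c_pm_011_s : CertNE 0 536870912 536870912 536870912 536870912 50465866 3 eng mog cd0q0 cd0q1 pd1 false true false .pnn 0 1 1
    ndB0q0 ndB0q1 pcB1 cut_pm_011_s Ext.none :=
  certNE0 (fam := false) (s1 := true) (s2 := false) (a := 0) (b := 1) (c := 1) (cn := .pnn) (n1 := ndB0q0) (n2 := ndB0q1) (pc := pcB1) (cut := cut_pm_011_s) (xt := Ext.none) (P1 := 0) (W1 := 536870912) (P2 := 536870912) (W2 := 536870912) (P3 := 536870912) (W3 := 50465866) (N0 := 3) (En := eng) (mo := mog) (C1 := cd0q0) (C2 := cd0q1) (C3 := pd1)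
    rfl k0_pm_011_s

end Pool.Agent.Strip051.G.I5000_5470.Tab.CS.BB00

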