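import Pool.Agent.Strip051.G.I5000_5470.Tab
import Pool.Agent.Strip051.PB.StripB

/-! # Strips, near vertex: certificates 5 (generated) -/

set_option linter.all false
set_option maxRecDepth 100000

namespace Pool.Agent.Strip051.G.I5000_5470.Tab.CS.BB00

open Pool.Agent.Strip051.PB Pool.Agent.Strip051.PB.T
open Pool.Agent.Strip051.G.I5000_5470.Tab

noncomputable def cut_pm_011_t : Cut := Cut.of [[⟨3, 0, 0, 2845415833⟩], [⟨0, 0, 0, 67108864⟩, ⟨1, 1, 0, 67108864⟩, ⟨2, 1, 0, 67108864⟩], [⟨0, 0, 1, 20971520⟩, ⟨1, 1, 2, 20971520⟩, ⟨2, 1, 0, 33554432⟩]]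

noncomputable def f_pm_011_t : ℕ → ℕ → ℕ → ℕ → Bool := onCell 0 536870912 536870912 536870912 536870912 50465866
    (rowNE 3 eng mog cd0q0 cd0q1 pd1 0 false true false .pnn 0 1 1 (qsf 0 536870912 536870912 536870912 1) ndB0q0 ndB0q1 pcB1 cut_pm_011_t Ext.none)

def k0_pm_011_t : ∃ t, chk3 f_pm_011_t t 2 2 1 = true :=
  ⟨(l 4), by decide +kernel⟩

def k1_pm_011_t : ∃ t, chk3 f_pm_011_t t 4 6 1 = true :=
  ⟨(l 4), by decide +kernel⟩

def k2_pm_011_t : ∃ t, chk3 f_pm_011_t t 4 14 1 = true :=
  ⟨(a (l 4) (b (l 4) (a (l 4) (b (l 4) (a (l 4) (b (l 4) (a (b (l 4) (a (l 4) (b (l 4) (b (b (l 4) (a (l 4) (a (l 4) (a (l 4) (a (l 90966067767) (l 61975037639)))))) (b (a (l 4) (a (a (l 4) (l 143042544311)) (a (l 16778040) (l 16776512)))) (b (a (l 4) (a (a (l 80765519863) (l 16776896)) (l 16776096))) (a (a (l 4) (l 161833026631)) (l 16777488)))))))) (b (a (l 4) (b (b (l 4) (a (l 4) (a (l 4) (a (l 4) (l 180086638791))))) (b (a (l 4) (a (b (l 4) (a (l 159148671927) (l 47479523191))) (a (b (l 94187293031)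 (l 16776640)) (l 16778120)))) (a (b (a (l 4) (a (l 177939154199) (a (l 81839262103) (l 16777872)))) (a (a (l 4) (l 89892325671)) (l 16778024))) (a (l 16777320) (l 16775024)))))) (a (a (b (a (l 4) (b (l 4) (b (l 4) (a (l 149484995351) (l 38352717543))))) (b (a (b (a (l 167201735783) (c (l 16778216) (l 57680070503))) (l 16777936)) (l 16777320)) (l 16775552))) (b (a (a (b (l 4) (b (c (l 85597358135) (l 86671099943)) (l 16776560))) (b (l 177939154999) (l 16777800))) (b (b (a (l 4) (l 154316833655)) (a (c (l 16778256) (l 63585650631)) (l 16776776))) (l 16775680))) (c (l 16774872) (c (l 16774792) (l 16774744))))) (b (b (b (a (a (a (l 43184555831) (l 16776608)) (l 16775808)) (l 16776832)) (a (l 16776752) (l 16775936))) (a (l 16775400) (l 16774584))) (c (a (l 16772776) (l 16769376)) (a (l 16772616) (l 16771776))))))))))))), by decide +kernel⟩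

def k3_pm_011_t : ∃ t, chk3 f_pm_011_t t 8 30 1 = true :=
  ⟨(a (l 4) (b (l 4) (a (l 4) (b (l 4) (a (l 4) (b (l 4) (a (l 4) (b (l 4) (b (a (l 4) (a (l 4) (b (a (l 4) (l 174717928855)) (b (a (l 4) (a (l 85060486231) (l 16777768))) (a (a (l 79154906695) (l 16777808)) (l 16776760)))))) (a (a (l 4) (b (l 4) (a (b (l 4) (a (l 4) (l 73786197063))) (b (a (l 168275477111) (l 61975036999)) (l 16777592))))) (a (b (b (a (l 4) (a (l 89355454103) (l 38889587799))) (a (a (l 97945388711) (l 48553264279)) (l 16776848))) (c (l 16777728) (l 16777200))) (c (l 16776848) (c (l 16776808) (l 16776696)))))))))))))), by decide +kernel⟩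

def k4_pm_011_t : ∃ t, chk3 f_pm_011_t t 16 31 1 = true :=
  ⟨(b (b (l 4) (l 14)) (l 14)), by decide +kernel⟩

def k5_pm_011_t : ∃ t, chk3 f_pm_011_t t 34 124 1 = true :=
  ⟨(a (l 4) (b (l 4) (b (l 4) (b (l 4) (a (l 4) (a (l 4) (a (b (l 4) (a (b (l 4) (a (l 4) (l 158611800631))) (a (b (l 4) (b (l 105461580567) (l 16777456))) (b (b (l 4) (l 99556000503)) (l 16777640))))) (a (a (b (l 4) (b (b (l 74859938839) (l 16777096)) (l 16776728))) (b (b (l 4) (b (l 4) (l 82913002247))) (l 16777288))) (b (a (b (l 4) (b (l 74323067703) (l 16777056))) (b (b (l 4) (l 68954358551)) (l 16776920))) (l 16776976)))))))))), by decide +kernel⟩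

def k6_pm_011_t : ∃ t, chk3 f_pm_011_t t 68 125 1 = true :=
  ⟨(b (b (l 4) (l 14)) (l 14)), by decide +kernel⟩

def k7_pm_011_t : ∃ t, chk3 f_pm_011_t t 69 500 1 = true :=
  ⟨(b (a (l 4) (a (b (a (l 4) (a (a (l 4) (b (l 4) (l 171496702647))) (a (b (l 4) (b (l 102240355559) (l 16777600))) (b (l 165054251639) (l 16777584))))) (a (a (l 4) (b (l 4) (b (a (l 4) (l 49090134871)) (a (l 56606327591) (l 16776992))))) (a (b (b (a (l 107609064647) (l 38352716583)) (a (l 43721425719) (l 16776960))) (l 16776728)) (l 16776776)))) (b (a (b (a (b (a (l 120493966087) (l 16777472)) (l 16777520)) (l 16776632)) (l 16776728)) (a (l 16776520) (l 16775344))) (a (a (l 16776584) (l 16775408)) (l 16775288))))) (a (a (l 4) (a (a (l 4) (b (l 4) (b (l 4) (b (a (l 4) (l 103314096919)) (a (l 109219676967) (l 16777448)))))) (a (b (l 4) (b (b (a (l 4) (a (l 106535322535) (l 69491229271))) (a (l 98482258679) (l 16777416))) (c (l 16777520) (l 16777504)))) (b (b (l 4) (b (a (l 4) (l 74859938615)) (a (l 82913002247)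 (l 16777056)))) (b (l 16777312) (l 16776984)))))) (a (a (a (b (b (b (a (l 4) (l 64659391223)) (a (l 69491229463) (l 16777024))) (l 16777448)) (c (l 16776736) (l 16776688))) (b (c (l 16777184) (l 16777152)) (l 16776192))) (b (a (a (l 16776776) (l 16776520)) (l 16775472)) (l 16775416))) (a (b (l 16775352) (l 16773720)) (c (l 16773256) (l 16774392)))))), by decide +kernel⟩

def k8_pm_011_t : ∃ t, chk3 f_pm_011_t t 69 501 1 = true :=
  ⟨(a (b (a (b (b (l 4) (l 14)) (l 14)) (b (b (a (b (a (c (l 158074929767) (l 162369897047)) (l 3456107223)) (a (a (l 128010158791) (l 16777480)) (l 16776760))) (c (l 16776784) (l 16776736))) (a (a (c (l 16777576) (c (l 16777568) (l 16777560))) (l 16777048)) (l 16776264))) (a (a (c (l 16776856) (l 16776808)) (l 16776312)) (c (l 16774928) (l 16774824))))) (a (l 14) (b (a (c (l 16774984) (l 16775536)) (l 16773896)) (a (l 14) (l 16772912))))) (a (a (b (b (l 16775312) (l 16773840)) (l 16773024)) (b (a (l 16774200) (l 16773032)) (l 16771328))) (a (b (l 16772912)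 (l 16770296)) (b (l 16771216) (l 16769264))))), by decide +kernel⟩

def k9_pm_011_t : ∃ t, chk3 f_pm_011_t t 69 251 1 = true :=
  ⟨(a (b (a (l 14) (a (l 14) (b (l 16772744) (l 14)))) (l 14)) (b (b (a (a (l 16770400) (l 16769368)) (l 16769136)) (c (a (l 16768120) (l 16766104)) (a (l 16767712) (l 16765608)))) (b (c (a (l 16767504) (l 16765496)) (a (l 16765704) (l 16763608))) (a (l 14) (c (l 16763568) (l 16761592)))))), by decide +kernel⟩

def k10_pm_011_t : ∃ t, chk3 f_pm_011_t t 140 62 1 = true :=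
  ⟨(b (b (l 4) (a (b (l 4) (b (b (a (l 4) (a (b (l 4) (b (l 166127993495) (a (l 104924710119) (l 16777512)))) (b (b (l 159685542471) (a (l 122641449735) (l 16777472))) (l 16777568)))) (a (a (b (l 4) (a (l 4) (b (l 4) (l 52311360359)))) (b (b (l 173107315415) (a (l 4) (l 16777544))) (c (l 16777648) (c (l 16777632) (l 8287945575))))) (b (b (a (l 14730396503) (l 16777208)) (l 16777224)) (l 16776856)))) (b (b (a (a (a (a (l 44795167543) (l 16777408)) (l 16776888)) (l 16776496)) (l 16776376)) (a (l 16776928) (l 16775232))) (a (a (l 16776456) (l 16775280)) (l 16774504))))) (a (b (b (l 4) (b (l 4) (a (b (l 4) (a (l 155927446039) (b (l 100092871415) (l 16777112)))) (b (a (c (l 84523615831) (l 149484995015)) (a (l 58216940407) (l 16777456))) (l 16777496))))) (b (b (b (a (l 16777536) (l 16777016)) (l 16776792)) (c (l 16776760) (l 16776024))) (c (l 16775336) (l 16774536)))) (b (b (l 4) (b (b (a (l 4) (a (b (l 4) (l 61975036647)) (c (l 16777784) (l 16777616)))) (a (a (b (l 4) (l 73786196775))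 (c (l 16777816) (l 31373394871))) (l 16776768))) (a (l 16777136) (l 16776704)))) (b (b (c (l 16776688) (l 16776608)) (l 16774368)) (l 16773576)))))) (a (b (b (a (b (b (l 16775880) (l 16773600)) (l 16773448)) (b (c (l 16773136) (l 16772960)) (l 16771104))) (b (a (l 16770184) (l 16769160)) (l 16769032))) (b (c (b (l 16766008) (l 16764096)) (l 16765824)) (b (a (l 16763672) (l 16762648)) (c (l 16760264) (l 16759504))))) (b (b (b (a (l 16772016) (l 16770984)) (l 16770864)) (b (l 16770232) (l 16768288))) (b (c (b (l 16764008) (l 16762096)) (l 16762424)) (c (c (l 16759424) (l 16760344)) (c (l 16758632) (l 16758224))))))), by decide +kernel⟩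

def k11_pm_011_t : ∃ t, chk3 f_pm_011_t t 141 124 1 = true :=
  ⟨(b (b (l 4) (b (a (l 4) (a (l 4) (a (l 4) (b (l 4) (b (l 4) (a (l 169886089895) (c (l 65733133351) (l 67343746071)))))))) (a (b (l 4) (b (l 4) (a (l 4) (a (l 4) (c (l 153779962583) (c (l 157001188039) (l 158611800775))))))) (a (a (b (l 4) (b (a (l 4) (a (l 103850968535) (l 72175584471))) (a (c (l 16777856) (l 41573942199)) (l 16776936)))) (b (b (l 4) (a (l 4) (a (l 95261033879) (l 72175584231)))) (b (a (l 30836524055) (l 16776896)) (l 16776544)))) (b (b (a (a (l 4) (c (l 77007422503) (l 75933680743))) (l 16777608)) (b (a (l 22246589367) (l 16777248)) (l 16776608))) (l 16776584)))))) (b (b (a (a (b (a (l 4) (b (l 4) (l 166664864615))) (b (a (l 172570444711) (a (b (l 135526351591) (l 16777520)) (l 16777704))) (a (a (b (l 107072193815) (l 16777544)) (l 16777576)) (l 16776696)))) (b (a (b (c (l 159148671783) (l 163980509959)) (a (a (l 78081164311) (l 44258296615)) (l 16777664))) (a (b (c (l 49627005927) (l 50163876839))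 (l 16776752)) (l 16777392))) (c (l 16776184) (l 16776792)))) (a (b (a (l 16776344) (l 16777136)) (l 16775784)) (b (l 16776360) (l 16774088)))) (a (b (a (a (l 16777144) (l 16776632)) (l 16775856)) (a (a (l 16775528) (l 16775008)) (l 16774232))) (a (a (l 16773944) (l 16773424)) (l 16772648)))) (b (b (a (c (l 16775168) (l 16774368)) (l 16771720)) (a (l 16773480) (l 16770760))) (a (a (l 16771888) (l 16770856)) (l 16770624))))), by decide +kernel⟩

def k12_pm_011_t : ∃ t, chk3 f_pm_011_t t 141 125 1 = true :=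
  ⟨(b (b (b (a (l 16770752) (l 16767384)) (a (l 16767504) (l 16765456))) (a (b (l 16765560) (l 16764928)) (c (c (l 16764328) (l 16762704)) (l 16762232)))) (a (b (c (c (l 16762048) (l 16760880)) (l 16760344)) (c (b (l 16758200) (b (l 16756768) (l 16759736))) (b (l 16757352) (b (l 16755856) (l 16757480))))) (b (c (c (l 16759264) (l 16758872)) (l 16758264)) (b (c (l 16756224) (l 16757904)) (a (c (l 16758728) (l 16759048)) (l 16753296)))))), by decide +kernel⟩

def k13_pm_011_t : ∃ t, chk3 f_pm_011_t t 71 248 1 = true :=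
  ⟨(a (b (b (a (l 4) (a (l 4) (b (l 4) (b (a (l 4) (c (l 154316833495) (l 158074929863))) (a (l 162906768151) (a (l 48016393351) (l 16776976))))))) (b (a (l 4) (a (b (a (l 4) (l 169349219175)) (a (l 174181057463) (a (l 71638713415) (l 16777712)))) (b (a (a (l 60901295159) (l 16777016)) (l 16776632)) (l 16776408)))) (a (b (l 4) (a (l 4) (a (l 4) (a (c (l 90429195415) (l 93113549959)) (l 27615298551))))) (b (a (a (a (c (l 81302389831) (l 83449873463)) (l 16777760)) (l 16776712)) (l 16777248)) (a (l 16777152) (l 16775456)))))) (a (a (b (a (b (l 4) (b (a (l 162369897047) (c (l 55532586023) (l 56606327831))) (l 16777568))) (b (b (l 4) (a (a (l 4) (l 88818582871)) (c (l 16777872) (l 45332038695)))) (c (l 16777304) (l 16777272)))) (b (l 16776592) (l 16776288))) (b (b (b (a (a (c (l 82913003063) (l 107609064503)) (l 35131491399)) (l 16776792)) (l 16777232)) (l 16776512)) (c (l 16775792) (l 16775016)))) (a (b (b (l 16776432) (l 16774824)) (l 16774704)) (b (c (l 16775640) (l 16775512)) (l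 16772360))))) (b (b (a (a (a (b (b (l 4) (c (l 148411253367) (l 152169349735))) (b (a (l 38352716887) (l 16776936)) (l 16776592))) (b (b (a (l 4) (l 85597357143)) (l 16341009399)) (l 16776312))) (b (a (a (l 16777688) (l 16776616)) (l 16776224)) (l 16776848))) (a (b (l 16776760) (l 16774504)) (l 16774600))) (b (a (a (a (l 16777184) (l 16775360)) (l 16774584)) (l 16774352)) (a (c (l 16775528) (l 16775392)) (l 16772088)))) (b (a (c (l 16774128) (l 16773448)) (l 16771976)) (a (l 16772128) (l 16768768))))), by decide +kernel⟩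

def k14_pm_011_t : ∃ t, chk3 f_pm_011_t t 71 249 1 = true :=
  ⟨(a (b (b (a (a (l 16774192) (l 16772504)) (l 16771944)) (a (a (l 16771616) (l 16770592)) (l 16769048))) (a (b (l 16769184) (l 16767264)) (a (l 16766688) (l 16765664)))) (a (b (c (l 16769464) (l 16769072)) (c (l 16764408) (l 16763856))) (b (c (l 16766152) (l 16765672)) (c (l 16762416) (l 16761776))))), by decide +kernel⟩

def k15_pm_011_t : ∃ t, chk3 f_pm_011_t t 71 125 1 = true :=
  ⟨(b (a (a (b (c (l 16765960) (l 16764096)) (c (c (l 16761048) (l 16760696)) (l 16760152))) (b (b (l 16763296) (l 16761376)) (b (l 16762072) (l 16760144)))) (b (c (a (l 16761968) (l 16758680)) (l 16761520)) (a (b (l 16757424) (l 16755504)) (b (l 16755408) (l 16753488))))) (b (b (a (c (l 16759664) (l 16756152)) (c (a (l 16754080) (l 16757360)) (a (l 16753064) (c (l 16756536) (l 16755968))))) (a (a (l 16756984) (b (l 16754144) (a (l 16753680) (l 16752672)))) (a (b (a (l 16752632) (l 16751624)) (l 16751160)) (l 16749640)))) (a (b (b (a (a (l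 16754728) (l 16758960)) (l 16757448)) (a (a (l 16758992) (l 16752744)) (l 16751232))) (l 16753408)) (c (l 16748368) (l 16747104))))), by decide +kernel⟩

def k16_pm_011_t : ∃ t, chk3 f_pm_011_t t 17 63 1 = true :=
  ⟨(a (b (a (l 14) (a (l 14) (a (l 14) (b (b (b (c (l 16760328) (l 16759576)) (l 14)) (l 14)) (l 14))))) (l 14)) (a (a (b (b (b (b (b (a (l 16761040) (c (c (l 16759680) (l 16756608)) (c (l 16756160) (l 16760936)))) (a (a (l 16757944) (b (l 16757168) (l 16756680))) (c (l 16755864) (l 16754928)))) (a (a (a (l 14) (a (l 14) (l 16756080))) (l 16755448)) (l 16753928))) (a (c (l 16753520) (l 16752464)) (c (l 16751544) (l 16750408)))) (a (l 14) (a (l 14) (b (l 16746528) (l 14))))) (l 14)) (b (b (b (c (a (l 16756032) (l 16751440)) (b (l 16752328) (l 16750328))) (c (c (l 16748896) (l 16748280)) (l 16747328))) (a (b (l 16745032) (l 16741088)) (b (l 16743032) (l 16739096)))) (a (l 14) (b (b (b (l 16736136) (l 14)) (l 14)) (l 14))))) (b (b (b (c (a (l 16748496) (l 16744584)) (a (l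 16747224) (l 16743152))) (c (a (l 16744672) (l 16740784)) (a (l 16743248) (l 16739192)))) (b (c (a (l 16740848) (l 16736976)) (a (l 16739248) (l 16735216))) (c (a (l 16737008) (l 16733160)) (a (l 16735248) (l 16731232))))) (b (b (c (a (b (l 16734128) (a (l 16733168) (l 16731240))) (b (l 16730296) (c (l 16728896) (l 16727840)))) (b (l 16735472) (a (l 16730224) (l 16726232)))) (a (c (l 16729296) (l 16727200)) (l 16729600))) (b (c (l 16728760) (l 16721184)) (c (l 16724880) (l 16717144))))))), by decide +kernel⟩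

def k17_pm_011_t : ∃ t, chk3 f_pm_011_t t 18 60 1 = true :=
  ⟨(a (l 4) (b (l 4) (a (l 4) (b (l 4) (a (b (l 4) (a (l 4) (a (b (l 4) (b (l 174717929207) (b (a (l 176865412023) (l 16777840)) (l 23320331927)))) (a (b (l 4) (b (a (l 77007423911) (l 49090135639)) (l 16776432))) (b (b (l 4) (l 159685542919)) (l 16777680)))))) (b (b (b (l 4) (a (l 4) (a (l 4) (a (l 161833026599) (c (l 16778200) (l 53385103191)))))) (b (a (l 4) (a (a (l 175791670567) (a (l 80228649415) (l 52848232039))) (l 16777896))) (b (a (l 4) (a (l 16777928) (l 16777216))) (a (a (l 4) (a (l 4) (l 16777896))) (l 16775968))))) (a (a (b (a (b (l 4) (a (l 68954359639) (l 16777760))) (b (l 145190028039) (l 16776704))) (l 16776904)) (b (a (a (b (l 51237619303) (l 16777624)) (l 16777824)) (l 16776120)) (l 16775864))) (b (l 16775808) (l 16774312))))))))), by decide +kernel⟩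

def k18_pm_011_t : ∃ t, chk3 f_pm_011_t t 36 122 1 = true :=
  ⟨(a (l 4) (b (l 4) (b (a (l 4) (a (l 4) (a (l 4) (b (l 4) (b (l 4) (a (l 165591123095) (b (l 110830290487) (l 16777728)))))))) (b (a (l 4) (a (b (l 4) (b (l 4) (a (l 4) (a (l 4) (l 58216940999))))) (a (b (b (l 171496703287) (a (l 175254799271) (l 39963329831))) (a (b (l 49090135399) (l 16776760)) (l 16776480))) (a (b (l 8824816935) (l 16777272)) (l 16775912))))) (a (b (l 4) (b (l 4) (a (l 4) (a (l 4) (a (l 4) (l 103314097639)))))) (a (b (b (a (l 4) (a (l 68954359239) (l 16776816))) (a (a (l 4) (l 78618035719)) (l 16776608))) (a (b (a (c (l 74323068871) (l 75933681591)) (l 16776920)) (l 16777368)) (l 16775912))) (c (l 16776192) (l 16776096)))))))), by decide +kernel⟩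

def k19_pm_011_t : ∃ t, chk3 f_pm_011_t t 36 246 1 = true :=
  ⟨(a (a (l 4) (b (l 4) (b (a (l 4) (a (b (l 4) (b (a (l 4) (l 149484995159)) (a (l 157001188023) (l 16777720)))) (b (b (a (l 4) (a (l 108145936151) (l 66270004327))) (a (c (l 96871646679) (l 99556001223)) (l 16777616))) (c (l 16777848) (l 16777648))))) (a (a (a (l 4) (b (l 4) (b (l 4) (a (l 88818582631) (l 16777776))))) (a (b (l 173644186951) (b (a (l 75933680727) (l 16777072)) (l 16776736))) (b (b (l 164517380887) (l 36205233415)) (l 16776448)))) (b (a (a (b (l 28689040551) (l 16776640)) (l 16776360)) (l 16776896)) (l 16776144)))))) (b (b (a (a (b (l 4) (a (l 4) (a (l 4) (l 175254799735)))) (b (a (a (l 4) (l 166127994023)) (b (a (l 112440903255) (l 16777680)) (l 5603591495))) (a (b (a (l 168275477319) (l 16777872)) (a (l 40500200759) (l 16776664))) (l 16776120)))) (c (a (l 16776392) (l 16775688)) (a (l 16776064) (l 16775520)))) (a (a (b (a (l 4) (a (b (l 4) (c (l 16777920) (l 58753811831))) (b (l 47479522759) (l 16776760))))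 (a (b (a (l 4) (c (l 67343746455) (l 68417488263))) (a (c (l 65733134231) (l 78618035623)) (l 16776864))) (l 16776976))) (c (l 16776592) (a (l 16777040) (l 16775984)))) (a (c (l 16775888) (l 16774416)) (l 16771128)))) (a (a (a (b (b (l 16777400) (l 16776800)) (l 16775400)) (b (l 16776232) (l 16773056))) (b (a (l 16775208) (l 16772864)) (l 16774144))) (a (c (l 16773152) (l 16771568)) (l 16769664))))), by decide +kernel⟩

def k20_pm_011_t : ∃ t, chk3 f_pm_011_t t 36 247 1 = true :=
  ⟨(a (a (b (b (a (l 4) (b (b (l 4) (a (l 4) (a (l 4) (a (l 94187292279) (l 16777704))))) (b (a (l 4) (a (a (l 103314097879) (l 58216940567)) (l 16776872))) (a (a (l 4) (a (l 173644186295) (l 68417487991))) (l 16777320))))) (a (b (b (l 4) (a (l 4) (a (l 4) (l 148948124263)))) (a (a (l 4) (a (l 4) (l 165591122919))) (b (a (l 156464317111) (l 21709718599)) (a (c (l 16777768) (l 27078427799)) (l 16776584))))) (b (a (a (b (c (l 97408517607) (l 142505673207)) (l 16777672)) (l 16777712)) (l 16775960)) (c (l 16776880)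 (l 16776152))))) (b (b (a (a (b (a (l 169349219191) (c (l 16777808) (l 34057749751))) (a (a (l 73249326151) (l 16777064)) (l 16776672))) (l 16776792)) (c (l 16775960) (l 16775848))) (a (a (l 16776880) (l 16776504)) (l 16774960))) (a (a (a (l 16776048) (l 16775864)) (l 16775088)) (c (l 16772336) (l 16773440))))) (b (a (a (a (b (b (b (a (l 83449873943) (l 16777824)) (l 16776824)) (l 16777432)) (l 16776024)) (b (l 16776816) (l 16774200))) (b (a (l 16776872) (l 16776360)) (l 16773432))) (b (a (l 16775584) (l 16773248)) (l 16773200))) (b (a (l 16773376) (l 16770016)) (a (l 16770184) (l 16768136))))) (a (a (b (b (l 16773016) (l 16769840)) (l 16769656)) (b (c (l 16768896) (l 16771176)) (l 16764992))) (b (c (l 16768512) (l 16767720)) (c (l 16762248) (l 16761632))))), by decide +kernel⟩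

def k21_pm_011_t : ∃ t, chk3 f_pm_011_t t 74 122 1 = true :=
  ⟨(b (a (a (l 4) (b (l 4) (b (l 4) (a (b (l 4) (l 175254800167)) (a (b (l 4) (b (l 130157643223) (l 16777800))) (b (l 162369897543) (l 16777512))))))) (b (b (l 4) (a (l 4) (a (b (l 4) (a (l 4) (b (l 172570444647) (l 16777864)))) (b (b (l 162369897591) (a (l 130157643223) (l 16777744))) (c (l 16777976) (l 16777952)))))) (a (b (b (a (l 4) (a (l 4) (a (l 162369897351) (l 79154906935)))) (b (a (l 4) (a (l 77544293863) (l 16776856))) (a (a (l 4) (l 75933681671)) (l 16776656)))) (a (a (b (b (l 104387839463) (l 16777032)) (l 16776336)) (l 16777264)) (l 16776816))) (a (b (b (a (a (l 39963330055) (l 16776904)) (l 16776512)) (l 16775848)) (l 16775784)) (c (l 16775720) (l 16775616)))))) (a (b (b (b (a (l 4) (a (a (b (l 4) (l 53921973655)) (c (l 16778288) (l 16777952))) (l 16776192))) (a (a (l 4) (a (b (l 4) (l 75396810199)) (b (l 65196262807) (l 16776848)))) (l 16776728))) (a (a (b (a (c (l 152706220999) (l 154316833703)) (b (l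 73249327079) (l 16776960))) (l 16777672)) (c (l 16777288) (l 16777240))) (l 16775720))) (b (a (a (l 16776448) (l 16775416)) (l 16773872)) (a (l 16774088) (l 16770720)))) (a (b (b (a (l 16776008) (l 16773672)) (l 16773656)) (l 16771064)) (b (a (l 16773032) (l 16770688)) (l 16767536))))), by decide +kernel⟩

def k22_pm_011_t : ∃ t, chk3 f_pm_011_t t 75 122 1 = true :=
  ⟨(b (a (a (b (b (b (a (l 4) (a (c (l 95797905735) (l 143579415239)) (c (l 16778400) (l 31910266519)))) (a (a (l 155390575559) (a (l 63585650455) (l 16777728))) (l 16777728))) (b (a (l 16777848) (l 16776808)) (l 16776408))) (b (a (l 16776864) (l 16773208)) (l 16771896))) (a (b (b (l 16777144) (l 16776632)) (l 16773880)) (b (l 16775200) (l 16770232)))) (b (a (b (l 16774560) (l 16771424)) (a (l 16770784) (l 16769744))) (a (l 16771304) (l 16766616)))) (b (a (a (l 16771768) (l 16767088)) (l 16766624)) (a (c (l 16764688) (l 16766840)) (l 16760352)))), by decide +kernel⟩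

def k23_pm_011_t : ∃ t, chk3 f_pm_011_t t 37 123 1 = true :=
  ⟨(b (a (a (a (b (c (l 16770144) (l 16772480)) (l 16766304)) (b (l 16770576) (l 16764264))) (b (c (l 16765112) (l 16767264)) (l 16763824))) (a (b (l 16760792) (l 16757128)) (c (l 16757904) (l 16759712)))) (a (b (a (l 16764208) (l 16762760)) (a (l 16760504) (l 16756456))) (a (b (l 16753464) (l 16755032)) (b (l 16749408) (l 16745752))))), by decide +kernel⟩

def k24_pm_011_t : ∃ t, chk3 f_pm_011_t t 38 120 1 = true :=
  ⟨(a (l 4) (b (a (l 4) (a (l 4) (b (l 4) (b (l 4) (b (a (l 4) (l 167738607127)) (a (l 177939154743) (a (a (l 83449874727) (l 54995715687)) (l 16776840)))))))) (a (b (b (l 4) (b (l 4) (a (l 4) (a (l 4) (a (l 4) (a (l 90429196695) (l 62511908567))))))) (b (a (a (l 4) (a (l 4) (b (l 4) (l 157001188295)))) (a (b (a (l 4) (l 141968802471)) (a (l 50163877607) (l 16776656))) (a (b (l 16778032) (l 16774816)) (l 16776056)))) (a (a (b (l 175254800103) (a (c (l 83449874503) (l 85597358119)) (l 16778256))) (a (b (a (l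 77544294775) (l 16778024)) (l 16776416)) (l 16777656))) (l 16776008)))) (b (a (a (b (l 4) (b (a (l 168275477639) (a (l 72712456471) (l 16777816))) (l 16777944))) (b (b (l 4) (a (l 152169349991) (l 44795168391))) (l 16777344))) (b (b (a (a (c (l 90429196455) (l 92039809175)) (l 16777648)) (l 16776184)) (l 16777120)) (l 16775752))) (a (b (l 16775392) (l 16775536)) (b (l 16775240) (l 16770800))))))), by decide +kernel⟩

def k25_pm_011_t : ∃ t, chk3 f_pm_011_t t 38 121 1 = true :=
  ⟨(b (a (b (a (l 4) (b (a (l 4) (b (a (l 4) (a (l 145190028023) (l 35668362935))) (a (a (l 160222413831) (c (l 16778520) (l 53385103095))) (l 16776432)))) (b (a (a (l 4) (a (l 175791670551) (a (l 80228649239) (l 52311361111)))) (c (l 16777376) (l 16777336))) (a (a (a (l 4) (a (l 97408518695) (l 71101843303))) (l 16778024)) (l 16775136))))) (a (a (a (l 4) (b (l 4) (b (l 176865412919) (a (a (l 157538059047) (l 72175585143)) (l 16777968))))) (a (b (b (l 4) (l 167201736231)) (a (b (a (l 81302391255) (l 53385102967))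 (l 16776456)) (l 16777704))) (b (b (a (l 4) (l 147337511703)) (a (c (l 16778200) (l 52848232359)) (l 16776712))) (l 16775608)))) (a (a (b (b (a (l 37278975719) (l 16776584)) (l 16775928)) (l 16777184)) (c (l 16775784) (l 16775696))) (b (a (l 16776912) (l 16773248)) (l 16774568))))) (a (a (b (c (l 16775752) (b (l 16776592) (l 16776056))) (c (l 16773480) (l 16771976))) (b (a (b (l 16776352) (l 16771912)) (l 16773080)) (l 16771288))) (b (a (c (l 16772904) (l 16771400)) (l 16768072)) (c (l 16765664) (l 16767952))))) (a (a (a (b (b (a (b (a (l 146800640807) (l 37815846647)) (l 16777768)) (l 16777184)) (l 16775880)) (b (l 16775368) (l 16770928))) (b (a (l 16775232) (b (l 16776408) (l 16771968))) (l 16771064))) (a (b (c (l 16774024) (l 16772528)) (l 16767680)) (b (l 16771848) (l 16765592)))) (a (b (c (l 16766248) (l 16768536)) (l 16762464)) (c (l 16762936) (l 16762120))))), by decide +kernel⟩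

def k26_pm_011_t : ∃ t, chk3 f_pm_011_t t 39 60 1 = true :=
  ⟨(b (a (b (a (a (b (l 4) (a (a (b (l 4) (b (l 54458844935) (l 16776304))) (b (b (l 4) (a (l 173107315687) (l 91502938167))) (l 16777536))) (b (b (a (l 4) (a (l 94187293287) (l 66806875895))) (a (l 21172848455) (l 16776536))) (l 16776408)))) (b (b (l 4) (b (a (l 4) (a (l 153243091831) (l 43721426743))) (a (a (l 170959832231) (c (l 16778248) (l 64122521447))) (l 16777808)))) (b (a (a (l 16777768) (l 16775928)) (l 16775128)) (l 16775144)))) (b (a (a (b (b (l 179012896567) (a (c (l 90966067367) (l 93113550983)) (l 16777976))) (l 16777192)) (b (a (b (c (l 70564972535) (l 71638714343)) (l 16776448)) (l 16777688)) (l 16774824))) (c (l 16775488) (b (l 16776320) (l 16775792)))) (b (c (l 16775152) (l 16774048)) (a (l 16774328) (l 16769592))))) (a (a (b (c (l 16775896) (l 16774480)) (l 16770568)) (b (a (b (l 16775160) (l 16770712)) (b (l 16771472) (l 16769648))) (l 16767448))) (a (b (c (l 16771696) (l 16770176)) (c (l 16770704)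 (l 16767792))) (b (l 16766856) (l 16763200))))) (b (a (b (c (c (l 16773696) (l 16773616)) (a (b (l 16775480) (l 16771024)) (l 16771104))) (a (l 16769696) (l 16766272))) (a (b (l 16769088) (l 16764160)) (b (l 16765664) (l 16762048)))) (b (a (c (l 16763864) (l 16766136)) (l 16759488)) (a (l 16760048) (l 16755856))))) (b (a (a (b (l 16766360) (l 16761264)) (a (l 16762496) (a (l 16760896) (l 16759824)))) (a (b (l 16756392) (l 16752744)) (l 16753016))) (a (a (l 16758472) (l 16756840)) (a (c (l 16752904) (l 16752192)) (c (l 16748712) (l 16742680)))))), by decide +kernel⟩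

def k27_pm_011_t : ∃ t, chk3 f_pm_011_t t 19 61 1 = true :=
  ⟨(a (a (b (a (b (b (c (l 16769944) (l 16769608)) (l 16766136)) (c (l 16761016) (l 16760352))) (a (b (l 16764520) (l 16754976)) (b (l 16762776) (l 16752912)))) (b (c (a (l 16756496) (l 16747216)) (a (l 16750328) (l 16746184))) (a (c (l 16744128) (l 16742920)) (c (l 16745392) (l 16744072))))) (a (b (b (c (l 16757344) (l 16761960)) (c (l 16750240) (l 16749368))) (b (c (l 16743160) (l 16742032)) (b (l 16737200) (c (l 16734336) (l 16732872))))) (b (b (l 16755480) (c (l 16746136) (l 16745176))) (b (l 16743728) (b (l 16743624) (l 16729512)))))) (b (a (a (b (l 16753896) (l 16746728)) (b (l 16749664) (l 16742528))) (a (b (l 16745400) (l 16733040)) (b (a (l 16736920) (l 16734776)) (l 16728752)))) (b (a (b (l 16739280) (a (l 16732560) (l 16738896))) (a (b (l 16727760) (l 16724184)) (b (l 16723472) (l 16720016)))) (a (b (a (l 16734224) (l 16724872)) (l 16723416)) (l 16716912))))), by decide +kernel⟩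

def k28_pm_011_t : ∃ t, chk3 f_pm_011_t t 36 62 1 = true :=
  ⟨(b (b (b (b (a (a (a (c (l 16772504) (l 16773616)) (l 16770352)) (c (l 16767488) (l 16769696))) (a (l 16763208) (l 16759152))) (a (a (a (l 16771824) (l 16768464)) (l 16768024)) (a (l 16761336) (l 16757288)))) (a (a (a (a (l 16768184) (l 16767160)) (l 16768248)) (c (l 16765504) (l 16764888))) (a (c (l 16761528) (l 16758136)) (c (l 16754944) (l 16754016))))) (a (a (b (a (l 16766496) (l 16764464)) (c (a (l 16760432) (l 16758448)) (l 16761288))) (b (a (l 16762440) (l 16760416)) (c (c (l 16755712) (l 16755256)) (l 16754552)))) (a (c (b (l 16757848) (l 16751544)) (b (l 16754296) (l 16750456))) (b (c (l 16751288) (l 16750200)) (a (l 16750632) (b (l 16746944) (l 16750320))))))) (b (a (b (a (c (c (l 16755936) (l 16758104)) (l 16757400)) (c (b (l 16752704) (l 16750856)) (b (l 16751648) (l 16754952)))) (b (a (c (l 16752912) (l 16751856)) (a (a (l 16749888) (l 16754128)) (a (l 16753120) (l 16746880)))) (a (c (a (l 16752032) (l 16755296))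 (a (l 16750920) (l 16754120))) (l 16746472)))) (b (b (a (a (l 16749176) (l 16752432)) (c (l 16750088) (l 16748736))) (a (a (a (l 16747792) (l 16746784)) (l 16745288)) (l 16742312))) (c (l 16746136) (l 16745952)))) (a (b (a (a (a (b (l 16753992) (l 16748136)) (l 16748104)) (l 16746600)) (l 16743616)) (a (l 16746704) (l 16739792))) (c (b (l 16743744) (l 16734784)) (b (l 16736848) (l 16732976)))))), by decide +kernel⟩

def k29_pm_011_t : ∃ t, chk3 f_pm_011_t t 37 62 1 = true :=
  ⟨(a (b (b (a (c (b (l 16754632) (l 16750992)) (b (l 16753712) (l 16749920))) (b (l 16753424) (l 16751696))) (b (a (c (l 16747352) (l 16746120)) (b (l 16748928) (a (l 16742832) (l 16740816)))) (a (b (a (l 16744960) (l 16753440)) (l 16747312)) (l 16739032)))) (b (c (a (l 16738216) (l 16734328)) (a (l 16736584) (l 16732568))) (c (a (l 16730864) (l 16727024)) (a (l 16728920) (l 16724944))))) (a (b (b (b (l 16746120) (c (l 16743136) (l 16747024))) (b (c (l 16749960) (b (l 16738944) (l 16737064))) (l 16735072)))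 (b (l 16729520) (l 16722096))) (b (b (b (l 16742096) (b (l 16747232) (l 16748000))) (l 16732944)) (b (l 16725584) (l 16718208))))), by decide +kernel⟩

def k30_pm_011_t : ∃ t, chk3 f_pm_011_t t 19 62 1 = true :=
  ⟨(a (b (a (b (b (a (c (l 16738808) (l 16747856)) (c (l 16734776) (l 16733264))) (a (l 16734416) (l 16730432))) (c (l 16727904) (l 16726048))) (b (l 16731448) (l 16719032))) (b (a (c (l 16720768) (l 16718608)) (l 16711840)) (a (c (l 16713616) (l 16711136)) (l 16704624)))) (b (a (b (l 16718120) (l 16711040)) (b (l 16709952) (l 16702984))) (a (b (l 16703944) (l 16696832)) (b (l 16695992) (l 16688992))))), by decide +kernel⟩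

def k31_pm_011_t : ∃ t, chk3 f_pm_011_t t 9 63 1 = true :=
  ⟨(b (b (b (a (a (a (a (l 16739904) (l 16735960)) (a (l 16732040) (l 16728136))) (a (c (l 16723424) (l 16721176)) (l 16725064))) (a (a (l 16706888) (l 16699200)) (a (l 16691488) (l 16683728)))) (a (a (a (a (l 16736048) (l 16732120)) (a (l 16728216) (l 16724336))) (a (c (l 16719744) (l 16717320)) (c (l 16712184) (l 16709520)))) (a (a (l 16703208) (l 16695576)) (a (l 16687920) (l 16680192))))) (b (a (a (a (a (a (l 16733152) (l 16731200)) (l 16733512)) (a (l 16724392) (l 16720528))) (a (c (l 16721288) (l 16713464)) (a (l 16709032) (l 16705232)))) (a (a (a (l 16701432) (l 16697624)) (l 16702408)) (l 16680496))) (a (a (a (c (a (l 16729336) (l 16725528)) (l 16730504)) (b (a (l 16721512) (l 16717664)) (c (a (l 16720808) (l 16717040)) (l 16726888)))) (a (a (b (l 16713840) (l 16711928)) (a (l 16717888) (l 16718600))) (c (l 16715344) (l 16701872)))) (a (c (l 16704168) (l 16690392)) (l 16676920))))) (a (b (a (a (b (c (b (a (l 16731728)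 (l 16722688)) (l 16722680)) (b (a (l 16724264) (l 16720320)) (l 16720304))) (c (l 16725048) (l 16717320))) (c (b (a (l 16717968) (l 16714216)) (l 16712312)) (b (l 16713456) (l 16709528)))) (a (b (l 16717656) (l 16713840)) (c (l 16699336) (l 16696120)))) (a (a (c (b (l 16715976) (l 16712136)) (b (l 16713328) (l 16709336))) (b (l 16717544) (l 16713664))) (a (a (l 16709968) (l 16695752)) (c (l 16691936) (l 16688408))))) (a (a (b (l 16700728) (l 16693272)) (b (l 16682768) (l 16675416))) (b (l 16682024) (l 16678440))))), by decide +kernel⟩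

def k32_pm_011_t : ∃ t, chk3 f_pm_011_t t 5 12 1 = true :=
  ⟨(l 4), by decide +kernel⟩

def k33_pm_011_t : ∃ t, chk3 f_pm_011_t t 10 13 1 = true :=
  ⟨(l 4), by decide +kernel⟩

def k34_pm_011_t : ∃ t, chk3 f_pm_011_t t 11 26 1 = true :=
  ⟨(l 4), by decide +kernel⟩

def k35_pm_011_t : ∃ t, chk3 f_pm_011_t t 22 27 1 = true :=
  ⟨(b (l 4) (a (l 4) (b (l 4) (a (l 4) (b (l 4) (a (l 4) (b (a (l 4) (a (l 4) (b (l 4) (l 71638718135)))) (b (a (c (l 188676574567) (l 190287187239)) (a (l 37815848391) (l 16775792))) (a (a (a (l 175254799943) (l 53921976519)) (l 16779088)) (l 16774440)))))))))), by decide +kernel⟩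

def k36_pm_011_t : ∃ t, chk3 f_pm_011_t t 23 27 1 = true :=
  ⟨(b (a (l 4) (b (a (l 4) (b (l 4) (a (l 4) (b (l 4) (l 189213449191))))) (a (b (l 4) (c (a (b (l 4) (l 193508417495)) (b (l 172570449287) (c (l 38352724695) (l 36205241111)))) (a (l 197266517143) (b (l 175254803719) (l 36742112391))))) (b (a (b (l 4) (a (l 191360930983) (c (l 68417494695) (l 16781272)))) (c (b (b (l 94187300663) (l 16781864)) (l 16773800)) (b (l 57143208791) (l 16773784)))) (b (a (c (l 16780432) (l 16780416)) (l 16780640)) (c (l 16774208) (l 16768928))))))) (a (b (a (l 4) (b (a (l 4) (a (l 4) (b (l 4) (b (l 115662137319) (l 41573946135))))) (b (a (a (l 4) (c (l 170959834807) (l 173107318359))) (a (a (l 50163882103) (l 16776064)) (l 16774088))) (a (a (c (l 74323075255) (l 73249333527)) (l 16775448)) (l 16771528))))) (a (b (a (a (l 4) (b (l 4) (b (l 188676574503) (a (l 80765522391) (l 16776480))))) (a (b (c (l 173644189543) (l 175254802183)) (l 16779424)) (b (a (l 51237624087) (l 16776144)) (l 16772824))))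 (a (a (b (b (a (l 182234122407) (l 16779792)) (l 16778432)) (l 16774088)) (b (l 16774136) (l 16770128))) (b (l 16775416) (l 16771432)))) (b (a (b (l 16772832) (l 16768904)) (l 16776192)) (a (l 16768224) (l 16768352))))) (b (a (b (b (c (a (a (l 166664867223) (l 30299658183)) (l 16772728)) (a (l 64122531095) (l 16772720))) (a (c (l 16779304) (l 16774064)) (l 16779456))) (a (c (l 16778808) (l 16768328)) (l 16768536))) (b (c (l 16773904) (l 16773864)) (c (l 16766424) (l 16755888)))) (a (b (l 16765992) (l 16760840)) (b (l 16758840) (l 16751168)))))), by decide +kernel⟩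

def k37_pm_011_t : ∃ t, chk3 f_pm_011_t t 20 28 1 = true :=
  ⟨(l 4), by decide +kernel⟩

def k38_pm_011_t : ∃ t, chk3 f_pm_011_t t 21 56 1 = true :=
  ⟨(l 4), by decide +kernel⟩

def k39_pm_011_t : ∃ t, chk3 f_pm_011_t t 42 57 1 = true :=
  ⟨(b (l 4) (a (l 4) (b (l 4) (b (a (l 4) (a (a (l 4) (a (l 4) (b (l 4) (b (l 4) (b (l 4) (l 103314097831)))))) (a (b (l 4) (a (b (l 4) (b (c (l 80228648375) (l 80765519271)) (l 16776888))) (b (b (l 185992217495) (c (l 58216940791) (l 16777864))) (l 16776528)))) (b (b (l 4) (b (a (l 4) (l 100629743239)) (a (l 165591122599) (l 16777648)))) (a (a (b (l 10435429623) (l 16776096)) (l 16776920)) (l 16776312)))))) (b (a (l 4) (a (b (a (c (l 185992218551) (l 189213443975)) (a (b (l 167738606279) (l 37278975271)) (l 16777432))) (a (a (b (l 4) (l 82376132119)) (b (l 59290682823) (l 16776776))) (l 16776792))) (a (a (l 16776384) (l 16776456)) (l 16775576)))) (a (a (l 4) (b (a (l 4) (a (l 176865412247) (b (l 104924710583) (l 16777680)))) (b (a (l 186529088999)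 (a (l 16777800) (l 16776552))) (a (a (l 4) (l 60364424663)) (l 16776384))))) (a (a (a (a (l 16777008) (l 16776720)) (l 16776280)) (l 16776064)) (c (l 16774344) (l 16775600))))))))), by decide +kernel⟩

def k40_pm_011_t : ∃ t, chk3 f_pm_011_t t 86 114 1 = true :=
  ⟨(b (l 4) (a (l 4) (b (l 4) (b (l 4) (b (l 4) (a (l 4) (a (l 4) (a (a (l 4) (b (l 4) (l 71638713783))) (b (a (l 110293419719) (l 16777848)) (l 16776856)))))))))), by decide +kernel⟩

def k41_pm_011_t : ∃ t, chk3 f_pm_011_t t 87 228 1 = true :=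
  ⟨(a (l 4) (b (l 4) (a (a (l 4) (a (l 4) (b (l 4) (b (l 4) (b (l 179012895559) (c (l 48553264295) (l 16777848))))))) (a (b (l 4) (b (a (c (c (l 167738606615) (l 168812348423)) (l 169886090231)) (b (a (l 111367161687) (l 59290682343)) (l 16777560))) (a (a (l 4529849447) (l 16776640)) (l 16776168)))) (b (b (a (l 4) (a (l 4) (l 172570444647))) (a (b (l 188676572103) (c (l 61975037207) (l 16777880))) (c (c (l 2919236711) (l 16777528)) (l 16778184)))) (a (b (l 16776520) (l 16775544)) (l 16776712))))))), by decide +kernel⟩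

def k42_pm_011_t : ∃ t, chk3 f_pm_011_t t 87 229 1 = true :=
  ⟨(a (a (b (l 4) (b (a (b (l 4) (a (l 4) (b (l 4) (l 160759284327)))) (a (b (l 4) (b (a (l 111904032663) (l 67880616983)) (l 16777600))) (b (b (l 4) (a (l 100092872295) (l 16777800))) (l 16777224)))) (b (a (a (b (l 183307862887) (c (l 53385102551) (l 16777864))) (c (l 16777824) (l 16778152))) (l 16776248)) (a (a (l 16776488) (l 16775880)) (l 16776272))))) (a (b (b (l 4) (b (l 4) (b (a (l 4) (a (l 4) (l 79691777495))) (a (l 174717928215) (l 16777688))))) (b (b (a (a (b (l 70564971959) (l 16776824)) (l 16776760)) (l 16776296)) (l 16776960)) (l 16775528))) (b (b (a (l 4) (b (l 4) (l 187602830711))) (b (a (a (l 184381604871) (b (l 4) (l 16777704))) (a (b (l 88281712135) (l 16776904)) (l 16777496))) (c (l 16777000) (l 16776336)))) (b (l 16775880) (l 16774296))))) (a (b (a (b (a (b (l 4) (b (l 165591122599) (c (l 35131491367) (l 16777112)))) (b (a (l 189213443223) (b (l 4) (l 74323067991))) (l 16777544))) (b (l 16776560) (l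 16776416))) (b (b (b (a (a (l 105998452391) (l 16777824)) (l 16776688)) (l 16777176)) (l 16776120)) (l 16775656))) (c (b (l 16774352) (l 16772440)) (l 16774032))) (b (a (b (a (l 16776648) (l 16776024)) (l 16774400)) (b (l 16775080) (l 16773144))) (b (l 16771848) (l 16769928))))), by decide +kernel⟩

def k43_pm_011_t : ∃ t, chk3 f_pm_011_t t 86 230 1 = true :=
  ⟨(a (b (l 4) (b (a (l 4) (a (a (l 4) (b (l 4) (b (l 179012895559) (c (l 49627006135) (l 16777848))))) (b (a (c (l 168812348439) (l 170959832071)) (b (a (l 112440903511) (l 65733133319)) (l 16777592))) (a (a (l 16777800) (l 16776672)) (l 16776224))))) (a (a (a (l 4) (b (l 4) (l 185992217911))) (a (b (l 4) (b (l 161833026183) (l 16777832))) (b (a (l 187602830455) (b (l 4) (l 72712455223))) (l 16777384)))) (a (b (a (b (c (l 71638713767) (l 72712455543)) (l 16776840)) (l 16776480)) (l 16776496)) (l 16776104))))) (a (a (b (b (l 4) (b (c (c (l 183307863847) (l 185455347463)) (l 187065960183)) (a (b (l 188676572151) (c (l 67343746375)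 (l 16777904))) (a (b (l 70028101031) (l 16776832)) (l 16776768))))) (b (a (b (l 16776568) (l 16775632)) (l 16776816)) (l 16775240))) (b (b (b (l 4) (a (l 4) (a (l 184381604871) (b (l 4) (l 16777864))))) (b (a (b (a (l 4) (l 80228648423)) (l 16777688)) (l 16777320)) (l 16776672))) (b (l 16775912) (l 16774040)))) (b (b (a (a (b (l 188139701623) (a (b (l 89892324887) (l 16776920)) (l 16777512))) (b (b (l 167201735367) (c (l 37815845959) (l 16777128))) (l 16776400))) (b (c (c (l 16777272) (l 16777760)) (l 16777752)) (l 16776808))) (a (b (l 16776416) (l 16774816)) (l 16775392))) (b (a (l 16774712) (l 16773504)) (l 16772064))))), by decide +kernel⟩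

def k44_pm_011_t : ∃ t, chk3 f_pm_011_t t 86 231 1 = true :=
  ⟨(a (b (b (b (a (a (a (b (l 4) (c (l 77007422855) (l 77007422887))) (a (b (l 81839261175) (l 16776888)) (l 16777488))) (l 16776744)) (l 16775296)) (a (a (a (l 16777288) (l 16776040)) (l 16775160)) (l 16774696))) (c (a (l 16775520) (l 16773320)) (a (l 16775648) (l 16771960)))) (a (c (c (l 16773096) (l 16772904)) (l 16773504)) (c (l 16770552) (l 16770472)))) (a (b (b (l 16772608) (l 16770128)) (c (l 16767504) (l 16766752))) (c (b (l 16769448) (l 16764432)) (b (l 16768720) (l 16764328))))), by decide +kernel⟩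

def k45_pm_011_t : ∃ t, chk3 f_pm_011_t t 87 115 1 = true :=
  ⟨(a (a (b (b (a (b (l 16775744) (l 16774176)) (b (l 16774848) (l 16772296))) (b (l 16771672) (l 16768888))) (b (c (l 16766352) (l 16765624)) (a (l 16762552) (l 16761320)))) (b (b (b (a (l 16773624) (l 16771080)) (l 16771104)) (a (l 16768392) (l 16766832))) (c (b (l 16763232) (l 16759504)) (l 16763240)))) (c (a (b (b (l 16770240) (l 16765144)) (b (l 16764664) (l 16757000))) (b (b (l 16767064) (l 16761960)) (a (l 16757616) (l 16756176)))) (b (b (a (l 16770856) (l 16765728)) (l 16765800)) (b (l 16760056) (l 16761544))))), by decide +kernel⟩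

def k46_pm_011_t : ∃ t, chk3 f_pm_011_t t 40 58 1 = true :=
  ⟨(l 4), by decide +kernel⟩

def k47_pm_011_t : ∃ t, chk3 f_pm_011_t t 41 116 1 = true :=
  ⟨(a (l 4) (b (l 4) (a (l 4) (b (l 4) (b (b (l 4) (a (l 4) (a (l 4) (a (l 167738606615) (c (l 51774490375) (l 50163877799)))))) (b (a (l 4) (a (a (l 4) (c (l 79154907223) (l 79691778119))) (l 16777888))) (a (a (l 4) (a (l 4) (l 151632478983))) (a (a (l 16877881159) (l 16776504)) (l 16775672))))))))), by decide +kernel⟩

def k48_pm_011_t : ∃ t, chk3 f_pm_011_t t 82 117 1 = true :=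
  ⟨(b (a (l 4) (a (l 4) (a (l 4) (b (l 4) (b (l 4) (b (l 4) (a (l 106535323975) (l 16778048)))))))) (a (b (b (l 4) (a (l 4) (a (l 4) (a (l 4) (l 183307864151))))) (b (a (l 4) (a (b (l 4) (a (l 159148671895) (l 44795168583))) (a (b (l 90429196551) (l 16776600)) (l 16777816)))) (a (a (b (l 4) (a (l 4) (l 94724163927))) (b (a (l 182770992423) (l 69491230807)) (l 16778032))) (a (l 16777392) (l 16774992))))) (b (a (b (b (l 4) (a (l 4) (a (l 4) (l 84523616519)))) (a (b (a (l 4) (l 154316833607)) (a (l 63048779959) (l 16776752))) (a (b (l 16778104) (l 16776208)) (l 16776112)))) (b (a (b (a (l 172570444935) (l 57680070743)) (l 16777944)) (l 16777296)) (l 16775400))) (c (a (a (l 16776136) (l 16776368)) (l 16774752)) (b (a (l 16776424) (l 16775528)) (l 16773512)))))), by decide +kernel⟩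

def k49_pm_011_t : ∃ t, chk3 f_pm_011_t t 83 117 1 = true :=
  ⟨(b (b (b (a (l 4) (a (a (b (l 180623509207) (a (l 88818583863) (l 16778248))) (a (b (c (l 61438166935) (l 60901296087)) (l 16776368)) (l 16777576))) (c (l 16775560) (l 16775504)))) (a (a (l 4) (a (a (l 185455347879) (b (l 4) (l 70564972647))) (b (a (l 159685542807) (l 43721426743)) (l 16777824)))) (a (a (l 16776512) (l 16774744)) (l 16774392)))) (a (a (b (b (a (l 4) (a (l 4) (l 97408518519))) (a (l 173107316279) (a (l 51774490535) (l 16776648)))) (a (a (b (l 77544294631) (l 16776504)) (l 16777720)) (l 16775576))) (b (a (a (l 16778024) (l 16775992)) (l 16775168)) (l 16775240))) (a (c (l 16773976) (l 16773872)) (b (a (l 16771848) (l 16770728)) (l 16769496))))) (a (b (a (a (l 16775304) (l 16774208)) (c (l 16773936) (l 16772488))) (a (b (l 16770768) (l 16768984)) (c (l 16767784) (l 16767568)))) (a (b (c (l 16769456) (l 16770256)) (l 16766784)) (b (a (l 16767376) (l 16766264)) (l 16763256))))), by decide +kernel⟩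

def k50_pm_011_t : ∃ t, chk3 f_pm_011_t t 40 118 1 = true :=
  ⟨(a (b (l 4) (a (a (l 4) (a (l 4) (b (l 4) (b (l 4) (b (l 4) (a (l 164517381143) (l 52848232359))))))) (b (a (l 4) (b (l 4) (b (a (l 4) (a (l 4) (l 77544294567))) (a (a (l 4) (l 88818584007)) (l 16778184))))) (a (a (b (l 4) (b (a (l 101703485719) (l 16778040)) (l 16776416))) (b (b (l 171496703559) (a (l 77007423639) (l 16776872))) (l 16775792))) (b (a (a (b (l 52848232519) (l 16776328)) (l 16776240)) (l 16775440)) (l 16775496)))))) (a (b (b (l 4) (a (l 4) (a (b (l 4) (b (l 171496703559) (a (l 77544294551) (l 16776864)))) (a (b (l 4) (b (l 52848232439) (l 16776320))) (b (b (l 4) (l 102240356631)) (l 16776232)))))) (a (a (b (a (b (l 175791671207) (l 16777736)) (b (b (l 4) (l 52848232519)) (l 16775888))) (l 16774784)) (b (b (b (a (l 102777227559) (l 16778040)) (l 16776416)) (l 16775080)) (l 16774368))) (b (a (a (l 16776152) (l 16775288)) (l 16775136)) (c (l 16774160) (l 16771688))))) (a (b (b (a (l 4) (b (l 4) (b (l 4)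 (a (l 165054252039) (l 51237619623))))) (b (a (b (a (l 182770992519) (l 74859940039)) (l 16778088)) (l 16777448)) (l 16775544))) (b (l 16773856) (l 16769960))) (b (b (a (a (b (l 4) (b (l 97945389447) (l 16776664))) (b (l 183307864279) (l 16778216))) (b (b (l 169349219831) (a (l 72712456343) (l 16776832))) (l 16775760))) (b (l 16775824) (l 16775352))) (b (c (l 16771464) (l 16771272)) (l 16766504)))))), by decide +kernel⟩

def k51_pm_011_t : ∃ t, chk3 f_pm_011_t t 41 118 1 = true :=
  ⟨(a (a (b (b (b (a (a (b (a (l 48553265031) (l 16776632)) (l 16776016)) (l 16775376)) (l 16776368)) (c (l 16775072) (l 16774632))) (c (a (l 16772848) (l 16769400)) (a (l 16772696) (l 16771816)))) (b (a (l 16769216) (l 16765744)) (c (l 16763448) (l 16763088)))) (b (b (a (b (l 16774200) (l 16769800)) (c (l 16768608) (l 16768392))) (a (l 16768440) (l 16764952))) (b (c (l 16762664) (l 16762296)) (l 16761560)))) (b (a (b (a (l 16767632) (l 16764120)) (c (l 16761848) (l 16761480))) (b (c (l 16760984) (l 16760616))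 (l 16758568))) (a (b (l 16760744) (l 16754576)) (c (l 16754184) (l 16754280))))), by decide +kernel⟩

def k52_pm_011_t : ∃ t, chk3 f_pm_011_t t 20 119 1 = true :=
  ⟨(a (b (a (a (b (b (a (b (l 4) (a (l 4) (a (l 4) (l 99556002039)))) (b (a (a (l 181160379767) (l 75396810887)) (l 16777904)) (a (l 16778080) (l 16775688)))) (a (a (b (l 168275478023) (a (l 72712456279) (l 16776840))) (a (b (l 50700748711) (l 16776304)) (l 16776216))) (l 16775864))) (a (c (l 16775680) (b (l 16776504) (l 16775992))) (b (a (l 16776248) (l 16772560)) (l 16771304)))) (a (b (b (l 16775848) (l 16775368)) (c (l 16772784) (l 16771272))) (b (b (l 16775024) (l 16770616)) (l 16769248)))) (a (a (b (a (l 16769904) (l 16768840)) (l 16765800)) (b (l 16767232) (l 16763664))) (b (c (l 16764192) (l 16766456)) (l 16763080)))) (b (a (a (a (a (l 16771928) (l 16770208)) (l 16769920)) (c (l 16766888) (l 16767880))) (a (l 16763784) (l 16756896))) (a (a (a (l 16767144) (l 16765024)) (l 16764464)) (a (l 16757592) (l 16753336)))))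 (b (b (a (a (l 16762344) (l 16755392)) (a (l 16751040) (l 16746656))) (a (a (l 16756168) (l 16751856)) (c (l 16748304) (l 16744944)))) (a (a (c (l 16751168) (l 16750496)) (l 16749168)) (a (l 16744840) (a (l 16738952) (l 16736760)))))), by decide +kernel⟩

def k53_pm_011_t : ∃ t, chk3 f_pm_011_t t 84 58 1 = true :=
  ⟨(b (b (a (l 4) (b (b (l 4) (b (l 4) (a (l 4) (a (l 4) (a (l 176865412247) (b (l 105461581495) (l 16777688))))))) (a (b (b (l 4) (a (l 4) (c (c (l 168812348903) (l 170422961623)) (l 172570445255)))) (b (a (l 186529089431) (a (a (l 89355454903) (l 53921973863)) (l 16778104))) (a (a (c (l 146263769783) (l 148411253415)) (c (l 16778016) (l 16777680))) (l 16776160)))) (a (b (a (b (l 4) (a (l 64122521255) (l 16777656))) (b (b (l 186529088439) (l 59827553751)) (l 16776560))) (l 16775976)) (b (a (b (l 16777896) (l 16775992)) (l 16776536)) (l 16775656)))))) (a (a (a (b (a (l 4) (b (l 4) (l 186529089687))) (b (b (a (c (l 97945389255) (l 99019131063)) (l 16777976)) (l 16776352))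 (l 16776312))) (b (b (l 4) (a (b (l 4) (a (l 93113550903) (l 48553264711))) (b (l 158074930023) (l 16778080)))) (b (l 16776344) (l 16773888)))) (a (a (b (b (l 4) (b (c (l 39426459399) (l 39426459383)) (l 16776200))) (l 16775256)) (b (b (b (l 4) (a (l 159685542615) (l 69491230439))) (l 16776096)) (l 16774696))) (b (b (b (a (l 173644186727) (a (l 79154906999) (l 16777760))) (c (l 16777928) (l 16777920))) (l 16775904)) (l 16773688)))) (b (b (a (a (a (l 16776872) (l 16775648)) (l 16776112)) (l 16774080)) (a (l 16774536) (l 16771616))) (a (c (l 16772216) (l 16772096)) (b (l 16769808) (l 16767672)))))) (b (a (a (b (c (l 16773112) (l 16773000)) (c (l 16768904) (l 16768064))) (c (b (l 16769904) (l 16766024)) (b (c (l 16770120) (l 16770696)) (l 16765800)))) (b (c (a (l 16767992) (l 16765072)) (a (l 16767144) (l 16764856))) (a (l 16764968) (l 16761384)))) (a (a (b (l 16765896) (l 16761024)) (b (l 16762344) (l 16758776))) (b (c (l 16760416) (l 16758768)) (c (l 16755576) (l 16755168)))))), by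 decide +kernel⟩

def k54_pm_011_t : ∃ t, chk3 f_pm_011_t t 85 58 1 = true :=
  ⟨(a (b (b (a (b (b (a (a (l 4) (a (l 4) (l 187602831335))) (a (b (l 4) (b (l 169886089943) (l 16777808))) (b (c (l 161833026503) (l 165054251943)) (l 16778104)))) (b (a (a (b (l 4) (l 83449873959)) (b (l 60901295575) (l 16776792))) (l 16776160)) (a (l 16777048) (l 16775248)))) (b (a (l 16776336) (l 16775192)) (l 16773616))) (b (a (b (a (b (b (l 83449873959) (l 16776904)) (l 16776216)) (l 16776752)) (l 16775864)) (b (a (l 16776832) (l 16774944)) (l 16774712))) (b (l 16773136) (l 16770496)))) (a (c (b (l 16770944) (l 16767024)) (b (l 16770496) (l 16766192))) (b (b (l 16768840) (l 16766696)) (a (l 16764560) (l 16763400))))) (b (a (b (l 16763992) (l 16759096)) (b (l 16760376) (l 16756784))) (c (c (l 16754176) (l 16753992)) (l 16754984)))) (b (a (b (b (b (a (l 16775392) (l 16772920)) (l 16772648)) (c (l 16769792) (l 16769512))) (b (a (l 16766520) (l 16764696)) (l 16762968))) (b (b (c (l 16771600) (l 16772816))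 (b (l 16767824) (l 16765672))) (b (a (l 16763528) (l 16762352)) (l 16759312)))) (b (b (a (l 16758048) (l 16755704)) (l 16755008)) (c (l 16749776) (l 16747696))))), by decide +kernel⟩

def k55_pm_011_t : ∃ t, chk3 f_pm_011_t t 43 58 1 = true :=
  ⟨(b (a (a (a (b (c (b (l 16768592) (l 16764952)) (a (l 16768544) (l 16767024))) (b (l 16761232) (l 16756952))) (b (b (b (l 16766928) (l 16764592)) (a (l 16762440) (l 16761240))) (b (l 16758192) (l 16754560)))) (a (b (b (a (l 16763712) (l 16762504)) (l 16760096)) (b (l 16755784) (l 16752152))) (b (b (a (l 16761296) (l 16760072)) (l 16757008)) (b (l 16753352) (l 16749720))))) (b (a (a (b (a (l 16758848) (l 16757616)) (l 16754552)) (b (l 16755760) (l 16752072))) (a (b (l 16753248) (l 16749560)) (b (l 16750712) (l 16747024)))) (a (b (a (l 16750896) (l 16748408)) (l 16747328)) (b (a (l 16745896) (l 16743352)) (l 16740992))))) (a (b (b (a (c (l 16752288) (l 16751984)) (l 16749952)) (a (l 16751176) (l 16743736))) (c (a (l 16746024) (l 16738576))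 (a (l 16742968) (l 16738152)))) (b (c (a (l 16742048) (l 16735672)) (a (l 16740440) (l 16735432))) (c (a (l 16733632) (l 16728568)) (a (l 16733248) (l 16728248)))))), by decide +kernel⟩

def k56_pm_011_t : ∃ t, chk3 f_pm_011_t t 21 59 1 = true :=
  ⟨(a (b (a (b (a (b (a (l 16757464) (l 16755224)) (l 16755424)) (c (l 16752272) (l 16752408))) (c (a (l 16750416) (l 16743312)) (a (l 16747176) (l 16742656)))) (a (b (c (l 16748368) (l 16745200)) (l 16741064)) (b (c (l 16741104) (l 16740544)) (c (l 16734136) (l 16733448))))) (b (a (a (l 16743080) (a (l 16737104) (l 16734848))) (c (a (l 16731824) (l 16727208)) (l 16733952))) (a (c (a (l 16733888) (l 16729440)) (l 16735984)) (c (c (l 16725464) (l 16722424)) (l 16721688))))) (b (b (a (a (l 16738744) (l 16733928)) (c (a (l 16726608) (l 16721552)) (l 16723656))) (a (c (a (l 16729416) (l 16724592)) (l 16726360)) (c (c (l 16719872) (l 16717048)) (l 16716624)))) (a (c (b (c (l 16722896) (l 16719952)) (c (l 16713456) (l 16713080))) (b (l 16719344)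 (l 16712384))) (c (b (c (l 16710416) (l 16710168)) (l 16703504)) (b (l 16709656) (l 16702760)))))), by decide +kernel⟩

def k57_pm_011_t : ∃ t, chk3 f_pm_011_t t 44 112 1 = true :=
  ⟨(a (l 4) (l 4)), by decide +kernel⟩

def k58_pm_011_t : ∃ t, chk3 f_pm_011_t t 88 113 1 = true :=
  ⟨(b (l 4) (b (b (l 4) (a (l 4) (a (l 4) (a (a (l 4) (a (l 4) (b (l 4) (l 168275477287)))) (a (b (l 4) (b (a (l 111904032679) (l 67343746087)) (l 16777592))) (b (a (l 172033573735) (b (l 111367161943) (l 16777128))) (l 16776528))))))) (b (a (l 4) (a (b (l 4) (a (l 4) (a (c (c (l 166664864759) (l 167738606567)) (l 168812348375)) (a (b (l 110293419831) (l 16777040)) (l 16777792))))) (b (a (a (b (l 187065959335) (a (l 86671099383) (l 16777072))) (c (l 16777816) (l 16776832))) (l 16776512)) (a (l 16776640) (l 16776168))))) (a (b (l 4) (b (l 4) (a (l 4) (a (l 4) (a (l 4) (a (l 190287184615) (l 67343746455))))))) (a (a (a (b (l 4) (a (b (l 105461581463) (l 16776976)) (l 16777560))) (b (b (l 177939153719) (c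 (l 46942651527) (l 16777176))) (l 16776416))) (b (a (l 16777760) (l 16776128)) (l 16776760))) (a (l 16775968) (l 16774672))))))), by decide +kernel⟩

def k59_pm_011_t : ∃ t, chk3 f_pm_011_t t 89 113 1 = true :=
  ⟨(b (b (a (l 4) (a (b (l 4) (a (a (l 4) (b (l 4) (l 191360927175))) (b (a (l 4) (a (l 4) (l 151632478823))) (a (b (l 170422960871) (l 39426458759)) (l 16778032))))) (a (a (b (l 4) (b (b (l 73786197447) (l 16776816)) (l 16776048))) (b (b (l 4) (b (l 177402282791) (l 46942651575))) (l 16776552))) (b (b (a (c (l 165054252007) (l 167201735623)) (b (l 80228648455) (l 16776856))) (c (l 16777728) (l 16776424))) (l 16776200))))) (b (b (a (l 4) (a (a (a (b (l 4) (l 94187292231)) (b (l 66806875511) (l 16776776))) (l 16776688)) (l 16775352))) (a (a (l 4) (a (l 4) (a (l 188139701623) (b (l 162906768023) (l 16777744))))) (a (a (a (l 16777328) (l 16776016)) (l 16777640)) (l 16774336)))) (a (a (b (l 4) (a (l 4) (a (l 4) (l 186529088791)))) (a (a (b (l 4) (b (a (l 4) (l 83449873879)) (l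 16777696))) (b (b (l 4) (l 85060486711)) (l 16777288))) (a (b (b (l 58753811751) (l 16776728)) (l 16775968)) (l 16776312)))) (a (a (l 16776136) (l 16774816)) (l 16773152))))) (a (b (b (a (a (b (l 4) (a (l 180623508663) (b (l 103850968743) (l 16777648)))) (a (b (a (l 179549766599) (b (l 4) (l 16777840))) (l 16777240)) (b (b (l 49627006215) (l 16776680)) (l 16775928)))) (c (a (l 16776096) (l 16776744)) (l 16775776))) (a (a (b (a (b (l 41037071511) (l 16776632)) (l 16776232)) (l 16776864)) (l 16776056)) (c (l 16774080) (l 16775416)))) (a (c (b (l 16775360) (l 16774016)) (l 16774376)) (b (l 16772744) (l 16771408)))) (b (c (a (b (l 16774752) (l 16772736)) (l 16771072)) (a (l 16773784) (l 16771136))) (c (a (l 16769728) (l 16767056)) (a (l 16769792) (l 16769768)))))), by decide +kernel⟩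

def k60_pm_011_t : ∃ t, chk3 f_pm_011_t t 45 112 1 = true :=
  ⟨(a (b (a (l 4) (b (l 4) (a (l 4) (a (b (l 4) (b (l 193508411175) (a (l 87744842743) (l 16776904)))) (b (a (l 4) (l 165054252551)) (b (l 28689041367) (l 16775872))))))) (a (b (a (l 4) (a (l 4) (b (l 4) (b (l 189750314711) (a (c (l 93113550967) (l 93650421863)) (l 16778168)))))) (b (a (b (l 4) (a (l 4) (a (l 4) (a (l 165054251783) (l 70028101383))))) (a (b (a (l 180086637655) (l 50163877591)) (l 16777800)) (l 16776304))) (a (a (b (c (l 184381605495) (l 186529089111)) (a (a (l 160222413511) (l 64659392199)) (l 16778104))) (a (a (b (l 67343746791) (l 16776288)) (l 16777616)) (l 16776608))) (a (l 16775600) (l 16776216))))) (b (b (a (b (a (l 4) (a (l 186529088695) (l 56069458007))) (a (a (l 4) (l 85060488151)) (l 16777848))) (a (b (l 16777512) (l 16777792)) (l 16774328))) (b (a (a (a (l 53385103111) (l 16776520)) (l 16775504)) (l 16776080)) (a (l 16776136) (l 16775048)))) (a (b (l 16776232) (l 16774184)) (c (l 16772432) (l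 16775144)))))) (b (a (b (b (a (l 4) (a (l 180623509655) (b (l 91502939207) (l 16776616)))) (b (a (l 195119025159) (c (l 16778240) (l 16778904))) (a (a (l 4) (l 60364425751)) (l 16775240)))) (b (a (b (a (a (l 191897797879) (l 16778216)) (l 16776248)) (l 16777872)) (l 16776328)) (a (l 16775664) (l 16776904)))) (a (b (a (l 16776064) (l 16778656)) (l 16775240)) (b (l 16776648) (l 16772576)))) (a (b (a (l 16773888) (l 16773816)) (a (b (l 16770784) (l 16768720)) (l 16769680))) (b (l 16769808) (l 16765688))))), by decide +kernel⟩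

def k61_pm_011_t : ∃ t, chk3 f_pm_011_t t 45 113 1 = true :=
  ⟨(a (b (a (a (b (b (a (a (l 16776584) (l 16777880)) (l 16776872)) (l 16774768)) (c (l 16772432) (l 16772496))) (c (b (l 16773800) (l 16769720)) (b (l 16773856) (l 16772440)))) (c (b (c (l 16770976) (l 16771048)) (l 16766936)) (b (l 16771120) (l 16768392)))) (a (c (b (a (l 16768384) (l 16768296)) (l 16764328)) (b (l 16767144) (l 16765768))) (b (c (l 16764200) (l 16764376)) (l 16758992)))) (b (a (a (b (l 16765656) (l 16764224)) (b (a (l 16766216) (l 16764864)) (l 16761464))) (a (b (l 16762864) (l 16758728)) (l 16758152))) (a (b (l 16758816) (l 16754816)) (b (a (l 16754664) (l 16751928)) (l 16749272))))), by decide +kernel⟩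

def k62_pm_011_t : ∃ t, chk3 f_pm_011_t t 44 114 1 = true :=
  ⟨(b (b (a (b (a (a (l 4) (a (b (a (l 4) (l 188676572567)) (a (a (l 188139701287) (b (l 4) (l 16777712))) (a (b (l 91502937639) (l 16776912)) (l 16777496)))) (b (a (b (l 167201735351) (c (l 16777768) (l 16777112))) (l 16777536)) (l 16776528)))) (a (a (b (l 16776400) (l 16776064)) (l 16775272)) (a (l 16773984) (l 16773992)))) (a (a (b (a (l 4) (a (l 185992217879) (b (l 156464316983) (l 16777704)))) (b (a (l 4) (a (a (l 76470552007) (l 16777024)) (l 16776544))) (a (a (l 4) (a (l 108145936087) (l 16777832))) (l 16777024)))) (a (b (a (l 16777304) (l 16776008)) (l 16776656)) (l 16775864))) (a (a (l 16774584) (l 16773296)) (l 16771352)))) (a (c (a (l 16771032) (l 16768400)) (a (l 16771064) (l 16768448))) (a (l 16765792) (l 16763136)))) (a (a (a (a (b (b (a (b (a (l 190824055527) (l 69491230119)) (l 16777632)) (l 16777240)) (l 16776408)) (l 16775768)) (b (a (l 16776112) (l 16776136)) (l 16774496))) (c (b (l 16774536) (l 16772568))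 (l 16774208))) (a (b (l 16772288) (l 16770000)) (a (l 16769696) (l 16769056)))) (a (a (l 16766768) (l 16764480)) (c (l 16760448) (l 16760552))))) (b (a (a (a (b (a (l 16773816) (l 16773856)) (l 16771240)) (a (l 16770624) (l 16769008))) (c (a (l 16768360) (l 16765752)) (l 16767088))) (a (c (l 16761816) (l 16761880)) (l 16756832))) (a (a (c (a (l 16769000) (l 16767080)) (l 16768360)) (c (l 16763160) (l 16763192))) (a (a (l 16761896) (l 16754024)) (l 16752680))))), by decide +kernel⟩

def k63_pm_011_t : ∃ t, chk3 f_pm_011_t t 44 115 1 = true :=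
  ⟨(b (a (a (b (c (a (l 16763856) (l 16760616)) (l 16764520)) (a (l 16759680) (l 16756808))) (c (a (l 16758704) (l 16756072)) (l 16758728))) (c (a (l 16753424) (l 16749400)) (a (l 16754816) (l 16746928)))) (a (a (c (a (l 16754976) (l 16752128)) (l 16754536)) (c (l 16750784) (l 16748512))) (a (a (l 16744560) (l 16741912)) (l 16741856)))), by decide +kernel⟩

def k64_pm_011_t : ∃ t, chk3 f_pm_011_t t 45 57 1 = true :=
  ⟨(b (a (b (b (a (c (l 16761656) (l 16761800)) (l 16756328)) (a (l 16755824) (l 16752376))) (c (a (l 16751792) (l 16746328)) (a (l 16751984) (l 16746608)))) (a (b (c (l 16748680) (l 16749008)) (l 16741016)) (b (c (l 16743080) (l 16748760)) (l 16735472)))) (a (a (b (l 16743168) (l 16736496)) (b (l 16738736) (l 16736328))) (a (b (l 16733256) (l 16725608)) (b (l 16732960) (l 16720072))))), by decide +kernel⟩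

def k65_pm_011_t : ∃ t, chk3 f_pm_011_t t 23 28 1 = true :=
  ⟨(b (a (b (a (a (b (b (l 16772664) (l 16768608)) (c (l 16762376) (l 16762576))) (b (l 16766720) (l 16757296))) (b (a (l 16760248) (l 16760424)) (c (l 16754768) (l 16754992)))) (a (a (b (l 16754896) (b (l 16753232) (l 16743832))) (b (l 16749088) (l 16740784))) (b (c (l 16746568) (l 16746896)) (c (l 16738256) (l 16738720))))) (b (a (b (l 16752984) (l 16745024)) (b (l 16743400) (l 16725056))) (a (b (l 16736968) (l 16728816)) (b (l 16727576) (l 16714272))))) (a (b (a (b (a (a (l 16739128) (l 16738984)) (c (l 16734704) (l 16737936))) (a (l 16729872) (a (l 16730872) (l 16728096)))) (a (b (l 16732632) (a (l 16720200) (l 16722936))) (b (l 16727736) (l 16719296)))) (b (a (a (l 16722120) (l 16716464)) (a (b (l 16712760) (l 16714072)) (b (l 16712896) (l 16706040)))) (a (c (a (l 16719304) (l 16713568)) (l 16717256)) (c (a (l 16708264) (c (l 16703696) (l 16703024))) (l 16706040))))) (a (b (c (b (l 16720248) (l 16706536)) (l 16714048))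 (b (c (l 16700544) (l 16693648)) (c (c (l 16695272) (l 16694816)) (l 16695712)))) (b (c (b (l 16711088) (l 16702720)) (l 16702192)) (c (b (l 16694200) (l 16685544)) (l 16685608)))))), by decide +kernel⟩

def k66_pm_011_t : ∃ t, chk3 f_pm_011_t t 22 29 1 = true :=
  ⟨(b (a (b (a (a (b (a (b (l 16748144) (l 16744448)) (b (l 16745544) (l 16741840))) (b (l 16739480) (l 16735832))) (b (c (l 16740376) (l 16750208)) (c (l 16742872) (l 16732352)))) (c (a (a (l 16737272) (l 16734584)) (a (l 16731888) (l 16729176))) (b (l 16734440) (l 16724440)))) (a (c (b (a (l 16730480) (l 16725160)) (a (l 16723368) (l 16718048))) (b (a (l 16730304) (l 16725088)) (l 16725784))) (c (a (b (l 16730272) (l 16712672)) (b (l 16724856) (l 16707248))) (b (l 16727664) (l 16710024))))) (b (a (b (c (l 16726072) (l 16723776)) (a (l 16716992) (l 16713520))) (c (b (b (l 16722104) (l 16718360)) (l 16707544)) (l 16714464))) (a (c (b (a (l 16719384) (l 16703376)) (l 16699672)) (l 16707496)) (c (a (l 16699472) (l 16699080))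 (l 16697968))))) (a (b (b (a (c (a (l 16716352) (l 16711048)) (l 16713464)) (c (c (l 16713400) (l 16703000)) (l 16702984))) (a (c (c (l 16706832) (l 16706752)) (l 16706480)) (a (l 16698768) (l 16693432)))) (a (c (b (l 16699984) (l 16693240)) (b (l 16699568) (l 16692744))) (a (b (l 16691936) (l 16685240)) (b (l 16686632) (a (l 16681304) (l 16678632)))))) (b (a (b (c (l 16702504) (l 16692328)) (c (l 16706120) (l 16685424))) (c (l 16687896) (l 16680680))) (a (b (c (l 16699408) (l 16678664)) (c (c (l 16692448) (l 16692664)) (l 16692776))) (b (c (l 16688248) (l 16688864)) (l 16681808)))))), by decide +kernel⟩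

def k67_pm_011_t : ∃ t, chk3 f_pm_011_t t 23 29 1 = true :=
  ⟨(b (c (a (b (a (b (c (l 16708608) (l 16709136)) (l 16696200)) (b (c (l 16698504) (l 16697824)) (l 16690584))) (a (a (l 16693400) (l 16687656)) (b (l 16683120) (l 16675744)))) (b (a (b (a (l 16690960) (l 16685552)) (a (l 16673104) (l 16678888))) (b (l 16676760) (c (l 16666984) (l 16669944)))) (b (a (l 16668728) (a (l 16659248) (l 16661744))) (a (l 16666752) (a (l 16649640) (b (l 16657344) (l 16653960))))))) (a (b (a (a (l 16708832) (l 16703256)) (a (l 16697632) (l 16691968))) (a (l 16688904) (l 16679000))) (b (b (a (b (l 16689480) (l 16685480)) (l 16667688)) (a (l 16679776) (l 16669664))) (a (l 16668264) (b (l 16662360) (l 16655616)))))) (b (b (a (a (l 16675296) (l 16669144)) (a (c (l 16660208) (l 16658480)) (c (a (l 16653056) (l 16648520)) (l 16648608)))) (a (a (c (l 16667944) (l 16663736)) (c (l 16661456) (l 16652448))) (a (l 16651440) (a (l 16655192) (l 16640136))))) (a (a (c (l 16673296) (l 16674352)) (l 16654880))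 (c (a (l 16652384) (l 16643800)) (l 16644088))))), by decide +kernel⟩

def k68_pm_011_t : ∃ t, chk3 f_pm_011_t t 20 30 1 = true :=
  ⟨(b (a (b (b (a (a (b (l 16763800) (l 16758888)) (c (l 16759352) (l 16758800))) (a (c (l 16752552) (l 16751896)) (l 16753240))) (a (a (c (l 16753768) (l 16758400)) (l 16754512)) (a (l 16750312) (l 16744792)))) (a (a (b (l 16748848) (l 16741560)) (b (l 16744680) (l 16740056))) (a (b (l 16741824) (l 16735928)) (b (a (l 16734760) (l 16732672)) (l 16731792))))) (a (b (b (a (l 16746368) (c (l 16739912) (l 16739000))) (c (a (l 16737120) (l 16732920)) (l 16739240))) (b (c (a (l 16730080) (l 16725912)) (l 16726824)) (c (l 16720960) (l 16719656)))) (b (b (c (a (l 16735648) (l 16731336)) (l 16737736)) (c (a (l 16728680) (l 16724400)) (l 16725392))) (b (c (l 16724832) (l 16718296)) (a (c (l 16714792) (l 16713376)) (b (l 16711584) (l 16708040))))))) (a (b (a (a (b (c (l 16732128) (l 16731120)) (b (l 16726200) (l 16722696))) (b (l 16727528) (b (l 16722064) (l 16718408))))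 (b (a (l 16723440) (c (l 16720056) (l 16718736))) (b (a (l 16718000) (l 16713936)) (l 16712432)))) (a (b (c (l 16721296) (l 16719880)) (l 16708552)) (b (l 16712392) (c (l 16701096) (l 16699320))))) (a (b (b (b (a (l 16717064) (l 16712920)) (a (l 16713440) (l 16709360))) (l 16706112)) (c (l 16696472) (l 16694680))) (b (b (c (l 16710784) (l 16704024)) (l 16697840)) (c (l 16688304) (l 16686440)))))), by decide +kernel⟩

def k69_pm_011_t : ∃ t, chk3 f_pm_011_t t 21 30 1 = true :=
  ⟨(b (a (b (a (c (b (c (l 16727632) (l 16724520)) (c (l 16718152) (l 16717600))) (b (l 16723688) (l 16716664))) (c (b (c (l 16716024) (l 16715544)) (l 16708968)) (b (l 16714704) (l 16707752)))) (b (a (a (l 16717768) (b (l 16709904) (l 16706488))) (c (b (l 16703928) (l 16705584)) (a (l 16713568) (l 16708992)))) (a (b (a (l 16712560) (l 16702904)) (l 16701608)) (l 16694496)))) (b (b (a (c (l 16706488) (l 16705472)) (c (l 16696832) (l 16695968))) (b (a (l 16700904) (c (l 16691704) (l 16690784))) (a (c (l 16703312)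 (l 16696904)) (l 16687784)))) (a (b (c (a (l 16695120) (l 16690432)) (l 16691544)) (l 16685288)) (c (l 16682224) (l 16678600))))) (a (b (a (b (l 16696328) (l 16689344)) (c (l 16690008) (l 16683240))) (a (c (l 16679880) (l 16678040)) (c (l 16671152) (l 16669416)))) (b (a (c (l 16675568) (l 16674208)) (c (l 16665952) (l 16664856))) (a (c (l 16662080) (l 16660544)) (c (l 16652616) (l 16651376)))))), by decide +kernel⟩

def k70_pm_011_t : ∃ t, chk3 f_pm_011_t t 10 31 1 = true :=
  ⟨(a (b (a (b (a (b (l 16701688) (l 16694816)) (b (l 16693384) (l 16686592))) (a (b (l 16687944) (l 16681056)) (b (l 16679792) (l 16673008)))) (b (a (b (l 16685224) (l 16688904)) (c (l 16674776) (l 16672560))) (a (b (l 16671672) (l 16675440)) (b (l 16663592) (a (l 16658960) (l 16654944)))))) (b (a (b (a (l 16684624) (l 16666184)) (l 16663296)) (a (b (l 16658160) (l 16651440)) (l 16657336))) (a (a (l 16656688) (l 16649080)) (a (l 16641360) (l 16633512))))) (b (a (b (a (c (l 16666456) (l 16664296)) (c (l 16657856)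 (l 16655840))) (b (a (l 16655400) (l 16646992)) (a (l 16659304) (l 16640448)))) (a (b (c (l 16648920) (l 16647136)) (b (l 16638304) (l 16631832))) (b (l 16644184) (b (l 16629328) (l 16622952))))) (a (b (a (l 16638856) (l 16630688)) (a (l 16625632) (l 16617704))) (b (a (l 16622280) (l 16613600)) (a (l 16609576) (l 16601184)))))), by decide +kernel⟩

def k71_pm_011_t : ∃ t, chk3 f_pm_011_t t 11 15 1 = true :=
  ⟨(b (a (b (a (b (b (a (c (b (l 16688288) (l 16684792)) (b (l 16687712) (l 16684200))) (a (l 16678344) (l 16673096))) (a (l 16679408) (l 16668896))) (a (c (l 16671656) (l 16668704)) (a (l 16661320) (l 16656088)))) (b (a (b (l 16680728) (l 16673944)) (l 16652032)) (a (c (l 16668968) (l 16648176)) (l 16637448)))) (a (b (c (a (l 16655872) (l 16645456)) (a (l 16655144) (l 16645152))) (c (a (l 16642696) (l 16632456)) (a (l 16641848) (l 16632064)))) (b (a (c (l 16655816) (l 16635000)) (l 16624480)) (a (c (l 16622024) (l 16622120)) (l 16611816))))) (b (b (a (a (l 16650184) (l 16649552))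 (a (l 16638352) (l 16629296))) (a (c (l 16630864) (l 16621736)) (l 16623400))) (b (a (c (l 16618128) (l 16609048)) (l 16608416)) (a (c (l 16605744) (l 16596672)) (l 16596352))))) (b (a (b (a (a (l 16634656) (l 16620920)) (a (c (l 16609552) (l 16609528)) (l 16599496))) (a (b (a (l 16619960) (l 16610296)) (l 16609056)) (a (c (l 16597536) (l 16597264)) (c (l 16608384) (l 16587680))))) (a (b (c (l 16593832) (l 16584696)) (l 16583168)) (b (l 16588224) (l 16573384)))) (a (a (b (a (l 16604592) (l 16595336)) (a (l 16592488) (l 16583552))) (a (b (l 16585928) (l 16574472)) (b (l 16576384) (l 16565240)))) (a (b (l 16561848) (l 16551176)) (a (l 16562952) (l 16553184)))))), by decide +kernel⟩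

def k72_pm_011_t : ∃ t, chk3 f_pm_011_t t 3 2 1 = true :=
  ⟨(b (l 1) (a (l 4) (l 1))), by decide +kernel⟩

def k73_pm_011_t : ∃ t, chk3 f_pm_011_t t 6 12 1 = true :=
  ⟨(a (b (l 4) (a (l 4) (b (l 4) (a (l 4) (b (l 4) (a (b (l 4) (a (l 4) (b (l 4) (l 172570450135)))) (b (a (l 4) (a (a (l 4) (l 1)) (l 1))) (a (b (a (l 4) (l 90966074375)) (c (l 39963336727) (l 16776504))) (l 16779456))))))))) (b (l 1) (a (b (l 1) (a (b (l 1) (a (b (l 1) (l 16779984)) (l 1))) (l 1))) (l 1)))), by decide +kernel⟩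

def k74_pm_011_t : ∃ t, chk3 f_pm_011_t t 12 26 1 = true :=
  ⟨(a (b (l 4) (a (b (l 4) (a (l 4) (b (l 4) (a (b (l 4) (l 172570449559)) (b (a (l 188139705687) (l 75396817367)) (l 16780808)))))) (b (a (b (l 4) (a (l 4) (b (l 4) (a (l 4) (l 95261041959))))) (a (b (l 4) (a (b (l 166127996519) (l 16775984)) (l 21172854935))) (b (b (l 162369901399) (c (l 48553272791) (l 16782056))) (l 16772080)))) (a (b (b (a (l 184918481703) (l 36205241223)) (a (a (l 148948126247) (l 16776384)) (l 16772920))) (a (l 16777792) (l 16768088))) (b (l 16773264) (l 16782688)))))) (b (a (b (a (l 4) (b (l 4) (a (l 4) (b (l 174717933527) (a (l 141968803895) (l 16781664)))))) (a (b (a (l 4) (b (l 4) (l 169349223943))) (a (b (l 4) (a (l 180086641079) (l 63585656791))) (a (b (l 93113558455) (l 16775184)) (l 16779872)))) (b (a (b (a (l 179549770759) (l 77007430215)) (l 27615305255)) (l 16778568)) (l 16773688)))) (a (b (b (b (a (l 4) (a (l 147337513431) (l 16779312))) (a (a (l 4) (l 85597364951)) (l 16775048))) (c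 (a (b (l 34057756503) (l 16773632)) (l 16771440)) (l 16782224))) (b (l 16778424) (l 16762688))) (b (b (l 16775112) (l 16766456)) (l 16780008)))) (a (b (a (a (b (l 16781168) (l 16767960)) (l 16770896)) (l 16782312)) (a (l 16777864) (l 16770608))) (b (c (l 16767792) (l 16771968)) (l 16761336))))), by decide +kernel⟩

def k75_pm_011_t : ∃ t, chk3 f_pm_011_t t 12 27 1 = true :=
  ⟨(a (a (b (b (a (b (a (l 4) (b (l 4) (a (l 174717931575) (l 16781024)))) (a (b (a (l 4) (l 97408525751)) (c (l 16781424) (l 16781400))) (c (l 16783488) (l 16772960)))) (b (a (a (b (l 87744848951) (l 16774568)) (l 16773952)) (l 16770440)) (l 16771160))) (a (b (c (l 16773560) (l 16773488)) (c (l 16771648) (l 16771536))) (c (l 16766064) (l 16765832)))) (b (c (a (b (l 16764392) (l 16757032)) (a (l 16753976) (l 16760144))) (a (l 16760568) (l 16751488))) (a (b (l 16749496) (l 16731448)) (b (l 16740656) (l 16743688))))) (a (b (b (l 16770872) (c (l 16767952) (l 16767536))) (b (c (l 16743464) (l 16753424)) (c (l 16728992)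 (l 16717928)))) (b (b (l 16773008) (l 16749200)) (b (c (l 16725296) (l 16724496)) (c (l 16711080) (l 16710200)))))) (b (a (b (c (l 16762216) (l 16761272)) (c (l 16749432) (l 16748264))) (b (l 16749592) (l 16737296))) (a (b (c (l 16736120) (l 16734776)) (c (c (l 16722616) (l 16721960)) (l 16720832))) (b (a (l 16705864) (l 16701208)) (c (l 16691320) (l 16688824)))))), by decide +kernel⟩

def k76_pm_011_t : ∃ t, chk3 f_pm_011_t t 13 13 1 = true :=
  ⟨(b (a (b (a (b (c (l 16776112) (l 16780328)) (l 16766320)) (a (l 16763256) (l 1))) (a (b (l 16761664) (l 16751304)) (c (l 16749232) (l 16745936)))) (a (b (l 1) (l 16740352)) (l 1))) (a (b (a (a (l 16736592) (l 16711504)) (b (l 16711304) (l 16700400))) (a (b (l 16695352) (c (l 16684368) (l 16680584))) (b (l 16688800) (l 16676584)))) (b (a (l 16726112) (l 16716600)) (a (b (l 16683768) (l 16672264)) (b (l 16680480) (l 16669656)))))), by decide +kernel⟩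

def k77_pm_011_t : ∃ t, chk3 f_pm_011_t t 12 28 1 = true :=
  ⟨(a (b (b (c (a (a (l 16735648) (l 16721928)) (b (l 16724608) (l 16717080))) (a (b (l 16740248) (l 16732552)) (l 16720152))) (a (a (b (l 16718624) (l 16713280)) (b (l 16699712) (l 16702320))) (a (c (l 16703896) (l 16687720)) (c (l 16681184) (l 16680376))))) (a (b (a (b (c (l 16702416) (l 16692176)) (c (l 16694144) (l 16684064))) (c (c (l 16690136) (l 16700760)) (l 16695536))) (a (c (b (l 16685720) (l 16666680)) (b (l 16675856) (l 16688528))) (c (c (l 16678640) (l 16684240)) (b (l 16667664) (l 16659456))))) (a (b (b (l 16676200) (l 16668192)) (c (b (l 16660000) (l 16651648)) (l 16655976))) (c (b (l 16665496) (l 16649264)) (b (l 16664880) (l 16648992)))))) (b (b (a (c (a (l 16689912) (l 16684248)) (l 16706440)) (c (l 16677480) (l 16674880))) (a (c (a (l 16674944) (l 16669504)) (a (l 16673712) (l 16667776))) (c (l 16663088) (l 16660464)))) (b (a (c (a (l 16659464) (l 16654232)) (a (l 16658392) (l 16652648))) (c (a (l 16649888)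 (l 16646504)) (l 16645616))) (a (c (a (l 16643432) (l 16638632)) (a (l 16642688) (l 16637320))) (a (b (l 16637296) (a (l 16630648) (l 16628696))) (b (l 16639224) (l 16626696))))))), by decide +kernel⟩

def k78_pm_011_t : ∃ t, chk3 f_pm_011_t t 12 29 1 = true :=
  ⟨(a (b (a (b (b (c (a (l 16657992) (l 16660752)) (l 16661664)) (c (a (l 16659656) (l 16641544)) (l 16657176))) (a (b (c (l 16652296) (l 16642152)) (c (a (a (l 16651712) (l 16638168)) (l 16643696)) (l 16644672))) (b (c (l 16643376) (l 16634480)) (a (l 16637752) (l 16624032))))) (b (b (a (c (l 16643152) (l 16643688)) (l 16636864)) (c (a (l 16645176) (l 16649448)) (b (l 16655240) (l 16651096)))) (a (b (c (l 16636712) (l 16648328)) (l 16619400)) (c (l 16638168) (l 16617784))))) (a (b (a (c (a (a (l 16641296) (l 16643352)) (b (l 16627288) (l 16621040))) (l 16639936)) (c (b (l 16637928) (l 16632496)) (l 16635936))) (a (b (c (l 16617080) (l 16614456)) (l 16627648)) (c (b (l 16616504) (l 16621504)) (l 16621328)))) (b (c (a (l 16617368)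 (l 16622808)) (l 16626608)) (b (l 16609016) (a (l 16608912) (l 16582848)))))) (a (a (b (b (b (a (l 16632496) (l 16629752)) (l 16623448)) (c (l 16612656) (l 16612536))) (b (a (l 16598888) (l 16596752)) (c (l 16602888) (l 16582768)))) (b (b (c (b (l 16626584) (l 16619704)) (l 16621904)) (l 16608576)) (b (l 16593936) (l 16578856)))) (a (b (b (l 16619312) (l 16605320)) (b (l 16590912) (l 16576088))) (b (b (l 16616744) (l 16602968)) (b (l 16588800) (l 16574224)))))), by decide +kernel⟩

def k79_pm_011_t : ∃ t, chk3 f_pm_011_t t 13 28 1 = true :=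
  ⟨(a (b (a (b (c (l 16671064) (l 16667112)) (c (l 16657168) (l 16653144))) (b (l 16663768) (c (a (l 16653928) (l 16652672)) (l 16647864)))) (a (b (b (c (l 16646360) (l 16642344)) (a (l 16638624) (c (l 16638152) (l 16633744)))) (a (b (l 16631128) (l 16624800)) (l 16626400))) (a (b (b (l 16641168) (l 16634344)) (l 16625112)) (b (c (l 16639040) (l 16632864)) (c (l 16627448) (l 16620824)))))) (b (a (b (l 16660080) (a (b (l 16651152) (l 16644640)) (b (l 16650264) (l 16643944)))) (b (b (l 16661104) (c (l 16659880) (l 16651096))) (a (c (l 16650504) (l 16641880)) (l 16646688)))) (a (b (a (l 16635744) (l 16635392)) (c (a (l 16627456) (l 16627856)) (l 16619432))) (b (a (l 16635424) (c (l 16640720) (l 16630392))) (c (a (l 16628672) (l 16629696)) (l 16618856)))))), by decide +kernel⟩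

def k80_pm_011_t : ∃ t, chk3 f_pm_011_t t 13 29 1 = true :=
  ⟨(a (b (b (a (a (l 16614872) (l 16613400)) (c (a (l 16615160) (l 16615024)) (l 16608712))) (a (c (a (l 16603104) (l 16602384)) (l 16598424)) (c (a (l 16602096) (l 16602224)) (l 16595704)))) (a (b (c (a (l 16589064) (l 16588616)) (l 16584704)) (c (a (l 16574544) (l 16574384)) (l 16570680))) (b (c (a (l 16588608) (c (l 16590632) (l 16587368))) (a (l 16582848) (l 16582128))) (a (c (l 16574672) (l 16569200)) (c (b (l 16578840) (l 16571920)) (l 16568744)))))) (b (a (b (c (a (l 16615288) (l 16615960)) (l 16607104)) (b (c (a (l 16605920) (l 16606808)) (l 16597720)) (c (a (l 16599568) (l 16600608)) (l 16591408)))) (b (b (c (a (l 16619976) (l 16621216)) (l 16609976)) (c (a (l 16614088) (l 16615480)) (l 16604016))) (c (a (c (b (l 16610608) (l 16604568)) (l 16602592)) (c (b (l 16612440) (l 6)) (l 16603920))) (a (l 16594768) (l 16595248))))) (a (a (b (c (c (b (l 16595032) (l 16588464)) (l 16587920)) (l 16581824)) (a (a (b (l 16575816)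 (l 6)) (l 6)) (l 6))) (b (c (a (b (l 16593976) (l 16587544)) (b (l 16594672) (l 6))) (l 16581920)) (l 6))) (l 6)))), by decide +kernel⟩

def k81_pm_011_t : ∃ t, chk3 f_pm_011_t t 6 15 1 = true :=
  ⟨(a (b (b (a (a (b (a (c (l 16601296) (l 16598424)) (b (a (l 16596120) (l 16590728)) (l 16608752))) (a (l 16608296) (c (l 16601776) (l 16577360)))) (a (b (a (l 16595368) (l 16591560)) (c (b (l 16595040) (l 16590272)) (l 16567776))) (a (b (l 16592888) (l 16571312)) (b (l 16569640) (l 16574904))))) (b (a (c (b (l 16589208) (l 16581024)) (l 16586336)) (a (l 16560824) (l 16559224))) (c (a (b (l 16572704) (l 16564248)) (a (l 16544688) (l 16543952))) (a (l 16581176) (l 16544264))))) (a (a (b (c (l 16596680) (l 16569736)) (l 16579424)) (c (a (b (l 16582208) (l 16550208)) (b (b (l 16574984) (l 16570912)) (l 16563432))) (a (l 16572528) (b (l 16547488) (l 16537832))))) (a (a (b (b (l 16559048) (l 16561464)) (c (b (l 16555728) (l 16552280)) (l 16527952))) (b (c (l 16550264) (l 16532144)) (b (l 16539248)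 (l 6)))) (b (c (a (l 16548912) (l 16527536)) (l 16570704)) (l 6))))) (a (a (b (b (l 16570520) (l 16557072)) (c (l 16540280) (l 16539768))) (b (b (a (l 16557784) (l 16560504)) (l 6)) (l 6))) (b (l 6) (l 6)))) (b (a (b (a (a (b (l 16558328) (l 16543176)) (b (a (l 16557952) (l 16557840)) (l 6))) (a (b (b (l 16561440) (l 6)) (l 6)) (l 6))) (l 6)) (l 6)) (l 6))), by decide +kernel⟩

def k82_pm_011_t : ∃ t, chk3 f_pm_011_t t 7 3 1 = true :=
  ⟨(b (b (l 1) (a (b (l 1) (a (a (a (b (l 1) (l 16673384)) (l 1)) (l 1)) (l 1))) (l 1))) (b (a (b (a (b (a (a (b (b (l 16660200) (l 16654336)) (l 16646216)) (b (l 16655640) (l 16645304))) (a (b (l 1) (l 16643912)) (l 1))) (a (b (c (a (l 16640992) (l 16640608)) (a (l 16629712) (l 16628504))) (a (c (b (l 16633152) (l 16627776)) (l 16618576)) (c (b (l 16633040) (l 16628040)) (l 16617744)))) (a (b (c (l 16639688) (l 16626856)) (c (b (l 16632208) (l 6)) (l 16616216))) (b (c (l 16638168) (l 16624752)) (l 6))))) (b (l 1) (l 6))) (a (b (a (a (b (c (b (l 16622272)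 (l 16616696)) (l 16607184)) (l 6)) (l 6)) (l 6)) (l 6)) (l 6))) (l 6)) (l 6))), by decide +kernel⟩

theorem s83_pm_011_t : ∃ t, chk3 f_pm_011_t t 13 14 1 = true := ex3_b k79_pm_011_t k80_pm_011_t

theorem s84_pm_011_t : ∃ t, chk3 f_pm_011_t t 12 14 1 = true := ex3_b k77_pm_011_t k78_pm_011_t

theorem s85_pm_011_t : ∃ t, chk3 f_pm_011_t t 6 14 1 = true := ex3_a s84_pm_011_t s83_pm_011_t

theorem s86_pm_011_t : ∃ t, chk3 f_pm_011_t t 6 7 1 = true := ex3_b s85_pm_011_t k81_pm_011_t

theorem s87_pm_011_t : ∃ t, chk3 f_pm_011_t t 12 13 1 = true := ex3_b k74_pm_011_t k75_pm_011_t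

theorem s88_pm_011_t : ∃ t, chk3 f_pm_011_t t 6 13 1 = true := ex3_a s87_pm_011_t k76_pm_011_t

theorem s89_pm_011_t : ∃ t, chk3 f_pm_011_t t 6 6 1 = true := ex3_b k73_pm_011_t s88_pm_011_t

theorem s90_pm_011_t : ∃ t, chk3 f_pm_011_t t 6 3 1 = true := ex3_b s89_pm_011_t s86_pm_011_t

theorem s91_pm_011_t : ∃ t, chk3 f_pm_011_t t 3 3 1 = true := ex3_a s90_pm_011_t k82_pm_011_t

theorem s92_pm_011_t : ∃ t, chk3 f_pm_011_t t 3 1 1 = true := ex3_b k72_pm_011_t s91_pm_011_t

theorem s93_pm_011_t : ∃ t, chk3 f_pm_011_t t 10 30 1 = true := ex3_a k68_pm_011_t k69_pm_011_t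

theorem s94_pm_011_t : ∃ t, chk3 f_pm_011_t t 10 15 1 = true := ex3_b s93_pm_011_t k70_pm_011_t

theorem s95_pm_011_t : ∃ t, chk3 f_pm_011_t t 5 15 1 = true := ex3_a s94_pm_011_t k71_pm_011_t

theorem s96_pm_011_t : ∃ t, chk3 f_pm_011_t t 11 29 1 = true := ex3_a k66_pm_011_t k67_pm_011_t

theorem s97_pm_011_t : ∃ t, chk3 f_pm_011_t t 44 57 1 = true := ex3_b k62_pm_011_t k63_pm_011_t

theorem s98_pm_011_t : ∃ t, chk3 f_pm_011_t t 22 57 1 = true := ex3_a s97_pm_011_t k64_pm_011_t

theorem s99_pm_011_t : ∃ t, chk3 f_pm_011_t t 45 56 1 = true := ex3_b k60_pm_011_t k61_pm_011_t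

theorem s100_pm_011_t : ∃ t, chk3 f_pm_011_t t 44 113 1 = true := ex3_a k58_pm_011_t k59_pm_011_t

theorem s101_pm_011_t : ∃ t, chk3 f_pm_011_t t 44 56 1 = true := ex3_b k57_pm_011_t s100_pm_011_t

theorem s102_pm_011_t : ∃ t, chk3 f_pm_011_t t 22 56 1 = true := ex3_a s101_pm_011_t s99_pm_011_t

theorem s103_pm_011_t : ∃ t, chk3 f_pm_011_t t 22 28 1 = true := ex3_b s102_pm_011_t s98_pm_011_t

theorem s104_pm_011_t : ∃ t, chk3 f_pm_011_t t 11 28 1 = true := ex3_a s103_pm_011_t k65_pm_011_t

theorem s105_pm_011_t : ∃ t, chk3 f_pm_011_t t 11 14 1 = true := ex3_b s104_pm_011_t s96_pm_011_t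

theorem s106_pm_011_t : ∃ t, chk3 f_pm_011_t t 42 58 1 = true := ex3_a k53_pm_011_t k54_pm_011_t

theorem s107_pm_011_t : ∃ t, chk3 f_pm_011_t t 21 58 1 = true := ex3_a s106_pm_011_t k55_pm_011_t

theorem s108_pm_011_t : ∃ t, chk3 f_pm_011_t t 21 29 1 = true := ex3_b s107_pm_011_t k56_pm_011_t

theorem s109_pm_011_t : ∃ t, chk3 f_pm_011_t t 20 118 1 = true := ex3_a k50_pm_011_t k51_pm_011_t

theorem s110_pm_011_t : ∃ t, chk3 f_pm_011_t t 20 59 1 = true := ex3_b s109_pm_011_t k52_pm_011_t

theorem s111_pm_011_t : ∃ t, chk3 f_pm_011_t t 41 117 1 = true := ex3_a k48_pm_011_t k49_pm_011_t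

theorem s112_pm_011_t : ∃ t, chk3 f_pm_011_t t 41 58 1 = true := ex3_b k47_pm_011_t s111_pm_011_t

theorem s113_pm_011_t : ∃ t, chk3 f_pm_011_t t 20 58 1 = true := ex3_a k46_pm_011_t s112_pm_011_t

theorem s114_pm_011_t : ∃ t, chk3 f_pm_011_t t 20 29 1 = true := ex3_b s113_pm_011_t s110_pm_011_t

theorem s115_pm_011_t : ∃ t, chk3 f_pm_011_t t 10 29 1 = true := ex3_a s114_pm_011_t s108_pm_011_t

theorem s116_pm_011_t : ∃ t, chk3 f_pm_011_t t 86 115 1 = true := ex3_b k43_pm_011_t k44_pm_011_t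

theorem s117_pm_011_t : ∃ t, chk3 f_pm_011_t t 43 115 1 = true := ex3_a s116_pm_011_t k45_pm_011_t

theorem s118_pm_011_t : ∃ t, chk3 f_pm_011_t t 87 114 1 = true := ex3_b k41_pm_011_t k42_pm_011_t

theorem s119_pm_011_t : ∃ t, chk3 f_pm_011_t t 43 114 1 = true := ex3_a k40_pm_011_t s118_pm_011_t

theorem s120_pm_011_t : ∃ t, chk3 f_pm_011_t t 43 57 1 = true := ex3_b s119_pm_011_t s117_pm_011_t

theorem s121_pm_011_t : ∃ t, chk3 f_pm_011_t t 21 57 1 = true := ex3_a k39_pm_011_t s120_pm_011_t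

theorem s122_pm_011_t : ∃ t, chk3 f_pm_011_t t 21 28 1 = true := ex3_b k38_pm_011_t s121_pm_011_t

theorem s123_pm_011_t : ∃ t, chk3 f_pm_011_t t 10 28 1 = true := ex3_a k37_pm_011_t s122_pm_011_t

theorem s124_pm_011_t : ∃ t, chk3 f_pm_011_t t 10 14 1 = true := ex3_b s123_pm_011_t s115_pm_011_t

theorem s125_pm_011_t : ∃ t, chk3 f_pm_011_t t 5 14 1 = true := ex3_a s124_pm_011_t s105_pm_011_t

theorem s126_pm_011_t : ∃ t, chk3 f_pm_011_t t 5 7 1 = true := ex3_b s125_pm_011_t s95_pm_011_t

theorem s127_pm_011_t : ∃ t, chk3 f_pm_011_t t 11 27 1 = true := ex3_a k35_pm_011_t k36_pm_011_t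

theorem s128_pm_011_t : ∃ t, chk3 f_pm_011_t t 11 13 1 = true := ex3_b k34_pm_011_t s127_pm_011_t

theorem s129_pm_011_t : ∃ t, chk3 f_pm_011_t t 5 13 1 = true := ex3_a k33_pm_011_t s128_pm_011_t

theorem s130_pm_011_t : ∃ t, chk3 f_pm_011_t t 5 6 1 = true := ex3_b k32_pm_011_t s129_pm_011_t

theorem s131_pm_011_t : ∃ t, chk3 f_pm_011_t t 5 3 1 = true := ex3_b s130_pm_011_t s126_pm_011_t

theorem s132_pm_011_t : ∃ t, chk3 f_pm_011_t t 18 62 1 = true := ex3_a k28_pm_011_t k29_pm_011_t

theorem s133_pm_011_t : ∃ t, chk3 f_pm_011_t t 9 62 1 = true := ex3_a s132_pm_011_t k30_pm_011_t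

theorem s134_pm_011_t : ∃ t, chk3 f_pm_011_t t 9 31 1 = true := ex3_b s133_pm_011_t k31_pm_011_t

theorem s135_pm_011_t : ∃ t, chk3 f_pm_011_t t 38 60 1 = true := ex3_b k24_pm_011_t k25_pm_011_t

theorem s136_pm_011_t : ∃ t, chk3 f_pm_011_t t 19 60 1 = true := ex3_a s135_pm_011_t k26_pm_011_t

theorem s137_pm_011_t : ∃ t, chk3 f_pm_011_t t 19 30 1 = true := ex3_b s136_pm_011_t k27_pm_011_t

theorem s138_pm_011_t : ∃ t, chk3 f_pm_011_t t 37 122 1 = true := ex3_a k21_pm_011_t k22_pm_011_t

theorem s139_pm_011_t : ∃ t, chk3 f_pm_011_t t 37 61 1 = true := ex3_b s138_pm_011_t k23_pm_011_t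

theorem s140_pm_011_t : ∃ t, chk3 f_pm_011_t t 36 123 1 = true := ex3_b k19_pm_011_t k20_pm_011_t

theorem s141_pm_011_t : ∃ t, chk3 f_pm_011_t t 36 61 1 = true := ex3_b k18_pm_011_t s140_pm_011_t

theorem s142_pm_011_t : ∃ t, chk3 f_pm_011_t t 18 61 1 = true := ex3_a s141_pm_011_t s139_pm_011_t

theorem s143_pm_011_t : ∃ t, chk3 f_pm_011_t t 18 30 1 = true := ex3_b k17_pm_011_t s142_pm_011_t

theorem s144_pm_011_t : ∃ t, chk3 f_pm_011_t t 9 30 1 = true := ex3_a s143_pm_011_t s137_pm_011_t

theorem s145_pm_011_t : ∃ t, chk3 f_pm_011_t t 9 15 1 = true := ex3_b s144_pm_011_t s134_pm_011_t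

theorem s146_pm_011_t : ∃ t, chk3 f_pm_011_t t 71 124 1 = true := ex3_b k13_pm_011_t k14_pm_011_t

theorem s147_pm_011_t : ∃ t, chk3 f_pm_011_t t 71 62 1 = true := ex3_b s146_pm_011_t k15_pm_011_t

theorem s148_pm_011_t : ∃ t, chk3 f_pm_011_t t 141 62 1 = true := ex3_b k11_pm_011_t k12_pm_011_t

theorem s149_pm_011_t : ∃ t, chk3 f_pm_011_t t 70 62 1 = true := ex3_a k10_pm_011_t s148_pm_011_t

theorem s150_pm_011_t : ∃ t, chk3 f_pm_011_t t 35 62 1 = true := ex3_a s149_pm_011_t s147_pm_011_t

theorem s151_pm_011_t : ∃ t, chk3 f_pm_011_t t 69 250 1 = true := ex3_b k7_pm_011_t k8_pm_011_t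

theorem s152_pm_011_t : ∃ t, chk3 f_pm_011_t t 69 125 1 = true := ex3_b s151_pm_011_t k9_pm_011_t

theorem s153_pm_011_t : ∃ t, chk3 f_pm_011_t t 34 125 1 = true := ex3_a k6_pm_011_t s152_pm_011_t

theorem s154_pm_011_t : ∃ t, chk3 f_pm_011_t t 34 62 1 = true := ex3_b k5_pm_011_t s153_pm_011_t

theorem s155_pm_011_t : ∃ t, chk3 f_pm_011_t t 17 62 1 = true := ex3_a s154_pm_011_t s150_pm_011_t

theorem s156_pm_011_t : ∃ t, chk3 f_pm_011_t t 17 31 1 = true := ex3_b s155_pm_011_t k16_pm_011_t

theorem s157_pm_011_t : ∃ t, chk3 f_pm_011_t t 8 31 1 = true := ex3_a k4_pm_011_t s156_pm_011_t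

theorem s158_pm_011_t : ∃ t, chk3 f_pm_011_t t 8 15 1 = true := ex3_b k3_pm_011_t s157_pm_011_t

theorem s159_pm_011_t : ∃ t, chk3 f_pm_011_t t 4 15 1 = true := ex3_a s158_pm_011_t s145_pm_011_t

theorem s160_pm_011_t : ∃ t, chk3 f_pm_011_t t 4 7 1 = true := ex3_b k2_pm_011_t s159_pm_011_t

theorem s161_pm_011_t : ∃ t, chk3 f_pm_011_t t 4 3 1 = true := ex3_b k1_pm_011_t s160_pm_011_t

theorem s162_pm_011_t : ∃ t, chk3 f_pm_011_t t 2 3 1 = true := ex3_a s161_pm_011_t s131_pm_011_t

theorem s163_pm_011_t : ∃ t, chk3 f_pm_011_t t 2 1 1 = true := ex3_b k0_pm_011_t s162_pm_011_t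

theorem s164_pm_011_t : ∃ t, chk3 f_pm_011_t t 1 1 1 = true := ex3_a s163_pm_011_t s92_pm_011_t

theorem c_pm_011_t : CertNE 0 536870912 536870912 536870912 536870912 50465866 3 eng mog cd0q0 cd0q1 pd1 false true false .pnn 0 1 1
    ndB0q0 ndB0q1 pcB1 cut_pm_011_t Ext.none :=
  certNE0 (fam := false) (s1 := true) (s2 := false) (a := 0) (b := 1) (c := 1) (cn := .pnn) (n1 := ndB0q0) (n2 := ndB0q1) (pc := pcB1) (cut := cut_pm_011_t) (xt := Ext.none) (P1 := 0) (W1 := 536870912) (P2 := 536870912) (W2 := 536870912) (P3 := 536870912) (W3 := 50465866) (N0 := 3) (En := eng) (mo := mog) (C1 := cd0q0) (C2 := cd0q1) (C3 := pd1)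
    rfl s164_pm_011_t

noncomputable def cut_pm_012_s : Cut := Cut.of [[⟨4, 0, 0, 1449551462⟩], [⟨0, 0, 0, 67108864⟩, ⟨1, 1, 0, 67108864⟩, ⟨2, 1, 0, 67108864⟩], [⟨0, 0, 1, 20971520⟩, ⟨1, 1, 2, 20971520⟩, ⟨2, 1, 0, 33554432⟩]]

noncomputable def f_pm_012_s : ℕ → ℕ → ℕ → ℕ → Bool := onCell 0 536870912 0 536870912 536870912 50465866
    (rowNE 3 eng mog cd0q0 cd0q2 pd1 0 false true false .pnp 0 1 2 (qsf 0 536870912 0 536870912 1) ndB0q0 ndB0q2 pcB1 cut_pm_012_s Ext.none)

def k0_pm_012_s : ∃ t, chk3 f_pm_012_s t 1 1 1 = true :=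
  ⟨(a (l 6) (b (a (b (a (l 6) (b (a (l 6) (b (l 16612432) (l 6))) (l 6))) (l 6)) (b (a (b (a (b (l 16627656) (l 6)) (b (l 16668544) (l 16626992))) (l 6)) (b (a (b (a (l 16665808) (l 16678208)) (a (l 16644440) (l 16656456))) (a (b (l 16721552) (l 16689288)) (b (b (l 16706616) (l 16695392)) (l 16678456)))) (a (b (a (l 16622192) (l 16633704)) (l 6)) (a (b (a (l 16642496) (l 16648144)) (a (l 16617184) (l 16621752))) (b (l 16653968) (l 16625520)))))) (l 6))) (l 6))), by decide +kernel⟩

theorem c_pm_012_s : CertNE 0 536870912 0 536870912 536870912 50465866 3 eng mog cd0q0 cd0q2 pd1 false true false .pnp 0 1 2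
    ndB0q0 ndB0q2 pcB1 cut_pm_012_s Ext.none :=
  certNE0 (fam := false) (s1 := true) (s2 := false) (a := 0) (b := 1) (c := 2) (cn := .pnp) (n1 := ndB0q0) (n2 := ndB0q2) (pc := pcB1) (cut := cut_pm_012_s) (xt := Ext.none) (P1 := 0) (W1 := 536870912) (P2 := 0) (W2 := 536870912) (P3 := 536870912) (W3 := 50465866) (N0 := 3) (En := eng) (mo := mog) (C1 := cd0q0) (C2 := cd0q2) (C3 := pd1)
    rfl k0_pm_012_s

noncomputable def cut_pm_012_t : Cut := Cut.of [[⟨3, 0, 0, 2845415833⟩], [⟨0, 0, 0, 67108864⟩, ⟨1, 1, 0, 67108864⟩, ⟨2, 1, 0, 67108864⟩], [⟨0, 0, 1, 20971520⟩, ⟨1, 1, 2, 20971520⟩, ⟨2, 1, 0, 33554432⟩]]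

noncomputable def f_pm_012_t : ℕ → ℕ → ℕ → ℕ → Bool := onCell 0 536870912 0 536870912 536870912 50465866
    (rowNE 3 eng mog cd0q0 cd0q2 pd1 0 false true false .pnp 0 1 2 (qsf 0 536870912 0 536870912 1) ndB0q0 ndB0q2 pcB1 cut_pm_012_t Ext.none)

def k0_pm_012_t : ∃ t, chk3 f_pm_012_t t 1 2 1 = true :=
  ⟨(l 6), by decide +kernel⟩

def k1_pm_012_t : ∃ t, chk3 f_pm_012_t t 4 3 1 = true :=
  ⟨(b (a (l 2) (a (a (a (l 2) (l 6)) (l 6)) (l 6))) (b (a (a (l 2) (b (a (l 2) (a (l 2) (b (l 2) (b (l 16605448) (l 16612592))))) (a (l 14) (a (l 14) (a (l 14) (b (l 16622208) (l 16637400))))))) (b (a (a (b (a (l 16600552) (l 16585168)) (a (l 16603688) (l 16598440))) (b (l 16577976) (l 16590712))) (b (l 6) (a (l 16580600) (l 6)))) (a (a (a (b (l 16617944) (l 16632864)) (b (l 16612336) (l 16626904))) (b (l 16625048) (l 16639088))) (a (b (l 16593256) (l 16606584)) (b (l 16582496) (l 16595112)))))) (a (a (l 14) (a (l 14) (a (l 14) (a (l 14) (b (b (l 16653296) (l 16669912)) (b (b (l 16682800) (l 16691648))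 (b (l 16700664) (b (l 16707528) (l 16712160))))))))) (b (a (b (a (a (l 16648496) (l 16642184)) (a (l 16635952) (l 16629784))) (a (a (l 16685824) (l 16658184)) (b (l 16644360) (l 16652272)))) (b (a (l 16620624) (l 16608448)) (a (l 16656360) (l 16622504)))) (a (b (a (b (l 16684552) (a (l 16686256) (l 16679152))) (b (l 16660368) (l 16689608))) (b (a (a (l 16705624) (l 16698344)) (a (l 16701632) (l 16673528))) (a (a (b (l 16701904) (c (l 16707888) (l 16705064))) (b (l 16694496) (l 16709464))) (a (b (l 16687168) (l 16691568)) (a (l 16694368) (l 16680248)))))) (b (a (b (l 16646896) (l 16654816)) (b (l 16633488) (l 16641056))) (b (a (c (l 16685728) (l 16661088)) (l 16669776)) (a (a (a (l 16676616) (l 16673000)) (l 16667576)) (b (l 16654720) (l 16658728)))))))))), by decide +kernel⟩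

def k2_pm_012_t : ∃ t, chk3 f_pm_012_t t 5 3 1 = true :=
  ⟨(b (l 6) (a (b (a (b (l 6) (a (l 16619552) (l 16586960))) (l 6)) (b (a (b (a (l 16596128) (l 16583440)) (a (l 16609480) (l 16596080))) (b (l 16605168) (a (l 16582088) (l 16567248)))) (a (b (a (l 16644520) (l 16609448)) (a (b (l 16634536) (l 16642112)) (b (l 16619896) (l 16627112)))) (b (a (l 16594744) (l 16600352)) (a (b (l 16604696) (l 16627368)) (b (l 16589032) (l 16595752))))))) (b (l 6) (b (l 6) (a (b (a (l 16563256) (l 6)) (a (b (l 16572472) (l 16578872)) (b (l 16555064) (l 16561168)))) (b (l 6) (a (b (l 6) (l 16542936)) (l 6)))))))), by decide +kernel⟩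

def k3_pm_012_t : ∃ t, chk3 f_pm_012_t t 3 3 1 = true :=
  ⟨(a (l 6) (l 6)), by decide +kernel⟩

theorem s4_pm_012_t : ∃ t, chk3 f_pm_012_t t 2 3 1 = true := ex3_a k1_pm_012_t k2_pm_012_t

theorem s5_pm_012_t : ∃ t, chk3 f_pm_012_t t 1 3 1 = true := ex3_a s4_pm_012_t k3_pm_012_t

theorem s6_pm_012_t : ∃ t, chk3 f_pm_012_t t 1 1 1 = true := ex3_b k0_pm_012_t s5_pm_012_t

theorem c_pm_012_t : CertNE 0 536870912 0 536870912 536870912 50465866 3 eng mog cd0q0 cd0q2 pd1 false true false .pnp 0 1 2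
    ndB0q0 ndB0q2 pcB1 cut_pm_012_t Ext.none :=
  certNE0 (fam := false) (s1 := true) (s2 := false) (a := 0) (b := 1) (c := 2) (cn := .pnp) (n1 := ndB0q0) (n2 := ndB0q2) (pc := pcB1) (cut := cut_pm_012_t) (xt := Ext.none) (P1 := 0) (W1 := 536870912) (P2 := 0) (W2 := 536870912) (P3 := 536870912) (W3 := 50465866) (N0 := 3) (En := eng) (mo := mog) (C1 := cd0q0) (C2 := cd0q2) (C3 := pd1)
    rfl s6_pm_012_t

noncomputable def cut_pm_022_s : Cut := Cut.of [[⟨4, 0, 0, 1449551462⟩], [⟨0, 0, 0, 67108864⟩, ⟨1, 1, 0, 67108864⟩, ⟨2, 1, 0, 67108864⟩]]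

noncomputable def f_pm_022_s : ℕ → ℕ → ℕ → ℕ → Bool := onCell 1073741824 536870912 0 536870912 536870912 50465866
    (rowNE 3 eng mog cd0q0 cd0q2 pd2 2 false true false .pp 0 2 2 (qsf 0 536870912 0 536870912 2) ndB0q0 ndB0q2 pcB2 cut_pm_022_s Ext.none)

def k0_pm_022_s : ∃ t, chk3 f_pm_022_s t 1 1 1 = true :=
  ⟨(l 6), by decide +kernel⟩

theorem c_pm_022_s : CertNE 0 536870912 0 536870912 536870912 50465866 3 eng mog cd0q0 cd0q2 pd2 false true false .pp 0 2 2
    ndB0q0 ndB0q2 pcB2 cut_pm_022_s Ext.none :=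
  certNE2 (fam := false) (s1 := true) (s2 := false) (a := 0) (b := 2) (c := 2) (cn := .pp) (n1 := ndB0q0) (n2 := ndB0q2) (pc := pcB2) (cut := cut_pm_022_s) (xt := Ext.none) (P1 := 0) (W1 := 536870912) (P2 := 0) (W2 := 536870912) (P3 := 536870912) (W3 := 50465866) (N0 := 3) (En := eng) (mo := mog) (C1 := cd0q0) (C2 := cd0q2) (C3 := pd2)
    rfl (fun _ => rfl) k0_pm_022_s

noncomputable def cut_pm_022_t : Cut := Cut.of [[⟨3, 0, 0, 2845415833⟩], [⟨0, 0, 0, 67108864⟩, ⟨1, 1, 0, 67108864⟩, ⟨2, 1, 0, 67108864⟩]]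

noncomputable def f_pm_022_t : ℕ → ℕ → ℕ → ℕ → Bool := onCell 0 536870912 0 536870912 536870912 50465866
    (rowNE 3 eng mog cd0q0 cd0q2 pd2 0 false true false .pp 0 2 2 (qsf 0 536870912 0 536870912 2) ndB0q0 ndB0q2 pcB2 cut_pm_022_t Ext.none)

def k0_pm_022_t : ∃ t, chk3 f_pm_022_t t 1 1 1 = true :=
  ⟨(a (b (l 6) (b (a (b (l 6) (a (a (b (a (a (b (l 16580520) (l 16593528)) (b (l 6) (l 16588848))) (b (l 6) (l 16581536))) (a (a (b (c (l 16608456) (l 16605808)) (a (l 16643536) (l 16619984))) (b (l 16602168) (l 16616032))) (b (a (l 16597048) (l 16591776)) (a (l 16610624) (l 16626024))))) (b (l 6) (a (b (l 16583592) (l 16596408)) (b (l 6) (l 16585104))))) (a (b (l 6) (l 6)) (l 6)))) (l 1)) (a (a (b (b (b (a (a (a (b (l 16632224) (l 16650216)) (l 16640944)) (a (l 16624760) (l 16660832))) (a (l 16630744) (l 16597616))) (a (b (b (a (a (l 16645464) (l 16639760)) (l 16672808)) (l 14)) (l 14)) (a (l 16644760) (l 16631816)))) (a (l 14) (a (l 14) (a (l 14) (a (l 14) (l 1)))))) (a (l 14) (a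 (l 14) (l 1)))) (b (a (b (a (b (l 16585208) (l 16597416)) (l 1)) (l 1)) (l 1)) (l 1))) (l 1)))) (l 1)), by decide +kernel⟩

theorem c_pm_022_t : CertNE 0 536870912 0 536870912 536870912 50465866 3 eng mog cd0q0 cd0q2 pd2 false true false .pp 0 2 2
    ndB0q0 ndB0q2 pcB2 cut_pm_022_t Ext.none :=
  certNE0 (fam := false) (s1 := true) (s2 := false) (a := 0) (b := 2) (c := 2) (cn := .pp) (n1 := ndB0q0) (n2 := ndB0q2) (pc := pcB2) (cut := cut_pm_022_t) (xt := Ext.none) (P1 := 0) (W1 := 536870912) (P2 := 0) (W2 := 536870912) (P3 := 536870912) (W3 := 50465866) (N0 := 3) (En := eng) (mo := mog) (C1 := cd0q0) (C2 := cd0q2) (C3 := pd2)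
    rfl k0_pm_022_t

noncomputable def cut_pm_101_s : Cut := Cut.of [[⟨4, 0, 0, 1449551462⟩], [⟨0, 1, 0, 67108864⟩, ⟨1, 0, 0, 67108864⟩, ⟨2, 1, 0, 67108864⟩], [⟨0, 0, 1, 20971520⟩, ⟨1, 1, 2, 20971520⟩, ⟨2, 1, 0, 33554432⟩]]

noncomputable def f_pm_101_s : ℕ → ℕ → ℕ → ℕ → Bool := onCell 536870912 536870912 536870912 536870912 536870912 50465866
    (rowNE 3 eng mog cd0q1 cd0q1 pd0 0 false true false .npn 1 0 1 (qsf 536870912 536870912 536870912 536870912 0) ndB0q1 ndB0q1 pcB0 cut_pm_101_s Ext.none)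

def k0_pm_101_s : ∃ t, chk3 f_pm_101_s t 2 1 1 = true :=
  ⟨(l 6), by decide +kernel⟩

def k1_pm_101_s : ∃ t, chk3 f_pm_101_s t 3 2 1 = true :=
  ⟨(l 6), by decide +kernel⟩

def k2_pm_101_s : ∃ t, chk3 f_pm_101_s t 6 3 1 = true :=
  ⟨(b (l 6) (b (l 6) (b (l 6) (a (l 6) (a (l 6) (a (l 6) (b (l 6) (b (l 6) (a (l 6) (c (l 16858944) (l 16844200))))))))))), by decide +kernel⟩

def k3_pm_101_s : ∃ t, chk3 f_pm_101_s t 7 6 1 = true :=
  ⟨(a (l 6) (l 1)), by decide +kernel⟩

def k4_pm_101_s : ∃ t, chk3 f_pm_101_s t 7 14 1 = true :=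
  ⟨(a (l 6) (a (b (l 1) (a (a (a (l 6) (l 1)) (l 1)) (l 1))) (l 1))), by decide +kernel⟩

def k5_pm_101_s : ∃ t, chk3 f_pm_101_s t 28 15 1 = true :=
  ⟨(b (l 6) (b (a (b (l 6) (l 6)) (b (a (l 6) (l 16847952)) (a (c (l 16855832) (l 16840728)) (c (l 16852640) (l 16838008))))) (a (b (a (l 16872280) (c (l 16855920) (l 16841248))) (a (c (l 16855976) (l 16841696)) (b (l 16846400) (a (l 16845768) (l 16844176))))) (b (a (c (l 16852640) (l 16838416)) (b (l 16843056) (a (l 16842344) (l 16840776)))) (a (c (b (l 16850128) (l 16848384)) (b (l 16836584) (l 16835304))) (c (b (l 16846608) (l 16844768)) (b (l 16833624) (l 16832264)))))))), by decide +kernel⟩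

def k6_pm_101_s : ∃ t, chk3 f_pm_101_s t 29 15 1 = true :=
  ⟨(b (b (a (l 6) (a (b (l 6) (l 16847648)) (b (l 16847528) (l 16844824)))) (a (b (a (l 6) (l 16847736)) (a (l 16847832) (l 16845056))) (b (a (l 16844960) (l 16842016)) (a (l 16842144) (c (l 16846176) (l 16832080)))))) (b (a (b (a (l 16866096) (c (l 16849504) (l 16835080))) (a (c (l 16849376) (l 16835304)) (c (l 16845984) (l 16832544)))) (b (a (c (l 16846112) (l 16832344)) (c (l 16842520) (l 16829472))) (b (a (l 16836792) (l 16843936)) (a (c (l 16841456) (l 16828992)) (c (l 16837624) (l 16825952)))))) (a (b (b (a (l 16850448) (c (l 16843200) (l 16830528))) (a (c (l 16844904) (l 16832056)) (c (l 16841272) (l 16829120)))) (a (c (b (l 16843016) (a (l 16842016) (l 16840136))) (b (l 16830672) (a (l 16830008) (l 16828480)))) (c (b (l 16839280) (a (l 16838216) (l 16836248))) (b (l 16827664) (a (l 16826936) (l 16825360)))))) (b (a (c (b (l 16839488) (l 16837456)) (b (l 16827560) (l 16826072))) (c (b (l 16835552) (l 16833416)) (b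 (l 16824440) (l 16822872)))) (a (c (b (a (l 16836368) (l 16834352)) (a (l 16834232) (l 16832168))) (b (a (l 16825336) (l 16823736)) (a (l 16823760) (l 16822112)))) (c (b (a (l 16832280) (l 16830144)) (a (l 16830032) (l 16827840))) (b (a (l 16822088) (l 16820400)) (a (l 16820424) (l 16818688))))))))), by decide +kernel⟩

def k7_pm_101_s : ∃ t, chk3 f_pm_101_s t 15 15 1 = true :=
  ⟨(b (a (b (b (a (c (l 22582282999) (a (l 16836552) (l 33856533959))) (l 1)) (a (a (a (l 16842600) (l 14)) (l 14)) (l 14))) (a (a (a (b (l 16839696) (l 16836648)) (l 14)) (l 14)) (l 14))) (b (l 1) (l 14))) (a (a (a (a (a (a (b (b (l 16834056) (l 16830616)) (b (c (l 16832160) (l 16821816)) (b (l 16823984) (l 16821944)))) (l 14)) (l 14)) (l 14)) (l 14)) (l 14)) (l 14))), by decide +kernel⟩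

theorem s8_pm_101_s : ∃ t, chk3 f_pm_101_s t 14 15 1 = true := ex3_a k5_pm_101_s k6_pm_101_s

theorem s9_pm_101_s : ∃ t, chk3 f_pm_101_s t 7 15 1 = true := ex3_a s8_pm_101_s k7_pm_101_s

theorem s10_pm_101_s : ∃ t, chk3 f_pm_101_s t 7 7 1 = true := ex3_b k4_pm_101_s s9_pm_101_s

theorem s11_pm_101_s : ∃ t, chk3 f_pm_101_s t 7 3 1 = true := ex3_b k3_pm_101_s s10_pm_101_s

theorem s12_pm_101_s : ∃ t, chk3 f_pm_101_s t 3 3 1 = true := ex3_a k2_pm_101_s s11_pm_101_s

theorem s13_pm_101_s : ∃ t, chk3 f_pm_101_s t 3 1 1 = true := ex3_b k1_pm_101_s s12_pm_101_s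

theorem s14_pm_101_s : ∃ t, chk3 f_pm_101_s t 1 1 1 = true := ex3_a k0_pm_101_s s13_pm_101_s

theorem c_pm_101_s : CertNE 536870912 536870912 536870912 536870912 536870912 50465866 3 eng mog cd0q1 cd0q1 pd0 false true false .npn 1 0 1
    ndB0q1 ndB0q1 pcB0 cut_pm_101_s Ext.none :=
  certNE0 (fam := false) (s1 := true) (s2 := false) (a := 1) (b := 0) (c := 1) (cn := .npn) (n1 := ndB0q1) (n2 := ndB0q1) (pc := pcB0) (cut := cut_pm_101_s) (xt := Ext.none) (P1 := 536870912) (W1 := 536870912) (P2 := 536870912) (W2 := 536870912) (P3 := 536870912) (W3 := 50465866) (N0 := 3) (En := eng) (mo := mog) (C1 := cd0q1) (C2 := cd0q1) (C3 := pd0)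
    rfl s14_pm_101_s

noncomputable def cut_pm_101_t : Cut := Cut.of [[⟨3, 0, 0, 2845415833⟩], [⟨0, 1, 0, 67108864⟩, ⟨1, 0, 0, 67108864⟩, ⟨2, 1, 0, 67108864⟩], [⟨0, 0, 1, 20971520⟩, ⟨1, 1, 2, 20971520⟩, ⟨2, 1, 0, 33554432⟩]]

noncomputable def f_pm_101_t : ℕ → ℕ → ℕ → ℕ → Bool := onCell 536870912 536870912 536870912 536870912 536870912 50465866
    (rowNE 3 eng mog cd0q1 cd0q1 pd0 0 false true false .npn 1 0 1 (qsf 536870912 536870912 536870912 536870912 0) ndB0q1 ndB0q1 pcB0 cut_pm_101_t Ext.none)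

def k0_pm_101_t : ∃ t, chk3 f_pm_101_t t 8 8 1 = true :=
  ⟨(l 4), by decide +kernel⟩

def k1_pm_101_t : ∃ t, chk3 f_pm_101_t t 16 9 1 = true :=
  ⟨(b (l 4) (a (l 4) (b (l 4) (b (l 4) (a (l 4) (b (l 4) (a (l 4) (b (b (l 4) (a (l 4) (a (l 4) (a (l 172033572775) (l 77544296071))))) (b (a (l 4) (a (a (l 162369896375) (l 69491232135)) (l 16777272))) (a (a (l 4) (a (a (l 188139700135) (l 108145938551)) (l 60901297255))) (c (l 16777376) (l 16777216)))))))))))), by decide +kernel⟩

def k2_pm_101_t : ∃ t, chk3 f_pm_101_t t 17 18 1 = true :=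
  ⟨(b (l 4) (a (l 4) (b (l 4) (a (l 4) (b (l 4) (a (l 4) (b (l 4) (a (l 4) (a (a (l 214983245559) (l 159685546999)) (b (l 113514650407) (l 16777288))))))))))), by decide +kernel⟩

def k3_pm_101_t : ∃ t, chk3 f_pm_101_t t 34 19 1 = true :=
  ⟨(b (b (l 4) (a (l 4) (b (l 4) (a (l 4) (b (a (l 4) (l 230552501815)) (a (l 224646921799) (a (b (l 216056987447) (l 68417491351)) (b (l 73249329927) (l 16777304))))))))) (b (a (b (l 4) (a (l 4) (b (a (l 4) (c (b (l 4) (l 195119021975)) (l 209077665207))) (b (a (l 4) (a (l 169349220807) (l 16778592))) (a (c (a (l 4) (l 162906767319)) (l 189213441703)) (c (l 16777352) (l 16777240))))))) (b (a (b (a (l 4) (c (l 218741342023) (l 222499437943))) (a (c (l 212298891095) (l 216056987031)) (a (b (l 192971538263) (l 49090137783)) (b (l 53921976247) (l 16777312))))) (b (b (a (a (l 204782698311) (l 63585653111)) (l 16777344)) (a (a (l 59290685639) (l 16777304)) (l 16777416))) (a (a (l 16777344) (l 16777416)) (l 16777528)))) (a (b (a (a (b (l 181160378231)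 (l 38889590103)) (b (l 43721428487) (l 16777312))) (c (l 16774240) (l 16774624))) (a (c (l 16774240) (l 16774624)) (l 16777520))) (l 16777664)))) (a (b (a (b (a (l 4) (a (l 4) (a (l 220888825591) (b (l 4) (l 108145939175))))) (b (a (l 4) (a (a (l 200487731079) (l 109756551527)) (l 16777272))) (b (a (l 214446374679) (l 16777280)) (a (a (l 4) (l 108145938519)) (l 16777304))))) (b (b (a (a (a (l 219815083879) (l 108145939351)) (l 16777272)) (l 16774728)) (a (l 16778608) (l 16777416))) (a (a (l 16777352) (l 16777416)) (l 16777520)))) (a (b (b (a (a (a (l 181697249175) (l 86134230951)) (l 16777272)) (l 16777352)) (a (c (l 16777368) (l 16777224)) (l 16777416))) (a (l 16777384) (l 16777512))) (l 16777640))) (b (a (l 16777656) (l 16777960)) (l 16778072))))), by decide +kernel⟩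

def k4_pm_101_t : ∃ t, chk3 f_pm_101_t t 35 19 1 = true :=
  ⟨(b (a (b (b (l 4) (a (l 4) (b (l 4) (a (l 4) (a (b (l 4) (l 110830295031)) (b (l 111904036935) (l 16777288))))))) (a (b (b (l 243437403399) (a (l 236458081815) (a (b (l 240216178455) (l 86134232391)) (b (l 90429199831) (l 16777296))))) (a (a (b (b (l 226794405671) (l 77544297447)) (l 16777336)) (b (b (l 81839264887) (l 16777296)) (l 16777416))) (b (c (l 16777488) (l 16777256)) (l 16777536)))) (b (b (b (a (a (l 4) (l 110293424007)) (l 16777328)) (a (a (l 110830294695) (l 16777296)) (l 16777416))) (a (c (l 16777488) (l 16777256)) (l 16777536))) (l 16777688)))) (b (a (b (b (l 4) (a (l 4) (b (c (l 166127995367) (l 168812347111)) (a (l 110830295671) (l 16777288))))) (b (b (a (a (l 4) (l 110830295495)) (l 16777328)) (a (a (l 111367166215) (l 16777288)) (l 16777416))) (a (c (l 16777480) (l 16777264)) (l 16777544)))) (b (b (a (a (b (l 4) (l 112440908423)) (b (l 112977779335) (l 16777288))) (c (l 16777472) (l 16777272))) (a (c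 (l 16777472) (l 16777272)) (l 16777544))) (l 16777712))) (b (a (l 16777696) (l 16778056)) (l 16778200)))) (a (b (b (a (l 16777680) (l 16778008)) (l 16778136)) (l 16778576)) (b (l 16778680) (l 16779344)))), by decide +kernel⟩

def k5_pm_101_t : ∃ t, chk3 f_pm_101_t t 9 8 1 = true :=
  ⟨(a (a (l 4) (l 1)) (l 1)), by decide +kernel⟩

def k6_pm_101_t : ∃ t, chk3 f_pm_101_t t 18 9 1 = true :=
  ⟨(b (b (a (b (l 4) (a (l 4) (b (l 4) (a (l 4) (b (l 4) (a (l 4) (a (l 189213441799) (b (l 110830292375) (l 16777296))))))))) (b (l 1) (a (b (l 1) (a (b (l 1) (a (l 41372615655) (l 1))) (l 1))) (l 1)))) (a (a (b (b (l 4) (a (l 4) (b (l 4) (a (l 4) (a (l 185455345431) (a (l 112977775591) (l 54458848631))))))) (a (b (b (l 4) (a (l 4) (a (l 179549769351) (a (l 111904036087) (l 49627010071))))) (b (a (b (l 177402285703) (a (l 104924716471) (l 16777288))) (l 16779336)) (a (c (l 16777472) (l 16777272)) (l 16777552)))) (b (a (a (b (l 182770993495) (l 16777328)) (b (a (l 114051519655) (l 52848235719)) (l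 16777416))) (b (l 16779992) (l 16777552))) (c (l 16778048) (l 16777408))))) (b (b (a (b (l 4) (a (l 4) (a (l 188676570903) (a (l 113514649319) (l 58216945175))))) (b (b (a (l 189213441799) (l 16777336)) (a (a (l 105461587687) (l 16777296)) (l 16777424))) (a (l 16780000) (l 16777568)))) (a (b (a (a (l 187602829079) (a (l 114051520055) (l 56069461447))) (l 16780000)) (a (l 16780000) (l 16777560))) (a (l 16777656) (l 16777864)))) (b (a (b (l 16777648) (l 16777848)) (l 16778152)) (l 16778312)))) (a (b (a (b (a (l 16777664) (l 16777880)) (l 16778168)) (l 16778400)) (c (l 16779944) (l 16777968))) (b (l 42983232615) (l 16779928))))) (b (a (b (a (a (b (c (l 16778048) (l 16777392)) (l 16778080)) (l 16778272)) (c (l 16779864) (l 16777888))) (a (l 16778784) (l 16779648))) (a (b (l 16779784) (l 16780600)) (b (l 16780768) (l 16781632)))) (a (a (b (l 16779504) (l 16780208)) (b (l 16780408) (l 16781160))) (a (b (l 16781408) (l 16782200)) (l 16782832))))), by decide +kernel⟩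

def k7_pm_101_t : ∃ t, chk3 f_pm_101_t t 19 9 1 = true :=
  ⟨(b (a (b (l 1) (b (l 1) (l 46204459975))) (l 1)) (b (a (b (l 16782472) (l 16783280)) (l 51573179831)) (a (a (l 16784008) (l 16785256)) (l 16787352)))), by decide +kernel⟩

def k8_pm_101_t : ∃ t, chk3 f_pm_101_t t 32 40 1 = true :=
  ⟨(b (l 4) (a (l 4) (b (l 4) (a (a (l 4) (b (l 4) (c (c (l 240753049671) (l 242363662119)) (l 241826790775)))) (a (b (l 4) (a (b (l 4) (a (b (l 236458082215) (a (b (l 114051516295) (l 16777904)) (l 43184555383))) (b (b (a (l 4) (l 108682806679)) (l 50700748279)) (l 16777224)))) (a (b (b (l 4) (b (a (l 4) (l 105461581479)) (l 62511908535))) (c (l 16777280) (l 16777192))) (b (b (a (a (l 209077665751) (l 103314098567)) (l 75933681559)) (l 16777224)) (l 16777248))))) (a (b (b (l 4) (b (a (l 4) (a (l 195119022039) (l 108682807479))) (a (a (a (l 225183793095) (l 105461582119)) (l 99556001879)) (l 16777232)))) (b (a (b (l 16777232) (l 16777240)) (l 16777248)) (l 16777264))) (b (b (b (a (l 4) (a (l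 220888825799) (l 105461582455))) (a (a (l 208003923911) (l 108145936759)) (l 16777888))) (b (a (l 16777232) (l 16777240)) (l 16777248))) (l 16777280)))))))), by decide +kernel⟩

def k9_pm_101_t : ∃ t, chk3 f_pm_101_t t 33 80 1 = true :=
  ⟨(b (a (l 4) (a (b (a (l 4) (b (l 232699985607) (a (l 222499438407) (a (b (l 217130729383) (l 16778600)) (l 44795169447))))) (a (a (c (l 213909503911) (l 217667599927)) (b (l 210151407431) (a (b (l 105998454391) (l 16777248)) (l 27078428839)))) (a (b (a (b (l 106535325447) (l 16777264)) (l 36742105591)) (l 16777280)) (b (l 16777272) (l 16777328))))) (b (a (a (b (a (a (l 176328540087) (l 107609067463)) (l 52311362391)) (l 16777272)) (c (l 16777384) (l 16777216))) (l 16777384)) (a (l 16777384) (l 16777504))))) (a (a (l 4) (b (a (l 4) (a (a (l 4) (b (l 4) (b (l 4) (l 102777228951)))) (b (c (l 196192763863) (l 199413989127)) (a (b (l 103314099863) (l 16777240)) (l 16777248))))) (b (a (a (l 4) (a (l 4) (b (l 4) (l 105998454087)))) (b (a (a (l 105998454263)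 (l 16777240)) (l 16777264)) (c (l 16777328) (l 16777208)))) (b (a (a (l 4) (a (l 106535324823) (l 16777232))) (c (l 16775416) (l 16777200))) (a (a (a (l 4) (l 107609066455)) (l 16777248)) (l 16777312)))))) (a (a (b (a (a (b (b (l 104924712583) (l 16777240)) (l 16777264)) (c (l 16777328) (l 16777216))) (b (l 16777280) (l 16777328))) (l 16777376)) (b (l 16777384) (l 16777488))) (l 16777608)))), by decide +kernel⟩

def k10_pm_101_t : ∃ t, chk3 f_pm_101_t t 33 81 1 = true :=
  ⟨(a (b (a (a (b (l 4) (b (b (c (l 223573180359) (l 226794405511)) (a (l 4) (a (l 185455345607) (l 53385103351)))) (b (c (a (l 196192763879) (l 19025364775)) (a (l 198877118279) (l 16777224))) (a (a (a (l 4) (l 102777228055)) (l 37278975655)) (l 16776104))))) (b (b (b (l 235921211143) (a (l 4) (a (l 226794405799) (l 97945389783)))) (a (a (l 213372632967) (b (l 217130729383) (l 68954360183))) (a (b (l 77007424071) (l 16777240)) (l 16777248)))) (b (a (a (a (b (l 103850969319) (l 16777232)) (l 16777240)) (l 16777248))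 (l 16777272)) (l 16777288)))) (b (a (a (b (a (b (l 104924711751) (l 16777232)) (l 16777248)) (l 16777272)) (b (l 16777280) (l 16777320))) (l 16777368)) (c (l 16777656) (l 16777136)))) (a (b (a (b (a (c (c (l 16777312) (l 16777264)) (l 16777200)) (l 16777272)) (l 16777288)) (l 16777344)) (c (l 16777640) (l 16777088))) (c (l 16777944) (l 16777072)))) (a (b (a (l 16777512) (l 16777624)) (l 16777736)) (b (l 16777816) (l 16778008)))), by decide +kernel⟩

def k11_pm_101_t : ∃ t, chk3 f_pm_101_t t 64 164 1 = true :=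
  ⟨(a (l 4) (b (l 4) (b (l 4) (a (l 4) (b (l 4) (a (l 4) (b (c (l 220351954935) (l 223036309335)) (a (l 4) (a (a (l 4) (l 102240355767)) (l 39963329367)))))))))), by decide +kernel⟩

def k12_pm_101_t : ∃ t, chk3 f_pm_101_t t 64 165 1 = true :=
  ⟨(a (b (l 4) (b (l 4) (a (l 4) (a (l 4) (b (c (c (a (l 4) (c (l 199950860327) (l 200487731223))) (l 214983245783)) (l 214446374727)) (a (a (l 4) (a (l 209614536663) (b (l 4) (l 95797904391)))) (a (b (a (l 111367161271) (l 108682806359)) (l 16777216)) (l 16777216)))))))) (b (b (a (l 4) (a (a (l 4) (b (l 4) (c (b (a (l 4) (a (l 107072193911) (l 104924709991))) (a (a (l 105461581175) (l 93650420711)) (l 16777232))) (l 107609066391)))) (a (b (c (b (l 186529087495) (a (a (l 108682806647) (l 104924710087)) (l 16777232))) (l 107609065911)) (c (c (l 16777256) (l 16777232)) (l 16777200))) (b (c (l 16777248) (l 16777200)) (l 16777224))))) (b (a (l 4) (a (a (c (b (a (l 4) (l 108682806711)) (a (l 105461581207) (l 16777232))) (l 104387840631)) (c (c (l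 16777264) (l 16777232)) (l 16777192))) (l 16777232))) (a (a (l 4) (c (a (l 239142436855) (a (b (l 241289920519) (l 88281711831)) (b (l 97945388327) (l 16777232)))) (a (l 241826791271) (l 97408518679)))) (a (a (c (l 16776592) (l 16777192)) (l 16777224)) (l 16777232))))) (a (b (b (c (a (c (l 235384340519) (l 236994953159)) (a (b (a (l 216593858567) (l 69491229719)) (c (l 30299653063) (l 16777232))) (l 16777248))) (a (l 236458082103) (a (l 88281713063) (l 16777192)))) (a (a (c (c (l 216056987671) (l 217130729447)) (l 216593858439)) (a (b (b (l 4) (l 108682806631)) (l 43184554839)) (c (l 23320331111) (l 16777216)))) (a (c (l 16777256) (l 16777184)) (l 16777224)))) (a (b (a (b (a (b (l 120493966759) (l 109219677463)) (l 16777552)) (l 16777592)) (c (l 16777256) (l 16777184))) (a (a (l 16777216) (l 16777216)) (l 16777224))) (l 16777224))) (a (a (c (l 16777336) (l 16777128)) (l 16777232)) (l 16777248))))), by decide +kernel⟩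

def k13_pm_101_t : ∃ t, chk3 f_pm_101_t t 65 82 1 = true :=
  ⟨(b (a (a (b (a (l 4) (b (l 4) (a (l 4) (a (l 4) (b (l 4) (b (l 4) (l 104924710567))))))) (a (b (b (l 4) (b (l 235921211287) (a (l 4) (a (l 219278213095) (l 87744840999))))) (a (b (b (l 218204471239) (a (a (l 4) (l 105461581239)) (l 58216940551))) (c (c (l 16777256) (l 16777240)) (l 16777208))) (c (c (b (l 15267267623) (l 16777304)) (l 16777248)) (l 16777200)))) (b (a (b (a (l 4) (b (l 4) (l 105461581207))) (a (b (l 96871646599) (l 16777224)) (l 16777224))) (b (a (b (l 105461581383) (l 16777216)) (l 16777224)) (l 16777232))) (a (b (l 16777224) (l 16777232)) (l 16777240))))) (a (a (b (b (l 4) (b (c (l 191897796599) (l 194045280151)) (a (b (l 105461581559) (l 16777224)) (l 16777224)))) (b (a (b (l 16777224) (l 16777232)) (l 16777232)) (l 16777248))) (b (c (b (l 214446374887) (b (b (l 93650421559) (l 16777240)) (l 16777264))) (b (l 217130729271) (l 23320332311))) (l 16777248))) (b (b (b (a (l 210151407543) (a (b (l 107072194455)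 (l 16777232)) (l 31373395111))) (a (a (b (l 104924710807) (l 16777224)) (l 16777552)) (l 16777232))) (c (c (b (l 16776000) (l 16777368)) (l 16775632)) (l 16777176))) (l 16777264)))) (b (a (a (b (a (b (l 16777224) (l 16777240)) (l 16777248)) (l 16777264)) (l 16777272)) (l 16777320)) (c (l 16777624) (l 16777040)))) (a (a (b (a (a (b (l 16777064) (l 16777240)) (l 16777240)) (l 16777256)) (l 16777272)) (c (l 16777616) (l 16776992))) (c (l 16777864) (l 16776912)))), by decide +kernel⟩

def k14_pm_101_t : ∃ t, chk3 f_pm_101_t t 32 83 1 = true :=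
  ⟨(a (b (b (a (a (a (l 4) (b (l 4) (b (a (l 4) (b (l 214983245783) (c (c (l 107609065687) (l 111904032807)) (l 16778168)))) (b (a (l 198340248167) (l 23320331239)) (a (a (l 108682807111) (l 16777224)) (l 16777216)))))) (a (b (a (b (l 4) (a (l 228405018583) (b (l 232163114983) (l 85060486343)))) (a (b (l 245584887751) (b (l 95261033815) (l 16777216))) (b (b (l 4) (l 105461581223)) (l 16777216)))) (b (a (c (l 17951622327) (l 16777208)) (l 16777216)) (l 16777216))) (b (a (b (a (b (l 111904032247) (l 16777216)) (l 16777216)) (l 16777216)) (a (b (l 16777216) (l 16777216)) (l 16777216))) (l 16777216)))) (a (a (a (l 16777224) (l 16777224)) (l 16777232)) (l 16777248))) (a (b (a (b (a (a (l 4) (b (a (l 4) (l 111904032519)) (a (a (l 117272741303) (l 110293419271)) (l 16777216)))) (a (l 16777544) (l 16777216))) (a (a (c (a (a (l 203708956679) (l 108682807543)) (l 74859939511)) (l 110293420919)) (c (l 16777240) (l 16777192))) (l 16777216))) (l 16777216)) (a (a (a (b (l 16777216) (l 16777208))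 (l 16777208)) (l 16777208)) (c (l 16777416) (l 16777016)))) (c (l 16777584) (l 16776912)))) (a (b (a (c (l 16777376) (l 16777024)) (c (l 16777504) (l 16776920))) (l 16777176)) (c (b (l 16777712) (l 16777832)) (b (l 16776792) (l 16776672))))) (a (b (c (l 16777816) (l 16776824)) (l 16777344)) (c (l 16778304) (l 16776632)))), by decide +kernel⟩

def k15_pm_101_t : ∃ t, chk3 f_pm_101_t t 33 41 1 = true :=
  ⟨(b (a (b (a (a (l 16777408) (l 16777496)) (l 16777640)) (c (a (l 16778248) (l 16778680)) (l 16776832))) (a (b (l 16777888) (l 16778024)) (l 16778240))) (a (c (a (l 16778712) (l 16779168)) (a (l 16776608) (l 16776640))) (c (l 16779912) (l 16776752)))), by decide +kernel⟩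

def k16_pm_101_t : ∃ t, chk3 f_pm_101_t t 17 20 1 = true :=
  ⟨(b (a (b (a (b (c (l 16778240) (l 16777248)) (c (l 16778720) (l 16777272))) (c (l 16779496) (l 16777424))) (a (c (l 16779376) (l 16777240)) (l 16778968))) (b (a (l 16779176) (l 16779984)) (a (l 16779720) (l 16780576)))) (a (b (a (c (l 16780232) (l 16777176)) (l 16779408)) (a (l 16779024) (l 16779792))) (b (a (l 16780208) (l 16781104)) (a (l 16780640) (l 16781576))))), by decide +kernel⟩

def k17_pm_101_t : ∃ t, chk3 f_pm_101_t t 8 21 1 = true :=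
  ⟨(a (b (a (b (b (a (a (c (l 16777680) (l 16776584)) (c (l 16777992) (l 16776456))) (a (c (l 16778352) (l 16776384)) (l 16777528))) (a (c (l 16777976) (l 16776168)) (a (l 16777312) (l 16777536)))) (a (c (l 16778136) (l 16775576)) (a (l 16777152) (a (l 16777368) (l 16777528))))) (a (b (c (l 16779520) (l 16776248)) (b (l 16783184) (l 16788408))) (b (l 16778512) (l 16778664)))) (a (b (a (c (l 16778256) (l 16774712)) (l 16776968)) (a (l 16786440) (l 16776568))) (a (b (c (l 16780408) (l 16775224)) (l 16777464)) (b (c (l 16781768) (l 16775800)) (l 16778624))))) (b (a (b (a (l 16779288) (l 16780120)) (l 16782504)) (b (l 16781440) (l 16781808))) (a (b (l 16780104) (a (l 16779832) (l 16780920))) (b (l 16782136) (l 16782488))))), by decide +kernel⟩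

def k18_pm_101_t : ∃ t, chk3 f_pm_101_t t 9 10 1 = true :=
  ⟨(a (b (b (a (b (a (l 16780896) (l 16781888)) (a (l 16781520) (l 16782560))) (b (a (l 16782968) (l 16784136)) (l 16784216))) (a (b (a (l 16782088) (l 16783160)) (l 16783072)) (a (l 16784560) (l 16785824)))) (b (a (b (l 16783560) (l 16783992)) (a (l 16785608) (l 16786936))) (a (b (l 16784408) (l 16784848)) (l 16787144)))) (b (b (a (b (l 16785968) (l 16786792)) (l 16789112)) (a (l 16787776) (l 16790768))) (b (a (l 16788992) (l 16792112)) (a (l 16790048) (l 16793256))))), by decide +kernel⟩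

def k19_pm_101_t : ∃ t, chk3 f_pm_101_t t 4 11 1 = true :=
  ⟨(a (a (b (a (b (a (b (l 16775392) (l 16774768)) (b (l 16776112) (l 16775584))) (a (b (l 16774112) (l 16773472)) (b (l 16775016) (l 16774448)))) (b (a (b (l 16777096) (l 16776672)) (l 16778136)) (a (l 16775896) (l 16777400)))) (b (a (b (l 16773304) (l 16772848)) (b (l 16775968) (l 16775600))) (a (a (l 16771976) (l 16773056)) (l 16775216)))) (b (b (a (b (a (l 16779784) (l 16781168)) (l 16780296)) (b (l 16782896) (l 16783312))) (a (l 16779856) (b (l 16783568) (l 16783616)))) (b (a (l 16779304) (l 16783360)) (a (l 16779008) (l 16783248))))) (b (a (b (a (l 16785544) (l 16788256)) (a (b (l 16786560) (l 16787216)) (l 16789680))) (b (a (l 16791248) (l 16794528)) (a (l 16792736) (l 16796064)))) (a (b (a (l 16787664) (l 16791424)) (a (l 16787936) (l 16792840))) (b (l 16796064) (l 16798488))))), by decide +kernel⟩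

def k20_pm_101_t : ∃ t, chk3 f_pm_101_t t 5 2 1 = true :=
  ⟨(b (a (b (l 1) (a (b (l 1) (b (l 1) (a (l 16791024) (l 1)))) (l 1))) (l 1)) (b (a (a (b (b (a (l 16792408) (l 16796448)) (a (l 16793992) (l 16797520))) (a (b (l 16795464) (l 16796712)) (b (l 16798816) (l 16800160)))) (b (b (l 1) (a (l 16801808) (l 1))) (b (a (l 16802448) (l 16807024)) (l 16805200)))) (b (l 1) (a (l 6) (l 1)))) (a (b (a (a (l 16798640) (l 16802168)) (l 6)) (l 6)) (l 6)))), by decide +kernel⟩

def k21_pm_101_t : ∃ t, chk3 f_pm_101_t t 2 3 1 = true :=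
  ⟨(b (a (b (a (b (a (a (b (l 16772776) (l 16774640)) (b (l 16775536) (l 16777096))) (b (a (l 16779312) (l 16783608)) (l 16782496))) (a (b (a (l 16778688) (l 16780464)) (a (b (l 16783240) (l 16784040)) (l 16786544))) (b (l 16785096) (l 16789736)))) (b (a (a (l 16788696) (l 16793888)) (l 6)) (l 6))) (a (b (a (b (a (l 16778616) (l 6)) (l 6)) (l 6)) (l 6)) (l 6))) (l 6)) (l 6)), by decide +kernel⟩

def k22_pm_101_t : ∃ t, chk3 f_pm_101_t t 3 1 1 = true :=
  ⟨(b (a (b (l 1) (l 6)) (l 1)) (l 6)), by decide +kernel⟩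

theorem s23_pm_101_t : ∃ t, chk3 f_pm_101_t t 64 82 1 = true := ex3_b k11_pm_101_t k12_pm_101_t

theorem s24_pm_101_t : ∃ t, chk3 f_pm_101_t t 32 82 1 = true := ex3_a s23_pm_101_t k13_pm_101_t

theorem s25_pm_101_t : ∃ t, chk3 f_pm_101_t t 32 41 1 = true := ex3_b s24_pm_101_t k14_pm_101_t

theorem s26_pm_101_t : ∃ t, chk3 f_pm_101_t t 16 41 1 = true := ex3_a s25_pm_101_t k15_pm_101_t

theorem s27_pm_101_t : ∃ t, chk3 f_pm_101_t t 33 40 1 = true := ex3_b k9_pm_101_t k10_pm_101_t

theorem s28_pm_101_t : ∃ t, chk3 f_pm_101_t t 16 40 1 = true := ex3_a k8_pm_101_t s27_pm_101_t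

theorem s29_pm_101_t : ∃ t, chk3 f_pm_101_t t 16 20 1 = true := ex3_b s28_pm_101_t s26_pm_101_t

theorem s30_pm_101_t : ∃ t, chk3 f_pm_101_t t 8 20 1 = true := ex3_a s29_pm_101_t k16_pm_101_t

theorem s31_pm_101_t : ∃ t, chk3 f_pm_101_t t 8 10 1 = true := ex3_b s30_pm_101_t k17_pm_101_t

theorem s32_pm_101_t : ∃ t, chk3 f_pm_101_t t 4 10 1 = true := ex3_a s31_pm_101_t k18_pm_101_t

theorem s33_pm_101_t : ∃ t, chk3 f_pm_101_t t 4 5 1 = true := ex3_b s32_pm_101_t k19_pm_101_t

theorem s34_pm_101_t : ∃ t, chk3 f_pm_101_t t 9 9 1 = true := ex3_a k6_pm_101_t k7_pm_101_t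

theorem s35_pm_101_t : ∃ t, chk3 f_pm_101_t t 9 4 1 = true := ex3_b k5_pm_101_t s34_pm_101_t

theorem s36_pm_101_t : ∃ t, chk3 f_pm_101_t t 17 19 1 = true := ex3_a k3_pm_101_t k4_pm_101_t

theorem s37_pm_101_t : ∃ t, chk3 f_pm_101_t t 17 9 1 = true := ex3_b k2_pm_101_t s36_pm_101_t

theorem s38_pm_101_t : ∃ t, chk3 f_pm_101_t t 8 9 1 = true := ex3_a k1_pm_101_t s37_pm_101_t

theorem s39_pm_101_t : ∃ t, chk3 f_pm_101_t t 8 4 1 = true := ex3_b k0_pm_101_t s38_pm_101_t

theorem s40_pm_101_t : ∃ t, chk3 f_pm_101_t t 4 4 1 = true := ex3_a s39_pm_101_t s35_pm_101_t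

theorem s41_pm_101_t : ∃ t, chk3 f_pm_101_t t 4 2 1 = true := ex3_b s40_pm_101_t s33_pm_101_t

theorem s42_pm_101_t : ∃ t, chk3 f_pm_101_t t 2 2 1 = true := ex3_a s41_pm_101_t k20_pm_101_t

theorem s43_pm_101_t : ∃ t, chk3 f_pm_101_t t 2 1 1 = true := ex3_b s42_pm_101_t k21_pm_101_t

theorem s44_pm_101_t : ∃ t, chk3 f_pm_101_t t 1 1 1 = true := ex3_a s43_pm_101_t k22_pm_101_t

theorem c_pm_101_t : CertNE 536870912 536870912 536870912 536870912 536870912 50465866 3 eng mog cd0q1 cd0q1 pd0 false true false .npn 1 0 1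
    ndB0q1 ndB0q1 pcB0 cut_pm_101_t Ext.none :=
  certNE0 (fam := false) (s1 := true) (s2 := false) (a := 1) (b := 0) (c := 1) (cn := .npn) (n1 := ndB0q1) (n2 := ndB0q1) (pc := pcB0) (cut := cut_pm_101_t) (xt := Ext.none) (P1 := 536870912) (W1 := 536870912) (P2 := 536870912) (W2 := 536870912) (P3 := 536870912) (W3 := 50465866) (N0 := 3) (En := eng) (mo := mog) (C1 := cd0q1) (C2 := cd0q1) (C3 := pd0)
    rfl s44_pm_101_t

end Pool.Agent.Strip051.G.I5000_5470.Tab.CS.BB00

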