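import Pool.Agent.Strip051.G.I5000_5470.Tab
import Pool.Agent.Strip051.PB.StripB

/-! # Strips, near vertex: certificates 6 (generated) -/

set_option linter.all false
set_option maxRecDepth 100000

namespace Pool.Agent.Strip051.G.I5000_5470.Tab.CS.BB00

open Pool.Agent.Strip051.PB Pool.Agent.Strip051.PB.T
open Pool.Agent.Strip051.G.I5000_5470.Tab

noncomputable def cut_pm_102_s : Cut := Cut.of [[⟨4, 0, 0, 1449551462⟩], [⟨0, 1, 0, 67108864⟩, ⟨1, 0, 0, 67108864⟩, ⟨2, 1, 0, 67108864⟩], [⟨0, 0, 1, 20971520⟩, ⟨1, 1, 2, 20971520⟩, ⟨2, 1, 0, 33554432⟩]]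

noncomputable def f_pm_102_s : ℕ → ℕ → ℕ → ℕ → Bool := onCell 536870912 536870912 0 536870912 536870912 50465866
    (rowNE 3 eng mog cd0q1 cd0q2 pd0 0 false true false .npp 1 0 2 (qsf 536870912 536870912 0 536870912 0) ndB0q1 ndB0q2 pcB0 cut_pm_102_s Ext.none)

def k0_pm_102_s : ∃ t, chk3 f_pm_102_s t 4 2 1 = true :=
  ⟨(b (l 2) (a (l 2) (b (l 2) (a (l 2) (b (l 2) (l 16756576)))))), by decide +kernel⟩

def k1_pm_102_s : ∃ t, chk3 f_pm_102_s t 20 4 1 = true :=
  ⟨(a (l 2) (b (l 3) (a (b (l 2) (l 449998488647)) (b (b (b (l 3) (a (a (l 2) (b (l 3) (b (l 126332437463) (l 16777664)))) (b (l 3) (a (b (l 3) (l 127943048807)) (l 3))))) (b (a (l 16776936) (b (a (l 43654314519) (b (l 129553661463) (l 16777552))) (l 16778656))) (l 16781104))) (b (l 16784584) (l 16789160)))))), by decide +kernel⟩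

def k2_pm_102_s : ∃ t, chk3 f_pm_102_s t 21 4 1 = true :=
  ⟨(b (l 3) (b (a (b (l 3) (a (b (a (b (a (l 139217339687) (l 3)) (a (l 56539221031) (b (l 132774886743) (l 62444799911)))) (b (l 3) (a (l 141364825751) (l 3)))) (a (l 16776240) (b (a (b (l 63518541559) (l 16777816)) (b (l 136532982951) (l 64592283255))) (l 16778160)))) (b (l 3) (a (b (a (l 143512303943) (l 3)) (a (b (l 66202895863) (l 16777672)) (b (l 139754208215) (l 67813508471)))) (b (l 3) (a (l 146196658263) (l 3))))))) (l 3)) (a (b (a (b (l 16781256) (l 16781616)) (b (a (b (l 16777944) (l 16778560)) (b (a (b (l 69424121095) (l 16777544)) (b (l 143512304391) (c (l 70497862487) (l 69960991479)))) (l 16777752))) (a (l 16779496) (l 16778480)))) (a (l 16784160) (b (l 16780048) (l 16781168)))) (b (a (b (a (b (a (l 147270399847) (l 3)) (a (b (c (l 72108475159) (l 72108475079)) (l 16777432)) (b (l 146733529639) (c (l 73719087831) (l 73719087767))))) (b (l 3) (l 148881011415))) (a (c (l 16778008) (l 16777520)) (b (a (b (c (l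 76403442359) (l 75866571415)) (l 16777344)) (b (l 148881013047) (c (l 115595018935) (l 115058148007)))) (l 16777432)))) (b (l 3) (a (b (l 3) (a (b (c (l 118279373527) (l 117742502519)) (l 16777272)) (b (l 3) (c (l 121500598935) (l 120426857111))))) (l 3)))) (a (a (l 16773592) (l 16778008)) (b (a (b (l 35064383575) (l 16777400)) (b (a (b (l 121500600295) (l 16777208)) (b (l 3) (l 123648086439))) (a (l 16777232) (l 16777184)))) (l 16778488))))))), by decide +kernel⟩

def k3_pm_102_s : ∃ t, chk3 f_pm_102_s t 11 4 1 = true :=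
  ⟨(b (l 3) (a (b (l 3) (a (b (l 3) (a (b (a (b (l 3) (a (b (l 126332435655) (l 16777160)) (l 136532984663))) (l 3)) (a (b (c (l 37211866935) (l 16776992)) (l 16777024)) (b (a (b (l 131701144567) (l 52781122999)) (l 139754212503)) (a (l 16777048) (b (l 55465477527) (l 16777064)))))) (b (l 3) (a (b (l 3) (a (b (l 137069853447) (l 58686702967)) (l 142975432455))) (l 3))))) (l 3))) (l 3))), by decide +kernel⟩

def k4_pm_102_s : ∃ t, chk3 f_pm_102_s t 10 5 1 = true :=
  ⟨(b (a (b (a (l 16797072) (b (a (l 16798120) (l 16792568)) (l 16791392))) (a (l 16781808) (l 16781664))) (b (a (b (a (l 16787432) (l 16782792)) (a (l 16788184) (l 16783824))) (b (a (l 16779496) (b (l 16777432) (l 16777520))) (a (l 16780488) (l 16777656)))) (a (l 16780536) (b (a (l 16759128) (l 16756008)) (l 16776016))))) (a (b (a (l 16771384) (l 16772704)) (l 16744392)) (b (a (l 16772664) (l 16771632)) (a (l 16768224) (l 16768432))))), by decide +kernel⟩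

def k5_pm_102_s : ∃ t, chk3 f_pm_102_s t 22 10 1 = true :=
  ⟨(b (a (b (a (b (a (l 16776880) (l 16776800)) (l 16776528)) (b (a (b (a (l 16776984) (b (c (l 61907928295) (l 16777056)) (l 16777032))) (l 16776776)) (b (a (b (l 141901691383) (c (l 65129153751) (l 64592282743))) (l 145659786695)) (a (l 16776952) (b (c (l 68887250135) (l 67813508247)) (l 16777024))))) (a (l 16776392) (l 16776536)))) (a (l 16776136) (b (l 16775864) (l 16775304)))) (b (a (b (a (a (b (l 3) (a (b (l 145122917063) (l 16777104)) (l 134922369543))) (l 3)) (l 3)) (a (a (l 16776752) (b (b (a (l 59223573735) (l 132238017207)) (l 16777024)) (l 16776728))) (b (a (b (l 3) (c (l 117205632151) (l 117205631927))) (l 3)) (a (l 16776920) (b (c (l 120426858663) (l 121500599063)) (l 16777024)))))) (b (l 3) (a (b (l 3) (a (b (l 3) (c (l 123111210263) (l 125258695271))) (l 3))) (l 3)))) (a (b (a (l 16776072) (l 16776392)) (l 16772800)) (b (a (b (a (c (l 16778328) (l 16776832)) (b (c (l 125795564503) (l 129016791639)) (c (l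 16778064) (l 16776984)))) (l 16776592)) (b (a (b (l 3) (l 129016792503)) (l 3)) (a (b (c (l 48486156087) (l 16776984)) (l 16776840)) (b (l 131701149543) (a (l 16777040) (l 64592283159)))))) (a (l 16775896) (c (l 16776624) (l 16776088))))))) (a (b (a (l 16775576) (l 16774512)) (a (l 16753656) (b (l 16773712) (l 16773016)))) (b (a (l 16784800) (b (a (l 16775008) (l 16775384)) (l 16774296))) (a (l 16772912) (l 16773056))))), by decide +kernel⟩

def k6_pm_102_s : ∃ t, chk3 f_pm_102_s t 23 20 1 = true :=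
  ⟨(a (b (l 3) (a (b (a (b (l 3) (a (b (l 3) (l 134385503959)) (l 3))) (l 3)) (a (b (a (b (c (a (l 16777096) (l 71571604583)) (l 16778312)) (l 16776872)) (b (l 136532982199) (c (a (l 16777104) (l 111300051751)) (l 60834186935)))) (l 16777920)) (b (a (l 140827948327) (l 3)) (a (b (a (l 44191188295) (l 118279373575)) (l 16776904)) (b (l 140291078215) (a (l 51707381063) (l 123111210471))))))) (l 3))) (l 3)), by decide +kernel⟩

def k7_pm_102_s : ∃ t, chk3 f_pm_102_s t 23 21 1 = true :=
  ⟨(a (b (a (a (b (l 16775840) (l 16774856)) (b (c (l 16777936) (l 16776144)) (l 16775328))) (b (a (b (a (b (c (a (l 59223573735) (l 126869306503)) (l 112910664887)) (l 16776952)) (a (b (l 3) (a (l 51707380871) (l 111836922663))) (l 135996113527))) (a (l 16776536) (c (l 16778256) (l 16776736)))) (b (l 3) (a (a (b (a (l 59760444519) (l 117742502487)) (l 16776936)) (b (l 133311757143) (l 38285608247))) (a (b (l 3) (b (l 131701144823) (l 57076089879))) (l 135996110503))))) (a (l 16775880) (b (c (a (l 16776776)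 (b (a (l 16777040) (l 45801800935)) (l 16776896))) (l 16779216)) (l 16776200))))) (a (b (l 16774120) (l 16773208)) (c (b (l 16775744) (l 16775072)) (l 16773928)))) (b (a (b (l 3) (a (a (b (b (c (a (l 119353114263) (l 136532982247)) (l 124184951623)) (a (l 16777000) (b (l 108078826279) (l 16777080)))) (l 16776664)) (b (b (l 3) (c (l 127406179543) (l 126869306007))) (a (l 16776888) (b (b (l 117742502423) (l 16777104)) (l 16776912))))) (b (l 3) (a (b (l 129553663015) (a (l 16777048) (b (l 126869307815) (l 16777120)))) (b (l 3) (l 131701143847)))))) (l 3)) (a (b (a (c (l 16776376) (l 16775688)) (b (a (l 16776736) (c (b (a (l 16777760) (b (l 129016790263) (l 16777792))) (l 16777000)) (l 46338673111))) (l 16776368))) (c (l 16775912) (l 16774800))) (b (a (a (b (b (l 132238014551) (c (a (l 46875542759) (l 117205631975)) (l 68350379415))) (l 16776816)) (b (l 134385496935) (b (a (b (l 107541955367) (l 16777096)) (l 120963727975)) (l 16776976)))) (b (l 3) (a (b (l 3) (a (b (l 116668760519)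 (l 16777120)) (l 124184951783))) (l 3)))) (a (c (l 16776552) (l 16775952)) (b (b (a (c (l 16777728) (l 16776944)) (a (b (l 126332436903) (l 16777784)) (l 126869306151))) (a (l 16776784) (c (a (l 16777064) (l 40969962679)) (l 16776976)))) (l 16777896))))))), by decide +kernel⟩

def k8_pm_102_s : ∃ t, chk3 f_pm_102_s t 11 11 1 = true :=
  ⟨(a (b (a (b (l 16771840) (l 16770064)) (b (a (b (l 16771848) (l 16771112)) (b (l 16771776) (l 16771216))) (l 16770320))) (a (l 16768864) (b (l 16769800) (l 16769968)))) (b (a (b (a (l 16771808) (l 16772888)) (a (b (l 16771040) (l 16770656)) (b (l 16771624) (l 16771408)))) (b (a (b (l 16774456) (l 16773680)) (b (a (l 16775384) (l 16778592)) (l 16774952))) (a (b (l 16773024) (l 16772296)) (l 16774136)))) (b (a (l 16770952) (a (b (l 16772328) (l 16772416)) (b (l 16773416) (l 16773768)))) (a (l 16771592) (l 16773856))))), by decide +kernel⟩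

def k9_pm_102_s : ∃ t, chk3 f_pm_102_s t 2 3 1 = true :=
  ⟨(b (a (l 6) (a (b (a (b (b (l 16761064) (l 16740048)) (l 6)) (b (a (l 16766616) (l 16768024)) (a (l 16810680) (b (l 16768952) (l 16772328))))) (l 6)) (b (b (a (a (l 16769576) (l 16771656)) (a (l 16774016) (b (l 16775704) (l 16778360)))) (a (b (l 16773464) (a (l 16774744) (l 16778120))) (a (l 16780120) (l 16784096)))) (b (a (a (l 16780696) (b (l 16783408) (l 16788272))) (a (b (l 16786648) (l 16793976)) (b (l 16791976) (l 16798816)))) (a (l 6) (a (l 16805488) (l 16811864))))))) (a (l 6) (l 6))), by decide +kernel⟩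

def k10_pm_102_s : ∃ t, chk3 f_pm_102_s t 6 4 1 = true :=
  ⟨(l 3), by decide +kernel⟩

def k11_pm_102_s : ∃ t, chk3 f_pm_102_s t 12 10 1 = true :=
  ⟨(a (b (l 3) (a (b (l 3) (a (b (l 3) (a (b (a (a (b (l 3) (b (l 126332435655) (l 61371057191))) (l 131701143095)) (l 3)) (a (c (b (a (l 16777088) (l 51170510087)) (l 16776992)) (l 16776872)) (b (c (l 120426857975) (l 126332437159)) (a (l 16777056) (a (l 16777776) (l 69424120807)))))) (b (l 3) (a (b (l 3) (l 122574341255)) (l 3))))) (l 3))) (l 3))) (l 3)), by decide +kernel⟩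

def k12_pm_102_s : ∃ t, chk3 f_pm_102_s t 24 22 1 = true :=
  ⟨(a (b (a (b (a (c (l 16776768) (l 16776280)) (b (a (a (l 16777976) (b (a (l 57076090039) (l 109152567991)) (l 16777016))) (b (l 124721822039) (c (a (l 16777144) (l 106468213559)) (l 16777032)))) (c (l 16776976) (l 16776672)))) (c (l 16776552) (l 16775712))) (b (a (b (a (l 126332433479) (l 3)) (a (b (a (l 49023026583) (l 113984406087)) (l 16777048)) (b (l 127943046999) (c (a (l 58149831895) (l 116668759527)) (l 75866571831))))) (l 3)) (a (b (c (l 16777056) (l 16776800)) (l 16776688)) (b (a (c (b (a (l 67813508135) (l 119889984631)) (l 16777160)) (l 64055412871)) (b (l 3) (c (a (l 76403442487) (l 122574338855)) (l 115595018967)))) (c (a (l 16777104) (b (l 16777816) (l 16777160))) (l 16776912)))))) (a (b (l 16775624) (l 16775288)) (b (a (l 16776400) (l 16776800)) (l 16776416)))) (b (a (b (l 3) (a (b (l 3) (a (c (b (l 115595022775) (l 48486155783)) (l 74255959559)) (b (l 3) (l 117742506039)))) (l 3))) (l 3)) (a (b (a (a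 (l 16777024) (b (a (l 16777152) (b (l 68887250103) (l 16777168))) (l 16777104))) (b (a (b (l 119353113175) (a (l 16777184) (l 78014055335))) (l 122574337207)) (a (l 16777184) (b (a (l 16777184) (l 109152568007)) (l 16777224))))) (c (l 16778744) (l 16776896))) (b (a (a (b (l 3) (a (b (l 124721822247) (l 61371057431)) (l 117205629431))) (l 3)) (l 3)) (a (b (c (a (l 16777344) (b (l 105931342503) (l 16777304))) (l 59223575495)) (l 16777384)) (b (a (b (l 3) (l 108615698647)) (l 3)) (a (c (l 16777368) (l 16777264)) (b (l 110763179319) (l 56539219607))))))))), by decide +kernel⟩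

def k13_pm_102_s : ∃ t, chk3 f_pm_102_s t 24 23 1 = true :=
  ⟨(a (b (a (b (l 16775120) (l 16774968)) (l 16781776)) (a (b (l 16775688) (l 16776400)) (b (l 16776936) (l 16778104)))) (b (a (b (l 16774744) (l 16777816)) (b (a (l 16777688) (c (l 16777816) (l 16777536))) (l 16778360))) (a (b (l 16778520) (l 16779304)) (b (l 16779288) (l 16780480))))), by decide +kernel⟩

def k14_pm_102_s : ∃ t, chk3 f_pm_102_s t 25 11 1 = true :=
  ⟨(b (a (b (l 3) (a (b (l 3) (a (b (l 3) (a (b (l 3) (l 112910662583)) (l 3))) (l 3))) (l 3))) (l 3)) (a (b (a (b (a (b (a (b (l 65129154135) (l 16777432)) (a (b (l 100025758503) (l 16777296)) (l 109689439959))) (l 16777624)) (b (a (l 122574337207) (l 3)) (c (a (b (l 79624668151) (l 16777488)) (l 107541956375)) (a (l 16777224) (l 94657046871))))) (a (l 16778256) (c (l 16778024) (l 16777848)))) (b (l 3) (a (b (c (a (b (l 95193924663) (l 16777440)) (l 110763178439)) (l 95193926423)) (c (l 39896222151) (l 16777640))) (b (l 3) (a (b (l 108615695463) (l 66739766679))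 (l 113447532199)))))) (a (b (l 16779192) (l 16780512)) (b (a (l 16778608) (b (c (a (l 16777896) (l 61907928519)) (l 16777608)) (l 16778368))) (l 16779808)))) (b (l 3) (a (b (a (b (a (b (l 113447532903) (l 83382764919)) (l 118816240599)) (c (a (l 16777864) (l 74255959047)) (l 16778176))) (b (l 3) (a (c (l 106468211575) (l 89288336999)) (l 3)))) (a (l 16778848) (b (c (a (l 16777800) (l 87677732679)) (l 77477186135)) (l 16778440)))) (b (l 3) (a (b (a (l 110763178023) (l 3)) (c (a (l 16777672) (l 100562635063)) (l 88214605335))) (b (l 3) (l 119889981511)))))))), by decide +kernel⟩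

def k15_pm_102_s : ∃ t, chk3 f_pm_102_s t 13 5 1 = true :=
  ⟨(l 3), by decide +kernel⟩

def k16_pm_102_s : ∃ t, chk3 f_pm_102_s t 7 2 1 = true :=
  ⟨(l 3), by decide +kernel⟩

def k17_pm_102_s : ∃ t, chk3 f_pm_102_s t 12 6 1 = true :=
  ⟨(b (a (b (a (b (l 16778984) (l 16782136)) (b (a (b (l 16780928) (l 16782336)) (b (l 16781720) (l 16783696))) (l 16785568))) (a (l 16809528) (b (l 16789880) (l 16795168)))) (b (a (b (a (b (l 16782072) (l 16783584)) (l 16782488)) (a (b (l 16785944) (l 16787944)) (b (l 16785416) (l 16788152)))) (b (a (b (l 16780312) (l 16782416)) (b (a (c (l 16778976) (l 16778928)) (b (c (a (l 74792830647) (l 102710115495)) (l 94120186087)) (l 16778360))) (c (l 16780752) (l 16780704)))) (a (l 16785936) (l 16784632)))) (a (b (l 16770760) (l 16797496)) (b (a (b (l 16769328) (l 16793064)) (b (l 16767912) (l 16771368))) (l 16797152))))) (b (a (a (l 16857784) (l 16805512)) (a (b (l 16804272) (l 16811736)) (b (l 16782344) (l 16809768)))) (a (a (b (l 16813800) (l 16823768))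 (b (a (l 16817592) (l 16819600)) (a (l 16828504) (l 16829632)))) (b (a (l 16819536) (l 16816616)) (a (l 16827520) (l 16823352)))))), by decide +kernel⟩

def k18_pm_102_s : ∃ t, chk3 f_pm_102_s t 13 12 1 = true :=
  ⟨(a (b (a (b (a (b (a (b (l 3) (a (l 91435830743) (l 111836920055))) (l 3)) (a (c (b (l 16778264) (l 16779568)) (l 16778920)) (b (a (l 104320732823) (l 120963724647)) (c (l 62981671751) (l 16778088))))) (b (l 3) (a (b (l 3) (a (l 104320728311) (l 3))) (l 3)))) (a (b (c (l 16780952) (l 16780984)) (l 16783912)) (b (a (b (a (l 16778336) (l 93583314791)) (l 16779400)) (b (l 118816240583) (c (l 86603993735) (l 64055404119)))) (a (l 16781728) (l 16780040))))) (b (l 3) (a (b (a (l 128479913735) (l 3)) (a (b (a (l 16777808) (l 86067110695)) (l 16779016)) (b (l 132238011383) (a (l 68350372487) (l 117205629175))))) (l 3)))) (a (b (a (l 16788648) (b (l 16784192) (l 16787688))) (a (l 16795672) (b (l 16791192) (l 16773968)))) (b (a (b (a (l 16781552) (b (l 16778736) (l 16780480)))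 (l 16784136)) (b (a (b (a (l 79087789463) (l 129016788183)) (l 78014061047)) (b (l 3) (l 118279370455))) (a (l 16781136) (b (l 91435834295) (l 16779920))))) (a (b (l 16787840) (l 16770592)) (b (l 16783784) (l 16787632)))))) (b (l 3) (a (b (a (b (l 3) (a (b (l 131701142119) (a (l 16778264) (l 81235272775))) (l 147807265927))) (l 3)) (a (b (a (l 16780520) (b (a (l 64055405703) (l 93046432295)) (l 16779200))) (a (l 16784344) (l 16782064))) (b (a (b (l 3) (a (l 73182209767) (l 140827948807))) (l 3)) (a (b (l 71034739111) (l 16780712)) (b (l 133311764407) (a (l 16778960) (l 64592275879))))))) (b (l 3) (a (b (l 3) (a (b (l 3) (l 143512310487)) (l 3))) (l 3)))))), by decide +kernel⟩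

def k19_pm_102_s : ∃ t, chk3 f_pm_102_s t 13 13 1 = true :=
  ⟨(a (b (a (b (l 16800336) (l 16806352)) (b (a (b (l 16774400) (l 16798360)) (b (l 16791520) (l 16795336))) (l 16801240))) (a (b (l 16812736) (l 16819632)) (b (l 16807176) (l 16813600)))) (b (a (b (a (b (l 16787128) (l 16791120)) (b (a (l 16783632) (l 16781272)) (l 16786400))) (a (b (l 16794912) (l 16798088)) (b (l 16790432) (a (l 16774504) (l 16771864))))) (b (a (b (a (b (a (l 16778520) (b (l 111836916439) (l 16777792))) (l 16779856)) (b (a (l 149417882935) (l 3)) (a (b (l 96804540247) (l 16778552)) (b (l 152102238135) (l 108615699847))))) (a (l 16782768) (b (a (l 16779976) (l 16778768)) (l 16781232)))) (b (a (b (l 3) (l 160692169255)) (l 3)) (a (b (a (b (a (l 98952022247) (l 123648080951)) (l 16778048)) (a (b (l 3) (a (l 72108471735) (l 90898953047))) (l 158007817383))) (a (l 16779424) (b (c (l 69960992135) (l 56002344391)) (l 16778712)))) (b (l 3) (a (a (b (c (l 116668759479) (l 117742501255)) (l 16777864)) (b (l 3)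 (a (l 87140861367) (b (l 152102239511) (l 16777376))))) (a (b (l 3) (l 147807274295)) (l 3))))))) (a (b (b (l 16784344) (l 16765216)) (l 16767944)) (b (a (c (l 16781584) (l 16781504)) (b (a (l 16777584) (a (b (b (l 85530248343) (l 16777848)) (l 16778496)) (b (b (l 150491626535) (b (l 116131890279) (l 75866571495))) (l 16777944)))) (c (l 16780112) (l 16780016)))) (a (l 16785000) (c (l 16777480) (l 16772008))))))) (a (b (a (l 16802184) (l 16766872)) (a (l 16808072) (l 16803768))) (b (a (b (a (l 16772696) (l 16769800)) (l 16795200)) (b (a (l 16788376) (l 16785848)) (a (b (l 16790704) (l 16792352)) (b (l 16788232) (l 16789680))))) (a (l 16799224) (b (a (l 16794280) (l 16792112)) (l 16796008))))))), by decide +kernel⟩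

def k20_pm_102_s : ∃ t, chk3 f_pm_102_s t 6 7 1 = true :=
  ⟨(b (a (b (a (a (b (l 16836208) (l 6)) (b (l 16838560) (l 16847976))) (a (l 16839792) (b (l 16832272) (l 16839720)))) (a (l 6) (a (l 16857744) (l 16852480)))) (a (b (a (b (l 16868656) (l 16834576)) (b (l 16820120) (b (l 16846880) (l 16830080)))) (a (l 16867360) (b (l 16835032) (l 16842384)))) (b (a (b (l 16812360) (b (l 16817696) (a (l 16823632) (l 16818936)))) (b (a (l 16805528) (l 16800784)) (a (l 16812624) (l 16807784)))) (a (b (a (l 16828896) (b (l 16823192) (l 16826240))) (l 16833496)) (b (a (b (l 16818072) (l 16822024)) (b (l 16813504) (b (l 16816280) (l 16818464)))) (a (l 16826608) (l 16822032))))))) (a (l 6) (b (a (a (b (l 16858376) (l 6)) (b (l 16849752) (l 16856936))) (a (b (l 16840200) (l 16846640)) (b (a (l 16832840) (l 16827944)) (a (l 16838736) (b (l 16832128) (l 16835024)))))) (b (a (a (l 6) (b (l 16861552) (l 6))) (a (b (a (l 16853464) (l 16847904)) (l 16852456)) (b (a (l 16842592) (l 16838440)) (a (b (l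 16844904) (l 16845736)) (b (a (l 16842240) (l 16840672)) (l 16842928)))))) (a (l 6) (a (a (l 6) (b (l 16851200) (l 6))) (a (b (b (l 16847048) (l 16848568)) (b (l 16850136) (l 6))) (b (a (l 16845864) (l 16844504)) (c (l 16855432) (l 16841720)))))))))), by decide +kernel⟩

def k21_pm_102_s : ∃ t, chk3 f_pm_102_s t 14 12 1 = true :=
  ⟨(l 3), by decide +kernel⟩

def k22_pm_102_s : ∃ t, chk3 f_pm_102_s t 56 52 1 = true :=
  ⟨(l 3), by decide +kernel⟩

def k23_pm_102_s : ∃ t, chk3 f_pm_102_s t 112 53 1 = true :=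
  ⟨(b (b (a (a (a (b (l 148344141911) (b (a (l 89825215303) (l 122037468775)) (l 16777616))) (b (l 3) (a (b (l 3) (l 111300051895)) (l 140291078791)))) (l 3)) (l 3)) (b (a (a (a (l 16778248) (a (l 16777848) (b (l 69960991351) (l 16777792)))) (c (a (a (b (l 115595018007) (l 16777544)) (b (l 3) (l 96804536871))) (b (l 3) (l 134385499159))) (a (b (l 125258693975) (l 73719087895)) (l 139217336679)))) (l 3)) (a (a (l 16778816) (a (l 16778016) (b (a (l 60297314871) (b (l 132238016055) (l 95193924135))) (l 16777704)))) (a (a (b (l 148881013431) (a (a (l 16777376) (l 101636375207)) (c (l 123648081479) (l 124721823287)))) (l 3)) (l 3))))) (a (b (c (a (l 16780136) (l 16779032)) (l 16778144)) (c (l 16781256) (l 16781016))) (b (b (a (a (c (l 32916898503) (l 16777776)) (a (b (b (l 101099502167) (l 78550925687)) (l 16777608)) (b (l 138680466647) (b (l 96804536855) (l 16777456))))) (a (a (b (l 3) (a (l 122574340823) (l 132238015975))) (l 3)) (l 3))) (b (a (l 16778136) (a (a (l 16777504) (b (a (l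 108615696775) (l 118816242759)) (l 16777344))) (a (a (l 129016790583) (l 3)) (l 3)))) (a (l 16778528) (a (l 16777768) (a (c (l 55465476503) (l 16777376)) (b (l 135996112375) (c (l 94657052951) (l 99488891303)))))))) (a (l 16779504) (a (l 16777424) (b (b (l 16777664) (l 16778040)) (l 16778616))))))), by decide +kernel⟩

def k24_pm_102_s : ∃ t, chk3 f_pm_102_s t 113 53 1 = true :=
  ⟨(b (l 3) (a (b (a (a (a (b (l 3) (l 149954754951)) (l 3)) (l 3)) (l 3)) (b (a (b (a (a (b (a (l 88751472951) (l 103246986199)) (l 16777392)) (a (b (l 3) (l 112910664087)) (l 144049175831))) (l 3)) (a (c (c (l 37211865495) (l 16777560)) (l 16777536)) (a (b (l 128479919751) (c (l 79087796423) (l 16777264))) (l 142438562967)))) (l 3)) (b (a (a (l 16777936) (a (l 16777568) (a (l 47949283847) (b (l 125795565959) (l 16777368))))) (b (l 3) (a (a (c (l 116668760519) (l 86067116663)) (l 3)) (l 3)))) (a (l 16777408) (a (a (c (l 16777480) (l 16777456)) (b (c (l 120426856887) (l 97878276759)) (c (l 55465476391) (l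 16777304)))) (a (b (l 3) (l 131164274263)) (l 3))))))) (l 3))), by decide +kernel⟩

def k25_pm_102_s : ∃ t, chk3 f_pm_102_s t 57 26 1 = true :=
  ⟨(l 3), by decide +kernel⟩

def k26_pm_102_s : ∃ t, chk3 f_pm_102_s t 56 54 1 = true :=
  ⟨(a (b (a (b (l 16782696) (l 16784256)) (b (a (l 16781056) (l 16780008)) (l 16782032))) (a (l 16786568) (l 16784264))) (b (a (b (a (c (l 16779096) (l 16778920)) (a (c (b (l 16777944) (l 16778720)) (l 16776912)) (b (a (b (a (l 16777424) (b (l 109689438615) (l 16777400))) (l 16777728)) (b (b (l 142438563239) (b (l 124184953223) (l 82309022023))) (l 16777496))) (l 16778160)))) (c (a (l 16780656) (l 16779616)) (l 16777208))) (b (a (a (b (b (l 3) (a (a (b (l 99488891207) (l 16777416)) (b (l 133848628919) (l 16777376))) (a (b (l 3) (l 124184953239)) (l 149954755767)))) (a (l 16777152) (b (a (l 16777456) (b (a (l 16777272) (l 103246987495)) (l 16777432))) (l 16777752)))) (b (l 3) (a (b (b (c (l 134385499687) (l 134922370583)) (a (l 16777312) (a (l 98415149303)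 (l 97878277271)))) (l 16777528)) (b (l 146733530151) (b (b (l 131164275111) (a (l 16777312) (l 121500598567))) (l 16777384)))))) (b (l 3) (a (b (l 3) (a (a (b (l 3) (a (l 69960990919) (l 124184953143))) (l 143512304951)) (l 3))) (l 3)))) (a (c (b (l 16777584) (l 16778992)) (b (l 16778120) (l 16778776))) (a (b (a (b (a (l 16777480) (a (l 16777400) (b (l 65666023639) (l 16777432)))) (l 16777776)) (b (b (a (l 130090533223) (l 3)) (a (l 16777344) (a (l 61371056375) (l 113447534871)))) (l 16777552))) (l 16777528)) (a (b (b (c (c (l 141901692087) (l 142438562983)) (l 142975433879)) (b (a (c (l 16777336) (l 16777288)) (c (l 119889985799) (l 90362084311))) (l 16777416))) (l 16777848)) (b (b (l 3) (b (l 150491626807) (a (a (l 52244250903) (l 102710116583)) (l 129016791431)))) (b (a (l 16777504) (b (l 42580574599) (l 16777480))) (l 16777792)))))))) (a (b (c (l 16781672) (l 16781184)) (l 16782832)) (a (b (l 16779928) (l 16781312)) (b (c (l 16776672) (l 16778872)) (l 16780352)))))), by decide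 +kernel⟩

def k27_pm_102_s : ∃ t, chk3 f_pm_102_s t 56 55 1 = true :=
  ⟨(b (a (a (b (l 16788704) (l 16790424)) (b (l 16786456) (l 16798256))) (a (l 16784952) (b (l 16782184) (l 16783536)))) (a (a (l 16792456) (b (l 16789512) (l 16790824))) (a (b (a (l 16787512) (l 16786440)) (l 16788624)) (b (l 16784864) (b (l 16785864) (l 16796920)))))), by decide +kernel⟩

def k28_pm_102_s : ∃ t, chk3 f_pm_102_s t 114 108 1 = true :=
  ⟨(a (b (l 3) (b (l 3) (a (a (b (a (b (a (b (l 110763179335) (l 82845892807)) (l 144586047031)) (a (l 16777376) (b (l 102710116583) (l 16777304)))) (a (a (b (l 3) (l 129553662263)) (l 145122917751)) (l 3))) (b (a (l 16777488) (a (l 16777328) (b (l 100562632567) (l 56539218167)))) (l 16777224))) (a (b (l 3) (b (l 142975434151) (a (b (l 89825214647) (l 16777320)) (b (l 146196659895) (l 109689438455))))) (l 3))) (l 3)))) (l 3)), by decide +kernel⟩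

def k29_pm_102_s : ∃ t, chk3 f_pm_102_s t 228 109 1 = true :=
  ⟨(b (a (b (b (a (l 16777800) (a (c (l 16777496) (l 16777456)) (a (b (b (l 126869307639) (l 16777272)) (l 16777400)) (b (l 135459241655) (b (l 61907927303) (l 16777336)))))) (c (l 16777320) (l 16777872))) (c (l 16777208) (l 16778336))) (a (b (a (a (b (b (l 3) (b (l 124184952231) (l 96267665559))) (l 16777432)) (b (l 3) (b (b (l 116131889383) (l 16777288)) (l 16777408)))) (b (l 3) (a (b (b (l 3) (l 133848629495)) (c (l 37211865367) (l 16777296))) (b (l 3) (b (l 113447533895) (a (l 16777264) (l 108615696551))))))) (c (c (l 16777184) (l 16777792)) (l 16777720))) (b (a (c (b (l 3) (l 149417884711)) (l 150491625863)) (l 3)) (a (b (b (a (a (l 42580574551) (b (l 132774887591) (l 16777272))) (b (l 3) (l 124184953095))) (c (l 21642608999) (l 16777352))) (l 16777608)) (b (b (l 3) (a (c (b (l 104320729015) (l 54391734471)) (l 108615696615)) (l 141901692519))) (a (l 16777456) (b (a (l 16777296) (b (l 119353114807) (l 16777288)))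 (l 16777432)))))))) (c (a (l 16779608) (b (a (l 16778528) (l 16778064)) (l 16779000))) (a (l 16779256) (b (l 16777472) (l 16778712))))), by decide +kernel⟩

def k30_pm_102_s : ∃ t, chk3 f_pm_102_s t 229 109 1 = true :=
  ⟨(a (a (b (b (l 3) (b (l 3) (a (a (b (b (l 149954756263) (c (l 110763180199) (l 113447534775))) (l 16777328)) (b (l 3) (b (l 131701145863) (c (l 16777344) (l 16777256))))) (a (a (b (l 3) (l 134385499911)) (l 3)) (l 3))))) (b (b (a (l 16777192) (a (b (a (l 16777304) (b (l 103246987383) (l 16777296))) (l 16777440)) (b (b (l 142975434455) (a (l 16777240) (l 130090533047))) (l 16777336)))) (l 16777240)) (c (l 16778304) (l 16778120)))) (b (l 3) (b (b (b (l 3) (a (a (b (c (l 119353114823) (l 122037469383)) (l 37211865383)) (a (b (l 3) (l 124184953031)) (l 3))) (l 3))) (a (b (a (l 16777392) (a (l 16777320) (b (l 88214601863) (l 16777312)))) (l 16777504)) (a (b (b (l 137069854487) (a (l 16777256) (l 115595018391))) (l 16777352)) (b (l 149954756119) (b (a (l 62444798151)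 (l 106468212215)) (l 16777288)))))) (c (b (c (l 16777704) (l 16777656)) (l 16778024)) (l 16777744))))) (b (l 3) (b (a (a (a (b (l 3) (b (l 3) (a (b (l 3) (l 108078825591)) (l 146733530775)))) (l 3)) (l 3)) (l 3)) (b (a (b (a (a (c (c (l 27548188919) (l 16777304)) (l 16777296)) (b (a (l 134385500327) (l 3)) (a (l 16777272) (l 100562632823)))) (c (l 146733530503) (l 147270401383))) (a (l 16777408) (a (b (a (l 16777320) (l 128479920311)) (l 16777296)) (b (l 3) (a (l 93583310967) (l 115595017751)))))) (l 3)) (b (a (c (c (a (l 16777624) (l 16777392)) (l 16777480)) (l 16777440)) (a (a (b (l 138680467735) (a (l 16777280) (l 87677730999))) (c (l 140827950711) (l 141364821607))) (l 3))) (a (l 16777288) (b (a (a (l 16777328) (a (l 16777256) (l 114521276567))) (l 149954756071)) (a (l 16777360) (a (a (l 60297314503) (l 106468212871)) (l 3)))))))))), by decide +kernel⟩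

def k31_pm_102_s : ∃ t, chk3 f_pm_102_s t 115 54 1 = true :=
  ⟨(l 3), by decide +kernel⟩

def k32_pm_102_s : ∃ t, chk3 f_pm_102_s t 114 55 1 = true :=
  ⟨(b (b (a (a (l 16780728) (a (l 16780040) (l 16779592))) (a (c (c (l 16779216) (l 16779024)) (l 16777480)) (b (b (a (l 16777192) (a (c (l 16776928) (l 16777520)) (a (c (l 16777344) (l 16777384)) (b (b (a (l 107005083767) (l 129553661543)) (c (l 38822478007) (l 16777256))) (l 16777376))))) (a (l 16778160) (a (l 16777856) (l 16777656)))) (c (l 16778552) (l 16778304))))) (a (l 16781560) (a (l 16780192) (b (l 16779032) (l 16779648))))) (a (c (l 16784104) (l 16782976)) (b (a (l 16781448) (l 16780568)) (l 16782248)))), by decide +kernel⟩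

def k33_pm_102_s : ∃ t, chk3 f_pm_102_s t 460 110 1 = true :=
  ⟨(a (b (b (b (a (a (b (a (c (l 133848629015) (l 115595017495)) (l 3)) (a (l 16777304) (b (a (l 60297314455) (l 119889985687)) (l 16777296)))) (b (l 3) (b (l 142975434471) (a (l 48486154455) (l 128479920311))))) (l 3)) (a (c (c (l 16777504) (l 16777472)) (l 16777432)) (a (b (b (a (a (l 16777232) (l 109689438295)) (l 116131888663)) (c (l 16777280) (l 16777264))) (l 16777392)) (b (a (b (l 3) (l 121500598439)) (l 150491627111)) (a (l 16777312) (b (a (l 16777240) (l 101099503687)) (l 16777304))))))) (b (a (l 16777760) (a (l 16777616) (l 16777520))) (l 16777968))) (b (l 16778416) (l 16779024))) (b (b (b (l 3) (b (l 3) (a (a (b (l 137069854487) (a (l 16777256) (l 115058147479))) (l 148881014295)) (l 3)))) (a (b (a (b (l 16777344) (l 16777496)) (b (b (b (l 131701145767) (a (l 16777256) (l 125258694791))) (l 16777288)) (l 16777400))) (l 16777672)) (b (a (b (b (l 3) (a (a (l 90362085511) (l 129016791191)) (l 132238016135))) (a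 (l 16777328) (a (l 16777288) (b (l 63518539911) (l 16777304))))) (b (l 3) (b (c (l 131164274503) (l 111836921175)) (a (l 16777264) (c (l 98415149127) (l 16777208)))))) (c (c (l 16776872) (l 16777488)) (l 16777448))))) (b (b (l 16777872) (l 16778168)) (l 16778624)))), by decide +kernel⟩

def k34_pm_102_s : ∃ t, chk3 f_pm_102_s t 461 110 1 = true :=
  ⟨(a (b (b (l 3) (a (b (a (b (l 3) (l 146196659783)) (l 3)) (b (a (b (a (c (l 44728057991) (l 16777232)) (l 130090533047)) (l 16777296)) (a (b (l 3) (c (l 92509569111) (l 16777208))) (l 141901692599))) (a (l 16777408) (c (c (l 14663287031) (l 16777312)) (l 16777296))))) (b (l 3) (b (l 3) (a (a (b (l 124721823943) (l 16777272)) (b (l 3) (c (l 86067118167) (l 16777216)))) (b (l 3) (l 138143596295))))))) (a (b (b (b (l 16777504) (l 16777656)) (l 16777880)) (l 16778328)) (b (b (b (b (a (l 16777328) (a (l 16777336) (c (l 113984405575) (l 118279372935)))) (l 16777352)) (l 16777464)) (l 16777680)) (l 16778128)))) (b (l 3) (b (a (b (b (b (l 150491626983)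 (a (b (l 133311758487) (a (l 16777248) (l 127943049335))) (l 3))) (a (c (l 16777328) (l 16777304)) (b (a (a (l 92509569111) (l 132238016663)) (l 137069854375)) (a (l 16777288) (a (l 16777248) (l 89825214599)))))) (b (a (l 16777464) (l 16777368)) (l 16777568))) (b (a (a (b (l 3) (b (l 3) (l 137069854871))) (l 3)) (l 3)) (b (b (a (a (l 16777264) (c (l 101099503655) (l 104320729159))) (l 145122918103)) (a (l 16777312) (a (c (l 46338670727) (l 16777232)) (l 132774887591)))) (c (l 16777392) (l 16777360))))) (b (a (l 16777784) (a (l 16777640) (l 16777544))) (l 16777984))))), by decide +kernel⟩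

def k35_pm_102_s : ∃ t, chk3 f_pm_102_s t 231 110 1 = true :=
  ⟨(b (l 3) (a (a (b (a (b (l 3) (b (l 3) (a (b (a (c (l 95730794567) (l 16777208)) (l 123648081495)) (c (c (l 26474447063) (l 16777272)) (l 16777256))) (a (b (l 3) (l 127943049399)) (l 3))))) (l 3)) (a (b (b (a (l 16777376) (a (l 16777304) (b (a (l 50096767175) (l 108615696471)) (l 16777296)))) (c (l 16777512) (l 16777448))) (l 16777696)) (b (a (b (b (l 139754209015) (a (l 38285607143) (c (l 118279372887) (l 121500598391)))) (l 16777336)) (b (l 151028497927) (b (b (l 138143596727) (a (l 16777248) (l 132774887527))) (c (l 16777288) (l 16777272))))) (a (l 16777552) (b (l 16777384) (l 16777536)))))) (b (l 3) (a (b (a (a (b (l 3) (b (l 3) (c (l 112373792839) (l 115595018343)))) (l 149954755911)) (l 3)) (b (a (a (l 16777320) (b (a (l 16777240) (l 95193923703)) (l 16777304))) (b (c (l 134922370855) (l 117742501255)) (a (l 16777256) (c (l 107541954647) (l 109152567367))))) (a (l 16777440) (l 16777344)))) (b (l 3) (b (c (l 148881014119)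 (l 150491626839)) (a (b (a (c (l 50096767143) (l 16777224)) (l 136532983959)) (l 16777288)) (b (l 3) (a (c (l 101636374615) (l 103783858247)) (l 129553661559))))))))) (l 3))), by decide +kernel⟩

def k36_pm_102_s : ∃ t, chk3 f_pm_102_s t 230 111 1 = true :=
  ⟨(b (a (c (l 16780024) (l 16779472)) (b (a (l 16778824) (l 16778424)) (l 16779216))) (c (l 16780928) (l 16780168))), by decide +kernel⟩

def k37_pm_102_s : ∃ t, chk3 f_pm_102_s t 231 111 1 = true :=
  ⟨(b (a (b (b (a (l 16777896) (a (c (l 16777656) (l 16777560)) (b (a (l 16777392) (a (l 16777328) (a (l 16777288) (b (l 57612959927) (l 16777304))))) (l 16777488)))) (a (l 16778184) (a (l 16777896) (l 16777712)))) (c (l 16778592) (l 16778296))) (a (b (a (b (b (a (b (a (l 132238016679) (l 3)) (a (l 16777264) (a (l 54928605367) (l 116131889255)))) (c (l 145659788887) (l 146196659783))) (a (l 16777272) (b (a (c (l 38822477975) (l 16777232)) (l 127943049399)) (l 16777296)))) (a (l 16777568) (b (l 16777400) (l 16777544)))) (b (b (l 3)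 (b (l 3) (a (a (a (l 48486154439) (l 109152567383)) (l 117205630487)) (l 3)))) (a (b (b (c (l 21642608887) (l 16777264)) (l 16777344)) (l 16777456)) (a (b (b (c (l 119353114711) (l 122037469303)) (l 16777272)) (l 16777384)) (b (b (l 3) (a (l 16777320) (l 102173245511))) (l 16777336)))))) (b (a (l 16777808) (l 16777624)) (l 16778008))) (a (b (b (l 3) (b (a (a (c (l 139754208983) (l 140827950807)) (l 3)) (l 3)) (b (a (a (l 31306285303) (c (l 113447534663) (l 116668760167))) (l 149417885351)) (a (l 16777304) (a (a (l 16777240) (l 96804536439)) (c (l 108615695863) (l 110226308631))))))) (b (b (a (l 16777408) (c (l 16777328) (l 16777304))) (l 16777504)) (l 16777720))) (b (l 3) (b (b (a (b (a (c (l 109152567383) (l 111836921959)) (l 141364821719)) (a (l 16777280) (c (l 50633638087) (l 16777224)))) (a (b (l 3) (l 138680467607)) (l 3))) (b (a (l 16777328) (a (l 16777256) (c (l 103783858263) (l 105394470983)))) (c (l 16777376) (l 16777336)))) (a (l 16777584) (b (l 16777416) (l 16777560))))))))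 (a (c (l 16779592) (l 16779072)) (b (c (c (l 16778464) (l 16778320)) (l 16777472)) (c (l 16779048) (l 16778640))))), by decide +kernel⟩

def k38_pm_102_s : ∃ t, chk3 f_pm_102_s t 29 26 1 = true :=
  ⟨(l 3), by decide +kernel⟩

def k39_pm_102_s : ∃ t, chk3 f_pm_102_s t 58 54 1 = true :=
  ⟨(l 3), by decide +kernel⟩

def k40_pm_102_s : ∃ t, chk3 f_pm_102_s t 116 110 1 = true :=
  ⟨(l 3), by decide +kernel⟩

def k41_pm_102_s : ∃ t, chk3 f_pm_102_s t 464 111 1 = true :=
  ⟨(a (b (b (l 3) (a (b (b (l 3) (a (b (l 146733530839) (a (c (l 45264928935) (l 16777232)) (l 134922371239))) (l 3))) (a (b (a (l 16777344) (l 16777296)) (l 16777464)) (b (b (a (a (l 56002347191) (l 120963727495)) (l 126332436055)) (a (l 16777288) (a (l 16777256) (l 53317992631)))) (c (l 16777392) (l 16777352))))) (b (l 3) (b (a (a (b (l 3) (l 130627403959)) (l 3)) (l 3)) (a (a (l 16777304) (b (a (l 50633638087) (l 112373792839)) (l 16777296))) (b (l 142438563575) (a (c (l 16777248) (l 16777240)) (l 126332436679))))))))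 (a (b (b (l 16777632) (l 16777920)) (l 16778352)) (b (b (b (a (l 16777424) (a (l 16777352) (l 16777304))) (l 16777520)) (l 16777736)) (l 16778168)))) (b (l 3) (b (a (b (a (b (b (a (a (l 16777312) (l 107005083735)) (l 117742501415)) (c (l 17884512471) (l 16777264))) (l 16777376)) (a (b (b (l 3) (c (l 118279372903) (l 120963727479))) (l 16777312)) (b (l 151565368935) (b (a (l 16777240) (l 100562632775)) (l 16777296))))) (c (c (l 16777616) (l 16776584)) (l 16776848))) (b (b (l 3) (a (b (c (l 138143596311) (l 122574339479)) (a (l 16777336) (c (l 112910663751) (l 113984405559)))) (l 150491627031))) (b (b (a (l 16777304) (b (l 133311758487) (a (l 16777248) (l 127943049335)))) (c (l 16777344) (l 16777312))) (a (l 16777480) (l 16777384))))) (b (a (l 16777832) (l 16777648)) (l 16778024))))), by decide +kernel⟩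

def k42_pm_102_s : ∃ t, chk3 f_pm_102_s t 465 111 1 = true :=
  ⟨(b (l 3) (b (a (b (l 3) (b (b (l 3) (a (a (a (a (l 93046440055) (l 133311758487)) (l 141901692631)) (l 3)) (l 3))) (a (a (b (a (l 16777280) (a (l 16777248) (l 62444798119))) (l 16777328)) (b (c (l 133848629047) (l 115595017543)) (a (l 16777256) (c (l 103783858263) (l 105931341895))))) (c (l 149417885047) (l 149954755927))))) (l 3)) (a (a (b (b (a (l 16777440) (a (l 16777368) (l 16777320))) (l 16777536)) (l 16777744)) (b (a (b (b (a (c (l 44728058071) (l 16777224)) (l 135459242151)) (l 16777288)) (l 16776736)) (b (b (l 3) (a (c (l 98952020039) (l 101099503687)) (l 127943048791))) (a (l 16777320) (a (l 16777288) (b (l 52781121719) (l 16777304)))))) (b (l 16777488) (l 16777632)))) (a (b (b (l 3) (a (a (b (l 132238016695) (l 16777264)) (b (l 3) (c (l 94120181831) (l 96804536391)))) (l 146196659799))) (b (b (a (l 16777312) (a (l 38822478087) (l 127943049399))) (c (l 16777360) (l 16777320))) (a (l 16777496) (l 16777072))))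 (b (l 3) (a (a (b (b (l 3) (c (l 90362085495) (l 92509569095))) (l 16777328)) (b (l 142975434439) (b (l 33990639879) (l 16777320)))) (b (l 3) (b (c (l 137606725815) (l 109152567303)) (a (l 16777272) (c (l 58149830823) (l 16777296))))))))))), by decide +kernel⟩

def k43_pm_102_s : ∃ t, chk3 f_pm_102_s t 233 111 1 = true :=
  ⟨(b (l 3) (a (a (a (a (b (l 3) (a (b (l 3) (b (l 3) (l 141364821719))) (l 3))) (l 3)) (l 3)) (l 3)) (l 3))), by decide +kernel⟩

def k44_pm_102_s : ∃ t, chk3 f_pm_102_s t 117 55 1 = true :=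
  ⟨(l 3), by decide +kernel⟩

def k45_pm_102_s : ∃ t, chk3 f_pm_102_s t 59 27 1 = true :=
  ⟨(l 3), by decide +kernel⟩

def k46_pm_102_s : ∃ t, chk3 f_pm_102_s t 15 6 1 = true :=
  ⟨(l 3), by decide +kernel⟩

def k47_pm_102_s : ∃ t, chk3 f_pm_102_s t 28 14 1 = true :=
  ⟨(b (a (b (a (b (l 16794344) (l 16797608)) (b (a (l 16790760) (b (a (l 16788240) (l 16787112)) (l 16789160))) (l 16792784))) (a (b (l 16801064) (l 16804704)) (b (l 16796184) (l 16799768)))) (b (b (b (a (a (a (l 16796312) (l 16784928)) (l 16783504)) (a (l 16783056) (a (l 16780512) (a (l 16779912) (l 16779520))))) (a (a (a (l 16787480) (b (l 16785856) (l 16786720))) (a (b (l 16784920) (l 16785512)) (l 16784312))) (a (l 16782984) (c (l 16781856) (l 16780840))))) (a (a (l 16789224) (b (a (l 16786816) (b (l 16785208) (l 16786088))) (l 16787760))) (a (b (a (b (l 16784368) (l 16784936)) (l 16783816)) (a (b (l 16785824) (l 16786544)) (b (l 16795176) (l 16796064)))) (b (l 16782552) (a (b (l 16783920) (l 16789728)) (l 16783408))))))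 (a (b (a (l 16792584) (l 16790280)) (l 16794952)) (b (a (l 16788096) (b (a (b (c (l 16786336) (l 16784472)) (l 16786096)) (b (l 16789544) (a (l 16785392) (l 16784856)))) (l 16786840))) (a (l 16791560) (l 16789432)))))) (b (a (a (b (l 16808520) (l 16833088)) (l 16805496)) (a (b (l 16798648) (l 16802504)) (b (a (l 16795192) (l 16793008)) (a (l 16798960) (l 16796696))))) (a (b (a (b (l 16815480) (l 16816808)) (b (l 16810280) (l 16833368))) (a (l 16818952) (l 16814584))) (a (b (l 16806480) (b (a (l 16810672) (l 16807992)) (l 16811128))) (b (l 16801616) (b (l 16804512) (a (l 16807536) (l 16805192)))))))), by decide +kernel⟩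

def k48_pm_102_s : ∃ t, chk3 f_pm_102_s t 232 112 1 = true :=
  ⟨(b (b (a (c (l 16778848) (l 16778472)) (b (a (l 16777936) (a (l 16777656) (b (a (l 16777448) (a (l 16777376) (l 16777336))) (l 16777544)))) (c (l 16777504) (l 16777936)))) (a (l 16779232) (c (l 16778648) (l 16778312)))) (c (a (l 16780528) (c (l 16779808) (l 16779496))) (a (l 16779776) (l 16779088)))), by decide +kernel⟩

def k49_pm_102_s : ∃ t, chk3 f_pm_102_s t 233 224 1 = true :=
  ⟨(b (a (a (a (a (b (b (b (a (l 16777248) (l 118279372935)) (l 16777296)) (l 16776912)) (l 16777616)) (b (b (b (l 151565368999) (a (c (l 54391734455) (l 16777216)) (l 111300050407))) (c (l 16777328) (l 16777296))) (l 16777528))) (b (b (l 3) (a (b (a (l 115058147479) (l 146733530871)) (a (l 16777280) (a (l 16777240) (l 94657052791)))) (b (l 3) (l 135996112679)))) (b (b (a (l 16777328) (a (l 16777256) (l 110226309239))) (c (l 16777368) (l 16777336))) (c (l 16777496) (l 16777424))))) (b (l 3) (a (b (b (l 149954756087) (a (a (c (l 46875541703)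 (l 16777224)) (l 138680467607)) (l 3))) (a (c (l 16777336) (l 16777304)) (b (a (l 105394470999) (l 134922370711)) (a (l 16777288) (l 46875541783))))) (a (b (l 3) (a (b (l 3) (l 134922371223)) (l 3))) (l 3))))) (l 3)) (a (a (b (a (l 16777856) (l 16777672)) (l 16778056)) (a (b (b (a (l 16777464) (a (l 16777392) (l 16777344))) (l 16777560)) (l 16777768)) (a (b (b (a (l 16777296) (b (l 102173245559) (l 16777288))) (l 16777416)) (l 16777632)) (b (b (b (l 145122918103) (a (l 42043703511) (l 132238016679))) (a (l 16777352) (l 16777304))) (l 16777536))))) (b (b (l 3) (a (a (a (b (a (l 98952020119) (l 125795565143)) (c (l 16777352) (l 16777256))) (b (l 3) (l 144049176823))) (l 3)) (l 3))) (b (a (b (a (a (l 16777336) (a (l 16777272) (c (l 93046440055) (l 94657052743)))) (l 146196659751)) (a (c (l 16777384) (l 16777344)) (a (a (l 16777240) (l 126332436679)) (l 3)))) (l 3)) (a (a (c (l 16777504) (l 16777440)) (a (l 16777328) (b (a (l 60834185383) (l 118279372327)) (c (l 16777280) (l 16777264)))))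 (b (l 3) (a (a (l 139754209543) (l 3)) (l 3)))))))), by decide +kernel⟩

def k50_pm_102_s : ∃ t, chk3 f_pm_102_s t 233 225 1 = true :=
  ⟨(a (a (b (l 16778488) (l 16779072)) (b (b (l 16777968) (l 16778256)) (l 16778696))) (b (b (b (a (a (l 16777616) (a (l 16777472) (l 16777376))) (a (a (b (a (l 16777272) (l 57612959911)) (l 16777320)) (b (l 139217338119) (a (l 16777248) (l 118279372935)))) (l 153712852295))) (a (l 16777664) (a (a (l 16777432) (l 16777336)) (a (b (a (l 54928605367) (l 112910663175)) (l 16777280)) (b (l 3) (c (l 132774887607) (l 103246987175))))))) (a (l 16777880) (a (c (l 16777656) (l 16777544)) (a (b (l 16777384) (l 16777528)) (b (b (a (l 16777280) (l 53317992711)) (l 16777328)) (l 16777432)))))) (c (a (l 16778472) (l 16778040)) (a (l 16778176) (l 16777840))))), by decide +kernel⟩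

def k51_pm_102_s : ∃ t, chk3 f_pm_102_s t 116 113 1 = true :=
  ⟨(a (c (b (a (l 16781896) (l 16781016)) (l 16782864)) (b (l 16780496) (l 16781600))) (b (c (a (l 16780144) (c (l 16778096) (l 16779136))) (a (l 16779456) (c (l 16778896) (l 16778680)))) (c (a (l 16781536) (l 16780648)) (a (l 16780544) (l 16779856))))), by decide +kernel⟩

def k52_pm_102_s : ∃ t, chk3 f_pm_102_s t 117 112 1 = true :=
  ⟨(a (a (b (l 3) (a (a (b (b (l 3) (a (b (b (l 120426856471) (a (l 16777256) (l 111300051063))) (l 16777344)) (b (l 151028497959) (b (a (l 50633638167) (l 139217338503)) (l 16777280))))) (b (b (a (l 16777488) (l 16777392)) (l 16777584)) (l 16777800))) (b (a (b (l 3) (b (l 3) (b (l 3) (c (l 127406178455) (l 129553662103))))) (l 3)) (b (b (a (a (l 16777320) (b (l 47412412695) (l 16777312))) (b (c (l 114521275735) (l 117742501271)) (a (l 16777264) (l 104320729175)))) (a (l 16777440) (l 16777344))) (l 16777608)))) (b (l 3) (a (b (b (l 149954755943) (a (b (a (l 16777392) (l 134922371239)) (l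 16777288)) (a (c (l 131164274903) (l 133848629479)) (l 146196659879)))) (b (a (l 16777392) (a (l 16777328) (b (l 16777232) (l 16777312)))) (l 16777496))) (b (l 3) (a (b (b (c (l 112373792103) (l 112373792087)) (a (l 16777264) (l 99488891031))) (l 16777352)) (b (l 146733530695) (b (a (l 16777240) (l 130627403959)) (l 16777296))))))))) (a (a (a (b (l 3) (b (l 3) (b (l 3) (a (b (l 3) (c (l 127406178487) (l 130090533079))) (l 147807272327))))) (l 3)) (l 3)) (l 3))) (l 3)), by decide +kernel⟩

def k53_pm_102_s : ∃ t, chk3 f_pm_102_s t 234 113 1 = true :=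
  ⟨(b (a (b (b (a (l 16778000) (b (a (l 16777640) (a (l 16777496) (l 16777400))) (l 16777688))) (c (l 16778224) (l 16777984))) (c (l 16778736) (l 16778376))) (a (b (b (a (a (b (b (l 16777352) (l 16777344)) (l 16777448)) (b (b (l 142438564087) (c (l 42580574519) (l 44728058135))) (l 16777360))) (b (l 147270401431) (a (b (a (l 16777240) (l 125795565767)) (l 16777296)) (b (l 3) (c (l 115595018375) (l 118279372951)))))) (a (l 16777624) (b (c (a (l 16777432) (l 16777320)) (l 16777336)) (l 16777504)))) (c (l 16778080) (l 16777872))) (b (b (l 3) (a (a (b (b (l 139217338631) (c (l 38822478135) (l 40433090807))) (l 16777360)) (b (l 143512305271) (b (a (l 16777248) (l 119889985703)) (l 16777304)))) (a (a (b (l 3) (c (l 120963727543) (l 123111211175))) (l 145659788711)) (l 3)))) (a (b (b (c (l 16776840) (l 16777424)) (l 16777608)) (l 16777832)) (b (a (b (l 16777312) (l 16777464)) (b (b (l 136532984087) (c (l 16777336) (l 16777240))) (l 16777368))) (l 16777632)))))) (a (b (c (l 16779424) (l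 16778904)) (l 16779768)) (a (b (l 16778568) (l 16779184)) (b (a (l 16778280) (l 16778080)) (l 16778792))))), by decide +kernel⟩

def k54_pm_102_s : ∃ t, chk3 f_pm_102_s t 235 113 1 = true :=
  ⟨(b (b (l 3) (a (b (a (a (a (b (l 141364821623) (b (c (l 56002347271) (l 57076089031)) (l 16777304))) (b (l 3) (a (c (l 118279372999) (l 120426856631)) (l 137606725351)))) (l 3)) (l 3)) (b (a (a (a (l 16777416) (l 16777320)) (a (b (l 133311758599) (l 35064381767)) (l 139754208903))) (l 3)) (a (a (l 16777512) (a (l 16777368) (b (c (l 53317992711) (l 54928605399)) (l 16777312)))) (b (l 152102239335) (a (a (c (l 104320729175) (l 106468212807)) (l 3)) (l 3)))))) (l 3))) (a (a (b (b (a (l 16777736) (b (c (l 16776848) (l 16777440)) (l 16777616))) (l 16777944)) (c (l 16778560) (l 16778248))) (b (b (b (a (a (l 16777320) (b (l 129553662183) (l 31843156295))) (c (l 141901692375) (l 143512305095))) (b (a (l 16777384) (a (c (l 50633638167) (l 52244250839)) (l 146733530839))) (a (l 16777464) (a (l 16777312)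 (c (l 101099503703) (l 103783858247)))))) (a (l 16777648) (b (c (l 16777400) (l 16777352)) (l 16777528)))) (c (l 16778112) (l 16777904)))) (a (a (b (b (l 3) (b (a (b (l 127406178551) (l 28621930839)) (l 137606725287)) (a (l 16777376) (b (c (l 48486154535) (l 50096767207)) (l 16777320))))) (b (a (l 16777608) (b (l 16777432) (l 16777584))) (l 16777856))) (b (b (l 3) (b (l 3) (a (b (l 144586047191) (c (l 99488890999) (l 100562632759))) (l 3)))) (b (b (a (l 16777328) (b (l 124184953047) (l 16777424))) (a (l 16777480) (l 16777384))) (l 16777664)))) (b (l 3) (b (a (a (b (l 136532984135) (b (c (l 46338670887) (l 47949283559)) (l 16777320))) (b (l 3) (b (l 135996112455) (c (l 97341407383) (l 98952020071))))) (l 3)) (a (b (c (l 16777408) (l 16777360)) (l 16777536)) (a (b (b (l 121500598455) (l 16777264)) (l 16777384)) (b (c (l 134922370759) (l 135996112567)) (b (c (l 44191187255) (l 46338670823)) (l 16777320)))))))))), by decide +kernel⟩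

def k55_pm_102_s : ∃ t, chk3 f_pm_102_s t 58 57 1 = true :=
  ⟨(a (b (a (b (a (b (l 16783560) (l 16784152)) (l 16783088)) (a (a (l 16793544) (b (a (l 16784824) (l 16784552)) (l 16785504))) (b (l 16784032) (a (l 16785088) (a (l 16784672) (l 16784416)))))) (a (b (l 16782288) (a (l 16783800) (l 16783424))) (b (l 16781504) (l 16782824)))) (a (c (l 16788552) (l 16786352)) (b (a (b (a (a (l 16785064) (l 16784816)) (a (l 16795024) (l 16784304))) (l 16785520)) (b (l 16783856) (a (a (l 16784960) (l 16795184)) (a (l 16789672) (l 16784224))))) (a (l 16786776) (l 16785880))))) (b (a (b (c (a (l 16781192) (l 16780296)) (a (l 16780288) (l 16779600))) (a (l 16782032) (a (l 16781440) (l 16781040)))) (b (b (a (c (l 16779040) (l 16778624)) (b (a (l 16778072) (a (l 16777768) (a (l 16777616) (b (l 16777440) (l 16777592))))) (c (l 16778312) (l 16778064)))) (a (c (l 16779760) (l 16779184)) (c (l 16778848) (l 16778480)))) (a (c (l 16780864) (l 16780056)) (b (a (l 16779504) (l 16779096)) (l 16779968)))))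 (a (b (c (l 16783744) (l 16782352)) (a (b (a (a (l 16784864) (l 16789840)) (a (l 16794832) (l 16784176))) (l 16785392)) (b (l 16783688) (a (b (l 16784408) (l 16784888)) (l 16789424))))) (b (c (a (l 16782384) (l 16781464)) (a (l 16781288) (l 16780568))) (c (l 16783520) (l 16782240)))))), by decide +kernel⟩

def k56_pm_102_s : ∃ t, chk3 f_pm_102_s t 59 56 1 = true :=
  ⟨(a (b (l 3) (a (b (l 3) (b (l 3) (b (l 3) (a (b (l 3) (a (a (a (b (l 134385499719) (c (l 95193923735) (l 96804536423))) (l 3)) (l 3)) (l 3))) (l 3))))) (l 3))) (l 3)), by decide +kernel⟩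

def k57_pm_102_s : ∃ t, chk3 f_pm_102_s t 118 228 1 = true :=
  ⟨(a (a (a (b (a (b (a (b (l 16777336) (l 16777488)) (b (b (c (l 118279372967) (l 120963727543)) (l 16777272)) (l 16777392))) (l 16777672)) (b (a (b (c (l 134385499863) (l 134922370743)) (b (c (l 42580574519) (l 44728058103)) (l 16777328))) (b (l 3) (b (l 130627403271) (a (l 16777248) (l 124721823895))))) (b (c (l 16777416) (l 16777368)) (l 16777544)))) (c (l 16778152) (l 16777944))) (b (b (l 3) (a (a (b (b (c (l 116668760231) (l 119889985735)) (l 16777272)) (l 16777392)) (b (c (l 133311758039) (l 133848628935)) (b (c (l 40969961783) (l 43117445367)) (l 16777328)))) (a (b (l 3) (b (l 129016790535) (a (l 16777248) (l 123111211175)))) (l 3)))) (a (b (a (l 16777632) (b (l 16777448) (l 16777600))) (l 16777896)) (b (a (b (l 16777344) (l 16777504)) (b (b (c (l 114521276551) (l 117205631127)) (l 16777280)) (l 16777400))) (l 16777688))))) (b (l 3) (b (a (a (a (b (c (l 132238016215) (l 133311758679)) (b (c (l 39359349015) (l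 42043703543)) (l 16777328))) (b (l 3) (b (l 127943048711) (a (l 16777248) (l 121500598439))))) (l 3)) (l 3)) (b (a (a (c (l 16777424) (l 16777376)) (a (b (c (l 113447534727) (l 116668760231)) (l 16777280)) (c (l 132238016231) (c (l 132774887127) (l 132774887111))))) (l 3)) (a (a (l 16777560) (a (l 16777400) (b (c (l 16777352) (l 41506832647)) (l 16777336)))) (a (a (b (l 127406177815) (a (l 16777248) (l 120426856615))) (l 3)) (l 3))))))) (l 3)), by decide +kernel⟩

def k58_pm_102_s : ∃ t, chk3 f_pm_102_s t 118 229 1 = true :=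
  ⟨(b (a (a (a (l 16778688) (a (l 16778376) (l 16778168))) (a (b (a (l 16777800) (a (l 16777640) (b (l 16777456) (l 16777616)))) (l 16778016)) (a (b (a (b (l 16777352) (l 16777512)) (b (b (c (l 112910663815) (l 115595018407)) (l 16777280)) (l 16777400))) (l 16777696)) (b (a (b (a (b (l 3) (l 119889985703)) (l 154249723495)) (b (c (l 16777336) (l 41506832647)) (l 16777336))) (b (l 3) (b (l 126869306903) (a (l 16777256) (l 119353114791))))) (b (c (l 16777432) (l 16777384)) (l 16777568)))))) (a (a (a (b (l 154249722887) (a (b (b (a (l 57612959927) (l 117742501495)) (l 16777280)) (l 16777408)) (b (a (b (l 3) (l 119353114791)) (l 154249723511)) (b (c (l 16777336) (l 40969961703)) (l 16777336))))) (b (l 3) (a (b (l 3) (b (l 126332435991) (a (l 16777256) (l 118816243879)))) (l 154249723095)))) (l 3)) (l 3))) (a (a (c (l 16779384) (l 16778920)) (c (a (l 16778672) (l 16778192)) (a (l 16778368) (l 16777984)))) (b (a (a (a (a (l 16777648) (b (l 16777464) (l 16777624))) (a (b (l 16777352) (l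 16777520)) (b (b (a (l 57612959927) (l 117742501495)) (l 16777280)) (l 16777408)))) (a (a (b (a (b (l 3) (l 118816243879)) (l 154249723511)) (b (a (l 16777288) (l 57612959927)) (l 16777344))) (b (l 3) (b (l 135996112647) (a (l 16777256) (l 118816243879))))) (l 154249722887))) (l 3)) (b (a (a (l 16777736) (a (c (l 16777432) (l 16777392)) (a (b (a (l 58149830839) (l 118279372423)) (l 16777288)) (a (b (l 3) (l 118816243879)) (l 154249723511))))) (l 3)) (a (a (l 16777904) (a (l 16777576) (a (l 16777408) (b (a (l 16777288) (l 58149830839)) (l 16777344))))) (a (a (a (b (l 135996112647) (a (l 16777256) (l 118816243879))) (l 154249723399)) (l 3)) (l 3))))))), by decide +kernel⟩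

def k59_pm_102_s : ∃ t, chk3 f_pm_102_s t 118 115 1 = true :=
  ⟨(a (b (b (c (a (l 16780144) (l 16779184)) (a (l 16779528) (l 16778784))) (a (l 16780520) (a (l 16779880) (l 16779456)))) (c (a (l 16782112) (l 16781160)) (a (l 16781144) (l 16780392)))) (b (a (b (b (a (l 16778160) (a (l 16777832) (a (l 16777664) (b (l 16777464) (l 16777640))))) (c (l 16778408) (l 16777512))) (c (l 16778984) (c (l 16778712) (l 16778560)))) (a (b (a (b (a (b (l 16777360) (l 16777528)) (b (b (a (l 58686701751) (l 117205630583)) (l 16777288)) (l 16777416))) (l 16777728)) (b (a (b (a (b (l 3) (l 118816243879)) (l 154249723511)) (b (a (l 16777288) (l 59223572663)) (l 16777344))) (b (l 3) (b (l 135996112647) (a (l 16777256) (l 119353114791))))) (b (c (l 16777440) (l 16777392)) (l 16777584)))) (c (l 16778232) (l 16777384))) (b (a (a (b (l 154249723095) (b (b (a (l 59760443575) (l 117205630583)) (l 17884512567)) (l 16777416))) (b (l 3) (b (b (l 3) (a (l 119889985703) (l 113447533767))) (b (a (l 16777288) (l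 60834185399)) (l 16777344))))) (a (b (l 3) (b (l 3) (b (l 137069854471) (a (l 16777256) (l 120963727527))))) (l 3))) (a (b (a (l 16777672) (b (l 16777472) (l 16777648))) (l 16777968)) (b (a (b (l 16777360) (l 16777536)) (b (b (a (l 61907927223) (l 118816243319)) (l 20568867127)) (l 16777416))) (l 16777736)))))) (a (b (c (l 16779776) (l 16779280)) (l 16780256)) (a (b (l 16778840) (l 16779576)) (b (a (l 16778504) (l 16778272)) (l 16779120)))))), by decide +kernel⟩

def k60_pm_102_s : ∃ t, chk3 f_pm_102_s t 119 114 1 = true :=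
  ⟨(l 3), by decide +kernel⟩

def k61_pm_102_s : ∃ t, chk3 f_pm_102_s t 238 230 1 = true :=
  ⟨(a (b (l 3) (b (a (a (a (b (a (b (l 3) (l 122574340295)) (l 3)) (b (a (l 16777288) (l 62444798119)) (l 16777344))) (b (l 3) (b (l 137606725383) (a (l 16777256) (l 123111211207))))) (l 3)) (l 3)) (b (a (a (c (l 16777440) (l 16777400)) (a (b (a (l 63518539943) (l 119353114231)) (c (l 16777296) (l 16777280))) (a (b (l 3) (l 124184953031)) (l 3)))) (l 3)) (a (a (l 16777592) (a (l 16777416) (b (a (l 16777288) (l 63518539911)) (l 16777344)))) (a (a (b (l 137606725367) (a (l 16777256) (l 124721823943))) (l 3)) (l 3)))))) (l 3)), by decide +kernel⟩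

def k62_pm_102_s : ∃ t, chk3 f_pm_102_s t 238 231 1 = true :=
  ⟨(b (a (a (b (a (l 16777856) (a (l 16777688) (b (l 16777480) (l 16777656)))) (l 16778104)) (a (b (a (b (l 16777360) (l 16777536)) (b (b (a (l 64592281735) (l 124184952503)) (c (l 16777288) (l 16777280))) (l 16777416))) (l 16777752)) (b (a (b (a (b (l 3) (l 125795565767)) (l 3)) (b (a (l 16777288) (l 64592281687)) (l 16777344))) (b (l 3) (b (l 138680467191) (a (l 16777248) (l 126869307591))))) (b (a (l 16777480) (l 16777360)) (l 16777600))))) (a (b (l 3) (a (a (b (b (a (l 65666023511) (l 125258694327)) (c (l 16777288) (l 16777272))) (l 16777424)) (b (a (b (l 3) (l 126869307575)) (l 3)) (b (a (l 16777288) (l 95730794583)) (l 16777344)))) (a (b (l 3) (b (l 140291079927) (a (l 16777248) (l 127943049399)))) (l 3)))) (l 3))) (a (a (l 16778656) (c (l 16778280) (l 16777440))) (a (b (a (b (l 16777048) (l 16777728)) (a (b (l 16777360) (l 16777544)) (b (b (a (l 96804536391) (l 129016790743)) (c (l 16777288) (l 16777272))) (l 16777424))))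 (c (l 16777952) (l 16777824))) (a (b (a (b (a (b (l 3) (l 129553662135)) (l 3)) (b (a (l 16777280) (l 98415149127)) (l 16777344))) (b (l 3) (b (l 140827950823) (a (l 16777328) (l 129553662119))))) (b (a (l 16777480) (l 16777360)) (l 16777608))) (b (l 3) (a (b (b (a (l 101099503735) (l 133311758071)) (c (l 16777288) (l 16777272))) (l 16777424)) (b (a (b (l 3) (l 100562632871)) (l 3)) (a (l 16777328) (b (l 103783858327) (l 16777312)))))))))), by decide +kernel⟩

def k63_pm_102_s : ∃ t, chk3 f_pm_102_s t 239 115 1 = true :=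
  ⟨(b (l 3) (b (l 3) (b (l 3) (b (l 3) (a (a (a (a (b (l 142438563543) (a (l 46875541655) (l 101636374039))) (l 3)) (l 3)) (l 3)) (l 3)))))), by decide +kernel⟩

def k64_pm_102_s : ∃ t, chk3 f_pm_102_s t 58 29 1 = true :=
  ⟨(b (a (b (a (l 16790912) (l 16788912)) (a (l 16794536) (l 16792480))) (b (a (b (a (l 16786608) (b (c (l 16791504) (l 16784512)) (l 16786112))) (l 16787872)) (b (a (a (b (a (l 16789960) (l 16789696)) (l 16785440)) (b (l 16784144) (c (l 16785920) (l 16784280)))) (a (b (l 16783784) (a (l 16789912) (l 16784416))) (l 16783744))) (a (l 16786504) (a (l 16785840) (a (l 16790824) (b (l 16784896) (l 16785720))))))) (a (l 16790520) (l 16788664)))) (a (b (l 16797176) (l 16800928)) (b (a (l 16794120) (l 16792200)) (a (l 16797776) (l 16795792))))), by decide +kernel⟩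

def k65_pm_102_s : ∃ t, chk3 f_pm_102_s t 118 58 1 = true :=
  ⟨(b (a (b (a (l 16783136) (l 16782280)) (a (a (b (a (l 16789872) (l 16784400)) (l 16785416)) (b (l 16784128) (c (l 16791024) (l 16784296)))) (a (a (b (l 16783808) (l 16784608)) (l 16783968)) (l 16783688)))) (a (b (c (l 16781840) (l 16781008)) (l 16783032)) (b (c (l 16780832) (l 16780200)) (l 16782120)))) (a (b (a (l 16786464) (a (l 16785880) (b (a (l 16785112) (l 16784848)) (l 16785824)))) (l 16787752)) (b (a (a (b (l 16784480) (l 16785464)) (b (l 16784096) (l 16790216))) (b (l 16783416) (l 16789488))) (a (l 16786472) (b (a (l 16785488) (l 16795456)) (l 16786072)))))), by decide +kernel⟩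

def k66_pm_102_s : ∃ t, chk3 f_pm_102_s t 238 116 1 = true :=
  ⟨(b (b (b (a (l 16778984) (a (l 16778264) (a (l 16777888) (b (l 16776896) (l 16777736))))) (a (l 16779368) (c (l 16778512) (l 16777640)))) (a (l 16779960) (c (l 16779152) (l 16777528)))) (a (c (l 16781544) (l 16780864)) (b (l 16779792) (l 16780632)))), by decide +kernel⟩

def k67_pm_102_s : ∃ t, chk3 f_pm_102_s t 239 232 1 = true :=
  ⟨(a (b (a (a (b (a (b (l 16777360) (l 16777552)) (b (b (a (l 105394471063) (l 137606725399)) (c (l 16777280) (l 35064381639))) (l 16777424))) (l 16777776)) (b (b (a (c (l 134385499815) (c (l 135459241623) (l 136532983447))) (l 3)) (a (b (a (l 16777280) (l 108078825639)) (l 16777344)) (b (l 145122918103) (a (l 51707379895) (l 104857599543))))) (c (l 16777544) (c (l 16777504) (l 16777480))))) (b (l 3) (b (a (a (b (a (l 109689438375) (l 142975434551)) (c (l 16777280) (l 38285607095))) (c (l 135996112551) (c (l 137069854359) (l 137606725255)))) (l 3)) (b (a (a (l 16777376) (a (l 16777272)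 (l 111300051111))) (l 151565368823)) (a (l 16777408) (a (a (l 54928605319) (l 108078825031)) (l 3))))))) (a (c (l 16778320) (l 16777496)) (b (a (a (l 16777712) (l 16776928)) (a (c (l 16777472) (l 16777104)) (b (b (a (l 114521276615) (l 111836921063)) (c (l 16777272) (l 42580574391))) (l 16777424)))) (a (l 16778048) (l 16777784))))) (b (l 3) (b (a (a (b (a (c (l 137069854359) (l 138143596151)) (l 3)) (a (a (l 16777320) (b (l 116131889335) (l 16777304))) (a (b (l 111836921047) (l 59223572599)) (l 135459241703)))) (l 3)) (l 3)) (a (a (c (l 16777544) (c (l 16777504) (l 16777160))) (a (b (b (a (l 119889985767) (l 112373791959)) (a (l 16777304) (l 61371056247))) (l 16777424)) (b (c (l 138680467079) (l 139754208871)) (a (l 21642608935) (b (l 121500598487) (l 16777304)))))) (a (b (l 3) (b (l 154786594263) (a (a (l 63518539879) (l 117742501543)) (l 3)))) (l 3)))))), by decide +kernel⟩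

def k68_pm_102_s : ∃ t, chk3 f_pm_102_s t 239 233 1 = true :=
  ⟨(a (a (b (l 16779040) (l 16779880)) (b (a (l 16778656) (l 16778392)) (l 16779360))) (a (b (b (a (l 16777920) (a (l 16777720) (l 16777592))) (l 16778200)) (l 16778832)) (b (a (b (b (a (b (l 27011318023) (l 16777400)) (b (a (l 122574340311) (l 3)) (a (l 16777304) (l 66202894439)))) (l 16777488)) (l 16777136)) (b (b (a (l 139754208871) (l 3)) (a (b (a (l 16777264) (l 124184953031)) (l 16777336)) (a (b (l 3) (l 68350378071)) (l 138143596231)))) (c (l 16777216) (c (l 16777184) (b (l 16777072) (l 16777584)))))) (a (l 16778424) (b (l 16777936) (l 16778360)))))), by decide +kernel⟩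

def k69_pm_102_s : ∃ t, chk3 f_pm_102_s t 119 117 1 = true :=
  ⟨(a (a (b (l 16782920) (b (l 16784264) (a (l 16785512) (l 16784976)))) (b (l 16781952) (l 16783816))) (b (a (c (l 16781208) (l 16780688)) (b (a (l 16779696) (l 16779152)) (l 16780328))) (a (l 16782808) (b (l 16781264) (l 16782232))))), by decide +kernel⟩

def k70_pm_102_s : ∃ t, chk3 f_pm_102_s t 59 59 1 = true :=
  ⟨(a (b (a (l 16790368) (l 16788624)) (a (l 16793888) (l 16792072))) (b (b (a (a (l 16786544) (b (a (l 16785536) (l 16785000)) (l 16786208))) (a (b (l 16784304) (a (l 16785568) (l 16785008))) (l 16783656))) (a (l 16787808) (a (b (l 16786208) (l 16786856)) (b (a (l 16785328) (l 16784656)) (l 16791104))))) (a (b (l 16789416) (l 16790976)) (b (l 16787384) (l 16788856))))), by decide +kernel⟩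

def k71_pm_102_s : ∃ t, chk3 f_pm_102_s t 30 28 1 = true :=
  ⟨(l 3), by decide +kernel⟩

def k72_pm_102_s : ∃ t, chk3 f_pm_102_s t 120 116 1 = true :=
  ⟨(a (b (l 3) (b (a (a (b (l 3) (a (a (b (b (a (l 107005083431) (l 3)) (a (l 16777296) (l 72108474503))) (l 16777416)) (b (l 143512305239) (b (a (l 16777256) (l 96804535847)) (l 16777328)))) (a (a (b (l 3) (b (l 3) (l 102173245607))) (l 148344143239)) (l 3)))) (l 3)) (l 3)) (a (a (b (b (a (l 16777552) (a (b (l 37748736279) (l 16777400)) (b (c (l 112910663175) (l 116668759639)) (c (l 16777248) (l 58686701671))))) (c (l 16777656) (l 16777600))) (c (l 16778000) (l 16777896))) (a (b (b (l 149417885047) (a (b (a (l 16777248) (l 103246986855)) (l 16777328)) (a (b (l 3) (l 108615696583)) (l 146196659879)))) (a (l 16777592) (b (b (l 43117445383) (l 16777392)) (l 16777552)))) (b (l 3) (a (b (b (c (l 118279372359) (l 118816243255)) (c (l 16777240) (l 63518539895))) (l 16777408)) (b (l 149954756135) (b (a (l 16777240) (l 110226308775)) (l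 16777320))))))) (a (a (a (b (l 3) (b (l 3) (a (b (l 3) (l 116131889399)) (l 149954756231)))) (l 3)) (l 3)) (l 3))))) (l 3)), by decide +kernel⟩

def k73_pm_102_s : ∃ t, chk3 f_pm_102_s t 240 117 1 = true :=
  ⟨(b (b (a (a (a (l 16778736) (l 16778456)) (a (l 16777192) (b (l 16777664) (l 16778104)))) (a (a (b (b (a (c (l 16777344) (c (l 16777328) (l 35064381575))) (b (l 124184952439) (a (l 16777280) (l 118279373031)))) (l 16777480)) (l 16777816)) (b (b (l 153712852295) (a (b (a (l 64592281719) (l 115595017911)) (l 16777312)) (a (b (l 3) (l 120426856663)) (l 154249723511)))) (a (l 16777592) (b (a (l 16777368) (b (l 67813507191) (l 16777352))) (l 16777552))))) (b (l 3) (a (a (b (b (l 133848628999) (c (l 71571603607) (l 75329700055))) (l 16777400)) (b (l 155860336135) (b (a (l 71571603607) (l 122574339815)) (l 16777304)))) (a (a (b (l 3) (b (l 3) (l 93583310391))) (l 3)) (l 3)))))) (a (a (l 16779496) (b (l 16778696) (l 16779152))) (b (a (c (l 16778160) (l 16778064)) (a (l 16777656) (b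 (a (c (l 16777320) (c (l 16777312) (l 42043703399))) (b (l 137069854455) (c (l 100562632871) (l 104857600231)))) (l 16777464)))) (a (l 16778552) (l 16777944))))) (b (a (a (l 16780432) (l 16779832)) (c (l 16779024) (l 16777512))) (a (l 16781040) (l 16779800)))), by decide +kernel⟩

def k74_pm_102_s : ∃ t, chk3 f_pm_102_s t 241 117 1 = true :=
  ⟨(b (b (l 3) (a (a (a (b (b (l 3) (a (b (a (l 102173245607) (l 132238016295)) (l 16777296)) (c (l 131701145271) (l 132774887079)))) (a (l 16777576) (b (a (l 16777352) (b (l 106468212935) (l 16777328))) (l 16777536)))) (b (l 3) (a (b (b (l 141901692631) (a (l 16777248) (l 102710115943))) (l 16777384)) (b (l 3) (b (a (l 109689438407) (l 108078824663)) (l 44191187175)))))) (a (a (b (l 3) (b (l 3) (l 134385499799))) (l 3)) (l 3))) (l 3))) (a (a (b (c (b (l 16777824) (l 16778288)) (l 16777304)) (l 16778880)) (b (a (b (a (b (a (l 16777336) (b (l 112910663879) (l 16777320))) (l 16777520)) (b (b (l 147807272631) (a (l 16777240) (l 110226308759))) (l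 16777376))) (l 16777776)) (b (b (l 3) (a (b (c (l 102710115831) (l 102710116471)) (l 48486154439)) (l 137069854327))) (a (l 16777552) (b (a (l 16777328) (b (l 119889985751) (l 16777312))) (l 16777512))))) (c (l 16777040) (l 16778216)))) (a (b (b (l 3) (a (a (b (b (l 154249723559) (a (l 16777272) (l 118816243399))) (l 16777360)) (b (l 3) (b (c (l 105394470359) (l 108615695895)) (l 53854863575)))) (b (l 3) (l 145659788679)))) (b (a (l 16777616) (b (a (a (l 16777320) (b (l 96267664983) (l 16777304))) (b (l 3) (l 124721824087))) (c (l 16777440) (l 16777248)))) (c (l 16777944) (l 16777856)))) (b (l 3) (a (a (b (b (l 3) (b (l 112373792263) (c (l 16777256) (l 57612959847)))) (l 16777528)) (b (l 149954755847) (b (a (l 34527510791) (b (l 102710115943) (l 16777288))) (l 16777488)))) (b (l 3) (a (b (a (b (l 3) (l 108615696583)) (l 146733530775)) (c (l 16777344) (l 16777328))) (b (l 3) (b (l 119353114167) (c (l 16777240) (l 62444798023))))))))))), by decide +kernel⟩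

def k75_pm_102_s : ∃ t, chk3 f_pm_102_s t 121 58 1 = true :=
  ⟨(b (l 3) (a (b (l 3) (a (a (a (b (l 3) (b (l 3) (l 153175981735))) (l 3)) (l 3)) (l 3))) (l 3))), by decide +kernel⟩

def k76_pm_102_s : ∃ t, chk3 f_pm_102_s t 120 59 1 = true :=
  ⟨(b (a (a (b (l 16782392) (a (b (l 16784064) (l 16784912)) (l 16783824))) (b (l 16781128) (l 16782912))) (a (b (c (l 16777464) (b (l 16779320) (l 16780144))) (l 16781664)) (b (b (b (a (l 16778336) (a (l 16777888) (l 16777424))) (c (l 16778560) (l 16777080))) (c (l 16779264) (l 16779000))) (c (l 16780672) (l 16780224))))) (a (b (a (a (l 16786048) (b (l 16790440) (l 16785880))) (a (b (l 16789760) (l 16785352)) (b (l 16783936) (c (l 16790592) (l 16789584))))) (l 16786720)) (b (a (a (b (l 16783304) (l 16789376)) (l 16783128)) (l 16782200)) (a (a (l 16785424) (b (a (l 16784616) (l 16784280)) (l 16785208))) (a (b (l 16789024) (l 16784720)) (b (l 16783216) (a (l 16788192) (l 16789160)))))))), by decide +kernel⟩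

def k77_pm_102_s : ∃ t, chk3 f_pm_102_s t 242 236 1 = true :=
  ⟨(b (a (a (a (b (a (b (b (c (l 111300051191) (l 85530247223)) (l 16777312)) (l 16777480)) (b (c (l 126332436215) (b (l 3) (l 103246986727))) (c (l 16777336) (l 33990639863)))) (l 16777728)) (a (b (b (l 3) (b (l 129016790711) (c (l 16777224) (l 69424119943)))) (l 16777504)) (b (l 155323464903) (b (b (l 119889985863) (l 16777304)) (l 16777464))))) (b (l 3) (a (a (b (c (l 129016790743) (l 130090532535)) (c (l 16777320) (a (l 16777344) (l 47412412567)))) (b (l 3) (b (l 137606725351) (c (l 99488891047) (l 102173245623))))) (l 3)))) (l 3)) (a (a (a (l 16778376) (b (l 16777864) (l 16778296))) (a (b (a (l 16777640) (l 16777496)) (l 16778000)) (a (b (b (b (l 125795565895) (l 16777288)) (l 16777456)) (l 16777776)) (b (b (l 132774887079) (a (l 16777344) (b (l 108078825671) (l 16777320)))) (l 16777624))))) (a (a (b (b (l 3) (a (b (l 145122918087) (c (l 106468212935) (l 110226309351))) (l 3))) (b (a (l 16777376) (b (c (l 98415148455)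 (l 101636374647)) (l 43654316231))) (l 16777512))) (b (l 3) (a (b (l 135996112503) (a (l 16777328) (b (l 117742502103) (l 16777312)))) (a (b (l 3) (b (l 108078824567) (l 16777224))) (l 143512305047))))) (l 3)))), by decide +kernel⟩

def k78_pm_102_s : ∃ t, chk3 f_pm_102_s t 242 237 1 = true :=
  ⟨(a (b (c (l 16777600) (c (l 16778736) (l 16778640))) (c (l 16779848) (l 16779496))) (a (b (b (a (l 16777832) (a (l 16777616) (b (l 16777360) (l 16777576)))) (l 16777464)) (l 16778768)) (b (a (a (b (b (b (c (l 104857599447) (l 107005083127)) (c (l 16777264) (l 49559896183))) (l 16777424)) (l 16777752)) (b (b (l 141364821591) (a (l 16777312) (b (l 94657052199) (l 16777296)))) (l 16777272))) (b (a (b (l 3) (b (l 3) (l 122574340391))) (l 3)) (b (a (c (l 16777352) (l 16777336)) (b (l 115595017799) (c (l 16777248) (l 56539218007)))) (l 16777488)))) (a (l 16778320) (a (l 16777440) (b (l 16777736) (l 16778160))))))), by decide +kernel⟩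

def k79_pm_102_s : ∃ t, chk3 f_pm_102_s t 243 118 1 = true :=
  ⟨(b (l 3) (a (a (b (b (l 3) (a (b (l 149954755927) (a (b (c (l 104857600199) (l 108615696615)) (l 16777320)) (a (b (l 3) (l 110763180231)) (l 149417885319)))) (l 3))) (a (b (b (a (l 16777480) (b (l 42043703511) (l 16777384))) (l 16777624)) (l 16777944)) (b (a (b (b (l 123648081527) (c (l 16777232) (l 64592281703))) (l 16777400)) (b (l 153712852487) (b (c (l 112373792983) (l 114521276615)) (l 16777304)))) (c (l 16777680) (l 16776960))))) (b (l 3) (a (b (a (b (l 3) (c (l 126869307095) (l 128479920455))) (l 3)) (b (a (c (l 16777320) (c (l 16777312) (l 33990639831))) (b (l 134922370791) (c (l 70497861719) (l 98415149207)))) (l 16777456))) (b (l 3) (b (l 3) (a (b (l 122574340391) (l 16777288)) (c (l 130627403431) (l 132238016151)))))))) (l 3))), by decide +kernel⟩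

def k80_pm_102_s : ∃ t, chk3 f_pm_102_s t 121 119 1 = true :=
  ⟨(a (b (a (c (l 16781264) (l 16780712)) (b (a (l 16779632) (l 16779032)) (l 16780200))) (a (a (b (l 16782600) (l 16783440)) (l 16782432)) (c (l 16781864) (l 16781200)))) (b (b (b (a (a (l 16778224) (b (a (l 16777672) (a (l 16777456) (a (l 16777344) (b (l 104857600167) (l 16777320))))) (a (l 16777888) (l 16777592)))) (a (a (a (b (b (l 145122918087) (c (l 104320729255) (l 108615696615))) (l 16777368)) (b (l 3) (b (c (l 97878277543) (l 101099503735)) (l 43654316311)))) (a (c (l 141901692231) (l 144586047415)) (l 3))) (l 3))) (a (a (l 16778656) (a (l 16778208) (l 16777912))) (a (a (b (l 16777184) (l 16777728)) (b (a (b (c (l 16777272) (l 65129152599)) (l 16777344)) (b (l 154786594455) (c (l 113447534807) (l 115595018439)))) (c (l 16777448) (l 16777416)))) (a (a (b (l 3) (b (c (l 106468212215) (l 108615695879)) (c (l 16777256) (l 50633638039)))) (l 147807272855)) (l 3))))) (b (a (c (l 16778920) (l 16778672)) (b (a (a (l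 16777936) (l 16777640)) (b (a (a (l 16777368) (c (l 95730794583) (l 101099503799))) (l 3)) (a (l 16777400) (a (l 125258694983) (l 3))))) (a (l 16778008) (a (c (l 16777592) (l 16777536)) (a (c (l 16777352) (l 22179479831)) (b (l 117205630519) (c (l 16777240) (l 59760443511)))))))) (a (l 16779216) (a (l 16778328) (a (l 16777880) (c (l 16777616) (c (l 16777576) (l 16777544)))))))) (a (c (l 16779256) (c (l 16780192) (l 16779968))) (a (b (l 16778976) (l 16779840)) (b (b (l 16777512) (l 16778592)) (l 16779248)))))), by decide +kernel⟩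

def k81_pm_102_s : ∃ t, chk3 f_pm_102_s t 61 58 1 = true :=
  ⟨(l 3), by decide +kernel⟩

def k82_pm_102_s : ∃ t, chk3 f_pm_102_s t 122 118 1 = true :=
  ⟨(l 3), by decide +kernel⟩

def k83_pm_102_s : ∃ t, chk3 f_pm_102_s t 122 238 1 = true :=
  ⟨(b (l 3) (a (a (a (a (a (b (l 152639110359) (b (b (c (l 107005083847) (l 110226309335)) (l 16777312)) (l 16777472))) (b (l 3) (b (a (b (l 3) (l 116131889367)) (l 154249723495)) (a (l 16777360) (b (l 62444798055) (l 16777344)))))) (a (b (l 3) (b (l 3) (b (l 131164274391) (a (l 16777264) (l 120963727559))))) (l 3))) (l 3)) (l 3)) (l 3))), by decide +kernel⟩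

def k84_pm_102_s : ∃ t, chk3 f_pm_102_s t 122 239 1 = true :=
  ⟨(b (a (a (a (b (a (b (l 16776960) (l 16777824)) (a (b (l 16777392) (l 16777608)) (b (b (a (l 68350378071) (l 128479919911)) (l 16777376)) (l 16777456)))) (c (l 16778072) (l 16777936))) (a (b (a (b (c (l 128479919799) (l 130090532503)) (a (l 16777344) (b (l 100562632855) (l 16777328)))) (b (l 3) (b (l 142975434439) (a (l 16777248) (l 102173245015))))) (b (a (l 16777520) (l 16777376)) (l 16777664))) (b (l 3) (a (b (b (a (l 108615696583) (l 106468211847)) (c (l 16777280) (l 39359348935))) (l 16777440)) (b (l 134385499767) (b (a (l 16777272) (l 115595018455)) (l 16777344))))))) (b (l 3) (b (l 3) (a (b (l 154786593799) (a (a (c (l 111300051159) (l 113984405703)) (l 3)) (l 3))) (l 3))))) (l 3)) (a (a (b (a (l 16778432) (a (l 16777984) (a (l 16777760) (b (l 16777504) (l 16777720))))) (c (l 16778680) (l 16777800))) (a (a (b (a (b (a (l 16777392) (l 16777320)) (l 16777576)) (b (b (c (l 105394470391) (l 108078824967)) (c (l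 16777256) (l 50096767127))) (l 16777424))) (l 16777816)) (b (b (l 146733530471) (a (b (a (l 16777256) (l 96804535863)) (l 16777328)) (a (b (l 3) (l 101099503767)) (l 145659788951)))) (b (a (l 16777488) (a (l 16777376) (b (l 16777240) (l 16777360)))) (c (l 16777664) (l 16777592))))) (b (l 3) (a (a (b (b (l 118279372375) (a (l 16777280) (l 109152567479))) (l 16777408)) (b (l 152102239751) (b (a (l 58149830775) (l 112373792423)) (l 16777312)))) (a (b (l 3) (a (b (l 3) (l 116668760263)) (l 3))) (l 3)))))) (l 3))), by decide +kernel⟩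

def k85_pm_102_s : ∃ t, chk3 f_pm_102_s t 123 59 1 = true :=
  ⟨(l 3), by decide +kernel⟩

def k86_pm_102_s : ∃ t, chk3 f_pm_102_s t 31 14 1 = true :=
  ⟨(l 3), by decide +kernel⟩

def k87_pm_102_s : ∃ t, chk3 f_pm_102_s t 14 30 1 = true :=
  ⟨(a (b (a (a (b (l 16821752) (l 16824536)) (b (l 16817280) (l 16820248))) (a (l 16814592) (b (a (l 16809928) (b (l 16807192) (l 16808648))) (l 16812104)))) (a (a (b (l 16827544) (l 16831056)) (l 16825480)) (a (l 16821552) (b (l 16815664) (l 16819584))))) (b (a (b (a (b (a (l 16804712) (l 16802680)) (a (l 16806768) (l 16804496))) (a (l 16801264) (l 16799416))) (a (l 16808080) (b (a (b (l 16803792) (l 16804624)) (b (l 16801664) (l 16802536))) (l 16805040)))) (a (b (a (l 16797432) (l 16795432)) (b (l 16799024) (a (b (l 16801304) (l 16802416)) (a (l 16800168) (l 16799248))))) (b (a (l 16793344) (b (l 16790416) (l 16792048))) (a (l 16796768) (b (l 16793760) (l 16795544)))))) (a (a (b (l 16811704) (l 16815680)) (b (l 16807704) (l 16811720))) (b (a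 (a (l 16804664) (b (b (a (l 16801752) (l 16800640)) (l 16802112)) (l 16803568))) (b (a (b (l 16798976) (a (l 16800608) (l 16799416))) (l 16797408)) (a (l 16801544) (b (a (l 16799400) (l 16798240)) (a (l 16800376) (l 16799376)))))) (a (a (l 16808696) (l 16806632)) (a (l 16804544) (l 16802408))))))), by decide +kernel⟩

def k88_pm_102_s : ∃ t, chk3 f_pm_102_s t 14 31 1 = true :=
  ⟨(a (b (a (b (l 16833312) (b (a (l 16838128) (l 16834728)) (a (l 16840024) (l 16837040)))) (b (a (l 16827712) (l 16823864)) (b (l 16829256) (a (b (l 16832752) (l 16833936)) (b (l 16829120) (l 16830256)))))) (a (b (a (l 16842320) (l 16839168)) (a (c (l 16852344) (l 16839136)) (c (l 16848968) (l 16836272)))) (b (a (l 16835792) (l 16832376)) (b (a (l 16838296) (l 16834896)) (a (c (l 16846424) (l 16833920)) (c (l 16842744) (l 16830832))))))) (a (b (a (b (l 16820008) (a (l 16825584) (l 16823760))) (b (l 16816088) (l 16820824))) (b (b (a (b (l 16827760) (l 16828520)) (b (l 16823832) (l 16825080))) (a (l 16829760)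 (l 16826224))) (b (a (l 16831472) (l 16827952)) (a (c (l 16838984) (l 16827760)) (c (l 16835080) (l 16832488)))))) (a (b (b (l 16812048) (l 16816792)) (b (b (b (l 16819944) (a (l 16822200) (l 16820120))) (l 16822536)) (a (c (l 16830936) (l 16821464)) (c (l 16828832) (l 16819800))))) (b (b (a (l 16808928) (l 16806800)) (b (l 16811384) (l 16813840))) (b (b (a (l 16817408) (l 16815312)) (b (a (l 16819312) (l 16817208)) (l 16819096))) (a (c (l 16826664) (l 16828576)) (c (l 16824432) (l 16826816)))))))), by decide +kernel⟩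

def k89_pm_102_s : ∃ t, chk3 f_pm_102_s t 60 30 1 = true :=
  ⟨(b (a (b (a (b (l 16788272) (l 16789904)) (b (l 16786104) (l 16787728))) (a (b (l 16791608) (l 16793392)) (b (l 16789432) (l 16791208)))) (b (a (b (a (b (a (b (l 16784160) (l 16784536)) (b (l 16783512) (l 16789232))) (l 16784856)) (b (l 16782824) (a (b (l 16786432) (l 16784224)) (b (l 16783208) (l 16786264))))) (a (l 16786080) (b (l 16784576) (l 16785376)))) (b (a (c (l 16782480) (l 16781704)) (b (l 16780416) (l 16781304))) (a (a (b (b (a (l 16783648) (l 16783312)) (l 16783944)) (l 16784528)) (a (b (b (l 16783032) (l 16783472)) (l 16784104)) (b (l 16782928) (l 16783864)))) (b (l 16782192) (a (c (b (l 16783648) (l 16784184)) (b (l 16785280) (l 16783136))) (a (b (l 16782712) (l 16783136)) (l 16782632))))))) (a (b (l 16787216) (c (l 16790096) (l 16787944))) (b (a (l 16785520) (a (l 16784664) (a (l 16784256) (b (b (l 16783312) (l 16783728)) (l 16784376))))) (c (l 16787600) (l 16785880)))))) (b (a (a (b (l 16795248) (a (b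 (l 16797232) (l 16798176)) (l 16796640))) (b (l 16793056) (l 16794984))) (a (b (c (l 16792120) (l 16789616)) (l 16792744)) (b (c (l 16789616) (l 16787544)) (c (l 16791704) (l 16789280))))) (a (b (a (b (a (l 16799256) (l 16798168)) (l 16799712)) (b (a (l 16796960) (l 16795920)) (a (l 16798128) (c (l 16798784) (l 16795160))))) (a (l 16801304) (l 16799080))) (b (a (a (l 16795272) (l 16794168)) (l 16792432)) (a (b (a (c (l 16798728) (l 16795176)) (c (l 16797384) (l 16794008))) (a (l 16797920) (l 16796832))) (a (b (l 16794552) (a (l 16795912) (l 16795272))) (l 16793848))))))), by decide +kernel⟩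

def k90_pm_102_s : ∃ t, chk3 f_pm_102_s t 244 120 1 = true :=
  ⟨(b (a (c (b (l 16779392) (l 16780344)) (b (c (l 16779136) (l 16778984)) (l 16779864))) (a (b (c (l 16777104) (c (l 16778272) (l 16778184))) (l 16779184)) (b (a (b (b (c (l 16777576) (l 16776864)) (l 16777760)) (l 16778088)) (a (b (b (a (l 16777360) (b (l 66202894471) (l 16777336))) (l 16777536)) (l 16777864)) (b (b (b (l 133311758055) (a (l 16777264) (l 122574340279))) (l 16777384)) (l 16777712)))) (c (l 16778712) (l 16778472))))) (a (c (l 16781792) (l 16781080)) (c (b (l 16779992) (l 16780960)) (b (l 16779552) (l 16780368))))), by decide +kernel⟩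

def k91_pm_102_s : ∃ t, chk3 f_pm_102_s t 490 120 1 = true :=
  ⟨(a (b (b (a (b (b (l 3) (a (b (a (l 93583310919) (l 133311758135)) (c (l 16777296) (l 16777280))) (c (l 129016790679) (c (l 130627403399) (l 131701145207))))) (a (b (l 16777456) (l 16777672)) (b (b (a (l 16777288) (l 103783858327)) (l 16777360)) (l 16777520)))) (b (l 3) (a (b (a (b (l 105394469991) (l 54391734407)) (l 129553661671)) (c (l 16777384) (l 16777352))) (b (l 3) (b (a (l 113447534807) (l 106468211783)) (a (l 16777312) (l 61907927143))))))) (a (c (l 16778216) (l 16778056)) (b (b (a (l 16777584) (l 16777432)) (l 16777728)) (l 16778048)))) (b (a (l 16779008) (l 16778704)) (l 16779736))) (b (b (a (a (b (l 3) (b (l 3) (l 138680467031))) (l 3)) (l 3)) (a (b (b (a (b (a (l 16777264) (l 119353114807)) (l 16777336)) (a (b (l 3) (l 69424119895)) (l 139754208935))) (a (l 16777504) (a (l 16777384) (c (l 16777320) (l 22716350679))))) (b (l 16777640) (l 16777856))) (b (b (l 3) (a (b (a (l 102173245111) (l 3)) (a (l 16777288)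 (l 100562632855))) (l 147807272471))) (b (a (l 16777416) (b (a (l 51707379847) (l 106468212375)) (l 16777320))) (a (l 16777632) (l 16776824)))))) (b (b (a (l 16778184) (l 16777880)) (l 16778472)) (c (l 16779304) (l 16778968))))), by decide +kernel⟩

def k92_pm_102_s : ∃ t, chk3 f_pm_102_s t 491 120 1 = true :=
  ⟨(a (b (b (l 3) (b (l 3) (a (a (b (a (b (l 3) (l 109689438391)) (l 152639110759)) (b (a (l 16777312) (l 59760443511)) (l 16777384))) (b (l 3) (b (l 129553661687) (a (l 16777272) (l 117742502087))))) (l 3)))) (b (a (b (b (a (l 16777544) (l 16777400)) (l 16777688)) (l 16778016)) (b (a (b (b (a (l 67276636247) (l 126869307175)) (c (l 16777304) (l 16777288))) (c (l 16777488) (l 16777440))) (b (a (b (l 3) (l 123648082087)) (l 3)) (b (a (l 16777296) (l 98415149207)) (l 16777368)))) (b (c (l 16777640) (l 16777568)) (l 16777824)))) (c (l 16778640) (l 16777752)))) (b (l 3) (b (b (b (l 3) (a (b (l 147807272423) (a (a (l 50096767127) (l 104857599639)) (l 3))) (l 3))) (a (a (b (a (l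 16777416) (l 16777336)) (l 16777592)) (b (b (a (l 108078825655) (l 105931340887)) (a (l 16777320) (l 59223572647))) (c (l 16777464) (l 16777424)))) (a (b (a (l 131164274391) (l 3)) (b (a (l 16777272) (l 116668760263)) (l 16777344))) (b (l 3) (a (b (l 3) (l 66739765351)) (l 138143596215)))))) (a (b (l 16777192) (l 16778280)) (b (b (a (c (l 16777536) (l 16777480)) (c (l 16777368) (b (l 24326963431) (l 16777392)))) (l 16777648)) (l 16777976)))))), by decide +kernel⟩

def k93_pm_102_s : ∃ t, chk3 f_pm_102_s t 122 121 1 = true :=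
  ⟨(a (b (b (a (a (a (b (l 16782976) (l 16783464)) (b (l 16782696) (l 16783144))) (c (l 16782896) (l 16782000))) (l 16781544)) (a (a (l 16783944) (b (a (l 16783312) (l 16782984)) (l 16783576))) (a (b (l 16782520) (a (l 16783160) (c (l 16783320) (l 16782352)))) (l 16782144)))) (a (l 16784968) (b (a (l 16783656) (b (a (a (l 16783080) (l 16782912)) (a (l 16782736) (l 16782584))) (l 16783296))) (l 16784240)))) (b (a (b (c (l 16780608) (l 16780064)) (l 16780568)) (b (a (a (l 16779560) (l 16779256)) (b (l 16778568) (l 16779016))) (c (l 16780248) (l 16779760)))) (a (b (b (l 16781912) (a (a (a (l 16782920) (l 16782744)) (l 16782496)) (l 16782056))) (a (a (l 16783496) (c (l 16783776) (l 16784048))) (a (b (a (l 16782752) (l 16782576)) (l 16783120)) (b (l 16782344) (a (l 16782912) (l 16782760)))))) (b (c (l 16781240) (l 16780592)) (a (a (b (l 16782056) (a (l 16783896) (l 16782416))) (l 16781968)) (l 16781504)))))), by decide +kernel⟩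

def k94_pm_102_s : ∃ t, chk3 f_pm_102_s t 123 120 1 = true :=
  ⟨(a (b (l 3) (a (a (b (l 3) (a (b (b (a (b (a (l 123111211175) (l 3)) (a (l 16777296) (c (l 93583310935) (l 97878278247)))) (l 147270401575)) (a (c (l 16777440) (l 16777400)) (b (a (l 50096767159) (l 104857599639)) (l 16777320)))) (a (l 16777752) (b (c (l 16777512) (l 16777464)) (l 16777704)))) (a (b (a (b (l 3) (b (l 3) (l 107541954743))) (l 153712852263)) (b (b (a (l 16777320) (c (l 16777240) (l 57612959863))) (l 16777392)) (l 16777552))) (b (l 3) (b (b (l 129016790775) (a (l 16777272) (l 116668760263))) (c (l 16777416) (l 16777384))))))) (a (b (l 3) (b (l 3) (b (l 3) (a (b (a (c (l 16777264) (l 64592281639)) (l 126869307175)) (a (l 16777336) (l 39896219815))) (a (b (l 3) (l 123111211175)) (l 3)))))) (l 3))) (l 3))) (l 3)), by decide +kernel⟩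

def k95_pm_102_s : ∃ t, chk3 f_pm_102_s t 246 484 1 = true :=
  ⟨(a (b (b (a (c (l 16777904) (l 16777792)) (b (a (a (l 16777408) (a (l 16777296) (c (l 94120181847) (l 98415149159)))) (l 148344143319)) (a (a (l 16777520) (l 16777368)) (a (a (c (l 16777248) (l 48486154375)) (c (l 103783857815) (l 105931341463))) (l 3))))) (a (l 16777416) (a (c (l 16777648) (l 16776920)) (a (c (l 16777392) (l 16777360)) (a (b (c (l 105931341975) (l 108615696519)) (l 16777320)) (b (l 105394469975) (c (l 16777232) (l 58149830759)))))))) (a (c (l 16778512) (l 16778296)) (a (l 16777936) (a (l 16777704) (b (c (l 16777464) (l 16776768)) (l 16777664)))))) (a (a (b (a (b (l 3) (b (l 3) (l 129553661687))) (l 3)) (b (b (a (a (l 30769414375) (l 117742502087)) (l 3)) (a (l 16777344) (a (c (l 66739765303) (l 66202894375)) (l 127406178071)))) (a (c (l 16777536) (l 16777480)) (b (c (l 16777304) (c (l 16777288) (l 24326963383))) (l 16777408))))) (b (l 3) (b (l 3) (a (a (b (l 123648082071) (l 16777296)) (b (l 3) (a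 (l 60297314455) (l 119889985687)))) (l 148881014295))))) (l 3))), by decide +kernel⟩

def k96_pm_102_s : ∃ t, chk3 f_pm_102_s t 246 485 1 = true :=
  ⟨(a (c (a (l 16779240) (l 16777256)) (a (l 16778912) (c (l 16778400) (l 16778296)))) (b (a (a (b (l 16777656) (l 16777872)) (a (b (c (l 16777440) (l 16776744)) (l 16777640)) (a (b (b (c (l 16777248) (l 50633638023)) (l 16777360)) (l 16777528)) (b (b (c (l 104857599639) (l 107005083271)) (l 16777280)) (l 16777120))))) (a (a (a (b (b (l 3) (c (l 107005083783) (l 111836922023))) (l 16777368)) (b (l 154249723479) (b (c (l 60834185335) (l 60297314407)) (l 16777344)))) (b (l 3) (b (c (l 129553661687) (l 132774887143)) (a (l 33990639847) (a (l 105931341975) (l 118816243511)))))) (l 3))) (b (a (c (l 16778008) (l 16777880)) (a (a (l 16777552) (c (l 16777416) (l 16777216))) (a (b (a (a (l 50633638023) (l 110763180167)) (l 134385499991)) (a (l 16777336) (a (l 16777280) (l 56539218039)))) (a (a (b (l 3) (l 118279372967)) (l 144049176263)) (l 3)))))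 (a (l 16778168) (a (l 16777696) (b (a (l 16777408) (a (l 16777288) (a (l 62981668967) (l 124721823927)))) (a (l 16777520) (l 16777360)))))))), by decide +kernel⟩

def k97_pm_102_s : ∃ t, chk3 f_pm_102_s t 246 243 1 = true :=
  ⟨(a (a (b (l 16779968) (l 16780888)) (b (a (l 16779504) (l 16779192)) (l 16780256))) (a (b (c (l 16778864) (c (l 16778656) (l 16778536))) (c (l 16779856) (l 16779424))) (b (b (a (l 16778032) (b (a (l 16777688) (l 16777528)) (l 16777832))) (c (l 16778432) (l 16778232))) (c (l 16779168) (l 16778848))))), by decide +kernel⟩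

def k98_pm_102_s : ∃ t, chk3 f_pm_102_s t 494 121 1 = true :=
  ⟨(a (b (a (b (l 3) (b (l 3) (b (l 3) (b (l 151565368775) (a (a (a (l 16777264) (l 68887248983)) (c (l 109152566967) (l 112373792455))) (l 3)))))) (l 3)) (b (a (b (b (a (c (l 16777384) (a (l 16777392) (l 8220836071))) (a (b (c (l 111300051111) (l 114521276567)) (l 16777312)) (b (l 3) (a (l 43117445319) (l 102710116471))))) (a (l 16777592) (b (l 16777384) (l 16777496)))) (c (l 16777912) (l 16777800))) (b (a (b (b (l 3) (l 134922370791)) (b (a (c (l 16777264) (l 36138123431)) (a (l 109689438343) (l 122037468967))) (l 16777336))) (b (l 3) (a (b (l 3) (a (l 55465476215) (l 117205631143))) (l 144586047111)))) (b (b (a (l 16777448) (a (l 16777328) (a (l 16777272) (l 61907927143)))) (a (l 16777560) (l 16777400))) (c (l 16777688) (l 16777616))))) (b (c (l 16778232) (l 16777408)) (c (l 16778728) (l 16778480))))) (b (l 3) (a (b (b (l 3) (b (a (a (b (a (l 123648082103) (l 145122918311)) (l 16777280)) (b (l 3) (b (l 116131888967)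 (l 58686701687)))) (l 153712852471)) (a (b (l 16777360) (l 16777472)) (b (a (a (l 16777256) (l 95193923703)) (c (l 113447534279) (l 119889985287))) (c (l 16777320) (c (l 16777304) (l 14663286967))))))) (b (a (l 16777424) (b (b (l 16777096) (l 16777536)) (l 16777704))) (l 16778128))) (b (a (a (b (l 3) (b (l 3) (b (l 3) (c (l 116668760263) (l 119889985719))))) (l 3)) (l 3)) (b (a (b (a (c (l 16777376) (l 16777352)) (b (a (l 48486154375) (l 109152567431)) (l 16777336))) (l 16777544)) (b (b (l 138680467143) (a (b (l 61907927143) (l 16777288)) (l 129016791271))) (b (a (l 16777368) (l 16777288)) (l 16777448)))) (c (l 16777864) (l 16777752))))))), by decide +kernel⟩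

def k99_pm_102_s : ∃ t, chk3 f_pm_102_s t 495 121 1 = true :=
  ⟨(b (l 3) (a (b (l 3) (b (a (b (l 3) (a (a (b (b (l 103783857895) (l 52244250791)) (l 16777328)) (b (l 144049176343) (b (l 97878278263) (l 16777272)))) (a (b (l 3) (b (l 3) (l 124184952983))) (l 3)))) (l 3)) (b (b (a (a (c (l 16777416) (l 16777384)) (a (c (l 16777280) (l 16777272)) (b (l 124184952663) (l 66202894439)))) (l 3)) (a (a (l 16777512) (c (l 16777368) (l 16777344))) (l 14))) (a (a (l 16777680) (a (l 16777560) (l 14))) (l 14))))) (b (l 3) (b (l 3) (l 14))))), by decide +kernel⟩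

def k100_pm_102_s : ∃ t, chk3 f_pm_102_s t 61 61 1 = true :=
  ⟨(a (b (a (a (b (l 16786792) (l 16788696)) (b (l 16785616) (l 16787504))) (a (b (c (l 16785088) (l 16783792)) (l 16786304)) (b (b (b (b (a (a (l 16782856) (l 16782552)) (l 16782088)) (a (l 16782944) (a (l 16782464) (l 16782160)))) (a (l 16783280) (a (l 16782832) (b (l 16782384) (l 16782640))))) (l 16783664)) (c (l 16785816) (l 16784400))))) (a (b (c (l 16791272) (l 16788944)) (l 16792112)) (a (b (c (l 16789288) (l 16787296)) (l 16790296)) (b (c (l 16787944) (l 16786184)) (l 16789056))))) (b (a (a (b (b (a (a (a (b (l 16781808) (l 16783568)) (l 16781880)) (l 16781656)) (l 16781184)) (a (b (a (c (l 16783184) (l 16782232)) (b (l 16782216) (l 16782488))) (l 16782976)) (a (b (l 16782016) (b (l 16782400) (l 16782624))) (b (l 16781728) (b (l 16782064) (c (l 16782784) (l 16781888))))))) (b (l 16783368) (l 16784320))) (b (b (c (l 16780520) (c (l 16780104) (l 16779856))) (a (a (l 16781632) (l 16781328)) (l 16780848))) (b (a (b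 (a (b (c (l 16782688) (l 16781808)) (l 16782472)) (b (l 16781912) (c (l 16782600) (l 16781728)))) (l 16782680)) (b (l 16781560) (b (b (l 16781832) (l 14)) (l 14)))) (a (l 16783376) (l 14))))) (b (a (a (c (b (l 16779480) (l 16780488)) (b (l 16779112) (l 16779960))) (b (c (c (l 16778856) (l 16778712)) (c (l 16778584) (l 16778472))) (l 14))) (a (a (b (c (l 16777280) (c (l 16778128) (l 16777392))) (l 14)) (l 14)) (l 14))) (l 14))) (a (a (b (a (l 16786096) (l 16785472)) (l 14)) (l 14)) (l 14)))), by decide +kernel⟩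

def k101_pm_102_s : ∃ t, chk3 f_pm_102_s t 30 31 1 = true :=
  ⟨(b (a (b (a (a (l 16804616) (b (l 16801264) (l 16803528))) (a (b (l 16798984) (l 16801240)) (b (a (l 16797232) (b (a (l 16795848) (l 16795224)) (l 16796600))) (l 16798888)))) (a (b (l 16807008) (l 16809456)) (b (a (l 16803584) (l 16801224)) (a (l 16806016) (l 16803640))))) (b (a (b (b (a (a (b (l 16794032) (l 16794552)) (l 16793096)) (l 16791248)) (a (a (l 16795448) (b (l 16793856) (l 16794488))) (l 14))) (a (l 16796472) (l 14))) (l 14)) (l 14))) (a (b (b (a (l 16811984) (l 16807336)) (a (b (a (l 16814984) (l 16812776)) (a (l 16816056) (l 16814016))) (l 14))) (a (a (c (l 16822136) (l 16825016)) (b (l 16815256) (l 14))) (l 14))) (l 14))), by decide +kernel⟩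

def k102_pm_102_s : ∃ t, chk3 f_pm_102_s t 31 15 1 = true :=
  ⟨(b (b (l 3) (l 14)) (l 14)), by decide +kernel⟩

theorem s103_pm_102_s : ∃ t, chk3 f_pm_102_s t 247 121 1 = true := ex3_a k98_pm_102_s k99_pm_102_s

theorem s104_pm_102_s : ∃ t, chk3 f_pm_102_s t 246 242 1 = true := ex3_b k95_pm_102_s k96_pm_102_s

theorem s105_pm_102_s : ∃ t, chk3 f_pm_102_s t 246 121 1 = true := ex3_b s104_pm_102_s k97_pm_102_s

theorem s106_pm_102_s : ∃ t, chk3 f_pm_102_s t 123 121 1 = true := ex3_a s105_pm_102_s s103_pm_102_s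

theorem s107_pm_102_s : ∃ t, chk3 f_pm_102_s t 123 60 1 = true := ex3_b k94_pm_102_s s106_pm_102_s

theorem s108_pm_102_s : ∃ t, chk3 f_pm_102_s t 245 120 1 = true := ex3_a k91_pm_102_s k92_pm_102_s

theorem s109_pm_102_s : ∃ t, chk3 f_pm_102_s t 122 120 1 = true := ex3_a k90_pm_102_s s108_pm_102_s

theorem s110_pm_102_s : ∃ t, chk3 f_pm_102_s t 122 60 1 = true := ex3_b s109_pm_102_s k93_pm_102_s

theorem s111_pm_102_s : ∃ t, chk3 f_pm_102_s t 61 60 1 = true := ex3_a s110_pm_102_s s107_pm_102_s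

theorem s112_pm_102_s : ∃ t, chk3 f_pm_102_s t 61 30 1 = true := ex3_b s111_pm_102_s k100_pm_102_s

theorem s113_pm_102_s : ∃ t, chk3 f_pm_102_s t 30 30 1 = true := ex3_a k89_pm_102_s s112_pm_102_s

theorem s114_pm_102_s : ∃ t, chk3 f_pm_102_s t 30 15 1 = true := ex3_b s113_pm_102_s k101_pm_102_s

theorem s115_pm_102_s : ∃ t, chk3 f_pm_102_s t 15 15 1 = true := ex3_a s114_pm_102_s k102_pm_102_s

theorem s116_pm_102_s : ∃ t, chk3 f_pm_102_s t 14 15 1 = true := ex3_b k87_pm_102_s k88_pm_102_s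

theorem s117_pm_102_s : ∃ t, chk3 f_pm_102_s t 7 15 1 = true := ex3_a s116_pm_102_s s115_pm_102_s

theorem s118_pm_102_s : ∃ t, chk3 f_pm_102_s t 122 119 1 = true := ex3_b k83_pm_102_s k84_pm_102_s

theorem s119_pm_102_s : ∃ t, chk3 f_pm_102_s t 122 59 1 = true := ex3_b k82_pm_102_s s118_pm_102_s

theorem s120_pm_102_s : ∃ t, chk3 f_pm_102_s t 61 59 1 = true := ex3_a s119_pm_102_s k85_pm_102_s

theorem s121_pm_102_s : ∃ t, chk3 f_pm_102_s t 61 29 1 = true := ex3_b k81_pm_102_s s120_pm_102_s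

theorem s122_pm_102_s : ∃ t, chk3 f_pm_102_s t 242 118 1 = true := ex3_b k77_pm_102_s k78_pm_102_s

theorem s123_pm_102_s : ∃ t, chk3 f_pm_102_s t 121 118 1 = true := ex3_a s122_pm_102_s k79_pm_102_s

theorem s124_pm_102_s : ∃ t, chk3 f_pm_102_s t 121 59 1 = true := ex3_b s123_pm_102_s k80_pm_102_s

theorem s125_pm_102_s : ∃ t, chk3 f_pm_102_s t 60 59 1 = true := ex3_a k76_pm_102_s s124_pm_102_s

theorem s126_pm_102_s : ∃ t, chk3 f_pm_102_s t 120 117 1 = true := ex3_a k73_pm_102_s k74_pm_102_s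

theorem s127_pm_102_s : ∃ t, chk3 f_pm_102_s t 120 58 1 = true := ex3_b k72_pm_102_s s126_pm_102_s

theorem s128_pm_102_s : ∃ t, chk3 f_pm_102_s t 60 58 1 = true := ex3_a s127_pm_102_s k75_pm_102_s

theorem s129_pm_102_s : ∃ t, chk3 f_pm_102_s t 60 29 1 = true := ex3_b s128_pm_102_s s125_pm_102_s

theorem s130_pm_102_s : ∃ t, chk3 f_pm_102_s t 30 29 1 = true := ex3_a s129_pm_102_s s121_pm_102_s

theorem s131_pm_102_s : ∃ t, chk3 f_pm_102_s t 30 14 1 = true := ex3_b k71_pm_102_s s130_pm_102_s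

theorem s132_pm_102_s : ∃ t, chk3 f_pm_102_s t 15 14 1 = true := ex3_a s131_pm_102_s k86_pm_102_s

theorem s133_pm_102_s : ∃ t, chk3 f_pm_102_s t 239 116 1 = true := ex3_b k67_pm_102_s k68_pm_102_s

theorem s134_pm_102_s : ∃ t, chk3 f_pm_102_s t 119 116 1 = true := ex3_a k66_pm_102_s s133_pm_102_s

theorem s135_pm_102_s : ∃ t, chk3 f_pm_102_s t 119 58 1 = true := ex3_b s134_pm_102_s k69_pm_102_s

theorem s136_pm_102_s : ∃ t, chk3 f_pm_102_s t 59 58 1 = true := ex3_a k65_pm_102_s s135_pm_102_s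

theorem s137_pm_102_s : ∃ t, chk3 f_pm_102_s t 59 29 1 = true := ex3_b s136_pm_102_s k70_pm_102_s

theorem s138_pm_102_s : ∃ t, chk3 f_pm_102_s t 29 29 1 = true := ex3_a k64_pm_102_s s137_pm_102_s

theorem s139_pm_102_s : ∃ t, chk3 f_pm_102_s t 238 115 1 = true := ex3_b k61_pm_102_s k62_pm_102_s

theorem s140_pm_102_s : ∃ t, chk3 f_pm_102_s t 119 115 1 = true := ex3_a s139_pm_102_s k63_pm_102_s

theorem s141_pm_102_s : ∃ t, chk3 f_pm_102_s t 119 57 1 = true := ex3_b k60_pm_102_s s140_pm_102_s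

theorem s142_pm_102_s : ∃ t, chk3 f_pm_102_s t 118 114 1 = true := ex3_b k57_pm_102_s k58_pm_102_s

theorem s143_pm_102_s : ∃ t, chk3 f_pm_102_s t 118 57 1 = true := ex3_b s142_pm_102_s k59_pm_102_s

theorem s144_pm_102_s : ∃ t, chk3 f_pm_102_s t 59 57 1 = true := ex3_a s143_pm_102_s s141_pm_102_s

theorem s145_pm_102_s : ∃ t, chk3 f_pm_102_s t 59 28 1 = true := ex3_b k56_pm_102_s s144_pm_102_s

theorem s146_pm_102_s : ∃ t, chk3 f_pm_102_s t 117 113 1 = true := ex3_a k53_pm_102_s k54_pm_102_s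

theorem s147_pm_102_s : ∃ t, chk3 f_pm_102_s t 117 56 1 = true := ex3_b k52_pm_102_s s146_pm_102_s

theorem s148_pm_102_s : ∃ t, chk3 f_pm_102_s t 233 112 1 = true := ex3_b k49_pm_102_s k50_pm_102_s

theorem s149_pm_102_s : ∃ t, chk3 f_pm_102_s t 116 112 1 = true := ex3_a k48_pm_102_s s148_pm_102_s

theorem s150_pm_102_s : ∃ t, chk3 f_pm_102_s t 116 56 1 = true := ex3_b s149_pm_102_s k51_pm_102_s

theorem s151_pm_102_s : ∃ t, chk3 f_pm_102_s t 58 56 1 = true := ex3_a s150_pm_102_s s147_pm_102_s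

theorem s152_pm_102_s : ∃ t, chk3 f_pm_102_s t 58 28 1 = true := ex3_b s151_pm_102_s k55_pm_102_s

theorem s153_pm_102_s : ∃ t, chk3 f_pm_102_s t 29 28 1 = true := ex3_a s152_pm_102_s s145_pm_102_s

theorem s154_pm_102_s : ∃ t, chk3 f_pm_102_s t 29 14 1 = true := ex3_b s153_pm_102_s s138_pm_102_s

theorem s155_pm_102_s : ∃ t, chk3 f_pm_102_s t 14 14 1 = true := ex3_a k47_pm_102_s s154_pm_102_s

theorem s156_pm_102_s : ∃ t, chk3 f_pm_102_s t 7 14 1 = true := ex3_a s155_pm_102_s s132_pm_102_s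

theorem s157_pm_102_s : ∃ t, chk3 f_pm_102_s t 7 7 1 = true := ex3_b s156_pm_102_s s117_pm_102_s

theorem s158_pm_102_s : ∃ t, chk3 f_pm_102_s t 232 111 1 = true := ex3_a k41_pm_102_s k42_pm_102_s

theorem s159_pm_102_s : ∃ t, chk3 f_pm_102_s t 116 111 1 = true := ex3_a s158_pm_102_s k43_pm_102_s

theorem s160_pm_102_s : ∃ t, chk3 f_pm_102_s t 116 55 1 = true := ex3_b k40_pm_102_s s159_pm_102_s

theorem s161_pm_102_s : ∃ t, chk3 f_pm_102_s t 58 55 1 = true := ex3_a s160_pm_102_s k44_pm_102_s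

theorem s162_pm_102_s : ∃ t, chk3 f_pm_102_s t 58 27 1 = true := ex3_b k39_pm_102_s s161_pm_102_s

theorem s163_pm_102_s : ∃ t, chk3 f_pm_102_s t 29 27 1 = true := ex3_a s162_pm_102_s k45_pm_102_s

theorem s164_pm_102_s : ∃ t, chk3 f_pm_102_s t 29 13 1 = true := ex3_b k38_pm_102_s s163_pm_102_s

theorem s165_pm_102_s : ∃ t, chk3 f_pm_102_s t 115 111 1 = true := ex3_a k36_pm_102_s k37_pm_102_s

theorem s166_pm_102_s : ∃ t, chk3 f_pm_102_s t 230 110 1 = true := ex3_a k33_pm_102_s k34_pm_102_s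

theorem s167_pm_102_s : ∃ t, chk3 f_pm_102_s t 115 110 1 = true := ex3_a s166_pm_102_s k35_pm_102_s

theorem s168_pm_102_s : ∃ t, chk3 f_pm_102_s t 115 55 1 = true := ex3_b s167_pm_102_s s165_pm_102_s

theorem s169_pm_102_s : ∃ t, chk3 f_pm_102_s t 57 55 1 = true := ex3_a k32_pm_102_s s168_pm_102_s

theorem s170_pm_102_s : ∃ t, chk3 f_pm_102_s t 114 109 1 = true := ex3_a k29_pm_102_s k30_pm_102_s

theorem s171_pm_102_s : ∃ t, chk3 f_pm_102_s t 114 54 1 = true := ex3_b k28_pm_102_s s170_pm_102_s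

theorem s172_pm_102_s : ∃ t, chk3 f_pm_102_s t 57 54 1 = true := ex3_a s171_pm_102_s k31_pm_102_s

theorem s173_pm_102_s : ∃ t, chk3 f_pm_102_s t 57 27 1 = true := ex3_b s172_pm_102_s s169_pm_102_s

theorem s174_pm_102_s : ∃ t, chk3 f_pm_102_s t 56 27 1 = true := ex3_b k26_pm_102_s k27_pm_102_s

theorem s175_pm_102_s : ∃ t, chk3 f_pm_102_s t 28 27 1 = true := ex3_a s174_pm_102_s s173_pm_102_s

theorem s176_pm_102_s : ∃ t, chk3 f_pm_102_s t 56 53 1 = true := ex3_a k23_pm_102_s k24_pm_102_s

theorem s177_pm_102_s : ∃ t, chk3 f_pm_102_s t 56 26 1 = true := ex3_b k22_pm_102_s s176_pm_102_s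

theorem s178_pm_102_s : ∃ t, chk3 f_pm_102_s t 28 26 1 = true := ex3_a s177_pm_102_s k25_pm_102_s

theorem s179_pm_102_s : ∃ t, chk3 f_pm_102_s t 28 13 1 = true := ex3_b s178_pm_102_s s175_pm_102_s

theorem s180_pm_102_s : ∃ t, chk3 f_pm_102_s t 14 13 1 = true := ex3_a s179_pm_102_s s164_pm_102_s

theorem s181_pm_102_s : ∃ t, chk3 f_pm_102_s t 14 6 1 = true := ex3_b k21_pm_102_s s180_pm_102_s

theorem s182_pm_102_s : ∃ t, chk3 f_pm_102_s t 7 6 1 = true := ex3_a s181_pm_102_s k46_pm_102_s

theorem s183_pm_102_s : ∃ t, chk3 f_pm_102_s t 7 3 1 = true := ex3_b s182_pm_102_s s157_pm_102_s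

theorem s184_pm_102_s : ∃ t, chk3 f_pm_102_s t 13 6 1 = true := ex3_b k18_pm_102_s k19_pm_102_s

theorem s185_pm_102_s : ∃ t, chk3 f_pm_102_s t 6 6 1 = true := ex3_a k17_pm_102_s s184_pm_102_s

theorem s186_pm_102_s : ∃ t, chk3 f_pm_102_s t 6 3 1 = true := ex3_b s185_pm_102_s k20_pm_102_s

theorem s187_pm_102_s : ∃ t, chk3 f_pm_102_s t 3 3 1 = true := ex3_a s186_pm_102_s s183_pm_102_s

theorem s188_pm_102_s : ∃ t, chk3 f_pm_102_s t 24 11 1 = true := ex3_b k12_pm_102_s k13_pm_102_s

theorem s189_pm_102_s : ∃ t, chk3 f_pm_102_s t 12 11 1 = true := ex3_a s188_pm_102_s k14_pm_102_s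

theorem s190_pm_102_s : ∃ t, chk3 f_pm_102_s t 12 5 1 = true := ex3_b k11_pm_102_s s189_pm_102_s

theorem s191_pm_102_s : ∃ t, chk3 f_pm_102_s t 6 5 1 = true := ex3_a s190_pm_102_s k15_pm_102_s

theorem s192_pm_102_s : ∃ t, chk3 f_pm_102_s t 6 2 1 = true := ex3_b k10_pm_102_s s191_pm_102_s

theorem s193_pm_102_s : ∃ t, chk3 f_pm_102_s t 3 2 1 = true := ex3_a s192_pm_102_s k16_pm_102_s

theorem s194_pm_102_s : ∃ t, chk3 f_pm_102_s t 3 1 1 = true := ex3_b s193_pm_102_s s187_pm_102_s

theorem s195_pm_102_s : ∃ t, chk3 f_pm_102_s t 23 10 1 = true := ex3_b k6_pm_102_s k7_pm_102_s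

theorem s196_pm_102_s : ∃ t, chk3 f_pm_102_s t 11 10 1 = true := ex3_a k5_pm_102_s s195_pm_102_s

theorem s197_pm_102_s : ∃ t, chk3 f_pm_102_s t 11 5 1 = true := ex3_b s196_pm_102_s k8_pm_102_s

theorem s198_pm_102_s : ∃ t, chk3 f_pm_102_s t 5 5 1 = true := ex3_a k4_pm_102_s s197_pm_102_s

theorem s199_pm_102_s : ∃ t, chk3 f_pm_102_s t 10 4 1 = true := ex3_a k1_pm_102_s k2_pm_102_s

theorem s200_pm_102_s : ∃ t, chk3 f_pm_102_s t 5 4 1 = true := ex3_a s199_pm_102_s k3_pm_102_s

theorem s201_pm_102_s : ∃ t, chk3 f_pm_102_s t 5 2 1 = true := ex3_b s200_pm_102_s s198_pm_102_s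

theorem s202_pm_102_s : ∃ t, chk3 f_pm_102_s t 2 2 1 = true := ex3_a k0_pm_102_s s201_pm_102_s

theorem s203_pm_102_s : ∃ t, chk3 f_pm_102_s t 2 1 1 = true := ex3_b s202_pm_102_s k9_pm_102_s

theorem s204_pm_102_s : ∃ t, chk3 f_pm_102_s t 1 1 1 = true := ex3_a s203_pm_102_s s194_pm_102_s

theorem c_pm_102_s : CertNE 536870912 536870912 0 536870912 536870912 50465866 3 eng mog cd0q1 cd0q2 pd0 false true false .npp 1 0 2
    ndB0q1 ndB0q2 pcB0 cut_pm_102_s Ext.none :=
  certNE0 (fam := false) (s1 := true) (s2 := false) (a := 1) (b := 0) (c := 2) (cn := .npp) (n1 := ndB0q1) (n2 := ndB0q2) (pc := pcB0) (cut := cut_pm_102_s) (xt := Ext.none) (P1 := 536870912) (W1 := 536870912) (P2 := 0) (W2 := 536870912) (P3 := 536870912) (W3 := 50465866) (N0 := 3) (En := eng) (mo := mog) (C1 := cd0q1) (C2 := cd0q2) (C3 := pd0)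
    rfl s204_pm_102_s

noncomputable def cut_pm_102_t : Cut := Cut.of [[⟨3, 0, 0, 2845415833⟩], [⟨0, 1, 0, 67108864⟩, ⟨1, 0, 0, 67108864⟩, ⟨2, 1, 0, 67108864⟩], [⟨0, 0, 1, 20971520⟩, ⟨1, 1, 2, 20971520⟩, ⟨2, 1, 0, 33554432⟩]]

noncomputable def f_pm_102_t : ℕ → ℕ → ℕ → ℕ → Bool := onCell 536870912 536870912 0 536870912 536870912 50465866
    (rowNE 3 eng mog cd0q1 cd0q2 pd0 0 false true false .npp 1 0 2 (qsf 536870912 536870912 0 536870912 0) ndB0q1 ndB0q2 pcB0 cut_pm_102_t Ext.none)

def k0_pm_102_t : ∃ t, chk3 f_pm_102_t t 1 1 1 = true :=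
  ⟨(l 6), by decide +kernel⟩

theorem c_pm_102_t : CertNE 536870912 536870912 0 536870912 536870912 50465866 3 eng mog cd0q1 cd0q2 pd0 false true false .npp 1 0 2
    ndB0q1 ndB0q2 pcB0 cut_pm_102_t Ext.none :=
  certNE0 (fam := false) (s1 := true) (s2 := false) (a := 1) (b := 0) (c := 2) (cn := .npp) (n1 := ndB0q1) (n2 := ndB0q2) (pc := pcB0) (cut := cut_pm_102_t) (xt := Ext.none) (P1 := 536870912) (W1 := 536870912) (P2 := 0) (W2 := 536870912) (P3 := 536870912) (W3 := 50465866) (N0 := 3) (En := eng) (mo := mog) (C1 := cd0q1) (C2 := cd0q2) (C3 := pd0)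
    rfl k0_pm_102_t

noncomputable def cut_pm_112_s : Cut := Cut.of [[⟨4, 0, 0, 1449551462⟩], [⟨0, 0, 1, 20971520⟩, ⟨1, 1, 2, 20971520⟩, ⟨2, 1, 0, 33554432⟩]]

noncomputable def f_pm_112_s : ℕ → ℕ → ℕ → ℕ → Bool := onCell 536870912 536870912 0 536870912 536870912 50465866
    (rowNE 3 eng mog cd0q1 cd0q2 pd1 2 false true false .dn 1 1 2 (qsf 536870912 536870912 0 536870912 1) ndB0q1 ndB0q2 pcB1 cut_pm_112_s Ext.none)

def k0_pm_112_s : ∃ t, chk3 f_pm_112_s t 8 8 1 = true :=
  ⟨(a (b (l 3) (a (b (l 3) (a (l 3) (b (l 3) (a (l 3) (b (l 3) (a (l 3) (b (l 3) (l 96804538599)))))))) (b (a (l 3) (b (l 3) (a (l 3) (l 145122916343)))) (a (b (a (l 3) (b (l 3) (a (l 3) (l 125258693735)))) (a (b (a (l 3) (b (l 3) (l 100562634887))) (a (b (l 98952022215) (l 16776488)) (l 16776104))) (b (a (b (l 102710118599) (l 16776520)) (l 16776128)) (l 16774912)))) (b (a (b (l 133311762279) (a (b (l 105931344007) (l 16776544)) (l 16776144))) (b (a (l 57076091671) (l 16776152)) (l 16774864))) (l 16778440))))))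 (b (a (b (l 3) (a (l 3) (l 162839655047))) (b (a (l 3) (l 165524010967)) (a (b (l 160155302055) (a (b (l 152102239335) (l 51707383783)) (b (l 52244254695) (l 16774480)))) (b (a (b (l 154249723159) (l 52781125927)) (l 38285612279)) (l 16771984))))) (a (b (a (b (l 156934075815) (a (b (l 139217337159) (a (l 59223575207) (l 16776152))) (b (a (l 60834187911) (l 16776144)) (l 16774776)))) (b (a (b (l 142438562759) (l 50096770791)) (b (l 50633641783) (l 16774640))) (l 16772720))) (a (l 16776456) (l 16766928))) (a (b (l 16780752) (l 16761888)) (l 16771016))))), by decide +kernel⟩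

def k1_pm_112_s : ∃ t, chk3 f_pm_112_s t 8 9 1 = true :=
  ⟨(a (b (a (b (a (b (a (l 3) (b (l 3) (a (l 149954754887) (b (l 151028497319) (a (l 105931343175) (l 16776904)))))) (a (b (a (l 147270400343) (b (l 145122917319) (a (l 97341408679) (l 16776856)))) (a (a (b (l 93583312311) (l 16776456)) (l 16776456)) (l 16775920))) (b (a (a (b (l 101099504967) (l 16776520)) (l 16777824)) (l 16775984)) (l 16774816)))) (b (a (b (a (l 160692173127) (b (l 161229044615) (c (l 91972700007) (l 91972700119)))) (a (a (b (l 109689439479) (l 16776576)) (l 16777872)) (l 16776032))) (b (a (b (c (l 94120183719) (l 94120183671)) (l 16776440)) (l 16776072)) (l 16774904))) (a (b (l 16774872) (l 16773344)) (l 16772592)))) (a (b (a (c (l 16774576) (l 16773408)) (l 16772544)) (a (l 16770952) (l 16769536))) (a (l 16769576) (l 16768040)))) (b (a (b (a (l 16774128) (l 16772504)) (l 16770176)) (a (l 16769152) (l 16767248))) (a (a (l 16766400) (l 16764616)) (l 16761680)))) (a (a (b (a (b (l 16767952) (c (l 16767296)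 (l 16762712))) (b (l 16766560) (l 16763640))) (c (a (b (l 16764984) (l 16762728)) (l 16762792)) (a (b (l 16759240) (l 16755840)) (l 16755992)))) (b (a (c (l 16766168) (l 16761152)) (l 16762088)) (b (l 16758560) (a (b (l 16757232) (a (l 16756112) (l 16755520))) (b (l 16755504) (l 16754432)))))) (b (a (l 16752872) (b (l 16756824) (l 16737600))) (a (b (a (l 16755728) (l 16753872)) (a (l 16753336) (l 16750936))) (b (l 16729784) (l 16747120)))))) (b (a (a (b (l 16764120) (l 16757136)) (b (l 16759304) (l 16751496))) (b (l 16750376) (a (b (l 16747400) (l 16743288)) (l 16758944)))) (a (b (a (b (l 16751624) (l 16748704)) (l 16733992)) (l 16739472)) (l 16727544)))), by decide +kernel⟩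

def k2_pm_112_s : ∃ t, chk3 f_pm_112_s t 9 4 1 = true :=
  ⟨(b (a (b (a (b (a (b (l 161765915719) (a (b (l 155323465191) (l 53317996935)) (l 37211870999))) (b (a (b (l 150491627207) (l 16779208)) (l 32380033271)) (l 16771000))) (a (l 16779464) (l 16762632))) (b (a (l 16777824) (l 16780664)) (l 16771912))) (a (b (l 16776344) (l 16744960)) (b (l 16738360) (b (l 16728408) (l 16722560))))) (b (a (a (l 16765008) (l 16759208)) (b (l 16736776) (a (l 16725424) (l 16720560)))) (a (b (a (l 16721664) (l 16737216)) (a (l 16708248) (l 16700320))) (b (a (l 16731496) (l 16706200)) (l 16693928))))) (a (b (a (b (b (l 16736552) (l 16731944)) (l 16723696)) (b (l 16713592) (l 16699824))) (a (l 16706464) (l 16679768))) (a (b (l 16678976) (l 16647576)) (b (l 16669664) (l 16632208))))), by decide +kernel⟩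

def k3_pm_112_s : ∃ t, chk3 f_pm_112_s t 4 5 1 = true :=
  ⟨(a (b (a (a (b (b (a (b (a (b (a (l 16757488) (l 16756808)) (a (a (b (l 16756600) (c (l 16760168) (l 16757144))) (b (l 16756256) (l 16755752))) (b (c (l 16760128) (l 16751856)) (l 16755376)))) (b (a (b (l 16756576) (l 16755976)) (b (l 16755928) (l 16755336))) (l 16754800))) (a (c (l 16758912) (l 16749792)) (l 16753144))) (b (a (l 16754072) (l 16752328)) (l 16750736))) (a (b (a (l 16752368) (l 16751008)) (l 16749744)) (l 16747144))) (b (a (l 16746952) (l 16742640)) (l 16741128))) (b (a (b (l 16747752) (l 16742240)) (l 16739192)) (l 16731032))) (a (b (l 16728168) (l 16713800)) (b (l 16708888) (l 16690864)))) (a (b (a (l 16736176) (l 16721104)) (a (l 16709128) (b (l 16714304) (l 6)))) (b (l 16687744) (l 6)))) (b (a (b (l 16690120) (l 16644680)) (a (l 16641168) (b (l 16593440) (l 6)))) (a (l 6) (l 6)))), by decide +kernel⟩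

def k4_pm_112_s : ∃ t, chk3 f_pm_112_s t 4 3 1 = true :=
  ⟨(b (l 6) (l 6)), by decide +kernel⟩

def k5_pm_112_s : ∃ t, chk3 f_pm_112_s t 5 1 1 = true :=
  ⟨(b (a (b (b (a (b (a (b (a (l 16728744) (l 16723864)) (a (l 16736224) (l 16710552))) (b (a (l 16739312) (l 16712984)) (l 16703776))) (a (l 16693312) (l 16685336))) (l 1)) (a (a (b (l 16664232) (l 16630520)) (b (l 16658400) (l 16627368))) (l 1))) (a (b (b (a (l 16595872) (l 6)) (l 6)) (l 6)) (l 1))) (l 1)) (l 6)), by decide +kernel⟩

def k6_pm_112_s : ∃ t, chk3 f_pm_112_s t 3 1 1 = true :=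
  ⟨(l 1), by decide +kernel⟩

theorem s7_pm_112_s : ∃ t, chk3 f_pm_112_s t 8 4 1 = true := ex3_b k0_pm_112_s k1_pm_112_s

theorem s8_pm_112_s : ∃ t, chk3 f_pm_112_s t 4 4 1 = true := ex3_a s7_pm_112_s k2_pm_112_s

theorem s9_pm_112_s : ∃ t, chk3 f_pm_112_s t 4 2 1 = true := ex3_b s8_pm_112_s k3_pm_112_s

theorem s10_pm_112_s : ∃ t, chk3 f_pm_112_s t 4 1 1 = true := ex3_b s9_pm_112_s k4_pm_112_s

theorem s11_pm_112_s : ∃ t, chk3 f_pm_112_s t 2 1 1 = true := ex3_a s10_pm_112_s k5_pm_112_s

theorem s12_pm_112_s : ∃ t, chk3 f_pm_112_s t 1 1 1 = true := ex3_a s11_pm_112_s k6_pm_112_s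

theorem c_pm_112_s : CertNE 536870912 536870912 0 536870912 536870912 50465866 3 eng mog cd0q1 cd0q2 pd1 false true false .dn 1 1 2
    ndB0q1 ndB0q2 pcB1 cut_pm_112_s Ext.none :=
  certNE2 (fam := false) (s1 := true) (s2 := false) (a := 1) (b := 1) (c := 2) (cn := .dn) (n1 := ndB0q1) (n2 := ndB0q2) (pc := pcB1) (cut := cut_pm_112_s) (xt := Ext.none) (P1 := 536870912) (W1 := 536870912) (P2 := 0) (W2 := 536870912) (P3 := 536870912) (W3 := 50465866) (N0 := 3) (En := eng) (mo := mog) (C1 := cd0q1) (C2 := cd0q2) (C3 := pd1)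
    rfl (fun _ => rfl) s12_pm_112_s

noncomputable def cut_pm_112_t : Cut := Cut.of [[⟨3, 0, 0, 2845415833⟩], [⟨0, 0, 1, 20971520⟩, ⟨1, 1, 2, 20971520⟩, ⟨2, 1, 0, 33554432⟩]]

noncomputable def f_pm_112_t : ℕ → ℕ → ℕ → ℕ → Bool := onCell 536870912 536870912 0 536870912 536870912 50465866
    (rowNE 3 eng mog cd0q1 cd0q2 pd1 0 false true false .dn 1 1 2 (qsf 536870912 536870912 0 536870912 1) ndB0q1 ndB0q2 pcB1 cut_pm_112_t Ext.none)

def k0_pm_112_t : ∃ t, chk3 f_pm_112_t t 1 1 1 = true :=
  ⟨(l 6), by decide +kernel⟩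

theorem c_pm_112_t : CertNE 536870912 536870912 0 536870912 536870912 50465866 3 eng mog cd0q1 cd0q2 pd1 false true false .dn 1 1 2
    ndB0q1 ndB0q2 pcB1 cut_pm_112_t Ext.none :=
  certNE0 (fam := false) (s1 := true) (s2 := false) (a := 1) (b := 1) (c := 2) (cn := .dn) (n1 := ndB0q1) (n2 := ndB0q2) (pc := pcB1) (cut := cut_pm_112_t) (xt := Ext.none) (P1 := 536870912) (W1 := 536870912) (P2 := 0) (W2 := 536870912) (P3 := 536870912) (W3 := 50465866) (N0 := 3) (En := eng) (mo := mog) (C1 := cd0q1) (C2 := cd0q2) (C3 := pd1)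
    rfl k0_pm_112_t

noncomputable def cut_pm_202_s : Cut := Cut.of [[⟨4, 0, 0, 1449551462⟩], [⟨0, 1, 0, 67108864⟩, ⟨1, 0, 0, 67108864⟩, ⟨2, 1, 0, 67108864⟩]]

noncomputable def f_pm_202_s : ℕ → ℕ → ℕ → ℕ → Bool := onCell 0 536870912 0 536870912 536870912 50465866
    (rowNE 3 eng mog cd0q2 cd0q2 pd0 0 false true false .pp 2 0 2 (qsf 0 536870912 0 536870912 0) ndB0q2 ndB0q2 pcB0 cut_pm_202_s Ext.none)

def k0_pm_202_s : ∃ t, chk3 f_pm_202_s t 1 1 1 = true :=
  ⟨(a (l 3) (b (l 3) (a (l 3) (b (l 3) (b (l 3) (a (l 3) (l 14))))))), by decide +kernel⟩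

theorem c_pm_202_s : CertNE 0 536870912 0 536870912 536870912 50465866 3 eng mog cd0q2 cd0q2 pd0 false true false .pp 2 0 2
    ndB0q2 ndB0q2 pcB0 cut_pm_202_s Ext.none :=
  certNE0 (fam := false) (s1 := true) (s2 := false) (a := 2) (b := 0) (c := 2) (cn := .pp) (n1 := ndB0q2) (n2 := ndB0q2) (pc := pcB0) (cut := cut_pm_202_s) (xt := Ext.none) (P1 := 0) (W1 := 536870912) (P2 := 0) (W2 := 536870912) (P3 := 536870912) (W3 := 50465866) (N0 := 3) (En := eng) (mo := mog) (C1 := cd0q2) (C2 := cd0q2) (C3 := pd0)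
    rfl k0_pm_202_s

noncomputable def cut_pm_202_t : Cut := Cut.of [[⟨3, 0, 0, 2845415833⟩], [⟨0, 1, 0, 67108864⟩, ⟨1, 0, 0, 67108864⟩, ⟨2, 1, 0, 67108864⟩]]

noncomputable def f_pm_202_t : ℕ → ℕ → ℕ → ℕ → Bool := onCell 0 536870912 0 536870912 536870912 50465866
    (rowNE 3 eng mog cd0q2 cd0q2 pd0 0 false true false .pp 2 0 2 (qsf 0 536870912 0 536870912 0) ndB0q2 ndB0q2 pcB0 cut_pm_202_t Ext.none)

def k0_pm_202_t : ∃ t, chk3 f_pm_202_t t 1 1 1 = true :=
  ⟨(l 6), by decide +kernel⟩

theorem c_pm_202_t : CertNE 0 536870912 0 536870912 536870912 50465866 3 eng mog cd0q2 cd0q2 pd0 false true false .pp 2 0 2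
    ndB0q2 ndB0q2 pcB0 cut_pm_202_t Ext.none :=
  certNE0 (fam := false) (s1 := true) (s2 := false) (a := 2) (b := 0) (c := 2) (cn := .pp) (n1 := ndB0q2) (n2 := ndB0q2) (pc := pcB0) (cut := cut_pm_202_t) (xt := Ext.none) (P1 := 0) (W1 := 536870912) (P2 := 0) (W2 := 536870912) (P3 := 536870912) (W3 := 50465866) (N0 := 3) (En := eng) (mo := mog) (C1 := cd0q2) (C2 := cd0q2) (C3 := pd0)
    rfl k0_pm_202_t

noncomputable def cut_mm_001_s : Cut := Cut.of [[⟨4, 0, 0, 1449551462⟩]]

noncomputable def f_mm_001_s : ℕ → ℕ → ℕ → ℕ → Bool := onCell 0 536870912 0 536870912 536870912 50465866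
    (rowNE 3 eng mog cd0q0 cd0q1 pd0 1 false false false .up 0 0 1 (qsf 0 536870912 536870912 536870912 0) ndB0q0 ndB0q1 pcB0 cut_mm_001_s Ext.none)

def k0_mm_001_s : ∃ t, chk3 f_mm_001_s t 1 1 1 = true :=
  ⟨(l 3), by decide +kernel⟩

theorem c_mm_001_s : CertNE 0 536870912 536870912 536870912 536870912 50465866 3 eng mog cd0q0 cd0q1 pd0 false false false .up 0 0 1
    ndB0q0 ndB0q1 pcB0 cut_mm_001_s Ext.none :=
  certNE1 (fam := false) (s1 := false) (s2 := false) (a := 0) (b := 0) (c := 1) (cn := .up) (n1 := ndB0q0) (n2 := ndB0q1) (pc := pcB0) (cut := cut_mm_001_s) (xt := Ext.none) (P1 := 0) (W1 := 536870912) (P2 := 536870912) (W2 := 536870912) (P3 := 536870912) (W3 := 50465866) (N0 := 3) (En := eng) (mo := mog) (C1 := cd0q0) (C2 := cd0q1) (C3 := pd0)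
    rfl (fun _ => rfl) k0_mm_001_s

noncomputable def cut_mm_001_t : Cut := Cut.of [[⟨3, 0, 0, 2845415833⟩]]

noncomputable def f_mm_001_t : ℕ → ℕ → ℕ → ℕ → Bool := onCell 0 536870912 536870912 536870912 536870912 50465866
    (rowNE 3 eng mog cd0q0 cd0q1 pd0 0 false false false .up 0 0 1 (qsf 0 536870912 536870912 536870912 0) ndB0q0 ndB0q1 pcB0 cut_mm_001_t Ext.none)

def k0_mm_001_t : ∃ t, chk3 f_mm_001_t t 1 1 1 = true :=
  ⟨(l 6), by decide +kernel⟩

theorem c_mm_001_t : CertNE 0 536870912 536870912 536870912 536870912 50465866 3 eng mog cd0q0 cd0q1 pd0 false false false .up 0 0 1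
    ndB0q0 ndB0q1 pcB0 cut_mm_001_t Ext.none :=
  certNE0 (fam := false) (s1 := false) (s2 := false) (a := 0) (b := 0) (c := 1) (cn := .up) (n1 := ndB0q0) (n2 := ndB0q1) (pc := pcB0) (cut := cut_mm_001_t) (xt := Ext.none) (P1 := 0) (W1 := 536870912) (P2 := 536870912) (W2 := 536870912) (P3 := 536870912) (W3 := 50465866) (N0 := 3) (En := eng) (mo := mog) (C1 := cd0q0) (C2 := cd0q1) (C3 := pd0)
    rfl k0_mm_001_t

noncomputable def cut_mm_011_s : Cut := Cut.of [[⟨4, 0, 0, 1449551462⟩]]

noncomputable def f_mm_011_s : ℕ → ℕ → ℕ → ℕ → Bool := onCell 0 536870912 536870912 536870912 536870912 50465866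
    (rowNE 3 eng mog cd0q0 cd0q1 pd1 1 false false false .pnn 0 1 1 (qsf 0 536870912 536870912 536870912 1) ndB0q0 ndB0q1 pcB1 cut_mm_011_s Ext.none)

def k0_mm_011_s : ∃ t, chk3 f_mm_011_s t 1 1 1 = true :=
  ⟨(l 5), by decide +kernel⟩

theorem c_mm_011_s : CertNE 0 536870912 536870912 536870912 536870912 50465866 3 eng mog cd0q0 cd0q1 pd1 false false false .pnn 0 1 1
    ndB0q0 ndB0q1 pcB1 cut_mm_011_s Ext.none :=
  certNE1 (fam := false) (s1 := false) (s2 := false) (a := 0) (b := 1) (c := 1) (cn := .pnn) (n1 := ndB0q0) (n2 := ndB0q1) (pc := pcB1) (cut := cut_mm_011_s) (xt := Ext.none) (P1 := 0) (W1 := 536870912) (P2 := 536870912) (W2 := 536870912) (P3 := 536870912) (W3 := 50465866) (N0 := 3) (En := eng) (mo := mog) (C1 := cd0q0) (C2 := cd0q1) (C3 := pd1)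
    rfl (fun _ => rfl) k0_mm_011_s

noncomputable def cut_mm_011_t : Cut := Cut.of [[⟨3, 0, 0, 2845415833⟩]]

noncomputable def f_mm_011_t : ℕ → ℕ → ℕ → ℕ → Bool := onCell 0 536870912 536870912 536870912 536870912 50465866
    (rowNE 3 eng mog cd0q0 cd0q1 pd1 0 false false false .pnn 0 1 1 (qsf 0 536870912 536870912 536870912 1) ndB0q0 ndB0q1 pcB1 cut_mm_011_t Ext.none)

def k0_mm_011_t : ∃ t, chk3 f_mm_011_t t 1 1 1 = true :=
  ⟨(l 6), by decide +kernel⟩

theorem c_mm_011_t : CertNE 0 536870912 536870912 536870912 536870912 50465866 3 eng mog cd0q0 cd0q1 pd1 false false false .pnn 0 1 1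
    ndB0q0 ndB0q1 pcB1 cut_mm_011_t Ext.none :=
  certNE0 (fam := false) (s1 := false) (s2 := false) (a := 0) (b := 1) (c := 1) (cn := .pnn) (n1 := ndB0q0) (n2 := ndB0q1) (pc := pcB1) (cut := cut_mm_011_t) (xt := Ext.none) (P1 := 0) (W1 := 536870912) (P2 := 536870912) (W2 := 536870912) (P3 := 536870912) (W3 := 50465866) (N0 := 3) (En := eng) (mo := mog) (C1 := cd0q0) (C2 := cd0q1) (C3 := pd1)
    rfl k0_mm_011_t

noncomputable def cut_mm_012_s : Cut := Cut.of [[⟨4, 0, 0, 1449551462⟩]]

noncomputable def f_mm_012_s : ℕ → ℕ → ℕ → ℕ → Bool := onCell 0 536870912 0 536870912 536870912 50465866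
    (rowNE 3 eng mog cd0q0 cd0q2 pd1 0 false false false .pnp 0 1 2 (qsf 0 536870912 0 536870912 1) ndB0q0 ndB0q2 pcB1 cut_mm_012_s Ext.none)

def k0_mm_012_s : ∃ t, chk3 f_mm_012_s t 1 1 1 = true :=
  ⟨(l 5), by decide +kernel⟩

theorem c_mm_012_s : CertNE 0 536870912 0 536870912 536870912 50465866 3 eng mog cd0q0 cd0q2 pd1 false false false .pnp 0 1 2
    ndB0q0 ndB0q2 pcB1 cut_mm_012_s Ext.none :=
  certNE0 (fam := false) (s1 := false) (s2 := false) (a := 0) (b := 1) (c := 2) (cn := .pnp) (n1 := ndB0q0) (n2 := ndB0q2) (pc := pcB1) (cut := cut_mm_012_s) (xt := Ext.none) (P1 := 0) (W1 := 536870912) (P2 := 0) (W2 := 536870912) (P3 := 536870912) (W3 := 50465866) (N0 := 3) (En := eng) (mo := mog) (C1 := cd0q0) (C2 := cd0q2) (C3 := pd1)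
    rfl k0_mm_012_s

noncomputable def cut_mm_012_t : Cut := Cut.of [[⟨3, 0, 0, 2845415833⟩]]

noncomputable def f_mm_012_t : ℕ → ℕ → ℕ → ℕ → Bool := onCell 0 536870912 0 536870912 536870912 50465866
    (rowNE 3 eng mog cd0q0 cd0q2 pd1 0 false false false .pnp 0 1 2 (qsf 0 536870912 0 536870912 1) ndB0q0 ndB0q2 pcB1 cut_mm_012_t Ext.none)

def k0_mm_012_t : ∃ t, chk3 f_mm_012_t t 1 1 1 = true :=
  ⟨(l 5), by decide +kernel⟩

theorem c_mm_012_t : CertNE 0 536870912 0 536870912 536870912 50465866 3 eng mog cd0q0 cd0q2 pd1 false false false .pnp 0 1 2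
    ndB0q0 ndB0q2 pcB1 cut_mm_012_t Ext.none :=
  certNE0 (fam := false) (s1 := false) (s2 := false) (a := 0) (b := 1) (c := 2) (cn := .pnp) (n1 := ndB0q0) (n2 := ndB0q2) (pc := pcB1) (cut := cut_mm_012_t) (xt := Ext.none) (P1 := 0) (W1 := 536870912) (P2 := 0) (W2 := 536870912) (P3 := 536870912) (W3 := 50465866) (N0 := 3) (En := eng) (mo := mog) (C1 := cd0q0) (C2 := cd0q2) (C3 := pd1)
    rfl k0_mm_012_t

noncomputable def cut_mm_022_s : Cut := Cut.of [[⟨4, 0, 0, 1449551462⟩]]

noncomputable def f_mm_022_s : ℕ → ℕ → ℕ → ℕ → Bool := onCell 0 536870912 0 536870912 536870912 50465866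
    (rowNE 3 eng mog cd0q0 cd0q2 pd2 0 false false false .pp 0 2 2 (qsf 0 536870912 0 536870912 2) ndB0q0 ndB0q2 pcB2 cut_mm_022_s Ext.none)

def k0_mm_022_s : ∃ t, chk3 f_mm_022_s t 1 1 1 = true :=
  ⟨(l 5), by decide +kernel⟩

theorem c_mm_022_s : CertNE 0 536870912 0 536870912 536870912 50465866 3 eng mog cd0q0 cd0q2 pd2 false false false .pp 0 2 2
    ndB0q0 ndB0q2 pcB2 cut_mm_022_s Ext.none :=
  certNE0 (fam := false) (s1 := false) (s2 := false) (a := 0) (b := 2) (c := 2) (cn := .pp) (n1 := ndB0q0) (n2 := ndB0q2) (pc := pcB2) (cut := cut_mm_022_s) (xt := Ext.none) (P1 := 0) (W1 := 536870912) (P2 := 0) (W2 := 536870912) (P3 := 536870912) (W3 := 50465866) (N0 := 3) (En := eng) (mo := mog) (C1 := cd0q0) (C2 := cd0q2) (C3 := pd2)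
    rfl k0_mm_022_s

noncomputable def cut_mm_022_t : Cut := Cut.of [[⟨3, 0, 0, 2845415833⟩]]

noncomputable def f_mm_022_t : ℕ → ℕ → ℕ → ℕ → Bool := onCell 0 536870912 0 536870912 536870912 50465866
    (rowNE 3 eng mog cd0q0 cd0q2 pd2 0 false false false .pp 0 2 2 (qsf 0 536870912 0 536870912 2) ndB0q0 ndB0q2 pcB2 cut_mm_022_t Ext.none)

def k0_mm_022_t : ∃ t, chk3 f_mm_022_t t 1 1 1 = true :=
  ⟨(l 5), by decide +kernel⟩

theorem c_mm_022_t : CertNE 0 536870912 0 536870912 536870912 50465866 3 eng mog cd0q0 cd0q2 pd2 false false false .pp 0 2 2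
    ndB0q0 ndB0q2 pcB2 cut_mm_022_t Ext.none :=
  certNE0 (fam := false) (s1 := false) (s2 := false) (a := 0) (b := 2) (c := 2) (cn := .pp) (n1 := ndB0q0) (n2 := ndB0q2) (pc := pcB2) (cut := cut_mm_022_t) (xt := Ext.none) (P1 := 0) (W1 := 536870912) (P2 := 0) (W2 := 536870912) (P3 := 536870912) (W3 := 50465866) (N0 := 3) (En := eng) (mo := mog) (C1 := cd0q0) (C2 := cd0q2) (C3 := pd2)
    rfl k0_mm_022_t

noncomputable def cut_mm_101_s : Cut := Cut.of [[⟨4, 0, 0, 1449551462⟩]]

noncomputable def f_mm_101_s : ℕ → ℕ → ℕ → ℕ → Bool := onCell 536870912 536870912 536870912 536870912 536870912 50465866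
    (rowNE 3 eng mog cd0q1 cd0q1 pd0 0 false false false .npn 1 0 1 (qsf 536870912 536870912 536870912 536870912 0) ndB0q1 ndB0q1 pcB0 cut_mm_101_s Ext.none)

def k0_mm_101_s : ∃ t, chk3 f_mm_101_s t 1 1 1 = true :=
  ⟨(l 3), by decide +kernel⟩

theorem c_mm_101_s : CertNE 536870912 536870912 536870912 536870912 536870912 50465866 3 eng mog cd0q1 cd0q1 pd0 false false false .npn 1 0 1
    ndB0q1 ndB0q1 pcB0 cut_mm_101_s Ext.none :=
  certNE0 (fam := false) (s1 := false) (s2 := false) (a := 1) (b := 0) (c := 1) (cn := .npn) (n1 := ndB0q1) (n2 := ndB0q1) (pc := pcB0) (cut := cut_mm_101_s) (xt := Ext.none) (P1 := 536870912) (W1 := 536870912) (P2 := 536870912) (W2 := 536870912) (P3 := 536870912) (W3 := 50465866) (N0 := 3) (En := eng) (mo := mog) (C1 := cd0q1) (C2 := cd0q1) (C3 := pd0)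
    rfl k0_mm_101_s

noncomputable def cut_mm_101_t : Cut := Cut.of [[⟨3, 0, 0, 2845415833⟩]]

noncomputable def f_mm_101_t : ℕ → ℕ → ℕ → ℕ → Bool := onCell 536870912 536870912 536870912 536870912 536870912 50465866
    (rowNE 3 eng mog cd0q1 cd0q1 pd0 0 false false false .npn 1 0 1 (qsf 536870912 536870912 536870912 536870912 0) ndB0q1 ndB0q1 pcB0 cut_mm_101_t Ext.none)

def k0_mm_101_t : ∃ t, chk3 f_mm_101_t t 1 1 1 = true :=
  ⟨(l 3), by decide +kernel⟩

theorem c_mm_101_t : CertNE 536870912 536870912 536870912 536870912 536870912 50465866 3 eng mog cd0q1 cd0q1 pd0 false false false .npn 1 0 1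
    ndB0q1 ndB0q1 pcB0 cut_mm_101_t Ext.none :=
  certNE0 (fam := false) (s1 := false) (s2 := false) (a := 1) (b := 0) (c := 1) (cn := .npn) (n1 := ndB0q1) (n2 := ndB0q1) (pc := pcB0) (cut := cut_mm_101_t) (xt := Ext.none) (P1 := 536870912) (W1 := 536870912) (P2 := 536870912) (W2 := 536870912) (P3 := 536870912) (W3 := 50465866) (N0 := 3) (En := eng) (mo := mog) (C1 := cd0q1) (C2 := cd0q1) (C3 := pd0)
    rfl k0_mm_101_t

noncomputable def cut_mm_102_s : Cut := Cut.of [[⟨4, 0, 0, 1449551462⟩]]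

noncomputable def f_mm_102_s : ℕ → ℕ → ℕ → ℕ → Bool := onCell 536870912 536870912 0 536870912 536870912 50465866
    (rowNE 3 eng mog cd0q1 cd0q2 pd0 0 false false false .npp 1 0 2 (qsf 536870912 536870912 0 536870912 0) ndB0q1 ndB0q2 pcB0 cut_mm_102_s Ext.none)

def k0_mm_102_s : ∃ t, chk3 f_mm_102_s t 1 1 1 = true :=
  ⟨(a (l 5) (l 3)), by decide +kernel⟩

theorem c_mm_102_s : CertNE 536870912 536870912 0 536870912 536870912 50465866 3 eng mog cd0q1 cd0q2 pd0 false false false .npp 1 0 2
    ndB0q1 ndB0q2 pcB0 cut_mm_102_s Ext.none :=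
  certNE0 (fam := false) (s1 := false) (s2 := false) (a := 1) (b := 0) (c := 2) (cn := .npp) (n1 := ndB0q1) (n2 := ndB0q2) (pc := pcB0) (cut := cut_mm_102_s) (xt := Ext.none) (P1 := 536870912) (W1 := 536870912) (P2 := 0) (W2 := 536870912) (P3 := 536870912) (W3 := 50465866) (N0 := 3) (En := eng) (mo := mog) (C1 := cd0q1) (C2 := cd0q2) (C3 := pd0)
    rfl k0_mm_102_s

noncomputable def cut_mm_102_t : Cut := Cut.of [[⟨3, 0, 0, 2845415833⟩]]

noncomputable def f_mm_102_t : ℕ → ℕ → ℕ → ℕ → Bool := onCell 536870912 536870912 0 536870912 536870912 50465866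
    (rowNE 3 eng mog cd0q1 cd0q2 pd0 0 false false false .npp 1 0 2 (qsf 536870912 536870912 0 536870912 0) ndB0q1 ndB0q2 pcB0 cut_mm_102_t Ext.none)

def k0_mm_102_t : ∃ t, chk3 f_mm_102_t t 1 1 1 = true :=
  ⟨(l 6), by decide +kernel⟩

theorem c_mm_102_t : CertNE 536870912 536870912 0 536870912 536870912 50465866 3 eng mog cd0q1 cd0q2 pd0 false false false .npp 1 0 2
    ndB0q1 ndB0q2 pcB0 cut_mm_102_t Ext.none :=
  certNE0 (fam := false) (s1 := false) (s2 := false) (a := 1) (b := 0) (c := 2) (cn := .npp) (n1 := ndB0q1) (n2 := ndB0q2) (pc := pcB0) (cut := cut_mm_102_t) (xt := Ext.none) (P1 := 536870912) (W1 := 536870912) (P2 := 0) (W2 := 536870912) (P3 := 536870912) (W3 := 50465866) (N0 := 3) (En := eng) (mo := mog) (C1 := cd0q1) (C2 := cd0q2) (C3 := pd0)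
    rfl k0_mm_102_t

noncomputable def cut_mm_112_s : Cut := Cut.of [[⟨4, 0, 0, 1449551462⟩]]

noncomputable def f_mm_112_s : ℕ → ℕ → ℕ → ℕ → Bool := onCell 536870912 536870912 0 536870912 536870912 50465866
    (rowNE 3 eng mog cd0q1 cd0q2 pd1 2 false false false .dn 1 1 2 (qsf 536870912 536870912 0 536870912 1) ndB0q1 ndB0q2 pcB1 cut_mm_112_s Ext.none)

def k0_mm_112_s : ∃ t, chk3 f_mm_112_s t 1 1 1 = true :=
  ⟨(l 5), by decide +kernel⟩

theorem c_mm_112_s : CertNE 536870912 536870912 0 536870912 536870912 50465866 3 eng mog cd0q1 cd0q2 pd1 false false false .dn 1 1 2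
    ndB0q1 ndB0q2 pcB1 cut_mm_112_s Ext.none :=
  certNE2 (fam := false) (s1 := false) (s2 := false) (a := 1) (b := 1) (c := 2) (cn := .dn) (n1 := ndB0q1) (n2 := ndB0q2) (pc := pcB1) (cut := cut_mm_112_s) (xt := Ext.none) (P1 := 536870912) (W1 := 536870912) (P2 := 0) (W2 := 536870912) (P3 := 536870912) (W3 := 50465866) (N0 := 3) (En := eng) (mo := mog) (C1 := cd0q1) (C2 := cd0q2) (C3 := pd1)
    rfl (fun _ => rfl) k0_mm_112_s

noncomputable def cut_mm_112_t : Cut := Cut.of [[⟨3, 0, 0, 2845415833⟩]]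

noncomputable def f_mm_112_t : ℕ → ℕ → ℕ → ℕ → Bool := onCell 536870912 536870912 0 536870912 536870912 50465866
    (rowNE 3 eng mog cd0q1 cd0q2 pd1 0 false false false .dn 1 1 2 (qsf 536870912 536870912 0 536870912 1) ndB0q1 ndB0q2 pcB1 cut_mm_112_t Ext.none)

def k0_mm_112_t : ∃ t, chk3 f_mm_112_t t 1 1 1 = true :=
  ⟨(l 6), by decide +kernel⟩

theorem c_mm_112_t : CertNE 536870912 536870912 0 536870912 536870912 50465866 3 eng mog cd0q1 cd0q2 pd1 false false false .dn 1 1 2
    ndB0q1 ndB0q2 pcB1 cut_mm_112_t Ext.none :=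
  certNE0 (fam := false) (s1 := false) (s2 := false) (a := 1) (b := 1) (c := 2) (cn := .dn) (n1 := ndB0q1) (n2 := ndB0q2) (pc := pcB1) (cut := cut_mm_112_t) (xt := Ext.none) (P1 := 536870912) (W1 := 536870912) (P2 := 0) (W2 := 536870912) (P3 := 536870912) (W3 := 50465866) (N0 := 3) (En := eng) (mo := mog) (C1 := cd0q1) (C2 := cd0q2) (C3 := pd1)
    rfl k0_mm_112_t

noncomputable def cut_mm_202_s : Cut := Cut.of [[⟨4, 0, 0, 1449551462⟩]]

noncomputable def f_mm_202_s : ℕ → ℕ → ℕ → ℕ → Bool := onCell 0 536870912 0 536870912 536870912 50465866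
    (rowNE 3 eng mog cd0q2 cd0q2 pd0 0 false false false .pp 2 0 2 (qsf 0 536870912 0 536870912 0) ndB0q2 ndB0q2 pcB0 cut_mm_202_s Ext.none)

def k0_mm_202_s : ∃ t, chk3 f_mm_202_s t 1 1 1 = true :=
  ⟨(l 3), by decide +kernel⟩

theorem c_mm_202_s : CertNE 0 536870912 0 536870912 536870912 50465866 3 eng mog cd0q2 cd0q2 pd0 false false false .pp 2 0 2
    ndB0q2 ndB0q2 pcB0 cut_mm_202_s Ext.none :=
  certNE0 (fam := false) (s1 := false) (s2 := false) (a := 2) (b := 0) (c := 2) (cn := .pp) (n1 := ndB0q2) (n2 := ndB0q2) (pc := pcB0) (cut := cut_mm_202_s) (xt := Ext.none) (P1 := 0) (W1 := 536870912) (P2 := 0) (W2 := 536870912) (P3 := 536870912) (W3 := 50465866) (N0 := 3) (En := eng) (mo := mog) (C1 := cd0q2) (C2 := cd0q2) (C3 := pd0)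
    rfl k0_mm_202_s

noncomputable def cut_mm_202_t : Cut := Cut.of [[⟨3, 0, 0, 2845415833⟩]]

noncomputable def f_mm_202_t : ℕ → ℕ → ℕ → ℕ → Bool := onCell 0 536870912 0 536870912 536870912 50465866
    (rowNE 3 eng mog cd0q2 cd0q2 pd0 0 false false false .pp 2 0 2 (qsf 0 536870912 0 536870912 0) ndB0q2 ndB0q2 pcB0 cut_mm_202_t Ext.none)

def k0_mm_202_t : ∃ t, chk3 f_mm_202_t t 1 1 1 = true :=
  ⟨(l 3), by decide +kernel⟩

theorem c_mm_202_t : CertNE 0 536870912 0 536870912 536870912 50465866 3 eng mog cd0q2 cd0q2 pd0 false false false .pp 2 0 2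
    ndB0q2 ndB0q2 pcB0 cut_mm_202_t Ext.none :=
  certNE0 (fam := false) (s1 := false) (s2 := false) (a := 2) (b := 0) (c := 2) (cn := .pp) (n1 := ndB0q2) (n2 := ndB0q2) (pc := pcB0) (cut := cut_mm_202_t) (xt := Ext.none) (P1 := 0) (W1 := 536870912) (P2 := 0) (W2 := 536870912) (P3 := 536870912) (W3 := 50465866) (N0 := 3) (En := eng) (mo := mog) (C1 := cd0q2) (C2 := cd0q2) (C3 := pd0)
    rfl k0_mm_202_t

end Pool.Agent.Strip051.G.I5000_5470.Tab.CS.BB00

namespace Pool.Agent.Strip051.G.I5000_5470.Tab.CS.BB06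

open Pool.Agent.Strip051.PB Pool.Agent.Strip051.PB.T
open Pool.Agent.Strip051.G.I5000_5470.Tab

noncomputable def cut_pp_001_s : Cut := Cut.of [[⟨4, 0, 0, 1449551462⟩]]

noncomputable def f_pp_001_s : ℕ → ℕ → ℕ → ℕ → Bool := onCell 0 536870912 0 536870912 536870912 50465866
    (rowNE 3 eng mog cd0q0 cd6q1 pd0 1 false true true .up 0 0 1 (qsf 0 536870912 536870912 536870912 0) ndB0q0 ndB6q1 pcB0 cut_pp_001_s Ext.none)

def k0_pp_001_s : ∃ t, chk3 f_pp_001_s t 1 1 1 = true :=
  ⟨(l 3), by decide +kernel⟩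

theorem c_pp_001_s : CertNE 0 536870912 536870912 536870912 536870912 50465866 3 eng mog cd0q0 cd6q1 pd0 false true true .up 0 0 1
    ndB0q0 ndB6q1 pcB0 cut_pp_001_s Ext.none :=
  certNE1 (fam := false) (s1 := true) (s2 := true) (a := 0) (b := 0) (c := 1) (cn := .up) (n1 := ndB0q0) (n2 := ndB6q1) (pc := pcB0) (cut := cut_pp_001_s) (xt := Ext.none) (P1 := 0) (W1 := 536870912) (P2 := 536870912) (W2 := 536870912) (P3 := 536870912) (W3 := 50465866) (N0 := 3) (En := eng) (mo := mog) (C1 := cd0q0) (C2 := cd6q1) (C3 := pd0)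
    rfl (fun _ => rfl) k0_pp_001_s

noncomputable def cut_pp_011_s : Cut := Cut.of [[⟨4, 0, 0, 1449551462⟩], [⟨0, 0, 0, 67108864⟩, ⟨1, 1, 0, 67108864⟩, ⟨2, 1, 0, 67108864⟩]]

noncomputable def f_pp_011_s : ℕ → ℕ → ℕ → ℕ → Bool := onCell 0 536870912 536870912 536870912 536870912 50465866
    (rowNE 3 eng mog cd0q0 cd6q1 pd1 1 false true true .pnn 0 1 1 (qsf 0 536870912 536870912 536870912 1) ndB0q0 ndB6q1 pcB1 cut_pp_011_s Ext.none)

def k0_pp_011_s : ∃ t, chk3 f_pp_011_s t 1 1 1 = true :=
  ⟨(b (l 3) (a (b (l 3) (a (b (l 3) (a (b (l 3) (a (l 14) (l 3))) (l 3))) (l 3))) (l 3))), by decide +kernel⟩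

theorem c_pp_011_s : CertNE 0 536870912 536870912 536870912 536870912 50465866 3 eng mog cd0q0 cd6q1 pd1 false true true .pnn 0 1 1
    ndB0q0 ndB6q1 pcB1 cut_pp_011_s Ext.none :=
  certNE1 (fam := false) (s1 := true) (s2 := true) (a := 0) (b := 1) (c := 1) (cn := .pnn) (n1 := ndB0q0) (n2 := ndB6q1) (pc := pcB1) (cut := cut_pp_011_s) (xt := Ext.none) (P1 := 0) (W1 := 536870912) (P2 := 536870912) (W2 := 536870912) (P3 := 536870912) (W3 := 50465866) (N0 := 3) (En := eng) (mo := mog) (C1 := cd0q0) (C2 := cd6q1) (C3 := pd1)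
    rfl (fun _ => rfl) k0_pp_011_s

noncomputable def cut_pp_012_s : Cut := Cut.of [[⟨4, 0, 0, 1449551462⟩], [⟨0, 0, 0, 67108864⟩, ⟨1, 1, 0, 67108864⟩, ⟨2, 1, 0, 67108864⟩]]

noncomputable def f_pp_012_s : ℕ → ℕ → ℕ → ℕ → Bool := onCell 0 536870912 536870912 536870912 536870912 50465866
    (rowNE 3 eng mog cd0q0 cd6q2 pd1 1 false true true .pnp 0 1 2 (qsf 0 536870912 1073741824 536870912 1) ndB0q0 ndB6q2 pcB1 cut_pp_012_s Ext.none)

def k0_pp_012_s : ∃ t, chk3 f_pp_012_s t 1 1 1 = true :=
  ⟨(b (l 3) (a (b (l 3) (a (a (a (b (l 1) (b (l 3) (l 14))) (l 3)) (l 3)) (l 3))) (l 3))), by decide +kernel⟩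

theorem c_pp_012_s : CertNE 0 536870912 1073741824 536870912 536870912 50465866 3 eng mog cd0q0 cd6q2 pd1 false true true .pnp 0 1 2
    ndB0q0 ndB6q2 pcB1 cut_pp_012_s Ext.none :=
  certNE1 (fam := false) (s1 := true) (s2 := true) (a := 0) (b := 1) (c := 2) (cn := .pnp) (n1 := ndB0q0) (n2 := ndB6q2) (pc := pcB1) (cut := cut_pp_012_s) (xt := Ext.none) (P1 := 0) (W1 := 536870912) (P2 := 1073741824) (W2 := 536870912) (P3 := 536870912) (W3 := 50465866) (N0 := 3) (En := eng) (mo := mog) (C1 := cd0q0) (C2 := cd6q2) (C3 := pd1)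
    rfl (fun _ => rfl) k0_pp_012_s

noncomputable def cut_pp_022_s : Cut := Cut.of [[⟨4, 0, 0, 1449551462⟩], [⟨0, 0, 0, 67108864⟩, ⟨1, 1, 0, 67108864⟩, ⟨2, 1, 0, 67108864⟩]]

noncomputable def f_pp_022_s : ℕ → ℕ → ℕ → ℕ → Bool := onCell 0 536870912 1073741824 536870912 536870912 50465866
    (rowNE 3 eng mog cd0q0 cd6q2 pd2 1 false true true .pp 0 2 2 (qsf 0 536870912 1073741824 536870912 2) ndB0q0 ndB6q2 pcB2 cut_pp_022_s Ext.none)

def k0_pp_022_s : ∃ t, chk3 f_pp_022_s t 16 16 1 = true :=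
  ⟨(b (l 14) (a (l 14) (b (l 14) (a (l 14) (b (l 14) (a (l 14) (c (l 16750824) (l 16745512)))))))), by decide +kernel⟩

def k1_pp_022_s : ∃ t, chk3 f_pp_022_s t 34 16 1 = true :=
  ⟨(a (b (l 14) (b (b (l 14) (b (l 14) (a (l 14) (a (l 14) (b (l 14) (l 16769744)))))) (b (a (b (l 14) (l 16760904)) (b (c (l 16766328) (l 16766312)) (l 16762184))) (a (c (l 16754728) (l 16754672)) (c (l 16758616) (l 16758568)))))) (b (l 3) (b (b (a (a (l 14) (l 3)) (l 3)) (a (b (b (a (l 14) (b (a (l 14) (l 3)) (b (a (l 14) (l 3)) (a (l 16777936) (a (a (l 16777552) (l 246591522391)) (l 3)))))) (a (l 16775176) (a (l 16776640) (a (l 16777040) (b (b (c (l 158007821863) (l 156934080039)) (l 16776800)) (l 16776024)))))) (b (a (l 16773104) (l 16775048)) (a (a (l 16770544) (l 16770208)) (l 16772976)))) (a (b (b (l 3) (b (b (l 3) (a (a (l 145122919911) (l 3)) (l 3))) (b (a (a (l 16776768) (l 132774888871)) (l 3)) (a (l 16776488) (a (l 119889986935) (l 482277852023)))))) (b (a (l 16776504) (b (a (l 16776440) (b (l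 107005084935) (l 16776664))) (l 16775640))) (l 16774912))) (b (l 3) (b (a (b (b (l 474761659639) (a (l 16777800) (l 454897435383))) (c (l 16777592) (l 16777920))) (b (l 3) (b (l 455434306679) (a (l 16777728) (l 250886490167))))) (a (l 16776360) (b (l 16777848) (l 16775496)))))))) (b (b (b (a (a (a (l 16767168) (l 16770760)) (a (l 16770416) (l 16770072))) (a (l 16771528) (l 16774768))) (a (c (a (l 16765584) (l 16770144)) (l 16769168)) (a (a (l 16770280) (l 16769936)) (l 16771384)))) (a (c (l 16766064) (l 16766048)) (c (a (b (l 16770000) (l 16765304)) (b (l 16770624) (l 16769856))) (b (a (l 16767376) (l 16769304)) (l 16768888))))) (a (b (l 16764536) (l 16755152)) (b (c (l 16765776) (l 16768392)) (l 16764248))))))), by decide +kernel⟩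

def k2_pp_022_s : ∃ t, chk3 f_pp_022_s t 35 32 1 = true :=
  ⟨(l 3), by decide +kernel⟩

def k3_pp_022_s : ∃ t, chk3 f_pp_022_s t 35 66 1 = true :=
  ⟨(b (l 3) (a (a (a (b (l 3) (b (l 3) (a (b (b (l 437180695527) (a (l 16777000) (l 222969202599))) (l 16777776)) (b (l 3) (b (l 417853342551) (a (l 16776928) (l 194515044135))))))) (l 3)) (l 3)) (l 3))), by decide +kernel⟩

def k4_pp_022_s : ∃ t, chk3 f_pp_022_s t 35 134 1 = true :=
  ⟨(b (a (b (a (a (b (l 16777136) (l 16776176)) (a (b (b (a (l 180019529351) (l 3)) (a (l 16776848) (l 165524014647))) (l 16777624)) (b (l 3) (b (a (l 151028499959) (l 3)) (l 68887250471))))) (l 3)) (a (a (l 16774624) (a (l 16776064) (l 16777024))) (a (b (a (b (a (l 16777864) (l 482277852007)) (l 16777920)) (l 477446014631)) (b (a (l 16776416) (a (l 16777792) (l 275582552215))) (l 16777688))) (b (l 3) (a (l 460803016215) (l 3)))))) (l 3)) (a (a (a (b (l 16771232) (l 16770464)) (b (l 16774464) (l 16771080))) (a (b (l 16776384) (l 16775616)) (b (a (a (l 16777584)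 (b (b (l 243370297351) (l 16777008)) (l 16776232))) (b (l 444696888695) (a (l 16776712) (c (l 123111212919) (l 120426858359))))) (l 16776216)))) (a (b (b (l 3) (a (a (a (l 408189666087) (l 3)) (l 3)) (l 3))) (b (a (a (b (l 97341409015) (l 16776600)) (a (l 385104216711) (l 3))) (l 3)) (a (a (l 16775824) (a (l 16776536) (l 78550927047))) (a (a (a (l 177335175191) (l 344838899031)) (l 494089012551)) (l 3))))) (l 3)))), by decide +kernel⟩

def k5_pp_022_s : ∃ t, chk3 f_pp_022_s t 35 135 1 = true :=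
  ⟨(a (b (b (a (a (c (l 16769704) (l 16767080)) (l 16770304)) (c (l 16773184) (l 16774488))) (a (c (a (l 16765000) (l 16769544)) (l 16768584)) (c (l 16771104) (l 16769792)))) (b (a (l 16766504) (a (c (l 16769376) (l 16766752)) (l 16768664))) (a (l 16761800) (c (a (l 16764680) (l 16769200)) (l 16768256))))) (b (a (a (b (l 16776048) (l 16772656)) (b (b (a (l 16778000) (a (a (l 150491629255) (l 214379268391)) (l 464024241319))) (l 16777592)) (l 16775864))) (b (a (b (l 3) (b (l 467245467511) (a (l 140827953175) (l 3)))) (l 3)) (a (b (a (l 16777816) (a (l 130627405735) (l 414632117079))) (l 16777248)) (b (l 3) (a (b (l 400136602311) (l 16778080)) (l 3)))))) (b (a (l 16773320) (a (l 16775680) (a (l 16777104) (b (b (l 204715592295) (l 16778312)) (l 16776216))))) (a (c (l 16772056) (l 16769440)) (c (l 16775200) (l 16774544)))))), by decide +kernel⟩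

def k6_pp_022_s : ∃ t, chk3 f_pp_022_s t 8 17 1 = true :=
  ⟨(a (b (a (b (l 14) (a (l 14) (b (l 14) (l 16695064)))) (b (a (b (l 14) (l 16729840)) (b (a (l 16733408) (l 16742536)) (l 16737584))) (a (c (l 16717704) (l 16717408)) (a (l 16723312) (l 16727128))))) (a (b (a (l 16685288) (l 16682776)) (a (l 16658472) (l 16666376))) (b (a (l 16701080) (l 16708744)) (a (l 16674128) (l 16681736))))) (b (a (b (a (b (a (l 16746424) (l 16750304)) (a (l 16743392) (l 16736768))) (b (c (a (l 16748936) (l 16758024)) (a (l 16748880) (l 16757976))) (c (l 16747808) (l 16747712)))) (a (b (l 16733120) (l 16718288)) (b (c (l 16739528) (l 16734136)) (l 16733800)))) (b (b (a (a (c (l 16760544) (l 16761816)) (b (c (l 16765128) (l 16767736)) (l 16758336))) (b (b (a (a (l 16768368) (l 16768304)) (l 16773768)) (a (a (l 16764312) (l 16768832)) (l 16771672))) (a (c (l 16764760) (l 16767360)) (a (b (l 16768640) (l 16763928)) (b (l 16767912) (l 16768440)))))) (b (a (c (l 16752280) (l 16752216)) (a (l 16757960)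 (c (l 16764376) (l 16766960)))) (a (l 16753336) (c (l 16760944) (l 16760872))))) (a (b (c (l 16747136) (l 16747016)) (l 16738768)) (b (c (c (l 16754696) (l 16754672)) (l 16754584)) (c (l 16746344) (l 16746208)))))) (a (b (a (l 16716352) (b (l 16728128) (l 16709344))) (b (l 16707736) (l 16699448))) (b (a (b (l 16735696) (l 16727376)) (b (l 16737944) (l 16724352))) (b (a (l 16708568) (l 16716000)) (a (l 16700248) (l 16707664))))))), by decide +kernel⟩

def k7_pp_022_s : ∃ t, chk3 f_pp_022_s t 9 16 1 = true :=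
  ⟨(a (b (l 3) (b (l 3) (a (b (l 3) (a (b (l 3) (a (a (a (b (b (l 486035949287) (a (l 16778240) (l 179482659207))) (l 16776912)) (b (l 486572820951) (b (a (l 16776832) (l 153712855239)) (l 16776024)))) (b (l 3) (b (c (l 457581791463) (l 469392951463)) (a (a (l 16776728) (l 128479922391)) (l 429664502983))))) (l 3))) (l 3))) (l 3)))) (l 3)), by decide +kernel⟩

def k8_pp_022_s : ∃ t, chk3 f_pp_022_s t 18 68 1 = true :=
  ⟨(a (b (b (a (a (b (a (l 16776600) (a (l 16775392) (b (l 54391736359) (l 16775816)))) (l 16775456)) (b (a (b (a (l 408189666311) (l 3)) (a (l 16778064) (l 387251700551))) (l 3)) (b (a (l 16777488) (a (l 365239992967) (l 3))) (a (l 16775136) (a (l 16776544) (a (l 135459244135) (l 256255200359))))))) (l 3)) (b (a (a (l 16773360) (a (l 16773560) (l 16777408))) (a (a (b (a (a (l 16778448) (l 228337912727)) (l 3)) (a (l 16776320) (c (l 139217341111) (l 136532986535)))) (l 487646563703)) (l 3))) (a (a (l 16771264) (l 16775024)) (a (a (l 16777832) (b (a (l 117205633543)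 (l 467782338023)) (c (l 71571605111) (l 16777864)))) (a (c (l 472077306887) (l 484962208679)) (l 3)))))) (a (b (b (a (c (l 16769184) (l 16766528)) (l 16772928)) (a (c (l 16767096) (l 16764432)) (l 16768208))) (a (c (l 16763952) (l 16761288)) (b (l 16768072) (a (l 16763080) (l 16764944))))) (b (b (a (l 16776344) (b (a (a (l 16778216) (l 421074568247)) (l 3)) (a (l 16777632) (c (l 423758923431) (l 432348857975))))) (a (l 16774568) (b (a (l 16775272) (a (l 16776672) (a (l 174113950183) (l 291688680743)))) (l 16777448)))) (a (c (l 16771424) (l 16774024)) (c (l 16775472) (l 16775128)))))) (b (l 3) (a (a (a (a (b (b (l 3) (b (l 3) (l 186461981911))) (l 16777136)) (b (l 3) (b (b (l 163913403287) (l 16776296)) (l 16774712)))) (b (l 3) (a (b (b (l 3) (l 140827953815)) (l 16775640)) (b (l 499457722839) (a (l 16778960) (l 83382766295)))))) (a (b (l 3) (b (l 3) (b (l 472614176903) (a (l 16778272) (l 435033212039))))) (l 3))) (l 3)))), by decide +kernel⟩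

def k9_pp_022_s : ∃ t, chk3 f_pp_022_s t 18 69 1 = true :=
  ⟨(a (b (a (a (c (l 16760304) (l 16754984)) (b (c (l 16763504) (l 16760832)) (l 16756664))) (b (a (c (b (l 16765656) (l 16766184)) (l 16767176)) (l 16770928)) (a (c (l 16763024) (l 16760352)) (c (b (l 16765160) (l 16765680)) (l 16766672))))) (a (c (l 16753800) (l 16753688)) (b (a (l 16756176) (c (l 16762512) (l 16759840))) (c (l 16759088) (l 16753760))))) (b (a (b (b (a (l 16775688) (a (l 16778464) (b (l 437717567159) (a (l 16776696) (l 222432333351))))) (a (l 16770952) (c (l 16777272) (l 16777264)))) (a (l 16770408) (c (l 16774104) (l 16774080)))) (a (a (b (b (l 3) (b (c (l 400136602839) (l 404968441015)) (c (l 77477186775) (l 71034735815)))) (l 16776856)) (b (l 3) (b (b (a (l 16778512) (l 486572819991)) (l 16778568)) (l 16775016)))) (b (l 3) (b (a (l 480667241383) (l 3)) (b (a (a (l 16778232) (l 269676973991)) (l 3)) (a (l 16778936) (l 433959470631))))))) (a (b (a (b (l 16764616) (l 16765120)) (l 16769856)) (a (c (l 16764592)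 (l 16759304)) (a (l 16764704) (l 16763912)))) (b (a (l 16774840) (a (l 16776280) (a (l 16777656) (b (b (l 214916140439) (l 16776480)) (l 16774880))))) (a (l 16771904) (l 16772936)))))), by decide +kernel⟩

def k10_pp_022_s : ∃ t, chk3 f_pp_022_s t 19 34 1 = true :=
  ⟨(b (l 3) (a (b (l 3) (a (b (a (b (a (a (a (l 381882991367) (l 451676210727)) (l 3)) (l 3)) (b (a (l 67276639399) (l 498920851751)) (a (l 16775720) (a (l 16778400) (l 467245466919))))) (l 3)) (a (a (l 16775672) (c (l 16778152) (l 16778800))) (b (a (b (l 459192403735) (c (l 161765919303) (l 155323469655))) (l 3)) (a (l 16778248) (b (l 416242730215) (a (l 16776456) (l 186998852519))))))) (l 3))) (l 3))), by decide +kernel⟩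

def k11_pp_022_s : ∃ t, chk3 f_pp_022_s t 18 35 1 = true :=
  ⟨(b (a (a (b (c (l 16750664) (l 16740040)) (l 16742224)) (b (c (l 16752768) (l 16752672)) (l 16744304))) (b (a (a (l 16758232) (c (b (l 16764008) (l 16754528)) (l 16761856))) (b (a (a (l 16764120) (l 16763320)) (l 16771296)) (a (l 16763392) (c (l 16764408) (l 16761760))))) (a (a (l 16755008) (l 16753392)) (a (l 16757008) (b (l 16762752) (l 16753240)))))) (a (b (a (l 16723344) (l 16741112)) (c (l 16729176) (l 16728928))) (b (a (l 16748336) (l 16752896)) (a (l 16729376) (l 16746984))))), by decide +kernel⟩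

def k12_pp_022_s : ∃ t, chk3 f_pp_022_s t 19 35 1 = true :=
  ⟨(b (a (b (a (b (a (l 16774928) (c (l 16775944) (l 16775936))) (c (l 16772472) (l 16772456))) (a (b (a (b (b (c (l 372219314871) (l 215453012631)) (l 16777888)) (l 16774968)) (b (l 486572821271) (b (a (l 16776864) (l 269676973847)) (l 16776240)))) (l 16775920)) (a (b (a (b (l 3) (l 434496341479)) (l 3)) (b (b (l 88214605191) (l 16775896)) (l 16774280))) (b (l 3) (b (b (l 3) (l 382956733175)) (l 16778712)))))) (a (b (a (c (l 16766400) (l 16761112)) (l 16764744)) (a (l 16762152) (l 16765728))) (b (a (l 16773600) (l 16775896)) (l 16772464)))) (b (a (b (l 3) (a (b (l 3) (b (l 499994594695) (a (c (l 185388240887) (l 178945789911)) (l 3)))) (l 3))) (l 3)) (b (a (a (b (a (l 16778352) (b (l 436106954087) (l 134922374551))) (l 16777104)) (b (l 3) (a (b (l 384567345895) (l 16779240)) (l 497847110407)))) (l 3)) (a (a (l 16776512) (a (l 16776560) (a (l 16778544) (b (a (l 135996116087) (l 203641851895)) (l 16775080))))) (a (b (a (c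 (l 456508049591) (l 461876758631)) (l 3)) (a (c (l 60297317911) (l 16779016)) (c (c (l 415705859623) (l 418390214151)) (l 420000826839)))) (l 3)))))) (a (b (a (a (l 16760976) (c (l 16759640) (l 16764568))) (a (b (l 16765136) (l 16766248)) (b (l 16763496) (l 16764544)))) (a (l 16748832) (b (l 16758280) (l 16748496)))) (b (a (b (c (l 16774120) (l 16773976)) (l 16769864)) (a (b (c (c (l 16778712) (l 16778024)) (l 16778640)) (l 16775096)) (b (b (b (l 499994594471) (a (l 173577079351) (l 3))) (a (l 16778256) (a (l 166597757271) (l 400673473463)))) (c (l 16778608) (l 16778528))))) (b (a (a (l 16763616) (l 16761960)) (l 16773776)) (a (a (l 16753768) (l 16762536)) (l 16767872)))))), by decide +kernel⟩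

def k13_pp_022_s : ∃ t, chk3 f_pp_022_s t 5 8 1 = true :=
  ⟨(a (b (l 3) (b (l 3) (a (b (l 3) (a (b (a (a (a (b (l 520932561671) (b (a (l 16777840) (a (l 167671500263) (l 236390977847))) (l 16774856))) (b (l 3) (b (l 482814724487) (b (l 154786598519) (l 16776040))))) (b (l 3) (b (l 3) (b (l 3) (a (c (l 400136602471) (l 250886493159)) (l 3)))))) (l 3)) (a (b (a (l 16777704) (b (a (l 16778760) (a (a (l 175724563991) (l 244980912471)) (l 476372272871))) (l 16778768))) (a (l 16767960) (l 16776736))) (a (b (b (l 3) (a (a (l 181630142951) (l 415168988167)) (l 3))) (b (b (a (l 16775800) (a (l 16777104) (l 493552141511))) (l 16778184)) (l 16779136))) (b (l 3) (b (a (l 493015271815) (l 3)) (b (a (l 163913404007) (l 3)) (a (l 16775976) (l 404968440583)))))))) (l 3))) (l 3)))) (l 3)), by decide +kernel⟩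

def k14_pp_022_s : ∃ t, chk3 f_pp_022_s t 4 9 1 = true :=
  ⟨(b (a (a (b (a (a (l 16654816) (l 16662568)) (b (l 16682264) (l 16644840))) (a (b (l 16612976) (l 16596728)) (b (l 16628432) (l 16612104)))) (b (a (b (l 16692280) (l 16670512)) (b (a (l 16687784) (l 16695152)) (l 16685320))) (a (a (l 16652544) (l 16659944)) (b (l 16658168) (l 16641520))))) (b (a (a (b (a (b (l 16706616) (l 16698248)) (l 16720080)) (a (l 16685672) (l 16703256))) (b (a (l 16727176) (c (l 16734344) (l 16734040))) (a (l 16710256) (l 16717168)))) (b (a (a (c (l 16741320) (l 16741064)) (b (l 16752504) (l 16733360))) (b (a (c (l 16755568) (l 16759424)) (a (b (l 16761672) (l 16752040)) (b (l 16759936) (l 16760768)))) (a (l 16750752) (c (l 16757712) (l 16747072))))) (a (a (l 16724024) (l 16730832)) (a (c (l 16737752) (l 16737448)) (c (l 16744504) (l 16744248)))))) (a (a (b (l 16682872) (l 16655496)) (b (a (l 16682760) (l 16700056)) (l 16669008))) (a (b (a (l 16696272) (l 16723888)) (a (l 16678912) (l 16685392)))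 (b (a (l 16730496) (l 16737096)) (l 16716008)))))) (a (a (a (b (l 16593528) (l 16540824)) (b (l 16608712) (l 16555616))) (b (a (l 16623392) (l 16637528)) (a (l 16569800) (l 16604264)))) (b (a (a (b (l 16638552) (l 16621552)) (b (l 16651736) (l 16634352))) (a (b (l 16685512) (l 16646720)) (b (l 16698024) (l 16679776)))) (a (a (l 16617040) (l 16629168)) (b (l 16666064) (l 16658192)))))), by decide +kernel⟩

def k15_pp_022_s : ∃ t, chk3 f_pp_022_s t 20 36 1 = true :=
  ⟨(b (a (b (b (a (l 16770448) (a (l 16775744) (a (l 16778400) (b (l 16778672) (l 16773800))))) (a (l 16766008) (l 16774336))) (a (a (a (l 16756736) (l 16758472)) (b (l 16758056) (l 16753600))) (b (l 16768536) (l 16764048)))) (b (a (a (b (b (b (l 522543172743) (a (l 192904432343) (l 3))) (a (l 16778192) (b (l 433422599191) (l 16778744)))) (l 16776992)) (a (b (l 538112430679) (b (b (l 218137365575) (l 16776280)) (l 16774576))) (b (l 3) (b (l 484962207847) (a (l 16775896) (l 89825217207)))))) (b (l 3) (b (l 3) (a (a (b (l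 3) (l 239612202263)) (l 3)) (l 3))))) (a (b (a (l 16773776) (l 16777288)) (l 16770992)) (b (a (a (l 16778616) (b (b (l 479593498023) (l 189683206663)) (l 16775296))) (b (l 3) (a (a (l 16778592) (a (l 205252464311) (l 275045683751))) (l 515026979239)))) (a (l 16776224) (a (l 16776232) (b (b (l 203641850535) (l 16775944)) (l 16774216)))))))) (a (b (a (l 16755672) (b (c (l 16759616) (l 16764696)) (l 16755040))) (a (l 16736232) (l 16753504))) (b (a (b (l 16771688) (l 16761904)) (b (l 16774696) (l 16768784))) (a (a (l 16758592) (c (l 16762064) (l 16761904))) (b (l 16769424) (l 16764808)))))), by decide +kernel⟩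

def k16_pp_022_s : ∃ t, chk3 f_pp_022_s t 21 36 1 = true :=
  ⟨(b (a (b (l 3) (a (a (b (l 3) (b (a (b (l 3) (l 411410891431)) (l 3)) (a (l 16778592) (b (l 505363302023) (l 210084301575))))) (l 3)) (l 3))) (l 3)) (a (b (a (b (a (c (l 16778624) (l 16778608)) (b (a (b (l 416242729719) (l 16779216)) (l 524690655799)) (a (l 16774840) (b (l 212231785271) (l 16776016))))) (a (l 16773976) (l 16776144))) (a (b (b (l 3) (a (a (l 431275115495) (l 553144813927)) (l 3))) (b (a (l 16778632) (b (l 510195140295) (l 210084301623))) (l 16777160))) (b (l 3) (b (l 3) (a (b (l 414632116983) (l 16779200)) (l 522006301207)))))) (a (c (l 16772680) (l 16773920)) (b (a (l 16776248) (a (l 16778864) (a (l 16777552) (b (l 173577079911) (l 16774616))))) (l 16774576)))) (b (l 3) (a (a (b (b (a (a (l 422148309911) (l 553144813847)) (l 3)) (a (l 16778560) (a (l 217063623239) (l 457044919607)))) (c (l 16778472) (l 16778464))) (b (l 3) (b (a (a (l 16778584) (l 258402684215)) (l 503752690007)) (a (l 16774648) (a (l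 16775960) (l 140291083047)))))) (b (l 3) (b (l 3) (a (a (c (l 423222052183) (l 426443277591)) (l 3)) (l 3)))))))), by decide +kernel⟩

def k17_pp_022_s : ∃ t, chk3 f_pp_022_s t 10 37 1 = true :=
  ⟨(a (a (b (a (l 16733232) (l 16742488)) (l 16725560)) (b (b (a (l 16751112) (a (l 16756144) (l 16760824))) (l 16747824)) (c (l 16739088) (l 16741632)))) (b (a (b (a (b (l 16766936) (l 16762240)) (c (l 16768776) (l 16771344))) (a (l 16758088) (b (l 16764232) (l 16759440)))) (b (a (b (a (l 16773680) (l 16774528)) (l 16773208)) (b (a (a (l 16778456) (b (a (l 154786599079) (l 418390213623)) (l 16775056))) (b (l 559587266823) (a (c (l 152639114471) (l 16779432)) (l 469392951239)))) (a (l 16775768) (b (l 16779168) (l 16772776))))) (a (l 16767264) (a (l 16768432) (l 16774472))))) (a (a (l 16746112) (b (l 16752200) (l 16732000))) (b (a (b (l 16761280) (l 16756360)) (l 16765488)) (a (l 16759792) (l 16757488)))))), by decide +kernel⟩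

def k18_pp_022_s : ∃ t, chk3 f_pp_022_s t 11 18 1 = true :=
  ⟨(b (l 3) (a (b (a (b (a (b (l 3) (a (a (b (c (l 387788571511) (l 247128398247)) (l 16775408)) (b (l 3) (a (l 16779344) (l 228337914983)))) (a (l 545628623143) (l 3)))) (l 3)) (a (a (b (l 16777808) (l 16767592)) (b (b (a (l 16779064) (l 422685181287)) (l 16780072)) (l 16776336))) (b (a (a (b (l 3) (l 232632881175)) (l 559587267271)) (l 3)) (b (a (c (l 16779112) (l 16778456)) (l 477982886919)) (a (l 16773352) (a (l 16775944) (l 224579819655))))))) (a (l 3) (l 3))) (a (b (a (c (l 16772648) (l 16772352)) (b (a (l 16769648) (l 16778336)) (l 16776968))) (a (c (l 16763120) (l 16762656)) (l 16769760))) (b (a (a (b (b (a (l 16779536) (l 469392951303)) (l 16780504)) (l 16771592)) (b (b (l 3) (l 425369536535)) (c (l 47412417047) (l 16780168)))) (a (b (l 3) (b (l 528448753015) (l 164450278839))) (l 3))) (a (a (l 16774808) (l 16778144)) (b (a (l 16773400) (b (l 233169757031) (l 16775448))) (l 16775440)))))) (b (l 3) (a (b (l 3) (a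 (a (b (l 495162757015) (l 16780264)) (b (l 3) (a (l 221895465175) (l 472614177399)))) (l 3))) (l 3))))), by decide +kernel⟩

def k19_pp_022_s : ∃ t, chk3 f_pp_022_s t 5 19 1 = true :=
  ⟨(a (b (a (a (b (l 16710400) (l 16691696)) (b (l 16722736) (l 16705520))) (b (a (a (l 16733000) (l 16739936)) (a (l 16736296) (l 16745672))) (a (c (l 16720200) (l 16719120)) (a (l 16730128) (l 16736856))))) (a (b (a (l 16674824) (l 16694192)) (a (l 16637424) (l 16683328))) (b (a (l 16703272) (l 16722504)) (a (b (l 16691392) (l 16683528)) (l 16712352))))) (b (a (b (a (b (a (l 16754016) (c (l 16759304) (l 16760096))) (c (l 16750968) (l 16758728))) (b (a (l 16767016) (l 16773536)) (a (l 16756560) (l 16764208)))) (a (a (l 16743312) (l 16739056)) (b (a (l 16738816) (l 16755384)) (l 16744000)))) (b (a (b (b (a (l 16777088) (a (a (l 16781000) (l 217600497751)) (l 484425338407))) (a (l 16777584) (a (l 16771816) (l 16780120)))) (a (l 16770568) (c (l 16776896) (l 16776656)))) (b (a (a (b (l 3) (a (l 208473691911)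 (l 421611440215))) (l 555829175127)) (l 3)) (a (b (c (a (l 16773272) (l 156397213303)) (l 85530254743)) (l 16780528)) (b (a (c (l 437180697383) (l 429664504519)) (l 3)) (a (l 16779720) (a (l 170892727335) (l 263234528743))))))) (b (a (a (l 16761280) (l 16778024)) (a (l 16773568) (a (l 16778008) (l 16780920)))) (a (a (l 16742304) (l 16758392)) (a (l 16774760) (l 16780752)))))) (a (b (a (c (l 16730968) (l 16729464)) (c (l 16742872) (l 16741664))) (a (a (l 16712080) (l 16718568)) (a (l 16724872) (l 16730968)))) (b (a (a (l 16750824) (l 16745936)) (b (a (l 16765888) (l 16760752)) (l 16749656))) (a (b (l 16721504) (l 16736760)) (b (l 16753032) (l 16726984))))))), by decide +kernel⟩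

def k20_pp_022_s : ∃ t, chk3 f_pp_022_s t 4 5 1 = true :=
  ⟨(b (b (b (b (a (a (l 16527416) (l 16552136)) (a (l 16597304) (l 16646120))) (a (a (a (l 16502384) (l 16516432)) (l 16536024)) (a (l 16559056) (l 16602496)))) (b (a (a (a (l 16508776) (l 16501408)) (a (l 16514080) (l 16525832))) (a (l 16583608) (a (l 16557400) (l 16594552)))) (a (b (a (a (l 16477472) (l 16490952)) (l 16508744)) (b (a (a (l 16493712) (l 16507560)) (a (l 16498640) (l 16509432))) (b (b (b (a (l 16499400) (l 16503112)) (b (a (l 16499304) (l 16503264)) (a (a (l 16471168) (l 16485408)) (a (l 16498056) (l 16508760))))) (a (l 16477808) (l 16503024))) (a (l 16476352) (l 16501456))))) (b (a (l 16528912) (l 16615824)) (b (a (l 16523672) (a (l 16535616) (l 16551920))) (a (a (a (l 16556408) (l 16560912)) (l 16525272)) (a (l 16553832) (l 16594064)))))))) (b (a (a (a (b (l 16460584) (l 16445440)) (b (l 16474592) (l 16458776))) (a (l 16541192) (l 16488192))) (a (a (l 16496912) (l 16504480)) (l 16557416))) (a (a (a (l 16422472)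 (l 16434264)) (l 16431784)) (a (l 16483264) (l 16510280))))) (a (b (a (a (l 16457888) (l 16341048)) (b (l 16412184) (l 16373920))) (a (l 16348616) (l 16385448))) (a (b (l 16496128) (a (l 16353976) (l 16375544))) (a (b (l 16442816) (l 16397416)) (b (l 16463352) (l 16419144)))))), by decide +kernel⟩

def k21_pp_022_s : ∃ t, chk3 f_pp_022_s t 5 5 1 = true :=
  ⟨(b (b (b (a (a (a (b (l 16621032) (l 16604568)) (b (l 16635912) (l 16641136))) (b (a (l 16682144) (c (l 16708464) (l 16705304))) (a (l 16656192) (l 16691296)))) (b (a (a (a (l 16696224) (l 16703448)) (a (l 16710248) (l 16716856))) (a (a (l 16723264) (l 16729448)) (c (l 16739464) (l 16737104)))) (a (a (c (l 16707136) (l 16702720)) (c (l 16719928) (l 16715656))) (a (l 16731072) (l 16743544))))) (b (a (a (a (l 16632128) (b (l 16609128) (l 16604272))) (b (a (l 16624744) (l 16639504)) (a (l 16620824) (l 16636560)))) (a (b (a (l 16653128) (l 16665536)) (a (l 16651232) (l 16664880))) (b (a (l 16698768) (l 16689752)) (a (l 16677120)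 (l 16689000))))) (b (a (a (a (l 16600568) (l 16618448)) (a (l 16614904) (l 16631568))) (a (b (l 16697816) (l 16695232)) (c (l 16728384) (l 16719392)))) (a (b (a (a (l 16580800) (l 16630576)) (a (l 16648496) (l 16665704))) (b (b (b (a (l 16588952) (l 16629912)) (a (c (l 16634224) (l 16619736)) (a (l 16638136) (l 16655296)))) (a (l 16567248) (l 16623600))) (a (l 16566056) (l 16622464)))) (b (a (a (l 16681920) (l 16697176)) (a (l 16690472) (l 16703632))) (b (b (b (a (l 16662456) (l 16669944)) (a (a (l 16671480) (l 16686712)) (a (l 16680000) (l 16693144)))) (a (l 16634856) (l 16662976))) (a (l 16633760) (l 16661880)))))))) (a (a (a (l 16593800) (l 16612656)) (b (c (l 16654584) (l 16648832)) (l 16628432))) (a (b (a (l 16613656) (l 16628848)) (l 16661416)) (a (l 16694112) (l 16706384))))) (a (a (b (a (l 16525728) (l 16524680)) (a (l 16440352) (l 16460664))) (b (a (l 16543768) (l 16540712)) (l 16592536))) (b (a (b (l 16596912) (l 16553144)) (b (l 16602560) (l 16579976))) (a (l 16582608)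 (b (l 16557232) (l 16534120)))))), by decide +kernel⟩

def k22_pp_022_s : ∃ t, chk3 f_pp_022_s t 2 3 1 = true :=
  ⟨(b (a (b (a (a (a (l 16323920) (l 16344488)) (a (l 16368176) (l 16412160))) (b (a (a (l 16310144) (l 16333104)) (l 16429760)) (a (l 16302136) (l 16326416)))) (a (l 6) (b (a (l 16243280) (l 16289416)) (l 6)))) (b (a (a (b (l 16471288) (l 16367984)) (b (l 16466488) (l 16403808))) (a (b (l 16474904) (l 16438336)) (b (l 16502688) (l 16472888)))) (a (b (a (l 16330160) (l 16371824)) (l 6)) (a (l 16449880) (l 2))))) (l 6)), by decide +kernel⟩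

def k23_pp_022_s : ∃ t, chk3 f_pp_022_s t 3 4 1 = true :=
  ⟨(b (l 3) (a (b (l 3) (a (b (a (b (a (b (l 3) (a (b (l 3) (a (l 527911883095) (l 3))) (l 3))) (l 3)) (a (b (a (b (a (l 109152572503) (a (l 238001595255) (l 460803017399))) (l 16777672)) (b (l 3) (a (l 163376535895) (l 440938793847)))) (a (l 16776008) (c (l 16780976) (l 16781520)))) (b (l 3) (a (b (a (l 215453018167) (l 509121400711)) (a (l 16772928) (l 16780760))) (b (l 3) (a (l 259476434247) (l 3))))))) (l 3)) (a (b (a (a (b (l 16777176) (l 16757080)) (b (l 16782840) (l 16772800))) (b (a (l 16777840) (a (l 16781856) (b (l 16780160) (l 16771712)))) (a (l 16778720) (l 16773728)))) (a (b (l 16755064) (l 16737192)) (b (a (l 16756664) (l 16775128)) (l 16755896)))) (b (a (b (a (b (a (l 294909915383) (l 3)) (c (l 138143604247) (l 16780728))) (b (l 3) (l 463487373079))) (a (l 16779048) (b (a (l 16774752) (l 218674240279)) (l 16771360)))) (b (l 3) (a (b (l 473687920535) (c (l 175724569159) (l 16781648))) (l 487646566503)))) (b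 (a (c (l 16777816) (l 16782976)) (b (a (l 16782200) (c (l 177335186503) (l 16783216))) (a (l 16767584) (l 16772208)))) (a (b (l 16777928) (l 16774776)) (c (l 16774824) (l 16785088))))))) (b (l 3) (a (b (l 3) (b (a (a (b (l 473687920199) (l 180019539623)) (l 474761663751)) (l 3)) (a (b (a (l 16772552) (l 178408926231)) (l 16781224)) (b (l 465634857543) (a (l 173577087367) (l 452213082743)))))) (l 3))))) (l 3))), by decide +kernel⟩

def k24_pp_022_s : ∃ t, chk3 f_pp_022_s t 6 20 1 = true :=
  ⟨(b (a (b (a (a (b (l 16752528) (l 16745704)) (c (l 16759896) (l 16758288))) (b (a (a (l 16747800) (l 16751984)) (c (l 16768232) (l 16778144))) (a (l 16743632) (b (l 16753416) (l 16750216))))) (a (a (l 16744488) (b (l 16748544) (l 16740056))) (a (b (l 16736656) (l 16728224)) (b (l 16745080) (l 16736928))))) (b (a (b (a (l 16775968) (a (l 16781584) (b (l 16782312) (l 16772904)))) (a (b (l 16760808) (l 16757680)) (l 16776800))) (b (a (b (l 435033214279) (a (l 16781264) (l 369534970391))) (l 3))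 (a (b (a (l 16772824) (l 16775728)) (l 16781632)) (b (l 386714841175) (c (l 187535739351) (l 186998868343)))))) (a (b (a (l 16774608) (l 16766496)) (a (l 16745792) (l 16754336))) (b (a (l 16779752) (c (l 16783264) (l 16782296))) (a (b (l 16762248) (l 16759600)) (l 22112374071)))))) (b (a (a (b (a (l 16700944) (l 16710912)) (a (l 16699448) (l 16708120))) (b (a (l 16719664) (l 16728152)) (a (l 16715960) (l 16723352)))) (a (b (a (l 16736864) (l 16745176)) (a (l 16730872) (l 16737896))) (b (a (l 16774456) (b (l 16761992) (l 2))) (a (l 16744368) (l 2))))) (a (a (b (a (l 16741056) (b (l 16707800) (l 16708384))) (b (a (l 16715576) (l 16694752)) (b (b (b (l 16693704) (a (l 16705064) (l 16673720))) (l 16686328)) (l 16685192)))) (a (b (l 16694776) (b (l 16756616) (c (l 16750592) (l 16685976)))) (b (l 16721320) (b (c (l 16727168) (l 16717776)) (c (l 16760912) (l 16696152)))))) (a (b (a (l 16748200) (l 16753432)) (b (a (l 16707736) (l 16732504)) (b (b (b (l 16729912) (a (l 16704168) (l 16711208)))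 (l 16726048)) (l 16724872)))) (a (b (l 26944132871) (b (l 16725424) (l 16755896))) (l 2)))))), by decide +kernel⟩

def k25_pp_022_s : ∃ t, chk3 f_pp_022_s t 6 21 1 = true :=
  ⟨(a (a (a (b (l 16667048) (l 16643240)) (l 16728616)) (b (l 16692392) (l 16667976))) (a (b (l 16762128) (l 16683040)) (b (l 16762608) (l 2)))), by decide +kernel⟩

def k26_pp_022_s : ∃ t, chk3 f_pp_022_s t 6 11 1 = true :=
  ⟨(a (b (a (b (l 16625200) (l 16601096)) (b (l 16642944) (l 16618504))) (a (l 16566128) (l 16588112))) (a (b (l 16689592) (l 2)) (l 2))), by decide +kernel⟩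

def k27_pp_022_s : ∃ t, chk3 f_pp_022_s t 7 5 1 = true :=
  ⟨(b (b (b (b (b (l 3) (l 2)) (l 2)) (l 2)) (l 2)) (l 2)), by decide +kernel⟩

def k28_pp_022_s : ∃ t, chk3 f_pp_022_s t 3 3 1 = true :=
  ⟨(a (b (a (b (b (a (l 16530216) (l 2)) (l 2)) (l 2)) (l 2)) (l 2)) (l 2)), by decide +kernel⟩

theorem s29_pp_022_s : ∃ t, chk3 f_pp_022_s t 6 10 1 = true := ex3_b k24_pp_022_s k25_pp_022_s

theorem s30_pp_022_s : ∃ t, chk3 f_pp_022_s t 6 5 1 = true := ex3_b s29_pp_022_s k26_pp_022_s

theorem s31_pp_022_s : ∃ t, chk3 f_pp_022_s t 3 5 1 = true := ex3_a s30_pp_022_s k27_pp_022_s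

theorem s32_pp_022_s : ∃ t, chk3 f_pp_022_s t 3 2 1 = true := ex3_b k23_pp_022_s s31_pp_022_s

theorem s33_pp_022_s : ∃ t, chk3 f_pp_022_s t 3 1 1 = true := ex3_b s32_pp_022_s k28_pp_022_s

theorem s34_pp_022_s : ∃ t, chk3 f_pp_022_s t 2 5 1 = true := ex3_a k20_pp_022_s k21_pp_022_s

theorem s35_pp_022_s : ∃ t, chk3 f_pp_022_s t 10 36 1 = true := ex3_a k15_pp_022_s k16_pp_022_s

theorem s36_pp_022_s : ∃ t, chk3 f_pp_022_s t 10 18 1 = true := ex3_b s35_pp_022_s k17_pp_022_s

theorem s37_pp_022_s : ∃ t, chk3 f_pp_022_s t 5 18 1 = true := ex3_a s36_pp_022_s k18_pp_022_s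

theorem s38_pp_022_s : ∃ t, chk3 f_pp_022_s t 5 9 1 = true := ex3_b s37_pp_022_s k19_pp_022_s

theorem s39_pp_022_s : ∃ t, chk3 f_pp_022_s t 2 9 1 = true := ex3_a k14_pp_022_s s38_pp_022_s

theorem s40_pp_022_s : ∃ t, chk3 f_pp_022_s t 9 35 1 = true := ex3_a k11_pp_022_s k12_pp_022_s

theorem s41_pp_022_s : ∃ t, chk3 f_pp_022_s t 18 34 1 = true := ex3_b k8_pp_022_s k9_pp_022_s

theorem s42_pp_022_s : ∃ t, chk3 f_pp_022_s t 9 34 1 = true := ex3_a s41_pp_022_s k10_pp_022_s

theorem s43_pp_022_s : ∃ t, chk3 f_pp_022_s t 9 17 1 = true := ex3_b s42_pp_022_s s40_pp_022_s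

theorem s44_pp_022_s : ∃ t, chk3 f_pp_022_s t 9 8 1 = true := ex3_b k7_pp_022_s s43_pp_022_s

theorem s45_pp_022_s : ∃ t, chk3 f_pp_022_s t 35 67 1 = true := ex3_b k4_pp_022_s k5_pp_022_s

theorem s46_pp_022_s : ∃ t, chk3 f_pp_022_s t 35 33 1 = true := ex3_b k3_pp_022_s s45_pp_022_s

theorem s47_pp_022_s : ∃ t, chk3 f_pp_022_s t 35 16 1 = true := ex3_b k2_pp_022_s s46_pp_022_s

theorem s48_pp_022_s : ∃ t, chk3 f_pp_022_s t 17 16 1 = true := ex3_a k1_pp_022_s s47_pp_022_s

theorem s49_pp_022_s : ∃ t, chk3 f_pp_022_s t 8 16 1 = true := ex3_a k0_pp_022_s s48_pp_022_s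

theorem s50_pp_022_s : ∃ t, chk3 f_pp_022_s t 8 8 1 = true := ex3_b s49_pp_022_s k6_pp_022_s

theorem s51_pp_022_s : ∃ t, chk3 f_pp_022_s t 4 8 1 = true := ex3_a s50_pp_022_s s44_pp_022_s

theorem s52_pp_022_s : ∃ t, chk3 f_pp_022_s t 2 8 1 = true := ex3_a s51_pp_022_s k13_pp_022_s

theorem s53_pp_022_s : ∃ t, chk3 f_pp_022_s t 2 4 1 = true := ex3_b s52_pp_022_s s39_pp_022_s

theorem s54_pp_022_s : ∃ t, chk3 f_pp_022_s t 2 2 1 = true := ex3_b s53_pp_022_s s34_pp_022_s

theorem s55_pp_022_s : ∃ t, chk3 f_pp_022_s t 2 1 1 = true := ex3_b s54_pp_022_s k22_pp_022_s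

theorem s56_pp_022_s : ∃ t, chk3 f_pp_022_s t 1 1 1 = true := ex3_a s55_pp_022_s s33_pp_022_s

theorem c_pp_022_s : CertNE 0 536870912 1073741824 536870912 536870912 50465866 3 eng mog cd0q0 cd6q2 pd2 false true true .pp 0 2 2
    ndB0q0 ndB6q2 pcB2 cut_pp_022_s Ext.none :=
  certNE1 (fam := false) (s1 := true) (s2 := true) (a := 0) (b := 2) (c := 2) (cn := .pp) (n1 := ndB0q0) (n2 := ndB6q2) (pc := pcB2) (cut := cut_pp_022_s) (xt := Ext.none) (P1 := 0) (W1 := 536870912) (P2 := 1073741824) (W2 := 536870912) (P3 := 536870912) (W3 := 50465866) (N0 := 3) (En := eng) (mo := mog) (C1 := cd0q0) (C2 := cd6q2) (C3 := pd2)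
    rfl (fun _ => rfl) s56_pp_022_s

noncomputable def cut_pp_023_s : Cut := Cut.of [[⟨4, 0, 0, 1449551462⟩]]

noncomputable def f_pp_023_s : ℕ → ℕ → ℕ → ℕ → Bool := onCell 1073741824 536870912 0 1230186008 536870912 50465866
    (rowNE 3 eng mog cd0q0 cd6q3 pd2 2 false true true .up 0 2 3 (qsf 0 536870912 0 1230186008 2) ndB0q0 ndB6q3 pcB2 cut_pp_023_s Ext.none)

def k0_pp_023_s : ∃ t, chk3 f_pp_023_s t 2 2 1 = true :=
  ⟨(l 2), by decide +kernel⟩

def k1_pp_023_s : ∃ t, chk3 f_pp_023_s t 4 3 1 = true :=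
  ⟨(b (l 2) (b (l 2) (l 3))), by decide +kernel⟩

def k2_pp_023_s : ∃ t, chk3 f_pp_023_s t 5 6 1 = true :=
  ⟨(a (l 2) (b (l 2) (a (l 2) (b (l 2) (l 16763480))))), by decide +kernel⟩

def k3_pp_023_s : ∃ t, chk3 f_pp_023_s t 10 14 1 = true :=
  ⟨(a (a (l 3) (a (l 3) (a (b (l 2) (b (l 2) (a (b (l 3) (l 276656320135)) (a (l 198810049495) (l 16797096))))) (b (l 2) (b (l 2) (a (a (l 16790536) (b (l 16774760) (l 16772456))) (a (a (a (l 16773320) (a (l 16773224) (l 16773168))) (l 16772896)) (l 16772240)))))))) (b (a (l 2) (l 182099923015)) (a (b (l 205722253047) (a (l 16789312) (l 16761264))) (b (l 16758472) (l 16771648))))), by decide +kernel⟩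

def k4_pp_023_s : ∃ t, chk3 f_pp_023_s t 20 15 1 = true :=
  ⟨(a (b (l 3) (a (b (l 3) (a (l 3) (b (l 3) (a (l 3) (b (l 3) (l 292225565815)))))) (b (a (l 3) (b (a (l 3) (l 286856874551)) (a (l 289541223095) (l 135459262903)))) (a (b (a (l 3) (b (l 300815501735) (l 16782064))) (a (b (l 253033986855) (l 16774752)) (l 16782840))) (b (c (a (l 16784792) (l 16770872)) (l 95193941623)) (l 16782680)))))) (a (b (b (a (l 3) (b (a (l 3) (l 273971971335)) (a (l 3) (l 16787512)))) (a (b (l 3) (a (l 283635648711) (l 182167036375))) (a (b (l 16787688) (l 16773840)) (b (l 16774272) (l 16771320))))) (b (a (b (a (l 169282136423) (l 16773048)) (a (l 16772048) (l 16768712))) (b (a (l 16770040) (l 16767824)) (a (l 16765752) (l 16783656)))) (a (b (a (l 16767400) (l 16763920)) (a (l 16764536) (l 16757504))) (b (a (l 16781128) (l 16754912)) (l 16749080))))) (b (a (b (a (b (l 161765939671) (l 16774168)) (b (l 16773472) (l 16770040))) (a (b (l 16771648) (l 16768536)) (b (l 16766768) (l 16757240)))) (b (a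 (a (b (l 16770456) (l 16766776)) (a (l 16788432) (l 16787912))) (b (c (l 16789696) (l 16788360)) (c (l 16785768) (l 16763104)))) (a (a (b (l 16762160) (l 16757336)) (b (l 16760656) (l 16756160))) (b (c (l 16760696) (l 16758528)) (c (l 16740744) (l 16753696)))))) (a (b (a (b (l 16784928) (l 16756680)) (b (l 16755920) (l 16749536))) (b (a (l 16749280) (l 16743280)) (a (l 16742112) (l 16737632)))) (b (a (a (b (l 16752096) (l 16746672)) (b (l 16751248) (l 16746136))) (b (l 16771056) (l 16765880))) (a (b (c (l 16733704) (l 16727960)) (l 16731488)) (b (l 16760904) (l 16756384)))))))), by decide +kernel⟩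

def k5_pp_023_s : ∃ t, chk3 f_pp_023_s t 21 15 1 = true :=
  ⟨(b (a (b (b (l 16779656) (l 16753528)) (b (l 16748000) (l 16742024))) (b (l 16759360) (b (l 16726704) (l 16718280)))) (b (b (a (l 16735496) (l 16708856)) (a (l 16728536) (l 16699560))) (b (l 16769760) (l 16721312)))), by decide +kernel⟩

def k6_pp_023_s : ∃ t, chk3 f_pp_023_s t 11 7 1 = true :=
  ⟨(b (b (a (b (l 16759128) (l 16751416)) (l 16763352)) (a (b (l 16742096) (l 16729432)) (b (l 16720376) (l 16700608)))) (b (b (a (l 16752904) (l 16673424)) (a (l 16729744) (l 16640880))) (b (a (b (l 16668720) (l 16656016)) (l 16606648)) (a (l 16660560) (l 16578336))))), by decide +kernel⟩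

def k7_pp_023_s : ∃ t, chk3 f_pp_023_s t 3 1 1 = true :=
  ⟨(a (b (l 2) (b (b (a (l 2) (b (l 16830168) (l 16825176))) (a (b (l 269073179431) (a (l 16761080) (l 16760160))) (b (l 16792192) (l 16760024)))) (b (a (b (a (l 16732032) (l 16725280)) (a (l 16688656) (l 16673680))) (b (l 16719160) (l 16655616))) (b (a (b (l 16667736) (l 16635648)) (b (l 16577560) (l 16500808))) (a (b (a (l 16552728) (l 16499496)) (a (l 16517584) (l 16457552))) (b (l 16418512) (l 16404960))))))) (b (l 6) (l 6))), by decide +kernel⟩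

theorem s8_pp_023_s : ∃ t, chk3 f_pp_023_s t 10 15 1 = true := ex3_a k4_pp_023_s k5_pp_023_s

theorem s9_pp_023_s : ∃ t, chk3 f_pp_023_s t 10 7 1 = true := ex3_b k3_pp_023_s s8_pp_023_s

theorem s10_pp_023_s : ∃ t, chk3 f_pp_023_s t 5 7 1 = true := ex3_a s9_pp_023_s k6_pp_023_s

theorem s11_pp_023_s : ∃ t, chk3 f_pp_023_s t 5 3 1 = true := ex3_b k2_pp_023_s s10_pp_023_s

theorem s12_pp_023_s : ∃ t, chk3 f_pp_023_s t 2 3 1 = true := ex3_a k1_pp_023_s s11_pp_023_s

theorem s13_pp_023_s : ∃ t, chk3 f_pp_023_s t 2 1 1 = true := ex3_b k0_pp_023_s s12_pp_023_s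

theorem s14_pp_023_s : ∃ t, chk3 f_pp_023_s t 1 1 1 = true := ex3_a s13_pp_023_s k7_pp_023_s

theorem c_pp_023_s : CertNE 0 536870912 0 1230186008 536870912 50465866 3 eng mog cd0q0 cd6q3 pd2 false true true .up 0 2 3
    ndB0q0 ndB6q3 pcB2 cut_pp_023_s Ext.none :=
  certNE2 (fam := false) (s1 := true) (s2 := true) (a := 0) (b := 2) (c := 3) (cn := .up) (n1 := ndB0q0) (n2 := ndB6q3) (pc := pcB2) (cut := cut_pp_023_s) (xt := Ext.none) (P1 := 0) (W1 := 536870912) (P2 := 0) (W2 := 1230186008) (P3 := 536870912) (W3 := 50465866) (N0 := 3) (En := eng) (mo := mog) (C1 := cd0q0) (C2 := cd6q3) (C3 := pd2)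
    rfl (fun _ => rfl) s14_pp_023_s

noncomputable def cut_pp_033_s : Cut := Cut.of [[⟨4, 0, 0, 1449551462⟩]]

noncomputable def f_pp_033_s : ℕ → ℕ → ℕ → ℕ → Bool := onCell 1610612736 536870912 0 1230186008 536870912 50465866
    (rowNE 3 eng mog cd0q0 cd6q3 pd3 2 false true true .pnn 0 3 3 (qsf 0 536870912 0 1230186008 3) ndB0q0 ndB6q3 pcB3 cut_pp_033_s Ext.none)

def k0_pp_033_s : ∃ t, chk3 f_pp_033_s t 1 1 1 = true :=
  ⟨(b (l 6) (l 6)), by decide +kernel⟩

theorem c_pp_033_s : CertNE 0 536870912 0 1230186008 536870912 50465866 3 eng mog cd0q0 cd6q3 pd3 false true true .pnn 0 3 3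
    ndB0q0 ndB6q3 pcB3 cut_pp_033_s Ext.none :=
  certNE2 (fam := false) (s1 := true) (s2 := true) (a := 0) (b := 3) (c := 3) (cn := .pnn) (n1 := ndB0q0) (n2 := ndB6q3) (pc := pcB3) (cut := cut_pp_033_s) (xt := Ext.none) (P1 := 0) (W1 := 536870912) (P2 := 0) (W2 := 1230186008) (P3 := 536870912) (W3 := 50465866) (N0 := 3) (En := eng) (mo := mog) (C1 := cd0q0) (C2 := cd6q3) (C3 := pd3)
    rfl (fun _ => rfl) k0_pp_033_s

noncomputable def cut_pp_101_s : Cut := Cut.of [[⟨4, 0, 0, 1449551462⟩]]

noncomputable def f_pp_101_s : ℕ → ℕ → ℕ → ℕ → Bool := onCell 536870912 536870912 536870912 536870912 536870912 50465866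
    (rowNE 3 eng mog cd0q1 cd6q1 pd0 0 false true true .npn 1 0 1 (qsf 536870912 536870912 536870912 536870912 0) ndB0q1 ndB6q1 pcB0 cut_pp_101_s Ext.none)

def k0_pp_101_s : ∃ t, chk3 f_pp_101_s t 1 1 1 = true :=
  ⟨(a (l 3) (l 5)), by decide +kernel⟩

theorem c_pp_101_s : CertNE 536870912 536870912 536870912 536870912 536870912 50465866 3 eng mog cd0q1 cd6q1 pd0 false true true .npn 1 0 1
    ndB0q1 ndB6q1 pcB0 cut_pp_101_s Ext.none :=
  certNE0 (fam := false) (s1 := true) (s2 := true) (a := 1) (b := 0) (c := 1) (cn := .npn) (n1 := ndB0q1) (n2 := ndB6q1) (pc := pcB0) (cut := cut_pp_101_s) (xt := Ext.none) (P1 := 536870912) (W1 := 536870912) (P2 := 536870912) (W2 := 536870912) (P3 := 536870912) (W3 := 50465866) (N0 := 3) (En := eng) (mo := mog) (C1 := cd0q1) (C2 := cd6q1) (C3 := pd0)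
    rfl k0_pp_101_s

noncomputable def cut_pp_102_s : Cut := Cut.of [[⟨4, 0, 0, 1449551462⟩]]

noncomputable def f_pp_102_s : ℕ → ℕ → ℕ → ℕ → Bool := onCell 536870912 536870912 1073741824 536870912 536870912 50465866
    (rowNE 3 eng mog cd0q1 cd6q2 pd0 0 false true true .npp 1 0 2 (qsf 536870912 536870912 1073741824 536870912 0) ndB0q1 ndB6q2 pcB0 cut_pp_102_s Ext.none)

def k0_pp_102_s : ∃ t, chk3 f_pp_102_s t 1 1 1 = true :=
  ⟨(a (l 3) (b (l 5) (l 3))), by decide +kernel⟩

theorem c_pp_102_s : CertNE 536870912 536870912 1073741824 536870912 536870912 50465866 3 eng mog cd0q1 cd6q2 pd0 false true true .npp 1 0 2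
    ndB0q1 ndB6q2 pcB0 cut_pp_102_s Ext.none :=
  certNE0 (fam := false) (s1 := true) (s2 := true) (a := 1) (b := 0) (c := 2) (cn := .npp) (n1 := ndB0q1) (n2 := ndB6q2) (pc := pcB0) (cut := cut_pp_102_s) (xt := Ext.none) (P1 := 536870912) (W1 := 536870912) (P2 := 1073741824) (W2 := 536870912) (P3 := 536870912) (W3 := 50465866) (N0 := 3) (En := eng) (mo := mog) (C1 := cd0q1) (C2 := cd6q2) (C3 := pd0)
    rfl k0_pp_102_s

noncomputable def cut_pp_112_s : Cut := Cut.of [[⟨4, 0, 0, 1449551462⟩]]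

noncomputable def f_pp_112_s : ℕ → ℕ → ℕ → ℕ → Bool := onCell 536870912 536870912 1073741824 536870912 536870912 50465866
    (rowNE 3 eng mog cd0q1 cd6q2 pd1 0 false true true .dn 1 1 2 (qsf 536870912 536870912 1073741824 536870912 1) ndB0q1 ndB6q2 pcB1 cut_pp_112_s Ext.none)

def k0_pp_112_s : ∃ t, chk3 f_pp_112_s t 1 1 1 = true :=
  ⟨(a (l 3) (b (l 5) (l 3))), by decide +kernel⟩

theorem c_pp_112_s : CertNE 536870912 536870912 1073741824 536870912 536870912 50465866 3 eng mog cd0q1 cd6q2 pd1 false true true .dn 1 1 2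
    ndB0q1 ndB6q2 pcB1 cut_pp_112_s Ext.none :=
  certNE0 (fam := false) (s1 := true) (s2 := true) (a := 1) (b := 1) (c := 2) (cn := .dn) (n1 := ndB0q1) (n2 := ndB6q2) (pc := pcB1) (cut := cut_pp_112_s) (xt := Ext.none) (P1 := 536870912) (W1 := 536870912) (P2 := 1073741824) (W2 := 536870912) (P3 := 536870912) (W3 := 50465866) (N0 := 3) (En := eng) (mo := mog) (C1 := cd0q1) (C2 := cd6q2) (C3 := pd1)
    rfl k0_pp_112_s

noncomputable def cut_pp_113_s : Cut := Cut.of [[⟨4, 0, 0, 1449551462⟩], [⟨0, 1, 0, 67108864⟩, ⟨1, 1, 0, 67108864⟩, ⟨2, 2, 0, 16777216⟩]]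

noncomputable def f_pp_113_s : ℕ → ℕ → ℕ → ℕ → Bool := onCell 536870912 536870912 0 1230186008 536870912 50465866
    (rowNE 3 eng mog cd0q1 cd6q3 pd1 2 false true true .nn 1 1 3 (qsf 536870912 536870912 0 1230186008 1) ndB0q1 ndB6q3 pcB1 cut_pp_113_s Ext.none)

def k0_pp_113_s : ∃ t, chk3 f_pp_113_s t 1 1 1 = true :=
  ⟨(b (a (l 2) (a (l 2) (b (a (l 2) (b (a (l 2) (l 14)) (l 3))) (l 3)))) (b (a (a (l 2) (b (l 2) (a (l 2) (l 3)))) (a (l 3) (l 3))) (a (a (b (l 2) (l 3)) (l 3)) (l 3)))), by decide +kernel⟩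

theorem c_pp_113_s : CertNE 536870912 536870912 0 1230186008 536870912 50465866 3 eng mog cd0q1 cd6q3 pd1 false true true .nn 1 1 3
    ndB0q1 ndB6q3 pcB1 cut_pp_113_s Ext.none :=
  certNE2 (fam := false) (s1 := true) (s2 := true) (a := 1) (b := 1) (c := 3) (cn := .nn) (n1 := ndB0q1) (n2 := ndB6q3) (pc := pcB1) (cut := cut_pp_113_s) (xt := Ext.none) (P1 := 536870912) (W1 := 536870912) (P2 := 0) (W2 := 1230186008) (P3 := 536870912) (W3 := 50465866) (N0 := 3) (En := eng) (mo := mog) (C1 := cd0q1) (C2 := cd6q3) (C3 := pd1)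
    rfl (fun _ => rfl) k0_pp_113_s

end Pool.Agent.Strip051.G.I5000_5470.Tab.CS.BB06

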