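import Pool.Agent.Strip051.G.I5000_5470.Tab
import Pool.Agent.Strip051.PB.ExtD2

/-! # Certificates B3 (generated) -/

set_option linter.all false
set_option maxRecDepth 100000

namespace Pool.Agent.Strip051.G.I5000_5470.Tab.C.BA00

open Pool.Agent.Strip051.PB Pool.Agent.Strip051.PB.T
open Pool.Agent.Strip051.G.I5000_5470.Tab

noncomputable def cut_pm_202 : Cut := Cut.of [[⟨3, 0, 0, 1449551462⟩], [⟨4, 0, 0, 2845415833⟩], [⟨0, 1, 0, 67108864⟩, ⟨1, 0, 0, 67108864⟩, ⟨2, 1, 0, 67108864⟩], [⟨0, 1, 0, 33554432⟩, ⟨1, 0, 1, 20971520⟩, ⟨2, 1, 1, 20971520⟩]]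

noncomputable def xt_pm_202 : Ext := extD2 3 ⟨7, 3, 3, 10, 1741, 1000, 23, 25, 19, 50, 3, 16⟩ eng cd0q2 cd0q0 pd2 true true false .pp 2 0 2 rfl ndB0q2 ndB0q0 pcB2

noncomputable def f_pm_202 : ℕ → ℕ → ℕ → ℕ → Bool := onCell 0 536870912 1073741824 536870912 536870912 50465866
    (rowB 3 eng mog cd0q2 cd0q0 pd2 1 true true false .pp 2 0 2 (qsf 0 536870912 0 536870912 2) ndB0q2 ndB0q0 pcB2 cut_pm_202 xt_pm_202)

def k0_pm_202 : ∃ t, chk3 f_pm_202 t 1 4 1 = true :=
  ⟨(a (a (l 1) (b (l 1) (a (l 1) (b (l 1) (b (l 1) (a (l 1) (a (l 16522672) (b (l 1) (l 16529328))))))))) (a (b (l 1) (a (b (l 1) (a (b (a (l 1) (l 16554440)) (b (a (l 16541008) (l 16549496)) (c (l 16541400) (l 16541344)))) (b (a (b (l 1) (l 16561504)) (b (l 16573832) (l 16570040))) (a (c (l 16555880) (l 16555208)) (c (l 16563816) (l 16563392)))))) (b (a (a (a (l 1) (b (l 1) (l 16590864))) (l 6)) (l 6)) (a (b (b (a (l 16582600) (l 16591208)) (a (l 16578416) (l 16628536))) (c (l 16596232) (a (l 16571416) (l 16579240)))) (b (a (c (l 16597176) (l 16596432))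 (l 6)) (a (l 16586664) (l 16593848))))))) (l 6))), by decide +kernel⟩

def k1_pm_202 : ∃ t, chk3 f_pm_202 t 2 5 1 = true :=
  ⟨(a (b (b (b (l 1) (a (l 16498808) (l 16529112))) (a (a (b (l 16455624) (l 16461144)) (l 16534224)) (b (l 16527272) (l 16468056)))) (a (b (a (l 16473920) (l 16458496)) (a (l 16493456) (l 16492112))) (b (b (l 16473992) (l 16543680)) (b (l 16488208) (l 16517104))))) (b (b (a (a (b (l 16481432) (l 16476904)) (b (l 16492496) (l 16487688))) (a (b (l 16505448) (l 16500240)) (b (a (l 16516056) (l 16524000)) (b (l 16514296) (b (l 16513560) (a (l 16573128) (l 16558400))))))) (b (a (b (l 16525272) (l 16523480)) (a (l 16556576) (a (l 16550224) (l 16556256)))) (a (l 16521520) (b (l 16589104) (l 16563456))))) (a (b (b (l 16504128) (a (l 16484696) (l 16490288))) (b (a (l 16490368) (l 16494824)) (a (l 16496512) (l 16499792)))) (b (a (b (l 16495632) (l 16498528)) (b (l 16506392) (l 16508192))) (a (b (l 16502024) (l 16505904)) (b (l 16510520) (l 16513128))))))), by decide +kernel⟩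

def k2_pm_202 : ∃ t, chk3 f_pm_202 t 6 5 1 = true :=
  ⟨(b (b (a (a (b (a (l 16532112) (l 16540104)) (b (l 16529896) (a (l 16617064) (l 16618584)))) (b (c (l 16550248) (l 16541656)) (b (l 16544784) (b (l 16541208) (l 16602352))))) (b (a (l 16613112) (l 16621408)) (b (a (l 16558120) (l 16573552)) (b (a (l 16555688) (l 16570640)) (a (c (l 16619640) (l 16575072)) (a (l 16627456) (l 16655464))))))) (a (a (a (l 16599800) (l 16606896)) (a (l 16613424) (l 16614168))) (b (a (l 16597728) (a (l 16580352) (l 16587024))) (a (l 16541016) (l 16551536))))) (a (b (a (b (l 16518120) (l 16518160)) (b (l 16528728) (l 16526856))) (a (b (l 16518664) (l 16519376)) (b (l 16525288) (l 16523848)))) (a (b (l 16576264) (b (l 16528104) (l 16523904))) (b (l 16580352) (l 16545160))))), by decide +kernel⟩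

def k3_pm_202 : ∃ t, chk3 f_pm_202 t 7 5 1 = true :=
  ⟨(b (b (a (b (a (a (l 16591528) (l 6)) (l 6)) (b (a (l 16609400) (l 6)) (a (b (l 16584888) (b (l 16582944) (l 16644312))) (b (l 6) (b (l 6) (c (l 16639024) (l 16592152))))))) (l 6)) (b (a (a (a (l 16593528) (l 16620832)) (a (l 16647976) (l 16654000))) (l 6)) (a (a (l 16585008) (a (l 16572928) (l 16578744))) (a (a (l 16626352) (l 6)) (l 6))))) (a (a (b (a (l 16543896) (l 16549856)) (l 16570024)) (a (b (l 16555744) (l 16557880)) (b (l 16624384) (l 16605736)))) (a (b (a (a (l 16607608) (l 16631328)) (b (l 16577968) (l 16567432))) (a (b (l 16552728) (l 16544736)) (b (l 16558072) (l 16549832)))) (b (a (b (b (l 6) (l 16580376)) (c (l 16575528) (l 16569704))) (b (l 6) (a (l 16597048) (b (l 6) (c (l 16579120) (l 16572152)))))) (a (b (c (l 16566152) (l 16560056)) (c (l 16557384) (l 16551144))) (c (b (a (l 16569640) (b (l 16574168) (l 16569376))) (a (l 16560552) (b (l 16564720) (l 16560176)))) (a (b (l 16562896) (l 16553640)) (b (b (l 16567040) (l 16562120)) (b (l 16557368)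 (l 16552784)))))))))), by decide +kernel⟩

def k4_pm_202 : ∃ t, chk3 f_pm_202 t 2 6 1 = true :=
  ⟨(a (b (a (b (a (l 16514528) (l 16511536)) (a (l 16535560) (l 16530928))) (b (a (l 16509432) (b (l 16503280) (l 16510976))) (a (l 16526896) (l 16543224)))) (a (b (a (l 16554760) (l 16548256)) (a (l 16570416) (l 16561816))) (b (b (a (l 16538944) (l 16532480)) (l 16541384)) (a (l 16553000) (l 16542680))))) (b (a (b (a (b (l 16502904) (l 16509344)) (b (l 16504984) (l 16510192))) (a (b (l 16515656) (l 16521664)) (b (l 16515224) (l 16519912)))) (b (a (b (l 16509944) (l 16513952)) (b (l 16515944) (l 16518664))) (a (b (l 16517736) (l 16521120)) (b (l 16521088) (l 16522992))))) (a (b (b (a (l 16526920) (l 16523736)) (a (l 16530000) (l 16525160))) (a (l 16532920) (l 16525528))) (b (b (a (l 16523536) (l 16544904)) (a (l 16523288) (l 16521992))) (a (l 16521280) (l 16517440)))))), by decide +kernel⟩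

def k5_pm_202 : ∃ t, chk3 f_pm_202 t 6 6 1 = true :=
  ⟨(b (a (b (a (a (l 16520176) (l 16521584)) (l 16584448)) (a (b (l 16521768) (l 16521888)) (l 16580096))) (b (a (b (l 16519424) (l 16514424)) (l 16528952)) (a (b (l 16508992) (l 16502928)) (l 16512080)))) (a (b (a (b (a (l 16522168) (l 16519472)) (l 16517240)) (b (l 16512160) (l 16505696))) (a (l 16551624) (l 16494048))) (b (b (a (l 16496144) (l 16485376)) (l 16552592)) (a (l 16473792) (l 16481896))))), by decide +kernel⟩

def k6_pm_202 : ∃ t, chk3 f_pm_202 t 7 12 1 = true :=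
  ⟨(a (a (b (l 16576792) (l 16566232)) (b (a (l 16565192) (l 16591704)) (c (l 16577072) (l 16575232)))) (a (b (a (b (l 16537408) (l 16530400)) (b (l 16542080) (l 16534568))) (a (b (l 16523072) (l 16515616)) (b (l 16526568) (l 16518272)))) (b (a (b (c (l 16570088) (l 16542896)) (c (l 16551320) (l 16534864))) (b (a (b (l 16550672) (l 16556952)) (c (b (c (l 16557440) (l 16553944)) (b (l 16552416) (l 16550216))) (b (a (l 16548048) (l 16548584)) (a (l 16543728) (l 16544192))))) (a (c (b (l 16545504) (l 16540784)) (l 16536504)) (a (c (b (l 16546536) (l 16541648)) (b (l 16539432) (l 16534800))) (c (b (c (l 16548776) (l 16545424)) (c (l 16543696) (l 16540512))) (b (b (l 16540944) (l 16538688)) (c (l 16536976) (l 16533088)))))))) (b (a (c (l 16531712) (l 16526344)) (a (b (l 16532968) (l 16528144)) (a (c (b (l 16536576) (l 16531344)) (l 16532880)) (c (b (b (l 16538272) (l 16535632)) (c (l 16532896) (l 16530176))) (b (c (l 16532048) (l 16528272)) (c (l 16527008) (l 16523384))))))) (c (a (l 16522016) (a (l 16533384) (b (a (l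 16525912) (c (l 16527168) (l 16524728))) (a (l 16520184) (b (l 16521656) (l 16518648)))))) (a (l 16517512) (a (l 16517784) (b (a (l 16520240) (c (l 16521800) (l 16518368))) (b (l 16521552) (l 16518872)))))))))), by decide +kernel⟩

def k7_pm_202 : ∃ t, chk3 f_pm_202 t 7 13 1 = true :=
  ⟨(a (b (a (b (l 16495888) (l 16492696)) (b (l 16503896) (l 16498584))) (a (l 16549640) (a (l 16488920) (l 16489512)))) (a (b (b (a (l 16507928) (l 16509576)) (a (l 16500704) (l 16501176))) (a (b (l 16493216) (l 16485544)) (b (l 16492720) (l 16484744)))) (b (a (b (b (l 16512520) (l 16507728)) (a (l 16501056) (l 16500560))) (b (b (a (l 16512536) (c (a (l 16514264) (a (l 16514136) (b (l 16515576) (b (l 16513304) (l 16511800))))) (a (l 16509744) (c (l 16510792) (l 16507856))))) (a (l 16507312) (a (l 16506968) (c (a (l 16508552) (c (l 16509128) (l 16507600))) (l 16504248))))) (a (c (l 16501424) (l 16498064)) (c (a (c (l 16501560) (l 16500408)) (c (l 141370084933369887) (b (l 16502584) (l 16497608)))) (b (l 16499608) (a (l 16495128) (l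 16494632))))))) (c (a (b (l 16492672) (a (l 16484240) (l 16483552))) (b (b (a (l 16494208) (l 141289889288044575)) (a (l 16489528) (c (l 141202752982269983) (l 141244603142078495)))) (c (a (l 141284529146707999) (b (l 141314078524669983) (l 141246114952839199))) (b (l 141187840845758495) (l 141128604647964703))))) (b (a (l 16490368) (a (l 16489072) (a (c (l 16489296) (l 16487096)) (b (b (l 16491144) (l 16488848)) (c (l 141263844591976479) (a (l 16484432) (l 16484096))))))) (a (l 16482176) (b (c (l 141218283571445791) (a (l 16481624) (a (l 16480640) (a (l 16480088) (b (l 16480824) (l 141203646314364959)))))) (a (l 16478496) (l 141169561450889247))))))))), by decide +kernel⟩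

def k8_pm_202 : ∃ t, chk3 f_pm_202 t 2 14 1 = true :=
  ⟨(a (a (b (l 16578904) (l 16590096)) (b (l 16555104) (l 16560824))) (a (b (l 16571384) (l 16528400)) (b (l 16587872) (l 16497360)))), by decide +kernel⟩

def k9_pm_202 : ∃ t, chk3 f_pm_202 t 6 14 1 = true :=
  ⟨(a (a (b (l 16497496) (l 16485808)) (b (l 16477464) (l 16467688))) (a (b (l 16473664) (l 16472128)) (b (l 16478128) (l 16475624)))), by decide +kernel⟩

def k10_pm_202 : ∃ t, chk3 f_pm_202 t 7 28 1 = true :=
  ⟨(a (a (a (l 16480104) (l 16480160)) (a (l 16480416) (b (l 16480656) (l 16480072)))) (a (a (b (l 16480016) (l 16479872)) (b (b (l 16479328) (l 16478576)) (c (l 16491480) (l 16477440)))) (a (b (c (a (l 16478272) (b (l 16477552) (l 16477728))) (a (l 16476528) (a (l 16475800) (l 141136576098189343)))) (a (c (b (l 16479824) (l 16482216)) (l 16476728)) (c (c (c (b (l 141267830309404703) (l 141313047732273183)) (l 141181106331664415)) (l 141326241863827487)) (b (l 16475824) (l 141122145012039711))))) (c (c (a (b (b (l 141187840830652447) (l 141347201298825247))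 (b (a (l 141253674096869407) (l 141168255787450399)) (l 141180006825836575))) (b (b (l 141183923818709023) (l 141191139366453279)) (b (c (l 141157810428002335) (l 141195399980351519)) (l 141289889270824991)))) (b (a (b (l 141077683509133343) (l 141059060531413023)) (b (l 141069643328323615) (l 141055624556511263))) (a (b (l 141057479987773471) (l 141066069928607775)) (b (l 141060366205763615) (l 141075209620111391))))) (b (b (a (l 141137469450502175) (c (l 141112043243307039) (l 141131559570948127))) (a (l 141120427019173919) (c (l 141098505506652191) (l 141117815674765343)))) (a (b (l 141116991047434271) (l 141119533671907359)) (b (c (l 141099811180462111) (l 141116235129012255)) (c (l 141108607279120415) (l 141120495740583967))))))))), by decide +kernel⟩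

def k11_pm_202 : ∃ t, chk3 f_pm_202 t 7 29 1 = true :=
  ⟨(a (a (a (l 16478608) (l 16480008)) (a (l 16502248) (b (l 16481216) (l 16484552)))) (a (a (b (c (l 16484160) (l 16479128)) (c (l 16490784) (l 16483176))) (a (b (l 16482720) (b (l 16487488) (l 16491896))) (b (c (l 16486392) (l 16479928)) (c (a (l 16495344) (l 16496496)) (l 16486344))))) (c (c (a (b (a (b (l 16486768) (l 141177670378389535)) (l 141283498370416671)) (b (l 141319438673395743) (l 141388364323766303))) (b (a (b (l 141205982798151711) (l 141241648219013151)) (b (l 141277176179130399) (a (l 141086204766027807) (l 141103247198732319)))) (a (b (l 141107920132276255) (l 141164338840109087)) (b (a (l 141137950548181023) (l 141158154077536287)) (a (l 141199729376378911) (l 141223231441371167)))))) (a (a (b (l 141333251262382111) (l 141113417676865567)) (b (l 141259515266170911) (l 141141317789286431))) (b (a (b (l 141084211878739999) (l 141111424802045983)) (b (l 141099055288090655) (l 141132796563144735))) (a (b (l 141148602051903519) (l 141195056433430559))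 (b (l 141220894946607135) (a (l 141220001608384543) (l 141236563005620255))))))) (a (b (a (a (l 16480296) (l 141130253917093919)) (c (l 141120908073631775) (l 141138637689552927))) (a (c (l 141152244170555423) (l 141168049638637599)) (c (l 141169286604701727) (l 141176502137241631)))) (a (b (c (l 141128604656943135) (l 141229347400007711)) (c (b (l 141169698919677983) (l 141207838242422815)) (b (l 141171691771920415) (l 141203096583962655)))) (b (c (b (l 141125580997574687) (l 141151763128238111)) (b (l 141132109338116127) (l 141152312872435743))) (c (b (a (l 141182205867540511) (l 141190727084834847)) (a (l 141224330920902687) (l 141235119881486367))) (b (a (l 141178151405092895) (l 141182549453242399)) (a (l 141212854752854047) (l 141219176946860063)))))))))), by decide +kernel⟩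

def k12_pm_202 : ∃ t, chk3 f_pm_202 t 2 15 1 = true :=
  ⟨(a (a (b (a (l 16607632) (l 16593056)) (a (l 16621592) (l 16604864))) (b (l 16566696) (b (l 16572024) (l 16582648)))) (b (a (l 16527872) (l 16501112)) (a (b (l 16528616) (l 16544680)) (b (l 16519000) (a (l 16523960) (l 16511720)))))), by decide +kernel⟩

def k13_pm_202 : ∃ t, chk3 f_pm_202 t 6 15 1 = true :=
  ⟨(b (a (a (l 16474240) (l 16464680)) (a (l 16470872) (l 16477960))) (a (b (a (l 16466088) (l 16484624)) (a (l 16492840) (l 16484680))) (b (a (l 16471248) (l 16504016)) (a (l 16457208) (l 16500392))))), by decide +kernel⟩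

def k14_pm_202 : ∃ t, chk3 f_pm_202 t 14 15 1 = true :=
  ⟨(b (a (a (l 16482768) (l 16486752)) (a (b (l 16487448) (l 16496448)) (b (l 16491544) (l 16502736)))) (b (a (b (l 16495304) (l 16498096)) (b (a (l 16505784) (l 16513944)) (a (l 16510768) (l 16520168)))) (a (a (l 16475392) (l 16487424)) (a (l 16499952) (c (l 16518832) (l 16507312)))))), by decide +kernel⟩

def k15_pm_202 : ∃ t, chk3 f_pm_202 t 30 15 1 = true :=
  ⟨(b (a (b (c (l 16501592) (l 16491088)) (c (l 16516712) (l 16502856))) (b (c (a (l 16506424) (b (l 16506056) (l 141340604304293919))) (c (l 141183855146532895) (l 141202890428039199))) (c (a (l 16523672) (c (l 141412553634250783) (l 141272091006795807))) (c (l 141274083850108959) (l 141280474744078367))))) (b (b (a (l 16543792) (a (l 16550992) (c (l 141369603987308575) (l 141378606196457503)))) (c (a (l 16539424) (a (l 141541402686668831) (l 141618024917319711))) (a (l 16521232) (a (l 16549232) (l 141428496554033183))))) (c (b (a (l 16536960) (a (l 16549008) (l 141418119962787871))) (a (l 16534216)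 (a (l 16548992) (l 141396610770075679)))) (a (a (l 16516296) (l 16522624)) (a (b (l 16529008) (l 16529800)) (b (l 141410698213638175) (l 141390975728107551))))))), by decide +kernel⟩

def k16_pm_202 : ∃ t, chk3 f_pm_202 t 31 30 2 = true :=
  ⟨(b (a (c (a (l 141335519068913695) (b (l 141178220185665567) (l 141247489438892063))) (a (l 141199798088531999) (l 141240686184988703))) (a (c (b (l 141230996752433183) (l 141307000515903519)) (b (l 141250719227117599) (l 141314628360142879))) (c (b (c (l 141326173240868895) (l 141286934411624479)) (a (l 141352286659100703) (c (l 141384378665107487) (l 141380873962143775)))) (b (a (l 141279512693686303) (l 141298891590156319)) (a (l 141347888593764383) (b (l 141351668164165663) (l 141389807485091871))))))) (a (c (a (l 141300609617969183) (b (l 141326516860207135) (l 141415989644541983))) (a (l 141322874709901343) (b (l 141337924274552863) (l 141414065477632031)))) (a (c (b (l 141393312203423775) (l 141580572804939807)) (b (l 141387677185900575) (l 141470346740842527))) (c (b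 (a (l 141444302064500767) (a (l 141470278031540255) (b (l 141462375287947295) (a (l 141509241984516127) (l 141518312957165599))))) (a (c (l 141554871737548831) (l 141539959598743583)) (c (a (l 141585932946800671) (b (l 141577411727605791) (a (l 141631768848891935) (l 141642557808787487)))) (a (l 141567241236381727) (b (l 141558376419967007) (l 141613558175121439)))))) (b (a (l 141425679064563743) (c (l 141549374133960735) (l 141443271250427935))) (a (l 141603662534967327) (b (a (l 141511990750986271) (l 141526421844246559)) (c (l 141670251728142367) (l 141554596835328031))))))))), by decide +kernel⟩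

def k17_pm_202 : ∃ t, chk3 f_pm_202 t 62 31 2 = true :=
  ⟨(a (b (b (l 141438873232736287) (b (l 141509585594744863) (l 141523123338182687))) (b (l 141693753802522655) (c (l 141515907815964703) (l 141502095176171551)))) (b (b (c (l 141516526267334687) (l 141499964848881695)) (b (l 141721241598083103) (l 141606617518915615))) (b (c (l 141627095943151647) (l 141592048982294559)) (a (l 141597546558816287) (l 141656026844856351))))), by decide +kernel⟩

def k18_pm_202 : ∃ t, chk3 f_pm_202 t 126 31 2 = true :=
  ⟨(a (b (b (c (l 141578305088438303) (l 141547175139393567)) (b (l 141644962990719007) (l 141670870242689055))) (b (b (l 141679185304748063) (l 141691829694316575)) (l 141804941962395679))) (b (b (c (l 141620361416196127) (l 141579335861420063)) (b (c (l 141711483467333663) (l 141657401209339935)) (c (l 141743506753880095) (l 141684064375816223)))) (b (b (c (l 141758281447768095) (l 141697121082441759)) (l 141745224738209823)) (c (l 141804460953600031) (l 141742063636774943))))), by decide +kernel⟩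

def k19_pm_202 : ∃ t, chk3 f_pm_202 t 254 31 2 = true :=
  ⟨(b (b (c (c (l 141674787257073695) (l 141650941584556063)) (c (l 141625377925054495) (l 141598233717555231))) (b (b (c (l 141741651322322975) (l 141679322726367263)) (c (l 141863559682752543) (l 141706535646953503))) (c (a (l 141780890156548127) (l 141806110209392671)) (a (l 141713682476646431) (l 141734023446003743))))) (b (c (b (l 141812844722815007) (l 141834079048630303)) (b (l 141742132348846111) (l 141762473321037855))) (c (b (l 141857100081201183) (l 141881907820560415)) (b (l 141784532280492063) (l 141808309227241503))))), by decide +kernel⟩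

def k20_pm_202 : ∃ t, chk3 f_pm_202 t 255 62 4 = true :=
  ⟨(b (b (a (l 141664754204377119) (a (l 141770788360110111) (b (b (l 141668258896609311) (l 141683652063608863)) (c (l 141722134984294431) (l 141691967119343647))))) (a (c (l 141742544676601887) (l 141712101933416479)) (c (a (l 141760411743993887) (c (b (l 141763504122019871) (l 141798138747535391)) (b (l 141747423756894239) (l 141780752712106015)))) (a (l 141727838696800287) (b (l 141722822172868639) (c (l 141763160518246431) (l 141745362165956639))))))) (b (b (a (l 141776217225953311) (b (a (l 141785356917587999) (a (l 141794015573377055) (c (l 141863422254055455) (l 141780958865932319)))) (a (l 141801987035447327) (a (l 141900805644746783) (c (c (l 141845349040373791) (l 141826245017714719)) (l 141831055368880159)))))) (b (a (l 141801162402758687) (a (l 141818892031246367) (a (l 141827894284451871) (c (c (l 141863353547997215) (l 141843837208346655)) (l 141814150382026783))))) (a (l 141816693008711711) (a (l 141879914930831391) (b (c (c (l 141873661472440351)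 (l 141853938974294047)) (l 141824045989429279)) (a (l 141846998304079903) (c (c (l 141883144762605599) (l 141863147386486815)) (l 141832842084663327)))))))) (b (a (l 141826107580170271) (a (l 141889879258202143) (c (a (l 141874142508236831) (c (a (l 141889054639833119) (b (l 141889329517346847) (l 141895514272317471))) (b (l 141867614153981983) (l 141873661469949983)))) (a (l 141834216475475999) (a (l 141838683242348575) (b (l 141838683241955359) (l 141844661838397471))))))) (a (l 141836965261262879) (a (l 141901492853702687) (c (a (l 141886305859682335) (c (c (l 30) (b (l 141895033235619871) (l 141901355429576735))) (b (l 141879846224904223) (l 141908639687720991)))) (a (l 141845967509946399) (a (l 141850640435281951) (b (l 141873249142718495) (a (l 141856069275418655) (l 141880189812047903))))))))))), by decide +kernel⟩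

def k21_pm_202 : ∃ t, chk3 f_pm_202 t 255 62 5 = true :=
  ⟨(b (a (b (l 141610603228446751) (l 141664135716077599)) (b (c (l 141732236713115679) (l 141611290419593247)) (b (c (l 141684476688678943) (l 141650323093602335)) (c (l 141758556292726815) (l 141677123697197087))))) (b (a (b (l 141705917169795103) (c (l 141753264905289759) (l 141714988140544031))) (a (b (l 141809408704757791) (b (l 141741376428851231) (l 141755738803290143))) (b (b (a (l 141718905153372191) (l 141813394434883615)) (c (l 141800543904399391) (l 141715744053870623))) (c (b (l 141771406850457631) (b (l 141783501481508895) (l 141789136480157727))) (b (l 141730724903747615) (a (l 141742544656973855) (l 141747286301851679))))))) (a (c (l 141774293071872031) (l 141735122953650207)) (c (a (l 141790854469107743) (b (b (l 141793328369647647) (l 141799032088117279)) (a (l 141804941965426719) (c (l 141821022328373279) (l 141800062879465503))))) (a (l 141750035083198495) (a (l 141802536764981279) (b (l 141756838312149023) (l 141768177029529631)))))))),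 by decide +kernel⟩

def k22_pm_202 : ∃ t, chk3 f_pm_202 t 255 126 2 = true :=
  ⟨(a (c (b (c (l 141872905561800735) (l 141834903674454047)) (c (l 141897438423220255) (l 141858886779813919))) (b (c (l 141796008433893407) (l 141756151120674847)) (c (l 141819304344256543) (l 141778828555485215)))) (c (b (a (b (l 141913518766145567) (l 141937226989731871)) (c (c (l 30) (b (a (l 141888779760762911) (a (l 141894002441994271) (b (l 141894208600031263) (l 141923208221343775)))) (a (l 141901699026599967) (b (b (l 141903898049642527) (l 30)) (l 30))))) (b (a (l 141858199580835871) (b (c (l 141871874761211935) (l 141851121470701599)) (c (l 141878265674629151) (l 141857443664609311)))) (a (l 141870912688144415) (b (c (l 141884794027032607) (l 141863834578010143)) (a (l 141879227746877471) (b (l 141925956991205407) (l 141906784258244639)))))))) (c (l 30) (a (b (l 141873524030423071) (l 141886718174183455)) (b (a (l 141883969392951327) (c (c (l 30) (b (l 141892834207907871) (l 141899637438267423))) (b (l 141876960002277407) (l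 141883694513127455)))) (a (l 141897507134160927) (c (l 30) (a (l 141892284450619423) (b (l 141892284450226207) (l 141899293839048735))))))))) (b (c (a (l 141813875501465631) (b (a (l 141816761719324703) (c (l 141833254399213599) (l 141812020072333343))) (a (l 141829062509641759) (b (l 141832017447354399) (l 141883419618000927))))) (a (l 141772368920543263) (b (a (l 141774567943569439) (l 141824870601637919)) (b (l 141786181538578463) (l 141792297573974047))))) (b (a (l 141811332878221343) (c (a (l 141841775616917535) (a (l 141846585981255711) (b (l 141846448541892639) (l 141898056871018527)))) (b (l 141798482328862751) (l 141804804522721311)))) (a (l 141823977265971231) (b (c (c (l 141888161271857183) (l 141844043359059999)) (l 141856275412828191)) (a (l 141836621652656159) (c (c (l 141875860488339487) (l 141854007685955615)) (l 141820816165503007))))))))), by decide +kernel⟩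

def k23_pm_202 : ∃ t, chk3 f_pm_202 t 255 127 2 = true :=
  ⟨(c (b (c (l 30) (c (l 30) (a (l 141874692263510047) (a (l 141896888658903071) (b (b (c (l 30) (l 141895582986240031)) (l 30)) (l 30)))))) (l 30)) (a (b (c (l 141844386961358879) (l 141803223977558047)) (c (l 141871325004709919) (l 141829337386942495))) (a (b (b (l 141837033970679839) (l 141850502992330783)) (b (l 141864453050417183) (l 141878884144955423))) (b (c (b (a (l 141868576221282335) (b (c (l 141882869877145631) (l 141860879635759135)) (c (l 141889947985444895) (l 141867820305072159)))) (a (l 141882663718371359) (b (c (l 141919634801606687) (l 141874967132848159)) (c (a (l 141902661092737055) (l 141906303225741343)) (l 141882182680117279))))) (b (a (l 141824733177528351) (c (l 141842119210860575) (l 141819647933120543))) (a (l 141838339638149151) (b (l 141841294575894559) (l 141870843953053727))))) (c (c (l 30) (b (a (l 141886030972715039) (b (l 141889466946879519) (l 141896957372104735))) (b (c (l 30) (l 141895170664988703)) (l 30)))) (b (a (l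 141852427135189023) (a (l 141857443658022943) (b (l 141857100060229663) (l 141909464303714335)))) (a (l 141866995668664351) (a (l 141872149630484511) (c (b (l 141883350909304863) (l 141890978773499935)) (l 141886443277828127)))))))))), by decide +kernel⟩

def k24_pm_202 : ∃ t, chk3 f_pm_202 t 31 30 3 = true :=
  ⟨(b (b (a (a (l 141209075189186591) (l 141229553598578719)) (a (c (l 141254223904522271) (l 141241923101491231)) (c (a (l 141273740240732191) (l 141286934383607839)) (a (l 141254017733230623) (l 141262126634123295))))) (a (a (l 141250238169776159) (l 141274427431878687)) (a (c (l 141307825113612319) (l 141286934373662751)) (b (c (l 141368573133963295) (l 141384241154768927)) (a (l 141332289247641631) (c (l 141363006868193311) (l 141325760890224671))))))) (a (c (a (l 141328097371095071) (l 141365205897281567)) (a (l 141316689918378015) (l 141341703815086111))) (a (c (b (l 141369397784117279) (l 141439491671965727)) (b (l 141338886314934303) (l 141398191242231839))) (c (b (a (l 141396541984161823) (b (l 141397160458649631)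 (l 141433513072951327))) (a (l 141470896480665631) (c (b (l 141484640381747231) (l 141527315189530655)) (b (l 141459214162526239) (l 141498452995686431))))) (b (a (l 141357028262264863) (c (l 141381629844684831) (l 141356615943192607))) (a (l 141419769164333087) (a (l 141430764283920415) (b (l 141421006115110943) (l 141455915620171807))))))))), by decide +kernel⟩

def k25_pm_202 : ∃ t, chk3 f_pm_202 t 31 62 3 = true :=
  ⟨(a (c (b (l 141629569751777311) (a (l 141487389169123359) (l 141539684703387679))) (b (l 141416951666556959) (a (l 141452960685768735) (l 141490344091484191)))) (a (b (c (l 141518519094165535) (l 141465261472546847)) (b (c (l 141584008775073823) (l 141520924265955359)) (a (l 141559613350772767) (c (l 141619124439515167) (l 141548686944993311))))) (b (c (a (c (l 141569440242548767) (l 141539066219528223)) (b (c (l 141617612595331103) (l 141540028291661855)) (a (l 141595965964943391) (c (b (l 141615069986848799) (l 141639740286222367)) (l 141589918646534175))))) (a (c (l 141507042929016863) (l 141473439090475039))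 (b (c (l 141506149575131167) (l 141470827749539871)) (c (a (l 141541677555564575) (l 141551504443555871)) (l 141508004998021151))))) (b (b (a (c (l 141611702730604575) (l 141538997493465119)) (c (a (l 141631493944934431) (a (l 141641526991093791) (c (b (l 141662142842044447) (l 141675199546327071)) (l 141627851808833567)))) (a (l 141553016270864415) (c (a (l 141580778949607455) (l 141586207789744159)) (l 141541540113006623))))) (a (c (l 141634929920671775) (l 141558719989399583)) (c (a (c (l 141675818022584351) (l 141635754551427103)) (b (a (l 141660562291539999) (l 141668327594131487)) (c (l 141743575432003615) (l 141656095521505311)))) (a (l 141663929512542239) (b (a (l 141576518338773023) (l 141582496934690847)) (l 141590949432623135)))))) (a (c (a (l 141641939311214623) (l 141657950952914975)) (a (l 141565591940775967) (l 141577824010649631))) (c (a (l 141674581069922335) (c (a (l 141708322344108063) (b (l 141711895757029407) (l 141722684718448671))) (b (l 141664754178310175) (l 141674924664258591)))) (a (l 141590674555830303)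 (c (a (l 141622491684208671) (l 141629501072424991)) (l 141581328701636639))))))))), by decide +kernel⟩

def k26_pm_202 : ∃ t, chk3 f_pm_202 t 31 63 3 = true :=
  ⟨(a (b (a (l 141466361003327519) (c (l 141548824403492895) (l 141677742113701919))) (a (c (l 141478249492414495) (l 141444645642600479)) (a (l 141519481178095647) (l 141558788727144479)))) (a (b (b (a (l 141564629877407775) (c (l 141630738036768799) (l 141559132310781983))) (a (l 141575899876868127) (l 141611221695594527))) (a (l 141598302434738207) (c (l 141674031322742815) (l 141600432730963999)))) (a (b (c (b (l 141667090647793695) (l 141686400827392031)) (b (l 141587719619641375) (l 141605861567676447))) (c (b (l 141707360274759711) (l 141729900270469151)) (b (l 141625515344543775) (l 141646749669720095)))) (b (c (a (b (l 141694578444419103) (l 141716225086701599)) (b (c (a (l 141729900266930207) (b (l 141733885996810271) (l 141745499592114207))) (b (l 141685576186642463) (l 141696571306475551))) (c (a (l 141753127457554463) (b (l 141802536761638943)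 (a (l 141767283673415711) (l 141772643793747999)))) (a (l 141709078255714335) (b (l 141712582949224479) (l 141724540141961247)))))) (b (a (l 141609297540284447) (c (a (l 141642489058541599) (l 141650185641689119)) (l 141600913758928927))) (a (l 141629432353587231) (a (l 141641252106289183) (b (l 141643588568547359) (l 141744949800304671)))))) (c (a (b (l 141739520996769823) (l 141854557408657439)) (b (c (a (l 141778072635457567) (b (a (l 141780065500069919) (l 141785631778881567)) (b (l 141792778606919711) (l 141799513117720607)))) (a (l 141733130080157727) (b (l 141736978371117087) (l 141749828917231647)))) (b (a (l 141775186414698527) (c (b (l 141806385067491359) (l 141813394456231967)) (l 141763091780288543))) (a (l 141788724155744287) (a (l 141887680204144671) (c (c (l 141838958109999135) (l 141815387320418335)) (l 141779653178933279))))))) (a (b (l 141651147715182623) (l 141674512344580127)) (a (b (l 141664066979741727) (l 141778553635504159)) (b (c (b (l 141690317828767775) (l 141702687338397727)) (l 141648673810055199))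 (c (b (l 141715469164986399) (l 141728732027994143)) (b (l 141666953196486687) (l 141679666303549471))))))))))), by decide +kernel⟩

theorem s27_pm_202 : ∃ t, chk3 f_pm_202 t 31 31 3 = true := ex3_b k25_pm_202 k26_pm_202

theorem s28_pm_202 : ∃ t, chk3 f_pm_202 t 31 15 3 = true := ex3_b k24_pm_202 s27_pm_202

theorem s29_pm_202 : ∃ t, chk3 f_pm_202 t 255 63 2 = true := ex3_b k22_pm_202 k23_pm_202

theorem s30_pm_202 : ∃ t, chk3 f_pm_202 t 255 62 2 = true := ex3_c k20_pm_202 k21_pm_202

theorem s31_pm_202 : ∃ t, chk3 f_pm_202 t 255 31 2 = true := ex3_b s30_pm_202 s29_pm_202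

theorem s32_pm_202 : ∃ t, chk3 f_pm_202 t 127 31 2 = true := ex3_a k19_pm_202 s31_pm_202

theorem s33_pm_202 : ∃ t, chk3 f_pm_202 t 63 31 2 = true := ex3_a k18_pm_202 s32_pm_202

theorem s34_pm_202 : ∃ t, chk3 f_pm_202 t 31 31 2 = true := ex3_a k17_pm_202 s33_pm_202

theorem s35_pm_202 : ∃ t, chk3 f_pm_202 t 31 15 2 = true := ex3_b k16_pm_202 s34_pm_202

theorem s36_pm_202 : ∃ t, chk3 f_pm_202 t 31 15 1 = true := ex3_c s35_pm_202 s28_pm_202

theorem s37_pm_202 : ∃ t, chk3 f_pm_202 t 15 15 1 = true := ex3_a k15_pm_202 s36_pm_202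

theorem s38_pm_202 : ∃ t, chk3 f_pm_202 t 7 15 1 = true := ex3_a k14_pm_202 s37_pm_202

theorem s39_pm_202 : ∃ t, chk3 f_pm_202 t 3 15 1 = true := ex3_a k13_pm_202 s38_pm_202

theorem s40_pm_202 : ∃ t, chk3 f_pm_202 t 1 15 1 = true := ex3_a k12_pm_202 s39_pm_202

theorem s41_pm_202 : ∃ t, chk3 f_pm_202 t 7 14 1 = true := ex3_b k10_pm_202 k11_pm_202

theorem s42_pm_202 : ∃ t, chk3 f_pm_202 t 3 14 1 = true := ex3_a k9_pm_202 s41_pm_202

theorem s43_pm_202 : ∃ t, chk3 f_pm_202 t 1 14 1 = true := ex3_a k8_pm_202 s42_pm_202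

theorem s44_pm_202 : ∃ t, chk3 f_pm_202 t 1 7 1 = true := ex3_b s43_pm_202 s40_pm_202

theorem s45_pm_202 : ∃ t, chk3 f_pm_202 t 7 6 1 = true := ex3_b k6_pm_202 k7_pm_202

theorem s46_pm_202 : ∃ t, chk3 f_pm_202 t 3 6 1 = true := ex3_a k5_pm_202 s45_pm_202

theorem s47_pm_202 : ∃ t, chk3 f_pm_202 t 1 6 1 = true := ex3_a k4_pm_202 s46_pm_202

theorem s48_pm_202 : ∃ t, chk3 f_pm_202 t 1 3 1 = true := ex3_b s47_pm_202 s44_pm_202

theorem s49_pm_202 : ∃ t, chk3 f_pm_202 t 3 5 1 = true := ex3_a k2_pm_202 k3_pm_202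

theorem s50_pm_202 : ∃ t, chk3 f_pm_202 t 1 5 1 = true := ex3_a k1_pm_202 s49_pm_202

theorem s51_pm_202 : ∃ t, chk3 f_pm_202 t 1 2 1 = true := ex3_b k0_pm_202 s50_pm_202

theorem s52_pm_202 : ∃ t, chk3 f_pm_202 t 1 1 1 = true := ex3_b s51_pm_202 s48_pm_202

theorem c_pm_202 : CertB 0 536870912 0 536870912 536870912 50465866 3 eng mog cd0q2 cd0q0 pd2 true true false .pp 2 0 2
    ndB0q2 ndB0q0 pcB2 cut_pm_202 xt_pm_202 :=
  certB1 (fam := true) (s1 := true) (s2 := false) (a := 2) (b := 0) (c := 2) (cn := .pp) (n1 := ndB0q2) (n2 := ndB0q0) (pc := pcB2) (cut := cut_pm_202) (xt := xt_pm_202) (P1 := 0) (W1 := 536870912) (P2 := 0) (W2 := 536870912) (P3 := 536870912) (W3 := 50465866) (N0 := 3) (En := eng) (mo := mog) (C1 := cd0q2) (C2 := cd0q0) (C3 := pd2)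
    rfl (fun _ => rfl) s52_pm_202

noncomputable def cut_pm_203 : Cut := Cut.of [[⟨3, 0, 0, 1449551462⟩], [⟨4, 0, 0, 2845415833⟩], [⟨0, 1, 0, 33554432⟩, ⟨1, 0, 1, 20971520⟩, ⟨2, 1, 1, 20971520⟩]]

noncomputable def xt_pm_203 : Ext := extD2 3 ⟨7, 3, 3, 10, 1741, 1000, 23, 25, 19, 50, 3, 16⟩ eng cd0q2 cd0q0 pd3 true true false .up 2 0 3 rfl ndB0q2 ndB0q0 pcB3

noncomputable def f_pm_203 : ℕ → ℕ → ℕ → ℕ → Bool := onCell 0 536870912 1610612736 536870912 536870912 50465866
    (rowB 3 eng mog cd0q2 cd0q0 pd3 1 true true false .up 2 0 3 (qsf 0 536870912 0 536870912 3) ndB0q2 ndB0q0 pcB3 cut_pm_203 xt_pm_203)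

def k0_pm_203 : ∃ t, chk3 f_pm_203 t 2 4 1 = true :=
  ⟨(b (a (a (b (a (l 16666888) (l 16651848)) (a (l 16663760) (l 16649952))) (b (l 16656984) (l 16697992))) (b (a (b (l 16550288) (l 16555680)) (b (l 16489408) (l 16479896))) (a (b (l 16557936) (l 16557024)) (b (l 16506232) (l 16535256))))) (a (a (b (a (l 16667496) (l 16651128)) (a (l 14) (l 16697672))) (b (a (l 16636040) (l 16621256)) (a (l 16686984) (l 16678144)))) (b (a (l 16592384) (b (l 16567624) (l 16605864))) (a (l 16644440) (a (l 16657512) (l 16654712)))))), by decide +kernel⟩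

def k1_pm_203 : ∃ t, chk3 f_pm_203 t 3 8 1 = true :=
  ⟨(a (b (a (b (l 16541480) (l 16482136)) (a (b (l 16518408) (l 16501352)) (b (l 16527720) (l 16517920)))) (a (b (l 16496728) (l 16481824)) (a (b (l 16500832) (l 16523760)) (b (l 16516944) (l 16540736))))) (a (b (a (b (l 16539472) (l 16537256)) (b (a (l 16549952) (a (l 16556024) (l 16560616))) (a (l 16552920) (b (l 16562680) (l 16567368))))) (a (b (l 16540424) (a (l 16559304) (l 16573440))) (b (a (l 16562472) (l 16578576)) (a (l 83315228599) (l 156866609655))))) (b (a (b (b (a (a (l 16563656) (l 16568160)) (a (l 141657676090032159) (c (l 141759999430475807) (l 141633211936751647)))) (a (a (l 16567032) (l 16572368)) (a (l 141694372301127711) (l 141742201068437535)))) (b (a (a (l 16571648) (l 16577752)) (a (l 141743850336649247) (l 141795939713024031))) (a (l 141720760585666591) (a (l 141803498856693791) (l 141859573964177439))))) (a (a (b (b (l 141740895396544543) (l 141790167274913823)) (b (l 141848441406521375) (l 2))) (b (b (c (l 141860329890283551) (l 141704680209711135))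 (c (l 141918878900748319) (l 141754639283421215))) (l 2))) (b (b (c (a (a (l 141898194331041823) (l 141923551824085023)) (c (l 22) (b (a (l 141889673105866783) (a (l 141906852979212319) (c (l 22) (a (l 141892284443115551) (b (b (c (l 141897782003712031) (l 141874417372495903)) (l 2)) (l 2)))))) (a (l 141920596879392799) (l 2))))) (a (a (l 141731480812208159) (l 141749416600092703)) (a (b (l 141843768442126367) (l 141871599838330911)) (b (b (a (l 141759655803764767) (c (a (l 141814081649082399) (b (c (l 141838958108835871) (l 141790991895855135)) (l 2))) (a (l 141717049711624223) (l 141810851798319135)))) (a (l 141773674581164063) (l 2))) (l 2))))) (a (a (c (l 141960660352991263) (l 141785425616814111)) (l 2)) (l 2))) (l 2)))) (a (b (a (a (l 16591176) (l 125728039703)) (l 2)) (l 2)) (l 2))))), by decide +kernel⟩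

def k2_pm_203 : ∃ t, chk3 f_pm_203 t 3 9 1 = true :=
  ⟨(a (a (b (b (l 16597136) (l 16597456)) (a (l 16653616) (l 16652568))) (b (a (b (l 16552048) (l 16596192)) (b (l 16568920) (l 16611368))) (a (l 182636585623) (l 2)))) (a (b (a (b (a (l 16587320) (l 146666085831)) (l 2)) (l 2)) (l 2)) (l 2))), by decide +kernel⟩

def k3_pm_203 : ∃ t, chk3 f_pm_203 t 1 5 1 = true :=
  ⟨(a (b (a (a (l 14) (b (a (l 16725000) (l 16719664)) (l 2))) (b (a (l 16733800) (a (l 16708520) (l 16708208))) (l 2))) (l 2)) (a (l 2) (l 2))), by decide +kernel⟩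

def k4_pm_203 : ∃ t, chk3 f_pm_203 t 1 3 1 = true :=
  ⟨(l 2), by decide +kernel⟩

theorem s5_pm_203 : ∃ t, chk3 f_pm_203 t 3 4 1 = true := ex3_b k1_pm_203 k2_pm_203

theorem s6_pm_203 : ∃ t, chk3 f_pm_203 t 1 4 1 = true := ex3_a k0_pm_203 s5_pm_203

theorem s7_pm_203 : ∃ t, chk3 f_pm_203 t 1 2 1 = true := ex3_b s6_pm_203 k3_pm_203

theorem s8_pm_203 : ∃ t, chk3 f_pm_203 t 1 1 1 = true := ex3_b s7_pm_203 k4_pm_203

theorem c_pm_203 : CertB 0 536870912 0 536870912 536870912 50465866 3 eng mog cd0q2 cd0q0 pd3 true true false .up 2 0 3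
    ndB0q2 ndB0q0 pcB3 cut_pm_203 xt_pm_203 :=
  certB1 (fam := true) (s1 := true) (s2 := false) (a := 2) (b := 0) (c := 3) (cn := .up) (n1 := ndB0q2) (n2 := ndB0q0) (pc := pcB3) (cut := cut_pm_203) (xt := xt_pm_203) (P1 := 0) (W1 := 536870912) (P2 := 0) (W2 := 536870912) (P3 := 536870912) (W3 := 50465866) (N0 := 3) (En := eng) (mo := mog) (C1 := cd0q2) (C2 := cd0q0) (C3 := pd3)
    rfl (fun _ => rfl) s8_pm_203

noncomputable def cut_pm_213 : Cut := Cut.of [[⟨3, 0, 0, 1449551462⟩], [⟨4, 0, 0, 2845415833⟩], [⟨0, 1, 0, 67108864⟩, ⟨1, 1, 0, 67108864⟩, ⟨2, 2, 0, 16777216⟩], [⟨0, 1, 0, 33554432⟩, ⟨1, 0, 1, 20971520⟩, ⟨2, 1, 1, 20971520⟩]]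

noncomputable def xt_pm_213 : Ext := extD2 3 ⟨7, 3, 3, 10, 1741, 1000, 23, 25, 19, 50, 3, 16⟩ eng cd0q2 cd0q1 pd3 true true false .pnn 2 1 3 rfl ndB0q2 ndB0q1 pcB3

noncomputable def f_pm_213 : ℕ → ℕ → ℕ → ℕ → Bool := onCell 0 536870912 536870912 536870912 536870912 50465866
    (rowB 3 eng mog cd0q2 cd0q1 pd3 0 true true false .pnn 2 1 3 (qsf 0 536870912 536870912 536870912 3) ndB0q2 ndB0q1 pcB3 cut_pm_213 xt_pm_213)

def k0_pm_213 : ∃ t, chk3 f_pm_213 t 2 1 1 = true :=
  ⟨(b (b (a (b (a (l 14) (b (a (l 14) (l 16738800)) (l 14))) (l 14)) (b (a (b (a (l 16733040) (l 16724800)) (a (l 16751376) (l 16748640))) (b (a (l 16715728) (l 16704568)) (a (l 16745688) (l 16741296)))) (a (b (a (l 14) (l 16787208)) (l 14)) (b (a (l 16765824) (l 16765744)) (a (l 16782192) (l 16784576)))))) (b (a (l 14) (a (l 14) (b (a (l 14) (l 16796272)) (l 14)))) (l 14))) (l 14)), by decide +kernel⟩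

def k1_pm_213 : ∃ t, chk3 f_pm_213 t 6 2 1 = true :=
  ⟨(b (b (a (b (a (l 16690072) (l 16671120)) (a (l 16734296) (l 16723704))) (a (b (l 16646744) (l 16708008)) (b (l 16629024) (l 16695616)))) (a (b (a (l 16764688) (l 16761488)) (a (l 16786560) (l 16787848))) (b (a (l 16754832) (b (l 16735280) (l 16757712))) (a (l 16787768) (a (l 16785840) (l 16785272)))))) (b (a (b (a (l 16801016) (l 16805416)) (a (l 16810272) (l 16817304))) (b (a (l 16809328) (a (l 16811888) (b (l 16807656) (l 16818800)))) (a (l 16824016) (a (l 16828968) (l 16832328))))) (a (a (l 14) (b (l 16822440) (l 14))) (b (a (l 16831608) (b (l 16839384) (l 16841928))) (a (b (l 16831024) (l 14)) (b (l 16842056) (l 16839584))))))), by decide +kernel⟩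

def k2_pm_213 : ∃ t, chk3 f_pm_213 t 14 8 1 = true :=
  ⟨(b (a (b (a (l 16598720) (b (l 16585992) (l 16602576))) (l 16635624)) (b (a (b (l 16589160) (l 16601032)) (b (l 16591912) (l 16562656))) (a (b (b (l 16612032) (l 16621624)) (l 16636520)) (a (b (l 16615560) (l 16632144)) (b (l 16617264) (l 16630688)))))) (a (a (l 16689496) (l 16685760)) (a (l 16682000) (a (l 16679160) (l 16593368))))), by decide +kernel⟩

def k3_pm_213 : ∃ t, chk3 f_pm_213 t 30 8 1 = true :=
  ⟨(b (b (b (a (l 141745362183815199) (a (l 141865964867911711) (l 141850365552066591))) (a (c (l 16593000) (l 16580368)) (a (l 142041337000820767) (l 141823771137081375)))) (b (a (a (l 16619336) (l 16579072)) (a (l 141844661887336479) (l 141813875520143391))) (a (a (l 16631136) (l 16612152)) (a (c (l 16662056) (l 16587128)) (l 141973029813272607))))) (a (b (b (a (l 16646872) (c (l 16672272) (l 16578056))) (l 16665000)) (l 16671168)) (b (b (a (c (l 16673608) (l 142265431240376351)) (c (l 142719735814045855) (l 142243578450477087))) (b (a (a (l 16657440)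 (l 142607104553238559)) (a (l 142595903279759391) (l 142587588225531935))) (a (l 16666608) (a (l 142674243498639391) (l 142660499603406879))))) (a (l 142915242753818655) (a (l 142890297581355039) (b (l 142786943467552799) (l 142956955490631839))))))), by decide +kernel⟩

def k4_pm_213 : ∃ t, chk3 f_pm_213 t 62 8 1 = true :=
  ⟨(b (a (b (b (c (l 141859574007922719) (l 141782333240508447)) (c (l 141859230444060703) (l 141845623894687775))) (b (l 141959285975924767) (a (l 141952276618674207) (l 141937226967941151)))) (b (b (c (l 141993233386471455) (l 141789961104113695)) (c (l 141998181223759903) (l 141853664075956255))) (a (b (l 141930355075334175) (l 141921077977038879)) (b (a (l 141914893192314911) (l 141993989309300767)) (l 141993989341724703))))) (b (c (a (b (l 142700356925603999) (l 142843637059633311)) (b (a (l 142683726814478495) (l 142671563468193951)) (a (l 142831267557245087) (l 142822127868772511)))) (a (b (l 142219045600182303) (l 142374282925555743)) (b (a (l 142197948722151455) (l 142182486840344607))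 (a (l 142358133851111455) (l 142346107944026143))))) (b (a (b (a (l 142547112483127327) (l 142715543921442847)) (a (l 142813056876675231) (l 142795602128011423))) (a (b (l 142707297586462751) (c (l 143008495119679647) (l 142551373054738591))) (c (l 142965751600824479) (l 142322399752716319)))) (a (l 142932834952183967) (a (l 142908439535812767) (b (c (l 143073916077818015) (b (l 142599064383897759) (l 142643319736189087))) (l 142934896542351519))))))), by decide +kernel⟩

def k5_pm_213 : ∃ t, chk3 f_pm_213 t 63 16 2 = true :=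
  ⟨(b (c (b (l 30) (a (b (l 142039344208232479) (l 141950215064207391)) (a (b (l 30) (l 142007389665902623)) (l 30)))) (c (l 30) (b (a (a (l 141906028345131039) (l 141910357672706079)) (a (b (l 141897782004023327) (l 141930148886822943)) (a (b (l 141899499990695967) (l 141931935593119775)) (b (a (l 141900049746296863) (b (a (l 141892490601398303) (a (l 141892559320809503) (b (l 141888779748376607) (l 141919085039927327)))) (c (l 30) (b (l 141892490600235039) (l 141900462061879327))))) (a (l 141932622787739679) (b (a (l 141924582606454815) (b (c (l 30) (l 141908639681921055)) (l 30))) (l 30))))))) (l 30)))) (a (b (a (l 141965608223277087) (b (l 141899774954618911) (l 141989522608144415))) (b (l 142086073489702943) (a (l 142538041503678623) (l 142521480109506719)))) (b (c (a (a (l 142058448263479455) (b (l 142363150413840543) (l 142452623189573791))) (a (b (l 142082019033481375) (l 142081881611681951)) (c (b (b (l 30) (c (l 142462312643707039) (l 30))) (b (a (l 142476949893496991) (l 142471727212773535)) (a (l 142521136525475999)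 (l 142516051283738783)))) (l 30)))) (l 30)) (a (b (b (l 142080369724440607) (l 142079132825026719)) (l 141963409238245535)) (c (b (a (b (l 142508423416365215) (l 142551854133887135)) (c (b (l 142562436939120799) (l 142605730217689247)) (a (l 142098374287392927) (b (c (l 142463480870060191) (l 30)) (l 142385484264947871))))) (a (l 142615900698247327) (b (l 142405206735011999) (l 142628064049103007)))) (b (l 30) (a (l 142182486900080799) (c (a (l 142418881914126495) (b (l 30) (l 142435786909188255))) (l 30))))))))), by decide +kernel⟩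

def k6_pm_213 : ∃ t, chk3 f_pm_213 t 63 17 2 = true :=
  ⟨(a (a (b (b (l 142658438048891039) (l 142812094826774687)) (b (l 142958261180203167) (b (l 143064226632614047) (l 143140299109056671)))) (b (b (l 142103871872024735) (b (l 142762685517234335) (l 142839101589356703))) (b (l 142950289723015327) (b (l 143057354687234207) (b (l 143109993816080543) (l 143147583377522847)))))) (b (a (b (a (l 142092601877889183) (l 142084767814500511)) (b (c (l 142869681771217055) (l 142629163546624159)) (c (l 142945960404517023) (l 142709015593369759)))) (b (a (b (c (l 142699394878177439) (l 142449943119937695)) (l 142118028048810143)) (b (c (c (l 142753064803664031) (l 142628888680251551)) (c (b (l 142481966405959839) (l 142525053525999775)) (l 30))) (c (l 142773405769810079) (a (l 142528764375515295) (b (a (l 142504162798698655) (l 142321712544923807)) (l 142365486859681951)))))) (b (c (l 142676786200543391) (a (l 142618237149970591) (c (l 142671769636438175) (b (l 142528077178388639) (l 142570064786538655))))) (c (a (l 142937645348585631)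 (l 142931872912916639)) (a (l 142699326104699039) (b (l 142672250670203039) (a (l 142714375716962463) (l 142711008462717087)))))))) (b (b (a (l 142904110229553311) (c (l 143010694166724767) (a (l 142778490999570591) (a (l 142774024233910431) (l 142771000534171807))))) (a (l 142978327278092447) (c (l 143084636337455263) (a (l 142855594266787999) (l 142850509026164895))))) (a (b (l 143050757619875999) (l 142941356225904799)) (c (l 143192182338486431) (b (l 142928780523896991) (l 143002516536098975))))))), by decide +kernel⟩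

def k7_pm_213 : ∃ t, chk3 f_pm_213 t 63 32 3 = true :=
  ⟨(a (b (b (l 141870431607848991) (l 141877441002749983)) (a (l 141857100050661407) (b (l 141842050480930847) (l 141875654314246175)))) (a (b (b (c (l 141828581463883807) (l 141733198794080287)) (c (l 141859367798276127) (l 141761786104627231))) (b (c (l 141892146997919775) (l 141792297560932383)) (c (l 141926987782275103) (l 141824733162979359)))) (b (b (b (a (l 141773605861670943) (c (a (l 141821365915779103) (c (b (l 141841432010735647) (l 141848991155421215)) (l 141796970492133407))) (a (l 141723852941836319) (l 141768108284477471)))) (a (l 141878128190013471) (c (a (l 141836415485607967) (a (l 141836278046457887) (c (c (l 141895101932257311) (l 141848372678852639)) (l 141811745183924255)))) (c (l 141807553277657119) (l 141712239345008671))))) (a (c (l 141859848834252831) (l 141760549153341471)) (c (b (a (l 141851877372379167) (a (l 141851808652738591) (c (b (l 141872287064817695) (l 141880327245922335)) (l 141827000912216095)))) (a (l 141867889015078943)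 (a (l 141957842809978911) (b (c (l 141922246129090591) (l 141838751946162207)) (c (c (l 141909051996635167) (l 141884312975622175)) (l 141846723407773727)))))) (a (l 141849678314225695) (c (b (l 141776973114638367) (l 141792160123420703)) (b (l 141725914524844063) (l 141740551777648671))))))) (b (a (c (l 141892696753487903) (l 141791129329238047)) (c (a (c (l 141917779371737119) (l 141867476695875615)) (c (c (l 30) (b (b (l 141892628034748447) (l 141901011813318687)) (b (l 141932141738721311) (l 30)))) (b (b (l 141854901027897375) (l 141908158624710687)) (a (l 141875723035328543) (b (l 141871393706983455) (l 141879846205030431)))))) (a (c (l 141816280666800159) (l 141764191284543519)) (c (b (l 141807759449145375) (a (l 141824045969801247) (l 141823771091763231))) (b (l 141755670066888735) (l 141771200673087519)))))) (a (c (l 141927537537974303) (l 141823633650892831)) (c (c (l 30) (a (l 141901836443926559) (b (a (l 141892902909362207) (a (l 141892834189819935) (b (l 141888436142047263) (l 141897163518050335)))) (c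 (l 30) (b (l 141892971627692063) (l 141901836442681375)))))) (a (c (l 141849472183435295) (l 141796145850286111)) (c (b (b (l 141836278040117279) (l 141844730538131487)) (b (l 141853251755655199) (l 141861979131641887))) (b (l 141787212315721759) (l 141803773714284575)))))))))), by decide +kernel⟩

def k8_pm_213 : ∃ t, chk3 f_pm_213 t 63 33 3 = true :=
  ⟨(b (b (a (a (l 141910151500791839) (l 141911594610245663)) (a (c (l 141963958870835231) (l 141859161630294047)) (a (c (l 142009519883911199) (l 141858199557259295)) (b (c (b (a (l 141950489849430047) (c (l 30) (c (l 30) (l 141910838696656927)))) (l 30)) (a (l 141848647547306015) (a (l 141938257744805919) (c (b (l 141870637788119071) (l 141879571322568735)) (l 141820541271293983))))) (c (l 30) (a (l 141866377177219103) (a (l 141956056094228511) (c (a (l 141893246502240287) (b (l 141888504857034783) (l 141897713269473311))) (l 141883075999989791))))))))) (c (l 30) (a (l 141895857840554015) (a (l 141895789121290271) (a (l 141894689609416735) (b (a (l 141884656563060767)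 (c (c (l 30) (b (l 141893383940112415) (l 141902729791520799))) (b (l 141851671202906143) (l 141860742176342047)))) (a (l 141903485704831007) (b (c (c (l 30) (l 141912213081915423)) (l 141870019308240927)) (c (l 30) (a (l 141879571318112287) (l 141879227720630303))))))))))) (c (l 30) (c (l 30) (a (l 141925201062101023) (a (b (l 141905890884632607) (l 141945267155206175)) (b (a (l 141904860092350495) (a (l 141904035458449439) (b (a (l 141893864973172767) (b (l 141888711011024927) (l 141943342997651487))) (c (l 30) (b (l 141893727533056031) (l 141903554420883487)))))) (a (l 141944579960504351) (a (l 141943892765687839) (a (l 141943549168255007) (b (c (l 30) (l 141918329112379423)) (l 30))))))))))), by decide +kernel⟩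

def k9_pm_213 : ∃ t, chk3 f_pm_213 t 63 17 3 = true :=
  ⟨(b (a (a (b (l 141985605496619039) (l 142332982439067679)) (b (l 141967669755822111) (b (l 142276701266427935) (l 142360126726504479)))) (c (a (b (a (l 142260002437808159) (l 30)) (b (l 142024019714048159) (a (l 142471314867880095) (l 142464168042512543)))) (b (l 30) (a (b (l 142011581553049759) (b (l 142435649455882399) (l 142477499625013407))) (c (b (a (l 142427540559675551) (b (l 30) (l 142444720432775327))) (b (l 142399090708201631) (a (l 142532956256698527) (c (l 142559688140144799) (l 142498665230876831))))) (l 30))))) (l 30))) (a (b (a (l 142492411739930655) (a (l 142484371562315807) (l 142298485335457823))) (b (a (b (l 142588137988341919) (l 142627445536424095)) (l 142598652073820319)) (a (l 142693278808850591) (b (a (l 142658575467724959) (l 142653627666137247)) (a (l 142702006185984159) (l 142693897287303327)))))) (a (b (a (c (l 142592055010738335) (l 142352155263189023)) (b (l 142245090295496735) (l 142326797768425631))) (b (c (l 142706198083436703)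 (l 142471108700127391)) (a (c (l 142783988544487583) (l 142552747452596383)) (l 142664485306106015)))) (b (b (c (a (l 142539415885054111) (b (c (l 142572401244094623) (c (l 142481347916693663) (l 30))) (c (l 142613289340387487) (a (l 142494404618092703) (l 142490899924893855))))) (l 30)) (c (a (l 142620161285210271) (a (l 142615694519599263) (b (l 142592329850994847) (l 142632736953794719)))) (c (a (l 142440734690738335) (a (l 142435718169215135) (b (l 30) (l 142453104179396767)))) (l 30)))) (a (c (b (l 142698982539608223) (l 142775879648280735)) (b (l 142102428676227231) (l 142543195447083167))) (c (b (b (l 142674106086080671) (l 142713413634080927)) (l 142771550279237791)) (c (b (a (l 142517906678644895) (b (l 142494473333555359) (l 142535292710322335))) (a (l 142598102322856095) (l 142595559702610079))) (b (l 30) (a (l 142480385832665247) (b (l 142457158629982367) (l 142497909303345311))))))))))), by decide +kernel⟩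

def k10_pm_213 : ∃ t, chk3 f_pm_213 t 14 9 1 = true :=
  ⟨(b (a (l 16743272) (b (l 16727032) (l 16753520))) (a (l 16785528) (a (l 16786408) (l 16787288)))), by decide +kernel⟩

def k11_pm_213 : ∃ t, chk3 f_pm_213 t 30 9 1 = true :=
  ⟨(b (b (a (l 16724480) (b (l 143136725678506143) (l 16678176))) (a (l 16752760) (c (l 16773776) (l 16731048)))) (b (a (l 16777336) (l 16736176)) (a (l 16798512) (l 16779320)))), by decide +kernel⟩

def k12_pm_213 : ∃ t, chk3 f_pm_213 t 31 18 1 = true :=
  ⟨(b (a (c (b (l 143288046011793567) (l 143424729083199583)) (b (a (l 142886243133603999) (l 142852776745533599)) (l 143029317118312607))) (c (a (b (l 143252037004279967) (l 143394148915511391)) (b (b (a (b (l 143175620932567199) (l 143214653603692703)) (b (l 143167993072287903) (a (l 143205857510539423) (l 143201871781576863)))) (a (l 143271965660397727) (c (l 143367417038962847) (b (l 143132465091985567) (l 143170673129898143))))) (c (l 143475306642260063) (a (l 143275951390359711) (l 143264131639984287))))) (a (b (b (l 142774780126937247)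 (l 142861916442443935)) (l 142984374577348767)) (a (b (b (b (a (l 142729768862908575) (a (l 142543882678108319) (l 142540927740805279))) (l 142770725680349343)) (l 142656513924448415)) (c (l 143067387728609439) (l 142854288581394591))) (a (b (b (b (c (l 142832367068577951) (l 142602294207971487)) (c (l 142871812055924895) (b (a (l 142633767733887135) (l 142630537918595231)) (l 142654589740007583)))) (c (l 142935308866306207) (l 142711352040128671))) (c (l 143056667489632415) (l 142841781635678367))) (b (b (c (b (l 142828656217915551) (a (l 142867345290084511) (l 142865214986764447))) (b (a (l 142598926954315935) (l 142596659190562975)) (a (b (l 142628338895782047) (c (l 142705923201876127) (l 142590611893813407))) (l 142455852979273887)))) (a (c (l 142929330271404191) (l 142704480091865247)) (b (c (l 142904728693801119) (b (c (l 142723858989645983) (b (l 142603187561250975) (l 142614320118792351))) (l 142688674609348767))) (c (l 142946166547611807) (c (l 142778559705186463) (a (l 142666615651909791) (l 142664279189504159)))))))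 (b (c (l 143009388480184479) (a (l 142792372321976479) (a (l 142789142506307743) (c (c (l 142869819190935711) (l 142814637438386335)) (b (b (l 142697951740477599) (c (l 142748185689227423) (l 142692179302924447))) (c (l 142781033606316191) (b (l 142714513137729695) (l 142736640814071967)))))))) (c (l 143089103091122335) (a (l 142877859369795743) (c (l 142927612261695647) (a (l 142820753471897759) (b (b (l 142786118826918047) (l 142807834207764639)) (l 142840063649366175))))))))))))) (a (c (l 143612333298974815) (b (l 143179331769335967) (l 143321168800465055))) (c (a (l 143589312275316831) (b (b (l 143475581476257887) (l 143541346073821279)) (l 143636316412723423))) (a (b (l 143139955507118239) (l 143287083939004575)) (a (b (l 143119820699451551) (l 143269697910947999)) (b (b (a (l 143070480106045599) (b (c (l 143147377220436127) (l 142938538681286815)) (l 143083193170264223))) (c (l 143244890179043487) (l 143043885661388959))) (c (l 143353604415258783) (l 143161121113915551)))))))), by decide +kernel⟩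

def k13_pm_213 : ∃ t, chk3 f_pm_213 t 31 19 1 = true :=
  ⟨(a (c (b (l 16778776) (l 16821552)) (a (b (l 143528564224032863) (l 143765715188121823)) (b (l 143510972038234207) (l 143754032878452959)))) (c (b (b (l 143761935642886367) (l 143873398659465439)) (c (l 144097492928135455) (l 143957717471396063))) (c (b (b (l 143504856013275359) (l 143632811706532063)) (a (l 143816567624106207) (l 143806740740948191))) (b (c (b (l 143371746353250463) (l 143507673506955487)) (a (l 143363706167214239) (b (l 143269766627115167) (l 143412634449035423)))) (a (l 143666484246249695) (b (l 143588693765275871) (c (l 143752177457594591) (l 143676036256973023)))))))), by decide +kernel⟩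

def k14_pm_213 : ∃ t, chk3 f_pm_213 t 7 5 1 = true :=
  ⟨(b (a (b (a (b (l 16809728) (c (l 16835552) (l 16810296))) (c (l 16836136) (b (l 16798000) (l 16814360)))) (a (a (l 16836416) (l 16840768)) (a (b (l 16839920) (l 16850096)) (b (l 16843984) (l 16855376))))) (b (b (a (a (l 16816744) (l 16798432)) (c (a (l 16840280) (l 144215415570022687)) (c (a (l 16813368) (l 144029048291623199)) (a (l 143912843613864159) (a (l 143900405391687903) (b (c (l 143868931871932639) (l 143797601035370719)) (c (l 143981837994361119) (l 143915111363379487)))))))) (a (a (l 16833112) (l 16836584)) (b (c (a (l 16853024) (l 144349830893994271)) (c (b (l 144158721966063903) (l 144211635972735263)) (a (l 144073715939574047) (b (l 144035714069381407) (l 144093919476564255))))) (c (l 144459644630057311) (a (l 16828128) (c (l 144310729476227359) (l 144196792526913823))))))) (a (a (b (l 16848024) (l 16860736)) (c (l 16874048) (b (l 16837248) (l 16851984)))) (c (b (l 144634948039278943) (l 16889432)) (a (b (l 16841112) (l 16856680)) (a (b (l 144444388866425119)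 (l 16860392)) (b (b (l 144386870659727647) (l 144511527808614751)) (l 144683807561810271)))))))) (b (b (a (a (l 16849264) (l 16860592)) (a (c (l 16885752) (l 16860296)) (c (l 16900184) (a (l 16869016) (l 16874928))))) (a (a (l 16852968) (l 16865528)) (a (l 16879376) (c (l 16907176) (c (l 16887648) (l 16874400)))))) (b (a (a (a (l 16850856) (l 16857352)) (l 16867840)) (a (l 16882856) (l 16898968))) (a (a (a (l 16849184) (l 16856168)) (l 16867344)) (a (l 16883368) (l 16900544)))))), by decide +kernel⟩

def k15_pm_213 : ∃ t, chk3 f_pm_213 t 3 3 1 = true :=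
  ⟨(b (a (b (a (l 14) (b (a (l 14) (b (a (l 14) (l 16838048)) (l 14))) (l 14))) (l 14)) (b (a (b (a (b (a (l 16845088) (l 16852464)) (a (b (l 16840720) (l 14)) (l 16846960))) (b (l 16864264) (l 16859336))) (a (b (a (l 14) (b (c (l 16848576) (l 16835816)) (l 14))) (l 14)) (a (b (l 16849128) (a (l 14) (l 16844968))) (b (l 16857944) (l 16851832))))) (b (a (c (l 16887976) (l 16870280)) (c (l 16907576) (l 16887632))) (a (b (l 16871864) (a (l 16861312) (l 16871104))) (b (l 16891408) (l 16886440))))) (a (b (a (l 14) (b (a (l 14) (c (l 16852032) (l 16839808))) (l 14))) (l 14)) (b (a (b (a (c (l 16861920) (l 16848808)) (l 16865464)) (a (l 16850392) (l 16860328))) (b (l 16881264) (a (l 16870864) (l 16881896)))) (a (l 14) (b (a (l 16866024) (l 16877128)) (l 16866384))))))) (a (l 14) (b (l 14) (l 14)))), by decide +kernel⟩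

theorem s16_pm_213 : ∃ t, chk3 f_pm_213 t 31 9 1 = true := ex3_b k12_pm_213 k13_pm_213

theorem s17_pm_213 : ∃ t, chk3 f_pm_213 t 15 9 1 = true := ex3_a k11_pm_213 s16_pm_213

theorem s18_pm_213 : ∃ t, chk3 f_pm_213 t 7 9 1 = true := ex3_a k10_pm_213 s17_pm_213

theorem s19_pm_213 : ∃ t, chk3 f_pm_213 t 63 16 3 = true := ex3_b k7_pm_213 k8_pm_213

theorem s20_pm_213 : ∃ t, chk3 f_pm_213 t 63 8 3 = true := ex3_b s19_pm_213 k9_pm_213

theorem s21_pm_213 : ∃ t, chk3 f_pm_213 t 63 8 2 = true := ex3_b k5_pm_213 k6_pm_213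

theorem s22_pm_213 : ∃ t, chk3 f_pm_213 t 63 8 1 = true := ex3_c s21_pm_213 s20_pm_213

theorem s23_pm_213 : ∃ t, chk3 f_pm_213 t 31 8 1 = true := ex3_a k4_pm_213 s22_pm_213

theorem s24_pm_213 : ∃ t, chk3 f_pm_213 t 15 8 1 = true := ex3_a k3_pm_213 s23_pm_213

theorem s25_pm_213 : ∃ t, chk3 f_pm_213 t 7 8 1 = true := ex3_a k2_pm_213 s24_pm_213

theorem s26_pm_213 : ∃ t, chk3 f_pm_213 t 7 4 1 = true := ex3_b s25_pm_213 s18_pm_213

theorem s27_pm_213 : ∃ t, chk3 f_pm_213 t 7 2 1 = true := ex3_b s26_pm_213 k14_pm_213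

theorem s28_pm_213 : ∃ t, chk3 f_pm_213 t 3 2 1 = true := ex3_a k1_pm_213 s27_pm_213

theorem s29_pm_213 : ∃ t, chk3 f_pm_213 t 3 1 1 = true := ex3_b s28_pm_213 k15_pm_213

theorem s30_pm_213 : ∃ t, chk3 f_pm_213 t 1 1 1 = true := ex3_a k0_pm_213 s29_pm_213

theorem c_pm_213 : CertB 0 536870912 536870912 536870912 536870912 50465866 3 eng mog cd0q2 cd0q1 pd3 true true false .pnn 2 1 3
    ndB0q2 ndB0q1 pcB3 cut_pm_213 xt_pm_213 :=
  certB0 (fam := true) (s1 := true) (s2 := false) (a := 2) (b := 1) (c := 3) (cn := .pnn) (n1 := ndB0q2) (n2 := ndB0q1) (pc := pcB3) (cut := cut_pm_213) (xt := xt_pm_213) (P1 := 0) (W1 := 536870912) (P2 := 536870912) (W2 := 536870912) (P3 := 536870912) (W3 := 50465866) (N0 := 3) (En := eng) (mo := mog) (C1 := cd0q2) (C2 := cd0q1) (C3 := pd3)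
    rfl s30_pm_213

noncomputable def cut_mm_001 : Cut := Cut.of [[⟨3, 0, 0, 1449551462⟩], [⟨4, 0, 0, 2845415833⟩]]

noncomputable def f_mm_001 : ℕ → ℕ → ℕ → ℕ → Bool := onCell 0 536870912 0 536870912 536870912 50465866
    (rowB 3 eng mog cd0q0 cd0q0 pd1 0 true false false .up 0 0 1 (qsf 0 536870912 0 536870912 1) ndB0q0 ndB0q0 pcB1 cut_mm_001 Ext.none)

def k0_mm_001 : ∃ t, chk3 f_mm_001 t 1 1 1 = true :=
  ⟨(l 4), by decide +kernel⟩

theorem c_mm_001 : CertB 0 536870912 0 536870912 536870912 50465866 3 eng mog cd0q0 cd0q0 pd1 true false false .up 0 0 1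
    ndB0q0 ndB0q0 pcB1 cut_mm_001 Ext.none :=
  certB0 (fam := true) (s1 := false) (s2 := false) (a := 0) (b := 0) (c := 1) (cn := .up) (n1 := ndB0q0) (n2 := ndB0q0) (pc := pcB1) (cut := cut_mm_001) (xt := Ext.none) (P1 := 0) (W1 := 536870912) (P2 := 0) (W2 := 536870912) (P3 := 536870912) (W3 := 50465866) (N0 := 3) (En := eng) (mo := mog) (C1 := cd0q0) (C2 := cd0q0) (C3 := pd1)
    rfl k0_mm_001

noncomputable def cut_mm_011 : Cut := Cut.of [[⟨3, 0, 0, 1449551462⟩], [⟨4, 0, 0, 2845415833⟩]]

noncomputable def f_mm_011 : ℕ → ℕ → ℕ → ℕ → Bool := onCell 0 536870912 536870912 536870912 536870912 50465866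
    (rowB 3 eng mog cd0q0 cd0q1 pd1 0 true false false .pnn 0 1 1 (qsf 0 536870912 536870912 536870912 1) ndB0q0 ndB0q1 pcB1 cut_mm_011 Ext.none)

def k0_mm_011 : ∃ t, chk3 f_mm_011 t 1 1 1 = true :=
  ⟨(l 14), by decide +kernel⟩

theorem c_mm_011 : CertB 0 536870912 536870912 536870912 536870912 50465866 3 eng mog cd0q0 cd0q1 pd1 true false false .pnn 0 1 1
    ndB0q0 ndB0q1 pcB1 cut_mm_011 Ext.none :=
  certB0 (fam := true) (s1 := false) (s2 := false) (a := 0) (b := 1) (c := 1) (cn := .pnn) (n1 := ndB0q0) (n2 := ndB0q1) (pc := pcB1) (cut := cut_mm_011) (xt := Ext.none) (P1 := 0) (W1 := 536870912) (P2 := 536870912) (W2 := 536870912) (P3 := 536870912) (W3 := 50465866) (N0 := 3) (En := eng) (mo := mog) (C1 := cd0q0) (C2 := cd0q1) (C3 := pd1)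
    rfl k0_mm_011

noncomputable def cut_mm_012 : Cut := Cut.of [[⟨3, 0, 0, 1449551462⟩], [⟨4, 0, 0, 2845415833⟩]]

noncomputable def f_mm_012 : ℕ → ℕ → ℕ → ℕ → Bool := onCell 0 536870912 536870912 536870912 536870912 50465866
    (rowB 3 eng mog cd0q0 cd0q1 pd2 0 true false false .pnp 0 1 2 (qsf 0 536870912 536870912 536870912 2) ndB0q0 ndB0q1 pcB2 cut_mm_012 Ext.none)

def k0_mm_012 : ∃ t, chk3 f_mm_012 t 1 1 1 = true :=
  ⟨(l 14), by decide +kernel⟩

theorem c_mm_012 : CertB 0 536870912 536870912 536870912 536870912 50465866 3 eng mog cd0q0 cd0q1 pd2 true false false .pnp 0 1 2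
    ndB0q0 ndB0q1 pcB2 cut_mm_012 Ext.none :=
  certB0 (fam := true) (s1 := false) (s2 := false) (a := 0) (b := 1) (c := 2) (cn := .pnp) (n1 := ndB0q0) (n2 := ndB0q1) (pc := pcB2) (cut := cut_mm_012) (xt := Ext.none) (P1 := 0) (W1 := 536870912) (P2 := 536870912) (W2 := 536870912) (P3 := 536870912) (W3 := 50465866) (N0 := 3) (En := eng) (mo := mog) (C1 := cd0q0) (C2 := cd0q1) (C3 := pd2)
    rfl k0_mm_012

noncomputable def cut_mm_022 : Cut := Cut.of [[⟨3, 0, 0, 1449551462⟩], [⟨4, 0, 0, 2845415833⟩]]

noncomputable def f_mm_022 : ℕ → ℕ → ℕ → ℕ → Bool := onCell 0 536870912 0 536870912 536870912 50465866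
    (rowB 3 eng mog cd0q0 cd0q2 pd2 0 true false false .pp 0 2 2 (qsf 0 536870912 0 536870912 2) ndB0q0 ndB0q2 pcB2 cut_mm_022 Ext.none)

def k0_mm_022 : ∃ t, chk3 f_mm_022 t 1 1 1 = true :=
  ⟨(l 5), by decide +kernel⟩

theorem c_mm_022 : CertB 0 536870912 0 536870912 536870912 50465866 3 eng mog cd0q0 cd0q2 pd2 true false false .pp 0 2 2
    ndB0q0 ndB0q2 pcB2 cut_mm_022 Ext.none :=
  certB0 (fam := true) (s1 := false) (s2 := false) (a := 0) (b := 2) (c := 2) (cn := .pp) (n1 := ndB0q0) (n2 := ndB0q2) (pc := pcB2) (cut := cut_mm_022) (xt := Ext.none) (P1 := 0) (W1 := 536870912) (P2 := 0) (W2 := 536870912) (P3 := 536870912) (W3 := 50465866) (N0 := 3) (En := eng) (mo := mog) (C1 := cd0q0) (C2 := cd0q2) (C3 := pd2)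
    rfl k0_mm_022

noncomputable def cut_mm_023 : Cut := Cut.of [[⟨3, 0, 0, 1449551462⟩], [⟨4, 0, 0, 2845415833⟩]]

noncomputable def f_mm_023 : ℕ → ℕ → ℕ → ℕ → Bool := onCell 0 536870912 0 536870912 536870912 50465866
    (rowB 3 eng mog cd0q0 cd0q2 pd3 0 true false false .up 0 2 3 (qsf 0 536870912 0 536870912 3) ndB0q0 ndB0q2 pcB3 cut_mm_023 Ext.none)

def k0_mm_023 : ∃ t, chk3 f_mm_023 t 1 1 1 = true :=
  ⟨(l 5), by decide +kernel⟩

theorem c_mm_023 : CertB 0 536870912 0 536870912 536870912 50465866 3 eng mog cd0q0 cd0q2 pd3 true false false .up 0 2 3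
    ndB0q0 ndB0q2 pcB3 cut_mm_023 Ext.none :=
  certB0 (fam := true) (s1 := false) (s2 := false) (a := 0) (b := 2) (c := 3) (cn := .up) (n1 := ndB0q0) (n2 := ndB0q2) (pc := pcB3) (cut := cut_mm_023) (xt := Ext.none) (P1 := 0) (W1 := 536870912) (P2 := 0) (W2 := 536870912) (P3 := 536870912) (W3 := 50465866) (N0 := 3) (En := eng) (mo := mog) (C1 := cd0q0) (C2 := cd0q2) (C3 := pd3)
    rfl k0_mm_023

noncomputable def cut_mm_101 : Cut := Cut.of [[⟨3, 0, 0, 1449551462⟩], [⟨4, 0, 0, 2845415833⟩], [⟨0, 1, 0, 67108864⟩, ⟨1, 0, 0, 67108864⟩, ⟨2, 1, 0, 67108864⟩]]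

noncomputable def f_mm_101 : ℕ → ℕ → ℕ → ℕ → Bool := onCell 536870912 536870912 0 536870912 536870912 50465866
    (rowB 3 eng mog cd0q1 cd0q0 pd1 0 true false false .npn 1 0 1 (qsf 536870912 536870912 0 536870912 1) ndB0q1 ndB0q0 pcB1 cut_mm_101 Ext.none)

def k0_mm_101 : ∃ t, chk3 f_mm_101 t 1 1 1 = true :=
  ⟨(l 14), by decide +kernel⟩

theorem c_mm_101 : CertB 536870912 536870912 0 536870912 536870912 50465866 3 eng mog cd0q1 cd0q0 pd1 true false false .npn 1 0 1
    ndB0q1 ndB0q0 pcB1 cut_mm_101 Ext.none :=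
  certB0 (fam := true) (s1 := false) (s2 := false) (a := 1) (b := 0) (c := 1) (cn := .npn) (n1 := ndB0q1) (n2 := ndB0q0) (pc := pcB1) (cut := cut_mm_101) (xt := Ext.none) (P1 := 536870912) (W1 := 536870912) (P2 := 0) (W2 := 536870912) (P3 := 536870912) (W3 := 50465866) (N0 := 3) (En := eng) (mo := mog) (C1 := cd0q1) (C2 := cd0q0) (C3 := pd1)
    rfl k0_mm_101

noncomputable def cut_mm_102 : Cut := Cut.of [[⟨3, 0, 0, 1449551462⟩], [⟨4, 0, 0, 2845415833⟩], [⟨0, 1, 0, 67108864⟩, ⟨1, 0, 0, 67108864⟩, ⟨2, 1, 0, 67108864⟩]]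

noncomputable def f_mm_102 : ℕ → ℕ → ℕ → ℕ → Bool := onCell 536870912 536870912 0 536870912 536870912 50465866
    (rowB 3 eng mog cd0q1 cd0q0 pd2 0 true false false .npp 1 0 2 (qsf 536870912 536870912 0 536870912 2) ndB0q1 ndB0q0 pcB2 cut_mm_102 Ext.none)

def k0_mm_102 : ∃ t, chk3 f_mm_102 t 1 1 1 = true :=
  ⟨(l 14), by decide +kernel⟩

theorem c_mm_102 : CertB 536870912 536870912 0 536870912 536870912 50465866 3 eng mog cd0q1 cd0q0 pd2 true false false .npp 1 0 2
    ndB0q1 ndB0q0 pcB2 cut_mm_102 Ext.none :=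
  certB0 (fam := true) (s1 := false) (s2 := false) (a := 1) (b := 0) (c := 2) (cn := .npp) (n1 := ndB0q1) (n2 := ndB0q0) (pc := pcB2) (cut := cut_mm_102) (xt := Ext.none) (P1 := 536870912) (W1 := 536870912) (P2 := 0) (W2 := 536870912) (P3 := 536870912) (W3 := 50465866) (N0 := 3) (En := eng) (mo := mog) (C1 := cd0q1) (C2 := cd0q0) (C3 := pd2)
    rfl k0_mm_102

noncomputable def cut_mm_112 : Cut := Cut.of [[⟨3, 0, 0, 1449551462⟩], [⟨4, 0, 0, 2845415833⟩]]

noncomputable def f_mm_112 : ℕ → ℕ → ℕ → ℕ → Bool := onCell 536870912 536870912 536870912 536870912 536870912 50465866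
    (rowB 3 eng mog cd0q1 cd0q1 pd2 0 true false false .dn 1 1 2 (qsf 536870912 536870912 536870912 536870912 2) ndB0q1 ndB0q1 pcB2 cut_mm_112 Ext.none)

def k0_mm_112 : ∃ t, chk3 f_mm_112 t 1 1 1 = true :=
  ⟨(l 4), by decide +kernel⟩

theorem c_mm_112 : CertB 536870912 536870912 536870912 536870912 536870912 50465866 3 eng mog cd0q1 cd0q1 pd2 true false false .dn 1 1 2
    ndB0q1 ndB0q1 pcB2 cut_mm_112 Ext.none :=
  certB0 (fam := true) (s1 := false) (s2 := false) (a := 1) (b := 1) (c := 2) (cn := .dn) (n1 := ndB0q1) (n2 := ndB0q1) (pc := pcB2) (cut := cut_mm_112) (xt := Ext.none) (P1 := 536870912) (W1 := 536870912) (P2 := 536870912) (W2 := 536870912) (P3 := 536870912) (W3 := 50465866) (N0 := 3) (En := eng) (mo := mog) (C1 := cd0q1) (C2 := cd0q1) (C3 := pd2)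
    rfl k0_mm_112

noncomputable def cut_mm_113 : Cut := Cut.of [[⟨3, 0, 0, 1449551462⟩], [⟨4, 0, 0, 2845415833⟩]]

noncomputable def f_mm_113 : ℕ → ℕ → ℕ → ℕ → Bool := onCell 536870912 536870912 536870912 536870912 536870912 50465866
    (rowB 3 eng mog cd0q1 cd0q1 pd3 0 true false false .nn 1 1 3 (qsf 536870912 536870912 536870912 536870912 3) ndB0q1 ndB0q1 pcB3 cut_mm_113 Ext.none)

def k0_mm_113 : ∃ t, chk3 f_mm_113 t 1 1 1 = true :=
  ⟨(l 4), by decide +kernel⟩

theorem c_mm_113 : CertB 536870912 536870912 536870912 536870912 536870912 50465866 3 eng mog cd0q1 cd0q1 pd3 true false false .nn 1 1 3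
    ndB0q1 ndB0q1 pcB3 cut_mm_113 Ext.none :=
  certB0 (fam := true) (s1 := false) (s2 := false) (a := 1) (b := 1) (c := 3) (cn := .nn) (n1 := ndB0q1) (n2 := ndB0q1) (pc := pcB3) (cut := cut_mm_113) (xt := Ext.none) (P1 := 536870912) (W1 := 536870912) (P2 := 536870912) (W2 := 536870912) (P3 := 536870912) (W3 := 50465866) (N0 := 3) (En := eng) (mo := mog) (C1 := cd0q1) (C2 := cd0q1) (C3 := pd3)
    rfl k0_mm_113

noncomputable def cut_mm_123 : Cut := Cut.of [[⟨3, 0, 0, 1449551462⟩], [⟨4, 0, 0, 2845415833⟩]]

noncomputable def f_mm_123 : ℕ → ℕ → ℕ → ℕ → Bool := onCell 536870912 536870912 0 536870912 536870912 50465866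
    (rowB 3 eng mog cd0q1 cd0q2 pd3 0 true false false .npn 1 2 3 (qsf 536870912 536870912 0 536870912 3) ndB0q1 ndB0q2 pcB3 cut_mm_123 Ext.none)

def k0_mm_123 : ∃ t, chk3 f_mm_123 t 1 1 1 = true :=
  ⟨(a (l 5) (l 4)), by decide +kernel⟩

theorem c_mm_123 : CertB 536870912 536870912 0 536870912 536870912 50465866 3 eng mog cd0q1 cd0q2 pd3 true false false .npn 1 2 3
    ndB0q1 ndB0q2 pcB3 cut_mm_123 Ext.none :=
  certB0 (fam := true) (s1 := false) (s2 := false) (a := 1) (b := 2) (c := 3) (cn := .npn) (n1 := ndB0q1) (n2 := ndB0q2) (pc := pcB3) (cut := cut_mm_123) (xt := Ext.none) (P1 := 536870912) (W1 := 536870912) (P2 := 0) (W2 := 536870912) (P3 := 536870912) (W3 := 50465866) (N0 := 3) (En := eng) (mo := mog) (C1 := cd0q1) (C2 := cd0q2) (C3 := pd3)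
    rfl k0_mm_123

noncomputable def cut_mm_202 : Cut := Cut.of [[⟨3, 0, 0, 1449551462⟩], [⟨4, 0, 0, 2845415833⟩], [⟨0, 1, 0, 67108864⟩, ⟨1, 0, 0, 67108864⟩, ⟨2, 1, 0, 67108864⟩]]

noncomputable def f_mm_202 : ℕ → ℕ → ℕ → ℕ → Bool := onCell 0 536870912 0 536870912 536870912 50465866
    (rowB 3 eng mog cd0q2 cd0q0 pd2 0 true false false .pp 2 0 2 (qsf 0 536870912 0 536870912 2) ndB0q2 ndB0q0 pcB2 cut_mm_202 Ext.none)

def k0_mm_202 : ∃ t, chk3 f_mm_202 t 2 1 1 = true :=
  ⟨(b (b (a (b (a (b (a (l 16525728) (l 16523688)) (a (l 16474696) (l 16478144))) (b (b (l 16488640) (l 16536256)) (a (l 16483872) (b (l 16486424) (l 16498360))))) (a (b (a (l 16495648) (l 16500464)) (a (l 16518200) (l 16524392))) (b (a (b (l 16501384) (l 16513744)) (b (a (l 16508216) (l 16514176)) (l 16535200))) (b (a (l 16526080) (l 16538112)) (a (l 16538896) (l 16551488)))))) (b (a (a (b (a (l 16549504) (l 16530304)) (l 16537968)) (b (l 16540768) (l 16569096))) (b (a (b (l 16510344) (l 16517496)) (b (l 16548056) (l 16535200))) (a (c (l 16593960)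 (l 16573808)) (b (l 16577560) (l 16597688))))) (a (a (b (a (l 16526904) (l 16533384)) (l 16558216)) (b (l 16522496) (l 16572016))) (a (b (l 16562464) (b (l 16578528) (l 16593072))) (b (b (l 16566224) (l 16579936)) (b (l 16594048) (l 16629424))))))) (a (b (a (b (a (l 16540760) (l 16548304)) (a (l 16561712) (b (l 16564936) (l 16575584)))) (b (a (b (l 16551992) (l 16564856)) (l 16571728)) (a (l 16582816) (l 16597664)))) (a (b (a (l 16579488) (l 16590864)) (a (l 16594440) (l 16608504))) (b (b (l 16607256) (l 16617832)) (l 16674728)))) (b (a (b (a (l 16586528) (l 16601168)) (a (l 16613904) (l 16629608))) (b (a (b (l 16607800) (l 16622544)) (b (l 16664992) (l 14))) (a (b (l 16637112) (l 14)) (l 14)))) (a (a (b (l 16638920) (l 16661552)) (a (b (l 16651728) (l 14)) (l 14))) (l 14))))) (a (b (b (a (b (a (l 16609968) (l 16623920)) (l 16693848)) (b (l 16692728) (l 16730168))) (a (b (a (l 16635904) (l 16652168)) (a (l 16647208) (l 14))) (l 14))) (l 2)) (l 14))), by decide +kernel⟩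

def k1_mm_202 : ∃ t, chk3 f_mm_202 t 3 1 1 = true :=
  ⟨(b (b (a (b (a (b (a (b (b (a (l 16539152) (l 16549616)) (l 16570104)) (b (l 16574696) (l 16579224))) (a (b (b (l 16581872) (l 16566040)) (l 16589336)) (b (b (a (l 16569824) (l 16576008)) (c (l 16578888) (l 16577840))) (b (l 16583832) (l 16589176))))) (b (a (a (l 16561560) (l 16572640)) (b (l 16613992) (l 16625112))) (a (a (l 16594016) (a (l 16581920) (l 16587856))) (b (l 16626240) (l 14))))) (b (a (b (a (b (b (a (l 16580904) (l 16587376)) (l 16597592)) (c (l 16602672) (l 16601208))) (l 14)) (l 14)) (l 14)) (l 14))) (a (a (b (b (l 16609400) (l 16620872)) (l 14)) (l 14)) (l 14))) (l 14)) (l 14)) (l 14)), by decide +kernel⟩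

theorem s2_mm_202 : ∃ t, chk3 f_mm_202 t 1 1 1 = true := ex3_a k0_mm_202 k1_mm_202

theorem c_mm_202 : CertB 0 536870912 0 536870912 536870912 50465866 3 eng mog cd0q2 cd0q0 pd2 true false false .pp 2 0 2
    ndB0q2 ndB0q0 pcB2 cut_mm_202 Ext.none :=
  certB0 (fam := true) (s1 := false) (s2 := false) (a := 2) (b := 0) (c := 2) (cn := .pp) (n1 := ndB0q2) (n2 := ndB0q0) (pc := pcB2) (cut := cut_mm_202) (xt := Ext.none) (P1 := 0) (W1 := 536870912) (P2 := 0) (W2 := 536870912) (P3 := 536870912) (W3 := 50465866) (N0 := 3) (En := eng) (mo := mog) (C1 := cd0q2) (C2 := cd0q0) (C3 := pd2)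
    rfl s2_mm_202

noncomputable def cut_mm_203 : Cut := Cut.of [[⟨3, 0, 0, 1449551462⟩], [⟨4, 0, 0, 2845415833⟩]]

noncomputable def f_mm_203 : ℕ → ℕ → ℕ → ℕ → Bool := onCell 0 536870912 1610612736 536870912 536870912 50465866
    (rowB 3 eng mog cd0q2 cd0q0 pd3 1 true false false .up 2 0 3 (qsf 0 536870912 0 536870912 3) ndB0q2 ndB0q0 pcB3 cut_mm_203 Ext.none)

def k0_mm_203 : ∃ t, chk3 f_mm_203 t 1 1 1 = true :=
  ⟨(a (b (b (a (b (a (b (a (l 16678448) (l 14)) (l 14)) (l 14)) (l 14)) (l 14)) (l 14)) (l 2)) (l 14)), by decide +kernel⟩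

theorem c_mm_203 : CertB 0 536870912 0 536870912 536870912 50465866 3 eng mog cd0q2 cd0q0 pd3 true false false .up 2 0 3
    ndB0q2 ndB0q0 pcB3 cut_mm_203 Ext.none :=
  certB1 (fam := true) (s1 := false) (s2 := false) (a := 2) (b := 0) (c := 3) (cn := .up) (n1 := ndB0q2) (n2 := ndB0q0) (pc := pcB3) (cut := cut_mm_203) (xt := Ext.none) (P1 := 0) (W1 := 536870912) (P2 := 0) (W2 := 536870912) (P3 := 536870912) (W3 := 50465866) (N0 := 3) (En := eng) (mo := mog) (C1 := cd0q2) (C2 := cd0q0) (C3 := pd3)
    rfl (fun _ => rfl) k0_mm_203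

noncomputable def cut_mm_213 : Cut := Cut.of [[⟨3, 0, 0, 1449551462⟩], [⟨4, 0, 0, 2845415833⟩]]

noncomputable def f_mm_213 : ℕ → ℕ → ℕ → ℕ → Bool := onCell 0 536870912 536870912 536870912 536870912 50465866
    (rowB 3 eng mog cd0q2 cd0q1 pd3 0 true false false .pnn 2 1 3 (qsf 0 536870912 536870912 536870912 3) ndB0q2 ndB0q1 pcB3 cut_mm_213 Ext.none)

def k0_mm_213 : ∃ t, chk3 f_mm_213 t 1 1 1 = true :=
  ⟨(a (l 14) (l 4)), by decide +kernel⟩

theorem c_mm_213 : CertB 0 536870912 536870912 536870912 536870912 50465866 3 eng mog cd0q2 cd0q1 pd3 true false false .pnn 2 1 3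
    ndB0q2 ndB0q1 pcB3 cut_mm_213 Ext.none :=
  certB0 (fam := true) (s1 := false) (s2 := false) (a := 2) (b := 1) (c := 3) (cn := .pnn) (n1 := ndB0q2) (n2 := ndB0q1) (pc := pcB3) (cut := cut_mm_213) (xt := Ext.none) (P1 := 0) (W1 := 536870912) (P2 := 536870912) (W2 := 536870912) (P3 := 536870912) (W3 := 50465866) (N0 := 3) (En := eng) (mo := mog) (C1 := cd0q2) (C2 := cd0q1) (C3 := pd3)
    rfl k0_mm_213

end Pool.Agent.Strip051.G.I5000_5470.Tab.C.BA00

namespace Pool.Agent.Strip051.G.I5000_5470.Tab.C.BA01

open Pool.Agent.Strip051.PB Pool.Agent.Strip051.PB.T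
open Pool.Agent.Strip051.G.I5000_5470.Tab

noncomputable def f_pp_001 : ℕ → ℕ → ℕ → ℕ → Bool := onCell 0 536870912 0 536870912 536870912 50465866
    (rowB 3 eng mog cd0q0 cd1q0 pd1 0 true true true .up 0 0 1 (qsf 0 536870912 0 536870912 1) ndB0q0 ndB1q0 pcB1 Cut.none Ext.none)

def k0_pp_001 : ∃ t, chk3 f_pp_001 t 1 1 1 = true :=
  ⟨(l 4), by decide +kernel⟩

theorem c_pp_001 : CertB 0 536870912 0 536870912 536870912 50465866 3 eng mog cd0q0 cd1q0 pd1 true true true .up 0 0 1
    ndB0q0 ndB1q0 pcB1 Cut.none Ext.none :=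
  certB0 (fam := true) (s1 := true) (s2 := true) (a := 0) (b := 0) (c := 1) (cn := .up) (n1 := ndB0q0) (n2 := ndB1q0) (pc := pcB1) (cut := Cut.none) (xt := Ext.none) (P1 := 0) (W1 := 536870912) (P2 := 0) (W2 := 536870912) (P3 := 536870912) (W3 := 50465866) (N0 := 3) (En := eng) (mo := mog) (C1 := cd0q0) (C2 := cd1q0) (C3 := pd1)
    rfl k0_pp_001

noncomputable def f_pp_011 : ℕ → ℕ → ℕ → ℕ → Bool := onCell 0 536870912 536870912 536870912 536870912 50465866
    (rowB 3 eng mog cd0q0 cd1q1 pd1 0 true true true .pnn 0 1 1 (qsf 0 536870912 536870912 536870912 1) ndB0q0 ndB1q1 pcB1 Cut.none Ext.none)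

def k0_pp_011 : ∃ t, chk3 f_pp_011 t 1 1 1 = true :=
  ⟨(l 4), by decide +kernel⟩

theorem c_pp_011 : CertB 0 536870912 536870912 536870912 536870912 50465866 3 eng mog cd0q0 cd1q1 pd1 true true true .pnn 0 1 1
    ndB0q0 ndB1q1 pcB1 Cut.none Ext.none :=
  certB0 (fam := true) (s1 := true) (s2 := true) (a := 0) (b := 1) (c := 1) (cn := .pnn) (n1 := ndB0q0) (n2 := ndB1q1) (pc := pcB1) (cut := Cut.none) (xt := Ext.none) (P1 := 0) (W1 := 536870912) (P2 := 536870912) (W2 := 536870912) (P3 := 536870912) (W3 := 50465866) (N0 := 3) (En := eng) (mo := mog) (C1 := cd0q0) (C2 := cd1q1) (C3 := pd1)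
    rfl k0_pp_011

noncomputable def f_pp_012 : ℕ → ℕ → ℕ → ℕ → Bool := onCell 0 536870912 536870912 536870912 536870912 50465866
    (rowB 3 eng mog cd0q0 cd1q1 pd2 0 true true true .pnp 0 1 2 (qsf 0 536870912 536870912 536870912 2) ndB0q0 ndB1q1 pcB2 Cut.none Ext.none)

def k0_pp_012 : ∃ t, chk3 f_pp_012 t 1 1 1 = true :=
  ⟨(l 4), by decide +kernel⟩

theorem c_pp_012 : CertB 0 536870912 536870912 536870912 536870912 50465866 3 eng mog cd0q0 cd1q1 pd2 true true true .pnp 0 1 2
    ndB0q0 ndB1q1 pcB2 Cut.none Ext.none :=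
  certB0 (fam := true) (s1 := true) (s2 := true) (a := 0) (b := 1) (c := 2) (cn := .pnp) (n1 := ndB0q0) (n2 := ndB1q1) (pc := pcB2) (cut := Cut.none) (xt := Ext.none) (P1 := 0) (W1 := 536870912) (P2 := 536870912) (W2 := 536870912) (P3 := 536870912) (W3 := 50465866) (N0 := 3) (En := eng) (mo := mog) (C1 := cd0q0) (C2 := cd1q1) (C3 := pd2)
    rfl k0_pp_012

noncomputable def cut_pp_022_a : Cut := Cut.of [[⟨0, 0, 0, 67108864⟩, ⟨1, 1, 0, 67108864⟩, ⟨2, 1, 0, 67108864⟩]]

noncomputable def f_pp_022_a : ℕ → ℕ → ℕ → ℕ → Bool := onCell 0 536870912 0 536870912 536870912 50465866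
    (rowB 3 eng mog cd0q0 cd1q2a pd2 0 true true true .pp 0 2 2 (qsf 0 536870912 0 536870912 2) ndB0q0 ndB1q2a pcB2 cut_pp_022_a Ext.none)

def k0_pp_022_a : ∃ t, chk3 f_pp_022_a t 4 2 1 = true :=
  ⟨(a (b (a (b (a (l 16457648) (l 16463480)) (b (b (l 16518304) (l 16532344)) (l 16518416))) (a (b (l 16474120) (l 16518560)) (b (l 16485344) (l 16499912)))) (b (a (b (l 16528696) (l 16551352)) (b (l 16507424) (l 16560464))) (a (a (a (l 16557440) (l 16556448)) (b (l 16518800) (l 16537184))) (b (a (l 16550736) (l 16537832)) (a (b (l 16544120) (l 16554240)) (a (l 16557456) (l 16561800))))))) (b (b (b (a (l 16501776) (a (l 16520688) (l 16533120))) (a (a (l 16541760) (l 16513224)) (a (l 16526864) (l 16540056)))) (a (a (l 16555168) (l 16527224)) (b (l 16543080) (l 16554456)))) (a (b (b (l 16577144) (l 16545976)) (b (a (l 16551344) (l 16565384)) (b (l 16569136) (l 16599136)))) (b (a (l 16583632) (l 16598640)) (a (b (l 16579856) (l 16594232)) (b (l 16594672) (l 16608712))))))), by decide +kernel⟩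

def k1_pp_022_a : ∃ t, chk3 f_pp_022_a t 5 2 1 = true :=
  ⟨(b (a (a (b (b (a (l 16546072) (l 16559000)) (l 16560160)) (b (l 16571384) (l 16583928))) (b (a (l 16575808) (l 16587176)) (a (l 16598736) (l 16612160)))) (a (b (l 16603600) (b (l 16623240) (l 16638704))) (b (l 16623480) (l 16716784)))) (a (b (a (b (l 16594840) (l 16647728)) (a (l 16643920) (b (l 16631400) (l 16643032)))) (a (a (b (l 16609800) (l 16644464)) (b (l 16625056) (l 16680512))) (b (a (l 16640224) (l 16675904)) (a (b (l 16650152) (l 16657216)) (b (l 16664904) (l 16692920)))))) (a (b (b (l 16672472) (a (l 16656936) (l 16670232))) (a (a (b (l 16665576) (l 16700104)) (b (l 16672472) (a (l 16684344) (l 16687792)))) (b (b (l 16679256) (l 16685816)) (b (l 16713680) (a (l 16696368) (l 16703096)))))) (b (b (l 16697232) (a (l 16683048) (l 16695304))) (b (a (b (l 16692280) (l 16698952)) (b (l 16704776) (l 16711592))) (a (b (l 16726904) (c (l 16734792) (l 16733112))) (b (l 16739664) (a (l 16722648) (l 16728928))))))))), by decide +kernel⟩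

def k2_pp_022_a : ∃ t, chk3 f_pp_022_a t 4 6 1 = true :=
  ⟨(a (b (a (a (b (l 16576984) (a (b (l 16560024) (l 16593144)) (l 16592640))) (b (l 16578440) (a (l 16598088) (l 16603984)))) (a (b (l 16583056) (a (l 16610464) (l 16617000))) (a (b (l 16631808) (l 16623568)) (b (l 16637568) (l 16630152))))) (a (a (b (b (a (l 16584944) (b (l 16587600) (l 16594304))) (a (l 16598336) (l 16604696))) (b (a (l 16612328) (l 16619024)) (a (l 16637352) (l 16644352)))) (b (a (a (l 16602472) (l 16605520)) (l 16620552)) (b (a (l 16646616) (l 16653184)) (a (l 16651280) (l 16668624))))) (b (a (b (l 16632672) (l 16636984)) (b (l 16646208) (l 16660184))) (a (b (a (l 16638728) (l 16645224)) (a (l 16675440) (l 16661256))) (b (a (l 16651712) (l 16658208)) (a (l 16668024) (l 16674784))))))) (b (b (a (a (l 16613568) (l 16623072)) (a (l 16635128) (l 16649416))) (a (a (a (b (l 16609016) (l 16642976)) (b (l 16614424) (l 16649104))) (a (l 16647792) (l 16653272))) (a (a (l 16658816) (l 16665168)) (a (l 16672368) (l 16679616))))) (a (b (a (a (l 16663544)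 (b (l 16657888) (l 16656608))) (b (c (l 16672984) (l 16671904)) (a (a (l 16682792) (l 16686136)) (l 16669976)))) (a (b (c (l 16689408) (l 16689064)) (a (l 16681568) (l 16709360))) (b (a (l 16699944) (b (l 16702912) (l 16711064))) (a (l 16716216) (c (l 16723736) (l 16723432)))))) (b (a (b (l 16684544) (l 16700592)) (b (l 16687768) (b (l 16710232) (l 16708056)))) (a (b (c (l 16717416) (l 16717032)) (a (b (l 16726528) (a (l 16733352) (l 16737016))) (l 16727568))) (b (b (l 16716608) (l 16730376)) (b (a (l 16719832) (l 16737680)) (a (l 16739320) (l 16746832))))))))), by decide +kernel⟩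

def k3_pp_022_a : ∃ t, chk3 f_pp_022_a t 8 14 1 = true :=
  ⟨(a (b (b (a (a (a (l 16640208) (l 16643880)) (a (l 16647536) (l 16651168))) (a (b (l 16652536) (l 16660600)) (b (l 16659632) (l 16667840)))) (b (a (a (l 16653840) (l 16661376)) (a (l 16668832) (l 16676224))) (a (a (a (l 16659968) (l 16663824)) (l 16690544)) (a (l 16677160) (l 16684680))))) (a (b (b (a (a (l 6) (l 16672048)) (l 16690952)) (a (l 6) (a (l 16684384) (l 16688272)))) (a (l 6) (b (a (l 6) (l 16696992)) (l 6)))) (b (b (a (l 16706480) (l 16693104)) (a (a (l 16692144) (l 16695992)) (a (l 16699824) (l 16703640)))) (a (b (a (l 16700896) (l 16704776)) (a (l 6) (l 16713792))) (b (a (l 16708648) (l 16712496)) (a (l 16717688) (l 16721568))))))) (b (a (b (a (b (l 16666664) (l 16675024)) (c (l 16699432) (l 16698368))) (a (b (l 16683560) (l 16692136)) (b (l 16690848) (l 16699544)))) (b (a (l 16684976) (l 16692008)) (a (b (l 16698112) (l 16727896)) (b (l 16726320) (l 16735248))))) (a (a (b (b (l 16721608) (a (l 16707440) (l 16711224))) (b (c (l 16718784)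 (l 16728192)) (a (l 16735920) (l 16739776)))) (b (b (l 16729088) (c (l 16717384) (l 16716376))) (c (b (l 16731520) (b (l 16733080) (l 16748168))) (b (l 16730672) (b (l 16732352) (l 16747536)))))) (a (b (b (l 16732592) (b (l 16743120) (l 16737096))) (a (b (l 16742016) (b (l 16738424) (l 16753584))) (b (c (l 16735600) (l 16745496)) (l 16748496)))) (b (a (b (l 16721120) (l 16740472)) (c (l 16740088) (l 16739440))) (b (c (l 16746408) (l 16745968)) (c (a (l 16748520) (l 16757496)) (a (l 16748200) (l 16757264))))))))), by decide +kernel⟩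

def k4_pp_022_a : ∃ t, chk3 f_pp_022_a t 16 15 1 = true :=
  ⟨(b (a (l 6) (a (l 6) (b (a (b (c (l 16727480) (l 16726448)) (l 6)) (b (c (l 16731328) (l 16730424)) (b (l 16737992) (l 16753296)))) (l 6)))) (l 6)), by decide +kernel⟩

def k5_pp_022_a : ∃ t, chk3 f_pp_022_a t 17 15 1 = true :=
  ⟨(b (a (b (a (a (b (c (l 16735168) (l 16734384)) (b (l 16741912) (l 16751984))) (b (a (l 16748168) (l 16744864)) (b (l 16751056) (c (l 16750880) (l 16750448))))) (a (b (b (l 16740144) (l 16755384)) (c (b (l 16749920) (l 16759968)) (b (l 16749496) (l 16759648)))) (b (b (l 16754472) (l 16756624)) (c (c (l 16761456) (l 16761328)) (c (l 16761200) (l 16761072)))))) (a (a (b (b (c (l 16751832) (l 16751400)) (l 6)) (l 6)) (b (c (b (l 16760952) (l 16763216)) (b (l 16758008) (l 16763016))) (a (l 6) (b (c (l 16769792) (l 16770392)) (l 6))))) (b (b (a (a (l 16763728) (l 16765680)) (c (l 16767344) (l 16768552))) (a (a (l 16766712) (c (l 16768048) (l 16770608))) (a (b (l 16768720) (c (l 16771248) (l 16771232))) (b (a (l 16770192) (l 16771184))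 (l 4))))) (b (a (a (b (l 16769816) (a (l 16771856) (l 28152157271))) (b (a (l 16771296) (l 17414739383)) (l 4))) (l 4)) (l 4))))) (b (b (b (a (a (l 16758312) (b (l 16760936) (l 16763320))) (a (l 16760704) (l 16764504))) (a (c (l 16758584) (l 16759648)) (a (l 16764200) (a (l 16768384) (a (l 16769832) (l 16877863959)))))) (b (a (a (l 16761376) (c (l 16766592) (l 16766488))) (b (a (l 16769160) (a (l 19562221335) (l 4))) (a (a (l 16770656) (c (l 55532567655) (l 57680051223))) (l 4)))) (b (a (a (l 16766352) (c (l 16769584) (l 16769544))) (a (a (c (l 46942633815) (l 50163859191)) (l 4)) (l 4))) (a (a (l 16767480) (a (l 16770400) (a (l 16770904) (l 4)))) (l 4))))) (b (a (a (b (b (c (l 16770296) (l 16770424)) (a (l 7214189735) (l 4))) (l 4)) (l 4)) (l 4)) (l 4)))) (a (a (l 6) (l 4)) (l 4))), by decide +kernel⟩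

def k6_pp_022_a : ∃ t, chk3 f_pp_022_a t 18 14 1 = true :=
  ⟨(a (a (b (b (l 16709544) (c (l 16722728) (l 16722000))) (b (b (l 16735616) (c (l 16750016) (l 16749568))) (b (c (a (l 16746736) (l 16760928)) (l 16754864)) (a (c (l 16761232) (l 16761088)) (b (l 16762552) (c (l 16767344) (l 16767312))))))) (b (b (l 16716608) (b (l 16719848) (l 16739464))) (b (b (l 16746288) (c (l 16754768) (l 16757088))) (b (b (c (l 16758944) (l 16758768)) (a (l 16761624) (c (l 16765432) (l 16765400)))) (a (a (b (l 16765384) (b (l 16763800) (l 4))) (b (l 16767344) (l 4))) (a (b (a (l 16768792) (l 16767120)) (l 4)) (l 4))))))) (b (a (b (a (l 16721928) (l 16725488)) (b (l 16727120) (l 16744216))) (b (c (l 16730952) (l 16730744)) (b (l 16744920) (c (l 16754448) (l 16754032))))) (b (a (a (b (l 16753816) (l 16760200)) (b (l 16757520) (c (l 16764024) (l 16763856)))) (b (a (l 16761240) (l 16764968)) (a (b (l 16762752) (a (l 16766480) (l 16766512))) (b (c (l 16766744) (l 16766552)) (l 4))))) (b (a (a (a (b (l 16763520) (a (l 16767848) (l 16768792)))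 (b (l 16765472) (l 4))) (b (a (l 16767384) (l 21709697223)) (l 4))) (l 4)) (l 4))))), by decide +kernel⟩

def k7_pp_022_a : ∃ t, chk3 f_pp_022_a t 19 14 1 = true :=
  ⟨(b (a (b (a (b (c (l 16733552) (l 16733392)) (l 16742736)) (b (b (l 16728200) (l 16748448)) (a (c (l 16748336) (l 16748136)) (b (l 16739176) (l 16754320))))) (b (a (l 16752280) (a (l 16757840) (b (l 16759136) (l 16764008)))) (a (c (l 16761856) (l 16761504)) (a (b (l 16765064) (c (l 16764576) (l 16764240))) (b (c (l 22783439623) (l 23320309095)) (l 4)))))) (b (b (a (l 16748456) (b (l 16753776) (l 16758456))) (a (c (l 16757752) (l 16757696)) (b (c (l 16757864) (l 16757800)) (a (l 16765808) (l 36742084007))))) (a (b (b (c (l 16765000) (l 16764696)) (a (a (c (l 6140439271) (l 16765736)) (l 52311327735)) (l 4))) (l 4)) (l 4)))) (a (b (a (b (a (c (l 5603568503) (c (l 16768736) (l 16766008))) (b (l 26541531959) (l 4))) (l 4)) (l 4)) (l 4)) (l 4))), by decide +kernel⟩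

def k8_pp_022_a : ∃ t, chk3 f_pp_022_a t 9 15 1 = true :=
  ⟨(b (a (b (a (b (a (b (a (c (l 16768352) (l 16769624)) (a (b (l 16770024) (l 4)) (l 4))) (b (a (a (l 16771032) (l 4)) (l 4)) (l 4))) (l 4)) (l 4)) (l 4)) (l 4)) (l 4)) (l 4)), by decide +kernel⟩

def k9_pp_022_a : ∃ t, chk3 f_pp_022_a t 10 6 1 = true :=
  ⟨(b (a (a (b (b (l 16657816) (l 16649232)) (a (l 16686904) (l 16694240))) (b (b (l 16672696) (l 16685024)) (b (l 16703528) (l 16702960)))) (b (a (b (l 16687696) (c (l 16700800) (l 16699408))) (a (b (l 16677912) (l 16690432)) (b (l 16685176) (l 16697768)))) (a (a (a (l 16704208) (l 16709280)) (b (l 16696168) (l 16710248))) (b (a (l 16724688) (l 16732112)) (a (l 16728288) (l 16735784)))))) (a (b (a (b (c (l 16713024) (l 16702224)) (a (l 16725384) (l 16722240))) (b (a (l 16702952) (l 16731320)) (a (l 16729592) (l 16736952)))) (a (b (a (l 16731920) (a (l 16737440) (l 16741104))) (a (b (l 16745240) (l 16751928)) (b (l 16753008) (a (l 16755152) (a (l 16763256) (l 16762448)))))) (b (a (c (l 16749440) (l 16748080))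 (b (l 16749928) (a (l 16757400) (a (l 16760288) (l 35131455527))))) (a (b (a (l 16758896) (c (l 16761368) (l 16762576))) (a (b (l 16760360) (l 4)) (l 4))) (b (a (l 85060442103) (l 4)) (l 4)))))) (b (a (b (a (l 16728256) (l 16735728)) (a (a (l 16742488) (l 16746168)) (b (l 16747600) (a (l 16754432) (l 16340971271))))) (b (a (a (l 16741376) (l 16745128)) (a (l 16748888) (b (l 16738288) (l 16756752)))) (a (b (a (l 16753192) (l 18488453655)) (a (l 87744788903) (l 4))) (a (b (l 86134174647) (l 4)) (l 4))))) (a (b (a (b (a (l 16755904) (c (l 42110773495) (l 16757056))) (a (b (l 41573905607) (l 4)) (l 4))) (b (a (b (l 16758608) (l 4)) (l 4)) (l 4))) (l 4)) (l 4))))), by decide +kernel⟩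

def k10_pp_022_a : ∃ t, chk3 f_pp_022_a t 11 6 1 = true :=
  ⟨(b (a (b (a (a (b (l 16692256) (l 16704944)) (b (l 16699216) (l 16732960))) (b (a (l 16706080) (l 16733832)) (a (l 16729448) (l 16736336)))) (a (b (a (l 16718392) (l 16736000)) (a (l 16743096) (b (l 16736144) (l 16758088)))) (b (a (l 16743064) (c (l 16755776) (l 16749800))) (a (b (l 16756544) (b (l 24930912039) (l 4))) (b (b (l 26541523511) (l 4)) (l 4)))))) (b (a (b (a (l 16740512) (l 16726120)) (a (l 16737896) (l 16749624))) (b (a (l 16743072) (l 16749504)) (a (b (l 16763664) (a (l 16759056) (l 48016364215))) (b (l 21709691431) (l 4))))) (a (b (a (b (l 16753576) (b (l 13656621095) (l 4))) (b (a (l 16759352) (l 46942623575)) (l 4))) (l 4)) (l 4)))) (a (b (a (b (a (a (b (l 16741976) (l 41037040631)) (b (l 16756352) (l 4))) (a (b (l 41573910263) (l 4)) (l 4))) (l 4)) (l 4)) (l 4)) (l 4))), by decide +kernel⟩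

def k11_pp_022_a : ∃ t, chk3 f_pp_022_a t 5 7 1 = true :=
  ⟨(a (b (a (b (a (b (a (a (b (c (l 16761960) (l 16761856)) (b (l 38352694103) (l 4))) (b (b (l 16753000) (l 16765224)) (l 4))) (b (a (b (l 16761848) (l 4)) (l 4)) (l 4))) (l 4)) (l 4)) (l 4)) (l 4)) (l 4)) (l 4)), by decide +kernel⟩

def k12_pp_022_a : ∃ t, chk3 f_pp_022_a t 3 1 1 = true :=
  ⟨(b (a (a (b (a (b (l 16641128) (l 16737216)) (b (l 16677952) (b (l 16682768) (l 16723696)))) (b (a (b (l 16740552) (a (l 16706928) (l 16717832))) (b (a (l 16713472) (l 16722880)) (a (l 16748872) (l 16758480)))) (a (b (a (a (l 16738256) (l 16744080)) (b (l 16727872) (l 16756024))) (a (b (l 16751864) (a (l 16735056) (l 16751584))) (b (c (l 16764040) (l 16762904)) (a (b (l 16745144) (l 16760416)) (b (l 16762504) (l 4)))))) (b (a (b (l 16759184) (c (l 16767224) (l 16765888))) (a (b (l 16745520) (l 20635959399)) (b (l 16750384) (a (l 30299639607) (l 35131484343))))) (a (b (a (l 19562213543) (b (l 16776136) (l 4))) (l 4)) (l 4)))))) (b (b (a (l 16672048) (l 61303907351))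 (a (b (l 16720592) (l 16762352)) (b (l 16757560) (a (l 16733104) (l 2))))) (b (a (b (a (l 16753240) (l 16762272)) (a (b (l 16743544) (l 16771568)) (b (l 16773744) (a (l 38352706935) (l 48016396391))))) (b (a (b (l 16745736) (l 16769832)) (a (a (l 39963322535) (l 2)) (l 2))) (a (b (a (l 38889580215) (l 54458849847)) (l 4)) (l 4)))) (a (b (a (b (a (l 35131477383) (l 53385066567)) (l 4)) (l 4)) (l 4)) (l 4))))) (b (l 2) (b (l 2) (l 4)))) (a (b (a (b (a (b (a (b (a (b (l 16741896) (l 22783431575)) (b (l 24394042247) (l 4))) (l 4)) (l 4)) (l 4)) (l 4)) (l 4)) (l 4)) (l 4)) (l 4))), by decide +kernel⟩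

theorem s13_pp_022_a : ∃ t, chk3 f_pp_022_a t 5 6 1 = true := ex3_a k9_pp_022_a k10_pp_022_a

theorem s14_pp_022_a : ∃ t, chk3 f_pp_022_a t 5 3 1 = true := ex3_b s13_pp_022_a k11_pp_022_a

theorem s15_pp_022_a : ∃ t, chk3 f_pp_022_a t 9 14 1 = true := ex3_a k6_pp_022_a k7_pp_022_a

theorem s16_pp_022_a : ∃ t, chk3 f_pp_022_a t 9 7 1 = true := ex3_b s15_pp_022_a k8_pp_022_a

theorem s17_pp_022_a : ∃ t, chk3 f_pp_022_a t 8 15 1 = true := ex3_a k4_pp_022_a k5_pp_022_a

theorem s18_pp_022_a : ∃ t, chk3 f_pp_022_a t 8 7 1 = true := ex3_b k3_pp_022_a s17_pp_022_a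

theorem s19_pp_022_a : ∃ t, chk3 f_pp_022_a t 4 7 1 = true := ex3_a s18_pp_022_a s16_pp_022_a

theorem s20_pp_022_a : ∃ t, chk3 f_pp_022_a t 4 3 1 = true := ex3_b k2_pp_022_a s19_pp_022_a

theorem s21_pp_022_a : ∃ t, chk3 f_pp_022_a t 2 3 1 = true := ex3_a s20_pp_022_a s14_pp_022_a

theorem s22_pp_022_a : ∃ t, chk3 f_pp_022_a t 2 2 1 = true := ex3_a k0_pp_022_a k1_pp_022_a

theorem s23_pp_022_a : ∃ t, chk3 f_pp_022_a t 2 1 1 = true := ex3_b s22_pp_022_a s21_pp_022_a

theorem s24_pp_022_a : ∃ t, chk3 f_pp_022_a t 1 1 1 = true := ex3_a s23_pp_022_a k12_pp_022_a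

theorem c_pp_022_a : CertB 0 536870912 0 536870912 536870912 50465866 3 eng mog cd0q0 cd1q2a pd2 true true true .pp 0 2 2
    ndB0q0 ndB1q2a pcB2 cut_pp_022_a Ext.none :=
  certB0 (fam := true) (s1 := true) (s2 := true) (a := 0) (b := 2) (c := 2) (cn := .pp) (n1 := ndB0q0) (n2 := ndB1q2a) (pc := pcB2) (cut := cut_pp_022_a) (xt := Ext.none) (P1 := 0) (W1 := 536870912) (P2 := 0) (W2 := 536870912) (P3 := 536870912) (W3 := 50465866) (N0 := 3) (En := eng) (mo := mog) (C1 := cd0q0) (C2 := cd1q2a) (C3 := pd2)
    rfl s24_pp_022_a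

noncomputable def cut_pp_022_b : Cut := Cut.of [[⟨0, 0, 0, 67108864⟩, ⟨1, 1, 0, 67108864⟩, ⟨2, 1, 0, 67108864⟩]]

noncomputable def f_pp_022_b : ℕ → ℕ → ℕ → ℕ → Bool := onCell 0 536870912 1239849684 370763052 536870912 50465866
    (rowB 3 eng mog cd0q0 cd1q2b pd2 0 true true true .pp 0 2 2 (qsf 0 536870912 1239849684 370763052 2) ndB0q0 ndB1q2b pcB2 cut_pp_022_b Ext.none)

def k0_pp_022_b : ∃ t, chk3 f_pp_022_b t 1 1 1 = true :=
  ⟨(a (b (a (b (a (a (a (b (a (l 16519208) (l 16481744)) (l 16350808)) (b (l 16447848) (l 16365008))) (b (b (l 16460584) (l 16429656)) (l 16408272))) (a (b (b (l 16548088) (l 16456952)) (b (l 16430384) (l 16406096))) (b (b (l 16511088) (l 16484704)) (b (l 16461064) (l 16438248))))) (a (b (a (l 16324000) (b (l 16349120) (l 16327144))) (a (l 16258160) (l 16295728))) (b (a (l 16373096) (l 16407024)) (a (l 16333440) (l 16369432))))) (b (a (b (a (b (a (l 16530368) (l 16542864)) (a (l 16506152) (l 16519520))) (b (a (l 16555432) (l 16566720)) (l 16538824))) (a (l 16521488) (l 16507568))) (b (a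 (b (l 16582752) (l 16562272)) (l 16634088)) (a (l 16532800) (l 16554504)))) (a (b (a (l 16439568) (l 16469344)) (a (l 16402760) (l 16431712))) (b (a (l 16494384) (l 16517072)) (a (l 16458768) (l 2)))))) (a (b (a (b (a (l 16219040) (l 16259376)) (a (l 16185984) (l 16226928))) (b (a (l 16298272) (l 16334560)) (l 16322904))) (a (b (l 16280560) (l 16148056)) (b (a (l 16232928) (l 2)) (l 2)))) (b (a (b (a (l 16366256) (l 16398184)) (a (l 16337000) (l 2))) (l 2)) (l 2)))) (b (a (b (a (b (a (l 16672536) (b (l 16634240) (l 16616184))) (a (l 16572376) (l 16590312))) (b (a (b (l 16648760) (l 16632176)) (b (l 16662904) (l 2))) (l 2))) (a (b (a (l 16539800) (l 2)) (l 2)) (l 2))) (l 2)) (l 2))), by decide +kernel⟩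

theorem c_pp_022_b : CertB 0 536870912 1239849684 370763052 536870912 50465866 3 eng mog cd0q0 cd1q2b pd2 true true true .pp 0 2 2
    ndB0q0 ndB1q2b pcB2 cut_pp_022_b Ext.none :=
  certB0 (fam := true) (s1 := true) (s2 := true) (a := 0) (b := 2) (c := 2) (cn := .pp) (n1 := ndB0q0) (n2 := ndB1q2b) (pc := pcB2) (cut := cut_pp_022_b) (xt := Ext.none) (P1 := 0) (W1 := 536870912) (P2 := 1239849684) (W2 := 370763052) (P3 := 536870912) (W3 := 50465866) (N0 := 3) (En := eng) (mo := mog) (C1 := cd0q0) (C2 := cd1q2b) (C3 := pd2)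
    rfl k0_pp_022_b

noncomputable def f_pp_023_a : ℕ → ℕ → ℕ → ℕ → Bool := onCell 0 536870912 0 536870912 536870912 50465866
    (rowB 3 eng mog cd0q0 cd1q2a pd3 0 true true true .up 0 2 3 (qsf 0 536870912 0 536870912 3) ndB0q0 ndB1q2a pcB3 Cut.none Ext.none)

def k0_pp_023_a : ∃ t, chk3 f_pp_023_a t 2 1 1 = true :=
  ⟨(l 1), by decide +kernel⟩

def k1_pp_023_a : ∃ t, chk3 f_pp_023_a t 6 2 1 = true :=
  ⟨(a (l 1) (a (b (b (l 1) (l 1)) (l 1)) (b (b (a (l 16703768) (l 16706496)) (a (b (l 16724408) (l 16740768)) (b (l 16729040) (l 16767512)))) (b (b (a (b (l 16750136) (l 33520867527)) (b (l 16772136) (a (l 44795165783) (a (l 53921974551) (l 72712437783))))) (a (b (l 1) (l 1)) (l 4))) (l 4))))), by decide +kernel⟩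

def k2_pp_023_a : ∃ t, chk3 f_pp_023_a t 7 2 1 = true :=
  ⟨(a (b (b (a (a (l 16710432) (l 16757176)) (a (b (l 16712336) (l 16729456)) (b (l 16724848) (b (l 16736608) (l 16745024))))) (a (b (a (l 16755968) (l 16763216)) (a (b (l 16750000) (l 16778160)) (b (a (l 16756064) (l 16781536)) (a (l 47479522407) (b (l 59827553447) (l 4)))))) (b (a (a (l 16769664) (b (l 16747672) (l 16780568))) (b (a (l 16752784) (l 16779432)) (b (a (l 16762032) (l 60364431111)) (a (l 58753815879) (l 4))))) (a (b (a (b (l 16763240) (l 57143200855)) (b (l 57680074775) (l 4))) (l 4)) (l 4))))) (b (a (b (a (b (a (l 48016391031) (b (l 56606323959) (l 4))) (l 4)) (l 4)) (l 4)) (l 4)) (l 4))) (b (b (a (b (a (l 16739968) (l 16773352)) (a (a (l 16772016) (b (l 16753400) (l 16781696))) (b (a (l 16759008) (l 16774528)) (a (b (l 16785056) (a (l 16777552) (l 69491233463))) (b (a (l 52848229415) (l 70564959671)) (l 4)))))) (b (a (a (l 16781192) (b (l 16762304) (l 16777792))) (b (a (l 16766448) (l 35131489783)) (a (b (l 16780472) (a (l 58216941143) (l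 74323063447))) (b (a (l 54458845575) (b (l 70564973047) (l 4))) (l 4))))) (a (b (a (b (l 16777624) (a (l 55532585239) (l 73786187943))) (b (a (l 56606329287) (l 75396803223)) (l 4))) (l 4)) (l 4)))) (a (b (a (b (b (a (l 16782400) (a (l 16777232) (l 68417491415))) (a (l 54995723879) (l 4))) (l 4)) (l 4)) (l 4)) (l 4))) (l 4))), by decide +kernel⟩

def k3_pp_023_a : ∃ t, chk3 f_pp_023_a t 3 3 1 = true :=
  ⟨(a (b (l 1) (l 1)) (l 4)), by decide +kernel⟩

theorem s4_pp_023_a : ∃ t, chk3 f_pp_023_a t 3 2 1 = true := ex3_a k1_pp_023_a k2_pp_023_a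

theorem s5_pp_023_a : ∃ t, chk3 f_pp_023_a t 3 1 1 = true := ex3_b s4_pp_023_a k3_pp_023_a

theorem s6_pp_023_a : ∃ t, chk3 f_pp_023_a t 1 1 1 = true := ex3_a k0_pp_023_a s5_pp_023_a

theorem c_pp_023_a : CertB 0 536870912 0 536870912 536870912 50465866 3 eng mog cd0q0 cd1q2a pd3 true true true .up 0 2 3
    ndB0q0 ndB1q2a pcB3 Cut.none Ext.none :=
  certB0 (fam := true) (s1 := true) (s2 := true) (a := 0) (b := 2) (c := 3) (cn := .up) (n1 := ndB0q0) (n2 := ndB1q2a) (pc := pcB3) (cut := Cut.none) (xt := Ext.none) (P1 := 0) (W1 := 536870912) (P2 := 0) (W2 := 536870912) (P3 := 536870912) (W3 := 50465866) (N0 := 3) (En := eng) (mo := mog) (C1 := cd0q0) (C2 := cd1q2a) (C3 := pd3)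
    rfl s6_pp_023_a

noncomputable def f_pp_023_b : ℕ → ℕ → ℕ → ℕ → Bool := onCell 1610612736 536870912 1239849684 370763052 536870912 50465866
    (rowB 3 eng mog cd0q0 cd1q2b pd3 2 true true true .up 0 2 3 (qsf 0 536870912 1239849684 370763052 3) ndB0q0 ndB1q2b pcB3 Cut.none Ext.none)

def k0_pp_023_b : ∃ t, chk3 f_pp_023_b t 1 1 1 = true :=
  ⟨(a (b (a (b (a (b (a (b (l 16681392) (l 16653944)) (b (a (l 16685864) (l 16690336)) (l 16663128))) (a (l 16611384) (l 16664408))) (b (a (b (a (l 16695616) (l 16702896)) (l 16678520)) (b (a (l 16718768) (l 16753896)) (l 16724792))) (a (l 16664056) (b (l 16684712) (l 16663152))))) (a (b (a (l 16550640) (l 16565112)) (a (l 16485008) (l 16503280))) (a (b (l 16589464) (l 16532496)) (b (l 16628624) (l 16594208))))) (a (b (b (a (b (a (b (l 16751360) (l 16738880)) (b (a (l 16758584) (l 16762800)) (l 16751104))) (a (l 16726504) (l 16741792))) (a (b (b (a (l 224512710359) (l 146129551015)) (l 16785736)) (l 16756384)) (l 4))) (a (b (l 16719344) (l 16702744)) (l 4))) (a (b (l 16675920)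 (l 4)) (l 4))) (l 4))) (a (a (b (a (l 16376496) (l 16401456)) (l 16338976)) (b (a (l 16456544) (l 16631872)) (a (l 16379136) (l 16484320)))) (l 4))) (a (l 4) (l 4))), by decide +kernel⟩

theorem c_pp_023_b : CertB 0 536870912 1239849684 370763052 536870912 50465866 3 eng mog cd0q0 cd1q2b pd3 true true true .up 0 2 3
    ndB0q0 ndB1q2b pcB3 Cut.none Ext.none :=
  certB2 (fam := true) (s1 := true) (s2 := true) (a := 0) (b := 2) (c := 3) (cn := .up) (n1 := ndB0q0) (n2 := ndB1q2b) (pc := pcB3) (cut := Cut.none) (xt := Ext.none) (P1 := 0) (W1 := 536870912) (P2 := 1239849684) (W2 := 370763052) (P3 := 536870912) (W3 := 50465866) (N0 := 3) (En := eng) (mo := mog) (C1 := cd0q0) (C2 := cd1q2b) (C3 := pd3)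
    rfl (fun _ => rfl) k0_pp_023_b

noncomputable def f_pp_033 : ℕ → ℕ → ℕ → ℕ → Bool := onCell 0 536870912 1610612736 536870912 536870912 50465866
    (rowB 3 eng mog cd0q0 cd1q3 pd3 1 true true true .pnn 0 3 3 (qsf 0 536870912 1610612736 536870912 3) ndB0q0 ndB1q3 pcB3 Cut.none Ext.none)

def k0_pp_033 : ∃ t, chk3 f_pp_033 t 1 1 1 = true :=
  ⟨(b (a (b (a (b (l 167536629367) (b (l 16347416) (l 16446832))) (b (l 1) (a (l 16451288) (l 1)))) (l 4)) (b (l 1) (b (l 1) (l 4)))) (l 4)), by decide +kernel⟩

theorem c_pp_033 : CertB 0 536870912 1610612736 536870912 536870912 50465866 3 eng mog cd0q0 cd1q3 pd3 true true true .pnn 0 3 3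
    ndB0q0 ndB1q3 pcB3 Cut.none Ext.none :=
  certB1 (fam := true) (s1 := true) (s2 := true) (a := 0) (b := 3) (c := 3) (cn := .pnn) (n1 := ndB0q0) (n2 := ndB1q3) (pc := pcB3) (cut := Cut.none) (xt := Ext.none) (P1 := 0) (W1 := 536870912) (P2 := 1610612736) (W2 := 536870912) (P3 := 536870912) (W3 := 50465866) (N0 := 3) (En := eng) (mo := mog) (C1 := cd0q0) (C2 := cd1q3) (C3 := pd3)
    rfl (fun _ => rfl) k0_pp_033

noncomputable def f_pp_101 : ℕ → ℕ → ℕ → ℕ → Bool := onCell 536870912 536870912 0 536870912 536870912 50465866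
    (rowB 3 eng mog cd0q1 cd1q0 pd1 0 true true true .npn 1 0 1 (qsf 536870912 536870912 0 536870912 1) ndB0q1 ndB1q0 pcB1 Cut.none Ext.none)

def k0_pp_101 : ∃ t, chk3 f_pp_101 t 1 1 1 = true :=
  ⟨(a (l 4) (l 5)), by decide +kernel⟩

theorem c_pp_101 : CertB 536870912 536870912 0 536870912 536870912 50465866 3 eng mog cd0q1 cd1q0 pd1 true true true .npn 1 0 1
    ndB0q1 ndB1q0 pcB1 Cut.none Ext.none :=
  certB0 (fam := true) (s1 := true) (s2 := true) (a := 1) (b := 0) (c := 1) (cn := .npn) (n1 := ndB0q1) (n2 := ndB1q0) (pc := pcB1) (cut := Cut.none) (xt := Ext.none) (P1 := 536870912) (W1 := 536870912) (P2 := 0) (W2 := 536870912) (P3 := 536870912) (W3 := 50465866) (N0 := 3) (En := eng) (mo := mog) (C1 := cd0q1) (C2 := cd1q0) (C3 := pd1)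
    rfl k0_pp_101

noncomputable def f_pp_102 : ℕ → ℕ → ℕ → ℕ → Bool := onCell 536870912 536870912 0 536870912 536870912 50465866
    (rowB 3 eng mog cd0q1 cd1q0 pd2 0 true true true .npp 1 0 2 (qsf 536870912 536870912 0 536870912 2) ndB0q1 ndB1q0 pcB2 Cut.none Ext.none)

def k0_pp_102 : ∃ t, chk3 f_pp_102 t 1 1 1 = true :=
  ⟨(a (l 4) (l 5)), by decide +kernel⟩

theorem c_pp_102 : CertB 536870912 536870912 0 536870912 536870912 50465866 3 eng mog cd0q1 cd1q0 pd2 true true true .npp 1 0 2
    ndB0q1 ndB1q0 pcB2 Cut.none Ext.none :=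
  certB0 (fam := true) (s1 := true) (s2 := true) (a := 1) (b := 0) (c := 2) (cn := .npp) (n1 := ndB0q1) (n2 := ndB1q0) (pc := pcB2) (cut := Cut.none) (xt := Ext.none) (P1 := 536870912) (W1 := 536870912) (P2 := 0) (W2 := 536870912) (P3 := 536870912) (W3 := 50465866) (N0 := 3) (En := eng) (mo := mog) (C1 := cd0q1) (C2 := cd1q0) (C3 := pd2)
    rfl k0_pp_102

noncomputable def f_pp_112 : ℕ → ℕ → ℕ → ℕ → Bool := onCell 536870912 536870912 536870912 536870912 536870912 50465866
    (rowB 3 eng mog cd0q1 cd1q1 pd2 0 true true true .dn 1 1 2 (qsf 536870912 536870912 536870912 536870912 2) ndB0q1 ndB1q1 pcB2 Cut.none Ext.none)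

def k0_pp_112 : ∃ t, chk3 f_pp_112 t 1 1 1 = true :=
  ⟨(l 4), by decide +kernel⟩

theorem c_pp_112 : CertB 536870912 536870912 536870912 536870912 536870912 50465866 3 eng mog cd0q1 cd1q1 pd2 true true true .dn 1 1 2
    ndB0q1 ndB1q1 pcB2 Cut.none Ext.none :=
  certB0 (fam := true) (s1 := true) (s2 := true) (a := 1) (b := 1) (c := 2) (cn := .dn) (n1 := ndB0q1) (n2 := ndB1q1) (pc := pcB2) (cut := Cut.none) (xt := Ext.none) (P1 := 536870912) (W1 := 536870912) (P2 := 536870912) (W2 := 536870912) (P3 := 536870912) (W3 := 50465866) (N0 := 3) (En := eng) (mo := mog) (C1 := cd0q1) (C2 := cd1q1) (C3 := pd2)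
    rfl k0_pp_112

noncomputable def f_pp_113 : ℕ → ℕ → ℕ → ℕ → Bool := onCell 536870912 536870912 536870912 536870912 536870912 50465866
    (rowB 3 eng mog cd0q1 cd1q1 pd3 0 true true true .nn 1 1 3 (qsf 536870912 536870912 536870912 536870912 3) ndB0q1 ndB1q1 pcB3 Cut.none Ext.none)

def k0_pp_113 : ∃ t, chk3 f_pp_113 t 1 1 1 = true :=
  ⟨(l 4), by decide +kernel⟩

theorem c_pp_113 : CertB 536870912 536870912 536870912 536870912 536870912 50465866 3 eng mog cd0q1 cd1q1 pd3 true true true .nn 1 1 3
    ndB0q1 ndB1q1 pcB3 Cut.none Ext.none :=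
  certB0 (fam := true) (s1 := true) (s2 := true) (a := 1) (b := 1) (c := 3) (cn := .nn) (n1 := ndB0q1) (n2 := ndB1q1) (pc := pcB3) (cut := Cut.none) (xt := Ext.none) (P1 := 536870912) (W1 := 536870912) (P2 := 536870912) (W2 := 536870912) (P3 := 536870912) (W3 := 50465866) (N0 := 3) (En := eng) (mo := mog) (C1 := cd0q1) (C2 := cd1q1) (C3 := pd3)
    rfl k0_pp_113

noncomputable def f_pp_123_a : ℕ → ℕ → ℕ → ℕ → Bool := onCell 536870912 536870912 0 536870912 536870912 50465866
    (rowB 3 eng mog cd0q1 cd1q2a pd3 0 true true true .npn 1 2 3 (qsf 536870912 536870912 0 536870912 3) ndB0q1 ndB1q2a pcB3 Cut.none Ext.none)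

def k0_pp_123_a : ∃ t, chk3 f_pp_123_a t 1 1 1 = true :=
  ⟨(a (b (a (a (b (b (a (b (a (b (a (b (l 41037070775) (a (l 56069458711) (b (l 78081160743) (l 4)))) (b (a (b (l 16773984) (l 79691774087)) (b (a (l 61975037399) (l 94724160903)) (l 4))) (l 4))) (l 4)) (l 4)) (l 4)) (l 4)) (l 4)) (l 4)) (l 4)) (l 4)) (l 4)) (l 4)), by decide +kernel⟩

theorem c_pp_123_a : CertB 536870912 536870912 0 536870912 536870912 50465866 3 eng mog cd0q1 cd1q2a pd3 true true true .npn 1 2 3
    ndB0q1 ndB1q2a pcB3 Cut.none Ext.none :=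
  certB0 (fam := true) (s1 := true) (s2 := true) (a := 1) (b := 2) (c := 3) (cn := .npn) (n1 := ndB0q1) (n2 := ndB1q2a) (pc := pcB3) (cut := Cut.none) (xt := Ext.none) (P1 := 536870912) (W1 := 536870912) (P2 := 0) (W2 := 536870912) (P3 := 536870912) (W3 := 50465866) (N0 := 3) (En := eng) (mo := mog) (C1 := cd0q1) (C2 := cd1q2a) (C3 := pd3)
    rfl k0_pp_123_a

noncomputable def f_pp_123_b : ℕ → ℕ → ℕ → ℕ → Bool := onCell 536870912 536870912 1239849684 370763052 536870912 50465866
    (rowB 3 eng mog cd0q1 cd1q2b pd3 0 true true true .npn 1 2 3 (qsf 536870912 536870912 1239849684 370763052 3) ndB0q1 ndB1q2b pcB3 Cut.none Ext.none)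

def k0_pp_123_b : ∃ t, chk3 f_pp_123_b t 1 1 1 = true :=
  ⟨(a (b (a (b (a (a (b (b (a (b (a (b (l 16769656) (l 16770648)) (b (a (l 16773400) (a (l 16775360) (l 105461578759))) (l 4))) (l 4)) (l 4)) (l 4)) (l 4)) (l 4)) (l 4)) (l 4)) (l 4)) (l 4)) (l 4)), by decide +kernel⟩

theorem c_pp_123_b : CertB 536870912 536870912 1239849684 370763052 536870912 50465866 3 eng mog cd0q1 cd1q2b pd3 true true true .npn 1 2 3
    ndB0q1 ndB1q2b pcB3 Cut.none Ext.none :=
  certB0 (fam := true) (s1 := true) (s2 := true) (a := 1) (b := 2) (c := 3) (cn := .npn) (n1 := ndB0q1) (n2 := ndB1q2b) (pc := pcB3) (cut := Cut.none) (xt := Ext.none) (P1 := 536870912) (W1 := 536870912) (P2 := 1239849684) (W2 := 370763052) (P3 := 536870912) (W3 := 50465866) (N0 := 3) (En := eng) (mo := mog) (C1 := cd0q1) (C2 := cd1q2b) (C3 := pd3)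
    rfl k0_pp_123_b

noncomputable def f_pp_133 : ℕ → ℕ → ℕ → ℕ → Bool := onCell 536870912 536870912 1610612736 536870912 536870912 50465866
    (rowB 3 eng mog cd0q1 cd1q3 pd3 0 true true true .dn 1 3 3 (qsf 536870912 536870912 1610612736 536870912 3) ndB0q1 ndB1q3 pcB3 Cut.none Ext.none)

def k0_pp_133 : ∃ t, chk3 f_pp_133 t 1 1 1 = true :=
  ⟨(l 4), by decide +kernel⟩

theorem c_pp_133 : CertB 536870912 536870912 1610612736 536870912 536870912 50465866 3 eng mog cd0q1 cd1q3 pd3 true true true .dn 1 3 3
    ndB0q1 ndB1q3 pcB3 Cut.none Ext.none :=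
  certB0 (fam := true) (s1 := true) (s2 := true) (a := 1) (b := 3) (c := 3) (cn := .dn) (n1 := ndB0q1) (n2 := ndB1q3) (pc := pcB3) (cut := Cut.none) (xt := Ext.none) (P1 := 536870912) (W1 := 536870912) (P2 := 1610612736) (W2 := 536870912) (P3 := 536870912) (W3 := 50465866) (N0 := 3) (En := eng) (mo := mog) (C1 := cd0q1) (C2 := cd1q3) (C3 := pd3)
    rfl k0_pp_133

noncomputable def f_pp_202 : ℕ → ℕ → ℕ → ℕ → Bool := onCell 0 536870912 0 536870912 536870912 50465866
    (rowB 3 eng mog cd0q2 cd1q0 pd2 0 true true true .pp 2 0 2 (qsf 0 536870912 0 536870912 2) ndB0q2 ndB1q0 pcB2 Cut.none Ext.none)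

def k0_pp_202 : ∃ t, chk3 f_pp_202 t 1 1 1 = true :=
  ⟨(l 5), by decide +kernel⟩

theorem c_pp_202 : CertB 0 536870912 0 536870912 536870912 50465866 3 eng mog cd0q2 cd1q0 pd2 true true true .pp 2 0 2
    ndB0q2 ndB1q0 pcB2 Cut.none Ext.none :=
  certB0 (fam := true) (s1 := true) (s2 := true) (a := 2) (b := 0) (c := 2) (cn := .pp) (n1 := ndB0q2) (n2 := ndB1q0) (pc := pcB2) (cut := Cut.none) (xt := Ext.none) (P1 := 0) (W1 := 536870912) (P2 := 0) (W2 := 536870912) (P3 := 536870912) (W3 := 50465866) (N0 := 3) (En := eng) (mo := mog) (C1 := cd0q2) (C2 := cd1q0) (C3 := pd2)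
    rfl k0_pp_202

noncomputable def f_pp_203 : ℕ → ℕ → ℕ → ℕ → Bool := onCell 0 536870912 0 536870912 536870912 50465866
    (rowB 3 eng mog cd0q2 cd1q0 pd3 0 true true true .up 2 0 3 (qsf 0 536870912 0 536870912 3) ndB0q2 ndB1q0 pcB3 Cut.none Ext.none)

def k0_pp_203 : ∃ t, chk3 f_pp_203 t 1 1 1 = true :=
  ⟨(l 5), by decide +kernel⟩

theorem c_pp_203 : CertB 0 536870912 0 536870912 536870912 50465866 3 eng mog cd0q2 cd1q0 pd3 true true true .up 2 0 3
    ndB0q2 ndB1q0 pcB3 Cut.none Ext.none :=
  certB0 (fam := true) (s1 := true) (s2 := true) (a := 2) (b := 0) (c := 3) (cn := .up) (n1 := ndB0q2) (n2 := ndB1q0) (pc := pcB3) (cut := Cut.none) (xt := Ext.none) (P1 := 0) (W1 := 536870912) (P2 := 0) (W2 := 536870912) (P3 := 536870912) (W3 := 50465866) (N0 := 3) (En := eng) (mo := mog) (C1 := cd0q2) (C2 := cd1q0) (C3 := pd3)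
    rfl k0_pp_203

noncomputable def f_pp_213 : ℕ → ℕ → ℕ → ℕ → Bool := onCell 0 536870912 536870912 536870912 536870912 50465866
    (rowB 3 eng mog cd0q2 cd1q1 pd3 0 true true true .pnn 2 1 3 (qsf 0 536870912 536870912 536870912 3) ndB0q2 ndB1q1 pcB3 Cut.none Ext.none)

def k0_pp_213 : ∃ t, chk3 f_pp_213 t 1 1 1 = true :=
  ⟨(l 5), by decide +kernel⟩

theorem c_pp_213 : CertB 0 536870912 536870912 536870912 536870912 50465866 3 eng mog cd0q2 cd1q1 pd3 true true true .pnn 2 1 3
    ndB0q2 ndB1q1 pcB3 Cut.none Ext.none :=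
  certB0 (fam := true) (s1 := true) (s2 := true) (a := 2) (b := 1) (c := 3) (cn := .pnn) (n1 := ndB0q2) (n2 := ndB1q1) (pc := pcB3) (cut := Cut.none) (xt := Ext.none) (P1 := 0) (W1 := 536870912) (P2 := 536870912) (W2 := 536870912) (P3 := 536870912) (W3 := 50465866) (N0 := 3) (En := eng) (mo := mog) (C1 := cd0q2) (C2 := cd1q1) (C3 := pd3)
    rfl k0_pp_213

noncomputable def f_pm_001 : ℕ → ℕ → ℕ → ℕ → Bool := onCell 0 536870912 0 536870912 536870912 50465866
    (rowB 3 eng mog cd0q0 cd1q0 pd1 0 true true false .up 0 0 1 (qsf 0 536870912 0 536870912 1) ndB0q0 ndB1q0 pcB1 Cut.none Ext.none)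

def k0_pm_001 : ∃ t, chk3 f_pm_001 t 1 1 1 = true :=
  ⟨(l 3), by decide +kernel⟩

theorem c_pm_001 : CertB 0 536870912 0 536870912 536870912 50465866 3 eng mog cd0q0 cd1q0 pd1 true true false .up 0 0 1
    ndB0q0 ndB1q0 pcB1 Cut.none Ext.none :=
  certB0 (fam := true) (s1 := true) (s2 := false) (a := 0) (b := 0) (c := 1) (cn := .up) (n1 := ndB0q0) (n2 := ndB1q0) (pc := pcB1) (cut := Cut.none) (xt := Ext.none) (P1 := 0) (W1 := 536870912) (P2 := 0) (W2 := 536870912) (P3 := 536870912) (W3 := 50465866) (N0 := 3) (En := eng) (mo := mog) (C1 := cd0q0) (C2 := cd1q0) (C3 := pd1)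
    rfl k0_pm_001

noncomputable def f_pm_011 : ℕ → ℕ → ℕ → ℕ → Bool := onCell 536870912 536870912 536870912 536870912 536870912 50465866
    (rowB 3 eng mog cd0q0 cd1q1 pd1 2 true true false .pnn 0 1 1 (qsf 0 536870912 536870912 536870912 1) ndB0q0 ndB1q1 pcB1 Cut.none Ext.none)

def k0_pm_011 : ∃ t, chk3 f_pm_011 t 1 1 1 = true :=
  ⟨(l 3), by decide +kernel⟩

theorem c_pm_011 : CertB 0 536870912 536870912 536870912 536870912 50465866 3 eng mog cd0q0 cd1q1 pd1 true true false .pnn 0 1 1
    ndB0q0 ndB1q1 pcB1 Cut.none Ext.none :=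
  certB2 (fam := true) (s1 := true) (s2 := false) (a := 0) (b := 1) (c := 1) (cn := .pnn) (n1 := ndB0q0) (n2 := ndB1q1) (pc := pcB1) (cut := Cut.none) (xt := Ext.none) (P1 := 0) (W1 := 536870912) (P2 := 536870912) (W2 := 536870912) (P3 := 536870912) (W3 := 50465866) (N0 := 3) (En := eng) (mo := mog) (C1 := cd0q0) (C2 := cd1q1) (C3 := pd1)
    rfl (fun _ => rfl) k0_pm_011

end Pool.Agent.Strip051.G.I5000_5470.Tab.C.BA01

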