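import Pool.Agent.Strip051.G.I5000_5470.Tab
import Pool.Agent.Strip051.PB.ExtD2

/-! # Certificates B4 (generated) -/

set_option linter.all false
set_option maxRecDepth 100000

namespace Pool.Agent.Strip051.G.I5000_5470.Tab.C.BA01

open Pool.Agent.Strip051.PB Pool.Agent.Strip051.PB.T
open Pool.Agent.Strip051.G.I5000_5470.Tab

noncomputable def f_pm_012 : ℕ → ℕ → ℕ → ℕ → Bool := onCell 1073741824 536870912 536870912 536870912 536870912 50465866
    (rowB 3 eng mog cd0q0 cd1q1 pd2 2 true true false .pnp 0 1 2 (qsf 0 536870912 536870912 536870912 2) ndB0q0 ndB1q1 pcB2 Cut.none Ext.none)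

def k0_pm_012 : ∃ t, chk3 f_pm_012 t 4 2 1 = true :=
  ⟨(l 3), by decide +kernel⟩

def k1_pm_012 : ∃ t, chk3 f_pm_012 t 8 3 1 = true :=
  ⟨(b (l 3) (l 3)), by decide +kernel⟩

def k2_pm_012 : ∃ t, chk3 f_pm_012 t 9 6 1 = true :=
  ⟨(b (l 3) (l 3)), by decide +kernel⟩

def k3_pm_012 : ∃ t, chk3 f_pm_012 t 18 7 1 = true :=
  ⟨(b (l 3) (b (a (l 3) (b (l 3) (a (l 3) (a (b (l 3) (b (l 16701864) (l 16699152))) (b (l 16700976) (l 16695816)))))) (a (b (l 3) (a (b (l 3) (a (l 3) (b (l 3) (l 16698496)))) (a (b (a (l 3) (l 16700576)) (b (l 16697088) (l 16694008))) (b (b (l 16698648) (l 16695640)) (b (l 16692656) (l 16689664)))))) (b (a (a (b (l 3) (b (l 16700000) (l 16697072))) (b (b (l 16701088) (l 16698264)) (b (l 16695432) (l 16692616)))) (a (b (b (l 16696440) (l 16693720)) (b (l 16690984) (l 16688200))) (b (b (l 16691888) (l 16689240)) (b (l 16686504) (l 16683744))))) (a (a (b (a (l 16693800) (l 16691600)) (b (l 16688296) (l 16685280))) (b (b (l 16689776) (l 16686856)) (b (l 16683912) (l 16680936)))) (b (a (l 16683912)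 (l 16679504)) (l 16675904))))))), by decide +kernel⟩

def k4_pm_012 : ∃ t, chk3 f_pm_012 t 19 7 1 = true :=
  ⟨(b (a (b (l 3) (a (l 3) (b (l 3) (a (b (l 3) (l 16699456)) (b (l 16697656) (l 16694064)))))) (b (a (b (l 3) (a (l 3) (b (l 3) (l 16696792)))) (b (a (b (l 3) (l 158544553767)) (b (l 120963604519) (l 16700208))) (a (b (l 16721984) (l 16693064)) (b (l 16694848) (l 16689136))))) (a (b (b (a (l 16697816) (l 16691816)) (a (l 16694984) (l 16689072))) (a (b (l 16691984) (l 16688760)) (b (l 16686464) (l 16683320)))) (b (a (b (l 16687152) (l 16683200)) (l 16708464)) (a (b (l 16680584) (l 16677584)) (l 16672896)))))) (a (b (a (b (b (a (l 3) (l 16700528)) (a (l 16701000) (l 16696016))) (b (a (l 16696144) (l 16691384)) (a (l 16691192) (b (l 16687744) (l 16685232))))) (b (a (b (l 16695360) (l 16691096)) (b (l 16690264) (l 16686104))) (b (a (l 16686552) (l 16681664)) (l 16679368)))) (b (a (a (b (b (l 16687320) (l 16684672)) (l 16680624)) (l 16699752)) (b (l 16674400) (l 16669232))) (a (b (l 16672840) (l 16667160))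 (b (l 16663872) (a (l 16660560) (l 16656104)))))) (b (a (b (a (b (l 16685064) (l 16681032)) (l 16677864)) (b (l 16674192) (l 16669680))) (a (b (l 16693392) (l 16664416)) (b (l 16666736) (l 16659248)))) (a (b (b (l 16664936) (l 16659984)) (b (l 16666592) (l 16649368))) (b (b (a (l 16657720) (l 16652848)) (a (l 16652936) (l 16648168))) (b (l 16645560) (l 16640344))))))), by decide +kernel⟩

def k5_pm_012 : ∃ t, chk3 f_pm_012 t 40 2 1 = true :=
  ⟨(l 3), by decide +kernel⟩

def k6_pm_012 : ∃ t, chk3 f_pm_012 t 82 2 1 = true :=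
  ⟨(b (l 2) (l 3)), by decide +kernel⟩

def k7_pm_012 : ∃ t, chk3 f_pm_012 t 83 4 1 = true :=
  ⟨(l 2), by decide +kernel⟩

def k8_pm_012 : ∃ t, chk3 f_pm_012 t 166 5 1 = true :=
  ⟨(b (l 3) (b (l 3) (a (a (l 3) (b (l 3) (l 16710032))) (a (b (l 16710776) (l 16709296)) (b (l 16710320) (l 16708616)))))), by decide +kernel⟩

def k9_pm_012 : ∃ t, chk3 f_pm_012 t 167 10 1 = true :=
  ⟨(a (a (l 3) (a (l 3) (b (l 3) (b (l 3) (l 16717048))))) (b (c (a (a (a (l 16719624) (a (l 16719792) (l 16719904))) (l 16720168)) (l 16720808)) (a (a (a (l 16716696) (a (l 16716824) (l 16716912))) (l 16717120)) (l 16717624))) (c (a (b (c (a (b (a (l 3) (a (l 16721160) (l 16721248))) (a (l 16720552) (a (l 16720696) (l 16720776)))) (l 16721264)) (a (b (a (l 3) (a (l 16719536) (l 16719616))) (a (l 16719016) (a (l 16719128) (l 16719200)))) (l 16719616))) (c (a (b (a (l 16719808) (a (l 16719936) (l 16720008))) (a (l 16718872) (a (l 16718976) (l 16719040)))) (l 16719680)) (a (b (a (l 16718344) (a (l 16718448) (l 16718512))) (a (l 16717504)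 (a (l 16717584) (l 16717632)))) (l 16718200)))) (l 16719976)) (a (b (c (a (b (a (l 3) (a (l 16717984) (l 16718048))) (a (l 16717520) (a (l 16717608) (l 16717664)))) (l 16718032)) (a (b (a (l 3) (a (l 16716488) (l 16716544))) (a (l 16716080) (a (l 16716144) (l 16716192)))) (l 16716504))) (c (a (b (a (l 16716920) (a (l 16716992) (l 16717048))) (a (l 16716144) (a (l 16716200) (l 16716248)))) (l 16716744)) (a (b (a (l 16715520) (a (l 16715576) (l 16715616))) (a (l 16714800) (a (l 16714832) (l 16714872)))) (l 16715312)))) (l 16716840))))), by decide +kernel⟩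

def k10_pm_012 : ∃ t, chk3 f_pm_012 t 334 11 1 = true :=
  ⟨(b (a (b (l 3) (l 16712800)) (a (b (l 16715456) (l 16712816)) (b (l 16715592) (l 16712888)))) (a (b (c (l 16710568) (l 16709272)) (l 16718312)) (a (b (l 16709744) (l 16707328)) (b (l 16709752) (l 16707264))))), by decide +kernel⟩

def k11_pm_012 : ∃ t, chk3 f_pm_012 t 335 11 1 = true :=
  ⟨(b (c (a (b (c (a (b (a (l 16718056) (a (l 16718136) (l 16718184))) (a (l 16717344) (a (l 16717392) (l 16717424)))) (l 16717880)) (a (b (a (l 16716728) (a (l 16716784) (l 16716832))) (a (l 16716008) (a (l 16716048) (l 16716072)))) (l 16716504))) (c (a (b (a (l 16715480) (a (l 16715512) (l 16715536))) (a (l 16713472) (a (l 16713488) (l 16713512)))) (l 16714560)) (a (b (a (l 16714360) (a (l 16714384) (l 16714400))) (a (l 16712576) (a (l 16712584) (l 16712600)))) (l 16713512)))) (b (l 16717360) (l 16714088))) (a (b (c (a (b (a (l 16715392) (a (l 16715440) (l 16715472))) (a (l 16714664) (a (l 16714680) (l 16714704)))) (l 16715120)) (a (b (a (l 16714056) (a (l 16714080)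 (l 16714104))) (a (l 16713296) (a (l 16713304) (l 16713320)))) (l 16713720))) (c (a (b (a (l 16713192) (a (l 16713208) (l 16713224))) (a (l 16711616) (a (l 16711616) (l 16711632)))) (l 16712416)) (a (b (a (l 16711992) (a (l 16711992) (l 16712008))) (a (l 16710600) (a (l 16710592) (l 16710600)))) (l 16711272)))) (b (l 16714440) (l 16711776)))) (c (a (b (c (a (b (a (l 16711656) (a (l 16711672) (l 16711784))) (a (l 16710032) (a (l 16710152) (l 16710392)))) (l 16711104)) (a (b (a (l 16710928) (a (l 16710928) (l 16710984))) (a (l 16709408) (a (l 16709448) (l 16709552)))) (l 16710208))) (a (a (l 16707968) (l 16708224)) (l 16708304))) (l 16709232)) (a (b (c (a (b (a (l 16710120) (a (l 16710112) (l 16710112))) (a (l 16708696) (a (l 16708672) (l 16708640)))) (l 16709256)) (a (b (a (l 16709248) (a (l 16709224) (l 16709168))) (a (l 16707904) (a (l 16707816) (l 16707672)))) (l 16708232))) (a (a (l 16706392) (l 16706224)) (l 16706064))) (b (l 16708648) (l 16705792))))), by decide +kernel⟩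

def k12_pm_012 : ∃ t, chk3 f_pm_012 t 21 2 1 = true :=
  ⟨(b (l 2) (b (b (a (b (l 2) (l 16724024)) (l 2)) (a (b (l 16722600) (l 16719992)) (b (l 16727432) (l 16723792)))) (b (a (b (a (l 16716600) (l 16717568)) (l 16712872)) (b (l 16719136) (l 16713672))) (a (b (a (l 16709064) (l 16708216)) (a (l 16705672) (l 16703768))) (b (l 16707576) (l 16701768)))))), by decide +kernel⟩

def k13_pm_012 : ∃ t, chk3 f_pm_012 t 11 2 1 = true :=
  ⟨(b (l 2) (b (b (l 2) (a (a (l 16729584) (l 2)) (l 2))) (b (a (b (l 16722960) (l 16716320)) (b (l 2) (l 16723832))) (a (a (b (l 16708280) (l 16700672)) (l 16706056)) (a (l 16708760) (l 16712992)))))), by decide +kernel⟩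

def k14_pm_012 : ∃ t, chk3 f_pm_012 t 40 6 1 = true :=
  ⟨(b (b (l 3) (l 3)) (a (b (l 3) (b (a (l 3) (a (b (l 3) (l 120426744439)) (b (l 110226202263) (c (l 16713464) (l 16709432))))) (a (b (l 126332324519) (a (l 16707328) (l 16706032))) (a (b (l 16708912) (l 16704400)) (b (l 16707376) (l 16702824)))))) (b (a (b (l 3) (b (a (l 3) (c (b (l 3) (l 66739659927)) (l 82845782535))) (a (c (l 86067013383) (l 103246875079)) (a (a (l 71571496935) (l 16715488)) (l 16714840))))) (b (a (b (l 3) (a (l 72645241191) (b (l 65665916951) (l 16717312)))) (b (a (c (l 52244144167) (l 66202781831)) (b (l 50633527863) (l 16722496))) (c (a (l 16719064) (l 16718144)) (a (l 16714592) (l 16713576))))) (a (b (c (a (l 16729280) (l 16717952)) (b (l 16714400) (l 16713200))) (c (l 16715816) (l 16711096))) (b (c (a (l 16717064) (l 16716248)) (l 16722368)) (c (l 16714320) (l 16709368)))))) (a (b (a (b (c (l 16726240) (l 16711432)) (l 16709968)) (b (c (l 16714272) (l 16709712)) (l 16708400))) (b (a (l 16705848) (l 16704432)) (a (l 16701416)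 (l 16699992)))) (b (a (b (l 16720904) (l 16706992)) (b (l 16709048) (a (l 16705976) (l 16705328)))) (b (a (b (l 16704096) (l 16702032)) (l 16722304)) (a (l 16698448) (l 16696208)))))))), by decide +kernel⟩

def k15_pm_012 : ∃ t, chk3 f_pm_012 t 40 7 1 = true :=
  ⟨(b (b (a (a (b (b (l 16701968) (l 16696760)) (b (l 16691280) (l 16706904))) (b (b (l 16698744) (a (l 16694296) (l 16692896))) (b (l 16709304) (l 16682664)))) (a (b (b (a (l 16696592) (l 16695088)) (l 16690352)) (b (l 16684800) (l 16679008))) (b (b (a (l 16693056) (l 16690840)) (l 16707344)) (b (l 16680584) (l 16674656))))) (a (b (a (l 16677800) (l 16695120)) (l 16685608)) (b (a (l 16691144) (l 16686568)) (a (l 16658224) (l 16653312))))) (b (a (b (l 16668776) (a (l 16675120) (b (l 16650848) (l 16647096)))) (a (b (l 16649992) (l 16664672)) (b (l 16644280) (l 16638344)))) (a (b (b (l 16666440) (l 16640992)) (b (l 16636272) (l 16631344))) (b (b (l 16635424) (l 16631328)) (b (l 16626976) (l 16622392)))))), by decide +kernel⟩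

def k16_pm_012 : ∃ t, chk3 f_pm_012 t 82 12 1 = true :=
  ⟨(a (b (l 3) (b (a (l 3) (b (l 3) (c (a (l 16719040) (l 16718224)) (a (l 51707255607) (c (l 16715536) (l 16713696)))))) (a (a (b (l 3) (b (l 54928482679) (a (l 16717904) (l 16717464)))) (a (b (l 3) (c (l 16719272) (l 16715136))) (b (c (l 16719464) (l 46875418311)) (c (l 16718784) (l 16714608))))) (b (c (a (c (l 16719752) (l 16717840)) (l 16717832)) (a (b (l 16715128) (l 16714696)) (l 16713896))) (c (a (l 16718024) (l 16717096)) (a (l 16713808) (l 16712848))))))) (b (a (b (l 3) (b (l 3) (c (l 16716352) (l 38285484839)))) (a (b (l 3) (b (l 16713216) (l 16713536))) (b (l 16711856) (b (l 16712256) (l 16712640))))) (a (a (b (b (c (l 16717264) (l 16713992)) (c (l 16717272) (l 16713640))) (b (c (l 16716888) (l 16712936)) (c (l 16716280) (l 16712000)))) (b (b (c (l 16716296) (l 16713032)) (c (l 16716320) (l 16712704))) (b (c (l 16716072) (l 16712112)) (l 16713464)))) (a (b (b (l 16713736) (c (l 16715520) (l 16711912))) (b (c (l 16715424) (l 16711456)) (l 16712944)))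 (b (b (l 16713000) (l 16713144)) (b (l 16713008) (c (l 16714704) (l 16710304)))))))), by decide +kernel⟩

def k17_pm_012 : ∃ t, chk3 f_pm_012 t 82 13 1 = true :=
  ⟨(a (b (b (a (a (b (c (l 16718808) (l 16714424)) (c (l 16717272) (l 16712608))) (b (c (l 16717856) (l 16713392)) (l 16714088))) (a (b (l 16719952) (l 16713248)) (b (l 16713864) (l 16712512)))) (a (a (b (l 16713080) (l 16710872)) (b (l 16712320) (l 16710232))) (b (c (l 16713696) (l 16708600)) (c (a (l 16712008) (l 16711056)) (a (l 16706696) (l 16705688)))))) (b (a (a (b (l 16708088) (l 16704368)) (b (b (l 16708224) (l 16706408)) (l 16703016))) (a (b (l 16705992) (l 16701720)) (b (l 16704640) (l 16700520)))) (a (a (l 16707480) (b (l 16698264) (l 16693216))) (c (b (l 16699280) (l 16694376)) (b (l 16693816) (l 16689024)))))) (b (b (a (a (b (l 16713152) (l 16711904)) (b (l 16712576) (a (l 16711432) (l 16711064)))) (b (c (a (l 16714336) (l 16713616)) (a (l 16709640) (l 16708816))) (c (a (l 16712728) (l 16711440)) (a (l 16707680) (l 16706240))))) (a (b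 (c (a (l 16712600) (l 16711408)) (a (l 16707408) (l 16706144))) (c (a (l 16709672) (l 16708424)) (l 16703536))) (b (c (a (l 16710120) (l 16708984)) (a (l 16704728) (l 16703408))) (c (a (l 16707312) (l 16711584)) (a (l 16701600) (l 16700416)))))) (b (a (c (a (b (l 16706168) (l 16702248)) (b (l 16705096) (l 16701344))) (b (l 16699928) (l 16695976))) (a (b (c (l 16704160) (l 16698192)) (c (l 16700568) (l 16694424))) (b (c (c (l 16704912) (l 16701808)) (l 16697136)) (c (l 16710432) (l 16693504))))) (a (c (b (c (l 16698992) (l 16696096)) (l 16692960)) (b (l 16691704) (l 16687136))) (b (c (c (l 16708424) (l 16694728)) (l 16689920)) (c (l 16702536) (l 16685592))))))), by decide +kernel⟩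

def k18_pm_012 : ∃ t, chk3 f_pm_012 t 166 12 1 = true :=
  ⟨(b (a (b (c (a (l 16711768) (l 16710752)) (a (l 16709928) (l 16709040))) (a (b (l 16711416) (l 16711912)) (a (l 16710896) (l 16710320)))) (a (b (l 16709016) (b (l 16709272) (l 16709552))) (b (l 16707992) (b (l 16707992) (l 16707992))))) (a (a (b (b (l 16712384) (l 16712656)) (a (b (l 16712832) (c (l 16714416) (l 16709936))) (b (l 16712400) (l 16711368)))) (b (b (l 16711224) (c (l 16713080) (l 16709600))) (b (c (l 16712848) (b (l 16709232) (l 16708616))) (c (l 16711616) (l 16707136))))) (a (b (b (l 16709752) (c (l 16711216) (l 16707808))) (b (c (l 16710440) (l 16706448)) (c (l 16709384) (l 16704792)))) (b (b (c (l 16709272) (l 16706384)) (c (l 16708952) (l 16705392))) (b (c (l 16708432) (l 16704208)) (c (l 16707696) (l 16702824))))))), by decide +kernel⟩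

def k19_pm_012 : ∃ t, chk3 f_pm_012 t 166 13 1 = true :=
  ⟨(b (a (b (c (a (b (l 16712232) (c (l 16711472) (l 16708816))) (b (l 16710032) (l 16708232))) (a (b (l 16707288) (l 16704768)) (b (l 16705032) (l 16702744)))) (b (c (a (c (l 16709312) (l 16706432)) (l 16706232)) (a (l 16702080) (l 16700288))) (c (a (c (l 16706944) (l 16703864)) (c (l 16705640) (l 16702440))) (a (l 16709712) (l 16697648))))) (b (c (a (b (l 16708112) (l 16706616)) (b (l 16706728) (l 16705520))) (a (b (l 16702952) (l 16700912)) (b (l 16701240) (l 16699448)))) (b (c (a (l 16710144) (l 16714568)) (a (l 16698688) (l 16697448))) (c (a (c (l 16704664) (l 16701296)) (c (l 16704240) (l 16700616))) (a (l 16696280) (l 16695264)))))) (a (a (b (b (c (a (l 16702872) (l 16702384)) (l 16696096)) (c (c (l 16701080) (l 16697680)) (l 16692608))) (b (c (l 16695728) (l 16688784)) (l 16698624))) (b (b (c (c (l 16703232) (l 16699824)) (l 16694752)) (c (l 16709048) (l 16691480))) (b (c (l 16695168) (l 16687856)) (l 16687608)))) (b (b (c (a (c (l 16702552)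 (l 16698944)) (l 16700456)) (a (l 16693608) (l 16692816))) (c (a (l 16698056) (l 16698040)) (a (l 16690560) (l 16689984)))) (b (c (a (l 16694936) (l 16695168)) (l 16686928)) (c (l 16702088) (l 16683280)))))), by decide +kernel⟩

def k20_pm_012 : ∃ t, chk3 f_pm_012 t 167 12 1 = true :=
  ⟨(a (b (c (a (b (l 16707368) (b (l 16707192) (l 16707360))) (a (b (l 16706616) (l 16706480)) (b (l 16706672) (l 16706552)))) (a (b (l 16705936) (b (l 16705280) (l 16704832))) (a (b (l 16705096) (l 16703816)) (b (l 16704744) (l 16703424))))) (c (a (b (b (l 16707304) (c (l 16708336) (l 16706360))) (b (c (l 16708336) (l 16705984)) (c (l 16708088) (l 16705384)))) (a (b (l 16706872) (b (l 16706888) (l 16706584))) (b (l 16706888) (b (l 16706896) (l 16706584))))) (a (b (b (l 16704056) (c (l 16704368) (l 16702344))) (b (c (l 16703632) (l 16701280)) (c (l 16702688) (l 16700008)))) (b (c (a (l 16703792) (l 16703552)) (a (l 16701728) (l 16701328))) (c (a (l 16702624) (l 16702448)) (a (l 16699896) (l 16699608))))))) (b (b (a (a (a (l 16705688)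 (c (l 16707064) (l 16714840))) (l 16705528)) (l 16705168)) (a (a (a (l 16704960) (a (l 16705016) (b (l 16705136) (l 16704896)))) (l 16704704)) (l 16704224))) (b (c (a (a (a (l 16706992) (a (l 16707144) (b (l 16707008) (l 16707096)))) (l 16706664)) (l 16706088)) (a (a (a (l 16702296) (a (l 16702296) (b (l 16702520) (l 16702064)))) (l 16701984)) (l 16701392))) (c (a (a (a (l 16706864) (a (l 16707000) (b (l 16707016) (l 16706672)))) (l 16706400)) (l 16705792)) (a (a (a (l 16700952) (a (l 16701008) (b (l 16701448) (l 16700584)))) (l 16700704)) (l 16700072)))))), by decide +kernel⟩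

def k21_pm_012 : ∃ t, chk3 f_pm_012 t 334 13 1 = true :=
  ⟨(b (c (a (b (b (c (l 16707584) (l 16704536)) (c (l 16706816) (l 16703440))) (b (c (l 16705792) (l 16702104)) (c (l 16704536) (l 16700552)))) (a (b (l 16705640) (l 16703480)) (b (l 16705640) (l 16703480)))) (a (b (b (c (l 16701512) (l 16698520)) (c (l 16700104) (l 16696816))) (b (c (l 16698472) (l 16694904)) (l 16705200))) (a (b (l 16709328) (l 16695520)) (b (l 16709176) (l 16695440))))) (b (b (a (a (l 16696512) (l 16717648)) (a (l 16696744) (l 16696728))) (a (c (l 16698656) (l 16689856)) (a (l 16694464) (l 16694480)))) (c (a (b (l 16696032) (l 16692960)) (a (l 16695192) (a (l 16695176) (l 16695000)))) (a (l 16685216) (a (l 16685440) (l 16685320)))))), by decide +kernel⟩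

def k22_pm_012 : ∃ t, chk3 f_pm_012 t 335 26 1 = true :=
  ⟨(b (c (a (a (a (l 16705720) (a (l 16705840) (l 16705672))) (l 16705152)) (l 16704504)) (a (a (a (l 16698680) (a (l 16698784) (l 16698848))) (l 16698488)) (l 16697832))) (c (a (a (a (l 16703552) (a (l 16703664) (l 16703456))) (l 16702888)) (l 16702216)) (a (a (a (l 16695488) (c (l 16697616) (l 16693808))) (l 16695344)) (l 16694664)))), by decide +kernel⟩

def k23_pm_012 : ∃ t, chk3 f_pm_012 t 335 54 1 = true :=
  ⟨(c (a (c (a (b (a (l 16703504) (l 16703240)) (c (a (l 16702784) (b (l 16702936) (c (a (l 16702904) (a (a (l 16702872) (l 16702168)) (l 16701496))) (a (l 16701712) (a (a (l 16701696) (l 16701040)) (l 16700408)))))) (a (l 16700400) (b (l 16700720) (c (a (l 16700520) (a (a (l 16700520) (l 16699920)) (l 16699320))) (a (l 16699344) (a (a (l 16699352) (l 16698800)) (l 16698240)))))))) (l 16701472)) (a (b (a (l 16699016) (l 16698984)) (c (a (l 16698056) (a (l 16698176) (a (a (l 16698224) (l 16697816)) (l 16697424)))) (a (l 16695736) (a (l 16695880)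 (a (a (l 16695952) (l 16695632)) (l 16695296)))))) (l 16697264))) (l 16698688)) (a (c (a (a (l 16693496) (a (l 16693672) (a (a (l 16693768) (l 16714568)) (l 16693368)))) (l 16693112)) (a (a (l 16689128) (a (l 16689328) (b (l 16690720) (b (l 16688904) (l 16708360))))) (l 16689032))) (l 16690384))), by decide +kernel⟩

def k24_pm_012 : ∃ t, chk3 f_pm_012 t 335 55 1 = true :=
  ⟨(c (a (c (a (b (c (a (l 16700312) (b (c (a (l 16701528) (a (a (l 16701000) (l 16699720)) (l 16698864))) (a (l 16700312) (a (a (l 16699824) (l 16698608)) (l 16697792)))) (a (l 16698920) (b (l 16697552) (l 16706632))))) (a (l 16697848) (b (c (a (l 16699112) (a (a (l 16698648) (l 16697504)) (l 16696728))) (a (l 16697920) (a (a (l 16697488) (l 16696400)) (l 16695664)))) (a (l 16696520) (l 16694656))))) (c (a (l 16696360) (b (c (a (l 16696736) (a (a (l 16695392) (l 16694104)) (l 16693280))) (a (l 16695552) (a (a (l 16694256) (l 16693040)) (l 16692256)))) (c (a (l 16693768) (b (a (a (l 16693168) (l 16691896)) (l 16691088)) (a (a (l 16691664)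 (l 16690392)) (l 16689592)))) (a (l 16692608) (b (a (a (l 16692064) (l 16690848)) (l 16690080)) (a (a (l 16690568) (l 16689360)) (l 16688608))))))) (a (l 16693888) (b (a (l 16693792) (b (l 16713536) (a (a (l 16691856) (l 16690736)) (l 16690016)))) (c (a (l 16691464) (a (a (l 16690224) (l 16689080)) (l 16688352))) (a (l 16690320) (a (a (l 16689136) (l 16688048)) (l 16687360)))))))) (l 16692928)) (a (b (c (a (l 16695408) (a (l 16695064) (a (a (l 16694456) (l 16693440)) (l 16692768)))) (a (l 16693008) (a (l 16692720) (b (b (b (l 16714840) (l 16714240)) (l 16692288)) (l 16690320))))) (a (l 16690256) (a (l 16688912) (a (a (l 16687848) (l 16686912)) (l 16686304))))) (l 16688832))) (l 16690264)) (a (c (a (b (a (l 16689472) (a (l 16689264) (b (b (l 16706016) (l 16689040)) (l 16687120)))) (a (l 16685528) (a (l 16684432) (c (l 16694648) (l 16682112))))) (l 16684784)) (a (b (a (l 16684864) (a (l 16684760) (b (l 16706376) (l 16682920)))) (a (l 16680936) (a (l 16680056) (l 16679080)))) (l 16680800))) (l 16682144))), by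 decide +kernel⟩

def k25_pm_012 : ∃ t, chk3 f_pm_012 t 82 7 1 = true :=
  ⟨(b (b (b (b (a (a (l 16709408) (l 16686576)) (a (l 16706144) (c (l 16687416) (l 16680976)))) (a (a (l 16682824) (l 16681176)) (a (l 16680016) (l 16679264)))) (a (b (a (l 16677008) (l 16675552)) (a (l 16671040) (l 16669760))) (b (a (l 16674616) (l 16674088)) (a (l 16669032) (l 16668696))))) (a (b (c (l 16705056) (l 16680624)) (l 16691376)) (b (b (l 16684264) (l 16657456)) (l 16690808)))) (b (a (a (l 16663504) (l 16654856)) (b (l 16636952) (l 16626160))) (b (a (l 16646784) (l 16620200)) (a (l 16617824) (l 16612960))))), by decide +kernel⟩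

def k26_pm_012 : ∃ t, chk3 f_pm_012 t 166 14 1 = true :=
  ⟨(b (b (a (c (b (l 16687216) (l 16682592)) (l 16698592)) (b (c (l 16687800) (l 16679312)) (l 16679264))) (b (a (l 16673984) (c (l 16678800) (l 16670320))) (a (l 16668816) (c (l 16673080) (l 16665016))))) (b (a (b (l 16663224) (l 16657144)) (l 16680552)) (a (l 16647792) (l 16646584)))), by decide +kernel⟩

def k27_pm_012 : ∃ t, chk3 f_pm_012 t 334 14 1 = true :=
  ⟨(a (b (b (b (l 16684536) (l 16701112)) (b (l 16674584) (l 16668248))) (b (l 16679456) (l 16645104))) (a (b (b (b (l 16684816) (l 16679616)) (l 16691240)) (b (l 16657184) (l 16643688))) (b (b (b (l 16683928) (l 16678032)) (b (l 16671840) (l 16665448))) (b (l 16676544) (l 16642080))))), by decide +kernel⟩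

def k28_pm_012 : ∃ t, chk3 f_pm_012 t 1340 112 4 = true :=
  ⟨(c (a (l 16690408) (b (c (a (l 16690704) (b (a (a (l 16690128) (l 16688872)) (l 16688080)) (a (a (l 16688576) (l 16687320)) (l 16686544)))) (a (l 16689576) (b (a (a (l 16689056) (l 16687856)) (l 16687104)) (a (a (l 16687512) (l 16686320)) (l 16685584))))) (c (a (l 16687544) (b (a (a (l 16687000) (l 16685752)) (l 16684984)) (a (a (l 16685408) (l 16684160)) (l 16683408)))) (a (l 16686456) (b (a (a (l 16685952) (l 16684768)) (l 16684040)) (a (a (l 16684376) (l 16683192)) (l 16682472))))))) (a (l 16688064) (b (c (a (l 16688464) (b (a (a (l 16687976) (l 16686840)) (l 16686128)) (a (a (l 16686456) (l 16685328)) (l 16684624)))) (a (l 16687352) (b (a (a (l 16686912) (l 16685832)) (l 16685160)) (a (a (l 16685408) (l 16684336)) (l 16683672))))) (c (a (l 16685376) (b (a (a (l 16684912) (l 16683792)) (l 16683096)) (a (a (l 16683352) (l 16682232)) (l 16681544)))) (a (l 16684296) (b (a (a (l 16683880) (l 16682816)) (l 16682152)) (a (a (l 16682336) (l 16681272))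 (l 16680624)))))))), by decide +kernel⟩

def k29_pm_012 : ∃ t, chk3 f_pm_012 t 1340 113 4 = true :=
  ⟨(c (a (l 16683960) (b (c (a (l 16684304) (b (a (a (l 16683784) (l 16682552)) (l 16681808)) (a (a (l 16682152) (l 16680920)) (l 16680184)))) (a (l 16683248) (b (a (a (l 16682776) (l 16681600)) (l 16680888)) (a (a (l 16681152) (l 16679992)) (l 16679288))))) (c (a (l 16680984) (b (a (a (l 16680488) (l 16679272)) (l 16678544)) (a (a (l 16678816) (l 16677600)) (l 16676888)))) (a (l 16679968) (b (a (a (l 16679520) (l 16678360)) (l 16677664)) (a (a (l 16677856) (l 16676704)) (l 16676024))))))) (a (l 16681760) (b (c (a (l 16682208) (b (a (a (l 16681768) (l 16680656)) (l 16679976)) (a (a (l 16680168) (l 16679056)) (l 16678392)))) (a (l 16681160) (b (a (a (l 16680768) (l 16679712)) (l 16679072)) (a (a (l 16679184) (l 16678136)) (l 16677504))))) (c (a (l 16678960) (b (a (a (l 16678544) (l 16677448)) (l 16676784)) (a (a (l 16676904) (l 16675816)) (l 16675168)))) (a (l 16677952) (b (a (a (l 16677584) (l 16676536)) (l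 16675912)) (a (a (l 16675960) (l 16674920)) (l 16674304)))))))), by decide +kernel⟩

def k30_pm_012 : ∃ t, chk3 f_pm_012 t 1341 56 4 = true :=
  ⟨(l 16681008), by decide +kernel⟩

def k31_pm_012 : ∃ t, chk3 f_pm_012 t 670 56 5 = true :=
  ⟨(a (b (c (a (l 16685744) (b (c (a (l 16686248) (a (a (l 16685104) (l 16684088)) (l 16683456))) (a (l 16685152) (a (a (l 16684056) (l 16683104)) (l 16682504)))) (c (a (l 16683224) (b (a (a (l 16682848) (l 16681840)) (l 16681216)) (a (a (l 16681320) (l 16680312)) (l 16679704)))) (a (l 16682160) (a (a (l 16681072) (l 16680120)) (l 16679536)))))) (a (l 16683464) (a (l 16682056) (a (a (l 16681032) (l 16680160)) (l 16679624))))) (c (a (l 16679584) (b (c (a (l 16680128) (b (a (a (l 16679768) (l 16678768)) (l 16678168)) (a (a (l 16678208) (l 16677208)) (l 16676616)))) (a (l 16679096) (b (a (a (l 16678784) (l 16677832)) (l 16677264)) (a (a (l 16677232) (l 16676288)) (l 16675728))))) (c (a (l 16676960) (b (a (a (l 16676624) (l 16675632)) (l 16675040)) (a (a (l 16675024) (l 16674032))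 (l 16673456)))) (a (l 16675968) (b (a (a (l 16675664) (l 16674728)) (l 16674176)) (a (a (l 16674080) (l 16673152)) (l 16672600))))))) (a (l 16677448) (b (c (a (l 16678072) (b (a (a (l 16677792) (l 16676904)) (l 16676360)) (a (a (l 16676264) (l 16675376)) (l 16674840)))) (a (l 16677056) (a (a (l 16676056) (l 16675224)) (l 16674720)))) (c (a (l 16674976) (b (a (a (l 16674712) (l 16673832)) (l 16673304)) (a (a (l 16673152) (l 16672272)) (l 16671752)))) (a (l 16674000) (a (a (l 16673000) (l 16672168)) (l 16671680)))))))) (l 16677344)), by decide +kernel⟩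

def k32_pm_012 : ∃ t, chk3 f_pm_012 t 671 56 2 = true :=
  ⟨(l 16678576), by decide +kernel⟩

def k33_pm_012 : ∃ t, chk3 f_pm_012 t 335 56 3 = true :=
  ⟨(a (c (a (b (a (l 16680096) (a (l 16678880) (a (a (l 16677992) (l 16677280)) (l 16676832)))) (a (l 16674296) (a (l 16673064) (c (b (b (l 16685376) (l 16683888)) (a (a (l 16671600) (l 16670848)) (l 16670400))) (b (l 16672304) (l 16679856)))))) (l 16673736)) (a (b (a (l 16675728) (a (l 16674736) (c (l 16674688) (l 16672784)))) (a (l 16670192) (a (l 16669184) (b (l 16669576) (l 16666736))))) (l 16670168))) (l 16671312)), by decide +kernel⟩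

def k34_pm_012 : ∃ t, chk3 f_pm_012 t 1340 57 4 = true :=
  ⟨(b (c (a (l 16677192) (b (c (a (l 16677592) (b (a (a (l 16677120) (l 16675920)) (l 16675208)) (a (a (l 16675408) (l 16674208)) (l 16673512)))) (a (l 16676616) (b (a (a (l 16676184) (l 16675040)) (l 16674368)) (a (a (l 16674488) (l 16673352)) (l 16672688))))) (c (a (l 16674120) (b (a (a (l 16673680) (l 16672488)) (l 16671808)) (a (a (l 16671928) (l 16670752)) (l 16670080)))) (a (l 16673192) (b (a (a (l 16672784) (l 16671648)) (l 16671000)) (a (a (l 16671056) (l 16669936)) (l 16669296))))))) (a (l 16675160) (b (c (a (l 16675640) (b (a (a (l 16675256) (l 16674160)) (l 16673528)) (a (a (l 16673576) (l 16672496)) (l 16671872)))) (a (l 16674680) (b (a (a (l 16674328) (l 16673288)) (l 16672688)) (a (a (l 16672672) (l 16671648)) (l 16671048))))) (c (a (l 16672264) (b (a (a (l 16671888) (l 16670816)) (l 16670200)) (a (a (l 16670192) (l 16669120)) (l 16668512)))) (a (l 16671336) (b (a (a (l 16671008) (l 16669984)) (l 16669392)) (a (a (l 16669320) (l 16668304))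 (l 16667728)))))))) (c (a (l 16670192) (b (c (a (l 16670600) (b (a (a (l 16670168) (l 16669000)) (l 16668336)) (a (a (l 16668416) (l 16667248)) (l 16666600)))) (a (l 16669712) (b (a (a (l 16669320) (l 16668208)) (l 16667568)) (a (a (l 16667584) (l 16666472)) (l 16665848))))) (c (a (l 16667056) (a (a (l 16665760) (l 16664616)) (l 16663976))) (a (l 16666208) (a (a (l 16664960) (l 16663864)) (l 16663256)))))) (a (l 16668328) (b (c (a (l 16668824) (b (a (a (l 16668472) (l 16667408)) (l 16666808)) (a (a (l 16666752) (l 16665696)) (l 16665104)))) (a (l 16667944) (b (a (a (l 16667624) (l 16666616)) (l 16666048)) (a (a (l 16665928) (l 16664928)) (l 16664368))))) (a (l 16664944) (a (a (l 16663760) (l 16662744)) (l 16662184))))))), by decide +kernel⟩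

def k35_pm_012 : ∃ t, chk3 f_pm_012 t 1341 57 4 = true :=
  ⟨(b (l 16671224) (l 16664408)), by decide +kernel⟩

def k36_pm_012 : ∃ t, chk3 f_pm_012 t 670 57 5 = true :=
  ⟨(a (b (c (a (l 16673152) (b (c (a (l 16673720) (b (a (a (l 16673400) (l 16672424)) (l 16671848)) (a (a (l 16671768) (l 16670792)) (l 16670232)))) (a (l 16672768) (b (a (a (l 16672488) (l 16671560)) (l 16671016)) (a (a (l 16670872) (l 16669952)) (l 16669416))))) (c (a (l 16670424) (b (a (a (l 16670120) (l 16669152)) (l 16668600)) (a (a (l 16668464) (l 16667496)) (l 16666952)))) (a (l 16669512) (b (a (a (l 16669248) (l 16668328)) (l 16667800)) (a (a (l 16667600) (l 16666688)) (l 16666176))))))) (a (l 16671168) (b (c (a (l 16671816) (b (a (a (l 16671576) (l 16670696)) (l 16670184)) (a (a (l 16669976) (l 16669104)) (l 16668600)))) (a (l 16670880) (a (a (l 16669880) (l 16669056)) (l 16668576)))) (c (a (l 16668600) (b (a (a (l 16668368) (l 16667504)) (l 16667008)) (a (a (l 16666752) (l 16665888)) (l 16665400)))) (a (l 16667704) (a (a (l 16666704)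 (l 16665888)) (l 16665424))))))) (c (a (l 16666496) (b (c (a (l 16667072) (b (a (a (l 16666784) (l 16665824)) (l 16665288)) (a (a (l 16665112) (l 16664160)) (l 16663624)))) (a (l 16666200) (a (a (l 16665120) (l 16664216)) (l 16663712)))) (a (l 16663280) (a (a (l 16662184) (l 16661264)) (l 16660760))))) (a (l 16664680) (b (c (a (l 16665336) (a (a (l 16664304) (l 16663440)) (l 16662968))) (a (l 16664480) (a (a (l 16663480) (l 16662672)) (l 16662224)))) (a (l 16661632) (l 16681064)))))) (l 16664752)), by decide +kernel⟩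

def k37_pm_012 : ∃ t, chk3 f_pm_012 t 671 57 2 = true :=
  ⟨(b (l 16669008) (l 16662352)), by decide +kernel⟩

def k38_pm_012 : ∃ t, chk3 f_pm_012 t 335 57 3 = true :=
  ⟨(a (c (a (b (a (l 16668256) (a (l 16667016) (a (a (l 16666120) (l 16665416)) (l 16665016)))) (a (l 16662016) (a (l 16660776) (b (b (a (a (l 16662240) (l 16661536)) (l 16661152)) (l 16673344)) (l 16657872))))) (l 16661704)) (a (b (a (l 16664456) (a (l 16663432) (b (l 16663848) (l 16660920)))) (a (l 16658544) (a (l 16657512) (b (l 16668440) (l 16654952))))) (l 16658680))) (l 16659552)), by decide +kernel⟩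

def k39_pm_012 : ∃ t, chk3 f_pm_012 t 335 29 1 = true :=
  ⟨(c (b (b (a (c (a (a (l 16662184) (a (l 16660480) (c (b (l 16671544) (l 16657472)) (l 16678848)))) (l 16657448)) (a (a (l 16658864) (a (l 16657400) (l 16676776))) (l 16654832))) (l 16655544)) (a (a (a (l 16653472) (a (l 16651912) (l 16650200))) (l 16649200)) (l 16648600))) (a (a (a (l 16642744) (a (l 16641232) (l 16660552))) (l 16638656)) (l 16638040))) (b (b (a (c (a (a (l 16655632) (a (l 16654392) (l 16653080))) (l 16652240)) (a (a (l 16652496) (a (l 16651456) (l 16650392))) (l 16649672))) (l 16650312)) (a (a (a (l 16647752) (a (l 16646616) (l 16645432))) (l 16644680)) (l 16644032))) (a (a (a (l 16638216) (a (l 16637096) (l 16635936))) (l 16635224)) (l 16634560)))), by decide +kernel⟩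

def k40_pm_012 : ∃ t, chk3 f_pm_012 t 83 15 1 = true :=
  ⟨(a (b (b (c (l 16636192) (l 16632616)) (l 16642640)) (b (l 16615088) (c (l 16631280) (l 16627992)))) (a (b (b (c (l 16674016) (l 16670456)) (l 16658984)) (a (b (l 16612408) (l 16606480)) (b (l 16611920) (l 16606152)))) (b (a (a (a (b (l 16626968) (l 16616240)) (b (c (l 16646912) (l 16644760)) (c (l 16617888) (l 16615784)))) (l 16649952)) (l 16659304)) (c (b (a (a (a (l 16613520) (c (l 16657240) (l 16655408))) (l 16614304)) (l 16613280)) (a (a (a (l 16608520) (a (l 16608952) (l 16609512))) (l 16609320)) (l 16608400))) (b (a (a (a (l 16610408) (c (l 16653600) (l 16651816))) (l 16610512)) (l 16609528)) (a (a (a (l 16604040) (a (l 16604200) (l 16604464))) (l 16604192)) (l 16603296))))))), by decide +kernel⟩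

def k41_pm_012 : ∃ t, chk3 f_pm_012 t 21 6 1 = true :=
  ⟨(b (b (a (b (a (l 16703088) (l 16699976)) (a (b (l 16701768) (l 16701104)) (l 16696904))) (b (l 16696216) (l 16701912))) (a (b (a (b (l 16700552) (l 16700088)) (l 16694648)) (a (b (l 16699520) (l 16698832)) (b (l 16693288) (l 16692312)))) (b (a (l 16689560) (l 16685064)) (a (l 16686792) (l 16681144))))) (b (a (b (a (b (l 16697856) (l 16696640)) (l 16690560)) (b (l 16691688) (l 16689944))) (b (a (l 16683936) (l 16677712)) (a (l 16680552) (l 16673920)))) (b (a (b (l 16688040) (l 16706576)) (b (l 16673904) (l 16671424))) (a (b (a (l 16685000) (l 16678200)) (a (l 16679744) (l 16673096))) (b (a (l 16671424) (l 16664608)) (a (l 16666376) (l 16659664))))))), by decide +kernel⟩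

def k42_pm_012 : ∃ t, chk3 f_pm_012 t 21 7 1 = true :=
  ⟨(b (b (a (b (b (a (l 16684640) (l 16667616)) (a (c (l 16671896) (l 16664672)) (c (l 16665608) (l 16658024)))) (a (b (c (l 16665480) (l 16658800)) (c (b (l 16660504) (l 16657144)) (l 16652736))) (b (c (c (l 16661024) (l 16657496)) (l 16652184)) (b (a (l 16652592) (l 16649416)) (l 16658272))))) (b (b (a (l 16661064) (l 16654416)) (a (c (l 16659304) (l 16651416)) (c (l 16652952) (l 16644808)))) (b (a (c (b (l 16654648) (l 16651448)) (l 16645640)) (b (l 16644512) (a (l 16643072) (l 16639904)))) (a (a (b (l 16656744) (l 16643056)) (b (l 16653592) (l 16639920))) (c (b (l 16642032) (l 16638752)) (b (l 16634680) (l 16631640))))))) (b (b (a (a (l 16649264) (l 16663840)) (a (c (l 16639736) (l 16633384)) (c (l 16633688) (l 16626968)))) (a (a (l 16642616) (l 16636184)) (a (l 16629880) (l 16623688)))) (a (a (l 16653488) (l 16646928)) (a (l 16640544) (l 16634304))))) (a (b (b (l 16657536) (l 16623864)) (b (a (l 16584272) (l 16594064)) (b (l 16596512) (l 16593952))))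 (b (b (l 16644312) (l 16609384)) (b (l 16597584) (b (l 16574968) (l 16573528)))))), by decide +kernel⟩

def k43_pm_012 : ∃ t, chk3 f_pm_012 t 11 6 1 = true :=
  ⟨(b (b (a (a (b (l 16693280) (l 16686104)) (l 16687864)) (a (l 16688648) (l 16691144))) (a (b (a (l 16679664) (l 16674536)) (a (l 16673808) (l 16666456))) (b (l 16671832) (a (l 16661624) (l 16659696))))) (b (a (b (a (l 16668992) (l 16659000)) (a (l 16674720) (l 16652624))) (b (a (l 16651896) (l 16647400)) (a (l 16642816) (l 16635984)))) (a (b (a (l 16659192) (l 16646376)) (a (b (l 16654504) (l 16649704)) (b (l 16641536) (l 16637032)))) (b (a (l 16634920) (l 16625288)) (a (b (l 16629168) (l 16624752)) (b (l 16618064) (l 16613376))))))), by decide +kernel⟩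

def k44_pm_012 : ∃ t, chk3 f_pm_012 t 11 14 1 = true :=
  ⟨(b (a (b (b (a (a (l 16647784) (l 16641176)) (c (l 16636032) (l 16627032))) (a (a (c (l 16646472) (l 16638136)) (c (l 16639976) (l 16631488))) (c (a (l 16633496) (l 16627200)) (a (l 16624888) (l 16618472))))) (a (b (b (a (l 16638096) (c (l 16635656) (l 16627424))) (a (c (l 16639024) (l 16631168)) (c (l 16632704) (l 16624656)))) (b (a (c (l 16635872) (l 16633488)) (c (l 16629640) (c (l 16623792) (l 16619760)))) (a (c (l 16632648) (l 16625240)) (l 16622728)))) (b (a (c (b (l 16629216) (l 16626256)) (b (l 16620848) (l 16618072))) (c (l 16621328) (b (l 16614336) (l 16611552)))) (c (a (b (l 16623280) (l 16620248)) (b (l 16616904) (l 16613880))) (a (b (c (l 16617328) (l 16613184)) (l 16612416)) (b (a (l 16610384) (l 16607136)) (l 16605920))))))) (b (a (a (b (l 16622384) (l 16616712)) (b (l 16616440) (l 16610688))) (b (l 16607792) (a (l 16604832) (l 16599088)))) (a (b (b (a (l 16612400) (l 16606312)) (c (l 16610528) (a (l 16605200) (l 16599016)))) (c (a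 (l 16609056) (l 16602904)) (a (b (c (l 16604480) (l 16600192)) (l 16599488)) (b (l 16596136) (l 16593224))))) (b (c (l 16600232) (a (l 16594440) (l 16588608))) (c (l 16593960) (a (c (l 16590768) (l 16586376)) (l 16582688))))))) (a (b (a (b (a (c (l 16627664) (l 16620608)) (c (l 16621616) (l 16614288))) (a (l 16617560) (l 16611472))) (b (a (c (l 16615504) (l 16607960)) (c (l 16609248) (l 16601552))) (a (l 16605392) (l 16599272)))) (a (b (l 16628656) (l 16600664)) (b (l 16595688) (l 16588784)))) (b (a (b (c (a (l 16602968) (l 16596704)) (a (l 16595168) (l 16588824))) (a (l 16593040) (l 16586800))) (a (b (l 16586768) (l 16580584)) (b (l 16580824) (l 16574560)))) (a (b (l 16583512) (l 16576968)) (b (l 16571336) (l 16564880)))))), by decide +kernel⟩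

def k45_pm_012 : ∃ t, chk3 f_pm_012 t 11 15 1 = true :=
  ⟨(c (b (a (b (a (l 16592040) (l 16580496)) (b (l 16616616) (l 16608912))) (b (a (l 16569192) (l 16557544)) (a (l 16553840) (l 16542856)))) (a (b (l 16618408) (l 16586568)) (b (a (l 16538088) (l 16527168)) (l 16579680)))) (b (a (b (a (l 16587656) (l 16575360)) (a (l 16573992) (l 16561416))) (b (a (l 16563480) (l 16551512)) (a (l 16549496) (l 16538008)))) (a (b (l 16627376) (l 16582688)) (b (a (l 16535344) (l 16523792)) (l 16578344))))), by decide +kernel⟩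

def k46_pm_012 : ∃ t, chk3 f_pm_012 t 3 2 1 = true :=
  ⟨(a (b (l 2) (a (b (l 2) (b (l 2) (a (l 16721792) (l 2)))) (l 2))) (l 2)), by decide +kernel⟩

def k47_pm_012 : ∃ t, chk3 f_pm_012 t 3 6 1 = true :=
  ⟨(a (a (b (b (a (l 16718152) (l 16713264)) (a (b (l 16677144) (l 16662008)) (l 16680792))) (a (b (b (l 16646192) (l 16630872)) (b (a (l 16618728) (l 16615048)) (a (l 16606392) (l 16600216)))) (b (b (l 16654808) (l 16635616)) (b (l 16615816) (a (l 16597136) (l 16597472)))))) (b (a (b (l 2) (l 16701648)) (l 2)) (b (a (l 16660280) (l 16686232)) (a (b (l 16627824) (l 16604296)) (b (l 16649520) (l 16622984)))))) (a (b (l 2) (b (l 2) (a (l 16666248) (l 2)))) (l 2))), by decide +kernel⟩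

def k48_pm_012 : ∃ t, chk3 f_pm_012 t 6 7 1 = true :=
  ⟨(a (b (b (a (b (a (b (l 16597464) (c (l 16595624) (l 16586248))) (b (l 16589416) (l 16582000))) (a (b (c (l 16589064) (a (l 16582896) (l 16577472))) (c (l 16582488) (a (l 16576944) (l 16571320)))) (a (b (l 16577088) (l 16570480)) (b (l 16572696) (l 16565528))))) (b (a (b (l 16584512) (l 16575856)) (l 16577744)) (a (b (l 16567376) (l 16559272)) (b (l 16563088) (l 16553464))))) (a (b (a (c (l 16572816) (b (l 16567992) (l 16561784))) (c (l 16561728) (a (l 16556424) (l 16551056)))) (a (b (l 16559352) (l 16552832)) (c (l 16548024) (l 16540872)))) (b (a (c (l 16551944) (l 16564568)) (l 16539992)) (a (b (l 16537056) (l 16529912)) (l 16523696))))) (b (a (a (b (l 16564008) (l 16529184)) (b (l 16531136) (l 16517616))) (b (a (l 16519456) (l 16508352)) (a (l 16505304) (l 16493696)))) (a (b (a (l 16514832) (l 16503440)) (c (l 16558128) (l 16555728))) (b (a (l 16491344) (l 16479080)) (a (l 16476944) (l 16464888)))))) (b (b (a (b (a (l 16578696) (l 16582816)) (a (c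 (l 16562224) (l 16550320)) (l 16558184))) (b (l 16595592) (a (l 16563120) (l 16571816)))) (a (b (a (l 16535424) (l 16533968)) (a (l 16515920) (l 16511648))) (b (a (l 16536256) (l 16541928)) (b (l 16517968) (l 16504936))))) (b (a (b (a (l 16498712) (l 16491112)) (a (l 16482672) (l 16473136))) (b (b (l 16492320) (l 16480288)) (b (l 16469016) (l 16457832)))) (a (b (a (l 16467528) (l 16456552)) (l 16446752)) (b (b (l 16447680) (l 16438544)) (a (l 16430152) (l 16420664))))))), by decide +kernel⟩

def k49_pm_012 : ∃ t, chk3 f_pm_012 t 7 7 1 = true :=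
  ⟨(b (a (b (a (b (l 16621624) (a (l 16583576) (l 16598296))) (a (l 16631224) (l 2))) (b (a (c (l 16568712) (l 16548224)) (l 16590128)) (a (c (l 16535304) (l 16518992)) (l 16559072)))) (b (l 2) (a (a (l 16582992) (l 2)) (l 2)))) (a (b (b (a (c (l 16502168) (l 16490072)) (l 16528000)) (a (b (l 16474568) (l 16460904)) (l 16476016))) (a (b (b (l 16447768) (l 16435368)) (c (l 16419512) (l 16416552))) (b (l 16466616) (l 16438784)))) (b (a (a (l 16542880) (l 16566448)) (c (l 16626544) (l 16586216))) (a (b (l 16508224) (l 16477912)) (a (l 16532208) (l 16562288)))))), by decide +kernel⟩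

theorem s50_pm_012 : ∃ t, chk3 f_pm_012 t 3 7 1 = true := ex3_a k48_pm_012 k49_pm_012

theorem s51_pm_012 : ∃ t, chk3 f_pm_012 t 3 3 1 = true := ex3_b k47_pm_012 s50_pm_012

theorem s52_pm_012 : ∃ t, chk3 f_pm_012 t 3 1 1 = true := ex3_b k46_pm_012 s51_pm_012

theorem s53_pm_012 : ∃ t, chk3 f_pm_012 t 11 7 1 = true := ex3_b k44_pm_012 k45_pm_012

theorem s54_pm_012 : ∃ t, chk3 f_pm_012 t 11 3 1 = true := ex3_b k43_pm_012 s53_pm_012

theorem s55_pm_012 : ∃ t, chk3 f_pm_012 t 21 3 1 = true := ex3_b k41_pm_012 k42_pm_012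

theorem s56_pm_012 : ∃ t, chk3 f_pm_012 t 670 57 4 = true := ex3_a k34_pm_012 k35_pm_012

theorem s57_pm_012 : ∃ t, chk3 f_pm_012 t 670 57 2 = true := ex3_c s56_pm_012 k36_pm_012

theorem s58_pm_012 : ∃ t, chk3 f_pm_012 t 335 57 2 = true := ex3_a s57_pm_012 k37_pm_012

theorem s59_pm_012 : ∃ t, chk3 f_pm_012 t 335 57 1 = true := ex3_c s58_pm_012 k38_pm_012

theorem s60_pm_012 : ∃ t, chk3 f_pm_012 t 1340 56 4 = true := ex3_b k28_pm_012 k29_pm_012

theorem s61_pm_012 : ∃ t, chk3 f_pm_012 t 670 56 4 = true := ex3_a s60_pm_012 k30_pm_012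

theorem s62_pm_012 : ∃ t, chk3 f_pm_012 t 670 56 2 = true := ex3_c s61_pm_012 k31_pm_012

theorem s63_pm_012 : ∃ t, chk3 f_pm_012 t 335 56 2 = true := ex3_a s62_pm_012 k32_pm_012

theorem s64_pm_012 : ∃ t, chk3 f_pm_012 t 335 56 1 = true := ex3_c s63_pm_012 k33_pm_012

theorem s65_pm_012 : ∃ t, chk3 f_pm_012 t 335 28 1 = true := ex3_b s64_pm_012 s59_pm_012

theorem s66_pm_012 : ∃ t, chk3 f_pm_012 t 335 14 1 = true := ex3_b s65_pm_012 k39_pm_012

theorem s67_pm_012 : ∃ t, chk3 f_pm_012 t 167 14 1 = true := ex3_a k27_pm_012 s66_pm_012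

theorem s68_pm_012 : ∃ t, chk3 f_pm_012 t 83 14 1 = true := ex3_a k26_pm_012 s67_pm_012

theorem s69_pm_012 : ∃ t, chk3 f_pm_012 t 83 7 1 = true := ex3_b s68_pm_012 k40_pm_012

theorem s70_pm_012 : ∃ t, chk3 f_pm_012 t 41 7 1 = true := ex3_a k25_pm_012 s69_pm_012

theorem s71_pm_012 : ∃ t, chk3 f_pm_012 t 335 27 1 = true := ex3_b k23_pm_012 k24_pm_012

theorem s72_pm_012 : ∃ t, chk3 f_pm_012 t 335 13 1 = true := ex3_b k22_pm_012 s71_pm_012

theorem s73_pm_012 : ∃ t, chk3 f_pm_012 t 167 13 1 = true := ex3_a k21_pm_012 s72_pm_012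

theorem s74_pm_012 : ∃ t, chk3 f_pm_012 t 167 6 1 = true := ex3_b k20_pm_012 s73_pm_012

theorem s75_pm_012 : ∃ t, chk3 f_pm_012 t 166 6 1 = true := ex3_b k18_pm_012 k19_pm_012

theorem s76_pm_012 : ∃ t, chk3 f_pm_012 t 83 6 1 = true := ex3_a s75_pm_012 s74_pm_012

theorem s77_pm_012 : ∃ t, chk3 f_pm_012 t 82 6 1 = true := ex3_b k16_pm_012 k17_pm_012

theorem s78_pm_012 : ∃ t, chk3 f_pm_012 t 41 6 1 = true := ex3_a s77_pm_012 s76_pm_012

theorem s79_pm_012 : ∃ t, chk3 f_pm_012 t 41 3 1 = true := ex3_b s78_pm_012 s70_pm_012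

theorem s80_pm_012 : ∃ t, chk3 f_pm_012 t 40 3 1 = true := ex3_b k14_pm_012 k15_pm_012

theorem s81_pm_012 : ∃ t, chk3 f_pm_012 t 20 3 1 = true := ex3_a s80_pm_012 s79_pm_012

theorem s82_pm_012 : ∃ t, chk3 f_pm_012 t 10 3 1 = true := ex3_a s81_pm_012 s55_pm_012

theorem s83_pm_012 : ∃ t, chk3 f_pm_012 t 5 3 1 = true := ex3_a s82_pm_012 s54_pm_012

theorem s84_pm_012 : ∃ t, chk3 f_pm_012 t 167 11 1 = true := ex3_a k10_pm_012 k11_pm_012

theorem s85_pm_012 : ∃ t, chk3 f_pm_012 t 167 5 1 = true := ex3_b k9_pm_012 s84_pm_012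

theorem s86_pm_012 : ∃ t, chk3 f_pm_012 t 83 5 1 = true := ex3_a k8_pm_012 s85_pm_012

theorem s87_pm_012 : ∃ t, chk3 f_pm_012 t 83 2 1 = true := ex3_b k7_pm_012 s86_pm_012

theorem s88_pm_012 : ∃ t, chk3 f_pm_012 t 41 2 1 = true := ex3_a k6_pm_012 s87_pm_012

theorem s89_pm_012 : ∃ t, chk3 f_pm_012 t 20 2 1 = true := ex3_a k5_pm_012 s88_pm_012

theorem s90_pm_012 : ∃ t, chk3 f_pm_012 t 10 2 1 = true := ex3_a s89_pm_012 k12_pm_012

theorem s91_pm_012 : ∃ t, chk3 f_pm_012 t 5 2 1 = true := ex3_a s90_pm_012 k13_pm_012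

theorem s92_pm_012 : ∃ t, chk3 f_pm_012 t 5 1 1 = true := ex3_b s91_pm_012 s83_pm_012

theorem s93_pm_012 : ∃ t, chk3 f_pm_012 t 9 7 1 = true := ex3_a k3_pm_012 k4_pm_012

theorem s94_pm_012 : ∃ t, chk3 f_pm_012 t 9 3 1 = true := ex3_b k2_pm_012 s93_pm_012

theorem s95_pm_012 : ∃ t, chk3 f_pm_012 t 4 3 1 = true := ex3_a k1_pm_012 s94_pm_012

theorem s96_pm_012 : ∃ t, chk3 f_pm_012 t 4 1 1 = true := ex3_b k0_pm_012 s95_pm_012

theorem s97_pm_012 : ∃ t, chk3 f_pm_012 t 2 1 1 = true := ex3_a s96_pm_012 s92_pm_012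

theorem s98_pm_012 : ∃ t, chk3 f_pm_012 t 1 1 1 = true := ex3_a s97_pm_012 s52_pm_012

theorem c_pm_012 : CertB 0 536870912 536870912 536870912 536870912 50465866 3 eng mog cd0q0 cd1q1 pd2 true true false .pnp 0 1 2
    ndB0q0 ndB1q1 pcB2 Cut.none Ext.none :=
  certB2 (fam := true) (s1 := true) (s2 := false) (a := 0) (b := 1) (c := 2) (cn := .pnp) (n1 := ndB0q0) (n2 := ndB1q1) (pc := pcB2) (cut := Cut.none) (xt := Ext.none) (P1 := 0) (W1 := 536870912) (P2 := 536870912) (W2 := 536870912) (P3 := 536870912) (W3 := 50465866) (N0 := 3) (En := eng) (mo := mog) (C1 := cd0q0) (C2 := cd1q1) (C3 := pd2)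
    rfl (fun _ => rfl) s98_pm_012

noncomputable def cut_pm_022_a : Cut := Cut.of [[⟨0, 0, 0, 67108864⟩, ⟨1, 1, 0, 67108864⟩, ⟨2, 1, 0, 67108864⟩], [⟨0, 0, 1, 20971520⟩, ⟨1, 1, 0, 33554432⟩, ⟨2, 1, 1, 20971520⟩]]

noncomputable def xt_pm_022_a : Ext := extD2 3 ⟨7, 3, 3, 10, 1741, 1000, 23, 25, 19, 50, 3, 16⟩ eng cd0q0 cd1q2a pd2 true true false .pp 0 2 2 rfl ndB0q0 ndB1q2a pcB2

noncomputable def f_pm_022_a : ℕ → ℕ → ℕ → ℕ → Bool := onCell 1073741824 536870912 0 536870912 536870912 50465866
    (rowB 3 eng mog cd0q0 cd1q2a pd2 2 true true false .pp 0 2 2 (qsf 0 536870912 0 536870912 2) ndB0q0 ndB1q2a pcB2 cut_pm_022_a xt_pm_022_a)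

def k0_pm_022_a : ∃ t, chk3 f_pm_022_a t 4 2 1 = true :=
  ⟨(b (l 1) (a (l 1) (a (l 1) (b (l 1) (a (l 1) (b (l 1) (a (l 1) (l 16528248)))))))), by decide +kernel⟩

def k1_pm_022_a : ∃ t, chk3 f_pm_022_a t 8 3 1 = true :=
  ⟨(b (l 1) (b (a (l 1) (b (a (l 1) (a (l 1) (b (l 1) (b (l 16651848) (l 16656888))))) (a (l 6) (a (l 6) (a (l 6) (a (l 6) (b (l 16662120) (l 16671864)))))))) (a (l 6) (a (l 6) (a (l 6) (a (l 6) (b (b (l 16682240) (l 16691544)) (b (c (l 16722352) (l 16700640)) (b (l 16707688) (c (l 16713000) (l 16711344))))))))))), by decide +kernel⟩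

def k2_pm_022_a : ∃ t, chk3 f_pm_022_a t 9 6 1 = true :=
  ⟨(a (b (l 1) (a (b (l 1) (a (l 1) (b (l 16614504) (l 16624080)))) (b (a (l 16596120) (b (l 16587496) (l 16596368))) (b (a (l 16609872) (l 16605120)) (a (l 16619000) (l 16613800)))))) (b (a (b (b (l 1) (l 16556216)) (a (l 16570712) (l 16567096))) (b (a (l 16547488) (l 16544144)) (a (l 16563304) (l 16559344)))) (b (a (a (b (l 16583464) (l 16591912)) (b (l 16579280) (l 16587320))) (c (l 16639600) (l 16575768))) (a (c (a (l 16646984) (l 16599424)) (b (l 16596632) (l 16605016))) (c (l 16590800) (b (l 16587128) (l 16594648))))))), by decide +kernel⟩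

def k3_pm_022_a : ∃ t, chk3 f_pm_022_a t 9 7 1 = true :=
  ⟨(b (a (b (a (b (a (l 16638912) (l 16633480)) (a (b (l 16646152) (l 16650952)) (b (l 16640336) (l 16644896)))) (b (a (l 16627920) (l 16611776)) (a (c (l 16636904) (l 16635912)) (l 16630472)))) (a (b (a (a (l 16659784) (l 16656640)) (c (l 16652192) (l 16651248))) (a (c (l 16667992) (l 16667152)) (l 16660992))) (b (a (l 16645448) (l 16638944)) (l 16671728)))) (b (a (b (c (l 16613464) (l 16613184)) (l 16642072)) (l 16647064)) (a (c (l 16654376) (l 16633352)) (c (l 16642576) (l 16620024))))) (a (b (b (a (a (l 16687432) (l 16669824)) (c (l 16659712) (l 16659224))) (a (c (l 16693280) (l 16703328)) (c (l 16668872) (l 16667792)))) (b (b (a (c (l 16689856) (l 16688952)) (c (l 16696512) (l 16674056))) (a (c (a (l 16698160) (l 16690808)) (l 16695864)) (a (l 16682600) (l 16675232)))) (a (b (c (a (l 16702752) (l 16695272)) (a (l 16701304) (l 16693568))) (a (c (b (l 16706128) (l 16708352)) (b (l 16704400) (l 16706432))) (c (l 16705544) (l 16697584)))) (b (a (l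 16692032) (l 16679296)) (a (c (l 16702616) (l 16689800)) (c (l 16684648) (l 16682072))))))) (b (b (a (l 16666808) (l 16653696)) (a (c (l 16655264) (l 16653528)) (c (l 16662936) (l 16639552)))) (b (a (a (b (l 16663912) (l 16667952)) (b (l 16656824) (l 16660736))) (b (a (l 16649808) (l 16642888)) (a (l 16653592) (l 16646544)))) (a (b (a (l 16671896) (l 16664552)) (a (c (l 16677264) (l 16674416)) (c (l 16669936) (l 16666816)))) (b (c (l 16665880) (l 16673136)) (a (c (l 16662688) (l 16659280)) (c (l 16655536) (l 16651832))))))))), by decide +kernel⟩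

def k4_pm_022_a : ∃ t, chk3 f_pm_022_a t 40 1 1 = true :=
  ⟨(b (b (l 1) (c (b (l 16487232) (b (l 16506400) (l 16564512))) (b (l 16489136) (b (l 16591832) (l 16523024))))) (b (b (b (c (l 16538272) (l 16538248)) (b (l 16633344) (l 16640448))) (b (a (l 16577280) (l 16564488)) (l 16620784))) (b (b (l 16645368) (c (l 16610224) (l 16607680))) (b (b (l 16672416) (c (l 16650048) (l 16625920))) (a (b (l 16648344) (b (l 16643016) (c (l 16648488) (l 16644456)))) (b (c (l 16633112) (l 16629344)) (b (l 16636024) (c (l 16641552) (l 16637144))))))))), by decide +kernel⟩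

def k5_pm_022_a : ∃ t, chk3 f_pm_022_a t 41 1 1 = true :=
  ⟨(b (b (b (l 16457736) (l 16487080)) (b (l 16545544) (a (b (l 16502376) (l 16517840)) (a (b (l 16499432) (l 16514904)) (b (l 16581384) (l 16554960)))))) (a (b (b (b (l 16532888) (l 16546480)) (b (l 16559456) (l 16571576))) (b (b (l 16585288) (l 16642056)) (b (c (l 16658328) (l 16654592)) (a (b (l 16626024) (b (l 16630832) (l 16633920))) (b (l 16622640) (b (l 16627336) (l 16640832))))))) (a (b (b (b (l 16529816) (l 16543088)) (b (l 16555672) (l 16567320))) (b (b (l 16581448) (l 16595768)) (b (b (l 16606032) (l 16612704)) (b (c (l 16621608) (l 16617056)) (b (l 16623704) (a (l 16627616) (a (l 16626208) (l 16625232)))))))) (a (b (b (b (l 16528320) (l 16541472)) (b (l 16553904) (l 16565368))) (b (b (l 16579344) (l 16593368)) (b (c (l 16651152) (l 16646872)) (b (c (l 16618808) (l 16614136)) (a (b (l 16621328) (l 16624200)) (b (l 16620200) (c (l 16625864) (l 16620608)))))))) (b (b (b (l 16527408) (l 16540536)) (b (l 16552912) (l 16564304))) (b (b (l 16598624)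 (l 16654344)) (b (b (l 16653736) (c (l 16652104) (l 16647776))) (b (a (a (a (l 16614976) (a (l 16614640) (b (l 16612760) (l 16615768)))) (l 16614080)) (l 16613552)) (a (b (a (a (l 16619392) (a (l 16619040) (c (l 16621328) (l 16616464)))) (l 16618456)) (a (a (a (l 16622320) (l 16622112)) (a (a (l 16621936) (l 16632272)) (a (a (b (l 16620936) (l 16622312)) (b (l 16620792) (c (l 16635440) (l 16619776)))) (l 16631952)))) (b (l 16620560) (l 16621928)))) (b (l 16617904) (b (l 16620000) (l 16621360)))))))))))), by decide +kernel⟩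

def k6_pm_022_a : ∃ t, chk3 f_pm_022_a t 21 1 1 = true :=
  ⟨(a (b (b (b (l 16456456) (l 16525864)) (b (c (l 16504296) (l 16480696)) (b (l 16557424) (l 16509744)))) (b (b (b (l 16545200) (l 16557592)) (b (l 16569104) (l 16579528))) (a (b (b (l 16595744) (l 16651160)) (b (b (l 16618888) (l 16656624)) (b (c (l 16633936) (l 16618440)) (b (a (l 16616088) (l 16612904)) (a (c (c (l 16623392) (l 16620248)) (l 16616304)) (c (l 16618648) (l 16612976))))))) (b (b (l 16568752) (l 16582000)) (b (b (l 16591512) (l 16597696)) (b (l 16603616) (b (l 16607808) (c (l 16634512) (l 16607792))))))))) (b (b (b (l 16460656) (l 16465624)) (b (l 16500048) (b (l 16494800) (l 16509056)))) (b (b (b (l 16522344) (l 16533040)) (b (l 16542656) (l 16550968))) (b (b (l 16559472) (l 16593496)) (c (b (l 16629472) (b (l 16596608) (b (l 16600984) (a (l 16606984) (l 16600744))))) (b (l 16625008) (b (l 16591488) (b (l 16595384) (l 16597848))))))))), by decide +kernel⟩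

def k7_pm_022_a : ∃ t, chk3 f_pm_022_a t 11 1 1 = true :=
  ⟨(b (b (a (a (b (l 16467144) (l 16470216)) (b (l 16474464) (a (l 16474216) (l 16477120)))) (b (a (l 16482464) (l 16490960)) (b (l 16484680) (l 16484920)))) (b (a (a (l 16492384) (b (l 16481616) (l 16489216))) (a (l 16489864) (l 16494624))) (a (b (a (l 16496384) (l 16498800)) (a (l 16488472) (l 16510544))) (b (a (l 16501808) (l 16505144)) (a (l 16512168) (l 16514056)))))) (b (b (a (a (c (l 16587944) (l 16547600)) (b (l 16521024) (l 16527928))) (b (l 16521160) (l 16524864))) (a (b (a (l 16537816) (l 16533240)) (l 16561248)) (b (a (l 16528752) (l 16524144)) (l 16525720)))) (b (a (b (l 16585216) (c (l 16598608) (l 16574400))) (b (l 16564168) (c (l 16600008) (l 16555368)))) (b (a (b (l 16627200) (a (l 16576000) (l 16565328))) (b (l 16608256) (a (l 16555856) (l 16547512)))) (a (b (a (a (l 16584768) (l 16579144)) (l 16592224)) (b (a (l 16607072) (l 16575416)) (a (a (l 16612600) (l 16606944)) (a (l 16580592) (l 16596352))))) (a (b (l 16582696) (b (l 16586544)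 (a (l 16591344) (a (l 16566728) (l 16564352))))) (b (c (l 16555840) (l 16549840)) (c (b (l 16559768) (a (l 16564456) (l 16559904))) (b (l 16552976) (a (l 16557144) (l 16552552))))))))))), by decide +kernel⟩

def k8_pm_022_a : ∃ t, chk3 f_pm_022_a t 6 2 1 = true :=
  ⟨(a (b (a (b (a (l 16499744) (l 16508632)) (b (l 16499504) (l 16497640))) (b (a (l 16517432) (l 16525976)) (b (l 16514384) (l 16510344)))) (b (a (b (l 16520752) (l 16525280)) (b (l 16510536) (l 16513080))) (a (b (a (l 16508712) (l 16512280)) (l 16538328)) (b (l 16538184) (l 16542360))))) (b (a (b (a (l 16533952) (l 16540264)) (a (l 16521872) (l 16525768))) (b (l 16548272) (l 16530080))) (a (b (a (b (l 16517360) (l 16518248)) (l 16519104)) (a (b (l 16520624) (l 16523016)) (l 16562488))) (b (l 16519168) (l 16600336))))), by decide +kernel⟩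

def k9_pm_022_a : ∃ t, chk3 f_pm_022_a t 6 6 1 = true :=
  ⟨(a (b (a (b (l 16521720) (l 16520616)) (b (l 16521536) (l 16515104))) (a (b (a (l 16519232) (l 16513792)) (l 16509152)) (b (l 16484008) (l 16490208)))) (b (a (b (l 16580744) (l 16568856)) (b (l 16507392) (l 16490544))) (a (a (l 16527168) (l 16473664)) (l 16551408)))), by decide +kernel⟩

def k10_pm_022_a : ∃ t, chk3 f_pm_022_a t 12 7 1 = true :=
  ⟨(a (b (b (l 16528480) (c (l 16585520) (l 16562232))) (b (b (a (l 16534104) (l 16526984)) (a (l 16539672) (l 16532064))) (b (a (c (l 16547520) (l 16541520)) (c (l 16539184) (l 16533440))) (a (c (b (l 16551088) (b (l 16563192) (a (l 16555960) (l 16551504)))) (b (l 16544296) (a (l 16548088) (b (l 16543368) (l 16544072))))) (c (b (l 16542304) (a (a (l 16547728) (l 16550648)) (b (l 16541224) (c (l 16543544) (l 16540376))))) (b (l 16535768) (a (a (l 16540512) (l 16538272)) (a (l 16535896) (l 16533504))))))))) (b (b (l 16517472) (a (l 16511712) (l 16505160))) (a (c (b (l 16523576) (b (l 16530016) (b (l 16532504)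 (b (a (l 16536144) (l 16530904)) (a (c (l 16538232) (l 16535280)) (c (l 16532744) (l 16530032))))))) (b (l 16519920) (b (l 16524856) (b (l 16526592) (a (a (l 16531104) (l 16528672)) (a (l 16526224) (l 16523744))))))) (b (b (l 16511960) (l 16515600)) (b (c (l 16520280) (l 16515968)) (b (c (l 16522008) (l 16516992)) (b (a (l 16522904) (l 16517464)) (c (a (c (l 16527008) (l 16524584)) (c (l 16520976) (l 16518872))) (a (c (l 16521664) (l 16518240)) (c (l 16516224) (l 16513032))))))))))), by decide +kernel⟩

def k11_pm_022_a : ∃ t, chk3 f_pm_022_a t 13 7 1 = true :=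
  ⟨(b (b (a (l 16549872) (l 16541744)) (a (a (l 16498656) (l 16493120)) (a (l 16486864) (l 16480328)))) (b (a (a (b (l 16504160) (l 16506824)) (b (l 16496776) (l 16498312))) (b (a (l 16489120) (l 16481296)) (a (l 16489736) (l 16481640)))) (a (b (a (a (l 16510848) (l 16506024)) (b (l 16499016) (l 16499088))) (a (a (b (l 16511688) (c (b (l 16513808) (a (l 16515464) (c (l 16513200) (l 16511536)))) (a (l 16510664) (l 16507952)))) (b (l 16506440) (b (l 16506528) (c (a (l 16509656) (l 16507048)) (l 16504104))))) (b (c (l 16500480) (l 16497216)) (c (b (c (l 16501072) (l 16499944)) (c (l 141368847982444559) (a (l 16502432) (l 16497456)))) (a (l 16499320) (b (l 16494696) (l 16494480))))))) (c (b (a (l 16490744) (l 16481920)) (c (b (a (l 16491096) (l 141276832563167247)) (a (a (l 141267967775047695) (l 141200210360926223)) (a (l 141311467183849487) (l 141243503612002319)))) (a (b (l 16490448) (l 141271816058978319)) (a (l 141182480725213199) (l 141123175807926287))))) (b (a (l 16488632) (l 16480368)) (b (a (l 16488184)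 (b (l 16479688) (l 16479424))) (c (a (b (l 16488840) (a (l 16490928) (l 141262470202114063))) (l 141183099193131023)) (a (a (l 16488736) (b (l 16484480) (b (l 16484216) (l 16484016)))) (a (b (l 16480192) (a (l 16480856) (l 141204196070244367))) (l 141171210715561999)))))))))), by decide +kernel⟩

def k12_pm_022_a : ∃ t, chk3 f_pm_022_a t 7 2 1 = true :=
  ⟨(a (b (b (a (l 16556936) (l 16564256)) (a (l 16533488) (l 16535528))) (b (a (l 16517304) (l 16514000)) (a (l 16509056) (l 16501240)))) (a (b (b (l 16571464) (l 16537552)) (b (l 16511016) (l 16493184))) (b (b (l 16603992) (a (l 16540256) (l 16554648))) (a (b (l 16510080) (l 16489168)) (b (l 16529400) (l 16512976)))))), by decide +kernel⟩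

def k13_pm_022_a : ∃ t, chk3 f_pm_022_a t 7 6 1 = true :=
  ⟨(a (b (a (b (l 16495080) (l 16473016)) (l 16489352)) (a (b (l 16461480) (l 16467896)) (b (l 16460808) (l 16466088)))) (a (b (l 16475080) (b (l 16460720) (l 16469384))) (b (a (l 16531416) (b (l 16490776) (l 16452552))) (a (b (l 16462304) (l 16475456)) (b (l 16431112) (l 16453800)))))), by decide +kernel⟩

def k14_pm_022_a : ∃ t, chk3 f_pm_022_a t 7 14 1 = true :=
  ⟨(a (a (b (a (l 16472624) (l 16471616)) (b (l 16473880) (l 16537208))) (b (l 16492704) (a (l 16475232) (l 16478024)))) (a (b (l 16519840) (a (l 16484288) (l 16515664))) (a (b (a (l 16489000) (l 16492216)) (a (l 16505184) (l 16553104))) (b (l 16519448) (b (l 16496808) (l 16510664)))))), by decide +kernel⟩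

def k15_pm_022_a : ∃ t, chk3 f_pm_022_a t 7 30 1 = true :=
  ⟨(a (a (b (a (l 16475672) (l 16475624)) (a (a (l 16476144) (l 16475416)) (b (l 16476160) (l 16476456)))) (b (a (l 16477784) (l 16483240)) (a (c (l 16493272) (l 16476824)) (c (b (l 16490480) (l 16493240)) (l 16482832))))) (a (b (a (l 16492768) (l 16527360)) (c (a (a (l 16501616) (l 16530512)) (a (l 141539272320548879) (l 141606823586889743))) (a (b (l 16491456) (l 16494480)) (b (l 16505088) (l 141275801827246095))))) (a (b (a (l 16519472) (b (l 16524408) (l 16530176))) (a (c (l 141503675675312143) (l 141341497669550095)) (a (c (l 141567309929512975) (l 141388501806563343)) (b (l 16537248) (l 141611427822878735))))) (b (a (l 16526264) (l 16525056)) (a (b (l 16537144) (b (l 141574319303376911) (l 141611496548401167))) (b (l 16538160) (a (l 141399703120527375) (l 141574113155530767)))))))), by decide +kernel⟩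

def k16_pm_022_a : ∃ t, chk3 f_pm_022_a t 7 62 1 = true :=
  ⟨(a (c (a (a (a (l 16475928) (b (l 16475960) (l 16476024))) (b (l 16478592) (b (a (l 16477912) (l 16480712)) (a (l 16478208) (l 141375376292036623))))) (a (b (a (l 16483296) (l 16487648)) (c (l 141272984287150095) (l 141067719203389455))) (a (b (l 141232439804641295) (l 141447944089600015)) (b (l 141451861107458063) (l 141493642556653583))))) (a (a (a (l 16474712) (l 16473872)) (b (l 16474616) (a (l 16474296) (l 16475736)))) (a (b (l 16499336) (c (l 141108401125752847) (l 141125718424928271))) (b (c (l 141136095089377295) (l 141150938484883471)) (c (l 141157466851721231) (l 141164063909019663)))))) (a (c (a (c (b (l 141324592668016655) (l 141383622708690959)) (b (l 141186535225491471) (l 141230996735852559))) (c (b (l 141291676082208783) (l 141543326819041295)) (b (l 141311261114564623) (l 141366099268386831)))) (a (c (b (l 141208525443563535) (l 141240961044250639)) (b (l 141211136768458767) (l 141233882921680911))) (c (b (l 141314284752502799)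 (l 141355104131465231)) (b (l 141301228032376847) (l 141330433818181647))))) (c (a (b (a (l 141429939697221647) (l 141688668551004175)) (a (l 141503057235083279) (a (l 141580091790376975) (l 141601738433806351)))) (b (a (l 141510410236133391) (l 141511578474954767)) (a (c (l 141626065149280271) (l 141588200689762319)) (b (l 141598439910785039) (l 141656714038607887))))) (b (a (a (l 141401764665835535) (l 141458801850679311)) (a (l 141456602834829327) (l 141456259244933135))) (a (a (l 141443546118504463) (c (l 141531094766354447) (l 141480242325913615))) (a (c (l 141542639648620559) (l 141489519464841231)) (b (l 141514327215669263) (l 141554459398733839)))))))), by decide +kernel⟩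

def k17_pm_022_a : ∃ t, chk3 f_pm_022_a t 14 63 1 = true :=
  ⟨(a (c (c (b (a (a (l 141180075527585807) (l 141159528405696527)) (a (l 141181518644248591) (l 141173066156589071))) (a (a (l 141181312477855759) (l 141166056756707343)) (a (c (l 141155336526102543) (l 141192857359007759)) (l 141287552807911439)))) (a (b (a (l 141069574608797711) (l 141051089070047247)) (a (l 141066894548549647) (l 141052875776753679))) (b (a (l 141049714684870671) (l 141058510784151567)) (a (l 141057754864959503) (l 141072666998800399))))) (a (a (c (l 141113074035490831) (l 141133896033402895)) (b (l 141112111960571919) (a (l 141109225741680655) (l 141107713914241039)))) (b (a (l 141108813427785743) (l 141111493491228687)) (a (c (l 141097062400720911) (l 141113417629843471)) (c (l 141105927218872335) (l 141117678241415183)))))) (c (b (b (a (a (l 141405131835605007) (l 141435162258096143)) (c (l 141117334705111055) (l 141155542722805775))) (a (c (l 141224330903552015) (l 141094863401664527)) (c (l 141320881799151631) (l 141172516436983823))))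 (a (c (a (l 141229897178447887) (l 141047790579138575)) (a (l 141096581386272783) (l 141130391380803599))) (c (a (b (l 141134926890221583) (l 141157123285057551)) (b (l 141196911876882447) (l 141222269368385551))) (a (l 141173547226497039) (b (l 141216771792044047) (l 141235463493681167)))))) (a (b (c (l 141120976793141263) (l 141131353424347151)) (c (a (l 141122900937342991) (l 141149151787483151)) (a (l 141129360558424079) (l 141149632812236815)))) (b (c (a (l 141162414653292559) (l 141200760134516751)) (a (l 141163995188740111) (l 141195537439768591))) (c (a (l 141183992574394383) (b (l 141220688787718159) (l 141233882930593807))) (a (b (l 141174234394017807) (l 141181243782889487)) (b (l 141209006461272079) (l 141217871276490767)))))))), by decide +kernel⟩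

def k18_pm_022_a : ∃ t, chk3 f_pm_022_a t 30 63 2 = true :=
  ⟨(b (a (c (a (l 141225842789842959) (l 141302258870255631)) (a (l 141244603191902223) (l 141308855922360335))) (c (a (l 141388982874685455) (l 141486701998080015)) (a (l 141382179626057743) (l 141465261497925647)))) (a (c (a (a (l 141263501067911183) (l 141302602461478927)) (b (l 141349881476530191) (c (l 141383554031091727) (l 141379980608651279)))) (a (b (l 141276351596855311) (l 141297860797710351)) (b (l 141344933655379983) (a (l 141350637371719695) (l 141388845412122639))))) (c (a (b (l 141442103040376847) (a (a (l 141440934805897231) (l 141465605104959503)) (a (l 141491100037922831) (l 141517282165817359)))) (b (l 141545732040146959) (c (b (l 141585039593177103) (a (l 141577136849551375) (b (l 141631287812341775) (l 141642420369752079)))) (b (l 141566141724344335) (a (l 141558032822452239) (l 141613214577606671)))))) (a (b (l 141422930284642319) (c (l 141548480780484623) (l 141442309177475087))) (b (l 141510959960031247) (a (b (l 141510685080502287)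 (l 141525940807778319)) (c (l 141579335860158479) (l 141553703481868303)))))))), by decide +kernel⟩

def k19_pm_022_a : ∃ t, chk3 f_pm_022_a t 31 126 2 = true :=
  ⟨(a (c (a (l 141595965996384271) (a (l 141685988535615503) (l 141716637432332303))) (a (l 141558582574399503) (a (l 141635685849399311) (l 141661180784508943)))) (a (a (b (l 141676780121686031) (l 141816624267018255)) (b (l 141690524023128079) (l 141744262664716303))) (b (l 141715331763945487) (c (l 141805629184196623) (l 141741582599815183))))), by decide +kernel⟩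

def k20_pm_022_a : ∃ t, chk3 f_pm_022_a t 62 127 4 = true :=
  ⟨(a (a (b (l 141631287812243471) (b (l 141663860850769935) (a (c (l 141683789506330639) (l 141656576579420175)) (b (l 141695815415037967) (c (l 141721997545275407) (l 141691760960847887)))))) (b (l 141692242004754447) (b (l 141726601750118415) (a (c (c (l 141757181928865807) (l 141741376441696271)) (l 141762267151319055)) (b (l 141760136862711823) (c (c (l 141798070027993103) (l 141780683992563727)) (l 141799169520091151))))))) (b (a (b (l 141744125224632335) (l 141767764729462799)) (l 141882457544917007)) (a (b (a (l 141775461311332367) (c (l 141826382460534799) (l 141789754963247119))) (a (a (b (l 141784944600530959) (c (b (l 141812088803639311) (l 141818342277283855)) (l 141778141366763535))) (b (l 141801574718406671) (b (l 141810508252217359) (c (c (l 141845349040341007) (l 141826176298205199)) (l 141842256643555343))))) (a (b (l 141818479714205711) (c (c (l 141859986292965391) (l 141840607392284687)) (l 141856137981673487))) (b (l 141834491356512271)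 (a (c (c (l 141873524033421327) (l 141853801535275023)) (l 141823908550410255)) (b (l 141846792145551375) (c (c (l 141883076043096079) (l 141863147386454031)) (l 141832773365153807)))))))) (b (l 141920940459589647) (c (b (l 141869881900613647) (a (b (l 141874005069185039) (b (l 141907127857971215) (a (a (l 141900324628889615) (l 141903348286881807)) (c (l 141895514272301071) (l 141875310737686543))))) (b (l 141886168420646927) (c (c (l 14) (a (l 141894964516110351) (l 141901286710067215))) (a (l 141879777505394703) (l 141886099699335183)))))) (b (l 141830574343208975) (a (a (a (l 141877715903315983) (l 141880602122305551)) (c (l 141850159399796751) (l 141829818426261519))) (a (c (l 141856206715764751) (l 141835728303226895)) (c (l 141884794020102159) (l 141841775619178511)))))))))), by decide +kernel⟩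

def k21_pm_022_a : ∃ t, chk3 f_pm_022_a t 63 127 4 = true :=
  ⟨(a (b (a (l 141812157527474191) (l 141833941609201679)) (a (b (l 141898675356925967) (c (b (l 141939426019262479) (c (l 14) (a (b (l 141888711041204239) (b (l 141893933722484751) (a (l 141894208600014863) (l 141923208221327375)))) (a (b (l 141898331771109391) (a (l 141903898049609743) (l 14))) (l 14))))) (b (l 141854420009566223) (c (a (b (l 141868370067570703) (a (l 141871874761195535) (l 141878265674612751))) (b (l 141881151894405135) (a (l 141884725307523087) (l 141913862367789071)))) (a (a (l 141847891654623247) (l 141854145129037839)) (a (l 141860467322961935) (l 141889466944225295))))))) (b (l 141923276937756687) (c (l 14) (b (l 141879983663218703) (a (b (l 141883900673409039) (b (l 141934203331428367) (a (c (l 141899912316518415) (l 141878609270046735)) (c (l 141917985541079055) (l 141885412500373519))))) (b (l 141897507134111759) (c (l 14) (b (l 141892215731126287) (a (l 141892284450226191) (l 141899293839048719))))))))))) (c (l 14) (b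 (l 141941968630366223) (a (b (l 141884725311225871) (b (l 141907402743119887) (a (a (c (l 14) (c (l 14) (l 141895582986207247))) (l 14)) (l 14)))) (l 14))))), by decide +kernel⟩

def k22_pm_022_a : ∃ t, chk3 f_pm_022_a t 62 127 5 = true :=
  ⟨(b (a (a (l 141583940065345551) (l 141636029443604495)) (a (b (l 141681246872715279) (l 141699869855121423)) (b (l 141711414733078543) (l 141732442897448975)))) (a (a (b (l 141609366277455887) (c (l 141731893115600911) (l 141610809383125007))) (b (l 141662967484579855) (a (c (l 141684133091164175) (l 141649910776610831)) (c (l 141758143975735311) (l 141676642660728847))))) (a (b (a (l 141704748938297359) (c (l 141752234112745487) (l 141713819909046287))) (b (a (l 141718767714746383) (c (l 141767902156800015) (l 141727838685429775))) (a (a (a (l 141717324604833807) (l 141724471432429583)) (c (l 141800337745903631) (l 141715537895374863))) (c (a (l 141771200691961871) (a (l 141783364042489871) (l 141788999041138703))) (a (l 141730518745251855) (b (l 141742269778968591)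 (l 141747217582342159))))))) (b (l 141753814659219471) (c (b (l 141790442152067087) (a (a (l 141793190930628623) (l 141798894649098255)) (a (l 141804667087061007) (l 141855588221272079)))) (b (l 141749485327204367) (a (l 141799306948198415) (b (l 141762816909197327) (l 141768039590543375))))))))), by decide +kernel⟩

def k23_pm_022_a : ∃ t, chk3 f_pm_022_a t 63 127 5 = true :=
  ⟨(b (a (a (l 141740689239228431) (l 141761511247839247)) (a (l 141783982524252175) (l 141808171787960335))) (a (b (a (l 141775392582205455) (l 141798688492486671)) (a (b (c (l 141813600623411215) (l 141771887884042255)) (b (a (l 141885618626412559) (l 141852702000971791)) (c (a (c (l 141833185679704079) (l 141811951352823823)) (a (l 141831948727861263) (l 141883350898491407))) (a (l 141779790624866319) (c (l 141802811657797647) (l 141780958855561231)))))) (b (c (l 141838408362541071) (l 141796008428158991)) (c (a (a (a (l 141885068886310927) (l 141865758714380303)) (c (l 141858886772604943) (l 141837377567703055))) (a (c (l 141865621283454991)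 (l 141843974639550479)) (b (l 141858268296495119) (a (l 141863216099672079) (l 141866652074590223))))) (a (a (l 141798413609336847) (l 141804735803195407)) (a (l 141811195436040207) (l 141862735045656591))))))) (b (a (l 141823633670553615) (l 141850434274885647)) (a (b (c (l 141865071527936015) (l 141821846959538191)) (c (c (b (l 141931454549016591) (a (a (l 141882801157652495) (l 141889947985428495)) (b (l 141898950239846415) (a (l 141898950239469583) (l 141906303225724943))))) (b (l 141864521769861135) (a (a (l 141860810916265999) (l 141867820305055759)) (a (l 141874898413355023) (l 141882182680100879))))) (a (b (l 141824595738525711) (c (l 141842050491351055) (l 141819647933104143))) (b (l 141838270918623247) (a (l 141841225856401423) (l 141893315221929999)))))) (b (c (l 141893521400086543) (l 141849472197705743)) (c (c (l 14) (b (l 141938463935676431) (a (a (l 141889466946863119) (l 141896957372088335)) (a (l 141926987785699343) (l 14))))) (a (a (c (l 141863490974973967) (l 141840744819245071)) (c (l 141870706522243087)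 (l 141847960366465039))) (a (c (l 141900668216344591) (l 141855244633210895)) (b (l 141870706521489423) (a (l 141875723044192271) (l 141924582593282063))))))))))), by decide +kernel⟩

def k24_pm_022_a : ∃ t, chk3 f_pm_022_a t 30 63 3 = true :=
  ⟨(a (b (c (a (l 141247351955079183) (l 141301228042108943)) (a (l 141234570115743759) (l 141279718826901519))) (c (a (b (l 141270235546533903) (l 141285766152208399)) (b (l 141327616327778319) (a (l 141329884070166543) (l 141361907356270607)))) (a (b (l 141250238161125391) (l 141260889683247119)) (c (l 141403757494943759) (l 141294768394420239))))) (b (c (a (l 141363075590569999) (l 141433444356374543)) (a (l 141331876926636047) (l 141391388012412943))) (c (a (b (l 141393312167903247) (a (l 141396060946743311) (l 141432413561045007))) (b (l 141467804103376911) (b (l 141485327574401039) (a (l 141476806356189199) (l 141518175493619727))))) (a (b (l 141353454848622607) (a (l 141353179970306063) (l 141383760147136527))) (b (l 141416264470200335) (a (l 141416264469856271)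 (a (l 141442034281676815) (l 141459832631689231)))))))), by decide +kernel⟩

def k25_pm_022_a : ∃ t, chk3 f_pm_022_a t 31 126 3 = true :=
  ⟨(a (a (c (l 141512746656530447) (l 141458664401190927)) (a (c (l 141578442495918095) (l 141514464633585679)) (b (l 141553222437748751) (l 141760068069670927)))) (a (a (b (l 141559063598284815) (l 141591499198857231)) (l 141769757523427343)) (a (l 141786456362270735) (l 141804667029946383)))), by decide +kernel⟩

def k26_pm_022_a : ∃ t, chk3 f_pm_022_a t 62 127 3 = true :=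
  ⟨(a (b (c (l 141731686919176207) (l 141487114272751631)) (c (a (c (l 141571570545639439) (l 141538997499232271)) (b (l 141594522855522319) (c (l 141671900997582863) (l 141589437610049551)))) (a (b (l 141482716224634895) (l 141582290749210639)) (b (l 141521267862962191) (c (l 141550954687610895) (l 141511509692465167)))))) (a (b (c (b (l 141613283279421455) (l 141627508214726671)) (l 141545457126522895)) (c (b (a (l 141630050835529743) (l 141654446256816143)) (a (a (l 141638228455129103) (c (l 141716087633952783) (l 141630188271845391))) (a (b (l 141659875096576015) (l 141668121435635727)) (c (l 141698151857750031) (l 141655614485037071))))) (b (a (l 141551367003029519) (l 141572189010706447)) (a (c (l 141628057950208015) (l 141540990357061647)) (b (l 141581397422931983) (c (l 141609916015640591) (l 141565798094979087))))))) (b (b (l 141781164954337295) (a (l 141611771446214671) (l 141620223944917007))) (c (b (l 141673275399487503) (a (c (l 141752165369331727) (l 141664273141858319)) (b (l 141691692223905807)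 (a (l 141698014416879631) (l 141793534491312143))))) (b (l 141589162726965263) (c (b (l 141621735769767951) (l 141629226194468879)) (l 141580847665168399))))))), by decide +kernel⟩

def k27_pm_022_a : ∃ t, chk3 f_pm_022_a t 63 127 3 = true :=
  ⟨(b (a (c (a (l 141664960343375887) (l 141684682839900175)) (a (l 141584970839900175) (l 141603456385384463))) (c (a (l 141705985884749839) (l 141728938197385231)) (a (l 141623453759701007) (l 141645031682326543)))) (a (c (b (a (l 141693547651940367) (l 141715331733209103)) (a (c (b (l 141729419230429199) (a (l 141733748557791247) (l 141745362153111567))) (a (l 141685163869667343) (l 141696158989516815))) (c (b (l 141752715140562959) (a (l 141757388065374223) (b (l 141767077514903567) (l 141772575074238479)))) (a (l 141707566426308623) (l 141764466156781583))))) (b (a (l 141607923150422031) (l 141628264122171407)) (a (c (b (l 141641870583087119) (l 141649979483209743)) (l 141600432722477071)) (b (l 141640702350327823) (a (l 141643382410051599) (l 141744812361302031))))))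 (c (b (a (l 141738833801756687) (l 141764053857599503)) (a (b (c (l 141777729037959183) (l 141732717763166223)) (c (a (b (l 141779859341574159) (l 141785563059372047)) (a (l 141792641167933455) (l 141799444398211087))) (a (l 141736840932114447) (l 141749691478229007)))) (b (c (l 141804460922634255) (l 141758625013858319)) (c (a (a (l 141806316347981839) (l 141813325736722447)) (a (l 141820403844972559) (l 141872699368947727))) (a (l 141763023060779023) (l 141821778217533455)))))) (b (a (l 141650116922753039) (l 141673618991136783)) (b (a (l 141663517223796751) (l 141688050084528143)) (a (c (a (l 141690111670288399) (l 141702549899411471)) (l 141648467651575823)) (c (a (l 141715331726000143) (l 141728594589007887)) (l 141718149208539151)))))))), by decide +kernel⟩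

theorem s28_pm_022_a : ∃ t, chk3 f_pm_022_a t 31 127 3 = true := ex3_a k26_pm_022_a k27_pm_022_a

theorem s29_pm_022_a : ∃ t, chk3 f_pm_022_a t 31 63 3 = true := ex3_b k25_pm_022_a s28_pm_022_a

theorem s30_pm_022_a : ∃ t, chk3 f_pm_022_a t 15 63 3 = true := ex3_a k24_pm_022_a s29_pm_022_a

theorem s31_pm_022_a : ∃ t, chk3 f_pm_022_a t 31 127 5 = true := ex3_a k22_pm_022_a k23_pm_022_a

theorem s32_pm_022_a : ∃ t, chk3 f_pm_022_a t 31 127 4 = true := ex3_a k20_pm_022_a k21_pm_022_a

theorem s33_pm_022_a : ∃ t, chk3 f_pm_022_a t 31 127 2 = true := ex3_c s32_pm_022_a s31_pm_022_a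

theorem s34_pm_022_a : ∃ t, chk3 f_pm_022_a t 31 63 2 = true := ex3_b k19_pm_022_a s33_pm_022_a

theorem s35_pm_022_a : ∃ t, chk3 f_pm_022_a t 15 63 2 = true := ex3_a k18_pm_022_a s34_pm_022_a

theorem s36_pm_022_a : ∃ t, chk3 f_pm_022_a t 15 63 1 = true := ex3_c s35_pm_022_a s30_pm_022_a

theorem s37_pm_022_a : ∃ t, chk3 f_pm_022_a t 7 63 1 = true := ex3_a k17_pm_022_a s36_pm_022_a

theorem s38_pm_022_a : ∃ t, chk3 f_pm_022_a t 7 31 1 = true := ex3_b k16_pm_022_a s37_pm_022_a

theorem s39_pm_022_a : ∃ t, chk3 f_pm_022_a t 7 15 1 = true := ex3_b k15_pm_022_a s38_pm_022_a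

theorem s40_pm_022_a : ∃ t, chk3 f_pm_022_a t 7 7 1 = true := ex3_b k14_pm_022_a s39_pm_022_a

theorem s41_pm_022_a : ∃ t, chk3 f_pm_022_a t 7 3 1 = true := ex3_b k13_pm_022_a s40_pm_022_a

theorem s42_pm_022_a : ∃ t, chk3 f_pm_022_a t 7 1 1 = true := ex3_b k12_pm_022_a s41_pm_022_a

theorem s43_pm_022_a : ∃ t, chk3 f_pm_022_a t 6 7 1 = true := ex3_a k10_pm_022_a k11_pm_022_a

theorem s44_pm_022_a : ∃ t, chk3 f_pm_022_a t 6 3 1 = true := ex3_b k9_pm_022_a s43_pm_022_a

theorem s45_pm_022_a : ∃ t, chk3 f_pm_022_a t 6 1 1 = true := ex3_b k8_pm_022_a s44_pm_022_a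

theorem s46_pm_022_a : ∃ t, chk3 f_pm_022_a t 3 1 1 = true := ex3_a s45_pm_022_a s42_pm_022_a

theorem s47_pm_022_a : ∃ t, chk3 f_pm_022_a t 20 1 1 = true := ex3_a k4_pm_022_a k5_pm_022_a

theorem s48_pm_022_a : ∃ t, chk3 f_pm_022_a t 10 1 1 = true := ex3_a s47_pm_022_a k6_pm_022_a

theorem s49_pm_022_a : ∃ t, chk3 f_pm_022_a t 5 1 1 = true := ex3_a s48_pm_022_a k7_pm_022_a

theorem s50_pm_022_a : ∃ t, chk3 f_pm_022_a t 9 3 1 = true := ex3_b k2_pm_022_a k3_pm_022_a

theorem s51_pm_022_a : ∃ t, chk3 f_pm_022_a t 4 3 1 = true := ex3_a k1_pm_022_a s50_pm_022_a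

theorem s52_pm_022_a : ∃ t, chk3 f_pm_022_a t 4 1 1 = true := ex3_b k0_pm_022_a s51_pm_022_a

theorem s53_pm_022_a : ∃ t, chk3 f_pm_022_a t 2 1 1 = true := ex3_a s52_pm_022_a s49_pm_022_a

theorem s54_pm_022_a : ∃ t, chk3 f_pm_022_a t 1 1 1 = true := ex3_a s53_pm_022_a s46_pm_022_a

theorem c_pm_022_a : CertB 0 536870912 0 536870912 536870912 50465866 3 eng mog cd0q0 cd1q2a pd2 true true false .pp 0 2 2
    ndB0q0 ndB1q2a pcB2 cut_pm_022_a xt_pm_022_a :=
  certB2 (fam := true) (s1 := true) (s2 := false) (a := 0) (b := 2) (c := 2) (cn := .pp) (n1 := ndB0q0) (n2 := ndB1q2a) (pc := pcB2) (cut := cut_pm_022_a) (xt := xt_pm_022_a) (P1 := 0) (W1 := 536870912) (P2 := 0) (W2 := 536870912) (P3 := 536870912) (W3 := 50465866) (N0 := 3) (En := eng) (mo := mog) (C1 := cd0q0) (C2 := cd1q2a) (C3 := pd2)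
    rfl (fun _ => rfl) s54_pm_022_a

noncomputable def cut_pm_022_b : Cut := Cut.of [[⟨0, 0, 0, 67108864⟩, ⟨1, 1, 0, 67108864⟩, ⟨2, 1, 0, 67108864⟩], [⟨0, 0, 1, 20971520⟩, ⟨1, 1, 0, 33554432⟩, ⟨2, 1, 1, 20971520⟩]]

noncomputable def f_pm_022_b : ℕ → ℕ → ℕ → ℕ → Bool := onCell 0 536870912 1073741824 536870912 536870912 50465866
    (rowB 3 eng mog cd0q0 cd1q2b pd2 1 true true false .pp 0 2 2 (qsf 0 536870912 1239849684 370763052 2) ndB0q0 ndB1q2b pcB2 cut_pm_022_b Ext.none)

def k0_pm_022_b : ∃ t, chk3 f_pm_022_b t 1 1 1 = true :=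
  ⟨(a (b (a (b (l 1) (b (a (b (a (b (l 1) (l 16573320)) (l 1)) (a (a (l 16543808) (b (l 16506104) (l 16456880))) (b (l 1) (l 73047569239)))) (l 1)) (a (b (a (l 16534336) (b (l 16500176) (l 16457920))) (a (l 16370352) (l 16429416))) (a (b (a (l 16574984) (l 1)) (b (l 16537416) (l 16476952))) (b (l 1) (b (l 1) (l 39761626855))))))) (l 1)) (b (a (b (a (a (l 16345760) (l 16466400)) (b (a (l 16452352) (a (l 16492200) (l 16560096))) (a (l 16424280) (l 16476064)))) (a (b (l 16319208) (l 16299704)) (b (a (l 16400288) (l 16451136)) (l 16404192)))) (a (b (a (b (a (l 42445987351) (l 1)) (b (l 16573784) (l 16517696))) (b (l 1) (a (l 67142072471) (l 1)))) (b (a (l 16519560) (l 61773375575)) (l 16581280))) (b (l 1) (b (a (l 155725871431) (l 1)) (a (l 16555584) (l 195991122535)))))) (b (a (a (l 16278576) (l 16378912)) (a (l 16511216) (a (l 16526584) (l 92911929895)))) (a (b (l 16315168) (l 16310568)) (a (b (l 16449368) (l 16440000)) (b (l 16522528) (l 16511584))))))) (b (l 1) (b (l 1) (a (b (a (a (l 163778915223) (l 243772604999))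 (l 1)) (a (b (l 149283318215) (l 16630992)) (b (l 275448004263) (a (l 173979385783) (l 264173717367))))) (l 1))))), by decide +kernel⟩

theorem c_pm_022_b : CertB 0 536870912 1239849684 370763052 536870912 50465866 3 eng mog cd0q0 cd1q2b pd2 true true false .pp 0 2 2
    ndB0q0 ndB1q2b pcB2 cut_pm_022_b Ext.none :=
  certB1 (fam := true) (s1 := true) (s2 := false) (a := 0) (b := 2) (c := 2) (cn := .pp) (n1 := ndB0q0) (n2 := ndB1q2b) (pc := pcB2) (cut := cut_pm_022_b) (xt := Ext.none) (P1 := 0) (W1 := 536870912) (P2 := 1239849684) (W2 := 370763052) (P3 := 536870912) (W3 := 50465866) (N0 := 3) (En := eng) (mo := mog) (C1 := cd0q0) (C2 := cd1q2b) (C3 := pd2)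
    rfl (fun _ => rfl) k0_pm_022_b

noncomputable def cut_pm_023_a : Cut := Cut.of [[⟨0, 0, 1, 20971520⟩, ⟨1, 1, 0, 33554432⟩, ⟨2, 1, 1, 20971520⟩]]

noncomputable def xt_pm_023_a : Ext := extD2 3 ⟨7, 3, 3, 10, 1741, 1000, 23, 25, 19, 50, 3, 16⟩ eng cd0q0 cd1q2a pd3 true true false .up 0 2 3 rfl ndB0q0 ndB1q2a pcB3

noncomputable def f_pm_023_a : ℕ → ℕ → ℕ → ℕ → Bool := onCell 1610612736 536870912 0 536870912 536870912 50465866
    (rowB 3 eng mog cd0q0 cd1q2a pd3 2 true true false .up 0 2 3 (qsf 0 536870912 0 536870912 3) ndB0q0 ndB1q2a pcB3 cut_pm_023_a xt_pm_023_a)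

def k0_pm_023_a : ∃ t, chk3 f_pm_023_a t 4 2 1 = true :=
  ⟨(a (b (a (b (l 16622544) (l 16591840)) (b (l 16621688) (l 16576208))) (a (b (l 16500136) (l 16536904)) (b (l 16532880) (a (l 16491224) (l 16516192))))) (b (a (b (l 16628240) (l 16600232)) (b (l 16679232) (l 16659904))) (a (b (l 16580032) (l 16548152)) (b (l 16646520) (l 16640920))))), by decide +kernel⟩

def k1_pm_023_a : ∃ t, chk3 f_pm_023_a t 4 3 1 = true :=
  ⟨(a (b (a (b (a (l 16488792) (l 16467816)) (b (l 16519248) (l 16554632))) (b (a (l 16481888) (l 16508000)) (a (l 16502096) (b (l 16517024) (l 16536864))))) (b (a (b (a (l 16530976) (l 16530408)) (a (b (l 16543104) (l 16552856)) (b (l 16547408) (l 16560272)))) (b (a (l 16535424) (l 93515754167)) (a (l 16566936) (l 103716356935)))) (a (a (a (b (b (l 16561240) (b (l 16548088) (c (l 141732717791608847) (l 141606342615089167)))) (b (b (l 141719523634216975) (c (l 141844799284772879) (l 141689287043350543))) (b (b (l 141850571696947215) (a (l 141816074521509903) (l 141844867990601743))) (b (c (a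 (l 141928430907310095) (l 141960522912284687)) (a (l 141748866843623439) (l 141776835678830607))) (a (a (c (b (l 141941487610609679) (c (l 6) (b (l 141906371942350863) (a (c (l 6) (a (l 141928774482493455) (l 141932622774321167))) (l 2))))) (b (l 141757181902028815) (b (l 141877303549231119) (a (c (c (l 141838545791877135) (l 141790579578896399)) (l 141716980991983631)) (l 2))))) (b (c (l 141957499253407759) (l 141771200679444495)) (l 2))) (l 2)))))) (b (b (l 16565440) (b (l 16574560) (l 141716843575705615))) (b (b (l 141770238622089231) (c (l 141904310368288783) (l 141740208190062607))) (b (b (l 141909533024698383) (l 2)) (l 2))))) (b (a (b (l 16570888) (b (l 16580904) (l 141772162768863247))) (b (l 16577240) (a (l 141790373434736655) (l 133781108439)))) (b (a (b (l 141829749704753167) (l 2)) (l 2)) (l 2)))) (b (a (b (l 146129131335) (l 2)) (l 2)) (l 2))))) (b (a (b (a (l 16539280) (l 16582720)) (a (b (l 16545848) (l 16566648)) (l 171362206871))) (b (l 16640008) (b (l 16647096) (l 2)))) (b (a (b (a (l 177804594519)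 (l 2)) (l 2)) (l 2)) (l 2)))), by decide +kernel⟩

def k2_pm_023_a : ∃ t, chk3 f_pm_023_a t 5 1 1 = true :=
  ⟨(b (a (b (a (b (l 16718160) (l 16706136)) (b (l 2) (l 2))) (a (b (l 16698088) (l 16696552)) (l 2))) (l 2)) (b (l 2) (l 2))), by decide +kernel⟩

def k3_pm_023_a : ∃ t, chk3 f_pm_023_a t 3 1 1 = true :=
  ⟨(l 2), by decide +kernel⟩

theorem s4_pm_023_a : ∃ t, chk3 f_pm_023_a t 4 1 1 = true := ex3_b k0_pm_023_a k1_pm_023_a

theorem s5_pm_023_a : ∃ t, chk3 f_pm_023_a t 2 1 1 = true := ex3_a s4_pm_023_a k2_pm_023_a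

theorem s6_pm_023_a : ∃ t, chk3 f_pm_023_a t 1 1 1 = true := ex3_a s5_pm_023_a k3_pm_023_a

theorem c_pm_023_a : CertB 0 536870912 0 536870912 536870912 50465866 3 eng mog cd0q0 cd1q2a pd3 true true false .up 0 2 3
    ndB0q0 ndB1q2a pcB3 cut_pm_023_a xt_pm_023_a :=
  certB2 (fam := true) (s1 := true) (s2 := false) (a := 0) (b := 2) (c := 3) (cn := .up) (n1 := ndB0q0) (n2 := ndB1q2a) (pc := pcB3) (cut := cut_pm_023_a) (xt := xt_pm_023_a) (P1 := 0) (W1 := 536870912) (P2 := 0) (W2 := 536870912) (P3 := 536870912) (W3 := 50465866) (N0 := 3) (En := eng) (mo := mog) (C1 := cd0q0) (C2 := cd1q2a) (C3 := pd3)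
    rfl (fun _ => rfl) s6_pm_023_a

noncomputable def cut_pm_023_b : Cut := Cut.of [[⟨0, 0, 1, 20971520⟩, ⟨1, 1, 0, 33554432⟩, ⟨2, 1, 1, 20971520⟩]]

noncomputable def f_pm_023_b : ℕ → ℕ → ℕ → ℕ → Bool := onCell 0 536870912 1610612736 536870912 536870912 50465866
    (rowB 3 eng mog cd0q0 cd1q2b pd3 1 true true false .up 0 2 3 (qsf 0 536870912 1239849684 370763052 3) ndB0q0 ndB1q2b pcB3 cut_pm_023_b Ext.none)

def k0_pm_023_b : ∃ t, chk3 f_pm_023_b t 1 1 1 = true :=
  ⟨(a (b (b (a (b (l 16466960) (l 16454728)) (b (a (l 16460664) (l 16533152)) (a (l 16491288) (l 16520944)))) (b (a (b (l 16557848) (l 2)) (a (l 16610088) (l 16626528))) (a (l 2) (b (l 16769560) (l 4))))) (l 4)) (b (b (a (b (a (b (l 16596560) (l 16576040)) (b (a (l 16626704) (l 240551546791)) (l 16663368))) (a (l 16560672) (l 16687192))) (b (a (b (a (l 308197207687) (l 1)) (a (l 241088420247) (l 370474207447))) (l 1)) (a (b (a (l 16627288) (l 248067688807)) (l 16619336)) (b (a (l 403760301847) (l 1)) (a (l 251289153703) (l 367790055399)))))) (a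 (b (a (l 16642776) (l 16656696)) (b (a (l 16701528) (l 16708128)) (l 4))) (b (a (b (l 16660728) (l 16685808)) (b (a (l 16690312) (l 264710807927)) (a (l 16700672) (l 16718328)))) (b (a (l 16713688) (l 16722864)) (a (l 16743368) (l 16745560)))))) (b (a (l 4) (l 4)) (l 4)))), by decide +kernel⟩

theorem c_pm_023_b : CertB 0 536870912 1239849684 370763052 536870912 50465866 3 eng mog cd0q0 cd1q2b pd3 true true false .up 0 2 3
    ndB0q0 ndB1q2b pcB3 cut_pm_023_b Ext.none :=
  certB1 (fam := true) (s1 := true) (s2 := false) (a := 0) (b := 2) (c := 3) (cn := .up) (n1 := ndB0q0) (n2 := ndB1q2b) (pc := pcB3) (cut := cut_pm_023_b) (xt := Ext.none) (P1 := 0) (W1 := 536870912) (P2 := 1239849684) (W2 := 370763052) (P3 := 536870912) (W3 := 50465866) (N0 := 3) (En := eng) (mo := mog) (C1 := cd0q0) (C2 := cd1q2b) (C3 := pd3)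
    rfl (fun _ => rfl) k0_pm_023_b

noncomputable def f_pm_033 : ℕ → ℕ → ℕ → ℕ → Bool := onCell 1610612736 536870912 1610612736 536870912 536870912 50465866
    (rowB 3 eng mog cd0q0 cd1q3 pd3 2 true true false .pnn 0 3 3 (qsf 0 536870912 1610612736 536870912 3) ndB0q0 ndB1q3 pcB3 Cut.none Ext.none)

def k0_pm_033 : ∃ t, chk3 f_pm_033 t 1 1 1 = true :=
  ⟨(a (a (b (a (b (a (l 16197160) (l 16294608)) (l 1)) (b (b (l 16443960) (l 16418784)) (a (l 1) (l 16432496)))) (l 1)) (b (a (b (b (l 16594720) (l 16579128)) (a (l 16519688) (l 16592408))) (l 4)) (a (l 1) (l 4)))) (l 4)), by decide +kernel⟩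

theorem c_pm_033 : CertB 0 536870912 1610612736 536870912 536870912 50465866 3 eng mog cd0q0 cd1q3 pd3 true true false .pnn 0 3 3
    ndB0q0 ndB1q3 pcB3 Cut.none Ext.none :=
  certB2 (fam := true) (s1 := true) (s2 := false) (a := 0) (b := 3) (c := 3) (cn := .pnn) (n1 := ndB0q0) (n2 := ndB1q3) (pc := pcB3) (cut := Cut.none) (xt := Ext.none) (P1 := 0) (W1 := 536870912) (P2 := 1610612736) (W2 := 536870912) (P3 := 536870912) (W3 := 50465866) (N0 := 3) (En := eng) (mo := mog) (C1 := cd0q0) (C2 := cd1q3) (C3 := pd3)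
    rfl (fun _ => rfl) k0_pm_033

noncomputable def cut_pm_101 : Cut := Cut.of [[⟨0, 1, 0, 67108864⟩, ⟨1, 0, 0, 67108864⟩, ⟨2, 1, 0, 67108864⟩]]

noncomputable def f_pm_101 : ℕ → ℕ → ℕ → ℕ → Bool := onCell 536870912 536870912 0 536870912 536870912 50465866
    (rowB 3 eng mog cd0q1 cd1q0 pd1 2 true true false .npn 1 0 1 (qsf 536870912 536870912 0 536870912 1) ndB0q1 ndB1q0 pcB1 cut_pm_101 Ext.none)

def k0_pm_101 : ∃ t, chk3 f_pm_101 t 1 1 1 = true :=
  ⟨(a (l 3) (b (a (l 3) (b (a (l 3) (b (a (l 3) (a (l 3) (b (l 6) (l 3)))) (l 3))) (l 3))) (l 3))), by decide +kernel⟩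

theorem c_pm_101 : CertB 536870912 536870912 0 536870912 536870912 50465866 3 eng mog cd0q1 cd1q0 pd1 true true false .npn 1 0 1
    ndB0q1 ndB1q0 pcB1 cut_pm_101 Ext.none :=
  certB2 (fam := true) (s1 := true) (s2 := false) (a := 1) (b := 0) (c := 1) (cn := .npn) (n1 := ndB0q1) (n2 := ndB1q0) (pc := pcB1) (cut := cut_pm_101) (xt := Ext.none) (P1 := 536870912) (W1 := 536870912) (P2 := 0) (W2 := 536870912) (P3 := 536870912) (W3 := 50465866) (N0 := 3) (En := eng) (mo := mog) (C1 := cd0q1) (C2 := cd1q0) (C3 := pd1)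
    rfl (fun _ => rfl) k0_pm_101

noncomputable def cut_pm_102 : Cut := Cut.of [[⟨0, 1, 0, 67108864⟩, ⟨1, 0, 0, 67108864⟩, ⟨2, 1, 0, 67108864⟩]]

noncomputable def f_pm_102 : ℕ → ℕ → ℕ → ℕ → Bool := onCell 536870912 536870912 1073741824 536870912 536870912 50465866
    (rowB 3 eng mog cd0q1 cd1q0 pd2 1 true true false .npp 1 0 2 (qsf 536870912 536870912 0 536870912 2) ndB0q1 ndB1q0 pcB2 cut_pm_102 Ext.none)

def k0_pm_102 : ∃ t, chk3 f_pm_102 t 4 1 1 = true :=
  ⟨(b (b (l 3) (b (b (b (l 3) (l 2)) (l 2)) (l 2))) (l 2)), by decide +kernel⟩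

def k1_pm_102 : ∃ t, chk3 f_pm_102 t 10 1 1 = true :=
  ⟨(b (b (l 3) (b (b (a (b (l 3) (a (b (b (l 3) (l 2)) (l 2)) (b (b (b (l 3) (l 122037502887)) (b (l 31843240471) (l 16792400))) (b (b (l 16789208) (l 16786384)) (b (l 34460401719) (l 16780680)))))) (b (b (l 3) (b (l 3) (a (b (l 3) (l 102173285719)) (b (a (l 3) (l 16767896)) (a (l 16802056) (l 16775680)))))) (a (b (b (b (a (l 16791184) (l 16805384)) (l 16784672)) (a (l 16783512) (l 16777320))) (b (b (l 16776256) (l 16774016)) (b (l 16776960) (l 16769408)))) (b (b (b (l 16796592) (l 16773072)) (b (l 16770656) (l 16768408))) (b (b (l 16766512) (l 16764896)) (b (l 16755368) (l 16761616))))))) (a (c (l 16821496) (l 16826688)) (a (l 16801120) (l 16765192)))) (b (b (l 25333835447) (l 2)) (l 2)))) (l 2)), by decide +kernel⟩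

def k2_pm_102 : ∃ t, chk3 f_pm_102 t 11 1 1 = true :=
  ⟨(b (b (b (l 3) (b (l 3) (b (l 3) (b (l 3) (b (l 3) (a (l 3) (a (l 3) (a (l 44728071207) (b (l 16775920) (l 16783848)))))))))) (b (b (b (b (b (a (l 3) (a (a (c (l 35601264583) (l 19495132103)) (b (l 16773736) (l 89825214327))) (b (a (l 71571608615) (l 16771056)) (a (l 16769832) (l 16768976))))) (a (a (l 3) (b (a (l 3) (l 16773472)) (a (l 45264932087) (c (l 72645348615) (l 74792826343))))) (a (b (a (c (l 79624668615) (l 79624663479)) (l 16769000)) (a (l 16768616) (l 16766968))) (b (l 16767368) (l 16765640))))) (b (a (a (b (a (l 3) (l 16774880)) (a (l 16776328) (l 16772304))) (b (a (l 77477185639) (l 16768672)) (l 16788720))) (a (a (l 16765616) (l 16764288)) (a (l 16763608) (l 16763440)))) (a (a (b (a (l 16773704) (l 16769944)) (l 16769376)) (b (l 16765720) (l 16763888))) (a (b (l 16783480) (l 16761264)) (l 16761832))))) (b (a (b (a (b (l 16767192) (l 16765208)) (b (a (l 16763176) (l 16761488)) (l 16760992))) (a (b (l 16763448) (l 16762000)) (l 16759672)))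 (b (a (l 16802232) (l 16762192)) (a (l 16760000) (l 16766880)))) (b (a (b (l 16780328) (l 16758848)) (b (l 16786624) (l 16787664))) (a (b (a (l 16737888) (l 16820928)) (b (b (b (l 16757472) (b (l 16757336) (l 16820240))) (l 16757384)) (l 16757392))) (b (b (l 16797840) (a (l 16763416) (l 16769000))) (b (b (a (b (l 16763760) (b (l 16764184) (l 16765184))) (b (l 16770136) (l 16771560))) (l 16769984)) (l 16770488))))))) (a (a (l 16770320) (l 16773008)) (a (a (l 16774280) (l 16774904)) (l 16774872)))) (a (b (l 16775648) (l 16772992)) (b (l 16771728) (l 16766112))))) (b (b (a (l 2) (l 16760752)) (l 2)) (l 2))), by decide +kernel⟩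

def k3_pm_102 : ∃ t, chk3 f_pm_102 t 6 8 1 = true :=
  ⟨(l 3), by decide +kernel⟩

def k4_pm_102 : ∃ t, chk3 f_pm_102 t 14 16 1 = true :=
  ⟨(l 3), by decide +kernel⟩

def k5_pm_102 : ∃ t, chk3 f_pm_102 t 28 17 1 = true :=
  ⟨(b (l 3) (b (l 3) (a (l 3) (b (l 3) (a (l 3) (a (l 3) (b (l 3) (a (l 243370314455) (b (l 235317248983) (l 163913426839)))))))))), by decide +kernel⟩

def k6_pm_102 : ∃ t, chk3 f_pm_102 t 29 34 1 = true :=
  ⟨(a (l 3) (b (l 3) (a (l 3) (b (l 3) (a (b (l 3) (a (l 3) (l 215453025479))) (b (a (l 193978191287) (l 185925136519)) (a (l 155860364135) (l 16783080)))))))), by decide +kernel⟩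

def k7_pm_102 : ∃ t, chk3 f_pm_102 t 29 35 1 = true :=
  ⟨(b (a (a (l 3) (b (l 3) (a (l 3) (b (a (l 3) (l 218674252359)) (b (a (l 220821734855) (c (a (l 184851383111) (l 160155325623)) (l 181093290791))) (a (c (a (l 198810027127) (l 164450293223)) (l 193978184999)) (l 16783368))))))) (a (a (b (b (l 3) (b (l 3) (l 216526773591))) (b (b (a (l 214916154311) (c (l 162302811047) (l 163913420951))) (a (c (l 167671520455) (l 168208388567)) (l 16783160))) (c (l 16782784) (l 16781232)))) (b (b (b (l 3) (l 214916160391)) (a (b (l 212231799287) (l 157470973751)) (c (l 16789504) (l 16782992)))) (b (l 16781768) (l 16789872)))) (b (a (b (a (c (l 159081588423) (l 160155328839)) (l 16783392)) (l 16781576)) (b (l 16781408) (l 16778984))) (a (b (l 16779192) (l 16776960)) (b (l 16776800) (l 16775288)))))) (a (a (a (b (l 3) (a (b (l 227264191527) (b (l 158544717175) (l 16783144))) (b (b (l 215989895383) (c (l 151028522199) (l 157470969479))) (l 16782368)))) (b (b (l 3) (b (a (l 3) (c (a (l 217063639095) (l 185925124727)) (l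 201494378487))) (b (a (l 227801055783) (l 146196683351)) (a (c (l 182703899687) (l 186461999415)) (l 16783552))))) (b (a (a (b (l 159081585959) (l 16783136)) (l 16788296)) (l 16782024)) (l 16780352)))) (b (b (b (a (a (l 3) (c (a (l 201494381991) (l 169282132055)) (l 194515056135))) (c (l 16788920) (l 16782008))) (a (a (c (a (l 207936833255) (l 179482673463)) (l 196125669095)) (c (l 139217359831) (l 16782784))) (l 16781560))) (a (a (b (b (l 147270424567) (l 16783416)) (l 16782480)) (l 16792224)) (l 16779752))) (a (b (l 16780024) (l 16777872)) (b (l 16788048) (l 16775680))))) (a (b (a (b (l 16790056) (l 16787784)) (b (l 16777128) (l 16775312))) (a (l 16774768) (l 16775144))) (b (l 16775616) (l 16773912))))), by decide +kernel⟩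

def k8_pm_102 : ∃ t, chk3 f_pm_102 t 15 16 1 = true :=
  ⟨(a (b (l 3) (a (l 3) (b (a (l 3) (a (l 3) (l 6))) (a (b (l 3) (b (b (l 3) (a (l 3) (a (l 3) (a (l 165524025207) (a (l 151028511031) (l 140291091767)))))) (b (a (l 3) (a (c (l 155323479111) (a (l 3) (l 162302798247))) (c (l 125795579111) (l 125795577639)))) (a (a (l 3) (l 168208381223)) (a (a (a (l 149417899175) (l 137069867175)) (l 16781824)) (l 16780584)))))) (b (a (b (l 3) (b (a (l 3) (a (l 3) (a (l 162302798359) (l 6)))) (b (a (l 3) (a (l 154786606631) (l 16781512))) (a (l 164987154007) (l 132774897799))))) (a (b (l 6) (b (l 6) (l 16779976))) (l 6))) (a (b (b (a (c (a (l 151565381223) (l 133311771175)) (a (l 162839668615) (l 135459253287))) (l 16780552)) (a (l 16781128) (c (l 16779944) (l 16779048)))) (a (b (l 16780032) (l 16778952)) (c (l 16788840) (l 16782656)))) (a (b (a (b (l 16779312) (l 16778232)) (l 16777944)) (l 16776432)) (l 16776128)))))))) (b (l 6) (a (b (l 6) (a (b (l 6) (a (l 16774912) (l 6))) (l 6))) (l 6)))), by decide +kernel⟩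

def k9_pm_102 : ∃ t, chk3 f_pm_102 t 30 17 1 = true :=
  ⟨(b (a (a (b (b (l 3) (a (l 3) (a (l 3) (b (l 3) (l 184314516951))))) (b (b (b (a (l 3) (a (l 190220091591) (l 149954778215))) (a (l 195051932775) (a (l 151565392359) (l 16782640)))) (b (a (l 165524040615) (l 16782352)) (a (l 145659816775) (l 16781264)))) (b (a (l 139754234007) (a (l 16780464) (l 16778888))) (a (l 16791192) (l 16777600))))) (b (b (a (l 3) (b (l 3) (a (c (l 168208384375) (l 182703897239)) (b (l 169282125511) (a (l 142975453559) (l 16782344)))))) (a (b (a (l 3) (a (l 178408930311) (b (l 180019542471) (l 147270421639)))) (b (a (l 180019542039) (l 16782696)) (l 143512326871))) (a (b (b (a (l 163913420215) (l 16782872)) (l 16782176)) (l 16780560)) (b (l 16781104) (l 16778976))))) (b (a (a (b (l 16781576) (l 16779448)) (b (l 16780008) (l 16777904))) (b (a (l 16778432) (l 16776992)) (l 16776016))) (a (b (l 16776736) (l 16775784)) (l 16775536))))) (a (b (b (b (b (a (a (l 3) (a (l 155860351495) (l 130090545655))) (a (l 16781136) (l 16779512)))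 (a (a (c (l 156397220887) (l 167134637207)) (l 16781680)) (a (l 16780048) (l 16778440)))) (b (a (a (l 132774903671) (l 16780592)) (a (l 16778992) (l 16777440))) (a (a (l 16781120) (l 16779528)) (l 16777192)))) (a (b (a (c (l 16790528) (l 16789544)) (l 16777944)) (a (l 16777456) (l 16776176))) (l 16776216))) (b (l 16774800) (l 16791800))) (b (b (a (b (a (l 16777392) (l 16776128)) (l 16776264)) (l 16774408)) (a (l 16773840) (l 16770360))) (a (b (l 16769768) (l 16765752)) (l 16785304))))) (a (b (a (b (a (b (l 16778536) (l 16776576)) (l 16775752)) (l 16775432)) (b (l 16773384) (l 16769288))) (a (b (l 16771848) (l 16767784)) (b (l 16765272) (l 16761256)))) (a (b (a (l 16787400) (l 16763128)) (l 16756824)) (b (l 16758104) (l 16750208))))), by decide +kernel⟩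

def k10_pm_102 : ∃ t, chk3 f_pm_102 t 31 17 1 = true :=
  ⟨(a (b (a (b (b (a (l 16791856) (l 16767288)) (l 16765064)) (b (l 16761056) (l 16757080))) (b (a (l 16772088) (l 6)) (a (l 16753616) (l 16749872)))) (a (b (l 16751144) (l 16743280)) (b (a (l 16745712) (l 16741992)) (l 16736072)))) (b (a (b (l 6) (a (l 16746048) (l 6))) (l 6)) (a (b (l 16757232) (l 16728528)) (b (a (l 16730328) (l 6)) (l 16720632))))), by decide +kernel⟩

def k11_pm_102 : ∃ t, chk3 f_pm_102 t 6 9 1 = true :=
  ⟨(b (a (l 3) (b (a (l 3) (b (l 3) (a (l 3) (b (l 3) (a (l 3) (b (l 3) (l 282561903751))))))) (a (b (l 3) (a (l 3) (b (l 3) (a (l 3) (l 16807184))))) (b (a (b (l 3) (a (l 3) (l 289004363271))) (b (a (b (l 3) (l 263771441271)) (b (l 16800984) (l 16787984))) (a (l 16811768) (l 16784440)))) (a (b (a (l 211158101015) (l 16791864)) (a (l 16791632) (l 16786488))) (b (a (l 16785888) (l 16779784)) (a (l 16780976) (l 16775816)))))))) (a (b (a (l 3) (b (l 3) (a (b (l 3) (a (l 3) (l 16791552))) (b (a (l 3) (l 16793496)) (a (l 16789616) (l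 16787632)))))) (b (a (b (l 3) (a (l 3) (a (l 16783616) (l 16782856)))) (a (b (a (l 16787224) (l 16785656)) (l 16781056)) (b (a (l 16784024) (l 16782304)) (l 16778248)))) (a (b (a (b (l 87677768935) (l 139217373255)) (a (l 90899002823) (l 16777664))) (a (a (b (l 16775016) (l 16772648)) (l 16773424)) (l 16773112))) (a (b (l 16776328) (l 16772216)) (b (l 16774064) (l 16771448)))))) (b (a (b (a (b (a (l 3) (l 16810104)) (a (l 16796936) (l 16793496))) (b (a (l 16795408) (l 16790896)) (a (l 16789640) (l 16785408)))) (a (b (a (l 16790904) (l 16787784)) (a (l 16785320) (l 16782384))) (b (a (l 16784160) (l 16780096)) (a (l 16778976) (l 16775704))))) (b (a (b (a (l 16786160) (l 16781160)) (a (l 16780816) (l 16776528))) (l 16774680)) (l 16775960))) (a (b (a (b (l 16778776) (l 16774696)) (l 16774008)) (l 16817952)) (b (l 16812872) (a (l 16768568) (l 16760456))))))), by decide +kernel⟩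

def k12_pm_102 : ∃ t, chk3 f_pm_102 t 7 18 1 = true :=
  ⟨(a (b (a (b (a (b (l 3) (a (l 3) (b (l 3) (l 277193188551)))) (b (a (b (l 3) (a (l 3) (l 252497120391))) (b (a (c (l 236927864695) (l 241759699479)) (c (b (l 154249751015) (l 16783840)) (l 154786620631))) (a (c (l 151565399751) (l 159618459783)) (l 16781112)))) (a (b (a (l 265382023543) (l 153176016199)) (l 143512338391)) (b (l 16801200) (l 16799072))))) (a (b (a (b (l 3) (l 280951287959)) (b (l 171429633543) (l 16784960))) (a (b (l 170355894087) (l 16786464)) (b (l 16782640) (l 16780424)))) (a (b (b (l 16781288) (l 16779136)) (b (l 16777056) (l 16775256))) (b (b (l 16776128) (l 16774544)) (l 16773824))))) (a (b (b (a (b (a (l 16780712) (l 16778192)) (a (l 16778544) (l 16776208))) (a (l 16775104) (l 16774128))) (a (b (l 16775472) (l 16774152)) (l 16775496))) (l 16774088)) (b (a (l 16773760) (l 16768144)) (a (l 16766376) (l 16760496))))) (a (b (a (a (b (l 16803944) (l 16778472)) (b (l 16777208) (l 16774152))) (l 16775464)) (a (l 16775608) (l 16769984)))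 (a (b (a (l 16769856) (l 16764544)) (l 16759992)) (b (l 16756128) (l 16748848))))) (a (b (a (b (a (l 16761920) (l 16755408)) (l 16751160)) (a (l 16765992) (b (l 16742240) (l 16734416)))) (a (b (l 16743840) (l 16736552)) (a (l 16730208) (l 16744272)))) (a (b (a (b (l 16735416) (l 16727624)) (b (l 16728312) (l 16720648))) (a (b (l 16720008) (l 16712704)) (l 16730312))) (b (a (b (l 16720872) (l 16713320)) (b (l 16713056) (l 16705600))) (a (l 16702136) (l 16715560)))))), by decide +kernel⟩

def k13_pm_102 : ∃ t, chk3 f_pm_102 t 7 19 1 = true :=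
  ⟨(a (a (b (a (b (l 16771944) (l 16765008)) (b (l 16762912) (l 16755856))) (a (b (l 16758112) (l 16751312)) (l 16745128))) (b (a (l 16749256) (l 16738056)) (a (l 16734792) (l 16723376)))) (a (b (a (l 16725704) (a (l 16715808) (l 16709096))) (a (b (l 16714792) (l 16707352)) (b (l 16702000) (l 16695152)))) (b (a (a (l 16702280) (l 16695144)) (a (l 16687792) (l 16701240))) (a (l 16706352) (a (l 16674592) (l 16666952)))))), by decide +kernel⟩

def k14_pm_102 : ∃ t, chk3 f_pm_102 t 3 40 1 = true :=
  ⟨(a (a (a (b (a (b (a (l 16769488) (l 16769328)) (a (l 16766080) (l 16766248))) (b (l 16769328) (l 16767048))) (a (b (l 16764216) (l 16764408)) (l 16769488))) (b (a (l 16790096) (l 16774544)) (a (l 16774984) (l 16774656)))) (a (b (a (l 16775040) (l 16769576)) (a (l 16770112) (l 16763488))) (b (a (l 16762192) (l 16753768)) (l 16751488)))) (a (a (a (l 16761616) (l 16751072)) (a (l 16739984) (b (l 16711728) (l 16703280)))) (a (a (b (l 16699760) (l 16692144)) (l 16684736)) (a (l 16693320) (b (l 16661536) (l 16655464)))))),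 by decide +kernel⟩

def k15_pm_102 : ∃ t, chk3 f_pm_102 t 3 41 1 = true :=
  ⟨(a (b (a (a (b (l 16814808) (l 16773864)) (b (a (l 16775040) (l 16771880)) (a (l 16774736) (l 16771704)))) (a (b (l 16763288) (l 16762968)) (c (l 16807376) (l 16805552)))) (a (a (b (b (l 16774032) (a (l 16772640) (l 16774664))) (b (a (b (l 16772384) (l 16773232)) (l 16774872)) (a (a (a (l 16815728) (l 16795320)) (l 16795800)) (l 16816504)))) (a (b (l 16774448) (b (l 16773768) (l 16792552))) (b (l 16771336) (b (l 16769448) (l 16786536))))) (a (b (l 16761408) (b (l 16799760) (a (l 16777912) (l 16767608)))) (b (l 16762576) (a (b (l 16741992) (l 16777024)) (b (l 16729976) (l 16785568))))))) (a (a (b (a (l 16730112) (l 16718296)) (b (l 16738256) (b (a (l 16717096) (l 16703464)) (b (b (b (l 16705848) (a (l 16709376) (l 16716768))) (l 16701480)) (l 16700936))))) (a (b (l 16705760) (b (l 16696944) (a (b (l 16692872) (b (b (b (l 16688528) (l 16728176)) (l 16685368)) (l 16684808))) (b (l 16687232) (l 16682256))))) (b (b (l 16696440) (l 16691608))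 (b (l 16686368) (b (l 16681816) (l 16698632)))))) (a (b (a (l 16684472) (l 16674360)) (b (a (l 16678256) (l 16668704)) (b (a (l 16674328) (l 16665224)) (a (l 16670672) (l 16683024))))) (a (b (l 16662696) (b (l 16657560) (b (l 16654472) (c (l 16656904) (l 16647064))))) (b (l 16649392) (b (l 16644696) (b (l 16641976) (c (l 16666080) (l 16655704))))))))), by decide +kernel⟩

def k16_pm_102 : ∃ t, chk3 f_pm_102 t 3 21 1 = true :=
  ⟨(a (a (a (l 16792456) (l 16759968)) (a (l 16740504) (l 16758200))) (a (a (a (l 16696312) (l 16682240)) (a (c (l 16716904) (l 16710104)) (c (l 16711208) (l 16703128)))) (b (a (a (l 16684736) (l 16676344)) (a (l 16697744) (b (l 16636464) (l 16630536)))) (a (a (l 16651520) (l 16642816)) (a (l 16633032) (l 16621584)))))), by decide +kernel⟩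

def k17_pm_102 : ∃ t, chk3 f_pm_102 t 3 11 1 = true :=
  ⟨(a (a (a (l 16841624) (b (l 16746688) (l 16736160))) (a (b (l 16724904) (l 16712864)) (b (l 16698400) (l 16684672)))) (a (a (b (l 16669384) (l 16653144)) (b (a (l 16650384) (l 16643576)) (a (l 16632392) (l 16625184)))) (a (b (a (l 16635384) (l 16625992)) (a (l 16616736) (l 16607096))) (b (a (l 16615704) (l 16604400)) (a (l 16596248) (l 16584280)))))), by decide +kernel⟩

def k18_pm_102 : ∃ t, chk3 f_pm_102 t 3 3 1 = true :=
  ⟨(b (a (a (b (a (l 16746200) (l 16725872)) (a (l 2) (l 16723184))) (b (a (l 16700248) (l 16690640)) (a (l 16693688) (l 16658640)))) (a (b (a (b (l 16641080) (l 16630080)) (b (a (l 16618192) (l 16609928)) (l 16601016))) (a (l 16619112) (b (l 16590712) (l 16584168)))) (b (a (b (l 16638168) (l 16581592)) (b (a (l 16580144) (l 16568088)) (l 16559280))) (a (b (l 16570920) (l 16565352)) (b (l 16547776) (l 16542744)))))) (a (a (l 2) (b (a (l 2) (l 16678856)) (l 2))) (b (a (a (l 16640872) (a (l 16612272) (l 16601328))) (a (l 16584440)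 (a (l 16565344) (l 16551528)))) (a (a (l 2) (a (l 2) (l 16670856))) (b (a (l 16630688) (l 16597888)) (a (l 16662904) (l 16621320))))))), by decide +kernel⟩

theorem s19_pm_102 : ∃ t, chk3 f_pm_102 t 3 20 1 = true := ex3_b k14_pm_102 k15_pm_102

theorem s20_pm_102 : ∃ t, chk3 f_pm_102 t 3 10 1 = true := ex3_b s19_pm_102 k16_pm_102

theorem s21_pm_102 : ∃ t, chk3 f_pm_102 t 3 5 1 = true := ex3_b s20_pm_102 k17_pm_102

theorem s22_pm_102 : ∃ t, chk3 f_pm_102 t 7 9 1 = true := ex3_b k12_pm_102 k13_pm_102

theorem s23_pm_102 : ∃ t, chk3 f_pm_102 t 3 9 1 = true := ex3_a k11_pm_102 s22_pm_102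

theorem s24_pm_102 : ∃ t, chk3 f_pm_102 t 15 17 1 = true := ex3_a k9_pm_102 k10_pm_102

theorem s25_pm_102 : ∃ t, chk3 f_pm_102 t 15 8 1 = true := ex3_b k8_pm_102 s24_pm_102

theorem s26_pm_102 : ∃ t, chk3 f_pm_102 t 29 17 1 = true := ex3_b k6_pm_102 k7_pm_102

theorem s27_pm_102 : ∃ t, chk3 f_pm_102 t 14 17 1 = true := ex3_a k5_pm_102 s26_pm_102

theorem s28_pm_102 : ∃ t, chk3 f_pm_102 t 14 8 1 = true := ex3_b k4_pm_102 s27_pm_102

theorem s29_pm_102 : ∃ t, chk3 f_pm_102 t 7 8 1 = true := ex3_a s28_pm_102 s25_pm_102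

theorem s30_pm_102 : ∃ t, chk3 f_pm_102 t 3 8 1 = true := ex3_a k3_pm_102 s29_pm_102

theorem s31_pm_102 : ∃ t, chk3 f_pm_102 t 3 4 1 = true := ex3_b s30_pm_102 s23_pm_102

theorem s32_pm_102 : ∃ t, chk3 f_pm_102 t 3 2 1 = true := ex3_b s31_pm_102 s21_pm_102

theorem s33_pm_102 : ∃ t, chk3 f_pm_102 t 3 1 1 = true := ex3_b s32_pm_102 k18_pm_102

theorem s34_pm_102 : ∃ t, chk3 f_pm_102 t 5 1 1 = true := ex3_a k1_pm_102 k2_pm_102

theorem s35_pm_102 : ∃ t, chk3 f_pm_102 t 2 1 1 = true := ex3_a k0_pm_102 s34_pm_102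

theorem s36_pm_102 : ∃ t, chk3 f_pm_102 t 1 1 1 = true := ex3_a s35_pm_102 s33_pm_102

theorem c_pm_102 : CertB 536870912 536870912 0 536870912 536870912 50465866 3 eng mog cd0q1 cd1q0 pd2 true true false .npp 1 0 2
    ndB0q1 ndB1q0 pcB2 cut_pm_102 Ext.none :=
  certB1 (fam := true) (s1 := true) (s2 := false) (a := 1) (b := 0) (c := 2) (cn := .npp) (n1 := ndB0q1) (n2 := ndB1q0) (pc := pcB2) (cut := cut_pm_102) (xt := Ext.none) (P1 := 536870912) (W1 := 536870912) (P2 := 0) (W2 := 536870912) (P3 := 536870912) (W3 := 50465866) (N0 := 3) (En := eng) (mo := mog) (C1 := cd0q1) (C2 := cd1q0) (C3 := pd2)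
    rfl (fun _ => rfl) s36_pm_102

noncomputable def f_pm_112 : ℕ → ℕ → ℕ → ℕ → Bool := onCell 536870912 536870912 1073741824 536870912 536870912 50465866
    (rowB 3 eng mog cd0q1 cd1q1 pd2 1 true true false .dn 1 1 2 (qsf 536870912 536870912 536870912 536870912 2) ndB0q1 ndB1q1 pcB2 Cut.none Ext.none)

def k0_pm_112 : ∃ t, chk3 f_pm_112 t 2 4 1 = true :=
  ⟨(a (l 3) (a (l 3) (l 1))), by decide +kernel⟩

def k1_pm_112 : ∃ t, chk3 f_pm_112 t 2 40 1 = true :=
  ⟨(a (l 3) (a (a (l 3) (l 1)) (l 1))), by decide +kernel⟩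

def k2_pm_112 : ∃ t, chk3 f_pm_112 t 2 82 1 = true :=
  ⟨(a (a (l 3) (a (l 3) (b (l 3) (b (l 3) (a (l 3) (l 16752304)))))) (a (a (b (a (l 3) (b (l 3) (b (a (l 3) (l 1)) (a (a (l 3) (c (l 240551689703) (l 244309769719))) (l 1))))) (a (a (b (l 147270360487) (l 16753536)) (b (c (l 151565340791) (l 152102195639)) (l 16753512))) (b (a (b (b (a (l 16756272) (l 202970717559)) (l 26340185255)) (l 27413925511)) (l 1)) (a (c (l 16756984) (l 16748632)) (l 188475224999))))) (l 1)) (l 1))), by decide +kernel⟩

def k3_pm_112 : ∃ t, chk3 f_pm_112 t 4 166 1 = true :=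
  ⟨(a (l 3) (b (a (l 3) (a (l 16745472) (l 16728456))) (a (a (l 16726864) (l 16735904)) (a (l 16742520) (l 16746808))))), by decide +kernel⟩

def k4_pm_112 : ∃ t, chk3 f_pm_112 t 8 334 1 = true :=
  ⟨(b (a (l 3) (a (l 3) (l 16713344))) (b (a (l 3) (l 16733816)) (a (a (l 3) (l 16717112)) (a (l 16714880) (l 16712376))))), by decide +kernel⟩

def k5_pm_112 : ∃ t, chk3 f_pm_112 t 16 335 1 = true :=
  ⟨(c (b (a (c (b (a (b (l 3) (b (l 3) (l 16721400))) (b (l 3) (b (l 16721032) (l 16721136)))) (l 16721576)) (b (a (b (l 3) (b (l 3) (l 16719744))) (b (l 3) (b (l 16719416) (l 16719512)))) (l 16719896))) (c (b (a (b (l 16720192) (b (l 16720368) (l 16720488))) (b (l 16719064) (b (l 16719272) (l 16719416)))) (l 16720320)) (b (a (b (l 16718656) (b (l 16718816) (l 16718928))) (b (l 16717648) (b (l 16717840) (l 16717976)))) (l 16718784)))) (l 16720792)) (b (a (c (b (a (b (l 3) (b (l 3) (l 16718168))) (b (l 3) (b (l 16717872) (l 16717952)))) (l 16718296)) (b (a (b (l 3) (b (l 3) (l 16716656))) (b (l 3) (b (l 16716400) (l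 16716480)))) (l 16716776))) (c (b (a (b (l 16717192) (b (l 16717344) (l 16717440))) (b (l 16716304) (b (l 16716480) (l 16716600)))) (l 16717320)) (b (a (b (l 16715800) (b (l 16715936) (l 16716024))) (b (l 16715024) (b (l 16715184) (l 16715288)))) (l 16715928)))) (l 16717616))), by decide +kernel⟩

def k6_pm_112 : ∃ t, chk3 f_pm_112 t 17 335 1 = true :=
  ⟨(c (b (a (c (b (a (b (l 16717760) (b (l 16718000) (l 16718168))) (b (l 16716528) (b (l 16716808) (l 16717000)))) (l 16718032)) (b (a (b (l 16716480) (b (l 16716712) (l 16716856))) (b (l 16715384) (b (l 16715648) (l 16715816)))) (l 16716752))) (c (b (a (b (l 16717152) (b (l 16716936) (l 16716800))) (b (l 16722144) (b (l 16721896) (l 16721728)))) (l 16718960)) (b (a (b (l 16714408) (b (l 16714712) (l 16714904))) (b (l 16716392) (b (l 16716120) (l 16715936)))) (l 16714616)))) (l 16717424)) (b (a (c (b (a (b (l 16715264) (b (l 16715480) (l 16715608))) (b (l 16714288) (b (l 16714536) (l 16714688)))) (l 16715528)) (b (a (b (l 16714112) (b (l 16714304) (l 16714424)))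 (b (l 16713256) (b (l 16713480) (l 16713608)))) (l 16714368))) (c (b (a (b (l 16713432) (b (l 16713712) (l 16713880))) (b (l 16711768) (b (l 16712136) (l 16712352)))) (l 16713632)) (b (a (b (l 16712504) (b (l 16712752) (l 16712896))) (b (l 16711008) (b (l 16711344) (l 16711536)))) (l 16712696)))) (l 16715080))), by decide +kernel⟩

def k7_pm_112 : ∃ t, chk3 f_pm_112 t 9 167 1 = true :=
  ⟨(b (b (a (l 16718880) (l 16722064)) (b (a (l 16728264) (l 16742136)) (a (l 16727504) (l 16741488)))) (a (c (b (a (c (b (a (b (l 16727536) (b (l 16727288) (l 16727120))) (b (l 16732408) (b (l 16732152) (l 16731968)))) (l 16729184)) (b (a (b (l 16722064) (b (l 16721800) (l 16721616))) (b (l 16727184) (b (l 16726920) (l 16726728)))) (l 16723792))) (c (b (b (l 16738688) (b (l 16738416) (l 16738216))) (l 16737816)) (b (b (l 16733792) (b (l 16733512) (l 16733320))) (l 16732904)))) (l 16730192)) (b (a (c (b (a (b (l 16716632) (b (l 16716336) (l 16716144))) (b (l 16721984) (b (l 16721704) (l 16721512)))) (l 16718432)) (b (a (b (l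 16711224) (b (l 16710912) (l 16710704))) (b (l 16716816) (b (l 16716512) (l 16716328)))) (l 16713104))) (c (b (b (l 16728904) (b (l 16728640) (l 16728456))) (l 16728024)) (b (b (l 16724040) (b (l 16723784) (l 16723632))) (l 16723192)))) (l 16719872))) (a (b (l 16737872) (l 16736616)) (l 16742200)))), by decide +kernel⟩

def k8_pm_112 : ∃ t, chk3 f_pm_112 t 5 83 1 = true :=
  ⟨(b (a (a (b (b (a (l 16751648) (l 29561408327)) (a (l 16750480) (a (l 16750168) (l 16749288)))) (a (c (l 16753168) (l 16723728)) (b (l 17750257911) (l 16748496)))) (l 1)) (l 1)) (a (b (b (a (a (l 16747600) (l 16747920)) (l 1)) (a (a (l 16746648) (l 16768136)) (l 1))) (b (a (a (c (l 16749768) (l 16741488)) (c (c (l 26877094439) (l 16748352)) (l 16763336))) (l 1)) (a (l 16766192) (l 217466259447)))) (l 1))), by decide +kernel⟩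

def k9_pm_112 : ∃ t, chk3 f_pm_112 t 2 21 1 = true :=
  ⟨(a (a (a (b (a (l 16723584) (l 16724672)) (l 16727536)) (a (l 16729624) (l 16731672))) (a (b (a (l 16726408) (l 16726656)) (l 16740112)) (b (l 16752608) (l 16747448)))) (a (a (b (a (l 16739056) (l 16742160)) (l 16756384)) (b (a (l 16769928) (l 197602075287)) (l 16765976))) (a (b (l 1) (l 163242334375)) (l 1)))), by decide +kernel⟩

def k10_pm_112 : ∃ t, chk3 f_pm_112 t 2 11 1 = true :=
  ⟨(a (a (b (a (a (l 16723424) (l 16729152)) (l 16737072)) (a (l 16782952) (l 16735624))) (a (b (l 16747312) (l 16750176)) (b (l 16757232) (l 16762912)))) (a (b (a (l 16766480) (l 16773560)) (a (l 16773128) (l 16779456))) (b (a (l 16776200) (l 148746923831)) (a (l 16779648) (l 16774720))))), by decide +kernel⟩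

def k11_pm_112 : ∃ t, chk3 f_pm_112 t 2 3 1 = true :=
  ⟨(a (b (a (b (a (b (l 16710880) (l 16698592)) (b (l 16731920) (l 16726800))) (a (b (l 16682664) (l 16662432)) (l 16756432))) (b (a (b (a (l 16746104) (l 16755160)) (l 16751328)) (b (l 16767496) (l 16772584))) (a (b (l 16751536) (l 16750120)) (b (l 16778960) (l 16786112))))) (a (b (a (b (a (l 16621432) (l 16651872)) (a (c (l 16606272) (l 16577792)) (l 16623984))) (b (l 16693760) (l 16674056))) (a (a (b (l 16570616) (l 16563016)) (b (l 16601240) (l 16591528))) (a (b (l 16632032) (l 16619352)) (b (l 16667512) (l 16651760))))) (b (a (l 16742992) (l 16795368)) (a (b (l 16726208) (a (l 16690248) (l 16730224))) (l 16793208))))) (b (a (b (a (l 16805584) (l 16793128)) (a (b (l 16801280) (l 16815576)) (l 16826712))) (b (a (l 16792800) (l 16783528)) (a (l 16832960) (l 16824928)))) (a (b (a (l 16840200) (l 16876664)) (a (l 16859712) (l 16928408))) (b (a (l 16899056) (l 16902128)) (a (l 16986544) (l 17011296)))))), by decide +kernel⟩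

def k12_pm_112 : ∃ t, chk3 f_pm_112 t 3 1 1 = true :=
  ⟨(b (b (l 1) (a (a (a (b (l 1) (l 122977130263)) (l 1)) (l 1)) (l 1))) (b (a (a (b (a (l 16788448) (l 16788984)) (a (l 16804016) (l 16771976))) (b (a (l 83248619479) (l 1)) (a (l 16733120) (l 16693016)))) (a (b (l 1) (a (l 95059623895) (l 1))) (l 1))) (a (a (b (a (b (l 16860960) (l 16912672)) (b (l 16827736) (l 16881448))) (a (l 17010704) (b (l 16948024) (l 17030344)))) (b (a (b (l 16780824) (l 16838808)) (l 16752336)) (a (l 16948616) (l 16898656)))) (b (a (a (b (l 16671928) (l 16723072)) (b (l 16633360) (l 16672880))) (a (l 102038873351) (l 1))) (a (a (l 16838024) (b (l 16733728) (l 16819000))) (b (a (l 16686192) (l 16648184)) (a (l 16747176) (l 53183572359)))))))), by decide +kernel⟩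

theorem s13_pm_112 : ∃ t, chk3 f_pm_112 t 8 335 1 = true := ex3_a k5_pm_112 k6_pm_112

theorem s14_pm_112 : ∃ t, chk3 f_pm_112 t 8 167 1 = true := ex3_b k4_pm_112 s13_pm_112

theorem s15_pm_112 : ∃ t, chk3 f_pm_112 t 4 167 1 = true := ex3_a s14_pm_112 k7_pm_112

theorem s16_pm_112 : ∃ t, chk3 f_pm_112 t 4 83 1 = true := ex3_b k3_pm_112 s15_pm_112

theorem s17_pm_112 : ∃ t, chk3 f_pm_112 t 2 83 1 = true := ex3_a s16_pm_112 k8_pm_112

theorem s18_pm_112 : ∃ t, chk3 f_pm_112 t 2 41 1 = true := ex3_b k2_pm_112 s17_pm_112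

theorem s19_pm_112 : ∃ t, chk3 f_pm_112 t 2 20 1 = true := ex3_b k1_pm_112 s18_pm_112

theorem s20_pm_112 : ∃ t, chk3 f_pm_112 t 2 10 1 = true := ex3_b s19_pm_112 k9_pm_112

theorem s21_pm_112 : ∃ t, chk3 f_pm_112 t 2 5 1 = true := ex3_b s20_pm_112 k10_pm_112

theorem s22_pm_112 : ∃ t, chk3 f_pm_112 t 2 2 1 = true := ex3_b k0_pm_112 s21_pm_112

theorem s23_pm_112 : ∃ t, chk3 f_pm_112 t 2 1 1 = true := ex3_b s22_pm_112 k11_pm_112

theorem s24_pm_112 : ∃ t, chk3 f_pm_112 t 1 1 1 = true := ex3_a s23_pm_112 k12_pm_112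

theorem c_pm_112 : CertB 536870912 536870912 536870912 536870912 536870912 50465866 3 eng mog cd0q1 cd1q1 pd2 true true false .dn 1 1 2
    ndB0q1 ndB1q1 pcB2 Cut.none Ext.none :=
  certB1 (fam := true) (s1 := true) (s2 := false) (a := 1) (b := 1) (c := 2) (cn := .dn) (n1 := ndB0q1) (n2 := ndB1q1) (pc := pcB2) (cut := Cut.none) (xt := Ext.none) (P1 := 536870912) (W1 := 536870912) (P2 := 536870912) (W2 := 536870912) (P3 := 536870912) (W3 := 50465866) (N0 := 3) (En := eng) (mo := mog) (C1 := cd0q1) (C2 := cd1q1) (C3 := pd2)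
    rfl (fun _ => rfl) s24_pm_112

noncomputable def f_pm_113 : ℕ → ℕ → ℕ → ℕ → Bool := onCell 536870912 536870912 536870912 536870912 536870912 50465866
    (rowB 3 eng mog cd0q1 cd1q1 pd3 0 true true false .nn 1 1 3 (qsf 536870912 536870912 536870912 536870912 3) ndB0q1 ndB1q1 pcB3 Cut.none Ext.none)

def k0_pm_113 : ∃ t, chk3 f_pm_113 t 1 1 1 = true :=
  ⟨(a (b (a (l 1) (b (l 1) (a (l 1) (b (l 1) (l 85396373815))))) (a (b (a (l 1) (b (l 1) (l 16752040))) (a (b (a (l 1) (l 136398590407)) (b (l 95596300487) (a (l 16566296) (l 16648384)))) (b (a (l 16737144) (l 16799792)) (a (a (l 16711104) (l 16745424)) (l 16789320))))) (b (a (b (l 16842456) (l 16891288)) (b (l 16967016) (l 16975288))) (a (b (l 16876144) (a (l 16836896) (l 16876672))) (b (l 16945536) (b (l 16924048) (l 16909648))))))) (b (a (b (a (l 1) (b (l 1) (l 73584938343))) (a (b (l 91838834951) (a (l 17050424) (l 17108440))) (b (a (l 17001464) (l 17007720)) (a (l 17133024) (l 17093648))))) (b (a (a (b (l 1) (l 16863600)) (b (b (l 1) (l 16745216)) (b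 (l 16825520) (l 16893008)))) (b (a (b (l 79490366375) (l 16770688)) (b (a (l 16719032) (l 16711392)) (a (l 16764312) (l 16753168)))) (a (b (l 16829544) (l 16864728)) (b (c (l 16814888) (l 16795112)) (l 16795168))))) (a (a (b (l 16986760) (l 17058112)) (b (b (l 16944288) (l 16992344)) (l 17028176))) (b (a (b (l 16915536) (l 16974456)) (l 16942632)) (a (l 17005072) (l 16984080)))))) (a (b (a (a (l 16919192) (l 17032360)) (b (l 17084328) (l 17017072))) (a (b (l 16961984) (a (l 16926144) (l 16921504))) (b (l 16962008) (a (l 16915480) (l 16909432))))) (b (b (a (a (l 17066448) (l 17028352)) (a (l 16997792) (l 16968752))) (a (l 17031464) (a (l 16971552) (l 16935320)))) (a (b (l 17019680) (l 16892392)) (b (a (l 16927408) (b (l 16901512) (l 16875808))) (a (l 16856320) (b (l 16842776) (a (l 16816968) (b (l 16809112) (a (b (l 16800832) (l 16792744)) (b (l 16940304) (a (a (l 16788224) (l 16890528)) (b (l 16805176) (a (l 16780880) (b (l 16779184) (l 4))))))))))))))))), by decide +kernel⟩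

theorem c_pm_113 : CertB 536870912 536870912 536870912 536870912 536870912 50465866 3 eng mog cd0q1 cd1q1 pd3 true true false .nn 1 1 3
    ndB0q1 ndB1q1 pcB3 Cut.none Ext.none :=
  certB0 (fam := true) (s1 := true) (s2 := false) (a := 1) (b := 1) (c := 3) (cn := .nn) (n1 := ndB0q1) (n2 := ndB1q1) (pc := pcB3) (cut := Cut.none) (xt := Ext.none) (P1 := 536870912) (W1 := 536870912) (P2 := 536870912) (W2 := 536870912) (P3 := 536870912) (W3 := 50465866) (N0 := 3) (En := eng) (mo := mog) (C1 := cd0q1) (C2 := cd1q1) (C3 := pd3)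
    rfl k0_pm_113

end Pool.Agent.Strip051.G.I5000_5470.Tab.C.BA01

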