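import Pool.Agent.Strip051.G.I5000_5470.Tab
import Pool.Agent.Strip051.PB.ExtD2

/-! # Certificates B5 (generated) -/

set_option linter.all false
set_option maxRecDepth 100000

namespace Pool.Agent.Strip051.G.I5000_5470.Tab.C.BA01

open Pool.Agent.Strip051.PB Pool.Agent.Strip051.PB.T
open Pool.Agent.Strip051.G.I5000_5470.Tab

noncomputable def cut_pm_123_a : Cut := Cut.of [[⟨0, 1, 0, 67108864⟩, ⟨1, 1, 0, 67108864⟩, ⟨2, 2, 0, 16777216⟩], [⟨0, 0, 1, 20971520⟩, ⟨1, 1, 0, 33554432⟩, ⟨2, 1, 1, 20971520⟩]]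

noncomputable def xt_pm_123_a : Ext := extD2 3 ⟨7, 3, 3, 10, 1741, 1000, 23, 25, 19, 50, 3, 16⟩ eng cd0q1 cd1q2a pd3 true true false .npn 1 2 3 rfl ndB0q1 ndB1q2a pcB3

noncomputable def f_pm_123_a : ℕ → ℕ → ℕ → ℕ → Bool := onCell 1610612736 536870912 0 536870912 536870912 50465866
    (rowB 3 eng mog cd0q1 cd1q2a pd3 2 true true false .npn 1 2 3 (qsf 536870912 536870912 0 536870912 3) ndB0q1 ndB1q2a pcB3 cut_pm_123_a xt_pm_123_a)

def k0_pm_123_a : ∃ t, chk3 f_pm_123_a t 4 2 1 = true :=
  ⟨(a (l 1) (b (l 1) (a (l 1) (b (l 1) (l 16640832))))), by decide +kernel⟩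

def k1_pm_123_a : ∃ t, chk3 f_pm_123_a t 8 6 1 = true :=
  ⟨(l 1), by decide +kernel⟩

def k2_pm_123_a : ∃ t, chk3 f_pm_123_a t 8 14 1 = true :=
  ⟨(a (l 1) (b (a (l 1) (b (l 1) (l 16570448))) (a (a (l 16561368) (l 16574360)) (a (l 16567312) (c (l 16628088) (l 16573864)))))), by decide +kernel⟩

def k3_pm_123_a : ∃ t, chk3 f_pm_123_a t 32 30 1 = true :=
  ⟨(l 1), by decide +kernel⟩

def k4_pm_123_a : ∃ t, chk3 f_pm_123_a t 32 62 1 = true :=
  ⟨(a (l 1) (b (l 141770169902596111) (c (l 141904310368272399) (l 141740208190046223)))), by decide +kernel⟩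

def k5_pm_123_a : ∃ t, chk3 f_pm_123_a t 64 63 1 = true :=
  ⟨(a (b (l 1) (c (b (l 141928430907310095) (c (l 14) (b (l 141904379077459983) (c (l 14) (b (l 141891047492239375) (a (b (l 141887955114639375) (b (l 141890291577421839) (a (l 141888023833919503) (l 141918329125470223)))) (c (l 14) (a (l 141889466942390287) (l 141897369684541455))))))))) (b (l 141748866843623439) (b (c (l 141811745186693135) (l 141715675322073103)) (c (b (l 141910220198920207) (c (a (a (l 141838545791877135) (l 141846036217069583)) (a (l 141853664081231887) (l 141906440641642511))) (a (l 141794152992768015) (l 141853938941870095)))) (b (l 141722615990976527) (c (a (l 141745224707080207) (l 141759380923482127)) (l 141747148836175887)))))))) (b (b (l 141819441777999887) (l 141844799271125007)) (c (c (l 14) (c (l 14) (b (l 141893246517510159) (b (l 141913175170678799) (b (l 141923139497263119) (a (a (b (l 141915786510893071) (c (l 14) (l 141907059133513743))) (l 14)) (l 14))))))) (b (l 141776835678830607) (b (c (l 141841844326285327)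 (l 141743644157313039)) (c (b (c (l 141875104564510735) (l 141826176278544399)) (b (a (l 141847273165996047) (l 141863147369725967)) (a (c (a (l 141870775235887119) (l 141878746697531407)) (l 141825489083301903)) (a (c (l 141909395586498575) (l 141837240117248015)) (c (c (l 141907471448227855) (l 141882732427214863)) (l 141845211578843151)))))) (b (l 141751065862701071) (c (a (l 141774086895812623) (l 141789136465608719)) (a (l 141723165744988175) (l 141737734278299663)))))))))), by decide +kernel⟩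

def k6_pm_123_a : ∃ t, chk3 f_pm_123_a t 65 63 1 = true :=
  ⟨(b (c (b (l 141950352429072399) (l 141981344920780815)) (b (l 141775186412470287) (l 141798688479445007))) (b (c (a (l 141994676501987343) (l 14)) (a (l 141806659940319247) (l 141838477067026447))) (c (l 14) (a (b (c (l 141873798892142607) (l 141773399699324943)) (c (b (c (l 141908089922830351) (l 141858062124941327)) (c (c (l 14) (a (a (l 141889466937933839) (l 141897850716504079)) (a (l 141906371934044175) (l 14)))) (a (a (l 141851808650575887) (l 141859986270650383)) (a (l 141902042592788495) (a (l 141874623523356687) (l 141878815412649999)))))) (b (l 141781371160674319) (c (a (l 141804735791317007) (b (l 141819373044088847) (l 141822190543372303))) (a (l 141752715128569871) (l 141768245734752271)))))) (b (c (l 141907677603774479) (l 141805010667601935)) (c (c (l 14) (b (l 141891940836573199) (a (a (a (l 141883144740896783) (l 141887405349666831)) (a (l 141936814654668815) (l 141941143982931983))) (c (l 14) (a (l 141889673091907599)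 (l 141898537906880527)))))) (b (l 141903554399436815) (c (a (a (l 141833185662795791) (l 141841569441333263)) (a (l 141850021939363855) (l 141858680595857423))) (a (l 141784188657909775) (l 141800612617486351)))))))))), by decide +kernel⟩

def k7_pm_123_a : ∃ t, chk3 f_pm_123_a t 33 15 1 = true :=
  ⟨(b (b (a (l 1) (l 16577232)) (b (a (l 1) (l 16588192)) (a (l 141772094049370127) (l 141837102690631695)))) (b (a (b (l 141829680985260047) (c (l 141870431691915279) (l 141799238236651535))) (b (l 141898881515995151) (c (l 141874211297968143) (l 141866858219585551)))) (b (a (c (b (l 141928568384012303) (l 141968013373538319)) (b (l 141837789872996367) (l 141863765841920015))) (c (b (l 141931729514709007) (l 142060853421359119)) (b (l 141908845830897679) (l 141937226982277135)))) (c (b (a (a (l 142051301380309007) (l 142054325055078415)) (a (l 142078102011396111) (l 142099611224424463))) (c (a (c (a (c (b (l 142403901076209807) (a (l 14) (l 142446782038966415))) (l 14)) (b (l 142460869532041359) (b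 (l 142476056540102799) (a (l 142463961910411407) (l 142508423420346511))))) (l 14)) (a (b (a (l 142462793675112591) (l 142506842868072591)) (a (c (l 142547318651338895) (l 14)) (c (l 142590818088386703) (b (l 142457777150541967) (l 142377856401571983))))) (b (l 142571920224845967) (a (c (l 142633836488982671) (l 142416751632515215)) (l 142613358078296207))))) (l 14))) (b (a (a (l 141872287058984975) (l 141908158635655183)) (a (l 141991240493301775) (l 141986086543179791))) (c (c (l 14) (a (a (b (l 141917779367231503) (b (l 141927812413440015) (a (a (c (l 14) (l 141907471441362959)) (l 14)) (l 14)))) (l 14)) (l 14))) (b (a (a (l 141838614501113871) (l 141874142480384015)) (a (l 141911869483368463) (l 141951451912585231))) (a (a (b (c (l 141874554799521807) (l 141820335112929295)) (b (a (l 141843287426629647) (l 141860948337065999)) (c (a (a (l 141868988520218639) (l 141877853335207951)) (a (l 141886924308643855) (l 141929805264666639))) (a (l 141818892003409935) (l 141881426732105743))))) (b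 (c (l 141911251010224143) (l 141855863092215823)) (c (c (l 14) (a (a (l 141889947965358095) (l 141899293816750095)) (a (l 141908708387651599) (l 14)))) (a (a (l 141848303947628559) (l 141857374921064463)) (a (l 141866583333470223) (l 141920940442124303)))))) (c (l 14) (a (b (l 141893315217244175) (a (b (l 141888504852561935) (a (l 141886924304154639) (l 141941556290781199))) (c (l 14) (a (l 141890154119331855) (l 141899912287666191))))) (b (l 141932828927033359) (b (l 141937982889164815) (a (c (l 14) (l 141916473686016015)) (l 14)))))))))))))), by decide +kernel⟩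

def k8_pm_123_a : ∃ t, chk3 f_pm_123_a t 17 30 1 = true :=
  ⟨(a (a (b (l 16585136) (l 141973579587354639)) (b (l 16600344) (a (l 141923002076037135) (l 141825145555828751)))) (a (b (l 16572288) (b (l 16585864) (l 141979283372834831))) (b (l 16584896) (b (l 16577672) (l 142490762464657423))))), by decide +kernel⟩

def k9_pm_123_a : ∃ t, chk3 f_pm_123_a t 17 31 1 = true :=
  ⟨(a (b (b (a (l 141900805690343439) (l 141890978836103183)) (a (c (l 142048277764931599) (l 141940525517471759)) (b (l 141946435468525583) (l 141984506068631567)))) (b (a (b (l 142032609680965647) (a (l 142027455721947151) (l 142115073071038479))) (b (l 142203102734106639) (l 142107582628741135))) (a (b (a (c (b (l 142491380975026319) (l 142511240908750991)) (l 142027593118056463)) (c (l 142585526676357263) (l 14))) (c (b (a (a (l 142509866520199311) (l 142552610042773647)) (l 142345489551736975)) (c (a (l 142541614913601679) (l 142759318274441359)) (a (c (a (l 142466916837720207) (l 142510210116239503)) (l 14)) (c (l 142484096727122063)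 (a (l 14) (l 142470833843503247)))))) (l 14))) (a (c (b (l 142667715185852559) (b (l 142517975453778063) (c (l 142839926235807887) (a (l 142395173678891151) (l 142617000200568975))))) (l 14)) (b (c (l 142747910830096527) (l 142077620941897743)) (c (c (l 142908302127284367) (b (l 142657819575976079) (c (l 142738977297301647) (l 142617893551325327)))) (c (b (l 142413178182811791) (c (a (l 142474613410414735) (l 142516669738057871)) (l 14))) (l 14)))))))) (b (a (b (l 142411597620527119) (c (l 142726882655469711) (l 142243097428295695))) (b (l 142564154885980175) (c (l 142874217240035471) (l 142403351276994575)))) (c (b (a (b (l 142784607031263375) (l 142824120740823183)) (b (l 142932560091562127) (l 142972554837737615))) (a (b (c (l 142981694539104399) (l 142746330276216975)) (a (c (l 142984855638687887) (a (l 142728600650956943) (l 142768183076946063))) (a (l 142744543568674959) (l 142962453079376015)))) (b (l 142833123030302863) (a (c (l 143132327663206543) (l 142903079434879119)) (l 143090889805250703)))))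 (b (a (b (l 142302608510844943) (l 141983200393641999)) (b (l 142464030591123471) (l 142505605885542415))) (b (a (a (l 142072947990364175) (l 142246464727515151)) (a (l 142327828602994831) (l 142407337052209295))) (c (a (a (b (l 142497015960060047) (a (c (l 142558245029249167) (l 14)) (c (l 142599270564528271) (l 142478324257931407)))) (b (l 142578860872073359) (a (a (l 142569721181503631) (l 142590130869895311)) (l 142620436164788367)))) (a (a (a (l 142639746340552847) (l 142659606273015951)) (l 142689224372977807)) (b (l 142736709539381391) (l 142758424899715215)))) (a (l 14) (a (c (b (l 142480523275206799) (a (l 142481897666592911) (l 142522785762836623))) (l 14)) (b (l 142502101192474767) (b (l 142338548842168463) (c (l 142588756473151631) (a (l 14) (l 142490968634917007))))))))))))), by decide +kernel⟩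

def k10_pm_123_a : ∃ t, chk3 f_pm_123_a t 9 6 1 = true :=
  ⟨(a (b (l 1) (a (b (l 1) (l 16566616)) (a (l 16589088) (l 16609968)))) (b (l 16639936) (b (l 16647072) (l 16663952)))), by decide +kernel⟩

def k11_pm_123_a : ∃ t, chk3 f_pm_123_a t 9 14 1 = true :=
  ⟨(a (b (a (b (l 16585480) (l 16599560)) (l 16633088)) (a (a (b (l 16605064) (l 16621728)) (l 16632592)) (c (l 16686104) (l 16637288)))) (b (a (l 16669312) (l 16700768)) (a (l 16695832) (l 16726152)))), by decide +kernel⟩

def k12_pm_123_a : ∃ t, chk3 f_pm_123_a t 9 30 1 = true :=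
  ⟨(a (a (b (a (c (l 16665832) (l 16613008)) (l 16657784)) (a (a (l 142564154874822671) (a (l 142619680222183439) (l 142664347891941391))) (l 142774711396171791))) (b (l 16685536) (a (l 142943142870990991) (l 16690624)))) (a (b (l 16718624) (a (l 16727592) (l 16742544))) (c (l 16776352) (b (l 16726624) (l 16742304))))), by decide +kernel⟩

def k13_pm_123_a : ∃ t, chk3 f_pm_123_a t 9 62 1 = true :=
  ⟨(a (b (a (a (a (l 142673899909726223) (l 142751759092056079)) (l 142882394846150799)) (a (l 143047459065659535) (l 143198367070650447))) (a (a (a (l 142751346781225103) (c (l 143053987424600207) (l 142600438772973711))) (c (l 143175002450100367) (l 142737465439240335))) (a (c (l 143324192468074575) (l 142908783132213391)) (l 143264956263055439)))) (c (a (b (l 16770520) (l 16758472)) (l 16800296)) (a (a (l 143181874391269519) (l 143323505263853647)) (b (l 16754616) (l 143553646842855503))))), by decide +kernel⟩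

def k14_pm_123_a : ∃ t, chk3 f_pm_123_a t 9 63 2 = true :=
  ⟨(a (a (a (b (a (l 143058935233937551) (l 143132602527547535)) (a (b (l 143120026865270927) (l 143161808318349455)) (b (l 143193488000483471) (c (l 143342334424268943) (a (l 143104702417322127) (l 143144491003281551)))))) (b (l 143069999110701199) (b (l 143126555256193103) (a (l 143308112116203663) (l 143379099352449103))))) (b (a (l 143393049404145743) (l 143525059550019663)) (a (b (l 143445688538923087) (c (l 143579279236726991) (l 143383016319320143))) (b (l 143576393014231119) (l 143611508677066959))))) (a (b (l 143708884192985295) (a (l 143716580780163279) (l 143831892088389839))) (a (l 143908445600727247) (l 144011112521793743)))), by decide +kernel⟩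

def k15_pm_123_a : ∃ t, chk3 f_pm_123_a t 9 63 3 = true :=
  ⟨(a (a (a (b (a (l 142601125973901455) (b (l 142661805282230415) (l 142703861613232271))) (a (b (l 142665035104223375) (c (l 142823708413853839) (b (l 142581678361231503) (a (b (l 142578654704959631) (l 142589855939641487)) (l 142623665970970767))))) (b (a (l 142543882677911695) (l 142769351290765455)) (a (c (a (l 142870575105687695) (l 142891809428521103)) (b (l 142552128997703823) (a (a (l 142648061389717647) (l 142658369313243279)) (l 142675549186146447)))) (b (l 142801305856032911) (b (l 142817042620530831) (c (l 142939088439935119) (a (l 142703449300123791) (a (l 142720148136640655) (l 142731211953373327)))))))))) (a (b (l 142773543176568975) (b (c (l 142945616788603023) (l 142723515388625039)) (b (l 142865627300577423) (b (l 142700769280163983) (c (l 143000592385507471) (b (l 142778009948668047) (a (c (l 142817111340351631) (a (l 142694103448961167) (c (l 142744406117204111) (l 142688399730884751)))) (c (l 142859923583828111)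 (b (l 142748254408392847) (c (l 142778628424171663) (a (l 142712039236108431) (l 142734235631927439)))))))))))) (b (l 142860267175182479) (b (l 142919091063701647) (b (l 142948915324928143) (c (l 143075634070700175) (b (l 142856212729938063) (b (l 142863978032922767) (c (l 142923076775395471) (a (a (l 142782407985119375) (l 142804123355234447)) (l 142836421516312719))))))))))) (b (a (l 142983206346424463) (l 143138787276144783)) (b (a (l 142860335938011279) (l 143194587506704527)) (a (a (b (l 143030004325433487) (a (c (l 143134251797479567) (l 142924382466031759)) (l 143069724149907599))) (c (l 143219532686573711) (l 143016604023292047))) (c (l 143329346434695311) (a (l 143095975036059791) (l 143173284463968399))))))) (b (a (a (l 143285915708014671) (l 143425072678436943)) (a (l 143556739223846991) (l 143681258941743311))) (a (a (c (l 143360338944163919) (b (l 143247364073570447) (l 143285365954379919))) (c (l 143582509041025231) (b (l 143390644212842575) (c (l 143471389618864335) (l 143383703544463503)))))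 (b (a (l 143608759881629903) (l 143732111367930063)) (c (l 143784406907437263) (a (l 143562511661859023) (l 143690123756093647))))))), by decide +kernel⟩

def k16_pm_123_a : ∃ t, chk3 f_pm_123_a t 10 1 1 = true :=
  ⟨(b (b (a (b (l 16718128) (l 16706096)) (b (l 16742920) (l 16755960))) (a (b (l 16698056) (l 16696528)) (b (l 16731568) (l 16797904)))) (b (b (a (l 16700240) (l 16743288)) (a (b (l 16706968) (l 16721728)) (b (l 16753272) (l 16766416)))) (b (a (b (b (l 16736048) (l 16746648)) (a (l 16752672) (l 16775712))) (b (b (l 16779176) (l 16788224)) (a (l 16795360) (l 16812632)))) (b (a (a (b (l 16772800) (l 16787360)) (b (l 16794312) (c (l 16826160) (l 16790064)))) (a (b (l 16813240) (l 16826336)) (b (l 16829888) (l 16842960)))) (b (a (c (a (l 144035507933987023) (l 16840720)) (a (a (l 143703936368115919) (l 143816705052639439)) (a (l 143924800811352271) (l 144028773400182991)))) (a (a (b (l 16832544) (l 16819080)) (l 16823968)) (c (l 16873120) (l 16841576)))) (a (c (a (b (l 144123125291401487)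 (l 144184904117977359)) (b (l 16852200) (a (l 144321312307544335) (l 16864704)))) (a (a (b (l 143798494393139407) (b (l 143848590904688847) (a (l 143854294624321743) (l 143910988203983055)))) (b (l 143910644601766095) (b (l 143960053918171343) (a (l 143966788430135503) (l 144022038900261135))))) (a (b (l 144018534201557199) (b (l 144068836871110927) (a (l 144076602175389967) (c (l 144192600680988943) (l 144070967170138383))))) (a (b (l 144098248809955599) (b (l 144153568001261839) (l 144197617194418447))) (b (a (l 144140167698268431) (l 144170954028777743)) (l 144243315652083983)))))) (a (c (l 144569252214767951) (b (l 144319181961691407) (a (l 144343302505185551) (l 144470364836069647)))) (c (l 16888264) (a (l 144547742976344399) (l 16860432)))))))))), by decide +kernel⟩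

def k17_pm_123_a : ∃ t, chk3 f_pm_123_a t 11 1 1 = true :=
  ⟨(b (b (a (b (a (l 16753216) (l 16760280)) (b (l 16751968) (l 16750432))) (b (a (l 16766536) (l 16770904)) (a (l 16763528) (l 16769720)))) (a (b (l 16752240) (l 16760248)) (b (l 16770520) (l 16842520)))) (b (b (a (l 16773976) (l 16794696)) (a (b (l 16787032) (a (l 16792288) (l 16806328))) (b (l 16809184) (a (l 16816760) (l 16826024))))) (b (a (b (a (l 16808296) (l 16821888)) (a (l 16827856) (c (l 16855096) (l 16828336)))) (a (b (l 16832936) (l 16852176)) (b (l 16841800) (l 16860208)))) (b (a (b (a (l 16845096) (l 16858448)) (a (l 16858064) (l 16870376))) (a (l 16873808) (l 16879904))) (a (b (c (l 16912680) (a (l 16856832) (l 16869184))) (c (l 16905504) (a (l 16870944) (l 16881752)))) (c (l 16910672) (a (l 16883520) (l 16887968)))))))), by decide +kernel⟩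

def k18_pm_123_a : ∃ t, chk3 f_pm_123_a t 6 2 1 = true :=
  ⟨(a (b (a (b (a (b (l 16773992) (l 16773176)) (b (a (l 16774960) (l 16775280)) (l 16774808))) (a (l 16773784) (l 16776112))) (b (b (a (b (a (a (l 16775576) (l 36742107191)) (b (a (b (l 112977771815) (l 71101843479)) (l 4)) (a (l 16775656) (l 65196256599)))) (a (l 16775248) (l 16775288))) (b (a (b (l 4) (a (l 111904019127) (l 4))) (l 4)) (a (b (a (l 16775848) (l 82376119799)) (l 16775360)) (b (l 4) (a (l 84523603239) (l 114051512631)))))) (a (a (l 16775328) (l 16775400)) (a (l 16775320) (b (l 16772656) (l 16775272))))) (a (l 16757576) (b (l 16776296) (l 16778592))))) (b (a (b (l 16778496) (l 16782712)) (b (l 16782232) (a (l 16786816) (l 16788360)))) (a (l 16791968) (b (l 16794560) (l 16802824))))) (b (a (b (b (l 4) (a (b (a (a (l 78618026887) (l 118346479943)) (l 168275488263)) (a (l 16775120) (b (l 81302385383) (l 16765024)))) (b (l 4) (a (b (l 4) (l 103314093671)) (l 4))))) (a (b (l 16775664) (l 16778160)) (a (b (l 29225903607) (l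 16777224)) (b (b (b (l 129083894391) (l 64659382007)) (l 16775064)) (l 16776376))))) (b (l 4) (a (b (b (l 4) (a (a (l 16765968) (l 80765513639)) (b (l 4) (l 112977768935)))) (a (b (l 16775048) (l 16776200)) (b (b (l 56606325207) (l 16775280)) (l 16775496)))) (b (l 4) (a (b (b (l 4) (l 70028090215)) (l 63585648167)) (b (l 4) (a (l 16774216) (l 107609046535)))))))) (a (b (a (l 16806416) (b (l 16780968) (l 16786760))) (b (a (l 16795832) (l 16794168)) (a (l 16804272) (l 16802328)))) (b (a (a (b (l 16779208) (l 16784680)) (b (l 16778280) (l 16783848))) (b (a (l 16777240) (b (l 16775624) (l 16777048))) (a (l 16782880) (l 16781424)))) (a (b (l 16812328) (b (l 16828776) (l 16801376))) (b (l 16789480) (l 16776840))))))), by decide +kernel⟩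

def k19_pm_123_a : ∃ t, chk3 f_pm_123_a t 6 3 1 = true :=
  ⟨(b (a (b (a (l 16808824) (a (l 16815280) (l 16817624))) (a (b (l 16823960) (a (l 16833456) (l 16838856))) (b (l 16831576) (l 16842184)))) (a (b (b (l 16812272) (l 16820472)) (b (l 16849808) (a (l 16839720) (l 16834960)))) (b (a (b (l 16807240) (l 16814312)) (b (l 16804368) (l 16810552))) (a (b (l 16821392) (l 16828984)) (b (l 16816824) (l 16823640)))))) (a (b (a (b (c (l 16861008) (l 16841416)) (c (l 16877056) (l 16856752))) (b (a (l 16853992) (l 16852840)) (a (l 16867336) (l 16864240)))) (a (b (a (l 16882928) (l 16883200)) (a (l 16900408) (l 16898160))) (b (a (l 16880624) (l 16876560)) (a (l 16894608) (l 16889472))))) (b (b (a (a (l 16849016) (l 16843688)) (a (a (l 16838928) (l 16835768)) (b (l 16829392) (l 16833752)))) (a (a (l 16859608) (l 16853896)) (a (l 16847688) (l 16842208)))) (b (a (a (l 16871376) (l 16865728)) (a (b (l 16856736) (l 16863416)) (b (l 16851480) (l 16858520)))) (a (a (l 16884744) (l 16880040)) (a (l 16874872)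 (l 16869960))))))), by decide +kernel⟩

def k20_pm_123_a : ∃ t, chk3 f_pm_123_a t 14 1 1 = true :=
  ⟨(b (b (l 4) (a (b (a (b (b (a (l 69491226807) (l 4)) (a (l 16775888) (l 57680066183))) (a (l 16779576) (l 16777560))) (b (a (b (l 4) (l 133915728855)) (l 4)) (a (l 51237617783) (b (l 112977764151) (l 16777056))))) (a (b (l 16764584) (l 16793488)) (b (a (l 16781688) (l 16758016)) (l 16788008)))) (b (a (b (l 4) (a (b (l 4) (l 108145952071)) (l 4))) (l 4)) (a (b (a (b (l 16777072) (l 16777848)) (b (l 108145955943) (l 16777056))) (a (l 16783384) (l 16780208))) (b (a (b (l 4) (l 124252053767)) (l 4)) (a (b (l 59827560407) (l 16778800)) (b (l 150021878727) (l 77544309943)))))))) (b (a (b (a (b (l 16800696) (l 16806200)) (b (l 16795512) (l 16800640))) (b (a (l 16812048) (l 16806776)) (a (l 16818608) (l 16813528)))) (b (b (a (l 16783640) (a (l 16783944) (l 16780480))) (a (a (l 16796816) (l 16772992)) (a (l 16790624) (l 16787264)))) (b (a (l 16801352) (a (l 16797064) (l 16789160))) (a (l 16808256) (l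 16802928))))) (b (a (b (a (b (l 16824400) (l 16828728)) (l 16821640)) (a (l 16837296) (l 16832344))) (a (b (l 16816528) (l 16826832)) (b (l 16831856) (b (l 16817776) (l 16822912))))) (a (a (b (l 16850280) (l 16864496)) (b (l 16844848) (l 16878880))) (b (a (b (l 16835504) (l 16841248)) (b (l 16827936) (l 16832776))) (a (b (l 16846776) (l 16851880)) (b (l 16837088) (l 16840864)))))))), by decide +kernel⟩

def k21_pm_123_a : ∃ t, chk3 f_pm_123_a t 15 2 1 = true :=
  ⟨(a (b (l 4) (a (b (l 4) (b (l 4) (a (b (l 4) (l 194582164215)) (l 4)))) (l 4))) (l 4)), by decide +kernel⟩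

def k22_pm_123_a : ∃ t, chk3 f_pm_123_a t 15 6 1 = true :=
  ⟨(b (a (a (b (a (b (a (l 16776896) (l 140895085383)) (l 16778464)) (b (a (l 231089365719) (l 4)) (a (l 16776640) (l 178476050215)))) (a (l 16783792) (a (l 16780952) (l 16778936)))) (b (l 4) (a (b (a (l 120493983927) (l 232699979527)) (a (l 16778632) (l 16777008))) (b (l 4) (a (l 190287215383) (l 4)))))) (l 4)) (a (a (b (a (l 16791528) (l 16787792)) (a (l 16798480) (b (l 16793416) (l 16797128)))) (b (a (l 16783528) (a (l 16779984) (b (a (l 16776632) (l 190287208695)) (l 16779392)))) (a (b (l 16789800) (l 16793400)) (b (l 16784952) (a (l 16790624) (l 16787984)))))) (a (a (a (b (b (b (l 4) (l 289071426711)) (a (l 16777416) (l 137673857607))) (l 16783128)) (b (b (l 4) (a (l 245584904951) (l 401277446839))) (b (a (l 16778648) (l 16787616)) (l 16782048)))) (b (l 4) (a (b (a (b (l 337389809815) (l 16776560)) (b (l 4) (l 364770226807))) (b (l 107072215735) (l 16779344))) (b (l 4) (a (b (l 318599328775) (l 16777008)) (b (l 4) (l 329336747335)))))))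 (l 4)))), by decide +kernel⟩

def k23_pm_123_a : ∃ t, chk3 f_pm_123_a t 15 7 1 = true :=
  ⟨(b (b (a (a (b (l 16802416) (l 16806208)) (a (l 16798720) (b (a (l 16793888) (l 16791616)) (l 16795744)))) (a (a (b (a (l 16789248) (l 16786080)) (a (l 16791936) (l 16789144))) (a (b (l 16782400) (l 16802016)) (b (a (l 16779664) (l 16788320)) (l 16793064)))) (a (a (b (a (b (c (l 339537295303) (l 358327776311)) (l 16787592)) (a (a (l 378728881751) (l 440469025655)) (l 4))) (a (l 16779760) (b (c (l 16787712) (l 16787640)) (l 16778648)))) (b (l 4) (a (a (b (b (l 4) (l 16776432)) (l 16777280)) (b (l 4) (l 16787192))) (a (b (l 4) (l 265449119911)) (l 4))))) (l 4)))) (a (a (a (l 16814792) (l 16810424)) (a (l 16805776) (l 16800600))) (a (a (l 16794984) (a (l 16811256) (b (a (l 16786432) (l 16784480)) (l 16788168)))) (b (a (a (a (l 16782616) (l 16780896)) (a (l 16779136) (a (l 16788272) (a (l 93650438135) (b (l 440469036295) (l 6)))))) (b (l 4) (l 6))) (a (a (a (l 16785296) (l 6)) (l 6)) (l 6)))))) (a (b (a (b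 (l 16818672) (l 16822360)) (b (l 16807656) (a (l 16813464) (l 16807128)))) (a (a (l 16830168) (l 16823776)) (b (a (l 16815992) (l 16809248)) (a (l 16818024) (l 16810904))))) (a (b (a (b (l 16798480) (l 16779536)) (b (l 16791992) (l 16793688))) (b (a (l 16802272) (l 16795120)) (a (l 16803616) (b (l 16795960) (l 16796392))))) (a (a (b (b (l 16786856) (l 16788440)) (b (l 16789664) (b (l 16790368) (l 16790704)))) (l 6)) (l 6))))), by decide +kernel⟩

theorem s24_pm_123_a : ∃ t, chk3 f_pm_123_a t 15 3 1 = true := ex3_b k22_pm_123_a k23_pm_123_a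

theorem s25_pm_123_a : ∃ t, chk3 f_pm_123_a t 15 1 1 = true := ex3_b k21_pm_123_a s24_pm_123_a

theorem s26_pm_123_a : ∃ t, chk3 f_pm_123_a t 7 1 1 = true := ex3_a k20_pm_123_a s25_pm_123_a

theorem s27_pm_123_a : ∃ t, chk3 f_pm_123_a t 6 1 1 = true := ex3_b k18_pm_123_a k19_pm_123_a

theorem s28_pm_123_a : ∃ t, chk3 f_pm_123_a t 3 1 1 = true := ex3_a s27_pm_123_a s26_pm_123_a

theorem s29_pm_123_a : ∃ t, chk3 f_pm_123_a t 5 1 1 = true := ex3_a k16_pm_123_a k17_pm_123_a

theorem s30_pm_123_a : ∃ t, chk3 f_pm_123_a t 9 63 1 = true := ex3_c k14_pm_123_a k15_pm_123_a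

theorem s31_pm_123_a : ∃ t, chk3 f_pm_123_a t 9 31 1 = true := ex3_b k13_pm_123_a s30_pm_123_a

theorem s32_pm_123_a : ∃ t, chk3 f_pm_123_a t 9 15 1 = true := ex3_b k12_pm_123_a s31_pm_123_a

theorem s33_pm_123_a : ∃ t, chk3 f_pm_123_a t 9 7 1 = true := ex3_b k11_pm_123_a s32_pm_123_a

theorem s34_pm_123_a : ∃ t, chk3 f_pm_123_a t 9 3 1 = true := ex3_b k10_pm_123_a s33_pm_123_a

theorem s35_pm_123_a : ∃ t, chk3 f_pm_123_a t 17 15 1 = true := ex3_b k8_pm_123_a k9_pm_123_a

theorem s36_pm_123_a : ∃ t, chk3 f_pm_123_a t 32 63 1 = true := ex3_a k5_pm_123_a k6_pm_123_a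

theorem s37_pm_123_a : ∃ t, chk3 f_pm_123_a t 32 31 1 = true := ex3_b k4_pm_123_a s36_pm_123_a

theorem s38_pm_123_a : ∃ t, chk3 f_pm_123_a t 32 15 1 = true := ex3_b k3_pm_123_a s37_pm_123_a

theorem s39_pm_123_a : ∃ t, chk3 f_pm_123_a t 16 15 1 = true := ex3_a s38_pm_123_a k7_pm_123_a

theorem s40_pm_123_a : ∃ t, chk3 f_pm_123_a t 8 15 1 = true := ex3_a s39_pm_123_a s35_pm_123_a

theorem s41_pm_123_a : ∃ t, chk3 f_pm_123_a t 8 7 1 = true := ex3_b k2_pm_123_a s40_pm_123_a

theorem s42_pm_123_a : ∃ t, chk3 f_pm_123_a t 8 3 1 = true := ex3_b k1_pm_123_a s41_pm_123_a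

theorem s43_pm_123_a : ∃ t, chk3 f_pm_123_a t 4 3 1 = true := ex3_a s42_pm_123_a s34_pm_123_a

theorem s44_pm_123_a : ∃ t, chk3 f_pm_123_a t 4 1 1 = true := ex3_b k0_pm_123_a s43_pm_123_a

theorem s45_pm_123_a : ∃ t, chk3 f_pm_123_a t 2 1 1 = true := ex3_a s44_pm_123_a s29_pm_123_a

theorem s46_pm_123_a : ∃ t, chk3 f_pm_123_a t 1 1 1 = true := ex3_a s45_pm_123_a s28_pm_123_a

theorem c_pm_123_a : CertB 536870912 536870912 0 536870912 536870912 50465866 3 eng mog cd0q1 cd1q2a pd3 true true false .npn 1 2 3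
    ndB0q1 ndB1q2a pcB3 cut_pm_123_a xt_pm_123_a :=
  certB2 (fam := true) (s1 := true) (s2 := false) (a := 1) (b := 2) (c := 3) (cn := .npn) (n1 := ndB0q1) (n2 := ndB1q2a) (pc := pcB3) (cut := cut_pm_123_a) (xt := xt_pm_123_a) (P1 := 536870912) (W1 := 536870912) (P2 := 0) (W2 := 536870912) (P3 := 536870912) (W3 := 50465866) (N0 := 3) (En := eng) (mo := mog) (C1 := cd0q1) (C2 := cd1q2a) (C3 := pd3)
    rfl (fun _ => rfl) s46_pm_123_a

noncomputable def cut_pm_123_b : Cut := Cut.of [[⟨0, 1, 0, 67108864⟩, ⟨1, 1, 0, 67108864⟩, ⟨2, 2, 0, 16777216⟩], [⟨0, 0, 1, 20971520⟩, ⟨1, 1, 0, 33554432⟩, ⟨2, 1, 1, 20971520⟩]]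

noncomputable def f_pm_123_b : ℕ → ℕ → ℕ → ℕ → Bool := onCell 1610612736 536870912 1239849684 370763052 536870912 50465866
    (rowB 3 eng mog cd0q1 cd1q2b pd3 2 true true false .npn 1 2 3 (qsf 536870912 536870912 1239849684 370763052 3) ndB0q1 ndB1q2b pcB3 cut_pm_123_b Ext.none)

def k0_pm_123_b : ∃ t, chk3 f_pm_123_b t 1 1 1 = true :=
  ⟨(a (b (a (l 1) (b (a (b (a (b (l 16712512) (l 1)) (b (a (l 16732032) (l 16741176)) (l 16718504))) (l 1)) (b (a (b (a (l 16748328) (l 16754928)) (l 16738448)) (b (a (l 16760504) (l 16764632)) (a (l 16749832) (l 16756264)))) (a (b (l 16729568) (l 1)) (b (l 16748856) (l 16746920))))) (a (l 1) (a (l 1) (b (l 16745560) (l 1)))))) (l 1)) (a (b (a (b (b (a (b (a (b (l 16770696) (l 16765776)) (b (a (l 16772120) (l 16773344)) (l 16771304))) (a (l 16763168) (l 16772792))) (b (a (b (a (b (a (l 16775272) (b (l 85060484967) (l 16776880))) (l 16776448)) (l 4)) (l 88818586919)) (l 4)) (l 4))) (a (b (l 16769592) (l 16770456)) (l 4))) (b (a (l 4) (l 4)) (l 4))) (l 4)) (l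 4)) (l 4))), by decide +kernel⟩

theorem c_pm_123_b : CertB 536870912 536870912 1239849684 370763052 536870912 50465866 3 eng mog cd0q1 cd1q2b pd3 true true false .npn 1 2 3
    ndB0q1 ndB1q2b pcB3 cut_pm_123_b Ext.none :=
  certB2 (fam := true) (s1 := true) (s2 := false) (a := 1) (b := 2) (c := 3) (cn := .npn) (n1 := ndB0q1) (n2 := ndB1q2b) (pc := pcB3) (cut := cut_pm_123_b) (xt := Ext.none) (P1 := 536870912) (W1 := 536870912) (P2 := 1239849684) (W2 := 370763052) (P3 := 536870912) (W3 := 50465866) (N0 := 3) (En := eng) (mo := mog) (C1 := cd0q1) (C2 := cd1q2b) (C3 := pd3)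
    rfl (fun _ => rfl) k0_pm_123_b

noncomputable def f_pm_133 : ℕ → ℕ → ℕ → ℕ → Bool := onCell 536870912 536870912 1610612736 536870912 536870912 50465866
    (rowB 3 eng mog cd0q1 cd1q3 pd3 0 true true false .dn 1 3 3 (qsf 536870912 536870912 1610612736 536870912 3) ndB0q1 ndB1q3 pcB3 Cut.none Ext.none)

def k0_pm_133 : ∃ t, chk3 f_pm_133 t 1 1 1 = true :=
  ⟨(l 4), by decide +kernel⟩

theorem c_pm_133 : CertB 536870912 536870912 1610612736 536870912 536870912 50465866 3 eng mog cd0q1 cd1q3 pd3 true true false .dn 1 3 3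
    ndB0q1 ndB1q3 pcB3 Cut.none Ext.none :=
  certB0 (fam := true) (s1 := true) (s2 := false) (a := 1) (b := 3) (c := 3) (cn := .dn) (n1 := ndB0q1) (n2 := ndB1q3) (pc := pcB3) (cut := Cut.none) (xt := Ext.none) (P1 := 536870912) (W1 := 536870912) (P2 := 1610612736) (W2 := 536870912) (P3 := 536870912) (W3 := 50465866) (N0 := 3) (En := eng) (mo := mog) (C1 := cd0q1) (C2 := cd1q3) (C3 := pd3)
    rfl k0_pm_133

noncomputable def cut_pm_202 : Cut := Cut.of [[⟨0, 1, 0, 67108864⟩, ⟨1, 0, 0, 67108864⟩, ⟨2, 1, 0, 67108864⟩]]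

noncomputable def f_pm_202 : ℕ → ℕ → ℕ → ℕ → Bool := onCell 0 536870912 1073741824 536870912 536870912 50465866
    (rowB 3 eng mog cd0q2 cd1q0 pd2 1 true true false .pp 2 0 2 (qsf 0 536870912 0 536870912 2) ndB0q2 ndB1q0 pcB2 cut_pm_202 Ext.none)

def k0_pm_202 : ∃ t, chk3 f_pm_202 t 2 1 1 = true :=
  ⟨(b (a (b (l 1) (b (a (b (b (l 1) (l 16498968)) (a (l 16520584) (l 16522384))) (b (b (l 1) (l 16529144)) (b (l 16528448) (l 16466752)))) (a (a (b (l 16471384) (l 16488536)) (b (l 16471640) (l 16487144))) (b (l 16474480) (l 16507888))))) (b (b (l 1) (a (l 1) (a (l 1) (b (l 1) (b (l 1) (c (l 105796640375) (l 36003411559))))))) (b (b (c (a (a (l 16550632) (b (l 16490904) (l 16491928))) (a (b (l 16503416) (l 16505264)) (b (l 16517784) (b (l 16518880) (a (l 16516792) (b (l 16523456) (l 16524120))))))) (a (b (l 16487824) (l 16483872)) (a (l 68215711975) (b (l 16520776) (b (l 16515800) (a (l 16509416) (l 16558256))))))) (a (b (a (l 16478664) (l 16510608)) (l 16480800)) (a (b (l 16533144) (l 16496280))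 (b (a (l 16511528) (l 16539320)) (l 16508440))))) (a (b (l 16523864) (a (l 16487776) (l 16491296))) (b (a (l 16493056) (l 16502584)) (a (l 16497520) (l 16504752))))))) (b (a (a (b (b (a (l 16507056) (l 16504008)) (l 16543664)) (a (l 16548032) (l 16540472))) (b (b (l 16500584) (l 16513328)) (b (l 16524368) (l 16532272)))) (b (a (b (l 16540008) (l 16505648)) (a (l 16567144) (l 16570432))) (a (b (l 16511296) (l 16512728)) (b (l 16550760) (l 16503712))))) (b (a (a (a (l 16572720) (l 16559744)) (l 16539568)) (a (l 16508616) (l 16488184))) (a (a (b (l 16577232) (l 16576880)) (b (l 16539624) (l 16551024))) (b (l 16554240) (a (l 16531824) (l 16523344))))))), by decide +kernel⟩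

def k1_pm_202 : ∃ t, chk3 f_pm_202 t 3 4 1 = true :=
  ⟨(b (a (l 1) (a (b (l 1) (b (a (l 1) (l 6)) (b (a (l 1) (l 6)) (a (a (l 1) (b (l 16655712) (l 16652872))) (a (b (l 6) (l 16662920)) (l 16684896)))))) (b (l 6) (b (l 6) (b (l 6) (a (a (l 16684168) (l 16693928)) (a (l 16703320) (l 16733240)))))))) (a (a (b (l 1) (b (a (a (l 1) (l 16554584)) (a (l 52109594119) (a (l 16569776) (l 16568816)))) (b (a (a (l 16541064) (l 16549448)) (c (l 16561872) (l 16561040))) (a (c (l 16541080) (l 16541256)) (l 16557584))))) (b (b (a (l 1) (b (l 1) (a (l 16613944) (l 16623632)))) (a (b (a (l 1) (l 16599984)) (a (l 16586656) (l 16595648))) (a (b (l 16609296) (c (l 16605064) (l 16603328))) (b (c (l 16619112) (l 16617392)) (l 16613104))))) (b (a (a (b (l 16582560) (l 16620160)) (c (b (l 16591584) (l 16586192)) (l 16587872))) (a (b (l 16599368) (l 16594072)) (l 16604664))) (a (a (l 16592224) (l 16578632)) (l 16611184))))) (a (b (a (b (a (b (l 16638648) (c (l 16633824) (l 16632168))) (b (c (l 16670112) (l 16647608))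 (l 16642568))) (a (b (l 16627512) (l 16621664)) (l 16633288))) (b (a (b (l 16658216) (l 16651784)) (l 16695848)) (b (l 16671384) (l 16644560)))) (a (b (l 16659680) (l 16650304)) (b (a (l 16631528) (l 16640440)) (a (l 16621144) (l 16629400))))) (a (b (a (b (l 16689848) (l 16661296)) (b (c (l 16705552) (l 16682752)) (l 16712128))) (b (a (l 16649064) (l 16657384)) (a (l 16637376) (l 16645032)))) (b (a (b (b (l 16696120) (l 16689064)) (l 16678712)) (b (b (l 16704848) (l 16697544)) (l 16718264))) (b (a (l 16665328) (l 16672840)) (a (l 16652368) (l 16680528)))))))), by decide +kernel⟩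

def k2_pm_202 : ∃ t, chk3 f_pm_202 t 3 5 1 = true :=
  ⟨(a (b (b (b (a (a (l 16577472) (l 16571616)) (a (l 16586512) (l 16583096))) (c (a (b (l 16562288) (b (l 16541408) (a (l 16533856) (l 16547976)))) (b (a (l 16565232) (l 16581824)) (a (a (l 16643144) (l 16671880)) (a (l 16679592) (b (l 16583744) (l 16581856)))))) (b (a (l 16538120) (l 16589256)) (a (a (l 16568696) (l 16583424)) (a (l 16598632) (b (l 16572992) (l 16570832))))))) (b (a (a (l 16548864) (l 16541384)) (a (l 16560872) (c (l 16574288) (l 16566040)))) (a (l 16585232) (a (l 16546560) (l 16559792))))) (a (b (a (l 16511872) (l 16520704)) (l 16595968)) (b (a (l 16533528) (l 16547560)) (l 16569752)))) (b (b (a (b (a (l 16657392) (l 16678184)) (b (a (l 16593696) (l 16608016)) (a (b (l 16590720) (a (l 16626576) (l 16675296))) (b (l 16604416) (b (l 16602480) (l 16600984)))))) (b (a (a (l 16626136) (l 16633328)) (a (l 16640528) (l 16647536))) (b (a (l 16622144) (l 16636024)) (b (a (l 16618520) (l 16631880)) (b (a (l 16616568) (l 16629528))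 (a (l 16614952) (a (l 16624536) (l 16651240)))))))) (b (a (a (b (l 16585488) (l 16580424)) (l 16680424)) (a (b (l 16612536) (l 16607576)) (a (l 16619048) (l 16666352)))) (a (a (l 16573456) (l 16587304)) (a (l 16599968) (l 16610760))))) (a (a (b (l 16561384) (l 16546176)) (b (l 16574032) (l 16557096))) (a (b (l 16585224) (l 16566584)) (b (l 16636520) (l 16574656)))))), by decide +kernel⟩

def k3_pm_202 : ∃ t, chk3 f_pm_202 t 3 3 1 = true :=
  ⟨(b (a (b (a (b (l 16550072) (l 16536048)) (a (l 16502592) (l 16514152))) (a (b (a (l 16503160) (l 16493000)) (l 16483696)) (b (l 16495128) (l 16497632)))) (a (b (a (l 16587728) (l 16597464)) (b (l 16557240) (l 16513552))) (b (a (b (l 16550232) (l 16536800)) (b (l 16558296) (l 16544040))) (a (l 16608160) (b (l 16532704) (l 16527792)))))) (b (a (a (l 16493360) (a (l 16503248) (l 16511528))) (a (a (l 16519632) (l 16527304)) (a (l 16534648) (l 16541392)))) (a (b (a (l 16516696) (l 16527960)) (a (l 16543320) (b (l 16538624) (l 16511304)))) (b (a (l 16547616)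 (l 16569256)) (a (b (l 16560216) (l 16537712)) (b (l 16586824) (l 16575728))))))), by decide +kernel⟩

theorem s4_pm_202 : ∃ t, chk3 f_pm_202 t 3 2 1 = true := ex3_b k1_pm_202 k2_pm_202

theorem s5_pm_202 : ∃ t, chk3 f_pm_202 t 3 1 1 = true := ex3_b s4_pm_202 k3_pm_202

theorem s6_pm_202 : ∃ t, chk3 f_pm_202 t 1 1 1 = true := ex3_a k0_pm_202 s5_pm_202

theorem c_pm_202 : CertB 0 536870912 0 536870912 536870912 50465866 3 eng mog cd0q2 cd1q0 pd2 true true false .pp 2 0 2
    ndB0q2 ndB1q0 pcB2 cut_pm_202 Ext.none :=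
  certB1 (fam := true) (s1 := true) (s2 := false) (a := 2) (b := 0) (c := 2) (cn := .pp) (n1 := ndB0q2) (n2 := ndB1q0) (pc := pcB2) (cut := cut_pm_202) (xt := Ext.none) (P1 := 0) (W1 := 536870912) (P2 := 0) (W2 := 536870912) (P3 := 536870912) (W3 := 50465866) (N0 := 3) (En := eng) (mo := mog) (C1 := cd0q2) (C2 := cd1q0) (C3 := pd2)
    rfl (fun _ => rfl) s6_pm_202

noncomputable def f_pm_203 : ℕ → ℕ → ℕ → ℕ → Bool := onCell 0 536870912 1610612736 536870912 536870912 50465866
    (rowB 3 eng mog cd0q2 cd1q0 pd3 1 true true false .up 2 0 3 (qsf 0 536870912 0 536870912 3) ndB0q2 ndB1q0 pcB3 Cut.none Ext.none)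

def k0_pm_203 : ∃ t, chk3 f_pm_203 t 1 1 1 = true :=
  ⟨(a (b (b (a (b (a (b (l 16617632) (l 16645752)) (b (l 16583568) (l 16605408))) (a (b (l 16699088) (l 16730696)) (b (l 16666752) (l 16708872)))) (b (b (a (l 16524144) (l 16537888)) (l 16617776)) (a (b (l 16644864) (l 16692448)) (l 16654008)))) (b (a (a (b (l 16745120) (l 2)) (l 16735992)) (a (l 16726200) (l 16722480))) (l 2))) (l 2)) (b (b (b (a (b (a (l 16556544) (l 16576600)) (a (l 16559200) (l 16556040))) (b (a (l 16594736) (l 16613800)) (a (l 16575808) (l 16616800)))) (a (a (l 16683248) (b (l 16599192) (l 16658992))) (b (a (l 123043949191) (l 2)) (l 2)))) (a (l 2) (l 2))) (l 2))), by decide +kernel⟩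

theorem c_pm_203 : CertB 0 536870912 0 536870912 536870912 50465866 3 eng mog cd0q2 cd1q0 pd3 true true false .up 2 0 3
    ndB0q2 ndB1q0 pcB3 Cut.none Ext.none :=
  certB1 (fam := true) (s1 := true) (s2 := false) (a := 2) (b := 0) (c := 3) (cn := .up) (n1 := ndB0q2) (n2 := ndB1q0) (pc := pcB3) (cut := Cut.none) (xt := Ext.none) (P1 := 0) (W1 := 536870912) (P2 := 0) (W2 := 536870912) (P3 := 536870912) (W3 := 50465866) (N0 := 3) (En := eng) (mo := mog) (C1 := cd0q2) (C2 := cd1q0) (C3 := pd3)
    rfl (fun _ => rfl) k0_pm_203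

noncomputable def f_pm_213 : ℕ → ℕ → ℕ → ℕ → Bool := onCell 0 536870912 1610612736 536870912 536870912 50465866
    (rowB 3 eng mog cd0q2 cd1q1 pd3 1 true true false .pnn 2 1 3 (qsf 0 536870912 536870912 536870912 3) ndB0q2 ndB1q1 pcB3 Cut.none Ext.none)

def k0_pm_213 : ∃ t, chk3 f_pm_213 t 1 1 1 = true :=
  ⟨(a (b (b (a (l 1) (b (l 1) (a (l 1) (l 16694176)))) (a (b (a (b (l 16782928) (l 16791784)) (l 16774360)) (b (a (l 16806880) (l 16796768)) (a (l 111904181175) (l 16818256)))) (b (a (l 16768288) (l 16773000)) (b (l 16803336) (l 16848104))))) (b (a (b (a (l 4) (b (l 16784672) (l 129620940327))) (l 4)) (b (a (c (l 42648141367) (l 42648127799)) (l 16852096)) (b (a (l 91503071351) (l 16797040)) (a (l 4) (l 77544431191))))) (b (a (l 4) (b (a (l 4) (l 117809867863)) (l 4))) (l 4)))) (b (b (b (a (l 1) (b (a (l 1) (a (l 16668136) (l 16689352))) (a (l 16634432) (a (l 16680328) (l 16722112))))) (a (a (l 40298764727) (b (l 16647576) (l 16717584))) (a (b (l 16674832) (l 16748888)) (b (l 16752840) (l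 16824760))))) (a (b (a (l 16781792) (l 16802112)) (a (l 16841640) (l 16869136))) (b (a (a (l 16825040) (l 16850400)) (l 16879120)) (a (b (l 16894136) (l 16914624)) (c (l 16915504) (l 16856336)))))) (b (a (b (a (l 16871488) (l 16891072)) (b (a (l 16835808) (l 16874736)) (a (l 16810336) (l 16856696)))) (b (a (l 16913224) (a (l 16932368) (l 16946248))) (a (b (l 16891424) (l 16872720)) (b (l 16914856) (l 16873472))))) (b (a (b (a (l 70028293703) (l 16974032)) (a (b (l 161296262951) (l 4)) (b (l 16805392) (l 16874440)))) (a (b (l 16912672) (a (l 16824848) (l 16937872))) (l 16923872))) (a (b (a (l 4) (b (l 177939347527) (l 293903329783))) (l 4)) (a (b (b (l 16954960) (b (l 125862923863) (l 16851848))) (b (a (l 4) (l 235384591543)) (l 4))) (b (b (l 16827928) (a (l 16808672) (l 16814672))) (b (a (c (l 120494351767) (l 102777512791)) (l 16946024)) (b (a (l 16799368) (l 16827608)) (b (l 421141786919) (l 4))))))))))), by decide +kernel⟩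

theorem c_pm_213 : CertB 0 536870912 536870912 536870912 536870912 50465866 3 eng mog cd0q2 cd1q1 pd3 true true false .pnn 2 1 3
    ndB0q2 ndB1q1 pcB3 Cut.none Ext.none :=
  certB1 (fam := true) (s1 := true) (s2 := false) (a := 2) (b := 1) (c := 3) (cn := .pnn) (n1 := ndB0q2) (n2 := ndB1q1) (pc := pcB3) (cut := Cut.none) (xt := Ext.none) (P1 := 0) (W1 := 536870912) (P2 := 536870912) (W2 := 536870912) (P3 := 536870912) (W3 := 50465866) (N0 := 3) (En := eng) (mo := mog) (C1 := cd0q2) (C2 := cd1q1) (C3 := pd3)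
    rfl (fun _ => rfl) k0_pm_213

noncomputable def f_mm_001 : ℕ → ℕ → ℕ → ℕ → Bool := onCell 0 536870912 0 536870912 536870912 50465866
    (rowB 3 eng mog cd0q0 cd1q0 pd1 0 true false false .up 0 0 1 (qsf 0 536870912 0 536870912 1) ndB0q0 ndB1q0 pcB1 Cut.none Ext.none)

def k0_mm_001 : ∃ t, chk3 f_mm_001 t 1 1 1 = true :=
  ⟨(l 4), by decide +kernel⟩

theorem c_mm_001 : CertB 0 536870912 0 536870912 536870912 50465866 3 eng mog cd0q0 cd1q0 pd1 true false false .up 0 0 1
    ndB0q0 ndB1q0 pcB1 Cut.none Ext.none :=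
  certB0 (fam := true) (s1 := false) (s2 := false) (a := 0) (b := 0) (c := 1) (cn := .up) (n1 := ndB0q0) (n2 := ndB1q0) (pc := pcB1) (cut := Cut.none) (xt := Ext.none) (P1 := 0) (W1 := 536870912) (P2 := 0) (W2 := 536870912) (P3 := 536870912) (W3 := 50465866) (N0 := 3) (En := eng) (mo := mog) (C1 := cd0q0) (C2 := cd1q0) (C3 := pd1)
    rfl k0_mm_001

noncomputable def f_mm_011 : ℕ → ℕ → ℕ → ℕ → Bool := onCell 0 536870912 536870912 536870912 536870912 50465866
    (rowB 3 eng mog cd0q0 cd1q1 pd1 0 true false false .pnn 0 1 1 (qsf 0 536870912 536870912 536870912 1) ndB0q0 ndB1q1 pcB1 Cut.none Ext.none)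

def k0_mm_011 : ∃ t, chk3 f_mm_011 t 1 1 1 = true :=
  ⟨(l 4), by decide +kernel⟩

theorem c_mm_011 : CertB 0 536870912 536870912 536870912 536870912 50465866 3 eng mog cd0q0 cd1q1 pd1 true false false .pnn 0 1 1
    ndB0q0 ndB1q1 pcB1 Cut.none Ext.none :=
  certB0 (fam := true) (s1 := false) (s2 := false) (a := 0) (b := 1) (c := 1) (cn := .pnn) (n1 := ndB0q0) (n2 := ndB1q1) (pc := pcB1) (cut := Cut.none) (xt := Ext.none) (P1 := 0) (W1 := 536870912) (P2 := 536870912) (W2 := 536870912) (P3 := 536870912) (W3 := 50465866) (N0 := 3) (En := eng) (mo := mog) (C1 := cd0q0) (C2 := cd1q1) (C3 := pd1)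
    rfl k0_mm_011

noncomputable def f_mm_012 : ℕ → ℕ → ℕ → ℕ → Bool := onCell 0 536870912 536870912 536870912 536870912 50465866
    (rowB 3 eng mog cd0q0 cd1q1 pd2 0 true false false .pnp 0 1 2 (qsf 0 536870912 536870912 536870912 2) ndB0q0 ndB1q1 pcB2 Cut.none Ext.none)

def k0_mm_012 : ∃ t, chk3 f_mm_012 t 1 1 1 = true :=
  ⟨(l 4), by decide +kernel⟩

theorem c_mm_012 : CertB 0 536870912 536870912 536870912 536870912 50465866 3 eng mog cd0q0 cd1q1 pd2 true false false .pnp 0 1 2
    ndB0q0 ndB1q1 pcB2 Cut.none Ext.none :=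
  certB0 (fam := true) (s1 := false) (s2 := false) (a := 0) (b := 1) (c := 2) (cn := .pnp) (n1 := ndB0q0) (n2 := ndB1q1) (pc := pcB2) (cut := Cut.none) (xt := Ext.none) (P1 := 0) (W1 := 536870912) (P2 := 536870912) (W2 := 536870912) (P3 := 536870912) (W3 := 50465866) (N0 := 3) (En := eng) (mo := mog) (C1 := cd0q0) (C2 := cd1q1) (C3 := pd2)
    rfl k0_mm_012

noncomputable def f_mm_022_a : ℕ → ℕ → ℕ → ℕ → Bool := onCell 0 536870912 0 536870912 536870912 50465866
    (rowB 3 eng mog cd0q0 cd1q2a pd2 0 true false false .pp 0 2 2 (qsf 0 536870912 0 536870912 2) ndB0q0 ndB1q2a pcB2 Cut.none Ext.none)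

def k0_mm_022_a : ∃ t, chk3 f_mm_022_a t 1 1 1 = true :=
  ⟨(l 5), by decide +kernel⟩

theorem c_mm_022_a : CertB 0 536870912 0 536870912 536870912 50465866 3 eng mog cd0q0 cd1q2a pd2 true false false .pp 0 2 2
    ndB0q0 ndB1q2a pcB2 Cut.none Ext.none :=
  certB0 (fam := true) (s1 := false) (s2 := false) (a := 0) (b := 2) (c := 2) (cn := .pp) (n1 := ndB0q0) (n2 := ndB1q2a) (pc := pcB2) (cut := Cut.none) (xt := Ext.none) (P1 := 0) (W1 := 536870912) (P2 := 0) (W2 := 536870912) (P3 := 536870912) (W3 := 50465866) (N0 := 3) (En := eng) (mo := mog) (C1 := cd0q0) (C2 := cd1q2a) (C3 := pd2)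
    rfl k0_mm_022_a

noncomputable def f_mm_022_b : ℕ → ℕ → ℕ → ℕ → Bool := onCell 0 536870912 1239849684 370763052 536870912 50465866
    (rowB 3 eng mog cd0q0 cd1q2b pd2 0 true false false .pp 0 2 2 (qsf 0 536870912 1239849684 370763052 2) ndB0q0 ndB1q2b pcB2 Cut.none Ext.none)

def k0_mm_022_b : ∃ t, chk3 f_mm_022_b t 1 1 1 = true :=
  ⟨(l 5), by decide +kernel⟩

theorem c_mm_022_b : CertB 0 536870912 1239849684 370763052 536870912 50465866 3 eng mog cd0q0 cd1q2b pd2 true false false .pp 0 2 2
    ndB0q0 ndB1q2b pcB2 Cut.none Ext.none :=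
  certB0 (fam := true) (s1 := false) (s2 := false) (a := 0) (b := 2) (c := 2) (cn := .pp) (n1 := ndB0q0) (n2 := ndB1q2b) (pc := pcB2) (cut := Cut.none) (xt := Ext.none) (P1 := 0) (W1 := 536870912) (P2 := 1239849684) (W2 := 370763052) (P3 := 536870912) (W3 := 50465866) (N0 := 3) (En := eng) (mo := mog) (C1 := cd0q0) (C2 := cd1q2b) (C3 := pd2)
    rfl k0_mm_022_b

noncomputable def f_mm_023_a : ℕ → ℕ → ℕ → ℕ → Bool := onCell 0 536870912 0 536870912 536870912 50465866
    (rowB 3 eng mog cd0q0 cd1q2a pd3 0 true false false .up 0 2 3 (qsf 0 536870912 0 536870912 3) ndB0q0 ndB1q2a pcB3 Cut.none Ext.none)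

def k0_mm_023_a : ∃ t, chk3 f_mm_023_a t 1 1 1 = true :=
  ⟨(l 5), by decide +kernel⟩

theorem c_mm_023_a : CertB 0 536870912 0 536870912 536870912 50465866 3 eng mog cd0q0 cd1q2a pd3 true false false .up 0 2 3
    ndB0q0 ndB1q2a pcB3 Cut.none Ext.none :=
  certB0 (fam := true) (s1 := false) (s2 := false) (a := 0) (b := 2) (c := 3) (cn := .up) (n1 := ndB0q0) (n2 := ndB1q2a) (pc := pcB3) (cut := Cut.none) (xt := Ext.none) (P1 := 0) (W1 := 536870912) (P2 := 0) (W2 := 536870912) (P3 := 536870912) (W3 := 50465866) (N0 := 3) (En := eng) (mo := mog) (C1 := cd0q0) (C2 := cd1q2a) (C3 := pd3)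
    rfl k0_mm_023_a

noncomputable def f_mm_023_b : ℕ → ℕ → ℕ → ℕ → Bool := onCell 0 536870912 1239849684 370763052 536870912 50465866
    (rowB 3 eng mog cd0q0 cd1q2b pd3 0 true false false .up 0 2 3 (qsf 0 536870912 1239849684 370763052 3) ndB0q0 ndB1q2b pcB3 Cut.none Ext.none)

def k0_mm_023_b : ∃ t, chk3 f_mm_023_b t 1 1 1 = true :=
  ⟨(l 5), by decide +kernel⟩

theorem c_mm_023_b : CertB 0 536870912 1239849684 370763052 536870912 50465866 3 eng mog cd0q0 cd1q2b pd3 true false false .up 0 2 3
    ndB0q0 ndB1q2b pcB3 Cut.none Ext.none :=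
  certB0 (fam := true) (s1 := false) (s2 := false) (a := 0) (b := 2) (c := 3) (cn := .up) (n1 := ndB0q0) (n2 := ndB1q2b) (pc := pcB3) (cut := Cut.none) (xt := Ext.none) (P1 := 0) (W1 := 536870912) (P2 := 1239849684) (W2 := 370763052) (P3 := 536870912) (W3 := 50465866) (N0 := 3) (En := eng) (mo := mog) (C1 := cd0q0) (C2 := cd1q2b) (C3 := pd3)
    rfl k0_mm_023_b

noncomputable def f_mm_033 : ℕ → ℕ → ℕ → ℕ → Bool := onCell 0 536870912 1610612736 536870912 536870912 50465866
    (rowB 3 eng mog cd0q0 cd1q3 pd3 0 true false false .pnn 0 3 3 (qsf 0 536870912 1610612736 536870912 3) ndB0q0 ndB1q3 pcB3 Cut.none Ext.none)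

def k0_mm_033 : ∃ t, chk3 f_mm_033 t 1 1 1 = true :=
  ⟨(l 5), by decide +kernel⟩

theorem c_mm_033 : CertB 0 536870912 1610612736 536870912 536870912 50465866 3 eng mog cd0q0 cd1q3 pd3 true false false .pnn 0 3 3
    ndB0q0 ndB1q3 pcB3 Cut.none Ext.none :=
  certB0 (fam := true) (s1 := false) (s2 := false) (a := 0) (b := 3) (c := 3) (cn := .pnn) (n1 := ndB0q0) (n2 := ndB1q3) (pc := pcB3) (cut := Cut.none) (xt := Ext.none) (P1 := 0) (W1 := 536870912) (P2 := 1610612736) (W2 := 536870912) (P3 := 536870912) (W3 := 50465866) (N0 := 3) (En := eng) (mo := mog) (C1 := cd0q0) (C2 := cd1q3) (C3 := pd3)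
    rfl k0_mm_033

noncomputable def cut_mm_101 : Cut := Cut.of [[⟨0, 1, 0, 67108864⟩, ⟨1, 0, 0, 67108864⟩, ⟨2, 1, 0, 67108864⟩]]

noncomputable def f_mm_101 : ℕ → ℕ → ℕ → ℕ → Bool := onCell 536870912 536870912 0 536870912 536870912 50465866
    (rowB 3 eng mog cd0q1 cd1q0 pd1 0 true false false .npn 1 0 1 (qsf 536870912 536870912 0 536870912 1) ndB0q1 ndB1q0 pcB1 cut_mm_101 Ext.none)

def k0_mm_101 : ∃ t, chk3 f_mm_101 t 1 1 1 = true :=
  ⟨(a (l 4) (b (a (l 4) (b (a (l 4) (b (a (l 4) (b (l 6) (l 4))) (l 4))) (l 4))) (l 4))), by decide +kernel⟩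

theorem c_mm_101 : CertB 536870912 536870912 0 536870912 536870912 50465866 3 eng mog cd0q1 cd1q0 pd1 true false false .npn 1 0 1
    ndB0q1 ndB1q0 pcB1 cut_mm_101 Ext.none :=
  certB0 (fam := true) (s1 := false) (s2 := false) (a := 1) (b := 0) (c := 1) (cn := .npn) (n1 := ndB0q1) (n2 := ndB1q0) (pc := pcB1) (cut := cut_mm_101) (xt := Ext.none) (P1 := 536870912) (W1 := 536870912) (P2 := 0) (W2 := 536870912) (P3 := 536870912) (W3 := 50465866) (N0 := 3) (En := eng) (mo := mog) (C1 := cd0q1) (C2 := cd1q0) (C3 := pd1)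
    rfl k0_mm_101

noncomputable def cut_mm_102 : Cut := Cut.of [[⟨0, 1, 0, 67108864⟩, ⟨1, 0, 0, 67108864⟩, ⟨2, 1, 0, 67108864⟩]]

noncomputable def f_mm_102 : ℕ → ℕ → ℕ → ℕ → Bool := onCell 536870912 536870912 0 536870912 536870912 50465866
    (rowB 3 eng mog cd0q1 cd1q0 pd2 0 true false false .npp 1 0 2 (qsf 536870912 536870912 0 536870912 2) ndB0q1 ndB1q0 pcB2 cut_mm_102 Ext.none)

def k0_mm_102 : ∃ t, chk3 f_mm_102 t 1 1 1 = true :=
  ⟨(a (l 4) (b (a (l 4) (b (a (l 4) (a (l 4) (b (b (l 6) (l 4)) (l 4)))) (l 4))) (l 4))), by decide +kernel⟩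

theorem c_mm_102 : CertB 536870912 536870912 0 536870912 536870912 50465866 3 eng mog cd0q1 cd1q0 pd2 true false false .npp 1 0 2
    ndB0q1 ndB1q0 pcB2 cut_mm_102 Ext.none :=
  certB0 (fam := true) (s1 := false) (s2 := false) (a := 1) (b := 0) (c := 2) (cn := .npp) (n1 := ndB0q1) (n2 := ndB1q0) (pc := pcB2) (cut := cut_mm_102) (xt := Ext.none) (P1 := 536870912) (W1 := 536870912) (P2 := 0) (W2 := 536870912) (P3 := 536870912) (W3 := 50465866) (N0 := 3) (En := eng) (mo := mog) (C1 := cd0q1) (C2 := cd1q0) (C3 := pd2)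
    rfl k0_mm_102

noncomputable def f_mm_112 : ℕ → ℕ → ℕ → ℕ → Bool := onCell 536870912 536870912 536870912 536870912 536870912 50465866
    (rowB 3 eng mog cd0q1 cd1q1 pd2 0 true false false .dn 1 1 2 (qsf 536870912 536870912 536870912 536870912 2) ndB0q1 ndB1q1 pcB2 Cut.none Ext.none)

def k0_mm_112 : ∃ t, chk3 f_mm_112 t 1 1 1 = true :=
  ⟨(l 4), by decide +kernel⟩

theorem c_mm_112 : CertB 536870912 536870912 536870912 536870912 536870912 50465866 3 eng mog cd0q1 cd1q1 pd2 true false false .dn 1 1 2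
    ndB0q1 ndB1q1 pcB2 Cut.none Ext.none :=
  certB0 (fam := true) (s1 := false) (s2 := false) (a := 1) (b := 1) (c := 2) (cn := .dn) (n1 := ndB0q1) (n2 := ndB1q1) (pc := pcB2) (cut := Cut.none) (xt := Ext.none) (P1 := 536870912) (W1 := 536870912) (P2 := 536870912) (W2 := 536870912) (P3 := 536870912) (W3 := 50465866) (N0 := 3) (En := eng) (mo := mog) (C1 := cd0q1) (C2 := cd1q1) (C3 := pd2)
    rfl k0_mm_112

noncomputable def f_mm_113 : ℕ → ℕ → ℕ → ℕ → Bool := onCell 536870912 536870912 536870912 536870912 536870912 50465866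
    (rowB 3 eng mog cd0q1 cd1q1 pd3 0 true false false .nn 1 1 3 (qsf 536870912 536870912 536870912 536870912 3) ndB0q1 ndB1q1 pcB3 Cut.none Ext.none)

def k0_mm_113 : ∃ t, chk3 f_mm_113 t 1 1 1 = true :=
  ⟨(l 4), by decide +kernel⟩

theorem c_mm_113 : CertB 536870912 536870912 536870912 536870912 536870912 50465866 3 eng mog cd0q1 cd1q1 pd3 true false false .nn 1 1 3
    ndB0q1 ndB1q1 pcB3 Cut.none Ext.none :=
  certB0 (fam := true) (s1 := false) (s2 := false) (a := 1) (b := 1) (c := 3) (cn := .nn) (n1 := ndB0q1) (n2 := ndB1q1) (pc := pcB3) (cut := Cut.none) (xt := Ext.none) (P1 := 536870912) (W1 := 536870912) (P2 := 536870912) (W2 := 536870912) (P3 := 536870912) (W3 := 50465866) (N0 := 3) (En := eng) (mo := mog) (C1 := cd0q1) (C2 := cd1q1) (C3 := pd3)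
    rfl k0_mm_113

noncomputable def f_mm_123_a : ℕ → ℕ → ℕ → ℕ → Bool := onCell 536870912 536870912 0 536870912 536870912 50465866
    (rowB 3 eng mog cd0q1 cd1q2a pd3 0 true false false .npn 1 2 3 (qsf 536870912 536870912 0 536870912 3) ndB0q1 ndB1q2a pcB3 Cut.none Ext.none)

def k0_mm_123_a : ∃ t, chk3 f_mm_123_a t 1 1 1 = true :=
  ⟨(a (l 5) (l 4)), by decide +kernel⟩

theorem c_mm_123_a : CertB 536870912 536870912 0 536870912 536870912 50465866 3 eng mog cd0q1 cd1q2a pd3 true false false .npn 1 2 3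
    ndB0q1 ndB1q2a pcB3 Cut.none Ext.none :=
  certB0 (fam := true) (s1 := false) (s2 := false) (a := 1) (b := 2) (c := 3) (cn := .npn) (n1 := ndB0q1) (n2 := ndB1q2a) (pc := pcB3) (cut := Cut.none) (xt := Ext.none) (P1 := 536870912) (W1 := 536870912) (P2 := 0) (W2 := 536870912) (P3 := 536870912) (W3 := 50465866) (N0 := 3) (En := eng) (mo := mog) (C1 := cd0q1) (C2 := cd1q2a) (C3 := pd3)
    rfl k0_mm_123_a

noncomputable def f_mm_123_b : ℕ → ℕ → ℕ → ℕ → Bool := onCell 536870912 536870912 1239849684 370763052 536870912 50465866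
    (rowB 3 eng mog cd0q1 cd1q2b pd3 0 true false false .npn 1 2 3 (qsf 536870912 536870912 1239849684 370763052 3) ndB0q1 ndB1q2b pcB3 Cut.none Ext.none)

def k0_mm_123_b : ∃ t, chk3 f_mm_123_b t 1 1 1 = true :=
  ⟨(l 5), by decide +kernel⟩

theorem c_mm_123_b : CertB 536870912 536870912 1239849684 370763052 536870912 50465866 3 eng mog cd0q1 cd1q2b pd3 true false false .npn 1 2 3
    ndB0q1 ndB1q2b pcB3 Cut.none Ext.none :=
  certB0 (fam := true) (s1 := false) (s2 := false) (a := 1) (b := 2) (c := 3) (cn := .npn) (n1 := ndB0q1) (n2 := ndB1q2b) (pc := pcB3) (cut := Cut.none) (xt := Ext.none) (P1 := 536870912) (W1 := 536870912) (P2 := 1239849684) (W2 := 370763052) (P3 := 536870912) (W3 := 50465866) (N0 := 3) (En := eng) (mo := mog) (C1 := cd0q1) (C2 := cd1q2b) (C3 := pd3)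
    rfl k0_mm_123_b

noncomputable def f_mm_133 : ℕ → ℕ → ℕ → ℕ → Bool := onCell 536870912 536870912 1610612736 536870912 536870912 50465866
    (rowB 3 eng mog cd0q1 cd1q3 pd3 0 true false false .dn 1 3 3 (qsf 536870912 536870912 1610612736 536870912 3) ndB0q1 ndB1q3 pcB3 Cut.none Ext.none)

def k0_mm_133 : ∃ t, chk3 f_mm_133 t 1 1 1 = true :=
  ⟨(l 4), by decide +kernel⟩

theorem c_mm_133 : CertB 536870912 536870912 1610612736 536870912 536870912 50465866 3 eng mog cd0q1 cd1q3 pd3 true false false .dn 1 3 3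
    ndB0q1 ndB1q3 pcB3 Cut.none Ext.none :=
  certB0 (fam := true) (s1 := false) (s2 := false) (a := 1) (b := 3) (c := 3) (cn := .dn) (n1 := ndB0q1) (n2 := ndB1q3) (pc := pcB3) (cut := Cut.none) (xt := Ext.none) (P1 := 536870912) (W1 := 536870912) (P2 := 1610612736) (W2 := 536870912) (P3 := 536870912) (W3 := 50465866) (N0 := 3) (En := eng) (mo := mog) (C1 := cd0q1) (C2 := cd1q3) (C3 := pd3)
    rfl k0_mm_133

noncomputable def cut_mm_202 : Cut := Cut.of [[⟨0, 1, 0, 67108864⟩, ⟨1, 0, 0, 67108864⟩, ⟨2, 1, 0, 67108864⟩]]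

noncomputable def f_mm_202 : ℕ → ℕ → ℕ → ℕ → Bool := onCell 0 536870912 0 536870912 536870912 50465866
    (rowB 3 eng mog cd0q2 cd1q0 pd2 0 true false false .pp 2 0 2 (qsf 0 536870912 0 536870912 2) ndB0q2 ndB1q0 pcB2 cut_mm_202 Ext.none)

def k0_mm_202 : ∃ t, chk3 f_mm_202 t 2 1 1 = true :=
  ⟨(b (b (a (b (a (b (a (l 16520560) (l 16523920)) (a (l 16472280) (l 16475736))) (b (b (l 16488392) (l 16533336)) (a (l 16481480) (b (l 16484960) (l 16495944))))) (a (b (a (l 16490848) (l 16495656)) (a (l 16510864) (l 16516808))) (b (a (l 16502336) (l 16513784)) (a (l 16588960) (l 16537832))))) (b (a (b (a (b (l 16482520) (l 16490264)) (l 16561336)) (a (l 16501792) (l 16536520))) (b (a (b (l 16510168) (l 16518072)) (b (l 16547896) (l 16536200))) (a (b (l 16529808) (l 16538280)) (b (l 16549024) (l 16560128))))) (a (b (l 16532880) (l 16558656)) (a (b (l 16553256) (l 16579208)) (b (l 16573152) (l 16594696)))))) (a (b (a (a (b (l 16530000) (l 16547136)) (b (l 16537320) (l 16558024))) (b (l 16554768) (l 16577128)))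 (a (b (l 16633896) (l 16586192)) (l 16642176))) (b (a (b (l 16584112) (l 16609424)) (b (l 16674760) (l 16679896))) (a (b (l 16633976) (l 16656760)) (b (l 16726968) (l 16730664)))))) (b (a (b (a (l 16643176) (l 16721232)) (a (a (l 16631608) (l 16657744)) (b (l 16675640) (l 16721792)))) (b (a (b (l 16674632) (l 16689120)) (a (b (l 16701584) (l 16734232)) (b (l 16748040) (l 16821088)))) (b (a (l 16753800) (a (l 16767880) (l 4))) (a (a (l 16761520) (l 16778552)) (l 4))))) (a (l 2) (a (l 2) (l 4))))), by decide +kernel⟩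

def k1_mm_202 : ∃ t, chk3 f_mm_202 t 6 4 1 = true :=
  ⟨(b (a (b (b (a (b (a (l 16539080) (l 16570528)) (l 16569864)) (b (a (l 16581816) (b (l 16571512) (l 16574224))) (a (l 16565832) (l 16578224)))) (a (l 16588080) (b (l 16598072) (l 16603720)))) (b (a (l 16569848) (a (l 16586872) (l 16599072))) (a (b (l 16579920) (l 16586064)) (a (l 16600696) (l 16613128))))) (b (b (a (a (b (b (a (l 16580880) (l 16587352)) (l 16587032)) (b (l 16589904) (l 16592736))) (b (b (a (l 16593976) (l 16611240)) (a (l 16597032) (l 16603912))) (b (l 16603552) (l 16606584)))) (a (b (b (a (c (l 16609016) (l 16606320)) (c (l 16616176) (l 16613288))) (a (l 16610936) (l 16618096))) (b (l 16628288) (l 16621040))) (a (b (b (c (l 16623440) (l 16620408)) (l 16625376)) (l 16630488)) (b (b (c (l 16630808) (b (l 16626760) (l 16628608))) (l 16632784)) (l 16638024))))) (a (a (b (l 16596936) (l 16602432)) (b (l 16605840) (l 16616968))) (a (b (a (l 16622064) (l 16629576)) (l 16632120)) (b (a (l 16637176) (l 16644888)) (a (l 16643752)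 (l 16651632)))))) (b (a (b (l 16636304) (l 16643400)) (a (l 16666264) (b (l 16654256) (l 16660712)))) (a (a (l 16626288) (l 16640224)) (a (l 16654992) (l 16670672)))))) (a (b (a (b (l 16593952) (l 16603824)) (b (b (l 16680072) (l 16686232)) (l 16631856))) (a (l 16640272) (b (l 16642992) (l 16656056)))) (b (b (a (a (b (l 16637096) (l 16644184)) (l 16654936)) (a (l 16670000) (l 16685984))) (a (b (a (l 16650728) (l 16665752)) (l 16664752)) (a (b (l 16681224) (l 16688488)) (l 16711760)))) (b (a (l 16695184) (a (l 16698824) (b (l 16712448) (l 16719632)))) (a (l 16688616) (a (l 16735144) (l 16752960))))))), by decide +kernel⟩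

def k2_mm_202 : ∃ t, chk3 f_mm_202 t 7 8 1 = true :=
  ⟨(a (b (a (b (b (a (b (a (a (l 16632200) (l 16638592)) (c (l 16645936) (l 16642736))) (a (l 16640328) (l 16648024))) (b (a (c (l 16653712) (l 16650536)) (c (l 16661640) (l 16658528))) (a (l 16655880) (l 16663912)))) (a (a (l 16645688) (l 16653496)) (a (l 16661464) (l 16669584)))) (b (a (a (l 16652720) (l 16660680)) (a (l 16668776) (l 16677032))) (a (l 16671552) (a (l 16675960) (l 16684344))))) (b (a (b (b (l 6) (a (l 16672120) (l 6))) (b (a (l 16675976) (l 16684432)) (l 16691920))) (b (l 6) (b (l 6) (a (l 16697016) (l 6))))) (a (b (a (l 16685448) (l 16694040)) (c (l 16718848) (l 16717544))) (b (a (l 16713312) (b (l 6) (l 16713752))) (a (l 16710448) (b (l 16717608) (l 16721424))))))) (a (b (a (a (l 16669760) (l 16678080)) (a (l 16686520) (l 16695080))) (a (l 16687296) (l 16725680))) (b (a (b (l 16704584) (l 16711824)) (b (l 16733008) (l 16729936))) (a (b (l 16718960) (l 16726960)) (b (l 16737840) (l 16745984)))))) (b (a (b (l 6) (a (b (l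 6) (a (l 16728808) (l 16748808))) (l 6))) (l 6)) (a (a (b (b (c (l 16751760) (l 16751680)) (a (l 16744272) (l 16754152))) (b (a (l 16752408) (l 16762232)) (a (c (l 16781960) (l 16780992)) (l 4)))) (b (b (a (l 16757360) (b (l 6) (l 16770776))) (a (a (l 37278929015) (l 16766608)) (l 4))) (l 4))) (l 4)))), by decide +kernel⟩

def k3_mm_202 : ∃ t, chk3 f_mm_202 t 7 9 1 = true :=
  ⟨(a (b (a (a (b (l 16702864) (l 16718496)) (b (l 16720600) (l 16736552))) (b (a (b (l 16735048) (l 16732680)) (b (a (l 16749304) (l 16779840)) (a (l 16778296) (l 4)))) (a (b (l 16751144) (l 16758824)) (l 4)))) (a (b (a (b (l 16730064) (l 16737624)) (b (l 16748232) (l 16776536))) (a (l 16749784) (b (l 16784056) (l 4)))) (b (a (b (l 16766152) (l 4)) (l 4)) (l 4)))) (a (b (a (l 4) (l 4)) (l 4)) (l 4))), by decide +kernel⟩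

def k4_mm_202 : ∃ t, chk3 f_mm_202 t 3 5 1 = true :=
  ⟨(a (b (a (b (a (l 16646456) (b (l 16671680) (l 16666208))) (a (l 16674472) (l 16709752))) (b (a (b (l 16684408) (l 16743016)) (b (a (l 16731648) (l 16791144)) (a (l 16748272) (l 16785608)))) (a (b (l 16779736) (l 16772568)) (a (l 50163921879) (l 4))))) (a (a (b (l 16701624) (l 16770064)) (b (l 16778408) (l 70565055639))) (a (b (a (l 16802776) (l 4)) (l 4)) (l 4)))) (b (a (a (b (a (b (l 16765968) (l 4)) (l 4)) (l 4)) (l 4)) (l 4)) (l 4))), by decide +kernel⟩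

def k5_mm_202 : ∃ t, chk3 f_mm_202 t 3 3 1 = true :=
  ⟨(b (a (b (a (a (b (l 54995788567) (l 4)) (l 4)) (l 4)) (l 4)) (l 4)) (l 4)), by decide +kernel⟩

theorem s6_mm_202 : ∃ t, chk3 f_mm_202 t 7 4 1 = true := ex3_b k2_mm_202 k3_mm_202

theorem s7_mm_202 : ∃ t, chk3 f_mm_202 t 3 4 1 = true := ex3_a k1_mm_202 s6_mm_202

theorem s8_mm_202 : ∃ t, chk3 f_mm_202 t 3 2 1 = true := ex3_b s7_mm_202 k4_mm_202

theorem s9_mm_202 : ∃ t, chk3 f_mm_202 t 3 1 1 = true := ex3_b s8_mm_202 k5_mm_202

theorem s10_mm_202 : ∃ t, chk3 f_mm_202 t 1 1 1 = true := ex3_a k0_mm_202 s9_mm_202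

theorem c_mm_202 : CertB 0 536870912 0 536870912 536870912 50465866 3 eng mog cd0q2 cd1q0 pd2 true false false .pp 2 0 2
    ndB0q2 ndB1q0 pcB2 cut_mm_202 Ext.none :=
  certB0 (fam := true) (s1 := false) (s2 := false) (a := 2) (b := 0) (c := 2) (cn := .pp) (n1 := ndB0q2) (n2 := ndB1q0) (pc := pcB2) (cut := cut_mm_202) (xt := Ext.none) (P1 := 0) (W1 := 536870912) (P2 := 0) (W2 := 536870912) (P3 := 536870912) (W3 := 50465866) (N0 := 3) (En := eng) (mo := mog) (C1 := cd0q2) (C2 := cd1q0) (C3 := pd2)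
    rfl s10_mm_202

noncomputable def f_mm_203 : ℕ → ℕ → ℕ → ℕ → Bool := onCell 0 536870912 1610612736 536870912 536870912 50465866
    (rowB 3 eng mog cd0q2 cd1q0 pd3 1 true false false .up 2 0 3 (qsf 0 536870912 0 536870912 3) ndB0q2 ndB1q0 pcB3 Cut.none Ext.none)

def k0_mm_203 : ∃ t, chk3 f_mm_203 t 1 1 1 = true :=
  ⟨(a (b (b (a (b (a (b (l 16639384) (l 16696888)) (b (l 16721712) (l 16762496))) (a (b (l 16738512) (l 16758360)) (b (l 16802432) (l 56069619591)))) (b (a (a (b (l 16773432) (l 4)) (l 4)) (l 4)) (l 4))) (a (b (a (b (l 16761248) (l 2)) (l 4)) (l 2)) (l 4))) (l 2)) (l 4)), by decide +kernel⟩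

theorem c_mm_203 : CertB 0 536870912 0 536870912 536870912 50465866 3 eng mog cd0q2 cd1q0 pd3 true false false .up 2 0 3
    ndB0q2 ndB1q0 pcB3 Cut.none Ext.none :=
  certB1 (fam := true) (s1 := false) (s2 := false) (a := 2) (b := 0) (c := 3) (cn := .up) (n1 := ndB0q2) (n2 := ndB1q0) (pc := pcB3) (cut := Cut.none) (xt := Ext.none) (P1 := 0) (W1 := 536870912) (P2 := 0) (W2 := 536870912) (P3 := 536870912) (W3 := 50465866) (N0 := 3) (En := eng) (mo := mog) (C1 := cd0q2) (C2 := cd1q0) (C3 := pd3)
    rfl (fun _ => rfl) k0_mm_203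

noncomputable def f_mm_213 : ℕ → ℕ → ℕ → ℕ → Bool := onCell 0 536870912 536870912 536870912 536870912 50465866
    (rowB 3 eng mog cd0q2 cd1q1 pd3 0 true false false .pnn 2 1 3 (qsf 0 536870912 536870912 536870912 3) ndB0q2 ndB1q1 pcB3 Cut.none Ext.none)

def k0_mm_213 : ∃ t, chk3 f_mm_213 t 1 1 1 = true :=
  ⟨(a (b (b (a (b (a (b (l 63048993591) (l 4)) (l 4)) (l 4)) (l 4)) (l 4)) (l 4)) (l 4)), by decide +kernel⟩

theorem c_mm_213 : CertB 0 536870912 536870912 536870912 536870912 50465866 3 eng mog cd0q2 cd1q1 pd3 true false false .pnn 2 1 3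
    ndB0q2 ndB1q1 pcB3 Cut.none Ext.none :=
  certB0 (fam := true) (s1 := false) (s2 := false) (a := 2) (b := 1) (c := 3) (cn := .pnn) (n1 := ndB0q2) (n2 := ndB1q1) (pc := pcB3) (cut := Cut.none) (xt := Ext.none) (P1 := 0) (W1 := 536870912) (P2 := 536870912) (W2 := 536870912) (P3 := 536870912) (W3 := 50465866) (N0 := 3) (En := eng) (mo := mog) (C1 := cd0q2) (C2 := cd1q1) (C3 := pd3)
    rfl k0_mm_213

end Pool.Agent.Strip051.G.I5000_5470.Tab.C.BA01

namespace Pool.Agent.Strip051.G.I5000_5470.Tab.C.BA02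

open Pool.Agent.Strip051.PB Pool.Agent.Strip051.PB.T
open Pool.Agent.Strip051.G.I5000_5470.Tab

noncomputable def f_pp_001 : ℕ → ℕ → ℕ → ℕ → Bool := onCell 0 536870912 0 536870912 536870912 50465866
    (rowB 3 eng mog cd0q0 cd2q0 pd1 0 true true true .up 0 0 1 (qsf 0 536870912 0 536870912 1) ndB0q0 ndB2q0 pcB1 Cut.none Ext.none)

def k0_pp_001 : ∃ t, chk3 f_pp_001 t 1 1 1 = true :=
  ⟨(l 4), by decide +kernel⟩

theorem c_pp_001 : CertB 0 536870912 0 536870912 536870912 50465866 3 eng mog cd0q0 cd2q0 pd1 true true true .up 0 0 1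
    ndB0q0 ndB2q0 pcB1 Cut.none Ext.none :=
  certB0 (fam := true) (s1 := true) (s2 := true) (a := 0) (b := 0) (c := 1) (cn := .up) (n1 := ndB0q0) (n2 := ndB2q0) (pc := pcB1) (cut := Cut.none) (xt := Ext.none) (P1 := 0) (W1 := 536870912) (P2 := 0) (W2 := 536870912) (P3 := 536870912) (W3 := 50465866) (N0 := 3) (En := eng) (mo := mog) (C1 := cd0q0) (C2 := cd2q0) (C3 := pd1)
    rfl k0_pp_001

noncomputable def f_pp_011 : ℕ → ℕ → ℕ → ℕ → Bool := onCell 0 536870912 536870912 536870912 536870912 50465866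
    (rowB 3 eng mog cd0q0 cd2q1 pd1 0 true true true .pnn 0 1 1 (qsf 0 536870912 536870912 536870912 1) ndB0q0 ndB2q1 pcB1 Cut.none Ext.none)

def k0_pp_011 : ∃ t, chk3 f_pp_011 t 1 1 1 = true :=
  ⟨(l 4), by decide +kernel⟩

theorem c_pp_011 : CertB 0 536870912 536870912 536870912 536870912 50465866 3 eng mog cd0q0 cd2q1 pd1 true true true .pnn 0 1 1
    ndB0q0 ndB2q1 pcB1 Cut.none Ext.none :=
  certB0 (fam := true) (s1 := true) (s2 := true) (a := 0) (b := 1) (c := 1) (cn := .pnn) (n1 := ndB0q0) (n2 := ndB2q1) (pc := pcB1) (cut := Cut.none) (xt := Ext.none) (P1 := 0) (W1 := 536870912) (P2 := 536870912) (W2 := 536870912) (P3 := 536870912) (W3 := 50465866) (N0 := 3) (En := eng) (mo := mog) (C1 := cd0q0) (C2 := cd2q1) (C3 := pd1)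
    rfl k0_pp_011

noncomputable def f_pp_012 : ℕ → ℕ → ℕ → ℕ → Bool := onCell 0 536870912 536870912 536870912 536870912 50465866
    (rowB 3 eng mog cd0q0 cd2q1 pd2 0 true true true .pnp 0 1 2 (qsf 0 536870912 536870912 536870912 2) ndB0q0 ndB2q1 pcB2 Cut.none Ext.none)

def k0_pp_012 : ∃ t, chk3 f_pp_012 t 1 1 1 = true :=
  ⟨(l 4), by decide +kernel⟩

theorem c_pp_012 : CertB 0 536870912 536870912 536870912 536870912 50465866 3 eng mog cd0q0 cd2q1 pd2 true true true .pnp 0 1 2
    ndB0q0 ndB2q1 pcB2 Cut.none Ext.none :=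
  certB0 (fam := true) (s1 := true) (s2 := true) (a := 0) (b := 1) (c := 2) (cn := .pnp) (n1 := ndB0q0) (n2 := ndB2q1) (pc := pcB2) (cut := Cut.none) (xt := Ext.none) (P1 := 0) (W1 := 536870912) (P2 := 536870912) (W2 := 536870912) (P3 := 536870912) (W3 := 50465866) (N0 := 3) (En := eng) (mo := mog) (C1 := cd0q0) (C2 := cd2q1) (C3 := pd2)
    rfl k0_pp_012

noncomputable def cut_pp_022_a : Cut := Cut.of [[⟨0, 0, 0, 67108864⟩, ⟨1, 1, 0, 67108864⟩, ⟨2, 1, 0, 67108864⟩]]

noncomputable def f_pp_022_a : ℕ → ℕ → ℕ → ℕ → Bool := onCell 0 536870912 0 536870912 536870912 50465866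
    (rowB 3 eng mog cd0q0 cd2q2a pd2 0 true true true .pp 0 2 2 (qsf 0 536870912 0 536870912 2) ndB0q0 ndB2q2a pcB2 cut_pp_022_a Ext.none)

def k0_pp_022_a : ∃ t, chk3 f_pp_022_a t 2 2 1 = true :=
  ⟨(a (a (b (b (a (l 16520488) (l 16491088)) (a (a (l 16470160) (l 16501768)) (l 16539256))) (a (b (a (b (l 16485880) (l 16519120)) (b (a (l 16495000) (l 16500680)) (l 16552536))) (a (b (l 16512096) (l 16528424)) (b (l 16545880) (l 16541624)))) (b (b (l 16532712) (a (l 16521776) (l 16531200))) (a (a (b (l 16576392) (l 16551520)) (b (l 16582208) (l 16558048))) (b (l 16548064) (a (l 16564160) (l 16569824))))))) (b (a (b (l 16604656) (a (l 16518856) (l 16533952))) (b (a (l 16544384) (l 16560648)) (a (l 16549608) (l 16586800)))) (a (b (a (l 16553264) (l 16566176)) (a (b (l 16558120) (l 16578120)) (l 16620832))) (b (a (l 16580976) (l 16596392)) (a (l 16632808) (b (l 16596376) (l 16615568))))))) (a (b (a (a (b (l 16577112) (l 16582376)) (b (l 16593416) (l 16599000))) (a (b (l 16609384) (l 16615296)) (b (l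 16624816) (l 16652064)))) (b (a (a (l 16633392) (l 16670688)) (b (a (l 16618720) (l 16634368)) (a (l 16629016) (l 16665720)))) (a (b (a (l 16612216) (l 16628464)) (a (l 16652160) (l 16689488))) (b (a (l 16686800) (a (l 16678232) (l 16687008))) (a (b (l 16680480) (l 49626866631)) (l 4)))))) (b (a (b (a (l 16639504) (l 16653552)) (a (l 16667144) (l 16702552))) (b (b (l 16670000) (l 16697416)) (b (l 16721608) (a (l 16675248) (l 16688816))))) (b (b (a (a (l 16649304) (l 16684632)) (a (l 16720784) (l 16737288))) (a (a (l 16702192) (l 16718968)) (l 4))) (a (b (a (b (l 16695088) (l 4)) (l 4)) (l 4)) (l 4)))))), by decide +kernel⟩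

def k1_pp_022_a : ∃ t, chk3 f_pp_022_a t 4 6 1 = true :=
  ⟨(a (b (b (a (a (l 16547408) (l 16561008)) (a (l 16574640) (b (l 16634888) (l 16645928)))) (a (a (l 16590136) (l 16593664)) (a (l 16607760) (b (l 16605128) (l 16617424))))) (a (a (a (b (l 16590704) (l 16639768)) (b (l 16597416) (l 16646856))) (b (b (l 16601568) (l 16614848)) (b (l 16649864) (l 16664944)))) (a (b (b (l 16616008) (l 16629520)) (b (l 16654272) (l 16678504))) (b (a (l 16654720) (l 16662000)) (b (l 16669248) (a (l 16670256) (l 16677880))))))) (b (a (a (b (l 16600424) (a (a (l 16640952) (l 16644320)) (l 16670248))) (b (l 16612520) (l 16659128))) (a (b (l 16624848) (l 16675128)) (b (l 16658696) (b (l 16678920) (l 16692616))))) (a (b (a (b (a (l 16641224) (l 16669296)) (l 16679856)) (a (b (l 16655312) (l 16686152)) (l 16690632))) (a (b (l 16686824) (a (l 16685504) (l 16713936))) (a (b (l 16705752) (l 16721048)) (b (b (l 16709016) (l 4)) (l 4))))) (b (b (a (l 16693592) (b (l 4) (l 4))) (a (b (l 16704352) (l 16711520)) (l 4)))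 (l 4))))), by decide +kernel⟩

def k2_pp_022_a : ∃ t, chk3 f_pp_022_a t 4 7 1 = true :=
  ⟨(a (b (a (a (b (a (b (l 16641440) (b (l 16653368) (l 16661552))) (b (l 16648840) (l 16675568))) (b (c (a (b (l 16670440) (l 6)) (l 16687608)) (a (b (l 16669424) (l 6)) (l 16681592))) (a (l 6) (b (l 16700296) (l 6))))) (a (b (b (l 16656192) (l 16683120)) (b (a (l 16687720) (l 16712528)) (b (l 16713336) (a (l 6) (l 16713888))))) (b (b (l 16663488) (l 16701104)) (b (a (l 16716344) (l 16709664)) (b (l 16721064) (b (l 16717408) (l 16732520))))))) (b (a (b (c (l 16695664) (l 16685088)) (a (l 16708552) (l 16705696))) (b (a (l 16707240) (l 16704504)) (a (a (l 16722072) (l 16715504)) (b (l 16727480) (l 16725448))))) (a (b (a (c (l 16715496) (l 16715280)) (b (l 16708224) (l 16727624))) (a (b (l 16728800) (a (l 16736072) (l 16740024))) (b (c (l 16736680) (l 16736576)) (l 4)))) (b (a (b (l 16726528) (c (l 16735336) (l 16724776))) (l 4)) (l 4))))) (a (b (a (l 6) (b (a (l 6) (a (b (l 16737608) (l 6)) (b (l 16741528)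 (a (l 16744888) (l 16746880))))) (l 6))) (l 6)) (b (a (b (a (a (b (a (l 16744504) (l 16746472)) (l 4)) (l 4)) (l 4)) (l 4)) (l 4)) (l 4)))) (b (a (b (a (b (c (a (l 16722720) (l 16729856)) (a (l 16722336) (l 16708704))) (l 4)) (l 4)) (l 4)) (l 4)) (l 4))), by decide +kernel⟩

def k3_pp_022_a : ∃ t, chk3 f_pp_022_a t 5 3 1 = true :=
  ⟨(b (a (b (a (b (b (a (l 16647304) (l 37815659047)) (a (l 16680576) (l 4))) (a (b (l 14193384711) (l 4)) (l 4))) (l 4)) (l 4)) (l 4)) (l 4)), by decide +kernel⟩

def k4_pp_022_a : ∃ t, chk3 f_pp_022_a t 3 1 1 = true :=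
  ⟨(b (b (a (a (b (a (c (l 16743896) (l 16733384)) (a (l 16754192) (b (l 16717928) (l 16749496)))) (a (b (a (l 16698176) (l 16731496)) (a (l 16724360) (l 4))) (a (b (l 16745168) (l 4)) (l 4)))) (b (a (b (a (l 16749928) (l 70564881415)) (l 4)) (l 4)) (l 4))) (l 2)) (l 4)) (l 4)), by decide +kernel⟩

theorem s5_pp_022_a : ∃ t, chk3 f_pp_022_a t 4 3 1 = true := ex3_b k1_pp_022_a k2_pp_022_a

theorem s6_pp_022_a : ∃ t, chk3 f_pp_022_a t 2 3 1 = true := ex3_a s5_pp_022_a k3_pp_022_a

theorem s7_pp_022_a : ∃ t, chk3 f_pp_022_a t 2 1 1 = true := ex3_b k0_pp_022_a s6_pp_022_a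

theorem s8_pp_022_a : ∃ t, chk3 f_pp_022_a t 1 1 1 = true := ex3_a s7_pp_022_a k4_pp_022_a

theorem c_pp_022_a : CertB 0 536870912 0 536870912 536870912 50465866 3 eng mog cd0q0 cd2q2a pd2 true true true .pp 0 2 2
    ndB0q0 ndB2q2a pcB2 cut_pp_022_a Ext.none :=
  certB0 (fam := true) (s1 := true) (s2 := true) (a := 0) (b := 2) (c := 2) (cn := .pp) (n1 := ndB0q0) (n2 := ndB2q2a) (pc := pcB2) (cut := cut_pp_022_a) (xt := Ext.none) (P1 := 0) (W1 := 536870912) (P2 := 0) (W2 := 536870912) (P3 := 536870912) (W3 := 50465866) (N0 := 3) (En := eng) (mo := mog) (C1 := cd0q0) (C2 := cd2q2a) (C3 := pd2)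
    rfl s8_pp_022_a

noncomputable def cut_pp_022_b : Cut := Cut.of [[⟨0, 0, 0, 67108864⟩, ⟨1, 1, 0, 67108864⟩, ⟨2, 1, 0, 67108864⟩]]

noncomputable def f_pp_022_b : ℕ → ℕ → ℕ → ℕ → Bool := onCell 1073741824 536870912 1239849684 370763052 536870912 50465866
    (rowB 3 eng mog cd0q0 cd2q2b pd2 2 true true true .pp 0 2 2 (qsf 0 536870912 1239849684 370763052 2) ndB0q0 ndB2q2b pcB2 cut_pp_022_b Ext.none)

def k0_pp_022_b : ∃ t, chk3 f_pp_022_b t 1 1 1 = true :=
  ⟨(a (a (l 1) (b (b (b (a (a (l 16477104) (a (l 16490128) (b (l 16440264) (l 16382528)))) (a (b (l 16460632) (l 16411600)) (b (l 16532016) (l 16432192)))) (a (l 1) (a (b (l 16355632) (l 1)) (b (l 16374480) (l 16358992))))) (a (l 1) (a (l 1) (b (b (l 16259968) (l 1)) (l 1))))) (l 1))) (a (b (b (a (b (a (b (l 16542680) (l 16464336)) (b (l 16575576) (l 16498568))) (a (b (l 16406816) (l 16349408)) (b (l 16441848) (l 16384856)))) (b (a (b (l 16607776) (l 16532912)) (b (l 16679584) (l 16565440))) (a (b (l 16477776) (l 16421848)) (b (l 16512680)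 (l 16458504))))) (a (b (a (b (l 16292264) (l 16235536)) (l 16362520)) (a (l 1) (l 16271248))) (b (a (l 16358432) (l 16375840)) (a (l 16225760) (l 16265352))))) (a (l 1) (b (b (a (l 16115544) (l 16155760)) (l 16215936)) (l 1)))) (b (b (a (b (a (b (l 16706416) (l 16595000)) (b (a (l 16661376) (l 16671864)) (l 16619880))) (a (b (l 16544744) (l 16492952)) (b (l 16572088) (l 16522544)))) (b (a (b (a (l 16681616) (l 16670344)) (l 16640464)) (b (a (l 16700744) (l 16753696)) (l 16703504))) (a (b (l 16593928) (l 16546432)) (b (l 16616816) (l 16572008))))) (a (b (a (l 16412944) (l 16508672)) (a (l 16304504) (l 16340328))) (a (b (l 16494080) (l 16371408)) (b (b (l 16526440) (l 16480072)) (l 16408248))))) (a (b (b (a (l 16195976) (l 16233336)) (a (l 16088760) (l 16127008))) (a (l 1) (l 15971800))) (b (a (b (l 16266552) (l 16161296)) (b (l 16307712) (l 16203808))) (a (l 16007248) (l 16090376))))))), by decide +kernel⟩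

theorem c_pp_022_b : CertB 0 536870912 1239849684 370763052 536870912 50465866 3 eng mog cd0q0 cd2q2b pd2 true true true .pp 0 2 2
    ndB0q0 ndB2q2b pcB2 cut_pp_022_b Ext.none :=
  certB2 (fam := true) (s1 := true) (s2 := true) (a := 0) (b := 2) (c := 2) (cn := .pp) (n1 := ndB0q0) (n2 := ndB2q2b) (pc := pcB2) (cut := cut_pp_022_b) (xt := Ext.none) (P1 := 0) (W1 := 536870912) (P2 := 1239849684) (W2 := 370763052) (P3 := 536870912) (W3 := 50465866) (N0 := 3) (En := eng) (mo := mog) (C1 := cd0q0) (C2 := cd2q2b) (C3 := pd2)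
    rfl (fun _ => rfl) k0_pp_022_b

noncomputable def f_pp_023_a : ℕ → ℕ → ℕ → ℕ → Bool := onCell 1610612736 536870912 0 536870912 536870912 50465866
    (rowB 3 eng mog cd0q0 cd2q2a pd3 2 true true true .up 0 2 3 (qsf 0 536870912 0 536870912 3) ndB0q0 ndB2q2a pcB3 Cut.none Ext.none)

def k0_pp_023_a : ∃ t, chk3 f_pp_023_a t 1 1 1 = true :=
  ⟨(a (a (b (l 4) (l 4)) (l 4)) (l 2)), by decide +kernel⟩

theorem c_pp_023_a : CertB 0 536870912 0 536870912 536870912 50465866 3 eng mog cd0q0 cd2q2a pd3 true true true .up 0 2 3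
    ndB0q0 ndB2q2a pcB3 Cut.none Ext.none :=
  certB2 (fam := true) (s1 := true) (s2 := true) (a := 0) (b := 2) (c := 3) (cn := .up) (n1 := ndB0q0) (n2 := ndB2q2a) (pc := pcB3) (cut := Cut.none) (xt := Ext.none) (P1 := 0) (W1 := 536870912) (P2 := 0) (W2 := 536870912) (P3 := 536870912) (W3 := 50465866) (N0 := 3) (En := eng) (mo := mog) (C1 := cd0q0) (C2 := cd2q2a) (C3 := pd3)
    rfl (fun _ => rfl) k0_pp_023_a

noncomputable def f_pp_023_b : ℕ → ℕ → ℕ → ℕ → Bool := onCell 1610612736 536870912 1239849684 370763052 536870912 50465866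
    (rowB 3 eng mog cd0q0 cd2q2b pd3 2 true true true .up 0 2 3 (qsf 0 536870912 1239849684 370763052 3) ndB0q0 ndB2q2b pcB3 Cut.none Ext.none)

def k0_pp_023_b : ∃ t, chk3 f_pp_023_b t 1 1 1 = true :=
  ⟨(a (b (a (a (b (l 4) (l 4)) (l 4)) (l 4)) (l 4)) (l 4)), by decide +kernel⟩

theorem c_pp_023_b : CertB 0 536870912 1239849684 370763052 536870912 50465866 3 eng mog cd0q0 cd2q2b pd3 true true true .up 0 2 3
    ndB0q0 ndB2q2b pcB3 Cut.none Ext.none :=
  certB2 (fam := true) (s1 := true) (s2 := true) (a := 0) (b := 2) (c := 3) (cn := .up) (n1 := ndB0q0) (n2 := ndB2q2b) (pc := pcB3) (cut := Cut.none) (xt := Ext.none) (P1 := 0) (W1 := 536870912) (P2 := 1239849684) (W2 := 370763052) (P3 := 536870912) (W3 := 50465866) (N0 := 3) (En := eng) (mo := mog) (C1 := cd0q0) (C2 := cd2q2b) (C3 := pd3)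
    rfl (fun _ => rfl) k0_pp_023_b

noncomputable def f_pp_033 : ℕ → ℕ → ℕ → ℕ → Bool := onCell 0 536870912 1610612736 536870912 536870912 50465866
    (rowB 3 eng mog cd0q0 cd2q3 pd3 1 true true true .pnn 0 3 3 (qsf 0 536870912 1610612736 536870912 3) ndB0q0 ndB2q3 pcB3 Cut.none Ext.none)

def k0_pp_033 : ∃ t, chk3 f_pp_033 t 1 1 1 = true :=
  ⟨(b (b (a (l 4) (l 1)) (l 4)) (l 4)), by decide +kernel⟩

theorem c_pp_033 : CertB 0 536870912 1610612736 536870912 536870912 50465866 3 eng mog cd0q0 cd2q3 pd3 true true true .pnn 0 3 3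
    ndB0q0 ndB2q3 pcB3 Cut.none Ext.none :=
  certB1 (fam := true) (s1 := true) (s2 := true) (a := 0) (b := 3) (c := 3) (cn := .pnn) (n1 := ndB0q0) (n2 := ndB2q3) (pc := pcB3) (cut := Cut.none) (xt := Ext.none) (P1 := 0) (W1 := 536870912) (P2 := 1610612736) (W2 := 536870912) (P3 := 536870912) (W3 := 50465866) (N0 := 3) (En := eng) (mo := mog) (C1 := cd0q0) (C2 := cd2q3) (C3 := pd3)
    rfl (fun _ => rfl) k0_pp_033

noncomputable def f_pp_101 : ℕ → ℕ → ℕ → ℕ → Bool := onCell 536870912 536870912 0 536870912 536870912 50465866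
    (rowB 3 eng mog cd0q1 cd2q0 pd1 0 true true true .npn 1 0 1 (qsf 536870912 536870912 0 536870912 1) ndB0q1 ndB2q0 pcB1 Cut.none Ext.none)

def k0_pp_101 : ∃ t, chk3 f_pp_101 t 1 1 1 = true :=
  ⟨(l 5), by decide +kernel⟩

theorem c_pp_101 : CertB 536870912 536870912 0 536870912 536870912 50465866 3 eng mog cd0q1 cd2q0 pd1 true true true .npn 1 0 1
    ndB0q1 ndB2q0 pcB1 Cut.none Ext.none :=
  certB0 (fam := true) (s1 := true) (s2 := true) (a := 1) (b := 0) (c := 1) (cn := .npn) (n1 := ndB0q1) (n2 := ndB2q0) (pc := pcB1) (cut := Cut.none) (xt := Ext.none) (P1 := 536870912) (W1 := 536870912) (P2 := 0) (W2 := 536870912) (P3 := 536870912) (W3 := 50465866) (N0 := 3) (En := eng) (mo := mog) (C1 := cd0q1) (C2 := cd2q0) (C3 := pd1)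
    rfl k0_pp_101

noncomputable def f_pp_102 : ℕ → ℕ → ℕ → ℕ → Bool := onCell 536870912 536870912 0 536870912 536870912 50465866
    (rowB 3 eng mog cd0q1 cd2q0 pd2 0 true true true .npp 1 0 2 (qsf 536870912 536870912 0 536870912 2) ndB0q1 ndB2q0 pcB2 Cut.none Ext.none)

def k0_pp_102 : ∃ t, chk3 f_pp_102 t 1 1 1 = true :=
  ⟨(l 5), by decide +kernel⟩

theorem c_pp_102 : CertB 536870912 536870912 0 536870912 536870912 50465866 3 eng mog cd0q1 cd2q0 pd2 true true true .npp 1 0 2
    ndB0q1 ndB2q0 pcB2 Cut.none Ext.none :=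
  certB0 (fam := true) (s1 := true) (s2 := true) (a := 1) (b := 0) (c := 2) (cn := .npp) (n1 := ndB0q1) (n2 := ndB2q0) (pc := pcB2) (cut := Cut.none) (xt := Ext.none) (P1 := 536870912) (W1 := 536870912) (P2 := 0) (W2 := 536870912) (P3 := 536870912) (W3 := 50465866) (N0 := 3) (En := eng) (mo := mog) (C1 := cd0q1) (C2 := cd2q0) (C3 := pd2)
    rfl k0_pp_102

noncomputable def f_pp_112 : ℕ → ℕ → ℕ → ℕ → Bool := onCell 536870912 536870912 536870912 536870912 536870912 50465866
    (rowB 3 eng mog cd0q1 cd2q1 pd2 0 true true true .dn 1 1 2 (qsf 536870912 536870912 536870912 536870912 2) ndB0q1 ndB2q1 pcB2 Cut.none Ext.none)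

def k0_pp_112 : ∃ t, chk3 f_pp_112 t 1 1 1 = true :=
  ⟨(l 4), by decide +kernel⟩

theorem c_pp_112 : CertB 536870912 536870912 536870912 536870912 536870912 50465866 3 eng mog cd0q1 cd2q1 pd2 true true true .dn 1 1 2
    ndB0q1 ndB2q1 pcB2 Cut.none Ext.none :=
  certB0 (fam := true) (s1 := true) (s2 := true) (a := 1) (b := 1) (c := 2) (cn := .dn) (n1 := ndB0q1) (n2 := ndB2q1) (pc := pcB2) (cut := Cut.none) (xt := Ext.none) (P1 := 536870912) (W1 := 536870912) (P2 := 536870912) (W2 := 536870912) (P3 := 536870912) (W3 := 50465866) (N0 := 3) (En := eng) (mo := mog) (C1 := cd0q1) (C2 := cd2q1) (C3 := pd2)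
    rfl k0_pp_112

noncomputable def f_pp_113 : ℕ → ℕ → ℕ → ℕ → Bool := onCell 536870912 536870912 536870912 536870912 536870912 50465866
    (rowB 3 eng mog cd0q1 cd2q1 pd3 0 true true true .nn 1 1 3 (qsf 536870912 536870912 536870912 536870912 3) ndB0q1 ndB2q1 pcB3 Cut.none Ext.none)

def k0_pp_113 : ∃ t, chk3 f_pp_113 t 1 1 1 = true :=
  ⟨(l 4), by decide +kernel⟩

theorem c_pp_113 : CertB 536870912 536870912 536870912 536870912 536870912 50465866 3 eng mog cd0q1 cd2q1 pd3 true true true .nn 1 1 3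
    ndB0q1 ndB2q1 pcB3 Cut.none Ext.none :=
  certB0 (fam := true) (s1 := true) (s2 := true) (a := 1) (b := 1) (c := 3) (cn := .nn) (n1 := ndB0q1) (n2 := ndB2q1) (pc := pcB3) (cut := Cut.none) (xt := Ext.none) (P1 := 536870912) (W1 := 536870912) (P2 := 536870912) (W2 := 536870912) (P3 := 536870912) (W3 := 50465866) (N0 := 3) (En := eng) (mo := mog) (C1 := cd0q1) (C2 := cd2q1) (C3 := pd3)
    rfl k0_pp_113

noncomputable def f_pp_123_a : ℕ → ℕ → ℕ → ℕ → Bool := onCell 536870912 536870912 0 536870912 536870912 50465866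
    (rowB 3 eng mog cd0q1 cd2q2a pd3 0 true true true .npn 1 2 3 (qsf 536870912 536870912 0 536870912 3) ndB0q1 ndB2q2a pcB3 Cut.none Ext.none)

def k0_pp_123_a : ∃ t, chk3 f_pp_123_a t 1 1 1 = true :=
  ⟨(l 4), by decide +kernel⟩

theorem c_pp_123_a : CertB 536870912 536870912 0 536870912 536870912 50465866 3 eng mog cd0q1 cd2q2a pd3 true true true .npn 1 2 3
    ndB0q1 ndB2q2a pcB3 Cut.none Ext.none :=
  certB0 (fam := true) (s1 := true) (s2 := true) (a := 1) (b := 2) (c := 3) (cn := .npn) (n1 := ndB0q1) (n2 := ndB2q2a) (pc := pcB3) (cut := Cut.none) (xt := Ext.none) (P1 := 536870912) (W1 := 536870912) (P2 := 0) (W2 := 536870912) (P3 := 536870912) (W3 := 50465866) (N0 := 3) (En := eng) (mo := mog) (C1 := cd0q1) (C2 := cd2q2a) (C3 := pd3)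
    rfl k0_pp_123_a

noncomputable def f_pp_123_b : ℕ → ℕ → ℕ → ℕ → Bool := onCell 536870912 536870912 1239849684 370763052 536870912 50465866
    (rowB 3 eng mog cd0q1 cd2q2b pd3 0 true true true .npn 1 2 3 (qsf 536870912 536870912 1239849684 370763052 3) ndB0q1 ndB2q2b pcB3 Cut.none Ext.none)

def k0_pp_123_b : ∃ t, chk3 f_pp_123_b t 1 1 1 = true :=
  ⟨(a (l 4) (l 4)), by decide +kernel⟩

theorem c_pp_123_b : CertB 536870912 536870912 1239849684 370763052 536870912 50465866 3 eng mog cd0q1 cd2q2b pd3 true true true .npn 1 2 3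
    ndB0q1 ndB2q2b pcB3 Cut.none Ext.none :=
  certB0 (fam := true) (s1 := true) (s2 := true) (a := 1) (b := 2) (c := 3) (cn := .npn) (n1 := ndB0q1) (n2 := ndB2q2b) (pc := pcB3) (cut := Cut.none) (xt := Ext.none) (P1 := 536870912) (W1 := 536870912) (P2 := 1239849684) (W2 := 370763052) (P3 := 536870912) (W3 := 50465866) (N0 := 3) (En := eng) (mo := mog) (C1 := cd0q1) (C2 := cd2q2b) (C3 := pd3)
    rfl k0_pp_123_b

noncomputable def f_pp_133 : ℕ → ℕ → ℕ → ℕ → Bool := onCell 536870912 536870912 1610612736 536870912 536870912 50465866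
    (rowB 3 eng mog cd0q1 cd2q3 pd3 0 true true true .dn 1 3 3 (qsf 536870912 536870912 1610612736 536870912 3) ndB0q1 ndB2q3 pcB3 Cut.none Ext.none)

def k0_pp_133 : ∃ t, chk3 f_pp_133 t 1 1 1 = true :=
  ⟨(l 4), by decide +kernel⟩

theorem c_pp_133 : CertB 536870912 536870912 1610612736 536870912 536870912 50465866 3 eng mog cd0q1 cd2q3 pd3 true true true .dn 1 3 3
    ndB0q1 ndB2q3 pcB3 Cut.none Ext.none :=
  certB0 (fam := true) (s1 := true) (s2 := true) (a := 1) (b := 3) (c := 3) (cn := .dn) (n1 := ndB0q1) (n2 := ndB2q3) (pc := pcB3) (cut := Cut.none) (xt := Ext.none) (P1 := 536870912) (W1 := 536870912) (P2 := 1610612736) (W2 := 536870912) (P3 := 536870912) (W3 := 50465866) (N0 := 3) (En := eng) (mo := mog) (C1 := cd0q1) (C2 := cd2q3) (C3 := pd3)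
    rfl k0_pp_133

noncomputable def f_pp_202 : ℕ → ℕ → ℕ → ℕ → Bool := onCell 0 536870912 0 536870912 536870912 50465866
    (rowB 3 eng mog cd0q2 cd2q0 pd2 0 true true true .pp 2 0 2 (qsf 0 536870912 0 536870912 2) ndB0q2 ndB2q0 pcB2 Cut.none Ext.none)

def k0_pp_202 : ∃ t, chk3 f_pp_202 t 1 1 1 = true :=
  ⟨(l 5), by decide +kernel⟩

theorem c_pp_202 : CertB 0 536870912 0 536870912 536870912 50465866 3 eng mog cd0q2 cd2q0 pd2 true true true .pp 2 0 2
    ndB0q2 ndB2q0 pcB2 Cut.none Ext.none :=
  certB0 (fam := true) (s1 := true) (s2 := true) (a := 2) (b := 0) (c := 2) (cn := .pp) (n1 := ndB0q2) (n2 := ndB2q0) (pc := pcB2) (cut := Cut.none) (xt := Ext.none) (P1 := 0) (W1 := 536870912) (P2 := 0) (W2 := 536870912) (P3 := 536870912) (W3 := 50465866) (N0 := 3) (En := eng) (mo := mog) (C1 := cd0q2) (C2 := cd2q0) (C3 := pd2)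
    rfl k0_pp_202

noncomputable def f_pp_203 : ℕ → ℕ → ℕ → ℕ → Bool := onCell 0 536870912 0 536870912 536870912 50465866
    (rowB 3 eng mog cd0q2 cd2q0 pd3 0 true true true .up 2 0 3 (qsf 0 536870912 0 536870912 3) ndB0q2 ndB2q0 pcB3 Cut.none Ext.none)

def k0_pp_203 : ∃ t, chk3 f_pp_203 t 1 1 1 = true :=
  ⟨(l 5), by decide +kernel⟩

theorem c_pp_203 : CertB 0 536870912 0 536870912 536870912 50465866 3 eng mog cd0q2 cd2q0 pd3 true true true .up 2 0 3
    ndB0q2 ndB2q0 pcB3 Cut.none Ext.none :=
  certB0 (fam := true) (s1 := true) (s2 := true) (a := 2) (b := 0) (c := 3) (cn := .up) (n1 := ndB0q2) (n2 := ndB2q0) (pc := pcB3) (cut := Cut.none) (xt := Ext.none) (P1 := 0) (W1 := 536870912) (P2 := 0) (W2 := 536870912) (P3 := 536870912) (W3 := 50465866) (N0 := 3) (En := eng) (mo := mog) (C1 := cd0q2) (C2 := cd2q0) (C3 := pd3)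
    rfl k0_pp_203

noncomputable def f_pp_213 : ℕ → ℕ → ℕ → ℕ → Bool := onCell 0 536870912 536870912 536870912 536870912 50465866
    (rowB 3 eng mog cd0q2 cd2q1 pd3 0 true true true .pnn 2 1 3 (qsf 0 536870912 536870912 536870912 3) ndB0q2 ndB2q1 pcB3 Cut.none Ext.none)

def k0_pp_213 : ∃ t, chk3 f_pp_213 t 1 1 1 = true :=
  ⟨(l 4), by decide +kernel⟩

theorem c_pp_213 : CertB 0 536870912 536870912 536870912 536870912 50465866 3 eng mog cd0q2 cd2q1 pd3 true true true .pnn 2 1 3
    ndB0q2 ndB2q1 pcB3 Cut.none Ext.none :=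
  certB0 (fam := true) (s1 := true) (s2 := true) (a := 2) (b := 1) (c := 3) (cn := .pnn) (n1 := ndB0q2) (n2 := ndB2q1) (pc := pcB3) (cut := Cut.none) (xt := Ext.none) (P1 := 0) (W1 := 536870912) (P2 := 536870912) (W2 := 536870912) (P3 := 536870912) (W3 := 50465866) (N0 := 3) (En := eng) (mo := mog) (C1 := cd0q2) (C2 := cd2q1) (C3 := pd3)
    rfl k0_pp_213

noncomputable def f_pm_001 : ℕ → ℕ → ℕ → ℕ → Bool := onCell 0 536870912 0 536870912 536870912 50465866
    (rowB 3 eng mog cd0q0 cd2q0 pd1 0 true true false .up 0 0 1 (qsf 0 536870912 0 536870912 1) ndB0q0 ndB2q0 pcB1 Cut.none Ext.none)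

def k0_pm_001 : ∃ t, chk3 f_pm_001 t 1 1 1 = true :=
  ⟨(l 3), by decide +kernel⟩

theorem c_pm_001 : CertB 0 536870912 0 536870912 536870912 50465866 3 eng mog cd0q0 cd2q0 pd1 true true false .up 0 0 1
    ndB0q0 ndB2q0 pcB1 Cut.none Ext.none :=
  certB0 (fam := true) (s1 := true) (s2 := false) (a := 0) (b := 0) (c := 1) (cn := .up) (n1 := ndB0q0) (n2 := ndB2q0) (pc := pcB1) (cut := Cut.none) (xt := Ext.none) (P1 := 0) (W1 := 536870912) (P2 := 0) (W2 := 536870912) (P3 := 536870912) (W3 := 50465866) (N0 := 3) (En := eng) (mo := mog) (C1 := cd0q0) (C2 := cd2q0) (C3 := pd1)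
    rfl k0_pm_001

noncomputable def f_pm_011 : ℕ → ℕ → ℕ → ℕ → Bool := onCell 0 536870912 536870912 536870912 536870912 50465866
    (rowB 3 eng mog cd0q0 cd2q1 pd1 1 true true false .pnn 0 1 1 (qsf 0 536870912 536870912 536870912 1) ndB0q0 ndB2q1 pcB1 Cut.none Ext.none)

def k0_pm_011 : ∃ t, chk3 f_pm_011 t 1 1 1 = true :=
  ⟨(l 3), by decide +kernel⟩

theorem c_pm_011 : CertB 0 536870912 536870912 536870912 536870912 50465866 3 eng mog cd0q0 cd2q1 pd1 true true false .pnn 0 1 1
    ndB0q0 ndB2q1 pcB1 Cut.none Ext.none :=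
  certB1 (fam := true) (s1 := true) (s2 := false) (a := 0) (b := 1) (c := 1) (cn := .pnn) (n1 := ndB0q0) (n2 := ndB2q1) (pc := pcB1) (cut := Cut.none) (xt := Ext.none) (P1 := 0) (W1 := 536870912) (P2 := 536870912) (W2 := 536870912) (P3 := 536870912) (W3 := 50465866) (N0 := 3) (En := eng) (mo := mog) (C1 := cd0q0) (C2 := cd2q1) (C3 := pd1)
    rfl (fun _ => rfl) k0_pm_011

noncomputable def f_pm_012 : ℕ → ℕ → ℕ → ℕ → Bool := onCell 0 536870912 1073741824 536870912 536870912 50465866
    (rowB 3 eng mog cd0q0 cd2q1 pd2 1 true true false .pnp 0 1 2 (qsf 0 536870912 536870912 536870912 2) ndB0q0 ndB2q1 pcB2 Cut.none Ext.none)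

def k0_pm_012 : ∃ t, chk3 f_pm_012 t 2 1 1 = true :=
  ⟨(b (b (b (l 3) (a (b (l 3) (a (l 2) (l 3))) (l 3))) (b (b (b (a (a (l 2) (a (l 2) (l 3))) (l 3)) (a (l 2) (a (a (a (b (l 1294563210199) (l 2)) (b (l 3) (b (b (l 16527960) (l 16524304)) (b (b (l 16521496) (l 16519672)) (l 16517104))))) (b (l 3) (b (b (l 3) (l 16595384)) (b (b (l 16529752) (a (l 16525152) (l 16531008))) (b (b (b (l 16527064) (b (l 16526768) (l 16526576))) (l 16526056)) (l 16524816)))))) (b (l 3) (b (l 3) (b (b (a (l 16563104) (l 3)) (a (a (l 16537416) (l 16544080)) (a (l 16550608) (l 3)))) (b (b (b (a (l 16539776) (l 16553016)) (b (a (l 16539496) (l 16552776)) (a (l 16539320) (l 16552608)))) (a (l 16538856) (l 16552200))) (a (l 16537728) (l 16551208))))))))) (a (l 2) (a (a (a (l 2) (l 16550096)) (a (b (l 16507400) (l 16479664)) (b (l 16513968) (l 16487184)))) (a (a (l 16529504) (l 16537632)) (a (l 16545720) (l 16553568)))))) (a (l 2) (a (a (l 2) (b (a (l 2) (l 16446080)) (l 2))) (a (b (a (b (l 16469048) (l 16442008)) (b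 (l 16478872) (l 16452768))) (a (l 2) (l 16412728))) (b (a (l 16476520) (l 16486984)) (a (b (l 16438072) (l 16411728)) (b (l 16450264) (l 16424864))))))))) (b (a (l 2) (b (a (l 2) (a (l 2) (b (a (l 2) (l 16385848)) (l 2)))) (l 2))) (l 2))), by decide +kernel⟩

def k1_pm_012 : ∃ t, chk3 f_pm_012 t 3 4 1 = true :=
  ⟨(l 3), by decide +kernel⟩

def k2_pm_012 : ∃ t, chk3 f_pm_012 t 3 20 1 = true :=
  ⟨(b (a (l 3) (a (l 3) (b (l 3) (a (b (l 3) (a (l 3) (c (l 16579968) (l 107541565095)))) (b (a (l 3) (l 16563320)) (a (b (l 16574392) (l 92509179383)) (l 16568704))))))) (b (a (l 3) (a (b (a (l 3) (a (l 3) (l 16571104))) (a (b (l 3) (l 16571112)) (b (l 16570824) (l 16571160)))) (a (b (b (a (l 16573136) (l 16576648)) (l 16575536)) (b (l 16576088) (l 16576120))) (b (a (a (b (l 16579240) (l 16580760)) (l 16578680)) (l 16574280)) (a (b (l 16581112) (l 16582176)) (l 16579968)))))) (a (b (a (l 3) (a (b (l 3) (l 16576864)) (b (l 16575192) (l 16595928)))) (a (b (b (l 3) (a (l 3) (a (l 16571320) (l 16573760))))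 (b (b (b (a (l 16564408) (l 16571904)) (b (a (l 16564192) (l 16571712)) (a (l 16564048) (l 16571592)))) (a (l 16563696) (l 16571288))) (a (l 16562840) (l 16570576)))) (b (b (a (l 16575904) (l 16574704)) (a (a (l 16574928) (l 16575264)) (c (l 16577928) (l 16570776)))) (b (b (b (a (l 16574616) (l 16573944)) (b (a (l 16574464) (l 16573792)) (a (l 16574352) (l 16573680)))) (a (l 16574112) (l 16573528))) (a (l 16573560) (l 16573144)))))) (b (a (b (a (l 16571432) (l 16571264)) (a (l 16571928) (l 16573352))) (a (b (l 16577056) (l 16580824)) (a (b (l 16585424) (l 16589216)) (l 16588592)))) (a (b (b (a (l 16572728) (l 16575176)) (a (l 16572856) (l 16575344))) (a (l 16572104) (l 16574680))) (b (a (c (l 16585800) (l 16579104)) (a (l 16589840) (l 16590840))) (a (l 16581568) (a (l 16588888) (l 16590744))))))))), by decide +kernel⟩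

def k3_pm_012 : ∃ t, chk3 f_pm_012 t 3 21 1 = true :=
  ⟨(a (a (a (a (l 16560936) (l 16546568)) (a (l 16552120) (l 16556336))) (a (b (l 16567064) (l 16553592)) (b (l 16568592) (l 16558552)))) (a (a (l 16566456) (l 16572808)) (a (l 16583160) (b (a (l 16591248) (l 16595952)) (l 16597264))))), by decide +kernel⟩

def k4_pm_012 : ∃ t, chk3 f_pm_012 t 3 11 1 = true :=
  ⟨(a (a (a (b (a (l 16497112) (l 16506576)) (a (l 16450344) (l 16462448))) (b (a (l 16515056) (l 16522232)) (l 16478728))) (a (b (l 16531040) (l 16496736)) (b (l 16540736) (l 16512384)))) (a (a (b (l 16550144) (l 16528120)) (l 16556568)) (a (l 16576728) (l 16598792)))), by decide +kernel⟩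

def k5_pm_012 : ∃ t, chk3 f_pm_012 t 3 3 1 = true :=
  ⟨(b (a (a (b (a (b (a (l 16400336) (l 16414688)) (a (l 2) (l 16364160))) (b (l 16434744) (a (l 16379784) (l 16394568)))) (a (l 2) (b (l 16337088) (l 2)))) (b (a (b (l 16458112) (l 16415472)) (l 16461752)) (a (b (l 16369104) (l 16319760)) (b (l 16401040) (l 16355752))))) (a (b (a (l 16486584) (l 16516416)) (a (l 16415808) (l 16459336))) (b (a (l 16550480) (l 16586392)) (a (l 16508680) (l 16560656))))) (a (b (a (l 2) (a (l 2) (l 16429168))) (l 2)) (a (b (a (l 16348944) (l 16384856)) (a (l 2) (l 16291912))) (b (a (l 16450928) (l 16521904)) (a (l 16373760) (l 16465392)))))), by decide +kernel⟩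

theorem s6_pm_012 : ∃ t, chk3 f_pm_012 t 3 10 1 = true := ex3_b k2_pm_012 k3_pm_012

theorem s7_pm_012 : ∃ t, chk3 f_pm_012 t 3 5 1 = true := ex3_b s6_pm_012 k4_pm_012

theorem s8_pm_012 : ∃ t, chk3 f_pm_012 t 3 2 1 = true := ex3_b k1_pm_012 s7_pm_012

theorem s9_pm_012 : ∃ t, chk3 f_pm_012 t 3 1 1 = true := ex3_b s8_pm_012 k5_pm_012

theorem s10_pm_012 : ∃ t, chk3 f_pm_012 t 1 1 1 = true := ex3_a k0_pm_012 s9_pm_012

theorem c_pm_012 : CertB 0 536870912 536870912 536870912 536870912 50465866 3 eng mog cd0q0 cd2q1 pd2 true true false .pnp 0 1 2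
    ndB0q0 ndB2q1 pcB2 Cut.none Ext.none :=
  certB1 (fam := true) (s1 := true) (s2 := false) (a := 0) (b := 1) (c := 2) (cn := .pnp) (n1 := ndB0q0) (n2 := ndB2q1) (pc := pcB2) (cut := Cut.none) (xt := Ext.none) (P1 := 0) (W1 := 536870912) (P2 := 536870912) (W2 := 536870912) (P3 := 536870912) (W3 := 50465866) (N0 := 3) (En := eng) (mo := mog) (C1 := cd0q0) (C2 := cd2q1) (C3 := pd2)
    rfl (fun _ => rfl) s10_pm_012

noncomputable def cut_pm_022_a : Cut := Cut.of [[⟨0, 0, 0, 67108864⟩, ⟨1, 1, 0, 67108864⟩, ⟨2, 1, 0, 67108864⟩], [⟨0, 0, 1, 20971520⟩, ⟨1, 1, 0, 33554432⟩, ⟨2, 1, 1, 20971520⟩]]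

noncomputable def xt_pm_022_a : Ext := extD2 3 ⟨7, 3, 3, 10, 1741, 1000, 23, 25, 19, 50, 3, 16⟩ eng cd0q0 cd2q2a pd2 true true false .pp 0 2 2 rfl ndB0q0 ndB2q2a pcB2

noncomputable def f_pm_022_a : ℕ → ℕ → ℕ → ℕ → Bool := onCell 1073741824 536870912 0 536870912 536870912 50465866
    (rowB 3 eng mog cd0q0 cd2q2a pd2 2 true true false .pp 0 2 2 (qsf 0 536870912 0 536870912 2) ndB0q0 ndB2q2a pcB2 cut_pm_022_a xt_pm_022_a)

def k0_pm_022_a : ∃ t, chk3 f_pm_022_a t 2 2 1 = true :=
  ⟨(a (b (l 1) (a (l 1) (a (l 1) (b (l 1) (a (l 1) (b (l 1) (a (l 1) (l 16533456)))))))) (a (b (a (a (l 1) (a (b (l 1) (c (l 16472504) (l 16474456))) (a (b (l 1) (a (l 16598080) (l 16597264))) (b (b (l 16456288) (l 16584848)) (b (l 16591312) (l 16600760)))))) (b (a (l 16539672) (l 16457648)) (a (a (l 16604376) (l 16614840)) (a (l 16594576) (l 16595544))))) (a (a (b (b (l 16493736) (l 16504856)) (b (a (l 16517848) (l 16514952)) (a (l 16530312) (l 16527032)))) (a (b (b (l 16489776) (l 16500752)) (b (l 16511928) (l 16523656)))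 (a (b (b (l 16487648) (l 16498600)) (l 16515584)) (a (b (b (l 16486600) (l 16497568)) (l 16514456)) (b (b (l 16569856) (l 16496984)) (b (l 16507936) (l 16519320))))))) (a (b (b (a (l 16568256) (l 16526296)) (l 16495128)) (b (l 16505656) (l 16516504))) (b (b (l 16485368) (l 16495472)) (b (l 16504968) (l 16514616)))))) (b (a (b (a (l 16565792) (l 16527984)) (b (c (l 16508656) (l 16469640)) (l 16477656))) (b (a (l 16469896) (l 16475240)) (b (l 16477408) (l 16484944)))) (b (a (b (l 16488672) (l 16497608)) (b (l 16495176) (l 16502288))) (a (b (l 16505424) (l 16513128)) (b (l 16507648) (l 16512520))))))), by decide +kernel⟩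

def k1_pm_022_a : ∃ t, chk3 f_pm_022_a t 3 2 1 = true :=
  ⟨(a (b (a (a (b (b (l 16483856) (l 16483608)) (b (l 16487560) (l 16494224))) (b (b (l 16495816) (l 16494680)) (b (l 16497968) (l 16503960)))) (a (b (a (l 16502936) (l 16505320)) (a (l 16507328) (l 16508696))) (b (l 16507216) (l 16509144)))) (a (b (a (b (l 16503080) (l 16508112)) (b (l 16511208) (l 16514112))) (a (b (l 16510752) (l 16512488)) (b (l 16513856) (l 16512088)))) (b (a (b (l 16516816) (l 16517448)) (l 16515504)) (a (a (l 16512960) (l 16510064)) (l 16504168))))) (a (b (b (a (l 16507400) (l 16505784)) (l 16610688)) (b (a (l 16511720) (l 16506344)) (a (l 16493584) (l 16481032)))) (b (a (b (l 16503616) (l 16499920)) (a (b (l 16503448) (l 16498536)) (l 16585656))) (a (b (l 16500616) (l 16468320)) (b (a (l 16497480) (l 16522488)) (a (l 16462032) (l 16489112))))))), by decide +kernel⟩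

def k2_pm_022_a : ∃ t, chk3 f_pm_022_a t 8 3 1 = true :=
  ⟨(b (l 1) (b (a (l 1) (b (a (l 1) (a (l 1) (b (l 1) (b (a (l 1) (l 16650784)) (a (l 6) (l 16655648)))))) (a (l 6) (a (l 6) (a (l 6) (b (l 16662944) (l 16672552))))))) (a (l 6) (a (l 6) (a (l 6) (a (l 6) (a (l 6) (b (b (l 16681104) (l 16690320)) (b (l 16699568) (b (l 16706496) (l 16716272))))))))))), by decide +kernel⟩

def k3_pm_022_a : ∃ t, chk3 f_pm_022_a t 9 6 1 = true :=
  ⟨(b (a (l 1) (a (b (a (l 1) (l 16553920)) (a (l 16572912) (l 16569056))) (b (a (l 16550536) (l 16547024)) (a (l 16565088) (l 16561024))))) (a (a (b (l 1) (a (l 1) (b (l 16615624) (a (l 16626080) (l 16623504))))) (b (a (b (l 1) (l 16602040)) (b (l 16589120) (l 16597536))) (a (b (a (l 16612032) (l 16609608)) (l 16619608)) (b (l 16605944) (l 16614344))))) (a (b (a (b (l 16584864) (l 16592920)) (l 16584456)) (a (b (l 16600968) (l 16608992)) (l 16599840))) (b (a (l 16579856) (l 16575176)) (a (l 16594552) (l 16589200)))))), by decide +kernel⟩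

def k4_pm_022_a : ∃ t, chk3 f_pm_022_a t 9 7 1 = true :=
  ⟨(b (a (a (b (b (a (a (l 16643392) (l 16638040)) (a (l 16635288) (l 16632512))) (a (b (a (l 16647912) (l 16645024)) (l 16651176)) (b (l 16640648) (l 16645136)))) (b (a (a (l 16659824) (l 16656688)) (l 16651944)) (a (a (l 16669232) (l 16665896)) (c (l 16661312) (l 16660080))))) (b (a (b (l 16628312) (l 16636904)) (b (l 16622648) (l 16630840))) (b (a (l 16645544) (l 16639104)) (c (l 16650824) (l 16692128))))) (b (a (b (a (l 16616912) (l 16611112)) (a (l 16624696) (l 16618504))) (c (l 16605864) (l 16668272))) (a (b (l 16629344) (l 16636936)) (l 16651192)))) (b (b (a (a (a (c (l 16676944) (l 16676152)) (l 16669576)) (l 16679768)) (a (l 16665232) (l 16629952))) (a (a (c (l 16702752) (l 16681856)) (l 16688016)) (a (l 16694592) (l 16685696)))) (a (a (b (a (a (l 16725552) (l 16724384)) (a (l 16720608) (l 16716848))) (b (c (a (l 16702416) (l 16694872)) (a (l 16701120) (l 16693336))) (c (a (b (l 16705952) (l 16708288)) (l 16704752)) (a (b (l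 16704304) (l 16706400)) (l 16697504))))) (a (b (a (l 16713112) (l 16709384)) (b (c (l 16687416) (l 16685616)) (c (l 16702448) (l 16689704)))) (b (a (l 16705664) (l 16712456)) (b (l 16678856) (c (l 16684456) (l 16681952)))))) (b (a (a (c (l 16665968) (l 16664296)) (a (l 16701480) (l 16697840))) (b (l 16686728) (a (l 16652536) (l 16645360)))) (b (a (a (l 16671384) (l 16663976)) (a (l 16656632) (l 16649376))) (a (a (c (l 16677048) (l 16674272)) (c (l 16669704) (l 16666656))) (a (c (l 16662424) (l 16659096)) (c (l 16655248) (l 16651624))))))))), by decide +kernel⟩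

def k5_pm_022_a : ∃ t, chk3 f_pm_022_a t 5 6 1 = true :=
  ⟨(a (a (a (b (b (l 16552072) (l 16554792)) (b (a (l 16570432) (l 16565624)) (a (l 16583800) (l 16578368)))) (a (b (b (l 16535888) (l 16548368)) (b (l 16560824) (l 16572968))) (b (a (b (l 16533056) (l 16545208)) (a (b (l 16531776) (l 16543792)) (b (l 16531120) (l 16543080)))) (b (a (l 16557288) (c (l 16618008) (a (l 16555424) (l 16554656)))) (a (l 16569008) (b (l 16658600) (l 16653784))))))) (b (a (b (l 16527704) (l 16601904)) (b (l 16524488) (l 16534320))) (a (b (l 16613016) (l 16571192)) (b (l 16543832) (l 16552672))))) (b (a (b (l 16520864) (l 16528344)) (b (l 16517104) (l 16521040))) (a (b (l 16535216) (a (l 16544920) (l 16537168))) (b (l 16523912) (l 16567056))))), by decide +kernel⟩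

def k6_pm_022_a : ∃ t, chk3 f_pm_022_a t 20 7 1 = true :=
  ⟨(a (b (b (l 16609424) (l 16627104)) (b (a (l 16676536) (l 16671112)) (b (b (a (l 16634256) (l 16627328)) (a (l 16638264) (l 16631256))) (b (a (l 16642208) (l 16635120)) (a (c (l 16648168) (l 16644224)) (c (l 16641192) (l 16636888))))))) (b (a (b (l 16584504) (l 16595864)) (a (b (l 16580056) (l 16590896)) (a (b (l 16578088) (l 16588696)) (b (l 16577112) (l 16608584))))) (b (a (b (l 16606560) (l 16614544)) (a (b (l 16601504) (l 16609360)) (a (b (l 16598688) (l 16606464)) (b (l 16617376) (c (l 16647944) (l 16602768)))))) (a (a (b (l 16624144) (b (l 16629864) (l 16633592))) (b (l 16620664) (b (l 16626312) (l 16640480)))) (a (b (c (l 16619208) (l 16615296)) (b (l 16622632) (a (l 16627256) (a (l 16625840) (l 16624864))))) (b (a (c (l 16616304) (l 16612288)) (a (b (c (l 16648920) (l 16629504)) (a (a (l 16614600) (c (l 16616208) (l 16643584))) (l 16613672))) (b (l 16609416) (l 16613112)))) (a (a (b (l 16620224) (l 16623824)) (b (l 16619072)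 (c (l 16625424) (l 16620280)))) (a (b (a (a (l 16618256) (a (l 16617896) (l 16628016))) (l 16617304)) (a (a (c (l 16624584) (l 16619464)) (a (c (l 16624200) (l 16619128)) (a (a (b (l 16620352) (l 16622112)) (b (l 16620208) (c (l 16635216) (l 16619608)))) (l 16631560)))) (b (l 16619976) (l 16621728)))) (b (l 16616744) (b (l 16619408) (l 16621160))))))))))), by decide +kernel⟩

def k7_pm_022_a : ∃ t, chk3 f_pm_022_a t 21 7 1 = true :=
  ⟨(b (b (a (l 16591456) (l 16560440)) (b (l 16624144) (l 16638640))) (b (a (a (a (l 16650696) (l 16658048)) (l 16652896)) (l 16644256)) (b (a (c (a (a (l 16611840) (l 16608728)) (l 16603560)) (a (l 16647888) (l 16599144))) (b (l 16589368) (l 16593056))) (b (a (a (a (l 16614896) (l 16611680)) (l 16606536)) (c (l 16599456) (l 16594200))) (a (c (a (a (c (l 16622904) (l 16619816)) (l 16618168)) (l 16634024)) (a (a (l 16615952) (l 16612616)) (l 16607416))) (c (a (l 16606480) (l 16600216)) (l 16597440))))))), by decide +kernel⟩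

def k8_pm_022_a : ∃ t, chk3 f_pm_022_a t 11 7 1 = true :=
  ⟨(b (a (b (l 16566408) (l 16590768)) (b (l 16523752) (l 16567488))) (b (a (a (l 16630512) (l 16619480)) (a (l 16609680) (l 16601168))) (a (a (b (l 16642048) (b (l 16584648) (a (l 16612112) (l 16606440)))) (b (l 16568232) (b (l 16573872) (a (l 16580072) (l 16595824))))) (b (a (l 16558528) (l 16549528)) (b (a (l 16563936) (c (l 16557912) (l 16551408))) (a (a (l 16590792) (c (l 16568504) (l 16561392))) (c (a (l 16563832) (l 16559272)) (a (l 16556624) (l 16552016))))))))), by decide +kernel⟩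

def k9_pm_022_a : ∃ t, chk3 f_pm_022_a t 6 6 1 = true :=
  ⟨(a (b (a (b (l 16513504) (l 16513376)) (l 16591184)) (a (a (l 16597600) (l 16484632)) (b (l 16497296) (l 16486512)))) (b (a (l 16602168) (l 16481744)) (a (l 16524280) (l 16467048)))), by decide +kernel⟩

def k10_pm_022_a : ∃ t, chk3 f_pm_022_a t 12 7 1 = true :=
  ⟨(b (a (b (l 16499128) (l 16573440)) (b (l 16480496) (l 16559560))) (b (b (a (l 16564544) (l 16528256)) (a (a (l 16534024) (l 16526216)) (a (l 16517912) (l 16509352)))) (a (a (b (l 16562104) (c (b (l 16549176) (b (l 16551744) (a (l 16555640) (l 16551176)))) (b (l 16542664) (a (l 16547544) (b (l 16542536) (l 16543792)))))) (c (b (l 16535336) (b (l 16540336) (a (a (l 16547072) (l 16544744)) (b (l 16540224) (c (l 16543200) (l 16540048)))))) (b (l 16530096) (b (l 16534064) (a (a (l 16539936) (l 16537704)) (a (l 16535312) (l 16532920))))))) (a (b (l 16544872) (b (c (l 16530480) (l 16524816)) (c (a (b (l 16535128) (c (l 16537888) (l 16534944))) (b (l 16529872) (c (l 16532384) (l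 16529696)))) (a (a (l 16530504) (l 16528072)) (a (l 16525616) (l 16523128)))))) (b (l 16514520) (c (b (l 16519936) (b (l 16531968) (a (a (l 16526936) (l 16524080)) (c (l 16520616) (l 16518528))))) (b (l 16515152) (a (a (l 16520600) (l 16518032)) (a (l 16515408) (l 16512728)))))))))), by decide +kernel⟩

def k11_pm_022_a : ∃ t, chk3 f_pm_022_a t 13 7 1 = true :=
  ⟨(b (b (a (l 16469888) (l 16460336)) (a (a (l 16486384) (l 16480336)) (l 16553848))) (b (a (a (b (l 16495336) (l 16500384)) (b (l 16487576) (l 16491600))) (b (l 16475824) (a (l 16482744) (l 16474384)))) (b (a (a (a (l 16506920) (l 16502024)) (b (l 16494232) (l 16495632))) (a (l 16485728) (b (l 16476416) (l 16477640)))) (a (a (b (a (l 16509680) (l 16504400)) (b (a (l 16510856) (l 16505496)) (a (a (c (l 16515104) (l 16510296)) (c (a (l 16512840) (l 16511336)) (l 16507592))) (c (a (l 16509288) (l 16506680)) (l 16503776))))) (b (c (l 16498272) (l 16495224)) (b (a (l 16500528) (l 16495664)) (c (c (l 141365893044158479) (a (l 16502072) (l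 16497080))) (a (l 16498904) (l 16494144)))))) (c (b (a (l 16488560) (a (l 16481592) (l 16477064))) (c (c (a (l 141215603527237647) (l 141254223853223951)) (a (l 141239174307315727) (l 141286384568287247))) (a (l 141265562585038863) (l 141144341409103887)))) (b (a (l 16486112) (l 16477400)) (c (a (b (l 16487760) (a (l 16490568) (l 141259240385970191))) (l 141176502121824271)) (a (a (l 16488064) (a (l 16484720) (l 16482528))) (a (b (l 16479144) (a (l 16480504) (l 141200966254116879))) (l 141164613644337167)))))))))), by decide +kernel⟩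

def k12_pm_022_a : ∃ t, chk3 f_pm_022_a t 14 3 1 = true :=
  ⟨(b (b (a (l 16462880) (l 16438880)) (a (l 16481160) (b (l 16434712) (l 16443920)))) (b (a (b (l 16495592) (a (l 16460664) (l 16460256))) (b (l 16453952) (a (l 16461880) (l 16465224)))) (a (b (b (a (l 16465496) (l 16465688)) (a (l 16468208) (l 16469168))) (b (b (a (l 16470216) (l 16471752)) (a (a (l 16471696) (l 16471384)) (c (a (l 16474136) (l 16477136)) (l 16471328)))) (a (c (a (b (l 141379293285744655) (c (l 141175127723229199) (l 141060366196621327))) (b (l 141180212962738191) (c (l 141160009441050639) (l 141046484863778831)))) (a (b (l 16471744) (l 141115066896433167)) (b (l 141092595624673295) (c (l 141089090936127503) (l 141108401104338959))))) (c (b (b (a (l 141174234372358159) (l 141184404861845519)) (a (l 141365343239471119) (l 141379430739673103))) (a (c (l 141236631664754703) (l 141051501390970895)) (c (l 141191895294656527) (l 141066619683258383)))) (b (a (l 141089571969843215) (l 141092526911242255)) (a (c (l 141090602768367631)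 (l 141106889278078991)) (c (l 141099605025488911) (l 141111218609143823)))))))) (b (b (a (l 16468168) (l 16474016)) (a (l 16473048) (b (l 16479024) (l 16482640)))) (c (a (b (b (l 16480160) (c (l 141158360192188431) (l 141040231405158415))) (b (c (l 141290851351068687) (l 141072460846628879)) (a (c (l 141044492028592143) (l 141090740229177359)) (c (l 141087785313026063) (l 141124756382187535))))) (b (c (b (l 16493664) (l 141241167189164047)) (l 141444851703316495)) (b (c (a (l 141088128916504591) (l 141145853294575631)) (l 141148464614014991)) (a (c (l 141141317801951247) (l 141168118386343951)) (b (l 141201584792403983) (a (l 141212648629157903) (l 141244534475997199))))))) (a (c (b (l 141067444307525647) (b (l 141102972285812751) (a (l 141116716182929423) (l 141143173191516175)))) (b (l 141086960630677519) (b (l 141112730441908239) (a (l 141123038365122575) (l 141143379338428431))))) (a (b (l 141106751856066575) (b (l 141147708674899983) (c (l 141178082697936911) (l 141171554334130191)))) (b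 (l 141135682766471183) (b (l 141182961778720783) (b (l 141207975674822671) (c (l 141231065431326735) (l 141214847618826255)))))))))))), by decide +kernel⟩

def k13_pm_022_a : ∃ t, chk3 f_pm_022_a t 30 3 1 = true :=
  ⟨(b (b (l 16419272) (l 16506520)) (b (b (l 16461856) (a (l 16472120) (l 16483240))) (a (b (b (l 16483992) (b (l 16490576) (l 16495344))) (c (b (b (l 141499758597931023) (c (l 141184748536102927) (l 141208113143267343))) (b (c (a (l 141213748157677583) (l 141291126310879247)) (l 141441553217601551)) (c (a (b (l 141262195398590479) (l 141294974595776527)) (b (l 141344177757863951) (c (l 141381767323992079) (l 141377987743121423)))) (a (b (l 141268998610714639) (l 141295386895826959)) (c (l 141446088731279375) (l 141438323420643343)))))) (a (b (l 141172310260285455) (b (l 141226048904970255) (b (l 141253399263920143) (c (l 141282948652957711) (l 141257934745059343))))) (b (l 141217184093421583) (b (l 141275801822298127) (a (c (l 141315865293340687) (l 141285972301103119)) (c (l 141437430057484303)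 (l 141312291869212687)))))))) (b (b (l 16498120) (b (l 16506488) (l 16533288))) (c (b (b (l 141279031680434191) (a (l 141307412827029519) (l 141392212685897743))) (b (c (a (l 141378881107623951) (l 141477631023333391)) (a (l 141369329079943183) (l 141453235585646607))) (c (b (a (l 141436949077606415) (l 141541059113795599)) (a (b (l 141466498458877967) (a (l 141461138336890895) (l 141602631753793551))) (b (l 141753608462286863) (a (c (l 141576380934979599) (l 141557139468926991)) (c (b (l 141630257019715599) (l 141642076772220943)) (l 141612389943558159)))))) (a (b (l 141416401932337167) (a (l 141427190891429903) (l 141470415454912527))) (b (l 141504843924652047) (b (l 141531232209895439) (a (l 141524910015299599) (c (l 141587032443125775) (l 141560163114123279))))))))) (a (b (l 141268586278666255) (b (l 141333182603591695) (c (b (l 141385753023479823) (a (l 141393449605955599) (l 141429870939734031))) (b (l 141345139789971471) (a (l 141350362471088143) (l 141381011367411727)))))) (b (l 141507592637382671)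 (b (c (l 141419081981919247) (l 141375445090009103)) (b (c (l 141460519836909583) (l 141408224289488911)) (a (c (l 141558651250851855) (l 141413584409624591)) (b (l 141473164218728463) (c (l 141516938542710799) (l 141453922754887695))))))))))))), by decide +kernel⟩

def k14_pm_022_a : ∃ t, chk3 f_pm_022_a t 31 6 1 = true :=
  ⟨(b (a (l 16420952) (l 16419000)) (a (l 16491808) (l 16494600))), by decide +kernel⟩

def k15_pm_022_a : ∃ t, chk3 f_pm_022_a t 31 14 1 = true :=
  ⟨(b (a (l 16476192) (l 16468528)) (a (a (l 16494320) (l 16501016)) (l 16497048))), by decide +kernel⟩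

def k16_pm_022_a : ∃ t, chk3 f_pm_022_a t 31 30 1 = true :=
  ⟨(a (b (a (l 16511624) (l 16519960)) (a (l 16524384) (a (l 16532752) (l 16535400)))) (b (l 16520624) (b (l 16533784) (a (l 16541032) (l 16544600))))), by decide +kernel⟩

def k17_pm_022_a : ∃ t, chk3 f_pm_022_a t 31 62 2 = true :=
  ⟨(b (a (a (l 141408705370554383) (l 141490893889257487)) (a (l 141502438771081231) (l 141514327250386959))) (a (a (l 141487389188341775) (l 141577411729227791)) (a (l 141601944594874383) (l 141629432397938703)))), by decide +kernel⟩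

def k18_pm_022_a : ∃ t, chk3 f_pm_022_a t 31 126 2 = true :=
  ⟨(b (a (a (l 141547999780093967) (l 141644550672826383)) (a (l 141678635547443215) (l 141716293834735631))) (a (a (l 141589300194770959) (a (l 141674581089189903) (l 141705711022473231))) (a (a (l 141722272423133199) (l 141741926200573967)) (l 141774842841251855)))), by decide +kernel⟩

def k19_pm_022_a : ∃ t, chk3 f_pm_022_a t 62 127 2 = true :=
  ⟨(c (b (a (l 141657263780823055) (a (l 141752234123509775) (l 141789617530241039))) (b (a (a (l 141661661826580495) (l 141724608884375567)) (a (a (l 141773537165082639) (l 141806385083826191)) (l 141829474835251215))) (b (a (a (l 141679185296949263) (l 141832910783692815)) (a (a (l 141792297586327567) (c (l 141844799283675151) (l 141806110201839631))) (c (l 141869263424913423) (l 141829680989585423)))) (a (a (c (c (l 141712445537058831) (l 141698151878688783)) (l 141721310331518991)) (a (c (b (l 141751821806272527) (l 141758212719001615)) (l 141722272416825359)) (c (a (l 141780546555068431)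 (l 141797726428856335)) (l 141798825922560015)))) (a (a (a (c (b (l 141811676486549519) (l 141818204838248463)) (l 141777729049755663)) (b (l 141810027215650831) (c (c (l 141845211601305615) (l 141826038859169807)) (l 141842050485043215)))) (c (a (c (l 141859780134387727) (l 141840332514230287)) (b (l 141863147388272655) (a (l 141889329509482511) (c (l 141883007323537423) (l 141863009947435023))))) (a (l 141810783126880271) (b (l 141823358794596367) (a (l 141826657330003983) (l 141832635926134799)))))) (a (b (l 141898744072224783) (a (c (c (l 141910082798911503) (l 141867476714913807)) (l 141882045231366159)) (b (l 141906715533590543) (c (c (l 141895445552791567) (l 141875242018177039)) (l 141844524399394831))))) (b (l 141910838704160783) (a (b (l 141912831569051663) (c (c (l 141912969021456399) (l 141881426773147663)) (l 141895651692101647))) (c (c (a (l 141904722685444111) (l 14)) (l 141885962260316175)) (a (l 141853595373502479) (l 141856687750971407))))))))))) (b (a (l 141603937438564367)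 (a (l 141685232602660879) (l 141717530767081487))) (a (b (a (l 141606411339005967) (l 141660149985099791)) (a (c (l 141640839808598031) (l 141609778590646287)) (a (a (l 141659256630738959) (l 141718149226217487)) (c (l 141712239364964367) (l 141675680587743247))))) (a (b (a (l 141702068877787151) (l 141730450029608975)) (a (a (c (l 141734367042682895) (l 141696158997659663)) (b (l 141724540152348687) (c (l 141754914171633679) (l 141715056858873871)))) (b (c (l 141766665205760015) (l 141726464295436303)) (a (c (l 141770788374937615) (l 141730037708750863)) (c (a (l 141782951725481999) (l 141788586724130831)) (l 141789273901416463)))))) (b (l 141751546915635215) (b (l 141858955461591055) (a (c (a (l 141792778613620751) (l 141798482332090383)) (l 141753814654451727)) (a (c (l 141804323489546255) (l 141762198433382415)) (c (l 141810233366495247) (l 141767902151835663)))))))))), by decide +kernel⟩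

def k20_pm_022_a : ∃ t, chk3 f_pm_022_a t 63 254 2 = true :=
  ⟨(a (a (l 141774361797640207) (l 141796764354674703)) (c (l 141961553688887311) (l 141795046363004943))), by decide +kernel⟩

def k21_pm_022_a : ∃ t, chk3 f_pm_022_a t 126 255 2 = true :=
  ⟨(b (c (a (l 141852839465254927) (l 141877990802030607)) (a (l 141773605875089423) (l 141797451541282831))) (c (c (a (b (l 141894139883765775) (c (l 14) (b (l 141894964515520527) (a (b (l 141893796283432975) (a (l 141894139880521743) (l 141900668232925199))) (a (a (l 141903829330083855) (l 14)) (l 14)))))) (l 14)) (a (b (l 141853870253408271) (c (b (l 141874417383424015) (a (a (l 141871737322176527) (l 141878128235593743)) (a (l 141884656587997199) (l 141891322379370511)))) (a (a (l 141847616776585231) (l 141853938970492943)) (a (l 141860329883893775) (l 141866789516787727))))) (b (l 141879777504493583) (a (b (l 141883763234291727) (b (l 141889123354624015) (a (c (l 141899843597025295) (l 141878609270013967)) (c (l 141929255535247375) (l 141885412500357135)))))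 (b (l 141897438414503951) (c (l 14) (a (l 141890497743421455) (l 141919978401136655)))))))) (a (b (l 141859505225007119) (b (c (l 141822327998660623) (l 141779721905963023)) (c (a (c (l 141833048240685071) (l 141811813913804815)) (a (l 141831811288842255) (l 141838202202226703))) (a (l 141779584466370575) (c (l 141802674218778639) (l 141780821416542223)))))) (a (b (l 141810370805088271) (a (c (a (l 141839782751027215) (l 141843081286942735)) (l 141798138731315215)) (c (a (l 141891391080136719) (l 141872149627699215)) (l 141804460925190159)))) (b (l 141823152631824399) (a (c (c (l 141865483844403215) (l 141843837200498703)) (l 141810920558034959)) (c (c (l 141872287074729999) (l 141850571711315983)) (l 141817517629865999)))))))), by decide +kernel⟩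

def k22_pm_022_a : ∃ t, chk3 f_pm_022_a t 127 255 2 = true :=
  ⟨(a (a (b (l 141857649826168847) (c (b (l 141921215364218895) (a (c (l 14) (c (l 14) (c (l 14) (l 141895514266648591)))) (l 14))) (b (l 141836415494995983) (b (l 141846448540778511) (a (c (c (l 141882801157603343) (l 141860742196740111)) (l 141827413237284879)) (c (c (l 141889879265902607) (l 141867751585546255)) (l 141834216467595279))))))) (b (l 141871256286855183) (c (l 14) (b (l 141850090675126287) (b (l 141860398598864911) (a (c (c (l 141897094813188111) (l 141874898413305871)) (l 141841157136891919)) (c (c (b (l 141902592373178383) (l 141906303225708559)) (l 141882113960574991)) (l 141848235245142031)))))))) (c (l 14) (b (l 141850228116045839) (c (b (l 141893590119383055) (c (l 14) (b (l 141893452678316047) (a (a (l 141889466946830351) (l 141896888652578831)) (a (l 141926987785666575) (l 14)))))) (b (l 141849266039062543) (b (l 141904585220079631) (b (a (l 141857306218987535) (l 141872080910942223)) (a (a (l 141857100060196879)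 (l 141864384326942735)) (c (a (l 141883350909288463) (l 141890978773483535)) (l 141863903289425935)))))))))), by decide +kernel⟩

def k23_pm_022_a : ∃ t, chk3 f_pm_022_a t 62 31 3 = true :=
  ⟨(b (a (l 141574319270068239) (b (l 141428290395062287) (l 141484502941564943))) (b (a (c (l 141499071476940815) (l 141443202515238927)) (a (l 141713270090924047) (b (l 141538104148918287) (l 141569027921494031)))) (a (a (b (l 141492543117803535) (c (c (l 141569302802268175) (l 141536523597430799)) (b (l 141478730494033935) (l 141490893844824079)))) (b (l 141533431218880527) (c (b (l 141591086880751631) (c (l 141715812742889487) (l 141588200659157007))) (c (l 141633005740654607) (l 141504156706422799))))) (b (a (c (l 141613764315742223) (l 141537829262770191)) (c (l 141641595713208335) (l 141561812368588815))) (a (a (b (l 141587582182162447) (c (a (l 141637128943190031) (c (l 141669976864768015) (l 141629020040429583))) (c (l 141581809742053391) (l 141539684686692367)))) (b (c (l 141651147721015311) (l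 141568409438568463)) (c (b (l 141754707975700495) (c (a (l 141688599847796751) (l 141702000149266447)) (l 141652659546619919))) (b (l 141579473277124623) (c (l 141609297540202511) (l 141565179619524623)))))) (c (b (l 141670251741659151) (a (c (l 141706123319640079) (l 141663173629935631)) (c (l 141761854818811919) (l 141673481554853903)))) (b (l 141585520593829903) (a (l 141597271626629135) (l 141696983590584335))))))))), by decide +kernel⟩

def k24_pm_022_a : ∃ t, chk3 f_pm_022_a t 63 31 3 = true :=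
  ⟨(b (b (a (l 141433169486741519) (l 141440728638242831)) (a (l 141499896115249167) (l 141523192028905487))) (b (a (a (b (l 141545869455196175) (l 141582015908511759)) (l 141579954325979151)) (b (l 141586688839532559) (l 141629501083123727))) (b (a (c (l 141669976867061775) (l 141588131937419279)) (c (l 141714507102486543) (l 141629707234344975))) (a (c (b (a (l 141690936311054351) (l 141713270148235279)) (a (b (l 141706535635795983) (c (a (l 141733267521323023) (l 141744949836120079)) (a (l 141689080880693263) (l 141700350878498831)))) (b (l 141729694106877967) (c (a (l 141757044467875855) (l 141814562673819663)) (a (l 141711964473769999) (l 141724059105460239)))))) (b (a (l 141604762053689359) (l 141625446622920719)) (a (b (l 141617818757333007) (c (l 141649498446741519) (l 141603456380157967))) (b (l 141639259240955919) (a (l 141642901373599759) (l 141654240090849295)))))) (c (b (a (l 141737184533741583) (l 141762885626003471)) (a (b (l 141754501845762063) (c (b (l 141786044096380943) (a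 (l 141785425620369423) (l 141843905899200527))) (a (l 141736497334632463) (l 141749416600223759)))) (b (l 141781096291418127) (c (a (a (l 141806110189469711) (l 141813119578226703)) (a (l 141820266405953551) (l 141827481953173519))) (a (l 141762748182773775) (l 141821572059021327)))))) (b (a (l 141647711740444687) (l 141671626125770767)) (a (b (l 141662348992364559) (c (a (l 141689768072806415) (l 141702206301929487)) (l 141648055334617103))) (b (l 141687019292098575) (c (a (l 141714988128518159) (l 141728319711019023)) (l 141672725634318351)))))))))), by decide +kernel⟩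

theorem s25_pm_022_a : ∃ t, chk3 f_pm_022_a t 31 31 3 = true := ex3_a k23_pm_022_a k24_pm_022_a

theorem s26_pm_022_a : ∃ t, chk3 f_pm_022_a t 63 255 2 = true := ex3_a k21_pm_022_a k22_pm_022_a

theorem s27_pm_022_a : ∃ t, chk3 f_pm_022_a t 63 127 2 = true := ex3_b k20_pm_022_a s26_pm_022_a

theorem s28_pm_022_a : ∃ t, chk3 f_pm_022_a t 31 127 2 = true := ex3_a k19_pm_022_a s27_pm_022_a

theorem s29_pm_022_a : ∃ t, chk3 f_pm_022_a t 31 63 2 = true := ex3_b k18_pm_022_a s28_pm_022_a

theorem s30_pm_022_a : ∃ t, chk3 f_pm_022_a t 31 31 2 = true := ex3_b k17_pm_022_a s29_pm_022_a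

theorem s31_pm_022_a : ∃ t, chk3 f_pm_022_a t 31 31 1 = true := ex3_c s30_pm_022_a s25_pm_022_a

theorem s32_pm_022_a : ∃ t, chk3 f_pm_022_a t 31 15 1 = true := ex3_b k16_pm_022_a s31_pm_022_a

theorem s33_pm_022_a : ∃ t, chk3 f_pm_022_a t 31 7 1 = true := ex3_b k15_pm_022_a s32_pm_022_a

theorem s34_pm_022_a : ∃ t, chk3 f_pm_022_a t 31 3 1 = true := ex3_b k14_pm_022_a s33_pm_022_a

theorem s35_pm_022_a : ∃ t, chk3 f_pm_022_a t 15 3 1 = true := ex3_a k13_pm_022_a s34_pm_022_a

theorem s36_pm_022_a : ∃ t, chk3 f_pm_022_a t 7 3 1 = true := ex3_a k12_pm_022_a s35_pm_022_a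

theorem s37_pm_022_a : ∃ t, chk3 f_pm_022_a t 6 7 1 = true := ex3_a k10_pm_022_a k11_pm_022_a

theorem s38_pm_022_a : ∃ t, chk3 f_pm_022_a t 6 3 1 = true := ex3_b k9_pm_022_a s37_pm_022_a

theorem s39_pm_022_a : ∃ t, chk3 f_pm_022_a t 3 3 1 = true := ex3_a s38_pm_022_a s36_pm_022_a

theorem s40_pm_022_a : ∃ t, chk3 f_pm_022_a t 10 7 1 = true := ex3_a k6_pm_022_a k7_pm_022_a

theorem s41_pm_022_a : ∃ t, chk3 f_pm_022_a t 5 7 1 = true := ex3_a s40_pm_022_a k8_pm_022_a

theorem s42_pm_022_a : ∃ t, chk3 f_pm_022_a t 5 3 1 = true := ex3_b k5_pm_022_a s41_pm_022_a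

theorem s43_pm_022_a : ∃ t, chk3 f_pm_022_a t 9 3 1 = true := ex3_b k3_pm_022_a k4_pm_022_a

theorem s44_pm_022_a : ∃ t, chk3 f_pm_022_a t 4 3 1 = true := ex3_a k2_pm_022_a s43_pm_022_a

theorem s45_pm_022_a : ∃ t, chk3 f_pm_022_a t 2 3 1 = true := ex3_a s44_pm_022_a s42_pm_022_a

theorem s46_pm_022_a : ∃ t, chk3 f_pm_022_a t 1 3 1 = true := ex3_a s45_pm_022_a s39_pm_022_a

theorem s47_pm_022_a : ∃ t, chk3 f_pm_022_a t 1 2 1 = true := ex3_a k0_pm_022_a k1_pm_022_a

theorem s48_pm_022_a : ∃ t, chk3 f_pm_022_a t 1 1 1 = true := ex3_b s47_pm_022_a s46_pm_022_a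

theorem c_pm_022_a : CertB 0 536870912 0 536870912 536870912 50465866 3 eng mog cd0q0 cd2q2a pd2 true true false .pp 0 2 2
    ndB0q0 ndB2q2a pcB2 cut_pm_022_a xt_pm_022_a :=
  certB2 (fam := true) (s1 := true) (s2 := false) (a := 0) (b := 2) (c := 2) (cn := .pp) (n1 := ndB0q0) (n2 := ndB2q2a) (pc := pcB2) (cut := cut_pm_022_a) (xt := xt_pm_022_a) (P1 := 0) (W1 := 536870912) (P2 := 0) (W2 := 536870912) (P3 := 536870912) (W3 := 50465866) (N0 := 3) (En := eng) (mo := mog) (C1 := cd0q0) (C2 := cd2q2a) (C3 := pd2)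
    rfl (fun _ => rfl) s48_pm_022_a

noncomputable def cut_pm_022_b : Cut := Cut.of [[⟨0, 0, 0, 67108864⟩, ⟨1, 1, 0, 67108864⟩, ⟨2, 1, 0, 67108864⟩], [⟨0, 0, 1, 20971520⟩, ⟨1, 1, 0, 33554432⟩, ⟨2, 1, 1, 20971520⟩]]

noncomputable def f_pm_022_b : ℕ → ℕ → ℕ → ℕ → Bool := onCell 1073741824 536870912 1239849684 370763052 536870912 50465866
    (rowB 3 eng mog cd0q0 cd2q2b pd2 2 true true false .pp 0 2 2 (qsf 0 536870912 1239849684 370763052 2) ndB0q0 ndB2q2b pcB2 cut_pm_022_b Ext.none)

def k0_pm_022_b : ∃ t, chk3 f_pm_022_b t 1 1 1 = true :=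
  ⟨(a (a (l 1) (b (a (b (b (a (a (l 1) (l 16462744)) (a (b (l 16510096) (l 1)) (b (l 16439792) (l 16467656)))) (l 1)) (l 1)) (b (b (a (a (b (l 16444400) (l 16411096)) (b (l 16449864) (l 16418288))) (a (l 16483352) (l 16448992))) (a (a (l 16357128) (l 16366960)) (b (l 16399248) (l 16366152)))) (a (l 1) (b (a (l 1) (l 16320448)) (l 1))))) (l 1))) (a (b (b (a (b (a (b (a (l 16469808) (l 16477072)) (l 16448016)) (b (l 16529936) (l 16466400))) (a (b (l 16420392) (l 16390816)) (l 16429608))) (b (a (a (b (l 16498072) (l 16479616)) (l 16494832)) (b (l 16507384) (l 16494912))) (a (l 16493720) (l 16469760)))) (a (a (b (l 16406008) (l 1)) (b (l 16373872) (l 16311136))) (a (b (l 16402920) (l 16347048)) (b (l 16427656) (l 16378144))))) (a (l 1) (b (b (a (l 16285296) (l 16322744)) (l 16261712)) (l 1)))) (b (a (b (b (a (b (l 16511744) (l 16504704)) (l 16513880)) (a (l 16486160) (l 16500736))) (b (a (l 16451232) (l 16473432)) (l 16422552))) (b (a (b (l 16517984) (l 16513048)) (b (a (l 16520704) (l 16538528))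 (l 16531256))) (a (b (l 16493864) (l 16463512)) (b (l 16519160) (l 16495424))))) (a (b (b (l 16376432) (l 16325056)) (b (l 16268800) (l 1))) (b (a (l 16405840) (b (l 16464144) (l 16427664))) (a (l 16311136) (l 16364216))))))), by decide +kernel⟩

theorem c_pm_022_b : CertB 0 536870912 1239849684 370763052 536870912 50465866 3 eng mog cd0q0 cd2q2b pd2 true true false .pp 0 2 2
    ndB0q0 ndB2q2b pcB2 cut_pm_022_b Ext.none :=
  certB2 (fam := true) (s1 := true) (s2 := false) (a := 0) (b := 2) (c := 2) (cn := .pp) (n1 := ndB0q0) (n2 := ndB2q2b) (pc := pcB2) (cut := cut_pm_022_b) (xt := Ext.none) (P1 := 0) (W1 := 536870912) (P2 := 1239849684) (W2 := 370763052) (P3 := 536870912) (W3 := 50465866) (N0 := 3) (En := eng) (mo := mog) (C1 := cd0q0) (C2 := cd2q2b) (C3 := pd2)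
    rfl (fun _ => rfl) k0_pm_022_b

noncomputable def cut_pm_023_a : Cut := Cut.of [[⟨0, 0, 1, 20971520⟩, ⟨1, 1, 0, 33554432⟩, ⟨2, 1, 1, 20971520⟩]]

noncomputable def xt_pm_023_a : Ext := extD2 3 ⟨7, 3, 3, 10, 1741, 1000, 23, 25, 19, 50, 3, 16⟩ eng cd0q0 cd2q2a pd3 true true false .up 0 2 3 rfl ndB0q0 ndB2q2a pcB3

noncomputable def f_pm_023_a : ℕ → ℕ → ℕ → ℕ → Bool := onCell 1610612736 536870912 0 536870912 536870912 50465866
    (rowB 3 eng mog cd0q0 cd2q2a pd3 2 true true false .up 0 2 3 (qsf 0 536870912 0 536870912 3) ndB0q0 ndB2q2a pcB3 cut_pm_023_a xt_pm_023_a)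

def k0_pm_023_a : ∃ t, chk3 f_pm_023_a t 1 1 1 = true :=
  ⟨(a (a (b (a (b (a (b (l 16512168) (l 16494712)) (b (l 16530088) (l 16518928))) (a (b (l 16479616) (l 16445296)) (b (l 16509632) (l 16460312)))) (b (a (l 16611040) (l 16637160)) (a (b (l 16533440) (a (l 16503912) (l 16546640))) (b (l 16607080) (l 16605128))))) (a (b (a (b (l 16447536) (a (l 16483984) (l 16477856))) (b (l 16466960) (a (l 16485040) (l 16515448)))) (b (a (b (a (l 16511064) (l 16514384)) (a (l 16533808) (l 16542136))) (b (a (l 16523696) (l 16556056)) (a (l 16558392) (l 16589624)))) (b (a (a (b (l 16552632) (a (b (l 16560192) (l 16567272)) (l 16570352))) (b (l 16565528) (a (l 16577792) (l 16586128)))) (a (l 176730794103) (l 2))) (a (b (a (b (a (l 141669083526414351) (l 141722890891886607)) (a (l 141732099301556239) (l 141789686239428623))) (a (b (l 141785219474178063) (l 2)) (l 2))) (a (b (a (c (l 141879296470335503) (l 141709078257762319)) (c (l 141945198467350543) (l 141766321598316559))) (a (b (c (a (l 141917023471386639)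 (l 141949459073875983)) (a (l 141737528127324175) (l 141765840560046095))) (a (b (c (l 141943686634799119) (l 141758487572824079)) (a (b (c (l 141993989292621839) (l 141761854827642895)) (a (c (c (l 6) (c (l 6) (b (l 141882663713439759) (l 141909258151919631)))) (c (c (l 141837583718973455) (l 141789617506009103)) (l 141716018919096335))) (l 2))) (l 2))) (l 2))) (l 2))) (l 2))) (l 2))))) (b (a (b (l 16515032) (a (l 16548576) (l 16593080))) (b (l 16616888) (l 16670256))) (b (a (a (l 127338707079) (l 2)) (l 2)) (l 2))))) (b (a (b (b (l 16672176) (l 16750776)) (a (b (l 16667024) (l 16668872)) (l 2))) (l 2)) (b (l 2) (l 2)))) (l 2)), by decide +kernel⟩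

theorem c_pm_023_a : CertB 0 536870912 0 536870912 536870912 50465866 3 eng mog cd0q0 cd2q2a pd3 true true false .up 0 2 3
    ndB0q0 ndB2q2a pcB3 cut_pm_023_a xt_pm_023_a :=
  certB2 (fam := true) (s1 := true) (s2 := false) (a := 0) (b := 2) (c := 3) (cn := .up) (n1 := ndB0q0) (n2 := ndB2q2a) (pc := pcB3) (cut := cut_pm_023_a) (xt := xt_pm_023_a) (P1 := 0) (W1 := 536870912) (P2 := 0) (W2 := 536870912) (P3 := 536870912) (W3 := 50465866) (N0 := 3) (En := eng) (mo := mog) (C1 := cd0q0) (C2 := cd2q2a) (C3 := pd3)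
    rfl (fun _ => rfl) k0_pm_023_a

noncomputable def cut_pm_023_b : Cut := Cut.of [[⟨0, 0, 1, 20971520⟩, ⟨1, 1, 0, 33554432⟩, ⟨2, 1, 1, 20971520⟩]]

noncomputable def f_pm_023_b : ℕ → ℕ → ℕ → ℕ → Bool := onCell 0 536870912 1610612736 536870912 536870912 50465866
    (rowB 3 eng mog cd0q0 cd2q2b pd3 1 true true false .up 0 2 3 (qsf 0 536870912 1239849684 370763052 3) ndB0q0 ndB2q2b pcB3 cut_pm_023_b Ext.none)

def k0_pm_023_b : ∃ t, chk3 f_pm_023_b t 1 1 1 = true :=
  ⟨(a (b (b (b (a (b (l 16442176) (l 16461224)) (a (b (l 16505528) (l 16520832)) (b (l 16536648) (l 16552056)))) (a (a (l 16639624) (l 16543352)) (a (l 16548952) (l 16560064)))) (b (a (a (l 2) (l 16637096)) (a (l 16644128) (l 16650312))) (a (l 2) (a (l 16843112) (l 16724208))))) (b (a (l 2) (b (a (l 2) (l 16769312)) (l 2))) (l 2))) (b (b (a (b (a (b (l 16550736) (l 16569672)) (b (a (l 16544744) (l 222297600679)) (l 16567752))) (a (l 16579800) (l 16584248))) (b (a (b (a (l 394633110727) (l 1)) (a (l 287796054823) (l 429529794391)))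 (l 1)) (a (b (l 195454307799) (l 16591496)) (b (l 465500330567) (l 397854636327))))) (a (b (a (l 16650288) (l 16645408)) (a (l 16726272) (l 16721008))) (b (a (l 16644392) (a (l 16658544) (l 224445703655))) (a (l 16712216) (b (l 16695296) (l 16718656)))))) (b (a (b (b (l 16768112) (l 16792296)) (l 4)) (b (a (l 16774544) (b (l 16746264) (l 16780400))) (b (a (l 4) (l 16819472)) (l 4)))) (l 4)))), by decide +kernel⟩

theorem c_pm_023_b : CertB 0 536870912 1239849684 370763052 536870912 50465866 3 eng mog cd0q0 cd2q2b pd3 true true false .up 0 2 3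
    ndB0q0 ndB2q2b pcB3 cut_pm_023_b Ext.none :=
  certB1 (fam := true) (s1 := true) (s2 := false) (a := 0) (b := 2) (c := 3) (cn := .up) (n1 := ndB0q0) (n2 := ndB2q2b) (pc := pcB3) (cut := cut_pm_023_b) (xt := Ext.none) (P1 := 0) (W1 := 536870912) (P2 := 1239849684) (W2 := 370763052) (P3 := 536870912) (W3 := 50465866) (N0 := 3) (En := eng) (mo := mog) (C1 := cd0q0) (C2 := cd2q2b) (C3 := pd3)
    rfl (fun _ => rfl) k0_pm_023_b

noncomputable def f_pm_033 : ℕ → ℕ → ℕ → ℕ → Bool := onCell 1610612736 536870912 1610612736 536870912 536870912 50465866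
    (rowB 3 eng mog cd0q0 cd2q3 pd3 2 true true false .pnn 0 3 3 (qsf 0 536870912 1610612736 536870912 3) ndB0q0 ndB2q3 pcB3 Cut.none Ext.none)

def k0_pm_033 : ∃ t, chk3 f_pm_033 t 1 1 1 = true :=
  ⟨(a (a (b (a (b (a (l 16302320) (l 16397200)) (l 1)) (b (b (a (l 16472096) (l 16531184)) (l 16484448)) (a (l 1) (l 16485856)))) (l 1)) (b (a (b (b (l 16614576) (l 16601248)) (a (l 16553192) (l 16612112))) (b (b (a (l 16683504) (l 16717848)) (a (l 16671936) (l 16707112))) (a (l 16658448) (l 16695504)))) (b (a (l 1) (a (l 1) (l 4))) (l 1)))) (a (b (a (a (b (a (l 16735496) (l 16749304)) (l 4)) (l 4)) (l 4)) (l 4)) (l 4))), by decide +kernel⟩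

theorem c_pm_033 : CertB 0 536870912 1610612736 536870912 536870912 50465866 3 eng mog cd0q0 cd2q3 pd3 true true false .pnn 0 3 3
    ndB0q0 ndB2q3 pcB3 Cut.none Ext.none :=
  certB2 (fam := true) (s1 := true) (s2 := false) (a := 0) (b := 3) (c := 3) (cn := .pnn) (n1 := ndB0q0) (n2 := ndB2q3) (pc := pcB3) (cut := Cut.none) (xt := Ext.none) (P1 := 0) (W1 := 536870912) (P2 := 1610612736) (W2 := 536870912) (P3 := 536870912) (W3 := 50465866) (N0 := 3) (En := eng) (mo := mog) (C1 := cd0q0) (C2 := cd2q3) (C3 := pd3)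
    rfl (fun _ => rfl) k0_pm_033

noncomputable def cut_pm_101 : Cut := Cut.of [[⟨0, 1, 0, 67108864⟩, ⟨1, 0, 0, 67108864⟩, ⟨2, 1, 0, 67108864⟩]]

noncomputable def f_pm_101 : ℕ → ℕ → ℕ → ℕ → Bool := onCell 536870912 536870912 0 536870912 536870912 50465866
    (rowB 3 eng mog cd0q1 cd2q0 pd1 2 true true false .npn 1 0 1 (qsf 536870912 536870912 0 536870912 1) ndB0q1 ndB2q0 pcB1 cut_pm_101 Ext.none)

def k0_pm_101 : ∃ t, chk3 f_pm_101 t 1 1 1 = true :=
  ⟨(a (l 3) (b (a (l 3) (b (a (l 3) (b (a (l 3) (a (l 3) (b (l 6) (l 3)))) (l 3))) (l 3))) (l 3))), by decide +kernel⟩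

theorem c_pm_101 : CertB 536870912 536870912 0 536870912 536870912 50465866 3 eng mog cd0q1 cd2q0 pd1 true true false .npn 1 0 1
    ndB0q1 ndB2q0 pcB1 cut_pm_101 Ext.none :=
  certB2 (fam := true) (s1 := true) (s2 := false) (a := 1) (b := 0) (c := 1) (cn := .npn) (n1 := ndB0q1) (n2 := ndB2q0) (pc := pcB1) (cut := cut_pm_101) (xt := Ext.none) (P1 := 536870912) (W1 := 536870912) (P2 := 0) (W2 := 536870912) (P3 := 536870912) (W3 := 50465866) (N0 := 3) (En := eng) (mo := mog) (C1 := cd0q1) (C2 := cd2q0) (C3 := pd1)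
    rfl (fun _ => rfl) k0_pm_101

noncomputable def cut_pm_102 : Cut := Cut.of [[⟨0, 1, 0, 67108864⟩, ⟨1, 0, 0, 67108864⟩, ⟨2, 1, 0, 67108864⟩]]

noncomputable def f_pm_102 : ℕ → ℕ → ℕ → ℕ → Bool := onCell 536870912 536870912 1073741824 536870912 536870912 50465866
    (rowB 3 eng mog cd0q1 cd2q0 pd2 1 true true false .npp 1 0 2 (qsf 536870912 536870912 0 536870912 2) ndB0q1 ndB2q0 pcB2 cut_pm_102 Ext.none)

def k0_pm_102 : ∃ t, chk3 f_pm_102 t 2 1 1 = true :=
  ⟨(b (b (b (l 3) (a (b (l 3) (a (l 2) (b (l 3) (a (l 2) (b (a (l 3) (l 42043659991)) (b (a (l 2) (l 16751064)) (l 10838037703))))))) (b (a (l 3) (b (l 3) (b (a (l 3) (l 155860550743)) (a (l 56002516439) (l 16856752))))) (b (a (a (b (l 3) (a (l 3) (l 53318085927))) (a (b (l 3) (l 16790024)) (b (l 16780688) (l 16766176)))) (a (a (b (l 16778560) (l 16785600)) (b (l 16777912) (l 16785352))) (b (a (l 16778576) (l 16780496)) (a (l 16765264) (l 16767632))))) (a (b (a (b (b (l 122037559303) (l 161766001159)) (a (l 16755984) (l 16754344))) (a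 (b (l 16758640) (l 16752360)) (b (l 16756360) (l 16750232)))) (a (b (a (l 16749520) (l 16748072)) (a (l 16743120) (l 16741808))) (a (b (l 16746232) (l 16740216)) (l 16741464)))) (b (a (a (b (l 16755120) (l 16749224)) (l 16752368)) (l 16754816)) (a (l 16741096) (l 16744864)))))))) (b (b (b (a (a (l 2) (b (a (l 2) (b (l 25870406823) (l 2))) (l 2))) (a (b (a (l 16733320) (l 16731416)) (a (l 16723112) (l 16722800))) (b (a (l 16731992) (l 16736912)) (l 16832024)))) (a (l 2) (b (a (a (l 16797936) (l 16736064)) (l 16827296)) (b (a (a (l 16707384) (l 16709680)) (l 16720088)) (a (b (l 72041188215) (l 60766902167)) (b (l 16720712) (l 16723064))))))) (a (l 2) (a (a (l 16694896) (l 16704552)) (l 16738736)))) (a (l 2) (a (a (l 2) (l 16742800)) (l 16750568))))) (a (l 2) (b (a (l 2) (b (l 16796072) (l 2))) (l 2)))), by decide +kernel⟩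

def k1_pm_102 : ∃ t, chk3 f_pm_102 t 6 8 1 = true :=
  ⟨(b (l 3) (a (l 3) (b (l 3) (a (a (l 3) (b (l 3) (b (l 217600668775) (l 166597925303)))) (b (b (a (l 3) (l 161766059943)) (a (l 205789492247) (b (l 16816936) (l 16835016)))) (a (b (l 173040359751) (c (l 16838648) (l 16856440))) (b (c (l 16811768) (l 16828736)) (l 16804048)))))))), by decide +kernel⟩

def k2_pm_102 : ∃ t, chk3 f_pm_102 t 14 8 1 = true :=
  ⟨(b (b (l 3) (a (l 3) (a (l 3) (b (l 3) (b (a (l 3) (b (l 3) (c (a (l 145122987159) (l 145122981079)) (a (l 155323528087) (b (l 155323520711) (l 115595070231)))))) (a (b (c (l 145122996855) (a (l 3) (l 155860399879))) (a (c (l 146733602711) (l 156934142903)) (a (l 16800072) (l 16798632)))) (b (a (c (l 105394534727) (l 109689494855)) (b (l 16796912) (l 16795608))) (a (a (l 16797224) (l 16795784)) (a (l 16794368) (l 16792976)))))))))) (b (a (b (a (l 3) (a (l 3) (b (l 3) (c (l 156934180903) (l 166060981207))))) (a (a (l 155860472183) (a (l 155860461255) (l 156934196535))) (b (a (l 162302895063)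 (b (a (l 16806736) (l 16803680)) (l 16823472))) (a (b (l 16827144) (l 16824240)) (l 16819384))))) (b (a (a (b (c (l 154786693271) (l 164450364119)) (b (l 88214682807) (a (l 16803312) (l 16800384)))) (b (b (c (l 155860418359) (l 165524088455)) (a (l 95730864279) (a (l 16800552) (l 16799136)))) (b (a (c (l 16802536) (l 16818832)) (l 16797208)) (l 16816888)))) (b (a (b (b (a (l 16800240) (l 16797392)) (a (l 16798944) (l 16796080))) (a (c (l 16799312) (l 16810392)) (l 16794168))) (a (c (l 16794904) (l 16811368)) (l 16789888))) (a (l 16791736) (l 16786296)))) (a (b (a (b (a (l 16800672) (l 16797744)) (l 16796592)) (l 16792208)) (l 16789936)) (b (a (l 16786752) (l 16781360)) (l 16779176))))) (a (b (a (b (a (b (l 16813264) (l 16810376)) (b (l 16806816) (l 16804048))) (a (l 16826952) (l 16799984))) (b (l 16838120) (l 16791160))) (a (l 16795040) (l 16783496))) (b (a (b (l 16784912) (l 16780072)) (l 16772832)) (l 16769688))))), by decide +kernel⟩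

def k3_pm_102 : ∃ t, chk3 f_pm_102 t 15 16 1 = true :=
  ⟨(a (b (a (l 3) (a (l 3) (l 6))) (b (a (b (a (l 3) (b (l 3) (a (l 3) (c (l 142438620903) (b (l 3) (c (l 149954807287) (l 154786643015))))))) (a (b (l 3) (a (l 3) (c (l 143512365527) (c (l 150491684215) (l 155323508887))))) (b (b (a (l 3) (a (c (l 144049227527) (l 153712898295)) (l 16794824))) (a (a (l 3) (l 16796544)) (a (l 16795040) (l 16793568)))) (b (a (a (l 16796728) (l 16795240)) (a (l 16793784) (l 16792304))) (a (a (l 16795424) (l 16793984)) (a (l 16792512) (l 16791064))))))) (b (a (a (b (l 3) (c (l 141901743111) (c (l 148344191527) (b (l 154249768327) (l 132238058311))))) (a (a (b (l 6) (b (l 6) (l 16791960))) (l 6)) (l 6))) (l 6)) (a (a (b (b (a (l 16793336) (l 16791840)) (a (l 16792080) (l 16790600))) (l 16789480)) (b (c (l 16790464) (l 16797960)) (l 16786536))) (b (l 6) (l 16781912))))) (a (b (a (b (b (c (l 112910726215) (a (l 154786648887) (l 124721871591))) (a (a (l 16798672) (l 16797200)) (a (l 16795760) (l 16794336)))) (b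 (a (a (l 16797344) (l 16795920)) (a (l 16794488) (l 16793056))) (a (a (l 16796064) (l 16794632)) (l 16792504)))) (a (b (a (b (l 16794168) (l 16792888)) (a (l 16792432) (l 16791728))) (l 16790288)) (l 16788680))) (a (a (b (b (l 16794048) (l 16792784)) (l 16790880)) (l 16789352)) (b (l 16786392) (l 16783888)))) (a (b (b (l 16785544) (l 16783048)) (l 16779384)) (l 16797008))))) (b (l 6) (a (b (l 6) (a (l 16774032) (l 6))) (l 6)))), by decide +kernel⟩

def k4_pm_102 : ∃ t, chk3 f_pm_102 t 15 17 1 = true :=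
  ⟨(a (b (b (a (b (a (l 16785768) (l 16780208)) (l 16819920)) (a (l 16773104) (l 16773296))) (a (l 16772160) (l 16771120))) (a (l 16771912) (l 16762304))) (b (a (b (l 16764496) (l 16757320)) (a (b (l 6) (l 16744856)) (l 6))) (a (l 16767944) (a (l 16734216) (l 16725352))))), by decide +kernel⟩

def k5_pm_102 : ∃ t, chk3 f_pm_102 t 3 9 1 = true :=
  ⟨(a (b (a (b (a (b (l 3) (a (l 3) (l 282025227447))) (b (a (l 3) (l 285246429015)) (a (l 16870000) (b (l 16825360) (l 16819504))))) (a (b (b (l 133311976295) (l 16832008)) (a (l 16797904) (l 16801344))) (b (a (l 16857688) (l 16810712)) (l 16801800)))) (b (a (b (a (b (l 279340829111) (l 16866520)) (b (l 163376695239) (l 16815224))) (a (l 16857584) (l 16807160))) (b (a (l 16849392) (l 16796360)) (a (l 16797000) (l 16786128)))) (a (b (l 16800680) (l 16790080)) (b (l 16781512) (l 16772792))))) (a (b (a (b (l 16848440) (l 16772824)) (b (l 16789792) (l 16778136))) (a (l 16777488) (l 16762824))) (a (b (b (l 16780208) (l 16771568)) (l 16761816)) (b (l 16763544)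 (l 16765552))))) (a (b (a (b (b (a (l 16784880) (l 16774408)) (l 16770920)) (l 16763928)) (b (a (l 16766128) (l 16771328)) (l 16768688))) (a (b (l 16771320) (l 16769520)) (b (l 16760936) (l 16752448)))) (b (b (a (a (l 16763512) (l 16750072)) (a (l 16734048) (l 16716488))) (a (l 16788040) (a (l 16722208) (l 16704344)))) (a (b (l 16735696) (l 16726152)) (a (l 16706296) (b (l 16693392) (l 16683616))))))), by decide +kernel⟩

def k6_pm_102 : ∃ t, chk3 f_pm_102 t 3 5 1 = true :=
  ⟨(a (b (b (b (a (a (l 16742376) (l 16751016)) (b (l 16829288) (l 16834920))) (b (a (l 16807952) (a (l 16771416) (l 16770528))) (b (a (l 16726992) (l 16877552)) (a (b (l 16735264) (a (l 16753616) (l 16770632))) (b (l 16897240) (a (l 16772960) (l 16764048))))))) (a (a (l 16767328) (l 16774224)) (a (l 16770432) (l 16759432)))) (a (l 16988648) (a (l 16766648) (l 16752088)))) (b (a (b (b (a (l 16763184) (l 16743992)) (b (a (l 16757592) (l 16737792)) (a (b (l 16754248) (l 16749832)) (b (l 16734376) (l 16730120))))) (a (l 16742656)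 (l 16722328))) (b (b (a (l 16717504) (l 16684336)) (b (a (l 16711552) (l 16678688)) (a (b (l 16708424) (l 16704728)) (b (l 16675920) (l 16772600))))) (a (l 16696880) (b (l 16669240) (l 16661616))))) (a (a (l 16730416) (l 16725560)) (a (l 16739000) (l 16707520))))), by decide +kernel⟩

def k7_pm_102 : ∃ t, chk3 f_pm_102 t 3 3 1 = true :=
  ⟨(b (a (a (b (l 16790232) (l 16811592)) (b (l 16766184) (l 16786336))) (a (b (a (l 16733112) (l 16702440)) (l 16739216)) (b (a (l 16666184) (l 16627776)) (a (l 16686112) (l 16642680))))) (a (b (a (l 2) (l 16840088)) (l 2)) (b (a (l 16797296) (l 16724856)) (a (l 16971712) (b (l 16792624) (l 16825632)))))), by decide +kernel⟩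

theorem s8_pm_102 : ∃ t, chk3 f_pm_102 t 15 8 1 = true := ex3_b k3_pm_102 k4_pm_102

theorem s9_pm_102 : ∃ t, chk3 f_pm_102 t 7 8 1 = true := ex3_a k2_pm_102 s8_pm_102

theorem s10_pm_102 : ∃ t, chk3 f_pm_102 t 3 8 1 = true := ex3_a k1_pm_102 s9_pm_102

theorem s11_pm_102 : ∃ t, chk3 f_pm_102 t 3 4 1 = true := ex3_b s10_pm_102 k5_pm_102

theorem s12_pm_102 : ∃ t, chk3 f_pm_102 t 3 2 1 = true := ex3_b s11_pm_102 k6_pm_102

theorem s13_pm_102 : ∃ t, chk3 f_pm_102 t 3 1 1 = true := ex3_b s12_pm_102 k7_pm_102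

theorem s14_pm_102 : ∃ t, chk3 f_pm_102 t 1 1 1 = true := ex3_a k0_pm_102 s13_pm_102

theorem c_pm_102 : CertB 536870912 536870912 0 536870912 536870912 50465866 3 eng mog cd0q1 cd2q0 pd2 true true false .npp 1 0 2
    ndB0q1 ndB2q0 pcB2 cut_pm_102 Ext.none :=
  certB1 (fam := true) (s1 := true) (s2 := false) (a := 1) (b := 0) (c := 2) (cn := .npp) (n1 := ndB0q1) (n2 := ndB2q0) (pc := pcB2) (cut := cut_pm_102) (xt := Ext.none) (P1 := 536870912) (W1 := 536870912) (P2 := 0) (W2 := 536870912) (P3 := 536870912) (W3 := 50465866) (N0 := 3) (En := eng) (mo := mog) (C1 := cd0q1) (C2 := cd2q0) (C3 := pd2)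
    rfl (fun _ => rfl) s14_pm_102

noncomputable def f_pm_112 : ℕ → ℕ → ℕ → ℕ → Bool := onCell 536870912 536870912 1073741824 536870912 536870912 50465866
    (rowB 3 eng mog cd0q1 cd2q1 pd2 1 true true false .dn 1 1 2 (qsf 536870912 536870912 536870912 536870912 2) ndB0q1 ndB2q1 pcB2 Cut.none Ext.none)

def k0_pm_112 : ∃ t, chk3 f_pm_112 t 2 2 1 = true :=
  ⟨(b (b (l 3) (a (b (l 3) (a (l 3) (b (l 3) (a (b (l 3) (b (l 16690872) (l 16679376))) (b (a (l 3) (b (l 3) (l 110226325511))) (b (a (l 16717280) (l 16729696)) (a (l 16707592) (l 16721064)))))))) (b (l 1) (a (b (l 1) (a (b (l 1) (b (l 1) (a (l 16730240) (l 1)))) (l 1))) (l 1))))) (b (b (b (a (a (b (a (b (l 3) (l 154249351559)) (b (l 16611120) (l 16598680))) (a (a (b (l 16551168) (l 16559792)) (b (l 16535752) (l 16547328))) (b (l 16587176) (l 16576064)))) (b (a (b (l 16647216) (l 16636760)) (b (a (l 16698216) (l 16712544)) (a (l 16689096) (l 16704400)))) (a (b (l 16626544) (l 16638752)) (l 16685232)))) (a (a (b (b (l 16725752) (l 16719096))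 (l 16709856)) (l 1)) (l 1))) (a (b (a (a (b (a (l 16567512) (l 16558224)) (l 16594704)) (b (l 16567096) (l 16558296))) (a (l 16605336) (l 16670744))) (a (b (a (l 16624480) (l 16567352)) (b (a (l 16605016) (l 16568296)) (a (l 16626400) (a (l 16595664) (l 16589968))))) (b (a (l 16613128) (l 16659488)) (b (a (l 16606896) (l 16654600)) (a (l 16604752) (l 16653224)))))) (a (b (a (l 16803200) (l 1)) (b (a (l 16689664) (l 1)) (b (a (l 16686136) (l 1)) (a (l 16685352) (l 16703384))))) (l 1)))) (a (a (a (b (l 16595928) (l 16608032)) (l 16605072)) (a (l 16613712) (l 16635784))) (a (a (l 16672816) (l 16698112)) (l 258805314743)))) (a (a (a (b (l 16616120) (l 16620128)) (b (l 16630960) (l 16640920))) (a (b (l 16650024) (l 16664768)) (l 16683688))) (a (a (l 16710320) (l 16738536)) (b (l 16762936) (l 16776552)))))), by decide +kernel⟩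

def k1_pm_112 : ∃ t, chk3 f_pm_112 t 2 3 1 = true :=
  ⟨(a (b (a (b (a (l 16619544) (l 16649024)) (a (l 16609376) (l 16653184))) (b (a (b (l 16673544) (l 16682144)) (b (l 16702544) (l 16713688))) (a (l 16694960) (l 16734720)))) (a (b (a (l 16589904) (l 16651864)) (a (l 16556448) (l 16642080))) (b (a (b (l 16707248) (l 16715104)) (b (l 16758232) (l 16775424))) (a (l 16724832) (l 16795568))))) (b (a (b (a (b (l 16732608) (l 16745512)) (l 16769032)) (a (l 16772160) (l 16850208))) (b (l 16797984) (a (l 16837376) (l 16851704)))) (a (b (a (l 16815912) (l 16863136)) (a (l 16849544) (l 16892504))) (b (a (l 16904336) (l 16933272)) (l 16951856))))), by decide +kernel⟩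

def k2_pm_112 : ∃ t, chk3 f_pm_112 t 3 1 1 = true :=
  ⟨(b (b (l 1) (a (b (l 1) (a (l 225519845415) (l 1))) (l 1))) (b (a (a (b (l 16794200) (l 17051040)) (b (l 16874904) (l 16796744))) (a (b (l 1) (l 247531287111)) (l 1))) (a (b (a (a (l 16944840) (l 16936328)) (l 16898480)) (a (b (l 16930672) (l 16949648)) (b (l 17032256) (l 17085456)))) (b (a (l 16814152) (l 16735144)) (a (b (l 16934968) (l 17042072)) (b (l 16806048) (l 16868392))))))), by decide +kernel⟩

theorem s3_pm_112 : ∃ t, chk3 f_pm_112 t 2 1 1 = true := ex3_b k0_pm_112 k1_pm_112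

theorem s4_pm_112 : ∃ t, chk3 f_pm_112 t 1 1 1 = true := ex3_a s3_pm_112 k2_pm_112

theorem c_pm_112 : CertB 536870912 536870912 536870912 536870912 536870912 50465866 3 eng mog cd0q1 cd2q1 pd2 true true false .dn 1 1 2
    ndB0q1 ndB2q1 pcB2 Cut.none Ext.none :=
  certB1 (fam := true) (s1 := true) (s2 := false) (a := 1) (b := 1) (c := 2) (cn := .dn) (n1 := ndB0q1) (n2 := ndB2q1) (pc := pcB2) (cut := Cut.none) (xt := Ext.none) (P1 := 536870912) (W1 := 536870912) (P2 := 536870912) (W2 := 536870912) (P3 := 536870912) (W3 := 50465866) (N0 := 3) (En := eng) (mo := mog) (C1 := cd0q1) (C2 := cd2q1) (C3 := pd2)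
    rfl (fun _ => rfl) s4_pm_112

noncomputable def f_pm_113 : ℕ → ℕ → ℕ → ℕ → Bool := onCell 536870912 536870912 1610612736 536870912 536870912 50465866
    (rowB 3 eng mog cd0q1 cd2q1 pd3 1 true true false .nn 1 1 3 (qsf 536870912 536870912 536870912 536870912 3) ndB0q1 ndB2q1 pcB3 Cut.none Ext.none)

def k0_pm_113 : ∃ t, chk3 f_pm_113 t 1 1 1 = true :=
  ⟨(a (b (b (a (a (b (b (l 16565872) (l 16561520)) (a (l 2) (l 16608192))) (b (a (l 16703512) (l 16771832)) (a (l 16698648) (l 16768048)))) (a (b (a (l 16827616) (l 16878320)) (a (l 16822904) (l 16871064))) (b (l 16944472) (l 16929896)))) (a (a (l 2) (b (a (l 2) (l 16761000)) (l 2))) (a (b (b (l 16844184) (l 16839760)) (b (l 16834168) (l 2))) (b (l 16915888) (l 16900824))))) (b (a (l 2) (a (l 2) (b (a (l 2) (l 16892080)) (l 2)))) (l 2))) (b (b (a (b (a (a (l 16988920) (l 17009080)) (b (l 17063840) (l 17046512))) (a (a (l 16966144) (l 16983016)) (l 16873928))) (b (a (b (l 17188184) (l 17196864)) (b (l 17004944) (l 17028392))) (a (b (l 17141816)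 (l 17090584)) (b (l 17081392) (l 17159208))))) (b (a (a (l 16949184) (l 16980704)) (a (l 17040144) (l 17090656))) (a (a (l 16927328) (l 16946616)) (a (l 16921368) (l 17005912))))) (b (a (a (b (l 16905768) (a (l 2) (l 16884632))) (b (l 16917448) (l 16889984))) (b (a (l 16939592) (l 16947712)) (a (b (l 16909632) (l 16890464)) (b (l 16909520) (l 17097296))))) (b (a (a (l 2) (a (l 2) (l 16860624))) (a (l 16923408) (b (l 16945552) (l 16982056)))) (a (l 2) (a (b (a (l 2) (l 16891488)) (l 2)) (b (l 16997424) (b (l 16789096) (l 4))))))))), by decide +kernel⟩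

theorem c_pm_113 : CertB 536870912 536870912 536870912 536870912 536870912 50465866 3 eng mog cd0q1 cd2q1 pd3 true true false .nn 1 1 3
    ndB0q1 ndB2q1 pcB3 Cut.none Ext.none :=
  certB1 (fam := true) (s1 := true) (s2 := false) (a := 1) (b := 1) (c := 3) (cn := .nn) (n1 := ndB0q1) (n2 := ndB2q1) (pc := pcB3) (cut := Cut.none) (xt := Ext.none) (P1 := 536870912) (W1 := 536870912) (P2 := 536870912) (W2 := 536870912) (P3 := 536870912) (W3 := 50465866) (N0 := 3) (En := eng) (mo := mog) (C1 := cd0q1) (C2 := cd2q1) (C3 := pd3)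
    rfl (fun _ => rfl) k0_pm_113

end Pool.Agent.Strip051.G.I5000_5470.Tab.C.BA02

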