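import Pool.Agent.Strip051.G.I5000_5470.Tab
import Pool.Agent.Strip051.PB.ExtD2

/-! # Certificates B6 (generated) -/

set_option linter.all false
set_option maxRecDepth 100000

namespace Pool.Agent.Strip051.G.I5000_5470.Tab.C.BA02

open Pool.Agent.Strip051.PB Pool.Agent.Strip051.PB.T
open Pool.Agent.Strip051.G.I5000_5470.Tab

noncomputable def cut_pm_123_a : Cut := Cut.of [[⟨0, 1, 0, 67108864⟩, ⟨1, 1, 0, 67108864⟩, ⟨2, 2, 0, 16777216⟩], [⟨0, 0, 1, 20971520⟩, ⟨1, 1, 0, 33554432⟩, ⟨2, 1, 1, 20971520⟩]]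

noncomputable def xt_pm_123_a : Ext := extD2 3 ⟨7, 3, 3, 10, 1741, 1000, 23, 25, 19, 50, 3, 16⟩ eng cd0q1 cd2q2a pd3 true true false .npn 1 2 3 rfl ndB0q1 ndB2q2a pcB3

noncomputable def f_pm_123_a : ℕ → ℕ → ℕ → ℕ → Bool := onCell 1610612736 536870912 0 536870912 536870912 50465866
    (rowB 3 eng mog cd0q1 cd2q2a pd3 2 true true false .npn 1 2 3 (qsf 536870912 536870912 0 536870912 3) ndB0q1 ndB2q2a pcB3 cut_pm_123_a xt_pm_123_a)

def k0_pm_123_a : ∃ t, chk3 f_pm_123_a t 4 2 1 = true :=
  ⟨(a (l 1) (b (l 1) (a (l 1) (l 54793986871)))), by decide +kernel⟩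

def k1_pm_123_a : ∃ t, chk3 f_pm_123_a t 8 6 1 = true :=
  ⟨(l 1), by decide +kernel⟩

def k2_pm_123_a : ∃ t, chk3 f_pm_123_a t 8 14 1 = true :=
  ⟨(a (l 1) (b (a (l 1) (l 16556008)) (a (l 16558344) (l 16589592)))), by decide +kernel⟩

def k3_pm_123_a : ∃ t, chk3 f_pm_123_a t 32 15 1 = true :=
  ⟨(b (l 1) (b (a (l 1) (b (l 141722822172393487) (l 141789686239412239))) (c (b (a (l 141879227750842383) (l 141945129747857423)) (c (l 14) (a (b (l 141888848472752143) (b (a (l 141898675359498255) (l 141930973523001359)) (c (l 14) (a (b (l 141888161273528335) (a (a (a (l 141927812409573391) (l 141931660701417487)) (c (l 141926712905400335) (l 141880670846828559))) (c (l 14) (a (l 141888504869486607) (l 141896476331130895))))) (b (l 141920321998061583) (a (a (c (l 14) (l 141927056500621327)) (l 14)) (l 14))))))) (b (l 141955849981771791) (l 14))))) (b (a (l 141709009538269199) (l 141766252878839823)) (b (a (a (l 141737528127324175) (l 141765840560046095)) (a (l 141796077138493455) (l 141828169143238671)))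 (b (a (a (l 141758418853347343) (l 141787624639512591)) (a (l 141818685851942927) (l 141941693724639247))) (a (a (c (b (l 141817311465701391) (c (a (a (l 141837583718973455) (l 141845074144165903)) (a (l 141852702008344591) (l 141905478568755215))) (a (l 141793190919864335) (l 141852976868982799)))) (a (b (l 141712926542069775) (l 141809477408473103)) (a (l 141816624236331023) (l 141823702344515599)))) (b (c (l 141847960361287695) (l 141748317083009039)) (b (c (c (l 141878334380736527) (l 141829062497320975)) (l 141753471045025807)) (c (a (c (a (l 141870294199451663) (l 141878334380556303)) (l 141825008046866447)) (b (l 141909807894839311) (c (a (l 141887405354090511) (l 141940731670429711)) (l 141886718141775887)))) (a (l 141817036559695887) (c (l 141790029819035663) (l 141738490192756751))))))) (a (c (b (l 141880464683155471) (c (c (l 14) (a (a (l 141888504865046543) (l 141896957363093519)) (a (l 141905478580649999) (l 14)))) (a (a (l 141850915297165327) (l 141859092917239823)) (a (l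 141912419233562639) (a (l 141873730169962511) (l 141877922059255823)))))) (b (l 141778691100475407) (a (c (l 141803842437922831) (l 141751821775175695)) (b (l 141791953963089935) (a (l 141881632879984655) (l 141889604341579791)))))) (c (b (l 141915030589734927) (c (l 14) (b (l 141895445530820623) (a (a (l 141931454533959695) (a (l 141892902909345807) (l 141897300957085711))) (c (l 14) (a (l 141890772603846671) (l 141899706138312719))))))) (b (l 141810920544239631) (c (b (l 141843012550869007) (a (l 141883419601747983) (c (l 141868713643376655) (l 141842050476736527)))) (a (l 141783295304515599) (l 141799719264092175))))))))))))), by decide +kernel⟩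

def k4_pm_123_a : ∃ t, chk3 f_pm_123_a t 33 15 1 = true :=
  ⟨(b (b (l 16565488) (a (l 16577776) (l 16586112))) (b (a (b (l 141785219474178063) (l 141855725674643471)) (b (l 141857718540845071) (l 141944373819523087))) (b (a (c (l 141929805335429135) (l 141831398960840719)) (c (l 142024844407177231) (l 141904860101246991))) (c (b (a (a (l 141951589417385999) (l 142045254082150415)) (a (l 141956949572091919) (l 142046491067252751))) (c (a (c (a (a (l 14) (a (l 14) (b (l 142400533819752591) (l 142423761008509071)))) (b (l 142456677643026575) (a (b (l 142451661121126543) (l 142463274715480207)) (l 142411872554008719)))) (l 14)) (a (b (l 142480866900836495) (a (c (l 142545944261509263) (l 14)) (c (l 142589512418050191) (b (l 142455715565813903) (l 142377169206657167))))) (b (l 142568071933345935) (a (c (l 142632530818662543) (l 142505537196179599)) (l 142612052407976079))))) (l 14))) (a (b (a (l 141862322732679183) (l 141898469187371023)) (b (a (l 141976603228585999) (l 141991103048351759))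 (a (c (b (l 141951589361549327) (c (l 14) (a (a (c (l 14) (l 141906646807461903)) (l 14)) (l 14)))) (b (l 141845074133745679) (c (b (l 141877990774308879) (a (a (l 141868576203259919) (l 141877441018249231)) (a (l 141886511991685135) (l 141940662941892623)))) (b (l 141823427490267151) (a (l 141818479686467599) (l 141881014415163407)))))) (c (l 14) (b (l 141881220588486671) (c (c (l 14) (a (a (l 141889123331457039) (l 141898469182849039)) (a (l 141907883753766927) (l 14)))) (a (a (l 141847479313743887) (l 141856550287179791)) (a (l 141865758699585551) (l 141920115808239631))))))))) (c (l 14) (b (l 141901767718191119) (b (a (l 141907196557967375) (l 141946916426203151)) (c (l 14) (a (b (l 141890978754560015) (b (l 141987048584577039) (a (a (l 141886511987212303) (l 141941212693315599)) (c (l 14) (b (l 141895239362019343) (l 141897232227352591)))))) (b (l 141930561183842319) (b (l 141936814657830927) (a (c (l 14) (l 141916130088550415)) (l 14)))))))))))))), by decide +kernel⟩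

def k5_pm_123_a : ∃ t, chk3 f_pm_123_a t 17 15 1 = true :=
  ⟨(a (b (b (l 16586760) (a (l 16598568) (l 16593544))) (b (b (l 141952345307070479) (a (l 141948634460438543) (l 141942037422850063))) (b (a (a (l 142081537941929999) (l 142080094849482767)) (l 142073635242541071)) (b (a (a (b (l 142047453095231503) (l 142070130528108559)) (l 142102222494597135)) (c (l 142521411426238607) (l 142026424922275855))) (c (a (b (c (l 142694515794395279) (l 142084286783193231)) (c (a (l 142495366748471439) (l 142758218762600591)) (a (c (a (l 142465611167400079) (l 142508904445919375)) (l 14)) (c (l 142572951010312335) (a (l 14) (l 142469596892692623)))))) (c (a (l 142827625446506639) (l 142906240542654607)) (b (l 142433381756715151) (a (a (l 142574119239041167) (l 142615831969251471)) (l 142497359559966863))))) (a (l 14) (c (a (l 14) (b (l 142409536049922191) (c (a (l 142473445179097231) (l 142515501506756751)) (l 14)))) (l 14)))))))) (b (b (l 16616888) (a (l 16587448) (l 16580256))) (a (b (l 142064495463890959)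 (c (b (l 142792922091454607) (b (l 142858755366813839) (a (c (l 142983000212521103) (a (l 142726470346834063) (l 142766121492316303))) (a (l 142922801891049615) (l 142960666372735119))))) (b (l 141949390403616783) (c (b (l 142500177054449807) (a (b (l 142493648705142927) (a (c (l 142557145517441167) (l 14)) (a (l 142527458673983631) (l 142548143261810831)))) (b (l 142575699775651983) (a (a (l 142568621669712015) (l 142589031358103695)) (l 142619405372489871))))) (l 14))))) (b (b (l 142539415871078415) (l 142622978776498191)) (b (c (l 142942593139310735) (l 142473307724398607)) (b (c (l 143008288975896719) (a (l 142501963756175503) (l 142581884522381455))) (c (a (c (l 143130678395551887) (l 142901292728238223)) (l 143089309257089167)) (b (c (l 142695134248419471) (l 142098374215794831)) (c (a (c (l 142738083933438095) (l 142620298723360911)) (l 142757462826926223)) (a (c (a (l 142480866874278031) (l 142521754970538127)) (l 14)) (b (l 142517219481485455) (c (l 142588275436748943) (a (l 14)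 (l 142490487598514319)))))))))))))), by decide +kernel⟩

def k6_pm_123_a : ∃ t, chk3 f_pm_123_a t 9 6 1 = true :=
  ⟨(a (b (l 1) (a (l 16527520) (l 16593032))) (b (l 16616824) (a (l 16631736) (l 16665624)))), by decide +kernel⟩

def k7_pm_123_a : ∃ t, chk3 f_pm_123_a t 9 14 1 = true :=
  ⟨(a (a (b (l 16588392) (b (l 16611720) (l 16628744))) (b (l 16629288) (l 16659056))) (b (b (l 16676064) (l 16688096)) (l 16709072))), by decide +kernel⟩

def k8_pm_123_a : ∃ t, chk3 f_pm_123_a t 18 15 1 = true :=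
  ⟨(b (a (a (b (l 16637288) (l 16656664)) (a (l 142629713268113423) (l 16670144))) (b (l 16683664) (l 16701848))) (b (a (a (b (l 142691698259640335) (a (l 142735403860885647) (l 142814156396724367))) (b (l 16668928) (l 142943555199746191))) (c (b (l 16740232) (l 143379511661887567)) (a (l 142853738819223695) (l 143014679869210767)))) (a (b (a (a (l 142642288992436367) (c (l 143124150031204495) (l 142673212719956111))) (c (l 143241935240790159) (b (l 142786118843695247) (l 142829274686374031)))) (c (b (a (a (l 143115491379380367) (l 143189227392565391)) (l 143302545835753551)) (a (a (l 143160296489713807) (a (l 143033302906945679) (l 143251762132189327))) (a (l 143306737726554255) (l 143377724962799695)))) (a (a (b (l 142659881142861967) (b (l 142695134243356815) (b (l 142532818800836751) (c (l 142839651336716431) (a (l 142589374903255183) (l 142628819933134991)))))) (b (a (l 142719186062540943) (l 142764472207392911)) (a (c (a (l 142868994557558927) (l 142890228880392335)) (b (l 142639677610786959)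 (a (a (l 142647168036421775) (l 142657475959947407)) (l 142674724552327311)))) (b (l 142798900674085007) (c (l 142933247282888847) (a (l 142697333243658383) (c (l 142776017083793551) (l 142662836079837327)))))))) (b (a (l 142830305480540303) (l 142914349419282575)) (b (c (l 143013717807382671) (l 142795602137546895)) (a (b (l 142879714797453455) (c (l 143000248788091023) (b (l 142777391473311887) (a (c (l 142816905181905039) (a (l 142693897290498191) (a (l 142710664846491791) (l 142721797393416335)))) (c (l 142859717425381519) (b (l 142747979530453135) (c (l 142778490985218191) (a (l 142711970516631695) (l 142734098192957583))))))))) (c (l 143074878156374159) (b (l 142855044498686095) (b (l 142863359557566607) (c (l 142922870616932495) (a (a (l 142782201815924879) (l 142803917196771471)) (l 142836215357866127)))))))))))) (c (b (l 143452354327724111) (a (b (l 143441702808928335) (c (l 143577973566570703) (l 143381573253136463))) (b (l 143572476003713103) (l 143610203006894287)))) (b (a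 (l 142974066655002767) (l 143129853743169679)) (b (a (l 143035845481087119) (l 143190120740225167)) (b (a (l 142887273980756111) (l 143220907073880207)) (a (a (a (c (l 143133495883153551) (l 142923626551689359)) (l 143068968235581583)) (c (l 143228466221154447) (l 143025812435796111))) (c (l 143338073810780303) (l 143144009961226383)))))))))), by decide +kernel⟩

def k9_pm_123_a : ∃ t, chk3 f_pm_123_a t 19 15 1 = true :=
  ⟨(b (b (l 16731888) (b (l 16744160) (l 16710752))) (c (b (a (l 16774376) (l 16799696)) (a (b (l 143701531208319183) (a (l 143714038159311055) (l 143829486906474703))) (a (l 143903841395376335) (l 144006714474873039)))) (b (a (b (l 16724920) (l 143273133879885903)) (b (l 16753552) (l 143540590140702799))) (a (b (a (l 143277325772439631) (l 143416757620785231)) (a (c (l 143447612679323727) (b (l 143242897307058319) (l 143283854125711503))) (c (l 143579828981137615) (b (l 143386383604777039) (c (l 143470015229165775) (l 143382260435271823)))))) (b (c (l 143691841748631759)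 (l 143531175569735759)) (b (c (l 143746061429784783) (l 143587525554847951)) (c (l 143783101237231823) (a (l 143561137272144079) (l 143688818085871823))))))))), by decide +kernel⟩

def k10_pm_123_a : ∃ t, chk3 f_pm_123_a t 5 1 1 = true :=
  ⟨(b (a (b (a (l 16691832) (l 16731256)) (b (l 16669208) (a (l 16668848) (l 16715984)))) (b (a (l 16777704) (l 16756216)) (a (l 16828888) (b (l 16762896) (l 16772416))))) (b (a (b (a (l 16680344) (l 16728176)) (a (l 16708480) (l 16754384))) (a (b (l 16764440) (l 16788456)) (b (l 16787856) (l 16854920)))) (b (b (a (a (l 16738152) (l 16780440)) (a (l 16812872) (l 16835672))) (a (a (l 16762408) (l 16802280)) (a (b (l 16827400) (l 16839064)) (l 16854960)))) (b (a (a (a (a (l 16772824) (l 16784328)) (a (l 16794776) (l 16804800))) (a (b (l 16811704) (l 16825232)) (l 16835208))) (a (a (l 16850624) (l 16863424)) (c (l 16889144) (l 16885280)))) (b (a (a (c (a (l 16821280) (l 16840176)) (a (b (l 16778416) (l 143779046774505679)) (b (l 16799928) (l 16807856))))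 (a (c (l 16856992) (l 16823088)) (l 16856752))) (a (a (l 16871072) (l 16882496)) (l 16892704))) (a (a (a (c (b (l 16833560) (l 144182773814001935)) (b (c (l 143917722715635919) (l 143776985187827919)) (b (c (l 143970086970097871) (l 143831342307262671)) (a (a (l 143852988954116303) (l 143909751253237967)) (c (l 144058803834061071) (l 143926175205408975)))))) (c (b (l 16851928) (a (l 144319388161999119) (l 16864616))) (a (b (l 144011593533522127) (b (l 144065400896831759) (a (l 144075433944137999) (c (l 144191501169230095) (l 144069798938886415))))) (a (b (l 144091514300367119) (b (l 144150269465936143) (l 144196517682643215))) (b (l 16823232) (l 144241116628533519)))))) (c (a (l 144565816240587087) (l 16888112)) (a (b (l 144312928488472847) (a (l 144341240920604943) (l 144468371970982159))) (a (l 144543894685122895) (l 16860176))))) (a (c (l 16905368) (a (l 16870704) (l 16881528))) (a (l 16901632) (l 16904576))))))))), by decide +kernel⟩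

def k11_pm_123_a : ∃ t, chk3 f_pm_123_a t 6 1 1 = true :=
  ⟨(b (a (b (a (b (l 16767112) (l 16769640)) (b (l 16772640) (l 16776152))) (a (b (l 16776808) (l 16787496)) (b (l 16785168) (l 16796960)))) (a (b (b (l 16815480) (a (l 16778320) (l 16778256))) (b (l 16787744) (l 16800480))) (b (b (a (l 16772616) (l 16772408)) (a (l 16777136) (l 16776776))) (b (a (l 16786296) (l 16786384)) (l 16776368))))) (b (a (b (a (l 16804128) (l 16813624)) (a (l 16827688) (l 16835688))) (a (b (l 16815664) (b (l 16828368) (l 16837408))) (b (l 16851472) (a (l 16826040) (l 16821224))))) (a (b (a (a (l 16856488) (l 16859784)) (b (l 16853272) (l 16865696))) (a (b (l 16903856) (a (l 16900248) (l 16898056))) (b (l 16878784) (a (l 16894568) (l 16889480))))) (b (a (b (l 16847040) (l 16857656)) (a (b (l 16838456) (l 16848544)) (l 16901000))) (a (b (a (l 16871560) (l 16866056)) (a (l 16884800) (l 16880144))) (b (a (l 16860744) (l 16855584)) (a (l 16875016) (l 16870120)))))))), by decide +kernel⟩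

def k12_pm_123_a : ∃ t, chk3 f_pm_123_a t 14 1 1 = true :=
  ⟨(b (a (b (b (a (l 43184539623) (b (l 113514657479) (l 16776880))) (a (l 16775176) (l 16753040))) (b (a (l 16784608) (l 16780280)) (l 16791360))) (b (a (b (l 171496789927) (l 60364433527)) (b (l 4) (l 143579490679))) (a (b (l 16775960) (l 16784312)) (b (l 72712504935) (l 16778072))))) (b (a (b (l 16905832) (b (l 16809864) (l 16816944))) (b (a (l 16793320) (l 16787656)) (l 16803792))) (b (b (a (l 16825672) (a (l 16817584) (l 16811912))) (a (l 16835928) (a (l 16827768) (l 16821400)))) (a (b (a (l 16850816) (l 16845376)) (a (l 16864648) (l 16858056))) (b (a (l 16838992) (l 16830888)) (a (b (l 16846992) (l 16851952)) (b (l 16837296) (l 16840920)))))))), by decide +kernel⟩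

def k13_pm_123_a : ∃ t, chk3 f_pm_123_a t 15 1 1 = true :=
  ⟨(b (a (b (l 4) (a (b (a (l 16803992) (l 216057065751)) (a (l 16775240) (l 16775784))) (b (l 4) (a (l 118883405911) (b (l 4) (l 203708999271)))))) (l 4)) (a (b (a (b (b (l 16778696) (l 16784520)) (b (l 16790568) (l 16797808))) (b (a (l 16755632) (b (l 16774264) (l 16775856))) (a (l 16789064) (b (l 16782112) (l 16788680))))) (b (a (l 16830824) (b (l 16797552) (l 16804032))) (b (a (l 16800152) (l 16809504)) (a (b (l 16825752) (l 16828312)) (b (l 16812816) (a (l 16818064) (l 16810944))))))) (a (b (b (a (b (l 246658711511) (l 16774216)) (b (l 4) (a (l 16769360) (l 4)))) (a (b (l 16777160) (l 16784440)) (a (b (l 16775128) (l 16780080)) (b (l 16814008) (l 16777048))))) (b (b (a (l 16790344) (a (l 16786264) (l 16783496))) (l 16813720)) (b (a (l 16799936) (l 16793240)) (b (l 16798848) (a (l 16803648) (b (l 16796000) (l 16796400))))))) (b (a (b (l 4) (b (l 4) (a (a (l 16774984) (l 16773936)) (a (b (l 4) (l 16773808)) (l 4))))) (l 4))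 (b (b (b (a (a (l 16778320) (a (l 16775728) (l 16774600))) (l 4)) (a (a (l 16781040) (a (l 16778344) (l 16776568))) (a (a (a (l 16775448) (l 16774944)) (l 4)) (l 4)))) (a (b (a (l 16783464) (a (l 16780488) (l 16778680))) (a (l 16785648) (l 6))) (a (a (b (l 16777080) (l 6)) (l 6)) (l 6)))) (a (a (b (l 16788064) (b (l 16789768) (b (l 16790400) (l 16790704)))) (l 6)) (l 6))))))), by decide +kernel⟩

theorem s14_pm_123_a : ∃ t, chk3 f_pm_123_a t 7 1 1 = true := ex3_a k12_pm_123_a k13_pm_123_a

theorem s15_pm_123_a : ∃ t, chk3 f_pm_123_a t 3 1 1 = true := ex3_a k11_pm_123_a s14_pm_123_a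

theorem s16_pm_123_a : ∃ t, chk3 f_pm_123_a t 9 15 1 = true := ex3_a k8_pm_123_a k9_pm_123_a

theorem s17_pm_123_a : ∃ t, chk3 f_pm_123_a t 9 7 1 = true := ex3_b k7_pm_123_a s16_pm_123_a

theorem s18_pm_123_a : ∃ t, chk3 f_pm_123_a t 9 3 1 = true := ex3_b k6_pm_123_a s17_pm_123_a

theorem s19_pm_123_a : ∃ t, chk3 f_pm_123_a t 16 15 1 = true := ex3_a k3_pm_123_a k4_pm_123_a

theorem s20_pm_123_a : ∃ t, chk3 f_pm_123_a t 8 15 1 = true := ex3_a s19_pm_123_a k5_pm_123_a

theorem s21_pm_123_a : ∃ t, chk3 f_pm_123_a t 8 7 1 = true := ex3_b k2_pm_123_a s20_pm_123_a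

theorem s22_pm_123_a : ∃ t, chk3 f_pm_123_a t 8 3 1 = true := ex3_b k1_pm_123_a s21_pm_123_a

theorem s23_pm_123_a : ∃ t, chk3 f_pm_123_a t 4 3 1 = true := ex3_a s22_pm_123_a s18_pm_123_a

theorem s24_pm_123_a : ∃ t, chk3 f_pm_123_a t 4 1 1 = true := ex3_b k0_pm_123_a s23_pm_123_a

theorem s25_pm_123_a : ∃ t, chk3 f_pm_123_a t 2 1 1 = true := ex3_a s24_pm_123_a k10_pm_123_a

theorem s26_pm_123_a : ∃ t, chk3 f_pm_123_a t 1 1 1 = true := ex3_a s25_pm_123_a s15_pm_123_a

theorem c_pm_123_a : CertB 536870912 536870912 0 536870912 536870912 50465866 3 eng mog cd0q1 cd2q2a pd3 true true false .npn 1 2 3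
    ndB0q1 ndB2q2a pcB3 cut_pm_123_a xt_pm_123_a :=
  certB2 (fam := true) (s1 := true) (s2 := false) (a := 1) (b := 2) (c := 3) (cn := .npn) (n1 := ndB0q1) (n2 := ndB2q2a) (pc := pcB3) (cut := cut_pm_123_a) (xt := xt_pm_123_a) (P1 := 536870912) (W1 := 536870912) (P2 := 0) (W2 := 536870912) (P3 := 536870912) (W3 := 50465866) (N0 := 3) (En := eng) (mo := mog) (C1 := cd0q1) (C2 := cd2q2a) (C3 := pd3)
    rfl (fun _ => rfl) s26_pm_123_a

noncomputable def cut_pm_123_b : Cut := Cut.of [[⟨0, 1, 0, 67108864⟩, ⟨1, 1, 0, 67108864⟩, ⟨2, 2, 0, 16777216⟩], [⟨0, 0, 1, 20971520⟩, ⟨1, 1, 0, 33554432⟩, ⟨2, 1, 1, 20971520⟩]]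

noncomputable def f_pm_123_b : ℕ → ℕ → ℕ → ℕ → Bool := onCell 1610612736 536870912 1239849684 370763052 536870912 50465866
    (rowB 3 eng mog cd0q1 cd2q2b pd3 2 true true false .npn 1 2 3 (qsf 536870912 536870912 1239849684 370763052 3) ndB0q1 ndB2q2b pcB3 cut_pm_123_b Ext.none)

def k0_pm_123_b : ∃ t, chk3 f_pm_123_b t 1 1 1 = true :=
  ⟨(a (b (a (l 1) (b (a (b (a (l 16646752) (l 16672952)) (l 1)) (b (a (l 16762048) (b (l 16747496) (l 16733808))) (a (l 16698488) (l 16721616)))) (a (l 1) (b (a (l 1) (l 16718480)) (l 1))))) (l 1)) (a (b (a (b (b (a (l 16773656) (b (l 16764944) (l 16755152))) (a (l 16738472) (l 16751936))) (b (a (l 16739784) (l 16761408)) (a (l 1) (l 16774544)))) (b (a (b (a (l 16783272) (l 16827632)) (l 16811712)) (b (a (b (l 16768880) (l 16773336)) (b (l 16774264) (l 16777712))) (a (l 16780848) (l 16779616)))) (a (b (l 16785664) (l 16802616)) (b (a (l 16790240) (l 4)) (l 4))))) (b (a (l 1) (a (b (l 16818952) (l 1)) (l 4))) (l 1))) (a (b (b (a (b (a (b (l 16775712) (l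 16773520)) (l 4)) (l 4)) (l 4)) (l 4)) (l 4)) (l 4)))), by decide +kernel⟩

theorem c_pm_123_b : CertB 536870912 536870912 1239849684 370763052 536870912 50465866 3 eng mog cd0q1 cd2q2b pd3 true true false .npn 1 2 3
    ndB0q1 ndB2q2b pcB3 cut_pm_123_b Ext.none :=
  certB2 (fam := true) (s1 := true) (s2 := false) (a := 1) (b := 2) (c := 3) (cn := .npn) (n1 := ndB0q1) (n2 := ndB2q2b) (pc := pcB3) (cut := cut_pm_123_b) (xt := Ext.none) (P1 := 536870912) (W1 := 536870912) (P2 := 1239849684) (W2 := 370763052) (P3 := 536870912) (W3 := 50465866) (N0 := 3) (En := eng) (mo := mog) (C1 := cd0q1) (C2 := cd2q2b) (C3 := pd3)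
    rfl (fun _ => rfl) k0_pm_123_b

noncomputable def f_pm_133 : ℕ → ℕ → ℕ → ℕ → Bool := onCell 536870912 536870912 1610612736 536870912 536870912 50465866
    (rowB 3 eng mog cd0q1 cd2q3 pd3 0 true true false .dn 1 3 3 (qsf 536870912 536870912 1610612736 536870912 3) ndB0q1 ndB2q3 pcB3 Cut.none Ext.none)

def k0_pm_133 : ∃ t, chk3 f_pm_133 t 1 1 1 = true :=
  ⟨(l 4), by decide +kernel⟩

theorem c_pm_133 : CertB 536870912 536870912 1610612736 536870912 536870912 50465866 3 eng mog cd0q1 cd2q3 pd3 true true false .dn 1 3 3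
    ndB0q1 ndB2q3 pcB3 Cut.none Ext.none :=
  certB0 (fam := true) (s1 := true) (s2 := false) (a := 1) (b := 3) (c := 3) (cn := .dn) (n1 := ndB0q1) (n2 := ndB2q3) (pc := pcB3) (cut := Cut.none) (xt := Ext.none) (P1 := 536870912) (W1 := 536870912) (P2 := 1610612736) (W2 := 536870912) (P3 := 536870912) (W3 := 50465866) (N0 := 3) (En := eng) (mo := mog) (C1 := cd0q1) (C2 := cd2q3) (C3 := pd3)
    rfl k0_pm_133

noncomputable def cut_pm_202 : Cut := Cut.of [[⟨0, 1, 0, 67108864⟩, ⟨1, 0, 0, 67108864⟩, ⟨2, 1, 0, 67108864⟩]]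

noncomputable def f_pm_202 : ℕ → ℕ → ℕ → ℕ → Bool := onCell 0 536870912 1073741824 536870912 536870912 50465866
    (rowB 3 eng mog cd0q2 cd2q0 pd2 1 true true false .pp 2 0 2 (qsf 0 536870912 0 536870912 2) ndB0q2 ndB2q0 pcB2 cut_pm_202 Ext.none)

def k0_pm_202 : ∃ t, chk3 f_pm_202 t 2 1 1 = true :=
  ⟨(b (a (b (l 1) (b (b (b (l 1) (a (l 39224587751) (l 16552816))) (a (b (a (l 16456752) (l 16458760)) (l 16462584)) (b (l 16536960) (l 16470536)))) (a (b (l 16488656) (l 16475800)) (b (l 16472744) (l 16476872))))) (b (b (l 1) (b (l 1) (a (l 1) (b (l 1) (a (l 1) (b (l 1) (c (l 16524824) (l 16525064)))))))) (b (b (b (a (a (l 16482304) (l 16534840)) (a (l 16573440) (b (l 16521336) (l 16517472)))) (a (c (l 16508536) (l 16483512)) (a (l 16504320) (b (l 16518960) (b (l 16520368) (l 16521432)))))) (a (b (a (l 16482328) (l 16494264)) (l 16488904)) (b (a (l 16507496) (l 16501312)) (l 16492440)))) (a (b (l 16488496) (l 16488944)) (b (l 16510560) (l 16507560)))))) (b (a (b (a (l 16577496) (l 16486920))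 (a (l 16609688) (l 16516312))) (b (a (l 16493336) (l 16506880)) (a (l 16514048) (l 16520888)))) (b (a (a (l 16577072) (l 16558048)) (a (l 16552104) (l 16554080))) (a (a (l 16658072) (l 16632048)) (b (l 16604824) (l 16797376)))))), by decide +kernel⟩

def k1_pm_202 : ∃ t, chk3 f_pm_202 t 3 4 1 = true :=
  ⟨(b (a (l 1) (b (a (l 1) (l 6)) (a (a (b (l 1) (b (l 1) (a (l 1) (b (l 218002900615) (l 177200705575))))) (b (l 6) (b (l 6) (a (b (l 6) (l 16662928)) (l 16674512))))) (b (l 6) (b (l 6) (a (a (l 16684760) (l 16694632)) (l 16708720))))))) (a (b (a (l 1) (b (a (l 1) (b (l 1) (a (l 172368788743) (l 253973185207)))) (a (b (a (l 1) (l 184179916119)) (a (l 205117853063) (l 259878706215))) (a (b (l 261489347799) (c (l 16604576) (l 16603336))) (b (c (l 16618744) (b (l 16618648) (l 16616240))) (l 16612672)))))) (a (b (a (b (l 1) (l 179347992535)) (b (a (l 1) (l 16568696)) (a (l 16561504) (c (l 16612072) (l 16568560))))) (a (c (a (l 372621511079) (l 208875918167)) (b (l 16544200) (l 16530528))) (a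 (c (l 16554376) (l 16638672)) (l 16583552)))) (a (b (b (a (b (l 16583544) (l 16581280)) (c (l 16590944) (l 16589912))) (a (l 16577712) (l 16585480))) (l 16637336)) (b (a (l 16595928) (l 16605728)) (l 16594960))))) (a (b (a (b (a (b (b (l 16639992) (l 16637296)) (c (l 16633544) (b (l 16633544) (l 16630992)))) (b (a (b (l 16647472) (l 16644568)) (l 16650904)) (l 16642384))) (b (l 16673736) (l 16627280))) (b (a (b (l 16658128) (l 16652488)) (l 16665528)) (a (l 16644824) (l 16654736)))) (a (b (l 16621232) (l 16614504)) (b (a (l 16635856) (l 16645320)) (l 16632968)))) (b (a (b (a (l 16675512) (l 16685128)) (l 16669088)) (b (a (l 16694336) (l 16703088)) (l 16686808))) (a (b (l 16659048) (l 16650360)) (b (l 16676024) (l 16666536))))))), by decide +kernel⟩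

def k2_pm_202 : ∃ t, chk3 f_pm_202 t 3 5 1 = true :=
  ⟨(a (b (b (b (a (a (l 16596888) (l 16552496)) (a (l 16571864) (l 16591048))) (a (b (a (l 16535488) (l 16552904)) (b (l 16545576) (a (l 16537624) (l 16553928)))) (b (a (l 16571152) (l 16589224)) (a (b (l 16571136) (l 16571040)) (b (l 16588616) (l 16588016)))))) (a (b (c (a (l 16544816) (l 16560896)) (l 16520272)) (a (l 16535600) (l 16551232))) (a (b (l 16570440) (l 16566720)) (l 16584336)))) (a (b (a (l 16531192) (l 16546504)) (l 16533104)) (b (a (l 16561176) (l 16575344)) (l 16645584)))) (b (b (a (b (a (l 16609336) (l 16626664)) (b (l 16615224) (b (l 16613816) (a (l 16604272) (l 16619736))))) (b (a (l 16643040) (l 16658328)) (b (l 16646264) (b (l 16643952) (a (l 16634408) (l 16648104)))))) (a (a (l 16599464) (l 16613888)) (a (l 16627696) (l 16640832)))) (a (b (l 16596184) (l 16586944)) (b (l 16621744) (l 16610696))))), by decide +kernel⟩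

def k3_pm_202 : ∃ t, chk3 f_pm_202 t 3 3 1 = true :=
  ⟨(b (a (b (a (l 16507096) (b (l 16555456) (l 16550368))) (a (l 16535096) (l 16552392))) (b (a (l 16575776) (l 16660120)) (a (l 16658456) (l 16602016)))) (b (a (a (l 16566992) (l 16587672)) (a (l 16614688) (l 16654520))) (a (b (l 16631272) (a (l 16656312) (l 16672720))) (b (l 16690808) (a (l 16696640) (l 16735000)))))), by decide +kernel⟩

theorem s4_pm_202 : ∃ t, chk3 f_pm_202 t 3 2 1 = true := ex3_b k1_pm_202 k2_pm_202

theorem s5_pm_202 : ∃ t, chk3 f_pm_202 t 3 1 1 = true := ex3_b s4_pm_202 k3_pm_202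

theorem s6_pm_202 : ∃ t, chk3 f_pm_202 t 1 1 1 = true := ex3_a k0_pm_202 s5_pm_202

theorem c_pm_202 : CertB 0 536870912 0 536870912 536870912 50465866 3 eng mog cd0q2 cd2q0 pd2 true true false .pp 2 0 2
    ndB0q2 ndB2q0 pcB2 cut_pm_202 Ext.none :=
  certB1 (fam := true) (s1 := true) (s2 := false) (a := 2) (b := 0) (c := 2) (cn := .pp) (n1 := ndB0q2) (n2 := ndB2q0) (pc := pcB2) (cut := cut_pm_202) (xt := Ext.none) (P1 := 0) (W1 := 536870912) (P2 := 0) (W2 := 536870912) (P3 := 536870912) (W3 := 50465866) (N0 := 3) (En := eng) (mo := mog) (C1 := cd0q2) (C2 := cd2q0) (C3 := pd2)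
    rfl (fun _ => rfl) s6_pm_202

noncomputable def f_pm_203 : ℕ → ℕ → ℕ → ℕ → Bool := onCell 0 536870912 1610612736 536870912 536870912 50465866
    (rowB 3 eng mog cd0q2 cd2q0 pd3 1 true true false .up 2 0 3 (qsf 0 536870912 0 536870912 3) ndB0q2 ndB2q0 pcB3 Cut.none Ext.none)

def k0_pm_203 : ∃ t, chk3 f_pm_203 t 1 1 1 = true :=
  ⟨(b (b (a (a (b (a (l 16761008) (l 16726976)) (a (l 16826728) (l 16823624))) (b (b (l 16661088) (l 16725736)) (l 16813104))) (b (a (b (l 16696448) (l 16737296)) (b (l 16787384) (l 16795128))) (a (l 16846592) (l 226660070935)))) (b (a (a (l 16863936) (l 16840784)) (a (l 2) (l 2))) (a (l 2) (l 2)))) (l 2)), by decide +kernel⟩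

theorem c_pm_203 : CertB 0 536870912 0 536870912 536870912 50465866 3 eng mog cd0q2 cd2q0 pd3 true true false .up 2 0 3
    ndB0q2 ndB2q0 pcB3 Cut.none Ext.none :=
  certB1 (fam := true) (s1 := true) (s2 := false) (a := 2) (b := 0) (c := 3) (cn := .up) (n1 := ndB0q2) (n2 := ndB2q0) (pc := pcB3) (cut := Cut.none) (xt := Ext.none) (P1 := 0) (W1 := 536870912) (P2 := 0) (W2 := 536870912) (P3 := 536870912) (W3 := 50465866) (N0 := 3) (En := eng) (mo := mog) (C1 := cd0q2) (C2 := cd2q0) (C3 := pd3)
    rfl (fun _ => rfl) k0_pm_203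

noncomputable def f_pm_213 : ℕ → ℕ → ℕ → ℕ → Bool := onCell 0 536870912 1610612736 536870912 536870912 50465866
    (rowB 3 eng mog cd0q2 cd2q1 pd3 1 true true false .pnn 2 1 3 (qsf 0 536870912 536870912 536870912 3) ndB0q2 ndB2q1 pcB3 Cut.none Ext.none)

def k0_pm_213 : ∃ t, chk3 f_pm_213 t 1 1 1 = true :=
  ⟨(a (b (b (a (l 1) (b (l 1) (l 207802765559))) (a (b (l 32984604743) (l 4)) (b (l 16892656) (l 16944760)))) (b (a (l 4) (b (l 136600310647) (l 4))) (l 4))) (a (b (b (b (l 1) (l 278670208375)) (b (a (l 16937472) (l 16984400)) (b (l 16927968) (l 16862144)))) (b (b (l 16978512) (b (l 16843352) (l 16953616))) (l 4))) (b (b (b (b (l 16800008) (l 16836544)) (a (l 16903240) (l 16979728))) (b (l 17083096) (b (l 16991784) (l 16944384)))) (b (b (l 16986912) (b (a (l 16845280) (l 16885304)) (l 16861080))) (b (b (l 16899392) (l 17021072)) (l 4)))))), by decide +kernel⟩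

theorem c_pm_213 : CertB 0 536870912 536870912 536870912 536870912 50465866 3 eng mog cd0q2 cd2q1 pd3 true true false .pnn 2 1 3
    ndB0q2 ndB2q1 pcB3 Cut.none Ext.none :=
  certB1 (fam := true) (s1 := true) (s2 := false) (a := 2) (b := 1) (c := 3) (cn := .pnn) (n1 := ndB0q2) (n2 := ndB2q1) (pc := pcB3) (cut := Cut.none) (xt := Ext.none) (P1 := 0) (W1 := 536870912) (P2 := 536870912) (W2 := 536870912) (P3 := 536870912) (W3 := 50465866) (N0 := 3) (En := eng) (mo := mog) (C1 := cd0q2) (C2 := cd2q1) (C3 := pd3)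
    rfl (fun _ => rfl) k0_pm_213

noncomputable def f_mm_001 : ℕ → ℕ → ℕ → ℕ → Bool := onCell 0 536870912 0 536870912 536870912 50465866
    (rowB 3 eng mog cd0q0 cd2q0 pd1 0 true false false .up 0 0 1 (qsf 0 536870912 0 536870912 1) ndB0q0 ndB2q0 pcB1 Cut.none Ext.none)

def k0_mm_001 : ∃ t, chk3 f_mm_001 t 1 1 1 = true :=
  ⟨(l 4), by decide +kernel⟩

theorem c_mm_001 : CertB 0 536870912 0 536870912 536870912 50465866 3 eng mog cd0q0 cd2q0 pd1 true false false .up 0 0 1
    ndB0q0 ndB2q0 pcB1 Cut.none Ext.none :=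
  certB0 (fam := true) (s1 := false) (s2 := false) (a := 0) (b := 0) (c := 1) (cn := .up) (n1 := ndB0q0) (n2 := ndB2q0) (pc := pcB1) (cut := Cut.none) (xt := Ext.none) (P1 := 0) (W1 := 536870912) (P2 := 0) (W2 := 536870912) (P3 := 536870912) (W3 := 50465866) (N0 := 3) (En := eng) (mo := mog) (C1 := cd0q0) (C2 := cd2q0) (C3 := pd1)
    rfl k0_mm_001

noncomputable def f_mm_011 : ℕ → ℕ → ℕ → ℕ → Bool := onCell 0 536870912 536870912 536870912 536870912 50465866
    (rowB 3 eng mog cd0q0 cd2q1 pd1 0 true false false .pnn 0 1 1 (qsf 0 536870912 536870912 536870912 1) ndB0q0 ndB2q1 pcB1 Cut.none Ext.none)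

def k0_mm_011 : ∃ t, chk3 f_mm_011 t 1 1 1 = true :=
  ⟨(l 4), by decide +kernel⟩

theorem c_mm_011 : CertB 0 536870912 536870912 536870912 536870912 50465866 3 eng mog cd0q0 cd2q1 pd1 true false false .pnn 0 1 1
    ndB0q0 ndB2q1 pcB1 Cut.none Ext.none :=
  certB0 (fam := true) (s1 := false) (s2 := false) (a := 0) (b := 1) (c := 1) (cn := .pnn) (n1 := ndB0q0) (n2 := ndB2q1) (pc := pcB1) (cut := Cut.none) (xt := Ext.none) (P1 := 0) (W1 := 536870912) (P2 := 536870912) (W2 := 536870912) (P3 := 536870912) (W3 := 50465866) (N0 := 3) (En := eng) (mo := mog) (C1 := cd0q0) (C2 := cd2q1) (C3 := pd1)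
    rfl k0_mm_011

noncomputable def f_mm_012 : ℕ → ℕ → ℕ → ℕ → Bool := onCell 0 536870912 536870912 536870912 536870912 50465866
    (rowB 3 eng mog cd0q0 cd2q1 pd2 0 true false false .pnp 0 1 2 (qsf 0 536870912 536870912 536870912 2) ndB0q0 ndB2q1 pcB2 Cut.none Ext.none)

def k0_mm_012 : ∃ t, chk3 f_mm_012 t 1 1 1 = true :=
  ⟨(l 4), by decide +kernel⟩

theorem c_mm_012 : CertB 0 536870912 536870912 536870912 536870912 50465866 3 eng mog cd0q0 cd2q1 pd2 true false false .pnp 0 1 2
    ndB0q0 ndB2q1 pcB2 Cut.none Ext.none :=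
  certB0 (fam := true) (s1 := false) (s2 := false) (a := 0) (b := 1) (c := 2) (cn := .pnp) (n1 := ndB0q0) (n2 := ndB2q1) (pc := pcB2) (cut := Cut.none) (xt := Ext.none) (P1 := 0) (W1 := 536870912) (P2 := 536870912) (W2 := 536870912) (P3 := 536870912) (W3 := 50465866) (N0 := 3) (En := eng) (mo := mog) (C1 := cd0q0) (C2 := cd2q1) (C3 := pd2)
    rfl k0_mm_012

noncomputable def f_mm_022_a : ℕ → ℕ → ℕ → ℕ → Bool := onCell 0 536870912 0 536870912 536870912 50465866
    (rowB 3 eng mog cd0q0 cd2q2a pd2 0 true false false .pp 0 2 2 (qsf 0 536870912 0 536870912 2) ndB0q0 ndB2q2a pcB2 Cut.none Ext.none)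

def k0_mm_022_a : ∃ t, chk3 f_mm_022_a t 1 1 1 = true :=
  ⟨(l 5), by decide +kernel⟩

theorem c_mm_022_a : CertB 0 536870912 0 536870912 536870912 50465866 3 eng mog cd0q0 cd2q2a pd2 true false false .pp 0 2 2
    ndB0q0 ndB2q2a pcB2 Cut.none Ext.none :=
  certB0 (fam := true) (s1 := false) (s2 := false) (a := 0) (b := 2) (c := 2) (cn := .pp) (n1 := ndB0q0) (n2 := ndB2q2a) (pc := pcB2) (cut := Cut.none) (xt := Ext.none) (P1 := 0) (W1 := 536870912) (P2 := 0) (W2 := 536870912) (P3 := 536870912) (W3 := 50465866) (N0 := 3) (En := eng) (mo := mog) (C1 := cd0q0) (C2 := cd2q2a) (C3 := pd2)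
    rfl k0_mm_022_a

noncomputable def f_mm_022_b : ℕ → ℕ → ℕ → ℕ → Bool := onCell 0 536870912 1239849684 370763052 536870912 50465866
    (rowB 3 eng mog cd0q0 cd2q2b pd2 0 true false false .pp 0 2 2 (qsf 0 536870912 1239849684 370763052 2) ndB0q0 ndB2q2b pcB2 Cut.none Ext.none)

def k0_mm_022_b : ∃ t, chk3 f_mm_022_b t 1 1 1 = true :=
  ⟨(l 5), by decide +kernel⟩

theorem c_mm_022_b : CertB 0 536870912 1239849684 370763052 536870912 50465866 3 eng mog cd0q0 cd2q2b pd2 true false false .pp 0 2 2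
    ndB0q0 ndB2q2b pcB2 Cut.none Ext.none :=
  certB0 (fam := true) (s1 := false) (s2 := false) (a := 0) (b := 2) (c := 2) (cn := .pp) (n1 := ndB0q0) (n2 := ndB2q2b) (pc := pcB2) (cut := Cut.none) (xt := Ext.none) (P1 := 0) (W1 := 536870912) (P2 := 1239849684) (W2 := 370763052) (P3 := 536870912) (W3 := 50465866) (N0 := 3) (En := eng) (mo := mog) (C1 := cd0q0) (C2 := cd2q2b) (C3 := pd2)
    rfl k0_mm_022_b

noncomputable def f_mm_023_a : ℕ → ℕ → ℕ → ℕ → Bool := onCell 0 536870912 0 536870912 536870912 50465866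
    (rowB 3 eng mog cd0q0 cd2q2a pd3 0 true false false .up 0 2 3 (qsf 0 536870912 0 536870912 3) ndB0q0 ndB2q2a pcB3 Cut.none Ext.none)

def k0_mm_023_a : ∃ t, chk3 f_mm_023_a t 1 1 1 = true :=
  ⟨(l 5), by decide +kernel⟩

theorem c_mm_023_a : CertB 0 536870912 0 536870912 536870912 50465866 3 eng mog cd0q0 cd2q2a pd3 true false false .up 0 2 3
    ndB0q0 ndB2q2a pcB3 Cut.none Ext.none :=
  certB0 (fam := true) (s1 := false) (s2 := false) (a := 0) (b := 2) (c := 3) (cn := .up) (n1 := ndB0q0) (n2 := ndB2q2a) (pc := pcB3) (cut := Cut.none) (xt := Ext.none) (P1 := 0) (W1 := 536870912) (P2 := 0) (W2 := 536870912) (P3 := 536870912) (W3 := 50465866) (N0 := 3) (En := eng) (mo := mog) (C1 := cd0q0) (C2 := cd2q2a) (C3 := pd3)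
    rfl k0_mm_023_a

noncomputable def f_mm_023_b : ℕ → ℕ → ℕ → ℕ → Bool := onCell 0 536870912 1239849684 370763052 536870912 50465866
    (rowB 3 eng mog cd0q0 cd2q2b pd3 0 true false false .up 0 2 3 (qsf 0 536870912 1239849684 370763052 3) ndB0q0 ndB2q2b pcB3 Cut.none Ext.none)

def k0_mm_023_b : ∃ t, chk3 f_mm_023_b t 1 1 1 = true :=
  ⟨(l 5), by decide +kernel⟩

theorem c_mm_023_b : CertB 0 536870912 1239849684 370763052 536870912 50465866 3 eng mog cd0q0 cd2q2b pd3 true false false .up 0 2 3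
    ndB0q0 ndB2q2b pcB3 Cut.none Ext.none :=
  certB0 (fam := true) (s1 := false) (s2 := false) (a := 0) (b := 2) (c := 3) (cn := .up) (n1 := ndB0q0) (n2 := ndB2q2b) (pc := pcB3) (cut := Cut.none) (xt := Ext.none) (P1 := 0) (W1 := 536870912) (P2 := 1239849684) (W2 := 370763052) (P3 := 536870912) (W3 := 50465866) (N0 := 3) (En := eng) (mo := mog) (C1 := cd0q0) (C2 := cd2q2b) (C3 := pd3)
    rfl k0_mm_023_b

noncomputable def f_mm_033 : ℕ → ℕ → ℕ → ℕ → Bool := onCell 0 536870912 1610612736 536870912 536870912 50465866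
    (rowB 3 eng mog cd0q0 cd2q3 pd3 0 true false false .pnn 0 3 3 (qsf 0 536870912 1610612736 536870912 3) ndB0q0 ndB2q3 pcB3 Cut.none Ext.none)

def k0_mm_033 : ∃ t, chk3 f_mm_033 t 1 1 1 = true :=
  ⟨(l 5), by decide +kernel⟩

theorem c_mm_033 : CertB 0 536870912 1610612736 536870912 536870912 50465866 3 eng mog cd0q0 cd2q3 pd3 true false false .pnn 0 3 3
    ndB0q0 ndB2q3 pcB3 Cut.none Ext.none :=
  certB0 (fam := true) (s1 := false) (s2 := false) (a := 0) (b := 3) (c := 3) (cn := .pnn) (n1 := ndB0q0) (n2 := ndB2q3) (pc := pcB3) (cut := Cut.none) (xt := Ext.none) (P1 := 0) (W1 := 536870912) (P2 := 1610612736) (W2 := 536870912) (P3 := 536870912) (W3 := 50465866) (N0 := 3) (En := eng) (mo := mog) (C1 := cd0q0) (C2 := cd2q3) (C3 := pd3)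
    rfl k0_mm_033

noncomputable def cut_mm_101 : Cut := Cut.of [[⟨0, 1, 0, 67108864⟩, ⟨1, 0, 0, 67108864⟩, ⟨2, 1, 0, 67108864⟩]]

noncomputable def f_mm_101 : ℕ → ℕ → ℕ → ℕ → Bool := onCell 536870912 536870912 0 536870912 536870912 50465866
    (rowB 3 eng mog cd0q1 cd2q0 pd1 0 true false false .npn 1 0 1 (qsf 536870912 536870912 0 536870912 1) ndB0q1 ndB2q0 pcB1 cut_mm_101 Ext.none)

def k0_mm_101 : ∃ t, chk3 f_mm_101 t 1 1 1 = true :=
  ⟨(a (l 4) (b (a (l 4) (b (a (l 4) (b (a (l 4) (b (l 6) (l 4))) (l 4))) (l 4))) (l 4))), by decide +kernel⟩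

theorem c_mm_101 : CertB 536870912 536870912 0 536870912 536870912 50465866 3 eng mog cd0q1 cd2q0 pd1 true false false .npn 1 0 1
    ndB0q1 ndB2q0 pcB1 cut_mm_101 Ext.none :=
  certB0 (fam := true) (s1 := false) (s2 := false) (a := 1) (b := 0) (c := 1) (cn := .npn) (n1 := ndB0q1) (n2 := ndB2q0) (pc := pcB1) (cut := cut_mm_101) (xt := Ext.none) (P1 := 536870912) (W1 := 536870912) (P2 := 0) (W2 := 536870912) (P3 := 536870912) (W3 := 50465866) (N0 := 3) (En := eng) (mo := mog) (C1 := cd0q1) (C2 := cd2q0) (C3 := pd1)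
    rfl k0_mm_101

noncomputable def cut_mm_102 : Cut := Cut.of [[⟨0, 1, 0, 67108864⟩, ⟨1, 0, 0, 67108864⟩, ⟨2, 1, 0, 67108864⟩]]

noncomputable def f_mm_102 : ℕ → ℕ → ℕ → ℕ → Bool := onCell 536870912 536870912 0 536870912 536870912 50465866
    (rowB 3 eng mog cd0q1 cd2q0 pd2 0 true false false .npp 1 0 2 (qsf 536870912 536870912 0 536870912 2) ndB0q1 ndB2q0 pcB2 cut_mm_102 Ext.none)

def k0_mm_102 : ∃ t, chk3 f_mm_102 t 1 1 1 = true :=
  ⟨(a (l 4) (b (a (l 4) (b (a (l 4) (a (l 4) (b (b (l 6) (l 4)) (l 4)))) (l 4))) (l 4))), by decide +kernel⟩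

theorem c_mm_102 : CertB 536870912 536870912 0 536870912 536870912 50465866 3 eng mog cd0q1 cd2q0 pd2 true false false .npp 1 0 2
    ndB0q1 ndB2q0 pcB2 cut_mm_102 Ext.none :=
  certB0 (fam := true) (s1 := false) (s2 := false) (a := 1) (b := 0) (c := 2) (cn := .npp) (n1 := ndB0q1) (n2 := ndB2q0) (pc := pcB2) (cut := cut_mm_102) (xt := Ext.none) (P1 := 536870912) (W1 := 536870912) (P2 := 0) (W2 := 536870912) (P3 := 536870912) (W3 := 50465866) (N0 := 3) (En := eng) (mo := mog) (C1 := cd0q1) (C2 := cd2q0) (C3 := pd2)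
    rfl k0_mm_102

noncomputable def f_mm_112 : ℕ → ℕ → ℕ → ℕ → Bool := onCell 536870912 536870912 536870912 536870912 536870912 50465866
    (rowB 3 eng mog cd0q1 cd2q1 pd2 0 true false false .dn 1 1 2 (qsf 536870912 536870912 536870912 536870912 2) ndB0q1 ndB2q1 pcB2 Cut.none Ext.none)

def k0_mm_112 : ∃ t, chk3 f_mm_112 t 1 1 1 = true :=
  ⟨(l 4), by decide +kernel⟩

theorem c_mm_112 : CertB 536870912 536870912 536870912 536870912 536870912 50465866 3 eng mog cd0q1 cd2q1 pd2 true false false .dn 1 1 2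
    ndB0q1 ndB2q1 pcB2 Cut.none Ext.none :=
  certB0 (fam := true) (s1 := false) (s2 := false) (a := 1) (b := 1) (c := 2) (cn := .dn) (n1 := ndB0q1) (n2 := ndB2q1) (pc := pcB2) (cut := Cut.none) (xt := Ext.none) (P1 := 536870912) (W1 := 536870912) (P2 := 536870912) (W2 := 536870912) (P3 := 536870912) (W3 := 50465866) (N0 := 3) (En := eng) (mo := mog) (C1 := cd0q1) (C2 := cd2q1) (C3 := pd2)
    rfl k0_mm_112

noncomputable def f_mm_113 : ℕ → ℕ → ℕ → ℕ → Bool := onCell 536870912 536870912 536870912 536870912 536870912 50465866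
    (rowB 3 eng mog cd0q1 cd2q1 pd3 0 true false false .nn 1 1 3 (qsf 536870912 536870912 536870912 536870912 3) ndB0q1 ndB2q1 pcB3 Cut.none Ext.none)

def k0_mm_113 : ∃ t, chk3 f_mm_113 t 1 1 1 = true :=
  ⟨(l 4), by decide +kernel⟩

theorem c_mm_113 : CertB 536870912 536870912 536870912 536870912 536870912 50465866 3 eng mog cd0q1 cd2q1 pd3 true false false .nn 1 1 3
    ndB0q1 ndB2q1 pcB3 Cut.none Ext.none :=
  certB0 (fam := true) (s1 := false) (s2 := false) (a := 1) (b := 1) (c := 3) (cn := .nn) (n1 := ndB0q1) (n2 := ndB2q1) (pc := pcB3) (cut := Cut.none) (xt := Ext.none) (P1 := 536870912) (W1 := 536870912) (P2 := 536870912) (W2 := 536870912) (P3 := 536870912) (W3 := 50465866) (N0 := 3) (En := eng) (mo := mog) (C1 := cd0q1) (C2 := cd2q1) (C3 := pd3)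
    rfl k0_mm_113

noncomputable def f_mm_123_a : ℕ → ℕ → ℕ → ℕ → Bool := onCell 536870912 536870912 0 536870912 536870912 50465866
    (rowB 3 eng mog cd0q1 cd2q2a pd3 0 true false false .npn 1 2 3 (qsf 536870912 536870912 0 536870912 3) ndB0q1 ndB2q2a pcB3 Cut.none Ext.none)

def k0_mm_123_a : ∃ t, chk3 f_mm_123_a t 1 1 1 = true :=
  ⟨(l 4), by decide +kernel⟩

theorem c_mm_123_a : CertB 536870912 536870912 0 536870912 536870912 50465866 3 eng mog cd0q1 cd2q2a pd3 true false false .npn 1 2 3
    ndB0q1 ndB2q2a pcB3 Cut.none Ext.none :=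
  certB0 (fam := true) (s1 := false) (s2 := false) (a := 1) (b := 2) (c := 3) (cn := .npn) (n1 := ndB0q1) (n2 := ndB2q2a) (pc := pcB3) (cut := Cut.none) (xt := Ext.none) (P1 := 536870912) (W1 := 536870912) (P2 := 0) (W2 := 536870912) (P3 := 536870912) (W3 := 50465866) (N0 := 3) (En := eng) (mo := mog) (C1 := cd0q1) (C2 := cd2q2a) (C3 := pd3)
    rfl k0_mm_123_a

noncomputable def f_mm_123_b : ℕ → ℕ → ℕ → ℕ → Bool := onCell 536870912 536870912 1239849684 370763052 536870912 50465866
    (rowB 3 eng mog cd0q1 cd2q2b pd3 0 true false false .npn 1 2 3 (qsf 536870912 536870912 1239849684 370763052 3) ndB0q1 ndB2q2b pcB3 Cut.none Ext.none)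

def k0_mm_123_b : ∃ t, chk3 f_mm_123_b t 1 1 1 = true :=
  ⟨(l 5), by decide +kernel⟩

theorem c_mm_123_b : CertB 536870912 536870912 1239849684 370763052 536870912 50465866 3 eng mog cd0q1 cd2q2b pd3 true false false .npn 1 2 3
    ndB0q1 ndB2q2b pcB3 Cut.none Ext.none :=
  certB0 (fam := true) (s1 := false) (s2 := false) (a := 1) (b := 2) (c := 3) (cn := .npn) (n1 := ndB0q1) (n2 := ndB2q2b) (pc := pcB3) (cut := Cut.none) (xt := Ext.none) (P1 := 536870912) (W1 := 536870912) (P2 := 1239849684) (W2 := 370763052) (P3 := 536870912) (W3 := 50465866) (N0 := 3) (En := eng) (mo := mog) (C1 := cd0q1) (C2 := cd2q2b) (C3 := pd3)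
    rfl k0_mm_123_b

noncomputable def f_mm_133 : ℕ → ℕ → ℕ → ℕ → Bool := onCell 536870912 536870912 1610612736 536870912 536870912 50465866
    (rowB 3 eng mog cd0q1 cd2q3 pd3 0 true false false .dn 1 3 3 (qsf 536870912 536870912 1610612736 536870912 3) ndB0q1 ndB2q3 pcB3 Cut.none Ext.none)

def k0_mm_133 : ∃ t, chk3 f_mm_133 t 1 1 1 = true :=
  ⟨(l 4), by decide +kernel⟩

theorem c_mm_133 : CertB 536870912 536870912 1610612736 536870912 536870912 50465866 3 eng mog cd0q1 cd2q3 pd3 true false false .dn 1 3 3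
    ndB0q1 ndB2q3 pcB3 Cut.none Ext.none :=
  certB0 (fam := true) (s1 := false) (s2 := false) (a := 1) (b := 3) (c := 3) (cn := .dn) (n1 := ndB0q1) (n2 := ndB2q3) (pc := pcB3) (cut := Cut.none) (xt := Ext.none) (P1 := 536870912) (W1 := 536870912) (P2 := 1610612736) (W2 := 536870912) (P3 := 536870912) (W3 := 50465866) (N0 := 3) (En := eng) (mo := mog) (C1 := cd0q1) (C2 := cd2q3) (C3 := pd3)
    rfl k0_mm_133

noncomputable def cut_mm_202 : Cut := Cut.of [[⟨0, 1, 0, 67108864⟩, ⟨1, 0, 0, 67108864⟩, ⟨2, 1, 0, 67108864⟩]]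

noncomputable def f_mm_202 : ℕ → ℕ → ℕ → ℕ → Bool := onCell 0 536870912 0 536870912 536870912 50465866
    (rowB 3 eng mog cd0q2 cd2q0 pd2 0 true false false .pp 2 0 2 (qsf 0 536870912 0 536870912 2) ndB0q2 ndB2q0 pcB2 cut_mm_202 Ext.none)

def k0_mm_202 : ∃ t, chk3 f_mm_202 t 2 1 1 = true :=
  ⟨(b (b (a (b (a (b (a (b (l 16456624) (l 16463728)) (b (l 16459752) (l 16468536))) (a (l 16471112) (l 16477592))) (b (b (l 16531256) (a (l 16475600) (l 16505392))) (a (l 16486848) (l 16496712)))) (a (b (l 16550704) (l 16521976)) (b (l 16507208) (l 16526352)))) (b (b (a (b (a (l 16503048) (l 16495080)) (a (l 16494328) (l 16506568))) (a (b (l 16509728) (l 16521664)) (b (l 16568456) (l 16539568)))) (a (b (l 16512304) (l 16522280)) (b (a (l 16536416) (l 16555184)) (a (l 16548960) (l 16611768))))) (a (b (l 16538232) (l 16561424)) (b (a (l 16567600) (l 16590256)) (l 16607160))))) (a (b (a (b (l 16516072) (l 16537864)) (l 16559016)) (a (l 16576208) (l 16613512))) (b (a (l 16600120) (b (l 16636000) (l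 16665824))) (a (b (l 16643616) (l 16673856)) (b (l 16692752) (l 16715160)))))) (b (a (b (a (l 16642592) (b (l 16664272) (l 16700496))) (a (l 16743328) (l 16766496))) (b (a (b (l 16701984) (l 4)) (l 4)) (l 4))) (a (l 2) (l 4)))), by decide +kernel⟩

def k1_mm_202 : ∃ t, chk3 f_mm_202 t 6 4 1 = true :=
  ⟨(b (a (a (b (b (b (c (l 16586352) (l 16585792)) (l 16548432)) (l 16559752)) (b (a (l 16570200) (l 16580976)) (l 16675632))) (b (b (b (b (a (l 16559496) (l 16571448)) (a (l 16561864) (l 16574008))) (l 16592520)) (b (l 16578336) (l 16586168))) (b (l 16598344) (l 16678040)))) (b (b (a (b (a (b (a (l 16580824) (l 16587296)) (l 16586840)) (b (a (l 16593928) (l 16611192)) (l 16600320))) (a (l 16590888) (l 16604688))) (b (a (b (b (a (l 16606840) (l 16617808)) (l 16622480)) (l 16614400)) (b (a (c (l 16623352) (l 16621744)) (b (c (l 16629920) (l 16626776)) (l 16630096))) (l 16629000))) (a (b (l 16617552) (l 16620632)) (b (l 16632352) (l 16635648))))) (a (b (l 16624312) (l 16611304)) (a (l 16649064)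 (l 16643616)))) (b (a (l 16623688) (l 16673104)) (a (l 16703720) (b (l 16665152) (l 16674016)))))) (a (b (a (l 16614344) (b (l 16694688) (l 16647920))) (a (l 16645248) (l 16672712))) (b (a (b (l 16742208) (l 16738584)) (b (l 16687504) (c (l 16823912) (l 16806896)))) (a (l 16805704) (b (l 16826688) (l 4)))))), by decide +kernel⟩

def k2_mm_202 : ∃ t, chk3 f_mm_202 t 7 4 1 = true :=
  ⟨(b (a (b (b (a (b (b (a (a (b (c (l 16637392) (l 16634192)) (l 16637592)) (b (l 16643392) (l 16645240))) (a (b (l 16651168) (l 16653048)) (b (l 6) (l 16661040)))) (a (l 16644128) (l 16659880))) (a (b (l 16647672) (l 16651152)) (b (l 16663592) (l 16667232)))) (b (a (b (l 6) (a (l 16672128) (l 6))) (l 6)) (a (b (l 16680208) (l 16683992)) (a (l 16716064) (l 6))))) (b (a (a (l 16656248) (l 16672568)) (a (l 16689536) (l 16707248))) (a (l 16671280) (l 16727192)))) (b (a (a (l 16675576) (l 16692328)) (a (l 16709824) (l 16717440))) (a (l 16680680) (a (l 16790128) (l 16786744))))) (b (a (b (l 6) (a (b (l 6) (l 16734048))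 (l 6))) (l 6)) (a (a (b (b (a (l 16737656) (l 16747104)) (l 16750664)) (l 4)) (l 4)) (l 4)))) (a (a (b (b (c (l 16805488) (l 16800856)) (l 16798936)) (l 4)) (l 4)) (l 4))), by decide +kernel⟩

def k3_mm_202 : ∃ t, chk3 f_mm_202 t 3 5 1 = true :=
  ⟨(a (b (a (b (a (l 16676832) (l 16704056)) (l 16717552)) (a (b (l 16751648) (l 4)) (l 4))) (l 4)) (l 4)), by decide +kernel⟩

def k4_mm_202 : ∃ t, chk3 f_mm_202 t 3 3 1 = true :=
  ⟨(l 4), by decide +kernel⟩

theorem s5_mm_202 : ∃ t, chk3 f_mm_202 t 3 4 1 = true := ex3_a k1_mm_202 k2_mm_202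

theorem s6_mm_202 : ∃ t, chk3 f_mm_202 t 3 2 1 = true := ex3_b s5_mm_202 k3_mm_202

theorem s7_mm_202 : ∃ t, chk3 f_mm_202 t 3 1 1 = true := ex3_b s6_mm_202 k4_mm_202

theorem s8_mm_202 : ∃ t, chk3 f_mm_202 t 1 1 1 = true := ex3_a k0_mm_202 s7_mm_202

theorem c_mm_202 : CertB 0 536870912 0 536870912 536870912 50465866 3 eng mog cd0q2 cd2q0 pd2 true false false .pp 2 0 2
    ndB0q2 ndB2q0 pcB2 cut_mm_202 Ext.none :=
  certB0 (fam := true) (s1 := false) (s2 := false) (a := 2) (b := 0) (c := 2) (cn := .pp) (n1 := ndB0q2) (n2 := ndB2q0) (pc := pcB2) (cut := cut_mm_202) (xt := Ext.none) (P1 := 0) (W1 := 536870912) (P2 := 0) (W2 := 536870912) (P3 := 536870912) (W3 := 50465866) (N0 := 3) (En := eng) (mo := mog) (C1 := cd0q2) (C2 := cd2q0) (C3 := pd2)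
    rfl s8_mm_202

noncomputable def f_mm_203 : ℕ → ℕ → ℕ → ℕ → Bool := onCell 0 536870912 1610612736 536870912 536870912 50465866
    (rowB 3 eng mog cd0q2 cd2q0 pd3 1 true false false .up 2 0 3 (qsf 0 536870912 0 536870912 3) ndB0q2 ndB2q0 pcB3 Cut.none Ext.none)

def k0_mm_203 : ∃ t, chk3 f_mm_203 t 1 1 1 = true :=
  ⟨(b (a (b (a (b (a (b (l 16769616) (l 16802776)) (l 4)) (l 4)) (l 4)) (l 4)) (l 4)) (l 2)), by decide +kernel⟩

theorem c_mm_203 : CertB 0 536870912 0 536870912 536870912 50465866 3 eng mog cd0q2 cd2q0 pd3 true false false .up 2 0 3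
    ndB0q2 ndB2q0 pcB3 Cut.none Ext.none :=
  certB1 (fam := true) (s1 := false) (s2 := false) (a := 2) (b := 0) (c := 3) (cn := .up) (n1 := ndB0q2) (n2 := ndB2q0) (pc := pcB3) (cut := Cut.none) (xt := Ext.none) (P1 := 0) (W1 := 536870912) (P2 := 0) (W2 := 536870912) (P3 := 536870912) (W3 := 50465866) (N0 := 3) (En := eng) (mo := mog) (C1 := cd0q2) (C2 := cd2q0) (C3 := pd3)
    rfl (fun _ => rfl) k0_mm_203

noncomputable def f_mm_213 : ℕ → ℕ → ℕ → ℕ → Bool := onCell 0 536870912 536870912 536870912 536870912 50465866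
    (rowB 3 eng mog cd0q2 cd2q1 pd3 0 true false false .pnn 2 1 3 (qsf 0 536870912 536870912 536870912 3) ndB0q2 ndB2q1 pcB3 Cut.none Ext.none)

def k0_mm_213 : ∃ t, chk3 f_mm_213 t 1 1 1 = true :=
  ⟨(l 4), by decide +kernel⟩

theorem c_mm_213 : CertB 0 536870912 536870912 536870912 536870912 50465866 3 eng mog cd0q2 cd2q1 pd3 true false false .pnn 2 1 3
    ndB0q2 ndB2q1 pcB3 Cut.none Ext.none :=
  certB0 (fam := true) (s1 := false) (s2 := false) (a := 2) (b := 1) (c := 3) (cn := .pnn) (n1 := ndB0q2) (n2 := ndB2q1) (pc := pcB3) (cut := Cut.none) (xt := Ext.none) (P1 := 0) (W1 := 536870912) (P2 := 536870912) (W2 := 536870912) (P3 := 536870912) (W3 := 50465866) (N0 := 3) (En := eng) (mo := mog) (C1 := cd0q2) (C2 := cd2q1) (C3 := pd3)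
    rfl k0_mm_213

end Pool.Agent.Strip051.G.I5000_5470.Tab.C.BA02

namespace Pool.Agent.Strip051.G.I5000_5470.Tab.C.BA03

open Pool.Agent.Strip051.PB Pool.Agent.Strip051.PB.T
open Pool.Agent.Strip051.G.I5000_5470.Tab

noncomputable def f_pp_001 : ℕ → ℕ → ℕ → ℕ → Bool := onCell 0 536870912 0 536870912 536870912 50465866
    (rowB 3 eng mog cd0q0 cd3q0 pd1 0 true true true .up 0 0 1 (qsf 0 536870912 0 536870912 1) ndB0q0 ndB3q0 pcB1 Cut.none Ext.none)

def k0_pp_001 : ∃ t, chk3 f_pp_001 t 1 1 1 = true :=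
  ⟨(l 4), by decide +kernel⟩

theorem c_pp_001 : CertB 0 536870912 0 536870912 536870912 50465866 3 eng mog cd0q0 cd3q0 pd1 true true true .up 0 0 1
    ndB0q0 ndB3q0 pcB1 Cut.none Ext.none :=
  certB0 (fam := true) (s1 := true) (s2 := true) (a := 0) (b := 0) (c := 1) (cn := .up) (n1 := ndB0q0) (n2 := ndB3q0) (pc := pcB1) (cut := Cut.none) (xt := Ext.none) (P1 := 0) (W1 := 536870912) (P2 := 0) (W2 := 536870912) (P3 := 536870912) (W3 := 50465866) (N0 := 3) (En := eng) (mo := mog) (C1 := cd0q0) (C2 := cd3q0) (C3 := pd1)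
    rfl k0_pp_001

noncomputable def f_pp_011 : ℕ → ℕ → ℕ → ℕ → Bool := onCell 0 536870912 536870912 536870912 536870912 50465866
    (rowB 3 eng mog cd0q0 cd3q1 pd1 0 true true true .pnn 0 1 1 (qsf 0 536870912 536870912 536870912 1) ndB0q0 ndB3q1 pcB1 Cut.none Ext.none)

def k0_pp_011 : ∃ t, chk3 f_pp_011 t 1 1 1 = true :=
  ⟨(l 4), by decide +kernel⟩

theorem c_pp_011 : CertB 0 536870912 536870912 536870912 536870912 50465866 3 eng mog cd0q0 cd3q1 pd1 true true true .pnn 0 1 1
    ndB0q0 ndB3q1 pcB1 Cut.none Ext.none :=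
  certB0 (fam := true) (s1 := true) (s2 := true) (a := 0) (b := 1) (c := 1) (cn := .pnn) (n1 := ndB0q0) (n2 := ndB3q1) (pc := pcB1) (cut := Cut.none) (xt := Ext.none) (P1 := 0) (W1 := 536870912) (P2 := 536870912) (W2 := 536870912) (P3 := 536870912) (W3 := 50465866) (N0 := 3) (En := eng) (mo := mog) (C1 := cd0q0) (C2 := cd3q1) (C3 := pd1)
    rfl k0_pp_011

noncomputable def f_pp_012 : ℕ → ℕ → ℕ → ℕ → Bool := onCell 0 536870912 536870912 536870912 536870912 50465866
    (rowB 3 eng mog cd0q0 cd3q1 pd2 0 true true true .pnp 0 1 2 (qsf 0 536870912 536870912 536870912 2) ndB0q0 ndB3q1 pcB2 Cut.none Ext.none)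

def k0_pp_012 : ∃ t, chk3 f_pp_012 t 1 1 1 = true :=
  ⟨(l 4), by decide +kernel⟩

theorem c_pp_012 : CertB 0 536870912 536870912 536870912 536870912 50465866 3 eng mog cd0q0 cd3q1 pd2 true true true .pnp 0 1 2
    ndB0q0 ndB3q1 pcB2 Cut.none Ext.none :=
  certB0 (fam := true) (s1 := true) (s2 := true) (a := 0) (b := 1) (c := 2) (cn := .pnp) (n1 := ndB0q0) (n2 := ndB3q1) (pc := pcB2) (cut := Cut.none) (xt := Ext.none) (P1 := 0) (W1 := 536870912) (P2 := 536870912) (W2 := 536870912) (P3 := 536870912) (W3 := 50465866) (N0 := 3) (En := eng) (mo := mog) (C1 := cd0q0) (C2 := cd3q1) (C3 := pd2)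
    rfl k0_pp_012

noncomputable def cut_pp_022_a : Cut := Cut.of [[⟨0, 0, 0, 67108864⟩, ⟨1, 1, 0, 67108864⟩, ⟨2, 1, 0, 67108864⟩]]

noncomputable def f_pp_022_a : ℕ → ℕ → ℕ → ℕ → Bool := onCell 0 536870912 0 536870912 536870912 50465866
    (rowB 3 eng mog cd0q0 cd3q2a pd2 0 true true true .pp 0 2 2 (qsf 0 536870912 0 536870912 2) ndB0q0 ndB3q2a pcB2 cut_pp_022_a Ext.none)

def k0_pp_022_a : ∃ t, chk3 f_pp_022_a t 1 1 1 = true :=
  ⟨(a (a (b (a (b (a (b (a (b (l 16472544) (l 16473384)) (a (l 16504016) (l 16489184))) (a (b (l 16476504) (l 16481856)) (b (a (l 16486144) (l 4)) (l 4)))) (b (a (l 16560440) (l 4)) (l 4))) (a (b (a (l 16515784) (l 4)) (l 4)) (l 4))) (l 4)) (a (b (l 4) (b (l 4) (a (b (l 4) (l 6)) (l 4)))) (l 4))) (l 4)) (l 4)), by decide +kernel⟩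

theorem c_pp_022_a : CertB 0 536870912 0 536870912 536870912 50465866 3 eng mog cd0q0 cd3q2a pd2 true true true .pp 0 2 2
    ndB0q0 ndB3q2a pcB2 cut_pp_022_a Ext.none :=
  certB0 (fam := true) (s1 := true) (s2 := true) (a := 0) (b := 2) (c := 2) (cn := .pp) (n1 := ndB0q0) (n2 := ndB3q2a) (pc := pcB2) (cut := cut_pp_022_a) (xt := Ext.none) (P1 := 0) (W1 := 536870912) (P2 := 0) (W2 := 536870912) (P3 := 536870912) (W3 := 50465866) (N0 := 3) (En := eng) (mo := mog) (C1 := cd0q0) (C2 := cd3q2a) (C3 := pd2)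
    rfl k0_pp_022_a

noncomputable def cut_pp_022_b : Cut := Cut.of [[⟨0, 0, 0, 67108864⟩, ⟨1, 1, 0, 67108864⟩, ⟨2, 1, 0, 67108864⟩]]

noncomputable def f_pp_022_b : ℕ → ℕ → ℕ → ℕ → Bool := onCell 0 536870912 1239849684 370763052 536870912 50465866
    (rowB 3 eng mog cd0q0 cd3q2b pd2 0 true true true .pp 0 2 2 (qsf 0 536870912 1239849684 370763052 2) ndB0q0 ndB3q2b pcB2 cut_pp_022_b Ext.none)

def k0_pp_022_b : ∃ t, chk3 f_pp_022_b t 1 1 1 = true :=
  ⟨(a (b (a (b (a (b (a (b (a (b (a (l 16458864) (l 16486424)) (l 16524576)) (a (l 16481856) (l 16487648))) (a (l 16470352) (l 16480184))) (b (a (b (l 16486272) (l 4)) (l 4)) (l 4))) (l 4)) (l 4)) (l 4)) (l 4)) (l 4)) (l 4)), by decide +kernel⟩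

theorem c_pp_022_b : CertB 0 536870912 1239849684 370763052 536870912 50465866 3 eng mog cd0q0 cd3q2b pd2 true true true .pp 0 2 2
    ndB0q0 ndB3q2b pcB2 cut_pp_022_b Ext.none :=
  certB0 (fam := true) (s1 := true) (s2 := true) (a := 0) (b := 2) (c := 2) (cn := .pp) (n1 := ndB0q0) (n2 := ndB3q2b) (pc := pcB2) (cut := cut_pp_022_b) (xt := Ext.none) (P1 := 0) (W1 := 536870912) (P2 := 1239849684) (W2 := 370763052) (P3 := 536870912) (W3 := 50465866) (N0 := 3) (En := eng) (mo := mog) (C1 := cd0q0) (C2 := cd3q2b) (C3 := pd2)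
    rfl k0_pp_022_b

noncomputable def f_pp_023_a : ℕ → ℕ → ℕ → ℕ → Bool := onCell 1610612736 536870912 0 536870912 536870912 50465866
    (rowB 3 eng mog cd0q0 cd3q2a pd3 2 true true true .up 0 2 3 (qsf 0 536870912 0 536870912 3) ndB0q0 ndB3q2a pcB3 Cut.none Ext.none)

def k0_pp_023_a : ∃ t, chk3 f_pp_023_a t 1 1 1 = true :=
  ⟨(l 4), by decide +kernel⟩

theorem c_pp_023_a : CertB 0 536870912 0 536870912 536870912 50465866 3 eng mog cd0q0 cd3q2a pd3 true true true .up 0 2 3
    ndB0q0 ndB3q2a pcB3 Cut.none Ext.none :=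
  certB2 (fam := true) (s1 := true) (s2 := true) (a := 0) (b := 2) (c := 3) (cn := .up) (n1 := ndB0q0) (n2 := ndB3q2a) (pc := pcB3) (cut := Cut.none) (xt := Ext.none) (P1 := 0) (W1 := 536870912) (P2 := 0) (W2 := 536870912) (P3 := 536870912) (W3 := 50465866) (N0 := 3) (En := eng) (mo := mog) (C1 := cd0q0) (C2 := cd3q2a) (C3 := pd3)
    rfl (fun _ => rfl) k0_pp_023_a

noncomputable def f_pp_023_b : ℕ → ℕ → ℕ → ℕ → Bool := onCell 1610612736 536870912 1239849684 370763052 536870912 50465866
    (rowB 3 eng mog cd0q0 cd3q2b pd3 2 true true true .up 0 2 3 (qsf 0 536870912 1239849684 370763052 3) ndB0q0 ndB3q2b pcB3 Cut.none Ext.none)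

def k0_pp_023_b : ∃ t, chk3 f_pp_023_b t 1 1 1 = true :=
  ⟨(l 4), by decide +kernel⟩

theorem c_pp_023_b : CertB 0 536870912 1239849684 370763052 536870912 50465866 3 eng mog cd0q0 cd3q2b pd3 true true true .up 0 2 3
    ndB0q0 ndB3q2b pcB3 Cut.none Ext.none :=
  certB2 (fam := true) (s1 := true) (s2 := true) (a := 0) (b := 2) (c := 3) (cn := .up) (n1 := ndB0q0) (n2 := ndB3q2b) (pc := pcB3) (cut := Cut.none) (xt := Ext.none) (P1 := 0) (W1 := 536870912) (P2 := 1239849684) (W2 := 370763052) (P3 := 536870912) (W3 := 50465866) (N0 := 3) (En := eng) (mo := mog) (C1 := cd0q0) (C2 := cd3q2b) (C3 := pd3)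
    rfl (fun _ => rfl) k0_pp_023_b

noncomputable def f_pp_033 : ℕ → ℕ → ℕ → ℕ → Bool := onCell 0 536870912 1610612736 536870912 536870912 50465866
    (rowB 3 eng mog cd0q0 cd3q3 pd3 0 true true true .pnn 0 3 3 (qsf 0 536870912 1610612736 536870912 3) ndB0q0 ndB3q3 pcB3 Cut.none Ext.none)

def k0_pp_033 : ∃ t, chk3 f_pp_033 t 1 1 1 = true :=
  ⟨(l 4), by decide +kernel⟩

theorem c_pp_033 : CertB 0 536870912 1610612736 536870912 536870912 50465866 3 eng mog cd0q0 cd3q3 pd3 true true true .pnn 0 3 3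
    ndB0q0 ndB3q3 pcB3 Cut.none Ext.none :=
  certB0 (fam := true) (s1 := true) (s2 := true) (a := 0) (b := 3) (c := 3) (cn := .pnn) (n1 := ndB0q0) (n2 := ndB3q3) (pc := pcB3) (cut := Cut.none) (xt := Ext.none) (P1 := 0) (W1 := 536870912) (P2 := 1610612736) (W2 := 536870912) (P3 := 536870912) (W3 := 50465866) (N0 := 3) (En := eng) (mo := mog) (C1 := cd0q0) (C2 := cd3q3) (C3 := pd3)
    rfl k0_pp_033

noncomputable def f_pp_101 : ℕ → ℕ → ℕ → ℕ → Bool := onCell 536870912 536870912 0 536870912 536870912 50465866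
    (rowB 3 eng mog cd0q1 cd3q0 pd1 0 true true true .npn 1 0 1 (qsf 536870912 536870912 0 536870912 1) ndB0q1 ndB3q0 pcB1 Cut.none Ext.none)

def k0_pp_101 : ∃ t, chk3 f_pp_101 t 1 1 1 = true :=
  ⟨(l 5), by decide +kernel⟩

theorem c_pp_101 : CertB 536870912 536870912 0 536870912 536870912 50465866 3 eng mog cd0q1 cd3q0 pd1 true true true .npn 1 0 1
    ndB0q1 ndB3q0 pcB1 Cut.none Ext.none :=
  certB0 (fam := true) (s1 := true) (s2 := true) (a := 1) (b := 0) (c := 1) (cn := .npn) (n1 := ndB0q1) (n2 := ndB3q0) (pc := pcB1) (cut := Cut.none) (xt := Ext.none) (P1 := 536870912) (W1 := 536870912) (P2 := 0) (W2 := 536870912) (P3 := 536870912) (W3 := 50465866) (N0 := 3) (En := eng) (mo := mog) (C1 := cd0q1) (C2 := cd3q0) (C3 := pd1)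
    rfl k0_pp_101

noncomputable def f_pp_102 : ℕ → ℕ → ℕ → ℕ → Bool := onCell 536870912 536870912 0 536870912 536870912 50465866
    (rowB 3 eng mog cd0q1 cd3q0 pd2 0 true true true .npp 1 0 2 (qsf 536870912 536870912 0 536870912 2) ndB0q1 ndB3q0 pcB2 Cut.none Ext.none)

def k0_pp_102 : ∃ t, chk3 f_pp_102 t 1 1 1 = true :=
  ⟨(l 5), by decide +kernel⟩

theorem c_pp_102 : CertB 536870912 536870912 0 536870912 536870912 50465866 3 eng mog cd0q1 cd3q0 pd2 true true true .npp 1 0 2
    ndB0q1 ndB3q0 pcB2 Cut.none Ext.none :=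
  certB0 (fam := true) (s1 := true) (s2 := true) (a := 1) (b := 0) (c := 2) (cn := .npp) (n1 := ndB0q1) (n2 := ndB3q0) (pc := pcB2) (cut := Cut.none) (xt := Ext.none) (P1 := 536870912) (W1 := 536870912) (P2 := 0) (W2 := 536870912) (P3 := 536870912) (W3 := 50465866) (N0 := 3) (En := eng) (mo := mog) (C1 := cd0q1) (C2 := cd3q0) (C3 := pd2)
    rfl k0_pp_102

noncomputable def f_pp_112 : ℕ → ℕ → ℕ → ℕ → Bool := onCell 536870912 536870912 536870912 536870912 536870912 50465866
    (rowB 3 eng mog cd0q1 cd3q1 pd2 0 true true true .dn 1 1 2 (qsf 536870912 536870912 536870912 536870912 2) ndB0q1 ndB3q1 pcB2 Cut.none Ext.none)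

def k0_pp_112 : ∃ t, chk3 f_pp_112 t 1 1 1 = true :=
  ⟨(l 4), by decide +kernel⟩

theorem c_pp_112 : CertB 536870912 536870912 536870912 536870912 536870912 50465866 3 eng mog cd0q1 cd3q1 pd2 true true true .dn 1 1 2
    ndB0q1 ndB3q1 pcB2 Cut.none Ext.none :=
  certB0 (fam := true) (s1 := true) (s2 := true) (a := 1) (b := 1) (c := 2) (cn := .dn) (n1 := ndB0q1) (n2 := ndB3q1) (pc := pcB2) (cut := Cut.none) (xt := Ext.none) (P1 := 536870912) (W1 := 536870912) (P2 := 536870912) (W2 := 536870912) (P3 := 536870912) (W3 := 50465866) (N0 := 3) (En := eng) (mo := mog) (C1 := cd0q1) (C2 := cd3q1) (C3 := pd2)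
    rfl k0_pp_112

noncomputable def f_pp_113 : ℕ → ℕ → ℕ → ℕ → Bool := onCell 536870912 536870912 536870912 536870912 536870912 50465866
    (rowB 3 eng mog cd0q1 cd3q1 pd3 0 true true true .nn 1 1 3 (qsf 536870912 536870912 536870912 536870912 3) ndB0q1 ndB3q1 pcB3 Cut.none Ext.none)

def k0_pp_113 : ∃ t, chk3 f_pp_113 t 1 1 1 = true :=
  ⟨(l 4), by decide +kernel⟩

theorem c_pp_113 : CertB 536870912 536870912 536870912 536870912 536870912 50465866 3 eng mog cd0q1 cd3q1 pd3 true true true .nn 1 1 3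
    ndB0q1 ndB3q1 pcB3 Cut.none Ext.none :=
  certB0 (fam := true) (s1 := true) (s2 := true) (a := 1) (b := 1) (c := 3) (cn := .nn) (n1 := ndB0q1) (n2 := ndB3q1) (pc := pcB3) (cut := Cut.none) (xt := Ext.none) (P1 := 536870912) (W1 := 536870912) (P2 := 536870912) (W2 := 536870912) (P3 := 536870912) (W3 := 50465866) (N0 := 3) (En := eng) (mo := mog) (C1 := cd0q1) (C2 := cd3q1) (C3 := pd3)
    rfl k0_pp_113

noncomputable def f_pp_123_a : ℕ → ℕ → ℕ → ℕ → Bool := onCell 536870912 536870912 0 536870912 536870912 50465866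
    (rowB 3 eng mog cd0q1 cd3q2a pd3 0 true true true .npn 1 2 3 (qsf 536870912 536870912 0 536870912 3) ndB0q1 ndB3q2a pcB3 Cut.none Ext.none)

def k0_pp_123_a : ∃ t, chk3 f_pp_123_a t 1 1 1 = true :=
  ⟨(l 4), by decide +kernel⟩

theorem c_pp_123_a : CertB 536870912 536870912 0 536870912 536870912 50465866 3 eng mog cd0q1 cd3q2a pd3 true true true .npn 1 2 3
    ndB0q1 ndB3q2a pcB3 Cut.none Ext.none :=
  certB0 (fam := true) (s1 := true) (s2 := true) (a := 1) (b := 2) (c := 3) (cn := .npn) (n1 := ndB0q1) (n2 := ndB3q2a) (pc := pcB3) (cut := Cut.none) (xt := Ext.none) (P1 := 536870912) (W1 := 536870912) (P2 := 0) (W2 := 536870912) (P3 := 536870912) (W3 := 50465866) (N0 := 3) (En := eng) (mo := mog) (C1 := cd0q1) (C2 := cd3q2a) (C3 := pd3)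
    rfl k0_pp_123_a

noncomputable def f_pp_123_b : ℕ → ℕ → ℕ → ℕ → Bool := onCell 536870912 536870912 1239849684 370763052 536870912 50465866
    (rowB 3 eng mog cd0q1 cd3q2b pd3 0 true true true .npn 1 2 3 (qsf 536870912 536870912 1239849684 370763052 3) ndB0q1 ndB3q2b pcB3 Cut.none Ext.none)

def k0_pp_123_b : ∃ t, chk3 f_pp_123_b t 1 1 1 = true :=
  ⟨(l 4), by decide +kernel⟩

theorem c_pp_123_b : CertB 536870912 536870912 1239849684 370763052 536870912 50465866 3 eng mog cd0q1 cd3q2b pd3 true true true .npn 1 2 3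
    ndB0q1 ndB3q2b pcB3 Cut.none Ext.none :=
  certB0 (fam := true) (s1 := true) (s2 := true) (a := 1) (b := 2) (c := 3) (cn := .npn) (n1 := ndB0q1) (n2 := ndB3q2b) (pc := pcB3) (cut := Cut.none) (xt := Ext.none) (P1 := 536870912) (W1 := 536870912) (P2 := 1239849684) (W2 := 370763052) (P3 := 536870912) (W3 := 50465866) (N0 := 3) (En := eng) (mo := mog) (C1 := cd0q1) (C2 := cd3q2b) (C3 := pd3)
    rfl k0_pp_123_b

noncomputable def f_pp_133 : ℕ → ℕ → ℕ → ℕ → Bool := onCell 536870912 536870912 1610612736 536870912 536870912 50465866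
    (rowB 3 eng mog cd0q1 cd3q3 pd3 0 true true true .dn 1 3 3 (qsf 536870912 536870912 1610612736 536870912 3) ndB0q1 ndB3q3 pcB3 Cut.none Ext.none)

def k0_pp_133 : ∃ t, chk3 f_pp_133 t 1 1 1 = true :=
  ⟨(l 4), by decide +kernel⟩

theorem c_pp_133 : CertB 536870912 536870912 1610612736 536870912 536870912 50465866 3 eng mog cd0q1 cd3q3 pd3 true true true .dn 1 3 3
    ndB0q1 ndB3q3 pcB3 Cut.none Ext.none :=
  certB0 (fam := true) (s1 := true) (s2 := true) (a := 1) (b := 3) (c := 3) (cn := .dn) (n1 := ndB0q1) (n2 := ndB3q3) (pc := pcB3) (cut := Cut.none) (xt := Ext.none) (P1 := 536870912) (W1 := 536870912) (P2 := 1610612736) (W2 := 536870912) (P3 := 536870912) (W3 := 50465866) (N0 := 3) (En := eng) (mo := mog) (C1 := cd0q1) (C2 := cd3q3) (C3 := pd3)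
    rfl k0_pp_133

noncomputable def f_pp_202 : ℕ → ℕ → ℕ → ℕ → Bool := onCell 0 536870912 0 536870912 536870912 50465866
    (rowB 3 eng mog cd0q2 cd3q0 pd2 0 true true true .pp 2 0 2 (qsf 0 536870912 0 536870912 2) ndB0q2 ndB3q0 pcB2 Cut.none Ext.none)

def k0_pp_202 : ∃ t, chk3 f_pp_202 t 1 1 1 = true :=
  ⟨(l 5), by decide +kernel⟩

theorem c_pp_202 : CertB 0 536870912 0 536870912 536870912 50465866 3 eng mog cd0q2 cd3q0 pd2 true true true .pp 2 0 2
    ndB0q2 ndB3q0 pcB2 Cut.none Ext.none :=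
  certB0 (fam := true) (s1 := true) (s2 := true) (a := 2) (b := 0) (c := 2) (cn := .pp) (n1 := ndB0q2) (n2 := ndB3q0) (pc := pcB2) (cut := Cut.none) (xt := Ext.none) (P1 := 0) (W1 := 536870912) (P2 := 0) (W2 := 536870912) (P3 := 536870912) (W3 := 50465866) (N0 := 3) (En := eng) (mo := mog) (C1 := cd0q2) (C2 := cd3q0) (C3 := pd2)
    rfl k0_pp_202

noncomputable def f_pp_203 : ℕ → ℕ → ℕ → ℕ → Bool := onCell 0 536870912 0 536870912 536870912 50465866
    (rowB 3 eng mog cd0q2 cd3q0 pd3 0 true true true .up 2 0 3 (qsf 0 536870912 0 536870912 3) ndB0q2 ndB3q0 pcB3 Cut.none Ext.none)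

def k0_pp_203 : ∃ t, chk3 f_pp_203 t 1 1 1 = true :=
  ⟨(l 5), by decide +kernel⟩

theorem c_pp_203 : CertB 0 536870912 0 536870912 536870912 50465866 3 eng mog cd0q2 cd3q0 pd3 true true true .up 2 0 3
    ndB0q2 ndB3q0 pcB3 Cut.none Ext.none :=
  certB0 (fam := true) (s1 := true) (s2 := true) (a := 2) (b := 0) (c := 3) (cn := .up) (n1 := ndB0q2) (n2 := ndB3q0) (pc := pcB3) (cut := Cut.none) (xt := Ext.none) (P1 := 0) (W1 := 536870912) (P2 := 0) (W2 := 536870912) (P3 := 536870912) (W3 := 50465866) (N0 := 3) (En := eng) (mo := mog) (C1 := cd0q2) (C2 := cd3q0) (C3 := pd3)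
    rfl k0_pp_203

noncomputable def f_pp_213 : ℕ → ℕ → ℕ → ℕ → Bool := onCell 0 536870912 536870912 536870912 536870912 50465866
    (rowB 3 eng mog cd0q2 cd3q1 pd3 0 true true true .pnn 2 1 3 (qsf 0 536870912 536870912 536870912 3) ndB0q2 ndB3q1 pcB3 Cut.none Ext.none)

def k0_pp_213 : ∃ t, chk3 f_pp_213 t 1 1 1 = true :=
  ⟨(l 4), by decide +kernel⟩

theorem c_pp_213 : CertB 0 536870912 536870912 536870912 536870912 50465866 3 eng mog cd0q2 cd3q1 pd3 true true true .pnn 2 1 3
    ndB0q2 ndB3q1 pcB3 Cut.none Ext.none :=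
  certB0 (fam := true) (s1 := true) (s2 := true) (a := 2) (b := 1) (c := 3) (cn := .pnn) (n1 := ndB0q2) (n2 := ndB3q1) (pc := pcB3) (cut := Cut.none) (xt := Ext.none) (P1 := 0) (W1 := 536870912) (P2 := 536870912) (W2 := 536870912) (P3 := 536870912) (W3 := 50465866) (N0 := 3) (En := eng) (mo := mog) (C1 := cd0q2) (C2 := cd3q1) (C3 := pd3)
    rfl k0_pp_213

noncomputable def f_pm_001 : ℕ → ℕ → ℕ → ℕ → Bool := onCell 0 536870912 0 536870912 536870912 50465866
    (rowB 3 eng mog cd0q0 cd3q0 pd1 0 true true false .up 0 0 1 (qsf 0 536870912 0 536870912 1) ndB0q0 ndB3q0 pcB1 Cut.none Ext.none)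

def k0_pm_001 : ∃ t, chk3 f_pm_001 t 1 1 1 = true :=
  ⟨(a (l 3) (l 3)), by decide +kernel⟩

theorem c_pm_001 : CertB 0 536870912 0 536870912 536870912 50465866 3 eng mog cd0q0 cd3q0 pd1 true true false .up 0 0 1
    ndB0q0 ndB3q0 pcB1 Cut.none Ext.none :=
  certB0 (fam := true) (s1 := true) (s2 := false) (a := 0) (b := 0) (c := 1) (cn := .up) (n1 := ndB0q0) (n2 := ndB3q0) (pc := pcB1) (cut := Cut.none) (xt := Ext.none) (P1 := 0) (W1 := 536870912) (P2 := 0) (W2 := 536870912) (P3 := 536870912) (W3 := 50465866) (N0 := 3) (En := eng) (mo := mog) (C1 := cd0q0) (C2 := cd3q0) (C3 := pd1)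
    rfl k0_pm_001

noncomputable def f_pm_011 : ℕ → ℕ → ℕ → ℕ → Bool := onCell 536870912 536870912 536870912 536870912 536870912 50465866
    (rowB 3 eng mog cd0q0 cd3q1 pd1 2 true true false .pnn 0 1 1 (qsf 0 536870912 536870912 536870912 1) ndB0q0 ndB3q1 pcB1 Cut.none Ext.none)

def k0_pm_011 : ∃ t, chk3 f_pm_011 t 1 1 1 = true :=
  ⟨(l 3), by decide +kernel⟩

theorem c_pm_011 : CertB 0 536870912 536870912 536870912 536870912 50465866 3 eng mog cd0q0 cd3q1 pd1 true true false .pnn 0 1 1
    ndB0q0 ndB3q1 pcB1 Cut.none Ext.none :=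
  certB2 (fam := true) (s1 := true) (s2 := false) (a := 0) (b := 1) (c := 1) (cn := .pnn) (n1 := ndB0q0) (n2 := ndB3q1) (pc := pcB1) (cut := Cut.none) (xt := Ext.none) (P1 := 0) (W1 := 536870912) (P2 := 536870912) (W2 := 536870912) (P3 := 536870912) (W3 := 50465866) (N0 := 3) (En := eng) (mo := mog) (C1 := cd0q0) (C2 := cd3q1) (C3 := pd1)
    rfl (fun _ => rfl) k0_pm_011

noncomputable def f_pm_012 : ℕ → ℕ → ℕ → ℕ → Bool := onCell 1073741824 536870912 536870912 536870912 536870912 50465866
    (rowB 3 eng mog cd0q0 cd3q1 pd2 2 true true false .pnp 0 1 2 (qsf 0 536870912 536870912 536870912 2) ndB0q0 ndB3q1 pcB2 Cut.none Ext.none)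

def k0_pm_012 : ∃ t, chk3 f_pm_012 t 4 2 1 = true :=
  ⟨(a (a (l 3) (b (b (a (l 3) (b (l 2) (a (b (a (l 157470718503) (l 2)) (l 152638823095)) (a (b (l 2) (l 16607272)) (l 16615952))))) (a (l 3) (b (a (b (l 147806928727) (l 3)) (b (a (l 16571616) (l 16560608)) (l 16552440))) (a (l 3) (a (l 165523572423) (l 16557000)))))) (a (l 3) (a (l 3) (b (a (l 3) (b (c (l 16438472) (l 16445920)) (b (b (l 16406384) (l 3)) (l 3)))) (l 3)))))) (b (a (b (a (b (l 2) (a (l 16600664) (l 2))) (l 2)) (a (b (a (l 16526760) (l 16502992)) (a (a (l 16524064) (l 16448296)) (l 16429384))) (b (l 16467520) (l 16430712)))) (b (l 2) (a (b (l 16415728) (l 16340224)) (l 16509440)))) (a (b (b (a (a (c (b (l 16396760) (l 16415096)) (l 16448608)) (l 16434944)) (b (l 16370152) (l 16465848))) (a (b (b (a (a (l 16406472) (l 16410880)) (l 16416160)) (a (a (l 16423768) (l 16426944)) (l 16430512))) (a (a (b (l 16430528) (l 16433744)) (l 16433744)) (a (l 16435440) (l 16437136)))) (b (a (l 16427984) (l 16430968)) (a (l 16438760)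 (l 16440416))))) (a (b (a (b (a (l 16273319607) (l 16438752)) (a (l 3) (l 16445624))) (b (a (l 16440584) (l 16441504)) (a (l 16446888) (l 16447080)))) (a (b (a (l 3) (l 16453496)) (l 16488624)) (b (a (l 16452912) (l 16453584)) (a (l 16459432) (l 16460088))))) (a (b (l 16444664) (a (l 16456112) (l 16455344))) (b (l 16444416) (l 16454144))))) (b (b (a (l 16463824) (l 16415592)) (a (b (l 16432536) (l 16439416)) (b (l 16437600) (l 16441024)))) (a (b (l 16441504) (l 16448816)) (b (l 16439160) (l 16441968))))))), by decide +kernel⟩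

def k1_pm_012 : ∃ t, chk3 f_pm_012 t 4 3 1 = true :=
  ⟨(a (l 3) (b (a (a (a (l 3) (b (b (b (l 16467448) (a (l 16473992) (l 16471888))) (b (a (l 3) (l 16477616)) (l 16488248))) (b (b (l 16493928) (l 3)) (l 3)))) (b (b (a (a (b (l 16465376) (l 16471608)) (l 16467512)) (l 16465432)) (a (a (b (l 16476728) (l 16481168)) (l 16477896)) (l 16475040))) (b (a (b (l 16528272) (l 16489872)) (a (l 16483864) (l 16481520))) (a (b (l 16515768) (l 16520840)) (a (l 16490680) (l 16487584)))))) (b (a (b (l 16458648) (a (l 16470440) (l 16464984))) (b (l 16448264) (a (l 16458752) (l 16452920)))) (a (b (a (l 16477296) (l 16471216)) (b (l 16477920) (l 16480048))) (b (a (l 16464720) (l 16457736)) (a (l 16467920) (l 16460376)))))) (a (a (l 3) (b (b (a (c (l 16550032) (l 16549928)) (b (l 16558136) (l 16499008))) (a (l 3) (c (l 16549672) (l 16538952)))) (b (a (l 3) (b (l 16539312) (l 3))) (l 3)))) (b (a (a (b (a (l 16489896) (l 16485688)) (a (l 16498232) (l 16513424))) (b (l 16478872) (l 16504840))) (b (a (l 16469928)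 (l 16461080)) (a (l 16472632) (b (l 16461624) (l 16462272))))) (a (b (a (b (a (l 16506368) (l 16499808)) (a (l 16512976) (l 16505544))) (a (a (l 16518352) (l 16514800)) (l 16488576))) (a (a (b (l 16520136) (l 3)) (b (l 16511864) (a (l 280413881223) (l 16516368)))) (a (b (l 16503984) (l 16509952)) (b (l 16496056) (b (l 16500152) (l 16502936)))))) (b (a (b (l 16476448) (l 16480080)) (b (l 16463456) (l 16465712))) (a (b (l 16484312) (b (l 16487760) (l 16490144))) (b (l 16468712) (b (l 16471312) (l 16473168)))))))))), by decide +kernel⟩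

def k2_pm_012 : ∃ t, chk3 f_pm_012 t 5 2 1 = true :=
  ⟨(b (a (a (a (b (l 2) (b (l 2) (l 16405208))) (l 2)) (l 2)) (l 2)) (a (a (a (b (b (l 16435592) (b (l 16449352) (l 16449040))) (b (l 16443352) (l 16440416))) (a (b (b (l 16452888) (l 16482856)) (b (l 16453512) (l 16444336))) (b (b (l 16599520) (a (l 16469544) (l 16584936))) (a (l 16455520) (a (l 16462600) (b (l 16472832) (l 16466512))))))) (b (b (l 16480152) (b (l 16483488) (l 16480560))) (b (l 16472784) (l 16462760)))) (b (b (l 2) (a (l 16493296) (l 2))) (a (b (l 16478808) (l 16464600)) (b (l 16494224) (l 16474160)))))), by decide +kernel⟩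

def k3_pm_012 : ∃ t, chk3 f_pm_012 t 5 6 1 = true :=
  ⟨(a (a (a (b (b (l 16442080) (l 16446072)) (b (l 16470360) (a (l 16453384) (l 16447232)))) (a (b (b (l 16441304) (l 16441312)) (b (l 16442168) (l 16440984))) (a (b (b (l 16445192) (l 16442704)) (b (l 16441160) (l 16438080))) (b (a (b (l 16452816) (l 16448488)) (b (l 16461280) (l 16539952))) (a (b (l 16445312) (l 16440472)) (b (l 16451464) (l 16445704))))))) (b (b (l 16456096) (a (l 16453888) (l 16447088))) (b (l 16442264) (l 16434800)))) (b (b (a (l 16449432) (l 16454680)) (a (l 16438000) (l 16433928))) (b (a (l 16468992) (l 16417104)) (a (l 16414640) (l 16401144))))), by decide +kernel⟩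

def k4_pm_012 : ∃ t, chk3 f_pm_012 t 5 7 1 = true :=
  ⟨(a (a (a (b (b (a (l 16452696) (l 16444968)) (a (b (l 16451896) (l 16451456)) (l 16441968))) (b (a (b (l 16451608) (l 16452488)) (b (l 16440192) (l 16439784))) (a (b (a (l 16457576) (l 16450728)) (a (l 16460136) (l 16452568))) (b (a (l 16443736) (l 16436840)) (a (b (l 16444744) (l 16445568)) (l 16437680)))))) (a (b (b (l 16478912) (a (l 16434848) (l 16429152))) (b (b (l 16449232) (a (l 16430336) (l 16423104))) (b (a (l 16429736) (l 16421912)) (a (l 16429984) (l 16421648))))) (b (a (b (l 16432280) (l 16425144)) (a (b (l 16433496) (l 16424824)) (b (b (l 16439808) (l 16435024)) (b (l 16450920) (c (l 16453640) (l 16437536)))))) (b (a (b (l 16420064) (l 16417168)) (a (b (l 16418504) (l 16414752)) (a (a (a (l 16417224) (b (l 16421104) (l 16416568))) (l 16418880)) (l 16417904)))) (a (b (l 16415152) (a (l 16415904) (l 16412472))) (a (b (l 16411824) (c (l 16415216) (l 16425048))) (a (a (a (b (l 16411792) (l 16409416)) (a (b (l 16412288) (l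 16409728)) (b (l 16412968) (l 16410224)))) (b (l 16412784) (l 16409936))) (b (l 16411648) (l 16408672))))))))) (b (b (b (l 16427208) (l 16421688)) (b (l 16415240) (l 16408416))) (b (b (a (l 16410384) (l 16393200)) (a (l 16404432) (l 16385504))) (b (a (l 16399216) (l 16377904)) (a (l 16394792) (l 16371056)))))) (b (b (a (l 16443576) (l 16383448)) (a (b (l 16389600) (l 16381024)) (b (l 16369880) (l 16359504)))) (b (a (b (l 16371400) (l 16382304)) (b (l 16348112) (l 16336384))) (a (b (a (l 16359480) (l 16343392)) (a (l 16350224) (l 16332360))) (b (a (l 16329616) (l 16317888)) (a (l 16316912) (l 16303840))))))), by decide +kernel⟩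

def k5_pm_012 : ∃ t, chk3 f_pm_012 t 3 1 1 = true :=
  ⟨(b (a (b (l 2) (b (l 2) (a (a (b (l 2) (l 16494296)) (l 2)) (l 2)))) (l 2)) (a (b (b (a (a (b (l 16468744) (l 16443560)) (b (l 16497072) (l 16465672))) (a (b (l 2) (l 16499576)) (l 2))) (a (b (a (l 16416784) (l 16434392)) (a (l 16394016) (l 16401104))) (a (b (l 16462000) (l 16424280)) (b (l 16499960) (l 16456016))))) (b (a (b (a (l 16414528) (l 16371840)) (a (b (l 16355744) (l 16343672)) (b (l 16351960) (l 16337632)))) (a (b (l 16384160) (l 16411008)) (b (l 16411776) (l 16364752)))) (a (b (a (b (l 16331240) (l 16317776)) (b (l 16322680) (l 16307312))) (a (b (a (l 16307952) (l 16299552)) (a (l 16292872) (l 16284024))) (b (a (l 16293704) (l 16289512)) (a (l 16277312) (l 16272424))))) (b (a (a (b (l 16322960) (l 16305704)) (l 16316008)) (c (l 16356632) (l 16287656))) (a (b (l 16308232) (a (l 16269168) (l 16268352))) (b (b (l 16297256) (l 16287392)) (a (l 16269832) (l 16273704)))))))) (b (a (b (l 2) (a (b (l 2) (l 16492016)) (l 2)))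 (l 2)) (a (b (a (b (l 16440736) (l 16452112)) (b (l 16470176) (l 16451992))) (b (a (b (l 16348336) (l 16322088)) (b (l 16365728) (l 16334432))) (b (a (l 16297192) (l 16302920)) (a (a (l 16276176) (l 16272048)) (l 16272792))))) (b (a (b (l 2) (l 16449104)) (l 2)) (a (b (b (l 16398768) (l 16363688)) (a (l 16303032) (l 16318936))) (b (a (l 16416400) (l 2)) (a (b (l 16360320) (l 16320552)) (l 16377728))))))))), by decide +kernel⟩

theorem s6_pm_012 : ∃ t, chk3 f_pm_012 t 5 3 1 = true := ex3_b k3_pm_012 k4_pm_012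

theorem s7_pm_012 : ∃ t, chk3 f_pm_012 t 5 1 1 = true := ex3_b k2_pm_012 s6_pm_012

theorem s8_pm_012 : ∃ t, chk3 f_pm_012 t 4 1 1 = true := ex3_b k0_pm_012 k1_pm_012

theorem s9_pm_012 : ∃ t, chk3 f_pm_012 t 2 1 1 = true := ex3_a s8_pm_012 s7_pm_012

theorem s10_pm_012 : ∃ t, chk3 f_pm_012 t 1 1 1 = true := ex3_a s9_pm_012 k5_pm_012

theorem c_pm_012 : CertB 0 536870912 536870912 536870912 536870912 50465866 3 eng mog cd0q0 cd3q1 pd2 true true false .pnp 0 1 2
    ndB0q0 ndB3q1 pcB2 Cut.none Ext.none :=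
  certB2 (fam := true) (s1 := true) (s2 := false) (a := 0) (b := 1) (c := 2) (cn := .pnp) (n1 := ndB0q0) (n2 := ndB3q1) (pc := pcB2) (cut := Cut.none) (xt := Ext.none) (P1 := 0) (W1 := 536870912) (P2 := 536870912) (W2 := 536870912) (P3 := 536870912) (W3 := 50465866) (N0 := 3) (En := eng) (mo := mog) (C1 := cd0q0) (C2 := cd3q1) (C3 := pd2)
    rfl (fun _ => rfl) s10_pm_012

noncomputable def cut_pm_022_a : Cut := Cut.of [[⟨0, 0, 0, 67108864⟩, ⟨1, 1, 0, 67108864⟩, ⟨2, 1, 0, 67108864⟩], [⟨0, 0, 1, 20971520⟩, ⟨1, 1, 0, 33554432⟩, ⟨2, 1, 1, 20971520⟩]]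

noncomputable def xt_pm_022_a : Ext := extD2 3 ⟨7, 3, 3, 10, 1741, 1000, 23, 25, 19, 50, 3, 16⟩ eng cd0q0 cd3q2a pd2 true true false .pp 0 2 2 rfl ndB0q0 ndB3q2a pcB2

noncomputable def f_pm_022_a : ℕ → ℕ → ℕ → ℕ → Bool := onCell 1073741824 536870912 0 536870912 536870912 50465866
    (rowB 3 eng mog cd0q0 cd3q2a pd2 2 true true false .pp 0 2 2 (qsf 0 536870912 0 536870912 2) ndB0q0 ndB3q2a pcB2 cut_pm_022_a xt_pm_022_a)

def k0_pm_022_a : ∃ t, chk3 f_pm_022_a t 8 1 1 = true :=
  ⟨(b (l 1) (b (l 1) (b (a (l 1) (b (a (l 1) (a (l 1) (b (l 1) (a (b (l 1) (l 6)) (b (l 16650880) (l 16655464)))))) (a (l 6) (a (l 6) (a (l 6) (b (l 16662400) (l 16671648))))))) (a (l 6) (a (l 6) (a (l 6) (a (l 6) (a (l 6) (b (b (l 16679984) (l 16689240)) (b (l 16719704) (b (l 16706008) (c (l 16711744) (l 16710128))))))))))))), by decide +kernel⟩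

def k1_pm_022_a : ∃ t, chk3 f_pm_022_a t 18 1 1 = true :=
  ⟨(b (l 1) (b (b (l 1) (a (b (l 1) (a (l 1) (b (c (l 16619280) (l 16613440)) (a (l 16626424) (l 16623536))))) (b (a (b (l 1) (l 16603144)) (b (l 16590424) (l 31708575095))) (a (b (a (l 16612464) (l 16609712)) (a (l 16620632) (l 16617728))) (b (l 16605576) (l 16613360)))))) (b (b (a (a (b (a (l 16641048) (l 16638032)) (a (l 16650024) (l 16646840))) (b (a (l 16635000) (l 16631952)) (l 16642040))) (a (b (l 16627360) (l 16635592)) (b (l 16621224) (l 16629144)))) (a (b (a (a (l 16659072) (l 16655720)) (l 16650680)) (a (l 16666400) (c (l 16659832) (l 16658512)))) (b (a (l 16643928) (l 16637152)) (c (l 16648936) (l 16648136))))) (b (b (a (c (l 16682304) (a (l 16674856) (l 16667632))) (l 16680456)) (a (c (l 16701312) (l 16691048)) (l 16696544))) (a (a (c (b (l 16694280) (b (l 16701864) (b (l 16705656) (l 16708184)))) (b (l 16693744) (b (l 16700616) (b (l 16704032) (l 16706304))))) (c (b (l 16686688) (b (l 16694240) (l 16704520))) (b (l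 16685928) (b (l 16692760) (l 16697296))))) (a (b (a (l 16711896) (l 16708088)) (b (c (l 16686680) (l 16684960)) (c (l 16702192) (l 16689472)))) (b (a (l 16704272) (l 16710968)) (b (l 16678064) (c (l 16684168) (l 16681696)))))))))), by decide +kernel⟩

def k2_pm_022_a : ∃ t, chk3 f_pm_022_a t 19 1 1 = true :=
  ⟨(b (b (l 1) (b (l 1) (a (l 1) (b (l 1) (a (l 1) (b (l 16536000) (l 16541232))))))) (b (b (a (b (a (l 1) (b (l 1) (l 16560696))) (a (b (l 1) (l 16578392)) (b (l 16567096) (l 16573688)))) (b (a (b (l 16550608) (l 16556552)) (b (l 16546696) (l 16552376))) (a (b (l 16562672) (l 16568984)) (l 16561312)))) (a (b (a (b (l 16585464) (l 16592680)) (b (l 16580480) (l 16587408))) (a (b (l 16600016) (l 16607504)) (l 16598104))) (b (a (l 16578880) (l 16573752)) (a (l 16592400) (l 16586696))))) (b (b (a (a (l 16618936) (l 16612608)) (a (l 16606288) (l 16599984))) (a (b (a (l 16630352) (l 16623552)) (l 16634488)) (c (l 16616640) (l 16616728)))) (b (a (a (l 16691536) (l 16683872)) (a (l 16676216)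 (l 16668872))) (a (b (b (l 16696528) (a (l 16707688) (l 16658248))) (b (a (l 16670504) (l 16662992)) (a (c (l 16676720) (l 16673984)) (c (l 16669336) (l 16666336))))) (a (b (l 16690392) (b (l 16655544) (c (l 16662016) (l 16658744)))) (b (l 16683032) (b (l 16648176) (c (l 16654800) (l 16651232)))))))))), by decide +kernel⟩

def k3_pm_022_a : ∃ t, chk3 f_pm_022_a t 5 2 1 = true :=
  ⟨(a (a (a (b (l 1) (b (a (l 1) (b (l 16507632) (l 16514520))) (b (a (l 25265977575) (l 16522560)) (a (l 81100574375) (l 16531608))))) (b (a (b (l 1) (b (l 1) (l 16500160))) (a (b (l 1) (b (l 16495184) (l 16498872))) (b (a (b (l 16492152) (l 16492736)) (b (c (l 16519016) (a (a (a (l 16485496) (a (l 16485576) (l 16485696))) (l 16485648)) (l 16485536))) (c (l 16498408) (a (a (a (l 16486272) (l 16486488)) (l 16486416)) (l 16486280))))) (a (b (l 16494880) (l 16498464)) (b (c (l 16500280) (l 16488720)) (l 16498496)))))) (a (b (b (l 49425132727) (l 16511944)) (b (l 16519568) (l 16528160))) (a (b (b (l 16503896) (l 16510136))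 (l 16521784)) (b (a (l 16506592) (b (l 16503336) (l 16509368))) (a (l 16520904) (b (l 16516456) (l 16524472)))))))) (b (b (a (a (b (c (l 16497064) (l 16485080)) (l 16491960)) (l 16492168)) (b (l 16493248) (l 16492808))) (a (a (b (l 16493864) (l 16497192)) (l 16495232)) (l 16495136))) (b (a (a (l 16504864) (l 16503584)) (l 16502184)) (a (b (l 16513408) (l 16520880)) (l 16513320))))) (b (a (b (a (l 16494752) (l 16496632)) (a (l 16495288) (l 16495744))) (b (l 16499880) (l 16496856))) (a (b (l 16541904) (a (l 16509744) (l 16506432))) (b (l 16497872) (l 16501808))))), by decide +kernel⟩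

def k4_pm_022_a : ∃ t, chk3 f_pm_022_a t 5 6 1 = true :=
  ⟨(a (a (a (b (b (a (l 16545552) (l 16541536)) (a (l 16556744) (l 16552216))) (b (l 16566160) (l 16578248))) (a (b (b (l 16537624) (l 16547792)) (b (l 16558632) (l 16569880))) (a (b (l 16539992) (l 16560792)) (b (a (l 16538784) (b (l 16533312) (l 16542824))) (a (l 16559216) (b (l 16552992) (l 16563512))))))) (a (b (b (l 16529144) (l 16538040)) (b (l 16547560) (l 16578360))) (b (l 16527584) (l 16585888)))) (b (a (b (l 16515656) (l 16521456)) (l 16507536)) (a (b (l 16527648) (l 16533752)) (b (l 16511720) (l 16514096))))), by decide +kernel⟩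

def k5_pm_022_a : ∃ t, chk3 f_pm_022_a t 5 14 1 = true :=
  ⟨(a (a (a (b (a (l 16593704) (l 16587472)) (l 16624064)) (a (b (l 16581368) (l 16592800)) (a (b (l 16576968) (l 16587880)) (a (b (l 16575080) (l 16585744)) (b (c (l 16573880) (l 16573816)) (c (l 16583616) (l 16648096))))))) (a (b (b (l 16564784) (l 16590592)) (a (l 16580152) (l 16573600))) (b (l 16556184) (l 16563912)))) (a (b (a (l 16545032) (l 16533552)) (l 16564784)) (b (l 16494088) (l 16534976)))), by decide +kernel⟩

def k6_pm_022_a : ∃ t, chk3 f_pm_022_a t 5 30 1 = true :=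
  ⟨(a (a (a (a (l 16661576) (l 16654344)) (a (b (l 16600808) (l 16609808)) (a (l 16641528) (a (l 16638416) (b (l 16612920) (l 16635328)))))) (a (c (b (l 16582624) (l 16613656)) (l 16636824)) (l 16614424))) (a (a (l 16601416) (l 16610816)) (a (l 16600544) (l 16591600)))), by decide +kernel⟩

def k7_pm_022_a : ∃ t, chk3 f_pm_022_a t 5 31 1 = true :=
  ⟨(b (a (a (a (a (l 16675736) (l 16668520)) (b (a (l 16616936) (a (l 16611400) (a (l 16608304) (c (l 16649488) (l 16625472))))) (a (l 16621704) (a (l 16616176) (a (l 16613072) (a (a (a (l 16611712) (c (l 16613048) (c (l 16610184) (l 16608864)))) (l 16610744)) (l 16610168))))))) (a (a (c (a (l 16607968) (l 16604736)) (l 16644576)) (l 16639280)) (l 16639624))) (a (a (l 16616744) (l 16563632)) (a (l 16553688) (l 16544472)))) (a (a (a (b (a (l 16640888) (l 16633680)) (a (c (l 16647672) (l 16643800)) (c (l 16640656) (l 16636432)))) (a (a (b (l 16628312) (l 16633056)) (b (l 16624696) (l 16639928))) (a (b (l 16620936) (c (a (l 16629296) (l 16627432))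 (l 16623384))) (b (a (c (l 16620216) (l 16615856)) (a (a (a (l 16616472) (a (l 16616104) (l 16618352))) (l 16615504)) (l 16614928))) (a (a (l 16623224) (c (l 16624776) (l 16619720))) (a (a (a (l 16628424) (a (c (l 16623536) (l 16618568)) (a (a (b (l 16619440) (l 16621800)) (b (l 16619288) (c (l 16624400) (l 16619320)))) (l 16625704)))) (b (l 16619056) (l 16621416))) (b (l 16618480) (l 16620848)))))))) (b (a (a (c (l 16634912) (l 16619768)) (l 16604568)) (c (l 16597216) (l 16592264))) (a (c (a (a (b (l 16619344) (l 16621888)) (l 16617464)) (l 16633296)) (a (a (l 16615376) (l 16612016)) (l 16606792))) (c (b (l 16601200) (l 16624832)) (l 16596776))))) (a (a (b (l 16582408) (a (l 16611368) (l 16605664))) (b (l 16571496) (a (l 16579272) (l 16595008)))) (a (b (l 16561448) (a (l 16589952) (a (l 16565320) (l 16562920)))) (b (l 16573080) (a (a (l 16560568) (l 16558248)) (c (l 16558344) (l 16551160)))))))), by decide +kernel⟩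

def k8_pm_022_a : ∃ t, chk3 f_pm_022_a t 3 2 1 = true :=
  ⟨(a (a (b (a (b (l 16504672) (l 16498824)) (l 16506112)) (a (b (l 16496256) (l 16495712)) (b (l 16494976) (l 16489384)))) (b (a (l 16508248) (l 16506208)) (a (b (l 16491616) (l 16480624)) (b (l 16483584) (l 16466768))))) (a (b (a (l 16499688) (l 16487648)) (a (l 16585544) (l 16436096))) (a (b (l 16474440) (l 16409992)) (b (l 16473776) (b (l 16419512) (l 16371816)))))), by decide +kernel⟩

def k9_pm_022_a : ∃ t, chk3 f_pm_022_a t 3 6 1 = true :=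
  ⟨(a (a (b (a (l 16495664) (l 16482720)) (a (b (l 16494168) (l 16491928)) (b (l 16474896) (l 16467256)))) (b (a (l 16508392) (l 16445328)) (a (l 16467096) (l 16416280)))) (a (b (a (l 16418608) (l 16381144)) (a (l 16423872) (l 16449624))) (a (b (l 16380768) (l 16412912)) (b (l 16400360) (a (l 16422552) (l 16415368)))))), by decide +kernel⟩

def k10_pm_022_a : ∃ t, chk3 f_pm_022_a t 3 14 1 = true :=
  ⟨(a (a (a (a (l 16555296) (l 16543232)) (a (l 16556864) (l 16570760))) (a (a (l 16563904) (l 16536936)) (a (l 16550984) (l 16523024)))) (b (a (a (l 16426440) (l 16428400)) (a (l 16438600) (l 16517776))) (a (a (l 16502088) (l 16444224)) (a (l 16459856) (a (l 16481640) (l 16486704)))))), by decide +kernel⟩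

def k11_pm_022_a : ∃ t, chk3 f_pm_022_a t 3 30 1 = true :=
  ⟨(a (a (a (a (l 16583320) (b (l 16507152) (l 16517480))) (b (l 16515800) (a (l 16508872) (l 16500024)))) (a (a (a (l 16488864) (l 16484520)) (l 16477920)) (b (l 16461432) (l 16467856)))) (a (a (b (l 16492256) (a (l 16457192) (l 16458376))) (b (l 16456568) (a (l 16462576) (l 16470720)))) (a (b (l 16477664) (a (l 16504272) (l 16521216))) (a (b (l 16504112) (a (l 16515648) (l 16525832))) (b (l 16512952) (a (l 16530200) (l 16534992))))))), by decide +kernel⟩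

def k12_pm_022_a : ∃ t, chk3 f_pm_022_a t 6 31 1 = true :=
  ⟨(b (a (a (a (l 16535880) (l 16548392)) (a (l 16518280) (l 16508728))) (a (a (a (l 16501024) (l 16496024)) (l 16488936)) (a (l 16479304) (l 16470384)))) (c (a (a (a (b (l 16546376) (b (l 16550320) (a (l 16555160) (l 16550696)))) (b (l 16537456) (a (a (l 16546104) (l 16554256)) (b (l 16538752) (c (l 16542696) (l 16539560)))))) (b (a (l 16527512) (l 16516904)) (b (a (l 16531008) (l 16519944)) (c (a (a (l 16537376) (l 16531872)) (a (l 16526136) (l 16520088))) (a (a (l 16534448) (l 16529192)) (a (l 16523736) (l 16518016))))))) (a (a (b (l 16505520) (a (b (l 16511184) (a (l 16514584) (a (l 16512312) (l 16510808)))) (b (l 16505560) (a (l 16508760) (l 16506144))))) (b (l 16495040) (b (l 16497840) (c (l 141361563715993615) (a (l 16501528) (l 16496536)))))) (b (a (l 16485208) (b (l 16474832) (l 16476656))) (a (a (l 141272159658491919) (l 141118090581721103)) (c (a (l 141296555053318159) (l 141228385322975247)) (l 141134789399445519))))))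 (a (a (a (b (l 16540064) (a (l 16546672) (b (l 16541200) (l 16543344)))) (b (l 16531368) (a (a (l 16539040) (l 16536792)) (a (l 16534392) (l 16531992))))) (b (a (l 16522016) (l 16512256)) (a (a (a (l 16529568) (l 16527128)) (a (l 16524664) (l 16522168))) (a (a (l 16519632) (l 16517056)) (a (l 16514424) (l 16511736)))))) (a (b (a (l 16501928) (l 16492128)) (a (a (a (l 16509024) (l 16506304)) (b (l 16501704) (l 16503264))) (b (l 16494440) (a (l 16498384) (l 16493608))))) (a (b (l 16482896) (b (l 16485160) (a (a (l 16490104) (l 16487808)) (c (l 141254292582498319) (l 16483224))))) (b (l 16474072) (c (l 141166469075894287) (a (b (l 16477496) (a (l 16479952) (l 141195743572754447))) (l 141154237001056271))))))))), by decide +kernel⟩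

def k13_pm_022_a : ∃ t, chk3 f_pm_022_a t 7 62 1 = true :=
  ⟨(a (a (a (a (l 16464312) (l 16474480)) (c (a (l 16466296) (l 16479664)) (b (l 16462088) (l 16465816)))) (a (c (c (l 141276557675216911) (l 141336412333359119)) (b (l 16466120) (l 141042705283481615))) (c (c (l 141358196440481807) (l 141039681655750671)) (a (l 141052532176044047) (l 141082631317733391))))) (a (a (c (c (l 141299578763247631) (l 141139874684764175)) (b (l 16486168) (l 141169355324325903))) (c (b (l 16542168) (l 141501751509745679)) (b (l 16502312) (l 141278550607577103)))) (c (a (a (l 141420456398897167) (b (l 141464230720897039) (l 141557551792193551))) (b (l 141502163890716687) (a (l 141592048983965711) (l 141630463186026511)))) (a (a (l 141348575777554447) (l 141593698171912207)) (b (l 141402864192372751) (a (l 141471171366322191) (l 141502576179855375))))))), by decide +kernel⟩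

def k14_pm_022_a : ∃ t, chk3 f_pm_022_a t 14 63 1 = true :=
  ⟨(a (c (c (b (a (l 141126611763167247) (c (l 141104965139529743) (l 141142829569736719))) (a (a (l 141166125469286415) (l 141151282065031183)) (a (l 141205707897798671) (l 141183855113486351)))) (b (a (l 141013568223494159) (l 141008208111992847)) (a (a (l 141050676747960335) (l 141036932854071311)) (a (l 141042224259219471) (l 141057617429446671))))) (a (a (b (l 16468344) (l 141104690253086735)) (b (l 16467816) (c (l 141078989170655247) (l 141097955741548559)))) (b (a (l 141059541551595535) (l 141063046248873999)) (a (c (l 141080638441881615) (l 141096581354258447)) (c (l 141089846857449487) (l 141101048124293135)))))) (c (a (a (b (l 141370703367143439) (c (l 141036795444871183) (l 141081944133845007))) (b (l 140953576155103247) (c (l 141080501046214671) (l 141116303884271631)))) (b (c (l 141276282845806607) (l 141125099985403919)) (c (a (l 141134377132572687) (b (l 141180625355440143) (l 141216771808411663))) (a (l 141160009485860879)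 (l 141303220892123151))))) (a (b (c (l 141075140890984463) (l 141083249779703823)) (a (c (l 141107164173352975) (l 141112936599765007)) (c (l 141133827340419087) (l 141133483731517455)))) (b (c (l 141136988442394639) (l 141132246785146895)) (a (c (l 141169011724779535) (l 141161796166205455)) (c (l 141302877279944719) (l 141287965137813519))))))), by decide +kernel⟩

def k15_pm_022_a : ∃ t, chk3 f_pm_022_a t 30 63 1 = true :=
  ⟨(c (a (a (b (l 141204127417253903) (b (l 141257178865696783) (c (l 141291950937751567) (l 141291607323541519)))) (b (l 141276282889125903) (a (c (l 141424716980109327) (l 141326929146167311)) (b (l 141353661039230991) (c (l 141400527741829135) (l 141383004254879759)))))) (b (c (l 141547862308716559) (l 141390907001765903)) (c (b (a (l 141429389932249103) (l 141534255882797071)) (a (b (l 141462718886182927) (a (l 141459832666325007) (l 141511303568719887))) (b (l 141569990019039247) (a (c (l 141575281422876687) (l 141555833798377487)) (c (l 141725227337351183) (l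 141611152992501775)))))) (b (a (l 141406368885719055) (l 141495429353422863)) (a (a (l 141423754916577295) (l 141467048199553039)) (b (l 141526490564542479) (a (l 141523260747366415) (c (l 141585589333622799) (l 141558513846190095))))))))) (b (a (c (l 141232439826595855) (l 141211617807384591)) (c (l 141359296019972111) (l 141318201749995535))) (b (a (a (l 141239930243252239) (l 141293050415808527)) (a (l 141534049639858191) (c (l 141449043681296399) (l 141395098866368527)))) (a (a (c (l 141278688044318735) (l 141253193100083215)) (c (a (l 141323012120739855) (l 141355104126337039)) (l 141393449568387087))) (a (c (a (l 141389395155779599) (l 141425885209051151)) (a (l 141345826984574991) (l 141376475880898575))) (c (a (l 141464711725137935) (b (l 141496597572321295) (l 141515014396854287))) (a (l 141409117642588175) (l 141533843503677455)))))))), by decide +kernel⟩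

def k16_pm_022_a : ∃ t, chk3 f_pm_022_a t 124 63 1 = true :=
  ⟨(b (c (l 141734160841703439) (l 141448562642157583)) (c (b (c (l 141651216464183311) (l 141595210062200847)) (c (b (a (l 141658500729274383) (l 141721653945532431)) (b (a (l 141677604748296207) (l 141741307720531983)) (a (c (c (l 141711964500492303) (l 141697670842138639)) (l 141765703113261071)) (a (c (l 141799650562555919) (l 141721722660798479)) (c (a (l 141780065518518287) (l 141797314111782927)) (l 141753196189777935)))))) (c (b (l 141644688101097487) (a (l 141639465418604559) (a (l 141681865347645455) (l 141710933694447631)))) (a (l 141687637754642447) (a (l 141636441755631631) (l 141708116177502223)))))) (b (c (l 141533637382422543) (l 141466567144341519)) (b (c (l 141562705728602127) (l 141491649760067599)) (c (a (c (l 141575624995700751) (l 141541814998564879)) (c (l 141624003521495055) (l 141586345232793615))) (a (l 141488763540537359) (c (l 141547656151924751) (l 141508004998332431)))))))), by decide +kernel⟩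

def k17_pm_022_a : ∃ t, chk3 f_pm_022_a t 125 63 1 = true :=
  ⟨(a (b (c (l 141639327987482639) (l 141510341470388239)) (a (c (b (l 141697533397729295) (b (l 141734710643638287) (b (c (l 141790854476660751) (l 141715263020269583)) (a (c (c (b (l 141811058010931215) (l 141817998679703567)) (l 141777179293712399)) (c (l 141739108687593487) (l 141700213447737359))) (c (b (l 141809340020555791) (c (c (l 141845005442777103) (l 141825832700624911)) (l 141796764349775887))) (c (l 141754226976636943) (l 141714300944400399))))))) (b (l 141554047068717071) (b (l 141581741025181711) (c (a (l 141635342236319759) (c (l 141668258877358095) (l 141627164614066191))) (c (l 141579748157259791) (l 141537485662928911)))))) (c (b (l 141727426378416143) (b (c (l 141803705022939151) (l 141726326859644943)) (c (a (b (l 141816211970359311) (c (a (l 141845211599814671) (l 141876616403025935)) (l 141810233370853391))) (b (l 141832223612698639) (b (l 141842668975554575) (c (a (l 141911663339307023) (c (l 141882801165008911)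 (l 141862803788890127))) (a (l 141826451171475471) (l 141832361048113167)))))) (b (l 141812157490462735) (a (c (l 141770169899433999) (l 141729281794277391)) (c (a (l 141782264530485263) (l 141787968248627215)) (l 141743506729680911))))))) (b (l 141575693710442511) (a (b (l 141598646021521423) (b (l 141613420712755215) (c (l 141666678326231055) (l 141580504069390351)))) (b (l 141609847299424271) (c (a (l 141671626129965071) (l 141676573933649935)) (l 141587101140992015)))))))) (b (c (l 141671076396154895) (l 141532469150449679)) (b (c (c (l 141785425639800847) (l 141710315219501071)) (c (l 141631906264317967) (l 141550130054758415))) (c (b (c (l 141827344530276367) (l 141747904782106639)) (c (b (l 141893521391255567) (a (b (l 141853114339360783) (a (c (c (l 141887405371490319) (l 141867270556385295)) (l 141836759096098831)) (c (c (l 141910426398261263) (l 141873317872369679)) (l 141887748949819407)))) (b (l 141865277690789903) (c (c (c (l 14) (a (l 141894758357532687) (l 141901149270966287)))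 (a (l 141879571346800655) (l 141885824821264399))) (b (l 141850090679173135) (a (l 141850502995836943) (l 141879227739127823))))))) (b (l 141767077520556047) (c (a (a (l 141792228857593871) (l 141797932576063503)) (a (l 141803773733519375) (l 141809752329945103))) (a (l 141753127459454991) (l 141764397457375247)))))) (b (l 141622904004296719) (a (c (c (l 141704542771216399) (l 141661386923065359)) (l 141595210041835535)) (c (c (l 141715331732635663) (l 141671832286969871)) (l 141605036930252815)))))))), by decide +kernel⟩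

def k18_pm_022_a : ∃ t, chk3 f_pm_022_a t 63 126 1 = true :=
  ⟨(a (c (a (l 141688531150274575) (l 141710040354111503)) (a (l 141545319698677775) (l 141563599086092303))) (c (l 141745843213434895) (l 141595416214208527))), by decide +kernel⟩

def k19_pm_022_a : ∃ t, chk3 f_pm_022_a t 63 254 1 = true :=
  ⟨(a (c (c (l 141820335145910287) (l 141742956982108175)) (c (l 141662280283389967) (l 141578098891358223))) (c (c (l 141873455318630415) (l 141793259655184399)) (c (l 141709421859471375) (l 141621941931491343)))), by decide +kernel⟩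

def k20_pm_022_a : ∃ t, chk3 f_pm_022_a t 126 255 1 = true :=
  ⟨(b (a (c (c (l 141851602513674255) (l 141770788375429135)) (l 141643451134607375)) (c (c (l 141877647203827727) (l 141795321236553743)) (l 141665578813227023))) (c (c (c (a (b (l 141893727566413839) (c (l 14) (b (l 141894689637367823) (a (b (l 141893658844348431) (a (l 141894071160995855) (l 141900599513399311))) (b (l 141906921707651087) (a (l 141918535298990095) (l 14))))))) (l 14)) (a (b (l 141852976899686415) (a (a (c (l 141868026469515279) (l 141847273179021327)) (c (l 141896957371318287) (l 141853595372929039))) (b (l 141870156773425167) (a (c (l 141884587868438543) (l 141863559699939343)) (c (l 141891184940335119) (l 141870088052326415)))))) (b (l 141879296467730447) (b (l 141935371563270159) (a (a (c (l 141920528159064079) (l 141876753843683343)) (b (l 141892353170997263) (c (l 141906715546828815) (l 141885343780847631)))) (c (l 14) (a (l 141890429023879183) (l 141897438412685327)))))))) (a (b (l 141790510869807119)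 (b (c (l 141821709523091471) (l 141778897271963663)) (c (a (c (l 141832842082156559) (l 141811539035815951)) (c (l 141868026458341391) (l 141824045984595983))) (a (l 141779309588365327) (l 141836552916402191))))) (b (l 141815662206337039) (c (b (l 141847548054585359) (a (a (l 141844524396068879) (l 141896201444671503)) (c (a (l 141868782379941903) (l 141875654329778191)) (l 141872836821368847)))) (a (a (l 141797657694797839) (l 141804048608165903)) (a (l 141810508241010703) (l 141817105312841743))))))) (c (b (a (l 141704405331410959) (l 141727907399958543)) (a (a (c (l 141732580326359055) (l 141688324966236175)) (c (l 141744331360632847) (l 141699594964058127))) (a (c (l 141756494711881743) (l 141711345998282767)) (c (l 141769001660579855) (l 141723440629989391))))) (a (a (l 141615207416119311) (l 141715812733468687)) (b (l 141636922778157071) (c (l 141716156346105871) (l 141624140949307407))))))), by decide +kernel⟩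

def k21_pm_022_a : ∃ t, chk3 f_pm_022_a t 127 255 1 = true :=
  ⟨(a (c (b (c (l 141905547320229903) (l 141821640804433935)) (c (a (b (l 141921352802828303) (a (c (l 14) (c (l 14) (a (l 141899087680946191) (l 141902661094850575)))) (l 14))) (l 14)) (b (l 141842531530145807) (a (a (c (c (l 141879090304974863) (l 141857168783081487)) (l 141823839823642639)) (c (b (l 141871599878963215) (c (l 141889810546360335) (l 141867682865987599))) (l 141875723030691855))) (b (l 141860123720777743) (a (c (c (l 141897094813122575) (l 141874829693763599)) (l 141841019697872911)) (c (c (l 141904447799394319) (l 141882045241049103)) (l 141848097806139407)))))))) (b (l 141689355759648783) (a (b (l 141700831914459151) (c (c (l 141827069622452239) (l 141735947578654735)) (l 141665303930077199))) (b (l 141713407582584847) (c (b (l 141769070378582031) (c (l 141843699740704783) (l 141751959221420047))) (l 141767627234705423)))))) (c (c (l 14) (b (l 141849747079086095) (b (l 141871256280219663) (c (c (l 14) (b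 (l 141893383958675471) (a (a (l 141889398227288079) (l 141896888652513295)) (a (l 141904447797248015) (l 14))))) (a (b (l 141851946098507791) (a (l 141900324610637839) (l 141896338883198991))) (a (a (l 141909670462554127) (l 141913381315411983)) (c (l 141885549933559823) (l 141862391460839439)))))))) (b (l 141714781973856271) (c (b (l 141779928059904015) (c (a (a (l 141805766591938575) (l 141812844700188687)) (a (l 141819991527915535) (l 141827275794628623))) (a (l 141762267146289167) (l 141776148484767759)))) (a (a (l 141681315573481487) (l 141777797720768527)) (a (l 141784257353547791) (l 141768383156404239))))))), by decide +kernel⟩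

theorem s22_pm_022_a : ∃ t, chk3 f_pm_022_a t 63 255 1 = true := ex3_a k20_pm_022_a k21_pm_022_a

theorem s23_pm_022_a : ∃ t, chk3 f_pm_022_a t 63 127 1 = true := ex3_b k19_pm_022_a s22_pm_022_a

theorem s24_pm_022_a : ∃ t, chk3 f_pm_022_a t 63 63 1 = true := ex3_b k18_pm_022_a s23_pm_022_a

theorem s25_pm_022_a : ∃ t, chk3 f_pm_022_a t 62 63 1 = true := ex3_a k16_pm_022_a k17_pm_022_a

theorem s26_pm_022_a : ∃ t, chk3 f_pm_022_a t 31 63 1 = true := ex3_a s25_pm_022_a s24_pm_022_a

theorem s27_pm_022_a : ∃ t, chk3 f_pm_022_a t 15 63 1 = true := ex3_a k15_pm_022_a s26_pm_022_a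

theorem s28_pm_022_a : ∃ t, chk3 f_pm_022_a t 7 63 1 = true := ex3_a k14_pm_022_a s27_pm_022_a

theorem s29_pm_022_a : ∃ t, chk3 f_pm_022_a t 7 31 1 = true := ex3_b k13_pm_022_a s28_pm_022_a

theorem s30_pm_022_a : ∃ t, chk3 f_pm_022_a t 3 31 1 = true := ex3_a k12_pm_022_a s29_pm_022_a

theorem s31_pm_022_a : ∃ t, chk3 f_pm_022_a t 3 15 1 = true := ex3_b k11_pm_022_a s30_pm_022_a

theorem s32_pm_022_a : ∃ t, chk3 f_pm_022_a t 3 7 1 = true := ex3_b k10_pm_022_a s31_pm_022_a

theorem s33_pm_022_a : ∃ t, chk3 f_pm_022_a t 3 3 1 = true := ex3_b k9_pm_022_a s32_pm_022_a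

theorem s34_pm_022_a : ∃ t, chk3 f_pm_022_a t 3 1 1 = true := ex3_b k8_pm_022_a s33_pm_022_a

theorem s35_pm_022_a : ∃ t, chk3 f_pm_022_a t 5 15 1 = true := ex3_b k6_pm_022_a k7_pm_022_a

theorem s36_pm_022_a : ∃ t, chk3 f_pm_022_a t 5 7 1 = true := ex3_b k5_pm_022_a s35_pm_022_a

theorem s37_pm_022_a : ∃ t, chk3 f_pm_022_a t 5 3 1 = true := ex3_b k4_pm_022_a s36_pm_022_a

theorem s38_pm_022_a : ∃ t, chk3 f_pm_022_a t 5 1 1 = true := ex3_b k3_pm_022_a s37_pm_022_a

theorem s39_pm_022_a : ∃ t, chk3 f_pm_022_a t 9 1 1 = true := ex3_a k1_pm_022_a k2_pm_022_a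

theorem s40_pm_022_a : ∃ t, chk3 f_pm_022_a t 4 1 1 = true := ex3_a k0_pm_022_a s39_pm_022_a

theorem s41_pm_022_a : ∃ t, chk3 f_pm_022_a t 2 1 1 = true := ex3_a s40_pm_022_a s38_pm_022_a

theorem s42_pm_022_a : ∃ t, chk3 f_pm_022_a t 1 1 1 = true := ex3_a s41_pm_022_a s34_pm_022_a

theorem c_pm_022_a : CertB 0 536870912 0 536870912 536870912 50465866 3 eng mog cd0q0 cd3q2a pd2 true true false .pp 0 2 2
    ndB0q0 ndB3q2a pcB2 cut_pm_022_a xt_pm_022_a :=
  certB2 (fam := true) (s1 := true) (s2 := false) (a := 0) (b := 2) (c := 2) (cn := .pp) (n1 := ndB0q0) (n2 := ndB3q2a) (pc := pcB2) (cut := cut_pm_022_a) (xt := xt_pm_022_a) (P1 := 0) (W1 := 536870912) (P2 := 0) (W2 := 536870912) (P3 := 536870912) (W3 := 50465866) (N0 := 3) (En := eng) (mo := mog) (C1 := cd0q0) (C2 := cd3q2a) (C3 := pd2)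
    rfl (fun _ => rfl) s42_pm_022_a

noncomputable def cut_pm_022_b : Cut := Cut.of [[⟨0, 0, 0, 67108864⟩, ⟨1, 1, 0, 67108864⟩, ⟨2, 1, 0, 67108864⟩], [⟨0, 0, 1, 20971520⟩, ⟨1, 1, 0, 33554432⟩, ⟨2, 1, 1, 20971520⟩]]

noncomputable def f_pm_022_b : ℕ → ℕ → ℕ → ℕ → Bool := onCell 0 536870912 1073741824 536870912 536870912 50465866
    (rowB 3 eng mog cd0q0 cd3q2b pd2 1 true true false .pp 0 2 2 (qsf 0 536870912 1239849684 370763052 2) ndB0q0 ndB3q2b pcB2 cut_pm_022_b Ext.none)

def k0_pm_022_b : ∃ t, chk3 f_pm_022_b t 2 2 1 = true :=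
  ⟨(b (l 1) (a (b (a (b (b (l 1) (b (l 1) (a (b (l 1) (b (l 1) (a (a (a (c (l 16500072) (b (b (b (l 1) (b (l 1) (l 16488568))) (l 16488088)) (l 16486928))) (l 1)) (l 1)) (l 1)))) (l 1)))) (a (a (b (b (c (l 16500352) (b (l 16491424) (l 16485776))) (l 16485248)) (b (l 16476280) (l 16467816))) (b (b (l 1) (l 16505400)) (l 16491952))) (b (l 1) (a (l 16510776) (l 1))))) (l 1)) (a (c (a (b (a (b (l 16465536) (l 16453648)) (l 16477544)) (a (b (l 16443856) (l 16436136)) (l 16457104))) (b (b (l 16509416) (l 16496728)) (l 16481304))) (a (b (a (b (l 16445928) (l 16430120)) (l 16458496)) (a (b (l 16416192) (l 16404128)) (l 16429896))) (b (b (l 16496160) (l 16479608)) (l 16458088)))) (a (b (b (l 1) (l 58552053287)) (b (l 16507312) (l 16495696))) (b (l 1) (l 71973888215))))) (l 1))), by decide +kernel⟩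

def k1_pm_022_b : ∃ t, chk3 f_pm_022_b t 2 3 1 = true :=
  ⟨(b (a (b (a (a (b (a (b (a (l 16407536) (l 16416752)) (l 16427384)) (l 16468592)) (a (b (l 16403688) (l 16403616)) (l 16418696))) (b (a (l 16443472) (l 16459400)) (l 16441248))) (b (a (l 16481560) (l 16507544)) (a (l 16469288) (l 16493920)))) (a (b (a (b (l 16412208) (l 16412952)) (l 16438200)) (a (l 16416192) (l 16439392))) (b (a (l 16462696) (l 16485584)) (l 16470704)))) (a (a (b (b (l 91301218151) (l 16514280)) (l 16521928)) (b (b (l 1) (l 16528680)) (l 16578256))) (b (l 1) (a (l 112239188503) (b (l 1) (l 16519712)))))) (b (a (a (a (b (a (b (l 16414896) (l 16412040)) (l 16428664)) (a (l 16402448) (l 16425456))) (b (l 16445032) (l 16450400))) (a (l 16466168) (l 16481112))) (a (a (l 16494808) (l 16506640)) (a (l 16514936) (l 16516504)))) (a (b (a (a (l 16403216) (l 16447888)) (a (l 16480504) (l 16496752))) (a (b (b (l 16418672) (l 16419656)) (l 16449376)) (b (a (l 16483776) (l 16510648)) (a (l 16510576) (l 16542152))))) (b (a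 (l 16509496) (l 16519784)) (a (b (l 16521792) (l 16556096)) (a (l 16540648) (l 16539704))))))), by decide +kernel⟩

def k2_pm_022_b : ∃ t, chk3 f_pm_022_b t 3 1 1 = true :=
  ⟨(b (l 1) (b (l 1) (a (b (a (a (l 16509080) (l 151430636327)) (l 1)) (a (b (l 16509992) (l 16699064)) (b (l 230887566167) (b (l 16475608) (l 16508192))))) (l 1)))), by decide +kernel⟩

theorem s3_pm_022_b : ∃ t, chk3 f_pm_022_b t 2 1 1 = true := ex3_b k0_pm_022_b k1_pm_022_b

theorem s4_pm_022_b : ∃ t, chk3 f_pm_022_b t 1 1 1 = true := ex3_a s3_pm_022_b k2_pm_022_b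

theorem c_pm_022_b : CertB 0 536870912 1239849684 370763052 536870912 50465866 3 eng mog cd0q0 cd3q2b pd2 true true false .pp 0 2 2
    ndB0q0 ndB3q2b pcB2 cut_pm_022_b Ext.none :=
  certB1 (fam := true) (s1 := true) (s2 := false) (a := 0) (b := 2) (c := 2) (cn := .pp) (n1 := ndB0q0) (n2 := ndB3q2b) (pc := pcB2) (cut := cut_pm_022_b) (xt := Ext.none) (P1 := 0) (W1 := 536870912) (P2 := 1239849684) (W2 := 370763052) (P3 := 536870912) (W3 := 50465866) (N0 := 3) (En := eng) (mo := mog) (C1 := cd0q0) (C2 := cd3q2b) (C3 := pd2)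
    rfl (fun _ => rfl) s4_pm_022_b

noncomputable def cut_pm_023_a : Cut := Cut.of [[⟨0, 0, 1, 20971520⟩, ⟨1, 1, 0, 33554432⟩, ⟨2, 1, 1, 20971520⟩]]

noncomputable def xt_pm_023_a : Ext := extD2 3 ⟨7, 3, 3, 10, 1741, 1000, 23, 25, 19, 50, 3, 16⟩ eng cd0q0 cd3q2a pd3 true true false .up 0 2 3 rfl ndB0q0 ndB3q2a pcB3

noncomputable def f_pm_023_a : ℕ → ℕ → ℕ → ℕ → Bool := onCell 1610612736 536870912 0 536870912 536870912 50465866
    (rowB 3 eng mog cd0q0 cd3q2a pd3 2 true true false .up 0 2 3 (qsf 0 536870912 0 536870912 3) ndB0q0 ndB3q2a pcB3 cut_pm_023_a xt_pm_023_a)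

def k0_pm_023_a : ∃ t, chk3 f_pm_023_a t 1 1 1 = true :=
  ⟨(a (a (b (a (a (b (l 16445200) (l 16376856)) (b (l 16469168) (l 16408208))) (a (b (l 16483288) (l 16465872)) (b (l 16559608) (l 16569976)))) (a (b (a (b (l 16401384) (l 16444920)) (b (l 16434624) (l 16478512))) (b (a (b (l 16487048) (a (l 16512016) (l 16524416))) (b (l 16524880) (l 16563704))) (b (a (a (b (l 16536816) (l 16576056)) (b (l 16552624) (l 16572440))) (a (l 211627445127) (l 2))) (a (b (a (a (l 141815524723507215) (l 141875104527007759)) (a (l 141942793230434319) (l 2))) (a (a (b (c (l 141846723430498319) (l 141674993389486095)) (b (c (l 141916542435753999) (l 141734229592588303)) (a (b (c (l 141935302856589327) (l 141749691477770255)) (a (b (c (l 141944717426753551) (l 141757388060622863)) (a (c (c (l 6) (c (l 6) (b (l 141880464689659919) (l 141931042225864719)))) (c (c (l 141836140609617935) (l 141788105677160463)) (l 141714507090264079))) (l 2))) (l 2))) (l 2)))) (b (c (l 141914618293108751) (l 141734160876044303))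 (l 2))) (l 2))) (l 2))))) (b (a (b (l 16517928) (l 16559416)) (b (l 16601888) (l 16639784))) (b (a (a (l 16576904) (l 2)) (l 2)) (l 2))))) (b (a (b (l 16650424) (a (l 16637456) (l 2))) (l 2)) (b (l 2) (l 2)))) (l 2)), by decide +kernel⟩

theorem c_pm_023_a : CertB 0 536870912 0 536870912 536870912 50465866 3 eng mog cd0q0 cd3q2a pd3 true true false .up 0 2 3
    ndB0q0 ndB3q2a pcB3 cut_pm_023_a xt_pm_023_a :=
  certB2 (fam := true) (s1 := true) (s2 := false) (a := 0) (b := 2) (c := 3) (cn := .up) (n1 := ndB0q0) (n2 := ndB3q2a) (pc := pcB3) (cut := cut_pm_023_a) (xt := xt_pm_023_a) (P1 := 0) (W1 := 536870912) (P2 := 0) (W2 := 536870912) (P3 := 536870912) (W3 := 50465866) (N0 := 3) (En := eng) (mo := mog) (C1 := cd0q0) (C2 := cd3q2a) (C3 := pd3)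
    rfl (fun _ => rfl) k0_pm_023_a

noncomputable def cut_pm_023_b : Cut := Cut.of [[⟨0, 0, 1, 20971520⟩, ⟨1, 1, 0, 33554432⟩, ⟨2, 1, 1, 20971520⟩]]

noncomputable def f_pm_023_b : ℕ → ℕ → ℕ → ℕ → Bool := onCell 1610612736 536870912 1239849684 370763052 536870912 50465866
    (rowB 3 eng mog cd0q0 cd3q2b pd3 2 true true false .up 0 2 3 (qsf 0 536870912 1239849684 370763052 3) ndB0q0 ndB3q2b pcB3 cut_pm_023_b Ext.none)

def k0_pm_023_b : ∃ t, chk3 f_pm_023_b t 1 1 1 = true :=
  ⟨(a (a (b (a (b (a (b (l 16498864) (l 16523480)) (b (l 16530256) (l 16560104))) (a (b (l 16533416) (l 16537800)) (b (l 16576888) (l 16588648)))) (b (a (b (l 16543912) (l 16581560)) (b (l 16550824) (l 16574456))) (a (b (l 16602160) (l 16616448)) (l 16651088)))) (a (b (a (b (l 16534448) (l 16516960)) (b (l 16593120) (l 16580656))) (a (b (l 16465536) (l 16409752)) (b (l 16535928) (l 16486328)))) (b (a (b (l 16625608) (l 16617080)) (b (l 16630320) (l 16624160))) (a (b (l 16575752) (l 16551080)) (l 16592512))))) (b (b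 (a (b (a (l 16610072) (l 16659096)) (a (l 16597872) (l 16640928))) (b (a (l 16699472) (l 2)) (l 16796864))) (a (b (l 16623640) (l 16639432)) (b (l 16707112) (l 16693992)))) (b (a (b (l 16658088) (l 16664744)) (b (l 16708360) (l 16715896))) (a (a (l 16603520) (l 16825472)) (b (l 16707352) (l 16697056)))))) (b (a (b (l 2) (a (b (l 16750168) (l 16736496)) (b (l 2) (a (l 16765648) (l 2))))) (l 2)) (a (b (a (b (l 16749064) (l 16756760)) (a (l 16784848) (l 16811480))) (a (b (l 16750880) (l 16744912)) (a (l 16779624) (l 16801368)))) (a (b (a (l 16835416) (l 16832536)) (a (l 16804384) (l 4))) (l 4))))), by decide +kernel⟩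

theorem c_pm_023_b : CertB 0 536870912 1239849684 370763052 536870912 50465866 3 eng mog cd0q0 cd3q2b pd3 true true false .up 0 2 3
    ndB0q0 ndB3q2b pcB3 cut_pm_023_b Ext.none :=
  certB2 (fam := true) (s1 := true) (s2 := false) (a := 0) (b := 2) (c := 3) (cn := .up) (n1 := ndB0q0) (n2 := ndB3q2b) (pc := pcB3) (cut := cut_pm_023_b) (xt := Ext.none) (P1 := 0) (W1 := 536870912) (P2 := 1239849684) (W2 := 370763052) (P3 := 536870912) (W3 := 50465866) (N0 := 3) (En := eng) (mo := mog) (C1 := cd0q0) (C2 := cd3q2b) (C3 := pd3)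
    rfl (fun _ => rfl) k0_pm_023_b

noncomputable def f_pm_033 : ℕ → ℕ → ℕ → ℕ → Bool := onCell 0 536870912 1610612736 536870912 536870912 50465866
    (rowB 3 eng mog cd0q0 cd3q3 pd3 1 true true false .pnn 0 3 3 (qsf 0 536870912 1610612736 536870912 3) ndB0q0 ndB3q3 pcB3 Cut.none Ext.none)

def k0_pm_033 : ∃ t, chk3 f_pm_033 t 1 1 1 = true :=
  ⟨(a (b (b (b (a (b (a (l 16445824) (l 1)) (a (l 16514288) (l 16549840))) (l 1)) (a (b (a (l 16567376) (l 16584968)) (a (l 16588072) (l 16602968))) (a (l 293701908359) (l 1)))) (b (a (a (l 16632576) (l 16640184)) (a (l 16651976) (l 16666432))) (a (b (l 16682720) (l 16705128)) (a (l 16703448) (l 16712560))))) (b (a (b (b (l 16726312) (l 16739584)) (l 4)) (b (a (l 16742576) (l 16749968)) (b (l 16890544) (l 4)))) (l 4))) (b (b (l 1) (a (b (l 1) (l 157873653895)) (l 1))) (b (a (b (a (l 16756896) (l 16761216)) (b (a (l 16784464) (l 16789048)) (a (l 16796032) (l 16805344)))) (b (l 1) (b (l 1) (l 219077467079)))) (b (a (l 4) (b (l 16816520) (l 4))) (l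 4))))), by decide +kernel⟩

theorem c_pm_033 : CertB 0 536870912 1610612736 536870912 536870912 50465866 3 eng mog cd0q0 cd3q3 pd3 true true false .pnn 0 3 3
    ndB0q0 ndB3q3 pcB3 Cut.none Ext.none :=
  certB1 (fam := true) (s1 := true) (s2 := false) (a := 0) (b := 3) (c := 3) (cn := .pnn) (n1 := ndB0q0) (n2 := ndB3q3) (pc := pcB3) (cut := Cut.none) (xt := Ext.none) (P1 := 0) (W1 := 536870912) (P2 := 1610612736) (W2 := 536870912) (P3 := 536870912) (W3 := 50465866) (N0 := 3) (En := eng) (mo := mog) (C1 := cd0q0) (C2 := cd3q3) (C3 := pd3)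
    rfl (fun _ => rfl) k0_pm_033

noncomputable def cut_pm_101 : Cut := Cut.of [[⟨0, 1, 0, 67108864⟩, ⟨1, 0, 0, 67108864⟩, ⟨2, 1, 0, 67108864⟩]]

noncomputable def f_pm_101 : ℕ → ℕ → ℕ → ℕ → Bool := onCell 536870912 536870912 0 536870912 536870912 50465866
    (rowB 3 eng mog cd0q1 cd3q0 pd1 2 true true false .npn 1 0 1 (qsf 536870912 536870912 0 536870912 1) ndB0q1 ndB3q0 pcB1 cut_pm_101 Ext.none)

def k0_pm_101 : ∃ t, chk3 f_pm_101 t 1 1 1 = true :=
  ⟨(a (l 3) (b (a (l 3) (b (a (l 3) (b (a (l 3) (a (l 3) (b (l 6) (l 3)))) (l 3))) (l 3))) (l 3))), by decide +kernel⟩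

theorem c_pm_101 : CertB 536870912 536870912 0 536870912 536870912 50465866 3 eng mog cd0q1 cd3q0 pd1 true true false .npn 1 0 1
    ndB0q1 ndB3q0 pcB1 cut_pm_101 Ext.none :=
  certB2 (fam := true) (s1 := true) (s2 := false) (a := 1) (b := 0) (c := 1) (cn := .npn) (n1 := ndB0q1) (n2 := ndB3q0) (pc := pcB1) (cut := cut_pm_101) (xt := Ext.none) (P1 := 536870912) (W1 := 536870912) (P2 := 0) (W2 := 536870912) (P3 := 536870912) (W3 := 50465866) (N0 := 3) (En := eng) (mo := mog) (C1 := cd0q1) (C2 := cd3q0) (C3 := pd1)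
    rfl (fun _ => rfl) k0_pm_101

noncomputable def cut_pm_102 : Cut := Cut.of [[⟨0, 1, 0, 67108864⟩, ⟨1, 0, 0, 67108864⟩, ⟨2, 1, 0, 67108864⟩]]

noncomputable def xt_pm_102 : Ext := extD2 3 ⟨7, 3, 3, 10, 1741, 1000, 23, 25, 19, 50, 3, 16⟩ eng cd0q1 cd3q0 pd2 true true false .npp 1 0 2 rfl ndB0q1 ndB3q0 pcB2

noncomputable def f_pm_102 : ℕ → ℕ → ℕ → ℕ → Bool := onCell 536870912 536870912 1073741824 536870912 536870912 50465866
    (rowB 3 eng mog cd0q1 cd3q0 pd2 1 true true false .npp 1 0 2 (qsf 536870912 536870912 0 536870912 2) ndB0q1 ndB3q0 pcB2 cut_pm_102 xt_pm_102)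

def k0_pm_102 : ∃ t, chk3 f_pm_102 t 2 2 1 = true :=
  ⟨(b (b (b (b (l 3) (a (l 3) (a (l 3) (b (l 3) (a (l 344839272039) (a (l 16990000) (l 16899992))))))) (a (a (b (a (l 3) (a (l 3) (b (l 3) (l 239075223223)))) (a (l 2) (b (a (b (l 156396985479) (l 2)) (b (l 155323248759) (l 16693176))) (l 16669384)))) (b (b (l 3) (a (a (b (l 3) (l 151028327255)) (c (l 138680483383) (l 2043084635291793716672987311))) (b (a (l 156934052583) (l 16788272)) (a (c (l 16778976) (l 16742264)) (l 16775704))))) (a (b (b (a (l 16676888) (c (l 16753800) (l 16712536))) (l 16713792)) (b (l 16702016) (l 16690640))) (b (a (b (l 16748192) (l 16736352)) (l 16757648)) (l 16726560))))) (a (b (a (b (a (l 345912767127) (l 137070017239)) (b (a (l 16803216) (l 16816640)) (a (l 16790720) (l 16804504)))) (b (b (l 391010048247) (c (l 16852944) (l 135459457095))) (a (b (l 16828208) (l 16816280)) (l 16832432)))) (a (b (b (l 16785488) (l 16773720)) (l 16756360)) (b (l 16803616) (l 16780696)))) (a (a (b (b (l 16908264) (l 16842416))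 (l 16849264)) (b (b (l 16875904) (l 16852528)) (l 16818080))) (b (b (a (l 16906080) (l 16886296)) (a (l 16862536) (l 16869664))) (l 16833824)))))) (a (b (a (b (a (l 2) (l 38755100007)) (l 2)) (b (a (l 16642016) (l 16693648)) (l 16617480))) (a (l 2) (a (l 16575000) (l 16606080)))) (a (b (b (a (l 16723680) (l 16748424)) (a (l 16684584) (l 16709848))) (b (l 16684136) (l 16636064))) (b (a (l 16750232) (l 16772448)) (l 16759968))))) (a (b (b (b (a (l 2) (l 16554840)) (l 2)) (l 2)) (l 2)) (b (b (a (b (l 16614912) (b (l 16602840) (l 16598480))) (b (l 16665504) (b (l 16654960) (l 16651384)))) (a (l 16587424) (l 16643840))) (a (l 16590016) (l 16656632))))), by decide +kernel⟩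

def k1_pm_102 : ∃ t, chk3 f_pm_102 t 2 3 1 = true :=
  ⟨(b (a (l 2) (a (l 2) (b (l 16712424) (l 2)))) (l 2)), by decide +kernel⟩

def k2_pm_102 : ∃ t, chk3 f_pm_102 t 3 8 1 = true :=
  ⟨(a (b (b (a (l 3) (a (l 3) (b (l 3) (a (l 165524219895) (a (l 157471132535) (b (l 3) (l 16842416))))))) (a (a (b (l 3) (l 16908552)) (b (l 183777988599) (b (l 16875448) (l 16869472)))) (a (b (a (l 16870824) (l 115058424791)) (l 16874312)) (b (a (b (l 16850040) (l 16844304)) (b (a (l 16840304) (b (l 16836872) (l 16833520))) (l 16831592))) (a (l 16835400) (l 16822760)))))) (a (a (b (l 16952272) (l 16841512)) (b (l 16937840) (l 16830096))) (b (a (l 16856664) (b (l 16817688) (l 16806664))) (a (l 16812856) (l 16790880))))) (a (b (a (b (b (l 3) (b (a (l 3) (a (l 16836760) (b (l 3) (l 16830608)))) (a (c (l 16841600) (l 88751621383)) (b (a (l 16831520) (l 16827104)) (l 16826024))))) (b (a (b (l 16829280) (l 16822240)) (b (l 16820816) (l 16814040))) (a (l 16811992) (l 16803888)))) (b (b (a (l 3) (a (l 154786697671)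 (b (l 3) (c (l 95730913527) (l 154249833543))))) (a (b (b (a (l 16829528) (l 93583426919)) (a (l 16826176) (c (l 16826128) (l 16838600)))) (b (l 16820728) (l 16817360))) (b (b (a (l 16841464) (b (l 16816592) (l 16815104))) (l 16836008)) (l 16810304)))) (b (a (l 16830112) (l 16800768)) (l 16792240)))) (a (b (a (l 16794096) (l 16784864)) (l 16769104)) (b (l 16774736) (l 16778200)))) (b (b (a (a (b (b (l 3) (a (b (l 3) (c (l 16817248) (l 16811056))) (b (l 6) (b (l 6) (l 16808288))))) (b (a (l 16830480) (l 16825504)) (l 16801008))) (b (l 6) (b (l 6) (l 16790968)))) (l 6)) (a (a (l 16786136) (l 16819112)) (a (b (l 6) (l 16770488)) (l 6)))) (a (b (a (l 16766032) (l 16766208)) (l 16766344)) (a (b (l 16761840) (l 16750488)) (b (a (l 16749040) (l 6)) (l 16731552))))))), by decide +kernel⟩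

def k3_pm_102 : ∃ t, chk3 f_pm_102 t 3 9 1 = true :=
  ⟨(a (a (b (a (l 16939024) (l 16816424)) (a (l 16731888) (l 16748960))) (b (a (l 16781904) (l 16763872)) (a (l 16749704) (l 16742120)))) (a (a (b (l 16749512) (l 16747912)) (b (a (l 16749624) (l 16740616)) (l 16766680))) (b (a (b (l 16762520) (l 16757728)) (a (l 16736984) (l 16716272))) (a (l 16794280) (a (l 16726872) (l 16704448)))))), by decide +kernel⟩

def k4_pm_102 : ∃ t, chk3 f_pm_102 t 3 5 1 = true :=
  ⟨(a (b (a (b (b (l 16712304) (b (l 16702728) (l 16699568))) (l 16694832)) (b (b (l 16755672) (b (l 16733440) (l 16819288))) (a (l 16728864) (l 16760720)))) (a (l 16715904) (l 16779296))) (b (a (b (b (a (l 16763128) (l 16768528)) (a (l 16833992) (l 16831696))) (a (l 16778064) (l 16770888))) (b (b (a (l 16749888) (l 16714080)) (a (b (l 16749640) (l 16748752)) (b (l 16714568) (l 16714024)))) (a (l 16748552) (l 16713528)))) (a (a (l 16792288) (l 16774368)) (a (l 16744632) (l 16708304))))), by decide +kernel⟩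

def k5_pm_102 : ∃ t, chk3 f_pm_102 t 3 3 1 = true :=
  ⟨(b (b (a (a (l 16776416) (l 16826608)) (a (l 16821680) (a (l 16764832) (l 16714440)))) (a (l 100496258119) (a (l 16891672) (l 16812320)))) (a (b (l 16938768) (l 2)) (b (a (l 16999992) (l 16943392)) (b (l 17099008) (l 17177712))))), by decide +kernel⟩

theorem s6_pm_102 : ∃ t, chk3 f_pm_102 t 3 4 1 = true := ex3_b k2_pm_102 k3_pm_102

theorem s7_pm_102 : ∃ t, chk3 f_pm_102 t 3 2 1 = true := ex3_b s6_pm_102 k4_pm_102

theorem s8_pm_102 : ∃ t, chk3 f_pm_102 t 3 1 1 = true := ex3_b s7_pm_102 k5_pm_102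

theorem s9_pm_102 : ∃ t, chk3 f_pm_102 t 2 1 1 = true := ex3_b k0_pm_102 k1_pm_102

theorem s10_pm_102 : ∃ t, chk3 f_pm_102 t 1 1 1 = true := ex3_a s9_pm_102 s8_pm_102

theorem c_pm_102 : CertB 536870912 536870912 0 536870912 536870912 50465866 3 eng mog cd0q1 cd3q0 pd2 true true false .npp 1 0 2
    ndB0q1 ndB3q0 pcB2 cut_pm_102 xt_pm_102 :=
  certB1 (fam := true) (s1 := true) (s2 := false) (a := 1) (b := 0) (c := 2) (cn := .npp) (n1 := ndB0q1) (n2 := ndB3q0) (pc := pcB2) (cut := cut_pm_102) (xt := xt_pm_102) (P1 := 536870912) (W1 := 536870912) (P2 := 0) (W2 := 536870912) (P3 := 536870912) (W3 := 50465866) (N0 := 3) (En := eng) (mo := mog) (C1 := cd0q1) (C2 := cd3q0) (C3 := pd2)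
    rfl (fun _ => rfl) s10_pm_102

noncomputable def f_pm_112 : ℕ → ℕ → ℕ → ℕ → Bool := onCell 536870912 536870912 1073741824 536870912 536870912 50465866
    (rowB 3 eng mog cd0q1 cd3q1 pd2 1 true true false .dn 1 1 2 (qsf 536870912 536870912 536870912 536870912 2) ndB0q1 ndB3q1 pcB2 Cut.none Ext.none)

def k0_pm_112 : ∃ t, chk3 f_pm_112 t 2 2 1 = true :=
  ⟨(b (b (a (b (l 3) (a (b (a (l 3) (a (l 3) (a (a (l 3) (l 1)) (l 1)))) (a (b (a (b (l 178408684375) (l 16640528)) (a (l 179482421863) (b (l 182166799191) (l 16687608)))) (b (a (l 16621000) (l 16658576)) (l 16620584))) (b (a (b (b (l 16740592) (l 16730824)) (l 16674320)) (b (b (l 16776040) (l 16766864)) (l 16731928))) (l 16706096)))) (b (l 1) (a (b (l 1) (l 396781029447)) (l 1))))) (l 1)) (a (b (a (b (a (b (l 16591224) (l 16550888)) (b (l 16667488) (l 16628112))) (a (l 16487152) (l 16567512))) (b (a (b (l 16739000) (l 16707080)) (l 1)) (l 16691736))) (a (a (l 16489608) (l 16501544)) (a (l 16568016) (l 16643136)))) (a (b (l 1) (l 343093868407))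 (l 1)))) (a (b (b (b (a (a (l 16415056) (l 16372088)) (l 16536584)) (b (a (l 16557176) (l 16506152)) (a (a (l 16576856) (l 16451024)) (b (l 16493032) (l 16486904))))) (a (a (b (l 16478632) (l 16485320)) (l 16476136)) (l 16520408))) (a (a (b (l 16487232) (l 16485424)) (b (l 16497560) (l 16503304))) (a (b (l 16504800) (l 16521728)) (l 16529504)))) (b (b (a (b (l 16654008) (b (l 16633192) (l 16622320))) (l 1)) (a (l 16596024) (l 16663928))) (a (l 16654832) (l 16662712))))), by decide +kernel⟩

def k1_pm_112 : ∃ t, chk3 f_pm_112 t 2 3 1 = true :=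
  ⟨(b (a (a (b (a (l 16483112) (l 16508928)) (a (b (l 16482312) (l 16479664)) (b (l 16516712) (l 16519984)))) (b (a (b (l 16529840) (l 16540400)) (b (l 16556568) (l 16570792))) (a (l 16555872) (l 16594032)))) (a (b (a (l 16597912) (l 16639136)) (a (l 16634360) (l 16682160))) (b (l 16706824) (a (l 16734000) (l 16780616))))) (b (a (a (a (b (l 16468200) (l 16442056)) (b (l 16515464) (l 16497840))) (a (b (l 16562624) (l 16553808)) (l 16610528))) (a (l 16696288) (a (l 16766736) (l 16806040)))) (a (a (a (b (l 16416288) (a (l 16378984) (l 16418192))) (b (l 16481368) (l 16475752))) (b (a (l 16550104) (l 16623704)) (b (l 16523824) (l 16493448)))) (a (b (l 16713808) (a (l 16705120) (l 16759512))) (b (l 16804472) (l 16825584)))))), by decide +kernel⟩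

def k2_pm_112 : ∃ t, chk3 f_pm_112 t 3 1 1 = true :=
  ⟨(b (b (l 1) (a (b (l 1) (a (l 16721664) (l 1))) (l 1))) (b (a (a (b (l 16778824) (l 16838904)) (l 176127859143)) (a (l 306050595015) (l 1))) (a (b (a (l 16855480) (l 16952960)) (b (a (l 16857960) (l 16934352)) (a (b (l 16862032) (l 16884232)) (l 16931656)))) (b (a (l 16976512) (l 16885520)) (b (l 17081728) (l 17308776)))))), by decide +kernel⟩

theorem s3_pm_112 : ∃ t, chk3 f_pm_112 t 2 1 1 = true := ex3_b k0_pm_112 k1_pm_112

theorem s4_pm_112 : ∃ t, chk3 f_pm_112 t 1 1 1 = true := ex3_a s3_pm_112 k2_pm_112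

theorem c_pm_112 : CertB 536870912 536870912 536870912 536870912 536870912 50465866 3 eng mog cd0q1 cd3q1 pd2 true true false .dn 1 1 2
    ndB0q1 ndB3q1 pcB2 Cut.none Ext.none :=
  certB1 (fam := true) (s1 := true) (s2 := false) (a := 1) (b := 1) (c := 2) (cn := .dn) (n1 := ndB0q1) (n2 := ndB3q1) (pc := pcB2) (cut := Cut.none) (xt := Ext.none) (P1 := 536870912) (W1 := 536870912) (P2 := 536870912) (W2 := 536870912) (P3 := 536870912) (W3 := 50465866) (N0 := 3) (En := eng) (mo := mog) (C1 := cd0q1) (C2 := cd3q1) (C3 := pd2)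
    rfl (fun _ => rfl) s4_pm_112

noncomputable def f_pm_113 : ℕ → ℕ → ℕ → ℕ → Bool := onCell 536870912 536870912 1610612736 536870912 536870912 50465866
    (rowB 3 eng mog cd0q1 cd3q1 pd3 1 true true false .nn 1 1 3 (qsf 536870912 536870912 536870912 536870912 3) ndB0q1 ndB3q1 pcB3 Cut.none Ext.none)

def k0_pm_113 : ∃ t, chk3 f_pm_113 t 1 1 1 = true :=
  ⟨(a (b (b (a (b (a (b (a (l 66134871159) (l 16476200)) (a (b (l 171361491367) (l 2)) (l 78482985495))) (a (b (l 16585672) (a (l 16601576) (l 16641368))) (b (l 16655984) (l 16692912)))) (a (a (l 2) (b (a (l 2) (l 198742300807)) (l 2))) (b (a (a (l 16625440) (l 16665360)) (l 16716696)) (a (l 16626832) (l 16717424))))) (b (a (b (a (l 16713216) (l 16763728)) (a (l 16749776) (l 16799480))) (b (l 16824320) (l 16858320))) (a (b (c (l 16847072) (l 16752304)) (l 16798544)) (b (l 16876928) (l 16871280))))) (a (a (l 2) (b (a (l 2) (l 16719872)) (l 2))) (a (b (a (l 16772504) (l 16815648)) (a (l 2) (l 281421253815))) (b (b (l 16865472) (l 16860808))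 (a (l 16848600) (l 16867096)))))) (b (a (l 2) (b (a (l 2) (l 16871496)) (l 2))) (l 2))) (b (b (a (b (a (b (l 16865144) (l 16894080)) (b (l 16949608) (l 16919656))) (a (b (l 16904952) (l 16893392)) (l 16914424))) (b (a (b (l 17012056) (l 16986736)) (l 17154608)) (a (b (l 16959496) (l 16935160)) (l 16997384)))) (a (b (a (l 16881280) (l 16894232)) (a (l 16875992) (l 16886256))) (b (a (l 16916464) (l 17006880)) (a (l 16899832) (l 16890920))))) (a (b (b (a (l 16881240) (l 16879448)) (a (b (l 16889336) (l 2)) (b (l 16878832) (l 16876896)))) (b (a (l 2) (b (l 16867968) (l 2))) (l 2))) (b (b (a (l 16881368) (l 16863864)) (a (b (l 16869944) (l 16855984)) (l 4))) (b (l 4) (l 4)))))), by decide +kernel⟩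

theorem c_pm_113 : CertB 536870912 536870912 536870912 536870912 536870912 50465866 3 eng mog cd0q1 cd3q1 pd3 true true false .nn 1 1 3
    ndB0q1 ndB3q1 pcB3 Cut.none Ext.none :=
  certB1 (fam := true) (s1 := true) (s2 := false) (a := 1) (b := 1) (c := 3) (cn := .nn) (n1 := ndB0q1) (n2 := ndB3q1) (pc := pcB3) (cut := Cut.none) (xt := Ext.none) (P1 := 536870912) (W1 := 536870912) (P2 := 536870912) (W2 := 536870912) (P3 := 536870912) (W3 := 50465866) (N0 := 3) (En := eng) (mo := mog) (C1 := cd0q1) (C2 := cd3q1) (C3 := pd3)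
    rfl (fun _ => rfl) k0_pm_113

noncomputable def cut_pm_123_a : Cut := Cut.of [[⟨0, 1, 0, 67108864⟩, ⟨1, 1, 0, 67108864⟩, ⟨2, 2, 0, 16777216⟩], [⟨0, 0, 1, 20971520⟩, ⟨1, 1, 0, 33554432⟩, ⟨2, 1, 1, 20971520⟩]]

noncomputable def xt_pm_123_a : Ext := extD2 3 ⟨7, 3, 3, 10, 1741, 1000, 23, 25, 19, 50, 3, 16⟩ eng cd0q1 cd3q2a pd3 true true false .npn 1 2 3 rfl ndB0q1 ndB3q2a pcB3

noncomputable def f_pm_123_a : ℕ → ℕ → ℕ → ℕ → Bool := onCell 1610612736 536870912 0 536870912 536870912 50465866
    (rowB 3 eng mog cd0q1 cd3q2a pd3 2 true true false .npn 1 2 3 (qsf 536870912 536870912 0 536870912 3) ndB0q1 ndB3q2a pcB3 cut_pm_123_a xt_pm_123_a)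

def k0_pm_123_a : ∃ t, chk3 f_pm_123_a t 4 2 1 = true :=
  ⟨(a (l 1) (b (l 1) (a (l 1) (l 16569808)))), by decide +kernel⟩

def k1_pm_123_a : ∃ t, chk3 f_pm_123_a t 8 6 1 = true :=
  ⟨(l 1), by decide +kernel⟩

def k2_pm_123_a : ∃ t, chk3 f_pm_123_a t 8 14 1 = true :=
  ⟨(a (l 1) (b (l 16524744) (l 16563616))), by decide +kernel⟩

def k3_pm_123_a : ∃ t, chk3 f_pm_123_a t 8 30 1 = true :=
  ⟨(a (a (l 1) (a (l 16139326455) (l 16588120))) (b (l 16573264) (a (l 16578488) (l 16590016)))), by decide +kernel⟩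

def k4_pm_123_a : ∃ t, chk3 f_pm_123_a t 32 31 1 = true :=
  ⟨(a (b (l 1) (c (b (l 141846654711005199) (c (l 14) (b (l 141872149635923983) (c (b (l 141929118099456015) (l 14)) (b (l 141883007312363535) (a (b (l 141883831945461775) (a (a (b (l 141880464689659919) (l 141908502237495311)) (c (l 141902729807659023) (l 141879227737473039))) (c (l 14) (a (l 141887061760131087) (l 141895033221775375))))) (b (l 141916198828474383) (a (a (c (l 14) (l 141903073402912783)) (l 14)) (l 14))))))))) (b (l 141674924669992975) (b (l 141734229592571919) (b (c (l 141812363662999567) (l 141715125567062031)) (b (c (a (l 141812913418158095) (l 141843699752747023)) (a (l 141715400444248079) (l 141743987754991631))) (a (a (c (c (a (l 141836140609617935) (l 141843631034810383)) (l 141791747810508815)) (l 141807965579640847)) (c (c (a (l 141851258898989071) (l 141859024202137615)) (l 141806522502365199)) (l 141799444368670735))) (b (c (c (l 141876204076466191) (l 141826932193050639)) (l 141751272021278735)) (c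 (a (c (a (l 141869607004520463) (l 141877578466148367)) (l 141824320851935247)) (b (l 141863697125703695) (c (a (l 141887061756624911) (l 141940388072964111)) (l 141886374544310287)))) (c (a (l 141774155615338511) (l 141789342624104463)) (l 141775392549453839))))))))))) (b (l 141920047064776719) (b (c (l 141914618293092367) (l 141734160876027919)) (b (c (l 142031647579471887) (l 141795596103024655)) (c (l 14) (b (a (l 141810370793390095) (l 141843562310074383)) (a (c (b (l 141876410233094159) (c (c (l 14) (a (a (l 141887130475200527) (l 141895582973247503)) (a (l 141904104190803983) (l 14)))) (a (a (l 141849472187826191) (l 141857718527393807)) (a (l 141911044843716623) (a (l 141872355780116495) (l 141876616388886543)))))) (b (l 141774499211460623) (a (c (l 141802468048060431) (l 141750447385329679)) (c (l 141863559667499023) (l 141765909272051727))))) (c (b (l 141911044859183119) (c (l 14) (b (l 141893383946076175) (a (a (l 141885687362289679) (l 141928224720846863)) (c (l 14) (a (l 141890154128408591)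 (l 141899018943397903))))))) (b (l 141806866094211087) (b (l 141904516472487951) (c (a (l 141882732406833167) (c (l 141868095167938575) (l 141841363281821711))) (a (l 141784394816438287) (l 141800887495507983))))))))))))), by decide +kernel⟩

def k5_pm_123_a : ∃ t, chk3 f_pm_123_a t 33 31 1 = true :=
  ⟨(b (a (l 141942724510941199) (b (l 16592840) (l 141898675357990927))) (b (a (c (l 141902317538639887) (l 141801024945602575)) (b (l 141978733566459919) (l 142033021966106639))) (c (c (a (c (b (l 142364730963361935) (b (l 142045254125797519) (a (a (l 14) (a (l 14) (l 142421699423731855))) (a (b (l 142448568743985295) (l 142462243923099791)) (l 142499970922741903))))) (l 14)) (b (a (l 142434962279596175) (l 142523198104567951)) (a (b (l 142474888305098895) (a (c (l 142544020115751055) (l 14)) (c (l 142587588272308367) (b (l 142452691908182159) (l 142466229648294031))))) (b (l 142562436935106703) (b (l 142582228149092495) (c (l 142658575505555599) (l 142531994200014991))))))) (b (l 14) (l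 14))) (a (b (l 141864796635447311) (b (a (l 141878746692009999) (l 141915992658657295)) (a (c (b (l 141947672350539791) (c (l 14) (a (a (c (l 14) (l 141905341137109007)) (l 14)) (l 14)))) (b (l 141841088403226639) (a (c (a (l 141865277667606543) (l 141919222459318287)) (l 141860398566522895)) (b (l 141857787240448015) (c (a (l 141885824796786703) (l 141940044466470927)) (l 141880327220248591)))))) (c (l 14) (b (l 141877372296986639) (c (c (l 14) (a (a (l 141887817661120527) (l 141897163512528911)) (a (l 141906646802907151) (l 14)))) (a (a (l 141846173643407375) (l 141855244616843279)) (a (l 141864453029249039) (l 141918878857396239))))))))) (c (l 14) (b (l 141887130466631695) (c (b (l 141947672343576591) (l 14)) (b (l 141890910035705871) (a (b (l 141887199182553103) (b (l 141895101924311055) (a (a (l 141885893511790607) (l 141940594217893903)) (c (l 14) (b (l 141894346008625167) (l 141896957349380111)))))) (a (b (l 141916817285021711) (c (l 14) (l 141957842810159119))) (l 14))))))))))),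 by decide +kernel⟩

def k6_pm_123_a : ∃ t, chk3 f_pm_123_a t 17 31 1 = true :=
  ⟨(b (a (a (l 142037076406616079) (l 142036595404357647)) (a (l 142385827816718351) (l 142546975019630607))) (a (b (a (a (l 141966020496490511) (l 142056043028021263)) (b (l 142340953996886031) (l 142392562336301071))) (b (a (b (l 142100160939474959) (l 142104284114386959)) (c (l 142691698287870095) (l 142194237882220559))) (a (c (b (l 142024088549392527) (a (c (l 142673693790257295) (c (a (l 142463618302181519) (l 142506980300193935)) (l 14))) (c (l 142756500775354511) (c (l 142571095584080015) (a (l 14) (l 142467604027490447)))))) (l 14)) (c (c (a (l 142824464350019727) (l 142903285604647055)) (b (l 142608272824090767) (a (a (l 142572332532301967) (l 142614045262545039)) (l 142495641615712399)))) (b (l 142055355829501967) (a (l 14) (c (c (a (l 142471521033420943) (l 142513714800033935)) (l 14)) (l 14)))))))) (c (b (a (l 142775604780646543) (l 142927406133018767)) (a (b (l 142850096711417999) (b (l 142707916080218255)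 (c (l 143030485380595855) (a (l 142756225843626127) (l 142834772263157903))))) (b (l 143000661112995983) (a (l 143013855214813327) (l 143086835355631759))))) (a (b (l 142287902542381071) (c (b (l 142489731692281999) (b (l 142529726437277839) (a (a (c (l 142555358810734735) (l 14)) (a (l 142525740665290895) (l 142546356555120783))) (a (b (l 142570408376123535) (l 142583946116251791)) (l 142617756104786063))))) (l 14))) (b (l 142454066268061711) (b (l 142532543929335951) (a (b (l 142532200334000271) (c (b (l 142671013708824719) (l 142684413988503695)) (c (a (l 142479148887081103) (l 142520105702850703)) (l 14)))) (b (l 142612464697737359) (b (l 142452485760696463) (c (l 142762616789057679) (c (l 142587450802913423) (a (l 14) (l 142489662964678799))))))))))))), by decide +kernel⟩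

def k7_pm_123_a : ∃ t, chk3 f_pm_123_a t 9 6 1 = true :=
  ⟨(a (b (l 1) (l 16559288)) (b (l 16601816) (l 16639760))), by decide +kernel⟩

def k8_pm_123_a : ∃ t, chk3 f_pm_123_a t 9 14 1 = true :=
  ⟨(a (a (l 16576864) (b (l 16622392) (l 16654152))) (b (l 16676128) (l 16704408))), by decide +kernel⟩

def k9_pm_123_a : ∃ t, chk3 f_pm_123_a t 18 15 1 = true :=
  ⟨(a (b (b (l 16643128) (l 16663208)) (a (b (b (l 16670072) (l 142749903675392143)) (b (a (l 142806872137334927) (l 142885830831767695)) (b (a (l 142701800075608207) (c (l 143182699041669263) (l 142553434688487567))) (a (c (l 143157960027259023) (b (l 142690804915732623) (b (l 142710802288246927) (c (l 142838964141867151) (a (l 142588619031838863) (l 142628064018792591)))))) (a (c (l 143211286351478927) (b (l 142750247274430607) (c (a (l 142879371201364111) (l 142900468085244047)) (a (a (l 142645724927213711) (l 142656032850739343)) (l 142673281443135631))))) (c (l 143249631828213903) (b (l 142794777504972943) (c (l 142931941612683407)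 (c (l 142763647575376015) (a (l 142638784257818767) (l 142661392965255311))))))))))) (a (b (l 142830923954110607) (b (l 142971524037918863) (c (b (l 143259871031541903) (l 143304607422562447)) (b (l 142822127861776527) (b (l 142859098949517455) (b (l 142877653212889231) (c (l 142999561593241743) (b (l 142776291961536655) (b (l 142781033606611087) (a (c (l 142818142132830351) (a (l 142695202960916623) (c (l 142745436909666447) (l 142689430523363471)))) (c (l 142860954376306831) (c (l 142778353546231951) (a (l 142711764358168719) (l 142733960753987727)))))))))))))) (b (l 142916342282354831) (b (l 143052956635988111) (b (l 143121263813312591) (c (l 143375594658807887) (b (l 142942524412821647) (c (l 143073641205645455) (b (l 142852914194628751) (b (l 142862328765284495) (c (l 142922527019516047) (a (a (l 142781858229223567) (l 142803573599338639)) (l 142835871760433295)))))))))))))) (a (b (l 16680896) (b (b (l 16705880) (l 143080856747360335)) (b (l 142987467000741967) (a (b (l 143196923974434895)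 (c (l 143444589029670991) (b (l 143023682132803727) (a (c (l 143132190212948111) (l 142922183442497679)) (l 143067662565343375))))) (c (l 143490287491792975) (b (l 143067319009083535) (c (l 143215615675941007) (l 143012274695700623)))))))) (b (l 16698336) (b (l 143187990434611279) (b (l 143312235280564303) (c (b (l 143566497408663631) (l 143608210141872335)) (c (l 143302889430057103) (a (l 143067937483161743) (l 143145590508552335))))))))), by decide +kernel⟩

def k10_pm_123_a : ∃ t, chk3 f_pm_123_a t 19 15 1 = true :=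
  ⟨(a (b (l 16722488) (b (b (l 16745592) (l 143433525181628495)) (b (a (l 143268598443442255) (l 143397516210307151)) (c (a (l 143710189868237007) (l 143825776054370511)) (c (a (l 143442939754315855) (l 143575224775606479)) (b (l 143308043385389135) (a (l 143281242785235087) (c (l 143467472608182479) (l 143379649094795407))))))))) (b (l 16751088) (b (b (l 16772760) (l 16781928)) (c (a (l 143896694569074895) (l 143999773807018191)) (b (l 143598245798264911) (b (c (l 143739464359149775) (l 143580172569788623)) (c (l 143780902213697743) (a (l 143558663370637519) (l 143686412903841999))))))))), by decide +kernel⟩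

def k11_pm_123_a : ∃ t, chk3 f_pm_123_a t 5 1 1 = true :=
  ⟨(b (a (b (l 16650344) (a (l 16637400) (l 16689680))) (b (l 16730944) (a (l 16729080) (l 16756176)))) (b (a (b (a (l 16667192) (l 16716360)) (a (l 16699936) (l 16746456))) (b (a (l 16754112) (l 16779504)) (a (l 16780992) (l 16806640)))) (a (b (a (a (l 16732744) (l 16756784)) (b (l 16774784) (l 16798136))) (b (a (a (l 16775944) (l 16797208)) (b (l 16817584) (l 16831704))) (a (b (c (a (l 16820280) (l 16839224)) (a (l 143719398256558287) (l 16802168))) (c (b (a (l 16833064) (l 16851456)) (a (l 144179543998267663) (a (l 144316295785218319) (l 16864464)))) (b (a (l 143834984444068047) (a (l 143999086586937551) (l 16819944))) (a (a (b (l 143838214262292687) (a (l 143850789930549455) (l 143907552229671119))) (c (l 144036676157538575) (b (l 143881851132854479) (l 143923907462332623)))) (a (b (l 144059147423547663) (a (l 144073372359524623) (c (l 144189577023619343) (l 144067599915286799)))) (b (a (l 144144153431605519) (l 144210880053461263))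 (l 144229159438795023))))))) (b (a (l 16838720) (l 16855480)) (a (c (l 144560249962365263) (b (l 16834128) (a (l 144337323909841167) (l 144464592399171855)))) (b (l 16867576) (a (l 144687037396123983) (l 16879648)))))))) (b (a (b (l 16807528) (l 16829896)) (l 16862768)) (a (b (c (l 16870248) (l 16839896)) (b (a (l 16869840) (l 16881328)) (c (l 16905120) (a (l 16870176) (l 16881024))))) (b (l 16874808) (b (l 16891744) (a (l 16901296) (l 16904288))))))))), by decide +kernel⟩

def k12_pm_123_a : ∃ t, chk3 f_pm_123_a t 3 1 1 = true :=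
  ⟨(a (b (b (a (l 16768760) (l 16784208)) (a (a (l 16774888) (l 16787616)) (a (l 16794512) (l 16794640)))) (b (a (b (l 16804680) (a (l 16822808) (l 16832272))) (a (b (l 16813728) (l 16830704)) (b (l 16809096) (l 16823160)))) (b (a (a (l 16855744) (l 16857200)) (a (l 16851600) (l 16861520))) (a (b (a (l 16881432) (l 16877816)) (a (b (l 16894296) (l 16903072)) (b (l 16888496) (l 16916040)))) (a (b (l 16868168) (b (l 16878464) (l 16912392))) (b (l 16858464) (a (l 16874944) (l 16870072)))))))) (a (b (a (l 16829520) (b (l 16776952) (l 16781864))) (b (b (l 16796384) (a (l 16812856) (l 16802880))) (b (a (l 16894160) (l 16820296)) (b (a (l 16848040) (a (l 16838680) (l 16830512))) (a (a (l 16864592) (l 16857984)) (a (b (l 16846848) (l 16851912)) (b (l 16837120) (l 16840872)))))))) (b (a (a (b (l 16774168) (l 16774608)) (b (l 16773280) (b (l 16773712) (l 16772448)))) (a (b (l 379802933671) (a (l 16777240) (l 16772736))) (a (b (l 4) (l 16892568)) (l 4)))) (a (b (b (a (l 16782688) (l 16774232)) (l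 16790928)) (b (a (l 16808992) (l 16800032)) (b (l 16815064) (b (l 16819224) (a (l 16828256) (b (l 16814016) (l 16814848))))))) (a (b (a (b (l 16773576) (l 16781272)) (b (l 16774432) (a (l 16778008) (l 16774880)))) (b (l 16789664) (b (l 16795992) (b (l 16777576) (b (l 16799552) (a (l 16803848) (l 16796352))))))) (b (b (a (l 16773992) (l 4)) (a (a (l 16774824) (l 16776744)) (a (l 16773840) (l 4)))) (b (b (a (a (l 16779904) (l 16776072)) (a (b (l 16776064) (l 16818216)) (a (l 16775112) (l 4)))) (a (l 16782312) (a (a (l 16798024) (l 6)) (l 6)))) (a (a (a (b (l 16788216) (b (l 16790360) (l 16791408))) (l 6)) (l 6)) (l 6))))))))), by decide +kernel⟩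

theorem s13_pm_123_a : ∃ t, chk3 f_pm_123_a t 9 15 1 = true := ex3_a k9_pm_123_a k10_pm_123_a

theorem s14_pm_123_a : ∃ t, chk3 f_pm_123_a t 9 7 1 = true := ex3_b k8_pm_123_a s13_pm_123_a

theorem s15_pm_123_a : ∃ t, chk3 f_pm_123_a t 9 3 1 = true := ex3_b k7_pm_123_a s14_pm_123_a

theorem s16_pm_123_a : ∃ t, chk3 f_pm_123_a t 16 31 1 = true := ex3_a k4_pm_123_a k5_pm_123_a

theorem s17_pm_123_a : ∃ t, chk3 f_pm_123_a t 8 31 1 = true := ex3_a s16_pm_123_a k6_pm_123_a

theorem s18_pm_123_a : ∃ t, chk3 f_pm_123_a t 8 15 1 = true := ex3_b k3_pm_123_a s17_pm_123_a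

theorem s19_pm_123_a : ∃ t, chk3 f_pm_123_a t 8 7 1 = true := ex3_b k2_pm_123_a s18_pm_123_a

theorem s20_pm_123_a : ∃ t, chk3 f_pm_123_a t 8 3 1 = true := ex3_b k1_pm_123_a s19_pm_123_a

theorem s21_pm_123_a : ∃ t, chk3 f_pm_123_a t 4 3 1 = true := ex3_a s20_pm_123_a s15_pm_123_a

theorem s22_pm_123_a : ∃ t, chk3 f_pm_123_a t 4 1 1 = true := ex3_b k0_pm_123_a s21_pm_123_a

theorem s23_pm_123_a : ∃ t, chk3 f_pm_123_a t 2 1 1 = true := ex3_a s22_pm_123_a k11_pm_123_a

theorem s24_pm_123_a : ∃ t, chk3 f_pm_123_a t 1 1 1 = true := ex3_a s23_pm_123_a k12_pm_123_a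

theorem c_pm_123_a : CertB 536870912 536870912 0 536870912 536870912 50465866 3 eng mog cd0q1 cd3q2a pd3 true true false .npn 1 2 3
    ndB0q1 ndB3q2a pcB3 cut_pm_123_a xt_pm_123_a :=
  certB2 (fam := true) (s1 := true) (s2 := false) (a := 1) (b := 2) (c := 3) (cn := .npn) (n1 := ndB0q1) (n2 := ndB3q2a) (pc := pcB3) (cut := cut_pm_123_a) (xt := xt_pm_123_a) (P1 := 536870912) (W1 := 536870912) (P2 := 0) (W2 := 536870912) (P3 := 536870912) (W3 := 50465866) (N0 := 3) (En := eng) (mo := mog) (C1 := cd0q1) (C2 := cd3q2a) (C3 := pd3)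
    rfl (fun _ => rfl) s24_pm_123_a

noncomputable def cut_pm_123_b : Cut := Cut.of [[⟨0, 1, 0, 67108864⟩, ⟨1, 1, 0, 67108864⟩, ⟨2, 2, 0, 16777216⟩], [⟨0, 0, 1, 20971520⟩, ⟨1, 1, 0, 33554432⟩, ⟨2, 1, 1, 20971520⟩]]

noncomputable def f_pm_123_b : ℕ → ℕ → ℕ → ℕ → Bool := onCell 536870912 536870912 1610612736 536870912 536870912 50465866
    (rowB 3 eng mog cd0q1 cd3q2b pd3 1 true true false .npn 1 2 3 (qsf 536870912 536870912 1239849684 370763052 3) ndB0q1 ndB3q2b pcB3 cut_pm_123_b Ext.none)

def k0_pm_123_b : ∃ t, chk3 f_pm_123_b t 1 1 1 = true :=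
  ⟨(a (b (b (l 1) (a (b (a (l 260952618823) (l 1)) (a (l 16811696) (l 290480666695))) (l 1))) (b (a (b (a (l 16730232) (l 16747152)) (a (b (l 16762632) (l 16799288)) (b (l 16750040) (l 16769888)))) (b (a (a (l 16779272) (l 317861546951)) (l 1)) (a (b (l 16769320) (l 16761344)) (l 278669781959)))) (b (a (a (b (l 16838328) (l 16848408)) (b (l 16802800) (l 16803520))) (a (b (l 16775824) (l 16783616)) (b (l 16876264) (l 16883840)))) (b (a (l 4) (a (l 16762584) (l 16773864))) (l 4))))) (a (b (l 1) (b (l 1) (b (a (b (l 421477362295) (a (l 16858576) (l 378527940119))) (l 1)) (b (a (b (l 341483789239) (l 16841408)) (b (l 1) (a (l 16865296) (l 1)))) (b (a (l 4) (a (b (l 16787448) (l 4)) (l 1))) (l 4)))))) (l 1))), by decide +kernel⟩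

theorem c_pm_123_b : CertB 536870912 536870912 1239849684 370763052 536870912 50465866 3 eng mog cd0q1 cd3q2b pd3 true true false .npn 1 2 3
    ndB0q1 ndB3q2b pcB3 cut_pm_123_b Ext.none :=
  certB1 (fam := true) (s1 := true) (s2 := false) (a := 1) (b := 2) (c := 3) (cn := .npn) (n1 := ndB0q1) (n2 := ndB3q2b) (pc := pcB3) (cut := cut_pm_123_b) (xt := Ext.none) (P1 := 536870912) (W1 := 536870912) (P2 := 1239849684) (W2 := 370763052) (P3 := 536870912) (W3 := 50465866) (N0 := 3) (En := eng) (mo := mog) (C1 := cd0q1) (C2 := cd3q2b) (C3 := pd3)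
    rfl (fun _ => rfl) k0_pm_123_b

noncomputable def f_pm_133 : ℕ → ℕ → ℕ → ℕ → Bool := onCell 536870912 536870912 1610612736 536870912 536870912 50465866
    (rowB 3 eng mog cd0q1 cd3q3 pd3 0 true true false .dn 1 3 3 (qsf 536870912 536870912 1610612736 536870912 3) ndB0q1 ndB3q3 pcB3 Cut.none Ext.none)

def k0_pm_133 : ∃ t, chk3 f_pm_133 t 1 1 1 = true :=
  ⟨(a (l 4) (l 2)), by decide +kernel⟩

theorem c_pm_133 : CertB 536870912 536870912 1610612736 536870912 536870912 50465866 3 eng mog cd0q1 cd3q3 pd3 true true false .dn 1 3 3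
    ndB0q1 ndB3q3 pcB3 Cut.none Ext.none :=
  certB0 (fam := true) (s1 := true) (s2 := false) (a := 1) (b := 3) (c := 3) (cn := .dn) (n1 := ndB0q1) (n2 := ndB3q3) (pc := pcB3) (cut := Cut.none) (xt := Ext.none) (P1 := 536870912) (W1 := 536870912) (P2 := 1610612736) (W2 := 536870912) (P3 := 536870912) (W3 := 50465866) (N0 := 3) (En := eng) (mo := mog) (C1 := cd0q1) (C2 := cd3q3) (C3 := pd3)
    rfl k0_pm_133

noncomputable def cut_pm_202 : Cut := Cut.of [[⟨0, 1, 0, 67108864⟩, ⟨1, 0, 0, 67108864⟩, ⟨2, 1, 0, 67108864⟩]]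

noncomputable def f_pm_202 : ℕ → ℕ → ℕ → ℕ → Bool := onCell 0 536870912 0 536870912 536870912 50465866
    (rowB 3 eng mog cd0q2 cd3q0 pd2 0 true true false .pp 2 0 2 (qsf 0 536870912 0 536870912 2) ndB0q2 ndB3q0 pcB2 cut_pm_202 Ext.none)

def k0_pm_202 : ∃ t, chk3 f_pm_202 t 2 1 1 = true :=
  ⟨(b (b (a (b (b (a (b (b (l 16476576) (l 16461296)) (l 16478616)) (b (b (l 16485656) (l 16469664)) (l 16496392))) (a (l 16461240) (l 16486504))) (a (b (l 16528016) (l 16600272)) (l 16455616))) (b (b (a (b (b (l 16546272) (l 16529560)) (a (l 16487800) (l 16498456))) (a (b (l 16587104) (l 16510360)) (b (b (b (l 16628432) (l 16521104)) (l 16519120)) (b (l 16522032) (l 16525552))))) (a (b (l 16478048) (l 16504944)) (b (a (l 16516304) (b (l 16529104) (l 16531728))) (a (l 16520680) (l 16534336))))) (a (b (l 16516520) (l 16537064)) (b (a (l 16529376) (l 16541136)) (l 16550400))))) (a (b (a (l 16752136) (b (l 16564784) (l 16585296))) (a (l 16632672) (l 16615712))) (b (a (l 16698024) (l 16723552)) (a (l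 16688840) (l 16603064))))) (b (b (a (a (l 16687504) (l 16668328)) (a (l 16649944) (l 16701816))) (a (a (l 16784880) (l 16779088)) (a (l 16766184) (l 16748528)))) (a (l 2) (b (a (l 2) (l 16881776)) (l 2))))), by decide +kernel⟩

def k1_pm_202 : ∃ t, chk3 f_pm_202 t 6 4 1 = true :=
  ⟨(b (b (a (a (b (b (a (l 16632016) (b (l 16549488) (l 16547064))) (l 16537776)) (b (l 16537888) (l 16540544))) (b (b (a (b (l 16560392) (l 16557968)) (b (l 16571656) (l 16569208))) (l 16559736)) (l 16598960))) (a (b (b (b (a (l 16583392) (l 16595696)) (c (l 16587464) (l 16586048))) (l 16583000)) (l 16599656)) (b (b (b (a (l 16608656) (l 16622424)) (a (l 16605992) (l 16619648))) (l 16608544)) (l 16624560)))) (a (b (a (b (a (b (l 16539104) (l 16540936)) (l 16547584)) (a (l 16543448) (c (l 16705176) (l 16544736)))) (b (l 16559752) (a (a (b (l 16555824) (l 16662424)) (l 16560424)) (l 16566432)))) (a (b (l 16549744) (l 16551264)) (b (a (b (l 16603168) (l 16563040)) (a (l 16693200) (l 16571296))) (l 16736136)))) (b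 (a (l 16579344) (l 16600960)) (a (b (l 16581672) (a (l 16726824) (l 16588024))) (l 16600952))))) (a (b (a (l 16555496) (b (l 16570744) (l 16573616))) (l 16573304)) (b (a (b (b (b (l 16753872) (l 16587440)) (l 16588984)) (l 16590832)) (b (a (b (l 16598400) (l 16600760)) (b (l 16607040) (l 16671136))) (a (l 16603376) (l 16611296)))) (a (l 16595296) (l 16611264))))), by decide +kernel⟩

def k2_pm_202 : ∃ t, chk3 f_pm_202 t 7 4 1 = true :=
  ⟨(b (a (b (a (b (b (b (a (l 16637048) (a (l 16648536) (l 16656496))) (l 16668128)) (l 16679272)) (l 16673200)) (b (b (b (l 6) (a (l 16665832) (l 6))) (b (l 16692224) (l 16668352))) (b (l 16685264) (l 16701296)))) (b (a (l 16625488) (l 16673960)) (a (l 16622200) (l 16646568)))) (b (a (a (b (l 6) (l 16686440)) (l 6)) (l 6)) (a (b (a (l 16675544) (l 16691648)) (l 16674208)) (a (b (l 16708504) (l 16696928)) (b (l 6) (l 16713144)))))) (a (b (a (b (l 16621424) (b (a (l 16659992) (l 16626920)) (a (l 16620224) (l 16648624)))) (b (l 16642576) (l 16641080))) (b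 (a (l 16688936) (b (a (l 16679032) (l 16646160)) (a (l 16638984) (l 16709336)))) (a (l 16628376) (l 16770368)))) (b (a (b (l 16667096) (l 16662472)) (b (l 16695016) (l 16687352))) (a (b (l 16660400) (a (b (l 16697640) (l 16657560)) (l 16665232))) (b (l 16682272) (l 16679888)))))), by decide +kernel⟩

def k3_pm_202 : ∃ t, chk3 f_pm_202 t 3 5 1 = true :=
  ⟨(a (b (a (b (l 16587296) (l 16595336)) (b (l 16611536) (l 16614680))) (a (l 16606336) (l 16617936))) (b (a (b (a (l 16632720) (l 16647776)) (l 16640728)) (b (a (b (a (l 16659400) (l 16688504)) (l 16665472)) (b (a (b (l 16675504) (l 16676368)) (l 16684960)) (a (l 16678632) (b (l 16748976) (l 16688016))))) (l 16819616))) (a (l 16638064) (b (l 16670272) (l 16668224))))), by decide +kernel⟩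

def k4_pm_202 : ∃ t, chk3 f_pm_202 t 3 3 1 = true :=
  ⟨(b (a (b (a (l 16637464) (l 16637912)) (a (b (l 16702616) (l 16767080)) (l 16729144))) (b (a (l 16647216) (b (l 16666352) (l 16671128))) (a (l 16727800) (l 16736960)))) (b (a (a (l 16875248) (b (l 16830968) (l 16902888))) (a (b (l 16828520) (l 16902752)) (l 16875320))) (a (l 2) (a (l 17203320) (b (l 17002424) (l 17093080)))))), by decide +kernel⟩

theorem s5_pm_202 : ∃ t, chk3 f_pm_202 t 3 4 1 = true := ex3_a k1_pm_202 k2_pm_202

theorem s6_pm_202 : ∃ t, chk3 f_pm_202 t 3 2 1 = true := ex3_b s5_pm_202 k3_pm_202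

theorem s7_pm_202 : ∃ t, chk3 f_pm_202 t 3 1 1 = true := ex3_b s6_pm_202 k4_pm_202

theorem s8_pm_202 : ∃ t, chk3 f_pm_202 t 1 1 1 = true := ex3_a k0_pm_202 s7_pm_202

theorem c_pm_202 : CertB 0 536870912 0 536870912 536870912 50465866 3 eng mog cd0q2 cd3q0 pd2 true true false .pp 2 0 2
    ndB0q2 ndB3q0 pcB2 cut_pm_202 Ext.none :=
  certB0 (fam := true) (s1 := true) (s2 := false) (a := 2) (b := 0) (c := 2) (cn := .pp) (n1 := ndB0q2) (n2 := ndB3q0) (pc := pcB2) (cut := cut_pm_202) (xt := Ext.none) (P1 := 0) (W1 := 536870912) (P2 := 0) (W2 := 536870912) (P3 := 536870912) (W3 := 50465866) (N0 := 3) (En := eng) (mo := mog) (C1 := cd0q2) (C2 := cd3q0) (C3 := pd2)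
    rfl s8_pm_202

noncomputable def f_pm_203 : ℕ → ℕ → ℕ → ℕ → Bool := onCell 0 536870912 1610612736 536870912 536870912 50465866
    (rowB 3 eng mog cd0q2 cd3q0 pd3 1 true true false .up 2 0 3 (qsf 0 536870912 0 536870912 3) ndB0q2 ndB3q0 pcB3 Cut.none Ext.none)

def k0_pm_203 : ∃ t, chk3 f_pm_203 t 1 1 1 = true :=
  ⟨(b (b (a (a (b (b (l 16815720) (l 4)) (l 4)) (b (l 16968112) (l 16922976))) (b (a (l 16921400) (l 17105032)) (a (l 17017888) (l 17129072)))) (a (l 4) (a (l 2) (l 2)))) (l 2)), by decide +kernel⟩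

theorem c_pm_203 : CertB 0 536870912 0 536870912 536870912 50465866 3 eng mog cd0q2 cd3q0 pd3 true true false .up 2 0 3
    ndB0q2 ndB3q0 pcB3 Cut.none Ext.none :=
  certB1 (fam := true) (s1 := true) (s2 := false) (a := 2) (b := 0) (c := 3) (cn := .up) (n1 := ndB0q2) (n2 := ndB3q0) (pc := pcB3) (cut := Cut.none) (xt := Ext.none) (P1 := 0) (W1 := 536870912) (P2 := 0) (W2 := 536870912) (P3 := 536870912) (W3 := 50465866) (N0 := 3) (En := eng) (mo := mog) (C1 := cd0q2) (C2 := cd3q0) (C3 := pd3)
    rfl (fun _ => rfl) k0_pm_203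

noncomputable def f_pm_213 : ℕ → ℕ → ℕ → ℕ → Bool := onCell 0 536870912 1610612736 536870912 536870912 50465866
    (rowB 3 eng mog cd0q2 cd3q1 pd3 1 true true false .pnn 2 1 3 (qsf 0 536870912 536870912 536870912 3) ndB0q2 ndB3q1 pcB3 Cut.none Ext.none)

def k0_pm_213 : ∃ t, chk3 f_pm_213 t 1 1 1 = true :=
  ⟨(a (b (b (a (l 1) (b (l 1) (l 16882672))) (l 4)) (l 4)) (b (b (b (a (l 1) (l 17110080)) (a (l 17033360) (l 17064024))) (b (a (l 16894144) (l 17042496)) (a (l 4) (b (l 16853664) (l 16829840))))) (b (b (a (l 4) (l 16805568)) (l 4)) (l 4)))), by decide +kernel⟩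

theorem c_pm_213 : CertB 0 536870912 536870912 536870912 536870912 50465866 3 eng mog cd0q2 cd3q1 pd3 true true false .pnn 2 1 3
    ndB0q2 ndB3q1 pcB3 Cut.none Ext.none :=
  certB1 (fam := true) (s1 := true) (s2 := false) (a := 2) (b := 1) (c := 3) (cn := .pnn) (n1 := ndB0q2) (n2 := ndB3q1) (pc := pcB3) (cut := Cut.none) (xt := Ext.none) (P1 := 0) (W1 := 536870912) (P2 := 536870912) (W2 := 536870912) (P3 := 536870912) (W3 := 50465866) (N0 := 3) (En := eng) (mo := mog) (C1 := cd0q2) (C2 := cd3q1) (C3 := pd3)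
    rfl (fun _ => rfl) k0_pm_213

noncomputable def f_mm_001 : ℕ → ℕ → ℕ → ℕ → Bool := onCell 0 536870912 0 536870912 536870912 50465866
    (rowB 3 eng mog cd0q0 cd3q0 pd1 0 true false false .up 0 0 1 (qsf 0 536870912 0 536870912 1) ndB0q0 ndB3q0 pcB1 Cut.none Ext.none)

def k0_mm_001 : ∃ t, chk3 f_mm_001 t 1 1 1 = true :=
  ⟨(l 4), by decide +kernel⟩

theorem c_mm_001 : CertB 0 536870912 0 536870912 536870912 50465866 3 eng mog cd0q0 cd3q0 pd1 true false false .up 0 0 1
    ndB0q0 ndB3q0 pcB1 Cut.none Ext.none :=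
  certB0 (fam := true) (s1 := false) (s2 := false) (a := 0) (b := 0) (c := 1) (cn := .up) (n1 := ndB0q0) (n2 := ndB3q0) (pc := pcB1) (cut := Cut.none) (xt := Ext.none) (P1 := 0) (W1 := 536870912) (P2 := 0) (W2 := 536870912) (P3 := 536870912) (W3 := 50465866) (N0 := 3) (En := eng) (mo := mog) (C1 := cd0q0) (C2 := cd3q0) (C3 := pd1)
    rfl k0_mm_001

noncomputable def f_mm_011 : ℕ → ℕ → ℕ → ℕ → Bool := onCell 0 536870912 536870912 536870912 536870912 50465866
    (rowB 3 eng mog cd0q0 cd3q1 pd1 0 true false false .pnn 0 1 1 (qsf 0 536870912 536870912 536870912 1) ndB0q0 ndB3q1 pcB1 Cut.none Ext.none)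

def k0_mm_011 : ∃ t, chk3 f_mm_011 t 1 1 1 = true :=
  ⟨(l 4), by decide +kernel⟩

theorem c_mm_011 : CertB 0 536870912 536870912 536870912 536870912 50465866 3 eng mog cd0q0 cd3q1 pd1 true false false .pnn 0 1 1
    ndB0q0 ndB3q1 pcB1 Cut.none Ext.none :=
  certB0 (fam := true) (s1 := false) (s2 := false) (a := 0) (b := 1) (c := 1) (cn := .pnn) (n1 := ndB0q0) (n2 := ndB3q1) (pc := pcB1) (cut := Cut.none) (xt := Ext.none) (P1 := 0) (W1 := 536870912) (P2 := 536870912) (W2 := 536870912) (P3 := 536870912) (W3 := 50465866) (N0 := 3) (En := eng) (mo := mog) (C1 := cd0q0) (C2 := cd3q1) (C3 := pd1)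
    rfl k0_mm_011

noncomputable def f_mm_012 : ℕ → ℕ → ℕ → ℕ → Bool := onCell 0 536870912 536870912 536870912 536870912 50465866
    (rowB 3 eng mog cd0q0 cd3q1 pd2 0 true false false .pnp 0 1 2 (qsf 0 536870912 536870912 536870912 2) ndB0q0 ndB3q1 pcB2 Cut.none Ext.none)

def k0_mm_012 : ∃ t, chk3 f_mm_012 t 1 1 1 = true :=
  ⟨(l 4), by decide +kernel⟩

theorem c_mm_012 : CertB 0 536870912 536870912 536870912 536870912 50465866 3 eng mog cd0q0 cd3q1 pd2 true false false .pnp 0 1 2
    ndB0q0 ndB3q1 pcB2 Cut.none Ext.none :=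
  certB0 (fam := true) (s1 := false) (s2 := false) (a := 0) (b := 1) (c := 2) (cn := .pnp) (n1 := ndB0q0) (n2 := ndB3q1) (pc := pcB2) (cut := Cut.none) (xt := Ext.none) (P1 := 0) (W1 := 536870912) (P2 := 536870912) (W2 := 536870912) (P3 := 536870912) (W3 := 50465866) (N0 := 3) (En := eng) (mo := mog) (C1 := cd0q0) (C2 := cd3q1) (C3 := pd2)
    rfl k0_mm_012

noncomputable def f_mm_022_a : ℕ → ℕ → ℕ → ℕ → Bool := onCell 0 536870912 0 536870912 536870912 50465866
    (rowB 3 eng mog cd0q0 cd3q2a pd2 0 true false false .pp 0 2 2 (qsf 0 536870912 0 536870912 2) ndB0q0 ndB3q2a pcB2 Cut.none Ext.none)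

def k0_mm_022_a : ∃ t, chk3 f_mm_022_a t 1 1 1 = true :=
  ⟨(l 5), by decide +kernel⟩

theorem c_mm_022_a : CertB 0 536870912 0 536870912 536870912 50465866 3 eng mog cd0q0 cd3q2a pd2 true false false .pp 0 2 2
    ndB0q0 ndB3q2a pcB2 Cut.none Ext.none :=
  certB0 (fam := true) (s1 := false) (s2 := false) (a := 0) (b := 2) (c := 2) (cn := .pp) (n1 := ndB0q0) (n2 := ndB3q2a) (pc := pcB2) (cut := Cut.none) (xt := Ext.none) (P1 := 0) (W1 := 536870912) (P2 := 0) (W2 := 536870912) (P3 := 536870912) (W3 := 50465866) (N0 := 3) (En := eng) (mo := mog) (C1 := cd0q0) (C2 := cd3q2a) (C3 := pd2)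
    rfl k0_mm_022_a

noncomputable def f_mm_022_b : ℕ → ℕ → ℕ → ℕ → Bool := onCell 0 536870912 1239849684 370763052 536870912 50465866
    (rowB 3 eng mog cd0q0 cd3q2b pd2 0 true false false .pp 0 2 2 (qsf 0 536870912 1239849684 370763052 2) ndB0q0 ndB3q2b pcB2 Cut.none Ext.none)

def k0_mm_022_b : ∃ t, chk3 f_mm_022_b t 1 1 1 = true :=
  ⟨(l 5), by decide +kernel⟩

theorem c_mm_022_b : CertB 0 536870912 1239849684 370763052 536870912 50465866 3 eng mog cd0q0 cd3q2b pd2 true false false .pp 0 2 2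
    ndB0q0 ndB3q2b pcB2 Cut.none Ext.none :=
  certB0 (fam := true) (s1 := false) (s2 := false) (a := 0) (b := 2) (c := 2) (cn := .pp) (n1 := ndB0q0) (n2 := ndB3q2b) (pc := pcB2) (cut := Cut.none) (xt := Ext.none) (P1 := 0) (W1 := 536870912) (P2 := 1239849684) (W2 := 370763052) (P3 := 536870912) (W3 := 50465866) (N0 := 3) (En := eng) (mo := mog) (C1 := cd0q0) (C2 := cd3q2b) (C3 := pd2)
    rfl k0_mm_022_b

noncomputable def f_mm_023_a : ℕ → ℕ → ℕ → ℕ → Bool := onCell 0 536870912 0 536870912 536870912 50465866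
    (rowB 3 eng mog cd0q0 cd3q2a pd3 0 true false false .up 0 2 3 (qsf 0 536870912 0 536870912 3) ndB0q0 ndB3q2a pcB3 Cut.none Ext.none)

def k0_mm_023_a : ∃ t, chk3 f_mm_023_a t 1 1 1 = true :=
  ⟨(l 5), by decide +kernel⟩

theorem c_mm_023_a : CertB 0 536870912 0 536870912 536870912 50465866 3 eng mog cd0q0 cd3q2a pd3 true false false .up 0 2 3
    ndB0q0 ndB3q2a pcB3 Cut.none Ext.none :=
  certB0 (fam := true) (s1 := false) (s2 := false) (a := 0) (b := 2) (c := 3) (cn := .up) (n1 := ndB0q0) (n2 := ndB3q2a) (pc := pcB3) (cut := Cut.none) (xt := Ext.none) (P1 := 0) (W1 := 536870912) (P2 := 0) (W2 := 536870912) (P3 := 536870912) (W3 := 50465866) (N0 := 3) (En := eng) (mo := mog) (C1 := cd0q0) (C2 := cd3q2a) (C3 := pd3)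
    rfl k0_mm_023_a

noncomputable def f_mm_023_b : ℕ → ℕ → ℕ → ℕ → Bool := onCell 0 536870912 1239849684 370763052 536870912 50465866
    (rowB 3 eng mog cd0q0 cd3q2b pd3 0 true false false .up 0 2 3 (qsf 0 536870912 1239849684 370763052 3) ndB0q0 ndB3q2b pcB3 Cut.none Ext.none)

def k0_mm_023_b : ∃ t, chk3 f_mm_023_b t 1 1 1 = true :=
  ⟨(l 5), by decide +kernel⟩

theorem c_mm_023_b : CertB 0 536870912 1239849684 370763052 536870912 50465866 3 eng mog cd0q0 cd3q2b pd3 true false false .up 0 2 3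
    ndB0q0 ndB3q2b pcB3 Cut.none Ext.none :=
  certB0 (fam := true) (s1 := false) (s2 := false) (a := 0) (b := 2) (c := 3) (cn := .up) (n1 := ndB0q0) (n2 := ndB3q2b) (pc := pcB3) (cut := Cut.none) (xt := Ext.none) (P1 := 0) (W1 := 536870912) (P2 := 1239849684) (W2 := 370763052) (P3 := 536870912) (W3 := 50465866) (N0 := 3) (En := eng) (mo := mog) (C1 := cd0q0) (C2 := cd3q2b) (C3 := pd3)
    rfl k0_mm_023_b

noncomputable def f_mm_033 : ℕ → ℕ → ℕ → ℕ → Bool := onCell 0 536870912 1610612736 536870912 536870912 50465866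
    (rowB 3 eng mog cd0q0 cd3q3 pd3 0 true false false .pnn 0 3 3 (qsf 0 536870912 1610612736 536870912 3) ndB0q0 ndB3q3 pcB3 Cut.none Ext.none)

def k0_mm_033 : ∃ t, chk3 f_mm_033 t 1 1 1 = true :=
  ⟨(l 4), by decide +kernel⟩

theorem c_mm_033 : CertB 0 536870912 1610612736 536870912 536870912 50465866 3 eng mog cd0q0 cd3q3 pd3 true false false .pnn 0 3 3
    ndB0q0 ndB3q3 pcB3 Cut.none Ext.none :=
  certB0 (fam := true) (s1 := false) (s2 := false) (a := 0) (b := 3) (c := 3) (cn := .pnn) (n1 := ndB0q0) (n2 := ndB3q3) (pc := pcB3) (cut := Cut.none) (xt := Ext.none) (P1 := 0) (W1 := 536870912) (P2 := 1610612736) (W2 := 536870912) (P3 := 536870912) (W3 := 50465866) (N0 := 3) (En := eng) (mo := mog) (C1 := cd0q0) (C2 := cd3q3) (C3 := pd3)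
    rfl k0_mm_033

noncomputable def cut_mm_101 : Cut := Cut.of [[⟨0, 1, 0, 67108864⟩, ⟨1, 0, 0, 67108864⟩, ⟨2, 1, 0, 67108864⟩]]

noncomputable def f_mm_101 : ℕ → ℕ → ℕ → ℕ → Bool := onCell 536870912 536870912 0 536870912 536870912 50465866
    (rowB 3 eng mog cd0q1 cd3q0 pd1 0 true false false .npn 1 0 1 (qsf 536870912 536870912 0 536870912 1) ndB0q1 ndB3q0 pcB1 cut_mm_101 Ext.none)

def k0_mm_101 : ∃ t, chk3 f_mm_101 t 1 1 1 = true :=
  ⟨(a (l 4) (b (a (l 4) (b (a (l 4) (a (l 4) (b (b (l 6) (l 4)) (l 2)))) (l 4))) (l 4))), by decide +kernel⟩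

theorem c_mm_101 : CertB 536870912 536870912 0 536870912 536870912 50465866 3 eng mog cd0q1 cd3q0 pd1 true false false .npn 1 0 1
    ndB0q1 ndB3q0 pcB1 cut_mm_101 Ext.none :=
  certB0 (fam := true) (s1 := false) (s2 := false) (a := 1) (b := 0) (c := 1) (cn := .npn) (n1 := ndB0q1) (n2 := ndB3q0) (pc := pcB1) (cut := cut_mm_101) (xt := Ext.none) (P1 := 536870912) (W1 := 536870912) (P2 := 0) (W2 := 536870912) (P3 := 536870912) (W3 := 50465866) (N0 := 3) (En := eng) (mo := mog) (C1 := cd0q1) (C2 := cd3q0) (C3 := pd1)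
    rfl k0_mm_101

noncomputable def cut_mm_102 : Cut := Cut.of [[⟨0, 1, 0, 67108864⟩, ⟨1, 0, 0, 67108864⟩, ⟨2, 1, 0, 67108864⟩]]

noncomputable def f_mm_102 : ℕ → ℕ → ℕ → ℕ → Bool := onCell 536870912 536870912 0 536870912 536870912 50465866
    (rowB 3 eng mog cd0q1 cd3q0 pd2 0 true false false .npp 1 0 2 (qsf 536870912 536870912 0 536870912 2) ndB0q1 ndB3q0 pcB2 cut_mm_102 Ext.none)

def k0_mm_102 : ∃ t, chk3 f_mm_102 t 1 1 1 = true :=
  ⟨(a (l 4) (b (a (l 4) (b (a (l 4) (a (l 4) (b (b (l 6) (l 4)) (l 4)))) (l 4))) (l 4))), by decide +kernel⟩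

theorem c_mm_102 : CertB 536870912 536870912 0 536870912 536870912 50465866 3 eng mog cd0q1 cd3q0 pd2 true false false .npp 1 0 2
    ndB0q1 ndB3q0 pcB2 cut_mm_102 Ext.none :=
  certB0 (fam := true) (s1 := false) (s2 := false) (a := 1) (b := 0) (c := 2) (cn := .npp) (n1 := ndB0q1) (n2 := ndB3q0) (pc := pcB2) (cut := cut_mm_102) (xt := Ext.none) (P1 := 536870912) (W1 := 536870912) (P2 := 0) (W2 := 536870912) (P3 := 536870912) (W3 := 50465866) (N0 := 3) (En := eng) (mo := mog) (C1 := cd0q1) (C2 := cd3q0) (C3 := pd2)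
    rfl k0_mm_102

noncomputable def f_mm_112 : ℕ → ℕ → ℕ → ℕ → Bool := onCell 536870912 536870912 536870912 536870912 536870912 50465866
    (rowB 3 eng mog cd0q1 cd3q1 pd2 0 true false false .dn 1 1 2 (qsf 536870912 536870912 536870912 536870912 2) ndB0q1 ndB3q1 pcB2 Cut.none Ext.none)

def k0_mm_112 : ∃ t, chk3 f_mm_112 t 1 1 1 = true :=
  ⟨(l 4), by decide +kernel⟩

theorem c_mm_112 : CertB 536870912 536870912 536870912 536870912 536870912 50465866 3 eng mog cd0q1 cd3q1 pd2 true false false .dn 1 1 2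
    ndB0q1 ndB3q1 pcB2 Cut.none Ext.none :=
  certB0 (fam := true) (s1 := false) (s2 := false) (a := 1) (b := 1) (c := 2) (cn := .dn) (n1 := ndB0q1) (n2 := ndB3q1) (pc := pcB2) (cut := Cut.none) (xt := Ext.none) (P1 := 536870912) (W1 := 536870912) (P2 := 536870912) (W2 := 536870912) (P3 := 536870912) (W3 := 50465866) (N0 := 3) (En := eng) (mo := mog) (C1 := cd0q1) (C2 := cd3q1) (C3 := pd2)
    rfl k0_mm_112

noncomputable def f_mm_113 : ℕ → ℕ → ℕ → ℕ → Bool := onCell 536870912 536870912 536870912 536870912 536870912 50465866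
    (rowB 3 eng mog cd0q1 cd3q1 pd3 0 true false false .nn 1 1 3 (qsf 536870912 536870912 536870912 536870912 3) ndB0q1 ndB3q1 pcB3 Cut.none Ext.none)

def k0_mm_113 : ∃ t, chk3 f_mm_113 t 1 1 1 = true :=
  ⟨(l 4), by decide +kernel⟩

theorem c_mm_113 : CertB 536870912 536870912 536870912 536870912 536870912 50465866 3 eng mog cd0q1 cd3q1 pd3 true false false .nn 1 1 3
    ndB0q1 ndB3q1 pcB3 Cut.none Ext.none :=
  certB0 (fam := true) (s1 := false) (s2 := false) (a := 1) (b := 1) (c := 3) (cn := .nn) (n1 := ndB0q1) (n2 := ndB3q1) (pc := pcB3) (cut := Cut.none) (xt := Ext.none) (P1 := 536870912) (W1 := 536870912) (P2 := 536870912) (W2 := 536870912) (P3 := 536870912) (W3 := 50465866) (N0 := 3) (En := eng) (mo := mog) (C1 := cd0q1) (C2 := cd3q1) (C3 := pd3)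
    rfl k0_mm_113

noncomputable def f_mm_123_a : ℕ → ℕ → ℕ → ℕ → Bool := onCell 536870912 536870912 0 536870912 536870912 50465866
    (rowB 3 eng mog cd0q1 cd3q2a pd3 0 true false false .npn 1 2 3 (qsf 536870912 536870912 0 536870912 3) ndB0q1 ndB3q2a pcB3 Cut.none Ext.none)

def k0_mm_123_a : ∃ t, chk3 f_mm_123_a t 1 1 1 = true :=
  ⟨(l 4), by decide +kernel⟩

theorem c_mm_123_a : CertB 536870912 536870912 0 536870912 536870912 50465866 3 eng mog cd0q1 cd3q2a pd3 true false false .npn 1 2 3
    ndB0q1 ndB3q2a pcB3 Cut.none Ext.none :=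
  certB0 (fam := true) (s1 := false) (s2 := false) (a := 1) (b := 2) (c := 3) (cn := .npn) (n1 := ndB0q1) (n2 := ndB3q2a) (pc := pcB3) (cut := Cut.none) (xt := Ext.none) (P1 := 536870912) (W1 := 536870912) (P2 := 0) (W2 := 536870912) (P3 := 536870912) (W3 := 50465866) (N0 := 3) (En := eng) (mo := mog) (C1 := cd0q1) (C2 := cd3q2a) (C3 := pd3)
    rfl k0_mm_123_a

noncomputable def f_mm_123_b : ℕ → ℕ → ℕ → ℕ → Bool := onCell 536870912 536870912 1239849684 370763052 536870912 50465866
    (rowB 3 eng mog cd0q1 cd3q2b pd3 0 true false false .npn 1 2 3 (qsf 536870912 536870912 1239849684 370763052 3) ndB0q1 ndB3q2b pcB3 Cut.none Ext.none)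

def k0_mm_123_b : ∃ t, chk3 f_mm_123_b t 1 1 1 = true :=
  ⟨(l 4), by decide +kernel⟩

theorem c_mm_123_b : CertB 536870912 536870912 1239849684 370763052 536870912 50465866 3 eng mog cd0q1 cd3q2b pd3 true false false .npn 1 2 3
    ndB0q1 ndB3q2b pcB3 Cut.none Ext.none :=
  certB0 (fam := true) (s1 := false) (s2 := false) (a := 1) (b := 2) (c := 3) (cn := .npn) (n1 := ndB0q1) (n2 := ndB3q2b) (pc := pcB3) (cut := Cut.none) (xt := Ext.none) (P1 := 536870912) (W1 := 536870912) (P2 := 1239849684) (W2 := 370763052) (P3 := 536870912) (W3 := 50465866) (N0 := 3) (En := eng) (mo := mog) (C1 := cd0q1) (C2 := cd3q2b) (C3 := pd3)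
    rfl k0_mm_123_b

noncomputable def f_mm_133 : ℕ → ℕ → ℕ → ℕ → Bool := onCell 536870912 536870912 1610612736 536870912 536870912 50465866
    (rowB 3 eng mog cd0q1 cd3q3 pd3 0 true false false .dn 1 3 3 (qsf 536870912 536870912 1610612736 536870912 3) ndB0q1 ndB3q3 pcB3 Cut.none Ext.none)

def k0_mm_133 : ∃ t, chk3 f_mm_133 t 1 1 1 = true :=
  ⟨(l 4), by decide +kernel⟩

theorem c_mm_133 : CertB 536870912 536870912 1610612736 536870912 536870912 50465866 3 eng mog cd0q1 cd3q3 pd3 true false false .dn 1 3 3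
    ndB0q1 ndB3q3 pcB3 Cut.none Ext.none :=
  certB0 (fam := true) (s1 := false) (s2 := false) (a := 1) (b := 3) (c := 3) (cn := .dn) (n1 := ndB0q1) (n2 := ndB3q3) (pc := pcB3) (cut := Cut.none) (xt := Ext.none) (P1 := 536870912) (W1 := 536870912) (P2 := 1610612736) (W2 := 536870912) (P3 := 536870912) (W3 := 50465866) (N0 := 3) (En := eng) (mo := mog) (C1 := cd0q1) (C2 := cd3q3) (C3 := pd3)
    rfl k0_mm_133

noncomputable def cut_mm_202 : Cut := Cut.of [[⟨0, 1, 0, 67108864⟩, ⟨1, 0, 0, 67108864⟩, ⟨2, 1, 0, 67108864⟩]]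

noncomputable def f_mm_202 : ℕ → ℕ → ℕ → ℕ → Bool := onCell 0 536870912 0 536870912 536870912 50465866
    (rowB 3 eng mog cd0q2 cd3q0 pd2 0 true false false .pp 2 0 2 (qsf 0 536870912 0 536870912 2) ndB0q2 ndB3q0 pcB2 cut_mm_202 Ext.none)

def k0_mm_202 : ∃ t, chk3 f_mm_202 t 2 1 1 = true :=
  ⟨(b (b (a (b (b (a (b (a (l 16458320) (l 16461424)) (a (l 16469776) (l 16474480))) (b (b (l 16466016) (l 16495344)) (a (l 16481536) (l 16498576)))) (a (a (l 16486152) (l 16492760)) (b (l 16495488) (l 16512208)))) (a (b (a (l 16513544) (l 16520808)) (l 16551472)) (b (l 16536624) (l 16574264)))) (b (b (a (b (a (l 16544704) (l 16494376)) (l 16526152)) (b (b (a (l 16507872) (l 16524424)) (l 16563720)) (a (l 16526168) (l 16543800)))) (a (l 16508360) (b (a (l 16544792) (l 16562984)) (l 16677528)))) (a (b (l 16564504) (l 16605440)) (b (l 16706600) (l 16644200))))) (a (b (a (l 16688344) (l 16757936)) (a (l 16677032) (l 16679072))) (a (b (b (l 16649000) (l 16678232)) (l 16703144)) (b (b (l 16684312) (l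 4)) (l 4))))) (b (a (b (a (l 16701784) (l 4)) (l 4)) (l 4)) (l 4))), by decide +kernel⟩

def k1_mm_202 : ∃ t, chk3 f_mm_202 t 3 1 1 = true :=
  ⟨(b (b (a (b (a (a (b (b (b (b (l 16584952) (l 16544840)) (l 16550192)) (l 16563664)) (b (l 16582888) (l 16602960))) (b (b (b (b (a (l 16559384) (b (l 16570744) (l 16571928))) (l 16588584)) (l 16572336)) (l 16585792)) (b (l 16605040) (l 16625400)))) (b (b (b (a (a (b (b (l 16593808) (l 16584624)) (l 16586536)) (b (b (a (l 16593144) (l 16599904)) (l 16597960)) (l 16600056))) (b (b (b (a (a (l 16606424) (l 16613448)) (a (l 16620608) (l 16627896))) (a (l 16610736) (l 16625112))) (a (l 16611896) (l 16626360))) (a (l 16614184) (l 16628824)))) (a (l 16618168) (a (l 16618584) (l 16633592)))) (a (l 16610456) (b (l 16633584) (l 16642808)))) (a (b (l 16629728) (l 16650152)) (b (a (l 16650024) (l 16664648)) (l 16677504))))) (a (b (b (l 16823568) (l 16655608)) (l 16831936)) (b (b (a (l 16670880) (l 16696960)) (a (l 16690440) (l 4))) (l 4)))) (b (a (b (b (b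 (a (b (a (b (a (c (l 16637344) (l 16634216)) (c (l 16644960) (l 16641816))) (l 16641376)) (b (a (l 16651160) (l 6)) (l 16657032))) (a (l 16644008) (l 16659816))) (b (l 6) (a (l 16676352) (l 6)))) (a (a (l 16649096) (l 16665208)) (a (l 16682008) (l 16699608)))) (a (b (l 16664720) (l 16673816)) (b (l 16699000) (l 16707800)))) (b (a (l 16667072) (b (l 16800600) (l 16725568))) (a (l 16748856) (l 4)))) (b (a (b (l 6) (b (l 6) (a (l 16734744) (l 4)))) (l 6)) (l 4))) (l 4))) (a (l 4) (l 4))) (l 4)), by decide +kernel⟩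

theorem s2_mm_202 : ∃ t, chk3 f_mm_202 t 1 1 1 = true := ex3_a k0_mm_202 k1_mm_202

theorem c_mm_202 : CertB 0 536870912 0 536870912 536870912 50465866 3 eng mog cd0q2 cd3q0 pd2 true false false .pp 2 0 2
    ndB0q2 ndB3q0 pcB2 cut_mm_202 Ext.none :=
  certB0 (fam := true) (s1 := false) (s2 := false) (a := 2) (b := 0) (c := 2) (cn := .pp) (n1 := ndB0q2) (n2 := ndB3q0) (pc := pcB2) (cut := cut_mm_202) (xt := Ext.none) (P1 := 0) (W1 := 536870912) (P2 := 0) (W2 := 536870912) (P3 := 536870912) (W3 := 50465866) (N0 := 3) (En := eng) (mo := mog) (C1 := cd0q2) (C2 := cd3q0) (C3 := pd2)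
    rfl s2_mm_202

noncomputable def f_mm_203 : ℕ → ℕ → ℕ → ℕ → Bool := onCell 0 536870912 1610612736 536870912 536870912 50465866
    (rowB 3 eng mog cd0q2 cd3q0 pd3 1 true false false .up 2 0 3 (qsf 0 536870912 0 536870912 3) ndB0q2 ndB3q0 pcB3 Cut.none Ext.none)

def k0_mm_203 : ∃ t, chk3 f_mm_203 t 1 1 1 = true :=
  ⟨(b (l 4) (l 2)), by decide +kernel⟩

theorem c_mm_203 : CertB 0 536870912 0 536870912 536870912 50465866 3 eng mog cd0q2 cd3q0 pd3 true false false .up 2 0 3
    ndB0q2 ndB3q0 pcB3 Cut.none Ext.none :=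
  certB1 (fam := true) (s1 := false) (s2 := false) (a := 2) (b := 0) (c := 3) (cn := .up) (n1 := ndB0q2) (n2 := ndB3q0) (pc := pcB3) (cut := Cut.none) (xt := Ext.none) (P1 := 0) (W1 := 536870912) (P2 := 0) (W2 := 536870912) (P3 := 536870912) (W3 := 50465866) (N0 := 3) (En := eng) (mo := mog) (C1 := cd0q2) (C2 := cd3q0) (C3 := pd3)
    rfl (fun _ => rfl) k0_mm_203

noncomputable def f_mm_213 : ℕ → ℕ → ℕ → ℕ → Bool := onCell 0 536870912 536870912 536870912 536870912 50465866
    (rowB 3 eng mog cd0q2 cd3q1 pd3 0 true false false .pnn 2 1 3 (qsf 0 536870912 536870912 536870912 3) ndB0q2 ndB3q1 pcB3 Cut.none Ext.none)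

def k0_mm_213 : ∃ t, chk3 f_mm_213 t 1 1 1 = true :=
  ⟨(l 4), by decide +kernel⟩

theorem c_mm_213 : CertB 0 536870912 536870912 536870912 536870912 50465866 3 eng mog cd0q2 cd3q1 pd3 true false false .pnn 2 1 3
    ndB0q2 ndB3q1 pcB3 Cut.none Ext.none :=
  certB0 (fam := true) (s1 := false) (s2 := false) (a := 2) (b := 1) (c := 3) (cn := .pnn) (n1 := ndB0q2) (n2 := ndB3q1) (pc := pcB3) (cut := Cut.none) (xt := Ext.none) (P1 := 0) (W1 := 536870912) (P2 := 536870912) (W2 := 536870912) (P3 := 536870912) (W3 := 50465866) (N0 := 3) (En := eng) (mo := mog) (C1 := cd0q2) (C2 := cd3q1) (C3 := pd3)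
    rfl k0_mm_213

end Pool.Agent.Strip051.G.I5000_5470.Tab.C.BA03

namespace Pool.Agent.Strip051.G.I5000_5470.Tab.C.BA04

open Pool.Agent.Strip051.PB Pool.Agent.Strip051.PB.T
open Pool.Agent.Strip051.G.I5000_5470.Tab

noncomputable def f_pp_001 : ℕ → ℕ → ℕ → ℕ → Bool := onCell 0 536870912 0 536870912 536870912 50465866
    (rowB 3 eng mog cd0q0 cd4q0 pd1 0 true true true .up 0 0 1 (qsf 0 536870912 0 536870912 1) ndB0q0 ndB4q0 pcB1 Cut.none Ext.none)

def k0_pp_001 : ∃ t, chk3 f_pp_001 t 1 1 1 = true :=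
  ⟨(l 4), by decide +kernel⟩

theorem c_pp_001 : CertB 0 536870912 0 536870912 536870912 50465866 3 eng mog cd0q0 cd4q0 pd1 true true true .up 0 0 1
    ndB0q0 ndB4q0 pcB1 Cut.none Ext.none :=
  certB0 (fam := true) (s1 := true) (s2 := true) (a := 0) (b := 0) (c := 1) (cn := .up) (n1 := ndB0q0) (n2 := ndB4q0) (pc := pcB1) (cut := Cut.none) (xt := Ext.none) (P1 := 0) (W1 := 536870912) (P2 := 0) (W2 := 536870912) (P3 := 536870912) (W3 := 50465866) (N0 := 3) (En := eng) (mo := mog) (C1 := cd0q0) (C2 := cd4q0) (C3 := pd1)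
    rfl k0_pp_001

noncomputable def f_pp_011 : ℕ → ℕ → ℕ → ℕ → Bool := onCell 0 536870912 536870912 536870912 536870912 50465866
    (rowB 3 eng mog cd0q0 cd4q1 pd1 0 true true true .pnn 0 1 1 (qsf 0 536870912 536870912 536870912 1) ndB0q0 ndB4q1 pcB1 Cut.none Ext.none)

def k0_pp_011 : ∃ t, chk3 f_pp_011 t 1 1 1 = true :=
  ⟨(l 4), by decide +kernel⟩

theorem c_pp_011 : CertB 0 536870912 536870912 536870912 536870912 50465866 3 eng mog cd0q0 cd4q1 pd1 true true true .pnn 0 1 1
    ndB0q0 ndB4q1 pcB1 Cut.none Ext.none :=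
  certB0 (fam := true) (s1 := true) (s2 := true) (a := 0) (b := 1) (c := 1) (cn := .pnn) (n1 := ndB0q0) (n2 := ndB4q1) (pc := pcB1) (cut := Cut.none) (xt := Ext.none) (P1 := 0) (W1 := 536870912) (P2 := 536870912) (W2 := 536870912) (P3 := 536870912) (W3 := 50465866) (N0 := 3) (En := eng) (mo := mog) (C1 := cd0q0) (C2 := cd4q1) (C3 := pd1)
    rfl k0_pp_011

noncomputable def f_pp_012 : ℕ → ℕ → ℕ → ℕ → Bool := onCell 0 536870912 536870912 536870912 536870912 50465866
    (rowB 3 eng mog cd0q0 cd4q1 pd2 0 true true true .pnp 0 1 2 (qsf 0 536870912 536870912 536870912 2) ndB0q0 ndB4q1 pcB2 Cut.none Ext.none)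

def k0_pp_012 : ∃ t, chk3 f_pp_012 t 1 1 1 = true :=
  ⟨(l 4), by decide +kernel⟩

theorem c_pp_012 : CertB 0 536870912 536870912 536870912 536870912 50465866 3 eng mog cd0q0 cd4q1 pd2 true true true .pnp 0 1 2
    ndB0q0 ndB4q1 pcB2 Cut.none Ext.none :=
  certB0 (fam := true) (s1 := true) (s2 := true) (a := 0) (b := 1) (c := 2) (cn := .pnp) (n1 := ndB0q0) (n2 := ndB4q1) (pc := pcB2) (cut := Cut.none) (xt := Ext.none) (P1 := 0) (W1 := 536870912) (P2 := 536870912) (W2 := 536870912) (P3 := 536870912) (W3 := 50465866) (N0 := 3) (En := eng) (mo := mog) (C1 := cd0q0) (C2 := cd4q1) (C3 := pd2)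
    rfl k0_pp_012

noncomputable def f_pp_022 : ℕ → ℕ → ℕ → ℕ → Bool := onCell 0 536870912 1073741824 536870912 536870912 50465866
    (rowB 3 eng mog cd0q0 cd4q2 pd2 0 true true true .pp 0 2 2 (qsf 0 536870912 1073741824 536870912 2) ndB0q0 ndB4q2 pcB2 Cut.none Ext.none)

def k0_pp_022 : ∃ t, chk3 f_pp_022 t 1 1 1 = true :=
  ⟨(l 4), by decide +kernel⟩

theorem c_pp_022 : CertB 0 536870912 1073741824 536870912 536870912 50465866 3 eng mog cd0q0 cd4q2 pd2 true true true .pp 0 2 2
    ndB0q0 ndB4q2 pcB2 Cut.none Ext.none :=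
  certB0 (fam := true) (s1 := true) (s2 := true) (a := 0) (b := 2) (c := 2) (cn := .pp) (n1 := ndB0q0) (n2 := ndB4q2) (pc := pcB2) (cut := Cut.none) (xt := Ext.none) (P1 := 0) (W1 := 536870912) (P2 := 1073741824) (W2 := 536870912) (P3 := 536870912) (W3 := 50465866) (N0 := 3) (En := eng) (mo := mog) (C1 := cd0q0) (C2 := cd4q2) (C3 := pd2)
    rfl k0_pp_022

noncomputable def f_pp_023 : ℕ → ℕ → ℕ → ℕ → Bool := onCell 0 536870912 1073741824 536870912 536870912 50465866
    (rowB 3 eng mog cd0q0 cd4q2 pd3 0 true true true .up 0 2 3 (qsf 0 536870912 1073741824 536870912 3) ndB0q0 ndB4q2 pcB3 Cut.none Ext.none)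

def k0_pp_023 : ∃ t, chk3 f_pp_023 t 1 1 1 = true :=
  ⟨(l 4), by decide +kernel⟩

theorem c_pp_023 : CertB 0 536870912 1073741824 536870912 536870912 50465866 3 eng mog cd0q0 cd4q2 pd3 true true true .up 0 2 3
    ndB0q0 ndB4q2 pcB3 Cut.none Ext.none :=
  certB0 (fam := true) (s1 := true) (s2 := true) (a := 0) (b := 2) (c := 3) (cn := .up) (n1 := ndB0q0) (n2 := ndB4q2) (pc := pcB3) (cut := Cut.none) (xt := Ext.none) (P1 := 0) (W1 := 536870912) (P2 := 1073741824) (W2 := 536870912) (P3 := 536870912) (W3 := 50465866) (N0 := 3) (En := eng) (mo := mog) (C1 := cd0q0) (C2 := cd4q2) (C3 := pd3)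
    rfl k0_pp_023

noncomputable def f_pp_033 : ℕ → ℕ → ℕ → ℕ → Bool := onCell 0 536870912 0 1230186008 536870912 50465866
    (rowB 3 eng mog cd0q0 cd4q3 pd3 0 true true true .pnn 0 3 3 (qsf 0 536870912 0 1230186008 3) ndB0q0 ndB4q3 pcB3 Cut.none Ext.none)

def k0_pp_033 : ∃ t, chk3 f_pp_033 t 1 1 1 = true :=
  ⟨(b (l 4) (l 4)), by decide +kernel⟩

theorem c_pp_033 : CertB 0 536870912 0 1230186008 536870912 50465866 3 eng mog cd0q0 cd4q3 pd3 true true true .pnn 0 3 3
    ndB0q0 ndB4q3 pcB3 Cut.none Ext.none :=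
  certB0 (fam := true) (s1 := true) (s2 := true) (a := 0) (b := 3) (c := 3) (cn := .pnn) (n1 := ndB0q0) (n2 := ndB4q3) (pc := pcB3) (cut := Cut.none) (xt := Ext.none) (P1 := 0) (W1 := 536870912) (P2 := 0) (W2 := 1230186008) (P3 := 536870912) (W3 := 50465866) (N0 := 3) (En := eng) (mo := mog) (C1 := cd0q0) (C2 := cd4q3) (C3 := pd3)
    rfl k0_pp_033

noncomputable def f_pp_101 : ℕ → ℕ → ℕ → ℕ → Bool := onCell 536870912 536870912 0 536870912 536870912 50465866
    (rowB 3 eng mog cd0q1 cd4q0 pd1 0 true true true .npn 1 0 1 (qsf 536870912 536870912 0 536870912 1) ndB0q1 ndB4q0 pcB1 Cut.none Ext.none)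

def k0_pp_101 : ∃ t, chk3 f_pp_101 t 1 1 1 = true :=
  ⟨(l 4), by decide +kernel⟩

theorem c_pp_101 : CertB 536870912 536870912 0 536870912 536870912 50465866 3 eng mog cd0q1 cd4q0 pd1 true true true .npn 1 0 1
    ndB0q1 ndB4q0 pcB1 Cut.none Ext.none :=
  certB0 (fam := true) (s1 := true) (s2 := true) (a := 1) (b := 0) (c := 1) (cn := .npn) (n1 := ndB0q1) (n2 := ndB4q0) (pc := pcB1) (cut := Cut.none) (xt := Ext.none) (P1 := 536870912) (W1 := 536870912) (P2 := 0) (W2 := 536870912) (P3 := 536870912) (W3 := 50465866) (N0 := 3) (En := eng) (mo := mog) (C1 := cd0q1) (C2 := cd4q0) (C3 := pd1)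
    rfl k0_pp_101

noncomputable def f_pp_102 : ℕ → ℕ → ℕ → ℕ → Bool := onCell 536870912 536870912 0 536870912 536870912 50465866
    (rowB 3 eng mog cd0q1 cd4q0 pd2 0 true true true .npp 1 0 2 (qsf 536870912 536870912 0 536870912 2) ndB0q1 ndB4q0 pcB2 Cut.none Ext.none)

def k0_pp_102 : ∃ t, chk3 f_pp_102 t 1 1 1 = true :=
  ⟨(l 4), by decide +kernel⟩

theorem c_pp_102 : CertB 536870912 536870912 0 536870912 536870912 50465866 3 eng mog cd0q1 cd4q0 pd2 true true true .npp 1 0 2
    ndB0q1 ndB4q0 pcB2 Cut.none Ext.none :=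
  certB0 (fam := true) (s1 := true) (s2 := true) (a := 1) (b := 0) (c := 2) (cn := .npp) (n1 := ndB0q1) (n2 := ndB4q0) (pc := pcB2) (cut := Cut.none) (xt := Ext.none) (P1 := 536870912) (W1 := 536870912) (P2 := 0) (W2 := 536870912) (P3 := 536870912) (W3 := 50465866) (N0 := 3) (En := eng) (mo := mog) (C1 := cd0q1) (C2 := cd4q0) (C3 := pd2)
    rfl k0_pp_102

noncomputable def f_pp_112 : ℕ → ℕ → ℕ → ℕ → Bool := onCell 536870912 536870912 536870912 536870912 536870912 50465866
    (rowB 3 eng mog cd0q1 cd4q1 pd2 0 true true true .dn 1 1 2 (qsf 536870912 536870912 536870912 536870912 2) ndB0q1 ndB4q1 pcB2 Cut.none Ext.none)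

def k0_pp_112 : ∃ t, chk3 f_pp_112 t 1 1 1 = true :=
  ⟨(l 4), by decide +kernel⟩

theorem c_pp_112 : CertB 536870912 536870912 536870912 536870912 536870912 50465866 3 eng mog cd0q1 cd4q1 pd2 true true true .dn 1 1 2
    ndB0q1 ndB4q1 pcB2 Cut.none Ext.none :=
  certB0 (fam := true) (s1 := true) (s2 := true) (a := 1) (b := 1) (c := 2) (cn := .dn) (n1 := ndB0q1) (n2 := ndB4q1) (pc := pcB2) (cut := Cut.none) (xt := Ext.none) (P1 := 536870912) (W1 := 536870912) (P2 := 536870912) (W2 := 536870912) (P3 := 536870912) (W3 := 50465866) (N0 := 3) (En := eng) (mo := mog) (C1 := cd0q1) (C2 := cd4q1) (C3 := pd2)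
    rfl k0_pp_112

noncomputable def f_pp_113 : ℕ → ℕ → ℕ → ℕ → Bool := onCell 536870912 536870912 536870912 536870912 536870912 50465866
    (rowB 3 eng mog cd0q1 cd4q1 pd3 0 true true true .nn 1 1 3 (qsf 536870912 536870912 536870912 536870912 3) ndB0q1 ndB4q1 pcB3 Cut.none Ext.none)

def k0_pp_113 : ∃ t, chk3 f_pp_113 t 1 1 1 = true :=
  ⟨(l 4), by decide +kernel⟩

theorem c_pp_113 : CertB 536870912 536870912 536870912 536870912 536870912 50465866 3 eng mog cd0q1 cd4q1 pd3 true true true .nn 1 1 3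
    ndB0q1 ndB4q1 pcB3 Cut.none Ext.none :=
  certB0 (fam := true) (s1 := true) (s2 := true) (a := 1) (b := 1) (c := 3) (cn := .nn) (n1 := ndB0q1) (n2 := ndB4q1) (pc := pcB3) (cut := Cut.none) (xt := Ext.none) (P1 := 536870912) (W1 := 536870912) (P2 := 536870912) (W2 := 536870912) (P3 := 536870912) (W3 := 50465866) (N0 := 3) (En := eng) (mo := mog) (C1 := cd0q1) (C2 := cd4q1) (C3 := pd3)
    rfl k0_pp_113

noncomputable def f_pp_123 : ℕ → ℕ → ℕ → ℕ → Bool := onCell 536870912 536870912 1073741824 536870912 536870912 50465866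
    (rowB 3 eng mog cd0q1 cd4q2 pd3 0 true true true .npn 1 2 3 (qsf 536870912 536870912 1073741824 536870912 3) ndB0q1 ndB4q2 pcB3 Cut.none Ext.none)

def k0_pp_123 : ∃ t, chk3 f_pp_123 t 1 1 1 = true :=
  ⟨(l 4), by decide +kernel⟩

theorem c_pp_123 : CertB 536870912 536870912 1073741824 536870912 536870912 50465866 3 eng mog cd0q1 cd4q2 pd3 true true true .npn 1 2 3
    ndB0q1 ndB4q2 pcB3 Cut.none Ext.none :=
  certB0 (fam := true) (s1 := true) (s2 := true) (a := 1) (b := 2) (c := 3) (cn := .npn) (n1 := ndB0q1) (n2 := ndB4q2) (pc := pcB3) (cut := Cut.none) (xt := Ext.none) (P1 := 536870912) (W1 := 536870912) (P2 := 1073741824) (W2 := 536870912) (P3 := 536870912) (W3 := 50465866) (N0 := 3) (En := eng) (mo := mog) (C1 := cd0q1) (C2 := cd4q2) (C3 := pd3)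
    rfl k0_pp_123

noncomputable def f_pp_133 : ℕ → ℕ → ℕ → ℕ → Bool := onCell 536870912 536870912 0 1230186008 536870912 50465866
    (rowB 3 eng mog cd0q1 cd4q3 pd3 0 true true true .dn 1 3 3 (qsf 536870912 536870912 0 1230186008 3) ndB0q1 ndB4q3 pcB3 Cut.none Ext.none)

def k0_pp_133 : ∃ t, chk3 f_pp_133 t 1 1 1 = true :=
  ⟨(l 4), by decide +kernel⟩

theorem c_pp_133 : CertB 536870912 536870912 0 1230186008 536870912 50465866 3 eng mog cd0q1 cd4q3 pd3 true true true .dn 1 3 3
    ndB0q1 ndB4q3 pcB3 Cut.none Ext.none :=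
  certB0 (fam := true) (s1 := true) (s2 := true) (a := 1) (b := 3) (c := 3) (cn := .dn) (n1 := ndB0q1) (n2 := ndB4q3) (pc := pcB3) (cut := Cut.none) (xt := Ext.none) (P1 := 536870912) (W1 := 536870912) (P2 := 0) (W2 := 1230186008) (P3 := 536870912) (W3 := 50465866) (N0 := 3) (En := eng) (mo := mog) (C1 := cd0q1) (C2 := cd4q3) (C3 := pd3)
    rfl k0_pp_133

noncomputable def f_pp_202 : ℕ → ℕ → ℕ → ℕ → Bool := onCell 0 536870912 0 536870912 536870912 50465866
    (rowB 3 eng mog cd0q2 cd4q0 pd2 0 true true true .pp 2 0 2 (qsf 0 536870912 0 536870912 2) ndB0q2 ndB4q0 pcB2 Cut.none Ext.none)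

def k0_pp_202 : ∃ t, chk3 f_pp_202 t 1 1 1 = true :=
  ⟨(l 5), by decide +kernel⟩

theorem c_pp_202 : CertB 0 536870912 0 536870912 536870912 50465866 3 eng mog cd0q2 cd4q0 pd2 true true true .pp 2 0 2
    ndB0q2 ndB4q0 pcB2 Cut.none Ext.none :=
  certB0 (fam := true) (s1 := true) (s2 := true) (a := 2) (b := 0) (c := 2) (cn := .pp) (n1 := ndB0q2) (n2 := ndB4q0) (pc := pcB2) (cut := Cut.none) (xt := Ext.none) (P1 := 0) (W1 := 536870912) (P2 := 0) (W2 := 536870912) (P3 := 536870912) (W3 := 50465866) (N0 := 3) (En := eng) (mo := mog) (C1 := cd0q2) (C2 := cd4q0) (C3 := pd2)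
    rfl k0_pp_202

noncomputable def f_pp_203 : ℕ → ℕ → ℕ → ℕ → Bool := onCell 0 536870912 0 536870912 536870912 50465866
    (rowB 3 eng mog cd0q2 cd4q0 pd3 0 true true true .up 2 0 3 (qsf 0 536870912 0 536870912 3) ndB0q2 ndB4q0 pcB3 Cut.none Ext.none)

def k0_pp_203 : ∃ t, chk3 f_pp_203 t 1 1 1 = true :=
  ⟨(l 5), by decide +kernel⟩

theorem c_pp_203 : CertB 0 536870912 0 536870912 536870912 50465866 3 eng mog cd0q2 cd4q0 pd3 true true true .up 2 0 3
    ndB0q2 ndB4q0 pcB3 Cut.none Ext.none :=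
  certB0 (fam := true) (s1 := true) (s2 := true) (a := 2) (b := 0) (c := 3) (cn := .up) (n1 := ndB0q2) (n2 := ndB4q0) (pc := pcB3) (cut := Cut.none) (xt := Ext.none) (P1 := 0) (W1 := 536870912) (P2 := 0) (W2 := 536870912) (P3 := 536870912) (W3 := 50465866) (N0 := 3) (En := eng) (mo := mog) (C1 := cd0q2) (C2 := cd4q0) (C3 := pd3)
    rfl k0_pp_203

noncomputable def f_pp_213 : ℕ → ℕ → ℕ → ℕ → Bool := onCell 0 536870912 536870912 536870912 536870912 50465866
    (rowB 3 eng mog cd0q2 cd4q1 pd3 0 true true true .pnn 2 1 3 (qsf 0 536870912 536870912 536870912 3) ndB0q2 ndB4q1 pcB3 Cut.none Ext.none)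

def k0_pp_213 : ∃ t, chk3 f_pp_213 t 1 1 1 = true :=
  ⟨(l 4), by decide +kernel⟩

theorem c_pp_213 : CertB 0 536870912 536870912 536870912 536870912 50465866 3 eng mog cd0q2 cd4q1 pd3 true true true .pnn 2 1 3
    ndB0q2 ndB4q1 pcB3 Cut.none Ext.none :=
  certB0 (fam := true) (s1 := true) (s2 := true) (a := 2) (b := 1) (c := 3) (cn := .pnn) (n1 := ndB0q2) (n2 := ndB4q1) (pc := pcB3) (cut := Cut.none) (xt := Ext.none) (P1 := 0) (W1 := 536870912) (P2 := 536870912) (W2 := 536870912) (P3 := 536870912) (W3 := 50465866) (N0 := 3) (En := eng) (mo := mog) (C1 := cd0q2) (C2 := cd4q1) (C3 := pd3)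
    rfl k0_pp_213

noncomputable def xt_pm_001 : Ext := extD2 3 ⟨7, 3, 3, 10, 1741, 1000, 23, 25, 19, 50, 3, 16⟩ eng cd0q0 cd4q0 pd1 true true false .up 0 0 1 rfl ndB0q0 ndB4q0 pcB1

noncomputable def f_pm_001 : ℕ → ℕ → ℕ → ℕ → Bool := onCell 536870912 536870912 0 536870912 536870912 50465866
    (rowB 3 eng mog cd0q0 cd4q0 pd1 2 true true false .up 0 0 1 (qsf 0 536870912 0 536870912 1) ndB0q0 ndB4q0 pcB1 Cut.none xt_pm_001)

def k0_pm_001 : ∃ t, chk3 f_pm_001 t 2 1 1 = true :=
  ⟨(l 3), by decide +kernel⟩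

def k1_pm_001 : ∃ t, chk3 f_pm_001 t 6 1 1 = true :=
  ⟨(l 3), by decide +kernel⟩

def k2_pm_001 : ∃ t, chk3 f_pm_001 t 7 2 1 = true :=
  ⟨(l 2), by decide +kernel⟩

def k3_pm_001 : ∃ t, chk3 f_pm_001 t 14 3 1 = true :=
  ⟨(a (l 3) (b (l 2) (l 3))), by decide +kernel⟩

def k4_pm_001 : ∃ t, chk3 f_pm_001 t 15 6 1 = true :=
  ⟨(l 2), by decide +kernel⟩

def k5_pm_001 : ∃ t, chk3 f_pm_001 t 15 14 1 = true :=
  ⟨(a (a (a (a (l 3) (l 2)) (l 2)) (l 2)) (l 2)), by decide +kernel⟩

def k6_pm_001 : ∃ t, chk3 f_pm_001 t 30 30 1 = true :=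
  ⟨(a (a (l 3) (b (a (a (l 3) (b (l 2) (a (l 3) (b (l 930872881245827382356000815) (c (l 959887100916750075124842543) (c (l 1027586946814853474169258031) (l 1066272573042363552947503151))))))) (b (l 2) (c (b (l 142707984758636591) (a (l 142694859247747119) (l 142642082763735087))) (b (l 142270722616885295) (a (l 142262819880828975) (l 142199323069399087)))))) (a (b (b (c (l 1221015077953513550308966447) (l 1221015077953139303969210415)) (l 3)) (l 3)) (b (b (c (l 142628682396467247) (l 205517389476705111931371567)) (a (c (l 142616381627203631) (l 142256497702797359)) (l 142337380525637679))) (a (c (b (l 824487409119752384519340079) (l 882515848461211772674719791)) (b (l 853501628790186000727867439) (l 930872881245522886384582703))) (c (c (l 142607379374915631) (l 142382666671865903)) (l 142185716642693167))))))) (a (b (b (l 2) (b (l 2) (b (l 2) (a (l 142325079696965679) (l 2))))) (b (a (b (l 142291613324509231) (l 142245433845710895)) (l 142147852168658991)) (a (c (l 142408299024121903)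 (l 142076521328443439)) (a (l 142076864935313455) (l 142013161964617775))))) (b (l 2) (b (c (l 142224474408665135) (l 141704130415034415)) (c (l 142117959149174831) (l 141707841258749999)))))), by decide +kernel⟩

def k7_pm_001 : ∃ t, chk3 f_pm_001 t 30 31 1 = true :=
  ⟨(b (a (a (l 3) (a (l 3) (b (a (c (b (l 940544287802669374126440495) (l 1056601166485625877429190703)) (b (l 1008244133700859016123908143) (l 1075943979599273233383112751))) (b (b (l 142273402702561327) (l 142273815039164463)) (c (l 142378062473019439) (l 142183792446210095)))) (b (a (c (l 1578857120559128432319823919) (l 1898013536937210283221844015)) (c (l 611716464867354723814817839) (l 142174721472036911))) (a (l 3) (c (c (l 142389401194938415) (l 142301508951556143)) (l 142162420725022767))))))) (b (a (b (c (a (l 142335662540423215) (l 142214303917309999)) (l 142004159741902895)) (a (c (l 142284741399380015) (l 142076658759041071)) (l 142017903650045999))) (c (l 142003060198244399) (l 141709421799555119))) (a (a (b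 (c (l 142245433854918703) (l 142071848392409135)) (c (l 142239936335462447) (l 142060990711496751))) (c (c (l 142200903615922223) (l 142057554755239983)) (l 141926231788601391))) (c (l 141877166137557039) (l 141707016610824239))))) (a (a (l 3) (a (l 3) (a (l 3) (b (b (c (b (l 660073497651926765386530863) (l 679416310765755540777254959)) (l 853501628790076393128460335)) (c (c (l 708430530436544574116069423) (l 805144596005620418781511727)) (l 901858661574645617198514223))) (c (b (c (l 756787563221117096714338351) (l 843830222233273227928961071)) (l 872844441904056763740028975)) (c (l 950215694359253599050514479) (l 142056180340162607))))))) (c (b (a (a (b (l 142232033590853679) (a (l 142255947928289327) (l 142186472521383983))) (c (l 142128198398574639) (l 142041543108083759))) (a (l 141942243446407215) (l 141795939647062063))) (b (a (a (l 142208187920924719) (l 142069374503043119)) (l 141856069197955119)) (a (a (c (l 142241791710314543) (l 142144072584871983)) (l 142055493162434607)) (l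 141844936636989487)))) (a (a (b (c (l 142087928755830831) (l 141991515299037231)) (c (l 142055286994305071) (l 141957224271413295))) (b (l 141904241548263471) (l 141872699299512367))) (b (l 141694784536346671) (l 141667777773305903)))))), by decide +kernel⟩

def k8_pm_001 : ∃ t, chk3 f_pm_001 t 31 15 1 = true :=
  ⟨(b (a (a (b (l 2) (b (l 2) (l 141599195745140783))) (l 2)) (l 2)) (a (a (b (b (l 141495704192712751) (l 141495429349605423)) (c (b (l 141570814590517295) (l 141559682024734767)) (b (l 141402314379739183) (l 141386783769657391)))) (b (b (l 141195056416817199) (l 141193063543439407)) (b (l 141187634695389231) (l 141357509231951919)))) (b (b (l 2) (l 140735048174993455)) (b (l 140730169082183727) (l 140720685783924783))))), by decide +kernel⟩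

theorem s9_pm_001 : ∃ t, chk3 f_pm_001 t 30 15 1 = true := ex3_b k6_pm_001 k7_pm_001

theorem s10_pm_001 : ∃ t, chk3 f_pm_001 t 15 15 1 = true := ex3_a s9_pm_001 k8_pm_001

theorem s11_pm_001 : ∃ t, chk3 f_pm_001 t 15 7 1 = true := ex3_b k5_pm_001 s10_pm_001

theorem s12_pm_001 : ∃ t, chk3 f_pm_001 t 15 3 1 = true := ex3_b k4_pm_001 s11_pm_001

theorem s13_pm_001 : ∃ t, chk3 f_pm_001 t 7 3 1 = true := ex3_a k3_pm_001 s12_pm_001

theorem s14_pm_001 : ∃ t, chk3 f_pm_001 t 7 1 1 = true := ex3_b k2_pm_001 s13_pm_001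

theorem s15_pm_001 : ∃ t, chk3 f_pm_001 t 3 1 1 = true := ex3_a k1_pm_001 s14_pm_001

theorem s16_pm_001 : ∃ t, chk3 f_pm_001 t 1 1 1 = true := ex3_a k0_pm_001 s15_pm_001

theorem c_pm_001 : CertB 0 536870912 0 536870912 536870912 50465866 3 eng mog cd0q0 cd4q0 pd1 true true false .up 0 0 1
    ndB0q0 ndB4q0 pcB1 Cut.none xt_pm_001 :=
  certB2 (fam := true) (s1 := true) (s2 := false) (a := 0) (b := 0) (c := 1) (cn := .up) (n1 := ndB0q0) (n2 := ndB4q0) (pc := pcB1) (cut := Cut.none) (xt := xt_pm_001) (P1 := 0) (W1 := 536870912) (P2 := 0) (W2 := 536870912) (P3 := 536870912) (W3 := 50465866) (N0 := 3) (En := eng) (mo := mog) (C1 := cd0q0) (C2 := cd4q0) (C3 := pd1)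
    rfl (fun _ => rfl) s16_pm_001

noncomputable def cut_pm_011 : Cut := Cut.of [[⟨0, 0, 0, 67108864⟩, ⟨1, 1, 0, 67108864⟩, ⟨2, 1, 0, 67108864⟩]]

noncomputable def xt_pm_011 : Ext := extD2 3 ⟨7, 3, 3, 10, 1741, 1000, 23, 25, 19, 50, 3, 16⟩ eng cd0q0 cd4q1 pd1 true true false .pnn 0 1 1 rfl ndB0q0 ndB4q1 pcB1

noncomputable def f_pm_011 : ℕ → ℕ → ℕ → ℕ → Bool := onCell 536870912 536870912 536870912 536870912 536870912 50465866
    (rowB 3 eng mog cd0q0 cd4q1 pd1 2 true true false .pnn 0 1 1 (qsf 0 536870912 536870912 536870912 1) ndB0q0 ndB4q1 pcB1 cut_pm_011 xt_pm_011)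

def k0_pm_011 : ∃ t, chk3 f_pm_011 t 2 1 1 = true :=
  ⟨(l 3), by decide +kernel⟩

def k1_pm_011 : ∃ t, chk3 f_pm_011 t 6 1 1 = true :=
  ⟨(l 3), by decide +kernel⟩

def k2_pm_011 : ∃ t, chk3 f_pm_011 t 14 1 1 = true :=
  ⟨(b (l 3) (l 3)), by decide +kernel⟩

def k3_pm_011 : ∃ t, chk3 f_pm_011 t 30 1 1 = true :=
  ⟨(b (b (a (b (b (l 3) (l 3)) (l 3)) (b (b (b (b (c (a (b (l 595804757538127197131311) (l 595733852865593882907183)) (l 594618401309886688956975)) (a (b (l 594898849465882329125423) (l 594767269962775589265967)) (l 593786856674688965481007))) (a (c (c (l 595889639339980505801263) (l 595391865354747276698159)) (b (l 594648807272885841945135) (l 594543026721264756711983))) (c (l 594513338957061852652079) (l 593556702109091232408111)))) (b (c (a (b (l 595573162311443220488751) (l 718697490413791326179172911)) (a (l 594731817642039542637103) (l 594167750659914766377519))) (a (b (l 594449063616577719968303) (l 901858661574368196526784559)) (b (l 593416333914737127039535) (l 141506493108256815))))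 (a (c (l 595565956642886581936687) (l 921201474688205149543071791)) (c (l 594472410242686254506543) (l 141514602010132527))))) (b (a (a (c (l 883112745035078896510951983) (b (l 141843768380981295) (l 141844936614248495))) (c (l 595298190469784879211055) (l 921201474688119593784737839))) (c (l 594497774703116902834735) (b (l 141523123229360175) (l 141529789022076975)))) (a (a (l 3) (c (b (l 595254667673090366087727) (l 595198462736340482777647)) (c (l 141761786029064239) (l 141675886666727471)))) (c (c (l 594714523816103187735087) (l 141676848728932399)) (b (l 141532537803604015) (l 141532194207825967)))))) (b (a (a (l 3) (b (c (b (l 595124099281357555130927) (l 1318324160834012927018082863)) (c (l 141739108600021039) (l 1153315232054062424626184239))) (c (l 1192000858281874456827150383) (c (l 141703855503786031) (l 2255855579542834098605785135))))) (b (b (c (l 594381617655163173708335) (l 141527246405976111)) (c (l 594301777912093805339183) (l 141564354923085871))) (a (c (l 594353371071290924556847)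 (b (l 141567447311679535) (l 141555627559993391))) (c (l 593892778820867775095343) (c (l 141478936604327983) (l 16521200)))))) (a (l 3) (b (b (c (l 141601532173434927) (a (c (l 141565110850437167) (l 16538200)) (l 16507048))) (a (c (l 141620430037909551) (l 67813016615)) (c (l 16523952) (l 16506232)))) (c (a (a (l 3) (l 141910288778674223)) (l 141830642885541935)) (a (l 52243763175) (l 16505456)))))))) (a (l 3) (a (l 3) (b (b (b (c (a (l 38821982999) (l 16508104)) (l 39895721159)) (a (l 3) (a (l 16510392) (l 16504112)))) (b (c (c (l 16544632) (l 16546496)) (l 16559136)) (b (l 3) (l 3)))) (l 3))))) (l 3)), by decide +kernel⟩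

def k4_pm_011 : ∃ t, chk3 f_pm_011 t 31 4 1 = true :=
  ⟨(b (b (b (b (a (a (c (l 593428586317132354409007) (l 592712910293147622937135)) (l 592674287422743241839151)) (a (l 16425440) (l 16371176))) (a (c (a (l 593349899424442953814575) (l 592149996368523309208111)) (l 592701810938563326911023)) (a (l 16455000) (l 16379760)))) (b (a (c (a (l 593307671009739031601711) (l 592134573094509022945839)) (a (l 592338063808997798863407) (l 16445760))) (a (l 591315422331881952305711) (l 16388088))) (a (a (l 592854284529027612877359) (l 591747767840378098901551)) (l 591548888993945621013039)))) (b (a (c (a (l 593401345908033032036911) (l 592282147086818572821039)) (a (l 592342099064500506812975) (l 16453960))) (c (l 590560258400361902481967) (l 589706808057358895374895))) (a (a (c (l 593409416362276135805487) (l 141280474706542639)) (c (l 592329705112558787732015) (l 16458408))) (c (l 590664597824497659437615) (l 589748313263685468742191))))) (b (b (a (a (c (l 593340817517702462595631) (l 141282398855479343))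 (c (l 592300882070133255266863) (l 16461160))) (c (l 591459825624920931738159) (l 589763013217996853240367))) (c (a (a (c (l 593403939983067668881967) (l 141383416502157359)) (l 592205477794736316015151)) (l 592178095896357433729583)) (a (a (c (l 141305076288258095) (l 16486152)) (l 16462448)) (l 16463464)))) (a (a (b (c (l 592931818698605566845487) (c (l 16489728) (l 16485656))) (c (l 141852358201409583) (l 16486792))) (b (a (l 16472504) (l 16459512)) (b (l 16464416) (l 16463464)))) (b (a (l 16439792) (l 16413080)) (a (l 16438432) (l 16412792)))))), by decide +kernel⟩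

def k5_pm_011 : ∃ t, chk3 f_pm_011 t 31 5 1 = true :=
  ⟨(b (b (a (a (b (c (l 16488848) (l 16486720)) (c (l 16508632) (l 16488272))) (b (l 16462520) (l 16504576))) (b (a (l 16437352) (l 16411968)) (l 16487520))) (a (b (a (c (l 16519400) (l 16512248)) (l 16506080)) (b (a (c (l 16549264) (l 16502080)) (l 16526008)) (a (a (l 16548216) (l 16532672)) (c (l 16499784) (l 16493408))))) (b (b (l 16467608) (l 16489720)) (a (b (l 16505648) (l 16497048)) (b (l 16464520) (l 16455888)))))) (a (a (b (b (b (c (l 16548752) (l 16522680)) (l 16564600)) (c (l 16562888) (l 16543264))) (b (l 16592160) (c (l 16600720) (l 16591936)))) (b (b (c (l 16543192) (l 16506008)) (l 16561120)) (b (l 16560584) (l 16575560)))) (b (a (b (c (l 16492064) (l 16485456)) (l 16504416)) (b (l 16510408) (l 16505528))) (b (a (l 16519584) (l 16520720)) (l 16561056))))), by decide +kernel⟩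

def k6_pm_011 : ∃ t, chk3 f_pm_011 t 62 3 1 = true :=
  ⟨(b (a (b (b (b (b (l 322826829831) (l 3)) (l 3)) (l 3)) (l 3)) (a (b (b (b (l 16581616) (b (l 16618448) (l 16607848))) (a (l 3) (b (l 72108163495) (l 16649336)))) (l 3)) (b (b (b (l 16567920) (a (l 16592432) (l 16585616))) (b (b (l 16604408) (l 16614424)) (b (l 16624120) (l 16633448)))) (b (b (a (l 16660632) (l 16664552)) (b (l 16659704) (l 16678544))) (l 3))))) (l 3)), by decide +kernel⟩

def k7_pm_011 : ∃ t, chk3 f_pm_011 t 63 3 1 = true :=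
  ⟨(b (b (b (b (l 16591408) (a (l 16589616) (l 16543512))) (a (b (b (l 16584088) (l 16636136)) (a (a (l 16618840) (l 16612128)) (l 16623128))) (b (l 16562280) (a (l 16609816) (l 16575552))))) (a (a (b (b (l 16644256) (b (l 16646736) (l 16655160))) (b (b (l 16663648) (l 16672000)) (b (l 16701168) (l 24863688967)))) (b (b (l 16620688) (l 16659064)) (b (l 16676096) (b (l 16667544) (l 16675648))))) (b (b (c (l 16643776) (l 16621152)) (b (l 16614400) (l 16623040))) (b (a (l 16642384) (l 16629648)) (a (l 16659016) (l 16646416)))))) (b (b (a (b (a (b (c (l 74792697591) (l 16705120)) (l 3)) (b (l 16704608) (c (l 16703568) (l 16689992)))) (a (l 3) (b (c (a (l 42580447959) (l 16697768)) (l 42580444423)) (c (a (l 63518427879) (l 16716016)) (a (l 16719424) (l 16702672)))))) (b (a (c (l 16697592) (l 16673568)) (l 16683584)) (a (b (l 16707928) (c (l 16696208) (l 16693368))) (b (l 16674512) (l 16682392))))) (a (b (a (l 3) (a (l 3) (b (b (l 47412296119) (a (l 16725936) (l 16712328))) (c (b (l 41506730535)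 (l 40432995799)) (l 46338572727))))) (l 3)) (b (a (a (b (l 16716216) (b (l 16711600) (l 16726008))) (b (l 16699536) (l 16717864))) (b (l 16711216) (c (l 16699336) (l 16696840)))) (a (a (b (c (b (l 16731112) (c (l 41506741207) (l 16723952))) (l 42580479959)) (b (a (l 44727973687) (l 44727967783)) (c (a (l 3) (l 45264846199)) (l 46875462103)))) (b (c (l 16716392) (l 16714072)) (c (c (l 16732560) (l 16723664)) (l 16722080)))) (a (b (l 16709064) (l 16727448)) (c (l 16718416) (l 16716208))))))) (b (a (l 3) (b (b (b (b (a (a (a (l 3) (l 49022946199)) (l 16733336)) (l 16729328)) (l 6)) (l 6)) (l 6)) (l 6))) (l 6)))), by decide +kernel⟩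

theorem s8_pm_011 : ∃ t, chk3 f_pm_011 t 31 3 1 = true := ex3_a k6_pm_011 k7_pm_011

theorem s9_pm_011 : ∃ t, chk3 f_pm_011 t 31 2 1 = true := ex3_b k4_pm_011 k5_pm_011

theorem s10_pm_011 : ∃ t, chk3 f_pm_011 t 31 1 1 = true := ex3_b s9_pm_011 s8_pm_011

theorem s11_pm_011 : ∃ t, chk3 f_pm_011 t 15 1 1 = true := ex3_a k3_pm_011 s10_pm_011

theorem s12_pm_011 : ∃ t, chk3 f_pm_011 t 7 1 1 = true := ex3_a k2_pm_011 s11_pm_011

theorem s13_pm_011 : ∃ t, chk3 f_pm_011 t 3 1 1 = true := ex3_a k1_pm_011 s12_pm_011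

theorem s14_pm_011 : ∃ t, chk3 f_pm_011 t 1 1 1 = true := ex3_a k0_pm_011 s13_pm_011

theorem c_pm_011 : CertB 0 536870912 536870912 536870912 536870912 50465866 3 eng mog cd0q0 cd4q1 pd1 true true false .pnn 0 1 1
    ndB0q0 ndB4q1 pcB1 cut_pm_011 xt_pm_011 :=
  certB2 (fam := true) (s1 := true) (s2 := false) (a := 0) (b := 1) (c := 1) (cn := .pnn) (n1 := ndB0q0) (n2 := ndB4q1) (pc := pcB1) (cut := cut_pm_011) (xt := xt_pm_011) (P1 := 0) (W1 := 536870912) (P2 := 536870912) (W2 := 536870912) (P3 := 536870912) (W3 := 50465866) (N0 := 3) (En := eng) (mo := mog) (C1 := cd0q0) (C2 := cd4q1) (C3 := pd1)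
    rfl (fun _ => rfl) s14_pm_011

end Pool.Agent.Strip051.G.I5000_5470.Tab.C.BA04

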