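import Pool.Agent.Strip051.G.I5000_5470.Tab
import Pool.Agent.Strip051.PB.ExtD2

/-! # Certificates B7 (generated) -/

set_option linter.all false
set_option maxRecDepth 100000

namespace Pool.Agent.Strip051.G.I5000_5470.Tab.C.BA04

open Pool.Agent.Strip051.PB Pool.Agent.Strip051.PB.T
open Pool.Agent.Strip051.G.I5000_5470.Tab

noncomputable def cut_pm_012 : Cut := Cut.of [[⟨0, 0, 0, 67108864⟩, ⟨1, 1, 0, 67108864⟩, ⟨2, 1, 0, 67108864⟩]]

noncomputable def f_pm_012 : ℕ → ℕ → ℕ → ℕ → Bool := onCell 1073741824 536870912 536870912 536870912 536870912 50465866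
    (rowB 3 eng mog cd0q0 cd4q1 pd2 2 true true false .pnp 0 1 2 (qsf 0 536870912 536870912 536870912 2) ndB0q0 ndB4q1 pcB2 cut_pm_012 Ext.none)

def k0_pm_012 : ∃ t, chk3 f_pm_012 t 2 4 1 = true :=
  ⟨(a (b (a (b (a (b (a (b (l 16365840) (l 16374520)) (l 16290400)) (a (a (b (l 16355464) (l 16361032)) (l 16329096)) (l 16305672))) (b (l 2) (l 16276688))) (a (a (a (b (l 16367632) (l 16375032)) (l 16385264)) (l 16362688)) (b (l 16265928) (l 16296464)))) (b (l 2) (a (l 16183472) (l 2)))) (a (a (a (b (a (b (l 16380256) (l 16384016)) (l 16377352)) (b (c (l 16397056) (l 16370720)) (l 16437648))) (b (l 16357000) (l 16386104))) (b (c (l 16328272) (l 16310704)) (c (l 16320672) (l 16304024)))) (a (b (l 16215184) (a (l 16220152) (l 16216720))) (b (l 16225592) (b (l 16205616) (l 16219472)))))) (b (l 2) (a (a (a (b (l 2) (l 16207408)) (l 2)) (l 2)) (l 2)))), by decide +kernel⟩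

def k1_pm_012 : ∃ t, chk3 f_pm_012 t 2 5 1 = true :=
  ⟨(a (a (b (a (a (b (b (l 16437392) (l 16437368)) (b (l 16424832) (a (l 16473232) (l 16449744)))) (b (l 16387624) (b (l 16363760) (c (l 16412496) (l 16385152))))) (b (a (l 16332008) (l 16254032)) (a (a (l 16444304) (l 16406704)) (b (l 16314560) (l 16339424))))) (a (b (b (a (c (l 16479472) (l 16451760)) (l 16406832)) (a (c (l 16496192) (l 16469088)) (l 16444560))) (a (a (l 16502952) (l 16510152)) (a (l 16475256) (l 16439928)))) (b (a (b (l 16380792) (l 16396616)) (l 16383952)) (a (b (l 16412224) (l 16426984)) (l 16413936))))) (b (a (b (a (l 16283376) (l 16251816)) (a (l 16411928) (l 16330744))) (b (a (l 16243344) (l 16235920)) (b (l 16260472) (l 16357688)))) (a (a (b (l 16338800) (l 16366656)) (b (l 16316080) (l 16341112))) (b (a (l 16295272) (l 16276912)) (a (l 16317160) (l 16295096)))))) (a (b (a (a (b (l 16229360) (l 16270752)) (a (b (l 16225768) (l 16242840)) (b (l 16355224) (a (l 16240552) (l 16243096)))))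 (b (l 16234864) (a (l 16240736) (l 16251592)))) (a (a (b (l 16261416) (l 16275144)) (a (b (l 16251720) (l 16261816)) (a (l 16251288) (b (l 16249712) (l 16257208))))) (b (l 16248496) (l 16249584)))) (b (a (b (l 2) (l 16271344)) (l 2)) (a (b (l 16265200) (l 16259280)) (l 16281864))))), by decide +kernel⟩

def k2_pm_012 : ∃ t, chk3 f_pm_012 t 8 6 1 = true :=
  ⟨(b (a (a (b (c (l 16548568) (l 16545432)) (b (l 16569024) (c (l 16605224) (l 16605872)))) (b (b (l 16468960) (l 16503736)) (l 16529304))) (a (b (l 16489568) (l 16535936)) (b (l 16419840) (l 16444256)))) (a (a (a (b (b (a (l 16602080) (l 16568528)) (c (l 16635920) (l 16634120))) (b (b (l 16606416) (l 16615136)) (a (l 16633792) (l 16621896)))) (b (b (l 16549320) (l 16568160)) (b (l 16586384) (a (l 16609880) (l 16597752))))) (b (l 16588296) (a (l 16570504) (l 16550288)))) (b (a (a (l 16547552) (l 16489984)) (l 16487688)) (a (l 16554624) (l 16551568))))), by decide +kernel⟩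

def k3_pm_012 : ∃ t, chk3 f_pm_012 t 8 7 1 = true :=
  ⟨(b (a (a (a (b (a (b (l 16650144) (l 16687088)) (b (l 16638376) (l 16654424))) (a (b (a (l 16705792) (l 16679000)) (a (c (l 16712256) (l 16699456)) (l 16694792))) (b (l 16670240) (l 16696504)))) (b (b (l 16641512) (l 16678664)) (a (b (l 16658496) (l 16695232)) (b (l 16646664) (l 16683408))))) (b (a (l 16636112) (l 16601968)) (a (b (l 16628768) (l 16644552)) (l 16644632)))) (b (a (l 16592840) (c (l 16555608) (l 16532152))) (a (b (l 16573224) (l 16609304)) (b (l 16553192) (l 16566776))))) (a (b (b (a (a (a (a (b (l 16712560) (l 6)) (l 16717928)) (b (l 16697920) (l 16705904))) (a (a (l 16693064) (l 16687144)) (l 16678240))) (a (l 16681288) (l 16637232))) (a (a (l 6) (a (l 6) (l 16704688))) (a (a (l 16682312) (l 16670504)) (l 16660776)))) (a (l 6) (b (a (l 6) (b (a (l 6) (l 16658472)) (l 6))) (l 6)))) (b (a (b (a (l 16614576) (l 16592320)) (a (b (l 16625976) (l 16633464)) (l 16606896))) (b (a (l 16570368)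 (l 16548768)) (a (l 16584344) (l 16562120)))) (b (a (b (a (l 16640848) (l 16617616)) (a (l 16648128) (l 16624640))) (a (b (l 16594664) (l 16601432)) (l 16575264))) (a (b (a (l 6) (l 16631552)) (l 6)) (b (a (l 16608088) (l 16584912)) (a (b (l 16613016) (l 6)) (l 16591208)))))))), by decide +kernel⟩

def k4_pm_012 : ∃ t, chk3 f_pm_012 t 9 3 1 = true :=
  ⟨(b (b (a (b (a (l 16393136) (l 16366736)) (a (l 16416496) (l 16389088))) (b (a (l 16340880) (l 16316208)) (a (l 16362944) (l 16337552)))) (a (b (a (l 16437096) (l 16408736)) (a (l 16477008) (l 16425704))) (b (a (l 16381616) (l 16355296)) (a (l 16396808) (l 16369624))))) (b (a (a (b (l 16518384) (b (l 16493176) (l 16505064))) (b (l 16442440) (b (l 16456248) (l 16466280)))) (b (a (l 16410560) (l 16381408)) (a (l 16467736) (l 16392888)))) (b (a (b (a (l 16517256) (l 16476768)) (a (l 16550520) (l 16487528))) (a (b (l 16438408) (l 16447432)) (b (l 16402488) (l 16409600)))) (a (b (a (b (l 16538728) (l 16544776))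 (b (l 16495648) (l 16501048))) (a (b (a (l 16562056) (l 16539528)) (a (l 16568088) (l 16545272))) (b (l 16506400) (a (l 16522784) (l 16500680))))) (b (a (l 16456680) (l 16417072)) (a (b (l 16463648) (l 16489240)) (a (l 16434824) (l 16414704)))))))), by decide +kernel⟩

def k5_pm_012 : ∃ t, chk3 f_pm_012 t 5 3 1 = true :=
  ⟨(b (a (b (a (a (b (l 16293336) (l 16312928)) (a (l 16286144) (b (l 16294440) (l 16395032)))) (b (l 16256368) (l 16267544))) (a (a (b (l 16330504) (l 16343968)) (a (b (l 16312472) (l 16325688)) (a (l 16353008) (b (l 16302440) (l 16314664))))) (b (l 16279848) (l 16333256)))) (b (a (l 16293928) (l 16299200)) (b (a (l 16255952) (l 16242912)) (a (l 16260296) (l 16238632))))) (a (b (a (a (b (l 16354000) (l 16383384)) (a (b (l 16334752) (l 16341696)) (b (a (l 16326008) (l 16323040)) (a (l 16332088) (a (l 16328080) (l 16326312)))))) (b (a (l 16307880) (l 16288984)) (a (l 16311960) (l 16291152)))) (a (a (b (b (l 16369392) (l 16374328)) (b (l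 16379832) (a (l 16395144) (l 16376200)))) (a (b (l 16348072) (b (l 16353672) (l 16357984))) (b (a (l 16337176) (a (l 16332424) (l 16330008))) (a (b (l 16341496) (l 16344960)) (a (l 16337440) (b (l 16333024) (l 16335536))))))) (b (a (b (l 16313696) (l 16314440)) (l 16289976)) (a (b (l 16315416) (a (l 16324640) (l 16308816))) (b (l 16288064) (l 16286888)))))) (b (b (a (l 16264168) (l 16235520)) (a (b (l 16263872) (l 16262688)) (l 16294904))) (b (a (b (l 16260080) (l 16256640)) (b (l 16225888) (l 16220712))) (a (b (a (l 16263856) (l 16242112)) (a (l 16260288) (l 16236784))) (b (a (l 16222824) (l 16205752)) (a (l 16236808) (l 16218376)))))))), by decide +kernel⟩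

def k6_pm_012 : ∃ t, chk3 f_pm_012 t 3 1 1 = true :=
  ⟨(b (a (b (l 2) (a (b (l 2) (a (l 16317872) (l 2))) (l 2))) (l 2)) (a (b (a (b (a (l 16274384) (l 16302704)) (b (l 16335848) (l 16250416))) (b (a (l 16345376) (l 2)) (a (l 16273552) (l 16302096)))) (b (a (b (a (l 16216808) (l 16211688)) (a (l 16206320) (l 16192496))) (b (a (l 16220936) (l 16242368)) (a (l 16189848) (l 16198664)))) (a (b (a (b (l 16198728) (l 16191728)) (l 16216376)) (a (b (a (l 16190624) (l 16177120)) (a (l 16181248) (l 16167312))) (b (l 16161096) (a (l 16155408) (l 16145296))))) (b (a (l 16163216) (l 16160352)) (a (b (l 16144472) (l 16152920)) (b (l 16134936) (l 16118680))))))) (b (a (b (l 2) (b (l 2) (l 16345024))) (l 2)) (a (b (b (l 16287048) (b (l 16249568) (l 16223272))) (b (a (l 16170480) (l 16196688)) (a (l 16124416) (l 16135544)))) (b (a (b (l 2) (l 16309880)) (l 2)) (a (b (l 16240056) (b (l 16189208) (l 16153584))) (a (b (l 16291224) (b (l 16234768) (l 16194760))) (b (l 2)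 (b (l 16312784) (l 16270000)))))))))), by decide +kernel⟩

theorem s7_pm_012 : ∃ t, chk3 f_pm_012 t 8 3 1 = true := ex3_b k2_pm_012 k3_pm_012

theorem s8_pm_012 : ∃ t, chk3 f_pm_012 t 4 3 1 = true := ex3_a s7_pm_012 k4_pm_012

theorem s9_pm_012 : ∃ t, chk3 f_pm_012 t 2 3 1 = true := ex3_a s8_pm_012 k5_pm_012

theorem s10_pm_012 : ∃ t, chk3 f_pm_012 t 2 2 1 = true := ex3_b k0_pm_012 k1_pm_012

theorem s11_pm_012 : ∃ t, chk3 f_pm_012 t 2 1 1 = true := ex3_b s10_pm_012 s9_pm_012

theorem s12_pm_012 : ∃ t, chk3 f_pm_012 t 1 1 1 = true := ex3_a s11_pm_012 k6_pm_012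

theorem c_pm_012 : CertB 0 536870912 536870912 536870912 536870912 50465866 3 eng mog cd0q0 cd4q1 pd2 true true false .pnp 0 1 2
    ndB0q0 ndB4q1 pcB2 cut_pm_012 Ext.none :=
  certB2 (fam := true) (s1 := true) (s2 := false) (a := 0) (b := 1) (c := 2) (cn := .pnp) (n1 := ndB0q0) (n2 := ndB4q1) (pc := pcB2) (cut := cut_pm_012) (xt := Ext.none) (P1 := 0) (W1 := 536870912) (P2 := 536870912) (W2 := 536870912) (P3 := 536870912) (W3 := 50465866) (N0 := 3) (En := eng) (mo := mog) (C1 := cd0q0) (C2 := cd4q1) (C3 := pd2)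
    rfl (fun _ => rfl) s12_pm_012

noncomputable def f_pm_022 : ℕ → ℕ → ℕ → ℕ → Bool := onCell 0 536870912 1073741824 536870912 536870912 50465866
    (rowB 3 eng mog cd0q0 cd4q2 pd2 1 true true false .pp 0 2 2 (qsf 0 536870912 1073741824 536870912 2) ndB0q0 ndB4q2 pcB2 Cut.none Ext.none)

def k0_pm_022 : ∃ t, chk3 f_pm_022 t 2 4 1 = true :=
  ⟨(a (a (a (b (l 3) (l 3)) (l 3)) (l 3)) (l 3)), by decide +kernel⟩

def k1_pm_022 : ∃ t, chk3 f_pm_022 t 2 10 1 = true :=
  ⟨(b (b (a (a (b (a (b (l 16524504) (l 16516552)) (b (l 16543200) (l 16535128))) (a (b (l 16508552) (l 16500872)) (b (l 16527184) (l 16519312)))) (a (b (b (l 16560936) (l 16552696)) (b (l 16544720) (l 16536760))) (b (b (l 3) (l 16568728)) (l 16609304)))) (a (a (b (a (l 16637136) (l 1)) (b (l 104723028663) (l 16634432))) (l 1)) (l 1))) (b (a (a (a (b (l 16493464) (l 16485480)) (b (l 16511936) (l 16504112))) (b (c (l 16578536) (l 16579896)) (l 16598080))) (a (a (b (l 89690616167) (l 16555688)) (l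 1)) (l 1))) (a (b (a (a (c (l 16473624) (l 16478576)) (l 16495704)) (b (l 16586808) (l 16582616))) (a (b (a (c (l 16466080) (l 16556016)) (l 16551584)) (a (c (l 16484736) (a (l 16548040) (l 16473760))) (c (l 16503192) (l 16508496)))) (b (a (l 16548408) (l 16523056)) (b (a (c (l 16563944) (l 16547464)) (a (l 16576008) (l 16567424))) (l 16552536))))) (a (b (a (l 16568880) (l 1)) (b (a (l 16563880) (l 1)) (b (a (a (l 16556528) (l 16566392)) (l 1)) (a (l 16538536) (l 240551304471))))) (l 1))))) (a (a (a (a (b (l 16583624) (c (l 16464008) (l 16487184))) (b (l 16455328) (l 16468632))) (l 16521912)) (a (l 16512888) (l 16528384))) (b (a (a (l 16522128) (l 212633937607)) (l 1)) (a (a (l 16491104) (l 177200390423)) (a (l 213707690295) (l 1)))))), by decide +kernel⟩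

def k2_pm_022 : ∃ t, chk3 f_pm_022 t 2 11 1 = true :=
  ⟨(a (b (b (a (a (a (l 16406456) (l 16551856)) (a (l 16406144) (l 16412912))) (a (l 16425608) (l 16440976))) (a (a (l 16391256) (a (l 16470184) (l 16385648))) (l 16466760))) (a (a (a (l 16374568) (l 16372680)) (a (l 16368672) (a (l 16385048) (l 16402336)))) (a (c (l 16417520) (l 16405632)) (l 16367056)))) (a (a (a (l 16489720) (l 16503192)) (b (a (l 16463152) (l 16496536)) (l 16430992))) (a (b (a (l 16508656) (l 124050250711)) (l 16565000)) (b (a (l 166999871975) (l 1)) (a (l 16458808) (l 117607742903)))))), by decide +kernel⟩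

def k3_pm_022 : ∃ t, chk3 f_pm_022 t 2 3 1 = true :=
  ⟨(a (b (a (b (a (b (l 16359440) (l 16355552)) (b (l 16350768) (l 16345360))) (a (b (l 16360880) (l 16371688)) (b (l 16349536) (l 16361720)))) (b (a (b (a (l 16338632) (l 16327424)) (l 16328048)) (b (l 16424136) (l 16315888))) (a (l 16336368) (l 16310232)))) (b (a (a (b (l 16381672) (l 16381264)) (b (l 16372736) (l 16373784))) (b (l 16345840) (l 16353544))) (a (b (a (l 16380472) (l 16372808)) (a (b (a (a (b (l 16380080) (l 16383200)) (l 16379088)) (l 16377120)) (a (a (c (l 16460088) (l 16383640)) (l 16398656)) (a (l 16385656) (l 16381480)))) (l 16374712))) (b (l 16357936) (l 16357752))))) (b (a (b (a (b (l 16321240) (l 16360784)) (a (l 16373192) (l 16454584))) (a (b (l 16266536) (l 16280736)) (b (l 16335240) (l 16228712)))) (b (a (b (a (l 16375976) (l 16392776)) (a (l 16319000) (l 16338608))) (b (l 16520016) (l 16386256))) (a (b (l 16272064) (c (l 16275736) (l 16210192))) (b (l 16314544) (l 16283736)))))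 (a (b (a (l 16306080) (l 16281856)) (l 16400640)) (b (b (a (l 16224376) (a (l 16215768) (l 16265128))) (a (l 16210072) (l 16190256))) (a (l 16251280) (l 16179784)))))), by decide +kernel⟩

def k4_pm_022 : ∃ t, chk3 f_pm_022 t 3 1 1 = true :=
  ⟨(b (b (l 1) (b (l 1) (a (a (a (b (l 1) (a (l 167536685367) (l 1))) (l 1)) (l 1)) (l 1)))) (a (b (b (a (a (b (l 98817206903) (l 16395112)) (b (l 165926029639) (l 71436759879))) (a (b (l 1) (l 168073464791)) (l 1))) (a (b (a (l 16349680) (l 16376504)) (a (l 16303392) (l 16334712))) (b (a (l 16396568) (l 170220972391)) (a (l 16358272) (l 16378848))))) (b (b (a (a (l 16257136) (l 16292512)) (a (l 16319528) (l 16343464))) (a (a (l 16316896) (l 16252288)) (l 16398520))) (a (a (l 16298896) (b (l 16276336) (l 16170560))) (b (l 16299704) (a (l 16211880) (l 16239800)))))) (b (a (b (l 1) (a (l 192769490327) (l 1))) (l 1)) (a (b (a (l 16352672) (l 138008723943)) (a (l 16287760) (l 16331864))) (b (a (l 220149935975) (l 1)) (a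 (l 16385896) (l 170221074599))))))), by decide +kernel⟩

theorem s5_pm_022 : ∃ t, chk3 f_pm_022 t 2 5 1 = true := ex3_b k1_pm_022 k2_pm_022

theorem s6_pm_022 : ∃ t, chk3 f_pm_022 t 2 2 1 = true := ex3_b k0_pm_022 s5_pm_022

theorem s7_pm_022 : ∃ t, chk3 f_pm_022 t 2 1 1 = true := ex3_b s6_pm_022 k3_pm_022

theorem s8_pm_022 : ∃ t, chk3 f_pm_022 t 1 1 1 = true := ex3_a s7_pm_022 k4_pm_022

theorem c_pm_022 : CertB 0 536870912 1073741824 536870912 536870912 50465866 3 eng mog cd0q0 cd4q2 pd2 true true false .pp 0 2 2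
    ndB0q0 ndB4q2 pcB2 Cut.none Ext.none :=
  certB1 (fam := true) (s1 := true) (s2 := false) (a := 0) (b := 2) (c := 2) (cn := .pp) (n1 := ndB0q0) (n2 := ndB4q2) (pc := pcB2) (cut := Cut.none) (xt := Ext.none) (P1 := 0) (W1 := 536870912) (P2 := 1073741824) (W2 := 536870912) (P3 := 536870912) (W3 := 50465866) (N0 := 3) (En := eng) (mo := mog) (C1 := cd0q0) (C2 := cd4q2) (C3 := pd2)
    rfl (fun _ => rfl) s8_pm_022

noncomputable def f_pm_023 : ℕ → ℕ → ℕ → ℕ → Bool := onCell 0 536870912 1073741824 536870912 536870912 50465866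
    (rowB 3 eng mog cd0q0 cd4q2 pd3 0 true true false .up 0 2 3 (qsf 0 536870912 1073741824 536870912 3) ndB0q0 ndB4q2 pcB3 Cut.none Ext.none)

def k0_pm_023 : ∃ t, chk3 f_pm_023 t 1 1 1 = true :=
  ⟨(a (b (a (l 1) (b (l 1) (a (l 1) (b (l 1) (l 192769140519))))) (b (a (a (l 1) (l 223908387239)) (b (a (l 16309288) (l 16257496)) (a (l 16350512) (b (l 16314128) (l 16362664))))) (a (b (a (b (l 1) (l 289406471575)) (a (b (l 16386384) (l 16399816)) (l 16390784))) (a (b (a (l 297996156775) (l 16406248)) (a (b (l 204580611303) (a (l 16461152) (l 16471408))) (b (l 16424640) (l 16488888)))) (b (a (l 16416200) (l 16434872)) (b (l 16476504) (l 16552600))))) (b (a (b (l 16381864) (l 16426648)) (a (l 16468360) (l 16522256))) (a (b (a (l 16486904) (l 16531744)) (l 16587904)) (b (l 16590128) (l 16645488))))))) (b (a (b (a (l 1) (b (l 1) (l 144451082631))) (b (a (l 200285639655) (b (l 16245952) (l 16216568))) (a (l 16219888) (l 16248464)))) (b (a (b (l 165389134359) (l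 176126453015)) (b (l 16424736) (l 16433672))) (a (b (l 16323432) (l 16443560)) (b (l 16511328) (l 16586096))))) (a (b (b (a (l 16256048) (l 16433040)) (a (b (l 16416440) (l 16496032)) (l 16565744))) (b (a (l 16587632) (l 16652728)) (b (l 16677432) (a (l 16691984) (l 16725848))))) (b (a (l 16603440) (l 16863080)) (b (a (l 16698832) (l 16731248)) (a (b (l 16729672) (l 16749392)) (b (a (l 16747272) (l 16760960)) (a (l 16766552) (a (l 16770456) (b (l 16769080) (b (l 16772640) (l 4)))))))))))), by decide +kernel⟩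

theorem c_pm_023 : CertB 0 536870912 1073741824 536870912 536870912 50465866 3 eng mog cd0q0 cd4q2 pd3 true true false .up 0 2 3
    ndB0q0 ndB4q2 pcB3 Cut.none Ext.none :=
  certB0 (fam := true) (s1 := true) (s2 := false) (a := 0) (b := 2) (c := 3) (cn := .up) (n1 := ndB0q0) (n2 := ndB4q2) (pc := pcB3) (cut := Cut.none) (xt := Ext.none) (P1 := 0) (W1 := 536870912) (P2 := 1073741824) (W2 := 536870912) (P3 := 536870912) (W3 := 50465866) (N0 := 3) (En := eng) (mo := mog) (C1 := cd0q0) (C2 := cd4q2) (C3 := pd3)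
    rfl k0_pm_023

noncomputable def f_pm_033 : ℕ → ℕ → ℕ → ℕ → Bool := onCell 1610612736 536870912 0 1230186008 536870912 50465866
    (rowB 3 eng mog cd0q0 cd4q3 pd3 2 true true false .pnn 0 3 3 (qsf 0 536870912 0 1230186008 3) ndB0q0 ndB4q3 pcB3 Cut.none Ext.none)

def k0_pm_033 : ∃ t, chk3 f_pm_033 t 1 1 1 = true :=
  ⟨(b (a (l 1) (a (l 1) (l 4))) (b (a (a (l 1) (a (l 1) (b (l 1) (a (l 1) (l 16716432))))) (a (a (b (l 1) (a (l 16727800) (l 16738688))) (b (a (l 16753904) (l 16753160)) (a (l 16748160) (l 16754080)))) (a (b (l 4) (a (l 16750664) (l 4))) (l 4)))) (a (b (a (l 1) (a (b (a (l 1) (l 16683464)) (a (l 16673936) (l 16683680))) (b (l 16699320) (a (l 16693504) (l 16705832))))) (a (b (a (l 1) (a (a (b (l 1) (l 260952403751)) (l 106870538247)) (l 104186247719))) (a (b (a (l 1) (b (a (l 1) (l 260415471911)) (l 219613079895))) (a (b (l 223371170903) (l 157872773335)) (b (l 16452472) (l 16438440)))) (b (a (b (a (l 16623760) (l 16633704)) (l 16587816))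 (b (l 16646760) (l 16612016))) (a (b (l 16544728) (l 16495328)) (l 16555152))))) (b (a (a (l 16673200) (l 16685072)) (a (l 16696216) (l 16709200))) (b (a (b (l 16670280) (l 16643824)) (l 16689992)) (a (l 16601280) (l 16654472)))))) (a (b (a (b (l 16724744) (l 16725432)) (a (b (l 16743232) (l 16744792)) (b (l 16753304) (l 16756488)))) (b (a (l 16730328) (l 16754752)) (a (b (l 16722752) (l 16699264)) (b (l 16750096) (l 16732304))))) (b (a (a (b (l 16758664) (l 16763688)) (l 14730866999)) (a (l 16840856) (l 4))) (a (b (a (l 16771696) (l 16772968)) (a (b (l 16762784) (l 16748496)) (b (l 16772776) (l 16761136)))) (a (b (l 16773168) (l 16768760)) (b (l 4) (a (b (l 4) (l 16767504)) (l 4)))))))))), by decide +kernel⟩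

theorem c_pm_033 : CertB 0 536870912 0 1230186008 536870912 50465866 3 eng mog cd0q0 cd4q3 pd3 true true false .pnn 0 3 3
    ndB0q0 ndB4q3 pcB3 Cut.none Ext.none :=
  certB2 (fam := true) (s1 := true) (s2 := false) (a := 0) (b := 3) (c := 3) (cn := .pnn) (n1 := ndB0q0) (n2 := ndB4q3) (pc := pcB3) (cut := Cut.none) (xt := Ext.none) (P1 := 0) (W1 := 536870912) (P2 := 0) (W2 := 1230186008) (P3 := 536870912) (W3 := 50465866) (N0 := 3) (En := eng) (mo := mog) (C1 := cd0q0) (C2 := cd4q3) (C3 := pd3)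
    rfl (fun _ => rfl) k0_pm_033

noncomputable def xt_pm_101 : Ext := extD2 3 ⟨7, 3, 3, 10, 1741, 1000, 23, 25, 19, 50, 3, 16⟩ eng cd0q1 cd4q0 pd1 true true false .npn 1 0 1 rfl ndB0q1 ndB4q0 pcB1

noncomputable def f_pm_101 : ℕ → ℕ → ℕ → ℕ → Bool := onCell 536870912 536870912 0 536870912 536870912 50465866
    (rowB 3 eng mog cd0q1 cd4q0 pd1 2 true true false .npn 1 0 1 (qsf 536870912 536870912 0 536870912 1) ndB0q1 ndB4q0 pcB1 Cut.none xt_pm_101)

def k0_pm_101 : ∃ t, chk3 f_pm_101 t 2 1 1 = true :=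
  ⟨(l 3), by decide +kernel⟩

def k1_pm_101 : ∃ t, chk3 f_pm_101 t 6 1 1 = true :=
  ⟨(l 3), by decide +kernel⟩

def k2_pm_101 : ∃ t, chk3 f_pm_101 t 7 2 1 = true :=
  ⟨(b (a (a (l 3) (b (a (a (l 3) (b (b (l 100025933783) (l 16864248)) (b (l 16868936) (l 16873032)))) (b (b (l 16839888) (l 16844704)) (b (l 16849104) (l 16853416)))) (a (a (l 3) (b (l 89288606439) (b (l 16878688) (l 16877504)))) (b (b (l 16857024) (l 16859664)) (b (l 16861024) (l 16923552)))))) (b (a (a (b (l 16818704) (l 16827352)) (b (l 16797168) (l 16805616))) (b (l 16765240) (a (l 16784336) (l 16763360)))) (a (a (b (l 16834832) (l 16839008)) (b (l 16812288) (l 16817368))) (b (a (l 16790352) (l 16768120)) (a (l 16795336) (l 16771688)))))) (a (a (l 3) (a (b (b (l 3) (l 3)) (l 3)) (b (b (b (a (b (l 16864544) (l 69961248439)) (l 16853592)) (a (a (l 54392004039) (l 16860776)) (l 16853160))) (a (b (c (l 62981939239) (l 16854064)) (c (l 52781392775) (l 16856632))) (b (l 16854416) (l 16855512))))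 (a (a (l 3) (b (b (l 57613227079) (l 42043982391)) (b (l 99489174087) (l 3)))) (b (b (l 16857384) (a (l 16863640) (l 16857600))) (b (c (l 16873424) (l 16858280)) (b (l 78014327111) (l 75329980551)))))))) (b (a (b (a (b (l 16838384) (l 16838512)) (l 16944312)) (a (b (l 16839408) (l 16840432)) (l 16883944))) (b (a (l 16797952) (l 16775016)) (a (l 16801424) (l 16779832)))) (a (a (b (b (l 16841264) (a (l 16848872) (l 16837608))) (a (b (l 16852544) (l 16857760)) (l 16884192))) (b (l 16842440) (a (l 16830168) (l 16818480)))) (b (a (l 16801472) (l 16781264)) (a (l 16801696) (l 16779360))))))), by decide +kernel⟩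

def k3_pm_101 : ∃ t, chk3 f_pm_101 t 14 6 1 = true :=
  ⟨(a (l 3) (a (l 3) (a (l 3) (a (b (b (b (c (l 53318273863) (l 57613225303)) (b (l 236391257495) (l 3))) (l 3)) (l 3)) (b (b (b (c (l 16880920) (l 16871320)) (b (l 16903048) (a (l 81235551159) (l 16884792)))) (b (b (c (c (l 79088060007) (l 81235537271)) (c (l 83383014503) (l 85530501527))) (c (b (b (l 76403705991) (l 73719342775)) (l 70498096391)) (b (b (a (l 59760695383) (l 16891376)) (l 78551169191)) (l 74256192135)))) (a (l 3) (b (c (l 16881944) (c (l 16876656) (l 16875008))) (c (l 16872200) (l 68887422071)))))) (b (b (b (c (l 45265117655) (l 45801976327)) (l 3)) (l 3)) (l 3))))))), by decide +kernel⟩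

def k4_pm_101 : ∃ t, chk3 f_pm_101 t 15 6 1 = true :=
  ⟨(a (b (b (b (a (a (a (l 16868192) (l 16860992)) (l 16850568)) (l 16830456)) (a (a (b (l 16870800) (l 16896312)) (l 16858184)) (l 16836840))) (a (b (a (b (a (l 16883760) (l 16876184)) (a (b (l 16885176) (l 16880296)) (l 16875184))) (b (l 16864880) (l 16863904))) (a (b (a (a (l 16874304) (l 16870584)) (l 16865016)) (a (b (l 16864328) (l 16858752)) (l 16854256))) (l 16848648))) (b (a (l 16849288) (l 16834448)) (l 16826560)))) (b (a (b (a (b (a (c (l 16857224) (l 16844552)) (l 16843016)) (a (c (l 16846944) (l 16831704)) (l 16831456))) (a (l 16830072) (l 16822904))) (a (a (b (a (l 16829024) (l 16825304)) (l 68350457079)) (l 16813896)) (l 16802896))) (b (c (l 16816152) (l 16794312)) (a (l 16788512) (l 16774064)))) (a (a (b (a (b (l 56002376087) (l 54391734167)) (c (l 16803608) (l 144143809739161711))) (b (l 1433786022207007218222301295) (c (l 1569185714003815174363054191) (l 1549842900889760311829151919))))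 (b (l 144127317066924143) (b (l 16760816) (l 143767295666618479)))) (b (l 603513911456253516963951) (a (l 143694796598624367) (l 16723264)))))) (a (b (b (l 16806288) (b (l 16812624) (l 16796592))) (b (a (l 16770928) (l 16756368)) (b (l 16726472) (l 16699560)))) (b (b (l 16780408) (b (l 16783536) (l 16766632))) (b (l 16732488) (a (l 16689592) (l 16673240)))))), by decide +kernel⟩

def k5_pm_101 : ∃ t, chk3 f_pm_101 t 14 7 1 = true :=
  ⟨(l 3), by decide +kernel⟩

def k6_pm_101 : ∃ t, chk3 f_pm_101 t 15 14 1 = true :=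
  ⟨(a (b (a (a (a (l 3) (b (b (l 1927027756609455207614546095) (l 1743271032027894683833647279)) (b (l 1559514307446335328304365615) (l 1366086176307860176339812399)))) (b (b (l 143621266754011247) (l 143477917901209775)) (a (b (l 143379786473422895) (l 143242278777143343)) (l 143225717376548911)))) (b (a (b (l 16720336) (l 143318832277831791)) (l 143239942297026671)) (a (b (l 143170329463455919) (l 143025125184258095)) (b (l 16678176) (l 16665432))))) (a (b (a (b (a (l 3) (l 3203653422121963755868979247)) (l 3)) (b (a (a (l 2101113074633353984954581039) (l 143083742916689967)) (l 143016397815054383)) (a (b (l 2062427448405562637338296367) (a (l 1704585405799589451963072559) (l 142915174012403759))) (l 142878615241310255)))) (a (l 3) (a (b (b (c (l 1917356350051868915194298415) (l 1810970877925388541087858735)) (c (a (l 1385428989421395107255992367) (l 142985405350330415)) (l 1714256812356148456832942127))) (b (b (c (l 1733599625470342613745860655) (l 1752942438583765463015227439))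 (c (a (l 1104958199270730907423965231) (l 142913318651510831)) (l 1694913999242230620882534447))) (c (a (l 3) (a (l 1859327910710198420812939311) (l 142875110570033199))) (l 1617542746786867690553983023)))) (b (l 142743169173471279) (b (a (l 142670326517874735) (l 142619405331791919)) (l 142600507557330991)))))) (a (c (b (l 143014954718396591) (b (l 142817798508199983) (b (l 142721934823243823) (l 142675549166059567)))) (b (l 142598720741507119) (b (l 142368098138128431) (l 142050614131327023)))) (b (l 142622635133403183) (b (l 142397922407039023) (b (l 142287284031324207) (l 142233957705580591))))))) (b (b (a (a (l 16680720) (l 16663856)) (l 16638088)) (a (a (l 16653912) (l 16635880)) (l 16608336))) (b (a (a (l 142433656533106735) (l 16608080)) (a (l 16588472) (l 16568536))) (b (a (l 142094250976903215) (l 16556368)) (a (a (l 142050545384964143) (l 16574280)) (a (l 16552760) (l 16530896))))))), by decide +kernel⟩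

def k7_pm_101 : ∃ t, chk3 f_pm_101 t 15 15 1 = true :=
  ⟨(a (b (a (a (l 3) (a (a (l 3) (b (b (b (c (l 142854632159035439) (l 142432900620402735)) (l 1743271032026908215578607663)) (a (l 3) (b (l 930872881245827382356000815) (b (l 1017915540258052576672366639) (l 1))))) (l 1))) (b (b (c (l 142764059845984303) (l 142326660285808687)) (c (b (l 142707984758636591) (a (l 142694859247747119) (l 142642082763735087))) (b (l 142270722616885295) (b (l 142241173239119919) (l 142220832272187439))))) (a (l 1) (b (b (l 142381154822160431) (l 1)) (l 1)))))) (a (b (b (a (l 142079270116491311) (l 142330783442714671)) (a (b (l 142378887104479279) (a (l 142365143171809327) (l 142307075233660975))) (b (l 142265774821621807) (l 142219938875555887)))) (b (a (b (l 142291613324525615) (l 142245433845710895)) (l 142147920888135727)) (a (l 1) (a (l 1) (l 142013230684110895))))) (b (b (c (l 142421287043334191) (l 141908364744163375)) (b (l 142096106397810735) (l 142045803684626479)))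 (b (c (l 142224543128141871) (l 141704199134527535)) (c (l 142118027868667951) (l 141707909978243119)))))) (a (l 1) (b (a (l 1) (b (c (l 142003128917753903) (l 141709559238524975)) (l 1))) (l 1)))) (b (b (b (a (a (l 142129091720790063) (l 141727769931530287)) (l 141388570525351983)) (a (a (c (l 142118715116978223) (l 141560506676363311)) (l 141791816496201775)) (l 141440866185691183))) (a (a (b (l 141725158534889519) (l 141599264464617519)) (a (l 141298410530160687) (l 141173753373442095))) (a (l 140986973797089327) (l 16449888)))) (a (a (b (b (l 141495772912205871) (l 141495566788591663)) (l 1)) (b (b (l 141195125136310319) (l 141193200982425647)) (b (l 187937879959) (l 1)))) (b (b (l 140973367339008047) (l 140735185613963311)) (b (l 140730306521186351) (l 95059149191)))))), by decide +kernel⟩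

theorem s8_pm_101 : ∃ t, chk3 f_pm_101 t 15 7 1 = true := ex3_b k6_pm_101 k7_pm_101

theorem s9_pm_101 : ∃ t, chk3 f_pm_101 t 7 7 1 = true := ex3_a k5_pm_101 s8_pm_101

theorem s10_pm_101 : ∃ t, chk3 f_pm_101 t 7 6 1 = true := ex3_a k3_pm_101 k4_pm_101

theorem s11_pm_101 : ∃ t, chk3 f_pm_101 t 7 3 1 = true := ex3_b s10_pm_101 s9_pm_101

theorem s12_pm_101 : ∃ t, chk3 f_pm_101 t 7 1 1 = true := ex3_b k2_pm_101 s11_pm_101

theorem s13_pm_101 : ∃ t, chk3 f_pm_101 t 3 1 1 = true := ex3_a k1_pm_101 s12_pm_101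

theorem s14_pm_101 : ∃ t, chk3 f_pm_101 t 1 1 1 = true := ex3_a k0_pm_101 s13_pm_101

theorem c_pm_101 : CertB 536870912 536870912 0 536870912 536870912 50465866 3 eng mog cd0q1 cd4q0 pd1 true true false .npn 1 0 1
    ndB0q1 ndB4q0 pcB1 Cut.none xt_pm_101 :=
  certB2 (fam := true) (s1 := true) (s2 := false) (a := 1) (b := 0) (c := 1) (cn := .npn) (n1 := ndB0q1) (n2 := ndB4q0) (pc := pcB1) (cut := Cut.none) (xt := xt_pm_101) (P1 := 536870912) (W1 := 536870912) (P2 := 0) (W2 := 536870912) (P3 := 536870912) (W3 := 50465866) (N0 := 3) (En := eng) (mo := mog) (C1 := cd0q1) (C2 := cd4q0) (C3 := pd1)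
    rfl (fun _ => rfl) s14_pm_101

noncomputable def xt_pm_102 : Ext := extD2 3 ⟨7, 3, 3, 10, 1741, 1000, 23, 25, 19, 50, 3, 16⟩ eng cd0q1 cd4q0 pd2 true true false .npp 1 0 2 rfl ndB0q1 ndB4q0 pcB2

noncomputable def f_pm_102 : ℕ → ℕ → ℕ → ℕ → Bool := onCell 1073741824 536870912 0 536870912 536870912 50465866
    (rowB 3 eng mog cd0q1 cd4q0 pd2 2 true true false .npp 1 0 2 (qsf 536870912 536870912 0 536870912 2) ndB0q1 ndB4q0 pcB2 Cut.none xt_pm_102)

def k0_pm_102 : ∃ t, chk3 f_pm_102 t 2 2 1 = true :=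
  ⟨(a (b (a (b (a (b (a (l 16733848) (l 16715656)) (a (l 16738128) (l 16726656))) (b (a (l 16698144) (l 2)) (a (l 16711784) (l 16697592)))) (a (b (a (l 16741688) (l 16721952)) (a (l 16744024) (l 16721520))) (b (a (l 16718992) (l 16742464)) (l 16707672)))) (b (a (b (l 2) (a (l 16683832) (l 2))) (l 2)) (a (b (a (l 16740968) (l 16728776)) (l 16749288)) (b (l 16818712) (l 16754896))))) (a (b (a (b (a (l 16767976) (l 16722480)) (a (l 16753112) (l 16728568))) (b (l 16742144) (l 16700200))) (a (b (a (l 16755720) (l 16732576)) (a (l 16753680) (l 16732368))) (b (l 16703832) (l 16704648)))) (b (a (b (l 16710944) (l 16691728)) (b (l 16768792) (l 16727432))) (a (b (l 16683320) (l 16680696)) (b (l 16696040) (l 16678472)))))) (b (a (b (l 2) (a (b (l 2) (l 16746592)) (l 2))) (l 2)) (a (a (b (b (l 16786000) (l 16794968)) (a (l 16711920) (b (l 16766464) (l 16719688)))) (b (b (l 16788736) (l 16818464)) (b (l 16824672) (l 16775512)))) (b (a (b (l 2) (l 16816928)) (l 2)) (a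 (l 16849640) (l 16860304)))))), by decide +kernel⟩

def k1_pm_102 : ∃ t, chk3 f_pm_102 t 2 3 1 = true :=
  ⟨(b (a (a (b (a (b (a (l 16752152) (l 16728872)) (b (l 16801136) (l 16719856))) (b (l 16702384) (l 16688448))) (a (b (a (l 16699664) (l 16674832)) (b (l 16692376) (a (l 16636216) (l 16614832)))) (b (l 16645304) (l 16600864)))) (b (a (b (l 16677424) (l 16665072)) (l 16787664)) (a (b (l 16627280) (l 16583168)) (l 16671664)))) (a (b (a (a (l 16666920) (b (l 16688664) (l 16666584))) (b (l 16727256) (l 16692016))) (a (a (l 16615192) (l 16624152)) (l 16645368))) (b (b (l 16858120) (l 16807256)) (a (l 16695288) (l 16766824))))) (a (b (a (b (a (a (b (l 16607336) (l 16576720)) (l 16573488)) (l 16551176)) (a (a (b (l 16545792) (b (l 16522608) (l 16507288))) (b (l 16528784) (l 16498400))) (b (l 16512416) (l 16483768)))) (b (a (l 16538968) (l 16542856)) (a (l 16490544) (l 16498944)))) (a (b (a (b (a (a (b (l 16496736) (l 16479568)) (l 16478520)) (l 16466680))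 (a (c (l 141076996334354607) (l 16405200)) (l 16429560))) (b (l 16452704) (l 16416888))) (a (b (a (b (l 16413304) (l 16410304)) (l 16386024)) (a (a (l 140455084870352943) (l 16361360)) (l 16332984))) (b (l 16479992) (l 16303952)))) (b (a (l 16498296) (l 16448144)) (a (a (l 16354248) (l 16362440)) (l 16381608))))) (b (a (a (b (a (l 16556832) (l 16569960)) (a (l 16513552) (l 16528184))) (b (l 16595768) (l 16556928))) (b (l 16669928) (l 16634656))) (a (a (b (a (l 16466568) (l 16482752)) (a (l 16405944) (l 16425744))) (b (l 16512840) (l 16460360))) (b (l 16596768) (l 16553632)))))), by decide +kernel⟩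

def k2_pm_102 : ∃ t, chk3 f_pm_102 t 3 1 1 = true :=
  ⟨(b (a (b (l 2) (a (b (l 2) (a (l 16867032) (l 2))) (l 2))) (l 2)) (a (b (a (b (b (l 16904840) (l 16924096)) (l 16961784)) (b (a (l 16955424) (l 2)) (l 17062544))) (b (a (b (l 16811968) (l 16765096)) (b (l 16960776) (l 16906432))) (a (b (l 16722656) (l 16686544)) (b (l 16860280) (l 16814968))))) (b (a (b (l 2) (a (l 17161120) (l 2))) (l 2)) (a (b (l 17036576) (l 16837984)) (b (a (l 17097680) (l 2)) (a (l 16994680) (l 17023040))))))), by decide +kernel⟩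

theorem s3_pm_102 : ∃ t, chk3 f_pm_102 t 2 1 1 = true := ex3_b k0_pm_102 k1_pm_102

theorem s4_pm_102 : ∃ t, chk3 f_pm_102 t 1 1 1 = true := ex3_a s3_pm_102 k2_pm_102

theorem c_pm_102 : CertB 536870912 536870912 0 536870912 536870912 50465866 3 eng mog cd0q1 cd4q0 pd2 true true false .npp 1 0 2
    ndB0q1 ndB4q0 pcB2 Cut.none xt_pm_102 :=
  certB2 (fam := true) (s1 := true) (s2 := false) (a := 1) (b := 0) (c := 2) (cn := .npp) (n1 := ndB0q1) (n2 := ndB4q0) (pc := pcB2) (cut := Cut.none) (xt := xt_pm_102) (P1 := 536870912) (W1 := 536870912) (P2 := 0) (W2 := 536870912) (P3 := 536870912) (W3 := 50465866) (N0 := 3) (En := eng) (mo := mog) (C1 := cd0q1) (C2 := cd4q0) (C3 := pd2)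
    rfl (fun _ => rfl) s4_pm_102

noncomputable def f_pm_112 : ℕ → ℕ → ℕ → ℕ → Bool := onCell 1073741824 536870912 536870912 536870912 536870912 50465866
    (rowB 3 eng mog cd0q1 cd4q1 pd2 2 true true false .dn 1 1 2 (qsf 536870912 536870912 536870912 536870912 2) ndB0q1 ndB4q1 pcB2 Cut.none Ext.none)

def k0_pm_112 : ∃ t, chk3 f_pm_112 t 2 1 1 = true :=
  ⟨(b (b (a (b (a (b (a (a (b (b (l 16365856) (l 16374536)) (l 281353211927)) (b (l 16290416) (l 16305704))) (b (l 16253000) (l 16276712))) (a (a (l 1) (l 16383816)) (a (l 16281496) (l 16175536)))) (b (a (b (l 16255656) (l 16209760)) (b (l 16295056) (l 16253048))) (a (l 16183448) (l 16174696)))) (a (a (l 1) (b (l 129418608247) (l 1))) (a (b (l 16221600) (l 81636825959)) (b (l 16225576) (l 59088449831))))) (b (a (a (b (a (l 16312360) (a (l 16332464) (l 16347144))) (a (l 16221152) (a (l 16245760) (l 16263760)))) (b (l 16385528) (l 16310320))) (b (l 16496112) (l 16435624))) (a (a (a (b (l 16183936) (l 16207392))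 (a (l 16279376) (b (l 16193336) (l 16210800)))) (b (l 16214960) (l 16222768))) (a (b (l 16312688) (l 16274144)) (l 16371208))))) (a (a (l 1) (b (a (l 1) (b (l 90227044407) (l 1))) (l 1))) (a (b (a (a (b (l 16229288) (l 1)) (a (b (l 16225736) (l 1)) (b (l 16365680) (a (l 1) (l 16243048))))) (b (l 16234848) (l 91300847975))) (a (l 1) (b (l 16269248) (l 1)))) (b (a (b (l 16271072) (l 16271328)) (b (l 16317704) (l 16304808))) (a (b (l 16265112) (l 16259072)) (l 16281752)))))) (a (l 1) (b (a (l 1) (b (a (l 1) (l 16382392)) (l 1))) (l 1)))), by decide +kernel⟩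

def k1_pm_112 : ∃ t, chk3 f_pm_112 t 3 1 1 = true :=
  ⟨(b (a (b (b (a (b (l 16643944) (l 16602784)) (l 16755416)) (a (a (l 16472512) (l 16566960)) (l 16675432))) (a (b (a (b (l 16375736) (l 16350264)) (l 16432832)) (a (l 16317880) (l 16361504))) (b (a (l 16537416) (l 16625976)) (a (l 16415608) (l 16499184))))) (b (a (b (l 16863640) (l 16791096)) (b (l 17115808) (a (l 16853944) (l 16889936)))) (a (b (l 16715368) (l 16639432)) (a (b (l 16791872) (l 16734824)) (b (l 16828440) (l 16779680)))))) (a (b (a (b (a (l 16274024) (l 16302584)) (a (l 1) (l 16353112))) (b (a (l 16345384) (l 16387752)) (a (l 16273152) (l 16301960)))) (a (l 1) (b (a (l 1) (l 151430216311)) (l 1)))) (a (b (b (a (l 16449936) (l 16559816)) (b (l 16395992) (l 16345040))) (b (a (l 124586664487) (a (l 16271976) (l 16298840))) (a (l 1) (b (l 16196368) (l 1))))) (b (a (b (l 16645040) (l 16488040)) (b (l 16722624) (a (l 16583152) (l 16650872)))) (a (b (b (l 16374608) (l 16309856)) (a (l 139081845911)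 (l 147671814791))) (b (a (l 16358608) (l 16454032)) (a (b (l 16291200) (l 153040483159)) (b (l 16374208) (b (l 16312760) (l 16269968)))))))))), by decide +kernel⟩

theorem s2_pm_112 : ∃ t, chk3 f_pm_112 t 1 1 1 = true := ex3_a k0_pm_112 k1_pm_112

theorem c_pm_112 : CertB 536870912 536870912 536870912 536870912 536870912 50465866 3 eng mog cd0q1 cd4q1 pd2 true true false .dn 1 1 2
    ndB0q1 ndB4q1 pcB2 Cut.none Ext.none :=
  certB2 (fam := true) (s1 := true) (s2 := false) (a := 1) (b := 1) (c := 2) (cn := .dn) (n1 := ndB0q1) (n2 := ndB4q1) (pc := pcB2) (cut := Cut.none) (xt := Ext.none) (P1 := 536870912) (W1 := 536870912) (P2 := 536870912) (W2 := 536870912) (P3 := 536870912) (W3 := 50465866) (N0 := 3) (En := eng) (mo := mog) (C1 := cd0q1) (C2 := cd4q1) (C3 := pd2)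
    rfl (fun _ => rfl) s2_pm_112

noncomputable def f_pm_113 : ℕ → ℕ → ℕ → ℕ → Bool := onCell 536870912 536870912 1610612736 536870912 536870912 50465866
    (rowB 3 eng mog cd0q1 cd4q1 pd3 1 true true false .nn 1 1 3 (qsf 536870912 536870912 536870912 536870912 3) ndB0q1 ndB4q1 pcB3 Cut.none Ext.none)

def k0_pm_113 : ∃ t, chk3 f_pm_113 t 1 1 1 = true :=
  ⟨(a (b (b (b (a (a (b (a (b (l 156865679319) (l 174582462487)) (a (l 16325440) (l 16386488))) (a (b (l 264240187143) (l 2)) (b (l 16419744) (l 243839037639)))) (b (a (l 16465552) (l 16552296)) (a (a (l 16510672) (l 16552408)) (l 16606744)))) (a (b (l 16656360) (l 16695888)) (b (l 16756744) (l 16780744)))) (a (a (a (l 2) (b (l 314706421543) (l 2))) (b (a (l 269609222375) (l 16633304)) (l 337791868263))) (a (a (l 16687960) (l 16735400)) (l 16789856)))) (a (a (l 2) (b (l 359803839047) (l 2))) (b (a (l 16722400) (l 16800304)) (a (l 378595004087) (l 16822024))))) (b (b (a (l 2) (a (l 2) (l 16852440))) (l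 2)) (l 2))) (b (a (b (b (a (l 16816560) (l 16854344)) (a (l 16822344) (l 16847144))) (b (a (l 16826648) (l 16846600)) (a (l 16840744) (l 16849416)))) (b (b (a (l 16905504) (b (l 16951696) (l 16927624))) (a (l 16882760) (l 16897656))) (b (a (l 16868864) (l 16871792)) (a (l 16861272) (l 16853024))))) (b (a (b (a (l 16857160) (l 16851752)) (b (l 372152881015) (l 4))) (l 4)) (l 4)))), by decide +kernel⟩

theorem c_pm_113 : CertB 536870912 536870912 536870912 536870912 536870912 50465866 3 eng mog cd0q1 cd4q1 pd3 true true false .nn 1 1 3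
    ndB0q1 ndB4q1 pcB3 Cut.none Ext.none :=
  certB1 (fam := true) (s1 := true) (s2 := false) (a := 1) (b := 1) (c := 3) (cn := .nn) (n1 := ndB0q1) (n2 := ndB4q1) (pc := pcB3) (cut := Cut.none) (xt := Ext.none) (P1 := 536870912) (W1 := 536870912) (P2 := 536870912) (W2 := 536870912) (P3 := 536870912) (W3 := 50465866) (N0 := 3) (En := eng) (mo := mog) (C1 := cd0q1) (C2 := cd4q1) (C3 := pd3)
    rfl (fun _ => rfl) k0_pm_113

noncomputable def f_pm_123 : ℕ → ℕ → ℕ → ℕ → Bool := onCell 536870912 536870912 1610612736 536870912 536870912 50465866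
    (rowB 3 eng mog cd0q1 cd4q2 pd3 1 true true false .npn 1 2 3 (qsf 536870912 536870912 1073741824 536870912 3) ndB0q1 ndB4q2 pcB3 Cut.none Ext.none)

def k0_pm_123 : ∃ t, chk3 f_pm_123 t 1 1 1 = true :=
  ⟨(a (b (a (b (a (b (l 170758333863) (l 16584584)) (b (l 257194673111) (l 257195047991))) (a (b (a (l 16610344) (l 16655720)) (l 16662176)) (b (l 16731136) (l 16723808)))) (a (b (b (l 1) (l 268469248855)) (b (l 236794264311) (l 16806000))) (b (l 1) (b (l 253437414823) (l 16901504))))) (a (b (a (l 16957384) (b (l 16723936) (l 16731120))) (b (a (l 16740992) (l 16741184)) (b (l 16756552) (a (b (l 16768160) (b (l 16768384) (l 4))) (b (l 16764016) (b (l 16766104) (l 16761432))))))) (b (a (b (l 16774240) (l 16755136)) (b (l 16843640) (l 16794784))) (b (a (l 16748856) (l 16763840)) (b (a (l 16751248) (l 16754392)) (b (l 16985784) (b (l 16758112) (b (l 16759992) (a (l 16803016) (l 16758600)))))))))) (b (b (l 1) (a (a (b (l 1) (l 238405098023)) (l 1)) (l 1)))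 (b (a (a (l 214245741479) (b (l 214782687767) (l 16890568))) (a (b (l 1) (l 179348761671)) (l 1))) (b (a (a (l 16784192) (l 16818096)) (a (l 169148647495) (l 239478239575))) (a (b (a (l 16758176) (l 16774032)) (b (a (l 16752704) (l 16759016)) (b (a (l 16752360) (l 16754704)) (b (a (l 16752744) (l 16752032)) (a (b (l 16753096) (l 16753312)) (b (l 16751032) (l 374971223911))))))) (a (b (l 16803624) (b (l 16780776) (b (l 16767472) (b (l 16761160) (l 4))))) (b (b (l 16833704) (l 16813792)) (b (l 16791984) (b (l 16774480) (l 4)))))))))), by decide +kernel⟩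

theorem c_pm_123 : CertB 536870912 536870912 1073741824 536870912 536870912 50465866 3 eng mog cd0q1 cd4q2 pd3 true true false .npn 1 2 3
    ndB0q1 ndB4q2 pcB3 Cut.none Ext.none :=
  certB1 (fam := true) (s1 := true) (s2 := false) (a := 1) (b := 2) (c := 3) (cn := .npn) (n1 := ndB0q1) (n2 := ndB4q2) (pc := pcB3) (cut := Cut.none) (xt := Ext.none) (P1 := 536870912) (W1 := 536870912) (P2 := 1073741824) (W2 := 536870912) (P3 := 536870912) (W3 := 50465866) (N0 := 3) (En := eng) (mo := mog) (C1 := cd0q1) (C2 := cd4q2) (C3 := pd3)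
    rfl (fun _ => rfl) k0_pm_123

noncomputable def f_pm_133 : ℕ → ℕ → ℕ → ℕ → Bool := onCell 536870912 536870912 0 1230186008 536870912 50465866
    (rowB 3 eng mog cd0q1 cd4q3 pd3 0 true true false .dn 1 3 3 (qsf 536870912 536870912 0 1230186008 3) ndB0q1 ndB4q3 pcB3 Cut.none Ext.none)

def k0_pm_133 : ∃ t, chk3 f_pm_133 t 1 1 1 = true :=
  ⟨(b (l 2) (b (l 2) (a (b (l 2) (l 4)) (l 2)))), by decide +kernel⟩

theorem c_pm_133 : CertB 536870912 536870912 0 1230186008 536870912 50465866 3 eng mog cd0q1 cd4q3 pd3 true true false .dn 1 3 3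
    ndB0q1 ndB4q3 pcB3 Cut.none Ext.none :=
  certB0 (fam := true) (s1 := true) (s2 := false) (a := 1) (b := 3) (c := 3) (cn := .dn) (n1 := ndB0q1) (n2 := ndB4q3) (pc := pcB3) (cut := Cut.none) (xt := Ext.none) (P1 := 536870912) (W1 := 536870912) (P2 := 0) (W2 := 1230186008) (P3 := 536870912) (W3 := 50465866) (N0 := 3) (En := eng) (mo := mog) (C1 := cd0q1) (C2 := cd4q3) (C3 := pd3)
    rfl k0_pm_133

noncomputable def f_pm_202 : ℕ → ℕ → ℕ → ℕ → Bool := onCell 0 536870912 0 536870912 536870912 50465866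
    (rowB 3 eng mog cd0q2 cd4q0 pd2 0 true true false .pp 2 0 2 (qsf 0 536870912 0 536870912 2) ndB0q2 ndB4q0 pcB2 Cut.none Ext.none)

def k0_pm_202 : ∃ t, chk3 f_pm_202 t 1 1 1 = true :=
  ⟨(a (b (b (a (b (a (b (l 16597056) (l 16628040)) (b (b (l 16593208) (l 16607096)) (l 16627928))) (a (l 16676128) (l 16671656))) (b (b (a (l 16607032) (l 16618072)) (a (a (l 16630224) (l 16633112)) (l 16639168))) (a (b (l 16657064) (l 16684264)) (b (l 16662000) (l 16686168))))) (a (b (a (l 16734224) (l 16728912)) (a (l 4) (l 16775280))) (b (a (l 16724024) (l 16722832)) (a (l 16773104) (l 16771336))))) (b (a (l 4) (b (a (l 16822648) (l 16827016)) (l 17002944))) (l 4))) (b (b (a (b (a (b (l 16633608) (l 16649944)) (b (a (l 16648032) (l 16659136)) (l 16663568))) (a (b (l 16669624) (l 16691128)) (b (l 16679424) (l 16698928)))) (b (a (b (b (l 16742232) (l 16678768)) (l 16681712)) (a (b (b (l 16704152) (l 16700752)) (l 16700176)) (b (a (b (l 16717544) (l 16713728)) (b (l 16728584)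 (l 16723784))) (l 16716928)))) (a (b (l 16693024) (a (l 16707672) (l 16715928))) (b (a (l 16708472) (l 16724160)) (l 16797384))))) (a (b (a (b (l 16714688) (l 16736448)) (l 16730696)) (a (l 16771544) (l 16777592))) (b (a (b (l 16733496) (l 16754872)) (b (a (l 16752160) (l 16771888)) (l 16912568))) (a (l 16790480) (l 16823912))))) (b (a (b (a (l 16830056) (l 16835008)) (a (l 16926552) (l 16948592))) (a (b (l 16852792) (l 16975048)) (b (l 16885080) (l 17025720)))) (a (b (b (l 16933112) (l 16895744)) (l 2)) (a (b (l 16985104) (l 16921416)) (b (l 17004056) (l 16784456))))))), by decide +kernel⟩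

theorem c_pm_202 : CertB 0 536870912 0 536870912 536870912 50465866 3 eng mog cd0q2 cd4q0 pd2 true true false .pp 2 0 2
    ndB0q2 ndB4q0 pcB2 Cut.none Ext.none :=
  certB0 (fam := true) (s1 := true) (s2 := false) (a := 2) (b := 0) (c := 2) (cn := .pp) (n1 := ndB0q2) (n2 := ndB4q0) (pc := pcB2) (cut := Cut.none) (xt := Ext.none) (P1 := 0) (W1 := 536870912) (P2 := 0) (W2 := 536870912) (P3 := 536870912) (W3 := 50465866) (N0 := 3) (En := eng) (mo := mog) (C1 := cd0q2) (C2 := cd4q0) (C3 := pd2)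
    rfl k0_pm_202

noncomputable def f_pm_203 : ℕ → ℕ → ℕ → ℕ → Bool := onCell 0 536870912 1610612736 536870912 536870912 50465866
    (rowB 3 eng mog cd0q2 cd4q0 pd3 1 true true false .up 2 0 3 (qsf 0 536870912 0 536870912 3) ndB0q2 ndB4q0 pcB3 Cut.none Ext.none)

def k0_pm_203 : ∃ t, chk3 f_pm_203 t 1 1 1 = true :=
  ⟨(b (a (l 4) (b (a (b (b (l 16881624) (l 16854328)) (l 4)) (b (a (l 16910816) (l 16935512)) (a (l 16857896) (l 2)))) (a (l 2) (l 2)))) (l 2)), by decide +kernel⟩

theorem c_pm_203 : CertB 0 536870912 0 536870912 536870912 50465866 3 eng mog cd0q2 cd4q0 pd3 true true false .up 2 0 3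
    ndB0q2 ndB4q0 pcB3 Cut.none Ext.none :=
  certB1 (fam := true) (s1 := true) (s2 := false) (a := 2) (b := 0) (c := 3) (cn := .up) (n1 := ndB0q2) (n2 := ndB4q0) (pc := pcB3) (cut := Cut.none) (xt := Ext.none) (P1 := 0) (W1 := 536870912) (P2 := 0) (W2 := 536870912) (P3 := 536870912) (W3 := 50465866) (N0 := 3) (En := eng) (mo := mog) (C1 := cd0q2) (C2 := cd4q0) (C3 := pd3)
    rfl (fun _ => rfl) k0_pm_203

noncomputable def f_pm_213 : ℕ → ℕ → ℕ → ℕ → Bool := onCell 0 536870912 1610612736 536870912 536870912 50465866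
    (rowB 3 eng mog cd0q2 cd4q1 pd3 1 true true false .pnn 2 1 3 (qsf 0 536870912 536870912 536870912 3) ndB0q2 ndB4q1 pcB3 Cut.none Ext.none)

def k0_pm_213 : ∃ t, chk3 f_pm_213 t 1 1 1 = true :=
  ⟨(b (a (l 4) (b (a (b (l 1) (l 4)) (a (b (l 16892816) (l 16860128)) (b (l 16928424) (l 16889712)))) (a (l 4) (b (l 16843520) (l 4))))) (l 4)), by decide +kernel⟩

theorem c_pm_213 : CertB 0 536870912 536870912 536870912 536870912 50465866 3 eng mog cd0q2 cd4q1 pd3 true true false .pnn 2 1 3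
    ndB0q2 ndB4q1 pcB3 Cut.none Ext.none :=
  certB1 (fam := true) (s1 := true) (s2 := false) (a := 2) (b := 1) (c := 3) (cn := .pnn) (n1 := ndB0q2) (n2 := ndB4q1) (pc := pcB3) (cut := Cut.none) (xt := Ext.none) (P1 := 0) (W1 := 536870912) (P2 := 536870912) (W2 := 536870912) (P3 := 536870912) (W3 := 50465866) (N0 := 3) (En := eng) (mo := mog) (C1 := cd0q2) (C2 := cd4q1) (C3 := pd3)
    rfl (fun _ => rfl) k0_pm_213

noncomputable def f_mm_001 : ℕ → ℕ → ℕ → ℕ → Bool := onCell 0 536870912 0 536870912 536870912 50465866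
    (rowB 3 eng mog cd0q0 cd4q0 pd1 0 true false false .up 0 0 1 (qsf 0 536870912 0 536870912 1) ndB0q0 ndB4q0 pcB1 Cut.none Ext.none)

def k0_mm_001 : ∃ t, chk3 f_mm_001 t 1 1 1 = true :=
  ⟨(l 4), by decide +kernel⟩

theorem c_mm_001 : CertB 0 536870912 0 536870912 536870912 50465866 3 eng mog cd0q0 cd4q0 pd1 true false false .up 0 0 1
    ndB0q0 ndB4q0 pcB1 Cut.none Ext.none :=
  certB0 (fam := true) (s1 := false) (s2 := false) (a := 0) (b := 0) (c := 1) (cn := .up) (n1 := ndB0q0) (n2 := ndB4q0) (pc := pcB1) (cut := Cut.none) (xt := Ext.none) (P1 := 0) (W1 := 536870912) (P2 := 0) (W2 := 536870912) (P3 := 536870912) (W3 := 50465866) (N0 := 3) (En := eng) (mo := mog) (C1 := cd0q0) (C2 := cd4q0) (C3 := pd1)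
    rfl k0_mm_001

noncomputable def f_mm_011 : ℕ → ℕ → ℕ → ℕ → Bool := onCell 0 536870912 536870912 536870912 536870912 50465866
    (rowB 3 eng mog cd0q0 cd4q1 pd1 0 true false false .pnn 0 1 1 (qsf 0 536870912 536870912 536870912 1) ndB0q0 ndB4q1 pcB1 Cut.none Ext.none)

def k0_mm_011 : ∃ t, chk3 f_mm_011 t 1 1 1 = true :=
  ⟨(l 4), by decide +kernel⟩

theorem c_mm_011 : CertB 0 536870912 536870912 536870912 536870912 50465866 3 eng mog cd0q0 cd4q1 pd1 true false false .pnn 0 1 1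
    ndB0q0 ndB4q1 pcB1 Cut.none Ext.none :=
  certB0 (fam := true) (s1 := false) (s2 := false) (a := 0) (b := 1) (c := 1) (cn := .pnn) (n1 := ndB0q0) (n2 := ndB4q1) (pc := pcB1) (cut := Cut.none) (xt := Ext.none) (P1 := 0) (W1 := 536870912) (P2 := 536870912) (W2 := 536870912) (P3 := 536870912) (W3 := 50465866) (N0 := 3) (En := eng) (mo := mog) (C1 := cd0q0) (C2 := cd4q1) (C3 := pd1)
    rfl k0_mm_011

noncomputable def f_mm_012 : ℕ → ℕ → ℕ → ℕ → Bool := onCell 0 536870912 536870912 536870912 536870912 50465866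
    (rowB 3 eng mog cd0q0 cd4q1 pd2 0 true false false .pnp 0 1 2 (qsf 0 536870912 536870912 536870912 2) ndB0q0 ndB4q1 pcB2 Cut.none Ext.none)

def k0_mm_012 : ∃ t, chk3 f_mm_012 t 1 1 1 = true :=
  ⟨(l 4), by decide +kernel⟩

theorem c_mm_012 : CertB 0 536870912 536870912 536870912 536870912 50465866 3 eng mog cd0q0 cd4q1 pd2 true false false .pnp 0 1 2
    ndB0q0 ndB4q1 pcB2 Cut.none Ext.none :=
  certB0 (fam := true) (s1 := false) (s2 := false) (a := 0) (b := 1) (c := 2) (cn := .pnp) (n1 := ndB0q0) (n2 := ndB4q1) (pc := pcB2) (cut := Cut.none) (xt := Ext.none) (P1 := 0) (W1 := 536870912) (P2 := 536870912) (W2 := 536870912) (P3 := 536870912) (W3 := 50465866) (N0 := 3) (En := eng) (mo := mog) (C1 := cd0q0) (C2 := cd4q1) (C3 := pd2)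
    rfl k0_mm_012

noncomputable def f_mm_022 : ℕ → ℕ → ℕ → ℕ → Bool := onCell 0 536870912 1073741824 536870912 536870912 50465866
    (rowB 3 eng mog cd0q0 cd4q2 pd2 0 true false false .pp 0 2 2 (qsf 0 536870912 1073741824 536870912 2) ndB0q0 ndB4q2 pcB2 Cut.none Ext.none)

def k0_mm_022 : ∃ t, chk3 f_mm_022 t 1 1 1 = true :=
  ⟨(l 4), by decide +kernel⟩

theorem c_mm_022 : CertB 0 536870912 1073741824 536870912 536870912 50465866 3 eng mog cd0q0 cd4q2 pd2 true false false .pp 0 2 2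
    ndB0q0 ndB4q2 pcB2 Cut.none Ext.none :=
  certB0 (fam := true) (s1 := false) (s2 := false) (a := 0) (b := 2) (c := 2) (cn := .pp) (n1 := ndB0q0) (n2 := ndB4q2) (pc := pcB2) (cut := Cut.none) (xt := Ext.none) (P1 := 0) (W1 := 536870912) (P2 := 1073741824) (W2 := 536870912) (P3 := 536870912) (W3 := 50465866) (N0 := 3) (En := eng) (mo := mog) (C1 := cd0q0) (C2 := cd4q2) (C3 := pd2)
    rfl k0_mm_022

noncomputable def f_mm_023 : ℕ → ℕ → ℕ → ℕ → Bool := onCell 0 536870912 1073741824 536870912 536870912 50465866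
    (rowB 3 eng mog cd0q0 cd4q2 pd3 0 true false false .up 0 2 3 (qsf 0 536870912 1073741824 536870912 3) ndB0q0 ndB4q2 pcB3 Cut.none Ext.none)

def k0_mm_023 : ∃ t, chk3 f_mm_023 t 1 1 1 = true :=
  ⟨(l 4), by decide +kernel⟩

theorem c_mm_023 : CertB 0 536870912 1073741824 536870912 536870912 50465866 3 eng mog cd0q0 cd4q2 pd3 true false false .up 0 2 3
    ndB0q0 ndB4q2 pcB3 Cut.none Ext.none :=
  certB0 (fam := true) (s1 := false) (s2 := false) (a := 0) (b := 2) (c := 3) (cn := .up) (n1 := ndB0q0) (n2 := ndB4q2) (pc := pcB3) (cut := Cut.none) (xt := Ext.none) (P1 := 0) (W1 := 536870912) (P2 := 1073741824) (W2 := 536870912) (P3 := 536870912) (W3 := 50465866) (N0 := 3) (En := eng) (mo := mog) (C1 := cd0q0) (C2 := cd4q2) (C3 := pd3)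
    rfl k0_mm_023

noncomputable def f_mm_033 : ℕ → ℕ → ℕ → ℕ → Bool := onCell 0 536870912 0 1230186008 536870912 50465866
    (rowB 3 eng mog cd0q0 cd4q3 pd3 0 true false false .pnn 0 3 3 (qsf 0 536870912 0 1230186008 3) ndB0q0 ndB4q3 pcB3 Cut.none Ext.none)

def k0_mm_033 : ∃ t, chk3 f_mm_033 t 1 1 1 = true :=
  ⟨(l 5), by decide +kernel⟩

theorem c_mm_033 : CertB 0 536870912 0 1230186008 536870912 50465866 3 eng mog cd0q0 cd4q3 pd3 true false false .pnn 0 3 3
    ndB0q0 ndB4q3 pcB3 Cut.none Ext.none :=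
  certB0 (fam := true) (s1 := false) (s2 := false) (a := 0) (b := 3) (c := 3) (cn := .pnn) (n1 := ndB0q0) (n2 := ndB4q3) (pc := pcB3) (cut := Cut.none) (xt := Ext.none) (P1 := 0) (W1 := 536870912) (P2 := 0) (W2 := 1230186008) (P3 := 536870912) (W3 := 50465866) (N0 := 3) (En := eng) (mo := mog) (C1 := cd0q0) (C2 := cd4q3) (C3 := pd3)
    rfl k0_mm_033

noncomputable def f_mm_101 : ℕ → ℕ → ℕ → ℕ → Bool := onCell 536870912 536870912 0 536870912 536870912 50465866
    (rowB 3 eng mog cd0q1 cd4q0 pd1 0 true false false .npn 1 0 1 (qsf 536870912 536870912 0 536870912 1) ndB0q1 ndB4q0 pcB1 Cut.none Ext.none)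

def k0_mm_101 : ∃ t, chk3 f_mm_101 t 1 1 1 = true :=
  ⟨(l 4), by decide +kernel⟩

theorem c_mm_101 : CertB 536870912 536870912 0 536870912 536870912 50465866 3 eng mog cd0q1 cd4q0 pd1 true false false .npn 1 0 1
    ndB0q1 ndB4q0 pcB1 Cut.none Ext.none :=
  certB0 (fam := true) (s1 := false) (s2 := false) (a := 1) (b := 0) (c := 1) (cn := .npn) (n1 := ndB0q1) (n2 := ndB4q0) (pc := pcB1) (cut := Cut.none) (xt := Ext.none) (P1 := 536870912) (W1 := 536870912) (P2 := 0) (W2 := 536870912) (P3 := 536870912) (W3 := 50465866) (N0 := 3) (En := eng) (mo := mog) (C1 := cd0q1) (C2 := cd4q0) (C3 := pd1)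
    rfl k0_mm_101

noncomputable def f_mm_102 : ℕ → ℕ → ℕ → ℕ → Bool := onCell 536870912 536870912 0 536870912 536870912 50465866
    (rowB 3 eng mog cd0q1 cd4q0 pd2 0 true false false .npp 1 0 2 (qsf 536870912 536870912 0 536870912 2) ndB0q1 ndB4q0 pcB2 Cut.none Ext.none)

def k0_mm_102 : ∃ t, chk3 f_mm_102 t 1 1 1 = true :=
  ⟨(l 4), by decide +kernel⟩

theorem c_mm_102 : CertB 536870912 536870912 0 536870912 536870912 50465866 3 eng mog cd0q1 cd4q0 pd2 true false false .npp 1 0 2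
    ndB0q1 ndB4q0 pcB2 Cut.none Ext.none :=
  certB0 (fam := true) (s1 := false) (s2 := false) (a := 1) (b := 0) (c := 2) (cn := .npp) (n1 := ndB0q1) (n2 := ndB4q0) (pc := pcB2) (cut := Cut.none) (xt := Ext.none) (P1 := 536870912) (W1 := 536870912) (P2 := 0) (W2 := 536870912) (P3 := 536870912) (W3 := 50465866) (N0 := 3) (En := eng) (mo := mog) (C1 := cd0q1) (C2 := cd4q0) (C3 := pd2)
    rfl k0_mm_102

noncomputable def f_mm_112 : ℕ → ℕ → ℕ → ℕ → Bool := onCell 536870912 536870912 536870912 536870912 536870912 50465866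
    (rowB 3 eng mog cd0q1 cd4q1 pd2 0 true false false .dn 1 1 2 (qsf 536870912 536870912 536870912 536870912 2) ndB0q1 ndB4q1 pcB2 Cut.none Ext.none)

def k0_mm_112 : ∃ t, chk3 f_mm_112 t 1 1 1 = true :=
  ⟨(l 4), by decide +kernel⟩

theorem c_mm_112 : CertB 536870912 536870912 536870912 536870912 536870912 50465866 3 eng mog cd0q1 cd4q1 pd2 true false false .dn 1 1 2
    ndB0q1 ndB4q1 pcB2 Cut.none Ext.none :=
  certB0 (fam := true) (s1 := false) (s2 := false) (a := 1) (b := 1) (c := 2) (cn := .dn) (n1 := ndB0q1) (n2 := ndB4q1) (pc := pcB2) (cut := Cut.none) (xt := Ext.none) (P1 := 536870912) (W1 := 536870912) (P2 := 536870912) (W2 := 536870912) (P3 := 536870912) (W3 := 50465866) (N0 := 3) (En := eng) (mo := mog) (C1 := cd0q1) (C2 := cd4q1) (C3 := pd2)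
    rfl k0_mm_112

noncomputable def f_mm_113 : ℕ → ℕ → ℕ → ℕ → Bool := onCell 536870912 536870912 536870912 536870912 536870912 50465866
    (rowB 3 eng mog cd0q1 cd4q1 pd3 0 true false false .nn 1 1 3 (qsf 536870912 536870912 536870912 536870912 3) ndB0q1 ndB4q1 pcB3 Cut.none Ext.none)

def k0_mm_113 : ∃ t, chk3 f_mm_113 t 1 1 1 = true :=
  ⟨(l 4), by decide +kernel⟩

theorem c_mm_113 : CertB 536870912 536870912 536870912 536870912 536870912 50465866 3 eng mog cd0q1 cd4q1 pd3 true false false .nn 1 1 3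
    ndB0q1 ndB4q1 pcB3 Cut.none Ext.none :=
  certB0 (fam := true) (s1 := false) (s2 := false) (a := 1) (b := 1) (c := 3) (cn := .nn) (n1 := ndB0q1) (n2 := ndB4q1) (pc := pcB3) (cut := Cut.none) (xt := Ext.none) (P1 := 536870912) (W1 := 536870912) (P2 := 536870912) (W2 := 536870912) (P3 := 536870912) (W3 := 50465866) (N0 := 3) (En := eng) (mo := mog) (C1 := cd0q1) (C2 := cd4q1) (C3 := pd3)
    rfl k0_mm_113

noncomputable def f_mm_123 : ℕ → ℕ → ℕ → ℕ → Bool := onCell 536870912 536870912 1073741824 536870912 536870912 50465866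
    (rowB 3 eng mog cd0q1 cd4q2 pd3 0 true false false .npn 1 2 3 (qsf 536870912 536870912 1073741824 536870912 3) ndB0q1 ndB4q2 pcB3 Cut.none Ext.none)

def k0_mm_123 : ∃ t, chk3 f_mm_123 t 1 1 1 = true :=
  ⟨(l 4), by decide +kernel⟩

theorem c_mm_123 : CertB 536870912 536870912 1073741824 536870912 536870912 50465866 3 eng mog cd0q1 cd4q2 pd3 true false false .npn 1 2 3
    ndB0q1 ndB4q2 pcB3 Cut.none Ext.none :=
  certB0 (fam := true) (s1 := false) (s2 := false) (a := 1) (b := 2) (c := 3) (cn := .npn) (n1 := ndB0q1) (n2 := ndB4q2) (pc := pcB3) (cut := Cut.none) (xt := Ext.none) (P1 := 536870912) (W1 := 536870912) (P2 := 1073741824) (W2 := 536870912) (P3 := 536870912) (W3 := 50465866) (N0 := 3) (En := eng) (mo := mog) (C1 := cd0q1) (C2 := cd4q2) (C3 := pd3)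
    rfl k0_mm_123

noncomputable def f_mm_133 : ℕ → ℕ → ℕ → ℕ → Bool := onCell 536870912 536870912 0 1230186008 536870912 50465866
    (rowB 3 eng mog cd0q1 cd4q3 pd3 0 true false false .dn 1 3 3 (qsf 536870912 536870912 0 1230186008 3) ndB0q1 ndB4q3 pcB3 Cut.none Ext.none)

def k0_mm_133 : ∃ t, chk3 f_mm_133 t 1 1 1 = true :=
  ⟨(l 4), by decide +kernel⟩

theorem c_mm_133 : CertB 536870912 536870912 0 1230186008 536870912 50465866 3 eng mog cd0q1 cd4q3 pd3 true false false .dn 1 3 3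
    ndB0q1 ndB4q3 pcB3 Cut.none Ext.none :=
  certB0 (fam := true) (s1 := false) (s2 := false) (a := 1) (b := 3) (c := 3) (cn := .dn) (n1 := ndB0q1) (n2 := ndB4q3) (pc := pcB3) (cut := Cut.none) (xt := Ext.none) (P1 := 536870912) (W1 := 536870912) (P2 := 0) (W2 := 1230186008) (P3 := 536870912) (W3 := 50465866) (N0 := 3) (En := eng) (mo := mog) (C1 := cd0q1) (C2 := cd4q3) (C3 := pd3)
    rfl k0_mm_133

noncomputable def f_mm_202 : ℕ → ℕ → ℕ → ℕ → Bool := onCell 0 536870912 0 536870912 536870912 50465866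
    (rowB 3 eng mog cd0q2 cd4q0 pd2 0 true false false .pp 2 0 2 (qsf 0 536870912 0 536870912 2) ndB0q2 ndB4q0 pcB2 Cut.none Ext.none)

def k0_mm_202 : ∃ t, chk3 f_mm_202 t 1 1 1 = true :=
  ⟨(b (a (b (a (b (a (b (l 16598336) (l 16632216)) (b (l 16603944) (l 16640360))) (a (l 16682968) (l 16692064))) (b (b (a (l 16613912) (l 16628080)) (a (l 16651616) (l 4))) (l 4))) (a (b (a (l 16740088) (l 4)) (l 4)) (l 4))) (l 4)) (l 4)), by decide +kernel⟩

theorem c_mm_202 : CertB 0 536870912 0 536870912 536870912 50465866 3 eng mog cd0q2 cd4q0 pd2 true false false .pp 2 0 2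
    ndB0q2 ndB4q0 pcB2 Cut.none Ext.none :=
  certB0 (fam := true) (s1 := false) (s2 := false) (a := 2) (b := 0) (c := 2) (cn := .pp) (n1 := ndB0q2) (n2 := ndB4q0) (pc := pcB2) (cut := Cut.none) (xt := Ext.none) (P1 := 0) (W1 := 536870912) (P2 := 0) (W2 := 536870912) (P3 := 536870912) (W3 := 50465866) (N0 := 3) (En := eng) (mo := mog) (C1 := cd0q2) (C2 := cd4q0) (C3 := pd2)
    rfl k0_mm_202

noncomputable def f_mm_203 : ℕ → ℕ → ℕ → ℕ → Bool := onCell 0 536870912 1610612736 536870912 536870912 50465866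
    (rowB 3 eng mog cd0q2 cd4q0 pd3 1 true false false .up 2 0 3 (qsf 0 536870912 0 536870912 3) ndB0q2 ndB4q0 pcB3 Cut.none Ext.none)

def k0_mm_203 : ∃ t, chk3 f_mm_203 t 1 1 1 = true :=
  ⟨(l 4), by decide +kernel⟩

theorem c_mm_203 : CertB 0 536870912 0 536870912 536870912 50465866 3 eng mog cd0q2 cd4q0 pd3 true false false .up 2 0 3
    ndB0q2 ndB4q0 pcB3 Cut.none Ext.none :=
  certB1 (fam := true) (s1 := false) (s2 := false) (a := 2) (b := 0) (c := 3) (cn := .up) (n1 := ndB0q2) (n2 := ndB4q0) (pc := pcB3) (cut := Cut.none) (xt := Ext.none) (P1 := 0) (W1 := 536870912) (P2 := 0) (W2 := 536870912) (P3 := 536870912) (W3 := 50465866) (N0 := 3) (En := eng) (mo := mog) (C1 := cd0q2) (C2 := cd4q0) (C3 := pd3)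
    rfl (fun _ => rfl) k0_mm_203

noncomputable def f_mm_213 : ℕ → ℕ → ℕ → ℕ → Bool := onCell 0 536870912 536870912 536870912 536870912 50465866
    (rowB 3 eng mog cd0q2 cd4q1 pd3 0 true false false .pnn 2 1 3 (qsf 0 536870912 536870912 536870912 3) ndB0q2 ndB4q1 pcB3 Cut.none Ext.none)

def k0_mm_213 : ∃ t, chk3 f_mm_213 t 1 1 1 = true :=
  ⟨(l 4), by decide +kernel⟩

theorem c_mm_213 : CertB 0 536870912 536870912 536870912 536870912 50465866 3 eng mog cd0q2 cd4q1 pd3 true false false .pnn 2 1 3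
    ndB0q2 ndB4q1 pcB3 Cut.none Ext.none :=
  certB0 (fam := true) (s1 := false) (s2 := false) (a := 2) (b := 1) (c := 3) (cn := .pnn) (n1 := ndB0q2) (n2 := ndB4q1) (pc := pcB3) (cut := Cut.none) (xt := Ext.none) (P1 := 0) (W1 := 536870912) (P2 := 536870912) (W2 := 536870912) (P3 := 536870912) (W3 := 50465866) (N0 := 3) (En := eng) (mo := mog) (C1 := cd0q2) (C2 := cd4q1) (C3 := pd3)
    rfl k0_mm_213

end Pool.Agent.Strip051.G.I5000_5470.Tab.C.BA04

namespace Pool.Agent.Strip051.G.I5000_5470.Tab.C.BA05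

open Pool.Agent.Strip051.PB Pool.Agent.Strip051.PB.T
open Pool.Agent.Strip051.G.I5000_5470.Tab

noncomputable def f_pp_001 : ℕ → ℕ → ℕ → ℕ → Bool := onCell 0 536870912 0 536870912 536870912 50465866
    (rowB 3 eng mog cd0q0 cd5q0 pd1 0 true true true .up 0 0 1 (qsf 0 536870912 0 536870912 1) ndB0q0 ndB5q0 pcB1 Cut.none Ext.none)

def k0_pp_001 : ∃ t, chk3 f_pp_001 t 1 1 1 = true :=
  ⟨(l 4), by decide +kernel⟩

theorem c_pp_001 : CertB 0 536870912 0 536870912 536870912 50465866 3 eng mog cd0q0 cd5q0 pd1 true true true .up 0 0 1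
    ndB0q0 ndB5q0 pcB1 Cut.none Ext.none :=
  certB0 (fam := true) (s1 := true) (s2 := true) (a := 0) (b := 0) (c := 1) (cn := .up) (n1 := ndB0q0) (n2 := ndB5q0) (pc := pcB1) (cut := Cut.none) (xt := Ext.none) (P1 := 0) (W1 := 536870912) (P2 := 0) (W2 := 536870912) (P3 := 536870912) (W3 := 50465866) (N0 := 3) (En := eng) (mo := mog) (C1 := cd0q0) (C2 := cd5q0) (C3 := pd1)
    rfl k0_pp_001

noncomputable def f_pp_011 : ℕ → ℕ → ℕ → ℕ → Bool := onCell 0 536870912 536870912 536870912 536870912 50465866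
    (rowB 3 eng mog cd0q0 cd5q1 pd1 0 true true true .pnn 0 1 1 (qsf 0 536870912 536870912 536870912 1) ndB0q0 ndB5q1 pcB1 Cut.none Ext.none)

def k0_pp_011 : ∃ t, chk3 f_pp_011 t 1 1 1 = true :=
  ⟨(l 4), by decide +kernel⟩

theorem c_pp_011 : CertB 0 536870912 536870912 536870912 536870912 50465866 3 eng mog cd0q0 cd5q1 pd1 true true true .pnn 0 1 1
    ndB0q0 ndB5q1 pcB1 Cut.none Ext.none :=
  certB0 (fam := true) (s1 := true) (s2 := true) (a := 0) (b := 1) (c := 1) (cn := .pnn) (n1 := ndB0q0) (n2 := ndB5q1) (pc := pcB1) (cut := Cut.none) (xt := Ext.none) (P1 := 0) (W1 := 536870912) (P2 := 536870912) (W2 := 536870912) (P3 := 536870912) (W3 := 50465866) (N0 := 3) (En := eng) (mo := mog) (C1 := cd0q0) (C2 := cd5q1) (C3 := pd1)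
    rfl k0_pp_011

noncomputable def f_pp_012 : ℕ → ℕ → ℕ → ℕ → Bool := onCell 0 536870912 536870912 536870912 536870912 50465866
    (rowB 3 eng mog cd0q0 cd5q1 pd2 0 true true true .pnp 0 1 2 (qsf 0 536870912 536870912 536870912 2) ndB0q0 ndB5q1 pcB2 Cut.none Ext.none)

def k0_pp_012 : ∃ t, chk3 f_pp_012 t 1 1 1 = true :=
  ⟨(l 4), by decide +kernel⟩

theorem c_pp_012 : CertB 0 536870912 536870912 536870912 536870912 50465866 3 eng mog cd0q0 cd5q1 pd2 true true true .pnp 0 1 2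
    ndB0q0 ndB5q1 pcB2 Cut.none Ext.none :=
  certB0 (fam := true) (s1 := true) (s2 := true) (a := 0) (b := 1) (c := 2) (cn := .pnp) (n1 := ndB0q0) (n2 := ndB5q1) (pc := pcB2) (cut := Cut.none) (xt := Ext.none) (P1 := 0) (W1 := 536870912) (P2 := 536870912) (W2 := 536870912) (P3 := 536870912) (W3 := 50465866) (N0 := 3) (En := eng) (mo := mog) (C1 := cd0q0) (C2 := cd5q1) (C3 := pd2)
    rfl k0_pp_012

noncomputable def f_pp_022 : ℕ → ℕ → ℕ → ℕ → Bool := onCell 0 536870912 1073741824 536870912 536870912 50465866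
    (rowB 3 eng mog cd0q0 cd5q2 pd2 0 true true true .pp 0 2 2 (qsf 0 536870912 1073741824 536870912 2) ndB0q0 ndB5q2 pcB2 Cut.none Ext.none)

def k0_pp_022 : ∃ t, chk3 f_pp_022 t 1 1 1 = true :=
  ⟨(l 4), by decide +kernel⟩

theorem c_pp_022 : CertB 0 536870912 1073741824 536870912 536870912 50465866 3 eng mog cd0q0 cd5q2 pd2 true true true .pp 0 2 2
    ndB0q0 ndB5q2 pcB2 Cut.none Ext.none :=
  certB0 (fam := true) (s1 := true) (s2 := true) (a := 0) (b := 2) (c := 2) (cn := .pp) (n1 := ndB0q0) (n2 := ndB5q2) (pc := pcB2) (cut := Cut.none) (xt := Ext.none) (P1 := 0) (W1 := 536870912) (P2 := 1073741824) (W2 := 536870912) (P3 := 536870912) (W3 := 50465866) (N0 := 3) (En := eng) (mo := mog) (C1 := cd0q0) (C2 := cd5q2) (C3 := pd2)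
    rfl k0_pp_022

noncomputable def f_pp_023 : ℕ → ℕ → ℕ → ℕ → Bool := onCell 0 536870912 1073741824 536870912 536870912 50465866
    (rowB 3 eng mog cd0q0 cd5q2 pd3 0 true true true .up 0 2 3 (qsf 0 536870912 1073741824 536870912 3) ndB0q0 ndB5q2 pcB3 Cut.none Ext.none)

def k0_pp_023 : ∃ t, chk3 f_pp_023 t 1 1 1 = true :=
  ⟨(l 4), by decide +kernel⟩

theorem c_pp_023 : CertB 0 536870912 1073741824 536870912 536870912 50465866 3 eng mog cd0q0 cd5q2 pd3 true true true .up 0 2 3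
    ndB0q0 ndB5q2 pcB3 Cut.none Ext.none :=
  certB0 (fam := true) (s1 := true) (s2 := true) (a := 0) (b := 2) (c := 3) (cn := .up) (n1 := ndB0q0) (n2 := ndB5q2) (pc := pcB3) (cut := Cut.none) (xt := Ext.none) (P1 := 0) (W1 := 536870912) (P2 := 1073741824) (W2 := 536870912) (P3 := 536870912) (W3 := 50465866) (N0 := 3) (En := eng) (mo := mog) (C1 := cd0q0) (C2 := cd5q2) (C3 := pd3)
    rfl k0_pp_023

noncomputable def f_pp_033 : ℕ → ℕ → ℕ → ℕ → Bool := onCell 0 536870912 0 1230186008 536870912 50465866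
    (rowB 3 eng mog cd0q0 cd5q3 pd3 0 true true true .pnn 0 3 3 (qsf 0 536870912 0 1230186008 3) ndB0q0 ndB5q3 pcB3 Cut.none Ext.none)

def k0_pp_033 : ∃ t, chk3 f_pp_033 t 1 1 1 = true :=
  ⟨(b (l 4) (l 4)), by decide +kernel⟩

theorem c_pp_033 : CertB 0 536870912 0 1230186008 536870912 50465866 3 eng mog cd0q0 cd5q3 pd3 true true true .pnn 0 3 3
    ndB0q0 ndB5q3 pcB3 Cut.none Ext.none :=
  certB0 (fam := true) (s1 := true) (s2 := true) (a := 0) (b := 3) (c := 3) (cn := .pnn) (n1 := ndB0q0) (n2 := ndB5q3) (pc := pcB3) (cut := Cut.none) (xt := Ext.none) (P1 := 0) (W1 := 536870912) (P2 := 0) (W2 := 1230186008) (P3 := 536870912) (W3 := 50465866) (N0 := 3) (En := eng) (mo := mog) (C1 := cd0q0) (C2 := cd5q3) (C3 := pd3)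
    rfl k0_pp_033

noncomputable def f_pp_101 : ℕ → ℕ → ℕ → ℕ → Bool := onCell 536870912 536870912 0 536870912 536870912 50465866
    (rowB 3 eng mog cd0q1 cd5q0 pd1 0 true true true .npn 1 0 1 (qsf 536870912 536870912 0 536870912 1) ndB0q1 ndB5q0 pcB1 Cut.none Ext.none)

def k0_pp_101 : ∃ t, chk3 f_pp_101 t 1 1 1 = true :=
  ⟨(l 4), by decide +kernel⟩

theorem c_pp_101 : CertB 536870912 536870912 0 536870912 536870912 50465866 3 eng mog cd0q1 cd5q0 pd1 true true true .npn 1 0 1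
    ndB0q1 ndB5q0 pcB1 Cut.none Ext.none :=
  certB0 (fam := true) (s1 := true) (s2 := true) (a := 1) (b := 0) (c := 1) (cn := .npn) (n1 := ndB0q1) (n2 := ndB5q0) (pc := pcB1) (cut := Cut.none) (xt := Ext.none) (P1 := 536870912) (W1 := 536870912) (P2 := 0) (W2 := 536870912) (P3 := 536870912) (W3 := 50465866) (N0 := 3) (En := eng) (mo := mog) (C1 := cd0q1) (C2 := cd5q0) (C3 := pd1)
    rfl k0_pp_101

noncomputable def f_pp_102 : ℕ → ℕ → ℕ → ℕ → Bool := onCell 536870912 536870912 0 536870912 536870912 50465866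
    (rowB 3 eng mog cd0q1 cd5q0 pd2 0 true true true .npp 1 0 2 (qsf 536870912 536870912 0 536870912 2) ndB0q1 ndB5q0 pcB2 Cut.none Ext.none)

def k0_pp_102 : ∃ t, chk3 f_pp_102 t 1 1 1 = true :=
  ⟨(l 4), by decide +kernel⟩

theorem c_pp_102 : CertB 536870912 536870912 0 536870912 536870912 50465866 3 eng mog cd0q1 cd5q0 pd2 true true true .npp 1 0 2
    ndB0q1 ndB5q0 pcB2 Cut.none Ext.none :=
  certB0 (fam := true) (s1 := true) (s2 := true) (a := 1) (b := 0) (c := 2) (cn := .npp) (n1 := ndB0q1) (n2 := ndB5q0) (pc := pcB2) (cut := Cut.none) (xt := Ext.none) (P1 := 536870912) (W1 := 536870912) (P2 := 0) (W2 := 536870912) (P3 := 536870912) (W3 := 50465866) (N0 := 3) (En := eng) (mo := mog) (C1 := cd0q1) (C2 := cd5q0) (C3 := pd2)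
    rfl k0_pp_102

noncomputable def f_pp_112 : ℕ → ℕ → ℕ → ℕ → Bool := onCell 536870912 536870912 536870912 536870912 536870912 50465866
    (rowB 3 eng mog cd0q1 cd5q1 pd2 0 true true true .dn 1 1 2 (qsf 536870912 536870912 536870912 536870912 2) ndB0q1 ndB5q1 pcB2 Cut.none Ext.none)

def k0_pp_112 : ∃ t, chk3 f_pp_112 t 1 1 1 = true :=
  ⟨(l 4), by decide +kernel⟩

theorem c_pp_112 : CertB 536870912 536870912 536870912 536870912 536870912 50465866 3 eng mog cd0q1 cd5q1 pd2 true true true .dn 1 1 2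
    ndB0q1 ndB5q1 pcB2 Cut.none Ext.none :=
  certB0 (fam := true) (s1 := true) (s2 := true) (a := 1) (b := 1) (c := 2) (cn := .dn) (n1 := ndB0q1) (n2 := ndB5q1) (pc := pcB2) (cut := Cut.none) (xt := Ext.none) (P1 := 536870912) (W1 := 536870912) (P2 := 536870912) (W2 := 536870912) (P3 := 536870912) (W3 := 50465866) (N0 := 3) (En := eng) (mo := mog) (C1 := cd0q1) (C2 := cd5q1) (C3 := pd2)
    rfl k0_pp_112

noncomputable def f_pp_113 : ℕ → ℕ → ℕ → ℕ → Bool := onCell 536870912 536870912 536870912 536870912 536870912 50465866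
    (rowB 3 eng mog cd0q1 cd5q1 pd3 0 true true true .nn 1 1 3 (qsf 536870912 536870912 536870912 536870912 3) ndB0q1 ndB5q1 pcB3 Cut.none Ext.none)

def k0_pp_113 : ∃ t, chk3 f_pp_113 t 1 1 1 = true :=
  ⟨(l 4), by decide +kernel⟩

theorem c_pp_113 : CertB 536870912 536870912 536870912 536870912 536870912 50465866 3 eng mog cd0q1 cd5q1 pd3 true true true .nn 1 1 3
    ndB0q1 ndB5q1 pcB3 Cut.none Ext.none :=
  certB0 (fam := true) (s1 := true) (s2 := true) (a := 1) (b := 1) (c := 3) (cn := .nn) (n1 := ndB0q1) (n2 := ndB5q1) (pc := pcB3) (cut := Cut.none) (xt := Ext.none) (P1 := 536870912) (W1 := 536870912) (P2 := 536870912) (W2 := 536870912) (P3 := 536870912) (W3 := 50465866) (N0 := 3) (En := eng) (mo := mog) (C1 := cd0q1) (C2 := cd5q1) (C3 := pd3)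
    rfl k0_pp_113

noncomputable def f_pp_123 : ℕ → ℕ → ℕ → ℕ → Bool := onCell 536870912 536870912 1073741824 536870912 536870912 50465866
    (rowB 3 eng mog cd0q1 cd5q2 pd3 0 true true true .npn 1 2 3 (qsf 536870912 536870912 1073741824 536870912 3) ndB0q1 ndB5q2 pcB3 Cut.none Ext.none)

def k0_pp_123 : ∃ t, chk3 f_pp_123 t 1 1 1 = true :=
  ⟨(l 4), by decide +kernel⟩

theorem c_pp_123 : CertB 536870912 536870912 1073741824 536870912 536870912 50465866 3 eng mog cd0q1 cd5q2 pd3 true true true .npn 1 2 3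
    ndB0q1 ndB5q2 pcB3 Cut.none Ext.none :=
  certB0 (fam := true) (s1 := true) (s2 := true) (a := 1) (b := 2) (c := 3) (cn := .npn) (n1 := ndB0q1) (n2 := ndB5q2) (pc := pcB3) (cut := Cut.none) (xt := Ext.none) (P1 := 536870912) (W1 := 536870912) (P2 := 1073741824) (W2 := 536870912) (P3 := 536870912) (W3 := 50465866) (N0 := 3) (En := eng) (mo := mog) (C1 := cd0q1) (C2 := cd5q2) (C3 := pd3)
    rfl k0_pp_123

noncomputable def f_pp_133 : ℕ → ℕ → ℕ → ℕ → Bool := onCell 536870912 536870912 0 1230186008 536870912 50465866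
    (rowB 3 eng mog cd0q1 cd5q3 pd3 0 true true true .dn 1 3 3 (qsf 536870912 536870912 0 1230186008 3) ndB0q1 ndB5q3 pcB3 Cut.none Ext.none)

def k0_pp_133 : ∃ t, chk3 f_pp_133 t 1 1 1 = true :=
  ⟨(l 4), by decide +kernel⟩

theorem c_pp_133 : CertB 536870912 536870912 0 1230186008 536870912 50465866 3 eng mog cd0q1 cd5q3 pd3 true true true .dn 1 3 3
    ndB0q1 ndB5q3 pcB3 Cut.none Ext.none :=
  certB0 (fam := true) (s1 := true) (s2 := true) (a := 1) (b := 3) (c := 3) (cn := .dn) (n1 := ndB0q1) (n2 := ndB5q3) (pc := pcB3) (cut := Cut.none) (xt := Ext.none) (P1 := 536870912) (W1 := 536870912) (P2 := 0) (W2 := 1230186008) (P3 := 536870912) (W3 := 50465866) (N0 := 3) (En := eng) (mo := mog) (C1 := cd0q1) (C2 := cd5q3) (C3 := pd3)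
    rfl k0_pp_133

noncomputable def f_pp_202 : ℕ → ℕ → ℕ → ℕ → Bool := onCell 0 536870912 0 536870912 536870912 50465866
    (rowB 3 eng mog cd0q2 cd5q0 pd2 0 true true true .pp 2 0 2 (qsf 0 536870912 0 536870912 2) ndB0q2 ndB5q0 pcB2 Cut.none Ext.none)

def k0_pp_202 : ∃ t, chk3 f_pp_202 t 1 1 1 = true :=
  ⟨(l 4), by decide +kernel⟩

theorem c_pp_202 : CertB 0 536870912 0 536870912 536870912 50465866 3 eng mog cd0q2 cd5q0 pd2 true true true .pp 2 0 2
    ndB0q2 ndB5q0 pcB2 Cut.none Ext.none :=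
  certB0 (fam := true) (s1 := true) (s2 := true) (a := 2) (b := 0) (c := 2) (cn := .pp) (n1 := ndB0q2) (n2 := ndB5q0) (pc := pcB2) (cut := Cut.none) (xt := Ext.none) (P1 := 0) (W1 := 536870912) (P2 := 0) (W2 := 536870912) (P3 := 536870912) (W3 := 50465866) (N0 := 3) (En := eng) (mo := mog) (C1 := cd0q2) (C2 := cd5q0) (C3 := pd2)
    rfl k0_pp_202

noncomputable def f_pp_203 : ℕ → ℕ → ℕ → ℕ → Bool := onCell 0 536870912 0 536870912 536870912 50465866
    (rowB 3 eng mog cd0q2 cd5q0 pd3 0 true true true .up 2 0 3 (qsf 0 536870912 0 536870912 3) ndB0q2 ndB5q0 pcB3 Cut.none Ext.none)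

def k0_pp_203 : ∃ t, chk3 f_pp_203 t 1 1 1 = true :=
  ⟨(l 4), by decide +kernel⟩

theorem c_pp_203 : CertB 0 536870912 0 536870912 536870912 50465866 3 eng mog cd0q2 cd5q0 pd3 true true true .up 2 0 3
    ndB0q2 ndB5q0 pcB3 Cut.none Ext.none :=
  certB0 (fam := true) (s1 := true) (s2 := true) (a := 2) (b := 0) (c := 3) (cn := .up) (n1 := ndB0q2) (n2 := ndB5q0) (pc := pcB3) (cut := Cut.none) (xt := Ext.none) (P1 := 0) (W1 := 536870912) (P2 := 0) (W2 := 536870912) (P3 := 536870912) (W3 := 50465866) (N0 := 3) (En := eng) (mo := mog) (C1 := cd0q2) (C2 := cd5q0) (C3 := pd3)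
    rfl k0_pp_203

noncomputable def f_pp_213 : ℕ → ℕ → ℕ → ℕ → Bool := onCell 0 536870912 536870912 536870912 536870912 50465866
    (rowB 3 eng mog cd0q2 cd5q1 pd3 0 true true true .pnn 2 1 3 (qsf 0 536870912 536870912 536870912 3) ndB0q2 ndB5q1 pcB3 Cut.none Ext.none)

def k0_pp_213 : ∃ t, chk3 f_pp_213 t 1 1 1 = true :=
  ⟨(l 4), by decide +kernel⟩

theorem c_pp_213 : CertB 0 536870912 536870912 536870912 536870912 50465866 3 eng mog cd0q2 cd5q1 pd3 true true true .pnn 2 1 3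
    ndB0q2 ndB5q1 pcB3 Cut.none Ext.none :=
  certB0 (fam := true) (s1 := true) (s2 := true) (a := 2) (b := 1) (c := 3) (cn := .pnn) (n1 := ndB0q2) (n2 := ndB5q1) (pc := pcB3) (cut := Cut.none) (xt := Ext.none) (P1 := 0) (W1 := 536870912) (P2 := 536870912) (W2 := 536870912) (P3 := 536870912) (W3 := 50465866) (N0 := 3) (En := eng) (mo := mog) (C1 := cd0q2) (C2 := cd5q1) (C3 := pd3)
    rfl k0_pp_213

noncomputable def f_pm_001 : ℕ → ℕ → ℕ → ℕ → Bool := onCell 0 536870912 536870912 536870912 536870912 50465866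
    (rowB 3 eng mog cd0q0 cd5q0 pd1 1 true true false .up 0 0 1 (qsf 0 536870912 0 536870912 1) ndB0q0 ndB5q0 pcB1 Cut.none Ext.none)

def k0_pm_001 : ∃ t, chk3 f_pm_001 t 1 1 1 = true :=
  ⟨(b (l 3) (a (b (l 3) (l 2)) (b (a (l 3) (b (l 3) (a (b (l 3) (a (b (l 3) (b (l 3) (a (l 80161440423) (l 16684960)))) (b (a (l 3) (l 107004984471)) (a (b (a (l 16706048) (l 16699184)) (l 15736848119)) (b (l 16685040) (l 16666200)))))) (b (a (l 3) (b (l 3) (a (l 135459196103) (l 82845826407)))) (a (b (a (l 27548101015) (l 16705920)) (a (l 16666088) (l 16664256))) (b (a (l 16707248) (l 16712224)) (a (l 16665608) (l 16670712)))))))) (a (b (a (l 2) (b (a (l 2) (b (b (b (l 3) (l 2)) (l 2)) (l 2))) (l 2))) (l 2)) (b (a (b (a (b (a (b (l 14059137191) (l 27480879559)) (b (l 16661752) (l 16639304))) (a (b (l 59693102295) (l 2)) (b (l 16617800) (l 16597352)))) (b (a (c (l 16653408) (l 16632512)) (a (l 16637712) (l 16631024))) (a (c (l 16625216) (l 16583440)) (c (l 16593680) (l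 16572536))))) (a (b (a (l 2) (c (l 16600328) (l 16558416))) (l 2)) (b (a (c (l 16559760) (l 16539088)) (l 16573968)) (a (l 16530872) (l 16486736))))) (b (a (a (b (l 16621768) (b (l 16584592) (l 16559816))) (b (l 16619912) (l 16572176))) (a (b (l 16621408) (l 16610512)) (b (l 16626848) (l 16579672)))) (a (b (a (l 16539568) (c (l 16545760) (l 16494056))) (c (l 16530280) (l 16448664))) (c (b (a (l 16552216) (l 16558032)) (a (l 16474024) (l 16506264))) (b (l 16495040) (a (l 16425424) (l 16438304))))))) (a (a (l 2) (b (b (c (l 16513400) (l 16451376)) (l 2)) (l 2))) (b (b (a (c (l 16480432) (l 16400328)) (a (l 16380736) (l 16383656))) (a (l 11911177831) (l 16335232))) (a (l 17279836567) (l 16328696))))))))), by decide +kernel⟩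

theorem c_pm_001 : CertB 0 536870912 0 536870912 536870912 50465866 3 eng mog cd0q0 cd5q0 pd1 true true false .up 0 0 1
    ndB0q0 ndB5q0 pcB1 Cut.none Ext.none :=
  certB1 (fam := true) (s1 := true) (s2 := false) (a := 0) (b := 0) (c := 1) (cn := .up) (n1 := ndB0q0) (n2 := ndB5q0) (pc := pcB1) (cut := Cut.none) (xt := Ext.none) (P1 := 0) (W1 := 536870912) (P2 := 0) (W2 := 536870912) (P3 := 536870912) (W3 := 50465866) (N0 := 3) (En := eng) (mo := mog) (C1 := cd0q0) (C2 := cd5q0) (C3 := pd1)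
    rfl (fun _ => rfl) k0_pm_001

noncomputable def cut_pm_011 : Cut := Cut.of [[⟨0, 0, 0, 67108864⟩, ⟨1, 1, 0, 67108864⟩, ⟨2, 1, 0, 67108864⟩]]

noncomputable def f_pm_011 : ℕ → ℕ → ℕ → ℕ → Bool := onCell 0 536870912 536870912 536870912 536870912 50465866
    (rowB 3 eng mog cd0q0 cd5q1 pd1 1 true true false .pnn 0 1 1 (qsf 0 536870912 536870912 536870912 1) ndB0q0 ndB5q1 pcB1 cut_pm_011 Ext.none)

def k0_pm_011 : ∃ t, chk3 f_pm_011 t 1 2 1 = true :=
  ⟨(l 3), by decide +kernel⟩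

def k1_pm_011 : ∃ t, chk3 f_pm_011 t 2 6 1 = true :=
  ⟨(l 3), by decide +kernel⟩

def k2_pm_011 : ∃ t, chk3 f_pm_011 t 4 14 1 = true :=
  ⟨(l 3), by decide +kernel⟩

def k3_pm_011 : ∃ t, chk3 f_pm_011 t 8 15 1 = true :=
  ⟨(b (l 3) (b (a (l 3) (b (l 3) (a (l 3) (b (l 3) (a (b (l 3) (a (l 3) (a (c (l 27011286247) (l 55465441079)) (b (l 33990603735) (l 16756384))))) (a (b (a (l 3) (b (l 3) (l 43654276247))) (c (l 45801760567) (l 39359307735))) (b (c (l 33453730023) (l 44728016199)) (l 16752720)))))))) (a (l 6) (b (b (b (a (b (l 3) (l 6)) (a (c (a (b (c (l 37211833703) (l 16762392)) (l 16760552)) (l 16757432)) (a (b (l 50096732727) (l 16754416)) (l 16751240))) (c (l 16751200) (l 16755416)))) (a (l 6) (a (a (a (l 16758072) (l 16750736)) (l 16747608)) (l 16746576)))) (a (l 6) (a (b (c (l 16746016) (l 16745136)) (l 16746720)) (c (l 16740888) (l 16734664))))) (a (l 6) (b (a (c (l 16740968) (l 16740136)) (l 16732192)) (a (l 6) (l 16718744)))))))), by decide +kernel⟩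

def k4_pm_011 : ∃ t, chk3 f_pm_011 t 9 15 1 = true :=
  ⟨(b (a (l 3) (b (l 3) (b (l 3) (b (a (l 3) (a (c (l 16744016) (l 16742640)) (c (l 16724328) (l 16723016)))) (a (a (b (l 3) (l 60834118487)) (c (l 16744720) (l 7147028119))) (a (c (l 16725256) (l 16723856)) (l 16715432))))))) (b (a (b (a (a (l 3) (a (l 3) (b (l 3) (b (l 3) (a (l 50096718583) (l 47949231511)))))) (b (a (l 3) (b (l 3) (a (l 66739709063) (l 16738432)))) (a (a (b (l 3) (l 39896164583)) (b (l 58149775383) (l 16738712))) (c (l 16745560) (l 16744136))))) (a (b (a (b (a (l 3) (c (l 38822437975) (l 62444754823))) (c (a (l 30232504183) (l 16747944)) (a (l 49022982679) (l 16746736)))) (a (b (a (l 44191139511) (l 16751464)) (l 16743144)) (b (l 16753544) (l 16738928)))) (b (a (c (a (l 16747976) (l 16743808)) (l 26474397767)) (l 16747392)) (a (l 16749056) (l 16732784)))) (b (a (c (l 16745792) (l 16744448)) (l 16736592)) (a (l 16736864) (l 16717848))))) (a (b (a (b (c (l 14663224423) (l 23253156119))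 (l 16736224)) (b (l 16735728) (l 16716976))) (a (b (l 16717472) (l 16709216)) (l 16715080))) (b (a (b (l 16716312) (l 16708064)) (l 16713560)) (a (l 16695704) (l 16686632))))) (a (b (a (b (a (c (l 16746048) (l 16734440)) (l 16726600)) (a (l 16737264) (l 16718360))) (b (a (l 16718128) (l 16709600)) (l 16716120))) (a (b (a (l 16718552) (l 16710128)) (a (l 16710344) (l 16701920))) (b (l 16707896) (l 16699680)))) (b (a (a (l 16696856) (l 16688128)) (c (l 16696288) (l 16695168))) (a (b (l 16680192) (l 16671992)) (l 16689896)))))), by decide +kernel⟩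

def k5_pm_011 : ∃ t, chk3 f_pm_011 t 5 14 1 = true :=
  ⟨(a (l 3) (b (l 3) (a (b (l 3) (b (l 3) (a (a (l 3) (b (l 3) (c (l 16683480) (l 16683280)))) (a (b (c (l 16700864) (l 16680112)) (l 16692488)) (b (l 79624443271) (l 16659392)))))) (b (a (l 3) (b (l 3) (a (l 3) (b (l 3) (c (b (l 3) (c (l 16657432) (l 16645672))) (l 16656656)))))) (b (a (b (l 3) (a (l 14126207559) (l 16662032))) (a (c (a (l 16658384) (l 16658960)) (l 16654512)) (b (c (l 16653256) (l 16637888)) (l 16648312)))) (a (a (a (l 16675400) (l 16669208)) (l 16659864)) (c (a (l 16651616) (l 16621632)) (l 16644768)))))))), by decide +kernel⟩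

def k6_pm_011 : ∃ t, chk3 f_pm_011 t 5 15 1 = true :=
  ⟨(a (b (a (b (b (l 3) (a (l 3) (b (l 3) (a (l 3) (c (l 16713176) (l 16711712)))))) (a (b (b (a (l 3) (c (l 16722888) (l 16721552))) (a (c (l 16728480) (l 16732520)) (l 16721456))) (b (a (l 16724776) (l 16705000)) (a (l 16706048) (l 16696544)))) (a (b (b (c (l 16713808) (l 16712424)) (l 16704496)) (b (l 16695880) (l 16687288))) (b (b (l 16703808) (l 16695168)) (l 16703224))))) (b (b (a (l 3) (b (a (l 3) (l 46338521143)) (a (c (l 16700488) (l 16699312)) (c (l 16689568) (l 16688672))))) (a (b (a (c (l 16712232) (l 16710784)) (c (l 16702232) (l 16700904))) (a (c (l 16703528) (l 16702144)) (l 16692936))) (a (b (l 16701768) (l 16682632)) (a (l 16694672) (l 16694424))))) (a (a (b (a (l 16696248) (l 16697920)) (l 16693640)) (b (c (l 16701408) (l 16679432)) (l 16683752))) (a (b (l 16685432) (l 16642072)) (b (l 16679992) (l 16641944)))))) (b (a (a (b (a (l 16693736) (l 16705120)) (l 16700808)) (b (b (l 16695080)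 (l 16665672)) (l 16653256))) (a (b (l 16650696) (l 16633768)) (l 16642896))) (a (b (a (l 16656336) (l 16636968)) (a (l 16640120) (l 16620936))) (a (l 16642248) (l 16614464))))) (b (a (b (b (a (a (b (c (l 16686760) (l 16686176)) (l 16698872)) (c (l 16691536) (l 16691408))) (a (a (l 16682640) (l 16653064)) (l 16667600))) (a (a (a (l 16688816) (l 16683096)) (l 16653432)) (l 16651424))) (a (a (b (l 16647888) (l 16630904)) (l 16648928)) (l 16644592))) (b (b (a (a (l 16655376) (l 16645512)) (a (l 16636424) (l 16606312))) (a (l 16636400) (l 16618440))) (a (l 16616560) (c (l 16580008) (l 16576184))))) (b (a (a (l 16624680) (l 16607592)) (a (l 16569640) (l 16594576))) (a (b (l 16595904) (l 16613984)) (b (l 16583952) (l 16571288)))))), by decide +kernel⟩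

def k7_pm_011 : ∃ t, chk3 f_pm_011 t 3 6 1 = true :=
  ⟨(a (l 3) (b (l 1) (a (a (a (a (l 3) (l 1)) (l 1)) (l 1)) (l 1)))), by decide +kernel⟩

def k8_pm_011 : ∃ t, chk3 f_pm_011 t 6 14 1 = true :=
  ⟨(a (b (a (l 3) (b (l 3) (b (l 3) (b (a (l 3) (c (l 20568610375) (l 16656784))) (a (a (l 3) (l 35600983527)) (c (l 16648424) (l 16625304))))))) (a (b (b (b (l 3) (a (l 3) (c (c (l 16652392) (l 16652904)) (l 16653360)))) (a (a (b (l 3) (a (c (l 16650520) (l 16658672)) (l 16645216))) (c (l 16643496) (l 16650560))) (c (a (l 16640696) (l 16633056)) (l 16643224)))) (a (b (a (c (a (l 16645008) (l 16639712)) (l 16644824)) (c (l 16632976) (l 16632936))) (c (a (l 16633496) (l 16623712)) (l 16620120))) (c (b (l 16615696) (l 16610296)) (b (l 16617576) (l 16601832))))) (b (b (a (c (b (l 16644000) (l 16638568)) (c (l 16643592) (l 16643176))) (a (l 16634240) (l 16607752))) (c (a (l 16622520) (l 16610592)) (a (l 16622656) (l 16588544)))) (b (a (l 16612160) (l 16588864)) (a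 (l 16580808) (l 16546720)))))) (b (a (b (a (l 3) (b (l 3) (c (l 39896022551) (l 51170299847)))) (b (a (c (a (l 33990409895) (l 16663960)) (l 42043464439)) (c (a (l 16638864) (l 16634904)) (l 16631392))) (a (c (a (l 16625744) (l 16621336)) (l 16619864)) (c (l 16636016) (l 16609968))))) (b (a (b (l 3) (a (l 33453525655) (l 11441831143))) (a (b (l 42043514519) (l 16641880)) (b (l 30769225015) (l 16638176)))) (a (b (c (l 16629280) (l 16622376)) (c (l 16607216) (l 16600736))) (b (c (l 16622320) (l 16614000)) (c (l 16600040) (l 16592160)))))) (b (b (a (a (c (l 16601720) (l 16598600)) (l 16611784)) (a (l 16582056) (l 16573952))) (a (a (l 16599632) (l 16568960)) (a (l 16559944) (l 16551592)))) (a (b (a (l 16557080) (l 16547096)) (l 16572344)) (a (l 16568688) (l 16559928)))))), by decide +kernel⟩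

def k9_pm_011 : ∃ t, chk3 f_pm_011 t 6 15 1 = true :=
  ⟨(a (b (a (b (b (a (c (l 16615288) (l 16590736)) (a (l 16598784) (l 16586896))) (a (l 16579264) (a (l 16565320) (l 16576296)))) (a (b (l 16587464) (l 16553976)) (c (l 16586744) (l 16560224)))) (b (a (a (l 16562232) (l 16554856)) (l 16546792)) (a (b (l 16569104) (l 16537616)) (l 16538408)))) (a (a (b (l 16556384) (l 16510968)) (b (l 16538712) (l 16493992))) (b (a (l 16520288) (b (l 16504752) (l 16473832))) (b (l 16535344) (l 16524184))))) (b (a (b (a (l 16545608) (l 16534784)) (l 16498088)) (b (a (l 16503712) (l 16473344)) (l 16476504))) (a (b (c (l 16505128) (l 16435272)) (a (b (l 16441240) (l 16432160)) (l 16474032))) (b (l 16434024) (a (l 16380888) (l 16348008)))))), by decide +kernel⟩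

def k10_pm_011 : ∃ t, chk3 f_pm_011 t 7 7 1 = true :=
  ⟨(b (a (b (a (b (a (b (c (a (l 16660512) (l 16656240)) (l 16648360)) (c (l 16636680) (l 16626784))) (b (l 1) (c (l 16647600) (l 16615728)))) (b (a (c (l 16614512) (l 16604928)) (c (l 16625240) (l 16593680))) (a (c (l 16592024) (l 16582888)) (c (l 13991868167) (l 16571456))))) (b (l 1) (a (b (l 1) (a (l 48351584599) (l 1))) (l 1)))) (a (a (b (b (l 16565096) (l 16542512)) (l 16529512)) (b (b (l 16574944) (l 16531200)) (l 16538864))) (b (a (b (c (l 25266090807) (l 16534664)) (l 19360471927)) (b (l 1) (l 70900047863))) (c (a (l 16507448) (l 39224614807)) (l 18286684119))))) (b (l 1) (a (b (l 1) (a (l 88079823303) (l 1))) (l 1)))) (a (b (a (b (c (l 16502184) (l 16454808)) (l 16454680)) (b (a (l 16436448) (l 16439592)) (a (l 16390936) (l 16393848)))) (b (a (l 16410648) (l 16379280)) (a (l 16325648) (l 16293200)))) (b (a (a (b (l 16419112) (l 16352248)) (b (l 87542811607) (l 16328776))) (b (l 1) (l 105259427079)))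 (a (c (l 16337024) (l 16314016)) (b (l 16264032) (l 16219896)))))), by decide +kernel⟩

theorem s11_pm_011 : ∃ t, chk3 f_pm_011 t 6 7 1 = true := ex3_b k8_pm_011 k9_pm_011

theorem s12_pm_011 : ∃ t, chk3 f_pm_011 t 3 7 1 = true := ex3_a s11_pm_011 k10_pm_011

theorem s13_pm_011 : ∃ t, chk3 f_pm_011 t 3 3 1 = true := ex3_b k7_pm_011 s12_pm_011

theorem s14_pm_011 : ∃ t, chk3 f_pm_011 t 5 7 1 = true := ex3_b k5_pm_011 k6_pm_011

theorem s15_pm_011 : ∃ t, chk3 f_pm_011 t 4 15 1 = true := ex3_a k3_pm_011 k4_pm_011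

theorem s16_pm_011 : ∃ t, chk3 f_pm_011 t 4 7 1 = true := ex3_b k2_pm_011 s15_pm_011

theorem s17_pm_011 : ∃ t, chk3 f_pm_011 t 2 7 1 = true := ex3_a s16_pm_011 s14_pm_011

theorem s18_pm_011 : ∃ t, chk3 f_pm_011 t 2 3 1 = true := ex3_b k1_pm_011 s17_pm_011

theorem s19_pm_011 : ∃ t, chk3 f_pm_011 t 1 3 1 = true := ex3_a s18_pm_011 s13_pm_011

theorem s20_pm_011 : ∃ t, chk3 f_pm_011 t 1 1 1 = true := ex3_b k0_pm_011 s19_pm_011

theorem c_pm_011 : CertB 0 536870912 536870912 536870912 536870912 50465866 3 eng mog cd0q0 cd5q1 pd1 true true false .pnn 0 1 1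
    ndB0q0 ndB5q1 pcB1 cut_pm_011 Ext.none :=
  certB1 (fam := true) (s1 := true) (s2 := false) (a := 0) (b := 1) (c := 1) (cn := .pnn) (n1 := ndB0q0) (n2 := ndB5q1) (pc := pcB1) (cut := cut_pm_011) (xt := Ext.none) (P1 := 0) (W1 := 536870912) (P2 := 536870912) (W2 := 536870912) (P3 := 536870912) (W3 := 50465866) (N0 := 3) (En := eng) (mo := mog) (C1 := cd0q0) (C2 := cd5q1) (C3 := pd1)
    rfl (fun _ => rfl) s20_pm_011

noncomputable def cut_pm_012 : Cut := Cut.of [[⟨0, 0, 0, 67108864⟩, ⟨1, 1, 0, 67108864⟩, ⟨2, 1, 0, 67108864⟩]]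

noncomputable def f_pm_012 : ℕ → ℕ → ℕ → ℕ → Bool := onCell 1073741824 536870912 536870912 536870912 536870912 50465866
    (rowB 3 eng mog cd0q0 cd5q1 pd2 2 true true false .pnp 0 1 2 (qsf 0 536870912 536870912 536870912 2) ndB0q0 ndB5q1 pcB2 cut_pm_012 Ext.none)

def k0_pm_012 : ∃ t, chk3 f_pm_012 t 4 2 1 = true :=
  ⟨(b (a (b (a (b (c (l 16233704) (l 16217784)) (c (l 16286664) (l 16247520))) (b (l 16098176) (l 16168816))) (a (a (b (l 16240376) (l 16295728)) (a (l 16277760) (l 16252336))) (b (l 16202048) (l 16224624)))) (b (a (b (l 2) (l 16150552)) (l 2)) (a (b (l 16227816) (l 16245408)) (b (l 16140136) (l 16213728))))) (a (b (a (a (b (l 16330864) (b (l 16357464) (l 16382968))) (b (l 16281888) (b (l 16326544) (l 16351536)))) (b (b (l 16209448) (l 16319464)) (b (l 16345952) (l 16368760)))) (a (b (a (a (l 16465760) (l 16407976)) (l 16446968)) (a (a (l 16505632) (l 16447880)) (l 16486400))) (a (b (l 16352400) (l 16392160)) (b (l 16321504) (l 16361088)))))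 (b (a (b (l 16283104) (c (l 16304040) (l 16260296))) (b (l 16268544) (b (l 16187992) (l 16202440)))) (b (a (l 16382336) (l 16286992)) (a (a (l 16330144) (l 16299720)) (l 16319744)))))), by decide +kernel⟩

def k1_pm_012 : ∃ t, chk3 f_pm_012 t 8 3 1 = true :=
  ⟨(b (b (a (a (b (b (l 16525024) (l 16500584)) (a (l 16576848) (l 16538736))) (b (l 16522152) (b (l 16483992) (l 16521048)))) (b (b (l 16508160) (l 16503976)) (a (l 16500896) (l 16427120)))) (a (a (b (b (l 16573312) (l 16590512)) (a (b (l 16599336) (l 16618776)) (l 16606096))) (b (b (l 16536896) (l 16531576)) (l 16596808))) (b (a (b (l 16481376) (l 16495504)) (l 16496768)) (a (b (l 16509352) (l 16523704)) (l 16543048))))) (b (a (a (b (a (b (l 16628128) (a (l 16661168) (l 16649120))) (l 16642872)) (a (a (b (l 16678512) (b (l 16691328) (l 16699816))) (b (l 16666536) (l 16704608))) (b (l 16648424) (l 16686568)))) (b (c (l 16630104) (l 16629832)) (b (l 16655584) (a (l 16642048) (l 16619280))))) (b (a (b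 (l 16559728) (l 16554264)) (b (l 16499912) (l 16513840))) (a (a (b (l 16580752) (l 16596904)) (b (l 16559440) (l 16574976))) (b (l 16528168) (l 16563696))))) (a (b (a (a (b (a (b (l 16708272) (l 6)) (l 16705800)) (l 6)) (b (l 16698264) (a (l 6) (l 16703896)))) (b (a (l 16669488) (l 16635784)) (a (b (l 16671456) (l 16679608)) (b (l 16668904) (l 16666376))))) (a (l 6) (b (a (l 6) (b (a (l 6) (l 16657792)) (l 6))) (l 6)))) (b (a (a (b (l 16612920) (b (l 16624728) (l 16632472))) (b (l 16590432) (l 16605632))) (b (a (l 16568248) (l 16546408)) (a (l 16582936) (l 16560552)))) (b (a (a (b (l 16640104) (l 16647608)) (b (l 16616776) (l 16624064))) (a (b (l 16593728) (l 16600784)) (l 16595368))) (a (b (a (l 6) (l 16631216)) (l 6)) (b (a (l 16607720) (l 16584496)) (a (b (l 16612832) (l 6)) (l 16591072))))))))), by decide +kernel⟩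

def k2_pm_012 : ∃ t, chk3 f_pm_012 t 9 3 1 = true :=
  ⟨(b (b (a (b (a (l 16365480) (l 16335040)) (a (l 16396192) (l 16365480))) (b (l 16394792) (a (l 16335832) (l 16306632)))) (a (b (a (l 16422640) (l 16391632)) (a (l 16466568) (l 16413256))) (b (a (l 16361712) (l 16332384)) (a (l 16382248) (l 16352792))))) (b (b (a (a (l 16532280) (l 16454928)) (a (l 16400576) (l 16369792))) (a (a (b (l 16488184) (l 16501264)) (b (l 16450248) (l 16461712))) (a (l 16482488) (l 16427560)))) (b (a (b (a (l 16514512) (l 16473472)) (a (l 16548704) (l 16485344))) (a (b (l 16434504) (l 16444848)) (b (l 16397920) (l 16406576)))) (a (b (a (b (l 16537528) (l 16564928)) (a (l 16507872) (l 16486496))) (a (b (a (l 16561608) (l 16539032)) (a (l 16567936) (l 16545112))) (b (l 16505832) (a (l 16522608) (l 16500496))))) (b (a (l 16476224) (l 16415392)) (a (b (l 16462976) (l 16489024)) (a (l 16434336) (l 16414176)))))))), by decide +kernel⟩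

def k3_pm_012 : ∃ t, chk3 f_pm_012 t 5 2 1 = true :=
  ⟨(b (a (a (b (l 2) (a (b (l 2) (l 16108488)) (l 2))) (l 2)) (l 2)) (a (a (b (a (b (l 16138512) (l 16166248)) (a (b (l 16127128) (l 16152984)) (b (l 16122104) (l 16274488)))) (a (b (l 16189312) (l 16216928)) (a (l 16185584) (a (l 16178216) (l 16364928))))) (b (b (l 16126448) (l 16209992)) (b (l 16164448) (l 16180208)))) (b (a (b (l 2) (l 16179904)) (l 2)) (a (l 16355936) (l 16212864))))), by decide +kernel⟩

def k4_pm_012 : ∃ t, chk3 f_pm_012 t 5 3 1 = true :=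
  ⟨(b (a (b (a (a (b (l 16247560) (l 16277888)) (a (l 16242208) (a (l 16232856) (l 16397408)))) (b (l 16200624) (l 16224016))) (a (a (b (l 16304336) (l 16324680)) (a (b (l 16283664) (l 16304416)) (a (l 16368744) (b (l 16270616) (l 16291136))))) (b (l 16246760) (l 16329616)))) (a (b (l 16245240) (b (l 16222520) (l 16235104))) (b (l 16230800) (b (l 16209472) (l 16213128))))) (a (b (a (a (b (l 16340632) (l 16395952)) (a (b (l 16319960) (l 16332360)) (a (b (l 16310424) (l 16322240)) (b (l 16306656) (a (l 16317920) (l 16315888)))))) (b (a (l 16290824) (l 16271520)) (a (l 16301120) (l 16279952)))) (a (a (b (b (l 16364088) (l 16370816)) (b (l 16377888) (a (l 16394576) (l 16375584)))) (a (b (l 16343200) (b (l 16351496) (l 16357320))) (b (a (l 16332024) (a (l 16327104) (l 16324552))) (a (b (l 16339200) (l 16344256)) (a (b (l 16333656) (l 16338248)) (b (l 16330592) (l 16334792))))))) (b (a (b (l 16306816) (l 16309848)) (l 16284008)) (a (b (l 16312856) (a (l 16323864)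 (l 16308016))) (b (l 16285368) (l 16286056)))))) (b (b (a (l 16246240) (l 16217128)) (a (b (l 16250752) (l 16252472)) (l 16282792))) (b (a (b (l 16252528) (l 16251536)) (b (l 16217936) (l 16215280))) (a (b (a (l 16261024) (l 16239160)) (a (l 16259400) (l 16235856))) (b (a (l 16219768) (l 16202592)) (a (l 16235840) (l 16217376)))))))), by decide +kernel⟩

def k5_pm_012 : ∃ t, chk3 f_pm_012 t 3 1 1 = true :=
  ⟨(b (a (b (l 2) (a (b (l 2) (a (l 16253152) (l 2))) (l 2))) (l 2)) (a (b (a (b (a (l 16228472) (l 16258024)) (b (l 16302768) (l 16224728))) (b (a (l 16300848) (l 2)) (a (l 16244112) (l 16271808)))) (b (a (b (a (l 16198128) (l 16192720)) (a (l 16193864) (l 16179704))) (b (a (l 16201576) (l 16222224)) (a (l 16176672) (l 16184832)))) (a (b (a (b (l 16190472) (l 16186056)) (l 16209168)) (a (b (a (l 16187392) (l 16173808)) (a (l 16180216) (l 16166256))) (b (l 16157664) (a (l 16154320) (l 16144176))))) (b (a (l 16155712) (l 16152408)) (a (b (l 16140872) (l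 16151760)) (b (l 16131112) (l 16117432))))))) (b (a (b (l 2) (b (l 2) (l 16318720))) (l 2)) (a (b (b (l 16268352) (b (l 16234688) (l 16211272))) (b (a (l 16162432) (l 16189160)) (a (l 16121840) (l 16133112)))) (b (a (b (l 2) (l 16297424)) (l 2)) (a (b (l 16233216) (b (l 16185848) (l 16152480))) (a (b (l 16284760) (b (l 16231728) (l 16193752))) (b (l 2) (b (l 16310672) (l 16269304)))))))))), by decide +kernel⟩

theorem s6_pm_012 : ∃ t, chk3 f_pm_012 t 5 1 1 = true := ex3_b k3_pm_012 k4_pm_012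

theorem s7_pm_012 : ∃ t, chk3 f_pm_012 t 4 3 1 = true := ex3_a k1_pm_012 k2_pm_012

theorem s8_pm_012 : ∃ t, chk3 f_pm_012 t 4 1 1 = true := ex3_b k0_pm_012 s7_pm_012

theorem s9_pm_012 : ∃ t, chk3 f_pm_012 t 2 1 1 = true := ex3_a s8_pm_012 s6_pm_012

theorem s10_pm_012 : ∃ t, chk3 f_pm_012 t 1 1 1 = true := ex3_a s9_pm_012 k5_pm_012

theorem c_pm_012 : CertB 0 536870912 536870912 536870912 536870912 50465866 3 eng mog cd0q0 cd5q1 pd2 true true false .pnp 0 1 2
    ndB0q0 ndB5q1 pcB2 cut_pm_012 Ext.none :=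
  certB2 (fam := true) (s1 := true) (s2 := false) (a := 0) (b := 1) (c := 2) (cn := .pnp) (n1 := ndB0q0) (n2 := ndB5q1) (pc := pcB2) (cut := cut_pm_012) (xt := Ext.none) (P1 := 0) (W1 := 536870912) (P2 := 536870912) (W2 := 536870912) (P3 := 536870912) (W3 := 50465866) (N0 := 3) (En := eng) (mo := mog) (C1 := cd0q0) (C2 := cd5q1) (C3 := pd2)
    rfl (fun _ => rfl) s10_pm_012

noncomputable def f_pm_022 : ℕ → ℕ → ℕ → ℕ → Bool := onCell 1073741824 536870912 1073741824 536870912 536870912 50465866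
    (rowB 3 eng mog cd0q0 cd5q2 pd2 2 true true false .pp 0 2 2 (qsf 0 536870912 1073741824 536870912 2) ndB0q0 ndB5q2 pcB2 Cut.none Ext.none)

def k0_pm_022 : ∃ t, chk3 f_pm_022 t 2 1 1 = true :=
  ⟨(a (b (l 3) (l 1)) (b (a (a (a (b (b (a (b (a (l 3) (b (l 16476616) (l 16481552))) (l 3)) (b (b (a (l 16468776) (l 16461088)) (a (l 16473504) (l 16465744))) (a (l 16479624) (l 16471712)))) (a (l 3) (b (l 16482472) (l 16487984)))) (l 3)) (a (b (b (a (b (b (l 16453960) (l 16458256)) (l 16464000)) (b (l 16449176) (l 16456792))) (b (l 16529200) (l 16538352))) (b (b (a (l 16480992) (l 16471824)) (l 1)) (l 1))) (b (a (b (b (b (l 16439560) (l 16444032)) (l 16449664)) (b (l 16455528) (l 16500848))) (b (a (b (a (l 16436720) (l 16434536)) (l 16443632)) (b (b (c (a (a (a (l 16433616) (c (l 16476840) (l 16453288))) (l 16433760)) (l 16432552)) (a (a (a (l 16427344) (a (l 16427024) (l 16427040))) (l 16426672)) (l 16425328))) (b (c (l 16477112) (l 16471768)) (l 16476832)))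 (l 16439568))) (a (l 16472952) (l 16447912)))) (b (a (b (a (l 16464816) (l 16459416)) (l 1)) (a (b (l 16455176) (l 1)) (b (l 16451200) (c (l 88616792903) (l 93985514743))))) (l 1))))) (b (b (b (b (l 16444584) (l 16426704)) (b (l 16408728) (l 16411568))) (b (l 16415280) (l 16418696))) (b (b (l 16420112) (b (l 16440328) (l 16535512))) (b (l 351683306903) (l 1))))) (b (b (a (b (b (l 16359824) (l 16361232)) (l 16383288)) (b (b (l 16328440) (l 16328032)) (l 16326520))) (a (b (l 16364096) (l 16365320)) (b (l 16322848) (l 16319832)))) (b (b (a (l 16386360) (l 16316920)) (a (l 16448008) (b (l 16314336) (l 16307976)))) (b (a (l 169147117271) (l 16293320)) (a (l 297996110695) (l 51572577703)))))) (a (l 1) (b (b (a (l 1) (l 308733444983)) (l 1)) (l 1))))), by decide +kernel⟩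

def k1_pm_022 : ∃ t, chk3 f_pm_022 t 3 1 1 = true :=
  ⟨(b (a (b (a (b (b (a (b (l 16306392) (l 16305904)) (b (l 16291408) (l 16291416))) (a (l 16301384) (l 16287600))) (a (b (l 16294336) (l 16284840)) (b (l 16276120) (l 16262944)))) (b (b (a (b (l 16283040) (l 16282600)) (l 16279256)) (a (l 16278432) (l 16276032))) (b (a (l 16269312) (l 16265992)) (a (l 16251392) (l 16251152))))) (b (a (b (a (l 16276672) (l 16247288)) (a (b (l 16270976) (l 16263568)) (l 16358032))) (b (a (l 16231816) (l 16226640)) (a (l 16208432) (l 16199352)))) (a (a (b (l 16244176) (l 16254224)) (l 16355656)) (b (a (l 16176432) (l 16159512)) (l 16163936))))) (b (a (b (a (b (a (l 16282888) (l 16284584)) (l 16274456)) (b (a (l 16288504) (l 16295560)) (l 16276520))) (a (b (l 16267296) (l 16252728)) (b (l 16265824) (l 16256776)))) (b (b (a (b (b (l 16325952) (l 16317536)) (l 16305712)) (a (a (l 16398000) (l 16386360)) (a (l 16375768) (l 16386816)))) (a (b (l 16292576) (l 16282288)) (b (l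 16319928) (l 16303216)))) (b (a (l 16270512) (l 16283392)) (a (l 16258240) (l 16265488))))) (b (a (b (a (l 16232544) (l 16238888)) (a (l 16200480) (l 16212584))) (b (a (l 16247576) (l 16251848)) (a (l 16224288) (l 16238288)))) (a (b (l 16308080) (l 16083424)) (b (l 16192192) (l 16134752)))))) (a (b (a (b (a (b (l 16277936) (l 277058078631)) (l 47277571863)) (a (l 1) (l 306048952599))) (b (a (l 16328160) (l 16124496)) (a (l 232497705751) (l 16192720)))) (a (l 1) (b (l 320007546375) (l 1)))) (b (b (a (l 16198288) (l 16163240)) (a (l 16216896) (l 16043544))) (a (b (l 16195080) (l 326986861927)) (b (l 16144504) (l 16217896)))))), by decide +kernel⟩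

theorem s2_pm_022 : ∃ t, chk3 f_pm_022 t 1 1 1 = true := ex3_a k0_pm_022 k1_pm_022

theorem c_pm_022 : CertB 0 536870912 1073741824 536870912 536870912 50465866 3 eng mog cd0q0 cd5q2 pd2 true true false .pp 0 2 2
    ndB0q0 ndB5q2 pcB2 Cut.none Ext.none :=
  certB2 (fam := true) (s1 := true) (s2 := false) (a := 0) (b := 2) (c := 2) (cn := .pp) (n1 := ndB0q0) (n2 := ndB5q2) (pc := pcB2) (cut := Cut.none) (xt := Ext.none) (P1 := 0) (W1 := 536870912) (P2 := 1073741824) (W2 := 536870912) (P3 := 536870912) (W3 := 50465866) (N0 := 3) (En := eng) (mo := mog) (C1 := cd0q0) (C2 := cd5q2) (C3 := pd2)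
    rfl (fun _ => rfl) s2_pm_022

noncomputable def f_pm_023 : ℕ → ℕ → ℕ → ℕ → Bool := onCell 0 536870912 1073741824 536870912 536870912 50465866
    (rowB 3 eng mog cd0q0 cd5q2 pd3 0 true true false .up 0 2 3 (qsf 0 536870912 1073741824 536870912 3) ndB0q0 ndB5q2 pcB3 Cut.none Ext.none)

def k0_pm_023 : ∃ t, chk3 f_pm_023 t 1 1 1 = true :=
  ⟨(a (b (a (l 1) (b (l 1) (b (l 1) (a (l 1) (l 323228968231))))) (a (b (l 247529967479) (l 264710137767)) (b (a (l 228739391655) (l 16047560)) (a (l 16284208) (l 16436952))))) (b (a (b (a (l 1) (b (l 1) (l 97743214231))) (b (a (l 208338758327) (b (l 16236400) (l 16222040))) (a (l 16169600) (l 16196608)))) (b (a (b (a (l 1) (l 89690289223)) (a (l 16268368) (l 16295360))) (a (b (l 90764042455) (l 16343088)) (b (b (l 16441720) (l 16404088)) (l 16454560)))) (a (b (b (l 16269792) (l 16287112)) (l 16397144)) (b (b (l 16464608) (l 16506944)) (l 16567360))))) (a (b (a (l 16231632) (l 16427360)) (l 16595800)) (b (a (l 16561744)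 (l 16656664)) (a (l 16685656) (b (l 16709824) (a (l 16724632) (b (l 16731304) (a (l 16735664) (b (l 16738016) (b (l 16739856) (b (l 16740712) (b (l 16741112) (l 16741312)))))))))))))), by decide +kernel⟩

theorem c_pm_023 : CertB 0 536870912 1073741824 536870912 536870912 50465866 3 eng mog cd0q0 cd5q2 pd3 true true false .up 0 2 3
    ndB0q0 ndB5q2 pcB3 Cut.none Ext.none :=
  certB0 (fam := true) (s1 := true) (s2 := false) (a := 0) (b := 2) (c := 3) (cn := .up) (n1 := ndB0q0) (n2 := ndB5q2) (pc := pcB3) (cut := Cut.none) (xt := Ext.none) (P1 := 0) (W1 := 536870912) (P2 := 1073741824) (W2 := 536870912) (P3 := 536870912) (W3 := 50465866) (N0 := 3) (En := eng) (mo := mog) (C1 := cd0q0) (C2 := cd5q2) (C3 := pd3)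
    rfl k0_pm_023

noncomputable def f_pm_033 : ℕ → ℕ → ℕ → ℕ → Bool := onCell 1610612736 536870912 0 1230186008 536870912 50465866
    (rowB 3 eng mog cd0q0 cd5q3 pd3 2 true true false .pnn 0 3 3 (qsf 0 536870912 0 1230186008 3) ndB0q0 ndB5q3 pcB3 Cut.none Ext.none)

def k0_pm_033 : ∃ t, chk3 f_pm_033 t 1 1 1 = true :=
  ⟨(b (a (l 1) (a (l 1) (a (b (l 1) (a (l 16750000) (l 4))) (l 4)))) (b (a (a (l 1) (b (l 1) (a (l 1) (l 366716791719)))) (a (b (a (l 1) (a (l 16765288) (l 16762568))) (a (l 191696884279) (a (l 16736952) (l 16739664)))) (a (b (a (l 16752544) (l 16743672)) (a (l 16743160) (l 16741456))) (a (b (l 16732024) (l 16737256)) (a (b (l 4) (l 16734072)) (l 4)))))) (a (a (b (l 1) (b (a (l 1) (l 16497712)) (a (l 16336824) (l 16441856)))) (b (b (l 359737379527) (a (l 16617624) (l 16654392))) (b (a (l 16565344) (l 16620592)) (a (l 16528528) (l 16599656))))) (a (b (a (b (l 16706408) (l 16684080)) (b (l 16721840) (l 16708984))) (b (a (l 16665232) (l 16699520))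 (a (l 16654856) (l 16695752)))) (a (b (b (l 16734168) (l 16727896)) (b (l 16723240) (l 16722744))) (a (b (l 16907432) (b (l 16734768) (l 16734600))) (b (a (l 16742064) (a (l 16739784) (b (l 4) (l 16737176)))) (a (l 16739016) (a (l 16803760) (a (l 16741584) (l 16741880))))))))))), by decide +kernel⟩

theorem c_pm_033 : CertB 0 536870912 0 1230186008 536870912 50465866 3 eng mog cd0q0 cd5q3 pd3 true true false .pnn 0 3 3
    ndB0q0 ndB5q3 pcB3 Cut.none Ext.none :=
  certB2 (fam := true) (s1 := true) (s2 := false) (a := 0) (b := 3) (c := 3) (cn := .pnn) (n1 := ndB0q0) (n2 := ndB5q3) (pc := pcB3) (cut := Cut.none) (xt := Ext.none) (P1 := 0) (W1 := 536870912) (P2 := 0) (W2 := 1230186008) (P3 := 536870912) (W3 := 50465866) (N0 := 3) (En := eng) (mo := mog) (C1 := cd0q0) (C2 := cd5q3) (C3 := pd3)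
    rfl (fun _ => rfl) k0_pm_033

noncomputable def f_pm_101 : ℕ → ℕ → ℕ → ℕ → Bool := onCell 536870912 536870912 536870912 536870912 536870912 50465866
    (rowB 3 eng mog cd0q1 cd5q0 pd1 1 true true false .npn 1 0 1 (qsf 536870912 536870912 0 536870912 1) ndB0q1 ndB5q0 pcB1 Cut.none Ext.none)

def k0_pm_101 : ∃ t, chk3 f_pm_101 t 2 2 1 = true :=
  ⟨(a (l 3) (b (a (b (l 1) (l 3)) (l 1)) (l 3))), by decide +kernel⟩

def k1_pm_101 : ∃ t, chk3 f_pm_101 t 2 6 1 = true :=
  ⟨(a (b (a (l 3) (b (l 3) (b (a (l 3) (a (l 3) (l 116668840215))) (a (a (l 119353270375) (l 16823384)) (b (a (l 16804792) (l 16803960)) (l 16795440)))))) (a (b (a (b (a (l 3) (b (l 3) (l 117742516615))) (a (l 62981770807) (b (l 16784928) (l 16764144)))) (b (a (l 75329858199) (l 16794176)) (a (l 16843640) (l 16776864)))) (a (b (a (l 16721072) (l 16733264)) (a (l 16679736) (l 16692088))) (b (a (l 16747704) (l 16755656)) (l 16714616)))) (b (a (b (l 16828616) (l 16769384)) (b (l 16782504) (l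 16765400))) (a (b (l 16751848) (l 16731432)) (l 16739120))))) (b (a (b (a (l 3) (b (l 3) (a (l 146196758535) (l 60297518455)))) (a (b (a (b (l 3) (c (b (a (l 16825200) (l 16825832)) (l 16821408)) (l 16802816))) (a (b (l 149418034663) (a (l 16833824) (l 16812264))) (b (l 16860056) (l 16810936)))) (a (b (l 16803936) (l 16795168)) (b (c (l 16816208) (l 16791608)) (l 16795480)))) (b (a (b (l 16815568) (l 16808360)) (l 16808968)) (a (b (l 16801400) (l 16794440)) (l 16795168))))) (b (a (b (l 122574458791) (a (l 16863600) (l 16820568))) (b (a (l 75329836599) (l 65666158999)) (l 16841040))) (a (b (l 16827184) (l 16792584)) (b (l 16805208) (l 16791760))))) (a (b (a (b (a (l 16782352) (l 16782760)) (l 16765584)) (b (a (l 16782960) (l 16781840)) (a (l 16766744) (l 16767344)))) (a (l 16865720) (b (l 16750576) (l 16733528)))) (b (a (b (l 16779616) (l 16766776)) (b (l 16779152) (l 16766904))) (a (b (l 16773968) (l 16737712)) (a (l 16747768) (l 16749016))))))), by decide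 +kernel⟩

def k2_pm_101 : ∃ t, chk3 f_pm_101 t 2 7 1 = true :=
  ⟨(a (b (a (b (a (a (b (l 16636368) (l 16589872)) (b (l 16649304) (l 16603672))) (b (l 16672840) (l 16628648))) (b (a (a (l 16539336) (l 16554160)) (l 16580912)) (a (a (l 16483920) (l 16499696)) (l 16528208)))) (b (a (b (l 16702976) (l 16665680)) (a (l 16699248) (l 16701144))) (a (a (l 16585544) (l 16606728)) (l 16635280)))) (a (b (a (b (a (l 16422352) (l 16439040)) (l 16337936)) (l 16438128)) (a (c (l 16271352) (l 16229824)) (l 16459416))) (a (a (l 16512976) (l 16434920)) (b (l 16536272) (l 16409264))))) (a (a (b (b (l 16702448) (l 16656344)) (a (l 16517952) (l 16625264))) (b (b (l 16705656) (l 16661832)) (b (l 16606808) (l 16520208)))) (b (b (a (l 16711032) (l 16760688)) (a (l 16668824) (l 16680040))) (a (b (l 16616408) (l 16549176)) (b (l 16630128) (l 16566264)))))), by decide +kernel⟩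

def k3_pm_101 : ∃ t, chk3 f_pm_101 t 3 1 1 = true :=
  ⟨(b (a (b (l 1) (a (a (a (b (l 1) (l 3)) (l 1)) (l 1)) (l 1))) (l 1)) (a (b (b (a (b (a (b (a (l 16838360) (l 16841112)) (l 16821544)) (b (l 1) (l 16826104))) (a (b (l 16806056) (l 16792704)) (l 16801456))) (b (l 1) (a (l 171295585447) (l 1)))) (a (b (a (b (l 16780440) (l 16768912)) (l 16775744)) (a (l 16751536) (l 16754360))) (b (a (l 16776360) (l 16778696)) (a (l 16754288) (l 16753520))))) (a (b (a (b (l 16726160) (l 16693272)) (b (l 16731832) (l 16704048))) (a (b (l 16648136) (l 16587872)) (b (l 16665656) (l 16610872)))) (b (a (b (l 16734728) (l 16710672)) (b (l 16733872) (l 16713912))) (a (b (l 16677760) (l 16629464)) (b (l 16685264) (l 16641704)))))) (b (a (b (l 1) (a (b (l 1) (l 141767471511)) (l 1))) (l 1)) (a (b (a (b (a (l 16731928) (l 16732352)) (a (l 16714368) (l 16713592))) (b (a (l 16734608) (l 1)) (a (l 16713240) (l 16714592)))) (a (b (a (l 16689736) (l 16692280)) (a (l 16649120) (l 16654312)))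 (b (b (l 16700032) (a (l 16687984) (l 16690504))) (a (l 16660056) (l 16666000))))) (b (b (l 1) (a (b (l 1) (a (l 16710912) (l 1))) (l 1))) (a (b (a (b (l 16700352) (l 16691480)) (c (l 16758472) (b (a (l 16656312) (l 1)) (l 16656248)))) (a (l 16629696) (b (l 16682712) (l 16667144)))) (b (a (c (l 16762784) (b (l 1) (l 16660776))) (l 1)) (c (l 16734688) (b (a (l 16640280) (l 16644816)) (a (l 16618528) (l 16624008))))))))))), by decide +kernel⟩

theorem s4_pm_101 : ∃ t, chk3 f_pm_101 t 2 3 1 = true := ex3_b k1_pm_101 k2_pm_101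

theorem s5_pm_101 : ∃ t, chk3 f_pm_101 t 2 1 1 = true := ex3_b k0_pm_101 s4_pm_101

theorem s6_pm_101 : ∃ t, chk3 f_pm_101 t 1 1 1 = true := ex3_a s5_pm_101 k3_pm_101

theorem c_pm_101 : CertB 536870912 536870912 0 536870912 536870912 50465866 3 eng mog cd0q1 cd5q0 pd1 true true false .npn 1 0 1
    ndB0q1 ndB5q0 pcB1 Cut.none Ext.none :=
  certB1 (fam := true) (s1 := true) (s2 := false) (a := 1) (b := 0) (c := 1) (cn := .npn) (n1 := ndB0q1) (n2 := ndB5q0) (pc := pcB1) (cut := Cut.none) (xt := Ext.none) (P1 := 536870912) (W1 := 536870912) (P2 := 0) (W2 := 536870912) (P3 := 536870912) (W3 := 50465866) (N0 := 3) (En := eng) (mo := mog) (C1 := cd0q1) (C2 := cd5q0) (C3 := pd1)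
    rfl (fun _ => rfl) s6_pm_101

noncomputable def f_pm_102 : ℕ → ℕ → ℕ → ℕ → Bool := onCell 536870912 536870912 1073741824 536870912 536870912 50465866
    (rowB 3 eng mog cd0q1 cd5q0 pd2 1 true true false .npp 1 0 2 (qsf 536870912 536870912 0 536870912 2) ndB0q1 ndB5q0 pcB2 Cut.none Ext.none)

def k0_pm_102 : ∃ t, chk3 f_pm_102 t 2 1 1 = true :=
  ⟨(b (b (a (a (b (b (a (l 16146816) (l 16139392)) (c (l 22111127671) (l 16127232))) (b (c (l 16118320) (l 16070944)) (l 2))) (b (b (a (l 16284056) (l 16307296)) (a (l 16189032) (l 16267376))) (b (a (l 16144472) (l 16231968)) (l 113916568679)))) (a (b (a (l 16368624) (l 16404896)) (a (b (l 16304216) (l 16282480)) (l 16351592))) (b (b (a (l 16481296) (l 16516192)) (l 16463048)) (l 16596888)))) (a (b (a (l 2) (b (b (l 16151488) (l 2)) (l 2))) (l 2)) (b (a (b (b (l 16303792) (b (l 16299768) (l 185320672343))) (l 184246939367)) (b (l 16420224) (l 16426552))) (a (l 16343928) (l 16462688))))) (b (a (l 2) (a (l 2) (l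 199279402407))) (l 2))), by decide +kernel⟩

def k1_pm_102 : ∃ t, chk3 f_pm_102 t 3 1 1 = true :=
  ⟨(b (a (b (a (b (a (b (l 16540280) (l 16526264)) (l 16724864)) (a (l 16503376) (l 16542672))) (b (b (a (l 16585552) (b (l 16647440) (l 16597872))) (a (l 16573592) (l 16591584))) (a (l 16571568) (l 16593816)))) (b (a (b (l 16517536) (l 16524544)) (b (l 16591312) (l 16601984))) (a (l 16558440) (l 16634840)))) (b (a (b (b (a (b (l 16721360) (l 16611072)) (b (a (l 16626104) (l 16633520)) (l 16625680))) (a (l 16692296) (l 16689928))) (a (l 16616552) (b (l 16636232) (l 16649672)))) (b (b (a (b (a (l 16641320) (c (l 16703488) (l 16594624))) (l 16643432)) (b (a (b (l 16594912) (l 16656528)) (b (b (a (l 16663472) (l 16646176)) (l 16644528)) (l 16665232))) (a (l 16658912) (l 16665184)))) (a (l 16649216) (a (l 16670288) (l 16689288)))) (a (b (l 16663984) (l 16681368)) (b (l 16699336) (l 16719784))))) (b (a (b (l 16649432) (l 16856760)) (b (a (l 16698952) (l 16738280))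 (a (l 16719000) (l 16757240)))) (a (l 16833768) (l 16946856))))) (b (a (a (b (l 16617200) (l 16679104)) (b (l 16688296) (l 16740048))) (a (b (l 16761160) (l 16807536)) (b (l 16827784) (l 16862512)))) (a (b (l 16763240) (l 2)) (b (a (l 16842120) (l 16883840)) (a (l 16870744) (l 16891856)))))), by decide +kernel⟩

theorem s2_pm_102 : ∃ t, chk3 f_pm_102 t 1 1 1 = true := ex3_a k0_pm_102 k1_pm_102

theorem c_pm_102 : CertB 536870912 536870912 0 536870912 536870912 50465866 3 eng mog cd0q1 cd5q0 pd2 true true false .npp 1 0 2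
    ndB0q1 ndB5q0 pcB2 Cut.none Ext.none :=
  certB1 (fam := true) (s1 := true) (s2 := false) (a := 1) (b := 0) (c := 2) (cn := .npp) (n1 := ndB0q1) (n2 := ndB5q0) (pc := pcB2) (cut := Cut.none) (xt := Ext.none) (P1 := 536870912) (W1 := 536870912) (P2 := 0) (W2 := 536870912) (P3 := 536870912) (W3 := 50465866) (N0 := 3) (En := eng) (mo := mog) (C1 := cd0q1) (C2 := cd5q0) (C3 := pd2)
    rfl (fun _ => rfl) s2_pm_102

noncomputable def f_pm_112 : ℕ → ℕ → ℕ → ℕ → Bool := onCell 536870912 536870912 1073741824 536870912 536870912 50465866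
    (rowB 3 eng mog cd0q1 cd5q1 pd2 1 true true false .dn 1 1 2 (qsf 536870912 536870912 536870912 536870912 2) ndB0q1 ndB5q1 pcB2 Cut.none Ext.none)

def k0_pm_112 : ∃ t, chk3 f_pm_112 t 1 1 1 = true :=
  ⟨(a (b (b (a (a (b (a (b (l 16121128) (l 16088024)) (l 88079074231)) (a (b (l 16106968) (l 16115688)) (b (l 16069080) (l 16081336)))) (b (a (l 110091427863) (l 1)) (a (b (l 16129056) (l 16093224)) (l 16204568)))) (b (l 1) (a (a (l 16280808) (l 1)) (l 1)))) (a (b (a (b (b (l 16142672) (b (l 16100544) (a (l 16118600) (l 16087744)))) (a (l 16138440) (l 16114336))) (b (b (l 16125040) (b (l 16116208) (a (l 16059328) (l 16162976)))) (a (l 16091840) (l 16161088)))) (a (a (l 16202184) (l 16197784)) (a (l 16194328) (l 16193400)))) (b (a (b (b (l 16296256) (b (l 16292544) (a (l 16252392) (l 16325816)))) (a (l 16253344) (l 16330056))) (l 215855445927)) (a (l 16325112) (l 16459712))))) (b (a (a (b (l 16260704) (l 16291336)) (b (l 16292016) (l 16353168))) (a (b (l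 16393912) (l 16473408)) (l 16539136))) (b (a (a (l 16295856) (l 16392672)) (a (l 16542752) (l 16652976))) (a (a (b (l 16297288) (b (a (l 16267608) (l 16335208)) (a (l 16310688) (l 16389352)))) (b (l 16445496) (a (l 16454112) (l 16530632)))) (a (b (l 16587792) (l 16624512)) (l 16810088)))))) (b (a (b (l 1) (b (l 1) (l 304439503255))) (l 1)) (b (a (a (l 16645568) (l 16714112)) (b (l 1) (l 384970095911))) (a (b (l 16752984) (a (l 16760024) (l 16804944))) (b (l 16862432) (a (l 16859816) (l 16887968))))))), by decide +kernel⟩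

theorem c_pm_112 : CertB 536870912 536870912 536870912 536870912 536870912 50465866 3 eng mog cd0q1 cd5q1 pd2 true true false .dn 1 1 2
    ndB0q1 ndB5q1 pcB2 Cut.none Ext.none :=
  certB1 (fam := true) (s1 := true) (s2 := false) (a := 1) (b := 1) (c := 2) (cn := .dn) (n1 := ndB0q1) (n2 := ndB5q1) (pc := pcB2) (cut := Cut.none) (xt := Ext.none) (P1 := 536870912) (W1 := 536870912) (P2 := 536870912) (W2 := 536870912) (P3 := 536870912) (W3 := 50465866) (N0 := 3) (En := eng) (mo := mog) (C1 := cd0q1) (C2 := cd5q1) (C3 := pd2)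
    rfl (fun _ => rfl) k0_pm_112

noncomputable def f_pm_113 : ℕ → ℕ → ℕ → ℕ → Bool := onCell 536870912 536870912 1610612736 536870912 536870912 50465866
    (rowB 3 eng mog cd0q1 cd5q1 pd3 1 true true false .nn 1 1 3 (qsf 536870912 536870912 536870912 536870912 3) ndB0q1 ndB5q1 pcB3 Cut.none Ext.none)

def k0_pm_113 : ∃ t, chk3 f_pm_113 t 1 1 1 = true :=
  ⟨(a (b (b (a (b (a (b (a (b (l 168676849783) (l 183172405799)) (a (l 16322848) (l 16381680))) (a (b (l 263166451367) (l 2)) (b (l 16418456) (l 266924489751)))) (b (a (l 16458520) (l 16542928)) (a (l 16464480) (l 16598200)))) (a (a (l 2) (b (l 322759497527) (l 2))) (b (a (l 315243262983) (l 16628496)) (l 360877342999)))) (b (a (b (l 16644448) (l 16683320)) (l 16755104)) (a (a (l 16681840) (l 16726336)) (l 16777480)))) (a (a (l 2) (b (l 373225620343) (l 2))) (b (a (l 16722392) (l 16791320)) (a (l 381279318423) (l 16821304))))) (b (b (a (l 2) (a (l 2) (l 16853600))) (l 2)) (l 2))) (b (b (a (b (a (l 16800120)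 (l 16833192)) (a (l 16806480) (l 16831856))) (a (b (l 16869984) (l 16860264)) (b (l 16884128) (l 16870488)))) (a (b (a (l 16819664) (l 16836824)) (a (l 16838296) (l 16844888))) (b (a (l 16858864) (l 16859264)) (a (l 16854728) (l 4))))) (b (a (b (a (l 16857160) (l 16849856)) (b (l 398459556599) (l 4))) (l 4)) (l 4)))), by decide +kernel⟩

theorem c_pm_113 : CertB 536870912 536870912 536870912 536870912 536870912 50465866 3 eng mog cd0q1 cd5q1 pd3 true true false .nn 1 1 3
    ndB0q1 ndB5q1 pcB3 Cut.none Ext.none :=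
  certB1 (fam := true) (s1 := true) (s2 := false) (a := 1) (b := 1) (c := 3) (cn := .nn) (n1 := ndB0q1) (n2 := ndB5q1) (pc := pcB3) (cut := Cut.none) (xt := Ext.none) (P1 := 536870912) (W1 := 536870912) (P2 := 536870912) (W2 := 536870912) (P3 := 536870912) (W3 := 50465866) (N0 := 3) (En := eng) (mo := mog) (C1 := cd0q1) (C2 := cd5q1) (C3 := pd3)
    rfl (fun _ => rfl) k0_pm_113

noncomputable def f_pm_123 : ℕ → ℕ → ℕ → ℕ → Bool := onCell 536870912 536870912 1610612736 536870912 536870912 50465866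
    (rowB 3 eng mog cd0q1 cd5q2 pd3 1 true true false .npn 1 2 3 (qsf 536870912 536870912 1073741824 536870912 3) ndB0q1 ndB5q2 pcB3 Cut.none Ext.none)

def k0_pm_123 : ∃ t, chk3 f_pm_123 t 1 1 1 = true :=
  ⟨(a (b (b (a (b (a (b (a (b (l 100964585639) (l 98280315431)) (b (l 1) (l 219076362583))) (a (b (l 16483904) (l 16522888)) (a (l 72510449927) (l 126734517207)))) (b (l 1) (a (b (l 1) (a (l 240551258711) (l 1))) (l 1)))) (b (a (a (l 16527200) (b (l 16589640) (l 16600400))) (a (a (a (l 16637536) (l 162168159639)) (l 163241994823)) (c (l 255047194183) (l 265784530295)))) (a (a (l 16557152) (l 16615256)) (a (l 16673632) (l 16733536))))) (b (l 1) (a (b (l 1) (c (l 262026854535) (l 276522116823))) (l 1)))) (a (a (b (a (b (l 16583928) (l 16607912)) (l 16640984)) (a (l 16642576) (l 16669928))) (b (c (l 16759784) (l 16659824)) (b (l 16713936) (l 16717000)))) (a (b (a (l 16782880) (l 16838488)) (l 16787832)) (b (l 268469474871) (c (l 16914744) (l 16829920))))))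 (b (a (a (b (l 16689224) (l 16713664)) (b (l 16724248) (l 16734472))) (b (a (l 16770608) (l 16830584)) (a (b (l 16761664) (l 16758760)) (l 16797272)))) (b (a (a (l 16730104) (l 16741384)) (a (l 16754808) (b (l 16775608) (l 16769056)))) (b (a (l 16741784) (a (l 16755560) (l 16758040))) (a (b (l 16744920) (a (l 16952808) (b (l 16747552) (l 16743320)))) (b (l 16876000) (b (l 16746232) (l 4)))))))) (a (b (b (l 1) (b (l 1) (a (b (l 1) (l 16929264)) (l 1)))) (b (b (a (l 16885696) (l 16939232)) (a (l 16834440) (b (l 16897912) (l 16864248)))) (b (b (a (l 16801768) (l 16827192)) (a (l 16776776) (l 16793888))) (b (a (l 16757072) (l 4)) (l 4))))) (b (l 1) (b (b (l 1) (a (b (l 1) (l 16910128)) (l 1))) (b (a (b (l 16866160) (l 4)) (l 4)) (l 4)))))), by decide +kernel⟩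

theorem c_pm_123 : CertB 536870912 536870912 1073741824 536870912 536870912 50465866 3 eng mog cd0q1 cd5q2 pd3 true true false .npn 1 2 3
    ndB0q1 ndB5q2 pcB3 Cut.none Ext.none :=
  certB1 (fam := true) (s1 := true) (s2 := false) (a := 1) (b := 2) (c := 3) (cn := .npn) (n1 := ndB0q1) (n2 := ndB5q2) (pc := pcB3) (cut := Cut.none) (xt := Ext.none) (P1 := 536870912) (W1 := 536870912) (P2 := 1073741824) (W2 := 536870912) (P3 := 536870912) (W3 := 50465866) (N0 := 3) (En := eng) (mo := mog) (C1 := cd0q1) (C2 := cd5q2) (C3 := pd3)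
    rfl (fun _ => rfl) k0_pm_123

noncomputable def f_pm_133 : ℕ → ℕ → ℕ → ℕ → Bool := onCell 536870912 536870912 0 1230186008 536870912 50465866
    (rowB 3 eng mog cd0q1 cd5q3 pd3 0 true true false .dn 1 3 3 (qsf 536870912 536870912 0 1230186008 3) ndB0q1 ndB5q3 pcB3 Cut.none Ext.none)

def k0_pm_133 : ∃ t, chk3 f_pm_133 t 1 1 1 = true :=
  ⟨(b (l 2) (b (l 2) (a (b (l 2) (a (b (l 2) (a (l 16752664) (l 2))) (l 2))) (l 2)))), by decide +kernel⟩

theorem c_pm_133 : CertB 536870912 536870912 0 1230186008 536870912 50465866 3 eng mog cd0q1 cd5q3 pd3 true true false .dn 1 3 3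
    ndB0q1 ndB5q3 pcB3 Cut.none Ext.none :=
  certB0 (fam := true) (s1 := true) (s2 := false) (a := 1) (b := 3) (c := 3) (cn := .dn) (n1 := ndB0q1) (n2 := ndB5q3) (pc := pcB3) (cut := Cut.none) (xt := Ext.none) (P1 := 536870912) (W1 := 536870912) (P2 := 0) (W2 := 1230186008) (P3 := 536870912) (W3 := 50465866) (N0 := 3) (En := eng) (mo := mog) (C1 := cd0q1) (C2 := cd5q3) (C3 := pd3)
    rfl k0_pm_133

noncomputable def f_pm_202 : ℕ → ℕ → ℕ → ℕ → Bool := onCell 0 536870912 0 536870912 536870912 50465866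
    (rowB 3 eng mog cd0q2 cd5q0 pd2 0 true true false .pp 2 0 2 (qsf 0 536870912 0 536870912 2) ndB0q2 ndB5q0 pcB2 Cut.none Ext.none)

def k0_pm_202 : ∃ t, chk3 f_pm_202 t 2 1 1 = true :=
  ⟨(b (b (a (b (a (l 4) (b (l 16667032) (l 16687904))) (l 4)) (b (a (b (l 16664424) (l 16683512)) (b (l 16664232) (l 16681912))) (a (l 16714368) (l 16712792)))) (a (l 4) (b (a (l 4) (l 16759280)) (l 4)))) (l 4)), by decide +kernel⟩

def k1_pm_202 : ∃ t, chk3 f_pm_202 t 3 2 1 = true :=
  ⟨(b (a (b (a (b (a (l 16664496) (l 16664464)) (l 16680472)) (b (a (l 16664256) (b (l 16661552) (l 16667408))) (a (l 16679552) (l 16679456)))) (a (b (l 16701120) (l 16725200)) (b (a (l 16700664) (l 16701376)) (l 16728576)))) (a (b (b (a (b (l 16662216) (l 16667816)) (b (l 16663344) (l 16669232))) (a (l 16680208) (l 16683056))) (b (a (l 16704200) (l 16710104)) (a (l 16735568) (l 16745504)))) (b (a (b (b (a (l 16665000) (b (l 16665360) (l 16667680))) (a (l 16671240) (l 16673384))) (b (l 16682656)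 (l 16696304))) (b (c (a (b (b (a (l 16720880) (l 16721608)) (l 16724568)) (l 16732608)) (b (a (b (b (l 16721880) (l 16723648)) (l 16727360)) (b (a (b (l 16721544) (l 16725104)) (b (l 16724120) (l 16727416))) (l 16731952))) (a (l 16738024) (l 16745680)))) (a (b (b (b (l 16611672) (l 16612584)) (l 16614552)) (l 16621224)) (b (a (b (b (a (l 16612664) (l 16612960)) (l 16613920)) (l 16616928)) (b (a (b (b (a (l 16613160) (l 16613320)) (l 16613760)) (l 16615184)) (b (a (b (b (l 16613416) (l 16613720)) (l 16614408)) (b (a (l 16613808) (l 16614408)) (l 16615480))) (l 16617304))) (a (l 16619432) (l 16622984)))) (a (l 16626064) (l 16633184))))) (a (l 16699000) (b (l 16703576) (l 16724384))))) (a (b (l 16721728) (l 16763352)) (b (a (l 16738592) (l 16741584)) (l 16769304)))))) (a (b (a (l 16765408) (l 16776920)) (a (l 16824632) (l 16850944))) (b (a (b (a (l 16772456) (l 16787184)) (l 16821784)) (a (b (l 16811856) (l 16833128)) (b (l 16782816) (l 16799536)))) (a (l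 16878040) (a (l 16856880) (l 16832616)))))), by decide +kernel⟩

def k2_pm_202 : ∃ t, chk3 f_pm_202 t 3 3 1 = true :=
  ⟨(b (a (b (a (l 16844160) (l 16872176)) (a (l 4) (l 16845224))) (b (a (l 16891928) (l 16882976)) (a (l 16877320) (l 16891424)))) (a (l 4) (b (a (l 16860312) (l 16888680)) (a (l 16826968) (l 16882480))))), by decide +kernel⟩

theorem s3_pm_202 : ∃ t, chk3 f_pm_202 t 3 1 1 = true := ex3_b k1_pm_202 k2_pm_202

theorem s4_pm_202 : ∃ t, chk3 f_pm_202 t 1 1 1 = true := ex3_a k0_pm_202 s3_pm_202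

theorem c_pm_202 : CertB 0 536870912 0 536870912 536870912 50465866 3 eng mog cd0q2 cd5q0 pd2 true true false .pp 2 0 2
    ndB0q2 ndB5q0 pcB2 Cut.none Ext.none :=
  certB0 (fam := true) (s1 := true) (s2 := false) (a := 2) (b := 0) (c := 2) (cn := .pp) (n1 := ndB0q2) (n2 := ndB5q0) (pc := pcB2) (cut := Cut.none) (xt := Ext.none) (P1 := 0) (W1 := 536870912) (P2 := 0) (W2 := 536870912) (P3 := 536870912) (W3 := 50465866) (N0 := 3) (En := eng) (mo := mog) (C1 := cd0q2) (C2 := cd5q0) (C3 := pd2)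
    rfl s4_pm_202

noncomputable def f_pm_203 : ℕ → ℕ → ℕ → ℕ → Bool := onCell 0 536870912 1610612736 536870912 536870912 50465866
    (rowB 3 eng mog cd0q2 cd5q0 pd3 1 true true false .up 2 0 3 (qsf 0 536870912 0 536870912 3) ndB0q2 ndB5q0 pcB3 Cut.none Ext.none)

def k0_pm_203 : ∃ t, chk3 f_pm_203 t 1 1 1 = true :=
  ⟨(b (a (l 4) (a (l 4) (a (l 4) (b (b (l 16875488) (l 2)) (l 2))))) (l 2)), by decide +kernel⟩

theorem c_pm_203 : CertB 0 536870912 0 536870912 536870912 50465866 3 eng mog cd0q2 cd5q0 pd3 true true false .up 2 0 3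
    ndB0q2 ndB5q0 pcB3 Cut.none Ext.none :=
  certB1 (fam := true) (s1 := true) (s2 := false) (a := 2) (b := 0) (c := 3) (cn := .up) (n1 := ndB0q2) (n2 := ndB5q0) (pc := pcB3) (cut := Cut.none) (xt := Ext.none) (P1 := 0) (W1 := 536870912) (P2 := 0) (W2 := 536870912) (P3 := 536870912) (W3 := 50465866) (N0 := 3) (En := eng) (mo := mog) (C1 := cd0q2) (C2 := cd5q0) (C3 := pd3)
    rfl (fun _ => rfl) k0_pm_203

noncomputable def f_pm_213 : ℕ → ℕ → ℕ → ℕ → Bool := onCell 0 536870912 1610612736 536870912 536870912 50465866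
    (rowB 3 eng mog cd0q2 cd5q1 pd3 1 true true false .pnn 2 1 3 (qsf 0 536870912 536870912 536870912 3) ndB0q2 ndB5q1 pcB3 Cut.none Ext.none)

def k0_pm_213 : ∃ t, chk3 f_pm_213 t 1 1 1 = true :=
  ⟨(b (a (l 4) (a (l 4) (b (b (l 16855848) (l 4)) (l 4)))) (l 4)), by decide +kernel⟩

theorem c_pm_213 : CertB 0 536870912 536870912 536870912 536870912 50465866 3 eng mog cd0q2 cd5q1 pd3 true true false .pnn 2 1 3
    ndB0q2 ndB5q1 pcB3 Cut.none Ext.none :=
  certB1 (fam := true) (s1 := true) (s2 := false) (a := 2) (b := 1) (c := 3) (cn := .pnn) (n1 := ndB0q2) (n2 := ndB5q1) (pc := pcB3) (cut := Cut.none) (xt := Ext.none) (P1 := 0) (W1 := 536870912) (P2 := 536870912) (W2 := 536870912) (P3 := 536870912) (W3 := 50465866) (N0 := 3) (En := eng) (mo := mog) (C1 := cd0q2) (C2 := cd5q1) (C3 := pd3)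
    rfl (fun _ => rfl) k0_pm_213

noncomputable def f_mm_001 : ℕ → ℕ → ℕ → ℕ → Bool := onCell 0 536870912 0 536870912 536870912 50465866
    (rowB 3 eng mog cd0q0 cd5q0 pd1 0 true false false .up 0 0 1 (qsf 0 536870912 0 536870912 1) ndB0q0 ndB5q0 pcB1 Cut.none Ext.none)

def k0_mm_001 : ∃ t, chk3 f_mm_001 t 1 1 1 = true :=
  ⟨(l 4), by decide +kernel⟩

theorem c_mm_001 : CertB 0 536870912 0 536870912 536870912 50465866 3 eng mog cd0q0 cd5q0 pd1 true false false .up 0 0 1
    ndB0q0 ndB5q0 pcB1 Cut.none Ext.none :=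
  certB0 (fam := true) (s1 := false) (s2 := false) (a := 0) (b := 0) (c := 1) (cn := .up) (n1 := ndB0q0) (n2 := ndB5q0) (pc := pcB1) (cut := Cut.none) (xt := Ext.none) (P1 := 0) (W1 := 536870912) (P2 := 0) (W2 := 536870912) (P3 := 536870912) (W3 := 50465866) (N0 := 3) (En := eng) (mo := mog) (C1 := cd0q0) (C2 := cd5q0) (C3 := pd1)
    rfl k0_mm_001

noncomputable def f_mm_011 : ℕ → ℕ → ℕ → ℕ → Bool := onCell 0 536870912 536870912 536870912 536870912 50465866
    (rowB 3 eng mog cd0q0 cd5q1 pd1 0 true false false .pnn 0 1 1 (qsf 0 536870912 536870912 536870912 1) ndB0q0 ndB5q1 pcB1 Cut.none Ext.none)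

def k0_mm_011 : ∃ t, chk3 f_mm_011 t 1 1 1 = true :=
  ⟨(l 4), by decide +kernel⟩

theorem c_mm_011 : CertB 0 536870912 536870912 536870912 536870912 50465866 3 eng mog cd0q0 cd5q1 pd1 true false false .pnn 0 1 1
    ndB0q0 ndB5q1 pcB1 Cut.none Ext.none :=
  certB0 (fam := true) (s1 := false) (s2 := false) (a := 0) (b := 1) (c := 1) (cn := .pnn) (n1 := ndB0q0) (n2 := ndB5q1) (pc := pcB1) (cut := Cut.none) (xt := Ext.none) (P1 := 0) (W1 := 536870912) (P2 := 536870912) (W2 := 536870912) (P3 := 536870912) (W3 := 50465866) (N0 := 3) (En := eng) (mo := mog) (C1 := cd0q0) (C2 := cd5q1) (C3 := pd1)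
    rfl k0_mm_011

noncomputable def f_mm_012 : ℕ → ℕ → ℕ → ℕ → Bool := onCell 0 536870912 536870912 536870912 536870912 50465866
    (rowB 3 eng mog cd0q0 cd5q1 pd2 0 true false false .pnp 0 1 2 (qsf 0 536870912 536870912 536870912 2) ndB0q0 ndB5q1 pcB2 Cut.none Ext.none)

def k0_mm_012 : ∃ t, chk3 f_mm_012 t 1 1 1 = true :=
  ⟨(l 4), by decide +kernel⟩

theorem c_mm_012 : CertB 0 536870912 536870912 536870912 536870912 50465866 3 eng mog cd0q0 cd5q1 pd2 true false false .pnp 0 1 2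
    ndB0q0 ndB5q1 pcB2 Cut.none Ext.none :=
  certB0 (fam := true) (s1 := false) (s2 := false) (a := 0) (b := 1) (c := 2) (cn := .pnp) (n1 := ndB0q0) (n2 := ndB5q1) (pc := pcB2) (cut := Cut.none) (xt := Ext.none) (P1 := 0) (W1 := 536870912) (P2 := 536870912) (W2 := 536870912) (P3 := 536870912) (W3 := 50465866) (N0 := 3) (En := eng) (mo := mog) (C1 := cd0q0) (C2 := cd5q1) (C3 := pd2)
    rfl k0_mm_012

noncomputable def f_mm_022 : ℕ → ℕ → ℕ → ℕ → Bool := onCell 0 536870912 1073741824 536870912 536870912 50465866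
    (rowB 3 eng mog cd0q0 cd5q2 pd2 0 true false false .pp 0 2 2 (qsf 0 536870912 1073741824 536870912 2) ndB0q0 ndB5q2 pcB2 Cut.none Ext.none)

def k0_mm_022 : ∃ t, chk3 f_mm_022 t 1 1 1 = true :=
  ⟨(l 4), by decide +kernel⟩

theorem c_mm_022 : CertB 0 536870912 1073741824 536870912 536870912 50465866 3 eng mog cd0q0 cd5q2 pd2 true false false .pp 0 2 2
    ndB0q0 ndB5q2 pcB2 Cut.none Ext.none :=
  certB0 (fam := true) (s1 := false) (s2 := false) (a := 0) (b := 2) (c := 2) (cn := .pp) (n1 := ndB0q0) (n2 := ndB5q2) (pc := pcB2) (cut := Cut.none) (xt := Ext.none) (P1 := 0) (W1 := 536870912) (P2 := 1073741824) (W2 := 536870912) (P3 := 536870912) (W3 := 50465866) (N0 := 3) (En := eng) (mo := mog) (C1 := cd0q0) (C2 := cd5q2) (C3 := pd2)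
    rfl k0_mm_022

noncomputable def f_mm_023 : ℕ → ℕ → ℕ → ℕ → Bool := onCell 0 536870912 1073741824 536870912 536870912 50465866
    (rowB 3 eng mog cd0q0 cd5q2 pd3 0 true false false .up 0 2 3 (qsf 0 536870912 1073741824 536870912 3) ndB0q0 ndB5q2 pcB3 Cut.none Ext.none)

def k0_mm_023 : ∃ t, chk3 f_mm_023 t 1 1 1 = true :=
  ⟨(l 4), by decide +kernel⟩

theorem c_mm_023 : CertB 0 536870912 1073741824 536870912 536870912 50465866 3 eng mog cd0q0 cd5q2 pd3 true false false .up 0 2 3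
    ndB0q0 ndB5q2 pcB3 Cut.none Ext.none :=
  certB0 (fam := true) (s1 := false) (s2 := false) (a := 0) (b := 2) (c := 3) (cn := .up) (n1 := ndB0q0) (n2 := ndB5q2) (pc := pcB3) (cut := Cut.none) (xt := Ext.none) (P1 := 0) (W1 := 536870912) (P2 := 1073741824) (W2 := 536870912) (P3 := 536870912) (W3 := 50465866) (N0 := 3) (En := eng) (mo := mog) (C1 := cd0q0) (C2 := cd5q2) (C3 := pd3)
    rfl k0_mm_023

noncomputable def f_mm_033 : ℕ → ℕ → ℕ → ℕ → Bool := onCell 0 536870912 0 1230186008 536870912 50465866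
    (rowB 3 eng mog cd0q0 cd5q3 pd3 0 true false false .pnn 0 3 3 (qsf 0 536870912 0 1230186008 3) ndB0q0 ndB5q3 pcB3 Cut.none Ext.none)

def k0_mm_033 : ∃ t, chk3 f_mm_033 t 1 1 1 = true :=
  ⟨(l 5), by decide +kernel⟩

theorem c_mm_033 : CertB 0 536870912 0 1230186008 536870912 50465866 3 eng mog cd0q0 cd5q3 pd3 true false false .pnn 0 3 3
    ndB0q0 ndB5q3 pcB3 Cut.none Ext.none :=
  certB0 (fam := true) (s1 := false) (s2 := false) (a := 0) (b := 3) (c := 3) (cn := .pnn) (n1 := ndB0q0) (n2 := ndB5q3) (pc := pcB3) (cut := Cut.none) (xt := Ext.none) (P1 := 0) (W1 := 536870912) (P2 := 0) (W2 := 1230186008) (P3 := 536870912) (W3 := 50465866) (N0 := 3) (En := eng) (mo := mog) (C1 := cd0q0) (C2 := cd5q3) (C3 := pd3)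
    rfl k0_mm_033

noncomputable def f_mm_101 : ℕ → ℕ → ℕ → ℕ → Bool := onCell 536870912 536870912 0 536870912 536870912 50465866
    (rowB 3 eng mog cd0q1 cd5q0 pd1 0 true false false .npn 1 0 1 (qsf 536870912 536870912 0 536870912 1) ndB0q1 ndB5q0 pcB1 Cut.none Ext.none)

def k0_mm_101 : ∃ t, chk3 f_mm_101 t 1 1 1 = true :=
  ⟨(l 4), by decide +kernel⟩

theorem c_mm_101 : CertB 536870912 536870912 0 536870912 536870912 50465866 3 eng mog cd0q1 cd5q0 pd1 true false false .npn 1 0 1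
    ndB0q1 ndB5q0 pcB1 Cut.none Ext.none :=
  certB0 (fam := true) (s1 := false) (s2 := false) (a := 1) (b := 0) (c := 1) (cn := .npn) (n1 := ndB0q1) (n2 := ndB5q0) (pc := pcB1) (cut := Cut.none) (xt := Ext.none) (P1 := 536870912) (W1 := 536870912) (P2 := 0) (W2 := 536870912) (P3 := 536870912) (W3 := 50465866) (N0 := 3) (En := eng) (mo := mog) (C1 := cd0q1) (C2 := cd5q0) (C3 := pd1)
    rfl k0_mm_101

noncomputable def f_mm_102 : ℕ → ℕ → ℕ → ℕ → Bool := onCell 536870912 536870912 0 536870912 536870912 50465866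
    (rowB 3 eng mog cd0q1 cd5q0 pd2 0 true false false .npp 1 0 2 (qsf 536870912 536870912 0 536870912 2) ndB0q1 ndB5q0 pcB2 Cut.none Ext.none)

def k0_mm_102 : ∃ t, chk3 f_mm_102 t 1 1 1 = true :=
  ⟨(l 4), by decide +kernel⟩

theorem c_mm_102 : CertB 536870912 536870912 0 536870912 536870912 50465866 3 eng mog cd0q1 cd5q0 pd2 true false false .npp 1 0 2
    ndB0q1 ndB5q0 pcB2 Cut.none Ext.none :=
  certB0 (fam := true) (s1 := false) (s2 := false) (a := 1) (b := 0) (c := 2) (cn := .npp) (n1 := ndB0q1) (n2 := ndB5q0) (pc := pcB2) (cut := Cut.none) (xt := Ext.none) (P1 := 536870912) (W1 := 536870912) (P2 := 0) (W2 := 536870912) (P3 := 536870912) (W3 := 50465866) (N0 := 3) (En := eng) (mo := mog) (C1 := cd0q1) (C2 := cd5q0) (C3 := pd2)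
    rfl k0_mm_102

noncomputable def f_mm_112 : ℕ → ℕ → ℕ → ℕ → Bool := onCell 536870912 536870912 536870912 536870912 536870912 50465866
    (rowB 3 eng mog cd0q1 cd5q1 pd2 0 true false false .dn 1 1 2 (qsf 536870912 536870912 536870912 536870912 2) ndB0q1 ndB5q1 pcB2 Cut.none Ext.none)

def k0_mm_112 : ∃ t, chk3 f_mm_112 t 1 1 1 = true :=
  ⟨(l 4), by decide +kernel⟩

theorem c_mm_112 : CertB 536870912 536870912 536870912 536870912 536870912 50465866 3 eng mog cd0q1 cd5q1 pd2 true false false .dn 1 1 2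
    ndB0q1 ndB5q1 pcB2 Cut.none Ext.none :=
  certB0 (fam := true) (s1 := false) (s2 := false) (a := 1) (b := 1) (c := 2) (cn := .dn) (n1 := ndB0q1) (n2 := ndB5q1) (pc := pcB2) (cut := Cut.none) (xt := Ext.none) (P1 := 536870912) (W1 := 536870912) (P2 := 536870912) (W2 := 536870912) (P3 := 536870912) (W3 := 50465866) (N0 := 3) (En := eng) (mo := mog) (C1 := cd0q1) (C2 := cd5q1) (C3 := pd2)
    rfl k0_mm_112

noncomputable def f_mm_113 : ℕ → ℕ → ℕ → ℕ → Bool := onCell 536870912 536870912 536870912 536870912 536870912 50465866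
    (rowB 3 eng mog cd0q1 cd5q1 pd3 0 true false false .nn 1 1 3 (qsf 536870912 536870912 536870912 536870912 3) ndB0q1 ndB5q1 pcB3 Cut.none Ext.none)

def k0_mm_113 : ∃ t, chk3 f_mm_113 t 1 1 1 = true :=
  ⟨(l 4), by decide +kernel⟩

theorem c_mm_113 : CertB 536870912 536870912 536870912 536870912 536870912 50465866 3 eng mog cd0q1 cd5q1 pd3 true false false .nn 1 1 3
    ndB0q1 ndB5q1 pcB3 Cut.none Ext.none :=
  certB0 (fam := true) (s1 := false) (s2 := false) (a := 1) (b := 1) (c := 3) (cn := .nn) (n1 := ndB0q1) (n2 := ndB5q1) (pc := pcB3) (cut := Cut.none) (xt := Ext.none) (P1 := 536870912) (W1 := 536870912) (P2 := 536870912) (W2 := 536870912) (P3 := 536870912) (W3 := 50465866) (N0 := 3) (En := eng) (mo := mog) (C1 := cd0q1) (C2 := cd5q1) (C3 := pd3)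
    rfl k0_mm_113

noncomputable def f_mm_123 : ℕ → ℕ → ℕ → ℕ → Bool := onCell 536870912 536870912 1073741824 536870912 536870912 50465866
    (rowB 3 eng mog cd0q1 cd5q2 pd3 0 true false false .npn 1 2 3 (qsf 536870912 536870912 1073741824 536870912 3) ndB0q1 ndB5q2 pcB3 Cut.none Ext.none)

def k0_mm_123 : ∃ t, chk3 f_mm_123 t 1 1 1 = true :=
  ⟨(l 4), by decide +kernel⟩

theorem c_mm_123 : CertB 536870912 536870912 1073741824 536870912 536870912 50465866 3 eng mog cd0q1 cd5q2 pd3 true false false .npn 1 2 3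
    ndB0q1 ndB5q2 pcB3 Cut.none Ext.none :=
  certB0 (fam := true) (s1 := false) (s2 := false) (a := 1) (b := 2) (c := 3) (cn := .npn) (n1 := ndB0q1) (n2 := ndB5q2) (pc := pcB3) (cut := Cut.none) (xt := Ext.none) (P1 := 536870912) (W1 := 536870912) (P2 := 1073741824) (W2 := 536870912) (P3 := 536870912) (W3 := 50465866) (N0 := 3) (En := eng) (mo := mog) (C1 := cd0q1) (C2 := cd5q2) (C3 := pd3)
    rfl k0_mm_123

noncomputable def f_mm_133 : ℕ → ℕ → ℕ → ℕ → Bool := onCell 536870912 536870912 0 1230186008 536870912 50465866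
    (rowB 3 eng mog cd0q1 cd5q3 pd3 0 true false false .dn 1 3 3 (qsf 536870912 536870912 0 1230186008 3) ndB0q1 ndB5q3 pcB3 Cut.none Ext.none)

def k0_mm_133 : ∃ t, chk3 f_mm_133 t 1 1 1 = true :=
  ⟨(l 4), by decide +kernel⟩

theorem c_mm_133 : CertB 536870912 536870912 0 1230186008 536870912 50465866 3 eng mog cd0q1 cd5q3 pd3 true false false .dn 1 3 3
    ndB0q1 ndB5q3 pcB3 Cut.none Ext.none :=
  certB0 (fam := true) (s1 := false) (s2 := false) (a := 1) (b := 3) (c := 3) (cn := .dn) (n1 := ndB0q1) (n2 := ndB5q3) (pc := pcB3) (cut := Cut.none) (xt := Ext.none) (P1 := 536870912) (W1 := 536870912) (P2 := 0) (W2 := 1230186008) (P3 := 536870912) (W3 := 50465866) (N0 := 3) (En := eng) (mo := mog) (C1 := cd0q1) (C2 := cd5q3) (C3 := pd3)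
    rfl k0_mm_133

noncomputable def f_mm_202 : ℕ → ℕ → ℕ → ℕ → Bool := onCell 0 536870912 0 536870912 536870912 50465866
    (rowB 3 eng mog cd0q2 cd5q0 pd2 0 true false false .pp 2 0 2 (qsf 0 536870912 0 536870912 2) ndB0q2 ndB5q0 pcB2 Cut.none Ext.none)

def k0_mm_202 : ∃ t, chk3 f_mm_202 t 1 1 1 = true :=
  ⟨(l 4), by decide +kernel⟩

theorem c_mm_202 : CertB 0 536870912 0 536870912 536870912 50465866 3 eng mog cd0q2 cd5q0 pd2 true false false .pp 2 0 2
    ndB0q2 ndB5q0 pcB2 Cut.none Ext.none :=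
  certB0 (fam := true) (s1 := false) (s2 := false) (a := 2) (b := 0) (c := 2) (cn := .pp) (n1 := ndB0q2) (n2 := ndB5q0) (pc := pcB2) (cut := Cut.none) (xt := Ext.none) (P1 := 0) (W1 := 536870912) (P2 := 0) (W2 := 536870912) (P3 := 536870912) (W3 := 50465866) (N0 := 3) (En := eng) (mo := mog) (C1 := cd0q2) (C2 := cd5q0) (C3 := pd2)
    rfl k0_mm_202

noncomputable def f_mm_203 : ℕ → ℕ → ℕ → ℕ → Bool := onCell 0 536870912 0 536870912 536870912 50465866
    (rowB 3 eng mog cd0q2 cd5q0 pd3 0 true false false .up 2 0 3 (qsf 0 536870912 0 536870912 3) ndB0q2 ndB5q0 pcB3 Cut.none Ext.none)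

def k0_mm_203 : ∃ t, chk3 f_mm_203 t 1 1 1 = true :=
  ⟨(l 4), by decide +kernel⟩

theorem c_mm_203 : CertB 0 536870912 0 536870912 536870912 50465866 3 eng mog cd0q2 cd5q0 pd3 true false false .up 2 0 3
    ndB0q2 ndB5q0 pcB3 Cut.none Ext.none :=
  certB0 (fam := true) (s1 := false) (s2 := false) (a := 2) (b := 0) (c := 3) (cn := .up) (n1 := ndB0q2) (n2 := ndB5q0) (pc := pcB3) (cut := Cut.none) (xt := Ext.none) (P1 := 0) (W1 := 536870912) (P2 := 0) (W2 := 536870912) (P3 := 536870912) (W3 := 50465866) (N0 := 3) (En := eng) (mo := mog) (C1 := cd0q2) (C2 := cd5q0) (C3 := pd3)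
    rfl k0_mm_203

noncomputable def f_mm_213 : ℕ → ℕ → ℕ → ℕ → Bool := onCell 0 536870912 536870912 536870912 536870912 50465866
    (rowB 3 eng mog cd0q2 cd5q1 pd3 0 true false false .pnn 2 1 3 (qsf 0 536870912 536870912 536870912 3) ndB0q2 ndB5q1 pcB3 Cut.none Ext.none)

def k0_mm_213 : ∃ t, chk3 f_mm_213 t 1 1 1 = true :=
  ⟨(l 4), by decide +kernel⟩

theorem c_mm_213 : CertB 0 536870912 536870912 536870912 536870912 50465866 3 eng mog cd0q2 cd5q1 pd3 true false false .pnn 2 1 3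
    ndB0q2 ndB5q1 pcB3 Cut.none Ext.none :=
  certB0 (fam := true) (s1 := false) (s2 := false) (a := 2) (b := 1) (c := 3) (cn := .pnn) (n1 := ndB0q2) (n2 := ndB5q1) (pc := pcB3) (cut := Cut.none) (xt := Ext.none) (P1 := 0) (W1 := 536870912) (P2 := 536870912) (W2 := 536870912) (P3 := 536870912) (W3 := 50465866) (N0 := 3) (En := eng) (mo := mog) (C1 := cd0q2) (C2 := cd5q1) (C3 := pd3)
    rfl k0_mm_213

end Pool.Agent.Strip051.G.I5000_5470.Tab.C.BA05

namespace Pool.Agent.Strip051.G.I5000_5470.Tab.C.BA06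

open Pool.Agent.Strip051.PB Pool.Agent.Strip051.PB.T
open Pool.Agent.Strip051.G.I5000_5470.Tab

noncomputable def cut_pp_001 : Cut := Cut.of [[⟨3, 0, 0, 1449551462⟩]]

noncomputable def f_pp_001 : ℕ → ℕ → ℕ → ℕ → Bool := onCell 0 536870912 0 536870912 536870912 50465866
    (rowB 3 eng mog cd0q0 cd6q0 pd1 0 true true true .up 0 0 1 (qsf 0 536870912 0 536870912 1) ndB0q0 ndB6q0 pcB1 cut_pp_001 Ext.none)

def k0_pp_001 : ∃ t, chk3 f_pp_001 t 1 1 1 = true :=
  ⟨(l 4), by decide +kernel⟩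

theorem c_pp_001 : CertB 0 536870912 0 536870912 536870912 50465866 3 eng mog cd0q0 cd6q0 pd1 true true true .up 0 0 1
    ndB0q0 ndB6q0 pcB1 cut_pp_001 Ext.none :=
  certB0 (fam := true) (s1 := true) (s2 := true) (a := 0) (b := 0) (c := 1) (cn := .up) (n1 := ndB0q0) (n2 := ndB6q0) (pc := pcB1) (cut := cut_pp_001) (xt := Ext.none) (P1 := 0) (W1 := 536870912) (P2 := 0) (W2 := 536870912) (P3 := 536870912) (W3 := 50465866) (N0 := 3) (En := eng) (mo := mog) (C1 := cd0q0) (C2 := cd6q0) (C3 := pd1)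
    rfl k0_pp_001

noncomputable def cut_pp_011 : Cut := Cut.of [[⟨3, 0, 0, 1449551462⟩]]

noncomputable def f_pp_011 : ℕ → ℕ → ℕ → ℕ → Bool := onCell 0 536870912 536870912 536870912 536870912 50465866
    (rowB 3 eng mog cd0q0 cd6q1 pd1 0 true true true .pnn 0 1 1 (qsf 0 536870912 536870912 536870912 1) ndB0q0 ndB6q1 pcB1 cut_pp_011 Ext.none)

def k0_pp_011 : ∃ t, chk3 f_pp_011 t 1 1 1 = true :=
  ⟨(l 4), by decide +kernel⟩

theorem c_pp_011 : CertB 0 536870912 536870912 536870912 536870912 50465866 3 eng mog cd0q0 cd6q1 pd1 true true true .pnn 0 1 1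
    ndB0q0 ndB6q1 pcB1 cut_pp_011 Ext.none :=
  certB0 (fam := true) (s1 := true) (s2 := true) (a := 0) (b := 1) (c := 1) (cn := .pnn) (n1 := ndB0q0) (n2 := ndB6q1) (pc := pcB1) (cut := cut_pp_011) (xt := Ext.none) (P1 := 0) (W1 := 536870912) (P2 := 536870912) (W2 := 536870912) (P3 := 536870912) (W3 := 50465866) (N0 := 3) (En := eng) (mo := mog) (C1 := cd0q0) (C2 := cd6q1) (C3 := pd1)
    rfl k0_pp_011

noncomputable def cut_pp_012 : Cut := Cut.of [[⟨3, 0, 0, 1449551462⟩]]

noncomputable def f_pp_012 : ℕ → ℕ → ℕ → ℕ → Bool := onCell 0 536870912 536870912 536870912 536870912 50465866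
    (rowB 3 eng mog cd0q0 cd6q1 pd2 0 true true true .pnp 0 1 2 (qsf 0 536870912 536870912 536870912 2) ndB0q0 ndB6q1 pcB2 cut_pp_012 Ext.none)

def k0_pp_012 : ∃ t, chk3 f_pp_012 t 1 1 1 = true :=
  ⟨(l 4), by decide +kernel⟩

theorem c_pp_012 : CertB 0 536870912 536870912 536870912 536870912 50465866 3 eng mog cd0q0 cd6q1 pd2 true true true .pnp 0 1 2
    ndB0q0 ndB6q1 pcB2 cut_pp_012 Ext.none :=
  certB0 (fam := true) (s1 := true) (s2 := true) (a := 0) (b := 1) (c := 2) (cn := .pnp) (n1 := ndB0q0) (n2 := ndB6q1) (pc := pcB2) (cut := cut_pp_012) (xt := Ext.none) (P1 := 0) (W1 := 536870912) (P2 := 536870912) (W2 := 536870912) (P3 := 536870912) (W3 := 50465866) (N0 := 3) (En := eng) (mo := mog) (C1 := cd0q0) (C2 := cd6q1) (C3 := pd2)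
    rfl k0_pp_012

noncomputable def cut_pp_022 : Cut := Cut.of [[⟨3, 0, 0, 1449551462⟩]]

noncomputable def f_pp_022 : ℕ → ℕ → ℕ → ℕ → Bool := onCell 0 536870912 1073741824 536870912 536870912 50465866
    (rowB 3 eng mog cd0q0 cd6q2 pd2 0 true true true .pp 0 2 2 (qsf 0 536870912 1073741824 536870912 2) ndB0q0 ndB6q2 pcB2 cut_pp_022 Ext.none)

def k0_pp_022 : ∃ t, chk3 f_pp_022 t 1 1 1 = true :=
  ⟨(l 4), by decide +kernel⟩

theorem c_pp_022 : CertB 0 536870912 1073741824 536870912 536870912 50465866 3 eng mog cd0q0 cd6q2 pd2 true true true .pp 0 2 2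
    ndB0q0 ndB6q2 pcB2 cut_pp_022 Ext.none :=
  certB0 (fam := true) (s1 := true) (s2 := true) (a := 0) (b := 2) (c := 2) (cn := .pp) (n1 := ndB0q0) (n2 := ndB6q2) (pc := pcB2) (cut := cut_pp_022) (xt := Ext.none) (P1 := 0) (W1 := 536870912) (P2 := 1073741824) (W2 := 536870912) (P3 := 536870912) (W3 := 50465866) (N0 := 3) (En := eng) (mo := mog) (C1 := cd0q0) (C2 := cd6q2) (C3 := pd2)
    rfl k0_pp_022

noncomputable def cut_pp_023 : Cut := Cut.of [[⟨3, 0, 0, 1449551462⟩]]

noncomputable def f_pp_023 : ℕ → ℕ → ℕ → ℕ → Bool := onCell 0 536870912 1073741824 536870912 536870912 50465866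
    (rowB 3 eng mog cd0q0 cd6q2 pd3 0 true true true .up 0 2 3 (qsf 0 536870912 1073741824 536870912 3) ndB0q0 ndB6q2 pcB3 cut_pp_023 Ext.none)

def k0_pp_023 : ∃ t, chk3 f_pp_023 t 1 1 1 = true :=
  ⟨(l 4), by decide +kernel⟩

theorem c_pp_023 : CertB 0 536870912 1073741824 536870912 536870912 50465866 3 eng mog cd0q0 cd6q2 pd3 true true true .up 0 2 3
    ndB0q0 ndB6q2 pcB3 cut_pp_023 Ext.none :=
  certB0 (fam := true) (s1 := true) (s2 := true) (a := 0) (b := 2) (c := 3) (cn := .up) (n1 := ndB0q0) (n2 := ndB6q2) (pc := pcB3) (cut := cut_pp_023) (xt := Ext.none) (P1 := 0) (W1 := 536870912) (P2 := 1073741824) (W2 := 536870912) (P3 := 536870912) (W3 := 50465866) (N0 := 3) (En := eng) (mo := mog) (C1 := cd0q0) (C2 := cd6q2) (C3 := pd3)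
    rfl k0_pp_023

noncomputable def cut_pp_033 : Cut := Cut.of [[⟨3, 0, 0, 1449551462⟩]]

noncomputable def f_pp_033 : ℕ → ℕ → ℕ → ℕ → Bool := onCell 0 536870912 0 1230186008 536870912 50465866
    (rowB 3 eng mog cd0q0 cd6q3 pd3 0 true true true .pnn 0 3 3 (qsf 0 536870912 0 1230186008 3) ndB0q0 ndB6q3 pcB3 cut_pp_033 Ext.none)

def k0_pp_033 : ∃ t, chk3 f_pp_033 t 1 1 1 = true :=
  ⟨(l 4), by decide +kernel⟩

theorem c_pp_033 : CertB 0 536870912 0 1230186008 536870912 50465866 3 eng mog cd0q0 cd6q3 pd3 true true true .pnn 0 3 3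
    ndB0q0 ndB6q3 pcB3 cut_pp_033 Ext.none :=
  certB0 (fam := true) (s1 := true) (s2 := true) (a := 0) (b := 3) (c := 3) (cn := .pnn) (n1 := ndB0q0) (n2 := ndB6q3) (pc := pcB3) (cut := cut_pp_033) (xt := Ext.none) (P1 := 0) (W1 := 536870912) (P2 := 0) (W2 := 1230186008) (P3 := 536870912) (W3 := 50465866) (N0 := 3) (En := eng) (mo := mog) (C1 := cd0q0) (C2 := cd6q3) (C3 := pd3)
    rfl k0_pp_033

noncomputable def cut_pp_101 : Cut := Cut.of [[⟨3, 0, 0, 1449551462⟩]]

noncomputable def f_pp_101 : ℕ → ℕ → ℕ → ℕ → Bool := onCell 536870912 536870912 0 536870912 536870912 50465866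
    (rowB 3 eng mog cd0q1 cd6q0 pd1 0 true true true .npn 1 0 1 (qsf 536870912 536870912 0 536870912 1) ndB0q1 ndB6q0 pcB1 cut_pp_101 Ext.none)

def k0_pp_101 : ∃ t, chk3 f_pp_101 t 1 1 1 = true :=
  ⟨(l 4), by decide +kernel⟩

theorem c_pp_101 : CertB 536870912 536870912 0 536870912 536870912 50465866 3 eng mog cd0q1 cd6q0 pd1 true true true .npn 1 0 1
    ndB0q1 ndB6q0 pcB1 cut_pp_101 Ext.none :=
  certB0 (fam := true) (s1 := true) (s2 := true) (a := 1) (b := 0) (c := 1) (cn := .npn) (n1 := ndB0q1) (n2 := ndB6q0) (pc := pcB1) (cut := cut_pp_101) (xt := Ext.none) (P1 := 536870912) (W1 := 536870912) (P2 := 0) (W2 := 536870912) (P3 := 536870912) (W3 := 50465866) (N0 := 3) (En := eng) (mo := mog) (C1 := cd0q1) (C2 := cd6q0) (C3 := pd1)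
    rfl k0_pp_101

noncomputable def cut_pp_102 : Cut := Cut.of [[⟨3, 0, 0, 1449551462⟩]]

noncomputable def f_pp_102 : ℕ → ℕ → ℕ → ℕ → Bool := onCell 536870912 536870912 0 536870912 536870912 50465866
    (rowB 3 eng mog cd0q1 cd6q0 pd2 0 true true true .npp 1 0 2 (qsf 536870912 536870912 0 536870912 2) ndB0q1 ndB6q0 pcB2 cut_pp_102 Ext.none)

def k0_pp_102 : ∃ t, chk3 f_pp_102 t 1 1 1 = true :=
  ⟨(l 4), by decide +kernel⟩

theorem c_pp_102 : CertB 536870912 536870912 0 536870912 536870912 50465866 3 eng mog cd0q1 cd6q0 pd2 true true true .npp 1 0 2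
    ndB0q1 ndB6q0 pcB2 cut_pp_102 Ext.none :=
  certB0 (fam := true) (s1 := true) (s2 := true) (a := 1) (b := 0) (c := 2) (cn := .npp) (n1 := ndB0q1) (n2 := ndB6q0) (pc := pcB2) (cut := cut_pp_102) (xt := Ext.none) (P1 := 536870912) (W1 := 536870912) (P2 := 0) (W2 := 536870912) (P3 := 536870912) (W3 := 50465866) (N0 := 3) (En := eng) (mo := mog) (C1 := cd0q1) (C2 := cd6q0) (C3 := pd2)
    rfl k0_pp_102

noncomputable def cut_pp_112 : Cut := Cut.of [[⟨3, 0, 0, 1449551462⟩]]

noncomputable def f_pp_112 : ℕ → ℕ → ℕ → ℕ → Bool := onCell 536870912 536870912 536870912 536870912 536870912 50465866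
    (rowB 3 eng mog cd0q1 cd6q1 pd2 0 true true true .dn 1 1 2 (qsf 536870912 536870912 536870912 536870912 2) ndB0q1 ndB6q1 pcB2 cut_pp_112 Ext.none)

def k0_pp_112 : ∃ t, chk3 f_pp_112 t 1 1 1 = true :=
  ⟨(l 4), by decide +kernel⟩

theorem c_pp_112 : CertB 536870912 536870912 536870912 536870912 536870912 50465866 3 eng mog cd0q1 cd6q1 pd2 true true true .dn 1 1 2
    ndB0q1 ndB6q1 pcB2 cut_pp_112 Ext.none :=
  certB0 (fam := true) (s1 := true) (s2 := true) (a := 1) (b := 1) (c := 2) (cn := .dn) (n1 := ndB0q1) (n2 := ndB6q1) (pc := pcB2) (cut := cut_pp_112) (xt := Ext.none) (P1 := 536870912) (W1 := 536870912) (P2 := 536870912) (W2 := 536870912) (P3 := 536870912) (W3 := 50465866) (N0 := 3) (En := eng) (mo := mog) (C1 := cd0q1) (C2 := cd6q1) (C3 := pd2)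
    rfl k0_pp_112

noncomputable def cut_pp_113 : Cut := Cut.of [[⟨3, 0, 0, 1449551462⟩]]

noncomputable def f_pp_113 : ℕ → ℕ → ℕ → ℕ → Bool := onCell 536870912 536870912 536870912 536870912 536870912 50465866
    (rowB 3 eng mog cd0q1 cd6q1 pd3 0 true true true .nn 1 1 3 (qsf 536870912 536870912 536870912 536870912 3) ndB0q1 ndB6q1 pcB3 cut_pp_113 Ext.none)

def k0_pp_113 : ∃ t, chk3 f_pp_113 t 1 1 1 = true :=
  ⟨(l 4), by decide +kernel⟩

theorem c_pp_113 : CertB 536870912 536870912 536870912 536870912 536870912 50465866 3 eng mog cd0q1 cd6q1 pd3 true true true .nn 1 1 3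
    ndB0q1 ndB6q1 pcB3 cut_pp_113 Ext.none :=
  certB0 (fam := true) (s1 := true) (s2 := true) (a := 1) (b := 1) (c := 3) (cn := .nn) (n1 := ndB0q1) (n2 := ndB6q1) (pc := pcB3) (cut := cut_pp_113) (xt := Ext.none) (P1 := 536870912) (W1 := 536870912) (P2 := 536870912) (W2 := 536870912) (P3 := 536870912) (W3 := 50465866) (N0 := 3) (En := eng) (mo := mog) (C1 := cd0q1) (C2 := cd6q1) (C3 := pd3)
    rfl k0_pp_113

noncomputable def cut_pp_123 : Cut := Cut.of [[⟨3, 0, 0, 1449551462⟩]]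

noncomputable def f_pp_123 : ℕ → ℕ → ℕ → ℕ → Bool := onCell 536870912 536870912 1073741824 536870912 536870912 50465866
    (rowB 3 eng mog cd0q1 cd6q2 pd3 0 true true true .npn 1 2 3 (qsf 536870912 536870912 1073741824 536870912 3) ndB0q1 ndB6q2 pcB3 cut_pp_123 Ext.none)

def k0_pp_123 : ∃ t, chk3 f_pp_123 t 1 1 1 = true :=
  ⟨(l 4), by decide +kernel⟩

theorem c_pp_123 : CertB 536870912 536870912 1073741824 536870912 536870912 50465866 3 eng mog cd0q1 cd6q2 pd3 true true true .npn 1 2 3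
    ndB0q1 ndB6q2 pcB3 cut_pp_123 Ext.none :=
  certB0 (fam := true) (s1 := true) (s2 := true) (a := 1) (b := 2) (c := 3) (cn := .npn) (n1 := ndB0q1) (n2 := ndB6q2) (pc := pcB3) (cut := cut_pp_123) (xt := Ext.none) (P1 := 536870912) (W1 := 536870912) (P2 := 1073741824) (W2 := 536870912) (P3 := 536870912) (W3 := 50465866) (N0 := 3) (En := eng) (mo := mog) (C1 := cd0q1) (C2 := cd6q2) (C3 := pd3)
    rfl k0_pp_123

noncomputable def cut_pp_133 : Cut := Cut.of [[⟨3, 0, 0, 1449551462⟩]]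

noncomputable def f_pp_133 : ℕ → ℕ → ℕ → ℕ → Bool := onCell 536870912 536870912 0 1230186008 536870912 50465866
    (rowB 3 eng mog cd0q1 cd6q3 pd3 0 true true true .dn 1 3 3 (qsf 536870912 536870912 0 1230186008 3) ndB0q1 ndB6q3 pcB3 cut_pp_133 Ext.none)

def k0_pp_133 : ∃ t, chk3 f_pp_133 t 1 1 1 = true :=
  ⟨(l 4), by decide +kernel⟩

theorem c_pp_133 : CertB 536870912 536870912 0 1230186008 536870912 50465866 3 eng mog cd0q1 cd6q3 pd3 true true true .dn 1 3 3
    ndB0q1 ndB6q3 pcB3 cut_pp_133 Ext.none :=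
  certB0 (fam := true) (s1 := true) (s2 := true) (a := 1) (b := 3) (c := 3) (cn := .dn) (n1 := ndB0q1) (n2 := ndB6q3) (pc := pcB3) (cut := cut_pp_133) (xt := Ext.none) (P1 := 536870912) (W1 := 536870912) (P2 := 0) (W2 := 1230186008) (P3 := 536870912) (W3 := 50465866) (N0 := 3) (En := eng) (mo := mog) (C1 := cd0q1) (C2 := cd6q3) (C3 := pd3)
    rfl k0_pp_133

noncomputable def cut_pp_202 : Cut := Cut.of [[⟨3, 0, 0, 1449551462⟩]]

noncomputable def f_pp_202 : ℕ → ℕ → ℕ → ℕ → Bool := onCell 0 536870912 0 536870912 536870912 50465866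
    (rowB 3 eng mog cd0q2 cd6q0 pd2 0 true true true .pp 2 0 2 (qsf 0 536870912 0 536870912 2) ndB0q2 ndB6q0 pcB2 cut_pp_202 Ext.none)

def k0_pp_202 : ∃ t, chk3 f_pp_202 t 1 1 1 = true :=
  ⟨(l 4), by decide +kernel⟩

theorem c_pp_202 : CertB 0 536870912 0 536870912 536870912 50465866 3 eng mog cd0q2 cd6q0 pd2 true true true .pp 2 0 2
    ndB0q2 ndB6q0 pcB2 cut_pp_202 Ext.none :=
  certB0 (fam := true) (s1 := true) (s2 := true) (a := 2) (b := 0) (c := 2) (cn := .pp) (n1 := ndB0q2) (n2 := ndB6q0) (pc := pcB2) (cut := cut_pp_202) (xt := Ext.none) (P1 := 0) (W1 := 536870912) (P2 := 0) (W2 := 536870912) (P3 := 536870912) (W3 := 50465866) (N0 := 3) (En := eng) (mo := mog) (C1 := cd0q2) (C2 := cd6q0) (C3 := pd2)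
    rfl k0_pp_202

noncomputable def cut_pp_203 : Cut := Cut.of [[⟨3, 0, 0, 1449551462⟩]]

noncomputable def f_pp_203 : ℕ → ℕ → ℕ → ℕ → Bool := onCell 0 536870912 0 536870912 536870912 50465866
    (rowB 3 eng mog cd0q2 cd6q0 pd3 0 true true true .up 2 0 3 (qsf 0 536870912 0 536870912 3) ndB0q2 ndB6q0 pcB3 cut_pp_203 Ext.none)

def k0_pp_203 : ∃ t, chk3 f_pp_203 t 1 1 1 = true :=
  ⟨(l 4), by decide +kernel⟩

theorem c_pp_203 : CertB 0 536870912 0 536870912 536870912 50465866 3 eng mog cd0q2 cd6q0 pd3 true true true .up 2 0 3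
    ndB0q2 ndB6q0 pcB3 cut_pp_203 Ext.none :=
  certB0 (fam := true) (s1 := true) (s2 := true) (a := 2) (b := 0) (c := 3) (cn := .up) (n1 := ndB0q2) (n2 := ndB6q0) (pc := pcB3) (cut := cut_pp_203) (xt := Ext.none) (P1 := 0) (W1 := 536870912) (P2 := 0) (W2 := 536870912) (P3 := 536870912) (W3 := 50465866) (N0 := 3) (En := eng) (mo := mog) (C1 := cd0q2) (C2 := cd6q0) (C3 := pd3)
    rfl k0_pp_203

noncomputable def cut_pp_213 : Cut := Cut.of [[⟨3, 0, 0, 1449551462⟩]]

noncomputable def f_pp_213 : ℕ → ℕ → ℕ → ℕ → Bool := onCell 0 536870912 536870912 536870912 536870912 50465866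
    (rowB 3 eng mog cd0q2 cd6q1 pd3 0 true true true .pnn 2 1 3 (qsf 0 536870912 536870912 536870912 3) ndB0q2 ndB6q1 pcB3 cut_pp_213 Ext.none)

def k0_pp_213 : ∃ t, chk3 f_pp_213 t 1 1 1 = true :=
  ⟨(l 4), by decide +kernel⟩

theorem c_pp_213 : CertB 0 536870912 536870912 536870912 536870912 50465866 3 eng mog cd0q2 cd6q1 pd3 true true true .pnn 2 1 3
    ndB0q2 ndB6q1 pcB3 cut_pp_213 Ext.none :=
  certB0 (fam := true) (s1 := true) (s2 := true) (a := 2) (b := 1) (c := 3) (cn := .pnn) (n1 := ndB0q2) (n2 := ndB6q1) (pc := pcB3) (cut := cut_pp_213) (xt := Ext.none) (P1 := 0) (W1 := 536870912) (P2 := 536870912) (W2 := 536870912) (P3 := 536870912) (W3 := 50465866) (N0 := 3) (En := eng) (mo := mog) (C1 := cd0q2) (C2 := cd6q1) (C3 := pd3)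
    rfl k0_pp_213

noncomputable def cut_pm_001 : Cut := Cut.of [[⟨3, 0, 0, 1449551462⟩]]

noncomputable def f_pm_001 : ℕ → ℕ → ℕ → ℕ → Bool := onCell 0 536870912 0 536870912 536870912 50465866
    (rowB 3 eng mog cd0q0 cd6q0 pd1 0 true true false .up 0 0 1 (qsf 0 536870912 0 536870912 1) ndB0q0 ndB6q0 pcB1 cut_pm_001 Ext.none)

def k0_pm_001 : ∃ t, chk3 f_pm_001 t 1 1 1 = true :=
  ⟨(a (l 3) (b (l 6) (a (l 6) (b (l 6) (a (l 6) (b (l 6) (a (l 6) (b (l 6) (l 16223760))))))))), by decide +kernel⟩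

theorem c_pm_001 : CertB 0 536870912 0 536870912 536870912 50465866 3 eng mog cd0q0 cd6q0 pd1 true true false .up 0 0 1
    ndB0q0 ndB6q0 pcB1 cut_pm_001 Ext.none :=
  certB0 (fam := true) (s1 := true) (s2 := false) (a := 0) (b := 0) (c := 1) (cn := .up) (n1 := ndB0q0) (n2 := ndB6q0) (pc := pcB1) (cut := cut_pm_001) (xt := Ext.none) (P1 := 0) (W1 := 536870912) (P2 := 0) (W2 := 536870912) (P3 := 536870912) (W3 := 50465866) (N0 := 3) (En := eng) (mo := mog) (C1 := cd0q0) (C2 := cd6q0) (C3 := pd1)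
    rfl k0_pm_001

noncomputable def cut_pm_011 : Cut := Cut.of [[⟨3, 0, 0, 1449551462⟩], [⟨0, 0, 0, 67108864⟩, ⟨1, 1, 0, 67108864⟩, ⟨2, 1, 0, 67108864⟩]]

noncomputable def f_pm_011 : ℕ → ℕ → ℕ → ℕ → Bool := onCell 0 536870912 536870912 536870912 536870912 50465866
    (rowB 3 eng mog cd0q0 cd6q1 pd1 1 true true false .pnn 0 1 1 (qsf 0 536870912 536870912 536870912 1) ndB0q0 ndB6q1 pcB1 cut_pm_011 Ext.none)

def k0_pm_011 : ∃ t, chk3 f_pm_011 t 1 1 1 = true :=
  ⟨(b (l 6) (a (l 6) (b (l 6) (a (l 6) (b (l 6) (a (l 6) (b (l 6) (a (l 6) (l 16140432))))))))), by decide +kernel⟩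

theorem c_pm_011 : CertB 0 536870912 536870912 536870912 536870912 50465866 3 eng mog cd0q0 cd6q1 pd1 true true false .pnn 0 1 1
    ndB0q0 ndB6q1 pcB1 cut_pm_011 Ext.none :=
  certB1 (fam := true) (s1 := true) (s2 := false) (a := 0) (b := 1) (c := 1) (cn := .pnn) (n1 := ndB0q0) (n2 := ndB6q1) (pc := pcB1) (cut := cut_pm_011) (xt := Ext.none) (P1 := 0) (W1 := 536870912) (P2 := 536870912) (W2 := 536870912) (P3 := 536870912) (W3 := 50465866) (N0 := 3) (En := eng) (mo := mog) (C1 := cd0q0) (C2 := cd6q1) (C3 := pd1)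
    rfl (fun _ => rfl) k0_pm_011

noncomputable def cut_pm_012 : Cut := Cut.of [[⟨3, 0, 0, 1449551462⟩], [⟨0, 0, 0, 67108864⟩, ⟨1, 1, 0, 67108864⟩, ⟨2, 1, 0, 67108864⟩]]

noncomputable def f_pm_012 : ℕ → ℕ → ℕ → ℕ → Bool := onCell 0 536870912 1073741824 536870912 536870912 50465866
    (rowB 3 eng mog cd0q0 cd6q1 pd2 1 true true false .pnp 0 1 2 (qsf 0 536870912 536870912 536870912 2) ndB0q0 ndB6q1 pcB2 cut_pm_012 Ext.none)

def k0_pm_012 : ∃ t, chk3 f_pm_012 t 2 1 1 = true :=
  ⟨(b (b (l 6) (a (b (l 6) (l 2)) (a (b (l 6) (b (b (l 6) (l 2)) (l 2))) (b (b (l 6) (a (l 6) (b (l 6) (l 16277952)))) (a (b (a (b (a (l 6) (l 16258808)) (l 16231280)) (b (l 16259000) (a (l 16233392) (l 16234632)))) (a (l 2) (b (l 16207608) (l 2)))) (b (a (b (l 16258704) (l 16236200)) (b (l 16257640) (l 16237568))) (a (b (a (l 16211080) (l 16213200)) (l 16186760)) (b (l 16215976) (l 17816319383))))))))) (b (a (l 2) (a (l 2) (b (a (l 2) (b (a (l 2) (b (l 16168608) (l 2))) (l 2))) (l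 2)))) (l 2))), by decide +kernel⟩

def k1_pm_012 : ∃ t, chk3 f_pm_012 t 3 2 1 = true :=
  ⟨(b (a (a (l 6) (b (l 6) (b (l 6) (a (l 16282648) (l 16243144))))) (a (b (a (l 6) (l 16279064)) (b (a (l 16215384) (l 16167040)) (a (l 16199264) (l 16155992)))) (b (a (l 16203696) (b (l 16094408) (l 16089552))) (b (a (l 16123208) (l 16084576)) (a (l 16114856) (l 16077320)))))) (a (b (a (a (b (l 6) (b (l 16282352) (l 16268992))) (b (b (l 16291376) (b (l 16279024) (b (l 16273328) (l 16271936)))) (l 16259176))) (b (b (a (l 16260696) (l 16224520)) (b (l 16253488) (b (l 16227888) (a (l 16243984) (l 16210400))))) (a (l 16235984) (l 16207544)))) (a (a (b (a (l 16247008) (l 16244984)) (a (b (l 16218776) (l 16198160)) (l 16211392))) (b (l 16238960) (a (l 16212576) (l 16211936)))) (a (b (l 16225520) (l 16208064)) (l 16225416)))) (b (a (b (b (l 16311096) (b (l 16157536) (b (l 16154296) (l 16280056)))) (a (l 16175688) (l 16144600))) (b (b (l 16172720) (b (l 16083968) (a (l 16100704)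 (l 16064808)))) (a (l 16114696) (l 16085728)))) (a (a (l 16188992) (l 16175616)) (a (l 16164720) (l 16155096)))))), by decide +kernel⟩

def k2_pm_012 : ∃ t, chk3 f_pm_012 t 3 3 1 = true :=
  ⟨(b (a (a (b (a (b (a (b (l 34996167479) (l 16153168)) (b (l 16182464) (l 16161776))) (a (l 2) (b (l 16140520) (l 2)))) (b (a (b (l 16187136) (l 16168792)) (l 16182032)) (a (b (l 16149816) (l 16129784)) (b (l 16157144) (l 16139312))))) (a (l 2) (b (b (l 16742459303) (l 2)) (l 2)))) (b (a (b (l 16184824) (a (l 16154960) (l 16160424))) (b (l 16185032) (l 16166664))) (a (b (a (l 82777593383) (l 16172032)) (l 59155095575)) (b (l 16142528) (l 125190278263))))) (a (b (a (l 16179408) (l 16185368)) (a (b (l 16157888) (l 16133768)) (l 16168944))) (b (a (l 16194720) (l 16206336)) (a (l 16195432) (l 16224400))))) (a (b (a (l 2) (a (l 2) (b (l 92440925943) (l 2)))) (l 2)) (b (a (a (b (l 115526572215) (l 67744790567)) (a (l 125190237143) (l 142907058791))) (a (b (l 16177064) (l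 16157216)) (l 16214568))) (a (b (a (l 2) (l 82240308855)) (l 2)) (b (a (l 116600155223) (l 16199456)) (a (b (l 118747765047) (l 2)) (b (a (l 139685756775) (l 16211728)) (a (l 155791912551) (l 170287511319))))))))), by decide +kernel⟩

theorem s3_pm_012 : ∃ t, chk3 f_pm_012 t 3 1 1 = true := ex3_b k1_pm_012 k2_pm_012

theorem s4_pm_012 : ∃ t, chk3 f_pm_012 t 1 1 1 = true := ex3_a k0_pm_012 s3_pm_012

theorem c_pm_012 : CertB 0 536870912 536870912 536870912 536870912 50465866 3 eng mog cd0q0 cd6q1 pd2 true true false .pnp 0 1 2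
    ndB0q0 ndB6q1 pcB2 cut_pm_012 Ext.none :=
  certB1 (fam := true) (s1 := true) (s2 := false) (a := 0) (b := 1) (c := 2) (cn := .pnp) (n1 := ndB0q0) (n2 := ndB6q1) (pc := pcB2) (cut := cut_pm_012) (xt := Ext.none) (P1 := 0) (W1 := 536870912) (P2 := 536870912) (W2 := 536870912) (P3 := 536870912) (W3 := 50465866) (N0 := 3) (En := eng) (mo := mog) (C1 := cd0q0) (C2 := cd6q1) (C3 := pd2)
    rfl (fun _ => rfl) s4_pm_012

noncomputable def cut_pm_022 : Cut := Cut.of [[⟨3, 0, 0, 1449551462⟩], [⟨0, 0, 0, 67108864⟩, ⟨1, 1, 0, 67108864⟩, ⟨2, 1, 0, 67108864⟩]]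

noncomputable def f_pm_022 : ℕ → ℕ → ℕ → ℕ → Bool := onCell 1073741824 536870912 1073741824 536870912 536870912 50465866
    (rowB 3 eng mog cd0q0 cd6q2 pd2 2 true true false .pp 0 2 2 (qsf 0 536870912 1073741824 536870912 2) ndB0q0 ndB6q2 pcB2 cut_pm_022 Ext.none)

def k0_pm_022 : ∃ t, chk3 f_pm_022 t 2 1 1 = true :=
  ⟨(a (l 6) (b (a (l 6) (a (b (b (b (b (a (l 16267256) (b (l 16238264) (l 16246336))) (a (l 6) (l 16257776))) (b (l 16284752) (l 16298312))) (l 6)) (l 6)) (b (b (b (b (a (l 16241328) (l 16221984)) (a (l 16235176) (l 16215696))) (b (l 16237936) (l 16249592))) (b (l 16264776) (l 16283120))) (b (b (l 16298328) (l 6)) (l 6))))) (l 6))), by decide +kernel⟩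

def k1_pm_022 : ∃ t, chk3 f_pm_022 t 3 1 1 = true :=
  ⟨(a (b (b (a (b (b (a (b (a (l 16184168) (l 16169784)) (l 16254008)) (b (a (l 16157976) (l 16147552)) (l 16167320))) (a (b (l 16203400) (l 16213152)) (b (l 16179656) (l 16189704)))) (b (a (l 16225904) (l 16199472)) (a (l 16238680) (l 16209376)))) (b (b (a (a (b (l 16138568) (l 16153880)) (l 16137680)) (b (l 16118464) (l 16133784))) (a (l 16230048) (l 16153888))) (b (a (l 16184824) (l 16172072)) (a (l 16190952) (l 16182536))))) (b (a (b (a (l 16249704) (l 16213984)) (a (l 16257736) (l 16217232))) (a (a (l 16196728) (l 16187368)) (l 16324992))) (a (b (a (l 16260304) (l 16217320)) (a (l 16250880) (l 16208176))) (b (l 16359760) (a (l 16173328) (l 16147576)))))) (b (b (a (b (l 16361632) (a (l 6) (l 16164912))) (a (l 16236984) (b (l 16122296) (l 16082840)))) (a (b (l 464425802791) (l 1)) (b (l 161093572871) (l 170220778615)))) (a (l 1) (b (a (l 1) (l 285647513063)) (l 1))))) (b (b (a (b (b (a (l 16115344)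 (l 16112656)) (a (l 16138744) (l 16127152))) (b (a (l 16160368) (l 16142880)) (l 16163632))) (a (b (b (l 16131216) (l 16130392)) (l 16140264)) (b (b (a (b (l 16169320) (l 16159616)) (b (l 16238280) (l 16220952))) (b (l 16177304) (l 16167912))) (b (l 16158680) (l 16154112))))) (a (b (a (l 16292728) (l 16157168)) (b (l 16141744) (l 16159408))) (b (a (l 16151280) (l 16152496)) (a (l 16116336) (l 16122928))))) (b (a (b (b (l 16209944) (l 16125592)) (c (l 45129563799) (l 16180992))) (a (b (l 16115696) (l 15916432)) (b (l 16040080) (l 15902464)))) (b (a (a (l 119754812583) (l 16078880)) (b (l 15915264) (l 15955000))) (a (a (l 1) (l 264709880823)) (l 71973147559)))))), by decide +kernel⟩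

theorem s2_pm_022 : ∃ t, chk3 f_pm_022 t 1 1 1 = true := ex3_a k0_pm_022 k1_pm_022

theorem c_pm_022 : CertB 0 536870912 1073741824 536870912 536870912 50465866 3 eng mog cd0q0 cd6q2 pd2 true true false .pp 0 2 2
    ndB0q0 ndB6q2 pcB2 cut_pm_022 Ext.none :=
  certB2 (fam := true) (s1 := true) (s2 := false) (a := 0) (b := 2) (c := 2) (cn := .pp) (n1 := ndB0q0) (n2 := ndB6q2) (pc := pcB2) (cut := cut_pm_022) (xt := Ext.none) (P1 := 0) (W1 := 536870912) (P2 := 1073741824) (W2 := 536870912) (P3 := 536870912) (W3 := 50465866) (N0 := 3) (En := eng) (mo := mog) (C1 := cd0q0) (C2 := cd6q2) (C3 := pd2)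
    rfl (fun _ => rfl) s2_pm_022

noncomputable def cut_pm_023 : Cut := Cut.of [[⟨3, 0, 0, 1449551462⟩]]

noncomputable def f_pm_023 : ℕ → ℕ → ℕ → ℕ → Bool := onCell 0 536870912 1610612736 536870912 536870912 50465866
    (rowB 3 eng mog cd0q0 cd6q2 pd3 1 true true false .up 0 2 3 (qsf 0 536870912 1073741824 536870912 3) ndB0q0 ndB6q2 pcB3 cut_pm_023 Ext.none)

def k0_pm_023 : ∃ t, chk3 f_pm_023 t 1 1 1 = true :=
  ⟨(a (b (b (a (b (a (b (l 15973896) (l 16086392)) (b (l 15881552) (l 15984944))) (a (b (l 16232792) (l 2)) (b (l 16139160) (l 16270832)))) (b (a (b (l 15890800) (l 15918000)) (b (l 16053024) (l 16011528))) (a (l 16255888) (b (l 16066456) (l 16198272))))) (a (a (l 2) (b (l 16426952) (l 2))) (a (b (l 16374288) (l 16527400)) (b (l 16354352) (l 16504800))))) (a (l 2) (b (a (l 2) (b (l 16607272) (l 2))) (l 2)))) (b (b (a (b (a (b (l 16136408) (l 16131032)) (b (l 16157312) (l 16177968))) (a (l 16264792) (l 16317472))) (b (a (b (l 16165320) (l 16212232))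 (a (b (l 16190200) (l 16260768)) (b (b (l 16192856) (l 16241216)) (l 16308704)))) (a (b (l 16248384) (l 16326440)) (b (l 16373632) (l 16428112))))) (a (a (b (l 16362792) (l 16504984)) (b (l 16386208) (l 16515960))) (a (b (l 16428288) (l 16537776)) (b (l 16625384) (l 16580016))))) (b (a (a (b (l 16601576) (l 16665792)) (b (l 16606232) (l 16665784))) (a (b (l 16619272) (l 16673824)) (b (l 16645488) (l 16691880)))) (b (a (a (l 2) (l 16703344)) (a (l 16707232) (l 16719088))) (a (l 2) (b (a (l 16722552) (l 16732760)) (b (l 16961200) (b (l 16731376) (l 456038317351))))))))), by decide +kernel⟩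

theorem c_pm_023 : CertB 0 536870912 1073741824 536870912 536870912 50465866 3 eng mog cd0q0 cd6q2 pd3 true true false .up 0 2 3
    ndB0q0 ndB6q2 pcB3 cut_pm_023 Ext.none :=
  certB1 (fam := true) (s1 := true) (s2 := false) (a := 0) (b := 2) (c := 3) (cn := .up) (n1 := ndB0q0) (n2 := ndB6q2) (pc := pcB3) (cut := cut_pm_023) (xt := Ext.none) (P1 := 0) (W1 := 536870912) (P2 := 1073741824) (W2 := 536870912) (P3 := 536870912) (W3 := 50465866) (N0 := 3) (En := eng) (mo := mog) (C1 := cd0q0) (C2 := cd6q2) (C3 := pd3)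
    rfl (fun _ => rfl) k0_pm_023

noncomputable def cut_pm_033 : Cut := Cut.of [[⟨3, 0, 0, 1449551462⟩]]

noncomputable def f_pm_033 : ℕ → ℕ → ℕ → ℕ → Bool := onCell 1610612736 536870912 0 1230186008 536870912 50465866
    (rowB 3 eng mog cd0q0 cd6q3 pd3 2 true true false .pnn 0 3 3 (qsf 0 536870912 0 1230186008 3) ndB0q0 ndB6q3 pcB3 cut_pm_033 Ext.none)

def k0_pm_033 : ∃ t, chk3 f_pm_033 t 1 1 1 = true :=
  ⟨(b (b (a (l 1) (a (l 1) (l 4))) (a (l 1) (a (l 1) (a (b (l 423088286471) (a (l 16763912) (l 16749736))) (a (b (l 4) (l 16730952)) (l 4)))))) (b (a (a (l 1) (b (l 1) (a (l 1) (l 417182676471)))) (a (b (a (l 1) (l 16870936)) (b (l 383896696935) (l 16844384))) (a (b (a (l 16753184) (l 16744632)) (l 16874848)) (a (b (l 16733928) (l 16730064)) (a (b (l 16727056) (l 16729472)) (b (l 4) (a (l 16729456) (b (l 4) (l 16728520))))))))) (a (b (a (l 1) (b (l 408592578951) (l 16715416))) (a (b (l 382822111223) (a (l 16073912) (l 16253824))) (b (a (l 16475664) (l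 16555400)) (a (l 16397984) (l 16513048))))) (a (b (b (l 16713864) (l 16710664)) (b (a (l 16619904) (l 16669480)) (a (l 16600664) (l 16664168)))) (a (b (b (l 16715400) (l 16708712)) (b (l 16704280) (l 16705368))) (b (a (l 16723848) (a (l 16728528) (a (l 16730512) (b (l 16794048) (l 16773208))))) (a (b (l 16721352) (l 16724360)) (a (b (l 16727200) (l 16732176)) (a (b (l 16730192) (l 16733080)) (b (l 16730864) (l 16731424))))))))))), by decide +kernel⟩

theorem c_pm_033 : CertB 0 536870912 0 1230186008 536870912 50465866 3 eng mog cd0q0 cd6q3 pd3 true true false .pnn 0 3 3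
    ndB0q0 ndB6q3 pcB3 cut_pm_033 Ext.none :=
  certB2 (fam := true) (s1 := true) (s2 := false) (a := 0) (b := 3) (c := 3) (cn := .pnn) (n1 := ndB0q0) (n2 := ndB6q3) (pc := pcB3) (cut := cut_pm_033) (xt := Ext.none) (P1 := 0) (W1 := 536870912) (P2 := 0) (W2 := 1230186008) (P3 := 536870912) (W3 := 50465866) (N0 := 3) (En := eng) (mo := mog) (C1 := cd0q0) (C2 := cd6q3) (C3 := pd3)
    rfl (fun _ => rfl) k0_pm_033

noncomputable def cut_pm_101 : Cut := Cut.of [[⟨3, 0, 0, 1449551462⟩]]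

noncomputable def f_pm_101 : ℕ → ℕ → ℕ → ℕ → Bool := onCell 536870912 536870912 536870912 536870912 536870912 50465866
    (rowB 3 eng mog cd0q1 cd6q0 pd1 1 true true false .npn 1 0 1 (qsf 536870912 536870912 0 536870912 1) ndB0q1 ndB6q0 pcB1 cut_pm_101 Ext.none)

def k0_pm_101 : ∃ t, chk3 f_pm_101 t 1 1 1 = true :=
  ⟨(b (a (b (l 6) (a (l 6) (b (l 6) (a (l 6) (a (l 6) (b (l 6) (l 16721352))))))) (a (b (l 1) (a (b (l 1) (a (b (l 1) (l 16728952)) (l 1))) (l 1))) (l 1))) (a (b (a (l 6) (a (b (a (l 6) (l 16702640)) (a (l 16639440) (l 16649664))) (b (a (l 16704080) (l 16746440)) (a (l 16658752) (l 16667424))))) (a (a (b (l 6) (a (b (l 6) (l 16090560)) (b (l 16261808) (l 16090800)))) (b (a (b (l 6) (l 16426792)) (l 16502288)) (a (b (l 16309432) (l 16156968)) (l 16414448)))) (a (b (a (l 16528424) (l 16551448)) (a (l 16335480) (l 16376224))) (b (a (l 16571872) (l 16592024)) (a (l 16412800) (l 16449576)))))) (a (b (a (b (a (l 16706136) (l 16712496)) (a (l 16675072)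 (b (l 16686912) (l 16671336)))) (b (a (b (l 1) (l 16711464)) (l 1)) (a (b (l 16690168) (l 16674496)) (b (l 16701728) (l 16678512))))) (a (b (a (l 16611592) (l 16628640)) (a (l 16485120) (l 16517944))) (b (a (l 16641832) (l 16797208)) (a (l 16545280) (l 16567840))))) (a (b (b (l 1) (a (b (l 1) (l 16691864)) (l 1))) (b (a (b (l 16666360) (l 16644864)) (b (a (l 16674880) (l 1)) (a (l 16648712) (l 16654792)))) (a (b (l 16613736) (l 16556224)) (b (l 16627712) (l 16580576))))) (b (l 1) (b (a (b (l 1) (a (l 74658541399) (l 1))) (l 1)) (a (b (a (l 16635968) (l 16668072)) (a (l 16599536) (l 16608584))) (b (a (l 16681816) (l 1)) (l 13454995847))))))))), by decide +kernel⟩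

theorem c_pm_101 : CertB 536870912 536870912 0 536870912 536870912 50465866 3 eng mog cd0q1 cd6q0 pd1 true true false .npn 1 0 1
    ndB0q1 ndB6q0 pcB1 cut_pm_101 Ext.none :=
  certB1 (fam := true) (s1 := true) (s2 := false) (a := 1) (b := 0) (c := 1) (cn := .npn) (n1 := ndB0q1) (n2 := ndB6q0) (pc := pcB1) (cut := cut_pm_101) (xt := Ext.none) (P1 := 536870912) (W1 := 536870912) (P2 := 0) (W2 := 536870912) (P3 := 536870912) (W3 := 50465866) (N0 := 3) (En := eng) (mo := mog) (C1 := cd0q1) (C2 := cd6q0) (C3 := pd1)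
    rfl (fun _ => rfl) k0_pm_101

noncomputable def cut_pm_102 : Cut := Cut.of [[⟨3, 0, 0, 1449551462⟩]]

noncomputable def f_pm_102 : ℕ → ℕ → ℕ → ℕ → Bool := onCell 536870912 536870912 1073741824 536870912 536870912 50465866
    (rowB 3 eng mog cd0q1 cd6q0 pd2 1 true true false .npp 1 0 2 (qsf 536870912 536870912 0 536870912 2) ndB0q1 ndB6q0 pcB2 cut_pm_102 Ext.none)

def k0_pm_102 : ∃ t, chk3 f_pm_102 t 1 1 1 = true :=
  ⟨(a (b (b (a (a (b (a (b (l 16126896) (a (l 2) (l 16047360))) (b (b (l 16032488) (l 16027952)) (l 16022632))) (b (a (l 2) (l 16014088)) (l 2))) (b (b (a (l 16054048) (l 16126960)) (a (l 16035992) (l 16116664))) (b (a (l 16018288) (l 16108832)) (a (l 16001720) (l 16101368))))) (a (b (a (b (l 16191096) (l 16186384)) (l 16243512)) (a (l 16330744) (l 16248736))) (b (b (l 16315384) (l 16320760)) (b (l 16329112) (l 16338976))))) (a (b (a (l 2) (b (l 207331577975) (l 2))) (l 2)) (b (a (b (l 16221728) (l 185857413431)) (b (l 16350464) (l 16368472)))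 (a (a (l 2) (l 16315440)) (l 16414288))))) (a (l 2) (b (a (l 2) (b (l 16487144) (l 2))) (l 2)))) (b (a (b (a (b (a (l 16390880) (l 16435640)) (l 16582168)) (b (a (l 16472424) (l 16502496)) (a (l 16498560) (l 16533232)))) (b (a (b (l 16456120) (l 16473776)) (b (l 16538752) (l 16556632))) (a (l 16517048) (l 16596552)))) (b (a (b (a (l 16571744) (b (l 16549040) (l 16568424))) (a (l 16565096) (l 16596712))) (b (a (b (l 16578496) (l 16598552)) (b (a (b (l 16596016) (l 16606176)) (l 16615216)) (l 16628616))) (a (b (l 16618112) (l 16637176)) (l 16656624)))) (a (b (b (l 16607688) (l 16626528)) (l 16686808)) (b (b (l 16669936) (l 16688320)) (l 16722960))))) (b (a (a (b (l 16580728) (l 16642888)) (b (l 16653392) (l 16706128))) (b (a (l 16719280) (l 16766624)) (a (l 16768304) (l 16805016)))) (a (b (a (l 2) (l 16750808)) (l 2)) (b (a (l 16806112) (l 16834440)) (a (l 16829944) (l 16850144))))))), by decide +kernel⟩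

theorem c_pm_102 : CertB 536870912 536870912 0 536870912 536870912 50465866 3 eng mog cd0q1 cd6q0 pd2 true true false .npp 1 0 2
    ndB0q1 ndB6q0 pcB2 cut_pm_102 Ext.none :=
  certB1 (fam := true) (s1 := true) (s2 := false) (a := 1) (b := 0) (c := 2) (cn := .npp) (n1 := ndB0q1) (n2 := ndB6q0) (pc := pcB2) (cut := cut_pm_102) (xt := Ext.none) (P1 := 536870912) (W1 := 536870912) (P2 := 0) (W2 := 536870912) (P3 := 536870912) (W3 := 50465866) (N0 := 3) (En := eng) (mo := mog) (C1 := cd0q1) (C2 := cd6q0) (C3 := pd2)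
    rfl (fun _ => rfl) k0_pm_102

noncomputable def cut_pm_112 : Cut := Cut.of [[⟨3, 0, 0, 1449551462⟩]]

noncomputable def f_pm_112 : ℕ → ℕ → ℕ → ℕ → Bool := onCell 536870912 536870912 1073741824 536870912 536870912 50465866
    (rowB 3 eng mog cd0q1 cd6q1 pd2 1 true true false .dn 1 1 2 (qsf 536870912 536870912 536870912 536870912 2) ndB0q1 ndB6q1 pcB2 cut_pm_112 Ext.none)

def k0_pm_112 : ∃ t, chk3 f_pm_112 t 1 1 1 = true :=
  ⟨(a (b (a (b (a (b (a (b (l 16061856) (l 16055160)) (b (l 16028376) (l 16020720))) (a (l 16149256) (b (l 16012352) (l 16002664)))) (b (a (l 157335336167) (l 1)) (b (l 16066584) (l 16055016)))) (b (a (b (b (l 16076488) (b (l 16009496) (a (l 16027176) (l 15989832)))) (a (l 16053688) (l 16020840))) (b (l 16043600) (a (l 16001072) (l 16099720)))) (a (a (l 16143336) (l 16129560)) (l 16331088)))) (b (a (b (l 1) (l 151967515655)) (l 1)) (b (a (b (l 16223648) (l 16234608)) (l 212097235415)) (a (l 16277456) (l 16415808))))) (b (a (a (b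 (l 16429152) (l 16262728)) (b (l 16239816) (l 16312920))) (a (b (l 16355840) (l 16440520)) (b (l 16488376) (l 16563200)))) (a (b (a (a (l 16258984) (l 16299240)) (l 16366208)) (a (b (a (l 16260680) (l 16314848)) (a (b (l 16263864) (a (l 16289312) (l 16328640))) (a (l 16336096) (l 16374120)))) (b (l 16427672) (a (l 16419944) (l 16515232))))) (b (a (l 16516872) (l 16628208)) (a (b (l 16567744) (l 16606928)) (l 16769224)))))) (b (a (b (l 1) (b (l 1) (a (l 16517944) (l 1)))) (l 1)) (b (a (a (l 16738872) (l 16848056)) (b (l 1) (l 349537152983))) (a (b (a (l 16697512) (l 16751688)) (a (l 16740808) (l 16786120))) (b (l 16822640) (a (l 16831296) (l 16851360))))))), by decide +kernel⟩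

theorem c_pm_112 : CertB 536870912 536870912 536870912 536870912 536870912 50465866 3 eng mog cd0q1 cd6q1 pd2 true true false .dn 1 1 2
    ndB0q1 ndB6q1 pcB2 cut_pm_112 Ext.none :=
  certB1 (fam := true) (s1 := true) (s2 := false) (a := 1) (b := 1) (c := 2) (cn := .dn) (n1 := ndB0q1) (n2 := ndB6q1) (pc := pcB2) (cut := cut_pm_112) (xt := Ext.none) (P1 := 536870912) (W1 := 536870912) (P2 := 536870912) (W2 := 536870912) (P3 := 536870912) (W3 := 50465866) (N0 := 3) (En := eng) (mo := mog) (C1 := cd0q1) (C2 := cd6q1) (C3 := pd2)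
    rfl (fun _ => rfl) k0_pm_112

noncomputable def cut_pm_113 : Cut := Cut.of [[⟨3, 0, 0, 1449551462⟩]]

noncomputable def f_pm_113 : ℕ → ℕ → ℕ → ℕ → Bool := onCell 536870912 536870912 1610612736 536870912 536870912 50465866
    (rowB 3 eng mog cd0q1 cd6q1 pd3 1 true true false .nn 1 1 3 (qsf 536870912 536870912 536870912 536870912 3) ndB0q1 ndB6q1 pcB3 cut_pm_113 Ext.none)

def k0_pm_113 : ∃ t, chk3 f_pm_113 t 1 1 1 = true :=
  ⟨(a (b (b (a (b (a (b (a (b (l 176729919399) (l 189077990023)) (a (l 16320472) (l 16378048))) (a (b (l 264240197399) (l 2)) (b (l 16417488) (l 284641252935)))) (b (a (l 16453184) (l 16535816)) (a (a (l 16504128) (l 16542144)) (l 16591736)))) (a (a (l 2) (b (a (l 2) (l 323296216695)) (l 2))) (b (a (a (l 285715336039) (l 16581440)) (l 16624864)) (l 379131014903)))) (b (a (b (l 16635568) (l 16673832)) (l 16743368)) (a (a (l 16677184) (l 16719432)) (l 16768160)))) (a (a (l 2) (b (a (l 2) (l 385573665207)) (l 2))) (a (b (l 369468008263)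 (l 396311781735)) (b (l 16787976) (l 16863136))))) (b (b (a (l 2) (a (l 2) (l 494559430215))) (l 2)) (l 2))) (a (b (b (b (a (l 16785512) (l 16816288)) (a (l 16796760) (l 16818960))) (b (a (l 16814568) (l 16829992)) (a (l 16836296) (l 16841488)))) (b (b (a (l 16857048) (l 16848264)) (b (l 417786909703) (l 4))) (l 4))) (b (a (b (b (l 16847296) (l 16847896)) (b (l 16851536) (l 16851984))) (b (b (l 16858400) (l 16859032)) (l 4))) (l 4)))), by decide +kernel⟩

theorem c_pm_113 : CertB 536870912 536870912 536870912 536870912 536870912 50465866 3 eng mog cd0q1 cd6q1 pd3 true true false .nn 1 1 3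
    ndB0q1 ndB6q1 pcB3 cut_pm_113 Ext.none :=
  certB1 (fam := true) (s1 := true) (s2 := false) (a := 1) (b := 1) (c := 3) (cn := .nn) (n1 := ndB0q1) (n2 := ndB6q1) (pc := pcB3) (cut := cut_pm_113) (xt := Ext.none) (P1 := 536870912) (W1 := 536870912) (P2 := 536870912) (W2 := 536870912) (P3 := 536870912) (W3 := 50465866) (N0 := 3) (En := eng) (mo := mog) (C1 := cd0q1) (C2 := cd6q1) (C3 := pd3)
    rfl (fun _ => rfl) k0_pm_113

noncomputable def cut_pm_123 : Cut := Cut.of [[⟨3, 0, 0, 1449551462⟩]]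

noncomputable def f_pm_123 : ℕ → ℕ → ℕ → ℕ → Bool := onCell 536870912 536870912 1610612736 536870912 536870912 50465866
    (rowB 3 eng mog cd0q1 cd6q2 pd3 1 true true false .npn 1 2 3 (qsf 536870912 536870912 1073741824 536870912 3) ndB0q1 ndB6q2 pcB3 cut_pm_123 Ext.none)

def k0_pm_123 : ∃ t, chk3 f_pm_123 t 1 1 1 = true :=
  ⟨(a (b (b (a (b (a (b (a (b (l 260951694967) (l 198137747319)) (b (l 1) (l 358662372215))) (a (b (l 16345264) (l 16412992)) (b (l 133176472887) (l 16468152)))) (b (l 1) (b (l 1) (a (l 338261503815) (l 1))))) (a (b (a (b (l 16462936) (l 16483664)) (b (l 16512784) (l 16529296))) (a (l 16510752) (l 16551336))) (b (a (b (l 16557800) (l 16571720)) (l 408591932455)) (l 25266317223)))) (b (l 1) (a (b (l 1) (l 436509786791)) (l 1)))) (a (a (b (a (l 16560248) (l 16593160)) (l 16631600)) (b (b (l 16632848) (l 16654688)) (l 16683536))) (b (a (b (l 16714600) (l 16729192)) (l 466038083671)) (a (l 16745224) (b (l 16823904) (l 16817904)))))) (a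 (b (a (b (l 16678656) (l 16714288)) (b (l 16713304) (b (l 16732312) (l 16741688)))) (b (a (b (l 16734128) (l 16739472)) (b (l 16746696) (l 16749328))) (b (a (l 16740784) (l 16744752)) (b (l 16823776) (l 4))))) (b (b (a (l 16755912) (l 16808752)) (a (b (l 16762728) (l 16765640)) (b (l 16801160) (l 16787264)))) (b (a (l 16986208) (l 16783472)) (l 4))))) (a (b (b (l 1) (b (l 1) (a (l 465501359143) (l 1)))) (b (b (a (l 16856912) (l 17071968)) (a (b (l 16832880) (l 4)) (l 4))) (l 4))) (b (l 1) (l 4)))), by decide +kernel⟩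

theorem c_pm_123 : CertB 536870912 536870912 1073741824 536870912 536870912 50465866 3 eng mog cd0q1 cd6q2 pd3 true true false .npn 1 2 3
    ndB0q1 ndB6q2 pcB3 cut_pm_123 Ext.none :=
  certB1 (fam := true) (s1 := true) (s2 := false) (a := 1) (b := 2) (c := 3) (cn := .npn) (n1 := ndB0q1) (n2 := ndB6q2) (pc := pcB3) (cut := cut_pm_123) (xt := Ext.none) (P1 := 536870912) (W1 := 536870912) (P2 := 1073741824) (W2 := 536870912) (P3 := 536870912) (W3 := 50465866) (N0 := 3) (En := eng) (mo := mog) (C1 := cd0q1) (C2 := cd6q2) (C3 := pd3)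
    rfl (fun _ => rfl) k0_pm_123

noncomputable def cut_pm_133 : Cut := Cut.of [[⟨3, 0, 0, 1449551462⟩]]

noncomputable def f_pm_133 : ℕ → ℕ → ℕ → ℕ → Bool := onCell 536870912 536870912 0 1230186008 536870912 50465866
    (rowB 3 eng mog cd0q1 cd6q3 pd3 0 true true false .dn 1 3 3 (qsf 536870912 536870912 0 1230186008 3) ndB0q1 ndB6q3 pcB3 cut_pm_133 Ext.none)

def k0_pm_133 : ∃ t, chk3 f_pm_133 t 1 1 1 = true :=
  ⟨(b (l 2) (b (l 2) (a (b (l 2) (l 4)) (l 2)))), by decide +kernel⟩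

theorem c_pm_133 : CertB 536870912 536870912 0 1230186008 536870912 50465866 3 eng mog cd0q1 cd6q3 pd3 true true false .dn 1 3 3
    ndB0q1 ndB6q3 pcB3 cut_pm_133 Ext.none :=
  certB0 (fam := true) (s1 := true) (s2 := false) (a := 1) (b := 3) (c := 3) (cn := .dn) (n1 := ndB0q1) (n2 := ndB6q3) (pc := pcB3) (cut := cut_pm_133) (xt := Ext.none) (P1 := 536870912) (W1 := 536870912) (P2 := 0) (W2 := 1230186008) (P3 := 536870912) (W3 := 50465866) (N0 := 3) (En := eng) (mo := mog) (C1 := cd0q1) (C2 := cd6q3) (C3 := pd3)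
    rfl k0_pm_133

noncomputable def cut_pm_202 : Cut := Cut.of [[⟨3, 0, 0, 1449551462⟩]]

noncomputable def f_pm_202 : ℕ → ℕ → ℕ → ℕ → Bool := onCell 0 536870912 0 536870912 536870912 50465866
    (rowB 3 eng mog cd0q2 cd6q0 pd2 0 true true false .pp 2 0 2 (qsf 0 536870912 0 536870912 2) ndB0q2 ndB6q0 pcB2 cut_pm_202 Ext.none)

def k0_pm_202 : ∃ t, chk3 f_pm_202 t 1 1 1 = true :=
  ⟨(a (l 4) (b (b (a (b (a (b (l 16635328) (l 16649496)) (b (l 16626904) (l 16643992))) (a (l 4) (b (l 16668528) (l 16700000)))) (b (a (b (a (l 16623424) (b (l 16618248) (l 16626696))) (l 16644768)) (b (a (b (a (l 16617192) (l 16616072)) (l 16627784)) (a (b (b (a (l 16614544) (l 16614024)) (l 16619760)) (l 16633040)) (b (a (b (b (l 16612688) (l 16615888)) (l 16622456)) (b (a (l 16614968) (l 16619392)) (l 16625928))) (a (l 16638976) (l 16633088))))) (a (l 16654800) (a (l 16663184) (l 16653016))))) (a (b (l 16679072) (l 16722688)) (a (l 16703784) (b (l 16676680) (l 16692768))))))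 (a (a (l 4) (b (l 16750240) (l 4))) (b (a (l 16749224) (a (l 16735040) (b (l 16708952) (l 16726616)))) (a (l 16772560) (l 16762384))))) (a (l 4) (a (b (b (l 16792208) (l 16805600)) (l 4)) (b (b (l 16791624) (l 16816352)) (b (l 16833856) (l 16842448))))))), by decide +kernel⟩

theorem c_pm_202 : CertB 0 536870912 0 536870912 536870912 50465866 3 eng mog cd0q2 cd6q0 pd2 true true false .pp 2 0 2
    ndB0q2 ndB6q0 pcB2 cut_pm_202 Ext.none :=
  certB0 (fam := true) (s1 := true) (s2 := false) (a := 2) (b := 0) (c := 2) (cn := .pp) (n1 := ndB0q2) (n2 := ndB6q0) (pc := pcB2) (cut := cut_pm_202) (xt := Ext.none) (P1 := 0) (W1 := 536870912) (P2 := 0) (W2 := 536870912) (P3 := 536870912) (W3 := 50465866) (N0 := 3) (En := eng) (mo := mog) (C1 := cd0q2) (C2 := cd6q0) (C3 := pd2)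
    rfl k0_pm_202

noncomputable def cut_pm_203 : Cut := Cut.of [[⟨3, 0, 0, 1449551462⟩]]

noncomputable def f_pm_203 : ℕ → ℕ → ℕ → ℕ → Bool := onCell 0 536870912 1610612736 536870912 536870912 50465866
    (rowB 3 eng mog cd0q2 cd6q0 pd3 1 true true false .up 2 0 3 (qsf 0 536870912 0 536870912 3) ndB0q2 ndB6q0 pcB3 cut_pm_203 Ext.none)

def k0_pm_203 : ∃ t, chk3 f_pm_203 t 1 1 1 = true :=
  ⟨(a (l 4) (b (l 4) (l 2))), by decide +kernel⟩

theorem c_pm_203 : CertB 0 536870912 0 536870912 536870912 50465866 3 eng mog cd0q2 cd6q0 pd3 true true false .up 2 0 3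
    ndB0q2 ndB6q0 pcB3 cut_pm_203 Ext.none :=
  certB1 (fam := true) (s1 := true) (s2 := false) (a := 2) (b := 0) (c := 3) (cn := .up) (n1 := ndB0q2) (n2 := ndB6q0) (pc := pcB3) (cut := cut_pm_203) (xt := Ext.none) (P1 := 0) (W1 := 536870912) (P2 := 0) (W2 := 536870912) (P3 := 536870912) (W3 := 50465866) (N0 := 3) (En := eng) (mo := mog) (C1 := cd0q2) (C2 := cd6q0) (C3 := pd3)
    rfl (fun _ => rfl) k0_pm_203

noncomputable def cut_pm_213 : Cut := Cut.of [[⟨3, 0, 0, 1449551462⟩]]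

noncomputable def f_pm_213 : ℕ → ℕ → ℕ → ℕ → Bool := onCell 0 536870912 536870912 536870912 536870912 50465866
    (rowB 3 eng mog cd0q2 cd6q1 pd3 0 true true false .pnn 2 1 3 (qsf 0 536870912 536870912 536870912 3) ndB0q2 ndB6q1 pcB3 cut_pm_213 Ext.none)

def k0_pm_213 : ∃ t, chk3 f_pm_213 t 1 1 1 = true :=
  ⟨(a (l 4) (b (l 4) (l 4))), by decide +kernel⟩

theorem c_pm_213 : CertB 0 536870912 536870912 536870912 536870912 50465866 3 eng mog cd0q2 cd6q1 pd3 true true false .pnn 2 1 3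
    ndB0q2 ndB6q1 pcB3 cut_pm_213 Ext.none :=
  certB0 (fam := true) (s1 := true) (s2 := false) (a := 2) (b := 1) (c := 3) (cn := .pnn) (n1 := ndB0q2) (n2 := ndB6q1) (pc := pcB3) (cut := cut_pm_213) (xt := Ext.none) (P1 := 0) (W1 := 536870912) (P2 := 536870912) (W2 := 536870912) (P3 := 536870912) (W3 := 50465866) (N0 := 3) (En := eng) (mo := mog) (C1 := cd0q2) (C2 := cd6q1) (C3 := pd3)
    rfl k0_pm_213

noncomputable def cut_mm_001 : Cut := Cut.of [[⟨3, 0, 0, 1449551462⟩]]

noncomputable def f_mm_001 : ℕ → ℕ → ℕ → ℕ → Bool := onCell 0 536870912 0 536870912 536870912 50465866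
    (rowB 3 eng mog cd0q0 cd6q0 pd1 0 true false false .up 0 0 1 (qsf 0 536870912 0 536870912 1) ndB0q0 ndB6q0 pcB1 cut_mm_001 Ext.none)

def k0_mm_001 : ∃ t, chk3 f_mm_001 t 1 1 1 = true :=
  ⟨(l 4), by decide +kernel⟩

theorem c_mm_001 : CertB 0 536870912 0 536870912 536870912 50465866 3 eng mog cd0q0 cd6q0 pd1 true false false .up 0 0 1
    ndB0q0 ndB6q0 pcB1 cut_mm_001 Ext.none :=
  certB0 (fam := true) (s1 := false) (s2 := false) (a := 0) (b := 0) (c := 1) (cn := .up) (n1 := ndB0q0) (n2 := ndB6q0) (pc := pcB1) (cut := cut_mm_001) (xt := Ext.none) (P1 := 0) (W1 := 536870912) (P2 := 0) (W2 := 536870912) (P3 := 536870912) (W3 := 50465866) (N0 := 3) (En := eng) (mo := mog) (C1 := cd0q0) (C2 := cd6q0) (C3 := pd1)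
    rfl k0_mm_001

noncomputable def cut_mm_011 : Cut := Cut.of [[⟨3, 0, 0, 1449551462⟩]]

noncomputable def f_mm_011 : ℕ → ℕ → ℕ → ℕ → Bool := onCell 0 536870912 536870912 536870912 536870912 50465866
    (rowB 3 eng mog cd0q0 cd6q1 pd1 0 true false false .pnn 0 1 1 (qsf 0 536870912 536870912 536870912 1) ndB0q0 ndB6q1 pcB1 cut_mm_011 Ext.none)

def k0_mm_011 : ∃ t, chk3 f_mm_011 t 1 1 1 = true :=
  ⟨(l 4), by decide +kernel⟩

theorem c_mm_011 : CertB 0 536870912 536870912 536870912 536870912 50465866 3 eng mog cd0q0 cd6q1 pd1 true false false .pnn 0 1 1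
    ndB0q0 ndB6q1 pcB1 cut_mm_011 Ext.none :=
  certB0 (fam := true) (s1 := false) (s2 := false) (a := 0) (b := 1) (c := 1) (cn := .pnn) (n1 := ndB0q0) (n2 := ndB6q1) (pc := pcB1) (cut := cut_mm_011) (xt := Ext.none) (P1 := 0) (W1 := 536870912) (P2 := 536870912) (W2 := 536870912) (P3 := 536870912) (W3 := 50465866) (N0 := 3) (En := eng) (mo := mog) (C1 := cd0q0) (C2 := cd6q1) (C3 := pd1)
    rfl k0_mm_011

noncomputable def cut_mm_012 : Cut := Cut.of [[⟨3, 0, 0, 1449551462⟩]]

noncomputable def f_mm_012 : ℕ → ℕ → ℕ → ℕ → Bool := onCell 0 536870912 536870912 536870912 536870912 50465866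
    (rowB 3 eng mog cd0q0 cd6q1 pd2 0 true false false .pnp 0 1 2 (qsf 0 536870912 536870912 536870912 2) ndB0q0 ndB6q1 pcB2 cut_mm_012 Ext.none)

def k0_mm_012 : ∃ t, chk3 f_mm_012 t 1 1 1 = true :=
  ⟨(l 4), by decide +kernel⟩

theorem c_mm_012 : CertB 0 536870912 536870912 536870912 536870912 50465866 3 eng mog cd0q0 cd6q1 pd2 true false false .pnp 0 1 2
    ndB0q0 ndB6q1 pcB2 cut_mm_012 Ext.none :=
  certB0 (fam := true) (s1 := false) (s2 := false) (a := 0) (b := 1) (c := 2) (cn := .pnp) (n1 := ndB0q0) (n2 := ndB6q1) (pc := pcB2) (cut := cut_mm_012) (xt := Ext.none) (P1 := 0) (W1 := 536870912) (P2 := 536870912) (W2 := 536870912) (P3 := 536870912) (W3 := 50465866) (N0 := 3) (En := eng) (mo := mog) (C1 := cd0q0) (C2 := cd6q1) (C3 := pd2)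
    rfl k0_mm_012

noncomputable def cut_mm_022 : Cut := Cut.of [[⟨3, 0, 0, 1449551462⟩]]

noncomputable def f_mm_022 : ℕ → ℕ → ℕ → ℕ → Bool := onCell 0 536870912 1073741824 536870912 536870912 50465866
    (rowB 3 eng mog cd0q0 cd6q2 pd2 0 true false false .pp 0 2 2 (qsf 0 536870912 1073741824 536870912 2) ndB0q0 ndB6q2 pcB2 cut_mm_022 Ext.none)

def k0_mm_022 : ∃ t, chk3 f_mm_022 t 1 1 1 = true :=
  ⟨(l 4), by decide +kernel⟩

theorem c_mm_022 : CertB 0 536870912 1073741824 536870912 536870912 50465866 3 eng mog cd0q0 cd6q2 pd2 true false false .pp 0 2 2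
    ndB0q0 ndB6q2 pcB2 cut_mm_022 Ext.none :=
  certB0 (fam := true) (s1 := false) (s2 := false) (a := 0) (b := 2) (c := 2) (cn := .pp) (n1 := ndB0q0) (n2 := ndB6q2) (pc := pcB2) (cut := cut_mm_022) (xt := Ext.none) (P1 := 0) (W1 := 536870912) (P2 := 1073741824) (W2 := 536870912) (P3 := 536870912) (W3 := 50465866) (N0 := 3) (En := eng) (mo := mog) (C1 := cd0q0) (C2 := cd6q2) (C3 := pd2)
    rfl k0_mm_022

noncomputable def cut_mm_023 : Cut := Cut.of [[⟨3, 0, 0, 1449551462⟩]]

noncomputable def f_mm_023 : ℕ → ℕ → ℕ → ℕ → Bool := onCell 0 536870912 1073741824 536870912 536870912 50465866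
    (rowB 3 eng mog cd0q0 cd6q2 pd3 0 true false false .up 0 2 3 (qsf 0 536870912 1073741824 536870912 3) ndB0q0 ndB6q2 pcB3 cut_mm_023 Ext.none)

def k0_mm_023 : ∃ t, chk3 f_mm_023 t 1 1 1 = true :=
  ⟨(l 4), by decide +kernel⟩

theorem c_mm_023 : CertB 0 536870912 1073741824 536870912 536870912 50465866 3 eng mog cd0q0 cd6q2 pd3 true false false .up 0 2 3
    ndB0q0 ndB6q2 pcB3 cut_mm_023 Ext.none :=
  certB0 (fam := true) (s1 := false) (s2 := false) (a := 0) (b := 2) (c := 3) (cn := .up) (n1 := ndB0q0) (n2 := ndB6q2) (pc := pcB3) (cut := cut_mm_023) (xt := Ext.none) (P1 := 0) (W1 := 536870912) (P2 := 1073741824) (W2 := 536870912) (P3 := 536870912) (W3 := 50465866) (N0 := 3) (En := eng) (mo := mog) (C1 := cd0q0) (C2 := cd6q2) (C3 := pd3)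
    rfl k0_mm_023

noncomputable def cut_mm_033 : Cut := Cut.of [[⟨3, 0, 0, 1449551462⟩]]

noncomputable def f_mm_033 : ℕ → ℕ → ℕ → ℕ → Bool := onCell 0 536870912 0 1230186008 536870912 50465866
    (rowB 3 eng mog cd0q0 cd6q3 pd3 0 true false false .pnn 0 3 3 (qsf 0 536870912 0 1230186008 3) ndB0q0 ndB6q3 pcB3 cut_mm_033 Ext.none)

def k0_mm_033 : ∃ t, chk3 f_mm_033 t 1 1 1 = true :=
  ⟨(l 4), by decide +kernel⟩

theorem c_mm_033 : CertB 0 536870912 0 1230186008 536870912 50465866 3 eng mog cd0q0 cd6q3 pd3 true false false .pnn 0 3 3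
    ndB0q0 ndB6q3 pcB3 cut_mm_033 Ext.none :=
  certB0 (fam := true) (s1 := false) (s2 := false) (a := 0) (b := 3) (c := 3) (cn := .pnn) (n1 := ndB0q0) (n2 := ndB6q3) (pc := pcB3) (cut := cut_mm_033) (xt := Ext.none) (P1 := 0) (W1 := 536870912) (P2 := 0) (W2 := 1230186008) (P3 := 536870912) (W3 := 50465866) (N0 := 3) (En := eng) (mo := mog) (C1 := cd0q0) (C2 := cd6q3) (C3 := pd3)
    rfl k0_mm_033

noncomputable def cut_mm_101 : Cut := Cut.of [[⟨3, 0, 0, 1449551462⟩]]

noncomputable def f_mm_101 : ℕ → ℕ → ℕ → ℕ → Bool := onCell 536870912 536870912 0 536870912 536870912 50465866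
    (rowB 3 eng mog cd0q1 cd6q0 pd1 0 true false false .npn 1 0 1 (qsf 536870912 536870912 0 536870912 1) ndB0q1 ndB6q0 pcB1 cut_mm_101 Ext.none)

def k0_mm_101 : ∃ t, chk3 f_mm_101 t 1 1 1 = true :=
  ⟨(l 4), by decide +kernel⟩

theorem c_mm_101 : CertB 536870912 536870912 0 536870912 536870912 50465866 3 eng mog cd0q1 cd6q0 pd1 true false false .npn 1 0 1
    ndB0q1 ndB6q0 pcB1 cut_mm_101 Ext.none :=
  certB0 (fam := true) (s1 := false) (s2 := false) (a := 1) (b := 0) (c := 1) (cn := .npn) (n1 := ndB0q1) (n2 := ndB6q0) (pc := pcB1) (cut := cut_mm_101) (xt := Ext.none) (P1 := 536870912) (W1 := 536870912) (P2 := 0) (W2 := 536870912) (P3 := 536870912) (W3 := 50465866) (N0 := 3) (En := eng) (mo := mog) (C1 := cd0q1) (C2 := cd6q0) (C3 := pd1)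
    rfl k0_mm_101

noncomputable def cut_mm_102 : Cut := Cut.of [[⟨3, 0, 0, 1449551462⟩]]

noncomputable def f_mm_102 : ℕ → ℕ → ℕ → ℕ → Bool := onCell 536870912 536870912 0 536870912 536870912 50465866
    (rowB 3 eng mog cd0q1 cd6q0 pd2 0 true false false .npp 1 0 2 (qsf 536870912 536870912 0 536870912 2) ndB0q1 ndB6q0 pcB2 cut_mm_102 Ext.none)

def k0_mm_102 : ∃ t, chk3 f_mm_102 t 1 1 1 = true :=
  ⟨(l 4), by decide +kernel⟩

theorem c_mm_102 : CertB 536870912 536870912 0 536870912 536870912 50465866 3 eng mog cd0q1 cd6q0 pd2 true false false .npp 1 0 2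
    ndB0q1 ndB6q0 pcB2 cut_mm_102 Ext.none :=
  certB0 (fam := true) (s1 := false) (s2 := false) (a := 1) (b := 0) (c := 2) (cn := .npp) (n1 := ndB0q1) (n2 := ndB6q0) (pc := pcB2) (cut := cut_mm_102) (xt := Ext.none) (P1 := 536870912) (W1 := 536870912) (P2 := 0) (W2 := 536870912) (P3 := 536870912) (W3 := 50465866) (N0 := 3) (En := eng) (mo := mog) (C1 := cd0q1) (C2 := cd6q0) (C3 := pd2)
    rfl k0_mm_102

noncomputable def cut_mm_112 : Cut := Cut.of [[⟨3, 0, 0, 1449551462⟩]]

noncomputable def f_mm_112 : ℕ → ℕ → ℕ → ℕ → Bool := onCell 536870912 536870912 536870912 536870912 536870912 50465866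
    (rowB 3 eng mog cd0q1 cd6q1 pd2 0 true false false .dn 1 1 2 (qsf 536870912 536870912 536870912 536870912 2) ndB0q1 ndB6q1 pcB2 cut_mm_112 Ext.none)

def k0_mm_112 : ∃ t, chk3 f_mm_112 t 1 1 1 = true :=
  ⟨(l 4), by decide +kernel⟩

theorem c_mm_112 : CertB 536870912 536870912 536870912 536870912 536870912 50465866 3 eng mog cd0q1 cd6q1 pd2 true false false .dn 1 1 2
    ndB0q1 ndB6q1 pcB2 cut_mm_112 Ext.none :=
  certB0 (fam := true) (s1 := false) (s2 := false) (a := 1) (b := 1) (c := 2) (cn := .dn) (n1 := ndB0q1) (n2 := ndB6q1) (pc := pcB2) (cut := cut_mm_112) (xt := Ext.none) (P1 := 536870912) (W1 := 536870912) (P2 := 536870912) (W2 := 536870912) (P3 := 536870912) (W3 := 50465866) (N0 := 3) (En := eng) (mo := mog) (C1 := cd0q1) (C2 := cd6q1) (C3 := pd2)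
    rfl k0_mm_112

noncomputable def cut_mm_113 : Cut := Cut.of [[⟨3, 0, 0, 1449551462⟩]]

noncomputable def f_mm_113 : ℕ → ℕ → ℕ → ℕ → Bool := onCell 536870912 536870912 536870912 536870912 536870912 50465866
    (rowB 3 eng mog cd0q1 cd6q1 pd3 0 true false false .nn 1 1 3 (qsf 536870912 536870912 536870912 536870912 3) ndB0q1 ndB6q1 pcB3 cut_mm_113 Ext.none)

def k0_mm_113 : ∃ t, chk3 f_mm_113 t 1 1 1 = true :=
  ⟨(l 4), by decide +kernel⟩

theorem c_mm_113 : CertB 536870912 536870912 536870912 536870912 536870912 50465866 3 eng mog cd0q1 cd6q1 pd3 true false false .nn 1 1 3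
    ndB0q1 ndB6q1 pcB3 cut_mm_113 Ext.none :=
  certB0 (fam := true) (s1 := false) (s2 := false) (a := 1) (b := 1) (c := 3) (cn := .nn) (n1 := ndB0q1) (n2 := ndB6q1) (pc := pcB3) (cut := cut_mm_113) (xt := Ext.none) (P1 := 536870912) (W1 := 536870912) (P2 := 536870912) (W2 := 536870912) (P3 := 536870912) (W3 := 50465866) (N0 := 3) (En := eng) (mo := mog) (C1 := cd0q1) (C2 := cd6q1) (C3 := pd3)
    rfl k0_mm_113

noncomputable def cut_mm_123 : Cut := Cut.of [[⟨3, 0, 0, 1449551462⟩]]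

noncomputable def f_mm_123 : ℕ → ℕ → ℕ → ℕ → Bool := onCell 536870912 536870912 1073741824 536870912 536870912 50465866
    (rowB 3 eng mog cd0q1 cd6q2 pd3 0 true false false .npn 1 2 3 (qsf 536870912 536870912 1073741824 536870912 3) ndB0q1 ndB6q2 pcB3 cut_mm_123 Ext.none)

def k0_mm_123 : ∃ t, chk3 f_mm_123 t 1 1 1 = true :=
  ⟨(l 4), by decide +kernel⟩

theorem c_mm_123 : CertB 536870912 536870912 1073741824 536870912 536870912 50465866 3 eng mog cd0q1 cd6q2 pd3 true false false .npn 1 2 3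
    ndB0q1 ndB6q2 pcB3 cut_mm_123 Ext.none :=
  certB0 (fam := true) (s1 := false) (s2 := false) (a := 1) (b := 2) (c := 3) (cn := .npn) (n1 := ndB0q1) (n2 := ndB6q2) (pc := pcB3) (cut := cut_mm_123) (xt := Ext.none) (P1 := 536870912) (W1 := 536870912) (P2 := 1073741824) (W2 := 536870912) (P3 := 536870912) (W3 := 50465866) (N0 := 3) (En := eng) (mo := mog) (C1 := cd0q1) (C2 := cd6q2) (C3 := pd3)
    rfl k0_mm_123

noncomputable def cut_mm_133 : Cut := Cut.of [[⟨3, 0, 0, 1449551462⟩]]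

noncomputable def f_mm_133 : ℕ → ℕ → ℕ → ℕ → Bool := onCell 536870912 536870912 0 1230186008 536870912 50465866
    (rowB 3 eng mog cd0q1 cd6q3 pd3 0 true false false .dn 1 3 3 (qsf 536870912 536870912 0 1230186008 3) ndB0q1 ndB6q3 pcB3 cut_mm_133 Ext.none)

def k0_mm_133 : ∃ t, chk3 f_mm_133 t 1 1 1 = true :=
  ⟨(l 4), by decide +kernel⟩

theorem c_mm_133 : CertB 536870912 536870912 0 1230186008 536870912 50465866 3 eng mog cd0q1 cd6q3 pd3 true false false .dn 1 3 3
    ndB0q1 ndB6q3 pcB3 cut_mm_133 Ext.none :=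
  certB0 (fam := true) (s1 := false) (s2 := false) (a := 1) (b := 3) (c := 3) (cn := .dn) (n1 := ndB0q1) (n2 := ndB6q3) (pc := pcB3) (cut := cut_mm_133) (xt := Ext.none) (P1 := 536870912) (W1 := 536870912) (P2 := 0) (W2 := 1230186008) (P3 := 536870912) (W3 := 50465866) (N0 := 3) (En := eng) (mo := mog) (C1 := cd0q1) (C2 := cd6q3) (C3 := pd3)
    rfl k0_mm_133

noncomputable def cut_mm_202 : Cut := Cut.of [[⟨3, 0, 0, 1449551462⟩]]

noncomputable def f_mm_202 : ℕ → ℕ → ℕ → ℕ → Bool := onCell 0 536870912 0 536870912 536870912 50465866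
    (rowB 3 eng mog cd0q2 cd6q0 pd2 0 true false false .pp 2 0 2 (qsf 0 536870912 0 536870912 2) ndB0q2 ndB6q0 pcB2 cut_mm_202 Ext.none)

def k0_mm_202 : ∃ t, chk3 f_mm_202 t 1 1 1 = true :=
  ⟨(l 4), by decide +kernel⟩

theorem c_mm_202 : CertB 0 536870912 0 536870912 536870912 50465866 3 eng mog cd0q2 cd6q0 pd2 true false false .pp 2 0 2
    ndB0q2 ndB6q0 pcB2 cut_mm_202 Ext.none :=
  certB0 (fam := true) (s1 := false) (s2 := false) (a := 2) (b := 0) (c := 2) (cn := .pp) (n1 := ndB0q2) (n2 := ndB6q0) (pc := pcB2) (cut := cut_mm_202) (xt := Ext.none) (P1 := 0) (W1 := 536870912) (P2 := 0) (W2 := 536870912) (P3 := 536870912) (W3 := 50465866) (N0 := 3) (En := eng) (mo := mog) (C1 := cd0q2) (C2 := cd6q0) (C3 := pd2)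
    rfl k0_mm_202

noncomputable def cut_mm_203 : Cut := Cut.of [[⟨3, 0, 0, 1449551462⟩]]

noncomputable def f_mm_203 : ℕ → ℕ → ℕ → ℕ → Bool := onCell 0 536870912 0 536870912 536870912 50465866
    (rowB 3 eng mog cd0q2 cd6q0 pd3 0 true false false .up 2 0 3 (qsf 0 536870912 0 536870912 3) ndB0q2 ndB6q0 pcB3 cut_mm_203 Ext.none)

def k0_mm_203 : ∃ t, chk3 f_mm_203 t 1 1 1 = true :=
  ⟨(l 4), by decide +kernel⟩

theorem c_mm_203 : CertB 0 536870912 0 536870912 536870912 50465866 3 eng mog cd0q2 cd6q0 pd3 true false false .up 2 0 3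
    ndB0q2 ndB6q0 pcB3 cut_mm_203 Ext.none :=
  certB0 (fam := true) (s1 := false) (s2 := false) (a := 2) (b := 0) (c := 3) (cn := .up) (n1 := ndB0q2) (n2 := ndB6q0) (pc := pcB3) (cut := cut_mm_203) (xt := Ext.none) (P1 := 0) (W1 := 536870912) (P2 := 0) (W2 := 536870912) (P3 := 536870912) (W3 := 50465866) (N0 := 3) (En := eng) (mo := mog) (C1 := cd0q2) (C2 := cd6q0) (C3 := pd3)
    rfl k0_mm_203

noncomputable def cut_mm_213 : Cut := Cut.of [[⟨3, 0, 0, 1449551462⟩]]

noncomputable def f_mm_213 : ℕ → ℕ → ℕ → ℕ → Bool := onCell 0 536870912 536870912 536870912 536870912 50465866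
    (rowB 3 eng mog cd0q2 cd6q1 pd3 0 true false false .pnn 2 1 3 (qsf 0 536870912 536870912 536870912 3) ndB0q2 ndB6q1 pcB3 cut_mm_213 Ext.none)

def k0_mm_213 : ∃ t, chk3 f_mm_213 t 1 1 1 = true :=
  ⟨(l 4), by decide +kernel⟩

theorem c_mm_213 : CertB 0 536870912 536870912 536870912 536870912 50465866 3 eng mog cd0q2 cd6q1 pd3 true false false .pnn 2 1 3
    ndB0q2 ndB6q1 pcB3 cut_mm_213 Ext.none :=
  certB0 (fam := true) (s1 := false) (s2 := false) (a := 2) (b := 1) (c := 3) (cn := .pnn) (n1 := ndB0q2) (n2 := ndB6q1) (pc := pcB3) (cut := cut_mm_213) (xt := Ext.none) (P1 := 0) (W1 := 536870912) (P2 := 536870912) (W2 := 536870912) (P3 := 536870912) (W3 := 50465866) (N0 := 3) (En := eng) (mo := mog) (C1 := cd0q2) (C2 := cd6q1) (C3 := pd3)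
    rfl k0_mm_213

end Pool.Agent.Strip051.G.I5000_5470.Tab.C.BA06

namespace Pool.Agent.Strip051.G.I5000_5470.Tab.C.BA11

open Pool.Agent.Strip051.PB Pool.Agent.Strip051.PB.T
open Pool.Agent.Strip051.G.I5000_5470.Tab

noncomputable def f_pp_001 : ℕ → ℕ → ℕ → ℕ → Bool := onCell 0 536870912 0 536870912 536870912 50465866
    (rowB 3 eng mog cd1q0 cd1q0 pd1 0 true true true .up 0 0 1 (qsf 0 536870912 0 536870912 1) ndB1q0 ndB1q0 pcB1 Cut.none Ext.none)

def k0_pp_001 : ∃ t, chk3 f_pp_001 t 1 1 1 = true :=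
  ⟨(l 4), by decide +kernel⟩

theorem c_pp_001 : CertB 0 536870912 0 536870912 536870912 50465866 3 eng mog cd1q0 cd1q0 pd1 true true true .up 0 0 1
    ndB1q0 ndB1q0 pcB1 Cut.none Ext.none :=
  certB0 (fam := true) (s1 := true) (s2 := true) (a := 0) (b := 0) (c := 1) (cn := .up) (n1 := ndB1q0) (n2 := ndB1q0) (pc := pcB1) (cut := Cut.none) (xt := Ext.none) (P1 := 0) (W1 := 536870912) (P2 := 0) (W2 := 536870912) (P3 := 536870912) (W3 := 50465866) (N0 := 3) (En := eng) (mo := mog) (C1 := cd1q0) (C2 := cd1q0) (C3 := pd1)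
    rfl k0_pp_001

noncomputable def f_pp_011 : ℕ → ℕ → ℕ → ℕ → Bool := onCell 0 536870912 536870912 536870912 536870912 50465866
    (rowB 3 eng mog cd1q0 cd1q1 pd1 0 true true true .pnn 0 1 1 (qsf 0 536870912 536870912 536870912 1) ndB1q0 ndB1q1 pcB1 Cut.none Ext.none)

def k0_pp_011 : ∃ t, chk3 f_pp_011 t 1 1 1 = true :=
  ⟨(l 4), by decide +kernel⟩

theorem c_pp_011 : CertB 0 536870912 536870912 536870912 536870912 50465866 3 eng mog cd1q0 cd1q1 pd1 true true true .pnn 0 1 1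
    ndB1q0 ndB1q1 pcB1 Cut.none Ext.none :=
  certB0 (fam := true) (s1 := true) (s2 := true) (a := 0) (b := 1) (c := 1) (cn := .pnn) (n1 := ndB1q0) (n2 := ndB1q1) (pc := pcB1) (cut := Cut.none) (xt := Ext.none) (P1 := 0) (W1 := 536870912) (P2 := 536870912) (W2 := 536870912) (P3 := 536870912) (W3 := 50465866) (N0 := 3) (En := eng) (mo := mog) (C1 := cd1q0) (C2 := cd1q1) (C3 := pd1)
    rfl k0_pp_011

noncomputable def f_pp_012 : ℕ → ℕ → ℕ → ℕ → Bool := onCell 0 536870912 536870912 536870912 536870912 50465866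
    (rowB 3 eng mog cd1q0 cd1q1 pd2 0 true true true .pnp 0 1 2 (qsf 0 536870912 536870912 536870912 2) ndB1q0 ndB1q1 pcB2 Cut.none Ext.none)

def k0_pp_012 : ∃ t, chk3 f_pp_012 t 1 1 1 = true :=
  ⟨(l 4), by decide +kernel⟩

theorem c_pp_012 : CertB 0 536870912 536870912 536870912 536870912 50465866 3 eng mog cd1q0 cd1q1 pd2 true true true .pnp 0 1 2
    ndB1q0 ndB1q1 pcB2 Cut.none Ext.none :=
  certB0 (fam := true) (s1 := true) (s2 := true) (a := 0) (b := 1) (c := 2) (cn := .pnp) (n1 := ndB1q0) (n2 := ndB1q1) (pc := pcB2) (cut := Cut.none) (xt := Ext.none) (P1 := 0) (W1 := 536870912) (P2 := 536870912) (W2 := 536870912) (P3 := 536870912) (W3 := 50465866) (N0 := 3) (En := eng) (mo := mog) (C1 := cd1q0) (C2 := cd1q1) (C3 := pd2)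
    rfl k0_pp_012

noncomputable def cut_pp_022_a : Cut := Cut.of [[⟨0, 0, 0, 67108864⟩, ⟨1, 1, 0, 67108864⟩, ⟨2, 1, 0, 67108864⟩]]

noncomputable def f_pp_022_a : ℕ → ℕ → ℕ → ℕ → Bool := onCell 0 536870912 0 536870912 536870912 50465866
    (rowB 3 eng mog cd1q0 cd1q2a pd2 0 true true true .pp 0 2 2 (qsf 0 536870912 0 536870912 2) ndB1q0 ndB1q2a pcB2 cut_pp_022_a Ext.none)

def k0_pp_022_a : ∃ t, chk3 f_pp_022_a t 2 2 1 = true :=
  ⟨(a (b (a (a (b (a (l 16458320) (l 16465200)) (b (a (l 16464160) (l 16494232)) (l 16538952))) (b (a (l 16471936) (l 16482240)) (b (l 16486560) (l 16495800)))) (b (a (b (l 16496520) (l 16502344)) (b (l 16562000) (l 16526224))) (a (l 16515800) (l 16583800)))) (a (a (a (b (l 16489272) (a (l 16557352) (l 16556832))) (b (l 16540144) (b (l 16520536) (l 16538800)))) (b (l 16595168) (a (b (l 16532864) (l 16548136)) (b (l 16542512) (l 16605864))))) (a (b (l 16536504) (b (l 16555232) (l 16589312))) (b (l 16563344) (b (l 16580440) (l 16598672))))))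 (b (a (a (b (l 16546256) (l 16567448)) (b (l 16568168) (l 16592752))) (b (l 16598704) (l 16672728))) (a (a (b (l 16590256) (l 16676464)) (b (l 16617344) (l 16682328))) (b (a (l 16643824) (l 16668520)) (a (l 16730456) (b (l 16686864) (l 16726184))))))), by decide +kernel⟩

def k1_pp_022_a : ∃ t, chk3 f_pp_022_a t 4 6 1 = true :=
  ⟨(a (b (b (a (a (a (l 16543016) (l 16548960)) (l 16569456)) (a (l 16572640) (b (l 16622512) (l 16654656)))) (a (a (a (l 16576576) (l 16571464)) (b (l 16575224) (l 16587048))) (a (l 16595256) (a (l 16626944) (l 16655088))))) (a (a (b (a (b (l 16605872) (l 16598304)) (l 16608208)) (a (b (l 16622784) (l 16637328)) (b (l 16618896) (l 16633768)))) (b (a (l 16603664) (l 16609912)) (b (l 16639048) (l 16654400)))) (a (b (b (l 16614032) (l 16627600)) (b (l 16641976) (l 16657224))) (b (l 16635656) (b (l 16657160) (l 16672656)))))) (b (a (a (b (l 16619000) (a (c (l 16663816) (l 16660368)) (l 16668512))) (b (l 16629984) (l 16656768))) (b (l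 16647176) (a (l 16668856) (l 16640928)))) (a (a (b (b (l 16641408) (l 16678504)) (a (l 16676520) (l 16684232))) (b (a (b (l 16653832) (l 16689544)) (l 16668056)) (b (a (l 16683840) (l 16733208)) (l 16703744)))) (a (b (l 16678104) (a (b (l 16698464) (l 16757048)) (l 16714080))) (b (l 16735224) (b (l 16738824) (l 16755112))))))), by decide +kernel⟩

def k2_pp_022_a : ∃ t, chk3 f_pp_022_a t 4 7 1 = true :=
  ⟨(a (b (a (a (b (b (a (a (l 16640200) (l 16643864)) (l 16659776)) (a (a (b (l 16651944) (l 16659976)) (l 16680760)) (c (l 16687432) (l 16685440)))) (b (a (a (l 6) (l 16686776)) (a (l 16701144) (l 16684016))) (a (l 6) (b (a (l 6) (l 16697016)) (l 6))))) (b (a (b (l 16677376) (b (l 16668696) (l 16677048))) (a (l 16679240) (l 16684096))) (b (a (c (l 16711352) (l 16710048)) (l 16697224)) (a (b (l 16723784) (c (l 16733256) (l 16732368))) (l 16725472))))) (a (b (b (l 16673688) (l 16711896)) (b (a (l 16704592) (l 16711960)) (a (l 16732992) (l 16730504)))) (b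 (b (l 16688968) (l 16706112)) (b (a (l 16720032) (l 16728176)) (a (l 16741272) (l 16753904)))))) (a (b (a (l 6) (a (l 6) (b (a (l 16742192) (l 16746056)) (l 6)))) (l 6)) (b (b (a (a (b (l 16736696) (l 16746432)) (b (l 16744816) (l 16759744))) (a (b (l 16752864) (l 4)) (l 4))) (a (a (b (a (l 16754280) (l 16758304)) (a (l 6) (l 4))) (l 4)) (l 4))) (l 4)))) (b (a (a (b (b (l 16704832) (l 16722256)) (b (a (l 16736288) (l 16744160)) (a (l 16765024) (l 4)))) (b (b (c (l 16742592) (l 16740672)) (a (l 16734192) (l 16741720))) (l 4))) (b (a (b (a (l 16732032) (l 16760008)) (l 4)) (l 4)) (l 4))) (l 4))), by decide +kernel⟩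

def k3_pp_022_a : ∃ t, chk3 f_pp_022_a t 5 3 1 = true :=
  ⟨(b (a (b (b (a (l 16655400) (l 16685176)) (a (b (l 16699536) (l 16736488)) (a (l 16730896) (l 16723104)))) (a (b (a (l 16752432) (l 16726392)) (a (a (l 16738344) (l 4)) (l 4))) (b (a (l 16761368) (l 4)) (l 4)))) (b (a (b (l 16752544) (l 4)) (l 4)) (l 4))) (l 4)), by decide +kernel⟩

def k4_pp_022_a : ∃ t, chk3 f_pp_022_a t 3 1 1 = true :=
  ⟨(b (b (a (a (a (l 16681264) (l 16754120)) (a (l 16791128) (b (l 16709000) (l 16749360)))) (l 2)) (a (a (b (a (l 16688088) (l 16750968)) (b (a (l 16713176) (l 4)) (l 4))) (a (b (l 16787712) (l 4)) (l 4))) (l 4))) (l 4)), by decide +kernel⟩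

theorem s5_pp_022_a : ∃ t, chk3 f_pp_022_a t 4 3 1 = true := ex3_b k1_pp_022_a k2_pp_022_a

theorem s6_pp_022_a : ∃ t, chk3 f_pp_022_a t 2 3 1 = true := ex3_a s5_pp_022_a k3_pp_022_a

theorem s7_pp_022_a : ∃ t, chk3 f_pp_022_a t 2 1 1 = true := ex3_b k0_pp_022_a s6_pp_022_a

theorem s8_pp_022_a : ∃ t, chk3 f_pp_022_a t 1 1 1 = true := ex3_a s7_pp_022_a k4_pp_022_a

theorem c_pp_022_a : CertB 0 536870912 0 536870912 536870912 50465866 3 eng mog cd1q0 cd1q2a pd2 true true true .pp 0 2 2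
    ndB1q0 ndB1q2a pcB2 cut_pp_022_a Ext.none :=
  certB0 (fam := true) (s1 := true) (s2 := true) (a := 0) (b := 2) (c := 2) (cn := .pp) (n1 := ndB1q0) (n2 := ndB1q2a) (pc := pcB2) (cut := cut_pp_022_a) (xt := Ext.none) (P1 := 0) (W1 := 536870912) (P2 := 0) (W2 := 536870912) (P3 := 536870912) (W3 := 50465866) (N0 := 3) (En := eng) (mo := mog) (C1 := cd1q0) (C2 := cd1q2a) (C3 := pd2)
    rfl s8_pp_022_a

noncomputable def cut_pp_022_b : Cut := Cut.of [[⟨0, 0, 0, 67108864⟩, ⟨1, 1, 0, 67108864⟩, ⟨2, 1, 0, 67108864⟩]]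

noncomputable def f_pp_022_b : ℕ → ℕ → ℕ → ℕ → Bool := onCell 1073741824 536870912 1239849684 370763052 536870912 50465866
    (rowB 3 eng mog cd1q0 cd1q2b pd2 2 true true true .pp 0 2 2 (qsf 0 536870912 1239849684 370763052 2) ndB1q0 ndB1q2b pcB2 cut_pp_022_b Ext.none)

def k0_pp_022_b : ∃ t, chk3 f_pp_022_b t 1 1 1 = true :=
  ⟨(a (b (a (l 1) (a (b (b (a (a (l 1) (l 16403744)) (a (b (l 16472688) (l 1)) (b (l 16437232) (l 16388376)))) (l 1)) (l 1)) (b (b (a (a (l 16464840) (l 16433504)) (l 16450504)) (a (b (a (l 16349848) (l 16361496)) (l 1)) (b (l 16380144) (l 16332496)))) (a (l 1) (b (l 16281424) (l 1)))))) (l 1)) (b (a (a (b (a (b (b (l 16496456) (l 16451928)) (l 16383536)) (b (l 16540912) (l 16412008))) (a (b (l 16311168) (l 1)) (b (l 16321288) (l 16228720)))) (b (a (b (l 16522344) (l 16440456)) (l 16549080)) (a (b (l 16353552) (l 16264424)) (l 16343040)))) (a (b (a (l 16530112) (l 16550096)) (a (l 16375728) (l 16405904))) (b (a (l 16565952) (l 16577400))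 (l 16422512)))) (a (b (a (l 1) (a (b (l 16174320) (l 1)) (l 16168264))) (l 1)) (a (b (a (l 16207032) (l 16244136)) (a (l 1) (l 16079320))) (b (l 16314248) (l 16135704)))))), by decide +kernel⟩

theorem c_pp_022_b : CertB 0 536870912 1239849684 370763052 536870912 50465866 3 eng mog cd1q0 cd1q2b pd2 true true true .pp 0 2 2
    ndB1q0 ndB1q2b pcB2 cut_pp_022_b Ext.none :=
  certB2 (fam := true) (s1 := true) (s2 := true) (a := 0) (b := 2) (c := 2) (cn := .pp) (n1 := ndB1q0) (n2 := ndB1q2b) (pc := pcB2) (cut := cut_pp_022_b) (xt := Ext.none) (P1 := 0) (W1 := 536870912) (P2 := 1239849684) (W2 := 370763052) (P3 := 536870912) (W3 := 50465866) (N0 := 3) (En := eng) (mo := mog) (C1 := cd1q0) (C2 := cd1q2b) (C3 := pd2)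
    rfl (fun _ => rfl) k0_pp_022_b

noncomputable def f_pp_023_a : ℕ → ℕ → ℕ → ℕ → Bool := onCell 1610612736 536870912 0 536870912 536870912 50465866
    (rowB 3 eng mog cd1q0 cd1q2a pd3 2 true true true .up 0 2 3 (qsf 0 536870912 0 536870912 3) ndB1q0 ndB1q2a pcB3 Cut.none Ext.none)

def k0_pp_023_a : ∃ t, chk3 f_pp_023_a t 1 1 1 = true :=
  ⟨(b (a (b (a (a (a (b (l 16700384) (l 16755208)) (b (l 16746552) (l 16800224))) (a (a (l 32447294999) (l 49090285127)) (l 75933899559))) (l 4)) (l 4)) (l 2)) (l 4)), by decide +kernel⟩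

theorem c_pp_023_a : CertB 0 536870912 0 536870912 536870912 50465866 3 eng mog cd1q0 cd1q2a pd3 true true true .up 0 2 3
    ndB1q0 ndB1q2a pcB3 Cut.none Ext.none :=
  certB2 (fam := true) (s1 := true) (s2 := true) (a := 0) (b := 2) (c := 3) (cn := .up) (n1 := ndB1q0) (n2 := ndB1q2a) (pc := pcB3) (cut := Cut.none) (xt := Ext.none) (P1 := 0) (W1 := 536870912) (P2 := 0) (W2 := 536870912) (P3 := 536870912) (W3 := 50465866) (N0 := 3) (En := eng) (mo := mog) (C1 := cd1q0) (C2 := cd1q2a) (C3 := pd3)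
    rfl (fun _ => rfl) k0_pp_023_a

noncomputable def f_pp_023_b : ℕ → ℕ → ℕ → ℕ → Bool := onCell 1610612736 536870912 1239849684 370763052 536870912 50465866
    (rowB 3 eng mog cd1q0 cd1q2b pd3 2 true true true .up 0 2 3 (qsf 0 536870912 1239849684 370763052 3) ndB1q0 ndB1q2b pcB3 Cut.none Ext.none)

def k0_pp_023_b : ∃ t, chk3 f_pp_023_b t 1 1 1 = true :=
  ⟨(a (a (b (a (b (a (l 16624144) (l 16638112)) (l 16560104)) (b (a (l 16691320) (l 16723728)) (a (l 16544896) (l 4)))) (a (b (l 16364680) (l 16221352)) (a (l 16495136) (l 4)))) (b (l 4) (l 4))) (l 4)), by decide +kernel⟩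

theorem c_pp_023_b : CertB 0 536870912 1239849684 370763052 536870912 50465866 3 eng mog cd1q0 cd1q2b pd3 true true true .up 0 2 3
    ndB1q0 ndB1q2b pcB3 Cut.none Ext.none :=
  certB2 (fam := true) (s1 := true) (s2 := true) (a := 0) (b := 2) (c := 3) (cn := .up) (n1 := ndB1q0) (n2 := ndB1q2b) (pc := pcB3) (cut := Cut.none) (xt := Ext.none) (P1 := 0) (W1 := 536870912) (P2 := 1239849684) (W2 := 370763052) (P3 := 536870912) (W3 := 50465866) (N0 := 3) (En := eng) (mo := mog) (C1 := cd1q0) (C2 := cd1q2b) (C3 := pd3)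
    rfl (fun _ => rfl) k0_pp_023_b

noncomputable def f_pp_033 : ℕ → ℕ → ℕ → ℕ → Bool := onCell 0 536870912 1610612736 536870912 536870912 50465866
    (rowB 3 eng mog cd1q0 cd1q3 pd3 1 true true true .pnn 0 3 3 (qsf 0 536870912 1610612736 536870912 3) ndB1q0 ndB1q3 pcB3 Cut.none Ext.none)

def k0_pp_033 : ∃ t, chk3 f_pp_033 t 1 1 1 = true :=
  ⟨(b (b (a (b (a (l 16231528) (l 1)) (a (b (l 16344048) (l 16447592)) (l 262563146199))) (l 1)) (l 4)) (l 4)), by decide +kernel⟩

theorem c_pp_033 : CertB 0 536870912 1610612736 536870912 536870912 50465866 3 eng mog cd1q0 cd1q3 pd3 true true true .pnn 0 3 3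
    ndB1q0 ndB1q3 pcB3 Cut.none Ext.none :=
  certB1 (fam := true) (s1 := true) (s2 := true) (a := 0) (b := 3) (c := 3) (cn := .pnn) (n1 := ndB1q0) (n2 := ndB1q3) (pc := pcB3) (cut := Cut.none) (xt := Ext.none) (P1 := 0) (W1 := 536870912) (P2 := 1610612736) (W2 := 536870912) (P3 := 536870912) (W3 := 50465866) (N0 := 3) (En := eng) (mo := mog) (C1 := cd1q0) (C2 := cd1q3) (C3 := pd3)
    rfl (fun _ => rfl) k0_pp_033

noncomputable def f_pp_101 : ℕ → ℕ → ℕ → ℕ → Bool := onCell 536870912 536870912 0 536870912 536870912 50465866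
    (rowB 3 eng mog cd1q1 cd1q0 pd1 0 true true true .npn 1 0 1 (qsf 536870912 536870912 0 536870912 1) ndB1q1 ndB1q0 pcB1 Cut.none Ext.none)

def k0_pp_101 : ∃ t, chk3 f_pp_101 t 1 1 1 = true :=
  ⟨(l 4), by decide +kernel⟩

theorem c_pp_101 : CertB 536870912 536870912 0 536870912 536870912 50465866 3 eng mog cd1q1 cd1q0 pd1 true true true .npn 1 0 1
    ndB1q1 ndB1q0 pcB1 Cut.none Ext.none :=
  certB0 (fam := true) (s1 := true) (s2 := true) (a := 1) (b := 0) (c := 1) (cn := .npn) (n1 := ndB1q1) (n2 := ndB1q0) (pc := pcB1) (cut := Cut.none) (xt := Ext.none) (P1 := 536870912) (W1 := 536870912) (P2 := 0) (W2 := 536870912) (P3 := 536870912) (W3 := 50465866) (N0 := 3) (En := eng) (mo := mog) (C1 := cd1q1) (C2 := cd1q0) (C3 := pd1)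
    rfl k0_pp_101

noncomputable def f_pp_102 : ℕ → ℕ → ℕ → ℕ → Bool := onCell 536870912 536870912 0 536870912 536870912 50465866
    (rowB 3 eng mog cd1q1 cd1q0 pd2 0 true true true .npp 1 0 2 (qsf 536870912 536870912 0 536870912 2) ndB1q1 ndB1q0 pcB2 Cut.none Ext.none)

def k0_pp_102 : ∃ t, chk3 f_pp_102 t 1 1 1 = true :=
  ⟨(l 4), by decide +kernel⟩

theorem c_pp_102 : CertB 536870912 536870912 0 536870912 536870912 50465866 3 eng mog cd1q1 cd1q0 pd2 true true true .npp 1 0 2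
    ndB1q1 ndB1q0 pcB2 Cut.none Ext.none :=
  certB0 (fam := true) (s1 := true) (s2 := true) (a := 1) (b := 0) (c := 2) (cn := .npp) (n1 := ndB1q1) (n2 := ndB1q0) (pc := pcB2) (cut := Cut.none) (xt := Ext.none) (P1 := 536870912) (W1 := 536870912) (P2 := 0) (W2 := 536870912) (P3 := 536870912) (W3 := 50465866) (N0 := 3) (En := eng) (mo := mog) (C1 := cd1q1) (C2 := cd1q0) (C3 := pd2)
    rfl k0_pp_102

noncomputable def f_pp_112 : ℕ → ℕ → ℕ → ℕ → Bool := onCell 536870912 536870912 536870912 536870912 536870912 50465866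
    (rowB 3 eng mog cd1q1 cd1q1 pd2 0 true true true .dn 1 1 2 (qsf 536870912 536870912 536870912 536870912 2) ndB1q1 ndB1q1 pcB2 Cut.none Ext.none)

def k0_pp_112 : ∃ t, chk3 f_pp_112 t 1 1 1 = true :=
  ⟨(l 4), by decide +kernel⟩

theorem c_pp_112 : CertB 536870912 536870912 536870912 536870912 536870912 50465866 3 eng mog cd1q1 cd1q1 pd2 true true true .dn 1 1 2
    ndB1q1 ndB1q1 pcB2 Cut.none Ext.none :=
  certB0 (fam := true) (s1 := true) (s2 := true) (a := 1) (b := 1) (c := 2) (cn := .dn) (n1 := ndB1q1) (n2 := ndB1q1) (pc := pcB2) (cut := Cut.none) (xt := Ext.none) (P1 := 536870912) (W1 := 536870912) (P2 := 536870912) (W2 := 536870912) (P3 := 536870912) (W3 := 50465866) (N0 := 3) (En := eng) (mo := mog) (C1 := cd1q1) (C2 := cd1q1) (C3 := pd2)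
    rfl k0_pp_112

noncomputable def f_pp_113 : ℕ → ℕ → ℕ → ℕ → Bool := onCell 536870912 536870912 536870912 536870912 536870912 50465866
    (rowB 3 eng mog cd1q1 cd1q1 pd3 0 true true true .nn 1 1 3 (qsf 536870912 536870912 536870912 536870912 3) ndB1q1 ndB1q1 pcB3 Cut.none Ext.none)

def k0_pp_113 : ∃ t, chk3 f_pp_113 t 1 1 1 = true :=
  ⟨(l 4), by decide +kernel⟩

theorem c_pp_113 : CertB 536870912 536870912 536870912 536870912 536870912 50465866 3 eng mog cd1q1 cd1q1 pd3 true true true .nn 1 1 3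
    ndB1q1 ndB1q1 pcB3 Cut.none Ext.none :=
  certB0 (fam := true) (s1 := true) (s2 := true) (a := 1) (b := 1) (c := 3) (cn := .nn) (n1 := ndB1q1) (n2 := ndB1q1) (pc := pcB3) (cut := Cut.none) (xt := Ext.none) (P1 := 536870912) (W1 := 536870912) (P2 := 536870912) (W2 := 536870912) (P3 := 536870912) (W3 := 50465866) (N0 := 3) (En := eng) (mo := mog) (C1 := cd1q1) (C2 := cd1q1) (C3 := pd3)
    rfl k0_pp_113

noncomputable def f_pp_123_a : ℕ → ℕ → ℕ → ℕ → Bool := onCell 536870912 536870912 0 536870912 536870912 50465866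
    (rowB 3 eng mog cd1q1 cd1q2a pd3 0 true true true .npn 1 2 3 (qsf 536870912 536870912 0 536870912 3) ndB1q1 ndB1q2a pcB3 Cut.none Ext.none)

def k0_pp_123_a : ∃ t, chk3 f_pp_123_a t 1 1 1 = true :=
  ⟨(a (b (l 4) (l 4)) (l 4)), by decide +kernel⟩

theorem c_pp_123_a : CertB 536870912 536870912 0 536870912 536870912 50465866 3 eng mog cd1q1 cd1q2a pd3 true true true .npn 1 2 3
    ndB1q1 ndB1q2a pcB3 Cut.none Ext.none :=
  certB0 (fam := true) (s1 := true) (s2 := true) (a := 1) (b := 2) (c := 3) (cn := .npn) (n1 := ndB1q1) (n2 := ndB1q2a) (pc := pcB3) (cut := Cut.none) (xt := Ext.none) (P1 := 536870912) (W1 := 536870912) (P2 := 0) (W2 := 536870912) (P3 := 536870912) (W3 := 50465866) (N0 := 3) (En := eng) (mo := mog) (C1 := cd1q1) (C2 := cd1q2a) (C3 := pd3)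
    rfl k0_pp_123_a

noncomputable def f_pp_123_b : ℕ → ℕ → ℕ → ℕ → Bool := onCell 536870912 536870912 1239849684 370763052 536870912 50465866
    (rowB 3 eng mog cd1q1 cd1q2b pd3 0 true true true .npn 1 2 3 (qsf 536870912 536870912 1239849684 370763052 3) ndB1q1 ndB1q2b pcB3 Cut.none Ext.none)

def k0_pp_123_b : ∃ t, chk3 f_pp_123_b t 1 1 1 = true :=
  ⟨(a (b (l 4) (l 4)) (l 4)), by decide +kernel⟩

theorem c_pp_123_b : CertB 536870912 536870912 1239849684 370763052 536870912 50465866 3 eng mog cd1q1 cd1q2b pd3 true true true .npn 1 2 3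
    ndB1q1 ndB1q2b pcB3 Cut.none Ext.none :=
  certB0 (fam := true) (s1 := true) (s2 := true) (a := 1) (b := 2) (c := 3) (cn := .npn) (n1 := ndB1q1) (n2 := ndB1q2b) (pc := pcB3) (cut := Cut.none) (xt := Ext.none) (P1 := 536870912) (W1 := 536870912) (P2 := 1239849684) (W2 := 370763052) (P3 := 536870912) (W3 := 50465866) (N0 := 3) (En := eng) (mo := mog) (C1 := cd1q1) (C2 := cd1q2b) (C3 := pd3)
    rfl k0_pp_123_b

noncomputable def f_pp_133 : ℕ → ℕ → ℕ → ℕ → Bool := onCell 536870912 536870912 1610612736 536870912 536870912 50465866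
    (rowB 3 eng mog cd1q1 cd1q3 pd3 0 true true true .dn 1 3 3 (qsf 536870912 536870912 1610612736 536870912 3) ndB1q1 ndB1q3 pcB3 Cut.none Ext.none)

def k0_pp_133 : ∃ t, chk3 f_pp_133 t 1 1 1 = true :=
  ⟨(l 4), by decide +kernel⟩

theorem c_pp_133 : CertB 536870912 536870912 1610612736 536870912 536870912 50465866 3 eng mog cd1q1 cd1q3 pd3 true true true .dn 1 3 3
    ndB1q1 ndB1q3 pcB3 Cut.none Ext.none :=
  certB0 (fam := true) (s1 := true) (s2 := true) (a := 1) (b := 3) (c := 3) (cn := .dn) (n1 := ndB1q1) (n2 := ndB1q3) (pc := pcB3) (cut := Cut.none) (xt := Ext.none) (P1 := 536870912) (W1 := 536870912) (P2 := 1610612736) (W2 := 536870912) (P3 := 536870912) (W3 := 50465866) (N0 := 3) (En := eng) (mo := mog) (C1 := cd1q1) (C2 := cd1q3) (C3 := pd3)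
    rfl k0_pp_133

noncomputable def f_pp_202_a : ℕ → ℕ → ℕ → ℕ → Bool := onCell 0 536870912 0 536870912 536870912 50465866
    (rowB 3 eng mog cd1q2a cd1q0 pd2 0 true true true .pp 2 0 2 (qsf 0 536870912 0 536870912 2) ndB1q2a ndB1q0 pcB2 Cut.none Ext.none)

def k0_pp_202_a : ∃ t, chk3 f_pp_202_a t 1 1 1 = true :=
  ⟨(l 5), by decide +kernel⟩

theorem c_pp_202_a : CertB 0 536870912 0 536870912 536870912 50465866 3 eng mog cd1q2a cd1q0 pd2 true true true .pp 2 0 2
    ndB1q2a ndB1q0 pcB2 Cut.none Ext.none :=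
  certB0 (fam := true) (s1 := true) (s2 := true) (a := 2) (b := 0) (c := 2) (cn := .pp) (n1 := ndB1q2a) (n2 := ndB1q0) (pc := pcB2) (cut := Cut.none) (xt := Ext.none) (P1 := 0) (W1 := 536870912) (P2 := 0) (W2 := 536870912) (P3 := 536870912) (W3 := 50465866) (N0 := 3) (En := eng) (mo := mog) (C1 := cd1q2a) (C2 := cd1q0) (C3 := pd2)
    rfl k0_pp_202_a

noncomputable def f_pp_202_b : ℕ → ℕ → ℕ → ℕ → Bool := onCell 1239849684 370763052 0 536870912 536870912 50465866
    (rowB 3 eng mog cd1q2b cd1q0 pd2 0 true true true .pp 2 0 2 (qsf 1239849684 370763052 0 536870912 2) ndB1q2b ndB1q0 pcB2 Cut.none Ext.none)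

def k0_pp_202_b : ∃ t, chk3 f_pp_202_b t 1 1 1 = true :=
  ⟨(l 5), by decide +kernel⟩

theorem c_pp_202_b : CertB 1239849684 370763052 0 536870912 536870912 50465866 3 eng mog cd1q2b cd1q0 pd2 true true true .pp 2 0 2
    ndB1q2b ndB1q0 pcB2 Cut.none Ext.none :=
  certB0 (fam := true) (s1 := true) (s2 := true) (a := 2) (b := 0) (c := 2) (cn := .pp) (n1 := ndB1q2b) (n2 := ndB1q0) (pc := pcB2) (cut := Cut.none) (xt := Ext.none) (P1 := 1239849684) (W1 := 370763052) (P2 := 0) (W2 := 536870912) (P3 := 536870912) (W3 := 50465866) (N0 := 3) (En := eng) (mo := mog) (C1 := cd1q2b) (C2 := cd1q0) (C3 := pd2)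
    rfl k0_pp_202_b

noncomputable def f_pp_203_a : ℕ → ℕ → ℕ → ℕ → Bool := onCell 0 536870912 0 536870912 536870912 50465866
    (rowB 3 eng mog cd1q2a cd1q0 pd3 0 true true true .up 2 0 3 (qsf 0 536870912 0 536870912 3) ndB1q2a ndB1q0 pcB3 Cut.none Ext.none)

def k0_pp_203_a : ∃ t, chk3 f_pp_203_a t 1 1 1 = true :=
  ⟨(l 5), by decide +kernel⟩

theorem c_pp_203_a : CertB 0 536870912 0 536870912 536870912 50465866 3 eng mog cd1q2a cd1q0 pd3 true true true .up 2 0 3
    ndB1q2a ndB1q0 pcB3 Cut.none Ext.none :=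
  certB0 (fam := true) (s1 := true) (s2 := true) (a := 2) (b := 0) (c := 3) (cn := .up) (n1 := ndB1q2a) (n2 := ndB1q0) (pc := pcB3) (cut := Cut.none) (xt := Ext.none) (P1 := 0) (W1 := 536870912) (P2 := 0) (W2 := 536870912) (P3 := 536870912) (W3 := 50465866) (N0 := 3) (En := eng) (mo := mog) (C1 := cd1q2a) (C2 := cd1q0) (C3 := pd3)
    rfl k0_pp_203_a

noncomputable def f_pp_203_b : ℕ → ℕ → ℕ → ℕ → Bool := onCell 1239849684 370763052 0 536870912 536870912 50465866
    (rowB 3 eng mog cd1q2b cd1q0 pd3 0 true true true .up 2 0 3 (qsf 1239849684 370763052 0 536870912 3) ndB1q2b ndB1q0 pcB3 Cut.none Ext.none)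

def k0_pp_203_b : ∃ t, chk3 f_pp_203_b t 1 1 1 = true :=
  ⟨(l 5), by decide +kernel⟩

theorem c_pp_203_b : CertB 1239849684 370763052 0 536870912 536870912 50465866 3 eng mog cd1q2b cd1q0 pd3 true true true .up 2 0 3
    ndB1q2b ndB1q0 pcB3 Cut.none Ext.none :=
  certB0 (fam := true) (s1 := true) (s2 := true) (a := 2) (b := 0) (c := 3) (cn := .up) (n1 := ndB1q2b) (n2 := ndB1q0) (pc := pcB3) (cut := Cut.none) (xt := Ext.none) (P1 := 1239849684) (W1 := 370763052) (P2 := 0) (W2 := 536870912) (P3 := 536870912) (W3 := 50465866) (N0 := 3) (En := eng) (mo := mog) (C1 := cd1q2b) (C2 := cd1q0) (C3 := pd3)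
    rfl k0_pp_203_b

noncomputable def f_pp_213_a : ℕ → ℕ → ℕ → ℕ → Bool := onCell 0 536870912 536870912 536870912 536870912 50465866
    (rowB 3 eng mog cd1q2a cd1q1 pd3 0 true true true .pnn 2 1 3 (qsf 0 536870912 536870912 536870912 3) ndB1q2a ndB1q1 pcB3 Cut.none Ext.none)

def k0_pp_213_a : ∃ t, chk3 f_pp_213_a t 1 1 1 = true :=
  ⟨(l 5), by decide +kernel⟩

theorem c_pp_213_a : CertB 0 536870912 536870912 536870912 536870912 50465866 3 eng mog cd1q2a cd1q1 pd3 true true true .pnn 2 1 3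
    ndB1q2a ndB1q1 pcB3 Cut.none Ext.none :=
  certB0 (fam := true) (s1 := true) (s2 := true) (a := 2) (b := 1) (c := 3) (cn := .pnn) (n1 := ndB1q2a) (n2 := ndB1q1) (pc := pcB3) (cut := Cut.none) (xt := Ext.none) (P1 := 0) (W1 := 536870912) (P2 := 536870912) (W2 := 536870912) (P3 := 536870912) (W3 := 50465866) (N0 := 3) (En := eng) (mo := mog) (C1 := cd1q2a) (C2 := cd1q1) (C3 := pd3)
    rfl k0_pp_213_a

noncomputable def f_pp_213_b : ℕ → ℕ → ℕ → ℕ → Bool := onCell 1239849684 370763052 536870912 536870912 536870912 50465866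
    (rowB 3 eng mog cd1q2b cd1q1 pd3 0 true true true .pnn 2 1 3 (qsf 1239849684 370763052 536870912 536870912 3) ndB1q2b ndB1q1 pcB3 Cut.none Ext.none)

def k0_pp_213_b : ∃ t, chk3 f_pp_213_b t 1 1 1 = true :=
  ⟨(l 5), by decide +kernel⟩

theorem c_pp_213_b : CertB 1239849684 370763052 536870912 536870912 536870912 50465866 3 eng mog cd1q2b cd1q1 pd3 true true true .pnn 2 1 3
    ndB1q2b ndB1q1 pcB3 Cut.none Ext.none :=
  certB0 (fam := true) (s1 := true) (s2 := true) (a := 2) (b := 1) (c := 3) (cn := .pnn) (n1 := ndB1q2b) (n2 := ndB1q1) (pc := pcB3) (cut := Cut.none) (xt := Ext.none) (P1 := 1239849684) (W1 := 370763052) (P2 := 536870912) (W2 := 536870912) (P3 := 536870912) (W3 := 50465866) (N0 := 3) (En := eng) (mo := mog) (C1 := cd1q2b) (C2 := cd1q1) (C3 := pd3)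
    rfl k0_pp_213_b

noncomputable def f_pp_303 : ℕ → ℕ → ℕ → ℕ → Bool := onCell 1610612736 536870912 0 536870912 536870912 50465866
    (rowB 3 eng mog cd1q3 cd1q0 pd3 0 true true true .npn 3 0 3 (qsf 1610612736 536870912 0 536870912 3) ndB1q3 ndB1q0 pcB3 Cut.none Ext.none)

def k0_pp_303 : ∃ t, chk3 f_pp_303 t 1 1 1 = true :=
  ⟨(l 5), by decide +kernel⟩

theorem c_pp_303 : CertB 1610612736 536870912 0 536870912 536870912 50465866 3 eng mog cd1q3 cd1q0 pd3 true true true .npn 3 0 3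
    ndB1q3 ndB1q0 pcB3 Cut.none Ext.none :=
  certB0 (fam := true) (s1 := true) (s2 := true) (a := 3) (b := 0) (c := 3) (cn := .npn) (n1 := ndB1q3) (n2 := ndB1q0) (pc := pcB3) (cut := Cut.none) (xt := Ext.none) (P1 := 1610612736) (W1 := 536870912) (P2 := 0) (W2 := 536870912) (P3 := 536870912) (W3 := 50465866) (N0 := 3) (En := eng) (mo := mog) (C1 := cd1q3) (C2 := cd1q0) (C3 := pd3)
    rfl k0_pp_303

noncomputable def f_pp_313 : ℕ → ℕ → ℕ → ℕ → Bool := onCell 1610612736 536870912 536870912 536870912 536870912 50465866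
    (rowB 3 eng mog cd1q3 cd1q1 pd3 0 true true true .dn 3 1 3 (qsf 1610612736 536870912 536870912 536870912 3) ndB1q3 ndB1q1 pcB3 Cut.none Ext.none)

def k0_pp_313 : ∃ t, chk3 f_pp_313 t 1 1 1 = true :=
  ⟨(l 4), by decide +kernel⟩

theorem c_pp_313 : CertB 1610612736 536870912 536870912 536870912 536870912 50465866 3 eng mog cd1q3 cd1q1 pd3 true true true .dn 3 1 3
    ndB1q3 ndB1q1 pcB3 Cut.none Ext.none :=
  certB0 (fam := true) (s1 := true) (s2 := true) (a := 3) (b := 1) (c := 3) (cn := .dn) (n1 := ndB1q3) (n2 := ndB1q1) (pc := pcB3) (cut := Cut.none) (xt := Ext.none) (P1 := 1610612736) (W1 := 536870912) (P2 := 536870912) (W2 := 536870912) (P3 := 536870912) (W3 := 50465866) (N0 := 3) (En := eng) (mo := mog) (C1 := cd1q3) (C2 := cd1q1) (C3 := pd3)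
    rfl k0_pp_313

noncomputable def f_pm_001 : ℕ → ℕ → ℕ → ℕ → Bool := onCell 0 536870912 0 536870912 536870912 50465866
    (rowB 3 eng mog cd1q0 cd1q0 pd1 0 true true false .up 0 0 1 (qsf 0 536870912 0 536870912 1) ndB1q0 ndB1q0 pcB1 Cut.none Ext.none)

def k0_pm_001 : ∃ t, chk3 f_pm_001 t 1 1 1 = true :=
  ⟨(l 3), by decide +kernel⟩

theorem c_pm_001 : CertB 0 536870912 0 536870912 536870912 50465866 3 eng mog cd1q0 cd1q0 pd1 true true false .up 0 0 1
    ndB1q0 ndB1q0 pcB1 Cut.none Ext.none :=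
  certB0 (fam := true) (s1 := true) (s2 := false) (a := 0) (b := 0) (c := 1) (cn := .up) (n1 := ndB1q0) (n2 := ndB1q0) (pc := pcB1) (cut := Cut.none) (xt := Ext.none) (P1 := 0) (W1 := 536870912) (P2 := 0) (W2 := 536870912) (P3 := 536870912) (W3 := 50465866) (N0 := 3) (En := eng) (mo := mog) (C1 := cd1q0) (C2 := cd1q0) (C3 := pd1)
    rfl k0_pm_001

noncomputable def f_pm_011 : ℕ → ℕ → ℕ → ℕ → Bool := onCell 0 536870912 536870912 536870912 536870912 50465866
    (rowB 3 eng mog cd1q0 cd1q1 pd1 1 true true false .pnn 0 1 1 (qsf 0 536870912 536870912 536870912 1) ndB1q0 ndB1q1 pcB1 Cut.none Ext.none)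

def k0_pm_011 : ∃ t, chk3 f_pm_011 t 1 1 1 = true :=
  ⟨(b (l 3) (l 3)), by decide +kernel⟩

theorem c_pm_011 : CertB 0 536870912 536870912 536870912 536870912 50465866 3 eng mog cd1q0 cd1q1 pd1 true true false .pnn 0 1 1
    ndB1q0 ndB1q1 pcB1 Cut.none Ext.none :=
  certB1 (fam := true) (s1 := true) (s2 := false) (a := 0) (b := 1) (c := 1) (cn := .pnn) (n1 := ndB1q0) (n2 := ndB1q1) (pc := pcB1) (cut := Cut.none) (xt := Ext.none) (P1 := 0) (W1 := 536870912) (P2 := 536870912) (W2 := 536870912) (P3 := 536870912) (W3 := 50465866) (N0 := 3) (En := eng) (mo := mog) (C1 := cd1q0) (C2 := cd1q1) (C3 := pd1)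
    rfl (fun _ => rfl) k0_pm_011

end Pool.Agent.Strip051.G.I5000_5470.Tab.C.BA11

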