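import Pool.Agent.Strip051.G.I5000_5470.Tab

/-! # Certificates B10 (generated) -/

set_option linter.all false
set_option maxRecDepth 100000

namespace Pool.Agent.Strip051.G.I5000_5470.Tab.C.BA24

open Pool.Agent.Strip051.PB Pool.Agent.Strip051.PB.T
open Pool.Agent.Strip051.G.I5000_5470.Tab

noncomputable def cut_pm_012 : Cut := Cut.of [[⟨0, 0, 0, 67108864⟩, ⟨1, 1, 0, 67108864⟩, ⟨2, 1, 0, 67108864⟩]]

noncomputable def f_pm_012 : ℕ → ℕ → ℕ → ℕ → Bool := onCell 1073741824 536870912 536870912 536870912 536870912 50465866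
    (rowB 3 eng mog cd2q0 cd4q1 pd2 2 true true false .pnp 0 1 2 (qsf 0 536870912 536870912 536870912 2) ndB2q0 ndB4q1 pcB2 cut_pm_012 Ext.none)

def k0_pm_012 : ∃ t, chk3 f_pm_012 t 2 2 1 = true :=
  ⟨(a (b (a (a (l 3) (a (l 3) (b (l 16492664) (l 16486752)))) (a (b (b (l 2) (l 16491320)) (l 16494984)) (b (l 2) (l 16518600)))) (a (a (l 3) (b (l 175724531255) (l 162302767927))) (a (b (a (l 16498440) (l 16505296)) (l 16497496)) (b (l 16508440) (l 16491184))))) (b (a (a (a (b (l 2) (l 16536104)) (l 2)) (l 2)) (l 2)) (a (a (a (l 16505896) (a (l 16514328) (a (l 16522264) (b (l 16547848) (l 16516200))))) (l 16535568)) (l 16554904)))), by decide +kernel⟩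

def k1_pm_012 : ∃ t, chk3 f_pm_012 t 2 3 1 = true :=
  ⟨(a (a (b (a (b (l 3) (l 3)) (b (a (l 16534416) (l 16511464)) (a (l 16664512) (b (l 16524112) (l 16537608))))) (a (a (b (l 3) (b (b (l 3) (a (l 3) (l 16744168))) (l 6))) (b (b (l 16617488) (a (l 16648608) (l 16628296))) (a (b (b (l 16666664) (l 16700248)) (l 6)) (b (b (l 16644872) (l 16657088)) (b (l 16690496) (l 6)))))) (b (a (b (l 16580920) (a (l 16608232) (l 16590192))) (b (l 16548608) (l 16562824))) (b (a (b (l 16635040) (l 16708328)) (l 16578752)) (a (b (l 16677536) (b (l 16644224) (l 6))) (b (l 16592064) (l 16643640))))))) (b (a (b (l 16637264) (a (l 16508288) (l 16486360))) (b (l 16470632) (l 16458408))) (b (a (b (l 16505336) (l 16512728)) (b (l 16455616) (l 16455208))) (a (b (a (l 16540504) (l 16504640)) (b (l 16531040) (a (l 16558328) (l 16517232)))) (b (l 16456360) (a (l 16476968) (l 16442416))))))) (a (b (a (a (b (l 16465024) (l 16439184)) (a (l 16535576) (a (l 16453720) (l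 16543264)))) (b (l 16476968) (l 16430944))) (a (a (b (l 16424128) (b (l 16415456) (l 16411160))) (a (b (l 16412552) (b (l 16398224) (l 16389920))) (b (l 16411072) (b (l 16391824) (a (l 16380408) (l 16376288)))))) (b (l 16389928) (b (l 16364432) (l 16347968))))) (b (b (l 16484232) (l 16425440)) (b (l 16361704) (b (l 16316160) (l 16289016)))))), by decide +kernel⟩

def k2_pm_012 : ∃ t, chk3 f_pm_012 t 3 1 1 = true :=
  ⟨(b (a (b (l 2) (a (l 16603360) (l 2))) (l 2)) (a (b (a (l 16488176) (l 16557208)) (b (a (l 16367160) (l 16421440)) (a (b (l 16296240) (l 16249800)) (l 16305928)))) (a (b (l 16635056) (l 16433064)) (b (l 2) (l 16516280))))), by decide +kernel⟩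

theorem s3_pm_012 : ∃ t, chk3 f_pm_012 t 2 1 1 = true := ex3_b k0_pm_012 k1_pm_012

theorem s4_pm_012 : ∃ t, chk3 f_pm_012 t 1 1 1 = true := ex3_a s3_pm_012 k2_pm_012

theorem c_pm_012 : CertB 0 536870912 536870912 536870912 536870912 50465866 3 eng mog cd2q0 cd4q1 pd2 true true false .pnp 0 1 2
    ndB2q0 ndB4q1 pcB2 cut_pm_012 Ext.none :=
  certB2 (fam := true) (s1 := true) (s2 := false) (a := 0) (b := 1) (c := 2) (cn := .pnp) (n1 := ndB2q0) (n2 := ndB4q1) (pc := pcB2) (cut := cut_pm_012) (xt := Ext.none) (P1 := 0) (W1 := 536870912) (P2 := 536870912) (W2 := 536870912) (P3 := 536870912) (W3 := 50465866) (N0 := 3) (En := eng) (mo := mog) (C1 := cd2q0) (C2 := cd4q1) (C3 := pd2)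
    rfl (fun _ => rfl) s4_pm_012

noncomputable def f_pm_022 : ℕ → ℕ → ℕ → ℕ → Bool := onCell 0 536870912 1073741824 536870912 536870912 50465866
    (rowB 3 eng mog cd2q0 cd4q2 pd2 1 true true false .pp 0 2 2 (qsf 0 536870912 1073741824 536870912 2) ndB2q0 ndB4q2 pcB2 Cut.none Ext.none)

def k0_pm_022 : ∃ t, chk3 f_pm_022 t 2 2 1 = true :=
  ⟨(b (b (l 3) (b (l 3) (a (b (l 3) (b (a (l 3) (a (l 3) (l 16613200))) (a (a (b (l 3) (l 16531808)) (l 16556096)) (a (l 16578800) (l 16640920))))) (a (b (l 1) (b (l 1) (a (l 201896845063) (l 1)))) (l 1))))) (b (b (b (a (a (c (a (b (l 16591576) (l 16564368)) (b (l 16542648) (l 16526760))) (a (b (b (l 16524640) (l 16516848)) (b (l 16508984) (l 16501472))) (b (l 16539880) (l 16523648)))) (b (a (l 16564248) (l 16585336)) (l 16559760))) (a (a (b (l 16667144) (l 16589752)) (l 1)) (l 1))) (b (b (a (a (a (l 16513704) (l 16512240)) (l 16548064)) (a (l 16588312) (l 1))) (a (a (a (l 16505520) (l 16504712)) (l 16541344))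 (a (l 16582568) (l 1)))) (a (b (a (a (a (l 16513176) (l 16479704)) (l 16497888)) (l 16540232)) (a (a (b (a (l 16527512) (l 16473200)) (c (l 16525648) (a (l 16547888) (l 16473248)))) (b (l 16492200) (l 16486736))) (b (l 16529400) (l 16524208)))) (a (b (l 16576992) (b (l 16571704) (l 16692512))) (l 1))))) (a (a (a (b (a (a (l 16529032) (l 16447968)) (l 16454152)) (a (a (l 16528384) (l 16423160)) (l 16425376))) (l 16451128)) (l 16491208)) (a (a (l 16526048) (l 16547136)) (l 309807857095)))) (a (b (a (a (a (b (l 16406008) (l 16391288)) (l 16605584)) (l 16522104)) (l 16429560)) (a (a (a (l 16374024) (l 16371048)) (a (l 16365808) (l 16357960))) (l 16553680))) (a (l 16443576) (b (l 16526400) (l 16477240)))))), by decide +kernel⟩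

def k1_pm_022 : ∃ t, chk3 f_pm_022 t 2 3 1 = true :=
  ⟨(b (a (a (b (a (b (a (l 16359896) (l 16356192)) (l 16354472)) (b (l 16347160) (l 16342120))) (a (b (l 16359960) (l 16370992)) (l 16352032))) (b (b (l 16550768) (l 16370408)) (l 16549512))) (b (a (b (l 16369232) (l 16308680)) (l 16444224)) (a (l 16410152) (l 16295968)))) (a (b (a (a (b (l 16380824) (l 16380000)) (l 16368384)) (l 16340640)) (a (a (b (l 16376072) (a (b (a (b (l 16378984) (l 16382184)) (l 16376040)) (a (c (l 16459464) (l 16383032)) (l 16396888))) (b (l 16371384) (l 16380816)))) (l 16362008)) (l 16342968))) (b (a (l 16268704) (l 16182808)) (a (l 16289008) (l 16172240))))), by decide +kernel⟩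

def k2_pm_022 : ∃ t, chk3 f_pm_022 t 3 1 1 = true :=
  ⟨(b (b (l 1) (b (l 1) (a (a (l 236256748535) (l 1)) (l 1)))) (b (a (b (a (l 16454936) (l 310344592999)) (a (l 16363704) (l 16441744))) (b (l 1) (l 323766814375))) (b (a (a (l 16283736) (l 16381392)) (l 109018365191)) (a (a (l 16226400) (l 16353728)) (b (l 16527176) (l 16528368)))))), by decide +kernel⟩

theorem s3_pm_022 : ∃ t, chk3 f_pm_022 t 2 1 1 = true := ex3_b k0_pm_022 k1_pm_022

theorem s4_pm_022 : ∃ t, chk3 f_pm_022 t 1 1 1 = true := ex3_a s3_pm_022 k2_pm_022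

theorem c_pm_022 : CertB 0 536870912 1073741824 536870912 536870912 50465866 3 eng mog cd2q0 cd4q2 pd2 true true false .pp 0 2 2
    ndB2q0 ndB4q2 pcB2 Cut.none Ext.none :=
  certB1 (fam := true) (s1 := true) (s2 := false) (a := 0) (b := 2) (c := 2) (cn := .pp) (n1 := ndB2q0) (n2 := ndB4q2) (pc := pcB2) (cut := Cut.none) (xt := Ext.none) (P1 := 0) (W1 := 536870912) (P2 := 1073741824) (W2 := 536870912) (P3 := 536870912) (W3 := 50465866) (N0 := 3) (En := eng) (mo := mog) (C1 := cd2q0) (C2 := cd4q2) (C3 := pd2)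
    rfl (fun _ => rfl) s4_pm_022

noncomputable def f_pm_023 : ℕ → ℕ → ℕ → ℕ → Bool := onCell 1610612736 536870912 1073741824 536870912 536870912 50465866
    (rowB 3 eng mog cd2q0 cd4q2 pd3 2 true true false .up 0 2 3 (qsf 0 536870912 1073741824 536870912 3) ndB2q0 ndB4q2 pcB3 Cut.none Ext.none)

def k0_pm_023 : ∃ t, chk3 f_pm_023 t 1 1 1 = true :=
  ⟨(a (b (a (b (a (l 16548680) (l 16683032)) (a (b (l 16356632) (l 16200136)) (l 16450408))) (b (l 16770344) (l 16659968))) (a (b (a (b (l 16197344) (l 16316536)) (l 16371352)) (b (a (l 16372160) (l 16440328)) (a (b (l 16401952) (a (b (l 16409280) (a (l 16460648) (l 16468776))) (l 16460864))) (b (l 16486064) (l 16535464))))) (b (l 16579352) (b (l 16587160) (b (l 16605752) (l 16609920)))))) (b (a (b (l 2) (a (l 16726088) (l 2))) (l 2)) (a (b (a (l 16690792) (l 16722640)) (b (l 16711624) (a (l 16700160) (l 16747400)))) (b (a (l 16888128) (l 2)) (a (b (l 16761032) (l 16772928)) (a (b (l 16778472) (l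 4)) (l 4))))))), by decide +kernel⟩

theorem c_pm_023 : CertB 0 536870912 1073741824 536870912 536870912 50465866 3 eng mog cd2q0 cd4q2 pd3 true true false .up 0 2 3
    ndB2q0 ndB4q2 pcB3 Cut.none Ext.none :=
  certB2 (fam := true) (s1 := true) (s2 := false) (a := 0) (b := 2) (c := 3) (cn := .up) (n1 := ndB2q0) (n2 := ndB4q2) (pc := pcB3) (cut := Cut.none) (xt := Ext.none) (P1 := 0) (W1 := 536870912) (P2 := 1073741824) (W2 := 536870912) (P3 := 536870912) (W3 := 50465866) (N0 := 3) (En := eng) (mo := mog) (C1 := cd2q0) (C2 := cd4q2) (C3 := pd3)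
    rfl (fun _ => rfl) k0_pm_023

noncomputable def f_pm_033 : ℕ → ℕ → ℕ → ℕ → Bool := onCell 1610612736 536870912 0 1230186008 536870912 50465866
    (rowB 3 eng mog cd2q0 cd4q3 pd3 2 true true false .pnn 0 3 3 (qsf 0 536870912 0 1230186008 3) ndB2q0 ndB4q3 pcB3 Cut.none Ext.none)

def k0_pm_033 : ∃ t, chk3 f_pm_033 t 1 1 1 = true :=
  ⟨(b (a (l 1) (a (l 1) (b (l 4) (l 4)))) (b (a (b (l 1) (a (l 1) (a (l 1) (a (l 1) (l 667364225767))))) (a (a (b (l 1) (a (l 16727904) (l 16739824))) (a (b (l 16756464) (l 16752464)) (b (l 16753480) (l 16756496)))) (a (a (l 16751176) (l 4)) (l 4)))) (a (b (a (l 1) (a (b (a (l 1) (l 593275732839)) (a (l 561063452311) (l 361884352375))) (b (l 304439439767) (l 16701280)))) (a (b (a (l 1) (a (b (l 1) (a (l 552473450391) (l 386043483783))) (l 376916700743))) (a (b (a (l 1) (b (a (l 1) (l 540125342279)) (a (l 520797842631) (l 462815700695)))) (a (b (l 510597118055) (l 480532139447)) (b (l 413960288919) (l 16433776))))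 (b (a (b (a (l 522408550295) (l 16633240)) (l 16586920)) (l 16628192)) (a (l 16519200) (l 16554800))))) (b (a (a (l 16673144) (l 16684848)) (l 16704664)) (b (a (l 16656640) (l 16691208)) (a (l 16601592) (l 16655168)))))) (a (b (a (b (l 16729016) (l 16730160)) (a (l 16752464) (l 16765400))) (b (a (l 16734992) (l 16769256)) (a (l 16714744) (a (l 16743992) (l 16762344))))) (a (b (l 16932992) (b (l 16782240) (l 16781736))) (l 4)))))), by decide +kernel⟩

theorem c_pm_033 : CertB 0 536870912 0 1230186008 536870912 50465866 3 eng mog cd2q0 cd4q3 pd3 true true false .pnn 0 3 3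
    ndB2q0 ndB4q3 pcB3 Cut.none Ext.none :=
  certB2 (fam := true) (s1 := true) (s2 := false) (a := 0) (b := 3) (c := 3) (cn := .pnn) (n1 := ndB2q0) (n2 := ndB4q3) (pc := pcB3) (cut := Cut.none) (xt := Ext.none) (P1 := 0) (W1 := 536870912) (P2 := 0) (W2 := 1230186008) (P3 := 536870912) (W3 := 50465866) (N0 := 3) (En := eng) (mo := mog) (C1 := cd2q0) (C2 := cd4q3) (C3 := pd3)
    rfl (fun _ => rfl) k0_pm_033

noncomputable def f_pm_101 : ℕ → ℕ → ℕ → ℕ → Bool := onCell 536870912 536870912 0 536870912 536870912 50465866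
    (rowB 3 eng mog cd2q1 cd4q0 pd1 2 true true false .npn 1 0 1 (qsf 536870912 536870912 0 536870912 1) ndB2q1 ndB4q0 pcB1 Cut.none Ext.none)

def k0_pm_101 : ∃ t, chk3 f_pm_101 t 1 1 1 = true :=
  ⟨(a (l 3) (b (l 3) (l 3))), by decide +kernel⟩

theorem c_pm_101 : CertB 536870912 536870912 0 536870912 536870912 50465866 3 eng mog cd2q1 cd4q0 pd1 true true false .npn 1 0 1
    ndB2q1 ndB4q0 pcB1 Cut.none Ext.none :=
  certB2 (fam := true) (s1 := true) (s2 := false) (a := 1) (b := 0) (c := 1) (cn := .npn) (n1 := ndB2q1) (n2 := ndB4q0) (pc := pcB1) (cut := Cut.none) (xt := Ext.none) (P1 := 536870912) (W1 := 536870912) (P2 := 0) (W2 := 536870912) (P3 := 536870912) (W3 := 50465866) (N0 := 3) (En := eng) (mo := mog) (C1 := cd2q1) (C2 := cd4q0) (C3 := pd1)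
    rfl (fun _ => rfl) k0_pm_101

noncomputable def f_pm_102 : ℕ → ℕ → ℕ → ℕ → Bool := onCell 1073741824 536870912 0 536870912 536870912 50465866
    (rowB 3 eng mog cd2q1 cd4q0 pd2 2 true true false .npp 1 0 2 (qsf 536870912 536870912 0 536870912 2) ndB2q1 ndB4q0 pcB2 Cut.none Ext.none)

def k0_pm_102 : ∃ t, chk3 f_pm_102 t 1 1 1 = true :=
  ⟨(a (b (a (a (b (b (l 3) (l 3)) (l 3)) (b (a (b (a (b (l 2) (b (l 2) (l 16663152))) (l 2)) (b (a (l 16693056) (l 16665888)) (a (l 16721064) (l 16702912)))) (b (l 2) (b (a (l 16637776) (l 2)) (l 16667656)))) (a (b (a (l 16735104) (l 16732488)) (a (l 16722064) (l 16736280))) (b (a (l 16722992) (l 16708640)) (l 16742472))))) (b (a (b (l 2) (a (a (b (l 2) (l 16628360)) (l 2)) (l 2))) (l 2)) (a (a (a (b (l 16689632) (l 16735584)) (a (b (l 16673640) (l 16727736)) (b (l 16660344) (l 16719280)))) (b (l 16636088) (l 16705352))) (b (b (l 2) (l 16596960)) (l 16660400))))) (a (b (a (l 3) (a (b (a (l 16688792) (l 16715240))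 (l 16662432)) (b (l 16802136) (l 16710960)))) (a (b (l 3) (a (l 3) (l 3))) (b (a (b (l 16636304) (l 16615056)) (a (l 16666104) (l 16687144))) (a (b (l 16586408) (l 16557192)) (b (l 16646848) (l 16619920)))))) (b (a (a (a (l 16746832) (a (l 16753312) (a (l 16755408) (l 16756024)))) (b (l 16746024) (l 16763896))) (b (l 16726560) (l 16780368))) (a (b (a (a (l 16707928) (a (l 16723584) (a (l 16731856) (l 16737936)))) (l 16753368)) (a (a (l 16671664) (a (l 16691024) (a (l 16701992) (l 16710720)))) (l 16728432))) (b (l 16794144) (l 16780616)))))) (b (a (b (l 2) (a (b (l 2) (l 16595776)) (l 2))) (l 2)) (a (b (b (a (l 16679936) (l 16631448)) (l 16789280)) (b (l 16872856) (l 16906024))) (b (a (b (l 2) (l 16797128)) (l 2)) (a (b (l 16965088) (l 17075288)) (b (l 17045768) (l 17214184))))))), by decide +kernel⟩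

theorem c_pm_102 : CertB 536870912 536870912 0 536870912 536870912 50465866 3 eng mog cd2q1 cd4q0 pd2 true true false .npp 1 0 2
    ndB2q1 ndB4q0 pcB2 Cut.none Ext.none :=
  certB2 (fam := true) (s1 := true) (s2 := false) (a := 1) (b := 0) (c := 2) (cn := .npp) (n1 := ndB2q1) (n2 := ndB4q0) (pc := pcB2) (cut := Cut.none) (xt := Ext.none) (P1 := 536870912) (W1 := 536870912) (P2 := 0) (W2 := 536870912) (P3 := 536870912) (W3 := 50465866) (N0 := 3) (En := eng) (mo := mog) (C1 := cd2q1) (C2 := cd4q0) (C3 := pd2)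
    rfl (fun _ => rfl) k0_pm_102

noncomputable def f_pm_112 : ℕ → ℕ → ℕ → ℕ → Bool := onCell 1073741824 536870912 536870912 536870912 536870912 50465866
    (rowB 3 eng mog cd2q1 cd4q1 pd2 2 true true false .dn 1 1 2 (qsf 536870912 536870912 536870912 536870912 2) ndB2q1 ndB4q1 pcB2 Cut.none Ext.none)

def k0_pm_112 : ∃ t, chk3 f_pm_112 t 1 1 1 = true :=
  ⟨(a (b (a (b (a (a (l 3) (a (l 3) (b (l 16494800) (l 16489864)))) (b (a (b (l 16536712) (l 16515920)) (l 16577456)) (a (l 16500216) (l 16532016)))) (a (l 1) (a (l 1) (l 300144355143)))) (b (a (a (a (b (l 16615136) (l 16559168)) (b (a (l 16637248) (a (l 16651144) (l 16663360))) (a (l 16578216) (a (l 16591848) (l 16605208))))) (b (l 16685288) (l 16624352))) (b (l 16747184) (l 16691424))) (a (a (a (l 16760536) (a (l 16516728) (a (l 16524648) (b (l 16554344) (l 1))))) (l 16539848)) (l 16575672)))) (a (l 1) (a (l 1) (b (l 272226993895) (l 1))))) (b (a (b (b (l 16907280) (l 16872416)) (a (l 16679648)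 (l 16845208))) (b (a (b (l 17149408) (l 17149736)) (b (l 17382408) (l 17352024))) (a (l 17064256) (l 17203152)))) (a (b (l 266321536471) (a (l 1) (l 361884276023))) (a (b (l 16777704) (l 16503232)) (b (l 17007176) (l 16579984)))))), by decide +kernel⟩

theorem c_pm_112 : CertB 536870912 536870912 536870912 536870912 536870912 50465866 3 eng mog cd2q1 cd4q1 pd2 true true false .dn 1 1 2
    ndB2q1 ndB4q1 pcB2 Cut.none Ext.none :=
  certB2 (fam := true) (s1 := true) (s2 := false) (a := 1) (b := 1) (c := 2) (cn := .dn) (n1 := ndB2q1) (n2 := ndB4q1) (pc := pcB2) (cut := Cut.none) (xt := Ext.none) (P1 := 536870912) (W1 := 536870912) (P2 := 536870912) (W2 := 536870912) (P3 := 536870912) (W3 := 50465866) (N0 := 3) (En := eng) (mo := mog) (C1 := cd2q1) (C2 := cd4q1) (C3 := pd2)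
    rfl (fun _ => rfl) k0_pm_112

noncomputable def f_pm_113 : ℕ → ℕ → ℕ → ℕ → Bool := onCell 536870912 536870912 1610612736 536870912 536870912 50465866
    (rowB 3 eng mog cd2q1 cd4q1 pd3 1 true true false .nn 1 1 3 (qsf 536870912 536870912 536870912 536870912 3) ndB2q1 ndB4q1 pcB3 Cut.none Ext.none)

def k0_pm_113 : ∃ t, chk3 f_pm_113 t 1 1 1 = true :=
  ⟨(a (b (b (b (a (l 16750536) (l 17106832)) (a (l 16781944) (l 17108384))) (a (l 484358741319) (a (l 17044024) (l 17085144)))) (b (a (l 2) (b (l 17039144) (l 2))) (l 2))) (b (b (b (a (l 17211144) (a (l 17317240) (l 17454160))) (l 17377208)) (b (l 17127000) (l 17064128))) (b (b (l 17011880) (l 16965960)) (b (a (l 16959384) (l 16872984)) (b (l 16870656) (l 4)))))), by decide +kernel⟩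

theorem c_pm_113 : CertB 536870912 536870912 536870912 536870912 536870912 50465866 3 eng mog cd2q1 cd4q1 pd3 true true false .nn 1 1 3
    ndB2q1 ndB4q1 pcB3 Cut.none Ext.none :=
  certB1 (fam := true) (s1 := true) (s2 := false) (a := 1) (b := 1) (c := 3) (cn := .nn) (n1 := ndB2q1) (n2 := ndB4q1) (pc := pcB3) (cut := Cut.none) (xt := Ext.none) (P1 := 536870912) (W1 := 536870912) (P2 := 536870912) (W2 := 536870912) (P3 := 536870912) (W3 := 50465866) (N0 := 3) (En := eng) (mo := mog) (C1 := cd2q1) (C2 := cd4q1) (C3 := pd3)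
    rfl (fun _ => rfl) k0_pm_113

noncomputable def f_pm_123 : ℕ → ℕ → ℕ → ℕ → Bool := onCell 536870912 536870912 1610612736 536870912 536870912 50465866
    (rowB 3 eng mog cd2q1 cd4q2 pd3 1 true true false .npn 1 2 3 (qsf 536870912 536870912 1073741824 536870912 3) ndB2q1 ndB4q2 pcB3 Cut.none Ext.none)

def k0_pm_123 : ∃ t, chk3 f_pm_123 t 1 1 1 = true :=
  ⟨(a (b (b (a (b (l 304439428087) (l 16851824)) (b (l 1) (l 308198936567))) (a (a (l 16726400) (l 16875000)) (l 54795574871))) (b (a (b (l 16755824) (l 16741464)) (b (l 16964912) (l 16867376))) (a (b (l 16754408) (b (l 16789688) (l 4))) (b (l 17000288) (b (l 16770600) (b (l 16770728) (l 4))))))) (b (b (l 1) (a (l 344706019943) (l 1))) (b (a (l 17035344) (l 374233582119)) (b (a (l 16865912) (l 16908872)) (b (a (l 16785288) (l 16844120)) (b (a (l 16768832) (l 16807392)) (a (b (l 16774648) (l 4)) (b (l 16786912) (b (l 16780656) (l 16772512)))))))))), by decide +kernel⟩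

theorem c_pm_123 : CertB 536870912 536870912 1073741824 536870912 536870912 50465866 3 eng mog cd2q1 cd4q2 pd3 true true false .npn 1 2 3
    ndB2q1 ndB4q2 pcB3 Cut.none Ext.none :=
  certB1 (fam := true) (s1 := true) (s2 := false) (a := 1) (b := 2) (c := 3) (cn := .npn) (n1 := ndB2q1) (n2 := ndB4q2) (pc := pcB3) (cut := Cut.none) (xt := Ext.none) (P1 := 536870912) (W1 := 536870912) (P2 := 1073741824) (W2 := 536870912) (P3 := 536870912) (W3 := 50465866) (N0 := 3) (En := eng) (mo := mog) (C1 := cd2q1) (C2 := cd4q2) (C3 := pd3)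
    rfl (fun _ => rfl) k0_pm_123

noncomputable def f_pm_133 : ℕ → ℕ → ℕ → ℕ → Bool := onCell 536870912 536870912 0 1230186008 536870912 50465866
    (rowB 3 eng mog cd2q1 cd4q3 pd3 0 true true false .dn 1 3 3 (qsf 536870912 536870912 0 1230186008 3) ndB2q1 ndB4q3 pcB3 Cut.none Ext.none)

def k0_pm_133 : ∃ t, chk3 f_pm_133 t 1 1 1 = true :=
  ⟨(b (l 2) (b (l 2) (l 4))), by decide +kernel⟩

theorem c_pm_133 : CertB 536870912 536870912 0 1230186008 536870912 50465866 3 eng mog cd2q1 cd4q3 pd3 true true false .dn 1 3 3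
    ndB2q1 ndB4q3 pcB3 Cut.none Ext.none :=
  certB0 (fam := true) (s1 := true) (s2 := false) (a := 1) (b := 3) (c := 3) (cn := .dn) (n1 := ndB2q1) (n2 := ndB4q3) (pc := pcB3) (cut := Cut.none) (xt := Ext.none) (P1 := 536870912) (W1 := 536870912) (P2 := 0) (W2 := 1230186008) (P3 := 536870912) (W3 := 50465866) (N0 := 3) (En := eng) (mo := mog) (C1 := cd2q1) (C2 := cd4q3) (C3 := pd3)
    rfl k0_pm_133

noncomputable def f_pm_202_a : ℕ → ℕ → ℕ → ℕ → Bool := onCell 0 536870912 0 536870912 536870912 50465866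
    (rowB 3 eng mog cd2q2a cd4q0 pd2 0 true true false .pp 2 0 2 (qsf 0 536870912 0 536870912 2) ndB2q2a ndB4q0 pcB2 Cut.none Ext.none)

def k0_pm_202_a : ∃ t, chk3 f_pm_202_a t 1 1 1 = true :=
  ⟨(a (b (b (b (a (b (a (l 16592496) (l 16595576)) (l 16616040)) (b (a (l 16603072) (l 16615224)) (a (l 16622480) (l 16632032)))) (a (b (l 16639888) (l 16665280)) (l 16657888))) (b (a (l 16702720) (l 16934272)) (a (l 16751352) (l 16747064)))) (b (b (a (l 16806896) (l 16803832)) (a (l 16883944) (l 16898672))) (b (a (l 2) (l 17064232)) (l 2)))) (b (b (a (b (b (a (l 16631656) (l 16652632)) (a (l 16644576) (l 16660232))) (a (l 16669976) (b (l 16673984) (l 16691360)))) (b (b (a (b (l 16679744) (l 16678424)) (a (b (l 16704448) (l 16700688)) (a (b (l 16717704) (l 16713688)) (l 16726312)))) (a (l 16680264) (a (l 16699528) (l 16716680)))) (a (b (l 16690272) (l 16707448)) (b (a (l 16707008) (l 16723568)) (l 16732856))))) (a (b (l 16714944) (l 16758360)) (b (a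 (l 16800416) (b (a (l 16749104) (l 16770648)) (l 16783792))) (a (l 16780528) (l 16819784))))) (b (a (b (a (l 16806992) (l 16818400)) (a (l 16914440) (l 16932456))) (b (a (l 16838208) (l 16879384)) (a (l 16962968) (l 17016480)))) (a (b (a (l 16932960) (l 16979008)) (l 2)) (b (a (l 17019784) (l 17037136)) (a (l 16946272) (l 16983320))))))), by decide +kernel⟩

theorem c_pm_202_a : CertB 0 536870912 0 536870912 536870912 50465866 3 eng mog cd2q2a cd4q0 pd2 true true false .pp 2 0 2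
    ndB2q2a ndB4q0 pcB2 Cut.none Ext.none :=
  certB0 (fam := true) (s1 := true) (s2 := false) (a := 2) (b := 0) (c := 2) (cn := .pp) (n1 := ndB2q2a) (n2 := ndB4q0) (pc := pcB2) (cut := Cut.none) (xt := Ext.none) (P1 := 0) (W1 := 536870912) (P2 := 0) (W2 := 536870912) (P3 := 536870912) (W3 := 50465866) (N0 := 3) (En := eng) (mo := mog) (C1 := cd2q2a) (C2 := cd4q0) (C3 := pd2)
    rfl k0_pm_202_a

noncomputable def f_pm_202_b : ℕ → ℕ → ℕ → ℕ → Bool := onCell 1073741824 536870912 0 536870912 536870912 50465866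
    (rowB 3 eng mog cd2q2b cd4q0 pd2 2 true true false .pp 2 0 2 (qsf 1239849684 370763052 0 536870912 2) ndB2q2b ndB4q0 pcB2 Cut.none Ext.none)

def k0_pm_202_b : ∃ t, chk3 f_pm_202_b t 1 1 1 = true :=
  ⟨(a (b (a (l 1) (b (a (b (a (l 377990644135) (b (l 16590672) (l 449931242919))) (l 1)) (b (a (l 16607264) (l 16550464)) (a (l 611529344183) (l 333967245911)))) (l 1))) (l 1)) (b (a (b (a (b (a (l 16509488) (l 16461584)) (l 16625856)) (b (l 16375792) (l 16560008))) (a (b (l 582538749431) (l 1)) (b (l 16684936) (l 16775664)))) (a (b (l 16365832) (l 341483314583)) (b (l 16234120) (l 16641480)))) (b (a (l 1) (a (b (l 16831984) (l 1)) (l 418457965015))) (l 1)))), by decide +kernel⟩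

theorem c_pm_202_b : CertB 1239849684 370763052 0 536870912 536870912 50465866 3 eng mog cd2q2b cd4q0 pd2 true true false .pp 2 0 2
    ndB2q2b ndB4q0 pcB2 Cut.none Ext.none :=
  certB2 (fam := true) (s1 := true) (s2 := false) (a := 2) (b := 0) (c := 2) (cn := .pp) (n1 := ndB2q2b) (n2 := ndB4q0) (pc := pcB2) (cut := Cut.none) (xt := Ext.none) (P1 := 1239849684) (W1 := 370763052) (P2 := 0) (W2 := 536870912) (P3 := 536870912) (W3 := 50465866) (N0 := 3) (En := eng) (mo := mog) (C1 := cd2q2b) (C2 := cd4q0) (C3 := pd2)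
    rfl (fun _ => rfl) k0_pm_202_b

noncomputable def f_pm_203_a : ℕ → ℕ → ℕ → ℕ → Bool := onCell 0 536870912 1610612736 536870912 536870912 50465866
    (rowB 3 eng mog cd2q2a cd4q0 pd3 1 true true false .up 2 0 3 (qsf 0 536870912 0 536870912 3) ndB2q2a ndB4q0 pcB3 Cut.none Ext.none)

def k0_pm_203_a : ∃ t, chk3 f_pm_203_a t 1 1 1 = true :=
  ⟨(b (a (b (b (a (l 4) (b (l 16915432) (l 16868304))) (l 4)) (l 4)) (b (a (b (b (l 16936248) (l 16896152)) (b (l 16865640) (l 4))) (b (a (l 16936712) (l 16944584)) (a (l 16872744) (l 2)))) (a (l 2) (l 2)))) (l 2)), by decide +kernel⟩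

theorem c_pm_203_a : CertB 0 536870912 0 536870912 536870912 50465866 3 eng mog cd2q2a cd4q0 pd3 true true false .up 2 0 3
    ndB2q2a ndB4q0 pcB3 Cut.none Ext.none :=
  certB1 (fam := true) (s1 := true) (s2 := false) (a := 2) (b := 0) (c := 3) (cn := .up) (n1 := ndB2q2a) (n2 := ndB4q0) (pc := pcB3) (cut := Cut.none) (xt := Ext.none) (P1 := 0) (W1 := 536870912) (P2 := 0) (W2 := 536870912) (P3 := 536870912) (W3 := 50465866) (N0 := 3) (En := eng) (mo := mog) (C1 := cd2q2a) (C2 := cd4q0) (C3 := pd3)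
    rfl (fun _ => rfl) k0_pm_203_a

noncomputable def f_pm_203_b : ℕ → ℕ → ℕ → ℕ → Bool := onCell 1239849684 370763052 1610612736 536870912 536870912 50465866
    (rowB 3 eng mog cd2q2b cd4q0 pd3 1 true true false .up 2 0 3 (qsf 1239849684 370763052 0 536870912 3) ndB2q2b ndB4q0 pcB3 Cut.none Ext.none)

def k0_pm_203_b : ∃ t, chk3 f_pm_203_b t 1 1 1 = true :=
  ⟨(b (a (l 4) (b (b (a (l 16484344) (l 16225800)) (l 4)) (l 4))) (l 4)), by decide +kernel⟩

theorem c_pm_203_b : CertB 1239849684 370763052 0 536870912 536870912 50465866 3 eng mog cd2q2b cd4q0 pd3 true true false .up 2 0 3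
    ndB2q2b ndB4q0 pcB3 Cut.none Ext.none :=
  certB1 (fam := true) (s1 := true) (s2 := false) (a := 2) (b := 0) (c := 3) (cn := .up) (n1 := ndB2q2b) (n2 := ndB4q0) (pc := pcB3) (cut := Cut.none) (xt := Ext.none) (P1 := 1239849684) (W1 := 370763052) (P2 := 0) (W2 := 536870912) (P3 := 536870912) (W3 := 50465866) (N0 := 3) (En := eng) (mo := mog) (C1 := cd2q2b) (C2 := cd4q0) (C3 := pd3)
    rfl (fun _ => rfl) k0_pm_203_b

noncomputable def f_pm_213_a : ℕ → ℕ → ℕ → ℕ → Bool := onCell 0 536870912 1610612736 536870912 536870912 50465866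
    (rowB 3 eng mog cd2q2a cd4q1 pd3 1 true true false .pnn 2 1 3 (qsf 0 536870912 536870912 536870912 3) ndB2q2a ndB4q1 pcB3 Cut.none Ext.none)

def k0_pm_213_a : ∃ t, chk3 f_pm_213_a t 1 1 1 = true :=
  ⟨(b (a (b (b (l 1) (l 4)) (l 4)) (b (a (b (l 1) (a (l 4) (l 16850440))) (b (a (l 16916504) (l 16937200)) (a (l 16875136) (l 16895080)))) (a (l 4) (b (l 16846576) (l 4))))) (l 4)), by decide +kernel⟩

theorem c_pm_213_a : CertB 0 536870912 536870912 536870912 536870912 50465866 3 eng mog cd2q2a cd4q1 pd3 true true false .pnn 2 1 3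
    ndB2q2a ndB4q1 pcB3 Cut.none Ext.none :=
  certB1 (fam := true) (s1 := true) (s2 := false) (a := 2) (b := 1) (c := 3) (cn := .pnn) (n1 := ndB2q2a) (n2 := ndB4q1) (pc := pcB3) (cut := Cut.none) (xt := Ext.none) (P1 := 0) (W1 := 536870912) (P2 := 536870912) (W2 := 536870912) (P3 := 536870912) (W3 := 50465866) (N0 := 3) (En := eng) (mo := mog) (C1 := cd2q2a) (C2 := cd4q1) (C3 := pd3)
    rfl (fun _ => rfl) k0_pm_213_a

noncomputable def f_pm_213_b : ℕ → ℕ → ℕ → ℕ → Bool := onCell 1239849684 370763052 536870912 536870912 536870912 50465866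
    (rowB 3 eng mog cd2q2b cd4q1 pd3 0 true true false .pnn 2 1 3 (qsf 1239849684 370763052 536870912 536870912 3) ndB2q2b ndB4q1 pcB3 Cut.none Ext.none)

def k0_pm_213_b : ∃ t, chk3 f_pm_213_b t 1 1 1 = true :=
  ⟨(l 4), by decide +kernel⟩

theorem c_pm_213_b : CertB 1239849684 370763052 536870912 536870912 536870912 50465866 3 eng mog cd2q2b cd4q1 pd3 true true false .pnn 2 1 3
    ndB2q2b ndB4q1 pcB3 Cut.none Ext.none :=
  certB0 (fam := true) (s1 := true) (s2 := false) (a := 2) (b := 1) (c := 3) (cn := .pnn) (n1 := ndB2q2b) (n2 := ndB4q1) (pc := pcB3) (cut := Cut.none) (xt := Ext.none) (P1 := 1239849684) (W1 := 370763052) (P2 := 536870912) (W2 := 536870912) (P3 := 536870912) (W3 := 50465866) (N0 := 3) (En := eng) (mo := mog) (C1 := cd2q2b) (C2 := cd4q1) (C3 := pd3)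
    rfl k0_pm_213_b

noncomputable def f_pm_303 : ℕ → ℕ → ℕ → ℕ → Bool := onCell 1610612736 536870912 0 536870912 536870912 50465866
    (rowB 3 eng mog cd2q3 cd4q0 pd3 2 true true false .npn 3 0 3 (qsf 1610612736 536870912 0 536870912 3) ndB2q3 ndB4q0 pcB3 Cut.none Ext.none)

def k0_pm_303 : ∃ t, chk3 f_pm_303 t 1 1 1 = true :=
  ⟨(a (a (b (b (a (l 16188712) (l 16425760)) (l 503618405367)) (l 1)) (l 4)) (l 4)), by decide +kernel⟩

theorem c_pm_303 : CertB 1610612736 536870912 0 536870912 536870912 50465866 3 eng mog cd2q3 cd4q0 pd3 true true false .npn 3 0 3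
    ndB2q3 ndB4q0 pcB3 Cut.none Ext.none :=
  certB2 (fam := true) (s1 := true) (s2 := false) (a := 3) (b := 0) (c := 3) (cn := .npn) (n1 := ndB2q3) (n2 := ndB4q0) (pc := pcB3) (cut := Cut.none) (xt := Ext.none) (P1 := 1610612736) (W1 := 536870912) (P2 := 0) (W2 := 536870912) (P3 := 536870912) (W3 := 50465866) (N0 := 3) (En := eng) (mo := mog) (C1 := cd2q3) (C2 := cd4q0) (C3 := pd3)
    rfl (fun _ => rfl) k0_pm_303

noncomputable def f_pm_313 : ℕ → ℕ → ℕ → ℕ → Bool := onCell 1610612736 536870912 536870912 536870912 536870912 50465866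
    (rowB 3 eng mog cd2q3 cd4q1 pd3 0 true true false .dn 3 1 3 (qsf 1610612736 536870912 536870912 536870912 3) ndB2q3 ndB4q1 pcB3 Cut.none Ext.none)

def k0_pm_313 : ∃ t, chk3 f_pm_313 t 1 1 1 = true :=
  ⟨(l 4), by decide +kernel⟩

theorem c_pm_313 : CertB 1610612736 536870912 536870912 536870912 536870912 50465866 3 eng mog cd2q3 cd4q1 pd3 true true false .dn 3 1 3
    ndB2q3 ndB4q1 pcB3 Cut.none Ext.none :=
  certB0 (fam := true) (s1 := true) (s2 := false) (a := 3) (b := 1) (c := 3) (cn := .dn) (n1 := ndB2q3) (n2 := ndB4q1) (pc := pcB3) (cut := Cut.none) (xt := Ext.none) (P1 := 1610612736) (W1 := 536870912) (P2 := 536870912) (W2 := 536870912) (P3 := 536870912) (W3 := 50465866) (N0 := 3) (En := eng) (mo := mog) (C1 := cd2q3) (C2 := cd4q1) (C3 := pd3)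
    rfl k0_pm_313

noncomputable def f_mm_001 : ℕ → ℕ → ℕ → ℕ → Bool := onCell 0 536870912 0 536870912 536870912 50465866
    (rowB 3 eng mog cd2q0 cd4q0 pd1 0 true false false .up 0 0 1 (qsf 0 536870912 0 536870912 1) ndB2q0 ndB4q0 pcB1 Cut.none Ext.none)

def k0_mm_001 : ∃ t, chk3 f_mm_001 t 1 1 1 = true :=
  ⟨(l 4), by decide +kernel⟩

theorem c_mm_001 : CertB 0 536870912 0 536870912 536870912 50465866 3 eng mog cd2q0 cd4q0 pd1 true false false .up 0 0 1
    ndB2q0 ndB4q0 pcB1 Cut.none Ext.none :=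
  certB0 (fam := true) (s1 := false) (s2 := false) (a := 0) (b := 0) (c := 1) (cn := .up) (n1 := ndB2q0) (n2 := ndB4q0) (pc := pcB1) (cut := Cut.none) (xt := Ext.none) (P1 := 0) (W1 := 536870912) (P2 := 0) (W2 := 536870912) (P3 := 536870912) (W3 := 50465866) (N0 := 3) (En := eng) (mo := mog) (C1 := cd2q0) (C2 := cd4q0) (C3 := pd1)
    rfl k0_mm_001

noncomputable def f_mm_011 : ℕ → ℕ → ℕ → ℕ → Bool := onCell 0 536870912 536870912 536870912 536870912 50465866
    (rowB 3 eng mog cd2q0 cd4q1 pd1 0 true false false .pnn 0 1 1 (qsf 0 536870912 536870912 536870912 1) ndB2q0 ndB4q1 pcB1 Cut.none Ext.none)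

def k0_mm_011 : ∃ t, chk3 f_mm_011 t 1 1 1 = true :=
  ⟨(l 4), by decide +kernel⟩

theorem c_mm_011 : CertB 0 536870912 536870912 536870912 536870912 50465866 3 eng mog cd2q0 cd4q1 pd1 true false false .pnn 0 1 1
    ndB2q0 ndB4q1 pcB1 Cut.none Ext.none :=
  certB0 (fam := true) (s1 := false) (s2 := false) (a := 0) (b := 1) (c := 1) (cn := .pnn) (n1 := ndB2q0) (n2 := ndB4q1) (pc := pcB1) (cut := Cut.none) (xt := Ext.none) (P1 := 0) (W1 := 536870912) (P2 := 536870912) (W2 := 536870912) (P3 := 536870912) (W3 := 50465866) (N0 := 3) (En := eng) (mo := mog) (C1 := cd2q0) (C2 := cd4q1) (C3 := pd1)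
    rfl k0_mm_011

noncomputable def f_mm_012 : ℕ → ℕ → ℕ → ℕ → Bool := onCell 0 536870912 536870912 536870912 536870912 50465866
    (rowB 3 eng mog cd2q0 cd4q1 pd2 0 true false false .pnp 0 1 2 (qsf 0 536870912 536870912 536870912 2) ndB2q0 ndB4q1 pcB2 Cut.none Ext.none)

def k0_mm_012 : ∃ t, chk3 f_mm_012 t 1 1 1 = true :=
  ⟨(l 4), by decide +kernel⟩

theorem c_mm_012 : CertB 0 536870912 536870912 536870912 536870912 50465866 3 eng mog cd2q0 cd4q1 pd2 true false false .pnp 0 1 2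
    ndB2q0 ndB4q1 pcB2 Cut.none Ext.none :=
  certB0 (fam := true) (s1 := false) (s2 := false) (a := 0) (b := 1) (c := 2) (cn := .pnp) (n1 := ndB2q0) (n2 := ndB4q1) (pc := pcB2) (cut := Cut.none) (xt := Ext.none) (P1 := 0) (W1 := 536870912) (P2 := 536870912) (W2 := 536870912) (P3 := 536870912) (W3 := 50465866) (N0 := 3) (En := eng) (mo := mog) (C1 := cd2q0) (C2 := cd4q1) (C3 := pd2)
    rfl k0_mm_012

noncomputable def f_mm_022 : ℕ → ℕ → ℕ → ℕ → Bool := onCell 0 536870912 1073741824 536870912 536870912 50465866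
    (rowB 3 eng mog cd2q0 cd4q2 pd2 0 true false false .pp 0 2 2 (qsf 0 536870912 1073741824 536870912 2) ndB2q0 ndB4q2 pcB2 Cut.none Ext.none)

def k0_mm_022 : ∃ t, chk3 f_mm_022 t 1 1 1 = true :=
  ⟨(l 4), by decide +kernel⟩

theorem c_mm_022 : CertB 0 536870912 1073741824 536870912 536870912 50465866 3 eng mog cd2q0 cd4q2 pd2 true false false .pp 0 2 2
    ndB2q0 ndB4q2 pcB2 Cut.none Ext.none :=
  certB0 (fam := true) (s1 := false) (s2 := false) (a := 0) (b := 2) (c := 2) (cn := .pp) (n1 := ndB2q0) (n2 := ndB4q2) (pc := pcB2) (cut := Cut.none) (xt := Ext.none) (P1 := 0) (W1 := 536870912) (P2 := 1073741824) (W2 := 536870912) (P3 := 536870912) (W3 := 50465866) (N0 := 3) (En := eng) (mo := mog) (C1 := cd2q0) (C2 := cd4q2) (C3 := pd2)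
    rfl k0_mm_022

noncomputable def f_mm_023 : ℕ → ℕ → ℕ → ℕ → Bool := onCell 0 536870912 1073741824 536870912 536870912 50465866
    (rowB 3 eng mog cd2q0 cd4q2 pd3 0 true false false .up 0 2 3 (qsf 0 536870912 1073741824 536870912 3) ndB2q0 ndB4q2 pcB3 Cut.none Ext.none)

def k0_mm_023 : ∃ t, chk3 f_mm_023 t 1 1 1 = true :=
  ⟨(l 4), by decide +kernel⟩

theorem c_mm_023 : CertB 0 536870912 1073741824 536870912 536870912 50465866 3 eng mog cd2q0 cd4q2 pd3 true false false .up 0 2 3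
    ndB2q0 ndB4q2 pcB3 Cut.none Ext.none :=
  certB0 (fam := true) (s1 := false) (s2 := false) (a := 0) (b := 2) (c := 3) (cn := .up) (n1 := ndB2q0) (n2 := ndB4q2) (pc := pcB3) (cut := Cut.none) (xt := Ext.none) (P1 := 0) (W1 := 536870912) (P2 := 1073741824) (W2 := 536870912) (P3 := 536870912) (W3 := 50465866) (N0 := 3) (En := eng) (mo := mog) (C1 := cd2q0) (C2 := cd4q2) (C3 := pd3)
    rfl k0_mm_023

noncomputable def f_mm_033 : ℕ → ℕ → ℕ → ℕ → Bool := onCell 0 536870912 0 1230186008 536870912 50465866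
    (rowB 3 eng mog cd2q0 cd4q3 pd3 0 true false false .pnn 0 3 3 (qsf 0 536870912 0 1230186008 3) ndB2q0 ndB4q3 pcB3 Cut.none Ext.none)

def k0_mm_033 : ∃ t, chk3 f_mm_033 t 1 1 1 = true :=
  ⟨(l 5), by decide +kernel⟩

theorem c_mm_033 : CertB 0 536870912 0 1230186008 536870912 50465866 3 eng mog cd2q0 cd4q3 pd3 true false false .pnn 0 3 3
    ndB2q0 ndB4q3 pcB3 Cut.none Ext.none :=
  certB0 (fam := true) (s1 := false) (s2 := false) (a := 0) (b := 3) (c := 3) (cn := .pnn) (n1 := ndB2q0) (n2 := ndB4q3) (pc := pcB3) (cut := Cut.none) (xt := Ext.none) (P1 := 0) (W1 := 536870912) (P2 := 0) (W2 := 1230186008) (P3 := 536870912) (W3 := 50465866) (N0 := 3) (En := eng) (mo := mog) (C1 := cd2q0) (C2 := cd4q3) (C3 := pd3)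
    rfl k0_mm_033

noncomputable def f_mm_101 : ℕ → ℕ → ℕ → ℕ → Bool := onCell 536870912 536870912 0 536870912 536870912 50465866
    (rowB 3 eng mog cd2q1 cd4q0 pd1 0 true false false .npn 1 0 1 (qsf 536870912 536870912 0 536870912 1) ndB2q1 ndB4q0 pcB1 Cut.none Ext.none)

def k0_mm_101 : ∃ t, chk3 f_mm_101 t 1 1 1 = true :=
  ⟨(l 4), by decide +kernel⟩

theorem c_mm_101 : CertB 536870912 536870912 0 536870912 536870912 50465866 3 eng mog cd2q1 cd4q0 pd1 true false false .npn 1 0 1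
    ndB2q1 ndB4q0 pcB1 Cut.none Ext.none :=
  certB0 (fam := true) (s1 := false) (s2 := false) (a := 1) (b := 0) (c := 1) (cn := .npn) (n1 := ndB2q1) (n2 := ndB4q0) (pc := pcB1) (cut := Cut.none) (xt := Ext.none) (P1 := 536870912) (W1 := 536870912) (P2 := 0) (W2 := 536870912) (P3 := 536870912) (W3 := 50465866) (N0 := 3) (En := eng) (mo := mog) (C1 := cd2q1) (C2 := cd4q0) (C3 := pd1)
    rfl k0_mm_101

noncomputable def f_mm_102 : ℕ → ℕ → ℕ → ℕ → Bool := onCell 536870912 536870912 0 536870912 536870912 50465866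
    (rowB 3 eng mog cd2q1 cd4q0 pd2 0 true false false .npp 1 0 2 (qsf 536870912 536870912 0 536870912 2) ndB2q1 ndB4q0 pcB2 Cut.none Ext.none)

def k0_mm_102 : ∃ t, chk3 f_mm_102 t 1 1 1 = true :=
  ⟨(l 4), by decide +kernel⟩

theorem c_mm_102 : CertB 536870912 536870912 0 536870912 536870912 50465866 3 eng mog cd2q1 cd4q0 pd2 true false false .npp 1 0 2
    ndB2q1 ndB4q0 pcB2 Cut.none Ext.none :=
  certB0 (fam := true) (s1 := false) (s2 := false) (a := 1) (b := 0) (c := 2) (cn := .npp) (n1 := ndB2q1) (n2 := ndB4q0) (pc := pcB2) (cut := Cut.none) (xt := Ext.none) (P1 := 536870912) (W1 := 536870912) (P2 := 0) (W2 := 536870912) (P3 := 536870912) (W3 := 50465866) (N0 := 3) (En := eng) (mo := mog) (C1 := cd2q1) (C2 := cd4q0) (C3 := pd2)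
    rfl k0_mm_102

noncomputable def f_mm_112 : ℕ → ℕ → ℕ → ℕ → Bool := onCell 536870912 536870912 536870912 536870912 536870912 50465866
    (rowB 3 eng mog cd2q1 cd4q1 pd2 0 true false false .dn 1 1 2 (qsf 536870912 536870912 536870912 536870912 2) ndB2q1 ndB4q1 pcB2 Cut.none Ext.none)

def k0_mm_112 : ∃ t, chk3 f_mm_112 t 1 1 1 = true :=
  ⟨(l 4), by decide +kernel⟩

theorem c_mm_112 : CertB 536870912 536870912 536870912 536870912 536870912 50465866 3 eng mog cd2q1 cd4q1 pd2 true false false .dn 1 1 2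
    ndB2q1 ndB4q1 pcB2 Cut.none Ext.none :=
  certB0 (fam := true) (s1 := false) (s2 := false) (a := 1) (b := 1) (c := 2) (cn := .dn) (n1 := ndB2q1) (n2 := ndB4q1) (pc := pcB2) (cut := Cut.none) (xt := Ext.none) (P1 := 536870912) (W1 := 536870912) (P2 := 536870912) (W2 := 536870912) (P3 := 536870912) (W3 := 50465866) (N0 := 3) (En := eng) (mo := mog) (C1 := cd2q1) (C2 := cd4q1) (C3 := pd2)
    rfl k0_mm_112

noncomputable def f_mm_113 : ℕ → ℕ → ℕ → ℕ → Bool := onCell 536870912 536870912 536870912 536870912 536870912 50465866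
    (rowB 3 eng mog cd2q1 cd4q1 pd3 0 true false false .nn 1 1 3 (qsf 536870912 536870912 536870912 536870912 3) ndB2q1 ndB4q1 pcB3 Cut.none Ext.none)

def k0_mm_113 : ∃ t, chk3 f_mm_113 t 1 1 1 = true :=
  ⟨(l 4), by decide +kernel⟩

theorem c_mm_113 : CertB 536870912 536870912 536870912 536870912 536870912 50465866 3 eng mog cd2q1 cd4q1 pd3 true false false .nn 1 1 3
    ndB2q1 ndB4q1 pcB3 Cut.none Ext.none :=
  certB0 (fam := true) (s1 := false) (s2 := false) (a := 1) (b := 1) (c := 3) (cn := .nn) (n1 := ndB2q1) (n2 := ndB4q1) (pc := pcB3) (cut := Cut.none) (xt := Ext.none) (P1 := 536870912) (W1 := 536870912) (P2 := 536870912) (W2 := 536870912) (P3 := 536870912) (W3 := 50465866) (N0 := 3) (En := eng) (mo := mog) (C1 := cd2q1) (C2 := cd4q1) (C3 := pd3)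
    rfl k0_mm_113

noncomputable def f_mm_123 : ℕ → ℕ → ℕ → ℕ → Bool := onCell 536870912 536870912 1073741824 536870912 536870912 50465866
    (rowB 3 eng mog cd2q1 cd4q2 pd3 0 true false false .npn 1 2 3 (qsf 536870912 536870912 1073741824 536870912 3) ndB2q1 ndB4q2 pcB3 Cut.none Ext.none)

def k0_mm_123 : ∃ t, chk3 f_mm_123 t 1 1 1 = true :=
  ⟨(l 4), by decide +kernel⟩

theorem c_mm_123 : CertB 536870912 536870912 1073741824 536870912 536870912 50465866 3 eng mog cd2q1 cd4q2 pd3 true false false .npn 1 2 3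
    ndB2q1 ndB4q2 pcB3 Cut.none Ext.none :=
  certB0 (fam := true) (s1 := false) (s2 := false) (a := 1) (b := 2) (c := 3) (cn := .npn) (n1 := ndB2q1) (n2 := ndB4q2) (pc := pcB3) (cut := Cut.none) (xt := Ext.none) (P1 := 536870912) (W1 := 536870912) (P2 := 1073741824) (W2 := 536870912) (P3 := 536870912) (W3 := 50465866) (N0 := 3) (En := eng) (mo := mog) (C1 := cd2q1) (C2 := cd4q2) (C3 := pd3)
    rfl k0_mm_123

noncomputable def f_mm_133 : ℕ → ℕ → ℕ → ℕ → Bool := onCell 536870912 536870912 0 1230186008 536870912 50465866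
    (rowB 3 eng mog cd2q1 cd4q3 pd3 0 true false false .dn 1 3 3 (qsf 536870912 536870912 0 1230186008 3) ndB2q1 ndB4q3 pcB3 Cut.none Ext.none)

def k0_mm_133 : ∃ t, chk3 f_mm_133 t 1 1 1 = true :=
  ⟨(l 4), by decide +kernel⟩

theorem c_mm_133 : CertB 536870912 536870912 0 1230186008 536870912 50465866 3 eng mog cd2q1 cd4q3 pd3 true false false .dn 1 3 3
    ndB2q1 ndB4q3 pcB3 Cut.none Ext.none :=
  certB0 (fam := true) (s1 := false) (s2 := false) (a := 1) (b := 3) (c := 3) (cn := .dn) (n1 := ndB2q1) (n2 := ndB4q3) (pc := pcB3) (cut := Cut.none) (xt := Ext.none) (P1 := 536870912) (W1 := 536870912) (P2 := 0) (W2 := 1230186008) (P3 := 536870912) (W3 := 50465866) (N0 := 3) (En := eng) (mo := mog) (C1 := cd2q1) (C2 := cd4q3) (C3 := pd3)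
    rfl k0_mm_133

noncomputable def f_mm_202_a : ℕ → ℕ → ℕ → ℕ → Bool := onCell 0 536870912 0 536870912 536870912 50465866
    (rowB 3 eng mog cd2q2a cd4q0 pd2 0 true false false .pp 2 0 2 (qsf 0 536870912 0 536870912 2) ndB2q2a ndB4q0 pcB2 Cut.none Ext.none)

def k0_mm_202_a : ∃ t, chk3 f_mm_202_a t 1 1 1 = true :=
  ⟨(a (b (b (b (a (b (l 4) (l 4)) (l 4)) (l 4)) (l 4)) (l 4)) (l 4)), by decide +kernel⟩

theorem c_mm_202_a : CertB 0 536870912 0 536870912 536870912 50465866 3 eng mog cd2q2a cd4q0 pd2 true false false .pp 2 0 2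
    ndB2q2a ndB4q0 pcB2 Cut.none Ext.none :=
  certB0 (fam := true) (s1 := false) (s2 := false) (a := 2) (b := 0) (c := 2) (cn := .pp) (n1 := ndB2q2a) (n2 := ndB4q0) (pc := pcB2) (cut := Cut.none) (xt := Ext.none) (P1 := 0) (W1 := 536870912) (P2 := 0) (W2 := 536870912) (P3 := 536870912) (W3 := 50465866) (N0 := 3) (En := eng) (mo := mog) (C1 := cd2q2a) (C2 := cd4q0) (C3 := pd2)
    rfl k0_mm_202_a

noncomputable def f_mm_202_b : ℕ → ℕ → ℕ → ℕ → Bool := onCell 1239849684 370763052 0 536870912 536870912 50465866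
    (rowB 3 eng mog cd2q2b cd4q0 pd2 0 true false false .pp 2 0 2 (qsf 1239849684 370763052 0 536870912 2) ndB2q2b ndB4q0 pcB2 Cut.none Ext.none)

def k0_mm_202_b : ∃ t, chk3 f_mm_202_b t 1 1 1 = true :=
  ⟨(b (a (b (a (b (b (l 4) (l 4)) (l 4)) (l 4)) (l 4)) (l 4)) (l 4)), by decide +kernel⟩

theorem c_mm_202_b : CertB 1239849684 370763052 0 536870912 536870912 50465866 3 eng mog cd2q2b cd4q0 pd2 true false false .pp 2 0 2
    ndB2q2b ndB4q0 pcB2 Cut.none Ext.none :=
  certB0 (fam := true) (s1 := false) (s2 := false) (a := 2) (b := 0) (c := 2) (cn := .pp) (n1 := ndB2q2b) (n2 := ndB4q0) (pc := pcB2) (cut := Cut.none) (xt := Ext.none) (P1 := 1239849684) (W1 := 370763052) (P2 := 0) (W2 := 536870912) (P3 := 536870912) (W3 := 50465866) (N0 := 3) (En := eng) (mo := mog) (C1 := cd2q2b) (C2 := cd4q0) (C3 := pd2)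
    rfl k0_mm_202_b

noncomputable def f_mm_203_a : ℕ → ℕ → ℕ → ℕ → Bool := onCell 0 536870912 1610612736 536870912 536870912 50465866
    (rowB 3 eng mog cd2q2a cd4q0 pd3 1 true false false .up 2 0 3 (qsf 0 536870912 0 536870912 3) ndB2q2a ndB4q0 pcB3 Cut.none Ext.none)

def k0_mm_203_a : ∃ t, chk3 f_mm_203_a t 1 1 1 = true :=
  ⟨(l 4), by decide +kernel⟩

theorem c_mm_203_a : CertB 0 536870912 0 536870912 536870912 50465866 3 eng mog cd2q2a cd4q0 pd3 true false false .up 2 0 3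
    ndB2q2a ndB4q0 pcB3 Cut.none Ext.none :=
  certB1 (fam := true) (s1 := false) (s2 := false) (a := 2) (b := 0) (c := 3) (cn := .up) (n1 := ndB2q2a) (n2 := ndB4q0) (pc := pcB3) (cut := Cut.none) (xt := Ext.none) (P1 := 0) (W1 := 536870912) (P2 := 0) (W2 := 536870912) (P3 := 536870912) (W3 := 50465866) (N0 := 3) (En := eng) (mo := mog) (C1 := cd2q2a) (C2 := cd4q0) (C3 := pd3)
    rfl (fun _ => rfl) k0_mm_203_a

noncomputable def f_mm_203_b : ℕ → ℕ → ℕ → ℕ → Bool := onCell 1239849684 370763052 1610612736 536870912 536870912 50465866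
    (rowB 3 eng mog cd2q2b cd4q0 pd3 1 true false false .up 2 0 3 (qsf 1239849684 370763052 0 536870912 3) ndB2q2b ndB4q0 pcB3 Cut.none Ext.none)

def k0_mm_203_b : ∃ t, chk3 f_mm_203_b t 1 1 1 = true :=
  ⟨(l 4), by decide +kernel⟩

theorem c_mm_203_b : CertB 1239849684 370763052 0 536870912 536870912 50465866 3 eng mog cd2q2b cd4q0 pd3 true false false .up 2 0 3
    ndB2q2b ndB4q0 pcB3 Cut.none Ext.none :=
  certB1 (fam := true) (s1 := false) (s2 := false) (a := 2) (b := 0) (c := 3) (cn := .up) (n1 := ndB2q2b) (n2 := ndB4q0) (pc := pcB3) (cut := Cut.none) (xt := Ext.none) (P1 := 1239849684) (W1 := 370763052) (P2 := 0) (W2 := 536870912) (P3 := 536870912) (W3 := 50465866) (N0 := 3) (En := eng) (mo := mog) (C1 := cd2q2b) (C2 := cd4q0) (C3 := pd3)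
    rfl (fun _ => rfl) k0_mm_203_b

noncomputable def f_mm_213_a : ℕ → ℕ → ℕ → ℕ → Bool := onCell 0 536870912 536870912 536870912 536870912 50465866
    (rowB 3 eng mog cd2q2a cd4q1 pd3 0 true false false .pnn 2 1 3 (qsf 0 536870912 536870912 536870912 3) ndB2q2a ndB4q1 pcB3 Cut.none Ext.none)

def k0_mm_213_a : ∃ t, chk3 f_mm_213_a t 1 1 1 = true :=
  ⟨(l 4), by decide +kernel⟩

theorem c_mm_213_a : CertB 0 536870912 536870912 536870912 536870912 50465866 3 eng mog cd2q2a cd4q1 pd3 true false false .pnn 2 1 3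
    ndB2q2a ndB4q1 pcB3 Cut.none Ext.none :=
  certB0 (fam := true) (s1 := false) (s2 := false) (a := 2) (b := 1) (c := 3) (cn := .pnn) (n1 := ndB2q2a) (n2 := ndB4q1) (pc := pcB3) (cut := Cut.none) (xt := Ext.none) (P1 := 0) (W1 := 536870912) (P2 := 536870912) (W2 := 536870912) (P3 := 536870912) (W3 := 50465866) (N0 := 3) (En := eng) (mo := mog) (C1 := cd2q2a) (C2 := cd4q1) (C3 := pd3)
    rfl k0_mm_213_a

noncomputable def f_mm_213_b : ℕ → ℕ → ℕ → ℕ → Bool := onCell 1239849684 370763052 536870912 536870912 536870912 50465866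
    (rowB 3 eng mog cd2q2b cd4q1 pd3 0 true false false .pnn 2 1 3 (qsf 1239849684 370763052 536870912 536870912 3) ndB2q2b ndB4q1 pcB3 Cut.none Ext.none)

def k0_mm_213_b : ∃ t, chk3 f_mm_213_b t 1 1 1 = true :=
  ⟨(l 4), by decide +kernel⟩

theorem c_mm_213_b : CertB 1239849684 370763052 536870912 536870912 536870912 50465866 3 eng mog cd2q2b cd4q1 pd3 true false false .pnn 2 1 3
    ndB2q2b ndB4q1 pcB3 Cut.none Ext.none :=
  certB0 (fam := true) (s1 := false) (s2 := false) (a := 2) (b := 1) (c := 3) (cn := .pnn) (n1 := ndB2q2b) (n2 := ndB4q1) (pc := pcB3) (cut := Cut.none) (xt := Ext.none) (P1 := 1239849684) (W1 := 370763052) (P2 := 536870912) (W2 := 536870912) (P3 := 536870912) (W3 := 50465866) (N0 := 3) (En := eng) (mo := mog) (C1 := cd2q2b) (C2 := cd4q1) (C3 := pd3)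
    rfl k0_mm_213_b

noncomputable def f_mm_303 : ℕ → ℕ → ℕ → ℕ → Bool := onCell 1610612736 536870912 0 536870912 536870912 50465866
    (rowB 3 eng mog cd2q3 cd4q0 pd3 0 true false false .npn 3 0 3 (qsf 1610612736 536870912 0 536870912 3) ndB2q3 ndB4q0 pcB3 Cut.none Ext.none)

def k0_mm_303 : ∃ t, chk3 f_mm_303 t 1 1 1 = true :=
  ⟨(l 4), by decide +kernel⟩

theorem c_mm_303 : CertB 1610612736 536870912 0 536870912 536870912 50465866 3 eng mog cd2q3 cd4q0 pd3 true false false .npn 3 0 3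
    ndB2q3 ndB4q0 pcB3 Cut.none Ext.none :=
  certB0 (fam := true) (s1 := false) (s2 := false) (a := 3) (b := 0) (c := 3) (cn := .npn) (n1 := ndB2q3) (n2 := ndB4q0) (pc := pcB3) (cut := Cut.none) (xt := Ext.none) (P1 := 1610612736) (W1 := 536870912) (P2 := 0) (W2 := 536870912) (P3 := 536870912) (W3 := 50465866) (N0 := 3) (En := eng) (mo := mog) (C1 := cd2q3) (C2 := cd4q0) (C3 := pd3)
    rfl k0_mm_303

noncomputable def f_mm_313 : ℕ → ℕ → ℕ → ℕ → Bool := onCell 1610612736 536870912 536870912 536870912 536870912 50465866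
    (rowB 3 eng mog cd2q3 cd4q1 pd3 0 true false false .dn 3 1 3 (qsf 1610612736 536870912 536870912 536870912 3) ndB2q3 ndB4q1 pcB3 Cut.none Ext.none)

def k0_mm_313 : ∃ t, chk3 f_mm_313 t 1 1 1 = true :=
  ⟨(l 4), by decide +kernel⟩

theorem c_mm_313 : CertB 1610612736 536870912 536870912 536870912 536870912 50465866 3 eng mog cd2q3 cd4q1 pd3 true false false .dn 3 1 3
    ndB2q3 ndB4q1 pcB3 Cut.none Ext.none :=
  certB0 (fam := true) (s1 := false) (s2 := false) (a := 3) (b := 1) (c := 3) (cn := .dn) (n1 := ndB2q3) (n2 := ndB4q1) (pc := pcB3) (cut := Cut.none) (xt := Ext.none) (P1 := 1610612736) (W1 := 536870912) (P2 := 536870912) (W2 := 536870912) (P3 := 536870912) (W3 := 50465866) (N0 := 3) (En := eng) (mo := mog) (C1 := cd2q3) (C2 := cd4q1) (C3 := pd3)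
    rfl k0_mm_313

end Pool.Agent.Strip051.G.I5000_5470.Tab.C.BA24

namespace Pool.Agent.Strip051.G.I5000_5470.Tab.C.BA25

open Pool.Agent.Strip051.PB Pool.Agent.Strip051.PB.T
open Pool.Agent.Strip051.G.I5000_5470.Tab

noncomputable def f_pp_001 : ℕ → ℕ → ℕ → ℕ → Bool := onCell 0 536870912 0 536870912 536870912 50465866
    (rowB 3 eng mog cd2q0 cd5q0 pd1 0 true true true .up 0 0 1 (qsf 0 536870912 0 536870912 1) ndB2q0 ndB5q0 pcB1 Cut.none Ext.none)

def k0_pp_001 : ∃ t, chk3 f_pp_001 t 1 1 1 = true :=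
  ⟨(l 4), by decide +kernel⟩

theorem c_pp_001 : CertB 0 536870912 0 536870912 536870912 50465866 3 eng mog cd2q0 cd5q0 pd1 true true true .up 0 0 1
    ndB2q0 ndB5q0 pcB1 Cut.none Ext.none :=
  certB0 (fam := true) (s1 := true) (s2 := true) (a := 0) (b := 0) (c := 1) (cn := .up) (n1 := ndB2q0) (n2 := ndB5q0) (pc := pcB1) (cut := Cut.none) (xt := Ext.none) (P1 := 0) (W1 := 536870912) (P2 := 0) (W2 := 536870912) (P3 := 536870912) (W3 := 50465866) (N0 := 3) (En := eng) (mo := mog) (C1 := cd2q0) (C2 := cd5q0) (C3 := pd1)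
    rfl k0_pp_001

noncomputable def f_pp_011 : ℕ → ℕ → ℕ → ℕ → Bool := onCell 0 536870912 536870912 536870912 536870912 50465866
    (rowB 3 eng mog cd2q0 cd5q1 pd1 0 true true true .pnn 0 1 1 (qsf 0 536870912 536870912 536870912 1) ndB2q0 ndB5q1 pcB1 Cut.none Ext.none)

def k0_pp_011 : ∃ t, chk3 f_pp_011 t 1 1 1 = true :=
  ⟨(l 4), by decide +kernel⟩

theorem c_pp_011 : CertB 0 536870912 536870912 536870912 536870912 50465866 3 eng mog cd2q0 cd5q1 pd1 true true true .pnn 0 1 1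
    ndB2q0 ndB5q1 pcB1 Cut.none Ext.none :=
  certB0 (fam := true) (s1 := true) (s2 := true) (a := 0) (b := 1) (c := 1) (cn := .pnn) (n1 := ndB2q0) (n2 := ndB5q1) (pc := pcB1) (cut := Cut.none) (xt := Ext.none) (P1 := 0) (W1 := 536870912) (P2 := 536870912) (W2 := 536870912) (P3 := 536870912) (W3 := 50465866) (N0 := 3) (En := eng) (mo := mog) (C1 := cd2q0) (C2 := cd5q1) (C3 := pd1)
    rfl k0_pp_011

noncomputable def f_pp_012 : ℕ → ℕ → ℕ → ℕ → Bool := onCell 0 536870912 536870912 536870912 536870912 50465866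
    (rowB 3 eng mog cd2q0 cd5q1 pd2 0 true true true .pnp 0 1 2 (qsf 0 536870912 536870912 536870912 2) ndB2q0 ndB5q1 pcB2 Cut.none Ext.none)

def k0_pp_012 : ∃ t, chk3 f_pp_012 t 1 1 1 = true :=
  ⟨(l 4), by decide +kernel⟩

theorem c_pp_012 : CertB 0 536870912 536870912 536870912 536870912 50465866 3 eng mog cd2q0 cd5q1 pd2 true true true .pnp 0 1 2
    ndB2q0 ndB5q1 pcB2 Cut.none Ext.none :=
  certB0 (fam := true) (s1 := true) (s2 := true) (a := 0) (b := 1) (c := 2) (cn := .pnp) (n1 := ndB2q0) (n2 := ndB5q1) (pc := pcB2) (cut := Cut.none) (xt := Ext.none) (P1 := 0) (W1 := 536870912) (P2 := 536870912) (W2 := 536870912) (P3 := 536870912) (W3 := 50465866) (N0 := 3) (En := eng) (mo := mog) (C1 := cd2q0) (C2 := cd5q1) (C3 := pd2)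
    rfl k0_pp_012

noncomputable def f_pp_022 : ℕ → ℕ → ℕ → ℕ → Bool := onCell 0 536870912 1073741824 536870912 536870912 50465866
    (rowB 3 eng mog cd2q0 cd5q2 pd2 0 true true true .pp 0 2 2 (qsf 0 536870912 1073741824 536870912 2) ndB2q0 ndB5q2 pcB2 Cut.none Ext.none)

def k0_pp_022 : ∃ t, chk3 f_pp_022 t 1 1 1 = true :=
  ⟨(l 4), by decide +kernel⟩

theorem c_pp_022 : CertB 0 536870912 1073741824 536870912 536870912 50465866 3 eng mog cd2q0 cd5q2 pd2 true true true .pp 0 2 2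
    ndB2q0 ndB5q2 pcB2 Cut.none Ext.none :=
  certB0 (fam := true) (s1 := true) (s2 := true) (a := 0) (b := 2) (c := 2) (cn := .pp) (n1 := ndB2q0) (n2 := ndB5q2) (pc := pcB2) (cut := Cut.none) (xt := Ext.none) (P1 := 0) (W1 := 536870912) (P2 := 1073741824) (W2 := 536870912) (P3 := 536870912) (W3 := 50465866) (N0 := 3) (En := eng) (mo := mog) (C1 := cd2q0) (C2 := cd5q2) (C3 := pd2)
    rfl k0_pp_022

noncomputable def f_pp_023 : ℕ → ℕ → ℕ → ℕ → Bool := onCell 0 536870912 1073741824 536870912 536870912 50465866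
    (rowB 3 eng mog cd2q0 cd5q2 pd3 0 true true true .up 0 2 3 (qsf 0 536870912 1073741824 536870912 3) ndB2q0 ndB5q2 pcB3 Cut.none Ext.none)

def k0_pp_023 : ∃ t, chk3 f_pp_023 t 1 1 1 = true :=
  ⟨(l 4), by decide +kernel⟩

theorem c_pp_023 : CertB 0 536870912 1073741824 536870912 536870912 50465866 3 eng mog cd2q0 cd5q2 pd3 true true true .up 0 2 3
    ndB2q0 ndB5q2 pcB3 Cut.none Ext.none :=
  certB0 (fam := true) (s1 := true) (s2 := true) (a := 0) (b := 2) (c := 3) (cn := .up) (n1 := ndB2q0) (n2 := ndB5q2) (pc := pcB3) (cut := Cut.none) (xt := Ext.none) (P1 := 0) (W1 := 536870912) (P2 := 1073741824) (W2 := 536870912) (P3 := 536870912) (W3 := 50465866) (N0 := 3) (En := eng) (mo := mog) (C1 := cd2q0) (C2 := cd5q2) (C3 := pd3)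
    rfl k0_pp_023

noncomputable def f_pp_033 : ℕ → ℕ → ℕ → ℕ → Bool := onCell 0 536870912 0 1230186008 536870912 50465866
    (rowB 3 eng mog cd2q0 cd5q3 pd3 0 true true true .pnn 0 3 3 (qsf 0 536870912 0 1230186008 3) ndB2q0 ndB5q3 pcB3 Cut.none Ext.none)

def k0_pp_033 : ∃ t, chk3 f_pp_033 t 1 1 1 = true :=
  ⟨(b (l 4) (l 4)), by decide +kernel⟩

theorem c_pp_033 : CertB 0 536870912 0 1230186008 536870912 50465866 3 eng mog cd2q0 cd5q3 pd3 true true true .pnn 0 3 3
    ndB2q0 ndB5q3 pcB3 Cut.none Ext.none :=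
  certB0 (fam := true) (s1 := true) (s2 := true) (a := 0) (b := 3) (c := 3) (cn := .pnn) (n1 := ndB2q0) (n2 := ndB5q3) (pc := pcB3) (cut := Cut.none) (xt := Ext.none) (P1 := 0) (W1 := 536870912) (P2 := 0) (W2 := 1230186008) (P3 := 536870912) (W3 := 50465866) (N0 := 3) (En := eng) (mo := mog) (C1 := cd2q0) (C2 := cd5q3) (C3 := pd3)
    rfl k0_pp_033

noncomputable def f_pp_101 : ℕ → ℕ → ℕ → ℕ → Bool := onCell 536870912 536870912 0 536870912 536870912 50465866
    (rowB 3 eng mog cd2q1 cd5q0 pd1 0 true true true .npn 1 0 1 (qsf 536870912 536870912 0 536870912 1) ndB2q1 ndB5q0 pcB1 Cut.none Ext.none)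

def k0_pp_101 : ∃ t, chk3 f_pp_101 t 1 1 1 = true :=
  ⟨(l 4), by decide +kernel⟩

theorem c_pp_101 : CertB 536870912 536870912 0 536870912 536870912 50465866 3 eng mog cd2q1 cd5q0 pd1 true true true .npn 1 0 1
    ndB2q1 ndB5q0 pcB1 Cut.none Ext.none :=
  certB0 (fam := true) (s1 := true) (s2 := true) (a := 1) (b := 0) (c := 1) (cn := .npn) (n1 := ndB2q1) (n2 := ndB5q0) (pc := pcB1) (cut := Cut.none) (xt := Ext.none) (P1 := 536870912) (W1 := 536870912) (P2 := 0) (W2 := 536870912) (P3 := 536870912) (W3 := 50465866) (N0 := 3) (En := eng) (mo := mog) (C1 := cd2q1) (C2 := cd5q0) (C3 := pd1)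
    rfl k0_pp_101

noncomputable def f_pp_102 : ℕ → ℕ → ℕ → ℕ → Bool := onCell 536870912 536870912 0 536870912 536870912 50465866
    (rowB 3 eng mog cd2q1 cd5q0 pd2 0 true true true .npp 1 0 2 (qsf 536870912 536870912 0 536870912 2) ndB2q1 ndB5q0 pcB2 Cut.none Ext.none)

def k0_pp_102 : ∃ t, chk3 f_pp_102 t 1 1 1 = true :=
  ⟨(l 4), by decide +kernel⟩

theorem c_pp_102 : CertB 536870912 536870912 0 536870912 536870912 50465866 3 eng mog cd2q1 cd5q0 pd2 true true true .npp 1 0 2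
    ndB2q1 ndB5q0 pcB2 Cut.none Ext.none :=
  certB0 (fam := true) (s1 := true) (s2 := true) (a := 1) (b := 0) (c := 2) (cn := .npp) (n1 := ndB2q1) (n2 := ndB5q0) (pc := pcB2) (cut := Cut.none) (xt := Ext.none) (P1 := 536870912) (W1 := 536870912) (P2 := 0) (W2 := 536870912) (P3 := 536870912) (W3 := 50465866) (N0 := 3) (En := eng) (mo := mog) (C1 := cd2q1) (C2 := cd5q0) (C3 := pd2)
    rfl k0_pp_102

noncomputable def f_pp_112 : ℕ → ℕ → ℕ → ℕ → Bool := onCell 536870912 536870912 536870912 536870912 536870912 50465866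
    (rowB 3 eng mog cd2q1 cd5q1 pd2 0 true true true .dn 1 1 2 (qsf 536870912 536870912 536870912 536870912 2) ndB2q1 ndB5q1 pcB2 Cut.none Ext.none)

def k0_pp_112 : ∃ t, chk3 f_pp_112 t 1 1 1 = true :=
  ⟨(l 4), by decide +kernel⟩

theorem c_pp_112 : CertB 536870912 536870912 536870912 536870912 536870912 50465866 3 eng mog cd2q1 cd5q1 pd2 true true true .dn 1 1 2
    ndB2q1 ndB5q1 pcB2 Cut.none Ext.none :=
  certB0 (fam := true) (s1 := true) (s2 := true) (a := 1) (b := 1) (c := 2) (cn := .dn) (n1 := ndB2q1) (n2 := ndB5q1) (pc := pcB2) (cut := Cut.none) (xt := Ext.none) (P1 := 536870912) (W1 := 536870912) (P2 := 536870912) (W2 := 536870912) (P3 := 536870912) (W3 := 50465866) (N0 := 3) (En := eng) (mo := mog) (C1 := cd2q1) (C2 := cd5q1) (C3 := pd2)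
    rfl k0_pp_112

noncomputable def f_pp_113 : ℕ → ℕ → ℕ → ℕ → Bool := onCell 536870912 536870912 536870912 536870912 536870912 50465866
    (rowB 3 eng mog cd2q1 cd5q1 pd3 0 true true true .nn 1 1 3 (qsf 536870912 536870912 536870912 536870912 3) ndB2q1 ndB5q1 pcB3 Cut.none Ext.none)

def k0_pp_113 : ∃ t, chk3 f_pp_113 t 1 1 1 = true :=
  ⟨(l 4), by decide +kernel⟩

theorem c_pp_113 : CertB 536870912 536870912 536870912 536870912 536870912 50465866 3 eng mog cd2q1 cd5q1 pd3 true true true .nn 1 1 3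
    ndB2q1 ndB5q1 pcB3 Cut.none Ext.none :=
  certB0 (fam := true) (s1 := true) (s2 := true) (a := 1) (b := 1) (c := 3) (cn := .nn) (n1 := ndB2q1) (n2 := ndB5q1) (pc := pcB3) (cut := Cut.none) (xt := Ext.none) (P1 := 536870912) (W1 := 536870912) (P2 := 536870912) (W2 := 536870912) (P3 := 536870912) (W3 := 50465866) (N0 := 3) (En := eng) (mo := mog) (C1 := cd2q1) (C2 := cd5q1) (C3 := pd3)
    rfl k0_pp_113

noncomputable def f_pp_123 : ℕ → ℕ → ℕ → ℕ → Bool := onCell 536870912 536870912 1073741824 536870912 536870912 50465866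
    (rowB 3 eng mog cd2q1 cd5q2 pd3 0 true true true .npn 1 2 3 (qsf 536870912 536870912 1073741824 536870912 3) ndB2q1 ndB5q2 pcB3 Cut.none Ext.none)

def k0_pp_123 : ∃ t, chk3 f_pp_123 t 1 1 1 = true :=
  ⟨(l 4), by decide +kernel⟩

theorem c_pp_123 : CertB 536870912 536870912 1073741824 536870912 536870912 50465866 3 eng mog cd2q1 cd5q2 pd3 true true true .npn 1 2 3
    ndB2q1 ndB5q2 pcB3 Cut.none Ext.none :=
  certB0 (fam := true) (s1 := true) (s2 := true) (a := 1) (b := 2) (c := 3) (cn := .npn) (n1 := ndB2q1) (n2 := ndB5q2) (pc := pcB3) (cut := Cut.none) (xt := Ext.none) (P1 := 536870912) (W1 := 536870912) (P2 := 1073741824) (W2 := 536870912) (P3 := 536870912) (W3 := 50465866) (N0 := 3) (En := eng) (mo := mog) (C1 := cd2q1) (C2 := cd5q2) (C3 := pd3)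
    rfl k0_pp_123

noncomputable def f_pp_133 : ℕ → ℕ → ℕ → ℕ → Bool := onCell 536870912 536870912 0 1230186008 536870912 50465866
    (rowB 3 eng mog cd2q1 cd5q3 pd3 0 true true true .dn 1 3 3 (qsf 536870912 536870912 0 1230186008 3) ndB2q1 ndB5q3 pcB3 Cut.none Ext.none)

def k0_pp_133 : ∃ t, chk3 f_pp_133 t 1 1 1 = true :=
  ⟨(l 4), by decide +kernel⟩

theorem c_pp_133 : CertB 536870912 536870912 0 1230186008 536870912 50465866 3 eng mog cd2q1 cd5q3 pd3 true true true .dn 1 3 3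
    ndB2q1 ndB5q3 pcB3 Cut.none Ext.none :=
  certB0 (fam := true) (s1 := true) (s2 := true) (a := 1) (b := 3) (c := 3) (cn := .dn) (n1 := ndB2q1) (n2 := ndB5q3) (pc := pcB3) (cut := Cut.none) (xt := Ext.none) (P1 := 536870912) (W1 := 536870912) (P2 := 0) (W2 := 1230186008) (P3 := 536870912) (W3 := 50465866) (N0 := 3) (En := eng) (mo := mog) (C1 := cd2q1) (C2 := cd5q3) (C3 := pd3)
    rfl k0_pp_133

noncomputable def f_pp_202_a : ℕ → ℕ → ℕ → ℕ → Bool := onCell 0 536870912 0 536870912 536870912 50465866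
    (rowB 3 eng mog cd2q2a cd5q0 pd2 0 true true true .pp 2 0 2 (qsf 0 536870912 0 536870912 2) ndB2q2a ndB5q0 pcB2 Cut.none Ext.none)

def k0_pp_202_a : ∃ t, chk3 f_pp_202_a t 1 1 1 = true :=
  ⟨(l 4), by decide +kernel⟩

theorem c_pp_202_a : CertB 0 536870912 0 536870912 536870912 50465866 3 eng mog cd2q2a cd5q0 pd2 true true true .pp 2 0 2
    ndB2q2a ndB5q0 pcB2 Cut.none Ext.none :=
  certB0 (fam := true) (s1 := true) (s2 := true) (a := 2) (b := 0) (c := 2) (cn := .pp) (n1 := ndB2q2a) (n2 := ndB5q0) (pc := pcB2) (cut := Cut.none) (xt := Ext.none) (P1 := 0) (W1 := 536870912) (P2 := 0) (W2 := 536870912) (P3 := 536870912) (W3 := 50465866) (N0 := 3) (En := eng) (mo := mog) (C1 := cd2q2a) (C2 := cd5q0) (C3 := pd2)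
    rfl k0_pp_202_a

noncomputable def f_pp_202_b : ℕ → ℕ → ℕ → ℕ → Bool := onCell 1239849684 370763052 0 536870912 536870912 50465866
    (rowB 3 eng mog cd2q2b cd5q0 pd2 0 true true true .pp 2 0 2 (qsf 1239849684 370763052 0 536870912 2) ndB2q2b ndB5q0 pcB2 Cut.none Ext.none)

def k0_pp_202_b : ∃ t, chk3 f_pp_202_b t 1 1 1 = true :=
  ⟨(l 4), by decide +kernel⟩

theorem c_pp_202_b : CertB 1239849684 370763052 0 536870912 536870912 50465866 3 eng mog cd2q2b cd5q0 pd2 true true true .pp 2 0 2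
    ndB2q2b ndB5q0 pcB2 Cut.none Ext.none :=
  certB0 (fam := true) (s1 := true) (s2 := true) (a := 2) (b := 0) (c := 2) (cn := .pp) (n1 := ndB2q2b) (n2 := ndB5q0) (pc := pcB2) (cut := Cut.none) (xt := Ext.none) (P1 := 1239849684) (W1 := 370763052) (P2 := 0) (W2 := 536870912) (P3 := 536870912) (W3 := 50465866) (N0 := 3) (En := eng) (mo := mog) (C1 := cd2q2b) (C2 := cd5q0) (C3 := pd2)
    rfl k0_pp_202_b

noncomputable def f_pp_203_a : ℕ → ℕ → ℕ → ℕ → Bool := onCell 0 536870912 0 536870912 536870912 50465866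
    (rowB 3 eng mog cd2q2a cd5q0 pd3 0 true true true .up 2 0 3 (qsf 0 536870912 0 536870912 3) ndB2q2a ndB5q0 pcB3 Cut.none Ext.none)

def k0_pp_203_a : ∃ t, chk3 f_pp_203_a t 1 1 1 = true :=
  ⟨(l 4), by decide +kernel⟩

theorem c_pp_203_a : CertB 0 536870912 0 536870912 536870912 50465866 3 eng mog cd2q2a cd5q0 pd3 true true true .up 2 0 3
    ndB2q2a ndB5q0 pcB3 Cut.none Ext.none :=
  certB0 (fam := true) (s1 := true) (s2 := true) (a := 2) (b := 0) (c := 3) (cn := .up) (n1 := ndB2q2a) (n2 := ndB5q0) (pc := pcB3) (cut := Cut.none) (xt := Ext.none) (P1 := 0) (W1 := 536870912) (P2 := 0) (W2 := 536870912) (P3 := 536870912) (W3 := 50465866) (N0 := 3) (En := eng) (mo := mog) (C1 := cd2q2a) (C2 := cd5q0) (C3 := pd3)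
    rfl k0_pp_203_a

noncomputable def f_pp_203_b : ℕ → ℕ → ℕ → ℕ → Bool := onCell 1239849684 370763052 0 536870912 536870912 50465866
    (rowB 3 eng mog cd2q2b cd5q0 pd3 0 true true true .up 2 0 3 (qsf 1239849684 370763052 0 536870912 3) ndB2q2b ndB5q0 pcB3 Cut.none Ext.none)

def k0_pp_203_b : ∃ t, chk3 f_pp_203_b t 1 1 1 = true :=
  ⟨(l 4), by decide +kernel⟩

theorem c_pp_203_b : CertB 1239849684 370763052 0 536870912 536870912 50465866 3 eng mog cd2q2b cd5q0 pd3 true true true .up 2 0 3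
    ndB2q2b ndB5q0 pcB3 Cut.none Ext.none :=
  certB0 (fam := true) (s1 := true) (s2 := true) (a := 2) (b := 0) (c := 3) (cn := .up) (n1 := ndB2q2b) (n2 := ndB5q0) (pc := pcB3) (cut := Cut.none) (xt := Ext.none) (P1 := 1239849684) (W1 := 370763052) (P2 := 0) (W2 := 536870912) (P3 := 536870912) (W3 := 50465866) (N0 := 3) (En := eng) (mo := mog) (C1 := cd2q2b) (C2 := cd5q0) (C3 := pd3)
    rfl k0_pp_203_b

noncomputable def f_pp_213_a : ℕ → ℕ → ℕ → ℕ → Bool := onCell 0 536870912 536870912 536870912 536870912 50465866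
    (rowB 3 eng mog cd2q2a cd5q1 pd3 0 true true true .pnn 2 1 3 (qsf 0 536870912 536870912 536870912 3) ndB2q2a ndB5q1 pcB3 Cut.none Ext.none)

def k0_pp_213_a : ∃ t, chk3 f_pp_213_a t 1 1 1 = true :=
  ⟨(l 4), by decide +kernel⟩

theorem c_pp_213_a : CertB 0 536870912 536870912 536870912 536870912 50465866 3 eng mog cd2q2a cd5q1 pd3 true true true .pnn 2 1 3
    ndB2q2a ndB5q1 pcB3 Cut.none Ext.none :=
  certB0 (fam := true) (s1 := true) (s2 := true) (a := 2) (b := 1) (c := 3) (cn := .pnn) (n1 := ndB2q2a) (n2 := ndB5q1) (pc := pcB3) (cut := Cut.none) (xt := Ext.none) (P1 := 0) (W1 := 536870912) (P2 := 536870912) (W2 := 536870912) (P3 := 536870912) (W3 := 50465866) (N0 := 3) (En := eng) (mo := mog) (C1 := cd2q2a) (C2 := cd5q1) (C3 := pd3)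
    rfl k0_pp_213_a

noncomputable def f_pp_213_b : ℕ → ℕ → ℕ → ℕ → Bool := onCell 1239849684 370763052 536870912 536870912 536870912 50465866
    (rowB 3 eng mog cd2q2b cd5q1 pd3 0 true true true .pnn 2 1 3 (qsf 1239849684 370763052 536870912 536870912 3) ndB2q2b ndB5q1 pcB3 Cut.none Ext.none)

def k0_pp_213_b : ∃ t, chk3 f_pp_213_b t 1 1 1 = true :=
  ⟨(l 4), by decide +kernel⟩

theorem c_pp_213_b : CertB 1239849684 370763052 536870912 536870912 536870912 50465866 3 eng mog cd2q2b cd5q1 pd3 true true true .pnn 2 1 3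
    ndB2q2b ndB5q1 pcB3 Cut.none Ext.none :=
  certB0 (fam := true) (s1 := true) (s2 := true) (a := 2) (b := 1) (c := 3) (cn := .pnn) (n1 := ndB2q2b) (n2 := ndB5q1) (pc := pcB3) (cut := Cut.none) (xt := Ext.none) (P1 := 1239849684) (W1 := 370763052) (P2 := 536870912) (W2 := 536870912) (P3 := 536870912) (W3 := 50465866) (N0 := 3) (En := eng) (mo := mog) (C1 := cd2q2b) (C2 := cd5q1) (C3 := pd3)
    rfl k0_pp_213_b

noncomputable def f_pp_303 : ℕ → ℕ → ℕ → ℕ → Bool := onCell 1610612736 536870912 0 536870912 536870912 50465866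
    (rowB 3 eng mog cd2q3 cd5q0 pd3 0 true true true .npn 3 0 3 (qsf 1610612736 536870912 0 536870912 3) ndB2q3 ndB5q0 pcB3 Cut.none Ext.none)

def k0_pp_303 : ∃ t, chk3 f_pp_303 t 1 1 1 = true :=
  ⟨(l 4), by decide +kernel⟩

theorem c_pp_303 : CertB 1610612736 536870912 0 536870912 536870912 50465866 3 eng mog cd2q3 cd5q0 pd3 true true true .npn 3 0 3
    ndB2q3 ndB5q0 pcB3 Cut.none Ext.none :=
  certB0 (fam := true) (s1 := true) (s2 := true) (a := 3) (b := 0) (c := 3) (cn := .npn) (n1 := ndB2q3) (n2 := ndB5q0) (pc := pcB3) (cut := Cut.none) (xt := Ext.none) (P1 := 1610612736) (W1 := 536870912) (P2 := 0) (W2 := 536870912) (P3 := 536870912) (W3 := 50465866) (N0 := 3) (En := eng) (mo := mog) (C1 := cd2q3) (C2 := cd5q0) (C3 := pd3)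
    rfl k0_pp_303

noncomputable def f_pp_313 : ℕ → ℕ → ℕ → ℕ → Bool := onCell 1610612736 536870912 536870912 536870912 536870912 50465866
    (rowB 3 eng mog cd2q3 cd5q1 pd3 0 true true true .dn 3 1 3 (qsf 1610612736 536870912 536870912 536870912 3) ndB2q3 ndB5q1 pcB3 Cut.none Ext.none)

def k0_pp_313 : ∃ t, chk3 f_pp_313 t 1 1 1 = true :=
  ⟨(l 4), by decide +kernel⟩

theorem c_pp_313 : CertB 1610612736 536870912 536870912 536870912 536870912 50465866 3 eng mog cd2q3 cd5q1 pd3 true true true .dn 3 1 3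
    ndB2q3 ndB5q1 pcB3 Cut.none Ext.none :=
  certB0 (fam := true) (s1 := true) (s2 := true) (a := 3) (b := 1) (c := 3) (cn := .dn) (n1 := ndB2q3) (n2 := ndB5q1) (pc := pcB3) (cut := Cut.none) (xt := Ext.none) (P1 := 1610612736) (W1 := 536870912) (P2 := 536870912) (W2 := 536870912) (P3 := 536870912) (W3 := 50465866) (N0 := 3) (En := eng) (mo := mog) (C1 := cd2q3) (C2 := cd5q1) (C3 := pd3)
    rfl k0_pp_313

noncomputable def f_pm_001 : ℕ → ℕ → ℕ → ℕ → Bool := onCell 0 536870912 536870912 536870912 536870912 50465866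
    (rowB 3 eng mog cd2q0 cd5q0 pd1 1 true true false .up 0 0 1 (qsf 0 536870912 0 536870912 1) ndB2q0 ndB5q0 pcB1 Cut.none Ext.none)

def k0_pm_001 : ∃ t, chk3 f_pm_001 t 1 1 1 = true :=
  ⟨(b (l 3) (b (l 3) (a (l 2) (l 3)))), by decide +kernel⟩

theorem c_pm_001 : CertB 0 536870912 0 536870912 536870912 50465866 3 eng mog cd2q0 cd5q0 pd1 true true false .up 0 0 1
    ndB2q0 ndB5q0 pcB1 Cut.none Ext.none :=
  certB1 (fam := true) (s1 := true) (s2 := false) (a := 0) (b := 0) (c := 1) (cn := .up) (n1 := ndB2q0) (n2 := ndB5q0) (pc := pcB1) (cut := Cut.none) (xt := Ext.none) (P1 := 0) (W1 := 536870912) (P2 := 0) (W2 := 536870912) (P3 := 536870912) (W3 := 50465866) (N0 := 3) (En := eng) (mo := mog) (C1 := cd2q0) (C2 := cd5q0) (C3 := pd1)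
    rfl (fun _ => rfl) k0_pm_001

noncomputable def cut_pm_011 : Cut := Cut.of [[⟨0, 0, 0, 67108864⟩, ⟨1, 1, 0, 67108864⟩, ⟨2, 1, 0, 67108864⟩]]

noncomputable def f_pm_011 : ℕ → ℕ → ℕ → ℕ → Bool := onCell 0 536870912 536870912 536870912 536870912 50465866
    (rowB 3 eng mog cd2q0 cd5q1 pd1 1 true true false .pnn 0 1 1 (qsf 0 536870912 536870912 536870912 1) ndB2q0 ndB5q1 pcB1 cut_pm_011 Ext.none)

def k0_pm_011 : ∃ t, chk3 f_pm_011 t 1 1 1 = true :=
  ⟨(b (l 3) (b (l 3) (a (b (l 3) (a (a (b (l 3) (a (b (l 3) (l 6)) (l 3))) (l 3)) (l 3))) (l 3)))), by decide +kernel⟩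

theorem c_pm_011 : CertB 0 536870912 536870912 536870912 536870912 50465866 3 eng mog cd2q0 cd5q1 pd1 true true false .pnn 0 1 1
    ndB2q0 ndB5q1 pcB1 cut_pm_011 Ext.none :=
  certB1 (fam := true) (s1 := true) (s2 := false) (a := 0) (b := 1) (c := 1) (cn := .pnn) (n1 := ndB2q0) (n2 := ndB5q1) (pc := pcB1) (cut := cut_pm_011) (xt := Ext.none) (P1 := 0) (W1 := 536870912) (P2 := 536870912) (W2 := 536870912) (P3 := 536870912) (W3 := 50465866) (N0 := 3) (En := eng) (mo := mog) (C1 := cd2q0) (C2 := cd5q1) (C3 := pd1)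
    rfl (fun _ => rfl) k0_pm_011

noncomputable def cut_pm_012 : Cut := Cut.of [[⟨0, 0, 0, 67108864⟩, ⟨1, 1, 0, 67108864⟩, ⟨2, 1, 0, 67108864⟩]]

noncomputable def f_pm_012 : ℕ → ℕ → ℕ → ℕ → Bool := onCell 1073741824 536870912 536870912 536870912 536870912 50465866
    (rowB 3 eng mog cd2q0 cd5q1 pd2 2 true true false .pnp 0 1 2 (qsf 0 536870912 536870912 536870912 2) ndB2q0 ndB5q1 pcB2 cut_pm_012 Ext.none)

def k0_pm_012 : ∃ t, chk3 f_pm_012 t 2 1 1 = true :=
  ⟨(a (a (b (b (a (l 155860163015) (l 16518768)) (a (b (l 16513648) (l 16732184)) (b (l 16471496) (l 16486624)))) (b (a (b (a (l 3) (l 16544576)) (a (l 16722384) (b (l 16573496) (l 16592592)))) (b (a (l 16519344) (l 16497488)) (a (l 16552352) (l 16523264)))) (a (b (a (b (l 16652360) (a (l 3) (l 16667344))) (b (l 16655232) (a (l 16646272) (l 16626320)))) (a (b (a (b (l 3) (l 6)) (b (l 16687272) (a (l 6) (l 16695560)))) (l 6)) (b (b (l 16717392) (a (l 16678528) (l 16656112))) (b (a (l 6)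 (l 16668944)) (l 6))))) (b (b (l 16644416) (a (l 16596864) (l 16559400))) (b (a (b (l 16612424) (l 16623400)) (l 16576904)) (b (a (l 16655872) (l 16591240)) (a (b (l 16643896) (l 6)) (l 16622408)))))))) (b (b (a (l 16438472) (l 16446944)) (a (b (l 16459048) (l 16464288)) (b (l 16455760) (l 16452168)))) (b (a (b (l 16470328) (l 16485048)) (b (l 16444872) (l 16443728))) (b (a (b (l 16498112) (l 16508208)) (b (l 16446952) (l 16449688))) (a (b (a (l 16538320) (l 16502120)) (b (l 16529984) (a (l 16558024) (l 16516880)))) (b (l 16495360) (a (l 16476144) (l 16441496)))))))) (b (b (a (a (a (l 16456744) (l 2)) (l 2)) (l 2)) (a (a (a (l 16453744) (b (l 16474512) (l 16461824))) (l 16468648)) (l 16492440))) (a (b (a (a (b (l 16434728) (l 16420872)) (b (l 16442768) (l 16650936))) (b (l 16435232) (l 16404264))) (a (a (b (l 16414848) (b (l 16411440) (l 16409976))) (b (a (l 16401088) (l 16398336)) (a (b (l 16393384) (l 16388536)) (b (l 16386536) (a (l 16378944)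 (l 16374752)))))) (b (l 16376320) (b (l 16358664) (l 16346288))))) (b (b (l 16443608) (l 16398376)) (b (l 16347216) (b (l 16309728) (l 16287064))))))), by decide +kernel⟩

def k1_pm_012 : ∃ t, chk3 f_pm_012 t 3 1 1 = true :=
  ⟨(a (b (b (l 2) (a (l 16547040) (l 2))) (b (a (l 16455368) (l 16524672)) (b (a (l 16352048) (l 16405560)) (a (b (l 16289224) (l 16247608)) (l 16300952))))) (b (l 2) (a (b (l 16604264) (l 16422712)) (b (l 2) (a (l 16480752) (l 16541064)))))), by decide +kernel⟩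

theorem s2_pm_012 : ∃ t, chk3 f_pm_012 t 1 1 1 = true := ex3_a k0_pm_012 k1_pm_012

theorem c_pm_012 : CertB 0 536870912 536870912 536870912 536870912 50465866 3 eng mog cd2q0 cd5q1 pd2 true true false .pnp 0 1 2
    ndB2q0 ndB5q1 pcB2 cut_pm_012 Ext.none :=
  certB2 (fam := true) (s1 := true) (s2 := false) (a := 0) (b := 1) (c := 2) (cn := .pnp) (n1 := ndB2q0) (n2 := ndB5q1) (pc := pcB2) (cut := cut_pm_012) (xt := Ext.none) (P1 := 0) (W1 := 536870912) (P2 := 536870912) (W2 := 536870912) (P3 := 536870912) (W3 := 50465866) (N0 := 3) (En := eng) (mo := mog) (C1 := cd2q0) (C2 := cd5q1) (C3 := pd2)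
    rfl (fun _ => rfl) s2_pm_012

noncomputable def f_pm_022 : ℕ → ℕ → ℕ → ℕ → Bool := onCell 0 536870912 1073741824 536870912 536870912 50465866
    (rowB 3 eng mog cd2q0 cd5q2 pd2 1 true true false .pp 0 2 2 (qsf 0 536870912 1073741824 536870912 2) ndB2q0 ndB5q2 pcB2 Cut.none Ext.none)

def k0_pm_022 : ∃ t, chk3 f_pm_022 t 1 1 1 = true :=
  ⟨(b (b (a (l 3) (l 1)) (b (b (a (b (l 3) (b (a (a (b (l 16522744) (l 16526072)) (l 102172765607)) (a (l 16462792) (l 1))) (a (b (a (b (l 16489144) (l 16507064)) (b (l 16469848) (l 16467312))) (a (b (a (l 16458856) (l 16464000)) (l 16479256)) (b (l 16464760) (l 16461600)))) (a (b (l 16455680) (b (l 16452720) (l 16450136))) (l 1))))) (l 1)) (a (a (a (a (b (l 16438504) (l 16471032)) (l 16431680)) (l 16436488)) (a (l 16430168) (l 16411248))) (l 1))) (a (a (a (a (a (l 16438400) (b (l 16364296) (l 16297344))) (b (l 16377752) (l 16317624))) (a (b (l 16387160) (l 16338688)) (l 16370496))) (a (l 16375456) (l 16372176)))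 (a (a (l 16358648) (l 1)) (l 1))))) (a (b (a (a (b (a (l 16437336) (l 16215640)) (l 16415560)) (b (b (a (l 16284376) (l 16305608)) (l 16239768)) (l 16135784))) (a (b (l 16346008) (b (l 16247264) (l 16202304))) (b (l 16321192) (l 16268928)))) (a (a (b (l 16167472) (l 16186576)) (l 16175176)) (b (a (l 16116392) (l 16208368)) (l 16052776)))) (a (b (b (a (l 16328392) (l 16345528)) (l 16317680)) (b (l 16293440) (a (l 16215392) (l 16305296)))) (b (b (l 1) (l 352220493527)) (l 16449656))))), by decide +kernel⟩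

theorem c_pm_022 : CertB 0 536870912 1073741824 536870912 536870912 50465866 3 eng mog cd2q0 cd5q2 pd2 true true false .pp 0 2 2
    ndB2q0 ndB5q2 pcB2 Cut.none Ext.none :=
  certB1 (fam := true) (s1 := true) (s2 := false) (a := 0) (b := 2) (c := 2) (cn := .pp) (n1 := ndB2q0) (n2 := ndB5q2) (pc := pcB2) (cut := Cut.none) (xt := Ext.none) (P1 := 0) (W1 := 536870912) (P2 := 1073741824) (W2 := 536870912) (P3 := 536870912) (W3 := 50465866) (N0 := 3) (En := eng) (mo := mog) (C1 := cd2q0) (C2 := cd5q2) (C3 := pd2)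
    rfl (fun _ => rfl) k0_pm_022

noncomputable def f_pm_023 : ℕ → ℕ → ℕ → ℕ → Bool := onCell 0 536870912 1610612736 536870912 536870912 50465866
    (rowB 3 eng mog cd2q0 cd5q2 pd3 1 true true false .up 0 2 3 (qsf 0 536870912 1073741824 536870912 3) ndB2q0 ndB5q2 pcB3 Cut.none Ext.none)

def k0_pm_023 : ∃ t, chk3 f_pm_023 t 1 1 1 = true :=
  ⟨(a (b (b (a (a (l 16341832) (l 16246424)) (l 16131544)) (a (l 427986934407) (l 16532880))) (b (a (l 2) (l 359267642263)) (l 2))) (b (a (b (b (l 16301976) (l 16258584)) (l 16498576)) (b (l 16568000) (l 16663632))) (b (a (l 16673768) (l 16680512)) (b (l 207869804119) (b (l 16746736) (b (l 16750792) (b (l 16748176) (l 16743584)))))))), by decide +kernel⟩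

theorem c_pm_023 : CertB 0 536870912 1073741824 536870912 536870912 50465866 3 eng mog cd2q0 cd5q2 pd3 true true false .up 0 2 3
    ndB2q0 ndB5q2 pcB3 Cut.none Ext.none :=
  certB1 (fam := true) (s1 := true) (s2 := false) (a := 0) (b := 2) (c := 3) (cn := .up) (n1 := ndB2q0) (n2 := ndB5q2) (pc := pcB3) (cut := Cut.none) (xt := Ext.none) (P1 := 0) (W1 := 536870912) (P2 := 1073741824) (W2 := 536870912) (P3 := 536870912) (W3 := 50465866) (N0 := 3) (En := eng) (mo := mog) (C1 := cd2q0) (C2 := cd5q2) (C3 := pd3)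
    rfl (fun _ => rfl) k0_pm_023

noncomputable def f_pm_033 : ℕ → ℕ → ℕ → ℕ → Bool := onCell 1610612736 536870912 0 1230186008 536870912 50465866
    (rowB 3 eng mog cd2q0 cd5q3 pd3 2 true true false .pnn 0 3 3 (qsf 0 536870912 0 1230186008 3) ndB2q0 ndB5q3 pcB3 Cut.none Ext.none)

def k0_pm_033 : ∃ t, chk3 f_pm_033 t 1 1 1 = true :=
  ⟨(b (a (l 1) (a (l 1) (b (l 4) (a (a (l 16750352) (l 4)) (l 4))))) (b (a (b (l 1) (a (l 1) (a (l 1) (b (l 1) (l 686691328007))))) (a (a (b (l 1) (l 487512758183)) (b (a (l 566969714679) (l 16825912)) (b (l 16747840) (l 16739056)))) (a (a (b (l 16753912) (l 16750136)) (l 210151847255)) (a (l 16739712) (l 4))))) (a (a (b (l 1) (b (a (l 1) (l 603475901159)) (l 553009823847))) (b (a (b (l 665753278471) (l 603476213703)) (b (l 16690752) (l 16657032))) (b (l 475701244775) (l 16573648)))) (a (b (a (l 16699088) (l 16724424)) (b (l 16693680) (l 16686352))) (a (b (a (l 16738120) (l 16747456)) (l 16734152)) (a (b (l 16748512)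 (l 16749728)) (a (l 16751256) (b (l 4) (l 16750704))))))))), by decide +kernel⟩

theorem c_pm_033 : CertB 0 536870912 0 1230186008 536870912 50465866 3 eng mog cd2q0 cd5q3 pd3 true true false .pnn 0 3 3
    ndB2q0 ndB5q3 pcB3 Cut.none Ext.none :=
  certB2 (fam := true) (s1 := true) (s2 := false) (a := 0) (b := 3) (c := 3) (cn := .pnn) (n1 := ndB2q0) (n2 := ndB5q3) (pc := pcB3) (cut := Cut.none) (xt := Ext.none) (P1 := 0) (W1 := 536870912) (P2 := 0) (W2 := 1230186008) (P3 := 536870912) (W3 := 50465866) (N0 := 3) (En := eng) (mo := mog) (C1 := cd2q0) (C2 := cd5q3) (C3 := pd3)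
    rfl (fun _ => rfl) k0_pm_033

noncomputable def f_pm_101 : ℕ → ℕ → ℕ → ℕ → Bool := onCell 536870912 536870912 0 536870912 536870912 50465866
    (rowB 3 eng mog cd2q1 cd5q0 pd1 2 true true false .npn 1 0 1 (qsf 536870912 536870912 0 536870912 1) ndB2q1 ndB5q0 pcB1 Cut.none Ext.none)

def k0_pm_101 : ∃ t, chk3 f_pm_101 t 1 1 1 = true :=
  ⟨(a (l 3) (a (l 3) (b (a (l 3) (b (a (b (a (b (l 77476962711) (l 103783573623)) (b (a (l 16689712) (l 16686304)) (l 112910374327))) (a (l 3) (b (l 104320388295) (l 92509465015)))) (a (b (b (a (l 16682832) (b (l 16682024) (l 16674320))) (l 16660896)) (b (l 16633720) (l 16602656))) (b (b (a (l 16525336) (l 16663488)) (l 16641376)) (l 16589960)))) (a (b (a (l 3) (b (l 69960951847) (l 3))) (l 3)) (b (a (b (l 16569256) (l 16531888)) (l 16535096)) (a (l 16470720) (l 16483680)))))) (a (l 3) (a (l 3) (b (b (a (l 75329493847) (l 16458712)) (l 16674064)) (b (l 16424592) (l 16415128)))))))), by decide +kernel⟩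

theorem c_pm_101 : CertB 536870912 536870912 0 536870912 536870912 50465866 3 eng mog cd2q1 cd5q0 pd1 true true false .npn 1 0 1
    ndB2q1 ndB5q0 pcB1 Cut.none Ext.none :=
  certB2 (fam := true) (s1 := true) (s2 := false) (a := 1) (b := 0) (c := 1) (cn := .npn) (n1 := ndB2q1) (n2 := ndB5q0) (pc := pcB1) (cut := Cut.none) (xt := Ext.none) (P1 := 536870912) (W1 := 536870912) (P2 := 0) (W2 := 536870912) (P3 := 536870912) (W3 := 50465866) (N0 := 3) (En := eng) (mo := mog) (C1 := cd2q1) (C2 := cd5q0) (C3 := pd1)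
    rfl (fun _ => rfl) k0_pm_101

noncomputable def f_pm_102 : ℕ → ℕ → ℕ → ℕ → Bool := onCell 536870912 536870912 1073741824 536870912 536870912 50465866
    (rowB 3 eng mog cd2q1 cd5q0 pd2 1 true true false .npp 1 0 2 (qsf 536870912 536870912 0 536870912 2) ndB2q1 ndB5q0 pcB2 Cut.none Ext.none)

def k0_pm_102 : ∃ t, chk3 f_pm_102 t 1 1 1 = true :=
  ⟨(a (b (b (b (a (b (a (l 16414416) (l 16439768)) (a (l 16435240) (l 16468232))) (a (b (l 16477848) (l 16512928)) (b (l 16493016) (l 16537344)))) (a (a (l 16457376) (l 16504288)) (a (l 16555504) (l 16588688)))) (a (b (a (l 2) (b (l 16546480) (l 2))) (l 2)) (b (b (b (l 16601528) (l 16621816)) (l 16641296)) (l 16694736)))) (b (a (l 2) (b (l 16777224) (l 2))) (l 2))) (b (b (a (b (b (a (l 16521744) (l 16667112)) (a (l 16568352) (l 16610616))) (a (l 16624408) (l 16666464))) (b (a (b (b (l 16596520) (l 16624808)) (l 16657408)) (b (a (b (l 16641048) (l 16664536)) (l 16678448)) (l 16692872))) (a (l 16707192)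 (b (l 16721640) (l 16749248))))) (a (b (b (b (l 16682992) (l 16701688)) (l 16726360)) (l 16785672)) (b (b (b (l 16762440) (l 16778832)) (l 16804680)) (l 16858480)))) (b (a (b (l 16878400) (l 16997288)) (b (l 16946784) (l 17074896))) (b (a (l 17150680) (l 17265160)) (a (l 2) (l 17365656)))))), by decide +kernel⟩

theorem c_pm_102 : CertB 536870912 536870912 0 536870912 536870912 50465866 3 eng mog cd2q1 cd5q0 pd2 true true false .npp 1 0 2
    ndB2q1 ndB5q0 pcB2 Cut.none Ext.none :=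
  certB1 (fam := true) (s1 := true) (s2 := false) (a := 1) (b := 0) (c := 2) (cn := .npp) (n1 := ndB2q1) (n2 := ndB5q0) (pc := pcB2) (cut := Cut.none) (xt := Ext.none) (P1 := 536870912) (W1 := 536870912) (P2 := 0) (W2 := 536870912) (P3 := 536870912) (W3 := 50465866) (N0 := 3) (En := eng) (mo := mog) (C1 := cd2q1) (C2 := cd5q0) (C3 := pd2)
    rfl (fun _ => rfl) k0_pm_102

noncomputable def f_pm_112 : ℕ → ℕ → ℕ → ℕ → Bool := onCell 536870912 536870912 1073741824 536870912 536870912 50465866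
    (rowB 3 eng mog cd2q1 cd5q1 pd2 1 true true false .dn 1 1 2 (qsf 536870912 536870912 536870912 536870912 2) ndB2q1 ndB5q1 pcB2 Cut.none Ext.none)

def k0_pm_112 : ∃ t, chk3 f_pm_112 t 1 1 1 = true :=
  ⟨(a (b (b (b (a (b (l 16577104) (l 16452816)) (l 1)) (a (l 16484768) (l 359737155991))) (a (b (b (b (l 16501392) (l 16520448)) (l 16526968)) (l 16551840)) (b (b (b (l 16601192) (l 16621424)) (l 16640768)) (l 16692320)))) (b (a (b (l 16584832) (l 16626720)) (l 16817296)) (b (a (l 16661312) (l 16998696)) (a (l 16690328) (l 17071496))))) (b (b (l 1) (b (l 1) (l 17038952))) (b (a (l 16934744) (l 17016952)) (b (l 17231384) (a (l 17196936) (l 17340432)))))), by decide +kernel⟩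

theorem c_pm_112 : CertB 536870912 536870912 536870912 536870912 536870912 50465866 3 eng mog cd2q1 cd5q1 pd2 true true false .dn 1 1 2
    ndB2q1 ndB5q1 pcB2 Cut.none Ext.none :=
  certB1 (fam := true) (s1 := true) (s2 := false) (a := 1) (b := 1) (c := 2) (cn := .dn) (n1 := ndB2q1) (n2 := ndB5q1) (pc := pcB2) (cut := Cut.none) (xt := Ext.none) (P1 := 536870912) (W1 := 536870912) (P2 := 536870912) (W2 := 536870912) (P3 := 536870912) (W3 := 50465866) (N0 := 3) (En := eng) (mo := mog) (C1 := cd2q1) (C2 := cd5q1) (C3 := pd2)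
    rfl (fun _ => rfl) k0_pm_112

noncomputable def f_pm_113 : ℕ → ℕ → ℕ → ℕ → Bool := onCell 536870912 536870912 1610612736 536870912 536870912 50465866
    (rowB 3 eng mog cd2q1 cd5q1 pd3 1 true true false .nn 1 1 3 (qsf 536870912 536870912 536870912 536870912 3) ndB2q1 ndB5q1 pcB3 Cut.none Ext.none)

def k0_pm_113 : ∃ t, chk3 f_pm_113 t 1 1 1 = true :=
  ⟨(a (b (b (b (a (l 16747072) (l 17092048)) (a (l 16783984) (l 17104600))) (a (l 470936979383) (a (l 17045112) (l 17084024)))) (b (a (l 2) (b (l 17040312) (l 2))) (l 2))) (b (b (b (l 17362592) (l 17176016)) (b (l 17111056) (l 17054832))) (b (b (a (l 17028464) (l 16990576)) (a (l 17000936) (l 16933432))) (b (a (l 16960288) (l 16871888)) (b (l 16871960) (l 4)))))), by decide +kernel⟩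

theorem c_pm_113 : CertB 536870912 536870912 536870912 536870912 536870912 50465866 3 eng mog cd2q1 cd5q1 pd3 true true false .nn 1 1 3
    ndB2q1 ndB5q1 pcB3 Cut.none Ext.none :=
  certB1 (fam := true) (s1 := true) (s2 := false) (a := 1) (b := 1) (c := 3) (cn := .nn) (n1 := ndB2q1) (n2 := ndB5q1) (pc := pcB3) (cut := Cut.none) (xt := Ext.none) (P1 := 536870912) (W1 := 536870912) (P2 := 536870912) (W2 := 536870912) (P3 := 536870912) (W3 := 50465866) (N0 := 3) (En := eng) (mo := mog) (C1 := cd2q1) (C2 := cd5q1) (C3 := pd3)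
    rfl (fun _ => rfl) k0_pm_113

noncomputable def f_pm_123 : ℕ → ℕ → ℕ → ℕ → Bool := onCell 536870912 536870912 1610612736 536870912 536870912 50465866
    (rowB 3 eng mog cd2q1 cd5q2 pd3 1 true true false .npn 1 2 3 (qsf 536870912 536870912 1073741824 536870912 3) ndB2q1 ndB5q2 pcB3 Cut.none Ext.none)

def k0_pm_123 : ∃ t, chk3 f_pm_123 t 1 1 1 = true :=
  ⟨(a (b (a (b (l 16832368) (l 16779928)) (b (l 357053990391) (l 17102552))) (b (a (l 16748224) (l 16908504)) (b (l 17015704) (b (l 16752504) (b (l 16752144) (a (l 16753464) (b (l 16758640) (l 16758944)))))))) (b (b (l 1) (a (l 17268096) (l 1))) (b (a (l 17030712) (l 17114024)) (b (a (l 16858832) (l 16926072)) (b (l 16807288) (b (l 16763840) (b (l 16739240) (a (l 16751192) (l 16736560))))))))), by decide +kernel⟩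

theorem c_pm_123 : CertB 536870912 536870912 1073741824 536870912 536870912 50465866 3 eng mog cd2q1 cd5q2 pd3 true true false .npn 1 2 3
    ndB2q1 ndB5q2 pcB3 Cut.none Ext.none :=
  certB1 (fam := true) (s1 := true) (s2 := false) (a := 1) (b := 2) (c := 3) (cn := .npn) (n1 := ndB2q1) (n2 := ndB5q2) (pc := pcB3) (cut := Cut.none) (xt := Ext.none) (P1 := 536870912) (W1 := 536870912) (P2 := 1073741824) (W2 := 536870912) (P3 := 536870912) (W3 := 50465866) (N0 := 3) (En := eng) (mo := mog) (C1 := cd2q1) (C2 := cd5q2) (C3 := pd3)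
    rfl (fun _ => rfl) k0_pm_123

noncomputable def f_pm_133 : ℕ → ℕ → ℕ → ℕ → Bool := onCell 536870912 536870912 0 1230186008 536870912 50465866
    (rowB 3 eng mog cd2q1 cd5q3 pd3 0 true true false .dn 1 3 3 (qsf 536870912 536870912 0 1230186008 3) ndB2q1 ndB5q3 pcB3 Cut.none Ext.none)

def k0_pm_133 : ∃ t, chk3 f_pm_133 t 1 1 1 = true :=
  ⟨(b (l 2) (b (l 2) (a (b (l 2) (a (l 4) (l 2))) (l 2)))), by decide +kernel⟩

theorem c_pm_133 : CertB 536870912 536870912 0 1230186008 536870912 50465866 3 eng mog cd2q1 cd5q3 pd3 true true false .dn 1 3 3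
    ndB2q1 ndB5q3 pcB3 Cut.none Ext.none :=
  certB0 (fam := true) (s1 := true) (s2 := false) (a := 1) (b := 3) (c := 3) (cn := .dn) (n1 := ndB2q1) (n2 := ndB5q3) (pc := pcB3) (cut := Cut.none) (xt := Ext.none) (P1 := 536870912) (W1 := 536870912) (P2 := 0) (W2 := 1230186008) (P3 := 536870912) (W3 := 50465866) (N0 := 3) (En := eng) (mo := mog) (C1 := cd2q1) (C2 := cd5q3) (C3 := pd3)
    rfl k0_pm_133

noncomputable def f_pm_202_a : ℕ → ℕ → ℕ → ℕ → Bool := onCell 0 536870912 0 536870912 536870912 50465866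
    (rowB 3 eng mog cd2q2a cd5q0 pd2 0 true true false .pp 2 0 2 (qsf 0 536870912 0 536870912 2) ndB2q2a ndB5q0 pcB2 Cut.none Ext.none)

def k0_pm_202_a : ∃ t, chk3 f_pm_202_a t 1 1 1 = true :=
  ⟨(a (b (b (a (b (b (l 16664000) (l 16682608)) (l 16712640)) (b (b (a (l 16665112) (l 16664864)) (l 16786480)) (l 16859144))) (b (a (l 16755832) (l 16759128)) (a (l 4) (l 16810336)))) (b (b (a (l 4) (l 16864040)) (l 4)) (l 4))) (b (b (a (b (a (b (l 16664672) (l 16679552)) (b (l 16664672) (l 16679296))) (a (l 16711840) (b (l 16700448) (l 16727960)))) (a (b (b (a (l 16665712) (b (l 16664600) (l 16670176))) (l 16682064)) (b (l 16706832) (a (l 16735088) (l 16744984)))) (b (a (b (b (a (l 16665912) (b (l 16666072) (l 16668296))) (l 16672808)) (l 16689384)) (b (a (b (b (b (l 16666752) (l 16667816)) (l 16670024)) (l 16677232)) (b (a (b (b (a (l 16667712) (l 16667992)) (l 16669144)) (l 16672448)) (a (b (b (a (l 16668328) (b (l 16668296) (l 16669008))) (l 16670408))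 (l 16674992)) (b (c (l 16705472) (b (a (b (b (l 16613512) (l 16613816)) (l 16614504)) (b (a (l 16613856) (l 16614424)) (l 16615512))) (l 16617368))) (l 16678616)))) (a (l 16682216) (c (l 16745664) (l 16633248))))) (a (l 16699048) (b (l 16703560) (l 16724280))))) (a (b (l 16721504) (l 16762616)) (b (a (l 16738264) (l 16742440)) (l 16771392)))))) (a (b (a (l 16765880) (l 16776184)) (l 16839040)) (b (a (b (l 16778128) (l 16819864)) (b (a (l 16810440) (l 16785120)) (a (l 16841656) (l 16802128)))) (a (l 16888024) (b (l 16841184) (l 16861408)))))) (b (a (b (a (l 16897048) (l 16913712)) (l 17117520)) (b (a (l 16915040) (l 16890448)) (a (l 16898256) (l 16898904)))) (a (b (a (l 4) (l 16847736)) (l 2)) (b (a (l 16876792) (l 16895832)) (a (l 16861704) (l 16888184))))))), by decide +kernel⟩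

theorem c_pm_202_a : CertB 0 536870912 0 536870912 536870912 50465866 3 eng mog cd2q2a cd5q0 pd2 true true false .pp 2 0 2
    ndB2q2a ndB5q0 pcB2 Cut.none Ext.none :=
  certB0 (fam := true) (s1 := true) (s2 := false) (a := 2) (b := 0) (c := 2) (cn := .pp) (n1 := ndB2q2a) (n2 := ndB5q0) (pc := pcB2) (cut := Cut.none) (xt := Ext.none) (P1 := 0) (W1 := 536870912) (P2 := 0) (W2 := 536870912) (P3 := 536870912) (W3 := 50465866) (N0 := 3) (En := eng) (mo := mog) (C1 := cd2q2a) (C2 := cd5q0) (C3 := pd2)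
    rfl k0_pm_202_a

noncomputable def f_pm_202_b : ℕ → ℕ → ℕ → ℕ → Bool := onCell 1239849684 370763052 0 536870912 536870912 50465866
    (rowB 3 eng mog cd2q2b cd5q0 pd2 0 true true false .pp 2 0 2 (qsf 1239849684 370763052 0 536870912 2) ndB2q2b ndB5q0 pcB2 Cut.none Ext.none)

def k0_pm_202_b : ∃ t, chk3 f_pm_202_b t 1 1 1 = true :=
  ⟨(b (a (b (a (b (a (b (l 16664704) (l 16684208)) (l 16717760)) (a (l 16798216) (l 16716832))) (b (a (l 16676264) (l 16674200)) (l 4))) (l 4)) (l 4)) (l 4)), by decide +kernel⟩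

theorem c_pm_202_b : CertB 1239849684 370763052 0 536870912 536870912 50465866 3 eng mog cd2q2b cd5q0 pd2 true true false .pp 2 0 2
    ndB2q2b ndB5q0 pcB2 Cut.none Ext.none :=
  certB0 (fam := true) (s1 := true) (s2 := false) (a := 2) (b := 0) (c := 2) (cn := .pp) (n1 := ndB2q2b) (n2 := ndB5q0) (pc := pcB2) (cut := Cut.none) (xt := Ext.none) (P1 := 1239849684) (W1 := 370763052) (P2 := 0) (W2 := 536870912) (P3 := 536870912) (W3 := 50465866) (N0 := 3) (En := eng) (mo := mog) (C1 := cd2q2b) (C2 := cd5q0) (C3 := pd2)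
    rfl k0_pm_202_b

noncomputable def f_pm_203_a : ℕ → ℕ → ℕ → ℕ → Bool := onCell 0 536870912 1610612736 536870912 536870912 50465866
    (rowB 3 eng mog cd2q2a cd5q0 pd3 1 true true false .up 2 0 3 (qsf 0 536870912 0 536870912 3) ndB2q2a ndB5q0 pcB3 Cut.none Ext.none)

def k0_pm_203_a : ∃ t, chk3 f_pm_203_a t 1 1 1 = true :=
  ⟨(b (b (a (l 4) (b (a (l 4) (l 16867904)) (l 4))) (l 4)) (l 2)), by decide +kernel⟩

theorem c_pm_203_a : CertB 0 536870912 0 536870912 536870912 50465866 3 eng mog cd2q2a cd5q0 pd3 true true false .up 2 0 3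
    ndB2q2a ndB5q0 pcB3 Cut.none Ext.none :=
  certB1 (fam := true) (s1 := true) (s2 := false) (a := 2) (b := 0) (c := 3) (cn := .up) (n1 := ndB2q2a) (n2 := ndB5q0) (pc := pcB3) (cut := Cut.none) (xt := Ext.none) (P1 := 0) (W1 := 536870912) (P2 := 0) (W2 := 536870912) (P3 := 536870912) (W3 := 50465866) (N0 := 3) (En := eng) (mo := mog) (C1 := cd2q2a) (C2 := cd5q0) (C3 := pd3)
    rfl (fun _ => rfl) k0_pm_203_a

noncomputable def f_pm_203_b : ℕ → ℕ → ℕ → ℕ → Bool := onCell 1239849684 370763052 1610612736 536870912 536870912 50465866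
    (rowB 3 eng mog cd2q2b cd5q0 pd3 1 true true false .up 2 0 3 (qsf 1239849684 370763052 0 536870912 3) ndB2q2b ndB5q0 pcB3 Cut.none Ext.none)

def k0_pm_203_b : ∃ t, chk3 f_pm_203_b t 1 1 1 = true :=
  ⟨(l 4), by decide +kernel⟩

theorem c_pm_203_b : CertB 1239849684 370763052 0 536870912 536870912 50465866 3 eng mog cd2q2b cd5q0 pd3 true true false .up 2 0 3
    ndB2q2b ndB5q0 pcB3 Cut.none Ext.none :=
  certB1 (fam := true) (s1 := true) (s2 := false) (a := 2) (b := 0) (c := 3) (cn := .up) (n1 := ndB2q2b) (n2 := ndB5q0) (pc := pcB3) (cut := Cut.none) (xt := Ext.none) (P1 := 1239849684) (W1 := 370763052) (P2 := 0) (W2 := 536870912) (P3 := 536870912) (W3 := 50465866) (N0 := 3) (En := eng) (mo := mog) (C1 := cd2q2b) (C2 := cd5q0) (C3 := pd3)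
    rfl (fun _ => rfl) k0_pm_203_b

noncomputable def f_pm_213_a : ℕ → ℕ → ℕ → ℕ → Bool := onCell 0 536870912 1610612736 536870912 536870912 50465866
    (rowB 3 eng mog cd2q2a cd5q1 pd3 1 true true false .pnn 2 1 3 (qsf 0 536870912 536870912 536870912 3) ndB2q2a ndB5q1 pcB3 Cut.none Ext.none)

def k0_pm_213_a : ∃ t, chk3 f_pm_213_a t 1 1 1 = true :=
  ⟨(b (b (a (l 4) (b (l 16935952) (l 4))) (l 4)) (l 4)), by decide +kernel⟩

theorem c_pm_213_a : CertB 0 536870912 536870912 536870912 536870912 50465866 3 eng mog cd2q2a cd5q1 pd3 true true false .pnn 2 1 3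
    ndB2q2a ndB5q1 pcB3 Cut.none Ext.none :=
  certB1 (fam := true) (s1 := true) (s2 := false) (a := 2) (b := 1) (c := 3) (cn := .pnn) (n1 := ndB2q2a) (n2 := ndB5q1) (pc := pcB3) (cut := Cut.none) (xt := Ext.none) (P1 := 0) (W1 := 536870912) (P2 := 536870912) (W2 := 536870912) (P3 := 536870912) (W3 := 50465866) (N0 := 3) (En := eng) (mo := mog) (C1 := cd2q2a) (C2 := cd5q1) (C3 := pd3)
    rfl (fun _ => rfl) k0_pm_213_a

noncomputable def f_pm_213_b : ℕ → ℕ → ℕ → ℕ → Bool := onCell 1239849684 370763052 536870912 536870912 536870912 50465866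
    (rowB 3 eng mog cd2q2b cd5q1 pd3 0 true true false .pnn 2 1 3 (qsf 1239849684 370763052 536870912 536870912 3) ndB2q2b ndB5q1 pcB3 Cut.none Ext.none)

def k0_pm_213_b : ∃ t, chk3 f_pm_213_b t 1 1 1 = true :=
  ⟨(l 4), by decide +kernel⟩

theorem c_pm_213_b : CertB 1239849684 370763052 536870912 536870912 536870912 50465866 3 eng mog cd2q2b cd5q1 pd3 true true false .pnn 2 1 3
    ndB2q2b ndB5q1 pcB3 Cut.none Ext.none :=
  certB0 (fam := true) (s1 := true) (s2 := false) (a := 2) (b := 1) (c := 3) (cn := .pnn) (n1 := ndB2q2b) (n2 := ndB5q1) (pc := pcB3) (cut := Cut.none) (xt := Ext.none) (P1 := 1239849684) (W1 := 370763052) (P2 := 536870912) (W2 := 536870912) (P3 := 536870912) (W3 := 50465866) (N0 := 3) (En := eng) (mo := mog) (C1 := cd2q2b) (C2 := cd5q1) (C3 := pd3)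
    rfl k0_pm_213_b

noncomputable def f_pm_303 : ℕ → ℕ → ℕ → ℕ → Bool := onCell 1610612736 536870912 0 536870912 536870912 50465866
    (rowB 3 eng mog cd2q3 cd5q0 pd3 0 true true false .npn 3 0 3 (qsf 1610612736 536870912 0 536870912 3) ndB2q3 ndB5q0 pcB3 Cut.none Ext.none)

def k0_pm_303 : ∃ t, chk3 f_pm_303 t 1 1 1 = true :=
  ⟨(l 4), by decide +kernel⟩

theorem c_pm_303 : CertB 1610612736 536870912 0 536870912 536870912 50465866 3 eng mog cd2q3 cd5q0 pd3 true true false .npn 3 0 3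
    ndB2q3 ndB5q0 pcB3 Cut.none Ext.none :=
  certB0 (fam := true) (s1 := true) (s2 := false) (a := 3) (b := 0) (c := 3) (cn := .npn) (n1 := ndB2q3) (n2 := ndB5q0) (pc := pcB3) (cut := Cut.none) (xt := Ext.none) (P1 := 1610612736) (W1 := 536870912) (P2 := 0) (W2 := 536870912) (P3 := 536870912) (W3 := 50465866) (N0 := 3) (En := eng) (mo := mog) (C1 := cd2q3) (C2 := cd5q0) (C3 := pd3)
    rfl k0_pm_303

noncomputable def f_pm_313 : ℕ → ℕ → ℕ → ℕ → Bool := onCell 1610612736 536870912 536870912 536870912 536870912 50465866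
    (rowB 3 eng mog cd2q3 cd5q1 pd3 0 true true false .dn 3 1 3 (qsf 1610612736 536870912 536870912 536870912 3) ndB2q3 ndB5q1 pcB3 Cut.none Ext.none)

def k0_pm_313 : ∃ t, chk3 f_pm_313 t 1 1 1 = true :=
  ⟨(l 4), by decide +kernel⟩

theorem c_pm_313 : CertB 1610612736 536870912 536870912 536870912 536870912 50465866 3 eng mog cd2q3 cd5q1 pd3 true true false .dn 3 1 3
    ndB2q3 ndB5q1 pcB3 Cut.none Ext.none :=
  certB0 (fam := true) (s1 := true) (s2 := false) (a := 3) (b := 1) (c := 3) (cn := .dn) (n1 := ndB2q3) (n2 := ndB5q1) (pc := pcB3) (cut := Cut.none) (xt := Ext.none) (P1 := 1610612736) (W1 := 536870912) (P2 := 536870912) (W2 := 536870912) (P3 := 536870912) (W3 := 50465866) (N0 := 3) (En := eng) (mo := mog) (C1 := cd2q3) (C2 := cd5q1) (C3 := pd3)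
    rfl k0_pm_313

noncomputable def f_mm_001 : ℕ → ℕ → ℕ → ℕ → Bool := onCell 0 536870912 0 536870912 536870912 50465866
    (rowB 3 eng mog cd2q0 cd5q0 pd1 0 true false false .up 0 0 1 (qsf 0 536870912 0 536870912 1) ndB2q0 ndB5q0 pcB1 Cut.none Ext.none)

def k0_mm_001 : ∃ t, chk3 f_mm_001 t 1 1 1 = true :=
  ⟨(l 4), by decide +kernel⟩

theorem c_mm_001 : CertB 0 536870912 0 536870912 536870912 50465866 3 eng mog cd2q0 cd5q0 pd1 true false false .up 0 0 1
    ndB2q0 ndB5q0 pcB1 Cut.none Ext.none :=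
  certB0 (fam := true) (s1 := false) (s2 := false) (a := 0) (b := 0) (c := 1) (cn := .up) (n1 := ndB2q0) (n2 := ndB5q0) (pc := pcB1) (cut := Cut.none) (xt := Ext.none) (P1 := 0) (W1 := 536870912) (P2 := 0) (W2 := 536870912) (P3 := 536870912) (W3 := 50465866) (N0 := 3) (En := eng) (mo := mog) (C1 := cd2q0) (C2 := cd5q0) (C3 := pd1)
    rfl k0_mm_001

noncomputable def f_mm_011 : ℕ → ℕ → ℕ → ℕ → Bool := onCell 0 536870912 536870912 536870912 536870912 50465866
    (rowB 3 eng mog cd2q0 cd5q1 pd1 0 true false false .pnn 0 1 1 (qsf 0 536870912 536870912 536870912 1) ndB2q0 ndB5q1 pcB1 Cut.none Ext.none)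

def k0_mm_011 : ∃ t, chk3 f_mm_011 t 1 1 1 = true :=
  ⟨(l 4), by decide +kernel⟩

theorem c_mm_011 : CertB 0 536870912 536870912 536870912 536870912 50465866 3 eng mog cd2q0 cd5q1 pd1 true false false .pnn 0 1 1
    ndB2q0 ndB5q1 pcB1 Cut.none Ext.none :=
  certB0 (fam := true) (s1 := false) (s2 := false) (a := 0) (b := 1) (c := 1) (cn := .pnn) (n1 := ndB2q0) (n2 := ndB5q1) (pc := pcB1) (cut := Cut.none) (xt := Ext.none) (P1 := 0) (W1 := 536870912) (P2 := 536870912) (W2 := 536870912) (P3 := 536870912) (W3 := 50465866) (N0 := 3) (En := eng) (mo := mog) (C1 := cd2q0) (C2 := cd5q1) (C3 := pd1)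
    rfl k0_mm_011

noncomputable def f_mm_012 : ℕ → ℕ → ℕ → ℕ → Bool := onCell 0 536870912 536870912 536870912 536870912 50465866
    (rowB 3 eng mog cd2q0 cd5q1 pd2 0 true false false .pnp 0 1 2 (qsf 0 536870912 536870912 536870912 2) ndB2q0 ndB5q1 pcB2 Cut.none Ext.none)

def k0_mm_012 : ∃ t, chk3 f_mm_012 t 1 1 1 = true :=
  ⟨(l 4), by decide +kernel⟩

theorem c_mm_012 : CertB 0 536870912 536870912 536870912 536870912 50465866 3 eng mog cd2q0 cd5q1 pd2 true false false .pnp 0 1 2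
    ndB2q0 ndB5q1 pcB2 Cut.none Ext.none :=
  certB0 (fam := true) (s1 := false) (s2 := false) (a := 0) (b := 1) (c := 2) (cn := .pnp) (n1 := ndB2q0) (n2 := ndB5q1) (pc := pcB2) (cut := Cut.none) (xt := Ext.none) (P1 := 0) (W1 := 536870912) (P2 := 536870912) (W2 := 536870912) (P3 := 536870912) (W3 := 50465866) (N0 := 3) (En := eng) (mo := mog) (C1 := cd2q0) (C2 := cd5q1) (C3 := pd2)
    rfl k0_mm_012

noncomputable def f_mm_022 : ℕ → ℕ → ℕ → ℕ → Bool := onCell 0 536870912 1073741824 536870912 536870912 50465866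
    (rowB 3 eng mog cd2q0 cd5q2 pd2 0 true false false .pp 0 2 2 (qsf 0 536870912 1073741824 536870912 2) ndB2q0 ndB5q2 pcB2 Cut.none Ext.none)

def k0_mm_022 : ∃ t, chk3 f_mm_022 t 1 1 1 = true :=
  ⟨(l 4), by decide +kernel⟩

theorem c_mm_022 : CertB 0 536870912 1073741824 536870912 536870912 50465866 3 eng mog cd2q0 cd5q2 pd2 true false false .pp 0 2 2
    ndB2q0 ndB5q2 pcB2 Cut.none Ext.none :=
  certB0 (fam := true) (s1 := false) (s2 := false) (a := 0) (b := 2) (c := 2) (cn := .pp) (n1 := ndB2q0) (n2 := ndB5q2) (pc := pcB2) (cut := Cut.none) (xt := Ext.none) (P1 := 0) (W1 := 536870912) (P2 := 1073741824) (W2 := 536870912) (P3 := 536870912) (W3 := 50465866) (N0 := 3) (En := eng) (mo := mog) (C1 := cd2q0) (C2 := cd5q2) (C3 := pd2)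
    rfl k0_mm_022

noncomputable def f_mm_023 : ℕ → ℕ → ℕ → ℕ → Bool := onCell 0 536870912 1073741824 536870912 536870912 50465866
    (rowB 3 eng mog cd2q0 cd5q2 pd3 0 true false false .up 0 2 3 (qsf 0 536870912 1073741824 536870912 3) ndB2q0 ndB5q2 pcB3 Cut.none Ext.none)

def k0_mm_023 : ∃ t, chk3 f_mm_023 t 1 1 1 = true :=
  ⟨(l 4), by decide +kernel⟩

theorem c_mm_023 : CertB 0 536870912 1073741824 536870912 536870912 50465866 3 eng mog cd2q0 cd5q2 pd3 true false false .up 0 2 3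
    ndB2q0 ndB5q2 pcB3 Cut.none Ext.none :=
  certB0 (fam := true) (s1 := false) (s2 := false) (a := 0) (b := 2) (c := 3) (cn := .up) (n1 := ndB2q0) (n2 := ndB5q2) (pc := pcB3) (cut := Cut.none) (xt := Ext.none) (P1 := 0) (W1 := 536870912) (P2 := 1073741824) (W2 := 536870912) (P3 := 536870912) (W3 := 50465866) (N0 := 3) (En := eng) (mo := mog) (C1 := cd2q0) (C2 := cd5q2) (C3 := pd3)
    rfl k0_mm_023

noncomputable def f_mm_033 : ℕ → ℕ → ℕ → ℕ → Bool := onCell 0 536870912 0 1230186008 536870912 50465866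
    (rowB 3 eng mog cd2q0 cd5q3 pd3 0 true false false .pnn 0 3 3 (qsf 0 536870912 0 1230186008 3) ndB2q0 ndB5q3 pcB3 Cut.none Ext.none)

def k0_mm_033 : ∃ t, chk3 f_mm_033 t 1 1 1 = true :=
  ⟨(l 5), by decide +kernel⟩

theorem c_mm_033 : CertB 0 536870912 0 1230186008 536870912 50465866 3 eng mog cd2q0 cd5q3 pd3 true false false .pnn 0 3 3
    ndB2q0 ndB5q3 pcB3 Cut.none Ext.none :=
  certB0 (fam := true) (s1 := false) (s2 := false) (a := 0) (b := 3) (c := 3) (cn := .pnn) (n1 := ndB2q0) (n2 := ndB5q3) (pc := pcB3) (cut := Cut.none) (xt := Ext.none) (P1 := 0) (W1 := 536870912) (P2 := 0) (W2 := 1230186008) (P3 := 536870912) (W3 := 50465866) (N0 := 3) (En := eng) (mo := mog) (C1 := cd2q0) (C2 := cd5q3) (C3 := pd3)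
    rfl k0_mm_033

noncomputable def f_mm_101 : ℕ → ℕ → ℕ → ℕ → Bool := onCell 536870912 536870912 0 536870912 536870912 50465866
    (rowB 3 eng mog cd2q1 cd5q0 pd1 0 true false false .npn 1 0 1 (qsf 536870912 536870912 0 536870912 1) ndB2q1 ndB5q0 pcB1 Cut.none Ext.none)

def k0_mm_101 : ∃ t, chk3 f_mm_101 t 1 1 1 = true :=
  ⟨(l 4), by decide +kernel⟩

theorem c_mm_101 : CertB 536870912 536870912 0 536870912 536870912 50465866 3 eng mog cd2q1 cd5q0 pd1 true false false .npn 1 0 1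
    ndB2q1 ndB5q0 pcB1 Cut.none Ext.none :=
  certB0 (fam := true) (s1 := false) (s2 := false) (a := 1) (b := 0) (c := 1) (cn := .npn) (n1 := ndB2q1) (n2 := ndB5q0) (pc := pcB1) (cut := Cut.none) (xt := Ext.none) (P1 := 536870912) (W1 := 536870912) (P2 := 0) (W2 := 536870912) (P3 := 536870912) (W3 := 50465866) (N0 := 3) (En := eng) (mo := mog) (C1 := cd2q1) (C2 := cd5q0) (C3 := pd1)
    rfl k0_mm_101

noncomputable def f_mm_102 : ℕ → ℕ → ℕ → ℕ → Bool := onCell 536870912 536870912 0 536870912 536870912 50465866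
    (rowB 3 eng mog cd2q1 cd5q0 pd2 0 true false false .npp 1 0 2 (qsf 536870912 536870912 0 536870912 2) ndB2q1 ndB5q0 pcB2 Cut.none Ext.none)

def k0_mm_102 : ∃ t, chk3 f_mm_102 t 1 1 1 = true :=
  ⟨(l 4), by decide +kernel⟩

theorem c_mm_102 : CertB 536870912 536870912 0 536870912 536870912 50465866 3 eng mog cd2q1 cd5q0 pd2 true false false .npp 1 0 2
    ndB2q1 ndB5q0 pcB2 Cut.none Ext.none :=
  certB0 (fam := true) (s1 := false) (s2 := false) (a := 1) (b := 0) (c := 2) (cn := .npp) (n1 := ndB2q1) (n2 := ndB5q0) (pc := pcB2) (cut := Cut.none) (xt := Ext.none) (P1 := 536870912) (W1 := 536870912) (P2 := 0) (W2 := 536870912) (P3 := 536870912) (W3 := 50465866) (N0 := 3) (En := eng) (mo := mog) (C1 := cd2q1) (C2 := cd5q0) (C3 := pd2)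
    rfl k0_mm_102

noncomputable def f_mm_112 : ℕ → ℕ → ℕ → ℕ → Bool := onCell 536870912 536870912 536870912 536870912 536870912 50465866
    (rowB 3 eng mog cd2q1 cd5q1 pd2 0 true false false .dn 1 1 2 (qsf 536870912 536870912 536870912 536870912 2) ndB2q1 ndB5q1 pcB2 Cut.none Ext.none)

def k0_mm_112 : ∃ t, chk3 f_mm_112 t 1 1 1 = true :=
  ⟨(l 4), by decide +kernel⟩

theorem c_mm_112 : CertB 536870912 536870912 536870912 536870912 536870912 50465866 3 eng mog cd2q1 cd5q1 pd2 true false false .dn 1 1 2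
    ndB2q1 ndB5q1 pcB2 Cut.none Ext.none :=
  certB0 (fam := true) (s1 := false) (s2 := false) (a := 1) (b := 1) (c := 2) (cn := .dn) (n1 := ndB2q1) (n2 := ndB5q1) (pc := pcB2) (cut := Cut.none) (xt := Ext.none) (P1 := 536870912) (W1 := 536870912) (P2 := 536870912) (W2 := 536870912) (P3 := 536870912) (W3 := 50465866) (N0 := 3) (En := eng) (mo := mog) (C1 := cd2q1) (C2 := cd5q1) (C3 := pd2)
    rfl k0_mm_112

noncomputable def f_mm_113 : ℕ → ℕ → ℕ → ℕ → Bool := onCell 536870912 536870912 536870912 536870912 536870912 50465866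
    (rowB 3 eng mog cd2q1 cd5q1 pd3 0 true false false .nn 1 1 3 (qsf 536870912 536870912 536870912 536870912 3) ndB2q1 ndB5q1 pcB3 Cut.none Ext.none)

def k0_mm_113 : ∃ t, chk3 f_mm_113 t 1 1 1 = true :=
  ⟨(l 4), by decide +kernel⟩

theorem c_mm_113 : CertB 536870912 536870912 536870912 536870912 536870912 50465866 3 eng mog cd2q1 cd5q1 pd3 true false false .nn 1 1 3
    ndB2q1 ndB5q1 pcB3 Cut.none Ext.none :=
  certB0 (fam := true) (s1 := false) (s2 := false) (a := 1) (b := 1) (c := 3) (cn := .nn) (n1 := ndB2q1) (n2 := ndB5q1) (pc := pcB3) (cut := Cut.none) (xt := Ext.none) (P1 := 536870912) (W1 := 536870912) (P2 := 536870912) (W2 := 536870912) (P3 := 536870912) (W3 := 50465866) (N0 := 3) (En := eng) (mo := mog) (C1 := cd2q1) (C2 := cd5q1) (C3 := pd3)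
    rfl k0_mm_113

noncomputable def f_mm_123 : ℕ → ℕ → ℕ → ℕ → Bool := onCell 536870912 536870912 1073741824 536870912 536870912 50465866
    (rowB 3 eng mog cd2q1 cd5q2 pd3 0 true false false .npn 1 2 3 (qsf 536870912 536870912 1073741824 536870912 3) ndB2q1 ndB5q2 pcB3 Cut.none Ext.none)

def k0_mm_123 : ∃ t, chk3 f_mm_123 t 1 1 1 = true :=
  ⟨(l 4), by decide +kernel⟩

theorem c_mm_123 : CertB 536870912 536870912 1073741824 536870912 536870912 50465866 3 eng mog cd2q1 cd5q2 pd3 true false false .npn 1 2 3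
    ndB2q1 ndB5q2 pcB3 Cut.none Ext.none :=
  certB0 (fam := true) (s1 := false) (s2 := false) (a := 1) (b := 2) (c := 3) (cn := .npn) (n1 := ndB2q1) (n2 := ndB5q2) (pc := pcB3) (cut := Cut.none) (xt := Ext.none) (P1 := 536870912) (W1 := 536870912) (P2 := 1073741824) (W2 := 536870912) (P3 := 536870912) (W3 := 50465866) (N0 := 3) (En := eng) (mo := mog) (C1 := cd2q1) (C2 := cd5q2) (C3 := pd3)
    rfl k0_mm_123

noncomputable def f_mm_133 : ℕ → ℕ → ℕ → ℕ → Bool := onCell 536870912 536870912 0 1230186008 536870912 50465866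
    (rowB 3 eng mog cd2q1 cd5q3 pd3 0 true false false .dn 1 3 3 (qsf 536870912 536870912 0 1230186008 3) ndB2q1 ndB5q3 pcB3 Cut.none Ext.none)

def k0_mm_133 : ∃ t, chk3 f_mm_133 t 1 1 1 = true :=
  ⟨(l 4), by decide +kernel⟩

theorem c_mm_133 : CertB 536870912 536870912 0 1230186008 536870912 50465866 3 eng mog cd2q1 cd5q3 pd3 true false false .dn 1 3 3
    ndB2q1 ndB5q3 pcB3 Cut.none Ext.none :=
  certB0 (fam := true) (s1 := false) (s2 := false) (a := 1) (b := 3) (c := 3) (cn := .dn) (n1 := ndB2q1) (n2 := ndB5q3) (pc := pcB3) (cut := Cut.none) (xt := Ext.none) (P1 := 536870912) (W1 := 536870912) (P2 := 0) (W2 := 1230186008) (P3 := 536870912) (W3 := 50465866) (N0 := 3) (En := eng) (mo := mog) (C1 := cd2q1) (C2 := cd5q3) (C3 := pd3)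
    rfl k0_mm_133

noncomputable def f_mm_202_a : ℕ → ℕ → ℕ → ℕ → Bool := onCell 0 536870912 0 536870912 536870912 50465866
    (rowB 3 eng mog cd2q2a cd5q0 pd2 0 true false false .pp 2 0 2 (qsf 0 536870912 0 536870912 2) ndB2q2a ndB5q0 pcB2 Cut.none Ext.none)

def k0_mm_202_a : ∃ t, chk3 f_mm_202_a t 1 1 1 = true :=
  ⟨(l 4), by decide +kernel⟩

theorem c_mm_202_a : CertB 0 536870912 0 536870912 536870912 50465866 3 eng mog cd2q2a cd5q0 pd2 true false false .pp 2 0 2
    ndB2q2a ndB5q0 pcB2 Cut.none Ext.none :=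
  certB0 (fam := true) (s1 := false) (s2 := false) (a := 2) (b := 0) (c := 2) (cn := .pp) (n1 := ndB2q2a) (n2 := ndB5q0) (pc := pcB2) (cut := Cut.none) (xt := Ext.none) (P1 := 0) (W1 := 536870912) (P2 := 0) (W2 := 536870912) (P3 := 536870912) (W3 := 50465866) (N0 := 3) (En := eng) (mo := mog) (C1 := cd2q2a) (C2 := cd5q0) (C3 := pd2)
    rfl k0_mm_202_a

noncomputable def f_mm_202_b : ℕ → ℕ → ℕ → ℕ → Bool := onCell 1239849684 370763052 0 536870912 536870912 50465866
    (rowB 3 eng mog cd2q2b cd5q0 pd2 0 true false false .pp 2 0 2 (qsf 1239849684 370763052 0 536870912 2) ndB2q2b ndB5q0 pcB2 Cut.none Ext.none)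

def k0_mm_202_b : ∃ t, chk3 f_mm_202_b t 1 1 1 = true :=
  ⟨(l 4), by decide +kernel⟩

theorem c_mm_202_b : CertB 1239849684 370763052 0 536870912 536870912 50465866 3 eng mog cd2q2b cd5q0 pd2 true false false .pp 2 0 2
    ndB2q2b ndB5q0 pcB2 Cut.none Ext.none :=
  certB0 (fam := true) (s1 := false) (s2 := false) (a := 2) (b := 0) (c := 2) (cn := .pp) (n1 := ndB2q2b) (n2 := ndB5q0) (pc := pcB2) (cut := Cut.none) (xt := Ext.none) (P1 := 1239849684) (W1 := 370763052) (P2 := 0) (W2 := 536870912) (P3 := 536870912) (W3 := 50465866) (N0 := 3) (En := eng) (mo := mog) (C1 := cd2q2b) (C2 := cd5q0) (C3 := pd2)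
    rfl k0_mm_202_b

noncomputable def f_mm_203_a : ℕ → ℕ → ℕ → ℕ → Bool := onCell 0 536870912 0 536870912 536870912 50465866
    (rowB 3 eng mog cd2q2a cd5q0 pd3 0 true false false .up 2 0 3 (qsf 0 536870912 0 536870912 3) ndB2q2a ndB5q0 pcB3 Cut.none Ext.none)

def k0_mm_203_a : ∃ t, chk3 f_mm_203_a t 1 1 1 = true :=
  ⟨(l 4), by decide +kernel⟩

theorem c_mm_203_a : CertB 0 536870912 0 536870912 536870912 50465866 3 eng mog cd2q2a cd5q0 pd3 true false false .up 2 0 3
    ndB2q2a ndB5q0 pcB3 Cut.none Ext.none :=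
  certB0 (fam := true) (s1 := false) (s2 := false) (a := 2) (b := 0) (c := 3) (cn := .up) (n1 := ndB2q2a) (n2 := ndB5q0) (pc := pcB3) (cut := Cut.none) (xt := Ext.none) (P1 := 0) (W1 := 536870912) (P2 := 0) (W2 := 536870912) (P3 := 536870912) (W3 := 50465866) (N0 := 3) (En := eng) (mo := mog) (C1 := cd2q2a) (C2 := cd5q0) (C3 := pd3)
    rfl k0_mm_203_a

noncomputable def f_mm_203_b : ℕ → ℕ → ℕ → ℕ → Bool := onCell 1239849684 370763052 0 536870912 536870912 50465866
    (rowB 3 eng mog cd2q2b cd5q0 pd3 0 true false false .up 2 0 3 (qsf 1239849684 370763052 0 536870912 3) ndB2q2b ndB5q0 pcB3 Cut.none Ext.none)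

def k0_mm_203_b : ∃ t, chk3 f_mm_203_b t 1 1 1 = true :=
  ⟨(l 4), by decide +kernel⟩

theorem c_mm_203_b : CertB 1239849684 370763052 0 536870912 536870912 50465866 3 eng mog cd2q2b cd5q0 pd3 true false false .up 2 0 3
    ndB2q2b ndB5q0 pcB3 Cut.none Ext.none :=
  certB0 (fam := true) (s1 := false) (s2 := false) (a := 2) (b := 0) (c := 3) (cn := .up) (n1 := ndB2q2b) (n2 := ndB5q0) (pc := pcB3) (cut := Cut.none) (xt := Ext.none) (P1 := 1239849684) (W1 := 370763052) (P2 := 0) (W2 := 536870912) (P3 := 536870912) (W3 := 50465866) (N0 := 3) (En := eng) (mo := mog) (C1 := cd2q2b) (C2 := cd5q0) (C3 := pd3)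
    rfl k0_mm_203_b

noncomputable def f_mm_213_a : ℕ → ℕ → ℕ → ℕ → Bool := onCell 0 536870912 536870912 536870912 536870912 50465866
    (rowB 3 eng mog cd2q2a cd5q1 pd3 0 true false false .pnn 2 1 3 (qsf 0 536870912 536870912 536870912 3) ndB2q2a ndB5q1 pcB3 Cut.none Ext.none)

def k0_mm_213_a : ∃ t, chk3 f_mm_213_a t 1 1 1 = true :=
  ⟨(l 4), by decide +kernel⟩

theorem c_mm_213_a : CertB 0 536870912 536870912 536870912 536870912 50465866 3 eng mog cd2q2a cd5q1 pd3 true false false .pnn 2 1 3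
    ndB2q2a ndB5q1 pcB3 Cut.none Ext.none :=
  certB0 (fam := true) (s1 := false) (s2 := false) (a := 2) (b := 1) (c := 3) (cn := .pnn) (n1 := ndB2q2a) (n2 := ndB5q1) (pc := pcB3) (cut := Cut.none) (xt := Ext.none) (P1 := 0) (W1 := 536870912) (P2 := 536870912) (W2 := 536870912) (P3 := 536870912) (W3 := 50465866) (N0 := 3) (En := eng) (mo := mog) (C1 := cd2q2a) (C2 := cd5q1) (C3 := pd3)
    rfl k0_mm_213_a

noncomputable def f_mm_213_b : ℕ → ℕ → ℕ → ℕ → Bool := onCell 1239849684 370763052 536870912 536870912 536870912 50465866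
    (rowB 3 eng mog cd2q2b cd5q1 pd3 0 true false false .pnn 2 1 3 (qsf 1239849684 370763052 536870912 536870912 3) ndB2q2b ndB5q1 pcB3 Cut.none Ext.none)

def k0_mm_213_b : ∃ t, chk3 f_mm_213_b t 1 1 1 = true :=
  ⟨(l 4), by decide +kernel⟩

theorem c_mm_213_b : CertB 1239849684 370763052 536870912 536870912 536870912 50465866 3 eng mog cd2q2b cd5q1 pd3 true false false .pnn 2 1 3
    ndB2q2b ndB5q1 pcB3 Cut.none Ext.none :=
  certB0 (fam := true) (s1 := false) (s2 := false) (a := 2) (b := 1) (c := 3) (cn := .pnn) (n1 := ndB2q2b) (n2 := ndB5q1) (pc := pcB3) (cut := Cut.none) (xt := Ext.none) (P1 := 1239849684) (W1 := 370763052) (P2 := 536870912) (W2 := 536870912) (P3 := 536870912) (W3 := 50465866) (N0 := 3) (En := eng) (mo := mog) (C1 := cd2q2b) (C2 := cd5q1) (C3 := pd3)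
    rfl k0_mm_213_b

noncomputable def f_mm_303 : ℕ → ℕ → ℕ → ℕ → Bool := onCell 1610612736 536870912 0 536870912 536870912 50465866
    (rowB 3 eng mog cd2q3 cd5q0 pd3 0 true false false .npn 3 0 3 (qsf 1610612736 536870912 0 536870912 3) ndB2q3 ndB5q0 pcB3 Cut.none Ext.none)

def k0_mm_303 : ∃ t, chk3 f_mm_303 t 1 1 1 = true :=
  ⟨(l 4), by decide +kernel⟩

theorem c_mm_303 : CertB 1610612736 536870912 0 536870912 536870912 50465866 3 eng mog cd2q3 cd5q0 pd3 true false false .npn 3 0 3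
    ndB2q3 ndB5q0 pcB3 Cut.none Ext.none :=
  certB0 (fam := true) (s1 := false) (s2 := false) (a := 3) (b := 0) (c := 3) (cn := .npn) (n1 := ndB2q3) (n2 := ndB5q0) (pc := pcB3) (cut := Cut.none) (xt := Ext.none) (P1 := 1610612736) (W1 := 536870912) (P2 := 0) (W2 := 536870912) (P3 := 536870912) (W3 := 50465866) (N0 := 3) (En := eng) (mo := mog) (C1 := cd2q3) (C2 := cd5q0) (C3 := pd3)
    rfl k0_mm_303

noncomputable def f_mm_313 : ℕ → ℕ → ℕ → ℕ → Bool := onCell 1610612736 536870912 536870912 536870912 536870912 50465866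
    (rowB 3 eng mog cd2q3 cd5q1 pd3 0 true false false .dn 3 1 3 (qsf 1610612736 536870912 536870912 536870912 3) ndB2q3 ndB5q1 pcB3 Cut.none Ext.none)

def k0_mm_313 : ∃ t, chk3 f_mm_313 t 1 1 1 = true :=
  ⟨(l 4), by decide +kernel⟩

theorem c_mm_313 : CertB 1610612736 536870912 536870912 536870912 536870912 50465866 3 eng mog cd2q3 cd5q1 pd3 true false false .dn 3 1 3
    ndB2q3 ndB5q1 pcB3 Cut.none Ext.none :=
  certB0 (fam := true) (s1 := false) (s2 := false) (a := 3) (b := 1) (c := 3) (cn := .dn) (n1 := ndB2q3) (n2 := ndB5q1) (pc := pcB3) (cut := Cut.none) (xt := Ext.none) (P1 := 1610612736) (W1 := 536870912) (P2 := 536870912) (W2 := 536870912) (P3 := 536870912) (W3 := 50465866) (N0 := 3) (En := eng) (mo := mog) (C1 := cd2q3) (C2 := cd5q1) (C3 := pd3)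
    rfl k0_mm_313

end Pool.Agent.Strip051.G.I5000_5470.Tab.C.BA25

namespace Pool.Agent.Strip051.G.I5000_5470.Tab.C.BA26

open Pool.Agent.Strip051.PB Pool.Agent.Strip051.PB.T
open Pool.Agent.Strip051.G.I5000_5470.Tab

noncomputable def f_pp_001 : ℕ → ℕ → ℕ → ℕ → Bool := onCell 0 536870912 0 536870912 536870912 50465866
    (rowB 3 eng mog cd2q0 cd6q0 pd1 0 true true true .up 0 0 1 (qsf 0 536870912 0 536870912 1) ndB2q0 ndB6q0 pcB1 Cut.none Ext.none)

def k0_pp_001 : ∃ t, chk3 f_pp_001 t 1 1 1 = true :=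
  ⟨(l 4), by decide +kernel⟩

theorem c_pp_001 : CertB 0 536870912 0 536870912 536870912 50465866 3 eng mog cd2q0 cd6q0 pd1 true true true .up 0 0 1
    ndB2q0 ndB6q0 pcB1 Cut.none Ext.none :=
  certB0 (fam := true) (s1 := true) (s2 := true) (a := 0) (b := 0) (c := 1) (cn := .up) (n1 := ndB2q0) (n2 := ndB6q0) (pc := pcB1) (cut := Cut.none) (xt := Ext.none) (P1 := 0) (W1 := 536870912) (P2 := 0) (W2 := 536870912) (P3 := 536870912) (W3 := 50465866) (N0 := 3) (En := eng) (mo := mog) (C1 := cd2q0) (C2 := cd6q0) (C3 := pd1)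
    rfl k0_pp_001

noncomputable def f_pp_011 : ℕ → ℕ → ℕ → ℕ → Bool := onCell 0 536870912 536870912 536870912 536870912 50465866
    (rowB 3 eng mog cd2q0 cd6q1 pd1 0 true true true .pnn 0 1 1 (qsf 0 536870912 536870912 536870912 1) ndB2q0 ndB6q1 pcB1 Cut.none Ext.none)

def k0_pp_011 : ∃ t, chk3 f_pp_011 t 1 1 1 = true :=
  ⟨(l 4), by decide +kernel⟩

theorem c_pp_011 : CertB 0 536870912 536870912 536870912 536870912 50465866 3 eng mog cd2q0 cd6q1 pd1 true true true .pnn 0 1 1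
    ndB2q0 ndB6q1 pcB1 Cut.none Ext.none :=
  certB0 (fam := true) (s1 := true) (s2 := true) (a := 0) (b := 1) (c := 1) (cn := .pnn) (n1 := ndB2q0) (n2 := ndB6q1) (pc := pcB1) (cut := Cut.none) (xt := Ext.none) (P1 := 0) (W1 := 536870912) (P2 := 536870912) (W2 := 536870912) (P3 := 536870912) (W3 := 50465866) (N0 := 3) (En := eng) (mo := mog) (C1 := cd2q0) (C2 := cd6q1) (C3 := pd1)
    rfl k0_pp_011

noncomputable def f_pp_012 : ℕ → ℕ → ℕ → ℕ → Bool := onCell 0 536870912 536870912 536870912 536870912 50465866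
    (rowB 3 eng mog cd2q0 cd6q1 pd2 0 true true true .pnp 0 1 2 (qsf 0 536870912 536870912 536870912 2) ndB2q0 ndB6q1 pcB2 Cut.none Ext.none)

def k0_pp_012 : ∃ t, chk3 f_pp_012 t 1 1 1 = true :=
  ⟨(l 4), by decide +kernel⟩

theorem c_pp_012 : CertB 0 536870912 536870912 536870912 536870912 50465866 3 eng mog cd2q0 cd6q1 pd2 true true true .pnp 0 1 2
    ndB2q0 ndB6q1 pcB2 Cut.none Ext.none :=
  certB0 (fam := true) (s1 := true) (s2 := true) (a := 0) (b := 1) (c := 2) (cn := .pnp) (n1 := ndB2q0) (n2 := ndB6q1) (pc := pcB2) (cut := Cut.none) (xt := Ext.none) (P1 := 0) (W1 := 536870912) (P2 := 536870912) (W2 := 536870912) (P3 := 536870912) (W3 := 50465866) (N0 := 3) (En := eng) (mo := mog) (C1 := cd2q0) (C2 := cd6q1) (C3 := pd2)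
    rfl k0_pp_012

noncomputable def f_pp_022 : ℕ → ℕ → ℕ → ℕ → Bool := onCell 0 536870912 1073741824 536870912 536870912 50465866
    (rowB 3 eng mog cd2q0 cd6q2 pd2 0 true true true .pp 0 2 2 (qsf 0 536870912 1073741824 536870912 2) ndB2q0 ndB6q2 pcB2 Cut.none Ext.none)

def k0_pp_022 : ∃ t, chk3 f_pp_022 t 1 1 1 = true :=
  ⟨(l 4), by decide +kernel⟩

theorem c_pp_022 : CertB 0 536870912 1073741824 536870912 536870912 50465866 3 eng mog cd2q0 cd6q2 pd2 true true true .pp 0 2 2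
    ndB2q0 ndB6q2 pcB2 Cut.none Ext.none :=
  certB0 (fam := true) (s1 := true) (s2 := true) (a := 0) (b := 2) (c := 2) (cn := .pp) (n1 := ndB2q0) (n2 := ndB6q2) (pc := pcB2) (cut := Cut.none) (xt := Ext.none) (P1 := 0) (W1 := 536870912) (P2 := 1073741824) (W2 := 536870912) (P3 := 536870912) (W3 := 50465866) (N0 := 3) (En := eng) (mo := mog) (C1 := cd2q0) (C2 := cd6q2) (C3 := pd2)
    rfl k0_pp_022

noncomputable def f_pp_023 : ℕ → ℕ → ℕ → ℕ → Bool := onCell 0 536870912 1073741824 536870912 536870912 50465866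
    (rowB 3 eng mog cd2q0 cd6q2 pd3 0 true true true .up 0 2 3 (qsf 0 536870912 1073741824 536870912 3) ndB2q0 ndB6q2 pcB3 Cut.none Ext.none)

def k0_pp_023 : ∃ t, chk3 f_pp_023 t 1 1 1 = true :=
  ⟨(l 4), by decide +kernel⟩

theorem c_pp_023 : CertB 0 536870912 1073741824 536870912 536870912 50465866 3 eng mog cd2q0 cd6q2 pd3 true true true .up 0 2 3
    ndB2q0 ndB6q2 pcB3 Cut.none Ext.none :=
  certB0 (fam := true) (s1 := true) (s2 := true) (a := 0) (b := 2) (c := 3) (cn := .up) (n1 := ndB2q0) (n2 := ndB6q2) (pc := pcB3) (cut := Cut.none) (xt := Ext.none) (P1 := 0) (W1 := 536870912) (P2 := 1073741824) (W2 := 536870912) (P3 := 536870912) (W3 := 50465866) (N0 := 3) (En := eng) (mo := mog) (C1 := cd2q0) (C2 := cd6q2) (C3 := pd3)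
    rfl k0_pp_023

noncomputable def f_pp_033 : ℕ → ℕ → ℕ → ℕ → Bool := onCell 0 536870912 0 1230186008 536870912 50465866
    (rowB 3 eng mog cd2q0 cd6q3 pd3 0 true true true .pnn 0 3 3 (qsf 0 536870912 0 1230186008 3) ndB2q0 ndB6q3 pcB3 Cut.none Ext.none)

def k0_pp_033 : ∃ t, chk3 f_pp_033 t 1 1 1 = true :=
  ⟨(l 4), by decide +kernel⟩

theorem c_pp_033 : CertB 0 536870912 0 1230186008 536870912 50465866 3 eng mog cd2q0 cd6q3 pd3 true true true .pnn 0 3 3
    ndB2q0 ndB6q3 pcB3 Cut.none Ext.none :=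
  certB0 (fam := true) (s1 := true) (s2 := true) (a := 0) (b := 3) (c := 3) (cn := .pnn) (n1 := ndB2q0) (n2 := ndB6q3) (pc := pcB3) (cut := Cut.none) (xt := Ext.none) (P1 := 0) (W1 := 536870912) (P2 := 0) (W2 := 1230186008) (P3 := 536870912) (W3 := 50465866) (N0 := 3) (En := eng) (mo := mog) (C1 := cd2q0) (C2 := cd6q3) (C3 := pd3)
    rfl k0_pp_033

noncomputable def f_pp_101 : ℕ → ℕ → ℕ → ℕ → Bool := onCell 536870912 536870912 0 536870912 536870912 50465866
    (rowB 3 eng mog cd2q1 cd6q0 pd1 0 true true true .npn 1 0 1 (qsf 536870912 536870912 0 536870912 1) ndB2q1 ndB6q0 pcB1 Cut.none Ext.none)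

def k0_pp_101 : ∃ t, chk3 f_pp_101 t 1 1 1 = true :=
  ⟨(l 4), by decide +kernel⟩

theorem c_pp_101 : CertB 536870912 536870912 0 536870912 536870912 50465866 3 eng mog cd2q1 cd6q0 pd1 true true true .npn 1 0 1
    ndB2q1 ndB6q0 pcB1 Cut.none Ext.none :=
  certB0 (fam := true) (s1 := true) (s2 := true) (a := 1) (b := 0) (c := 1) (cn := .npn) (n1 := ndB2q1) (n2 := ndB6q0) (pc := pcB1) (cut := Cut.none) (xt := Ext.none) (P1 := 536870912) (W1 := 536870912) (P2 := 0) (W2 := 536870912) (P3 := 536870912) (W3 := 50465866) (N0 := 3) (En := eng) (mo := mog) (C1 := cd2q1) (C2 := cd6q0) (C3 := pd1)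
    rfl k0_pp_101

noncomputable def f_pp_102 : ℕ → ℕ → ℕ → ℕ → Bool := onCell 536870912 536870912 0 536870912 536870912 50465866
    (rowB 3 eng mog cd2q1 cd6q0 pd2 0 true true true .npp 1 0 2 (qsf 536870912 536870912 0 536870912 2) ndB2q1 ndB6q0 pcB2 Cut.none Ext.none)

def k0_pp_102 : ∃ t, chk3 f_pp_102 t 1 1 1 = true :=
  ⟨(l 4), by decide +kernel⟩

theorem c_pp_102 : CertB 536870912 536870912 0 536870912 536870912 50465866 3 eng mog cd2q1 cd6q0 pd2 true true true .npp 1 0 2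
    ndB2q1 ndB6q0 pcB2 Cut.none Ext.none :=
  certB0 (fam := true) (s1 := true) (s2 := true) (a := 1) (b := 0) (c := 2) (cn := .npp) (n1 := ndB2q1) (n2 := ndB6q0) (pc := pcB2) (cut := Cut.none) (xt := Ext.none) (P1 := 536870912) (W1 := 536870912) (P2 := 0) (W2 := 536870912) (P3 := 536870912) (W3 := 50465866) (N0 := 3) (En := eng) (mo := mog) (C1 := cd2q1) (C2 := cd6q0) (C3 := pd2)
    rfl k0_pp_102

noncomputable def f_pp_112 : ℕ → ℕ → ℕ → ℕ → Bool := onCell 536870912 536870912 536870912 536870912 536870912 50465866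
    (rowB 3 eng mog cd2q1 cd6q1 pd2 0 true true true .dn 1 1 2 (qsf 536870912 536870912 536870912 536870912 2) ndB2q1 ndB6q1 pcB2 Cut.none Ext.none)

def k0_pp_112 : ∃ t, chk3 f_pp_112 t 1 1 1 = true :=
  ⟨(l 4), by decide +kernel⟩

theorem c_pp_112 : CertB 536870912 536870912 536870912 536870912 536870912 50465866 3 eng mog cd2q1 cd6q1 pd2 true true true .dn 1 1 2
    ndB2q1 ndB6q1 pcB2 Cut.none Ext.none :=
  certB0 (fam := true) (s1 := true) (s2 := true) (a := 1) (b := 1) (c := 2) (cn := .dn) (n1 := ndB2q1) (n2 := ndB6q1) (pc := pcB2) (cut := Cut.none) (xt := Ext.none) (P1 := 536870912) (W1 := 536870912) (P2 := 536870912) (W2 := 536870912) (P3 := 536870912) (W3 := 50465866) (N0 := 3) (En := eng) (mo := mog) (C1 := cd2q1) (C2 := cd6q1) (C3 := pd2)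
    rfl k0_pp_112

noncomputable def f_pp_113 : ℕ → ℕ → ℕ → ℕ → Bool := onCell 536870912 536870912 536870912 536870912 536870912 50465866
    (rowB 3 eng mog cd2q1 cd6q1 pd3 0 true true true .nn 1 1 3 (qsf 536870912 536870912 536870912 536870912 3) ndB2q1 ndB6q1 pcB3 Cut.none Ext.none)

def k0_pp_113 : ∃ t, chk3 f_pp_113 t 1 1 1 = true :=
  ⟨(l 4), by decide +kernel⟩

theorem c_pp_113 : CertB 536870912 536870912 536870912 536870912 536870912 50465866 3 eng mog cd2q1 cd6q1 pd3 true true true .nn 1 1 3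
    ndB2q1 ndB6q1 pcB3 Cut.none Ext.none :=
  certB0 (fam := true) (s1 := true) (s2 := true) (a := 1) (b := 1) (c := 3) (cn := .nn) (n1 := ndB2q1) (n2 := ndB6q1) (pc := pcB3) (cut := Cut.none) (xt := Ext.none) (P1 := 536870912) (W1 := 536870912) (P2 := 536870912) (W2 := 536870912) (P3 := 536870912) (W3 := 50465866) (N0 := 3) (En := eng) (mo := mog) (C1 := cd2q1) (C2 := cd6q1) (C3 := pd3)
    rfl k0_pp_113

noncomputable def f_pp_123 : ℕ → ℕ → ℕ → ℕ → Bool := onCell 536870912 536870912 1073741824 536870912 536870912 50465866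
    (rowB 3 eng mog cd2q1 cd6q2 pd3 0 true true true .npn 1 2 3 (qsf 536870912 536870912 1073741824 536870912 3) ndB2q1 ndB6q2 pcB3 Cut.none Ext.none)

def k0_pp_123 : ∃ t, chk3 f_pp_123 t 1 1 1 = true :=
  ⟨(l 4), by decide +kernel⟩

theorem c_pp_123 : CertB 536870912 536870912 1073741824 536870912 536870912 50465866 3 eng mog cd2q1 cd6q2 pd3 true true true .npn 1 2 3
    ndB2q1 ndB6q2 pcB3 Cut.none Ext.none :=
  certB0 (fam := true) (s1 := true) (s2 := true) (a := 1) (b := 2) (c := 3) (cn := .npn) (n1 := ndB2q1) (n2 := ndB6q2) (pc := pcB3) (cut := Cut.none) (xt := Ext.none) (P1 := 536870912) (W1 := 536870912) (P2 := 1073741824) (W2 := 536870912) (P3 := 536870912) (W3 := 50465866) (N0 := 3) (En := eng) (mo := mog) (C1 := cd2q1) (C2 := cd6q2) (C3 := pd3)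
    rfl k0_pp_123

noncomputable def f_pp_133 : ℕ → ℕ → ℕ → ℕ → Bool := onCell 536870912 536870912 0 1230186008 536870912 50465866
    (rowB 3 eng mog cd2q1 cd6q3 pd3 0 true true true .dn 1 3 3 (qsf 536870912 536870912 0 1230186008 3) ndB2q1 ndB6q3 pcB3 Cut.none Ext.none)

def k0_pp_133 : ∃ t, chk3 f_pp_133 t 1 1 1 = true :=
  ⟨(l 4), by decide +kernel⟩

theorem c_pp_133 : CertB 536870912 536870912 0 1230186008 536870912 50465866 3 eng mog cd2q1 cd6q3 pd3 true true true .dn 1 3 3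
    ndB2q1 ndB6q3 pcB3 Cut.none Ext.none :=
  certB0 (fam := true) (s1 := true) (s2 := true) (a := 1) (b := 3) (c := 3) (cn := .dn) (n1 := ndB2q1) (n2 := ndB6q3) (pc := pcB3) (cut := Cut.none) (xt := Ext.none) (P1 := 536870912) (W1 := 536870912) (P2 := 0) (W2 := 1230186008) (P3 := 536870912) (W3 := 50465866) (N0 := 3) (En := eng) (mo := mog) (C1 := cd2q1) (C2 := cd6q3) (C3 := pd3)
    rfl k0_pp_133

noncomputable def f_pp_202_a : ℕ → ℕ → ℕ → ℕ → Bool := onCell 0 536870912 0 536870912 536870912 50465866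
    (rowB 3 eng mog cd2q2a cd6q0 pd2 0 true true true .pp 2 0 2 (qsf 0 536870912 0 536870912 2) ndB2q2a ndB6q0 pcB2 Cut.none Ext.none)

def k0_pp_202_a : ∃ t, chk3 f_pp_202_a t 1 1 1 = true :=
  ⟨(l 4), by decide +kernel⟩

theorem c_pp_202_a : CertB 0 536870912 0 536870912 536870912 50465866 3 eng mog cd2q2a cd6q0 pd2 true true true .pp 2 0 2
    ndB2q2a ndB6q0 pcB2 Cut.none Ext.none :=
  certB0 (fam := true) (s1 := true) (s2 := true) (a := 2) (b := 0) (c := 2) (cn := .pp) (n1 := ndB2q2a) (n2 := ndB6q0) (pc := pcB2) (cut := Cut.none) (xt := Ext.none) (P1 := 0) (W1 := 536870912) (P2 := 0) (W2 := 536870912) (P3 := 536870912) (W3 := 50465866) (N0 := 3) (En := eng) (mo := mog) (C1 := cd2q2a) (C2 := cd6q0) (C3 := pd2)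
    rfl k0_pp_202_a

noncomputable def f_pp_202_b : ℕ → ℕ → ℕ → ℕ → Bool := onCell 1239849684 370763052 0 536870912 536870912 50465866
    (rowB 3 eng mog cd2q2b cd6q0 pd2 0 true true true .pp 2 0 2 (qsf 1239849684 370763052 0 536870912 2) ndB2q2b ndB6q0 pcB2 Cut.none Ext.none)

def k0_pp_202_b : ∃ t, chk3 f_pp_202_b t 1 1 1 = true :=
  ⟨(l 4), by decide +kernel⟩

theorem c_pp_202_b : CertB 1239849684 370763052 0 536870912 536870912 50465866 3 eng mog cd2q2b cd6q0 pd2 true true true .pp 2 0 2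
    ndB2q2b ndB6q0 pcB2 Cut.none Ext.none :=
  certB0 (fam := true) (s1 := true) (s2 := true) (a := 2) (b := 0) (c := 2) (cn := .pp) (n1 := ndB2q2b) (n2 := ndB6q0) (pc := pcB2) (cut := Cut.none) (xt := Ext.none) (P1 := 1239849684) (W1 := 370763052) (P2 := 0) (W2 := 536870912) (P3 := 536870912) (W3 := 50465866) (N0 := 3) (En := eng) (mo := mog) (C1 := cd2q2b) (C2 := cd6q0) (C3 := pd2)
    rfl k0_pp_202_b

noncomputable def f_pp_203_a : ℕ → ℕ → ℕ → ℕ → Bool := onCell 0 536870912 0 536870912 536870912 50465866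
    (rowB 3 eng mog cd2q2a cd6q0 pd3 0 true true true .up 2 0 3 (qsf 0 536870912 0 536870912 3) ndB2q2a ndB6q0 pcB3 Cut.none Ext.none)

def k0_pp_203_a : ∃ t, chk3 f_pp_203_a t 1 1 1 = true :=
  ⟨(l 4), by decide +kernel⟩

theorem c_pp_203_a : CertB 0 536870912 0 536870912 536870912 50465866 3 eng mog cd2q2a cd6q0 pd3 true true true .up 2 0 3
    ndB2q2a ndB6q0 pcB3 Cut.none Ext.none :=
  certB0 (fam := true) (s1 := true) (s2 := true) (a := 2) (b := 0) (c := 3) (cn := .up) (n1 := ndB2q2a) (n2 := ndB6q0) (pc := pcB3) (cut := Cut.none) (xt := Ext.none) (P1 := 0) (W1 := 536870912) (P2 := 0) (W2 := 536870912) (P3 := 536870912) (W3 := 50465866) (N0 := 3) (En := eng) (mo := mog) (C1 := cd2q2a) (C2 := cd6q0) (C3 := pd3)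
    rfl k0_pp_203_a

noncomputable def f_pp_203_b : ℕ → ℕ → ℕ → ℕ → Bool := onCell 1239849684 370763052 0 536870912 536870912 50465866
    (rowB 3 eng mog cd2q2b cd6q0 pd3 0 true true true .up 2 0 3 (qsf 1239849684 370763052 0 536870912 3) ndB2q2b ndB6q0 pcB3 Cut.none Ext.none)

def k0_pp_203_b : ∃ t, chk3 f_pp_203_b t 1 1 1 = true :=
  ⟨(l 4), by decide +kernel⟩

theorem c_pp_203_b : CertB 1239849684 370763052 0 536870912 536870912 50465866 3 eng mog cd2q2b cd6q0 pd3 true true true .up 2 0 3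
    ndB2q2b ndB6q0 pcB3 Cut.none Ext.none :=
  certB0 (fam := true) (s1 := true) (s2 := true) (a := 2) (b := 0) (c := 3) (cn := .up) (n1 := ndB2q2b) (n2 := ndB6q0) (pc := pcB3) (cut := Cut.none) (xt := Ext.none) (P1 := 1239849684) (W1 := 370763052) (P2 := 0) (W2 := 536870912) (P3 := 536870912) (W3 := 50465866) (N0 := 3) (En := eng) (mo := mog) (C1 := cd2q2b) (C2 := cd6q0) (C3 := pd3)
    rfl k0_pp_203_b

noncomputable def f_pp_213_a : ℕ → ℕ → ℕ → ℕ → Bool := onCell 0 536870912 536870912 536870912 536870912 50465866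
    (rowB 3 eng mog cd2q2a cd6q1 pd3 0 true true true .pnn 2 1 3 (qsf 0 536870912 536870912 536870912 3) ndB2q2a ndB6q1 pcB3 Cut.none Ext.none)

def k0_pp_213_a : ∃ t, chk3 f_pp_213_a t 1 1 1 = true :=
  ⟨(l 4), by decide +kernel⟩

theorem c_pp_213_a : CertB 0 536870912 536870912 536870912 536870912 50465866 3 eng mog cd2q2a cd6q1 pd3 true true true .pnn 2 1 3
    ndB2q2a ndB6q1 pcB3 Cut.none Ext.none :=
  certB0 (fam := true) (s1 := true) (s2 := true) (a := 2) (b := 1) (c := 3) (cn := .pnn) (n1 := ndB2q2a) (n2 := ndB6q1) (pc := pcB3) (cut := Cut.none) (xt := Ext.none) (P1 := 0) (W1 := 536870912) (P2 := 536870912) (W2 := 536870912) (P3 := 536870912) (W3 := 50465866) (N0 := 3) (En := eng) (mo := mog) (C1 := cd2q2a) (C2 := cd6q1) (C3 := pd3)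
    rfl k0_pp_213_a

noncomputable def f_pp_213_b : ℕ → ℕ → ℕ → ℕ → Bool := onCell 1239849684 370763052 536870912 536870912 536870912 50465866
    (rowB 3 eng mog cd2q2b cd6q1 pd3 0 true true true .pnn 2 1 3 (qsf 1239849684 370763052 536870912 536870912 3) ndB2q2b ndB6q1 pcB3 Cut.none Ext.none)

def k0_pp_213_b : ∃ t, chk3 f_pp_213_b t 1 1 1 = true :=
  ⟨(l 4), by decide +kernel⟩

theorem c_pp_213_b : CertB 1239849684 370763052 536870912 536870912 536870912 50465866 3 eng mog cd2q2b cd6q1 pd3 true true true .pnn 2 1 3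
    ndB2q2b ndB6q1 pcB3 Cut.none Ext.none :=
  certB0 (fam := true) (s1 := true) (s2 := true) (a := 2) (b := 1) (c := 3) (cn := .pnn) (n1 := ndB2q2b) (n2 := ndB6q1) (pc := pcB3) (cut := Cut.none) (xt := Ext.none) (P1 := 1239849684) (W1 := 370763052) (P2 := 536870912) (W2 := 536870912) (P3 := 536870912) (W3 := 50465866) (N0 := 3) (En := eng) (mo := mog) (C1 := cd2q2b) (C2 := cd6q1) (C3 := pd3)
    rfl k0_pp_213_b

noncomputable def f_pp_303 : ℕ → ℕ → ℕ → ℕ → Bool := onCell 1610612736 536870912 0 536870912 536870912 50465866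
    (rowB 3 eng mog cd2q3 cd6q0 pd3 0 true true true .npn 3 0 3 (qsf 1610612736 536870912 0 536870912 3) ndB2q3 ndB6q0 pcB3 Cut.none Ext.none)

def k0_pp_303 : ∃ t, chk3 f_pp_303 t 1 1 1 = true :=
  ⟨(l 4), by decide +kernel⟩

theorem c_pp_303 : CertB 1610612736 536870912 0 536870912 536870912 50465866 3 eng mog cd2q3 cd6q0 pd3 true true true .npn 3 0 3
    ndB2q3 ndB6q0 pcB3 Cut.none Ext.none :=
  certB0 (fam := true) (s1 := true) (s2 := true) (a := 3) (b := 0) (c := 3) (cn := .npn) (n1 := ndB2q3) (n2 := ndB6q0) (pc := pcB3) (cut := Cut.none) (xt := Ext.none) (P1 := 1610612736) (W1 := 536870912) (P2 := 0) (W2 := 536870912) (P3 := 536870912) (W3 := 50465866) (N0 := 3) (En := eng) (mo := mog) (C1 := cd2q3) (C2 := cd6q0) (C3 := pd3)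
    rfl k0_pp_303

noncomputable def f_pp_313 : ℕ → ℕ → ℕ → ℕ → Bool := onCell 1610612736 536870912 536870912 536870912 536870912 50465866
    (rowB 3 eng mog cd2q3 cd6q1 pd3 0 true true true .dn 3 1 3 (qsf 1610612736 536870912 536870912 536870912 3) ndB2q3 ndB6q1 pcB3 Cut.none Ext.none)

def k0_pp_313 : ∃ t, chk3 f_pp_313 t 1 1 1 = true :=
  ⟨(l 4), by decide +kernel⟩

theorem c_pp_313 : CertB 1610612736 536870912 536870912 536870912 536870912 50465866 3 eng mog cd2q3 cd6q1 pd3 true true true .dn 3 1 3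
    ndB2q3 ndB6q1 pcB3 Cut.none Ext.none :=
  certB0 (fam := true) (s1 := true) (s2 := true) (a := 3) (b := 1) (c := 3) (cn := .dn) (n1 := ndB2q3) (n2 := ndB6q1) (pc := pcB3) (cut := Cut.none) (xt := Ext.none) (P1 := 1610612736) (W1 := 536870912) (P2 := 536870912) (W2 := 536870912) (P3 := 536870912) (W3 := 50465866) (N0 := 3) (En := eng) (mo := mog) (C1 := cd2q3) (C2 := cd6q1) (C3 := pd3)
    rfl k0_pp_313

noncomputable def f_pm_001 : ℕ → ℕ → ℕ → ℕ → Bool := onCell 0 536870912 0 536870912 536870912 50465866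
    (rowB 3 eng mog cd2q0 cd6q0 pd1 0 true true false .up 0 0 1 (qsf 0 536870912 0 536870912 1) ndB2q0 ndB6q0 pcB1 Cut.none Ext.none)

def k0_pm_001 : ∃ t, chk3 f_pm_001 t 1 1 1 = true :=
  ⟨(a (l 3) (b (l 3) (b (l 3) (a (l 3) (a (l 3) (b (b (l 3) (a (l 3) (l 16527720))) (b (a (l 3) (l 16473888)) (a (l 16493440) (l 16434792))))))))), by decide +kernel⟩

theorem c_pm_001 : CertB 0 536870912 0 536870912 536870912 50465866 3 eng mog cd2q0 cd6q0 pd1 true true false .up 0 0 1
    ndB2q0 ndB6q0 pcB1 Cut.none Ext.none :=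
  certB0 (fam := true) (s1 := true) (s2 := false) (a := 0) (b := 0) (c := 1) (cn := .up) (n1 := ndB2q0) (n2 := ndB6q0) (pc := pcB1) (cut := Cut.none) (xt := Ext.none) (P1 := 0) (W1 := 536870912) (P2 := 0) (W2 := 536870912) (P3 := 536870912) (W3 := 50465866) (N0 := 3) (En := eng) (mo := mog) (C1 := cd2q0) (C2 := cd6q0) (C3 := pd1)
    rfl k0_pm_001

noncomputable def cut_pm_011 : Cut := Cut.of [[⟨0, 0, 0, 67108864⟩, ⟨1, 1, 0, 67108864⟩, ⟨2, 1, 0, 67108864⟩]]

noncomputable def f_pm_011 : ℕ → ℕ → ℕ → ℕ → Bool := onCell 0 536870912 536870912 536870912 536870912 50465866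
    (rowB 3 eng mog cd2q0 cd6q1 pd1 1 true true false .pnn 0 1 1 (qsf 0 536870912 536870912 536870912 1) ndB2q0 ndB6q1 pcB1 cut_pm_011 Ext.none)

def k0_pm_011 : ∃ t, chk3 f_pm_011 t 1 1 1 = true :=
  ⟨(b (l 3) (b (l 3) (b (a (l 3) (a (l 3) (b (l 3) (a (l 3) (l 16507568))))) (b (a (l 3) (a (a (l 3) (l 16549272)) (a (l 16502024) (l 16461072)))) (b (a (a (l 3) (l 3)) (a (a (l 16567008) (l 16514264)) (l 16558312))) (a (a (a (a (l 6) (l 3)) (a (l 3) (l 1777210438279))) (a (a (l 16659648) (l 16633544)) (l 16595176))) (a (a (l 16541688) (l 16494272)) (l 16563576)))))))), by decide +kernel⟩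

theorem c_pm_011 : CertB 0 536870912 536870912 536870912 536870912 50465866 3 eng mog cd2q0 cd6q1 pd1 true true false .pnn 0 1 1
    ndB2q0 ndB6q1 pcB1 cut_pm_011 Ext.none :=
  certB1 (fam := true) (s1 := true) (s2 := false) (a := 0) (b := 1) (c := 1) (cn := .pnn) (n1 := ndB2q0) (n2 := ndB6q1) (pc := pcB1) (cut := cut_pm_011) (xt := Ext.none) (P1 := 0) (W1 := 536870912) (P2 := 536870912) (W2 := 536870912) (P3 := 536870912) (W3 := 50465866) (N0 := 3) (En := eng) (mo := mog) (C1 := cd2q0) (C2 := cd6q1) (C3 := pd1)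
    rfl (fun _ => rfl) k0_pm_011

noncomputable def cut_pm_012 : Cut := Cut.of [[⟨0, 0, 0, 67108864⟩, ⟨1, 1, 0, 67108864⟩, ⟨2, 1, 0, 67108864⟩]]

noncomputable def f_pm_012 : ℕ → ℕ → ℕ → ℕ → Bool := onCell 1073741824 536870912 536870912 536870912 536870912 50465866
    (rowB 3 eng mog cd2q0 cd6q1 pd2 2 true true false .pnp 0 1 2 (qsf 0 536870912 536870912 536870912 2) ndB2q0 ndB6q1 pcB2 cut_pm_012 Ext.none)

def k0_pm_012 : ∃ t, chk3 f_pm_012 t 2 1 1 = true :=
  ⟨(a (b (a (b (b (l 16382008) (l 16414440)) (b (l 16637000) (a (l 16565928) (l 16463688)))) (b (b (l 16368808) (l 16392472)) (b (l 16412216) (l 16489976)))) (a (b (b (a (l 16633016) (l 16495472)) (a (a (b (l 16599888) (l 16624136)) (l 16619152)) (b (l 16521488) (l 16538616)))) (a (b (b (a (l 16670544) (l 16610624)) (a (a (l 16708160) (l 16665816)) (l 16634472))) (a (b (a (b (l 16708984) (l 6)) (b (l 16686440) (l 16700768))) (l 6)) (a (b (b (l 16664280) (l 16677816)) (l 6)) (b (l 16669816)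 (b (l 16668504) (l 6)))))) (b (b (l 16619280) (a (l 16594480) (l 16556712))) (b (a (b (l 16610960) (l 16622448)) (l 16575504)) (b (a (l 16655360) (l 16590624)) (a (b (l 16643664) (l 6)) (l 16622224))))))) (b (a (b (l 16452760) (l 16474992)) (b (l 16422320) (l 16430256))) (b (a (b (l 16492384) (l 16504752)) (b (l 16439160) (l 16444600))) (a (b (a (l 16536672) (l 16500224)) (b (l 16529192) (a (l 16557800) (l 16516616)))) (b (a (l 16466488) (l 16435712)) (a (l 16475520) (l 16440728)))))))) (b (b (a (a (a (l 16378304) (l 2)) (l 2)) (l 2)) (a (a (a (l 16406384) (b (l 16413336) (l 16417288))) (l 16415216)) (l 16442936))) (b (a (a (a (b (l 16407880) (l 16404440)) (b (l 16412216) (l 16610984))) (b (l 16403320) (l 16384088))) (b (l 16412392) (l 16377968))) (a (a (a (b (l 16406880) (b (l 16408152) (l 16409040))) (b (a (l 16392304) (l 16409736)) (a (b (l 16389736) (l 16387496)) (b (l 16382552) (a (l 16377848) (l 16373592)))))) (b (l 16366080) (b (l 16354320)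 (l 16345024)))) (b (l 16378240) (b (l 16304896) (l 16285608))))))), by decide +kernel⟩

def k1_pm_012 : ∃ t, chk3 f_pm_012 t 3 1 1 = true :=
  ⟨(a (b (b (l 2) (a (l 16502704) (l 2))) (b (a (l 16430200) (l 16499576)) (b (a (l 16340632) (l 16393560)) (a (b (l 16283944) (l 16245960)) (l 16297192))))) (b (l 2) (a (b (l 16580472) (b (l 16465560) (l 16358560))) (b (l 2) (a (l 16473800) (l 16535736)))))), by decide +kernel⟩

theorem s2_pm_012 : ∃ t, chk3 f_pm_012 t 1 1 1 = true := ex3_a k0_pm_012 k1_pm_012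

theorem c_pm_012 : CertB 0 536870912 536870912 536870912 536870912 50465866 3 eng mog cd2q0 cd6q1 pd2 true true false .pnp 0 1 2
    ndB2q0 ndB6q1 pcB2 cut_pm_012 Ext.none :=
  certB2 (fam := true) (s1 := true) (s2 := false) (a := 0) (b := 1) (c := 2) (cn := .pnp) (n1 := ndB2q0) (n2 := ndB6q1) (pc := pcB2) (cut := cut_pm_012) (xt := Ext.none) (P1 := 0) (W1 := 536870912) (P2 := 536870912) (W2 := 536870912) (P3 := 536870912) (W3 := 50465866) (N0 := 3) (En := eng) (mo := mog) (C1 := cd2q0) (C2 := cd6q1) (C3 := pd2)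
    rfl (fun _ => rfl) s2_pm_012

noncomputable def cut_pm_022 : Cut := Cut.of [[⟨0, 0, 0, 67108864⟩, ⟨1, 1, 0, 67108864⟩, ⟨2, 1, 0, 67108864⟩]]

noncomputable def f_pm_022 : ℕ → ℕ → ℕ → ℕ → Bool := onCell 0 536870912 1073741824 536870912 536870912 50465866
    (rowB 3 eng mog cd2q0 cd6q2 pd2 1 true true false .pp 0 2 2 (qsf 0 536870912 1073741824 536870912 2) ndB2q0 ndB6q2 pcB2 cut_pm_022 Ext.none)

def k0_pm_022 : ∃ t, chk3 f_pm_022 t 2 2 1 = true :=
  ⟨(b (b (a (a (a (b (l 6) (b (l 6) (a (b (l 6) (l 16668800)) (l 16662192)))) (a (b (l 6) (b (l 6) (l 16624848))) (b (l 1) (b (b (l 1) (l 16626624)) (b (l 16613360) (l 16600112)))))) (a (b (l 1) (b (l 1) (b (l 1) (l 16570376)))) (l 1))) (l 1)) (a (a (b (a (b (a (a (l 16626816) (l 16641856)) (l 16611136)) (a (l 16592240) (l 16581288))) (b (a (l 16596584) (l 16580312)) (l 16561560))) (a (b (a (l 16560960) (l 16551856)) (l 16547944)) (b (l 16534864) (l 16508824)))) (b (a (b (a (l 16562312) (l 16542632))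 (l 16550232)) (b (l 1) (l 16490320))) (a (b (l 16506248) (l 16483872)) (b (l 16471048) (l 16452432))))) (a (b (l 1) (b (l 1) (a (l 16414712) (l 1)))) (l 1)))) (b (a (b (b (a (a (l 16498304) (l 16483840)) (a (l 16462496) (l 16434696))) (b (a (a (a (l 16479480) (l 16475488)) (l 16465968)) (l 16435440)) (b (a (a (l 16467944) (l 16457456)) (l 16428912)) (a (a (b (l 16463448) (a (l 16462056) (l 16459288))) (b (l 16453616) (l 16451560))) (b (l 16426088) (l 16424720)))))) (b (a (a (a (l 16445760) (l 16444128)) (l 16438000)) (l 16435128)) (a (a (l 16417472) (l 16414224)) (l 16395800)))) (a (b (b (a (l 16400648) (l 1)) (b (l 16373080) (b (l 16369400) (a (l 16384976) (l 16350864))))) (a (l 16369920) (l 16340056))) (b (l 1) (a (l 16304984) (l 1))))) (b (a (a (a (b (l 16389368) (l 16359600)) (l 16378176)) (a (l 16373504) (l 16361840))) (a (l 16333704) (l 139082412471))) (a (a (a (l 16312760) (l 16327000)) (l 16351752)) (a (l 16311640) (l 16272016)))))),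 by decide +kernel⟩

def k1_pm_022 : ∃ t, chk3 f_pm_022 t 2 3 1 = true :=
  ⟨(b (a (a (b (a (b (l 16245264) (l 16172664)) (b (l 16272520) (l 16214320))) (a (l 16269080) (l 16137208))) (b (b (l 16290976) (l 16250096)) (a (l 16205800) (l 16196448)))) (b (a (b (l 16288040) (l 16264104)) (b (l 16264464) (l 16256736))) (a (l 16267416) (l 16241328)))) (a (a (b (b (l 16200672) (l 16096256)) (a (l 16100984) (l 15937408))) (b (b (l 16097472) (l 16023256)) (l 16076024))) (b (a (b (l 16176360) (l 16130536)) (l 16203240)) (a (l 16180928) (l 16143752))))), by decide +kernel⟩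

def k2_pm_022 : ∃ t, chk3 f_pm_022 t 3 1 1 = true :=
  ⟨(b (b (l 1) (b (l 1) (a (a (b (l 1) (l 194916947687)) (l 1)) (l 1)))) (b (a (b (a (b (l 16222208) (l 16230336)) (l 264709987047)) (a (l 16302208) (l 16283688))) (b (l 1) (a (l 298532942167) (l 1)))) (b (a (a (l 16227496) (l 16261080)) (a (l 16295760) (l 16332616))) (a (a (l 16192472) (l 16248064)) (a (l 16308768) (l 16371016)))))), by decide +kernel⟩

theorem s3_pm_022 : ∃ t, chk3 f_pm_022 t 2 1 1 = true := ex3_b k0_pm_022 k1_pm_022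

theorem s4_pm_022 : ∃ t, chk3 f_pm_022 t 1 1 1 = true := ex3_a s3_pm_022 k2_pm_022

theorem c_pm_022 : CertB 0 536870912 1073741824 536870912 536870912 50465866 3 eng mog cd2q0 cd6q2 pd2 true true false .pp 0 2 2
    ndB2q0 ndB6q2 pcB2 cut_pm_022 Ext.none :=
  certB1 (fam := true) (s1 := true) (s2 := false) (a := 0) (b := 2) (c := 2) (cn := .pp) (n1 := ndB2q0) (n2 := ndB6q2) (pc := pcB2) (cut := cut_pm_022) (xt := Ext.none) (P1 := 0) (W1 := 536870912) (P2 := 1073741824) (W2 := 536870912) (P3 := 536870912) (W3 := 50465866) (N0 := 3) (En := eng) (mo := mog) (C1 := cd2q0) (C2 := cd6q2) (C3 := pd2)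
    rfl (fun _ => rfl) s4_pm_022

noncomputable def f_pm_023 : ℕ → ℕ → ℕ → ℕ → Bool := onCell 1610612736 536870912 1073741824 536870912 536870912 50465866
    (rowB 3 eng mog cd2q0 cd6q2 pd3 2 true true false .up 0 2 3 (qsf 0 536870912 1073741824 536870912 3) ndB2q0 ndB6q2 pcB3 Cut.none Ext.none)

def k0_pm_023 : ∃ t, chk3 f_pm_023 t 1 1 1 = true :=
  ⟨(a (a (b (b (a (l 16438936) (l 16616408)) (a (l 16267960) (l 16380984))) (b (b (l 16160920) (l 16029344)) (b (l 16017208) (l 16071008)))) (b (b (a (l 16709216) (l 2)) (l 16634632)) (b (l 16504880) (b (l 16447864) (l 16443464))))) (a (b (a (b (l 2) (l 16721608)) (l 2)) (b (l 16697928) (l 16654248))) (b (l 2) (b (a (l 16731504) (l 2)) (a (l 16719976) (a (l 16732336) (a (l 16736096) (l 16734776)))))))), by decide +kernel⟩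

theorem c_pm_023 : CertB 0 536870912 1073741824 536870912 536870912 50465866 3 eng mog cd2q0 cd6q2 pd3 true true false .up 0 2 3
    ndB2q0 ndB6q2 pcB3 Cut.none Ext.none :=
  certB2 (fam := true) (s1 := true) (s2 := false) (a := 0) (b := 2) (c := 3) (cn := .up) (n1 := ndB2q0) (n2 := ndB6q2) (pc := pcB3) (cut := Cut.none) (xt := Ext.none) (P1 := 0) (W1 := 536870912) (P2 := 1073741824) (W2 := 536870912) (P3 := 536870912) (W3 := 50465866) (N0 := 3) (En := eng) (mo := mog) (C1 := cd2q0) (C2 := cd6q2) (C3 := pd3)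
    rfl (fun _ => rfl) k0_pm_023

noncomputable def f_pm_033 : ℕ → ℕ → ℕ → ℕ → Bool := onCell 1610612736 536870912 0 1230186008 536870912 50465866
    (rowB 3 eng mog cd2q0 cd6q3 pd3 2 true true false .pnn 0 3 3 (qsf 0 536870912 0 1230186008 3) ndB2q0 ndB6q3 pcB3 Cut.none Ext.none)

def k0_pm_033 : ∃ t, chk3 f_pm_033 t 1 1 1 = true :=
  ⟨(b (a (l 1) (a (l 1) (b (a (l 1) (l 4)) (a (b (l 833794534375) (a (l 16763544) (l 16750072))) (a (l 50164287415) (l 4)))))) (b (b (a (l 1) (a (a (l 1) (l 670585804343)) (a (a (l 16757728) (l 16748352)) (a (l 16739736) (l 4))))) (a (a (l 1) (a (l 1) (b (l 1) (l 704408245655)))) (a (a (l 521335624807) (l 16817568)) (a (b (l 16742120) (l 16732696)) (a (l 16739568) (a (l 16735784) (l 4))))))) (a (b (a (l 1) (b (l 683469981175) (l 680249048711))) (a (b (a (l 1) (l 681859170535)) (a (l 336650454615) (l 16256824))) (b (l 16523552) (l 16467304)))) (a (b (b (l 16700600) (l 16677400)) (b (l 16655088) (l 16642296))) (a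 (b (l 16721240) (l 16709856)) (a (b (l 16733568) (l 16727496)) (b (a (l 16736936) (l 16987192)) (a (l 16733656) (l 16946696))))))))), by decide +kernel⟩

theorem c_pm_033 : CertB 0 536870912 0 1230186008 536870912 50465866 3 eng mog cd2q0 cd6q3 pd3 true true false .pnn 0 3 3
    ndB2q0 ndB6q3 pcB3 Cut.none Ext.none :=
  certB2 (fam := true) (s1 := true) (s2 := false) (a := 0) (b := 3) (c := 3) (cn := .pnn) (n1 := ndB2q0) (n2 := ndB6q3) (pc := pcB3) (cut := Cut.none) (xt := Ext.none) (P1 := 0) (W1 := 536870912) (P2 := 0) (W2 := 1230186008) (P3 := 536870912) (W3 := 50465866) (N0 := 3) (En := eng) (mo := mog) (C1 := cd2q0) (C2 := cd6q3) (C3 := pd3)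
    rfl (fun _ => rfl) k0_pm_033

noncomputable def f_pm_101 : ℕ → ℕ → ℕ → ℕ → Bool := onCell 536870912 536870912 0 536870912 536870912 50465866
    (rowB 3 eng mog cd2q1 cd6q0 pd1 2 true true false .npn 1 0 1 (qsf 536870912 536870912 0 536870912 1) ndB2q1 ndB6q0 pcB1 Cut.none Ext.none)

def k0_pm_101 : ∃ t, chk3 f_pm_101 t 1 1 1 = true :=
  ⟨(a (l 3) (b (a (b (a (b (a (l 3) (l 92509766183)) (l 3)) (a (b (l 16917552) (l 16676960)) (b (l 16674624) (l 16658472)))) (a (l 3) (a (l 3) (b (a (l 16635488) (l 16619648)) (b (l 16602688) (l 3)))))) (a (b (a (b (l 16662648) (l 16637904)) (b (l 16650456) (l 16613088))) (a (b (l 16594120) (b (l 16553048) (l 16528184))) (b (l 16555904) (l 16481984)))) (b (a (b (b (a (l 16642576) (l 16636424)) (l 16622496)) (l 16579232)) (b (a (l 16610136) (l 16585560)) (l 16521624))) (a (b (l 16504344) (l 16464544)) (b (l 16483120) (l 16467520)))))) (a (l 3) (b (a (a (b (l 16509712) (l 16532144)) (b (l 16474896) (l 16477952)))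 (a (b (l 16465472) (l 16456248)) (b (l 16462184) (l 16453120)))) (a (a (l 3) (b (l 16490344) (l 16522136))) (a (b (l 16448216) (l 16457856)) (b (l 16430944) (l 16420384)))))))), by decide +kernel⟩

theorem c_pm_101 : CertB 536870912 536870912 0 536870912 536870912 50465866 3 eng mog cd2q1 cd6q0 pd1 true true false .npn 1 0 1
    ndB2q1 ndB6q0 pcB1 Cut.none Ext.none :=
  certB2 (fam := true) (s1 := true) (s2 := false) (a := 1) (b := 0) (c := 1) (cn := .npn) (n1 := ndB2q1) (n2 := ndB6q0) (pc := pcB1) (cut := Cut.none) (xt := Ext.none) (P1 := 536870912) (W1 := 536870912) (P2 := 0) (W2 := 536870912) (P3 := 536870912) (W3 := 50465866) (N0 := 3) (En := eng) (mo := mog) (C1 := cd2q1) (C2 := cd6q0) (C3 := pd1)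
    rfl (fun _ => rfl) k0_pm_101

noncomputable def f_pm_102 : ℕ → ℕ → ℕ → ℕ → Bool := onCell 536870912 536870912 1073741824 536870912 536870912 50465866
    (rowB 3 eng mog cd2q1 cd6q0 pd2 1 true true false .npp 1 0 2 (qsf 536870912 536870912 0 536870912 2) ndB2q1 ndB6q0 pcB2 Cut.none Ext.none)

def k0_pm_102 : ∃ t, chk3 f_pm_102 t 1 1 1 = true :=
  ⟨(a (b (b (a (b (a (l 5469154855) (l 16625680)) (a (l 132170676823) (l 16438936))) (b (a (l 16681848) (l 16469448)) (a (l 16485176) (l 16514048)))) (a (b (a (l 2) (b (l 16470384) (l 2))) (l 2)) (b (b (a (l 16523328) (l 16557552)) (l 16588344)) (a (l 16613584) (l 16666912))))) (a (l 2) (b (b (a (l 2) (l 16770672)) (l 2)) (l 2)))) (b (b (a (b (a (l 16491800) (l 16527336)) (a (l 16546744) (l 16593896))) (b (a (l 16568160) (l 16635672)) (a (l 16655504) (l 16736168)))) (a (b (a (l 16741440) (l 16715776)) (l 16750432)) (b (b (b (l 16754792) (l 16782232)) (l 16826072)) (l 16914528)))) (b (a (b (l 16869072)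 (l 17007272)) (b (l 17036728) (l 17172488))) (a (b (l 17126600) (l 2)) (b (l 17218488) (l 17231528)))))), by decide +kernel⟩

theorem c_pm_102 : CertB 536870912 536870912 0 536870912 536870912 50465866 3 eng mog cd2q1 cd6q0 pd2 true true false .npp 1 0 2
    ndB2q1 ndB6q0 pcB2 Cut.none Ext.none :=
  certB1 (fam := true) (s1 := true) (s2 := false) (a := 1) (b := 0) (c := 2) (cn := .npp) (n1 := ndB2q1) (n2 := ndB6q0) (pc := pcB2) (cut := Cut.none) (xt := Ext.none) (P1 := 536870912) (W1 := 536870912) (P2 := 0) (W2 := 536870912) (P3 := 536870912) (W3 := 50465866) (N0 := 3) (En := eng) (mo := mog) (C1 := cd2q1) (C2 := cd6q0) (C3 := pd2)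
    rfl (fun _ => rfl) k0_pm_102

noncomputable def f_pm_112 : ℕ → ℕ → ℕ → ℕ → Bool := onCell 536870912 536870912 1073741824 536870912 536870912 50465866
    (rowB 3 eng mog cd2q1 cd6q1 pd2 1 true true false .dn 1 1 2 (qsf 536870912 536870912 536870912 536870912 2) ndB2q1 ndB6q1 pcB2 Cut.none Ext.none)

def k0_pm_112 : ∃ t, chk3 f_pm_112 t 1 1 1 = true :=
  ⟨(a (b (b (a (b (a (l 16393304) (l 16414472)) (a (l 16408296) (l 16437928))) (b (l 1) (l 317861077687))) (a (b (b (b (l 16431432) (l 16447096)) (l 16459328)) (l 16500456)) (b (a (l 187401607991) (l 16574464)) (l 16639168)))) (b (a (b (l 16548360) (l 16599336)) (a (l 16749736) (l 16827856))) (b (a (l 16642088) (l 16979616)) (a (l 16681464) (l 17052304))))) (b (b (l 1) (a (b (l 1) (l 16751312)) (l 1))) (b (a (l 16933864) (l 410203416231)) (b (a (l 17134096) (l 17226504)) (a (l 17163784) (l 17241720)))))), by decide +kernel⟩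

theorem c_pm_112 : CertB 536870912 536870912 536870912 536870912 536870912 50465866 3 eng mog cd2q1 cd6q1 pd2 true true false .dn 1 1 2
    ndB2q1 ndB6q1 pcB2 Cut.none Ext.none :=
  certB1 (fam := true) (s1 := true) (s2 := false) (a := 1) (b := 1) (c := 2) (cn := .dn) (n1 := ndB2q1) (n2 := ndB6q1) (pc := pcB2) (cut := Cut.none) (xt := Ext.none) (P1 := 536870912) (W1 := 536870912) (P2 := 536870912) (W2 := 536870912) (P3 := 536870912) (W3 := 50465866) (N0 := 3) (En := eng) (mo := mog) (C1 := cd2q1) (C2 := cd6q1) (C3 := pd2)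
    rfl (fun _ => rfl) k0_pm_112

noncomputable def f_pm_113 : ℕ → ℕ → ℕ → ℕ → Bool := onCell 536870912 536870912 1610612736 536870912 536870912 50465866
    (rowB 3 eng mog cd2q1 cd6q1 pd3 1 true true false .nn 1 1 3 (qsf 536870912 536870912 536870912 536870912 3) ndB2q1 ndB6q1 pcB3 Cut.none Ext.none)

def k0_pm_113 : ∃ t, chk3 f_pm_113 t 1 1 1 = true :=
  ⟨(a (b (b (b (a (l 16744208) (l 17080328)) (a (l 16785192) (l 17101376))) (a (l 475232076839) (a (l 17045624) (l 17083744)))) (b (a (l 2) (b (l 17040432) (l 2))) (l 2))) (b (b (b (a (l 17158448) (l 17218720)) (a (l 17150664) (l 17169448))) (b (a (l 17101424) (l 17097832)) (a (l 17061160) (l 17037168)))) (b (b (a (l 17027488) (l 16983584)) (l 16795208)) (b (l 331886717959) (a (l 2) (l 4)))))), by decide +kernel⟩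

theorem c_pm_113 : CertB 536870912 536870912 536870912 536870912 536870912 50465866 3 eng mog cd2q1 cd6q1 pd3 true true false .nn 1 1 3
    ndB2q1 ndB6q1 pcB3 Cut.none Ext.none :=
  certB1 (fam := true) (s1 := true) (s2 := false) (a := 1) (b := 1) (c := 3) (cn := .nn) (n1 := ndB2q1) (n2 := ndB6q1) (pc := pcB3) (cut := Cut.none) (xt := Ext.none) (P1 := 536870912) (W1 := 536870912) (P2 := 536870912) (W2 := 536870912) (P3 := 536870912) (W3 := 50465866) (N0 := 3) (En := eng) (mo := mog) (C1 := cd2q1) (C2 := cd6q1) (C3 := pd3)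
    rfl (fun _ => rfl) k0_pm_113

noncomputable def f_pm_123 : ℕ → ℕ → ℕ → ℕ → Bool := onCell 1610612736 536870912 1073741824 536870912 536870912 50465866
    (rowB 3 eng mog cd2q1 cd6q2 pd3 2 true true false .npn 1 2 3 (qsf 536870912 536870912 1073741824 536870912 3) ndB2q1 ndB6q2 pcB3 Cut.none Ext.none)

def k0_pm_123 : ∃ t, chk3 f_pm_123 t 1 1 1 = true :=
  ⟨(a (a (b (b (a (l 16448712) (l 16674680)) (a (l 1) (l 16411760))) (l 1)) (b (b (a (l 16851832) (l 16943808)) (b (l 16700376) (l 16607680))) (b (l 406444711095) (l 1)))) (a (b (b (a (l 16966568) (l 16977432)) (a (l 16794400) (l 16832128))) (b (l 456374186887) (l 16771416))) (b (a (b (l 16865064) (a (l 16829392) (l 16814384))) (a (l 16851152) (a (l 16727128) (l 4)))) (a (b (l 16760512) (l 16720920)) (a (b (l 16766128) (l 16735640)) (a (b (l 16761632) (l 16741480)) (b (l 16747880) (l 16741248)))))))), by decide +kernel⟩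

theorem c_pm_123 : CertB 536870912 536870912 1073741824 536870912 536870912 50465866 3 eng mog cd2q1 cd6q2 pd3 true true false .npn 1 2 3
    ndB2q1 ndB6q2 pcB3 Cut.none Ext.none :=
  certB2 (fam := true) (s1 := true) (s2 := false) (a := 1) (b := 2) (c := 3) (cn := .npn) (n1 := ndB2q1) (n2 := ndB6q2) (pc := pcB3) (cut := Cut.none) (xt := Ext.none) (P1 := 536870912) (W1 := 536870912) (P2 := 1073741824) (W2 := 536870912) (P3 := 536870912) (W3 := 50465866) (N0 := 3) (En := eng) (mo := mog) (C1 := cd2q1) (C2 := cd6q2) (C3 := pd3)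
    rfl (fun _ => rfl) k0_pm_123

noncomputable def f_pm_133 : ℕ → ℕ → ℕ → ℕ → Bool := onCell 536870912 536870912 0 1230186008 536870912 50465866
    (rowB 3 eng mog cd2q1 cd6q3 pd3 0 true true false .dn 1 3 3 (qsf 536870912 536870912 0 1230186008 3) ndB2q1 ndB6q3 pcB3 Cut.none Ext.none)

def k0_pm_133 : ∃ t, chk3 f_pm_133 t 1 1 1 = true :=
  ⟨(b (l 2) (b (l 2) (a (b (l 2) (a (b (l 2) (a (l 16750696) (l 2))) (l 2))) (l 2)))), by decide +kernel⟩

theorem c_pm_133 : CertB 536870912 536870912 0 1230186008 536870912 50465866 3 eng mog cd2q1 cd6q3 pd3 true true false .dn 1 3 3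
    ndB2q1 ndB6q3 pcB3 Cut.none Ext.none :=
  certB0 (fam := true) (s1 := true) (s2 := false) (a := 1) (b := 3) (c := 3) (cn := .dn) (n1 := ndB2q1) (n2 := ndB6q3) (pc := pcB3) (cut := Cut.none) (xt := Ext.none) (P1 := 536870912) (W1 := 536870912) (P2 := 0) (W2 := 1230186008) (P3 := 536870912) (W3 := 50465866) (N0 := 3) (En := eng) (mo := mog) (C1 := cd2q1) (C2 := cd6q3) (C3 := pd3)
    rfl k0_pm_133

noncomputable def f_pm_202_a : ℕ → ℕ → ℕ → ℕ → Bool := onCell 0 536870912 0 536870912 536870912 50465866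
    (rowB 3 eng mog cd2q2a cd6q0 pd2 0 true true false .pp 2 0 2 (qsf 0 536870912 0 536870912 2) ndB2q2a ndB6q0 pcB2 Cut.none Ext.none)

def k0_pm_202_a : ∃ t, chk3 f_pm_202_a t 1 1 1 = true :=
  ⟨(a (b (b (a (l 4) (b (b (a (l 16645920) (l 16640336)) (l 16655312)) (a (l 4) (l 16680808)))) (l 4)) (l 4)) (b (b (a (b (a (b (l 16635088) (l 16648864)) (b (l 16628872) (l 16646000))) (a (l 16681360) (l 16686512))) (a (b (b (a (l 16625432) (l 16622368)) (l 16646600)) (b (l 16680920) (l 16724632))) (b (b (a (b (a (l 16618480) (l 16617032)) (l 16628864)) (a (b (b (l 16613928) (l 16620352)) (l 16633592)) (b (a (b (l 16608728) (l 16622752)) (b (a (l 16615120) (l 16619440)) (l 16626072))) (l 16555672)))) (a (l 16655776) (a (l 16664560) (l 16653432)))) (a (l 16707528) (b (l 16677736) (l 16693968)))))) (a (b (a (l 16740856) (l 16762000)) (a (l 4) (l 16784072))) (a (b (l 16759528) (l 16783928)) (b (a (l 16739704) (l 16720760)) (l 16766280))))) (b (a (b (a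 (l 4) (l 16795120)) (l 4)) (b (a (l 16803248) (l 16796288)) (a (l 16816432) (l 16820744)))) (a (l 4) (a (l 4) (b (l 16837880) (l 16846336))))))), by decide +kernel⟩

theorem c_pm_202_a : CertB 0 536870912 0 536870912 536870912 50465866 3 eng mog cd2q2a cd6q0 pd2 true true false .pp 2 0 2
    ndB2q2a ndB6q0 pcB2 Cut.none Ext.none :=
  certB0 (fam := true) (s1 := true) (s2 := false) (a := 2) (b := 0) (c := 2) (cn := .pp) (n1 := ndB2q2a) (n2 := ndB6q0) (pc := pcB2) (cut := Cut.none) (xt := Ext.none) (P1 := 0) (W1 := 536870912) (P2 := 0) (W2 := 536870912) (P3 := 536870912) (W3 := 50465866) (N0 := 3) (En := eng) (mo := mog) (C1 := cd2q2a) (C2 := cd6q0) (C3 := pd2)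
    rfl k0_pm_202_a

noncomputable def f_pm_202_b : ℕ → ℕ → ℕ → ℕ → Bool := onCell 1239849684 370763052 0 536870912 536870912 50465866
    (rowB 3 eng mog cd2q2b cd6q0 pd2 0 true true false .pp 2 0 2 (qsf 1239849684 370763052 0 536870912 2) ndB2q2b ndB6q0 pcB2 Cut.none Ext.none)

def k0_pm_202_b : ∃ t, chk3 f_pm_202_b t 1 1 1 = true :=
  ⟨(l 4), by decide +kernel⟩

theorem c_pm_202_b : CertB 1239849684 370763052 0 536870912 536870912 50465866 3 eng mog cd2q2b cd6q0 pd2 true true false .pp 2 0 2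
    ndB2q2b ndB6q0 pcB2 Cut.none Ext.none :=
  certB0 (fam := true) (s1 := true) (s2 := false) (a := 2) (b := 0) (c := 2) (cn := .pp) (n1 := ndB2q2b) (n2 := ndB6q0) (pc := pcB2) (cut := Cut.none) (xt := Ext.none) (P1 := 1239849684) (W1 := 370763052) (P2 := 0) (W2 := 536870912) (P3 := 536870912) (W3 := 50465866) (N0 := 3) (En := eng) (mo := mog) (C1 := cd2q2b) (C2 := cd6q0) (C3 := pd2)
    rfl k0_pm_202_b

noncomputable def f_pm_203_a : ℕ → ℕ → ℕ → ℕ → Bool := onCell 0 536870912 1610612736 536870912 536870912 50465866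
    (rowB 3 eng mog cd2q2a cd6q0 pd3 1 true true false .up 2 0 3 (qsf 0 536870912 0 536870912 3) ndB2q2a ndB6q0 pcB3 Cut.none Ext.none)

def k0_pm_203_a : ∃ t, chk3 f_pm_203_a t 1 1 1 = true :=
  ⟨(a (l 4) (b (l 4) (l 2))), by decide +kernel⟩

theorem c_pm_203_a : CertB 0 536870912 0 536870912 536870912 50465866 3 eng mog cd2q2a cd6q0 pd3 true true false .up 2 0 3
    ndB2q2a ndB6q0 pcB3 Cut.none Ext.none :=
  certB1 (fam := true) (s1 := true) (s2 := false) (a := 2) (b := 0) (c := 3) (cn := .up) (n1 := ndB2q2a) (n2 := ndB6q0) (pc := pcB3) (cut := Cut.none) (xt := Ext.none) (P1 := 0) (W1 := 536870912) (P2 := 0) (W2 := 536870912) (P3 := 536870912) (W3 := 50465866) (N0 := 3) (En := eng) (mo := mog) (C1 := cd2q2a) (C2 := cd6q0) (C3 := pd3)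
    rfl (fun _ => rfl) k0_pm_203_a

noncomputable def f_pm_203_b : ℕ → ℕ → ℕ → ℕ → Bool := onCell 1239849684 370763052 0 536870912 536870912 50465866
    (rowB 3 eng mog cd2q2b cd6q0 pd3 0 true true false .up 2 0 3 (qsf 1239849684 370763052 0 536870912 3) ndB2q2b ndB6q0 pcB3 Cut.none Ext.none)

def k0_pm_203_b : ∃ t, chk3 f_pm_203_b t 1 1 1 = true :=
  ⟨(l 4), by decide +kernel⟩

theorem c_pm_203_b : CertB 1239849684 370763052 0 536870912 536870912 50465866 3 eng mog cd2q2b cd6q0 pd3 true true false .up 2 0 3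
    ndB2q2b ndB6q0 pcB3 Cut.none Ext.none :=
  certB0 (fam := true) (s1 := true) (s2 := false) (a := 2) (b := 0) (c := 3) (cn := .up) (n1 := ndB2q2b) (n2 := ndB6q0) (pc := pcB3) (cut := Cut.none) (xt := Ext.none) (P1 := 1239849684) (W1 := 370763052) (P2 := 0) (W2 := 536870912) (P3 := 536870912) (W3 := 50465866) (N0 := 3) (En := eng) (mo := mog) (C1 := cd2q2b) (C2 := cd6q0) (C3 := pd3)
    rfl k0_pm_203_b

noncomputable def f_pm_213_a : ℕ → ℕ → ℕ → ℕ → Bool := onCell 0 536870912 536870912 536870912 536870912 50465866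
    (rowB 3 eng mog cd2q2a cd6q1 pd3 0 true true false .pnn 2 1 3 (qsf 0 536870912 536870912 536870912 3) ndB2q2a ndB6q1 pcB3 Cut.none Ext.none)

def k0_pm_213_a : ∃ t, chk3 f_pm_213_a t 1 1 1 = true :=
  ⟨(a (l 4) (b (l 4) (l 4))), by decide +kernel⟩

theorem c_pm_213_a : CertB 0 536870912 536870912 536870912 536870912 50465866 3 eng mog cd2q2a cd6q1 pd3 true true false .pnn 2 1 3
    ndB2q2a ndB6q1 pcB3 Cut.none Ext.none :=
  certB0 (fam := true) (s1 := true) (s2 := false) (a := 2) (b := 1) (c := 3) (cn := .pnn) (n1 := ndB2q2a) (n2 := ndB6q1) (pc := pcB3) (cut := Cut.none) (xt := Ext.none) (P1 := 0) (W1 := 536870912) (P2 := 536870912) (W2 := 536870912) (P3 := 536870912) (W3 := 50465866) (N0 := 3) (En := eng) (mo := mog) (C1 := cd2q2a) (C2 := cd6q1) (C3 := pd3)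
    rfl k0_pm_213_a

noncomputable def f_pm_213_b : ℕ → ℕ → ℕ → ℕ → Bool := onCell 1239849684 370763052 536870912 536870912 536870912 50465866
    (rowB 3 eng mog cd2q2b cd6q1 pd3 0 true true false .pnn 2 1 3 (qsf 1239849684 370763052 536870912 536870912 3) ndB2q2b ndB6q1 pcB3 Cut.none Ext.none)

def k0_pm_213_b : ∃ t, chk3 f_pm_213_b t 1 1 1 = true :=
  ⟨(l 4), by decide +kernel⟩

theorem c_pm_213_b : CertB 1239849684 370763052 536870912 536870912 536870912 50465866 3 eng mog cd2q2b cd6q1 pd3 true true false .pnn 2 1 3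
    ndB2q2b ndB6q1 pcB3 Cut.none Ext.none :=
  certB0 (fam := true) (s1 := true) (s2 := false) (a := 2) (b := 1) (c := 3) (cn := .pnn) (n1 := ndB2q2b) (n2 := ndB6q1) (pc := pcB3) (cut := Cut.none) (xt := Ext.none) (P1 := 1239849684) (W1 := 370763052) (P2 := 536870912) (W2 := 536870912) (P3 := 536870912) (W3 := 50465866) (N0 := 3) (En := eng) (mo := mog) (C1 := cd2q2b) (C2 := cd6q1) (C3 := pd3)
    rfl k0_pm_213_b

noncomputable def f_pm_303 : ℕ → ℕ → ℕ → ℕ → Bool := onCell 1610612736 536870912 0 536870912 536870912 50465866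
    (rowB 3 eng mog cd2q3 cd6q0 pd3 0 true true false .npn 3 0 3 (qsf 1610612736 536870912 0 536870912 3) ndB2q3 ndB6q0 pcB3 Cut.none Ext.none)

def k0_pm_303 : ∃ t, chk3 f_pm_303 t 1 1 1 = true :=
  ⟨(l 4), by decide +kernel⟩

theorem c_pm_303 : CertB 1610612736 536870912 0 536870912 536870912 50465866 3 eng mog cd2q3 cd6q0 pd3 true true false .npn 3 0 3
    ndB2q3 ndB6q0 pcB3 Cut.none Ext.none :=
  certB0 (fam := true) (s1 := true) (s2 := false) (a := 3) (b := 0) (c := 3) (cn := .npn) (n1 := ndB2q3) (n2 := ndB6q0) (pc := pcB3) (cut := Cut.none) (xt := Ext.none) (P1 := 1610612736) (W1 := 536870912) (P2 := 0) (W2 := 536870912) (P3 := 536870912) (W3 := 50465866) (N0 := 3) (En := eng) (mo := mog) (C1 := cd2q3) (C2 := cd6q0) (C3 := pd3)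
    rfl k0_pm_303

noncomputable def f_pm_313 : ℕ → ℕ → ℕ → ℕ → Bool := onCell 1610612736 536870912 536870912 536870912 536870912 50465866
    (rowB 3 eng mog cd2q3 cd6q1 pd3 0 true true false .dn 3 1 3 (qsf 1610612736 536870912 536870912 536870912 3) ndB2q3 ndB6q1 pcB3 Cut.none Ext.none)

def k0_pm_313 : ∃ t, chk3 f_pm_313 t 1 1 1 = true :=
  ⟨(l 4), by decide +kernel⟩

theorem c_pm_313 : CertB 1610612736 536870912 536870912 536870912 536870912 50465866 3 eng mog cd2q3 cd6q1 pd3 true true false .dn 3 1 3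
    ndB2q3 ndB6q1 pcB3 Cut.none Ext.none :=
  certB0 (fam := true) (s1 := true) (s2 := false) (a := 3) (b := 1) (c := 3) (cn := .dn) (n1 := ndB2q3) (n2 := ndB6q1) (pc := pcB3) (cut := Cut.none) (xt := Ext.none) (P1 := 1610612736) (W1 := 536870912) (P2 := 536870912) (W2 := 536870912) (P3 := 536870912) (W3 := 50465866) (N0 := 3) (En := eng) (mo := mog) (C1 := cd2q3) (C2 := cd6q1) (C3 := pd3)
    rfl k0_pm_313

noncomputable def f_mm_001 : ℕ → ℕ → ℕ → ℕ → Bool := onCell 0 536870912 0 536870912 536870912 50465866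
    (rowB 3 eng mog cd2q0 cd6q0 pd1 0 true false false .up 0 0 1 (qsf 0 536870912 0 536870912 1) ndB2q0 ndB6q0 pcB1 Cut.none Ext.none)

def k0_mm_001 : ∃ t, chk3 f_mm_001 t 1 1 1 = true :=
  ⟨(l 4), by decide +kernel⟩

theorem c_mm_001 : CertB 0 536870912 0 536870912 536870912 50465866 3 eng mog cd2q0 cd6q0 pd1 true false false .up 0 0 1
    ndB2q0 ndB6q0 pcB1 Cut.none Ext.none :=
  certB0 (fam := true) (s1 := false) (s2 := false) (a := 0) (b := 0) (c := 1) (cn := .up) (n1 := ndB2q0) (n2 := ndB6q0) (pc := pcB1) (cut := Cut.none) (xt := Ext.none) (P1 := 0) (W1 := 536870912) (P2 := 0) (W2 := 536870912) (P3 := 536870912) (W3 := 50465866) (N0 := 3) (En := eng) (mo := mog) (C1 := cd2q0) (C2 := cd6q0) (C3 := pd1)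
    rfl k0_mm_001

noncomputable def f_mm_011 : ℕ → ℕ → ℕ → ℕ → Bool := onCell 0 536870912 536870912 536870912 536870912 50465866
    (rowB 3 eng mog cd2q0 cd6q1 pd1 0 true false false .pnn 0 1 1 (qsf 0 536870912 536870912 536870912 1) ndB2q0 ndB6q1 pcB1 Cut.none Ext.none)

def k0_mm_011 : ∃ t, chk3 f_mm_011 t 1 1 1 = true :=
  ⟨(l 4), by decide +kernel⟩

theorem c_mm_011 : CertB 0 536870912 536870912 536870912 536870912 50465866 3 eng mog cd2q0 cd6q1 pd1 true false false .pnn 0 1 1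
    ndB2q0 ndB6q1 pcB1 Cut.none Ext.none :=
  certB0 (fam := true) (s1 := false) (s2 := false) (a := 0) (b := 1) (c := 1) (cn := .pnn) (n1 := ndB2q0) (n2 := ndB6q1) (pc := pcB1) (cut := Cut.none) (xt := Ext.none) (P1 := 0) (W1 := 536870912) (P2 := 536870912) (W2 := 536870912) (P3 := 536870912) (W3 := 50465866) (N0 := 3) (En := eng) (mo := mog) (C1 := cd2q0) (C2 := cd6q1) (C3 := pd1)
    rfl k0_mm_011

noncomputable def f_mm_012 : ℕ → ℕ → ℕ → ℕ → Bool := onCell 0 536870912 536870912 536870912 536870912 50465866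
    (rowB 3 eng mog cd2q0 cd6q1 pd2 0 true false false .pnp 0 1 2 (qsf 0 536870912 536870912 536870912 2) ndB2q0 ndB6q1 pcB2 Cut.none Ext.none)

def k0_mm_012 : ∃ t, chk3 f_mm_012 t 1 1 1 = true :=
  ⟨(l 4), by decide +kernel⟩

theorem c_mm_012 : CertB 0 536870912 536870912 536870912 536870912 50465866 3 eng mog cd2q0 cd6q1 pd2 true false false .pnp 0 1 2
    ndB2q0 ndB6q1 pcB2 Cut.none Ext.none :=
  certB0 (fam := true) (s1 := false) (s2 := false) (a := 0) (b := 1) (c := 2) (cn := .pnp) (n1 := ndB2q0) (n2 := ndB6q1) (pc := pcB2) (cut := Cut.none) (xt := Ext.none) (P1 := 0) (W1 := 536870912) (P2 := 536870912) (W2 := 536870912) (P3 := 536870912) (W3 := 50465866) (N0 := 3) (En := eng) (mo := mog) (C1 := cd2q0) (C2 := cd6q1) (C3 := pd2)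
    rfl k0_mm_012

noncomputable def f_mm_022 : ℕ → ℕ → ℕ → ℕ → Bool := onCell 0 536870912 1073741824 536870912 536870912 50465866
    (rowB 3 eng mog cd2q0 cd6q2 pd2 0 true false false .pp 0 2 2 (qsf 0 536870912 1073741824 536870912 2) ndB2q0 ndB6q2 pcB2 Cut.none Ext.none)

def k0_mm_022 : ∃ t, chk3 f_mm_022 t 1 1 1 = true :=
  ⟨(l 4), by decide +kernel⟩

theorem c_mm_022 : CertB 0 536870912 1073741824 536870912 536870912 50465866 3 eng mog cd2q0 cd6q2 pd2 true false false .pp 0 2 2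
    ndB2q0 ndB6q2 pcB2 Cut.none Ext.none :=
  certB0 (fam := true) (s1 := false) (s2 := false) (a := 0) (b := 2) (c := 2) (cn := .pp) (n1 := ndB2q0) (n2 := ndB6q2) (pc := pcB2) (cut := Cut.none) (xt := Ext.none) (P1 := 0) (W1 := 536870912) (P2 := 1073741824) (W2 := 536870912) (P3 := 536870912) (W3 := 50465866) (N0 := 3) (En := eng) (mo := mog) (C1 := cd2q0) (C2 := cd6q2) (C3 := pd2)
    rfl k0_mm_022

noncomputable def f_mm_023 : ℕ → ℕ → ℕ → ℕ → Bool := onCell 0 536870912 1073741824 536870912 536870912 50465866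
    (rowB 3 eng mog cd2q0 cd6q2 pd3 0 true false false .up 0 2 3 (qsf 0 536870912 1073741824 536870912 3) ndB2q0 ndB6q2 pcB3 Cut.none Ext.none)

def k0_mm_023 : ∃ t, chk3 f_mm_023 t 1 1 1 = true :=
  ⟨(l 4), by decide +kernel⟩

theorem c_mm_023 : CertB 0 536870912 1073741824 536870912 536870912 50465866 3 eng mog cd2q0 cd6q2 pd3 true false false .up 0 2 3
    ndB2q0 ndB6q2 pcB3 Cut.none Ext.none :=
  certB0 (fam := true) (s1 := false) (s2 := false) (a := 0) (b := 2) (c := 3) (cn := .up) (n1 := ndB2q0) (n2 := ndB6q2) (pc := pcB3) (cut := Cut.none) (xt := Ext.none) (P1 := 0) (W1 := 536870912) (P2 := 1073741824) (W2 := 536870912) (P3 := 536870912) (W3 := 50465866) (N0 := 3) (En := eng) (mo := mog) (C1 := cd2q0) (C2 := cd6q2) (C3 := pd3)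
    rfl k0_mm_023

noncomputable def f_mm_033 : ℕ → ℕ → ℕ → ℕ → Bool := onCell 0 536870912 0 1230186008 536870912 50465866
    (rowB 3 eng mog cd2q0 cd6q3 pd3 0 true false false .pnn 0 3 3 (qsf 0 536870912 0 1230186008 3) ndB2q0 ndB6q3 pcB3 Cut.none Ext.none)

def k0_mm_033 : ∃ t, chk3 f_mm_033 t 1 1 1 = true :=
  ⟨(l 4), by decide +kernel⟩

theorem c_mm_033 : CertB 0 536870912 0 1230186008 536870912 50465866 3 eng mog cd2q0 cd6q3 pd3 true false false .pnn 0 3 3
    ndB2q0 ndB6q3 pcB3 Cut.none Ext.none :=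
  certB0 (fam := true) (s1 := false) (s2 := false) (a := 0) (b := 3) (c := 3) (cn := .pnn) (n1 := ndB2q0) (n2 := ndB6q3) (pc := pcB3) (cut := Cut.none) (xt := Ext.none) (P1 := 0) (W1 := 536870912) (P2 := 0) (W2 := 1230186008) (P3 := 536870912) (W3 := 50465866) (N0 := 3) (En := eng) (mo := mog) (C1 := cd2q0) (C2 := cd6q3) (C3 := pd3)
    rfl k0_mm_033

noncomputable def f_mm_101 : ℕ → ℕ → ℕ → ℕ → Bool := onCell 536870912 536870912 0 536870912 536870912 50465866
    (rowB 3 eng mog cd2q1 cd6q0 pd1 0 true false false .npn 1 0 1 (qsf 536870912 536870912 0 536870912 1) ndB2q1 ndB6q0 pcB1 Cut.none Ext.none)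

def k0_mm_101 : ∃ t, chk3 f_mm_101 t 1 1 1 = true :=
  ⟨(l 4), by decide +kernel⟩

theorem c_mm_101 : CertB 536870912 536870912 0 536870912 536870912 50465866 3 eng mog cd2q1 cd6q0 pd1 true false false .npn 1 0 1
    ndB2q1 ndB6q0 pcB1 Cut.none Ext.none :=
  certB0 (fam := true) (s1 := false) (s2 := false) (a := 1) (b := 0) (c := 1) (cn := .npn) (n1 := ndB2q1) (n2 := ndB6q0) (pc := pcB1) (cut := Cut.none) (xt := Ext.none) (P1 := 536870912) (W1 := 536870912) (P2 := 0) (W2 := 536870912) (P3 := 536870912) (W3 := 50465866) (N0 := 3) (En := eng) (mo := mog) (C1 := cd2q1) (C2 := cd6q0) (C3 := pd1)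
    rfl k0_mm_101

noncomputable def f_mm_102 : ℕ → ℕ → ℕ → ℕ → Bool := onCell 536870912 536870912 0 536870912 536870912 50465866
    (rowB 3 eng mog cd2q1 cd6q0 pd2 0 true false false .npp 1 0 2 (qsf 536870912 536870912 0 536870912 2) ndB2q1 ndB6q0 pcB2 Cut.none Ext.none)

def k0_mm_102 : ∃ t, chk3 f_mm_102 t 1 1 1 = true :=
  ⟨(l 4), by decide +kernel⟩

theorem c_mm_102 : CertB 536870912 536870912 0 536870912 536870912 50465866 3 eng mog cd2q1 cd6q0 pd2 true false false .npp 1 0 2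
    ndB2q1 ndB6q0 pcB2 Cut.none Ext.none :=
  certB0 (fam := true) (s1 := false) (s2 := false) (a := 1) (b := 0) (c := 2) (cn := .npp) (n1 := ndB2q1) (n2 := ndB6q0) (pc := pcB2) (cut := Cut.none) (xt := Ext.none) (P1 := 536870912) (W1 := 536870912) (P2 := 0) (W2 := 536870912) (P3 := 536870912) (W3 := 50465866) (N0 := 3) (En := eng) (mo := mog) (C1 := cd2q1) (C2 := cd6q0) (C3 := pd2)
    rfl k0_mm_102

noncomputable def f_mm_112 : ℕ → ℕ → ℕ → ℕ → Bool := onCell 536870912 536870912 536870912 536870912 536870912 50465866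
    (rowB 3 eng mog cd2q1 cd6q1 pd2 0 true false false .dn 1 1 2 (qsf 536870912 536870912 536870912 536870912 2) ndB2q1 ndB6q1 pcB2 Cut.none Ext.none)

def k0_mm_112 : ∃ t, chk3 f_mm_112 t 1 1 1 = true :=
  ⟨(l 4), by decide +kernel⟩

theorem c_mm_112 : CertB 536870912 536870912 536870912 536870912 536870912 50465866 3 eng mog cd2q1 cd6q1 pd2 true false false .dn 1 1 2
    ndB2q1 ndB6q1 pcB2 Cut.none Ext.none :=
  certB0 (fam := true) (s1 := false) (s2 := false) (a := 1) (b := 1) (c := 2) (cn := .dn) (n1 := ndB2q1) (n2 := ndB6q1) (pc := pcB2) (cut := Cut.none) (xt := Ext.none) (P1 := 536870912) (W1 := 536870912) (P2 := 536870912) (W2 := 536870912) (P3 := 536870912) (W3 := 50465866) (N0 := 3) (En := eng) (mo := mog) (C1 := cd2q1) (C2 := cd6q1) (C3 := pd2)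
    rfl k0_mm_112

noncomputable def f_mm_113 : ℕ → ℕ → ℕ → ℕ → Bool := onCell 536870912 536870912 536870912 536870912 536870912 50465866
    (rowB 3 eng mog cd2q1 cd6q1 pd3 0 true false false .nn 1 1 3 (qsf 536870912 536870912 536870912 536870912 3) ndB2q1 ndB6q1 pcB3 Cut.none Ext.none)

def k0_mm_113 : ∃ t, chk3 f_mm_113 t 1 1 1 = true :=
  ⟨(l 4), by decide +kernel⟩

theorem c_mm_113 : CertB 536870912 536870912 536870912 536870912 536870912 50465866 3 eng mog cd2q1 cd6q1 pd3 true false false .nn 1 1 3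
    ndB2q1 ndB6q1 pcB3 Cut.none Ext.none :=
  certB0 (fam := true) (s1 := false) (s2 := false) (a := 1) (b := 1) (c := 3) (cn := .nn) (n1 := ndB2q1) (n2 := ndB6q1) (pc := pcB3) (cut := Cut.none) (xt := Ext.none) (P1 := 536870912) (W1 := 536870912) (P2 := 536870912) (W2 := 536870912) (P3 := 536870912) (W3 := 50465866) (N0 := 3) (En := eng) (mo := mog) (C1 := cd2q1) (C2 := cd6q1) (C3 := pd3)
    rfl k0_mm_113

noncomputable def f_mm_123 : ℕ → ℕ → ℕ → ℕ → Bool := onCell 536870912 536870912 1073741824 536870912 536870912 50465866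
    (rowB 3 eng mog cd2q1 cd6q2 pd3 0 true false false .npn 1 2 3 (qsf 536870912 536870912 1073741824 536870912 3) ndB2q1 ndB6q2 pcB3 Cut.none Ext.none)

def k0_mm_123 : ∃ t, chk3 f_mm_123 t 1 1 1 = true :=
  ⟨(l 4), by decide +kernel⟩

theorem c_mm_123 : CertB 536870912 536870912 1073741824 536870912 536870912 50465866 3 eng mog cd2q1 cd6q2 pd3 true false false .npn 1 2 3
    ndB2q1 ndB6q2 pcB3 Cut.none Ext.none :=
  certB0 (fam := true) (s1 := false) (s2 := false) (a := 1) (b := 2) (c := 3) (cn := .npn) (n1 := ndB2q1) (n2 := ndB6q2) (pc := pcB3) (cut := Cut.none) (xt := Ext.none) (P1 := 536870912) (W1 := 536870912) (P2 := 1073741824) (W2 := 536870912) (P3 := 536870912) (W3 := 50465866) (N0 := 3) (En := eng) (mo := mog) (C1 := cd2q1) (C2 := cd6q2) (C3 := pd3)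
    rfl k0_mm_123

noncomputable def f_mm_133 : ℕ → ℕ → ℕ → ℕ → Bool := onCell 536870912 536870912 0 1230186008 536870912 50465866
    (rowB 3 eng mog cd2q1 cd6q3 pd3 0 true false false .dn 1 3 3 (qsf 536870912 536870912 0 1230186008 3) ndB2q1 ndB6q3 pcB3 Cut.none Ext.none)

def k0_mm_133 : ∃ t, chk3 f_mm_133 t 1 1 1 = true :=
  ⟨(l 4), by decide +kernel⟩

theorem c_mm_133 : CertB 536870912 536870912 0 1230186008 536870912 50465866 3 eng mog cd2q1 cd6q3 pd3 true false false .dn 1 3 3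
    ndB2q1 ndB6q3 pcB3 Cut.none Ext.none :=
  certB0 (fam := true) (s1 := false) (s2 := false) (a := 1) (b := 3) (c := 3) (cn := .dn) (n1 := ndB2q1) (n2 := ndB6q3) (pc := pcB3) (cut := Cut.none) (xt := Ext.none) (P1 := 536870912) (W1 := 536870912) (P2 := 0) (W2 := 1230186008) (P3 := 536870912) (W3 := 50465866) (N0 := 3) (En := eng) (mo := mog) (C1 := cd2q1) (C2 := cd6q3) (C3 := pd3)
    rfl k0_mm_133

noncomputable def f_mm_202_a : ℕ → ℕ → ℕ → ℕ → Bool := onCell 0 536870912 0 536870912 536870912 50465866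
    (rowB 3 eng mog cd2q2a cd6q0 pd2 0 true false false .pp 2 0 2 (qsf 0 536870912 0 536870912 2) ndB2q2a ndB6q0 pcB2 Cut.none Ext.none)

def k0_mm_202_a : ∃ t, chk3 f_mm_202_a t 1 1 1 = true :=
  ⟨(l 4), by decide +kernel⟩

theorem c_mm_202_a : CertB 0 536870912 0 536870912 536870912 50465866 3 eng mog cd2q2a cd6q0 pd2 true false false .pp 2 0 2
    ndB2q2a ndB6q0 pcB2 Cut.none Ext.none :=
  certB0 (fam := true) (s1 := false) (s2 := false) (a := 2) (b := 0) (c := 2) (cn := .pp) (n1 := ndB2q2a) (n2 := ndB6q0) (pc := pcB2) (cut := Cut.none) (xt := Ext.none) (P1 := 0) (W1 := 536870912) (P2 := 0) (W2 := 536870912) (P3 := 536870912) (W3 := 50465866) (N0 := 3) (En := eng) (mo := mog) (C1 := cd2q2a) (C2 := cd6q0) (C3 := pd2)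
    rfl k0_mm_202_a

noncomputable def f_mm_202_b : ℕ → ℕ → ℕ → ℕ → Bool := onCell 1239849684 370763052 0 536870912 536870912 50465866
    (rowB 3 eng mog cd2q2b cd6q0 pd2 0 true false false .pp 2 0 2 (qsf 1239849684 370763052 0 536870912 2) ndB2q2b ndB6q0 pcB2 Cut.none Ext.none)

def k0_mm_202_b : ∃ t, chk3 f_mm_202_b t 1 1 1 = true :=
  ⟨(l 4), by decide +kernel⟩

theorem c_mm_202_b : CertB 1239849684 370763052 0 536870912 536870912 50465866 3 eng mog cd2q2b cd6q0 pd2 true false false .pp 2 0 2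
    ndB2q2b ndB6q0 pcB2 Cut.none Ext.none :=
  certB0 (fam := true) (s1 := false) (s2 := false) (a := 2) (b := 0) (c := 2) (cn := .pp) (n1 := ndB2q2b) (n2 := ndB6q0) (pc := pcB2) (cut := Cut.none) (xt := Ext.none) (P1 := 1239849684) (W1 := 370763052) (P2 := 0) (W2 := 536870912) (P3 := 536870912) (W3 := 50465866) (N0 := 3) (En := eng) (mo := mog) (C1 := cd2q2b) (C2 := cd6q0) (C3 := pd2)
    rfl k0_mm_202_b

noncomputable def f_mm_203_a : ℕ → ℕ → ℕ → ℕ → Bool := onCell 0 536870912 0 536870912 536870912 50465866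
    (rowB 3 eng mog cd2q2a cd6q0 pd3 0 true false false .up 2 0 3 (qsf 0 536870912 0 536870912 3) ndB2q2a ndB6q0 pcB3 Cut.none Ext.none)

def k0_mm_203_a : ∃ t, chk3 f_mm_203_a t 1 1 1 = true :=
  ⟨(l 4), by decide +kernel⟩

theorem c_mm_203_a : CertB 0 536870912 0 536870912 536870912 50465866 3 eng mog cd2q2a cd6q0 pd3 true false false .up 2 0 3
    ndB2q2a ndB6q0 pcB3 Cut.none Ext.none :=
  certB0 (fam := true) (s1 := false) (s2 := false) (a := 2) (b := 0) (c := 3) (cn := .up) (n1 := ndB2q2a) (n2 := ndB6q0) (pc := pcB3) (cut := Cut.none) (xt := Ext.none) (P1 := 0) (W1 := 536870912) (P2 := 0) (W2 := 536870912) (P3 := 536870912) (W3 := 50465866) (N0 := 3) (En := eng) (mo := mog) (C1 := cd2q2a) (C2 := cd6q0) (C3 := pd3)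
    rfl k0_mm_203_a

noncomputable def f_mm_203_b : ℕ → ℕ → ℕ → ℕ → Bool := onCell 1239849684 370763052 0 536870912 536870912 50465866
    (rowB 3 eng mog cd2q2b cd6q0 pd3 0 true false false .up 2 0 3 (qsf 1239849684 370763052 0 536870912 3) ndB2q2b ndB6q0 pcB3 Cut.none Ext.none)

def k0_mm_203_b : ∃ t, chk3 f_mm_203_b t 1 1 1 = true :=
  ⟨(l 4), by decide +kernel⟩

theorem c_mm_203_b : CertB 1239849684 370763052 0 536870912 536870912 50465866 3 eng mog cd2q2b cd6q0 pd3 true false false .up 2 0 3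
    ndB2q2b ndB6q0 pcB3 Cut.none Ext.none :=
  certB0 (fam := true) (s1 := false) (s2 := false) (a := 2) (b := 0) (c := 3) (cn := .up) (n1 := ndB2q2b) (n2 := ndB6q0) (pc := pcB3) (cut := Cut.none) (xt := Ext.none) (P1 := 1239849684) (W1 := 370763052) (P2 := 0) (W2 := 536870912) (P3 := 536870912) (W3 := 50465866) (N0 := 3) (En := eng) (mo := mog) (C1 := cd2q2b) (C2 := cd6q0) (C3 := pd3)
    rfl k0_mm_203_b

noncomputable def f_mm_213_a : ℕ → ℕ → ℕ → ℕ → Bool := onCell 0 536870912 536870912 536870912 536870912 50465866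
    (rowB 3 eng mog cd2q2a cd6q1 pd3 0 true false false .pnn 2 1 3 (qsf 0 536870912 536870912 536870912 3) ndB2q2a ndB6q1 pcB3 Cut.none Ext.none)

def k0_mm_213_a : ∃ t, chk3 f_mm_213_a t 1 1 1 = true :=
  ⟨(l 4), by decide +kernel⟩

theorem c_mm_213_a : CertB 0 536870912 536870912 536870912 536870912 50465866 3 eng mog cd2q2a cd6q1 pd3 true false false .pnn 2 1 3
    ndB2q2a ndB6q1 pcB3 Cut.none Ext.none :=
  certB0 (fam := true) (s1 := false) (s2 := false) (a := 2) (b := 1) (c := 3) (cn := .pnn) (n1 := ndB2q2a) (n2 := ndB6q1) (pc := pcB3) (cut := Cut.none) (xt := Ext.none) (P1 := 0) (W1 := 536870912) (P2 := 536870912) (W2 := 536870912) (P3 := 536870912) (W3 := 50465866) (N0 := 3) (En := eng) (mo := mog) (C1 := cd2q2a) (C2 := cd6q1) (C3 := pd3)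
    rfl k0_mm_213_a

noncomputable def f_mm_213_b : ℕ → ℕ → ℕ → ℕ → Bool := onCell 1239849684 370763052 536870912 536870912 536870912 50465866
    (rowB 3 eng mog cd2q2b cd6q1 pd3 0 true false false .pnn 2 1 3 (qsf 1239849684 370763052 536870912 536870912 3) ndB2q2b ndB6q1 pcB3 Cut.none Ext.none)

def k0_mm_213_b : ∃ t, chk3 f_mm_213_b t 1 1 1 = true :=
  ⟨(l 4), by decide +kernel⟩

theorem c_mm_213_b : CertB 1239849684 370763052 536870912 536870912 536870912 50465866 3 eng mog cd2q2b cd6q1 pd3 true false false .pnn 2 1 3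
    ndB2q2b ndB6q1 pcB3 Cut.none Ext.none :=
  certB0 (fam := true) (s1 := false) (s2 := false) (a := 2) (b := 1) (c := 3) (cn := .pnn) (n1 := ndB2q2b) (n2 := ndB6q1) (pc := pcB3) (cut := Cut.none) (xt := Ext.none) (P1 := 1239849684) (W1 := 370763052) (P2 := 536870912) (W2 := 536870912) (P3 := 536870912) (W3 := 50465866) (N0 := 3) (En := eng) (mo := mog) (C1 := cd2q2b) (C2 := cd6q1) (C3 := pd3)
    rfl k0_mm_213_b

noncomputable def f_mm_303 : ℕ → ℕ → ℕ → ℕ → Bool := onCell 1610612736 536870912 0 536870912 536870912 50465866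
    (rowB 3 eng mog cd2q3 cd6q0 pd3 0 true false false .npn 3 0 3 (qsf 1610612736 536870912 0 536870912 3) ndB2q3 ndB6q0 pcB3 Cut.none Ext.none)

def k0_mm_303 : ∃ t, chk3 f_mm_303 t 1 1 1 = true :=
  ⟨(l 4), by decide +kernel⟩

theorem c_mm_303 : CertB 1610612736 536870912 0 536870912 536870912 50465866 3 eng mog cd2q3 cd6q0 pd3 true false false .npn 3 0 3
    ndB2q3 ndB6q0 pcB3 Cut.none Ext.none :=
  certB0 (fam := true) (s1 := false) (s2 := false) (a := 3) (b := 0) (c := 3) (cn := .npn) (n1 := ndB2q3) (n2 := ndB6q0) (pc := pcB3) (cut := Cut.none) (xt := Ext.none) (P1 := 1610612736) (W1 := 536870912) (P2 := 0) (W2 := 536870912) (P3 := 536870912) (W3 := 50465866) (N0 := 3) (En := eng) (mo := mog) (C1 := cd2q3) (C2 := cd6q0) (C3 := pd3)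
    rfl k0_mm_303

noncomputable def f_mm_313 : ℕ → ℕ → ℕ → ℕ → Bool := onCell 1610612736 536870912 536870912 536870912 536870912 50465866
    (rowB 3 eng mog cd2q3 cd6q1 pd3 0 true false false .dn 3 1 3 (qsf 1610612736 536870912 536870912 536870912 3) ndB2q3 ndB6q1 pcB3 Cut.none Ext.none)

def k0_mm_313 : ∃ t, chk3 f_mm_313 t 1 1 1 = true :=
  ⟨(l 4), by decide +kernel⟩

theorem c_mm_313 : CertB 1610612736 536870912 536870912 536870912 536870912 50465866 3 eng mog cd2q3 cd6q1 pd3 true false false .dn 3 1 3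
    ndB2q3 ndB6q1 pcB3 Cut.none Ext.none :=
  certB0 (fam := true) (s1 := false) (s2 := false) (a := 3) (b := 1) (c := 3) (cn := .dn) (n1 := ndB2q3) (n2 := ndB6q1) (pc := pcB3) (cut := Cut.none) (xt := Ext.none) (P1 := 1610612736) (W1 := 536870912) (P2 := 536870912) (W2 := 536870912) (P3 := 536870912) (W3 := 50465866) (N0 := 3) (En := eng) (mo := mog) (C1 := cd2q3) (C2 := cd6q1) (C3 := pd3)
    rfl k0_mm_313

end Pool.Agent.Strip051.G.I5000_5470.Tab.C.BA26

namespace Pool.Agent.Strip051.G.I5000_5470.Tab.C.BA33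

open Pool.Agent.Strip051.PB Pool.Agent.Strip051.PB.T
open Pool.Agent.Strip051.G.I5000_5470.Tab

noncomputable def f_pp_001 : ℕ → ℕ → ℕ → ℕ → Bool := onCell 0 536870912 0 536870912 536870912 50465866
    (rowB 3 eng mog cd3q0 cd3q0 pd1 0 true true true .up 0 0 1 (qsf 0 536870912 0 536870912 1) ndB3q0 ndB3q0 pcB1 Cut.none Ext.none)

def k0_pp_001 : ∃ t, chk3 f_pp_001 t 1 1 1 = true :=
  ⟨(l 4), by decide +kernel⟩

theorem c_pp_001 : CertB 0 536870912 0 536870912 536870912 50465866 3 eng mog cd3q0 cd3q0 pd1 true true true .up 0 0 1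
    ndB3q0 ndB3q0 pcB1 Cut.none Ext.none :=
  certB0 (fam := true) (s1 := true) (s2 := true) (a := 0) (b := 0) (c := 1) (cn := .up) (n1 := ndB3q0) (n2 := ndB3q0) (pc := pcB1) (cut := Cut.none) (xt := Ext.none) (P1 := 0) (W1 := 536870912) (P2 := 0) (W2 := 536870912) (P3 := 536870912) (W3 := 50465866) (N0 := 3) (En := eng) (mo := mog) (C1 := cd3q0) (C2 := cd3q0) (C3 := pd1)
    rfl k0_pp_001

noncomputable def f_pp_011 : ℕ → ℕ → ℕ → ℕ → Bool := onCell 0 536870912 536870912 536870912 536870912 50465866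
    (rowB 3 eng mog cd3q0 cd3q1 pd1 0 true true true .pnn 0 1 1 (qsf 0 536870912 536870912 536870912 1) ndB3q0 ndB3q1 pcB1 Cut.none Ext.none)

def k0_pp_011 : ∃ t, chk3 f_pp_011 t 1 1 1 = true :=
  ⟨(l 4), by decide +kernel⟩

theorem c_pp_011 : CertB 0 536870912 536870912 536870912 536870912 50465866 3 eng mog cd3q0 cd3q1 pd1 true true true .pnn 0 1 1
    ndB3q0 ndB3q1 pcB1 Cut.none Ext.none :=
  certB0 (fam := true) (s1 := true) (s2 := true) (a := 0) (b := 1) (c := 1) (cn := .pnn) (n1 := ndB3q0) (n2 := ndB3q1) (pc := pcB1) (cut := Cut.none) (xt := Ext.none) (P1 := 0) (W1 := 536870912) (P2 := 536870912) (W2 := 536870912) (P3 := 536870912) (W3 := 50465866) (N0 := 3) (En := eng) (mo := mog) (C1 := cd3q0) (C2 := cd3q1) (C3 := pd1)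
    rfl k0_pp_011

noncomputable def f_pp_012 : ℕ → ℕ → ℕ → ℕ → Bool := onCell 0 536870912 536870912 536870912 536870912 50465866
    (rowB 3 eng mog cd3q0 cd3q1 pd2 0 true true true .pnp 0 1 2 (qsf 0 536870912 536870912 536870912 2) ndB3q0 ndB3q1 pcB2 Cut.none Ext.none)

def k0_pp_012 : ∃ t, chk3 f_pp_012 t 1 1 1 = true :=
  ⟨(l 4), by decide +kernel⟩

theorem c_pp_012 : CertB 0 536870912 536870912 536870912 536870912 50465866 3 eng mog cd3q0 cd3q1 pd2 true true true .pnp 0 1 2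
    ndB3q0 ndB3q1 pcB2 Cut.none Ext.none :=
  certB0 (fam := true) (s1 := true) (s2 := true) (a := 0) (b := 1) (c := 2) (cn := .pnp) (n1 := ndB3q0) (n2 := ndB3q1) (pc := pcB2) (cut := Cut.none) (xt := Ext.none) (P1 := 0) (W1 := 536870912) (P2 := 536870912) (W2 := 536870912) (P3 := 536870912) (W3 := 50465866) (N0 := 3) (En := eng) (mo := mog) (C1 := cd3q0) (C2 := cd3q1) (C3 := pd2)
    rfl k0_pp_012

noncomputable def cut_pp_022_a : Cut := Cut.of [[⟨0, 0, 0, 67108864⟩, ⟨1, 1, 0, 67108864⟩, ⟨2, 1, 0, 67108864⟩]]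

noncomputable def f_pp_022_a : ℕ → ℕ → ℕ → ℕ → Bool := onCell 0 536870912 0 536870912 536870912 50465866
    (rowB 3 eng mog cd3q0 cd3q2a pd2 0 true true true .pp 0 2 2 (qsf 0 536870912 0 536870912 2) ndB3q0 ndB3q2a pcB2 cut_pp_022_a Ext.none)

def k0_pp_022_a : ∃ t, chk3 f_pp_022_a t 1 1 1 = true :=
  ⟨(a (a (a (a (a (b (b (b (a (l 16471096) (l 16480152)) (a (l 16497904) (l 4))) (a (b (l 16492232) (l 4)) (l 4))) (b (l 4) (b (l 4) (l 6)))) (b (l 4) (l 4))) (l 4)) (l 4)) (l 4)) (l 4)), by decide +kernel⟩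

theorem c_pp_022_a : CertB 0 536870912 0 536870912 536870912 50465866 3 eng mog cd3q0 cd3q2a pd2 true true true .pp 0 2 2
    ndB3q0 ndB3q2a pcB2 cut_pp_022_a Ext.none :=
  certB0 (fam := true) (s1 := true) (s2 := true) (a := 0) (b := 2) (c := 2) (cn := .pp) (n1 := ndB3q0) (n2 := ndB3q2a) (pc := pcB2) (cut := cut_pp_022_a) (xt := Ext.none) (P1 := 0) (W1 := 536870912) (P2 := 0) (W2 := 536870912) (P3 := 536870912) (W3 := 50465866) (N0 := 3) (En := eng) (mo := mog) (C1 := cd3q0) (C2 := cd3q2a) (C3 := pd2)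
    rfl k0_pp_022_a

noncomputable def cut_pp_022_b : Cut := Cut.of [[⟨0, 0, 0, 67108864⟩, ⟨1, 1, 0, 67108864⟩, ⟨2, 1, 0, 67108864⟩]]

noncomputable def f_pp_022_b : ℕ → ℕ → ℕ → ℕ → Bool := onCell 0 536870912 1239849684 370763052 536870912 50465866
    (rowB 3 eng mog cd3q0 cd3q2b pd2 0 true true true .pp 0 2 2 (qsf 0 536870912 1239849684 370763052 2) ndB3q0 ndB3q2b pcB2 cut_pp_022_b Ext.none)

def k0_pp_022_b : ∃ t, chk3 f_pp_022_b t 1 1 1 = true :=
  ⟨(a (b (a (b (a (a (b (a (b (a (b (l 16460376) (l 16439072)) (b (l 16490640) (l 16447640))) (a (l 16405936) (l 4))) (l 4)) (l 4)) (l 4)) (l 4)) (l 4)) (l 4)) (l 4)) (l 4)), by decide +kernel⟩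

theorem c_pp_022_b : CertB 0 536870912 1239849684 370763052 536870912 50465866 3 eng mog cd3q0 cd3q2b pd2 true true true .pp 0 2 2
    ndB3q0 ndB3q2b pcB2 cut_pp_022_b Ext.none :=
  certB0 (fam := true) (s1 := true) (s2 := true) (a := 0) (b := 2) (c := 2) (cn := .pp) (n1 := ndB3q0) (n2 := ndB3q2b) (pc := pcB2) (cut := cut_pp_022_b) (xt := Ext.none) (P1 := 0) (W1 := 536870912) (P2 := 1239849684) (W2 := 370763052) (P3 := 536870912) (W3 := 50465866) (N0 := 3) (En := eng) (mo := mog) (C1 := cd3q0) (C2 := cd3q2b) (C3 := pd2)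
    rfl k0_pp_022_b

noncomputable def f_pp_023_a : ℕ → ℕ → ℕ → ℕ → Bool := onCell 1610612736 536870912 0 536870912 536870912 50465866
    (rowB 3 eng mog cd3q0 cd3q2a pd3 2 true true true .up 0 2 3 (qsf 0 536870912 0 536870912 3) ndB3q0 ndB3q2a pcB3 Cut.none Ext.none)

def k0_pp_023_a : ∃ t, chk3 f_pp_023_a t 1 1 1 = true :=
  ⟨(l 4), by decide +kernel⟩

theorem c_pp_023_a : CertB 0 536870912 0 536870912 536870912 50465866 3 eng mog cd3q0 cd3q2a pd3 true true true .up 0 2 3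
    ndB3q0 ndB3q2a pcB3 Cut.none Ext.none :=
  certB2 (fam := true) (s1 := true) (s2 := true) (a := 0) (b := 2) (c := 3) (cn := .up) (n1 := ndB3q0) (n2 := ndB3q2a) (pc := pcB3) (cut := Cut.none) (xt := Ext.none) (P1 := 0) (W1 := 536870912) (P2 := 0) (W2 := 536870912) (P3 := 536870912) (W3 := 50465866) (N0 := 3) (En := eng) (mo := mog) (C1 := cd3q0) (C2 := cd3q2a) (C3 := pd3)
    rfl (fun _ => rfl) k0_pp_023_a

noncomputable def f_pp_023_b : ℕ → ℕ → ℕ → ℕ → Bool := onCell 1610612736 536870912 1239849684 370763052 536870912 50465866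
    (rowB 3 eng mog cd3q0 cd3q2b pd3 2 true true true .up 0 2 3 (qsf 0 536870912 1239849684 370763052 3) ndB3q0 ndB3q2b pcB3 Cut.none Ext.none)

def k0_pp_023_b : ∃ t, chk3 f_pp_023_b t 1 1 1 = true :=
  ⟨(l 4), by decide +kernel⟩

theorem c_pp_023_b : CertB 0 536870912 1239849684 370763052 536870912 50465866 3 eng mog cd3q0 cd3q2b pd3 true true true .up 0 2 3
    ndB3q0 ndB3q2b pcB3 Cut.none Ext.none :=
  certB2 (fam := true) (s1 := true) (s2 := true) (a := 0) (b := 2) (c := 3) (cn := .up) (n1 := ndB3q0) (n2 := ndB3q2b) (pc := pcB3) (cut := Cut.none) (xt := Ext.none) (P1 := 0) (W1 := 536870912) (P2 := 1239849684) (W2 := 370763052) (P3 := 536870912) (W3 := 50465866) (N0 := 3) (En := eng) (mo := mog) (C1 := cd3q0) (C2 := cd3q2b) (C3 := pd3)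
    rfl (fun _ => rfl) k0_pp_023_b

noncomputable def f_pp_033 : ℕ → ℕ → ℕ → ℕ → Bool := onCell 0 536870912 1610612736 536870912 536870912 50465866
    (rowB 3 eng mog cd3q0 cd3q3 pd3 0 true true true .pnn 0 3 3 (qsf 0 536870912 1610612736 536870912 3) ndB3q0 ndB3q3 pcB3 Cut.none Ext.none)

def k0_pp_033 : ∃ t, chk3 f_pp_033 t 1 1 1 = true :=
  ⟨(l 4), by decide +kernel⟩

theorem c_pp_033 : CertB 0 536870912 1610612736 536870912 536870912 50465866 3 eng mog cd3q0 cd3q3 pd3 true true true .pnn 0 3 3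
    ndB3q0 ndB3q3 pcB3 Cut.none Ext.none :=
  certB0 (fam := true) (s1 := true) (s2 := true) (a := 0) (b := 3) (c := 3) (cn := .pnn) (n1 := ndB3q0) (n2 := ndB3q3) (pc := pcB3) (cut := Cut.none) (xt := Ext.none) (P1 := 0) (W1 := 536870912) (P2 := 1610612736) (W2 := 536870912) (P3 := 536870912) (W3 := 50465866) (N0 := 3) (En := eng) (mo := mog) (C1 := cd3q0) (C2 := cd3q3) (C3 := pd3)
    rfl k0_pp_033

noncomputable def f_pp_101 : ℕ → ℕ → ℕ → ℕ → Bool := onCell 536870912 536870912 0 536870912 536870912 50465866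
    (rowB 3 eng mog cd3q1 cd3q0 pd1 0 true true true .npn 1 0 1 (qsf 536870912 536870912 0 536870912 1) ndB3q1 ndB3q0 pcB1 Cut.none Ext.none)

def k0_pp_101 : ∃ t, chk3 f_pp_101 t 1 1 1 = true :=
  ⟨(l 4), by decide +kernel⟩

theorem c_pp_101 : CertB 536870912 536870912 0 536870912 536870912 50465866 3 eng mog cd3q1 cd3q0 pd1 true true true .npn 1 0 1
    ndB3q1 ndB3q0 pcB1 Cut.none Ext.none :=
  certB0 (fam := true) (s1 := true) (s2 := true) (a := 1) (b := 0) (c := 1) (cn := .npn) (n1 := ndB3q1) (n2 := ndB3q0) (pc := pcB1) (cut := Cut.none) (xt := Ext.none) (P1 := 536870912) (W1 := 536870912) (P2 := 0) (W2 := 536870912) (P3 := 536870912) (W3 := 50465866) (N0 := 3) (En := eng) (mo := mog) (C1 := cd3q1) (C2 := cd3q0) (C3 := pd1)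
    rfl k0_pp_101

noncomputable def f_pp_102 : ℕ → ℕ → ℕ → ℕ → Bool := onCell 536870912 536870912 0 536870912 536870912 50465866
    (rowB 3 eng mog cd3q1 cd3q0 pd2 0 true true true .npp 1 0 2 (qsf 536870912 536870912 0 536870912 2) ndB3q1 ndB3q0 pcB2 Cut.none Ext.none)

def k0_pp_102 : ∃ t, chk3 f_pp_102 t 1 1 1 = true :=
  ⟨(l 4), by decide +kernel⟩

theorem c_pp_102 : CertB 536870912 536870912 0 536870912 536870912 50465866 3 eng mog cd3q1 cd3q0 pd2 true true true .npp 1 0 2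
    ndB3q1 ndB3q0 pcB2 Cut.none Ext.none :=
  certB0 (fam := true) (s1 := true) (s2 := true) (a := 1) (b := 0) (c := 2) (cn := .npp) (n1 := ndB3q1) (n2 := ndB3q0) (pc := pcB2) (cut := Cut.none) (xt := Ext.none) (P1 := 536870912) (W1 := 536870912) (P2 := 0) (W2 := 536870912) (P3 := 536870912) (W3 := 50465866) (N0 := 3) (En := eng) (mo := mog) (C1 := cd3q1) (C2 := cd3q0) (C3 := pd2)
    rfl k0_pp_102

noncomputable def f_pp_112 : ℕ → ℕ → ℕ → ℕ → Bool := onCell 536870912 536870912 536870912 536870912 536870912 50465866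
    (rowB 3 eng mog cd3q1 cd3q1 pd2 0 true true true .dn 1 1 2 (qsf 536870912 536870912 536870912 536870912 2) ndB3q1 ndB3q1 pcB2 Cut.none Ext.none)

def k0_pp_112 : ∃ t, chk3 f_pp_112 t 1 1 1 = true :=
  ⟨(l 4), by decide +kernel⟩

theorem c_pp_112 : CertB 536870912 536870912 536870912 536870912 536870912 50465866 3 eng mog cd3q1 cd3q1 pd2 true true true .dn 1 1 2
    ndB3q1 ndB3q1 pcB2 Cut.none Ext.none :=
  certB0 (fam := true) (s1 := true) (s2 := true) (a := 1) (b := 1) (c := 2) (cn := .dn) (n1 := ndB3q1) (n2 := ndB3q1) (pc := pcB2) (cut := Cut.none) (xt := Ext.none) (P1 := 536870912) (W1 := 536870912) (P2 := 536870912) (W2 := 536870912) (P3 := 536870912) (W3 := 50465866) (N0 := 3) (En := eng) (mo := mog) (C1 := cd3q1) (C2 := cd3q1) (C3 := pd2)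
    rfl k0_pp_112

noncomputable def f_pp_113 : ℕ → ℕ → ℕ → ℕ → Bool := onCell 536870912 536870912 536870912 536870912 536870912 50465866
    (rowB 3 eng mog cd3q1 cd3q1 pd3 0 true true true .nn 1 1 3 (qsf 536870912 536870912 536870912 536870912 3) ndB3q1 ndB3q1 pcB3 Cut.none Ext.none)

def k0_pp_113 : ∃ t, chk3 f_pp_113 t 1 1 1 = true :=
  ⟨(l 4), by decide +kernel⟩

theorem c_pp_113 : CertB 536870912 536870912 536870912 536870912 536870912 50465866 3 eng mog cd3q1 cd3q1 pd3 true true true .nn 1 1 3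
    ndB3q1 ndB3q1 pcB3 Cut.none Ext.none :=
  certB0 (fam := true) (s1 := true) (s2 := true) (a := 1) (b := 1) (c := 3) (cn := .nn) (n1 := ndB3q1) (n2 := ndB3q1) (pc := pcB3) (cut := Cut.none) (xt := Ext.none) (P1 := 536870912) (W1 := 536870912) (P2 := 536870912) (W2 := 536870912) (P3 := 536870912) (W3 := 50465866) (N0 := 3) (En := eng) (mo := mog) (C1 := cd3q1) (C2 := cd3q1) (C3 := pd3)
    rfl k0_pp_113

noncomputable def f_pp_123_a : ℕ → ℕ → ℕ → ℕ → Bool := onCell 536870912 536870912 0 536870912 536870912 50465866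
    (rowB 3 eng mog cd3q1 cd3q2a pd3 0 true true true .npn 1 2 3 (qsf 536870912 536870912 0 536870912 3) ndB3q1 ndB3q2a pcB3 Cut.none Ext.none)

def k0_pp_123_a : ∃ t, chk3 f_pp_123_a t 1 1 1 = true :=
  ⟨(l 4), by decide +kernel⟩

theorem c_pp_123_a : CertB 536870912 536870912 0 536870912 536870912 50465866 3 eng mog cd3q1 cd3q2a pd3 true true true .npn 1 2 3
    ndB3q1 ndB3q2a pcB3 Cut.none Ext.none :=
  certB0 (fam := true) (s1 := true) (s2 := true) (a := 1) (b := 2) (c := 3) (cn := .npn) (n1 := ndB3q1) (n2 := ndB3q2a) (pc := pcB3) (cut := Cut.none) (xt := Ext.none) (P1 := 536870912) (W1 := 536870912) (P2 := 0) (W2 := 536870912) (P3 := 536870912) (W3 := 50465866) (N0 := 3) (En := eng) (mo := mog) (C1 := cd3q1) (C2 := cd3q2a) (C3 := pd3)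
    rfl k0_pp_123_a

noncomputable def f_pp_123_b : ℕ → ℕ → ℕ → ℕ → Bool := onCell 536870912 536870912 1239849684 370763052 536870912 50465866
    (rowB 3 eng mog cd3q1 cd3q2b pd3 0 true true true .npn 1 2 3 (qsf 536870912 536870912 1239849684 370763052 3) ndB3q1 ndB3q2b pcB3 Cut.none Ext.none)

def k0_pp_123_b : ∃ t, chk3 f_pp_123_b t 1 1 1 = true :=
  ⟨(l 4), by decide +kernel⟩

theorem c_pp_123_b : CertB 536870912 536870912 1239849684 370763052 536870912 50465866 3 eng mog cd3q1 cd3q2b pd3 true true true .npn 1 2 3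
    ndB3q1 ndB3q2b pcB3 Cut.none Ext.none :=
  certB0 (fam := true) (s1 := true) (s2 := true) (a := 1) (b := 2) (c := 3) (cn := .npn) (n1 := ndB3q1) (n2 := ndB3q2b) (pc := pcB3) (cut := Cut.none) (xt := Ext.none) (P1 := 536870912) (W1 := 536870912) (P2 := 1239849684) (W2 := 370763052) (P3 := 536870912) (W3 := 50465866) (N0 := 3) (En := eng) (mo := mog) (C1 := cd3q1) (C2 := cd3q2b) (C3 := pd3)
    rfl k0_pp_123_b

noncomputable def f_pp_133 : ℕ → ℕ → ℕ → ℕ → Bool := onCell 536870912 536870912 1610612736 536870912 536870912 50465866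
    (rowB 3 eng mog cd3q1 cd3q3 pd3 0 true true true .dn 1 3 3 (qsf 536870912 536870912 1610612736 536870912 3) ndB3q1 ndB3q3 pcB3 Cut.none Ext.none)

def k0_pp_133 : ∃ t, chk3 f_pp_133 t 1 1 1 = true :=
  ⟨(l 4), by decide +kernel⟩

theorem c_pp_133 : CertB 536870912 536870912 1610612736 536870912 536870912 50465866 3 eng mog cd3q1 cd3q3 pd3 true true true .dn 1 3 3
    ndB3q1 ndB3q3 pcB3 Cut.none Ext.none :=
  certB0 (fam := true) (s1 := true) (s2 := true) (a := 1) (b := 3) (c := 3) (cn := .dn) (n1 := ndB3q1) (n2 := ndB3q3) (pc := pcB3) (cut := Cut.none) (xt := Ext.none) (P1 := 536870912) (W1 := 536870912) (P2 := 1610612736) (W2 := 536870912) (P3 := 536870912) (W3 := 50465866) (N0 := 3) (En := eng) (mo := mog) (C1 := cd3q1) (C2 := cd3q3) (C3 := pd3)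
    rfl k0_pp_133

noncomputable def f_pp_202_a : ℕ → ℕ → ℕ → ℕ → Bool := onCell 0 536870912 0 536870912 536870912 50465866
    (rowB 3 eng mog cd3q2a cd3q0 pd2 0 true true true .pp 2 0 2 (qsf 0 536870912 0 536870912 2) ndB3q2a ndB3q0 pcB2 Cut.none Ext.none)

def k0_pp_202_a : ∃ t, chk3 f_pp_202_a t 1 1 1 = true :=
  ⟨(l 5), by decide +kernel⟩

theorem c_pp_202_a : CertB 0 536870912 0 536870912 536870912 50465866 3 eng mog cd3q2a cd3q0 pd2 true true true .pp 2 0 2
    ndB3q2a ndB3q0 pcB2 Cut.none Ext.none :=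
  certB0 (fam := true) (s1 := true) (s2 := true) (a := 2) (b := 0) (c := 2) (cn := .pp) (n1 := ndB3q2a) (n2 := ndB3q0) (pc := pcB2) (cut := Cut.none) (xt := Ext.none) (P1 := 0) (W1 := 536870912) (P2 := 0) (W2 := 536870912) (P3 := 536870912) (W3 := 50465866) (N0 := 3) (En := eng) (mo := mog) (C1 := cd3q2a) (C2 := cd3q0) (C3 := pd2)
    rfl k0_pp_202_a

noncomputable def f_pp_202_b : ℕ → ℕ → ℕ → ℕ → Bool := onCell 1239849684 370763052 0 536870912 536870912 50465866
    (rowB 3 eng mog cd3q2b cd3q0 pd2 0 true true true .pp 2 0 2 (qsf 1239849684 370763052 0 536870912 2) ndB3q2b ndB3q0 pcB2 Cut.none Ext.none)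

def k0_pp_202_b : ∃ t, chk3 f_pp_202_b t 1 1 1 = true :=
  ⟨(l 5), by decide +kernel⟩

theorem c_pp_202_b : CertB 1239849684 370763052 0 536870912 536870912 50465866 3 eng mog cd3q2b cd3q0 pd2 true true true .pp 2 0 2
    ndB3q2b ndB3q0 pcB2 Cut.none Ext.none :=
  certB0 (fam := true) (s1 := true) (s2 := true) (a := 2) (b := 0) (c := 2) (cn := .pp) (n1 := ndB3q2b) (n2 := ndB3q0) (pc := pcB2) (cut := Cut.none) (xt := Ext.none) (P1 := 1239849684) (W1 := 370763052) (P2 := 0) (W2 := 536870912) (P3 := 536870912) (W3 := 50465866) (N0 := 3) (En := eng) (mo := mog) (C1 := cd3q2b) (C2 := cd3q0) (C3 := pd2)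
    rfl k0_pp_202_b

noncomputable def f_pp_203_a : ℕ → ℕ → ℕ → ℕ → Bool := onCell 0 536870912 0 536870912 536870912 50465866
    (rowB 3 eng mog cd3q2a cd3q0 pd3 0 true true true .up 2 0 3 (qsf 0 536870912 0 536870912 3) ndB3q2a ndB3q0 pcB3 Cut.none Ext.none)

def k0_pp_203_a : ∃ t, chk3 f_pp_203_a t 1 1 1 = true :=
  ⟨(l 5), by decide +kernel⟩

theorem c_pp_203_a : CertB 0 536870912 0 536870912 536870912 50465866 3 eng mog cd3q2a cd3q0 pd3 true true true .up 2 0 3
    ndB3q2a ndB3q0 pcB3 Cut.none Ext.none :=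
  certB0 (fam := true) (s1 := true) (s2 := true) (a := 2) (b := 0) (c := 3) (cn := .up) (n1 := ndB3q2a) (n2 := ndB3q0) (pc := pcB3) (cut := Cut.none) (xt := Ext.none) (P1 := 0) (W1 := 536870912) (P2 := 0) (W2 := 536870912) (P3 := 536870912) (W3 := 50465866) (N0 := 3) (En := eng) (mo := mog) (C1 := cd3q2a) (C2 := cd3q0) (C3 := pd3)
    rfl k0_pp_203_a

noncomputable def f_pp_203_b : ℕ → ℕ → ℕ → ℕ → Bool := onCell 1239849684 370763052 0 536870912 536870912 50465866
    (rowB 3 eng mog cd3q2b cd3q0 pd3 0 true true true .up 2 0 3 (qsf 1239849684 370763052 0 536870912 3) ndB3q2b ndB3q0 pcB3 Cut.none Ext.none)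

def k0_pp_203_b : ∃ t, chk3 f_pp_203_b t 1 1 1 = true :=
  ⟨(l 5), by decide +kernel⟩

theorem c_pp_203_b : CertB 1239849684 370763052 0 536870912 536870912 50465866 3 eng mog cd3q2b cd3q0 pd3 true true true .up 2 0 3
    ndB3q2b ndB3q0 pcB3 Cut.none Ext.none :=
  certB0 (fam := true) (s1 := true) (s2 := true) (a := 2) (b := 0) (c := 3) (cn := .up) (n1 := ndB3q2b) (n2 := ndB3q0) (pc := pcB3) (cut := Cut.none) (xt := Ext.none) (P1 := 1239849684) (W1 := 370763052) (P2 := 0) (W2 := 536870912) (P3 := 536870912) (W3 := 50465866) (N0 := 3) (En := eng) (mo := mog) (C1 := cd3q2b) (C2 := cd3q0) (C3 := pd3)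
    rfl k0_pp_203_b

noncomputable def f_pp_213_a : ℕ → ℕ → ℕ → ℕ → Bool := onCell 0 536870912 536870912 536870912 536870912 50465866
    (rowB 3 eng mog cd3q2a cd3q1 pd3 0 true true true .pnn 2 1 3 (qsf 0 536870912 536870912 536870912 3) ndB3q2a ndB3q1 pcB3 Cut.none Ext.none)

def k0_pp_213_a : ∃ t, chk3 f_pp_213_a t 1 1 1 = true :=
  ⟨(l 4), by decide +kernel⟩

theorem c_pp_213_a : CertB 0 536870912 536870912 536870912 536870912 50465866 3 eng mog cd3q2a cd3q1 pd3 true true true .pnn 2 1 3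
    ndB3q2a ndB3q1 pcB3 Cut.none Ext.none :=
  certB0 (fam := true) (s1 := true) (s2 := true) (a := 2) (b := 1) (c := 3) (cn := .pnn) (n1 := ndB3q2a) (n2 := ndB3q1) (pc := pcB3) (cut := Cut.none) (xt := Ext.none) (P1 := 0) (W1 := 536870912) (P2 := 536870912) (W2 := 536870912) (P3 := 536870912) (W3 := 50465866) (N0 := 3) (En := eng) (mo := mog) (C1 := cd3q2a) (C2 := cd3q1) (C3 := pd3)
    rfl k0_pp_213_a

noncomputable def f_pp_213_b : ℕ → ℕ → ℕ → ℕ → Bool := onCell 1239849684 370763052 536870912 536870912 536870912 50465866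
    (rowB 3 eng mog cd3q2b cd3q1 pd3 0 true true true .pnn 2 1 3 (qsf 1239849684 370763052 536870912 536870912 3) ndB3q2b ndB3q1 pcB3 Cut.none Ext.none)

def k0_pp_213_b : ∃ t, chk3 f_pp_213_b t 1 1 1 = true :=
  ⟨(l 4), by decide +kernel⟩

theorem c_pp_213_b : CertB 1239849684 370763052 536870912 536870912 536870912 50465866 3 eng mog cd3q2b cd3q1 pd3 true true true .pnn 2 1 3
    ndB3q2b ndB3q1 pcB3 Cut.none Ext.none :=
  certB0 (fam := true) (s1 := true) (s2 := true) (a := 2) (b := 1) (c := 3) (cn := .pnn) (n1 := ndB3q2b) (n2 := ndB3q1) (pc := pcB3) (cut := Cut.none) (xt := Ext.none) (P1 := 1239849684) (W1 := 370763052) (P2 := 536870912) (W2 := 536870912) (P3 := 536870912) (W3 := 50465866) (N0 := 3) (En := eng) (mo := mog) (C1 := cd3q2b) (C2 := cd3q1) (C3 := pd3)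
    rfl k0_pp_213_b

noncomputable def f_pp_303 : ℕ → ℕ → ℕ → ℕ → Bool := onCell 1610612736 536870912 0 536870912 536870912 50465866
    (rowB 3 eng mog cd3q3 cd3q0 pd3 0 true true true .npn 3 0 3 (qsf 1610612736 536870912 0 536870912 3) ndB3q3 ndB3q0 pcB3 Cut.none Ext.none)

def k0_pp_303 : ∃ t, chk3 f_pp_303 t 1 1 1 = true :=
  ⟨(l 4), by decide +kernel⟩

theorem c_pp_303 : CertB 1610612736 536870912 0 536870912 536870912 50465866 3 eng mog cd3q3 cd3q0 pd3 true true true .npn 3 0 3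
    ndB3q3 ndB3q0 pcB3 Cut.none Ext.none :=
  certB0 (fam := true) (s1 := true) (s2 := true) (a := 3) (b := 0) (c := 3) (cn := .npn) (n1 := ndB3q3) (n2 := ndB3q0) (pc := pcB3) (cut := Cut.none) (xt := Ext.none) (P1 := 1610612736) (W1 := 536870912) (P2 := 0) (W2 := 536870912) (P3 := 536870912) (W3 := 50465866) (N0 := 3) (En := eng) (mo := mog) (C1 := cd3q3) (C2 := cd3q0) (C3 := pd3)
    rfl k0_pp_303

noncomputable def f_pp_313 : ℕ → ℕ → ℕ → ℕ → Bool := onCell 1610612736 536870912 536870912 536870912 536870912 50465866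
    (rowB 3 eng mog cd3q3 cd3q1 pd3 0 true true true .dn 3 1 3 (qsf 1610612736 536870912 536870912 536870912 3) ndB3q3 ndB3q1 pcB3 Cut.none Ext.none)

def k0_pp_313 : ∃ t, chk3 f_pp_313 t 1 1 1 = true :=
  ⟨(l 4), by decide +kernel⟩

theorem c_pp_313 : CertB 1610612736 536870912 536870912 536870912 536870912 50465866 3 eng mog cd3q3 cd3q1 pd3 true true true .dn 3 1 3
    ndB3q3 ndB3q1 pcB3 Cut.none Ext.none :=
  certB0 (fam := true) (s1 := true) (s2 := true) (a := 3) (b := 1) (c := 3) (cn := .dn) (n1 := ndB3q3) (n2 := ndB3q1) (pc := pcB3) (cut := Cut.none) (xt := Ext.none) (P1 := 1610612736) (W1 := 536870912) (P2 := 536870912) (W2 := 536870912) (P3 := 536870912) (W3 := 50465866) (N0 := 3) (En := eng) (mo := mog) (C1 := cd3q3) (C2 := cd3q1) (C3 := pd3)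
    rfl k0_pp_313

noncomputable def f_pm_001 : ℕ → ℕ → ℕ → ℕ → Bool := onCell 0 536870912 0 536870912 536870912 50465866
    (rowB 3 eng mog cd3q0 cd3q0 pd1 0 true true false .up 0 0 1 (qsf 0 536870912 0 536870912 1) ndB3q0 ndB3q0 pcB1 Cut.none Ext.none)

def k0_pm_001 : ∃ t, chk3 f_pm_001 t 1 1 1 = true :=
  ⟨(l 3), by decide +kernel⟩

theorem c_pm_001 : CertB 0 536870912 0 536870912 536870912 50465866 3 eng mog cd3q0 cd3q0 pd1 true true false .up 0 0 1
    ndB3q0 ndB3q0 pcB1 Cut.none Ext.none :=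
  certB0 (fam := true) (s1 := true) (s2 := false) (a := 0) (b := 0) (c := 1) (cn := .up) (n1 := ndB3q0) (n2 := ndB3q0) (pc := pcB1) (cut := Cut.none) (xt := Ext.none) (P1 := 0) (W1 := 536870912) (P2 := 0) (W2 := 536870912) (P3 := 536870912) (W3 := 50465866) (N0 := 3) (En := eng) (mo := mog) (C1 := cd3q0) (C2 := cd3q0) (C3 := pd1)
    rfl k0_pm_001

noncomputable def f_pm_011 : ℕ → ℕ → ℕ → ℕ → Bool := onCell 0 536870912 536870912 536870912 536870912 50465866
    (rowB 3 eng mog cd3q0 cd3q1 pd1 1 true true false .pnn 0 1 1 (qsf 0 536870912 536870912 536870912 1) ndB3q0 ndB3q1 pcB1 Cut.none Ext.none)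

def k0_pm_011 : ∃ t, chk3 f_pm_011 t 1 1 1 = true :=
  ⟨(b (l 3) (l 3)), by decide +kernel⟩

theorem c_pm_011 : CertB 0 536870912 536870912 536870912 536870912 50465866 3 eng mog cd3q0 cd3q1 pd1 true true false .pnn 0 1 1
    ndB3q0 ndB3q1 pcB1 Cut.none Ext.none :=
  certB1 (fam := true) (s1 := true) (s2 := false) (a := 0) (b := 1) (c := 1) (cn := .pnn) (n1 := ndB3q0) (n2 := ndB3q1) (pc := pcB1) (cut := Cut.none) (xt := Ext.none) (P1 := 0) (W1 := 536870912) (P2 := 536870912) (W2 := 536870912) (P3 := 536870912) (W3 := 50465866) (N0 := 3) (En := eng) (mo := mog) (C1 := cd3q0) (C2 := cd3q1) (C3 := pd1)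
    rfl (fun _ => rfl) k0_pm_011

noncomputable def f_pm_012 : ℕ → ℕ → ℕ → ℕ → Bool := onCell 1073741824 536870912 536870912 536870912 536870912 50465866
    (rowB 3 eng mog cd3q0 cd3q1 pd2 2 true true false .pnp 0 1 2 (qsf 0 536870912 536870912 536870912 2) ndB3q0 ndB3q1 pcB2 Cut.none Ext.none)

def k0_pm_012 : ∃ t, chk3 f_pm_012 t 1 1 1 = true :=
  ⟨(a (a (b (l 3) (a (l 3) (b (l 3) (l 3)))) (b (a (a (a (l 3) (a (l 3) (b (l 2) (a (l 16701824) (a (l 16702864) (l 16703392)))))) (b (l 2) (l 16751032))) (b (l 2) (l 16944840))) (a (a (a (b (l 3) (b (l 3) (b (l 3) (l 16491520)))) (a (b (b (l 3) (l 16570304)) (b (l 16522520) (l 16482888))) (b (a (b (l 16633480) (l 16568672)) (b (a (l 16634824) (l 16634792)) (a (l 16569024) (l 16568456)))) (a (b (l 16517816) (l 16475976)) (b (a (l 16516320) (l 16514584)) (l 16597656)))))) (b (b (l 16638352) (l 16568424)) (b (l 16502264) (l 16451936)))) (b (b (l 16660536) (l 16583096)) (b (l 16490416) (l 16515304))))))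 (b (b (l 2) (a (l 16957696) (l 2))) (b (a (a (l 16681424) (l 16773912)) (l 16981560)) (a (b (l 16561944) (a (l 16398256) (l 16457920))) (a (l 16668784) (l 16849512)))))), by decide +kernel⟩

theorem c_pm_012 : CertB 0 536870912 536870912 536870912 536870912 50465866 3 eng mog cd3q0 cd3q1 pd2 true true false .pnp 0 1 2
    ndB3q0 ndB3q1 pcB2 Cut.none Ext.none :=
  certB2 (fam := true) (s1 := true) (s2 := false) (a := 0) (b := 1) (c := 2) (cn := .pnp) (n1 := ndB3q0) (n2 := ndB3q1) (pc := pcB2) (cut := Cut.none) (xt := Ext.none) (P1 := 0) (W1 := 536870912) (P2 := 536870912) (W2 := 536870912) (P3 := 536870912) (W3 := 50465866) (N0 := 3) (En := eng) (mo := mog) (C1 := cd3q0) (C2 := cd3q1) (C3 := pd2)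
    rfl (fun _ => rfl) k0_pm_012

noncomputable def cut_pm_022_a : Cut := Cut.of [[⟨0, 0, 0, 67108864⟩, ⟨1, 1, 0, 67108864⟩, ⟨2, 1, 0, 67108864⟩]]

noncomputable def f_pm_022_a : ℕ → ℕ → ℕ → ℕ → Bool := onCell 1073741824 536870912 0 536870912 536870912 50465866
    (rowB 3 eng mog cd3q0 cd3q2a pd2 2 true true false .pp 0 2 2 (qsf 0 536870912 0 536870912 2) ndB3q0 ndB3q2a pcB2 cut_pm_022_a Ext.none)

def k0_pm_022_a : ∃ t, chk3 f_pm_022_a t 2 2 1 = true :=
  ⟨(a (a (l 1) (a (l 1) (b (l 1) (b (l 1) (a (l 1) (b (l 1) (a (l 1) (b (l 521871599847) (l 572874345303))))))))) (a (a (a (b (l 1) (b (a (l 1) (b (l 520797803255) (a (l 542272652791) (l 576632375127)))) (b (a (a (l 523482193527) (l 560526281719)) (a (l 608307780759) (l 16519784))) (a (b (l 602402225863) (l 16535792)) (l 16528256))))) (b (a (b (l 1) (b (l 1) (l 560526234311))) (a (b (l 1) (b (l 601865277607) (l 16498056))) (b (a (b (l 1537094397607) (l 448857061383)) (a (a (a (b (l 16492240)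 (l 16492424)) (a (b (l 16492272) (l 16492456)) (b (c (l 16498088) (l 670584741207)) (l 16492560)))) (b (l 16492200) (l 16492368))) (b (l 16491792) (l 16491936)))) (a (b (l 16494160) (l 16496680)) (b (l 16493576) (l 16496008)))))) (a (b (b (a (l 542809504263) (l 16503920)) (a (l 16511184) (l 16508752))) (b (l 16515824) (l 16522312))) (b (a (l 16504168) (a (l 16502536) (l 16501696))) (b (a (l 16511672) (l 16509528)) (l 16684848)))))) (b (a (a (b (b (l 16489608) (l 16489592)) (l 16491968)) (b (l 16487088) (l 16488608))) (b (l 16483512) (l 16483856))) (b (a (a (l 16498192) (l 16493856)) (l 16487544)) (l 16614352)))) (b (a (b (l 16475920) (l 16473704)) (l 16461768)) (a (l 16475112) (l 16474320))))), by decide +kernel⟩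

def k1_pm_022_a : ∃ t, chk3 f_pm_022_a t 8 3 1 = true :=
  ⟨(b (l 1) (a (b (l 1) (l 6)) (a (b (b (l 1) (l 6)) (l 6)) (a (b (b (l 1) (l 6)) (l 6)) (b (b (b (l 1) (a (b (l 1) (l 6)) (b (l 495565153543) (l 557842186551)))) (a (l 6) (a (l 6) (b (l 16661552) (l 16670992))))) (b (l 16688872) (l 16708752))))))), by decide +kernel⟩

def k2_pm_022_a : ∃ t, chk3 f_pm_022_a t 9 3 1 = true :=
  ⟨(b (a (b (l 1) (a (b (l 1) (a (l 1) (b (a (l 1) (l 454762893303)) (a (l 493417621095) (b (l 513281834711) (l 16625464)))))) (b (a (b (l 1) (a (l 1) (l 474090219447))) (b (a (l 1) (l 504154965111)) (a (l 522408595831) (l 576632542551)))) (b (a (a (l 498786302295) (l 550325896679)) (l 16604904)) (a (a (l 16620344) (l 16617136)) (l 16612144)))))) (b (a (b (a (l 1) (b (l 1) (l 490733136375))) (a (b (l 1) (a (l 476237658887) (l 526166648231))) (b (a (l 513818599655) (l 566431933127)) (a (l 584148692583) (l 16571512))))) (b (a (b (l 527777208487) (l 568579408135)) (b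 (l 607234093591) (l 16550536))) (a (b (l 16561488) (l 16566976)) (b (l 16555464) (l 16560504))))) (a (b (a (b (a (l 550862728791) (l 16583600)) (l 16591680)) (b (l 16579048) (l 16585184))) (a (b (l 16598344) (l 16605064)) (l 16594496))) (b (a (l 16575488) (l 16568272)) (l 16588264))))) (a (b (a (b (a (b (a (b (l 1) (l 501470718359)) (b (l 508986896231) (l 16640144))) (b (a (l 16647728) (l 16644480)) (a (l 16652192) (l 16648816)))) (b (b (a (l 16632728) (l 16629528)) (a (l 16636928) (l 16633608))) (l 16641512))) (b (a (l 16657160) (l 16650576)) (l 16664064))) (b (b (a (l 16647488) (l 16619360)) (l 16631760)) (l 16648112))) (b (a (b (l 16674464) (l 16684736)) (l 16669352)) (a (l 16700032) (l 16690384)))) (b (b (a (l 16617464) (l 16610792)) (a (l 16639504) (l 16633168))) (b (l 16657992) (l 16680456))))), by decide +kernel⟩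

def k3_pm_022_a : ∃ t, chk3 f_pm_022_a t 5 3 1 = true :=
  ⟨(a (b (a (a (b (b (a (l 16542336) (l 16536032)) (l 16547856)) (l 16572864)) (b (a (l 16533088) (l 16673200)) (a (l 16571032) (l 16569576)))) (b (l 16524416) (l 16569128))) (a (a (b (b (l 16606480) (l 16629224)) (l 16664616)) (b (a (l 16616784) (a (l 16616472) (l 16615952))) (a (l 16664464) (a (l 16664904) (l 16664832))))) (b (l 16615736) (b (l 16651784) (l 16677544))))) (b (a (l 16549008) (l 16551944)) (b (l 16654504) (l 16659120)))), by decide +kernel⟩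

def k4_pm_022_a : ∃ t, chk3 f_pm_022_a t 3 1 1 = true :=
  ⟨(a (b (a (b (l 16444272) (l 16485952)) (l 16480376)) (b (a (l 16655392) (l 16549912)) (a (b (l 16605920) (l 16654696)) (b (l 16615072) (l 16691320))))) (a (b (l 16503696) (b (l 16596992) (l 16753008))) (b (a (l 16554968) (l 16617416)) (b (l 16710248) (l 16902200))))), by decide +kernel⟩

theorem s5_pm_022_a : ∃ t, chk3 f_pm_022_a t 4 3 1 = true := ex3_a k1_pm_022_a k2_pm_022_a

theorem s6_pm_022_a : ∃ t, chk3 f_pm_022_a t 2 3 1 = true := ex3_a s5_pm_022_a k3_pm_022_a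

theorem s7_pm_022_a : ∃ t, chk3 f_pm_022_a t 2 1 1 = true := ex3_b k0_pm_022_a s6_pm_022_a

theorem s8_pm_022_a : ∃ t, chk3 f_pm_022_a t 1 1 1 = true := ex3_a s7_pm_022_a k4_pm_022_a

theorem c_pm_022_a : CertB 0 536870912 0 536870912 536870912 50465866 3 eng mog cd3q0 cd3q2a pd2 true true false .pp 0 2 2
    ndB3q0 ndB3q2a pcB2 cut_pm_022_a Ext.none :=
  certB2 (fam := true) (s1 := true) (s2 := false) (a := 0) (b := 2) (c := 2) (cn := .pp) (n1 := ndB3q0) (n2 := ndB3q2a) (pc := pcB2) (cut := cut_pm_022_a) (xt := Ext.none) (P1 := 0) (W1 := 536870912) (P2 := 0) (W2 := 536870912) (P3 := 536870912) (W3 := 50465866) (N0 := 3) (En := eng) (mo := mog) (C1 := cd3q0) (C2 := cd3q2a) (C3 := pd2)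
    rfl (fun _ => rfl) s8_pm_022_a

noncomputable def cut_pm_022_b : Cut := Cut.of [[⟨0, 0, 0, 67108864⟩, ⟨1, 1, 0, 67108864⟩, ⟨2, 1, 0, 67108864⟩]]

noncomputable def f_pm_022_b : ℕ → ℕ → ℕ → ℕ → Bool := onCell 0 536870912 1073741824 536870912 536870912 50465866
    (rowB 3 eng mog cd3q0 cd3q2b pd2 1 true true false .pp 0 2 2 (qsf 0 536870912 1239849684 370763052 2) ndB3q0 ndB3q2b pcB2 cut_pm_022_b Ext.none)

def k0_pm_022_b : ∃ t, chk3 f_pm_022_b t 1 1 1 = true :=
  ⟨(a (b (b (l 1) (a (b (a (b (b (l 1) (a (a (b (l 1) (a (b (l 1) (a (a (b (l 1) (c (l 16498384) (b (b (b (l 1) (b (l 1) (l 16486936))) (l 16486448)) (l 16485288)))) (l 1)) (l 1))) (l 1))) (l 1)) (l 1))) (a (a (a (b (b (b (l 16491120) (l 16485656)) (l 16478568)) (a (l 16463408) (l 16467056))) (b (l 16491096) (l 16472504))) (b (l 16502296) (l 16483168))) (l 67679157927))) (l 1)) (a (a (a (a (b (a (b (l 16447536) (l 16433672)) (l 16443656)) (a (b (l 16421824) (l 16411968)) (l 16419496)))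 (b (l 16448624) (l 16423832))) (l 16465432)) (a (l 16456392) (l 16467304))) (b (l 273837557271) (l 16472904)))) (l 1))) (b (a (a (a (b (a (b (a (b (l 16405360) (l 16399720)) (l 16407064)) (b (l 16399104) (l 16398880))) (l 16409184)) (b (b (l 16423896) (l 16403248)) (l 16384872))) (b (l 16422752) (l 16411592))) (b (l 16591864) (l 16428072))) (b (a (l 322692744023) (l 1)) (a (l 16430248) (l 16523784)))) (b (a (a (a (a (b (a (l 16405496) (l 16409480)) (l 16396504)) (l 16409512)) (l 16418600)) (l 16426792)) (l 16420448)) (a (b (a (a (l 16390256) (l 16415672)) (l 16437192)) (a (a (b (l 16382800) (l 16411344)) (l 16417560)) (l 16449376))) (b (l 16430528) (l 16450488)))))) (a (b (l 1) (b (l 1) (b (l 506839526039) (a (l 16431208) (l 16654752))))) (l 1))), by decide +kernel⟩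

theorem c_pm_022_b : CertB 0 536870912 1239849684 370763052 536870912 50465866 3 eng mog cd3q0 cd3q2b pd2 true true false .pp 0 2 2
    ndB3q0 ndB3q2b pcB2 cut_pm_022_b Ext.none :=
  certB1 (fam := true) (s1 := true) (s2 := false) (a := 0) (b := 2) (c := 2) (cn := .pp) (n1 := ndB3q0) (n2 := ndB3q2b) (pc := pcB2) (cut := cut_pm_022_b) (xt := Ext.none) (P1 := 0) (W1 := 536870912) (P2 := 1239849684) (W2 := 370763052) (P3 := 536870912) (W3 := 50465866) (N0 := 3) (En := eng) (mo := mog) (C1 := cd3q0) (C2 := cd3q2b) (C3 := pd2)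
    rfl (fun _ => rfl) k0_pm_022_b

noncomputable def f_pm_023_a : ℕ → ℕ → ℕ → ℕ → Bool := onCell 1610612736 536870912 0 536870912 536870912 50465866
    (rowB 3 eng mog cd3q0 cd3q2a pd3 2 true true false .up 0 2 3 (qsf 0 536870912 0 536870912 3) ndB3q0 ndB3q2a pcB3 Cut.none Ext.none)

def k0_pm_023_a : ∃ t, chk3 f_pm_023_a t 1 1 1 = true :=
  ⟨(a (a (a (b (l 16716824) (l 17075760)) (b (l 16879792) (l 17134800))) (a (b (l 17010472) (l 17103080)) (l 240082954695))) (l 2)), by decide +kernel⟩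

theorem c_pm_023_a : CertB 0 536870912 0 536870912 536870912 50465866 3 eng mog cd3q0 cd3q2a pd3 true true false .up 0 2 3
    ndB3q0 ndB3q2a pcB3 Cut.none Ext.none :=
  certB2 (fam := true) (s1 := true) (s2 := false) (a := 0) (b := 2) (c := 3) (cn := .up) (n1 := ndB3q0) (n2 := ndB3q2a) (pc := pcB3) (cut := Cut.none) (xt := Ext.none) (P1 := 0) (W1 := 536870912) (P2 := 0) (W2 := 536870912) (P3 := 536870912) (W3 := 50465866) (N0 := 3) (En := eng) (mo := mog) (C1 := cd3q0) (C2 := cd3q2a) (C3 := pd3)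
    rfl (fun _ => rfl) k0_pm_023_a

noncomputable def f_pm_023_b : ℕ → ℕ → ℕ → ℕ → Bool := onCell 1610612736 536870912 1239849684 370763052 536870912 50465866
    (rowB 3 eng mog cd3q0 cd3q2b pd3 2 true true false .up 0 2 3 (qsf 0 536870912 1239849684 370763052 3) ndB3q0 ndB3q2b pcB3 Cut.none Ext.none)

def k0_pm_023_b : ∃ t, chk3 f_pm_023_b t 1 1 1 = true :=
  ⟨(a (a (a (b (b (l 16515576) (l 16472000)) (b (l 16643568) (a (b (l 16433352) (a (l 16375088) (l 16406240))) (l 16453928)))) (b (b (l 16712264) (l 16529584)) (b (l 16525840) (l 16514432)))) (b (a (l 16730480) (l 16796448)) (a (b (l 16626224) (l 16611032)) (b (l 16709328) (l 16694040))))) (l 4)), by decide +kernel⟩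

theorem c_pm_023_b : CertB 0 536870912 1239849684 370763052 536870912 50465866 3 eng mog cd3q0 cd3q2b pd3 true true false .up 0 2 3
    ndB3q0 ndB3q2b pcB3 Cut.none Ext.none :=
  certB2 (fam := true) (s1 := true) (s2 := false) (a := 0) (b := 2) (c := 3) (cn := .up) (n1 := ndB3q0) (n2 := ndB3q2b) (pc := pcB3) (cut := Cut.none) (xt := Ext.none) (P1 := 0) (W1 := 536870912) (P2 := 1239849684) (W2 := 370763052) (P3 := 536870912) (W3 := 50465866) (N0 := 3) (En := eng) (mo := mog) (C1 := cd3q0) (C2 := cd3q2b) (C3 := pd3)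
    rfl (fun _ => rfl) k0_pm_023_b

noncomputable def f_pm_033 : ℕ → ℕ → ℕ → ℕ → Bool := onCell 0 536870912 1610612736 536870912 536870912 50465866
    (rowB 3 eng mog cd3q0 cd3q3 pd3 1 true true false .pnn 0 3 3 (qsf 0 536870912 1610612736 536870912 3) ndB3q0 ndB3q3 pcB3 Cut.none Ext.none)

def k0_pm_033 : ∃ t, chk3 f_pm_033 t 1 1 1 = true :=
  ⟨(a (b (b (b (a (a (b (a (l 16421744) (l 16439200)) (l 16491208)) (l 16482672)) (l 1)) (a (a (b (l 16544304) (l 16571216)) (l 16543112)) (l 16542416))) (b (a (a (l 16623464) (l 16622704)) (l 16628640)) (a (a (l 16690832) (l 16695152)) (l 16702840)))) (b (b (a (l 16968168) (l 4)) (l 4)) (l 4))) (b (b (l 1) (b (l 1) (a (l 16714888) (l 1)))) (l 4))), by decide +kernel⟩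

theorem c_pm_033 : CertB 0 536870912 1610612736 536870912 536870912 50465866 3 eng mog cd3q0 cd3q3 pd3 true true false .pnn 0 3 3
    ndB3q0 ndB3q3 pcB3 Cut.none Ext.none :=
  certB1 (fam := true) (s1 := true) (s2 := false) (a := 0) (b := 3) (c := 3) (cn := .pnn) (n1 := ndB3q0) (n2 := ndB3q3) (pc := pcB3) (cut := Cut.none) (xt := Ext.none) (P1 := 0) (W1 := 536870912) (P2 := 1610612736) (W2 := 536870912) (P3 := 536870912) (W3 := 50465866) (N0 := 3) (En := eng) (mo := mog) (C1 := cd3q0) (C2 := cd3q3) (C3 := pd3)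
    rfl (fun _ => rfl) k0_pm_033

noncomputable def f_pm_101 : ℕ → ℕ → ℕ → ℕ → Bool := onCell 536870912 536870912 0 536870912 536870912 50465866
    (rowB 3 eng mog cd3q1 cd3q0 pd1 2 true true false .npn 1 0 1 (qsf 536870912 536870912 0 536870912 1) ndB3q1 ndB3q0 pcB1 Cut.none Ext.none)

def k0_pm_101 : ∃ t, chk3 f_pm_101 t 1 1 1 = true :=
  ⟨(a (l 3) (l 3)), by decide +kernel⟩

theorem c_pm_101 : CertB 536870912 536870912 0 536870912 536870912 50465866 3 eng mog cd3q1 cd3q0 pd1 true true false .npn 1 0 1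
    ndB3q1 ndB3q0 pcB1 Cut.none Ext.none :=
  certB2 (fam := true) (s1 := true) (s2 := false) (a := 1) (b := 0) (c := 1) (cn := .npn) (n1 := ndB3q1) (n2 := ndB3q0) (pc := pcB1) (cut := Cut.none) (xt := Ext.none) (P1 := 536870912) (W1 := 536870912) (P2 := 0) (W2 := 536870912) (P3 := 536870912) (W3 := 50465866) (N0 := 3) (En := eng) (mo := mog) (C1 := cd3q1) (C2 := cd3q0) (C3 := pd1)
    rfl (fun _ => rfl) k0_pm_101

noncomputable def f_pm_102 : ℕ → ℕ → ℕ → ℕ → Bool := onCell 536870912 536870912 1073741824 536870912 536870912 50465866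
    (rowB 3 eng mog cd3q1 cd3q0 pd2 1 true true false .npp 1 0 2 (qsf 536870912 536870912 0 536870912 2) ndB3q1 ndB3q0 pcB2 Cut.none Ext.none)

def k0_pm_102 : ∃ t, chk3 f_pm_102 t 1 1 1 = true :=
  ⟨(b (b (a (l 3) (b (l 3) (a (l 3) (l 3)))) (a (b (b (b (l 3) (b (l 3) (a (l 2) (b (l 16701824) (b (l 16702864) (l 16703392)))))) (a (l 2) (l 16751032))) (a (l 2) (l 16923872))) (b (b (b (a (l 3) (a (l 3) (a (l 3) (l 16491520)))) (b (a (a (l 3) (l 16570304)) (a (l 16522520) (l 16482888))) (a (b (a (l 16633480) (l 16568672)) (a (b (l 16634824) (l 16634792)) (b (l 16569024) (l 16568456)))) (b (a (l 16517816) (l 16475976)) (a (b (l 16516320) (l 16514584)) (b (l 16473232) (l 16470560))))))) (a (a (l 16638352) (l 16568424)) (a (l 16502264) (l 16451936)))) (a (a (l 16660536) (l 16583096)) (a (l 16490416) (l 16452384)))))) (a (a (l 2) (b (l 16957696) (l 2))) (b (a (b (l 16681424) (l 16773912)) (a (l 16561944) (b (l 16398256) (l 16457920)))) (a (l 16981560)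 (l 16752792))))), by decide +kernel⟩

theorem c_pm_102 : CertB 536870912 536870912 0 536870912 536870912 50465866 3 eng mog cd3q1 cd3q0 pd2 true true false .npp 1 0 2
    ndB3q1 ndB3q0 pcB2 Cut.none Ext.none :=
  certB1 (fam := true) (s1 := true) (s2 := false) (a := 1) (b := 0) (c := 2) (cn := .npp) (n1 := ndB3q1) (n2 := ndB3q0) (pc := pcB2) (cut := Cut.none) (xt := Ext.none) (P1 := 536870912) (W1 := 536870912) (P2 := 0) (W2 := 536870912) (P3 := 536870912) (W3 := 50465866) (N0 := 3) (En := eng) (mo := mog) (C1 := cd3q1) (C2 := cd3q0) (C3 := pd2)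
    rfl (fun _ => rfl) k0_pm_102

noncomputable def f_pm_112 : ℕ → ℕ → ℕ → ℕ → Bool := onCell 536870912 536870912 1073741824 536870912 536870912 50465866
    (rowB 3 eng mog cd3q1 cd3q1 pd2 1 true true false .dn 1 1 2 (qsf 536870912 536870912 536870912 536870912 2) ndB3q1 ndB3q1 pcB2 Cut.none Ext.none)

def k0_pm_112 : ∃ t, chk3 f_pm_112 t 1 1 1 = true :=
  ⟨(b (b (a (l 3) (l 1)) (b (a (b (b (l 3) (b (l 3) (a (b (l 3) (b (l 16749312) (l 16749440))) (b (l 16715840) (b (l 16716848) (l 16696384)))))) (a (l 16751224) (l 16723360))) (l 1)) (a (a (a (l 16736680) (l 16776600)) (l 16987864)) (a (l 16609568) (l 1))))) (a (a (b (a (l 16763920) (l 16864600)) (l 16963880)) (b (a (l 16906040) (l 16862888)) (l 17295512))) (a (b (l 284038516183) (l 17415440)) (b (l 390338636087) (l 16709320))))), by decide +kernel⟩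

theorem c_pm_112 : CertB 536870912 536870912 536870912 536870912 536870912 50465866 3 eng mog cd3q1 cd3q1 pd2 true true false .dn 1 1 2
    ndB3q1 ndB3q1 pcB2 Cut.none Ext.none :=
  certB1 (fam := true) (s1 := true) (s2 := false) (a := 1) (b := 1) (c := 2) (cn := .dn) (n1 := ndB3q1) (n2 := ndB3q1) (pc := pcB2) (cut := Cut.none) (xt := Ext.none) (P1 := 536870912) (W1 := 536870912) (P2 := 536870912) (W2 := 536870912) (P3 := 536870912) (W3 := 50465866) (N0 := 3) (En := eng) (mo := mog) (C1 := cd3q1) (C2 := cd3q1) (C3 := pd2)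
    rfl (fun _ => rfl) k0_pm_112

noncomputable def f_pm_113 : ℕ → ℕ → ℕ → ℕ → Bool := onCell 536870912 536870912 1610612736 536870912 536870912 50465866
    (rowB 3 eng mog cd3q1 cd3q1 pd3 1 true true false .nn 1 1 3 (qsf 536870912 536870912 536870912 536870912 3) ndB3q1 ndB3q1 pcB3 Cut.none Ext.none)

def k0_pm_113 : ∃ t, chk3 f_pm_113 t 1 1 1 = true :=
  ⟨(a (b (a (b (l 17046120) (l 16993664)) (l 17462224)) (b (a (l 2) (l 17164456)) (l 2))) (b (b (a (l 17666296) (l 17289864)) (l 17451176)) (b (l 17212256) (b (l 16991640) (b (l 16889688) (b (l 16840400) (b (l 16816496) (l 16801800)))))))), by decide +kernel⟩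

theorem c_pm_113 : CertB 536870912 536870912 536870912 536870912 536870912 50465866 3 eng mog cd3q1 cd3q1 pd3 true true false .nn 1 1 3
    ndB3q1 ndB3q1 pcB3 Cut.none Ext.none :=
  certB1 (fam := true) (s1 := true) (s2 := false) (a := 1) (b := 1) (c := 3) (cn := .nn) (n1 := ndB3q1) (n2 := ndB3q1) (pc := pcB3) (cut := Cut.none) (xt := Ext.none) (P1 := 536870912) (W1 := 536870912) (P2 := 536870912) (W2 := 536870912) (P3 := 536870912) (W3 := 50465866) (N0 := 3) (En := eng) (mo := mog) (C1 := cd3q1) (C2 := cd3q1) (C3 := pd3)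
    rfl (fun _ => rfl) k0_pm_113

noncomputable def f_pm_123_a : ℕ → ℕ → ℕ → ℕ → Bool := onCell 1610612736 536870912 0 536870912 536870912 50465866
    (rowB 3 eng mog cd3q1 cd3q2a pd3 2 true true false .npn 1 2 3 (qsf 536870912 536870912 0 536870912 3) ndB3q1 ndB3q2a pcB3 Cut.none Ext.none)

def k0_pm_123_a : ∃ t, chk3 f_pm_123_a t 1 1 1 = true :=
  ⟨(a (a (a (b (l 1) (b (l 1) (l 17008768))) (b (l 16813872) (l 17391288))) (b (a (l 16980056) (l 16863328)) (a (b (l 17037048) (l 16950504)) (b (l 16861800) (l 16866272))))) (a (b (l 4) (a (b (l 4) (l 16823160)) (l 4))) (l 4))), by decide +kernel⟩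

theorem c_pm_123_a : CertB 536870912 536870912 0 536870912 536870912 50465866 3 eng mog cd3q1 cd3q2a pd3 true true false .npn 1 2 3
    ndB3q1 ndB3q2a pcB3 Cut.none Ext.none :=
  certB2 (fam := true) (s1 := true) (s2 := false) (a := 1) (b := 2) (c := 3) (cn := .npn) (n1 := ndB3q1) (n2 := ndB3q2a) (pc := pcB3) (cut := Cut.none) (xt := Ext.none) (P1 := 536870912) (W1 := 536870912) (P2 := 0) (W2 := 536870912) (P3 := 536870912) (W3 := 50465866) (N0 := 3) (En := eng) (mo := mog) (C1 := cd3q1) (C2 := cd3q2a) (C3 := pd3)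
    rfl (fun _ => rfl) k0_pm_123_a

noncomputable def f_pm_123_b : ℕ → ℕ → ℕ → ℕ → Bool := onCell 1610612736 536870912 1239849684 370763052 536870912 50465866
    (rowB 3 eng mog cd3q1 cd3q2b pd3 2 true true false .npn 1 2 3 (qsf 536870912 536870912 1239849684 370763052 3) ndB3q1 ndB3q2b pcB3 Cut.none Ext.none)

def k0_pm_123_b : ∃ t, chk3 f_pm_123_b t 1 1 1 = true :=
  ⟨(a (a (l 1) (b (a (l 16693480) (l 16754792)) (l 1))) (l 4)), by decide +kernel⟩

theorem c_pm_123_b : CertB 536870912 536870912 1239849684 370763052 536870912 50465866 3 eng mog cd3q1 cd3q2b pd3 true true false .npn 1 2 3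
    ndB3q1 ndB3q2b pcB3 Cut.none Ext.none :=
  certB2 (fam := true) (s1 := true) (s2 := false) (a := 1) (b := 2) (c := 3) (cn := .npn) (n1 := ndB3q1) (n2 := ndB3q2b) (pc := pcB3) (cut := Cut.none) (xt := Ext.none) (P1 := 536870912) (W1 := 536870912) (P2 := 1239849684) (W2 := 370763052) (P3 := 536870912) (W3 := 50465866) (N0 := 3) (En := eng) (mo := mog) (C1 := cd3q1) (C2 := cd3q2b) (C3 := pd3)
    rfl (fun _ => rfl) k0_pm_123_b

noncomputable def f_pm_133 : ℕ → ℕ → ℕ → ℕ → Bool := onCell 536870912 536870912 1610612736 536870912 536870912 50465866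
    (rowB 3 eng mog cd3q1 cd3q3 pd3 0 true true false .dn 1 3 3 (qsf 536870912 536870912 1610612736 536870912 3) ndB3q1 ndB3q3 pcB3 Cut.none Ext.none)

def k0_pm_133 : ∃ t, chk3 f_pm_133 t 1 1 1 = true :=
  ⟨(l 4), by decide +kernel⟩

theorem c_pm_133 : CertB 536870912 536870912 1610612736 536870912 536870912 50465866 3 eng mog cd3q1 cd3q3 pd3 true true false .dn 1 3 3
    ndB3q1 ndB3q3 pcB3 Cut.none Ext.none :=
  certB0 (fam := true) (s1 := true) (s2 := false) (a := 1) (b := 3) (c := 3) (cn := .dn) (n1 := ndB3q1) (n2 := ndB3q3) (pc := pcB3) (cut := Cut.none) (xt := Ext.none) (P1 := 536870912) (W1 := 536870912) (P2 := 1610612736) (W2 := 536870912) (P3 := 536870912) (W3 := 50465866) (N0 := 3) (En := eng) (mo := mog) (C1 := cd3q1) (C2 := cd3q3) (C3 := pd3)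
    rfl k0_pm_133

noncomputable def cut_pm_202_a : Cut := Cut.of [[⟨0, 1, 0, 67108864⟩, ⟨1, 0, 0, 67108864⟩, ⟨2, 1, 0, 67108864⟩]]

noncomputable def f_pm_202_a : ℕ → ℕ → ℕ → ℕ → Bool := onCell 0 536870912 1073741824 536870912 536870912 50465866
    (rowB 3 eng mog cd3q2a cd3q0 pd2 1 true true false .pp 2 0 2 (qsf 0 536870912 0 536870912 2) ndB3q2a ndB3q0 pcB2 cut_pm_202_a Ext.none)

def k0_pm_202_a : ∃ t, chk3 f_pm_202_a t 2 1 1 = true :=
  ⟨(b (b (b (l 1) (b (l 1) (a (l 1) (a (l 1) (b (l 1) (a (l 1) (b (l 1) (a (l 522945341671) (l 572337474391))))))))) (b (b (a (b (l 1) (b (a (l 1) (b (l 1) (a (l 1) (l 578242972311)))) (b (a (l 1) (a (l 602939019591) (l 600791543367))) (a (b (a (l 1544610590375) (l 449393932295)) (a (b (b (b (l 16492240) (b (l 16492272) (a (l 16492464) (l 16492240)))) (l 16492200)) (l 16491792)) (c (l 16497560) (b (b (b (l 16486032) (l 16486184)) (l 16486024)) (l 16485712))))) (b (a (l 16494160) (l 16496680)) (a (l 16493576)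 (l 16496008))))))) (b (a (b (l 1) (a (l 521871545079) (b (l 544420136439) (l 576095504535)))) (a (b (b (l 526166548087) (l 559989410807)) (b (l 606697168023) (l 16519784))) (b (a (l 602402225943) (l 16535792)) (l 16528256)))) (a (b (a (b (l 543346375175) (l 16503920)) (b (l 16511184) (l 16508752))) (b (l 16504168) (b (l 16502536) (l 16501696)))) (b (a (l 16515824) (l 16522312)) (a (b (l 16511672) (l 16509528)) (b (l 16517616) (l 16515088))))))) (a (b (a (b (a (l 16489608) (l 16489592)) (l 16487088)) (b (l 16491968) (l 16488608))) (a (l 16483512) (l 16483856))) (a (b (b (l 16498192) (l 16493856)) (l 16487544)) (b (l 16504488) (l 16493088))))) (a (b (a (l 16475920) (l 16473704)) (l 16461768)) (b (l 16475112) (l 16474320))))) (b (b (a (l 16444272) (l 16485952)) (l 16480376)) (b (l 16503696) (b (l 16554968) (l 16617416))))), by decide +kernel⟩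

def k1_pm_202_a : ∃ t, chk3 f_pm_202_a t 3 8 1 = true :=
  ⟨(a (l 1) (b (a (l 1) (l 6)) (b (a (a (l 1) (l 6)) (l 6)) (b (a (a (l 1) (l 6)) (l 6)) (a (a (a (l 1) (b (a (l 1) (l 6)) (a (l 496102024455) (l 557305315639)))) (a (b (l 6) (a (l 16639112) (l 16664688))) (l 16694416))) (a (l 16688872) (l 16708752))))))), by decide +kernel⟩

def k2_pm_202_a : ∃ t, chk3 f_pm_202_a t 3 9 1 = true :=
  ⟨(a (b (a (l 1) (b (a (l 1) (b (l 1) (a (b (l 1) (l 455836635127)) (b (a (l 444025492999) (l 518113687175)) (a (l 513281834711) (l 16625464)))))) (a (b (a (l 1) (b (l 1) (l 475700832183))) (a (b (l 1) (l 505228706935)) (b (l 522408595831) (l 576095671639)))) (a (b (b (l 499323173207) (l 549789025591)) (l 16604904)) (b (b (l 16620344) (l 16617136)) (l 16612144)))))) (a (b (a (b (l 1) (a (l 1) (l 492343749111))) (b (a (l 1) (b (l 477311400711) (l 526166648231))) (a (b (l 514892341479) (l 565895062135)) (b (l 583611821671) (l 16571512))))) (a (b (a (l 529387821223)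 (b (l 551936412535) (l 16554776))) (a (l 606697222679) (l 16550536))) (b (a (l 16561488) (l 16566976)) (a (l 16555464) (l 16560504))))) (b (a (b (a (b (l 550325857879) (l 16583600)) (l 16591680)) (a (l 16579048) (l 16585184))) (b (a (l 16598344) (l 16605064)) (l 16594496))) (a (b (l 16575488) (l 16568272)) (l 16588264))))) (b (a (b (a (b (a (b (a (l 1) (l 502007589271)) (a (l 508986896231) (l 16640144))) (a (b (l 16647728) (l 16644480)) (b (l 16652192) (l 16648816)))) (a (a (b (l 16632728) (l 16629528)) (b (l 16636928) (l 16633608))) (l 16641512))) (a (b (l 16657160) (l 16650576)) (l 16664064))) (a (a (b (l 16637000) (l 16619360)) (l 16631760)) (l 16648112))) (a (b (a (l 16674464) (l 16684736)) (l 16669352)) (b (l 16700032) (l 16690384)))) (a (b (a (l 16617464) (l 16639504)) (a (l 16610792) (l 16633168))) (a (l 16657992) (l 16680456))))), by decide +kernel⟩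

def k3_pm_202_a : ∃ t, chk3 f_pm_202_a t 3 5 1 = true :=
  ⟨(b (a (b (b (a (a (b (l 16542336) (l 16536032)) (l 16547856)) (l 16572864)) (a (b (l 16533088) (l 16694176)) (b (l 16571032) (l 16569576)))) (a (l 16524416) (l 16569128))) (b (b (a (a (l 16606480) (l 16629224)) (l 16664616)) (a (b (l 16616784) (b (l 16616472) (l 16615952))) (b (l 16664464) (b (l 16664904) (l 16664832))))) (a (l 16615736) (l 16790016)))) (a (b (l 16549008) (l 16551944)) (a (l 16612560) (l 16659112)))), by decide +kernel⟩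

def k4_pm_202_a : ∃ t, chk3 f_pm_202_a t 3 3 1 = true :=
  ⟨(b (a (b (l 16550536) (l 16549912)) (b (a (l 16605920) (l 16654688)) (a (l 16615072) (l 16691320)))) (b (a (l 16596992) (l 16752992)) (a (l 16710248) (l 16902192)))), by decide +kernel⟩

theorem s5_pm_202_a : ∃ t, chk3 f_pm_202_a t 3 4 1 = true := ex3_b k1_pm_202_a k2_pm_202_a

theorem s6_pm_202_a : ∃ t, chk3 f_pm_202_a t 3 2 1 = true := ex3_b s5_pm_202_a k3_pm_202_a

theorem s7_pm_202_a : ∃ t, chk3 f_pm_202_a t 3 1 1 = true := ex3_b s6_pm_202_a k4_pm_202_a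

theorem s8_pm_202_a : ∃ t, chk3 f_pm_202_a t 1 1 1 = true := ex3_a k0_pm_202_a s7_pm_202_a

theorem c_pm_202_a : CertB 0 536870912 0 536870912 536870912 50465866 3 eng mog cd3q2a cd3q0 pd2 true true false .pp 2 0 2
    ndB3q2a ndB3q0 pcB2 cut_pm_202_a Ext.none :=
  certB1 (fam := true) (s1 := true) (s2 := false) (a := 2) (b := 0) (c := 2) (cn := .pp) (n1 := ndB3q2a) (n2 := ndB3q0) (pc := pcB2) (cut := cut_pm_202_a) (xt := Ext.none) (P1 := 0) (W1 := 536870912) (P2 := 0) (W2 := 536870912) (P3 := 536870912) (W3 := 50465866) (N0 := 3) (En := eng) (mo := mog) (C1 := cd3q2a) (C2 := cd3q0) (C3 := pd2)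
    rfl (fun _ => rfl) s8_pm_202_a

noncomputable def cut_pm_202_b : Cut := Cut.of [[⟨0, 1, 0, 67108864⟩, ⟨1, 0, 0, 67108864⟩, ⟨2, 1, 0, 67108864⟩]]

noncomputable def f_pm_202_b : ℕ → ℕ → ℕ → ℕ → Bool := onCell 1073741824 536870912 0 536870912 536870912 50465866
    (rowB 3 eng mog cd3q2b cd3q0 pd2 2 true true false .pp 2 0 2 (qsf 1239849684 370763052 0 536870912 2) ndB3q2b ndB3q0 pcB2 cut_pm_202_b Ext.none)

def k0_pm_202_b : ∃ t, chk3 f_pm_202_b t 1 1 1 = true :=
  ⟨(a (b (a (l 1) (b (a (b (a (a (l 1) (b (b (a (l 1) (b (a (l 1) (b (a (l 1) (c (l 16499208) (a (a (a (l 1) (a (l 1) (l 16488120))) (l 16487632)) (l 16486464)))) (l 1))) (l 1))) (l 1)) (l 1))) (b (b (b (a (a (a (l 16491120) (l 16485656)) (l 16478568)) (b (l 16463408) (l 16467056))) (a (l 16491096) (l 16472504))) (a (l 16502296) (l 16483168))) (l 67679163175))) (l 1)) (b (b (b (b (b (a (a (c (l 16457280) (l 16437152)) (c (l 16445480) (l 16421408))) (a (c (l 16435800) (l 16407568))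 (c (l 16428224) (l 16395608)))) (a (l 16443656) (l 16419496))) (a (l 16448624) (l 16423832))) (a (l 16458472) (l 16432544))) (b (l 16456392) (l 16467304))) (a (l 273837557271) (l 16472904)))) (l 1))) (l 1)) (a (b (b (b (b (a (b (a (b (a (b (l 16404096) (l 16406624)) (l 16399720)) (l 16407064)) (a (l 16399104) (l 16398880))) (l 16409184)) (b (a (b (l 16399448) (l 16401576)) (l 16404504)) (l 16405352))) (a (l 16422752) (l 16411592))) (a (l 16633800) (l 16490992))) (a (b (l 323766485847) (l 1)) (b (l 16430248) (l 16523784)))) (l 1)) (b (a (b (b (b (b (a (b (l 16405496) (l 16409480)) (l 16396504)) (l 16409512)) (l 16418600)) (l 16426792)) (l 16420448)) (b (a (b (b (l 16390256) (l 16415672)) (l 16437192)) (b (b (a (l 16382800) (l 16411344)) (l 16417560)) (l 16449376))) (a (l 16430528) (l 16450488)))) (b (a (l 506839526039) (b (l 16431208) (l 16654752))) (l 1))))), by decide +kernel⟩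

theorem c_pm_202_b : CertB 1239849684 370763052 0 536870912 536870912 50465866 3 eng mog cd3q2b cd3q0 pd2 true true false .pp 2 0 2
    ndB3q2b ndB3q0 pcB2 cut_pm_202_b Ext.none :=
  certB2 (fam := true) (s1 := true) (s2 := false) (a := 2) (b := 0) (c := 2) (cn := .pp) (n1 := ndB3q2b) (n2 := ndB3q0) (pc := pcB2) (cut := cut_pm_202_b) (xt := Ext.none) (P1 := 1239849684) (W1 := 370763052) (P2 := 0) (W2 := 536870912) (P3 := 536870912) (W3 := 50465866) (N0 := 3) (En := eng) (mo := mog) (C1 := cd3q2b) (C2 := cd3q0) (C3 := pd2)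
    rfl (fun _ => rfl) k0_pm_202_b

noncomputable def f_pm_203_a : ℕ → ℕ → ℕ → ℕ → Bool := onCell 0 536870912 1610612736 536870912 536870912 50465866
    (rowB 3 eng mog cd3q2a cd3q0 pd3 1 true true false .up 2 0 3 (qsf 0 536870912 0 536870912 3) ndB3q2a ndB3q0 pcB3 Cut.none Ext.none)

def k0_pm_203_a : ∃ t, chk3 f_pm_203_a t 1 1 1 = true :=
  ⟨(b (b (b (a (l 16716824) (l 17054784)) (a (l 16879792) (l 17134800))) (b (a (l 17010472) (l 17103080)) (l 240082912759))) (l 2)), by decide +kernel⟩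

theorem c_pm_203_a : CertB 0 536870912 0 536870912 536870912 50465866 3 eng mog cd3q2a cd3q0 pd3 true true false .up 2 0 3
    ndB3q2a ndB3q0 pcB3 Cut.none Ext.none :=
  certB1 (fam := true) (s1 := true) (s2 := false) (a := 2) (b := 0) (c := 3) (cn := .up) (n1 := ndB3q2a) (n2 := ndB3q0) (pc := pcB3) (cut := Cut.none) (xt := Ext.none) (P1 := 0) (W1 := 536870912) (P2 := 0) (W2 := 536870912) (P3 := 536870912) (W3 := 50465866) (N0 := 3) (En := eng) (mo := mog) (C1 := cd3q2a) (C2 := cd3q0) (C3 := pd3)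
    rfl (fun _ => rfl) k0_pm_203_a

noncomputable def f_pm_203_b : ℕ → ℕ → ℕ → ℕ → Bool := onCell 1239849684 370763052 1610612736 536870912 536870912 50465866
    (rowB 3 eng mog cd3q2b cd3q0 pd3 1 true true false .up 2 0 3 (qsf 1239849684 370763052 0 536870912 3) ndB3q2b ndB3q0 pcB3 Cut.none Ext.none)

def k0_pm_203_b : ∃ t, chk3 f_pm_203_b t 1 1 1 = true :=
  ⟨(b (b (b (a (a (l 16515576) (l 16472000)) (a (l 16643568) (b (a (l 16433352) (b (l 16375088) (l 16406240))) (l 16453928)))) (a (a (l 16712264) (l 16529584)) (a (l 16525840) (l 16514432)))) (a (b (l 16730480) (l 16796448)) (b (a (l 16626224) (l 16611032)) (a (l 16709328) (l 16694040))))) (l 4)), by decide +kernel⟩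

theorem c_pm_203_b : CertB 1239849684 370763052 0 536870912 536870912 50465866 3 eng mog cd3q2b cd3q0 pd3 true true false .up 2 0 3
    ndB3q2b ndB3q0 pcB3 Cut.none Ext.none :=
  certB1 (fam := true) (s1 := true) (s2 := false) (a := 2) (b := 0) (c := 3) (cn := .up) (n1 := ndB3q2b) (n2 := ndB3q0) (pc := pcB3) (cut := Cut.none) (xt := Ext.none) (P1 := 1239849684) (W1 := 370763052) (P2 := 0) (W2 := 536870912) (P3 := 536870912) (W3 := 50465866) (N0 := 3) (En := eng) (mo := mog) (C1 := cd3q2b) (C2 := cd3q0) (C3 := pd3)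
    rfl (fun _ => rfl) k0_pm_203_b

noncomputable def f_pm_213_a : ℕ → ℕ → ℕ → ℕ → Bool := onCell 0 536870912 1610612736 536870912 536870912 50465866
    (rowB 3 eng mog cd3q2a cd3q1 pd3 1 true true false .pnn 2 1 3 (qsf 0 536870912 536870912 536870912 3) ndB3q2a ndB3q1 pcB3 Cut.none Ext.none)

def k0_pm_213_a : ∃ t, chk3 f_pm_213_a t 1 1 1 = true :=
  ⟨(a (b (b (b (l 1) (l 16813872)) (b (l 16980056) (l 16863328))) (l 4)) (b (b (b (a (l 1) (l 17008768)) (l 17391288)) (b (a (l 17037048) (l 16950496)) (a (l 16861800) (l 16866256)))) (b (b (a (l 4) (l 16823120)) (l 4)) (l 4)))), by decide +kernel⟩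

theorem c_pm_213_a : CertB 0 536870912 536870912 536870912 536870912 50465866 3 eng mog cd3q2a cd3q1 pd3 true true false .pnn 2 1 3
    ndB3q2a ndB3q1 pcB3 Cut.none Ext.none :=
  certB1 (fam := true) (s1 := true) (s2 := false) (a := 2) (b := 1) (c := 3) (cn := .pnn) (n1 := ndB3q2a) (n2 := ndB3q1) (pc := pcB3) (cut := Cut.none) (xt := Ext.none) (P1 := 0) (W1 := 536870912) (P2 := 536870912) (W2 := 536870912) (P3 := 536870912) (W3 := 50465866) (N0 := 3) (En := eng) (mo := mog) (C1 := cd3q2a) (C2 := cd3q1) (C3 := pd3)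
    rfl (fun _ => rfl) k0_pm_213_a

noncomputable def f_pm_213_b : ℕ → ℕ → ℕ → ℕ → Bool := onCell 1239849684 370763052 1610612736 536870912 536870912 50465866
    (rowB 3 eng mog cd3q2b cd3q1 pd3 1 true true false .pnn 2 1 3 (qsf 1239849684 370763052 536870912 536870912 3) ndB3q2b ndB3q1 pcB3 Cut.none Ext.none)

def k0_pm_213_b : ∃ t, chk3 f_pm_213_b t 1 1 1 = true :=
  ⟨(b (b (l 1) (a (b (l 16693480) (l 16754792)) (l 1))) (l 4)), by decide +kernel⟩

theorem c_pm_213_b : CertB 1239849684 370763052 536870912 536870912 536870912 50465866 3 eng mog cd3q2b cd3q1 pd3 true true false .pnn 2 1 3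
    ndB3q2b ndB3q1 pcB3 Cut.none Ext.none :=
  certB1 (fam := true) (s1 := true) (s2 := false) (a := 2) (b := 1) (c := 3) (cn := .pnn) (n1 := ndB3q2b) (n2 := ndB3q1) (pc := pcB3) (cut := Cut.none) (xt := Ext.none) (P1 := 1239849684) (W1 := 370763052) (P2 := 536870912) (W2 := 536870912) (P3 := 536870912) (W3 := 50465866) (N0 := 3) (En := eng) (mo := mog) (C1 := cd3q2b) (C2 := cd3q1) (C3 := pd3)
    rfl (fun _ => rfl) k0_pm_213_b

noncomputable def f_pm_303 : ℕ → ℕ → ℕ → ℕ → Bool := onCell 1610612736 536870912 0 536870912 536870912 50465866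
    (rowB 3 eng mog cd3q3 cd3q0 pd3 2 true true false .npn 3 0 3 (qsf 1610612736 536870912 0 536870912 3) ndB3q3 ndB3q0 pcB3 Cut.none Ext.none)

def k0_pm_303 : ∃ t, chk3 f_pm_303 t 1 1 1 = true :=
  ⟨(a (a (b (a (b (b (a (b (l 16421744) (l 16439200)) (l 16491208)) (l 16482672)) (l 1)) (b (b (a (l 16544304) (l 16571216)) (l 16543112)) (l 16542416))) (l 1)) (b (a (b (b (l 16623464) (l 16622704)) (l 16628640)) (b (b (l 16690832) (l 16695152)) (l 16702840))) (a (l 1) (b (l 16714888) (l 1))))) (a (b (a (b (l 16968168) (l 4)) (l 4)) (l 4)) (l 4))), by decide +kernel⟩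

theorem c_pm_303 : CertB 1610612736 536870912 0 536870912 536870912 50465866 3 eng mog cd3q3 cd3q0 pd3 true true false .npn 3 0 3
    ndB3q3 ndB3q0 pcB3 Cut.none Ext.none :=
  certB2 (fam := true) (s1 := true) (s2 := false) (a := 3) (b := 0) (c := 3) (cn := .npn) (n1 := ndB3q3) (n2 := ndB3q0) (pc := pcB3) (cut := Cut.none) (xt := Ext.none) (P1 := 1610612736) (W1 := 536870912) (P2 := 0) (W2 := 536870912) (P3 := 536870912) (W3 := 50465866) (N0 := 3) (En := eng) (mo := mog) (C1 := cd3q3) (C2 := cd3q0) (C3 := pd3)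
    rfl (fun _ => rfl) k0_pm_303

noncomputable def f_pm_313 : ℕ → ℕ → ℕ → ℕ → Bool := onCell 1610612736 536870912 536870912 536870912 536870912 50465866
    (rowB 3 eng mog cd3q3 cd3q1 pd3 0 true true false .dn 3 1 3 (qsf 1610612736 536870912 536870912 536870912 3) ndB3q3 ndB3q1 pcB3 Cut.none Ext.none)

def k0_pm_313 : ∃ t, chk3 f_pm_313 t 1 1 1 = true :=
  ⟨(l 4), by decide +kernel⟩

theorem c_pm_313 : CertB 1610612736 536870912 536870912 536870912 536870912 50465866 3 eng mog cd3q3 cd3q1 pd3 true true false .dn 3 1 3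
    ndB3q3 ndB3q1 pcB3 Cut.none Ext.none :=
  certB0 (fam := true) (s1 := true) (s2 := false) (a := 3) (b := 1) (c := 3) (cn := .dn) (n1 := ndB3q3) (n2 := ndB3q1) (pc := pcB3) (cut := Cut.none) (xt := Ext.none) (P1 := 1610612736) (W1 := 536870912) (P2 := 536870912) (W2 := 536870912) (P3 := 536870912) (W3 := 50465866) (N0 := 3) (En := eng) (mo := mog) (C1 := cd3q3) (C2 := cd3q1) (C3 := pd3)
    rfl k0_pm_313

noncomputable def f_mm_001 : ℕ → ℕ → ℕ → ℕ → Bool := onCell 0 536870912 0 536870912 536870912 50465866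
    (rowB 3 eng mog cd3q0 cd3q0 pd1 0 true false false .up 0 0 1 (qsf 0 536870912 0 536870912 1) ndB3q0 ndB3q0 pcB1 Cut.none Ext.none)

def k0_mm_001 : ∃ t, chk3 f_mm_001 t 1 1 1 = true :=
  ⟨(l 4), by decide +kernel⟩

theorem c_mm_001 : CertB 0 536870912 0 536870912 536870912 50465866 3 eng mog cd3q0 cd3q0 pd1 true false false .up 0 0 1
    ndB3q0 ndB3q0 pcB1 Cut.none Ext.none :=
  certB0 (fam := true) (s1 := false) (s2 := false) (a := 0) (b := 0) (c := 1) (cn := .up) (n1 := ndB3q0) (n2 := ndB3q0) (pc := pcB1) (cut := Cut.none) (xt := Ext.none) (P1 := 0) (W1 := 536870912) (P2 := 0) (W2 := 536870912) (P3 := 536870912) (W3 := 50465866) (N0 := 3) (En := eng) (mo := mog) (C1 := cd3q0) (C2 := cd3q0) (C3 := pd1)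
    rfl k0_mm_001

noncomputable def f_mm_011 : ℕ → ℕ → ℕ → ℕ → Bool := onCell 0 536870912 536870912 536870912 536870912 50465866
    (rowB 3 eng mog cd3q0 cd3q1 pd1 0 true false false .pnn 0 1 1 (qsf 0 536870912 536870912 536870912 1) ndB3q0 ndB3q1 pcB1 Cut.none Ext.none)

def k0_mm_011 : ∃ t, chk3 f_mm_011 t 1 1 1 = true :=
  ⟨(l 4), by decide +kernel⟩

theorem c_mm_011 : CertB 0 536870912 536870912 536870912 536870912 50465866 3 eng mog cd3q0 cd3q1 pd1 true false false .pnn 0 1 1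
    ndB3q0 ndB3q1 pcB1 Cut.none Ext.none :=
  certB0 (fam := true) (s1 := false) (s2 := false) (a := 0) (b := 1) (c := 1) (cn := .pnn) (n1 := ndB3q0) (n2 := ndB3q1) (pc := pcB1) (cut := Cut.none) (xt := Ext.none) (P1 := 0) (W1 := 536870912) (P2 := 536870912) (W2 := 536870912) (P3 := 536870912) (W3 := 50465866) (N0 := 3) (En := eng) (mo := mog) (C1 := cd3q0) (C2 := cd3q1) (C3 := pd1)
    rfl k0_mm_011

noncomputable def f_mm_012 : ℕ → ℕ → ℕ → ℕ → Bool := onCell 0 536870912 536870912 536870912 536870912 50465866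
    (rowB 3 eng mog cd3q0 cd3q1 pd2 0 true false false .pnp 0 1 2 (qsf 0 536870912 536870912 536870912 2) ndB3q0 ndB3q1 pcB2 Cut.none Ext.none)

def k0_mm_012 : ∃ t, chk3 f_mm_012 t 1 1 1 = true :=
  ⟨(l 4), by decide +kernel⟩

theorem c_mm_012 : CertB 0 536870912 536870912 536870912 536870912 50465866 3 eng mog cd3q0 cd3q1 pd2 true false false .pnp 0 1 2
    ndB3q0 ndB3q1 pcB2 Cut.none Ext.none :=
  certB0 (fam := true) (s1 := false) (s2 := false) (a := 0) (b := 1) (c := 2) (cn := .pnp) (n1 := ndB3q0) (n2 := ndB3q1) (pc := pcB2) (cut := Cut.none) (xt := Ext.none) (P1 := 0) (W1 := 536870912) (P2 := 536870912) (W2 := 536870912) (P3 := 536870912) (W3 := 50465866) (N0 := 3) (En := eng) (mo := mog) (C1 := cd3q0) (C2 := cd3q1) (C3 := pd2)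
    rfl k0_mm_012

noncomputable def f_mm_022_a : ℕ → ℕ → ℕ → ℕ → Bool := onCell 0 536870912 0 536870912 536870912 50465866
    (rowB 3 eng mog cd3q0 cd3q2a pd2 0 true false false .pp 0 2 2 (qsf 0 536870912 0 536870912 2) ndB3q0 ndB3q2a pcB2 Cut.none Ext.none)

def k0_mm_022_a : ∃ t, chk3 f_mm_022_a t 1 1 1 = true :=
  ⟨(l 5), by decide +kernel⟩

theorem c_mm_022_a : CertB 0 536870912 0 536870912 536870912 50465866 3 eng mog cd3q0 cd3q2a pd2 true false false .pp 0 2 2
    ndB3q0 ndB3q2a pcB2 Cut.none Ext.none :=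
  certB0 (fam := true) (s1 := false) (s2 := false) (a := 0) (b := 2) (c := 2) (cn := .pp) (n1 := ndB3q0) (n2 := ndB3q2a) (pc := pcB2) (cut := Cut.none) (xt := Ext.none) (P1 := 0) (W1 := 536870912) (P2 := 0) (W2 := 536870912) (P3 := 536870912) (W3 := 50465866) (N0 := 3) (En := eng) (mo := mog) (C1 := cd3q0) (C2 := cd3q2a) (C3 := pd2)
    rfl k0_mm_022_a

noncomputable def f_mm_022_b : ℕ → ℕ → ℕ → ℕ → Bool := onCell 0 536870912 1239849684 370763052 536870912 50465866
    (rowB 3 eng mog cd3q0 cd3q2b pd2 0 true false false .pp 0 2 2 (qsf 0 536870912 1239849684 370763052 2) ndB3q0 ndB3q2b pcB2 Cut.none Ext.none)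

def k0_mm_022_b : ∃ t, chk3 f_mm_022_b t 1 1 1 = true :=
  ⟨(l 5), by decide +kernel⟩

theorem c_mm_022_b : CertB 0 536870912 1239849684 370763052 536870912 50465866 3 eng mog cd3q0 cd3q2b pd2 true false false .pp 0 2 2
    ndB3q0 ndB3q2b pcB2 Cut.none Ext.none :=
  certB0 (fam := true) (s1 := false) (s2 := false) (a := 0) (b := 2) (c := 2) (cn := .pp) (n1 := ndB3q0) (n2 := ndB3q2b) (pc := pcB2) (cut := Cut.none) (xt := Ext.none) (P1 := 0) (W1 := 536870912) (P2 := 1239849684) (W2 := 370763052) (P3 := 536870912) (W3 := 50465866) (N0 := 3) (En := eng) (mo := mog) (C1 := cd3q0) (C2 := cd3q2b) (C3 := pd2)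
    rfl k0_mm_022_b

noncomputable def f_mm_023_a : ℕ → ℕ → ℕ → ℕ → Bool := onCell 0 536870912 0 536870912 536870912 50465866
    (rowB 3 eng mog cd3q0 cd3q2a pd3 0 true false false .up 0 2 3 (qsf 0 536870912 0 536870912 3) ndB3q0 ndB3q2a pcB3 Cut.none Ext.none)

def k0_mm_023_a : ∃ t, chk3 f_mm_023_a t 1 1 1 = true :=
  ⟨(l 5), by decide +kernel⟩

theorem c_mm_023_a : CertB 0 536870912 0 536870912 536870912 50465866 3 eng mog cd3q0 cd3q2a pd3 true false false .up 0 2 3
    ndB3q0 ndB3q2a pcB3 Cut.none Ext.none :=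
  certB0 (fam := true) (s1 := false) (s2 := false) (a := 0) (b := 2) (c := 3) (cn := .up) (n1 := ndB3q0) (n2 := ndB3q2a) (pc := pcB3) (cut := Cut.none) (xt := Ext.none) (P1 := 0) (W1 := 536870912) (P2 := 0) (W2 := 536870912) (P3 := 536870912) (W3 := 50465866) (N0 := 3) (En := eng) (mo := mog) (C1 := cd3q0) (C2 := cd3q2a) (C3 := pd3)
    rfl k0_mm_023_a

noncomputable def f_mm_023_b : ℕ → ℕ → ℕ → ℕ → Bool := onCell 0 536870912 1239849684 370763052 536870912 50465866
    (rowB 3 eng mog cd3q0 cd3q2b pd3 0 true false false .up 0 2 3 (qsf 0 536870912 1239849684 370763052 3) ndB3q0 ndB3q2b pcB3 Cut.none Ext.none)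

def k0_mm_023_b : ∃ t, chk3 f_mm_023_b t 1 1 1 = true :=
  ⟨(l 5), by decide +kernel⟩

theorem c_mm_023_b : CertB 0 536870912 1239849684 370763052 536870912 50465866 3 eng mog cd3q0 cd3q2b pd3 true false false .up 0 2 3
    ndB3q0 ndB3q2b pcB3 Cut.none Ext.none :=
  certB0 (fam := true) (s1 := false) (s2 := false) (a := 0) (b := 2) (c := 3) (cn := .up) (n1 := ndB3q0) (n2 := ndB3q2b) (pc := pcB3) (cut := Cut.none) (xt := Ext.none) (P1 := 0) (W1 := 536870912) (P2 := 1239849684) (W2 := 370763052) (P3 := 536870912) (W3 := 50465866) (N0 := 3) (En := eng) (mo := mog) (C1 := cd3q0) (C2 := cd3q2b) (C3 := pd3)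
    rfl k0_mm_023_b

noncomputable def f_mm_033 : ℕ → ℕ → ℕ → ℕ → Bool := onCell 0 536870912 1610612736 536870912 536870912 50465866
    (rowB 3 eng mog cd3q0 cd3q3 pd3 0 true false false .pnn 0 3 3 (qsf 0 536870912 1610612736 536870912 3) ndB3q0 ndB3q3 pcB3 Cut.none Ext.none)

def k0_mm_033 : ∃ t, chk3 f_mm_033 t 1 1 1 = true :=
  ⟨(l 4), by decide +kernel⟩

theorem c_mm_033 : CertB 0 536870912 1610612736 536870912 536870912 50465866 3 eng mog cd3q0 cd3q3 pd3 true false false .pnn 0 3 3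
    ndB3q0 ndB3q3 pcB3 Cut.none Ext.none :=
  certB0 (fam := true) (s1 := false) (s2 := false) (a := 0) (b := 3) (c := 3) (cn := .pnn) (n1 := ndB3q0) (n2 := ndB3q3) (pc := pcB3) (cut := Cut.none) (xt := Ext.none) (P1 := 0) (W1 := 536870912) (P2 := 1610612736) (W2 := 536870912) (P3 := 536870912) (W3 := 50465866) (N0 := 3) (En := eng) (mo := mog) (C1 := cd3q0) (C2 := cd3q3) (C3 := pd3)
    rfl k0_mm_033

noncomputable def f_mm_101 : ℕ → ℕ → ℕ → ℕ → Bool := onCell 536870912 536870912 0 536870912 536870912 50465866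
    (rowB 3 eng mog cd3q1 cd3q0 pd1 0 true false false .npn 1 0 1 (qsf 536870912 536870912 0 536870912 1) ndB3q1 ndB3q0 pcB1 Cut.none Ext.none)

def k0_mm_101 : ∃ t, chk3 f_mm_101 t 1 1 1 = true :=
  ⟨(l 4), by decide +kernel⟩

theorem c_mm_101 : CertB 536870912 536870912 0 536870912 536870912 50465866 3 eng mog cd3q1 cd3q0 pd1 true false false .npn 1 0 1
    ndB3q1 ndB3q0 pcB1 Cut.none Ext.none :=
  certB0 (fam := true) (s1 := false) (s2 := false) (a := 1) (b := 0) (c := 1) (cn := .npn) (n1 := ndB3q1) (n2 := ndB3q0) (pc := pcB1) (cut := Cut.none) (xt := Ext.none) (P1 := 536870912) (W1 := 536870912) (P2 := 0) (W2 := 536870912) (P3 := 536870912) (W3 := 50465866) (N0 := 3) (En := eng) (mo := mog) (C1 := cd3q1) (C2 := cd3q0) (C3 := pd1)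
    rfl k0_mm_101

noncomputable def f_mm_102 : ℕ → ℕ → ℕ → ℕ → Bool := onCell 536870912 536870912 0 536870912 536870912 50465866
    (rowB 3 eng mog cd3q1 cd3q0 pd2 0 true false false .npp 1 0 2 (qsf 536870912 536870912 0 536870912 2) ndB3q1 ndB3q0 pcB2 Cut.none Ext.none)

def k0_mm_102 : ∃ t, chk3 f_mm_102 t 1 1 1 = true :=
  ⟨(l 4), by decide +kernel⟩

theorem c_mm_102 : CertB 536870912 536870912 0 536870912 536870912 50465866 3 eng mog cd3q1 cd3q0 pd2 true false false .npp 1 0 2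
    ndB3q1 ndB3q0 pcB2 Cut.none Ext.none :=
  certB0 (fam := true) (s1 := false) (s2 := false) (a := 1) (b := 0) (c := 2) (cn := .npp) (n1 := ndB3q1) (n2 := ndB3q0) (pc := pcB2) (cut := Cut.none) (xt := Ext.none) (P1 := 536870912) (W1 := 536870912) (P2 := 0) (W2 := 536870912) (P3 := 536870912) (W3 := 50465866) (N0 := 3) (En := eng) (mo := mog) (C1 := cd3q1) (C2 := cd3q0) (C3 := pd2)
    rfl k0_mm_102

noncomputable def f_mm_112 : ℕ → ℕ → ℕ → ℕ → Bool := onCell 536870912 536870912 536870912 536870912 536870912 50465866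
    (rowB 3 eng mog cd3q1 cd3q1 pd2 0 true false false .dn 1 1 2 (qsf 536870912 536870912 536870912 536870912 2) ndB3q1 ndB3q1 pcB2 Cut.none Ext.none)

def k0_mm_112 : ∃ t, chk3 f_mm_112 t 1 1 1 = true :=
  ⟨(l 4), by decide +kernel⟩

theorem c_mm_112 : CertB 536870912 536870912 536870912 536870912 536870912 50465866 3 eng mog cd3q1 cd3q1 pd2 true false false .dn 1 1 2
    ndB3q1 ndB3q1 pcB2 Cut.none Ext.none :=
  certB0 (fam := true) (s1 := false) (s2 := false) (a := 1) (b := 1) (c := 2) (cn := .dn) (n1 := ndB3q1) (n2 := ndB3q1) (pc := pcB2) (cut := Cut.none) (xt := Ext.none) (P1 := 536870912) (W1 := 536870912) (P2 := 536870912) (W2 := 536870912) (P3 := 536870912) (W3 := 50465866) (N0 := 3) (En := eng) (mo := mog) (C1 := cd3q1) (C2 := cd3q1) (C3 := pd2)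
    rfl k0_mm_112

noncomputable def f_mm_113 : ℕ → ℕ → ℕ → ℕ → Bool := onCell 536870912 536870912 536870912 536870912 536870912 50465866
    (rowB 3 eng mog cd3q1 cd3q1 pd3 0 true false false .nn 1 1 3 (qsf 536870912 536870912 536870912 536870912 3) ndB3q1 ndB3q1 pcB3 Cut.none Ext.none)

def k0_mm_113 : ∃ t, chk3 f_mm_113 t 1 1 1 = true :=
  ⟨(l 4), by decide +kernel⟩

theorem c_mm_113 : CertB 536870912 536870912 536870912 536870912 536870912 50465866 3 eng mog cd3q1 cd3q1 pd3 true false false .nn 1 1 3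
    ndB3q1 ndB3q1 pcB3 Cut.none Ext.none :=
  certB0 (fam := true) (s1 := false) (s2 := false) (a := 1) (b := 1) (c := 3) (cn := .nn) (n1 := ndB3q1) (n2 := ndB3q1) (pc := pcB3) (cut := Cut.none) (xt := Ext.none) (P1 := 536870912) (W1 := 536870912) (P2 := 536870912) (W2 := 536870912) (P3 := 536870912) (W3 := 50465866) (N0 := 3) (En := eng) (mo := mog) (C1 := cd3q1) (C2 := cd3q1) (C3 := pd3)
    rfl k0_mm_113

noncomputable def f_mm_123_a : ℕ → ℕ → ℕ → ℕ → Bool := onCell 536870912 536870912 0 536870912 536870912 50465866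
    (rowB 3 eng mog cd3q1 cd3q2a pd3 0 true false false .npn 1 2 3 (qsf 536870912 536870912 0 536870912 3) ndB3q1 ndB3q2a pcB3 Cut.none Ext.none)

def k0_mm_123_a : ∃ t, chk3 f_mm_123_a t 1 1 1 = true :=
  ⟨(l 4), by decide +kernel⟩

theorem c_mm_123_a : CertB 536870912 536870912 0 536870912 536870912 50465866 3 eng mog cd3q1 cd3q2a pd3 true false false .npn 1 2 3
    ndB3q1 ndB3q2a pcB3 Cut.none Ext.none :=
  certB0 (fam := true) (s1 := false) (s2 := false) (a := 1) (b := 2) (c := 3) (cn := .npn) (n1 := ndB3q1) (n2 := ndB3q2a) (pc := pcB3) (cut := Cut.none) (xt := Ext.none) (P1 := 536870912) (W1 := 536870912) (P2 := 0) (W2 := 536870912) (P3 := 536870912) (W3 := 50465866) (N0 := 3) (En := eng) (mo := mog) (C1 := cd3q1) (C2 := cd3q2a) (C3 := pd3)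
    rfl k0_mm_123_a

noncomputable def f_mm_123_b : ℕ → ℕ → ℕ → ℕ → Bool := onCell 536870912 536870912 1239849684 370763052 536870912 50465866
    (rowB 3 eng mog cd3q1 cd3q2b pd3 0 true false false .npn 1 2 3 (qsf 536870912 536870912 1239849684 370763052 3) ndB3q1 ndB3q2b pcB3 Cut.none Ext.none)

def k0_mm_123_b : ∃ t, chk3 f_mm_123_b t 1 1 1 = true :=
  ⟨(l 4), by decide +kernel⟩

theorem c_mm_123_b : CertB 536870912 536870912 1239849684 370763052 536870912 50465866 3 eng mog cd3q1 cd3q2b pd3 true false false .npn 1 2 3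
    ndB3q1 ndB3q2b pcB3 Cut.none Ext.none :=
  certB0 (fam := true) (s1 := false) (s2 := false) (a := 1) (b := 2) (c := 3) (cn := .npn) (n1 := ndB3q1) (n2 := ndB3q2b) (pc := pcB3) (cut := Cut.none) (xt := Ext.none) (P1 := 536870912) (W1 := 536870912) (P2 := 1239849684) (W2 := 370763052) (P3 := 536870912) (W3 := 50465866) (N0 := 3) (En := eng) (mo := mog) (C1 := cd3q1) (C2 := cd3q2b) (C3 := pd3)
    rfl k0_mm_123_b

noncomputable def f_mm_133 : ℕ → ℕ → ℕ → ℕ → Bool := onCell 536870912 536870912 1610612736 536870912 536870912 50465866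
    (rowB 3 eng mog cd3q1 cd3q3 pd3 0 true false false .dn 1 3 3 (qsf 536870912 536870912 1610612736 536870912 3) ndB3q1 ndB3q3 pcB3 Cut.none Ext.none)

def k0_mm_133 : ∃ t, chk3 f_mm_133 t 1 1 1 = true :=
  ⟨(l 4), by decide +kernel⟩

theorem c_mm_133 : CertB 536870912 536870912 1610612736 536870912 536870912 50465866 3 eng mog cd3q1 cd3q3 pd3 true false false .dn 1 3 3
    ndB3q1 ndB3q3 pcB3 Cut.none Ext.none :=
  certB0 (fam := true) (s1 := false) (s2 := false) (a := 1) (b := 3) (c := 3) (cn := .dn) (n1 := ndB3q1) (n2 := ndB3q3) (pc := pcB3) (cut := Cut.none) (xt := Ext.none) (P1 := 536870912) (W1 := 536870912) (P2 := 1610612736) (W2 := 536870912) (P3 := 536870912) (W3 := 50465866) (N0 := 3) (En := eng) (mo := mog) (C1 := cd3q1) (C2 := cd3q3) (C3 := pd3)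
    rfl k0_mm_133

noncomputable def cut_mm_202_a : Cut := Cut.of [[⟨0, 1, 0, 67108864⟩, ⟨1, 0, 0, 67108864⟩, ⟨2, 1, 0, 67108864⟩]]

noncomputable def f_mm_202_a : ℕ → ℕ → ℕ → ℕ → Bool := onCell 0 536870912 0 536870912 536870912 50465866
    (rowB 3 eng mog cd3q2a cd3q0 pd2 0 true false false .pp 2 0 2 (qsf 0 536870912 0 536870912 2) ndB3q2a ndB3q0 pcB2 cut_mm_202_a Ext.none)

def k0_mm_202_a : ∃ t, chk3 f_mm_202_a t 1 1 1 = true :=
  ⟨(b (b (b (b (b (a (a (a (b (l 16471096) (l 16480152)) (b (l 16497904) (l 4))) (a (b (l 16492232) (l 4)) (l 4))) (a (l 4) (a (l 4) (l 6)))) (a (l 4) (l 4))) (l 4)) (l 4)) (l 4)) (l 4)), by decide +kernel⟩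

theorem c_mm_202_a : CertB 0 536870912 0 536870912 536870912 50465866 3 eng mog cd3q2a cd3q0 pd2 true false false .pp 2 0 2
    ndB3q2a ndB3q0 pcB2 cut_mm_202_a Ext.none :=
  certB0 (fam := true) (s1 := false) (s2 := false) (a := 2) (b := 0) (c := 2) (cn := .pp) (n1 := ndB3q2a) (n2 := ndB3q0) (pc := pcB2) (cut := cut_mm_202_a) (xt := Ext.none) (P1 := 0) (W1 := 536870912) (P2 := 0) (W2 := 536870912) (P3 := 536870912) (W3 := 50465866) (N0 := 3) (En := eng) (mo := mog) (C1 := cd3q2a) (C2 := cd3q0) (C3 := pd2)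
    rfl k0_mm_202_a

noncomputable def cut_mm_202_b : Cut := Cut.of [[⟨0, 1, 0, 67108864⟩, ⟨1, 0, 0, 67108864⟩, ⟨2, 1, 0, 67108864⟩]]

noncomputable def f_mm_202_b : ℕ → ℕ → ℕ → ℕ → Bool := onCell 1239849684 370763052 0 536870912 536870912 50465866
    (rowB 3 eng mog cd3q2b cd3q0 pd2 0 true false false .pp 2 0 2 (qsf 1239849684 370763052 0 536870912 2) ndB3q2b ndB3q0 pcB2 cut_mm_202_b Ext.none)

def k0_mm_202_b : ∃ t, chk3 f_mm_202_b t 1 1 1 = true :=
  ⟨(b (a (b (a (b (b (a (b (a (a (b (l 16460376) (l 16490640)) (b (l 16439072) (l 16447640))) (b (l 16405936) (l 4))) (l 4)) (l 4)) (l 4)) (l 4)) (l 4)) (l 4)) (l 4)) (l 4)), by decide +kernel⟩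

theorem c_mm_202_b : CertB 1239849684 370763052 0 536870912 536870912 50465866 3 eng mog cd3q2b cd3q0 pd2 true false false .pp 2 0 2
    ndB3q2b ndB3q0 pcB2 cut_mm_202_b Ext.none :=
  certB0 (fam := true) (s1 := false) (s2 := false) (a := 2) (b := 0) (c := 2) (cn := .pp) (n1 := ndB3q2b) (n2 := ndB3q0) (pc := pcB2) (cut := cut_mm_202_b) (xt := Ext.none) (P1 := 1239849684) (W1 := 370763052) (P2 := 0) (W2 := 536870912) (P3 := 536870912) (W3 := 50465866) (N0 := 3) (En := eng) (mo := mog) (C1 := cd3q2b) (C2 := cd3q0) (C3 := pd2)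
    rfl k0_mm_202_b

noncomputable def f_mm_203_a : ℕ → ℕ → ℕ → ℕ → Bool := onCell 0 536870912 1610612736 536870912 536870912 50465866
    (rowB 3 eng mog cd3q2a cd3q0 pd3 1 true false false .up 2 0 3 (qsf 0 536870912 0 536870912 3) ndB3q2a ndB3q0 pcB3 Cut.none Ext.none)

def k0_mm_203_a : ∃ t, chk3 f_mm_203_a t 1 1 1 = true :=
  ⟨(l 4), by decide +kernel⟩

theorem c_mm_203_a : CertB 0 536870912 0 536870912 536870912 50465866 3 eng mog cd3q2a cd3q0 pd3 true false false .up 2 0 3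
    ndB3q2a ndB3q0 pcB3 Cut.none Ext.none :=
  certB1 (fam := true) (s1 := false) (s2 := false) (a := 2) (b := 0) (c := 3) (cn := .up) (n1 := ndB3q2a) (n2 := ndB3q0) (pc := pcB3) (cut := Cut.none) (xt := Ext.none) (P1 := 0) (W1 := 536870912) (P2 := 0) (W2 := 536870912) (P3 := 536870912) (W3 := 50465866) (N0 := 3) (En := eng) (mo := mog) (C1 := cd3q2a) (C2 := cd3q0) (C3 := pd3)
    rfl (fun _ => rfl) k0_mm_203_a

noncomputable def f_mm_203_b : ℕ → ℕ → ℕ → ℕ → Bool := onCell 1239849684 370763052 1610612736 536870912 536870912 50465866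
    (rowB 3 eng mog cd3q2b cd3q0 pd3 1 true false false .up 2 0 3 (qsf 1239849684 370763052 0 536870912 3) ndB3q2b ndB3q0 pcB3 Cut.none Ext.none)

def k0_mm_203_b : ∃ t, chk3 f_mm_203_b t 1 1 1 = true :=
  ⟨(l 4), by decide +kernel⟩

theorem c_mm_203_b : CertB 1239849684 370763052 0 536870912 536870912 50465866 3 eng mog cd3q2b cd3q0 pd3 true false false .up 2 0 3
    ndB3q2b ndB3q0 pcB3 Cut.none Ext.none :=
  certB1 (fam := true) (s1 := false) (s2 := false) (a := 2) (b := 0) (c := 3) (cn := .up) (n1 := ndB3q2b) (n2 := ndB3q0) (pc := pcB3) (cut := Cut.none) (xt := Ext.none) (P1 := 1239849684) (W1 := 370763052) (P2 := 0) (W2 := 536870912) (P3 := 536870912) (W3 := 50465866) (N0 := 3) (En := eng) (mo := mog) (C1 := cd3q2b) (C2 := cd3q0) (C3 := pd3)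
    rfl (fun _ => rfl) k0_mm_203_b

noncomputable def f_mm_213_a : ℕ → ℕ → ℕ → ℕ → Bool := onCell 0 536870912 536870912 536870912 536870912 50465866
    (rowB 3 eng mog cd3q2a cd3q1 pd3 0 true false false .pnn 2 1 3 (qsf 0 536870912 536870912 536870912 3) ndB3q2a ndB3q1 pcB3 Cut.none Ext.none)

def k0_mm_213_a : ∃ t, chk3 f_mm_213_a t 1 1 1 = true :=
  ⟨(l 4), by decide +kernel⟩

theorem c_mm_213_a : CertB 0 536870912 536870912 536870912 536870912 50465866 3 eng mog cd3q2a cd3q1 pd3 true false false .pnn 2 1 3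
    ndB3q2a ndB3q1 pcB3 Cut.none Ext.none :=
  certB0 (fam := true) (s1 := false) (s2 := false) (a := 2) (b := 1) (c := 3) (cn := .pnn) (n1 := ndB3q2a) (n2 := ndB3q1) (pc := pcB3) (cut := Cut.none) (xt := Ext.none) (P1 := 0) (W1 := 536870912) (P2 := 536870912) (W2 := 536870912) (P3 := 536870912) (W3 := 50465866) (N0 := 3) (En := eng) (mo := mog) (C1 := cd3q2a) (C2 := cd3q1) (C3 := pd3)
    rfl k0_mm_213_a

noncomputable def f_mm_213_b : ℕ → ℕ → ℕ → ℕ → Bool := onCell 1239849684 370763052 536870912 536870912 536870912 50465866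
    (rowB 3 eng mog cd3q2b cd3q1 pd3 0 true false false .pnn 2 1 3 (qsf 1239849684 370763052 536870912 536870912 3) ndB3q2b ndB3q1 pcB3 Cut.none Ext.none)

def k0_mm_213_b : ∃ t, chk3 f_mm_213_b t 1 1 1 = true :=
  ⟨(l 4), by decide +kernel⟩

theorem c_mm_213_b : CertB 1239849684 370763052 536870912 536870912 536870912 50465866 3 eng mog cd3q2b cd3q1 pd3 true false false .pnn 2 1 3
    ndB3q2b ndB3q1 pcB3 Cut.none Ext.none :=
  certB0 (fam := true) (s1 := false) (s2 := false) (a := 2) (b := 1) (c := 3) (cn := .pnn) (n1 := ndB3q2b) (n2 := ndB3q1) (pc := pcB3) (cut := Cut.none) (xt := Ext.none) (P1 := 1239849684) (W1 := 370763052) (P2 := 536870912) (W2 := 536870912) (P3 := 536870912) (W3 := 50465866) (N0 := 3) (En := eng) (mo := mog) (C1 := cd3q2b) (C2 := cd3q1) (C3 := pd3)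
    rfl k0_mm_213_b

noncomputable def f_mm_303 : ℕ → ℕ → ℕ → ℕ → Bool := onCell 1610612736 536870912 0 536870912 536870912 50465866
    (rowB 3 eng mog cd3q3 cd3q0 pd3 0 true false false .npn 3 0 3 (qsf 1610612736 536870912 0 536870912 3) ndB3q3 ndB3q0 pcB3 Cut.none Ext.none)

def k0_mm_303 : ∃ t, chk3 f_mm_303 t 1 1 1 = true :=
  ⟨(l 4), by decide +kernel⟩

theorem c_mm_303 : CertB 1610612736 536870912 0 536870912 536870912 50465866 3 eng mog cd3q3 cd3q0 pd3 true false false .npn 3 0 3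
    ndB3q3 ndB3q0 pcB3 Cut.none Ext.none :=
  certB0 (fam := true) (s1 := false) (s2 := false) (a := 3) (b := 0) (c := 3) (cn := .npn) (n1 := ndB3q3) (n2 := ndB3q0) (pc := pcB3) (cut := Cut.none) (xt := Ext.none) (P1 := 1610612736) (W1 := 536870912) (P2 := 0) (W2 := 536870912) (P3 := 536870912) (W3 := 50465866) (N0 := 3) (En := eng) (mo := mog) (C1 := cd3q3) (C2 := cd3q0) (C3 := pd3)
    rfl k0_mm_303

noncomputable def f_mm_313 : ℕ → ℕ → ℕ → ℕ → Bool := onCell 1610612736 536870912 536870912 536870912 536870912 50465866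
    (rowB 3 eng mog cd3q3 cd3q1 pd3 0 true false false .dn 3 1 3 (qsf 1610612736 536870912 536870912 536870912 3) ndB3q3 ndB3q1 pcB3 Cut.none Ext.none)

def k0_mm_313 : ∃ t, chk3 f_mm_313 t 1 1 1 = true :=
  ⟨(l 4), by decide +kernel⟩

theorem c_mm_313 : CertB 1610612736 536870912 536870912 536870912 536870912 50465866 3 eng mog cd3q3 cd3q1 pd3 true false false .dn 3 1 3
    ndB3q3 ndB3q1 pcB3 Cut.none Ext.none :=
  certB0 (fam := true) (s1 := false) (s2 := false) (a := 3) (b := 1) (c := 3) (cn := .dn) (n1 := ndB3q3) (n2 := ndB3q1) (pc := pcB3) (cut := Cut.none) (xt := Ext.none) (P1 := 1610612736) (W1 := 536870912) (P2 := 536870912) (W2 := 536870912) (P3 := 536870912) (W3 := 50465866) (N0 := 3) (En := eng) (mo := mog) (C1 := cd3q3) (C2 := cd3q1) (C3 := pd3)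
    rfl k0_mm_313

end Pool.Agent.Strip051.G.I5000_5470.Tab.C.BA33

namespace Pool.Agent.Strip051.G.I5000_5470.Tab.C.BA34

open Pool.Agent.Strip051.PB Pool.Agent.Strip051.PB.T
open Pool.Agent.Strip051.G.I5000_5470.Tab

noncomputable def f_pp_001 : ℕ → ℕ → ℕ → ℕ → Bool := onCell 0 536870912 0 536870912 536870912 50465866
    (rowB 3 eng mog cd3q0 cd4q0 pd1 0 true true true .up 0 0 1 (qsf 0 536870912 0 536870912 1) ndB3q0 ndB4q0 pcB1 Cut.none Ext.none)

def k0_pp_001 : ∃ t, chk3 f_pp_001 t 1 1 1 = true :=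
  ⟨(l 4), by decide +kernel⟩

theorem c_pp_001 : CertB 0 536870912 0 536870912 536870912 50465866 3 eng mog cd3q0 cd4q0 pd1 true true true .up 0 0 1
    ndB3q0 ndB4q0 pcB1 Cut.none Ext.none :=
  certB0 (fam := true) (s1 := true) (s2 := true) (a := 0) (b := 0) (c := 1) (cn := .up) (n1 := ndB3q0) (n2 := ndB4q0) (pc := pcB1) (cut := Cut.none) (xt := Ext.none) (P1 := 0) (W1 := 536870912) (P2 := 0) (W2 := 536870912) (P3 := 536870912) (W3 := 50465866) (N0 := 3) (En := eng) (mo := mog) (C1 := cd3q0) (C2 := cd4q0) (C3 := pd1)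
    rfl k0_pp_001

noncomputable def f_pp_011 : ℕ → ℕ → ℕ → ℕ → Bool := onCell 0 536870912 536870912 536870912 536870912 50465866
    (rowB 3 eng mog cd3q0 cd4q1 pd1 0 true true true .pnn 0 1 1 (qsf 0 536870912 536870912 536870912 1) ndB3q0 ndB4q1 pcB1 Cut.none Ext.none)

def k0_pp_011 : ∃ t, chk3 f_pp_011 t 1 1 1 = true :=
  ⟨(l 4), by decide +kernel⟩

theorem c_pp_011 : CertB 0 536870912 536870912 536870912 536870912 50465866 3 eng mog cd3q0 cd4q1 pd1 true true true .pnn 0 1 1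
    ndB3q0 ndB4q1 pcB1 Cut.none Ext.none :=
  certB0 (fam := true) (s1 := true) (s2 := true) (a := 0) (b := 1) (c := 1) (cn := .pnn) (n1 := ndB3q0) (n2 := ndB4q1) (pc := pcB1) (cut := Cut.none) (xt := Ext.none) (P1 := 0) (W1 := 536870912) (P2 := 536870912) (W2 := 536870912) (P3 := 536870912) (W3 := 50465866) (N0 := 3) (En := eng) (mo := mog) (C1 := cd3q0) (C2 := cd4q1) (C3 := pd1)
    rfl k0_pp_011

noncomputable def f_pp_012 : ℕ → ℕ → ℕ → ℕ → Bool := onCell 0 536870912 536870912 536870912 536870912 50465866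
    (rowB 3 eng mog cd3q0 cd4q1 pd2 0 true true true .pnp 0 1 2 (qsf 0 536870912 536870912 536870912 2) ndB3q0 ndB4q1 pcB2 Cut.none Ext.none)

def k0_pp_012 : ∃ t, chk3 f_pp_012 t 1 1 1 = true :=
  ⟨(l 4), by decide +kernel⟩

theorem c_pp_012 : CertB 0 536870912 536870912 536870912 536870912 50465866 3 eng mog cd3q0 cd4q1 pd2 true true true .pnp 0 1 2
    ndB3q0 ndB4q1 pcB2 Cut.none Ext.none :=
  certB0 (fam := true) (s1 := true) (s2 := true) (a := 0) (b := 1) (c := 2) (cn := .pnp) (n1 := ndB3q0) (n2 := ndB4q1) (pc := pcB2) (cut := Cut.none) (xt := Ext.none) (P1 := 0) (W1 := 536870912) (P2 := 536870912) (W2 := 536870912) (P3 := 536870912) (W3 := 50465866) (N0 := 3) (En := eng) (mo := mog) (C1 := cd3q0) (C2 := cd4q1) (C3 := pd2)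
    rfl k0_pp_012

noncomputable def f_pp_022 : ℕ → ℕ → ℕ → ℕ → Bool := onCell 0 536870912 1073741824 536870912 536870912 50465866
    (rowB 3 eng mog cd3q0 cd4q2 pd2 0 true true true .pp 0 2 2 (qsf 0 536870912 1073741824 536870912 2) ndB3q0 ndB4q2 pcB2 Cut.none Ext.none)

def k0_pp_022 : ∃ t, chk3 f_pp_022 t 1 1 1 = true :=
  ⟨(l 4), by decide +kernel⟩

theorem c_pp_022 : CertB 0 536870912 1073741824 536870912 536870912 50465866 3 eng mog cd3q0 cd4q2 pd2 true true true .pp 0 2 2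
    ndB3q0 ndB4q2 pcB2 Cut.none Ext.none :=
  certB0 (fam := true) (s1 := true) (s2 := true) (a := 0) (b := 2) (c := 2) (cn := .pp) (n1 := ndB3q0) (n2 := ndB4q2) (pc := pcB2) (cut := Cut.none) (xt := Ext.none) (P1 := 0) (W1 := 536870912) (P2 := 1073741824) (W2 := 536870912) (P3 := 536870912) (W3 := 50465866) (N0 := 3) (En := eng) (mo := mog) (C1 := cd3q0) (C2 := cd4q2) (C3 := pd2)
    rfl k0_pp_022

noncomputable def f_pp_023 : ℕ → ℕ → ℕ → ℕ → Bool := onCell 0 536870912 1073741824 536870912 536870912 50465866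
    (rowB 3 eng mog cd3q0 cd4q2 pd3 0 true true true .up 0 2 3 (qsf 0 536870912 1073741824 536870912 3) ndB3q0 ndB4q2 pcB3 Cut.none Ext.none)

def k0_pp_023 : ∃ t, chk3 f_pp_023 t 1 1 1 = true :=
  ⟨(l 4), by decide +kernel⟩

theorem c_pp_023 : CertB 0 536870912 1073741824 536870912 536870912 50465866 3 eng mog cd3q0 cd4q2 pd3 true true true .up 0 2 3
    ndB3q0 ndB4q2 pcB3 Cut.none Ext.none :=
  certB0 (fam := true) (s1 := true) (s2 := true) (a := 0) (b := 2) (c := 3) (cn := .up) (n1 := ndB3q0) (n2 := ndB4q2) (pc := pcB3) (cut := Cut.none) (xt := Ext.none) (P1 := 0) (W1 := 536870912) (P2 := 1073741824) (W2 := 536870912) (P3 := 536870912) (W3 := 50465866) (N0 := 3) (En := eng) (mo := mog) (C1 := cd3q0) (C2 := cd4q2) (C3 := pd3)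
    rfl k0_pp_023

noncomputable def f_pp_033 : ℕ → ℕ → ℕ → ℕ → Bool := onCell 0 536870912 0 1230186008 536870912 50465866
    (rowB 3 eng mog cd3q0 cd4q3 pd3 0 true true true .pnn 0 3 3 (qsf 0 536870912 0 1230186008 3) ndB3q0 ndB4q3 pcB3 Cut.none Ext.none)

def k0_pp_033 : ∃ t, chk3 f_pp_033 t 1 1 1 = true :=
  ⟨(b (l 4) (l 4)), by decide +kernel⟩

theorem c_pp_033 : CertB 0 536870912 0 1230186008 536870912 50465866 3 eng mog cd3q0 cd4q3 pd3 true true true .pnn 0 3 3
    ndB3q0 ndB4q3 pcB3 Cut.none Ext.none :=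
  certB0 (fam := true) (s1 := true) (s2 := true) (a := 0) (b := 3) (c := 3) (cn := .pnn) (n1 := ndB3q0) (n2 := ndB4q3) (pc := pcB3) (cut := Cut.none) (xt := Ext.none) (P1 := 0) (W1 := 536870912) (P2 := 0) (W2 := 1230186008) (P3 := 536870912) (W3 := 50465866) (N0 := 3) (En := eng) (mo := mog) (C1 := cd3q0) (C2 := cd4q3) (C3 := pd3)
    rfl k0_pp_033

noncomputable def f_pp_101 : ℕ → ℕ → ℕ → ℕ → Bool := onCell 536870912 536870912 0 536870912 536870912 50465866
    (rowB 3 eng mog cd3q1 cd4q0 pd1 0 true true true .npn 1 0 1 (qsf 536870912 536870912 0 536870912 1) ndB3q1 ndB4q0 pcB1 Cut.none Ext.none)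

def k0_pp_101 : ∃ t, chk3 f_pp_101 t 1 1 1 = true :=
  ⟨(l 4), by decide +kernel⟩

theorem c_pp_101 : CertB 536870912 536870912 0 536870912 536870912 50465866 3 eng mog cd3q1 cd4q0 pd1 true true true .npn 1 0 1
    ndB3q1 ndB4q0 pcB1 Cut.none Ext.none :=
  certB0 (fam := true) (s1 := true) (s2 := true) (a := 1) (b := 0) (c := 1) (cn := .npn) (n1 := ndB3q1) (n2 := ndB4q0) (pc := pcB1) (cut := Cut.none) (xt := Ext.none) (P1 := 536870912) (W1 := 536870912) (P2 := 0) (W2 := 536870912) (P3 := 536870912) (W3 := 50465866) (N0 := 3) (En := eng) (mo := mog) (C1 := cd3q1) (C2 := cd4q0) (C3 := pd1)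
    rfl k0_pp_101

noncomputable def f_pp_102 : ℕ → ℕ → ℕ → ℕ → Bool := onCell 536870912 536870912 0 536870912 536870912 50465866
    (rowB 3 eng mog cd3q1 cd4q0 pd2 0 true true true .npp 1 0 2 (qsf 536870912 536870912 0 536870912 2) ndB3q1 ndB4q0 pcB2 Cut.none Ext.none)

def k0_pp_102 : ∃ t, chk3 f_pp_102 t 1 1 1 = true :=
  ⟨(l 4), by decide +kernel⟩

theorem c_pp_102 : CertB 536870912 536870912 0 536870912 536870912 50465866 3 eng mog cd3q1 cd4q0 pd2 true true true .npp 1 0 2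
    ndB3q1 ndB4q0 pcB2 Cut.none Ext.none :=
  certB0 (fam := true) (s1 := true) (s2 := true) (a := 1) (b := 0) (c := 2) (cn := .npp) (n1 := ndB3q1) (n2 := ndB4q0) (pc := pcB2) (cut := Cut.none) (xt := Ext.none) (P1 := 536870912) (W1 := 536870912) (P2 := 0) (W2 := 536870912) (P3 := 536870912) (W3 := 50465866) (N0 := 3) (En := eng) (mo := mog) (C1 := cd3q1) (C2 := cd4q0) (C3 := pd2)
    rfl k0_pp_102

noncomputable def f_pp_112 : ℕ → ℕ → ℕ → ℕ → Bool := onCell 536870912 536870912 536870912 536870912 536870912 50465866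
    (rowB 3 eng mog cd3q1 cd4q1 pd2 0 true true true .dn 1 1 2 (qsf 536870912 536870912 536870912 536870912 2) ndB3q1 ndB4q1 pcB2 Cut.none Ext.none)

def k0_pp_112 : ∃ t, chk3 f_pp_112 t 1 1 1 = true :=
  ⟨(l 4), by decide +kernel⟩

theorem c_pp_112 : CertB 536870912 536870912 536870912 536870912 536870912 50465866 3 eng mog cd3q1 cd4q1 pd2 true true true .dn 1 1 2
    ndB3q1 ndB4q1 pcB2 Cut.none Ext.none :=
  certB0 (fam := true) (s1 := true) (s2 := true) (a := 1) (b := 1) (c := 2) (cn := .dn) (n1 := ndB3q1) (n2 := ndB4q1) (pc := pcB2) (cut := Cut.none) (xt := Ext.none) (P1 := 536870912) (W1 := 536870912) (P2 := 536870912) (W2 := 536870912) (P3 := 536870912) (W3 := 50465866) (N0 := 3) (En := eng) (mo := mog) (C1 := cd3q1) (C2 := cd4q1) (C3 := pd2)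
    rfl k0_pp_112

noncomputable def f_pp_113 : ℕ → ℕ → ℕ → ℕ → Bool := onCell 536870912 536870912 536870912 536870912 536870912 50465866
    (rowB 3 eng mog cd3q1 cd4q1 pd3 0 true true true .nn 1 1 3 (qsf 536870912 536870912 536870912 536870912 3) ndB3q1 ndB4q1 pcB3 Cut.none Ext.none)

def k0_pp_113 : ∃ t, chk3 f_pp_113 t 1 1 1 = true :=
  ⟨(l 4), by decide +kernel⟩

theorem c_pp_113 : CertB 536870912 536870912 536870912 536870912 536870912 50465866 3 eng mog cd3q1 cd4q1 pd3 true true true .nn 1 1 3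
    ndB3q1 ndB4q1 pcB3 Cut.none Ext.none :=
  certB0 (fam := true) (s1 := true) (s2 := true) (a := 1) (b := 1) (c := 3) (cn := .nn) (n1 := ndB3q1) (n2 := ndB4q1) (pc := pcB3) (cut := Cut.none) (xt := Ext.none) (P1 := 536870912) (W1 := 536870912) (P2 := 536870912) (W2 := 536870912) (P3 := 536870912) (W3 := 50465866) (N0 := 3) (En := eng) (mo := mog) (C1 := cd3q1) (C2 := cd4q1) (C3 := pd3)
    rfl k0_pp_113

noncomputable def f_pp_123 : ℕ → ℕ → ℕ → ℕ → Bool := onCell 536870912 536870912 1073741824 536870912 536870912 50465866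
    (rowB 3 eng mog cd3q1 cd4q2 pd3 0 true true true .npn 1 2 3 (qsf 536870912 536870912 1073741824 536870912 3) ndB3q1 ndB4q2 pcB3 Cut.none Ext.none)

def k0_pp_123 : ∃ t, chk3 f_pp_123 t 1 1 1 = true :=
  ⟨(l 4), by decide +kernel⟩

theorem c_pp_123 : CertB 536870912 536870912 1073741824 536870912 536870912 50465866 3 eng mog cd3q1 cd4q2 pd3 true true true .npn 1 2 3
    ndB3q1 ndB4q2 pcB3 Cut.none Ext.none :=
  certB0 (fam := true) (s1 := true) (s2 := true) (a := 1) (b := 2) (c := 3) (cn := .npn) (n1 := ndB3q1) (n2 := ndB4q2) (pc := pcB3) (cut := Cut.none) (xt := Ext.none) (P1 := 536870912) (W1 := 536870912) (P2 := 1073741824) (W2 := 536870912) (P3 := 536870912) (W3 := 50465866) (N0 := 3) (En := eng) (mo := mog) (C1 := cd3q1) (C2 := cd4q2) (C3 := pd3)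
    rfl k0_pp_123

noncomputable def f_pp_133 : ℕ → ℕ → ℕ → ℕ → Bool := onCell 536870912 536870912 0 1230186008 536870912 50465866
    (rowB 3 eng mog cd3q1 cd4q3 pd3 0 true true true .dn 1 3 3 (qsf 536870912 536870912 0 1230186008 3) ndB3q1 ndB4q3 pcB3 Cut.none Ext.none)

def k0_pp_133 : ∃ t, chk3 f_pp_133 t 1 1 1 = true :=
  ⟨(l 4), by decide +kernel⟩

theorem c_pp_133 : CertB 536870912 536870912 0 1230186008 536870912 50465866 3 eng mog cd3q1 cd4q3 pd3 true true true .dn 1 3 3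
    ndB3q1 ndB4q3 pcB3 Cut.none Ext.none :=
  certB0 (fam := true) (s1 := true) (s2 := true) (a := 1) (b := 3) (c := 3) (cn := .dn) (n1 := ndB3q1) (n2 := ndB4q3) (pc := pcB3) (cut := Cut.none) (xt := Ext.none) (P1 := 536870912) (W1 := 536870912) (P2 := 0) (W2 := 1230186008) (P3 := 536870912) (W3 := 50465866) (N0 := 3) (En := eng) (mo := mog) (C1 := cd3q1) (C2 := cd4q3) (C3 := pd3)
    rfl k0_pp_133

noncomputable def f_pp_202_a : ℕ → ℕ → ℕ → ℕ → Bool := onCell 0 536870912 0 536870912 536870912 50465866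
    (rowB 3 eng mog cd3q2a cd4q0 pd2 0 true true true .pp 2 0 2 (qsf 0 536870912 0 536870912 2) ndB3q2a ndB4q0 pcB2 Cut.none Ext.none)

def k0_pp_202_a : ∃ t, chk3 f_pp_202_a t 1 1 1 = true :=
  ⟨(l 4), by decide +kernel⟩

theorem c_pp_202_a : CertB 0 536870912 0 536870912 536870912 50465866 3 eng mog cd3q2a cd4q0 pd2 true true true .pp 2 0 2
    ndB3q2a ndB4q0 pcB2 Cut.none Ext.none :=
  certB0 (fam := true) (s1 := true) (s2 := true) (a := 2) (b := 0) (c := 2) (cn := .pp) (n1 := ndB3q2a) (n2 := ndB4q0) (pc := pcB2) (cut := Cut.none) (xt := Ext.none) (P1 := 0) (W1 := 536870912) (P2 := 0) (W2 := 536870912) (P3 := 536870912) (W3 := 50465866) (N0 := 3) (En := eng) (mo := mog) (C1 := cd3q2a) (C2 := cd4q0) (C3 := pd2)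
    rfl k0_pp_202_a

noncomputable def f_pp_202_b : ℕ → ℕ → ℕ → ℕ → Bool := onCell 1239849684 370763052 0 536870912 536870912 50465866
    (rowB 3 eng mog cd3q2b cd4q0 pd2 0 true true true .pp 2 0 2 (qsf 1239849684 370763052 0 536870912 2) ndB3q2b ndB4q0 pcB2 Cut.none Ext.none)

def k0_pp_202_b : ∃ t, chk3 f_pp_202_b t 1 1 1 = true :=
  ⟨(l 4), by decide +kernel⟩

theorem c_pp_202_b : CertB 1239849684 370763052 0 536870912 536870912 50465866 3 eng mog cd3q2b cd4q0 pd2 true true true .pp 2 0 2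
    ndB3q2b ndB4q0 pcB2 Cut.none Ext.none :=
  certB0 (fam := true) (s1 := true) (s2 := true) (a := 2) (b := 0) (c := 2) (cn := .pp) (n1 := ndB3q2b) (n2 := ndB4q0) (pc := pcB2) (cut := Cut.none) (xt := Ext.none) (P1 := 1239849684) (W1 := 370763052) (P2 := 0) (W2 := 536870912) (P3 := 536870912) (W3 := 50465866) (N0 := 3) (En := eng) (mo := mog) (C1 := cd3q2b) (C2 := cd4q0) (C3 := pd2)
    rfl k0_pp_202_b

noncomputable def f_pp_203_a : ℕ → ℕ → ℕ → ℕ → Bool := onCell 0 536870912 0 536870912 536870912 50465866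
    (rowB 3 eng mog cd3q2a cd4q0 pd3 0 true true true .up 2 0 3 (qsf 0 536870912 0 536870912 3) ndB3q2a ndB4q0 pcB3 Cut.none Ext.none)

def k0_pp_203_a : ∃ t, chk3 f_pp_203_a t 1 1 1 = true :=
  ⟨(l 4), by decide +kernel⟩

theorem c_pp_203_a : CertB 0 536870912 0 536870912 536870912 50465866 3 eng mog cd3q2a cd4q0 pd3 true true true .up 2 0 3
    ndB3q2a ndB4q0 pcB3 Cut.none Ext.none :=
  certB0 (fam := true) (s1 := true) (s2 := true) (a := 2) (b := 0) (c := 3) (cn := .up) (n1 := ndB3q2a) (n2 := ndB4q0) (pc := pcB3) (cut := Cut.none) (xt := Ext.none) (P1 := 0) (W1 := 536870912) (P2 := 0) (W2 := 536870912) (P3 := 536870912) (W3 := 50465866) (N0 := 3) (En := eng) (mo := mog) (C1 := cd3q2a) (C2 := cd4q0) (C3 := pd3)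
    rfl k0_pp_203_a

noncomputable def f_pp_203_b : ℕ → ℕ → ℕ → ℕ → Bool := onCell 1239849684 370763052 0 536870912 536870912 50465866
    (rowB 3 eng mog cd3q2b cd4q0 pd3 0 true true true .up 2 0 3 (qsf 1239849684 370763052 0 536870912 3) ndB3q2b ndB4q0 pcB3 Cut.none Ext.none)

def k0_pp_203_b : ∃ t, chk3 f_pp_203_b t 1 1 1 = true :=
  ⟨(l 4), by decide +kernel⟩

theorem c_pp_203_b : CertB 1239849684 370763052 0 536870912 536870912 50465866 3 eng mog cd3q2b cd4q0 pd3 true true true .up 2 0 3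
    ndB3q2b ndB4q0 pcB3 Cut.none Ext.none :=
  certB0 (fam := true) (s1 := true) (s2 := true) (a := 2) (b := 0) (c := 3) (cn := .up) (n1 := ndB3q2b) (n2 := ndB4q0) (pc := pcB3) (cut := Cut.none) (xt := Ext.none) (P1 := 1239849684) (W1 := 370763052) (P2 := 0) (W2 := 536870912) (P3 := 536870912) (W3 := 50465866) (N0 := 3) (En := eng) (mo := mog) (C1 := cd3q2b) (C2 := cd4q0) (C3 := pd3)
    rfl k0_pp_203_b

noncomputable def f_pp_213_a : ℕ → ℕ → ℕ → ℕ → Bool := onCell 0 536870912 536870912 536870912 536870912 50465866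
    (rowB 3 eng mog cd3q2a cd4q1 pd3 0 true true true .pnn 2 1 3 (qsf 0 536870912 536870912 536870912 3) ndB3q2a ndB4q1 pcB3 Cut.none Ext.none)

def k0_pp_213_a : ∃ t, chk3 f_pp_213_a t 1 1 1 = true :=
  ⟨(l 4), by decide +kernel⟩

theorem c_pp_213_a : CertB 0 536870912 536870912 536870912 536870912 50465866 3 eng mog cd3q2a cd4q1 pd3 true true true .pnn 2 1 3
    ndB3q2a ndB4q1 pcB3 Cut.none Ext.none :=
  certB0 (fam := true) (s1 := true) (s2 := true) (a := 2) (b := 1) (c := 3) (cn := .pnn) (n1 := ndB3q2a) (n2 := ndB4q1) (pc := pcB3) (cut := Cut.none) (xt := Ext.none) (P1 := 0) (W1 := 536870912) (P2 := 536870912) (W2 := 536870912) (P3 := 536870912) (W3 := 50465866) (N0 := 3) (En := eng) (mo := mog) (C1 := cd3q2a) (C2 := cd4q1) (C3 := pd3)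
    rfl k0_pp_213_a

noncomputable def f_pp_213_b : ℕ → ℕ → ℕ → ℕ → Bool := onCell 1239849684 370763052 536870912 536870912 536870912 50465866
    (rowB 3 eng mog cd3q2b cd4q1 pd3 0 true true true .pnn 2 1 3 (qsf 1239849684 370763052 536870912 536870912 3) ndB3q2b ndB4q1 pcB3 Cut.none Ext.none)

def k0_pp_213_b : ∃ t, chk3 f_pp_213_b t 1 1 1 = true :=
  ⟨(l 4), by decide +kernel⟩

theorem c_pp_213_b : CertB 1239849684 370763052 536870912 536870912 536870912 50465866 3 eng mog cd3q2b cd4q1 pd3 true true true .pnn 2 1 3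
    ndB3q2b ndB4q1 pcB3 Cut.none Ext.none :=
  certB0 (fam := true) (s1 := true) (s2 := true) (a := 2) (b := 1) (c := 3) (cn := .pnn) (n1 := ndB3q2b) (n2 := ndB4q1) (pc := pcB3) (cut := Cut.none) (xt := Ext.none) (P1 := 1239849684) (W1 := 370763052) (P2 := 536870912) (W2 := 536870912) (P3 := 536870912) (W3 := 50465866) (N0 := 3) (En := eng) (mo := mog) (C1 := cd3q2b) (C2 := cd4q1) (C3 := pd3)
    rfl k0_pp_213_b

noncomputable def f_pp_303 : ℕ → ℕ → ℕ → ℕ → Bool := onCell 1610612736 536870912 0 536870912 536870912 50465866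
    (rowB 3 eng mog cd3q3 cd4q0 pd3 0 true true true .npn 3 0 3 (qsf 1610612736 536870912 0 536870912 3) ndB3q3 ndB4q0 pcB3 Cut.none Ext.none)

def k0_pp_303 : ∃ t, chk3 f_pp_303 t 1 1 1 = true :=
  ⟨(l 4), by decide +kernel⟩

theorem c_pp_303 : CertB 1610612736 536870912 0 536870912 536870912 50465866 3 eng mog cd3q3 cd4q0 pd3 true true true .npn 3 0 3
    ndB3q3 ndB4q0 pcB3 Cut.none Ext.none :=
  certB0 (fam := true) (s1 := true) (s2 := true) (a := 3) (b := 0) (c := 3) (cn := .npn) (n1 := ndB3q3) (n2 := ndB4q0) (pc := pcB3) (cut := Cut.none) (xt := Ext.none) (P1 := 1610612736) (W1 := 536870912) (P2 := 0) (W2 := 536870912) (P3 := 536870912) (W3 := 50465866) (N0 := 3) (En := eng) (mo := mog) (C1 := cd3q3) (C2 := cd4q0) (C3 := pd3)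
    rfl k0_pp_303

noncomputable def f_pp_313 : ℕ → ℕ → ℕ → ℕ → Bool := onCell 1610612736 536870912 536870912 536870912 536870912 50465866
    (rowB 3 eng mog cd3q3 cd4q1 pd3 0 true true true .dn 3 1 3 (qsf 1610612736 536870912 536870912 536870912 3) ndB3q3 ndB4q1 pcB3 Cut.none Ext.none)

def k0_pp_313 : ∃ t, chk3 f_pp_313 t 1 1 1 = true :=
  ⟨(l 4), by decide +kernel⟩

theorem c_pp_313 : CertB 1610612736 536870912 536870912 536870912 536870912 50465866 3 eng mog cd3q3 cd4q1 pd3 true true true .dn 3 1 3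
    ndB3q3 ndB4q1 pcB3 Cut.none Ext.none :=
  certB0 (fam := true) (s1 := true) (s2 := true) (a := 3) (b := 1) (c := 3) (cn := .dn) (n1 := ndB3q3) (n2 := ndB4q1) (pc := pcB3) (cut := Cut.none) (xt := Ext.none) (P1 := 1610612736) (W1 := 536870912) (P2 := 536870912) (W2 := 536870912) (P3 := 536870912) (W3 := 50465866) (N0 := 3) (En := eng) (mo := mog) (C1 := cd3q3) (C2 := cd4q1) (C3 := pd3)
    rfl k0_pp_313

noncomputable def f_pm_001 : ℕ → ℕ → ℕ → ℕ → Bool := onCell 0 536870912 0 536870912 536870912 50465866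
    (rowB 3 eng mog cd3q0 cd4q0 pd1 0 true true false .up 0 0 1 (qsf 0 536870912 0 536870912 1) ndB3q0 ndB4q0 pcB1 Cut.none Ext.none)

def k0_pm_001 : ∃ t, chk3 f_pm_001 t 1 1 1 = true :=
  ⟨(a (l 3) (l 3)), by decide +kernel⟩

theorem c_pm_001 : CertB 0 536870912 0 536870912 536870912 50465866 3 eng mog cd3q0 cd4q0 pd1 true true false .up 0 0 1
    ndB3q0 ndB4q0 pcB1 Cut.none Ext.none :=
  certB0 (fam := true) (s1 := true) (s2 := false) (a := 0) (b := 0) (c := 1) (cn := .up) (n1 := ndB3q0) (n2 := ndB4q0) (pc := pcB1) (cut := Cut.none) (xt := Ext.none) (P1 := 0) (W1 := 536870912) (P2 := 0) (W2 := 536870912) (P3 := 536870912) (W3 := 50465866) (N0 := 3) (En := eng) (mo := mog) (C1 := cd3q0) (C2 := cd4q0) (C3 := pd1)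
    rfl k0_pm_001

noncomputable def cut_pm_011 : Cut := Cut.of [[⟨0, 0, 0, 67108864⟩, ⟨1, 1, 0, 67108864⟩, ⟨2, 1, 0, 67108864⟩]]

noncomputable def f_pm_011 : ℕ → ℕ → ℕ → ℕ → Bool := onCell 0 536870912 536870912 536870912 536870912 50465866
    (rowB 3 eng mog cd3q0 cd4q1 pd1 1 true true false .pnn 0 1 1 (qsf 0 536870912 536870912 536870912 1) ndB3q0 ndB4q1 pcB1 cut_pm_011 Ext.none)

def k0_pm_011 : ∃ t, chk3 f_pm_011 t 1 1 1 = true :=
  ⟨(a (b (l 3) (a (b (l 3) (b (l 3) (a (b (l 3) (a (b (l 3) (l 6)) (l 3))) (l 3)))) (l 3))) (l 3)), by decide +kernel⟩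

theorem c_pm_011 : CertB 0 536870912 536870912 536870912 536870912 50465866 3 eng mog cd3q0 cd4q1 pd1 true true false .pnn 0 1 1
    ndB3q0 ndB4q1 pcB1 cut_pm_011 Ext.none :=
  certB1 (fam := true) (s1 := true) (s2 := false) (a := 0) (b := 1) (c := 1) (cn := .pnn) (n1 := ndB3q0) (n2 := ndB4q1) (pc := pcB1) (cut := cut_pm_011) (xt := Ext.none) (P1 := 0) (W1 := 536870912) (P2 := 536870912) (W2 := 536870912) (P3 := 536870912) (W3 := 50465866) (N0 := 3) (En := eng) (mo := mog) (C1 := cd3q0) (C2 := cd4q1) (C3 := pd1)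
    rfl (fun _ => rfl) k0_pm_011

noncomputable def cut_pm_012 : Cut := Cut.of [[⟨0, 0, 0, 67108864⟩, ⟨1, 1, 0, 67108864⟩, ⟨2, 1, 0, 67108864⟩]]

noncomputable def f_pm_012 : ℕ → ℕ → ℕ → ℕ → Bool := onCell 1073741824 536870912 536870912 536870912 536870912 50465866
    (rowB 3 eng mog cd3q0 cd4q1 pd2 2 true true false .pnp 0 1 2 (qsf 0 536870912 536870912 536870912 2) ndB3q0 ndB4q1 pcB2 cut_pm_012 Ext.none)

def k0_pm_012 : ∃ t, chk3 f_pm_012 t 1 1 1 = true :=
  ⟨(a (b (a (b (l 3) (a (l 3) (a (l 3) (b (l 16636336) (l 16597584))))) (b (a (a (a (b (l 2) (l 16678696)) (l 2)) (l 2)) (l 2)) (a (a (a (l 16621136) (a (l 16624200) (a (l 16625016) (l 16646232)))) (l 16636832)) (l 16674288)))) (a (a (b (l 3) (a (b (l 3) (b (l 3) (b (b (l 3) (l 6)) (l 6)))) (b (l 3) (b (a (l 221358435879) (b (l 16586904) (l 16675232))) (a (b (a (l 16648488) (l 16627256)) (b (a (l 6) (l 16633712)) (l 6))) (b (a (l 16606328) (l 16586400)) (l 16624392))))))) (b (a (b (l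 3) (l 16759024)) (b (a (l 16555128) (l 16552960)) (a (l 16525728) (l 16511712)))) (a (b (a (b (l 3) (l 16555352)) (l 16593136)) (b (a (l 16555216) (l 16524960)) (a (b (l 16558808) (l 16562656)) (l 16524736)))) (b (a (l 16507568) (l 16488672)) (b (a (l 16498992) (l 16473824)) (a (l 16492216) (l 16463168))))))) (a (b (a (a (b (l 16548464) (l 16503008)) (a (b (l 16551040) (l 16494608)) (a (l 16519128) (b (l 16549872) (l 16490672))))) (l 16527312)) (a (a (b (l 16470120) (b (l 16450664) (l 16437216))) (a (b (l 16457448) (l 16426488)) (a (b (l 16450008) (l 16418320)) (b (l 16449888) (a (l 16415992) (l 16416192)))))) (b (l 16436648) (l 16394728)))) (b (l 16549272) (b (l 16419640) (b (l 16360632) (l 16329816))))))) (b (b (l 2) (a (l 16798392) (l 2))) (b (a (a (l 16617072) (l 16727896)) (l 16967632)) (a (b (l 16499208) (a (l 16331448) (l 16401112))) (a (l 16628144) (l 16827168)))))), by decide +kernel⟩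

theorem c_pm_012 : CertB 0 536870912 536870912 536870912 536870912 50465866 3 eng mog cd3q0 cd4q1 pd2 true true false .pnp 0 1 2
    ndB3q0 ndB4q1 pcB2 cut_pm_012 Ext.none :=
  certB2 (fam := true) (s1 := true) (s2 := false) (a := 0) (b := 1) (c := 2) (cn := .pnp) (n1 := ndB3q0) (n2 := ndB4q1) (pc := pcB2) (cut := cut_pm_012) (xt := Ext.none) (P1 := 0) (W1 := 536870912) (P2 := 536870912) (W2 := 536870912) (P3 := 536870912) (W3 := 50465866) (N0 := 3) (En := eng) (mo := mog) (C1 := cd3q0) (C2 := cd4q1) (C3 := pd2)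
    rfl (fun _ => rfl) k0_pm_012

noncomputable def f_pm_022 : ℕ → ℕ → ℕ → ℕ → Bool := onCell 0 536870912 1073741824 536870912 536870912 50465866
    (rowB 3 eng mog cd3q0 cd4q2 pd2 1 true true false .pp 0 2 2 (qsf 0 536870912 1073741824 536870912 2) ndB3q0 ndB4q2 pcB2 Cut.none Ext.none)

def k0_pm_022 : ∃ t, chk3 f_pm_022 t 2 2 1 = true :=
  ⟨(b (b (a (l 3) (l 1)) (b (a (a (l 3) (l 3)) (l 1)) (a (a (b (l 3) (b (a (l 3) (l 16577664)) (b (a (l 796883935431) (l 16566128)) (a (a (l 16526984) (l 16537552)) (l 16558944))))) (b (a (l 16623944) (l 122439996263)) (a (b (l 16602736) (l 16588888)) (b (l 16625392) (l 16612192))))) (a (b (l 1) (b (l 1) (l 324840438871))) (l 1))))) (b (b (b (a (a (a (a (a (b (b (l 16516888) (l 16508976)) (b (l 16500936) (l 16493344))) (b (l 16537992) (l 16501184))) (b (l 16546600) (l 16509008))) (b (l 16547648) (l 16531640))) (a (b (l 16574576) (l 16559768)) (b (l 16599016) (l 16585672)))) (a (a (l 176127231255) (l 1))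 (l 1))) (a (b (b (a (a (l 16575816) (l 16519496)) (l 16562952)) (a (a (l 16588392) (l 16512768)) (l 16556920))) (a (b (a (a (a (l 16510720) (l 16472528)) (l 16481728)) (l 16505728)) (a (a (b (l 16569080) (c (l 16479008) (l 16558160))) (b (l 16475688) (l 16470064))) (b (l 16499880) (l 16494432)))) (b (l 16550472) (b (l 16544640) (l 16539536))))) (a (b (l 16607760) (b (l 16598744) (b (l 16592888) (l 16587712)))) (l 1)))) (a (a (a (a (a (b (l 16528824) (l 16549128)) (l 16519056)) (l 16501552)) (l 16460072)) (l 16509336)) (a (l 16561928) (l 16598960)))) (b (a (a (a (a (a (l 16398336) (l 16522952)) (l 16457224)) (l 16455688)) (l 16452752)) (a (l 16514272) (l 16554688))) (a (a (a (a (l 16373432) (l 16369320)) (l 16358640)) (l 16414464)) (a (l 16466088) (l 16511200)))))), by decide +kernel⟩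

def k1_pm_022 : ∃ t, chk3 f_pm_022 t 2 3 1 = true :=
  ⟨(a (b (a (b (a (a (b (l 16359248) (l 16356024)) (l 16351040)) (l 16465800)) (a (a (b (l 16361928) (l 16372224)) (l 16360672)) (l 16349608))) (b (a (l 16315632) (l 16319840)) (l 16351920))) (b (a (a (a (b (l 16382616) (l 16381232)) (l 16373824)) (l 16361960)) (l 16325704)) (a (a (b (l 16371504) (a (b (a (b (l 16377856) (l 16381144)) (l 16372912)) (a (a (l 16428536) (l 16411992)) (l 16395040))) (b (l 16365520) (l 16377376)))) (l 16351816)) (l 16343384)))) (b (b (a (l 16392056) (l 16446976)) (a (l 16274872) (l 16359040))) (b (a (l 16226464) (l 16275136)) (a (l 16252448) (l 16169304))))), by decide +kernel⟩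

def k2_pm_022 : ∃ t, chk3 f_pm_022 t 3 1 1 = true :=
  ⟨(b (b (l 1) (a (b (l 1) (a (l 343631055687) (l 1))) (l 1))) (b (a (b (a (l 16503512) (l 16609528)) (a (l 16422864) (l 16538288))) (b (l 1) (l 439731126311))) (b (a (a (l 16358920) (l 16491024)) (l 16764896)) (a (a (l 16299832) (l 16455904)) (b (l 16745384) (l 16721208)))))), by decide +kernel⟩

theorem s3_pm_022 : ∃ t, chk3 f_pm_022 t 2 1 1 = true := ex3_b k0_pm_022 k1_pm_022

theorem s4_pm_022 : ∃ t, chk3 f_pm_022 t 1 1 1 = true := ex3_a s3_pm_022 k2_pm_022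

theorem c_pm_022 : CertB 0 536870912 1073741824 536870912 536870912 50465866 3 eng mog cd3q0 cd4q2 pd2 true true false .pp 0 2 2
    ndB3q0 ndB4q2 pcB2 Cut.none Ext.none :=
  certB1 (fam := true) (s1 := true) (s2 := false) (a := 0) (b := 2) (c := 2) (cn := .pp) (n1 := ndB3q0) (n2 := ndB4q2) (pc := pcB2) (cut := Cut.none) (xt := Ext.none) (P1 := 0) (W1 := 536870912) (P2 := 1073741824) (W2 := 536870912) (P3 := 536870912) (W3 := 50465866) (N0 := 3) (En := eng) (mo := mog) (C1 := cd3q0) (C2 := cd4q2) (C3 := pd2)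
    rfl (fun _ => rfl) s4_pm_022

noncomputable def f_pm_023 : ℕ → ℕ → ℕ → ℕ → Bool := onCell 1610612736 536870912 1073741824 536870912 536870912 50465866
    (rowB 3 eng mog cd3q0 cd4q2 pd3 2 true true false .up 0 2 3 (qsf 0 536870912 1073741824 536870912 3) ndB3q0 ndB4q2 pcB3 Cut.none Ext.none)

def k0_pm_023 : ∃ t, chk3 f_pm_023 t 1 1 1 = true :=
  ⟨(a (b (a (a (b (l 16793056) (b (l 16495144) (l 16301648))) (b (l 16903176) (l 16543336))) (b (l 16947992) (l 16861416))) (a (b (a (b (l 16149432) (l 16280296)) (l 16381528)) (b (a (l 16350544) (l 16442640)) (a (b (l 16387352) (a (b (l 16397592) (a (l 16454816) (l 16460328))) (l 16453792))) (b (l 16487048) (l 16534968))))) (b (a (l 16538888) (l 16658048)) (b (l 16569056) (a (l 16586688) (l 16647272)))))) (b (a (a (l 242230062855) (l 2)) (l 2)) (a (b (a (l 16722720) (l 16743336)) (b (a (l 16696680) (l 16746200)) (a (l 16705816) (l 16758952)))) (a (b (l 16757688) (l 4)) (l 4))))), by decide +kernel⟩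

theorem c_pm_023 : CertB 0 536870912 1073741824 536870912 536870912 50465866 3 eng mog cd3q0 cd4q2 pd3 true true false .up 0 2 3
    ndB3q0 ndB4q2 pcB3 Cut.none Ext.none :=
  certB2 (fam := true) (s1 := true) (s2 := false) (a := 0) (b := 2) (c := 3) (cn := .up) (n1 := ndB3q0) (n2 := ndB4q2) (pc := pcB3) (cut := Cut.none) (xt := Ext.none) (P1 := 0) (W1 := 536870912) (P2 := 1073741824) (W2 := 536870912) (P3 := 536870912) (W3 := 50465866) (N0 := 3) (En := eng) (mo := mog) (C1 := cd3q0) (C2 := cd4q2) (C3 := pd3)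
    rfl (fun _ => rfl) k0_pm_023

noncomputable def f_pm_033 : ℕ → ℕ → ℕ → ℕ → Bool := onCell 1610612736 536870912 0 1230186008 536870912 50465866
    (rowB 3 eng mog cd3q0 cd4q3 pd3 2 true true false .pnn 0 3 3 (qsf 0 536870912 0 1230186008 3) ndB3q0 ndB4q3 pcB3 Cut.none Ext.none)

def k0_pm_033 : ∃ t, chk3 f_pm_033 t 1 1 1 = true :=
  ⟨(b (a (l 1) (a (l 1) (b (l 4) (l 4)))) (b (a (b (l 1) (a (l 1) (a (l 1) (a (l 1) (b (l 1) (l 993244613527)))))) (a (b (a (l 1) (a (l 1265438711911) (l 16753704))) (a (a (l 614750650295) (l 561064003623)) (a (l 16755696) (l 16765848)))) (l 4))) (a (b (a (l 1) (a (b (a (l 1) (l 891775962663)) (a (l 858489939207) (l 649110298887))) (b (a (l 663068966599) (l 16705848)) (l 16846472)))) (a (b (a (l 1) (a (b (l 1) (a (l 843457486087) (l 669511325383))) (b (l 846678750167) (l 16659280)))) (a (b (a (l 1) (b (a (l 1) (l 828961894391)) (a (l 809634395527) (l 741451720263)))) (a (b (a (l 1) (l 791380620903)) (a (l 772053144919)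 (l 16388864))) (b (a (l 16452976) (l 16504856)) (l 16428936)))) (b (a (b (a (l 798897085319) (l 16632624)) (l 16585856)) (l 16627576)) (a (l 16518120) (l 16554784))))) (b (a (a (l 621193029559) (l 16683784)) (l 16704216)) (a (b (l 16654904) (l 16600840)) (l 16840072))))) (a (b (a (a (l 16723896) (l 16742664)) (a (l 16762448) (l 16777216))) (b (a (l 16741928) (l 16776856)) (a (l 16720272) (l 16766080)))) (b (l 4) (l 4)))))), by decide +kernel⟩

theorem c_pm_033 : CertB 0 536870912 0 1230186008 536870912 50465866 3 eng mog cd3q0 cd4q3 pd3 true true false .pnn 0 3 3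
    ndB3q0 ndB4q3 pcB3 Cut.none Ext.none :=
  certB2 (fam := true) (s1 := true) (s2 := false) (a := 0) (b := 3) (c := 3) (cn := .pnn) (n1 := ndB3q0) (n2 := ndB4q3) (pc := pcB3) (cut := Cut.none) (xt := Ext.none) (P1 := 0) (W1 := 536870912) (P2 := 0) (W2 := 1230186008) (P3 := 536870912) (W3 := 50465866) (N0 := 3) (En := eng) (mo := mog) (C1 := cd3q0) (C2 := cd4q3) (C3 := pd3)
    rfl (fun _ => rfl) k0_pm_033

noncomputable def f_pm_101 : ℕ → ℕ → ℕ → ℕ → Bool := onCell 536870912 536870912 0 536870912 536870912 50465866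
    (rowB 3 eng mog cd3q1 cd4q0 pd1 2 true true false .npn 1 0 1 (qsf 536870912 536870912 0 536870912 1) ndB3q1 ndB4q0 pcB1 Cut.none Ext.none)

def k0_pm_101 : ∃ t, chk3 f_pm_101 t 1 1 1 = true :=
  ⟨(a (l 3) (l 3)), by decide +kernel⟩

theorem c_pm_101 : CertB 536870912 536870912 0 536870912 536870912 50465866 3 eng mog cd3q1 cd4q0 pd1 true true false .npn 1 0 1
    ndB3q1 ndB4q0 pcB1 Cut.none Ext.none :=
  certB2 (fam := true) (s1 := true) (s2 := false) (a := 1) (b := 0) (c := 1) (cn := .npn) (n1 := ndB3q1) (n2 := ndB4q0) (pc := pcB1) (cut := Cut.none) (xt := Ext.none) (P1 := 536870912) (W1 := 536870912) (P2 := 0) (W2 := 536870912) (P3 := 536870912) (W3 := 50465866) (N0 := 3) (En := eng) (mo := mog) (C1 := cd3q1) (C2 := cd4q0) (C3 := pd1)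
    rfl (fun _ => rfl) k0_pm_101

noncomputable def f_pm_102 : ℕ → ℕ → ℕ → ℕ → Bool := onCell 1073741824 536870912 0 536870912 536870912 50465866
    (rowB 3 eng mog cd3q1 cd4q0 pd2 2 true true false .npp 1 0 2 (qsf 536870912 536870912 0 536870912 2) ndB3q1 ndB4q0 pcB2 Cut.none Ext.none)

def k0_pm_102 : ∃ t, chk3 f_pm_102 t 1 1 1 = true :=
  ⟨(a (b (a (l 3) (a (a (a (l 3) (b (l 2) (a (l 3) (a (b (l 3) (l 16618168)) (b (a (l 16551400) (l 16547992)) (a (l 16614008) (l 16611496))))))) (b (l 2) (b (l 16518792) (l 16589184)))) (b (l 2) (b (b (l 2) (l 16455104)) (l 16518848))))) (a (l 3) (b (a (a (a (l 3) (a (l 1688627125095) (a (l 16878376) (a (l 16855216) (l 16875168))))) (b (l 16645976) (l 16700112))) (b (l 16595944) (l 16680752))) (a (a (a (b (l 3) (l 16726480)) (a (b (l 16726624) (l 16730624)) (b (a (l 16727616) (l 16728024)) (a (l 16732992) (l 16734648))))) (b (l 16731024) (l 16743128))) (b (l 16737888) (l 16768760)))))) (b (a (a (b (l 2)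 (b (l 2) (l 16416168))) (l 2)) (l 2)) (b (a (b (l 16471816) (l 16623512)) (b (l 2) (a (l 16540336) (l 2)))) (b (a (l 16748144) (l 16754056)) (a (l 16834072) (l 16952336)))))), by decide +kernel⟩

theorem c_pm_102 : CertB 536870912 536870912 0 536870912 536870912 50465866 3 eng mog cd3q1 cd4q0 pd2 true true false .npp 1 0 2
    ndB3q1 ndB4q0 pcB2 Cut.none Ext.none :=
  certB2 (fam := true) (s1 := true) (s2 := false) (a := 1) (b := 0) (c := 2) (cn := .npp) (n1 := ndB3q1) (n2 := ndB4q0) (pc := pcB2) (cut := Cut.none) (xt := Ext.none) (P1 := 536870912) (W1 := 536870912) (P2 := 0) (W2 := 536870912) (P3 := 536870912) (W3 := 50465866) (N0 := 3) (En := eng) (mo := mog) (C1 := cd3q1) (C2 := cd4q0) (C3 := pd2)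
    rfl (fun _ => rfl) k0_pm_102

noncomputable def f_pm_112 : ℕ → ℕ → ℕ → ℕ → Bool := onCell 1073741824 536870912 536870912 536870912 536870912 50465866
    (rowB 3 eng mog cd3q1 cd4q1 pd2 2 true true false .dn 1 1 2 (qsf 536870912 536870912 536870912 536870912 2) ndB3q1 ndB4q1 pcB2 Cut.none Ext.none)

def k0_pm_112 : ∃ t, chk3 f_pm_112 t 1 1 1 = true :=
  ⟨(a (b (a (b (l 3) (a (l 1) (a (l 1) (l 425235487207)))) (b (a (a (a (b (l 16713712) (l 16680944)) (a (b (l 16720112) (l 16685024)) (b (l 16914664) (l 16692392)))) (b (l 16740320) (l 16710432))) (b (l 16781488) (l 16767120))) (a (a (a (l 16629688) (a (l 16611120) (a (l 16611736) (l 16695784)))) (l 16625040)) (l 16675944)))) (a (l 1) (a (l 1) (b (l 16532424) (l 1))))) (b (b (b (a (l 16899688) (l 17149072)) (a (l 16924624) (l 17272592))) (a (b (l 16909072) (l 16835056)) (l 17357000))) (a (b (l 345778619159) (l 401075928231)) (b (a (l 17001016) (l 17393648)) (l 435972733623))))), by decide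 +kernel⟩

theorem c_pm_112 : CertB 536870912 536870912 536870912 536870912 536870912 50465866 3 eng mog cd3q1 cd4q1 pd2 true true false .dn 1 1 2
    ndB3q1 ndB4q1 pcB2 Cut.none Ext.none :=
  certB2 (fam := true) (s1 := true) (s2 := false) (a := 1) (b := 1) (c := 2) (cn := .dn) (n1 := ndB3q1) (n2 := ndB4q1) (pc := pcB2) (cut := Cut.none) (xt := Ext.none) (P1 := 536870912) (W1 := 536870912) (P2 := 536870912) (W2 := 536870912) (P3 := 536870912) (W3 := 50465866) (N0 := 3) (En := eng) (mo := mog) (C1 := cd3q1) (C2 := cd4q1) (C3 := pd2)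
    rfl (fun _ => rfl) k0_pm_112

noncomputable def f_pm_113 : ℕ → ℕ → ℕ → ℕ → Bool := onCell 536870912 536870912 1610612736 536870912 536870912 50465866
    (rowB 3 eng mog cd3q1 cd4q1 pd3 1 true true false .nn 1 1 3 (qsf 536870912 536870912 536870912 536870912 3) ndB3q1 ndB4q1 pcB3 Cut.none Ext.none)

def k0_pm_113 : ∃ t, chk3 f_pm_113 t 1 1 1 = true :=
  ⟨(a (b (a (b (l 17018480) (l 16990200)) (l 17426120)) (b (l 706623941655) (l 2))) (b (a (l 17544336) (b (b (a (l 17700152) (l 17514600)) (l 17642952)) (l 17543184))) (b (l 17176648) (b (l 16995224) (b (l 16911504) (b (l 16871392) (l 16838736))))))), by decide +kernel⟩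

theorem c_pm_113 : CertB 536870912 536870912 536870912 536870912 536870912 50465866 3 eng mog cd3q1 cd4q1 pd3 true true false .nn 1 1 3
    ndB3q1 ndB4q1 pcB3 Cut.none Ext.none :=
  certB1 (fam := true) (s1 := true) (s2 := false) (a := 1) (b := 1) (c := 3) (cn := .nn) (n1 := ndB3q1) (n2 := ndB4q1) (pc := pcB3) (cut := Cut.none) (xt := Ext.none) (P1 := 536870912) (W1 := 536870912) (P2 := 536870912) (W2 := 536870912) (P3 := 536870912) (W3 := 50465866) (N0 := 3) (En := eng) (mo := mog) (C1 := cd3q1) (C2 := cd4q1) (C3 := pd3)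
    rfl (fun _ => rfl) k0_pm_113

noncomputable def f_pm_123 : ℕ → ℕ → ℕ → ℕ → Bool := onCell 1610612736 536870912 1073741824 536870912 536870912 50465866
    (rowB 3 eng mog cd3q1 cd4q2 pd3 2 true true false .npn 1 2 3 (qsf 536870912 536870912 1073741824 536870912 3) ndB3q1 ndB4q2 pcB3 Cut.none Ext.none)

def k0_pm_123 : ∃ t, chk3 f_pm_123 t 1 1 1 = true :=
  ⟨(a (b (a (a (b (l 16710896) (l 1)) (b (l 16912016) (l 16500088))) (b (a (l 17136024) (l 17180872)) (a (l 16672280) (l 16815016)))) (a (l 1) (b (l 375305466903) (l 1)))) (b (a (b (a (l 17012992) (l 16917584)) (a (l 16914688) (l 16955928))) (a (b (l 16832672) (l 16793160)) (l 4))) (a (b (a (l 16704736) (l 16744552)) (b (l 16867024) (l 1))) (a (b (l 16772888) (l 4)) (l 4))))), by decide +kernel⟩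

theorem c_pm_123 : CertB 536870912 536870912 1073741824 536870912 536870912 50465866 3 eng mog cd3q1 cd4q2 pd3 true true false .npn 1 2 3
    ndB3q1 ndB4q2 pcB3 Cut.none Ext.none :=
  certB2 (fam := true) (s1 := true) (s2 := false) (a := 1) (b := 2) (c := 3) (cn := .npn) (n1 := ndB3q1) (n2 := ndB4q2) (pc := pcB3) (cut := Cut.none) (xt := Ext.none) (P1 := 536870912) (W1 := 536870912) (P2 := 1073741824) (W2 := 536870912) (P3 := 536870912) (W3 := 50465866) (N0 := 3) (En := eng) (mo := mog) (C1 := cd3q1) (C2 := cd4q2) (C3 := pd3)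
    rfl (fun _ => rfl) k0_pm_123

noncomputable def f_pm_133 : ℕ → ℕ → ℕ → ℕ → Bool := onCell 536870912 536870912 0 1230186008 536870912 50465866
    (rowB 3 eng mog cd3q1 cd4q3 pd3 0 true true false .dn 1 3 3 (qsf 536870912 536870912 0 1230186008 3) ndB3q1 ndB4q3 pcB3 Cut.none Ext.none)

def k0_pm_133 : ∃ t, chk3 f_pm_133 t 1 1 1 = true :=
  ⟨(b (l 2) (l 4)), by decide +kernel⟩

theorem c_pm_133 : CertB 536870912 536870912 0 1230186008 536870912 50465866 3 eng mog cd3q1 cd4q3 pd3 true true false .dn 1 3 3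
    ndB3q1 ndB4q3 pcB3 Cut.none Ext.none :=
  certB0 (fam := true) (s1 := true) (s2 := false) (a := 1) (b := 3) (c := 3) (cn := .dn) (n1 := ndB3q1) (n2 := ndB4q3) (pc := pcB3) (cut := Cut.none) (xt := Ext.none) (P1 := 536870912) (W1 := 536870912) (P2 := 0) (W2 := 1230186008) (P3 := 536870912) (W3 := 50465866) (N0 := 3) (En := eng) (mo := mog) (C1 := cd3q1) (C2 := cd4q3) (C3 := pd3)
    rfl k0_pm_133

noncomputable def f_pm_202_a : ℕ → ℕ → ℕ → ℕ → Bool := onCell 0 536870912 0 536870912 536870912 50465866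
    (rowB 3 eng mog cd3q2a cd4q0 pd2 0 true true false .pp 2 0 2 (qsf 0 536870912 0 536870912 2) ndB3q2a ndB4q0 pcB2 Cut.none Ext.none)

def k0_pm_202_a : ∃ t, chk3 f_pm_202_a t 1 1 1 = true :=
  ⟨(a (b (b (b (b (a (l 16587400) (a (l 16599048) (b (l 16609920) (l 16615000)))) (a (l 16602304) (l 16618392))) (a (l 16629328) (l 16641016))) (b (l 16675216) (l 16716008))) (b (b (l 16851168) (l 16874880)) (b (a (l 2) (l 16994344)) (l 2)))) (b (b (a (b (b (a (l 16629408) (l 16651088)) (b (a (l 16635728) (l 16653912)) (l 16650072))) (b (a (l 16651088) (l 16667040)) (l 16674392))) (b (a (b (b (l 16679384) (l 16677160)) (l 16677680)) (b (a (b (l 16704144) (l 16700000)) (a (b (l 16717512) (l 16713296)) (l 16726200))) (a (l 16698176) (l 16716192)))) (a (b (l 16686176) (l 16701952)) (b (a (l 16704784) (l 16722736)) (l 16730736))))) (a (b (l 16699216) (l 16735752)) (b (a (l 16729576) (b (a (l 16745296) (l 16769160)) (l 16780360))) (a (l 16768952) (l 16815176)))))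 (b (a (b (l 16788536) (a (l 16891448) (l 16913224))) (b (a (l 16823336) (l 16873224)) (l 16978152))) (a (b (l 17048840) (l 2)) (b (a (l 17081032) (l 17056280)) (a (l 16989952) (l 16999312))))))), by decide +kernel⟩

theorem c_pm_202_a : CertB 0 536870912 0 536870912 536870912 50465866 3 eng mog cd3q2a cd4q0 pd2 true true false .pp 2 0 2
    ndB3q2a ndB4q0 pcB2 Cut.none Ext.none :=
  certB0 (fam := true) (s1 := true) (s2 := false) (a := 2) (b := 0) (c := 2) (cn := .pp) (n1 := ndB3q2a) (n2 := ndB4q0) (pc := pcB2) (cut := Cut.none) (xt := Ext.none) (P1 := 0) (W1 := 536870912) (P2 := 0) (W2 := 536870912) (P3 := 536870912) (W3 := 50465866) (N0 := 3) (En := eng) (mo := mog) (C1 := cd3q2a) (C2 := cd4q0) (C3 := pd2)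
    rfl k0_pm_202_a

noncomputable def f_pm_202_b : ℕ → ℕ → ℕ → ℕ → Bool := onCell 1073741824 536870912 0 536870912 536870912 50465866
    (rowB 3 eng mog cd3q2b cd4q0 pd2 2 true true false .pp 2 0 2 (qsf 1239849684 370763052 0 536870912 2) ndB3q2b ndB4q0 pcB2 Cut.none Ext.none)

def k0_pm_202_b : ∃ t, chk3 f_pm_202_b t 1 1 1 = true :=
  ⟨(a (b (a (l 1) (b (a (b (a (l 331282831511) (l 291017439143)) (l 1)) (b (a (l 16570744) (l 16527888)) (l 497712789959))) (l 1))) (l 1)) (b (a (b (a (b (l 16448216) (l 16594424)) (l 16420408)) (a (b (l 16694640) (l 1)) (l 344704662663))) (a (b (l 16285368) (l 16642976)) (b (l 16270400) (l 16581664)))) (a (l 1) (b (a (l 678639025047) (l 16820200)) (l 1))))), by decide +kernel⟩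

theorem c_pm_202_b : CertB 1239849684 370763052 0 536870912 536870912 50465866 3 eng mog cd3q2b cd4q0 pd2 true true false .pp 2 0 2
    ndB3q2b ndB4q0 pcB2 Cut.none Ext.none :=
  certB2 (fam := true) (s1 := true) (s2 := false) (a := 2) (b := 0) (c := 2) (cn := .pp) (n1 := ndB3q2b) (n2 := ndB4q0) (pc := pcB2) (cut := Cut.none) (xt := Ext.none) (P1 := 1239849684) (W1 := 370763052) (P2 := 0) (W2 := 536870912) (P3 := 536870912) (W3 := 50465866) (N0 := 3) (En := eng) (mo := mog) (C1 := cd3q2b) (C2 := cd4q0) (C3 := pd2)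
    rfl (fun _ => rfl) k0_pm_202_b

noncomputable def f_pm_203_a : ℕ → ℕ → ℕ → ℕ → Bool := onCell 0 536870912 0 536870912 536870912 50465866
    (rowB 3 eng mog cd3q2a cd4q0 pd3 0 true true false .up 2 0 3 (qsf 0 536870912 0 536870912 3) ndB3q2a ndB4q0 pcB3 Cut.none Ext.none)

def k0_pm_203_a : ∃ t, chk3 f_pm_203_a t 1 1 1 = true :=
  ⟨(b (l 1) (a (b (b (l 1) (l 16858144)) (b (a (l 16939584) (l 16990088)) (l 16875160))) (b (a (l 1) (l 1)) (a (b (l 17029992) (l 16954112)) (b (a (l 17058664) (l 1)) (a (l 17000408) (l 17031616))))))), by decide +kernel⟩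

theorem c_pm_203_a : CertB 0 536870912 0 536870912 536870912 50465866 3 eng mog cd3q2a cd4q0 pd3 true true false .up 2 0 3
    ndB3q2a ndB4q0 pcB3 Cut.none Ext.none :=
  certB0 (fam := true) (s1 := true) (s2 := false) (a := 2) (b := 0) (c := 3) (cn := .up) (n1 := ndB3q2a) (n2 := ndB4q0) (pc := pcB3) (cut := Cut.none) (xt := Ext.none) (P1 := 0) (W1 := 536870912) (P2 := 0) (W2 := 536870912) (P3 := 536870912) (W3 := 50465866) (N0 := 3) (En := eng) (mo := mog) (C1 := cd3q2a) (C2 := cd4q0) (C3 := pd3)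
    rfl k0_pm_203_a

noncomputable def f_pm_203_b : ℕ → ℕ → ℕ → ℕ → Bool := onCell 1239849684 370763052 1610612736 536870912 536870912 50465866
    (rowB 3 eng mog cd3q2b cd4q0 pd3 1 true true false .up 2 0 3 (qsf 1239849684 370763052 0 536870912 3) ndB3q2b ndB4q0 pcB3 Cut.none Ext.none)

def k0_pm_203_b : ∃ t, chk3 f_pm_203_b t 1 1 1 = true :=
  ⟨(b (a (b (a (b (l 16829616) (a (l 16876352) (l 16863448))) (b (l 16646544) (l 16753864))) (l 4)) (b (b (a (l 16382224) (l 16306464)) (l 16500600)) (b (l 16646312) (l 4)))) (l 4)), by decide +kernel⟩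

theorem c_pm_203_b : CertB 1239849684 370763052 0 536870912 536870912 50465866 3 eng mog cd3q2b cd4q0 pd3 true true false .up 2 0 3
    ndB3q2b ndB4q0 pcB3 Cut.none Ext.none :=
  certB1 (fam := true) (s1 := true) (s2 := false) (a := 2) (b := 0) (c := 3) (cn := .up) (n1 := ndB3q2b) (n2 := ndB4q0) (pc := pcB3) (cut := Cut.none) (xt := Ext.none) (P1 := 1239849684) (W1 := 370763052) (P2 := 0) (W2 := 536870912) (P3 := 536870912) (W3 := 50465866) (N0 := 3) (En := eng) (mo := mog) (C1 := cd3q2b) (C2 := cd4q0) (C3 := pd3)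
    rfl (fun _ => rfl) k0_pm_203_b

noncomputable def f_pm_213_a : ℕ → ℕ → ℕ → ℕ → Bool := onCell 0 536870912 536870912 536870912 536870912 50465866
    (rowB 3 eng mog cd3q2a cd4q1 pd3 0 true true false .pnn 2 1 3 (qsf 0 536870912 536870912 536870912 3) ndB3q2a ndB4q1 pcB3 Cut.none Ext.none)

def k0_pm_213_a : ∃ t, chk3 f_pm_213_a t 1 1 1 = true :=
  ⟨(b (a (l 4) (b (a (b (l 16958304) (l 4)) (b (a (l 16911744) (l 16936856)) (a (l 16801232) (b (l 16902256) (l 16882448))))) (a (l 4) (b (a (l 4) (b (l 16862392) (l 4))) (l 4))))) (l 4)), by decide +kernel⟩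

theorem c_pm_213_a : CertB 0 536870912 536870912 536870912 536870912 50465866 3 eng mog cd3q2a cd4q1 pd3 true true false .pnn 2 1 3
    ndB3q2a ndB4q1 pcB3 Cut.none Ext.none :=
  certB0 (fam := true) (s1 := true) (s2 := false) (a := 2) (b := 1) (c := 3) (cn := .pnn) (n1 := ndB3q2a) (n2 := ndB4q1) (pc := pcB3) (cut := Cut.none) (xt := Ext.none) (P1 := 0) (W1 := 536870912) (P2 := 536870912) (W2 := 536870912) (P3 := 536870912) (W3 := 50465866) (N0 := 3) (En := eng) (mo := mog) (C1 := cd3q2a) (C2 := cd4q1) (C3 := pd3)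
    rfl k0_pm_213_a

noncomputable def f_pm_213_b : ℕ → ℕ → ℕ → ℕ → Bool := onCell 1239849684 370763052 536870912 536870912 536870912 50465866
    (rowB 3 eng mog cd3q2b cd4q1 pd3 0 true true false .pnn 2 1 3 (qsf 1239849684 370763052 536870912 536870912 3) ndB3q2b ndB4q1 pcB3 Cut.none Ext.none)

def k0_pm_213_b : ∃ t, chk3 f_pm_213_b t 1 1 1 = true :=
  ⟨(l 4), by decide +kernel⟩

theorem c_pm_213_b : CertB 1239849684 370763052 536870912 536870912 536870912 50465866 3 eng mog cd3q2b cd4q1 pd3 true true false .pnn 2 1 3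
    ndB3q2b ndB4q1 pcB3 Cut.none Ext.none :=
  certB0 (fam := true) (s1 := true) (s2 := false) (a := 2) (b := 1) (c := 3) (cn := .pnn) (n1 := ndB3q2b) (n2 := ndB4q1) (pc := pcB3) (cut := Cut.none) (xt := Ext.none) (P1 := 1239849684) (W1 := 370763052) (P2 := 536870912) (W2 := 536870912) (P3 := 536870912) (W3 := 50465866) (N0 := 3) (En := eng) (mo := mog) (C1 := cd3q2b) (C2 := cd4q1) (C3 := pd3)
    rfl k0_pm_213_b

noncomputable def f_pm_303 : ℕ → ℕ → ℕ → ℕ → Bool := onCell 1610612736 536870912 0 536870912 536870912 50465866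
    (rowB 3 eng mog cd3q3 cd4q0 pd3 2 true true false .npn 3 0 3 (qsf 1610612736 536870912 0 536870912 3) ndB3q3 ndB4q0 pcB3 Cut.none Ext.none)

def k0_pm_303 : ∃ t, chk3 f_pm_303 t 1 1 1 = true :=
  ⟨(a (a (b (b (a (l 16340128) (l 16458768)) (l 473016737959)) (l 1)) (b (a (l 16633048) (l 4)) (l 4))) (l 4)), by decide +kernel⟩

theorem c_pm_303 : CertB 1610612736 536870912 0 536870912 536870912 50465866 3 eng mog cd3q3 cd4q0 pd3 true true false .npn 3 0 3
    ndB3q3 ndB4q0 pcB3 Cut.none Ext.none :=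
  certB2 (fam := true) (s1 := true) (s2 := false) (a := 3) (b := 0) (c := 3) (cn := .npn) (n1 := ndB3q3) (n2 := ndB4q0) (pc := pcB3) (cut := Cut.none) (xt := Ext.none) (P1 := 1610612736) (W1 := 536870912) (P2 := 0) (W2 := 536870912) (P3 := 536870912) (W3 := 50465866) (N0 := 3) (En := eng) (mo := mog) (C1 := cd3q3) (C2 := cd4q0) (C3 := pd3)
    rfl (fun _ => rfl) k0_pm_303

noncomputable def f_pm_313 : ℕ → ℕ → ℕ → ℕ → Bool := onCell 1610612736 536870912 536870912 536870912 536870912 50465866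
    (rowB 3 eng mog cd3q3 cd4q1 pd3 0 true true false .dn 3 1 3 (qsf 1610612736 536870912 536870912 536870912 3) ndB3q3 ndB4q1 pcB3 Cut.none Ext.none)

def k0_pm_313 : ∃ t, chk3 f_pm_313 t 1 1 1 = true :=
  ⟨(l 4), by decide +kernel⟩

theorem c_pm_313 : CertB 1610612736 536870912 536870912 536870912 536870912 50465866 3 eng mog cd3q3 cd4q1 pd3 true true false .dn 3 1 3
    ndB3q3 ndB4q1 pcB3 Cut.none Ext.none :=
  certB0 (fam := true) (s1 := true) (s2 := false) (a := 3) (b := 1) (c := 3) (cn := .dn) (n1 := ndB3q3) (n2 := ndB4q1) (pc := pcB3) (cut := Cut.none) (xt := Ext.none) (P1 := 1610612736) (W1 := 536870912) (P2 := 536870912) (W2 := 536870912) (P3 := 536870912) (W3 := 50465866) (N0 := 3) (En := eng) (mo := mog) (C1 := cd3q3) (C2 := cd4q1) (C3 := pd3)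
    rfl k0_pm_313

noncomputable def f_mm_001 : ℕ → ℕ → ℕ → ℕ → Bool := onCell 0 536870912 0 536870912 536870912 50465866
    (rowB 3 eng mog cd3q0 cd4q0 pd1 0 true false false .up 0 0 1 (qsf 0 536870912 0 536870912 1) ndB3q0 ndB4q0 pcB1 Cut.none Ext.none)

def k0_mm_001 : ∃ t, chk3 f_mm_001 t 1 1 1 = true :=
  ⟨(l 4), by decide +kernel⟩

theorem c_mm_001 : CertB 0 536870912 0 536870912 536870912 50465866 3 eng mog cd3q0 cd4q0 pd1 true false false .up 0 0 1
    ndB3q0 ndB4q0 pcB1 Cut.none Ext.none :=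
  certB0 (fam := true) (s1 := false) (s2 := false) (a := 0) (b := 0) (c := 1) (cn := .up) (n1 := ndB3q0) (n2 := ndB4q0) (pc := pcB1) (cut := Cut.none) (xt := Ext.none) (P1 := 0) (W1 := 536870912) (P2 := 0) (W2 := 536870912) (P3 := 536870912) (W3 := 50465866) (N0 := 3) (En := eng) (mo := mog) (C1 := cd3q0) (C2 := cd4q0) (C3 := pd1)
    rfl k0_mm_001

noncomputable def f_mm_011 : ℕ → ℕ → ℕ → ℕ → Bool := onCell 0 536870912 536870912 536870912 536870912 50465866
    (rowB 3 eng mog cd3q0 cd4q1 pd1 0 true false false .pnn 0 1 1 (qsf 0 536870912 536870912 536870912 1) ndB3q0 ndB4q1 pcB1 Cut.none Ext.none)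

def k0_mm_011 : ∃ t, chk3 f_mm_011 t 1 1 1 = true :=
  ⟨(l 4), by decide +kernel⟩

theorem c_mm_011 : CertB 0 536870912 536870912 536870912 536870912 50465866 3 eng mog cd3q0 cd4q1 pd1 true false false .pnn 0 1 1
    ndB3q0 ndB4q1 pcB1 Cut.none Ext.none :=
  certB0 (fam := true) (s1 := false) (s2 := false) (a := 0) (b := 1) (c := 1) (cn := .pnn) (n1 := ndB3q0) (n2 := ndB4q1) (pc := pcB1) (cut := Cut.none) (xt := Ext.none) (P1 := 0) (W1 := 536870912) (P2 := 536870912) (W2 := 536870912) (P3 := 536870912) (W3 := 50465866) (N0 := 3) (En := eng) (mo := mog) (C1 := cd3q0) (C2 := cd4q1) (C3 := pd1)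
    rfl k0_mm_011

noncomputable def f_mm_012 : ℕ → ℕ → ℕ → ℕ → Bool := onCell 0 536870912 536870912 536870912 536870912 50465866
    (rowB 3 eng mog cd3q0 cd4q1 pd2 0 true false false .pnp 0 1 2 (qsf 0 536870912 536870912 536870912 2) ndB3q0 ndB4q1 pcB2 Cut.none Ext.none)

def k0_mm_012 : ∃ t, chk3 f_mm_012 t 1 1 1 = true :=
  ⟨(l 4), by decide +kernel⟩

theorem c_mm_012 : CertB 0 536870912 536870912 536870912 536870912 50465866 3 eng mog cd3q0 cd4q1 pd2 true false false .pnp 0 1 2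
    ndB3q0 ndB4q1 pcB2 Cut.none Ext.none :=
  certB0 (fam := true) (s1 := false) (s2 := false) (a := 0) (b := 1) (c := 2) (cn := .pnp) (n1 := ndB3q0) (n2 := ndB4q1) (pc := pcB2) (cut := Cut.none) (xt := Ext.none) (P1 := 0) (W1 := 536870912) (P2 := 536870912) (W2 := 536870912) (P3 := 536870912) (W3 := 50465866) (N0 := 3) (En := eng) (mo := mog) (C1 := cd3q0) (C2 := cd4q1) (C3 := pd2)
    rfl k0_mm_012

noncomputable def f_mm_022 : ℕ → ℕ → ℕ → ℕ → Bool := onCell 0 536870912 1073741824 536870912 536870912 50465866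
    (rowB 3 eng mog cd3q0 cd4q2 pd2 0 true false false .pp 0 2 2 (qsf 0 536870912 1073741824 536870912 2) ndB3q0 ndB4q2 pcB2 Cut.none Ext.none)

def k0_mm_022 : ∃ t, chk3 f_mm_022 t 1 1 1 = true :=
  ⟨(l 4), by decide +kernel⟩

theorem c_mm_022 : CertB 0 536870912 1073741824 536870912 536870912 50465866 3 eng mog cd3q0 cd4q2 pd2 true false false .pp 0 2 2
    ndB3q0 ndB4q2 pcB2 Cut.none Ext.none :=
  certB0 (fam := true) (s1 := false) (s2 := false) (a := 0) (b := 2) (c := 2) (cn := .pp) (n1 := ndB3q0) (n2 := ndB4q2) (pc := pcB2) (cut := Cut.none) (xt := Ext.none) (P1 := 0) (W1 := 536870912) (P2 := 1073741824) (W2 := 536870912) (P3 := 536870912) (W3 := 50465866) (N0 := 3) (En := eng) (mo := mog) (C1 := cd3q0) (C2 := cd4q2) (C3 := pd2)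
    rfl k0_mm_022

noncomputable def f_mm_023 : ℕ → ℕ → ℕ → ℕ → Bool := onCell 0 536870912 1073741824 536870912 536870912 50465866
    (rowB 3 eng mog cd3q0 cd4q2 pd3 0 true false false .up 0 2 3 (qsf 0 536870912 1073741824 536870912 3) ndB3q0 ndB4q2 pcB3 Cut.none Ext.none)

def k0_mm_023 : ∃ t, chk3 f_mm_023 t 1 1 1 = true :=
  ⟨(l 4), by decide +kernel⟩

theorem c_mm_023 : CertB 0 536870912 1073741824 536870912 536870912 50465866 3 eng mog cd3q0 cd4q2 pd3 true false false .up 0 2 3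
    ndB3q0 ndB4q2 pcB3 Cut.none Ext.none :=
  certB0 (fam := true) (s1 := false) (s2 := false) (a := 0) (b := 2) (c := 3) (cn := .up) (n1 := ndB3q0) (n2 := ndB4q2) (pc := pcB3) (cut := Cut.none) (xt := Ext.none) (P1 := 0) (W1 := 536870912) (P2 := 1073741824) (W2 := 536870912) (P3 := 536870912) (W3 := 50465866) (N0 := 3) (En := eng) (mo := mog) (C1 := cd3q0) (C2 := cd4q2) (C3 := pd3)
    rfl k0_mm_023

noncomputable def f_mm_033 : ℕ → ℕ → ℕ → ℕ → Bool := onCell 0 536870912 0 1230186008 536870912 50465866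
    (rowB 3 eng mog cd3q0 cd4q3 pd3 0 true false false .pnn 0 3 3 (qsf 0 536870912 0 1230186008 3) ndB3q0 ndB4q3 pcB3 Cut.none Ext.none)

def k0_mm_033 : ∃ t, chk3 f_mm_033 t 1 1 1 = true :=
  ⟨(l 5), by decide +kernel⟩

theorem c_mm_033 : CertB 0 536870912 0 1230186008 536870912 50465866 3 eng mog cd3q0 cd4q3 pd3 true false false .pnn 0 3 3
    ndB3q0 ndB4q3 pcB3 Cut.none Ext.none :=
  certB0 (fam := true) (s1 := false) (s2 := false) (a := 0) (b := 3) (c := 3) (cn := .pnn) (n1 := ndB3q0) (n2 := ndB4q3) (pc := pcB3) (cut := Cut.none) (xt := Ext.none) (P1 := 0) (W1 := 536870912) (P2 := 0) (W2 := 1230186008) (P3 := 536870912) (W3 := 50465866) (N0 := 3) (En := eng) (mo := mog) (C1 := cd3q0) (C2 := cd4q3) (C3 := pd3)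
    rfl k0_mm_033

noncomputable def f_mm_101 : ℕ → ℕ → ℕ → ℕ → Bool := onCell 536870912 536870912 0 536870912 536870912 50465866
    (rowB 3 eng mog cd3q1 cd4q0 pd1 0 true false false .npn 1 0 1 (qsf 536870912 536870912 0 536870912 1) ndB3q1 ndB4q0 pcB1 Cut.none Ext.none)

def k0_mm_101 : ∃ t, chk3 f_mm_101 t 1 1 1 = true :=
  ⟨(l 4), by decide +kernel⟩

theorem c_mm_101 : CertB 536870912 536870912 0 536870912 536870912 50465866 3 eng mog cd3q1 cd4q0 pd1 true false false .npn 1 0 1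
    ndB3q1 ndB4q0 pcB1 Cut.none Ext.none :=
  certB0 (fam := true) (s1 := false) (s2 := false) (a := 1) (b := 0) (c := 1) (cn := .npn) (n1 := ndB3q1) (n2 := ndB4q0) (pc := pcB1) (cut := Cut.none) (xt := Ext.none) (P1 := 536870912) (W1 := 536870912) (P2 := 0) (W2 := 536870912) (P3 := 536870912) (W3 := 50465866) (N0 := 3) (En := eng) (mo := mog) (C1 := cd3q1) (C2 := cd4q0) (C3 := pd1)
    rfl k0_mm_101

noncomputable def f_mm_102 : ℕ → ℕ → ℕ → ℕ → Bool := onCell 536870912 536870912 0 536870912 536870912 50465866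
    (rowB 3 eng mog cd3q1 cd4q0 pd2 0 true false false .npp 1 0 2 (qsf 536870912 536870912 0 536870912 2) ndB3q1 ndB4q0 pcB2 Cut.none Ext.none)

def k0_mm_102 : ∃ t, chk3 f_mm_102 t 1 1 1 = true :=
  ⟨(l 4), by decide +kernel⟩

theorem c_mm_102 : CertB 536870912 536870912 0 536870912 536870912 50465866 3 eng mog cd3q1 cd4q0 pd2 true false false .npp 1 0 2
    ndB3q1 ndB4q0 pcB2 Cut.none Ext.none :=
  certB0 (fam := true) (s1 := false) (s2 := false) (a := 1) (b := 0) (c := 2) (cn := .npp) (n1 := ndB3q1) (n2 := ndB4q0) (pc := pcB2) (cut := Cut.none) (xt := Ext.none) (P1 := 536870912) (W1 := 536870912) (P2 := 0) (W2 := 536870912) (P3 := 536870912) (W3 := 50465866) (N0 := 3) (En := eng) (mo := mog) (C1 := cd3q1) (C2 := cd4q0) (C3 := pd2)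
    rfl k0_mm_102

noncomputable def f_mm_112 : ℕ → ℕ → ℕ → ℕ → Bool := onCell 536870912 536870912 536870912 536870912 536870912 50465866
    (rowB 3 eng mog cd3q1 cd4q1 pd2 0 true false false .dn 1 1 2 (qsf 536870912 536870912 536870912 536870912 2) ndB3q1 ndB4q1 pcB2 Cut.none Ext.none)

def k0_mm_112 : ∃ t, chk3 f_mm_112 t 1 1 1 = true :=
  ⟨(l 4), by decide +kernel⟩

theorem c_mm_112 : CertB 536870912 536870912 536870912 536870912 536870912 50465866 3 eng mog cd3q1 cd4q1 pd2 true false false .dn 1 1 2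
    ndB3q1 ndB4q1 pcB2 Cut.none Ext.none :=
  certB0 (fam := true) (s1 := false) (s2 := false) (a := 1) (b := 1) (c := 2) (cn := .dn) (n1 := ndB3q1) (n2 := ndB4q1) (pc := pcB2) (cut := Cut.none) (xt := Ext.none) (P1 := 536870912) (W1 := 536870912) (P2 := 536870912) (W2 := 536870912) (P3 := 536870912) (W3 := 50465866) (N0 := 3) (En := eng) (mo := mog) (C1 := cd3q1) (C2 := cd4q1) (C3 := pd2)
    rfl k0_mm_112

noncomputable def f_mm_113 : ℕ → ℕ → ℕ → ℕ → Bool := onCell 536870912 536870912 536870912 536870912 536870912 50465866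
    (rowB 3 eng mog cd3q1 cd4q1 pd3 0 true false false .nn 1 1 3 (qsf 536870912 536870912 536870912 536870912 3) ndB3q1 ndB4q1 pcB3 Cut.none Ext.none)

def k0_mm_113 : ∃ t, chk3 f_mm_113 t 1 1 1 = true :=
  ⟨(l 4), by decide +kernel⟩

theorem c_mm_113 : CertB 536870912 536870912 536870912 536870912 536870912 50465866 3 eng mog cd3q1 cd4q1 pd3 true false false .nn 1 1 3
    ndB3q1 ndB4q1 pcB3 Cut.none Ext.none :=
  certB0 (fam := true) (s1 := false) (s2 := false) (a := 1) (b := 1) (c := 3) (cn := .nn) (n1 := ndB3q1) (n2 := ndB4q1) (pc := pcB3) (cut := Cut.none) (xt := Ext.none) (P1 := 536870912) (W1 := 536870912) (P2 := 536870912) (W2 := 536870912) (P3 := 536870912) (W3 := 50465866) (N0 := 3) (En := eng) (mo := mog) (C1 := cd3q1) (C2 := cd4q1) (C3 := pd3)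
    rfl k0_mm_113

noncomputable def f_mm_123 : ℕ → ℕ → ℕ → ℕ → Bool := onCell 536870912 536870912 1073741824 536870912 536870912 50465866
    (rowB 3 eng mog cd3q1 cd4q2 pd3 0 true false false .npn 1 2 3 (qsf 536870912 536870912 1073741824 536870912 3) ndB3q1 ndB4q2 pcB3 Cut.none Ext.none)

def k0_mm_123 : ∃ t, chk3 f_mm_123 t 1 1 1 = true :=
  ⟨(l 4), by decide +kernel⟩

theorem c_mm_123 : CertB 536870912 536870912 1073741824 536870912 536870912 50465866 3 eng mog cd3q1 cd4q2 pd3 true false false .npn 1 2 3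
    ndB3q1 ndB4q2 pcB3 Cut.none Ext.none :=
  certB0 (fam := true) (s1 := false) (s2 := false) (a := 1) (b := 2) (c := 3) (cn := .npn) (n1 := ndB3q1) (n2 := ndB4q2) (pc := pcB3) (cut := Cut.none) (xt := Ext.none) (P1 := 536870912) (W1 := 536870912) (P2 := 1073741824) (W2 := 536870912) (P3 := 536870912) (W3 := 50465866) (N0 := 3) (En := eng) (mo := mog) (C1 := cd3q1) (C2 := cd4q2) (C3 := pd3)
    rfl k0_mm_123

noncomputable def f_mm_133 : ℕ → ℕ → ℕ → ℕ → Bool := onCell 536870912 536870912 0 1230186008 536870912 50465866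
    (rowB 3 eng mog cd3q1 cd4q3 pd3 0 true false false .dn 1 3 3 (qsf 536870912 536870912 0 1230186008 3) ndB3q1 ndB4q3 pcB3 Cut.none Ext.none)

def k0_mm_133 : ∃ t, chk3 f_mm_133 t 1 1 1 = true :=
  ⟨(l 4), by decide +kernel⟩

theorem c_mm_133 : CertB 536870912 536870912 0 1230186008 536870912 50465866 3 eng mog cd3q1 cd4q3 pd3 true false false .dn 1 3 3
    ndB3q1 ndB4q3 pcB3 Cut.none Ext.none :=
  certB0 (fam := true) (s1 := false) (s2 := false) (a := 1) (b := 3) (c := 3) (cn := .dn) (n1 := ndB3q1) (n2 := ndB4q3) (pc := pcB3) (cut := Cut.none) (xt := Ext.none) (P1 := 536870912) (W1 := 536870912) (P2 := 0) (W2 := 1230186008) (P3 := 536870912) (W3 := 50465866) (N0 := 3) (En := eng) (mo := mog) (C1 := cd3q1) (C2 := cd4q3) (C3 := pd3)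
    rfl k0_mm_133

noncomputable def f_mm_202_a : ℕ → ℕ → ℕ → ℕ → Bool := onCell 0 536870912 0 536870912 536870912 50465866
    (rowB 3 eng mog cd3q2a cd4q0 pd2 0 true false false .pp 2 0 2 (qsf 0 536870912 0 536870912 2) ndB3q2a ndB4q0 pcB2 Cut.none Ext.none)

def k0_mm_202_a : ∃ t, chk3 f_mm_202_a t 1 1 1 = true :=
  ⟨(l 4), by decide +kernel⟩

theorem c_mm_202_a : CertB 0 536870912 0 536870912 536870912 50465866 3 eng mog cd3q2a cd4q0 pd2 true false false .pp 2 0 2
    ndB3q2a ndB4q0 pcB2 Cut.none Ext.none :=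
  certB0 (fam := true) (s1 := false) (s2 := false) (a := 2) (b := 0) (c := 2) (cn := .pp) (n1 := ndB3q2a) (n2 := ndB4q0) (pc := pcB2) (cut := Cut.none) (xt := Ext.none) (P1 := 0) (W1 := 536870912) (P2 := 0) (W2 := 536870912) (P3 := 536870912) (W3 := 50465866) (N0 := 3) (En := eng) (mo := mog) (C1 := cd3q2a) (C2 := cd4q0) (C3 := pd2)
    rfl k0_mm_202_a

noncomputable def f_mm_202_b : ℕ → ℕ → ℕ → ℕ → Bool := onCell 1239849684 370763052 0 536870912 536870912 50465866
    (rowB 3 eng mog cd3q2b cd4q0 pd2 0 true false false .pp 2 0 2 (qsf 1239849684 370763052 0 536870912 2) ndB3q2b ndB4q0 pcB2 Cut.none Ext.none)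

def k0_mm_202_b : ∃ t, chk3 f_mm_202_b t 1 1 1 = true :=
  ⟨(l 4), by decide +kernel⟩

theorem c_mm_202_b : CertB 1239849684 370763052 0 536870912 536870912 50465866 3 eng mog cd3q2b cd4q0 pd2 true false false .pp 2 0 2
    ndB3q2b ndB4q0 pcB2 Cut.none Ext.none :=
  certB0 (fam := true) (s1 := false) (s2 := false) (a := 2) (b := 0) (c := 2) (cn := .pp) (n1 := ndB3q2b) (n2 := ndB4q0) (pc := pcB2) (cut := Cut.none) (xt := Ext.none) (P1 := 1239849684) (W1 := 370763052) (P2 := 0) (W2 := 536870912) (P3 := 536870912) (W3 := 50465866) (N0 := 3) (En := eng) (mo := mog) (C1 := cd3q2b) (C2 := cd4q0) (C3 := pd2)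
    rfl k0_mm_202_b

noncomputable def f_mm_203_a : ℕ → ℕ → ℕ → ℕ → Bool := onCell 0 536870912 0 536870912 536870912 50465866
    (rowB 3 eng mog cd3q2a cd4q0 pd3 0 true false false .up 2 0 3 (qsf 0 536870912 0 536870912 3) ndB3q2a ndB4q0 pcB3 Cut.none Ext.none)

def k0_mm_203_a : ∃ t, chk3 f_mm_203_a t 1 1 1 = true :=
  ⟨(l 4), by decide +kernel⟩

theorem c_mm_203_a : CertB 0 536870912 0 536870912 536870912 50465866 3 eng mog cd3q2a cd4q0 pd3 true false false .up 2 0 3
    ndB3q2a ndB4q0 pcB3 Cut.none Ext.none :=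
  certB0 (fam := true) (s1 := false) (s2 := false) (a := 2) (b := 0) (c := 3) (cn := .up) (n1 := ndB3q2a) (n2 := ndB4q0) (pc := pcB3) (cut := Cut.none) (xt := Ext.none) (P1 := 0) (W1 := 536870912) (P2 := 0) (W2 := 536870912) (P3 := 536870912) (W3 := 50465866) (N0 := 3) (En := eng) (mo := mog) (C1 := cd3q2a) (C2 := cd4q0) (C3 := pd3)
    rfl k0_mm_203_a

noncomputable def f_mm_203_b : ℕ → ℕ → ℕ → ℕ → Bool := onCell 1239849684 370763052 0 536870912 536870912 50465866
    (rowB 3 eng mog cd3q2b cd4q0 pd3 0 true false false .up 2 0 3 (qsf 1239849684 370763052 0 536870912 3) ndB3q2b ndB4q0 pcB3 Cut.none Ext.none)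

def k0_mm_203_b : ∃ t, chk3 f_mm_203_b t 1 1 1 = true :=
  ⟨(l 4), by decide +kernel⟩

theorem c_mm_203_b : CertB 1239849684 370763052 0 536870912 536870912 50465866 3 eng mog cd3q2b cd4q0 pd3 true false false .up 2 0 3
    ndB3q2b ndB4q0 pcB3 Cut.none Ext.none :=
  certB0 (fam := true) (s1 := false) (s2 := false) (a := 2) (b := 0) (c := 3) (cn := .up) (n1 := ndB3q2b) (n2 := ndB4q0) (pc := pcB3) (cut := Cut.none) (xt := Ext.none) (P1 := 1239849684) (W1 := 370763052) (P2 := 0) (W2 := 536870912) (P3 := 536870912) (W3 := 50465866) (N0 := 3) (En := eng) (mo := mog) (C1 := cd3q2b) (C2 := cd4q0) (C3 := pd3)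
    rfl k0_mm_203_b

noncomputable def f_mm_213_a : ℕ → ℕ → ℕ → ℕ → Bool := onCell 0 536870912 536870912 536870912 536870912 50465866
    (rowB 3 eng mog cd3q2a cd4q1 pd3 0 true false false .pnn 2 1 3 (qsf 0 536870912 536870912 536870912 3) ndB3q2a ndB4q1 pcB3 Cut.none Ext.none)

def k0_mm_213_a : ∃ t, chk3 f_mm_213_a t 1 1 1 = true :=
  ⟨(l 4), by decide +kernel⟩

theorem c_mm_213_a : CertB 0 536870912 536870912 536870912 536870912 50465866 3 eng mog cd3q2a cd4q1 pd3 true false false .pnn 2 1 3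
    ndB3q2a ndB4q1 pcB3 Cut.none Ext.none :=
  certB0 (fam := true) (s1 := false) (s2 := false) (a := 2) (b := 1) (c := 3) (cn := .pnn) (n1 := ndB3q2a) (n2 := ndB4q1) (pc := pcB3) (cut := Cut.none) (xt := Ext.none) (P1 := 0) (W1 := 536870912) (P2 := 536870912) (W2 := 536870912) (P3 := 536870912) (W3 := 50465866) (N0 := 3) (En := eng) (mo := mog) (C1 := cd3q2a) (C2 := cd4q1) (C3 := pd3)
    rfl k0_mm_213_a

noncomputable def f_mm_213_b : ℕ → ℕ → ℕ → ℕ → Bool := onCell 1239849684 370763052 536870912 536870912 536870912 50465866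
    (rowB 3 eng mog cd3q2b cd4q1 pd3 0 true false false .pnn 2 1 3 (qsf 1239849684 370763052 536870912 536870912 3) ndB3q2b ndB4q1 pcB3 Cut.none Ext.none)

def k0_mm_213_b : ∃ t, chk3 f_mm_213_b t 1 1 1 = true :=
  ⟨(l 4), by decide +kernel⟩

theorem c_mm_213_b : CertB 1239849684 370763052 536870912 536870912 536870912 50465866 3 eng mog cd3q2b cd4q1 pd3 true false false .pnn 2 1 3
    ndB3q2b ndB4q1 pcB3 Cut.none Ext.none :=
  certB0 (fam := true) (s1 := false) (s2 := false) (a := 2) (b := 1) (c := 3) (cn := .pnn) (n1 := ndB3q2b) (n2 := ndB4q1) (pc := pcB3) (cut := Cut.none) (xt := Ext.none) (P1 := 1239849684) (W1 := 370763052) (P2 := 536870912) (W2 := 536870912) (P3 := 536870912) (W3 := 50465866) (N0 := 3) (En := eng) (mo := mog) (C1 := cd3q2b) (C2 := cd4q1) (C3 := pd3)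
    rfl k0_mm_213_b

noncomputable def f_mm_303 : ℕ → ℕ → ℕ → ℕ → Bool := onCell 1610612736 536870912 0 536870912 536870912 50465866
    (rowB 3 eng mog cd3q3 cd4q0 pd3 0 true false false .npn 3 0 3 (qsf 1610612736 536870912 0 536870912 3) ndB3q3 ndB4q0 pcB3 Cut.none Ext.none)

def k0_mm_303 : ∃ t, chk3 f_mm_303 t 1 1 1 = true :=
  ⟨(l 4), by decide +kernel⟩

theorem c_mm_303 : CertB 1610612736 536870912 0 536870912 536870912 50465866 3 eng mog cd3q3 cd4q0 pd3 true false false .npn 3 0 3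
    ndB3q3 ndB4q0 pcB3 Cut.none Ext.none :=
  certB0 (fam := true) (s1 := false) (s2 := false) (a := 3) (b := 0) (c := 3) (cn := .npn) (n1 := ndB3q3) (n2 := ndB4q0) (pc := pcB3) (cut := Cut.none) (xt := Ext.none) (P1 := 1610612736) (W1 := 536870912) (P2 := 0) (W2 := 536870912) (P3 := 536870912) (W3 := 50465866) (N0 := 3) (En := eng) (mo := mog) (C1 := cd3q3) (C2 := cd4q0) (C3 := pd3)
    rfl k0_mm_303

noncomputable def f_mm_313 : ℕ → ℕ → ℕ → ℕ → Bool := onCell 1610612736 536870912 536870912 536870912 536870912 50465866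
    (rowB 3 eng mog cd3q3 cd4q1 pd3 0 true false false .dn 3 1 3 (qsf 1610612736 536870912 536870912 536870912 3) ndB3q3 ndB4q1 pcB3 Cut.none Ext.none)

def k0_mm_313 : ∃ t, chk3 f_mm_313 t 1 1 1 = true :=
  ⟨(l 4), by decide +kernel⟩

theorem c_mm_313 : CertB 1610612736 536870912 536870912 536870912 536870912 50465866 3 eng mog cd3q3 cd4q1 pd3 true false false .dn 3 1 3
    ndB3q3 ndB4q1 pcB3 Cut.none Ext.none :=
  certB0 (fam := true) (s1 := false) (s2 := false) (a := 3) (b := 1) (c := 3) (cn := .dn) (n1 := ndB3q3) (n2 := ndB4q1) (pc := pcB3) (cut := Cut.none) (xt := Ext.none) (P1 := 1610612736) (W1 := 536870912) (P2 := 536870912) (W2 := 536870912) (P3 := 536870912) (W3 := 50465866) (N0 := 3) (En := eng) (mo := mog) (C1 := cd3q3) (C2 := cd4q1) (C3 := pd3)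
    rfl k0_mm_313

end Pool.Agent.Strip051.G.I5000_5470.Tab.C.BA34

namespace Pool.Agent.Strip051.G.I5000_5470.Tab.C.BA35

open Pool.Agent.Strip051.PB Pool.Agent.Strip051.PB.T
open Pool.Agent.Strip051.G.I5000_5470.Tab

noncomputable def f_pp_001 : ℕ → ℕ → ℕ → ℕ → Bool := onCell 0 536870912 0 536870912 536870912 50465866
    (rowB 3 eng mog cd3q0 cd5q0 pd1 0 true true true .up 0 0 1 (qsf 0 536870912 0 536870912 1) ndB3q0 ndB5q0 pcB1 Cut.none Ext.none)

def k0_pp_001 : ∃ t, chk3 f_pp_001 t 1 1 1 = true :=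
  ⟨(l 4), by decide +kernel⟩

theorem c_pp_001 : CertB 0 536870912 0 536870912 536870912 50465866 3 eng mog cd3q0 cd5q0 pd1 true true true .up 0 0 1
    ndB3q0 ndB5q0 pcB1 Cut.none Ext.none :=
  certB0 (fam := true) (s1 := true) (s2 := true) (a := 0) (b := 0) (c := 1) (cn := .up) (n1 := ndB3q0) (n2 := ndB5q0) (pc := pcB1) (cut := Cut.none) (xt := Ext.none) (P1 := 0) (W1 := 536870912) (P2 := 0) (W2 := 536870912) (P3 := 536870912) (W3 := 50465866) (N0 := 3) (En := eng) (mo := mog) (C1 := cd3q0) (C2 := cd5q0) (C3 := pd1)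
    rfl k0_pp_001

noncomputable def f_pp_011 : ℕ → ℕ → ℕ → ℕ → Bool := onCell 0 536870912 536870912 536870912 536870912 50465866
    (rowB 3 eng mog cd3q0 cd5q1 pd1 0 true true true .pnn 0 1 1 (qsf 0 536870912 536870912 536870912 1) ndB3q0 ndB5q1 pcB1 Cut.none Ext.none)

def k0_pp_011 : ∃ t, chk3 f_pp_011 t 1 1 1 = true :=
  ⟨(l 4), by decide +kernel⟩

theorem c_pp_011 : CertB 0 536870912 536870912 536870912 536870912 50465866 3 eng mog cd3q0 cd5q1 pd1 true true true .pnn 0 1 1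
    ndB3q0 ndB5q1 pcB1 Cut.none Ext.none :=
  certB0 (fam := true) (s1 := true) (s2 := true) (a := 0) (b := 1) (c := 1) (cn := .pnn) (n1 := ndB3q0) (n2 := ndB5q1) (pc := pcB1) (cut := Cut.none) (xt := Ext.none) (P1 := 0) (W1 := 536870912) (P2 := 536870912) (W2 := 536870912) (P3 := 536870912) (W3 := 50465866) (N0 := 3) (En := eng) (mo := mog) (C1 := cd3q0) (C2 := cd5q1) (C3 := pd1)
    rfl k0_pp_011

noncomputable def f_pp_012 : ℕ → ℕ → ℕ → ℕ → Bool := onCell 0 536870912 536870912 536870912 536870912 50465866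
    (rowB 3 eng mog cd3q0 cd5q1 pd2 0 true true true .pnp 0 1 2 (qsf 0 536870912 536870912 536870912 2) ndB3q0 ndB5q1 pcB2 Cut.none Ext.none)

def k0_pp_012 : ∃ t, chk3 f_pp_012 t 1 1 1 = true :=
  ⟨(l 4), by decide +kernel⟩

theorem c_pp_012 : CertB 0 536870912 536870912 536870912 536870912 50465866 3 eng mog cd3q0 cd5q1 pd2 true true true .pnp 0 1 2
    ndB3q0 ndB5q1 pcB2 Cut.none Ext.none :=
  certB0 (fam := true) (s1 := true) (s2 := true) (a := 0) (b := 1) (c := 2) (cn := .pnp) (n1 := ndB3q0) (n2 := ndB5q1) (pc := pcB2) (cut := Cut.none) (xt := Ext.none) (P1 := 0) (W1 := 536870912) (P2 := 536870912) (W2 := 536870912) (P3 := 536870912) (W3 := 50465866) (N0 := 3) (En := eng) (mo := mog) (C1 := cd3q0) (C2 := cd5q1) (C3 := pd2)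
    rfl k0_pp_012

noncomputable def f_pp_022 : ℕ → ℕ → ℕ → ℕ → Bool := onCell 0 536870912 1073741824 536870912 536870912 50465866
    (rowB 3 eng mog cd3q0 cd5q2 pd2 0 true true true .pp 0 2 2 (qsf 0 536870912 1073741824 536870912 2) ndB3q0 ndB5q2 pcB2 Cut.none Ext.none)

def k0_pp_022 : ∃ t, chk3 f_pp_022 t 1 1 1 = true :=
  ⟨(l 4), by decide +kernel⟩

theorem c_pp_022 : CertB 0 536870912 1073741824 536870912 536870912 50465866 3 eng mog cd3q0 cd5q2 pd2 true true true .pp 0 2 2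
    ndB3q0 ndB5q2 pcB2 Cut.none Ext.none :=
  certB0 (fam := true) (s1 := true) (s2 := true) (a := 0) (b := 2) (c := 2) (cn := .pp) (n1 := ndB3q0) (n2 := ndB5q2) (pc := pcB2) (cut := Cut.none) (xt := Ext.none) (P1 := 0) (W1 := 536870912) (P2 := 1073741824) (W2 := 536870912) (P3 := 536870912) (W3 := 50465866) (N0 := 3) (En := eng) (mo := mog) (C1 := cd3q0) (C2 := cd5q2) (C3 := pd2)
    rfl k0_pp_022

noncomputable def f_pp_023 : ℕ → ℕ → ℕ → ℕ → Bool := onCell 0 536870912 1073741824 536870912 536870912 50465866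
    (rowB 3 eng mog cd3q0 cd5q2 pd3 0 true true true .up 0 2 3 (qsf 0 536870912 1073741824 536870912 3) ndB3q0 ndB5q2 pcB3 Cut.none Ext.none)

def k0_pp_023 : ∃ t, chk3 f_pp_023 t 1 1 1 = true :=
  ⟨(l 4), by decide +kernel⟩

theorem c_pp_023 : CertB 0 536870912 1073741824 536870912 536870912 50465866 3 eng mog cd3q0 cd5q2 pd3 true true true .up 0 2 3
    ndB3q0 ndB5q2 pcB3 Cut.none Ext.none :=
  certB0 (fam := true) (s1 := true) (s2 := true) (a := 0) (b := 2) (c := 3) (cn := .up) (n1 := ndB3q0) (n2 := ndB5q2) (pc := pcB3) (cut := Cut.none) (xt := Ext.none) (P1 := 0) (W1 := 536870912) (P2 := 1073741824) (W2 := 536870912) (P3 := 536870912) (W3 := 50465866) (N0 := 3) (En := eng) (mo := mog) (C1 := cd3q0) (C2 := cd5q2) (C3 := pd3)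
    rfl k0_pp_023

noncomputable def f_pp_033 : ℕ → ℕ → ℕ → ℕ → Bool := onCell 0 536870912 0 1230186008 536870912 50465866
    (rowB 3 eng mog cd3q0 cd5q3 pd3 0 true true true .pnn 0 3 3 (qsf 0 536870912 0 1230186008 3) ndB3q0 ndB5q3 pcB3 Cut.none Ext.none)

def k0_pp_033 : ∃ t, chk3 f_pp_033 t 1 1 1 = true :=
  ⟨(b (l 4) (l 4)), by decide +kernel⟩

theorem c_pp_033 : CertB 0 536870912 0 1230186008 536870912 50465866 3 eng mog cd3q0 cd5q3 pd3 true true true .pnn 0 3 3
    ndB3q0 ndB5q3 pcB3 Cut.none Ext.none :=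
  certB0 (fam := true) (s1 := true) (s2 := true) (a := 0) (b := 3) (c := 3) (cn := .pnn) (n1 := ndB3q0) (n2 := ndB5q3) (pc := pcB3) (cut := Cut.none) (xt := Ext.none) (P1 := 0) (W1 := 536870912) (P2 := 0) (W2 := 1230186008) (P3 := 536870912) (W3 := 50465866) (N0 := 3) (En := eng) (mo := mog) (C1 := cd3q0) (C2 := cd5q3) (C3 := pd3)
    rfl k0_pp_033

noncomputable def f_pp_101 : ℕ → ℕ → ℕ → ℕ → Bool := onCell 536870912 536870912 0 536870912 536870912 50465866
    (rowB 3 eng mog cd3q1 cd5q0 pd1 0 true true true .npn 1 0 1 (qsf 536870912 536870912 0 536870912 1) ndB3q1 ndB5q0 pcB1 Cut.none Ext.none)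

def k0_pp_101 : ∃ t, chk3 f_pp_101 t 1 1 1 = true :=
  ⟨(l 4), by decide +kernel⟩

theorem c_pp_101 : CertB 536870912 536870912 0 536870912 536870912 50465866 3 eng mog cd3q1 cd5q0 pd1 true true true .npn 1 0 1
    ndB3q1 ndB5q0 pcB1 Cut.none Ext.none :=
  certB0 (fam := true) (s1 := true) (s2 := true) (a := 1) (b := 0) (c := 1) (cn := .npn) (n1 := ndB3q1) (n2 := ndB5q0) (pc := pcB1) (cut := Cut.none) (xt := Ext.none) (P1 := 536870912) (W1 := 536870912) (P2 := 0) (W2 := 536870912) (P3 := 536870912) (W3 := 50465866) (N0 := 3) (En := eng) (mo := mog) (C1 := cd3q1) (C2 := cd5q0) (C3 := pd1)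
    rfl k0_pp_101

noncomputable def f_pp_102 : ℕ → ℕ → ℕ → ℕ → Bool := onCell 536870912 536870912 0 536870912 536870912 50465866
    (rowB 3 eng mog cd3q1 cd5q0 pd2 0 true true true .npp 1 0 2 (qsf 536870912 536870912 0 536870912 2) ndB3q1 ndB5q0 pcB2 Cut.none Ext.none)

def k0_pp_102 : ∃ t, chk3 f_pp_102 t 1 1 1 = true :=
  ⟨(l 4), by decide +kernel⟩

theorem c_pp_102 : CertB 536870912 536870912 0 536870912 536870912 50465866 3 eng mog cd3q1 cd5q0 pd2 true true true .npp 1 0 2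
    ndB3q1 ndB5q0 pcB2 Cut.none Ext.none :=
  certB0 (fam := true) (s1 := true) (s2 := true) (a := 1) (b := 0) (c := 2) (cn := .npp) (n1 := ndB3q1) (n2 := ndB5q0) (pc := pcB2) (cut := Cut.none) (xt := Ext.none) (P1 := 536870912) (W1 := 536870912) (P2 := 0) (W2 := 536870912) (P3 := 536870912) (W3 := 50465866) (N0 := 3) (En := eng) (mo := mog) (C1 := cd3q1) (C2 := cd5q0) (C3 := pd2)
    rfl k0_pp_102

noncomputable def f_pp_112 : ℕ → ℕ → ℕ → ℕ → Bool := onCell 536870912 536870912 536870912 536870912 536870912 50465866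
    (rowB 3 eng mog cd3q1 cd5q1 pd2 0 true true true .dn 1 1 2 (qsf 536870912 536870912 536870912 536870912 2) ndB3q1 ndB5q1 pcB2 Cut.none Ext.none)

def k0_pp_112 : ∃ t, chk3 f_pp_112 t 1 1 1 = true :=
  ⟨(l 4), by decide +kernel⟩

theorem c_pp_112 : CertB 536870912 536870912 536870912 536870912 536870912 50465866 3 eng mog cd3q1 cd5q1 pd2 true true true .dn 1 1 2
    ndB3q1 ndB5q1 pcB2 Cut.none Ext.none :=
  certB0 (fam := true) (s1 := true) (s2 := true) (a := 1) (b := 1) (c := 2) (cn := .dn) (n1 := ndB3q1) (n2 := ndB5q1) (pc := pcB2) (cut := Cut.none) (xt := Ext.none) (P1 := 536870912) (W1 := 536870912) (P2 := 536870912) (W2 := 536870912) (P3 := 536870912) (W3 := 50465866) (N0 := 3) (En := eng) (mo := mog) (C1 := cd3q1) (C2 := cd5q1) (C3 := pd2)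
    rfl k0_pp_112

noncomputable def f_pp_113 : ℕ → ℕ → ℕ → ℕ → Bool := onCell 536870912 536870912 536870912 536870912 536870912 50465866
    (rowB 3 eng mog cd3q1 cd5q1 pd3 0 true true true .nn 1 1 3 (qsf 536870912 536870912 536870912 536870912 3) ndB3q1 ndB5q1 pcB3 Cut.none Ext.none)

def k0_pp_113 : ∃ t, chk3 f_pp_113 t 1 1 1 = true :=
  ⟨(l 4), by decide +kernel⟩

theorem c_pp_113 : CertB 536870912 536870912 536870912 536870912 536870912 50465866 3 eng mog cd3q1 cd5q1 pd3 true true true .nn 1 1 3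
    ndB3q1 ndB5q1 pcB3 Cut.none Ext.none :=
  certB0 (fam := true) (s1 := true) (s2 := true) (a := 1) (b := 1) (c := 3) (cn := .nn) (n1 := ndB3q1) (n2 := ndB5q1) (pc := pcB3) (cut := Cut.none) (xt := Ext.none) (P1 := 536870912) (W1 := 536870912) (P2 := 536870912) (W2 := 536870912) (P3 := 536870912) (W3 := 50465866) (N0 := 3) (En := eng) (mo := mog) (C1 := cd3q1) (C2 := cd5q1) (C3 := pd3)
    rfl k0_pp_113

noncomputable def f_pp_123 : ℕ → ℕ → ℕ → ℕ → Bool := onCell 536870912 536870912 1073741824 536870912 536870912 50465866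
    (rowB 3 eng mog cd3q1 cd5q2 pd3 0 true true true .npn 1 2 3 (qsf 536870912 536870912 1073741824 536870912 3) ndB3q1 ndB5q2 pcB3 Cut.none Ext.none)

def k0_pp_123 : ∃ t, chk3 f_pp_123 t 1 1 1 = true :=
  ⟨(l 4), by decide +kernel⟩

theorem c_pp_123 : CertB 536870912 536870912 1073741824 536870912 536870912 50465866 3 eng mog cd3q1 cd5q2 pd3 true true true .npn 1 2 3
    ndB3q1 ndB5q2 pcB3 Cut.none Ext.none :=
  certB0 (fam := true) (s1 := true) (s2 := true) (a := 1) (b := 2) (c := 3) (cn := .npn) (n1 := ndB3q1) (n2 := ndB5q2) (pc := pcB3) (cut := Cut.none) (xt := Ext.none) (P1 := 536870912) (W1 := 536870912) (P2 := 1073741824) (W2 := 536870912) (P3 := 536870912) (W3 := 50465866) (N0 := 3) (En := eng) (mo := mog) (C1 := cd3q1) (C2 := cd5q2) (C3 := pd3)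
    rfl k0_pp_123

noncomputable def f_pp_133 : ℕ → ℕ → ℕ → ℕ → Bool := onCell 536870912 536870912 0 1230186008 536870912 50465866
    (rowB 3 eng mog cd3q1 cd5q3 pd3 0 true true true .dn 1 3 3 (qsf 536870912 536870912 0 1230186008 3) ndB3q1 ndB5q3 pcB3 Cut.none Ext.none)

def k0_pp_133 : ∃ t, chk3 f_pp_133 t 1 1 1 = true :=
  ⟨(l 4), by decide +kernel⟩

theorem c_pp_133 : CertB 536870912 536870912 0 1230186008 536870912 50465866 3 eng mog cd3q1 cd5q3 pd3 true true true .dn 1 3 3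
    ndB3q1 ndB5q3 pcB3 Cut.none Ext.none :=
  certB0 (fam := true) (s1 := true) (s2 := true) (a := 1) (b := 3) (c := 3) (cn := .dn) (n1 := ndB3q1) (n2 := ndB5q3) (pc := pcB3) (cut := Cut.none) (xt := Ext.none) (P1 := 536870912) (W1 := 536870912) (P2 := 0) (W2 := 1230186008) (P3 := 536870912) (W3 := 50465866) (N0 := 3) (En := eng) (mo := mog) (C1 := cd3q1) (C2 := cd5q3) (C3 := pd3)
    rfl k0_pp_133

noncomputable def f_pp_202_a : ℕ → ℕ → ℕ → ℕ → Bool := onCell 0 536870912 0 536870912 536870912 50465866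
    (rowB 3 eng mog cd3q2a cd5q0 pd2 0 true true true .pp 2 0 2 (qsf 0 536870912 0 536870912 2) ndB3q2a ndB5q0 pcB2 Cut.none Ext.none)

def k0_pp_202_a : ∃ t, chk3 f_pp_202_a t 1 1 1 = true :=
  ⟨(l 4), by decide +kernel⟩

theorem c_pp_202_a : CertB 0 536870912 0 536870912 536870912 50465866 3 eng mog cd3q2a cd5q0 pd2 true true true .pp 2 0 2
    ndB3q2a ndB5q0 pcB2 Cut.none Ext.none :=
  certB0 (fam := true) (s1 := true) (s2 := true) (a := 2) (b := 0) (c := 2) (cn := .pp) (n1 := ndB3q2a) (n2 := ndB5q0) (pc := pcB2) (cut := Cut.none) (xt := Ext.none) (P1 := 0) (W1 := 536870912) (P2 := 0) (W2 := 536870912) (P3 := 536870912) (W3 := 50465866) (N0 := 3) (En := eng) (mo := mog) (C1 := cd3q2a) (C2 := cd5q0) (C3 := pd2)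
    rfl k0_pp_202_a

noncomputable def f_pp_202_b : ℕ → ℕ → ℕ → ℕ → Bool := onCell 1239849684 370763052 0 536870912 536870912 50465866
    (rowB 3 eng mog cd3q2b cd5q0 pd2 0 true true true .pp 2 0 2 (qsf 1239849684 370763052 0 536870912 2) ndB3q2b ndB5q0 pcB2 Cut.none Ext.none)

def k0_pp_202_b : ∃ t, chk3 f_pp_202_b t 1 1 1 = true :=
  ⟨(l 4), by decide +kernel⟩

theorem c_pp_202_b : CertB 1239849684 370763052 0 536870912 536870912 50465866 3 eng mog cd3q2b cd5q0 pd2 true true true .pp 2 0 2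
    ndB3q2b ndB5q0 pcB2 Cut.none Ext.none :=
  certB0 (fam := true) (s1 := true) (s2 := true) (a := 2) (b := 0) (c := 2) (cn := .pp) (n1 := ndB3q2b) (n2 := ndB5q0) (pc := pcB2) (cut := Cut.none) (xt := Ext.none) (P1 := 1239849684) (W1 := 370763052) (P2 := 0) (W2 := 536870912) (P3 := 536870912) (W3 := 50465866) (N0 := 3) (En := eng) (mo := mog) (C1 := cd3q2b) (C2 := cd5q0) (C3 := pd2)
    rfl k0_pp_202_b

noncomputable def f_pp_203_a : ℕ → ℕ → ℕ → ℕ → Bool := onCell 0 536870912 0 536870912 536870912 50465866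
    (rowB 3 eng mog cd3q2a cd5q0 pd3 0 true true true .up 2 0 3 (qsf 0 536870912 0 536870912 3) ndB3q2a ndB5q0 pcB3 Cut.none Ext.none)

def k0_pp_203_a : ∃ t, chk3 f_pp_203_a t 1 1 1 = true :=
  ⟨(l 4), by decide +kernel⟩

theorem c_pp_203_a : CertB 0 536870912 0 536870912 536870912 50465866 3 eng mog cd3q2a cd5q0 pd3 true true true .up 2 0 3
    ndB3q2a ndB5q0 pcB3 Cut.none Ext.none :=
  certB0 (fam := true) (s1 := true) (s2 := true) (a := 2) (b := 0) (c := 3) (cn := .up) (n1 := ndB3q2a) (n2 := ndB5q0) (pc := pcB3) (cut := Cut.none) (xt := Ext.none) (P1 := 0) (W1 := 536870912) (P2 := 0) (W2 := 536870912) (P3 := 536870912) (W3 := 50465866) (N0 := 3) (En := eng) (mo := mog) (C1 := cd3q2a) (C2 := cd5q0) (C3 := pd3)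
    rfl k0_pp_203_a

noncomputable def f_pp_203_b : ℕ → ℕ → ℕ → ℕ → Bool := onCell 1239849684 370763052 0 536870912 536870912 50465866
    (rowB 3 eng mog cd3q2b cd5q0 pd3 0 true true true .up 2 0 3 (qsf 1239849684 370763052 0 536870912 3) ndB3q2b ndB5q0 pcB3 Cut.none Ext.none)

def k0_pp_203_b : ∃ t, chk3 f_pp_203_b t 1 1 1 = true :=
  ⟨(l 4), by decide +kernel⟩

theorem c_pp_203_b : CertB 1239849684 370763052 0 536870912 536870912 50465866 3 eng mog cd3q2b cd5q0 pd3 true true true .up 2 0 3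
    ndB3q2b ndB5q0 pcB3 Cut.none Ext.none :=
  certB0 (fam := true) (s1 := true) (s2 := true) (a := 2) (b := 0) (c := 3) (cn := .up) (n1 := ndB3q2b) (n2 := ndB5q0) (pc := pcB3) (cut := Cut.none) (xt := Ext.none) (P1 := 1239849684) (W1 := 370763052) (P2 := 0) (W2 := 536870912) (P3 := 536870912) (W3 := 50465866) (N0 := 3) (En := eng) (mo := mog) (C1 := cd3q2b) (C2 := cd5q0) (C3 := pd3)
    rfl k0_pp_203_b

noncomputable def f_pp_213_a : ℕ → ℕ → ℕ → ℕ → Bool := onCell 0 536870912 536870912 536870912 536870912 50465866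
    (rowB 3 eng mog cd3q2a cd5q1 pd3 0 true true true .pnn 2 1 3 (qsf 0 536870912 536870912 536870912 3) ndB3q2a ndB5q1 pcB3 Cut.none Ext.none)

def k0_pp_213_a : ∃ t, chk3 f_pp_213_a t 1 1 1 = true :=
  ⟨(l 4), by decide +kernel⟩

theorem c_pp_213_a : CertB 0 536870912 536870912 536870912 536870912 50465866 3 eng mog cd3q2a cd5q1 pd3 true true true .pnn 2 1 3
    ndB3q2a ndB5q1 pcB3 Cut.none Ext.none :=
  certB0 (fam := true) (s1 := true) (s2 := true) (a := 2) (b := 1) (c := 3) (cn := .pnn) (n1 := ndB3q2a) (n2 := ndB5q1) (pc := pcB3) (cut := Cut.none) (xt := Ext.none) (P1 := 0) (W1 := 536870912) (P2 := 536870912) (W2 := 536870912) (P3 := 536870912) (W3 := 50465866) (N0 := 3) (En := eng) (mo := mog) (C1 := cd3q2a) (C2 := cd5q1) (C3 := pd3)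
    rfl k0_pp_213_a

noncomputable def f_pp_213_b : ℕ → ℕ → ℕ → ℕ → Bool := onCell 1239849684 370763052 536870912 536870912 536870912 50465866
    (rowB 3 eng mog cd3q2b cd5q1 pd3 0 true true true .pnn 2 1 3 (qsf 1239849684 370763052 536870912 536870912 3) ndB3q2b ndB5q1 pcB3 Cut.none Ext.none)

def k0_pp_213_b : ∃ t, chk3 f_pp_213_b t 1 1 1 = true :=
  ⟨(l 4), by decide +kernel⟩

theorem c_pp_213_b : CertB 1239849684 370763052 536870912 536870912 536870912 50465866 3 eng mog cd3q2b cd5q1 pd3 true true true .pnn 2 1 3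
    ndB3q2b ndB5q1 pcB3 Cut.none Ext.none :=
  certB0 (fam := true) (s1 := true) (s2 := true) (a := 2) (b := 1) (c := 3) (cn := .pnn) (n1 := ndB3q2b) (n2 := ndB5q1) (pc := pcB3) (cut := Cut.none) (xt := Ext.none) (P1 := 1239849684) (W1 := 370763052) (P2 := 536870912) (W2 := 536870912) (P3 := 536870912) (W3 := 50465866) (N0 := 3) (En := eng) (mo := mog) (C1 := cd3q2b) (C2 := cd5q1) (C3 := pd3)
    rfl k0_pp_213_b

noncomputable def f_pp_303 : ℕ → ℕ → ℕ → ℕ → Bool := onCell 1610612736 536870912 0 536870912 536870912 50465866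
    (rowB 3 eng mog cd3q3 cd5q0 pd3 0 true true true .npn 3 0 3 (qsf 1610612736 536870912 0 536870912 3) ndB3q3 ndB5q0 pcB3 Cut.none Ext.none)

def k0_pp_303 : ∃ t, chk3 f_pp_303 t 1 1 1 = true :=
  ⟨(l 4), by decide +kernel⟩

theorem c_pp_303 : CertB 1610612736 536870912 0 536870912 536870912 50465866 3 eng mog cd3q3 cd5q0 pd3 true true true .npn 3 0 3
    ndB3q3 ndB5q0 pcB3 Cut.none Ext.none :=
  certB0 (fam := true) (s1 := true) (s2 := true) (a := 3) (b := 0) (c := 3) (cn := .npn) (n1 := ndB3q3) (n2 := ndB5q0) (pc := pcB3) (cut := Cut.none) (xt := Ext.none) (P1 := 1610612736) (W1 := 536870912) (P2 := 0) (W2 := 536870912) (P3 := 536870912) (W3 := 50465866) (N0 := 3) (En := eng) (mo := mog) (C1 := cd3q3) (C2 := cd5q0) (C3 := pd3)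
    rfl k0_pp_303

noncomputable def f_pp_313 : ℕ → ℕ → ℕ → ℕ → Bool := onCell 1610612736 536870912 536870912 536870912 536870912 50465866
    (rowB 3 eng mog cd3q3 cd5q1 pd3 0 true true true .dn 3 1 3 (qsf 1610612736 536870912 536870912 536870912 3) ndB3q3 ndB5q1 pcB3 Cut.none Ext.none)

def k0_pp_313 : ∃ t, chk3 f_pp_313 t 1 1 1 = true :=
  ⟨(l 4), by decide +kernel⟩

theorem c_pp_313 : CertB 1610612736 536870912 536870912 536870912 536870912 50465866 3 eng mog cd3q3 cd5q1 pd3 true true true .dn 3 1 3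
    ndB3q3 ndB5q1 pcB3 Cut.none Ext.none :=
  certB0 (fam := true) (s1 := true) (s2 := true) (a := 3) (b := 1) (c := 3) (cn := .dn) (n1 := ndB3q3) (n2 := ndB5q1) (pc := pcB3) (cut := Cut.none) (xt := Ext.none) (P1 := 1610612736) (W1 := 536870912) (P2 := 536870912) (W2 := 536870912) (P3 := 536870912) (W3 := 50465866) (N0 := 3) (En := eng) (mo := mog) (C1 := cd3q3) (C2 := cd5q1) (C3 := pd3)
    rfl k0_pp_313

noncomputable def f_pm_001 : ℕ → ℕ → ℕ → ℕ → Bool := onCell 0 536870912 0 536870912 536870912 50465866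
    (rowB 3 eng mog cd3q0 cd5q0 pd1 0 true true false .up 0 0 1 (qsf 0 536870912 0 536870912 1) ndB3q0 ndB5q0 pcB1 Cut.none Ext.none)

def k0_pm_001 : ∃ t, chk3 f_pm_001 t 1 1 1 = true :=
  ⟨(a (l 3) (l 3)), by decide +kernel⟩

theorem c_pm_001 : CertB 0 536870912 0 536870912 536870912 50465866 3 eng mog cd3q0 cd5q0 pd1 true true false .up 0 0 1
    ndB3q0 ndB5q0 pcB1 Cut.none Ext.none :=
  certB0 (fam := true) (s1 := true) (s2 := false) (a := 0) (b := 0) (c := 1) (cn := .up) (n1 := ndB3q0) (n2 := ndB5q0) (pc := pcB1) (cut := Cut.none) (xt := Ext.none) (P1 := 0) (W1 := 536870912) (P2 := 0) (W2 := 536870912) (P3 := 536870912) (W3 := 50465866) (N0 := 3) (En := eng) (mo := mog) (C1 := cd3q0) (C2 := cd5q0) (C3 := pd1)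
    rfl k0_pm_001

noncomputable def cut_pm_011 : Cut := Cut.of [[⟨0, 0, 0, 67108864⟩, ⟨1, 1, 0, 67108864⟩, ⟨2, 1, 0, 67108864⟩]]

noncomputable def f_pm_011 : ℕ → ℕ → ℕ → ℕ → Bool := onCell 0 536870912 536870912 536870912 536870912 50465866
    (rowB 3 eng mog cd3q0 cd5q1 pd1 1 true true false .pnn 0 1 1 (qsf 0 536870912 536870912 536870912 1) ndB3q0 ndB5q1 pcB1 cut_pm_011 Ext.none)

def k0_pm_011 : ∃ t, chk3 f_pm_011 t 1 1 1 = true :=
  ⟨(b (l 3) (b (l 3) (a (b (l 3) (a (a (b (l 3) (a (b (l 3) (l 6)) (l 3))) (l 3)) (l 3))) (l 3)))), by decide +kernel⟩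

theorem c_pm_011 : CertB 0 536870912 536870912 536870912 536870912 50465866 3 eng mog cd3q0 cd5q1 pd1 true true false .pnn 0 1 1
    ndB3q0 ndB5q1 pcB1 cut_pm_011 Ext.none :=
  certB1 (fam := true) (s1 := true) (s2 := false) (a := 0) (b := 1) (c := 1) (cn := .pnn) (n1 := ndB3q0) (n2 := ndB5q1) (pc := pcB1) (cut := cut_pm_011) (xt := Ext.none) (P1 := 0) (W1 := 536870912) (P2 := 536870912) (W2 := 536870912) (P3 := 536870912) (W3 := 50465866) (N0 := 3) (En := eng) (mo := mog) (C1 := cd3q0) (C2 := cd5q1) (C3 := pd1)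
    rfl (fun _ => rfl) k0_pm_011

noncomputable def cut_pm_012 : Cut := Cut.of [[⟨0, 0, 0, 67108864⟩, ⟨1, 1, 0, 67108864⟩, ⟨2, 1, 0, 67108864⟩]]

noncomputable def f_pm_012 : ℕ → ℕ → ℕ → ℕ → Bool := onCell 1073741824 536870912 536870912 536870912 536870912 50465866
    (rowB 3 eng mog cd3q0 cd5q1 pd2 2 true true false .pnp 0 1 2 (qsf 0 536870912 536870912 536870912 2) ndB3q0 ndB5q1 pcB2 cut_pm_012 Ext.none)

def k0_pm_012 : ∃ t, chk3 f_pm_012 t 1 1 1 = true :=
  ⟨(a (a (b (a (l 3) (a (b (l 3) (l 355039557351)) (b (l 16642016) (a (l 16585416) (l 16589040))))) (a (b (l 3) (a (b (l 3) (b (l 3) (b (b (l 3) (l 6)) (l 6)))) (b (a (l 3) (b (l 3) (l 16579632))) (b (a (b (l 3) (l 16628392)) (a (l 16596440) (l 16577832))) (a (a (b (l 16668944) (l 6)) (b (l 16626376) (l 16635944))) (b (l 16679464) (l 16603192))))))) (b (a (b (l 16628832) (l 349133973463)) (b (a (l 16534504) (l 16532728)) (a (l 16512000) (l 16500280)))) (a (b (a (b (l 16549096) (l 16550704))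 (l 16586720)) (b (a (l 16552896) (l 16523728)) (a (b (l 16558000) (l 16562376)) (l 16524064)))) (b (a (l 16502616) (l 16482184)) (b (a (l 16496360) (l 16470864)) (a (l 16491424) (l 16462264)))))))) (a (b (b (a (a (l 16654360) (l 2)) (l 2)) (a (a (l 16596480) (a (l 16600264) (a (l 16599872) (l 16605016)))) (l 16618656))) (b (a (a (b (l 16533776) (l 16490072)) (a (l 16508984) (a (l 16506368) (b (l 16537296) (l 16482296))))) (l 16516136)) (a (a (b (l 16464160) (b (l 16447536) (l 16436264))) (a (b (l 16450952) (l 16424600)) (a (b (l 16444496) (l 16416632)) (b (l 16445264) (a (l 16414424) (l 16414672)))))) (b (l 16431640) (l 16393120))))) (b (b (l 2) (l 16657024)) (b (l 16537536) (b (l 16414040) (b (l 16357928) (l 16328920))))))) (b (a (b (l 2) (l 16786728)) (l 2)) (a (b (a (l 16605728) (l 16719072)) (b (l 16493624) (a (l 16329520) (l 16399384)))) (b (l 16954968) (a (l 16623936) (l 16819688)))))), by decide +kernel⟩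

theorem c_pm_012 : CertB 0 536870912 536870912 536870912 536870912 50465866 3 eng mog cd3q0 cd5q1 pd2 true true false .pnp 0 1 2
    ndB3q0 ndB5q1 pcB2 cut_pm_012 Ext.none :=
  certB2 (fam := true) (s1 := true) (s2 := false) (a := 0) (b := 1) (c := 2) (cn := .pnp) (n1 := ndB3q0) (n2 := ndB5q1) (pc := pcB2) (cut := cut_pm_012) (xt := Ext.none) (P1 := 0) (W1 := 536870912) (P2 := 536870912) (W2 := 536870912) (P3 := 536870912) (W3 := 50465866) (N0 := 3) (En := eng) (mo := mog) (C1 := cd3q0) (C2 := cd5q1) (C3 := pd2)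
    rfl (fun _ => rfl) k0_pm_012

noncomputable def f_pm_022 : ℕ → ℕ → ℕ → ℕ → Bool := onCell 0 536870912 1073741824 536870912 536870912 50465866
    (rowB 3 eng mog cd3q0 cd5q2 pd2 1 true true false .pp 0 2 2 (qsf 0 536870912 1073741824 536870912 2) ndB3q0 ndB5q2 pcB2 Cut.none Ext.none)

def k0_pm_022 : ∃ t, chk3 f_pm_022 t 1 1 1 = true :=
  ⟨(b (b (a (l 3) (l 1)) (b (b (a (b (a (l 3) (l 3)) (b (a (a (a (b (l 16502584) (l 16494936)) (l 16487736)) (l 3)) (l 3)) (a (b (a (a (b (l 16468384) (l 16465176)) (l 16477944)) (l 16487064)) (a (b (a (a (l 16458488) (l 16464984)) (l 16473344)) (a (l 16458128) (l 16469984))) (b (l 16483360) (l 16480568)))) (a (b (l 16483608) (b (l 16480896) (l 16478912))) (l 1))))) (l 1)) (a (a (a (a (a (a (l 16461088) (l 16424736)) (l 16431328)) (l 16442224)) (l 16457744)) (a (l 16462360) (l 16447536))) (l 1))) (a (a (b (a (a (a (l 16356328) (l 16370304)) (l 16389952)) (l 16415288)) (a (a (l 16386624) (l 16331664)) (l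 16372880))) (a (l 16415912) (l 16411720))) (a (a (l 16405744) (l 1)) (l 1))))) (a (a (b (a (b (a (l 16445960) (l 16223456)) (a (l 16197952) (l 16163696))) (b (a (l 16280960) (l 16320344)) (l 16178552))) (a (b (l 16167120) (l 16188920)) (l 16090896))) (a (b (b (l 16353280) (l 16282592)) (l 16119256)) (b (l 16337088) (l 16229256)))) (a (b (a (l 16349336) (l 16408640)) (a (l 16299088) (l 16357976))) (b (l 435435978055) (l 16571896))))), by decide +kernel⟩

theorem c_pm_022 : CertB 0 536870912 1073741824 536870912 536870912 50465866 3 eng mog cd3q0 cd5q2 pd2 true true false .pp 0 2 2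
    ndB3q0 ndB5q2 pcB2 Cut.none Ext.none :=
  certB1 (fam := true) (s1 := true) (s2 := false) (a := 0) (b := 2) (c := 2) (cn := .pp) (n1 := ndB3q0) (n2 := ndB5q2) (pc := pcB2) (cut := Cut.none) (xt := Ext.none) (P1 := 0) (W1 := 536870912) (P2 := 1073741824) (W2 := 536870912) (P3 := 536870912) (W3 := 50465866) (N0 := 3) (En := eng) (mo := mog) (C1 := cd3q0) (C2 := cd5q2) (C3 := pd2)
    rfl (fun _ => rfl) k0_pm_022

noncomputable def f_pm_023 : ℕ → ℕ → ℕ → ℕ → Bool := onCell 0 536870912 1610612736 536870912 536870912 50465866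
    (rowB 3 eng mog cd3q0 cd5q2 pd3 1 true true false .up 0 2 3 (qsf 0 536870912 1073741824 536870912 3) ndB3q0 ndB5q2 pcB3 Cut.none Ext.none)

def k0_pm_023 : ∃ t, chk3 f_pm_023 t 1 1 1 = true :=
  ⟨(a (b (b (a (a (l 16342536) (l 16250744)) (l 16146392)) (a (l 672263202663) (l 16541192))) (b (a (l 2) (l 492948513623)) (l 2))) (b (b (a (a (l 16139544) (l 16318520)) (l 16585240)) (a (l 16508000) (l 16640328))) (b (a (l 16806432) (l 16445536)) (b (l 347456579735) (b (l 16761400) (l 4)))))), by decide +kernel⟩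

theorem c_pm_023 : CertB 0 536870912 1073741824 536870912 536870912 50465866 3 eng mog cd3q0 cd5q2 pd3 true true false .up 0 2 3
    ndB3q0 ndB5q2 pcB3 Cut.none Ext.none :=
  certB1 (fam := true) (s1 := true) (s2 := false) (a := 0) (b := 2) (c := 3) (cn := .up) (n1 := ndB3q0) (n2 := ndB5q2) (pc := pcB3) (cut := Cut.none) (xt := Ext.none) (P1 := 0) (W1 := 536870912) (P2 := 1073741824) (W2 := 536870912) (P3 := 536870912) (W3 := 50465866) (N0 := 3) (En := eng) (mo := mog) (C1 := cd3q0) (C2 := cd5q2) (C3 := pd3)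
    rfl (fun _ => rfl) k0_pm_023

noncomputable def f_pm_033 : ℕ → ℕ → ℕ → ℕ → Bool := onCell 1610612736 536870912 0 1230186008 536870912 50465866
    (rowB 3 eng mog cd3q0 cd5q3 pd3 2 true true false .pnn 0 3 3 (qsf 0 536870912 0 1230186008 3) ndB3q0 ndB5q3 pcB3 Cut.none Ext.none)

def k0_pm_033 : ∃ t, chk3 f_pm_033 t 1 1 1 = true :=
  ⟨(b (a (l 1) (a (l 1) (a (b (l 1) (a (l 1188666204647) (l 4))) (l 4)))) (b (a (b (l 1) (a (l 1) (a (l 1) (b (l 1) (l 993244621911))))) (a (b (a (l 1) (a (l 927209963031) (l 569654068583))) (a (b (l 974991059815) (l 16725464)) (a (l 16743288) (l 16755528)))) (a (b (a (l 16758152) (l 16747712)) (a (l 16755888) (l 16754960))) (l 4)))) (a (a (b (l 1) (a (b (l 1) (l 827887622055)) (b (l 861710810087) (l 16446384)))) (b (a (b (l 955663571351) (l 870300983911)) (b (l 798897540279) (l 16657784))) (b (a (l 16570608) (l 16630648)) (l 16579000)))) (a (b (a (l 16913240) (l 16734720)) (a (l 16672720) (l 16716576))) (a (b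 (a (l 16752896) (l 16757664)) (l 16750896)) (a (l 857081331751) (l 4))))))), by decide +kernel⟩

theorem c_pm_033 : CertB 0 536870912 0 1230186008 536870912 50465866 3 eng mog cd3q0 cd5q3 pd3 true true false .pnn 0 3 3
    ndB3q0 ndB5q3 pcB3 Cut.none Ext.none :=
  certB2 (fam := true) (s1 := true) (s2 := false) (a := 0) (b := 3) (c := 3) (cn := .pnn) (n1 := ndB3q0) (n2 := ndB5q3) (pc := pcB3) (cut := Cut.none) (xt := Ext.none) (P1 := 0) (W1 := 536870912) (P2 := 0) (W2 := 1230186008) (P3 := 536870912) (W3 := 50465866) (N0 := 3) (En := eng) (mo := mog) (C1 := cd3q0) (C2 := cd5q3) (C3 := pd3)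
    rfl (fun _ => rfl) k0_pm_033

noncomputable def f_pm_101 : ℕ → ℕ → ℕ → ℕ → Bool := onCell 536870912 536870912 0 536870912 536870912 50465866
    (rowB 3 eng mog cd3q1 cd5q0 pd1 2 true true false .npn 1 0 1 (qsf 536870912 536870912 0 536870912 1) ndB3q1 ndB5q0 pcB1 Cut.none Ext.none)

def k0_pm_101 : ∃ t, chk3 f_pm_101 t 1 1 1 = true :=
  ⟨(a (l 3) (l 3)), by decide +kernel⟩

theorem c_pm_101 : CertB 536870912 536870912 0 536870912 536870912 50465866 3 eng mog cd3q1 cd5q0 pd1 true true false .npn 1 0 1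
    ndB3q1 ndB5q0 pcB1 Cut.none Ext.none :=
  certB2 (fam := true) (s1 := true) (s2 := false) (a := 1) (b := 0) (c := 1) (cn := .npn) (n1 := ndB3q1) (n2 := ndB5q0) (pc := pcB1) (cut := Cut.none) (xt := Ext.none) (P1 := 536870912) (W1 := 536870912) (P2 := 0) (W2 := 536870912) (P3 := 536870912) (W3 := 50465866) (N0 := 3) (En := eng) (mo := mog) (C1 := cd3q1) (C2 := cd5q0) (C3 := pd1)
    rfl (fun _ => rfl) k0_pm_101

noncomputable def f_pm_102 : ℕ → ℕ → ℕ → ℕ → Bool := onCell 536870912 536870912 1073741824 536870912 536870912 50465866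
    (rowB 3 eng mog cd3q1 cd5q0 pd2 1 true true false .npp 1 0 2 (qsf 536870912 536870912 0 536870912 2) ndB3q1 ndB5q0 pcB2 Cut.none Ext.none)

def k0_pm_102 : ∃ t, chk3 f_pm_102 t 1 1 1 = true :=
  ⟨(b (b (b (l 3) (b (a (l 3) (l 3)) (a (a (b (l 16654592) (l 16661032)) (a (l 100562966487) (l 16701520))) (b (l 3) (a (a (l 16712192) (l 16711208)) (a (l 16700840) (b (l 16676088) (l 16677688)))))))) (a (b (b (b (a (l 16665880) (a (l 16704496) (l 16714192))) (a (l 2) (b (l 16717424) (b (l 16720616) (l 16828536))))) (a (l 2) (l 16737392))) (a (l 2) (l 16781424))) (b (b (b (a (a (l 16719976) (l 16718032)) (a (l 16705888) (b (l 16679368) (l 16680096)))) (a (b (l 16726256) (b (l 16730072) (l 16732176))) (b (l 16697912) (b (l 16700984) (a (l 16713240) (l 16684728)))))) (a (l 16742768) (l 16705264))) (a (l 16783080) (l 16898136))))) (a (b (a (l 2) (l 16917680)) (l 2)) (b (a (l 16925032) (b (l 16792952) (l 16905248))) (a (l 17274120) (l 17229256))))),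 by decide +kernel⟩

theorem c_pm_102 : CertB 536870912 536870912 0 536870912 536870912 50465866 3 eng mog cd3q1 cd5q0 pd2 true true false .npp 1 0 2
    ndB3q1 ndB5q0 pcB2 Cut.none Ext.none :=
  certB1 (fam := true) (s1 := true) (s2 := false) (a := 1) (b := 0) (c := 2) (cn := .npp) (n1 := ndB3q1) (n2 := ndB5q0) (pc := pcB2) (cut := Cut.none) (xt := Ext.none) (P1 := 536870912) (W1 := 536870912) (P2 := 0) (W2 := 536870912) (P3 := 536870912) (W3 := 50465866) (N0 := 3) (En := eng) (mo := mog) (C1 := cd3q1) (C2 := cd5q0) (C3 := pd2)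
    rfl (fun _ => rfl) k0_pm_102

noncomputable def f_pm_112 : ℕ → ℕ → ℕ → ℕ → Bool := onCell 536870912 536870912 1073741824 536870912 536870912 50465866
    (rowB 3 eng mog cd3q1 cd5q1 pd2 1 true true false .dn 1 1 2 (qsf 536870912 536870912 536870912 536870912 2) ndB3q1 ndB5q1 pcB2 Cut.none Ext.none)

def k0_pm_112 : ∃ t, chk3 f_pm_112 t 1 1 1 = true :=
  ⟨(a (b (b (b (l 3) (b (l 3) (a (l 16656040) (a (l 16691392) (l 1))))) (b (b (b (a (l 16660672) (l 16771760)) (a (b (l 16664952) (l 16707440)) (b (l 16716928) (b (l 16720112) (l 16723184))))) (a (l 16675928) (l 16737040))) (a (l 16696432) (l 16781064)))) (a (b (l 16768040) (l 16933480)) (b (l 16931544) (l 17336072)))) (b (b (l 1) (b (l 1) (l 528315027927))) (b (l 16897000) (l 17313400)))), by decide +kernel⟩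

theorem c_pm_112 : CertB 536870912 536870912 536870912 536870912 536870912 50465866 3 eng mog cd3q1 cd5q1 pd2 true true false .dn 1 1 2
    ndB3q1 ndB5q1 pcB2 Cut.none Ext.none :=
  certB1 (fam := true) (s1 := true) (s2 := false) (a := 1) (b := 1) (c := 2) (cn := .dn) (n1 := ndB3q1) (n2 := ndB5q1) (pc := pcB2) (cut := Cut.none) (xt := Ext.none) (P1 := 536870912) (W1 := 536870912) (P2 := 536870912) (W2 := 536870912) (P3 := 536870912) (W3 := 50465866) (N0 := 3) (En := eng) (mo := mog) (C1 := cd3q1) (C2 := cd5q1) (C3 := pd2)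
    rfl (fun _ => rfl) k0_pm_112

noncomputable def f_pm_113 : ℕ → ℕ → ℕ → ℕ → Bool := onCell 536870912 536870912 1610612736 536870912 536870912 50465866
    (rowB 3 eng mog cd3q1 cd5q1 pd3 1 true true false .nn 1 1 3 (qsf 536870912 536870912 536870912 536870912 3) ndB3q1 ndB5q1 pcB3 Cut.none Ext.none)

def k0_pm_113 : ∃ t, chk3 f_pm_113 t 1 1 1 = true :=
  ⟨(a (b (a (b (l 17018464) (l 16991656)) (l 17423760)) (b (l 699644613863) (l 2))) (b (b (b (l 17880840) (l 17683368)) (l 17443176)) (b (l 17173536) (b (l 16995008) (b (l 16910224) (b (l 16869064) (l 16836168))))))), by decide +kernel⟩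

theorem c_pm_113 : CertB 536870912 536870912 536870912 536870912 536870912 50465866 3 eng mog cd3q1 cd5q1 pd3 true true false .nn 1 1 3
    ndB3q1 ndB5q1 pcB3 Cut.none Ext.none :=
  certB1 (fam := true) (s1 := true) (s2 := false) (a := 1) (b := 1) (c := 3) (cn := .nn) (n1 := ndB3q1) (n2 := ndB5q1) (pc := pcB3) (cut := Cut.none) (xt := Ext.none) (P1 := 536870912) (W1 := 536870912) (P2 := 536870912) (W2 := 536870912) (P3 := 536870912) (W3 := 50465866) (N0 := 3) (En := eng) (mo := mog) (C1 := cd3q1) (C2 := cd5q1) (C3 := pd3)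
    rfl (fun _ => rfl) k0_pm_113

noncomputable def f_pm_123 : ℕ → ℕ → ℕ → ℕ → Bool := onCell 536870912 536870912 1610612736 536870912 536870912 50465866
    (rowB 3 eng mog cd3q1 cd5q2 pd3 1 true true false .npn 1 2 3 (qsf 536870912 536870912 1073741824 536870912 3) ndB3q1 ndB5q2 pcB3 Cut.none Ext.none)

def k0_pm_123 : ∃ t, chk3 f_pm_123 t 1 1 1 = true :=
  ⟨(a (b (a (b (l 17053984) (l 16898608)) (l 406446798519)) (b (a (l 16789376) (l 17066024)) (b (a (l 16747584) (l 16871312)) (b (l 16762040) (b (l 16776456) (a (l 4) (l 4))))))) (b (l 534222382119) (b (l 17217824) (b (l 16984824) (b (l 16863472) (b (l 16807040) (b (l 16780552) (l 16776664)))))))), by decide +kernel⟩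

theorem c_pm_123 : CertB 536870912 536870912 1073741824 536870912 536870912 50465866 3 eng mog cd3q1 cd5q2 pd3 true true false .npn 1 2 3
    ndB3q1 ndB5q2 pcB3 Cut.none Ext.none :=
  certB1 (fam := true) (s1 := true) (s2 := false) (a := 1) (b := 2) (c := 3) (cn := .npn) (n1 := ndB3q1) (n2 := ndB5q2) (pc := pcB3) (cut := Cut.none) (xt := Ext.none) (P1 := 536870912) (W1 := 536870912) (P2 := 1073741824) (W2 := 536870912) (P3 := 536870912) (W3 := 50465866) (N0 := 3) (En := eng) (mo := mog) (C1 := cd3q1) (C2 := cd5q2) (C3 := pd3)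
    rfl (fun _ => rfl) k0_pm_123

noncomputable def f_pm_133 : ℕ → ℕ → ℕ → ℕ → Bool := onCell 536870912 536870912 0 1230186008 536870912 50465866
    (rowB 3 eng mog cd3q1 cd5q3 pd3 0 true true false .dn 1 3 3 (qsf 536870912 536870912 0 1230186008 3) ndB3q1 ndB5q3 pcB3 Cut.none Ext.none)

def k0_pm_133 : ∃ t, chk3 f_pm_133 t 1 1 1 = true :=
  ⟨(b (l 2) (b (l 2) (a (l 4) (l 2)))), by decide +kernel⟩

theorem c_pm_133 : CertB 536870912 536870912 0 1230186008 536870912 50465866 3 eng mog cd3q1 cd5q3 pd3 true true false .dn 1 3 3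
    ndB3q1 ndB5q3 pcB3 Cut.none Ext.none :=
  certB0 (fam := true) (s1 := true) (s2 := false) (a := 1) (b := 3) (c := 3) (cn := .dn) (n1 := ndB3q1) (n2 := ndB5q3) (pc := pcB3) (cut := Cut.none) (xt := Ext.none) (P1 := 536870912) (W1 := 536870912) (P2 := 0) (W2 := 1230186008) (P3 := 536870912) (W3 := 50465866) (N0 := 3) (En := eng) (mo := mog) (C1 := cd3q1) (C2 := cd5q3) (C3 := pd3)
    rfl k0_pm_133

noncomputable def f_pm_202_a : ℕ → ℕ → ℕ → ℕ → Bool := onCell 0 536870912 0 536870912 536870912 50465866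
    (rowB 3 eng mog cd3q2a cd5q0 pd2 0 true true false .pp 2 0 2 (qsf 0 536870912 0 536870912 2) ndB3q2a ndB5q0 pcB2 Cut.none Ext.none)

def k0_pm_202_a : ∃ t, chk3 f_pm_202_a t 1 1 1 = true :=
  ⟨(a (b (b (b (a (l 16716128) (b (l 16664000) (l 16679224))) (a (l 16711960) (l 16709408))) (b (l 16756528) (l 16808960))) (b (b (l 16909352) (a (l 16851112) (l 16894392))) (b (l 16996136) (l 2)))) (b (b (a (b (b (a (l 16663984) (l 16664256)) (a (l 16677288) (l 16677912))) (a (l 16708912) (l 16711728))) (b (a (b (a (l 16665600) (b (l 16664752) (l 16669976))) (l 16681336)) (a (b (b (b (l 16665352) (l 16667704)) (l 16672664)) (l 16688960)) (b (a (b (b (a (l 16667040) (l 16667528)) (l 16670032)) (l 16677152)) (b (a (b (b (a (l 16667768) (l 16668032)) (l 16669168)) (l 16672448)) (b (c (a (l 16723920) (l 16726440)) (a (b (b (l 16613376) (l 16613992)) (l 16615400)) (b (a (b (b (l 16613536) (l 16613840)) (l 16614528)) (b (a (l 16613864) (l 16614424)) (l 16615520)))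 (l 16617376)))) (a (l 16674992) (l 16678608)))) (a (l 16682168) (c (l 16745616) (l 16633224))))) (a (l 16698760) (b (l 16703432) (l 16724072)))))) (a (b (l 16705696) (l 16738168)) (a (b (l 16720696) (l 16761400)) (b (l 16684328) (l 16774272)))))) (a (b (a (l 16763328) (l 16773744)) (l 16837272)) (b (a (b (l 16776184) (l 16817496)) (b (a (l 16808720) (l 16788368)) (a (l 16855448) (l 16805848)))) (a (l 16884136) (b (l 16850408) (l 16871160)))))) (b (a (b (l 16916616) (l 16929792)) (b (a (l 16952920) (l 16901928)) (a (l 16933632) (l 16910712)))) (a (b (l 16884600) (l 2)) (b (a (l 16908048) (l 16907296)) (a (l 16887736) (l 16898544))))))), by decide +kernel⟩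

theorem c_pm_202_a : CertB 0 536870912 0 536870912 536870912 50465866 3 eng mog cd3q2a cd5q0 pd2 true true false .pp 2 0 2
    ndB3q2a ndB5q0 pcB2 Cut.none Ext.none :=
  certB0 (fam := true) (s1 := true) (s2 := false) (a := 2) (b := 0) (c := 2) (cn := .pp) (n1 := ndB3q2a) (n2 := ndB5q0) (pc := pcB2) (cut := Cut.none) (xt := Ext.none) (P1 := 0) (W1 := 536870912) (P2 := 0) (W2 := 536870912) (P3 := 536870912) (W3 := 50465866) (N0 := 3) (En := eng) (mo := mog) (C1 := cd3q2a) (C2 := cd5q0) (C3 := pd2)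
    rfl k0_pm_202_a

noncomputable def f_pm_202_b : ℕ → ℕ → ℕ → ℕ → Bool := onCell 1073741824 536870912 0 536870912 536870912 50465866
    (rowB 3 eng mog cd3q2b cd5q0 pd2 2 true true false .pp 2 0 2 (qsf 1239849684 370763052 0 536870912 2) ndB3q2b ndB5q0 pcB2 Cut.none Ext.none)

def k0_pm_202_b : ∃ t, chk3 f_pm_202_b t 1 1 1 = true :=
  ⟨(a (b (a (l 1) (b (a (b (a (l 477311817303) (l 16674384)) (l 1)) (b (l 16676784) (l 16713496))) (l 1))) (l 1)) (a (b (b (a (l 16695656) (l 16694968)) (a (l 683469880055) (l 16778304))) (l 1)) (b (a (b (l 16688672) (l 16769416)) (b (l 16677568) (l 16766640))) (b (a (l 16855616) (l 16859344)) (l 1))))), by decide +kernel⟩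

theorem c_pm_202_b : CertB 1239849684 370763052 0 536870912 536870912 50465866 3 eng mog cd3q2b cd5q0 pd2 true true false .pp 2 0 2
    ndB3q2b ndB5q0 pcB2 Cut.none Ext.none :=
  certB2 (fam := true) (s1 := true) (s2 := false) (a := 2) (b := 0) (c := 2) (cn := .pp) (n1 := ndB3q2b) (n2 := ndB5q0) (pc := pcB2) (cut := Cut.none) (xt := Ext.none) (P1 := 1239849684) (W1 := 370763052) (P2 := 0) (W2 := 536870912) (P3 := 536870912) (W3 := 50465866) (N0 := 3) (En := eng) (mo := mog) (C1 := cd3q2b) (C2 := cd5q0) (C3 := pd2)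
    rfl (fun _ => rfl) k0_pm_202_b

noncomputable def f_pm_203_a : ℕ → ℕ → ℕ → ℕ → Bool := onCell 0 536870912 1610612736 536870912 536870912 50465866
    (rowB 3 eng mog cd3q2a cd5q0 pd3 1 true true false .up 2 0 3 (qsf 0 536870912 0 536870912 3) ndB3q2a ndB5q0 pcB3 Cut.none Ext.none)

def k0_pm_203_a : ∃ t, chk3 f_pm_203_a t 1 1 1 = true :=
  ⟨(b (b (a (b (l 16829568) (l 4)) (b (l 16870016) (l 4))) (l 4)) (l 2)), by decide +kernel⟩

theorem c_pm_203_a : CertB 0 536870912 0 536870912 536870912 50465866 3 eng mog cd3q2a cd5q0 pd3 true true false .up 2 0 3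
    ndB3q2a ndB5q0 pcB3 Cut.none Ext.none :=
  certB1 (fam := true) (s1 := true) (s2 := false) (a := 2) (b := 0) (c := 3) (cn := .up) (n1 := ndB3q2a) (n2 := ndB5q0) (pc := pcB3) (cut := Cut.none) (xt := Ext.none) (P1 := 0) (W1 := 536870912) (P2 := 0) (W2 := 536870912) (P3 := 536870912) (W3 := 50465866) (N0 := 3) (En := eng) (mo := mog) (C1 := cd3q2a) (C2 := cd5q0) (C3 := pd3)
    rfl (fun _ => rfl) k0_pm_203_a

noncomputable def f_pm_203_b : ℕ → ℕ → ℕ → ℕ → Bool := onCell 1239849684 370763052 1610612736 536870912 536870912 50465866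
    (rowB 3 eng mog cd3q2b cd5q0 pd3 1 true true false .up 2 0 3 (qsf 1239849684 370763052 0 536870912 3) ndB3q2b ndB5q0 pcB3 Cut.none Ext.none)

def k0_pm_203_b : ∃ t, chk3 f_pm_203_b t 1 1 1 = true :=
  ⟨(b (b (l 4) (l 4)) (l 4)), by decide +kernel⟩

theorem c_pm_203_b : CertB 1239849684 370763052 0 536870912 536870912 50465866 3 eng mog cd3q2b cd5q0 pd3 true true false .up 2 0 3
    ndB3q2b ndB5q0 pcB3 Cut.none Ext.none :=
  certB1 (fam := true) (s1 := true) (s2 := false) (a := 2) (b := 0) (c := 3) (cn := .up) (n1 := ndB3q2b) (n2 := ndB5q0) (pc := pcB3) (cut := Cut.none) (xt := Ext.none) (P1 := 1239849684) (W1 := 370763052) (P2 := 0) (W2 := 536870912) (P3 := 536870912) (W3 := 50465866) (N0 := 3) (En := eng) (mo := mog) (C1 := cd3q2b) (C2 := cd5q0) (C3 := pd3)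
    rfl (fun _ => rfl) k0_pm_203_b

noncomputable def f_pm_213_a : ℕ → ℕ → ℕ → ℕ → Bool := onCell 0 536870912 1610612736 536870912 536870912 50465866
    (rowB 3 eng mog cd3q2a cd5q1 pd3 1 true true false .pnn 2 1 3 (qsf 0 536870912 536870912 536870912 3) ndB3q2a ndB5q1 pcB3 Cut.none Ext.none)

def k0_pm_213_a : ∃ t, chk3 f_pm_213_a t 1 1 1 = true :=
  ⟨(b (b (a (l 16979632) (b (a (l 1) (l 16880968)) (l 4))) (l 4)) (l 4)), by decide +kernel⟩

theorem c_pm_213_a : CertB 0 536870912 536870912 536870912 536870912 50465866 3 eng mog cd3q2a cd5q1 pd3 true true false .pnn 2 1 3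
    ndB3q2a ndB5q1 pcB3 Cut.none Ext.none :=
  certB1 (fam := true) (s1 := true) (s2 := false) (a := 2) (b := 1) (c := 3) (cn := .pnn) (n1 := ndB3q2a) (n2 := ndB5q1) (pc := pcB3) (cut := Cut.none) (xt := Ext.none) (P1 := 0) (W1 := 536870912) (P2 := 536870912) (W2 := 536870912) (P3 := 536870912) (W3 := 50465866) (N0 := 3) (En := eng) (mo := mog) (C1 := cd3q2a) (C2 := cd5q1) (C3 := pd3)
    rfl (fun _ => rfl) k0_pm_213_a

noncomputable def f_pm_213_b : ℕ → ℕ → ℕ → ℕ → Bool := onCell 1239849684 370763052 536870912 536870912 536870912 50465866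
    (rowB 3 eng mog cd3q2b cd5q1 pd3 0 true true false .pnn 2 1 3 (qsf 1239849684 370763052 536870912 536870912 3) ndB3q2b ndB5q1 pcB3 Cut.none Ext.none)

def k0_pm_213_b : ∃ t, chk3 f_pm_213_b t 1 1 1 = true :=
  ⟨(l 4), by decide +kernel⟩

theorem c_pm_213_b : CertB 1239849684 370763052 536870912 536870912 536870912 50465866 3 eng mog cd3q2b cd5q1 pd3 true true false .pnn 2 1 3
    ndB3q2b ndB5q1 pcB3 Cut.none Ext.none :=
  certB0 (fam := true) (s1 := true) (s2 := false) (a := 2) (b := 1) (c := 3) (cn := .pnn) (n1 := ndB3q2b) (n2 := ndB5q1) (pc := pcB3) (cut := Cut.none) (xt := Ext.none) (P1 := 1239849684) (W1 := 370763052) (P2 := 536870912) (W2 := 536870912) (P3 := 536870912) (W3 := 50465866) (N0 := 3) (En := eng) (mo := mog) (C1 := cd3q2b) (C2 := cd5q1) (C3 := pd3)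
    rfl k0_pm_213_b

noncomputable def f_pm_303 : ℕ → ℕ → ℕ → ℕ → Bool := onCell 1610612736 536870912 0 536870912 536870912 50465866
    (rowB 3 eng mog cd3q3 cd5q0 pd3 0 true true false .npn 3 0 3 (qsf 1610612736 536870912 0 536870912 3) ndB3q3 ndB5q0 pcB3 Cut.none Ext.none)

def k0_pm_303 : ∃ t, chk3 f_pm_303 t 1 1 1 = true :=
  ⟨(a (b (l 4) (l 4)) (l 4)), by decide +kernel⟩

theorem c_pm_303 : CertB 1610612736 536870912 0 536870912 536870912 50465866 3 eng mog cd3q3 cd5q0 pd3 true true false .npn 3 0 3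
    ndB3q3 ndB5q0 pcB3 Cut.none Ext.none :=
  certB0 (fam := true) (s1 := true) (s2 := false) (a := 3) (b := 0) (c := 3) (cn := .npn) (n1 := ndB3q3) (n2 := ndB5q0) (pc := pcB3) (cut := Cut.none) (xt := Ext.none) (P1 := 1610612736) (W1 := 536870912) (P2 := 0) (W2 := 536870912) (P3 := 536870912) (W3 := 50465866) (N0 := 3) (En := eng) (mo := mog) (C1 := cd3q3) (C2 := cd5q0) (C3 := pd3)
    rfl k0_pm_303

noncomputable def f_pm_313 : ℕ → ℕ → ℕ → ℕ → Bool := onCell 1610612736 536870912 536870912 536870912 536870912 50465866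
    (rowB 3 eng mog cd3q3 cd5q1 pd3 0 true true false .dn 3 1 3 (qsf 1610612736 536870912 536870912 536870912 3) ndB3q3 ndB5q1 pcB3 Cut.none Ext.none)

def k0_pm_313 : ∃ t, chk3 f_pm_313 t 1 1 1 = true :=
  ⟨(l 4), by decide +kernel⟩

theorem c_pm_313 : CertB 1610612736 536870912 536870912 536870912 536870912 50465866 3 eng mog cd3q3 cd5q1 pd3 true true false .dn 3 1 3
    ndB3q3 ndB5q1 pcB3 Cut.none Ext.none :=
  certB0 (fam := true) (s1 := true) (s2 := false) (a := 3) (b := 1) (c := 3) (cn := .dn) (n1 := ndB3q3) (n2 := ndB5q1) (pc := pcB3) (cut := Cut.none) (xt := Ext.none) (P1 := 1610612736) (W1 := 536870912) (P2 := 536870912) (W2 := 536870912) (P3 := 536870912) (W3 := 50465866) (N0 := 3) (En := eng) (mo := mog) (C1 := cd3q3) (C2 := cd5q1) (C3 := pd3)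
    rfl k0_pm_313

noncomputable def f_mm_001 : ℕ → ℕ → ℕ → ℕ → Bool := onCell 0 536870912 0 536870912 536870912 50465866
    (rowB 3 eng mog cd3q0 cd5q0 pd1 0 true false false .up 0 0 1 (qsf 0 536870912 0 536870912 1) ndB3q0 ndB5q0 pcB1 Cut.none Ext.none)

def k0_mm_001 : ∃ t, chk3 f_mm_001 t 1 1 1 = true :=
  ⟨(l 4), by decide +kernel⟩

theorem c_mm_001 : CertB 0 536870912 0 536870912 536870912 50465866 3 eng mog cd3q0 cd5q0 pd1 true false false .up 0 0 1
    ndB3q0 ndB5q0 pcB1 Cut.none Ext.none :=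
  certB0 (fam := true) (s1 := false) (s2 := false) (a := 0) (b := 0) (c := 1) (cn := .up) (n1 := ndB3q0) (n2 := ndB5q0) (pc := pcB1) (cut := Cut.none) (xt := Ext.none) (P1 := 0) (W1 := 536870912) (P2 := 0) (W2 := 536870912) (P3 := 536870912) (W3 := 50465866) (N0 := 3) (En := eng) (mo := mog) (C1 := cd3q0) (C2 := cd5q0) (C3 := pd1)
    rfl k0_mm_001

noncomputable def f_mm_011 : ℕ → ℕ → ℕ → ℕ → Bool := onCell 0 536870912 536870912 536870912 536870912 50465866
    (rowB 3 eng mog cd3q0 cd5q1 pd1 0 true false false .pnn 0 1 1 (qsf 0 536870912 536870912 536870912 1) ndB3q0 ndB5q1 pcB1 Cut.none Ext.none)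

def k0_mm_011 : ∃ t, chk3 f_mm_011 t 1 1 1 = true :=
  ⟨(l 4), by decide +kernel⟩

theorem c_mm_011 : CertB 0 536870912 536870912 536870912 536870912 50465866 3 eng mog cd3q0 cd5q1 pd1 true false false .pnn 0 1 1
    ndB3q0 ndB5q1 pcB1 Cut.none Ext.none :=
  certB0 (fam := true) (s1 := false) (s2 := false) (a := 0) (b := 1) (c := 1) (cn := .pnn) (n1 := ndB3q0) (n2 := ndB5q1) (pc := pcB1) (cut := Cut.none) (xt := Ext.none) (P1 := 0) (W1 := 536870912) (P2 := 536870912) (W2 := 536870912) (P3 := 536870912) (W3 := 50465866) (N0 := 3) (En := eng) (mo := mog) (C1 := cd3q0) (C2 := cd5q1) (C3 := pd1)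
    rfl k0_mm_011

noncomputable def f_mm_012 : ℕ → ℕ → ℕ → ℕ → Bool := onCell 0 536870912 536870912 536870912 536870912 50465866
    (rowB 3 eng mog cd3q0 cd5q1 pd2 0 true false false .pnp 0 1 2 (qsf 0 536870912 536870912 536870912 2) ndB3q0 ndB5q1 pcB2 Cut.none Ext.none)

def k0_mm_012 : ∃ t, chk3 f_mm_012 t 1 1 1 = true :=
  ⟨(l 4), by decide +kernel⟩

theorem c_mm_012 : CertB 0 536870912 536870912 536870912 536870912 50465866 3 eng mog cd3q0 cd5q1 pd2 true false false .pnp 0 1 2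
    ndB3q0 ndB5q1 pcB2 Cut.none Ext.none :=
  certB0 (fam := true) (s1 := false) (s2 := false) (a := 0) (b := 1) (c := 2) (cn := .pnp) (n1 := ndB3q0) (n2 := ndB5q1) (pc := pcB2) (cut := Cut.none) (xt := Ext.none) (P1 := 0) (W1 := 536870912) (P2 := 536870912) (W2 := 536870912) (P3 := 536870912) (W3 := 50465866) (N0 := 3) (En := eng) (mo := mog) (C1 := cd3q0) (C2 := cd5q1) (C3 := pd2)
    rfl k0_mm_012

noncomputable def f_mm_022 : ℕ → ℕ → ℕ → ℕ → Bool := onCell 0 536870912 1073741824 536870912 536870912 50465866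
    (rowB 3 eng mog cd3q0 cd5q2 pd2 0 true false false .pp 0 2 2 (qsf 0 536870912 1073741824 536870912 2) ndB3q0 ndB5q2 pcB2 Cut.none Ext.none)

def k0_mm_022 : ∃ t, chk3 f_mm_022 t 1 1 1 = true :=
  ⟨(l 4), by decide +kernel⟩

theorem c_mm_022 : CertB 0 536870912 1073741824 536870912 536870912 50465866 3 eng mog cd3q0 cd5q2 pd2 true false false .pp 0 2 2
    ndB3q0 ndB5q2 pcB2 Cut.none Ext.none :=
  certB0 (fam := true) (s1 := false) (s2 := false) (a := 0) (b := 2) (c := 2) (cn := .pp) (n1 := ndB3q0) (n2 := ndB5q2) (pc := pcB2) (cut := Cut.none) (xt := Ext.none) (P1 := 0) (W1 := 536870912) (P2 := 1073741824) (W2 := 536870912) (P3 := 536870912) (W3 := 50465866) (N0 := 3) (En := eng) (mo := mog) (C1 := cd3q0) (C2 := cd5q2) (C3 := pd2)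
    rfl k0_mm_022

noncomputable def f_mm_023 : ℕ → ℕ → ℕ → ℕ → Bool := onCell 0 536870912 1073741824 536870912 536870912 50465866
    (rowB 3 eng mog cd3q0 cd5q2 pd3 0 true false false .up 0 2 3 (qsf 0 536870912 1073741824 536870912 3) ndB3q0 ndB5q2 pcB3 Cut.none Ext.none)

def k0_mm_023 : ∃ t, chk3 f_mm_023 t 1 1 1 = true :=
  ⟨(l 4), by decide +kernel⟩

theorem c_mm_023 : CertB 0 536870912 1073741824 536870912 536870912 50465866 3 eng mog cd3q0 cd5q2 pd3 true false false .up 0 2 3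
    ndB3q0 ndB5q2 pcB3 Cut.none Ext.none :=
  certB0 (fam := true) (s1 := false) (s2 := false) (a := 0) (b := 2) (c := 3) (cn := .up) (n1 := ndB3q0) (n2 := ndB5q2) (pc := pcB3) (cut := Cut.none) (xt := Ext.none) (P1 := 0) (W1 := 536870912) (P2 := 1073741824) (W2 := 536870912) (P3 := 536870912) (W3 := 50465866) (N0 := 3) (En := eng) (mo := mog) (C1 := cd3q0) (C2 := cd5q2) (C3 := pd3)
    rfl k0_mm_023

noncomputable def f_mm_033 : ℕ → ℕ → ℕ → ℕ → Bool := onCell 0 536870912 0 1230186008 536870912 50465866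
    (rowB 3 eng mog cd3q0 cd5q3 pd3 0 true false false .pnn 0 3 3 (qsf 0 536870912 0 1230186008 3) ndB3q0 ndB5q3 pcB3 Cut.none Ext.none)

def k0_mm_033 : ∃ t, chk3 f_mm_033 t 1 1 1 = true :=
  ⟨(l 5), by decide +kernel⟩

theorem c_mm_033 : CertB 0 536870912 0 1230186008 536870912 50465866 3 eng mog cd3q0 cd5q3 pd3 true false false .pnn 0 3 3
    ndB3q0 ndB5q3 pcB3 Cut.none Ext.none :=
  certB0 (fam := true) (s1 := false) (s2 := false) (a := 0) (b := 3) (c := 3) (cn := .pnn) (n1 := ndB3q0) (n2 := ndB5q3) (pc := pcB3) (cut := Cut.none) (xt := Ext.none) (P1 := 0) (W1 := 536870912) (P2 := 0) (W2 := 1230186008) (P3 := 536870912) (W3 := 50465866) (N0 := 3) (En := eng) (mo := mog) (C1 := cd3q0) (C2 := cd5q3) (C3 := pd3)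
    rfl k0_mm_033

noncomputable def f_mm_101 : ℕ → ℕ → ℕ → ℕ → Bool := onCell 536870912 536870912 0 536870912 536870912 50465866
    (rowB 3 eng mog cd3q1 cd5q0 pd1 0 true false false .npn 1 0 1 (qsf 536870912 536870912 0 536870912 1) ndB3q1 ndB5q0 pcB1 Cut.none Ext.none)

def k0_mm_101 : ∃ t, chk3 f_mm_101 t 1 1 1 = true :=
  ⟨(l 4), by decide +kernel⟩

theorem c_mm_101 : CertB 536870912 536870912 0 536870912 536870912 50465866 3 eng mog cd3q1 cd5q0 pd1 true false false .npn 1 0 1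
    ndB3q1 ndB5q0 pcB1 Cut.none Ext.none :=
  certB0 (fam := true) (s1 := false) (s2 := false) (a := 1) (b := 0) (c := 1) (cn := .npn) (n1 := ndB3q1) (n2 := ndB5q0) (pc := pcB1) (cut := Cut.none) (xt := Ext.none) (P1 := 536870912) (W1 := 536870912) (P2 := 0) (W2 := 536870912) (P3 := 536870912) (W3 := 50465866) (N0 := 3) (En := eng) (mo := mog) (C1 := cd3q1) (C2 := cd5q0) (C3 := pd1)
    rfl k0_mm_101

noncomputable def f_mm_102 : ℕ → ℕ → ℕ → ℕ → Bool := onCell 536870912 536870912 0 536870912 536870912 50465866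
    (rowB 3 eng mog cd3q1 cd5q0 pd2 0 true false false .npp 1 0 2 (qsf 536870912 536870912 0 536870912 2) ndB3q1 ndB5q0 pcB2 Cut.none Ext.none)

def k0_mm_102 : ∃ t, chk3 f_mm_102 t 1 1 1 = true :=
  ⟨(l 4), by decide +kernel⟩

theorem c_mm_102 : CertB 536870912 536870912 0 536870912 536870912 50465866 3 eng mog cd3q1 cd5q0 pd2 true false false .npp 1 0 2
    ndB3q1 ndB5q0 pcB2 Cut.none Ext.none :=
  certB0 (fam := true) (s1 := false) (s2 := false) (a := 1) (b := 0) (c := 2) (cn := .npp) (n1 := ndB3q1) (n2 := ndB5q0) (pc := pcB2) (cut := Cut.none) (xt := Ext.none) (P1 := 536870912) (W1 := 536870912) (P2 := 0) (W2 := 536870912) (P3 := 536870912) (W3 := 50465866) (N0 := 3) (En := eng) (mo := mog) (C1 := cd3q1) (C2 := cd5q0) (C3 := pd2)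
    rfl k0_mm_102

noncomputable def f_mm_112 : ℕ → ℕ → ℕ → ℕ → Bool := onCell 536870912 536870912 536870912 536870912 536870912 50465866
    (rowB 3 eng mog cd3q1 cd5q1 pd2 0 true false false .dn 1 1 2 (qsf 536870912 536870912 536870912 536870912 2) ndB3q1 ndB5q1 pcB2 Cut.none Ext.none)

def k0_mm_112 : ∃ t, chk3 f_mm_112 t 1 1 1 = true :=
  ⟨(l 4), by decide +kernel⟩

theorem c_mm_112 : CertB 536870912 536870912 536870912 536870912 536870912 50465866 3 eng mog cd3q1 cd5q1 pd2 true false false .dn 1 1 2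
    ndB3q1 ndB5q1 pcB2 Cut.none Ext.none :=
  certB0 (fam := true) (s1 := false) (s2 := false) (a := 1) (b := 1) (c := 2) (cn := .dn) (n1 := ndB3q1) (n2 := ndB5q1) (pc := pcB2) (cut := Cut.none) (xt := Ext.none) (P1 := 536870912) (W1 := 536870912) (P2 := 536870912) (W2 := 536870912) (P3 := 536870912) (W3 := 50465866) (N0 := 3) (En := eng) (mo := mog) (C1 := cd3q1) (C2 := cd5q1) (C3 := pd2)
    rfl k0_mm_112

noncomputable def f_mm_113 : ℕ → ℕ → ℕ → ℕ → Bool := onCell 536870912 536870912 536870912 536870912 536870912 50465866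
    (rowB 3 eng mog cd3q1 cd5q1 pd3 0 true false false .nn 1 1 3 (qsf 536870912 536870912 536870912 536870912 3) ndB3q1 ndB5q1 pcB3 Cut.none Ext.none)

def k0_mm_113 : ∃ t, chk3 f_mm_113 t 1 1 1 = true :=
  ⟨(l 4), by decide +kernel⟩

theorem c_mm_113 : CertB 536870912 536870912 536870912 536870912 536870912 50465866 3 eng mog cd3q1 cd5q1 pd3 true false false .nn 1 1 3
    ndB3q1 ndB5q1 pcB3 Cut.none Ext.none :=
  certB0 (fam := true) (s1 := false) (s2 := false) (a := 1) (b := 1) (c := 3) (cn := .nn) (n1 := ndB3q1) (n2 := ndB5q1) (pc := pcB3) (cut := Cut.none) (xt := Ext.none) (P1 := 536870912) (W1 := 536870912) (P2 := 536870912) (W2 := 536870912) (P3 := 536870912) (W3 := 50465866) (N0 := 3) (En := eng) (mo := mog) (C1 := cd3q1) (C2 := cd5q1) (C3 := pd3)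
    rfl k0_mm_113

noncomputable def f_mm_123 : ℕ → ℕ → ℕ → ℕ → Bool := onCell 536870912 536870912 1073741824 536870912 536870912 50465866
    (rowB 3 eng mog cd3q1 cd5q2 pd3 0 true false false .npn 1 2 3 (qsf 536870912 536870912 1073741824 536870912 3) ndB3q1 ndB5q2 pcB3 Cut.none Ext.none)

def k0_mm_123 : ∃ t, chk3 f_mm_123 t 1 1 1 = true :=
  ⟨(l 4), by decide +kernel⟩

theorem c_mm_123 : CertB 536870912 536870912 1073741824 536870912 536870912 50465866 3 eng mog cd3q1 cd5q2 pd3 true false false .npn 1 2 3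
    ndB3q1 ndB5q2 pcB3 Cut.none Ext.none :=
  certB0 (fam := true) (s1 := false) (s2 := false) (a := 1) (b := 2) (c := 3) (cn := .npn) (n1 := ndB3q1) (n2 := ndB5q2) (pc := pcB3) (cut := Cut.none) (xt := Ext.none) (P1 := 536870912) (W1 := 536870912) (P2 := 1073741824) (W2 := 536870912) (P3 := 536870912) (W3 := 50465866) (N0 := 3) (En := eng) (mo := mog) (C1 := cd3q1) (C2 := cd5q2) (C3 := pd3)
    rfl k0_mm_123

noncomputable def f_mm_133 : ℕ → ℕ → ℕ → ℕ → Bool := onCell 536870912 536870912 0 1230186008 536870912 50465866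
    (rowB 3 eng mog cd3q1 cd5q3 pd3 0 true false false .dn 1 3 3 (qsf 536870912 536870912 0 1230186008 3) ndB3q1 ndB5q3 pcB3 Cut.none Ext.none)

def k0_mm_133 : ∃ t, chk3 f_mm_133 t 1 1 1 = true :=
  ⟨(l 4), by decide +kernel⟩

theorem c_mm_133 : CertB 536870912 536870912 0 1230186008 536870912 50465866 3 eng mog cd3q1 cd5q3 pd3 true false false .dn 1 3 3
    ndB3q1 ndB5q3 pcB3 Cut.none Ext.none :=
  certB0 (fam := true) (s1 := false) (s2 := false) (a := 1) (b := 3) (c := 3) (cn := .dn) (n1 := ndB3q1) (n2 := ndB5q3) (pc := pcB3) (cut := Cut.none) (xt := Ext.none) (P1 := 536870912) (W1 := 536870912) (P2 := 0) (W2 := 1230186008) (P3 := 536870912) (W3 := 50465866) (N0 := 3) (En := eng) (mo := mog) (C1 := cd3q1) (C2 := cd5q3) (C3 := pd3)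
    rfl k0_mm_133

noncomputable def f_mm_202_a : ℕ → ℕ → ℕ → ℕ → Bool := onCell 0 536870912 0 536870912 536870912 50465866
    (rowB 3 eng mog cd3q2a cd5q0 pd2 0 true false false .pp 2 0 2 (qsf 0 536870912 0 536870912 2) ndB3q2a ndB5q0 pcB2 Cut.none Ext.none)

def k0_mm_202_a : ∃ t, chk3 f_mm_202_a t 1 1 1 = true :=
  ⟨(l 4), by decide +kernel⟩

theorem c_mm_202_a : CertB 0 536870912 0 536870912 536870912 50465866 3 eng mog cd3q2a cd5q0 pd2 true false false .pp 2 0 2
    ndB3q2a ndB5q0 pcB2 Cut.none Ext.none :=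
  certB0 (fam := true) (s1 := false) (s2 := false) (a := 2) (b := 0) (c := 2) (cn := .pp) (n1 := ndB3q2a) (n2 := ndB5q0) (pc := pcB2) (cut := Cut.none) (xt := Ext.none) (P1 := 0) (W1 := 536870912) (P2 := 0) (W2 := 536870912) (P3 := 536870912) (W3 := 50465866) (N0 := 3) (En := eng) (mo := mog) (C1 := cd3q2a) (C2 := cd5q0) (C3 := pd2)
    rfl k0_mm_202_a

noncomputable def f_mm_202_b : ℕ → ℕ → ℕ → ℕ → Bool := onCell 1239849684 370763052 0 536870912 536870912 50465866
    (rowB 3 eng mog cd3q2b cd5q0 pd2 0 true false false .pp 2 0 2 (qsf 1239849684 370763052 0 536870912 2) ndB3q2b ndB5q0 pcB2 Cut.none Ext.none)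

def k0_mm_202_b : ∃ t, chk3 f_mm_202_b t 1 1 1 = true :=
  ⟨(l 4), by decide +kernel⟩

theorem c_mm_202_b : CertB 1239849684 370763052 0 536870912 536870912 50465866 3 eng mog cd3q2b cd5q0 pd2 true false false .pp 2 0 2
    ndB3q2b ndB5q0 pcB2 Cut.none Ext.none :=
  certB0 (fam := true) (s1 := false) (s2 := false) (a := 2) (b := 0) (c := 2) (cn := .pp) (n1 := ndB3q2b) (n2 := ndB5q0) (pc := pcB2) (cut := Cut.none) (xt := Ext.none) (P1 := 1239849684) (W1 := 370763052) (P2 := 0) (W2 := 536870912) (P3 := 536870912) (W3 := 50465866) (N0 := 3) (En := eng) (mo := mog) (C1 := cd3q2b) (C2 := cd5q0) (C3 := pd2)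
    rfl k0_mm_202_b

noncomputable def f_mm_203_a : ℕ → ℕ → ℕ → ℕ → Bool := onCell 0 536870912 0 536870912 536870912 50465866
    (rowB 3 eng mog cd3q2a cd5q0 pd3 0 true false false .up 2 0 3 (qsf 0 536870912 0 536870912 3) ndB3q2a ndB5q0 pcB3 Cut.none Ext.none)

def k0_mm_203_a : ∃ t, chk3 f_mm_203_a t 1 1 1 = true :=
  ⟨(l 4), by decide +kernel⟩

theorem c_mm_203_a : CertB 0 536870912 0 536870912 536870912 50465866 3 eng mog cd3q2a cd5q0 pd3 true false false .up 2 0 3
    ndB3q2a ndB5q0 pcB3 Cut.none Ext.none :=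
  certB0 (fam := true) (s1 := false) (s2 := false) (a := 2) (b := 0) (c := 3) (cn := .up) (n1 := ndB3q2a) (n2 := ndB5q0) (pc := pcB3) (cut := Cut.none) (xt := Ext.none) (P1 := 0) (W1 := 536870912) (P2 := 0) (W2 := 536870912) (P3 := 536870912) (W3 := 50465866) (N0 := 3) (En := eng) (mo := mog) (C1 := cd3q2a) (C2 := cd5q0) (C3 := pd3)
    rfl k0_mm_203_a

noncomputable def f_mm_203_b : ℕ → ℕ → ℕ → ℕ → Bool := onCell 1239849684 370763052 0 536870912 536870912 50465866
    (rowB 3 eng mog cd3q2b cd5q0 pd3 0 true false false .up 2 0 3 (qsf 1239849684 370763052 0 536870912 3) ndB3q2b ndB5q0 pcB3 Cut.none Ext.none)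

def k0_mm_203_b : ∃ t, chk3 f_mm_203_b t 1 1 1 = true :=
  ⟨(l 4), by decide +kernel⟩

theorem c_mm_203_b : CertB 1239849684 370763052 0 536870912 536870912 50465866 3 eng mog cd3q2b cd5q0 pd3 true false false .up 2 0 3
    ndB3q2b ndB5q0 pcB3 Cut.none Ext.none :=
  certB0 (fam := true) (s1 := false) (s2 := false) (a := 2) (b := 0) (c := 3) (cn := .up) (n1 := ndB3q2b) (n2 := ndB5q0) (pc := pcB3) (cut := Cut.none) (xt := Ext.none) (P1 := 1239849684) (W1 := 370763052) (P2 := 0) (W2 := 536870912) (P3 := 536870912) (W3 := 50465866) (N0 := 3) (En := eng) (mo := mog) (C1 := cd3q2b) (C2 := cd5q0) (C3 := pd3)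
    rfl k0_mm_203_b

noncomputable def f_mm_213_a : ℕ → ℕ → ℕ → ℕ → Bool := onCell 0 536870912 536870912 536870912 536870912 50465866
    (rowB 3 eng mog cd3q2a cd5q1 pd3 0 true false false .pnn 2 1 3 (qsf 0 536870912 536870912 536870912 3) ndB3q2a ndB5q1 pcB3 Cut.none Ext.none)

def k0_mm_213_a : ∃ t, chk3 f_mm_213_a t 1 1 1 = true :=
  ⟨(l 4), by decide +kernel⟩

theorem c_mm_213_a : CertB 0 536870912 536870912 536870912 536870912 50465866 3 eng mog cd3q2a cd5q1 pd3 true false false .pnn 2 1 3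
    ndB3q2a ndB5q1 pcB3 Cut.none Ext.none :=
  certB0 (fam := true) (s1 := false) (s2 := false) (a := 2) (b := 1) (c := 3) (cn := .pnn) (n1 := ndB3q2a) (n2 := ndB5q1) (pc := pcB3) (cut := Cut.none) (xt := Ext.none) (P1 := 0) (W1 := 536870912) (P2 := 536870912) (W2 := 536870912) (P3 := 536870912) (W3 := 50465866) (N0 := 3) (En := eng) (mo := mog) (C1 := cd3q2a) (C2 := cd5q1) (C3 := pd3)
    rfl k0_mm_213_a

noncomputable def f_mm_213_b : ℕ → ℕ → ℕ → ℕ → Bool := onCell 1239849684 370763052 536870912 536870912 536870912 50465866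
    (rowB 3 eng mog cd3q2b cd5q1 pd3 0 true false false .pnn 2 1 3 (qsf 1239849684 370763052 536870912 536870912 3) ndB3q2b ndB5q1 pcB3 Cut.none Ext.none)

def k0_mm_213_b : ∃ t, chk3 f_mm_213_b t 1 1 1 = true :=
  ⟨(l 4), by decide +kernel⟩

theorem c_mm_213_b : CertB 1239849684 370763052 536870912 536870912 536870912 50465866 3 eng mog cd3q2b cd5q1 pd3 true false false .pnn 2 1 3
    ndB3q2b ndB5q1 pcB3 Cut.none Ext.none :=
  certB0 (fam := true) (s1 := false) (s2 := false) (a := 2) (b := 1) (c := 3) (cn := .pnn) (n1 := ndB3q2b) (n2 := ndB5q1) (pc := pcB3) (cut := Cut.none) (xt := Ext.none) (P1 := 1239849684) (W1 := 370763052) (P2 := 536870912) (W2 := 536870912) (P3 := 536870912) (W3 := 50465866) (N0 := 3) (En := eng) (mo := mog) (C1 := cd3q2b) (C2 := cd5q1) (C3 := pd3)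
    rfl k0_mm_213_b

noncomputable def f_mm_303 : ℕ → ℕ → ℕ → ℕ → Bool := onCell 1610612736 536870912 0 536870912 536870912 50465866
    (rowB 3 eng mog cd3q3 cd5q0 pd3 0 true false false .npn 3 0 3 (qsf 1610612736 536870912 0 536870912 3) ndB3q3 ndB5q0 pcB3 Cut.none Ext.none)

def k0_mm_303 : ∃ t, chk3 f_mm_303 t 1 1 1 = true :=
  ⟨(l 4), by decide +kernel⟩

theorem c_mm_303 : CertB 1610612736 536870912 0 536870912 536870912 50465866 3 eng mog cd3q3 cd5q0 pd3 true false false .npn 3 0 3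
    ndB3q3 ndB5q0 pcB3 Cut.none Ext.none :=
  certB0 (fam := true) (s1 := false) (s2 := false) (a := 3) (b := 0) (c := 3) (cn := .npn) (n1 := ndB3q3) (n2 := ndB5q0) (pc := pcB3) (cut := Cut.none) (xt := Ext.none) (P1 := 1610612736) (W1 := 536870912) (P2 := 0) (W2 := 536870912) (P3 := 536870912) (W3 := 50465866) (N0 := 3) (En := eng) (mo := mog) (C1 := cd3q3) (C2 := cd5q0) (C3 := pd3)
    rfl k0_mm_303

noncomputable def f_mm_313 : ℕ → ℕ → ℕ → ℕ → Bool := onCell 1610612736 536870912 536870912 536870912 536870912 50465866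
    (rowB 3 eng mog cd3q3 cd5q1 pd3 0 true false false .dn 3 1 3 (qsf 1610612736 536870912 536870912 536870912 3) ndB3q3 ndB5q1 pcB3 Cut.none Ext.none)

def k0_mm_313 : ∃ t, chk3 f_mm_313 t 1 1 1 = true :=
  ⟨(l 4), by decide +kernel⟩

theorem c_mm_313 : CertB 1610612736 536870912 536870912 536870912 536870912 50465866 3 eng mog cd3q3 cd5q1 pd3 true false false .dn 3 1 3
    ndB3q3 ndB5q1 pcB3 Cut.none Ext.none :=
  certB0 (fam := true) (s1 := false) (s2 := false) (a := 3) (b := 1) (c := 3) (cn := .dn) (n1 := ndB3q3) (n2 := ndB5q1) (pc := pcB3) (cut := Cut.none) (xt := Ext.none) (P1 := 1610612736) (W1 := 536870912) (P2 := 536870912) (W2 := 536870912) (P3 := 536870912) (W3 := 50465866) (N0 := 3) (En := eng) (mo := mog) (C1 := cd3q3) (C2 := cd5q1) (C3 := pd3)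
    rfl k0_mm_313

end Pool.Agent.Strip051.G.I5000_5470.Tab.C.BA35

namespace Pool.Agent.Strip051.G.I5000_5470.Tab.C.BA36

open Pool.Agent.Strip051.PB Pool.Agent.Strip051.PB.T
open Pool.Agent.Strip051.G.I5000_5470.Tab

noncomputable def f_pp_001 : ℕ → ℕ → ℕ → ℕ → Bool := onCell 0 536870912 0 536870912 536870912 50465866
    (rowB 3 eng mog cd3q0 cd6q0 pd1 0 true true true .up 0 0 1 (qsf 0 536870912 0 536870912 1) ndB3q0 ndB6q0 pcB1 Cut.none Ext.none)

def k0_pp_001 : ∃ t, chk3 f_pp_001 t 1 1 1 = true :=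
  ⟨(l 4), by decide +kernel⟩

theorem c_pp_001 : CertB 0 536870912 0 536870912 536870912 50465866 3 eng mog cd3q0 cd6q0 pd1 true true true .up 0 0 1
    ndB3q0 ndB6q0 pcB1 Cut.none Ext.none :=
  certB0 (fam := true) (s1 := true) (s2 := true) (a := 0) (b := 0) (c := 1) (cn := .up) (n1 := ndB3q0) (n2 := ndB6q0) (pc := pcB1) (cut := Cut.none) (xt := Ext.none) (P1 := 0) (W1 := 536870912) (P2 := 0) (W2 := 536870912) (P3 := 536870912) (W3 := 50465866) (N0 := 3) (En := eng) (mo := mog) (C1 := cd3q0) (C2 := cd6q0) (C3 := pd1)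
    rfl k0_pp_001

noncomputable def f_pp_011 : ℕ → ℕ → ℕ → ℕ → Bool := onCell 0 536870912 536870912 536870912 536870912 50465866
    (rowB 3 eng mog cd3q0 cd6q1 pd1 0 true true true .pnn 0 1 1 (qsf 0 536870912 536870912 536870912 1) ndB3q0 ndB6q1 pcB1 Cut.none Ext.none)

def k0_pp_011 : ∃ t, chk3 f_pp_011 t 1 1 1 = true :=
  ⟨(l 4), by decide +kernel⟩

theorem c_pp_011 : CertB 0 536870912 536870912 536870912 536870912 50465866 3 eng mog cd3q0 cd6q1 pd1 true true true .pnn 0 1 1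
    ndB3q0 ndB6q1 pcB1 Cut.none Ext.none :=
  certB0 (fam := true) (s1 := true) (s2 := true) (a := 0) (b := 1) (c := 1) (cn := .pnn) (n1 := ndB3q0) (n2 := ndB6q1) (pc := pcB1) (cut := Cut.none) (xt := Ext.none) (P1 := 0) (W1 := 536870912) (P2 := 536870912) (W2 := 536870912) (P3 := 536870912) (W3 := 50465866) (N0 := 3) (En := eng) (mo := mog) (C1 := cd3q0) (C2 := cd6q1) (C3 := pd1)
    rfl k0_pp_011

noncomputable def f_pp_012 : ℕ → ℕ → ℕ → ℕ → Bool := onCell 0 536870912 536870912 536870912 536870912 50465866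
    (rowB 3 eng mog cd3q0 cd6q1 pd2 0 true true true .pnp 0 1 2 (qsf 0 536870912 536870912 536870912 2) ndB3q0 ndB6q1 pcB2 Cut.none Ext.none)

def k0_pp_012 : ∃ t, chk3 f_pp_012 t 1 1 1 = true :=
  ⟨(l 4), by decide +kernel⟩

theorem c_pp_012 : CertB 0 536870912 536870912 536870912 536870912 50465866 3 eng mog cd3q0 cd6q1 pd2 true true true .pnp 0 1 2
    ndB3q0 ndB6q1 pcB2 Cut.none Ext.none :=
  certB0 (fam := true) (s1 := true) (s2 := true) (a := 0) (b := 1) (c := 2) (cn := .pnp) (n1 := ndB3q0) (n2 := ndB6q1) (pc := pcB2) (cut := Cut.none) (xt := Ext.none) (P1 := 0) (W1 := 536870912) (P2 := 536870912) (W2 := 536870912) (P3 := 536870912) (W3 := 50465866) (N0 := 3) (En := eng) (mo := mog) (C1 := cd3q0) (C2 := cd6q1) (C3 := pd2)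
    rfl k0_pp_012

noncomputable def f_pp_022 : ℕ → ℕ → ℕ → ℕ → Bool := onCell 0 536870912 1073741824 536870912 536870912 50465866
    (rowB 3 eng mog cd3q0 cd6q2 pd2 0 true true true .pp 0 2 2 (qsf 0 536870912 1073741824 536870912 2) ndB3q0 ndB6q2 pcB2 Cut.none Ext.none)

def k0_pp_022 : ∃ t, chk3 f_pp_022 t 1 1 1 = true :=
  ⟨(l 4), by decide +kernel⟩

theorem c_pp_022 : CertB 0 536870912 1073741824 536870912 536870912 50465866 3 eng mog cd3q0 cd6q2 pd2 true true true .pp 0 2 2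
    ndB3q0 ndB6q2 pcB2 Cut.none Ext.none :=
  certB0 (fam := true) (s1 := true) (s2 := true) (a := 0) (b := 2) (c := 2) (cn := .pp) (n1 := ndB3q0) (n2 := ndB6q2) (pc := pcB2) (cut := Cut.none) (xt := Ext.none) (P1 := 0) (W1 := 536870912) (P2 := 1073741824) (W2 := 536870912) (P3 := 536870912) (W3 := 50465866) (N0 := 3) (En := eng) (mo := mog) (C1 := cd3q0) (C2 := cd6q2) (C3 := pd2)
    rfl k0_pp_022

noncomputable def f_pp_023 : ℕ → ℕ → ℕ → ℕ → Bool := onCell 0 536870912 1073741824 536870912 536870912 50465866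
    (rowB 3 eng mog cd3q0 cd6q2 pd3 0 true true true .up 0 2 3 (qsf 0 536870912 1073741824 536870912 3) ndB3q0 ndB6q2 pcB3 Cut.none Ext.none)

def k0_pp_023 : ∃ t, chk3 f_pp_023 t 1 1 1 = true :=
  ⟨(l 4), by decide +kernel⟩

theorem c_pp_023 : CertB 0 536870912 1073741824 536870912 536870912 50465866 3 eng mog cd3q0 cd6q2 pd3 true true true .up 0 2 3
    ndB3q0 ndB6q2 pcB3 Cut.none Ext.none :=
  certB0 (fam := true) (s1 := true) (s2 := true) (a := 0) (b := 2) (c := 3) (cn := .up) (n1 := ndB3q0) (n2 := ndB6q2) (pc := pcB3) (cut := Cut.none) (xt := Ext.none) (P1 := 0) (W1 := 536870912) (P2 := 1073741824) (W2 := 536870912) (P3 := 536870912) (W3 := 50465866) (N0 := 3) (En := eng) (mo := mog) (C1 := cd3q0) (C2 := cd6q2) (C3 := pd3)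
    rfl k0_pp_023

noncomputable def f_pp_033 : ℕ → ℕ → ℕ → ℕ → Bool := onCell 0 536870912 0 1230186008 536870912 50465866
    (rowB 3 eng mog cd3q0 cd6q3 pd3 0 true true true .pnn 0 3 3 (qsf 0 536870912 0 1230186008 3) ndB3q0 ndB6q3 pcB3 Cut.none Ext.none)

def k0_pp_033 : ∃ t, chk3 f_pp_033 t 1 1 1 = true :=
  ⟨(b (l 4) (l 4)), by decide +kernel⟩

theorem c_pp_033 : CertB 0 536870912 0 1230186008 536870912 50465866 3 eng mog cd3q0 cd6q3 pd3 true true true .pnn 0 3 3
    ndB3q0 ndB6q3 pcB3 Cut.none Ext.none :=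
  certB0 (fam := true) (s1 := true) (s2 := true) (a := 0) (b := 3) (c := 3) (cn := .pnn) (n1 := ndB3q0) (n2 := ndB6q3) (pc := pcB3) (cut := Cut.none) (xt := Ext.none) (P1 := 0) (W1 := 536870912) (P2 := 0) (W2 := 1230186008) (P3 := 536870912) (W3 := 50465866) (N0 := 3) (En := eng) (mo := mog) (C1 := cd3q0) (C2 := cd6q3) (C3 := pd3)
    rfl k0_pp_033

noncomputable def f_pp_101 : ℕ → ℕ → ℕ → ℕ → Bool := onCell 536870912 536870912 0 536870912 536870912 50465866
    (rowB 3 eng mog cd3q1 cd6q0 pd1 0 true true true .npn 1 0 1 (qsf 536870912 536870912 0 536870912 1) ndB3q1 ndB6q0 pcB1 Cut.none Ext.none)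

def k0_pp_101 : ∃ t, chk3 f_pp_101 t 1 1 1 = true :=
  ⟨(l 4), by decide +kernel⟩

theorem c_pp_101 : CertB 536870912 536870912 0 536870912 536870912 50465866 3 eng mog cd3q1 cd6q0 pd1 true true true .npn 1 0 1
    ndB3q1 ndB6q0 pcB1 Cut.none Ext.none :=
  certB0 (fam := true) (s1 := true) (s2 := true) (a := 1) (b := 0) (c := 1) (cn := .npn) (n1 := ndB3q1) (n2 := ndB6q0) (pc := pcB1) (cut := Cut.none) (xt := Ext.none) (P1 := 536870912) (W1 := 536870912) (P2 := 0) (W2 := 536870912) (P3 := 536870912) (W3 := 50465866) (N0 := 3) (En := eng) (mo := mog) (C1 := cd3q1) (C2 := cd6q0) (C3 := pd1)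
    rfl k0_pp_101

noncomputable def f_pp_102 : ℕ → ℕ → ℕ → ℕ → Bool := onCell 536870912 536870912 0 536870912 536870912 50465866
    (rowB 3 eng mog cd3q1 cd6q0 pd2 0 true true true .npp 1 0 2 (qsf 536870912 536870912 0 536870912 2) ndB3q1 ndB6q0 pcB2 Cut.none Ext.none)

def k0_pp_102 : ∃ t, chk3 f_pp_102 t 1 1 1 = true :=
  ⟨(l 4), by decide +kernel⟩

theorem c_pp_102 : CertB 536870912 536870912 0 536870912 536870912 50465866 3 eng mog cd3q1 cd6q0 pd2 true true true .npp 1 0 2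
    ndB3q1 ndB6q0 pcB2 Cut.none Ext.none :=
  certB0 (fam := true) (s1 := true) (s2 := true) (a := 1) (b := 0) (c := 2) (cn := .npp) (n1 := ndB3q1) (n2 := ndB6q0) (pc := pcB2) (cut := Cut.none) (xt := Ext.none) (P1 := 536870912) (W1 := 536870912) (P2 := 0) (W2 := 536870912) (P3 := 536870912) (W3 := 50465866) (N0 := 3) (En := eng) (mo := mog) (C1 := cd3q1) (C2 := cd6q0) (C3 := pd2)
    rfl k0_pp_102

noncomputable def f_pp_112 : ℕ → ℕ → ℕ → ℕ → Bool := onCell 536870912 536870912 536870912 536870912 536870912 50465866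
    (rowB 3 eng mog cd3q1 cd6q1 pd2 0 true true true .dn 1 1 2 (qsf 536870912 536870912 536870912 536870912 2) ndB3q1 ndB6q1 pcB2 Cut.none Ext.none)

def k0_pp_112 : ∃ t, chk3 f_pp_112 t 1 1 1 = true :=
  ⟨(l 4), by decide +kernel⟩

theorem c_pp_112 : CertB 536870912 536870912 536870912 536870912 536870912 50465866 3 eng mog cd3q1 cd6q1 pd2 true true true .dn 1 1 2
    ndB3q1 ndB6q1 pcB2 Cut.none Ext.none :=
  certB0 (fam := true) (s1 := true) (s2 := true) (a := 1) (b := 1) (c := 2) (cn := .dn) (n1 := ndB3q1) (n2 := ndB6q1) (pc := pcB2) (cut := Cut.none) (xt := Ext.none) (P1 := 536870912) (W1 := 536870912) (P2 := 536870912) (W2 := 536870912) (P3 := 536870912) (W3 := 50465866) (N0 := 3) (En := eng) (mo := mog) (C1 := cd3q1) (C2 := cd6q1) (C3 := pd2)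
    rfl k0_pp_112

noncomputable def f_pp_113 : ℕ → ℕ → ℕ → ℕ → Bool := onCell 536870912 536870912 536870912 536870912 536870912 50465866
    (rowB 3 eng mog cd3q1 cd6q1 pd3 0 true true true .nn 1 1 3 (qsf 536870912 536870912 536870912 536870912 3) ndB3q1 ndB6q1 pcB3 Cut.none Ext.none)

def k0_pp_113 : ∃ t, chk3 f_pp_113 t 1 1 1 = true :=
  ⟨(l 4), by decide +kernel⟩

theorem c_pp_113 : CertB 536870912 536870912 536870912 536870912 536870912 50465866 3 eng mog cd3q1 cd6q1 pd3 true true true .nn 1 1 3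
    ndB3q1 ndB6q1 pcB3 Cut.none Ext.none :=
  certB0 (fam := true) (s1 := true) (s2 := true) (a := 1) (b := 1) (c := 3) (cn := .nn) (n1 := ndB3q1) (n2 := ndB6q1) (pc := pcB3) (cut := Cut.none) (xt := Ext.none) (P1 := 536870912) (W1 := 536870912) (P2 := 536870912) (W2 := 536870912) (P3 := 536870912) (W3 := 50465866) (N0 := 3) (En := eng) (mo := mog) (C1 := cd3q1) (C2 := cd6q1) (C3 := pd3)
    rfl k0_pp_113

noncomputable def f_pp_123 : ℕ → ℕ → ℕ → ℕ → Bool := onCell 536870912 536870912 1073741824 536870912 536870912 50465866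
    (rowB 3 eng mog cd3q1 cd6q2 pd3 0 true true true .npn 1 2 3 (qsf 536870912 536870912 1073741824 536870912 3) ndB3q1 ndB6q2 pcB3 Cut.none Ext.none)

def k0_pp_123 : ∃ t, chk3 f_pp_123 t 1 1 1 = true :=
  ⟨(l 4), by decide +kernel⟩

theorem c_pp_123 : CertB 536870912 536870912 1073741824 536870912 536870912 50465866 3 eng mog cd3q1 cd6q2 pd3 true true true .npn 1 2 3
    ndB3q1 ndB6q2 pcB3 Cut.none Ext.none :=
  certB0 (fam := true) (s1 := true) (s2 := true) (a := 1) (b := 2) (c := 3) (cn := .npn) (n1 := ndB3q1) (n2 := ndB6q2) (pc := pcB3) (cut := Cut.none) (xt := Ext.none) (P1 := 536870912) (W1 := 536870912) (P2 := 1073741824) (W2 := 536870912) (P3 := 536870912) (W3 := 50465866) (N0 := 3) (En := eng) (mo := mog) (C1 := cd3q1) (C2 := cd6q2) (C3 := pd3)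
    rfl k0_pp_123

noncomputable def f_pp_133 : ℕ → ℕ → ℕ → ℕ → Bool := onCell 536870912 536870912 0 1230186008 536870912 50465866
    (rowB 3 eng mog cd3q1 cd6q3 pd3 0 true true true .dn 1 3 3 (qsf 536870912 536870912 0 1230186008 3) ndB3q1 ndB6q3 pcB3 Cut.none Ext.none)

def k0_pp_133 : ∃ t, chk3 f_pp_133 t 1 1 1 = true :=
  ⟨(l 4), by decide +kernel⟩

theorem c_pp_133 : CertB 536870912 536870912 0 1230186008 536870912 50465866 3 eng mog cd3q1 cd6q3 pd3 true true true .dn 1 3 3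
    ndB3q1 ndB6q3 pcB3 Cut.none Ext.none :=
  certB0 (fam := true) (s1 := true) (s2 := true) (a := 1) (b := 3) (c := 3) (cn := .dn) (n1 := ndB3q1) (n2 := ndB6q3) (pc := pcB3) (cut := Cut.none) (xt := Ext.none) (P1 := 536870912) (W1 := 536870912) (P2 := 0) (W2 := 1230186008) (P3 := 536870912) (W3 := 50465866) (N0 := 3) (En := eng) (mo := mog) (C1 := cd3q1) (C2 := cd6q3) (C3 := pd3)
    rfl k0_pp_133

noncomputable def f_pp_202_a : ℕ → ℕ → ℕ → ℕ → Bool := onCell 0 536870912 0 536870912 536870912 50465866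
    (rowB 3 eng mog cd3q2a cd6q0 pd2 0 true true true .pp 2 0 2 (qsf 0 536870912 0 536870912 2) ndB3q2a ndB6q0 pcB2 Cut.none Ext.none)

def k0_pp_202_a : ∃ t, chk3 f_pp_202_a t 1 1 1 = true :=
  ⟨(l 4), by decide +kernel⟩

theorem c_pp_202_a : CertB 0 536870912 0 536870912 536870912 50465866 3 eng mog cd3q2a cd6q0 pd2 true true true .pp 2 0 2
    ndB3q2a ndB6q0 pcB2 Cut.none Ext.none :=
  certB0 (fam := true) (s1 := true) (s2 := true) (a := 2) (b := 0) (c := 2) (cn := .pp) (n1 := ndB3q2a) (n2 := ndB6q0) (pc := pcB2) (cut := Cut.none) (xt := Ext.none) (P1 := 0) (W1 := 536870912) (P2 := 0) (W2 := 536870912) (P3 := 536870912) (W3 := 50465866) (N0 := 3) (En := eng) (mo := mog) (C1 := cd3q2a) (C2 := cd6q0) (C3 := pd2)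
    rfl k0_pp_202_a

noncomputable def f_pp_202_b : ℕ → ℕ → ℕ → ℕ → Bool := onCell 1239849684 370763052 0 536870912 536870912 50465866
    (rowB 3 eng mog cd3q2b cd6q0 pd2 0 true true true .pp 2 0 2 (qsf 1239849684 370763052 0 536870912 2) ndB3q2b ndB6q0 pcB2 Cut.none Ext.none)

def k0_pp_202_b : ∃ t, chk3 f_pp_202_b t 1 1 1 = true :=
  ⟨(l 4), by decide +kernel⟩

theorem c_pp_202_b : CertB 1239849684 370763052 0 536870912 536870912 50465866 3 eng mog cd3q2b cd6q0 pd2 true true true .pp 2 0 2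
    ndB3q2b ndB6q0 pcB2 Cut.none Ext.none :=
  certB0 (fam := true) (s1 := true) (s2 := true) (a := 2) (b := 0) (c := 2) (cn := .pp) (n1 := ndB3q2b) (n2 := ndB6q0) (pc := pcB2) (cut := Cut.none) (xt := Ext.none) (P1 := 1239849684) (W1 := 370763052) (P2 := 0) (W2 := 536870912) (P3 := 536870912) (W3 := 50465866) (N0 := 3) (En := eng) (mo := mog) (C1 := cd3q2b) (C2 := cd6q0) (C3 := pd2)
    rfl k0_pp_202_b

noncomputable def f_pp_203_a : ℕ → ℕ → ℕ → ℕ → Bool := onCell 0 536870912 0 536870912 536870912 50465866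
    (rowB 3 eng mog cd3q2a cd6q0 pd3 0 true true true .up 2 0 3 (qsf 0 536870912 0 536870912 3) ndB3q2a ndB6q0 pcB3 Cut.none Ext.none)

def k0_pp_203_a : ∃ t, chk3 f_pp_203_a t 1 1 1 = true :=
  ⟨(l 4), by decide +kernel⟩

theorem c_pp_203_a : CertB 0 536870912 0 536870912 536870912 50465866 3 eng mog cd3q2a cd6q0 pd3 true true true .up 2 0 3
    ndB3q2a ndB6q0 pcB3 Cut.none Ext.none :=
  certB0 (fam := true) (s1 := true) (s2 := true) (a := 2) (b := 0) (c := 3) (cn := .up) (n1 := ndB3q2a) (n2 := ndB6q0) (pc := pcB3) (cut := Cut.none) (xt := Ext.none) (P1 := 0) (W1 := 536870912) (P2 := 0) (W2 := 536870912) (P3 := 536870912) (W3 := 50465866) (N0 := 3) (En := eng) (mo := mog) (C1 := cd3q2a) (C2 := cd6q0) (C3 := pd3)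
    rfl k0_pp_203_a

noncomputable def f_pp_203_b : ℕ → ℕ → ℕ → ℕ → Bool := onCell 1239849684 370763052 0 536870912 536870912 50465866
    (rowB 3 eng mog cd3q2b cd6q0 pd3 0 true true true .up 2 0 3 (qsf 1239849684 370763052 0 536870912 3) ndB3q2b ndB6q0 pcB3 Cut.none Ext.none)

def k0_pp_203_b : ∃ t, chk3 f_pp_203_b t 1 1 1 = true :=
  ⟨(l 4), by decide +kernel⟩

theorem c_pp_203_b : CertB 1239849684 370763052 0 536870912 536870912 50465866 3 eng mog cd3q2b cd6q0 pd3 true true true .up 2 0 3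
    ndB3q2b ndB6q0 pcB3 Cut.none Ext.none :=
  certB0 (fam := true) (s1 := true) (s2 := true) (a := 2) (b := 0) (c := 3) (cn := .up) (n1 := ndB3q2b) (n2 := ndB6q0) (pc := pcB3) (cut := Cut.none) (xt := Ext.none) (P1 := 1239849684) (W1 := 370763052) (P2 := 0) (W2 := 536870912) (P3 := 536870912) (W3 := 50465866) (N0 := 3) (En := eng) (mo := mog) (C1 := cd3q2b) (C2 := cd6q0) (C3 := pd3)
    rfl k0_pp_203_b

noncomputable def f_pp_213_a : ℕ → ℕ → ℕ → ℕ → Bool := onCell 0 536870912 536870912 536870912 536870912 50465866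
    (rowB 3 eng mog cd3q2a cd6q1 pd3 0 true true true .pnn 2 1 3 (qsf 0 536870912 536870912 536870912 3) ndB3q2a ndB6q1 pcB3 Cut.none Ext.none)

def k0_pp_213_a : ∃ t, chk3 f_pp_213_a t 1 1 1 = true :=
  ⟨(l 4), by decide +kernel⟩

theorem c_pp_213_a : CertB 0 536870912 536870912 536870912 536870912 50465866 3 eng mog cd3q2a cd6q1 pd3 true true true .pnn 2 1 3
    ndB3q2a ndB6q1 pcB3 Cut.none Ext.none :=
  certB0 (fam := true) (s1 := true) (s2 := true) (a := 2) (b := 1) (c := 3) (cn := .pnn) (n1 := ndB3q2a) (n2 := ndB6q1) (pc := pcB3) (cut := Cut.none) (xt := Ext.none) (P1 := 0) (W1 := 536870912) (P2 := 536870912) (W2 := 536870912) (P3 := 536870912) (W3 := 50465866) (N0 := 3) (En := eng) (mo := mog) (C1 := cd3q2a) (C2 := cd6q1) (C3 := pd3)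
    rfl k0_pp_213_a

noncomputable def f_pp_213_b : ℕ → ℕ → ℕ → ℕ → Bool := onCell 1239849684 370763052 536870912 536870912 536870912 50465866
    (rowB 3 eng mog cd3q2b cd6q1 pd3 0 true true true .pnn 2 1 3 (qsf 1239849684 370763052 536870912 536870912 3) ndB3q2b ndB6q1 pcB3 Cut.none Ext.none)

def k0_pp_213_b : ∃ t, chk3 f_pp_213_b t 1 1 1 = true :=
  ⟨(l 4), by decide +kernel⟩

theorem c_pp_213_b : CertB 1239849684 370763052 536870912 536870912 536870912 50465866 3 eng mog cd3q2b cd6q1 pd3 true true true .pnn 2 1 3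
    ndB3q2b ndB6q1 pcB3 Cut.none Ext.none :=
  certB0 (fam := true) (s1 := true) (s2 := true) (a := 2) (b := 1) (c := 3) (cn := .pnn) (n1 := ndB3q2b) (n2 := ndB6q1) (pc := pcB3) (cut := Cut.none) (xt := Ext.none) (P1 := 1239849684) (W1 := 370763052) (P2 := 536870912) (W2 := 536870912) (P3 := 536870912) (W3 := 50465866) (N0 := 3) (En := eng) (mo := mog) (C1 := cd3q2b) (C2 := cd6q1) (C3 := pd3)
    rfl k0_pp_213_b

noncomputable def f_pp_303 : ℕ → ℕ → ℕ → ℕ → Bool := onCell 1610612736 536870912 0 536870912 536870912 50465866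
    (rowB 3 eng mog cd3q3 cd6q0 pd3 0 true true true .npn 3 0 3 (qsf 1610612736 536870912 0 536870912 3) ndB3q3 ndB6q0 pcB3 Cut.none Ext.none)

def k0_pp_303 : ∃ t, chk3 f_pp_303 t 1 1 1 = true :=
  ⟨(l 4), by decide +kernel⟩

theorem c_pp_303 : CertB 1610612736 536870912 0 536870912 536870912 50465866 3 eng mog cd3q3 cd6q0 pd3 true true true .npn 3 0 3
    ndB3q3 ndB6q0 pcB3 Cut.none Ext.none :=
  certB0 (fam := true) (s1 := true) (s2 := true) (a := 3) (b := 0) (c := 3) (cn := .npn) (n1 := ndB3q3) (n2 := ndB6q0) (pc := pcB3) (cut := Cut.none) (xt := Ext.none) (P1 := 1610612736) (W1 := 536870912) (P2 := 0) (W2 := 536870912) (P3 := 536870912) (W3 := 50465866) (N0 := 3) (En := eng) (mo := mog) (C1 := cd3q3) (C2 := cd6q0) (C3 := pd3)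
    rfl k0_pp_303

noncomputable def f_pp_313 : ℕ → ℕ → ℕ → ℕ → Bool := onCell 1610612736 536870912 536870912 536870912 536870912 50465866
    (rowB 3 eng mog cd3q3 cd6q1 pd3 0 true true true .dn 3 1 3 (qsf 1610612736 536870912 536870912 536870912 3) ndB3q3 ndB6q1 pcB3 Cut.none Ext.none)

def k0_pp_313 : ∃ t, chk3 f_pp_313 t 1 1 1 = true :=
  ⟨(l 4), by decide +kernel⟩

theorem c_pp_313 : CertB 1610612736 536870912 536870912 536870912 536870912 50465866 3 eng mog cd3q3 cd6q1 pd3 true true true .dn 3 1 3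
    ndB3q3 ndB6q1 pcB3 Cut.none Ext.none :=
  certB0 (fam := true) (s1 := true) (s2 := true) (a := 3) (b := 1) (c := 3) (cn := .dn) (n1 := ndB3q3) (n2 := ndB6q1) (pc := pcB3) (cut := Cut.none) (xt := Ext.none) (P1 := 1610612736) (W1 := 536870912) (P2 := 536870912) (W2 := 536870912) (P3 := 536870912) (W3 := 50465866) (N0 := 3) (En := eng) (mo := mog) (C1 := cd3q3) (C2 := cd6q1) (C3 := pd3)
    rfl k0_pp_313

noncomputable def f_pm_001 : ℕ → ℕ → ℕ → ℕ → Bool := onCell 0 536870912 0 536870912 536870912 50465866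
    (rowB 3 eng mog cd3q0 cd6q0 pd1 0 true true false .up 0 0 1 (qsf 0 536870912 0 536870912 1) ndB3q0 ndB6q0 pcB1 Cut.none Ext.none)

def k0_pm_001 : ∃ t, chk3 f_pm_001 t 1 1 1 = true :=
  ⟨(a (l 3) (l 3)), by decide +kernel⟩

theorem c_pm_001 : CertB 0 536870912 0 536870912 536870912 50465866 3 eng mog cd3q0 cd6q0 pd1 true true false .up 0 0 1
    ndB3q0 ndB6q0 pcB1 Cut.none Ext.none :=
  certB0 (fam := true) (s1 := true) (s2 := false) (a := 0) (b := 0) (c := 1) (cn := .up) (n1 := ndB3q0) (n2 := ndB6q0) (pc := pcB1) (cut := Cut.none) (xt := Ext.none) (P1 := 0) (W1 := 536870912) (P2 := 0) (W2 := 536870912) (P3 := 536870912) (W3 := 50465866) (N0 := 3) (En := eng) (mo := mog) (C1 := cd3q0) (C2 := cd6q0) (C3 := pd1)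
    rfl k0_pm_001

noncomputable def cut_pm_011 : Cut := Cut.of [[⟨0, 0, 0, 67108864⟩, ⟨1, 1, 0, 67108864⟩, ⟨2, 1, 0, 67108864⟩]]

noncomputable def f_pm_011 : ℕ → ℕ → ℕ → ℕ → Bool := onCell 0 536870912 536870912 536870912 536870912 50465866
    (rowB 3 eng mog cd3q0 cd6q1 pd1 1 true true false .pnn 0 1 1 (qsf 0 536870912 536870912 536870912 1) ndB3q0 ndB6q1 pcB1 cut_pm_011 Ext.none)

def k0_pm_011 : ∃ t, chk3 f_pm_011 t 1 1 1 = true :=
  ⟨(b (l 3) (a (b (l 3) (a (b (l 3) (a (b (l 3) (a (b (l 3) (l 6)) (l 3))) (l 3))) (l 3))) (l 3))), by decide +kernel⟩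

theorem c_pm_011 : CertB 0 536870912 536870912 536870912 536870912 50465866 3 eng mog cd3q0 cd6q1 pd1 true true false .pnn 0 1 1
    ndB3q0 ndB6q1 pcB1 cut_pm_011 Ext.none :=
  certB1 (fam := true) (s1 := true) (s2 := false) (a := 0) (b := 1) (c := 1) (cn := .pnn) (n1 := ndB3q0) (n2 := ndB6q1) (pc := pcB1) (cut := cut_pm_011) (xt := Ext.none) (P1 := 0) (W1 := 536870912) (P2 := 536870912) (W2 := 536870912) (P3 := 536870912) (W3 := 50465866) (N0 := 3) (En := eng) (mo := mog) (C1 := cd3q0) (C2 := cd6q1) (C3 := pd1)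
    rfl (fun _ => rfl) k0_pm_011

noncomputable def cut_pm_012 : Cut := Cut.of [[⟨0, 0, 0, 67108864⟩, ⟨1, 1, 0, 67108864⟩, ⟨2, 1, 0, 67108864⟩]]

noncomputable def f_pm_012 : ℕ → ℕ → ℕ → ℕ → Bool := onCell 1073741824 536870912 536870912 536870912 536870912 50465866
    (rowB 3 eng mog cd3q0 cd6q1 pd2 2 true true false .pnp 0 1 2 (qsf 0 536870912 536870912 536870912 2) ndB3q0 ndB6q1 pcB2 cut_pm_012 Ext.none)

def k0_pm_012 : ∃ t, chk3 f_pm_012 t 1 1 1 = true :=
  ⟨(a (a (b (a (l 3) (a (b (l 16587696) (b (l 16565760) (l 16547304))) (b (l 16608440) (l 16753464)))) (a (b (a (l 3) (b (l 3) (l 248739101783))) (a (b (l 3) (a (b (l 3) (l 6)) (b (l 3) (b (b (l 16677872) (l 6)) (l 6))))) (b (b (a (l 3) (l 16569944)) (a (l 16610576) (l 16661576))) (b (a (a (l 16633384) (l 16635008)) (a (l 16594632) (l 16576504))) (a (b (a (l 16647368) (l 16625856)) (b (l 16644328) (l 6))) (b (l 16595216) (l 16603024))))))) (b (a (b (l 16740416) (a (l 16538736) (l 16518464)))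 (b (l 16519464) (l 16643952))) (a (b (a (b (l 16542848) (l 16547208)) (l 16520848)) (b (a (l 16552208) (l 16522120)) (a (b (l 16557392) (l 16562168)) (l 16523544)))) (b (a (l 16498096) (l 16477040)) (b (a (l 16494344) (l 16468592)) (a (l 16490816) (l 16461584)))))))) (b (a (a (a (b (l 16626320) (l 16574632)) (b (l 2) (a (l 16580064) (a (l 16583192) (l 16591536))))) (b (l 2) (l 16605064))) (b (l 2) (l 16644224))) (a (b (a (a (b (l 16518720) (l 16480112)) (a (l 16497288) (a (l 16496632) (b (l 16527712) (l 16476040))))) (l 16528560)) (a (a (b (l 16458776) (b (l 16445176) (l 16435552))) (a (b (l 16446056) (l 16423160)) (a (b (l 16440320) (l 16415344)) (b (l 16441760) (a (l 16413224) (l 16413512)))))) (b (l 16427840) (l 16391888)))) (b (l 16528440) (b (l 16409784) (b (l 16355872) (l 16328240))))))) (b (a (b (l 2) (l 16777936)) (l 2)) (a (b (b (l 16689112) (l 16602424)) (b (l 16489352) (a (l 16328048) (l 16398064)))) (b (l 16944944) (a (l 16620632)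 (l 16813920)))))), by decide +kernel⟩

theorem c_pm_012 : CertB 0 536870912 536870912 536870912 536870912 50465866 3 eng mog cd3q0 cd6q1 pd2 true true false .pnp 0 1 2
    ndB3q0 ndB6q1 pcB2 cut_pm_012 Ext.none :=
  certB2 (fam := true) (s1 := true) (s2 := false) (a := 0) (b := 1) (c := 2) (cn := .pnp) (n1 := ndB3q0) (n2 := ndB6q1) (pc := pcB2) (cut := cut_pm_012) (xt := Ext.none) (P1 := 0) (W1 := 536870912) (P2 := 536870912) (W2 := 536870912) (P3 := 536870912) (W3 := 50465866) (N0 := 3) (En := eng) (mo := mog) (C1 := cd3q0) (C2 := cd6q1) (C3 := pd2)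
    rfl (fun _ => rfl) k0_pm_012

noncomputable def cut_pm_022 : Cut := Cut.of [[⟨0, 0, 0, 67108864⟩, ⟨1, 1, 0, 67108864⟩, ⟨2, 1, 0, 67108864⟩]]

noncomputable def f_pm_022 : ℕ → ℕ → ℕ → ℕ → Bool := onCell 0 536870912 1073741824 536870912 536870912 50465866
    (rowB 3 eng mog cd3q0 cd6q2 pd2 1 true true false .pp 0 2 2 (qsf 0 536870912 1073741824 536870912 2) ndB3q0 ndB6q2 pcB2 cut_pm_022 Ext.none)

def k0_pm_022 : ∃ t, chk3 f_pm_022 t 2 2 1 = true :=
  ⟨(b (b (a (a (b (a (l 6) (a (l 6) (l 1))) (b (a (l 6) (a (l 6) (b (l 1) (l 16626088)))) (a (a (a (a (l 16679240) (l 16657664)) (l 16663096)) (l 16662672)) (a (l 16667432) (b (l 16613600) (l 16601152)))))) (b (l 1) (a (b (l 1) (b (l 1) (l 16571256))) (l 1)))) (l 1)) (a (b (a (a (a (b (a (l 16647992) (l 16621472)) (l 16624304)) (b (l 16612256) (l 16583064))) (b (l 16632632) (l 16564952))) (a (b (a (l 16564968) (l 16545536)) (l 16534512)) (b (l 1) (l 16497216)))) (a (a (a (b (l 16561768) (l 16531296))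 (b (l 16554240) (l 16526000))) (b (l 16539552) (l 16514680))) (a (l 16587576) (b (l 16481408) (l 16465880))))) (b (l 1) (a (b (l 1) (l 16475344)) (l 1))))) (b (a (b (b (a (a (a (l 16501816) (l 16498688)) (l 16490648)) (l 16463272)) (b (a (a (a (l 16480672) (l 16479112)) (l 16473368)) (l 16450808)) (a (b (a (a (l 16470856) (l 16470264)) (l 16465504)) (b (a (a (l 16466384) (l 16466592)) (l 16462592)) (a (a (l 16463848) (a (l 16464584) (l 16485328))) (c (l 16470320) (l 16452152))))) (b (l 16445120) (b (l 16443296) (l 16442936)))))) (a (b (a (a (l 16447680) (l 16449776)) (l 16448272)) (a (a (l 16418888) (l 16422856)) (l 16424304))) (l 16424848))) (a (b (b (l 16467160) (b (l 16398232) (b (l 16395600) (b (l 16395584) (l 16396768))))) (l 16387552)) (b (l 1) (l 16324168)))) (a (a (a (b (b (l 16392368) (l 16362536)) (l 16274144)) (b (l 16387848) (l 16337824))) (b (l 16389816) (l 16354296))) (a (b (l 16368672) (l 16349184)) (l 16314296))))), by decide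 +kernel⟩

def k1_pm_022 : ∃ t, chk3 f_pm_022 t 2 3 1 = true :=
  ⟨(b (a (a (b (a (b (l 16249160) (l 16177032)) (b (l 16285096) (l 16228448))) (a (a (l 16153784) (l 16074376)) (l 16132600))) (b (b (l 16317872) (l 16280224)) (a (l 16192504) (l 16237504)))) (b (a (l 16319232) (l 16298048)) (a (l 16276160) (l 16278248)))) (a (a (b (a (b (l 16034128) (l 16011736)) (l 15972640)) (a (l 16099368) (l 15932128))) (b (b (l 16139664) (l 16076120)) (l 15976168))) (b (a (l 16219896) (l 16249168)) (a (l 16147864) (l 16212344))))), by decide +kernel⟩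

def k2_pm_022 : ∃ t, chk3 f_pm_022 t 3 1 1 = true :=
  ⟨(b (b (l 1) (b (l 1) (a (a (l 255583581079) (l 1)) (l 1)))) (b (a (b (a (l 16269256) (l 16279968)) (a (l 16271320) (l 16313304))) (b (l 1) (l 456910557255))) (a (a (a (l 16250848) (l 16264416)) (l 16466552)) (b (l 16507704) (l 16545496))))), by decide +kernel⟩

theorem s3_pm_022 : ∃ t, chk3 f_pm_022 t 2 1 1 = true := ex3_b k0_pm_022 k1_pm_022

theorem s4_pm_022 : ∃ t, chk3 f_pm_022 t 1 1 1 = true := ex3_a s3_pm_022 k2_pm_022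

theorem c_pm_022 : CertB 0 536870912 1073741824 536870912 536870912 50465866 3 eng mog cd3q0 cd6q2 pd2 true true false .pp 0 2 2
    ndB3q0 ndB6q2 pcB2 cut_pm_022 Ext.none :=
  certB1 (fam := true) (s1 := true) (s2 := false) (a := 0) (b := 2) (c := 2) (cn := .pp) (n1 := ndB3q0) (n2 := ndB6q2) (pc := pcB2) (cut := cut_pm_022) (xt := Ext.none) (P1 := 0) (W1 := 536870912) (P2 := 1073741824) (W2 := 536870912) (P3 := 536870912) (W3 := 50465866) (N0 := 3) (En := eng) (mo := mog) (C1 := cd3q0) (C2 := cd6q2) (C3 := pd2)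
    rfl (fun _ => rfl) s4_pm_022

noncomputable def f_pm_023 : ℕ → ℕ → ℕ → ℕ → Bool := onCell 0 536870912 1073741824 536870912 536870912 50465866
    (rowB 3 eng mog cd3q0 cd6q2 pd3 0 true true false .up 0 2 3 (qsf 0 536870912 1073741824 536870912 3) ndB3q0 ndB6q2 pcB3 Cut.none Ext.none)

def k0_pm_023 : ∃ t, chk3 f_pm_023 t 1 1 1 = true :=
  ⟨(a (b (a (l 1) (b (l 1) (l 438656574295))) (b (a (a (l 1) (l 525092078887)) (b (l 16254048) (l 16077520))) (a (b (l 646424860359) (a (l 16035880) (l 16076200))) (l 16281432)))) (b (b (a (l 377453367527) (l 16543168)) (a (l 390338204215) (l 16595216))) (b (a (l 16319616) (l 16667512)) (a (l 16573688) (a (l 16693136) (b (l 16722632) (b (l 16730880) (a (l 16733576) (a (l 16740792) (b (l 16743040) (l 16747000))))))))))), by decide +kernel⟩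

theorem c_pm_023 : CertB 0 536870912 1073741824 536870912 536870912 50465866 3 eng mog cd3q0 cd6q2 pd3 true true false .up 0 2 3
    ndB3q0 ndB6q2 pcB3 Cut.none Ext.none :=
  certB0 (fam := true) (s1 := true) (s2 := false) (a := 0) (b := 2) (c := 3) (cn := .up) (n1 := ndB3q0) (n2 := ndB6q2) (pc := pcB3) (cut := Cut.none) (xt := Ext.none) (P1 := 0) (W1 := 536870912) (P2 := 1073741824) (W2 := 536870912) (P3 := 536870912) (W3 := 50465866) (N0 := 3) (En := eng) (mo := mog) (C1 := cd3q0) (C2 := cd6q2) (C3 := pd3)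
    rfl k0_pm_023

noncomputable def f_pm_033 : ℕ → ℕ → ℕ → ℕ → Bool := onCell 1610612736 536870912 0 1230186008 536870912 50465866
    (rowB 3 eng mog cd3q0 cd6q3 pd3 2 true true false .pnn 0 3 3 (qsf 0 536870912 0 1230186008 3) ndB3q0 ndB6q3 pcB3 Cut.none Ext.none)

def k0_pm_033 : ∃ t, chk3 f_pm_033 t 1 1 1 = true :=
  ⟨(b (a (l 1) (a (l 1) (b (a (l 1) (l 4)) (a (b (a (l 1) (l 16743720)) (a (l 1164507037975) (l 16750304))) (a (l 4) (l 4)))))) (b (b (a (l 1) (a (a (l 1) (l 978749706391)) (a (a (l 16760256) (l 16751056)) (a (l 16743120) (l 4))))) (a (a (l 1) (a (l 1) (b (l 1) (l 993781482263)))) (a (a (b (l 1005056138951) (l 16720192)) (b (l 16744488) (l 16731464))) (a (a (l 16744472) (l 16750248)) (a (l 16746152) (l 4)))))) (a (b (a (l 1) (b (a (l 1107597973319) (l 16667520)) (l 937410302823))) (a (b (a (l 1) (l 971769106647)) (a (l 815539170343) (l 16259656))) (b (a (l 16482776) (l 16571384)) (l 16476240)))) (a (b (b (l 16707144) (l 16687008))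 (b (l 16663816) (l 16649984))) (a (b (l 16732208) (l 16718432)) (a (b (l 16745040) (l 16760696)) (b (a (l 16746560) (l 4)) (a (l 16749072) (l 16747640))))))))), by decide +kernel⟩

theorem c_pm_033 : CertB 0 536870912 0 1230186008 536870912 50465866 3 eng mog cd3q0 cd6q3 pd3 true true false .pnn 0 3 3
    ndB3q0 ndB6q3 pcB3 Cut.none Ext.none :=
  certB2 (fam := true) (s1 := true) (s2 := false) (a := 0) (b := 3) (c := 3) (cn := .pnn) (n1 := ndB3q0) (n2 := ndB6q3) (pc := pcB3) (cut := Cut.none) (xt := Ext.none) (P1 := 0) (W1 := 536870912) (P2 := 0) (W2 := 1230186008) (P3 := 536870912) (W3 := 50465866) (N0 := 3) (En := eng) (mo := mog) (C1 := cd3q0) (C2 := cd6q3) (C3 := pd3)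
    rfl (fun _ => rfl) k0_pm_033

noncomputable def f_pm_101 : ℕ → ℕ → ℕ → ℕ → Bool := onCell 536870912 536870912 536870912 536870912 536870912 50465866
    (rowB 3 eng mog cd3q1 cd6q0 pd1 1 true true false .npn 1 0 1 (qsf 536870912 536870912 0 536870912 1) ndB3q1 ndB6q0 pcB1 Cut.none Ext.none)

def k0_pm_101 : ∃ t, chk3 f_pm_101 t 1 1 1 = true :=
  ⟨(l 3), by decide +kernel⟩

theorem c_pm_101 : CertB 536870912 536870912 0 536870912 536870912 50465866 3 eng mog cd3q1 cd6q0 pd1 true true false .npn 1 0 1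
    ndB3q1 ndB6q0 pcB1 Cut.none Ext.none :=
  certB1 (fam := true) (s1 := true) (s2 := false) (a := 1) (b := 0) (c := 1) (cn := .npn) (n1 := ndB3q1) (n2 := ndB6q0) (pc := pcB1) (cut := Cut.none) (xt := Ext.none) (P1 := 536870912) (W1 := 536870912) (P2 := 0) (W2 := 536870912) (P3 := 536870912) (W3 := 50465866) (N0 := 3) (En := eng) (mo := mog) (C1 := cd3q1) (C2 := cd6q0) (C3 := pd1)
    rfl (fun _ => rfl) k0_pm_101

noncomputable def f_pm_102 : ℕ → ℕ → ℕ → ℕ → Bool := onCell 1073741824 536870912 0 536870912 536870912 50465866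
    (rowB 3 eng mog cd3q1 cd6q0 pd2 2 true true false .npp 1 0 2 (qsf 536870912 536870912 0 536870912 2) ndB3q1 ndB6q0 pcB2 Cut.none Ext.none)

def k0_pm_102 : ∃ t, chk3 f_pm_102 t 1 1 1 = true :=
  ⟨(a (a (b (a (a (l 3) (b (b (a (l 16649112) (l 130023266119)) (l 129553594439)) (b (l 16648016) (l 16640576)))) (a (b (b (l 135928881895) (l 16683536)) (b (l 16677968) (l 16670560))) (b (b (l 2) (l 16710336)) (b (l 16707768) (l 16702168))))) (a (b (l 3) (l 3)) (b (a (b (l 16661312) (l 16651616)) (l 16688560)) (a (b (l 16642120) (l 16626368)) (b (l 16672952) (l 16659256)))))) (b (a (a (a (b (l 105864648567) (l 16727688)) (b (l 2) (a (l 16737872) (a (l 16742232) (b (l 16742728) (l 16741328)))))) (b (l 2) (l 16762008))) (b (l 2) (l 16802896))) (a (a (b (a (l 16713424) (a (l 16726000) (a (l 16732176) (l 16735744)))) (a (l 16691064) (a (l 16704024) (a (l 16710912) (l 16716936))))) (b (l 16753656) (l 16737120))) (b (l 16807248) (l 16796840))))) (a (b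 (b (l 2) (a (l 16978424) (l 2))) (b (a (l 16892712) (l 16991032)) (l 16955904))) (b (l 2) (b (a (l 17120840) (l 2)) (a (l 17198960) (l 17454272)))))), by decide +kernel⟩

theorem c_pm_102 : CertB 536870912 536870912 0 536870912 536870912 50465866 3 eng mog cd3q1 cd6q0 pd2 true true false .npp 1 0 2
    ndB3q1 ndB6q0 pcB2 Cut.none Ext.none :=
  certB2 (fam := true) (s1 := true) (s2 := false) (a := 1) (b := 0) (c := 2) (cn := .npp) (n1 := ndB3q1) (n2 := ndB6q0) (pc := pcB2) (cut := Cut.none) (xt := Ext.none) (P1 := 536870912) (W1 := 536870912) (P2 := 0) (W2 := 536870912) (P3 := 536870912) (W3 := 50465866) (N0 := 3) (En := eng) (mo := mog) (C1 := cd3q1) (C2 := cd6q0) (C3 := pd2)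
    rfl (fun _ => rfl) k0_pm_102

noncomputable def f_pm_112 : ℕ → ℕ → ℕ → ℕ → Bool := onCell 536870912 536870912 1073741824 536870912 536870912 50465866
    (rowB 3 eng mog cd3q1 cd6q1 pd2 1 true true false .dn 1 1 2 (qsf 536870912 536870912 536870912 536870912 2) ndB3q1 ndB6q1 pcB2 Cut.none Ext.none)

def k0_pm_112 : ∃ t, chk3 f_pm_112 t 1 1 1 = true :=
  ⟨(a (b (b (b (l 3) (a (b (l 16607000) (l 16623632)) (b (l 1) (l 331283197031)))) (b (b (b (a (l 16635232) (l 16689896)) (a (b (l 16640800) (b (l 16643704) (l 16650720))) (b (l 16700024) (b (l 16705496) (l 16711184))))) (a (l 16660712) (l 16727656))) (a (l 16683448) (l 16777112)))) (b (a (l 16780048) (l 17060400)) (a (l 16925416) (l 17338736)))) (b (b (l 1) (b (l 1) (a (l 16799968) (l 1)))) (b (a (l 16956616) (l 16935464)) (a (l 17410048) (l 17356432))))), by decide +kernel⟩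

theorem c_pm_112 : CertB 536870912 536870912 536870912 536870912 536870912 50465866 3 eng mog cd3q1 cd6q1 pd2 true true false .dn 1 1 2
    ndB3q1 ndB6q1 pcB2 Cut.none Ext.none :=
  certB1 (fam := true) (s1 := true) (s2 := false) (a := 1) (b := 1) (c := 2) (cn := .dn) (n1 := ndB3q1) (n2 := ndB6q1) (pc := pcB2) (cut := Cut.none) (xt := Ext.none) (P1 := 536870912) (W1 := 536870912) (P2 := 536870912) (W2 := 536870912) (P3 := 536870912) (W3 := 50465866) (N0 := 3) (En := eng) (mo := mog) (C1 := cd3q1) (C2 := cd6q1) (C3 := pd2)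
    rfl (fun _ => rfl) k0_pm_112

noncomputable def f_pm_113 : ℕ → ℕ → ℕ → ℕ → Bool := onCell 536870912 536870912 1610612736 536870912 536870912 50465866
    (rowB 3 eng mog cd3q1 cd6q1 pd3 1 true true false .nn 1 1 3 (qsf 536870912 536870912 536870912 536870912 3) ndB3q1 ndB6q1 pcB3 Cut.none Ext.none)

def k0_pm_113 : ∃ t, chk3 f_pm_113 t 1 1 1 = true :=
  ⟨(a (b (a (b (l 17018040) (l 16990472)) (b (l 17497024) (l 17344464))) (b (a (l 2) (l 17190872)) (l 2))) (b (b (a (l 17637040) (l 17856104)) (l 17464920)) (b (l 17169360) (b (l 16994592) (b (l 16909016) (b (l 16866600) (l 16834824))))))), by decide +kernel⟩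

theorem c_pm_113 : CertB 536870912 536870912 536870912 536870912 536870912 50465866 3 eng mog cd3q1 cd6q1 pd3 true true false .nn 1 1 3
    ndB3q1 ndB6q1 pcB3 Cut.none Ext.none :=
  certB1 (fam := true) (s1 := true) (s2 := false) (a := 1) (b := 1) (c := 3) (cn := .nn) (n1 := ndB3q1) (n2 := ndB6q1) (pc := pcB3) (cut := Cut.none) (xt := Ext.none) (P1 := 536870912) (W1 := 536870912) (P2 := 536870912) (W2 := 536870912) (P3 := 536870912) (W3 := 50465866) (N0 := 3) (En := eng) (mo := mog) (C1 := cd3q1) (C2 := cd6q1) (C3 := pd3)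
    rfl (fun _ => rfl) k0_pm_113

noncomputable def f_pm_123 : ℕ → ℕ → ℕ → ℕ → Bool := onCell 536870912 536870912 1610612736 536870912 536870912 50465866
    (rowB 3 eng mog cd3q1 cd6q2 pd3 1 true true false .npn 1 2 3 (qsf 536870912 536870912 1073741824 536870912 3) ndB3q1 ndB6q2 pcB3 Cut.none Ext.none)

def k0_pm_123 : ∃ t, chk3 f_pm_123 t 1 1 1 = true :=
  ⟨(a (b (a (b (l 17017440) (l 16891848)) (b (l 683471473655) (l 17343856))) (b (a (l 16796040) (l 17050648)) (b (a (l 16752400) (l 16871664)) (b (a (l 16745800) (l 16801944)) (a (b (l 16747816) (l 16751632)) (b (l 16776488) (l 16766512))))))) (b (b (l 1) (a (l 17774320) (l 1))) (b (a (l 17175840) (l 17277680)) (b (l 16966968) (b (l 16844976) (b (l 16785744) (a (l 16765384) (l 16760168)))))))), by decide +kernel⟩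

theorem c_pm_123 : CertB 536870912 536870912 1073741824 536870912 536870912 50465866 3 eng mog cd3q1 cd6q2 pd3 true true false .npn 1 2 3
    ndB3q1 ndB6q2 pcB3 Cut.none Ext.none :=
  certB1 (fam := true) (s1 := true) (s2 := false) (a := 1) (b := 2) (c := 3) (cn := .npn) (n1 := ndB3q1) (n2 := ndB6q2) (pc := pcB3) (cut := Cut.none) (xt := Ext.none) (P1 := 536870912) (W1 := 536870912) (P2 := 1073741824) (W2 := 536870912) (P3 := 536870912) (W3 := 50465866) (N0 := 3) (En := eng) (mo := mog) (C1 := cd3q1) (C2 := cd6q2) (C3 := pd3)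
    rfl (fun _ => rfl) k0_pm_123

noncomputable def f_pm_133 : ℕ → ℕ → ℕ → ℕ → Bool := onCell 536870912 536870912 0 1230186008 536870912 50465866
    (rowB 3 eng mog cd3q1 cd6q3 pd3 0 true true false .dn 1 3 3 (qsf 536870912 536870912 0 1230186008 3) ndB3q1 ndB6q3 pcB3 Cut.none Ext.none)

def k0_pm_133 : ∃ t, chk3 f_pm_133 t 1 1 1 = true :=
  ⟨(b (l 2) (b (l 2) (a (b (l 2) (a (b (l 2) (l 4)) (l 2))) (l 2)))), by decide +kernel⟩

theorem c_pm_133 : CertB 536870912 536870912 0 1230186008 536870912 50465866 3 eng mog cd3q1 cd6q3 pd3 true true false .dn 1 3 3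
    ndB3q1 ndB6q3 pcB3 Cut.none Ext.none :=
  certB0 (fam := true) (s1 := true) (s2 := false) (a := 1) (b := 3) (c := 3) (cn := .dn) (n1 := ndB3q1) (n2 := ndB6q3) (pc := pcB3) (cut := Cut.none) (xt := Ext.none) (P1 := 536870912) (W1 := 536870912) (P2 := 0) (W2 := 1230186008) (P3 := 536870912) (W3 := 50465866) (N0 := 3) (En := eng) (mo := mog) (C1 := cd3q1) (C2 := cd6q3) (C3 := pd3)
    rfl k0_pm_133

noncomputable def f_pm_202_a : ℕ → ℕ → ℕ → ℕ → Bool := onCell 0 536870912 0 536870912 536870912 50465866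
    (rowB 3 eng mog cd3q2a cd6q0 pd2 0 true true false .pp 2 0 2 (qsf 0 536870912 0 536870912 2) ndB3q2a ndB6q0 pcB2 Cut.none Ext.none)

def k0_pm_202_a : ∃ t, chk3 f_pm_202_a t 1 1 1 = true :=
  ⟨(a (b (b (b (a (l 16654080) (b (l 16641608) (l 16655152))) (a (l 16685368) (l 16684696))) (b (a (l 16727336) (l 16736616)) (a (l 4) (l 16796240)))) (b (l 4) (l 4))) (b (b (a (b (b (a (l 16635352) (l 16629392)) (l 16647984)) (a (l 16685256) (l 16689328))) (b (a (b (a (l 16626128) (l 16623032)) (l 16647488)) (b (a (b (a (l 16618952) (l 16617400)) (l 16629296)) (a (b (b (l 16614176) (l 16620592)) (l 16633832)) (b (a (b (l 16608904) (l 16622880)) (b (c (l 16699784) (l 16492584)) (l 16626168))) (l 16576952)))) (a (l 16656280) (a (l 16666176) (l 16653872))))) (a (b (l 16682232) (l 16726504)) (a (l 16712840) (b (l 16679048) (l 16695584)))))) (a (b (l 16758736) (l 16817680)) (b (a (l 16775680) (b (l 16726200) (l 16743952))) (a (l 16803616) (l 16772248)))))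 (b (a (b (l 16825024) (l 16825696)) (b (a (l 16824512) (l 16803544)) (a (l 16837208) (l 16828720)))) (a (l 4) (b (a (l 16843680) (l 16845336)) (a (l 4) (l 16853632))))))), by decide +kernel⟩

theorem c_pm_202_a : CertB 0 536870912 0 536870912 536870912 50465866 3 eng mog cd3q2a cd6q0 pd2 true true false .pp 2 0 2
    ndB3q2a ndB6q0 pcB2 Cut.none Ext.none :=
  certB0 (fam := true) (s1 := true) (s2 := false) (a := 2) (b := 0) (c := 2) (cn := .pp) (n1 := ndB3q2a) (n2 := ndB6q0) (pc := pcB2) (cut := Cut.none) (xt := Ext.none) (P1 := 0) (W1 := 536870912) (P2 := 0) (W2 := 536870912) (P3 := 536870912) (W3 := 50465866) (N0 := 3) (En := eng) (mo := mog) (C1 := cd3q2a) (C2 := cd6q0) (C3 := pd2)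
    rfl k0_pm_202_a

noncomputable def f_pm_202_b : ℕ → ℕ → ℕ → ℕ → Bool := onCell 1239849684 370763052 0 536870912 536870912 50465866
    (rowB 3 eng mog cd3q2b cd6q0 pd2 0 true true false .pp 2 0 2 (qsf 1239849684 370763052 0 536870912 2) ndB3q2b ndB6q0 pcB2 Cut.none Ext.none)

def k0_pm_202_b : ∃ t, chk3 f_pm_202_b t 1 1 1 = true :=
  ⟨(b (a (b (a (b (a (l 16661168) (l 16674264)) (a (l 16688680) (l 16697384))) (b (a (l 16687992) (l 4)) (l 4))) (a (l 4) (l 4))) (l 4)) (l 4)), by decide +kernel⟩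

theorem c_pm_202_b : CertB 1239849684 370763052 0 536870912 536870912 50465866 3 eng mog cd3q2b cd6q0 pd2 true true false .pp 2 0 2
    ndB3q2b ndB6q0 pcB2 Cut.none Ext.none :=
  certB0 (fam := true) (s1 := true) (s2 := false) (a := 2) (b := 0) (c := 2) (cn := .pp) (n1 := ndB3q2b) (n2 := ndB6q0) (pc := pcB2) (cut := Cut.none) (xt := Ext.none) (P1 := 1239849684) (W1 := 370763052) (P2 := 0) (W2 := 536870912) (P3 := 536870912) (W3 := 50465866) (N0 := 3) (En := eng) (mo := mog) (C1 := cd3q2b) (C2 := cd6q0) (C3 := pd2)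
    rfl k0_pm_202_b

noncomputable def f_pm_203_a : ℕ → ℕ → ℕ → ℕ → Bool := onCell 0 536870912 1610612736 536870912 536870912 50465866
    (rowB 3 eng mog cd3q2a cd6q0 pd3 1 true true false .up 2 0 3 (qsf 0 536870912 0 536870912 3) ndB3q2a ndB6q0 pcB3 Cut.none Ext.none)

def k0_pm_203_a : ∃ t, chk3 f_pm_203_a t 1 1 1 = true :=
  ⟨(b (l 4) (l 2)), by decide +kernel⟩

theorem c_pm_203_a : CertB 0 536870912 0 536870912 536870912 50465866 3 eng mog cd3q2a cd6q0 pd3 true true false .up 2 0 3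
    ndB3q2a ndB6q0 pcB3 Cut.none Ext.none :=
  certB1 (fam := true) (s1 := true) (s2 := false) (a := 2) (b := 0) (c := 3) (cn := .up) (n1 := ndB3q2a) (n2 := ndB6q0) (pc := pcB3) (cut := Cut.none) (xt := Ext.none) (P1 := 0) (W1 := 536870912) (P2 := 0) (W2 := 536870912) (P3 := 536870912) (W3 := 50465866) (N0 := 3) (En := eng) (mo := mog) (C1 := cd3q2a) (C2 := cd6q0) (C3 := pd3)
    rfl (fun _ => rfl) k0_pm_203_a

noncomputable def f_pm_203_b : ℕ → ℕ → ℕ → ℕ → Bool := onCell 1239849684 370763052 1610612736 536870912 536870912 50465866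
    (rowB 3 eng mog cd3q2b cd6q0 pd3 1 true true false .up 2 0 3 (qsf 1239849684 370763052 0 536870912 3) ndB3q2b ndB6q0 pcB3 Cut.none Ext.none)

def k0_pm_203_b : ∃ t, chk3 f_pm_203_b t 1 1 1 = true :=
  ⟨(l 4), by decide +kernel⟩

theorem c_pm_203_b : CertB 1239849684 370763052 0 536870912 536870912 50465866 3 eng mog cd3q2b cd6q0 pd3 true true false .up 2 0 3
    ndB3q2b ndB6q0 pcB3 Cut.none Ext.none :=
  certB1 (fam := true) (s1 := true) (s2 := false) (a := 2) (b := 0) (c := 3) (cn := .up) (n1 := ndB3q2b) (n2 := ndB6q0) (pc := pcB3) (cut := Cut.none) (xt := Ext.none) (P1 := 1239849684) (W1 := 370763052) (P2 := 0) (W2 := 536870912) (P3 := 536870912) (W3 := 50465866) (N0 := 3) (En := eng) (mo := mog) (C1 := cd3q2b) (C2 := cd6q0) (C3 := pd3)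
    rfl (fun _ => rfl) k0_pm_203_b

noncomputable def f_pm_213_a : ℕ → ℕ → ℕ → ℕ → Bool := onCell 0 536870912 1610612736 536870912 536870912 50465866
    (rowB 3 eng mog cd3q2a cd6q1 pd3 1 true true false .pnn 2 1 3 (qsf 0 536870912 536870912 536870912 3) ndB3q2a ndB6q1 pcB3 Cut.none Ext.none)

def k0_pm_213_a : ∃ t, chk3 f_pm_213_a t 1 1 1 = true :=
  ⟨(b (l 4) (l 4)), by decide +kernel⟩

theorem c_pm_213_a : CertB 0 536870912 536870912 536870912 536870912 50465866 3 eng mog cd3q2a cd6q1 pd3 true true false .pnn 2 1 3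
    ndB3q2a ndB6q1 pcB3 Cut.none Ext.none :=
  certB1 (fam := true) (s1 := true) (s2 := false) (a := 2) (b := 1) (c := 3) (cn := .pnn) (n1 := ndB3q2a) (n2 := ndB6q1) (pc := pcB3) (cut := Cut.none) (xt := Ext.none) (P1 := 0) (W1 := 536870912) (P2 := 536870912) (W2 := 536870912) (P3 := 536870912) (W3 := 50465866) (N0 := 3) (En := eng) (mo := mog) (C1 := cd3q2a) (C2 := cd6q1) (C3 := pd3)
    rfl (fun _ => rfl) k0_pm_213_a

noncomputable def f_pm_213_b : ℕ → ℕ → ℕ → ℕ → Bool := onCell 1239849684 370763052 536870912 536870912 536870912 50465866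
    (rowB 3 eng mog cd3q2b cd6q1 pd3 0 true true false .pnn 2 1 3 (qsf 1239849684 370763052 536870912 536870912 3) ndB3q2b ndB6q1 pcB3 Cut.none Ext.none)

def k0_pm_213_b : ∃ t, chk3 f_pm_213_b t 1 1 1 = true :=
  ⟨(l 4), by decide +kernel⟩

theorem c_pm_213_b : CertB 1239849684 370763052 536870912 536870912 536870912 50465866 3 eng mog cd3q2b cd6q1 pd3 true true false .pnn 2 1 3
    ndB3q2b ndB6q1 pcB3 Cut.none Ext.none :=
  certB0 (fam := true) (s1 := true) (s2 := false) (a := 2) (b := 1) (c := 3) (cn := .pnn) (n1 := ndB3q2b) (n2 := ndB6q1) (pc := pcB3) (cut := Cut.none) (xt := Ext.none) (P1 := 1239849684) (W1 := 370763052) (P2 := 536870912) (W2 := 536870912) (P3 := 536870912) (W3 := 50465866) (N0 := 3) (En := eng) (mo := mog) (C1 := cd3q2b) (C2 := cd6q1) (C3 := pd3)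
    rfl k0_pm_213_b

noncomputable def f_pm_303 : ℕ → ℕ → ℕ → ℕ → Bool := onCell 1610612736 536870912 0 536870912 536870912 50465866
    (rowB 3 eng mog cd3q3 cd6q0 pd3 0 true true false .npn 3 0 3 (qsf 1610612736 536870912 0 536870912 3) ndB3q3 ndB6q0 pcB3 Cut.none Ext.none)

def k0_pm_303 : ∃ t, chk3 f_pm_303 t 1 1 1 = true :=
  ⟨(l 4), by decide +kernel⟩

theorem c_pm_303 : CertB 1610612736 536870912 0 536870912 536870912 50465866 3 eng mog cd3q3 cd6q0 pd3 true true false .npn 3 0 3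
    ndB3q3 ndB6q0 pcB3 Cut.none Ext.none :=
  certB0 (fam := true) (s1 := true) (s2 := false) (a := 3) (b := 0) (c := 3) (cn := .npn) (n1 := ndB3q3) (n2 := ndB6q0) (pc := pcB3) (cut := Cut.none) (xt := Ext.none) (P1 := 1610612736) (W1 := 536870912) (P2 := 0) (W2 := 536870912) (P3 := 536870912) (W3 := 50465866) (N0 := 3) (En := eng) (mo := mog) (C1 := cd3q3) (C2 := cd6q0) (C3 := pd3)
    rfl k0_pm_303

noncomputable def f_pm_313 : ℕ → ℕ → ℕ → ℕ → Bool := onCell 1610612736 536870912 536870912 536870912 536870912 50465866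
    (rowB 3 eng mog cd3q3 cd6q1 pd3 0 true true false .dn 3 1 3 (qsf 1610612736 536870912 536870912 536870912 3) ndB3q3 ndB6q1 pcB3 Cut.none Ext.none)

def k0_pm_313 : ∃ t, chk3 f_pm_313 t 1 1 1 = true :=
  ⟨(l 4), by decide +kernel⟩

theorem c_pm_313 : CertB 1610612736 536870912 536870912 536870912 536870912 50465866 3 eng mog cd3q3 cd6q1 pd3 true true false .dn 3 1 3
    ndB3q3 ndB6q1 pcB3 Cut.none Ext.none :=
  certB0 (fam := true) (s1 := true) (s2 := false) (a := 3) (b := 1) (c := 3) (cn := .dn) (n1 := ndB3q3) (n2 := ndB6q1) (pc := pcB3) (cut := Cut.none) (xt := Ext.none) (P1 := 1610612736) (W1 := 536870912) (P2 := 536870912) (W2 := 536870912) (P3 := 536870912) (W3 := 50465866) (N0 := 3) (En := eng) (mo := mog) (C1 := cd3q3) (C2 := cd6q1) (C3 := pd3)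
    rfl k0_pm_313

noncomputable def f_mm_001 : ℕ → ℕ → ℕ → ℕ → Bool := onCell 0 536870912 0 536870912 536870912 50465866
    (rowB 3 eng mog cd3q0 cd6q0 pd1 0 true false false .up 0 0 1 (qsf 0 536870912 0 536870912 1) ndB3q0 ndB6q0 pcB1 Cut.none Ext.none)

def k0_mm_001 : ∃ t, chk3 f_mm_001 t 1 1 1 = true :=
  ⟨(l 4), by decide +kernel⟩

theorem c_mm_001 : CertB 0 536870912 0 536870912 536870912 50465866 3 eng mog cd3q0 cd6q0 pd1 true false false .up 0 0 1
    ndB3q0 ndB6q0 pcB1 Cut.none Ext.none :=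
  certB0 (fam := true) (s1 := false) (s2 := false) (a := 0) (b := 0) (c := 1) (cn := .up) (n1 := ndB3q0) (n2 := ndB6q0) (pc := pcB1) (cut := Cut.none) (xt := Ext.none) (P1 := 0) (W1 := 536870912) (P2 := 0) (W2 := 536870912) (P3 := 536870912) (W3 := 50465866) (N0 := 3) (En := eng) (mo := mog) (C1 := cd3q0) (C2 := cd6q0) (C3 := pd1)
    rfl k0_mm_001

noncomputable def f_mm_011 : ℕ → ℕ → ℕ → ℕ → Bool := onCell 0 536870912 536870912 536870912 536870912 50465866
    (rowB 3 eng mog cd3q0 cd6q1 pd1 0 true false false .pnn 0 1 1 (qsf 0 536870912 536870912 536870912 1) ndB3q0 ndB6q1 pcB1 Cut.none Ext.none)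

def k0_mm_011 : ∃ t, chk3 f_mm_011 t 1 1 1 = true :=
  ⟨(l 4), by decide +kernel⟩

theorem c_mm_011 : CertB 0 536870912 536870912 536870912 536870912 50465866 3 eng mog cd3q0 cd6q1 pd1 true false false .pnn 0 1 1
    ndB3q0 ndB6q1 pcB1 Cut.none Ext.none :=
  certB0 (fam := true) (s1 := false) (s2 := false) (a := 0) (b := 1) (c := 1) (cn := .pnn) (n1 := ndB3q0) (n2 := ndB6q1) (pc := pcB1) (cut := Cut.none) (xt := Ext.none) (P1 := 0) (W1 := 536870912) (P2 := 536870912) (W2 := 536870912) (P3 := 536870912) (W3 := 50465866) (N0 := 3) (En := eng) (mo := mog) (C1 := cd3q0) (C2 := cd6q1) (C3 := pd1)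
    rfl k0_mm_011

noncomputable def f_mm_012 : ℕ → ℕ → ℕ → ℕ → Bool := onCell 0 536870912 536870912 536870912 536870912 50465866
    (rowB 3 eng mog cd3q0 cd6q1 pd2 0 true false false .pnp 0 1 2 (qsf 0 536870912 536870912 536870912 2) ndB3q0 ndB6q1 pcB2 Cut.none Ext.none)

def k0_mm_012 : ∃ t, chk3 f_mm_012 t 1 1 1 = true :=
  ⟨(l 4), by decide +kernel⟩

theorem c_mm_012 : CertB 0 536870912 536870912 536870912 536870912 50465866 3 eng mog cd3q0 cd6q1 pd2 true false false .pnp 0 1 2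
    ndB3q0 ndB6q1 pcB2 Cut.none Ext.none :=
  certB0 (fam := true) (s1 := false) (s2 := false) (a := 0) (b := 1) (c := 2) (cn := .pnp) (n1 := ndB3q0) (n2 := ndB6q1) (pc := pcB2) (cut := Cut.none) (xt := Ext.none) (P1 := 0) (W1 := 536870912) (P2 := 536870912) (W2 := 536870912) (P3 := 536870912) (W3 := 50465866) (N0 := 3) (En := eng) (mo := mog) (C1 := cd3q0) (C2 := cd6q1) (C3 := pd2)
    rfl k0_mm_012

noncomputable def f_mm_022 : ℕ → ℕ → ℕ → ℕ → Bool := onCell 0 536870912 1073741824 536870912 536870912 50465866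
    (rowB 3 eng mog cd3q0 cd6q2 pd2 0 true false false .pp 0 2 2 (qsf 0 536870912 1073741824 536870912 2) ndB3q0 ndB6q2 pcB2 Cut.none Ext.none)

def k0_mm_022 : ∃ t, chk3 f_mm_022 t 1 1 1 = true :=
  ⟨(l 4), by decide +kernel⟩

theorem c_mm_022 : CertB 0 536870912 1073741824 536870912 536870912 50465866 3 eng mog cd3q0 cd6q2 pd2 true false false .pp 0 2 2
    ndB3q0 ndB6q2 pcB2 Cut.none Ext.none :=
  certB0 (fam := true) (s1 := false) (s2 := false) (a := 0) (b := 2) (c := 2) (cn := .pp) (n1 := ndB3q0) (n2 := ndB6q2) (pc := pcB2) (cut := Cut.none) (xt := Ext.none) (P1 := 0) (W1 := 536870912) (P2 := 1073741824) (W2 := 536870912) (P3 := 536870912) (W3 := 50465866) (N0 := 3) (En := eng) (mo := mog) (C1 := cd3q0) (C2 := cd6q2) (C3 := pd2)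
    rfl k0_mm_022

noncomputable def f_mm_023 : ℕ → ℕ → ℕ → ℕ → Bool := onCell 0 536870912 1073741824 536870912 536870912 50465866
    (rowB 3 eng mog cd3q0 cd6q2 pd3 0 true false false .up 0 2 3 (qsf 0 536870912 1073741824 536870912 3) ndB3q0 ndB6q2 pcB3 Cut.none Ext.none)

def k0_mm_023 : ∃ t, chk3 f_mm_023 t 1 1 1 = true :=
  ⟨(l 4), by decide +kernel⟩

theorem c_mm_023 : CertB 0 536870912 1073741824 536870912 536870912 50465866 3 eng mog cd3q0 cd6q2 pd3 true false false .up 0 2 3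
    ndB3q0 ndB6q2 pcB3 Cut.none Ext.none :=
  certB0 (fam := true) (s1 := false) (s2 := false) (a := 0) (b := 2) (c := 3) (cn := .up) (n1 := ndB3q0) (n2 := ndB6q2) (pc := pcB3) (cut := Cut.none) (xt := Ext.none) (P1 := 0) (W1 := 536870912) (P2 := 1073741824) (W2 := 536870912) (P3 := 536870912) (W3 := 50465866) (N0 := 3) (En := eng) (mo := mog) (C1 := cd3q0) (C2 := cd6q2) (C3 := pd3)
    rfl k0_mm_023

noncomputable def f_mm_033 : ℕ → ℕ → ℕ → ℕ → Bool := onCell 0 536870912 0 1230186008 536870912 50465866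
    (rowB 3 eng mog cd3q0 cd6q3 pd3 0 true false false .pnn 0 3 3 (qsf 0 536870912 0 1230186008 3) ndB3q0 ndB6q3 pcB3 Cut.none Ext.none)

def k0_mm_033 : ∃ t, chk3 f_mm_033 t 1 1 1 = true :=
  ⟨(l 5), by decide +kernel⟩

theorem c_mm_033 : CertB 0 536870912 0 1230186008 536870912 50465866 3 eng mog cd3q0 cd6q3 pd3 true false false .pnn 0 3 3
    ndB3q0 ndB6q3 pcB3 Cut.none Ext.none :=
  certB0 (fam := true) (s1 := false) (s2 := false) (a := 0) (b := 3) (c := 3) (cn := .pnn) (n1 := ndB3q0) (n2 := ndB6q3) (pc := pcB3) (cut := Cut.none) (xt := Ext.none) (P1 := 0) (W1 := 536870912) (P2 := 0) (W2 := 1230186008) (P3 := 536870912) (W3 := 50465866) (N0 := 3) (En := eng) (mo := mog) (C1 := cd3q0) (C2 := cd6q3) (C3 := pd3)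
    rfl k0_mm_033

noncomputable def f_mm_101 : ℕ → ℕ → ℕ → ℕ → Bool := onCell 536870912 536870912 0 536870912 536870912 50465866
    (rowB 3 eng mog cd3q1 cd6q0 pd1 0 true false false .npn 1 0 1 (qsf 536870912 536870912 0 536870912 1) ndB3q1 ndB6q0 pcB1 Cut.none Ext.none)

def k0_mm_101 : ∃ t, chk3 f_mm_101 t 1 1 1 = true :=
  ⟨(l 4), by decide +kernel⟩

theorem c_mm_101 : CertB 536870912 536870912 0 536870912 536870912 50465866 3 eng mog cd3q1 cd6q0 pd1 true false false .npn 1 0 1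
    ndB3q1 ndB6q0 pcB1 Cut.none Ext.none :=
  certB0 (fam := true) (s1 := false) (s2 := false) (a := 1) (b := 0) (c := 1) (cn := .npn) (n1 := ndB3q1) (n2 := ndB6q0) (pc := pcB1) (cut := Cut.none) (xt := Ext.none) (P1 := 536870912) (W1 := 536870912) (P2 := 0) (W2 := 536870912) (P3 := 536870912) (W3 := 50465866) (N0 := 3) (En := eng) (mo := mog) (C1 := cd3q1) (C2 := cd6q0) (C3 := pd1)
    rfl k0_mm_101

noncomputable def f_mm_102 : ℕ → ℕ → ℕ → ℕ → Bool := onCell 536870912 536870912 0 536870912 536870912 50465866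
    (rowB 3 eng mog cd3q1 cd6q0 pd2 0 true false false .npp 1 0 2 (qsf 536870912 536870912 0 536870912 2) ndB3q1 ndB6q0 pcB2 Cut.none Ext.none)

def k0_mm_102 : ∃ t, chk3 f_mm_102 t 1 1 1 = true :=
  ⟨(l 4), by decide +kernel⟩

theorem c_mm_102 : CertB 536870912 536870912 0 536870912 536870912 50465866 3 eng mog cd3q1 cd6q0 pd2 true false false .npp 1 0 2
    ndB3q1 ndB6q0 pcB2 Cut.none Ext.none :=
  certB0 (fam := true) (s1 := false) (s2 := false) (a := 1) (b := 0) (c := 2) (cn := .npp) (n1 := ndB3q1) (n2 := ndB6q0) (pc := pcB2) (cut := Cut.none) (xt := Ext.none) (P1 := 536870912) (W1 := 536870912) (P2 := 0) (W2 := 536870912) (P3 := 536870912) (W3 := 50465866) (N0 := 3) (En := eng) (mo := mog) (C1 := cd3q1) (C2 := cd6q0) (C3 := pd2)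
    rfl k0_mm_102

noncomputable def f_mm_112 : ℕ → ℕ → ℕ → ℕ → Bool := onCell 536870912 536870912 536870912 536870912 536870912 50465866
    (rowB 3 eng mog cd3q1 cd6q1 pd2 0 true false false .dn 1 1 2 (qsf 536870912 536870912 536870912 536870912 2) ndB3q1 ndB6q1 pcB2 Cut.none Ext.none)

def k0_mm_112 : ∃ t, chk3 f_mm_112 t 1 1 1 = true :=
  ⟨(l 4), by decide +kernel⟩

theorem c_mm_112 : CertB 536870912 536870912 536870912 536870912 536870912 50465866 3 eng mog cd3q1 cd6q1 pd2 true false false .dn 1 1 2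
    ndB3q1 ndB6q1 pcB2 Cut.none Ext.none :=
  certB0 (fam := true) (s1 := false) (s2 := false) (a := 1) (b := 1) (c := 2) (cn := .dn) (n1 := ndB3q1) (n2 := ndB6q1) (pc := pcB2) (cut := Cut.none) (xt := Ext.none) (P1 := 536870912) (W1 := 536870912) (P2 := 536870912) (W2 := 536870912) (P3 := 536870912) (W3 := 50465866) (N0 := 3) (En := eng) (mo := mog) (C1 := cd3q1) (C2 := cd6q1) (C3 := pd2)
    rfl k0_mm_112

noncomputable def f_mm_113 : ℕ → ℕ → ℕ → ℕ → Bool := onCell 536870912 536870912 536870912 536870912 536870912 50465866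
    (rowB 3 eng mog cd3q1 cd6q1 pd3 0 true false false .nn 1 1 3 (qsf 536870912 536870912 536870912 536870912 3) ndB3q1 ndB6q1 pcB3 Cut.none Ext.none)

def k0_mm_113 : ∃ t, chk3 f_mm_113 t 1 1 1 = true :=
  ⟨(l 4), by decide +kernel⟩

theorem c_mm_113 : CertB 536870912 536870912 536870912 536870912 536870912 50465866 3 eng mog cd3q1 cd6q1 pd3 true false false .nn 1 1 3
    ndB3q1 ndB6q1 pcB3 Cut.none Ext.none :=
  certB0 (fam := true) (s1 := false) (s2 := false) (a := 1) (b := 1) (c := 3) (cn := .nn) (n1 := ndB3q1) (n2 := ndB6q1) (pc := pcB3) (cut := Cut.none) (xt := Ext.none) (P1 := 536870912) (W1 := 536870912) (P2 := 536870912) (W2 := 536870912) (P3 := 536870912) (W3 := 50465866) (N0 := 3) (En := eng) (mo := mog) (C1 := cd3q1) (C2 := cd6q1) (C3 := pd3)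
    rfl k0_mm_113

noncomputable def f_mm_123 : ℕ → ℕ → ℕ → ℕ → Bool := onCell 536870912 536870912 1073741824 536870912 536870912 50465866
    (rowB 3 eng mog cd3q1 cd6q2 pd3 0 true false false .npn 1 2 3 (qsf 536870912 536870912 1073741824 536870912 3) ndB3q1 ndB6q2 pcB3 Cut.none Ext.none)

def k0_mm_123 : ∃ t, chk3 f_mm_123 t 1 1 1 = true :=
  ⟨(l 4), by decide +kernel⟩

theorem c_mm_123 : CertB 536870912 536870912 1073741824 536870912 536870912 50465866 3 eng mog cd3q1 cd6q2 pd3 true false false .npn 1 2 3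
    ndB3q1 ndB6q2 pcB3 Cut.none Ext.none :=
  certB0 (fam := true) (s1 := false) (s2 := false) (a := 1) (b := 2) (c := 3) (cn := .npn) (n1 := ndB3q1) (n2 := ndB6q2) (pc := pcB3) (cut := Cut.none) (xt := Ext.none) (P1 := 536870912) (W1 := 536870912) (P2 := 1073741824) (W2 := 536870912) (P3 := 536870912) (W3 := 50465866) (N0 := 3) (En := eng) (mo := mog) (C1 := cd3q1) (C2 := cd6q2) (C3 := pd3)
    rfl k0_mm_123

noncomputable def f_mm_133 : ℕ → ℕ → ℕ → ℕ → Bool := onCell 536870912 536870912 0 1230186008 536870912 50465866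
    (rowB 3 eng mog cd3q1 cd6q3 pd3 0 true false false .dn 1 3 3 (qsf 536870912 536870912 0 1230186008 3) ndB3q1 ndB6q3 pcB3 Cut.none Ext.none)

def k0_mm_133 : ∃ t, chk3 f_mm_133 t 1 1 1 = true :=
  ⟨(l 4), by decide +kernel⟩

theorem c_mm_133 : CertB 536870912 536870912 0 1230186008 536870912 50465866 3 eng mog cd3q1 cd6q3 pd3 true false false .dn 1 3 3
    ndB3q1 ndB6q3 pcB3 Cut.none Ext.none :=
  certB0 (fam := true) (s1 := false) (s2 := false) (a := 1) (b := 3) (c := 3) (cn := .dn) (n1 := ndB3q1) (n2 := ndB6q3) (pc := pcB3) (cut := Cut.none) (xt := Ext.none) (P1 := 536870912) (W1 := 536870912) (P2 := 0) (W2 := 1230186008) (P3 := 536870912) (W3 := 50465866) (N0 := 3) (En := eng) (mo := mog) (C1 := cd3q1) (C2 := cd6q3) (C3 := pd3)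
    rfl k0_mm_133

noncomputable def f_mm_202_a : ℕ → ℕ → ℕ → ℕ → Bool := onCell 0 536870912 0 536870912 536870912 50465866
    (rowB 3 eng mog cd3q2a cd6q0 pd2 0 true false false .pp 2 0 2 (qsf 0 536870912 0 536870912 2) ndB3q2a ndB6q0 pcB2 Cut.none Ext.none)

def k0_mm_202_a : ∃ t, chk3 f_mm_202_a t 1 1 1 = true :=
  ⟨(l 4), by decide +kernel⟩

theorem c_mm_202_a : CertB 0 536870912 0 536870912 536870912 50465866 3 eng mog cd3q2a cd6q0 pd2 true false false .pp 2 0 2
    ndB3q2a ndB6q0 pcB2 Cut.none Ext.none :=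
  certB0 (fam := true) (s1 := false) (s2 := false) (a := 2) (b := 0) (c := 2) (cn := .pp) (n1 := ndB3q2a) (n2 := ndB6q0) (pc := pcB2) (cut := Cut.none) (xt := Ext.none) (P1 := 0) (W1 := 536870912) (P2 := 0) (W2 := 536870912) (P3 := 536870912) (W3 := 50465866) (N0 := 3) (En := eng) (mo := mog) (C1 := cd3q2a) (C2 := cd6q0) (C3 := pd2)
    rfl k0_mm_202_a

noncomputable def f_mm_202_b : ℕ → ℕ → ℕ → ℕ → Bool := onCell 1239849684 370763052 0 536870912 536870912 50465866
    (rowB 3 eng mog cd3q2b cd6q0 pd2 0 true false false .pp 2 0 2 (qsf 1239849684 370763052 0 536870912 2) ndB3q2b ndB6q0 pcB2 Cut.none Ext.none)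

def k0_mm_202_b : ∃ t, chk3 f_mm_202_b t 1 1 1 = true :=
  ⟨(l 4), by decide +kernel⟩

theorem c_mm_202_b : CertB 1239849684 370763052 0 536870912 536870912 50465866 3 eng mog cd3q2b cd6q0 pd2 true false false .pp 2 0 2
    ndB3q2b ndB6q0 pcB2 Cut.none Ext.none :=
  certB0 (fam := true) (s1 := false) (s2 := false) (a := 2) (b := 0) (c := 2) (cn := .pp) (n1 := ndB3q2b) (n2 := ndB6q0) (pc := pcB2) (cut := Cut.none) (xt := Ext.none) (P1 := 1239849684) (W1 := 370763052) (P2 := 0) (W2 := 536870912) (P3 := 536870912) (W3 := 50465866) (N0 := 3) (En := eng) (mo := mog) (C1 := cd3q2b) (C2 := cd6q0) (C3 := pd2)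
    rfl k0_mm_202_b

noncomputable def f_mm_203_a : ℕ → ℕ → ℕ → ℕ → Bool := onCell 0 536870912 0 536870912 536870912 50465866
    (rowB 3 eng mog cd3q2a cd6q0 pd3 0 true false false .up 2 0 3 (qsf 0 536870912 0 536870912 3) ndB3q2a ndB6q0 pcB3 Cut.none Ext.none)

def k0_mm_203_a : ∃ t, chk3 f_mm_203_a t 1 1 1 = true :=
  ⟨(l 4), by decide +kernel⟩

theorem c_mm_203_a : CertB 0 536870912 0 536870912 536870912 50465866 3 eng mog cd3q2a cd6q0 pd3 true false false .up 2 0 3
    ndB3q2a ndB6q0 pcB3 Cut.none Ext.none :=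
  certB0 (fam := true) (s1 := false) (s2 := false) (a := 2) (b := 0) (c := 3) (cn := .up) (n1 := ndB3q2a) (n2 := ndB6q0) (pc := pcB3) (cut := Cut.none) (xt := Ext.none) (P1 := 0) (W1 := 536870912) (P2 := 0) (W2 := 536870912) (P3 := 536870912) (W3 := 50465866) (N0 := 3) (En := eng) (mo := mog) (C1 := cd3q2a) (C2 := cd6q0) (C3 := pd3)
    rfl k0_mm_203_a

noncomputable def f_mm_203_b : ℕ → ℕ → ℕ → ℕ → Bool := onCell 1239849684 370763052 0 536870912 536870912 50465866
    (rowB 3 eng mog cd3q2b cd6q0 pd3 0 true false false .up 2 0 3 (qsf 1239849684 370763052 0 536870912 3) ndB3q2b ndB6q0 pcB3 Cut.none Ext.none)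

def k0_mm_203_b : ∃ t, chk3 f_mm_203_b t 1 1 1 = true :=
  ⟨(l 4), by decide +kernel⟩

theorem c_mm_203_b : CertB 1239849684 370763052 0 536870912 536870912 50465866 3 eng mog cd3q2b cd6q0 pd3 true false false .up 2 0 3
    ndB3q2b ndB6q0 pcB3 Cut.none Ext.none :=
  certB0 (fam := true) (s1 := false) (s2 := false) (a := 2) (b := 0) (c := 3) (cn := .up) (n1 := ndB3q2b) (n2 := ndB6q0) (pc := pcB3) (cut := Cut.none) (xt := Ext.none) (P1 := 1239849684) (W1 := 370763052) (P2 := 0) (W2 := 536870912) (P3 := 536870912) (W3 := 50465866) (N0 := 3) (En := eng) (mo := mog) (C1 := cd3q2b) (C2 := cd6q0) (C3 := pd3)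
    rfl k0_mm_203_b

noncomputable def f_mm_213_a : ℕ → ℕ → ℕ → ℕ → Bool := onCell 0 536870912 536870912 536870912 536870912 50465866
    (rowB 3 eng mog cd3q2a cd6q1 pd3 0 true false false .pnn 2 1 3 (qsf 0 536870912 536870912 536870912 3) ndB3q2a ndB6q1 pcB3 Cut.none Ext.none)

def k0_mm_213_a : ∃ t, chk3 f_mm_213_a t 1 1 1 = true :=
  ⟨(l 4), by decide +kernel⟩

theorem c_mm_213_a : CertB 0 536870912 536870912 536870912 536870912 50465866 3 eng mog cd3q2a cd6q1 pd3 true false false .pnn 2 1 3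
    ndB3q2a ndB6q1 pcB3 Cut.none Ext.none :=
  certB0 (fam := true) (s1 := false) (s2 := false) (a := 2) (b := 1) (c := 3) (cn := .pnn) (n1 := ndB3q2a) (n2 := ndB6q1) (pc := pcB3) (cut := Cut.none) (xt := Ext.none) (P1 := 0) (W1 := 536870912) (P2 := 536870912) (W2 := 536870912) (P3 := 536870912) (W3 := 50465866) (N0 := 3) (En := eng) (mo := mog) (C1 := cd3q2a) (C2 := cd6q1) (C3 := pd3)
    rfl k0_mm_213_a

noncomputable def f_mm_213_b : ℕ → ℕ → ℕ → ℕ → Bool := onCell 1239849684 370763052 536870912 536870912 536870912 50465866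
    (rowB 3 eng mog cd3q2b cd6q1 pd3 0 true false false .pnn 2 1 3 (qsf 1239849684 370763052 536870912 536870912 3) ndB3q2b ndB6q1 pcB3 Cut.none Ext.none)

def k0_mm_213_b : ∃ t, chk3 f_mm_213_b t 1 1 1 = true :=
  ⟨(l 4), by decide +kernel⟩

theorem c_mm_213_b : CertB 1239849684 370763052 536870912 536870912 536870912 50465866 3 eng mog cd3q2b cd6q1 pd3 true false false .pnn 2 1 3
    ndB3q2b ndB6q1 pcB3 Cut.none Ext.none :=
  certB0 (fam := true) (s1 := false) (s2 := false) (a := 2) (b := 1) (c := 3) (cn := .pnn) (n1 := ndB3q2b) (n2 := ndB6q1) (pc := pcB3) (cut := Cut.none) (xt := Ext.none) (P1 := 1239849684) (W1 := 370763052) (P2 := 536870912) (W2 := 536870912) (P3 := 536870912) (W3 := 50465866) (N0 := 3) (En := eng) (mo := mog) (C1 := cd3q2b) (C2 := cd6q1) (C3 := pd3)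
    rfl k0_mm_213_b

noncomputable def f_mm_303 : ℕ → ℕ → ℕ → ℕ → Bool := onCell 1610612736 536870912 0 536870912 536870912 50465866
    (rowB 3 eng mog cd3q3 cd6q0 pd3 0 true false false .npn 3 0 3 (qsf 1610612736 536870912 0 536870912 3) ndB3q3 ndB6q0 pcB3 Cut.none Ext.none)

def k0_mm_303 : ∃ t, chk3 f_mm_303 t 1 1 1 = true :=
  ⟨(l 4), by decide +kernel⟩

theorem c_mm_303 : CertB 1610612736 536870912 0 536870912 536870912 50465866 3 eng mog cd3q3 cd6q0 pd3 true false false .npn 3 0 3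
    ndB3q3 ndB6q0 pcB3 Cut.none Ext.none :=
  certB0 (fam := true) (s1 := false) (s2 := false) (a := 3) (b := 0) (c := 3) (cn := .npn) (n1 := ndB3q3) (n2 := ndB6q0) (pc := pcB3) (cut := Cut.none) (xt := Ext.none) (P1 := 1610612736) (W1 := 536870912) (P2 := 0) (W2 := 536870912) (P3 := 536870912) (W3 := 50465866) (N0 := 3) (En := eng) (mo := mog) (C1 := cd3q3) (C2 := cd6q0) (C3 := pd3)
    rfl k0_mm_303

noncomputable def f_mm_313 : ℕ → ℕ → ℕ → ℕ → Bool := onCell 1610612736 536870912 536870912 536870912 536870912 50465866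
    (rowB 3 eng mog cd3q3 cd6q1 pd3 0 true false false .dn 3 1 3 (qsf 1610612736 536870912 536870912 536870912 3) ndB3q3 ndB6q1 pcB3 Cut.none Ext.none)

def k0_mm_313 : ∃ t, chk3 f_mm_313 t 1 1 1 = true :=
  ⟨(l 4), by decide +kernel⟩

theorem c_mm_313 : CertB 1610612736 536870912 536870912 536870912 536870912 50465866 3 eng mog cd3q3 cd6q1 pd3 true false false .dn 3 1 3
    ndB3q3 ndB6q1 pcB3 Cut.none Ext.none :=
  certB0 (fam := true) (s1 := false) (s2 := false) (a := 3) (b := 1) (c := 3) (cn := .dn) (n1 := ndB3q3) (n2 := ndB6q1) (pc := pcB3) (cut := Cut.none) (xt := Ext.none) (P1 := 1610612736) (W1 := 536870912) (P2 := 536870912) (W2 := 536870912) (P3 := 536870912) (W3 := 50465866) (N0 := 3) (En := eng) (mo := mog) (C1 := cd3q3) (C2 := cd6q1) (C3 := pd3)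
    rfl k0_mm_313

end Pool.Agent.Strip051.G.I5000_5470.Tab.C.BA36

namespace Pool.Agent.Strip051.G.I5000_5470.Tab.C.BA44

open Pool.Agent.Strip051.PB Pool.Agent.Strip051.PB.T
open Pool.Agent.Strip051.G.I5000_5470.Tab

noncomputable def f_pp_001 : ℕ → ℕ → ℕ → ℕ → Bool := onCell 0 536870912 0 536870912 536870912 50465866
    (rowB 3 eng mog cd4q0 cd4q0 pd1 0 true true true .up 0 0 1 (qsf 0 536870912 0 536870912 1) ndB4q0 ndB4q0 pcB1 Cut.none Ext.none)

def k0_pp_001 : ∃ t, chk3 f_pp_001 t 1 1 1 = true :=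
  ⟨(l 4), by decide +kernel⟩

theorem c_pp_001 : CertB 0 536870912 0 536870912 536870912 50465866 3 eng mog cd4q0 cd4q0 pd1 true true true .up 0 0 1
    ndB4q0 ndB4q0 pcB1 Cut.none Ext.none :=
  certB0 (fam := true) (s1 := true) (s2 := true) (a := 0) (b := 0) (c := 1) (cn := .up) (n1 := ndB4q0) (n2 := ndB4q0) (pc := pcB1) (cut := Cut.none) (xt := Ext.none) (P1 := 0) (W1 := 536870912) (P2 := 0) (W2 := 536870912) (P3 := 536870912) (W3 := 50465866) (N0 := 3) (En := eng) (mo := mog) (C1 := cd4q0) (C2 := cd4q0) (C3 := pd1)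
    rfl k0_pp_001

noncomputable def f_pp_011 : ℕ → ℕ → ℕ → ℕ → Bool := onCell 0 536870912 536870912 536870912 536870912 50465866
    (rowB 3 eng mog cd4q0 cd4q1 pd1 0 true true true .pnn 0 1 1 (qsf 0 536870912 536870912 536870912 1) ndB4q0 ndB4q1 pcB1 Cut.none Ext.none)

def k0_pp_011 : ∃ t, chk3 f_pp_011 t 1 1 1 = true :=
  ⟨(l 4), by decide +kernel⟩

theorem c_pp_011 : CertB 0 536870912 536870912 536870912 536870912 50465866 3 eng mog cd4q0 cd4q1 pd1 true true true .pnn 0 1 1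
    ndB4q0 ndB4q1 pcB1 Cut.none Ext.none :=
  certB0 (fam := true) (s1 := true) (s2 := true) (a := 0) (b := 1) (c := 1) (cn := .pnn) (n1 := ndB4q0) (n2 := ndB4q1) (pc := pcB1) (cut := Cut.none) (xt := Ext.none) (P1 := 0) (W1 := 536870912) (P2 := 536870912) (W2 := 536870912) (P3 := 536870912) (W3 := 50465866) (N0 := 3) (En := eng) (mo := mog) (C1 := cd4q0) (C2 := cd4q1) (C3 := pd1)
    rfl k0_pp_011

noncomputable def f_pp_012 : ℕ → ℕ → ℕ → ℕ → Bool := onCell 0 536870912 536870912 536870912 536870912 50465866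
    (rowB 3 eng mog cd4q0 cd4q1 pd2 0 true true true .pnp 0 1 2 (qsf 0 536870912 536870912 536870912 2) ndB4q0 ndB4q1 pcB2 Cut.none Ext.none)

def k0_pp_012 : ∃ t, chk3 f_pp_012 t 1 1 1 = true :=
  ⟨(l 4), by decide +kernel⟩

theorem c_pp_012 : CertB 0 536870912 536870912 536870912 536870912 50465866 3 eng mog cd4q0 cd4q1 pd2 true true true .pnp 0 1 2
    ndB4q0 ndB4q1 pcB2 Cut.none Ext.none :=
  certB0 (fam := true) (s1 := true) (s2 := true) (a := 0) (b := 1) (c := 2) (cn := .pnp) (n1 := ndB4q0) (n2 := ndB4q1) (pc := pcB2) (cut := Cut.none) (xt := Ext.none) (P1 := 0) (W1 := 536870912) (P2 := 536870912) (W2 := 536870912) (P3 := 536870912) (W3 := 50465866) (N0 := 3) (En := eng) (mo := mog) (C1 := cd4q0) (C2 := cd4q1) (C3 := pd2)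
    rfl k0_pp_012

noncomputable def f_pp_022 : ℕ → ℕ → ℕ → ℕ → Bool := onCell 0 536870912 1073741824 536870912 536870912 50465866
    (rowB 3 eng mog cd4q0 cd4q2 pd2 0 true true true .pp 0 2 2 (qsf 0 536870912 1073741824 536870912 2) ndB4q0 ndB4q2 pcB2 Cut.none Ext.none)

def k0_pp_022 : ∃ t, chk3 f_pp_022 t 1 1 1 = true :=
  ⟨(l 4), by decide +kernel⟩

theorem c_pp_022 : CertB 0 536870912 1073741824 536870912 536870912 50465866 3 eng mog cd4q0 cd4q2 pd2 true true true .pp 0 2 2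
    ndB4q0 ndB4q2 pcB2 Cut.none Ext.none :=
  certB0 (fam := true) (s1 := true) (s2 := true) (a := 0) (b := 2) (c := 2) (cn := .pp) (n1 := ndB4q0) (n2 := ndB4q2) (pc := pcB2) (cut := Cut.none) (xt := Ext.none) (P1 := 0) (W1 := 536870912) (P2 := 1073741824) (W2 := 536870912) (P3 := 536870912) (W3 := 50465866) (N0 := 3) (En := eng) (mo := mog) (C1 := cd4q0) (C2 := cd4q2) (C3 := pd2)
    rfl k0_pp_022

noncomputable def f_pp_023 : ℕ → ℕ → ℕ → ℕ → Bool := onCell 0 536870912 1073741824 536870912 536870912 50465866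
    (rowB 3 eng mog cd4q0 cd4q2 pd3 0 true true true .up 0 2 3 (qsf 0 536870912 1073741824 536870912 3) ndB4q0 ndB4q2 pcB3 Cut.none Ext.none)

def k0_pp_023 : ∃ t, chk3 f_pp_023 t 1 1 1 = true :=
  ⟨(l 4), by decide +kernel⟩

theorem c_pp_023 : CertB 0 536870912 1073741824 536870912 536870912 50465866 3 eng mog cd4q0 cd4q2 pd3 true true true .up 0 2 3
    ndB4q0 ndB4q2 pcB3 Cut.none Ext.none :=
  certB0 (fam := true) (s1 := true) (s2 := true) (a := 0) (b := 2) (c := 3) (cn := .up) (n1 := ndB4q0) (n2 := ndB4q2) (pc := pcB3) (cut := Cut.none) (xt := Ext.none) (P1 := 0) (W1 := 536870912) (P2 := 1073741824) (W2 := 536870912) (P3 := 536870912) (W3 := 50465866) (N0 := 3) (En := eng) (mo := mog) (C1 := cd4q0) (C2 := cd4q2) (C3 := pd3)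
    rfl k0_pp_023

noncomputable def f_pp_033 : ℕ → ℕ → ℕ → ℕ → Bool := onCell 0 536870912 0 1230186008 536870912 50465866
    (rowB 3 eng mog cd4q0 cd4q3 pd3 0 true true true .pnn 0 3 3 (qsf 0 536870912 0 1230186008 3) ndB4q0 ndB4q3 pcB3 Cut.none Ext.none)

def k0_pp_033 : ∃ t, chk3 f_pp_033 t 1 1 1 = true :=
  ⟨(b (l 4) (l 4)), by decide +kernel⟩

theorem c_pp_033 : CertB 0 536870912 0 1230186008 536870912 50465866 3 eng mog cd4q0 cd4q3 pd3 true true true .pnn 0 3 3
    ndB4q0 ndB4q3 pcB3 Cut.none Ext.none :=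
  certB0 (fam := true) (s1 := true) (s2 := true) (a := 0) (b := 3) (c := 3) (cn := .pnn) (n1 := ndB4q0) (n2 := ndB4q3) (pc := pcB3) (cut := Cut.none) (xt := Ext.none) (P1 := 0) (W1 := 536870912) (P2 := 0) (W2 := 1230186008) (P3 := 536870912) (W3 := 50465866) (N0 := 3) (En := eng) (mo := mog) (C1 := cd4q0) (C2 := cd4q3) (C3 := pd3)
    rfl k0_pp_033

noncomputable def f_pp_101 : ℕ → ℕ → ℕ → ℕ → Bool := onCell 536870912 536870912 0 536870912 536870912 50465866
    (rowB 3 eng mog cd4q1 cd4q0 pd1 0 true true true .npn 1 0 1 (qsf 536870912 536870912 0 536870912 1) ndB4q1 ndB4q0 pcB1 Cut.none Ext.none)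

def k0_pp_101 : ∃ t, chk3 f_pp_101 t 1 1 1 = true :=
  ⟨(l 4), by decide +kernel⟩

theorem c_pp_101 : CertB 536870912 536870912 0 536870912 536870912 50465866 3 eng mog cd4q1 cd4q0 pd1 true true true .npn 1 0 1
    ndB4q1 ndB4q0 pcB1 Cut.none Ext.none :=
  certB0 (fam := true) (s1 := true) (s2 := true) (a := 1) (b := 0) (c := 1) (cn := .npn) (n1 := ndB4q1) (n2 := ndB4q0) (pc := pcB1) (cut := Cut.none) (xt := Ext.none) (P1 := 536870912) (W1 := 536870912) (P2 := 0) (W2 := 536870912) (P3 := 536870912) (W3 := 50465866) (N0 := 3) (En := eng) (mo := mog) (C1 := cd4q1) (C2 := cd4q0) (C3 := pd1)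
    rfl k0_pp_101

noncomputable def f_pp_102 : ℕ → ℕ → ℕ → ℕ → Bool := onCell 536870912 536870912 0 536870912 536870912 50465866
    (rowB 3 eng mog cd4q1 cd4q0 pd2 0 true true true .npp 1 0 2 (qsf 536870912 536870912 0 536870912 2) ndB4q1 ndB4q0 pcB2 Cut.none Ext.none)

def k0_pp_102 : ∃ t, chk3 f_pp_102 t 1 1 1 = true :=
  ⟨(l 4), by decide +kernel⟩

theorem c_pp_102 : CertB 536870912 536870912 0 536870912 536870912 50465866 3 eng mog cd4q1 cd4q0 pd2 true true true .npp 1 0 2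
    ndB4q1 ndB4q0 pcB2 Cut.none Ext.none :=
  certB0 (fam := true) (s1 := true) (s2 := true) (a := 1) (b := 0) (c := 2) (cn := .npp) (n1 := ndB4q1) (n2 := ndB4q0) (pc := pcB2) (cut := Cut.none) (xt := Ext.none) (P1 := 536870912) (W1 := 536870912) (P2 := 0) (W2 := 536870912) (P3 := 536870912) (W3 := 50465866) (N0 := 3) (En := eng) (mo := mog) (C1 := cd4q1) (C2 := cd4q0) (C3 := pd2)
    rfl k0_pp_102

noncomputable def f_pp_112 : ℕ → ℕ → ℕ → ℕ → Bool := onCell 536870912 536870912 536870912 536870912 536870912 50465866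
    (rowB 3 eng mog cd4q1 cd4q1 pd2 0 true true true .dn 1 1 2 (qsf 536870912 536870912 536870912 536870912 2) ndB4q1 ndB4q1 pcB2 Cut.none Ext.none)

def k0_pp_112 : ∃ t, chk3 f_pp_112 t 1 1 1 = true :=
  ⟨(l 4), by decide +kernel⟩

theorem c_pp_112 : CertB 536870912 536870912 536870912 536870912 536870912 50465866 3 eng mog cd4q1 cd4q1 pd2 true true true .dn 1 1 2
    ndB4q1 ndB4q1 pcB2 Cut.none Ext.none :=
  certB0 (fam := true) (s1 := true) (s2 := true) (a := 1) (b := 1) (c := 2) (cn := .dn) (n1 := ndB4q1) (n2 := ndB4q1) (pc := pcB2) (cut := Cut.none) (xt := Ext.none) (P1 := 536870912) (W1 := 536870912) (P2 := 536870912) (W2 := 536870912) (P3 := 536870912) (W3 := 50465866) (N0 := 3) (En := eng) (mo := mog) (C1 := cd4q1) (C2 := cd4q1) (C3 := pd2)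
    rfl k0_pp_112

noncomputable def f_pp_113 : ℕ → ℕ → ℕ → ℕ → Bool := onCell 536870912 536870912 536870912 536870912 536870912 50465866
    (rowB 3 eng mog cd4q1 cd4q1 pd3 0 true true true .nn 1 1 3 (qsf 536870912 536870912 536870912 536870912 3) ndB4q1 ndB4q1 pcB3 Cut.none Ext.none)

def k0_pp_113 : ∃ t, chk3 f_pp_113 t 1 1 1 = true :=
  ⟨(l 4), by decide +kernel⟩

theorem c_pp_113 : CertB 536870912 536870912 536870912 536870912 536870912 50465866 3 eng mog cd4q1 cd4q1 pd3 true true true .nn 1 1 3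
    ndB4q1 ndB4q1 pcB3 Cut.none Ext.none :=
  certB0 (fam := true) (s1 := true) (s2 := true) (a := 1) (b := 1) (c := 3) (cn := .nn) (n1 := ndB4q1) (n2 := ndB4q1) (pc := pcB3) (cut := Cut.none) (xt := Ext.none) (P1 := 536870912) (W1 := 536870912) (P2 := 536870912) (W2 := 536870912) (P3 := 536870912) (W3 := 50465866) (N0 := 3) (En := eng) (mo := mog) (C1 := cd4q1) (C2 := cd4q1) (C3 := pd3)
    rfl k0_pp_113

noncomputable def f_pp_123 : ℕ → ℕ → ℕ → ℕ → Bool := onCell 536870912 536870912 1073741824 536870912 536870912 50465866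
    (rowB 3 eng mog cd4q1 cd4q2 pd3 0 true true true .npn 1 2 3 (qsf 536870912 536870912 1073741824 536870912 3) ndB4q1 ndB4q2 pcB3 Cut.none Ext.none)

def k0_pp_123 : ∃ t, chk3 f_pp_123 t 1 1 1 = true :=
  ⟨(l 4), by decide +kernel⟩

theorem c_pp_123 : CertB 536870912 536870912 1073741824 536870912 536870912 50465866 3 eng mog cd4q1 cd4q2 pd3 true true true .npn 1 2 3
    ndB4q1 ndB4q2 pcB3 Cut.none Ext.none :=
  certB0 (fam := true) (s1 := true) (s2 := true) (a := 1) (b := 2) (c := 3) (cn := .npn) (n1 := ndB4q1) (n2 := ndB4q2) (pc := pcB3) (cut := Cut.none) (xt := Ext.none) (P1 := 536870912) (W1 := 536870912) (P2 := 1073741824) (W2 := 536870912) (P3 := 536870912) (W3 := 50465866) (N0 := 3) (En := eng) (mo := mog) (C1 := cd4q1) (C2 := cd4q2) (C3 := pd3)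
    rfl k0_pp_123

noncomputable def f_pp_133 : ℕ → ℕ → ℕ → ℕ → Bool := onCell 536870912 536870912 0 1230186008 536870912 50465866
    (rowB 3 eng mog cd4q1 cd4q3 pd3 0 true true true .dn 1 3 3 (qsf 536870912 536870912 0 1230186008 3) ndB4q1 ndB4q3 pcB3 Cut.none Ext.none)

def k0_pp_133 : ∃ t, chk3 f_pp_133 t 1 1 1 = true :=
  ⟨(l 4), by decide +kernel⟩

theorem c_pp_133 : CertB 536870912 536870912 0 1230186008 536870912 50465866 3 eng mog cd4q1 cd4q3 pd3 true true true .dn 1 3 3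
    ndB4q1 ndB4q3 pcB3 Cut.none Ext.none :=
  certB0 (fam := true) (s1 := true) (s2 := true) (a := 1) (b := 3) (c := 3) (cn := .dn) (n1 := ndB4q1) (n2 := ndB4q3) (pc := pcB3) (cut := Cut.none) (xt := Ext.none) (P1 := 536870912) (W1 := 536870912) (P2 := 0) (W2 := 1230186008) (P3 := 536870912) (W3 := 50465866) (N0 := 3) (En := eng) (mo := mog) (C1 := cd4q1) (C2 := cd4q3) (C3 := pd3)
    rfl k0_pp_133

noncomputable def f_pp_202 : ℕ → ℕ → ℕ → ℕ → Bool := onCell 1073741824 536870912 0 536870912 536870912 50465866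
    (rowB 3 eng mog cd4q2 cd4q0 pd2 0 true true true .pp 2 0 2 (qsf 1073741824 536870912 0 536870912 2) ndB4q2 ndB4q0 pcB2 Cut.none Ext.none)

def k0_pp_202 : ∃ t, chk3 f_pp_202 t 1 1 1 = true :=
  ⟨(l 4), by decide +kernel⟩

theorem c_pp_202 : CertB 1073741824 536870912 0 536870912 536870912 50465866 3 eng mog cd4q2 cd4q0 pd2 true true true .pp 2 0 2
    ndB4q2 ndB4q0 pcB2 Cut.none Ext.none :=
  certB0 (fam := true) (s1 := true) (s2 := true) (a := 2) (b := 0) (c := 2) (cn := .pp) (n1 := ndB4q2) (n2 := ndB4q0) (pc := pcB2) (cut := Cut.none) (xt := Ext.none) (P1 := 1073741824) (W1 := 536870912) (P2 := 0) (W2 := 536870912) (P3 := 536870912) (W3 := 50465866) (N0 := 3) (En := eng) (mo := mog) (C1 := cd4q2) (C2 := cd4q0) (C3 := pd2)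
    rfl k0_pp_202

noncomputable def f_pp_203 : ℕ → ℕ → ℕ → ℕ → Bool := onCell 1073741824 536870912 0 536870912 536870912 50465866
    (rowB 3 eng mog cd4q2 cd4q0 pd3 0 true true true .up 2 0 3 (qsf 1073741824 536870912 0 536870912 3) ndB4q2 ndB4q0 pcB3 Cut.none Ext.none)

def k0_pp_203 : ∃ t, chk3 f_pp_203 t 1 1 1 = true :=
  ⟨(l 4), by decide +kernel⟩

theorem c_pp_203 : CertB 1073741824 536870912 0 536870912 536870912 50465866 3 eng mog cd4q2 cd4q0 pd3 true true true .up 2 0 3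
    ndB4q2 ndB4q0 pcB3 Cut.none Ext.none :=
  certB0 (fam := true) (s1 := true) (s2 := true) (a := 2) (b := 0) (c := 3) (cn := .up) (n1 := ndB4q2) (n2 := ndB4q0) (pc := pcB3) (cut := Cut.none) (xt := Ext.none) (P1 := 1073741824) (W1 := 536870912) (P2 := 0) (W2 := 536870912) (P3 := 536870912) (W3 := 50465866) (N0 := 3) (En := eng) (mo := mog) (C1 := cd4q2) (C2 := cd4q0) (C3 := pd3)
    rfl k0_pp_203

noncomputable def f_pp_213 : ℕ → ℕ → ℕ → ℕ → Bool := onCell 1073741824 536870912 536870912 536870912 536870912 50465866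
    (rowB 3 eng mog cd4q2 cd4q1 pd3 0 true true true .pnn 2 1 3 (qsf 1073741824 536870912 536870912 536870912 3) ndB4q2 ndB4q1 pcB3 Cut.none Ext.none)

def k0_pp_213 : ∃ t, chk3 f_pp_213 t 1 1 1 = true :=
  ⟨(l 4), by decide +kernel⟩

theorem c_pp_213 : CertB 1073741824 536870912 536870912 536870912 536870912 50465866 3 eng mog cd4q2 cd4q1 pd3 true true true .pnn 2 1 3
    ndB4q2 ndB4q1 pcB3 Cut.none Ext.none :=
  certB0 (fam := true) (s1 := true) (s2 := true) (a := 2) (b := 1) (c := 3) (cn := .pnn) (n1 := ndB4q2) (n2 := ndB4q1) (pc := pcB3) (cut := Cut.none) (xt := Ext.none) (P1 := 1073741824) (W1 := 536870912) (P2 := 536870912) (W2 := 536870912) (P3 := 536870912) (W3 := 50465866) (N0 := 3) (En := eng) (mo := mog) (C1 := cd4q2) (C2 := cd4q1) (C3 := pd3)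
    rfl k0_pp_213

noncomputable def f_pp_303 : ℕ → ℕ → ℕ → ℕ → Bool := onCell 0 1230186008 0 536870912 536870912 50465866
    (rowB 3 eng mog cd4q3 cd4q0 pd3 0 true true true .npn 3 0 3 (qsf 0 1230186008 0 536870912 3) ndB4q3 ndB4q0 pcB3 Cut.none Ext.none)

def k0_pp_303 : ∃ t, chk3 f_pp_303 t 1 1 1 = true :=
  ⟨(l 5), by decide +kernel⟩

theorem c_pp_303 : CertB 0 1230186008 0 536870912 536870912 50465866 3 eng mog cd4q3 cd4q0 pd3 true true true .npn 3 0 3
    ndB4q3 ndB4q0 pcB3 Cut.none Ext.none :=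
  certB0 (fam := true) (s1 := true) (s2 := true) (a := 3) (b := 0) (c := 3) (cn := .npn) (n1 := ndB4q3) (n2 := ndB4q0) (pc := pcB3) (cut := Cut.none) (xt := Ext.none) (P1 := 0) (W1 := 1230186008) (P2 := 0) (W2 := 536870912) (P3 := 536870912) (W3 := 50465866) (N0 := 3) (En := eng) (mo := mog) (C1 := cd4q3) (C2 := cd4q0) (C3 := pd3)
    rfl k0_pp_303

noncomputable def f_pp_313 : ℕ → ℕ → ℕ → ℕ → Bool := onCell 0 1230186008 536870912 536870912 536870912 50465866
    (rowB 3 eng mog cd4q3 cd4q1 pd3 0 true true true .dn 3 1 3 (qsf 0 1230186008 536870912 536870912 3) ndB4q3 ndB4q1 pcB3 Cut.none Ext.none)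

def k0_pp_313 : ∃ t, chk3 f_pp_313 t 1 1 1 = true :=
  ⟨(l 4), by decide +kernel⟩

theorem c_pp_313 : CertB 0 1230186008 536870912 536870912 536870912 50465866 3 eng mog cd4q3 cd4q1 pd3 true true true .dn 3 1 3
    ndB4q3 ndB4q1 pcB3 Cut.none Ext.none :=
  certB0 (fam := true) (s1 := true) (s2 := true) (a := 3) (b := 1) (c := 3) (cn := .dn) (n1 := ndB4q3) (n2 := ndB4q1) (pc := pcB3) (cut := Cut.none) (xt := Ext.none) (P1 := 0) (W1 := 1230186008) (P2 := 536870912) (W2 := 536870912) (P3 := 536870912) (W3 := 50465866) (N0 := 3) (En := eng) (mo := mog) (C1 := cd4q3) (C2 := cd4q1) (C3 := pd3)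
    rfl k0_pp_313

noncomputable def f_pm_001 : ℕ → ℕ → ℕ → ℕ → Bool := onCell 0 536870912 0 536870912 536870912 50465866
    (rowB 3 eng mog cd4q0 cd4q0 pd1 0 true true false .up 0 0 1 (qsf 0 536870912 0 536870912 1) ndB4q0 ndB4q0 pcB1 Cut.none Ext.none)

def k0_pm_001 : ∃ t, chk3 f_pm_001 t 1 1 1 = true :=
  ⟨(l 3), by decide +kernel⟩

theorem c_pm_001 : CertB 0 536870912 0 536870912 536870912 50465866 3 eng mog cd4q0 cd4q0 pd1 true true false .up 0 0 1
    ndB4q0 ndB4q0 pcB1 Cut.none Ext.none :=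
  certB0 (fam := true) (s1 := true) (s2 := false) (a := 0) (b := 0) (c := 1) (cn := .up) (n1 := ndB4q0) (n2 := ndB4q0) (pc := pcB1) (cut := Cut.none) (xt := Ext.none) (P1 := 0) (W1 := 536870912) (P2 := 0) (W2 := 536870912) (P3 := 536870912) (W3 := 50465866) (N0 := 3) (En := eng) (mo := mog) (C1 := cd4q0) (C2 := cd4q0) (C3 := pd1)
    rfl k0_pm_001

noncomputable def f_pm_011 : ℕ → ℕ → ℕ → ℕ → Bool := onCell 0 536870912 536870912 536870912 536870912 50465866
    (rowB 3 eng mog cd4q0 cd4q1 pd1 1 true true false .pnn 0 1 1 (qsf 0 536870912 536870912 536870912 1) ndB4q0 ndB4q1 pcB1 Cut.none Ext.none)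

def k0_pm_011 : ∃ t, chk3 f_pm_011 t 1 1 1 = true :=
  ⟨(a (l 3) (l 3)), by decide +kernel⟩

theorem c_pm_011 : CertB 0 536870912 536870912 536870912 536870912 50465866 3 eng mog cd4q0 cd4q1 pd1 true true false .pnn 0 1 1
    ndB4q0 ndB4q1 pcB1 Cut.none Ext.none :=
  certB1 (fam := true) (s1 := true) (s2 := false) (a := 0) (b := 1) (c := 1) (cn := .pnn) (n1 := ndB4q0) (n2 := ndB4q1) (pc := pcB1) (cut := Cut.none) (xt := Ext.none) (P1 := 0) (W1 := 536870912) (P2 := 536870912) (W2 := 536870912) (P3 := 536870912) (W3 := 50465866) (N0 := 3) (En := eng) (mo := mog) (C1 := cd4q0) (C2 := cd4q1) (C3 := pd1)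
    rfl (fun _ => rfl) k0_pm_011

noncomputable def f_pm_012 : ℕ → ℕ → ℕ → ℕ → Bool := onCell 0 536870912 1073741824 536870912 536870912 50465866
    (rowB 3 eng mog cd4q0 cd4q1 pd2 1 true true false .pnp 0 1 2 (qsf 0 536870912 536870912 536870912 2) ndB4q0 ndB4q1 pcB2 Cut.none Ext.none)

def k0_pm_012 : ∃ t, chk3 f_pm_012 t 1 1 1 = true :=
  ⟨(a (a (b (b (b (l 3) (b (l 3) (a (l 2) (l 3)))) (b (b (b (a (l 2) (a (l 2) (l 16479032))) (l 2)) (l 2)) (l 2))) (l 2)) (b (b (l 3) (b (b (b (a (l 16522120) (l 3)) (b (a (l 16499776) (l 16550752)) (b (a (l 16489280) (l 16543112)) (a (l 16482520) (b (l 16539736) (l 16537000)))))) (a (l 16450136) (l 16513784))) (a (a (l 2) (l 16381984)) (l 16442736)))) (b (a (l 2) (b (l 16340784) (l 2))) (l 2)))) (b (b (l 3) (a (b (b (b (l 3) (b (l 16621128) (b (l 16617096) (b (l 16615664) (l 16614152))))) (l 16602080)) (a (l 16517688) (l 16606976))) (b (b (b (l 3) (b (l 3) (a (b (l 16679184) (b (l 16679176) (l 16678960)))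 (b (l 3) (b (l 16705624) (l 16705912)))))) (a (l 16677720) (l 16709632))) (a (l 16676696) (l 16725744))))) (a (a (b (l 16400400) (l 2)) (b (l 16555952) (l 16477520))) (a (b (l 16687184) (l 16722688)) (b (l 16785808) (l 16929080)))))), by decide +kernel⟩

theorem c_pm_012 : CertB 0 536870912 536870912 536870912 536870912 50465866 3 eng mog cd4q0 cd4q1 pd2 true true false .pnp 0 1 2
    ndB4q0 ndB4q1 pcB2 Cut.none Ext.none :=
  certB1 (fam := true) (s1 := true) (s2 := false) (a := 0) (b := 1) (c := 2) (cn := .pnp) (n1 := ndB4q0) (n2 := ndB4q1) (pc := pcB2) (cut := Cut.none) (xt := Ext.none) (P1 := 0) (W1 := 536870912) (P2 := 536870912) (W2 := 536870912) (P3 := 536870912) (W3 := 50465866) (N0 := 3) (En := eng) (mo := mog) (C1 := cd4q0) (C2 := cd4q1) (C3 := pd2)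
    rfl (fun _ => rfl) k0_pm_012

noncomputable def f_pm_022 : ℕ → ℕ → ℕ → ℕ → Bool := onCell 0 536870912 1073741824 536870912 536870912 50465866
    (rowB 3 eng mog cd4q0 cd4q2 pd2 1 true true false .pp 0 2 2 (qsf 0 536870912 1073741824 536870912 2) ndB4q0 ndB4q2 pcB2 Cut.none Ext.none)

def k0_pm_022 : ∃ t, chk3 f_pm_022 t 1 1 1 = true :=
  ⟨(a (b (b (b (a (a (b (b (l 3) (a (a (l 3) (l 16720056)) (a (b (l 1) (l 271690229303)) (l 1)))) (a (b (a (l 16699040) (l 16703432)) (l 16685488)) (b (a (b (l 16714744) (l 16706080)) (b (l 1) (l 16715768))) (l 16697992)))) (b (l 1) (a (b (l 1) (a (l 16713944) (l 1))) (l 1)))) (l 1)) (a (b (a (a (l 16662832) (l 16675192)) (a (b (l 16702648) (l 16686144)) (b (l 1) (l 16715768)))) (a (a (l 16632480) (l 16646784)) (l 16738688))) (a (b (l 1) (a (l 16728272) (l 1))) (l 1)))) (a (b (a (b (b (l 16617496) (l 16790688)) (l 16579776)) (b (b (l 16654672) (l 16640544)) (l 16622232))) (a (b (l 16547280) (l 16508968))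 (l 16584552))) (b (b (a (b (l 16722832) (l 16912288)) (l 1)) (a (l 16679568) (l 16779304))) (a (l 16637392) (l 16711448))))) (b (a (b (a (l 16433424) (l 16530936)) (l 16386680)) (b (a (l 16589648) (l 16646664)) (a (l 16544832) (l 16598384)))) (a (b (l 16249224) (a (b (l 16267384) (a (l 16326288) (l 16295384))) (l 16232224))) (b (l 16532232) (b (l 16494016) (l 16448288)))))) (b (a (b (l 1) (b (l 1) (a (l 498250395543) (l 1)))) (l 1)) (b (a (b (a (l 16739336) (l 16965248)) (l 16751368)) (a (l 500935599831) (l 1))) (a (b (l 16703640) (b (l 16678664) (l 16657080))) (b (a (l 17035280) (l 17470992)) (a (l 16948296) (l 17289616))))))), by decide +kernel⟩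

theorem c_pm_022 : CertB 0 536870912 1073741824 536870912 536870912 50465866 3 eng mog cd4q0 cd4q2 pd2 true true false .pp 0 2 2
    ndB4q0 ndB4q2 pcB2 Cut.none Ext.none :=
  certB1 (fam := true) (s1 := true) (s2 := false) (a := 0) (b := 2) (c := 2) (cn := .pp) (n1 := ndB4q0) (n2 := ndB4q2) (pc := pcB2) (cut := Cut.none) (xt := Ext.none) (P1 := 0) (W1 := 536870912) (P2 := 1073741824) (W2 := 536870912) (P3 := 536870912) (W3 := 50465866) (N0 := 3) (En := eng) (mo := mog) (C1 := cd4q0) (C2 := cd4q2) (C3 := pd2)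
    rfl (fun _ => rfl) k0_pm_022

noncomputable def f_pm_023 : ℕ → ℕ → ℕ → ℕ → Bool := onCell 1610612736 536870912 1073741824 536870912 536870912 50465866
    (rowB 3 eng mog cd4q0 cd4q2 pd3 2 true true false .up 0 2 3 (qsf 0 536870912 1073741824 536870912 3) ndB4q0 ndB4q2 pcB3 Cut.none Ext.none)

def k0_pm_023 : ∃ t, chk3 f_pm_023 t 1 1 1 = true :=
  ⟨(a (b (a (b (a (b (l 17512896) (a (l 16978248) (l 17061776))) (b (l 17243320) (l 17280304))) (a (b (a (l 16773208) (l 16826776)) (l 16641840)) (b (l 17048712) (a (l 16738920) (l 16820232))))) (b (a (b (l 2) (l 17213512)) (l 2)) (a (b (l 17200928) (l 16941440)) (b (l 17163288) (l 17082928))))) (a (b (a (l 16467512) (l 16548736)) (a (b (l 16252648) (l 16329256)) (b (l 16451216) (l 16483096)))) (b (a (b (l 16767000) (l 16630152)) (b (l 16891792) (l 16735552))) (b (l 16821416) (a (l 16581536) (l 16667624)))))) (a (a (b (b (l 2) (b (l 2) (l 16956120))) (b (b (l 16946944) (l 16800224)) (b (l 16732192)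 (l 16731168)))) (b (l 2) (l 4))) (l 4))), by decide +kernel⟩

theorem c_pm_023 : CertB 0 536870912 1073741824 536870912 536870912 50465866 3 eng mog cd4q0 cd4q2 pd3 true true false .up 0 2 3
    ndB4q0 ndB4q2 pcB3 Cut.none Ext.none :=
  certB2 (fam := true) (s1 := true) (s2 := false) (a := 0) (b := 2) (c := 3) (cn := .up) (n1 := ndB4q0) (n2 := ndB4q2) (pc := pcB3) (cut := Cut.none) (xt := Ext.none) (P1 := 0) (W1 := 536870912) (P2 := 1073741824) (W2 := 536870912) (P3 := 536870912) (W3 := 50465866) (N0 := 3) (En := eng) (mo := mog) (C1 := cd4q0) (C2 := cd4q2) (C3 := pd3)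
    rfl (fun _ => rfl) k0_pm_023

noncomputable def f_pm_033 : ℕ → ℕ → ℕ → ℕ → Bool := onCell 1610612736 536870912 0 1230186008 536870912 50465866
    (rowB 3 eng mog cd4q0 cd4q3 pd3 2 true true false .pnn 0 3 3 (qsf 0 536870912 0 1230186008 3) ndB4q0 ndB4q3 pcB3 Cut.none Ext.none)

def k0_pm_033 : ∃ t, chk3 f_pm_033 t 1 1 1 = true :=
  ⟨(b (a (l 1) (a (l 1) (b (l 4) (l 4)))) (b (a (b (l 1) (a (l 1) (a (l 1) (l 942779291911)))) (a (a (b (l 1) (l 16761976)) (l 4)) (l 4))) (a (b (a (l 1) (a (b (l 16662080) (l 16655760)) (l 16713304))) (a (b (a (l 1) (l 16617320)) (a (b (l 16464520) (l 16348368)) (l 16534112))) (b (a (l 16652216) (l 16715160)) (a (l 16606864) (l 16685000))))) (a (a (b (l 16759936) (b (l 16766256) (l 16742752))) (l 4)) (l 4))))), by decide +kernel⟩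

theorem c_pm_033 : CertB 0 536870912 0 1230186008 536870912 50465866 3 eng mog cd4q0 cd4q3 pd3 true true false .pnn 0 3 3
    ndB4q0 ndB4q3 pcB3 Cut.none Ext.none :=
  certB2 (fam := true) (s1 := true) (s2 := false) (a := 0) (b := 3) (c := 3) (cn := .pnn) (n1 := ndB4q0) (n2 := ndB4q3) (pc := pcB3) (cut := Cut.none) (xt := Ext.none) (P1 := 0) (W1 := 536870912) (P2 := 0) (W2 := 1230186008) (P3 := 536870912) (W3 := 50465866) (N0 := 3) (En := eng) (mo := mog) (C1 := cd4q0) (C2 := cd4q3) (C3 := pd3)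
    rfl (fun _ => rfl) k0_pm_033

noncomputable def f_pm_101 : ℕ → ℕ → ℕ → ℕ → Bool := onCell 536870912 536870912 0 536870912 536870912 50465866
    (rowB 3 eng mog cd4q1 cd4q0 pd1 2 true true false .npn 1 0 1 (qsf 536870912 536870912 0 536870912 1) ndB4q1 ndB4q0 pcB1 Cut.none Ext.none)

def k0_pm_101 : ∃ t, chk3 f_pm_101 t 1 1 1 = true :=
  ⟨(a (l 3) (l 3)), by decide +kernel⟩

theorem c_pm_101 : CertB 536870912 536870912 0 536870912 536870912 50465866 3 eng mog cd4q1 cd4q0 pd1 true true false .npn 1 0 1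
    ndB4q1 ndB4q0 pcB1 Cut.none Ext.none :=
  certB2 (fam := true) (s1 := true) (s2 := false) (a := 1) (b := 0) (c := 1) (cn := .npn) (n1 := ndB4q1) (n2 := ndB4q0) (pc := pcB1) (cut := Cut.none) (xt := Ext.none) (P1 := 536870912) (W1 := 536870912) (P2 := 0) (W2 := 536870912) (P3 := 536870912) (W3 := 50465866) (N0 := 3) (En := eng) (mo := mog) (C1 := cd4q1) (C2 := cd4q0) (C3 := pd1)
    rfl (fun _ => rfl) k0_pm_101

end Pool.Agent.Strip051.G.I5000_5470.Tab.C.BA44

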