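import Pool.Agent.Strip051.G.I5000_5470.Tab

/-! # Certificates B8 (generated) -/

set_option linter.all false
set_option maxRecDepth 100000

namespace Pool.Agent.Strip051.G.I5000_5470.Tab.C.BA11

open Pool.Agent.Strip051.PB Pool.Agent.Strip051.PB.T
open Pool.Agent.Strip051.G.I5000_5470.Tab

noncomputable def f_pm_012 : ℕ → ℕ → ℕ → ℕ → Bool := onCell 1073741824 536870912 536870912 536870912 536870912 50465866
    (rowB 3 eng mog cd1q0 cd1q1 pd2 2 true true false .pnp 0 1 2 (qsf 0 536870912 536870912 536870912 2) ndB1q0 ndB1q1 pcB2 Cut.none Ext.none)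

def k0_pm_012 : ∃ t, chk3 f_pm_012 t 4 1 1 = true :=
  ⟨(b (l 3) (a (b (l 3) (l 3)) (a (b (l 3) (b (b (l 3) (l 3)) (a (b (l 3) (b (a (l 3) (l 16728392)) (a (b (l 16728968) (l 16722896)) (a (l 16718912) (l 16714224))))) (b (a (b (l 3) (l 16729376)) (b (l 16709736) (l 16719800))) (b (a (a (l 16717352) (l 16716456)) (a (l 16711632) (l 16685984))) (a (b (l 16689208) (l 16683552)) (l 16677424))))))) (b (a (l 3) (b (l 3) (a (b (l 3) (l 16753976)) (b (l 16763224) (l 16749368))))) (b (a (b (a (l 3) (l 16766120)) (a (l 16720736) (b (l 16731808) (l 16701616)))) (b (a (a (l 16718624) (l 16755776)) (a (l 16752640) (l 16729472))) (a (a (l 16742024) (l 16737752)) (l 16688832)))) (b (a (a (b (l 16700408) (l 16689704)) (l 16696472)) (a (l 16676320) (l 16667664))) (a (b (a (l 16678568) (l 16668672)) (a (l 16668200) (l 16658656))) (b (l 16676528) (l 16644320))))))))), by decide +kernel⟩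

def k1_pm_012 : ∃ t, chk3 f_pm_012 t 5 1 1 = true :=
  ⟨(a (b (b (a (a (l 3) (l 2)) (l 2)) (a (a (l 3) (a (b (l 3) (a (l 16762272) (l 16761216))) (a (b (a (l 16764488) (l 16763496)) (a (l 16760136) (l 16758464))) (b (a (b (l 16783528) (l 16824368)) (b (l 16762248) (b (l 16761728) (l 16781504)))) (a (b (l 16842488) (l 16796984)) (l 16756504)))))) (b (l 16779400) (l 16750480)))) (a (a (b (b (a (b (l 3) (l 16750488)) (b (l 16756832) (l 16748760))) (a (b (l 16740080) (a (l 16724992) (l 16723280))) (b (l 16757488) (l 16781272)))) (b (b (a (b (l 16708912) (l 16696832)) (l 16694344)) (a (l 16701368) (l 16671440))) (b (a (l 16659008) (l 16650200)) (a (l 16637000) (l 16628112))))) (a (b (b (a (l 16772040) (l 16770176)) (a (l 16721912) (l 16719592))) (b (b (a (l 16687896) (l 16687760)) (a (l 16665552) (l 16664152))) (b (l 16642552) (l 16619208)))) (b (a (b (a (l 16747224) (l 16745304)) (b (l 16726744) (l 16709456))) (b (a (l 16744672) (l 16744488)) (a (b (l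 16727176) (l 16709200)) (b (l 16767656) (l 16704208))))) (a (b (b (l 16687440) (l 16661584)) (b (l 16657544) (l 16611728))) (b (a (b (l 16684216) (l 16678136)) (b (l 16720464) (c (l 16654568) (l 16647928)))) (a (b (l 16631264) (l 16606232)) (b (l 16625400) (b (l 16606912) (l 16641232))))))))) (b (b (l 16735672) (b (l 16713920) (l 16690296))) (b (b (l 16663896) (l 16635712)) (b (l 16608280) (l 16656624)))))) (b (b (l 2) (b (l 16816248) (l 16822616))) (b (b (b (l 16723016) (l 16708768)) (b (l 16689616) (l 16684128))) (b (b (a (l 16642456) (l 16625112)) (l 16664912)) (b (a (l 16581592) (l 16559640)) (b (l 16547096) (l 16575400))))))), by decide +kernel⟩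

def k2_pm_012 : ∃ t, chk3 f_pm_012 t 3 1 1 = true :=
  ⟨(a (b (b (l 2) (a (b (l 2) (l 16736800)) (l 2))) (b (b (a (l 16704872) (l 16711416)) (a (b (l 16670936) (l 16641392)) (l 16653584))) (b (a (b (l 16607344) (l 16570664)) (b (l 16597240) (l 16554952))) (b (a (l 16533176) (l 16510504)) (a (a (l 16507448) (l 16488496)) (a (l 16473152) (l 16462976))))))) (b (l 2) (b (b (l 2) (a (l 16670032) (l 2))) (b (a (a (l 16582696) (l 16600784)) (l 16636280)) (a (b (l 16524272) (l 16478832)) (b (l 16583608) (l 16546048))))))), by decide +kernel⟩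

theorem s3_pm_012 : ∃ t, chk3 f_pm_012 t 2 1 1 = true := ex3_a k0_pm_012 k1_pm_012

theorem s4_pm_012 : ∃ t, chk3 f_pm_012 t 1 1 1 = true := ex3_a s3_pm_012 k2_pm_012

theorem c_pm_012 : CertB 0 536870912 536870912 536870912 536870912 50465866 3 eng mog cd1q0 cd1q1 pd2 true true false .pnp 0 1 2
    ndB1q0 ndB1q1 pcB2 Cut.none Ext.none :=
  certB2 (fam := true) (s1 := true) (s2 := false) (a := 0) (b := 1) (c := 2) (cn := .pnp) (n1 := ndB1q0) (n2 := ndB1q1) (pc := pcB2) (cut := Cut.none) (xt := Ext.none) (P1 := 0) (W1 := 536870912) (P2 := 536870912) (W2 := 536870912) (P3 := 536870912) (W3 := 50465866) (N0 := 3) (En := eng) (mo := mog) (C1 := cd1q0) (C2 := cd1q1) (C3 := pd2)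
    rfl (fun _ => rfl) s4_pm_012

noncomputable def cut_pm_022_a : Cut := Cut.of [[⟨0, 0, 0, 67108864⟩, ⟨1, 1, 0, 67108864⟩, ⟨2, 1, 0, 67108864⟩]]

noncomputable def f_pm_022_a : ℕ → ℕ → ℕ → ℕ → Bool := onCell 1073741824 536870912 0 536870912 536870912 50465866
    (rowB 3 eng mog cd1q0 cd1q2a pd2 2 true true false .pp 0 2 2 (qsf 0 536870912 0 536870912 2) ndB1q0 ndB1q2a pcB2 cut_pm_022_a Ext.none)

def k0_pm_022_a : ∃ t, chk3 f_pm_022_a t 2 2 1 = true :=
  ⟨(a (a (l 1) (b (l 1) (a (l 1) (b (l 1) (a (l 1) (b (l 1) (a (l 1) (l 16528288)))))))) (a (b (b (a (l 16501120) (a (l 16456104) (l 16459560))) (c (a (l 16529768) (a (l 16467816) (l 16464104))) (a (l 16469160) (a (l 16465016) (l 16466536))))) (a (a (b (b (l 16483168) (l 16494360)) (b (a (l 16593344) (l 16505832)) (c (l 16522080) (l 16522848)))) (b (l 16545328) (c (a (l 16507120) (b (a (l 16501864) (l 16502488)) (l 16586544))) (a (l 16510928) (a (l 16508336) (l 16569512)))))) (a (b (c (l 16485680)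 (l 16480120)) (b (l 16539256) (l 16508304))) (b (l 16477336) (l 16561968))))) (b (a (b (l 16468176) (l 16470040)) (b (l 16481760) (l 16479832))) (b (a (l 16480320) (l 16465504)) (a (b (l 16493496) (l 16504488)) (b (l 16497104) (l 16505656))))))), by decide +kernel⟩

def k1_pm_022_a : ∃ t, chk3 f_pm_022_a t 4 3 1 = true :=
  ⟨(a (b (l 1) (b (a (l 1) (a (b (l 1) (l 6)) (a (b (l 1) (l 6)) (b (b (l 1) (b (l 16651840) (l 104186271303))) (a (l 6) (b (l 16662920) (l 16672704))))))) (a (l 6) (a (l 6) (a (l 6) (a (l 6) (b (b (l 16682216) (l 16691944)) (b (l 16701344) (l 16710336))))))))) (b (a (b (l 1) (a (b (l 1) (a (l 1) (b (l 16614520) (l 16624080)))) (b (a (l 16596176) (b (l 16587536) (l 16596344))) (b (a (l 16609872) (l 16605040)) (a (l 16618952) (l 16584808)))))) (b (a (b (b (l 1) (l 16556368)) (a (l 16570784) (l 16567048))) (b (a (l 16547488) (l 16543944)) (a (l 16563088) (l 16621784)))) (a (a (b (b (l 16583416) (l 16591784)) (b (l 16558056) (l 16608136)))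 (b (b (l 16579080) (l 16566040)) (l 16598720))) (b (a (c (l 16578392) (l 16577680)) (l 16573400)) (l 16611152))))) (b (a (b (a (b (a (l 16638912) (l 16633456)) (a (b (l 16646152) (l 16650944)) (c (l 16642992) (l 16641816)))) (b (a (c (l 16628336) (l 16626864)) (l 16622008)) (l 16659496))) (a (a (b (b (l 16697728) (l 16660568)) (l 16667656)) (b (l 16651768) (l 16660784))) (c (l 16668312) (l 16646456)))) (b (a (l 16674408) (l 16648376)) (a (c (l 16636344) (l 16634072)) (c (l 16625968) (l 16622296))))) (b (a (a (b (l 16699952) (c (l 16684144) (l 16682536))) (b (l 16681648) (l 16722136))) (a (b (l 16648200) (l 16656712)) (b (l 16636216) (l 16644160)))) (a (b (a (a (l 16695928) (l 16688816)) (l 16699368)) (a (a (l 16704768) (l 16697456)) (a (l 16690264) (l 16683160)))) (a (b (l 16664896) (l 16693656)) (b (l 16651808) (l 16680328)))))))), by decide +kernel⟩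

def k2_pm_022_a : ∃ t, chk3 f_pm_022_a t 5 3 1 = true :=
  ⟨(b (a (a (c (a (b (b (l 16537320) (l 16550992)) (b (l 16563920) (l 16581992))) (b (a (l 16536360) (a (l 16534968) (l 16576336))) (a (l 16569368) (a (l 16567504) (b (l 16557384) (l 16573152)))))) (a (b (b (l 16537912) (l 16552280)) (b (l 16566248) (l 16579472))) (b (a (l 16539640) (a (l 16536552) (l 16576608))) (a (l 16565240) (b (l 16638072) (l 16636120)))))) (b (b (l 16582664) (l 16572792)) (b (l 16587192) (a (l 16564832) (l 16554312))))) (b (a (l 16561072) (l 16513984)) (a (l 16597496) (l 16520008)))) (a (a (b (a (b (l 16618144) (l 16676216)) (a (b (l 16590648) (l 16605672)) (b (a (l 16587384) (c (l 16672200) (l 16581640))) (a (l 16601864) (a (l 16599808) (l 16661128)))))) (a (b (c (l 16631864) (l 16646888)) (b (l 16639832) (l 16647296))) (a (b (l 16620624) (l 16656440)) (a (b (l 16616872) (l 16631280)) (b (a (l 16614856) (l 16634144)) (a (l 16628904) (b (l 16623592) (l 16650912))))))))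 (b (b (a (l 16620992) (l 16569040)) (a (a (l 16595888) (l 16591056)) (l 16583992))) (b (a (a (l 16610672) (l 16605608)) (l 16597856)) (a (b (l 16618040) (l 16645024)) (l 16610000))))) (b (b (a (l 16556376) (l 16540504)) (a (l 16570296) (l 16552888))) (b (a (l 16582864) (l 16563936)) (a (l 16635672) (l 16573712)))))), by decide +kernel⟩

def k3_pm_022_a : ∃ t, chk3 f_pm_022_a t 3 1 1 = true :=
  ⟨(a (b (b (a (b (a (l 16496736) (l 16510896)) (a (l 16490936) (l 16501184))) (a (b (l 16523320) (l 16509504)) (l 16565928))) (a (b (a (l 16493464) (l 16499616)) (a (l 16504256) (l 16506168))) (a (b (l 16503672) (l 16506032)) (b (l 16503016) (l 16499880))))) (b (b (a (a (l 16508472) (l 16503552)) (a (l 16496784) (l 16482336))) (a (l 16563032) (l 16548400))) (a (b (a (l 16615480) (l 16517896)) (b (l 16603256) (a (l 16557280) (l 16542952)))) (b (a (l 16509064) (l 16506816)) (a (b (l 16523432) (l 16531544)) (l 16523488)))))) (a (b (b (l 16529952) (b (l 16495704)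 (l 16483000))) (b (b (l 16476040) (l 16497912)) (b (l 16538440) (b (l 16531080) (l 16540128))))) (b (a (b (l 16528672) (l 16489760)) (b (l 16616000) (l 16606440))) (b (a (b (l 16499168) (l 16518000)) (b (l 16502072) (a (l 16528536) (l 16500360)))) (a (b (l 16541792) (l 16567112)) (b (a (l 16555024) (l 16534368)) (a (l 16584912) (l 16574488)))))))), by decide +kernel⟩

theorem s4_pm_022_a : ∃ t, chk3 f_pm_022_a t 2 3 1 = true := ex3_a k1_pm_022_a k2_pm_022_a

theorem s5_pm_022_a : ∃ t, chk3 f_pm_022_a t 2 1 1 = true := ex3_b k0_pm_022_a s4_pm_022_a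

theorem s6_pm_022_a : ∃ t, chk3 f_pm_022_a t 1 1 1 = true := ex3_a s5_pm_022_a k3_pm_022_a

theorem c_pm_022_a : CertB 0 536870912 0 536870912 536870912 50465866 3 eng mog cd1q0 cd1q2a pd2 true true false .pp 0 2 2
    ndB1q0 ndB1q2a pcB2 cut_pm_022_a Ext.none :=
  certB2 (fam := true) (s1 := true) (s2 := false) (a := 0) (b := 2) (c := 2) (cn := .pp) (n1 := ndB1q0) (n2 := ndB1q2a) (pc := pcB2) (cut := cut_pm_022_a) (xt := Ext.none) (P1 := 0) (W1 := 536870912) (P2 := 0) (W2 := 536870912) (P3 := 536870912) (W3 := 50465866) (N0 := 3) (En := eng) (mo := mog) (C1 := cd1q0) (C2 := cd1q2a) (C3 := pd2)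
    rfl (fun _ => rfl) s6_pm_022_a

noncomputable def cut_pm_022_b : Cut := Cut.of [[⟨0, 0, 0, 67108864⟩, ⟨1, 1, 0, 67108864⟩, ⟨2, 1, 0, 67108864⟩]]

noncomputable def f_pm_022_b : ℕ → ℕ → ℕ → ℕ → Bool := onCell 1073741824 536870912 1239849684 370763052 536870912 50465866
    (rowB 3 eng mog cd1q0 cd1q2b pd2 2 true true false .pp 0 2 2 (qsf 0 536870912 1239849684 370763052 2) ndB1q0 ndB1q2b pcB2 cut_pm_022_b Ext.none)

def k0_pm_022_b : ∃ t, chk3 f_pm_022_b t 1 1 1 = true :=
  ⟨(a (b (a (l 1) (a (b (b (a (a (l 1) (l 16412056)) (a (b (l 16433552) (l 1)) (l 16480296))) (l 1)) (l 1)) (b (a (b (a (l 16445888) (l 16433136)) (b (l 16366984) (l 1))) (b (a (l 16441928) (l 16451176)) (b (l 16388256) (l 16347824)))) (a (l 1) (b (l 16285464) (l 1)))))) (l 1)) (b (a (a (b (a (b (l 16465672) (l 16392480)) (b (l 16485040) (l 16417456))) (a (b (l 16314360) (l 1)) (b (l 16344320) (l 16267256)))) (b (a (b (l 16502776) (l 16441712)) (l 16512936)) (a (l 16380320) (l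 16368032)))) (a (b (b (l 16537456) (l 16493712)) (l 16411624)) (b (a (l 16537968) (l 16549592)) (l 16548840)))) (a (b (a (l 1) (a (l 16189064) (l 16226400))) (l 1)) (a (b (l 16283512) (l 16127520)) (b (a (l 16337880) (l 16371528)) (a (l 16210512) (l 16253360))))))), by decide +kernel⟩

theorem c_pm_022_b : CertB 0 536870912 1239849684 370763052 536870912 50465866 3 eng mog cd1q0 cd1q2b pd2 true true false .pp 0 2 2
    ndB1q0 ndB1q2b pcB2 cut_pm_022_b Ext.none :=
  certB2 (fam := true) (s1 := true) (s2 := false) (a := 0) (b := 2) (c := 2) (cn := .pp) (n1 := ndB1q0) (n2 := ndB1q2b) (pc := pcB2) (cut := cut_pm_022_b) (xt := Ext.none) (P1 := 0) (W1 := 536870912) (P2 := 1239849684) (W2 := 370763052) (P3 := 536870912) (W3 := 50465866) (N0 := 3) (En := eng) (mo := mog) (C1 := cd1q0) (C2 := cd1q2b) (C3 := pd2)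
    rfl (fun _ => rfl) k0_pm_022_b

noncomputable def f_pm_023_a : ℕ → ℕ → ℕ → ℕ → Bool := onCell 1610612736 536870912 0 536870912 536870912 50465866
    (rowB 3 eng mog cd1q0 cd1q2a pd3 2 true true false .up 0 2 3 (qsf 0 536870912 0 536870912 3) ndB1q0 ndB1q2a pcB3 Cut.none Ext.none)

def k0_pm_023_a : ∃ t, chk3 f_pm_023_a t 1 1 1 = true :=
  ⟨(a (a (a (b (b (a (l 16563512) (l 16590624)) (a (l 16517664) (l 16552384))) (b (a (b (l 16544816) (l 16567552)) (b (l 16543368) (l 16545008))) (a (b (l 16588184) (l 16611384)) (b (l 16572000) (l 16615592))))) (b (b (a (l 16651656) (l 16695072)) (a (l 16613408) (l 16667824))) (b (a (b (l 16595832) (l 16587368)) (l 16652784)) (a (b (l 16604032) (l 2)) (l 2))))) (b (a (b (a (l 16720960) (l 16733224)) (b (l 16716368) (l 16711472))) (l 2)) (b (l 2) (l 2)))) (l 2)), by decide +kernel⟩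

theorem c_pm_023_a : CertB 0 536870912 0 536870912 536870912 50465866 3 eng mog cd1q0 cd1q2a pd3 true true false .up 0 2 3
    ndB1q0 ndB1q2a pcB3 Cut.none Ext.none :=
  certB2 (fam := true) (s1 := true) (s2 := false) (a := 0) (b := 2) (c := 3) (cn := .up) (n1 := ndB1q0) (n2 := ndB1q2a) (pc := pcB3) (cut := Cut.none) (xt := Ext.none) (P1 := 0) (W1 := 536870912) (P2 := 0) (W2 := 536870912) (P3 := 536870912) (W3 := 50465866) (N0 := 3) (En := eng) (mo := mog) (C1 := cd1q0) (C2 := cd1q2a) (C3 := pd3)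
    rfl (fun _ => rfl) k0_pm_023_a

noncomputable def f_pm_023_b : ℕ → ℕ → ℕ → ℕ → Bool := onCell 0 536870912 1610612736 536870912 536870912 50465866
    (rowB 3 eng mog cd1q0 cd1q2b pd3 1 true true false .up 0 2 3 (qsf 0 536870912 1239849684 370763052 3) ndB1q0 ndB1q2b pcB3 Cut.none Ext.none)

def k0_pm_023_b : ∃ t, chk3 f_pm_023_b t 1 1 1 = true :=
  ⟨(b (b (a (b (a (l 16330512) (l 16474880)) (a (l 16450200) (l 16496656))) (b (a (a (l 16559544) (l 16646728)) (a (l 344704424295) (l 1))) (a (l 16628808) (a (l 262563219831) (l 320008567607))))) (a (b (a (l 16588256) (l 16616000)) (l 4)) (b (a (l 16646504) (b (l 173979547975) (l 16698880))) (a (l 4) (b (l 16718504) (l 4)))))) (l 4)), by decide +kernel⟩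

theorem c_pm_023_b : CertB 0 536870912 1239849684 370763052 536870912 50465866 3 eng mog cd1q0 cd1q2b pd3 true true false .up 0 2 3
    ndB1q0 ndB1q2b pcB3 Cut.none Ext.none :=
  certB1 (fam := true) (s1 := true) (s2 := false) (a := 0) (b := 2) (c := 3) (cn := .up) (n1 := ndB1q0) (n2 := ndB1q2b) (pc := pcB3) (cut := Cut.none) (xt := Ext.none) (P1 := 0) (W1 := 536870912) (P2 := 1239849684) (W2 := 370763052) (P3 := 536870912) (W3 := 50465866) (N0 := 3) (En := eng) (mo := mog) (C1 := cd1q0) (C2 := cd1q2b) (C3 := pd3)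
    rfl (fun _ => rfl) k0_pm_023_b

noncomputable def f_pm_033 : ℕ → ℕ → ℕ → ℕ → Bool := onCell 0 536870912 1610612736 536870912 536870912 50465866
    (rowB 3 eng mog cd1q0 cd1q3 pd3 1 true true false .pnn 0 3 3 (qsf 0 536870912 1610612736 536870912 3) ndB1q0 ndB1q3 pcB3 Cut.none Ext.none)

def k0_pm_033 : ∃ t, chk3 f_pm_033 t 1 1 1 = true :=
  ⟨(b (b (a (b (a (l 16321360) (l 1)) (a (l 16439320) (l 16496656))) (l 1)) (a (b (a (l 16578720) (l 16611392)) (l 4)) (b (l 1) (a (l 4) (l 1))))) (l 4)), by decide +kernel⟩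

theorem c_pm_033 : CertB 0 536870912 1610612736 536870912 536870912 50465866 3 eng mog cd1q0 cd1q3 pd3 true true false .pnn 0 3 3
    ndB1q0 ndB1q3 pcB3 Cut.none Ext.none :=
  certB1 (fam := true) (s1 := true) (s2 := false) (a := 0) (b := 3) (c := 3) (cn := .pnn) (n1 := ndB1q0) (n2 := ndB1q3) (pc := pcB3) (cut := Cut.none) (xt := Ext.none) (P1 := 0) (W1 := 536870912) (P2 := 1610612736) (W2 := 536870912) (P3 := 536870912) (W3 := 50465866) (N0 := 3) (En := eng) (mo := mog) (C1 := cd1q0) (C2 := cd1q3) (C3 := pd3)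
    rfl (fun _ => rfl) k0_pm_033

noncomputable def f_pm_101 : ℕ → ℕ → ℕ → ℕ → Bool := onCell 536870912 536870912 0 536870912 536870912 50465866
    (rowB 3 eng mog cd1q1 cd1q0 pd1 2 true true false .npn 1 0 1 (qsf 536870912 536870912 0 536870912 1) ndB1q1 ndB1q0 pcB1 Cut.none Ext.none)

def k0_pm_101 : ∃ t, chk3 f_pm_101 t 1 1 1 = true :=
  ⟨(a (l 3) (l 3)), by decide +kernel⟩

theorem c_pm_101 : CertB 536870912 536870912 0 536870912 536870912 50465866 3 eng mog cd1q1 cd1q0 pd1 true true false .npn 1 0 1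
    ndB1q1 ndB1q0 pcB1 Cut.none Ext.none :=
  certB2 (fam := true) (s1 := true) (s2 := false) (a := 1) (b := 0) (c := 1) (cn := .npn) (n1 := ndB1q1) (n2 := ndB1q0) (pc := pcB1) (cut := Cut.none) (xt := Ext.none) (P1 := 536870912) (W1 := 536870912) (P2 := 0) (W2 := 536870912) (P3 := 536870912) (W3 := 50465866) (N0 := 3) (En := eng) (mo := mog) (C1 := cd1q1) (C2 := cd1q0) (C3 := pd1)
    rfl (fun _ => rfl) k0_pm_101

noncomputable def f_pm_102 : ℕ → ℕ → ℕ → ℕ → Bool := onCell 536870912 536870912 1073741824 536870912 536870912 50465866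
    (rowB 3 eng mog cd1q1 cd1q0 pd2 1 true true false .npp 1 0 2 (qsf 536870912 536870912 0 536870912 2) ndB1q1 ndB1q0 pcB2 Cut.none Ext.none)

def k0_pm_102 : ∃ t, chk3 f_pm_102 t 2 1 1 = true :=
  ⟨(b (b (l 3) (a (b (b (b (l 3) (l 2)) (l 2)) (l 2)) (b (b (b (l 3) (b (a (l 3) (b (l 16762272) (l 16761216))) (b (a (b (l 16764488) (l 16763496)) (b (l 16760136) (l 16758464))) (a (a (b (l 16783528) (l 16762248)) (b (l 16824368) (a (l 16761728) (l 16781504)))) (b (a (l 16842488) (l 16796984)) (l 16756504)))))) (a (l 16779400) (l 16750480))) (a (l 16816248) (l 16822616))))) (b (a (l 2) (b (a (l 2) (l 16736800)) (l 2))) (l 2))), by decide +kernel⟩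

def k1_pm_102 : ∃ t, chk3 f_pm_102 t 3 4 1 = true :=
  ⟨(b (a (l 3) (l 3)) (b (a (l 3) (a (a (l 3) (l 3)) (b (a (l 3) (a (b (l 3) (l 16720528)) (b (a (l 116131780855) (a (l 16721776) (l 16721376))) (a (b (l 16700984) (l 16717176)) (b (l 16718544) (l 16711264)))))) (a (b (a (l 3) (l 16708400)) (a (l 16709736) (l 16719800))) (a (b (b (l 16717352) (l 16716456)) (b (l 16711632) (l 16685984))) (b (a (l 16719352) (l 16683552)) (l 16677424))))))) (a (b (l 3) (a (l 3) (b (a (l 3) (l 16753976)) (a (l 16763224) (l 16749368))))) (a (b (a (b (l 3) (l 16766120)) (b (l 16720736) (a (l 16731808) (l 16701616)))) (a (b (b (l 16718624) (l 16755776)) (b (l 16752640) (l 16729472))) (b (b (l 16742024) (l 16737752)) (l 16688832)))) (a (b (b (a (l 16700408) (l 16689704)) (l 16696472)) (b (l 16676320) (l 16667664))) (b (a (b (l 16678568) (l 16668672)) (l 16673856)) (b (l 16654416) (l 16645736)))))))), by decide +kernel⟩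

def k2_pm_102 : ∃ t, chk3 f_pm_102 t 3 5 1 = true :=
  ⟨(b (b (b (a (a (b (a (l 3) (l 16750488)) (a (l 16756832) (l 16748760))) (b (a (l 16740080) (b (l 16724992) (l 16723280))) (a (l 16757488) (l 16781272)))) (a (a (b (a (l 16708912) (l 16696832)) (l 16694344)) (b (l 16701368) (l 16671440))) (a (b (l 16659008) (l 16650200)) (b (l 16637000) (l 16628112))))) (b (a (a (b (l 16772040) (l 16770176)) (b (l 16721912) (l 16719592))) (a (a (b (l 16687896) (l 16687760)) (b (l 16665552) (l 16664152))) (a (l 16642552) (l 16619208)))) (a (b (a (b (l 16747224) (l 16745304)) (a (l 16726744) (l 16709456))) (a (b (l 16765640) (l 16744488)) (b (a (l 16727176) (l 16709200)) (b (a (a (l 16730472) (l 16721656)) (l 16704552)) (l 16713600))))) (b (a (a (l 16687440) (l 16661584)) (a (l 16657544) (l 16611728))) (a (b (a (l 16684216) (l 16678136)) (a (l 16762408) (c (l 16654568) (l 16668904)))) (b (a (l 16631264) (l 16606232)) (a (l 16625400) (a (l 16606912) (a (l 16601872)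 (l 16620152)))))))))) (a (a (l 16735672) (a (l 16713920) (l 16690296))) (a (a (l 16663896) (l 16635712)) (a (l 16608280) (l 16646136))))) (a (a (a (l 16723016) (l 16708768)) (a (l 16689616) (l 16684128))) (a (a (b (l 16642456) (l 16625112)) (l 16664912)) (a (b (l 16581592) (l 16559640)) (a (l 16547096) (l 16554424)))))), by decide +kernel⟩

def k3_pm_102 : ∃ t, chk3 f_pm_102 t 3 3 1 = true :=
  ⟨(b (a (a (b (l 16704872) (l 16711416)) (b (a (l 16670936) (l 16641392)) (l 16653584))) (a (b (a (l 16607344) (l 16570664)) (a (l 16597240) (l 16554952))) (a (b (l 16533176) (l 16510504)) (b (b (l 16507448) (l 16488496)) (b (l 16473152) (l 16462976)))))) (a (a (l 2) (b (l 16670032) (l 2))) (b (a (b (l 16582696) (l 16600784)) (a (l 16524272) (l 16478832))) (a (l 16636280) (a (l 16583608) (l 16546048)))))), by decide +kernel⟩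

theorem s4_pm_102 : ∃ t, chk3 f_pm_102 t 3 2 1 = true := ex3_b k1_pm_102 k2_pm_102

theorem s5_pm_102 : ∃ t, chk3 f_pm_102 t 3 1 1 = true := ex3_b s4_pm_102 k3_pm_102

theorem s6_pm_102 : ∃ t, chk3 f_pm_102 t 1 1 1 = true := ex3_a k0_pm_102 s5_pm_102

theorem c_pm_102 : CertB 536870912 536870912 0 536870912 536870912 50465866 3 eng mog cd1q1 cd1q0 pd2 true true false .npp 1 0 2
    ndB1q1 ndB1q0 pcB2 Cut.none Ext.none :=
  certB1 (fam := true) (s1 := true) (s2 := false) (a := 1) (b := 0) (c := 2) (cn := .npp) (n1 := ndB1q1) (n2 := ndB1q0) (pc := pcB2) (cut := Cut.none) (xt := Ext.none) (P1 := 536870912) (W1 := 536870912) (P2 := 0) (W2 := 536870912) (P3 := 536870912) (W3 := 50465866) (N0 := 3) (En := eng) (mo := mog) (C1 := cd1q1) (C2 := cd1q0) (C3 := pd2)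
    rfl (fun _ => rfl) s6_pm_102

noncomputable def f_pm_112 : ℕ → ℕ → ℕ → ℕ → Bool := onCell 1073741824 536870912 536870912 536870912 536870912 50465866
    (rowB 3 eng mog cd1q1 cd1q1 pd2 2 true true false .dn 1 1 2 (qsf 536870912 536870912 536870912 536870912 2) ndB1q1 ndB1q1 pcB2 Cut.none Ext.none)

def k0_pm_112 : ∃ t, chk3 f_pm_112 t 1 1 1 = true :=
  ⟨(a (a (b (l 3) (l 1)) (a (b (a (a (b (l 3) (l 3)) (a (b (l 3) (b (l 3) (l 1))) (b (a (b (l 3) (l 3)) (b (a (c (l 16880232) (l 16893776)) (b (c (l 16800376) (l 16766000)) (l 16772464))) (a (c (l 16860792) (l 16874664)) (b (l 16773568) (l 16772400))))) (b (a (a (l 16769584) (l 16769112)) (a (b (l 16791064) (l 1)) (a (a (a (l 16768552) (l 78953675831)) (l 16768496)) (l 16768416)))) (l 1))))) (b (b (l 16790432) (b (l 16773248) (l 16772432))) (b (l 16809056) (l 135862007543)))) (l 1)) (b (b (b (a (l 16765272) (l 16760632)) (b (l 16775120) (l 16777552))) (b (b (l 16774872) (l 16767424)) (a (l 16794976)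 (l 16753912)))) (b (b (l 135861985479) (l 1)) (l 1))))) (a (b (b (a (b (l 16772848) (b (l 16781616) (l 16794344))) (b (l 16730712) (l 16805128))) (b (a (l 16797080) (l 16842288)) (a (l 16792736) (l 16828520)))) (b (b (a (l 16728912) (l 16769832)) (a (l 125661396615) (l 16710728))) (a (l 1) (b (l 109018198487) (l 1))))) (b (a (b (b (a (l 16704616) (l 16688888)) (l 16819056)) (b (l 16902760) (l 16920920))) (b (b (a (l 16682792) (b (l 16659360) (l 16721824))) (b (l 16793368) (l 16869552))) (b (l 16973232) (l 17044992)))) (b (b (a (l 16866272) (l 17018736)) (a (b (l 16788184) (l 16725536)) (l 16840520))) (a (b (a (l 16625088) (l 16659208)) (b (l 16570688) (l 1))) (b (b (l 16786448) (l 16716112)) (b (l 16652224) (l 60162771767)))))))), by decide +kernel⟩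

theorem c_pm_112 : CertB 536870912 536870912 536870912 536870912 536870912 50465866 3 eng mog cd1q1 cd1q1 pd2 true true false .dn 1 1 2
    ndB1q1 ndB1q1 pcB2 Cut.none Ext.none :=
  certB2 (fam := true) (s1 := true) (s2 := false) (a := 1) (b := 1) (c := 2) (cn := .dn) (n1 := ndB1q1) (n2 := ndB1q1) (pc := pcB2) (cut := Cut.none) (xt := Ext.none) (P1 := 536870912) (W1 := 536870912) (P2 := 536870912) (W2 := 536870912) (P3 := 536870912) (W3 := 50465866) (N0 := 3) (En := eng) (mo := mog) (C1 := cd1q1) (C2 := cd1q1) (C3 := pd2)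
    rfl (fun _ => rfl) k0_pm_112

noncomputable def f_pm_113 : ℕ → ℕ → ℕ → ℕ → Bool := onCell 536870912 536870912 536870912 536870912 536870912 50465866
    (rowB 3 eng mog cd1q1 cd1q1 pd3 0 true true false .nn 1 1 3 (qsf 536870912 536870912 536870912 536870912 3) ndB1q1 ndB1q1 pcB3 Cut.none Ext.none)

def k0_pm_113 : ∃ t, chk3 f_pm_113 t 1 1 1 = true :=
  ⟨(a (b (b (l 1) (a (l 1) (b (l 1) (l 102576126407)))) (a (b (a (l 1) (l 105260306583)) (b (a (l 16684648) (l 16844400)) (b (l 41909114375) (a (b (l 16659688) (l 16658920)) (l 16806160))))) (b (b (l 16958928) (a (l 16993600) (l 17082080))) (b (a (l 16965104) (l 17031688)) (b (l 16974504) (a (l 16930576) (l 16975176))))))) (b (a (b (b (l 1) (l 105260306583)) (a (l 16958928) (b (l 16993600) (l 17082080)))) (b (a (b (l 16684648) (l 16844400)) (a (l 41909114375) (b (a (l 16659688) (l 16658920)) (l 16806160)))) (a (b (l 16965104) (l 17031688)) (a (l 16974504) (b (l 16930576) (l 16975176)))))) (a (b (l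 17148856) (b (l 17032144) (a (l 16979408) (l 16952816)))) (b (a (l 17032144) (b (l 16979408) (l 16952816))) (a (b (l 16989136) (l 16909184)) (b (l 16909184) (a (l 16866976) (b (l 16847360) (b (l 16822768) (a (l 16813064) (b (l 16800096) (a (l 16795288) (b (l 16788672) (a (l 16786280) (a (l 16782952) (a (l 16781240) (a (l 16780344) (b (l 16780864) (l 16946384))))))))))))))))))), by decide +kernel⟩

theorem c_pm_113 : CertB 536870912 536870912 536870912 536870912 536870912 50465866 3 eng mog cd1q1 cd1q1 pd3 true true false .nn 1 1 3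
    ndB1q1 ndB1q1 pcB3 Cut.none Ext.none :=
  certB0 (fam := true) (s1 := true) (s2 := false) (a := 1) (b := 1) (c := 3) (cn := .nn) (n1 := ndB1q1) (n2 := ndB1q1) (pc := pcB3) (cut := Cut.none) (xt := Ext.none) (P1 := 536870912) (W1 := 536870912) (P2 := 536870912) (W2 := 536870912) (P3 := 536870912) (W3 := 50465866) (N0 := 3) (En := eng) (mo := mog) (C1 := cd1q1) (C2 := cd1q1) (C3 := pd3)
    rfl k0_pm_113

noncomputable def f_pm_123_a : ℕ → ℕ → ℕ → ℕ → Bool := onCell 1610612736 536870912 0 536870912 536870912 50465866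
    (rowB 3 eng mog cd1q1 cd1q2a pd3 2 true true false .npn 1 2 3 (qsf 536870912 536870912 0 536870912 3) ndB1q1 ndB1q2a pcB3 Cut.none Ext.none)

def k0_pm_123_a : ∃ t, chk3 f_pm_123_a t 1 1 1 = true :=
  ⟨(a (a (a (b (l 1) (b (l 1) (a (b (l 1) (b (l 16664664) (l 16688112))) (b (l 16630568) (l 16699728))))) (b (b (l 1) (a (l 1) (l 16705112))) (b (a (b (l 1) (l 16635272)) (l 16702856)) (a (b (l 16671104) (l 16752368)) (b (l 16746152) (l 16824320)))))) (b (a (b (l 16784616) (b (l 16757424) (l 16760400))) (b (a (l 16788136) (l 16807744)) (a (l 16795984) (l 16819920)))) (b (a (b (l 16772744) (l 16795488)) (b (l 16837640) (l 16866408))) (a (b (b (l 16821448) (l 16848832)) (l 16878728)) (b (b (l 16892968) (l 16915088)) (l 16843776)))))) (a (b (a (a (b (l 16845232) (l 16835128)) (b (l 137674084263) (b (l 16828792) (l 16852696)))) (b (a (l 168275497783) (l 4)) (a (b (l 16789048) (l 16813128)) (b (l 92040049879) (l 16788376))))) (a (b (b (l 16868848) (l 16889728))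 (b (l 16912720) (a (l 16945840) (l 16932312)))) (b (a (b (l 16848640) (l 16874800)) (b (l 16820136) (l 16856720))) (b (l 16903408) (a (l 16914928) (l 16894568)))))) (a (b (b (l 4) (a (a (l 96872022599) (l 132305518055)) (l 4))) (b (b (a (l 16793240) (a (l 16777176) (l 198877131479))) (a (l 16854792) (a (l 16809760) (l 16795176)))) (a (l 16906648) (b (a (l 16839624) (l 16825520)) (l 16848688))))) (a (a (b (l 4) (b (b (l 4) (l 16802040)) (b (l 16810192) (l 16828360)))) (b (l 4) (b (b (l 4) (l 282092179463)) (b (b (l 16788592) (l 16799480)) (l 16895880))))) (b (l 4) (b (l 4) (b (a (a (l 16824232) (l 319673188231)) (l 4)) (a (a (l 16821176) (l 16896200)) (a (l 124789340887) (a (l 417383689159) (l 4))))))))))), by decide +kernel⟩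

theorem c_pm_123_a : CertB 536870912 536870912 0 536870912 536870912 50465866 3 eng mog cd1q1 cd1q2a pd3 true true false .npn 1 2 3
    ndB1q1 ndB1q2a pcB3 Cut.none Ext.none :=
  certB2 (fam := true) (s1 := true) (s2 := false) (a := 1) (b := 2) (c := 3) (cn := .npn) (n1 := ndB1q1) (n2 := ndB1q2a) (pc := pcB3) (cut := Cut.none) (xt := Ext.none) (P1 := 536870912) (W1 := 536870912) (P2 := 0) (W2 := 536870912) (P3 := 536870912) (W3 := 50465866) (N0 := 3) (En := eng) (mo := mog) (C1 := cd1q1) (C2 := cd1q2a) (C3 := pd3)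
    rfl (fun _ => rfl) k0_pm_123_a

noncomputable def f_pm_123_b : ℕ → ℕ → ℕ → ℕ → Bool := onCell 1610612736 536870912 1239849684 370763052 536870912 50465866
    (rowB 3 eng mog cd1q1 cd1q2b pd3 2 true true false .npn 1 2 3 (qsf 536870912 536870912 1239849684 370763052 3) ndB1q1 ndB1q2b pcB3 Cut.none Ext.none)

def k0_pm_123_b : ∃ t, chk3 f_pm_123_b t 1 1 1 = true :=
  ⟨(a (a (l 1) (b (a (b (l 16809952) (l 1)) (a (b (l 16745176) (l 1)) (b (l 16757224) (l 4)))) (l 1))) (a (b (l 4) (l 4)) (l 4))), by decide +kernel⟩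

theorem c_pm_123_b : CertB 536870912 536870912 1239849684 370763052 536870912 50465866 3 eng mog cd1q1 cd1q2b pd3 true true false .npn 1 2 3
    ndB1q1 ndB1q2b pcB3 Cut.none Ext.none :=
  certB2 (fam := true) (s1 := true) (s2 := false) (a := 1) (b := 2) (c := 3) (cn := .npn) (n1 := ndB1q1) (n2 := ndB1q2b) (pc := pcB3) (cut := Cut.none) (xt := Ext.none) (P1 := 536870912) (W1 := 536870912) (P2 := 1239849684) (W2 := 370763052) (P3 := 536870912) (W3 := 50465866) (N0 := 3) (En := eng) (mo := mog) (C1 := cd1q1) (C2 := cd1q2b) (C3 := pd3)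
    rfl (fun _ => rfl) k0_pm_123_b

noncomputable def f_pm_133 : ℕ → ℕ → ℕ → ℕ → Bool := onCell 536870912 536870912 1610612736 536870912 536870912 50465866
    (rowB 3 eng mog cd1q1 cd1q3 pd3 0 true true false .dn 1 3 3 (qsf 536870912 536870912 1610612736 536870912 3) ndB1q1 ndB1q3 pcB3 Cut.none Ext.none)

def k0_pm_133 : ∃ t, chk3 f_pm_133 t 1 1 1 = true :=
  ⟨(l 4), by decide +kernel⟩

theorem c_pm_133 : CertB 536870912 536870912 1610612736 536870912 536870912 50465866 3 eng mog cd1q1 cd1q3 pd3 true true false .dn 1 3 3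
    ndB1q1 ndB1q3 pcB3 Cut.none Ext.none :=
  certB0 (fam := true) (s1 := true) (s2 := false) (a := 1) (b := 3) (c := 3) (cn := .dn) (n1 := ndB1q1) (n2 := ndB1q3) (pc := pcB3) (cut := Cut.none) (xt := Ext.none) (P1 := 536870912) (W1 := 536870912) (P2 := 1610612736) (W2 := 536870912) (P3 := 536870912) (W3 := 50465866) (N0 := 3) (En := eng) (mo := mog) (C1 := cd1q1) (C2 := cd1q3) (C3 := pd3)
    rfl k0_pm_133

noncomputable def cut_pm_202_a : Cut := Cut.of [[⟨0, 1, 0, 67108864⟩, ⟨1, 0, 0, 67108864⟩, ⟨2, 1, 0, 67108864⟩]]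

noncomputable def f_pm_202_a : ℕ → ℕ → ℕ → ℕ → Bool := onCell 0 536870912 1073741824 536870912 536870912 50465866
    (rowB 3 eng mog cd1q2a cd1q0 pd2 1 true true false .pp 2 0 2 (qsf 0 536870912 0 536870912 2) ndB1q2a ndB1q0 pcB2 cut_pm_202_a Ext.none)

def k0_pm_202_a : ∃ t, chk3 f_pm_202_a t 2 1 1 = true :=
  ⟨(b (b (b (l 1) (a (l 1) (b (l 1) (a (l 1) (b (l 1) (a (l 1) (b (l 1) (l 16528288)))))))) (b (a (b (b (l 1) (a (l 16457896) (l 16508088))) (a (b (l 16456104) (l 16459560)) (b (l 16506096) (l 16464320)))) (c (b (b (a (l 16487528) (a (l 16506312) (l 16522080))) (a (l 16484352) (b (l 16507120) (b (l 16507912) (l 16571336))))) (a (b (l 16485680) (l 16479800)) (b (l 16549336) (l 16499920)))) (b (b (a (l 151430569175) (a (b (l 16509248) (l 16506504)) (l 16522848))) (a (l 16484424) (b (l 16510928) (b (l 16508336) (l 16548544))))) (a (b (l 16480120) (l 16480088)) (a (l 16537704) (l 16509056)))))) (a (b (a (l 16468176) (l 16470040)) (a (l 16481760)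 (l 16479832))) (a (b (l 16480320) (l 16465504)) (b (l 16551744) (a (l 16497104) (l 16505656))))))) (b (a (b (a (b (l 16496736) (l 16510896)) (b (l 16490936) (l 16501184))) (b (a (l 16523320) (l 16509504)) (l 16565928))) (b (a (b (l 16493464) (l 16499616)) (b (l 16504256) (l 16506168))) (b (a (l 16503672) (l 16506032)) (a (l 16503016) (l 16499880))))) (b (a (l 16550928) (l 16549904)) (b (a (l 16528672) (l 16489760)) (a (l 16636968) (l 16606440)))))), by decide +kernel⟩

def k1_pm_202_a : ∃ t, chk3 f_pm_202_a t 3 4 1 = true :=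
  ⟨(b (a (l 1) (a (b (l 1) (b (a (l 1) (l 6)) (b (a (l 1) (l 6)) (a (a (l 1) (a (l 16651840) (l 104186271383))) (b (l 6) (a (l 16662920) (l 16672704))))))) (b (l 6) (b (l 6) (b (l 6) (a (a (l 16684000) (l 16693720)) (a (c (l 16704136) (l 16702408)) (l 16733184)))))))) (a (b (a (l 1) (b (a (l 1) (b (l 1) (a (l 16614520) (l 16624080)))) (a (b (l 16606664) (a (l 16587536) (l 16596344))) (a (b (l 16609872) (l 16605040)) (b (l 16618952) (l 16582184)))))) (a (b (a (a (l 1) (l 16556368)) (b (l 16570784) (l 42982794615))) (a (b (l 16547488) (l 16543944)) (b (l 16563088) (l 16621784)))) (b (a (b (a (l 16583416) (l 16591784)) (a (l 16579080) (l 16566040))) (a (c (l 16597664) (l 16596576)) (l 16605320))) (a (b (c (l 16578392) (l 16577680)) (l 16573400)) (l 16590176))))) (a (b (a (b (a (b (l 16638912) (l 16633456)) (b (a (l 16646152) (l 16650944)) (c (l 16642992) (l 16641816)))) (a (b (c (l 16628336) (l 16626864)) (l 16622008)) (l 16654256))) (a (b (b (c (l 16658584)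 (l 16657520)) (l 16651768)) (l 16641808)) (b (l 16693080) (l 16651368)))) (a (b (l 16658680) (l 16627408)) (b (l 16650720) (l 16623880)))) (a (b (b (a (l 16694704) (c (l 16684144) (l 16682536))) (a (l 16660680) (l 16711648))) (b (a (l 16648200) (l 16656712)) (a (l 16636216) (l 16644160)))) (b (a (b (b (l 16695928) (l 16688816)) (l 16678392)) (b (b (l 16704768) (l 16697456)) (l 16707664))) (b (a (l 16664896) (l 16672688)) (a (l 16651808) (l 16680328)))))))), by decide +kernel⟩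

def k2_pm_202_a : ∃ t, chk3 f_pm_202_a t 3 5 1 = true :=
  ⟨(a (b (b (b (a (a (b (l 16603032) (l 16536000)) (b (l 16554408) (l 16549680))) (a (l 16565520) (l 16580032))) (b (a (l 16559520) (l 16587720)) (b (a (l 16534872) (l 16564416)) (a (l 16625704) (b (l 16563136) (l 16583080)))))) (a (b (l 16591352) (l 16523640)) (a (l 16587192) (b (l 16564832) (l 16554312))))) (a (b (l 16540096) (l 16513984)) (b (l 16597496) (l 16520008)))) (b (b (a (b (a (l 16597176) (l 16634272)) (b (a (l 16590648) (l 16605672)) (a (b (l 16587384) (c (l 16630264) (l 16581640))) (b (l 16601864) (c (l 16686520) (l 16647928)))))) (b (a (c (l 16631864) (l 16646888)) (a (l 16639832) (l 16647296))) (b (a (l 16620624) (l 16635464)) (b (a (l 16616872) (l 16631280)) (b (a (l 16614856) (l 16628904)) (a (l 16613168) (a (l 16623592) (l 16650912)))))))) (a (a (b (l 16600024) (l 16569040)) (b (b (l 16595888) (l 16591056)) (l 16583992))) (a (b (l 16692016) (l 16597856)) (b (b (l 16644976)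 (l 16618440)) (l 16610000))))) (a (a (b (l 16556376) (l 16540504)) (b (l 16570296) (l 16552888))) (a (b (l 16582864) (l 16563936)) (b (l 16635672) (l 16573712)))))), by decide +kernel⟩

def k3_pm_202_a : ∃ t, chk3 f_pm_202_a t 3 3 1 = true :=
  ⟨(b (a (b (a (b (l 16508472) (l 16503552)) (l 16584000)) (a (b (l 16496784) (l 16482336)) (l 16569368))) (b (a (b (l 16615480) (l 16538872)) (a (l 16624232) (b (l 16557280) (l 16542952)))) (a (b (l 16509064) (l 16506816)) (b (a (l 16523432) (l 16531544)) (l 16523488))))) (b (a (a (l 16476040) (l 16497912)) (a (l 16580384) (a (l 16531080) (l 16540128)))) (a (b (a (l 16499168) (l 16518000)) (a (l 16502072) (b (l 16528536) (l 16500360)))) (b (a (l 16541792) (l 16567112)) (a (b (l 16555024) (l 16534368)) (b (l 16584912) (l 16574488))))))), by decide +kernel⟩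

theorem s4_pm_202_a : ∃ t, chk3 f_pm_202_a t 3 2 1 = true := ex3_b k1_pm_202_a k2_pm_202_a

theorem s5_pm_202_a : ∃ t, chk3 f_pm_202_a t 3 1 1 = true := ex3_b s4_pm_202_a k3_pm_202_a

theorem s6_pm_202_a : ∃ t, chk3 f_pm_202_a t 1 1 1 = true := ex3_a k0_pm_202_a s5_pm_202_a

theorem c_pm_202_a : CertB 0 536870912 0 536870912 536870912 50465866 3 eng mog cd1q2a cd1q0 pd2 true true false .pp 2 0 2
    ndB1q2a ndB1q0 pcB2 cut_pm_202_a Ext.none :=
  certB1 (fam := true) (s1 := true) (s2 := false) (a := 2) (b := 0) (c := 2) (cn := .pp) (n1 := ndB1q2a) (n2 := ndB1q0) (pc := pcB2) (cut := cut_pm_202_a) (xt := Ext.none) (P1 := 0) (W1 := 536870912) (P2 := 0) (W2 := 536870912) (P3 := 536870912) (W3 := 50465866) (N0 := 3) (En := eng) (mo := mog) (C1 := cd1q2a) (C2 := cd1q0) (C3 := pd2)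
    rfl (fun _ => rfl) s6_pm_202_a

noncomputable def cut_pm_202_b : Cut := Cut.of [[⟨0, 1, 0, 67108864⟩, ⟨1, 0, 0, 67108864⟩, ⟨2, 1, 0, 67108864⟩]]

noncomputable def f_pm_202_b : ℕ → ℕ → ℕ → ℕ → Bool := onCell 1073741824 536870912 0 536870912 536870912 50465866
    (rowB 3 eng mog cd1q2b cd1q0 pd2 2 true true false .pp 2 0 2 (qsf 1239849684 370763052 0 536870912 2) ndB1q2b ndB1q0 pcB2 cut_pm_202_b Ext.none)

def k0_pm_202_b : ∃ t, chk3 f_pm_202_b t 1 1 1 = true :=
  ⟨(a (b (a (l 1) (b (a (b (a (b (b (l 16542728) (l 1)) (l 1)) (a (b (a (l 16477128) (l 16459784)) (l 1)) (b (l 16441016) (l 143377607207)))) (l 1)) (b (a (b (l 16407744) (l 16487008)) (b (l 16369416) (l 16426608))) (a (b (l 112776047735) (l 1)) (b (l 16481384) (l 81637583511))))) (l 1))) (l 1)) (a (b (b (a (b (a (l 16365880) (l 16338960)) (a (b (l 16447080) (l 16498168)) (l 16443792))) (b (l 16305952) (l 16469864))) (a (b (a (l 156799539767) (l 60162791335)) (l 1)) (b (a (l 16550952)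 (l 16485016)) (a (l 244846297815) (l 131029741095))))) (l 1)) (b (a (b (b (l 16275288) (l 16370424)) (b (l 16456632) (l 16527848))) (b (a (l 16309032) (l 16302056)) (a (l 16473256) (l 16461624)))) (b (a (b (l 259341805799) (l 1)) (b (a (l 16555016) (l 16546144)) (a (l 318934637703) (l 310881490039)))) (l 1))))), by decide +kernel⟩

theorem c_pm_202_b : CertB 1239849684 370763052 0 536870912 536870912 50465866 3 eng mog cd1q2b cd1q0 pd2 true true false .pp 2 0 2
    ndB1q2b ndB1q0 pcB2 cut_pm_202_b Ext.none :=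
  certB2 (fam := true) (s1 := true) (s2 := false) (a := 2) (b := 0) (c := 2) (cn := .pp) (n1 := ndB1q2b) (n2 := ndB1q0) (pc := pcB2) (cut := cut_pm_202_b) (xt := Ext.none) (P1 := 1239849684) (W1 := 370763052) (P2 := 0) (W2 := 536870912) (P3 := 536870912) (W3 := 50465866) (N0 := 3) (En := eng) (mo := mog) (C1 := cd1q2b) (C2 := cd1q0) (C3 := pd2)
    rfl (fun _ => rfl) k0_pm_202_b

noncomputable def f_pm_203_a : ℕ → ℕ → ℕ → ℕ → Bool := onCell 0 536870912 1610612736 536870912 536870912 50465866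
    (rowB 3 eng mog cd1q2a cd1q0 pd3 1 true true false .up 2 0 3 (qsf 0 536870912 0 536870912 3) ndB1q2a ndB1q0 pcB3 Cut.none Ext.none)

def k0_pm_203_a : ∃ t, chk3 f_pm_203_a t 1 1 1 = true :=
  ⟨(b (b (b (a (a (b (l 16563512) (l 16590624)) (b (l 16517664) (l 16552384))) (a (b (a (l 16544816) (l 16567552)) (a (l 16543368) (l 16545008))) (b (a (l 16588184) (l 16611384)) (a (l 16572000) (l 16615592))))) (a (a (b (l 16651656) (l 16695072)) (b (l 16613408) (l 16667824))) (a (b (a (l 16595832) (l 16587368)) (l 16652784)) (b (a (l 16604032) (l 2)) (l 2))))) (a (b (a (b (l 16720960) (l 16733224)) (a (l 16716368) (l 16711472))) (l 2)) (a (l 2) (l 2)))) (l 2)), by decide +kernel⟩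

theorem c_pm_203_a : CertB 0 536870912 0 536870912 536870912 50465866 3 eng mog cd1q2a cd1q0 pd3 true true false .up 2 0 3
    ndB1q2a ndB1q0 pcB3 Cut.none Ext.none :=
  certB1 (fam := true) (s1 := true) (s2 := false) (a := 2) (b := 0) (c := 3) (cn := .up) (n1 := ndB1q2a) (n2 := ndB1q0) (pc := pcB3) (cut := Cut.none) (xt := Ext.none) (P1 := 0) (W1 := 536870912) (P2 := 0) (W2 := 536870912) (P3 := 536870912) (W3 := 50465866) (N0 := 3) (En := eng) (mo := mog) (C1 := cd1q2a) (C2 := cd1q0) (C3 := pd3)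
    rfl (fun _ => rfl) k0_pm_203_a

noncomputable def f_pm_203_b : ℕ → ℕ → ℕ → ℕ → Bool := onCell 1610612736 536870912 0 536870912 536870912 50465866
    (rowB 3 eng mog cd1q2b cd1q0 pd3 2 true true false .up 2 0 3 (qsf 1239849684 370763052 0 536870912 3) ndB1q2b ndB1q0 pcB3 Cut.none Ext.none)

def k0_pm_203_b : ∃ t, chk3 f_pm_203_b t 1 1 1 = true :=
  ⟨(a (a (b (a (b (l 16330512) (l 16474880)) (b (l 16450200) (l 16496656))) (a (b (b (l 16559544) (l 16646728)) (b (a (l 346315063783) (l 16734432)) (l 1))) (b (l 16649784) (b (l 262563219831) (l 280280403239))))) (b (a (b (l 16588256) (l 16616000)) (l 4)) (a (b (l 16646504) (a (l 174516418887) (l 16698880))) (b (l 4) (a (l 16718504) (l 4)))))) (l 4)), by decide +kernel⟩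

theorem c_pm_203_b : CertB 1239849684 370763052 0 536870912 536870912 50465866 3 eng mog cd1q2b cd1q0 pd3 true true false .up 2 0 3
    ndB1q2b ndB1q0 pcB3 Cut.none Ext.none :=
  certB2 (fam := true) (s1 := true) (s2 := false) (a := 2) (b := 0) (c := 3) (cn := .up) (n1 := ndB1q2b) (n2 := ndB1q0) (pc := pcB3) (cut := Cut.none) (xt := Ext.none) (P1 := 1239849684) (W1 := 370763052) (P2 := 0) (W2 := 536870912) (P3 := 536870912) (W3 := 50465866) (N0 := 3) (En := eng) (mo := mog) (C1 := cd1q2b) (C2 := cd1q0) (C3 := pd3)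
    rfl (fun _ => rfl) k0_pm_203_b

noncomputable def f_pm_213_a : ℕ → ℕ → ℕ → ℕ → Bool := onCell 0 536870912 1610612736 536870912 536870912 50465866
    (rowB 3 eng mog cd1q2a cd1q1 pd3 1 true true false .pnn 2 1 3 (qsf 0 536870912 536870912 536870912 3) ndB1q2a ndB1q1 pcB3 Cut.none Ext.none)

def k0_pm_213_a : ∃ t, chk3 f_pm_213_a t 1 1 1 = true :=
  ⟨(a (b (b (b (l 1) (a (l 1) (b (l 1) (l 16705112)))) (b (a (l 16784616) (a (l 16757424) (l 16760400))) (a (b (l 16788136) (l 16807744)) (b (l 16795984) (l 16819920))))) (b (b (b (a (l 16845232) (l 16835128)) (a (l 137674084263) (a (l 16828792) (l 16852696)))) (a (b (l 168275497783) (l 4)) (b (a (l 16789048) (l 16813128)) (a (l 92040047255) (l 16788376))))) (b (a (l 4) (b (a (l 4) (l 88818741111)) (l 4))) (l 4)))) (b (b (b (a (l 1) (b (a (l 1) (l 16675744)) (a (l 16630568) (l 16699728)))) (a (b (a (l 1) (l 16635272)) (l 16702856)) (b (a (l 16671104) (l 16752368)) (a (l 16746152) (l 16824320))))) (a (b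 (a (l 16772744) (l 16795488)) (a (l 16837640) (l 16866408))) (b (a (a (l 16821448) (l 16848832)) (l 16878728)) (a (a (l 16892968) (l 16915088)) (l 16843776))))) (b (b (a (a (l 16868848) (l 16889728)) (a (l 16912720) (b (l 16945840) (l 16932312)))) (a (b (a (l 16848640) (l 16874800)) (a (l 16820136) (l 16856720))) (a (l 16903408) (b (l 16914928) (l 16894568))))) (b (a (b (a (l 16793240) (l 16854792)) (b (a (l 16777176) (l 16809760)) (a (l 198340260567) (l 16795176)))) (b (l 16906640) (a (b (l 16839624) (l 16825520)) (l 16848688)))) (a (a (l 4) (b (b (l 16802040) (l 282092179463)) (l 4))) (a (a (b (b (l 16804648) (l 16788592)) (b (l 297661483575) (l 4))) (b (b (l 16815608) (l 16799480)) (b (l 161296384487) (l 4)))) (b (b (l 16828360) (l 16895880)) (b (b (l 16821176) (l 16896200)) (b (l 124789340887) (b (l 417383689159) (l 4))))))))))), by decide +kernel⟩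

theorem c_pm_213_a : CertB 0 536870912 536870912 536870912 536870912 50465866 3 eng mog cd1q2a cd1q1 pd3 true true false .pnn 2 1 3
    ndB1q2a ndB1q1 pcB3 Cut.none Ext.none :=
  certB1 (fam := true) (s1 := true) (s2 := false) (a := 2) (b := 1) (c := 3) (cn := .pnn) (n1 := ndB1q2a) (n2 := ndB1q1) (pc := pcB3) (cut := Cut.none) (xt := Ext.none) (P1 := 0) (W1 := 536870912) (P2 := 536870912) (W2 := 536870912) (P3 := 536870912) (W3 := 50465866) (N0 := 3) (En := eng) (mo := mog) (C1 := cd1q2a) (C2 := cd1q1) (C3 := pd3)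
    rfl (fun _ => rfl) k0_pm_213_a

noncomputable def f_pm_213_b : ℕ → ℕ → ℕ → ℕ → Bool := onCell 1239849684 370763052 1610612736 536870912 536870912 50465866
    (rowB 3 eng mog cd1q2b cd1q1 pd3 1 true true false .pnn 2 1 3 (qsf 1239849684 370763052 536870912 536870912 3) ndB1q2b ndB1q1 pcB3 Cut.none Ext.none)

def k0_pm_213_b : ∃ t, chk3 f_pm_213_b t 1 1 1 = true :=
  ⟨(a (b (b (l 1) (b (a (l 16809952) (l 1)) (b (a (l 16745176) (l 1)) (a (l 16757224) (l 4))))) (b (l 4) (l 4))) (b (l 1) (l 4))), by decide +kernel⟩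

theorem c_pm_213_b : CertB 1239849684 370763052 536870912 536870912 536870912 50465866 3 eng mog cd1q2b cd1q1 pd3 true true false .pnn 2 1 3
    ndB1q2b ndB1q1 pcB3 Cut.none Ext.none :=
  certB1 (fam := true) (s1 := true) (s2 := false) (a := 2) (b := 1) (c := 3) (cn := .pnn) (n1 := ndB1q2b) (n2 := ndB1q1) (pc := pcB3) (cut := Cut.none) (xt := Ext.none) (P1 := 1239849684) (W1 := 370763052) (P2 := 536870912) (W2 := 536870912) (P3 := 536870912) (W3 := 50465866) (N0 := 3) (En := eng) (mo := mog) (C1 := cd1q2b) (C2 := cd1q1) (C3 := pd3)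
    rfl (fun _ => rfl) k0_pm_213_b

noncomputable def f_pm_303 : ℕ → ℕ → ℕ → ℕ → Bool := onCell 1610612736 536870912 0 536870912 536870912 50465866
    (rowB 3 eng mog cd1q3 cd1q0 pd3 2 true true false .npn 3 0 3 (qsf 1610612736 536870912 0 536870912 3) ndB1q3 ndB1q0 pcB3 Cut.none Ext.none)

def k0_pm_303 : ∃ t, chk3 f_pm_303 t 1 1 1 = true :=
  ⟨(a (a (b (a (b (l 16321360) (l 1)) (b (l 16439320) (l 16496656))) (l 1)) (b (a (b (l 16578720) (l 16611392)) (l 4)) (a (l 1) (b (l 4) (l 1))))) (l 4)), by decide +kernel⟩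

theorem c_pm_303 : CertB 1610612736 536870912 0 536870912 536870912 50465866 3 eng mog cd1q3 cd1q0 pd3 true true false .npn 3 0 3
    ndB1q3 ndB1q0 pcB3 Cut.none Ext.none :=
  certB2 (fam := true) (s1 := true) (s2 := false) (a := 3) (b := 0) (c := 3) (cn := .npn) (n1 := ndB1q3) (n2 := ndB1q0) (pc := pcB3) (cut := Cut.none) (xt := Ext.none) (P1 := 1610612736) (W1 := 536870912) (P2 := 0) (W2 := 536870912) (P3 := 536870912) (W3 := 50465866) (N0 := 3) (En := eng) (mo := mog) (C1 := cd1q3) (C2 := cd1q0) (C3 := pd3)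
    rfl (fun _ => rfl) k0_pm_303

noncomputable def f_pm_313 : ℕ → ℕ → ℕ → ℕ → Bool := onCell 1610612736 536870912 536870912 536870912 536870912 50465866
    (rowB 3 eng mog cd1q3 cd1q1 pd3 0 true true false .dn 3 1 3 (qsf 1610612736 536870912 536870912 536870912 3) ndB1q3 ndB1q1 pcB3 Cut.none Ext.none)

def k0_pm_313 : ∃ t, chk3 f_pm_313 t 1 1 1 = true :=
  ⟨(l 4), by decide +kernel⟩

theorem c_pm_313 : CertB 1610612736 536870912 536870912 536870912 536870912 50465866 3 eng mog cd1q3 cd1q1 pd3 true true false .dn 3 1 3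
    ndB1q3 ndB1q1 pcB3 Cut.none Ext.none :=
  certB0 (fam := true) (s1 := true) (s2 := false) (a := 3) (b := 1) (c := 3) (cn := .dn) (n1 := ndB1q3) (n2 := ndB1q1) (pc := pcB3) (cut := Cut.none) (xt := Ext.none) (P1 := 1610612736) (W1 := 536870912) (P2 := 536870912) (W2 := 536870912) (P3 := 536870912) (W3 := 50465866) (N0 := 3) (En := eng) (mo := mog) (C1 := cd1q3) (C2 := cd1q1) (C3 := pd3)
    rfl k0_pm_313

noncomputable def f_mm_001 : ℕ → ℕ → ℕ → ℕ → Bool := onCell 0 536870912 0 536870912 536870912 50465866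
    (rowB 3 eng mog cd1q0 cd1q0 pd1 0 true false false .up 0 0 1 (qsf 0 536870912 0 536870912 1) ndB1q0 ndB1q0 pcB1 Cut.none Ext.none)

def k0_mm_001 : ∃ t, chk3 f_mm_001 t 1 1 1 = true :=
  ⟨(l 4), by decide +kernel⟩

theorem c_mm_001 : CertB 0 536870912 0 536870912 536870912 50465866 3 eng mog cd1q0 cd1q0 pd1 true false false .up 0 0 1
    ndB1q0 ndB1q0 pcB1 Cut.none Ext.none :=
  certB0 (fam := true) (s1 := false) (s2 := false) (a := 0) (b := 0) (c := 1) (cn := .up) (n1 := ndB1q0) (n2 := ndB1q0) (pc := pcB1) (cut := Cut.none) (xt := Ext.none) (P1 := 0) (W1 := 536870912) (P2 := 0) (W2 := 536870912) (P3 := 536870912) (W3 := 50465866) (N0 := 3) (En := eng) (mo := mog) (C1 := cd1q0) (C2 := cd1q0) (C3 := pd1)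
    rfl k0_mm_001

noncomputable def f_mm_011 : ℕ → ℕ → ℕ → ℕ → Bool := onCell 0 536870912 536870912 536870912 536870912 50465866
    (rowB 3 eng mog cd1q0 cd1q1 pd1 0 true false false .pnn 0 1 1 (qsf 0 536870912 536870912 536870912 1) ndB1q0 ndB1q1 pcB1 Cut.none Ext.none)

def k0_mm_011 : ∃ t, chk3 f_mm_011 t 1 1 1 = true :=
  ⟨(l 4), by decide +kernel⟩

theorem c_mm_011 : CertB 0 536870912 536870912 536870912 536870912 50465866 3 eng mog cd1q0 cd1q1 pd1 true false false .pnn 0 1 1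
    ndB1q0 ndB1q1 pcB1 Cut.none Ext.none :=
  certB0 (fam := true) (s1 := false) (s2 := false) (a := 0) (b := 1) (c := 1) (cn := .pnn) (n1 := ndB1q0) (n2 := ndB1q1) (pc := pcB1) (cut := Cut.none) (xt := Ext.none) (P1 := 0) (W1 := 536870912) (P2 := 536870912) (W2 := 536870912) (P3 := 536870912) (W3 := 50465866) (N0 := 3) (En := eng) (mo := mog) (C1 := cd1q0) (C2 := cd1q1) (C3 := pd1)
    rfl k0_mm_011

noncomputable def f_mm_012 : ℕ → ℕ → ℕ → ℕ → Bool := onCell 0 536870912 536870912 536870912 536870912 50465866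
    (rowB 3 eng mog cd1q0 cd1q1 pd2 0 true false false .pnp 0 1 2 (qsf 0 536870912 536870912 536870912 2) ndB1q0 ndB1q1 pcB2 Cut.none Ext.none)

def k0_mm_012 : ∃ t, chk3 f_mm_012 t 1 1 1 = true :=
  ⟨(l 4), by decide +kernel⟩

theorem c_mm_012 : CertB 0 536870912 536870912 536870912 536870912 50465866 3 eng mog cd1q0 cd1q1 pd2 true false false .pnp 0 1 2
    ndB1q0 ndB1q1 pcB2 Cut.none Ext.none :=
  certB0 (fam := true) (s1 := false) (s2 := false) (a := 0) (b := 1) (c := 2) (cn := .pnp) (n1 := ndB1q0) (n2 := ndB1q1) (pc := pcB2) (cut := Cut.none) (xt := Ext.none) (P1 := 0) (W1 := 536870912) (P2 := 536870912) (W2 := 536870912) (P3 := 536870912) (W3 := 50465866) (N0 := 3) (En := eng) (mo := mog) (C1 := cd1q0) (C2 := cd1q1) (C3 := pd2)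
    rfl k0_mm_012

noncomputable def f_mm_022_a : ℕ → ℕ → ℕ → ℕ → Bool := onCell 0 536870912 0 536870912 536870912 50465866
    (rowB 3 eng mog cd1q0 cd1q2a pd2 0 true false false .pp 0 2 2 (qsf 0 536870912 0 536870912 2) ndB1q0 ndB1q2a pcB2 Cut.none Ext.none)

def k0_mm_022_a : ∃ t, chk3 f_mm_022_a t 1 1 1 = true :=
  ⟨(l 5), by decide +kernel⟩

theorem c_mm_022_a : CertB 0 536870912 0 536870912 536870912 50465866 3 eng mog cd1q0 cd1q2a pd2 true false false .pp 0 2 2
    ndB1q0 ndB1q2a pcB2 Cut.none Ext.none :=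
  certB0 (fam := true) (s1 := false) (s2 := false) (a := 0) (b := 2) (c := 2) (cn := .pp) (n1 := ndB1q0) (n2 := ndB1q2a) (pc := pcB2) (cut := Cut.none) (xt := Ext.none) (P1 := 0) (W1 := 536870912) (P2 := 0) (W2 := 536870912) (P3 := 536870912) (W3 := 50465866) (N0 := 3) (En := eng) (mo := mog) (C1 := cd1q0) (C2 := cd1q2a) (C3 := pd2)
    rfl k0_mm_022_a

noncomputable def f_mm_022_b : ℕ → ℕ → ℕ → ℕ → Bool := onCell 0 536870912 1239849684 370763052 536870912 50465866
    (rowB 3 eng mog cd1q0 cd1q2b pd2 0 true false false .pp 0 2 2 (qsf 0 536870912 1239849684 370763052 2) ndB1q0 ndB1q2b pcB2 Cut.none Ext.none)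

def k0_mm_022_b : ∃ t, chk3 f_mm_022_b t 1 1 1 = true :=
  ⟨(l 5), by decide +kernel⟩

theorem c_mm_022_b : CertB 0 536870912 1239849684 370763052 536870912 50465866 3 eng mog cd1q0 cd1q2b pd2 true false false .pp 0 2 2
    ndB1q0 ndB1q2b pcB2 Cut.none Ext.none :=
  certB0 (fam := true) (s1 := false) (s2 := false) (a := 0) (b := 2) (c := 2) (cn := .pp) (n1 := ndB1q0) (n2 := ndB1q2b) (pc := pcB2) (cut := Cut.none) (xt := Ext.none) (P1 := 0) (W1 := 536870912) (P2 := 1239849684) (W2 := 370763052) (P3 := 536870912) (W3 := 50465866) (N0 := 3) (En := eng) (mo := mog) (C1 := cd1q0) (C2 := cd1q2b) (C3 := pd2)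
    rfl k0_mm_022_b

noncomputable def f_mm_023_a : ℕ → ℕ → ℕ → ℕ → Bool := onCell 0 536870912 0 536870912 536870912 50465866
    (rowB 3 eng mog cd1q0 cd1q2a pd3 0 true false false .up 0 2 3 (qsf 0 536870912 0 536870912 3) ndB1q0 ndB1q2a pcB3 Cut.none Ext.none)

def k0_mm_023_a : ∃ t, chk3 f_mm_023_a t 1 1 1 = true :=
  ⟨(l 5), by decide +kernel⟩

theorem c_mm_023_a : CertB 0 536870912 0 536870912 536870912 50465866 3 eng mog cd1q0 cd1q2a pd3 true false false .up 0 2 3
    ndB1q0 ndB1q2a pcB3 Cut.none Ext.none :=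
  certB0 (fam := true) (s1 := false) (s2 := false) (a := 0) (b := 2) (c := 3) (cn := .up) (n1 := ndB1q0) (n2 := ndB1q2a) (pc := pcB3) (cut := Cut.none) (xt := Ext.none) (P1 := 0) (W1 := 536870912) (P2 := 0) (W2 := 536870912) (P3 := 536870912) (W3 := 50465866) (N0 := 3) (En := eng) (mo := mog) (C1 := cd1q0) (C2 := cd1q2a) (C3 := pd3)
    rfl k0_mm_023_a

noncomputable def f_mm_023_b : ℕ → ℕ → ℕ → ℕ → Bool := onCell 0 536870912 1239849684 370763052 536870912 50465866
    (rowB 3 eng mog cd1q0 cd1q2b pd3 0 true false false .up 0 2 3 (qsf 0 536870912 1239849684 370763052 3) ndB1q0 ndB1q2b pcB3 Cut.none Ext.none)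

def k0_mm_023_b : ∃ t, chk3 f_mm_023_b t 1 1 1 = true :=
  ⟨(l 5), by decide +kernel⟩

theorem c_mm_023_b : CertB 0 536870912 1239849684 370763052 536870912 50465866 3 eng mog cd1q0 cd1q2b pd3 true false false .up 0 2 3
    ndB1q0 ndB1q2b pcB3 Cut.none Ext.none :=
  certB0 (fam := true) (s1 := false) (s2 := false) (a := 0) (b := 2) (c := 3) (cn := .up) (n1 := ndB1q0) (n2 := ndB1q2b) (pc := pcB3) (cut := Cut.none) (xt := Ext.none) (P1 := 0) (W1 := 536870912) (P2 := 1239849684) (W2 := 370763052) (P3 := 536870912) (W3 := 50465866) (N0 := 3) (En := eng) (mo := mog) (C1 := cd1q0) (C2 := cd1q2b) (C3 := pd3)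
    rfl k0_mm_023_b

noncomputable def f_mm_033 : ℕ → ℕ → ℕ → ℕ → Bool := onCell 0 536870912 1610612736 536870912 536870912 50465866
    (rowB 3 eng mog cd1q0 cd1q3 pd3 0 true false false .pnn 0 3 3 (qsf 0 536870912 1610612736 536870912 3) ndB1q0 ndB1q3 pcB3 Cut.none Ext.none)

def k0_mm_033 : ∃ t, chk3 f_mm_033 t 1 1 1 = true :=
  ⟨(l 5), by decide +kernel⟩

theorem c_mm_033 : CertB 0 536870912 1610612736 536870912 536870912 50465866 3 eng mog cd1q0 cd1q3 pd3 true false false .pnn 0 3 3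
    ndB1q0 ndB1q3 pcB3 Cut.none Ext.none :=
  certB0 (fam := true) (s1 := false) (s2 := false) (a := 0) (b := 3) (c := 3) (cn := .pnn) (n1 := ndB1q0) (n2 := ndB1q3) (pc := pcB3) (cut := Cut.none) (xt := Ext.none) (P1 := 0) (W1 := 536870912) (P2 := 1610612736) (W2 := 536870912) (P3 := 536870912) (W3 := 50465866) (N0 := 3) (En := eng) (mo := mog) (C1 := cd1q0) (C2 := cd1q3) (C3 := pd3)
    rfl k0_mm_033

noncomputable def f_mm_101 : ℕ → ℕ → ℕ → ℕ → Bool := onCell 536870912 536870912 0 536870912 536870912 50465866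
    (rowB 3 eng mog cd1q1 cd1q0 pd1 0 true false false .npn 1 0 1 (qsf 536870912 536870912 0 536870912 1) ndB1q1 ndB1q0 pcB1 Cut.none Ext.none)

def k0_mm_101 : ∃ t, chk3 f_mm_101 t 1 1 1 = true :=
  ⟨(l 4), by decide +kernel⟩

theorem c_mm_101 : CertB 536870912 536870912 0 536870912 536870912 50465866 3 eng mog cd1q1 cd1q0 pd1 true false false .npn 1 0 1
    ndB1q1 ndB1q0 pcB1 Cut.none Ext.none :=
  certB0 (fam := true) (s1 := false) (s2 := false) (a := 1) (b := 0) (c := 1) (cn := .npn) (n1 := ndB1q1) (n2 := ndB1q0) (pc := pcB1) (cut := Cut.none) (xt := Ext.none) (P1 := 536870912) (W1 := 536870912) (P2 := 0) (W2 := 536870912) (P3 := 536870912) (W3 := 50465866) (N0 := 3) (En := eng) (mo := mog) (C1 := cd1q1) (C2 := cd1q0) (C3 := pd1)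
    rfl k0_mm_101

noncomputable def f_mm_102 : ℕ → ℕ → ℕ → ℕ → Bool := onCell 536870912 536870912 0 536870912 536870912 50465866
    (rowB 3 eng mog cd1q1 cd1q0 pd2 0 true false false .npp 1 0 2 (qsf 536870912 536870912 0 536870912 2) ndB1q1 ndB1q0 pcB2 Cut.none Ext.none)

def k0_mm_102 : ∃ t, chk3 f_mm_102 t 1 1 1 = true :=
  ⟨(l 4), by decide +kernel⟩

theorem c_mm_102 : CertB 536870912 536870912 0 536870912 536870912 50465866 3 eng mog cd1q1 cd1q0 pd2 true false false .npp 1 0 2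
    ndB1q1 ndB1q0 pcB2 Cut.none Ext.none :=
  certB0 (fam := true) (s1 := false) (s2 := false) (a := 1) (b := 0) (c := 2) (cn := .npp) (n1 := ndB1q1) (n2 := ndB1q0) (pc := pcB2) (cut := Cut.none) (xt := Ext.none) (P1 := 536870912) (W1 := 536870912) (P2 := 0) (W2 := 536870912) (P3 := 536870912) (W3 := 50465866) (N0 := 3) (En := eng) (mo := mog) (C1 := cd1q1) (C2 := cd1q0) (C3 := pd2)
    rfl k0_mm_102

noncomputable def f_mm_112 : ℕ → ℕ → ℕ → ℕ → Bool := onCell 536870912 536870912 536870912 536870912 536870912 50465866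
    (rowB 3 eng mog cd1q1 cd1q1 pd2 0 true false false .dn 1 1 2 (qsf 536870912 536870912 536870912 536870912 2) ndB1q1 ndB1q1 pcB2 Cut.none Ext.none)

def k0_mm_112 : ∃ t, chk3 f_mm_112 t 1 1 1 = true :=
  ⟨(l 4), by decide +kernel⟩

theorem c_mm_112 : CertB 536870912 536870912 536870912 536870912 536870912 50465866 3 eng mog cd1q1 cd1q1 pd2 true false false .dn 1 1 2
    ndB1q1 ndB1q1 pcB2 Cut.none Ext.none :=
  certB0 (fam := true) (s1 := false) (s2 := false) (a := 1) (b := 1) (c := 2) (cn := .dn) (n1 := ndB1q1) (n2 := ndB1q1) (pc := pcB2) (cut := Cut.none) (xt := Ext.none) (P1 := 536870912) (W1 := 536870912) (P2 := 536870912) (W2 := 536870912) (P3 := 536870912) (W3 := 50465866) (N0 := 3) (En := eng) (mo := mog) (C1 := cd1q1) (C2 := cd1q1) (C3 := pd2)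
    rfl k0_mm_112

noncomputable def f_mm_113 : ℕ → ℕ → ℕ → ℕ → Bool := onCell 536870912 536870912 536870912 536870912 536870912 50465866
    (rowB 3 eng mog cd1q1 cd1q1 pd3 0 true false false .nn 1 1 3 (qsf 536870912 536870912 536870912 536870912 3) ndB1q1 ndB1q1 pcB3 Cut.none Ext.none)

def k0_mm_113 : ∃ t, chk3 f_mm_113 t 1 1 1 = true :=
  ⟨(l 4), by decide +kernel⟩

theorem c_mm_113 : CertB 536870912 536870912 536870912 536870912 536870912 50465866 3 eng mog cd1q1 cd1q1 pd3 true false false .nn 1 1 3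
    ndB1q1 ndB1q1 pcB3 Cut.none Ext.none :=
  certB0 (fam := true) (s1 := false) (s2 := false) (a := 1) (b := 1) (c := 3) (cn := .nn) (n1 := ndB1q1) (n2 := ndB1q1) (pc := pcB3) (cut := Cut.none) (xt := Ext.none) (P1 := 536870912) (W1 := 536870912) (P2 := 536870912) (W2 := 536870912) (P3 := 536870912) (W3 := 50465866) (N0 := 3) (En := eng) (mo := mog) (C1 := cd1q1) (C2 := cd1q1) (C3 := pd3)
    rfl k0_mm_113

noncomputable def f_mm_123_a : ℕ → ℕ → ℕ → ℕ → Bool := onCell 536870912 536870912 0 536870912 536870912 50465866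
    (rowB 3 eng mog cd1q1 cd1q2a pd3 0 true false false .npn 1 2 3 (qsf 536870912 536870912 0 536870912 3) ndB1q1 ndB1q2a pcB3 Cut.none Ext.none)

def k0_mm_123_a : ∃ t, chk3 f_mm_123_a t 1 1 1 = true :=
  ⟨(l 5), by decide +kernel⟩

theorem c_mm_123_a : CertB 536870912 536870912 0 536870912 536870912 50465866 3 eng mog cd1q1 cd1q2a pd3 true false false .npn 1 2 3
    ndB1q1 ndB1q2a pcB3 Cut.none Ext.none :=
  certB0 (fam := true) (s1 := false) (s2 := false) (a := 1) (b := 2) (c := 3) (cn := .npn) (n1 := ndB1q1) (n2 := ndB1q2a) (pc := pcB3) (cut := Cut.none) (xt := Ext.none) (P1 := 536870912) (W1 := 536870912) (P2 := 0) (W2 := 536870912) (P3 := 536870912) (W3 := 50465866) (N0 := 3) (En := eng) (mo := mog) (C1 := cd1q1) (C2 := cd1q2a) (C3 := pd3)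
    rfl k0_mm_123_a

noncomputable def f_mm_123_b : ℕ → ℕ → ℕ → ℕ → Bool := onCell 536870912 536870912 1239849684 370763052 536870912 50465866
    (rowB 3 eng mog cd1q1 cd1q2b pd3 0 true false false .npn 1 2 3 (qsf 536870912 536870912 1239849684 370763052 3) ndB1q1 ndB1q2b pcB3 Cut.none Ext.none)

def k0_mm_123_b : ∃ t, chk3 f_mm_123_b t 1 1 1 = true :=
  ⟨(l 5), by decide +kernel⟩

theorem c_mm_123_b : CertB 536870912 536870912 1239849684 370763052 536870912 50465866 3 eng mog cd1q1 cd1q2b pd3 true false false .npn 1 2 3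
    ndB1q1 ndB1q2b pcB3 Cut.none Ext.none :=
  certB0 (fam := true) (s1 := false) (s2 := false) (a := 1) (b := 2) (c := 3) (cn := .npn) (n1 := ndB1q1) (n2 := ndB1q2b) (pc := pcB3) (cut := Cut.none) (xt := Ext.none) (P1 := 536870912) (W1 := 536870912) (P2 := 1239849684) (W2 := 370763052) (P3 := 536870912) (W3 := 50465866) (N0 := 3) (En := eng) (mo := mog) (C1 := cd1q1) (C2 := cd1q2b) (C3 := pd3)
    rfl k0_mm_123_b

noncomputable def f_mm_133 : ℕ → ℕ → ℕ → ℕ → Bool := onCell 536870912 536870912 1610612736 536870912 536870912 50465866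
    (rowB 3 eng mog cd1q1 cd1q3 pd3 0 true false false .dn 1 3 3 (qsf 536870912 536870912 1610612736 536870912 3) ndB1q1 ndB1q3 pcB3 Cut.none Ext.none)

def k0_mm_133 : ∃ t, chk3 f_mm_133 t 1 1 1 = true :=
  ⟨(l 4), by decide +kernel⟩

theorem c_mm_133 : CertB 536870912 536870912 1610612736 536870912 536870912 50465866 3 eng mog cd1q1 cd1q3 pd3 true false false .dn 1 3 3
    ndB1q1 ndB1q3 pcB3 Cut.none Ext.none :=
  certB0 (fam := true) (s1 := false) (s2 := false) (a := 1) (b := 3) (c := 3) (cn := .dn) (n1 := ndB1q1) (n2 := ndB1q3) (pc := pcB3) (cut := Cut.none) (xt := Ext.none) (P1 := 536870912) (W1 := 536870912) (P2 := 1610612736) (W2 := 536870912) (P3 := 536870912) (W3 := 50465866) (N0 := 3) (En := eng) (mo := mog) (C1 := cd1q1) (C2 := cd1q3) (C3 := pd3)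
    rfl k0_mm_133

noncomputable def cut_mm_202_a : Cut := Cut.of [[⟨0, 1, 0, 67108864⟩, ⟨1, 0, 0, 67108864⟩, ⟨2, 1, 0, 67108864⟩]]

noncomputable def f_mm_202_a : ℕ → ℕ → ℕ → ℕ → Bool := onCell 0 536870912 0 536870912 536870912 50465866
    (rowB 3 eng mog cd1q2a cd1q0 pd2 0 true false false .pp 2 0 2 (qsf 0 536870912 0 536870912 2) ndB1q2a ndB1q0 pcB2 cut_mm_202_a Ext.none)

def k0_mm_202_a : ∃ t, chk3 f_mm_202_a t 2 1 1 = true :=
  ⟨(b (b (a (b (b (a (a (l 16501624) (l 16515752)) (a (b (l 16464160) (l 16494232)) (l 16538952))) (a (a (l 16475568) (l 16478840)) (a (l 16486560) (l 16495800)))) (a (b (a (l 16496520) (l 16502344)) (a (l 16562000) (l 16526224))) (b (l 16515800) (l 16583800)))) (b (b (b (a (l 16510248) (a (l 16509032) (l 16546840))) (a (l 16540144) (a (l 16520536) (l 16538800)))) (a (b (l 16528728) (l 16517344)) (b (a (l 16532864) (a (l 16547048) (l 16557064))) (a (l 16542512) (l 16626832))))) (b (a (l 16536504) (b (l 16583736) (l 16592664)))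 (a (l 16563344) (a (l 16580440) (l 16598672)))))) (a (b (b (a (l 16546256) (l 16567448)) (a (l 16568168) (l 16592752))) (a (l 16598704) (l 16673712))) (b (b (a (l 16590256) (l 16676464)) (a (l 16617344) (l 16682328))) (a (b (l 16643824) (l 16668520)) (b (l 16730456) (a (l 16686864) (l 16726184))))))) (a (b (b (b (l 16681264) (l 16754120)) (b (l 16791128) (a (l 16709000) (l 16749360)))) (l 2)) (b (b (a (b (l 16688088) (l 16750968)) (a (b (l 16713176) (l 4)) (l 4))) (a (b (l 16787712) (l 4)) (l 4))) (l 4)))), by decide +kernel⟩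

def k1_mm_202_a : ∃ t, chk3 f_mm_202_a t 6 4 1 = true :=
  ⟨(b (a (b (b (a (b (l 16543016) (l 16548960)) (a (l 16583552) (b (l 16572120) (l 16577664)))) (a (l 16569456) (a (l 16575224) (l 16587048)))) (b (a (l 16572640) (l 16595256)) (a (a (l 16622512) (l 16654656)) (a (l 16645336) (l 16615672))))) (b (b (a (b (a (l 16605872) (l 16598304)) (l 16605584)) (b (a (l 16622784) (b (l 16625096) (l 16628592))) (a (l 16639872) (l 16654736)))) (a (b (l 16603664) (l 16609912)) (a (l 16639048) (a (l 16639984) (l 16647816))))) (b (a (a (l 16614032) (l 16627600)) (b (l 16666928) (l 16653440))) (a (l 16646144) (a (l 16657160) (l 16672656)))))) (a (b (b (a (l 16619000) (b (c (l 16663816) (l 16660368)) (l 16668512))) (a (l 16629984) (l 16656768))) (a (l 16647176) (b (l 16668856) (l 16640928)))) (b (b (a (a (l 16641576) (l 16678504)) (b (l 16676520) (l 16684232))) (a (b (a (l 16653832) (l 16689544)) (l 16668056)) (a (b (l 16683840) (l 16733208)) (l 16703744)))) (b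 (a (l 16678104) (b (a (l 16698464) (l 16757048)) (l 16714080))) (a (l 16735224) (a (l 16738824) (l 16755112))))))), by decide +kernel⟩

def k2_mm_202_a : ∃ t, chk3 f_mm_202_a t 7 4 1 = true :=
  ⟨(b (a (b (a (b (a (b (b (l 16640200) (l 16643864)) (l 16659776)) (b (b (a (l 16651944) (l 16659976)) (l 16670272)) (b (l 16684544) (l 16667320)))) (a (b (l 16677376) (l 16663400)) (b (a (l 16668696) (l 16677048)) (a (l 16675928) (l 16684416))))) (b (a (b (b (l 6) (a (l 16672056) (l 6))) (b (l 16690656) (l 16704992))) (b (l 6) (a (b (l 6) (l 16697016)) (l 6)))) (a (b (c (l 16711352) (l 16710048)) (l 16697224)) (b (a (l 16723784) (c (l 16733256) (l 16732368))) (l 16725472))))) (a (a (b (l 16694656) (l 16688968)) (b (b (l 16687376) (l 16694464)) (l 16706112))) (b (a (b (l 16704592) (l 16711960)) (b (l 16732992) (l 16730504))) (a (b (l 16720032) (l 16728176)) (b (l 16741272) (l 16753904)))))) (b (a (a (b (l 6) (b (l 6) (a (l 16728856) (l 16738408)))) (l 6)) (l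 6)) (a (a (b (b (a (l 16736696) (l 16746432)) (a (l 16744816) (l 16759744))) (b (a (l 16752864) (l 4)) (l 4))) (b (b (a (b (l 16754280) (l 16758304)) (b (l 6) (l 4))) (l 4)) (l 4))) (l 4)))) (a (b (b (a (a (l 16704832) (l 16722256)) (a (b (l 16736288) (l 16744160)) (b (l 16765024) (l 4)))) (a (a (a (l 16716320) (l 16745936)) (b (l 16734192) (l 16741720))) (l 4))) (a (a (b (b (l 16732032) (l 16760008)) (l 4)) (l 4)) (l 4))) (l 4))), by decide +kernel⟩

def k3_mm_202_a : ∃ t, chk3 f_mm_202_a t 3 5 1 = true :=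
  ⟨(a (b (a (b (a (l 16655400) (a (l 16699536) (l 16736488))) (a (l 16685176) (b (l 16730896) (l 16723104)))) (b (a (b (l 16752432) (l 16726392)) (b (a (l 16734384) (l 4)) (l 4))) (a (b (l 16761368) (l 4)) (l 4)))) (a (b (a (l 16752544) (l 4)) (l 4)) (l 4))) (l 4)), by decide +kernel⟩

def k4_mm_202_a : ∃ t, chk3 f_mm_202_a t 3 3 1 = true :=
  ⟨(l 4), by decide +kernel⟩

theorem s5_mm_202_a : ∃ t, chk3 f_mm_202_a t 3 4 1 = true := ex3_a k1_mm_202_a k2_mm_202_a

theorem s6_mm_202_a : ∃ t, chk3 f_mm_202_a t 3 2 1 = true := ex3_b s5_mm_202_a k3_mm_202_a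

theorem s7_mm_202_a : ∃ t, chk3 f_mm_202_a t 3 1 1 = true := ex3_b s6_mm_202_a k4_mm_202_a

theorem s8_mm_202_a : ∃ t, chk3 f_mm_202_a t 1 1 1 = true := ex3_a k0_mm_202_a s7_mm_202_a

theorem c_mm_202_a : CertB 0 536870912 0 536870912 536870912 50465866 3 eng mog cd1q2a cd1q0 pd2 true false false .pp 2 0 2
    ndB1q2a ndB1q0 pcB2 cut_mm_202_a Ext.none :=
  certB0 (fam := true) (s1 := false) (s2 := false) (a := 2) (b := 0) (c := 2) (cn := .pp) (n1 := ndB1q2a) (n2 := ndB1q0) (pc := pcB2) (cut := cut_mm_202_a) (xt := Ext.none) (P1 := 0) (W1 := 536870912) (P2 := 0) (W2 := 536870912) (P3 := 536870912) (W3 := 50465866) (N0 := 3) (En := eng) (mo := mog) (C1 := cd1q2a) (C2 := cd1q0) (C3 := pd2)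
    rfl s8_mm_202_a

noncomputable def cut_mm_202_b : Cut := Cut.of [[⟨0, 1, 0, 67108864⟩, ⟨1, 0, 0, 67108864⟩, ⟨2, 1, 0, 67108864⟩]]

noncomputable def f_mm_202_b : ℕ → ℕ → ℕ → ℕ → Bool := onCell 1073741824 536870912 0 536870912 536870912 50465866
    (rowB 3 eng mog cd1q2b cd1q0 pd2 2 true false false .pp 2 0 2 (qsf 1239849684 370763052 0 536870912 2) ndB1q2b ndB1q0 pcB2 cut_mm_202_b Ext.none)

def k0_mm_202_b : ∃ t, chk3 f_mm_202_b t 1 1 1 = true :=
  ⟨(a (b (a (l 1) (b (a (b (b (a (b (l 16543856) (l 1)) (a (b (l 16452848) (l 16493560)) (l 16461288))) (a (l 1) (a (l 1) (l 191695974583)))) (l 1)) (b (b (a (l 16403096) (l 16357856)) (a (l 16545008) (l 16447168))) (a (b (l 163241910951) (l 1)) (b (l 16513392) (l 129419108967))))) (l 1))) (l 1)) (a (b (b (a (a (b (b (l 16317440) (l 16384856)) (b (l 16450984) (l 16535536))) (b (l 16356728) (b (l 16413272) (l 16476880)))) (b (a (l 16282712) (l 16253984)) (a (l 16410760) (l 16379448)))) (a (b (a (b (l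 149820221431) (l 1)) (b (l 16536088) (l 136935454151))) (l 1)) (b (a (l 16550640) (l 16497536)) (a (l 257194433015) (l 131029816183))))) (l 1)) (b (b (a (b (l 16216200) (l 16337232)) (l 16416496)) (a (b (l 16473504) (l 16644968)) (b (l 16395256) (l 16497440)))) (b (a (b (a (l 200823258199) (l 220687257191)) (l 1)) (b (l 118144984727) (b (l 244309612839) (l 336651574119)))) (l 1))))), by decide +kernel⟩

theorem c_mm_202_b : CertB 1239849684 370763052 0 536870912 536870912 50465866 3 eng mog cd1q2b cd1q0 pd2 true false false .pp 2 0 2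
    ndB1q2b ndB1q0 pcB2 cut_mm_202_b Ext.none :=
  certB2 (fam := true) (s1 := false) (s2 := false) (a := 2) (b := 0) (c := 2) (cn := .pp) (n1 := ndB1q2b) (n2 := ndB1q0) (pc := pcB2) (cut := cut_mm_202_b) (xt := Ext.none) (P1 := 1239849684) (W1 := 370763052) (P2 := 0) (W2 := 536870912) (P3 := 536870912) (W3 := 50465866) (N0 := 3) (En := eng) (mo := mog) (C1 := cd1q2b) (C2 := cd1q0) (C3 := pd2)
    rfl (fun _ => rfl) k0_mm_202_b

noncomputable def f_mm_203_a : ℕ → ℕ → ℕ → ℕ → Bool := onCell 0 536870912 1610612736 536870912 536870912 50465866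
    (rowB 3 eng mog cd1q2a cd1q0 pd3 1 true false false .up 2 0 3 (qsf 0 536870912 0 536870912 3) ndB1q2a ndB1q0 pcB3 Cut.none Ext.none)

def k0_mm_203_a : ∃ t, chk3 f_mm_203_a t 1 1 1 = true :=
  ⟨(a (b (a (b (b (b (a (l 16700384) (l 16755208)) (a (l 16746552) (l 16800224))) (a (b (l 16769528) (l 16773064)) (l 4))) (l 4)) (l 4)) (l 2)) (l 4)), by decide +kernel⟩

theorem c_mm_203_a : CertB 0 536870912 0 536870912 536870912 50465866 3 eng mog cd1q2a cd1q0 pd3 true false false .up 2 0 3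
    ndB1q2a ndB1q0 pcB3 Cut.none Ext.none :=
  certB1 (fam := true) (s1 := false) (s2 := false) (a := 2) (b := 0) (c := 3) (cn := .up) (n1 := ndB1q2a) (n2 := ndB1q0) (pc := pcB3) (cut := Cut.none) (xt := Ext.none) (P1 := 0) (W1 := 536870912) (P2 := 0) (W2 := 536870912) (P3 := 536870912) (W3 := 50465866) (N0 := 3) (En := eng) (mo := mog) (C1 := cd1q2a) (C2 := cd1q0) (C3 := pd3)
    rfl (fun _ => rfl) k0_mm_203_a

noncomputable def f_mm_203_b : ℕ → ℕ → ℕ → ℕ → Bool := onCell 1239849684 370763052 1610612736 536870912 536870912 50465866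
    (rowB 3 eng mog cd1q2b cd1q0 pd3 1 true false false .up 2 0 3 (qsf 1239849684 370763052 0 536870912 3) ndB1q2b ndB1q0 pcB3 Cut.none Ext.none)

def k0_mm_203_b : ∃ t, chk3 f_mm_203_b t 1 1 1 = true :=
  ⟨(b (b (a (b (a (b (l 16624144) (l 16638112)) (l 16570592)) (a (b (l 16691320) (l 16723728)) (b (l 16544896) (l 4)))) (b (a (l 16364680) (l 16221352)) (b (l 16495136) (l 4)))) (a (l 4) (l 4))) (l 4)), by decide +kernel⟩

theorem c_mm_203_b : CertB 1239849684 370763052 0 536870912 536870912 50465866 3 eng mog cd1q2b cd1q0 pd3 true false false .up 2 0 3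
    ndB1q2b ndB1q0 pcB3 Cut.none Ext.none :=
  certB1 (fam := true) (s1 := false) (s2 := false) (a := 2) (b := 0) (c := 3) (cn := .up) (n1 := ndB1q2b) (n2 := ndB1q0) (pc := pcB3) (cut := Cut.none) (xt := Ext.none) (P1 := 1239849684) (W1 := 370763052) (P2 := 0) (W2 := 536870912) (P3 := 536870912) (W3 := 50465866) (N0 := 3) (En := eng) (mo := mog) (C1 := cd1q2b) (C2 := cd1q0) (C3 := pd3)
    rfl (fun _ => rfl) k0_mm_203_b

noncomputable def f_mm_213_a : ℕ → ℕ → ℕ → ℕ → Bool := onCell 0 536870912 536870912 536870912 536870912 50465866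
    (rowB 3 eng mog cd1q2a cd1q1 pd3 0 true false false .pnn 2 1 3 (qsf 0 536870912 536870912 536870912 3) ndB1q2a ndB1q1 pcB3 Cut.none Ext.none)

def k0_mm_213_a : ∃ t, chk3 f_mm_213_a t 1 1 1 = true :=
  ⟨(a (b (l 4) (l 4)) (l 4)), by decide +kernel⟩

theorem c_mm_213_a : CertB 0 536870912 536870912 536870912 536870912 50465866 3 eng mog cd1q2a cd1q1 pd3 true false false .pnn 2 1 3
    ndB1q2a ndB1q1 pcB3 Cut.none Ext.none :=
  certB0 (fam := true) (s1 := false) (s2 := false) (a := 2) (b := 1) (c := 3) (cn := .pnn) (n1 := ndB1q2a) (n2 := ndB1q1) (pc := pcB3) (cut := Cut.none) (xt := Ext.none) (P1 := 0) (W1 := 536870912) (P2 := 536870912) (W2 := 536870912) (P3 := 536870912) (W3 := 50465866) (N0 := 3) (En := eng) (mo := mog) (C1 := cd1q2a) (C2 := cd1q1) (C3 := pd3)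
    rfl k0_mm_213_a

noncomputable def f_mm_213_b : ℕ → ℕ → ℕ → ℕ → Bool := onCell 1239849684 370763052 536870912 536870912 536870912 50465866
    (rowB 3 eng mog cd1q2b cd1q1 pd3 0 true false false .pnn 2 1 3 (qsf 1239849684 370763052 536870912 536870912 3) ndB1q2b ndB1q1 pcB3 Cut.none Ext.none)

def k0_mm_213_b : ∃ t, chk3 f_mm_213_b t 1 1 1 = true :=
  ⟨(b (a (l 4) (l 4)) (l 4)), by decide +kernel⟩

theorem c_mm_213_b : CertB 1239849684 370763052 536870912 536870912 536870912 50465866 3 eng mog cd1q2b cd1q1 pd3 true false false .pnn 2 1 3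
    ndB1q2b ndB1q1 pcB3 Cut.none Ext.none :=
  certB0 (fam := true) (s1 := false) (s2 := false) (a := 2) (b := 1) (c := 3) (cn := .pnn) (n1 := ndB1q2b) (n2 := ndB1q1) (pc := pcB3) (cut := Cut.none) (xt := Ext.none) (P1 := 1239849684) (W1 := 370763052) (P2 := 536870912) (W2 := 536870912) (P3 := 536870912) (W3 := 50465866) (N0 := 3) (En := eng) (mo := mog) (C1 := cd1q2b) (C2 := cd1q1) (C3 := pd3)
    rfl k0_mm_213_b

noncomputable def f_mm_303 : ℕ → ℕ → ℕ → ℕ → Bool := onCell 1610612736 536870912 0 536870912 536870912 50465866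
    (rowB 3 eng mog cd1q3 cd1q0 pd3 2 true false false .npn 3 0 3 (qsf 1610612736 536870912 0 536870912 3) ndB1q3 ndB1q0 pcB3 Cut.none Ext.none)

def k0_mm_303 : ∃ t, chk3 f_mm_303 t 1 1 1 = true :=
  ⟨(a (a (b (a (b (l 16231528) (l 1)) (b (a (l 16344048) (l 16447592)) (l 262563146199))) (l 1)) (l 4)) (l 4)), by decide +kernel⟩

theorem c_mm_303 : CertB 1610612736 536870912 0 536870912 536870912 50465866 3 eng mog cd1q3 cd1q0 pd3 true false false .npn 3 0 3
    ndB1q3 ndB1q0 pcB3 Cut.none Ext.none :=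
  certB2 (fam := true) (s1 := false) (s2 := false) (a := 3) (b := 0) (c := 3) (cn := .npn) (n1 := ndB1q3) (n2 := ndB1q0) (pc := pcB3) (cut := Cut.none) (xt := Ext.none) (P1 := 1610612736) (W1 := 536870912) (P2 := 0) (W2 := 536870912) (P3 := 536870912) (W3 := 50465866) (N0 := 3) (En := eng) (mo := mog) (C1 := cd1q3) (C2 := cd1q0) (C3 := pd3)
    rfl (fun _ => rfl) k0_mm_303

noncomputable def f_mm_313 : ℕ → ℕ → ℕ → ℕ → Bool := onCell 1610612736 536870912 536870912 536870912 536870912 50465866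
    (rowB 3 eng mog cd1q3 cd1q1 pd3 0 true false false .dn 3 1 3 (qsf 1610612736 536870912 536870912 536870912 3) ndB1q3 ndB1q1 pcB3 Cut.none Ext.none)

def k0_mm_313 : ∃ t, chk3 f_mm_313 t 1 1 1 = true :=
  ⟨(l 4), by decide +kernel⟩

theorem c_mm_313 : CertB 1610612736 536870912 536870912 536870912 536870912 50465866 3 eng mog cd1q3 cd1q1 pd3 true false false .dn 3 1 3
    ndB1q3 ndB1q1 pcB3 Cut.none Ext.none :=
  certB0 (fam := true) (s1 := false) (s2 := false) (a := 3) (b := 1) (c := 3) (cn := .dn) (n1 := ndB1q3) (n2 := ndB1q1) (pc := pcB3) (cut := Cut.none) (xt := Ext.none) (P1 := 1610612736) (W1 := 536870912) (P2 := 536870912) (W2 := 536870912) (P3 := 536870912) (W3 := 50465866) (N0 := 3) (En := eng) (mo := mog) (C1 := cd1q3) (C2 := cd1q1) (C3 := pd3)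
    rfl k0_mm_313

end Pool.Agent.Strip051.G.I5000_5470.Tab.C.BA11

namespace Pool.Agent.Strip051.G.I5000_5470.Tab.C.BA12

open Pool.Agent.Strip051.PB Pool.Agent.Strip051.PB.T
open Pool.Agent.Strip051.G.I5000_5470.Tab

noncomputable def f_pp_001 : ℕ → ℕ → ℕ → ℕ → Bool := onCell 0 536870912 0 536870912 536870912 50465866
    (rowB 3 eng mog cd1q0 cd2q0 pd1 0 true true true .up 0 0 1 (qsf 0 536870912 0 536870912 1) ndB1q0 ndB2q0 pcB1 Cut.none Ext.none)

def k0_pp_001 : ∃ t, chk3 f_pp_001 t 1 1 1 = true :=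
  ⟨(l 4), by decide +kernel⟩

theorem c_pp_001 : CertB 0 536870912 0 536870912 536870912 50465866 3 eng mog cd1q0 cd2q0 pd1 true true true .up 0 0 1
    ndB1q0 ndB2q0 pcB1 Cut.none Ext.none :=
  certB0 (fam := true) (s1 := true) (s2 := true) (a := 0) (b := 0) (c := 1) (cn := .up) (n1 := ndB1q0) (n2 := ndB2q0) (pc := pcB1) (cut := Cut.none) (xt := Ext.none) (P1 := 0) (W1 := 536870912) (P2 := 0) (W2 := 536870912) (P3 := 536870912) (W3 := 50465866) (N0 := 3) (En := eng) (mo := mog) (C1 := cd1q0) (C2 := cd2q0) (C3 := pd1)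
    rfl k0_pp_001

noncomputable def f_pp_011 : ℕ → ℕ → ℕ → ℕ → Bool := onCell 0 536870912 536870912 536870912 536870912 50465866
    (rowB 3 eng mog cd1q0 cd2q1 pd1 0 true true true .pnn 0 1 1 (qsf 0 536870912 536870912 536870912 1) ndB1q0 ndB2q1 pcB1 Cut.none Ext.none)

def k0_pp_011 : ∃ t, chk3 f_pp_011 t 1 1 1 = true :=
  ⟨(l 4), by decide +kernel⟩

theorem c_pp_011 : CertB 0 536870912 536870912 536870912 536870912 50465866 3 eng mog cd1q0 cd2q1 pd1 true true true .pnn 0 1 1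
    ndB1q0 ndB2q1 pcB1 Cut.none Ext.none :=
  certB0 (fam := true) (s1 := true) (s2 := true) (a := 0) (b := 1) (c := 1) (cn := .pnn) (n1 := ndB1q0) (n2 := ndB2q1) (pc := pcB1) (cut := Cut.none) (xt := Ext.none) (P1 := 0) (W1 := 536870912) (P2 := 536870912) (W2 := 536870912) (P3 := 536870912) (W3 := 50465866) (N0 := 3) (En := eng) (mo := mog) (C1 := cd1q0) (C2 := cd2q1) (C3 := pd1)
    rfl k0_pp_011

noncomputable def f_pp_012 : ℕ → ℕ → ℕ → ℕ → Bool := onCell 0 536870912 536870912 536870912 536870912 50465866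
    (rowB 3 eng mog cd1q0 cd2q1 pd2 0 true true true .pnp 0 1 2 (qsf 0 536870912 536870912 536870912 2) ndB1q0 ndB2q1 pcB2 Cut.none Ext.none)

def k0_pp_012 : ∃ t, chk3 f_pp_012 t 1 1 1 = true :=
  ⟨(l 4), by decide +kernel⟩

theorem c_pp_012 : CertB 0 536870912 536870912 536870912 536870912 50465866 3 eng mog cd1q0 cd2q1 pd2 true true true .pnp 0 1 2
    ndB1q0 ndB2q1 pcB2 Cut.none Ext.none :=
  certB0 (fam := true) (s1 := true) (s2 := true) (a := 0) (b := 1) (c := 2) (cn := .pnp) (n1 := ndB1q0) (n2 := ndB2q1) (pc := pcB2) (cut := Cut.none) (xt := Ext.none) (P1 := 0) (W1 := 536870912) (P2 := 536870912) (W2 := 536870912) (P3 := 536870912) (W3 := 50465866) (N0 := 3) (En := eng) (mo := mog) (C1 := cd1q0) (C2 := cd2q1) (C3 := pd2)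
    rfl k0_pp_012

noncomputable def cut_pp_022_a : Cut := Cut.of [[⟨0, 0, 0, 67108864⟩, ⟨1, 1, 0, 67108864⟩, ⟨2, 1, 0, 67108864⟩]]

noncomputable def f_pp_022_a : ℕ → ℕ → ℕ → ℕ → Bool := onCell 0 536870912 0 536870912 536870912 50465866
    (rowB 3 eng mog cd1q0 cd2q2a pd2 0 true true true .pp 0 2 2 (qsf 0 536870912 0 536870912 2) ndB1q0 ndB2q2a pcB2 cut_pp_022_a Ext.none)

def k0_pp_022_a : ∃ t, chk3 f_pp_022_a t 2 2 1 = true :=
  ⟨(a (a (b (a (b (l 16527888) (a (l 16470768) (l 16503744))) (a (l 16580376) (l 16572384))) (a (b (a (b (l 16486440) (l 16456744)) (b (l 16478656) (l 16554288))) (a (b (l 16512616) (l 16528912)) (b (l 16526592) (l 16585160)))) (b (b (l 16516064) (a (l 16566904) (l 16536120))) (a (b (l 16603224) (l 16547136)) (b (l 16552664) (l 16634168)))))) (b (a (b (l 16516240) (l 16521752)) (b (l 16545368) (l 16550408))) (a (b (l 16575920) (b (l 16570376) (l 16590408))) (b (l 16586168) (a (l 16598368) (l 16612104)))))) (b (a (a (b (l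 16574904) (l 16579528)) (b (l 16604192) (l 16609336))) (a (b (l 16632600) (l 16640072)) (b (l 16659152) (l 16673784)))) (a (b (a (l 16593048) (l 16682056)) (a (a (l 16648192) (l 16661424)) (b (l 4) (l 4)))) (b (a (l 54995560295) (l 4)) (l 4))))), by decide +kernel⟩

def k1_pp_022_a : ∃ t, chk3 f_pp_022_a t 2 3 1 = true :=
  ⟨(a (b (a (b (b (a (a (l 16547848) (l 16562488)) (a (l 16619256) (b (l 16628416) (l 16639312)))) (a (a (l 16569560) (l 16584528)) (a (b (l 16593736) (l 16605656)) (a (l 16611168) (l 16639728))))) (a (a (a (b (l 16590664) (l 16639744)) (b (l 16597944) (l 16646736))) (b (l 16609440) (b (l 16629944) (l 16644680)))) (a (b (l 16625032) (a (l 16649264) (l 16657296))) (a (b (l 16636800) (l 16707304)) (b (l 16644640) (l 16673288)))))) (a (b (b (c (l 16677144) (l 16674040)) (a (b (l 16665464) (l 16699032)) (l 16665112))) (a (a (b (l 16652440) (l 16680896)) (b (l 16722872) (l 4))) (b (a (l 16729952) (l 4)) (l 4)))) (b (a (b (l 16653440)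 (l 16656944)) (l 16713144)) (l 4)))) (a (b (a (a (b (b (a (l 16641432) (l 16648776)) (a (a (a (l 16654600) (l 16656520)) (l 16659384)) (l 16665048))) (b (a (a (l 6) (l 16676144)) (l 16692424)) (a (l 6) (a (l 6) (l 16701568))))) (b (b (l 16660200) (a (l 16672512) (l 16680528))) (b (a (l 16689616) (l 16697688)) (a (l 16717976) (b (l 16711000) (l 16720104)))))) (a (b (b (l 16676336) (a (l 16688664) (l 16696768))) (a (b (l 16705792) (l 16734040)) (b (l 16713720) (l 4)))) (b (b (l 16702752) (a (l 16704584) (l 4))) (l 4)))) (a (b (a (l 6) (a (l 6) (b (b (l 16729392) (l 4)) (l 4)))) (l 6)) (l 4))) (l 4))) (b (l 4) (l 4))), by decide +kernel⟩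

def k2_pp_022_a : ∃ t, chk3 f_pp_022_a t 3 1 1 = true :=
  ⟨(b (a (b (a (b (a (l 16684536) (l 16711096)) (l 4)) (l 4)) (l 4)) (l 4)) (l 4)), by decide +kernel⟩

theorem s3_pp_022_a : ∃ t, chk3 f_pp_022_a t 2 1 1 = true := ex3_b k0_pp_022_a k1_pp_022_a

theorem s4_pp_022_a : ∃ t, chk3 f_pp_022_a t 1 1 1 = true := ex3_a s3_pp_022_a k2_pp_022_a

theorem c_pp_022_a : CertB 0 536870912 0 536870912 536870912 50465866 3 eng mog cd1q0 cd2q2a pd2 true true true .pp 0 2 2
    ndB1q0 ndB2q2a pcB2 cut_pp_022_a Ext.none :=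
  certB0 (fam := true) (s1 := true) (s2 := true) (a := 0) (b := 2) (c := 2) (cn := .pp) (n1 := ndB1q0) (n2 := ndB2q2a) (pc := pcB2) (cut := cut_pp_022_a) (xt := Ext.none) (P1 := 0) (W1 := 536870912) (P2 := 0) (W2 := 536870912) (P3 := 536870912) (W3 := 50465866) (N0 := 3) (En := eng) (mo := mog) (C1 := cd1q0) (C2 := cd2q2a) (C3 := pd2)
    rfl s4_pp_022_a

noncomputable def cut_pp_022_b : Cut := Cut.of [[⟨0, 0, 0, 67108864⟩, ⟨1, 1, 0, 67108864⟩, ⟨2, 1, 0, 67108864⟩]]

noncomputable def f_pp_022_b : ℕ → ℕ → ℕ → ℕ → Bool := onCell 1073741824 536870912 1239849684 370763052 536870912 50465866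
    (rowB 3 eng mog cd1q0 cd2q2b pd2 2 true true true .pp 0 2 2 (qsf 0 536870912 1239849684 370763052 2) ndB1q0 ndB2q2b pcB2 cut_pp_022_b Ext.none)

def k0_pp_022_b : ∃ t, chk3 f_pp_022_b t 1 1 1 = true :=
  ⟨(a (b (a (l 1) (a (b (b (a (l 16465136) (a (l 16485312) (l 16474248))) (l 1)) (l 1)) (b (b (a (b (l 16458968) (l 16402096)) (l 16457808)) (a (b (l 16345464) (l 1)) (b (l 16373040) (l 16316880)))) (a (l 1) (b (l 16212680) (l 1)))))) (l 1)) (b (a (b (a (a (b (l 16466080) (b (l 16402896) (l 16346984))) (b (l 16580712) (l 16407520))) (a (b (l 16548152) (l 16441104)) (b (l 16577232) (l 16473880)))) (a (b (a (l 16347752) (l 16296984)) (a (l 1) (l 16188360))) (a (b (l 16331888) (l 16223888)) (b (l 16367232) (l 16260328))))) (a (b (a (l 16638624) (l 16683392)) (a (b (l 16401000) (l 16296144)) (l 16363936))) (a (a (b (l 16638712) (l 16402256)) (l 4)) (l 4)))) (a (a (l 1) (b (b (a (l 16117936) (l 16154888)) (l 16139016)) (l 1))) (a (b (a (l 16245624) (l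 16174712)) (a (l 1) (l 15978336))) (b (a (l 16208568) (l 4)) (a (l 16009192) (l 16049544))))))), by decide +kernel⟩

theorem c_pp_022_b : CertB 0 536870912 1239849684 370763052 536870912 50465866 3 eng mog cd1q0 cd2q2b pd2 true true true .pp 0 2 2
    ndB1q0 ndB2q2b pcB2 cut_pp_022_b Ext.none :=
  certB2 (fam := true) (s1 := true) (s2 := true) (a := 0) (b := 2) (c := 2) (cn := .pp) (n1 := ndB1q0) (n2 := ndB2q2b) (pc := pcB2) (cut := cut_pp_022_b) (xt := Ext.none) (P1 := 0) (W1 := 536870912) (P2 := 1239849684) (W2 := 370763052) (P3 := 536870912) (W3 := 50465866) (N0 := 3) (En := eng) (mo := mog) (C1 := cd1q0) (C2 := cd2q2b) (C3 := pd2)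
    rfl (fun _ => rfl) k0_pp_022_b

noncomputable def f_pp_023_a : ℕ → ℕ → ℕ → ℕ → Bool := onCell 1610612736 536870912 0 536870912 536870912 50465866
    (rowB 3 eng mog cd1q0 cd2q2a pd3 2 true true true .up 0 2 3 (qsf 0 536870912 0 536870912 3) ndB1q0 ndB2q2a pcB3 Cut.none Ext.none)

def k0_pp_023_a : ∃ t, chk3 f_pp_023_a t 1 1 1 = true :=
  ⟨(a (l 4) (l 2)), by decide +kernel⟩

theorem c_pp_023_a : CertB 0 536870912 0 536870912 536870912 50465866 3 eng mog cd1q0 cd2q2a pd3 true true true .up 0 2 3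
    ndB1q0 ndB2q2a pcB3 Cut.none Ext.none :=
  certB2 (fam := true) (s1 := true) (s2 := true) (a := 0) (b := 2) (c := 3) (cn := .up) (n1 := ndB1q0) (n2 := ndB2q2a) (pc := pcB3) (cut := Cut.none) (xt := Ext.none) (P1 := 0) (W1 := 536870912) (P2 := 0) (W2 := 536870912) (P3 := 536870912) (W3 := 50465866) (N0 := 3) (En := eng) (mo := mog) (C1 := cd1q0) (C2 := cd2q2a) (C3 := pd3)
    rfl (fun _ => rfl) k0_pp_023_a

noncomputable def f_pp_023_b : ℕ → ℕ → ℕ → ℕ → Bool := onCell 1610612736 536870912 1239849684 370763052 536870912 50465866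
    (rowB 3 eng mog cd1q0 cd2q2b pd3 2 true true true .up 0 2 3 (qsf 0 536870912 1239849684 370763052 3) ndB1q0 ndB2q2b pcB3 Cut.none Ext.none)

def k0_pp_023_b : ∃ t, chk3 f_pp_023_b t 1 1 1 = true :=
  ⟨(a (a (l 4) (l 4)) (l 4)), by decide +kernel⟩

theorem c_pp_023_b : CertB 0 536870912 1239849684 370763052 536870912 50465866 3 eng mog cd1q0 cd2q2b pd3 true true true .up 0 2 3
    ndB1q0 ndB2q2b pcB3 Cut.none Ext.none :=
  certB2 (fam := true) (s1 := true) (s2 := true) (a := 0) (b := 2) (c := 3) (cn := .up) (n1 := ndB1q0) (n2 := ndB2q2b) (pc := pcB3) (cut := Cut.none) (xt := Ext.none) (P1 := 0) (W1 := 536870912) (P2 := 1239849684) (W2 := 370763052) (P3 := 536870912) (W3 := 50465866) (N0 := 3) (En := eng) (mo := mog) (C1 := cd1q0) (C2 := cd2q2b) (C3 := pd3)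
    rfl (fun _ => rfl) k0_pp_023_b

noncomputable def f_pp_033 : ℕ → ℕ → ℕ → ℕ → Bool := onCell 0 536870912 1610612736 536870912 536870912 50465866
    (rowB 3 eng mog cd1q0 cd2q3 pd3 1 true true true .pnn 0 3 3 (qsf 0 536870912 1610612736 536870912 3) ndB1q0 ndB2q3 pcB3 Cut.none Ext.none)

def k0_pp_033 : ∃ t, chk3 f_pp_033 t 1 1 1 = true :=
  ⟨(b (b (a (l 4) (l 1)) (l 4)) (l 4)), by decide +kernel⟩

theorem c_pp_033 : CertB 0 536870912 1610612736 536870912 536870912 50465866 3 eng mog cd1q0 cd2q3 pd3 true true true .pnn 0 3 3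
    ndB1q0 ndB2q3 pcB3 Cut.none Ext.none :=
  certB1 (fam := true) (s1 := true) (s2 := true) (a := 0) (b := 3) (c := 3) (cn := .pnn) (n1 := ndB1q0) (n2 := ndB2q3) (pc := pcB3) (cut := Cut.none) (xt := Ext.none) (P1 := 0) (W1 := 536870912) (P2 := 1610612736) (W2 := 536870912) (P3 := 536870912) (W3 := 50465866) (N0 := 3) (En := eng) (mo := mog) (C1 := cd1q0) (C2 := cd2q3) (C3 := pd3)
    rfl (fun _ => rfl) k0_pp_033

noncomputable def f_pp_101 : ℕ → ℕ → ℕ → ℕ → Bool := onCell 536870912 536870912 0 536870912 536870912 50465866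
    (rowB 3 eng mog cd1q1 cd2q0 pd1 0 true true true .npn 1 0 1 (qsf 536870912 536870912 0 536870912 1) ndB1q1 ndB2q0 pcB1 Cut.none Ext.none)

def k0_pp_101 : ∃ t, chk3 f_pp_101 t 1 1 1 = true :=
  ⟨(l 4), by decide +kernel⟩

theorem c_pp_101 : CertB 536870912 536870912 0 536870912 536870912 50465866 3 eng mog cd1q1 cd2q0 pd1 true true true .npn 1 0 1
    ndB1q1 ndB2q0 pcB1 Cut.none Ext.none :=
  certB0 (fam := true) (s1 := true) (s2 := true) (a := 1) (b := 0) (c := 1) (cn := .npn) (n1 := ndB1q1) (n2 := ndB2q0) (pc := pcB1) (cut := Cut.none) (xt := Ext.none) (P1 := 536870912) (W1 := 536870912) (P2 := 0) (W2 := 536870912) (P3 := 536870912) (W3 := 50465866) (N0 := 3) (En := eng) (mo := mog) (C1 := cd1q1) (C2 := cd2q0) (C3 := pd1)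
    rfl k0_pp_101

noncomputable def f_pp_102 : ℕ → ℕ → ℕ → ℕ → Bool := onCell 536870912 536870912 0 536870912 536870912 50465866
    (rowB 3 eng mog cd1q1 cd2q0 pd2 0 true true true .npp 1 0 2 (qsf 536870912 536870912 0 536870912 2) ndB1q1 ndB2q0 pcB2 Cut.none Ext.none)

def k0_pp_102 : ∃ t, chk3 f_pp_102 t 1 1 1 = true :=
  ⟨(l 4), by decide +kernel⟩

theorem c_pp_102 : CertB 536870912 536870912 0 536870912 536870912 50465866 3 eng mog cd1q1 cd2q0 pd2 true true true .npp 1 0 2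
    ndB1q1 ndB2q0 pcB2 Cut.none Ext.none :=
  certB0 (fam := true) (s1 := true) (s2 := true) (a := 1) (b := 0) (c := 2) (cn := .npp) (n1 := ndB1q1) (n2 := ndB2q0) (pc := pcB2) (cut := Cut.none) (xt := Ext.none) (P1 := 536870912) (W1 := 536870912) (P2 := 0) (W2 := 536870912) (P3 := 536870912) (W3 := 50465866) (N0 := 3) (En := eng) (mo := mog) (C1 := cd1q1) (C2 := cd2q0) (C3 := pd2)
    rfl k0_pp_102

noncomputable def f_pp_112 : ℕ → ℕ → ℕ → ℕ → Bool := onCell 536870912 536870912 536870912 536870912 536870912 50465866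
    (rowB 3 eng mog cd1q1 cd2q1 pd2 0 true true true .dn 1 1 2 (qsf 536870912 536870912 536870912 536870912 2) ndB1q1 ndB2q1 pcB2 Cut.none Ext.none)

def k0_pp_112 : ∃ t, chk3 f_pp_112 t 1 1 1 = true :=
  ⟨(l 4), by decide +kernel⟩

theorem c_pp_112 : CertB 536870912 536870912 536870912 536870912 536870912 50465866 3 eng mog cd1q1 cd2q1 pd2 true true true .dn 1 1 2
    ndB1q1 ndB2q1 pcB2 Cut.none Ext.none :=
  certB0 (fam := true) (s1 := true) (s2 := true) (a := 1) (b := 1) (c := 2) (cn := .dn) (n1 := ndB1q1) (n2 := ndB2q1) (pc := pcB2) (cut := Cut.none) (xt := Ext.none) (P1 := 536870912) (W1 := 536870912) (P2 := 536870912) (W2 := 536870912) (P3 := 536870912) (W3 := 50465866) (N0 := 3) (En := eng) (mo := mog) (C1 := cd1q1) (C2 := cd2q1) (C3 := pd2)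
    rfl k0_pp_112

noncomputable def f_pp_113 : ℕ → ℕ → ℕ → ℕ → Bool := onCell 536870912 536870912 536870912 536870912 536870912 50465866
    (rowB 3 eng mog cd1q1 cd2q1 pd3 0 true true true .nn 1 1 3 (qsf 536870912 536870912 536870912 536870912 3) ndB1q1 ndB2q1 pcB3 Cut.none Ext.none)

def k0_pp_113 : ∃ t, chk3 f_pp_113 t 1 1 1 = true :=
  ⟨(l 4), by decide +kernel⟩

theorem c_pp_113 : CertB 536870912 536870912 536870912 536870912 536870912 50465866 3 eng mog cd1q1 cd2q1 pd3 true true true .nn 1 1 3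
    ndB1q1 ndB2q1 pcB3 Cut.none Ext.none :=
  certB0 (fam := true) (s1 := true) (s2 := true) (a := 1) (b := 1) (c := 3) (cn := .nn) (n1 := ndB1q1) (n2 := ndB2q1) (pc := pcB3) (cut := Cut.none) (xt := Ext.none) (P1 := 536870912) (W1 := 536870912) (P2 := 536870912) (W2 := 536870912) (P3 := 536870912) (W3 := 50465866) (N0 := 3) (En := eng) (mo := mog) (C1 := cd1q1) (C2 := cd2q1) (C3 := pd3)
    rfl k0_pp_113

noncomputable def f_pp_123_a : ℕ → ℕ → ℕ → ℕ → Bool := onCell 536870912 536870912 0 536870912 536870912 50465866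
    (rowB 3 eng mog cd1q1 cd2q2a pd3 0 true true true .npn 1 2 3 (qsf 536870912 536870912 0 536870912 3) ndB1q1 ndB2q2a pcB3 Cut.none Ext.none)

def k0_pp_123_a : ∃ t, chk3 f_pp_123_a t 1 1 1 = true :=
  ⟨(l 4), by decide +kernel⟩

theorem c_pp_123_a : CertB 536870912 536870912 0 536870912 536870912 50465866 3 eng mog cd1q1 cd2q2a pd3 true true true .npn 1 2 3
    ndB1q1 ndB2q2a pcB3 Cut.none Ext.none :=
  certB0 (fam := true) (s1 := true) (s2 := true) (a := 1) (b := 2) (c := 3) (cn := .npn) (n1 := ndB1q1) (n2 := ndB2q2a) (pc := pcB3) (cut := Cut.none) (xt := Ext.none) (P1 := 536870912) (W1 := 536870912) (P2 := 0) (W2 := 536870912) (P3 := 536870912) (W3 := 50465866) (N0 := 3) (En := eng) (mo := mog) (C1 := cd1q1) (C2 := cd2q2a) (C3 := pd3)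
    rfl k0_pp_123_a

noncomputable def f_pp_123_b : ℕ → ℕ → ℕ → ℕ → Bool := onCell 536870912 536870912 1239849684 370763052 536870912 50465866
    (rowB 3 eng mog cd1q1 cd2q2b pd3 0 true true true .npn 1 2 3 (qsf 536870912 536870912 1239849684 370763052 3) ndB1q1 ndB2q2b pcB3 Cut.none Ext.none)

def k0_pp_123_b : ∃ t, chk3 f_pp_123_b t 1 1 1 = true :=
  ⟨(l 4), by decide +kernel⟩

theorem c_pp_123_b : CertB 536870912 536870912 1239849684 370763052 536870912 50465866 3 eng mog cd1q1 cd2q2b pd3 true true true .npn 1 2 3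
    ndB1q1 ndB2q2b pcB3 Cut.none Ext.none :=
  certB0 (fam := true) (s1 := true) (s2 := true) (a := 1) (b := 2) (c := 3) (cn := .npn) (n1 := ndB1q1) (n2 := ndB2q2b) (pc := pcB3) (cut := Cut.none) (xt := Ext.none) (P1 := 536870912) (W1 := 536870912) (P2 := 1239849684) (W2 := 370763052) (P3 := 536870912) (W3 := 50465866) (N0 := 3) (En := eng) (mo := mog) (C1 := cd1q1) (C2 := cd2q2b) (C3 := pd3)
    rfl k0_pp_123_b

noncomputable def f_pp_133 : ℕ → ℕ → ℕ → ℕ → Bool := onCell 536870912 536870912 1610612736 536870912 536870912 50465866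
    (rowB 3 eng mog cd1q1 cd2q3 pd3 0 true true true .dn 1 3 3 (qsf 536870912 536870912 1610612736 536870912 3) ndB1q1 ndB2q3 pcB3 Cut.none Ext.none)

def k0_pp_133 : ∃ t, chk3 f_pp_133 t 1 1 1 = true :=
  ⟨(l 4), by decide +kernel⟩

theorem c_pp_133 : CertB 536870912 536870912 1610612736 536870912 536870912 50465866 3 eng mog cd1q1 cd2q3 pd3 true true true .dn 1 3 3
    ndB1q1 ndB2q3 pcB3 Cut.none Ext.none :=
  certB0 (fam := true) (s1 := true) (s2 := true) (a := 1) (b := 3) (c := 3) (cn := .dn) (n1 := ndB1q1) (n2 := ndB2q3) (pc := pcB3) (cut := Cut.none) (xt := Ext.none) (P1 := 536870912) (W1 := 536870912) (P2 := 1610612736) (W2 := 536870912) (P3 := 536870912) (W3 := 50465866) (N0 := 3) (En := eng) (mo := mog) (C1 := cd1q1) (C2 := cd2q3) (C3 := pd3)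
    rfl k0_pp_133

noncomputable def f_pp_202_a : ℕ → ℕ → ℕ → ℕ → Bool := onCell 0 536870912 0 536870912 536870912 50465866
    (rowB 3 eng mog cd1q2a cd2q0 pd2 0 true true true .pp 2 0 2 (qsf 0 536870912 0 536870912 2) ndB1q2a ndB2q0 pcB2 Cut.none Ext.none)

def k0_pp_202_a : ∃ t, chk3 f_pp_202_a t 1 1 1 = true :=
  ⟨(l 5), by decide +kernel⟩

theorem c_pp_202_a : CertB 0 536870912 0 536870912 536870912 50465866 3 eng mog cd1q2a cd2q0 pd2 true true true .pp 2 0 2
    ndB1q2a ndB2q0 pcB2 Cut.none Ext.none :=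
  certB0 (fam := true) (s1 := true) (s2 := true) (a := 2) (b := 0) (c := 2) (cn := .pp) (n1 := ndB1q2a) (n2 := ndB2q0) (pc := pcB2) (cut := Cut.none) (xt := Ext.none) (P1 := 0) (W1 := 536870912) (P2 := 0) (W2 := 536870912) (P3 := 536870912) (W3 := 50465866) (N0 := 3) (En := eng) (mo := mog) (C1 := cd1q2a) (C2 := cd2q0) (C3 := pd2)
    rfl k0_pp_202_a

noncomputable def f_pp_202_b : ℕ → ℕ → ℕ → ℕ → Bool := onCell 1239849684 370763052 0 536870912 536870912 50465866
    (rowB 3 eng mog cd1q2b cd2q0 pd2 0 true true true .pp 2 0 2 (qsf 1239849684 370763052 0 536870912 2) ndB1q2b ndB2q0 pcB2 Cut.none Ext.none)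

def k0_pp_202_b : ∃ t, chk3 f_pp_202_b t 1 1 1 = true :=
  ⟨(l 5), by decide +kernel⟩

theorem c_pp_202_b : CertB 1239849684 370763052 0 536870912 536870912 50465866 3 eng mog cd1q2b cd2q0 pd2 true true true .pp 2 0 2
    ndB1q2b ndB2q0 pcB2 Cut.none Ext.none :=
  certB0 (fam := true) (s1 := true) (s2 := true) (a := 2) (b := 0) (c := 2) (cn := .pp) (n1 := ndB1q2b) (n2 := ndB2q0) (pc := pcB2) (cut := Cut.none) (xt := Ext.none) (P1 := 1239849684) (W1 := 370763052) (P2 := 0) (W2 := 536870912) (P3 := 536870912) (W3 := 50465866) (N0 := 3) (En := eng) (mo := mog) (C1 := cd1q2b) (C2 := cd2q0) (C3 := pd2)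
    rfl k0_pp_202_b

noncomputable def f_pp_203_a : ℕ → ℕ → ℕ → ℕ → Bool := onCell 0 536870912 0 536870912 536870912 50465866
    (rowB 3 eng mog cd1q2a cd2q0 pd3 0 true true true .up 2 0 3 (qsf 0 536870912 0 536870912 3) ndB1q2a ndB2q0 pcB3 Cut.none Ext.none)

def k0_pp_203_a : ∃ t, chk3 f_pp_203_a t 1 1 1 = true :=
  ⟨(l 5), by decide +kernel⟩

theorem c_pp_203_a : CertB 0 536870912 0 536870912 536870912 50465866 3 eng mog cd1q2a cd2q0 pd3 true true true .up 2 0 3
    ndB1q2a ndB2q0 pcB3 Cut.none Ext.none :=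
  certB0 (fam := true) (s1 := true) (s2 := true) (a := 2) (b := 0) (c := 3) (cn := .up) (n1 := ndB1q2a) (n2 := ndB2q0) (pc := pcB3) (cut := Cut.none) (xt := Ext.none) (P1 := 0) (W1 := 536870912) (P2 := 0) (W2 := 536870912) (P3 := 536870912) (W3 := 50465866) (N0 := 3) (En := eng) (mo := mog) (C1 := cd1q2a) (C2 := cd2q0) (C3 := pd3)
    rfl k0_pp_203_a

noncomputable def f_pp_203_b : ℕ → ℕ → ℕ → ℕ → Bool := onCell 1239849684 370763052 0 536870912 536870912 50465866
    (rowB 3 eng mog cd1q2b cd2q0 pd3 0 true true true .up 2 0 3 (qsf 1239849684 370763052 0 536870912 3) ndB1q2b ndB2q0 pcB3 Cut.none Ext.none)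

def k0_pp_203_b : ∃ t, chk3 f_pp_203_b t 1 1 1 = true :=
  ⟨(l 5), by decide +kernel⟩

theorem c_pp_203_b : CertB 1239849684 370763052 0 536870912 536870912 50465866 3 eng mog cd1q2b cd2q0 pd3 true true true .up 2 0 3
    ndB1q2b ndB2q0 pcB3 Cut.none Ext.none :=
  certB0 (fam := true) (s1 := true) (s2 := true) (a := 2) (b := 0) (c := 3) (cn := .up) (n1 := ndB1q2b) (n2 := ndB2q0) (pc := pcB3) (cut := Cut.none) (xt := Ext.none) (P1 := 1239849684) (W1 := 370763052) (P2 := 0) (W2 := 536870912) (P3 := 536870912) (W3 := 50465866) (N0 := 3) (En := eng) (mo := mog) (C1 := cd1q2b) (C2 := cd2q0) (C3 := pd3)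
    rfl k0_pp_203_b

noncomputable def f_pp_213_a : ℕ → ℕ → ℕ → ℕ → Bool := onCell 0 536870912 536870912 536870912 536870912 50465866
    (rowB 3 eng mog cd1q2a cd2q1 pd3 0 true true true .pnn 2 1 3 (qsf 0 536870912 536870912 536870912 3) ndB1q2a ndB2q1 pcB3 Cut.none Ext.none)

def k0_pp_213_a : ∃ t, chk3 f_pp_213_a t 1 1 1 = true :=
  ⟨(l 4), by decide +kernel⟩

theorem c_pp_213_a : CertB 0 536870912 536870912 536870912 536870912 50465866 3 eng mog cd1q2a cd2q1 pd3 true true true .pnn 2 1 3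
    ndB1q2a ndB2q1 pcB3 Cut.none Ext.none :=
  certB0 (fam := true) (s1 := true) (s2 := true) (a := 2) (b := 1) (c := 3) (cn := .pnn) (n1 := ndB1q2a) (n2 := ndB2q1) (pc := pcB3) (cut := Cut.none) (xt := Ext.none) (P1 := 0) (W1 := 536870912) (P2 := 536870912) (W2 := 536870912) (P3 := 536870912) (W3 := 50465866) (N0 := 3) (En := eng) (mo := mog) (C1 := cd1q2a) (C2 := cd2q1) (C3 := pd3)
    rfl k0_pp_213_a

noncomputable def f_pp_213_b : ℕ → ℕ → ℕ → ℕ → Bool := onCell 1239849684 370763052 536870912 536870912 536870912 50465866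
    (rowB 3 eng mog cd1q2b cd2q1 pd3 0 true true true .pnn 2 1 3 (qsf 1239849684 370763052 536870912 536870912 3) ndB1q2b ndB2q1 pcB3 Cut.none Ext.none)

def k0_pp_213_b : ∃ t, chk3 f_pp_213_b t 1 1 1 = true :=
  ⟨(l 4), by decide +kernel⟩

theorem c_pp_213_b : CertB 1239849684 370763052 536870912 536870912 536870912 50465866 3 eng mog cd1q2b cd2q1 pd3 true true true .pnn 2 1 3
    ndB1q2b ndB2q1 pcB3 Cut.none Ext.none :=
  certB0 (fam := true) (s1 := true) (s2 := true) (a := 2) (b := 1) (c := 3) (cn := .pnn) (n1 := ndB1q2b) (n2 := ndB2q1) (pc := pcB3) (cut := Cut.none) (xt := Ext.none) (P1 := 1239849684) (W1 := 370763052) (P2 := 536870912) (W2 := 536870912) (P3 := 536870912) (W3 := 50465866) (N0 := 3) (En := eng) (mo := mog) (C1 := cd1q2b) (C2 := cd2q1) (C3 := pd3)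
    rfl k0_pp_213_b

noncomputable def f_pp_303 : ℕ → ℕ → ℕ → ℕ → Bool := onCell 1610612736 536870912 0 536870912 536870912 50465866
    (rowB 3 eng mog cd1q3 cd2q0 pd3 0 true true true .npn 3 0 3 (qsf 1610612736 536870912 0 536870912 3) ndB1q3 ndB2q0 pcB3 Cut.none Ext.none)

def k0_pp_303 : ∃ t, chk3 f_pp_303 t 1 1 1 = true :=
  ⟨(l 5), by decide +kernel⟩

theorem c_pp_303 : CertB 1610612736 536870912 0 536870912 536870912 50465866 3 eng mog cd1q3 cd2q0 pd3 true true true .npn 3 0 3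
    ndB1q3 ndB2q0 pcB3 Cut.none Ext.none :=
  certB0 (fam := true) (s1 := true) (s2 := true) (a := 3) (b := 0) (c := 3) (cn := .npn) (n1 := ndB1q3) (n2 := ndB2q0) (pc := pcB3) (cut := Cut.none) (xt := Ext.none) (P1 := 1610612736) (W1 := 536870912) (P2 := 0) (W2 := 536870912) (P3 := 536870912) (W3 := 50465866) (N0 := 3) (En := eng) (mo := mog) (C1 := cd1q3) (C2 := cd2q0) (C3 := pd3)
    rfl k0_pp_303

noncomputable def f_pp_313 : ℕ → ℕ → ℕ → ℕ → Bool := onCell 1610612736 536870912 536870912 536870912 536870912 50465866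
    (rowB 3 eng mog cd1q3 cd2q1 pd3 0 true true true .dn 3 1 3 (qsf 1610612736 536870912 536870912 536870912 3) ndB1q3 ndB2q1 pcB3 Cut.none Ext.none)

def k0_pp_313 : ∃ t, chk3 f_pp_313 t 1 1 1 = true :=
  ⟨(l 4), by decide +kernel⟩

theorem c_pp_313 : CertB 1610612736 536870912 536870912 536870912 536870912 50465866 3 eng mog cd1q3 cd2q1 pd3 true true true .dn 3 1 3
    ndB1q3 ndB2q1 pcB3 Cut.none Ext.none :=
  certB0 (fam := true) (s1 := true) (s2 := true) (a := 3) (b := 1) (c := 3) (cn := .dn) (n1 := ndB1q3) (n2 := ndB2q1) (pc := pcB3) (cut := Cut.none) (xt := Ext.none) (P1 := 1610612736) (W1 := 536870912) (P2 := 536870912) (W2 := 536870912) (P3 := 536870912) (W3 := 50465866) (N0 := 3) (En := eng) (mo := mog) (C1 := cd1q3) (C2 := cd2q1) (C3 := pd3)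
    rfl k0_pp_313

noncomputable def f_pm_001 : ℕ → ℕ → ℕ → ℕ → Bool := onCell 0 536870912 0 536870912 536870912 50465866
    (rowB 3 eng mog cd1q0 cd2q0 pd1 0 true true false .up 0 0 1 (qsf 0 536870912 0 536870912 1) ndB1q0 ndB2q0 pcB1 Cut.none Ext.none)

def k0_pm_001 : ∃ t, chk3 f_pm_001 t 1 1 1 = true :=
  ⟨(l 3), by decide +kernel⟩

theorem c_pm_001 : CertB 0 536870912 0 536870912 536870912 50465866 3 eng mog cd1q0 cd2q0 pd1 true true false .up 0 0 1
    ndB1q0 ndB2q0 pcB1 Cut.none Ext.none :=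
  certB0 (fam := true) (s1 := true) (s2 := false) (a := 0) (b := 0) (c := 1) (cn := .up) (n1 := ndB1q0) (n2 := ndB2q0) (pc := pcB1) (cut := Cut.none) (xt := Ext.none) (P1 := 0) (W1 := 536870912) (P2 := 0) (W2 := 536870912) (P3 := 536870912) (W3 := 50465866) (N0 := 3) (En := eng) (mo := mog) (C1 := cd1q0) (C2 := cd2q0) (C3 := pd1)
    rfl k0_pm_001

noncomputable def f_pm_011 : ℕ → ℕ → ℕ → ℕ → Bool := onCell 0 536870912 536870912 536870912 536870912 50465866
    (rowB 3 eng mog cd1q0 cd2q1 pd1 1 true true false .pnn 0 1 1 (qsf 0 536870912 536870912 536870912 1) ndB1q0 ndB2q1 pcB1 Cut.none Ext.none)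

def k0_pm_011 : ∃ t, chk3 f_pm_011 t 1 1 1 = true :=
  ⟨(l 3), by decide +kernel⟩

theorem c_pm_011 : CertB 0 536870912 536870912 536870912 536870912 50465866 3 eng mog cd1q0 cd2q1 pd1 true true false .pnn 0 1 1
    ndB1q0 ndB2q1 pcB1 Cut.none Ext.none :=
  certB1 (fam := true) (s1 := true) (s2 := false) (a := 0) (b := 1) (c := 1) (cn := .pnn) (n1 := ndB1q0) (n2 := ndB2q1) (pc := pcB1) (cut := Cut.none) (xt := Ext.none) (P1 := 0) (W1 := 536870912) (P2 := 536870912) (W2 := 536870912) (P3 := 536870912) (W3 := 50465866) (N0 := 3) (En := eng) (mo := mog) (C1 := cd1q0) (C2 := cd2q1) (C3 := pd1)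
    rfl (fun _ => rfl) k0_pm_011

noncomputable def f_pm_012 : ℕ → ℕ → ℕ → ℕ → Bool := onCell 1073741824 536870912 536870912 536870912 536870912 50465866
    (rowB 3 eng mog cd1q0 cd2q1 pd2 2 true true false .pnp 0 1 2 (qsf 0 536870912 536870912 536870912 2) ndB1q0 ndB2q1 pcB2 Cut.none Ext.none)

def k0_pm_012 : ∃ t, chk3 f_pm_012 t 1 1 1 = true :=
  ⟨(a (a (b (l 3) (l 3)) (a (b (b (a (a (b (l 2) (l 326048291367)) (l 2)) (l 2)) (a (a (l 3) (a (b (b (l 16628208) (l 16639168)) (l 3)) (a (b (b (l 16630792) (l 16639688)) (l 16636136)) (b (a (b (l 16634176) (l 16641888)) (l 16639056)) (a (l 16636992) (l 16636592)))))) (b (l 16641832) (l 16634688)))) (a (a (l 3) (a (b (l 3) (b (l 3) (b (l 3) (l 11978689799)))) (b (a (b (l 3) (l 3)) (b (a (l 16622744) (l 16621944)) (a (l 3) (l 16600176)))) (a (b (l 3) (b (l 16556432) (l 16583992))) (b (a (b (l 16581320) (l 16587456)) (b (l 16579760) (l 16564592))) (a (b (l 16615136) (l 16621544)) (b (l 16550176) (l 16535264))))))))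 (b (b (l 16616488) (l 16590424)) (b (l 16600208) (b (l 16531768) (l 16514752)))))) (b (b (l 2) (b (l 16675960) (l 16636624))) (b (b (l 16609016) (l 16571832)) (b (b (l 16538304) (l 16514392)) (b (l 16489592) (l 16465040))))))) (a (b (b (l 2) (b (l 2) (a (l 16656600) (l 2)))) (b (b (a (l 16618264) (l 16650440)) (a (l 16568176) (l 16589448))) (b (a (l 16506704) (l 16513608)) (a (b (l 16455200) (l 16420480)) (l 16425856))))) (b (l 2) (b (b (l 2) (l 16671824)) (b (l 16576896) (b (l 16492632) (l 16431640))))))), by decide +kernel⟩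

theorem c_pm_012 : CertB 0 536870912 536870912 536870912 536870912 50465866 3 eng mog cd1q0 cd2q1 pd2 true true false .pnp 0 1 2
    ndB1q0 ndB2q1 pcB2 Cut.none Ext.none :=
  certB2 (fam := true) (s1 := true) (s2 := false) (a := 0) (b := 1) (c := 2) (cn := .pnp) (n1 := ndB1q0) (n2 := ndB2q1) (pc := pcB2) (cut := Cut.none) (xt := Ext.none) (P1 := 0) (W1 := 536870912) (P2 := 536870912) (W2 := 536870912) (P3 := 536870912) (W3 := 50465866) (N0 := 3) (En := eng) (mo := mog) (C1 := cd1q0) (C2 := cd2q1) (C3 := pd2)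
    rfl (fun _ => rfl) k0_pm_012

noncomputable def cut_pm_022_a : Cut := Cut.of [[⟨0, 0, 0, 67108864⟩, ⟨1, 1, 0, 67108864⟩, ⟨2, 1, 0, 67108864⟩]]

noncomputable def f_pm_022_a : ℕ → ℕ → ℕ → ℕ → Bool := onCell 1073741824 536870912 0 536870912 536870912 50465866
    (rowB 3 eng mog cd1q0 cd2q2a pd2 2 true true false .pp 0 2 2 (qsf 0 536870912 0 536870912 2) ndB1q0 ndB2q2a pcB2 cut_pm_022_a Ext.none)

def k0_pm_022_a : ∃ t, chk3 f_pm_022_a t 2 2 1 = true :=
  ⟨(a (a (l 1) (b (l 1) (a (l 1) (b (l 1) (a (l 1) (b (l 1) (l 47814613879))))))) (a (b (a (a (l 1) (a (b (l 1) (a (l 1) (l 16609888))) (b (b (l 16457152) (a (l 1) (l 16584824))) (a (l 16597632) (b (l 16591176) (l 16600440)))))) (a (b (l 16518344) (c (l 16463520) (l 16574168))) (b (l 16456560) (l 16488528)))) (a (a (b (b (l 16494088) (l 16505016)) (b (a (l 16517904) (l 16514744)) (a (l 16530128) (l 16526544)))) (a (b (b (l 16489720) (l 16500480)) (b (l 16511384) (l 16522792))) (b (a (b (l 16487328)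 (l 16498032)) (c (a (l 16490568) (l 16489624)) (b (l 16485864) (l 16496184)))) (a (l 16514544) (b (a (l 16507480) (l 16506760)) (l 16623192)))))) (a (b (c (l 16486912) (l 16510016)) (c (l 16508128) (l 16509352))) (b (b (l 16483256) (l 16493048)) (l 16506952))))) (b (b (a (l 16460400) (l 16467688)) (a (c (l 16467816) (l 16471360)) (l 16476208))) (b (a (b (l 16484856) (l 16493464)) (l 16492584)) (a (l 16525656) (l 16503112)))))), by decide +kernel⟩

def k1_pm_022_a : ∃ t, chk3 f_pm_022_a t 8 3 1 = true :=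
  ⟨(b (l 1) (b (a (l 1) (b (a (l 1) (a (l 1) (b (l 1) (a (b (l 1) (l 6)) (b (l 16650784) (l 16655656)))))) (a (l 6) (a (l 6) (a (l 6) (a (l 6) (b (l 16662184) (l 16656000)))))))) (a (l 6) (a (l 6) (a (l 6) (a (l 6) (b (b (l 16681968) (l 16691408)) (b (l 16700952) (l 16710184))))))))), by decide +kernel⟩

def k2_pm_022_a : ∃ t, chk3 f_pm_022_a t 9 3 1 = true :=
  ⟨(b (b (a (l 1) (a (b (l 20971116103) (a (l 16572984) (l 16569008))) (b (a (l 16550536) (l 16546832)) (a (l 16564872) (l 16560560))))) (a (a (b (l 1) (a (l 1) (b (l 16615648) (a (l 16626080) (l 16623496))))) (b (a (b (l 1) (l 16602072)) (b (l 16589160) (l 16597512))) (a (b (l 46740986327) (l 16619560)) (b (l 16605864) (l 16614184))))) (a (b (a (b (l 16584816) (l 16592792)) (l 16584208)) (a (l 16604800) (b (l 16595480) (l 16602984)))) (b (a (l 16579376) (l 16574384)) (a (l 16593728) (l 16587984)))))) (b (a (b (a (a (b (a (l 16640768) (l 70363361479)) (b (l 131029795159) (l 16651176))) (b (a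 (l 16635280) (l 16632480)) (l 16642864))) (b (a (l 16628208) (l 16622400)) (a (a (l 16638272) (l 16635176)) (l 16630472)))) (a (b (a (l 16658248) (c (l 16652368) (l 16650936))) (a (c (l 16667888) (l 16666832)) (l 16660664))) (b (l 16641952) (l 16650128)))) (b (a (b (l 16608176) (l 16620816)) (l 16604352)) (a (l 16632328) (l 16620272)))) (b (a (b (a (l 16704392) (l 16659224)) (a (l 16703424) (l 16668560))) (a (b (l 16646144) (l 16655136)) (l 16700832))) (c (a (b (a (l 16693024) (l 16679336)) (a (l 16723600) (l 16688624))) (b (a (l 16666072) (l 16653192)) (a (l 16674992) (l 16662128)))) (a (b (a (l 16690896) (l 16676248)) (a (l 16720368) (l 16684472))) (b (a (l 16662024) (l 16648192)) (a (l 16669952) (l 16656000)))))))), by decide +kernel⟩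

def k3_pm_022_a : ∃ t, chk3 f_pm_022_a t 5 3 1 = true :=
  ⟨(a (b (a (a (b (b (l 16540968) (l 16637704)) (b (l 16566656) (l 16579152))) (a (b (b (l 16534640) (l 16546664)) (l 16564688)) (a (b (l 16537568) (l 16560400)) (b (b (l 16613616) (l 16541208)) (b (l 16552472) (l 16563192)))))) (b (a (l 16558216) (l 16525544)) (a (l 16551336) (l 16542904)))) (a (b (a (b (l 16591136) (l 16608640)) (a (l 16623672) (a (l 16609072) (b (l 16596952) (l 16697056))))) (a (b (l 16709488) (b (l 16638192) (l 16646720))) (a (b (l 16679960) (l 16634168)) (a (b (l 16613000) (l 16629880)) (a (b (l 16610816) (l 16627448)) (b (l 16692880) (b (l 16621376) (l 16650136)))))))) (b (b (l 16606248) (l 16686184)) (b (a (l 16687512) (l 16592912)) (a (b (l 16615656) (l 16644192)) (l 16608232)))))) (b (b (a (l 16518920) (l 16510512)) (a (l 16530376) (l 16512832))) (b (b (l 16556696) (l 16656976)) (b (a (l 16577328) (l 16557720)) (a (l 16612728) (l 16571520)))))), by decide +kernel⟩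

def k4_pm_022_a : ∃ t, chk3 f_pm_022_a t 3 1 1 = true :=
  ⟨(a (b (b (a (a (b (l 16476480) (l 16483384)) (b (l 16484648) (l 16490192))) (b (l 16575184) (l 16599352))) (a (b (a (l 16496976) (l 16501712)) (l 16564192)) (b (a (l 16504480) (l 16501272)) (l 16597944)))) (b (a (b (l 16476352) (l 16485560)) (b (l 16473736) (l 16461512))) (a (b (a (l 16518864) (l 16504200)) (a (b (l 16540600) (l 16554896)) (l 16596920))) (b (l 16597184) (a (l 16606704) (l 16517792)))))) (a (b (b (l 16467784) (b (l 16490968) (l 16468424))) (b (l 16585600) (b (l 16501728) (b (l 16522736) (l 16537192))))) (b (a (b (l 16476248) (l 16453024)) (b (l 16475504) (l 16532456))) (b (a (l 16482152) (b (l 16460376) (l 16496792))) (a (b (l 16528080) (l 16562120)) (b (l 16535000) (a (l 16580448) (l 16571584)))))))), by decide +kernel⟩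

theorem s5_pm_022_a : ∃ t, chk3 f_pm_022_a t 4 3 1 = true := ex3_a k1_pm_022_a k2_pm_022_a

theorem s6_pm_022_a : ∃ t, chk3 f_pm_022_a t 2 3 1 = true := ex3_a s5_pm_022_a k3_pm_022_a

theorem s7_pm_022_a : ∃ t, chk3 f_pm_022_a t 2 1 1 = true := ex3_b k0_pm_022_a s6_pm_022_a

theorem s8_pm_022_a : ∃ t, chk3 f_pm_022_a t 1 1 1 = true := ex3_a s7_pm_022_a k4_pm_022_a

theorem c_pm_022_a : CertB 0 536870912 0 536870912 536870912 50465866 3 eng mog cd1q0 cd2q2a pd2 true true false .pp 0 2 2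
    ndB1q0 ndB2q2a pcB2 cut_pm_022_a Ext.none :=
  certB2 (fam := true) (s1 := true) (s2 := false) (a := 0) (b := 2) (c := 2) (cn := .pp) (n1 := ndB1q0) (n2 := ndB2q2a) (pc := pcB2) (cut := cut_pm_022_a) (xt := Ext.none) (P1 := 0) (W1 := 536870912) (P2 := 0) (W2 := 536870912) (P3 := 536870912) (W3 := 50465866) (N0 := 3) (En := eng) (mo := mog) (C1 := cd1q0) (C2 := cd2q2a) (C3 := pd2)
    rfl (fun _ => rfl) s8_pm_022_a

noncomputable def cut_pm_022_b : Cut := Cut.of [[⟨0, 0, 0, 67108864⟩, ⟨1, 1, 0, 67108864⟩, ⟨2, 1, 0, 67108864⟩]]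

noncomputable def f_pm_022_b : ℕ → ℕ → ℕ → ℕ → Bool := onCell 1073741824 536870912 1239849684 370763052 536870912 50465866
    (rowB 3 eng mog cd1q0 cd2q2b pd2 2 true true false .pp 0 2 2 (qsf 0 536870912 1239849684 370763052 2) ndB1q0 ndB2q2b pcB2 cut_pm_022_b Ext.none)

def k0_pm_022_b : ∃ t, chk3 f_pm_022_b t 1 1 1 = true :=
  ⟨(a (b (a (l 1) (a (b (a (a (l 1) (b (l 16463712) (l 1))) (b (a (b (l 16499688) (l 1)) (b (l 16439224) (l 16468008))) (l 1))) (l 1)) (b (b (a (b (l 16445200) (l 16413872)) (l 16462776)) (a (b (l 16380376) (l 1)) (b (l 16397768) (l 16365968)))) (a (l 1) (b (l 22581181671) (l 1)))))) (l 1)) (b (a (a (b (a (b (l 16455264) (l 16402880)) (b (l 16469064) (l 16424120))) (a (b (l 81637125351) (l 1)) (b (l 16371312) (l 16312208)))) (b (a (b (l 16480656) (l 16443800)) (l 16475384)) (a (b (l 16397752) (l 16345160)) (l 16397816)))) (a (b (b (l 16495312) (l 16480040)) (l 16455264)) (b (a (l 16500176) (l 16511040)) (a (l 16467320) (l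 16493136))))) (a (b (a (l 1) (a (b (l 16287952) (l 1)) (l 76268243191))) (l 1)) (a (b (b (l 16371184) (l 16323928)) (b (l 158946222023) (l 1))) (a (b (l 16398344) (l 16312488)) (b (l 16436072) (l 16361112))))))), by decide +kernel⟩

theorem c_pm_022_b : CertB 0 536870912 1239849684 370763052 536870912 50465866 3 eng mog cd1q0 cd2q2b pd2 true true false .pp 0 2 2
    ndB1q0 ndB2q2b pcB2 cut_pm_022_b Ext.none :=
  certB2 (fam := true) (s1 := true) (s2 := false) (a := 0) (b := 2) (c := 2) (cn := .pp) (n1 := ndB1q0) (n2 := ndB2q2b) (pc := pcB2) (cut := cut_pm_022_b) (xt := Ext.none) (P1 := 0) (W1 := 536870912) (P2 := 1239849684) (W2 := 370763052) (P3 := 536870912) (W3 := 50465866) (N0 := 3) (En := eng) (mo := mog) (C1 := cd1q0) (C2 := cd2q2b) (C3 := pd2)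
    rfl (fun _ => rfl) k0_pm_022_b

noncomputable def f_pm_023_a : ℕ → ℕ → ℕ → ℕ → Bool := onCell 1610612736 536870912 0 536870912 536870912 50465866
    (rowB 3 eng mog cd1q0 cd2q2a pd3 2 true true false .up 0 2 3 (qsf 0 536870912 0 536870912 3) ndB1q0 ndB2q2a pcB3 Cut.none Ext.none)

def k0_pm_023_a : ∃ t, chk3 f_pm_023_a t 1 1 1 = true :=
  ⟨(a (a (a (b (b (a (l 16468016) (l 16518160)) (a (l 16481152) (l 16504160))) (b (a (l 16595384) (l 16558048)) (a (b (l 16572768) (l 16605744)) (l 131096896919)))) (b (b (l 16614704) (l 16597776)) (b (a (l 16563752) (l 16627400)) (a (l 111769463335) (l 2))))) (b (a (b (l 16696456) (l 16688992)) (l 2)) (b (l 2) (l 2)))) (l 2)), by decide +kernel⟩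

theorem c_pm_023_a : CertB 0 536870912 0 536870912 536870912 50465866 3 eng mog cd1q0 cd2q2a pd3 true true false .up 0 2 3
    ndB1q0 ndB2q2a pcB3 Cut.none Ext.none :=
  certB2 (fam := true) (s1 := true) (s2 := false) (a := 0) (b := 2) (c := 3) (cn := .up) (n1 := ndB1q0) (n2 := ndB2q2a) (pc := pcB3) (cut := Cut.none) (xt := Ext.none) (P1 := 0) (W1 := 536870912) (P2 := 0) (W2 := 536870912) (P3 := 536870912) (W3 := 50465866) (N0 := 3) (En := eng) (mo := mog) (C1 := cd1q0) (C2 := cd2q2a) (C3 := pd3)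
    rfl (fun _ => rfl) k0_pm_023_a

noncomputable def f_pm_023_b : ℕ → ℕ → ℕ → ℕ → Bool := onCell 1610612736 536870912 1239849684 370763052 536870912 50465866
    (rowB 3 eng mog cd1q0 cd2q2b pd3 2 true true false .up 0 2 3 (qsf 0 536870912 1239849684 370763052 3) ndB1q0 ndB2q2b pcB3 Cut.none Ext.none)

def k0_pm_023_b : ∃ t, chk3 f_pm_023_b t 1 1 1 = true :=
  ⟨(a (a (a (b (b (a (l 16532792) (l 16538720)) (l 16542584)) (b (l 16507656) (a (l 16435896) (l 16470312)))) (b (b (l 16586864) (l 16562128)) (b (l 16543896) (l 16541024)))) (a (b (b (l 16672208) (l 16645368)) (b (l 16643648) (l 16643640))) (b (b (l 16901904) (l 16709184)) (a (l 16706888) (l 16738584))))) (a (a (b (b (l 2) (l 113380306375)) (a (l 16768016) (l 16795544))) (b (a (l 291085199223) (l 2)) (l 4))) (l 4))), by decide +kernel⟩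

theorem c_pm_023_b : CertB 0 536870912 1239849684 370763052 536870912 50465866 3 eng mog cd1q0 cd2q2b pd3 true true false .up 0 2 3
    ndB1q0 ndB2q2b pcB3 Cut.none Ext.none :=
  certB2 (fam := true) (s1 := true) (s2 := false) (a := 0) (b := 2) (c := 3) (cn := .up) (n1 := ndB1q0) (n2 := ndB2q2b) (pc := pcB3) (cut := Cut.none) (xt := Ext.none) (P1 := 0) (W1 := 536870912) (P2 := 1239849684) (W2 := 370763052) (P3 := 536870912) (W3 := 50465866) (N0 := 3) (En := eng) (mo := mog) (C1 := cd1q0) (C2 := cd2q2b) (C3 := pd3)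
    rfl (fun _ => rfl) k0_pm_023_b

noncomputable def f_pm_033 : ℕ → ℕ → ℕ → ℕ → Bool := onCell 0 536870912 1610612736 536870912 536870912 50465866
    (rowB 3 eng mog cd1q0 cd2q3 pd3 1 true true false .pnn 0 3 3 (qsf 0 536870912 1610612736 536870912 3) ndB1q0 ndB2q3 pcB3 Cut.none Ext.none)

def k0_pm_033 : ∃ t, chk3 f_pm_033 t 1 1 1 = true :=
  ⟨(b (b (a (b (a (b (l 16416120) (l 16421760)) (l 1)) (a (l 16499296) (l 16562224))) (l 1)) (a (b (a (l 16599616) (l 16626832)) (a (b (l 16664264) (l 16697752)) (l 56942221847))) (b (l 1) (a (l 16784944) (l 1))))) (b (b (a (l 4) (a (l 16768168) (l 1))) (l 4)) (l 4))), by decide +kernel⟩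

theorem c_pm_033 : CertB 0 536870912 1610612736 536870912 536870912 50465866 3 eng mog cd1q0 cd2q3 pd3 true true false .pnn 0 3 3
    ndB1q0 ndB2q3 pcB3 Cut.none Ext.none :=
  certB1 (fam := true) (s1 := true) (s2 := false) (a := 0) (b := 3) (c := 3) (cn := .pnn) (n1 := ndB1q0) (n2 := ndB2q3) (pc := pcB3) (cut := Cut.none) (xt := Ext.none) (P1 := 0) (W1 := 536870912) (P2 := 1610612736) (W2 := 536870912) (P3 := 536870912) (W3 := 50465866) (N0 := 3) (En := eng) (mo := mog) (C1 := cd1q0) (C2 := cd2q3) (C3 := pd3)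
    rfl (fun _ => rfl) k0_pm_033

noncomputable def f_pm_101 : ℕ → ℕ → ℕ → ℕ → Bool := onCell 536870912 536870912 0 536870912 536870912 50465866
    (rowB 3 eng mog cd1q1 cd2q0 pd1 2 true true false .npn 1 0 1 (qsf 536870912 536870912 0 536870912 1) ndB1q1 ndB2q0 pcB1 Cut.none Ext.none)

def k0_pm_101 : ∃ t, chk3 f_pm_101 t 1 1 1 = true :=
  ⟨(a (l 3) (l 3)), by decide +kernel⟩

theorem c_pm_101 : CertB 536870912 536870912 0 536870912 536870912 50465866 3 eng mog cd1q1 cd2q0 pd1 true true false .npn 1 0 1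
    ndB1q1 ndB2q0 pcB1 Cut.none Ext.none :=
  certB2 (fam := true) (s1 := true) (s2 := false) (a := 1) (b := 0) (c := 1) (cn := .npn) (n1 := ndB1q1) (n2 := ndB2q0) (pc := pcB1) (cut := Cut.none) (xt := Ext.none) (P1 := 536870912) (W1 := 536870912) (P2 := 0) (W2 := 536870912) (P3 := 536870912) (W3 := 50465866) (N0 := 3) (En := eng) (mo := mog) (C1 := cd1q1) (C2 := cd2q0) (C3 := pd1)
    rfl (fun _ => rfl) k0_pm_101

noncomputable def f_pm_102 : ℕ → ℕ → ℕ → ℕ → Bool := onCell 536870912 536870912 1073741824 536870912 536870912 50465866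
    (rowB 3 eng mog cd1q1 cd2q0 pd2 1 true true false .npp 1 0 2 (qsf 536870912 536870912 0 536870912 2) ndB1q1 ndB2q0 pcB2 Cut.none Ext.none)

def k0_pm_102 : ∃ t, chk3 f_pm_102 t 2 1 1 = true :=
  ⟨(b (a (b (l 3) (b (b (b (b (l 3) (l 2)) (l 2)) (l 2)) (l 2))) (b (b (l 3) (b (l 3) (a (l 3) (b (l 3) (b (l 16730024) (l 16762472)))))) (b (b (b (a (b (l 16702176) (l 16732616)) (b (l 16746424) (l 16773112))) (b (a (b (l 16718632) (l 16725496)) (l 16759016)) (b (a (l 16729184) (l 16759792)) (a (b (l 16729368) (l 16731072)) (b (l 16760176) (l 16762856)))))) (a (l 16745992) (l 16768984))) (a (l 16769880) (l 16778600))))) (b (a (l 2) (a (l 2) (l 16807560))) (l 2))), by decide +kernel⟩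

def k1_pm_102 : ∃ t, chk3 f_pm_102 t 3 1 1 = true :=
  ⟨(b (b (b (a (l 3) (b (l 3) (a (l 3) (a (l 3) (b (l 3) (b (a (l 3) (l 82845820983)) (a (l 16730024) (b (l 16718072) (l 16713816))))))))) (b (a (b (l 3) (a (l 3) (l 16824984))) (a (b (a (l 3) (l 16783064)) (a (b (l 16769272) (l 16764136)) (b (l 16751216) (l 16744336)))) (b (a (a (l 133848699287) (b (l 16755992) (l 16727680))) (b (a (l 16763464) (a (l 16711032) (l 16703632))) (a (l 16713408) (l 16698600)))) (a (a (l 16813384) (l 16714536)) (a (l 16721720) (l 16728504)))))) (a (b (a (l 16852136) (a (l 16770456) (l 16768648))) (a (b (l 16804408) (l 16787056)) (b (a (l 16770688) (l 16761960)) (l 16763808)))) (a (b (a (l 16755368) (l 16732424)) (a (l 16741776) (l 16781520))) (b (a (a (l 16712712) (l 16699024)) (l 16677872)) (a (l 16691496) (l 16662696))))))) (b (b (b (a (a (b (l 16768256) (l 16769872)) (b (l 16759576) (l 16755008))) (a (a (l 16728880) (l 16704432)) (a (l 16676632) (l 16647456)))) (a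 (b (a (l 16769968) (l 16751600)) (b (a (l 16770048) (l 16749480)) (a (b (l 16769928) (l 16769264)) (b (l 16746312) (l 16741792))))) (b (a (l 16707312) (a (l 16664456) (l 16635752))) (b (a (l 16701232) (a (l 16656872) (l 16629792))) (a (b (l 16695384) (l 16710032)) (a (b (l 16651592) (l 16647104)) (l 16624088))))))) (a (a (l 16767192) (l 16733736)) (a (a (l 16690016) (l 16660216)) (a (l 16634704) (l 16611152))))) (a (a (l 16764744) (l 16722040)) (a (a (l 16669816) (l 16634296)) (a (l 16606544) (l 16580840)))))) (b (a (b (a (l 16773200) (l 16723448)) (l 16772920)) (a (b (l 16648472) (l 16663952)) (b (l 16721456) (l 16584272)))) (b (a (l 16824000) (a (l 16724840) (l 16643424))) (a (l 2) (a (l 16839368) (l 16748080)))))), by decide +kernel⟩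

theorem s2_pm_102 : ∃ t, chk3 f_pm_102 t 1 1 1 = true := ex3_a k0_pm_102 k1_pm_102

theorem c_pm_102 : CertB 536870912 536870912 0 536870912 536870912 50465866 3 eng mog cd1q1 cd2q0 pd2 true true false .npp 1 0 2
    ndB1q1 ndB2q0 pcB2 Cut.none Ext.none :=
  certB1 (fam := true) (s1 := true) (s2 := false) (a := 1) (b := 0) (c := 2) (cn := .npp) (n1 := ndB1q1) (n2 := ndB2q0) (pc := pcB2) (cut := Cut.none) (xt := Ext.none) (P1 := 536870912) (W1 := 536870912) (P2 := 0) (W2 := 536870912) (P3 := 536870912) (W3 := 50465866) (N0 := 3) (En := eng) (mo := mog) (C1 := cd1q1) (C2 := cd2q0) (C3 := pd2)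
    rfl (fun _ => rfl) s2_pm_102

noncomputable def f_pm_112 : ℕ → ℕ → ℕ → ℕ → Bool := onCell 536870912 536870912 1073741824 536870912 536870912 50465866
    (rowB 3 eng mog cd1q1 cd2q1 pd2 1 true true false .dn 1 1 2 (qsf 536870912 536870912 536870912 536870912 2) ndB1q1 ndB2q1 pcB2 Cut.none Ext.none)

def k0_pm_112 : ∃ t, chk3 f_pm_112 t 1 1 1 = true :=
  ⟨(a (b (b (a (l 3) (a (l 3) (l 1))) (b (b (b (a (a (l 3) (b (l 3) (l 16667792))) (a (b (l 16766952) (l 16817832)) (l 1))) (b (a (a (l 16762120) (l 16719656)) (a (b (l 16719536) (l 16725968)) (l 1))) (a (b (a (l 16705320) (l 16688456)) (a (b (l 16709272) (l 16667584)) (b (l 16691352) (l 16691848)))) (a (b (l 16729336) (b (l 16729408) (l 16730936))) (l 1))))) (a (a (l 16716048) (l 16705840)) (a (l 16744040) (l 16768600)))) (a (a (a (l 16668368) (l 16688168)) (a (l 16711216) (l 16734720))) (a (l 16763600) (l 16779048))))) (b (a (a (b (l 16676064) (l 16670184)) (b (l 16738616) (l 16762112))) (a (b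 (l 16789664) (l 16834504)) (b (l 16806328) (l 16867416)))) (a (a (b (l 16658248) (l 16634648)) (l 16809288)) (a (b (l 16901896) (l 16978424)) (b (l 16964128) (l 17095192)))))) (b (b (l 1) (b (l 1) (a (l 288333692359) (l 1)))) (b (a (a (b (l 16779120) (l 16835280)) (l 75195751495)) (b (l 1) (a (l 16671976) (l 1)))) (b (a (a (l 16955904) (l 16865912)) (a (l 16743496) (l 16654024))) (a (a (l 17126200) (l 17084776)) (a (l 16943232) (l 16773264))))))), by decide +kernel⟩

theorem c_pm_112 : CertB 536870912 536870912 536870912 536870912 536870912 50465866 3 eng mog cd1q1 cd2q1 pd2 true true false .dn 1 1 2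
    ndB1q1 ndB2q1 pcB2 Cut.none Ext.none :=
  certB1 (fam := true) (s1 := true) (s2 := false) (a := 1) (b := 1) (c := 2) (cn := .dn) (n1 := ndB1q1) (n2 := ndB2q1) (pc := pcB2) (cut := Cut.none) (xt := Ext.none) (P1 := 536870912) (W1 := 536870912) (P2 := 536870912) (W2 := 536870912) (P3 := 536870912) (W3 := 50465866) (N0 := 3) (En := eng) (mo := mog) (C1 := cd1q1) (C2 := cd2q1) (C3 := pd2)
    rfl (fun _ => rfl) k0_pm_112

noncomputable def f_pm_113 : ℕ → ℕ → ℕ → ℕ → Bool := onCell 536870912 536870912 1610612736 536870912 536870912 50465866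
    (rowB 3 eng mog cd1q1 cd2q1 pd3 1 true true false .nn 1 1 3 (qsf 536870912 536870912 536870912 536870912 3) ndB1q1 ndB2q1 pcB3 Cut.none Ext.none)

def k0_pm_113 : ∃ t, chk3 f_pm_113 t 1 1 1 = true :=
  ⟨(a (b (b (a (a (b (l 16615192) (l 16604784)) (l 16805624)) (a (l 16936856) (l 17032352))) (a (b (a (l 2) (l 16789128)) (l 2)) (a (b (l 16912176) (l 16891736)) (l 16975232)))) (b (a (l 2) (b (a (l 2) (l 16928968)) (l 2))) (l 2))) (a (b (b (b (a (l 17115936) (l 17211440)) (l 17098352)) (a (l 17008448) (l 17040688))) (b (b (l 16980368) (a (l 16912512) (l 16920912))) (b (a (l 2) (l 16873992)) (l 2)))) (b (b (b (a (l 17167032) (l 16957472)) (b (l 17152008) (l 17200040))) (b (l 17145616) (l 17053088))) (b (b (l 16982256) (l 16923208)) (b (b (l 16880240) (l 16853592)) (b (l 16866456) (a (l 2) (b (l 16795504) (a (l 2) (l 4)))))))))), by decide +kernel⟩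

theorem c_pm_113 : CertB 536870912 536870912 536870912 536870912 536870912 50465866 3 eng mog cd1q1 cd2q1 pd3 true true false .nn 1 1 3
    ndB1q1 ndB2q1 pcB3 Cut.none Ext.none :=
  certB1 (fam := true) (s1 := true) (s2 := false) (a := 1) (b := 1) (c := 3) (cn := .nn) (n1 := ndB1q1) (n2 := ndB2q1) (pc := pcB3) (cut := Cut.none) (xt := Ext.none) (P1 := 536870912) (W1 := 536870912) (P2 := 536870912) (W2 := 536870912) (P3 := 536870912) (W3 := 50465866) (N0 := 3) (En := eng) (mo := mog) (C1 := cd1q1) (C2 := cd2q1) (C3 := pd3)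
    rfl (fun _ => rfl) k0_pm_113

noncomputable def f_pm_123_a : ℕ → ℕ → ℕ → ℕ → Bool := onCell 1610612736 536870912 0 536870912 536870912 50465866
    (rowB 3 eng mog cd1q1 cd2q2a pd3 2 true true false .npn 1 2 3 (qsf 536870912 536870912 0 536870912 3) ndB1q1 ndB2q2a pcB3 Cut.none Ext.none)

def k0_pm_123_a : ∃ t, chk3 f_pm_123_a t 1 1 1 = true :=
  ⟨(a (a (a (b (l 1) (b (l 1) (a (b (l 1) (l 16670152)) (b (l 16622352) (l 16696872))))) (b (b (l 1) (l 16697192)) (b (a (l 16607176) (l 16676312)) (a (b (l 16667824) (l 16751248)) (b (l 16741952) (l 16823280)))))) (b (a (b (l 16730240) (l 16731248)) (b (l 16777744) (l 16795752))) (b (a (b (l 16751216) (l 16780352)) (a (l 16829888) (l 16856168))) (a (b (l 16830520) (l 16898776)) (b (l 16796288) (l 16885048)))))) (a (b (a (b (l 16808864) (b (l 16823296) (l 16837320))) (a (b (l 16814568) (l 16837784)) (b (l 123178590391) (l 16957880)))) (a (b (l 16872808) (b (l 16911544) (l 16939096))) (b (a (l 16865992)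 (b (l 16842416) (l 16856384))) (a (l 16903928) (l 16884896))))) (a (b (a (b (l 16976696) (l 16783560)) (b (l 4) (l 93114030327))) (b (a (l 16895560) (l 16991272)) (a (l 16865304) (a (l 16848704) (l 17044832))))) (b (l 4) (b (a (b (l 115662610775) (l 17015976)) (b (l 4) (l 4))) (b (a (a (l 16814384) (l 16798000)) (a (l 16949608) (l 4))) (a (b (l 16962304) (l 16823800)) (a (c (l 16964816) (l 16963568)) (a (l 16866784) (a (l 16775968) (l 4))))))))))), by decide +kernel⟩

theorem c_pm_123_a : CertB 536870912 536870912 0 536870912 536870912 50465866 3 eng mog cd1q1 cd2q2a pd3 true true false .npn 1 2 3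
    ndB1q1 ndB2q2a pcB3 Cut.none Ext.none :=
  certB2 (fam := true) (s1 := true) (s2 := false) (a := 1) (b := 2) (c := 3) (cn := .npn) (n1 := ndB1q1) (n2 := ndB2q2a) (pc := pcB3) (cut := Cut.none) (xt := Ext.none) (P1 := 536870912) (W1 := 536870912) (P2 := 0) (W2 := 536870912) (P3 := 536870912) (W3 := 50465866) (N0 := 3) (En := eng) (mo := mog) (C1 := cd1q1) (C2 := cd2q2a) (C3 := pd3)
    rfl (fun _ => rfl) k0_pm_123_a

noncomputable def f_pm_123_b : ℕ → ℕ → ℕ → ℕ → Bool := onCell 1610612736 536870912 1239849684 370763052 536870912 50465866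
    (rowB 3 eng mog cd1q1 cd2q2b pd3 2 true true false .npn 1 2 3 (qsf 536870912 536870912 1239849684 370763052 3) ndB1q1 ndB2q2b pcB3 Cut.none Ext.none)

def k0_pm_123_b : ∃ t, chk3 f_pm_123_b t 1 1 1 = true :=
  ⟨(a (b (a (l 1) (a (b (b (l 16711632) (l 1)) (l 1)) (b (b (l 16750880) (l 16721680)) (l 16715984)))) (l 1)) (a (b (a (b (l 16968368) (l 16759872)) (a (b (l 16770448) (l 4)) (l 4))) (a (l 1) (l 4))) (l 4))), by decide +kernel⟩

theorem c_pm_123_b : CertB 536870912 536870912 1239849684 370763052 536870912 50465866 3 eng mog cd1q1 cd2q2b pd3 true true false .npn 1 2 3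
    ndB1q1 ndB2q2b pcB3 Cut.none Ext.none :=
  certB2 (fam := true) (s1 := true) (s2 := false) (a := 1) (b := 2) (c := 3) (cn := .npn) (n1 := ndB1q1) (n2 := ndB2q2b) (pc := pcB3) (cut := Cut.none) (xt := Ext.none) (P1 := 536870912) (W1 := 536870912) (P2 := 1239849684) (W2 := 370763052) (P3 := 536870912) (W3 := 50465866) (N0 := 3) (En := eng) (mo := mog) (C1 := cd1q1) (C2 := cd2q2b) (C3 := pd3)
    rfl (fun _ => rfl) k0_pm_123_b

noncomputable def f_pm_133 : ℕ → ℕ → ℕ → ℕ → Bool := onCell 536870912 536870912 1610612736 536870912 536870912 50465866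
    (rowB 3 eng mog cd1q1 cd2q3 pd3 0 true true false .dn 1 3 3 (qsf 536870912 536870912 1610612736 536870912 3) ndB1q1 ndB2q3 pcB3 Cut.none Ext.none)

def k0_pm_133 : ∃ t, chk3 f_pm_133 t 1 1 1 = true :=
  ⟨(l 4), by decide +kernel⟩

theorem c_pm_133 : CertB 536870912 536870912 1610612736 536870912 536870912 50465866 3 eng mog cd1q1 cd2q3 pd3 true true false .dn 1 3 3
    ndB1q1 ndB2q3 pcB3 Cut.none Ext.none :=
  certB0 (fam := true) (s1 := true) (s2 := false) (a := 1) (b := 3) (c := 3) (cn := .dn) (n1 := ndB1q1) (n2 := ndB2q3) (pc := pcB3) (cut := Cut.none) (xt := Ext.none) (P1 := 536870912) (W1 := 536870912) (P2 := 1610612736) (W2 := 536870912) (P3 := 536870912) (W3 := 50465866) (N0 := 3) (En := eng) (mo := mog) (C1 := cd1q1) (C2 := cd2q3) (C3 := pd3)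
    rfl k0_pm_133

noncomputable def cut_pm_202_a : Cut := Cut.of [[⟨0, 1, 0, 67108864⟩, ⟨1, 0, 0, 67108864⟩, ⟨2, 1, 0, 67108864⟩]]

noncomputable def f_pm_202_a : ℕ → ℕ → ℕ → ℕ → Bool := onCell 0 536870912 1073741824 536870912 536870912 50465866
    (rowB 3 eng mog cd1q2a cd2q0 pd2 1 true true false .pp 2 0 2 (qsf 0 536870912 0 536870912 2) ndB1q2a ndB2q0 pcB2 cut_pm_202_a Ext.none)

def k0_pm_202_a : ∃ t, chk3 f_pm_202_a t 2 1 1 = true :=
  ⟨(b (b (b (l 1) (a (l 1) (b (l 1) (a (l 1) (b (l 1) (a (l 1) (b (l 1) (l 16528384)))))))) (b (a (b (b (l 1) (a (l 16458288) (l 16550104))) (a (b (l 16456264) (l 16458736)) (b (l 16529688) (l 16467232)))) (b (b (a (b (l 1) (l 16534832)) (c (a (l 16527080) (l 16520920)) (b (a (l 16509328) (l 16524016)) (l 97743561703)))) (a (a (l 16476744) (l 16487984)) (b (l 16591792) (b (l 16509024) (a (l 16523624) (l 16516432)))))) (a (b (c (l 16469536) (l 16481936)) (l 16484264)) (b (a (l 16503536) (l 16517320)) (l 16507944)))))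 (a (a (l 16531376) (b (l 16467016) (l 16467824))) (b (a (l 16481792) (l 16503600)) (a (l 16479432) (l 16498424)))))) (b (a (b (l 16560016) (l 16586256)) (b (a (l 16479536) (l 16494272)) (a (l 16495320) (l 16504384)))) (b (a (l 16586008) (l 16534192)) (a (b (l 16584688) (l 16636768)) (b (l 16579648) (l 16625904)))))), by decide +kernel⟩

def k1_pm_202_a : ∃ t, chk3 f_pm_202_a t 3 4 1 = true :=
  ⟨(b (a (l 1) (b (a (l 1) (l 6)) (b (a (a (l 1) (l 6)) (l 6)) (b (a (a (l 1) (l 6)) (l 6)) (a (a (a (l 1) (b (l 214781686103) (l 217466039063))) (a (b (l 6) (a (l 16660424) (l 16665368))) (l 16674392))) (a (a (l 16684536) (l 16694432)) (l 16708608))))))) (a (b (a (l 1) (b (a (l 1) (b (l 1) (a (l 173442531319) (l 269542441575)))) (a (b (a (l 1) (l 187938013943)) (a (l 208875950231) (l 271152995207))) (b (a (l 251825671383) (c (l 16661560) (l 16617536))) (a (b (l 16606096) (l 16603488)) (l 16613216)))))) (a (b (a (b (l 1) (l 188474782199)) (b (a (l 1) (l 237330081031))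 (a (l 16562880) (l 16570776)))) (a (b (l 150893806183) (a (l 16539776) (l 16609856))) (b (a (l 16558688) (l 16566160)) (l 16557712)))) (a (b (b (a (l 16583288) (c (l 16592088) (l 16590176))) (a (l 16641496) (l 16586224))) (l 16595344)) (b (a (l 16596592) (l 16604224)) (l 16592784))))) (a (b (a (b (a (b (b (l 223371577207) (l 16637560)) (c (l 16686560) (l 16632232))) (b (a (b (l 16647584) (l 16644664)) (c (l 16651328) (l 16650160))) (l 16642408))) (a (l 16666432) (l 16633808))) (b (a (b (l 16658128) (l 16651968)) (l 16665112)) (l 16649184))) (a (b (l 16619920) (l 16612680)) (b (l 16639656) (l 16631520)))) (b (a (b (a (l 16675136) (l 16684816)) (l 16668560)) (b (a (l 16694120) (l 16703008)) (l 16686584))) (a (b (l 16658304) (l 16649384)) (b (l 16675736) (l 16666152))))))), by decide +kernel⟩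

def k2_pm_202_a : ∃ t, chk3 f_pm_202_a t 3 5 1 = true :=
  ⟨(a (b (b (b (a (a (b (l 16538968) (l 16534000)) (l 16549664)) (a (l 16568680) (l 16588160))) (a (b (l 16540000) (b (l 16540424) (l 16561632))) (b (l 16577024) (b (l 16576368) (a (l 16566416) (l 16583976)))))) (a (b (l 16540584) (l 16537304)) (a (l 16563112) (l 16579624)))) (a (b (l 16532288) (l 16525024)) (b (l 16562568) (l 16554336)))) (b (b (b (a (a (l 16606952) (l 16624808)) (a (l 16641808) (l 16657856))) (a (b (l 16612704) (b (l 16611080) (a (l 16600952) (l 16617192)))) (b (l 16645240) (b (l 16642848) (a (l 16632736) (l 16647480)))))) (a (a (l 16595608) (l 16610944)) (a (l 16625784) (l 16640120)))) (a (b (l 16592112) (l 16582312)) (b (l 16620160) (l 16608920))))), by decide +kernel⟩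

def k3_pm_202_a : ∃ t, chk3 f_pm_202_a t 3 3 1 = true :=
  ⟨(b (a (b (a (l 16517176) (l 16587088)) (a (l 16521712) (l 16542152))) (b (a (l 16570448) (l 16616176)) (a (l 16589552) (l 16599720)))) (b (a (l 16567792) (a (l 16608256) (l 16651504))) (a (b (l 16617984) (l 16650984)) (b (l 16686200) (a (l 16688184) (l 16732456)))))), by decide +kernel⟩

theorem s4_pm_202_a : ∃ t, chk3 f_pm_202_a t 3 2 1 = true := ex3_b k1_pm_202_a k2_pm_202_a

theorem s5_pm_202_a : ∃ t, chk3 f_pm_202_a t 3 1 1 = true := ex3_b s4_pm_202_a k3_pm_202_a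

theorem s6_pm_202_a : ∃ t, chk3 f_pm_202_a t 1 1 1 = true := ex3_a k0_pm_202_a s5_pm_202_a

theorem c_pm_202_a : CertB 0 536870912 0 536870912 536870912 50465866 3 eng mog cd1q2a cd2q0 pd2 true true false .pp 2 0 2
    ndB1q2a ndB2q0 pcB2 cut_pm_202_a Ext.none :=
  certB1 (fam := true) (s1 := true) (s2 := false) (a := 2) (b := 0) (c := 2) (cn := .pp) (n1 := ndB1q2a) (n2 := ndB2q0) (pc := pcB2) (cut := cut_pm_202_a) (xt := Ext.none) (P1 := 0) (W1 := 536870912) (P2 := 0) (W2 := 536870912) (P3 := 536870912) (W3 := 50465866) (N0 := 3) (En := eng) (mo := mog) (C1 := cd1q2a) (C2 := cd2q0) (C3 := pd2)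
    rfl (fun _ => rfl) s6_pm_202_a

noncomputable def cut_pm_202_b : Cut := Cut.of [[⟨0, 1, 0, 67108864⟩, ⟨1, 0, 0, 67108864⟩, ⟨2, 1, 0, 67108864⟩]]

noncomputable def f_pm_202_b : ℕ → ℕ → ℕ → ℕ → Bool := onCell 1073741824 536870912 0 536870912 536870912 50465866
    (rowB 3 eng mog cd1q2b cd2q0 pd2 2 true true false .pp 2 0 2 (qsf 1239849684 370763052 0 536870912 2) ndB1q2b ndB2q0 pcB2 cut_pm_202_b Ext.none)

def k0_pm_202_b : ∃ t, chk3 f_pm_202_b t 1 1 1 = true :=
  ⟨(a (b (a (l 1) (b (a (b (a (b (b (l 16563200) (l 1)) (l 1)) (a (b (a (l 16479792) (l 16462424)) (l 1)) (b (l 16439472) (l 263099738215)))) (l 1)) (a (b (b (l 16447848) (l 16460272)) (b (l 155189002935) (l 1))) (b (b (l 16367168) (l 16419920)) (b (l 16469464) (l 175590082215))))) (l 1))) (l 1)) (a (b (b (a (b (b (l 16362648) (l 16370880)) (l 16575248)) (b (b (l 16275728) (l 16321752)) (l 16388296))) (a (b (a (l 214781810551) (l 162704974679)) (l 1)) (b (l 16527712) (a (l 296923028743)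 (l 16586232))))) (l 1)) (b (a (b (b (l 16266152) (l 16349728)) (b (l 16425920) (l 16480096))) (b (b (l 16251736) (l 16323424)) (l 16424456))) (b (a (b (l 329135171095) (l 1)) (b (l 16525136) (l 306049967335))) (l 1))))), by decide +kernel⟩

theorem c_pm_202_b : CertB 1239849684 370763052 0 536870912 536870912 50465866 3 eng mog cd1q2b cd2q0 pd2 true true false .pp 2 0 2
    ndB1q2b ndB2q0 pcB2 cut_pm_202_b Ext.none :=
  certB2 (fam := true) (s1 := true) (s2 := false) (a := 2) (b := 0) (c := 2) (cn := .pp) (n1 := ndB1q2b) (n2 := ndB2q0) (pc := pcB2) (cut := cut_pm_202_b) (xt := Ext.none) (P1 := 1239849684) (W1 := 370763052) (P2 := 0) (W2 := 536870912) (P3 := 536870912) (W3 := 50465866) (N0 := 3) (En := eng) (mo := mog) (C1 := cd1q2b) (C2 := cd2q0) (C3 := pd2)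
    rfl (fun _ => rfl) k0_pm_202_b

noncomputable def f_pm_203_a : ℕ → ℕ → ℕ → ℕ → Bool := onCell 0 536870912 1610612736 536870912 536870912 50465866
    (rowB 3 eng mog cd1q2a cd2q0 pd3 1 true true false .up 2 0 3 (qsf 0 536870912 0 536870912 3) ndB1q2a ndB2q0 pcB3 Cut.none Ext.none)

def k0_pm_203_a : ∃ t, chk3 f_pm_203_a t 1 1 1 = true :=
  ⟨(b (b (b (a (a (l 16704112) (b (l 16640024) (l 16701088))) (a (b (l 16687608) (l 16723488)) (b (l 16783792) (l 16789424)))) (a (a (l 16809784) (l 16790472)) (a (l 16808224) (l 16765200)))) (a (b (l 16954496) (l 2)) (a (l 2) (l 2)))) (l 2)), by decide +kernel⟩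

theorem c_pm_203_a : CertB 0 536870912 0 536870912 536870912 50465866 3 eng mog cd1q2a cd2q0 pd3 true true false .up 2 0 3
    ndB1q2a ndB2q0 pcB3 Cut.none Ext.none :=
  certB1 (fam := true) (s1 := true) (s2 := false) (a := 2) (b := 0) (c := 3) (cn := .up) (n1 := ndB1q2a) (n2 := ndB2q0) (pc := pcB3) (cut := Cut.none) (xt := Ext.none) (P1 := 0) (W1 := 536870912) (P2 := 0) (W2 := 536870912) (P3 := 536870912) (W3 := 50465866) (N0 := 3) (En := eng) (mo := mog) (C1 := cd1q2a) (C2 := cd2q0) (C3 := pd3)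
    rfl (fun _ => rfl) k0_pm_203_a

noncomputable def f_pm_203_b : ℕ → ℕ → ℕ → ℕ → Bool := onCell 1239849684 370763052 1610612736 536870912 536870912 50465866
    (rowB 3 eng mog cd1q2b cd2q0 pd3 1 true true false .up 2 0 3 (qsf 1239849684 370763052 0 536870912 3) ndB1q2b ndB2q0 pcB3 Cut.none Ext.none)

def k0_pm_203_b : ∃ t, chk3 f_pm_203_b t 1 1 1 = true :=
  ⟨(b (b (a (b (a (b (l 16553400) (l 16631760)) (l 16462848)) (a (l 16714384) (l 16562824))) (b (a (l 16395584) (l 16317128)) (b (l 16431240) (l 16517536)))) (b (a (l 4) (a (l 4) (l 16617784))) (l 4))) (l 4)), by decide +kernel⟩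

theorem c_pm_203_b : CertB 1239849684 370763052 0 536870912 536870912 50465866 3 eng mog cd1q2b cd2q0 pd3 true true false .up 2 0 3
    ndB1q2b ndB2q0 pcB3 Cut.none Ext.none :=
  certB1 (fam := true) (s1 := true) (s2 := false) (a := 2) (b := 0) (c := 3) (cn := .up) (n1 := ndB1q2b) (n2 := ndB2q0) (pc := pcB3) (cut := Cut.none) (xt := Ext.none) (P1 := 1239849684) (W1 := 370763052) (P2 := 0) (W2 := 536870912) (P3 := 536870912) (W3 := 50465866) (N0 := 3) (En := eng) (mo := mog) (C1 := cd1q2b) (C2 := cd2q0) (C3 := pd3)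
    rfl (fun _ => rfl) k0_pm_203_b

noncomputable def f_pm_213_a : ℕ → ℕ → ℕ → ℕ → Bool := onCell 0 536870912 1610612736 536870912 536870912 50465866
    (rowB 3 eng mog cd1q2a cd2q1 pd3 1 true true false .pnn 2 1 3 (qsf 0 536870912 536870912 536870912 3) ndB1q2a ndB2q1 pcB3 Cut.none Ext.none)

def k0_pm_213_a : ∃ t, chk3 f_pm_213_a t 1 1 1 = true :=
  ⟨(a (b (b (b (l 1) (a (l 1) (l 16798008))) (b (l 115998443127) (a (l 16811480) (l 16854144)))) (b (b (l 113515140183) (l 4)) (l 4))) (a (b (b (b (l 1) (l 16832880)) (b (l 16952616) (l 17109392))) (b (b (l 16856648) (b (l 16783288) (l 16767064))) (l 4))) (b (b (b (b (l 16796432) (l 16830768)) (a (l 16894912) (l 16977040))) (b (l 17080096) (b (l 16995600) (l 16948192)))) (b (b (l 16905280) (b (a (l 16848216) (l 16886360)) (l 16841672))) (b (b (l 16858712) (l 16917160)) (l 4)))))), by decide +kernel⟩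

theorem c_pm_213_a : CertB 0 536870912 536870912 536870912 536870912 50465866 3 eng mog cd1q2a cd2q1 pd3 true true false .pnn 2 1 3
    ndB1q2a ndB2q1 pcB3 Cut.none Ext.none :=
  certB1 (fam := true) (s1 := true) (s2 := false) (a := 2) (b := 1) (c := 3) (cn := .pnn) (n1 := ndB1q2a) (n2 := ndB2q1) (pc := pcB3) (cut := Cut.none) (xt := Ext.none) (P1 := 0) (W1 := 536870912) (P2 := 536870912) (W2 := 536870912) (P3 := 536870912) (W3 := 50465866) (N0 := 3) (En := eng) (mo := mog) (C1 := cd1q2a) (C2 := cd2q1) (C3 := pd3)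
    rfl (fun _ => rfl) k0_pm_213_a

noncomputable def f_pm_213_b : ℕ → ℕ → ℕ → ℕ → Bool := onCell 1239849684 370763052 536870912 536870912 536870912 50465866
    (rowB 3 eng mog cd1q2b cd2q1 pd3 0 true true false .pnn 2 1 3 (qsf 1239849684 370763052 536870912 536870912 3) ndB1q2b ndB2q1 pcB3 Cut.none Ext.none)

def k0_pm_213_b : ∃ t, chk3 f_pm_213_b t 1 1 1 = true :=
  ⟨(b (l 4) (l 4)), by decide +kernel⟩

theorem c_pm_213_b : CertB 1239849684 370763052 536870912 536870912 536870912 50465866 3 eng mog cd1q2b cd2q1 pd3 true true false .pnn 2 1 3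
    ndB1q2b ndB2q1 pcB3 Cut.none Ext.none :=
  certB0 (fam := true) (s1 := true) (s2 := false) (a := 2) (b := 1) (c := 3) (cn := .pnn) (n1 := ndB1q2b) (n2 := ndB2q1) (pc := pcB3) (cut := Cut.none) (xt := Ext.none) (P1 := 1239849684) (W1 := 370763052) (P2 := 536870912) (W2 := 536870912) (P3 := 536870912) (W3 := 50465866) (N0 := 3) (En := eng) (mo := mog) (C1 := cd1q2b) (C2 := cd2q1) (C3 := pd3)
    rfl k0_pm_213_b

noncomputable def f_pm_303 : ℕ → ℕ → ℕ → ℕ → Bool := onCell 1610612736 536870912 0 536870912 536870912 50465866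
    (rowB 3 eng mog cd1q3 cd2q0 pd3 2 true true false .npn 3 0 3 (qsf 1610612736 536870912 0 536870912 3) ndB1q3 ndB2q0 pcB3 Cut.none Ext.none)

def k0_pm_303 : ∃ t, chk3 f_pm_303 t 1 1 1 = true :=
  ⟨(a (a (b (a (b (l 16337928) (l 1)) (b (l 16428512) (l 16477616))) (l 1)) (b (a (b (a (l 16543904) (l 16608648)) (l 16610464)) (l 4)) (l 4))) (l 4)), by decide +kernel⟩

theorem c_pm_303 : CertB 1610612736 536870912 0 536870912 536870912 50465866 3 eng mog cd1q3 cd2q0 pd3 true true false .npn 3 0 3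
    ndB1q3 ndB2q0 pcB3 Cut.none Ext.none :=
  certB2 (fam := true) (s1 := true) (s2 := false) (a := 3) (b := 0) (c := 3) (cn := .npn) (n1 := ndB1q3) (n2 := ndB2q0) (pc := pcB3) (cut := Cut.none) (xt := Ext.none) (P1 := 1610612736) (W1 := 536870912) (P2 := 0) (W2 := 536870912) (P3 := 536870912) (W3 := 50465866) (N0 := 3) (En := eng) (mo := mog) (C1 := cd1q3) (C2 := cd2q0) (C3 := pd3)
    rfl (fun _ => rfl) k0_pm_303

noncomputable def f_pm_313 : ℕ → ℕ → ℕ → ℕ → Bool := onCell 1610612736 536870912 536870912 536870912 536870912 50465866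
    (rowB 3 eng mog cd1q3 cd2q1 pd3 0 true true false .dn 3 1 3 (qsf 1610612736 536870912 536870912 536870912 3) ndB1q3 ndB2q1 pcB3 Cut.none Ext.none)

def k0_pm_313 : ∃ t, chk3 f_pm_313 t 1 1 1 = true :=
  ⟨(l 4), by decide +kernel⟩

theorem c_pm_313 : CertB 1610612736 536870912 536870912 536870912 536870912 50465866 3 eng mog cd1q3 cd2q1 pd3 true true false .dn 3 1 3
    ndB1q3 ndB2q1 pcB3 Cut.none Ext.none :=
  certB0 (fam := true) (s1 := true) (s2 := false) (a := 3) (b := 1) (c := 3) (cn := .dn) (n1 := ndB1q3) (n2 := ndB2q1) (pc := pcB3) (cut := Cut.none) (xt := Ext.none) (P1 := 1610612736) (W1 := 536870912) (P2 := 536870912) (W2 := 536870912) (P3 := 536870912) (W3 := 50465866) (N0 := 3) (En := eng) (mo := mog) (C1 := cd1q3) (C2 := cd2q1) (C3 := pd3)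
    rfl k0_pm_313

noncomputable def f_mm_001 : ℕ → ℕ → ℕ → ℕ → Bool := onCell 0 536870912 0 536870912 536870912 50465866
    (rowB 3 eng mog cd1q0 cd2q0 pd1 0 true false false .up 0 0 1 (qsf 0 536870912 0 536870912 1) ndB1q0 ndB2q0 pcB1 Cut.none Ext.none)

def k0_mm_001 : ∃ t, chk3 f_mm_001 t 1 1 1 = true :=
  ⟨(l 4), by decide +kernel⟩

theorem c_mm_001 : CertB 0 536870912 0 536870912 536870912 50465866 3 eng mog cd1q0 cd2q0 pd1 true false false .up 0 0 1
    ndB1q0 ndB2q0 pcB1 Cut.none Ext.none :=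
  certB0 (fam := true) (s1 := false) (s2 := false) (a := 0) (b := 0) (c := 1) (cn := .up) (n1 := ndB1q0) (n2 := ndB2q0) (pc := pcB1) (cut := Cut.none) (xt := Ext.none) (P1 := 0) (W1 := 536870912) (P2 := 0) (W2 := 536870912) (P3 := 536870912) (W3 := 50465866) (N0 := 3) (En := eng) (mo := mog) (C1 := cd1q0) (C2 := cd2q0) (C3 := pd1)
    rfl k0_mm_001

noncomputable def f_mm_011 : ℕ → ℕ → ℕ → ℕ → Bool := onCell 0 536870912 536870912 536870912 536870912 50465866
    (rowB 3 eng mog cd1q0 cd2q1 pd1 0 true false false .pnn 0 1 1 (qsf 0 536870912 536870912 536870912 1) ndB1q0 ndB2q1 pcB1 Cut.none Ext.none)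

def k0_mm_011 : ∃ t, chk3 f_mm_011 t 1 1 1 = true :=
  ⟨(l 4), by decide +kernel⟩

theorem c_mm_011 : CertB 0 536870912 536870912 536870912 536870912 50465866 3 eng mog cd1q0 cd2q1 pd1 true false false .pnn 0 1 1
    ndB1q0 ndB2q1 pcB1 Cut.none Ext.none :=
  certB0 (fam := true) (s1 := false) (s2 := false) (a := 0) (b := 1) (c := 1) (cn := .pnn) (n1 := ndB1q0) (n2 := ndB2q1) (pc := pcB1) (cut := Cut.none) (xt := Ext.none) (P1 := 0) (W1 := 536870912) (P2 := 536870912) (W2 := 536870912) (P3 := 536870912) (W3 := 50465866) (N0 := 3) (En := eng) (mo := mog) (C1 := cd1q0) (C2 := cd2q1) (C3 := pd1)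
    rfl k0_mm_011

noncomputable def f_mm_012 : ℕ → ℕ → ℕ → ℕ → Bool := onCell 0 536870912 536870912 536870912 536870912 50465866
    (rowB 3 eng mog cd1q0 cd2q1 pd2 0 true false false .pnp 0 1 2 (qsf 0 536870912 536870912 536870912 2) ndB1q0 ndB2q1 pcB2 Cut.none Ext.none)

def k0_mm_012 : ∃ t, chk3 f_mm_012 t 1 1 1 = true :=
  ⟨(l 4), by decide +kernel⟩

theorem c_mm_012 : CertB 0 536870912 536870912 536870912 536870912 50465866 3 eng mog cd1q0 cd2q1 pd2 true false false .pnp 0 1 2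
    ndB1q0 ndB2q1 pcB2 Cut.none Ext.none :=
  certB0 (fam := true) (s1 := false) (s2 := false) (a := 0) (b := 1) (c := 2) (cn := .pnp) (n1 := ndB1q0) (n2 := ndB2q1) (pc := pcB2) (cut := Cut.none) (xt := Ext.none) (P1 := 0) (W1 := 536870912) (P2 := 536870912) (W2 := 536870912) (P3 := 536870912) (W3 := 50465866) (N0 := 3) (En := eng) (mo := mog) (C1 := cd1q0) (C2 := cd2q1) (C3 := pd2)
    rfl k0_mm_012

noncomputable def f_mm_022_a : ℕ → ℕ → ℕ → ℕ → Bool := onCell 0 536870912 0 536870912 536870912 50465866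
    (rowB 3 eng mog cd1q0 cd2q2a pd2 0 true false false .pp 0 2 2 (qsf 0 536870912 0 536870912 2) ndB1q0 ndB2q2a pcB2 Cut.none Ext.none)

def k0_mm_022_a : ∃ t, chk3 f_mm_022_a t 1 1 1 = true :=
  ⟨(l 5), by decide +kernel⟩

theorem c_mm_022_a : CertB 0 536870912 0 536870912 536870912 50465866 3 eng mog cd1q0 cd2q2a pd2 true false false .pp 0 2 2
    ndB1q0 ndB2q2a pcB2 Cut.none Ext.none :=
  certB0 (fam := true) (s1 := false) (s2 := false) (a := 0) (b := 2) (c := 2) (cn := .pp) (n1 := ndB1q0) (n2 := ndB2q2a) (pc := pcB2) (cut := Cut.none) (xt := Ext.none) (P1 := 0) (W1 := 536870912) (P2 := 0) (W2 := 536870912) (P3 := 536870912) (W3 := 50465866) (N0 := 3) (En := eng) (mo := mog) (C1 := cd1q0) (C2 := cd2q2a) (C3 := pd2)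
    rfl k0_mm_022_a

noncomputable def f_mm_022_b : ℕ → ℕ → ℕ → ℕ → Bool := onCell 0 536870912 1239849684 370763052 536870912 50465866
    (rowB 3 eng mog cd1q0 cd2q2b pd2 0 true false false .pp 0 2 2 (qsf 0 536870912 1239849684 370763052 2) ndB1q0 ndB2q2b pcB2 Cut.none Ext.none)

def k0_mm_022_b : ∃ t, chk3 f_mm_022_b t 1 1 1 = true :=
  ⟨(l 5), by decide +kernel⟩

theorem c_mm_022_b : CertB 0 536870912 1239849684 370763052 536870912 50465866 3 eng mog cd1q0 cd2q2b pd2 true false false .pp 0 2 2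
    ndB1q0 ndB2q2b pcB2 Cut.none Ext.none :=
  certB0 (fam := true) (s1 := false) (s2 := false) (a := 0) (b := 2) (c := 2) (cn := .pp) (n1 := ndB1q0) (n2 := ndB2q2b) (pc := pcB2) (cut := Cut.none) (xt := Ext.none) (P1 := 0) (W1 := 536870912) (P2 := 1239849684) (W2 := 370763052) (P3 := 536870912) (W3 := 50465866) (N0 := 3) (En := eng) (mo := mog) (C1 := cd1q0) (C2 := cd2q2b) (C3 := pd2)
    rfl k0_mm_022_b

noncomputable def f_mm_023_a : ℕ → ℕ → ℕ → ℕ → Bool := onCell 0 536870912 0 536870912 536870912 50465866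
    (rowB 3 eng mog cd1q0 cd2q2a pd3 0 true false false .up 0 2 3 (qsf 0 536870912 0 536870912 3) ndB1q0 ndB2q2a pcB3 Cut.none Ext.none)

def k0_mm_023_a : ∃ t, chk3 f_mm_023_a t 1 1 1 = true :=
  ⟨(l 5), by decide +kernel⟩

theorem c_mm_023_a : CertB 0 536870912 0 536870912 536870912 50465866 3 eng mog cd1q0 cd2q2a pd3 true false false .up 0 2 3
    ndB1q0 ndB2q2a pcB3 Cut.none Ext.none :=
  certB0 (fam := true) (s1 := false) (s2 := false) (a := 0) (b := 2) (c := 3) (cn := .up) (n1 := ndB1q0) (n2 := ndB2q2a) (pc := pcB3) (cut := Cut.none) (xt := Ext.none) (P1 := 0) (W1 := 536870912) (P2 := 0) (W2 := 536870912) (P3 := 536870912) (W3 := 50465866) (N0 := 3) (En := eng) (mo := mog) (C1 := cd1q0) (C2 := cd2q2a) (C3 := pd3)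
    rfl k0_mm_023_a

noncomputable def f_mm_023_b : ℕ → ℕ → ℕ → ℕ → Bool := onCell 0 536870912 1239849684 370763052 536870912 50465866
    (rowB 3 eng mog cd1q0 cd2q2b pd3 0 true false false .up 0 2 3 (qsf 0 536870912 1239849684 370763052 3) ndB1q0 ndB2q2b pcB3 Cut.none Ext.none)

def k0_mm_023_b : ∃ t, chk3 f_mm_023_b t 1 1 1 = true :=
  ⟨(l 5), by decide +kernel⟩

theorem c_mm_023_b : CertB 0 536870912 1239849684 370763052 536870912 50465866 3 eng mog cd1q0 cd2q2b pd3 true false false .up 0 2 3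
    ndB1q0 ndB2q2b pcB3 Cut.none Ext.none :=
  certB0 (fam := true) (s1 := false) (s2 := false) (a := 0) (b := 2) (c := 3) (cn := .up) (n1 := ndB1q0) (n2 := ndB2q2b) (pc := pcB3) (cut := Cut.none) (xt := Ext.none) (P1 := 0) (W1 := 536870912) (P2 := 1239849684) (W2 := 370763052) (P3 := 536870912) (W3 := 50465866) (N0 := 3) (En := eng) (mo := mog) (C1 := cd1q0) (C2 := cd2q2b) (C3 := pd3)
    rfl k0_mm_023_b

noncomputable def f_mm_033 : ℕ → ℕ → ℕ → ℕ → Bool := onCell 0 536870912 1610612736 536870912 536870912 50465866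
    (rowB 3 eng mog cd1q0 cd2q3 pd3 0 true false false .pnn 0 3 3 (qsf 0 536870912 1610612736 536870912 3) ndB1q0 ndB2q3 pcB3 Cut.none Ext.none)

def k0_mm_033 : ∃ t, chk3 f_mm_033 t 1 1 1 = true :=
  ⟨(l 5), by decide +kernel⟩

theorem c_mm_033 : CertB 0 536870912 1610612736 536870912 536870912 50465866 3 eng mog cd1q0 cd2q3 pd3 true false false .pnn 0 3 3
    ndB1q0 ndB2q3 pcB3 Cut.none Ext.none :=
  certB0 (fam := true) (s1 := false) (s2 := false) (a := 0) (b := 3) (c := 3) (cn := .pnn) (n1 := ndB1q0) (n2 := ndB2q3) (pc := pcB3) (cut := Cut.none) (xt := Ext.none) (P1 := 0) (W1 := 536870912) (P2 := 1610612736) (W2 := 536870912) (P3 := 536870912) (W3 := 50465866) (N0 := 3) (En := eng) (mo := mog) (C1 := cd1q0) (C2 := cd2q3) (C3 := pd3)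
    rfl k0_mm_033

noncomputable def f_mm_101 : ℕ → ℕ → ℕ → ℕ → Bool := onCell 536870912 536870912 0 536870912 536870912 50465866
    (rowB 3 eng mog cd1q1 cd2q0 pd1 0 true false false .npn 1 0 1 (qsf 536870912 536870912 0 536870912 1) ndB1q1 ndB2q0 pcB1 Cut.none Ext.none)

def k0_mm_101 : ∃ t, chk3 f_mm_101 t 1 1 1 = true :=
  ⟨(l 4), by decide +kernel⟩

theorem c_mm_101 : CertB 536870912 536870912 0 536870912 536870912 50465866 3 eng mog cd1q1 cd2q0 pd1 true false false .npn 1 0 1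
    ndB1q1 ndB2q0 pcB1 Cut.none Ext.none :=
  certB0 (fam := true) (s1 := false) (s2 := false) (a := 1) (b := 0) (c := 1) (cn := .npn) (n1 := ndB1q1) (n2 := ndB2q0) (pc := pcB1) (cut := Cut.none) (xt := Ext.none) (P1 := 536870912) (W1 := 536870912) (P2 := 0) (W2 := 536870912) (P3 := 536870912) (W3 := 50465866) (N0 := 3) (En := eng) (mo := mog) (C1 := cd1q1) (C2 := cd2q0) (C3 := pd1)
    rfl k0_mm_101

noncomputable def f_mm_102 : ℕ → ℕ → ℕ → ℕ → Bool := onCell 536870912 536870912 0 536870912 536870912 50465866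
    (rowB 3 eng mog cd1q1 cd2q0 pd2 0 true false false .npp 1 0 2 (qsf 536870912 536870912 0 536870912 2) ndB1q1 ndB2q0 pcB2 Cut.none Ext.none)

def k0_mm_102 : ∃ t, chk3 f_mm_102 t 1 1 1 = true :=
  ⟨(l 4), by decide +kernel⟩

theorem c_mm_102 : CertB 536870912 536870912 0 536870912 536870912 50465866 3 eng mog cd1q1 cd2q0 pd2 true false false .npp 1 0 2
    ndB1q1 ndB2q0 pcB2 Cut.none Ext.none :=
  certB0 (fam := true) (s1 := false) (s2 := false) (a := 1) (b := 0) (c := 2) (cn := .npp) (n1 := ndB1q1) (n2 := ndB2q0) (pc := pcB2) (cut := Cut.none) (xt := Ext.none) (P1 := 536870912) (W1 := 536870912) (P2 := 0) (W2 := 536870912) (P3 := 536870912) (W3 := 50465866) (N0 := 3) (En := eng) (mo := mog) (C1 := cd1q1) (C2 := cd2q0) (C3 := pd2)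
    rfl k0_mm_102

noncomputable def f_mm_112 : ℕ → ℕ → ℕ → ℕ → Bool := onCell 536870912 536870912 536870912 536870912 536870912 50465866
    (rowB 3 eng mog cd1q1 cd2q1 pd2 0 true false false .dn 1 1 2 (qsf 536870912 536870912 536870912 536870912 2) ndB1q1 ndB2q1 pcB2 Cut.none Ext.none)

def k0_mm_112 : ∃ t, chk3 f_mm_112 t 1 1 1 = true :=
  ⟨(l 4), by decide +kernel⟩

theorem c_mm_112 : CertB 536870912 536870912 536870912 536870912 536870912 50465866 3 eng mog cd1q1 cd2q1 pd2 true false false .dn 1 1 2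
    ndB1q1 ndB2q1 pcB2 Cut.none Ext.none :=
  certB0 (fam := true) (s1 := false) (s2 := false) (a := 1) (b := 1) (c := 2) (cn := .dn) (n1 := ndB1q1) (n2 := ndB2q1) (pc := pcB2) (cut := Cut.none) (xt := Ext.none) (P1 := 536870912) (W1 := 536870912) (P2 := 536870912) (W2 := 536870912) (P3 := 536870912) (W3 := 50465866) (N0 := 3) (En := eng) (mo := mog) (C1 := cd1q1) (C2 := cd2q1) (C3 := pd2)
    rfl k0_mm_112

noncomputable def f_mm_113 : ℕ → ℕ → ℕ → ℕ → Bool := onCell 536870912 536870912 536870912 536870912 536870912 50465866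
    (rowB 3 eng mog cd1q1 cd2q1 pd3 0 true false false .nn 1 1 3 (qsf 536870912 536870912 536870912 536870912 3) ndB1q1 ndB2q1 pcB3 Cut.none Ext.none)

def k0_mm_113 : ∃ t, chk3 f_mm_113 t 1 1 1 = true :=
  ⟨(l 4), by decide +kernel⟩

theorem c_mm_113 : CertB 536870912 536870912 536870912 536870912 536870912 50465866 3 eng mog cd1q1 cd2q1 pd3 true false false .nn 1 1 3
    ndB1q1 ndB2q1 pcB3 Cut.none Ext.none :=
  certB0 (fam := true) (s1 := false) (s2 := false) (a := 1) (b := 1) (c := 3) (cn := .nn) (n1 := ndB1q1) (n2 := ndB2q1) (pc := pcB3) (cut := Cut.none) (xt := Ext.none) (P1 := 536870912) (W1 := 536870912) (P2 := 536870912) (W2 := 536870912) (P3 := 536870912) (W3 := 50465866) (N0 := 3) (En := eng) (mo := mog) (C1 := cd1q1) (C2 := cd2q1) (C3 := pd3)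
    rfl k0_mm_113

noncomputable def f_mm_123_a : ℕ → ℕ → ℕ → ℕ → Bool := onCell 536870912 536870912 0 536870912 536870912 50465866
    (rowB 3 eng mog cd1q1 cd2q2a pd3 0 true false false .npn 1 2 3 (qsf 536870912 536870912 0 536870912 3) ndB1q1 ndB2q2a pcB3 Cut.none Ext.none)

def k0_mm_123_a : ∃ t, chk3 f_mm_123_a t 1 1 1 = true :=
  ⟨(l 4), by decide +kernel⟩

theorem c_mm_123_a : CertB 536870912 536870912 0 536870912 536870912 50465866 3 eng mog cd1q1 cd2q2a pd3 true false false .npn 1 2 3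
    ndB1q1 ndB2q2a pcB3 Cut.none Ext.none :=
  certB0 (fam := true) (s1 := false) (s2 := false) (a := 1) (b := 2) (c := 3) (cn := .npn) (n1 := ndB1q1) (n2 := ndB2q2a) (pc := pcB3) (cut := Cut.none) (xt := Ext.none) (P1 := 536870912) (W1 := 536870912) (P2 := 0) (W2 := 536870912) (P3 := 536870912) (W3 := 50465866) (N0 := 3) (En := eng) (mo := mog) (C1 := cd1q1) (C2 := cd2q2a) (C3 := pd3)
    rfl k0_mm_123_a

noncomputable def f_mm_123_b : ℕ → ℕ → ℕ → ℕ → Bool := onCell 536870912 536870912 1239849684 370763052 536870912 50465866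
    (rowB 3 eng mog cd1q1 cd2q2b pd3 0 true false false .npn 1 2 3 (qsf 536870912 536870912 1239849684 370763052 3) ndB1q1 ndB2q2b pcB3 Cut.none Ext.none)

def k0_mm_123_b : ∃ t, chk3 f_mm_123_b t 1 1 1 = true :=
  ⟨(l 4), by decide +kernel⟩

theorem c_mm_123_b : CertB 536870912 536870912 1239849684 370763052 536870912 50465866 3 eng mog cd1q1 cd2q2b pd3 true false false .npn 1 2 3
    ndB1q1 ndB2q2b pcB3 Cut.none Ext.none :=
  certB0 (fam := true) (s1 := false) (s2 := false) (a := 1) (b := 2) (c := 3) (cn := .npn) (n1 := ndB1q1) (n2 := ndB2q2b) (pc := pcB3) (cut := Cut.none) (xt := Ext.none) (P1 := 536870912) (W1 := 536870912) (P2 := 1239849684) (W2 := 370763052) (P3 := 536870912) (W3 := 50465866) (N0 := 3) (En := eng) (mo := mog) (C1 := cd1q1) (C2 := cd2q2b) (C3 := pd3)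
    rfl k0_mm_123_b

noncomputable def f_mm_133 : ℕ → ℕ → ℕ → ℕ → Bool := onCell 536870912 536870912 1610612736 536870912 536870912 50465866
    (rowB 3 eng mog cd1q1 cd2q3 pd3 0 true false false .dn 1 3 3 (qsf 536870912 536870912 1610612736 536870912 3) ndB1q1 ndB2q3 pcB3 Cut.none Ext.none)

def k0_mm_133 : ∃ t, chk3 f_mm_133 t 1 1 1 = true :=
  ⟨(l 4), by decide +kernel⟩

theorem c_mm_133 : CertB 536870912 536870912 1610612736 536870912 536870912 50465866 3 eng mog cd1q1 cd2q3 pd3 true false false .dn 1 3 3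
    ndB1q1 ndB2q3 pcB3 Cut.none Ext.none :=
  certB0 (fam := true) (s1 := false) (s2 := false) (a := 1) (b := 3) (c := 3) (cn := .dn) (n1 := ndB1q1) (n2 := ndB2q3) (pc := pcB3) (cut := Cut.none) (xt := Ext.none) (P1 := 536870912) (W1 := 536870912) (P2 := 1610612736) (W2 := 536870912) (P3 := 536870912) (W3 := 50465866) (N0 := 3) (En := eng) (mo := mog) (C1 := cd1q1) (C2 := cd2q3) (C3 := pd3)
    rfl k0_mm_133

noncomputable def cut_mm_202_a : Cut := Cut.of [[⟨0, 1, 0, 67108864⟩, ⟨1, 0, 0, 67108864⟩, ⟨2, 1, 0, 67108864⟩]]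

noncomputable def f_mm_202_a : ℕ → ℕ → ℕ → ℕ → Bool := onCell 0 536870912 0 536870912 536870912 50465866
    (rowB 3 eng mog cd1q2a cd2q0 pd2 0 true false false .pp 2 0 2 (qsf 0 536870912 0 536870912 2) ndB1q2a ndB2q0 pcB2 cut_mm_202_a Ext.none)

def k0_mm_202_a : ∃ t, chk3 f_mm_202_a t 2 1 1 = true :=
  ⟨(b (b (a (b (a (b (b (l 16480640) (l 16470168)) (b (l 16477312) (l 16484208))) (b (b (b (l 16530296) (l 16513840)) (a (l 16477368) (l 16484984))) (l 16495216))) (b (a (l 16495496) (l 16514952)) (l 16526296))) (b (b (a (b (l 16530736) (l 16533480)) (a (b (l 16508936) (l 16524080)) (b (l 16553064) (l 16542112)))) (a (b (l 16515032) (l 16526560)) (b (a (l 16539400) (l 16621056)) (a (l 16553056) (l 16594440))))) (a (b (l 16544936) (l 16571240)) (b (a (l 16573688) (l 16595568)) (l 16615096))))) (b (a (b (l 16548072) (l 16573232)) (a (l 16634912) (b (l 16645592) (l 16672992)))) (a (b (l 16602144) (l 16633312)) (b (a (l 16656944) (l 16695504)) (l 17951861799)))))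 (a (b (b (b (l 16665192) (l 16698320)) (b (l 16744760) (l 4))) (l 2)) (l 4))), by decide +kernel⟩

def k1_mm_202_a : ∃ t, chk3 f_mm_202_a t 3 1 1 = true :=
  ⟨(b (b (a (b (b (a (a (b (b (l 16563864) (l 16550352)) (l 16562032)) (b (b (a (l 16559808) (l 16571984)) (l 16572120)) (l 16583976))) (b (b (a (a (l 16584784) (b (l 16596672) (l 16599712))) (a (b (l 16610592) (l 16613832)) (b (l 16625064) (l 16628488)))) (a (l 16597304) (a (l 16618568) (l 16633504)))) (a (l 16633064) (b (l 16632664) (l 16640936))))) (a (b (a (l 16578312) (l 16663432)) (a (l 16657768) (l 16638632))) (b (a (l 16625616) (l 16653784)) (a (l 16643072) (l 16744920))))) (b (a (b (a (l 16610744) (l 16697672)) (l 16660384)) (b (a (l 16723784) (l 16731344)) (a (l 16762336) (a (l 16720232) (l 4))))) (a (a (l 16651408) (l 16697584)) (a (l 16786376) (l 4))))) (b (a (b (b (a (a (b (b (l 16661160) (l 16643800)) (l 16649096)) (b (b (a (l 16651936) (l 16659976)) (l 16659768)) (a (l 16661192)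 (l 16669448)))) (b (a (b (l 6) (l 16697280)) (l 6)) (a (l 16692552) (b (l 6) (l 16701536))))) (a (a (l 16659768) (l 16697184)) (a (l 16714480) (a (l 16706904) (l 16716064))))) (b (a (l 16690416) (a (l 16710592) (l 16723072))) (a (l 16694912) (a (l 16748584) (l 4))))) (b (a (b (l 6) (a (b (l 6) (l 16729040)) (l 6))) (l 6)) (a (b (a (a (l 16783936) (l 4)) (l 4)) (l 4)) (l 4)))) (a (a (b (b (l 16803744) (l 4)) (l 4)) (l 4)) (l 4)))) (a (b (a (b (a (l 16681656) (l 4)) (l 4)) (l 4)) (l 4)) (l 4))) (l 4)), by decide +kernel⟩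

theorem s2_mm_202_a : ∃ t, chk3 f_mm_202_a t 1 1 1 = true := ex3_a k0_mm_202_a k1_mm_202_a

theorem c_mm_202_a : CertB 0 536870912 0 536870912 536870912 50465866 3 eng mog cd1q2a cd2q0 pd2 true false false .pp 2 0 2
    ndB1q2a ndB2q0 pcB2 cut_mm_202_a Ext.none :=
  certB0 (fam := true) (s1 := false) (s2 := false) (a := 2) (b := 0) (c := 2) (cn := .pp) (n1 := ndB1q2a) (n2 := ndB2q0) (pc := pcB2) (cut := cut_mm_202_a) (xt := Ext.none) (P1 := 0) (W1 := 536870912) (P2 := 0) (W2 := 536870912) (P3 := 536870912) (W3 := 50465866) (N0 := 3) (En := eng) (mo := mog) (C1 := cd1q2a) (C2 := cd2q0) (C3 := pd2)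
    rfl s2_mm_202_a

noncomputable def cut_mm_202_b : Cut := Cut.of [[⟨0, 1, 0, 67108864⟩, ⟨1, 0, 0, 67108864⟩, ⟨2, 1, 0, 67108864⟩]]

noncomputable def f_mm_202_b : ℕ → ℕ → ℕ → ℕ → Bool := onCell 1073741824 536870912 0 536870912 536870912 50465866
    (rowB 3 eng mog cd1q2b cd2q0 pd2 2 true false false .pp 2 0 2 (qsf 1239849684 370763052 0 536870912 2) ndB1q2b ndB2q0 pcB2 cut_mm_202_b Ext.none)

def k0_mm_202_b : ∃ t, chk3 f_mm_202_b t 1 1 1 = true :=
  ⟨(a (b (a (l 1) (b (a (b (a (b (b (l 16543408) (l 1)) (l 1)) (b (a (b (l 16454232) (l 16497640)) (l 16440312)) (a (l 1) (l 184179918135)))) (l 1)) (a (b (b (l 16401240) (l 45130147655)) (b (l 207802332999) (l 1))) (b (b (l 16376560) (l 16419152)) (b (l 16486192) (l 259878828119))))) (l 1))) (l 1)) (a (b (b (a (b (b (a (l 16314432) (l 16278664)) (l 16379104)) (a (l 16466968) (l 16428208))) (b (b (l 16231912) (l 16289912)) (l 16375896))) (a (b (a (l 258805250983) (l 73584698023)) (l 1)) (b (l 16544632)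 (a (l 253436555047) (l 16617352))))) (l 1)) (b (b (a (b (l 16208152) (l 16315448)) (b (l 16159240) (l 16257160))) (a (b (l 16418480) (l 16512632)) (l 16526240))) (b (a (b (l 251288959815) (l 1)) (b (l 198675460743) (l 396243948343))) (l 1))))), by decide +kernel⟩

theorem c_mm_202_b : CertB 1239849684 370763052 0 536870912 536870912 50465866 3 eng mog cd1q2b cd2q0 pd2 true false false .pp 2 0 2
    ndB1q2b ndB2q0 pcB2 cut_mm_202_b Ext.none :=
  certB2 (fam := true) (s1 := false) (s2 := false) (a := 2) (b := 0) (c := 2) (cn := .pp) (n1 := ndB1q2b) (n2 := ndB2q0) (pc := pcB2) (cut := cut_mm_202_b) (xt := Ext.none) (P1 := 1239849684) (W1 := 370763052) (P2 := 0) (W2 := 536870912) (P3 := 536870912) (W3 := 50465866) (N0 := 3) (En := eng) (mo := mog) (C1 := cd1q2b) (C2 := cd2q0) (C3 := pd2)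
    rfl (fun _ => rfl) k0_mm_202_b

noncomputable def f_mm_203_a : ℕ → ℕ → ℕ → ℕ → Bool := onCell 0 536870912 1610612736 536870912 536870912 50465866
    (rowB 3 eng mog cd1q2a cd2q0 pd3 1 true false false .up 2 0 3 (qsf 0 536870912 0 536870912 3) ndB1q2a ndB2q0 pcB3 Cut.none Ext.none)

def k0_mm_203_a : ∃ t, chk3 f_mm_203_a t 1 1 1 = true :=
  ⟨(b (b (a (l 4) (l 4)) (l 4)) (l 2)), by decide +kernel⟩

theorem c_mm_203_a : CertB 0 536870912 0 536870912 536870912 50465866 3 eng mog cd1q2a cd2q0 pd3 true false false .up 2 0 3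
    ndB1q2a ndB2q0 pcB3 Cut.none Ext.none :=
  certB1 (fam := true) (s1 := false) (s2 := false) (a := 2) (b := 0) (c := 3) (cn := .up) (n1 := ndB1q2a) (n2 := ndB2q0) (pc := pcB3) (cut := Cut.none) (xt := Ext.none) (P1 := 0) (W1 := 536870912) (P2 := 0) (W2 := 536870912) (P3 := 536870912) (W3 := 50465866) (N0 := 3) (En := eng) (mo := mog) (C1 := cd1q2a) (C2 := cd2q0) (C3 := pd3)
    rfl (fun _ => rfl) k0_mm_203_a

noncomputable def f_mm_203_b : ℕ → ℕ → ℕ → ℕ → Bool := onCell 1239849684 370763052 1610612736 536870912 536870912 50465866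
    (rowB 3 eng mog cd1q2b cd2q0 pd3 1 true false false .up 2 0 3 (qsf 1239849684 370763052 0 536870912 3) ndB1q2b ndB2q0 pcB3 Cut.none Ext.none)

def k0_mm_203_b : ∃ t, chk3 f_mm_203_b t 1 1 1 = true :=
  ⟨(b (b (a (b (a (l 4) (b (l 16425192) (l 4))) (l 4)) (b (a (b (l 16303280) (l 16345496)) (b (l 16183280) (l 16237368))) (a (l 4) (l 16455528)))) (l 4)) (l 4)), by decide +kernel⟩

theorem c_mm_203_b : CertB 1239849684 370763052 0 536870912 536870912 50465866 3 eng mog cd1q2b cd2q0 pd3 true false false .up 2 0 3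
    ndB1q2b ndB2q0 pcB3 Cut.none Ext.none :=
  certB1 (fam := true) (s1 := false) (s2 := false) (a := 2) (b := 0) (c := 3) (cn := .up) (n1 := ndB1q2b) (n2 := ndB2q0) (pc := pcB3) (cut := Cut.none) (xt := Ext.none) (P1 := 1239849684) (W1 := 370763052) (P2 := 0) (W2 := 536870912) (P3 := 536870912) (W3 := 50465866) (N0 := 3) (En := eng) (mo := mog) (C1 := cd1q2b) (C2 := cd2q0) (C3 := pd3)
    rfl (fun _ => rfl) k0_mm_203_b

noncomputable def f_mm_213_a : ℕ → ℕ → ℕ → ℕ → Bool := onCell 0 536870912 536870912 536870912 536870912 50465866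
    (rowB 3 eng mog cd1q2a cd2q1 pd3 0 true false false .pnn 2 1 3 (qsf 0 536870912 536870912 536870912 3) ndB1q2a ndB2q1 pcB3 Cut.none Ext.none)

def k0_mm_213_a : ∃ t, chk3 f_mm_213_a t 1 1 1 = true :=
  ⟨(l 4), by decide +kernel⟩

theorem c_mm_213_a : CertB 0 536870912 536870912 536870912 536870912 50465866 3 eng mog cd1q2a cd2q1 pd3 true false false .pnn 2 1 3
    ndB1q2a ndB2q1 pcB3 Cut.none Ext.none :=
  certB0 (fam := true) (s1 := false) (s2 := false) (a := 2) (b := 1) (c := 3) (cn := .pnn) (n1 := ndB1q2a) (n2 := ndB2q1) (pc := pcB3) (cut := Cut.none) (xt := Ext.none) (P1 := 0) (W1 := 536870912) (P2 := 536870912) (W2 := 536870912) (P3 := 536870912) (W3 := 50465866) (N0 := 3) (En := eng) (mo := mog) (C1 := cd1q2a) (C2 := cd2q1) (C3 := pd3)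
    rfl k0_mm_213_a

noncomputable def f_mm_213_b : ℕ → ℕ → ℕ → ℕ → Bool := onCell 1239849684 370763052 536870912 536870912 536870912 50465866
    (rowB 3 eng mog cd1q2b cd2q1 pd3 0 true false false .pnn 2 1 3 (qsf 1239849684 370763052 536870912 536870912 3) ndB1q2b ndB2q1 pcB3 Cut.none Ext.none)

def k0_mm_213_b : ∃ t, chk3 f_mm_213_b t 1 1 1 = true :=
  ⟨(l 4), by decide +kernel⟩

theorem c_mm_213_b : CertB 1239849684 370763052 536870912 536870912 536870912 50465866 3 eng mog cd1q2b cd2q1 pd3 true false false .pnn 2 1 3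
    ndB1q2b ndB2q1 pcB3 Cut.none Ext.none :=
  certB0 (fam := true) (s1 := false) (s2 := false) (a := 2) (b := 1) (c := 3) (cn := .pnn) (n1 := ndB1q2b) (n2 := ndB2q1) (pc := pcB3) (cut := Cut.none) (xt := Ext.none) (P1 := 1239849684) (W1 := 370763052) (P2 := 536870912) (W2 := 536870912) (P3 := 536870912) (W3 := 50465866) (N0 := 3) (En := eng) (mo := mog) (C1 := cd1q2b) (C2 := cd2q1) (C3 := pd3)
    rfl k0_mm_213_b

noncomputable def f_mm_303 : ℕ → ℕ → ℕ → ℕ → Bool := onCell 1610612736 536870912 0 536870912 536870912 50465866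
    (rowB 3 eng mog cd1q3 cd2q0 pd3 2 true false false .npn 3 0 3 (qsf 1610612736 536870912 0 536870912 3) ndB1q3 ndB2q0 pcB3 Cut.none Ext.none)

def k0_mm_303 : ∃ t, chk3 f_mm_303 t 1 1 1 = true :=
  ⟨(a (a (b (a (b (a (l 16195696) (l 16226960)) (l 1)) (b (a (l 16342160) (l 16448976)) (l 4))) (l 1)) (l 4)) (l 4)), by decide +kernel⟩

theorem c_mm_303 : CertB 1610612736 536870912 0 536870912 536870912 50465866 3 eng mog cd1q3 cd2q0 pd3 true false false .npn 3 0 3
    ndB1q3 ndB2q0 pcB3 Cut.none Ext.none :=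
  certB2 (fam := true) (s1 := false) (s2 := false) (a := 3) (b := 0) (c := 3) (cn := .npn) (n1 := ndB1q3) (n2 := ndB2q0) (pc := pcB3) (cut := Cut.none) (xt := Ext.none) (P1 := 1610612736) (W1 := 536870912) (P2 := 0) (W2 := 536870912) (P3 := 536870912) (W3 := 50465866) (N0 := 3) (En := eng) (mo := mog) (C1 := cd1q3) (C2 := cd2q0) (C3 := pd3)
    rfl (fun _ => rfl) k0_mm_303

noncomputable def f_mm_313 : ℕ → ℕ → ℕ → ℕ → Bool := onCell 1610612736 536870912 536870912 536870912 536870912 50465866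
    (rowB 3 eng mog cd1q3 cd2q1 pd3 0 true false false .dn 3 1 3 (qsf 1610612736 536870912 536870912 536870912 3) ndB1q3 ndB2q1 pcB3 Cut.none Ext.none)

def k0_mm_313 : ∃ t, chk3 f_mm_313 t 1 1 1 = true :=
  ⟨(l 4), by decide +kernel⟩

theorem c_mm_313 : CertB 1610612736 536870912 536870912 536870912 536870912 50465866 3 eng mog cd1q3 cd2q1 pd3 true false false .dn 3 1 3
    ndB1q3 ndB2q1 pcB3 Cut.none Ext.none :=
  certB0 (fam := true) (s1 := false) (s2 := false) (a := 3) (b := 1) (c := 3) (cn := .dn) (n1 := ndB1q3) (n2 := ndB2q1) (pc := pcB3) (cut := Cut.none) (xt := Ext.none) (P1 := 1610612736) (W1 := 536870912) (P2 := 536870912) (W2 := 536870912) (P3 := 536870912) (W3 := 50465866) (N0 := 3) (En := eng) (mo := mog) (C1 := cd1q3) (C2 := cd2q1) (C3 := pd3)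
    rfl k0_mm_313

end Pool.Agent.Strip051.G.I5000_5470.Tab.C.BA12

namespace Pool.Agent.Strip051.G.I5000_5470.Tab.C.BA13

open Pool.Agent.Strip051.PB Pool.Agent.Strip051.PB.T
open Pool.Agent.Strip051.G.I5000_5470.Tab

noncomputable def f_pp_001 : ℕ → ℕ → ℕ → ℕ → Bool := onCell 0 536870912 0 536870912 536870912 50465866
    (rowB 3 eng mog cd1q0 cd3q0 pd1 0 true true true .up 0 0 1 (qsf 0 536870912 0 536870912 1) ndB1q0 ndB3q0 pcB1 Cut.none Ext.none)

def k0_pp_001 : ∃ t, chk3 f_pp_001 t 1 1 1 = true :=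
  ⟨(l 4), by decide +kernel⟩

theorem c_pp_001 : CertB 0 536870912 0 536870912 536870912 50465866 3 eng mog cd1q0 cd3q0 pd1 true true true .up 0 0 1
    ndB1q0 ndB3q0 pcB1 Cut.none Ext.none :=
  certB0 (fam := true) (s1 := true) (s2 := true) (a := 0) (b := 0) (c := 1) (cn := .up) (n1 := ndB1q0) (n2 := ndB3q0) (pc := pcB1) (cut := Cut.none) (xt := Ext.none) (P1 := 0) (W1 := 536870912) (P2 := 0) (W2 := 536870912) (P3 := 536870912) (W3 := 50465866) (N0 := 3) (En := eng) (mo := mog) (C1 := cd1q0) (C2 := cd3q0) (C3 := pd1)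
    rfl k0_pp_001

noncomputable def f_pp_011 : ℕ → ℕ → ℕ → ℕ → Bool := onCell 0 536870912 536870912 536870912 536870912 50465866
    (rowB 3 eng mog cd1q0 cd3q1 pd1 0 true true true .pnn 0 1 1 (qsf 0 536870912 536870912 536870912 1) ndB1q0 ndB3q1 pcB1 Cut.none Ext.none)

def k0_pp_011 : ∃ t, chk3 f_pp_011 t 1 1 1 = true :=
  ⟨(l 4), by decide +kernel⟩

theorem c_pp_011 : CertB 0 536870912 536870912 536870912 536870912 50465866 3 eng mog cd1q0 cd3q1 pd1 true true true .pnn 0 1 1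
    ndB1q0 ndB3q1 pcB1 Cut.none Ext.none :=
  certB0 (fam := true) (s1 := true) (s2 := true) (a := 0) (b := 1) (c := 1) (cn := .pnn) (n1 := ndB1q0) (n2 := ndB3q1) (pc := pcB1) (cut := Cut.none) (xt := Ext.none) (P1 := 0) (W1 := 536870912) (P2 := 536870912) (W2 := 536870912) (P3 := 536870912) (W3 := 50465866) (N0 := 3) (En := eng) (mo := mog) (C1 := cd1q0) (C2 := cd3q1) (C3 := pd1)
    rfl k0_pp_011

noncomputable def f_pp_012 : ℕ → ℕ → ℕ → ℕ → Bool := onCell 0 536870912 536870912 536870912 536870912 50465866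
    (rowB 3 eng mog cd1q0 cd3q1 pd2 0 true true true .pnp 0 1 2 (qsf 0 536870912 536870912 536870912 2) ndB1q0 ndB3q1 pcB2 Cut.none Ext.none)

def k0_pp_012 : ∃ t, chk3 f_pp_012 t 1 1 1 = true :=
  ⟨(l 4), by decide +kernel⟩

theorem c_pp_012 : CertB 0 536870912 536870912 536870912 536870912 50465866 3 eng mog cd1q0 cd3q1 pd2 true true true .pnp 0 1 2
    ndB1q0 ndB3q1 pcB2 Cut.none Ext.none :=
  certB0 (fam := true) (s1 := true) (s2 := true) (a := 0) (b := 1) (c := 2) (cn := .pnp) (n1 := ndB1q0) (n2 := ndB3q1) (pc := pcB2) (cut := Cut.none) (xt := Ext.none) (P1 := 0) (W1 := 536870912) (P2 := 536870912) (W2 := 536870912) (P3 := 536870912) (W3 := 50465866) (N0 := 3) (En := eng) (mo := mog) (C1 := cd1q0) (C2 := cd3q1) (C3 := pd2)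
    rfl k0_pp_012

noncomputable def cut_pp_022_a : Cut := Cut.of [[⟨0, 0, 0, 67108864⟩, ⟨1, 1, 0, 67108864⟩, ⟨2, 1, 0, 67108864⟩]]

noncomputable def f_pp_022_a : ℕ → ℕ → ℕ → ℕ → Bool := onCell 0 536870912 0 536870912 536870912 50465866
    (rowB 3 eng mog cd1q0 cd3q2a pd2 0 true true true .pp 0 2 2 (qsf 0 536870912 0 536870912 2) ndB1q0 ndB3q2a pcB2 cut_pp_022_a Ext.none)

def k0_pp_022_a : ∃ t, chk3 f_pp_022_a t 1 1 1 = true :=
  ⟨(a (a (a (b (b (a (b (a (b (l 16473104) (l 16473928)) (c (l 16552912) (l 16568768))) (a (a (l 16476192) (l 16483232)) (l 4))) (l 4)) (a (a (b (l 16516104) (l 4)) (l 4)) (l 4))) (b (l 4) (b (l 4) (a (b (l 4) (l 6)) (l 4))))) (l 4)) (l 4)) (l 4)), by decide +kernel⟩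

theorem c_pp_022_a : CertB 0 536870912 0 536870912 536870912 50465866 3 eng mog cd1q0 cd3q2a pd2 true true true .pp 0 2 2
    ndB1q0 ndB3q2a pcB2 cut_pp_022_a Ext.none :=
  certB0 (fam := true) (s1 := true) (s2 := true) (a := 0) (b := 2) (c := 2) (cn := .pp) (n1 := ndB1q0) (n2 := ndB3q2a) (pc := pcB2) (cut := cut_pp_022_a) (xt := Ext.none) (P1 := 0) (W1 := 536870912) (P2 := 0) (W2 := 536870912) (P3 := 536870912) (W3 := 50465866) (N0 := 3) (En := eng) (mo := mog) (C1 := cd1q0) (C2 := cd3q2a) (C3 := pd2)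
    rfl k0_pp_022_a

noncomputable def cut_pp_022_b : Cut := Cut.of [[⟨0, 0, 0, 67108864⟩, ⟨1, 1, 0, 67108864⟩, ⟨2, 1, 0, 67108864⟩]]

noncomputable def f_pp_022_b : ℕ → ℕ → ℕ → ℕ → Bool := onCell 0 536870912 1239849684 370763052 536870912 50465866
    (rowB 3 eng mog cd1q0 cd3q2b pd2 0 true true true .pp 0 2 2 (qsf 0 536870912 1239849684 370763052 2) ndB1q0 ndB3q2b pcB2 cut_pp_022_b Ext.none)

def k0_pp_022_b : ∃ t, chk3 f_pp_022_b t 1 1 1 = true :=
  ⟨(a (b (a (b (a (b (a (b (a (b (a (l 16459144) (l 16487312)) (a (l 16437808) (l 16444768))) (b (l 16476584) (l 16454008))) (a (l 16502296) (l 4))) (l 4)) (l 4)) (l 4)) (l 4)) (l 4)) (l 4)) (l 4)), by decide +kernel⟩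

theorem c_pp_022_b : CertB 0 536870912 1239849684 370763052 536870912 50465866 3 eng mog cd1q0 cd3q2b pd2 true true true .pp 0 2 2
    ndB1q0 ndB3q2b pcB2 cut_pp_022_b Ext.none :=
  certB0 (fam := true) (s1 := true) (s2 := true) (a := 0) (b := 2) (c := 2) (cn := .pp) (n1 := ndB1q0) (n2 := ndB3q2b) (pc := pcB2) (cut := cut_pp_022_b) (xt := Ext.none) (P1 := 0) (W1 := 536870912) (P2 := 1239849684) (W2 := 370763052) (P3 := 536870912) (W3 := 50465866) (N0 := 3) (En := eng) (mo := mog) (C1 := cd1q0) (C2 := cd3q2b) (C3 := pd2)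
    rfl k0_pp_022_b

noncomputable def f_pp_023_a : ℕ → ℕ → ℕ → ℕ → Bool := onCell 1610612736 536870912 0 536870912 536870912 50465866
    (rowB 3 eng mog cd1q0 cd3q2a pd3 2 true true true .up 0 2 3 (qsf 0 536870912 0 536870912 3) ndB1q0 ndB3q2a pcB3 Cut.none Ext.none)

def k0_pp_023_a : ∃ t, chk3 f_pp_023_a t 1 1 1 = true :=
  ⟨(l 4), by decide +kernel⟩

theorem c_pp_023_a : CertB 0 536870912 0 536870912 536870912 50465866 3 eng mog cd1q0 cd3q2a pd3 true true true .up 0 2 3
    ndB1q0 ndB3q2a pcB3 Cut.none Ext.none :=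
  certB2 (fam := true) (s1 := true) (s2 := true) (a := 0) (b := 2) (c := 3) (cn := .up) (n1 := ndB1q0) (n2 := ndB3q2a) (pc := pcB3) (cut := Cut.none) (xt := Ext.none) (P1 := 0) (W1 := 536870912) (P2 := 0) (W2 := 536870912) (P3 := 536870912) (W3 := 50465866) (N0 := 3) (En := eng) (mo := mog) (C1 := cd1q0) (C2 := cd3q2a) (C3 := pd3)
    rfl (fun _ => rfl) k0_pp_023_a

noncomputable def f_pp_023_b : ℕ → ℕ → ℕ → ℕ → Bool := onCell 1610612736 536870912 1239849684 370763052 536870912 50465866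
    (rowB 3 eng mog cd1q0 cd3q2b pd3 2 true true true .up 0 2 3 (qsf 0 536870912 1239849684 370763052 3) ndB1q0 ndB3q2b pcB3 Cut.none Ext.none)

def k0_pp_023_b : ∃ t, chk3 f_pp_023_b t 1 1 1 = true :=
  ⟨(l 4), by decide +kernel⟩

theorem c_pp_023_b : CertB 0 536870912 1239849684 370763052 536870912 50465866 3 eng mog cd1q0 cd3q2b pd3 true true true .up 0 2 3
    ndB1q0 ndB3q2b pcB3 Cut.none Ext.none :=
  certB2 (fam := true) (s1 := true) (s2 := true) (a := 0) (b := 2) (c := 3) (cn := .up) (n1 := ndB1q0) (n2 := ndB3q2b) (pc := pcB3) (cut := Cut.none) (xt := Ext.none) (P1 := 0) (W1 := 536870912) (P2 := 1239849684) (W2 := 370763052) (P3 := 536870912) (W3 := 50465866) (N0 := 3) (En := eng) (mo := mog) (C1 := cd1q0) (C2 := cd3q2b) (C3 := pd3)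
    rfl (fun _ => rfl) k0_pp_023_b

noncomputable def f_pp_033 : ℕ → ℕ → ℕ → ℕ → Bool := onCell 0 536870912 1610612736 536870912 536870912 50465866
    (rowB 3 eng mog cd1q0 cd3q3 pd3 0 true true true .pnn 0 3 3 (qsf 0 536870912 1610612736 536870912 3) ndB1q0 ndB3q3 pcB3 Cut.none Ext.none)

def k0_pp_033 : ∃ t, chk3 f_pp_033 t 1 1 1 = true :=
  ⟨(l 4), by decide +kernel⟩

theorem c_pp_033 : CertB 0 536870912 1610612736 536870912 536870912 50465866 3 eng mog cd1q0 cd3q3 pd3 true true true .pnn 0 3 3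
    ndB1q0 ndB3q3 pcB3 Cut.none Ext.none :=
  certB0 (fam := true) (s1 := true) (s2 := true) (a := 0) (b := 3) (c := 3) (cn := .pnn) (n1 := ndB1q0) (n2 := ndB3q3) (pc := pcB3) (cut := Cut.none) (xt := Ext.none) (P1 := 0) (W1 := 536870912) (P2 := 1610612736) (W2 := 536870912) (P3 := 536870912) (W3 := 50465866) (N0 := 3) (En := eng) (mo := mog) (C1 := cd1q0) (C2 := cd3q3) (C3 := pd3)
    rfl k0_pp_033

noncomputable def f_pp_101 : ℕ → ℕ → ℕ → ℕ → Bool := onCell 536870912 536870912 0 536870912 536870912 50465866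
    (rowB 3 eng mog cd1q1 cd3q0 pd1 0 true true true .npn 1 0 1 (qsf 536870912 536870912 0 536870912 1) ndB1q1 ndB3q0 pcB1 Cut.none Ext.none)

def k0_pp_101 : ∃ t, chk3 f_pp_101 t 1 1 1 = true :=
  ⟨(l 4), by decide +kernel⟩

theorem c_pp_101 : CertB 536870912 536870912 0 536870912 536870912 50465866 3 eng mog cd1q1 cd3q0 pd1 true true true .npn 1 0 1
    ndB1q1 ndB3q0 pcB1 Cut.none Ext.none :=
  certB0 (fam := true) (s1 := true) (s2 := true) (a := 1) (b := 0) (c := 1) (cn := .npn) (n1 := ndB1q1) (n2 := ndB3q0) (pc := pcB1) (cut := Cut.none) (xt := Ext.none) (P1 := 536870912) (W1 := 536870912) (P2 := 0) (W2 := 536870912) (P3 := 536870912) (W3 := 50465866) (N0 := 3) (En := eng) (mo := mog) (C1 := cd1q1) (C2 := cd3q0) (C3 := pd1)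
    rfl k0_pp_101

noncomputable def f_pp_102 : ℕ → ℕ → ℕ → ℕ → Bool := onCell 536870912 536870912 0 536870912 536870912 50465866
    (rowB 3 eng mog cd1q1 cd3q0 pd2 0 true true true .npp 1 0 2 (qsf 536870912 536870912 0 536870912 2) ndB1q1 ndB3q0 pcB2 Cut.none Ext.none)

def k0_pp_102 : ∃ t, chk3 f_pp_102 t 1 1 1 = true :=
  ⟨(l 4), by decide +kernel⟩

theorem c_pp_102 : CertB 536870912 536870912 0 536870912 536870912 50465866 3 eng mog cd1q1 cd3q0 pd2 true true true .npp 1 0 2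
    ndB1q1 ndB3q0 pcB2 Cut.none Ext.none :=
  certB0 (fam := true) (s1 := true) (s2 := true) (a := 1) (b := 0) (c := 2) (cn := .npp) (n1 := ndB1q1) (n2 := ndB3q0) (pc := pcB2) (cut := Cut.none) (xt := Ext.none) (P1 := 536870912) (W1 := 536870912) (P2 := 0) (W2 := 536870912) (P3 := 536870912) (W3 := 50465866) (N0 := 3) (En := eng) (mo := mog) (C1 := cd1q1) (C2 := cd3q0) (C3 := pd2)
    rfl k0_pp_102

noncomputable def f_pp_112 : ℕ → ℕ → ℕ → ℕ → Bool := onCell 536870912 536870912 536870912 536870912 536870912 50465866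
    (rowB 3 eng mog cd1q1 cd3q1 pd2 0 true true true .dn 1 1 2 (qsf 536870912 536870912 536870912 536870912 2) ndB1q1 ndB3q1 pcB2 Cut.none Ext.none)

def k0_pp_112 : ∃ t, chk3 f_pp_112 t 1 1 1 = true :=
  ⟨(l 4), by decide +kernel⟩

theorem c_pp_112 : CertB 536870912 536870912 536870912 536870912 536870912 50465866 3 eng mog cd1q1 cd3q1 pd2 true true true .dn 1 1 2
    ndB1q1 ndB3q1 pcB2 Cut.none Ext.none :=
  certB0 (fam := true) (s1 := true) (s2 := true) (a := 1) (b := 1) (c := 2) (cn := .dn) (n1 := ndB1q1) (n2 := ndB3q1) (pc := pcB2) (cut := Cut.none) (xt := Ext.none) (P1 := 536870912) (W1 := 536870912) (P2 := 536870912) (W2 := 536870912) (P3 := 536870912) (W3 := 50465866) (N0 := 3) (En := eng) (mo := mog) (C1 := cd1q1) (C2 := cd3q1) (C3 := pd2)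
    rfl k0_pp_112

noncomputable def f_pp_113 : ℕ → ℕ → ℕ → ℕ → Bool := onCell 536870912 536870912 536870912 536870912 536870912 50465866
    (rowB 3 eng mog cd1q1 cd3q1 pd3 0 true true true .nn 1 1 3 (qsf 536870912 536870912 536870912 536870912 3) ndB1q1 ndB3q1 pcB3 Cut.none Ext.none)

def k0_pp_113 : ∃ t, chk3 f_pp_113 t 1 1 1 = true :=
  ⟨(l 4), by decide +kernel⟩

theorem c_pp_113 : CertB 536870912 536870912 536870912 536870912 536870912 50465866 3 eng mog cd1q1 cd3q1 pd3 true true true .nn 1 1 3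
    ndB1q1 ndB3q1 pcB3 Cut.none Ext.none :=
  certB0 (fam := true) (s1 := true) (s2 := true) (a := 1) (b := 1) (c := 3) (cn := .nn) (n1 := ndB1q1) (n2 := ndB3q1) (pc := pcB3) (cut := Cut.none) (xt := Ext.none) (P1 := 536870912) (W1 := 536870912) (P2 := 536870912) (W2 := 536870912) (P3 := 536870912) (W3 := 50465866) (N0 := 3) (En := eng) (mo := mog) (C1 := cd1q1) (C2 := cd3q1) (C3 := pd3)
    rfl k0_pp_113

noncomputable def f_pp_123_a : ℕ → ℕ → ℕ → ℕ → Bool := onCell 536870912 536870912 0 536870912 536870912 50465866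
    (rowB 3 eng mog cd1q1 cd3q2a pd3 0 true true true .npn 1 2 3 (qsf 536870912 536870912 0 536870912 3) ndB1q1 ndB3q2a pcB3 Cut.none Ext.none)

def k0_pp_123_a : ∃ t, chk3 f_pp_123_a t 1 1 1 = true :=
  ⟨(l 4), by decide +kernel⟩

theorem c_pp_123_a : CertB 536870912 536870912 0 536870912 536870912 50465866 3 eng mog cd1q1 cd3q2a pd3 true true true .npn 1 2 3
    ndB1q1 ndB3q2a pcB3 Cut.none Ext.none :=
  certB0 (fam := true) (s1 := true) (s2 := true) (a := 1) (b := 2) (c := 3) (cn := .npn) (n1 := ndB1q1) (n2 := ndB3q2a) (pc := pcB3) (cut := Cut.none) (xt := Ext.none) (P1 := 536870912) (W1 := 536870912) (P2 := 0) (W2 := 536870912) (P3 := 536870912) (W3 := 50465866) (N0 := 3) (En := eng) (mo := mog) (C1 := cd1q1) (C2 := cd3q2a) (C3 := pd3)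
    rfl k0_pp_123_a

noncomputable def f_pp_123_b : ℕ → ℕ → ℕ → ℕ → Bool := onCell 536870912 536870912 1239849684 370763052 536870912 50465866
    (rowB 3 eng mog cd1q1 cd3q2b pd3 0 true true true .npn 1 2 3 (qsf 536870912 536870912 1239849684 370763052 3) ndB1q1 ndB3q2b pcB3 Cut.none Ext.none)

def k0_pp_123_b : ∃ t, chk3 f_pp_123_b t 1 1 1 = true :=
  ⟨(l 4), by decide +kernel⟩

theorem c_pp_123_b : CertB 536870912 536870912 1239849684 370763052 536870912 50465866 3 eng mog cd1q1 cd3q2b pd3 true true true .npn 1 2 3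
    ndB1q1 ndB3q2b pcB3 Cut.none Ext.none :=
  certB0 (fam := true) (s1 := true) (s2 := true) (a := 1) (b := 2) (c := 3) (cn := .npn) (n1 := ndB1q1) (n2 := ndB3q2b) (pc := pcB3) (cut := Cut.none) (xt := Ext.none) (P1 := 536870912) (W1 := 536870912) (P2 := 1239849684) (W2 := 370763052) (P3 := 536870912) (W3 := 50465866) (N0 := 3) (En := eng) (mo := mog) (C1 := cd1q1) (C2 := cd3q2b) (C3 := pd3)
    rfl k0_pp_123_b

noncomputable def f_pp_133 : ℕ → ℕ → ℕ → ℕ → Bool := onCell 536870912 536870912 1610612736 536870912 536870912 50465866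
    (rowB 3 eng mog cd1q1 cd3q3 pd3 0 true true true .dn 1 3 3 (qsf 536870912 536870912 1610612736 536870912 3) ndB1q1 ndB3q3 pcB3 Cut.none Ext.none)

def k0_pp_133 : ∃ t, chk3 f_pp_133 t 1 1 1 = true :=
  ⟨(l 4), by decide +kernel⟩

theorem c_pp_133 : CertB 536870912 536870912 1610612736 536870912 536870912 50465866 3 eng mog cd1q1 cd3q3 pd3 true true true .dn 1 3 3
    ndB1q1 ndB3q3 pcB3 Cut.none Ext.none :=
  certB0 (fam := true) (s1 := true) (s2 := true) (a := 1) (b := 3) (c := 3) (cn := .dn) (n1 := ndB1q1) (n2 := ndB3q3) (pc := pcB3) (cut := Cut.none) (xt := Ext.none) (P1 := 536870912) (W1 := 536870912) (P2 := 1610612736) (W2 := 536870912) (P3 := 536870912) (W3 := 50465866) (N0 := 3) (En := eng) (mo := mog) (C1 := cd1q1) (C2 := cd3q3) (C3 := pd3)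
    rfl k0_pp_133

noncomputable def f_pp_202_a : ℕ → ℕ → ℕ → ℕ → Bool := onCell 0 536870912 0 536870912 536870912 50465866
    (rowB 3 eng mog cd1q2a cd3q0 pd2 0 true true true .pp 2 0 2 (qsf 0 536870912 0 536870912 2) ndB1q2a ndB3q0 pcB2 Cut.none Ext.none)

def k0_pp_202_a : ∃ t, chk3 f_pp_202_a t 1 1 1 = true :=
  ⟨(l 5), by decide +kernel⟩

theorem c_pp_202_a : CertB 0 536870912 0 536870912 536870912 50465866 3 eng mog cd1q2a cd3q0 pd2 true true true .pp 2 0 2
    ndB1q2a ndB3q0 pcB2 Cut.none Ext.none :=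
  certB0 (fam := true) (s1 := true) (s2 := true) (a := 2) (b := 0) (c := 2) (cn := .pp) (n1 := ndB1q2a) (n2 := ndB3q0) (pc := pcB2) (cut := Cut.none) (xt := Ext.none) (P1 := 0) (W1 := 536870912) (P2 := 0) (W2 := 536870912) (P3 := 536870912) (W3 := 50465866) (N0 := 3) (En := eng) (mo := mog) (C1 := cd1q2a) (C2 := cd3q0) (C3 := pd2)
    rfl k0_pp_202_a

noncomputable def f_pp_202_b : ℕ → ℕ → ℕ → ℕ → Bool := onCell 1239849684 370763052 0 536870912 536870912 50465866
    (rowB 3 eng mog cd1q2b cd3q0 pd2 0 true true true .pp 2 0 2 (qsf 1239849684 370763052 0 536870912 2) ndB1q2b ndB3q0 pcB2 Cut.none Ext.none)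

def k0_pp_202_b : ∃ t, chk3 f_pp_202_b t 1 1 1 = true :=
  ⟨(l 5), by decide +kernel⟩

theorem c_pp_202_b : CertB 1239849684 370763052 0 536870912 536870912 50465866 3 eng mog cd1q2b cd3q0 pd2 true true true .pp 2 0 2
    ndB1q2b ndB3q0 pcB2 Cut.none Ext.none :=
  certB0 (fam := true) (s1 := true) (s2 := true) (a := 2) (b := 0) (c := 2) (cn := .pp) (n1 := ndB1q2b) (n2 := ndB3q0) (pc := pcB2) (cut := Cut.none) (xt := Ext.none) (P1 := 1239849684) (W1 := 370763052) (P2 := 0) (W2 := 536870912) (P3 := 536870912) (W3 := 50465866) (N0 := 3) (En := eng) (mo := mog) (C1 := cd1q2b) (C2 := cd3q0) (C3 := pd2)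
    rfl k0_pp_202_b

noncomputable def f_pp_203_a : ℕ → ℕ → ℕ → ℕ → Bool := onCell 0 536870912 0 536870912 536870912 50465866
    (rowB 3 eng mog cd1q2a cd3q0 pd3 0 true true true .up 2 0 3 (qsf 0 536870912 0 536870912 3) ndB1q2a ndB3q0 pcB3 Cut.none Ext.none)

def k0_pp_203_a : ∃ t, chk3 f_pp_203_a t 1 1 1 = true :=
  ⟨(l 5), by decide +kernel⟩

theorem c_pp_203_a : CertB 0 536870912 0 536870912 536870912 50465866 3 eng mog cd1q2a cd3q0 pd3 true true true .up 2 0 3
    ndB1q2a ndB3q0 pcB3 Cut.none Ext.none :=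
  certB0 (fam := true) (s1 := true) (s2 := true) (a := 2) (b := 0) (c := 3) (cn := .up) (n1 := ndB1q2a) (n2 := ndB3q0) (pc := pcB3) (cut := Cut.none) (xt := Ext.none) (P1 := 0) (W1 := 536870912) (P2 := 0) (W2 := 536870912) (P3 := 536870912) (W3 := 50465866) (N0 := 3) (En := eng) (mo := mog) (C1 := cd1q2a) (C2 := cd3q0) (C3 := pd3)
    rfl k0_pp_203_a

noncomputable def f_pp_203_b : ℕ → ℕ → ℕ → ℕ → Bool := onCell 1239849684 370763052 0 536870912 536870912 50465866
    (rowB 3 eng mog cd1q2b cd3q0 pd3 0 true true true .up 2 0 3 (qsf 1239849684 370763052 0 536870912 3) ndB1q2b ndB3q0 pcB3 Cut.none Ext.none)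

def k0_pp_203_b : ∃ t, chk3 f_pp_203_b t 1 1 1 = true :=
  ⟨(l 5), by decide +kernel⟩

theorem c_pp_203_b : CertB 1239849684 370763052 0 536870912 536870912 50465866 3 eng mog cd1q2b cd3q0 pd3 true true true .up 2 0 3
    ndB1q2b ndB3q0 pcB3 Cut.none Ext.none :=
  certB0 (fam := true) (s1 := true) (s2 := true) (a := 2) (b := 0) (c := 3) (cn := .up) (n1 := ndB1q2b) (n2 := ndB3q0) (pc := pcB3) (cut := Cut.none) (xt := Ext.none) (P1 := 1239849684) (W1 := 370763052) (P2 := 0) (W2 := 536870912) (P3 := 536870912) (W3 := 50465866) (N0 := 3) (En := eng) (mo := mog) (C1 := cd1q2b) (C2 := cd3q0) (C3 := pd3)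
    rfl k0_pp_203_b

noncomputable def f_pp_213_a : ℕ → ℕ → ℕ → ℕ → Bool := onCell 0 536870912 536870912 536870912 536870912 50465866
    (rowB 3 eng mog cd1q2a cd3q1 pd3 0 true true true .pnn 2 1 3 (qsf 0 536870912 536870912 536870912 3) ndB1q2a ndB3q1 pcB3 Cut.none Ext.none)

def k0_pp_213_a : ∃ t, chk3 f_pp_213_a t 1 1 1 = true :=
  ⟨(l 4), by decide +kernel⟩

theorem c_pp_213_a : CertB 0 536870912 536870912 536870912 536870912 50465866 3 eng mog cd1q2a cd3q1 pd3 true true true .pnn 2 1 3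
    ndB1q2a ndB3q1 pcB3 Cut.none Ext.none :=
  certB0 (fam := true) (s1 := true) (s2 := true) (a := 2) (b := 1) (c := 3) (cn := .pnn) (n1 := ndB1q2a) (n2 := ndB3q1) (pc := pcB3) (cut := Cut.none) (xt := Ext.none) (P1 := 0) (W1 := 536870912) (P2 := 536870912) (W2 := 536870912) (P3 := 536870912) (W3 := 50465866) (N0 := 3) (En := eng) (mo := mog) (C1 := cd1q2a) (C2 := cd3q1) (C3 := pd3)
    rfl k0_pp_213_a

noncomputable def f_pp_213_b : ℕ → ℕ → ℕ → ℕ → Bool := onCell 1239849684 370763052 536870912 536870912 536870912 50465866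
    (rowB 3 eng mog cd1q2b cd3q1 pd3 0 true true true .pnn 2 1 3 (qsf 1239849684 370763052 536870912 536870912 3) ndB1q2b ndB3q1 pcB3 Cut.none Ext.none)

def k0_pp_213_b : ∃ t, chk3 f_pp_213_b t 1 1 1 = true :=
  ⟨(l 4), by decide +kernel⟩

theorem c_pp_213_b : CertB 1239849684 370763052 536870912 536870912 536870912 50465866 3 eng mog cd1q2b cd3q1 pd3 true true true .pnn 2 1 3
    ndB1q2b ndB3q1 pcB3 Cut.none Ext.none :=
  certB0 (fam := true) (s1 := true) (s2 := true) (a := 2) (b := 1) (c := 3) (cn := .pnn) (n1 := ndB1q2b) (n2 := ndB3q1) (pc := pcB3) (cut := Cut.none) (xt := Ext.none) (P1 := 1239849684) (W1 := 370763052) (P2 := 536870912) (W2 := 536870912) (P3 := 536870912) (W3 := 50465866) (N0 := 3) (En := eng) (mo := mog) (C1 := cd1q2b) (C2 := cd3q1) (C3 := pd3)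
    rfl k0_pp_213_b

noncomputable def f_pp_303 : ℕ → ℕ → ℕ → ℕ → Bool := onCell 1610612736 536870912 0 536870912 536870912 50465866
    (rowB 3 eng mog cd1q3 cd3q0 pd3 0 true true true .npn 3 0 3 (qsf 1610612736 536870912 0 536870912 3) ndB1q3 ndB3q0 pcB3 Cut.none Ext.none)

def k0_pp_303 : ∃ t, chk3 f_pp_303 t 1 1 1 = true :=
  ⟨(l 5), by decide +kernel⟩

theorem c_pp_303 : CertB 1610612736 536870912 0 536870912 536870912 50465866 3 eng mog cd1q3 cd3q0 pd3 true true true .npn 3 0 3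
    ndB1q3 ndB3q0 pcB3 Cut.none Ext.none :=
  certB0 (fam := true) (s1 := true) (s2 := true) (a := 3) (b := 0) (c := 3) (cn := .npn) (n1 := ndB1q3) (n2 := ndB3q0) (pc := pcB3) (cut := Cut.none) (xt := Ext.none) (P1 := 1610612736) (W1 := 536870912) (P2 := 0) (W2 := 536870912) (P3 := 536870912) (W3 := 50465866) (N0 := 3) (En := eng) (mo := mog) (C1 := cd1q3) (C2 := cd3q0) (C3 := pd3)
    rfl k0_pp_303

noncomputable def f_pp_313 : ℕ → ℕ → ℕ → ℕ → Bool := onCell 1610612736 536870912 536870912 536870912 536870912 50465866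
    (rowB 3 eng mog cd1q3 cd3q1 pd3 0 true true true .dn 3 1 3 (qsf 1610612736 536870912 536870912 536870912 3) ndB1q3 ndB3q1 pcB3 Cut.none Ext.none)

def k0_pp_313 : ∃ t, chk3 f_pp_313 t 1 1 1 = true :=
  ⟨(l 4), by decide +kernel⟩

theorem c_pp_313 : CertB 1610612736 536870912 536870912 536870912 536870912 50465866 3 eng mog cd1q3 cd3q1 pd3 true true true .dn 3 1 3
    ndB1q3 ndB3q1 pcB3 Cut.none Ext.none :=
  certB0 (fam := true) (s1 := true) (s2 := true) (a := 3) (b := 1) (c := 3) (cn := .dn) (n1 := ndB1q3) (n2 := ndB3q1) (pc := pcB3) (cut := Cut.none) (xt := Ext.none) (P1 := 1610612736) (W1 := 536870912) (P2 := 536870912) (W2 := 536870912) (P3 := 536870912) (W3 := 50465866) (N0 := 3) (En := eng) (mo := mog) (C1 := cd1q3) (C2 := cd3q1) (C3 := pd3)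
    rfl k0_pp_313

noncomputable def f_pm_001 : ℕ → ℕ → ℕ → ℕ → Bool := onCell 0 536870912 0 536870912 536870912 50465866
    (rowB 3 eng mog cd1q0 cd3q0 pd1 0 true true false .up 0 0 1 (qsf 0 536870912 0 536870912 1) ndB1q0 ndB3q0 pcB1 Cut.none Ext.none)

def k0_pm_001 : ∃ t, chk3 f_pm_001 t 1 1 1 = true :=
  ⟨(l 3), by decide +kernel⟩

theorem c_pm_001 : CertB 0 536870912 0 536870912 536870912 50465866 3 eng mog cd1q0 cd3q0 pd1 true true false .up 0 0 1
    ndB1q0 ndB3q0 pcB1 Cut.none Ext.none :=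
  certB0 (fam := true) (s1 := true) (s2 := false) (a := 0) (b := 0) (c := 1) (cn := .up) (n1 := ndB1q0) (n2 := ndB3q0) (pc := pcB1) (cut := Cut.none) (xt := Ext.none) (P1 := 0) (W1 := 536870912) (P2 := 0) (W2 := 536870912) (P3 := 536870912) (W3 := 50465866) (N0 := 3) (En := eng) (mo := mog) (C1 := cd1q0) (C2 := cd3q0) (C3 := pd1)
    rfl k0_pm_001

noncomputable def f_pm_011 : ℕ → ℕ → ℕ → ℕ → Bool := onCell 0 536870912 536870912 536870912 536870912 50465866
    (rowB 3 eng mog cd1q0 cd3q1 pd1 1 true true false .pnn 0 1 1 (qsf 0 536870912 536870912 536870912 1) ndB1q0 ndB3q1 pcB1 Cut.none Ext.none)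

def k0_pm_011 : ∃ t, chk3 f_pm_011 t 1 1 1 = true :=
  ⟨(b (l 3) (l 3)), by decide +kernel⟩

theorem c_pm_011 : CertB 0 536870912 536870912 536870912 536870912 50465866 3 eng mog cd1q0 cd3q1 pd1 true true false .pnn 0 1 1
    ndB1q0 ndB3q1 pcB1 Cut.none Ext.none :=
  certB1 (fam := true) (s1 := true) (s2 := false) (a := 0) (b := 1) (c := 1) (cn := .pnn) (n1 := ndB1q0) (n2 := ndB3q1) (pc := pcB1) (cut := Cut.none) (xt := Ext.none) (P1 := 0) (W1 := 536870912) (P2 := 536870912) (W2 := 536870912) (P3 := 536870912) (W3 := 50465866) (N0 := 3) (En := eng) (mo := mog) (C1 := cd1q0) (C2 := cd3q1) (C3 := pd1)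
    rfl (fun _ => rfl) k0_pm_011

noncomputable def f_pm_012 : ℕ → ℕ → ℕ → ℕ → Bool := onCell 1073741824 536870912 536870912 536870912 536870912 50465866
    (rowB 3 eng mog cd1q0 cd3q1 pd2 2 true true false .pnp 0 1 2 (qsf 0 536870912 536870912 536870912 2) ndB1q0 ndB3q1 pcB2 Cut.none Ext.none)

def k0_pm_012 : ∃ t, chk3 f_pm_012 t 4 1 1 = true :=
  ⟨(b (a (l 3) (b (a (b (a (l 16677960) (l 2)) (a (l 16476264) (l 16435088))) (b (l 2) (a (l 16390472) (l 16401640)))) (a (a (l 3) (b (b (l 16523296) (a (l 16491552) (l 16492448))) (a (l 16497176) (l 16495904)))) (b (a (b (l 16470920) (l 16496616)) (b (l 16479240) (l 16498784))) (a (l 16514960) (l 16495504)))))) (a (l 3) (a (a (l 3) (b (a (l 3) (b (l 16497008) (l 16524224))) (l 3))) (b (a (b (a (l 16493536) (l 16491528)) (b (l 16492024) (l 16493216))) (b (l 16487536) (b (l 16482064) (l 16479328)))) (b (a (b (l 16560104) (a (l 16507424) (l 16495472))) (b (l 16477856) (a (l 16483760) (l 16472992)))) (a (a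 (b (l 16514824) (l 3)) (b (l 16500184) (b (l 16505056) (l 16529808)))) (b (a (a (l 16490560) (l 16484208)) (l 16473960)) (a (a (l 16495104) (l 16487648)) (l 16497008))))))))), by decide +kernel⟩

def k1_pm_012 : ∃ t, chk3 f_pm_012 t 5 1 1 = true :=
  ⟨(b (a (b (a (a (b (l 2) (l 16428184)) (l 2)) (l 2)) (a (a (b (l 16621616) (l 16495064)) (a (b (l 16500960) (l 16494808)) (a (b (l 16506480) (l 16496480)) (b (a (l 16515288) (l 16526032)) (a (l 16502576) (l 16511160)))))) (b (l 16533912) (l 16514248)))) (b (l 2) (b (l 16716112) (l 16523224)))) (a (a (a (b (b (a (l 16483368) (l 16481248)) (a (l 16472544) (l 16467632))) (b (a (b (l 16465264) (l 16462320)) (b (l 16457944) (l 16453152))) (b (a (l 16461136) (l 16450080)) (a (l 16461080) (b (l 16448232) (l 16447304)))))) (a (b (b (l 16477776) (l 16460600)) (b (b (l 16448472) (l 16441656)) (b (l 16437024) (a (l 16437600) (l 16429304))))) (b (a (b (l 16476384) (l 16455856)) (b (a (l 16480448) (l 16487472)) (a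 (l 16457520) (l 16462520)))) (a (b (l 16437072) (b (l 16426688) (l 16421808))) (b (a (l 16436184) (b (l 16444496) (l 16433120))) (b (a (l 16423768) (l 16424248)) (a (l 16417680) (c (l 16424448) (l 16408552))))))))) (b (b (l 16486496) (l 16455888)) (b (b (l 16432784) (l 16417624)) (b (l 16403920) (l 16392096))))) (b (b (l 16487240) (b (l 16454856) (l 16431568))) (b (b (l 16407560) (l 16383168)) (b (l 16358632) (a (l 16351096) (l 16320512))))))), by decide +kernel⟩

def k2_pm_012 : ∃ t, chk3 f_pm_012 t 3 1 1 = true :=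
  ⟨(a (b (b (l 2) (b (l 2) (a (l 16547408) (l 2)))) (b (a (b (l 16508744) (l 16454488)) (b (l 16549664) (l 16496656))) (b (a (b (l 16405456) (l 16369840)) (l 16421088)) (a (b (l 16332952) (l 16295296)) (b (l 16351472) (l 16301136)))))) (b (l 2) (a (b (b (l 2) (l 16530136)) (b (l 16459200) (a (l 16356672) (l 16366112)))) (b (l 2) (b (a (l 16472736) (l 2)) (b (l 16415312) (l 16357856))))))), by decide +kernel⟩

theorem s3_pm_012 : ∃ t, chk3 f_pm_012 t 2 1 1 = true := ex3_a k0_pm_012 k1_pm_012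

theorem s4_pm_012 : ∃ t, chk3 f_pm_012 t 1 1 1 = true := ex3_a s3_pm_012 k2_pm_012

theorem c_pm_012 : CertB 0 536870912 536870912 536870912 536870912 50465866 3 eng mog cd1q0 cd3q1 pd2 true true false .pnp 0 1 2
    ndB1q0 ndB3q1 pcB2 Cut.none Ext.none :=
  certB2 (fam := true) (s1 := true) (s2 := false) (a := 0) (b := 1) (c := 2) (cn := .pnp) (n1 := ndB1q0) (n2 := ndB3q1) (pc := pcB2) (cut := Cut.none) (xt := Ext.none) (P1 := 0) (W1 := 536870912) (P2 := 536870912) (W2 := 536870912) (P3 := 536870912) (W3 := 50465866) (N0 := 3) (En := eng) (mo := mog) (C1 := cd1q0) (C2 := cd3q1) (C3 := pd2)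
    rfl (fun _ => rfl) s4_pm_012

noncomputable def cut_pm_022_a : Cut := Cut.of [[⟨0, 0, 0, 67108864⟩, ⟨1, 1, 0, 67108864⟩, ⟨2, 1, 0, 67108864⟩]]

noncomputable def f_pm_022_a : ℕ → ℕ → ℕ → ℕ → Bool := onCell 1073741824 536870912 0 536870912 536870912 50465866
    (rowB 3 eng mog cd1q0 cd3q2a pd2 2 true true false .pp 0 2 2 (qsf 0 536870912 0 536870912 2) ndB1q0 ndB3q2a pcB2 cut_pm_022_a Ext.none)

def k0_pm_022_a : ∃ t, chk3 f_pm_022_a t 2 2 1 = true :=
  ⟨(a (a (l 1) (a (l 1) (b (l 1) (b (l 1) (a (l 1) (b (l 1) (a (l 1) (b (l 16536096) (l 123513383847))))))))) (a (a (a (b (l 1) (b (a (l 1) (b (l 16507864) (l 118144620487))) (b (a (l 102575387047) (l 16522352)) (a (l 155188757895) (l 16531128))))) (b (a (b (l 1) (b (l 1) (l 96669760983))) (a (b (l 1) (b (l 16495216) (l 16498760))) (b (a (b (l 16492200) (l 16492736)) (b (c (l 208875810919) (a (a (a (l 16485496) (a (l 16485576) (l 16485688))) (l 16485632)) (l 16485496))) (c (l 16498280) (a (a (a (l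 16486240) (l 16486448)) (l 16486368)) (l 16486200))))) (a (l 16496632) (b (c (l 16500008) (l 16488592)) (l 16498144)))))) (a (b (b (l 108480931719) (l 16511672)) (b (l 16519032) (l 16527328))) (a (b (l 16506752) (l 16520784)) (b (a (l 16506008) (b (l 16502776) (l 16508544))) (a (l 16519728) (l 16519352))))))) (b (a (b (a (b (a (l 16491512) (l 16491088)) (l 16491616)) (l 16491432)) (a (b (l 16493416) (l 16496576)) (l 16494272))) (b (l 16491752) (l 16493496))) (b (a (a (l 16503896) (l 16502176)) (l 16500080)) (a (l 16515496) (l 16510464))))) (b (a (b (l 16492840) (l 16492392)) (l 16493880)) (a (b (l 16496328) (l 16503592)) (b (l 16492120) (l 16495064)))))), by decide +kernel⟩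

def k1_pm_022_a : ∃ t, chk3 f_pm_022_a t 8 3 1 = true :=
  ⟨(b (l 1) (a (b (l 1) (l 6)) (b (b (a (l 1) (a (l 1) (b (l 1) (a (b (l 1) (l 6)) (b (l 16650880) (l 16655472)))))) (a (l 6) (a (l 6) (a (l 6) (b (l 16662424) (b (l 16669336) (l 16673960))))))) (a (l 6) (a (l 6) (a (l 6) (b (b (l 16680888) (l 16690336)) (b (l 16700136) (l 16709848))))))))), by decide +kernel⟩

def k2_pm_022_a : ∃ t, chk3 f_pm_022_a t 9 3 1 = true :=
  ⟨(b (a (b (l 1) (a (b (l 1) (a (l 1) (b (l 20971193063) (a (l 63920885495) (l 16618288))))) (b (a (b (l 1) (l 34392937863)) (b (l 52646522119) (l 104186145879))) (a (b (a (l 16612472) (l 16609696)) (l 16619136)) (b (l 16605496) (l 16613208)))))) (b (a (b (a (l 1) (l 39224683319)) (a (b (l 1) (l 77342561783)) (b (l 104722954839) (l 16573600)))) (b (a (b (l 78953116375) (l 123513415223)) (b (l 16546568) (l 16552120))) (a (l 16565672) (l 16560856)))) (a (b (a (b (l 124587216695) (l 16592544)) (l 16583760)) (a (l 16603552) (l 16597608)))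 (b (l 16596704) (a (l 16591600) (l 16585512)))))) (b (a (b (a (a (b (a (l 52646627879) (l 93448810343)) (a (l 16650024) (l 16646832))) (b (a (l 16634984) (l 16631912)) (l 16641984))) (b (a (l 16627256) (l 16620984)) (a (l 16635424) (l 16628784)))) (a (b (a (l 16657392) (c (l 16651192) (l 16649552))) (a (c (l 16666712) (l 16665616)) (l 16659168))) (b (a (l 16643656) (l 16636648)) (l 16648192)))) (a (b (b (l 16611392) (l 16618648)) (l 16629672)) (b (l 16601688) (l 16615040)))) (b (a (a (b (l 16702960) (l 16702032)) (b (l 16656880) (l 16666608))) (a (a (l 16651320) (l 16644408)) (l 16676104))) (a (a (b (a (l 16736472) (l 16687152)) (a (l 16704216) (l 16696808))) (b (a (l 16679896) (l 16672728)) (a (l 16689520) (l 16682320)))) (a (b (l 16662160) (l 16671688)) (b (l 16648360) (l 16679080))))))), by decide +kernel⟩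

def k3_pm_022_a : ∃ t, chk3 f_pm_022_a t 5 3 1 = true :=
  ⟨(a (b (a (a (b (b (a (l 16545104) (l 16540752)) (l 16553576)) (b (l 16564792) (l 16576344))) (a (b (l 16541552) (l 16562056)) (b (a (l 16538192) (a (l 16536760) (l 16536144))) (a (l 16557808) (a (l 16555952) (l 16555080)))))) (b (a (l 16531048) (l 16523648)) (a (l 16548552) (l 16538496)))) (a (b (c (a (l 16593592) (a (l 16584336) (a (l 16579600) (b (l 16568680) (l 16605680))))) (a (l 16595064) (a (l 16584656) (a (l 16579624) (l 16661016))))) (a (b (l 16704792) (b (l 16635584) (l 16645784))) (a (b (l 16632544) (l 16632096)) (a (b (l 16607104) (l 16627664)) (a (b (l 16604664) (l 16625152)) (b (l 16686528) (b (l 16617928) (l 16648920)))))))) (a (b (l 16650736) (b (l 16680688) (b (l 16611968) (l 16642896)))) (b (l 16554800) (b (l 16585448) (l 16605488)))))) (b (b (a (l 16513152) (l 16499032)) (a (l 16523240) (l 16501648))) (b (a (l 16559696) (l 16518856)) (b (a (l 16569000) (l 16548424)) (a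 (l 16609704) (l 16568160)))))), by decide +kernel⟩

def k4_pm_022_a : ∃ t, chk3 f_pm_022_a t 3 1 1 = true :=
  ⟨(a (b (a (b (a (l 16495320) (l 16496992)) (a (l 16487976) (l 16481608))) (b (l 16495496) (l 16562248))) (b (a (b (l 16476352) (l 16467408)) (l 16554392)) (a (b (l 16534528) (a (b (l 16530512) (l 16551272)) (l 16589472))) (b (l 16470240) (a (l 16577800) (l 16509240)))))) (a (b (b (l 16480048) (l 16430840)) (b (l 16461080) (b (l 16478640) (b (l 16510232) (l 16532760))))) (b (a (l 16424680) (b (l 16457112) (l 16375904))) (b (a (l 16445864) (l 16475432)) (a (b (l 16507680) (l 16554512)) (b (l 16519656) (l 16570488))))))), by decide +kernel⟩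

theorem s5_pm_022_a : ∃ t, chk3 f_pm_022_a t 4 3 1 = true := ex3_a k1_pm_022_a k2_pm_022_a

theorem s6_pm_022_a : ∃ t, chk3 f_pm_022_a t 2 3 1 = true := ex3_a s5_pm_022_a k3_pm_022_a

theorem s7_pm_022_a : ∃ t, chk3 f_pm_022_a t 2 1 1 = true := ex3_b k0_pm_022_a s6_pm_022_a

theorem s8_pm_022_a : ∃ t, chk3 f_pm_022_a t 1 1 1 = true := ex3_a s7_pm_022_a k4_pm_022_a

theorem c_pm_022_a : CertB 0 536870912 0 536870912 536870912 50465866 3 eng mog cd1q0 cd3q2a pd2 true true false .pp 0 2 2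
    ndB1q0 ndB3q2a pcB2 cut_pm_022_a Ext.none :=
  certB2 (fam := true) (s1 := true) (s2 := false) (a := 0) (b := 2) (c := 2) (cn := .pp) (n1 := ndB1q0) (n2 := ndB3q2a) (pc := pcB2) (cut := cut_pm_022_a) (xt := Ext.none) (P1 := 0) (W1 := 536870912) (P2 := 0) (W2 := 536870912) (P3 := 536870912) (W3 := 50465866) (N0 := 3) (En := eng) (mo := mog) (C1 := cd1q0) (C2 := cd3q2a) (C3 := pd2)
    rfl (fun _ => rfl) s8_pm_022_a

noncomputable def cut_pm_022_b : Cut := Cut.of [[⟨0, 0, 0, 67108864⟩, ⟨1, 1, 0, 67108864⟩, ⟨2, 1, 0, 67108864⟩]]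

noncomputable def f_pm_022_b : ℕ → ℕ → ℕ → ℕ → Bool := onCell 0 536870912 1073741824 536870912 536870912 50465866
    (rowB 3 eng mog cd1q0 cd3q2b pd2 1 true true false .pp 0 2 2 (qsf 0 536870912 1239849684 370763052 2) ndB1q0 ndB3q2b pcB2 cut_pm_022_b Ext.none)

def k0_pm_022_b : ∃ t, chk3 f_pm_022_b t 1 1 1 = true :=
  ⟨(a (b (b (l 1) (a (b (b (a (b (l 1) (b (l 1) (a (b (l 1) (a (a (a (b (l 1) (c (l 16499944) (b (b (b (l 1) (b (l 1) (l 16488512))) (l 16488024)) (l 16486864)))) (l 1)) (l 1)) (l 1))) (l 1)))) (l 1)) (a (a (a (b (b (c (l 16499832) (b (l 16491176) (l 16485512))) (l 16484840)) (b (l 16475848) (l 16467368))) (b (b (l 1) (l 16504216)) (l 16490672))) (b (l 1) (l 16517312))) (l 1))) (a (a (a (a (b (b (c (l 16460448) (l 16440352)) (c (l 16448640) (l 16424624))) (b (l 16445968) (l 16436096))) (b (b (l 16460352) (l 16446272)) (l 16449808))) (b (l 16466896) (l 16442008))) (b (b (l 16500576) (l 16485704)) (l 16466888))) (a (b (l 16565544) (l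 16496624)) (b (l 1) (l 16521784))))) (l 1))) (b (a (a (b (a (b (a (b (a (l 16407216) (l 16415832)) (l 16426744)) (l 16424880)) (a (b (l 16403016) (l 16402920)) (l 16416800))) (b (l 16448352) (l 16437840))) (b (a (a (l 16404776) (l 16416984)) (l 16434568)) (a (l 16414680) (l 16435456)))) (b (a (l 16469512) (l 16493368)) (b (l 16468512) (l 16464160)))) (b (a (a (l 16533040) (l 54793968903)) (l 1)) (a (l 16499504) (b (l 16534352) (l 16508752))))) (b (a (a (a (b (a (b (l 16414064) (l 16411224)) (l 16426368)) (a (l 16401624) (l 16423320))) (b (l 16440976) (l 16446616))) (l 16467576)) (a (l 16492640) (l 16505160))) (a (b (a (a (l 16401392) (l 16443952)) (l 16481984)) (a (b (a (l 16394248) (l 16436424)) (l 16445016)) (b (l 16488648) (l 16517168)))) (b (l 16508632) (a (l 16529352) (l 16533480))))))) (a (b (l 1) (b (l 1) (b (a (l 16485120) (l 1)) (b (l 16599232) (a (l 16524128) (l 16472776)))))) (l 1))), by decide +kernel⟩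

theorem c_pm_022_b : CertB 0 536870912 1239849684 370763052 536870912 50465866 3 eng mog cd1q0 cd3q2b pd2 true true false .pp 0 2 2
    ndB1q0 ndB3q2b pcB2 cut_pm_022_b Ext.none :=
  certB1 (fam := true) (s1 := true) (s2 := false) (a := 0) (b := 2) (c := 2) (cn := .pp) (n1 := ndB1q0) (n2 := ndB3q2b) (pc := pcB2) (cut := cut_pm_022_b) (xt := Ext.none) (P1 := 0) (W1 := 536870912) (P2 := 1239849684) (W2 := 370763052) (P3 := 536870912) (W3 := 50465866) (N0 := 3) (En := eng) (mo := mog) (C1 := cd1q0) (C2 := cd3q2b) (C3 := pd2)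
    rfl (fun _ => rfl) k0_pm_022_b

noncomputable def f_pm_023_a : ℕ → ℕ → ℕ → ℕ → Bool := onCell 1610612736 536870912 0 536870912 536870912 50465866
    (rowB 3 eng mog cd1q0 cd3q2a pd3 2 true true false .up 0 2 3 (qsf 0 536870912 0 536870912 3) ndB1q0 ndB3q2a pcB3 Cut.none Ext.none)

def k0_pm_023_a : ∃ t, chk3 f_pm_023_a t 1 1 1 = true :=
  ⟨(a (a (a (b (a (l 16410104) (l 16440632)) (b (a (l 16491296) (l 16486368)) (a (b (l 16549656) (l 16597192)) (l 16580808)))) (b (a (l 16505424) (l 16575296)) (b (l 16575960) (a (l 16597968) (l 2))))) (b (a (l 16652544) (l 2)) (b (l 2) (l 2)))) (l 2)), by decide +kernel⟩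

theorem c_pm_023_a : CertB 0 536870912 0 536870912 536870912 50465866 3 eng mog cd1q0 cd3q2a pd3 true true false .up 0 2 3
    ndB1q0 ndB3q2a pcB3 Cut.none Ext.none :=
  certB2 (fam := true) (s1 := true) (s2 := false) (a := 0) (b := 2) (c := 3) (cn := .up) (n1 := ndB1q0) (n2 := ndB3q2a) (pc := pcB3) (cut := Cut.none) (xt := Ext.none) (P1 := 0) (W1 := 536870912) (P2 := 0) (W2 := 536870912) (P3 := 536870912) (W3 := 50465866) (N0 := 3) (En := eng) (mo := mog) (C1 := cd1q0) (C2 := cd3q2a) (C3 := pd3)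
    rfl (fun _ => rfl) k0_pm_023_a

noncomputable def f_pm_023_b : ℕ → ℕ → ℕ → ℕ → Bool := onCell 1610612736 536870912 1239849684 370763052 536870912 50465866
    (rowB 3 eng mog cd1q0 cd3q2b pd3 2 true true false .up 0 2 3 (qsf 0 536870912 1239849684 370763052 3) ndB1q0 ndB3q2b pcB3 Cut.none Ext.none)

def k0_pm_023_b : ∃ t, chk3 f_pm_023_b t 1 1 1 = true :=
  ⟨(a (a (a (b (a (b (l 16496728) (l 16527440)) (b (l 16533032) (l 16570936))) (b (a (l 16520784) (l 16576184)) (a (b (l 16460720) (l 16407144)) (l 16503392)))) (b (b (l 16556776) (l 16593384)) (b (a (l 16606592) (l 16611912)) (a (l 16551912) (l 16583488))))) (b (a (b (l 16635120) (l 16630448)) (b (l 16695328) (l 16691352))) (a (b (l 16654440) (l 16635680)) (b (l 16711888) (l 16701352))))) (b (a (b (l 2) (a (l 16732296) (l 113917867287))) (l 2)) (a (a (b (l 16756456) (l 16750080)) (a (l 16790192) (l 24259922871))) (a (a (l 16818536) (l 4)) (l 4))))), by decide +kernel⟩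

theorem c_pm_023_b : CertB 0 536870912 1239849684 370763052 536870912 50465866 3 eng mog cd1q0 cd3q2b pd3 true true false .up 0 2 3
    ndB1q0 ndB3q2b pcB3 Cut.none Ext.none :=
  certB2 (fam := true) (s1 := true) (s2 := false) (a := 0) (b := 2) (c := 3) (cn := .up) (n1 := ndB1q0) (n2 := ndB3q2b) (pc := pcB3) (cut := Cut.none) (xt := Ext.none) (P1 := 0) (W1 := 536870912) (P2 := 1239849684) (W2 := 370763052) (P3 := 536870912) (W3 := 50465866) (N0 := 3) (En := eng) (mo := mog) (C1 := cd1q0) (C2 := cd3q2b) (C3 := pd3)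
    rfl (fun _ => rfl) k0_pm_023_b

noncomputable def f_pm_033 : ℕ → ℕ → ℕ → ℕ → Bool := onCell 0 536870912 1610612736 536870912 536870912 50465866
    (rowB 3 eng mog cd1q0 cd3q3 pd3 1 true true false .pnn 0 3 3 (qsf 0 536870912 1610612736 536870912 3) ndB1q0 ndB3q3 pcB3 Cut.none Ext.none)

def k0_pm_033 : ∃ t, chk3 f_pm_033 t 1 1 1 = true :=
  ⟨(a (b (b (b (a (b (a (l 16443576) (l 1)) (a (l 16510896) (l 16540984))) (l 1)) (a (b (a (l 16563984) (l 16575728)) (l 16590760)) (l 301755070247))) (b (a (a (l 16630808) (l 16636832)) (l 16653312)) (a (b (l 16682960) (l 16705408)) (l 16707272)))) (b (b (a (l 16734472) (l 16747656)) (a (l 4) (b (l 16765904) (l 4)))) (l 4))) (b (b (l 1) (b (l 1) (a (l 16723272) (l 1)))) (b (b (a (l 16761320) (l 1)) (a (b (l 16790688) (l 16792760)) (l 16813768))) (b (a (l 4) (l 16817528)) (l 4))))), by decide +kernel⟩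

theorem c_pm_033 : CertB 0 536870912 1610612736 536870912 536870912 50465866 3 eng mog cd1q0 cd3q3 pd3 true true false .pnn 0 3 3
    ndB1q0 ndB3q3 pcB3 Cut.none Ext.none :=
  certB1 (fam := true) (s1 := true) (s2 := false) (a := 0) (b := 3) (c := 3) (cn := .pnn) (n1 := ndB1q0) (n2 := ndB3q3) (pc := pcB3) (cut := Cut.none) (xt := Ext.none) (P1 := 0) (W1 := 536870912) (P2 := 1610612736) (W2 := 536870912) (P3 := 536870912) (W3 := 50465866) (N0 := 3) (En := eng) (mo := mog) (C1 := cd1q0) (C2 := cd3q3) (C3 := pd3)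
    rfl (fun _ => rfl) k0_pm_033

noncomputable def f_pm_101 : ℕ → ℕ → ℕ → ℕ → Bool := onCell 536870912 536870912 0 536870912 536870912 50465866
    (rowB 3 eng mog cd1q1 cd3q0 pd1 2 true true false .npn 1 0 1 (qsf 536870912 536870912 0 536870912 1) ndB1q1 ndB3q0 pcB1 Cut.none Ext.none)

def k0_pm_101 : ∃ t, chk3 f_pm_101 t 1 1 1 = true :=
  ⟨(a (l 3) (a (l 3) (l 3))), by decide +kernel⟩

theorem c_pm_101 : CertB 536870912 536870912 0 536870912 536870912 50465866 3 eng mog cd1q1 cd3q0 pd1 true true false .npn 1 0 1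
    ndB1q1 ndB3q0 pcB1 Cut.none Ext.none :=
  certB2 (fam := true) (s1 := true) (s2 := false) (a := 1) (b := 0) (c := 1) (cn := .npn) (n1 := ndB1q1) (n2 := ndB3q0) (pc := pcB1) (cut := Cut.none) (xt := Ext.none) (P1 := 536870912) (W1 := 536870912) (P2 := 0) (W2 := 536870912) (P3 := 536870912) (W3 := 50465866) (N0 := 3) (En := eng) (mo := mog) (C1 := cd1q1) (C2 := cd3q0) (C3 := pd1)
    rfl (fun _ => rfl) k0_pm_101

noncomputable def f_pm_102 : ℕ → ℕ → ℕ → ℕ → Bool := onCell 536870912 536870912 1073741824 536870912 536870912 50465866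
    (rowB 3 eng mog cd1q1 cd3q0 pd2 1 true true false .npp 1 0 2 (qsf 536870912 536870912 0 536870912 2) ndB1q1 ndB3q0 pcB2 Cut.none Ext.none)

def k0_pm_102 : ∃ t, chk3 f_pm_102 t 2 1 1 = true :=
  ⟨(b (b (b (a (l 3) (l 3)) (b (a (a (b (l 16599576) (l 2)) (b (l 16623376) (l 16589080))) (a (b (l 16671256) (l 16723144)) (b (l 16762800) (l 16690968)))) (a (a (l 2) (l 16552656)) (a (b (l 16616424) (l 16600704)) (b (l 16669624) (l 16657512)))))) (b (b (a (b (l 16504624) (l 2)) (b (a (l 16593600) (l 16655760)) (b (a (l 16606536) (l 16680048)) (b (l 16678832) (b (l 16667760) (l 16759544)))))) (a (l 2) (a (l 16664872) (l 16717872)))) (a (l 2) (a (l 16698648) (l 16748104))))) (b (a (l 2) (b (l 16768552) (l 2))) (l 2))), by decide +kernel⟩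

def k1_pm_102 : ∃ t, chk3 f_pm_102 t 3 1 1 = true :=
  ⟨(b (b (b (b (l 3) (b (a (l 3) (a (l 3) (a (l 166597817415) (a (l 16752912) (a (l 16762624) (b (l 3) (l 16750848))))))) (a (a (l 16888168) (l 16808360)) (a (a (l 16796728) (l 16842272)) (a (b (l 16762704) (l 16756872)) (a (b (l 16741896) (l 16734456)) (b (l 16767680) (l 16717808)))))))) (a (b (b (a (l 17009640) (l 16749592)) (a (l 16861768) (l 16740592))) (a (b (l 16719152) (l 16710776)) (l 16908064))) (b (a (b (a (l 16750048) (l 16765344)) (l 16765456)) (a (b (l 16748792) (l 16738448)) (b (l 16715720) (l 16703544)))) (a (a (l 16765624) (l 16751616)) (a (l 16746168) (b (l 16693416) (l 16685168))))))) (b (a (b (b (a (l 16718384) (l 16766536)) (b (a (l 16735424) (l 16769144)) (a (l 16747480) (l 16769888)))) (a (l 16756648) (l 16771912))) (a (b (b (l 16752848) (b (l 16749072) (l 16743944))) (l 16740024)) (b (b (a (l 16714104) (l 16678336)) (b (l 16692440) (a (l 16703264) (l 16668736)))) (l 16680856))))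 (a (a (l 16779016) (l 16783880)) (a (l 16845208) (a (l 16684328) (l 16647072)))))) (b (a (b (l 16824928) (l 16886256)) (b (a (l 16772608) (l 16674272)) (a (l 16841840) (l 16737888)))) (b (a (l 16976816) (l 16921624)) (a (l 2) (b (l 17041216) (l 17112552)))))), by decide +kernel⟩

theorem s2_pm_102 : ∃ t, chk3 f_pm_102 t 1 1 1 = true := ex3_a k0_pm_102 k1_pm_102

theorem c_pm_102 : CertB 536870912 536870912 0 536870912 536870912 50465866 3 eng mog cd1q1 cd3q0 pd2 true true false .npp 1 0 2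
    ndB1q1 ndB3q0 pcB2 Cut.none Ext.none :=
  certB1 (fam := true) (s1 := true) (s2 := false) (a := 1) (b := 0) (c := 2) (cn := .npp) (n1 := ndB1q1) (n2 := ndB3q0) (pc := pcB2) (cut := Cut.none) (xt := Ext.none) (P1 := 536870912) (W1 := 536870912) (P2 := 0) (W2 := 536870912) (P3 := 536870912) (W3 := 50465866) (N0 := 3) (En := eng) (mo := mog) (C1 := cd1q1) (C2 := cd3q0) (C3 := pd2)
    rfl (fun _ => rfl) s2_pm_102

noncomputable def f_pm_112 : ℕ → ℕ → ℕ → ℕ → Bool := onCell 1073741824 536870912 536870912 536870912 536870912 50465866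
    (rowB 3 eng mog cd1q1 cd3q1 pd2 2 true true false .dn 1 1 2 (qsf 536870912 536870912 536870912 536870912 2) ndB1q1 ndB3q1 pcB2 Cut.none Ext.none)

def k0_pm_112 : ∃ t, chk3 f_pm_112 t 1 1 1 = true :=
  ⟨(a (a (b (a (l 3) (b (a (b (a (l 16583920) (l 16555240)) (a (l 16508224) (l 16505624))) (b (l 16555824) (a (l 16437832) (l 16467856)))) (a (l 1) (b (a (l 1) (l 234646118631)) (l 1))))) (l 1)) (b (a (b (a (a (b (l 16535080) (l 16498960)) (a (b (l 16549264) (l 16524208)) (a (l 16657872) (a (l 16675968) (b (l 16614416) (l 16570864)))))) (b (l 16648504) (l 16597504))) (b (a (a (l 198138906279) (a (l 16649816) (a (l 16529936) (a (l 16538544) (l 16548760))))) (l 16560216)) (a (l 1) (l 16534392)))) (b (b (l 16722472) (l 16659488)) (b (b (l 16612896) (l 16583312)) (l 16547008)))) (a (l 1) (b (b (l 147135980695) (l 1)) (l 1))))) (a (b (b (a (b (l 16807288) (l 16755824)) (l 16888192)) (b (a (l 16676952) (l 16805240)) (a (l 16603312) (l 16714400)))) (b (a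 (b (l 16537904) (l 149820179575)) (b (l 16619976) (l 98817409175))) (a (l 1) (b (l 157873054199) (l 1))))) (b (a (b (l 17012936) (b (l 16950680) (l 16870032))) (b (a (l 17130744) (l 17205224)) (b (l 17047240) (l 16948264)))) (a (b (b (l 16751144) (l 16621816)) (b (l 16527008) (l 179884675847))) (b (a (l 16789816) (l 16793792)) (a (l 109017903127) (b (l 16651376) (l 16468104)))))))), by decide +kernel⟩

theorem c_pm_112 : CertB 536870912 536870912 536870912 536870912 536870912 50465866 3 eng mog cd1q1 cd3q1 pd2 true true false .dn 1 1 2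
    ndB1q1 ndB3q1 pcB2 Cut.none Ext.none :=
  certB2 (fam := true) (s1 := true) (s2 := false) (a := 1) (b := 1) (c := 2) (cn := .dn) (n1 := ndB1q1) (n2 := ndB3q1) (pc := pcB2) (cut := Cut.none) (xt := Ext.none) (P1 := 536870912) (W1 := 536870912) (P2 := 536870912) (W2 := 536870912) (P3 := 536870912) (W3 := 50465866) (N0 := 3) (En := eng) (mo := mog) (C1 := cd1q1) (C2 := cd3q1) (C3 := pd2)
    rfl (fun _ => rfl) k0_pm_112

noncomputable def f_pm_113 : ℕ → ℕ → ℕ → ℕ → Bool := onCell 536870912 536870912 1610612736 536870912 536870912 50465866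
    (rowB 3 eng mog cd1q1 cd3q1 pd3 1 true true false .nn 1 1 3 (qsf 536870912 536870912 536870912 536870912 3) ndB1q1 ndB3q1 pcB3 Cut.none Ext.none)

def k0_pm_113 : ∃ t, chk3 f_pm_113 t 1 1 1 = true :=
  ⟨(a (b (b (b (a (a (l 16542432) (l 16712600)) (b (l 16893240) (l 16913936))) (a (a (l 261556565015) (l 16757080)) (a (l 16882024) (l 16958592)))) (a (a (l 2) (b (l 16760512) (l 2))) (b (l 16912104) (l 190153725639)))) (b (a (l 2) (b (a (l 2) (l 16928304)) (l 2))) (l 2))) (a (b (b (b (a (l 16982040) (l 16811240)) (l 16915304)) (b (l 16968304) (l 16944008))) (b (b (l 16928208) (b (l 16924408) (l 16919960))) (a (l 2) (b (l 204649201687) (l 2))))) (b (b (b (a (l 17103248) (l 17307488)) (a (l 17032504) (l 17101384))) (b (l 16980368) (l 17083568))) (b (b (l 16904864) (b (l 16879952) (l 16863208))) (b (l 17062904) (l 4)))))), by decide +kernel⟩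

theorem c_pm_113 : CertB 536870912 536870912 536870912 536870912 536870912 50465866 3 eng mog cd1q1 cd3q1 pd3 true true false .nn 1 1 3
    ndB1q1 ndB3q1 pcB3 Cut.none Ext.none :=
  certB1 (fam := true) (s1 := true) (s2 := false) (a := 1) (b := 1) (c := 3) (cn := .nn) (n1 := ndB1q1) (n2 := ndB3q1) (pc := pcB3) (cut := Cut.none) (xt := Ext.none) (P1 := 536870912) (W1 := 536870912) (P2 := 536870912) (W2 := 536870912) (P3 := 536870912) (W3 := 50465866) (N0 := 3) (En := eng) (mo := mog) (C1 := cd1q1) (C2 := cd3q1) (C3 := pd3)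
    rfl (fun _ => rfl) k0_pm_113

noncomputable def f_pm_123_a : ℕ → ℕ → ℕ → ℕ → Bool := onCell 1610612736 536870912 0 536870912 536870912 50465866
    (rowB 3 eng mog cd1q1 cd3q2a pd3 2 true true false .npn 1 2 3 (qsf 536870912 536870912 0 536870912 3) ndB1q1 ndB3q2a pcB3 Cut.none Ext.none)

def k0_pm_123_a : ∃ t, chk3 f_pm_123_a t 1 1 1 = true :=
  ⟨(a (a (a (b (l 1) (b (l 1) (a (b (l 1) (l 16661664)) (b (l 16609280) (l 16692296))))) (b (b (l 1) (l 16577624)) (b (a (l 16585832) (l 16656120)) (b (l 16699360) (a (l 16749160) (l 16821296)))))) (b (a (l 16688096) (b (l 16759640) (l 16778800))) (b (a (l 16747112) (l 16810312)) (a (b (l 16824904) (l 16896920)) (b (l 16895744) (l 16904472)))))) (a (b (a (l 16814296) (a (l 16824336) (l 16818888))) (a (b (l 16801320) (l 16944360)) (b (l 16853384) (b (l 16881272) (l 16904808))))) (b (a (a (l 16805912) (l 16812760)) (a (l 17005000) (l 4))) (b (a (a (l 16832144) (l 16809840)) (a (l 16941928) (a (l 16774824)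 (l 4)))) (b (a (l 16844280) (a (l 16889624) (a (l 16831904) (a (l 16776400) (l 4))))) (a (l 16860952) (a (l 16821112) (a (b (l 16795184) (l 16883248)) (a (l 16826904) (a (l 16777784) (l 4))))))))))), by decide +kernel⟩

theorem c_pm_123_a : CertB 536870912 536870912 0 536870912 536870912 50465866 3 eng mog cd1q1 cd3q2a pd3 true true false .npn 1 2 3
    ndB1q1 ndB3q2a pcB3 Cut.none Ext.none :=
  certB2 (fam := true) (s1 := true) (s2 := false) (a := 1) (b := 2) (c := 3) (cn := .npn) (n1 := ndB1q1) (n2 := ndB3q2a) (pc := pcB3) (cut := Cut.none) (xt := Ext.none) (P1 := 536870912) (W1 := 536870912) (P2 := 0) (W2 := 536870912) (P3 := 536870912) (W3 := 50465866) (N0 := 3) (En := eng) (mo := mog) (C1 := cd1q1) (C2 := cd3q2a) (C3 := pd3)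
    rfl (fun _ => rfl) k0_pm_123_a

noncomputable def f_pm_123_b : ℕ → ℕ → ℕ → ℕ → Bool := onCell 536870912 536870912 1610612736 536870912 536870912 50465866
    (rowB 3 eng mog cd1q1 cd3q2b pd3 1 true true false .npn 1 2 3 (qsf 536870912 536870912 1239849684 370763052 3) ndB1q1 ndB3q2b pcB3 Cut.none Ext.none)

def k0_pm_123_b : ∃ t, chk3 f_pm_123_b t 1 1 1 = true :=
  ⟨(a (b (b (l 1) (a (b (a (l 16715328) (l 1)) (l 16923296)) (l 1))) (b (b (a (a (l 16735224) (l 16766560)) (l 229814974359)) (a (b (l 16759088) (l 16798768)) (b (l 16827872) (l 185791418919)))) (b (a (b (l 16809272) (l 4)) (b (l 16943384) (l 16791864))) (l 4)))) (a (b (l 1) (b (l 1) (b (b (l 361348268519) (l 350610873799)) (b (a (l 16767488) (l 369401225383)) (l 4))))) (l 1))), by decide +kernel⟩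

theorem c_pm_123_b : CertB 536870912 536870912 1239849684 370763052 536870912 50465866 3 eng mog cd1q1 cd3q2b pd3 true true false .npn 1 2 3
    ndB1q1 ndB3q2b pcB3 Cut.none Ext.none :=
  certB1 (fam := true) (s1 := true) (s2 := false) (a := 1) (b := 2) (c := 3) (cn := .npn) (n1 := ndB1q1) (n2 := ndB3q2b) (pc := pcB3) (cut := Cut.none) (xt := Ext.none) (P1 := 536870912) (W1 := 536870912) (P2 := 1239849684) (W2 := 370763052) (P3 := 536870912) (W3 := 50465866) (N0 := 3) (En := eng) (mo := mog) (C1 := cd1q1) (C2 := cd3q2b) (C3 := pd3)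
    rfl (fun _ => rfl) k0_pm_123_b

noncomputable def f_pm_133 : ℕ → ℕ → ℕ → ℕ → Bool := onCell 536870912 536870912 1610612736 536870912 536870912 50465866
    (rowB 3 eng mog cd1q1 cd3q3 pd3 0 true true false .dn 1 3 3 (qsf 536870912 536870912 1610612736 536870912 3) ndB1q1 ndB3q3 pcB3 Cut.none Ext.none)

def k0_pm_133 : ∃ t, chk3 f_pm_133 t 1 1 1 = true :=
  ⟨(l 4), by decide +kernel⟩

theorem c_pm_133 : CertB 536870912 536870912 1610612736 536870912 536870912 50465866 3 eng mog cd1q1 cd3q3 pd3 true true false .dn 1 3 3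
    ndB1q1 ndB3q3 pcB3 Cut.none Ext.none :=
  certB0 (fam := true) (s1 := true) (s2 := false) (a := 1) (b := 3) (c := 3) (cn := .dn) (n1 := ndB1q1) (n2 := ndB3q3) (pc := pcB3) (cut := Cut.none) (xt := Ext.none) (P1 := 536870912) (W1 := 536870912) (P2 := 1610612736) (W2 := 536870912) (P3 := 536870912) (W3 := 50465866) (N0 := 3) (En := eng) (mo := mog) (C1 := cd1q1) (C2 := cd3q3) (C3 := pd3)
    rfl k0_pm_133

noncomputable def cut_pm_202_a : Cut := Cut.of [[⟨0, 1, 0, 67108864⟩, ⟨1, 0, 0, 67108864⟩, ⟨2, 1, 0, 67108864⟩]]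

noncomputable def f_pm_202_a : ℕ → ℕ → ℕ → ℕ → Bool := onCell 0 536870912 1073741824 536870912 536870912 50465866
    (rowB 3 eng mog cd1q2a cd3q0 pd2 1 true true false .pp 2 0 2 (qsf 0 536870912 0 536870912 2) ndB1q2a ndB3q0 pcB2 cut_pm_202_a Ext.none)

def k0_pm_202_a : ∃ t, chk3 f_pm_202_a t 2 1 1 = true :=
  ⟨(b (a (b (l 1) (b (b (b (l 1) (a (l 286185219047) (b (l 205117847591) (l 16527216)))) (b (a (l 16500488) (b (l 16468616) (l 16471608))) (a (l 16465648) (l 16475320)))) (b (a (l 16477352) (l 16484704)) (l 16501608)))) (b (b (l 1) (b (l 1) (a (l 1) (b (l 1) (b (l 1) (a (l 1) (b (l 16529624) (l 16527368)))))))) (b (b (b (a (b (l 1) (a (l 16587632) (l 16534768))) (c (a (l 401612595271) (l 16561184)) (b (a (l 16509456) (l 16492144)) (l 383358964983)))) (a (a (l 16561128) (l 16532064)) (b (a (l 16503152) (l 16519544)) (a (l 16506768) (b (l 16522352) (l 16524176)))))) (a (b (a (l 16484464) (l 16496784)) (l 16494760)) (b (a (l 16511120) (l 16527552))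 (l 16522416)))) (b (a (l 16502304) (l 16528504)) (a (l 16517480) (l 16541400)))))) (b (b (a (b (l 16527560) (l 16558864)) (a (l 16611016) (l 16563888))) (a (b (l 16577864) (l 16594472)) (l 16690928))) (b (a (l 16630312) (b (l 16611064) (l 16633064))) (a (l 16716728) (l 16718688))))), by decide +kernel⟩

def k1_pm_202_a : ∃ t, chk3 f_pm_202_a t 3 4 1 = true :=
  ⟨(b (a (l 1) (b (a (l 1) (l 6)) (b (a (a (l 1) (l 6)) (l 6)) (b (a (a (l 1) (l 6)) (l 6)) (a (a (a (l 1) (a (l 468721609863) (a (l 510597548567) (b (l 6) (l 16635688))))) (a (b (l 6) (l 16662904)) (l 16674808))) (a (l 16690416) (l 16709592))))))) (a (b (a (l 1) (b (a (l 1) (b (l 1) (a (l 433288055495) (l 519187420071)))) (a (b (a (l 1) (l 434898640727)) (a (l 455836579943) (l 515429260391))) (b (a (l 494491323639) (c (l 16681984) (b (l 16618776) (l 16616360)))) (a (b (a (l 16603704) (l 16607888)) (l 16603008)) (l 16612544)))))) (a (b (a (b (l 1) (l 444025347591)) (b (a (l 1) (l 484827583831))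 (a (l 519724155319) (b (l 16571632) (l 16632040))))) (a (b (a (l 489659343047) (l 16550952)) (a (b (l 16540456) (l 16538016)) (l 16545976))) (b (a (b (l 16559320) (l 16556760)) (l 16565088)) (l 16555976)))) (b (a (b (a (b (l 16584312) (l 16581816)) (l 16674784)) (a (l 16577816) (l 16585032))) (l 16680664)) (a (l 16576448) (l 16598920))))) (a (b (b (a (b (a (b (l 471942812199) (a (l 16635128) (l 16639888))) (a (b (b (l 16648288) (l 16646824)) (l 16644568)) (l 16650816))) (a (a (b (l 16632368) (l 16629480)) (l 16635448)) (l 16642424))) (a (b (l 16658416) (l 16653384)) (l 16666528))) (a (b (l 16685016) (l 16628848)) (l 16652296))) (a (b (l 16624392) (l 16620600)) (b (l 16645584) (l 16641288)))) (b (a (b (a (l 16676864) (l 16686824)) (l 16672688)) (b (l 16701120) (l 16691840))) (a (l 16663112) (l 16682544)))))), by decide +kernel⟩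

def k2_pm_202_a : ∃ t, chk3 f_pm_202_a t 3 5 1 = true :=
  ⟨(b (a (b (b (a (a (l 16618184) (l 16555200)) (l 16596096)) (a (b (l 16548456) (b (l 16550752) (l 16552392))) (b (l 16589984) (b (l 16591400) (l 16592376))))) (a (b (a (l 16545712) (l 16564864)) (l 16558168)) (b (l 16594712) (l 16596800)))) (b (a (b (l 16629976) (b (l 16630544) (b (l 16631352) (l 16631832)))) (b (l 16669752) (b (l 16670384) (b (l 16671240) (l 16671560))))) (a (l 16633984) (l 16776696)))) (a (a (b (l 16563080) (l 16573680)) (b (l 16601224) (l 16606848))) (a (b (l 16636568) (l 16636632)) (l 16668664)))), by decide +kernel⟩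

def k3_pm_202_a : ∃ t, chk3 f_pm_202_a t 3 3 1 = true :=
  ⟨(b (a (b (a (l 16585400) (l 16608552)) (a (l 16600728) (l 16619072))) (b (a (l 16634272) (l 16665392)) (a (l 16649624) (l 16704632)))) (b (a (l 16666328) (l 16779960)) (a (b (l 16751672) (l 16818760)) (l 17120440)))), by decide +kernel⟩

theorem s4_pm_202_a : ∃ t, chk3 f_pm_202_a t 3 2 1 = true := ex3_b k1_pm_202_a k2_pm_202_a

theorem s5_pm_202_a : ∃ t, chk3 f_pm_202_a t 3 1 1 = true := ex3_b s4_pm_202_a k3_pm_202_a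

theorem s6_pm_202_a : ∃ t, chk3 f_pm_202_a t 1 1 1 = true := ex3_a k0_pm_202_a s5_pm_202_a

theorem c_pm_202_a : CertB 0 536870912 0 536870912 536870912 50465866 3 eng mog cd1q2a cd3q0 pd2 true true false .pp 2 0 2
    ndB1q2a ndB3q0 pcB2 cut_pm_202_a Ext.none :=
  certB1 (fam := true) (s1 := true) (s2 := false) (a := 2) (b := 0) (c := 2) (cn := .pp) (n1 := ndB1q2a) (n2 := ndB3q0) (pc := pcB2) (cut := cut_pm_202_a) (xt := Ext.none) (P1 := 0) (W1 := 536870912) (P2 := 0) (W2 := 536870912) (P3 := 536870912) (W3 := 50465866) (N0 := 3) (En := eng) (mo := mog) (C1 := cd1q2a) (C2 := cd3q0) (C3 := pd2)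
    rfl (fun _ => rfl) s6_pm_202_a

noncomputable def cut_pm_202_b : Cut := Cut.of [[⟨0, 1, 0, 67108864⟩, ⟨1, 0, 0, 67108864⟩, ⟨2, 1, 0, 67108864⟩]]

noncomputable def f_pm_202_b : ℕ → ℕ → ℕ → ℕ → Bool := onCell 1073741824 536870912 0 536870912 536870912 50465866
    (rowB 3 eng mog cd1q2b cd3q0 pd2 2 true true false .pp 2 0 2 (qsf 1239849684 370763052 0 536870912 2) ndB1q2b ndB3q0 pcB2 cut_pm_202_b Ext.none)

def k0_pm_202_b : ∃ t, chk3 f_pm_202_b t 1 1 1 = true :=
  ⟨(a (b (b (a (l 1) (a (b (b (a (b (b (l 16513328) (l 1)) (l 1)) (b (b (l 16513968) (l 16507600)) (a (l 16496464) (l 16460400)))) (a (l 1) (a (l 1) (l 216392225591)))) (l 1)) (b (b (b (a (l 16390472) (l 16351848)) (l 16415800)) (a (l 16473088) (l 16410072))) (b (a (l 300144079719) (l 16495920)) (l 357052453847))))) (l 1)) (l 1)) (a (b (b (b (a (b (b (l 16305704) (l 16327136)) (l 16358904)) (b (l 16270456) (l 16307104))) (a (a (l 16473704) (l 16398408)) (l 16359936))) (a (b (b (l 345241449367)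 (l 354368096183)) (l 1)) (b (l 16718112) (l 367789971479)))) (l 1)) (b (b (a (b (b (l 16238536) (l 16271832)) (l 16320088)) (b (b (l 16225840) (l 16247272)) (l 16285864))) (a (b (l 16365840) (l 16561312)) (l 16344896))) (b (a (b (l 317324305895) (l 1)) (b (l 16630728) (l 444562890311))) (l 1))))), by decide +kernel⟩

theorem c_pm_202_b : CertB 1239849684 370763052 0 536870912 536870912 50465866 3 eng mog cd1q2b cd3q0 pd2 true true false .pp 2 0 2
    ndB1q2b ndB3q0 pcB2 cut_pm_202_b Ext.none :=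
  certB2 (fam := true) (s1 := true) (s2 := false) (a := 2) (b := 0) (c := 2) (cn := .pp) (n1 := ndB1q2b) (n2 := ndB3q0) (pc := pcB2) (cut := cut_pm_202_b) (xt := Ext.none) (P1 := 1239849684) (W1 := 370763052) (P2 := 0) (W2 := 536870912) (P3 := 536870912) (W3 := 50465866) (N0 := 3) (En := eng) (mo := mog) (C1 := cd1q2b) (C2 := cd3q0) (C3 := pd2)
    rfl (fun _ => rfl) k0_pm_202_b

noncomputable def f_pm_203_a : ℕ → ℕ → ℕ → ℕ → Bool := onCell 0 536870912 1610612736 536870912 536870912 50465866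
    (rowB 3 eng mog cd1q2a cd3q0 pd3 1 true true false .up 2 0 3 (qsf 0 536870912 0 536870912 3) ndB1q2a ndB3q0 pcB3 Cut.none Ext.none)

def k0_pm_203_a : ∃ t, chk3 f_pm_203_a t 1 1 1 = true :=
  ⟨(b (b (b (a (a (l 16831304) (l 16850832)) (a (l 16907800) (l 17099712))) (a (l 16901096) (a (l 17019312) (l 17137176)))) (a (b (l 4) (l 2)) (b (l 17047944) (l 2)))) (l 2)), by decide +kernel⟩

theorem c_pm_203_a : CertB 0 536870912 0 536870912 536870912 50465866 3 eng mog cd1q2a cd3q0 pd3 true true false .up 2 0 3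
    ndB1q2a ndB3q0 pcB3 Cut.none Ext.none :=
  certB1 (fam := true) (s1 := true) (s2 := false) (a := 2) (b := 0) (c := 3) (cn := .up) (n1 := ndB1q2a) (n2 := ndB3q0) (pc := pcB3) (cut := Cut.none) (xt := Ext.none) (P1 := 0) (W1 := 536870912) (P2 := 0) (W2 := 536870912) (P3 := 536870912) (W3 := 50465866) (N0 := 3) (En := eng) (mo := mog) (C1 := cd1q2a) (C2 := cd3q0) (C3 := pd3)
    rfl (fun _ => rfl) k0_pm_203_a

noncomputable def f_pm_203_b : ℕ → ℕ → ℕ → ℕ → Bool := onCell 1239849684 370763052 1610612736 536870912 536870912 50465866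
    (rowB 3 eng mog cd1q2b cd3q0 pd3 1 true true false .up 2 0 3 (qsf 1239849684 370763052 0 536870912 3) ndB1q2b ndB3q0 pcB3 Cut.none Ext.none)

def k0_pm_203_b : ∃ t, chk3 f_pm_203_b t 1 1 1 = true :=
  ⟨(b (b (a (b (a (l 4) (b (l 16371056) (l 4))) (l 4)) (b (a (l 16409584) (b (l 16279128) (l 16288496))) (b (l 16566880) (l 16519112)))) (l 4)) (l 4)), by decide +kernel⟩

theorem c_pm_203_b : CertB 1239849684 370763052 0 536870912 536870912 50465866 3 eng mog cd1q2b cd3q0 pd3 true true false .up 2 0 3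
    ndB1q2b ndB3q0 pcB3 Cut.none Ext.none :=
  certB1 (fam := true) (s1 := true) (s2 := false) (a := 2) (b := 0) (c := 3) (cn := .up) (n1 := ndB1q2b) (n2 := ndB3q0) (pc := pcB3) (cut := Cut.none) (xt := Ext.none) (P1 := 1239849684) (W1 := 370763052) (P2 := 0) (W2 := 536870912) (P3 := 536870912) (W3 := 50465866) (N0 := 3) (En := eng) (mo := mog) (C1 := cd1q2b) (C2 := cd3q0) (C3 := pd3)
    rfl (fun _ => rfl) k0_pm_203_b

noncomputable def f_pm_213_a : ℕ → ℕ → ℕ → ℕ → Bool := onCell 0 536870912 1610612736 536870912 536870912 50465866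
    (rowB 3 eng mog cd1q2a cd3q1 pd3 1 true true false .pnn 2 1 3 (qsf 0 536870912 536870912 536870912 3) ndB1q2a ndB3q1 pcB3 Cut.none Ext.none)

def k0_pm_213_a : ∃ t, chk3 f_pm_213_a t 1 1 1 = true :=
  ⟨(a (b (b (b (l 1) (l 16859968)) (b (l 4) (l 4))) (l 4)) (b (b (b (a (l 1) (l 17041664)) (a (l 17044248) (l 17070496))) (b (a (l 16900664) (l 16919216)) (a (l 16792272) (l 16931096)))) (b (b (a (l 4) (l 16806952)) (l 4)) (l 4)))), by decide +kernel⟩

theorem c_pm_213_a : CertB 0 536870912 536870912 536870912 536870912 50465866 3 eng mog cd1q2a cd3q1 pd3 true true false .pnn 2 1 3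
    ndB1q2a ndB3q1 pcB3 Cut.none Ext.none :=
  certB1 (fam := true) (s1 := true) (s2 := false) (a := 2) (b := 1) (c := 3) (cn := .pnn) (n1 := ndB1q2a) (n2 := ndB3q1) (pc := pcB3) (cut := Cut.none) (xt := Ext.none) (P1 := 0) (W1 := 536870912) (P2 := 536870912) (W2 := 536870912) (P3 := 536870912) (W3 := 50465866) (N0 := 3) (En := eng) (mo := mog) (C1 := cd1q2a) (C2 := cd3q1) (C3 := pd3)
    rfl (fun _ => rfl) k0_pm_213_a

noncomputable def f_pm_213_b : ℕ → ℕ → ℕ → ℕ → Bool := onCell 1239849684 370763052 536870912 536870912 536870912 50465866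
    (rowB 3 eng mog cd1q2b cd3q1 pd3 0 true true false .pnn 2 1 3 (qsf 1239849684 370763052 536870912 536870912 3) ndB1q2b ndB3q1 pcB3 Cut.none Ext.none)

def k0_pm_213_b : ∃ t, chk3 f_pm_213_b t 1 1 1 = true :=
  ⟨(l 4), by decide +kernel⟩

theorem c_pm_213_b : CertB 1239849684 370763052 536870912 536870912 536870912 50465866 3 eng mog cd1q2b cd3q1 pd3 true true false .pnn 2 1 3
    ndB1q2b ndB3q1 pcB3 Cut.none Ext.none :=
  certB0 (fam := true) (s1 := true) (s2 := false) (a := 2) (b := 1) (c := 3) (cn := .pnn) (n1 := ndB1q2b) (n2 := ndB3q1) (pc := pcB3) (cut := Cut.none) (xt := Ext.none) (P1 := 1239849684) (W1 := 370763052) (P2 := 536870912) (W2 := 536870912) (P3 := 536870912) (W3 := 50465866) (N0 := 3) (En := eng) (mo := mog) (C1 := cd1q2b) (C2 := cd3q1) (C3 := pd3)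
    rfl k0_pm_213_b

noncomputable def f_pm_303 : ℕ → ℕ → ℕ → ℕ → Bool := onCell 1610612736 536870912 0 536870912 536870912 50465866
    (rowB 3 eng mog cd1q3 cd3q0 pd3 2 true true false .npn 3 0 3 (qsf 1610612736 536870912 0 536870912 3) ndB1q3 ndB3q0 pcB3 Cut.none Ext.none)

def k0_pm_303 : ∃ t, chk3 f_pm_303 t 1 1 1 = true :=
  ⟨(a (a (b (a (b (b (l 16242800) (l 16273520)) (l 1)) (b (b (l 16413056) (l 16423592)) (l 16475920))) (l 1)) (b (a (b (b (l 16571840) (l 4)) (l 4)) (l 4)) (l 4))) (l 4)), by decide +kernel⟩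

theorem c_pm_303 : CertB 1610612736 536870912 0 536870912 536870912 50465866 3 eng mog cd1q3 cd3q0 pd3 true true false .npn 3 0 3
    ndB1q3 ndB3q0 pcB3 Cut.none Ext.none :=
  certB2 (fam := true) (s1 := true) (s2 := false) (a := 3) (b := 0) (c := 3) (cn := .npn) (n1 := ndB1q3) (n2 := ndB3q0) (pc := pcB3) (cut := Cut.none) (xt := Ext.none) (P1 := 1610612736) (W1 := 536870912) (P2 := 0) (W2 := 536870912) (P3 := 536870912) (W3 := 50465866) (N0 := 3) (En := eng) (mo := mog) (C1 := cd1q3) (C2 := cd3q0) (C3 := pd3)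
    rfl (fun _ => rfl) k0_pm_303

noncomputable def f_pm_313 : ℕ → ℕ → ℕ → ℕ → Bool := onCell 1610612736 536870912 536870912 536870912 536870912 50465866
    (rowB 3 eng mog cd1q3 cd3q1 pd3 0 true true false .dn 3 1 3 (qsf 1610612736 536870912 536870912 536870912 3) ndB1q3 ndB3q1 pcB3 Cut.none Ext.none)

def k0_pm_313 : ∃ t, chk3 f_pm_313 t 1 1 1 = true :=
  ⟨(l 4), by decide +kernel⟩

theorem c_pm_313 : CertB 1610612736 536870912 536870912 536870912 536870912 50465866 3 eng mog cd1q3 cd3q1 pd3 true true false .dn 3 1 3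
    ndB1q3 ndB3q1 pcB3 Cut.none Ext.none :=
  certB0 (fam := true) (s1 := true) (s2 := false) (a := 3) (b := 1) (c := 3) (cn := .dn) (n1 := ndB1q3) (n2 := ndB3q1) (pc := pcB3) (cut := Cut.none) (xt := Ext.none) (P1 := 1610612736) (W1 := 536870912) (P2 := 536870912) (W2 := 536870912) (P3 := 536870912) (W3 := 50465866) (N0 := 3) (En := eng) (mo := mog) (C1 := cd1q3) (C2 := cd3q1) (C3 := pd3)
    rfl k0_pm_313

noncomputable def f_mm_001 : ℕ → ℕ → ℕ → ℕ → Bool := onCell 0 536870912 0 536870912 536870912 50465866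
    (rowB 3 eng mog cd1q0 cd3q0 pd1 0 true false false .up 0 0 1 (qsf 0 536870912 0 536870912 1) ndB1q0 ndB3q0 pcB1 Cut.none Ext.none)

def k0_mm_001 : ∃ t, chk3 f_mm_001 t 1 1 1 = true :=
  ⟨(l 4), by decide +kernel⟩

theorem c_mm_001 : CertB 0 536870912 0 536870912 536870912 50465866 3 eng mog cd1q0 cd3q0 pd1 true false false .up 0 0 1
    ndB1q0 ndB3q0 pcB1 Cut.none Ext.none :=
  certB0 (fam := true) (s1 := false) (s2 := false) (a := 0) (b := 0) (c := 1) (cn := .up) (n1 := ndB1q0) (n2 := ndB3q0) (pc := pcB1) (cut := Cut.none) (xt := Ext.none) (P1 := 0) (W1 := 536870912) (P2 := 0) (W2 := 536870912) (P3 := 536870912) (W3 := 50465866) (N0 := 3) (En := eng) (mo := mog) (C1 := cd1q0) (C2 := cd3q0) (C3 := pd1)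
    rfl k0_mm_001

noncomputable def f_mm_011 : ℕ → ℕ → ℕ → ℕ → Bool := onCell 0 536870912 536870912 536870912 536870912 50465866
    (rowB 3 eng mog cd1q0 cd3q1 pd1 0 true false false .pnn 0 1 1 (qsf 0 536870912 536870912 536870912 1) ndB1q0 ndB3q1 pcB1 Cut.none Ext.none)

def k0_mm_011 : ∃ t, chk3 f_mm_011 t 1 1 1 = true :=
  ⟨(l 4), by decide +kernel⟩

theorem c_mm_011 : CertB 0 536870912 536870912 536870912 536870912 50465866 3 eng mog cd1q0 cd3q1 pd1 true false false .pnn 0 1 1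
    ndB1q0 ndB3q1 pcB1 Cut.none Ext.none :=
  certB0 (fam := true) (s1 := false) (s2 := false) (a := 0) (b := 1) (c := 1) (cn := .pnn) (n1 := ndB1q0) (n2 := ndB3q1) (pc := pcB1) (cut := Cut.none) (xt := Ext.none) (P1 := 0) (W1 := 536870912) (P2 := 536870912) (W2 := 536870912) (P3 := 536870912) (W3 := 50465866) (N0 := 3) (En := eng) (mo := mog) (C1 := cd1q0) (C2 := cd3q1) (C3 := pd1)
    rfl k0_mm_011

noncomputable def f_mm_012 : ℕ → ℕ → ℕ → ℕ → Bool := onCell 0 536870912 536870912 536870912 536870912 50465866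
    (rowB 3 eng mog cd1q0 cd3q1 pd2 0 true false false .pnp 0 1 2 (qsf 0 536870912 536870912 536870912 2) ndB1q0 ndB3q1 pcB2 Cut.none Ext.none)

def k0_mm_012 : ∃ t, chk3 f_mm_012 t 1 1 1 = true :=
  ⟨(l 4), by decide +kernel⟩

theorem c_mm_012 : CertB 0 536870912 536870912 536870912 536870912 50465866 3 eng mog cd1q0 cd3q1 pd2 true false false .pnp 0 1 2
    ndB1q0 ndB3q1 pcB2 Cut.none Ext.none :=
  certB0 (fam := true) (s1 := false) (s2 := false) (a := 0) (b := 1) (c := 2) (cn := .pnp) (n1 := ndB1q0) (n2 := ndB3q1) (pc := pcB2) (cut := Cut.none) (xt := Ext.none) (P1 := 0) (W1 := 536870912) (P2 := 536870912) (W2 := 536870912) (P3 := 536870912) (W3 := 50465866) (N0 := 3) (En := eng) (mo := mog) (C1 := cd1q0) (C2 := cd3q1) (C3 := pd2)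
    rfl k0_mm_012

noncomputable def f_mm_022_a : ℕ → ℕ → ℕ → ℕ → Bool := onCell 0 536870912 0 536870912 536870912 50465866
    (rowB 3 eng mog cd1q0 cd3q2a pd2 0 true false false .pp 0 2 2 (qsf 0 536870912 0 536870912 2) ndB1q0 ndB3q2a pcB2 Cut.none Ext.none)

def k0_mm_022_a : ∃ t, chk3 f_mm_022_a t 1 1 1 = true :=
  ⟨(l 5), by decide +kernel⟩

theorem c_mm_022_a : CertB 0 536870912 0 536870912 536870912 50465866 3 eng mog cd1q0 cd3q2a pd2 true false false .pp 0 2 2
    ndB1q0 ndB3q2a pcB2 Cut.none Ext.none :=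
  certB0 (fam := true) (s1 := false) (s2 := false) (a := 0) (b := 2) (c := 2) (cn := .pp) (n1 := ndB1q0) (n2 := ndB3q2a) (pc := pcB2) (cut := Cut.none) (xt := Ext.none) (P1 := 0) (W1 := 536870912) (P2 := 0) (W2 := 536870912) (P3 := 536870912) (W3 := 50465866) (N0 := 3) (En := eng) (mo := mog) (C1 := cd1q0) (C2 := cd3q2a) (C3 := pd2)
    rfl k0_mm_022_a

noncomputable def f_mm_022_b : ℕ → ℕ → ℕ → ℕ → Bool := onCell 0 536870912 1239849684 370763052 536870912 50465866
    (rowB 3 eng mog cd1q0 cd3q2b pd2 0 true false false .pp 0 2 2 (qsf 0 536870912 1239849684 370763052 2) ndB1q0 ndB3q2b pcB2 Cut.none Ext.none)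

def k0_mm_022_b : ∃ t, chk3 f_mm_022_b t 1 1 1 = true :=
  ⟨(l 5), by decide +kernel⟩

theorem c_mm_022_b : CertB 0 536870912 1239849684 370763052 536870912 50465866 3 eng mog cd1q0 cd3q2b pd2 true false false .pp 0 2 2
    ndB1q0 ndB3q2b pcB2 Cut.none Ext.none :=
  certB0 (fam := true) (s1 := false) (s2 := false) (a := 0) (b := 2) (c := 2) (cn := .pp) (n1 := ndB1q0) (n2 := ndB3q2b) (pc := pcB2) (cut := Cut.none) (xt := Ext.none) (P1 := 0) (W1 := 536870912) (P2 := 1239849684) (W2 := 370763052) (P3 := 536870912) (W3 := 50465866) (N0 := 3) (En := eng) (mo := mog) (C1 := cd1q0) (C2 := cd3q2b) (C3 := pd2)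
    rfl k0_mm_022_b

noncomputable def f_mm_023_a : ℕ → ℕ → ℕ → ℕ → Bool := onCell 0 536870912 0 536870912 536870912 50465866
    (rowB 3 eng mog cd1q0 cd3q2a pd3 0 true false false .up 0 2 3 (qsf 0 536870912 0 536870912 3) ndB1q0 ndB3q2a pcB3 Cut.none Ext.none)

def k0_mm_023_a : ∃ t, chk3 f_mm_023_a t 1 1 1 = true :=
  ⟨(l 5), by decide +kernel⟩

theorem c_mm_023_a : CertB 0 536870912 0 536870912 536870912 50465866 3 eng mog cd1q0 cd3q2a pd3 true false false .up 0 2 3
    ndB1q0 ndB3q2a pcB3 Cut.none Ext.none :=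
  certB0 (fam := true) (s1 := false) (s2 := false) (a := 0) (b := 2) (c := 3) (cn := .up) (n1 := ndB1q0) (n2 := ndB3q2a) (pc := pcB3) (cut := Cut.none) (xt := Ext.none) (P1 := 0) (W1 := 536870912) (P2 := 0) (W2 := 536870912) (P3 := 536870912) (W3 := 50465866) (N0 := 3) (En := eng) (mo := mog) (C1 := cd1q0) (C2 := cd3q2a) (C3 := pd3)
    rfl k0_mm_023_a

noncomputable def f_mm_023_b : ℕ → ℕ → ℕ → ℕ → Bool := onCell 0 536870912 1239849684 370763052 536870912 50465866
    (rowB 3 eng mog cd1q0 cd3q2b pd3 0 true false false .up 0 2 3 (qsf 0 536870912 1239849684 370763052 3) ndB1q0 ndB3q2b pcB3 Cut.none Ext.none)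

def k0_mm_023_b : ∃ t, chk3 f_mm_023_b t 1 1 1 = true :=
  ⟨(l 5), by decide +kernel⟩

theorem c_mm_023_b : CertB 0 536870912 1239849684 370763052 536870912 50465866 3 eng mog cd1q0 cd3q2b pd3 true false false .up 0 2 3
    ndB1q0 ndB3q2b pcB3 Cut.none Ext.none :=
  certB0 (fam := true) (s1 := false) (s2 := false) (a := 0) (b := 2) (c := 3) (cn := .up) (n1 := ndB1q0) (n2 := ndB3q2b) (pc := pcB3) (cut := Cut.none) (xt := Ext.none) (P1 := 0) (W1 := 536870912) (P2 := 1239849684) (W2 := 370763052) (P3 := 536870912) (W3 := 50465866) (N0 := 3) (En := eng) (mo := mog) (C1 := cd1q0) (C2 := cd3q2b) (C3 := pd3)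
    rfl k0_mm_023_b

noncomputable def f_mm_033 : ℕ → ℕ → ℕ → ℕ → Bool := onCell 0 536870912 1610612736 536870912 536870912 50465866
    (rowB 3 eng mog cd1q0 cd3q3 pd3 0 true false false .pnn 0 3 3 (qsf 0 536870912 1610612736 536870912 3) ndB1q0 ndB3q3 pcB3 Cut.none Ext.none)

def k0_mm_033 : ∃ t, chk3 f_mm_033 t 1 1 1 = true :=
  ⟨(l 4), by decide +kernel⟩

theorem c_mm_033 : CertB 0 536870912 1610612736 536870912 536870912 50465866 3 eng mog cd1q0 cd3q3 pd3 true false false .pnn 0 3 3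
    ndB1q0 ndB3q3 pcB3 Cut.none Ext.none :=
  certB0 (fam := true) (s1 := false) (s2 := false) (a := 0) (b := 3) (c := 3) (cn := .pnn) (n1 := ndB1q0) (n2 := ndB3q3) (pc := pcB3) (cut := Cut.none) (xt := Ext.none) (P1 := 0) (W1 := 536870912) (P2 := 1610612736) (W2 := 536870912) (P3 := 536870912) (W3 := 50465866) (N0 := 3) (En := eng) (mo := mog) (C1 := cd1q0) (C2 := cd3q3) (C3 := pd3)
    rfl k0_mm_033

noncomputable def f_mm_101 : ℕ → ℕ → ℕ → ℕ → Bool := onCell 536870912 536870912 0 536870912 536870912 50465866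
    (rowB 3 eng mog cd1q1 cd3q0 pd1 0 true false false .npn 1 0 1 (qsf 536870912 536870912 0 536870912 1) ndB1q1 ndB3q0 pcB1 Cut.none Ext.none)

def k0_mm_101 : ∃ t, chk3 f_mm_101 t 1 1 1 = true :=
  ⟨(l 4), by decide +kernel⟩

theorem c_mm_101 : CertB 536870912 536870912 0 536870912 536870912 50465866 3 eng mog cd1q1 cd3q0 pd1 true false false .npn 1 0 1
    ndB1q1 ndB3q0 pcB1 Cut.none Ext.none :=
  certB0 (fam := true) (s1 := false) (s2 := false) (a := 1) (b := 0) (c := 1) (cn := .npn) (n1 := ndB1q1) (n2 := ndB3q0) (pc := pcB1) (cut := Cut.none) (xt := Ext.none) (P1 := 536870912) (W1 := 536870912) (P2 := 0) (W2 := 536870912) (P3 := 536870912) (W3 := 50465866) (N0 := 3) (En := eng) (mo := mog) (C1 := cd1q1) (C2 := cd3q0) (C3 := pd1)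
    rfl k0_mm_101

noncomputable def f_mm_102 : ℕ → ℕ → ℕ → ℕ → Bool := onCell 536870912 536870912 0 536870912 536870912 50465866
    (rowB 3 eng mog cd1q1 cd3q0 pd2 0 true false false .npp 1 0 2 (qsf 536870912 536870912 0 536870912 2) ndB1q1 ndB3q0 pcB2 Cut.none Ext.none)

def k0_mm_102 : ∃ t, chk3 f_mm_102 t 1 1 1 = true :=
  ⟨(l 4), by decide +kernel⟩

theorem c_mm_102 : CertB 536870912 536870912 0 536870912 536870912 50465866 3 eng mog cd1q1 cd3q0 pd2 true false false .npp 1 0 2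
    ndB1q1 ndB3q0 pcB2 Cut.none Ext.none :=
  certB0 (fam := true) (s1 := false) (s2 := false) (a := 1) (b := 0) (c := 2) (cn := .npp) (n1 := ndB1q1) (n2 := ndB3q0) (pc := pcB2) (cut := Cut.none) (xt := Ext.none) (P1 := 536870912) (W1 := 536870912) (P2 := 0) (W2 := 536870912) (P3 := 536870912) (W3 := 50465866) (N0 := 3) (En := eng) (mo := mog) (C1 := cd1q1) (C2 := cd3q0) (C3 := pd2)
    rfl k0_mm_102

noncomputable def f_mm_112 : ℕ → ℕ → ℕ → ℕ → Bool := onCell 536870912 536870912 536870912 536870912 536870912 50465866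
    (rowB 3 eng mog cd1q1 cd3q1 pd2 0 true false false .dn 1 1 2 (qsf 536870912 536870912 536870912 536870912 2) ndB1q1 ndB3q1 pcB2 Cut.none Ext.none)

def k0_mm_112 : ∃ t, chk3 f_mm_112 t 1 1 1 = true :=
  ⟨(l 4), by decide +kernel⟩

theorem c_mm_112 : CertB 536870912 536870912 536870912 536870912 536870912 50465866 3 eng mog cd1q1 cd3q1 pd2 true false false .dn 1 1 2
    ndB1q1 ndB3q1 pcB2 Cut.none Ext.none :=
  certB0 (fam := true) (s1 := false) (s2 := false) (a := 1) (b := 1) (c := 2) (cn := .dn) (n1 := ndB1q1) (n2 := ndB3q1) (pc := pcB2) (cut := Cut.none) (xt := Ext.none) (P1 := 536870912) (W1 := 536870912) (P2 := 536870912) (W2 := 536870912) (P3 := 536870912) (W3 := 50465866) (N0 := 3) (En := eng) (mo := mog) (C1 := cd1q1) (C2 := cd3q1) (C3 := pd2)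
    rfl k0_mm_112

noncomputable def f_mm_113 : ℕ → ℕ → ℕ → ℕ → Bool := onCell 536870912 536870912 536870912 536870912 536870912 50465866
    (rowB 3 eng mog cd1q1 cd3q1 pd3 0 true false false .nn 1 1 3 (qsf 536870912 536870912 536870912 536870912 3) ndB1q1 ndB3q1 pcB3 Cut.none Ext.none)

def k0_mm_113 : ∃ t, chk3 f_mm_113 t 1 1 1 = true :=
  ⟨(l 4), by decide +kernel⟩

theorem c_mm_113 : CertB 536870912 536870912 536870912 536870912 536870912 50465866 3 eng mog cd1q1 cd3q1 pd3 true false false .nn 1 1 3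
    ndB1q1 ndB3q1 pcB3 Cut.none Ext.none :=
  certB0 (fam := true) (s1 := false) (s2 := false) (a := 1) (b := 1) (c := 3) (cn := .nn) (n1 := ndB1q1) (n2 := ndB3q1) (pc := pcB3) (cut := Cut.none) (xt := Ext.none) (P1 := 536870912) (W1 := 536870912) (P2 := 536870912) (W2 := 536870912) (P3 := 536870912) (W3 := 50465866) (N0 := 3) (En := eng) (mo := mog) (C1 := cd1q1) (C2 := cd3q1) (C3 := pd3)
    rfl k0_mm_113

noncomputable def f_mm_123_a : ℕ → ℕ → ℕ → ℕ → Bool := onCell 536870912 536870912 0 536870912 536870912 50465866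
    (rowB 3 eng mog cd1q1 cd3q2a pd3 0 true false false .npn 1 2 3 (qsf 536870912 536870912 0 536870912 3) ndB1q1 ndB3q2a pcB3 Cut.none Ext.none)

def k0_mm_123_a : ∃ t, chk3 f_mm_123_a t 1 1 1 = true :=
  ⟨(l 4), by decide +kernel⟩

theorem c_mm_123_a : CertB 536870912 536870912 0 536870912 536870912 50465866 3 eng mog cd1q1 cd3q2a pd3 true false false .npn 1 2 3
    ndB1q1 ndB3q2a pcB3 Cut.none Ext.none :=
  certB0 (fam := true) (s1 := false) (s2 := false) (a := 1) (b := 2) (c := 3) (cn := .npn) (n1 := ndB1q1) (n2 := ndB3q2a) (pc := pcB3) (cut := Cut.none) (xt := Ext.none) (P1 := 536870912) (W1 := 536870912) (P2 := 0) (W2 := 536870912) (P3 := 536870912) (W3 := 50465866) (N0 := 3) (En := eng) (mo := mog) (C1 := cd1q1) (C2 := cd3q2a) (C3 := pd3)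
    rfl k0_mm_123_a

noncomputable def f_mm_123_b : ℕ → ℕ → ℕ → ℕ → Bool := onCell 536870912 536870912 1239849684 370763052 536870912 50465866
    (rowB 3 eng mog cd1q1 cd3q2b pd3 0 true false false .npn 1 2 3 (qsf 536870912 536870912 1239849684 370763052 3) ndB1q1 ndB3q2b pcB3 Cut.none Ext.none)

def k0_mm_123_b : ∃ t, chk3 f_mm_123_b t 1 1 1 = true :=
  ⟨(l 4), by decide +kernel⟩

theorem c_mm_123_b : CertB 536870912 536870912 1239849684 370763052 536870912 50465866 3 eng mog cd1q1 cd3q2b pd3 true false false .npn 1 2 3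
    ndB1q1 ndB3q2b pcB3 Cut.none Ext.none :=
  certB0 (fam := true) (s1 := false) (s2 := false) (a := 1) (b := 2) (c := 3) (cn := .npn) (n1 := ndB1q1) (n2 := ndB3q2b) (pc := pcB3) (cut := Cut.none) (xt := Ext.none) (P1 := 536870912) (W1 := 536870912) (P2 := 1239849684) (W2 := 370763052) (P3 := 536870912) (W3 := 50465866) (N0 := 3) (En := eng) (mo := mog) (C1 := cd1q1) (C2 := cd3q2b) (C3 := pd3)
    rfl k0_mm_123_b

noncomputable def f_mm_133 : ℕ → ℕ → ℕ → ℕ → Bool := onCell 536870912 536870912 1610612736 536870912 536870912 50465866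
    (rowB 3 eng mog cd1q1 cd3q3 pd3 0 true false false .dn 1 3 3 (qsf 536870912 536870912 1610612736 536870912 3) ndB1q1 ndB3q3 pcB3 Cut.none Ext.none)

def k0_mm_133 : ∃ t, chk3 f_mm_133 t 1 1 1 = true :=
  ⟨(l 4), by decide +kernel⟩

theorem c_mm_133 : CertB 536870912 536870912 1610612736 536870912 536870912 50465866 3 eng mog cd1q1 cd3q3 pd3 true false false .dn 1 3 3
    ndB1q1 ndB3q3 pcB3 Cut.none Ext.none :=
  certB0 (fam := true) (s1 := false) (s2 := false) (a := 1) (b := 3) (c := 3) (cn := .dn) (n1 := ndB1q1) (n2 := ndB3q3) (pc := pcB3) (cut := Cut.none) (xt := Ext.none) (P1 := 536870912) (W1 := 536870912) (P2 := 1610612736) (W2 := 536870912) (P3 := 536870912) (W3 := 50465866) (N0 := 3) (En := eng) (mo := mog) (C1 := cd1q1) (C2 := cd3q3) (C3 := pd3)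
    rfl k0_mm_133

noncomputable def cut_mm_202_a : Cut := Cut.of [[⟨0, 1, 0, 67108864⟩, ⟨1, 0, 0, 67108864⟩, ⟨2, 1, 0, 67108864⟩]]

noncomputable def f_mm_202_a : ℕ → ℕ → ℕ → ℕ → Bool := onCell 0 536870912 0 536870912 536870912 50465866
    (rowB 3 eng mog cd1q2a cd3q0 pd2 0 true false false .pp 2 0 2 (qsf 0 536870912 0 536870912 2) ndB1q2a ndB3q0 pcB2 cut_mm_202_a Ext.none)

def k0_mm_202_a : ∃ t, chk3 f_mm_202_a t 1 1 1 = true :=
  ⟨(a (b (b (b (a (b (b (a (l 16519080) (a (l 16529736) (l 16473008))) (a (a (l 16473504) (l 16456568)) (l 16486464))) (a (b (l 16487712) (l 16501600)) (l 16508504))) (b (b (a (l 16551744) (b (a (l 16506528) (l 16523768)) (l 16534152))) (a (l 16506832) (l 16529656))) (a (l 16501336) (b (a (l 16547688) (l 16565824)) (l 16660112))))) (a (b (l 16535480) (l 16658656)) (b (a (l 16570896) (l 16606872)) (a (l 16614352) (l 16648912))))) (b (a (b (l 16617848) (l 16647848)) (b (a (l 16656656) (l 16686440)) (a (l 16681768) (l 4))))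 (a (b (l 16668552) (l 16685776)) (l 4)))) (l 4)) (b (b (a (b (b (b (a (b (a (l 16564392) (b (l 16585520) (l 16567136))) (a (l 16552072) (l 16573672))) (b (a (a (l 16605560) (a (l 16594584) (l 16601464))) (b (a (l 16610528) (l 16625016)) (l 16621016))) (a (l 16598152) (l 16625760)))) (a (b (l 16582600) (l 16665472)) (a (l 16611920) (l 16639384)))) (a (b (a (l 16585464) (l 16607128)) (b (l 16653752) (l 16664160))) (a (b (l 16631560) (l 16652128)) (b (b (l 16653888) (l 16663928)) (l 16678408))))) (b (a (b (l 16826512) (l 16657936)) (b (a (l 16671904) (l 4)) (l 4))) (a (l 16728272) (l 4)))) (b (a (b (b (b (a (a (b (l 16650648) (l 16643680)) (b (b (l 16670736) (l 16656904)) (l 16659704))) (a (b (l 6) (l 16697272)) (l 6))) (a (a (l 16648768) (l 16665112)) (a (l 16681960) (l 16699680)))) (a (a (l 16661936) (l 16678056)) (b (l 16709856) (a (l 16699472) (l 16716792))))) (b (a (l 16667736) (a (l 16712760) (l 4))) (l 4))) (b (a (b (l 6) (b (l 6) (l 4))) (l 6))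 (l 4))) (l 4))) (l 4)) (l 4))), by decide +kernel⟩

theorem c_mm_202_a : CertB 0 536870912 0 536870912 536870912 50465866 3 eng mog cd1q2a cd3q0 pd2 true false false .pp 2 0 2
    ndB1q2a ndB3q0 pcB2 cut_mm_202_a Ext.none :=
  certB0 (fam := true) (s1 := false) (s2 := false) (a := 2) (b := 0) (c := 2) (cn := .pp) (n1 := ndB1q2a) (n2 := ndB3q0) (pc := pcB2) (cut := cut_mm_202_a) (xt := Ext.none) (P1 := 0) (W1 := 536870912) (P2 := 0) (W2 := 536870912) (P3 := 536870912) (W3 := 50465866) (N0 := 3) (En := eng) (mo := mog) (C1 := cd1q2a) (C2 := cd3q0) (C3 := pd2)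
    rfl k0_mm_202_a

noncomputable def cut_mm_202_b : Cut := Cut.of [[⟨0, 1, 0, 67108864⟩, ⟨1, 0, 0, 67108864⟩, ⟨2, 1, 0, 67108864⟩]]

noncomputable def f_mm_202_b : ℕ → ℕ → ℕ → ℕ → Bool := onCell 1073741824 536870912 0 536870912 536870912 50465866
    (rowB 3 eng mog cd1q2b cd3q0 pd2 2 true false false .pp 2 0 2 (qsf 1239849684 370763052 0 536870912 2) ndB1q2b ndB3q0 pcB2 cut_mm_202_b Ext.none)

def k0_mm_202_b : ∃ t, chk3 f_mm_202_b t 1 1 1 = true :=
  ⟨(a (b (a (l 1) (b (a (b (b (a (b (b (l 16492536) (l 1)) (l 1)) (b (a (l 16455944) (l 16420888)) (l 133176959159))) (a (l 1) (a (l 1) (l 293164706151)))) (l 1)) (b (b (b (l 16443728) (l 16452000)) (a (b (l 16462168) (l 16532592)) (l 16410520))) (b (a (l 345241075143) (l 16516664)) (l 334503737015)))) (l 1))) (l 1)) (a (b (b (a (b (b (a (l 16394464) (l 16274904)) (l 16345856)) (a (l 16499864) (l 16426536))) (b (b (l 16226864) (l 16275592)) (l 16346648))) (a (b (a (l 306586600615) (l 16762640)) (l 1))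 (b (a (l 16578448) (l 16515200)) (a (l 16737176) (l 16689456))))) (l 1)) (b (b (a (b (l 16259432) (l 16282216)) (b (l 16144600) (l 16220144))) (a (b (l 16413512) (l 16602888)) (b (l 16306448) (l 4)))) (l 4)))), by decide +kernel⟩

theorem c_mm_202_b : CertB 1239849684 370763052 0 536870912 536870912 50465866 3 eng mog cd1q2b cd3q0 pd2 true false false .pp 2 0 2
    ndB1q2b ndB3q0 pcB2 cut_mm_202_b Ext.none :=
  certB2 (fam := true) (s1 := false) (s2 := false) (a := 2) (b := 0) (c := 2) (cn := .pp) (n1 := ndB1q2b) (n2 := ndB3q0) (pc := pcB2) (cut := cut_mm_202_b) (xt := Ext.none) (P1 := 1239849684) (W1 := 370763052) (P2 := 0) (W2 := 536870912) (P3 := 536870912) (W3 := 50465866) (N0 := 3) (En := eng) (mo := mog) (C1 := cd1q2b) (C2 := cd3q0) (C3 := pd2)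
    rfl (fun _ => rfl) k0_mm_202_b

noncomputable def f_mm_203_a : ℕ → ℕ → ℕ → ℕ → Bool := onCell 0 536870912 1610612736 536870912 536870912 50465866
    (rowB 3 eng mog cd1q2a cd3q0 pd3 1 true false false .up 2 0 3 (qsf 0 536870912 0 536870912 3) ndB1q2a ndB3q0 pcB3 Cut.none Ext.none)

def k0_mm_203_a : ∃ t, chk3 f_mm_203_a t 1 1 1 = true :=
  ⟨(l 4), by decide +kernel⟩

theorem c_mm_203_a : CertB 0 536870912 0 536870912 536870912 50465866 3 eng mog cd1q2a cd3q0 pd3 true false false .up 2 0 3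
    ndB1q2a ndB3q0 pcB3 Cut.none Ext.none :=
  certB1 (fam := true) (s1 := false) (s2 := false) (a := 2) (b := 0) (c := 3) (cn := .up) (n1 := ndB1q2a) (n2 := ndB3q0) (pc := pcB3) (cut := Cut.none) (xt := Ext.none) (P1 := 0) (W1 := 536870912) (P2 := 0) (W2 := 536870912) (P3 := 536870912) (W3 := 50465866) (N0 := 3) (En := eng) (mo := mog) (C1 := cd1q2a) (C2 := cd3q0) (C3 := pd3)
    rfl (fun _ => rfl) k0_mm_203_a

noncomputable def f_mm_203_b : ℕ → ℕ → ℕ → ℕ → Bool := onCell 1239849684 370763052 1610612736 536870912 536870912 50465866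
    (rowB 3 eng mog cd1q2b cd3q0 pd3 1 true false false .up 2 0 3 (qsf 1239849684 370763052 0 536870912 3) ndB1q2b ndB3q0 pcB3 Cut.none Ext.none)

def k0_mm_203_b : ∃ t, chk3 f_mm_203_b t 1 1 1 = true :=
  ⟨(b (b (a (l 4) (b (a (b (l 16279288) (l 4)) (b (l 16159360) (l 16233752))) (l 4))) (l 4)) (l 4)), by decide +kernel⟩

theorem c_mm_203_b : CertB 1239849684 370763052 0 536870912 536870912 50465866 3 eng mog cd1q2b cd3q0 pd3 true false false .up 2 0 3
    ndB1q2b ndB3q0 pcB3 Cut.none Ext.none :=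
  certB1 (fam := true) (s1 := false) (s2 := false) (a := 2) (b := 0) (c := 3) (cn := .up) (n1 := ndB1q2b) (n2 := ndB3q0) (pc := pcB3) (cut := Cut.none) (xt := Ext.none) (P1 := 1239849684) (W1 := 370763052) (P2 := 0) (W2 := 536870912) (P3 := 536870912) (W3 := 50465866) (N0 := 3) (En := eng) (mo := mog) (C1 := cd1q2b) (C2 := cd3q0) (C3 := pd3)
    rfl (fun _ => rfl) k0_mm_203_b

noncomputable def f_mm_213_a : ℕ → ℕ → ℕ → ℕ → Bool := onCell 0 536870912 536870912 536870912 536870912 50465866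
    (rowB 3 eng mog cd1q2a cd3q1 pd3 0 true false false .pnn 2 1 3 (qsf 0 536870912 536870912 536870912 3) ndB1q2a ndB3q1 pcB3 Cut.none Ext.none)

def k0_mm_213_a : ∃ t, chk3 f_mm_213_a t 1 1 1 = true :=
  ⟨(l 4), by decide +kernel⟩

theorem c_mm_213_a : CertB 0 536870912 536870912 536870912 536870912 50465866 3 eng mog cd1q2a cd3q1 pd3 true false false .pnn 2 1 3
    ndB1q2a ndB3q1 pcB3 Cut.none Ext.none :=
  certB0 (fam := true) (s1 := false) (s2 := false) (a := 2) (b := 1) (c := 3) (cn := .pnn) (n1 := ndB1q2a) (n2 := ndB3q1) (pc := pcB3) (cut := Cut.none) (xt := Ext.none) (P1 := 0) (W1 := 536870912) (P2 := 536870912) (W2 := 536870912) (P3 := 536870912) (W3 := 50465866) (N0 := 3) (En := eng) (mo := mog) (C1 := cd1q2a) (C2 := cd3q1) (C3 := pd3)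
    rfl k0_mm_213_a

noncomputable def f_mm_213_b : ℕ → ℕ → ℕ → ℕ → Bool := onCell 1239849684 370763052 536870912 536870912 536870912 50465866
    (rowB 3 eng mog cd1q2b cd3q1 pd3 0 true false false .pnn 2 1 3 (qsf 1239849684 370763052 536870912 536870912 3) ndB1q2b ndB3q1 pcB3 Cut.none Ext.none)

def k0_mm_213_b : ∃ t, chk3 f_mm_213_b t 1 1 1 = true :=
  ⟨(l 4), by decide +kernel⟩

theorem c_mm_213_b : CertB 1239849684 370763052 536870912 536870912 536870912 50465866 3 eng mog cd1q2b cd3q1 pd3 true false false .pnn 2 1 3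
    ndB1q2b ndB3q1 pcB3 Cut.none Ext.none :=
  certB0 (fam := true) (s1 := false) (s2 := false) (a := 2) (b := 1) (c := 3) (cn := .pnn) (n1 := ndB1q2b) (n2 := ndB3q1) (pc := pcB3) (cut := Cut.none) (xt := Ext.none) (P1 := 1239849684) (W1 := 370763052) (P2 := 536870912) (W2 := 536870912) (P3 := 536870912) (W3 := 50465866) (N0 := 3) (En := eng) (mo := mog) (C1 := cd1q2b) (C2 := cd3q1) (C3 := pd3)
    rfl k0_mm_213_b

noncomputable def f_mm_303 : ℕ → ℕ → ℕ → ℕ → Bool := onCell 1610612736 536870912 0 536870912 536870912 50465866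
    (rowB 3 eng mog cd1q3 cd3q0 pd3 2 true false false .npn 3 0 3 (qsf 1610612736 536870912 0 536870912 3) ndB1q3 ndB3q0 pcB3 Cut.none Ext.none)

def k0_mm_303 : ∃ t, chk3 f_mm_303 t 1 1 1 = true :=
  ⟨(b (a (b (a (a (b (l 16202656) (l 16203280)) (b (l 16361712) (l 4))) (l 4)) (l 4)) (l 4)) (l 4)), by decide +kernel⟩

theorem c_mm_303 : CertB 1610612736 536870912 0 536870912 536870912 50465866 3 eng mog cd1q3 cd3q0 pd3 true false false .npn 3 0 3
    ndB1q3 ndB3q0 pcB3 Cut.none Ext.none :=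
  certB2 (fam := true) (s1 := false) (s2 := false) (a := 3) (b := 0) (c := 3) (cn := .npn) (n1 := ndB1q3) (n2 := ndB3q0) (pc := pcB3) (cut := Cut.none) (xt := Ext.none) (P1 := 1610612736) (W1 := 536870912) (P2 := 0) (W2 := 536870912) (P3 := 536870912) (W3 := 50465866) (N0 := 3) (En := eng) (mo := mog) (C1 := cd1q3) (C2 := cd3q0) (C3 := pd3)
    rfl (fun _ => rfl) k0_mm_303

noncomputable def f_mm_313 : ℕ → ℕ → ℕ → ℕ → Bool := onCell 1610612736 536870912 536870912 536870912 536870912 50465866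
    (rowB 3 eng mog cd1q3 cd3q1 pd3 0 true false false .dn 3 1 3 (qsf 1610612736 536870912 536870912 536870912 3) ndB1q3 ndB3q1 pcB3 Cut.none Ext.none)

def k0_mm_313 : ∃ t, chk3 f_mm_313 t 1 1 1 = true :=
  ⟨(l 4), by decide +kernel⟩

theorem c_mm_313 : CertB 1610612736 536870912 536870912 536870912 536870912 50465866 3 eng mog cd1q3 cd3q1 pd3 true false false .dn 3 1 3
    ndB1q3 ndB3q1 pcB3 Cut.none Ext.none :=
  certB0 (fam := true) (s1 := false) (s2 := false) (a := 3) (b := 1) (c := 3) (cn := .dn) (n1 := ndB1q3) (n2 := ndB3q1) (pc := pcB3) (cut := Cut.none) (xt := Ext.none) (P1 := 1610612736) (W1 := 536870912) (P2 := 536870912) (W2 := 536870912) (P3 := 536870912) (W3 := 50465866) (N0 := 3) (En := eng) (mo := mog) (C1 := cd1q3) (C2 := cd3q1) (C3 := pd3)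
    rfl k0_mm_313

end Pool.Agent.Strip051.G.I5000_5470.Tab.C.BA13

namespace Pool.Agent.Strip051.G.I5000_5470.Tab.C.BA14

open Pool.Agent.Strip051.PB Pool.Agent.Strip051.PB.T
open Pool.Agent.Strip051.G.I5000_5470.Tab

noncomputable def f_pp_001 : ℕ → ℕ → ℕ → ℕ → Bool := onCell 0 536870912 0 536870912 536870912 50465866
    (rowB 3 eng mog cd1q0 cd4q0 pd1 0 true true true .up 0 0 1 (qsf 0 536870912 0 536870912 1) ndB1q0 ndB4q0 pcB1 Cut.none Ext.none)

def k0_pp_001 : ∃ t, chk3 f_pp_001 t 1 1 1 = true :=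
  ⟨(l 4), by decide +kernel⟩

theorem c_pp_001 : CertB 0 536870912 0 536870912 536870912 50465866 3 eng mog cd1q0 cd4q0 pd1 true true true .up 0 0 1
    ndB1q0 ndB4q0 pcB1 Cut.none Ext.none :=
  certB0 (fam := true) (s1 := true) (s2 := true) (a := 0) (b := 0) (c := 1) (cn := .up) (n1 := ndB1q0) (n2 := ndB4q0) (pc := pcB1) (cut := Cut.none) (xt := Ext.none) (P1 := 0) (W1 := 536870912) (P2 := 0) (W2 := 536870912) (P3 := 536870912) (W3 := 50465866) (N0 := 3) (En := eng) (mo := mog) (C1 := cd1q0) (C2 := cd4q0) (C3 := pd1)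
    rfl k0_pp_001

noncomputable def f_pp_011 : ℕ → ℕ → ℕ → ℕ → Bool := onCell 0 536870912 536870912 536870912 536870912 50465866
    (rowB 3 eng mog cd1q0 cd4q1 pd1 0 true true true .pnn 0 1 1 (qsf 0 536870912 536870912 536870912 1) ndB1q0 ndB4q1 pcB1 Cut.none Ext.none)

def k0_pp_011 : ∃ t, chk3 f_pp_011 t 1 1 1 = true :=
  ⟨(l 4), by decide +kernel⟩

theorem c_pp_011 : CertB 0 536870912 536870912 536870912 536870912 50465866 3 eng mog cd1q0 cd4q1 pd1 true true true .pnn 0 1 1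
    ndB1q0 ndB4q1 pcB1 Cut.none Ext.none :=
  certB0 (fam := true) (s1 := true) (s2 := true) (a := 0) (b := 1) (c := 1) (cn := .pnn) (n1 := ndB1q0) (n2 := ndB4q1) (pc := pcB1) (cut := Cut.none) (xt := Ext.none) (P1 := 0) (W1 := 536870912) (P2 := 536870912) (W2 := 536870912) (P3 := 536870912) (W3 := 50465866) (N0 := 3) (En := eng) (mo := mog) (C1 := cd1q0) (C2 := cd4q1) (C3 := pd1)
    rfl k0_pp_011

noncomputable def f_pp_012 : ℕ → ℕ → ℕ → ℕ → Bool := onCell 0 536870912 536870912 536870912 536870912 50465866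
    (rowB 3 eng mog cd1q0 cd4q1 pd2 0 true true true .pnp 0 1 2 (qsf 0 536870912 536870912 536870912 2) ndB1q0 ndB4q1 pcB2 Cut.none Ext.none)

def k0_pp_012 : ∃ t, chk3 f_pp_012 t 1 1 1 = true :=
  ⟨(l 4), by decide +kernel⟩

theorem c_pp_012 : CertB 0 536870912 536870912 536870912 536870912 50465866 3 eng mog cd1q0 cd4q1 pd2 true true true .pnp 0 1 2
    ndB1q0 ndB4q1 pcB2 Cut.none Ext.none :=
  certB0 (fam := true) (s1 := true) (s2 := true) (a := 0) (b := 1) (c := 2) (cn := .pnp) (n1 := ndB1q0) (n2 := ndB4q1) (pc := pcB2) (cut := Cut.none) (xt := Ext.none) (P1 := 0) (W1 := 536870912) (P2 := 536870912) (W2 := 536870912) (P3 := 536870912) (W3 := 50465866) (N0 := 3) (En := eng) (mo := mog) (C1 := cd1q0) (C2 := cd4q1) (C3 := pd2)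
    rfl k0_pp_012

noncomputable def f_pp_022 : ℕ → ℕ → ℕ → ℕ → Bool := onCell 0 536870912 1073741824 536870912 536870912 50465866
    (rowB 3 eng mog cd1q0 cd4q2 pd2 0 true true true .pp 0 2 2 (qsf 0 536870912 1073741824 536870912 2) ndB1q0 ndB4q2 pcB2 Cut.none Ext.none)

def k0_pp_022 : ∃ t, chk3 f_pp_022 t 1 1 1 = true :=
  ⟨(l 4), by decide +kernel⟩

theorem c_pp_022 : CertB 0 536870912 1073741824 536870912 536870912 50465866 3 eng mog cd1q0 cd4q2 pd2 true true true .pp 0 2 2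
    ndB1q0 ndB4q2 pcB2 Cut.none Ext.none :=
  certB0 (fam := true) (s1 := true) (s2 := true) (a := 0) (b := 2) (c := 2) (cn := .pp) (n1 := ndB1q0) (n2 := ndB4q2) (pc := pcB2) (cut := Cut.none) (xt := Ext.none) (P1 := 0) (W1 := 536870912) (P2 := 1073741824) (W2 := 536870912) (P3 := 536870912) (W3 := 50465866) (N0 := 3) (En := eng) (mo := mog) (C1 := cd1q0) (C2 := cd4q2) (C3 := pd2)
    rfl k0_pp_022

noncomputable def f_pp_023 : ℕ → ℕ → ℕ → ℕ → Bool := onCell 0 536870912 1073741824 536870912 536870912 50465866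
    (rowB 3 eng mog cd1q0 cd4q2 pd3 0 true true true .up 0 2 3 (qsf 0 536870912 1073741824 536870912 3) ndB1q0 ndB4q2 pcB3 Cut.none Ext.none)

def k0_pp_023 : ∃ t, chk3 f_pp_023 t 1 1 1 = true :=
  ⟨(l 4), by decide +kernel⟩

theorem c_pp_023 : CertB 0 536870912 1073741824 536870912 536870912 50465866 3 eng mog cd1q0 cd4q2 pd3 true true true .up 0 2 3
    ndB1q0 ndB4q2 pcB3 Cut.none Ext.none :=
  certB0 (fam := true) (s1 := true) (s2 := true) (a := 0) (b := 2) (c := 3) (cn := .up) (n1 := ndB1q0) (n2 := ndB4q2) (pc := pcB3) (cut := Cut.none) (xt := Ext.none) (P1 := 0) (W1 := 536870912) (P2 := 1073741824) (W2 := 536870912) (P3 := 536870912) (W3 := 50465866) (N0 := 3) (En := eng) (mo := mog) (C1 := cd1q0) (C2 := cd4q2) (C3 := pd3)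
    rfl k0_pp_023

noncomputable def f_pp_033 : ℕ → ℕ → ℕ → ℕ → Bool := onCell 0 536870912 0 1230186008 536870912 50465866
    (rowB 3 eng mog cd1q0 cd4q3 pd3 0 true true true .pnn 0 3 3 (qsf 0 536870912 0 1230186008 3) ndB1q0 ndB4q3 pcB3 Cut.none Ext.none)

def k0_pp_033 : ∃ t, chk3 f_pp_033 t 1 1 1 = true :=
  ⟨(b (l 4) (l 4)), by decide +kernel⟩

theorem c_pp_033 : CertB 0 536870912 0 1230186008 536870912 50465866 3 eng mog cd1q0 cd4q3 pd3 true true true .pnn 0 3 3
    ndB1q0 ndB4q3 pcB3 Cut.none Ext.none :=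
  certB0 (fam := true) (s1 := true) (s2 := true) (a := 0) (b := 3) (c := 3) (cn := .pnn) (n1 := ndB1q0) (n2 := ndB4q3) (pc := pcB3) (cut := Cut.none) (xt := Ext.none) (P1 := 0) (W1 := 536870912) (P2 := 0) (W2 := 1230186008) (P3 := 536870912) (W3 := 50465866) (N0 := 3) (En := eng) (mo := mog) (C1 := cd1q0) (C2 := cd4q3) (C3 := pd3)
    rfl k0_pp_033

noncomputable def f_pp_101 : ℕ → ℕ → ℕ → ℕ → Bool := onCell 536870912 536870912 0 536870912 536870912 50465866
    (rowB 3 eng mog cd1q1 cd4q0 pd1 0 true true true .npn 1 0 1 (qsf 536870912 536870912 0 536870912 1) ndB1q1 ndB4q0 pcB1 Cut.none Ext.none)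

def k0_pp_101 : ∃ t, chk3 f_pp_101 t 1 1 1 = true :=
  ⟨(l 4), by decide +kernel⟩

theorem c_pp_101 : CertB 536870912 536870912 0 536870912 536870912 50465866 3 eng mog cd1q1 cd4q0 pd1 true true true .npn 1 0 1
    ndB1q1 ndB4q0 pcB1 Cut.none Ext.none :=
  certB0 (fam := true) (s1 := true) (s2 := true) (a := 1) (b := 0) (c := 1) (cn := .npn) (n1 := ndB1q1) (n2 := ndB4q0) (pc := pcB1) (cut := Cut.none) (xt := Ext.none) (P1 := 536870912) (W1 := 536870912) (P2 := 0) (W2 := 536870912) (P3 := 536870912) (W3 := 50465866) (N0 := 3) (En := eng) (mo := mog) (C1 := cd1q1) (C2 := cd4q0) (C3 := pd1)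
    rfl k0_pp_101

noncomputable def f_pp_102 : ℕ → ℕ → ℕ → ℕ → Bool := onCell 536870912 536870912 0 536870912 536870912 50465866
    (rowB 3 eng mog cd1q1 cd4q0 pd2 0 true true true .npp 1 0 2 (qsf 536870912 536870912 0 536870912 2) ndB1q1 ndB4q0 pcB2 Cut.none Ext.none)

def k0_pp_102 : ∃ t, chk3 f_pp_102 t 1 1 1 = true :=
  ⟨(l 4), by decide +kernel⟩

theorem c_pp_102 : CertB 536870912 536870912 0 536870912 536870912 50465866 3 eng mog cd1q1 cd4q0 pd2 true true true .npp 1 0 2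
    ndB1q1 ndB4q0 pcB2 Cut.none Ext.none :=
  certB0 (fam := true) (s1 := true) (s2 := true) (a := 1) (b := 0) (c := 2) (cn := .npp) (n1 := ndB1q1) (n2 := ndB4q0) (pc := pcB2) (cut := Cut.none) (xt := Ext.none) (P1 := 536870912) (W1 := 536870912) (P2 := 0) (W2 := 536870912) (P3 := 536870912) (W3 := 50465866) (N0 := 3) (En := eng) (mo := mog) (C1 := cd1q1) (C2 := cd4q0) (C3 := pd2)
    rfl k0_pp_102

noncomputable def f_pp_112 : ℕ → ℕ → ℕ → ℕ → Bool := onCell 536870912 536870912 536870912 536870912 536870912 50465866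
    (rowB 3 eng mog cd1q1 cd4q1 pd2 0 true true true .dn 1 1 2 (qsf 536870912 536870912 536870912 536870912 2) ndB1q1 ndB4q1 pcB2 Cut.none Ext.none)

def k0_pp_112 : ∃ t, chk3 f_pp_112 t 1 1 1 = true :=
  ⟨(l 4), by decide +kernel⟩

theorem c_pp_112 : CertB 536870912 536870912 536870912 536870912 536870912 50465866 3 eng mog cd1q1 cd4q1 pd2 true true true .dn 1 1 2
    ndB1q1 ndB4q1 pcB2 Cut.none Ext.none :=
  certB0 (fam := true) (s1 := true) (s2 := true) (a := 1) (b := 1) (c := 2) (cn := .dn) (n1 := ndB1q1) (n2 := ndB4q1) (pc := pcB2) (cut := Cut.none) (xt := Ext.none) (P1 := 536870912) (W1 := 536870912) (P2 := 536870912) (W2 := 536870912) (P3 := 536870912) (W3 := 50465866) (N0 := 3) (En := eng) (mo := mog) (C1 := cd1q1) (C2 := cd4q1) (C3 := pd2)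
    rfl k0_pp_112

noncomputable def f_pp_113 : ℕ → ℕ → ℕ → ℕ → Bool := onCell 536870912 536870912 536870912 536870912 536870912 50465866
    (rowB 3 eng mog cd1q1 cd4q1 pd3 0 true true true .nn 1 1 3 (qsf 536870912 536870912 536870912 536870912 3) ndB1q1 ndB4q1 pcB3 Cut.none Ext.none)

def k0_pp_113 : ∃ t, chk3 f_pp_113 t 1 1 1 = true :=
  ⟨(l 4), by decide +kernel⟩

theorem c_pp_113 : CertB 536870912 536870912 536870912 536870912 536870912 50465866 3 eng mog cd1q1 cd4q1 pd3 true true true .nn 1 1 3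
    ndB1q1 ndB4q1 pcB3 Cut.none Ext.none :=
  certB0 (fam := true) (s1 := true) (s2 := true) (a := 1) (b := 1) (c := 3) (cn := .nn) (n1 := ndB1q1) (n2 := ndB4q1) (pc := pcB3) (cut := Cut.none) (xt := Ext.none) (P1 := 536870912) (W1 := 536870912) (P2 := 536870912) (W2 := 536870912) (P3 := 536870912) (W3 := 50465866) (N0 := 3) (En := eng) (mo := mog) (C1 := cd1q1) (C2 := cd4q1) (C3 := pd3)
    rfl k0_pp_113

noncomputable def f_pp_123 : ℕ → ℕ → ℕ → ℕ → Bool := onCell 536870912 536870912 1073741824 536870912 536870912 50465866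
    (rowB 3 eng mog cd1q1 cd4q2 pd3 0 true true true .npn 1 2 3 (qsf 536870912 536870912 1073741824 536870912 3) ndB1q1 ndB4q2 pcB3 Cut.none Ext.none)

def k0_pp_123 : ∃ t, chk3 f_pp_123 t 1 1 1 = true :=
  ⟨(l 4), by decide +kernel⟩

theorem c_pp_123 : CertB 536870912 536870912 1073741824 536870912 536870912 50465866 3 eng mog cd1q1 cd4q2 pd3 true true true .npn 1 2 3
    ndB1q1 ndB4q2 pcB3 Cut.none Ext.none :=
  certB0 (fam := true) (s1 := true) (s2 := true) (a := 1) (b := 2) (c := 3) (cn := .npn) (n1 := ndB1q1) (n2 := ndB4q2) (pc := pcB3) (cut := Cut.none) (xt := Ext.none) (P1 := 536870912) (W1 := 536870912) (P2 := 1073741824) (W2 := 536870912) (P3 := 536870912) (W3 := 50465866) (N0 := 3) (En := eng) (mo := mog) (C1 := cd1q1) (C2 := cd4q2) (C3 := pd3)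
    rfl k0_pp_123

noncomputable def f_pp_133 : ℕ → ℕ → ℕ → ℕ → Bool := onCell 536870912 536870912 0 1230186008 536870912 50465866
    (rowB 3 eng mog cd1q1 cd4q3 pd3 0 true true true .dn 1 3 3 (qsf 536870912 536870912 0 1230186008 3) ndB1q1 ndB4q3 pcB3 Cut.none Ext.none)

def k0_pp_133 : ∃ t, chk3 f_pp_133 t 1 1 1 = true :=
  ⟨(l 4), by decide +kernel⟩

theorem c_pp_133 : CertB 536870912 536870912 0 1230186008 536870912 50465866 3 eng mog cd1q1 cd4q3 pd3 true true true .dn 1 3 3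
    ndB1q1 ndB4q3 pcB3 Cut.none Ext.none :=
  certB0 (fam := true) (s1 := true) (s2 := true) (a := 1) (b := 3) (c := 3) (cn := .dn) (n1 := ndB1q1) (n2 := ndB4q3) (pc := pcB3) (cut := Cut.none) (xt := Ext.none) (P1 := 536870912) (W1 := 536870912) (P2 := 0) (W2 := 1230186008) (P3 := 536870912) (W3 := 50465866) (N0 := 3) (En := eng) (mo := mog) (C1 := cd1q1) (C2 := cd4q3) (C3 := pd3)
    rfl k0_pp_133

noncomputable def f_pp_202_a : ℕ → ℕ → ℕ → ℕ → Bool := onCell 0 536870912 0 536870912 536870912 50465866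
    (rowB 3 eng mog cd1q2a cd4q0 pd2 0 true true true .pp 2 0 2 (qsf 0 536870912 0 536870912 2) ndB1q2a ndB4q0 pcB2 Cut.none Ext.none)

def k0_pp_202_a : ∃ t, chk3 f_pp_202_a t 1 1 1 = true :=
  ⟨(l 5), by decide +kernel⟩

theorem c_pp_202_a : CertB 0 536870912 0 536870912 536870912 50465866 3 eng mog cd1q2a cd4q0 pd2 true true true .pp 2 0 2
    ndB1q2a ndB4q0 pcB2 Cut.none Ext.none :=
  certB0 (fam := true) (s1 := true) (s2 := true) (a := 2) (b := 0) (c := 2) (cn := .pp) (n1 := ndB1q2a) (n2 := ndB4q0) (pc := pcB2) (cut := Cut.none) (xt := Ext.none) (P1 := 0) (W1 := 536870912) (P2 := 0) (W2 := 536870912) (P3 := 536870912) (W3 := 50465866) (N0 := 3) (En := eng) (mo := mog) (C1 := cd1q2a) (C2 := cd4q0) (C3 := pd2)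
    rfl k0_pp_202_a

noncomputable def f_pp_202_b : ℕ → ℕ → ℕ → ℕ → Bool := onCell 1239849684 370763052 0 536870912 536870912 50465866
    (rowB 3 eng mog cd1q2b cd4q0 pd2 0 true true true .pp 2 0 2 (qsf 1239849684 370763052 0 536870912 2) ndB1q2b ndB4q0 pcB2 Cut.none Ext.none)

def k0_pp_202_b : ∃ t, chk3 f_pp_202_b t 1 1 1 = true :=
  ⟨(l 5), by decide +kernel⟩

theorem c_pp_202_b : CertB 1239849684 370763052 0 536870912 536870912 50465866 3 eng mog cd1q2b cd4q0 pd2 true true true .pp 2 0 2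
    ndB1q2b ndB4q0 pcB2 Cut.none Ext.none :=
  certB0 (fam := true) (s1 := true) (s2 := true) (a := 2) (b := 0) (c := 2) (cn := .pp) (n1 := ndB1q2b) (n2 := ndB4q0) (pc := pcB2) (cut := Cut.none) (xt := Ext.none) (P1 := 1239849684) (W1 := 370763052) (P2 := 0) (W2 := 536870912) (P3 := 536870912) (W3 := 50465866) (N0 := 3) (En := eng) (mo := mog) (C1 := cd1q2b) (C2 := cd4q0) (C3 := pd2)
    rfl k0_pp_202_b

noncomputable def f_pp_203_a : ℕ → ℕ → ℕ → ℕ → Bool := onCell 0 536870912 0 536870912 536870912 50465866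
    (rowB 3 eng mog cd1q2a cd4q0 pd3 0 true true true .up 2 0 3 (qsf 0 536870912 0 536870912 3) ndB1q2a ndB4q0 pcB3 Cut.none Ext.none)

def k0_pp_203_a : ∃ t, chk3 f_pp_203_a t 1 1 1 = true :=
  ⟨(l 5), by decide +kernel⟩

theorem c_pp_203_a : CertB 0 536870912 0 536870912 536870912 50465866 3 eng mog cd1q2a cd4q0 pd3 true true true .up 2 0 3
    ndB1q2a ndB4q0 pcB3 Cut.none Ext.none :=
  certB0 (fam := true) (s1 := true) (s2 := true) (a := 2) (b := 0) (c := 3) (cn := .up) (n1 := ndB1q2a) (n2 := ndB4q0) (pc := pcB3) (cut := Cut.none) (xt := Ext.none) (P1 := 0) (W1 := 536870912) (P2 := 0) (W2 := 536870912) (P3 := 536870912) (W3 := 50465866) (N0 := 3) (En := eng) (mo := mog) (C1 := cd1q2a) (C2 := cd4q0) (C3 := pd3)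
    rfl k0_pp_203_a

noncomputable def f_pp_203_b : ℕ → ℕ → ℕ → ℕ → Bool := onCell 1239849684 370763052 0 536870912 536870912 50465866
    (rowB 3 eng mog cd1q2b cd4q0 pd3 0 true true true .up 2 0 3 (qsf 1239849684 370763052 0 536870912 3) ndB1q2b ndB4q0 pcB3 Cut.none Ext.none)

def k0_pp_203_b : ∃ t, chk3 f_pp_203_b t 1 1 1 = true :=
  ⟨(l 5), by decide +kernel⟩

theorem c_pp_203_b : CertB 1239849684 370763052 0 536870912 536870912 50465866 3 eng mog cd1q2b cd4q0 pd3 true true true .up 2 0 3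
    ndB1q2b ndB4q0 pcB3 Cut.none Ext.none :=
  certB0 (fam := true) (s1 := true) (s2 := true) (a := 2) (b := 0) (c := 3) (cn := .up) (n1 := ndB1q2b) (n2 := ndB4q0) (pc := pcB3) (cut := Cut.none) (xt := Ext.none) (P1 := 1239849684) (W1 := 370763052) (P2 := 0) (W2 := 536870912) (P3 := 536870912) (W3 := 50465866) (N0 := 3) (En := eng) (mo := mog) (C1 := cd1q2b) (C2 := cd4q0) (C3 := pd3)
    rfl k0_pp_203_b

noncomputable def f_pp_213_a : ℕ → ℕ → ℕ → ℕ → Bool := onCell 0 536870912 536870912 536870912 536870912 50465866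
    (rowB 3 eng mog cd1q2a cd4q1 pd3 0 true true true .pnn 2 1 3 (qsf 0 536870912 536870912 536870912 3) ndB1q2a ndB4q1 pcB3 Cut.none Ext.none)

def k0_pp_213_a : ∃ t, chk3 f_pp_213_a t 1 1 1 = true :=
  ⟨(l 4), by decide +kernel⟩

theorem c_pp_213_a : CertB 0 536870912 536870912 536870912 536870912 50465866 3 eng mog cd1q2a cd4q1 pd3 true true true .pnn 2 1 3
    ndB1q2a ndB4q1 pcB3 Cut.none Ext.none :=
  certB0 (fam := true) (s1 := true) (s2 := true) (a := 2) (b := 1) (c := 3) (cn := .pnn) (n1 := ndB1q2a) (n2 := ndB4q1) (pc := pcB3) (cut := Cut.none) (xt := Ext.none) (P1 := 0) (W1 := 536870912) (P2 := 536870912) (W2 := 536870912) (P3 := 536870912) (W3 := 50465866) (N0 := 3) (En := eng) (mo := mog) (C1 := cd1q2a) (C2 := cd4q1) (C3 := pd3)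
    rfl k0_pp_213_a

noncomputable def f_pp_213_b : ℕ → ℕ → ℕ → ℕ → Bool := onCell 1239849684 370763052 536870912 536870912 536870912 50465866
    (rowB 3 eng mog cd1q2b cd4q1 pd3 0 true true true .pnn 2 1 3 (qsf 1239849684 370763052 536870912 536870912 3) ndB1q2b ndB4q1 pcB3 Cut.none Ext.none)

def k0_pp_213_b : ∃ t, chk3 f_pp_213_b t 1 1 1 = true :=
  ⟨(l 4), by decide +kernel⟩

theorem c_pp_213_b : CertB 1239849684 370763052 536870912 536870912 536870912 50465866 3 eng mog cd1q2b cd4q1 pd3 true true true .pnn 2 1 3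
    ndB1q2b ndB4q1 pcB3 Cut.none Ext.none :=
  certB0 (fam := true) (s1 := true) (s2 := true) (a := 2) (b := 1) (c := 3) (cn := .pnn) (n1 := ndB1q2b) (n2 := ndB4q1) (pc := pcB3) (cut := Cut.none) (xt := Ext.none) (P1 := 1239849684) (W1 := 370763052) (P2 := 536870912) (W2 := 536870912) (P3 := 536870912) (W3 := 50465866) (N0 := 3) (En := eng) (mo := mog) (C1 := cd1q2b) (C2 := cd4q1) (C3 := pd3)
    rfl k0_pp_213_b

noncomputable def f_pp_303 : ℕ → ℕ → ℕ → ℕ → Bool := onCell 1610612736 536870912 0 536870912 536870912 50465866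
    (rowB 3 eng mog cd1q3 cd4q0 pd3 0 true true true .npn 3 0 3 (qsf 1610612736 536870912 0 536870912 3) ndB1q3 ndB4q0 pcB3 Cut.none Ext.none)

def k0_pp_303 : ∃ t, chk3 f_pp_303 t 1 1 1 = true :=
  ⟨(l 5), by decide +kernel⟩

theorem c_pp_303 : CertB 1610612736 536870912 0 536870912 536870912 50465866 3 eng mog cd1q3 cd4q0 pd3 true true true .npn 3 0 3
    ndB1q3 ndB4q0 pcB3 Cut.none Ext.none :=
  certB0 (fam := true) (s1 := true) (s2 := true) (a := 3) (b := 0) (c := 3) (cn := .npn) (n1 := ndB1q3) (n2 := ndB4q0) (pc := pcB3) (cut := Cut.none) (xt := Ext.none) (P1 := 1610612736) (W1 := 536870912) (P2 := 0) (W2 := 536870912) (P3 := 536870912) (W3 := 50465866) (N0 := 3) (En := eng) (mo := mog) (C1 := cd1q3) (C2 := cd4q0) (C3 := pd3)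
    rfl k0_pp_303

noncomputable def f_pp_313 : ℕ → ℕ → ℕ → ℕ → Bool := onCell 1610612736 536870912 536870912 536870912 536870912 50465866
    (rowB 3 eng mog cd1q3 cd4q1 pd3 0 true true true .dn 3 1 3 (qsf 1610612736 536870912 536870912 536870912 3) ndB1q3 ndB4q1 pcB3 Cut.none Ext.none)

def k0_pp_313 : ∃ t, chk3 f_pp_313 t 1 1 1 = true :=
  ⟨(l 4), by decide +kernel⟩

theorem c_pp_313 : CertB 1610612736 536870912 536870912 536870912 536870912 50465866 3 eng mog cd1q3 cd4q1 pd3 true true true .dn 3 1 3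
    ndB1q3 ndB4q1 pcB3 Cut.none Ext.none :=
  certB0 (fam := true) (s1 := true) (s2 := true) (a := 3) (b := 1) (c := 3) (cn := .dn) (n1 := ndB1q3) (n2 := ndB4q1) (pc := pcB3) (cut := Cut.none) (xt := Ext.none) (P1 := 1610612736) (W1 := 536870912) (P2 := 536870912) (W2 := 536870912) (P3 := 536870912) (W3 := 50465866) (N0 := 3) (En := eng) (mo := mog) (C1 := cd1q3) (C2 := cd4q1) (C3 := pd3)
    rfl k0_pp_313

noncomputable def f_pm_001 : ℕ → ℕ → ℕ → ℕ → Bool := onCell 0 536870912 0 536870912 536870912 50465866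
    (rowB 3 eng mog cd1q0 cd4q0 pd1 0 true true false .up 0 0 1 (qsf 0 536870912 0 536870912 1) ndB1q0 ndB4q0 pcB1 Cut.none Ext.none)

def k0_pm_001 : ∃ t, chk3 f_pm_001 t 1 1 1 = true :=
  ⟨(a (l 3) (b (l 3) (b (l 3) (a (l 3) (b (l 3) (a (l 3) (b (l 3) (a (l 3) (b (l 3) (l 16508136)))))))))), by decide +kernel⟩

theorem c_pm_001 : CertB 0 536870912 0 536870912 536870912 50465866 3 eng mog cd1q0 cd4q0 pd1 true true false .up 0 0 1
    ndB1q0 ndB4q0 pcB1 Cut.none Ext.none :=
  certB0 (fam := true) (s1 := true) (s2 := false) (a := 0) (b := 0) (c := 1) (cn := .up) (n1 := ndB1q0) (n2 := ndB4q0) (pc := pcB1) (cut := Cut.none) (xt := Ext.none) (P1 := 0) (W1 := 536870912) (P2 := 0) (W2 := 536870912) (P3 := 536870912) (W3 := 50465866) (N0 := 3) (En := eng) (mo := mog) (C1 := cd1q0) (C2 := cd4q0) (C3 := pd1)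
    rfl k0_pm_001

noncomputable def cut_pm_011 : Cut := Cut.of [[⟨0, 0, 0, 67108864⟩, ⟨1, 1, 0, 67108864⟩, ⟨2, 1, 0, 67108864⟩]]

noncomputable def f_pm_011 : ℕ → ℕ → ℕ → ℕ → Bool := onCell 0 536870912 536870912 536870912 536870912 50465866
    (rowB 3 eng mog cd1q0 cd4q1 pd1 1 true true false .pnn 0 1 1 (qsf 0 536870912 536870912 536870912 1) ndB1q0 ndB4q1 pcB1 cut_pm_011 Ext.none)

def k0_pm_011 : ∃ t, chk3 f_pm_011 t 1 1 1 = true :=
  ⟨(a (b (l 3) (b (l 3) (b (l 3) (b (l 3) (b (l 3) (a (a (a (l 6) (l 3)) (a (l 3) (l 2969600619735))) (a (b (l 3) (l 16664096)) (l 16622240)))))))) (b (l 3) (b (l 3) (b (l 3) (b (l 3) (b (a (l 3) (l 3)) (a (a (a (l 16570168) (l 16564904)) (a (l 16463896) (l 16410256))) (a (l 16399352) (a (a (l 16398184) (l 16399184)) (l 16438552)))))))))), by decide +kernel⟩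

theorem c_pm_011 : CertB 0 536870912 536870912 536870912 536870912 50465866 3 eng mog cd1q0 cd4q1 pd1 true true false .pnn 0 1 1
    ndB1q0 ndB4q1 pcB1 cut_pm_011 Ext.none :=
  certB1 (fam := true) (s1 := true) (s2 := false) (a := 0) (b := 1) (c := 1) (cn := .pnn) (n1 := ndB1q0) (n2 := ndB4q1) (pc := pcB1) (cut := cut_pm_011) (xt := Ext.none) (P1 := 0) (W1 := 536870912) (P2 := 536870912) (W2 := 536870912) (P3 := 536870912) (W3 := 50465866) (N0 := 3) (En := eng) (mo := mog) (C1 := cd1q0) (C2 := cd4q1) (C3 := pd1)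
    rfl (fun _ => rfl) k0_pm_011

noncomputable def cut_pm_012 : Cut := Cut.of [[⟨0, 0, 0, 67108864⟩, ⟨1, 1, 0, 67108864⟩, ⟨2, 1, 0, 67108864⟩]]

noncomputable def f_pm_012 : ℕ → ℕ → ℕ → ℕ → Bool := onCell 1073741824 536870912 536870912 536870912 536870912 50465866
    (rowB 3 eng mog cd1q0 cd4q1 pd2 2 true true false .pnp 0 1 2 (qsf 0 536870912 536870912 536870912 2) ndB1q0 ndB4q1 pcB2 cut_pm_012 Ext.none)

def k0_pm_012 : ∃ t, chk3 f_pm_012 t 2 2 1 = true :=
  ⟨(a (b (a (b (b (a (l 16326360) (l 16254760)) (a (l 16323424) (l 16223744))) (a (l 16384936) (l 16296616))) (b (b (l 2) (l 16219776)) (a (l 16288000) (l 16280008)))) (a (a (b (b (l 16389792) (l 16561920)) (b (l 16527232) (l 16487280))) (b (b (l 16365528) (l 16402584)) (a (l 16442800) (l 16423216)))) (b (a (l 16464840) (l 16339600)) (a (l 16397048) (l 16367616))))) (b (b (l 2) (a (a (a (l 16274072) (l 2)) (l 2)) (l 2))) (a (a (a (b (l 16326648) (l 16349288)) (b (a (l 16321600) (l 16327032))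 (a (l 16341912) (l 16345144)))) (b (l 16322024) (l 16335632))) (b (l 16338624) (l 16339104))))), by decide +kernel⟩

def k1_pm_012 : ∃ t, chk3 f_pm_012 t 4 3 1 = true :=
  ⟨(a (b (a (b (a (l 16580320) (l 16572240)) (a (b (l 16581184) (l 16631088)) (l 16580992))) (b (a (l 16482240) (l 16457224)) (b (l 16541712) (l 16584104)))) (a (b (b (a (a (l 16652432) (l 16629848)) (l 16599848)) (a (a (l 16705360) (l 16661184)) (l 16659936))) (a (b (a (b (l 16729272) (l 6)) (b (l 16685032) (l 16711216))) (l 6)) (b (b (l 16650872) (a (l 16698280) (l 16654168))) (b (a (l 6) (b (l 16664984) (l 6))) (l 6))))) (b (b (a (l 16561576) (l 16525240)) (a (b (l 16580032) (l 16613960)) (l 16546760))) (b (a (b (l 16606536) (a (l 16631392) (l 16609000))) (b (l 16563888) (l 16576032))) (a (b (b (l 16651248) (l 16663192)) (b (a (l 6) (l 16631928)) (l 6))) (b (l 16609216) (b (l 16597304) (l 16634744)))))))) (b (b (a (l 16465040) (l 16384048)) (a (b (l 16443864) (l 16458512)) (b (l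 16396768) (l 16404896)))) (b (a (b (l 16474432) (a (l 16509152) (l 16473496))) (b (l 16413976) (l 16445328))) (a (b (b (l 16525208) (a (l 16533624) (l 16493480))) (b (a (l 16544312) (l 16502128)) (a (b (l 16552392) (l 16557720)) (l 16511312)))) (b (a (l 16452552) (l 16418040)) (b (l 16506576) (a (l 16469440) (l 16430136)))))))), by decide +kernel⟩

def k2_pm_012 : ∃ t, chk3 f_pm_012 t 5 3 1 = true :=
  ⟨(b (a (a (a (b (l 16359504) (l 16368680)) (b (a (l 16349448) (l 16350384)) (a (l 16354912) (a (l 16349200) (l 16349184))))) (b (l 16336312) (l 16332160))) (b (l 16327096) (l 16370232))) (a (b (a (a (b (l 16374688) (l 16379888)) (a (l 16358968) (a (l 16350904) (b (l 16348896) (l 16348256))))) (b (l 16327128) (l 16322944))) (a (a (b (l 16385968) (b (l 16390520) (l 16393592))) (b (a (l 16363600) (a (l 16353368) (l 16348912))) (a (l 16367056) (a (l 16355408) (a (l 16350192) (l 16347352)))))) (b (l 16319136) (a (l 16330008) (l 16302248))))) (b (b (l 16288496)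 (l 16274680)) (b (a (l 16276928) (l 16245392)) (a (l 16286360) (l 16225952)))))), by decide +kernel⟩

def k3_pm_012 : ∃ t, chk3 f_pm_012 t 3 1 1 = true :=
  ⟨(b (a (b (l 2) (a (b (l 2) (l 16366208)) (l 2))) (l 2)) (a (b (a (b (l 16340816) (l 16304608)) (b (l 16378632) (l 16332000))) (b (a (b (l 16270744) (l 16245112)) (l 16271664)) (a (b (l 16217656) (a (l 16197944) (l 16181880))) (b (l 16217120) (l 16176488))))) (a (b (l 16402008) (b (l 16299048) (l 16212992))) (b (l 2) (a (l 16288824) (b (l 2) (l 16289960))))))), by decide +kernel⟩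

theorem s4_pm_012 : ∃ t, chk3 f_pm_012 t 2 3 1 = true := ex3_a k1_pm_012 k2_pm_012

theorem s5_pm_012 : ∃ t, chk3 f_pm_012 t 2 1 1 = true := ex3_b k0_pm_012 s4_pm_012

theorem s6_pm_012 : ∃ t, chk3 f_pm_012 t 1 1 1 = true := ex3_a s5_pm_012 k3_pm_012

theorem c_pm_012 : CertB 0 536870912 536870912 536870912 536870912 50465866 3 eng mog cd1q0 cd4q1 pd2 true true false .pnp 0 1 2
    ndB1q0 ndB4q1 pcB2 cut_pm_012 Ext.none :=
  certB2 (fam := true) (s1 := true) (s2 := false) (a := 0) (b := 1) (c := 2) (cn := .pnp) (n1 := ndB1q0) (n2 := ndB4q1) (pc := pcB2) (cut := cut_pm_012) (xt := Ext.none) (P1 := 0) (W1 := 536870912) (P2 := 536870912) (W2 := 536870912) (P3 := 536870912) (W3 := 50465866) (N0 := 3) (En := eng) (mo := mog) (C1 := cd1q0) (C2 := cd4q1) (C3 := pd2)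
    rfl (fun _ => rfl) s6_pm_012

end Pool.Agent.Strip051.G.I5000_5470.Tab.C.BA14

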