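import Pool.Agent.Strip051.G.I5000_5470.Tab

/-! # Certificates B9 (generated) -/

set_option linter.all false
set_option maxRecDepth 100000

namespace Pool.Agent.Strip051.G.I5000_5470.Tab.C.BA14

open Pool.Agent.Strip051.PB Pool.Agent.Strip051.PB.T
open Pool.Agent.Strip051.G.I5000_5470.Tab

noncomputable def f_pm_022 : ℕ → ℕ → ℕ → ℕ → Bool := onCell 0 536870912 1073741824 536870912 536870912 50465866
    (rowB 3 eng mog cd1q0 cd4q2 pd2 1 true true false .pp 0 2 2 (qsf 0 536870912 1073741824 536870912 2) ndB1q0 ndB4q2 pcB2 Cut.none Ext.none)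

def k0_pm_022 : ∃ t, chk3 f_pm_022 t 2 2 1 = true :=
  ⟨(b (a (a (a (b (l 3) (l 3)) (l 3)) (l 3)) (l 3)) (b (b (b (a (a (b (a (b (l 16524264) (l 16516344)) (l 16559416)) (a (b (l 16508312) (l 16500688)) (l 16584920))) (b (c (l 16605520) (l 16620248)) (b (l 16575280) (l 16546352)))) (a (a (b (l 180958691607) (b (l 16584032) (l 16576704))) (l 1)) (l 1))) (b (a (a (a (b (l 16493264) (l 16485224)) (l 16528152)) (a (l 16523688) (l 16543824))) (a (a (l 87006342343) (l 1)) (l 1))) (a (b (a (a (l 16560360) (l 16494432)) (l 16564832)) (a (b (a (a (l 16506816) (l 16474104)) (l 16508384)) (a (a (a (l 16564808) (l 16506560)) (l 16513424)) (l 16526608))) (b (a (l 16507592) (l 16528176)) (a (l 16502584) (l 16523536))))) (a (b (a (l 16596456) (l 1)) (b (a (l 16581640) (l 1)) (a (l 91838110439) (c (l 177737630999) (l 189548760487))))) (l 1))))) (b (a (a (a (a (l 16583528) (l 16454992)) (l 16468152)) (l 16515448)) (a (a (l 16528416) (l 16549168)) (l 1))) (a (a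 (a (a (a (l 16528536) (l 16507488)) (l 16426312)) (l 16437664)) (l 16483096)) (a (l 142840646775) (l 258804877591))))) (a (a (a (b (a (b (l 16406336) (l 16391640)) (b (l 16551448) (l 16389696))) (a (l 16374416) (l 16372208))) (b (a (l 16521896) (l 16419312)) (a (l 16451712) (l 16382056)))) (a (b (l 16408680) (l 16420512)) (l 16498048))) (a (b (a (l 16452912) (l 16478248)) (l 16406824)) (b (a (l 16500104) (l 152504477495)) (l 16584048)))))), by decide +kernel⟩

def k1_pm_022 : ∃ t, chk3 f_pm_022 t 2 3 1 = true :=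
  ⟨(b (a (a (b (a (b (l 16359112) (l 16355248)) (b (l 16349704) (l 16344408))) (a (b (l 16360624) (l 16371504)) (l 16374640))) (b (a (b (l 16368048) (l 16326192)) (c (l 16482168) (l 16438184))) (a (l 16335080) (l 16308096)))) (b (a (b (l 16346672) (l 16451032)) (b (l 16489808) (l 16352960))) (a (b (l 16415648) (l 16252728)) (a (l 16334336) (l 16268488))))) (a (b (a (a (b (l 16381440) (l 16381016)) (l 16372224)) (b (l 16344384) (l 16350792))) (a (b (a (l 16379544) (l 16370696)) (a (a (b (a (b (l 16379760) (l 16382904)) (l 16378184)) (a (c (l 16459904) (l 16383464)) (l 16398136))) (b (l 16375424) (l 16383152))) (l 16370768))) (b (l 16353368) (l 16353040)))) (b (a (l 16406560) (b (l 16305832) (l 16163032))) (a (b (l 16303936) (l 16313416)) (l 16206472))))), by decide +kernel⟩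

def k2_pm_022 : ∃ t, chk3 f_pm_022 t 3 1 1 = true :=
  ⟨(b (b (l 1) (b (l 1) (a (a (b (l 1) (l 166463101671)) (l 1)) (l 1)))) (b (a (b (a (b (l 128345155207) (l 16411664)) (b (l 1) (l 171294870439))) (a (l 16448864) (b (l 16423376) (l 16385936)))) (b (l 1) (a (l 180421670343) (l 1)))) (a (b (a (a (l 16381552) (l 16277816)) (l 16375656)) (a (b (l 16197760) (l 16153016)) (l 16402800))) (b (a (l 98280537415) (l 252899424871)) (a (l 16354824) (l 16424976)))))), by decide +kernel⟩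

theorem s3_pm_022 : ∃ t, chk3 f_pm_022 t 2 1 1 = true := ex3_b k0_pm_022 k1_pm_022

theorem s4_pm_022 : ∃ t, chk3 f_pm_022 t 1 1 1 = true := ex3_a s3_pm_022 k2_pm_022

theorem c_pm_022 : CertB 0 536870912 1073741824 536870912 536870912 50465866 3 eng mog cd1q0 cd4q2 pd2 true true false .pp 0 2 2
    ndB1q0 ndB4q2 pcB2 Cut.none Ext.none :=
  certB1 (fam := true) (s1 := true) (s2 := false) (a := 0) (b := 2) (c := 2) (cn := .pp) (n1 := ndB1q0) (n2 := ndB4q2) (pc := pcB2) (cut := Cut.none) (xt := Ext.none) (P1 := 0) (W1 := 536870912) (P2 := 1073741824) (W2 := 536870912) (P3 := 536870912) (W3 := 50465866) (N0 := 3) (En := eng) (mo := mog) (C1 := cd1q0) (C2 := cd4q2) (C3 := pd2)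
    rfl (fun _ => rfl) s4_pm_022

noncomputable def f_pm_023 : ℕ → ℕ → ℕ → ℕ → Bool := onCell 1610612736 536870912 1073741824 536870912 536870912 50465866
    (rowB 3 eng mog cd1q0 cd4q2 pd3 2 true true false .up 0 2 3 (qsf 0 536870912 1073741824 536870912 3) ndB1q0 ndB4q2 pcB3 Cut.none Ext.none)

def k0_pm_023 : ∃ t, chk3 f_pm_023 t 1 1 1 = true :=
  ⟨(a (b (a (b (b (l 16552656) (l 16443760)) (b (l 16332640) (l 16261664))) (b (l 171899686967) (b (l 16624456) (l 16588336)))) (b (a (a (b (l 16223360) (l 16336976)) (l 16429552)) (b (l 16567656) (l 16569304))) (a (b (a (l 16387016) (l 16440904)) (a (b (l 16412048) (a (b (l 16417352) (l 16469304)) (l 16465760))) (b (l 16487000) (a (l 16518032) (l 16554816))))) (b (l 16587160) (b (l 16607192) (l 16632504)))))) (b (a (b (l 2) (l 283031992439)) (l 2)) (a (b (l 16696728) (b (l 16702992) (a (l 16696392) (l 16816344)))) (b (a (l 16732296) (l 2)) (a (b (l 16744824) (l 16907272)) (a (b (l 16761296) (l 16771008))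 (b (l 2) (a (l 16772048) (l 4))))))))), by decide +kernel⟩

theorem c_pm_023 : CertB 0 536870912 1073741824 536870912 536870912 50465866 3 eng mog cd1q0 cd4q2 pd3 true true false .up 0 2 3
    ndB1q0 ndB4q2 pcB3 Cut.none Ext.none :=
  certB2 (fam := true) (s1 := true) (s2 := false) (a := 0) (b := 2) (c := 3) (cn := .up) (n1 := ndB1q0) (n2 := ndB4q2) (pc := pcB3) (cut := Cut.none) (xt := Ext.none) (P1 := 0) (W1 := 536870912) (P2 := 1073741824) (W2 := 536870912) (P3 := 536870912) (W3 := 50465866) (N0 := 3) (En := eng) (mo := mog) (C1 := cd1q0) (C2 := cd4q2) (C3 := pd3)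
    rfl (fun _ => rfl) k0_pm_023

noncomputable def f_pm_033 : ℕ → ℕ → ℕ → ℕ → Bool := onCell 1610612736 536870912 0 1230186008 536870912 50465866
    (rowB 3 eng mog cd1q0 cd4q3 pd3 2 true true false .pnn 0 3 3 (qsf 0 536870912 0 1230186008 3) ndB1q0 ndB4q3 pcB3 Cut.none Ext.none)

def k0_pm_033 : ∃ t, chk3 f_pm_033 t 1 1 1 = true :=
  ⟨(b (a (l 1) (a (l 1) (b (l 4) (l 4)))) (b (a (b (l 1) (a (l 1) (a (l 1) (l 421477593671)))) (a (a (b (l 1) (a (l 16727880) (l 16739096))) (a (b (l 16753912) (l 16749896)) (b (l 16753312) (l 16754904)))) (a (a (l 16749864) (l 4)) (l 4)))) (a (b (a (l 1) (a (b (l 377453613991) (a (l 350609921479) (l 16683784))) (b (l 16699504) (l 16700808)))) (a (b (a (l 1) (a (b (l 1) (l 353294349543)) (l 183643048503))) (a (b (a (l 1) (b (a (l 1) (l 339335620231)) (a (l 319471249095) (l 16556792)))) (a (b (l 308196777767) (l 285111178919)) (b (l 16451712) (l 16437080)))) (b (a (b (a (l 16602720) (l 16633600)) (l 16587592)) (l 16628552))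 (a (b (l 16544456) (l 16495008)) (l 16554920))))) (b (a (l 16679488) (l 16703624)) (b (a (l 16656608) (l 16690728)) (a (l 16601704) (l 16654744)))))) (a (b (a (l 16726720) (a (l 16749336) (l 16758824))) (b (a (l 16732472) (a (l 16751952) (l 16764544))) (a (b (l 16724264) (l 16700200)) (b (l 16753072) (l 16735824))))) (b (a (a (l 16764584) (l 16761976)) (l 4)) (a (b (l 16773904) (b (l 16775168) (l 16763136))) (a (b (l 16774856) (l 16588136)) (l 4)))))))), by decide +kernel⟩

theorem c_pm_033 : CertB 0 536870912 0 1230186008 536870912 50465866 3 eng mog cd1q0 cd4q3 pd3 true true false .pnn 0 3 3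
    ndB1q0 ndB4q3 pcB3 Cut.none Ext.none :=
  certB2 (fam := true) (s1 := true) (s2 := false) (a := 0) (b := 3) (c := 3) (cn := .pnn) (n1 := ndB1q0) (n2 := ndB4q3) (pc := pcB3) (cut := Cut.none) (xt := Ext.none) (P1 := 0) (W1 := 536870912) (P2 := 0) (W2 := 1230186008) (P3 := 536870912) (W3 := 50465866) (N0 := 3) (En := eng) (mo := mog) (C1 := cd1q0) (C2 := cd4q3) (C3 := pd3)
    rfl (fun _ => rfl) k0_pm_033

noncomputable def f_pm_101 : ℕ → ℕ → ℕ → ℕ → Bool := onCell 536870912 536870912 0 536870912 536870912 50465866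
    (rowB 3 eng mog cd1q1 cd4q0 pd1 2 true true false .npn 1 0 1 (qsf 536870912 536870912 0 536870912 1) ndB1q1 ndB4q0 pcB1 Cut.none Ext.none)

def k0_pm_101 : ∃ t, chk3 f_pm_101 t 1 1 1 = true :=
  ⟨(a (l 3) (b (a (l 3) (a (l 3) (b (a (a (l 3) (b (l 16799000) (l 16882104))) (b (a (l 16778024) (l 16758080)) (a (l 16778472) (l 16758272)))) (a (b (b (l 699174030775) (l 3)) (l 3)) (b (b (a (l 16768192) (l 16747264)) (l 101636662439)) (a (b (l 16759560) (l 16754064)) (l 16733872))))))) (a (l 3) (a (l 3) (a (l 3) (b (b (b (a (l 82846103239) (l 16723336)) (a (c (l 62445018375) (l 60297501159)) (a (l 16715128) (l 16698832)))) (a (b (l 16700224) (l 16652360)) (a (l 16648808) (l 16629168)))) (b (b (b (l 16710296) (l 16591728)) (b (l 16547760) (l 16503576))) (b (l 80697937799) (l 73181723351))))))))), by decide +kernel⟩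

theorem c_pm_101 : CertB 536870912 536870912 0 536870912 536870912 50465866 3 eng mog cd1q1 cd4q0 pd1 true true false .npn 1 0 1
    ndB1q1 ndB4q0 pcB1 Cut.none Ext.none :=
  certB2 (fam := true) (s1 := true) (s2 := false) (a := 1) (b := 0) (c := 1) (cn := .npn) (n1 := ndB1q1) (n2 := ndB4q0) (pc := pcB1) (cut := Cut.none) (xt := Ext.none) (P1 := 536870912) (W1 := 536870912) (P2 := 0) (W2 := 536870912) (P3 := 536870912) (W3 := 50465866) (N0 := 3) (En := eng) (mo := mog) (C1 := cd1q1) (C2 := cd4q0) (C3 := pd1)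
    rfl (fun _ => rfl) k0_pm_101

noncomputable def f_pm_102 : ℕ → ℕ → ℕ → ℕ → Bool := onCell 1073741824 536870912 0 536870912 536870912 50465866
    (rowB 3 eng mog cd1q1 cd4q0 pd2 2 true true false .npp 1 0 2 (qsf 536870912 536870912 0 536870912 2) ndB1q1 ndB4q0 pcB2 Cut.none Ext.none)

def k0_pm_102 : ∃ t, chk3 f_pm_102 t 2 1 1 = true :=
  ⟨(b (a (a (b (b (a (b (a (l 16737704) (l 16725704)) (a (l 16735848) (l 16733232))) (b (a (l 16714624) (l 2)) (l 16721856))) (a (b (l 16726008) (l 16721576)) (b (l 16740032) (l 16712312)))) (b (a (b (l 16714280) (l 16708952)) (l 16691304)) (a (l 16742096) (l 16673712)))) (b (b (a (b (l 2) (l 16709544)) (l 2)) (a (b (l 16721008) (l 16747704)) (b (l 16713600) (l 16732096)))) (b (a (l 16715632) (l 16760440)) (a (l 16672928) (l 16706424))))) (b (a (b (l 2) (a (a (b (l 2) (l 16714048)) (l 2)) (l 2))) (l 2)) (a (a (b (a (l 16768344) (l 16810168)) (a (l 16752752) (l 16776792))) (b (l 16764120) (l 16801816))) (b (b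 (l 2) (l 16755320)) (l 16808048))))) (a (b (a (b (a (b (l 16688984) (a (l 16678640) (l 16660152))) (l 16672416)) (a (a (l 16647344) (l 16585160)) (l 16569736))) (b (a (l 16642744) (l 16656680)) (a (l 16569960) (l 16590944)))) (b (a (b (a (l 16515984) (l 16493568)) (a (a (l 16472040) (l 16454120)) (l 16442288))) (b (l 16508176) (l 16459032))) (a (b (b (l 16387816) (l 16376616)) (a (l 16323960) (l 16311072))) (b (l 16406584) (l 16402416))))) (b (a (a (a (l 16776216) (b (l 16710656) (l 16639712))) (b (l 16763360) (l 16680640))) (b (l 16833352) (l 16796760))) (b (a (a (a (l 16532536) (l 16559768)) (l 16602584)) (l 16713104)) (a (a (b (l 16474256) (l 16499856)) (l 16509096)) (l 16629528)))))), by decide +kernel⟩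

def k1_pm_102 : ∃ t, chk3 f_pm_102 t 3 1 1 = true :=
  ⟨(b (a (b (l 2) (a (b (l 2) (l 16795336)) (l 2))) (l 2)) (a (b (a (b (l 16853840) (l 16906168)) (b (a (l 16852776) (l 2)) (l 16981776))) (b (a (l 16876880) (l 17021632)) (a (l 16795848) (l 16948240)))) (b (a (b (l 2) (a (l 17046984) (l 2))) (l 2)) (a (b (l 17184792) (l 17056208)) (b (a (l 17239608) (l 2)) (l 17124576)))))), by decide +kernel⟩

theorem s2_pm_102 : ∃ t, chk3 f_pm_102 t 1 1 1 = true := ex3_a k0_pm_102 k1_pm_102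

theorem c_pm_102 : CertB 536870912 536870912 0 536870912 536870912 50465866 3 eng mog cd1q1 cd4q0 pd2 true true false .npp 1 0 2
    ndB1q1 ndB4q0 pcB2 Cut.none Ext.none :=
  certB2 (fam := true) (s1 := true) (s2 := false) (a := 1) (b := 0) (c := 2) (cn := .npp) (n1 := ndB1q1) (n2 := ndB4q0) (pc := pcB2) (cut := Cut.none) (xt := Ext.none) (P1 := 536870912) (W1 := 536870912) (P2 := 0) (W2 := 536870912) (P3 := 536870912) (W3 := 50465866) (N0 := 3) (En := eng) (mo := mog) (C1 := cd1q1) (C2 := cd4q0) (C3 := pd2)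
    rfl (fun _ => rfl) s2_pm_102

noncomputable def f_pm_112 : ℕ → ℕ → ℕ → ℕ → Bool := onCell 1073741824 536870912 536870912 536870912 536870912 50465866
    (rowB 3 eng mog cd1q1 cd4q1 pd2 2 true true false .dn 1 1 2 (qsf 536870912 536870912 536870912 536870912 2) ndB1q1 ndB4q1 pcB2 Cut.none Ext.none)

def k0_pm_112 : ∃ t, chk3 f_pm_112 t 1 1 1 = true :=
  ⟨(a (b (a (b (a (b (b (b (l 16319448) (l 16354344)) (l 16371904)) (l 241624692487)) (b (b (a (l 16283856) (l 16331592)) (l 16306608)) (a (l 16346952) (l 16327064)))) (a (l 1) (b (a (l 1) (l 182569285463)) (l 1)))) (b (b (a (a (a (l 16376512) (a (l 16372976) (l 16455360))) (l 16427648)) (l 16542696)) (a (a (a (l 16335664) (l 16358088)) (l 16378352)) (l 16465992))) (a (a (b (a (l 16354336) (l 158947016039)) (l 1)) (b (l 16359376) (l 16361944))) (b (l 16406608) (l 16369824))))) (a (l 1) (b (a (l 1) (b (l 16461944) (l 1))) (l 1)))) (b (a (b (b (a (l 16710192) (l 16859584)) (l 16696496)) (a (b (l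 16520688) (l 16436648)) (l 16621624))) (b (a (b (l 16961632) (l 16897664)) (b (l 17022432) (l 16966552))) (a (l 16785176) (a (l 16869712) (l 16910360))))) (a (b (a (l 186864224375) (l 151430650103)) (a (l 1) (l 245919462551))) (a (b (l 16531832) (l 207264836151)) (b (a (l 16682952) (l 16782688)) (a (l 16354376) (b (l 16558560) (l 16362416)))))))), by decide +kernel⟩

theorem c_pm_112 : CertB 536870912 536870912 536870912 536870912 536870912 50465866 3 eng mog cd1q1 cd4q1 pd2 true true false .dn 1 1 2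
    ndB1q1 ndB4q1 pcB2 Cut.none Ext.none :=
  certB2 (fam := true) (s1 := true) (s2 := false) (a := 1) (b := 1) (c := 2) (cn := .dn) (n1 := ndB1q1) (n2 := ndB4q1) (pc := pcB2) (cut := Cut.none) (xt := Ext.none) (P1 := 536870912) (W1 := 536870912) (P2 := 536870912) (W2 := 536870912) (P3 := 536870912) (W3 := 50465866) (N0 := 3) (En := eng) (mo := mog) (C1 := cd1q1) (C2 := cd4q1) (C3 := pd2)
    rfl (fun _ => rfl) k0_pm_112

noncomputable def f_pm_113 : ℕ → ℕ → ℕ → ℕ → Bool := onCell 536870912 536870912 1610612736 536870912 536870912 50465866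
    (rowB 3 eng mog cd1q1 cd4q1 pd3 1 true true false .nn 1 1 3 (qsf 536870912 536870912 536870912 536870912 3) ndB1q1 ndB4q1 pcB3 Cut.none Ext.none)

def k0_pm_113 : ∃ t, chk3 f_pm_113 t 1 1 1 = true :=
  ⟨(a (b (b (b (a (b (a (l 16382824) (l 16606240)) (b (l 262093119415) (l 275514975703))) (b (l 16806424) (l 16849304))) (b (a (a (l 16382832) (l 16710992)) (l 16866440)) (a (l 311485406295) (l 16858440)))) (a (a (l 2) (b (l 16701040) (l 2))) (b (l 16854872) (l 16866624)))) (b (b (a (l 2) (l 390943414487)) (l 2)) (l 2))) (a (b (b (b (b (l 16919616) (l 16931752)) (l 16925392)) (b (l 16909280) (l 16905432))) (b (b (l 16905120) (l 316855260407)) (l 4))) (b (b (b (a (l 16980224) (b (l 17039672) (l 17011672))) (l 16952424)) (b (l 16981504) (l 16893280))) (b (b (l 16866792) (l 4)) (l 4))))), by decide +kernel⟩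

theorem c_pm_113 : CertB 536870912 536870912 536870912 536870912 536870912 50465866 3 eng mog cd1q1 cd4q1 pd3 true true false .nn 1 1 3
    ndB1q1 ndB4q1 pcB3 Cut.none Ext.none :=
  certB1 (fam := true) (s1 := true) (s2 := false) (a := 1) (b := 1) (c := 3) (cn := .nn) (n1 := ndB1q1) (n2 := ndB4q1) (pc := pcB3) (cut := Cut.none) (xt := Ext.none) (P1 := 536870912) (W1 := 536870912) (P2 := 536870912) (W2 := 536870912) (P3 := 536870912) (W3 := 50465866) (N0 := 3) (En := eng) (mo := mog) (C1 := cd1q1) (C2 := cd4q1) (C3 := pd3)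
    rfl (fun _ => rfl) k0_pm_113

noncomputable def f_pm_123 : ℕ → ℕ → ℕ → ℕ → Bool := onCell 1610612736 536870912 1073741824 536870912 536870912 50465866
    (rowB 3 eng mog cd1q1 cd4q2 pd3 2 true true false .npn 1 2 3 (qsf 536870912 536870912 1073741824 536870912 3) ndB1q1 ndB4q2 pcB3 Cut.none Ext.none)

def k0_pm_123 : ∃ t, chk3 f_pm_123 t 1 1 1 = true :=
  ⟨(a (b (a (b (b (l 16633304) (l 16493416)) (b (l 16436440) (l 1))) (b (a (l 16771824) (l 17101544)) (b (l 16664056) (l 16609872)))) (b (a (l 1) (l 173979871671)) (l 1))) (b (a (b (b (l 16909392) (l 16844816)) (b (l 16949584) (l 16737344))) (a (b (l 16940912) (b (l 16782672) (l 16763184))) (a (b (l 16798480) (l 16803624)) (a (b (l 16777208) (l 16756616)) (b (a (l 16765056) (a (l 16757888) (b (l 16759912) (l 16759096)))) (a (l 16755760) (a (l 16756288) (b (l 16754512) (l 16759776))))))))) (a (b (b (l 16710880) (l 16703424)) (b (l 16710128) (l 1))) (b (a (l 16744184) (a (l 16756088) (a (l 16764280)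 (a (l 16770160) (a (l 16770000) (l 16767064)))))) (a (b (l 16748232) (l 261490167207)) (a (b (l 16768424) (l 16775848)) (a (b (l 16777968) (l 16778328)) (l 4)))))))), by decide +kernel⟩

theorem c_pm_123 : CertB 536870912 536870912 1073741824 536870912 536870912 50465866 3 eng mog cd1q1 cd4q2 pd3 true true false .npn 1 2 3
    ndB1q1 ndB4q2 pcB3 Cut.none Ext.none :=
  certB2 (fam := true) (s1 := true) (s2 := false) (a := 1) (b := 2) (c := 3) (cn := .npn) (n1 := ndB1q1) (n2 := ndB4q2) (pc := pcB3) (cut := Cut.none) (xt := Ext.none) (P1 := 536870912) (W1 := 536870912) (P2 := 1073741824) (W2 := 536870912) (P3 := 536870912) (W3 := 50465866) (N0 := 3) (En := eng) (mo := mog) (C1 := cd1q1) (C2 := cd4q2) (C3 := pd3)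
    rfl (fun _ => rfl) k0_pm_123

noncomputable def f_pm_133 : ℕ → ℕ → ℕ → ℕ → Bool := onCell 536870912 536870912 0 1230186008 536870912 50465866
    (rowB 3 eng mog cd1q1 cd4q3 pd3 0 true true false .dn 1 3 3 (qsf 536870912 536870912 0 1230186008 3) ndB1q1 ndB4q3 pcB3 Cut.none Ext.none)

def k0_pm_133 : ∃ t, chk3 f_pm_133 t 1 1 1 = true :=
  ⟨(b (l 2) (b (l 2) (a (l 4) (l 2)))), by decide +kernel⟩

theorem c_pm_133 : CertB 536870912 536870912 0 1230186008 536870912 50465866 3 eng mog cd1q1 cd4q3 pd3 true true false .dn 1 3 3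
    ndB1q1 ndB4q3 pcB3 Cut.none Ext.none :=
  certB0 (fam := true) (s1 := true) (s2 := false) (a := 1) (b := 3) (c := 3) (cn := .dn) (n1 := ndB1q1) (n2 := ndB4q3) (pc := pcB3) (cut := Cut.none) (xt := Ext.none) (P1 := 536870912) (W1 := 536870912) (P2 := 0) (W2 := 1230186008) (P3 := 536870912) (W3 := 50465866) (N0 := 3) (En := eng) (mo := mog) (C1 := cd1q1) (C2 := cd4q3) (C3 := pd3)
    rfl k0_pm_133

noncomputable def f_pm_202_a : ℕ → ℕ → ℕ → ℕ → Bool := onCell 0 536870912 0 536870912 536870912 50465866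
    (rowB 3 eng mog cd1q2a cd4q0 pd2 0 true true false .pp 2 0 2 (qsf 0 536870912 0 536870912 2) ndB1q2a ndB4q0 pcB2 Cut.none Ext.none)

def k0_pm_202_a : ∃ t, chk3 f_pm_202_a t 1 1 1 = true :=
  ⟨(a (b (b (b (a (b (a (l 16595840) (l 16599000)) (a (l 16624312) (l 16624584))) (b (a (l 16605944) (l 16617240)) (a (l 16628888) (l 16637088)))) (a (b (l 16652920) (l 16682376)) (a (b (l 16653088) (l 16678616)) (l 16670352)))) (b (a (l 16745248) (b (l 16705816) (l 16729088))) (a (l 16833992) (l 16765776)))) (b (b (a (b (l 16803952) (l 4)) (b (l 16804984) (l 16836816))) (a (l 4) (b (l 16879480) (l 16900976)))) (l 4))) (b (b (a (b (b (a (l 16633096) (l 16653360)) (a (l 16648528) (l 16662704))) (a (b (l 16667352) (l 16688056)) (b (l 16677976) (l 16696880)))) (b (a (b (a (l 16671608) (l 16685920)) (l 16681320)) (a (b (b (l 16704264) (l 16700744)) (l 16699992)) (b (a (b (l 16717600) (l 16713720)) (l 16747280)) (l 16716856)))) (a (b (l 16692248) (l 16731304))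 (b (a (l 16708040) (l 16723984)) (l 16733984))))) (a (b (a (l 16721584) (l 16727704)) (a (l 16766288) (l 16773608))) (b (a (b (l 16731896) (l 16752776)) (b (a (l 16751256) (l 16771512)) (l 16806824))) (a (l 16787568) (l 16822672))))) (b (a (b (a (l 16824048) (l 16830032)) (a (l 16924352) (l 16944032))) (a (b (l 16849040) (l 16971360)) (b (l 16883376) (l 17023312)))) (a (b (b (l 16924440) (l 16901768)) (l 2)) (b (a (l 16994864) (l 17028624)) (a (l 16844104) (l 16976200))))))), by decide +kernel⟩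

theorem c_pm_202_a : CertB 0 536870912 0 536870912 536870912 50465866 3 eng mog cd1q2a cd4q0 pd2 true true false .pp 2 0 2
    ndB1q2a ndB4q0 pcB2 Cut.none Ext.none :=
  certB0 (fam := true) (s1 := true) (s2 := false) (a := 2) (b := 0) (c := 2) (cn := .pp) (n1 := ndB1q2a) (n2 := ndB4q0) (pc := pcB2) (cut := Cut.none) (xt := Ext.none) (P1 := 0) (W1 := 536870912) (P2 := 0) (W2 := 536870912) (P3 := 536870912) (W3 := 50465866) (N0 := 3) (En := eng) (mo := mog) (C1 := cd1q2a) (C2 := cd4q0) (C3 := pd2)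
    rfl k0_pm_202_a

noncomputable def f_pm_202_b : ℕ → ℕ → ℕ → ℕ → Bool := onCell 1073741824 536870912 0 536870912 536870912 50465866
    (rowB 3 eng mog cd1q2b cd4q0 pd2 2 true true false .pp 2 0 2 (qsf 1239849684 370763052 0 536870912 2) ndB1q2b ndB4q0 pcB2 Cut.none Ext.none)

def k0_pm_202_b : ∃ t, chk3 f_pm_202_b t 1 1 1 = true :=
  ⟨(a (b (a (l 1) (b (a (b (a (l 259879031879) (b (l 16594160) (l 16651288))) (l 1)) (b (a (l 16593464) (l 16559864)) (l 430604205383))) (l 1))) (l 1)) (a (b (b (a (b (l 16502120) (l 16645144)) (b (l 16408736) (l 16583944))) (a (b (l 439730718359) (l 1)) (b (l 16708464) (l 508450844231)))) (l 1)) (b (b (a (l 32446998999) (l 16281160)) (l 4)) (l 4)))), by decide +kernel⟩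

theorem c_pm_202_b : CertB 1239849684 370763052 0 536870912 536870912 50465866 3 eng mog cd1q2b cd4q0 pd2 true true false .pp 2 0 2
    ndB1q2b ndB4q0 pcB2 Cut.none Ext.none :=
  certB2 (fam := true) (s1 := true) (s2 := false) (a := 2) (b := 0) (c := 2) (cn := .pp) (n1 := ndB1q2b) (n2 := ndB4q0) (pc := pcB2) (cut := Cut.none) (xt := Ext.none) (P1 := 1239849684) (W1 := 370763052) (P2 := 0) (W2 := 536870912) (P3 := 536870912) (W3 := 50465866) (N0 := 3) (En := eng) (mo := mog) (C1 := cd1q2b) (C2 := cd4q0) (C3 := pd2)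
    rfl (fun _ => rfl) k0_pm_202_b

noncomputable def f_pm_203_a : ℕ → ℕ → ℕ → ℕ → Bool := onCell 0 536870912 1610612736 536870912 536870912 50465866
    (rowB 3 eng mog cd1q2a cd4q0 pd3 1 true true false .up 2 0 3 (qsf 0 536870912 0 536870912 3) ndB1q2a ndB4q0 pcB3 Cut.none Ext.none)

def k0_pm_203_a : ∃ t, chk3 f_pm_203_a t 1 1 1 = true :=
  ⟨(b (a (l 4) (b (a (b (b (l 16888872) (l 16859656)) (l 4)) (b (a (l 16917624) (l 16938200)) (a (l 16861888) (l 2)))) (a (l 2) (l 2)))) (l 2)), by decide +kernel⟩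

theorem c_pm_203_a : CertB 0 536870912 0 536870912 536870912 50465866 3 eng mog cd1q2a cd4q0 pd3 true true false .up 2 0 3
    ndB1q2a ndB4q0 pcB3 Cut.none Ext.none :=
  certB1 (fam := true) (s1 := true) (s2 := false) (a := 2) (b := 0) (c := 3) (cn := .up) (n1 := ndB1q2a) (n2 := ndB4q0) (pc := pcB3) (cut := Cut.none) (xt := Ext.none) (P1 := 0) (W1 := 536870912) (P2 := 0) (W2 := 536870912) (P3 := 536870912) (W3 := 50465866) (N0 := 3) (En := eng) (mo := mog) (C1 := cd1q2a) (C2 := cd4q0) (C3 := pd3)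
    rfl (fun _ => rfl) k0_pm_203_a

noncomputable def f_pm_203_b : ℕ → ℕ → ℕ → ℕ → Bool := onCell 1239849684 370763052 1610612736 536870912 536870912 50465866
    (rowB 3 eng mog cd1q2b cd4q0 pd3 1 true true false .up 2 0 3 (qsf 1239849684 370763052 0 536870912 3) ndB1q2b ndB4q0 pcB3 Cut.none Ext.none)

def k0_pm_203_b : ∃ t, chk3 f_pm_203_b t 1 1 1 = true :=
  ⟨(b (a (l 4) (l 4)) (l 4)), by decide +kernel⟩

theorem c_pm_203_b : CertB 1239849684 370763052 0 536870912 536870912 50465866 3 eng mog cd1q2b cd4q0 pd3 true true false .up 2 0 3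
    ndB1q2b ndB4q0 pcB3 Cut.none Ext.none :=
  certB1 (fam := true) (s1 := true) (s2 := false) (a := 2) (b := 0) (c := 3) (cn := .up) (n1 := ndB1q2b) (n2 := ndB4q0) (pc := pcB3) (cut := Cut.none) (xt := Ext.none) (P1 := 1239849684) (W1 := 370763052) (P2 := 0) (W2 := 536870912) (P3 := 536870912) (W3 := 50465866) (N0 := 3) (En := eng) (mo := mog) (C1 := cd1q2b) (C2 := cd4q0) (C3 := pd3)
    rfl (fun _ => rfl) k0_pm_203_b

noncomputable def f_pm_213_a : ℕ → ℕ → ℕ → ℕ → Bool := onCell 0 536870912 1610612736 536870912 536870912 50465866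
    (rowB 3 eng mog cd1q2a cd4q1 pd3 1 true true false .pnn 2 1 3 (qsf 0 536870912 536870912 536870912 3) ndB1q2a ndB4q1 pcB3 Cut.none Ext.none)

def k0_pm_213_a : ∃ t, chk3 f_pm_213_a t 1 1 1 = true :=
  ⟨(b (a (l 4) (b (a (b (l 1) (l 4)) (a (b (l 16899064) (l 16864168)) (b (l 16931024) (l 16891280)))) (a (l 4) (b (l 16845352) (l 4))))) (l 4)), by decide +kernel⟩

theorem c_pm_213_a : CertB 0 536870912 536870912 536870912 536870912 50465866 3 eng mog cd1q2a cd4q1 pd3 true true false .pnn 2 1 3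
    ndB1q2a ndB4q1 pcB3 Cut.none Ext.none :=
  certB1 (fam := true) (s1 := true) (s2 := false) (a := 2) (b := 1) (c := 3) (cn := .pnn) (n1 := ndB1q2a) (n2 := ndB4q1) (pc := pcB3) (cut := Cut.none) (xt := Ext.none) (P1 := 0) (W1 := 536870912) (P2 := 536870912) (W2 := 536870912) (P3 := 536870912) (W3 := 50465866) (N0 := 3) (En := eng) (mo := mog) (C1 := cd1q2a) (C2 := cd4q1) (C3 := pd3)
    rfl (fun _ => rfl) k0_pm_213_a

noncomputable def f_pm_213_b : ℕ → ℕ → ℕ → ℕ → Bool := onCell 1239849684 370763052 536870912 536870912 536870912 50465866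
    (rowB 3 eng mog cd1q2b cd4q1 pd3 0 true true false .pnn 2 1 3 (qsf 1239849684 370763052 536870912 536870912 3) ndB1q2b ndB4q1 pcB3 Cut.none Ext.none)

def k0_pm_213_b : ∃ t, chk3 f_pm_213_b t 1 1 1 = true :=
  ⟨(l 4), by decide +kernel⟩

theorem c_pm_213_b : CertB 1239849684 370763052 536870912 536870912 536870912 50465866 3 eng mog cd1q2b cd4q1 pd3 true true false .pnn 2 1 3
    ndB1q2b ndB4q1 pcB3 Cut.none Ext.none :=
  certB0 (fam := true) (s1 := true) (s2 := false) (a := 2) (b := 1) (c := 3) (cn := .pnn) (n1 := ndB1q2b) (n2 := ndB4q1) (pc := pcB3) (cut := Cut.none) (xt := Ext.none) (P1 := 1239849684) (W1 := 370763052) (P2 := 536870912) (W2 := 536870912) (P3 := 536870912) (W3 := 50465866) (N0 := 3) (En := eng) (mo := mog) (C1 := cd1q2b) (C2 := cd4q1) (C3 := pd3)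
    rfl k0_pm_213_b

noncomputable def f_pm_303 : ℕ → ℕ → ℕ → ℕ → Bool := onCell 1610612736 536870912 0 536870912 536870912 50465866
    (rowB 3 eng mog cd1q3 cd4q0 pd3 2 true true false .npn 3 0 3 (qsf 1610612736 536870912 0 536870912 3) ndB1q3 ndB4q0 pcB3 Cut.none Ext.none)

def k0_pm_303 : ∃ t, chk3 f_pm_303 t 1 1 1 = true :=
  ⟨(a (b (l 4) (l 4)) (l 4)), by decide +kernel⟩

theorem c_pm_303 : CertB 1610612736 536870912 0 536870912 536870912 50465866 3 eng mog cd1q3 cd4q0 pd3 true true false .npn 3 0 3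
    ndB1q3 ndB4q0 pcB3 Cut.none Ext.none :=
  certB2 (fam := true) (s1 := true) (s2 := false) (a := 3) (b := 0) (c := 3) (cn := .npn) (n1 := ndB1q3) (n2 := ndB4q0) (pc := pcB3) (cut := Cut.none) (xt := Ext.none) (P1 := 1610612736) (W1 := 536870912) (P2 := 0) (W2 := 536870912) (P3 := 536870912) (W3 := 50465866) (N0 := 3) (En := eng) (mo := mog) (C1 := cd1q3) (C2 := cd4q0) (C3 := pd3)
    rfl (fun _ => rfl) k0_pm_303

noncomputable def f_pm_313 : ℕ → ℕ → ℕ → ℕ → Bool := onCell 1610612736 536870912 536870912 536870912 536870912 50465866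
    (rowB 3 eng mog cd1q3 cd4q1 pd3 0 true true false .dn 3 1 3 (qsf 1610612736 536870912 536870912 536870912 3) ndB1q3 ndB4q1 pcB3 Cut.none Ext.none)

def k0_pm_313 : ∃ t, chk3 f_pm_313 t 1 1 1 = true :=
  ⟨(l 4), by decide +kernel⟩

theorem c_pm_313 : CertB 1610612736 536870912 536870912 536870912 536870912 50465866 3 eng mog cd1q3 cd4q1 pd3 true true false .dn 3 1 3
    ndB1q3 ndB4q1 pcB3 Cut.none Ext.none :=
  certB0 (fam := true) (s1 := true) (s2 := false) (a := 3) (b := 1) (c := 3) (cn := .dn) (n1 := ndB1q3) (n2 := ndB4q1) (pc := pcB3) (cut := Cut.none) (xt := Ext.none) (P1 := 1610612736) (W1 := 536870912) (P2 := 536870912) (W2 := 536870912) (P3 := 536870912) (W3 := 50465866) (N0 := 3) (En := eng) (mo := mog) (C1 := cd1q3) (C2 := cd4q1) (C3 := pd3)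
    rfl k0_pm_313

noncomputable def f_mm_001 : ℕ → ℕ → ℕ → ℕ → Bool := onCell 0 536870912 0 536870912 536870912 50465866
    (rowB 3 eng mog cd1q0 cd4q0 pd1 0 true false false .up 0 0 1 (qsf 0 536870912 0 536870912 1) ndB1q0 ndB4q0 pcB1 Cut.none Ext.none)

def k0_mm_001 : ∃ t, chk3 f_mm_001 t 1 1 1 = true :=
  ⟨(l 4), by decide +kernel⟩

theorem c_mm_001 : CertB 0 536870912 0 536870912 536870912 50465866 3 eng mog cd1q0 cd4q0 pd1 true false false .up 0 0 1
    ndB1q0 ndB4q0 pcB1 Cut.none Ext.none :=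
  certB0 (fam := true) (s1 := false) (s2 := false) (a := 0) (b := 0) (c := 1) (cn := .up) (n1 := ndB1q0) (n2 := ndB4q0) (pc := pcB1) (cut := Cut.none) (xt := Ext.none) (P1 := 0) (W1 := 536870912) (P2 := 0) (W2 := 536870912) (P3 := 536870912) (W3 := 50465866) (N0 := 3) (En := eng) (mo := mog) (C1 := cd1q0) (C2 := cd4q0) (C3 := pd1)
    rfl k0_mm_001

noncomputable def f_mm_011 : ℕ → ℕ → ℕ → ℕ → Bool := onCell 0 536870912 536870912 536870912 536870912 50465866
    (rowB 3 eng mog cd1q0 cd4q1 pd1 0 true false false .pnn 0 1 1 (qsf 0 536870912 536870912 536870912 1) ndB1q0 ndB4q1 pcB1 Cut.none Ext.none)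

def k0_mm_011 : ∃ t, chk3 f_mm_011 t 1 1 1 = true :=
  ⟨(l 4), by decide +kernel⟩

theorem c_mm_011 : CertB 0 536870912 536870912 536870912 536870912 50465866 3 eng mog cd1q0 cd4q1 pd1 true false false .pnn 0 1 1
    ndB1q0 ndB4q1 pcB1 Cut.none Ext.none :=
  certB0 (fam := true) (s1 := false) (s2 := false) (a := 0) (b := 1) (c := 1) (cn := .pnn) (n1 := ndB1q0) (n2 := ndB4q1) (pc := pcB1) (cut := Cut.none) (xt := Ext.none) (P1 := 0) (W1 := 536870912) (P2 := 536870912) (W2 := 536870912) (P3 := 536870912) (W3 := 50465866) (N0 := 3) (En := eng) (mo := mog) (C1 := cd1q0) (C2 := cd4q1) (C3 := pd1)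
    rfl k0_mm_011

noncomputable def f_mm_012 : ℕ → ℕ → ℕ → ℕ → Bool := onCell 0 536870912 536870912 536870912 536870912 50465866
    (rowB 3 eng mog cd1q0 cd4q1 pd2 0 true false false .pnp 0 1 2 (qsf 0 536870912 536870912 536870912 2) ndB1q0 ndB4q1 pcB2 Cut.none Ext.none)

def k0_mm_012 : ∃ t, chk3 f_mm_012 t 1 1 1 = true :=
  ⟨(l 4), by decide +kernel⟩

theorem c_mm_012 : CertB 0 536870912 536870912 536870912 536870912 50465866 3 eng mog cd1q0 cd4q1 pd2 true false false .pnp 0 1 2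
    ndB1q0 ndB4q1 pcB2 Cut.none Ext.none :=
  certB0 (fam := true) (s1 := false) (s2 := false) (a := 0) (b := 1) (c := 2) (cn := .pnp) (n1 := ndB1q0) (n2 := ndB4q1) (pc := pcB2) (cut := Cut.none) (xt := Ext.none) (P1 := 0) (W1 := 536870912) (P2 := 536870912) (W2 := 536870912) (P3 := 536870912) (W3 := 50465866) (N0 := 3) (En := eng) (mo := mog) (C1 := cd1q0) (C2 := cd4q1) (C3 := pd2)
    rfl k0_mm_012

noncomputable def f_mm_022 : ℕ → ℕ → ℕ → ℕ → Bool := onCell 0 536870912 1073741824 536870912 536870912 50465866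
    (rowB 3 eng mog cd1q0 cd4q2 pd2 0 true false false .pp 0 2 2 (qsf 0 536870912 1073741824 536870912 2) ndB1q0 ndB4q2 pcB2 Cut.none Ext.none)

def k0_mm_022 : ∃ t, chk3 f_mm_022 t 1 1 1 = true :=
  ⟨(l 4), by decide +kernel⟩

theorem c_mm_022 : CertB 0 536870912 1073741824 536870912 536870912 50465866 3 eng mog cd1q0 cd4q2 pd2 true false false .pp 0 2 2
    ndB1q0 ndB4q2 pcB2 Cut.none Ext.none :=
  certB0 (fam := true) (s1 := false) (s2 := false) (a := 0) (b := 2) (c := 2) (cn := .pp) (n1 := ndB1q0) (n2 := ndB4q2) (pc := pcB2) (cut := Cut.none) (xt := Ext.none) (P1 := 0) (W1 := 536870912) (P2 := 1073741824) (W2 := 536870912) (P3 := 536870912) (W3 := 50465866) (N0 := 3) (En := eng) (mo := mog) (C1 := cd1q0) (C2 := cd4q2) (C3 := pd2)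
    rfl k0_mm_022

noncomputable def f_mm_023 : ℕ → ℕ → ℕ → ℕ → Bool := onCell 0 536870912 1073741824 536870912 536870912 50465866
    (rowB 3 eng mog cd1q0 cd4q2 pd3 0 true false false .up 0 2 3 (qsf 0 536870912 1073741824 536870912 3) ndB1q0 ndB4q2 pcB3 Cut.none Ext.none)

def k0_mm_023 : ∃ t, chk3 f_mm_023 t 1 1 1 = true :=
  ⟨(l 4), by decide +kernel⟩

theorem c_mm_023 : CertB 0 536870912 1073741824 536870912 536870912 50465866 3 eng mog cd1q0 cd4q2 pd3 true false false .up 0 2 3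
    ndB1q0 ndB4q2 pcB3 Cut.none Ext.none :=
  certB0 (fam := true) (s1 := false) (s2 := false) (a := 0) (b := 2) (c := 3) (cn := .up) (n1 := ndB1q0) (n2 := ndB4q2) (pc := pcB3) (cut := Cut.none) (xt := Ext.none) (P1 := 0) (W1 := 536870912) (P2 := 1073741824) (W2 := 536870912) (P3 := 536870912) (W3 := 50465866) (N0 := 3) (En := eng) (mo := mog) (C1 := cd1q0) (C2 := cd4q2) (C3 := pd3)
    rfl k0_mm_023

noncomputable def f_mm_033 : ℕ → ℕ → ℕ → ℕ → Bool := onCell 0 536870912 0 1230186008 536870912 50465866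
    (rowB 3 eng mog cd1q0 cd4q3 pd3 0 true false false .pnn 0 3 3 (qsf 0 536870912 0 1230186008 3) ndB1q0 ndB4q3 pcB3 Cut.none Ext.none)

def k0_mm_033 : ∃ t, chk3 f_mm_033 t 1 1 1 = true :=
  ⟨(l 5), by decide +kernel⟩

theorem c_mm_033 : CertB 0 536870912 0 1230186008 536870912 50465866 3 eng mog cd1q0 cd4q3 pd3 true false false .pnn 0 3 3
    ndB1q0 ndB4q3 pcB3 Cut.none Ext.none :=
  certB0 (fam := true) (s1 := false) (s2 := false) (a := 0) (b := 3) (c := 3) (cn := .pnn) (n1 := ndB1q0) (n2 := ndB4q3) (pc := pcB3) (cut := Cut.none) (xt := Ext.none) (P1 := 0) (W1 := 536870912) (P2 := 0) (W2 := 1230186008) (P3 := 536870912) (W3 := 50465866) (N0 := 3) (En := eng) (mo := mog) (C1 := cd1q0) (C2 := cd4q3) (C3 := pd3)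
    rfl k0_mm_033

noncomputable def f_mm_101 : ℕ → ℕ → ℕ → ℕ → Bool := onCell 536870912 536870912 0 536870912 536870912 50465866
    (rowB 3 eng mog cd1q1 cd4q0 pd1 0 true false false .npn 1 0 1 (qsf 536870912 536870912 0 536870912 1) ndB1q1 ndB4q0 pcB1 Cut.none Ext.none)

def k0_mm_101 : ∃ t, chk3 f_mm_101 t 1 1 1 = true :=
  ⟨(l 4), by decide +kernel⟩

theorem c_mm_101 : CertB 536870912 536870912 0 536870912 536870912 50465866 3 eng mog cd1q1 cd4q0 pd1 true false false .npn 1 0 1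
    ndB1q1 ndB4q0 pcB1 Cut.none Ext.none :=
  certB0 (fam := true) (s1 := false) (s2 := false) (a := 1) (b := 0) (c := 1) (cn := .npn) (n1 := ndB1q1) (n2 := ndB4q0) (pc := pcB1) (cut := Cut.none) (xt := Ext.none) (P1 := 536870912) (W1 := 536870912) (P2 := 0) (W2 := 536870912) (P3 := 536870912) (W3 := 50465866) (N0 := 3) (En := eng) (mo := mog) (C1 := cd1q1) (C2 := cd4q0) (C3 := pd1)
    rfl k0_mm_101

noncomputable def f_mm_102 : ℕ → ℕ → ℕ → ℕ → Bool := onCell 536870912 536870912 0 536870912 536870912 50465866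
    (rowB 3 eng mog cd1q1 cd4q0 pd2 0 true false false .npp 1 0 2 (qsf 536870912 536870912 0 536870912 2) ndB1q1 ndB4q0 pcB2 Cut.none Ext.none)

def k0_mm_102 : ∃ t, chk3 f_mm_102 t 1 1 1 = true :=
  ⟨(l 4), by decide +kernel⟩

theorem c_mm_102 : CertB 536870912 536870912 0 536870912 536870912 50465866 3 eng mog cd1q1 cd4q0 pd2 true false false .npp 1 0 2
    ndB1q1 ndB4q0 pcB2 Cut.none Ext.none :=
  certB0 (fam := true) (s1 := false) (s2 := false) (a := 1) (b := 0) (c := 2) (cn := .npp) (n1 := ndB1q1) (n2 := ndB4q0) (pc := pcB2) (cut := Cut.none) (xt := Ext.none) (P1 := 536870912) (W1 := 536870912) (P2 := 0) (W2 := 536870912) (P3 := 536870912) (W3 := 50465866) (N0 := 3) (En := eng) (mo := mog) (C1 := cd1q1) (C2 := cd4q0) (C3 := pd2)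
    rfl k0_mm_102

noncomputable def f_mm_112 : ℕ → ℕ → ℕ → ℕ → Bool := onCell 536870912 536870912 536870912 536870912 536870912 50465866
    (rowB 3 eng mog cd1q1 cd4q1 pd2 0 true false false .dn 1 1 2 (qsf 536870912 536870912 536870912 536870912 2) ndB1q1 ndB4q1 pcB2 Cut.none Ext.none)

def k0_mm_112 : ∃ t, chk3 f_mm_112 t 1 1 1 = true :=
  ⟨(l 4), by decide +kernel⟩

theorem c_mm_112 : CertB 536870912 536870912 536870912 536870912 536870912 50465866 3 eng mog cd1q1 cd4q1 pd2 true false false .dn 1 1 2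
    ndB1q1 ndB4q1 pcB2 Cut.none Ext.none :=
  certB0 (fam := true) (s1 := false) (s2 := false) (a := 1) (b := 1) (c := 2) (cn := .dn) (n1 := ndB1q1) (n2 := ndB4q1) (pc := pcB2) (cut := Cut.none) (xt := Ext.none) (P1 := 536870912) (W1 := 536870912) (P2 := 536870912) (W2 := 536870912) (P3 := 536870912) (W3 := 50465866) (N0 := 3) (En := eng) (mo := mog) (C1 := cd1q1) (C2 := cd4q1) (C3 := pd2)
    rfl k0_mm_112

noncomputable def f_mm_113 : ℕ → ℕ → ℕ → ℕ → Bool := onCell 536870912 536870912 536870912 536870912 536870912 50465866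
    (rowB 3 eng mog cd1q1 cd4q1 pd3 0 true false false .nn 1 1 3 (qsf 536870912 536870912 536870912 536870912 3) ndB1q1 ndB4q1 pcB3 Cut.none Ext.none)

def k0_mm_113 : ∃ t, chk3 f_mm_113 t 1 1 1 = true :=
  ⟨(l 4), by decide +kernel⟩

theorem c_mm_113 : CertB 536870912 536870912 536870912 536870912 536870912 50465866 3 eng mog cd1q1 cd4q1 pd3 true false false .nn 1 1 3
    ndB1q1 ndB4q1 pcB3 Cut.none Ext.none :=
  certB0 (fam := true) (s1 := false) (s2 := false) (a := 1) (b := 1) (c := 3) (cn := .nn) (n1 := ndB1q1) (n2 := ndB4q1) (pc := pcB3) (cut := Cut.none) (xt := Ext.none) (P1 := 536870912) (W1 := 536870912) (P2 := 536870912) (W2 := 536870912) (P3 := 536870912) (W3 := 50465866) (N0 := 3) (En := eng) (mo := mog) (C1 := cd1q1) (C2 := cd4q1) (C3 := pd3)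
    rfl k0_mm_113

noncomputable def f_mm_123 : ℕ → ℕ → ℕ → ℕ → Bool := onCell 536870912 536870912 1073741824 536870912 536870912 50465866
    (rowB 3 eng mog cd1q1 cd4q2 pd3 0 true false false .npn 1 2 3 (qsf 536870912 536870912 1073741824 536870912 3) ndB1q1 ndB4q2 pcB3 Cut.none Ext.none)

def k0_mm_123 : ∃ t, chk3 f_mm_123 t 1 1 1 = true :=
  ⟨(l 4), by decide +kernel⟩

theorem c_mm_123 : CertB 536870912 536870912 1073741824 536870912 536870912 50465866 3 eng mog cd1q1 cd4q2 pd3 true false false .npn 1 2 3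
    ndB1q1 ndB4q2 pcB3 Cut.none Ext.none :=
  certB0 (fam := true) (s1 := false) (s2 := false) (a := 1) (b := 2) (c := 3) (cn := .npn) (n1 := ndB1q1) (n2 := ndB4q2) (pc := pcB3) (cut := Cut.none) (xt := Ext.none) (P1 := 536870912) (W1 := 536870912) (P2 := 1073741824) (W2 := 536870912) (P3 := 536870912) (W3 := 50465866) (N0 := 3) (En := eng) (mo := mog) (C1 := cd1q1) (C2 := cd4q2) (C3 := pd3)
    rfl k0_mm_123

noncomputable def f_mm_133 : ℕ → ℕ → ℕ → ℕ → Bool := onCell 536870912 536870912 0 1230186008 536870912 50465866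
    (rowB 3 eng mog cd1q1 cd4q3 pd3 0 true false false .dn 1 3 3 (qsf 536870912 536870912 0 1230186008 3) ndB1q1 ndB4q3 pcB3 Cut.none Ext.none)

def k0_mm_133 : ∃ t, chk3 f_mm_133 t 1 1 1 = true :=
  ⟨(l 4), by decide +kernel⟩

theorem c_mm_133 : CertB 536870912 536870912 0 1230186008 536870912 50465866 3 eng mog cd1q1 cd4q3 pd3 true false false .dn 1 3 3
    ndB1q1 ndB4q3 pcB3 Cut.none Ext.none :=
  certB0 (fam := true) (s1 := false) (s2 := false) (a := 1) (b := 3) (c := 3) (cn := .dn) (n1 := ndB1q1) (n2 := ndB4q3) (pc := pcB3) (cut := Cut.none) (xt := Ext.none) (P1 := 536870912) (W1 := 536870912) (P2 := 0) (W2 := 1230186008) (P3 := 536870912) (W3 := 50465866) (N0 := 3) (En := eng) (mo := mog) (C1 := cd1q1) (C2 := cd4q3) (C3 := pd3)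
    rfl k0_mm_133

noncomputable def f_mm_202_a : ℕ → ℕ → ℕ → ℕ → Bool := onCell 0 536870912 0 536870912 536870912 50465866
    (rowB 3 eng mog cd1q2a cd4q0 pd2 0 true false false .pp 2 0 2 (qsf 0 536870912 0 536870912 2) ndB1q2a ndB4q0 pcB2 Cut.none Ext.none)

def k0_mm_202_a : ∃ t, chk3 f_mm_202_a t 1 1 1 = true :=
  ⟨(a (b (b (b (a (b (a (l 16599440) (l 16604824)) (l 16639312)) (b (a (l 16614256) (l 4)) (l 4))) (a (b (l 16674984) (l 4)) (l 4))) (l 4)) (l 4)) (l 4)), by decide +kernel⟩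

theorem c_mm_202_a : CertB 0 536870912 0 536870912 536870912 50465866 3 eng mog cd1q2a cd4q0 pd2 true false false .pp 2 0 2
    ndB1q2a ndB4q0 pcB2 Cut.none Ext.none :=
  certB0 (fam := true) (s1 := false) (s2 := false) (a := 2) (b := 0) (c := 2) (cn := .pp) (n1 := ndB1q2a) (n2 := ndB4q0) (pc := pcB2) (cut := Cut.none) (xt := Ext.none) (P1 := 0) (W1 := 536870912) (P2 := 0) (W2 := 536870912) (P3 := 536870912) (W3 := 50465866) (N0 := 3) (En := eng) (mo := mog) (C1 := cd1q2a) (C2 := cd4q0) (C3 := pd2)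
    rfl k0_mm_202_a

noncomputable def f_mm_202_b : ℕ → ℕ → ℕ → ℕ → Bool := onCell 1073741824 536870912 0 536870912 536870912 50465866
    (rowB 3 eng mog cd1q2b cd4q0 pd2 2 true false false .pp 2 0 2 (qsf 1239849684 370763052 0 536870912 2) ndB1q2b ndB4q0 pcB2 Cut.none Ext.none)

def k0_mm_202_b : ∃ t, chk3 f_mm_202_b t 1 1 1 = true :=
  ⟨(a (b (a (l 1) (b (a (b (a (l 264174084295) (l 16649656)) (l 1)) (b (a (l 16599056) (l 16567224)) (a (l 16717544) (l 16696080)))) (l 1))) (l 1)) (b (a (b (a (b (l 16513504) (l 16657184)) (b (l 16423624) (l 4))) (l 4)) (l 4)) (l 4))), by decide +kernel⟩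

theorem c_mm_202_b : CertB 1239849684 370763052 0 536870912 536870912 50465866 3 eng mog cd1q2b cd4q0 pd2 true false false .pp 2 0 2
    ndB1q2b ndB4q0 pcB2 Cut.none Ext.none :=
  certB2 (fam := true) (s1 := false) (s2 := false) (a := 2) (b := 0) (c := 2) (cn := .pp) (n1 := ndB1q2b) (n2 := ndB4q0) (pc := pcB2) (cut := Cut.none) (xt := Ext.none) (P1 := 1239849684) (W1 := 370763052) (P2 := 0) (W2 := 536870912) (P3 := 536870912) (W3 := 50465866) (N0 := 3) (En := eng) (mo := mog) (C1 := cd1q2b) (C2 := cd4q0) (C3 := pd2)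
    rfl (fun _ => rfl) k0_mm_202_b

noncomputable def f_mm_203_a : ℕ → ℕ → ℕ → ℕ → Bool := onCell 0 536870912 1610612736 536870912 536870912 50465866
    (rowB 3 eng mog cd1q2a cd4q0 pd3 1 true false false .up 2 0 3 (qsf 0 536870912 0 536870912 3) ndB1q2a ndB4q0 pcB3 Cut.none Ext.none)

def k0_mm_203_a : ∃ t, chk3 f_mm_203_a t 1 1 1 = true :=
  ⟨(l 4), by decide +kernel⟩

theorem c_mm_203_a : CertB 0 536870912 0 536870912 536870912 50465866 3 eng mog cd1q2a cd4q0 pd3 true false false .up 2 0 3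
    ndB1q2a ndB4q0 pcB3 Cut.none Ext.none :=
  certB1 (fam := true) (s1 := false) (s2 := false) (a := 2) (b := 0) (c := 3) (cn := .up) (n1 := ndB1q2a) (n2 := ndB4q0) (pc := pcB3) (cut := Cut.none) (xt := Ext.none) (P1 := 0) (W1 := 536870912) (P2 := 0) (W2 := 536870912) (P3 := 536870912) (W3 := 50465866) (N0 := 3) (En := eng) (mo := mog) (C1 := cd1q2a) (C2 := cd4q0) (C3 := pd3)
    rfl (fun _ => rfl) k0_mm_203_a

noncomputable def f_mm_203_b : ℕ → ℕ → ℕ → ℕ → Bool := onCell 1239849684 370763052 1610612736 536870912 536870912 50465866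
    (rowB 3 eng mog cd1q2b cd4q0 pd3 1 true false false .up 2 0 3 (qsf 1239849684 370763052 0 536870912 3) ndB1q2b ndB4q0 pcB3 Cut.none Ext.none)

def k0_mm_203_b : ∃ t, chk3 f_mm_203_b t 1 1 1 = true :=
  ⟨(l 4), by decide +kernel⟩

theorem c_mm_203_b : CertB 1239849684 370763052 0 536870912 536870912 50465866 3 eng mog cd1q2b cd4q0 pd3 true false false .up 2 0 3
    ndB1q2b ndB4q0 pcB3 Cut.none Ext.none :=
  certB1 (fam := true) (s1 := false) (s2 := false) (a := 2) (b := 0) (c := 3) (cn := .up) (n1 := ndB1q2b) (n2 := ndB4q0) (pc := pcB3) (cut := Cut.none) (xt := Ext.none) (P1 := 1239849684) (W1 := 370763052) (P2 := 0) (W2 := 536870912) (P3 := 536870912) (W3 := 50465866) (N0 := 3) (En := eng) (mo := mog) (C1 := cd1q2b) (C2 := cd4q0) (C3 := pd3)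
    rfl (fun _ => rfl) k0_mm_203_b

noncomputable def f_mm_213_a : ℕ → ℕ → ℕ → ℕ → Bool := onCell 0 536870912 536870912 536870912 536870912 50465866
    (rowB 3 eng mog cd1q2a cd4q1 pd3 0 true false false .pnn 2 1 3 (qsf 0 536870912 536870912 536870912 3) ndB1q2a ndB4q1 pcB3 Cut.none Ext.none)

def k0_mm_213_a : ∃ t, chk3 f_mm_213_a t 1 1 1 = true :=
  ⟨(l 4), by decide +kernel⟩

theorem c_mm_213_a : CertB 0 536870912 536870912 536870912 536870912 50465866 3 eng mog cd1q2a cd4q1 pd3 true false false .pnn 2 1 3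
    ndB1q2a ndB4q1 pcB3 Cut.none Ext.none :=
  certB0 (fam := true) (s1 := false) (s2 := false) (a := 2) (b := 1) (c := 3) (cn := .pnn) (n1 := ndB1q2a) (n2 := ndB4q1) (pc := pcB3) (cut := Cut.none) (xt := Ext.none) (P1 := 0) (W1 := 536870912) (P2 := 536870912) (W2 := 536870912) (P3 := 536870912) (W3 := 50465866) (N0 := 3) (En := eng) (mo := mog) (C1 := cd1q2a) (C2 := cd4q1) (C3 := pd3)
    rfl k0_mm_213_a

noncomputable def f_mm_213_b : ℕ → ℕ → ℕ → ℕ → Bool := onCell 1239849684 370763052 536870912 536870912 536870912 50465866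
    (rowB 3 eng mog cd1q2b cd4q1 pd3 0 true false false .pnn 2 1 3 (qsf 1239849684 370763052 536870912 536870912 3) ndB1q2b ndB4q1 pcB3 Cut.none Ext.none)

def k0_mm_213_b : ∃ t, chk3 f_mm_213_b t 1 1 1 = true :=
  ⟨(l 4), by decide +kernel⟩

theorem c_mm_213_b : CertB 1239849684 370763052 536870912 536870912 536870912 50465866 3 eng mog cd1q2b cd4q1 pd3 true false false .pnn 2 1 3
    ndB1q2b ndB4q1 pcB3 Cut.none Ext.none :=
  certB0 (fam := true) (s1 := false) (s2 := false) (a := 2) (b := 1) (c := 3) (cn := .pnn) (n1 := ndB1q2b) (n2 := ndB4q1) (pc := pcB3) (cut := Cut.none) (xt := Ext.none) (P1 := 1239849684) (W1 := 370763052) (P2 := 536870912) (W2 := 536870912) (P3 := 536870912) (W3 := 50465866) (N0 := 3) (En := eng) (mo := mog) (C1 := cd1q2b) (C2 := cd4q1) (C3 := pd3)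
    rfl k0_mm_213_b

noncomputable def f_mm_303 : ℕ → ℕ → ℕ → ℕ → Bool := onCell 1610612736 536870912 0 536870912 536870912 50465866
    (rowB 3 eng mog cd1q3 cd4q0 pd3 2 true false false .npn 3 0 3 (qsf 1610612736 536870912 0 536870912 3) ndB1q3 ndB4q0 pcB3 Cut.none Ext.none)

def k0_mm_303 : ∃ t, chk3 f_mm_303 t 1 1 1 = true :=
  ⟨(l 4), by decide +kernel⟩

theorem c_mm_303 : CertB 1610612736 536870912 0 536870912 536870912 50465866 3 eng mog cd1q3 cd4q0 pd3 true false false .npn 3 0 3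
    ndB1q3 ndB4q0 pcB3 Cut.none Ext.none :=
  certB2 (fam := true) (s1 := false) (s2 := false) (a := 3) (b := 0) (c := 3) (cn := .npn) (n1 := ndB1q3) (n2 := ndB4q0) (pc := pcB3) (cut := Cut.none) (xt := Ext.none) (P1 := 1610612736) (W1 := 536870912) (P2 := 0) (W2 := 536870912) (P3 := 536870912) (W3 := 50465866) (N0 := 3) (En := eng) (mo := mog) (C1 := cd1q3) (C2 := cd4q0) (C3 := pd3)
    rfl (fun _ => rfl) k0_mm_303

noncomputable def f_mm_313 : ℕ → ℕ → ℕ → ℕ → Bool := onCell 1610612736 536870912 536870912 536870912 536870912 50465866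
    (rowB 3 eng mog cd1q3 cd4q1 pd3 0 true false false .dn 3 1 3 (qsf 1610612736 536870912 536870912 536870912 3) ndB1q3 ndB4q1 pcB3 Cut.none Ext.none)

def k0_mm_313 : ∃ t, chk3 f_mm_313 t 1 1 1 = true :=
  ⟨(l 4), by decide +kernel⟩

theorem c_mm_313 : CertB 1610612736 536870912 536870912 536870912 536870912 50465866 3 eng mog cd1q3 cd4q1 pd3 true false false .dn 3 1 3
    ndB1q3 ndB4q1 pcB3 Cut.none Ext.none :=
  certB0 (fam := true) (s1 := false) (s2 := false) (a := 3) (b := 1) (c := 3) (cn := .dn) (n1 := ndB1q3) (n2 := ndB4q1) (pc := pcB3) (cut := Cut.none) (xt := Ext.none) (P1 := 1610612736) (W1 := 536870912) (P2 := 536870912) (W2 := 536870912) (P3 := 536870912) (W3 := 50465866) (N0 := 3) (En := eng) (mo := mog) (C1 := cd1q3) (C2 := cd4q1) (C3 := pd3)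
    rfl k0_mm_313

end Pool.Agent.Strip051.G.I5000_5470.Tab.C.BA14

namespace Pool.Agent.Strip051.G.I5000_5470.Tab.C.BA15

open Pool.Agent.Strip051.PB Pool.Agent.Strip051.PB.T
open Pool.Agent.Strip051.G.I5000_5470.Tab

noncomputable def f_pp_001 : ℕ → ℕ → ℕ → ℕ → Bool := onCell 0 536870912 0 536870912 536870912 50465866
    (rowB 3 eng mog cd1q0 cd5q0 pd1 0 true true true .up 0 0 1 (qsf 0 536870912 0 536870912 1) ndB1q0 ndB5q0 pcB1 Cut.none Ext.none)

def k0_pp_001 : ∃ t, chk3 f_pp_001 t 1 1 1 = true :=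
  ⟨(l 4), by decide +kernel⟩

theorem c_pp_001 : CertB 0 536870912 0 536870912 536870912 50465866 3 eng mog cd1q0 cd5q0 pd1 true true true .up 0 0 1
    ndB1q0 ndB5q0 pcB1 Cut.none Ext.none :=
  certB0 (fam := true) (s1 := true) (s2 := true) (a := 0) (b := 0) (c := 1) (cn := .up) (n1 := ndB1q0) (n2 := ndB5q0) (pc := pcB1) (cut := Cut.none) (xt := Ext.none) (P1 := 0) (W1 := 536870912) (P2 := 0) (W2 := 536870912) (P3 := 536870912) (W3 := 50465866) (N0 := 3) (En := eng) (mo := mog) (C1 := cd1q0) (C2 := cd5q0) (C3 := pd1)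
    rfl k0_pp_001

noncomputable def f_pp_011 : ℕ → ℕ → ℕ → ℕ → Bool := onCell 0 536870912 536870912 536870912 536870912 50465866
    (rowB 3 eng mog cd1q0 cd5q1 pd1 0 true true true .pnn 0 1 1 (qsf 0 536870912 536870912 536870912 1) ndB1q0 ndB5q1 pcB1 Cut.none Ext.none)

def k0_pp_011 : ∃ t, chk3 f_pp_011 t 1 1 1 = true :=
  ⟨(l 4), by decide +kernel⟩

theorem c_pp_011 : CertB 0 536870912 536870912 536870912 536870912 50465866 3 eng mog cd1q0 cd5q1 pd1 true true true .pnn 0 1 1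
    ndB1q0 ndB5q1 pcB1 Cut.none Ext.none :=
  certB0 (fam := true) (s1 := true) (s2 := true) (a := 0) (b := 1) (c := 1) (cn := .pnn) (n1 := ndB1q0) (n2 := ndB5q1) (pc := pcB1) (cut := Cut.none) (xt := Ext.none) (P1 := 0) (W1 := 536870912) (P2 := 536870912) (W2 := 536870912) (P3 := 536870912) (W3 := 50465866) (N0 := 3) (En := eng) (mo := mog) (C1 := cd1q0) (C2 := cd5q1) (C3 := pd1)
    rfl k0_pp_011

noncomputable def f_pp_012 : ℕ → ℕ → ℕ → ℕ → Bool := onCell 0 536870912 536870912 536870912 536870912 50465866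
    (rowB 3 eng mog cd1q0 cd5q1 pd2 0 true true true .pnp 0 1 2 (qsf 0 536870912 536870912 536870912 2) ndB1q0 ndB5q1 pcB2 Cut.none Ext.none)

def k0_pp_012 : ∃ t, chk3 f_pp_012 t 1 1 1 = true :=
  ⟨(l 4), by decide +kernel⟩

theorem c_pp_012 : CertB 0 536870912 536870912 536870912 536870912 50465866 3 eng mog cd1q0 cd5q1 pd2 true true true .pnp 0 1 2
    ndB1q0 ndB5q1 pcB2 Cut.none Ext.none :=
  certB0 (fam := true) (s1 := true) (s2 := true) (a := 0) (b := 1) (c := 2) (cn := .pnp) (n1 := ndB1q0) (n2 := ndB5q1) (pc := pcB2) (cut := Cut.none) (xt := Ext.none) (P1 := 0) (W1 := 536870912) (P2 := 536870912) (W2 := 536870912) (P3 := 536870912) (W3 := 50465866) (N0 := 3) (En := eng) (mo := mog) (C1 := cd1q0) (C2 := cd5q1) (C3 := pd2)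
    rfl k0_pp_012

noncomputable def f_pp_022 : ℕ → ℕ → ℕ → ℕ → Bool := onCell 0 536870912 1073741824 536870912 536870912 50465866
    (rowB 3 eng mog cd1q0 cd5q2 pd2 0 true true true .pp 0 2 2 (qsf 0 536870912 1073741824 536870912 2) ndB1q0 ndB5q2 pcB2 Cut.none Ext.none)

def k0_pp_022 : ∃ t, chk3 f_pp_022 t 1 1 1 = true :=
  ⟨(l 4), by decide +kernel⟩

theorem c_pp_022 : CertB 0 536870912 1073741824 536870912 536870912 50465866 3 eng mog cd1q0 cd5q2 pd2 true true true .pp 0 2 2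
    ndB1q0 ndB5q2 pcB2 Cut.none Ext.none :=
  certB0 (fam := true) (s1 := true) (s2 := true) (a := 0) (b := 2) (c := 2) (cn := .pp) (n1 := ndB1q0) (n2 := ndB5q2) (pc := pcB2) (cut := Cut.none) (xt := Ext.none) (P1 := 0) (W1 := 536870912) (P2 := 1073741824) (W2 := 536870912) (P3 := 536870912) (W3 := 50465866) (N0 := 3) (En := eng) (mo := mog) (C1 := cd1q0) (C2 := cd5q2) (C3 := pd2)
    rfl k0_pp_022

noncomputable def f_pp_023 : ℕ → ℕ → ℕ → ℕ → Bool := onCell 0 536870912 1073741824 536870912 536870912 50465866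
    (rowB 3 eng mog cd1q0 cd5q2 pd3 0 true true true .up 0 2 3 (qsf 0 536870912 1073741824 536870912 3) ndB1q0 ndB5q2 pcB3 Cut.none Ext.none)

def k0_pp_023 : ∃ t, chk3 f_pp_023 t 1 1 1 = true :=
  ⟨(l 4), by decide +kernel⟩

theorem c_pp_023 : CertB 0 536870912 1073741824 536870912 536870912 50465866 3 eng mog cd1q0 cd5q2 pd3 true true true .up 0 2 3
    ndB1q0 ndB5q2 pcB3 Cut.none Ext.none :=
  certB0 (fam := true) (s1 := true) (s2 := true) (a := 0) (b := 2) (c := 3) (cn := .up) (n1 := ndB1q0) (n2 := ndB5q2) (pc := pcB3) (cut := Cut.none) (xt := Ext.none) (P1 := 0) (W1 := 536870912) (P2 := 1073741824) (W2 := 536870912) (P3 := 536870912) (W3 := 50465866) (N0 := 3) (En := eng) (mo := mog) (C1 := cd1q0) (C2 := cd5q2) (C3 := pd3)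
    rfl k0_pp_023

noncomputable def f_pp_033 : ℕ → ℕ → ℕ → ℕ → Bool := onCell 0 536870912 0 1230186008 536870912 50465866
    (rowB 3 eng mog cd1q0 cd5q3 pd3 0 true true true .pnn 0 3 3 (qsf 0 536870912 0 1230186008 3) ndB1q0 ndB5q3 pcB3 Cut.none Ext.none)

def k0_pp_033 : ∃ t, chk3 f_pp_033 t 1 1 1 = true :=
  ⟨(b (l 4) (l 4)), by decide +kernel⟩

theorem c_pp_033 : CertB 0 536870912 0 1230186008 536870912 50465866 3 eng mog cd1q0 cd5q3 pd3 true true true .pnn 0 3 3
    ndB1q0 ndB5q3 pcB3 Cut.none Ext.none :=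
  certB0 (fam := true) (s1 := true) (s2 := true) (a := 0) (b := 3) (c := 3) (cn := .pnn) (n1 := ndB1q0) (n2 := ndB5q3) (pc := pcB3) (cut := Cut.none) (xt := Ext.none) (P1 := 0) (W1 := 536870912) (P2 := 0) (W2 := 1230186008) (P3 := 536870912) (W3 := 50465866) (N0 := 3) (En := eng) (mo := mog) (C1 := cd1q0) (C2 := cd5q3) (C3 := pd3)
    rfl k0_pp_033

noncomputable def f_pp_101 : ℕ → ℕ → ℕ → ℕ → Bool := onCell 536870912 536870912 0 536870912 536870912 50465866
    (rowB 3 eng mog cd1q1 cd5q0 pd1 0 true true true .npn 1 0 1 (qsf 536870912 536870912 0 536870912 1) ndB1q1 ndB5q0 pcB1 Cut.none Ext.none)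

def k0_pp_101 : ∃ t, chk3 f_pp_101 t 1 1 1 = true :=
  ⟨(l 4), by decide +kernel⟩

theorem c_pp_101 : CertB 536870912 536870912 0 536870912 536870912 50465866 3 eng mog cd1q1 cd5q0 pd1 true true true .npn 1 0 1
    ndB1q1 ndB5q0 pcB1 Cut.none Ext.none :=
  certB0 (fam := true) (s1 := true) (s2 := true) (a := 1) (b := 0) (c := 1) (cn := .npn) (n1 := ndB1q1) (n2 := ndB5q0) (pc := pcB1) (cut := Cut.none) (xt := Ext.none) (P1 := 536870912) (W1 := 536870912) (P2 := 0) (W2 := 536870912) (P3 := 536870912) (W3 := 50465866) (N0 := 3) (En := eng) (mo := mog) (C1 := cd1q1) (C2 := cd5q0) (C3 := pd1)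
    rfl k0_pp_101

noncomputable def f_pp_102 : ℕ → ℕ → ℕ → ℕ → Bool := onCell 536870912 536870912 0 536870912 536870912 50465866
    (rowB 3 eng mog cd1q1 cd5q0 pd2 0 true true true .npp 1 0 2 (qsf 536870912 536870912 0 536870912 2) ndB1q1 ndB5q0 pcB2 Cut.none Ext.none)

def k0_pp_102 : ∃ t, chk3 f_pp_102 t 1 1 1 = true :=
  ⟨(l 4), by decide +kernel⟩

theorem c_pp_102 : CertB 536870912 536870912 0 536870912 536870912 50465866 3 eng mog cd1q1 cd5q0 pd2 true true true .npp 1 0 2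
    ndB1q1 ndB5q0 pcB2 Cut.none Ext.none :=
  certB0 (fam := true) (s1 := true) (s2 := true) (a := 1) (b := 0) (c := 2) (cn := .npp) (n1 := ndB1q1) (n2 := ndB5q0) (pc := pcB2) (cut := Cut.none) (xt := Ext.none) (P1 := 536870912) (W1 := 536870912) (P2 := 0) (W2 := 536870912) (P3 := 536870912) (W3 := 50465866) (N0 := 3) (En := eng) (mo := mog) (C1 := cd1q1) (C2 := cd5q0) (C3 := pd2)
    rfl k0_pp_102

noncomputable def f_pp_112 : ℕ → ℕ → ℕ → ℕ → Bool := onCell 536870912 536870912 536870912 536870912 536870912 50465866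
    (rowB 3 eng mog cd1q1 cd5q1 pd2 0 true true true .dn 1 1 2 (qsf 536870912 536870912 536870912 536870912 2) ndB1q1 ndB5q1 pcB2 Cut.none Ext.none)

def k0_pp_112 : ∃ t, chk3 f_pp_112 t 1 1 1 = true :=
  ⟨(l 4), by decide +kernel⟩

theorem c_pp_112 : CertB 536870912 536870912 536870912 536870912 536870912 50465866 3 eng mog cd1q1 cd5q1 pd2 true true true .dn 1 1 2
    ndB1q1 ndB5q1 pcB2 Cut.none Ext.none :=
  certB0 (fam := true) (s1 := true) (s2 := true) (a := 1) (b := 1) (c := 2) (cn := .dn) (n1 := ndB1q1) (n2 := ndB5q1) (pc := pcB2) (cut := Cut.none) (xt := Ext.none) (P1 := 536870912) (W1 := 536870912) (P2 := 536870912) (W2 := 536870912) (P3 := 536870912) (W3 := 50465866) (N0 := 3) (En := eng) (mo := mog) (C1 := cd1q1) (C2 := cd5q1) (C3 := pd2)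
    rfl k0_pp_112

noncomputable def f_pp_113 : ℕ → ℕ → ℕ → ℕ → Bool := onCell 536870912 536870912 536870912 536870912 536870912 50465866
    (rowB 3 eng mog cd1q1 cd5q1 pd3 0 true true true .nn 1 1 3 (qsf 536870912 536870912 536870912 536870912 3) ndB1q1 ndB5q1 pcB3 Cut.none Ext.none)

def k0_pp_113 : ∃ t, chk3 f_pp_113 t 1 1 1 = true :=
  ⟨(l 4), by decide +kernel⟩

theorem c_pp_113 : CertB 536870912 536870912 536870912 536870912 536870912 50465866 3 eng mog cd1q1 cd5q1 pd3 true true true .nn 1 1 3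
    ndB1q1 ndB5q1 pcB3 Cut.none Ext.none :=
  certB0 (fam := true) (s1 := true) (s2 := true) (a := 1) (b := 1) (c := 3) (cn := .nn) (n1 := ndB1q1) (n2 := ndB5q1) (pc := pcB3) (cut := Cut.none) (xt := Ext.none) (P1 := 536870912) (W1 := 536870912) (P2 := 536870912) (W2 := 536870912) (P3 := 536870912) (W3 := 50465866) (N0 := 3) (En := eng) (mo := mog) (C1 := cd1q1) (C2 := cd5q1) (C3 := pd3)
    rfl k0_pp_113

noncomputable def f_pp_123 : ℕ → ℕ → ℕ → ℕ → Bool := onCell 536870912 536870912 1073741824 536870912 536870912 50465866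
    (rowB 3 eng mog cd1q1 cd5q2 pd3 0 true true true .npn 1 2 3 (qsf 536870912 536870912 1073741824 536870912 3) ndB1q1 ndB5q2 pcB3 Cut.none Ext.none)

def k0_pp_123 : ∃ t, chk3 f_pp_123 t 1 1 1 = true :=
  ⟨(l 4), by decide +kernel⟩

theorem c_pp_123 : CertB 536870912 536870912 1073741824 536870912 536870912 50465866 3 eng mog cd1q1 cd5q2 pd3 true true true .npn 1 2 3
    ndB1q1 ndB5q2 pcB3 Cut.none Ext.none :=
  certB0 (fam := true) (s1 := true) (s2 := true) (a := 1) (b := 2) (c := 3) (cn := .npn) (n1 := ndB1q1) (n2 := ndB5q2) (pc := pcB3) (cut := Cut.none) (xt := Ext.none) (P1 := 536870912) (W1 := 536870912) (P2 := 1073741824) (W2 := 536870912) (P3 := 536870912) (W3 := 50465866) (N0 := 3) (En := eng) (mo := mog) (C1 := cd1q1) (C2 := cd5q2) (C3 := pd3)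
    rfl k0_pp_123

noncomputable def f_pp_133 : ℕ → ℕ → ℕ → ℕ → Bool := onCell 536870912 536870912 0 1230186008 536870912 50465866
    (rowB 3 eng mog cd1q1 cd5q3 pd3 0 true true true .dn 1 3 3 (qsf 536870912 536870912 0 1230186008 3) ndB1q1 ndB5q3 pcB3 Cut.none Ext.none)

def k0_pp_133 : ∃ t, chk3 f_pp_133 t 1 1 1 = true :=
  ⟨(l 4), by decide +kernel⟩

theorem c_pp_133 : CertB 536870912 536870912 0 1230186008 536870912 50465866 3 eng mog cd1q1 cd5q3 pd3 true true true .dn 1 3 3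
    ndB1q1 ndB5q3 pcB3 Cut.none Ext.none :=
  certB0 (fam := true) (s1 := true) (s2 := true) (a := 1) (b := 3) (c := 3) (cn := .dn) (n1 := ndB1q1) (n2 := ndB5q3) (pc := pcB3) (cut := Cut.none) (xt := Ext.none) (P1 := 536870912) (W1 := 536870912) (P2 := 0) (W2 := 1230186008) (P3 := 536870912) (W3 := 50465866) (N0 := 3) (En := eng) (mo := mog) (C1 := cd1q1) (C2 := cd5q3) (C3 := pd3)
    rfl k0_pp_133

noncomputable def f_pp_202_a : ℕ → ℕ → ℕ → ℕ → Bool := onCell 0 536870912 0 536870912 536870912 50465866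
    (rowB 3 eng mog cd1q2a cd5q0 pd2 0 true true true .pp 2 0 2 (qsf 0 536870912 0 536870912 2) ndB1q2a ndB5q0 pcB2 Cut.none Ext.none)

def k0_pp_202_a : ∃ t, chk3 f_pp_202_a t 1 1 1 = true :=
  ⟨(l 4), by decide +kernel⟩

theorem c_pp_202_a : CertB 0 536870912 0 536870912 536870912 50465866 3 eng mog cd1q2a cd5q0 pd2 true true true .pp 2 0 2
    ndB1q2a ndB5q0 pcB2 Cut.none Ext.none :=
  certB0 (fam := true) (s1 := true) (s2 := true) (a := 2) (b := 0) (c := 2) (cn := .pp) (n1 := ndB1q2a) (n2 := ndB5q0) (pc := pcB2) (cut := Cut.none) (xt := Ext.none) (P1 := 0) (W1 := 536870912) (P2 := 0) (W2 := 536870912) (P3 := 536870912) (W3 := 50465866) (N0 := 3) (En := eng) (mo := mog) (C1 := cd1q2a) (C2 := cd5q0) (C3 := pd2)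
    rfl k0_pp_202_a

noncomputable def f_pp_202_b : ℕ → ℕ → ℕ → ℕ → Bool := onCell 1239849684 370763052 0 536870912 536870912 50465866
    (rowB 3 eng mog cd1q2b cd5q0 pd2 0 true true true .pp 2 0 2 (qsf 1239849684 370763052 0 536870912 2) ndB1q2b ndB5q0 pcB2 Cut.none Ext.none)

def k0_pp_202_b : ∃ t, chk3 f_pp_202_b t 1 1 1 = true :=
  ⟨(l 4), by decide +kernel⟩

theorem c_pp_202_b : CertB 1239849684 370763052 0 536870912 536870912 50465866 3 eng mog cd1q2b cd5q0 pd2 true true true .pp 2 0 2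
    ndB1q2b ndB5q0 pcB2 Cut.none Ext.none :=
  certB0 (fam := true) (s1 := true) (s2 := true) (a := 2) (b := 0) (c := 2) (cn := .pp) (n1 := ndB1q2b) (n2 := ndB5q0) (pc := pcB2) (cut := Cut.none) (xt := Ext.none) (P1 := 1239849684) (W1 := 370763052) (P2 := 0) (W2 := 536870912) (P3 := 536870912) (W3 := 50465866) (N0 := 3) (En := eng) (mo := mog) (C1 := cd1q2b) (C2 := cd5q0) (C3 := pd2)
    rfl k0_pp_202_b

noncomputable def f_pp_203_a : ℕ → ℕ → ℕ → ℕ → Bool := onCell 0 536870912 0 536870912 536870912 50465866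
    (rowB 3 eng mog cd1q2a cd5q0 pd3 0 true true true .up 2 0 3 (qsf 0 536870912 0 536870912 3) ndB1q2a ndB5q0 pcB3 Cut.none Ext.none)

def k0_pp_203_a : ∃ t, chk3 f_pp_203_a t 1 1 1 = true :=
  ⟨(l 4), by decide +kernel⟩

theorem c_pp_203_a : CertB 0 536870912 0 536870912 536870912 50465866 3 eng mog cd1q2a cd5q0 pd3 true true true .up 2 0 3
    ndB1q2a ndB5q0 pcB3 Cut.none Ext.none :=
  certB0 (fam := true) (s1 := true) (s2 := true) (a := 2) (b := 0) (c := 3) (cn := .up) (n1 := ndB1q2a) (n2 := ndB5q0) (pc := pcB3) (cut := Cut.none) (xt := Ext.none) (P1 := 0) (W1 := 536870912) (P2 := 0) (W2 := 536870912) (P3 := 536870912) (W3 := 50465866) (N0 := 3) (En := eng) (mo := mog) (C1 := cd1q2a) (C2 := cd5q0) (C3 := pd3)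
    rfl k0_pp_203_a

noncomputable def f_pp_203_b : ℕ → ℕ → ℕ → ℕ → Bool := onCell 1239849684 370763052 0 536870912 536870912 50465866
    (rowB 3 eng mog cd1q2b cd5q0 pd3 0 true true true .up 2 0 3 (qsf 1239849684 370763052 0 536870912 3) ndB1q2b ndB5q0 pcB3 Cut.none Ext.none)

def k0_pp_203_b : ∃ t, chk3 f_pp_203_b t 1 1 1 = true :=
  ⟨(l 4), by decide +kernel⟩

theorem c_pp_203_b : CertB 1239849684 370763052 0 536870912 536870912 50465866 3 eng mog cd1q2b cd5q0 pd3 true true true .up 2 0 3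
    ndB1q2b ndB5q0 pcB3 Cut.none Ext.none :=
  certB0 (fam := true) (s1 := true) (s2 := true) (a := 2) (b := 0) (c := 3) (cn := .up) (n1 := ndB1q2b) (n2 := ndB5q0) (pc := pcB3) (cut := Cut.none) (xt := Ext.none) (P1 := 1239849684) (W1 := 370763052) (P2 := 0) (W2 := 536870912) (P3 := 536870912) (W3 := 50465866) (N0 := 3) (En := eng) (mo := mog) (C1 := cd1q2b) (C2 := cd5q0) (C3 := pd3)
    rfl k0_pp_203_b

noncomputable def f_pp_213_a : ℕ → ℕ → ℕ → ℕ → Bool := onCell 0 536870912 536870912 536870912 536870912 50465866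
    (rowB 3 eng mog cd1q2a cd5q1 pd3 0 true true true .pnn 2 1 3 (qsf 0 536870912 536870912 536870912 3) ndB1q2a ndB5q1 pcB3 Cut.none Ext.none)

def k0_pp_213_a : ∃ t, chk3 f_pp_213_a t 1 1 1 = true :=
  ⟨(l 4), by decide +kernel⟩

theorem c_pp_213_a : CertB 0 536870912 536870912 536870912 536870912 50465866 3 eng mog cd1q2a cd5q1 pd3 true true true .pnn 2 1 3
    ndB1q2a ndB5q1 pcB3 Cut.none Ext.none :=
  certB0 (fam := true) (s1 := true) (s2 := true) (a := 2) (b := 1) (c := 3) (cn := .pnn) (n1 := ndB1q2a) (n2 := ndB5q1) (pc := pcB3) (cut := Cut.none) (xt := Ext.none) (P1 := 0) (W1 := 536870912) (P2 := 536870912) (W2 := 536870912) (P3 := 536870912) (W3 := 50465866) (N0 := 3) (En := eng) (mo := mog) (C1 := cd1q2a) (C2 := cd5q1) (C3 := pd3)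
    rfl k0_pp_213_a

noncomputable def f_pp_213_b : ℕ → ℕ → ℕ → ℕ → Bool := onCell 1239849684 370763052 536870912 536870912 536870912 50465866
    (rowB 3 eng mog cd1q2b cd5q1 pd3 0 true true true .pnn 2 1 3 (qsf 1239849684 370763052 536870912 536870912 3) ndB1q2b ndB5q1 pcB3 Cut.none Ext.none)

def k0_pp_213_b : ∃ t, chk3 f_pp_213_b t 1 1 1 = true :=
  ⟨(l 4), by decide +kernel⟩

theorem c_pp_213_b : CertB 1239849684 370763052 536870912 536870912 536870912 50465866 3 eng mog cd1q2b cd5q1 pd3 true true true .pnn 2 1 3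
    ndB1q2b ndB5q1 pcB3 Cut.none Ext.none :=
  certB0 (fam := true) (s1 := true) (s2 := true) (a := 2) (b := 1) (c := 3) (cn := .pnn) (n1 := ndB1q2b) (n2 := ndB5q1) (pc := pcB3) (cut := Cut.none) (xt := Ext.none) (P1 := 1239849684) (W1 := 370763052) (P2 := 536870912) (W2 := 536870912) (P3 := 536870912) (W3 := 50465866) (N0 := 3) (En := eng) (mo := mog) (C1 := cd1q2b) (C2 := cd5q1) (C3 := pd3)
    rfl k0_pp_213_b

noncomputable def f_pp_303 : ℕ → ℕ → ℕ → ℕ → Bool := onCell 1610612736 536870912 0 536870912 536870912 50465866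
    (rowB 3 eng mog cd1q3 cd5q0 pd3 0 true true true .npn 3 0 3 (qsf 1610612736 536870912 0 536870912 3) ndB1q3 ndB5q0 pcB3 Cut.none Ext.none)

def k0_pp_303 : ∃ t, chk3 f_pp_303 t 1 1 1 = true :=
  ⟨(l 4), by decide +kernel⟩

theorem c_pp_303 : CertB 1610612736 536870912 0 536870912 536870912 50465866 3 eng mog cd1q3 cd5q0 pd3 true true true .npn 3 0 3
    ndB1q3 ndB5q0 pcB3 Cut.none Ext.none :=
  certB0 (fam := true) (s1 := true) (s2 := true) (a := 3) (b := 0) (c := 3) (cn := .npn) (n1 := ndB1q3) (n2 := ndB5q0) (pc := pcB3) (cut := Cut.none) (xt := Ext.none) (P1 := 1610612736) (W1 := 536870912) (P2 := 0) (W2 := 536870912) (P3 := 536870912) (W3 := 50465866) (N0 := 3) (En := eng) (mo := mog) (C1 := cd1q3) (C2 := cd5q0) (C3 := pd3)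
    rfl k0_pp_303

noncomputable def f_pp_313 : ℕ → ℕ → ℕ → ℕ → Bool := onCell 1610612736 536870912 536870912 536870912 536870912 50465866
    (rowB 3 eng mog cd1q3 cd5q1 pd3 0 true true true .dn 3 1 3 (qsf 1610612736 536870912 536870912 536870912 3) ndB1q3 ndB5q1 pcB3 Cut.none Ext.none)

def k0_pp_313 : ∃ t, chk3 f_pp_313 t 1 1 1 = true :=
  ⟨(l 4), by decide +kernel⟩

theorem c_pp_313 : CertB 1610612736 536870912 536870912 536870912 536870912 50465866 3 eng mog cd1q3 cd5q1 pd3 true true true .dn 3 1 3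
    ndB1q3 ndB5q1 pcB3 Cut.none Ext.none :=
  certB0 (fam := true) (s1 := true) (s2 := true) (a := 3) (b := 1) (c := 3) (cn := .dn) (n1 := ndB1q3) (n2 := ndB5q1) (pc := pcB3) (cut := Cut.none) (xt := Ext.none) (P1 := 1610612736) (W1 := 536870912) (P2 := 536870912) (W2 := 536870912) (P3 := 536870912) (W3 := 50465866) (N0 := 3) (En := eng) (mo := mog) (C1 := cd1q3) (C2 := cd5q1) (C3 := pd3)
    rfl k0_pp_313

noncomputable def f_pm_001 : ℕ → ℕ → ℕ → ℕ → Bool := onCell 0 536870912 536870912 536870912 536870912 50465866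
    (rowB 3 eng mog cd1q0 cd5q0 pd1 1 true true false .up 0 0 1 (qsf 0 536870912 0 536870912 1) ndB1q0 ndB5q0 pcB1 Cut.none Ext.none)

def k0_pm_001 : ∃ t, chk3 f_pm_001 t 1 1 1 = true :=
  ⟨(b (l 3) (b (a (l 3) (l 3)) (a (l 2) (b (b (a (l 3) (a (l 3) (l 157470694855))) (a (l 2) (a (l 39291983591) (a (l 16458976) (l 16501552))))) (a (l 2) (a (b (l 98347447911) (l 2)) (b (l 16433784) (l 16313712)))))))), by decide +kernel⟩

theorem c_pm_001 : CertB 0 536870912 0 536870912 536870912 50465866 3 eng mog cd1q0 cd5q0 pd1 true true false .up 0 0 1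
    ndB1q0 ndB5q0 pcB1 Cut.none Ext.none :=
  certB1 (fam := true) (s1 := true) (s2 := false) (a := 0) (b := 0) (c := 1) (cn := .up) (n1 := ndB1q0) (n2 := ndB5q0) (pc := pcB1) (cut := Cut.none) (xt := Ext.none) (P1 := 0) (W1 := 536870912) (P2 := 0) (W2 := 536870912) (P3 := 536870912) (W3 := 50465866) (N0 := 3) (En := eng) (mo := mog) (C1 := cd1q0) (C2 := cd5q0) (C3 := pd1)
    rfl (fun _ => rfl) k0_pm_001

noncomputable def cut_pm_011 : Cut := Cut.of [[⟨0, 0, 0, 67108864⟩, ⟨1, 1, 0, 67108864⟩, ⟨2, 1, 0, 67108864⟩]]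

noncomputable def f_pm_011 : ℕ → ℕ → ℕ → ℕ → Bool := onCell 0 536870912 536870912 536870912 536870912 50465866
    (rowB 3 eng mog cd1q0 cd5q1 pd1 1 true true false .pnn 0 1 1 (qsf 0 536870912 536870912 536870912 1) ndB1q0 ndB5q1 pcB1 cut_pm_011 Ext.none)

def k0_pm_011 : ∃ t, chk3 f_pm_011 t 1 1 1 = true :=
  ⟨(b (l 3) (b (a (l 3) (l 3)) (a (b (l 3) (a (b (l 3) (b (a (l 3) (b (l 3) (a (a (l 3) (l 16726192)) (l 16721304)))) (a (a (l 6) (b (a (l 3) (b (l 3) (l 16739568))) (a (l 6) (l 16743096)))) (a (b (b (l 16743288) (l 16735136)) (l 16723120)) (l 16721536))))) (b (a (b (l 3) (a (l 3) (l 16683344))) (b (a (l 3) (l 16631104)) (a (l 16636824) (l 16601224)))) (a (b (a (l 16707280) (l 16642392)) (a (l 16665584) (l 16676304))) (b (l 16625608) (a (l 16580912) (l 16548568))))))) (b (a (a (l 3) (b (l 3) (b (l 3) (l 16557936)))) (b (a (l 3) (l 1)) (a (b (l 16476504) (l 16452888)) (l 16457512)))) (a (b (a (a (b (l 16594880) (l 16567960)) (b (l 16551440)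 (l 16510736))) (l 16563888)) (a (b (a (l 16542928) (l 16510768)) (l 16565936)) (b (l 16428016) (a (l 16454528) (l 16413616))))) (b (a (l 16450080) (l 16328488)) (a (l 16391328) (l 16305520)))))))), by decide +kernel⟩

theorem c_pm_011 : CertB 0 536870912 536870912 536870912 536870912 50465866 3 eng mog cd1q0 cd5q1 pd1 true true false .pnn 0 1 1
    ndB1q0 ndB5q1 pcB1 cut_pm_011 Ext.none :=
  certB1 (fam := true) (s1 := true) (s2 := false) (a := 0) (b := 1) (c := 1) (cn := .pnn) (n1 := ndB1q0) (n2 := ndB5q1) (pc := pcB1) (cut := cut_pm_011) (xt := Ext.none) (P1 := 0) (W1 := 536870912) (P2 := 536870912) (W2 := 536870912) (P3 := 536870912) (W3 := 50465866) (N0 := 3) (En := eng) (mo := mog) (C1 := cd1q0) (C2 := cd5q1) (C3 := pd1)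
    rfl (fun _ => rfl) k0_pm_011

noncomputable def cut_pm_012 : Cut := Cut.of [[⟨0, 0, 0, 67108864⟩, ⟨1, 1, 0, 67108864⟩, ⟨2, 1, 0, 67108864⟩]]

noncomputable def f_pm_012 : ℕ → ℕ → ℕ → ℕ → Bool := onCell 1073741824 536870912 536870912 536870912 536870912 50465866
    (rowB 3 eng mog cd1q0 cd5q1 pd2 2 true true false .pnp 0 1 2 (qsf 0 536870912 536870912 536870912 2) ndB1q0 ndB5q1 pcB2 cut_pm_012 Ext.none)

def k0_pm_012 : ∃ t, chk3 f_pm_012 t 4 1 1 = true :=
  ⟨(b (b (a (b (l 16256656) (a (l 16293456) (l 16280832))) (b (a (l 16130648) (l 2)) (a (l 16227576) (l 16195760)))) (a (b (a (b (l 16363280) (l 16424696)) (l 16425248)) (a (a (l 16485104) (l 16436968)) (l 16462280))) (b (a (l 16302920) (l 16267696)) (a (l 16354176) (l 16314600))))) (a (b (b (a (b (l 16558744) (l 16631456)) (a (l 16465072) (l 16436800))) (a (a (l 16647496) (b (l 16539656) (l 16567880))) (b (l 16530760) (l 16576248)))) (a (b (b (a (l 16679720) (l 16638296)) (a (c (l 16713112)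 (l 16712336)) (b (l 16660496) (l 16654984)))) (a (b (b (a (l 16728224) (l 16704920)) (a (l 6) (a (l 6) (l 16694080)))) (l 6)) (b (b (a (l 16660912) (l 16638144)) (a (l 16697416) (l 16653176))) (b (a (l 6) (b (l 16664320) (l 6))) (l 6))))) (b (a (b (l 16556920) (b (l 16576768) (l 16590512))) (b (l 16519352) (l 16543136))) (b (a (b (l 16604736) (a (l 16630264) (l 16607736))) (b (l 16561624) (l 16574536))) (a (b (a (l 16665520) (l 16621448)) (b (a (l 6) (l 16631592)) (l 6))) (b (l 16608384) (b (l 16596912) (l 16634616)))))))) (b (b (a (l 16418512) (l 16351064)) (a (b (l 16427952) (l 16446960)) (b (l 16375368) (l 16389176)))) (b (a (b (l 16466568) (a (l 16504712) (l 16468192))) (b (l 16403144) (l 16438560))) (a (b (b (l 16522168) (a (l 16531792) (l 16491288))) (b (a (l 16543304) (l 16500920)) (a (b (l 16551912) (l 16557568)) (l 16510944)))) (b (a (l 16449320) (l 16414264)) (b (l 16502408) (a (l 16469000) (l 16429624))))))))), by decide +kernel⟩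

def k1_pm_012 : ∃ t, chk3 f_pm_012 t 5 1 1 = true :=
  ⟨(b (a (b (a (a (l 16166728) (l 2)) (l 2)) (a (a (b (l 16242728) (l 16287936)) (b (l 16403512) (l 16427416))) (b (l 16222960) (l 16263560)))) (b (l 2) (b (l 16246192) (l 16271080)))) (b (a (a (b (a (l 16320432) (a (l 16307016) (l 16304496))) (a (l 16346232) (a (l 16330264) (a (l 16323320) (l 16322056))))) (b (l 16288968) (l 16303944))) (b (l 16280840) (l 16383432))) (a (b (a (a (b (l 16361360) (l 16371496)) (a (l 16347064) (a (l 16338368) (b (l 16332632) (l 16337936))))) (b (l 16310000) (l 16311968))) (a (a (b (l 16381592) (b (l 16388576) (l 16392992))) (b (a (l 16358736) (a (l 16348224) (l 16343512))) (a (l 16365664) (a (l 16353944) (a (l 16348672) (l 16345800)))))) (b (l 16313320) (a (l 16328368) (l 16300512))))) (b (b (l 16270488) (l 16262840)) (b (a (l 16270640) (l 16238736)) (a (l 16305464) (l 16223928))))))), by decide +kernel⟩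

def k2_pm_012 : ∃ t, chk3 f_pm_012 t 3 1 1 = true :=
  ⟨(b (a (b (l 2) (a (l 16363304) (l 2))) (l 2)) (a (b (a (b (l 16296544) (l 16275832)) (b (l 16334744) (l 16302488))) (b (a (b (l 16252120) (l 16232552)) (l 16255232)) (a (b (l 16210592) (a (l 16195800) (l 16179632))) (b (l 16209432) (l 16174048))))) (a (b (l 16369696) (b (l 16282760) (l 16207888))) (b (l 2) (a (b (l 16319352) (l 16234832)) (b (l 2) (l 16286504))))))), by decide +kernel⟩

theorem s3_pm_012 : ∃ t, chk3 f_pm_012 t 2 1 1 = true := ex3_a k0_pm_012 k1_pm_012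

theorem s4_pm_012 : ∃ t, chk3 f_pm_012 t 1 1 1 = true := ex3_a s3_pm_012 k2_pm_012

theorem c_pm_012 : CertB 0 536870912 536870912 536870912 536870912 50465866 3 eng mog cd1q0 cd5q1 pd2 true true false .pnp 0 1 2
    ndB1q0 ndB5q1 pcB2 cut_pm_012 Ext.none :=
  certB2 (fam := true) (s1 := true) (s2 := false) (a := 0) (b := 1) (c := 2) (cn := .pnp) (n1 := ndB1q0) (n2 := ndB5q1) (pc := pcB2) (cut := cut_pm_012) (xt := Ext.none) (P1 := 0) (W1 := 536870912) (P2 := 536870912) (W2 := 536870912) (P3 := 536870912) (W3 := 50465866) (N0 := 3) (En := eng) (mo := mog) (C1 := cd1q0) (C2 := cd5q1) (C3 := pd2)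
    rfl (fun _ => rfl) s4_pm_012

noncomputable def f_pm_022 : ℕ → ℕ → ℕ → ℕ → Bool := onCell 1073741824 536870912 1073741824 536870912 536870912 50465866
    (rowB 3 eng mog cd1q0 cd5q2 pd2 2 true true false .pp 0 2 2 (qsf 0 536870912 1073741824 536870912 2) ndB1q0 ndB5q2 pcB2 Cut.none Ext.none)

def k0_pm_022 : ∃ t, chk3 f_pm_022 t 1 1 1 = true :=
  ⟨(a (b (a (b (l 3) (a (l 1) (b (l 3) (l 1)))) (a (a (a (a (b (l 3) (l 3)) (b (b (b (a (l 16475504) (l 16468144)) (l 16500984)) (l 16550552)) (l 3))) (a (b (b (b (a (l 16461040) (l 16454312)) (l 16590200)) (b (l 16470096) (l 16535504))) (b (b (a (l 16480984) (l 16471632)) (l 1)) (l 1))) (b (a (b (b (l 16448144) (l 16454136)) (a (l 16462664) (l 16459648))) (b (a (b (l 16442784) (l 16448704)) (b (l 16439088) (l 16444888))) (a (l 16456080) (l 16452200)))) (b (a (b (c (l 16524752) (l 135324554679)) (l 1)) (a (b (l 16456200) (l 1)) (b (l 16452400) (b (l 16453648) (l 1))))) (l 1))))) (b (b (b (l 16412656)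 (l 16417880)) (l 16422896)) (b (b (l 16422904) (a (l 186327215767) (l 16486976))) (l 490732821815)))) (b (b (b (l 16350736) (l 16354216)) (b (l 16353704) (l 16393000))) (b (b (l 16347296) (a (l 16427664) (l 16317568))) (b (a (a (l 108480973815) (l 16366928)) (l 16292920)) (a (l 390874781287) (l 257730831143))))))) (a (l 1) (b (a (l 1) (b (a (l 1) (l 404296472839)) (l 1))) (l 1)))) (b (a (b (b (a (l 16363888) (l 16287608)) (a (l 16290664) (l 16262312))) (b (a (b (l 16274568) (a (l 16275712) (l 16244280))) (b (l 16237464) (l 16217256))) (a (a (l 16341432) (l 16197624)) (b (l 16182944) (l 16136288))))) (b (a (b (l 16312216) (l 16270032)) (b (l 16361792) (l 16310704))) (b (a (l 16221312) (l 16248136)) (a (l 16147984) (l 16165592))))) (b (a (a (b (a (l 300680285111) (l 112238951543)) (l 416644405335)) (b (b (l 16129736) (l 16170432)) (l 317323120103))) (b (l 16261080) (a (l 16132664) (l 16044176)))) (b (a (a (l 1) (l 412349350551)) (a (l 345240406759)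 (l 16145880))) (a (l 1) (l 393558835911)))))), by decide +kernel⟩

theorem c_pm_022 : CertB 0 536870912 1073741824 536870912 536870912 50465866 3 eng mog cd1q0 cd5q2 pd2 true true false .pp 0 2 2
    ndB1q0 ndB5q2 pcB2 Cut.none Ext.none :=
  certB2 (fam := true) (s1 := true) (s2 := false) (a := 0) (b := 2) (c := 2) (cn := .pp) (n1 := ndB1q0) (n2 := ndB5q2) (pc := pcB2) (cut := Cut.none) (xt := Ext.none) (P1 := 0) (W1 := 536870912) (P2 := 1073741824) (W2 := 536870912) (P3 := 536870912) (W3 := 50465866) (N0 := 3) (En := eng) (mo := mog) (C1 := cd1q0) (C2 := cd5q2) (C3 := pd2)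
    rfl (fun _ => rfl) k0_pm_022

noncomputable def f_pm_023 : ℕ → ℕ → ℕ → ℕ → Bool := onCell 0 536870912 1073741824 536870912 536870912 50465866
    (rowB 3 eng mog cd1q0 cd5q2 pd3 0 true true false .up 0 2 3 (qsf 0 536870912 1073741824 536870912 3) ndB1q0 ndB5q2 pcB3 Cut.none Ext.none)

def k0_pm_023 : ∃ t, chk3 f_pm_023 t 1 1 1 = true :=
  ⟨(a (b (b (l 1) (a (l 1) (b (l 1) (l 309807273143)))) (a (b (l 304975160695) (l 338798281767)) (b (l 241087436247) (l 16368000)))) (b (b (a (b (l 1) (l 137471765415)) (a (l 141229968215) (l 163241775207))) (a (b (l 170220943623) (l 16190648)) (b (a (l 16306768) (l 16491768)) (l 16503024)))) (b (a (l 16341648) (l 16618840)) (b (l 16636648) (a (l 16636504) (a (l 16706560) (b (l 16725584) (a (l 16730144) (b (l 16735408) (a (l 16737216) (b (l 16739088) (b (l 16740192) (l 16908504))))))))))))), by decide +kernel⟩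

theorem c_pm_023 : CertB 0 536870912 1073741824 536870912 536870912 50465866 3 eng mog cd1q0 cd5q2 pd3 true true false .up 0 2 3
    ndB1q0 ndB5q2 pcB3 Cut.none Ext.none :=
  certB0 (fam := true) (s1 := true) (s2 := false) (a := 0) (b := 2) (c := 3) (cn := .up) (n1 := ndB1q0) (n2 := ndB5q2) (pc := pcB3) (cut := Cut.none) (xt := Ext.none) (P1 := 0) (W1 := 536870912) (P2 := 1073741824) (W2 := 536870912) (P3 := 536870912) (W3 := 50465866) (N0 := 3) (En := eng) (mo := mog) (C1 := cd1q0) (C2 := cd5q2) (C3 := pd3)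
    rfl k0_pm_023

noncomputable def f_pm_033 : ℕ → ℕ → ℕ → ℕ → Bool := onCell 1610612736 536870912 0 1230186008 536870912 50465866
    (rowB 3 eng mog cd1q0 cd5q3 pd3 2 true true false .pnn 0 3 3 (qsf 0 536870912 0 1230186008 3) ndB1q0 ndB5q3 pcB3 Cut.none Ext.none)

def k0_pm_033 : ∃ t, chk3 f_pm_033 t 1 1 1 = true :=
  ⟨(b (a (l 1) (a (l 1) (b (l 4) (a (a (l 16750144) (l 4)) (l 4))))) (b (a (b (l 1) (a (l 1) (a (l 1) (l 467648022215)))) (a (a (b (l 1) (l 16732960)) (b (a (l 16764992) (l 16762688)) (l 16740232))) (a (a (b (l 16753072) (l 16745656)) (b (l 16744328) (l 16743648))) (a (l 39963749159) (a (l 16730744) (l 4)))))) (a (a (b (l 1) (b (l 435435231415) (l 377989896087))) (b (a (l 431140631719) (l 306587138599)) (b (l 16596368) (l 16569424)))) (a (b (a (l 16696592) (l 16718072)) (b (l 16686736) (l 16680000))) (a (b (a (l 16730640) (l 16738664)) (l 16725480)) (a (b (l 16743864) (l 16738216)) (a (b (l 16743168) (l 16743544)) (b (l 397519466327)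 (a (l 16744624) (l 16743392)))))))))), by decide +kernel⟩

theorem c_pm_033 : CertB 0 536870912 0 1230186008 536870912 50465866 3 eng mog cd1q0 cd5q3 pd3 true true false .pnn 0 3 3
    ndB1q0 ndB5q3 pcB3 Cut.none Ext.none :=
  certB2 (fam := true) (s1 := true) (s2 := false) (a := 0) (b := 3) (c := 3) (cn := .pnn) (n1 := ndB1q0) (n2 := ndB5q3) (pc := pcB3) (cut := Cut.none) (xt := Ext.none) (P1 := 0) (W1 := 536870912) (P2 := 0) (W2 := 1230186008) (P3 := 536870912) (W3 := 50465866) (N0 := 3) (En := eng) (mo := mog) (C1 := cd1q0) (C2 := cd5q3) (C3 := pd3)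
    rfl (fun _ => rfl) k0_pm_033

noncomputable def f_pm_101 : ℕ → ℕ → ℕ → ℕ → Bool := onCell 536870912 536870912 0 536870912 536870912 50465866
    (rowB 3 eng mog cd1q1 cd5q0 pd1 2 true true false .npn 1 0 1 (qsf 536870912 536870912 0 536870912 1) ndB1q1 ndB5q0 pcB1 Cut.none Ext.none)

def k0_pm_101 : ∃ t, chk3 f_pm_101 t 1 1 1 = true :=
  ⟨(a (l 3) (a (b (a (b (b (l 3) (l 3)) (l 3)) (b (a (b (a (l 56539406599) (l 16765888)) (a (b (l 16769448) (l 3)) (b (l 16759136) (l 48486274359)))) (b (a (l 16755432) (l 16745856)) (a (b (l 16748768) (l 16742400)) (b (l 16738864) (l 16731904))))) (a (b (a (l 3) (a (l 3) (b (b (l 16745456) (l 16743608)) (l 3)))) (l 3)) (b (b (a (b (l 16737024) (a (l 16757672) (l 16730272))) (b (l 16725920) (l 16721504))) (a (a (l 16732800) (l 16724848)) (b (l 16715672) (l 16711208)))) (a (b (l 16724688) (l 16722592)) (b (l 16707144) (l 16703480))))))) (b (a (l 3) (b (a (l 3) (b (l 25400937079) (l 16867888))) (l 3))) (l 3)))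 (b (a (b (a (b (a (l 16736800) (l 16727896)) (a (l 16725792) (l 16715856))) (b (l 16715264) (l 16699880))) (a (b (a (b (l 16712448) (l 16699584)) (b (l 16701112) (l 16686528))) (a (b (l 16689144) (l 16683688)) (a (l 16671840) (l 16662424)))) (b (b (l 16682392) (l 16665920)) (b (l 16646848) (l 16631416))))) (b (b (a (l 16701592) (l 16673568)) (a (l 16675688) (l 16642912))) (a (b (l 16642912) (l 16598288)) (b (l 16601624) (l 16548880))))) (a (b (a (b (b (l 16816544) (a (l 16681424) (l 16654960))) (a (l 16644136) (l 16613576))) (a (b (l 16631456) (l 16581472)) (b (l 16605496) (l 16547968)))) (a (b (a (l 16565200) (l 76805930311)) (l 1)) (b (b (l 16511472) (l 16475864)) (l 133713877911)))) (b (a (b (c (l 16786192) (l 16695296)) (b (l 16516560) (l 16470352))) (b (l 16601472) (l 16409424))) (a (b (c (l 16572144) (l 16347232)) (l 168610260487)) (b (l 16449384) (l 74120826759)))))))), by decide +kernel⟩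

theorem c_pm_101 : CertB 536870912 536870912 0 536870912 536870912 50465866 3 eng mog cd1q1 cd5q0 pd1 true true false .npn 1 0 1
    ndB1q1 ndB5q0 pcB1 Cut.none Ext.none :=
  certB2 (fam := true) (s1 := true) (s2 := false) (a := 1) (b := 0) (c := 1) (cn := .npn) (n1 := ndB1q1) (n2 := ndB5q0) (pc := pcB1) (cut := Cut.none) (xt := Ext.none) (P1 := 536870912) (W1 := 536870912) (P2 := 0) (W2 := 536870912) (P3 := 536870912) (W3 := 50465866) (N0 := 3) (En := eng) (mo := mog) (C1 := cd1q1) (C2 := cd5q0) (C3 := pd1)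
    rfl (fun _ => rfl) k0_pm_101

noncomputable def f_pm_102 : ℕ → ℕ → ℕ → ℕ → Bool := onCell 536870912 536870912 1073741824 536870912 536870912 50465866
    (rowB 3 eng mog cd1q1 cd5q0 pd2 1 true true false .npp 1 0 2 (qsf 536870912 536870912 0 536870912 2) ndB1q1 ndB5q0 pcB2 Cut.none Ext.none)

def k0_pm_102 : ∃ t, chk3 f_pm_102 t 1 1 1 = true :=
  ⟨(a (b (b (a (b (a (b (l 16159864) (l 16185320)) (a (l 16309800) (l 16228456))) (a (l 54323855319) (a (l 16207296) (l 16217832)))) (b (a (b (l 16334704) (l 16305496)) (b (l 16481424) (l 16418752))) (a (l 16332952) (l 16406272)))) (a (b (b (b (l 16321832) (l 2)) (l 2)) (l 2)) (b (b (b (l 16378552) (a (l 16301336) (l 16422632))) (l 110695717911)) (a (l 16392200) (l 16501496))))) (b (a (l 2) (b (l 16550064) (l 2))) (l 2))) (b (b (a (b (a (b (l 16511008) (l 16506776)) (b (l 16567160) (l 16564792))) (a (l 16506720) (l 16578864))) (b (a (b (l 16614568) (l 16618024)) (b (l 16660576) (l 16668424))) (a (l 16641272)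 (b (l 16700648) (l 16728088))))) (a (b (a (b (b (l 16516232) (l 16521856)) (l 16538808)) (l 16611832)) (a (l 16597064) (l 16678256))) (b (a (l 16685576) (b (l 16753096) (l 16780632))) (a (l 16754856) (l 16837832))))) (b (a (b (l 16721536) (l 16798168)) (b (a (l 16826192) (l 16903816)) (l 16908944))) (b (a (l 16859552) (l 16937264)) (a (l 2) (b (l 16951024) (l 16958968))))))), by decide +kernel⟩

theorem c_pm_102 : CertB 536870912 536870912 0 536870912 536870912 50465866 3 eng mog cd1q1 cd5q0 pd2 true true false .npp 1 0 2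
    ndB1q1 ndB5q0 pcB2 Cut.none Ext.none :=
  certB1 (fam := true) (s1 := true) (s2 := false) (a := 1) (b := 0) (c := 2) (cn := .npp) (n1 := ndB1q1) (n2 := ndB5q0) (pc := pcB2) (cut := Cut.none) (xt := Ext.none) (P1 := 536870912) (W1 := 536870912) (P2 := 0) (W2 := 536870912) (P3 := 536870912) (W3 := 50465866) (N0 := 3) (En := eng) (mo := mog) (C1 := cd1q1) (C2 := cd5q0) (C3 := pd2)
    rfl (fun _ => rfl) k0_pm_102

noncomputable def f_pm_112 : ℕ → ℕ → ℕ → ℕ → Bool := onCell 536870912 536870912 1073741824 536870912 536870912 50465866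
    (rowB 3 eng mog cd1q1 cd5q1 pd2 1 true true false .dn 1 1 2 (qsf 536870912 536870912 536870912 536870912 2) ndB1q1 ndB5q1 pcB2 Cut.none Ext.none)

def k0_pm_112 : ∃ t, chk3 f_pm_112 t 1 1 1 = true :=
  ⟨(a (b (b (a (b (a (b (l 16176840) (l 16204720)) (l 16285824)) (a (l 16273832) (l 16221056))) (b (l 1) (a (l 16284600) (l 1)))) (b (a (b (b (l 16229384) (a (l 16248208) (l 16244624))) (a (l 16261040) (l 16267032))) (b (a (l 16294032) (l 1)) (l 16378272))) (a (a (l 16310392) (l 16342512)) (l 16438768)))) (b (a (b (l 16400696) (l 16419440)) (b (l 16538000) (l 16635056))) (b (a (l 16440192) (l 16708744)) (a (b (l 16453504) (b (l 16470000) (l 16521112))) (b (l 16751856) (a (l 16742768) (l 16828568))))))) (b (b (l 1) (a (b (l 1) (l 16637232)) (l 1))) (b (a (l 16760960) (l 16879472)) (b (a (l 16845320) (l 16936376)) (a (l 16859056) (l 16946224)))))), by decide +kernel⟩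

theorem c_pm_112 : CertB 536870912 536870912 536870912 536870912 536870912 50465866 3 eng mog cd1q1 cd5q1 pd2 true true false .dn 1 1 2
    ndB1q1 ndB5q1 pcB2 Cut.none Ext.none :=
  certB1 (fam := true) (s1 := true) (s2 := false) (a := 1) (b := 1) (c := 2) (cn := .dn) (n1 := ndB1q1) (n2 := ndB5q1) (pc := pcB2) (cut := Cut.none) (xt := Ext.none) (P1 := 536870912) (W1 := 536870912) (P2 := 536870912) (W2 := 536870912) (P3 := 536870912) (W3 := 50465866) (N0 := 3) (En := eng) (mo := mog) (C1 := cd1q1) (C2 := cd5q1) (C3 := pd2)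
    rfl (fun _ => rfl) k0_pm_112

noncomputable def f_pm_113 : ℕ → ℕ → ℕ → ℕ → Bool := onCell 536870912 536870912 1610612736 536870912 536870912 50465866
    (rowB 3 eng mog cd1q1 cd5q1 pd3 1 true true false .nn 1 1 3 (qsf 536870912 536870912 536870912 536870912 3) ndB1q1 ndB5q1 pcB3 Cut.none Ext.none)

def k0_pm_113 : ∃ t, chk3 f_pm_113 t 1 1 1 = true :=
  ⟨(a (b (b (b (a (b (b (l 16433360) (l 16432752)) (b (l 273904204759) (l 284104809527))) (b (l 16792176) (l 16833456))) (b (a (a (l 16385320) (l 16709024)) (l 16853064)) (a (l 311485439191) (l 16850096)))) (a (a (l 2) (b (l 388795111751) (l 2))) (b (l 16852384) (l 16867936)))) (b (b (a (l 2) (l 389332806007)) (l 2)) (l 2))) (b (b (b (a (l 16906200) (l 16949976)) (a (l 16906192) (a (l 16920672) (l 16925744)))) (b (a (l 16900136) (l 16906648)) (a (l 16902296) (l 16885192)))) (b (b (a (l 16904168) (l 16860800)) (a (l 341014453143) (l 4))) (b (a (l 342625032983) (l 4)) (l 4))))), by decide +kernel⟩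

theorem c_pm_113 : CertB 536870912 536870912 536870912 536870912 536870912 50465866 3 eng mog cd1q1 cd5q1 pd3 true true false .nn 1 1 3
    ndB1q1 ndB5q1 pcB3 Cut.none Ext.none :=
  certB1 (fam := true) (s1 := true) (s2 := false) (a := 1) (b := 1) (c := 3) (cn := .nn) (n1 := ndB1q1) (n2 := ndB5q1) (pc := pcB3) (cut := Cut.none) (xt := Ext.none) (P1 := 536870912) (W1 := 536870912) (P2 := 536870912) (W2 := 536870912) (P3 := 536870912) (W3 := 50465866) (N0 := 3) (En := eng) (mo := mog) (C1 := cd1q1) (C2 := cd5q1) (C3 := pd3)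
    rfl (fun _ => rfl) k0_pm_113

noncomputable def f_pm_123 : ℕ → ℕ → ℕ → ℕ → Bool := onCell 1610612736 536870912 1073741824 536870912 536870912 50465866
    (rowB 3 eng mog cd1q1 cd5q2 pd3 2 true true false .npn 1 2 3 (qsf 536870912 536870912 1073741824 536870912 3) ndB1q1 ndB5q2 pcB3 Cut.none Ext.none)

def k0_pm_123 : ∃ t, chk3 f_pm_123 t 1 1 1 = true :=
  ⟨(a (a (b (b (a (b (l 16492528) (l 16413728)) (a (l 16567416) (l 16654512))) (b (l 213707840535) (l 1))) (l 1)) (b (b (a (a (l 16726776) (l 16784464)) (a (l 16825480) (l 16853704))) (b (a (l 16598232) (l 16707096)) (l 16594704))) (b (l 16555360) (l 1)))) (a (b (b (a (l 17055712) (l 16864648)) (a (l 16994056) (b (l 16797992) (l 16760656)))) (b (b (l 16707944) (l 16686680)) (l 16680976))) (a (b (a (b (l 16843560) (l 16781976)) (b (l 16816448) (l 16820120))) (b (l 16743456) (l 16725056))) (b (b (a (l 16780544) (l 4)) (a (l 16808232) (a (l 16749984) (a (l 16741528) (l 4))))) (a (b (l 16753304)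 (l 16737816)) (a (b (l 16752864) (l 16742424)) (b (a (l 16751496) (l 16745384)) (a (l 16744408) (l 16745544))))))))), by decide +kernel⟩

theorem c_pm_123 : CertB 536870912 536870912 1073741824 536870912 536870912 50465866 3 eng mog cd1q1 cd5q2 pd3 true true false .npn 1 2 3
    ndB1q1 ndB5q2 pcB3 Cut.none Ext.none :=
  certB2 (fam := true) (s1 := true) (s2 := false) (a := 1) (b := 2) (c := 3) (cn := .npn) (n1 := ndB1q1) (n2 := ndB5q2) (pc := pcB3) (cut := Cut.none) (xt := Ext.none) (P1 := 536870912) (W1 := 536870912) (P2 := 1073741824) (W2 := 536870912) (P3 := 536870912) (W3 := 50465866) (N0 := 3) (En := eng) (mo := mog) (C1 := cd1q1) (C2 := cd5q2) (C3 := pd3)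
    rfl (fun _ => rfl) k0_pm_123

noncomputable def f_pm_133 : ℕ → ℕ → ℕ → ℕ → Bool := onCell 536870912 536870912 0 1230186008 536870912 50465866
    (rowB 3 eng mog cd1q1 cd5q3 pd3 0 true true false .dn 1 3 3 (qsf 536870912 536870912 0 1230186008 3) ndB1q1 ndB5q3 pcB3 Cut.none Ext.none)

def k0_pm_133 : ∃ t, chk3 f_pm_133 t 1 1 1 = true :=
  ⟨(b (l 2) (b (l 2) (a (b (l 2) (a (b (l 2) (a (l 16755016) (l 2))) (l 2))) (l 2)))), by decide +kernel⟩

theorem c_pm_133 : CertB 536870912 536870912 0 1230186008 536870912 50465866 3 eng mog cd1q1 cd5q3 pd3 true true false .dn 1 3 3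
    ndB1q1 ndB5q3 pcB3 Cut.none Ext.none :=
  certB0 (fam := true) (s1 := true) (s2 := false) (a := 1) (b := 3) (c := 3) (cn := .dn) (n1 := ndB1q1) (n2 := ndB5q3) (pc := pcB3) (cut := Cut.none) (xt := Ext.none) (P1 := 536870912) (W1 := 536870912) (P2 := 0) (W2 := 1230186008) (P3 := 536870912) (W3 := 50465866) (N0 := 3) (En := eng) (mo := mog) (C1 := cd1q1) (C2 := cd5q3) (C3 := pd3)
    rfl k0_pm_133

noncomputable def f_pm_202_a : ℕ → ℕ → ℕ → ℕ → Bool := onCell 0 536870912 0 536870912 536870912 50465866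
    (rowB 3 eng mog cd1q2a cd5q0 pd2 0 true true false .pp 2 0 2 (qsf 0 536870912 0 536870912 2) ndB1q2a ndB5q0 pcB2 Cut.none Ext.none)

def k0_pm_202_a : ∃ t, chk3 f_pm_202_a t 2 1 1 = true :=
  ⟨(b (a (b (b (b (a (l 16667640) (l 16664920)) (l 16686840)) (b (l 16707184) (l 4))) (l 4)) (b (b (b (a (l 16664120) (l 16664456)) (a (l 16682536) (l 16681688))) (a (l 16713040) (l 16712688))) (b (a (l 16756912) (l 16759792)) (a (l 4) (l 16809976))))) (l 4)), by decide +kernel⟩

def k1_pm_202_a : ∃ t, chk3 f_pm_202_a t 3 1 1 = true :=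
  ⟨(b (b (a (b (a (b (l 16664624) (l 16680504)) (b (a (l 16664736) (l 16664536)) (a (l 16679576) (l 16679624)))) (a (b (l 16701072) (l 16725288)) (b (a (l 16700536) (l 16701432)) (l 16728544)))) (a (b (b (a (l 16664848) (b (l 16663728) (l 16669520))) (a (l 16680480) (l 16683224))) (b (a (l 16704160) (l 16710120)) (a (l 16735480) (l 16745360)))) (b (a (b (b (a (l 16665280) (b (l 16665576) (l 16667872))) (l 16672400)) (l 16689208)) (b (a (b (b (a (l 16666608) (b (l 16666960) (l 16667936))) (l 16669760)) (l 16677032)) (a (b (b (b (a (l 16667528) (l 16667864)) (l 16668992)) (l 16672320)) (l 16682136)) (a (b (b (b (a (l 16668232) (b (l 16668224) (l 16668944))) (l 16670336)) (l 16674936)) (l 16686944)) (b (b (c (b (l 16724120) (l 16727424)) (b (a (b (b (l 16613440) (l 16613752)) (l 16614440)) (b (a (l 16613824) (l 16614408)) (l 16615488))) (l 16617328))) (l 16678600)) (l 16692312))))) (a (l 16699024) (b (l 16703576) (l 16724352))))) (a (b (l 16721672)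 (l 16763136)) (b (a (l 16738496) (l 16741840)) (l 16769920)))))) (a (b (a (l 16765824) (l 16776840)) (a (l 16826056) (l 16850824))) (b (a (b (a (l 16772208) (l 16786880)) (l 16821280)) (b (a (l 16811424) (l 16783504)) (a (l 16835512) (l 16800304)))) (a (l 16884056) (a (l 16859904) (l 16833488)))))) (b (a (b (a (l 16855576) (l 16881880)) (a (l 4) (l 16852936))) (b (a (l 16898320) (l 16885192)) (a (l 16882912) (l 16893640)))) (a (l 4) (b (a (l 16864696) (l 16890800)) (a (l 17019432) (l 16884136)))))), by decide +kernel⟩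

theorem s2_pm_202_a : ∃ t, chk3 f_pm_202_a t 1 1 1 = true := ex3_a k0_pm_202_a k1_pm_202_a

theorem c_pm_202_a : CertB 0 536870912 0 536870912 536870912 50465866 3 eng mog cd1q2a cd5q0 pd2 true true false .pp 2 0 2
    ndB1q2a ndB5q0 pcB2 Cut.none Ext.none :=
  certB0 (fam := true) (s1 := true) (s2 := false) (a := 2) (b := 0) (c := 2) (cn := .pp) (n1 := ndB1q2a) (n2 := ndB5q0) (pc := pcB2) (cut := Cut.none) (xt := Ext.none) (P1 := 0) (W1 := 536870912) (P2 := 0) (W2 := 536870912) (P3 := 536870912) (W3 := 50465866) (N0 := 3) (En := eng) (mo := mog) (C1 := cd1q2a) (C2 := cd5q0) (C3 := pd2)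
    rfl s2_pm_202_a

noncomputable def f_pm_202_b : ℕ → ℕ → ℕ → ℕ → Bool := onCell 1239849684 370763052 0 536870912 536870912 50465866
    (rowB 3 eng mog cd1q2b cd5q0 pd2 0 true true false .pp 2 0 2 (qsf 1239849684 370763052 0 536870912 2) ndB1q2b ndB5q0 pcB2 Cut.none Ext.none)

def k0_pm_202_b : ∃ t, chk3 f_pm_202_b t 1 1 1 = true :=
  ⟨(b (l 4) (l 4)), by decide +kernel⟩

theorem c_pm_202_b : CertB 1239849684 370763052 0 536870912 536870912 50465866 3 eng mog cd1q2b cd5q0 pd2 true true false .pp 2 0 2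
    ndB1q2b ndB5q0 pcB2 Cut.none Ext.none :=
  certB0 (fam := true) (s1 := true) (s2 := false) (a := 2) (b := 0) (c := 2) (cn := .pp) (n1 := ndB1q2b) (n2 := ndB5q0) (pc := pcB2) (cut := Cut.none) (xt := Ext.none) (P1 := 1239849684) (W1 := 370763052) (P2 := 0) (W2 := 536870912) (P3 := 536870912) (W3 := 50465866) (N0 := 3) (En := eng) (mo := mog) (C1 := cd1q2b) (C2 := cd5q0) (C3 := pd2)
    rfl k0_pm_202_b

noncomputable def f_pm_203_a : ℕ → ℕ → ℕ → ℕ → Bool := onCell 0 536870912 1610612736 536870912 536870912 50465866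
    (rowB 3 eng mog cd1q2a cd5q0 pd3 1 true true false .up 2 0 3 (qsf 0 536870912 0 536870912 3) ndB1q2a ndB5q0 pcB3 Cut.none Ext.none)

def k0_pm_203_a : ∃ t, chk3 f_pm_203_a t 1 1 1 = true :=
  ⟨(b (b (a (l 4) (b (a (l 4) (l 16924432)) (l 16986176))) (l 4)) (l 2)), by decide +kernel⟩

theorem c_pm_203_a : CertB 0 536870912 0 536870912 536870912 50465866 3 eng mog cd1q2a cd5q0 pd3 true true false .up 2 0 3
    ndB1q2a ndB5q0 pcB3 Cut.none Ext.none :=
  certB1 (fam := true) (s1 := true) (s2 := false) (a := 2) (b := 0) (c := 3) (cn := .up) (n1 := ndB1q2a) (n2 := ndB5q0) (pc := pcB3) (cut := Cut.none) (xt := Ext.none) (P1 := 0) (W1 := 536870912) (P2 := 0) (W2 := 536870912) (P3 := 536870912) (W3 := 50465866) (N0 := 3) (En := eng) (mo := mog) (C1 := cd1q2a) (C2 := cd5q0) (C3 := pd3)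
    rfl (fun _ => rfl) k0_pm_203_a

noncomputable def f_pm_203_b : ℕ → ℕ → ℕ → ℕ → Bool := onCell 1239849684 370763052 1610612736 536870912 536870912 50465866
    (rowB 3 eng mog cd1q2b cd5q0 pd3 1 true true false .up 2 0 3 (qsf 1239849684 370763052 0 536870912 3) ndB1q2b ndB5q0 pcB3 Cut.none Ext.none)

def k0_pm_203_b : ∃ t, chk3 f_pm_203_b t 1 1 1 = true :=
  ⟨(l 4), by decide +kernel⟩

theorem c_pm_203_b : CertB 1239849684 370763052 0 536870912 536870912 50465866 3 eng mog cd1q2b cd5q0 pd3 true true false .up 2 0 3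
    ndB1q2b ndB5q0 pcB3 Cut.none Ext.none :=
  certB1 (fam := true) (s1 := true) (s2 := false) (a := 2) (b := 0) (c := 3) (cn := .up) (n1 := ndB1q2b) (n2 := ndB5q0) (pc := pcB3) (cut := Cut.none) (xt := Ext.none) (P1 := 1239849684) (W1 := 370763052) (P2 := 0) (W2 := 536870912) (P3 := 536870912) (W3 := 50465866) (N0 := 3) (En := eng) (mo := mog) (C1 := cd1q2b) (C2 := cd5q0) (C3 := pd3)
    rfl (fun _ => rfl) k0_pm_203_b

noncomputable def f_pm_213_a : ℕ → ℕ → ℕ → ℕ → Bool := onCell 0 536870912 1610612736 536870912 536870912 50465866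
    (rowB 3 eng mog cd1q2a cd5q1 pd3 1 true true false .pnn 2 1 3 (qsf 0 536870912 536870912 536870912 3) ndB1q2a ndB5q1 pcB3 Cut.none Ext.none)

def k0_pm_213_a : ∃ t, chk3 f_pm_213_a t 1 1 1 = true :=
  ⟨(b (a (l 4) (a (l 4) (b (b (l 16857912) (l 4)) (l 4)))) (l 4)), by decide +kernel⟩

theorem c_pm_213_a : CertB 0 536870912 536870912 536870912 536870912 50465866 3 eng mog cd1q2a cd5q1 pd3 true true false .pnn 2 1 3
    ndB1q2a ndB5q1 pcB3 Cut.none Ext.none :=
  certB1 (fam := true) (s1 := true) (s2 := false) (a := 2) (b := 1) (c := 3) (cn := .pnn) (n1 := ndB1q2a) (n2 := ndB5q1) (pc := pcB3) (cut := Cut.none) (xt := Ext.none) (P1 := 0) (W1 := 536870912) (P2 := 536870912) (W2 := 536870912) (P3 := 536870912) (W3 := 50465866) (N0 := 3) (En := eng) (mo := mog) (C1 := cd1q2a) (C2 := cd5q1) (C3 := pd3)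
    rfl (fun _ => rfl) k0_pm_213_a

noncomputable def f_pm_213_b : ℕ → ℕ → ℕ → ℕ → Bool := onCell 1239849684 370763052 536870912 536870912 536870912 50465866
    (rowB 3 eng mog cd1q2b cd5q1 pd3 0 true true false .pnn 2 1 3 (qsf 1239849684 370763052 536870912 536870912 3) ndB1q2b ndB5q1 pcB3 Cut.none Ext.none)

def k0_pm_213_b : ∃ t, chk3 f_pm_213_b t 1 1 1 = true :=
  ⟨(l 4), by decide +kernel⟩

theorem c_pm_213_b : CertB 1239849684 370763052 536870912 536870912 536870912 50465866 3 eng mog cd1q2b cd5q1 pd3 true true false .pnn 2 1 3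
    ndB1q2b ndB5q1 pcB3 Cut.none Ext.none :=
  certB0 (fam := true) (s1 := true) (s2 := false) (a := 2) (b := 1) (c := 3) (cn := .pnn) (n1 := ndB1q2b) (n2 := ndB5q1) (pc := pcB3) (cut := Cut.none) (xt := Ext.none) (P1 := 1239849684) (W1 := 370763052) (P2 := 536870912) (W2 := 536870912) (P3 := 536870912) (W3 := 50465866) (N0 := 3) (En := eng) (mo := mog) (C1 := cd1q2b) (C2 := cd5q1) (C3 := pd3)
    rfl k0_pm_213_b

noncomputable def f_pm_303 : ℕ → ℕ → ℕ → ℕ → Bool := onCell 1610612736 536870912 0 536870912 536870912 50465866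
    (rowB 3 eng mog cd1q3 cd5q0 pd3 0 true true false .npn 3 0 3 (qsf 1610612736 536870912 0 536870912 3) ndB1q3 ndB5q0 pcB3 Cut.none Ext.none)

def k0_pm_303 : ∃ t, chk3 f_pm_303 t 1 1 1 = true :=
  ⟨(l 4), by decide +kernel⟩

theorem c_pm_303 : CertB 1610612736 536870912 0 536870912 536870912 50465866 3 eng mog cd1q3 cd5q0 pd3 true true false .npn 3 0 3
    ndB1q3 ndB5q0 pcB3 Cut.none Ext.none :=
  certB0 (fam := true) (s1 := true) (s2 := false) (a := 3) (b := 0) (c := 3) (cn := .npn) (n1 := ndB1q3) (n2 := ndB5q0) (pc := pcB3) (cut := Cut.none) (xt := Ext.none) (P1 := 1610612736) (W1 := 536870912) (P2 := 0) (W2 := 536870912) (P3 := 536870912) (W3 := 50465866) (N0 := 3) (En := eng) (mo := mog) (C1 := cd1q3) (C2 := cd5q0) (C3 := pd3)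
    rfl k0_pm_303

noncomputable def f_pm_313 : ℕ → ℕ → ℕ → ℕ → Bool := onCell 1610612736 536870912 536870912 536870912 536870912 50465866
    (rowB 3 eng mog cd1q3 cd5q1 pd3 0 true true false .dn 3 1 3 (qsf 1610612736 536870912 536870912 536870912 3) ndB1q3 ndB5q1 pcB3 Cut.none Ext.none)

def k0_pm_313 : ∃ t, chk3 f_pm_313 t 1 1 1 = true :=
  ⟨(l 4), by decide +kernel⟩

theorem c_pm_313 : CertB 1610612736 536870912 536870912 536870912 536870912 50465866 3 eng mog cd1q3 cd5q1 pd3 true true false .dn 3 1 3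
    ndB1q3 ndB5q1 pcB3 Cut.none Ext.none :=
  certB0 (fam := true) (s1 := true) (s2 := false) (a := 3) (b := 1) (c := 3) (cn := .dn) (n1 := ndB1q3) (n2 := ndB5q1) (pc := pcB3) (cut := Cut.none) (xt := Ext.none) (P1 := 1610612736) (W1 := 536870912) (P2 := 536870912) (W2 := 536870912) (P3 := 536870912) (W3 := 50465866) (N0 := 3) (En := eng) (mo := mog) (C1 := cd1q3) (C2 := cd5q1) (C3 := pd3)
    rfl k0_pm_313

noncomputable def f_mm_001 : ℕ → ℕ → ℕ → ℕ → Bool := onCell 0 536870912 0 536870912 536870912 50465866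
    (rowB 3 eng mog cd1q0 cd5q0 pd1 0 true false false .up 0 0 1 (qsf 0 536870912 0 536870912 1) ndB1q0 ndB5q0 pcB1 Cut.none Ext.none)

def k0_mm_001 : ∃ t, chk3 f_mm_001 t 1 1 1 = true :=
  ⟨(l 4), by decide +kernel⟩

theorem c_mm_001 : CertB 0 536870912 0 536870912 536870912 50465866 3 eng mog cd1q0 cd5q0 pd1 true false false .up 0 0 1
    ndB1q0 ndB5q0 pcB1 Cut.none Ext.none :=
  certB0 (fam := true) (s1 := false) (s2 := false) (a := 0) (b := 0) (c := 1) (cn := .up) (n1 := ndB1q0) (n2 := ndB5q0) (pc := pcB1) (cut := Cut.none) (xt := Ext.none) (P1 := 0) (W1 := 536870912) (P2 := 0) (W2 := 536870912) (P3 := 536870912) (W3 := 50465866) (N0 := 3) (En := eng) (mo := mog) (C1 := cd1q0) (C2 := cd5q0) (C3 := pd1)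
    rfl k0_mm_001

noncomputable def f_mm_011 : ℕ → ℕ → ℕ → ℕ → Bool := onCell 0 536870912 536870912 536870912 536870912 50465866
    (rowB 3 eng mog cd1q0 cd5q1 pd1 0 true false false .pnn 0 1 1 (qsf 0 536870912 536870912 536870912 1) ndB1q0 ndB5q1 pcB1 Cut.none Ext.none)

def k0_mm_011 : ∃ t, chk3 f_mm_011 t 1 1 1 = true :=
  ⟨(l 4), by decide +kernel⟩

theorem c_mm_011 : CertB 0 536870912 536870912 536870912 536870912 50465866 3 eng mog cd1q0 cd5q1 pd1 true false false .pnn 0 1 1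
    ndB1q0 ndB5q1 pcB1 Cut.none Ext.none :=
  certB0 (fam := true) (s1 := false) (s2 := false) (a := 0) (b := 1) (c := 1) (cn := .pnn) (n1 := ndB1q0) (n2 := ndB5q1) (pc := pcB1) (cut := Cut.none) (xt := Ext.none) (P1 := 0) (W1 := 536870912) (P2 := 536870912) (W2 := 536870912) (P3 := 536870912) (W3 := 50465866) (N0 := 3) (En := eng) (mo := mog) (C1 := cd1q0) (C2 := cd5q1) (C3 := pd1)
    rfl k0_mm_011

noncomputable def f_mm_012 : ℕ → ℕ → ℕ → ℕ → Bool := onCell 0 536870912 536870912 536870912 536870912 50465866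
    (rowB 3 eng mog cd1q0 cd5q1 pd2 0 true false false .pnp 0 1 2 (qsf 0 536870912 536870912 536870912 2) ndB1q0 ndB5q1 pcB2 Cut.none Ext.none)

def k0_mm_012 : ∃ t, chk3 f_mm_012 t 1 1 1 = true :=
  ⟨(l 4), by decide +kernel⟩

theorem c_mm_012 : CertB 0 536870912 536870912 536870912 536870912 50465866 3 eng mog cd1q0 cd5q1 pd2 true false false .pnp 0 1 2
    ndB1q0 ndB5q1 pcB2 Cut.none Ext.none :=
  certB0 (fam := true) (s1 := false) (s2 := false) (a := 0) (b := 1) (c := 2) (cn := .pnp) (n1 := ndB1q0) (n2 := ndB5q1) (pc := pcB2) (cut := Cut.none) (xt := Ext.none) (P1 := 0) (W1 := 536870912) (P2 := 536870912) (W2 := 536870912) (P3 := 536870912) (W3 := 50465866) (N0 := 3) (En := eng) (mo := mog) (C1 := cd1q0) (C2 := cd5q1) (C3 := pd2)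
    rfl k0_mm_012

noncomputable def f_mm_022 : ℕ → ℕ → ℕ → ℕ → Bool := onCell 0 536870912 1073741824 536870912 536870912 50465866
    (rowB 3 eng mog cd1q0 cd5q2 pd2 0 true false false .pp 0 2 2 (qsf 0 536870912 1073741824 536870912 2) ndB1q0 ndB5q2 pcB2 Cut.none Ext.none)

def k0_mm_022 : ∃ t, chk3 f_mm_022 t 1 1 1 = true :=
  ⟨(l 4), by decide +kernel⟩

theorem c_mm_022 : CertB 0 536870912 1073741824 536870912 536870912 50465866 3 eng mog cd1q0 cd5q2 pd2 true false false .pp 0 2 2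
    ndB1q0 ndB5q2 pcB2 Cut.none Ext.none :=
  certB0 (fam := true) (s1 := false) (s2 := false) (a := 0) (b := 2) (c := 2) (cn := .pp) (n1 := ndB1q0) (n2 := ndB5q2) (pc := pcB2) (cut := Cut.none) (xt := Ext.none) (P1 := 0) (W1 := 536870912) (P2 := 1073741824) (W2 := 536870912) (P3 := 536870912) (W3 := 50465866) (N0 := 3) (En := eng) (mo := mog) (C1 := cd1q0) (C2 := cd5q2) (C3 := pd2)
    rfl k0_mm_022

noncomputable def f_mm_023 : ℕ → ℕ → ℕ → ℕ → Bool := onCell 0 536870912 1073741824 536870912 536870912 50465866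
    (rowB 3 eng mog cd1q0 cd5q2 pd3 0 true false false .up 0 2 3 (qsf 0 536870912 1073741824 536870912 3) ndB1q0 ndB5q2 pcB3 Cut.none Ext.none)

def k0_mm_023 : ∃ t, chk3 f_mm_023 t 1 1 1 = true :=
  ⟨(l 4), by decide +kernel⟩

theorem c_mm_023 : CertB 0 536870912 1073741824 536870912 536870912 50465866 3 eng mog cd1q0 cd5q2 pd3 true false false .up 0 2 3
    ndB1q0 ndB5q2 pcB3 Cut.none Ext.none :=
  certB0 (fam := true) (s1 := false) (s2 := false) (a := 0) (b := 2) (c := 3) (cn := .up) (n1 := ndB1q0) (n2 := ndB5q2) (pc := pcB3) (cut := Cut.none) (xt := Ext.none) (P1 := 0) (W1 := 536870912) (P2 := 1073741824) (W2 := 536870912) (P3 := 536870912) (W3 := 50465866) (N0 := 3) (En := eng) (mo := mog) (C1 := cd1q0) (C2 := cd5q2) (C3 := pd3)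
    rfl k0_mm_023

noncomputable def f_mm_033 : ℕ → ℕ → ℕ → ℕ → Bool := onCell 0 536870912 0 1230186008 536870912 50465866
    (rowB 3 eng mog cd1q0 cd5q3 pd3 0 true false false .pnn 0 3 3 (qsf 0 536870912 0 1230186008 3) ndB1q0 ndB5q3 pcB3 Cut.none Ext.none)

def k0_mm_033 : ∃ t, chk3 f_mm_033 t 1 1 1 = true :=
  ⟨(l 5), by decide +kernel⟩

theorem c_mm_033 : CertB 0 536870912 0 1230186008 536870912 50465866 3 eng mog cd1q0 cd5q3 pd3 true false false .pnn 0 3 3
    ndB1q0 ndB5q3 pcB3 Cut.none Ext.none :=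
  certB0 (fam := true) (s1 := false) (s2 := false) (a := 0) (b := 3) (c := 3) (cn := .pnn) (n1 := ndB1q0) (n2 := ndB5q3) (pc := pcB3) (cut := Cut.none) (xt := Ext.none) (P1 := 0) (W1 := 536870912) (P2 := 0) (W2 := 1230186008) (P3 := 536870912) (W3 := 50465866) (N0 := 3) (En := eng) (mo := mog) (C1 := cd1q0) (C2 := cd5q3) (C3 := pd3)
    rfl k0_mm_033

noncomputable def f_mm_101 : ℕ → ℕ → ℕ → ℕ → Bool := onCell 536870912 536870912 0 536870912 536870912 50465866
    (rowB 3 eng mog cd1q1 cd5q0 pd1 0 true false false .npn 1 0 1 (qsf 536870912 536870912 0 536870912 1) ndB1q1 ndB5q0 pcB1 Cut.none Ext.none)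

def k0_mm_101 : ∃ t, chk3 f_mm_101 t 1 1 1 = true :=
  ⟨(l 4), by decide +kernel⟩

theorem c_mm_101 : CertB 536870912 536870912 0 536870912 536870912 50465866 3 eng mog cd1q1 cd5q0 pd1 true false false .npn 1 0 1
    ndB1q1 ndB5q0 pcB1 Cut.none Ext.none :=
  certB0 (fam := true) (s1 := false) (s2 := false) (a := 1) (b := 0) (c := 1) (cn := .npn) (n1 := ndB1q1) (n2 := ndB5q0) (pc := pcB1) (cut := Cut.none) (xt := Ext.none) (P1 := 536870912) (W1 := 536870912) (P2 := 0) (W2 := 536870912) (P3 := 536870912) (W3 := 50465866) (N0 := 3) (En := eng) (mo := mog) (C1 := cd1q1) (C2 := cd5q0) (C3 := pd1)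
    rfl k0_mm_101

noncomputable def f_mm_102 : ℕ → ℕ → ℕ → ℕ → Bool := onCell 536870912 536870912 0 536870912 536870912 50465866
    (rowB 3 eng mog cd1q1 cd5q0 pd2 0 true false false .npp 1 0 2 (qsf 536870912 536870912 0 536870912 2) ndB1q1 ndB5q0 pcB2 Cut.none Ext.none)

def k0_mm_102 : ∃ t, chk3 f_mm_102 t 1 1 1 = true :=
  ⟨(l 4), by decide +kernel⟩

theorem c_mm_102 : CertB 536870912 536870912 0 536870912 536870912 50465866 3 eng mog cd1q1 cd5q0 pd2 true false false .npp 1 0 2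
    ndB1q1 ndB5q0 pcB2 Cut.none Ext.none :=
  certB0 (fam := true) (s1 := false) (s2 := false) (a := 1) (b := 0) (c := 2) (cn := .npp) (n1 := ndB1q1) (n2 := ndB5q0) (pc := pcB2) (cut := Cut.none) (xt := Ext.none) (P1 := 536870912) (W1 := 536870912) (P2 := 0) (W2 := 536870912) (P3 := 536870912) (W3 := 50465866) (N0 := 3) (En := eng) (mo := mog) (C1 := cd1q1) (C2 := cd5q0) (C3 := pd2)
    rfl k0_mm_102

noncomputable def f_mm_112 : ℕ → ℕ → ℕ → ℕ → Bool := onCell 536870912 536870912 536870912 536870912 536870912 50465866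
    (rowB 3 eng mog cd1q1 cd5q1 pd2 0 true false false .dn 1 1 2 (qsf 536870912 536870912 536870912 536870912 2) ndB1q1 ndB5q1 pcB2 Cut.none Ext.none)

def k0_mm_112 : ∃ t, chk3 f_mm_112 t 1 1 1 = true :=
  ⟨(l 4), by decide +kernel⟩

theorem c_mm_112 : CertB 536870912 536870912 536870912 536870912 536870912 50465866 3 eng mog cd1q1 cd5q1 pd2 true false false .dn 1 1 2
    ndB1q1 ndB5q1 pcB2 Cut.none Ext.none :=
  certB0 (fam := true) (s1 := false) (s2 := false) (a := 1) (b := 1) (c := 2) (cn := .dn) (n1 := ndB1q1) (n2 := ndB5q1) (pc := pcB2) (cut := Cut.none) (xt := Ext.none) (P1 := 536870912) (W1 := 536870912) (P2 := 536870912) (W2 := 536870912) (P3 := 536870912) (W3 := 50465866) (N0 := 3) (En := eng) (mo := mog) (C1 := cd1q1) (C2 := cd5q1) (C3 := pd2)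
    rfl k0_mm_112

noncomputable def f_mm_113 : ℕ → ℕ → ℕ → ℕ → Bool := onCell 536870912 536870912 536870912 536870912 536870912 50465866
    (rowB 3 eng mog cd1q1 cd5q1 pd3 0 true false false .nn 1 1 3 (qsf 536870912 536870912 536870912 536870912 3) ndB1q1 ndB5q1 pcB3 Cut.none Ext.none)

def k0_mm_113 : ∃ t, chk3 f_mm_113 t 1 1 1 = true :=
  ⟨(l 4), by decide +kernel⟩

theorem c_mm_113 : CertB 536870912 536870912 536870912 536870912 536870912 50465866 3 eng mog cd1q1 cd5q1 pd3 true false false .nn 1 1 3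
    ndB1q1 ndB5q1 pcB3 Cut.none Ext.none :=
  certB0 (fam := true) (s1 := false) (s2 := false) (a := 1) (b := 1) (c := 3) (cn := .nn) (n1 := ndB1q1) (n2 := ndB5q1) (pc := pcB3) (cut := Cut.none) (xt := Ext.none) (P1 := 536870912) (W1 := 536870912) (P2 := 536870912) (W2 := 536870912) (P3 := 536870912) (W3 := 50465866) (N0 := 3) (En := eng) (mo := mog) (C1 := cd1q1) (C2 := cd5q1) (C3 := pd3)
    rfl k0_mm_113

noncomputable def f_mm_123 : ℕ → ℕ → ℕ → ℕ → Bool := onCell 536870912 536870912 1073741824 536870912 536870912 50465866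
    (rowB 3 eng mog cd1q1 cd5q2 pd3 0 true false false .npn 1 2 3 (qsf 536870912 536870912 1073741824 536870912 3) ndB1q1 ndB5q2 pcB3 Cut.none Ext.none)

def k0_mm_123 : ∃ t, chk3 f_mm_123 t 1 1 1 = true :=
  ⟨(l 4), by decide +kernel⟩

theorem c_mm_123 : CertB 536870912 536870912 1073741824 536870912 536870912 50465866 3 eng mog cd1q1 cd5q2 pd3 true false false .npn 1 2 3
    ndB1q1 ndB5q2 pcB3 Cut.none Ext.none :=
  certB0 (fam := true) (s1 := false) (s2 := false) (a := 1) (b := 2) (c := 3) (cn := .npn) (n1 := ndB1q1) (n2 := ndB5q2) (pc := pcB3) (cut := Cut.none) (xt := Ext.none) (P1 := 536870912) (W1 := 536870912) (P2 := 1073741824) (W2 := 536870912) (P3 := 536870912) (W3 := 50465866) (N0 := 3) (En := eng) (mo := mog) (C1 := cd1q1) (C2 := cd5q2) (C3 := pd3)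
    rfl k0_mm_123

noncomputable def f_mm_133 : ℕ → ℕ → ℕ → ℕ → Bool := onCell 536870912 536870912 0 1230186008 536870912 50465866
    (rowB 3 eng mog cd1q1 cd5q3 pd3 0 true false false .dn 1 3 3 (qsf 536870912 536870912 0 1230186008 3) ndB1q1 ndB5q3 pcB3 Cut.none Ext.none)

def k0_mm_133 : ∃ t, chk3 f_mm_133 t 1 1 1 = true :=
  ⟨(l 4), by decide +kernel⟩

theorem c_mm_133 : CertB 536870912 536870912 0 1230186008 536870912 50465866 3 eng mog cd1q1 cd5q3 pd3 true false false .dn 1 3 3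
    ndB1q1 ndB5q3 pcB3 Cut.none Ext.none :=
  certB0 (fam := true) (s1 := false) (s2 := false) (a := 1) (b := 3) (c := 3) (cn := .dn) (n1 := ndB1q1) (n2 := ndB5q3) (pc := pcB3) (cut := Cut.none) (xt := Ext.none) (P1 := 536870912) (W1 := 536870912) (P2 := 0) (W2 := 1230186008) (P3 := 536870912) (W3 := 50465866) (N0 := 3) (En := eng) (mo := mog) (C1 := cd1q1) (C2 := cd5q3) (C3 := pd3)
    rfl k0_mm_133

noncomputable def f_mm_202_a : ℕ → ℕ → ℕ → ℕ → Bool := onCell 0 536870912 0 536870912 536870912 50465866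
    (rowB 3 eng mog cd1q2a cd5q0 pd2 0 true false false .pp 2 0 2 (qsf 0 536870912 0 536870912 2) ndB1q2a ndB5q0 pcB2 Cut.none Ext.none)

def k0_mm_202_a : ∃ t, chk3 f_mm_202_a t 1 1 1 = true :=
  ⟨(l 4), by decide +kernel⟩

theorem c_mm_202_a : CertB 0 536870912 0 536870912 536870912 50465866 3 eng mog cd1q2a cd5q0 pd2 true false false .pp 2 0 2
    ndB1q2a ndB5q0 pcB2 Cut.none Ext.none :=
  certB0 (fam := true) (s1 := false) (s2 := false) (a := 2) (b := 0) (c := 2) (cn := .pp) (n1 := ndB1q2a) (n2 := ndB5q0) (pc := pcB2) (cut := Cut.none) (xt := Ext.none) (P1 := 0) (W1 := 536870912) (P2 := 0) (W2 := 536870912) (P3 := 536870912) (W3 := 50465866) (N0 := 3) (En := eng) (mo := mog) (C1 := cd1q2a) (C2 := cd5q0) (C3 := pd2)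
    rfl k0_mm_202_a

noncomputable def f_mm_202_b : ℕ → ℕ → ℕ → ℕ → Bool := onCell 1239849684 370763052 0 536870912 536870912 50465866
    (rowB 3 eng mog cd1q2b cd5q0 pd2 0 true false false .pp 2 0 2 (qsf 1239849684 370763052 0 536870912 2) ndB1q2b ndB5q0 pcB2 Cut.none Ext.none)

def k0_mm_202_b : ∃ t, chk3 f_mm_202_b t 1 1 1 = true :=
  ⟨(l 4), by decide +kernel⟩

theorem c_mm_202_b : CertB 1239849684 370763052 0 536870912 536870912 50465866 3 eng mog cd1q2b cd5q0 pd2 true false false .pp 2 0 2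
    ndB1q2b ndB5q0 pcB2 Cut.none Ext.none :=
  certB0 (fam := true) (s1 := false) (s2 := false) (a := 2) (b := 0) (c := 2) (cn := .pp) (n1 := ndB1q2b) (n2 := ndB5q0) (pc := pcB2) (cut := Cut.none) (xt := Ext.none) (P1 := 1239849684) (W1 := 370763052) (P2 := 0) (W2 := 536870912) (P3 := 536870912) (W3 := 50465866) (N0 := 3) (En := eng) (mo := mog) (C1 := cd1q2b) (C2 := cd5q0) (C3 := pd2)
    rfl k0_mm_202_b

noncomputable def f_mm_203_a : ℕ → ℕ → ℕ → ℕ → Bool := onCell 0 536870912 0 536870912 536870912 50465866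
    (rowB 3 eng mog cd1q2a cd5q0 pd3 0 true false false .up 2 0 3 (qsf 0 536870912 0 536870912 3) ndB1q2a ndB5q0 pcB3 Cut.none Ext.none)

def k0_mm_203_a : ∃ t, chk3 f_mm_203_a t 1 1 1 = true :=
  ⟨(l 4), by decide +kernel⟩

theorem c_mm_203_a : CertB 0 536870912 0 536870912 536870912 50465866 3 eng mog cd1q2a cd5q0 pd3 true false false .up 2 0 3
    ndB1q2a ndB5q0 pcB3 Cut.none Ext.none :=
  certB0 (fam := true) (s1 := false) (s2 := false) (a := 2) (b := 0) (c := 3) (cn := .up) (n1 := ndB1q2a) (n2 := ndB5q0) (pc := pcB3) (cut := Cut.none) (xt := Ext.none) (P1 := 0) (W1 := 536870912) (P2 := 0) (W2 := 536870912) (P3 := 536870912) (W3 := 50465866) (N0 := 3) (En := eng) (mo := mog) (C1 := cd1q2a) (C2 := cd5q0) (C3 := pd3)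
    rfl k0_mm_203_a

noncomputable def f_mm_203_b : ℕ → ℕ → ℕ → ℕ → Bool := onCell 1239849684 370763052 0 536870912 536870912 50465866
    (rowB 3 eng mog cd1q2b cd5q0 pd3 0 true false false .up 2 0 3 (qsf 1239849684 370763052 0 536870912 3) ndB1q2b ndB5q0 pcB3 Cut.none Ext.none)

def k0_mm_203_b : ∃ t, chk3 f_mm_203_b t 1 1 1 = true :=
  ⟨(l 4), by decide +kernel⟩

theorem c_mm_203_b : CertB 1239849684 370763052 0 536870912 536870912 50465866 3 eng mog cd1q2b cd5q0 pd3 true false false .up 2 0 3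
    ndB1q2b ndB5q0 pcB3 Cut.none Ext.none :=
  certB0 (fam := true) (s1 := false) (s2 := false) (a := 2) (b := 0) (c := 3) (cn := .up) (n1 := ndB1q2b) (n2 := ndB5q0) (pc := pcB3) (cut := Cut.none) (xt := Ext.none) (P1 := 1239849684) (W1 := 370763052) (P2 := 0) (W2 := 536870912) (P3 := 536870912) (W3 := 50465866) (N0 := 3) (En := eng) (mo := mog) (C1 := cd1q2b) (C2 := cd5q0) (C3 := pd3)
    rfl k0_mm_203_b

noncomputable def f_mm_213_a : ℕ → ℕ → ℕ → ℕ → Bool := onCell 0 536870912 536870912 536870912 536870912 50465866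
    (rowB 3 eng mog cd1q2a cd5q1 pd3 0 true false false .pnn 2 1 3 (qsf 0 536870912 536870912 536870912 3) ndB1q2a ndB5q1 pcB3 Cut.none Ext.none)

def k0_mm_213_a : ∃ t, chk3 f_mm_213_a t 1 1 1 = true :=
  ⟨(l 4), by decide +kernel⟩

theorem c_mm_213_a : CertB 0 536870912 536870912 536870912 536870912 50465866 3 eng mog cd1q2a cd5q1 pd3 true false false .pnn 2 1 3
    ndB1q2a ndB5q1 pcB3 Cut.none Ext.none :=
  certB0 (fam := true) (s1 := false) (s2 := false) (a := 2) (b := 1) (c := 3) (cn := .pnn) (n1 := ndB1q2a) (n2 := ndB5q1) (pc := pcB3) (cut := Cut.none) (xt := Ext.none) (P1 := 0) (W1 := 536870912) (P2 := 536870912) (W2 := 536870912) (P3 := 536870912) (W3 := 50465866) (N0 := 3) (En := eng) (mo := mog) (C1 := cd1q2a) (C2 := cd5q1) (C3 := pd3)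
    rfl k0_mm_213_a

noncomputable def f_mm_213_b : ℕ → ℕ → ℕ → ℕ → Bool := onCell 1239849684 370763052 536870912 536870912 536870912 50465866
    (rowB 3 eng mog cd1q2b cd5q1 pd3 0 true false false .pnn 2 1 3 (qsf 1239849684 370763052 536870912 536870912 3) ndB1q2b ndB5q1 pcB3 Cut.none Ext.none)

def k0_mm_213_b : ∃ t, chk3 f_mm_213_b t 1 1 1 = true :=
  ⟨(l 4), by decide +kernel⟩

theorem c_mm_213_b : CertB 1239849684 370763052 536870912 536870912 536870912 50465866 3 eng mog cd1q2b cd5q1 pd3 true false false .pnn 2 1 3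
    ndB1q2b ndB5q1 pcB3 Cut.none Ext.none :=
  certB0 (fam := true) (s1 := false) (s2 := false) (a := 2) (b := 1) (c := 3) (cn := .pnn) (n1 := ndB1q2b) (n2 := ndB5q1) (pc := pcB3) (cut := Cut.none) (xt := Ext.none) (P1 := 1239849684) (W1 := 370763052) (P2 := 536870912) (W2 := 536870912) (P3 := 536870912) (W3 := 50465866) (N0 := 3) (En := eng) (mo := mog) (C1 := cd1q2b) (C2 := cd5q1) (C3 := pd3)
    rfl k0_mm_213_b

noncomputable def f_mm_303 : ℕ → ℕ → ℕ → ℕ → Bool := onCell 1610612736 536870912 0 536870912 536870912 50465866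
    (rowB 3 eng mog cd1q3 cd5q0 pd3 0 true false false .npn 3 0 3 (qsf 1610612736 536870912 0 536870912 3) ndB1q3 ndB5q0 pcB3 Cut.none Ext.none)

def k0_mm_303 : ∃ t, chk3 f_mm_303 t 1 1 1 = true :=
  ⟨(l 4), by decide +kernel⟩

theorem c_mm_303 : CertB 1610612736 536870912 0 536870912 536870912 50465866 3 eng mog cd1q3 cd5q0 pd3 true false false .npn 3 0 3
    ndB1q3 ndB5q0 pcB3 Cut.none Ext.none :=
  certB0 (fam := true) (s1 := false) (s2 := false) (a := 3) (b := 0) (c := 3) (cn := .npn) (n1 := ndB1q3) (n2 := ndB5q0) (pc := pcB3) (cut := Cut.none) (xt := Ext.none) (P1 := 1610612736) (W1 := 536870912) (P2 := 0) (W2 := 536870912) (P3 := 536870912) (W3 := 50465866) (N0 := 3) (En := eng) (mo := mog) (C1 := cd1q3) (C2 := cd5q0) (C3 := pd3)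
    rfl k0_mm_303

noncomputable def f_mm_313 : ℕ → ℕ → ℕ → ℕ → Bool := onCell 1610612736 536870912 536870912 536870912 536870912 50465866
    (rowB 3 eng mog cd1q3 cd5q1 pd3 0 true false false .dn 3 1 3 (qsf 1610612736 536870912 536870912 536870912 3) ndB1q3 ndB5q1 pcB3 Cut.none Ext.none)

def k0_mm_313 : ∃ t, chk3 f_mm_313 t 1 1 1 = true :=
  ⟨(l 4), by decide +kernel⟩

theorem c_mm_313 : CertB 1610612736 536870912 536870912 536870912 536870912 50465866 3 eng mog cd1q3 cd5q1 pd3 true false false .dn 3 1 3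
    ndB1q3 ndB5q1 pcB3 Cut.none Ext.none :=
  certB0 (fam := true) (s1 := false) (s2 := false) (a := 3) (b := 1) (c := 3) (cn := .dn) (n1 := ndB1q3) (n2 := ndB5q1) (pc := pcB3) (cut := Cut.none) (xt := Ext.none) (P1 := 1610612736) (W1 := 536870912) (P2 := 536870912) (W2 := 536870912) (P3 := 536870912) (W3 := 50465866) (N0 := 3) (En := eng) (mo := mog) (C1 := cd1q3) (C2 := cd5q1) (C3 := pd3)
    rfl k0_mm_313

end Pool.Agent.Strip051.G.I5000_5470.Tab.C.BA15

namespace Pool.Agent.Strip051.G.I5000_5470.Tab.C.BA16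

open Pool.Agent.Strip051.PB Pool.Agent.Strip051.PB.T
open Pool.Agent.Strip051.G.I5000_5470.Tab

noncomputable def f_pp_001 : ℕ → ℕ → ℕ → ℕ → Bool := onCell 0 536870912 0 536870912 536870912 50465866
    (rowB 3 eng mog cd1q0 cd6q0 pd1 0 true true true .up 0 0 1 (qsf 0 536870912 0 536870912 1) ndB1q0 ndB6q0 pcB1 Cut.none Ext.none)

def k0_pp_001 : ∃ t, chk3 f_pp_001 t 1 1 1 = true :=
  ⟨(l 4), by decide +kernel⟩

theorem c_pp_001 : CertB 0 536870912 0 536870912 536870912 50465866 3 eng mog cd1q0 cd6q0 pd1 true true true .up 0 0 1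
    ndB1q0 ndB6q0 pcB1 Cut.none Ext.none :=
  certB0 (fam := true) (s1 := true) (s2 := true) (a := 0) (b := 0) (c := 1) (cn := .up) (n1 := ndB1q0) (n2 := ndB6q0) (pc := pcB1) (cut := Cut.none) (xt := Ext.none) (P1 := 0) (W1 := 536870912) (P2 := 0) (W2 := 536870912) (P3 := 536870912) (W3 := 50465866) (N0 := 3) (En := eng) (mo := mog) (C1 := cd1q0) (C2 := cd6q0) (C3 := pd1)
    rfl k0_pp_001

noncomputable def f_pp_011 : ℕ → ℕ → ℕ → ℕ → Bool := onCell 0 536870912 536870912 536870912 536870912 50465866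
    (rowB 3 eng mog cd1q0 cd6q1 pd1 0 true true true .pnn 0 1 1 (qsf 0 536870912 536870912 536870912 1) ndB1q0 ndB6q1 pcB1 Cut.none Ext.none)

def k0_pp_011 : ∃ t, chk3 f_pp_011 t 1 1 1 = true :=
  ⟨(l 4), by decide +kernel⟩

theorem c_pp_011 : CertB 0 536870912 536870912 536870912 536870912 50465866 3 eng mog cd1q0 cd6q1 pd1 true true true .pnn 0 1 1
    ndB1q0 ndB6q1 pcB1 Cut.none Ext.none :=
  certB0 (fam := true) (s1 := true) (s2 := true) (a := 0) (b := 1) (c := 1) (cn := .pnn) (n1 := ndB1q0) (n2 := ndB6q1) (pc := pcB1) (cut := Cut.none) (xt := Ext.none) (P1 := 0) (W1 := 536870912) (P2 := 536870912) (W2 := 536870912) (P3 := 536870912) (W3 := 50465866) (N0 := 3) (En := eng) (mo := mog) (C1 := cd1q0) (C2 := cd6q1) (C3 := pd1)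
    rfl k0_pp_011

noncomputable def f_pp_012 : ℕ → ℕ → ℕ → ℕ → Bool := onCell 0 536870912 536870912 536870912 536870912 50465866
    (rowB 3 eng mog cd1q0 cd6q1 pd2 0 true true true .pnp 0 1 2 (qsf 0 536870912 536870912 536870912 2) ndB1q0 ndB6q1 pcB2 Cut.none Ext.none)

def k0_pp_012 : ∃ t, chk3 f_pp_012 t 1 1 1 = true :=
  ⟨(l 4), by decide +kernel⟩

theorem c_pp_012 : CertB 0 536870912 536870912 536870912 536870912 50465866 3 eng mog cd1q0 cd6q1 pd2 true true true .pnp 0 1 2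
    ndB1q0 ndB6q1 pcB2 Cut.none Ext.none :=
  certB0 (fam := true) (s1 := true) (s2 := true) (a := 0) (b := 1) (c := 2) (cn := .pnp) (n1 := ndB1q0) (n2 := ndB6q1) (pc := pcB2) (cut := Cut.none) (xt := Ext.none) (P1 := 0) (W1 := 536870912) (P2 := 536870912) (W2 := 536870912) (P3 := 536870912) (W3 := 50465866) (N0 := 3) (En := eng) (mo := mog) (C1 := cd1q0) (C2 := cd6q1) (C3 := pd2)
    rfl k0_pp_012

noncomputable def f_pp_022 : ℕ → ℕ → ℕ → ℕ → Bool := onCell 0 536870912 1073741824 536870912 536870912 50465866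
    (rowB 3 eng mog cd1q0 cd6q2 pd2 0 true true true .pp 0 2 2 (qsf 0 536870912 1073741824 536870912 2) ndB1q0 ndB6q2 pcB2 Cut.none Ext.none)

def k0_pp_022 : ∃ t, chk3 f_pp_022 t 1 1 1 = true :=
  ⟨(l 4), by decide +kernel⟩

theorem c_pp_022 : CertB 0 536870912 1073741824 536870912 536870912 50465866 3 eng mog cd1q0 cd6q2 pd2 true true true .pp 0 2 2
    ndB1q0 ndB6q2 pcB2 Cut.none Ext.none :=
  certB0 (fam := true) (s1 := true) (s2 := true) (a := 0) (b := 2) (c := 2) (cn := .pp) (n1 := ndB1q0) (n2 := ndB6q2) (pc := pcB2) (cut := Cut.none) (xt := Ext.none) (P1 := 0) (W1 := 536870912) (P2 := 1073741824) (W2 := 536870912) (P3 := 536870912) (W3 := 50465866) (N0 := 3) (En := eng) (mo := mog) (C1 := cd1q0) (C2 := cd6q2) (C3 := pd2)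
    rfl k0_pp_022

noncomputable def f_pp_023 : ℕ → ℕ → ℕ → ℕ → Bool := onCell 0 536870912 1073741824 536870912 536870912 50465866
    (rowB 3 eng mog cd1q0 cd6q2 pd3 0 true true true .up 0 2 3 (qsf 0 536870912 1073741824 536870912 3) ndB1q0 ndB6q2 pcB3 Cut.none Ext.none)

def k0_pp_023 : ∃ t, chk3 f_pp_023 t 1 1 1 = true :=
  ⟨(l 4), by decide +kernel⟩

theorem c_pp_023 : CertB 0 536870912 1073741824 536870912 536870912 50465866 3 eng mog cd1q0 cd6q2 pd3 true true true .up 0 2 3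
    ndB1q0 ndB6q2 pcB3 Cut.none Ext.none :=
  certB0 (fam := true) (s1 := true) (s2 := true) (a := 0) (b := 2) (c := 3) (cn := .up) (n1 := ndB1q0) (n2 := ndB6q2) (pc := pcB3) (cut := Cut.none) (xt := Ext.none) (P1 := 0) (W1 := 536870912) (P2 := 1073741824) (W2 := 536870912) (P3 := 536870912) (W3 := 50465866) (N0 := 3) (En := eng) (mo := mog) (C1 := cd1q0) (C2 := cd6q2) (C3 := pd3)
    rfl k0_pp_023

noncomputable def f_pp_033 : ℕ → ℕ → ℕ → ℕ → Bool := onCell 0 536870912 0 1230186008 536870912 50465866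
    (rowB 3 eng mog cd1q0 cd6q3 pd3 0 true true true .pnn 0 3 3 (qsf 0 536870912 0 1230186008 3) ndB1q0 ndB6q3 pcB3 Cut.none Ext.none)

def k0_pp_033 : ∃ t, chk3 f_pp_033 t 1 1 1 = true :=
  ⟨(l 4), by decide +kernel⟩

theorem c_pp_033 : CertB 0 536870912 0 1230186008 536870912 50465866 3 eng mog cd1q0 cd6q3 pd3 true true true .pnn 0 3 3
    ndB1q0 ndB6q3 pcB3 Cut.none Ext.none :=
  certB0 (fam := true) (s1 := true) (s2 := true) (a := 0) (b := 3) (c := 3) (cn := .pnn) (n1 := ndB1q0) (n2 := ndB6q3) (pc := pcB3) (cut := Cut.none) (xt := Ext.none) (P1 := 0) (W1 := 536870912) (P2 := 0) (W2 := 1230186008) (P3 := 536870912) (W3 := 50465866) (N0 := 3) (En := eng) (mo := mog) (C1 := cd1q0) (C2 := cd6q3) (C3 := pd3)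
    rfl k0_pp_033

noncomputable def f_pp_101 : ℕ → ℕ → ℕ → ℕ → Bool := onCell 536870912 536870912 0 536870912 536870912 50465866
    (rowB 3 eng mog cd1q1 cd6q0 pd1 0 true true true .npn 1 0 1 (qsf 536870912 536870912 0 536870912 1) ndB1q1 ndB6q0 pcB1 Cut.none Ext.none)

def k0_pp_101 : ∃ t, chk3 f_pp_101 t 1 1 1 = true :=
  ⟨(l 4), by decide +kernel⟩

theorem c_pp_101 : CertB 536870912 536870912 0 536870912 536870912 50465866 3 eng mog cd1q1 cd6q0 pd1 true true true .npn 1 0 1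
    ndB1q1 ndB6q0 pcB1 Cut.none Ext.none :=
  certB0 (fam := true) (s1 := true) (s2 := true) (a := 1) (b := 0) (c := 1) (cn := .npn) (n1 := ndB1q1) (n2 := ndB6q0) (pc := pcB1) (cut := Cut.none) (xt := Ext.none) (P1 := 536870912) (W1 := 536870912) (P2 := 0) (W2 := 536870912) (P3 := 536870912) (W3 := 50465866) (N0 := 3) (En := eng) (mo := mog) (C1 := cd1q1) (C2 := cd6q0) (C3 := pd1)
    rfl k0_pp_101

noncomputable def f_pp_102 : ℕ → ℕ → ℕ → ℕ → Bool := onCell 536870912 536870912 0 536870912 536870912 50465866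
    (rowB 3 eng mog cd1q1 cd6q0 pd2 0 true true true .npp 1 0 2 (qsf 536870912 536870912 0 536870912 2) ndB1q1 ndB6q0 pcB2 Cut.none Ext.none)

def k0_pp_102 : ∃ t, chk3 f_pp_102 t 1 1 1 = true :=
  ⟨(l 4), by decide +kernel⟩

theorem c_pp_102 : CertB 536870912 536870912 0 536870912 536870912 50465866 3 eng mog cd1q1 cd6q0 pd2 true true true .npp 1 0 2
    ndB1q1 ndB6q0 pcB2 Cut.none Ext.none :=
  certB0 (fam := true) (s1 := true) (s2 := true) (a := 1) (b := 0) (c := 2) (cn := .npp) (n1 := ndB1q1) (n2 := ndB6q0) (pc := pcB2) (cut := Cut.none) (xt := Ext.none) (P1 := 536870912) (W1 := 536870912) (P2 := 0) (W2 := 536870912) (P3 := 536870912) (W3 := 50465866) (N0 := 3) (En := eng) (mo := mog) (C1 := cd1q1) (C2 := cd6q0) (C3 := pd2)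
    rfl k0_pp_102

noncomputable def f_pp_112 : ℕ → ℕ → ℕ → ℕ → Bool := onCell 536870912 536870912 536870912 536870912 536870912 50465866
    (rowB 3 eng mog cd1q1 cd6q1 pd2 0 true true true .dn 1 1 2 (qsf 536870912 536870912 536870912 536870912 2) ndB1q1 ndB6q1 pcB2 Cut.none Ext.none)

def k0_pp_112 : ∃ t, chk3 f_pp_112 t 1 1 1 = true :=
  ⟨(l 4), by decide +kernel⟩

theorem c_pp_112 : CertB 536870912 536870912 536870912 536870912 536870912 50465866 3 eng mog cd1q1 cd6q1 pd2 true true true .dn 1 1 2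
    ndB1q1 ndB6q1 pcB2 Cut.none Ext.none :=
  certB0 (fam := true) (s1 := true) (s2 := true) (a := 1) (b := 1) (c := 2) (cn := .dn) (n1 := ndB1q1) (n2 := ndB6q1) (pc := pcB2) (cut := Cut.none) (xt := Ext.none) (P1 := 536870912) (W1 := 536870912) (P2 := 536870912) (W2 := 536870912) (P3 := 536870912) (W3 := 50465866) (N0 := 3) (En := eng) (mo := mog) (C1 := cd1q1) (C2 := cd6q1) (C3 := pd2)
    rfl k0_pp_112

noncomputable def f_pp_113 : ℕ → ℕ → ℕ → ℕ → Bool := onCell 536870912 536870912 536870912 536870912 536870912 50465866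
    (rowB 3 eng mog cd1q1 cd6q1 pd3 0 true true true .nn 1 1 3 (qsf 536870912 536870912 536870912 536870912 3) ndB1q1 ndB6q1 pcB3 Cut.none Ext.none)

def k0_pp_113 : ∃ t, chk3 f_pp_113 t 1 1 1 = true :=
  ⟨(l 4), by decide +kernel⟩

theorem c_pp_113 : CertB 536870912 536870912 536870912 536870912 536870912 50465866 3 eng mog cd1q1 cd6q1 pd3 true true true .nn 1 1 3
    ndB1q1 ndB6q1 pcB3 Cut.none Ext.none :=
  certB0 (fam := true) (s1 := true) (s2 := true) (a := 1) (b := 1) (c := 3) (cn := .nn) (n1 := ndB1q1) (n2 := ndB6q1) (pc := pcB3) (cut := Cut.none) (xt := Ext.none) (P1 := 536870912) (W1 := 536870912) (P2 := 536870912) (W2 := 536870912) (P3 := 536870912) (W3 := 50465866) (N0 := 3) (En := eng) (mo := mog) (C1 := cd1q1) (C2 := cd6q1) (C3 := pd3)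
    rfl k0_pp_113

noncomputable def f_pp_123 : ℕ → ℕ → ℕ → ℕ → Bool := onCell 536870912 536870912 1073741824 536870912 536870912 50465866
    (rowB 3 eng mog cd1q1 cd6q2 pd3 0 true true true .npn 1 2 3 (qsf 536870912 536870912 1073741824 536870912 3) ndB1q1 ndB6q2 pcB3 Cut.none Ext.none)

def k0_pp_123 : ∃ t, chk3 f_pp_123 t 1 1 1 = true :=
  ⟨(l 4), by decide +kernel⟩

theorem c_pp_123 : CertB 536870912 536870912 1073741824 536870912 536870912 50465866 3 eng mog cd1q1 cd6q2 pd3 true true true .npn 1 2 3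
    ndB1q1 ndB6q2 pcB3 Cut.none Ext.none :=
  certB0 (fam := true) (s1 := true) (s2 := true) (a := 1) (b := 2) (c := 3) (cn := .npn) (n1 := ndB1q1) (n2 := ndB6q2) (pc := pcB3) (cut := Cut.none) (xt := Ext.none) (P1 := 536870912) (W1 := 536870912) (P2 := 1073741824) (W2 := 536870912) (P3 := 536870912) (W3 := 50465866) (N0 := 3) (En := eng) (mo := mog) (C1 := cd1q1) (C2 := cd6q2) (C3 := pd3)
    rfl k0_pp_123

noncomputable def f_pp_133 : ℕ → ℕ → ℕ → ℕ → Bool := onCell 536870912 536870912 0 1230186008 536870912 50465866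
    (rowB 3 eng mog cd1q1 cd6q3 pd3 0 true true true .dn 1 3 3 (qsf 536870912 536870912 0 1230186008 3) ndB1q1 ndB6q3 pcB3 Cut.none Ext.none)

def k0_pp_133 : ∃ t, chk3 f_pp_133 t 1 1 1 = true :=
  ⟨(l 4), by decide +kernel⟩

theorem c_pp_133 : CertB 536870912 536870912 0 1230186008 536870912 50465866 3 eng mog cd1q1 cd6q3 pd3 true true true .dn 1 3 3
    ndB1q1 ndB6q3 pcB3 Cut.none Ext.none :=
  certB0 (fam := true) (s1 := true) (s2 := true) (a := 1) (b := 3) (c := 3) (cn := .dn) (n1 := ndB1q1) (n2 := ndB6q3) (pc := pcB3) (cut := Cut.none) (xt := Ext.none) (P1 := 536870912) (W1 := 536870912) (P2 := 0) (W2 := 1230186008) (P3 := 536870912) (W3 := 50465866) (N0 := 3) (En := eng) (mo := mog) (C1 := cd1q1) (C2 := cd6q3) (C3 := pd3)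
    rfl k0_pp_133

noncomputable def f_pp_202_a : ℕ → ℕ → ℕ → ℕ → Bool := onCell 0 536870912 0 536870912 536870912 50465866
    (rowB 3 eng mog cd1q2a cd6q0 pd2 0 true true true .pp 2 0 2 (qsf 0 536870912 0 536870912 2) ndB1q2a ndB6q0 pcB2 Cut.none Ext.none)

def k0_pp_202_a : ∃ t, chk3 f_pp_202_a t 1 1 1 = true :=
  ⟨(l 4), by decide +kernel⟩

theorem c_pp_202_a : CertB 0 536870912 0 536870912 536870912 50465866 3 eng mog cd1q2a cd6q0 pd2 true true true .pp 2 0 2
    ndB1q2a ndB6q0 pcB2 Cut.none Ext.none :=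
  certB0 (fam := true) (s1 := true) (s2 := true) (a := 2) (b := 0) (c := 2) (cn := .pp) (n1 := ndB1q2a) (n2 := ndB6q0) (pc := pcB2) (cut := Cut.none) (xt := Ext.none) (P1 := 0) (W1 := 536870912) (P2 := 0) (W2 := 536870912) (P3 := 536870912) (W3 := 50465866) (N0 := 3) (En := eng) (mo := mog) (C1 := cd1q2a) (C2 := cd6q0) (C3 := pd2)
    rfl k0_pp_202_a

noncomputable def f_pp_202_b : ℕ → ℕ → ℕ → ℕ → Bool := onCell 1239849684 370763052 0 536870912 536870912 50465866
    (rowB 3 eng mog cd1q2b cd6q0 pd2 0 true true true .pp 2 0 2 (qsf 1239849684 370763052 0 536870912 2) ndB1q2b ndB6q0 pcB2 Cut.none Ext.none)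

def k0_pp_202_b : ∃ t, chk3 f_pp_202_b t 1 1 1 = true :=
  ⟨(l 4), by decide +kernel⟩

theorem c_pp_202_b : CertB 1239849684 370763052 0 536870912 536870912 50465866 3 eng mog cd1q2b cd6q0 pd2 true true true .pp 2 0 2
    ndB1q2b ndB6q0 pcB2 Cut.none Ext.none :=
  certB0 (fam := true) (s1 := true) (s2 := true) (a := 2) (b := 0) (c := 2) (cn := .pp) (n1 := ndB1q2b) (n2 := ndB6q0) (pc := pcB2) (cut := Cut.none) (xt := Ext.none) (P1 := 1239849684) (W1 := 370763052) (P2 := 0) (W2 := 536870912) (P3 := 536870912) (W3 := 50465866) (N0 := 3) (En := eng) (mo := mog) (C1 := cd1q2b) (C2 := cd6q0) (C3 := pd2)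
    rfl k0_pp_202_b

noncomputable def f_pp_203_a : ℕ → ℕ → ℕ → ℕ → Bool := onCell 0 536870912 0 536870912 536870912 50465866
    (rowB 3 eng mog cd1q2a cd6q0 pd3 0 true true true .up 2 0 3 (qsf 0 536870912 0 536870912 3) ndB1q2a ndB6q0 pcB3 Cut.none Ext.none)

def k0_pp_203_a : ∃ t, chk3 f_pp_203_a t 1 1 1 = true :=
  ⟨(l 4), by decide +kernel⟩

theorem c_pp_203_a : CertB 0 536870912 0 536870912 536870912 50465866 3 eng mog cd1q2a cd6q0 pd3 true true true .up 2 0 3
    ndB1q2a ndB6q0 pcB3 Cut.none Ext.none :=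
  certB0 (fam := true) (s1 := true) (s2 := true) (a := 2) (b := 0) (c := 3) (cn := .up) (n1 := ndB1q2a) (n2 := ndB6q0) (pc := pcB3) (cut := Cut.none) (xt := Ext.none) (P1 := 0) (W1 := 536870912) (P2 := 0) (W2 := 536870912) (P3 := 536870912) (W3 := 50465866) (N0 := 3) (En := eng) (mo := mog) (C1 := cd1q2a) (C2 := cd6q0) (C3 := pd3)
    rfl k0_pp_203_a

noncomputable def f_pp_203_b : ℕ → ℕ → ℕ → ℕ → Bool := onCell 1239849684 370763052 0 536870912 536870912 50465866
    (rowB 3 eng mog cd1q2b cd6q0 pd3 0 true true true .up 2 0 3 (qsf 1239849684 370763052 0 536870912 3) ndB1q2b ndB6q0 pcB3 Cut.none Ext.none)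

def k0_pp_203_b : ∃ t, chk3 f_pp_203_b t 1 1 1 = true :=
  ⟨(l 4), by decide +kernel⟩

theorem c_pp_203_b : CertB 1239849684 370763052 0 536870912 536870912 50465866 3 eng mog cd1q2b cd6q0 pd3 true true true .up 2 0 3
    ndB1q2b ndB6q0 pcB3 Cut.none Ext.none :=
  certB0 (fam := true) (s1 := true) (s2 := true) (a := 2) (b := 0) (c := 3) (cn := .up) (n1 := ndB1q2b) (n2 := ndB6q0) (pc := pcB3) (cut := Cut.none) (xt := Ext.none) (P1 := 1239849684) (W1 := 370763052) (P2 := 0) (W2 := 536870912) (P3 := 536870912) (W3 := 50465866) (N0 := 3) (En := eng) (mo := mog) (C1 := cd1q2b) (C2 := cd6q0) (C3 := pd3)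
    rfl k0_pp_203_b

noncomputable def f_pp_213_a : ℕ → ℕ → ℕ → ℕ → Bool := onCell 0 536870912 536870912 536870912 536870912 50465866
    (rowB 3 eng mog cd1q2a cd6q1 pd3 0 true true true .pnn 2 1 3 (qsf 0 536870912 536870912 536870912 3) ndB1q2a ndB6q1 pcB3 Cut.none Ext.none)

def k0_pp_213_a : ∃ t, chk3 f_pp_213_a t 1 1 1 = true :=
  ⟨(l 4), by decide +kernel⟩

theorem c_pp_213_a : CertB 0 536870912 536870912 536870912 536870912 50465866 3 eng mog cd1q2a cd6q1 pd3 true true true .pnn 2 1 3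
    ndB1q2a ndB6q1 pcB3 Cut.none Ext.none :=
  certB0 (fam := true) (s1 := true) (s2 := true) (a := 2) (b := 1) (c := 3) (cn := .pnn) (n1 := ndB1q2a) (n2 := ndB6q1) (pc := pcB3) (cut := Cut.none) (xt := Ext.none) (P1 := 0) (W1 := 536870912) (P2 := 536870912) (W2 := 536870912) (P3 := 536870912) (W3 := 50465866) (N0 := 3) (En := eng) (mo := mog) (C1 := cd1q2a) (C2 := cd6q1) (C3 := pd3)
    rfl k0_pp_213_a

noncomputable def f_pp_213_b : ℕ → ℕ → ℕ → ℕ → Bool := onCell 1239849684 370763052 536870912 536870912 536870912 50465866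
    (rowB 3 eng mog cd1q2b cd6q1 pd3 0 true true true .pnn 2 1 3 (qsf 1239849684 370763052 536870912 536870912 3) ndB1q2b ndB6q1 pcB3 Cut.none Ext.none)

def k0_pp_213_b : ∃ t, chk3 f_pp_213_b t 1 1 1 = true :=
  ⟨(l 4), by decide +kernel⟩

theorem c_pp_213_b : CertB 1239849684 370763052 536870912 536870912 536870912 50465866 3 eng mog cd1q2b cd6q1 pd3 true true true .pnn 2 1 3
    ndB1q2b ndB6q1 pcB3 Cut.none Ext.none :=
  certB0 (fam := true) (s1 := true) (s2 := true) (a := 2) (b := 1) (c := 3) (cn := .pnn) (n1 := ndB1q2b) (n2 := ndB6q1) (pc := pcB3) (cut := Cut.none) (xt := Ext.none) (P1 := 1239849684) (W1 := 370763052) (P2 := 536870912) (W2 := 536870912) (P3 := 536870912) (W3 := 50465866) (N0 := 3) (En := eng) (mo := mog) (C1 := cd1q2b) (C2 := cd6q1) (C3 := pd3)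
    rfl k0_pp_213_b

noncomputable def f_pp_303 : ℕ → ℕ → ℕ → ℕ → Bool := onCell 1610612736 536870912 0 536870912 536870912 50465866
    (rowB 3 eng mog cd1q3 cd6q0 pd3 0 true true true .npn 3 0 3 (qsf 1610612736 536870912 0 536870912 3) ndB1q3 ndB6q0 pcB3 Cut.none Ext.none)

def k0_pp_303 : ∃ t, chk3 f_pp_303 t 1 1 1 = true :=
  ⟨(l 4), by decide +kernel⟩

theorem c_pp_303 : CertB 1610612736 536870912 0 536870912 536870912 50465866 3 eng mog cd1q3 cd6q0 pd3 true true true .npn 3 0 3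
    ndB1q3 ndB6q0 pcB3 Cut.none Ext.none :=
  certB0 (fam := true) (s1 := true) (s2 := true) (a := 3) (b := 0) (c := 3) (cn := .npn) (n1 := ndB1q3) (n2 := ndB6q0) (pc := pcB3) (cut := Cut.none) (xt := Ext.none) (P1 := 1610612736) (W1 := 536870912) (P2 := 0) (W2 := 536870912) (P3 := 536870912) (W3 := 50465866) (N0 := 3) (En := eng) (mo := mog) (C1 := cd1q3) (C2 := cd6q0) (C3 := pd3)
    rfl k0_pp_303

noncomputable def f_pp_313 : ℕ → ℕ → ℕ → ℕ → Bool := onCell 1610612736 536870912 536870912 536870912 536870912 50465866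
    (rowB 3 eng mog cd1q3 cd6q1 pd3 0 true true true .dn 3 1 3 (qsf 1610612736 536870912 536870912 536870912 3) ndB1q3 ndB6q1 pcB3 Cut.none Ext.none)

def k0_pp_313 : ∃ t, chk3 f_pp_313 t 1 1 1 = true :=
  ⟨(l 4), by decide +kernel⟩

theorem c_pp_313 : CertB 1610612736 536870912 536870912 536870912 536870912 50465866 3 eng mog cd1q3 cd6q1 pd3 true true true .dn 3 1 3
    ndB1q3 ndB6q1 pcB3 Cut.none Ext.none :=
  certB0 (fam := true) (s1 := true) (s2 := true) (a := 3) (b := 1) (c := 3) (cn := .dn) (n1 := ndB1q3) (n2 := ndB6q1) (pc := pcB3) (cut := Cut.none) (xt := Ext.none) (P1 := 1610612736) (W1 := 536870912) (P2 := 536870912) (W2 := 536870912) (P3 := 536870912) (W3 := 50465866) (N0 := 3) (En := eng) (mo := mog) (C1 := cd1q3) (C2 := cd6q1) (C3 := pd3)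
    rfl k0_pp_313

noncomputable def f_pm_001 : ℕ → ℕ → ℕ → ℕ → Bool := onCell 0 536870912 536870912 536870912 536870912 50465866
    (rowB 3 eng mog cd1q0 cd6q0 pd1 1 true true false .up 0 0 1 (qsf 0 536870912 0 536870912 1) ndB1q0 ndB6q0 pcB1 Cut.none Ext.none)

def k0_pm_001 : ∃ t, chk3 f_pm_001 t 1 1 1 = true :=
  ⟨(a (b (l 3) (b (l 3) (l 2))) (b (b (l 3) (a (l 3) (l 3))) (b (a (b (l 3) (a (b (l 3) (l 2)) (b (a (l 3) (b (l 3) (l 16687496))) (a (b (l 16689616) (l 2)) (b (l 16646608) (l 16603176)))))) (b (a (b (l 3) (b (l 70497923239) (l 89825248599))) (b (a (l 16726968) (l 16721464)) (a (l 16686352) (l 16684336)))) (a (b (a (b (l 16684472) (l 16646176)) (l 16671192)) (a (l 16602256) (l 16538056))) (b (a (l 16626856) (l 16631320)) (a (l 16545608) (l 16559896)))))) (a (b (a (l 2) (b (a (l 2) (l 16608792)) (l 2))) (l 2)) (b (a (b (a (l 16524208) (l 16461648)) (a (l 16446432) (l 16407304))) (b (a (l 16438632) (l 16466224)) (b (l 16337760) (l 16328272))))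 (a (b (a (l 2) (l 16358704)) (l 2)) (b (a (l 16310872) (l 16261808)) (l 16273104)))))))), by decide +kernel⟩

theorem c_pm_001 : CertB 0 536870912 0 536870912 536870912 50465866 3 eng mog cd1q0 cd6q0 pd1 true true false .up 0 0 1
    ndB1q0 ndB6q0 pcB1 Cut.none Ext.none :=
  certB1 (fam := true) (s1 := true) (s2 := false) (a := 0) (b := 0) (c := 1) (cn := .up) (n1 := ndB1q0) (n2 := ndB6q0) (pc := pcB1) (cut := Cut.none) (xt := Ext.none) (P1 := 0) (W1 := 536870912) (P2 := 0) (W2 := 536870912) (P3 := 536870912) (W3 := 50465866) (N0 := 3) (En := eng) (mo := mog) (C1 := cd1q0) (C2 := cd6q0) (C3 := pd1)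
    rfl (fun _ => rfl) k0_pm_001

noncomputable def cut_pm_011 : Cut := Cut.of [[⟨0, 0, 0, 67108864⟩, ⟨1, 1, 0, 67108864⟩, ⟨2, 1, 0, 67108864⟩]]

noncomputable def f_pm_011 : ℕ → ℕ → ℕ → ℕ → Bool := onCell 0 536870912 536870912 536870912 536870912 50465866
    (rowB 3 eng mog cd1q0 cd6q1 pd1 1 true true false .pnn 0 1 1 (qsf 0 536870912 536870912 536870912 1) ndB1q0 ndB6q1 pcB1 cut_pm_011 Ext.none)

def k0_pm_011 : ∃ t, chk3 f_pm_011 t 1 2 1 = true :=
  ⟨(a (l 3) (a (l 3) (l 1))), by decide +kernel⟩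

def k1_pm_011 : ∃ t, chk3 f_pm_011 t 2 3 1 = true :=
  ⟨(b (l 3) (a (b (l 3) (a (b (l 3) (a (b (l 3) (l 6)) (b (b (l 3) (a (a (l 3) (l 383493593287)) (b (l 89288325015) (a (l 16759672) (l 16751224))))) (b (a (b (a (l 6) (l 16770392)) (l 6)) (b (a (l 16751504) (l 16743104)) (l 16760160))) (a (l 6) (b (l 16752040) (l 16722944))))))) (b (b (l 3) (a (a (l 3) (b (l 3) (l 74792815959))) (a (b (l 16778192) (l 16740744)) (l 82308941975)))) (b (a (a (b (a (l 16763280) (l 16754720)) (b (l 16746688) (l 16738584))) (b (l 16768064) (l 16725680))) (a (b (l 16724608) (l 16708584)) (l 16741624))) (a (b (a (a (l 16730648) (l 16722224)) (l 16709560)) (a (b (l 16714304) (l 16706216)) (l 16693456))) (a (l 16687184) (l 16712544))))))) (b (a (b (l 3) (a (l 3) (b (l 3) (b (l 16782920) (l 16745848))))) (b (a (l 3) (b (l 3) (l 16736656))) (b (a (l 228337808343) (l 16701176)) (a (l 16756352) (l 16651160))))) (a (b (a (a (b (a (l 16750912) (l 16742016)) (l 16735504)) (b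 (l 16749632) (l 16697600))) (b (a (l 16710664) (l 16692512)) (a (l 16680512) (l 16663152)))) (b (a (b (l 16682920) (l 16667432)) (l 16663280)) (a (b (l 16651928) (l 16636424)) (l 16654528)))) (b (a (b (l 16706344) (l 16636392)) (a (l 16684368) (l 16664784))) (b (a (l 16608496) (l 16573344)) (a (l 16580464) (l 16547384)))))))), by decide +kernel⟩

def k2_pm_011 : ∃ t, chk3 f_pm_011 t 3 3 1 = true :=
  ⟨(b (a (b (l 3) (a (b (l 3) (b (l 3) (a (l 3) (l 16693568)))) (b (a (l 3) (l 131164150919)) (a (b (l 16688552) (l 16646712)) (l 79087548807))))) (b (l 1) (a (b (l 1) (a (l 16579144) (l 1))) (l 1)))) (b (a (a (b (b (a (l 16723480) (l 16654456)) (a (l 16666096) (l 16618584))) (a (b (l 16634664) (l 16607696)) (l 16617160))) (b (a (l 16650568) (l 16564536)) (a (l 16550168) (l 16484880)))) (b (a (a (l 16500952) (l 16459344)) (l 1)) (a (b (l 16436192) (l 16412760)) (l 154114679527)))) (a (a (b (a (b (l 16583640) (l 16560328)) (l 16529888)) (b (l 16623304)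 (a (l 16514024) (l 16478408)))) (b (a (l 16486720) (l 16444648)) (a (l 16531888) (l 16446008)))) (a (b (a (l 16401264) (l 16377560)) (l 16323512)) (b (l 16284560) (l 16215896)))))), by decide +kernel⟩

theorem s3_pm_011 : ∃ t, chk3 f_pm_011 t 1 3 1 = true := ex3_a k1_pm_011 k2_pm_011

theorem s4_pm_011 : ∃ t, chk3 f_pm_011 t 1 1 1 = true := ex3_b k0_pm_011 s3_pm_011

theorem c_pm_011 : CertB 0 536870912 536870912 536870912 536870912 50465866 3 eng mog cd1q0 cd6q1 pd1 true true false .pnn 0 1 1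
    ndB1q0 ndB6q1 pcB1 cut_pm_011 Ext.none :=
  certB1 (fam := true) (s1 := true) (s2 := false) (a := 0) (b := 1) (c := 1) (cn := .pnn) (n1 := ndB1q0) (n2 := ndB6q1) (pc := pcB1) (cut := cut_pm_011) (xt := Ext.none) (P1 := 0) (W1 := 536870912) (P2 := 536870912) (W2 := 536870912) (P3 := 536870912) (W3 := 50465866) (N0 := 3) (En := eng) (mo := mog) (C1 := cd1q0) (C2 := cd6q1) (C3 := pd1)
    rfl (fun _ => rfl) s4_pm_011

noncomputable def cut_pm_012 : Cut := Cut.of [[⟨0, 0, 0, 67108864⟩, ⟨1, 1, 0, 67108864⟩, ⟨2, 1, 0, 67108864⟩]]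

noncomputable def f_pm_012 : ℕ → ℕ → ℕ → ℕ → Bool := onCell 1073741824 536870912 536870912 536870912 536870912 50465866
    (rowB 3 eng mog cd1q0 cd6q1 pd2 2 true true false .pnp 0 1 2 (qsf 0 536870912 536870912 536870912 2) ndB1q0 ndB6q1 pcB2 cut_pm_012 Ext.none)

def k0_pm_012 : ∃ t, chk3 f_pm_012 t 4 1 1 = true :=
  ⟨(b (b (a (a (b (l 16170848) (l 16241992)) (b (l 16123288) (l 16215576))) (b (l 16172560) (l 16355400))) (a (b (a (l 16330808) (l 16321728)) (a (a (l 16511272) (l 16418008)) (l 16501176))) (b (a (l 16252800) (l 16206800)) (a (l 16343888) (l 16275264))))) (a (b (b (a (b (l 16549288) (a (l 16537456) (l 16501760))) (b (l 16423424) (l 16452144))) (a (a (b (l 16571000) (l 16645432)) (b (l 16533192) (l 16563672))) (b (l 16521840) (l 16591152)))) (a (b (b (a (l 16677928) (l 16635688)) (a (a (l 16702040) (l 16700232)) (a (l 16677736) (l 16634616)))) (a (b (b (b (l 16711624) (b (l 16717872) (l 16722016))) (a (l 6) (b (l 16695376) (l 6))))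 (l 6)) (b (b (a (l 16659944) (l 16637032)) (a (l 16696760) (l 16652424))) (b (a (l 6) (b (l 16663816) (l 6))) (l 6))))) (b (a (b (l 16553448) (b (l 16574336) (l 16588656))) (b (l 16514968) (l 16540440))) (b (b (a (l 16603384) (l 16559928)) (a (a (l 16629416) (l 16606776)) (l 16573408))) (a (b (a (l 16665048) (l 16620920)) (b (a (l 6) (l 16631344)) (l 6))) (b (l 16628736) (b (l 16596616) (l 16634528)))))))) (b (b (a (l 16484360) (l 16348192)) (a (b (l 16415472) (l 16438176)) (b (l 16358856) (l 16377296)))) (b (a (b (l 16502640) (a (l 16501400) (l 16464224))) (b (l 16395056) (l 16517376))) (b (a (a (b (l 16518632) (l 16530416)) (l 16484592)) (a (l 16446896) (l 16411424))) (a (b (a (l 16542544) (l 16500008)) (a (b (l 16551560) (l 16557456)) (l 16510672))) (b (a (l 16459864) (l 16422288)) (a (l 16468672) (l 16429240))))))))), by decide +kernel⟩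

def k1_pm_012 : ∃ t, chk3 f_pm_012 t 5 1 1 = true :=
  ⟨(b (b (a (a (a (l 16199232) (l 2)) (l 2)) (l 2)) (a (a (a (b (l 16172768) (l 16241904)) (b (l 16218976) (a (l 16226168) (l 16220544)))) (b (l 16141688) (l 16208736))) (b (l 16171800) (l 16219224)))) (b (a (a (b (a (l 16291792) (a (l 16275728) (l 16270440))) (a (l 16329216) (a (l 16311592) (a (l 16303728) (l 16301520))))) (b (l 16253696) (l 16282592))) (b (l 16246136) (l 16382720))) (a (b (a (a (b (l 16351384) (l 16365200)) (a (l 16338160) (a (l 16328976) (b (l 16320440) (l 16330200))))) (b (l 16297152) (l 16303728))) (a (a (b (l 16378296) (b (l 16387112) (l 16392552))) (b (a (l 16355072) (a (l 16344360) (l 16360416))) (a (l 16364624) (a (l 16352840) (a (l 16347536) (l 16344632)))))) (b (l 16308936) (b (l 16312064) (l 16313512))))) (b (b (l 16256960) (l 16253936)) (b (a (l 16265912) (l 16233736)) (a (l 16346000) (l 16222408))))))), by decide +kernel⟩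

def k2_pm_012 : ∃ t, chk3 f_pm_012 t 3 1 1 = true :=
  ⟨(a (b (b (l 2) (a (b (l 2) (l 16255880)) (l 2))) (b (a (b (l 16263080) (l 16254200)) (b (l 16299976) (l 16280344))) (b (a (b (l 16238112) (l 16223104)) (l 16242832)) (a (b (l 16205272) (a (l 16194192) (l 16177944))) (b (l 16203640) (l 16172216)))))) (b (l 2) (a (b (b (l 2) (l 16318832)) (b (l 16270480) (l 16204032))) (b (l 2) (a (b (l 16308712) (l 16231424)) (b (l 2) (l 16283880))))))), by decide +kernel⟩

theorem s3_pm_012 : ∃ t, chk3 f_pm_012 t 2 1 1 = true := ex3_a k0_pm_012 k1_pm_012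

theorem s4_pm_012 : ∃ t, chk3 f_pm_012 t 1 1 1 = true := ex3_a s3_pm_012 k2_pm_012

theorem c_pm_012 : CertB 0 536870912 536870912 536870912 536870912 50465866 3 eng mog cd1q0 cd6q1 pd2 true true false .pnp 0 1 2
    ndB1q0 ndB6q1 pcB2 cut_pm_012 Ext.none :=
  certB2 (fam := true) (s1 := true) (s2 := false) (a := 0) (b := 1) (c := 2) (cn := .pnp) (n1 := ndB1q0) (n2 := ndB6q1) (pc := pcB2) (cut := cut_pm_012) (xt := Ext.none) (P1 := 0) (W1 := 536870912) (P2 := 536870912) (W2 := 536870912) (P3 := 536870912) (W3 := 50465866) (N0 := 3) (En := eng) (mo := mog) (C1 := cd1q0) (C2 := cd6q1) (C3 := pd2)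
    rfl (fun _ => rfl) s4_pm_012

noncomputable def cut_pm_022 : Cut := Cut.of [[⟨0, 0, 0, 67108864⟩, ⟨1, 1, 0, 67108864⟩, ⟨2, 1, 0, 67108864⟩]]

noncomputable def f_pm_022 : ℕ → ℕ → ℕ → ℕ → Bool := onCell 1073741824 536870912 1073741824 536870912 536870912 50465866
    (rowB 3 eng mog cd1q0 cd6q2 pd2 2 true true false .pp 0 2 2 (qsf 0 536870912 1073741824 536870912 2) ndB1q0 ndB6q2 pcB2 cut_pm_022 Ext.none)

def k0_pm_022 : ∃ t, chk3 f_pm_022 t 4 2 1 = true :=
  ⟨(b (a (b (a (b (l 6) (b (l 6) (l 1))) (b (a (l 6) (a (l 6) (b (l 16603904) (l 16621224)))) (a (b (l 6) (a (l 1) (l 554084133431))) (a (b (l 6) (b (l 6) (l 555694748935))) (b (l 16647408) (b (l 16647616) (l 325377091431))))))) (a (l 1) (b (b (a (l 1) (a (l 1) (l 556768464487))) (l 1)) (l 1)))) (b (a (b (a (b (l 16590640) (l 16608064)) (b (l 16525328) (l 16542904))) (a (b (a (l 16614160) (l 16591768)) (b (l 16613720) (l 16620392))) (b (l 16558904) (l 16594264)))) (b (a (b (l 16482592) (l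 16500336)) (b (l 16441920) (l 16459536))) (a (l 16565976) (l 16483528)))) (a (b (a (b (a (b (l 315176513207) (l 547641619783)) (l 191159335207)) (l 532609188391)) (b (l 16606992) (b (l 163778870423) (l 355978629399)))) (a (l 1) (b (l 519724262247) (l 1)))) (b (a (b (l 16544088) (l 16555344)) (b (l 16503960) (l 16515528))) (a (b (a (l 193843651543) (l 16554712)) (l 509523647991)) (b (l 16525320) (l 184179892151))))))) (a (l 1) (b (a (l 1) (b (a (l 1) (l 520261009495)) (l 1))) (l 1)))), by decide +kernel⟩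

def k1_pm_022 : ∃ t, chk3 f_pm_022 t 5 2 1 = true :=
  ⟨(a (b (b (a (a (b (b (l 16404112) (l 16421080)) (l 16444968)) (a (b (l 16386272) (l 16417520)) (a (b (l 16373912) (l 16404616)) (b (a (l 16368248) (l 16365000)) (a (l 16398696) (l 16395304)))))) (b (a (l 16346752) (l 16317024)) (l 16445432))) (a (a (b (l 16471936) (a (l 16501376) (l 16483280))) (a (b (l 16444784) (l 16465728)) (a (b (l 16431904) (l 16453104)) (a (l 16510912) (b (l 16422480) (l 16443920)))))) (b (l 16428808) (a (l 16424760) (l 16392296))))) (b (a (a (b (a (l 259878655703) (l 129955861911)) (l 1)) (a (b (b (l 16476784) (l 16481520)) (l 1)) (a (b (l 77879248999) (l 1)) (a (b (l 16461712) (l 1)) (b (b (l 16455520) (l 16460920)) (b (l 302291296695) (l 1))))))) (b (a (l 16460648) (l 16407616)) (a (b (l 171294800871) (l 268468387991)) (l 16436216)))) (a (l 1) (b (a (l 1) (l 315176196359)) (l 1))))) (a (b (b (b (l 16276912) (l 16306056)) (b (l 16328488) (l 16347096))) (b (b (l 16362400)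 (l 16370752)) (b (b (l 16391816) (l 16366312)) (l 432213801751)))) (b (b (b (l 16231976) (l 16259840)) (l 16373752)) (b (b (l 16307896) (l 16316344)) (b (l 16315560) (l 16300896)))))), by decide +kernel⟩

def k2_pm_022 : ∃ t, chk3 f_pm_022 t 2 3 1 = true :=
  ⟨(a (l 1) (b (a (l 1) (b (b (l 500396369399) (l 1)) (l 1))) (l 1))), by decide +kernel⟩

def k3_pm_022 : ∃ t, chk3 f_pm_022 t 3 1 1 = true :=
  ⟨(b (a (b (b (a (b (a (l 16198288) (l 16177600)) (l 16230648)) (a (l 16176632) (l 16172664))) (a (b (l 16227984) (l 16241224)) (a (l 16203304) (l 16193200)))) (b (a (a (l 16268200) (l 16234816)) (l 16224920)) (a (b (l 16457072) (l 16234232)) (b (l 16192392) (l 16173192))))) (a (b (b (l 16172928) (l 16182864)) (b (l 16178176) (l 16152728))) (b (a (b (l 16186624) (l 16182312)) (b (l 16222592) (l 16202760))) (b (l 16169568) (l 16130768))))) (a (b (b (a (b (l 145524751095) (l 335576774359)) (b (l 16143648) (l 16102736))) (a (b (l 553009506871) (l 1)) (b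 (l 229276182311) (l 347387719207)))) (a (l 1) (b (a (l 1) (l 371010053655)) (l 1)))) (b (a (b (b (l 16105440) (l 16057688)) (l 16197360)) (b (l 16175352) (l 15939256))) (a (b (b (l 16152864) (l 247530004567)) (a (l 1) (l 353293573975))) (b (l 15931144) (l 157335621271)))))), by decide +kernel⟩

theorem s4_pm_022 : ∃ t, chk3 f_pm_022 t 2 2 1 = true := ex3_a k0_pm_022 k1_pm_022

theorem s5_pm_022 : ∃ t, chk3 f_pm_022 t 2 1 1 = true := ex3_b s4_pm_022 k2_pm_022

theorem s6_pm_022 : ∃ t, chk3 f_pm_022 t 1 1 1 = true := ex3_a s5_pm_022 k3_pm_022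

theorem c_pm_022 : CertB 0 536870912 1073741824 536870912 536870912 50465866 3 eng mog cd1q0 cd6q2 pd2 true true false .pp 0 2 2
    ndB1q0 ndB6q2 pcB2 cut_pm_022 Ext.none :=
  certB2 (fam := true) (s1 := true) (s2 := false) (a := 0) (b := 2) (c := 2) (cn := .pp) (n1 := ndB1q0) (n2 := ndB6q2) (pc := pcB2) (cut := cut_pm_022) (xt := Ext.none) (P1 := 0) (W1 := 536870912) (P2 := 1073741824) (W2 := 536870912) (P3 := 536870912) (W3 := 50465866) (N0 := 3) (En := eng) (mo := mog) (C1 := cd1q0) (C2 := cd6q2) (C3 := pd2)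
    rfl (fun _ => rfl) s6_pm_022

noncomputable def f_pm_023 : ℕ → ℕ → ℕ → ℕ → Bool := onCell 1610612736 536870912 1073741824 536870912 536870912 50465866
    (rowB 3 eng mog cd1q0 cd6q2 pd3 2 true true false .up 0 2 3 (qsf 0 536870912 1073741824 536870912 3) ndB1q0 ndB6q2 pcB3 Cut.none Ext.none)

def k0_pm_023 : ∃ t, chk3 f_pm_023 t 1 1 1 = true :=
  ⟨(a (a (b (a (b (b (a (l 16248136) (l 16369592)) (l 16282560)) (b (l 16224120) (l 16175920))) (b (a (l 163308663559) (l 150961390071)) (b (l 16365680) (l 16270024)))) (b (a (b (l 16101568) (l 15971920)) (b (l 16189616) (l 16143576))) (b (l 16012920) (l 16068488)))) (b (b (a (b (l 2) (l 16582704)) (l 2)) (a (l 16507312) (l 16763584))) (b (b (l 16503456) (l 16465200)) (b (l 16442144) (l 16438632))))) (a (b (a (b (l 2) (l 16682880)) (l 2)) (b (a (l 16645584) (l 16702792)) (b (l 16656368) (l 16641952)))) (b (l 2) (b (a (b (l 2) (l 16729624)) (l 2)) (a (l 16716800) (a (l 16731384) (a (l 16733792) (a (l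 16732120) (l 4))))))))), by decide +kernel⟩

theorem c_pm_023 : CertB 0 536870912 1073741824 536870912 536870912 50465866 3 eng mog cd1q0 cd6q2 pd3 true true false .up 0 2 3
    ndB1q0 ndB6q2 pcB3 Cut.none Ext.none :=
  certB2 (fam := true) (s1 := true) (s2 := false) (a := 0) (b := 2) (c := 3) (cn := .up) (n1 := ndB1q0) (n2 := ndB6q2) (pc := pcB3) (cut := Cut.none) (xt := Ext.none) (P1 := 0) (W1 := 536870912) (P2 := 1073741824) (W2 := 536870912) (P3 := 536870912) (W3 := 50465866) (N0 := 3) (En := eng) (mo := mog) (C1 := cd1q0) (C2 := cd6q2) (C3 := pd3)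
    rfl (fun _ => rfl) k0_pm_023

noncomputable def f_pm_033 : ℕ → ℕ → ℕ → ℕ → Bool := onCell 1610612736 536870912 0 1230186008 536870912 50465866
    (rowB 3 eng mog cd1q0 cd6q3 pd3 2 true true false .pnn 0 3 3 (qsf 0 536870912 0 1230186008 3) ndB1q0 ndB6q3 pcB3 Cut.none Ext.none)

def k0_pm_033 : ∃ t, chk3 f_pm_033 t 1 1 1 = true :=
  ⟨(b (a (l 1) (a (l 1) (b (l 4) (a (b (l 543884241767) (a (l 16763816) (l 16749880))) (a (l 16814768) (l 4)))))) (b (a (b (l 1) (a (l 1) (a (l 1) (l 504692634919)))) (a (b (a (l 1) (l 16912776)) (a (l 319472161527) (l 16940056))) (a (b (a (l 16756000) (l 16745832)) (l 16730888)) (a (b (l 16735112) (l 16732704)) (a (b (l 16728176) (l 16732936)) (b (l 4) (a (l 16730288) (l 231089775079)))))))) (a (b (a (l 1) (b (l 490733526695) (l 16590512))) (a (b (l 483216972919) (l 293700800519)) (b (l 16520032) (l 16463072)))) (a (b (b (l 16695640) (l 16672040)) (b (l 16649416) (l 16637736))) (a (b (l 16714896) (l 16705384)) (a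 (b (l 16725816) (l 16723328)) (b (a (l 16730304) (a (l 16732072) (b (l 16731544) (l 16732808)))) (a (l 16729536) (a (l 16731808) (l 16732696)))))))))), by decide +kernel⟩

theorem c_pm_033 : CertB 0 536870912 0 1230186008 536870912 50465866 3 eng mog cd1q0 cd6q3 pd3 true true false .pnn 0 3 3
    ndB1q0 ndB6q3 pcB3 Cut.none Ext.none :=
  certB2 (fam := true) (s1 := true) (s2 := false) (a := 0) (b := 3) (c := 3) (cn := .pnn) (n1 := ndB1q0) (n2 := ndB6q3) (pc := pcB3) (cut := Cut.none) (xt := Ext.none) (P1 := 0) (W1 := 536870912) (P2 := 0) (W2 := 1230186008) (P3 := 536870912) (W3 := 50465866) (N0 := 3) (En := eng) (mo := mog) (C1 := cd1q0) (C2 := cd6q3) (C3 := pd3)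
    rfl (fun _ => rfl) k0_pm_033

noncomputable def f_pm_101 : ℕ → ℕ → ℕ → ℕ → Bool := onCell 536870912 536870912 536870912 536870912 536870912 50465866
    (rowB 3 eng mog cd1q1 cd6q0 pd1 1 true true false .npn 1 0 1 (qsf 536870912 536870912 0 536870912 1) ndB1q1 ndB6q0 pcB1 Cut.none Ext.none)

def k0_pm_101 : ∃ t, chk3 f_pm_101 t 1 1 1 = true :=
  ⟨(b (a (b (a (l 3) (a (a (l 3) (l 1)) (l 1))) (a (b (a (l 3) (b (l 3) (a (l 3) (l 16752296)))) (a (b (a (l 3) (l 122037505847)) (a (l 148881025735) (l 16731824))) (b (a (l 77477254327) (l 16741608)) (a (l 16729080) (l 16727240))))) (b (a (b (a (l 115595107303) (l 155726176471)) (a (l 16747880) (l 16745616))) (b (l 1) (a (l 16752208) (l 1)))) (a (b (a (l 16738424) (l 16734336)) (l 16809240)) (b (a (b (l 16736272) (l 16728744)) (l 16784768)) (a (l 16721784) (l 16723280))))))) (b (l 1) (a (b (l 1) (a (b (l 1) (l 16744880)) (l 1))) (l 1)))) (a (b (a (b (a (b (a (l 16709376) (l 16707992)) (a (l 16672768)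 (l 16674984))) (b (l 16707544) (l 16700032))) (a (b (a (l 16621536) (l 16629016)) (a (l 16552712) (l 16567080))) (b (a (l 16636208) (l 16644328)) (l 16586256)))) (b (a (b (l 16709984) (l 16688232)) (b (l 16710848) (l 16696120))) (a (l 16720848) (l 16763864)))) (a (b (a (b (a (l 16462328) (l 16484888)) (l 16380112)) (a (l 16458072) (l 16482280))) (a (b (l 16316640) (a (l 16218832) (l 16196632))) (b (l 16296344) (l 16184016)))) (b (a (a (l 16507864) (l 16531672)) (l 16588072)) (a (l 16364600) (b (l 16447624) (l 16329560)))))) (a (a (b (b (b (l 16722192) (l 16702848)) (b (l 16686136) (l 16666096))) (b (l 16613152) (l 16475416))) (b (b (a (l 16733240) (l 1)) (b (l 16704952) (l 16681360))) (b (b (l 16659112) (l 16629288)) (l 16543016)))) (b (b (l 1) (a (b (l 1) (a (l 16699816) (l 1))) (l 1))) (b (a (a (l 16663768) (l 16732856)) (b (l 1) (l 16750320))) (a (b (l 16624616) (l 16565544)) (l 77343160231))))))), by decide +kernel⟩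

theorem c_pm_101 : CertB 536870912 536870912 0 536870912 536870912 50465866 3 eng mog cd1q1 cd6q0 pd1 true true false .npn 1 0 1
    ndB1q1 ndB6q0 pcB1 Cut.none Ext.none :=
  certB1 (fam := true) (s1 := true) (s2 := false) (a := 1) (b := 0) (c := 1) (cn := .npn) (n1 := ndB1q1) (n2 := ndB6q0) (pc := pcB1) (cut := Cut.none) (xt := Ext.none) (P1 := 536870912) (W1 := 536870912) (P2 := 0) (W2 := 536870912) (P3 := 536870912) (W3 := 50465866) (N0 := 3) (En := eng) (mo := mog) (C1 := cd1q1) (C2 := cd6q0) (C3 := pd1)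
    rfl (fun _ => rfl) k0_pm_101

noncomputable def f_pm_102 : ℕ → ℕ → ℕ → ℕ → Bool := onCell 536870912 536870912 1073741824 536870912 536870912 50465866
    (rowB 3 eng mog cd1q1 cd6q0 pd2 1 true true false .npp 1 0 2 (qsf 536870912 536870912 0 536870912 2) ndB1q1 ndB6q0 pcB2 Cut.none Ext.none)

def k0_pm_102 : ∃ t, chk3 f_pm_102 t 1 1 1 = true :=
  ⟨(a (b (b (a (b (a (b (a (l 16181784) (l 16163320)) (l 16273616)) (b (l 16161552) (l 16154464))) (a (b (l 16270656) (l 2)) (a (l 16148488) (l 16151176)))) (b (a (a (l 16167912) (l 16188840)) (l 16312840)) (a (a (l 16158144) (l 16221592)) (l 16312568)))) (a (b (a (l 2) (b (b (l 16140664) (l 2)) (l 2))) (l 2)) (b (a (b (b (l 16210736) (l 16282256)) (l 16240296)) (b (l 16347176) (l 16378120))) (a (l 16440072) (l 16448784))))) (a (l 2) (b (b (a (l 2) (l 16553408)) (l 2)) (l 2)))) (b (b (a (b (a (l 16379704) (l 16467376)) (a (l 16423424) (l 16514392))) (b (a (l 16540304) (b (l 16598088) (l 16624448))) (a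 (l 16591736) (l 16666024)))) (a (b (a (l 16472496) (l 16562864)) (a (l 16551296) (l 16633560))) (b (a (l 16639384) (l 16706296)) (a (l 16702576) (l 16761232))))) (b (a (b (a (l 16641584) (l 16712032)) (a (l 16724016) (l 16782120))) (b (a (l 16769440) (l 16816264)) (a (l 16828312) (l 16863608)))) (a (b (a (l 2) (l 16835000)) (l 2)) (b (a (l 16871160) (l 16898616)) (a (l 16897496) (l 16914288))))))), by decide +kernel⟩

theorem c_pm_102 : CertB 536870912 536870912 0 536870912 536870912 50465866 3 eng mog cd1q1 cd6q0 pd2 true true false .npp 1 0 2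
    ndB1q1 ndB6q0 pcB2 Cut.none Ext.none :=
  certB1 (fam := true) (s1 := true) (s2 := false) (a := 1) (b := 0) (c := 2) (cn := .npp) (n1 := ndB1q1) (n2 := ndB6q0) (pc := pcB2) (cut := Cut.none) (xt := Ext.none) (P1 := 536870912) (W1 := 536870912) (P2 := 0) (W2 := 536870912) (P3 := 536870912) (W3 := 50465866) (N0 := 3) (En := eng) (mo := mog) (C1 := cd1q1) (C2 := cd6q0) (C3 := pd2)
    rfl (fun _ => rfl) k0_pm_102

noncomputable def f_pm_112 : ℕ → ℕ → ℕ → ℕ → Bool := onCell 536870912 536870912 1073741824 536870912 536870912 50465866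
    (rowB 3 eng mog cd1q1 cd6q1 pd2 1 true true false .dn 1 1 2 (qsf 536870912 536870912 536870912 536870912 2) ndB1q1 ndB6q1 pcB2 Cut.none Ext.none)

def k0_pm_112 : ∃ t, chk3 f_pm_112 t 1 1 1 = true :=
  ⟨(a (b (b (a (b (a (a (l 16179328) (l 16160504)) (l 178810600679)) (a (a (l 16173448) (l 16153824)) (l 16145992))) (b (l 1) (a (l 16193192) (l 1)))) (a (b (b (b (a (l 16155936) (l 16139312)) (a (l 16158848) (l 16139792))) (a (l 16178632) (l 16167096))) (a (l 16251208) (l 16266912))) (b (a (b (b (l 16211920) (l 16220464)) (l 16241784)) (l 16363888)) (a (l 16313440) (l 16449944))))) (b (a (b (a (l 16313784) (l 16364624)) (a (l 16350824) (l 16432528))) (b (l 16494016) (l 16598064))) (b (a (a (l 16365232) (l 16482024)) (l 16679560)) (a (b (l 16439456) (a (l 16395304) (l 16589472))) (b (l 16728512) (l 16829544)))))) (b (b (l 1) (a (b (l 1) (l 16594992)) (l 1))) (b (a (b (l 16678272) (l 16754488)) (b (l 1) (l 16846096))) (b (a (l 16812312) (l 16885160))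 (a (b (l 16844264) (l 16863168)) (l 16908360)))))), by decide +kernel⟩

theorem c_pm_112 : CertB 536870912 536870912 536870912 536870912 536870912 50465866 3 eng mog cd1q1 cd6q1 pd2 true true false .dn 1 1 2
    ndB1q1 ndB6q1 pcB2 Cut.none Ext.none :=
  certB1 (fam := true) (s1 := true) (s2 := false) (a := 1) (b := 1) (c := 2) (cn := .dn) (n1 := ndB1q1) (n2 := ndB6q1) (pc := pcB2) (cut := Cut.none) (xt := Ext.none) (P1 := 536870912) (W1 := 536870912) (P2 := 536870912) (W2 := 536870912) (P3 := 536870912) (W3 := 50465866) (N0 := 3) (En := eng) (mo := mog) (C1 := cd1q1) (C2 := cd6q1) (C3 := pd2)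
    rfl (fun _ => rfl) k0_pm_112

noncomputable def f_pm_113 : ℕ → ℕ → ℕ → ℕ → Bool := onCell 1610612736 536870912 536870912 536870912 536870912 50465866
    (rowB 3 eng mog cd1q1 cd6q1 pd3 2 true true false .nn 1 1 3 (qsf 536870912 536870912 536870912 536870912 3) ndB1q1 ndB6q1 pcB3 Cut.none Ext.none)

def k0_pm_113 : ∃ t, chk3 f_pm_113 t 1 1 1 = true :=
  ⟨(a (a (b (a (b (a (l 17055096) (l 16918240)) (a (l 16890456) (l 16903376))) (b (l 17033224) (b (l 16917720) (l 16902952)))) (a (b (a (l 16798176) (l 16857992)) (a (b (l 16629440) (l 16437296)) (b (l 16758768) (l 16618640)))) (b (a (l 16882936) (l 16886472)) (b (l 16843784) (a (l 16736776) (l 16790576)))))) (b (b (a (b (l 2) (l 16851992)) (l 2)) (a (l 16887864) (l 16823640))) (a (b (a (l 16890000) (l 16896608)) (b (l 16888392) (l 16850080))) (b (l 16886640) (a (l 16894208) (l 16900872)))))) (a (b (l 4) (a (b (l 16835104) (l 16893152)) (b (l 4) (l 16955864)))) (b (l 2) (b (l 4) (l 4))))), by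 decide +kernel⟩

theorem c_pm_113 : CertB 536870912 536870912 536870912 536870912 536870912 50465866 3 eng mog cd1q1 cd6q1 pd3 true true false .nn 1 1 3
    ndB1q1 ndB6q1 pcB3 Cut.none Ext.none :=
  certB2 (fam := true) (s1 := true) (s2 := false) (a := 1) (b := 1) (c := 3) (cn := .nn) (n1 := ndB1q1) (n2 := ndB6q1) (pc := pcB3) (cut := Cut.none) (xt := Ext.none) (P1 := 536870912) (W1 := 536870912) (P2 := 536870912) (W2 := 536870912) (P3 := 536870912) (W3 := 50465866) (N0 := 3) (En := eng) (mo := mog) (C1 := cd1q1) (C2 := cd6q1) (C3 := pd3)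
    rfl (fun _ => rfl) k0_pm_113

noncomputable def f_pm_123 : ℕ → ℕ → ℕ → ℕ → Bool := onCell 1610612736 536870912 1073741824 536870912 536870912 50465866
    (rowB 3 eng mog cd1q1 cd6q2 pd3 2 true true false .npn 1 2 3 (qsf 536870912 536870912 1073741824 536870912 3) ndB1q1 ndB6q2 pcB3 Cut.none Ext.none)

def k0_pm_123 : ∃ t, chk3 f_pm_123 t 1 1 1 = true :=
  ⟨(a (a (b (a (b (b (a (l 16307576) (l 16443320)) (l 221223649031)) (l 1)) (b (b (a (l 16587920) (l 16673152)) (l 16485352)) (b (l 16417168) (l 1)))) (l 1)) (b (b (a (b (l 16767728) (l 16658824)) (a (l 16780760) (l 16817024))) (b (a (l 16569488) (l 16685248)) (l 246457395479))) (b (b (l 16541832) (l 1)) (l 1)))) (a (b (b (a (b (l 16882656) (l 16825216)) (a (l 16855400) (l 16844552))) (a (l 16818728) (a (l 16775696) (l 16788536)))) (b (a (l 16722400) (l 16802200)) (b (l 16672432) (l 1)))) (b (b (a (a (l 16818344) (l 4)) (l 4)) (a (a (l 16783696) (l 16771384)) (l 4))) (b (a (b (l 16759624) (l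 16745432)) (a (l 16748720) (l 4))) (a (l 16722568) (a (l 16737224) (a (l 16740408) (a (l 16738952) (l 4))))))))), by decide +kernel⟩

theorem c_pm_123 : CertB 536870912 536870912 1073741824 536870912 536870912 50465866 3 eng mog cd1q1 cd6q2 pd3 true true false .npn 1 2 3
    ndB1q1 ndB6q2 pcB3 Cut.none Ext.none :=
  certB2 (fam := true) (s1 := true) (s2 := false) (a := 1) (b := 2) (c := 3) (cn := .npn) (n1 := ndB1q1) (n2 := ndB6q2) (pc := pcB3) (cut := Cut.none) (xt := Ext.none) (P1 := 536870912) (W1 := 536870912) (P2 := 1073741824) (W2 := 536870912) (P3 := 536870912) (W3 := 50465866) (N0 := 3) (En := eng) (mo := mog) (C1 := cd1q1) (C2 := cd6q2) (C3 := pd3)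
    rfl (fun _ => rfl) k0_pm_123

noncomputable def f_pm_133 : ℕ → ℕ → ℕ → ℕ → Bool := onCell 536870912 536870912 0 1230186008 536870912 50465866
    (rowB 3 eng mog cd1q1 cd6q3 pd3 0 true true false .dn 1 3 3 (qsf 536870912 536870912 0 1230186008 3) ndB1q1 ndB6q3 pcB3 Cut.none Ext.none)

def k0_pm_133 : ∃ t, chk3 f_pm_133 t 1 1 1 = true :=
  ⟨(b (l 2) (b (l 2) (a (b (l 2) (a (l 4) (l 2))) (l 2)))), by decide +kernel⟩

theorem c_pm_133 : CertB 536870912 536870912 0 1230186008 536870912 50465866 3 eng mog cd1q1 cd6q3 pd3 true true false .dn 1 3 3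
    ndB1q1 ndB6q3 pcB3 Cut.none Ext.none :=
  certB0 (fam := true) (s1 := true) (s2 := false) (a := 1) (b := 3) (c := 3) (cn := .dn) (n1 := ndB1q1) (n2 := ndB6q3) (pc := pcB3) (cut := Cut.none) (xt := Ext.none) (P1 := 536870912) (W1 := 536870912) (P2 := 0) (W2 := 1230186008) (P3 := 536870912) (W3 := 50465866) (N0 := 3) (En := eng) (mo := mog) (C1 := cd1q1) (C2 := cd6q3) (C3 := pd3)
    rfl k0_pm_133

noncomputable def f_pm_202_a : ℕ → ℕ → ℕ → ℕ → Bool := onCell 0 536870912 0 536870912 536870912 50465866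
    (rowB 3 eng mog cd1q2a cd6q0 pd2 0 true true false .pp 2 0 2 (qsf 0 536870912 0 536870912 2) ndB1q2a ndB6q0 pcB2 Cut.none Ext.none)

def k0_pm_202_a : ∃ t, chk3 f_pm_202_a t 1 1 1 = true :=
  ⟨(a (b (l 4) (l 4)) (b (b (a (b (a (b (l 16634904) (l 16648952)) (b (l 16627664) (l 16644712))) (a (l 16680008) (b (l 16669216) (l 16700880)))) (b (a (b (b (l 16639224) (l 16627640)) (l 16645352)) (b (a (b (a (l 16617584) (l 16616368)) (l 16628112)) (a (b (b (a (l 16614760) (l 16614184)) (l 16619944)) (l 16633208)) (b (a (b (b (l 16612784) (l 16615984)) (l 16622544)) (b (a (l 16615016) (l 16619408)) (l 16625968))) (l 16471552)))) (a (l 16655104) (a (l 16663592) (l 16653136))))) (a (b (l 16679648) (l 16723280)) (a (l 16704888) (b (l 16676992) (l 16693128)))))) (a (a (l 4) (b (l 16754448) (l 16769656))) (b (a (l 16752112) (a (l 16736400) (l 16929456))) (a (l 16775520) (l 16763544))))) (a (l 4) (a (b (b (l 16795136) (l 16808512)) (l 4)) (b (b (l 16793008)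 (l 16817616)) (b (l 16835040) (l 16843600))))))), by decide +kernel⟩

theorem c_pm_202_a : CertB 0 536870912 0 536870912 536870912 50465866 3 eng mog cd1q2a cd6q0 pd2 true true false .pp 2 0 2
    ndB1q2a ndB6q0 pcB2 Cut.none Ext.none :=
  certB0 (fam := true) (s1 := true) (s2 := false) (a := 2) (b := 0) (c := 2) (cn := .pp) (n1 := ndB1q2a) (n2 := ndB6q0) (pc := pcB2) (cut := Cut.none) (xt := Ext.none) (P1 := 0) (W1 := 536870912) (P2 := 0) (W2 := 536870912) (P3 := 536870912) (W3 := 50465866) (N0 := 3) (En := eng) (mo := mog) (C1 := cd1q2a) (C2 := cd6q0) (C3 := pd2)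
    rfl k0_pm_202_a

noncomputable def f_pm_202_b : ℕ → ℕ → ℕ → ℕ → Bool := onCell 1239849684 370763052 0 536870912 536870912 50465866
    (rowB 3 eng mog cd1q2b cd6q0 pd2 0 true true false .pp 2 0 2 (qsf 1239849684 370763052 0 536870912 2) ndB1q2b ndB6q0 pcB2 Cut.none Ext.none)

def k0_pm_202_b : ∃ t, chk3 f_pm_202_b t 1 1 1 = true :=
  ⟨(l 4), by decide +kernel⟩

theorem c_pm_202_b : CertB 1239849684 370763052 0 536870912 536870912 50465866 3 eng mog cd1q2b cd6q0 pd2 true true false .pp 2 0 2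
    ndB1q2b ndB6q0 pcB2 Cut.none Ext.none :=
  certB0 (fam := true) (s1 := true) (s2 := false) (a := 2) (b := 0) (c := 2) (cn := .pp) (n1 := ndB1q2b) (n2 := ndB6q0) (pc := pcB2) (cut := Cut.none) (xt := Ext.none) (P1 := 1239849684) (W1 := 370763052) (P2 := 0) (W2 := 536870912) (P3 := 536870912) (W3 := 50465866) (N0 := 3) (En := eng) (mo := mog) (C1 := cd1q2b) (C2 := cd6q0) (C3 := pd2)
    rfl k0_pm_202_b

noncomputable def f_pm_203_a : ℕ → ℕ → ℕ → ℕ → Bool := onCell 0 536870912 1610612736 536870912 536870912 50465866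
    (rowB 3 eng mog cd1q2a cd6q0 pd3 1 true true false .up 2 0 3 (qsf 0 536870912 0 536870912 3) ndB1q2a ndB6q0 pcB3 Cut.none Ext.none)

def k0_pm_203_a : ∃ t, chk3 f_pm_203_a t 1 1 1 = true :=
  ⟨(a (l 4) (b (l 4) (l 2))), by decide +kernel⟩

theorem c_pm_203_a : CertB 0 536870912 0 536870912 536870912 50465866 3 eng mog cd1q2a cd6q0 pd3 true true false .up 2 0 3
    ndB1q2a ndB6q0 pcB3 Cut.none Ext.none :=
  certB1 (fam := true) (s1 := true) (s2 := false) (a := 2) (b := 0) (c := 3) (cn := .up) (n1 := ndB1q2a) (n2 := ndB6q0) (pc := pcB3) (cut := Cut.none) (xt := Ext.none) (P1 := 0) (W1 := 536870912) (P2 := 0) (W2 := 536870912) (P3 := 536870912) (W3 := 50465866) (N0 := 3) (En := eng) (mo := mog) (C1 := cd1q2a) (C2 := cd6q0) (C3 := pd3)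
    rfl (fun _ => rfl) k0_pm_203_a

noncomputable def f_pm_203_b : ℕ → ℕ → ℕ → ℕ → Bool := onCell 1239849684 370763052 0 536870912 536870912 50465866
    (rowB 3 eng mog cd1q2b cd6q0 pd3 0 true true false .up 2 0 3 (qsf 1239849684 370763052 0 536870912 3) ndB1q2b ndB6q0 pcB3 Cut.none Ext.none)

def k0_pm_203_b : ∃ t, chk3 f_pm_203_b t 1 1 1 = true :=
  ⟨(l 4), by decide +kernel⟩

theorem c_pm_203_b : CertB 1239849684 370763052 0 536870912 536870912 50465866 3 eng mog cd1q2b cd6q0 pd3 true true false .up 2 0 3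
    ndB1q2b ndB6q0 pcB3 Cut.none Ext.none :=
  certB0 (fam := true) (s1 := true) (s2 := false) (a := 2) (b := 0) (c := 3) (cn := .up) (n1 := ndB1q2b) (n2 := ndB6q0) (pc := pcB3) (cut := Cut.none) (xt := Ext.none) (P1 := 1239849684) (W1 := 370763052) (P2 := 0) (W2 := 536870912) (P3 := 536870912) (W3 := 50465866) (N0 := 3) (En := eng) (mo := mog) (C1 := cd1q2b) (C2 := cd6q0) (C3 := pd3)
    rfl k0_pm_203_b

noncomputable def f_pm_213_a : ℕ → ℕ → ℕ → ℕ → Bool := onCell 0 536870912 536870912 536870912 536870912 50465866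
    (rowB 3 eng mog cd1q2a cd6q1 pd3 0 true true false .pnn 2 1 3 (qsf 0 536870912 536870912 536870912 3) ndB1q2a ndB6q1 pcB3 Cut.none Ext.none)

def k0_pm_213_a : ∃ t, chk3 f_pm_213_a t 1 1 1 = true :=
  ⟨(a (l 4) (b (l 4) (l 4))), by decide +kernel⟩

theorem c_pm_213_a : CertB 0 536870912 536870912 536870912 536870912 50465866 3 eng mog cd1q2a cd6q1 pd3 true true false .pnn 2 1 3
    ndB1q2a ndB6q1 pcB3 Cut.none Ext.none :=
  certB0 (fam := true) (s1 := true) (s2 := false) (a := 2) (b := 1) (c := 3) (cn := .pnn) (n1 := ndB1q2a) (n2 := ndB6q1) (pc := pcB3) (cut := Cut.none) (xt := Ext.none) (P1 := 0) (W1 := 536870912) (P2 := 536870912) (W2 := 536870912) (P3 := 536870912) (W3 := 50465866) (N0 := 3) (En := eng) (mo := mog) (C1 := cd1q2a) (C2 := cd6q1) (C3 := pd3)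
    rfl k0_pm_213_a

noncomputable def f_pm_213_b : ℕ → ℕ → ℕ → ℕ → Bool := onCell 1239849684 370763052 536870912 536870912 536870912 50465866
    (rowB 3 eng mog cd1q2b cd6q1 pd3 0 true true false .pnn 2 1 3 (qsf 1239849684 370763052 536870912 536870912 3) ndB1q2b ndB6q1 pcB3 Cut.none Ext.none)

def k0_pm_213_b : ∃ t, chk3 f_pm_213_b t 1 1 1 = true :=
  ⟨(l 4), by decide +kernel⟩

theorem c_pm_213_b : CertB 1239849684 370763052 536870912 536870912 536870912 50465866 3 eng mog cd1q2b cd6q1 pd3 true true false .pnn 2 1 3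
    ndB1q2b ndB6q1 pcB3 Cut.none Ext.none :=
  certB0 (fam := true) (s1 := true) (s2 := false) (a := 2) (b := 1) (c := 3) (cn := .pnn) (n1 := ndB1q2b) (n2 := ndB6q1) (pc := pcB3) (cut := Cut.none) (xt := Ext.none) (P1 := 1239849684) (W1 := 370763052) (P2 := 536870912) (W2 := 536870912) (P3 := 536870912) (W3 := 50465866) (N0 := 3) (En := eng) (mo := mog) (C1 := cd1q2b) (C2 := cd6q1) (C3 := pd3)
    rfl k0_pm_213_b

noncomputable def f_pm_303 : ℕ → ℕ → ℕ → ℕ → Bool := onCell 1610612736 536870912 0 536870912 536870912 50465866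
    (rowB 3 eng mog cd1q3 cd6q0 pd3 0 true true false .npn 3 0 3 (qsf 1610612736 536870912 0 536870912 3) ndB1q3 ndB6q0 pcB3 Cut.none Ext.none)

def k0_pm_303 : ∃ t, chk3 f_pm_303 t 1 1 1 = true :=
  ⟨(l 4), by decide +kernel⟩

theorem c_pm_303 : CertB 1610612736 536870912 0 536870912 536870912 50465866 3 eng mog cd1q3 cd6q0 pd3 true true false .npn 3 0 3
    ndB1q3 ndB6q0 pcB3 Cut.none Ext.none :=
  certB0 (fam := true) (s1 := true) (s2 := false) (a := 3) (b := 0) (c := 3) (cn := .npn) (n1 := ndB1q3) (n2 := ndB6q0) (pc := pcB3) (cut := Cut.none) (xt := Ext.none) (P1 := 1610612736) (W1 := 536870912) (P2 := 0) (W2 := 536870912) (P3 := 536870912) (W3 := 50465866) (N0 := 3) (En := eng) (mo := mog) (C1 := cd1q3) (C2 := cd6q0) (C3 := pd3)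
    rfl k0_pm_303

noncomputable def f_pm_313 : ℕ → ℕ → ℕ → ℕ → Bool := onCell 1610612736 536870912 536870912 536870912 536870912 50465866
    (rowB 3 eng mog cd1q3 cd6q1 pd3 0 true true false .dn 3 1 3 (qsf 1610612736 536870912 536870912 536870912 3) ndB1q3 ndB6q1 pcB3 Cut.none Ext.none)

def k0_pm_313 : ∃ t, chk3 f_pm_313 t 1 1 1 = true :=
  ⟨(l 4), by decide +kernel⟩

theorem c_pm_313 : CertB 1610612736 536870912 536870912 536870912 536870912 50465866 3 eng mog cd1q3 cd6q1 pd3 true true false .dn 3 1 3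
    ndB1q3 ndB6q1 pcB3 Cut.none Ext.none :=
  certB0 (fam := true) (s1 := true) (s2 := false) (a := 3) (b := 1) (c := 3) (cn := .dn) (n1 := ndB1q3) (n2 := ndB6q1) (pc := pcB3) (cut := Cut.none) (xt := Ext.none) (P1 := 1610612736) (W1 := 536870912) (P2 := 536870912) (W2 := 536870912) (P3 := 536870912) (W3 := 50465866) (N0 := 3) (En := eng) (mo := mog) (C1 := cd1q3) (C2 := cd6q1) (C3 := pd3)
    rfl k0_pm_313

noncomputable def f_mm_001 : ℕ → ℕ → ℕ → ℕ → Bool := onCell 0 536870912 0 536870912 536870912 50465866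
    (rowB 3 eng mog cd1q0 cd6q0 pd1 0 true false false .up 0 0 1 (qsf 0 536870912 0 536870912 1) ndB1q0 ndB6q0 pcB1 Cut.none Ext.none)

def k0_mm_001 : ∃ t, chk3 f_mm_001 t 1 1 1 = true :=
  ⟨(l 4), by decide +kernel⟩

theorem c_mm_001 : CertB 0 536870912 0 536870912 536870912 50465866 3 eng mog cd1q0 cd6q0 pd1 true false false .up 0 0 1
    ndB1q0 ndB6q0 pcB1 Cut.none Ext.none :=
  certB0 (fam := true) (s1 := false) (s2 := false) (a := 0) (b := 0) (c := 1) (cn := .up) (n1 := ndB1q0) (n2 := ndB6q0) (pc := pcB1) (cut := Cut.none) (xt := Ext.none) (P1 := 0) (W1 := 536870912) (P2 := 0) (W2 := 536870912) (P3 := 536870912) (W3 := 50465866) (N0 := 3) (En := eng) (mo := mog) (C1 := cd1q0) (C2 := cd6q0) (C3 := pd1)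
    rfl k0_mm_001

noncomputable def f_mm_011 : ℕ → ℕ → ℕ → ℕ → Bool := onCell 0 536870912 536870912 536870912 536870912 50465866
    (rowB 3 eng mog cd1q0 cd6q1 pd1 0 true false false .pnn 0 1 1 (qsf 0 536870912 536870912 536870912 1) ndB1q0 ndB6q1 pcB1 Cut.none Ext.none)

def k0_mm_011 : ∃ t, chk3 f_mm_011 t 1 1 1 = true :=
  ⟨(l 4), by decide +kernel⟩

theorem c_mm_011 : CertB 0 536870912 536870912 536870912 536870912 50465866 3 eng mog cd1q0 cd6q1 pd1 true false false .pnn 0 1 1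
    ndB1q0 ndB6q1 pcB1 Cut.none Ext.none :=
  certB0 (fam := true) (s1 := false) (s2 := false) (a := 0) (b := 1) (c := 1) (cn := .pnn) (n1 := ndB1q0) (n2 := ndB6q1) (pc := pcB1) (cut := Cut.none) (xt := Ext.none) (P1 := 0) (W1 := 536870912) (P2 := 536870912) (W2 := 536870912) (P3 := 536870912) (W3 := 50465866) (N0 := 3) (En := eng) (mo := mog) (C1 := cd1q0) (C2 := cd6q1) (C3 := pd1)
    rfl k0_mm_011

noncomputable def f_mm_012 : ℕ → ℕ → ℕ → ℕ → Bool := onCell 0 536870912 536870912 536870912 536870912 50465866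
    (rowB 3 eng mog cd1q0 cd6q1 pd2 0 true false false .pnp 0 1 2 (qsf 0 536870912 536870912 536870912 2) ndB1q0 ndB6q1 pcB2 Cut.none Ext.none)

def k0_mm_012 : ∃ t, chk3 f_mm_012 t 1 1 1 = true :=
  ⟨(l 4), by decide +kernel⟩

theorem c_mm_012 : CertB 0 536870912 536870912 536870912 536870912 50465866 3 eng mog cd1q0 cd6q1 pd2 true false false .pnp 0 1 2
    ndB1q0 ndB6q1 pcB2 Cut.none Ext.none :=
  certB0 (fam := true) (s1 := false) (s2 := false) (a := 0) (b := 1) (c := 2) (cn := .pnp) (n1 := ndB1q0) (n2 := ndB6q1) (pc := pcB2) (cut := Cut.none) (xt := Ext.none) (P1 := 0) (W1 := 536870912) (P2 := 536870912) (W2 := 536870912) (P3 := 536870912) (W3 := 50465866) (N0 := 3) (En := eng) (mo := mog) (C1 := cd1q0) (C2 := cd6q1) (C3 := pd2)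
    rfl k0_mm_012

noncomputable def f_mm_022 : ℕ → ℕ → ℕ → ℕ → Bool := onCell 0 536870912 1073741824 536870912 536870912 50465866
    (rowB 3 eng mog cd1q0 cd6q2 pd2 0 true false false .pp 0 2 2 (qsf 0 536870912 1073741824 536870912 2) ndB1q0 ndB6q2 pcB2 Cut.none Ext.none)

def k0_mm_022 : ∃ t, chk3 f_mm_022 t 1 1 1 = true :=
  ⟨(l 4), by decide +kernel⟩

theorem c_mm_022 : CertB 0 536870912 1073741824 536870912 536870912 50465866 3 eng mog cd1q0 cd6q2 pd2 true false false .pp 0 2 2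
    ndB1q0 ndB6q2 pcB2 Cut.none Ext.none :=
  certB0 (fam := true) (s1 := false) (s2 := false) (a := 0) (b := 2) (c := 2) (cn := .pp) (n1 := ndB1q0) (n2 := ndB6q2) (pc := pcB2) (cut := Cut.none) (xt := Ext.none) (P1 := 0) (W1 := 536870912) (P2 := 1073741824) (W2 := 536870912) (P3 := 536870912) (W3 := 50465866) (N0 := 3) (En := eng) (mo := mog) (C1 := cd1q0) (C2 := cd6q2) (C3 := pd2)
    rfl k0_mm_022

noncomputable def f_mm_023 : ℕ → ℕ → ℕ → ℕ → Bool := onCell 0 536870912 1073741824 536870912 536870912 50465866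
    (rowB 3 eng mog cd1q0 cd6q2 pd3 0 true false false .up 0 2 3 (qsf 0 536870912 1073741824 536870912 3) ndB1q0 ndB6q2 pcB3 Cut.none Ext.none)

def k0_mm_023 : ∃ t, chk3 f_mm_023 t 1 1 1 = true :=
  ⟨(l 4), by decide +kernel⟩

theorem c_mm_023 : CertB 0 536870912 1073741824 536870912 536870912 50465866 3 eng mog cd1q0 cd6q2 pd3 true false false .up 0 2 3
    ndB1q0 ndB6q2 pcB3 Cut.none Ext.none :=
  certB0 (fam := true) (s1 := false) (s2 := false) (a := 0) (b := 2) (c := 3) (cn := .up) (n1 := ndB1q0) (n2 := ndB6q2) (pc := pcB3) (cut := Cut.none) (xt := Ext.none) (P1 := 0) (W1 := 536870912) (P2 := 1073741824) (W2 := 536870912) (P3 := 536870912) (W3 := 50465866) (N0 := 3) (En := eng) (mo := mog) (C1 := cd1q0) (C2 := cd6q2) (C3 := pd3)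
    rfl k0_mm_023

noncomputable def f_mm_033 : ℕ → ℕ → ℕ → ℕ → Bool := onCell 0 536870912 0 1230186008 536870912 50465866
    (rowB 3 eng mog cd1q0 cd6q3 pd3 0 true false false .pnn 0 3 3 (qsf 0 536870912 0 1230186008 3) ndB1q0 ndB6q3 pcB3 Cut.none Ext.none)

def k0_mm_033 : ∃ t, chk3 f_mm_033 t 1 1 1 = true :=
  ⟨(l 4), by decide +kernel⟩

theorem c_mm_033 : CertB 0 536870912 0 1230186008 536870912 50465866 3 eng mog cd1q0 cd6q3 pd3 true false false .pnn 0 3 3
    ndB1q0 ndB6q3 pcB3 Cut.none Ext.none :=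
  certB0 (fam := true) (s1 := false) (s2 := false) (a := 0) (b := 3) (c := 3) (cn := .pnn) (n1 := ndB1q0) (n2 := ndB6q3) (pc := pcB3) (cut := Cut.none) (xt := Ext.none) (P1 := 0) (W1 := 536870912) (P2 := 0) (W2 := 1230186008) (P3 := 536870912) (W3 := 50465866) (N0 := 3) (En := eng) (mo := mog) (C1 := cd1q0) (C2 := cd6q3) (C3 := pd3)
    rfl k0_mm_033

noncomputable def f_mm_101 : ℕ → ℕ → ℕ → ℕ → Bool := onCell 536870912 536870912 0 536870912 536870912 50465866
    (rowB 3 eng mog cd1q1 cd6q0 pd1 0 true false false .npn 1 0 1 (qsf 536870912 536870912 0 536870912 1) ndB1q1 ndB6q0 pcB1 Cut.none Ext.none)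

def k0_mm_101 : ∃ t, chk3 f_mm_101 t 1 1 1 = true :=
  ⟨(l 4), by decide +kernel⟩

theorem c_mm_101 : CertB 536870912 536870912 0 536870912 536870912 50465866 3 eng mog cd1q1 cd6q0 pd1 true false false .npn 1 0 1
    ndB1q1 ndB6q0 pcB1 Cut.none Ext.none :=
  certB0 (fam := true) (s1 := false) (s2 := false) (a := 1) (b := 0) (c := 1) (cn := .npn) (n1 := ndB1q1) (n2 := ndB6q0) (pc := pcB1) (cut := Cut.none) (xt := Ext.none) (P1 := 536870912) (W1 := 536870912) (P2 := 0) (W2 := 536870912) (P3 := 536870912) (W3 := 50465866) (N0 := 3) (En := eng) (mo := mog) (C1 := cd1q1) (C2 := cd6q0) (C3 := pd1)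
    rfl k0_mm_101

noncomputable def f_mm_102 : ℕ → ℕ → ℕ → ℕ → Bool := onCell 536870912 536870912 0 536870912 536870912 50465866
    (rowB 3 eng mog cd1q1 cd6q0 pd2 0 true false false .npp 1 0 2 (qsf 536870912 536870912 0 536870912 2) ndB1q1 ndB6q0 pcB2 Cut.none Ext.none)

def k0_mm_102 : ∃ t, chk3 f_mm_102 t 1 1 1 = true :=
  ⟨(l 4), by decide +kernel⟩

theorem c_mm_102 : CertB 536870912 536870912 0 536870912 536870912 50465866 3 eng mog cd1q1 cd6q0 pd2 true false false .npp 1 0 2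
    ndB1q1 ndB6q0 pcB2 Cut.none Ext.none :=
  certB0 (fam := true) (s1 := false) (s2 := false) (a := 1) (b := 0) (c := 2) (cn := .npp) (n1 := ndB1q1) (n2 := ndB6q0) (pc := pcB2) (cut := Cut.none) (xt := Ext.none) (P1 := 536870912) (W1 := 536870912) (P2 := 0) (W2 := 536870912) (P3 := 536870912) (W3 := 50465866) (N0 := 3) (En := eng) (mo := mog) (C1 := cd1q1) (C2 := cd6q0) (C3 := pd2)
    rfl k0_mm_102

noncomputable def f_mm_112 : ℕ → ℕ → ℕ → ℕ → Bool := onCell 536870912 536870912 536870912 536870912 536870912 50465866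
    (rowB 3 eng mog cd1q1 cd6q1 pd2 0 true false false .dn 1 1 2 (qsf 536870912 536870912 536870912 536870912 2) ndB1q1 ndB6q1 pcB2 Cut.none Ext.none)

def k0_mm_112 : ∃ t, chk3 f_mm_112 t 1 1 1 = true :=
  ⟨(l 4), by decide +kernel⟩

theorem c_mm_112 : CertB 536870912 536870912 536870912 536870912 536870912 50465866 3 eng mog cd1q1 cd6q1 pd2 true false false .dn 1 1 2
    ndB1q1 ndB6q1 pcB2 Cut.none Ext.none :=
  certB0 (fam := true) (s1 := false) (s2 := false) (a := 1) (b := 1) (c := 2) (cn := .dn) (n1 := ndB1q1) (n2 := ndB6q1) (pc := pcB2) (cut := Cut.none) (xt := Ext.none) (P1 := 536870912) (W1 := 536870912) (P2 := 536870912) (W2 := 536870912) (P3 := 536870912) (W3 := 50465866) (N0 := 3) (En := eng) (mo := mog) (C1 := cd1q1) (C2 := cd6q1) (C3 := pd2)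
    rfl k0_mm_112

noncomputable def f_mm_113 : ℕ → ℕ → ℕ → ℕ → Bool := onCell 536870912 536870912 536870912 536870912 536870912 50465866
    (rowB 3 eng mog cd1q1 cd6q1 pd3 0 true false false .nn 1 1 3 (qsf 536870912 536870912 536870912 536870912 3) ndB1q1 ndB6q1 pcB3 Cut.none Ext.none)

def k0_mm_113 : ∃ t, chk3 f_mm_113 t 1 1 1 = true :=
  ⟨(l 4), by decide +kernel⟩

theorem c_mm_113 : CertB 536870912 536870912 536870912 536870912 536870912 50465866 3 eng mog cd1q1 cd6q1 pd3 true false false .nn 1 1 3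
    ndB1q1 ndB6q1 pcB3 Cut.none Ext.none :=
  certB0 (fam := true) (s1 := false) (s2 := false) (a := 1) (b := 1) (c := 3) (cn := .nn) (n1 := ndB1q1) (n2 := ndB6q1) (pc := pcB3) (cut := Cut.none) (xt := Ext.none) (P1 := 536870912) (W1 := 536870912) (P2 := 536870912) (W2 := 536870912) (P3 := 536870912) (W3 := 50465866) (N0 := 3) (En := eng) (mo := mog) (C1 := cd1q1) (C2 := cd6q1) (C3 := pd3)
    rfl k0_mm_113

noncomputable def f_mm_123 : ℕ → ℕ → ℕ → ℕ → Bool := onCell 536870912 536870912 1073741824 536870912 536870912 50465866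
    (rowB 3 eng mog cd1q1 cd6q2 pd3 0 true false false .npn 1 2 3 (qsf 536870912 536870912 1073741824 536870912 3) ndB1q1 ndB6q2 pcB3 Cut.none Ext.none)

def k0_mm_123 : ∃ t, chk3 f_mm_123 t 1 1 1 = true :=
  ⟨(l 4), by decide +kernel⟩

theorem c_mm_123 : CertB 536870912 536870912 1073741824 536870912 536870912 50465866 3 eng mog cd1q1 cd6q2 pd3 true false false .npn 1 2 3
    ndB1q1 ndB6q2 pcB3 Cut.none Ext.none :=
  certB0 (fam := true) (s1 := false) (s2 := false) (a := 1) (b := 2) (c := 3) (cn := .npn) (n1 := ndB1q1) (n2 := ndB6q2) (pc := pcB3) (cut := Cut.none) (xt := Ext.none) (P1 := 536870912) (W1 := 536870912) (P2 := 1073741824) (W2 := 536870912) (P3 := 536870912) (W3 := 50465866) (N0 := 3) (En := eng) (mo := mog) (C1 := cd1q1) (C2 := cd6q2) (C3 := pd3)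
    rfl k0_mm_123

noncomputable def f_mm_133 : ℕ → ℕ → ℕ → ℕ → Bool := onCell 536870912 536870912 0 1230186008 536870912 50465866
    (rowB 3 eng mog cd1q1 cd6q3 pd3 0 true false false .dn 1 3 3 (qsf 536870912 536870912 0 1230186008 3) ndB1q1 ndB6q3 pcB3 Cut.none Ext.none)

def k0_mm_133 : ∃ t, chk3 f_mm_133 t 1 1 1 = true :=
  ⟨(l 4), by decide +kernel⟩

theorem c_mm_133 : CertB 536870912 536870912 0 1230186008 536870912 50465866 3 eng mog cd1q1 cd6q3 pd3 true false false .dn 1 3 3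
    ndB1q1 ndB6q3 pcB3 Cut.none Ext.none :=
  certB0 (fam := true) (s1 := false) (s2 := false) (a := 1) (b := 3) (c := 3) (cn := .dn) (n1 := ndB1q1) (n2 := ndB6q3) (pc := pcB3) (cut := Cut.none) (xt := Ext.none) (P1 := 536870912) (W1 := 536870912) (P2 := 0) (W2 := 1230186008) (P3 := 536870912) (W3 := 50465866) (N0 := 3) (En := eng) (mo := mog) (C1 := cd1q1) (C2 := cd6q3) (C3 := pd3)
    rfl k0_mm_133

noncomputable def f_mm_202_a : ℕ → ℕ → ℕ → ℕ → Bool := onCell 0 536870912 0 536870912 536870912 50465866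
    (rowB 3 eng mog cd1q2a cd6q0 pd2 0 true false false .pp 2 0 2 (qsf 0 536870912 0 536870912 2) ndB1q2a ndB6q0 pcB2 Cut.none Ext.none)

def k0_mm_202_a : ∃ t, chk3 f_mm_202_a t 1 1 1 = true :=
  ⟨(l 4), by decide +kernel⟩

theorem c_mm_202_a : CertB 0 536870912 0 536870912 536870912 50465866 3 eng mog cd1q2a cd6q0 pd2 true false false .pp 2 0 2
    ndB1q2a ndB6q0 pcB2 Cut.none Ext.none :=
  certB0 (fam := true) (s1 := false) (s2 := false) (a := 2) (b := 0) (c := 2) (cn := .pp) (n1 := ndB1q2a) (n2 := ndB6q0) (pc := pcB2) (cut := Cut.none) (xt := Ext.none) (P1 := 0) (W1 := 536870912) (P2 := 0) (W2 := 536870912) (P3 := 536870912) (W3 := 50465866) (N0 := 3) (En := eng) (mo := mog) (C1 := cd1q2a) (C2 := cd6q0) (C3 := pd2)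
    rfl k0_mm_202_a

noncomputable def f_mm_202_b : ℕ → ℕ → ℕ → ℕ → Bool := onCell 1239849684 370763052 0 536870912 536870912 50465866
    (rowB 3 eng mog cd1q2b cd6q0 pd2 0 true false false .pp 2 0 2 (qsf 1239849684 370763052 0 536870912 2) ndB1q2b ndB6q0 pcB2 Cut.none Ext.none)

def k0_mm_202_b : ∃ t, chk3 f_mm_202_b t 1 1 1 = true :=
  ⟨(l 4), by decide +kernel⟩

theorem c_mm_202_b : CertB 1239849684 370763052 0 536870912 536870912 50465866 3 eng mog cd1q2b cd6q0 pd2 true false false .pp 2 0 2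
    ndB1q2b ndB6q0 pcB2 Cut.none Ext.none :=
  certB0 (fam := true) (s1 := false) (s2 := false) (a := 2) (b := 0) (c := 2) (cn := .pp) (n1 := ndB1q2b) (n2 := ndB6q0) (pc := pcB2) (cut := Cut.none) (xt := Ext.none) (P1 := 1239849684) (W1 := 370763052) (P2 := 0) (W2 := 536870912) (P3 := 536870912) (W3 := 50465866) (N0 := 3) (En := eng) (mo := mog) (C1 := cd1q2b) (C2 := cd6q0) (C3 := pd2)
    rfl k0_mm_202_b

noncomputable def f_mm_203_a : ℕ → ℕ → ℕ → ℕ → Bool := onCell 0 536870912 0 536870912 536870912 50465866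
    (rowB 3 eng mog cd1q2a cd6q0 pd3 0 true false false .up 2 0 3 (qsf 0 536870912 0 536870912 3) ndB1q2a ndB6q0 pcB3 Cut.none Ext.none)

def k0_mm_203_a : ∃ t, chk3 f_mm_203_a t 1 1 1 = true :=
  ⟨(l 4), by decide +kernel⟩

theorem c_mm_203_a : CertB 0 536870912 0 536870912 536870912 50465866 3 eng mog cd1q2a cd6q0 pd3 true false false .up 2 0 3
    ndB1q2a ndB6q0 pcB3 Cut.none Ext.none :=
  certB0 (fam := true) (s1 := false) (s2 := false) (a := 2) (b := 0) (c := 3) (cn := .up) (n1 := ndB1q2a) (n2 := ndB6q0) (pc := pcB3) (cut := Cut.none) (xt := Ext.none) (P1 := 0) (W1 := 536870912) (P2 := 0) (W2 := 536870912) (P3 := 536870912) (W3 := 50465866) (N0 := 3) (En := eng) (mo := mog) (C1 := cd1q2a) (C2 := cd6q0) (C3 := pd3)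
    rfl k0_mm_203_a

noncomputable def f_mm_203_b : ℕ → ℕ → ℕ → ℕ → Bool := onCell 1239849684 370763052 0 536870912 536870912 50465866
    (rowB 3 eng mog cd1q2b cd6q0 pd3 0 true false false .up 2 0 3 (qsf 1239849684 370763052 0 536870912 3) ndB1q2b ndB6q0 pcB3 Cut.none Ext.none)

def k0_mm_203_b : ∃ t, chk3 f_mm_203_b t 1 1 1 = true :=
  ⟨(l 4), by decide +kernel⟩

theorem c_mm_203_b : CertB 1239849684 370763052 0 536870912 536870912 50465866 3 eng mog cd1q2b cd6q0 pd3 true false false .up 2 0 3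
    ndB1q2b ndB6q0 pcB3 Cut.none Ext.none :=
  certB0 (fam := true) (s1 := false) (s2 := false) (a := 2) (b := 0) (c := 3) (cn := .up) (n1 := ndB1q2b) (n2 := ndB6q0) (pc := pcB3) (cut := Cut.none) (xt := Ext.none) (P1 := 1239849684) (W1 := 370763052) (P2 := 0) (W2 := 536870912) (P3 := 536870912) (W3 := 50465866) (N0 := 3) (En := eng) (mo := mog) (C1 := cd1q2b) (C2 := cd6q0) (C3 := pd3)
    rfl k0_mm_203_b

noncomputable def f_mm_213_a : ℕ → ℕ → ℕ → ℕ → Bool := onCell 0 536870912 536870912 536870912 536870912 50465866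
    (rowB 3 eng mog cd1q2a cd6q1 pd3 0 true false false .pnn 2 1 3 (qsf 0 536870912 536870912 536870912 3) ndB1q2a ndB6q1 pcB3 Cut.none Ext.none)

def k0_mm_213_a : ∃ t, chk3 f_mm_213_a t 1 1 1 = true :=
  ⟨(l 4), by decide +kernel⟩

theorem c_mm_213_a : CertB 0 536870912 536870912 536870912 536870912 50465866 3 eng mog cd1q2a cd6q1 pd3 true false false .pnn 2 1 3
    ndB1q2a ndB6q1 pcB3 Cut.none Ext.none :=
  certB0 (fam := true) (s1 := false) (s2 := false) (a := 2) (b := 1) (c := 3) (cn := .pnn) (n1 := ndB1q2a) (n2 := ndB6q1) (pc := pcB3) (cut := Cut.none) (xt := Ext.none) (P1 := 0) (W1 := 536870912) (P2 := 536870912) (W2 := 536870912) (P3 := 536870912) (W3 := 50465866) (N0 := 3) (En := eng) (mo := mog) (C1 := cd1q2a) (C2 := cd6q1) (C3 := pd3)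
    rfl k0_mm_213_a

noncomputable def f_mm_213_b : ℕ → ℕ → ℕ → ℕ → Bool := onCell 1239849684 370763052 536870912 536870912 536870912 50465866
    (rowB 3 eng mog cd1q2b cd6q1 pd3 0 true false false .pnn 2 1 3 (qsf 1239849684 370763052 536870912 536870912 3) ndB1q2b ndB6q1 pcB3 Cut.none Ext.none)

def k0_mm_213_b : ∃ t, chk3 f_mm_213_b t 1 1 1 = true :=
  ⟨(l 4), by decide +kernel⟩

theorem c_mm_213_b : CertB 1239849684 370763052 536870912 536870912 536870912 50465866 3 eng mog cd1q2b cd6q1 pd3 true false false .pnn 2 1 3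
    ndB1q2b ndB6q1 pcB3 Cut.none Ext.none :=
  certB0 (fam := true) (s1 := false) (s2 := false) (a := 2) (b := 1) (c := 3) (cn := .pnn) (n1 := ndB1q2b) (n2 := ndB6q1) (pc := pcB3) (cut := Cut.none) (xt := Ext.none) (P1 := 1239849684) (W1 := 370763052) (P2 := 536870912) (W2 := 536870912) (P3 := 536870912) (W3 := 50465866) (N0 := 3) (En := eng) (mo := mog) (C1 := cd1q2b) (C2 := cd6q1) (C3 := pd3)
    rfl k0_mm_213_b

noncomputable def f_mm_303 : ℕ → ℕ → ℕ → ℕ → Bool := onCell 1610612736 536870912 0 536870912 536870912 50465866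
    (rowB 3 eng mog cd1q3 cd6q0 pd3 0 true false false .npn 3 0 3 (qsf 1610612736 536870912 0 536870912 3) ndB1q3 ndB6q0 pcB3 Cut.none Ext.none)

def k0_mm_303 : ∃ t, chk3 f_mm_303 t 1 1 1 = true :=
  ⟨(l 4), by decide +kernel⟩

theorem c_mm_303 : CertB 1610612736 536870912 0 536870912 536870912 50465866 3 eng mog cd1q3 cd6q0 pd3 true false false .npn 3 0 3
    ndB1q3 ndB6q0 pcB3 Cut.none Ext.none :=
  certB0 (fam := true) (s1 := false) (s2 := false) (a := 3) (b := 0) (c := 3) (cn := .npn) (n1 := ndB1q3) (n2 := ndB6q0) (pc := pcB3) (cut := Cut.none) (xt := Ext.none) (P1 := 1610612736) (W1 := 536870912) (P2 := 0) (W2 := 536870912) (P3 := 536870912) (W3 := 50465866) (N0 := 3) (En := eng) (mo := mog) (C1 := cd1q3) (C2 := cd6q0) (C3 := pd3)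
    rfl k0_mm_303

noncomputable def f_mm_313 : ℕ → ℕ → ℕ → ℕ → Bool := onCell 1610612736 536870912 536870912 536870912 536870912 50465866
    (rowB 3 eng mog cd1q3 cd6q1 pd3 0 true false false .dn 3 1 3 (qsf 1610612736 536870912 536870912 536870912 3) ndB1q3 ndB6q1 pcB3 Cut.none Ext.none)

def k0_mm_313 : ∃ t, chk3 f_mm_313 t 1 1 1 = true :=
  ⟨(l 4), by decide +kernel⟩

theorem c_mm_313 : CertB 1610612736 536870912 536870912 536870912 536870912 50465866 3 eng mog cd1q3 cd6q1 pd3 true false false .dn 3 1 3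
    ndB1q3 ndB6q1 pcB3 Cut.none Ext.none :=
  certB0 (fam := true) (s1 := false) (s2 := false) (a := 3) (b := 1) (c := 3) (cn := .dn) (n1 := ndB1q3) (n2 := ndB6q1) (pc := pcB3) (cut := Cut.none) (xt := Ext.none) (P1 := 1610612736) (W1 := 536870912) (P2 := 536870912) (W2 := 536870912) (P3 := 536870912) (W3 := 50465866) (N0 := 3) (En := eng) (mo := mog) (C1 := cd1q3) (C2 := cd6q1) (C3 := pd3)
    rfl k0_mm_313

end Pool.Agent.Strip051.G.I5000_5470.Tab.C.BA16

namespace Pool.Agent.Strip051.G.I5000_5470.Tab.C.BA22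

open Pool.Agent.Strip051.PB Pool.Agent.Strip051.PB.T
open Pool.Agent.Strip051.G.I5000_5470.Tab

noncomputable def f_pp_001 : ℕ → ℕ → ℕ → ℕ → Bool := onCell 0 536870912 0 536870912 536870912 50465866
    (rowB 3 eng mog cd2q0 cd2q0 pd1 0 true true true .up 0 0 1 (qsf 0 536870912 0 536870912 1) ndB2q0 ndB2q0 pcB1 Cut.none Ext.none)

def k0_pp_001 : ∃ t, chk3 f_pp_001 t 1 1 1 = true :=
  ⟨(l 4), by decide +kernel⟩

theorem c_pp_001 : CertB 0 536870912 0 536870912 536870912 50465866 3 eng mog cd2q0 cd2q0 pd1 true true true .up 0 0 1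
    ndB2q0 ndB2q0 pcB1 Cut.none Ext.none :=
  certB0 (fam := true) (s1 := true) (s2 := true) (a := 0) (b := 0) (c := 1) (cn := .up) (n1 := ndB2q0) (n2 := ndB2q0) (pc := pcB1) (cut := Cut.none) (xt := Ext.none) (P1 := 0) (W1 := 536870912) (P2 := 0) (W2 := 536870912) (P3 := 536870912) (W3 := 50465866) (N0 := 3) (En := eng) (mo := mog) (C1 := cd2q0) (C2 := cd2q0) (C3 := pd1)
    rfl k0_pp_001

noncomputable def f_pp_011 : ℕ → ℕ → ℕ → ℕ → Bool := onCell 0 536870912 536870912 536870912 536870912 50465866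
    (rowB 3 eng mog cd2q0 cd2q1 pd1 0 true true true .pnn 0 1 1 (qsf 0 536870912 536870912 536870912 1) ndB2q0 ndB2q1 pcB1 Cut.none Ext.none)

def k0_pp_011 : ∃ t, chk3 f_pp_011 t 1 1 1 = true :=
  ⟨(l 4), by decide +kernel⟩

theorem c_pp_011 : CertB 0 536870912 536870912 536870912 536870912 50465866 3 eng mog cd2q0 cd2q1 pd1 true true true .pnn 0 1 1
    ndB2q0 ndB2q1 pcB1 Cut.none Ext.none :=
  certB0 (fam := true) (s1 := true) (s2 := true) (a := 0) (b := 1) (c := 1) (cn := .pnn) (n1 := ndB2q0) (n2 := ndB2q1) (pc := pcB1) (cut := Cut.none) (xt := Ext.none) (P1 := 0) (W1 := 536870912) (P2 := 536870912) (W2 := 536870912) (P3 := 536870912) (W3 := 50465866) (N0 := 3) (En := eng) (mo := mog) (C1 := cd2q0) (C2 := cd2q1) (C3 := pd1)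
    rfl k0_pp_011

noncomputable def f_pp_012 : ℕ → ℕ → ℕ → ℕ → Bool := onCell 0 536870912 536870912 536870912 536870912 50465866
    (rowB 3 eng mog cd2q0 cd2q1 pd2 0 true true true .pnp 0 1 2 (qsf 0 536870912 536870912 536870912 2) ndB2q0 ndB2q1 pcB2 Cut.none Ext.none)

def k0_pp_012 : ∃ t, chk3 f_pp_012 t 1 1 1 = true :=
  ⟨(l 4), by decide +kernel⟩

theorem c_pp_012 : CertB 0 536870912 536870912 536870912 536870912 50465866 3 eng mog cd2q0 cd2q1 pd2 true true true .pnp 0 1 2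
    ndB2q0 ndB2q1 pcB2 Cut.none Ext.none :=
  certB0 (fam := true) (s1 := true) (s2 := true) (a := 0) (b := 1) (c := 2) (cn := .pnp) (n1 := ndB2q0) (n2 := ndB2q1) (pc := pcB2) (cut := Cut.none) (xt := Ext.none) (P1 := 0) (W1 := 536870912) (P2 := 536870912) (W2 := 536870912) (P3 := 536870912) (W3 := 50465866) (N0 := 3) (En := eng) (mo := mog) (C1 := cd2q0) (C2 := cd2q1) (C3 := pd2)
    rfl k0_pp_012

noncomputable def cut_pp_022_a : Cut := Cut.of [[⟨0, 0, 0, 67108864⟩, ⟨1, 1, 0, 67108864⟩, ⟨2, 1, 0, 67108864⟩]]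

noncomputable def f_pp_022_a : ℕ → ℕ → ℕ → ℕ → Bool := onCell 0 536870912 0 536870912 536870912 50465866
    (rowB 3 eng mog cd2q0 cd2q2a pd2 0 true true true .pp 0 2 2 (qsf 0 536870912 0 536870912 2) ndB2q0 ndB2q2a pcB2 cut_pp_022_a Ext.none)

def k0_pp_022_a : ∃ t, chk3 f_pp_022_a t 1 1 1 = true :=
  ⟨(a (b (a (a (b (a (a (b (l 16460184) (l 16471968)) (b (l 16473528) (l 16486816))) (b (l 16491096) (l 16506912))) (a (a (a (b (l 16489896) (l 16538840)) (b (l 16497760) (l 16525928))) (b (b (l 16503360) (l 16536888)) (l 16530512))) (b (b (l 16546304) (a (l 16531680) (l 16546984))) (a (a (l 16634960) (l 16643368)) (a (l 16630712) (l 16576096)))))) (b (a (l 16579440) (l 16555872)) (a (b (l 16647592) (a (l 16588816) (l 16605432))) (b (l 16658152) (l 16627264))))) (a (b (a (l 16583904) (l 16629872)) (a (b (l 16620360) (l 4)) (l 4))) (b (a (l 16630608) (l 4)) (l 4)))) (a (b (a (a (a (c (b (b (l 16549512) (l 16570856)) (a (b (l 16590752) (l 16639896))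 (b (l 16599496) (l 16626800)))) (b (b (l 16547984) (l 16569840)) (b (l 16615536) (a (l 16618528) (l 16626192))))) (b (c (l 16583704) (l 16582904)) (b (l 16611864) (l 16644632)))) (b (a (a (l 16673536) (l 16640488)) (b (l 16663560) (l 16664784))) (a (b (a (l 16625152) (l 16634192)) (a (l 16673632) (l 16661304))) (b (l 16668040) (l 4))))) (b (a (a (b (l 16617968) (l 16723440)) (l 16707384)) (l 4)) (l 4))) (a (b (a (a (b (a (b (l 16641392) (a (l 16655560) (l 16659352))) (a (l 16676056) (l 16659248))) (a (b (b (l 16690896) (l 6)) (l 6)) (b (l 16682104) (l 16710272)))) (b (a (l 16665624) (l 16674240)) (a (b (l 16690472) (l 16708032)) (b (l 16698848) (l 4))))) (a (b (b (l 16699960) (l 4)) (l 4)) (l 4))) (a (b (a (l 6) (a (l 6) (l 4))) (l 6)) (l 4))) (l 4))) (l 4))) (l 4)), by decide +kernel⟩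

theorem c_pp_022_a : CertB 0 536870912 0 536870912 536870912 50465866 3 eng mog cd2q0 cd2q2a pd2 true true true .pp 0 2 2
    ndB2q0 ndB2q2a pcB2 cut_pp_022_a Ext.none :=
  certB0 (fam := true) (s1 := true) (s2 := true) (a := 0) (b := 2) (c := 2) (cn := .pp) (n1 := ndB2q0) (n2 := ndB2q2a) (pc := pcB2) (cut := cut_pp_022_a) (xt := Ext.none) (P1 := 0) (W1 := 536870912) (P2 := 0) (W2 := 536870912) (P3 := 536870912) (W3 := 50465866) (N0 := 3) (En := eng) (mo := mog) (C1 := cd2q0) (C2 := cd2q2a) (C3 := pd2)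
    rfl k0_pp_022_a

noncomputable def cut_pp_022_b : Cut := Cut.of [[⟨0, 0, 0, 67108864⟩, ⟨1, 1, 0, 67108864⟩, ⟨2, 1, 0, 67108864⟩]]

noncomputable def f_pp_022_b : ℕ → ℕ → ℕ → ℕ → Bool := onCell 0 536870912 1073741824 536870912 536870912 50465866
    (rowB 3 eng mog cd2q0 cd2q2b pd2 1 true true true .pp 0 2 2 (qsf 0 536870912 1239849684 370763052 2) ndB2q0 ndB2q2b pcB2 cut_pp_022_b Ext.none)

def k0_pp_022_b : ∃ t, chk3 f_pp_022_b t 1 1 1 = true :=
  ⟨(a (b (b (l 1) (a (b (b (a (a (a (l 142303873911) (l 1)) (l 1)) (l 1)) (a (a (b (l 16478152) (l 16444512)) (l 118144778759)) (l 1))) (a (a (a (l 16435784) (l 16432848)) (b (l 16483896) (l 16421824))) (b (l 190622406519) (l 16577464)))) (l 1))) (b (a (b (a (a (b (l 16314360) (l 16246600)) (l 16385792)) (b (l 16484416) (l 16431608))) (a (b (l 16239544) (l 16198376)) (l 16508000))) (b (a (b (l 142304082855) (l 16611800)) (l 1)) (a (b (l 16539200) (l 16481056)) (b (l 172905794711) (l 16670632))))) (b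 (a (a (b (l 16158864) (l 16118720)) (b (l 16296840) (l 16259888))) (a (l 16551872) (l 4))) (a (a (b (l 16082448) (l 16056176)) (l 4)) (l 4))))) (b (l 1) (b (l 1) (l 4)))), by decide +kernel⟩

theorem c_pp_022_b : CertB 0 536870912 1239849684 370763052 536870912 50465866 3 eng mog cd2q0 cd2q2b pd2 true true true .pp 0 2 2
    ndB2q0 ndB2q2b pcB2 cut_pp_022_b Ext.none :=
  certB1 (fam := true) (s1 := true) (s2 := true) (a := 0) (b := 2) (c := 2) (cn := .pp) (n1 := ndB2q0) (n2 := ndB2q2b) (pc := pcB2) (cut := cut_pp_022_b) (xt := Ext.none) (P1 := 0) (W1 := 536870912) (P2 := 1239849684) (W2 := 370763052) (P3 := 536870912) (W3 := 50465866) (N0 := 3) (En := eng) (mo := mog) (C1 := cd2q0) (C2 := cd2q2b) (C3 := pd2)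
    rfl (fun _ => rfl) k0_pp_022_b

noncomputable def f_pp_023_a : ℕ → ℕ → ℕ → ℕ → Bool := onCell 1610612736 536870912 0 536870912 536870912 50465866
    (rowB 3 eng mog cd2q0 cd2q2a pd3 2 true true true .up 0 2 3 (qsf 0 536870912 0 536870912 3) ndB2q0 ndB2q2a pcB3 Cut.none Ext.none)

def k0_pp_023_a : ∃ t, chk3 f_pp_023_a t 1 1 1 = true :=
  ⟨(l 4), by decide +kernel⟩

theorem c_pp_023_a : CertB 0 536870912 0 536870912 536870912 50465866 3 eng mog cd2q0 cd2q2a pd3 true true true .up 0 2 3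
    ndB2q0 ndB2q2a pcB3 Cut.none Ext.none :=
  certB2 (fam := true) (s1 := true) (s2 := true) (a := 0) (b := 2) (c := 3) (cn := .up) (n1 := ndB2q0) (n2 := ndB2q2a) (pc := pcB3) (cut := Cut.none) (xt := Ext.none) (P1 := 0) (W1 := 536870912) (P2 := 0) (W2 := 536870912) (P3 := 536870912) (W3 := 50465866) (N0 := 3) (En := eng) (mo := mog) (C1 := cd2q0) (C2 := cd2q2a) (C3 := pd3)
    rfl (fun _ => rfl) k0_pp_023_a

noncomputable def f_pp_023_b : ℕ → ℕ → ℕ → ℕ → Bool := onCell 1610612736 536870912 1239849684 370763052 536870912 50465866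
    (rowB 3 eng mog cd2q0 cd2q2b pd3 2 true true true .up 0 2 3 (qsf 0 536870912 1239849684 370763052 3) ndB2q0 ndB2q2b pcB3 Cut.none Ext.none)

def k0_pp_023_b : ∃ t, chk3 f_pp_023_b t 1 1 1 = true :=
  ⟨(a (a (l 4) (l 4)) (l 4)), by decide +kernel⟩

theorem c_pp_023_b : CertB 0 536870912 1239849684 370763052 536870912 50465866 3 eng mog cd2q0 cd2q2b pd3 true true true .up 0 2 3
    ndB2q0 ndB2q2b pcB3 Cut.none Ext.none :=
  certB2 (fam := true) (s1 := true) (s2 := true) (a := 0) (b := 2) (c := 3) (cn := .up) (n1 := ndB2q0) (n2 := ndB2q2b) (pc := pcB3) (cut := Cut.none) (xt := Ext.none) (P1 := 0) (W1 := 536870912) (P2 := 1239849684) (W2 := 370763052) (P3 := 536870912) (W3 := 50465866) (N0 := 3) (En := eng) (mo := mog) (C1 := cd2q0) (C2 := cd2q2b) (C3 := pd3)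
    rfl (fun _ => rfl) k0_pp_023_b

noncomputable def f_pp_033 : ℕ → ℕ → ℕ → ℕ → Bool := onCell 0 536870912 1610612736 536870912 536870912 50465866
    (rowB 3 eng mog cd2q0 cd2q3 pd3 1 true true true .pnn 0 3 3 (qsf 0 536870912 1610612736 536870912 3) ndB2q0 ndB2q3 pcB3 Cut.none Ext.none)

def k0_pp_033 : ∃ t, chk3 f_pp_033 t 1 1 1 = true :=
  ⟨(b (b (a (l 4) (l 1)) (l 4)) (l 4)), by decide +kernel⟩

theorem c_pp_033 : CertB 0 536870912 1610612736 536870912 536870912 50465866 3 eng mog cd2q0 cd2q3 pd3 true true true .pnn 0 3 3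
    ndB2q0 ndB2q3 pcB3 Cut.none Ext.none :=
  certB1 (fam := true) (s1 := true) (s2 := true) (a := 0) (b := 3) (c := 3) (cn := .pnn) (n1 := ndB2q0) (n2 := ndB2q3) (pc := pcB3) (cut := Cut.none) (xt := Ext.none) (P1 := 0) (W1 := 536870912) (P2 := 1610612736) (W2 := 536870912) (P3 := 536870912) (W3 := 50465866) (N0 := 3) (En := eng) (mo := mog) (C1 := cd2q0) (C2 := cd2q3) (C3 := pd3)
    rfl (fun _ => rfl) k0_pp_033

noncomputable def f_pp_101 : ℕ → ℕ → ℕ → ℕ → Bool := onCell 536870912 536870912 0 536870912 536870912 50465866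
    (rowB 3 eng mog cd2q1 cd2q0 pd1 0 true true true .npn 1 0 1 (qsf 536870912 536870912 0 536870912 1) ndB2q1 ndB2q0 pcB1 Cut.none Ext.none)

def k0_pp_101 : ∃ t, chk3 f_pp_101 t 1 1 1 = true :=
  ⟨(l 4), by decide +kernel⟩

theorem c_pp_101 : CertB 536870912 536870912 0 536870912 536870912 50465866 3 eng mog cd2q1 cd2q0 pd1 true true true .npn 1 0 1
    ndB2q1 ndB2q0 pcB1 Cut.none Ext.none :=
  certB0 (fam := true) (s1 := true) (s2 := true) (a := 1) (b := 0) (c := 1) (cn := .npn) (n1 := ndB2q1) (n2 := ndB2q0) (pc := pcB1) (cut := Cut.none) (xt := Ext.none) (P1 := 536870912) (W1 := 536870912) (P2 := 0) (W2 := 536870912) (P3 := 536870912) (W3 := 50465866) (N0 := 3) (En := eng) (mo := mog) (C1 := cd2q1) (C2 := cd2q0) (C3 := pd1)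
    rfl k0_pp_101

noncomputable def f_pp_102 : ℕ → ℕ → ℕ → ℕ → Bool := onCell 536870912 536870912 0 536870912 536870912 50465866
    (rowB 3 eng mog cd2q1 cd2q0 pd2 0 true true true .npp 1 0 2 (qsf 536870912 536870912 0 536870912 2) ndB2q1 ndB2q0 pcB2 Cut.none Ext.none)

def k0_pp_102 : ∃ t, chk3 f_pp_102 t 1 1 1 = true :=
  ⟨(l 4), by decide +kernel⟩

theorem c_pp_102 : CertB 536870912 536870912 0 536870912 536870912 50465866 3 eng mog cd2q1 cd2q0 pd2 true true true .npp 1 0 2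
    ndB2q1 ndB2q0 pcB2 Cut.none Ext.none :=
  certB0 (fam := true) (s1 := true) (s2 := true) (a := 1) (b := 0) (c := 2) (cn := .npp) (n1 := ndB2q1) (n2 := ndB2q0) (pc := pcB2) (cut := Cut.none) (xt := Ext.none) (P1 := 536870912) (W1 := 536870912) (P2 := 0) (W2 := 536870912) (P3 := 536870912) (W3 := 50465866) (N0 := 3) (En := eng) (mo := mog) (C1 := cd2q1) (C2 := cd2q0) (C3 := pd2)
    rfl k0_pp_102

noncomputable def f_pp_112 : ℕ → ℕ → ℕ → ℕ → Bool := onCell 536870912 536870912 536870912 536870912 536870912 50465866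
    (rowB 3 eng mog cd2q1 cd2q1 pd2 0 true true true .dn 1 1 2 (qsf 536870912 536870912 536870912 536870912 2) ndB2q1 ndB2q1 pcB2 Cut.none Ext.none)

def k0_pp_112 : ∃ t, chk3 f_pp_112 t 1 1 1 = true :=
  ⟨(l 4), by decide +kernel⟩

theorem c_pp_112 : CertB 536870912 536870912 536870912 536870912 536870912 50465866 3 eng mog cd2q1 cd2q1 pd2 true true true .dn 1 1 2
    ndB2q1 ndB2q1 pcB2 Cut.none Ext.none :=
  certB0 (fam := true) (s1 := true) (s2 := true) (a := 1) (b := 1) (c := 2) (cn := .dn) (n1 := ndB2q1) (n2 := ndB2q1) (pc := pcB2) (cut := Cut.none) (xt := Ext.none) (P1 := 536870912) (W1 := 536870912) (P2 := 536870912) (W2 := 536870912) (P3 := 536870912) (W3 := 50465866) (N0 := 3) (En := eng) (mo := mog) (C1 := cd2q1) (C2 := cd2q1) (C3 := pd2)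
    rfl k0_pp_112

noncomputable def f_pp_113 : ℕ → ℕ → ℕ → ℕ → Bool := onCell 536870912 536870912 536870912 536870912 536870912 50465866
    (rowB 3 eng mog cd2q1 cd2q1 pd3 0 true true true .nn 1 1 3 (qsf 536870912 536870912 536870912 536870912 3) ndB2q1 ndB2q1 pcB3 Cut.none Ext.none)

def k0_pp_113 : ∃ t, chk3 f_pp_113 t 1 1 1 = true :=
  ⟨(l 4), by decide +kernel⟩

theorem c_pp_113 : CertB 536870912 536870912 536870912 536870912 536870912 50465866 3 eng mog cd2q1 cd2q1 pd3 true true true .nn 1 1 3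
    ndB2q1 ndB2q1 pcB3 Cut.none Ext.none :=
  certB0 (fam := true) (s1 := true) (s2 := true) (a := 1) (b := 1) (c := 3) (cn := .nn) (n1 := ndB2q1) (n2 := ndB2q1) (pc := pcB3) (cut := Cut.none) (xt := Ext.none) (P1 := 536870912) (W1 := 536870912) (P2 := 536870912) (W2 := 536870912) (P3 := 536870912) (W3 := 50465866) (N0 := 3) (En := eng) (mo := mog) (C1 := cd2q1) (C2 := cd2q1) (C3 := pd3)
    rfl k0_pp_113

noncomputable def f_pp_123_a : ℕ → ℕ → ℕ → ℕ → Bool := onCell 536870912 536870912 0 536870912 536870912 50465866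
    (rowB 3 eng mog cd2q1 cd2q2a pd3 0 true true true .npn 1 2 3 (qsf 536870912 536870912 0 536870912 3) ndB2q1 ndB2q2a pcB3 Cut.none Ext.none)

def k0_pp_123_a : ∃ t, chk3 f_pp_123_a t 1 1 1 = true :=
  ⟨(l 4), by decide +kernel⟩

theorem c_pp_123_a : CertB 536870912 536870912 0 536870912 536870912 50465866 3 eng mog cd2q1 cd2q2a pd3 true true true .npn 1 2 3
    ndB2q1 ndB2q2a pcB3 Cut.none Ext.none :=
  certB0 (fam := true) (s1 := true) (s2 := true) (a := 1) (b := 2) (c := 3) (cn := .npn) (n1 := ndB2q1) (n2 := ndB2q2a) (pc := pcB3) (cut := Cut.none) (xt := Ext.none) (P1 := 536870912) (W1 := 536870912) (P2 := 0) (W2 := 536870912) (P3 := 536870912) (W3 := 50465866) (N0 := 3) (En := eng) (mo := mog) (C1 := cd2q1) (C2 := cd2q2a) (C3 := pd3)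
    rfl k0_pp_123_a

noncomputable def f_pp_123_b : ℕ → ℕ → ℕ → ℕ → Bool := onCell 536870912 536870912 1239849684 370763052 536870912 50465866
    (rowB 3 eng mog cd2q1 cd2q2b pd3 0 true true true .npn 1 2 3 (qsf 536870912 536870912 1239849684 370763052 3) ndB2q1 ndB2q2b pcB3 Cut.none Ext.none)

def k0_pp_123_b : ∃ t, chk3 f_pp_123_b t 1 1 1 = true :=
  ⟨(l 4), by decide +kernel⟩

theorem c_pp_123_b : CertB 536870912 536870912 1239849684 370763052 536870912 50465866 3 eng mog cd2q1 cd2q2b pd3 true true true .npn 1 2 3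
    ndB2q1 ndB2q2b pcB3 Cut.none Ext.none :=
  certB0 (fam := true) (s1 := true) (s2 := true) (a := 1) (b := 2) (c := 3) (cn := .npn) (n1 := ndB2q1) (n2 := ndB2q2b) (pc := pcB3) (cut := Cut.none) (xt := Ext.none) (P1 := 536870912) (W1 := 536870912) (P2 := 1239849684) (W2 := 370763052) (P3 := 536870912) (W3 := 50465866) (N0 := 3) (En := eng) (mo := mog) (C1 := cd2q1) (C2 := cd2q2b) (C3 := pd3)
    rfl k0_pp_123_b

noncomputable def f_pp_133 : ℕ → ℕ → ℕ → ℕ → Bool := onCell 536870912 536870912 1610612736 536870912 536870912 50465866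
    (rowB 3 eng mog cd2q1 cd2q3 pd3 0 true true true .dn 1 3 3 (qsf 536870912 536870912 1610612736 536870912 3) ndB2q1 ndB2q3 pcB3 Cut.none Ext.none)

def k0_pp_133 : ∃ t, chk3 f_pp_133 t 1 1 1 = true :=
  ⟨(l 4), by decide +kernel⟩

theorem c_pp_133 : CertB 536870912 536870912 1610612736 536870912 536870912 50465866 3 eng mog cd2q1 cd2q3 pd3 true true true .dn 1 3 3
    ndB2q1 ndB2q3 pcB3 Cut.none Ext.none :=
  certB0 (fam := true) (s1 := true) (s2 := true) (a := 1) (b := 3) (c := 3) (cn := .dn) (n1 := ndB2q1) (n2 := ndB2q3) (pc := pcB3) (cut := Cut.none) (xt := Ext.none) (P1 := 536870912) (W1 := 536870912) (P2 := 1610612736) (W2 := 536870912) (P3 := 536870912) (W3 := 50465866) (N0 := 3) (En := eng) (mo := mog) (C1 := cd2q1) (C2 := cd2q3) (C3 := pd3)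
    rfl k0_pp_133

noncomputable def f_pp_202_a : ℕ → ℕ → ℕ → ℕ → Bool := onCell 0 536870912 0 536870912 536870912 50465866
    (rowB 3 eng mog cd2q2a cd2q0 pd2 0 true true true .pp 2 0 2 (qsf 0 536870912 0 536870912 2) ndB2q2a ndB2q0 pcB2 Cut.none Ext.none)

def k0_pp_202_a : ∃ t, chk3 f_pp_202_a t 1 1 1 = true :=
  ⟨(l 5), by decide +kernel⟩

theorem c_pp_202_a : CertB 0 536870912 0 536870912 536870912 50465866 3 eng mog cd2q2a cd2q0 pd2 true true true .pp 2 0 2
    ndB2q2a ndB2q0 pcB2 Cut.none Ext.none :=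
  certB0 (fam := true) (s1 := true) (s2 := true) (a := 2) (b := 0) (c := 2) (cn := .pp) (n1 := ndB2q2a) (n2 := ndB2q0) (pc := pcB2) (cut := Cut.none) (xt := Ext.none) (P1 := 0) (W1 := 536870912) (P2 := 0) (W2 := 536870912) (P3 := 536870912) (W3 := 50465866) (N0 := 3) (En := eng) (mo := mog) (C1 := cd2q2a) (C2 := cd2q0) (C3 := pd2)
    rfl k0_pp_202_a

noncomputable def f_pp_202_b : ℕ → ℕ → ℕ → ℕ → Bool := onCell 1239849684 370763052 0 536870912 536870912 50465866
    (rowB 3 eng mog cd2q2b cd2q0 pd2 0 true true true .pp 2 0 2 (qsf 1239849684 370763052 0 536870912 2) ndB2q2b ndB2q0 pcB2 Cut.none Ext.none)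

def k0_pp_202_b : ∃ t, chk3 f_pp_202_b t 1 1 1 = true :=
  ⟨(l 5), by decide +kernel⟩

theorem c_pp_202_b : CertB 1239849684 370763052 0 536870912 536870912 50465866 3 eng mog cd2q2b cd2q0 pd2 true true true .pp 2 0 2
    ndB2q2b ndB2q0 pcB2 Cut.none Ext.none :=
  certB0 (fam := true) (s1 := true) (s2 := true) (a := 2) (b := 0) (c := 2) (cn := .pp) (n1 := ndB2q2b) (n2 := ndB2q0) (pc := pcB2) (cut := Cut.none) (xt := Ext.none) (P1 := 1239849684) (W1 := 370763052) (P2 := 0) (W2 := 536870912) (P3 := 536870912) (W3 := 50465866) (N0 := 3) (En := eng) (mo := mog) (C1 := cd2q2b) (C2 := cd2q0) (C3 := pd2)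
    rfl k0_pp_202_b

noncomputable def f_pp_203_a : ℕ → ℕ → ℕ → ℕ → Bool := onCell 0 536870912 0 536870912 536870912 50465866
    (rowB 3 eng mog cd2q2a cd2q0 pd3 0 true true true .up 2 0 3 (qsf 0 536870912 0 536870912 3) ndB2q2a ndB2q0 pcB3 Cut.none Ext.none)

def k0_pp_203_a : ∃ t, chk3 f_pp_203_a t 1 1 1 = true :=
  ⟨(l 5), by decide +kernel⟩

theorem c_pp_203_a : CertB 0 536870912 0 536870912 536870912 50465866 3 eng mog cd2q2a cd2q0 pd3 true true true .up 2 0 3
    ndB2q2a ndB2q0 pcB3 Cut.none Ext.none :=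
  certB0 (fam := true) (s1 := true) (s2 := true) (a := 2) (b := 0) (c := 3) (cn := .up) (n1 := ndB2q2a) (n2 := ndB2q0) (pc := pcB3) (cut := Cut.none) (xt := Ext.none) (P1 := 0) (W1 := 536870912) (P2 := 0) (W2 := 536870912) (P3 := 536870912) (W3 := 50465866) (N0 := 3) (En := eng) (mo := mog) (C1 := cd2q2a) (C2 := cd2q0) (C3 := pd3)
    rfl k0_pp_203_a

noncomputable def f_pp_203_b : ℕ → ℕ → ℕ → ℕ → Bool := onCell 1239849684 370763052 0 536870912 536870912 50465866
    (rowB 3 eng mog cd2q2b cd2q0 pd3 0 true true true .up 2 0 3 (qsf 1239849684 370763052 0 536870912 3) ndB2q2b ndB2q0 pcB3 Cut.none Ext.none)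

def k0_pp_203_b : ∃ t, chk3 f_pp_203_b t 1 1 1 = true :=
  ⟨(l 5), by decide +kernel⟩

theorem c_pp_203_b : CertB 1239849684 370763052 0 536870912 536870912 50465866 3 eng mog cd2q2b cd2q0 pd3 true true true .up 2 0 3
    ndB2q2b ndB2q0 pcB3 Cut.none Ext.none :=
  certB0 (fam := true) (s1 := true) (s2 := true) (a := 2) (b := 0) (c := 3) (cn := .up) (n1 := ndB2q2b) (n2 := ndB2q0) (pc := pcB3) (cut := Cut.none) (xt := Ext.none) (P1 := 1239849684) (W1 := 370763052) (P2 := 0) (W2 := 536870912) (P3 := 536870912) (W3 := 50465866) (N0 := 3) (En := eng) (mo := mog) (C1 := cd2q2b) (C2 := cd2q0) (C3 := pd3)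
    rfl k0_pp_203_b

noncomputable def f_pp_213_a : ℕ → ℕ → ℕ → ℕ → Bool := onCell 0 536870912 536870912 536870912 536870912 50465866
    (rowB 3 eng mog cd2q2a cd2q1 pd3 0 true true true .pnn 2 1 3 (qsf 0 536870912 536870912 536870912 3) ndB2q2a ndB2q1 pcB3 Cut.none Ext.none)

def k0_pp_213_a : ∃ t, chk3 f_pp_213_a t 1 1 1 = true :=
  ⟨(l 4), by decide +kernel⟩

theorem c_pp_213_a : CertB 0 536870912 536870912 536870912 536870912 50465866 3 eng mog cd2q2a cd2q1 pd3 true true true .pnn 2 1 3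
    ndB2q2a ndB2q1 pcB3 Cut.none Ext.none :=
  certB0 (fam := true) (s1 := true) (s2 := true) (a := 2) (b := 1) (c := 3) (cn := .pnn) (n1 := ndB2q2a) (n2 := ndB2q1) (pc := pcB3) (cut := Cut.none) (xt := Ext.none) (P1 := 0) (W1 := 536870912) (P2 := 536870912) (W2 := 536870912) (P3 := 536870912) (W3 := 50465866) (N0 := 3) (En := eng) (mo := mog) (C1 := cd2q2a) (C2 := cd2q1) (C3 := pd3)
    rfl k0_pp_213_a

noncomputable def f_pp_213_b : ℕ → ℕ → ℕ → ℕ → Bool := onCell 1239849684 370763052 536870912 536870912 536870912 50465866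
    (rowB 3 eng mog cd2q2b cd2q1 pd3 0 true true true .pnn 2 1 3 (qsf 1239849684 370763052 536870912 536870912 3) ndB2q2b ndB2q1 pcB3 Cut.none Ext.none)

def k0_pp_213_b : ∃ t, chk3 f_pp_213_b t 1 1 1 = true :=
  ⟨(l 4), by decide +kernel⟩

theorem c_pp_213_b : CertB 1239849684 370763052 536870912 536870912 536870912 50465866 3 eng mog cd2q2b cd2q1 pd3 true true true .pnn 2 1 3
    ndB2q2b ndB2q1 pcB3 Cut.none Ext.none :=
  certB0 (fam := true) (s1 := true) (s2 := true) (a := 2) (b := 1) (c := 3) (cn := .pnn) (n1 := ndB2q2b) (n2 := ndB2q1) (pc := pcB3) (cut := Cut.none) (xt := Ext.none) (P1 := 1239849684) (W1 := 370763052) (P2 := 536870912) (W2 := 536870912) (P3 := 536870912) (W3 := 50465866) (N0 := 3) (En := eng) (mo := mog) (C1 := cd2q2b) (C2 := cd2q1) (C3 := pd3)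
    rfl k0_pp_213_b

noncomputable def f_pp_303 : ℕ → ℕ → ℕ → ℕ → Bool := onCell 1610612736 536870912 0 536870912 536870912 50465866
    (rowB 3 eng mog cd2q3 cd2q0 pd3 0 true true true .npn 3 0 3 (qsf 1610612736 536870912 0 536870912 3) ndB2q3 ndB2q0 pcB3 Cut.none Ext.none)

def k0_pp_303 : ∃ t, chk3 f_pp_303 t 1 1 1 = true :=
  ⟨(l 5), by decide +kernel⟩

theorem c_pp_303 : CertB 1610612736 536870912 0 536870912 536870912 50465866 3 eng mog cd2q3 cd2q0 pd3 true true true .npn 3 0 3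
    ndB2q3 ndB2q0 pcB3 Cut.none Ext.none :=
  certB0 (fam := true) (s1 := true) (s2 := true) (a := 3) (b := 0) (c := 3) (cn := .npn) (n1 := ndB2q3) (n2 := ndB2q0) (pc := pcB3) (cut := Cut.none) (xt := Ext.none) (P1 := 1610612736) (W1 := 536870912) (P2 := 0) (W2 := 536870912) (P3 := 536870912) (W3 := 50465866) (N0 := 3) (En := eng) (mo := mog) (C1 := cd2q3) (C2 := cd2q0) (C3 := pd3)
    rfl k0_pp_303

noncomputable def f_pp_313 : ℕ → ℕ → ℕ → ℕ → Bool := onCell 1610612736 536870912 536870912 536870912 536870912 50465866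
    (rowB 3 eng mog cd2q3 cd2q1 pd3 0 true true true .dn 3 1 3 (qsf 1610612736 536870912 536870912 536870912 3) ndB2q3 ndB2q1 pcB3 Cut.none Ext.none)

def k0_pp_313 : ∃ t, chk3 f_pp_313 t 1 1 1 = true :=
  ⟨(l 4), by decide +kernel⟩

theorem c_pp_313 : CertB 1610612736 536870912 536870912 536870912 536870912 50465866 3 eng mog cd2q3 cd2q1 pd3 true true true .dn 3 1 3
    ndB2q3 ndB2q1 pcB3 Cut.none Ext.none :=
  certB0 (fam := true) (s1 := true) (s2 := true) (a := 3) (b := 1) (c := 3) (cn := .dn) (n1 := ndB2q3) (n2 := ndB2q1) (pc := pcB3) (cut := Cut.none) (xt := Ext.none) (P1 := 1610612736) (W1 := 536870912) (P2 := 536870912) (W2 := 536870912) (P3 := 536870912) (W3 := 50465866) (N0 := 3) (En := eng) (mo := mog) (C1 := cd2q3) (C2 := cd2q1) (C3 := pd3)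
    rfl k0_pp_313

noncomputable def f_pm_001 : ℕ → ℕ → ℕ → ℕ → Bool := onCell 0 536870912 0 536870912 536870912 50465866
    (rowB 3 eng mog cd2q0 cd2q0 pd1 0 true true false .up 0 0 1 (qsf 0 536870912 0 536870912 1) ndB2q0 ndB2q0 pcB1 Cut.none Ext.none)

def k0_pm_001 : ∃ t, chk3 f_pm_001 t 1 1 1 = true :=
  ⟨(l 3), by decide +kernel⟩

theorem c_pm_001 : CertB 0 536870912 0 536870912 536870912 50465866 3 eng mog cd2q0 cd2q0 pd1 true true false .up 0 0 1
    ndB2q0 ndB2q0 pcB1 Cut.none Ext.none :=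
  certB0 (fam := true) (s1 := true) (s2 := false) (a := 0) (b := 0) (c := 1) (cn := .up) (n1 := ndB2q0) (n2 := ndB2q0) (pc := pcB1) (cut := Cut.none) (xt := Ext.none) (P1 := 0) (W1 := 536870912) (P2 := 0) (W2 := 536870912) (P3 := 536870912) (W3 := 50465866) (N0 := 3) (En := eng) (mo := mog) (C1 := cd2q0) (C2 := cd2q0) (C3 := pd1)
    rfl k0_pm_001

noncomputable def f_pm_011 : ℕ → ℕ → ℕ → ℕ → Bool := onCell 0 536870912 536870912 536870912 536870912 50465866
    (rowB 3 eng mog cd2q0 cd2q1 pd1 1 true true false .pnn 0 1 1 (qsf 0 536870912 536870912 536870912 1) ndB2q0 ndB2q1 pcB1 Cut.none Ext.none)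

def k0_pm_011 : ∃ t, chk3 f_pm_011 t 1 1 1 = true :=
  ⟨(l 3), by decide +kernel⟩

theorem c_pm_011 : CertB 0 536870912 536870912 536870912 536870912 50465866 3 eng mog cd2q0 cd2q1 pd1 true true false .pnn 0 1 1
    ndB2q0 ndB2q1 pcB1 Cut.none Ext.none :=
  certB1 (fam := true) (s1 := true) (s2 := false) (a := 0) (b := 1) (c := 1) (cn := .pnn) (n1 := ndB2q0) (n2 := ndB2q1) (pc := pcB1) (cut := Cut.none) (xt := Ext.none) (P1 := 0) (W1 := 536870912) (P2 := 536870912) (W2 := 536870912) (P3 := 536870912) (W3 := 50465866) (N0 := 3) (En := eng) (mo := mog) (C1 := cd2q0) (C2 := cd2q1) (C3 := pd1)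
    rfl (fun _ => rfl) k0_pm_011

noncomputable def f_pm_012 : ℕ → ℕ → ℕ → ℕ → Bool := onCell 1073741824 536870912 536870912 536870912 536870912 50465866
    (rowB 3 eng mog cd2q0 cd2q1 pd2 2 true true false .pnp 0 1 2 (qsf 0 536870912 536870912 536870912 2) ndB2q0 ndB2q1 pcB2 Cut.none Ext.none)

def k0_pm_012 : ∃ t, chk3 f_pm_012 t 1 1 1 = true :=
  ⟨(a (a (b (l 3) (l 3)) (a (b (a (a (l 3) (a (l 3) (b (l 2) (a (l 3) (b (a (l 16745336) (l 16745392)) (a (l 16726800) (l 16726640))))))) (b (l 2) (b (l 16746016) (l 16725472)))) (a (a (b (l 3) (b (l 3) (b (l 3) (a (l 3) (l 16575984))))) (a (b (b (l 3) (l 16665256)) (b (l 16624536) (b (l 16591064) (l 16567744)))) (b (a (b (l 16701272) (l 16661576)) (b (a (l 16699504) (l 16699392)) (a (l 16658888) (l 16658104)))) (a (b (l 16619024) (b (l 16584616) (l 16560816))) (a (b (l 16615568) (l 16568960)) (b (l 16614048) (l 16567280))))))) (b (b (l 16695888) (l 16651416)) (b (l 16600664) (l 16550216))))) (b (b (l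 2) (b (l 16753992) (l 16729472))) (b (b (l 16694248) (l 16641912)) (b (l 16575440) (b (l 16523888) (l 16492784))))))) (b (b (l 2) (a (b (l 2) (l 16770560)) (l 2))) (b (a (b (l 16728176) (l 16664696)) (l 16823472)) (a (b (l 16578336) (a (l 16476200) (l 16480920))) (b (l 16683216) (l 16554752)))))), by decide +kernel⟩

theorem c_pm_012 : CertB 0 536870912 536870912 536870912 536870912 50465866 3 eng mog cd2q0 cd2q1 pd2 true true false .pnp 0 1 2
    ndB2q0 ndB2q1 pcB2 Cut.none Ext.none :=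
  certB2 (fam := true) (s1 := true) (s2 := false) (a := 0) (b := 1) (c := 2) (cn := .pnp) (n1 := ndB2q0) (n2 := ndB2q1) (pc := pcB2) (cut := Cut.none) (xt := Ext.none) (P1 := 0) (W1 := 536870912) (P2 := 536870912) (W2 := 536870912) (P3 := 536870912) (W3 := 50465866) (N0 := 3) (En := eng) (mo := mog) (C1 := cd2q0) (C2 := cd2q1) (C3 := pd2)
    rfl (fun _ => rfl) k0_pm_012

noncomputable def cut_pm_022_a : Cut := Cut.of [[⟨0, 0, 0, 67108864⟩, ⟨1, 1, 0, 67108864⟩, ⟨2, 1, 0, 67108864⟩]]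

noncomputable def f_pm_022_a : ℕ → ℕ → ℕ → ℕ → Bool := onCell 1073741824 536870912 0 536870912 536870912 50465866
    (rowB 3 eng mog cd2q0 cd2q2a pd2 2 true true false .pp 0 2 2 (qsf 0 536870912 0 536870912 2) ndB2q0 ndB2q2a pcB2 cut_pm_022_a Ext.none)

def k0_pm_022_a : ∃ t, chk3 f_pm_022_a t 2 2 1 = true :=
  ⟨(a (a (l 1) (b (l 1) (a (l 1) (b (l 1) (a (l 1) (b (l 1) (a (l 1) (l 261489194791)))))))) (a (a (a (b (l 1) (b (b (l 208875759623) (l 246456739607)) (a (b (l 16518032) (l 16529664)) (b (l 16514232) (l 16525368))))) (b (a (b (l 1) (b (l 1) (l 16584008))) (b (a (l 1) (b (l 16456312) (l 16590000))) (a (c (l 16469176) (l 16472624)) (a (l 16469992) (l 16489728))))) (c (a (b (b (l 16489272) (l 16499720)) (l 16515160)) (a (b (l 16490672) (l 16510752)) (b (l 16488096) (l 16508080)))) (a (b (l 113849658983) (l 16514952)) (b (a (l 16491576) (b (l 16485000) (l 16494896))) (a (l 16512160) (l 16510472))))))) (a (b (b (l 16517472) (a (l 16466192) (l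 16464808))) (b (b (l 16480640) (l 16490432)) (l 16504648))) (b (b (l 16453952) (l 16464008)) (b (l 16482912) (l 16499544))))) (b (a (b (l 16454392) (l 16463416)) (l 16459992)) (a (b (l 16479696) (l 16492560)) (l 16584728))))), by decide +kernel⟩

def k1_pm_022_a : ∃ t, chk3 f_pm_022_a t 4 3 1 = true :=
  ⟨(a (b (l 1) (a (b (l 1) (l 6)) (a (b (b (l 1) (l 6)) (l 6)) (a (b (b (l 1) (l 6)) (l 6)) (a (b (b (b (l 1) (b (l 1) (l 6))) (l 6)) (l 6)) (b (b (b (l 1) (b (l 247530789623) (l 16655664))) (b (b (l 16660536) (l 16665368)) (l 16672560))) (b (l 16687416) (l 16706632)))))))) (b (a (b (l 1) (a (b (l 1) (a (l 1) (b (l 192769888855) (a (l 239477673383) (l 253973182263))))) (b (a (b (l 1) (l 206728505479)) (b (l 227666437367) (l 230887680855))) (a (b (a (l 197601711703) (l 16609536)) (l 16619416)) (b (l 16605632) (a (l 16615200) (l 16612304))))))) (b (a (b (a (l 1) (l 210486502407)) (a (l 238403827671) (l 219613339319))) (b (a (l 212097108055) (l 16546344))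 (b (l 16558472) (a (l 16567704) (l 16562608))))) (a (b (a (b (l 16584688) (l 16592448)) (b (l 16579824) (l 16587144))) (a (b (l 16600168) (l 16607808)) (l 16598072))) (b (a (l 16578192) (l 16572456)) (l 16588440))))) (b (a (a (b (b (a (a (l 226055935511) (l 246457020759)) (a (l 16635232) (l 16632360))) (a (a (b (l 16647912) (l 16652664)) (l 16647320)) (b (l 16640456) (l 16644872)))) (b (a (c (l 16658632) (a (l 16658848) (l 16655856))) (l 16651520)) (l 16685096))) (b (b (a (a (l 16629416) (l 16626408)) (l 16621760)) (l 16632952)) (l 16668408))) (b (b (l 16690984) (l 16669752)) (a (l 16637112) (l 16628104)))) (a (a (b (b (l 16674240) (l 16684080)) (b (l 16693608) (l 16702808))) (b (b (l 16662328) (l 16671992)) (l 16686064))) (b (a (l 16656552) (l 16647088)) (a (l 16675040) (l 16665272))))))), by decide +kernel⟩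

def k2_pm_022_a : ∃ t, chk3 f_pm_022_a t 5 3 1 = true :=
  ⟨(a (b (a (a (b (b (a (l 16541808) (l 16536912)) (l 16551448)) (l 16634864)) (b (a (l 16537448) (b (l 16568624) (l 16578992))) (a (l 16568456) (a (l 16566936) (l 16565472))))) (b (l 16566080) (l 16580808))) (a (a (b (b (l 16601272) (l 16620416)) (b (l 16638904) (l 16656760))) (b (a (b (l 16596888) (l 16615536)) (a (l 16604552) (a (l 16603376) (l 16602376)))) (a (l 16642848) (a (l 16640264) (b (l 16628800) (l 16646016)))))) (b (b (l 16586424) (l 16604000)) (b (l 16621272) (l 16638456))))) (b (b (l 16509072) (l 16553120)) (b (a (l 16582440) (l 16571336)) (a (l 16616472) (l 16604784))))), by decide +kernel⟩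

def k3_pm_022_a : ∃ t, chk3 f_pm_022_a t 3 1 1 = true :=
  ⟨(a (b (b (a (l 16534360) (l 16474072)) (a (b (l 16474912) (l 16472560)) (l 16499784))) (b (a (b (l 16493728) (l 16525480)) (b (l 16490464) (l 16520576))) (a (b (l 16557888) (l 16611488)) (b (l 16553224) (l 16594344))))) (a (b (b (l 16478376) (l 16484744)) (b (l 16535592) (b (l 16593640) (l 16645728)))) (b (b (a (l 16515688) (l 16558864)) (a (l 16527384) (l 16565048))) (b (a (l 16585088) (l 16613920)) (a (l 16675576) (b (l 16667384) (l 16726816))))))), by decide +kernel⟩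

theorem s4_pm_022_a : ∃ t, chk3 f_pm_022_a t 2 3 1 = true := ex3_a k1_pm_022_a k2_pm_022_a

theorem s5_pm_022_a : ∃ t, chk3 f_pm_022_a t 2 1 1 = true := ex3_b k0_pm_022_a s4_pm_022_a

theorem s6_pm_022_a : ∃ t, chk3 f_pm_022_a t 1 1 1 = true := ex3_a s5_pm_022_a k3_pm_022_a

theorem c_pm_022_a : CertB 0 536870912 0 536870912 536870912 50465866 3 eng mog cd2q0 cd2q2a pd2 true true false .pp 0 2 2
    ndB2q0 ndB2q2a pcB2 cut_pm_022_a Ext.none :=
  certB2 (fam := true) (s1 := true) (s2 := false) (a := 0) (b := 2) (c := 2) (cn := .pp) (n1 := ndB2q0) (n2 := ndB2q2a) (pc := pcB2) (cut := cut_pm_022_a) (xt := Ext.none) (P1 := 0) (W1 := 536870912) (P2 := 0) (W2 := 536870912) (P3 := 536870912) (W3 := 50465866) (N0 := 3) (En := eng) (mo := mog) (C1 := cd2q0) (C2 := cd2q2a) (C3 := pd2)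
    rfl (fun _ => rfl) s6_pm_022_a

noncomputable def cut_pm_022_b : Cut := Cut.of [[⟨0, 0, 0, 67108864⟩, ⟨1, 1, 0, 67108864⟩, ⟨2, 1, 0, 67108864⟩]]

noncomputable def f_pm_022_b : ℕ → ℕ → ℕ → ℕ → Bool := onCell 0 536870912 1073741824 536870912 536870912 50465866
    (rowB 3 eng mog cd2q0 cd2q2b pd2 1 true true false .pp 0 2 2 (qsf 0 536870912 1239849684 370763052 2) ndB2q0 ndB2q2b pcB2 cut_pm_022_b Ext.none)

def k0_pm_022_b : ∃ t, chk3 f_pm_022_b t 1 1 1 = true :=
  ⟨(a (b (b (l 1) (a (b (a (b (a (a (a (l 16676196807) (l 1)) (l 1)) (l 1)) (b (a (a (l 16513712) (l 172905507063)) (l 1)) (a (l 16502768) (l 282964037543)))) (l 1)) (b (a (a (a (l 16526128) (l 16422016)) (l 16536024)) (a (l 325376862679) (l 1))) (a (a (l 16380824) (l 16420464)) (a (l 16454640) (l 335040525671))))) (l 1))) (b (a (b (a (a (b (l 16358352) (l 16343128)) (l 16386632)) (b (l 16465632) (l 16425976))) (a (a (l 16327736) (l 16360056)) (l 16404464))) (b (a (b (l 381211457623)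 (l 217465889991)) (l 1)) (a (l 16552104) (l 448320365543)))) (b (a (a (l 16334792) (l 16388392)) (l 16654368)) (a (b (l 16365120) (a (l 16354240) (l 16396224))) (b (l 16443504) (l 16448800)))))) (a (b (l 1) (b (l 1) (b (a (l 403760567559) (l 1)) (a (l 16563208) (l 465500606935))))) (l 1))), by decide +kernel⟩

theorem c_pm_022_b : CertB 0 536870912 1239849684 370763052 536870912 50465866 3 eng mog cd2q0 cd2q2b pd2 true true false .pp 0 2 2
    ndB2q0 ndB2q2b pcB2 cut_pm_022_b Ext.none :=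
  certB1 (fam := true) (s1 := true) (s2 := false) (a := 0) (b := 2) (c := 2) (cn := .pp) (n1 := ndB2q0) (n2 := ndB2q2b) (pc := pcB2) (cut := cut_pm_022_b) (xt := Ext.none) (P1 := 0) (W1 := 536870912) (P2 := 1239849684) (W2 := 370763052) (P3 := 536870912) (W3 := 50465866) (N0 := 3) (En := eng) (mo := mog) (C1 := cd2q0) (C2 := cd2q2b) (C3 := pd2)
    rfl (fun _ => rfl) k0_pm_022_b

noncomputable def f_pm_023_a : ℕ → ℕ → ℕ → ℕ → Bool := onCell 1610612736 536870912 0 536870912 536870912 50465866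
    (rowB 3 eng mog cd2q0 cd2q2a pd3 2 true true false .up 0 2 3 (qsf 0 536870912 0 536870912 3) ndB2q0 ndB2q2a pcB3 Cut.none Ext.none)

def k0_pm_023_a : ∃ t, chk3 f_pm_023_a t 1 1 1 = true :=
  ⟨(a (a (a (b (b (l 16610104) (l 16618264)) (b (l 16674288) (a (l 16775224) (l 16776016)))) (b (b (l 16738264) (l 16741576)) (b (l 16767064) (l 16815912)))) (b (a (l 17031632) (l 2)) (b (l 2) (l 2)))) (l 2)), by decide +kernel⟩

theorem c_pm_023_a : CertB 0 536870912 0 536870912 536870912 50465866 3 eng mog cd2q0 cd2q2a pd3 true true false .up 0 2 3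
    ndB2q0 ndB2q2a pcB3 Cut.none Ext.none :=
  certB2 (fam := true) (s1 := true) (s2 := false) (a := 0) (b := 2) (c := 3) (cn := .up) (n1 := ndB2q0) (n2 := ndB2q2a) (pc := pcB3) (cut := Cut.none) (xt := Ext.none) (P1 := 0) (W1 := 536870912) (P2 := 0) (W2 := 536870912) (P3 := 536870912) (W3 := 50465866) (N0 := 3) (En := eng) (mo := mog) (C1 := cd2q0) (C2 := cd2q2a) (C3 := pd3)
    rfl (fun _ => rfl) k0_pm_023_a

noncomputable def f_pm_023_b : ℕ → ℕ → ℕ → ℕ → Bool := onCell 0 536870912 1610612736 536870912 536870912 50465866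
    (rowB 3 eng mog cd2q0 cd2q2b pd3 1 true true false .up 0 2 3 (qsf 0 536870912 1239849684 370763052 3) ndB2q0 ndB2q2b pcB3 Cut.none Ext.none)

def k0_pm_023_b : ∃ t, chk3 f_pm_023_b t 1 1 1 = true :=
  ⟨(b (b (a (a (b (b (l 16429312) (l 16438152)) (l 256724440663)) (b (l 16490184) (l 16516752))) (b (a (a (l 16505928) (l 16496352)) (l 538515094295)) (a (l 16543504) (l 273301302167)))) (a (b (a (l 242229647975) (l 16632944)) (a (l 2) (l 16720160))) (b (a (l 16635408) (l 16706712)) (a (l 16720872) (l 16717432))))) (l 4)), by decide +kernel⟩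

theorem c_pm_023_b : CertB 0 536870912 1239849684 370763052 536870912 50465866 3 eng mog cd2q0 cd2q2b pd3 true true false .up 0 2 3
    ndB2q0 ndB2q2b pcB3 Cut.none Ext.none :=
  certB1 (fam := true) (s1 := true) (s2 := false) (a := 0) (b := 2) (c := 3) (cn := .up) (n1 := ndB2q0) (n2 := ndB2q2b) (pc := pcB3) (cut := Cut.none) (xt := Ext.none) (P1 := 0) (W1 := 536870912) (P2 := 1239849684) (W2 := 370763052) (P3 := 536870912) (W3 := 50465866) (N0 := 3) (En := eng) (mo := mog) (C1 := cd2q0) (C2 := cd2q2b) (C3 := pd3)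
    rfl (fun _ => rfl) k0_pm_023_b

noncomputable def f_pm_033 : ℕ → ℕ → ℕ → ℕ → Bool := onCell 0 536870912 1610612736 536870912 536870912 50465866
    (rowB 3 eng mog cd2q0 cd2q3 pd3 1 true true false .pnn 0 3 3 (qsf 0 536870912 1610612736 536870912 3) ndB2q0 ndB2q3 pcB3 Cut.none Ext.none)

def k0_pm_033 : ∃ t, chk3 f_pm_033 t 1 1 1 = true :=
  ⟨(b (b (a (b (a (b (l 16406896) (l 16404744)) (l 1)) (a (a (l 16486400) (l 16489200)) (l 16516056))) (l 1)) (a (b (a (l 16595960) (l 16617384)) (b (a (l 16663624) (l 16681368)) (l 16917816))) (b (l 1) (a (l 16720440) (l 1))))) (l 4)), by decide +kernel⟩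

theorem c_pm_033 : CertB 0 536870912 1610612736 536870912 536870912 50465866 3 eng mog cd2q0 cd2q3 pd3 true true false .pnn 0 3 3
    ndB2q0 ndB2q3 pcB3 Cut.none Ext.none :=
  certB1 (fam := true) (s1 := true) (s2 := false) (a := 0) (b := 3) (c := 3) (cn := .pnn) (n1 := ndB2q0) (n2 := ndB2q3) (pc := pcB3) (cut := Cut.none) (xt := Ext.none) (P1 := 0) (W1 := 536870912) (P2 := 1610612736) (W2 := 536870912) (P3 := 536870912) (W3 := 50465866) (N0 := 3) (En := eng) (mo := mog) (C1 := cd2q0) (C2 := cd2q3) (C3 := pd3)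
    rfl (fun _ => rfl) k0_pm_033

noncomputable def f_pm_101 : ℕ → ℕ → ℕ → ℕ → Bool := onCell 536870912 536870912 0 536870912 536870912 50465866
    (rowB 3 eng mog cd2q1 cd2q0 pd1 2 true true false .npn 1 0 1 (qsf 536870912 536870912 0 536870912 1) ndB2q1 ndB2q0 pcB1 Cut.none Ext.none)

def k0_pm_101 : ∃ t, chk3 f_pm_101 t 1 1 1 = true :=
  ⟨(l 3), by decide +kernel⟩

theorem c_pm_101 : CertB 536870912 536870912 0 536870912 536870912 50465866 3 eng mog cd2q1 cd2q0 pd1 true true false .npn 1 0 1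
    ndB2q1 ndB2q0 pcB1 Cut.none Ext.none :=
  certB2 (fam := true) (s1 := true) (s2 := false) (a := 1) (b := 0) (c := 1) (cn := .npn) (n1 := ndB2q1) (n2 := ndB2q0) (pc := pcB1) (cut := Cut.none) (xt := Ext.none) (P1 := 536870912) (W1 := 536870912) (P2 := 0) (W2 := 536870912) (P3 := 536870912) (W3 := 50465866) (N0 := 3) (En := eng) (mo := mog) (C1 := cd2q1) (C2 := cd2q0) (C3 := pd1)
    rfl (fun _ => rfl) k0_pm_101

noncomputable def f_pm_102 : ℕ → ℕ → ℕ → ℕ → Bool := onCell 536870912 536870912 1073741824 536870912 536870912 50465866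
    (rowB 3 eng mog cd2q1 cd2q0 pd2 1 true true false .npp 1 0 2 (qsf 536870912 536870912 0 536870912 2) ndB2q1 ndB2q0 pcB2 Cut.none Ext.none)

def k0_pm_102 : ∃ t, chk3 f_pm_102 t 1 1 1 = true :=
  ⟨(b (b (a (l 3) (l 3)) (b (a (b (b (l 3) (b (l 3) (a (l 2) (b (l 3) (a (b (l 16745336) (l 16745392)) (b (l 16726800) (l 16726640))))))) (a (l 2) (a (l 16746016) (l 16725472)))) (b (b (a (l 3) (a (l 3) (a (l 3) (b (l 3) (l 16575984))))) (b (a (a (l 3) (l 16665256)) (a (l 16624536) (a (l 16591064) (l 16567744)))) (a (b (a (l 16701272) (l 16661576)) (a (b (l 16699504) (l 16699392)) (b (l 16658888) (l 16658104)))) (b (a (l 16619024) (a (l 16584616) (l 16560816))) (a (b (l 16615568) (l 16614048)) (b (l 16568960) (l 16567280))))))) (a (a (l 16695888) (l 16651416)) (a (l 16600664) (l 16550216))))) (a (a (l 2) (a (l 16753992) (l 16729472))) (a (a (l 16694248) (l 16641912)) (a (l 16575440) (a (l 16523888) (l 16492784))))))) (a (a (l 2) (b (a (l 2) (l 16770560))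 (l 2))) (a (b (a (l 16728176) (l 16664696)) (l 16823472)) (b (a (l 16578336) (b (l 16476200) (l 16480920))) (a (l 16683216) (l 16554752)))))), by decide +kernel⟩

theorem c_pm_102 : CertB 536870912 536870912 0 536870912 536870912 50465866 3 eng mog cd2q1 cd2q0 pd2 true true false .npp 1 0 2
    ndB2q1 ndB2q0 pcB2 Cut.none Ext.none :=
  certB1 (fam := true) (s1 := true) (s2 := false) (a := 1) (b := 0) (c := 2) (cn := .npp) (n1 := ndB2q1) (n2 := ndB2q0) (pc := pcB2) (cut := Cut.none) (xt := Ext.none) (P1 := 536870912) (W1 := 536870912) (P2 := 0) (W2 := 536870912) (P3 := 536870912) (W3 := 50465866) (N0 := 3) (En := eng) (mo := mog) (C1 := cd2q1) (C2 := cd2q0) (C3 := pd2)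
    rfl (fun _ => rfl) k0_pm_102

noncomputable def f_pm_112 : ℕ → ℕ → ℕ → ℕ → Bool := onCell 536870912 536870912 1073741824 536870912 536870912 50465866
    (rowB 3 eng mog cd2q1 cd2q1 pd2 1 true true false .dn 1 1 2 (qsf 536870912 536870912 536870912 536870912 2) ndB2q1 ndB2q1 pcB2 Cut.none Ext.none)

def k0_pm_112 : ∃ t, chk3 f_pm_112 t 1 1 1 = true :=
  ⟨(b (a (b (l 3) (b (b (b (l 3) (b (l 3) (a (b (l 3) (b (l 16763856) (l 16763832))) (b (l 3) (b (l 155189672967) (l 156263414791)))))) (a (a (l 16755464) (l 16765752)) (l 150357835735))) (a (a (l 16752672) (l 16776760)) (a (l 16766528) (l 16734152))))) (b (l 1) (b (l 1) (a (l 272764289031) (l 1))))) (a (b (a (a (l 16753512) (l 16824352)) (a (b (l 16817848) (l 16898984)) (l 16822872))) (a (b (l 16825592) (l 16855688)) (a (l 17076568) (l 17107680)))) (b (a (b (l 16729496) (l 16751808)) (b (l 1) (l 16647496))) (a (b (l 16899136) (l 17130352)) (a (l 16737016) (l 16563024)))))), by decide +kernel⟩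

theorem c_pm_112 : CertB 536870912 536870912 536870912 536870912 536870912 50465866 3 eng mog cd2q1 cd2q1 pd2 true true false .dn 1 1 2
    ndB2q1 ndB2q1 pcB2 Cut.none Ext.none :=
  certB1 (fam := true) (s1 := true) (s2 := false) (a := 1) (b := 1) (c := 2) (cn := .dn) (n1 := ndB2q1) (n2 := ndB2q1) (pc := pcB2) (cut := Cut.none) (xt := Ext.none) (P1 := 536870912) (W1 := 536870912) (P2 := 536870912) (W2 := 536870912) (P3 := 536870912) (W3 := 50465866) (N0 := 3) (En := eng) (mo := mog) (C1 := cd2q1) (C2 := cd2q1) (C3 := pd2)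
    rfl (fun _ => rfl) k0_pm_112

noncomputable def f_pm_113 : ℕ → ℕ → ℕ → ℕ → Bool := onCell 536870912 536870912 536870912 536870912 536870912 50465866
    (rowB 3 eng mog cd2q1 cd2q1 pd3 0 true true false .nn 1 1 3 (qsf 536870912 536870912 536870912 536870912 3) ndB2q1 ndB2q1 pcB3 Cut.none Ext.none)

def k0_pm_113 : ∃ t, chk3 f_pm_113 t 1 1 1 = true :=
  ⟨(a (b (a (l 1) (b (l 1) (l 185791487399))) (a (b (l 16810144) (l 16879200)) (b (l 17295480) (l 17175944)))) (b (b (a (l 16810144) (l 16879200)) (a (l 17295480) (l 17175944))) (a (l 17373456) (a (l 17112376) (a (l 17034312) (b (l 17057704) (b (l 16946568) (b (l 16878944) (a (l 16842632) (b (l 16828936) (a (l 16810104) (b (l 16803264) (a (l 16793704) (l 16787064)))))))))))))), by decide +kernel⟩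

theorem c_pm_113 : CertB 536870912 536870912 536870912 536870912 536870912 50465866 3 eng mog cd2q1 cd2q1 pd3 true true false .nn 1 1 3
    ndB2q1 ndB2q1 pcB3 Cut.none Ext.none :=
  certB0 (fam := true) (s1 := true) (s2 := false) (a := 1) (b := 1) (c := 3) (cn := .nn) (n1 := ndB2q1) (n2 := ndB2q1) (pc := pcB3) (cut := Cut.none) (xt := Ext.none) (P1 := 536870912) (W1 := 536870912) (P2 := 536870912) (W2 := 536870912) (P3 := 536870912) (W3 := 50465866) (N0 := 3) (En := eng) (mo := mog) (C1 := cd2q1) (C2 := cd2q1) (C3 := pd3)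
    rfl k0_pm_113

noncomputable def f_pm_123_a : ℕ → ℕ → ℕ → ℕ → Bool := onCell 1610612736 536870912 0 536870912 536870912 50465866
    (rowB 3 eng mog cd2q1 cd2q2a pd3 2 true true false .npn 1 2 3 (qsf 536870912 536870912 0 536870912 3) ndB2q1 ndB2q2a pcB3 Cut.none Ext.none)

def k0_pm_123_a : ∃ t, chk3 f_pm_123_a t 1 1 1 = true :=
  ⟨(a (a (a (b (l 1) (b (l 1) (a (l 16787904) (l 16817176)))) (b (b (l 1) (l 16749392)) (b (l 16790424) (l 17091024)))) (b (a (l 275985843479) (b (l 16898960) (l 16926640))) (a (b (l 16926680) (l 17072832)) (b (l 16948064) (l 16984808))))) (b (a (a (l 29763314311) (a (l 16752880) (l 4))) (l 4)) (b (a (a (l 16862680) (l 16835136)) (a (a (l 16763400) (l 4)) (l 4))) (a (a (l 16911904) (a (l 16767856) (b (l 16831832) (l 16862976)))) (a (a (l 16820616) (l 16836200)) (l 4)))))), by decide +kernel⟩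

theorem c_pm_123_a : CertB 536870912 536870912 0 536870912 536870912 50465866 3 eng mog cd2q1 cd2q2a pd3 true true false .npn 1 2 3
    ndB2q1 ndB2q2a pcB3 Cut.none Ext.none :=
  certB2 (fam := true) (s1 := true) (s2 := false) (a := 1) (b := 2) (c := 3) (cn := .npn) (n1 := ndB2q1) (n2 := ndB2q2a) (pc := pcB3) (cut := Cut.none) (xt := Ext.none) (P1 := 536870912) (W1 := 536870912) (P2 := 0) (W2 := 536870912) (P3 := 536870912) (W3 := 50465866) (N0 := 3) (En := eng) (mo := mog) (C1 := cd2q1) (C2 := cd2q2a) (C3 := pd3)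
    rfl (fun _ => rfl) k0_pm_123_a

noncomputable def f_pm_123_b : ℕ → ℕ → ℕ → ℕ → Bool := onCell 1610612736 536870912 1239849684 370763052 536870912 50465866
    (rowB 3 eng mog cd2q1 cd2q2b pd3 2 true true false .npn 1 2 3 (qsf 536870912 536870912 1239849684 370763052 3) ndB2q1 ndB2q2b pcB3 Cut.none Ext.none)

def k0_pm_123_b : ∃ t, chk3 f_pm_123_b t 1 1 1 = true :=
  ⟨(b (a (a (l 1) (a (l 16839888) (a (l 16723192) (l 4)))) (l 4)) (a (l 1) (l 4))), by decide +kernel⟩

theorem c_pm_123_b : CertB 536870912 536870912 1239849684 370763052 536870912 50465866 3 eng mog cd2q1 cd2q2b pd3 true true false .npn 1 2 3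
    ndB2q1 ndB2q2b pcB3 Cut.none Ext.none :=
  certB2 (fam := true) (s1 := true) (s2 := false) (a := 1) (b := 2) (c := 3) (cn := .npn) (n1 := ndB2q1) (n2 := ndB2q2b) (pc := pcB3) (cut := Cut.none) (xt := Ext.none) (P1 := 536870912) (W1 := 536870912) (P2 := 1239849684) (W2 := 370763052) (P3 := 536870912) (W3 := 50465866) (N0 := 3) (En := eng) (mo := mog) (C1 := cd2q1) (C2 := cd2q2b) (C3 := pd3)
    rfl (fun _ => rfl) k0_pm_123_b

noncomputable def f_pm_133 : ℕ → ℕ → ℕ → ℕ → Bool := onCell 536870912 536870912 1610612736 536870912 536870912 50465866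
    (rowB 3 eng mog cd2q1 cd2q3 pd3 0 true true false .dn 1 3 3 (qsf 536870912 536870912 1610612736 536870912 3) ndB2q1 ndB2q3 pcB3 Cut.none Ext.none)

def k0_pm_133 : ∃ t, chk3 f_pm_133 t 1 1 1 = true :=
  ⟨(l 4), by decide +kernel⟩

theorem c_pm_133 : CertB 536870912 536870912 1610612736 536870912 536870912 50465866 3 eng mog cd2q1 cd2q3 pd3 true true false .dn 1 3 3
    ndB2q1 ndB2q3 pcB3 Cut.none Ext.none :=
  certB0 (fam := true) (s1 := true) (s2 := false) (a := 1) (b := 3) (c := 3) (cn := .dn) (n1 := ndB2q1) (n2 := ndB2q3) (pc := pcB3) (cut := Cut.none) (xt := Ext.none) (P1 := 536870912) (W1 := 536870912) (P2 := 1610612736) (W2 := 536870912) (P3 := 536870912) (W3 := 50465866) (N0 := 3) (En := eng) (mo := mog) (C1 := cd2q1) (C2 := cd2q3) (C3 := pd3)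
    rfl k0_pm_133

noncomputable def cut_pm_202_a : Cut := Cut.of [[⟨0, 1, 0, 67108864⟩, ⟨1, 0, 0, 67108864⟩, ⟨2, 1, 0, 67108864⟩]]

noncomputable def f_pm_202_a : ℕ → ℕ → ℕ → ℕ → Bool := onCell 0 536870912 1073741824 536870912 536870912 50465866
    (rowB 3 eng mog cd2q2a cd2q0 pd2 1 true true false .pp 2 0 2 (qsf 0 536870912 0 536870912 2) ndB2q2a ndB2q0 pcB2 cut_pm_202_a Ext.none)

def k0_pm_202_a : ∃ t, chk3 f_pm_202_a t 2 1 1 = true :=
  ⟨(b (b (b (l 1) (a (l 1) (b (l 1) (a (l 1) (b (l 1) (a (l 1) (b (l 1) (l 262562936615)))))))) (b (b (a (b (l 1) (b (a (l 1) (a (l 1) (l 16584008))) (a (b (l 1) (a (l 16456312) (l 16542816))) (b (c (l 16469176) (l 16472624)) (b (l 16469992) (l 16489728)))))) (b (a (a (l 211023243927) (l 249141094503)) (b (a (l 16518032) (l 16529664)) (a (l 16514232) (l 16525368)))) (c (b (a (a (l 16489272) (l 16499720)) (l 16515160)) (a (b (l 16490672) (l 16488096)) (b (l 16510752) (l 16508080)))) (b (a (l 111165304743) (l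 16514952)) (a (b (l 16491576) (a (l 16485000) (l 16494896))) (b (l 16512160) (l 16510472))))))) (b (a (a (l 16517472) (b (l 16466192) (l 16464808))) (a (a (l 16480640) (l 16490432)) (l 16504648))) (a (a (l 16453952) (l 16464008)) (a (l 16482912) (l 16499544))))) (b (a (a (l 16454392) (l 16463416)) (a (l 16479696) (l 16492560))) (a (l 16459992) (a (l 16477528) (l 16483656)))))) (b (a (b (l 16534360) (l 16453096)) (b (a (l 16474912) (l 16472560)) (l 16499784))) (b (a (l 16478376) (l 16484744)) (a (b (l 16515688) (l 16558864)) (b (l 16527384) (l 16565048)))))), by decide +kernel⟩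

def k1_pm_202_a : ∃ t, chk3 f_pm_202_a t 3 4 1 = true :=
  ⟨(b (a (l 1) (b (a (l 1) (l 6)) (b (a (a (l 1) (l 6)) (l 6)) (b (a (a (l 1) (l 6)) (l 6)) (b (a (a (a (l 1) (a (l 1) (l 6))) (l 6)) (l 6)) (a (a (a (l 1) (a (l 248067660535) (l 16655664))) (a (a (l 16660536) (l 16665368)) (l 16672560))) (a (l 16687416) (l 16706632)))))))) (a (b (a (l 1) (b (a (l 1) (b (l 1) (a (b (l 1) (l 192769878903)) (b (l 241625157031) (l 253436311351))))) (a (b (a (l 1) (l 208875989127)) (a (l 229813921015) (l 229813939031))) (b (a (b (l 197601711703) (l 16609536)) (l 16619416)) (a (l 16605632) (l 16581656)))))) (a (b (a (b (l 1) (l 213170857287)) (b (a (l 1) (l 256120571351)) (l 219076468407))) (a (b (l 212097108215) (l 16546344)) (a (l 16558472) (b (l 16567704) (l 16562608))))) (b (a (b (a (l 16584688) (l 16592448)) (a (l 16579824) (l 16587144))) (b (a (l 16600168) (l 16607808)) (l 16598072))) (a (b (l 16578192) (l 16572456)) (l 16588440))))) (a (b (b (a (a (b (b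 (a (l 1) (l 252899482583)) (l 246457020759)) (b (l 16635232) (l 16632360))) (b (a (b (l 16647912) (l 16644984)) (l 16651144)) (a (l 16640456) (l 16644872)))) (a (b (c (l 16658632) (b (l 16658848) (l 16655856))) (l 16651520)) (l 16685096))) (a (a (b (b (l 16629416) (l 16626408)) (l 16621760)) (l 16632952)) (l 16668408))) (a (a (l 16690984) (l 16659272)) (b (l 16637112) (l 16628104)))) (b (b (a (a (l 16674240) (l 16684080)) (a (l 16693608) (l 16702808))) (a (a (l 16662328) (l 16671992)) (l 16686064))) (a (b (l 16656552) (l 16647088)) (b (l 16675040) (l 16665272))))))), by decide +kernel⟩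

def k2_pm_202_a : ∃ t, chk3 f_pm_202_a t 3 5 1 = true :=
  ⟨(b (a (b (b (a (a (b (l 16541808) (l 16536912)) (l 16551448)) (l 16655832)) (a (b (l 16537448) (a (l 16589600) (l 16558024))) (b (l 16568456) (b (l 16566936) (l 16565472))))) (a (l 16587048) (l 16580808))) (b (b (a (a (l 16601272) (l 16620416)) (a (l 16638904) (l 16656760))) (a (b (a (l 16596888) (l 16615536)) (b (l 16604552) (a (l 16593032) (l 16611176)))) (b (l 16642848) (b (l 16640264) (a (l 16628800) (l 16646016)))))) (a (a (l 16586424) (l 16604000)) (a (l 16621272) (l 16638456))))) (a (a (l 16530048) (b (l 16547912) (l 16537480))) (a (b (l 16582440) (l 16571336)) (b (l 16616472) (l 16604784))))), by decide +kernel⟩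

def k3_pm_202_a : ∃ t, chk3 f_pm_202_a t 3 3 1 = true :=
  ⟨(b (a (b (a (l 16493728) (l 16525480)) (a (l 16490464) (l 16520576))) (b (a (l 16557888) (l 16590520)) (a (l 16553224) (l 16594344)))) (b (a (l 16535592) (a (l 16593640) (l 16645728))) (a (b (l 16585088) (l 16613920)) (b (l 16675576) (a (l 16667384) (l 16726816)))))), by decide +kernel⟩

theorem s4_pm_202_a : ∃ t, chk3 f_pm_202_a t 3 2 1 = true := ex3_b k1_pm_202_a k2_pm_202_a

theorem s5_pm_202_a : ∃ t, chk3 f_pm_202_a t 3 1 1 = true := ex3_b s4_pm_202_a k3_pm_202_a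

theorem s6_pm_202_a : ∃ t, chk3 f_pm_202_a t 1 1 1 = true := ex3_a k0_pm_202_a s5_pm_202_a

theorem c_pm_202_a : CertB 0 536870912 0 536870912 536870912 50465866 3 eng mog cd2q2a cd2q0 pd2 true true false .pp 2 0 2
    ndB2q2a ndB2q0 pcB2 cut_pm_202_a Ext.none :=
  certB1 (fam := true) (s1 := true) (s2 := false) (a := 2) (b := 0) (c := 2) (cn := .pp) (n1 := ndB2q2a) (n2 := ndB2q0) (pc := pcB2) (cut := cut_pm_202_a) (xt := Ext.none) (P1 := 0) (W1 := 536870912) (P2 := 0) (W2 := 536870912) (P3 := 536870912) (W3 := 50465866) (N0 := 3) (En := eng) (mo := mog) (C1 := cd2q2a) (C2 := cd2q0) (C3 := pd2)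
    rfl (fun _ => rfl) s6_pm_202_a

noncomputable def cut_pm_202_b : Cut := Cut.of [[⟨0, 1, 0, 67108864⟩, ⟨1, 0, 0, 67108864⟩, ⟨2, 1, 0, 67108864⟩]]

noncomputable def f_pm_202_b : ℕ → ℕ → ℕ → ℕ → Bool := onCell 1073741824 536870912 0 536870912 536870912 50465866
    (rowB 3 eng mog cd2q2b cd2q0 pd2 2 true true false .pp 2 0 2 (qsf 1239849684 370763052 0 536870912 2) ndB2q2b ndB2q0 pcB2 cut_pm_202_b Ext.none)

def k0_pm_202_b : ∃ t, chk3 f_pm_202_b t 1 1 1 = true :=
  ⟨(a (b (a (l 1) (b (a (b (a (b (b (b (l 16595336) (l 1)) (l 1)) (l 1)) (a (b (b (l 16513712) (l 172905507063)) (l 1)) (b (l 16502768) (l 282964037543)))) (l 1)) (a (b (b (b (l 16526128) (l 16422016)) (l 16536024)) (b (l 308733864407) (l 1))) (b (b (l 16380824) (l 16420464)) (b (l 16454640) (l 335040525671))))) (l 1))) (l 1)) (a (b (b (a (b (b (a (l 16358352) (l 16343128)) (l 16386632)) (a (l 16465632) (l 16425976))) (b (b (l 16327736) (l 16360056)) (l 16404464))) (a (b (a (l 381211457623)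 (l 217465889991)) (l 1)) (b (l 16552104) (l 448320365543)))) (l 1)) (b (a (b (b (l 16334792) (l 16388392)) (l 16654368)) (b (a (l 16365120) (b (l 16354240) (l 16396224))) (a (l 16443504) (l 16448800)))) (b (a (b (l 403760567559) (l 1)) (b (l 16563208) (l 465500606935))) (l 1))))), by decide +kernel⟩

theorem c_pm_202_b : CertB 1239849684 370763052 0 536870912 536870912 50465866 3 eng mog cd2q2b cd2q0 pd2 true true false .pp 2 0 2
    ndB2q2b ndB2q0 pcB2 cut_pm_202_b Ext.none :=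
  certB2 (fam := true) (s1 := true) (s2 := false) (a := 2) (b := 0) (c := 2) (cn := .pp) (n1 := ndB2q2b) (n2 := ndB2q0) (pc := pcB2) (cut := cut_pm_202_b) (xt := Ext.none) (P1 := 1239849684) (W1 := 370763052) (P2 := 0) (W2 := 536870912) (P3 := 536870912) (W3 := 50465866) (N0 := 3) (En := eng) (mo := mog) (C1 := cd2q2b) (C2 := cd2q0) (C3 := pd2)
    rfl (fun _ => rfl) k0_pm_202_b

noncomputable def f_pm_203_a : ℕ → ℕ → ℕ → ℕ → Bool := onCell 0 536870912 1610612736 536870912 536870912 50465866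
    (rowB 3 eng mog cd2q2a cd2q0 pd3 1 true true false .up 2 0 3 (qsf 0 536870912 0 536870912 3) ndB2q2a ndB2q0 pcB3 Cut.none Ext.none)

def k0_pm_203_a : ∃ t, chk3 f_pm_203_a t 1 1 1 = true :=
  ⟨(b (b (b (a (a (l 16610104) (l 16618264)) (a (l 16674288) (b (l 16775224) (l 16776016)))) (a (a (l 16738264) (l 16741576)) (a (l 16767064) (l 16815912)))) (a (b (l 17031632) (l 2)) (a (l 2) (l 2)))) (l 2)), by decide +kernel⟩

theorem c_pm_203_a : CertB 0 536870912 0 536870912 536870912 50465866 3 eng mog cd2q2a cd2q0 pd3 true true false .up 2 0 3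
    ndB2q2a ndB2q0 pcB3 Cut.none Ext.none :=
  certB1 (fam := true) (s1 := true) (s2 := false) (a := 2) (b := 0) (c := 3) (cn := .up) (n1 := ndB2q2a) (n2 := ndB2q0) (pc := pcB3) (cut := Cut.none) (xt := Ext.none) (P1 := 0) (W1 := 536870912) (P2 := 0) (W2 := 536870912) (P3 := 536870912) (W3 := 50465866) (N0 := 3) (En := eng) (mo := mog) (C1 := cd2q2a) (C2 := cd2q0) (C3 := pd3)
    rfl (fun _ => rfl) k0_pm_203_a

noncomputable def f_pm_203_b : ℕ → ℕ → ℕ → ℕ → Bool := onCell 1239849684 370763052 1610612736 536870912 536870912 50465866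
    (rowB 3 eng mog cd2q2b cd2q0 pd3 1 true true false .up 2 0 3 (qsf 1239849684 370763052 0 536870912 3) ndB2q2b ndB2q0 pcB3 Cut.none Ext.none)

def k0_pm_203_b : ∃ t, chk3 f_pm_203_b t 1 1 1 = true :=
  ⟨(b (b (b (a (a (b (l 16484192) (l 16526424)) (l 16506672)) (a (l 16479160) (b (l 16427168) (l 16446584)))) (a (a (l 16652120) (l 16542528)) (a (l 16518536) (l 16518376)))) (b (a (l 16723840) (a (l 16633920) (l 16633360))) (a (a (l 16757128) (l 16717112)) (b (l 16701640) (l 4))))) (b (l 4) (l 4))), by decide +kernel⟩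

theorem c_pm_203_b : CertB 1239849684 370763052 0 536870912 536870912 50465866 3 eng mog cd2q2b cd2q0 pd3 true true false .up 2 0 3
    ndB2q2b ndB2q0 pcB3 Cut.none Ext.none :=
  certB1 (fam := true) (s1 := true) (s2 := false) (a := 2) (b := 0) (c := 3) (cn := .up) (n1 := ndB2q2b) (n2 := ndB2q0) (pc := pcB3) (cut := Cut.none) (xt := Ext.none) (P1 := 1239849684) (W1 := 370763052) (P2 := 0) (W2 := 536870912) (P3 := 536870912) (W3 := 50465866) (N0 := 3) (En := eng) (mo := mog) (C1 := cd2q2b) (C2 := cd2q0) (C3 := pd3)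
    rfl (fun _ => rfl) k0_pm_203_b

noncomputable def f_pm_213_a : ℕ → ℕ → ℕ → ℕ → Bool := onCell 0 536870912 1610612736 536870912 536870912 50465866
    (rowB 3 eng mog cd2q2a cd2q1 pd3 1 true true false .pnn 2 1 3 (qsf 0 536870912 536870912 536870912 3) ndB2q2a ndB2q1 pcB3 Cut.none Ext.none)

def k0_pm_213_a : ∃ t, chk3 f_pm_213_a t 1 1 1 = true :=
  ⟨(a (b (b (b (l 1) (a (l 1) (l 16749392))) (b (l 228741182247) (l 29763662663))) (b (b (l 29763314311) (b (l 16752880) (l 4))) (l 4))) (a (b (b (b (l 1) (l 16790424)) (b (l 16926680) (l 16948064))) (b (b (l 16841712) (l 16835136)) (b (b (l 16763400) (l 4)) (l 4)))) (b (b (b (b (l 16787904) (l 16817176)) (l 17091024)) (b (l 17072832) (l 16984808))) (b (b (l 16911904) (b (l 16767856) (a (l 16831832) (l 16862976)))) (b (b (l 16820600) (l 16857112)) (l 4)))))), by decide +kernel⟩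

theorem c_pm_213_a : CertB 0 536870912 536870912 536870912 536870912 50465866 3 eng mog cd2q2a cd2q1 pd3 true true false .pnn 2 1 3
    ndB2q2a ndB2q1 pcB3 Cut.none Ext.none :=
  certB1 (fam := true) (s1 := true) (s2 := false) (a := 2) (b := 1) (c := 3) (cn := .pnn) (n1 := ndB2q2a) (n2 := ndB2q1) (pc := pcB3) (cut := Cut.none) (xt := Ext.none) (P1 := 0) (W1 := 536870912) (P2 := 536870912) (W2 := 536870912) (P3 := 536870912) (W3 := 50465866) (N0 := 3) (En := eng) (mo := mog) (C1 := cd2q2a) (C2 := cd2q1) (C3 := pd3)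
    rfl (fun _ => rfl) k0_pm_213_a

noncomputable def f_pm_213_b : ℕ → ℕ → ℕ → ℕ → Bool := onCell 1239849684 370763052 1610612736 536870912 536870912 50465866
    (rowB 3 eng mog cd2q2b cd2q1 pd3 1 true true false .pnn 2 1 3 (qsf 1239849684 370763052 536870912 536870912 3) ndB2q2b ndB2q1 pcB3 Cut.none Ext.none)

def k0_pm_213_b : ∃ t, chk3 f_pm_213_b t 1 1 1 = true :=
  ⟨(a (b (b (l 1) (b (l 16839888) (a (l 16781064) (l 16719112)))) (l 4)) (b (l 1) (l 4))), by decide +kernel⟩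

theorem c_pm_213_b : CertB 1239849684 370763052 536870912 536870912 536870912 50465866 3 eng mog cd2q2b cd2q1 pd3 true true false .pnn 2 1 3
    ndB2q2b ndB2q1 pcB3 Cut.none Ext.none :=
  certB1 (fam := true) (s1 := true) (s2 := false) (a := 2) (b := 1) (c := 3) (cn := .pnn) (n1 := ndB2q2b) (n2 := ndB2q1) (pc := pcB3) (cut := Cut.none) (xt := Ext.none) (P1 := 1239849684) (W1 := 370763052) (P2 := 536870912) (W2 := 536870912) (P3 := 536870912) (W3 := 50465866) (N0 := 3) (En := eng) (mo := mog) (C1 := cd2q2b) (C2 := cd2q1) (C3 := pd3)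
    rfl (fun _ => rfl) k0_pm_213_b

noncomputable def f_pm_303 : ℕ → ℕ → ℕ → ℕ → Bool := onCell 1610612736 536870912 0 536870912 536870912 50465866
    (rowB 3 eng mog cd2q3 cd2q0 pd3 2 true true false .npn 3 0 3 (qsf 1610612736 536870912 0 536870912 3) ndB2q3 ndB2q0 pcB3 Cut.none Ext.none)

def k0_pm_303 : ∃ t, chk3 f_pm_303 t 1 1 1 = true :=
  ⟨(a (a (b (a (b (a (l 16406896) (l 16404744)) (l 1)) (b (b (l 16486400) (l 16489200)) (l 16516056))) (l 1)) (b (a (b (l 16595960) (l 16617384)) (a (b (l 16663624) (l 16681368)) (l 16917816))) (a (l 1) (b (l 16720440) (l 1))))) (l 4)), by decide +kernel⟩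

theorem c_pm_303 : CertB 1610612736 536870912 0 536870912 536870912 50465866 3 eng mog cd2q3 cd2q0 pd3 true true false .npn 3 0 3
    ndB2q3 ndB2q0 pcB3 Cut.none Ext.none :=
  certB2 (fam := true) (s1 := true) (s2 := false) (a := 3) (b := 0) (c := 3) (cn := .npn) (n1 := ndB2q3) (n2 := ndB2q0) (pc := pcB3) (cut := Cut.none) (xt := Ext.none) (P1 := 1610612736) (W1 := 536870912) (P2 := 0) (W2 := 536870912) (P3 := 536870912) (W3 := 50465866) (N0 := 3) (En := eng) (mo := mog) (C1 := cd2q3) (C2 := cd2q0) (C3 := pd3)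
    rfl (fun _ => rfl) k0_pm_303

noncomputable def f_pm_313 : ℕ → ℕ → ℕ → ℕ → Bool := onCell 1610612736 536870912 536870912 536870912 536870912 50465866
    (rowB 3 eng mog cd2q3 cd2q1 pd3 0 true true false .dn 3 1 3 (qsf 1610612736 536870912 536870912 536870912 3) ndB2q3 ndB2q1 pcB3 Cut.none Ext.none)

def k0_pm_313 : ∃ t, chk3 f_pm_313 t 1 1 1 = true :=
  ⟨(l 4), by decide +kernel⟩

theorem c_pm_313 : CertB 1610612736 536870912 536870912 536870912 536870912 50465866 3 eng mog cd2q3 cd2q1 pd3 true true false .dn 3 1 3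
    ndB2q3 ndB2q1 pcB3 Cut.none Ext.none :=
  certB0 (fam := true) (s1 := true) (s2 := false) (a := 3) (b := 1) (c := 3) (cn := .dn) (n1 := ndB2q3) (n2 := ndB2q1) (pc := pcB3) (cut := Cut.none) (xt := Ext.none) (P1 := 1610612736) (W1 := 536870912) (P2 := 536870912) (W2 := 536870912) (P3 := 536870912) (W3 := 50465866) (N0 := 3) (En := eng) (mo := mog) (C1 := cd2q3) (C2 := cd2q1) (C3 := pd3)
    rfl k0_pm_313

noncomputable def f_mm_001 : ℕ → ℕ → ℕ → ℕ → Bool := onCell 0 536870912 0 536870912 536870912 50465866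
    (rowB 3 eng mog cd2q0 cd2q0 pd1 0 true false false .up 0 0 1 (qsf 0 536870912 0 536870912 1) ndB2q0 ndB2q0 pcB1 Cut.none Ext.none)

def k0_mm_001 : ∃ t, chk3 f_mm_001 t 1 1 1 = true :=
  ⟨(l 4), by decide +kernel⟩

theorem c_mm_001 : CertB 0 536870912 0 536870912 536870912 50465866 3 eng mog cd2q0 cd2q0 pd1 true false false .up 0 0 1
    ndB2q0 ndB2q0 pcB1 Cut.none Ext.none :=
  certB0 (fam := true) (s1 := false) (s2 := false) (a := 0) (b := 0) (c := 1) (cn := .up) (n1 := ndB2q0) (n2 := ndB2q0) (pc := pcB1) (cut := Cut.none) (xt := Ext.none) (P1 := 0) (W1 := 536870912) (P2 := 0) (W2 := 536870912) (P3 := 536870912) (W3 := 50465866) (N0 := 3) (En := eng) (mo := mog) (C1 := cd2q0) (C2 := cd2q0) (C3 := pd1)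
    rfl k0_mm_001

noncomputable def f_mm_011 : ℕ → ℕ → ℕ → ℕ → Bool := onCell 0 536870912 536870912 536870912 536870912 50465866
    (rowB 3 eng mog cd2q0 cd2q1 pd1 0 true false false .pnn 0 1 1 (qsf 0 536870912 536870912 536870912 1) ndB2q0 ndB2q1 pcB1 Cut.none Ext.none)

def k0_mm_011 : ∃ t, chk3 f_mm_011 t 1 1 1 = true :=
  ⟨(l 4), by decide +kernel⟩

theorem c_mm_011 : CertB 0 536870912 536870912 536870912 536870912 50465866 3 eng mog cd2q0 cd2q1 pd1 true false false .pnn 0 1 1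
    ndB2q0 ndB2q1 pcB1 Cut.none Ext.none :=
  certB0 (fam := true) (s1 := false) (s2 := false) (a := 0) (b := 1) (c := 1) (cn := .pnn) (n1 := ndB2q0) (n2 := ndB2q1) (pc := pcB1) (cut := Cut.none) (xt := Ext.none) (P1 := 0) (W1 := 536870912) (P2 := 536870912) (W2 := 536870912) (P3 := 536870912) (W3 := 50465866) (N0 := 3) (En := eng) (mo := mog) (C1 := cd2q0) (C2 := cd2q1) (C3 := pd1)
    rfl k0_mm_011

noncomputable def f_mm_012 : ℕ → ℕ → ℕ → ℕ → Bool := onCell 0 536870912 536870912 536870912 536870912 50465866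
    (rowB 3 eng mog cd2q0 cd2q1 pd2 0 true false false .pnp 0 1 2 (qsf 0 536870912 536870912 536870912 2) ndB2q0 ndB2q1 pcB2 Cut.none Ext.none)

def k0_mm_012 : ∃ t, chk3 f_mm_012 t 1 1 1 = true :=
  ⟨(l 4), by decide +kernel⟩

theorem c_mm_012 : CertB 0 536870912 536870912 536870912 536870912 50465866 3 eng mog cd2q0 cd2q1 pd2 true false false .pnp 0 1 2
    ndB2q0 ndB2q1 pcB2 Cut.none Ext.none :=
  certB0 (fam := true) (s1 := false) (s2 := false) (a := 0) (b := 1) (c := 2) (cn := .pnp) (n1 := ndB2q0) (n2 := ndB2q1) (pc := pcB2) (cut := Cut.none) (xt := Ext.none) (P1 := 0) (W1 := 536870912) (P2 := 536870912) (W2 := 536870912) (P3 := 536870912) (W3 := 50465866) (N0 := 3) (En := eng) (mo := mog) (C1 := cd2q0) (C2 := cd2q1) (C3 := pd2)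
    rfl k0_mm_012

noncomputable def f_mm_022_a : ℕ → ℕ → ℕ → ℕ → Bool := onCell 0 536870912 0 536870912 536870912 50465866
    (rowB 3 eng mog cd2q0 cd2q2a pd2 0 true false false .pp 0 2 2 (qsf 0 536870912 0 536870912 2) ndB2q0 ndB2q2a pcB2 Cut.none Ext.none)

def k0_mm_022_a : ∃ t, chk3 f_mm_022_a t 1 1 1 = true :=
  ⟨(l 5), by decide +kernel⟩

theorem c_mm_022_a : CertB 0 536870912 0 536870912 536870912 50465866 3 eng mog cd2q0 cd2q2a pd2 true false false .pp 0 2 2
    ndB2q0 ndB2q2a pcB2 Cut.none Ext.none :=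
  certB0 (fam := true) (s1 := false) (s2 := false) (a := 0) (b := 2) (c := 2) (cn := .pp) (n1 := ndB2q0) (n2 := ndB2q2a) (pc := pcB2) (cut := Cut.none) (xt := Ext.none) (P1 := 0) (W1 := 536870912) (P2 := 0) (W2 := 536870912) (P3 := 536870912) (W3 := 50465866) (N0 := 3) (En := eng) (mo := mog) (C1 := cd2q0) (C2 := cd2q2a) (C3 := pd2)
    rfl k0_mm_022_a

noncomputable def f_mm_022_b : ℕ → ℕ → ℕ → ℕ → Bool := onCell 0 536870912 1239849684 370763052 536870912 50465866
    (rowB 3 eng mog cd2q0 cd2q2b pd2 0 true false false .pp 0 2 2 (qsf 0 536870912 1239849684 370763052 2) ndB2q0 ndB2q2b pcB2 Cut.none Ext.none)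

def k0_mm_022_b : ∃ t, chk3 f_mm_022_b t 1 1 1 = true :=
  ⟨(l 5), by decide +kernel⟩

theorem c_mm_022_b : CertB 0 536870912 1239849684 370763052 536870912 50465866 3 eng mog cd2q0 cd2q2b pd2 true false false .pp 0 2 2
    ndB2q0 ndB2q2b pcB2 Cut.none Ext.none :=
  certB0 (fam := true) (s1 := false) (s2 := false) (a := 0) (b := 2) (c := 2) (cn := .pp) (n1 := ndB2q0) (n2 := ndB2q2b) (pc := pcB2) (cut := Cut.none) (xt := Ext.none) (P1 := 0) (W1 := 536870912) (P2 := 1239849684) (W2 := 370763052) (P3 := 536870912) (W3 := 50465866) (N0 := 3) (En := eng) (mo := mog) (C1 := cd2q0) (C2 := cd2q2b) (C3 := pd2)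
    rfl k0_mm_022_b

noncomputable def f_mm_023_a : ℕ → ℕ → ℕ → ℕ → Bool := onCell 0 536870912 0 536870912 536870912 50465866
    (rowB 3 eng mog cd2q0 cd2q2a pd3 0 true false false .up 0 2 3 (qsf 0 536870912 0 536870912 3) ndB2q0 ndB2q2a pcB3 Cut.none Ext.none)

def k0_mm_023_a : ∃ t, chk3 f_mm_023_a t 1 1 1 = true :=
  ⟨(l 5), by decide +kernel⟩

theorem c_mm_023_a : CertB 0 536870912 0 536870912 536870912 50465866 3 eng mog cd2q0 cd2q2a pd3 true false false .up 0 2 3
    ndB2q0 ndB2q2a pcB3 Cut.none Ext.none :=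
  certB0 (fam := true) (s1 := false) (s2 := false) (a := 0) (b := 2) (c := 3) (cn := .up) (n1 := ndB2q0) (n2 := ndB2q2a) (pc := pcB3) (cut := Cut.none) (xt := Ext.none) (P1 := 0) (W1 := 536870912) (P2 := 0) (W2 := 536870912) (P3 := 536870912) (W3 := 50465866) (N0 := 3) (En := eng) (mo := mog) (C1 := cd2q0) (C2 := cd2q2a) (C3 := pd3)
    rfl k0_mm_023_a

noncomputable def f_mm_023_b : ℕ → ℕ → ℕ → ℕ → Bool := onCell 0 536870912 1239849684 370763052 536870912 50465866
    (rowB 3 eng mog cd2q0 cd2q2b pd3 0 true false false .up 0 2 3 (qsf 0 536870912 1239849684 370763052 3) ndB2q0 ndB2q2b pcB3 Cut.none Ext.none)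

def k0_mm_023_b : ∃ t, chk3 f_mm_023_b t 1 1 1 = true :=
  ⟨(l 5), by decide +kernel⟩

theorem c_mm_023_b : CertB 0 536870912 1239849684 370763052 536870912 50465866 3 eng mog cd2q0 cd2q2b pd3 true false false .up 0 2 3
    ndB2q0 ndB2q2b pcB3 Cut.none Ext.none :=
  certB0 (fam := true) (s1 := false) (s2 := false) (a := 0) (b := 2) (c := 3) (cn := .up) (n1 := ndB2q0) (n2 := ndB2q2b) (pc := pcB3) (cut := Cut.none) (xt := Ext.none) (P1 := 0) (W1 := 536870912) (P2 := 1239849684) (W2 := 370763052) (P3 := 536870912) (W3 := 50465866) (N0 := 3) (En := eng) (mo := mog) (C1 := cd2q0) (C2 := cd2q2b) (C3 := pd3)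
    rfl k0_mm_023_b

noncomputable def f_mm_033 : ℕ → ℕ → ℕ → ℕ → Bool := onCell 0 536870912 1610612736 536870912 536870912 50465866
    (rowB 3 eng mog cd2q0 cd2q3 pd3 0 true false false .pnn 0 3 3 (qsf 0 536870912 1610612736 536870912 3) ndB2q0 ndB2q3 pcB3 Cut.none Ext.none)

def k0_mm_033 : ∃ t, chk3 f_mm_033 t 1 1 1 = true :=
  ⟨(l 5), by decide +kernel⟩

theorem c_mm_033 : CertB 0 536870912 1610612736 536870912 536870912 50465866 3 eng mog cd2q0 cd2q3 pd3 true false false .pnn 0 3 3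
    ndB2q0 ndB2q3 pcB3 Cut.none Ext.none :=
  certB0 (fam := true) (s1 := false) (s2 := false) (a := 0) (b := 3) (c := 3) (cn := .pnn) (n1 := ndB2q0) (n2 := ndB2q3) (pc := pcB3) (cut := Cut.none) (xt := Ext.none) (P1 := 0) (W1 := 536870912) (P2 := 1610612736) (W2 := 536870912) (P3 := 536870912) (W3 := 50465866) (N0 := 3) (En := eng) (mo := mog) (C1 := cd2q0) (C2 := cd2q3) (C3 := pd3)
    rfl k0_mm_033

noncomputable def f_mm_101 : ℕ → ℕ → ℕ → ℕ → Bool := onCell 536870912 536870912 0 536870912 536870912 50465866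
    (rowB 3 eng mog cd2q1 cd2q0 pd1 0 true false false .npn 1 0 1 (qsf 536870912 536870912 0 536870912 1) ndB2q1 ndB2q0 pcB1 Cut.none Ext.none)

def k0_mm_101 : ∃ t, chk3 f_mm_101 t 1 1 1 = true :=
  ⟨(l 4), by decide +kernel⟩

theorem c_mm_101 : CertB 536870912 536870912 0 536870912 536870912 50465866 3 eng mog cd2q1 cd2q0 pd1 true false false .npn 1 0 1
    ndB2q1 ndB2q0 pcB1 Cut.none Ext.none :=
  certB0 (fam := true) (s1 := false) (s2 := false) (a := 1) (b := 0) (c := 1) (cn := .npn) (n1 := ndB2q1) (n2 := ndB2q0) (pc := pcB1) (cut := Cut.none) (xt := Ext.none) (P1 := 536870912) (W1 := 536870912) (P2 := 0) (W2 := 536870912) (P3 := 536870912) (W3 := 50465866) (N0 := 3) (En := eng) (mo := mog) (C1 := cd2q1) (C2 := cd2q0) (C3 := pd1)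
    rfl k0_mm_101

noncomputable def f_mm_102 : ℕ → ℕ → ℕ → ℕ → Bool := onCell 536870912 536870912 0 536870912 536870912 50465866
    (rowB 3 eng mog cd2q1 cd2q0 pd2 0 true false false .npp 1 0 2 (qsf 536870912 536870912 0 536870912 2) ndB2q1 ndB2q0 pcB2 Cut.none Ext.none)

def k0_mm_102 : ∃ t, chk3 f_mm_102 t 1 1 1 = true :=
  ⟨(l 4), by decide +kernel⟩

theorem c_mm_102 : CertB 536870912 536870912 0 536870912 536870912 50465866 3 eng mog cd2q1 cd2q0 pd2 true false false .npp 1 0 2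
    ndB2q1 ndB2q0 pcB2 Cut.none Ext.none :=
  certB0 (fam := true) (s1 := false) (s2 := false) (a := 1) (b := 0) (c := 2) (cn := .npp) (n1 := ndB2q1) (n2 := ndB2q0) (pc := pcB2) (cut := Cut.none) (xt := Ext.none) (P1 := 536870912) (W1 := 536870912) (P2 := 0) (W2 := 536870912) (P3 := 536870912) (W3 := 50465866) (N0 := 3) (En := eng) (mo := mog) (C1 := cd2q1) (C2 := cd2q0) (C3 := pd2)
    rfl k0_mm_102

noncomputable def f_mm_112 : ℕ → ℕ → ℕ → ℕ → Bool := onCell 536870912 536870912 536870912 536870912 536870912 50465866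
    (rowB 3 eng mog cd2q1 cd2q1 pd2 0 true false false .dn 1 1 2 (qsf 536870912 536870912 536870912 536870912 2) ndB2q1 ndB2q1 pcB2 Cut.none Ext.none)

def k0_mm_112 : ∃ t, chk3 f_mm_112 t 1 1 1 = true :=
  ⟨(l 4), by decide +kernel⟩

theorem c_mm_112 : CertB 536870912 536870912 536870912 536870912 536870912 50465866 3 eng mog cd2q1 cd2q1 pd2 true false false .dn 1 1 2
    ndB2q1 ndB2q1 pcB2 Cut.none Ext.none :=
  certB0 (fam := true) (s1 := false) (s2 := false) (a := 1) (b := 1) (c := 2) (cn := .dn) (n1 := ndB2q1) (n2 := ndB2q1) (pc := pcB2) (cut := Cut.none) (xt := Ext.none) (P1 := 536870912) (W1 := 536870912) (P2 := 536870912) (W2 := 536870912) (P3 := 536870912) (W3 := 50465866) (N0 := 3) (En := eng) (mo := mog) (C1 := cd2q1) (C2 := cd2q1) (C3 := pd2)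
    rfl k0_mm_112

noncomputable def f_mm_113 : ℕ → ℕ → ℕ → ℕ → Bool := onCell 536870912 536870912 536870912 536870912 536870912 50465866
    (rowB 3 eng mog cd2q1 cd2q1 pd3 0 true false false .nn 1 1 3 (qsf 536870912 536870912 536870912 536870912 3) ndB2q1 ndB2q1 pcB3 Cut.none Ext.none)

def k0_mm_113 : ∃ t, chk3 f_mm_113 t 1 1 1 = true :=
  ⟨(l 4), by decide +kernel⟩

theorem c_mm_113 : CertB 536870912 536870912 536870912 536870912 536870912 50465866 3 eng mog cd2q1 cd2q1 pd3 true false false .nn 1 1 3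
    ndB2q1 ndB2q1 pcB3 Cut.none Ext.none :=
  certB0 (fam := true) (s1 := false) (s2 := false) (a := 1) (b := 1) (c := 3) (cn := .nn) (n1 := ndB2q1) (n2 := ndB2q1) (pc := pcB3) (cut := Cut.none) (xt := Ext.none) (P1 := 536870912) (W1 := 536870912) (P2 := 536870912) (W2 := 536870912) (P3 := 536870912) (W3 := 50465866) (N0 := 3) (En := eng) (mo := mog) (C1 := cd2q1) (C2 := cd2q1) (C3 := pd3)
    rfl k0_mm_113

noncomputable def f_mm_123_a : ℕ → ℕ → ℕ → ℕ → Bool := onCell 536870912 536870912 0 536870912 536870912 50465866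
    (rowB 3 eng mog cd2q1 cd2q2a pd3 0 true false false .npn 1 2 3 (qsf 536870912 536870912 0 536870912 3) ndB2q1 ndB2q2a pcB3 Cut.none Ext.none)

def k0_mm_123_a : ∃ t, chk3 f_mm_123_a t 1 1 1 = true :=
  ⟨(l 4), by decide +kernel⟩

theorem c_mm_123_a : CertB 536870912 536870912 0 536870912 536870912 50465866 3 eng mog cd2q1 cd2q2a pd3 true false false .npn 1 2 3
    ndB2q1 ndB2q2a pcB3 Cut.none Ext.none :=
  certB0 (fam := true) (s1 := false) (s2 := false) (a := 1) (b := 2) (c := 3) (cn := .npn) (n1 := ndB2q1) (n2 := ndB2q2a) (pc := pcB3) (cut := Cut.none) (xt := Ext.none) (P1 := 536870912) (W1 := 536870912) (P2 := 0) (W2 := 536870912) (P3 := 536870912) (W3 := 50465866) (N0 := 3) (En := eng) (mo := mog) (C1 := cd2q1) (C2 := cd2q2a) (C3 := pd3)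
    rfl k0_mm_123_a

noncomputable def f_mm_123_b : ℕ → ℕ → ℕ → ℕ → Bool := onCell 536870912 536870912 1239849684 370763052 536870912 50465866
    (rowB 3 eng mog cd2q1 cd2q2b pd3 0 true false false .npn 1 2 3 (qsf 536870912 536870912 1239849684 370763052 3) ndB2q1 ndB2q2b pcB3 Cut.none Ext.none)

def k0_mm_123_b : ∃ t, chk3 f_mm_123_b t 1 1 1 = true :=
  ⟨(l 4), by decide +kernel⟩

theorem c_mm_123_b : CertB 536870912 536870912 1239849684 370763052 536870912 50465866 3 eng mog cd2q1 cd2q2b pd3 true false false .npn 1 2 3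
    ndB2q1 ndB2q2b pcB3 Cut.none Ext.none :=
  certB0 (fam := true) (s1 := false) (s2 := false) (a := 1) (b := 2) (c := 3) (cn := .npn) (n1 := ndB2q1) (n2 := ndB2q2b) (pc := pcB3) (cut := Cut.none) (xt := Ext.none) (P1 := 536870912) (W1 := 536870912) (P2 := 1239849684) (W2 := 370763052) (P3 := 536870912) (W3 := 50465866) (N0 := 3) (En := eng) (mo := mog) (C1 := cd2q1) (C2 := cd2q2b) (C3 := pd3)
    rfl k0_mm_123_b

noncomputable def f_mm_133 : ℕ → ℕ → ℕ → ℕ → Bool := onCell 536870912 536870912 1610612736 536870912 536870912 50465866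
    (rowB 3 eng mog cd2q1 cd2q3 pd3 0 true false false .dn 1 3 3 (qsf 536870912 536870912 1610612736 536870912 3) ndB2q1 ndB2q3 pcB3 Cut.none Ext.none)

def k0_mm_133 : ∃ t, chk3 f_mm_133 t 1 1 1 = true :=
  ⟨(l 4), by decide +kernel⟩

theorem c_mm_133 : CertB 536870912 536870912 1610612736 536870912 536870912 50465866 3 eng mog cd2q1 cd2q3 pd3 true false false .dn 1 3 3
    ndB2q1 ndB2q3 pcB3 Cut.none Ext.none :=
  certB0 (fam := true) (s1 := false) (s2 := false) (a := 1) (b := 3) (c := 3) (cn := .dn) (n1 := ndB2q1) (n2 := ndB2q3) (pc := pcB3) (cut := Cut.none) (xt := Ext.none) (P1 := 536870912) (W1 := 536870912) (P2 := 1610612736) (W2 := 536870912) (P3 := 536870912) (W3 := 50465866) (N0 := 3) (En := eng) (mo := mog) (C1 := cd2q1) (C2 := cd2q3) (C3 := pd3)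
    rfl k0_mm_133

noncomputable def cut_mm_202_a : Cut := Cut.of [[⟨0, 1, 0, 67108864⟩, ⟨1, 0, 0, 67108864⟩, ⟨2, 1, 0, 67108864⟩]]

noncomputable def f_mm_202_a : ℕ → ℕ → ℕ → ℕ → Bool := onCell 0 536870912 0 536870912 536870912 50465866
    (rowB 3 eng mog cd2q2a cd2q0 pd2 0 true false false .pp 2 0 2 (qsf 0 536870912 0 536870912 2) ndB2q2a ndB2q0 pcB2 cut_mm_202_a Ext.none)

def k0_mm_202_a : ∃ t, chk3 f_mm_202_a t 1 1 1 = true :=
  ⟨(b (a (b (b (a (b (a (b (l 16460184) (l 16473528)) (b (l 16471968) (l 16486816))) (a (l 16491096) (l 16506912))) (b (a (b (b (l 16489896) (l 16476784)) (a (l 16503360) (l 16536888))) (b (a (l 16513632) (l 16529864)) (b (l 16597088) (l 16605488)))) (a (a (l 16546304) (b (l 16531680) (l 16546984))) (a (b (l 16588592) (l 16562824)) (b (l 16605560) (l 16580672)))))) (a (b (a (l 16516824) (l 16535520)) (l 16555872)) (b (a (l 16647592) (b (l 16588816) (l 16605432))) (a (l 16658152) (l 16627264))))) (b (a (b (l 16583904)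 (l 16608904)) (b (a (l 16620360) (l 4)) (l 4))) (a (b (l 16630608) (l 4)) (l 4)))) (b (a (b (b (a (a (b (l 16548728) (l 16628432)) (b (b (l 16566240) (l 16574480)) (b (l 16582952) (l 16591616)))) (b (a (b (l 16590736) (l 16599000)) (b (b (l 16637944) (l 16620416)) (l 16626520))) (a (l 16590896) (l 16644632)))) (a (a (b (l 16582944) (l 16663560)) (b (l 16604928) (l 16664784))) (b (a (b (l 16625152) (l 16634192)) (b (l 16673632) (l 16661304))) (a (l 16668040) (l 4))))) (a (b (b (a (l 16617968) (l 16723440)) (l 16707384)) (l 4)) (l 4))) (b (a (b (b (a (b (a (l 16662360) (b (l 16655560) (l 16659352))) (a (l 16649056) (l 16665168))) (b (a (b (l 6) (l 16676160)) (l 6)) (a (l 16682104) (l 16710272)))) (a (b (l 16665624) (l 16674240)) (b (a (l 16690472) (l 16708032)) (a (l 16698848) (l 4))))) (b (a (a (l 16699960) (l 4)) (l 4)) (l 4))) (b (a (b (l 6) (b (l 6) (l 4))) (l 6)) (l 4))) (l 4))) (l 4))) (l 4)), by decide +kernel⟩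

theorem c_mm_202_a : CertB 0 536870912 0 536870912 536870912 50465866 3 eng mog cd2q2a cd2q0 pd2 true false false .pp 2 0 2
    ndB2q2a ndB2q0 pcB2 cut_mm_202_a Ext.none :=
  certB0 (fam := true) (s1 := false) (s2 := false) (a := 2) (b := 0) (c := 2) (cn := .pp) (n1 := ndB2q2a) (n2 := ndB2q0) (pc := pcB2) (cut := cut_mm_202_a) (xt := Ext.none) (P1 := 0) (W1 := 536870912) (P2 := 0) (W2 := 536870912) (P3 := 536870912) (W3 := 50465866) (N0 := 3) (En := eng) (mo := mog) (C1 := cd2q2a) (C2 := cd2q0) (C3 := pd2)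
    rfl k0_mm_202_a

noncomputable def cut_mm_202_b : Cut := Cut.of [[⟨0, 1, 0, 67108864⟩, ⟨1, 0, 0, 67108864⟩, ⟨2, 1, 0, 67108864⟩]]

noncomputable def f_mm_202_b : ℕ → ℕ → ℕ → ℕ → Bool := onCell 1073741824 536870912 0 536870912 536870912 50465866
    (rowB 3 eng mog cd2q2b cd2q0 pd2 2 true false false .pp 2 0 2 (qsf 1239849684 370763052 0 536870912 2) ndB2q2b ndB2q0 pcB2 cut_mm_202_b Ext.none)

def k0_mm_202_b : ∃ t, chk3 f_mm_202_b t 1 1 1 = true :=
  ⟨(a (b (a (l 1) (b (a (b (b (a (b (l 141767002999) (l 1)) (b (l 16480408) (l 16505208))) (a (l 1) (a (l 1) (l 16536696)))) (l 1)) (b (b (b (l 16435784) (l 16453816)) (a (l 16483896) (l 16421824))) (a (l 190622406519) (l 16577464)))) (l 1))) (l 1)) (a (b (b (a (b (b (a (l 16314360) (l 16246600)) (l 16385792)) (a (l 16484416) (l 16431608))) (b (a (l 16239544) (l 16198376)) (l 16487032))) (a (b (a (l 142304082855) (l 16611800)) (l 1)) (b (a (l 16539200) (l 16481056)) (a (l 172905794711) (l 16670632)))))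 (l 1)) (b (a (b (b (a (l 16158864) (l 16118720)) (a (l 16296840) (l 16259888))) (b (l 16551872) (l 4))) (b (b (a (l 16082448) (l 16056176)) (l 4)) (l 4))) (l 4)))), by decide +kernel⟩

theorem c_mm_202_b : CertB 1239849684 370763052 0 536870912 536870912 50465866 3 eng mog cd2q2b cd2q0 pd2 true false false .pp 2 0 2
    ndB2q2b ndB2q0 pcB2 cut_mm_202_b Ext.none :=
  certB2 (fam := true) (s1 := false) (s2 := false) (a := 2) (b := 0) (c := 2) (cn := .pp) (n1 := ndB2q2b) (n2 := ndB2q0) (pc := pcB2) (cut := cut_mm_202_b) (xt := Ext.none) (P1 := 1239849684) (W1 := 370763052) (P2 := 0) (W2 := 536870912) (P3 := 536870912) (W3 := 50465866) (N0 := 3) (En := eng) (mo := mog) (C1 := cd2q2b) (C2 := cd2q0) (C3 := pd2)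
    rfl (fun _ => rfl) k0_mm_202_b

noncomputable def f_mm_203_a : ℕ → ℕ → ℕ → ℕ → Bool := onCell 0 536870912 1610612736 536870912 536870912 50465866
    (rowB 3 eng mog cd2q2a cd2q0 pd3 1 true false false .up 2 0 3 (qsf 0 536870912 0 536870912 3) ndB2q2a ndB2q0 pcB3 Cut.none Ext.none)

def k0_mm_203_a : ∃ t, chk3 f_mm_203_a t 1 1 1 = true :=
  ⟨(l 4), by decide +kernel⟩

theorem c_mm_203_a : CertB 0 536870912 0 536870912 536870912 50465866 3 eng mog cd2q2a cd2q0 pd3 true false false .up 2 0 3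
    ndB2q2a ndB2q0 pcB3 Cut.none Ext.none :=
  certB1 (fam := true) (s1 := false) (s2 := false) (a := 2) (b := 0) (c := 3) (cn := .up) (n1 := ndB2q2a) (n2 := ndB2q0) (pc := pcB3) (cut := Cut.none) (xt := Ext.none) (P1 := 0) (W1 := 536870912) (P2 := 0) (W2 := 536870912) (P3 := 536870912) (W3 := 50465866) (N0 := 3) (En := eng) (mo := mog) (C1 := cd2q2a) (C2 := cd2q0) (C3 := pd3)
    rfl (fun _ => rfl) k0_mm_203_a

noncomputable def f_mm_203_b : ℕ → ℕ → ℕ → ℕ → Bool := onCell 1239849684 370763052 1610612736 536870912 536870912 50465866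
    (rowB 3 eng mog cd2q2b cd2q0 pd3 1 true false false .up 2 0 3 (qsf 1239849684 370763052 0 536870912 3) ndB2q2b ndB2q0 pcB3 Cut.none Ext.none)

def k0_mm_203_b : ∃ t, chk3 f_mm_203_b t 1 1 1 = true :=
  ⟨(b (b (l 4) (l 4)) (l 4)), by decide +kernel⟩

theorem c_mm_203_b : CertB 1239849684 370763052 0 536870912 536870912 50465866 3 eng mog cd2q2b cd2q0 pd3 true false false .up 2 0 3
    ndB2q2b ndB2q0 pcB3 Cut.none Ext.none :=
  certB1 (fam := true) (s1 := false) (s2 := false) (a := 2) (b := 0) (c := 3) (cn := .up) (n1 := ndB2q2b) (n2 := ndB2q0) (pc := pcB3) (cut := Cut.none) (xt := Ext.none) (P1 := 1239849684) (W1 := 370763052) (P2 := 0) (W2 := 536870912) (P3 := 536870912) (W3 := 50465866) (N0 := 3) (En := eng) (mo := mog) (C1 := cd2q2b) (C2 := cd2q0) (C3 := pd3)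
    rfl (fun _ => rfl) k0_mm_203_b

noncomputable def f_mm_213_a : ℕ → ℕ → ℕ → ℕ → Bool := onCell 0 536870912 536870912 536870912 536870912 50465866
    (rowB 3 eng mog cd2q2a cd2q1 pd3 0 true false false .pnn 2 1 3 (qsf 0 536870912 536870912 536870912 3) ndB2q2a ndB2q1 pcB3 Cut.none Ext.none)

def k0_mm_213_a : ∃ t, chk3 f_mm_213_a t 1 1 1 = true :=
  ⟨(l 4), by decide +kernel⟩

theorem c_mm_213_a : CertB 0 536870912 536870912 536870912 536870912 50465866 3 eng mog cd2q2a cd2q1 pd3 true false false .pnn 2 1 3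
    ndB2q2a ndB2q1 pcB3 Cut.none Ext.none :=
  certB0 (fam := true) (s1 := false) (s2 := false) (a := 2) (b := 1) (c := 3) (cn := .pnn) (n1 := ndB2q2a) (n2 := ndB2q1) (pc := pcB3) (cut := Cut.none) (xt := Ext.none) (P1 := 0) (W1 := 536870912) (P2 := 536870912) (W2 := 536870912) (P3 := 536870912) (W3 := 50465866) (N0 := 3) (En := eng) (mo := mog) (C1 := cd2q2a) (C2 := cd2q1) (C3 := pd3)
    rfl k0_mm_213_a

noncomputable def f_mm_213_b : ℕ → ℕ → ℕ → ℕ → Bool := onCell 1239849684 370763052 536870912 536870912 536870912 50465866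
    (rowB 3 eng mog cd2q2b cd2q1 pd3 0 true false false .pnn 2 1 3 (qsf 1239849684 370763052 536870912 536870912 3) ndB2q2b ndB2q1 pcB3 Cut.none Ext.none)

def k0_mm_213_b : ∃ t, chk3 f_mm_213_b t 1 1 1 = true :=
  ⟨(l 4), by decide +kernel⟩

theorem c_mm_213_b : CertB 1239849684 370763052 536870912 536870912 536870912 50465866 3 eng mog cd2q2b cd2q1 pd3 true false false .pnn 2 1 3
    ndB2q2b ndB2q1 pcB3 Cut.none Ext.none :=
  certB0 (fam := true) (s1 := false) (s2 := false) (a := 2) (b := 1) (c := 3) (cn := .pnn) (n1 := ndB2q2b) (n2 := ndB2q1) (pc := pcB3) (cut := Cut.none) (xt := Ext.none) (P1 := 1239849684) (W1 := 370763052) (P2 := 536870912) (W2 := 536870912) (P3 := 536870912) (W3 := 50465866) (N0 := 3) (En := eng) (mo := mog) (C1 := cd2q2b) (C2 := cd2q1) (C3 := pd3)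
    rfl k0_mm_213_b

noncomputable def f_mm_303 : ℕ → ℕ → ℕ → ℕ → Bool := onCell 1610612736 536870912 0 536870912 536870912 50465866
    (rowB 3 eng mog cd2q3 cd2q0 pd3 2 true false false .npn 3 0 3 (qsf 1610612736 536870912 0 536870912 3) ndB2q3 ndB2q0 pcB3 Cut.none Ext.none)

def k0_mm_303 : ∃ t, chk3 f_mm_303 t 1 1 1 = true :=
  ⟨(a (a (b (l 4) (l 1)) (l 4)) (l 4)), by decide +kernel⟩

theorem c_mm_303 : CertB 1610612736 536870912 0 536870912 536870912 50465866 3 eng mog cd2q3 cd2q0 pd3 true false false .npn 3 0 3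
    ndB2q3 ndB2q0 pcB3 Cut.none Ext.none :=
  certB2 (fam := true) (s1 := false) (s2 := false) (a := 3) (b := 0) (c := 3) (cn := .npn) (n1 := ndB2q3) (n2 := ndB2q0) (pc := pcB3) (cut := Cut.none) (xt := Ext.none) (P1 := 1610612736) (W1 := 536870912) (P2 := 0) (W2 := 536870912) (P3 := 536870912) (W3 := 50465866) (N0 := 3) (En := eng) (mo := mog) (C1 := cd2q3) (C2 := cd2q0) (C3 := pd3)
    rfl (fun _ => rfl) k0_mm_303

noncomputable def f_mm_313 : ℕ → ℕ → ℕ → ℕ → Bool := onCell 1610612736 536870912 536870912 536870912 536870912 50465866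
    (rowB 3 eng mog cd2q3 cd2q1 pd3 0 true false false .dn 3 1 3 (qsf 1610612736 536870912 536870912 536870912 3) ndB2q3 ndB2q1 pcB3 Cut.none Ext.none)

def k0_mm_313 : ∃ t, chk3 f_mm_313 t 1 1 1 = true :=
  ⟨(l 4), by decide +kernel⟩

theorem c_mm_313 : CertB 1610612736 536870912 536870912 536870912 536870912 50465866 3 eng mog cd2q3 cd2q1 pd3 true false false .dn 3 1 3
    ndB2q3 ndB2q1 pcB3 Cut.none Ext.none :=
  certB0 (fam := true) (s1 := false) (s2 := false) (a := 3) (b := 1) (c := 3) (cn := .dn) (n1 := ndB2q3) (n2 := ndB2q1) (pc := pcB3) (cut := Cut.none) (xt := Ext.none) (P1 := 1610612736) (W1 := 536870912) (P2 := 536870912) (W2 := 536870912) (P3 := 536870912) (W3 := 50465866) (N0 := 3) (En := eng) (mo := mog) (C1 := cd2q3) (C2 := cd2q1) (C3 := pd3)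
    rfl k0_mm_313

end Pool.Agent.Strip051.G.I5000_5470.Tab.C.BA22

namespace Pool.Agent.Strip051.G.I5000_5470.Tab.C.BA23

open Pool.Agent.Strip051.PB Pool.Agent.Strip051.PB.T
open Pool.Agent.Strip051.G.I5000_5470.Tab

noncomputable def f_pp_001 : ℕ → ℕ → ℕ → ℕ → Bool := onCell 0 536870912 0 536870912 536870912 50465866
    (rowB 3 eng mog cd2q0 cd3q0 pd1 0 true true true .up 0 0 1 (qsf 0 536870912 0 536870912 1) ndB2q0 ndB3q0 pcB1 Cut.none Ext.none)

def k0_pp_001 : ∃ t, chk3 f_pp_001 t 1 1 1 = true :=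
  ⟨(l 4), by decide +kernel⟩

theorem c_pp_001 : CertB 0 536870912 0 536870912 536870912 50465866 3 eng mog cd2q0 cd3q0 pd1 true true true .up 0 0 1
    ndB2q0 ndB3q0 pcB1 Cut.none Ext.none :=
  certB0 (fam := true) (s1 := true) (s2 := true) (a := 0) (b := 0) (c := 1) (cn := .up) (n1 := ndB2q0) (n2 := ndB3q0) (pc := pcB1) (cut := Cut.none) (xt := Ext.none) (P1 := 0) (W1 := 536870912) (P2 := 0) (W2 := 536870912) (P3 := 536870912) (W3 := 50465866) (N0 := 3) (En := eng) (mo := mog) (C1 := cd2q0) (C2 := cd3q0) (C3 := pd1)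
    rfl k0_pp_001

noncomputable def f_pp_011 : ℕ → ℕ → ℕ → ℕ → Bool := onCell 0 536870912 536870912 536870912 536870912 50465866
    (rowB 3 eng mog cd2q0 cd3q1 pd1 0 true true true .pnn 0 1 1 (qsf 0 536870912 536870912 536870912 1) ndB2q0 ndB3q1 pcB1 Cut.none Ext.none)

def k0_pp_011 : ∃ t, chk3 f_pp_011 t 1 1 1 = true :=
  ⟨(l 4), by decide +kernel⟩

theorem c_pp_011 : CertB 0 536870912 536870912 536870912 536870912 50465866 3 eng mog cd2q0 cd3q1 pd1 true true true .pnn 0 1 1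
    ndB2q0 ndB3q1 pcB1 Cut.none Ext.none :=
  certB0 (fam := true) (s1 := true) (s2 := true) (a := 0) (b := 1) (c := 1) (cn := .pnn) (n1 := ndB2q0) (n2 := ndB3q1) (pc := pcB1) (cut := Cut.none) (xt := Ext.none) (P1 := 0) (W1 := 536870912) (P2 := 536870912) (W2 := 536870912) (P3 := 536870912) (W3 := 50465866) (N0 := 3) (En := eng) (mo := mog) (C1 := cd2q0) (C2 := cd3q1) (C3 := pd1)
    rfl k0_pp_011

noncomputable def f_pp_012 : ℕ → ℕ → ℕ → ℕ → Bool := onCell 0 536870912 536870912 536870912 536870912 50465866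
    (rowB 3 eng mog cd2q0 cd3q1 pd2 0 true true true .pnp 0 1 2 (qsf 0 536870912 536870912 536870912 2) ndB2q0 ndB3q1 pcB2 Cut.none Ext.none)

def k0_pp_012 : ∃ t, chk3 f_pp_012 t 1 1 1 = true :=
  ⟨(l 4), by decide +kernel⟩

theorem c_pp_012 : CertB 0 536870912 536870912 536870912 536870912 50465866 3 eng mog cd2q0 cd3q1 pd2 true true true .pnp 0 1 2
    ndB2q0 ndB3q1 pcB2 Cut.none Ext.none :=
  certB0 (fam := true) (s1 := true) (s2 := true) (a := 0) (b := 1) (c := 2) (cn := .pnp) (n1 := ndB2q0) (n2 := ndB3q1) (pc := pcB2) (cut := Cut.none) (xt := Ext.none) (P1 := 0) (W1 := 536870912) (P2 := 536870912) (W2 := 536870912) (P3 := 536870912) (W3 := 50465866) (N0 := 3) (En := eng) (mo := mog) (C1 := cd2q0) (C2 := cd3q1) (C3 := pd2)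
    rfl k0_pp_012

noncomputable def cut_pp_022_a : Cut := Cut.of [[⟨0, 0, 0, 67108864⟩, ⟨1, 1, 0, 67108864⟩, ⟨2, 1, 0, 67108864⟩]]

noncomputable def f_pp_022_a : ℕ → ℕ → ℕ → ℕ → Bool := onCell 0 536870912 0 536870912 536870912 50465866
    (rowB 3 eng mog cd2q0 cd3q2a pd2 0 true true true .pp 0 2 2 (qsf 0 536870912 0 536870912 2) ndB2q0 ndB3q2a pcB2 cut_pp_022_a Ext.none)

def k0_pp_022_a : ∃ t, chk3 f_pp_022_a t 1 1 1 = true :=
  ⟨(a (a (a (a (b (b (a (b (a (l 16470504) (l 16478760)) (a (l 16476560) (l 16484232))) (b (a (l 16486368) (l 4)) (l 4))) (a (b (l 16511424) (l 4)) (l 4))) (b (l 4) (b (l 4) (b (l 4) (l 6))))) (b (l 4) (l 4))) (l 4)) (l 4)) (l 4)), by decide +kernel⟩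

theorem c_pp_022_a : CertB 0 536870912 0 536870912 536870912 50465866 3 eng mog cd2q0 cd3q2a pd2 true true true .pp 0 2 2
    ndB2q0 ndB3q2a pcB2 cut_pp_022_a Ext.none :=
  certB0 (fam := true) (s1 := true) (s2 := true) (a := 0) (b := 2) (c := 2) (cn := .pp) (n1 := ndB2q0) (n2 := ndB3q2a) (pc := pcB2) (cut := cut_pp_022_a) (xt := Ext.none) (P1 := 0) (W1 := 536870912) (P2 := 0) (W2 := 536870912) (P3 := 536870912) (W3 := 50465866) (N0 := 3) (En := eng) (mo := mog) (C1 := cd2q0) (C2 := cd3q2a) (C3 := pd2)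
    rfl k0_pp_022_a

noncomputable def cut_pp_022_b : Cut := Cut.of [[⟨0, 0, 0, 67108864⟩, ⟨1, 1, 0, 67108864⟩, ⟨2, 1, 0, 67108864⟩]]

noncomputable def f_pp_022_b : ℕ → ℕ → ℕ → ℕ → Bool := onCell 0 536870912 1239849684 370763052 536870912 50465866
    (rowB 3 eng mog cd2q0 cd3q2b pd2 0 true true true .pp 0 2 2 (qsf 0 536870912 1239849684 370763052 2) ndB2q0 ndB3q2b pcB2 cut_pp_022_b Ext.none)

def k0_pp_022_b : ∃ t, chk3 f_pp_022_b t 1 1 1 = true :=
  ⟨(a (b (a (b (a (a (b (b (a (b (a (l 16459696) (l 16489040)) (a (l 16438416) (l 16446280))) (a (l 16464504) (l 4))) (a (a (l 16405488) (l 16412216)) (l 4))) (l 4)) (l 4)) (l 4)) (l 4)) (l 4)) (l 4)) (l 4)), by decide +kernel⟩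

theorem c_pp_022_b : CertB 0 536870912 1239849684 370763052 536870912 50465866 3 eng mog cd2q0 cd3q2b pd2 true true true .pp 0 2 2
    ndB2q0 ndB3q2b pcB2 cut_pp_022_b Ext.none :=
  certB0 (fam := true) (s1 := true) (s2 := true) (a := 0) (b := 2) (c := 2) (cn := .pp) (n1 := ndB2q0) (n2 := ndB3q2b) (pc := pcB2) (cut := cut_pp_022_b) (xt := Ext.none) (P1 := 0) (W1 := 536870912) (P2 := 1239849684) (W2 := 370763052) (P3 := 536870912) (W3 := 50465866) (N0 := 3) (En := eng) (mo := mog) (C1 := cd2q0) (C2 := cd3q2b) (C3 := pd2)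
    rfl k0_pp_022_b

noncomputable def f_pp_023_a : ℕ → ℕ → ℕ → ℕ → Bool := onCell 1610612736 536870912 0 536870912 536870912 50465866
    (rowB 3 eng mog cd2q0 cd3q2a pd3 2 true true true .up 0 2 3 (qsf 0 536870912 0 536870912 3) ndB2q0 ndB3q2a pcB3 Cut.none Ext.none)

def k0_pp_023_a : ∃ t, chk3 f_pp_023_a t 1 1 1 = true :=
  ⟨(l 4), by decide +kernel⟩

theorem c_pp_023_a : CertB 0 536870912 0 536870912 536870912 50465866 3 eng mog cd2q0 cd3q2a pd3 true true true .up 0 2 3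
    ndB2q0 ndB3q2a pcB3 Cut.none Ext.none :=
  certB2 (fam := true) (s1 := true) (s2 := true) (a := 0) (b := 2) (c := 3) (cn := .up) (n1 := ndB2q0) (n2 := ndB3q2a) (pc := pcB3) (cut := Cut.none) (xt := Ext.none) (P1 := 0) (W1 := 536870912) (P2 := 0) (W2 := 536870912) (P3 := 536870912) (W3 := 50465866) (N0 := 3) (En := eng) (mo := mog) (C1 := cd2q0) (C2 := cd3q2a) (C3 := pd3)
    rfl (fun _ => rfl) k0_pp_023_a

noncomputable def f_pp_023_b : ℕ → ℕ → ℕ → ℕ → Bool := onCell 1610612736 536870912 1239849684 370763052 536870912 50465866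
    (rowB 3 eng mog cd2q0 cd3q2b pd3 2 true true true .up 0 2 3 (qsf 0 536870912 1239849684 370763052 3) ndB2q0 ndB3q2b pcB3 Cut.none Ext.none)

def k0_pp_023_b : ∃ t, chk3 f_pp_023_b t 1 1 1 = true :=
  ⟨(l 4), by decide +kernel⟩

theorem c_pp_023_b : CertB 0 536870912 1239849684 370763052 536870912 50465866 3 eng mog cd2q0 cd3q2b pd3 true true true .up 0 2 3
    ndB2q0 ndB3q2b pcB3 Cut.none Ext.none :=
  certB2 (fam := true) (s1 := true) (s2 := true) (a := 0) (b := 2) (c := 3) (cn := .up) (n1 := ndB2q0) (n2 := ndB3q2b) (pc := pcB3) (cut := Cut.none) (xt := Ext.none) (P1 := 0) (W1 := 536870912) (P2 := 1239849684) (W2 := 370763052) (P3 := 536870912) (W3 := 50465866) (N0 := 3) (En := eng) (mo := mog) (C1 := cd2q0) (C2 := cd3q2b) (C3 := pd3)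
    rfl (fun _ => rfl) k0_pp_023_b

noncomputable def f_pp_033 : ℕ → ℕ → ℕ → ℕ → Bool := onCell 0 536870912 1610612736 536870912 536870912 50465866
    (rowB 3 eng mog cd2q0 cd3q3 pd3 0 true true true .pnn 0 3 3 (qsf 0 536870912 1610612736 536870912 3) ndB2q0 ndB3q3 pcB3 Cut.none Ext.none)

def k0_pp_033 : ∃ t, chk3 f_pp_033 t 1 1 1 = true :=
  ⟨(l 4), by decide +kernel⟩

theorem c_pp_033 : CertB 0 536870912 1610612736 536870912 536870912 50465866 3 eng mog cd2q0 cd3q3 pd3 true true true .pnn 0 3 3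
    ndB2q0 ndB3q3 pcB3 Cut.none Ext.none :=
  certB0 (fam := true) (s1 := true) (s2 := true) (a := 0) (b := 3) (c := 3) (cn := .pnn) (n1 := ndB2q0) (n2 := ndB3q3) (pc := pcB3) (cut := Cut.none) (xt := Ext.none) (P1 := 0) (W1 := 536870912) (P2 := 1610612736) (W2 := 536870912) (P3 := 536870912) (W3 := 50465866) (N0 := 3) (En := eng) (mo := mog) (C1 := cd2q0) (C2 := cd3q3) (C3 := pd3)
    rfl k0_pp_033

noncomputable def f_pp_101 : ℕ → ℕ → ℕ → ℕ → Bool := onCell 536870912 536870912 0 536870912 536870912 50465866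
    (rowB 3 eng mog cd2q1 cd3q0 pd1 0 true true true .npn 1 0 1 (qsf 536870912 536870912 0 536870912 1) ndB2q1 ndB3q0 pcB1 Cut.none Ext.none)

def k0_pp_101 : ∃ t, chk3 f_pp_101 t 1 1 1 = true :=
  ⟨(l 4), by decide +kernel⟩

theorem c_pp_101 : CertB 536870912 536870912 0 536870912 536870912 50465866 3 eng mog cd2q1 cd3q0 pd1 true true true .npn 1 0 1
    ndB2q1 ndB3q0 pcB1 Cut.none Ext.none :=
  certB0 (fam := true) (s1 := true) (s2 := true) (a := 1) (b := 0) (c := 1) (cn := .npn) (n1 := ndB2q1) (n2 := ndB3q0) (pc := pcB1) (cut := Cut.none) (xt := Ext.none) (P1 := 536870912) (W1 := 536870912) (P2 := 0) (W2 := 536870912) (P3 := 536870912) (W3 := 50465866) (N0 := 3) (En := eng) (mo := mog) (C1 := cd2q1) (C2 := cd3q0) (C3 := pd1)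
    rfl k0_pp_101

noncomputable def f_pp_102 : ℕ → ℕ → ℕ → ℕ → Bool := onCell 536870912 536870912 0 536870912 536870912 50465866
    (rowB 3 eng mog cd2q1 cd3q0 pd2 0 true true true .npp 1 0 2 (qsf 536870912 536870912 0 536870912 2) ndB2q1 ndB3q0 pcB2 Cut.none Ext.none)

def k0_pp_102 : ∃ t, chk3 f_pp_102 t 1 1 1 = true :=
  ⟨(l 4), by decide +kernel⟩

theorem c_pp_102 : CertB 536870912 536870912 0 536870912 536870912 50465866 3 eng mog cd2q1 cd3q0 pd2 true true true .npp 1 0 2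
    ndB2q1 ndB3q0 pcB2 Cut.none Ext.none :=
  certB0 (fam := true) (s1 := true) (s2 := true) (a := 1) (b := 0) (c := 2) (cn := .npp) (n1 := ndB2q1) (n2 := ndB3q0) (pc := pcB2) (cut := Cut.none) (xt := Ext.none) (P1 := 536870912) (W1 := 536870912) (P2 := 0) (W2 := 536870912) (P3 := 536870912) (W3 := 50465866) (N0 := 3) (En := eng) (mo := mog) (C1 := cd2q1) (C2 := cd3q0) (C3 := pd2)
    rfl k0_pp_102

noncomputable def f_pp_112 : ℕ → ℕ → ℕ → ℕ → Bool := onCell 536870912 536870912 536870912 536870912 536870912 50465866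
    (rowB 3 eng mog cd2q1 cd3q1 pd2 0 true true true .dn 1 1 2 (qsf 536870912 536870912 536870912 536870912 2) ndB2q1 ndB3q1 pcB2 Cut.none Ext.none)

def k0_pp_112 : ∃ t, chk3 f_pp_112 t 1 1 1 = true :=
  ⟨(l 4), by decide +kernel⟩

theorem c_pp_112 : CertB 536870912 536870912 536870912 536870912 536870912 50465866 3 eng mog cd2q1 cd3q1 pd2 true true true .dn 1 1 2
    ndB2q1 ndB3q1 pcB2 Cut.none Ext.none :=
  certB0 (fam := true) (s1 := true) (s2 := true) (a := 1) (b := 1) (c := 2) (cn := .dn) (n1 := ndB2q1) (n2 := ndB3q1) (pc := pcB2) (cut := Cut.none) (xt := Ext.none) (P1 := 536870912) (W1 := 536870912) (P2 := 536870912) (W2 := 536870912) (P3 := 536870912) (W3 := 50465866) (N0 := 3) (En := eng) (mo := mog) (C1 := cd2q1) (C2 := cd3q1) (C3 := pd2)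
    rfl k0_pp_112

noncomputable def f_pp_113 : ℕ → ℕ → ℕ → ℕ → Bool := onCell 536870912 536870912 536870912 536870912 536870912 50465866
    (rowB 3 eng mog cd2q1 cd3q1 pd3 0 true true true .nn 1 1 3 (qsf 536870912 536870912 536870912 536870912 3) ndB2q1 ndB3q1 pcB3 Cut.none Ext.none)

def k0_pp_113 : ∃ t, chk3 f_pp_113 t 1 1 1 = true :=
  ⟨(l 4), by decide +kernel⟩

theorem c_pp_113 : CertB 536870912 536870912 536870912 536870912 536870912 50465866 3 eng mog cd2q1 cd3q1 pd3 true true true .nn 1 1 3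
    ndB2q1 ndB3q1 pcB3 Cut.none Ext.none :=
  certB0 (fam := true) (s1 := true) (s2 := true) (a := 1) (b := 1) (c := 3) (cn := .nn) (n1 := ndB2q1) (n2 := ndB3q1) (pc := pcB3) (cut := Cut.none) (xt := Ext.none) (P1 := 536870912) (W1 := 536870912) (P2 := 536870912) (W2 := 536870912) (P3 := 536870912) (W3 := 50465866) (N0 := 3) (En := eng) (mo := mog) (C1 := cd2q1) (C2 := cd3q1) (C3 := pd3)
    rfl k0_pp_113

noncomputable def f_pp_123_a : ℕ → ℕ → ℕ → ℕ → Bool := onCell 536870912 536870912 0 536870912 536870912 50465866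
    (rowB 3 eng mog cd2q1 cd3q2a pd3 0 true true true .npn 1 2 3 (qsf 536870912 536870912 0 536870912 3) ndB2q1 ndB3q2a pcB3 Cut.none Ext.none)

def k0_pp_123_a : ∃ t, chk3 f_pp_123_a t 1 1 1 = true :=
  ⟨(l 4), by decide +kernel⟩

theorem c_pp_123_a : CertB 536870912 536870912 0 536870912 536870912 50465866 3 eng mog cd2q1 cd3q2a pd3 true true true .npn 1 2 3
    ndB2q1 ndB3q2a pcB3 Cut.none Ext.none :=
  certB0 (fam := true) (s1 := true) (s2 := true) (a := 1) (b := 2) (c := 3) (cn := .npn) (n1 := ndB2q1) (n2 := ndB3q2a) (pc := pcB3) (cut := Cut.none) (xt := Ext.none) (P1 := 536870912) (W1 := 536870912) (P2 := 0) (W2 := 536870912) (P3 := 536870912) (W3 := 50465866) (N0 := 3) (En := eng) (mo := mog) (C1 := cd2q1) (C2 := cd3q2a) (C3 := pd3)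
    rfl k0_pp_123_a

noncomputable def f_pp_123_b : ℕ → ℕ → ℕ → ℕ → Bool := onCell 536870912 536870912 1239849684 370763052 536870912 50465866
    (rowB 3 eng mog cd2q1 cd3q2b pd3 0 true true true .npn 1 2 3 (qsf 536870912 536870912 1239849684 370763052 3) ndB2q1 ndB3q2b pcB3 Cut.none Ext.none)

def k0_pp_123_b : ∃ t, chk3 f_pp_123_b t 1 1 1 = true :=
  ⟨(l 4), by decide +kernel⟩

theorem c_pp_123_b : CertB 536870912 536870912 1239849684 370763052 536870912 50465866 3 eng mog cd2q1 cd3q2b pd3 true true true .npn 1 2 3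
    ndB2q1 ndB3q2b pcB3 Cut.none Ext.none :=
  certB0 (fam := true) (s1 := true) (s2 := true) (a := 1) (b := 2) (c := 3) (cn := .npn) (n1 := ndB2q1) (n2 := ndB3q2b) (pc := pcB3) (cut := Cut.none) (xt := Ext.none) (P1 := 536870912) (W1 := 536870912) (P2 := 1239849684) (W2 := 370763052) (P3 := 536870912) (W3 := 50465866) (N0 := 3) (En := eng) (mo := mog) (C1 := cd2q1) (C2 := cd3q2b) (C3 := pd3)
    rfl k0_pp_123_b

noncomputable def f_pp_133 : ℕ → ℕ → ℕ → ℕ → Bool := onCell 536870912 536870912 1610612736 536870912 536870912 50465866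
    (rowB 3 eng mog cd2q1 cd3q3 pd3 0 true true true .dn 1 3 3 (qsf 536870912 536870912 1610612736 536870912 3) ndB2q1 ndB3q3 pcB3 Cut.none Ext.none)

def k0_pp_133 : ∃ t, chk3 f_pp_133 t 1 1 1 = true :=
  ⟨(l 4), by decide +kernel⟩

theorem c_pp_133 : CertB 536870912 536870912 1610612736 536870912 536870912 50465866 3 eng mog cd2q1 cd3q3 pd3 true true true .dn 1 3 3
    ndB2q1 ndB3q3 pcB3 Cut.none Ext.none :=
  certB0 (fam := true) (s1 := true) (s2 := true) (a := 1) (b := 3) (c := 3) (cn := .dn) (n1 := ndB2q1) (n2 := ndB3q3) (pc := pcB3) (cut := Cut.none) (xt := Ext.none) (P1 := 536870912) (W1 := 536870912) (P2 := 1610612736) (W2 := 536870912) (P3 := 536870912) (W3 := 50465866) (N0 := 3) (En := eng) (mo := mog) (C1 := cd2q1) (C2 := cd3q3) (C3 := pd3)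
    rfl k0_pp_133

noncomputable def f_pp_202_a : ℕ → ℕ → ℕ → ℕ → Bool := onCell 0 536870912 0 536870912 536870912 50465866
    (rowB 3 eng mog cd2q2a cd3q0 pd2 0 true true true .pp 2 0 2 (qsf 0 536870912 0 536870912 2) ndB2q2a ndB3q0 pcB2 Cut.none Ext.none)

def k0_pp_202_a : ∃ t, chk3 f_pp_202_a t 1 1 1 = true :=
  ⟨(l 5), by decide +kernel⟩

theorem c_pp_202_a : CertB 0 536870912 0 536870912 536870912 50465866 3 eng mog cd2q2a cd3q0 pd2 true true true .pp 2 0 2
    ndB2q2a ndB3q0 pcB2 Cut.none Ext.none :=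
  certB0 (fam := true) (s1 := true) (s2 := true) (a := 2) (b := 0) (c := 2) (cn := .pp) (n1 := ndB2q2a) (n2 := ndB3q0) (pc := pcB2) (cut := Cut.none) (xt := Ext.none) (P1 := 0) (W1 := 536870912) (P2 := 0) (W2 := 536870912) (P3 := 536870912) (W3 := 50465866) (N0 := 3) (En := eng) (mo := mog) (C1 := cd2q2a) (C2 := cd3q0) (C3 := pd2)
    rfl k0_pp_202_a

noncomputable def f_pp_202_b : ℕ → ℕ → ℕ → ℕ → Bool := onCell 1239849684 370763052 0 536870912 536870912 50465866
    (rowB 3 eng mog cd2q2b cd3q0 pd2 0 true true true .pp 2 0 2 (qsf 1239849684 370763052 0 536870912 2) ndB2q2b ndB3q0 pcB2 Cut.none Ext.none)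

def k0_pp_202_b : ∃ t, chk3 f_pp_202_b t 1 1 1 = true :=
  ⟨(l 5), by decide +kernel⟩

theorem c_pp_202_b : CertB 1239849684 370763052 0 536870912 536870912 50465866 3 eng mog cd2q2b cd3q0 pd2 true true true .pp 2 0 2
    ndB2q2b ndB3q0 pcB2 Cut.none Ext.none :=
  certB0 (fam := true) (s1 := true) (s2 := true) (a := 2) (b := 0) (c := 2) (cn := .pp) (n1 := ndB2q2b) (n2 := ndB3q0) (pc := pcB2) (cut := Cut.none) (xt := Ext.none) (P1 := 1239849684) (W1 := 370763052) (P2 := 0) (W2 := 536870912) (P3 := 536870912) (W3 := 50465866) (N0 := 3) (En := eng) (mo := mog) (C1 := cd2q2b) (C2 := cd3q0) (C3 := pd2)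
    rfl k0_pp_202_b

noncomputable def f_pp_203_a : ℕ → ℕ → ℕ → ℕ → Bool := onCell 0 536870912 0 536870912 536870912 50465866
    (rowB 3 eng mog cd2q2a cd3q0 pd3 0 true true true .up 2 0 3 (qsf 0 536870912 0 536870912 3) ndB2q2a ndB3q0 pcB3 Cut.none Ext.none)

def k0_pp_203_a : ∃ t, chk3 f_pp_203_a t 1 1 1 = true :=
  ⟨(l 5), by decide +kernel⟩

theorem c_pp_203_a : CertB 0 536870912 0 536870912 536870912 50465866 3 eng mog cd2q2a cd3q0 pd3 true true true .up 2 0 3
    ndB2q2a ndB3q0 pcB3 Cut.none Ext.none :=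
  certB0 (fam := true) (s1 := true) (s2 := true) (a := 2) (b := 0) (c := 3) (cn := .up) (n1 := ndB2q2a) (n2 := ndB3q0) (pc := pcB3) (cut := Cut.none) (xt := Ext.none) (P1 := 0) (W1 := 536870912) (P2 := 0) (W2 := 536870912) (P3 := 536870912) (W3 := 50465866) (N0 := 3) (En := eng) (mo := mog) (C1 := cd2q2a) (C2 := cd3q0) (C3 := pd3)
    rfl k0_pp_203_a

noncomputable def f_pp_203_b : ℕ → ℕ → ℕ → ℕ → Bool := onCell 1239849684 370763052 0 536870912 536870912 50465866
    (rowB 3 eng mog cd2q2b cd3q0 pd3 0 true true true .up 2 0 3 (qsf 1239849684 370763052 0 536870912 3) ndB2q2b ndB3q0 pcB3 Cut.none Ext.none)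

def k0_pp_203_b : ∃ t, chk3 f_pp_203_b t 1 1 1 = true :=
  ⟨(l 5), by decide +kernel⟩

theorem c_pp_203_b : CertB 1239849684 370763052 0 536870912 536870912 50465866 3 eng mog cd2q2b cd3q0 pd3 true true true .up 2 0 3
    ndB2q2b ndB3q0 pcB3 Cut.none Ext.none :=
  certB0 (fam := true) (s1 := true) (s2 := true) (a := 2) (b := 0) (c := 3) (cn := .up) (n1 := ndB2q2b) (n2 := ndB3q0) (pc := pcB3) (cut := Cut.none) (xt := Ext.none) (P1 := 1239849684) (W1 := 370763052) (P2 := 0) (W2 := 536870912) (P3 := 536870912) (W3 := 50465866) (N0 := 3) (En := eng) (mo := mog) (C1 := cd2q2b) (C2 := cd3q0) (C3 := pd3)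
    rfl k0_pp_203_b

noncomputable def f_pp_213_a : ℕ → ℕ → ℕ → ℕ → Bool := onCell 0 536870912 536870912 536870912 536870912 50465866
    (rowB 3 eng mog cd2q2a cd3q1 pd3 0 true true true .pnn 2 1 3 (qsf 0 536870912 536870912 536870912 3) ndB2q2a ndB3q1 pcB3 Cut.none Ext.none)

def k0_pp_213_a : ∃ t, chk3 f_pp_213_a t 1 1 1 = true :=
  ⟨(l 4), by decide +kernel⟩

theorem c_pp_213_a : CertB 0 536870912 536870912 536870912 536870912 50465866 3 eng mog cd2q2a cd3q1 pd3 true true true .pnn 2 1 3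
    ndB2q2a ndB3q1 pcB3 Cut.none Ext.none :=
  certB0 (fam := true) (s1 := true) (s2 := true) (a := 2) (b := 1) (c := 3) (cn := .pnn) (n1 := ndB2q2a) (n2 := ndB3q1) (pc := pcB3) (cut := Cut.none) (xt := Ext.none) (P1 := 0) (W1 := 536870912) (P2 := 536870912) (W2 := 536870912) (P3 := 536870912) (W3 := 50465866) (N0 := 3) (En := eng) (mo := mog) (C1 := cd2q2a) (C2 := cd3q1) (C3 := pd3)
    rfl k0_pp_213_a

noncomputable def f_pp_213_b : ℕ → ℕ → ℕ → ℕ → Bool := onCell 1239849684 370763052 536870912 536870912 536870912 50465866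
    (rowB 3 eng mog cd2q2b cd3q1 pd3 0 true true true .pnn 2 1 3 (qsf 1239849684 370763052 536870912 536870912 3) ndB2q2b ndB3q1 pcB3 Cut.none Ext.none)

def k0_pp_213_b : ∃ t, chk3 f_pp_213_b t 1 1 1 = true :=
  ⟨(l 4), by decide +kernel⟩

theorem c_pp_213_b : CertB 1239849684 370763052 536870912 536870912 536870912 50465866 3 eng mog cd2q2b cd3q1 pd3 true true true .pnn 2 1 3
    ndB2q2b ndB3q1 pcB3 Cut.none Ext.none :=
  certB0 (fam := true) (s1 := true) (s2 := true) (a := 2) (b := 1) (c := 3) (cn := .pnn) (n1 := ndB2q2b) (n2 := ndB3q1) (pc := pcB3) (cut := Cut.none) (xt := Ext.none) (P1 := 1239849684) (W1 := 370763052) (P2 := 536870912) (W2 := 536870912) (P3 := 536870912) (W3 := 50465866) (N0 := 3) (En := eng) (mo := mog) (C1 := cd2q2b) (C2 := cd3q1) (C3 := pd3)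
    rfl k0_pp_213_b

noncomputable def f_pp_303 : ℕ → ℕ → ℕ → ℕ → Bool := onCell 1610612736 536870912 0 536870912 536870912 50465866
    (rowB 3 eng mog cd2q3 cd3q0 pd3 0 true true true .npn 3 0 3 (qsf 1610612736 536870912 0 536870912 3) ndB2q3 ndB3q0 pcB3 Cut.none Ext.none)

def k0_pp_303 : ∃ t, chk3 f_pp_303 t 1 1 1 = true :=
  ⟨(l 5), by decide +kernel⟩

theorem c_pp_303 : CertB 1610612736 536870912 0 536870912 536870912 50465866 3 eng mog cd2q3 cd3q0 pd3 true true true .npn 3 0 3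
    ndB2q3 ndB3q0 pcB3 Cut.none Ext.none :=
  certB0 (fam := true) (s1 := true) (s2 := true) (a := 3) (b := 0) (c := 3) (cn := .npn) (n1 := ndB2q3) (n2 := ndB3q0) (pc := pcB3) (cut := Cut.none) (xt := Ext.none) (P1 := 1610612736) (W1 := 536870912) (P2 := 0) (W2 := 536870912) (P3 := 536870912) (W3 := 50465866) (N0 := 3) (En := eng) (mo := mog) (C1 := cd2q3) (C2 := cd3q0) (C3 := pd3)
    rfl k0_pp_303

noncomputable def f_pp_313 : ℕ → ℕ → ℕ → ℕ → Bool := onCell 1610612736 536870912 536870912 536870912 536870912 50465866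
    (rowB 3 eng mog cd2q3 cd3q1 pd3 0 true true true .dn 3 1 3 (qsf 1610612736 536870912 536870912 536870912 3) ndB2q3 ndB3q1 pcB3 Cut.none Ext.none)

def k0_pp_313 : ∃ t, chk3 f_pp_313 t 1 1 1 = true :=
  ⟨(l 4), by decide +kernel⟩

theorem c_pp_313 : CertB 1610612736 536870912 536870912 536870912 536870912 50465866 3 eng mog cd2q3 cd3q1 pd3 true true true .dn 3 1 3
    ndB2q3 ndB3q1 pcB3 Cut.none Ext.none :=
  certB0 (fam := true) (s1 := true) (s2 := true) (a := 3) (b := 1) (c := 3) (cn := .dn) (n1 := ndB2q3) (n2 := ndB3q1) (pc := pcB3) (cut := Cut.none) (xt := Ext.none) (P1 := 1610612736) (W1 := 536870912) (P2 := 536870912) (W2 := 536870912) (P3 := 536870912) (W3 := 50465866) (N0 := 3) (En := eng) (mo := mog) (C1 := cd2q3) (C2 := cd3q1) (C3 := pd3)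
    rfl k0_pp_313

noncomputable def f_pm_001 : ℕ → ℕ → ℕ → ℕ → Bool := onCell 0 536870912 0 536870912 536870912 50465866
    (rowB 3 eng mog cd2q0 cd3q0 pd1 0 true true false .up 0 0 1 (qsf 0 536870912 0 536870912 1) ndB2q0 ndB3q0 pcB1 Cut.none Ext.none)

def k0_pm_001 : ∃ t, chk3 f_pm_001 t 1 1 1 = true :=
  ⟨(l 3), by decide +kernel⟩

theorem c_pm_001 : CertB 0 536870912 0 536870912 536870912 50465866 3 eng mog cd2q0 cd3q0 pd1 true true false .up 0 0 1
    ndB2q0 ndB3q0 pcB1 Cut.none Ext.none :=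
  certB0 (fam := true) (s1 := true) (s2 := false) (a := 0) (b := 0) (c := 1) (cn := .up) (n1 := ndB2q0) (n2 := ndB3q0) (pc := pcB1) (cut := Cut.none) (xt := Ext.none) (P1 := 0) (W1 := 536870912) (P2 := 0) (W2 := 536870912) (P3 := 536870912) (W3 := 50465866) (N0 := 3) (En := eng) (mo := mog) (C1 := cd2q0) (C2 := cd3q0) (C3 := pd1)
    rfl k0_pm_001

noncomputable def f_pm_011 : ℕ → ℕ → ℕ → ℕ → Bool := onCell 0 536870912 536870912 536870912 536870912 50465866
    (rowB 3 eng mog cd2q0 cd3q1 pd1 1 true true false .pnn 0 1 1 (qsf 0 536870912 536870912 536870912 1) ndB2q0 ndB3q1 pcB1 Cut.none Ext.none)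

def k0_pm_011 : ∃ t, chk3 f_pm_011 t 1 1 1 = true :=
  ⟨(b (l 3) (l 3)), by decide +kernel⟩

theorem c_pm_011 : CertB 0 536870912 536870912 536870912 536870912 50465866 3 eng mog cd2q0 cd3q1 pd1 true true false .pnn 0 1 1
    ndB2q0 ndB3q1 pcB1 Cut.none Ext.none :=
  certB1 (fam := true) (s1 := true) (s2 := false) (a := 0) (b := 1) (c := 1) (cn := .pnn) (n1 := ndB2q0) (n2 := ndB3q1) (pc := pcB1) (cut := Cut.none) (xt := Ext.none) (P1 := 0) (W1 := 536870912) (P2 := 536870912) (W2 := 536870912) (P3 := 536870912) (W3 := 50465866) (N0 := 3) (En := eng) (mo := mog) (C1 := cd2q0) (C2 := cd3q1) (C3 := pd1)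
    rfl (fun _ => rfl) k0_pm_011

noncomputable def f_pm_012 : ℕ → ℕ → ℕ → ℕ → Bool := onCell 1073741824 536870912 536870912 536870912 536870912 50465866
    (rowB 3 eng mog cd2q0 cd3q1 pd2 2 true true false .pnp 0 1 2 (qsf 0 536870912 536870912 536870912 2) ndB2q0 ndB3q1 pcB2 Cut.none Ext.none)

def k0_pm_012 : ∃ t, chk3 f_pm_012 t 1 1 1 = true :=
  ⟨(a (a (a (l 3) (a (l 3) (a (b (l 3) (l 3)) (b (b (b (l 2) (l 3)) (b (l 16612904) (l 16586696))) (b (b (l 16554616) (l 16526472)) (b (l 16550464) (b (l 16498768) (a (l 3) (l 16486920))))))))) (a (b (a (a (b (b (l 2) (l 16629728)) (b (l 16609552) (l 16580232))) (b (l 2) (a (b (l 16613912) (l 16582288)) (a (l 16827312) (b (l 16652704) (l 16577328)))))) (b (l 2) (b (l 16623600) (l 16586808)))) (a (a (b (b (l 16545032) (l 16552136)) (b (a (l 16491520) (l 16482744)) (b (l 16535528) (a (l 16472808) (l 16459376))))) (a (b (b (l 16544808) (l 16504640)) (b (l 16475432) (l 16472944))) (b (a (l 16582840) (b (a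 (l 16537264) (l 16540960)) (a (l 16493896) (l 16496688)))) (a (b (l 16466592) (l 16441304)) (b (a (l 16461584) (l 16462680)) (a (l 16436016) (l 16435248))))))) (b (b (l 16544008) (l 16494512)) (b (l 16450176) (l 16414792))))) (b (b (l 2) (b (l 16650656) (l 16607264))) (b (b (l 16557032) (l 16495720)) (b (l 16428568) (b (l 16381224) (l 16354024))))))) (a (b (b (l 2) (b (l 2) (l 16689416))) (b (b (l 16631808) (l 16556760)) (b (a (l 16440400) (l 16495992)) (a (l 16345056) (l 16377304))))) (b (l 2) (b (a (l 16728592) (l 2)) (a (l 16524480) (l 16636200)))))), by decide +kernel⟩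

theorem c_pm_012 : CertB 0 536870912 536870912 536870912 536870912 50465866 3 eng mog cd2q0 cd3q1 pd2 true true false .pnp 0 1 2
    ndB2q0 ndB3q1 pcB2 Cut.none Ext.none :=
  certB2 (fam := true) (s1 := true) (s2 := false) (a := 0) (b := 1) (c := 2) (cn := .pnp) (n1 := ndB2q0) (n2 := ndB3q1) (pc := pcB2) (cut := Cut.none) (xt := Ext.none) (P1 := 0) (W1 := 536870912) (P2 := 536870912) (W2 := 536870912) (P3 := 536870912) (W3 := 50465866) (N0 := 3) (En := eng) (mo := mog) (C1 := cd2q0) (C2 := cd3q1) (C3 := pd2)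
    rfl (fun _ => rfl) k0_pm_012

noncomputable def cut_pm_022_a : Cut := Cut.of [[⟨0, 0, 0, 67108864⟩, ⟨1, 1, 0, 67108864⟩, ⟨2, 1, 0, 67108864⟩]]

noncomputable def f_pm_022_a : ℕ → ℕ → ℕ → ℕ → Bool := onCell 1073741824 536870912 0 536870912 536870912 50465866
    (rowB 3 eng mog cd2q0 cd3q2a pd2 2 true true false .pp 0 2 2 (qsf 0 536870912 0 536870912 2) ndB2q0 ndB3q2a pcB2 cut_pm_022_a Ext.none)

def k0_pm_022_a : ∃ t, chk3 f_pm_022_a t 2 2 1 = true :=
  ⟨(a (a (l 1) (a (l 1) (b (l 1) (b (l 1) (a (l 1) (b (l 1) (a (l 1) (b (l 255046755863) (l 309270721431))))))))) (a (a (a (b (l 1) (b (a (l 1) (b (l 252899216439) (l 307123185335))) (b (a (l 289943344103) (l 346851651703)) (a (b (l 338798604471) (l 16536712)) (l 16529968))))) (b (a (b (l 1) (b (l 1) (l 288332680407))) (a (b (l 1) (b (l 330208593111) (l 16498472))) (b (a (b (l 1269195810823) (l 16492744)) (b (c (l 402149340295) (a (a (a (l 16485504) (a (l 16485560) (l 16485672))) (l 16485584))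 (l 16485392))) (c (l 16497984) (a (a (a (l 16486160) (l 16486344)) (l 16486232)) (l 16486008))))) (a (b (l 16494528) (l 16497592)) (b (l 16494288) (l 16497280)))))) (a (b (b (l 297996367287) (l 16511008)) (l 16542688)) (b (a (l 16505704) (a (l 16504600) (l 16504152))) (a (l 16518384) (a (l 16516904) (l 16516208))))))) (b (a (b (a (b (a (l 16491064) (l 16490152)) (l 16490800)) (l 16489672)) (a (l 16493848) (l 16491976))) (b (l 16488408) (l 16489592))) (b (a (l 16500224) (l 16495024)) (a (l 16511064) (l 16503560))))) (b (a (l 16527928) (l 16481488)) (a (b (l 16487480) (l 16492400)) (l 16478064))))), by decide +kernel⟩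

def k1_pm_022_a : ∃ t, chk3 f_pm_022_a t 4 3 1 = true :=
  ⟨(a (b (l 1) (a (b (l 1) (l 6)) (a (b (b (l 1) (l 6)) (l 6)) (a (b (b (l 1) (l 6)) (l 6)) (a (b (b (b (l 1) (b (l 1) (l 6))) (l 6)) (l 6)) (b (b (b (l 1) (b (l 247530789735) (l 16655480))) (b (b (l 16660104) (l 16664720)) (l 16671664))) (b (l 16686304) (l 16706024)))))))) (b (a (b (l 1) (a (b (l 1) (a (l 1) (b (l 200822954471) (a (l 240551421479) (l 279206114711))))) (b (a (b (l 1) (l 214781571383)) (b (l 234108898791) (a (l 262563062647) (l 16596464)))) (a (b (a (l 240014514135) (l 296922824439)) (a (l 16620504) (l 16617464))) (b (l 16605264) (l 16612792)))))) (b (a (b (a (l 1) (b (l 1) (l 227129517831))) (a (b (l 1) (l 259341807495)) (b (l 287795937959) (l 331282496487)))) (b (a (b (l 264173590295) (l 307123269159)) (b (l 16546232) (l 16551488))) (a (b (l 16562104) (l 16568016)) (l 16559736)))) (a (b (a (b (l 304975844343) (l 16592208)) (l 16583144)) (a (b (l 16599224) (l 16606336))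 (l 16596376))) (b (a (l 16577240) (l 16571096)) (l 16586200))))) (b (a (a (b (b (a (a (l 228203419719) (l 269005598711)) (a (l 16634944) (l 16631800))) (a (a (b (l 16647752) (l 16652248)) (l 16646784)) (c (l 16684496) (l 16640624)))) (a (b (c (l 16657824) (l 16635432)) (l 16666192)) (l 16696504))) (b (b (a (l 16626976) (l 16620344)) (l 16631464)) (l 16665840))) (a (b (l 16613408) (l 16633328)) (l 16655032))) (a (a (b (b (l 16672688) (l 16682688)) (b (l 16692600) (l 16702408))) (b (b (l 16660000) (l 16670056)) (l 16685112))) (b (a (l 16653664) (l 16643392)) (a (l 16673840) (l 16663792))))))), by decide +kernel⟩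

def k2_pm_022_a : ∃ t, chk3 f_pm_022_a t 5 3 1 = true :=
  ⟨(a (b (a (a (b (b (l 16541512) (l 16656136)) (l 16650768)) (b (a (b (l 16533536) (l 16542216)) (a (l 16533840) (l 16575008))) (a (l 16556784) (l 16688072)))) (b (l 16519048) (l 16542872))) (a (a (b (l 16603936) (b (l 16634312) (l 16654968))) (b (a (l 16597856) (a (l 16594912) (b (l 16581544) (l 16602104)))) (a (l 16639040) (a (l 16636176) (a (l 16634576) (l 16633216)))))) (b (b (l 16573032) (l 16593552)) (b (l 16614320) (l 16635848))))) (b (b (l 16487424) (l 16520232)) (b (a (l 16568136) (l 16555104)) (a (l 16610784) (l 16598440))))), by decide +kernel⟩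

def k3_pm_022_a : ∃ t, chk3 f_pm_022_a t 3 1 1 = true :=
  ⟨(a (b (a (b (l 16475672) (l 16459224)) (b (l 16462648) (l 16427152))) (b (a (l 16479384) (l 16469128)) (a (b (l 16539304) (l 16583384)) (b (l 16531632) (l 16586208))))) (a (b (l 16467768) (b (l 16494224) (l 16604776))) (b (a (l 16435224) (l 16461744)) (b (a (l 16539112) (l 16559080)) (a (l 16659648) (l 16681512)))))), by decide +kernel⟩

theorem s4_pm_022_a : ∃ t, chk3 f_pm_022_a t 2 3 1 = true := ex3_a k1_pm_022_a k2_pm_022_a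

theorem s5_pm_022_a : ∃ t, chk3 f_pm_022_a t 2 1 1 = true := ex3_b k0_pm_022_a s4_pm_022_a

theorem s6_pm_022_a : ∃ t, chk3 f_pm_022_a t 1 1 1 = true := ex3_a s5_pm_022_a k3_pm_022_a

theorem c_pm_022_a : CertB 0 536870912 0 536870912 536870912 50465866 3 eng mog cd2q0 cd3q2a pd2 true true false .pp 0 2 2
    ndB2q0 ndB3q2a pcB2 cut_pm_022_a Ext.none :=
  certB2 (fam := true) (s1 := true) (s2 := false) (a := 0) (b := 2) (c := 2) (cn := .pp) (n1 := ndB2q0) (n2 := ndB3q2a) (pc := pcB2) (cut := cut_pm_022_a) (xt := Ext.none) (P1 := 0) (W1 := 536870912) (P2 := 0) (W2 := 536870912) (P3 := 536870912) (W3 := 50465866) (N0 := 3) (En := eng) (mo := mog) (C1 := cd2q0) (C2 := cd3q2a) (C3 := pd2)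
    rfl (fun _ => rfl) s6_pm_022_a

noncomputable def cut_pm_022_b : Cut := Cut.of [[⟨0, 0, 0, 67108864⟩, ⟨1, 1, 0, 67108864⟩, ⟨2, 1, 0, 67108864⟩]]

noncomputable def f_pm_022_b : ℕ → ℕ → ℕ → ℕ → Bool := onCell 0 536870912 1073741824 536870912 536870912 50465866
    (rowB 3 eng mog cd2q0 cd3q2b pd2 1 true true false .pp 0 2 2 (qsf 0 536870912 1239849684 370763052 2) ndB2q0 ndB3q2b pcB2 cut_pm_022_b Ext.none)

def k0_pm_022_b : ∃ t, chk3 f_pm_022_b t 1 1 1 = true :=
  ⟨(a (b (b (l 1) (a (b (a (b (b (l 1) (a (b (l 1) (a (b (l 1) (a (a (b (l 1) (c (l 16499640) (b (b (b (l 1) (b (l 1) (l 16488352))) (l 16487864)) (l 16486704)))) (l 1)) (l 1))) (l 1))) (l 1))) (b (a (a (a (b (c (l 16494520) (l 16482584)) (l 16479312)) (l 16493192)) (l 16506352)) (l 1)) (a (a (b (l 16474808) (l 16466272)) (l 16487624)) (l 16637272)))) (l 1)) (a (a (a (b (a (a (b (l 16447976) (l 16434152)) (l 16439768)) (l 16451248)) (a (b (a (l 16422328) (l 16426288)) (l 16445856))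 (l 16426800))) (b (l 16463472) (l 16438152))) (b (l 16486448) (l 16459792))) (a (b (l 16512664) (l 16485200)) (l 16737424)))) (l 1))) (b (a (a (b (a (b (a (a (b (l 16406464) (l 16400864)) (l 16410296)) (l 16420680)) (a (b (l 16401424) (l 16401272)) (l 16412296))) (l 16434272)) (a (b (a (l 16403040) (l 16412160)) (l 16411072)) (l 16425320))) (b (b (l 16475456) (l 16462048)) (l 16450816))) (b (a (l 16682040) (l 1)) (a (l 16475712) (l 16554512)))) (b (a (a (a (b (a (a (l 16406960) (l 16413680)) (l 16420936)) (a (l 16399384) (l 16417872))) (l 16432256)) (l 16452136)) (a (l 16469840) (l 16471672))) (a (b (a (a (l 16396720) (l 16432336)) (l 16464272)) (a (a (b (l 16389568) (l 16419544)) (l 16436888)) (l 16480344))) (b (l 16481512) (l 16503096)))))) (a (b (l 1) (b (l 1) (b (l 383896172135) (b (l 16454056) (l 16443528))))) (l 1))), by decide +kernel⟩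

theorem c_pm_022_b : CertB 0 536870912 1239849684 370763052 536870912 50465866 3 eng mog cd2q0 cd3q2b pd2 true true false .pp 0 2 2
    ndB2q0 ndB3q2b pcB2 cut_pm_022_b Ext.none :=
  certB1 (fam := true) (s1 := true) (s2 := false) (a := 0) (b := 2) (c := 2) (cn := .pp) (n1 := ndB2q0) (n2 := ndB3q2b) (pc := pcB2) (cut := cut_pm_022_b) (xt := Ext.none) (P1 := 0) (W1 := 536870912) (P2 := 1239849684) (W2 := 370763052) (P3 := 536870912) (W3 := 50465866) (N0 := 3) (En := eng) (mo := mog) (C1 := cd2q0) (C2 := cd3q2b) (C3 := pd2)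
    rfl (fun _ => rfl) k0_pm_022_b

noncomputable def f_pm_023_a : ℕ → ℕ → ℕ → ℕ → Bool := onCell 1610612736 536870912 0 536870912 536870912 50465866
    (rowB 3 eng mog cd2q0 cd3q2a pd3 2 true true false .up 0 2 3 (qsf 0 536870912 0 536870912 3) ndB2q0 ndB3q2a pcB3 Cut.none Ext.none)

def k0_pm_023_a : ∃ t, chk3 f_pm_023_a t 1 1 1 = true :=
  ⟨(a (a (a (b (l 16535144) (b (l 16630680) (a (l 16761952) (l 16756280)))) (b (l 16653800) (b (l 16714960) (l 16797648)))) (b (a (l 16756768) (l 2)) (a (l 16761280) (l 2)))) (l 2)), by decide +kernel⟩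

theorem c_pm_023_a : CertB 0 536870912 0 536870912 536870912 50465866 3 eng mog cd2q0 cd3q2a pd3 true true false .up 0 2 3
    ndB2q0 ndB3q2a pcB3 Cut.none Ext.none :=
  certB2 (fam := true) (s1 := true) (s2 := false) (a := 0) (b := 2) (c := 3) (cn := .up) (n1 := ndB2q0) (n2 := ndB3q2a) (pc := pcB3) (cut := Cut.none) (xt := Ext.none) (P1 := 0) (W1 := 536870912) (P2 := 0) (W2 := 536870912) (P3 := 536870912) (W3 := 50465866) (N0 := 3) (En := eng) (mo := mog) (C1 := cd2q0) (C2 := cd3q2a) (C3 := pd3)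
    rfl (fun _ => rfl) k0_pm_023_a

noncomputable def f_pm_023_b : ℕ → ℕ → ℕ → ℕ → Bool := onCell 1610612736 536870912 1239849684 370763052 536870912 50465866
    (rowB 3 eng mog cd2q0 cd3q2b pd3 2 true true false .up 0 2 3 (qsf 0 536870912 1239849684 370763052 3) ndB2q0 ndB3q2b pcB3 Cut.none Ext.none)

def k0_pm_023_b : ∃ t, chk3 f_pm_023_b t 1 1 1 = true :=
  ⟨(a (a (a (b (b (l 16459048) (l 16522200)) (b (a (l 16504960) (l 16548256)) (a (b (l 16449568) (l 16400872)) (l 16483128)))) (b (b (l 16578072) (l 16543016)) (b (l 16571368) (l 16545480)))) (b (a (l 16652848) (l 16713680)) (a (b (l 16641080) (l 16623184)) (b (l 16710896) (l 16698544))))) (a (b (a (l 16741464) (l 16825472)) (a (l 16759288) (l 16913032))) (l 4))), by decide +kernel⟩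

theorem c_pm_023_b : CertB 0 536870912 1239849684 370763052 536870912 50465866 3 eng mog cd2q0 cd3q2b pd3 true true false .up 0 2 3
    ndB2q0 ndB3q2b pcB3 Cut.none Ext.none :=
  certB2 (fam := true) (s1 := true) (s2 := false) (a := 0) (b := 2) (c := 3) (cn := .up) (n1 := ndB2q0) (n2 := ndB3q2b) (pc := pcB3) (cut := Cut.none) (xt := Ext.none) (P1 := 0) (W1 := 536870912) (P2 := 1239849684) (W2 := 370763052) (P3 := 536870912) (W3 := 50465866) (N0 := 3) (En := eng) (mo := mog) (C1 := cd2q0) (C2 := cd3q2b) (C3 := pd3)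
    rfl (fun _ => rfl) k0_pm_023_b

noncomputable def f_pm_033 : ℕ → ℕ → ℕ → ℕ → Bool := onCell 0 536870912 1610612736 536870912 536870912 50465866
    (rowB 3 eng mog cd2q0 cd3q3 pd3 1 true true false .pnn 0 3 3 (qsf 0 536870912 1610612736 536870912 3) ndB2q0 ndB3q3 pcB3 Cut.none Ext.none)

def k0_pm_033 : ∃ t, chk3 f_pm_033 t 1 1 1 = true :=
  ⟨(b (b (a (b (a (a (b (l 16438152) (l 16502832)) (l 285648529351)) (l 1)) (a (a (b (l 16555920) (l 16579728)) (l 16568304)) (l 16579528))) (l 1)) (a (b (a (a (l 16626912) (l 16630040)) (l 16640536)) (a (b (l 16680928) (l 16705840)) (l 16704232))) (b (l 1) (a (l 16719816) (l 1))))) (b (a (b (a (l 16735728) (l 16749344)) (l 4)) (b (a (l 16763992) (l 1)) (a (l 4) (l 16826520)))) (l 4))), by decide +kernel⟩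

theorem c_pm_033 : CertB 0 536870912 1610612736 536870912 536870912 50465866 3 eng mog cd2q0 cd3q3 pd3 true true false .pnn 0 3 3
    ndB2q0 ndB3q3 pcB3 Cut.none Ext.none :=
  certB1 (fam := true) (s1 := true) (s2 := false) (a := 0) (b := 3) (c := 3) (cn := .pnn) (n1 := ndB2q0) (n2 := ndB3q3) (pc := pcB3) (cut := Cut.none) (xt := Ext.none) (P1 := 0) (W1 := 536870912) (P2 := 1610612736) (W2 := 536870912) (P3 := 536870912) (W3 := 50465866) (N0 := 3) (En := eng) (mo := mog) (C1 := cd2q0) (C2 := cd3q3) (C3 := pd3)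
    rfl (fun _ => rfl) k0_pm_033

noncomputable def f_pm_101 : ℕ → ℕ → ℕ → ℕ → Bool := onCell 536870912 536870912 0 536870912 536870912 50465866
    (rowB 3 eng mog cd2q1 cd3q0 pd1 2 true true false .npn 1 0 1 (qsf 536870912 536870912 0 536870912 1) ndB2q1 ndB3q0 pcB1 Cut.none Ext.none)

def k0_pm_101 : ∃ t, chk3 f_pm_101 t 1 1 1 = true :=
  ⟨(a (l 3) (l 3)), by decide +kernel⟩

theorem c_pm_101 : CertB 536870912 536870912 0 536870912 536870912 50465866 3 eng mog cd2q1 cd3q0 pd1 true true false .npn 1 0 1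
    ndB2q1 ndB3q0 pcB1 Cut.none Ext.none :=
  certB2 (fam := true) (s1 := true) (s2 := false) (a := 1) (b := 0) (c := 1) (cn := .npn) (n1 := ndB2q1) (n2 := ndB3q0) (pc := pcB1) (cut := Cut.none) (xt := Ext.none) (P1 := 536870912) (W1 := 536870912) (P2 := 0) (W2 := 536870912) (P3 := 536870912) (W3 := 50465866) (N0 := 3) (En := eng) (mo := mog) (C1 := cd2q1) (C2 := cd3q0) (C3 := pd1)
    rfl (fun _ => rfl) k0_pm_101

noncomputable def f_pm_102 : ℕ → ℕ → ℕ → ℕ → Bool := onCell 536870912 536870912 1073741824 536870912 536870912 50465866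
    (rowB 3 eng mog cd2q1 cd3q0 pd2 1 true true false .npp 1 0 2 (qsf 536870912 536870912 0 536870912 2) ndB2q1 ndB3q0 pcB2 Cut.none Ext.none)

def k0_pm_102 : ∃ t, chk3 f_pm_102 t 1 1 1 = true :=
  ⟨(a (b (b (b (l 3) (b (l 3) (a (b (l 3) (l 16877560)) (l 3)))) (b (b (b (a (a (l 2) (l 16702304)) (a (l 16739904) (l 16753768))) (a (l 2) (b (l 16939888) (b (l 16752208) (a (l 16744280) (l 16757304)))))) (a (l 2) (l 16906392))) (a (l 2) (a (l 16775168) (l 16779208))))) (b (a (l 2) (b (l 16821320) (l 2))) (l 2))) (b (b (b (l 3) (a (l 3) (b (l 3) (l 3)))) (b (b (b (a (a (l 16751112) (b (l 16723632) (l 16721424))) (a (b (l 16680080) (l 16675368)) (b (a (l 16640008) (l 16609880)) (a (l 16633784) (l 16603232))))) (a (b (a (l 16750784) (l 16716584)) (b (a (l 16751352) (l 16715952)) (a (l 16752200) (b (l 16716760) (l 16714208))))) (b (a (l 16667584) (l 16652056)) (b (a (l 16665120) (l 16606560)) (a (b (l 16664664) (l 16660880)) (b (l 16604736) (l 16600992)))))))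 (a (a (l 16751256) (l 16709296)) (a (l 16646848) (l 16584136)))) (a (a (l 16761560) (l 16711288)) (a (l 16628672) (l 16628416))))) (b (a (b (l 16775464) (l 16838320)) (a (l 16669856) (b (l 16522832) (l 16558136)))) (a (b (l 16941464) (l 2)) (b (l 16754152) (l 16953016)))))), by decide +kernel⟩

theorem c_pm_102 : CertB 536870912 536870912 0 536870912 536870912 50465866 3 eng mog cd2q1 cd3q0 pd2 true true false .npp 1 0 2
    ndB2q1 ndB3q0 pcB2 Cut.none Ext.none :=
  certB1 (fam := true) (s1 := true) (s2 := false) (a := 1) (b := 0) (c := 2) (cn := .npp) (n1 := ndB2q1) (n2 := ndB3q0) (pc := pcB2) (cut := Cut.none) (xt := Ext.none) (P1 := 536870912) (W1 := 536870912) (P2 := 0) (W2 := 536870912) (P3 := 536870912) (W3 := 50465866) (N0 := 3) (En := eng) (mo := mog) (C1 := cd2q1) (C2 := cd3q0) (C3 := pd2)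
    rfl (fun _ => rfl) k0_pm_102

noncomputable def f_pm_112 : ℕ → ℕ → ℕ → ℕ → Bool := onCell 1073741824 536870912 536870912 536870912 536870912 50465866
    (rowB 3 eng mog cd2q1 cd3q1 pd2 2 true true false .dn 1 1 2 (qsf 536870912 536870912 536870912 536870912 2) ndB2q1 ndB3q1 pcB2 Cut.none Ext.none)

def k0_pm_112 : ∃ t, chk3 f_pm_112 t 1 1 1 = true :=
  ⟨(a (a (b (a (l 3) (a (l 3) (a (l 3) (a (l 3) (b (l 16668224) (l 290480976647)))))) (l 1)) (a (b (a (a (b (l 16932096) (b (l 16612200) (l 1))) (b (a (l 16693120) (a (l 16697584) (b (l 16726928) (l 16669040)))) (a (l 170221783863) (a (l 169148038071) (b (l 16616680) (l 1)))))) (b (l 16723808) (l 165926834631))) (l 1)) (b (b (b (l 16779536) (l 16750760)) (b (l 16681464) (l 16615008))) (b (l 252362913991) (l 1))))) (a (b (b (b (l 16828936) (l 16871360)) (b (a (l 16783720) (l 16922264)) (l 16764680))) (b (a (l 16653648) (l 16669624)) (l 235719783543))) (b (a (b (l 16966552) (l 17078192)) (b (l 17088960)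 (l 17330264))) (b (a (l 16858552) (l 17120768)) (a (l 16531664) (l 16698616)))))), by decide +kernel⟩

theorem c_pm_112 : CertB 536870912 536870912 536870912 536870912 536870912 50465866 3 eng mog cd2q1 cd3q1 pd2 true true false .dn 1 1 2
    ndB2q1 ndB3q1 pcB2 Cut.none Ext.none :=
  certB2 (fam := true) (s1 := true) (s2 := false) (a := 1) (b := 1) (c := 2) (cn := .dn) (n1 := ndB2q1) (n2 := ndB3q1) (pc := pcB2) (cut := Cut.none) (xt := Ext.none) (P1 := 536870912) (W1 := 536870912) (P2 := 536870912) (W2 := 536870912) (P3 := 536870912) (W3 := 50465866) (N0 := 3) (En := eng) (mo := mog) (C1 := cd2q1) (C2 := cd3q1) (C3 := pd2)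
    rfl (fun _ => rfl) k0_pm_112

noncomputable def f_pm_113 : ℕ → ℕ → ℕ → ℕ → Bool := onCell 536870912 536870912 1610612736 536870912 536870912 50465866
    (rowB 3 eng mog cd2q1 cd3q1 pd3 1 true true false .nn 1 1 3 (qsf 536870912 536870912 536870912 536870912 3) ndB2q1 ndB3q1 pcB3 Cut.none Ext.none)

def k0_pm_113 : ∃ t, chk3 f_pm_113 t 1 1 1 = true :=
  ⟨(a (b (b (a (l 16822992) (b (l 17187368) (l 17151352))) (a (a (l 2) (l 360878704855)) (l 17098536))) (b (a (l 2) (l 416713020551)) (l 2))) (b (b (b (a (l 17326040) (l 17304256)) (a (l 17246640) (l 17433696))) (a (l 17144688) (l 17192936))) (b (b (l 17046896) (l 16984824)) (b (a (l 16949480) (l 16900224)) (b (l 16873576) (b (l 16849656) (b (l 16833672) (l 16817080)))))))), by decide +kernel⟩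

theorem c_pm_113 : CertB 536870912 536870912 536870912 536870912 536870912 50465866 3 eng mog cd2q1 cd3q1 pd3 true true false .nn 1 1 3
    ndB2q1 ndB3q1 pcB3 Cut.none Ext.none :=
  certB1 (fam := true) (s1 := true) (s2 := false) (a := 1) (b := 1) (c := 3) (cn := .nn) (n1 := ndB2q1) (n2 := ndB3q1) (pc := pcB3) (cut := Cut.none) (xt := Ext.none) (P1 := 536870912) (W1 := 536870912) (P2 := 536870912) (W2 := 536870912) (P3 := 536870912) (W3 := 50465866) (N0 := 3) (En := eng) (mo := mog) (C1 := cd2q1) (C2 := cd3q1) (C3 := pd3)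
    rfl (fun _ => rfl) k0_pm_113

noncomputable def f_pm_123_a : ℕ → ℕ → ℕ → ℕ → Bool := onCell 1610612736 536870912 0 536870912 536870912 50465866
    (rowB 3 eng mog cd2q1 cd3q2a pd3 2 true true false .npn 1 2 3 (qsf 536870912 536870912 0 536870912 3) ndB2q1 ndB3q2a pcB3 Cut.none Ext.none)

def k0_pm_123_a : ∃ t, chk3 f_pm_123_a t 1 1 1 = true :=
  ⟨(a (a (a (b (l 1) (b (l 1) (a (l 16774704) (l 16797184)))) (b (l 16660840) (b (l 16737040) (l 16904104)))) (b (a (l 16786584) (l 16878712)) (b (l 17177944) (a (l 17061096) (l 17011112))))) (a (b (a (l 16858112) (l 16944528)) (a (b (l 16897800) (l 16930640)) (a (l 16948792) (b (l 16818376) (l 16858688))))) (a (b (l 16744088) (b (l 16776584) (a (l 16830800) (l 16822856)))) (a (b (l 4) (l 4)) (l 4))))), by decide +kernel⟩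

theorem c_pm_123_a : CertB 536870912 536870912 0 536870912 536870912 50465866 3 eng mog cd2q1 cd3q2a pd3 true true false .npn 1 2 3
    ndB2q1 ndB3q2a pcB3 Cut.none Ext.none :=
  certB2 (fam := true) (s1 := true) (s2 := false) (a := 1) (b := 2) (c := 3) (cn := .npn) (n1 := ndB2q1) (n2 := ndB3q2a) (pc := pcB3) (cut := Cut.none) (xt := Ext.none) (P1 := 536870912) (W1 := 536870912) (P2 := 0) (W2 := 536870912) (P3 := 536870912) (W3 := 50465866) (N0 := 3) (En := eng) (mo := mog) (C1 := cd2q1) (C2 := cd3q2a) (C3 := pd3)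
    rfl (fun _ => rfl) k0_pm_123_a

noncomputable def f_pm_123_b : ℕ → ℕ → ℕ → ℕ → Bool := onCell 1610612736 536870912 1239849684 370763052 536870912 50465866
    (rowB 3 eng mog cd2q1 cd3q2b pd3 2 true true false .npn 1 2 3 (qsf 536870912 536870912 1239849684 370763052 3) ndB2q1 ndB3q2b pcB3 Cut.none Ext.none)

def k0_pm_123_b : ∃ t, chk3 f_pm_123_b t 1 1 1 = true :=
  ⟨(a (a (l 1) (b (a (l 16662688) (l 16716848)) (l 1))) (a (b (a (l 16902728) (b (l 23320839655) (l 16785632))) (a (l 1) (l 16873312))) (l 4))), by decide +kernel⟩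

theorem c_pm_123_b : CertB 536870912 536870912 1239849684 370763052 536870912 50465866 3 eng mog cd2q1 cd3q2b pd3 true true false .npn 1 2 3
    ndB2q1 ndB3q2b pcB3 Cut.none Ext.none :=
  certB2 (fam := true) (s1 := true) (s2 := false) (a := 1) (b := 2) (c := 3) (cn := .npn) (n1 := ndB2q1) (n2 := ndB3q2b) (pc := pcB3) (cut := Cut.none) (xt := Ext.none) (P1 := 536870912) (W1 := 536870912) (P2 := 1239849684) (W2 := 370763052) (P3 := 536870912) (W3 := 50465866) (N0 := 3) (En := eng) (mo := mog) (C1 := cd2q1) (C2 := cd3q2b) (C3 := pd3)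
    rfl (fun _ => rfl) k0_pm_123_b

noncomputable def f_pm_133 : ℕ → ℕ → ℕ → ℕ → Bool := onCell 536870912 536870912 1610612736 536870912 536870912 50465866
    (rowB 3 eng mog cd2q1 cd3q3 pd3 0 true true false .dn 1 3 3 (qsf 536870912 536870912 1610612736 536870912 3) ndB2q1 ndB3q3 pcB3 Cut.none Ext.none)

def k0_pm_133 : ∃ t, chk3 f_pm_133 t 1 1 1 = true :=
  ⟨(l 4), by decide +kernel⟩

theorem c_pm_133 : CertB 536870912 536870912 1610612736 536870912 536870912 50465866 3 eng mog cd2q1 cd3q3 pd3 true true false .dn 1 3 3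
    ndB2q1 ndB3q3 pcB3 Cut.none Ext.none :=
  certB0 (fam := true) (s1 := true) (s2 := false) (a := 1) (b := 3) (c := 3) (cn := .dn) (n1 := ndB2q1) (n2 := ndB3q3) (pc := pcB3) (cut := Cut.none) (xt := Ext.none) (P1 := 536870912) (W1 := 536870912) (P2 := 1610612736) (W2 := 536870912) (P3 := 536870912) (W3 := 50465866) (N0 := 3) (En := eng) (mo := mog) (C1 := cd2q1) (C2 := cd3q3) (C3 := pd3)
    rfl k0_pm_133

noncomputable def cut_pm_202_a : Cut := Cut.of [[⟨0, 1, 0, 67108864⟩, ⟨1, 0, 0, 67108864⟩, ⟨2, 1, 0, 67108864⟩]]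

noncomputable def f_pm_202_a : ℕ → ℕ → ℕ → ℕ → Bool := onCell 0 536870912 1073741824 536870912 536870912 50465866
    (rowB 3 eng mog cd2q2a cd3q0 pd2 1 true true false .pp 2 0 2 (qsf 0 536870912 0 536870912 2) ndB2q2a ndB3q0 pcB2 cut_pm_202_a Ext.none)

def k0_pm_202_a : ∃ t, chk3 f_pm_202_a t 2 1 1 = true :=
  ⟨(b (b (b (l 1) (a (l 1) (b (l 1) (a (l 1) (b (l 1) (a (l 1) (b (l 1) (l 519724107847)))))))) (b (b (a (b (l 1) (b (a (l 1) (a (l 1) (l 301754660839))) (b (a (l 1) (c (l 16468960) (l 16472512))) (a (a (l 16456336) (l 16589904)) (a (l 16600648) (l 16472744)))))) (b (a (b (l 1) (a (l 465500049591) (l 536367025095))) (b (a (l 521334687255) (l 16528968)) (a (l 16513472) (l 16523624)))) (a (b (a (l 16478920) (a (l 16496496) (l 16563912))) (b (l 16616064) (l 16623816))) (b (a (l 16508104) (l 16517632)) (a (l 16586344) (l 16511384)))))) (b (a (a (l 16559240) (l 16577368)) (a (l 16502360) (l 16505824))) (a (a (l 16456384) (l 16462824)) (a (l 16479240)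 (l 16507968))))) (a (b (a (l 16461712) (l 16467064)) (l 16477152)) (b (a (l 16483400) (l 16512752)) (l 16509272))))) (b (b (a (b (l 16495680) (l 16518344)) (a (l 16516352) (l 16537672))) (a (l 16539288) (l 16547160))) (b (a (l 16574472) (l 16579080)) (a (l 16652320) (b (l 16640600) (l 16708952)))))), by decide +kernel⟩

def k1_pm_202_a : ∃ t, chk3 f_pm_202_a t 3 4 1 = true :=
  ⟨(b (a (l 1) (b (a (l 1) (l 6)) (b (a (a (l 1) (l 6)) (l 6)) (b (a (a (l 1) (l 6)) (l 6)) (a (a (a (l 1) (b (a (l 1) (l 6)) (a (l 497175766087) (l 547641639751)))) (a (b (l 6) (a (l 16638232) (l 16665336))) (l 16674288))) (a (l 16689912) (l 16709328))))))) (a (b (a (l 1) (b (a (l 1) (b (l 1) (a (b (l 1) (l 448320440791)) (b (l 493954491319) (l 509523742359))))) (a (b (a (l 1) (l 467647769095)) (a (l 488585708839) (l 488585724663))) (b (a (b (l 457447241191) (l 515429286535)) (b (l 16620616) (a (l 16615616) (l 16619728)))) (a (b (l 16606688) (l 16603816)) (l 16613112))))))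 (a (b (a (b (l 1) (l 478385092551)) (b (a (l 1) (l 515429229639)) (a (l 547641453335) (l 16572096)))) (a (b (l 467647665431) (a (l 16542520) (l 16548544))) (b (a (l 16560144) (l 16566648)) (l 16557712)))) (b (a (b (a (l 504154947159) (b (l 16593320) (l 16590472))) (c (l 16604080) (l 16665376))) (b (l 16603016) (l 16597472))) (a (l 16573104) (l 16594288))))) (a (b (b (a (b (a (b (a (l 1) (l 502544459943)) (a (l 510060637767) (l 16640304))) (a (b (l 16647888) (l 16644896)) (b (l 16652608) (l 16649456)))) (a (b (l 16635144) (a (l 16629960) (l 16634288))) (l 16642384))) (a (b (l 16658016) (l 16652208)) (l 16665584))) (a (a (b (l 16627456) (l 16620936)) (l 16634192)) (l 16650640))) (a (b (l 16621440) (l 16616552)) (b (l 16643192) (l 16638120)))) (b (a (b (a (l 16676008) (l 16686112)) (l 16671480)) (b (l 16700760) (l 16691328))) (a (l 16661200) (l 16681776)))))), by decide +kernel⟩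

def k2_pm_202_a : ∃ t, chk3 f_pm_202_a t 3 5 1 = true :=
  ⟨(b (a (b (b (a (a (b (l 16540136) (l 16534024)) (l 16548072)) (l 16581696)) (a (b (l 16539144) (b (l 16540368) (l 16541072))) (b (l 16582080) (b (l 16582776) (l 16583096))))) (a (l 16543824) (b (l 16584528) (l 16585432)))) (b (b (a (l 16625336) (l 16667816)) (a (b (l 16625120) (b (l 16625496) (l 16625592))) (b (l 16668136) (b (l 16668824) (l 16668984))))) (a (l 16626824) (l 16731800)))) (a (a (b (l 16549000) (l 16557552)) (b (l 16588800) (l 16593840))) (a (l 16668712) (l 16664936)))), by decide +kernel⟩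

def k3_pm_202_a : ∃ t, chk3 f_pm_202_a t 3 3 1 = true :=
  ⟨(b (a (b (a (l 16563992) (l 16592440)) (l 16586472)) (b (a (l 16622520) (l 16661208)) (a (l 16635936) (l 16699360)))) (b (a (l 16638512) (l 16769288)) (a (l 16754256) (l 16919944)))), by decide +kernel⟩

theorem s4_pm_202_a : ∃ t, chk3 f_pm_202_a t 3 2 1 = true := ex3_b k1_pm_202_a k2_pm_202_a

theorem s5_pm_202_a : ∃ t, chk3 f_pm_202_a t 3 1 1 = true := ex3_b s4_pm_202_a k3_pm_202_a

theorem s6_pm_202_a : ∃ t, chk3 f_pm_202_a t 1 1 1 = true := ex3_a k0_pm_202_a s5_pm_202_a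

theorem c_pm_202_a : CertB 0 536870912 0 536870912 536870912 50465866 3 eng mog cd2q2a cd3q0 pd2 true true false .pp 2 0 2
    ndB2q2a ndB3q0 pcB2 cut_pm_202_a Ext.none :=
  certB1 (fam := true) (s1 := true) (s2 := false) (a := 2) (b := 0) (c := 2) (cn := .pp) (n1 := ndB2q2a) (n2 := ndB3q0) (pc := pcB2) (cut := cut_pm_202_a) (xt := Ext.none) (P1 := 0) (W1 := 536870912) (P2 := 0) (W2 := 536870912) (P3 := 536870912) (W3 := 50465866) (N0 := 3) (En := eng) (mo := mog) (C1 := cd2q2a) (C2 := cd3q0) (C3 := pd2)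
    rfl (fun _ => rfl) s6_pm_202_a

noncomputable def cut_pm_202_b : Cut := Cut.of [[⟨0, 1, 0, 67108864⟩, ⟨1, 0, 0, 67108864⟩, ⟨2, 1, 0, 67108864⟩]]

noncomputable def f_pm_202_b : ℕ → ℕ → ℕ → ℕ → Bool := onCell 1073741824 536870912 0 536870912 536870912 50465866
    (rowB 3 eng mog cd2q2b cd3q0 pd2 2 true true false .pp 2 0 2 (qsf 1239849684 370763052 0 536870912 2) ndB2q2b ndB3q0 pcB2 cut_pm_202_b Ext.none)

def k0_pm_202_b : ∃ t, chk3 f_pm_202_b t 1 1 1 = true :=
  ⟨(a (b (a (l 1) (b (a (b (a (b (b (b (l 21508036887) (l 1)) (l 1)) (l 1)) (b (a (b (l 16561248) (l 229276916343)) (b (l 16427416) (l 16451240))) (a (l 1) (l 398391212855)))) (l 1)) (a (b (b (b (l 16545736) (l 16417984)) (l 16499184)) (b (l 335040881335) (l 1))) (b (b (l 16419528) (l 16410856)) (l 268468536951)))) (l 1))) (l 1)) (a (b (b (b (a (b (b (l 16379952) (l 16353120)) (l 16375040)) (b (b (l 16316736) (l 16328192)) (l 16345928))) (a (a (l 16441408) (l 16400256)) (l 16377416)))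 (a (b (a (l 483754118679) (l 228203629799)) (l 1)) (b (l 16480224) (l 512745252055)))) (l 1)) (b (a (b (b (b (l 16314616) (l 16332408)) (l 16359712)) (b (l 16377472) (l 16500120))) (b (b (a (l 16327808) (l 16340448)) (l 16355120)) (l 16488024))) (b (a (b (l 537441289719) (l 1)) (b (l 16556480) (l 16760064))) (l 1))))), by decide +kernel⟩

theorem c_pm_202_b : CertB 1239849684 370763052 0 536870912 536870912 50465866 3 eng mog cd2q2b cd3q0 pd2 true true false .pp 2 0 2
    ndB2q2b ndB3q0 pcB2 cut_pm_202_b Ext.none :=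
  certB2 (fam := true) (s1 := true) (s2 := false) (a := 2) (b := 0) (c := 2) (cn := .pp) (n1 := ndB2q2b) (n2 := ndB3q0) (pc := pcB2) (cut := cut_pm_202_b) (xt := Ext.none) (P1 := 1239849684) (W1 := 370763052) (P2 := 0) (W2 := 536870912) (P3 := 536870912) (W3 := 50465866) (N0 := 3) (En := eng) (mo := mog) (C1 := cd2q2b) (C2 := cd3q0) (C3 := pd2)
    rfl (fun _ => rfl) k0_pm_202_b

noncomputable def f_pm_203_a : ℕ → ℕ → ℕ → ℕ → Bool := onCell 0 536870912 1610612736 536870912 536870912 50465866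
    (rowB 3 eng mog cd2q2a cd3q0 pd3 1 true true false .up 2 0 3 (qsf 0 536870912 0 536870912 3) ndB2q2a ndB3q0 pcB3 Cut.none Ext.none)

def k0_pm_203_a : ∃ t, chk3 f_pm_203_a t 1 1 1 = true :=
  ⟨(b (b (b (a (a (l 16790792) (l 16793544)) (a (l 16879224) (l 17092528))) (a (l 16911792) (a (l 17062432) (l 17162688)))) (a (b (l 16941680) (l 2)) (b (l 17043256) (l 2)))) (l 2)), by decide +kernel⟩

theorem c_pm_203_a : CertB 0 536870912 0 536870912 536870912 50465866 3 eng mog cd2q2a cd3q0 pd3 true true false .up 2 0 3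
    ndB2q2a ndB3q0 pcB3 Cut.none Ext.none :=
  certB1 (fam := true) (s1 := true) (s2 := false) (a := 2) (b := 0) (c := 3) (cn := .up) (n1 := ndB2q2a) (n2 := ndB3q0) (pc := pcB3) (cut := Cut.none) (xt := Ext.none) (P1 := 0) (W1 := 536870912) (P2 := 0) (W2 := 536870912) (P3 := 536870912) (W3 := 50465866) (N0 := 3) (En := eng) (mo := mog) (C1 := cd2q2a) (C2 := cd3q0) (C3 := pd3)
    rfl (fun _ => rfl) k0_pm_203_a

noncomputable def f_pm_203_b : ℕ → ℕ → ℕ → ℕ → Bool := onCell 1239849684 370763052 1610612736 536870912 536870912 50465866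
    (rowB 3 eng mog cd2q2b cd3q0 pd3 1 true true false .up 2 0 3 (qsf 1239849684 370763052 0 536870912 3) ndB2q2b ndB3q0 pcB3 Cut.none Ext.none)

def k0_pm_203_b : ∃ t, chk3 f_pm_203_b t 1 1 1 = true :=
  ⟨(b (b (b (a (a (l 16869800) (l 16395896)) (a (l 16428888) (b (l 16405248) (l 16410368)))) (a (a (l 16793616) (l 16554008)) (a (l 16495056) (l 16491776)))) (a (l 4) (b (a (l 16631400) (l 16628536)) (l 4)))) (l 4)), by decide +kernel⟩

theorem c_pm_203_b : CertB 1239849684 370763052 0 536870912 536870912 50465866 3 eng mog cd2q2b cd3q0 pd3 true true false .up 2 0 3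
    ndB2q2b ndB3q0 pcB3 Cut.none Ext.none :=
  certB1 (fam := true) (s1 := true) (s2 := false) (a := 2) (b := 0) (c := 3) (cn := .up) (n1 := ndB2q2b) (n2 := ndB3q0) (pc := pcB3) (cut := Cut.none) (xt := Ext.none) (P1 := 1239849684) (W1 := 370763052) (P2 := 0) (W2 := 536870912) (P3 := 536870912) (W3 := 50465866) (N0 := 3) (En := eng) (mo := mog) (C1 := cd2q2b) (C2 := cd3q0) (C3 := pd3)
    rfl (fun _ => rfl) k0_pm_203_b

noncomputable def f_pm_213_a : ℕ → ℕ → ℕ → ℕ → Bool := onCell 0 536870912 1610612736 536870912 536870912 50465866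
    (rowB 3 eng mog cd2q2a cd3q1 pd3 1 true true false .pnn 2 1 3 (qsf 0 536870912 536870912 536870912 3) ndB2q2a ndB3q1 pcB3 Cut.none Ext.none)

def k0_pm_213_a : ∃ t, chk3 f_pm_213_a t 1 1 1 = true :=
  ⟨(a (b (b (b (l 1) (l 16858992)) (b (l 16969456) (l 4))) (l 4)) (b (b (b (a (l 1) (l 17034160)) (a (l 17023232) (l 17090752))) (b (a (l 16939920) (l 16927872)) (a (l 16815400) (l 16873656)))) (b (b (a (l 4) (l 16811136)) (l 4)) (l 4)))), by decide +kernel⟩

theorem c_pm_213_a : CertB 0 536870912 536870912 536870912 536870912 50465866 3 eng mog cd2q2a cd3q1 pd3 true true false .pnn 2 1 3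
    ndB2q2a ndB3q1 pcB3 Cut.none Ext.none :=
  certB1 (fam := true) (s1 := true) (s2 := false) (a := 2) (b := 1) (c := 3) (cn := .pnn) (n1 := ndB2q2a) (n2 := ndB3q1) (pc := pcB3) (cut := Cut.none) (xt := Ext.none) (P1 := 0) (W1 := 536870912) (P2 := 536870912) (W2 := 536870912) (P3 := 536870912) (W3 := 50465866) (N0 := 3) (En := eng) (mo := mog) (C1 := cd2q2a) (C2 := cd3q1) (C3 := pd3)
    rfl (fun _ => rfl) k0_pm_213_a

noncomputable def f_pm_213_b : ℕ → ℕ → ℕ → ℕ → Bool := onCell 1239849684 370763052 536870912 536870912 536870912 50465866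
    (rowB 3 eng mog cd2q2b cd3q1 pd3 0 true true false .pnn 2 1 3 (qsf 1239849684 370763052 536870912 536870912 3) ndB2q2b ndB3q1 pcB3 Cut.none Ext.none)

def k0_pm_213_b : ∃ t, chk3 f_pm_213_b t 1 1 1 = true :=
  ⟨(l 4), by decide +kernel⟩

theorem c_pm_213_b : CertB 1239849684 370763052 536870912 536870912 536870912 50465866 3 eng mog cd2q2b cd3q1 pd3 true true false .pnn 2 1 3
    ndB2q2b ndB3q1 pcB3 Cut.none Ext.none :=
  certB0 (fam := true) (s1 := true) (s2 := false) (a := 2) (b := 1) (c := 3) (cn := .pnn) (n1 := ndB2q2b) (n2 := ndB3q1) (pc := pcB3) (cut := Cut.none) (xt := Ext.none) (P1 := 1239849684) (W1 := 370763052) (P2 := 536870912) (W2 := 536870912) (P3 := 536870912) (W3 := 50465866) (N0 := 3) (En := eng) (mo := mog) (C1 := cd2q2b) (C2 := cd3q1) (C3 := pd3)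
    rfl k0_pm_213_b

noncomputable def f_pm_303 : ℕ → ℕ → ℕ → ℕ → Bool := onCell 1610612736 536870912 0 536870912 536870912 50465866
    (rowB 3 eng mog cd2q3 cd3q0 pd3 2 true true false .npn 3 0 3 (qsf 1610612736 536870912 0 536870912 3) ndB2q3 ndB3q0 pcB3 Cut.none Ext.none)

def k0_pm_303 : ∃ t, chk3 f_pm_303 t 1 1 1 = true :=
  ⟨(a (a (b (a (b (b (a (l 16363704) (l 16388160)) (l 16399960)) (l 1)) (b (a (l 16442536) (l 16500392)) (l 16489280))) (l 1)) (b (a (b (b (l 16588976) (l 16594360)) (l 16613176)) (b (a (l 16664608) (l 16700648)) (l 4))) (l 4))) (l 4)), by decide +kernel⟩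

theorem c_pm_303 : CertB 1610612736 536870912 0 536870912 536870912 50465866 3 eng mog cd2q3 cd3q0 pd3 true true false .npn 3 0 3
    ndB2q3 ndB3q0 pcB3 Cut.none Ext.none :=
  certB2 (fam := true) (s1 := true) (s2 := false) (a := 3) (b := 0) (c := 3) (cn := .npn) (n1 := ndB2q3) (n2 := ndB3q0) (pc := pcB3) (cut := Cut.none) (xt := Ext.none) (P1 := 1610612736) (W1 := 536870912) (P2 := 0) (W2 := 536870912) (P3 := 536870912) (W3 := 50465866) (N0 := 3) (En := eng) (mo := mog) (C1 := cd2q3) (C2 := cd3q0) (C3 := pd3)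
    rfl (fun _ => rfl) k0_pm_303

noncomputable def f_pm_313 : ℕ → ℕ → ℕ → ℕ → Bool := onCell 1610612736 536870912 536870912 536870912 536870912 50465866
    (rowB 3 eng mog cd2q3 cd3q1 pd3 0 true true false .dn 3 1 3 (qsf 1610612736 536870912 536870912 536870912 3) ndB2q3 ndB3q1 pcB3 Cut.none Ext.none)

def k0_pm_313 : ∃ t, chk3 f_pm_313 t 1 1 1 = true :=
  ⟨(l 4), by decide +kernel⟩

theorem c_pm_313 : CertB 1610612736 536870912 536870912 536870912 536870912 50465866 3 eng mog cd2q3 cd3q1 pd3 true true false .dn 3 1 3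
    ndB2q3 ndB3q1 pcB3 Cut.none Ext.none :=
  certB0 (fam := true) (s1 := true) (s2 := false) (a := 3) (b := 1) (c := 3) (cn := .dn) (n1 := ndB2q3) (n2 := ndB3q1) (pc := pcB3) (cut := Cut.none) (xt := Ext.none) (P1 := 1610612736) (W1 := 536870912) (P2 := 536870912) (W2 := 536870912) (P3 := 536870912) (W3 := 50465866) (N0 := 3) (En := eng) (mo := mog) (C1 := cd2q3) (C2 := cd3q1) (C3 := pd3)
    rfl k0_pm_313

noncomputable def f_mm_001 : ℕ → ℕ → ℕ → ℕ → Bool := onCell 0 536870912 0 536870912 536870912 50465866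
    (rowB 3 eng mog cd2q0 cd3q0 pd1 0 true false false .up 0 0 1 (qsf 0 536870912 0 536870912 1) ndB2q0 ndB3q0 pcB1 Cut.none Ext.none)

def k0_mm_001 : ∃ t, chk3 f_mm_001 t 1 1 1 = true :=
  ⟨(l 4), by decide +kernel⟩

theorem c_mm_001 : CertB 0 536870912 0 536870912 536870912 50465866 3 eng mog cd2q0 cd3q0 pd1 true false false .up 0 0 1
    ndB2q0 ndB3q0 pcB1 Cut.none Ext.none :=
  certB0 (fam := true) (s1 := false) (s2 := false) (a := 0) (b := 0) (c := 1) (cn := .up) (n1 := ndB2q0) (n2 := ndB3q0) (pc := pcB1) (cut := Cut.none) (xt := Ext.none) (P1 := 0) (W1 := 536870912) (P2 := 0) (W2 := 536870912) (P3 := 536870912) (W3 := 50465866) (N0 := 3) (En := eng) (mo := mog) (C1 := cd2q0) (C2 := cd3q0) (C3 := pd1)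
    rfl k0_mm_001

noncomputable def f_mm_011 : ℕ → ℕ → ℕ → ℕ → Bool := onCell 0 536870912 536870912 536870912 536870912 50465866
    (rowB 3 eng mog cd2q0 cd3q1 pd1 0 true false false .pnn 0 1 1 (qsf 0 536870912 536870912 536870912 1) ndB2q0 ndB3q1 pcB1 Cut.none Ext.none)

def k0_mm_011 : ∃ t, chk3 f_mm_011 t 1 1 1 = true :=
  ⟨(l 4), by decide +kernel⟩

theorem c_mm_011 : CertB 0 536870912 536870912 536870912 536870912 50465866 3 eng mog cd2q0 cd3q1 pd1 true false false .pnn 0 1 1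
    ndB2q0 ndB3q1 pcB1 Cut.none Ext.none :=
  certB0 (fam := true) (s1 := false) (s2 := false) (a := 0) (b := 1) (c := 1) (cn := .pnn) (n1 := ndB2q0) (n2 := ndB3q1) (pc := pcB1) (cut := Cut.none) (xt := Ext.none) (P1 := 0) (W1 := 536870912) (P2 := 536870912) (W2 := 536870912) (P3 := 536870912) (W3 := 50465866) (N0 := 3) (En := eng) (mo := mog) (C1 := cd2q0) (C2 := cd3q1) (C3 := pd1)
    rfl k0_mm_011

noncomputable def f_mm_012 : ℕ → ℕ → ℕ → ℕ → Bool := onCell 0 536870912 536870912 536870912 536870912 50465866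
    (rowB 3 eng mog cd2q0 cd3q1 pd2 0 true false false .pnp 0 1 2 (qsf 0 536870912 536870912 536870912 2) ndB2q0 ndB3q1 pcB2 Cut.none Ext.none)

def k0_mm_012 : ∃ t, chk3 f_mm_012 t 1 1 1 = true :=
  ⟨(l 4), by decide +kernel⟩

theorem c_mm_012 : CertB 0 536870912 536870912 536870912 536870912 50465866 3 eng mog cd2q0 cd3q1 pd2 true false false .pnp 0 1 2
    ndB2q0 ndB3q1 pcB2 Cut.none Ext.none :=
  certB0 (fam := true) (s1 := false) (s2 := false) (a := 0) (b := 1) (c := 2) (cn := .pnp) (n1 := ndB2q0) (n2 := ndB3q1) (pc := pcB2) (cut := Cut.none) (xt := Ext.none) (P1 := 0) (W1 := 536870912) (P2 := 536870912) (W2 := 536870912) (P3 := 536870912) (W3 := 50465866) (N0 := 3) (En := eng) (mo := mog) (C1 := cd2q0) (C2 := cd3q1) (C3 := pd2)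
    rfl k0_mm_012

noncomputable def f_mm_022_a : ℕ → ℕ → ℕ → ℕ → Bool := onCell 0 536870912 0 536870912 536870912 50465866
    (rowB 3 eng mog cd2q0 cd3q2a pd2 0 true false false .pp 0 2 2 (qsf 0 536870912 0 536870912 2) ndB2q0 ndB3q2a pcB2 Cut.none Ext.none)

def k0_mm_022_a : ∃ t, chk3 f_mm_022_a t 1 1 1 = true :=
  ⟨(l 5), by decide +kernel⟩

theorem c_mm_022_a : CertB 0 536870912 0 536870912 536870912 50465866 3 eng mog cd2q0 cd3q2a pd2 true false false .pp 0 2 2
    ndB2q0 ndB3q2a pcB2 Cut.none Ext.none :=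
  certB0 (fam := true) (s1 := false) (s2 := false) (a := 0) (b := 2) (c := 2) (cn := .pp) (n1 := ndB2q0) (n2 := ndB3q2a) (pc := pcB2) (cut := Cut.none) (xt := Ext.none) (P1 := 0) (W1 := 536870912) (P2 := 0) (W2 := 536870912) (P3 := 536870912) (W3 := 50465866) (N0 := 3) (En := eng) (mo := mog) (C1 := cd2q0) (C2 := cd3q2a) (C3 := pd2)
    rfl k0_mm_022_a

noncomputable def f_mm_022_b : ℕ → ℕ → ℕ → ℕ → Bool := onCell 0 536870912 1239849684 370763052 536870912 50465866
    (rowB 3 eng mog cd2q0 cd3q2b pd2 0 true false false .pp 0 2 2 (qsf 0 536870912 1239849684 370763052 2) ndB2q0 ndB3q2b pcB2 Cut.none Ext.none)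

def k0_mm_022_b : ∃ t, chk3 f_mm_022_b t 1 1 1 = true :=
  ⟨(l 5), by decide +kernel⟩

theorem c_mm_022_b : CertB 0 536870912 1239849684 370763052 536870912 50465866 3 eng mog cd2q0 cd3q2b pd2 true false false .pp 0 2 2
    ndB2q0 ndB3q2b pcB2 Cut.none Ext.none :=
  certB0 (fam := true) (s1 := false) (s2 := false) (a := 0) (b := 2) (c := 2) (cn := .pp) (n1 := ndB2q0) (n2 := ndB3q2b) (pc := pcB2) (cut := Cut.none) (xt := Ext.none) (P1 := 0) (W1 := 536870912) (P2 := 1239849684) (W2 := 370763052) (P3 := 536870912) (W3 := 50465866) (N0 := 3) (En := eng) (mo := mog) (C1 := cd2q0) (C2 := cd3q2b) (C3 := pd2)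
    rfl k0_mm_022_b

noncomputable def f_mm_023_a : ℕ → ℕ → ℕ → ℕ → Bool := onCell 0 536870912 0 536870912 536870912 50465866
    (rowB 3 eng mog cd2q0 cd3q2a pd3 0 true false false .up 0 2 3 (qsf 0 536870912 0 536870912 3) ndB2q0 ndB3q2a pcB3 Cut.none Ext.none)

def k0_mm_023_a : ∃ t, chk3 f_mm_023_a t 1 1 1 = true :=
  ⟨(l 5), by decide +kernel⟩

theorem c_mm_023_a : CertB 0 536870912 0 536870912 536870912 50465866 3 eng mog cd2q0 cd3q2a pd3 true false false .up 0 2 3
    ndB2q0 ndB3q2a pcB3 Cut.none Ext.none :=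
  certB0 (fam := true) (s1 := false) (s2 := false) (a := 0) (b := 2) (c := 3) (cn := .up) (n1 := ndB2q0) (n2 := ndB3q2a) (pc := pcB3) (cut := Cut.none) (xt := Ext.none) (P1 := 0) (W1 := 536870912) (P2 := 0) (W2 := 536870912) (P3 := 536870912) (W3 := 50465866) (N0 := 3) (En := eng) (mo := mog) (C1 := cd2q0) (C2 := cd3q2a) (C3 := pd3)
    rfl k0_mm_023_a

noncomputable def f_mm_023_b : ℕ → ℕ → ℕ → ℕ → Bool := onCell 0 536870912 1239849684 370763052 536870912 50465866
    (rowB 3 eng mog cd2q0 cd3q2b pd3 0 true false false .up 0 2 3 (qsf 0 536870912 1239849684 370763052 3) ndB2q0 ndB3q2b pcB3 Cut.none Ext.none)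

def k0_mm_023_b : ∃ t, chk3 f_mm_023_b t 1 1 1 = true :=
  ⟨(l 5), by decide +kernel⟩

theorem c_mm_023_b : CertB 0 536870912 1239849684 370763052 536870912 50465866 3 eng mog cd2q0 cd3q2b pd3 true false false .up 0 2 3
    ndB2q0 ndB3q2b pcB3 Cut.none Ext.none :=
  certB0 (fam := true) (s1 := false) (s2 := false) (a := 0) (b := 2) (c := 3) (cn := .up) (n1 := ndB2q0) (n2 := ndB3q2b) (pc := pcB3) (cut := Cut.none) (xt := Ext.none) (P1 := 0) (W1 := 536870912) (P2 := 1239849684) (W2 := 370763052) (P3 := 536870912) (W3 := 50465866) (N0 := 3) (En := eng) (mo := mog) (C1 := cd2q0) (C2 := cd3q2b) (C3 := pd3)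
    rfl k0_mm_023_b

noncomputable def f_mm_033 : ℕ → ℕ → ℕ → ℕ → Bool := onCell 0 536870912 1610612736 536870912 536870912 50465866
    (rowB 3 eng mog cd2q0 cd3q3 pd3 0 true false false .pnn 0 3 3 (qsf 0 536870912 1610612736 536870912 3) ndB2q0 ndB3q3 pcB3 Cut.none Ext.none)

def k0_mm_033 : ∃ t, chk3 f_mm_033 t 1 1 1 = true :=
  ⟨(l 4), by decide +kernel⟩

theorem c_mm_033 : CertB 0 536870912 1610612736 536870912 536870912 50465866 3 eng mog cd2q0 cd3q3 pd3 true false false .pnn 0 3 3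
    ndB2q0 ndB3q3 pcB3 Cut.none Ext.none :=
  certB0 (fam := true) (s1 := false) (s2 := false) (a := 0) (b := 3) (c := 3) (cn := .pnn) (n1 := ndB2q0) (n2 := ndB3q3) (pc := pcB3) (cut := Cut.none) (xt := Ext.none) (P1 := 0) (W1 := 536870912) (P2 := 1610612736) (W2 := 536870912) (P3 := 536870912) (W3 := 50465866) (N0 := 3) (En := eng) (mo := mog) (C1 := cd2q0) (C2 := cd3q3) (C3 := pd3)
    rfl k0_mm_033

noncomputable def f_mm_101 : ℕ → ℕ → ℕ → ℕ → Bool := onCell 536870912 536870912 0 536870912 536870912 50465866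
    (rowB 3 eng mog cd2q1 cd3q0 pd1 0 true false false .npn 1 0 1 (qsf 536870912 536870912 0 536870912 1) ndB2q1 ndB3q0 pcB1 Cut.none Ext.none)

def k0_mm_101 : ∃ t, chk3 f_mm_101 t 1 1 1 = true :=
  ⟨(l 4), by decide +kernel⟩

theorem c_mm_101 : CertB 536870912 536870912 0 536870912 536870912 50465866 3 eng mog cd2q1 cd3q0 pd1 true false false .npn 1 0 1
    ndB2q1 ndB3q0 pcB1 Cut.none Ext.none :=
  certB0 (fam := true) (s1 := false) (s2 := false) (a := 1) (b := 0) (c := 1) (cn := .npn) (n1 := ndB2q1) (n2 := ndB3q0) (pc := pcB1) (cut := Cut.none) (xt := Ext.none) (P1 := 536870912) (W1 := 536870912) (P2 := 0) (W2 := 536870912) (P3 := 536870912) (W3 := 50465866) (N0 := 3) (En := eng) (mo := mog) (C1 := cd2q1) (C2 := cd3q0) (C3 := pd1)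
    rfl k0_mm_101

noncomputable def f_mm_102 : ℕ → ℕ → ℕ → ℕ → Bool := onCell 536870912 536870912 0 536870912 536870912 50465866
    (rowB 3 eng mog cd2q1 cd3q0 pd2 0 true false false .npp 1 0 2 (qsf 536870912 536870912 0 536870912 2) ndB2q1 ndB3q0 pcB2 Cut.none Ext.none)

def k0_mm_102 : ∃ t, chk3 f_mm_102 t 1 1 1 = true :=
  ⟨(l 4), by decide +kernel⟩

theorem c_mm_102 : CertB 536870912 536870912 0 536870912 536870912 50465866 3 eng mog cd2q1 cd3q0 pd2 true false false .npp 1 0 2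
    ndB2q1 ndB3q0 pcB2 Cut.none Ext.none :=
  certB0 (fam := true) (s1 := false) (s2 := false) (a := 1) (b := 0) (c := 2) (cn := .npp) (n1 := ndB2q1) (n2 := ndB3q0) (pc := pcB2) (cut := Cut.none) (xt := Ext.none) (P1 := 536870912) (W1 := 536870912) (P2 := 0) (W2 := 536870912) (P3 := 536870912) (W3 := 50465866) (N0 := 3) (En := eng) (mo := mog) (C1 := cd2q1) (C2 := cd3q0) (C3 := pd2)
    rfl k0_mm_102

noncomputable def f_mm_112 : ℕ → ℕ → ℕ → ℕ → Bool := onCell 536870912 536870912 536870912 536870912 536870912 50465866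
    (rowB 3 eng mog cd2q1 cd3q1 pd2 0 true false false .dn 1 1 2 (qsf 536870912 536870912 536870912 536870912 2) ndB2q1 ndB3q1 pcB2 Cut.none Ext.none)

def k0_mm_112 : ∃ t, chk3 f_mm_112 t 1 1 1 = true :=
  ⟨(l 4), by decide +kernel⟩

theorem c_mm_112 : CertB 536870912 536870912 536870912 536870912 536870912 50465866 3 eng mog cd2q1 cd3q1 pd2 true false false .dn 1 1 2
    ndB2q1 ndB3q1 pcB2 Cut.none Ext.none :=
  certB0 (fam := true) (s1 := false) (s2 := false) (a := 1) (b := 1) (c := 2) (cn := .dn) (n1 := ndB2q1) (n2 := ndB3q1) (pc := pcB2) (cut := Cut.none) (xt := Ext.none) (P1 := 536870912) (W1 := 536870912) (P2 := 536870912) (W2 := 536870912) (P3 := 536870912) (W3 := 50465866) (N0 := 3) (En := eng) (mo := mog) (C1 := cd2q1) (C2 := cd3q1) (C3 := pd2)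
    rfl k0_mm_112

noncomputable def f_mm_113 : ℕ → ℕ → ℕ → ℕ → Bool := onCell 536870912 536870912 536870912 536870912 536870912 50465866
    (rowB 3 eng mog cd2q1 cd3q1 pd3 0 true false false .nn 1 1 3 (qsf 536870912 536870912 536870912 536870912 3) ndB2q1 ndB3q1 pcB3 Cut.none Ext.none)

def k0_mm_113 : ∃ t, chk3 f_mm_113 t 1 1 1 = true :=
  ⟨(l 4), by decide +kernel⟩

theorem c_mm_113 : CertB 536870912 536870912 536870912 536870912 536870912 50465866 3 eng mog cd2q1 cd3q1 pd3 true false false .nn 1 1 3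
    ndB2q1 ndB3q1 pcB3 Cut.none Ext.none :=
  certB0 (fam := true) (s1 := false) (s2 := false) (a := 1) (b := 1) (c := 3) (cn := .nn) (n1 := ndB2q1) (n2 := ndB3q1) (pc := pcB3) (cut := Cut.none) (xt := Ext.none) (P1 := 536870912) (W1 := 536870912) (P2 := 536870912) (W2 := 536870912) (P3 := 536870912) (W3 := 50465866) (N0 := 3) (En := eng) (mo := mog) (C1 := cd2q1) (C2 := cd3q1) (C3 := pd3)
    rfl k0_mm_113

noncomputable def f_mm_123_a : ℕ → ℕ → ℕ → ℕ → Bool := onCell 536870912 536870912 0 536870912 536870912 50465866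
    (rowB 3 eng mog cd2q1 cd3q2a pd3 0 true false false .npn 1 2 3 (qsf 536870912 536870912 0 536870912 3) ndB2q1 ndB3q2a pcB3 Cut.none Ext.none)

def k0_mm_123_a : ∃ t, chk3 f_mm_123_a t 1 1 1 = true :=
  ⟨(l 4), by decide +kernel⟩

theorem c_mm_123_a : CertB 536870912 536870912 0 536870912 536870912 50465866 3 eng mog cd2q1 cd3q2a pd3 true false false .npn 1 2 3
    ndB2q1 ndB3q2a pcB3 Cut.none Ext.none :=
  certB0 (fam := true) (s1 := false) (s2 := false) (a := 1) (b := 2) (c := 3) (cn := .npn) (n1 := ndB2q1) (n2 := ndB3q2a) (pc := pcB3) (cut := Cut.none) (xt := Ext.none) (P1 := 536870912) (W1 := 536870912) (P2 := 0) (W2 := 536870912) (P3 := 536870912) (W3 := 50465866) (N0 := 3) (En := eng) (mo := mog) (C1 := cd2q1) (C2 := cd3q2a) (C3 := pd3)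
    rfl k0_mm_123_a

noncomputable def f_mm_123_b : ℕ → ℕ → ℕ → ℕ → Bool := onCell 536870912 536870912 1239849684 370763052 536870912 50465866
    (rowB 3 eng mog cd2q1 cd3q2b pd3 0 true false false .npn 1 2 3 (qsf 536870912 536870912 1239849684 370763052 3) ndB2q1 ndB3q2b pcB3 Cut.none Ext.none)

def k0_mm_123_b : ∃ t, chk3 f_mm_123_b t 1 1 1 = true :=
  ⟨(l 4), by decide +kernel⟩

theorem c_mm_123_b : CertB 536870912 536870912 1239849684 370763052 536870912 50465866 3 eng mog cd2q1 cd3q2b pd3 true false false .npn 1 2 3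
    ndB2q1 ndB3q2b pcB3 Cut.none Ext.none :=
  certB0 (fam := true) (s1 := false) (s2 := false) (a := 1) (b := 2) (c := 3) (cn := .npn) (n1 := ndB2q1) (n2 := ndB3q2b) (pc := pcB3) (cut := Cut.none) (xt := Ext.none) (P1 := 536870912) (W1 := 536870912) (P2 := 1239849684) (W2 := 370763052) (P3 := 536870912) (W3 := 50465866) (N0 := 3) (En := eng) (mo := mog) (C1 := cd2q1) (C2 := cd3q2b) (C3 := pd3)
    rfl k0_mm_123_b

noncomputable def f_mm_133 : ℕ → ℕ → ℕ → ℕ → Bool := onCell 536870912 536870912 1610612736 536870912 536870912 50465866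
    (rowB 3 eng mog cd2q1 cd3q3 pd3 0 true false false .dn 1 3 3 (qsf 536870912 536870912 1610612736 536870912 3) ndB2q1 ndB3q3 pcB3 Cut.none Ext.none)

def k0_mm_133 : ∃ t, chk3 f_mm_133 t 1 1 1 = true :=
  ⟨(l 4), by decide +kernel⟩

theorem c_mm_133 : CertB 536870912 536870912 1610612736 536870912 536870912 50465866 3 eng mog cd2q1 cd3q3 pd3 true false false .dn 1 3 3
    ndB2q1 ndB3q3 pcB3 Cut.none Ext.none :=
  certB0 (fam := true) (s1 := false) (s2 := false) (a := 1) (b := 3) (c := 3) (cn := .dn) (n1 := ndB2q1) (n2 := ndB3q3) (pc := pcB3) (cut := Cut.none) (xt := Ext.none) (P1 := 536870912) (W1 := 536870912) (P2 := 1610612736) (W2 := 536870912) (P3 := 536870912) (W3 := 50465866) (N0 := 3) (En := eng) (mo := mog) (C1 := cd2q1) (C2 := cd3q3) (C3 := pd3)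
    rfl k0_mm_133

noncomputable def cut_mm_202_a : Cut := Cut.of [[⟨0, 1, 0, 67108864⟩, ⟨1, 0, 0, 67108864⟩, ⟨2, 1, 0, 67108864⟩]]

noncomputable def f_mm_202_a : ℕ → ℕ → ℕ → ℕ → Bool := onCell 0 536870912 0 536870912 536870912 50465866
    (rowB 3 eng mog cd2q2a cd3q0 pd2 0 true false false .pp 2 0 2 (qsf 0 536870912 0 536870912 2) ndB2q2a ndB3q0 pcB2 cut_mm_202_a Ext.none)

def k0_mm_202_a : ∃ t, chk3 f_mm_202_a t 1 1 1 = true :=
  ⟨(b (a (b (b (a (b (b (a (l 16461728) (l 16483928)) (a (l 16478912) (l 16491888))) (a (l 16504960) (l 16519848))) (b (b (a (b (l 16490544) (l 16562752)) (a (l 16514888) (l 16531048))) (a (a (l 16570952) (l 16520384)) (b (l 16579480) (l 16547584)))) (a (b (l 16638720) (l 16554288)) (b (b (l 16599824) (l 16589288)) (l 16688712))))) (a (b (a (l 16546048) (l 16562608)) (l 16597664)) (b (a (l 16648520) (l 16717832)) (l 4)))) (b (a (b (l 16636584) (l 4)) (l 4)) (l 4))) (b (a (b (b (b (a (b (a (l 16545168) (l 16566704))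 (l 16575912)) (b (a (l 16612096) (b (l 16637888) (l 16620776))) (a (l 16600304) (l 16627568)))) (a (a (l 16569296) (l 16601200)) (a (b (l 16609912) (l 16619872)) (l 16635072)))) (a (b (b (l 16616528) (l 16626632)) (a (l 16609904) (l 4))) (b (a (l 16634120) (l 4)) (l 4)))) (l 4)) (b (b (b (a (b (a (a (l 16662296) (b (l 16676520) (l 16659304))) (a (b (l 6) (l 16676184)) (l 6))) (a (l 16668400) (a (l 16682576) (l 16700048)))) (l 6)) (a (b (a (l 16666904) (l 16699872)) (l 4)) (l 4))) (l 4)) (l 4))) (l 4))) (l 4)), by decide +kernel⟩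

theorem c_mm_202_a : CertB 0 536870912 0 536870912 536870912 50465866 3 eng mog cd2q2a cd3q0 pd2 true false false .pp 2 0 2
    ndB2q2a ndB3q0 pcB2 cut_mm_202_a Ext.none :=
  certB0 (fam := true) (s1 := false) (s2 := false) (a := 2) (b := 0) (c := 2) (cn := .pp) (n1 := ndB2q2a) (n2 := ndB3q0) (pc := pcB2) (cut := cut_mm_202_a) (xt := Ext.none) (P1 := 0) (W1 := 536870912) (P2 := 0) (W2 := 536870912) (P3 := 536870912) (W3 := 50465866) (N0 := 3) (En := eng) (mo := mog) (C1 := cd2q2a) (C2 := cd3q0) (C3 := pd2)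
    rfl k0_mm_202_a

noncomputable def cut_mm_202_b : Cut := Cut.of [[⟨0, 1, 0, 67108864⟩, ⟨1, 0, 0, 67108864⟩, ⟨2, 1, 0, 67108864⟩]]

noncomputable def f_mm_202_b : ℕ → ℕ → ℕ → ℕ → Bool := onCell 1239849684 370763052 0 536870912 536870912 50465866
    (rowB 3 eng mog cd2q2b cd3q0 pd2 0 true false false .pp 2 0 2 (qsf 1239849684 370763052 0 536870912 2) ndB2q2b ndB3q0 pcB2 cut_mm_202_b Ext.none)

def k0_mm_202_b : ∃ t, chk3 f_mm_202_b t 1 1 1 = true :=
  ⟨(b (a (b (a (b (b (a (b (a (l 16478760) (l 16393272)) (l 16427832)) (b (l 16335776) (l 16344304))) (a (l 16454456) (l 16356288))) (a (b (l 16496112) (l 16542952)) (b (l 16400000) (l 16444240)))) (b (b (a (l 16395488) (b (l 16202680) (l 16212320))) (a (l 16286592) (l 16226192))) (a (b (l 16306696) (l 16339960)) (b (l 16255384) (l 4))))) (a (b (a (b (l 16583904) (l 4)) (l 4)) (l 4)) (l 4))) (b (a (b (b (a (l 16213968) (l 16180752)) (a (l 16171744) (l 16127808))) (l 4)) (b (b (a (l 16218112) (l 16077440))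 (l 4)) (l 4))) (l 4))) (l 4)), by decide +kernel⟩

theorem c_mm_202_b : CertB 1239849684 370763052 0 536870912 536870912 50465866 3 eng mog cd2q2b cd3q0 pd2 true false false .pp 2 0 2
    ndB2q2b ndB3q0 pcB2 cut_mm_202_b Ext.none :=
  certB0 (fam := true) (s1 := false) (s2 := false) (a := 2) (b := 0) (c := 2) (cn := .pp) (n1 := ndB2q2b) (n2 := ndB3q0) (pc := pcB2) (cut := cut_mm_202_b) (xt := Ext.none) (P1 := 1239849684) (W1 := 370763052) (P2 := 0) (W2 := 536870912) (P3 := 536870912) (W3 := 50465866) (N0 := 3) (En := eng) (mo := mog) (C1 := cd2q2b) (C2 := cd3q0) (C3 := pd2)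
    rfl k0_mm_202_b

noncomputable def f_mm_203_a : ℕ → ℕ → ℕ → ℕ → Bool := onCell 0 536870912 1610612736 536870912 536870912 50465866
    (rowB 3 eng mog cd2q2a cd3q0 pd3 1 true false false .up 2 0 3 (qsf 0 536870912 0 536870912 3) ndB2q2a ndB3q0 pcB3 Cut.none Ext.none)

def k0_mm_203_a : ∃ t, chk3 f_mm_203_a t 1 1 1 = true :=
  ⟨(l 4), by decide +kernel⟩

theorem c_mm_203_a : CertB 0 536870912 0 536870912 536870912 50465866 3 eng mog cd2q2a cd3q0 pd3 true false false .up 2 0 3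
    ndB2q2a ndB3q0 pcB3 Cut.none Ext.none :=
  certB1 (fam := true) (s1 := false) (s2 := false) (a := 2) (b := 0) (c := 3) (cn := .up) (n1 := ndB2q2a) (n2 := ndB3q0) (pc := pcB3) (cut := Cut.none) (xt := Ext.none) (P1 := 0) (W1 := 536870912) (P2 := 0) (W2 := 536870912) (P3 := 536870912) (W3 := 50465866) (N0 := 3) (En := eng) (mo := mog) (C1 := cd2q2a) (C2 := cd3q0) (C3 := pd3)
    rfl (fun _ => rfl) k0_mm_203_a

noncomputable def f_mm_203_b : ℕ → ℕ → ℕ → ℕ → Bool := onCell 1239849684 370763052 1610612736 536870912 536870912 50465866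
    (rowB 3 eng mog cd2q2b cd3q0 pd3 1 true false false .up 2 0 3 (qsf 1239849684 370763052 0 536870912 3) ndB2q2b ndB3q0 pcB3 Cut.none Ext.none)

def k0_mm_203_b : ∃ t, chk3 f_mm_203_b t 1 1 1 = true :=
  ⟨(b (b (a (l 4) (b (l 4) (l 4))) (l 4)) (l 4)), by decide +kernel⟩

theorem c_mm_203_b : CertB 1239849684 370763052 0 536870912 536870912 50465866 3 eng mog cd2q2b cd3q0 pd3 true false false .up 2 0 3
    ndB2q2b ndB3q0 pcB3 Cut.none Ext.none :=
  certB1 (fam := true) (s1 := false) (s2 := false) (a := 2) (b := 0) (c := 3) (cn := .up) (n1 := ndB2q2b) (n2 := ndB3q0) (pc := pcB3) (cut := Cut.none) (xt := Ext.none) (P1 := 1239849684) (W1 := 370763052) (P2 := 0) (W2 := 536870912) (P3 := 536870912) (W3 := 50465866) (N0 := 3) (En := eng) (mo := mog) (C1 := cd2q2b) (C2 := cd3q0) (C3 := pd3)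
    rfl (fun _ => rfl) k0_mm_203_b

noncomputable def f_mm_213_a : ℕ → ℕ → ℕ → ℕ → Bool := onCell 0 536870912 536870912 536870912 536870912 50465866
    (rowB 3 eng mog cd2q2a cd3q1 pd3 0 true false false .pnn 2 1 3 (qsf 0 536870912 536870912 536870912 3) ndB2q2a ndB3q1 pcB3 Cut.none Ext.none)

def k0_mm_213_a : ∃ t, chk3 f_mm_213_a t 1 1 1 = true :=
  ⟨(l 4), by decide +kernel⟩

theorem c_mm_213_a : CertB 0 536870912 536870912 536870912 536870912 50465866 3 eng mog cd2q2a cd3q1 pd3 true false false .pnn 2 1 3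
    ndB2q2a ndB3q1 pcB3 Cut.none Ext.none :=
  certB0 (fam := true) (s1 := false) (s2 := false) (a := 2) (b := 1) (c := 3) (cn := .pnn) (n1 := ndB2q2a) (n2 := ndB3q1) (pc := pcB3) (cut := Cut.none) (xt := Ext.none) (P1 := 0) (W1 := 536870912) (P2 := 536870912) (W2 := 536870912) (P3 := 536870912) (W3 := 50465866) (N0 := 3) (En := eng) (mo := mog) (C1 := cd2q2a) (C2 := cd3q1) (C3 := pd3)
    rfl k0_mm_213_a

noncomputable def f_mm_213_b : ℕ → ℕ → ℕ → ℕ → Bool := onCell 1239849684 370763052 536870912 536870912 536870912 50465866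
    (rowB 3 eng mog cd2q2b cd3q1 pd3 0 true false false .pnn 2 1 3 (qsf 1239849684 370763052 536870912 536870912 3) ndB2q2b ndB3q1 pcB3 Cut.none Ext.none)

def k0_mm_213_b : ∃ t, chk3 f_mm_213_b t 1 1 1 = true :=
  ⟨(l 4), by decide +kernel⟩

theorem c_mm_213_b : CertB 1239849684 370763052 536870912 536870912 536870912 50465866 3 eng mog cd2q2b cd3q1 pd3 true false false .pnn 2 1 3
    ndB2q2b ndB3q1 pcB3 Cut.none Ext.none :=
  certB0 (fam := true) (s1 := false) (s2 := false) (a := 2) (b := 1) (c := 3) (cn := .pnn) (n1 := ndB2q2b) (n2 := ndB3q1) (pc := pcB3) (cut := Cut.none) (xt := Ext.none) (P1 := 1239849684) (W1 := 370763052) (P2 := 536870912) (W2 := 536870912) (P3 := 536870912) (W3 := 50465866) (N0 := 3) (En := eng) (mo := mog) (C1 := cd2q2b) (C2 := cd3q1) (C3 := pd3)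
    rfl k0_mm_213_b

noncomputable def f_mm_303 : ℕ → ℕ → ℕ → ℕ → Bool := onCell 1610612736 536870912 0 536870912 536870912 50465866
    (rowB 3 eng mog cd2q3 cd3q0 pd3 0 true false false .npn 3 0 3 (qsf 1610612736 536870912 0 536870912 3) ndB2q3 ndB3q0 pcB3 Cut.none Ext.none)

def k0_mm_303 : ∃ t, chk3 f_mm_303 t 1 1 1 = true :=
  ⟨(a (b (b (a (l 4) (l 4)) (l 4)) (l 4)) (l 4)), by decide +kernel⟩

theorem c_mm_303 : CertB 1610612736 536870912 0 536870912 536870912 50465866 3 eng mog cd2q3 cd3q0 pd3 true false false .npn 3 0 3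
    ndB2q3 ndB3q0 pcB3 Cut.none Ext.none :=
  certB0 (fam := true) (s1 := false) (s2 := false) (a := 3) (b := 0) (c := 3) (cn := .npn) (n1 := ndB2q3) (n2 := ndB3q0) (pc := pcB3) (cut := Cut.none) (xt := Ext.none) (P1 := 1610612736) (W1 := 536870912) (P2 := 0) (W2 := 536870912) (P3 := 536870912) (W3 := 50465866) (N0 := 3) (En := eng) (mo := mog) (C1 := cd2q3) (C2 := cd3q0) (C3 := pd3)
    rfl k0_mm_303

noncomputable def f_mm_313 : ℕ → ℕ → ℕ → ℕ → Bool := onCell 1610612736 536870912 536870912 536870912 536870912 50465866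
    (rowB 3 eng mog cd2q3 cd3q1 pd3 0 true false false .dn 3 1 3 (qsf 1610612736 536870912 536870912 536870912 3) ndB2q3 ndB3q1 pcB3 Cut.none Ext.none)

def k0_mm_313 : ∃ t, chk3 f_mm_313 t 1 1 1 = true :=
  ⟨(l 4), by decide +kernel⟩

theorem c_mm_313 : CertB 1610612736 536870912 536870912 536870912 536870912 50465866 3 eng mog cd2q3 cd3q1 pd3 true false false .dn 3 1 3
    ndB2q3 ndB3q1 pcB3 Cut.none Ext.none :=
  certB0 (fam := true) (s1 := false) (s2 := false) (a := 3) (b := 1) (c := 3) (cn := .dn) (n1 := ndB2q3) (n2 := ndB3q1) (pc := pcB3) (cut := Cut.none) (xt := Ext.none) (P1 := 1610612736) (W1 := 536870912) (P2 := 536870912) (W2 := 536870912) (P3 := 536870912) (W3 := 50465866) (N0 := 3) (En := eng) (mo := mog) (C1 := cd2q3) (C2 := cd3q1) (C3 := pd3)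
    rfl k0_mm_313

end Pool.Agent.Strip051.G.I5000_5470.Tab.C.BA23

namespace Pool.Agent.Strip051.G.I5000_5470.Tab.C.BA24

open Pool.Agent.Strip051.PB Pool.Agent.Strip051.PB.T
open Pool.Agent.Strip051.G.I5000_5470.Tab

noncomputable def f_pp_001 : ℕ → ℕ → ℕ → ℕ → Bool := onCell 0 536870912 0 536870912 536870912 50465866
    (rowB 3 eng mog cd2q0 cd4q0 pd1 0 true true true .up 0 0 1 (qsf 0 536870912 0 536870912 1) ndB2q0 ndB4q0 pcB1 Cut.none Ext.none)

def k0_pp_001 : ∃ t, chk3 f_pp_001 t 1 1 1 = true :=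
  ⟨(l 4), by decide +kernel⟩

theorem c_pp_001 : CertB 0 536870912 0 536870912 536870912 50465866 3 eng mog cd2q0 cd4q0 pd1 true true true .up 0 0 1
    ndB2q0 ndB4q0 pcB1 Cut.none Ext.none :=
  certB0 (fam := true) (s1 := true) (s2 := true) (a := 0) (b := 0) (c := 1) (cn := .up) (n1 := ndB2q0) (n2 := ndB4q0) (pc := pcB1) (cut := Cut.none) (xt := Ext.none) (P1 := 0) (W1 := 536870912) (P2 := 0) (W2 := 536870912) (P3 := 536870912) (W3 := 50465866) (N0 := 3) (En := eng) (mo := mog) (C1 := cd2q0) (C2 := cd4q0) (C3 := pd1)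
    rfl k0_pp_001

noncomputable def f_pp_011 : ℕ → ℕ → ℕ → ℕ → Bool := onCell 0 536870912 536870912 536870912 536870912 50465866
    (rowB 3 eng mog cd2q0 cd4q1 pd1 0 true true true .pnn 0 1 1 (qsf 0 536870912 536870912 536870912 1) ndB2q0 ndB4q1 pcB1 Cut.none Ext.none)

def k0_pp_011 : ∃ t, chk3 f_pp_011 t 1 1 1 = true :=
  ⟨(l 4), by decide +kernel⟩

theorem c_pp_011 : CertB 0 536870912 536870912 536870912 536870912 50465866 3 eng mog cd2q0 cd4q1 pd1 true true true .pnn 0 1 1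
    ndB2q0 ndB4q1 pcB1 Cut.none Ext.none :=
  certB0 (fam := true) (s1 := true) (s2 := true) (a := 0) (b := 1) (c := 1) (cn := .pnn) (n1 := ndB2q0) (n2 := ndB4q1) (pc := pcB1) (cut := Cut.none) (xt := Ext.none) (P1 := 0) (W1 := 536870912) (P2 := 536870912) (W2 := 536870912) (P3 := 536870912) (W3 := 50465866) (N0 := 3) (En := eng) (mo := mog) (C1 := cd2q0) (C2 := cd4q1) (C3 := pd1)
    rfl k0_pp_011

noncomputable def f_pp_012 : ℕ → ℕ → ℕ → ℕ → Bool := onCell 0 536870912 536870912 536870912 536870912 50465866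
    (rowB 3 eng mog cd2q0 cd4q1 pd2 0 true true true .pnp 0 1 2 (qsf 0 536870912 536870912 536870912 2) ndB2q0 ndB4q1 pcB2 Cut.none Ext.none)

def k0_pp_012 : ∃ t, chk3 f_pp_012 t 1 1 1 = true :=
  ⟨(l 4), by decide +kernel⟩

theorem c_pp_012 : CertB 0 536870912 536870912 536870912 536870912 50465866 3 eng mog cd2q0 cd4q1 pd2 true true true .pnp 0 1 2
    ndB2q0 ndB4q1 pcB2 Cut.none Ext.none :=
  certB0 (fam := true) (s1 := true) (s2 := true) (a := 0) (b := 1) (c := 2) (cn := .pnp) (n1 := ndB2q0) (n2 := ndB4q1) (pc := pcB2) (cut := Cut.none) (xt := Ext.none) (P1 := 0) (W1 := 536870912) (P2 := 536870912) (W2 := 536870912) (P3 := 536870912) (W3 := 50465866) (N0 := 3) (En := eng) (mo := mog) (C1 := cd2q0) (C2 := cd4q1) (C3 := pd2)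
    rfl k0_pp_012

noncomputable def f_pp_022 : ℕ → ℕ → ℕ → ℕ → Bool := onCell 0 536870912 1073741824 536870912 536870912 50465866
    (rowB 3 eng mog cd2q0 cd4q2 pd2 0 true true true .pp 0 2 2 (qsf 0 536870912 1073741824 536870912 2) ndB2q0 ndB4q2 pcB2 Cut.none Ext.none)

def k0_pp_022 : ∃ t, chk3 f_pp_022 t 1 1 1 = true :=
  ⟨(l 4), by decide +kernel⟩

theorem c_pp_022 : CertB 0 536870912 1073741824 536870912 536870912 50465866 3 eng mog cd2q0 cd4q2 pd2 true true true .pp 0 2 2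
    ndB2q0 ndB4q2 pcB2 Cut.none Ext.none :=
  certB0 (fam := true) (s1 := true) (s2 := true) (a := 0) (b := 2) (c := 2) (cn := .pp) (n1 := ndB2q0) (n2 := ndB4q2) (pc := pcB2) (cut := Cut.none) (xt := Ext.none) (P1 := 0) (W1 := 536870912) (P2 := 1073741824) (W2 := 536870912) (P3 := 536870912) (W3 := 50465866) (N0 := 3) (En := eng) (mo := mog) (C1 := cd2q0) (C2 := cd4q2) (C3 := pd2)
    rfl k0_pp_022

noncomputable def f_pp_023 : ℕ → ℕ → ℕ → ℕ → Bool := onCell 0 536870912 1073741824 536870912 536870912 50465866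
    (rowB 3 eng mog cd2q0 cd4q2 pd3 0 true true true .up 0 2 3 (qsf 0 536870912 1073741824 536870912 3) ndB2q0 ndB4q2 pcB3 Cut.none Ext.none)

def k0_pp_023 : ∃ t, chk3 f_pp_023 t 1 1 1 = true :=
  ⟨(l 4), by decide +kernel⟩

theorem c_pp_023 : CertB 0 536870912 1073741824 536870912 536870912 50465866 3 eng mog cd2q0 cd4q2 pd3 true true true .up 0 2 3
    ndB2q0 ndB4q2 pcB3 Cut.none Ext.none :=
  certB0 (fam := true) (s1 := true) (s2 := true) (a := 0) (b := 2) (c := 3) (cn := .up) (n1 := ndB2q0) (n2 := ndB4q2) (pc := pcB3) (cut := Cut.none) (xt := Ext.none) (P1 := 0) (W1 := 536870912) (P2 := 1073741824) (W2 := 536870912) (P3 := 536870912) (W3 := 50465866) (N0 := 3) (En := eng) (mo := mog) (C1 := cd2q0) (C2 := cd4q2) (C3 := pd3)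
    rfl k0_pp_023

noncomputable def f_pp_033 : ℕ → ℕ → ℕ → ℕ → Bool := onCell 0 536870912 0 1230186008 536870912 50465866
    (rowB 3 eng mog cd2q0 cd4q3 pd3 0 true true true .pnn 0 3 3 (qsf 0 536870912 0 1230186008 3) ndB2q0 ndB4q3 pcB3 Cut.none Ext.none)

def k0_pp_033 : ∃ t, chk3 f_pp_033 t 1 1 1 = true :=
  ⟨(b (l 4) (l 4)), by decide +kernel⟩

theorem c_pp_033 : CertB 0 536870912 0 1230186008 536870912 50465866 3 eng mog cd2q0 cd4q3 pd3 true true true .pnn 0 3 3
    ndB2q0 ndB4q3 pcB3 Cut.none Ext.none :=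
  certB0 (fam := true) (s1 := true) (s2 := true) (a := 0) (b := 3) (c := 3) (cn := .pnn) (n1 := ndB2q0) (n2 := ndB4q3) (pc := pcB3) (cut := Cut.none) (xt := Ext.none) (P1 := 0) (W1 := 536870912) (P2 := 0) (W2 := 1230186008) (P3 := 536870912) (W3 := 50465866) (N0 := 3) (En := eng) (mo := mog) (C1 := cd2q0) (C2 := cd4q3) (C3 := pd3)
    rfl k0_pp_033

noncomputable def f_pp_101 : ℕ → ℕ → ℕ → ℕ → Bool := onCell 536870912 536870912 0 536870912 536870912 50465866
    (rowB 3 eng mog cd2q1 cd4q0 pd1 0 true true true .npn 1 0 1 (qsf 536870912 536870912 0 536870912 1) ndB2q1 ndB4q0 pcB1 Cut.none Ext.none)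

def k0_pp_101 : ∃ t, chk3 f_pp_101 t 1 1 1 = true :=
  ⟨(l 4), by decide +kernel⟩

theorem c_pp_101 : CertB 536870912 536870912 0 536870912 536870912 50465866 3 eng mog cd2q1 cd4q0 pd1 true true true .npn 1 0 1
    ndB2q1 ndB4q0 pcB1 Cut.none Ext.none :=
  certB0 (fam := true) (s1 := true) (s2 := true) (a := 1) (b := 0) (c := 1) (cn := .npn) (n1 := ndB2q1) (n2 := ndB4q0) (pc := pcB1) (cut := Cut.none) (xt := Ext.none) (P1 := 536870912) (W1 := 536870912) (P2 := 0) (W2 := 536870912) (P3 := 536870912) (W3 := 50465866) (N0 := 3) (En := eng) (mo := mog) (C1 := cd2q1) (C2 := cd4q0) (C3 := pd1)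
    rfl k0_pp_101

noncomputable def f_pp_102 : ℕ → ℕ → ℕ → ℕ → Bool := onCell 536870912 536870912 0 536870912 536870912 50465866
    (rowB 3 eng mog cd2q1 cd4q0 pd2 0 true true true .npp 1 0 2 (qsf 536870912 536870912 0 536870912 2) ndB2q1 ndB4q0 pcB2 Cut.none Ext.none)

def k0_pp_102 : ∃ t, chk3 f_pp_102 t 1 1 1 = true :=
  ⟨(l 4), by decide +kernel⟩

theorem c_pp_102 : CertB 536870912 536870912 0 536870912 536870912 50465866 3 eng mog cd2q1 cd4q0 pd2 true true true .npp 1 0 2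
    ndB2q1 ndB4q0 pcB2 Cut.none Ext.none :=
  certB0 (fam := true) (s1 := true) (s2 := true) (a := 1) (b := 0) (c := 2) (cn := .npp) (n1 := ndB2q1) (n2 := ndB4q0) (pc := pcB2) (cut := Cut.none) (xt := Ext.none) (P1 := 536870912) (W1 := 536870912) (P2 := 0) (W2 := 536870912) (P3 := 536870912) (W3 := 50465866) (N0 := 3) (En := eng) (mo := mog) (C1 := cd2q1) (C2 := cd4q0) (C3 := pd2)
    rfl k0_pp_102

noncomputable def f_pp_112 : ℕ → ℕ → ℕ → ℕ → Bool := onCell 536870912 536870912 536870912 536870912 536870912 50465866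
    (rowB 3 eng mog cd2q1 cd4q1 pd2 0 true true true .dn 1 1 2 (qsf 536870912 536870912 536870912 536870912 2) ndB2q1 ndB4q1 pcB2 Cut.none Ext.none)

def k0_pp_112 : ∃ t, chk3 f_pp_112 t 1 1 1 = true :=
  ⟨(l 4), by decide +kernel⟩

theorem c_pp_112 : CertB 536870912 536870912 536870912 536870912 536870912 50465866 3 eng mog cd2q1 cd4q1 pd2 true true true .dn 1 1 2
    ndB2q1 ndB4q1 pcB2 Cut.none Ext.none :=
  certB0 (fam := true) (s1 := true) (s2 := true) (a := 1) (b := 1) (c := 2) (cn := .dn) (n1 := ndB2q1) (n2 := ndB4q1) (pc := pcB2) (cut := Cut.none) (xt := Ext.none) (P1 := 536870912) (W1 := 536870912) (P2 := 536870912) (W2 := 536870912) (P3 := 536870912) (W3 := 50465866) (N0 := 3) (En := eng) (mo := mog) (C1 := cd2q1) (C2 := cd4q1) (C3 := pd2)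
    rfl k0_pp_112

noncomputable def f_pp_113 : ℕ → ℕ → ℕ → ℕ → Bool := onCell 536870912 536870912 536870912 536870912 536870912 50465866
    (rowB 3 eng mog cd2q1 cd4q1 pd3 0 true true true .nn 1 1 3 (qsf 536870912 536870912 536870912 536870912 3) ndB2q1 ndB4q1 pcB3 Cut.none Ext.none)

def k0_pp_113 : ∃ t, chk3 f_pp_113 t 1 1 1 = true :=
  ⟨(l 4), by decide +kernel⟩

theorem c_pp_113 : CertB 536870912 536870912 536870912 536870912 536870912 50465866 3 eng mog cd2q1 cd4q1 pd3 true true true .nn 1 1 3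
    ndB2q1 ndB4q1 pcB3 Cut.none Ext.none :=
  certB0 (fam := true) (s1 := true) (s2 := true) (a := 1) (b := 1) (c := 3) (cn := .nn) (n1 := ndB2q1) (n2 := ndB4q1) (pc := pcB3) (cut := Cut.none) (xt := Ext.none) (P1 := 536870912) (W1 := 536870912) (P2 := 536870912) (W2 := 536870912) (P3 := 536870912) (W3 := 50465866) (N0 := 3) (En := eng) (mo := mog) (C1 := cd2q1) (C2 := cd4q1) (C3 := pd3)
    rfl k0_pp_113

noncomputable def f_pp_123 : ℕ → ℕ → ℕ → ℕ → Bool := onCell 536870912 536870912 1073741824 536870912 536870912 50465866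
    (rowB 3 eng mog cd2q1 cd4q2 pd3 0 true true true .npn 1 2 3 (qsf 536870912 536870912 1073741824 536870912 3) ndB2q1 ndB4q2 pcB3 Cut.none Ext.none)

def k0_pp_123 : ∃ t, chk3 f_pp_123 t 1 1 1 = true :=
  ⟨(l 4), by decide +kernel⟩

theorem c_pp_123 : CertB 536870912 536870912 1073741824 536870912 536870912 50465866 3 eng mog cd2q1 cd4q2 pd3 true true true .npn 1 2 3
    ndB2q1 ndB4q2 pcB3 Cut.none Ext.none :=
  certB0 (fam := true) (s1 := true) (s2 := true) (a := 1) (b := 2) (c := 3) (cn := .npn) (n1 := ndB2q1) (n2 := ndB4q2) (pc := pcB3) (cut := Cut.none) (xt := Ext.none) (P1 := 536870912) (W1 := 536870912) (P2 := 1073741824) (W2 := 536870912) (P3 := 536870912) (W3 := 50465866) (N0 := 3) (En := eng) (mo := mog) (C1 := cd2q1) (C2 := cd4q2) (C3 := pd3)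
    rfl k0_pp_123

noncomputable def f_pp_133 : ℕ → ℕ → ℕ → ℕ → Bool := onCell 536870912 536870912 0 1230186008 536870912 50465866
    (rowB 3 eng mog cd2q1 cd4q3 pd3 0 true true true .dn 1 3 3 (qsf 536870912 536870912 0 1230186008 3) ndB2q1 ndB4q3 pcB3 Cut.none Ext.none)

def k0_pp_133 : ∃ t, chk3 f_pp_133 t 1 1 1 = true :=
  ⟨(l 4), by decide +kernel⟩

theorem c_pp_133 : CertB 536870912 536870912 0 1230186008 536870912 50465866 3 eng mog cd2q1 cd4q3 pd3 true true true .dn 1 3 3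
    ndB2q1 ndB4q3 pcB3 Cut.none Ext.none :=
  certB0 (fam := true) (s1 := true) (s2 := true) (a := 1) (b := 3) (c := 3) (cn := .dn) (n1 := ndB2q1) (n2 := ndB4q3) (pc := pcB3) (cut := Cut.none) (xt := Ext.none) (P1 := 536870912) (W1 := 536870912) (P2 := 0) (W2 := 1230186008) (P3 := 536870912) (W3 := 50465866) (N0 := 3) (En := eng) (mo := mog) (C1 := cd2q1) (C2 := cd4q3) (C3 := pd3)
    rfl k0_pp_133

noncomputable def f_pp_202_a : ℕ → ℕ → ℕ → ℕ → Bool := onCell 0 536870912 0 536870912 536870912 50465866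
    (rowB 3 eng mog cd2q2a cd4q0 pd2 0 true true true .pp 2 0 2 (qsf 0 536870912 0 536870912 2) ndB2q2a ndB4q0 pcB2 Cut.none Ext.none)

def k0_pp_202_a : ∃ t, chk3 f_pp_202_a t 1 1 1 = true :=
  ⟨(l 5), by decide +kernel⟩

theorem c_pp_202_a : CertB 0 536870912 0 536870912 536870912 50465866 3 eng mog cd2q2a cd4q0 pd2 true true true .pp 2 0 2
    ndB2q2a ndB4q0 pcB2 Cut.none Ext.none :=
  certB0 (fam := true) (s1 := true) (s2 := true) (a := 2) (b := 0) (c := 2) (cn := .pp) (n1 := ndB2q2a) (n2 := ndB4q0) (pc := pcB2) (cut := Cut.none) (xt := Ext.none) (P1 := 0) (W1 := 536870912) (P2 := 0) (W2 := 536870912) (P3 := 536870912) (W3 := 50465866) (N0 := 3) (En := eng) (mo := mog) (C1 := cd2q2a) (C2 := cd4q0) (C3 := pd2)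
    rfl k0_pp_202_a

noncomputable def f_pp_202_b : ℕ → ℕ → ℕ → ℕ → Bool := onCell 1239849684 370763052 0 536870912 536870912 50465866
    (rowB 3 eng mog cd2q2b cd4q0 pd2 0 true true true .pp 2 0 2 (qsf 1239849684 370763052 0 536870912 2) ndB2q2b ndB4q0 pcB2 Cut.none Ext.none)

def k0_pp_202_b : ∃ t, chk3 f_pp_202_b t 1 1 1 = true :=
  ⟨(l 5), by decide +kernel⟩

theorem c_pp_202_b : CertB 1239849684 370763052 0 536870912 536870912 50465866 3 eng mog cd2q2b cd4q0 pd2 true true true .pp 2 0 2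
    ndB2q2b ndB4q0 pcB2 Cut.none Ext.none :=
  certB0 (fam := true) (s1 := true) (s2 := true) (a := 2) (b := 0) (c := 2) (cn := .pp) (n1 := ndB2q2b) (n2 := ndB4q0) (pc := pcB2) (cut := Cut.none) (xt := Ext.none) (P1 := 1239849684) (W1 := 370763052) (P2 := 0) (W2 := 536870912) (P3 := 536870912) (W3 := 50465866) (N0 := 3) (En := eng) (mo := mog) (C1 := cd2q2b) (C2 := cd4q0) (C3 := pd2)
    rfl k0_pp_202_b

noncomputable def f_pp_203_a : ℕ → ℕ → ℕ → ℕ → Bool := onCell 0 536870912 0 536870912 536870912 50465866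
    (rowB 3 eng mog cd2q2a cd4q0 pd3 0 true true true .up 2 0 3 (qsf 0 536870912 0 536870912 3) ndB2q2a ndB4q0 pcB3 Cut.none Ext.none)

def k0_pp_203_a : ∃ t, chk3 f_pp_203_a t 1 1 1 = true :=
  ⟨(l 5), by decide +kernel⟩

theorem c_pp_203_a : CertB 0 536870912 0 536870912 536870912 50465866 3 eng mog cd2q2a cd4q0 pd3 true true true .up 2 0 3
    ndB2q2a ndB4q0 pcB3 Cut.none Ext.none :=
  certB0 (fam := true) (s1 := true) (s2 := true) (a := 2) (b := 0) (c := 3) (cn := .up) (n1 := ndB2q2a) (n2 := ndB4q0) (pc := pcB3) (cut := Cut.none) (xt := Ext.none) (P1 := 0) (W1 := 536870912) (P2 := 0) (W2 := 536870912) (P3 := 536870912) (W3 := 50465866) (N0 := 3) (En := eng) (mo := mog) (C1 := cd2q2a) (C2 := cd4q0) (C3 := pd3)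
    rfl k0_pp_203_a

noncomputable def f_pp_203_b : ℕ → ℕ → ℕ → ℕ → Bool := onCell 1239849684 370763052 0 536870912 536870912 50465866
    (rowB 3 eng mog cd2q2b cd4q0 pd3 0 true true true .up 2 0 3 (qsf 1239849684 370763052 0 536870912 3) ndB2q2b ndB4q0 pcB3 Cut.none Ext.none)

def k0_pp_203_b : ∃ t, chk3 f_pp_203_b t 1 1 1 = true :=
  ⟨(l 5), by decide +kernel⟩

theorem c_pp_203_b : CertB 1239849684 370763052 0 536870912 536870912 50465866 3 eng mog cd2q2b cd4q0 pd3 true true true .up 2 0 3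
    ndB2q2b ndB4q0 pcB3 Cut.none Ext.none :=
  certB0 (fam := true) (s1 := true) (s2 := true) (a := 2) (b := 0) (c := 3) (cn := .up) (n1 := ndB2q2b) (n2 := ndB4q0) (pc := pcB3) (cut := Cut.none) (xt := Ext.none) (P1 := 1239849684) (W1 := 370763052) (P2 := 0) (W2 := 536870912) (P3 := 536870912) (W3 := 50465866) (N0 := 3) (En := eng) (mo := mog) (C1 := cd2q2b) (C2 := cd4q0) (C3 := pd3)
    rfl k0_pp_203_b

noncomputable def f_pp_213_a : ℕ → ℕ → ℕ → ℕ → Bool := onCell 0 536870912 536870912 536870912 536870912 50465866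
    (rowB 3 eng mog cd2q2a cd4q1 pd3 0 true true true .pnn 2 1 3 (qsf 0 536870912 536870912 536870912 3) ndB2q2a ndB4q1 pcB3 Cut.none Ext.none)

def k0_pp_213_a : ∃ t, chk3 f_pp_213_a t 1 1 1 = true :=
  ⟨(l 4), by decide +kernel⟩

theorem c_pp_213_a : CertB 0 536870912 536870912 536870912 536870912 50465866 3 eng mog cd2q2a cd4q1 pd3 true true true .pnn 2 1 3
    ndB2q2a ndB4q1 pcB3 Cut.none Ext.none :=
  certB0 (fam := true) (s1 := true) (s2 := true) (a := 2) (b := 1) (c := 3) (cn := .pnn) (n1 := ndB2q2a) (n2 := ndB4q1) (pc := pcB3) (cut := Cut.none) (xt := Ext.none) (P1 := 0) (W1 := 536870912) (P2 := 536870912) (W2 := 536870912) (P3 := 536870912) (W3 := 50465866) (N0 := 3) (En := eng) (mo := mog) (C1 := cd2q2a) (C2 := cd4q1) (C3 := pd3)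
    rfl k0_pp_213_a

noncomputable def f_pp_213_b : ℕ → ℕ → ℕ → ℕ → Bool := onCell 1239849684 370763052 536870912 536870912 536870912 50465866
    (rowB 3 eng mog cd2q2b cd4q1 pd3 0 true true true .pnn 2 1 3 (qsf 1239849684 370763052 536870912 536870912 3) ndB2q2b ndB4q1 pcB3 Cut.none Ext.none)

def k0_pp_213_b : ∃ t, chk3 f_pp_213_b t 1 1 1 = true :=
  ⟨(l 4), by decide +kernel⟩

theorem c_pp_213_b : CertB 1239849684 370763052 536870912 536870912 536870912 50465866 3 eng mog cd2q2b cd4q1 pd3 true true true .pnn 2 1 3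
    ndB2q2b ndB4q1 pcB3 Cut.none Ext.none :=
  certB0 (fam := true) (s1 := true) (s2 := true) (a := 2) (b := 1) (c := 3) (cn := .pnn) (n1 := ndB2q2b) (n2 := ndB4q1) (pc := pcB3) (cut := Cut.none) (xt := Ext.none) (P1 := 1239849684) (W1 := 370763052) (P2 := 536870912) (W2 := 536870912) (P3 := 536870912) (W3 := 50465866) (N0 := 3) (En := eng) (mo := mog) (C1 := cd2q2b) (C2 := cd4q1) (C3 := pd3)
    rfl k0_pp_213_b

noncomputable def f_pp_303 : ℕ → ℕ → ℕ → ℕ → Bool := onCell 1610612736 536870912 0 536870912 536870912 50465866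
    (rowB 3 eng mog cd2q3 cd4q0 pd3 0 true true true .npn 3 0 3 (qsf 1610612736 536870912 0 536870912 3) ndB2q3 ndB4q0 pcB3 Cut.none Ext.none)

def k0_pp_303 : ∃ t, chk3 f_pp_303 t 1 1 1 = true :=
  ⟨(l 4), by decide +kernel⟩

theorem c_pp_303 : CertB 1610612736 536870912 0 536870912 536870912 50465866 3 eng mog cd2q3 cd4q0 pd3 true true true .npn 3 0 3
    ndB2q3 ndB4q0 pcB3 Cut.none Ext.none :=
  certB0 (fam := true) (s1 := true) (s2 := true) (a := 3) (b := 0) (c := 3) (cn := .npn) (n1 := ndB2q3) (n2 := ndB4q0) (pc := pcB3) (cut := Cut.none) (xt := Ext.none) (P1 := 1610612736) (W1 := 536870912) (P2 := 0) (W2 := 536870912) (P3 := 536870912) (W3 := 50465866) (N0 := 3) (En := eng) (mo := mog) (C1 := cd2q3) (C2 := cd4q0) (C3 := pd3)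
    rfl k0_pp_303

noncomputable def f_pp_313 : ℕ → ℕ → ℕ → ℕ → Bool := onCell 1610612736 536870912 536870912 536870912 536870912 50465866
    (rowB 3 eng mog cd2q3 cd4q1 pd3 0 true true true .dn 3 1 3 (qsf 1610612736 536870912 536870912 536870912 3) ndB2q3 ndB4q1 pcB3 Cut.none Ext.none)

def k0_pp_313 : ∃ t, chk3 f_pp_313 t 1 1 1 = true :=
  ⟨(l 4), by decide +kernel⟩

theorem c_pp_313 : CertB 1610612736 536870912 536870912 536870912 536870912 50465866 3 eng mog cd2q3 cd4q1 pd3 true true true .dn 3 1 3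
    ndB2q3 ndB4q1 pcB3 Cut.none Ext.none :=
  certB0 (fam := true) (s1 := true) (s2 := true) (a := 3) (b := 1) (c := 3) (cn := .dn) (n1 := ndB2q3) (n2 := ndB4q1) (pc := pcB3) (cut := Cut.none) (xt := Ext.none) (P1 := 1610612736) (W1 := 536870912) (P2 := 536870912) (W2 := 536870912) (P3 := 536870912) (W3 := 50465866) (N0 := 3) (En := eng) (mo := mog) (C1 := cd2q3) (C2 := cd4q1) (C3 := pd3)
    rfl k0_pp_313

noncomputable def f_pm_001 : ℕ → ℕ → ℕ → ℕ → Bool := onCell 0 536870912 0 536870912 536870912 50465866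
    (rowB 3 eng mog cd2q0 cd4q0 pd1 0 true true false .up 0 0 1 (qsf 0 536870912 0 536870912 1) ndB2q0 ndB4q0 pcB1 Cut.none Ext.none)

def k0_pm_001 : ∃ t, chk3 f_pm_001 t 1 1 1 = true :=
  ⟨(a (l 3) (l 3)), by decide +kernel⟩

theorem c_pm_001 : CertB 0 536870912 0 536870912 536870912 50465866 3 eng mog cd2q0 cd4q0 pd1 true true false .up 0 0 1
    ndB2q0 ndB4q0 pcB1 Cut.none Ext.none :=
  certB0 (fam := true) (s1 := true) (s2 := false) (a := 0) (b := 0) (c := 1) (cn := .up) (n1 := ndB2q0) (n2 := ndB4q0) (pc := pcB1) (cut := Cut.none) (xt := Ext.none) (P1 := 0) (W1 := 536870912) (P2 := 0) (W2 := 536870912) (P3 := 536870912) (W3 := 50465866) (N0 := 3) (En := eng) (mo := mog) (C1 := cd2q0) (C2 := cd4q0) (C3 := pd1)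
    rfl k0_pm_001

noncomputable def cut_pm_011 : Cut := Cut.of [[⟨0, 0, 0, 67108864⟩, ⟨1, 1, 0, 67108864⟩, ⟨2, 1, 0, 67108864⟩]]

noncomputable def f_pm_011 : ℕ → ℕ → ℕ → ℕ → Bool := onCell 0 536870912 536870912 536870912 536870912 50465866
    (rowB 3 eng mog cd2q0 cd4q1 pd1 1 true true false .pnn 0 1 1 (qsf 0 536870912 536870912 536870912 1) ndB2q0 ndB4q1 pcB1 cut_pm_011 Ext.none)

def k0_pm_011 : ∃ t, chk3 f_pm_011 t 1 1 1 = true :=
  ⟨(b (l 3) (a (a (b (l 3) (b (l 3) (b (l 3) (a (a (b (l 3) (l 6)) (l 3)) (l 3))))) (l 3)) (l 3))), by decide +kernel⟩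

theorem c_pm_011 : CertB 0 536870912 536870912 536870912 536870912 50465866 3 eng mog cd2q0 cd4q1 pd1 true true false .pnn 0 1 1
    ndB2q0 ndB4q1 pcB1 cut_pm_011 Ext.none :=
  certB1 (fam := true) (s1 := true) (s2 := false) (a := 0) (b := 1) (c := 1) (cn := .pnn) (n1 := ndB2q0) (n2 := ndB4q1) (pc := pcB1) (cut := cut_pm_011) (xt := Ext.none) (P1 := 0) (W1 := 536870912) (P2 := 536870912) (W2 := 536870912) (P3 := 536870912) (W3 := 50465866) (N0 := 3) (En := eng) (mo := mog) (C1 := cd2q0) (C2 := cd4q1) (C3 := pd1)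
    rfl (fun _ => rfl) k0_pm_011

end Pool.Agent.Strip051.G.I5000_5470.Tab.C.BA24

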