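import Pool.Agent.Strip051.G.I5000_5470.Tab
import Pool.Agent.Strip051.PB.ExtD2

/-! # Certificates B11 (generated) -/

set_option linter.all false
set_option maxRecDepth 100000

namespace Pool.Agent.Strip051.G.I5000_5470.Tab.C.BA44

open Pool.Agent.Strip051.PB Pool.Agent.Strip051.PB.T
open Pool.Agent.Strip051.G.I5000_5470.Tab

noncomputable def f_pm_102 : ℕ → ℕ → ℕ → ℕ → Bool := onCell 1073741824 536870912 0 536870912 536870912 50465866
    (rowB 3 eng mog cd4q1 cd4q0 pd2 2 true true false .npp 1 0 2 (qsf 536870912 536870912 0 536870912 2) ndB4q1 ndB4q0 pcB2 Cut.none Ext.none)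

def k0_pm_102 : ∃ t, chk3 f_pm_102 t 1 1 1 = true :=
  ⟨(a (b (b (a (a (l 3) (a (l 3) (b (l 2) (l 3)))) (a (a (a (b (l 2) (b (l 2) (l 16479032))) (l 2)) (l 2)) (l 2))) (a (l 3) (a (a (a (b (l 16522120) (l 3)) (a (b (l 16499776) (l 16550752)) (a (b (l 16489280) (l 16543112)) (b (l 16482520) (a (l 16539736) (l 16537000)))))) (b (l 16450136) (l 16513784))) (b (b (l 2) (l 16381984)) (l 16442736))))) (a (l 3) (b (a (a (a (l 3) (a (l 16621128) (a (l 16617096) (a (l 16615664) (l 16614152))))) (l 16602080)) (b (l 16517688) (l 16606976))) (a (a (a (l 3) (a (l 3) (b (a (l 16679184) (a (l 16679176) (l 16678960))) (a (l 3) (a (l 16705624) (l 16705912)))))) (b (l 16677720) (l 16709632))) (b (l 16676696) (l 16725744)))))) (b (b (l 2) (a (b (l 2) (a (l 16340784) (l 2))) (l 2))) (b (b (a (l 16400400) (l 2)) (a (l 16555952) (l 16477520))) (b (a (l 16687184) (l 16722688)) (l 16954328))))), by decide +kernel⟩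

theorem c_pm_102 : CertB 536870912 536870912 0 536870912 536870912 50465866 3 eng mog cd4q1 cd4q0 pd2 true true false .npp 1 0 2
    ndB4q1 ndB4q0 pcB2 Cut.none Ext.none :=
  certB2 (fam := true) (s1 := true) (s2 := false) (a := 1) (b := 0) (c := 2) (cn := .npp) (n1 := ndB4q1) (n2 := ndB4q0) (pc := pcB2) (cut := Cut.none) (xt := Ext.none) (P1 := 536870912) (W1 := 536870912) (P2 := 0) (W2 := 536870912) (P3 := 536870912) (W3 := 50465866) (N0 := 3) (En := eng) (mo := mog) (C1 := cd4q1) (C2 := cd4q0) (C3 := pd2)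
    rfl (fun _ => rfl) k0_pm_102

noncomputable def f_pm_112 : ℕ → ℕ → ℕ → ℕ → Bool := onCell 1073741824 536870912 536870912 536870912 536870912 50465866
    (rowB 3 eng mog cd4q1 cd4q1 pd2 2 true true false .dn 1 1 2 (qsf 536870912 536870912 536870912 536870912 2) ndB4q1 ndB4q1 pcB2 Cut.none Ext.none)

def k0_pm_112 : ∃ t, chk3 f_pm_112 t 1 1 1 = true :=
  ⟨(a (b (a (l 3) (b (a (a (a (l 3) (a (l 3) (a (l 3) (b (l 95731234407) (l 16728352))))) (b (l 16732120) (l 16738792))) (b (l 16762640) (l 16778608))) (a (a (a (l 3) (a (l 3) (b (a (l 3) (a (l 16715856) (l 16716968))) (l 1)))) (b (l 16727848) (l 16706896))) (b (a (l 16755208) (l 16792816)) (l 376380637879))))) (a (l 1) (b (a (l 1) (b (a (l 1) (l 16733672)) (l 1))) (l 1)))) (b (b (b (l 16986816) (l 17073400)) (a (a (b (l 16872448) (l 16848840)) (l 17024744)) (l 17407768))) (a (b (a (b (l 16806552) (l 462816725799)) (b (l 16962384) (l 16889576))) (a (l 1) (b (l 512208950167) (l 1)))) (b (a (b (l 17214456)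 (l 17119224)) (l 17540368)) (a (b (l 17002448) (l 569117401847)) (b (l 17326608) (l 17147208))))))), by decide +kernel⟩

theorem c_pm_112 : CertB 536870912 536870912 536870912 536870912 536870912 50465866 3 eng mog cd4q1 cd4q1 pd2 true true false .dn 1 1 2
    ndB4q1 ndB4q1 pcB2 Cut.none Ext.none :=
  certB2 (fam := true) (s1 := true) (s2 := false) (a := 1) (b := 1) (c := 2) (cn := .dn) (n1 := ndB4q1) (n2 := ndB4q1) (pc := pcB2) (cut := Cut.none) (xt := Ext.none) (P1 := 536870912) (W1 := 536870912) (P2 := 536870912) (W2 := 536870912) (P3 := 536870912) (W3 := 50465866) (N0 := 3) (En := eng) (mo := mog) (C1 := cd4q1) (C2 := cd4q1) (C3 := pd2)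
    rfl (fun _ => rfl) k0_pm_112

noncomputable def f_pm_113 : ℕ → ℕ → ℕ → ℕ → Bool := onCell 536870912 536870912 1610612736 536870912 536870912 50465866
    (rowB 3 eng mog cd4q1 cd4q1 pd3 1 true true false .nn 1 1 3 (qsf 536870912 536870912 536870912 536870912 3) ndB4q1 ndB4q1 pcB3 Cut.none Ext.none)

def k0_pm_113 : ∃ t, chk3 f_pm_113 t 1 1 1 = true :=
  ⟨(a (b (a (a (l 17317352) (l 17437000)) (l 17610384)) (b (a (l 2) (l 17258112)) (l 2))) (b (a (l 17784896) (b (b (a (l 17642512) (l 17477872)) (l 17599696)) (l 17532656))) (b (l 17305056) (b (l 17040632) (b (l 16918856) (b (l 16860032) (l 16821616))))))), by decide +kernel⟩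

theorem c_pm_113 : CertB 536870912 536870912 536870912 536870912 536870912 50465866 3 eng mog cd4q1 cd4q1 pd3 true true false .nn 1 1 3
    ndB4q1 ndB4q1 pcB3 Cut.none Ext.none :=
  certB1 (fam := true) (s1 := true) (s2 := false) (a := 1) (b := 1) (c := 3) (cn := .nn) (n1 := ndB4q1) (n2 := ndB4q1) (pc := pcB3) (cut := Cut.none) (xt := Ext.none) (P1 := 536870912) (W1 := 536870912) (P2 := 536870912) (W2 := 536870912) (P3 := 536870912) (W3 := 50465866) (N0 := 3) (En := eng) (mo := mog) (C1 := cd4q1) (C2 := cd4q1) (C3 := pd3)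
    rfl (fun _ => rfl) k0_pm_113

noncomputable def f_pm_123 : ℕ → ℕ → ℕ → ℕ → Bool := onCell 536870912 536870912 1610612736 536870912 536870912 50465866
    (rowB 3 eng mog cd4q1 cd4q2 pd3 1 true true false .npn 1 2 3 (qsf 536870912 536870912 1073741824 536870912 3) ndB4q1 ndB4q2 pcB3 Cut.none Ext.none)

def k0_pm_123 : ∃ t, chk3 f_pm_123 t 1 1 1 = true :=
  ⟨(a (b (b (a (b (a (l 17330672) (l 17197080)) (a (l 17359808) (l 17196976))) (b (l 1) (l 17220864))) (a (b (l 17414672) (l 17133360)) (b (l 17061696) (l 17006384)))) (b (a (b (l 16967368) (l 4)) (b (l 16935352) (l 16821032))) (l 4))) (b (b (l 1) (b (l 1) (a (l 726421126551) (l 1)))) (b (b (a (l 17024824) (l 1)) (a (l 16899984) (l 692598093383))) (l 4)))), by decide +kernel⟩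

theorem c_pm_123 : CertB 536870912 536870912 1073741824 536870912 536870912 50465866 3 eng mog cd4q1 cd4q2 pd3 true true false .npn 1 2 3
    ndB4q1 ndB4q2 pcB3 Cut.none Ext.none :=
  certB1 (fam := true) (s1 := true) (s2 := false) (a := 1) (b := 2) (c := 3) (cn := .npn) (n1 := ndB4q1) (n2 := ndB4q2) (pc := pcB3) (cut := Cut.none) (xt := Ext.none) (P1 := 536870912) (W1 := 536870912) (P2 := 1073741824) (W2 := 536870912) (P3 := 536870912) (W3 := 50465866) (N0 := 3) (En := eng) (mo := mog) (C1 := cd4q1) (C2 := cd4q2) (C3 := pd3)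
    rfl (fun _ => rfl) k0_pm_123

noncomputable def f_pm_133 : ℕ → ℕ → ℕ → ℕ → Bool := onCell 536870912 536870912 0 1230186008 536870912 50465866
    (rowB 3 eng mog cd4q1 cd4q3 pd3 0 true true false .dn 1 3 3 (qsf 536870912 536870912 0 1230186008 3) ndB4q1 ndB4q3 pcB3 Cut.none Ext.none)

def k0_pm_133 : ∃ t, chk3 f_pm_133 t 1 1 1 = true :=
  ⟨(b (l 2) (l 4)), by decide +kernel⟩

theorem c_pm_133 : CertB 536870912 536870912 0 1230186008 536870912 50465866 3 eng mog cd4q1 cd4q3 pd3 true true false .dn 1 3 3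
    ndB4q1 ndB4q3 pcB3 Cut.none Ext.none :=
  certB0 (fam := true) (s1 := true) (s2 := false) (a := 1) (b := 3) (c := 3) (cn := .dn) (n1 := ndB4q1) (n2 := ndB4q3) (pc := pcB3) (cut := Cut.none) (xt := Ext.none) (P1 := 536870912) (W1 := 536870912) (P2 := 0) (W2 := 1230186008) (P3 := 536870912) (W3 := 50465866) (N0 := 3) (En := eng) (mo := mog) (C1 := cd4q1) (C2 := cd4q3) (C3 := pd3)
    rfl k0_pm_133

noncomputable def f_pm_202 : ℕ → ℕ → ℕ → ℕ → Bool := onCell 1073741824 536870912 0 536870912 536870912 50465866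
    (rowB 3 eng mog cd4q2 cd4q0 pd2 2 true true false .pp 2 0 2 (qsf 1073741824 536870912 0 536870912 2) ndB4q2 ndB4q0 pcB2 Cut.none Ext.none)

def k0_pm_202 : ∃ t, chk3 f_pm_202 t 1 1 1 = true :=
  ⟨(a (b (a (a (b (b (a (a (l 3) (b (b (l 3) (l 16720056)) (b (a (l 1) (l 271690229303)) (l 1)))) (b (a (b (l 16699040) (l 16703432)) (l 16685488)) (a (b (a (l 16714744) (l 16706080)) (a (l 1) (l 16715768))) (l 16697992)))) (a (l 1) (b (a (l 1) (b (l 16713944) (l 1))) (l 1)))) (l 1)) (b (a (b (b (l 16662832) (l 16675192)) (b (a (l 16702648) (l 16686144)) (a (l 1) (l 16715768)))) (b (b (l 16632480) (l 16646784)) (l 16675776))) (b (a (l 1) (b (l 16728272) (l 1))) (l 1)))) (b (a (b (a (a (l 16617496) (l 16643888)) (l 16579776)) (a (a (l 16654672) (l 16640544)) (l 16622232))) (b (a (l 16547280) (l 16508968)) (l 16584552))) (a (a (b (a (l 16722832) (l 16849376)) (l 1)) (b (l 16679568) (l 16779304))) (b (l 16637392) (l 16711448))))) (b (a (l 1) (a (l 1) (b (l 16842936)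 (l 1)))) (l 1))) (b (a (b (a (b (l 16433424) (l 16530936)) (l 16386680)) (a (l 16762784) (l 16760856))) (b (a (l 16249224) (b (a (l 16267384) (b (l 16326288) (l 16295384))) (l 16232224))) (a (l 16532232) (a (l 16494016) (l 16448288))))) (a (b (a (l 448321386407) (l 16751368)) (b (l 516504856279) (l 1))) (b (a (l 16703640) (a (l 16678664) (l 16657080))) (a (b (l 17035280) (l 17470992)) (b (l 16948296) (l 17289616))))))), by decide +kernel⟩

theorem c_pm_202 : CertB 1073741824 536870912 0 536870912 536870912 50465866 3 eng mog cd4q2 cd4q0 pd2 true true false .pp 2 0 2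
    ndB4q2 ndB4q0 pcB2 Cut.none Ext.none :=
  certB2 (fam := true) (s1 := true) (s2 := false) (a := 2) (b := 0) (c := 2) (cn := .pp) (n1 := ndB4q2) (n2 := ndB4q0) (pc := pcB2) (cut := Cut.none) (xt := Ext.none) (P1 := 1073741824) (W1 := 536870912) (P2 := 0) (W2 := 536870912) (P3 := 536870912) (W3 := 50465866) (N0 := 3) (En := eng) (mo := mog) (C1 := cd4q2) (C2 := cd4q0) (C3 := pd2)
    rfl (fun _ => rfl) k0_pm_202

noncomputable def f_pm_203 : ℕ → ℕ → ℕ → ℕ → Bool := onCell 1610612736 536870912 0 536870912 536870912 50465866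
    (rowB 3 eng mog cd4q2 cd4q0 pd3 2 true true false .up 2 0 3 (qsf 1073741824 536870912 0 536870912 3) ndB4q2 ndB4q0 pcB3 Cut.none Ext.none)

def k0_pm_203 : ∃ t, chk3 f_pm_203 t 1 1 1 = true :=
  ⟨(a (b (a (b (a (b (a (b (l 16379184) (l 16298248)) (l 16336264)) (a (l 16240368) (l 16361416))) (b (a (l 16702040) (l 2)) (a (l 16498592) (l 16593624)))) (a (l 16384648) (b (a (l 16421792) (l 16496912)) (l 16452232)))) (b (a (b (l 2) (l 497780463943)) (l 2)) (a (b (l 16627704) (l 16572992)) (b (l 16797616) (l 16699136))))) (a (b (a (b (l 16560144) (l 16716640)) (l 16616288)) (a (b (l 16897632) (l 17169808)) (b (l 16866736) (l 17092744)))) (b (a (l 16629816) (b (l 16661344) (l 16698408))) (a (l 16941576) (l 16891920))))) (b (a (b (l 2) (a (b (l 2) (l 16837264)) (l 2))) (l 2)) (a (a (b (b (l 16753744) (l 16727592)) (l 16802792)) (l 4)) (l 4)))), by decide +kernel⟩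

theorem c_pm_203 : CertB 1073741824 536870912 0 536870912 536870912 50465866 3 eng mog cd4q2 cd4q0 pd3 true true false .up 2 0 3
    ndB4q2 ndB4q0 pcB3 Cut.none Ext.none :=
  certB2 (fam := true) (s1 := true) (s2 := false) (a := 2) (b := 0) (c := 3) (cn := .up) (n1 := ndB4q2) (n2 := ndB4q0) (pc := pcB3) (cut := Cut.none) (xt := Ext.none) (P1 := 1073741824) (W1 := 536870912) (P2 := 0) (W2 := 536870912) (P3 := 536870912) (W3 := 50465866) (N0 := 3) (En := eng) (mo := mog) (C1 := cd4q2) (C2 := cd4q0) (C3 := pd3)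
    rfl (fun _ => rfl) k0_pm_203

noncomputable def f_pm_213 : ℕ → ℕ → ℕ → ℕ → Bool := onCell 1610612736 536870912 536870912 536870912 536870912 50465866
    (rowB 3 eng mog cd4q2 cd4q1 pd3 2 true true false .pnn 2 1 3 (qsf 1073741824 536870912 536870912 536870912 3) ndB4q2 ndB4q1 pcB3 Cut.none Ext.none)

def k0_pm_213 : ∃ t, chk3 f_pm_213 t 1 1 1 = true :=
  ⟨(a (b (a (b (a (b (l 17330672) (l 17197080)) (b (l 17359808) (l 17196976))) (a (l 1) (l 17220864))) (b (a (l 17393696) (l 17238216)) (a (l 17061696) (l 17006384)))) (a (l 1) (a (l 1) (b (l 659849133463) (l 1))))) (a (b (b (b (l 16865264) (l 17089712)) (a (l 16935352) (l 16821032))) (a (b (l 17024824) (l 1)) (b (l 16899984) (l 714072929863)))) (l 4))), by decide +kernel⟩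

theorem c_pm_213 : CertB 1073741824 536870912 536870912 536870912 536870912 50465866 3 eng mog cd4q2 cd4q1 pd3 true true false .pnn 2 1 3
    ndB4q2 ndB4q1 pcB3 Cut.none Ext.none :=
  certB2 (fam := true) (s1 := true) (s2 := false) (a := 2) (b := 1) (c := 3) (cn := .pnn) (n1 := ndB4q2) (n2 := ndB4q1) (pc := pcB3) (cut := Cut.none) (xt := Ext.none) (P1 := 1073741824) (W1 := 536870912) (P2 := 536870912) (W2 := 536870912) (P3 := 536870912) (W3 := 50465866) (N0 := 3) (En := eng) (mo := mog) (C1 := cd4q2) (C2 := cd4q1) (C3 := pd3)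
    rfl (fun _ => rfl) k0_pm_213

noncomputable def f_pm_303 : ℕ → ℕ → ℕ → ℕ → Bool := onCell 0 1230186008 1610612736 536870912 536870912 50465866
    (rowB 3 eng mog cd4q3 cd4q0 pd3 1 true true false .npn 3 0 3 (qsf 0 1230186008 0 536870912 3) ndB4q3 ndB4q0 pcB3 Cut.none Ext.none)

def k0_pm_303 : ∃ t, chk3 f_pm_303 t 1 1 1 = true :=
  ⟨(a (b (l 1) (b (l 1) (a (l 4) (l 4)))) (a (b (a (l 1) (b (l 1) (b (l 1) (l 943316162823)))) (b (b (a (l 1) (l 16761976)) (l 4)) (l 4))) (b (a (b (l 1) (b (a (l 16662080) (l 16655760)) (l 16713304))) (b (b (a (l 1) (a (l 16464520) (l 16348368))) (a (l 16617320) (l 16534112))) (a (b (l 16652216) (l 16715160)) (b (l 16606864) (l 16685000))))) (b (b (a (l 16759936) (a (l 16766256) (l 16742752))) (l 4)) (l 4))))), by decide +kernel⟩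

theorem c_pm_303 : CertB 0 1230186008 0 536870912 536870912 50465866 3 eng mog cd4q3 cd4q0 pd3 true true false .npn 3 0 3
    ndB4q3 ndB4q0 pcB3 Cut.none Ext.none :=
  certB1 (fam := true) (s1 := true) (s2 := false) (a := 3) (b := 0) (c := 3) (cn := .npn) (n1 := ndB4q3) (n2 := ndB4q0) (pc := pcB3) (cut := Cut.none) (xt := Ext.none) (P1 := 0) (W1 := 1230186008) (P2 := 0) (W2 := 536870912) (P3 := 536870912) (W3 := 50465866) (N0 := 3) (En := eng) (mo := mog) (C1 := cd4q3) (C2 := cd4q0) (C3 := pd3)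
    rfl (fun _ => rfl) k0_pm_303

noncomputable def f_pm_313 : ℕ → ℕ → ℕ → ℕ → Bool := onCell 0 1230186008 536870912 536870912 536870912 50465866
    (rowB 3 eng mog cd4q3 cd4q1 pd3 0 true true false .dn 3 1 3 (qsf 0 1230186008 536870912 536870912 3) ndB4q3 ndB4q1 pcB3 Cut.none Ext.none)

def k0_pm_313 : ∃ t, chk3 f_pm_313 t 1 1 1 = true :=
  ⟨(a (l 2) (l 4)), by decide +kernel⟩

theorem c_pm_313 : CertB 0 1230186008 536870912 536870912 536870912 50465866 3 eng mog cd4q3 cd4q1 pd3 true true false .dn 3 1 3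
    ndB4q3 ndB4q1 pcB3 Cut.none Ext.none :=
  certB0 (fam := true) (s1 := true) (s2 := false) (a := 3) (b := 1) (c := 3) (cn := .dn) (n1 := ndB4q3) (n2 := ndB4q1) (pc := pcB3) (cut := Cut.none) (xt := Ext.none) (P1 := 0) (W1 := 1230186008) (P2 := 536870912) (W2 := 536870912) (P3 := 536870912) (W3 := 50465866) (N0 := 3) (En := eng) (mo := mog) (C1 := cd4q3) (C2 := cd4q1) (C3 := pd3)
    rfl k0_pm_313

noncomputable def f_mm_001 : ℕ → ℕ → ℕ → ℕ → Bool := onCell 0 536870912 0 536870912 536870912 50465866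
    (rowB 3 eng mog cd4q0 cd4q0 pd1 0 true false false .up 0 0 1 (qsf 0 536870912 0 536870912 1) ndB4q0 ndB4q0 pcB1 Cut.none Ext.none)

def k0_mm_001 : ∃ t, chk3 f_mm_001 t 1 1 1 = true :=
  ⟨(l 4), by decide +kernel⟩

theorem c_mm_001 : CertB 0 536870912 0 536870912 536870912 50465866 3 eng mog cd4q0 cd4q0 pd1 true false false .up 0 0 1
    ndB4q0 ndB4q0 pcB1 Cut.none Ext.none :=
  certB0 (fam := true) (s1 := false) (s2 := false) (a := 0) (b := 0) (c := 1) (cn := .up) (n1 := ndB4q0) (n2 := ndB4q0) (pc := pcB1) (cut := Cut.none) (xt := Ext.none) (P1 := 0) (W1 := 536870912) (P2 := 0) (W2 := 536870912) (P3 := 536870912) (W3 := 50465866) (N0 := 3) (En := eng) (mo := mog) (C1 := cd4q0) (C2 := cd4q0) (C3 := pd1)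
    rfl k0_mm_001

noncomputable def f_mm_011 : ℕ → ℕ → ℕ → ℕ → Bool := onCell 0 536870912 536870912 536870912 536870912 50465866
    (rowB 3 eng mog cd4q0 cd4q1 pd1 0 true false false .pnn 0 1 1 (qsf 0 536870912 536870912 536870912 1) ndB4q0 ndB4q1 pcB1 Cut.none Ext.none)

def k0_mm_011 : ∃ t, chk3 f_mm_011 t 1 1 1 = true :=
  ⟨(l 4), by decide +kernel⟩

theorem c_mm_011 : CertB 0 536870912 536870912 536870912 536870912 50465866 3 eng mog cd4q0 cd4q1 pd1 true false false .pnn 0 1 1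
    ndB4q0 ndB4q1 pcB1 Cut.none Ext.none :=
  certB0 (fam := true) (s1 := false) (s2 := false) (a := 0) (b := 1) (c := 1) (cn := .pnn) (n1 := ndB4q0) (n2 := ndB4q1) (pc := pcB1) (cut := Cut.none) (xt := Ext.none) (P1 := 0) (W1 := 536870912) (P2 := 536870912) (W2 := 536870912) (P3 := 536870912) (W3 := 50465866) (N0 := 3) (En := eng) (mo := mog) (C1 := cd4q0) (C2 := cd4q1) (C3 := pd1)
    rfl k0_mm_011

noncomputable def f_mm_012 : ℕ → ℕ → ℕ → ℕ → Bool := onCell 0 536870912 536870912 536870912 536870912 50465866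
    (rowB 3 eng mog cd4q0 cd4q1 pd2 0 true false false .pnp 0 1 2 (qsf 0 536870912 536870912 536870912 2) ndB4q0 ndB4q1 pcB2 Cut.none Ext.none)

def k0_mm_012 : ∃ t, chk3 f_mm_012 t 1 1 1 = true :=
  ⟨(l 4), by decide +kernel⟩

theorem c_mm_012 : CertB 0 536870912 536870912 536870912 536870912 50465866 3 eng mog cd4q0 cd4q1 pd2 true false false .pnp 0 1 2
    ndB4q0 ndB4q1 pcB2 Cut.none Ext.none :=
  certB0 (fam := true) (s1 := false) (s2 := false) (a := 0) (b := 1) (c := 2) (cn := .pnp) (n1 := ndB4q0) (n2 := ndB4q1) (pc := pcB2) (cut := Cut.none) (xt := Ext.none) (P1 := 0) (W1 := 536870912) (P2 := 536870912) (W2 := 536870912) (P3 := 536870912) (W3 := 50465866) (N0 := 3) (En := eng) (mo := mog) (C1 := cd4q0) (C2 := cd4q1) (C3 := pd2)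
    rfl k0_mm_012

noncomputable def f_mm_022 : ℕ → ℕ → ℕ → ℕ → Bool := onCell 0 536870912 1073741824 536870912 536870912 50465866
    (rowB 3 eng mog cd4q0 cd4q2 pd2 0 true false false .pp 0 2 2 (qsf 0 536870912 1073741824 536870912 2) ndB4q0 ndB4q2 pcB2 Cut.none Ext.none)

def k0_mm_022 : ∃ t, chk3 f_mm_022 t 1 1 1 = true :=
  ⟨(l 4), by decide +kernel⟩

theorem c_mm_022 : CertB 0 536870912 1073741824 536870912 536870912 50465866 3 eng mog cd4q0 cd4q2 pd2 true false false .pp 0 2 2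
    ndB4q0 ndB4q2 pcB2 Cut.none Ext.none :=
  certB0 (fam := true) (s1 := false) (s2 := false) (a := 0) (b := 2) (c := 2) (cn := .pp) (n1 := ndB4q0) (n2 := ndB4q2) (pc := pcB2) (cut := Cut.none) (xt := Ext.none) (P1 := 0) (W1 := 536870912) (P2 := 1073741824) (W2 := 536870912) (P3 := 536870912) (W3 := 50465866) (N0 := 3) (En := eng) (mo := mog) (C1 := cd4q0) (C2 := cd4q2) (C3 := pd2)
    rfl k0_mm_022

noncomputable def f_mm_023 : ℕ → ℕ → ℕ → ℕ → Bool := onCell 0 536870912 1073741824 536870912 536870912 50465866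
    (rowB 3 eng mog cd4q0 cd4q2 pd3 0 true false false .up 0 2 3 (qsf 0 536870912 1073741824 536870912 3) ndB4q0 ndB4q2 pcB3 Cut.none Ext.none)

def k0_mm_023 : ∃ t, chk3 f_mm_023 t 1 1 1 = true :=
  ⟨(l 4), by decide +kernel⟩

theorem c_mm_023 : CertB 0 536870912 1073741824 536870912 536870912 50465866 3 eng mog cd4q0 cd4q2 pd3 true false false .up 0 2 3
    ndB4q0 ndB4q2 pcB3 Cut.none Ext.none :=
  certB0 (fam := true) (s1 := false) (s2 := false) (a := 0) (b := 2) (c := 3) (cn := .up) (n1 := ndB4q0) (n2 := ndB4q2) (pc := pcB3) (cut := Cut.none) (xt := Ext.none) (P1 := 0) (W1 := 536870912) (P2 := 1073741824) (W2 := 536870912) (P3 := 536870912) (W3 := 50465866) (N0 := 3) (En := eng) (mo := mog) (C1 := cd4q0) (C2 := cd4q2) (C3 := pd3)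
    rfl k0_mm_023

noncomputable def f_mm_033 : ℕ → ℕ → ℕ → ℕ → Bool := onCell 0 536870912 0 1230186008 536870912 50465866
    (rowB 3 eng mog cd4q0 cd4q3 pd3 0 true false false .pnn 0 3 3 (qsf 0 536870912 0 1230186008 3) ndB4q0 ndB4q3 pcB3 Cut.none Ext.none)

def k0_mm_033 : ∃ t, chk3 f_mm_033 t 1 1 1 = true :=
  ⟨(l 5), by decide +kernel⟩

theorem c_mm_033 : CertB 0 536870912 0 1230186008 536870912 50465866 3 eng mog cd4q0 cd4q3 pd3 true false false .pnn 0 3 3
    ndB4q0 ndB4q3 pcB3 Cut.none Ext.none :=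
  certB0 (fam := true) (s1 := false) (s2 := false) (a := 0) (b := 3) (c := 3) (cn := .pnn) (n1 := ndB4q0) (n2 := ndB4q3) (pc := pcB3) (cut := Cut.none) (xt := Ext.none) (P1 := 0) (W1 := 536870912) (P2 := 0) (W2 := 1230186008) (P3 := 536870912) (W3 := 50465866) (N0 := 3) (En := eng) (mo := mog) (C1 := cd4q0) (C2 := cd4q3) (C3 := pd3)
    rfl k0_mm_033

noncomputable def f_mm_101 : ℕ → ℕ → ℕ → ℕ → Bool := onCell 536870912 536870912 0 536870912 536870912 50465866
    (rowB 3 eng mog cd4q1 cd4q0 pd1 0 true false false .npn 1 0 1 (qsf 536870912 536870912 0 536870912 1) ndB4q1 ndB4q0 pcB1 Cut.none Ext.none)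

def k0_mm_101 : ∃ t, chk3 f_mm_101 t 1 1 1 = true :=
  ⟨(l 4), by decide +kernel⟩

theorem c_mm_101 : CertB 536870912 536870912 0 536870912 536870912 50465866 3 eng mog cd4q1 cd4q0 pd1 true false false .npn 1 0 1
    ndB4q1 ndB4q0 pcB1 Cut.none Ext.none :=
  certB0 (fam := true) (s1 := false) (s2 := false) (a := 1) (b := 0) (c := 1) (cn := .npn) (n1 := ndB4q1) (n2 := ndB4q0) (pc := pcB1) (cut := Cut.none) (xt := Ext.none) (P1 := 536870912) (W1 := 536870912) (P2 := 0) (W2 := 536870912) (P3 := 536870912) (W3 := 50465866) (N0 := 3) (En := eng) (mo := mog) (C1 := cd4q1) (C2 := cd4q0) (C3 := pd1)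
    rfl k0_mm_101

noncomputable def f_mm_102 : ℕ → ℕ → ℕ → ℕ → Bool := onCell 536870912 536870912 0 536870912 536870912 50465866
    (rowB 3 eng mog cd4q1 cd4q0 pd2 0 true false false .npp 1 0 2 (qsf 536870912 536870912 0 536870912 2) ndB4q1 ndB4q0 pcB2 Cut.none Ext.none)

def k0_mm_102 : ∃ t, chk3 f_mm_102 t 1 1 1 = true :=
  ⟨(l 4), by decide +kernel⟩

theorem c_mm_102 : CertB 536870912 536870912 0 536870912 536870912 50465866 3 eng mog cd4q1 cd4q0 pd2 true false false .npp 1 0 2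
    ndB4q1 ndB4q0 pcB2 Cut.none Ext.none :=
  certB0 (fam := true) (s1 := false) (s2 := false) (a := 1) (b := 0) (c := 2) (cn := .npp) (n1 := ndB4q1) (n2 := ndB4q0) (pc := pcB2) (cut := Cut.none) (xt := Ext.none) (P1 := 536870912) (W1 := 536870912) (P2 := 0) (W2 := 536870912) (P3 := 536870912) (W3 := 50465866) (N0 := 3) (En := eng) (mo := mog) (C1 := cd4q1) (C2 := cd4q0) (C3 := pd2)
    rfl k0_mm_102

noncomputable def f_mm_112 : ℕ → ℕ → ℕ → ℕ → Bool := onCell 536870912 536870912 536870912 536870912 536870912 50465866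
    (rowB 3 eng mog cd4q1 cd4q1 pd2 0 true false false .dn 1 1 2 (qsf 536870912 536870912 536870912 536870912 2) ndB4q1 ndB4q1 pcB2 Cut.none Ext.none)

def k0_mm_112 : ∃ t, chk3 f_mm_112 t 1 1 1 = true :=
  ⟨(l 4), by decide +kernel⟩

theorem c_mm_112 : CertB 536870912 536870912 536870912 536870912 536870912 50465866 3 eng mog cd4q1 cd4q1 pd2 true false false .dn 1 1 2
    ndB4q1 ndB4q1 pcB2 Cut.none Ext.none :=
  certB0 (fam := true) (s1 := false) (s2 := false) (a := 1) (b := 1) (c := 2) (cn := .dn) (n1 := ndB4q1) (n2 := ndB4q1) (pc := pcB2) (cut := Cut.none) (xt := Ext.none) (P1 := 536870912) (W1 := 536870912) (P2 := 536870912) (W2 := 536870912) (P3 := 536870912) (W3 := 50465866) (N0 := 3) (En := eng) (mo := mog) (C1 := cd4q1) (C2 := cd4q1) (C3 := pd2)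
    rfl k0_mm_112

noncomputable def f_mm_113 : ℕ → ℕ → ℕ → ℕ → Bool := onCell 536870912 536870912 536870912 536870912 536870912 50465866
    (rowB 3 eng mog cd4q1 cd4q1 pd3 0 true false false .nn 1 1 3 (qsf 536870912 536870912 536870912 536870912 3) ndB4q1 ndB4q1 pcB3 Cut.none Ext.none)

def k0_mm_113 : ∃ t, chk3 f_mm_113 t 1 1 1 = true :=
  ⟨(l 4), by decide +kernel⟩

theorem c_mm_113 : CertB 536870912 536870912 536870912 536870912 536870912 50465866 3 eng mog cd4q1 cd4q1 pd3 true false false .nn 1 1 3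
    ndB4q1 ndB4q1 pcB3 Cut.none Ext.none :=
  certB0 (fam := true) (s1 := false) (s2 := false) (a := 1) (b := 1) (c := 3) (cn := .nn) (n1 := ndB4q1) (n2 := ndB4q1) (pc := pcB3) (cut := Cut.none) (xt := Ext.none) (P1 := 536870912) (W1 := 536870912) (P2 := 536870912) (W2 := 536870912) (P3 := 536870912) (W3 := 50465866) (N0 := 3) (En := eng) (mo := mog) (C1 := cd4q1) (C2 := cd4q1) (C3 := pd3)
    rfl k0_mm_113

noncomputable def f_mm_123 : ℕ → ℕ → ℕ → ℕ → Bool := onCell 536870912 536870912 1073741824 536870912 536870912 50465866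
    (rowB 3 eng mog cd4q1 cd4q2 pd3 0 true false false .npn 1 2 3 (qsf 536870912 536870912 1073741824 536870912 3) ndB4q1 ndB4q2 pcB3 Cut.none Ext.none)

def k0_mm_123 : ∃ t, chk3 f_mm_123 t 1 1 1 = true :=
  ⟨(l 4), by decide +kernel⟩

theorem c_mm_123 : CertB 536870912 536870912 1073741824 536870912 536870912 50465866 3 eng mog cd4q1 cd4q2 pd3 true false false .npn 1 2 3
    ndB4q1 ndB4q2 pcB3 Cut.none Ext.none :=
  certB0 (fam := true) (s1 := false) (s2 := false) (a := 1) (b := 2) (c := 3) (cn := .npn) (n1 := ndB4q1) (n2 := ndB4q2) (pc := pcB3) (cut := Cut.none) (xt := Ext.none) (P1 := 536870912) (W1 := 536870912) (P2 := 1073741824) (W2 := 536870912) (P3 := 536870912) (W3 := 50465866) (N0 := 3) (En := eng) (mo := mog) (C1 := cd4q1) (C2 := cd4q2) (C3 := pd3)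
    rfl k0_mm_123

noncomputable def f_mm_133 : ℕ → ℕ → ℕ → ℕ → Bool := onCell 536870912 536870912 0 1230186008 536870912 50465866
    (rowB 3 eng mog cd4q1 cd4q3 pd3 0 true false false .dn 1 3 3 (qsf 536870912 536870912 0 1230186008 3) ndB4q1 ndB4q3 pcB3 Cut.none Ext.none)

def k0_mm_133 : ∃ t, chk3 f_mm_133 t 1 1 1 = true :=
  ⟨(l 4), by decide +kernel⟩

theorem c_mm_133 : CertB 536870912 536870912 0 1230186008 536870912 50465866 3 eng mog cd4q1 cd4q3 pd3 true false false .dn 1 3 3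
    ndB4q1 ndB4q3 pcB3 Cut.none Ext.none :=
  certB0 (fam := true) (s1 := false) (s2 := false) (a := 1) (b := 3) (c := 3) (cn := .dn) (n1 := ndB4q1) (n2 := ndB4q3) (pc := pcB3) (cut := Cut.none) (xt := Ext.none) (P1 := 536870912) (W1 := 536870912) (P2 := 0) (W2 := 1230186008) (P3 := 536870912) (W3 := 50465866) (N0 := 3) (En := eng) (mo := mog) (C1 := cd4q1) (C2 := cd4q3) (C3 := pd3)
    rfl k0_mm_133

noncomputable def f_mm_202 : ℕ → ℕ → ℕ → ℕ → Bool := onCell 1073741824 536870912 0 536870912 536870912 50465866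
    (rowB 3 eng mog cd4q2 cd4q0 pd2 0 true false false .pp 2 0 2 (qsf 1073741824 536870912 0 536870912 2) ndB4q2 ndB4q0 pcB2 Cut.none Ext.none)

def k0_mm_202 : ∃ t, chk3 f_mm_202 t 1 1 1 = true :=
  ⟨(l 4), by decide +kernel⟩

theorem c_mm_202 : CertB 1073741824 536870912 0 536870912 536870912 50465866 3 eng mog cd4q2 cd4q0 pd2 true false false .pp 2 0 2
    ndB4q2 ndB4q0 pcB2 Cut.none Ext.none :=
  certB0 (fam := true) (s1 := false) (s2 := false) (a := 2) (b := 0) (c := 2) (cn := .pp) (n1 := ndB4q2) (n2 := ndB4q0) (pc := pcB2) (cut := Cut.none) (xt := Ext.none) (P1 := 1073741824) (W1 := 536870912) (P2 := 0) (W2 := 536870912) (P3 := 536870912) (W3 := 50465866) (N0 := 3) (En := eng) (mo := mog) (C1 := cd4q2) (C2 := cd4q0) (C3 := pd2)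
    rfl k0_mm_202

noncomputable def f_mm_203 : ℕ → ℕ → ℕ → ℕ → Bool := onCell 1073741824 536870912 0 536870912 536870912 50465866
    (rowB 3 eng mog cd4q2 cd4q0 pd3 0 true false false .up 2 0 3 (qsf 1073741824 536870912 0 536870912 3) ndB4q2 ndB4q0 pcB3 Cut.none Ext.none)

def k0_mm_203 : ∃ t, chk3 f_mm_203 t 1 1 1 = true :=
  ⟨(l 4), by decide +kernel⟩

theorem c_mm_203 : CertB 1073741824 536870912 0 536870912 536870912 50465866 3 eng mog cd4q2 cd4q0 pd3 true false false .up 2 0 3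
    ndB4q2 ndB4q0 pcB3 Cut.none Ext.none :=
  certB0 (fam := true) (s1 := false) (s2 := false) (a := 2) (b := 0) (c := 3) (cn := .up) (n1 := ndB4q2) (n2 := ndB4q0) (pc := pcB3) (cut := Cut.none) (xt := Ext.none) (P1 := 1073741824) (W1 := 536870912) (P2 := 0) (W2 := 536870912) (P3 := 536870912) (W3 := 50465866) (N0 := 3) (En := eng) (mo := mog) (C1 := cd4q2) (C2 := cd4q0) (C3 := pd3)
    rfl k0_mm_203

noncomputable def f_mm_213 : ℕ → ℕ → ℕ → ℕ → Bool := onCell 1073741824 536870912 536870912 536870912 536870912 50465866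
    (rowB 3 eng mog cd4q2 cd4q1 pd3 0 true false false .pnn 2 1 3 (qsf 1073741824 536870912 536870912 536870912 3) ndB4q2 ndB4q1 pcB3 Cut.none Ext.none)

def k0_mm_213 : ∃ t, chk3 f_mm_213 t 1 1 1 = true :=
  ⟨(l 4), by decide +kernel⟩

theorem c_mm_213 : CertB 1073741824 536870912 536870912 536870912 536870912 50465866 3 eng mog cd4q2 cd4q1 pd3 true false false .pnn 2 1 3
    ndB4q2 ndB4q1 pcB3 Cut.none Ext.none :=
  certB0 (fam := true) (s1 := false) (s2 := false) (a := 2) (b := 1) (c := 3) (cn := .pnn) (n1 := ndB4q2) (n2 := ndB4q1) (pc := pcB3) (cut := Cut.none) (xt := Ext.none) (P1 := 1073741824) (W1 := 536870912) (P2 := 536870912) (W2 := 536870912) (P3 := 536870912) (W3 := 50465866) (N0 := 3) (En := eng) (mo := mog) (C1 := cd4q2) (C2 := cd4q1) (C3 := pd3)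
    rfl k0_mm_213

noncomputable def f_mm_303 : ℕ → ℕ → ℕ → ℕ → Bool := onCell 0 1230186008 0 536870912 536870912 50465866
    (rowB 3 eng mog cd4q3 cd4q0 pd3 0 true false false .npn 3 0 3 (qsf 0 1230186008 0 536870912 3) ndB4q3 ndB4q0 pcB3 Cut.none Ext.none)

def k0_mm_303 : ∃ t, chk3 f_mm_303 t 1 1 1 = true :=
  ⟨(a (l 4) (l 4)), by decide +kernel⟩

theorem c_mm_303 : CertB 0 1230186008 0 536870912 536870912 50465866 3 eng mog cd4q3 cd4q0 pd3 true false false .npn 3 0 3
    ndB4q3 ndB4q0 pcB3 Cut.none Ext.none :=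
  certB0 (fam := true) (s1 := false) (s2 := false) (a := 3) (b := 0) (c := 3) (cn := .npn) (n1 := ndB4q3) (n2 := ndB4q0) (pc := pcB3) (cut := Cut.none) (xt := Ext.none) (P1 := 0) (W1 := 1230186008) (P2 := 0) (W2 := 536870912) (P3 := 536870912) (W3 := 50465866) (N0 := 3) (En := eng) (mo := mog) (C1 := cd4q3) (C2 := cd4q0) (C3 := pd3)
    rfl k0_mm_303

noncomputable def f_mm_313 : ℕ → ℕ → ℕ → ℕ → Bool := onCell 0 1230186008 536870912 536870912 536870912 50465866
    (rowB 3 eng mog cd4q3 cd4q1 pd3 0 true false false .dn 3 1 3 (qsf 0 1230186008 536870912 536870912 3) ndB4q3 ndB4q1 pcB3 Cut.none Ext.none)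

def k0_mm_313 : ∃ t, chk3 f_mm_313 t 1 1 1 = true :=
  ⟨(l 4), by decide +kernel⟩

theorem c_mm_313 : CertB 0 1230186008 536870912 536870912 536870912 50465866 3 eng mog cd4q3 cd4q1 pd3 true false false .dn 3 1 3
    ndB4q3 ndB4q1 pcB3 Cut.none Ext.none :=
  certB0 (fam := true) (s1 := false) (s2 := false) (a := 3) (b := 1) (c := 3) (cn := .dn) (n1 := ndB4q3) (n2 := ndB4q1) (pc := pcB3) (cut := Cut.none) (xt := Ext.none) (P1 := 0) (W1 := 1230186008) (P2 := 536870912) (W2 := 536870912) (P3 := 536870912) (W3 := 50465866) (N0 := 3) (En := eng) (mo := mog) (C1 := cd4q3) (C2 := cd4q1) (C3 := pd3)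
    rfl k0_mm_313

end Pool.Agent.Strip051.G.I5000_5470.Tab.C.BA44

namespace Pool.Agent.Strip051.G.I5000_5470.Tab.C.BA45

open Pool.Agent.Strip051.PB Pool.Agent.Strip051.PB.T
open Pool.Agent.Strip051.G.I5000_5470.Tab

noncomputable def f_pp_001 : ℕ → ℕ → ℕ → ℕ → Bool := onCell 0 536870912 0 536870912 536870912 50465866
    (rowB 3 eng mog cd4q0 cd5q0 pd1 0 true true true .up 0 0 1 (qsf 0 536870912 0 536870912 1) ndB4q0 ndB5q0 pcB1 Cut.none Ext.none)

def k0_pp_001 : ∃ t, chk3 f_pp_001 t 1 1 1 = true :=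
  ⟨(l 4), by decide +kernel⟩

theorem c_pp_001 : CertB 0 536870912 0 536870912 536870912 50465866 3 eng mog cd4q0 cd5q0 pd1 true true true .up 0 0 1
    ndB4q0 ndB5q0 pcB1 Cut.none Ext.none :=
  certB0 (fam := true) (s1 := true) (s2 := true) (a := 0) (b := 0) (c := 1) (cn := .up) (n1 := ndB4q0) (n2 := ndB5q0) (pc := pcB1) (cut := Cut.none) (xt := Ext.none) (P1 := 0) (W1 := 536870912) (P2 := 0) (W2 := 536870912) (P3 := 536870912) (W3 := 50465866) (N0 := 3) (En := eng) (mo := mog) (C1 := cd4q0) (C2 := cd5q0) (C3 := pd1)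
    rfl k0_pp_001

noncomputable def f_pp_011 : ℕ → ℕ → ℕ → ℕ → Bool := onCell 0 536870912 536870912 536870912 536870912 50465866
    (rowB 3 eng mog cd4q0 cd5q1 pd1 0 true true true .pnn 0 1 1 (qsf 0 536870912 536870912 536870912 1) ndB4q0 ndB5q1 pcB1 Cut.none Ext.none)

def k0_pp_011 : ∃ t, chk3 f_pp_011 t 1 1 1 = true :=
  ⟨(l 4), by decide +kernel⟩

theorem c_pp_011 : CertB 0 536870912 536870912 536870912 536870912 50465866 3 eng mog cd4q0 cd5q1 pd1 true true true .pnn 0 1 1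
    ndB4q0 ndB5q1 pcB1 Cut.none Ext.none :=
  certB0 (fam := true) (s1 := true) (s2 := true) (a := 0) (b := 1) (c := 1) (cn := .pnn) (n1 := ndB4q0) (n2 := ndB5q1) (pc := pcB1) (cut := Cut.none) (xt := Ext.none) (P1 := 0) (W1 := 536870912) (P2 := 536870912) (W2 := 536870912) (P3 := 536870912) (W3 := 50465866) (N0 := 3) (En := eng) (mo := mog) (C1 := cd4q0) (C2 := cd5q1) (C3 := pd1)
    rfl k0_pp_011

noncomputable def f_pp_012 : ℕ → ℕ → ℕ → ℕ → Bool := onCell 0 536870912 536870912 536870912 536870912 50465866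
    (rowB 3 eng mog cd4q0 cd5q1 pd2 0 true true true .pnp 0 1 2 (qsf 0 536870912 536870912 536870912 2) ndB4q0 ndB5q1 pcB2 Cut.none Ext.none)

def k0_pp_012 : ∃ t, chk3 f_pp_012 t 1 1 1 = true :=
  ⟨(l 4), by decide +kernel⟩

theorem c_pp_012 : CertB 0 536870912 536870912 536870912 536870912 50465866 3 eng mog cd4q0 cd5q1 pd2 true true true .pnp 0 1 2
    ndB4q0 ndB5q1 pcB2 Cut.none Ext.none :=
  certB0 (fam := true) (s1 := true) (s2 := true) (a := 0) (b := 1) (c := 2) (cn := .pnp) (n1 := ndB4q0) (n2 := ndB5q1) (pc := pcB2) (cut := Cut.none) (xt := Ext.none) (P1 := 0) (W1 := 536870912) (P2 := 536870912) (W2 := 536870912) (P3 := 536870912) (W3 := 50465866) (N0 := 3) (En := eng) (mo := mog) (C1 := cd4q0) (C2 := cd5q1) (C3 := pd2)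
    rfl k0_pp_012

noncomputable def f_pp_022 : ℕ → ℕ → ℕ → ℕ → Bool := onCell 0 536870912 1073741824 536870912 536870912 50465866
    (rowB 3 eng mog cd4q0 cd5q2 pd2 0 true true true .pp 0 2 2 (qsf 0 536870912 1073741824 536870912 2) ndB4q0 ndB5q2 pcB2 Cut.none Ext.none)

def k0_pp_022 : ∃ t, chk3 f_pp_022 t 1 1 1 = true :=
  ⟨(l 4), by decide +kernel⟩

theorem c_pp_022 : CertB 0 536870912 1073741824 536870912 536870912 50465866 3 eng mog cd4q0 cd5q2 pd2 true true true .pp 0 2 2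
    ndB4q0 ndB5q2 pcB2 Cut.none Ext.none :=
  certB0 (fam := true) (s1 := true) (s2 := true) (a := 0) (b := 2) (c := 2) (cn := .pp) (n1 := ndB4q0) (n2 := ndB5q2) (pc := pcB2) (cut := Cut.none) (xt := Ext.none) (P1 := 0) (W1 := 536870912) (P2 := 1073741824) (W2 := 536870912) (P3 := 536870912) (W3 := 50465866) (N0 := 3) (En := eng) (mo := mog) (C1 := cd4q0) (C2 := cd5q2) (C3 := pd2)
    rfl k0_pp_022

noncomputable def f_pp_023 : ℕ → ℕ → ℕ → ℕ → Bool := onCell 0 536870912 1073741824 536870912 536870912 50465866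
    (rowB 3 eng mog cd4q0 cd5q2 pd3 0 true true true .up 0 2 3 (qsf 0 536870912 1073741824 536870912 3) ndB4q0 ndB5q2 pcB3 Cut.none Ext.none)

def k0_pp_023 : ∃ t, chk3 f_pp_023 t 1 1 1 = true :=
  ⟨(l 4), by decide +kernel⟩

theorem c_pp_023 : CertB 0 536870912 1073741824 536870912 536870912 50465866 3 eng mog cd4q0 cd5q2 pd3 true true true .up 0 2 3
    ndB4q0 ndB5q2 pcB3 Cut.none Ext.none :=
  certB0 (fam := true) (s1 := true) (s2 := true) (a := 0) (b := 2) (c := 3) (cn := .up) (n1 := ndB4q0) (n2 := ndB5q2) (pc := pcB3) (cut := Cut.none) (xt := Ext.none) (P1 := 0) (W1 := 536870912) (P2 := 1073741824) (W2 := 536870912) (P3 := 536870912) (W3 := 50465866) (N0 := 3) (En := eng) (mo := mog) (C1 := cd4q0) (C2 := cd5q2) (C3 := pd3)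
    rfl k0_pp_023

noncomputable def f_pp_033 : ℕ → ℕ → ℕ → ℕ → Bool := onCell 0 536870912 0 1230186008 536870912 50465866
    (rowB 3 eng mog cd4q0 cd5q3 pd3 0 true true true .pnn 0 3 3 (qsf 0 536870912 0 1230186008 3) ndB4q0 ndB5q3 pcB3 Cut.none Ext.none)

def k0_pp_033 : ∃ t, chk3 f_pp_033 t 1 1 1 = true :=
  ⟨(l 4), by decide +kernel⟩

theorem c_pp_033 : CertB 0 536870912 0 1230186008 536870912 50465866 3 eng mog cd4q0 cd5q3 pd3 true true true .pnn 0 3 3
    ndB4q0 ndB5q3 pcB3 Cut.none Ext.none :=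
  certB0 (fam := true) (s1 := true) (s2 := true) (a := 0) (b := 3) (c := 3) (cn := .pnn) (n1 := ndB4q0) (n2 := ndB5q3) (pc := pcB3) (cut := Cut.none) (xt := Ext.none) (P1 := 0) (W1 := 536870912) (P2 := 0) (W2 := 1230186008) (P3 := 536870912) (W3 := 50465866) (N0 := 3) (En := eng) (mo := mog) (C1 := cd4q0) (C2 := cd5q3) (C3 := pd3)
    rfl k0_pp_033

noncomputable def f_pp_101 : ℕ → ℕ → ℕ → ℕ → Bool := onCell 536870912 536870912 0 536870912 536870912 50465866
    (rowB 3 eng mog cd4q1 cd5q0 pd1 0 true true true .npn 1 0 1 (qsf 536870912 536870912 0 536870912 1) ndB4q1 ndB5q0 pcB1 Cut.none Ext.none)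

def k0_pp_101 : ∃ t, chk3 f_pp_101 t 1 1 1 = true :=
  ⟨(l 4), by decide +kernel⟩

theorem c_pp_101 : CertB 536870912 536870912 0 536870912 536870912 50465866 3 eng mog cd4q1 cd5q0 pd1 true true true .npn 1 0 1
    ndB4q1 ndB5q0 pcB1 Cut.none Ext.none :=
  certB0 (fam := true) (s1 := true) (s2 := true) (a := 1) (b := 0) (c := 1) (cn := .npn) (n1 := ndB4q1) (n2 := ndB5q0) (pc := pcB1) (cut := Cut.none) (xt := Ext.none) (P1 := 536870912) (W1 := 536870912) (P2 := 0) (W2 := 536870912) (P3 := 536870912) (W3 := 50465866) (N0 := 3) (En := eng) (mo := mog) (C1 := cd4q1) (C2 := cd5q0) (C3 := pd1)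
    rfl k0_pp_101

noncomputable def f_pp_102 : ℕ → ℕ → ℕ → ℕ → Bool := onCell 536870912 536870912 0 536870912 536870912 50465866
    (rowB 3 eng mog cd4q1 cd5q0 pd2 0 true true true .npp 1 0 2 (qsf 536870912 536870912 0 536870912 2) ndB4q1 ndB5q0 pcB2 Cut.none Ext.none)

def k0_pp_102 : ∃ t, chk3 f_pp_102 t 1 1 1 = true :=
  ⟨(l 4), by decide +kernel⟩

theorem c_pp_102 : CertB 536870912 536870912 0 536870912 536870912 50465866 3 eng mog cd4q1 cd5q0 pd2 true true true .npp 1 0 2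
    ndB4q1 ndB5q0 pcB2 Cut.none Ext.none :=
  certB0 (fam := true) (s1 := true) (s2 := true) (a := 1) (b := 0) (c := 2) (cn := .npp) (n1 := ndB4q1) (n2 := ndB5q0) (pc := pcB2) (cut := Cut.none) (xt := Ext.none) (P1 := 536870912) (W1 := 536870912) (P2 := 0) (W2 := 536870912) (P3 := 536870912) (W3 := 50465866) (N0 := 3) (En := eng) (mo := mog) (C1 := cd4q1) (C2 := cd5q0) (C3 := pd2)
    rfl k0_pp_102

noncomputable def f_pp_112 : ℕ → ℕ → ℕ → ℕ → Bool := onCell 536870912 536870912 536870912 536870912 536870912 50465866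
    (rowB 3 eng mog cd4q1 cd5q1 pd2 0 true true true .dn 1 1 2 (qsf 536870912 536870912 536870912 536870912 2) ndB4q1 ndB5q1 pcB2 Cut.none Ext.none)

def k0_pp_112 : ∃ t, chk3 f_pp_112 t 1 1 1 = true :=
  ⟨(l 4), by decide +kernel⟩

theorem c_pp_112 : CertB 536870912 536870912 536870912 536870912 536870912 50465866 3 eng mog cd4q1 cd5q1 pd2 true true true .dn 1 1 2
    ndB4q1 ndB5q1 pcB2 Cut.none Ext.none :=
  certB0 (fam := true) (s1 := true) (s2 := true) (a := 1) (b := 1) (c := 2) (cn := .dn) (n1 := ndB4q1) (n2 := ndB5q1) (pc := pcB2) (cut := Cut.none) (xt := Ext.none) (P1 := 536870912) (W1 := 536870912) (P2 := 536870912) (W2 := 536870912) (P3 := 536870912) (W3 := 50465866) (N0 := 3) (En := eng) (mo := mog) (C1 := cd4q1) (C2 := cd5q1) (C3 := pd2)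
    rfl k0_pp_112

noncomputable def f_pp_113 : ℕ → ℕ → ℕ → ℕ → Bool := onCell 536870912 536870912 536870912 536870912 536870912 50465866
    (rowB 3 eng mog cd4q1 cd5q1 pd3 0 true true true .nn 1 1 3 (qsf 536870912 536870912 536870912 536870912 3) ndB4q1 ndB5q1 pcB3 Cut.none Ext.none)

def k0_pp_113 : ∃ t, chk3 f_pp_113 t 1 1 1 = true :=
  ⟨(l 4), by decide +kernel⟩

theorem c_pp_113 : CertB 536870912 536870912 536870912 536870912 536870912 50465866 3 eng mog cd4q1 cd5q1 pd3 true true true .nn 1 1 3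
    ndB4q1 ndB5q1 pcB3 Cut.none Ext.none :=
  certB0 (fam := true) (s1 := true) (s2 := true) (a := 1) (b := 1) (c := 3) (cn := .nn) (n1 := ndB4q1) (n2 := ndB5q1) (pc := pcB3) (cut := Cut.none) (xt := Ext.none) (P1 := 536870912) (W1 := 536870912) (P2 := 536870912) (W2 := 536870912) (P3 := 536870912) (W3 := 50465866) (N0 := 3) (En := eng) (mo := mog) (C1 := cd4q1) (C2 := cd5q1) (C3 := pd3)
    rfl k0_pp_113

noncomputable def f_pp_123 : ℕ → ℕ → ℕ → ℕ → Bool := onCell 536870912 536870912 1073741824 536870912 536870912 50465866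
    (rowB 3 eng mog cd4q1 cd5q2 pd3 0 true true true .npn 1 2 3 (qsf 536870912 536870912 1073741824 536870912 3) ndB4q1 ndB5q2 pcB3 Cut.none Ext.none)

def k0_pp_123 : ∃ t, chk3 f_pp_123 t 1 1 1 = true :=
  ⟨(l 4), by decide +kernel⟩

theorem c_pp_123 : CertB 536870912 536870912 1073741824 536870912 536870912 50465866 3 eng mog cd4q1 cd5q2 pd3 true true true .npn 1 2 3
    ndB4q1 ndB5q2 pcB3 Cut.none Ext.none :=
  certB0 (fam := true) (s1 := true) (s2 := true) (a := 1) (b := 2) (c := 3) (cn := .npn) (n1 := ndB4q1) (n2 := ndB5q2) (pc := pcB3) (cut := Cut.none) (xt := Ext.none) (P1 := 536870912) (W1 := 536870912) (P2 := 1073741824) (W2 := 536870912) (P3 := 536870912) (W3 := 50465866) (N0 := 3) (En := eng) (mo := mog) (C1 := cd4q1) (C2 := cd5q2) (C3 := pd3)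
    rfl k0_pp_123

noncomputable def f_pp_133 : ℕ → ℕ → ℕ → ℕ → Bool := onCell 536870912 536870912 0 1230186008 536870912 50465866
    (rowB 3 eng mog cd4q1 cd5q3 pd3 0 true true true .dn 1 3 3 (qsf 536870912 536870912 0 1230186008 3) ndB4q1 ndB5q3 pcB3 Cut.none Ext.none)

def k0_pp_133 : ∃ t, chk3 f_pp_133 t 1 1 1 = true :=
  ⟨(l 4), by decide +kernel⟩

theorem c_pp_133 : CertB 536870912 536870912 0 1230186008 536870912 50465866 3 eng mog cd4q1 cd5q3 pd3 true true true .dn 1 3 3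
    ndB4q1 ndB5q3 pcB3 Cut.none Ext.none :=
  certB0 (fam := true) (s1 := true) (s2 := true) (a := 1) (b := 3) (c := 3) (cn := .dn) (n1 := ndB4q1) (n2 := ndB5q3) (pc := pcB3) (cut := Cut.none) (xt := Ext.none) (P1 := 536870912) (W1 := 536870912) (P2 := 0) (W2 := 1230186008) (P3 := 536870912) (W3 := 50465866) (N0 := 3) (En := eng) (mo := mog) (C1 := cd4q1) (C2 := cd5q3) (C3 := pd3)
    rfl k0_pp_133

noncomputable def f_pp_202 : ℕ → ℕ → ℕ → ℕ → Bool := onCell 1073741824 536870912 0 536870912 536870912 50465866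
    (rowB 3 eng mog cd4q2 cd5q0 pd2 0 true true true .pp 2 0 2 (qsf 1073741824 536870912 0 536870912 2) ndB4q2 ndB5q0 pcB2 Cut.none Ext.none)

def k0_pp_202 : ∃ t, chk3 f_pp_202 t 1 1 1 = true :=
  ⟨(l 4), by decide +kernel⟩

theorem c_pp_202 : CertB 1073741824 536870912 0 536870912 536870912 50465866 3 eng mog cd4q2 cd5q0 pd2 true true true .pp 2 0 2
    ndB4q2 ndB5q0 pcB2 Cut.none Ext.none :=
  certB0 (fam := true) (s1 := true) (s2 := true) (a := 2) (b := 0) (c := 2) (cn := .pp) (n1 := ndB4q2) (n2 := ndB5q0) (pc := pcB2) (cut := Cut.none) (xt := Ext.none) (P1 := 1073741824) (W1 := 536870912) (P2 := 0) (W2 := 536870912) (P3 := 536870912) (W3 := 50465866) (N0 := 3) (En := eng) (mo := mog) (C1 := cd4q2) (C2 := cd5q0) (C3 := pd2)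
    rfl k0_pp_202

noncomputable def f_pp_203 : ℕ → ℕ → ℕ → ℕ → Bool := onCell 1073741824 536870912 0 536870912 536870912 50465866
    (rowB 3 eng mog cd4q2 cd5q0 pd3 0 true true true .up 2 0 3 (qsf 1073741824 536870912 0 536870912 3) ndB4q2 ndB5q0 pcB3 Cut.none Ext.none)

def k0_pp_203 : ∃ t, chk3 f_pp_203 t 1 1 1 = true :=
  ⟨(l 4), by decide +kernel⟩

theorem c_pp_203 : CertB 1073741824 536870912 0 536870912 536870912 50465866 3 eng mog cd4q2 cd5q0 pd3 true true true .up 2 0 3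
    ndB4q2 ndB5q0 pcB3 Cut.none Ext.none :=
  certB0 (fam := true) (s1 := true) (s2 := true) (a := 2) (b := 0) (c := 3) (cn := .up) (n1 := ndB4q2) (n2 := ndB5q0) (pc := pcB3) (cut := Cut.none) (xt := Ext.none) (P1 := 1073741824) (W1 := 536870912) (P2 := 0) (W2 := 536870912) (P3 := 536870912) (W3 := 50465866) (N0 := 3) (En := eng) (mo := mog) (C1 := cd4q2) (C2 := cd5q0) (C3 := pd3)
    rfl k0_pp_203

noncomputable def f_pp_213 : ℕ → ℕ → ℕ → ℕ → Bool := onCell 1073741824 536870912 536870912 536870912 536870912 50465866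
    (rowB 3 eng mog cd4q2 cd5q1 pd3 0 true true true .pnn 2 1 3 (qsf 1073741824 536870912 536870912 536870912 3) ndB4q2 ndB5q1 pcB3 Cut.none Ext.none)

def k0_pp_213 : ∃ t, chk3 f_pp_213 t 1 1 1 = true :=
  ⟨(l 4), by decide +kernel⟩

theorem c_pp_213 : CertB 1073741824 536870912 536870912 536870912 536870912 50465866 3 eng mog cd4q2 cd5q1 pd3 true true true .pnn 2 1 3
    ndB4q2 ndB5q1 pcB3 Cut.none Ext.none :=
  certB0 (fam := true) (s1 := true) (s2 := true) (a := 2) (b := 1) (c := 3) (cn := .pnn) (n1 := ndB4q2) (n2 := ndB5q1) (pc := pcB3) (cut := Cut.none) (xt := Ext.none) (P1 := 1073741824) (W1 := 536870912) (P2 := 536870912) (W2 := 536870912) (P3 := 536870912) (W3 := 50465866) (N0 := 3) (En := eng) (mo := mog) (C1 := cd4q2) (C2 := cd5q1) (C3 := pd3)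
    rfl k0_pp_213

noncomputable def f_pp_303 : ℕ → ℕ → ℕ → ℕ → Bool := onCell 0 1230186008 0 536870912 536870912 50465866
    (rowB 3 eng mog cd4q3 cd5q0 pd3 0 true true true .npn 3 0 3 (qsf 0 1230186008 0 536870912 3) ndB4q3 ndB5q0 pcB3 Cut.none Ext.none)

def k0_pp_303 : ∃ t, chk3 f_pp_303 t 1 1 1 = true :=
  ⟨(l 4), by decide +kernel⟩

theorem c_pp_303 : CertB 0 1230186008 0 536870912 536870912 50465866 3 eng mog cd4q3 cd5q0 pd3 true true true .npn 3 0 3
    ndB4q3 ndB5q0 pcB3 Cut.none Ext.none :=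
  certB0 (fam := true) (s1 := true) (s2 := true) (a := 3) (b := 0) (c := 3) (cn := .npn) (n1 := ndB4q3) (n2 := ndB5q0) (pc := pcB3) (cut := Cut.none) (xt := Ext.none) (P1 := 0) (W1 := 1230186008) (P2 := 0) (W2 := 536870912) (P3 := 536870912) (W3 := 50465866) (N0 := 3) (En := eng) (mo := mog) (C1 := cd4q3) (C2 := cd5q0) (C3 := pd3)
    rfl k0_pp_303

noncomputable def f_pp_313 : ℕ → ℕ → ℕ → ℕ → Bool := onCell 0 1230186008 536870912 536870912 536870912 50465866
    (rowB 3 eng mog cd4q3 cd5q1 pd3 0 true true true .dn 3 1 3 (qsf 0 1230186008 536870912 536870912 3) ndB4q3 ndB5q1 pcB3 Cut.none Ext.none)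

def k0_pp_313 : ∃ t, chk3 f_pp_313 t 1 1 1 = true :=
  ⟨(l 4), by decide +kernel⟩

theorem c_pp_313 : CertB 0 1230186008 536870912 536870912 536870912 50465866 3 eng mog cd4q3 cd5q1 pd3 true true true .dn 3 1 3
    ndB4q3 ndB5q1 pcB3 Cut.none Ext.none :=
  certB0 (fam := true) (s1 := true) (s2 := true) (a := 3) (b := 1) (c := 3) (cn := .dn) (n1 := ndB4q3) (n2 := ndB5q1) (pc := pcB3) (cut := Cut.none) (xt := Ext.none) (P1 := 0) (W1 := 1230186008) (P2 := 536870912) (W2 := 536870912) (P3 := 536870912) (W3 := 50465866) (N0 := 3) (En := eng) (mo := mog) (C1 := cd4q3) (C2 := cd5q1) (C3 := pd3)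
    rfl k0_pp_313

noncomputable def f_pm_001 : ℕ → ℕ → ℕ → ℕ → Bool := onCell 0 536870912 0 536870912 536870912 50465866
    (rowB 3 eng mog cd4q0 cd5q0 pd1 0 true true false .up 0 0 1 (qsf 0 536870912 0 536870912 1) ndB4q0 ndB5q0 pcB1 Cut.none Ext.none)

def k0_pm_001 : ∃ t, chk3 f_pm_001 t 1 1 1 = true :=
  ⟨(l 3), by decide +kernel⟩

theorem c_pm_001 : CertB 0 536870912 0 536870912 536870912 50465866 3 eng mog cd4q0 cd5q0 pd1 true true false .up 0 0 1
    ndB4q0 ndB5q0 pcB1 Cut.none Ext.none :=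
  certB0 (fam := true) (s1 := true) (s2 := false) (a := 0) (b := 0) (c := 1) (cn := .up) (n1 := ndB4q0) (n2 := ndB5q0) (pc := pcB1) (cut := Cut.none) (xt := Ext.none) (P1 := 0) (W1 := 536870912) (P2 := 0) (W2 := 536870912) (P3 := 536870912) (W3 := 50465866) (N0 := 3) (En := eng) (mo := mog) (C1 := cd4q0) (C2 := cd5q0) (C3 := pd1)
    rfl k0_pm_001

noncomputable def f_pm_011 : ℕ → ℕ → ℕ → ℕ → Bool := onCell 0 536870912 536870912 536870912 536870912 50465866
    (rowB 3 eng mog cd4q0 cd5q1 pd1 1 true true false .pnn 0 1 1 (qsf 0 536870912 536870912 536870912 1) ndB4q0 ndB5q1 pcB1 Cut.none Ext.none)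

def k0_pm_011 : ∃ t, chk3 f_pm_011 t 1 1 1 = true :=
  ⟨(l 3), by decide +kernel⟩

theorem c_pm_011 : CertB 0 536870912 536870912 536870912 536870912 50465866 3 eng mog cd4q0 cd5q1 pd1 true true false .pnn 0 1 1
    ndB4q0 ndB5q1 pcB1 Cut.none Ext.none :=
  certB1 (fam := true) (s1 := true) (s2 := false) (a := 0) (b := 1) (c := 1) (cn := .pnn) (n1 := ndB4q0) (n2 := ndB5q1) (pc := pcB1) (cut := Cut.none) (xt := Ext.none) (P1 := 0) (W1 := 536870912) (P2 := 536870912) (W2 := 536870912) (P3 := 536870912) (W3 := 50465866) (N0 := 3) (En := eng) (mo := mog) (C1 := cd4q0) (C2 := cd5q1) (C3 := pd1)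
    rfl (fun _ => rfl) k0_pm_011

noncomputable def f_pm_012 : ℕ → ℕ → ℕ → ℕ → Bool := onCell 0 536870912 1073741824 536870912 536870912 50465866
    (rowB 3 eng mog cd4q0 cd5q1 pd2 1 true true false .pnp 0 1 2 (qsf 0 536870912 536870912 536870912 2) ndB4q0 ndB5q1 pcB2 Cut.none Ext.none)

def k0_pm_012 : ∃ t, chk3 f_pm_012 t 1 1 1 = true :=
  ⟨(a (a (b (b (b (l 3) (b (l 3) (a (l 2) (l 3)))) (b (b (b (a (l 2) (a (l 2) (l 16480352))) (l 2)) (l 2)) (l 2))) (l 2)) (b (b (l 3) (b (b (b (a (l 16520568) (l 3)) (b (a (l 16498904) (l 16544736)) (b (a (l 16488872) (l 16537640)) (a (l 16482384) (l 16533272))))) (a (l 16451216) (l 16510024))) (a (a (l 2) (l 16385368)) (l 16442728)))) (b (a (l 2) (b (l 16345296) (l 2))) (l 2)))) (b (b (l 3) (a (b (b (b (l 3) (b (l 16606576) (b (l 16603048) (b (l 16601912) (l 16600552))))) (l 16589904)) (a (l 16512464) (l 16596512))) (b (b (b (l 3) (b (a (l 16661072) (l 16685728)) (b (a (l 16660824) (l 16686896)) (a (b (l 16661408)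 (l 16661208)) (b (l 16688040) (l 16688376)))))) (a (l 16660768) (l 16692744))) (a (l 16662672) (l 16710960))))) (a (a (b (l 16402584) (l 2)) (b (l 16553760) (l 16480064))) (a (b (l 16680888) (l 16723344)) (b (l 16776952) (l 16928368)))))), by decide +kernel⟩

theorem c_pm_012 : CertB 0 536870912 536870912 536870912 536870912 50465866 3 eng mog cd4q0 cd5q1 pd2 true true false .pnp 0 1 2
    ndB4q0 ndB5q1 pcB2 Cut.none Ext.none :=
  certB1 (fam := true) (s1 := true) (s2 := false) (a := 0) (b := 1) (c := 2) (cn := .pnp) (n1 := ndB4q0) (n2 := ndB5q1) (pc := pcB2) (cut := Cut.none) (xt := Ext.none) (P1 := 0) (W1 := 536870912) (P2 := 536870912) (W2 := 536870912) (P3 := 536870912) (W3 := 50465866) (N0 := 3) (En := eng) (mo := mog) (C1 := cd4q0) (C2 := cd5q1) (C3 := pd2)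
    rfl (fun _ => rfl) k0_pm_012

noncomputable def f_pm_022 : ℕ → ℕ → ℕ → ℕ → Bool := onCell 0 536870912 1073741824 536870912 536870912 50465866
    (rowB 3 eng mog cd4q0 cd5q2 pd2 1 true true false .pp 0 2 2 (qsf 0 536870912 1073741824 536870912 2) ndB4q0 ndB5q2 pcB2 Cut.none Ext.none)

def k0_pm_022 : ∃ t, chk3 f_pm_022 t 1 1 1 = true :=
  ⟨(a (b (b (l 3) (b (b (b (a (l 3) (a (l 3) (l 1))) (b (a (a (l 16588632) (l 16583056)) (a (l 16582656) (l 1))) (a (b (a (l 16583576) (l 16579248)) (a (b (l 16580952) (l 16579288)) (b (l 16577168) (l 16575952)))) (a (b (l 16579240) (b (l 16577080) (l 16576288))) (l 1))))) (a (a (l 16564928) (l 16565400)) (a (l 16567544) (l 16576184)))) (a (a (b (l 16536680) (l 16504920)) (l 16535176)) (a (l 16543392) (l 16551688))))) (b (a (b (a (l 16445168) (l 16491232)) (l 16391936)) (b (l 16514888) (l 16482992))) (a (b (l 16275616) (l 16138688)) (b (l 16449952) (l 16420776))))) (b (b (l 1) (a (b (l 1) (a (l 16578752) (l 1)))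 (l 1))) (a (b (b (l 16592128) (l 16564176)) (b (l 16547544) (l 16551976))) (b (a (l 521872671879) (l 1)) (a (l 16778648) (l 17045072)))))), by decide +kernel⟩

theorem c_pm_022 : CertB 0 536870912 1073741824 536870912 536870912 50465866 3 eng mog cd4q0 cd5q2 pd2 true true false .pp 0 2 2
    ndB4q0 ndB5q2 pcB2 Cut.none Ext.none :=
  certB1 (fam := true) (s1 := true) (s2 := false) (a := 0) (b := 2) (c := 2) (cn := .pp) (n1 := ndB4q0) (n2 := ndB5q2) (pc := pcB2) (cut := Cut.none) (xt := Ext.none) (P1 := 0) (W1 := 536870912) (P2 := 1073741824) (W2 := 536870912) (P3 := 536870912) (W3 := 50465866) (N0 := 3) (En := eng) (mo := mog) (C1 := cd4q0) (C2 := cd5q2) (C3 := pd2)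
    rfl (fun _ => rfl) k0_pm_022

noncomputable def f_pm_023 : ℕ → ℕ → ℕ → ℕ → Bool := onCell 0 536870912 1610612736 536870912 536870912 50465866
    (rowB 3 eng mog cd4q0 cd5q2 pd3 1 true true false .up 0 2 3 (qsf 0 536870912 1073741824 536870912 3) ndB4q0 ndB5q2 pcB3 Cut.none Ext.none)

def k0_pm_023 : ∃ t, chk3 f_pm_023 t 1 1 1 = true :=
  ⟨(a (b (b (b (a (l 16180232) (l 16358440)) (a (l 16423872) (l 16346648))) (a (l 562203693783) (l 16570800))) (b (b (l 16716144) (l 2)) (l 2))) (b (b (a (b (l 16541688) (l 16536336)) (a (b (l 16774376) (l 16778784)) (l 17006784))) (a (b (l 16562608) (l 16631040)) (a (l 16778384) (l 16922008)))) (b (a (l 16754976) (b (l 16783936) (l 16748600))) (b (a (l 16777344) (l 16765224)) (l 4))))), by decide +kernel⟩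

theorem c_pm_023 : CertB 0 536870912 1073741824 536870912 536870912 50465866 3 eng mog cd4q0 cd5q2 pd3 true true false .up 0 2 3
    ndB4q0 ndB5q2 pcB3 Cut.none Ext.none :=
  certB1 (fam := true) (s1 := true) (s2 := false) (a := 0) (b := 2) (c := 3) (cn := .up) (n1 := ndB4q0) (n2 := ndB5q2) (pc := pcB3) (cut := Cut.none) (xt := Ext.none) (P1 := 0) (W1 := 536870912) (P2 := 1073741824) (W2 := 536870912) (P3 := 536870912) (W3 := 50465866) (N0 := 3) (En := eng) (mo := mog) (C1 := cd4q0) (C2 := cd5q2) (C3 := pd3)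
    rfl (fun _ => rfl) k0_pm_023

noncomputable def f_pm_033 : ℕ → ℕ → ℕ → ℕ → Bool := onCell 1610612736 536870912 0 1230186008 536870912 50465866
    (rowB 3 eng mog cd4q0 cd5q3 pd3 2 true true false .pnn 0 3 3 (qsf 0 536870912 0 1230186008 3) ndB4q0 ndB5q3 pcB3 Cut.none Ext.none)

def k0_pm_033 : ∃ t, chk3 f_pm_033 t 1 1 1 = true :=
  ⟨(b (a (l 1) (a (l 1) (b (l 4) (l 4)))) (b (a (b (l 1) (a (l 1) (a (l 1) (l 1051227249655)))) (a (a (b (l 1) (l 16766736)) (l 612603285367)) (a (l 4) (l 4)))) (a (a (b (l 1) (a (b (l 1) (l 16342368)) (l 16589328))) (b (a (l 16724832) (l 16692840)) (l 16733392))) (b (a (a (l 16735952) (l 16770176)) (a (l 16783952) (l 4))) (a (a (l 16700072) (l 16749872)) (a (b (l 16780056) (l 16805072)) (l 4))))))), by decide +kernel⟩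

theorem c_pm_033 : CertB 0 536870912 0 1230186008 536870912 50465866 3 eng mog cd4q0 cd5q3 pd3 true true false .pnn 0 3 3
    ndB4q0 ndB5q3 pcB3 Cut.none Ext.none :=
  certB2 (fam := true) (s1 := true) (s2 := false) (a := 0) (b := 3) (c := 3) (cn := .pnn) (n1 := ndB4q0) (n2 := ndB5q3) (pc := pcB3) (cut := Cut.none) (xt := Ext.none) (P1 := 0) (W1 := 536870912) (P2 := 0) (W2 := 1230186008) (P3 := 536870912) (W3 := 50465866) (N0 := 3) (En := eng) (mo := mog) (C1 := cd4q0) (C2 := cd5q3) (C3 := pd3)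
    rfl (fun _ => rfl) k0_pm_033

noncomputable def f_pm_101 : ℕ → ℕ → ℕ → ℕ → Bool := onCell 536870912 536870912 0 536870912 536870912 50465866
    (rowB 3 eng mog cd4q1 cd5q0 pd1 2 true true false .npn 1 0 1 (qsf 536870912 536870912 0 536870912 1) ndB4q1 ndB5q0 pcB1 Cut.none Ext.none)

def k0_pm_101 : ∃ t, chk3 f_pm_101 t 1 1 1 = true :=
  ⟨(l 3), by decide +kernel⟩

theorem c_pm_101 : CertB 536870912 536870912 0 536870912 536870912 50465866 3 eng mog cd4q1 cd5q0 pd1 true true false .npn 1 0 1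
    ndB4q1 ndB5q0 pcB1 Cut.none Ext.none :=
  certB2 (fam := true) (s1 := true) (s2 := false) (a := 1) (b := 0) (c := 1) (cn := .npn) (n1 := ndB4q1) (n2 := ndB5q0) (pc := pcB1) (cut := Cut.none) (xt := Ext.none) (P1 := 536870912) (W1 := 536870912) (P2 := 0) (W2 := 536870912) (P3 := 536870912) (W3 := 50465866) (N0 := 3) (En := eng) (mo := mog) (C1 := cd4q1) (C2 := cd5q0) (C3 := pd1)
    rfl (fun _ => rfl) k0_pm_101

noncomputable def f_pm_102 : ℕ → ℕ → ℕ → ℕ → Bool := onCell 1073741824 536870912 0 536870912 536870912 50465866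
    (rowB 3 eng mog cd4q1 cd5q0 pd2 2 true true false .npp 1 0 2 (qsf 536870912 536870912 0 536870912 2) ndB4q1 ndB5q0 pcB2 Cut.none Ext.none)

def k0_pm_102 : ∃ t, chk3 f_pm_102 t 1 1 1 = true :=
  ⟨(a (a (l 3) (a (a (a (l 3) (b (a (l 3) (b (l 2) (a (l 16628072) (a (l 16625992) (l 16645776))))) (a (l 3) (b (a (l 16686928) (a (l 16686696) (l 16686776))) (a (l 16715328) (a (l 16716504) (l 16717464))))))) (b (b (l 2) (l 189079184327)) (b (l 16687392) (l 16726256)))) (b (b (l 2) (l 188542364935)) (b (l 16689304) (l 16757464))))) (b (a (b (l 2) (b (l 2) (l 16558568))) (l 2)) (b (a (b (l 16636624) (l 16740408)) (l 16679960)) (a (l 16852128) (l 17050080))))), by decide +kernel⟩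

theorem c_pm_102 : CertB 536870912 536870912 0 536870912 536870912 50465866 3 eng mog cd4q1 cd5q0 pd2 true true false .npp 1 0 2
    ndB4q1 ndB5q0 pcB2 Cut.none Ext.none :=
  certB2 (fam := true) (s1 := true) (s2 := false) (a := 1) (b := 0) (c := 2) (cn := .npp) (n1 := ndB4q1) (n2 := ndB5q0) (pc := pcB2) (cut := Cut.none) (xt := Ext.none) (P1 := 536870912) (W1 := 536870912) (P2 := 0) (W2 := 536870912) (P3 := 536870912) (W3 := 50465866) (N0 := 3) (En := eng) (mo := mog) (C1 := cd4q1) (C2 := cd5q0) (C3 := pd2)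
    rfl (fun _ => rfl) k0_pm_102

noncomputable def f_pm_112 : ℕ → ℕ → ℕ → ℕ → Bool := onCell 536870912 536870912 1073741824 536870912 536870912 50465866
    (rowB 3 eng mog cd4q1 cd5q1 pd2 1 true true false .dn 1 1 2 (qsf 536870912 536870912 536870912 536870912 2) ndB4q1 ndB5q1 pcB2 Cut.none Ext.none)

def k0_pm_112 : ∃ t, chk3 f_pm_112 t 1 1 1 = true :=
  ⟨(a (b (b (l 3) (a (b (b (b (l 3) (b (l 3) (b (a (l 16707736) (l 16718864)) (a (l 16709720) (l 16721176))))) (a (l 16718064) (l 16732096))) (a (l 16750488) (l 16772768))) (b (b (b (l 3) (b (l 3) (b (l 16717960) (a (l 16722216) (l 1))))) (l 16732576)) (l 16778520)))) (a (a (l 16982368) (l 17071728)) (l 17139792))) (b (b (l 1) (b (l 1) (l 16765824))) (b (l 16855440) (l 17298040)))), by decide +kernel⟩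

theorem c_pm_112 : CertB 536870912 536870912 536870912 536870912 536870912 50465866 3 eng mog cd4q1 cd5q1 pd2 true true false .dn 1 1 2
    ndB4q1 ndB5q1 pcB2 Cut.none Ext.none :=
  certB1 (fam := true) (s1 := true) (s2 := false) (a := 1) (b := 1) (c := 2) (cn := .dn) (n1 := ndB4q1) (n2 := ndB5q1) (pc := pcB2) (cut := Cut.none) (xt := Ext.none) (P1 := 536870912) (W1 := 536870912) (P2 := 536870912) (W2 := 536870912) (P3 := 536870912) (W3 := 50465866) (N0 := 3) (En := eng) (mo := mog) (C1 := cd4q1) (C2 := cd5q1) (C3 := pd2)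
    rfl (fun _ => rfl) k0_pm_112

noncomputable def f_pm_113 : ℕ → ℕ → ℕ → ℕ → Bool := onCell 536870912 536870912 1610612736 536870912 536870912 50465866
    (rowB 3 eng mog cd4q1 cd5q1 pd3 1 true true false .nn 1 1 3 (qsf 536870912 536870912 536870912 536870912 3) ndB4q1 ndB5q1 pcB3 Cut.none Ext.none)

def k0_pm_113 : ∃ t, chk3 f_pm_113 t 1 1 1 = true :=
  ⟨(a (b (a (a (l 17318048) (l 17437424)) (l 17608040)) (b (a (l 2) (l 17253912)) (l 2))) (b (l 17708296) (b (l 17302600) (b (l 17040528) (b (l 16917040) (b (l 16856664) (l 16817456))))))), by decide +kernel⟩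

theorem c_pm_113 : CertB 536870912 536870912 536870912 536870912 536870912 50465866 3 eng mog cd4q1 cd5q1 pd3 true true false .nn 1 1 3
    ndB4q1 ndB5q1 pcB3 Cut.none Ext.none :=
  certB1 (fam := true) (s1 := true) (s2 := false) (a := 1) (b := 1) (c := 3) (cn := .nn) (n1 := ndB4q1) (n2 := ndB5q1) (pc := pcB3) (cut := Cut.none) (xt := Ext.none) (P1 := 536870912) (W1 := 536870912) (P2 := 536870912) (W2 := 536870912) (P3 := 536870912) (W3 := 50465866) (N0 := 3) (En := eng) (mo := mog) (C1 := cd4q1) (C2 := cd5q1) (C3 := pd3)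
    rfl (fun _ => rfl) k0_pm_113

noncomputable def f_pm_123 : ℕ → ℕ → ℕ → ℕ → Bool := onCell 536870912 536870912 1610612736 536870912 536870912 50465866
    (rowB 3 eng mog cd4q1 cd5q2 pd3 1 true true false .npn 1 2 3 (qsf 536870912 536870912 1073741824 536870912 3) ndB4q1 ndB5q2 pcB3 Cut.none Ext.none)

def k0_pm_123 : ∃ t, chk3 f_pm_123 t 1 1 1 = true :=
  ⟨(a (b (b (a (a (l 17371144) (l 17585568)) (l 530464583927)) (a (l 17207488) (l 17508480))) (b (a (a (l 16889152) (l 17003336)) (l 17179480)) (a (b (l 16802720) (l 4)) (b (l 16905456) (b (l 16743592) (l 4)))))) (b (b (l 1) (l 627637549351)) (b (a (l 17169280) (l 17205752)) (b (l 16944088) (b (l 16818088) (b (l 16751408) (l 4))))))), by decide +kernel⟩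

theorem c_pm_123 : CertB 536870912 536870912 1073741824 536870912 536870912 50465866 3 eng mog cd4q1 cd5q2 pd3 true true false .npn 1 2 3
    ndB4q1 ndB5q2 pcB3 Cut.none Ext.none :=
  certB1 (fam := true) (s1 := true) (s2 := false) (a := 1) (b := 2) (c := 3) (cn := .npn) (n1 := ndB4q1) (n2 := ndB5q2) (pc := pcB3) (cut := Cut.none) (xt := Ext.none) (P1 := 536870912) (W1 := 536870912) (P2 := 1073741824) (W2 := 536870912) (P3 := 536870912) (W3 := 50465866) (N0 := 3) (En := eng) (mo := mog) (C1 := cd4q1) (C2 := cd5q2) (C3 := pd3)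
    rfl (fun _ => rfl) k0_pm_123

noncomputable def f_pm_133 : ℕ → ℕ → ℕ → ℕ → Bool := onCell 536870912 536870912 0 1230186008 536870912 50465866
    (rowB 3 eng mog cd4q1 cd5q3 pd3 0 true true false .dn 1 3 3 (qsf 536870912 536870912 0 1230186008 3) ndB4q1 ndB5q3 pcB3 Cut.none Ext.none)

def k0_pm_133 : ∃ t, chk3 f_pm_133 t 1 1 1 = true :=
  ⟨(b (l 2) (b (l 2) (l 4))), by decide +kernel⟩

theorem c_pm_133 : CertB 536870912 536870912 0 1230186008 536870912 50465866 3 eng mog cd4q1 cd5q3 pd3 true true false .dn 1 3 3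
    ndB4q1 ndB5q3 pcB3 Cut.none Ext.none :=
  certB0 (fam := true) (s1 := true) (s2 := false) (a := 1) (b := 3) (c := 3) (cn := .dn) (n1 := ndB4q1) (n2 := ndB5q3) (pc := pcB3) (cut := Cut.none) (xt := Ext.none) (P1 := 536870912) (W1 := 536870912) (P2 := 0) (W2 := 1230186008) (P3 := 536870912) (W3 := 50465866) (N0 := 3) (En := eng) (mo := mog) (C1 := cd4q1) (C2 := cd5q3) (C3 := pd3)
    rfl k0_pm_133

noncomputable def f_pm_202 : ℕ → ℕ → ℕ → ℕ → Bool := onCell 1073741824 536870912 1073741824 536870912 536870912 50465866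
    (rowB 3 eng mog cd4q2 cd5q0 pd2 1 true true false .pp 2 0 2 (qsf 1073741824 536870912 0 536870912 2) ndB4q2 ndB5q0 pcB2 Cut.none Ext.none)

def k0_pm_202 : ∃ t, chk3 f_pm_202 t 1 1 1 = true :=
  ⟨(a (b (a (b (b (a (a (b (a (l 16673928) (l 16655608)) (l 16683520)) (b (l 185254125815) (l 16644088))) (a (b (l 1) (l 16611528)) (l 1))) (a (b (a (l 16700400) (l 16668808)) (l 16701456)) (b (a (l 16624072) (l 16592072)) (l 16653432)))) (b (a (b (b (l 16722480) (l 16739104)) (l 16765752)) (b (b (l 16661696) (l 16666640)) (l 16678240))) (l 16752664))) (b (a (b (l 1) (a (b (l 1) (l 16633248)) (l 1))) (l 1)) (b (a (b (b (l 16634144) (l 16640104)) (l 16647880)) (b (l 1) (l 16620288))) (a (l 16665808) (l 16644896))))) (b (a (b (l 16813440) (l 16894280)) (b (l 16680528) (l 16711688))) (b (a (l 17015016) (l 16755456)) (a (l 17185216) (l 16818064))))) (b (a (b (l 1) (a (b (l 1) (l 16612848)) (l 1))) (l 1)) (a (b (b (l 16668152) (l 16655976)) (b (l 16683296) (l 16713768)))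 (b (a (b (l 1) (l 16580104)) (l 1)) (b (a (l 16618744) (l 16537344)) (a (l 16654288) (l 16585104))))))), by decide +kernel⟩

theorem c_pm_202 : CertB 1073741824 536870912 0 536870912 536870912 50465866 3 eng mog cd4q2 cd5q0 pd2 true true false .pp 2 0 2
    ndB4q2 ndB5q0 pcB2 Cut.none Ext.none :=
  certB1 (fam := true) (s1 := true) (s2 := false) (a := 2) (b := 0) (c := 2) (cn := .pp) (n1 := ndB4q2) (n2 := ndB5q0) (pc := pcB2) (cut := Cut.none) (xt := Ext.none) (P1 := 1073741824) (W1 := 536870912) (P2 := 0) (W2 := 536870912) (P3 := 536870912) (W3 := 50465866) (N0 := 3) (En := eng) (mo := mog) (C1 := cd4q2) (C2 := cd5q0) (C3 := pd2)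
    rfl (fun _ => rfl) k0_pm_202

noncomputable def f_pm_203 : ℕ → ℕ → ℕ → ℕ → Bool := onCell 1073741824 536870912 1610612736 536870912 536870912 50465866
    (rowB 3 eng mog cd4q2 cd5q0 pd3 1 true true false .up 2 0 3 (qsf 1073741824 536870912 0 536870912 3) ndB4q2 ndB5q0 pcB3 Cut.none Ext.none)

def k0_pm_203 : ∃ t, chk3 f_pm_203 t 1 1 1 = true :=
  ⟨(a (b (b (b (a (l 17300568) (l 16898896)) (l 261021360583)) (b (l 17134984) (l 17087696))) (b (b (l 17064024) (l 2)) (l 2))) (b (b (a (b (l 16748240) (l 16799288)) (a (l 16707176) (l 16648888))) (a (l 16984024) (a (l 16785056) (l 16727616)))) (b (a (l 4) (l 4)) (l 4)))), by decide +kernel⟩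

theorem c_pm_203 : CertB 1073741824 536870912 0 536870912 536870912 50465866 3 eng mog cd4q2 cd5q0 pd3 true true false .up 2 0 3
    ndB4q2 ndB5q0 pcB3 Cut.none Ext.none :=
  certB1 (fam := true) (s1 := true) (s2 := false) (a := 2) (b := 0) (c := 3) (cn := .up) (n1 := ndB4q2) (n2 := ndB5q0) (pc := pcB3) (cut := Cut.none) (xt := Ext.none) (P1 := 1073741824) (W1 := 536870912) (P2 := 0) (W2 := 536870912) (P3 := 536870912) (W3 := 50465866) (N0 := 3) (En := eng) (mo := mog) (C1 := cd4q2) (C2 := cd5q0) (C3 := pd3)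
    rfl (fun _ => rfl) k0_pm_203

noncomputable def f_pm_213 : ℕ → ℕ → ℕ → ℕ → Bool := onCell 1073741824 536870912 1610612736 536870912 536870912 50465866
    (rowB 3 eng mog cd4q2 cd5q1 pd3 1 true true false .pnn 2 1 3 (qsf 1073741824 536870912 536870912 536870912 3) ndB4q2 ndB5q1 pcB3 Cut.none Ext.none)

def k0_pm_213 : ∃ t, chk3 f_pm_213 t 1 1 1 = true :=
  ⟨(a (b (b (b (l 17230216) (l 17241240)) (b (l 17113960) (a (l 16992408) (l 17034736)))) (b (b (a (l 16912704) (l 16901320)) (l 4)) (l 4))) (b (b (l 1) (a (l 16855312) (l 1))) (b (a (l 4) (l 4)) (l 4)))), by decide +kernel⟩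

theorem c_pm_213 : CertB 1073741824 536870912 536870912 536870912 536870912 50465866 3 eng mog cd4q2 cd5q1 pd3 true true false .pnn 2 1 3
    ndB4q2 ndB5q1 pcB3 Cut.none Ext.none :=
  certB1 (fam := true) (s1 := true) (s2 := false) (a := 2) (b := 1) (c := 3) (cn := .pnn) (n1 := ndB4q2) (n2 := ndB5q1) (pc := pcB3) (cut := Cut.none) (xt := Ext.none) (P1 := 1073741824) (W1 := 536870912) (P2 := 536870912) (W2 := 536870912) (P3 := 536870912) (W3 := 50465866) (N0 := 3) (En := eng) (mo := mog) (C1 := cd4q2) (C2 := cd5q1) (C3 := pd3)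
    rfl (fun _ => rfl) k0_pm_213

noncomputable def f_pm_303 : ℕ → ℕ → ℕ → ℕ → Bool := onCell 0 1230186008 0 536870912 536870912 50465866
    (rowB 3 eng mog cd4q3 cd5q0 pd3 0 true true false .npn 3 0 3 (qsf 0 1230186008 0 536870912 3) ndB4q3 ndB5q0 pcB3 Cut.none Ext.none)

def k0_pm_303 : ∃ t, chk3 f_pm_303 t 1 1 1 = true :=
  ⟨(a (l 4) (a (l 4) (b (a (b (b (a (l 4) (l 16708024)) (l 4)) (l 4)) (b (a (b (l 16592848) (l 16713576)) (b (a (l 16530960) (l 16574584)) (l 16605128))) (a (l 4) (b (l 16687016) (l 4))))) (l 4)))), by decide +kernel⟩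

theorem c_pm_303 : CertB 0 1230186008 0 536870912 536870912 50465866 3 eng mog cd4q3 cd5q0 pd3 true true false .npn 3 0 3
    ndB4q3 ndB5q0 pcB3 Cut.none Ext.none :=
  certB0 (fam := true) (s1 := true) (s2 := false) (a := 3) (b := 0) (c := 3) (cn := .npn) (n1 := ndB4q3) (n2 := ndB5q0) (pc := pcB3) (cut := Cut.none) (xt := Ext.none) (P1 := 0) (W1 := 1230186008) (P2 := 0) (W2 := 536870912) (P3 := 536870912) (W3 := 50465866) (N0 := 3) (En := eng) (mo := mog) (C1 := cd4q3) (C2 := cd5q0) (C3 := pd3)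
    rfl k0_pm_303

noncomputable def f_pm_313 : ℕ → ℕ → ℕ → ℕ → Bool := onCell 0 1230186008 536870912 536870912 536870912 50465866
    (rowB 3 eng mog cd4q3 cd5q1 pd3 0 true true false .dn 3 1 3 (qsf 0 1230186008 536870912 536870912 3) ndB4q3 ndB5q1 pcB3 Cut.none Ext.none)

def k0_pm_313 : ∃ t, chk3 f_pm_313 t 1 1 1 = true :=
  ⟨(a (l 2) (l 4)), by decide +kernel⟩

theorem c_pm_313 : CertB 0 1230186008 536870912 536870912 536870912 50465866 3 eng mog cd4q3 cd5q1 pd3 true true false .dn 3 1 3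
    ndB4q3 ndB5q1 pcB3 Cut.none Ext.none :=
  certB0 (fam := true) (s1 := true) (s2 := false) (a := 3) (b := 1) (c := 3) (cn := .dn) (n1 := ndB4q3) (n2 := ndB5q1) (pc := pcB3) (cut := Cut.none) (xt := Ext.none) (P1 := 0) (W1 := 1230186008) (P2 := 536870912) (W2 := 536870912) (P3 := 536870912) (W3 := 50465866) (N0 := 3) (En := eng) (mo := mog) (C1 := cd4q3) (C2 := cd5q1) (C3 := pd3)
    rfl k0_pm_313

noncomputable def f_mm_001 : ℕ → ℕ → ℕ → ℕ → Bool := onCell 0 536870912 0 536870912 536870912 50465866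
    (rowB 3 eng mog cd4q0 cd5q0 pd1 0 true false false .up 0 0 1 (qsf 0 536870912 0 536870912 1) ndB4q0 ndB5q0 pcB1 Cut.none Ext.none)

def k0_mm_001 : ∃ t, chk3 f_mm_001 t 1 1 1 = true :=
  ⟨(l 4), by decide +kernel⟩

theorem c_mm_001 : CertB 0 536870912 0 536870912 536870912 50465866 3 eng mog cd4q0 cd5q0 pd1 true false false .up 0 0 1
    ndB4q0 ndB5q0 pcB1 Cut.none Ext.none :=
  certB0 (fam := true) (s1 := false) (s2 := false) (a := 0) (b := 0) (c := 1) (cn := .up) (n1 := ndB4q0) (n2 := ndB5q0) (pc := pcB1) (cut := Cut.none) (xt := Ext.none) (P1 := 0) (W1 := 536870912) (P2 := 0) (W2 := 536870912) (P3 := 536870912) (W3 := 50465866) (N0 := 3) (En := eng) (mo := mog) (C1 := cd4q0) (C2 := cd5q0) (C3 := pd1)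
    rfl k0_mm_001

noncomputable def f_mm_011 : ℕ → ℕ → ℕ → ℕ → Bool := onCell 0 536870912 536870912 536870912 536870912 50465866
    (rowB 3 eng mog cd4q0 cd5q1 pd1 0 true false false .pnn 0 1 1 (qsf 0 536870912 536870912 536870912 1) ndB4q0 ndB5q1 pcB1 Cut.none Ext.none)

def k0_mm_011 : ∃ t, chk3 f_mm_011 t 1 1 1 = true :=
  ⟨(l 4), by decide +kernel⟩

theorem c_mm_011 : CertB 0 536870912 536870912 536870912 536870912 50465866 3 eng mog cd4q0 cd5q1 pd1 true false false .pnn 0 1 1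
    ndB4q0 ndB5q1 pcB1 Cut.none Ext.none :=
  certB0 (fam := true) (s1 := false) (s2 := false) (a := 0) (b := 1) (c := 1) (cn := .pnn) (n1 := ndB4q0) (n2 := ndB5q1) (pc := pcB1) (cut := Cut.none) (xt := Ext.none) (P1 := 0) (W1 := 536870912) (P2 := 536870912) (W2 := 536870912) (P3 := 536870912) (W3 := 50465866) (N0 := 3) (En := eng) (mo := mog) (C1 := cd4q0) (C2 := cd5q1) (C3 := pd1)
    rfl k0_mm_011

noncomputable def f_mm_012 : ℕ → ℕ → ℕ → ℕ → Bool := onCell 0 536870912 536870912 536870912 536870912 50465866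
    (rowB 3 eng mog cd4q0 cd5q1 pd2 0 true false false .pnp 0 1 2 (qsf 0 536870912 536870912 536870912 2) ndB4q0 ndB5q1 pcB2 Cut.none Ext.none)

def k0_mm_012 : ∃ t, chk3 f_mm_012 t 1 1 1 = true :=
  ⟨(l 4), by decide +kernel⟩

theorem c_mm_012 : CertB 0 536870912 536870912 536870912 536870912 50465866 3 eng mog cd4q0 cd5q1 pd2 true false false .pnp 0 1 2
    ndB4q0 ndB5q1 pcB2 Cut.none Ext.none :=
  certB0 (fam := true) (s1 := false) (s2 := false) (a := 0) (b := 1) (c := 2) (cn := .pnp) (n1 := ndB4q0) (n2 := ndB5q1) (pc := pcB2) (cut := Cut.none) (xt := Ext.none) (P1 := 0) (W1 := 536870912) (P2 := 536870912) (W2 := 536870912) (P3 := 536870912) (W3 := 50465866) (N0 := 3) (En := eng) (mo := mog) (C1 := cd4q0) (C2 := cd5q1) (C3 := pd2)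
    rfl k0_mm_012

noncomputable def f_mm_022 : ℕ → ℕ → ℕ → ℕ → Bool := onCell 0 536870912 1073741824 536870912 536870912 50465866
    (rowB 3 eng mog cd4q0 cd5q2 pd2 0 true false false .pp 0 2 2 (qsf 0 536870912 1073741824 536870912 2) ndB4q0 ndB5q2 pcB2 Cut.none Ext.none)

def k0_mm_022 : ∃ t, chk3 f_mm_022 t 1 1 1 = true :=
  ⟨(l 4), by decide +kernel⟩

theorem c_mm_022 : CertB 0 536870912 1073741824 536870912 536870912 50465866 3 eng mog cd4q0 cd5q2 pd2 true false false .pp 0 2 2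
    ndB4q0 ndB5q2 pcB2 Cut.none Ext.none :=
  certB0 (fam := true) (s1 := false) (s2 := false) (a := 0) (b := 2) (c := 2) (cn := .pp) (n1 := ndB4q0) (n2 := ndB5q2) (pc := pcB2) (cut := Cut.none) (xt := Ext.none) (P1 := 0) (W1 := 536870912) (P2 := 1073741824) (W2 := 536870912) (P3 := 536870912) (W3 := 50465866) (N0 := 3) (En := eng) (mo := mog) (C1 := cd4q0) (C2 := cd5q2) (C3 := pd2)
    rfl k0_mm_022

noncomputable def f_mm_023 : ℕ → ℕ → ℕ → ℕ → Bool := onCell 0 536870912 1073741824 536870912 536870912 50465866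
    (rowB 3 eng mog cd4q0 cd5q2 pd3 0 true false false .up 0 2 3 (qsf 0 536870912 1073741824 536870912 3) ndB4q0 ndB5q2 pcB3 Cut.none Ext.none)

def k0_mm_023 : ∃ t, chk3 f_mm_023 t 1 1 1 = true :=
  ⟨(l 4), by decide +kernel⟩

theorem c_mm_023 : CertB 0 536870912 1073741824 536870912 536870912 50465866 3 eng mog cd4q0 cd5q2 pd3 true false false .up 0 2 3
    ndB4q0 ndB5q2 pcB3 Cut.none Ext.none :=
  certB0 (fam := true) (s1 := false) (s2 := false) (a := 0) (b := 2) (c := 3) (cn := .up) (n1 := ndB4q0) (n2 := ndB5q2) (pc := pcB3) (cut := Cut.none) (xt := Ext.none) (P1 := 0) (W1 := 536870912) (P2 := 1073741824) (W2 := 536870912) (P3 := 536870912) (W3 := 50465866) (N0 := 3) (En := eng) (mo := mog) (C1 := cd4q0) (C2 := cd5q2) (C3 := pd3)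
    rfl k0_mm_023

noncomputable def f_mm_033 : ℕ → ℕ → ℕ → ℕ → Bool := onCell 0 536870912 0 1230186008 536870912 50465866
    (rowB 3 eng mog cd4q0 cd5q3 pd3 0 true false false .pnn 0 3 3 (qsf 0 536870912 0 1230186008 3) ndB4q0 ndB5q3 pcB3 Cut.none Ext.none)

def k0_mm_033 : ∃ t, chk3 f_mm_033 t 1 1 1 = true :=
  ⟨(l 4), by decide +kernel⟩

theorem c_mm_033 : CertB 0 536870912 0 1230186008 536870912 50465866 3 eng mog cd4q0 cd5q3 pd3 true false false .pnn 0 3 3
    ndB4q0 ndB5q3 pcB3 Cut.none Ext.none :=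
  certB0 (fam := true) (s1 := false) (s2 := false) (a := 0) (b := 3) (c := 3) (cn := .pnn) (n1 := ndB4q0) (n2 := ndB5q3) (pc := pcB3) (cut := Cut.none) (xt := Ext.none) (P1 := 0) (W1 := 536870912) (P2 := 0) (W2 := 1230186008) (P3 := 536870912) (W3 := 50465866) (N0 := 3) (En := eng) (mo := mog) (C1 := cd4q0) (C2 := cd5q3) (C3 := pd3)
    rfl k0_mm_033

noncomputable def f_mm_101 : ℕ → ℕ → ℕ → ℕ → Bool := onCell 536870912 536870912 0 536870912 536870912 50465866
    (rowB 3 eng mog cd4q1 cd5q0 pd1 0 true false false .npn 1 0 1 (qsf 536870912 536870912 0 536870912 1) ndB4q1 ndB5q0 pcB1 Cut.none Ext.none)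

def k0_mm_101 : ∃ t, chk3 f_mm_101 t 1 1 1 = true :=
  ⟨(l 4), by decide +kernel⟩

theorem c_mm_101 : CertB 536870912 536870912 0 536870912 536870912 50465866 3 eng mog cd4q1 cd5q0 pd1 true false false .npn 1 0 1
    ndB4q1 ndB5q0 pcB1 Cut.none Ext.none :=
  certB0 (fam := true) (s1 := false) (s2 := false) (a := 1) (b := 0) (c := 1) (cn := .npn) (n1 := ndB4q1) (n2 := ndB5q0) (pc := pcB1) (cut := Cut.none) (xt := Ext.none) (P1 := 536870912) (W1 := 536870912) (P2 := 0) (W2 := 536870912) (P3 := 536870912) (W3 := 50465866) (N0 := 3) (En := eng) (mo := mog) (C1 := cd4q1) (C2 := cd5q0) (C3 := pd1)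
    rfl k0_mm_101

noncomputable def f_mm_102 : ℕ → ℕ → ℕ → ℕ → Bool := onCell 536870912 536870912 0 536870912 536870912 50465866
    (rowB 3 eng mog cd4q1 cd5q0 pd2 0 true false false .npp 1 0 2 (qsf 536870912 536870912 0 536870912 2) ndB4q1 ndB5q0 pcB2 Cut.none Ext.none)

def k0_mm_102 : ∃ t, chk3 f_mm_102 t 1 1 1 = true :=
  ⟨(l 4), by decide +kernel⟩

theorem c_mm_102 : CertB 536870912 536870912 0 536870912 536870912 50465866 3 eng mog cd4q1 cd5q0 pd2 true false false .npp 1 0 2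
    ndB4q1 ndB5q0 pcB2 Cut.none Ext.none :=
  certB0 (fam := true) (s1 := false) (s2 := false) (a := 1) (b := 0) (c := 2) (cn := .npp) (n1 := ndB4q1) (n2 := ndB5q0) (pc := pcB2) (cut := Cut.none) (xt := Ext.none) (P1 := 536870912) (W1 := 536870912) (P2 := 0) (W2 := 536870912) (P3 := 536870912) (W3 := 50465866) (N0 := 3) (En := eng) (mo := mog) (C1 := cd4q1) (C2 := cd5q0) (C3 := pd2)
    rfl k0_mm_102

noncomputable def f_mm_112 : ℕ → ℕ → ℕ → ℕ → Bool := onCell 536870912 536870912 536870912 536870912 536870912 50465866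
    (rowB 3 eng mog cd4q1 cd5q1 pd2 0 true false false .dn 1 1 2 (qsf 536870912 536870912 536870912 536870912 2) ndB4q1 ndB5q1 pcB2 Cut.none Ext.none)

def k0_mm_112 : ∃ t, chk3 f_mm_112 t 1 1 1 = true :=
  ⟨(l 4), by decide +kernel⟩

theorem c_mm_112 : CertB 536870912 536870912 536870912 536870912 536870912 50465866 3 eng mog cd4q1 cd5q1 pd2 true false false .dn 1 1 2
    ndB4q1 ndB5q1 pcB2 Cut.none Ext.none :=
  certB0 (fam := true) (s1 := false) (s2 := false) (a := 1) (b := 1) (c := 2) (cn := .dn) (n1 := ndB4q1) (n2 := ndB5q1) (pc := pcB2) (cut := Cut.none) (xt := Ext.none) (P1 := 536870912) (W1 := 536870912) (P2 := 536870912) (W2 := 536870912) (P3 := 536870912) (W3 := 50465866) (N0 := 3) (En := eng) (mo := mog) (C1 := cd4q1) (C2 := cd5q1) (C3 := pd2)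
    rfl k0_mm_112

noncomputable def f_mm_113 : ℕ → ℕ → ℕ → ℕ → Bool := onCell 536870912 536870912 536870912 536870912 536870912 50465866
    (rowB 3 eng mog cd4q1 cd5q1 pd3 0 true false false .nn 1 1 3 (qsf 536870912 536870912 536870912 536870912 3) ndB4q1 ndB5q1 pcB3 Cut.none Ext.none)

def k0_mm_113 : ∃ t, chk3 f_mm_113 t 1 1 1 = true :=
  ⟨(l 4), by decide +kernel⟩

theorem c_mm_113 : CertB 536870912 536870912 536870912 536870912 536870912 50465866 3 eng mog cd4q1 cd5q1 pd3 true false false .nn 1 1 3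
    ndB4q1 ndB5q1 pcB3 Cut.none Ext.none :=
  certB0 (fam := true) (s1 := false) (s2 := false) (a := 1) (b := 1) (c := 3) (cn := .nn) (n1 := ndB4q1) (n2 := ndB5q1) (pc := pcB3) (cut := Cut.none) (xt := Ext.none) (P1 := 536870912) (W1 := 536870912) (P2 := 536870912) (W2 := 536870912) (P3 := 536870912) (W3 := 50465866) (N0 := 3) (En := eng) (mo := mog) (C1 := cd4q1) (C2 := cd5q1) (C3 := pd3)
    rfl k0_mm_113

noncomputable def f_mm_123 : ℕ → ℕ → ℕ → ℕ → Bool := onCell 536870912 536870912 1073741824 536870912 536870912 50465866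
    (rowB 3 eng mog cd4q1 cd5q2 pd3 0 true false false .npn 1 2 3 (qsf 536870912 536870912 1073741824 536870912 3) ndB4q1 ndB5q2 pcB3 Cut.none Ext.none)

def k0_mm_123 : ∃ t, chk3 f_mm_123 t 1 1 1 = true :=
  ⟨(l 4), by decide +kernel⟩

theorem c_mm_123 : CertB 536870912 536870912 1073741824 536870912 536870912 50465866 3 eng mog cd4q1 cd5q2 pd3 true false false .npn 1 2 3
    ndB4q1 ndB5q2 pcB3 Cut.none Ext.none :=
  certB0 (fam := true) (s1 := false) (s2 := false) (a := 1) (b := 2) (c := 3) (cn := .npn) (n1 := ndB4q1) (n2 := ndB5q2) (pc := pcB3) (cut := Cut.none) (xt := Ext.none) (P1 := 536870912) (W1 := 536870912) (P2 := 1073741824) (W2 := 536870912) (P3 := 536870912) (W3 := 50465866) (N0 := 3) (En := eng) (mo := mog) (C1 := cd4q1) (C2 := cd5q2) (C3 := pd3)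
    rfl k0_mm_123

noncomputable def f_mm_133 : ℕ → ℕ → ℕ → ℕ → Bool := onCell 536870912 536870912 0 1230186008 536870912 50465866
    (rowB 3 eng mog cd4q1 cd5q3 pd3 0 true false false .dn 1 3 3 (qsf 536870912 536870912 0 1230186008 3) ndB4q1 ndB5q3 pcB3 Cut.none Ext.none)

def k0_mm_133 : ∃ t, chk3 f_mm_133 t 1 1 1 = true :=
  ⟨(l 4), by decide +kernel⟩

theorem c_mm_133 : CertB 536870912 536870912 0 1230186008 536870912 50465866 3 eng mog cd4q1 cd5q3 pd3 true false false .dn 1 3 3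
    ndB4q1 ndB5q3 pcB3 Cut.none Ext.none :=
  certB0 (fam := true) (s1 := false) (s2 := false) (a := 1) (b := 3) (c := 3) (cn := .dn) (n1 := ndB4q1) (n2 := ndB5q3) (pc := pcB3) (cut := Cut.none) (xt := Ext.none) (P1 := 536870912) (W1 := 536870912) (P2 := 0) (W2 := 1230186008) (P3 := 536870912) (W3 := 50465866) (N0 := 3) (En := eng) (mo := mog) (C1 := cd4q1) (C2 := cd5q3) (C3 := pd3)
    rfl k0_mm_133

noncomputable def f_mm_202 : ℕ → ℕ → ℕ → ℕ → Bool := onCell 1073741824 536870912 0 536870912 536870912 50465866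
    (rowB 3 eng mog cd4q2 cd5q0 pd2 0 true false false .pp 2 0 2 (qsf 1073741824 536870912 0 536870912 2) ndB4q2 ndB5q0 pcB2 Cut.none Ext.none)

def k0_mm_202 : ∃ t, chk3 f_mm_202 t 1 1 1 = true :=
  ⟨(l 4), by decide +kernel⟩

theorem c_mm_202 : CertB 1073741824 536870912 0 536870912 536870912 50465866 3 eng mog cd4q2 cd5q0 pd2 true false false .pp 2 0 2
    ndB4q2 ndB5q0 pcB2 Cut.none Ext.none :=
  certB0 (fam := true) (s1 := false) (s2 := false) (a := 2) (b := 0) (c := 2) (cn := .pp) (n1 := ndB4q2) (n2 := ndB5q0) (pc := pcB2) (cut := Cut.none) (xt := Ext.none) (P1 := 1073741824) (W1 := 536870912) (P2 := 0) (W2 := 536870912) (P3 := 536870912) (W3 := 50465866) (N0 := 3) (En := eng) (mo := mog) (C1 := cd4q2) (C2 := cd5q0) (C3 := pd2)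
    rfl k0_mm_202

noncomputable def f_mm_203 : ℕ → ℕ → ℕ → ℕ → Bool := onCell 1073741824 536870912 0 536870912 536870912 50465866
    (rowB 3 eng mog cd4q2 cd5q0 pd3 0 true false false .up 2 0 3 (qsf 1073741824 536870912 0 536870912 3) ndB4q2 ndB5q0 pcB3 Cut.none Ext.none)

def k0_mm_203 : ∃ t, chk3 f_mm_203 t 1 1 1 = true :=
  ⟨(l 4), by decide +kernel⟩

theorem c_mm_203 : CertB 1073741824 536870912 0 536870912 536870912 50465866 3 eng mog cd4q2 cd5q0 pd3 true false false .up 2 0 3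
    ndB4q2 ndB5q0 pcB3 Cut.none Ext.none :=
  certB0 (fam := true) (s1 := false) (s2 := false) (a := 2) (b := 0) (c := 3) (cn := .up) (n1 := ndB4q2) (n2 := ndB5q0) (pc := pcB3) (cut := Cut.none) (xt := Ext.none) (P1 := 1073741824) (W1 := 536870912) (P2 := 0) (W2 := 536870912) (P3 := 536870912) (W3 := 50465866) (N0 := 3) (En := eng) (mo := mog) (C1 := cd4q2) (C2 := cd5q0) (C3 := pd3)
    rfl k0_mm_203

noncomputable def f_mm_213 : ℕ → ℕ → ℕ → ℕ → Bool := onCell 1073741824 536870912 536870912 536870912 536870912 50465866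
    (rowB 3 eng mog cd4q2 cd5q1 pd3 0 true false false .pnn 2 1 3 (qsf 1073741824 536870912 536870912 536870912 3) ndB4q2 ndB5q1 pcB3 Cut.none Ext.none)

def k0_mm_213 : ∃ t, chk3 f_mm_213 t 1 1 1 = true :=
  ⟨(l 4), by decide +kernel⟩

theorem c_mm_213 : CertB 1073741824 536870912 536870912 536870912 536870912 50465866 3 eng mog cd4q2 cd5q1 pd3 true false false .pnn 2 1 3
    ndB4q2 ndB5q1 pcB3 Cut.none Ext.none :=
  certB0 (fam := true) (s1 := false) (s2 := false) (a := 2) (b := 1) (c := 3) (cn := .pnn) (n1 := ndB4q2) (n2 := ndB5q1) (pc := pcB3) (cut := Cut.none) (xt := Ext.none) (P1 := 1073741824) (W1 := 536870912) (P2 := 536870912) (W2 := 536870912) (P3 := 536870912) (W3 := 50465866) (N0 := 3) (En := eng) (mo := mog) (C1 := cd4q2) (C2 := cd5q1) (C3 := pd3)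
    rfl k0_mm_213

noncomputable def f_mm_303 : ℕ → ℕ → ℕ → ℕ → Bool := onCell 0 1230186008 0 536870912 536870912 50465866
    (rowB 3 eng mog cd4q3 cd5q0 pd3 0 true false false .npn 3 0 3 (qsf 0 1230186008 0 536870912 3) ndB4q3 ndB5q0 pcB3 Cut.none Ext.none)

def k0_mm_303 : ∃ t, chk3 f_mm_303 t 1 1 1 = true :=
  ⟨(l 4), by decide +kernel⟩

theorem c_mm_303 : CertB 0 1230186008 0 536870912 536870912 50465866 3 eng mog cd4q3 cd5q0 pd3 true false false .npn 3 0 3
    ndB4q3 ndB5q0 pcB3 Cut.none Ext.none :=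
  certB0 (fam := true) (s1 := false) (s2 := false) (a := 3) (b := 0) (c := 3) (cn := .npn) (n1 := ndB4q3) (n2 := ndB5q0) (pc := pcB3) (cut := Cut.none) (xt := Ext.none) (P1 := 0) (W1 := 1230186008) (P2 := 0) (W2 := 536870912) (P3 := 536870912) (W3 := 50465866) (N0 := 3) (En := eng) (mo := mog) (C1 := cd4q3) (C2 := cd5q0) (C3 := pd3)
    rfl k0_mm_303

noncomputable def f_mm_313 : ℕ → ℕ → ℕ → ℕ → Bool := onCell 0 1230186008 536870912 536870912 536870912 50465866
    (rowB 3 eng mog cd4q3 cd5q1 pd3 0 true false false .dn 3 1 3 (qsf 0 1230186008 536870912 536870912 3) ndB4q3 ndB5q1 pcB3 Cut.none Ext.none)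

def k0_mm_313 : ∃ t, chk3 f_mm_313 t 1 1 1 = true :=
  ⟨(l 4), by decide +kernel⟩

theorem c_mm_313 : CertB 0 1230186008 536870912 536870912 536870912 50465866 3 eng mog cd4q3 cd5q1 pd3 true false false .dn 3 1 3
    ndB4q3 ndB5q1 pcB3 Cut.none Ext.none :=
  certB0 (fam := true) (s1 := false) (s2 := false) (a := 3) (b := 1) (c := 3) (cn := .dn) (n1 := ndB4q3) (n2 := ndB5q1) (pc := pcB3) (cut := Cut.none) (xt := Ext.none) (P1 := 0) (W1 := 1230186008) (P2 := 536870912) (W2 := 536870912) (P3 := 536870912) (W3 := 50465866) (N0 := 3) (En := eng) (mo := mog) (C1 := cd4q3) (C2 := cd5q1) (C3 := pd3)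
    rfl k0_mm_313

end Pool.Agent.Strip051.G.I5000_5470.Tab.C.BA45

namespace Pool.Agent.Strip051.G.I5000_5470.Tab.C.BA46

open Pool.Agent.Strip051.PB Pool.Agent.Strip051.PB.T
open Pool.Agent.Strip051.G.I5000_5470.Tab

noncomputable def f_pp_001 : ℕ → ℕ → ℕ → ℕ → Bool := onCell 0 536870912 0 536870912 536870912 50465866
    (rowB 3 eng mog cd4q0 cd6q0 pd1 0 true true true .up 0 0 1 (qsf 0 536870912 0 536870912 1) ndB4q0 ndB6q0 pcB1 Cut.none Ext.none)

def k0_pp_001 : ∃ t, chk3 f_pp_001 t 1 1 1 = true :=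
  ⟨(l 4), by decide +kernel⟩

theorem c_pp_001 : CertB 0 536870912 0 536870912 536870912 50465866 3 eng mog cd4q0 cd6q0 pd1 true true true .up 0 0 1
    ndB4q0 ndB6q0 pcB1 Cut.none Ext.none :=
  certB0 (fam := true) (s1 := true) (s2 := true) (a := 0) (b := 0) (c := 1) (cn := .up) (n1 := ndB4q0) (n2 := ndB6q0) (pc := pcB1) (cut := Cut.none) (xt := Ext.none) (P1 := 0) (W1 := 536870912) (P2 := 0) (W2 := 536870912) (P3 := 536870912) (W3 := 50465866) (N0 := 3) (En := eng) (mo := mog) (C1 := cd4q0) (C2 := cd6q0) (C3 := pd1)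
    rfl k0_pp_001

noncomputable def f_pp_011 : ℕ → ℕ → ℕ → ℕ → Bool := onCell 0 536870912 536870912 536870912 536870912 50465866
    (rowB 3 eng mog cd4q0 cd6q1 pd1 0 true true true .pnn 0 1 1 (qsf 0 536870912 536870912 536870912 1) ndB4q0 ndB6q1 pcB1 Cut.none Ext.none)

def k0_pp_011 : ∃ t, chk3 f_pp_011 t 1 1 1 = true :=
  ⟨(l 4), by decide +kernel⟩

theorem c_pp_011 : CertB 0 536870912 536870912 536870912 536870912 50465866 3 eng mog cd4q0 cd6q1 pd1 true true true .pnn 0 1 1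
    ndB4q0 ndB6q1 pcB1 Cut.none Ext.none :=
  certB0 (fam := true) (s1 := true) (s2 := true) (a := 0) (b := 1) (c := 1) (cn := .pnn) (n1 := ndB4q0) (n2 := ndB6q1) (pc := pcB1) (cut := Cut.none) (xt := Ext.none) (P1 := 0) (W1 := 536870912) (P2 := 536870912) (W2 := 536870912) (P3 := 536870912) (W3 := 50465866) (N0 := 3) (En := eng) (mo := mog) (C1 := cd4q0) (C2 := cd6q1) (C3 := pd1)
    rfl k0_pp_011

noncomputable def f_pp_012 : ℕ → ℕ → ℕ → ℕ → Bool := onCell 0 536870912 536870912 536870912 536870912 50465866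
    (rowB 3 eng mog cd4q0 cd6q1 pd2 0 true true true .pnp 0 1 2 (qsf 0 536870912 536870912 536870912 2) ndB4q0 ndB6q1 pcB2 Cut.none Ext.none)

def k0_pp_012 : ∃ t, chk3 f_pp_012 t 1 1 1 = true :=
  ⟨(l 4), by decide +kernel⟩

theorem c_pp_012 : CertB 0 536870912 536870912 536870912 536870912 50465866 3 eng mog cd4q0 cd6q1 pd2 true true true .pnp 0 1 2
    ndB4q0 ndB6q1 pcB2 Cut.none Ext.none :=
  certB0 (fam := true) (s1 := true) (s2 := true) (a := 0) (b := 1) (c := 2) (cn := .pnp) (n1 := ndB4q0) (n2 := ndB6q1) (pc := pcB2) (cut := Cut.none) (xt := Ext.none) (P1 := 0) (W1 := 536870912) (P2 := 536870912) (W2 := 536870912) (P3 := 536870912) (W3 := 50465866) (N0 := 3) (En := eng) (mo := mog) (C1 := cd4q0) (C2 := cd6q1) (C3 := pd2)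
    rfl k0_pp_012

noncomputable def f_pp_022 : ℕ → ℕ → ℕ → ℕ → Bool := onCell 0 536870912 1073741824 536870912 536870912 50465866
    (rowB 3 eng mog cd4q0 cd6q2 pd2 0 true true true .pp 0 2 2 (qsf 0 536870912 1073741824 536870912 2) ndB4q0 ndB6q2 pcB2 Cut.none Ext.none)

def k0_pp_022 : ∃ t, chk3 f_pp_022 t 1 1 1 = true :=
  ⟨(l 4), by decide +kernel⟩

theorem c_pp_022 : CertB 0 536870912 1073741824 536870912 536870912 50465866 3 eng mog cd4q0 cd6q2 pd2 true true true .pp 0 2 2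
    ndB4q0 ndB6q2 pcB2 Cut.none Ext.none :=
  certB0 (fam := true) (s1 := true) (s2 := true) (a := 0) (b := 2) (c := 2) (cn := .pp) (n1 := ndB4q0) (n2 := ndB6q2) (pc := pcB2) (cut := Cut.none) (xt := Ext.none) (P1 := 0) (W1 := 536870912) (P2 := 1073741824) (W2 := 536870912) (P3 := 536870912) (W3 := 50465866) (N0 := 3) (En := eng) (mo := mog) (C1 := cd4q0) (C2 := cd6q2) (C3 := pd2)
    rfl k0_pp_022

noncomputable def f_pp_023 : ℕ → ℕ → ℕ → ℕ → Bool := onCell 0 536870912 1073741824 536870912 536870912 50465866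
    (rowB 3 eng mog cd4q0 cd6q2 pd3 0 true true true .up 0 2 3 (qsf 0 536870912 1073741824 536870912 3) ndB4q0 ndB6q2 pcB3 Cut.none Ext.none)

def k0_pp_023 : ∃ t, chk3 f_pp_023 t 1 1 1 = true :=
  ⟨(l 4), by decide +kernel⟩

theorem c_pp_023 : CertB 0 536870912 1073741824 536870912 536870912 50465866 3 eng mog cd4q0 cd6q2 pd3 true true true .up 0 2 3
    ndB4q0 ndB6q2 pcB3 Cut.none Ext.none :=
  certB0 (fam := true) (s1 := true) (s2 := true) (a := 0) (b := 2) (c := 3) (cn := .up) (n1 := ndB4q0) (n2 := ndB6q2) (pc := pcB3) (cut := Cut.none) (xt := Ext.none) (P1 := 0) (W1 := 536870912) (P2 := 1073741824) (W2 := 536870912) (P3 := 536870912) (W3 := 50465866) (N0 := 3) (En := eng) (mo := mog) (C1 := cd4q0) (C2 := cd6q2) (C3 := pd3)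
    rfl k0_pp_023

noncomputable def f_pp_033 : ℕ → ℕ → ℕ → ℕ → Bool := onCell 0 536870912 0 1230186008 536870912 50465866
    (rowB 3 eng mog cd4q0 cd6q3 pd3 0 true true true .pnn 0 3 3 (qsf 0 536870912 0 1230186008 3) ndB4q0 ndB6q3 pcB3 Cut.none Ext.none)

def k0_pp_033 : ∃ t, chk3 f_pp_033 t 1 1 1 = true :=
  ⟨(l 4), by decide +kernel⟩

theorem c_pp_033 : CertB 0 536870912 0 1230186008 536870912 50465866 3 eng mog cd4q0 cd6q3 pd3 true true true .pnn 0 3 3
    ndB4q0 ndB6q3 pcB3 Cut.none Ext.none :=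
  certB0 (fam := true) (s1 := true) (s2 := true) (a := 0) (b := 3) (c := 3) (cn := .pnn) (n1 := ndB4q0) (n2 := ndB6q3) (pc := pcB3) (cut := Cut.none) (xt := Ext.none) (P1 := 0) (W1 := 536870912) (P2 := 0) (W2 := 1230186008) (P3 := 536870912) (W3 := 50465866) (N0 := 3) (En := eng) (mo := mog) (C1 := cd4q0) (C2 := cd6q3) (C3 := pd3)
    rfl k0_pp_033

noncomputable def f_pp_101 : ℕ → ℕ → ℕ → ℕ → Bool := onCell 536870912 536870912 0 536870912 536870912 50465866
    (rowB 3 eng mog cd4q1 cd6q0 pd1 0 true true true .npn 1 0 1 (qsf 536870912 536870912 0 536870912 1) ndB4q1 ndB6q0 pcB1 Cut.none Ext.none)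

def k0_pp_101 : ∃ t, chk3 f_pp_101 t 1 1 1 = true :=
  ⟨(l 4), by decide +kernel⟩

theorem c_pp_101 : CertB 536870912 536870912 0 536870912 536870912 50465866 3 eng mog cd4q1 cd6q0 pd1 true true true .npn 1 0 1
    ndB4q1 ndB6q0 pcB1 Cut.none Ext.none :=
  certB0 (fam := true) (s1 := true) (s2 := true) (a := 1) (b := 0) (c := 1) (cn := .npn) (n1 := ndB4q1) (n2 := ndB6q0) (pc := pcB1) (cut := Cut.none) (xt := Ext.none) (P1 := 536870912) (W1 := 536870912) (P2 := 0) (W2 := 536870912) (P3 := 536870912) (W3 := 50465866) (N0 := 3) (En := eng) (mo := mog) (C1 := cd4q1) (C2 := cd6q0) (C3 := pd1)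
    rfl k0_pp_101

noncomputable def f_pp_102 : ℕ → ℕ → ℕ → ℕ → Bool := onCell 536870912 536870912 0 536870912 536870912 50465866
    (rowB 3 eng mog cd4q1 cd6q0 pd2 0 true true true .npp 1 0 2 (qsf 536870912 536870912 0 536870912 2) ndB4q1 ndB6q0 pcB2 Cut.none Ext.none)

def k0_pp_102 : ∃ t, chk3 f_pp_102 t 1 1 1 = true :=
  ⟨(l 4), by decide +kernel⟩

theorem c_pp_102 : CertB 536870912 536870912 0 536870912 536870912 50465866 3 eng mog cd4q1 cd6q0 pd2 true true true .npp 1 0 2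
    ndB4q1 ndB6q0 pcB2 Cut.none Ext.none :=
  certB0 (fam := true) (s1 := true) (s2 := true) (a := 1) (b := 0) (c := 2) (cn := .npp) (n1 := ndB4q1) (n2 := ndB6q0) (pc := pcB2) (cut := Cut.none) (xt := Ext.none) (P1 := 536870912) (W1 := 536870912) (P2 := 0) (W2 := 536870912) (P3 := 536870912) (W3 := 50465866) (N0 := 3) (En := eng) (mo := mog) (C1 := cd4q1) (C2 := cd6q0) (C3 := pd2)
    rfl k0_pp_102

noncomputable def f_pp_112 : ℕ → ℕ → ℕ → ℕ → Bool := onCell 536870912 536870912 536870912 536870912 536870912 50465866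
    (rowB 3 eng mog cd4q1 cd6q1 pd2 0 true true true .dn 1 1 2 (qsf 536870912 536870912 536870912 536870912 2) ndB4q1 ndB6q1 pcB2 Cut.none Ext.none)

def k0_pp_112 : ∃ t, chk3 f_pp_112 t 1 1 1 = true :=
  ⟨(l 4), by decide +kernel⟩

theorem c_pp_112 : CertB 536870912 536870912 536870912 536870912 536870912 50465866 3 eng mog cd4q1 cd6q1 pd2 true true true .dn 1 1 2
    ndB4q1 ndB6q1 pcB2 Cut.none Ext.none :=
  certB0 (fam := true) (s1 := true) (s2 := true) (a := 1) (b := 1) (c := 2) (cn := .dn) (n1 := ndB4q1) (n2 := ndB6q1) (pc := pcB2) (cut := Cut.none) (xt := Ext.none) (P1 := 536870912) (W1 := 536870912) (P2 := 536870912) (W2 := 536870912) (P3 := 536870912) (W3 := 50465866) (N0 := 3) (En := eng) (mo := mog) (C1 := cd4q1) (C2 := cd6q1) (C3 := pd2)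
    rfl k0_pp_112

noncomputable def f_pp_113 : ℕ → ℕ → ℕ → ℕ → Bool := onCell 536870912 536870912 536870912 536870912 536870912 50465866
    (rowB 3 eng mog cd4q1 cd6q1 pd3 0 true true true .nn 1 1 3 (qsf 536870912 536870912 536870912 536870912 3) ndB4q1 ndB6q1 pcB3 Cut.none Ext.none)

def k0_pp_113 : ∃ t, chk3 f_pp_113 t 1 1 1 = true :=
  ⟨(l 4), by decide +kernel⟩

theorem c_pp_113 : CertB 536870912 536870912 536870912 536870912 536870912 50465866 3 eng mog cd4q1 cd6q1 pd3 true true true .nn 1 1 3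
    ndB4q1 ndB6q1 pcB3 Cut.none Ext.none :=
  certB0 (fam := true) (s1 := true) (s2 := true) (a := 1) (b := 1) (c := 3) (cn := .nn) (n1 := ndB4q1) (n2 := ndB6q1) (pc := pcB3) (cut := Cut.none) (xt := Ext.none) (P1 := 536870912) (W1 := 536870912) (P2 := 536870912) (W2 := 536870912) (P3 := 536870912) (W3 := 50465866) (N0 := 3) (En := eng) (mo := mog) (C1 := cd4q1) (C2 := cd6q1) (C3 := pd3)
    rfl k0_pp_113

noncomputable def f_pp_123 : ℕ → ℕ → ℕ → ℕ → Bool := onCell 536870912 536870912 1073741824 536870912 536870912 50465866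
    (rowB 3 eng mog cd4q1 cd6q2 pd3 0 true true true .npn 1 2 3 (qsf 536870912 536870912 1073741824 536870912 3) ndB4q1 ndB6q2 pcB3 Cut.none Ext.none)

def k0_pp_123 : ∃ t, chk3 f_pp_123 t 1 1 1 = true :=
  ⟨(l 4), by decide +kernel⟩

theorem c_pp_123 : CertB 536870912 536870912 1073741824 536870912 536870912 50465866 3 eng mog cd4q1 cd6q2 pd3 true true true .npn 1 2 3
    ndB4q1 ndB6q2 pcB3 Cut.none Ext.none :=
  certB0 (fam := true) (s1 := true) (s2 := true) (a := 1) (b := 2) (c := 3) (cn := .npn) (n1 := ndB4q1) (n2 := ndB6q2) (pc := pcB3) (cut := Cut.none) (xt := Ext.none) (P1 := 536870912) (W1 := 536870912) (P2 := 1073741824) (W2 := 536870912) (P3 := 536870912) (W3 := 50465866) (N0 := 3) (En := eng) (mo := mog) (C1 := cd4q1) (C2 := cd6q2) (C3 := pd3)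
    rfl k0_pp_123

noncomputable def f_pp_133 : ℕ → ℕ → ℕ → ℕ → Bool := onCell 536870912 536870912 0 1230186008 536870912 50465866
    (rowB 3 eng mog cd4q1 cd6q3 pd3 0 true true true .dn 1 3 3 (qsf 536870912 536870912 0 1230186008 3) ndB4q1 ndB6q3 pcB3 Cut.none Ext.none)

def k0_pp_133 : ∃ t, chk3 f_pp_133 t 1 1 1 = true :=
  ⟨(l 4), by decide +kernel⟩

theorem c_pp_133 : CertB 536870912 536870912 0 1230186008 536870912 50465866 3 eng mog cd4q1 cd6q3 pd3 true true true .dn 1 3 3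
    ndB4q1 ndB6q3 pcB3 Cut.none Ext.none :=
  certB0 (fam := true) (s1 := true) (s2 := true) (a := 1) (b := 3) (c := 3) (cn := .dn) (n1 := ndB4q1) (n2 := ndB6q3) (pc := pcB3) (cut := Cut.none) (xt := Ext.none) (P1 := 536870912) (W1 := 536870912) (P2 := 0) (W2 := 1230186008) (P3 := 536870912) (W3 := 50465866) (N0 := 3) (En := eng) (mo := mog) (C1 := cd4q1) (C2 := cd6q3) (C3 := pd3)
    rfl k0_pp_133

noncomputable def f_pp_202 : ℕ → ℕ → ℕ → ℕ → Bool := onCell 1073741824 536870912 0 536870912 536870912 50465866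
    (rowB 3 eng mog cd4q2 cd6q0 pd2 0 true true true .pp 2 0 2 (qsf 1073741824 536870912 0 536870912 2) ndB4q2 ndB6q0 pcB2 Cut.none Ext.none)

def k0_pp_202 : ∃ t, chk3 f_pp_202 t 1 1 1 = true :=
  ⟨(l 4), by decide +kernel⟩

theorem c_pp_202 : CertB 1073741824 536870912 0 536870912 536870912 50465866 3 eng mog cd4q2 cd6q0 pd2 true true true .pp 2 0 2
    ndB4q2 ndB6q0 pcB2 Cut.none Ext.none :=
  certB0 (fam := true) (s1 := true) (s2 := true) (a := 2) (b := 0) (c := 2) (cn := .pp) (n1 := ndB4q2) (n2 := ndB6q0) (pc := pcB2) (cut := Cut.none) (xt := Ext.none) (P1 := 1073741824) (W1 := 536870912) (P2 := 0) (W2 := 536870912) (P3 := 536870912) (W3 := 50465866) (N0 := 3) (En := eng) (mo := mog) (C1 := cd4q2) (C2 := cd6q0) (C3 := pd2)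
    rfl k0_pp_202

noncomputable def f_pp_203 : ℕ → ℕ → ℕ → ℕ → Bool := onCell 1073741824 536870912 0 536870912 536870912 50465866
    (rowB 3 eng mog cd4q2 cd6q0 pd3 0 true true true .up 2 0 3 (qsf 1073741824 536870912 0 536870912 3) ndB4q2 ndB6q0 pcB3 Cut.none Ext.none)

def k0_pp_203 : ∃ t, chk3 f_pp_203 t 1 1 1 = true :=
  ⟨(l 4), by decide +kernel⟩

theorem c_pp_203 : CertB 1073741824 536870912 0 536870912 536870912 50465866 3 eng mog cd4q2 cd6q0 pd3 true true true .up 2 0 3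
    ndB4q2 ndB6q0 pcB3 Cut.none Ext.none :=
  certB0 (fam := true) (s1 := true) (s2 := true) (a := 2) (b := 0) (c := 3) (cn := .up) (n1 := ndB4q2) (n2 := ndB6q0) (pc := pcB3) (cut := Cut.none) (xt := Ext.none) (P1 := 1073741824) (W1 := 536870912) (P2 := 0) (W2 := 536870912) (P3 := 536870912) (W3 := 50465866) (N0 := 3) (En := eng) (mo := mog) (C1 := cd4q2) (C2 := cd6q0) (C3 := pd3)
    rfl k0_pp_203

noncomputable def f_pp_213 : ℕ → ℕ → ℕ → ℕ → Bool := onCell 1073741824 536870912 536870912 536870912 536870912 50465866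
    (rowB 3 eng mog cd4q2 cd6q1 pd3 0 true true true .pnn 2 1 3 (qsf 1073741824 536870912 536870912 536870912 3) ndB4q2 ndB6q1 pcB3 Cut.none Ext.none)

def k0_pp_213 : ∃ t, chk3 f_pp_213 t 1 1 1 = true :=
  ⟨(l 4), by decide +kernel⟩

theorem c_pp_213 : CertB 1073741824 536870912 536870912 536870912 536870912 50465866 3 eng mog cd4q2 cd6q1 pd3 true true true .pnn 2 1 3
    ndB4q2 ndB6q1 pcB3 Cut.none Ext.none :=
  certB0 (fam := true) (s1 := true) (s2 := true) (a := 2) (b := 1) (c := 3) (cn := .pnn) (n1 := ndB4q2) (n2 := ndB6q1) (pc := pcB3) (cut := Cut.none) (xt := Ext.none) (P1 := 1073741824) (W1 := 536870912) (P2 := 536870912) (W2 := 536870912) (P3 := 536870912) (W3 := 50465866) (N0 := 3) (En := eng) (mo := mog) (C1 := cd4q2) (C2 := cd6q1) (C3 := pd3)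
    rfl k0_pp_213

noncomputable def f_pp_303 : ℕ → ℕ → ℕ → ℕ → Bool := onCell 0 1230186008 0 536870912 536870912 50465866
    (rowB 3 eng mog cd4q3 cd6q0 pd3 0 true true true .npn 3 0 3 (qsf 0 1230186008 0 536870912 3) ndB4q3 ndB6q0 pcB3 Cut.none Ext.none)

def k0_pp_303 : ∃ t, chk3 f_pp_303 t 1 1 1 = true :=
  ⟨(l 4), by decide +kernel⟩

theorem c_pp_303 : CertB 0 1230186008 0 536870912 536870912 50465866 3 eng mog cd4q3 cd6q0 pd3 true true true .npn 3 0 3
    ndB4q3 ndB6q0 pcB3 Cut.none Ext.none :=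
  certB0 (fam := true) (s1 := true) (s2 := true) (a := 3) (b := 0) (c := 3) (cn := .npn) (n1 := ndB4q3) (n2 := ndB6q0) (pc := pcB3) (cut := Cut.none) (xt := Ext.none) (P1 := 0) (W1 := 1230186008) (P2 := 0) (W2 := 536870912) (P3 := 536870912) (W3 := 50465866) (N0 := 3) (En := eng) (mo := mog) (C1 := cd4q3) (C2 := cd6q0) (C3 := pd3)
    rfl k0_pp_303

noncomputable def f_pp_313 : ℕ → ℕ → ℕ → ℕ → Bool := onCell 0 1230186008 536870912 536870912 536870912 50465866
    (rowB 3 eng mog cd4q3 cd6q1 pd3 0 true true true .dn 3 1 3 (qsf 0 1230186008 536870912 536870912 3) ndB4q3 ndB6q1 pcB3 Cut.none Ext.none)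

def k0_pp_313 : ∃ t, chk3 f_pp_313 t 1 1 1 = true :=
  ⟨(l 4), by decide +kernel⟩

theorem c_pp_313 : CertB 0 1230186008 536870912 536870912 536870912 50465866 3 eng mog cd4q3 cd6q1 pd3 true true true .dn 3 1 3
    ndB4q3 ndB6q1 pcB3 Cut.none Ext.none :=
  certB0 (fam := true) (s1 := true) (s2 := true) (a := 3) (b := 1) (c := 3) (cn := .dn) (n1 := ndB4q3) (n2 := ndB6q1) (pc := pcB3) (cut := Cut.none) (xt := Ext.none) (P1 := 0) (W1 := 1230186008) (P2 := 536870912) (W2 := 536870912) (P3 := 536870912) (W3 := 50465866) (N0 := 3) (En := eng) (mo := mog) (C1 := cd4q3) (C2 := cd6q1) (C3 := pd3)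
    rfl k0_pp_313

noncomputable def f_pm_001 : ℕ → ℕ → ℕ → ℕ → Bool := onCell 0 536870912 0 536870912 536870912 50465866
    (rowB 3 eng mog cd4q0 cd6q0 pd1 0 true true false .up 0 0 1 (qsf 0 536870912 0 536870912 1) ndB4q0 ndB6q0 pcB1 Cut.none Ext.none)

def k0_pm_001 : ∃ t, chk3 f_pm_001 t 1 1 1 = true :=
  ⟨(l 3), by decide +kernel⟩

theorem c_pm_001 : CertB 0 536870912 0 536870912 536870912 50465866 3 eng mog cd4q0 cd6q0 pd1 true true false .up 0 0 1
    ndB4q0 ndB6q0 pcB1 Cut.none Ext.none :=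
  certB0 (fam := true) (s1 := true) (s2 := false) (a := 0) (b := 0) (c := 1) (cn := .up) (n1 := ndB4q0) (n2 := ndB6q0) (pc := pcB1) (cut := Cut.none) (xt := Ext.none) (P1 := 0) (W1 := 536870912) (P2 := 0) (W2 := 536870912) (P3 := 536870912) (W3 := 50465866) (N0 := 3) (En := eng) (mo := mog) (C1 := cd4q0) (C2 := cd6q0) (C3 := pd1)
    rfl k0_pm_001

noncomputable def f_pm_011 : ℕ → ℕ → ℕ → ℕ → Bool := onCell 0 536870912 536870912 536870912 536870912 50465866
    (rowB 3 eng mog cd4q0 cd6q1 pd1 1 true true false .pnn 0 1 1 (qsf 0 536870912 536870912 536870912 1) ndB4q0 ndB6q1 pcB1 Cut.none Ext.none)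

def k0_pm_011 : ∃ t, chk3 f_pm_011 t 1 1 1 = true :=
  ⟨(l 3), by decide +kernel⟩

theorem c_pm_011 : CertB 0 536870912 536870912 536870912 536870912 50465866 3 eng mog cd4q0 cd6q1 pd1 true true false .pnn 0 1 1
    ndB4q0 ndB6q1 pcB1 Cut.none Ext.none :=
  certB1 (fam := true) (s1 := true) (s2 := false) (a := 0) (b := 1) (c := 1) (cn := .pnn) (n1 := ndB4q0) (n2 := ndB6q1) (pc := pcB1) (cut := Cut.none) (xt := Ext.none) (P1 := 0) (W1 := 536870912) (P2 := 536870912) (W2 := 536870912) (P3 := 536870912) (W3 := 50465866) (N0 := 3) (En := eng) (mo := mog) (C1 := cd4q0) (C2 := cd6q1) (C3 := pd1)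
    rfl (fun _ => rfl) k0_pm_011

noncomputable def f_pm_012 : ℕ → ℕ → ℕ → ℕ → Bool := onCell 0 536870912 1073741824 536870912 536870912 50465866
    (rowB 3 eng mog cd4q0 cd6q1 pd2 1 true true false .pnp 0 1 2 (qsf 0 536870912 536870912 536870912 2) ndB4q0 ndB6q1 pcB2 Cut.none Ext.none)

def k0_pm_012 : ∃ t, chk3 f_pm_012 t 1 1 1 = true :=
  ⟨(a (a (b (b (b (l 3) (l 3)) (b (b (b (a (l 2) (a (l 2) (l 16481264))) (l 2)) (l 2)) (l 2))) (l 2)) (b (b (l 3) (b (b (b (a (l 16519376) (l 16556616)) (b (a (l 16498232) (l 16540272)) (b (a (l 16488896) (l 16533568)) (a (l 16482248) (l 16529328))))) (a (l 16451944) (l 16507136))) (a (a (l 2) (l 16387640)) (l 16442616)))) (b (a (l 2) (b (l 16348208) (l 2))) (l 2)))) (b (b (l 3) (a (b (b (b (l 3) (b (l 16595240) (b (l 16592360) (l 16590768)))) (l 16580464)) (a (l 16508400) (l 16588520))) (b (b (b (a (l 3) (l 16670056)) (b (a (l 16645592) (l 16670256)) (b (a (l 16645920) (l 16672016)) (a (l 16646480) (l 16673472)))))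 (a (l 16646776) (l 16678576))) (a (l 16651544) (l 16698696))))) (a (b (a (l 16403848) (l 16551848)) (a (l 2) (l 16480928))) (a (b (l 16675872) (l 16723576)) (b (l 16769712) (l 16927592)))))), by decide +kernel⟩

theorem c_pm_012 : CertB 0 536870912 536870912 536870912 536870912 50465866 3 eng mog cd4q0 cd6q1 pd2 true true false .pnp 0 1 2
    ndB4q0 ndB6q1 pcB2 Cut.none Ext.none :=
  certB1 (fam := true) (s1 := true) (s2 := false) (a := 0) (b := 1) (c := 2) (cn := .pnp) (n1 := ndB4q0) (n2 := ndB6q1) (pc := pcB2) (cut := Cut.none) (xt := Ext.none) (P1 := 0) (W1 := 536870912) (P2 := 536870912) (W2 := 536870912) (P3 := 536870912) (W3 := 50465866) (N0 := 3) (En := eng) (mo := mog) (C1 := cd4q0) (C2 := cd6q1) (C3 := pd2)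
    rfl (fun _ => rfl) k0_pm_012

noncomputable def f_pm_022 : ℕ → ℕ → ℕ → ℕ → Bool := onCell 0 536870912 1073741824 536870912 536870912 50465866
    (rowB 3 eng mog cd4q0 cd6q2 pd2 1 true true false .pp 0 2 2 (qsf 0 536870912 1073741824 536870912 2) ndB4q0 ndB6q2 pcB2 Cut.none Ext.none)

def k0_pm_022 : ∃ t, chk3 f_pm_022 t 1 1 1 = true :=
  ⟨(a (b (a (b (b (l 3) (l 3)) (b (b (b (a (l 16583352) (l 16535568)) (b (a (l 16573528) (l 16530496)) (b (l 16592160) (a (l 16565744) (l 16527008))))) (a (l 16551816) (l 16520232))) (a (l 16513736) (l 16501112)))) (a (b (l 3) (b (b (b (l 394633403207) (b (l 16477824) (b (l 16478656) (l 16478808)))) (l 16479016)) (l 16476672))) (b (l 1) (b (b (l 1) (l 16429976)) (l 16442480))))) (a (b (b (a (l 16456128) (l 16471976)) (a (l 16382592) (l 16435032))) (a (b (l 16282760) (l 16145072)) (b (l 16382896) (l 16305072)))) (b (b (l 16521880) (l 16452072)) (b (l 16627040) (l 16413624))))) (b (b (l 1) (a (b (l 1) (a (l 16415696)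 (l 1))) (l 1))) (a (b (a (l 16574640) (l 16522272)) (a (l 16459344) (l 16564232))) (a (b (l 592739310615) (l 16721688)) (b (l 1) (l 16969912)))))), by decide +kernel⟩

theorem c_pm_022 : CertB 0 536870912 1073741824 536870912 536870912 50465866 3 eng mog cd4q0 cd6q2 pd2 true true false .pp 0 2 2
    ndB4q0 ndB6q2 pcB2 Cut.none Ext.none :=
  certB1 (fam := true) (s1 := true) (s2 := false) (a := 0) (b := 2) (c := 2) (cn := .pp) (n1 := ndB4q0) (n2 := ndB6q2) (pc := pcB2) (cut := Cut.none) (xt := Ext.none) (P1 := 0) (W1 := 536870912) (P2 := 1073741824) (W2 := 536870912) (P3 := 536870912) (W3 := 50465866) (N0 := 3) (En := eng) (mo := mog) (C1 := cd4q0) (C2 := cd6q2) (C3 := pd2)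
    rfl (fun _ => rfl) k0_pm_022

noncomputable def f_pm_023 : ℕ → ℕ → ℕ → ℕ → Bool := onCell 0 536870912 1073741824 536870912 536870912 50465866
    (rowB 3 eng mog cd4q0 cd6q2 pd3 0 true true false .up 0 2 3 (qsf 0 536870912 1073741824 536870912 3) ndB4q0 ndB6q2 pcB3 Cut.none Ext.none)

def k0_pm_023 : ∃ t, chk3 f_pm_023 t 1 1 1 = true :=
  ⟨(a (b (b (l 1) (a (l 1) (l 485364439623))) (a (b (l 558379015431) (l 582000661927)) (b (l 541198833271) (b (l 16329760) (a (l 16358904) (l 16512632)))))) (b (a (b (l 548715579095) (l 16515832)) (a (l 576633348823) (l 548179668711))) (a (b (l 16520224) (b (l 16607488) (l 16661920))) (b (a (l 16751536) (l 16818312)) (b (l 17004056) (a (l 16756832) (a (l 16751168) (b (l 16757232) (a (l 16769480) (l 16775184)))))))))), by decide +kernel⟩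

theorem c_pm_023 : CertB 0 536870912 1073741824 536870912 536870912 50465866 3 eng mog cd4q0 cd6q2 pd3 true true false .up 0 2 3
    ndB4q0 ndB6q2 pcB3 Cut.none Ext.none :=
  certB0 (fam := true) (s1 := true) (s2 := false) (a := 0) (b := 2) (c := 3) (cn := .up) (n1 := ndB4q0) (n2 := ndB6q2) (pc := pcB3) (cut := Cut.none) (xt := Ext.none) (P1 := 0) (W1 := 536870912) (P2 := 1073741824) (W2 := 536870912) (P3 := 536870912) (W3 := 50465866) (N0 := 3) (En := eng) (mo := mog) (C1 := cd4q0) (C2 := cd6q2) (C3 := pd3)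
    rfl k0_pm_023

noncomputable def f_pm_033 : ℕ → ℕ → ℕ → ℕ → Bool := onCell 1610612736 536870912 0 1230186008 536870912 50465866
    (rowB 3 eng mog cd4q0 cd6q3 pd3 2 true true false .pnn 0 3 3 (qsf 0 536870912 0 1230186008 3) ndB4q0 ndB6q3 pcB3 Cut.none Ext.none)

def k0_pm_033 : ∃ t, chk3 f_pm_033 t 1 1 1 = true :=
  ⟨(b (a (l 1) (a (l 1) (b (l 4) (a (l 1200476676023) (l 4))))) (b (a (b (l 1) (a (l 1) (a (l 1) (l 1061964695079)))) (a (a (b (l 1) (l 16766736)) (b (l 17056568) (l 16846120))) (a (b (l 16786976) (l 16779536)) (l 4)))) (a (b (a (l 1) (b (l 16895656) (l 16625856))) (a (b (l 905733992711) (l 16200272)) (b (l 16564408) (l 16519984)))) (b (a (a (l 16712984) (l 16751800)) (a (l 16770200) (a (l 16775584) (l 4)))) (a (l 16691256) (a (b (l 16753336) (l 16744312)) (a (b (l 16775768) (l 16769032)) (l 4)))))))), by decide +kernel⟩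

theorem c_pm_033 : CertB 0 536870912 0 1230186008 536870912 50465866 3 eng mog cd4q0 cd6q3 pd3 true true false .pnn 0 3 3
    ndB4q0 ndB6q3 pcB3 Cut.none Ext.none :=
  certB2 (fam := true) (s1 := true) (s2 := false) (a := 0) (b := 3) (c := 3) (cn := .pnn) (n1 := ndB4q0) (n2 := ndB6q3) (pc := pcB3) (cut := Cut.none) (xt := Ext.none) (P1 := 0) (W1 := 536870912) (P2 := 0) (W2 := 1230186008) (P3 := 536870912) (W3 := 50465866) (N0 := 3) (En := eng) (mo := mog) (C1 := cd4q0) (C2 := cd6q3) (C3 := pd3)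
    rfl (fun _ => rfl) k0_pm_033

noncomputable def f_pm_101 : ℕ → ℕ → ℕ → ℕ → Bool := onCell 536870912 536870912 536870912 536870912 536870912 50465866
    (rowB 3 eng mog cd4q1 cd6q0 pd1 1 true true false .npn 1 0 1 (qsf 536870912 536870912 0 536870912 1) ndB4q1 ndB6q0 pcB1 Cut.none Ext.none)

def k0_pm_101 : ∃ t, chk3 f_pm_101 t 1 1 1 = true :=
  ⟨(l 3), by decide +kernel⟩

theorem c_pm_101 : CertB 536870912 536870912 0 536870912 536870912 50465866 3 eng mog cd4q1 cd6q0 pd1 true true false .npn 1 0 1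
    ndB4q1 ndB6q0 pcB1 Cut.none Ext.none :=
  certB1 (fam := true) (s1 := true) (s2 := false) (a := 1) (b := 0) (c := 1) (cn := .npn) (n1 := ndB4q1) (n2 := ndB6q0) (pc := pcB1) (cut := Cut.none) (xt := Ext.none) (P1 := 536870912) (W1 := 536870912) (P2 := 0) (W2 := 536870912) (P3 := 536870912) (W3 := 50465866) (N0 := 3) (En := eng) (mo := mog) (C1 := cd4q1) (C2 := cd6q0) (C3 := pd1)
    rfl (fun _ => rfl) k0_pm_101

noncomputable def f_pm_102 : ℕ → ℕ → ℕ → ℕ → Bool := onCell 1073741824 536870912 0 536870912 536870912 50465866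
    (rowB 3 eng mog cd4q1 cd6q0 pd2 2 true true false .npp 1 0 2 (qsf 536870912 536870912 0 536870912 2) ndB4q1 ndB6q0 pcB2 Cut.none Ext.none)

def k0_pm_102 : ∃ t, chk3 f_pm_102 t 1 1 1 = true :=
  ⟨(a (b (a (a (l 3) (a (l 3) (a (l 3) (b (l 240618972359) (l 16678080))))) (b (a (a (a (b (l 2) (l 16706600)) (l 2)) (l 2)) (l 2)) (a (a (a (b (l 16679936) (l 16689896)) (a (l 16692120) (a (l 16695616) (l 165994120663)))) (l 16706800)) (l 16721552)))) (a (l 3) (a (a (a (b (l 16699064) (l 16702336)) (a (b (l 16707584) (l 16710528)) (b (a (l 16711312) (l 16714520)) (l 16716640)))) (b (l 16727432) (l 16733480))) (b (l 16765784) (l 16782584))))) (a (b (b (l 2) (l 16902032)) (b (b (l 16834416) (l 16879192)) (l 16921840))) (b (l 2) (b (l 90832739431) (l 17214064))))), by decide +kernel⟩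

theorem c_pm_102 : CertB 536870912 536870912 0 536870912 536870912 50465866 3 eng mog cd4q1 cd6q0 pd2 true true false .npp 1 0 2
    ndB4q1 ndB6q0 pcB2 Cut.none Ext.none :=
  certB2 (fam := true) (s1 := true) (s2 := false) (a := 1) (b := 0) (c := 2) (cn := .npp) (n1 := ndB4q1) (n2 := ndB6q0) (pc := pcB2) (cut := Cut.none) (xt := Ext.none) (P1 := 536870912) (W1 := 536870912) (P2 := 0) (W2 := 536870912) (P3 := 536870912) (W3 := 50465866) (N0 := 3) (En := eng) (mo := mog) (C1 := cd4q1) (C2 := cd6q0) (C3 := pd2)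
    rfl (fun _ => rfl) k0_pm_102

noncomputable def f_pm_112 : ℕ → ℕ → ℕ → ℕ → Bool := onCell 536870912 536870912 1073741824 536870912 536870912 50465866
    (rowB 3 eng mog cd4q1 cd6q1 pd2 1 true true false .dn 1 1 2 (qsf 536870912 536870912 536870912 536870912 2) ndB4q1 ndB6q1 pcB2 Cut.none Ext.none)

def k0_pm_112 : ∃ t, chk3 f_pm_112 t 1 1 1 = true :=
  ⟨(a (b (b (l 3) (a (b (b (b (a (l 16687392) (l 16697600)) (b (a (l 16690784) (l 16703376)) (a (l 16695160) (l 16708680)))) (a (l 16705728) (l 16722408))) (a (l 16740184) (l 16766008))) (b (b (b (l 16702488) (b (l 16710408) (l 16716352))) (l 16732720)) (l 16783152)))) (a (a (b (l 16857504) (l 17135712)) (b (l 16913592) (l 17283160))) (b (l 16958224) (l 17429608)))) (b (b (l 1) (b (l 1) (a (l 16778736) (l 1)))) (b (a (l 16941920) (l 16883896)) (a (l 17430240) (l 17288872))))), by decide +kernel⟩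

theorem c_pm_112 : CertB 536870912 536870912 536870912 536870912 536870912 50465866 3 eng mog cd4q1 cd6q1 pd2 true true false .dn 1 1 2
    ndB4q1 ndB6q1 pcB2 Cut.none Ext.none :=
  certB1 (fam := true) (s1 := true) (s2 := false) (a := 1) (b := 1) (c := 2) (cn := .dn) (n1 := ndB4q1) (n2 := ndB6q1) (pc := pcB2) (cut := Cut.none) (xt := Ext.none) (P1 := 536870912) (W1 := 536870912) (P2 := 536870912) (W2 := 536870912) (P3 := 536870912) (W3 := 50465866) (N0 := 3) (En := eng) (mo := mog) (C1 := cd4q1) (C2 := cd6q1) (C3 := pd2)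
    rfl (fun _ => rfl) k0_pm_112

noncomputable def f_pm_113 : ℕ → ℕ → ℕ → ℕ → Bool := onCell 536870912 536870912 1610612736 536870912 536870912 50465866
    (rowB 3 eng mog cd4q1 cd6q1 pd3 1 true true false .nn 1 1 3 (qsf 536870912 536870912 536870912 536870912 3) ndB4q1 ndB6q1 pcB3 Cut.none Ext.none)

def k0_pm_113 : ∃ t, chk3 f_pm_113 t 1 1 1 = true :=
  ⟨(a (b (a (a (l 17234008) (l 17437168)) (l 17603760)) (b (a (l 2) (l 17251496)) (l 2))) (b (b (l 17940080) (l 17677712)) (b (l 17297688) (b (l 17040136) (b (l 16915944) (b (l 16854872) (l 16815816))))))), by decide +kernel⟩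

theorem c_pm_113 : CertB 536870912 536870912 536870912 536870912 536870912 50465866 3 eng mog cd4q1 cd6q1 pd3 true true false .nn 1 1 3
    ndB4q1 ndB6q1 pcB3 Cut.none Ext.none :=
  certB1 (fam := true) (s1 := true) (s2 := false) (a := 1) (b := 1) (c := 3) (cn := .nn) (n1 := ndB4q1) (n2 := ndB6q1) (pc := pcB3) (cut := Cut.none) (xt := Ext.none) (P1 := 536870912) (W1 := 536870912) (P2 := 536870912) (W2 := 536870912) (P3 := 536870912) (W3 := 50465866) (N0 := 3) (En := eng) (mo := mog) (C1 := cd4q1) (C2 := cd6q1) (C3 := pd3)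
    rfl (fun _ => rfl) k0_pm_113

noncomputable def f_pm_123 : ℕ → ℕ → ℕ → ℕ → Bool := onCell 536870912 536870912 1610612736 536870912 536870912 50465866
    (rowB 3 eng mog cd4q1 cd6q2 pd3 1 true true false .npn 1 2 3 (qsf 536870912 536870912 1073741824 536870912 3) ndB4q1 ndB6q2 pcB3 Cut.none Ext.none)

def k0_pm_123 : ∃ t, chk3 f_pm_123 t 1 1 1 = true :=
  ⟨(a (b (a (a (b (l 17326104) (l 17084584)) (l 17395216)) (b (l 17768552) (l 17484240))) (b (a (a (l 16889528) (l 16982720)) (l 17138280)) (a (b (l 16802008) (b (l 16765304) (b (l 16783000) (l 4)))) (b (l 16913624) (b (l 16814848) (b (l 16774456) (l 16771424))))))) (b (a (l 631933326471) (l 1)) (b (a (l 17272696) (l 17366016)) (b (l 17027816) (b (l 16888624) (b (l 16820400) (a (l 16777312) (l 16794128)))))))), by decide +kernel⟩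

theorem c_pm_123 : CertB 536870912 536870912 1073741824 536870912 536870912 50465866 3 eng mog cd4q1 cd6q2 pd3 true true false .npn 1 2 3
    ndB4q1 ndB6q2 pcB3 Cut.none Ext.none :=
  certB1 (fam := true) (s1 := true) (s2 := false) (a := 1) (b := 2) (c := 3) (cn := .npn) (n1 := ndB4q1) (n2 := ndB6q2) (pc := pcB3) (cut := Cut.none) (xt := Ext.none) (P1 := 536870912) (W1 := 536870912) (P2 := 1073741824) (W2 := 536870912) (P3 := 536870912) (W3 := 50465866) (N0 := 3) (En := eng) (mo := mog) (C1 := cd4q1) (C2 := cd6q2) (C3 := pd3)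
    rfl (fun _ => rfl) k0_pm_123

noncomputable def f_pm_133 : ℕ → ℕ → ℕ → ℕ → Bool := onCell 536870912 536870912 0 1230186008 536870912 50465866
    (rowB 3 eng mog cd4q1 cd6q3 pd3 0 true true false .dn 1 3 3 (qsf 536870912 536870912 0 1230186008 3) ndB4q1 ndB6q3 pcB3 Cut.none Ext.none)

def k0_pm_133 : ∃ t, chk3 f_pm_133 t 1 1 1 = true :=
  ⟨(b (l 2) (b (l 2) (a (l 4) (l 2)))), by decide +kernel⟩

theorem c_pm_133 : CertB 536870912 536870912 0 1230186008 536870912 50465866 3 eng mog cd4q1 cd6q3 pd3 true true false .dn 1 3 3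
    ndB4q1 ndB6q3 pcB3 Cut.none Ext.none :=
  certB0 (fam := true) (s1 := true) (s2 := false) (a := 1) (b := 3) (c := 3) (cn := .dn) (n1 := ndB4q1) (n2 := ndB6q3) (pc := pcB3) (cut := Cut.none) (xt := Ext.none) (P1 := 536870912) (W1 := 536870912) (P2 := 0) (W2 := 1230186008) (P3 := 536870912) (W3 := 50465866) (N0 := 3) (En := eng) (mo := mog) (C1 := cd4q1) (C2 := cd6q3) (C3 := pd3)
    rfl k0_pm_133

noncomputable def f_pm_202 : ℕ → ℕ → ℕ → ℕ → Bool := onCell 1073741824 536870912 1073741824 536870912 536870912 50465866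
    (rowB 3 eng mog cd4q2 cd6q0 pd2 1 true true false .pp 2 0 2 (qsf 1073741824 536870912 0 536870912 2) ndB4q2 ndB6q0 pcB2 Cut.none Ext.none)

def k0_pm_202 : ∃ t, chk3 f_pm_202 t 1 1 1 = true :=
  ⟨(a (b (b (a (a (b (a (b (l 16603968) (l 16659144)) (l 116534577671)) (a (l 16725472) (l 16652088))) (b (a (l 246994040487) (l 1)) (b (l 16706008) (l 16618736)))) (a (b (l 1) (a (l 16527408) (l 1))) (l 1))) (a (b (a (l 16782560) (l 16657488)) (l 16794008)) (b (a (b (l 16594352) (l 16627648)) (b (l 1) (l 16574360))) (a (l 16662688) (l 16630872))))) (b (a (b (l 16895240) (l 17010864)) (b (l 16691608) (l 16741328))) (b (a (l 17152344) (l 16801960)) (a (l 17167080) (l 16874336))))) (b (a (b (l 1) (b (l 1) (a (l 16581416) (l 1)))) (l 1)) (b (a (b (l 16630264) (l 16685288)) (a (b (l 1) (l 16645472)) (l 1))) (a (b (l 16717720) (l 16742496)) (a (l 16710200) (l 414498223735)))))), by decide +kernel⟩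

theorem c_pm_202 : CertB 1073741824 536870912 0 536870912 536870912 50465866 3 eng mog cd4q2 cd6q0 pd2 true true false .pp 2 0 2
    ndB4q2 ndB6q0 pcB2 Cut.none Ext.none :=
  certB1 (fam := true) (s1 := true) (s2 := false) (a := 2) (b := 0) (c := 2) (cn := .pp) (n1 := ndB4q2) (n2 := ndB6q0) (pc := pcB2) (cut := Cut.none) (xt := Ext.none) (P1 := 1073741824) (W1 := 536870912) (P2 := 0) (W2 := 536870912) (P3 := 536870912) (W3 := 50465866) (N0 := 3) (En := eng) (mo := mog) (C1 := cd4q2) (C2 := cd6q0) (C3 := pd2)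
    rfl (fun _ => rfl) k0_pm_202

noncomputable def f_pm_203 : ℕ → ℕ → ℕ → ℕ → Bool := onCell 1073741824 536870912 1610612736 536870912 536870912 50465866
    (rowB 3 eng mog cd4q2 cd6q0 pd3 1 true true false .up 2 0 3 (qsf 1073741824 536870912 0 536870912 3) ndB4q2 ndB6q0 pcB3 Cut.none Ext.none)

def k0_pm_203 : ∃ t, chk3 f_pm_203 t 1 1 1 = true :=
  ⟨(a (b (b (a (b (l 17151744) (l 17091176)) (b (l 16956656) (l 17057488))) (a (b (l 17022624) (l 2)) (b (l 17020520) (l 16939888)))) (a (l 2) (l 4))) (b (a (b (l 16777784) (l 16974960)) (b (a (l 16745336) (l 16742832)) (l 4))) (l 4))), by decide +kernel⟩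

theorem c_pm_203 : CertB 1073741824 536870912 0 536870912 536870912 50465866 3 eng mog cd4q2 cd6q0 pd3 true true false .up 2 0 3
    ndB4q2 ndB6q0 pcB3 Cut.none Ext.none :=
  certB1 (fam := true) (s1 := true) (s2 := false) (a := 2) (b := 0) (c := 3) (cn := .up) (n1 := ndB4q2) (n2 := ndB6q0) (pc := pcB3) (cut := Cut.none) (xt := Ext.none) (P1 := 1073741824) (W1 := 536870912) (P2 := 0) (W2 := 536870912) (P3 := 536870912) (W3 := 50465866) (N0 := 3) (En := eng) (mo := mog) (C1 := cd4q2) (C2 := cd6q0) (C3 := pd3)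
    rfl (fun _ => rfl) k0_pm_203

noncomputable def f_pm_213 : ℕ → ℕ → ℕ → ℕ → Bool := onCell 1073741824 536870912 1610612736 536870912 536870912 50465866
    (rowB 3 eng mog cd4q2 cd6q1 pd3 1 true true false .pnn 2 1 3 (qsf 1073741824 536870912 536870912 536870912 3) ndB4q2 ndB6q1 pcB3 Cut.none Ext.none)

def k0_pm_213 : ∃ t, chk3 f_pm_213 t 1 1 1 = true :=
  ⟨(a (a (b (b (b (l 17164368) (l 17104064)) (b (l 17037184) (l 16969104))) (b (b (l 16896472) (l 4)) (l 4))) (b (b (l 342558145655) (b (l 17036256) (l 16955680))) (l 4))) (b (a (b (l 1) (l 16803896)) (l 1)) (l 4))), by decide +kernel⟩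

theorem c_pm_213 : CertB 1073741824 536870912 536870912 536870912 536870912 50465866 3 eng mog cd4q2 cd6q1 pd3 true true false .pnn 2 1 3
    ndB4q2 ndB6q1 pcB3 Cut.none Ext.none :=
  certB1 (fam := true) (s1 := true) (s2 := false) (a := 2) (b := 1) (c := 3) (cn := .pnn) (n1 := ndB4q2) (n2 := ndB6q1) (pc := pcB3) (cut := Cut.none) (xt := Ext.none) (P1 := 1073741824) (W1 := 536870912) (P2 := 536870912) (W2 := 536870912) (P3 := 536870912) (W3 := 50465866) (N0 := 3) (En := eng) (mo := mog) (C1 := cd4q2) (C2 := cd6q1) (C3 := pd3)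
    rfl (fun _ => rfl) k0_pm_213

noncomputable def f_pm_303 : ℕ → ℕ → ℕ → ℕ → Bool := onCell 0 1230186008 1610612736 536870912 536870912 50465866
    (rowB 3 eng mog cd4q3 cd6q0 pd3 1 true true false .npn 3 0 3 (qsf 0 1230186008 0 536870912 3) ndB4q3 ndB6q0 pcB3 Cut.none Ext.none)

def k0_pm_303 : ∃ t, chk3 f_pm_303 t 1 1 1 = true :=
  ⟨(a (l 4) (a (l 4) (b (a (l 4) (b (a (l 16756808) (l 16748792)) (l 4))) (l 4)))), by decide +kernel⟩

theorem c_pm_303 : CertB 0 1230186008 0 536870912 536870912 50465866 3 eng mog cd4q3 cd6q0 pd3 true true false .npn 3 0 3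
    ndB4q3 ndB6q0 pcB3 Cut.none Ext.none :=
  certB1 (fam := true) (s1 := true) (s2 := false) (a := 3) (b := 0) (c := 3) (cn := .npn) (n1 := ndB4q3) (n2 := ndB6q0) (pc := pcB3) (cut := Cut.none) (xt := Ext.none) (P1 := 0) (W1 := 1230186008) (P2 := 0) (W2 := 536870912) (P3 := 536870912) (W3 := 50465866) (N0 := 3) (En := eng) (mo := mog) (C1 := cd4q3) (C2 := cd6q0) (C3 := pd3)
    rfl (fun _ => rfl) k0_pm_303

noncomputable def f_pm_313 : ℕ → ℕ → ℕ → ℕ → Bool := onCell 0 1230186008 536870912 536870912 536870912 50465866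
    (rowB 3 eng mog cd4q3 cd6q1 pd3 0 true true false .dn 3 1 3 (qsf 0 1230186008 536870912 536870912 3) ndB4q3 ndB6q1 pcB3 Cut.none Ext.none)

def k0_pm_313 : ∃ t, chk3 f_pm_313 t 1 1 1 = true :=
  ⟨(a (l 2) (l 4)), by decide +kernel⟩

theorem c_pm_313 : CertB 0 1230186008 536870912 536870912 536870912 50465866 3 eng mog cd4q3 cd6q1 pd3 true true false .dn 3 1 3
    ndB4q3 ndB6q1 pcB3 Cut.none Ext.none :=
  certB0 (fam := true) (s1 := true) (s2 := false) (a := 3) (b := 1) (c := 3) (cn := .dn) (n1 := ndB4q3) (n2 := ndB6q1) (pc := pcB3) (cut := Cut.none) (xt := Ext.none) (P1 := 0) (W1 := 1230186008) (P2 := 536870912) (W2 := 536870912) (P3 := 536870912) (W3 := 50465866) (N0 := 3) (En := eng) (mo := mog) (C1 := cd4q3) (C2 := cd6q1) (C3 := pd3)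
    rfl k0_pm_313

noncomputable def f_mm_001 : ℕ → ℕ → ℕ → ℕ → Bool := onCell 0 536870912 0 536870912 536870912 50465866
    (rowB 3 eng mog cd4q0 cd6q0 pd1 0 true false false .up 0 0 1 (qsf 0 536870912 0 536870912 1) ndB4q0 ndB6q0 pcB1 Cut.none Ext.none)

def k0_mm_001 : ∃ t, chk3 f_mm_001 t 1 1 1 = true :=
  ⟨(l 4), by decide +kernel⟩

theorem c_mm_001 : CertB 0 536870912 0 536870912 536870912 50465866 3 eng mog cd4q0 cd6q0 pd1 true false false .up 0 0 1
    ndB4q0 ndB6q0 pcB1 Cut.none Ext.none :=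
  certB0 (fam := true) (s1 := false) (s2 := false) (a := 0) (b := 0) (c := 1) (cn := .up) (n1 := ndB4q0) (n2 := ndB6q0) (pc := pcB1) (cut := Cut.none) (xt := Ext.none) (P1 := 0) (W1 := 536870912) (P2 := 0) (W2 := 536870912) (P3 := 536870912) (W3 := 50465866) (N0 := 3) (En := eng) (mo := mog) (C1 := cd4q0) (C2 := cd6q0) (C3 := pd1)
    rfl k0_mm_001

noncomputable def f_mm_011 : ℕ → ℕ → ℕ → ℕ → Bool := onCell 0 536870912 536870912 536870912 536870912 50465866
    (rowB 3 eng mog cd4q0 cd6q1 pd1 0 true false false .pnn 0 1 1 (qsf 0 536870912 536870912 536870912 1) ndB4q0 ndB6q1 pcB1 Cut.none Ext.none)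

def k0_mm_011 : ∃ t, chk3 f_mm_011 t 1 1 1 = true :=
  ⟨(l 4), by decide +kernel⟩

theorem c_mm_011 : CertB 0 536870912 536870912 536870912 536870912 50465866 3 eng mog cd4q0 cd6q1 pd1 true false false .pnn 0 1 1
    ndB4q0 ndB6q1 pcB1 Cut.none Ext.none :=
  certB0 (fam := true) (s1 := false) (s2 := false) (a := 0) (b := 1) (c := 1) (cn := .pnn) (n1 := ndB4q0) (n2 := ndB6q1) (pc := pcB1) (cut := Cut.none) (xt := Ext.none) (P1 := 0) (W1 := 536870912) (P2 := 536870912) (W2 := 536870912) (P3 := 536870912) (W3 := 50465866) (N0 := 3) (En := eng) (mo := mog) (C1 := cd4q0) (C2 := cd6q1) (C3 := pd1)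
    rfl k0_mm_011

noncomputable def f_mm_012 : ℕ → ℕ → ℕ → ℕ → Bool := onCell 0 536870912 536870912 536870912 536870912 50465866
    (rowB 3 eng mog cd4q0 cd6q1 pd2 0 true false false .pnp 0 1 2 (qsf 0 536870912 536870912 536870912 2) ndB4q0 ndB6q1 pcB2 Cut.none Ext.none)

def k0_mm_012 : ∃ t, chk3 f_mm_012 t 1 1 1 = true :=
  ⟨(l 4), by decide +kernel⟩

theorem c_mm_012 : CertB 0 536870912 536870912 536870912 536870912 50465866 3 eng mog cd4q0 cd6q1 pd2 true false false .pnp 0 1 2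
    ndB4q0 ndB6q1 pcB2 Cut.none Ext.none :=
  certB0 (fam := true) (s1 := false) (s2 := false) (a := 0) (b := 1) (c := 2) (cn := .pnp) (n1 := ndB4q0) (n2 := ndB6q1) (pc := pcB2) (cut := Cut.none) (xt := Ext.none) (P1 := 0) (W1 := 536870912) (P2 := 536870912) (W2 := 536870912) (P3 := 536870912) (W3 := 50465866) (N0 := 3) (En := eng) (mo := mog) (C1 := cd4q0) (C2 := cd6q1) (C3 := pd2)
    rfl k0_mm_012

noncomputable def f_mm_022 : ℕ → ℕ → ℕ → ℕ → Bool := onCell 0 536870912 1073741824 536870912 536870912 50465866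
    (rowB 3 eng mog cd4q0 cd6q2 pd2 0 true false false .pp 0 2 2 (qsf 0 536870912 1073741824 536870912 2) ndB4q0 ndB6q2 pcB2 Cut.none Ext.none)

def k0_mm_022 : ∃ t, chk3 f_mm_022 t 1 1 1 = true :=
  ⟨(l 4), by decide +kernel⟩

theorem c_mm_022 : CertB 0 536870912 1073741824 536870912 536870912 50465866 3 eng mog cd4q0 cd6q2 pd2 true false false .pp 0 2 2
    ndB4q0 ndB6q2 pcB2 Cut.none Ext.none :=
  certB0 (fam := true) (s1 := false) (s2 := false) (a := 0) (b := 2) (c := 2) (cn := .pp) (n1 := ndB4q0) (n2 := ndB6q2) (pc := pcB2) (cut := Cut.none) (xt := Ext.none) (P1 := 0) (W1 := 536870912) (P2 := 1073741824) (W2 := 536870912) (P3 := 536870912) (W3 := 50465866) (N0 := 3) (En := eng) (mo := mog) (C1 := cd4q0) (C2 := cd6q2) (C3 := pd2)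
    rfl k0_mm_022

noncomputable def f_mm_023 : ℕ → ℕ → ℕ → ℕ → Bool := onCell 0 536870912 1073741824 536870912 536870912 50465866
    (rowB 3 eng mog cd4q0 cd6q2 pd3 0 true false false .up 0 2 3 (qsf 0 536870912 1073741824 536870912 3) ndB4q0 ndB6q2 pcB3 Cut.none Ext.none)

def k0_mm_023 : ∃ t, chk3 f_mm_023 t 1 1 1 = true :=
  ⟨(l 4), by decide +kernel⟩

theorem c_mm_023 : CertB 0 536870912 1073741824 536870912 536870912 50465866 3 eng mog cd4q0 cd6q2 pd3 true false false .up 0 2 3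
    ndB4q0 ndB6q2 pcB3 Cut.none Ext.none :=
  certB0 (fam := true) (s1 := false) (s2 := false) (a := 0) (b := 2) (c := 3) (cn := .up) (n1 := ndB4q0) (n2 := ndB6q2) (pc := pcB3) (cut := Cut.none) (xt := Ext.none) (P1 := 0) (W1 := 536870912) (P2 := 1073741824) (W2 := 536870912) (P3 := 536870912) (W3 := 50465866) (N0 := 3) (En := eng) (mo := mog) (C1 := cd4q0) (C2 := cd6q2) (C3 := pd3)
    rfl k0_mm_023

noncomputable def f_mm_033 : ℕ → ℕ → ℕ → ℕ → Bool := onCell 0 536870912 0 1230186008 536870912 50465866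
    (rowB 3 eng mog cd4q0 cd6q3 pd3 0 true false false .pnn 0 3 3 (qsf 0 536870912 0 1230186008 3) ndB4q0 ndB6q3 pcB3 Cut.none Ext.none)

def k0_mm_033 : ∃ t, chk3 f_mm_033 t 1 1 1 = true :=
  ⟨(l 4), by decide +kernel⟩

theorem c_mm_033 : CertB 0 536870912 0 1230186008 536870912 50465866 3 eng mog cd4q0 cd6q3 pd3 true false false .pnn 0 3 3
    ndB4q0 ndB6q3 pcB3 Cut.none Ext.none :=
  certB0 (fam := true) (s1 := false) (s2 := false) (a := 0) (b := 3) (c := 3) (cn := .pnn) (n1 := ndB4q0) (n2 := ndB6q3) (pc := pcB3) (cut := Cut.none) (xt := Ext.none) (P1 := 0) (W1 := 536870912) (P2 := 0) (W2 := 1230186008) (P3 := 536870912) (W3 := 50465866) (N0 := 3) (En := eng) (mo := mog) (C1 := cd4q0) (C2 := cd6q3) (C3 := pd3)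
    rfl k0_mm_033

noncomputable def f_mm_101 : ℕ → ℕ → ℕ → ℕ → Bool := onCell 536870912 536870912 0 536870912 536870912 50465866
    (rowB 3 eng mog cd4q1 cd6q0 pd1 0 true false false .npn 1 0 1 (qsf 536870912 536870912 0 536870912 1) ndB4q1 ndB6q0 pcB1 Cut.none Ext.none)

def k0_mm_101 : ∃ t, chk3 f_mm_101 t 1 1 1 = true :=
  ⟨(l 4), by decide +kernel⟩

theorem c_mm_101 : CertB 536870912 536870912 0 536870912 536870912 50465866 3 eng mog cd4q1 cd6q0 pd1 true false false .npn 1 0 1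
    ndB4q1 ndB6q0 pcB1 Cut.none Ext.none :=
  certB0 (fam := true) (s1 := false) (s2 := false) (a := 1) (b := 0) (c := 1) (cn := .npn) (n1 := ndB4q1) (n2 := ndB6q0) (pc := pcB1) (cut := Cut.none) (xt := Ext.none) (P1 := 536870912) (W1 := 536870912) (P2 := 0) (W2 := 536870912) (P3 := 536870912) (W3 := 50465866) (N0 := 3) (En := eng) (mo := mog) (C1 := cd4q1) (C2 := cd6q0) (C3 := pd1)
    rfl k0_mm_101

noncomputable def f_mm_102 : ℕ → ℕ → ℕ → ℕ → Bool := onCell 536870912 536870912 0 536870912 536870912 50465866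
    (rowB 3 eng mog cd4q1 cd6q0 pd2 0 true false false .npp 1 0 2 (qsf 536870912 536870912 0 536870912 2) ndB4q1 ndB6q0 pcB2 Cut.none Ext.none)

def k0_mm_102 : ∃ t, chk3 f_mm_102 t 1 1 1 = true :=
  ⟨(l 4), by decide +kernel⟩

theorem c_mm_102 : CertB 536870912 536870912 0 536870912 536870912 50465866 3 eng mog cd4q1 cd6q0 pd2 true false false .npp 1 0 2
    ndB4q1 ndB6q0 pcB2 Cut.none Ext.none :=
  certB0 (fam := true) (s1 := false) (s2 := false) (a := 1) (b := 0) (c := 2) (cn := .npp) (n1 := ndB4q1) (n2 := ndB6q0) (pc := pcB2) (cut := Cut.none) (xt := Ext.none) (P1 := 536870912) (W1 := 536870912) (P2 := 0) (W2 := 536870912) (P3 := 536870912) (W3 := 50465866) (N0 := 3) (En := eng) (mo := mog) (C1 := cd4q1) (C2 := cd6q0) (C3 := pd2)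
    rfl k0_mm_102

noncomputable def f_mm_112 : ℕ → ℕ → ℕ → ℕ → Bool := onCell 536870912 536870912 536870912 536870912 536870912 50465866
    (rowB 3 eng mog cd4q1 cd6q1 pd2 0 true false false .dn 1 1 2 (qsf 536870912 536870912 536870912 536870912 2) ndB4q1 ndB6q1 pcB2 Cut.none Ext.none)

def k0_mm_112 : ∃ t, chk3 f_mm_112 t 1 1 1 = true :=
  ⟨(l 4), by decide +kernel⟩

theorem c_mm_112 : CertB 536870912 536870912 536870912 536870912 536870912 50465866 3 eng mog cd4q1 cd6q1 pd2 true false false .dn 1 1 2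
    ndB4q1 ndB6q1 pcB2 Cut.none Ext.none :=
  certB0 (fam := true) (s1 := false) (s2 := false) (a := 1) (b := 1) (c := 2) (cn := .dn) (n1 := ndB4q1) (n2 := ndB6q1) (pc := pcB2) (cut := Cut.none) (xt := Ext.none) (P1 := 536870912) (W1 := 536870912) (P2 := 536870912) (W2 := 536870912) (P3 := 536870912) (W3 := 50465866) (N0 := 3) (En := eng) (mo := mog) (C1 := cd4q1) (C2 := cd6q1) (C3 := pd2)
    rfl k0_mm_112

noncomputable def f_mm_113 : ℕ → ℕ → ℕ → ℕ → Bool := onCell 536870912 536870912 536870912 536870912 536870912 50465866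
    (rowB 3 eng mog cd4q1 cd6q1 pd3 0 true false false .nn 1 1 3 (qsf 536870912 536870912 536870912 536870912 3) ndB4q1 ndB6q1 pcB3 Cut.none Ext.none)

def k0_mm_113 : ∃ t, chk3 f_mm_113 t 1 1 1 = true :=
  ⟨(l 4), by decide +kernel⟩

theorem c_mm_113 : CertB 536870912 536870912 536870912 536870912 536870912 50465866 3 eng mog cd4q1 cd6q1 pd3 true false false .nn 1 1 3
    ndB4q1 ndB6q1 pcB3 Cut.none Ext.none :=
  certB0 (fam := true) (s1 := false) (s2 := false) (a := 1) (b := 1) (c := 3) (cn := .nn) (n1 := ndB4q1) (n2 := ndB6q1) (pc := pcB3) (cut := Cut.none) (xt := Ext.none) (P1 := 536870912) (W1 := 536870912) (P2 := 536870912) (W2 := 536870912) (P3 := 536870912) (W3 := 50465866) (N0 := 3) (En := eng) (mo := mog) (C1 := cd4q1) (C2 := cd6q1) (C3 := pd3)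
    rfl k0_mm_113

noncomputable def f_mm_123 : ℕ → ℕ → ℕ → ℕ → Bool := onCell 536870912 536870912 1073741824 536870912 536870912 50465866
    (rowB 3 eng mog cd4q1 cd6q2 pd3 0 true false false .npn 1 2 3 (qsf 536870912 536870912 1073741824 536870912 3) ndB4q1 ndB6q2 pcB3 Cut.none Ext.none)

def k0_mm_123 : ∃ t, chk3 f_mm_123 t 1 1 1 = true :=
  ⟨(l 4), by decide +kernel⟩

theorem c_mm_123 : CertB 536870912 536870912 1073741824 536870912 536870912 50465866 3 eng mog cd4q1 cd6q2 pd3 true false false .npn 1 2 3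
    ndB4q1 ndB6q2 pcB3 Cut.none Ext.none :=
  certB0 (fam := true) (s1 := false) (s2 := false) (a := 1) (b := 2) (c := 3) (cn := .npn) (n1 := ndB4q1) (n2 := ndB6q2) (pc := pcB3) (cut := Cut.none) (xt := Ext.none) (P1 := 536870912) (W1 := 536870912) (P2 := 1073741824) (W2 := 536870912) (P3 := 536870912) (W3 := 50465866) (N0 := 3) (En := eng) (mo := mog) (C1 := cd4q1) (C2 := cd6q2) (C3 := pd3)
    rfl k0_mm_123

noncomputable def f_mm_133 : ℕ → ℕ → ℕ → ℕ → Bool := onCell 536870912 536870912 0 1230186008 536870912 50465866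
    (rowB 3 eng mog cd4q1 cd6q3 pd3 0 true false false .dn 1 3 3 (qsf 536870912 536870912 0 1230186008 3) ndB4q1 ndB6q3 pcB3 Cut.none Ext.none)

def k0_mm_133 : ∃ t, chk3 f_mm_133 t 1 1 1 = true :=
  ⟨(l 4), by decide +kernel⟩

theorem c_mm_133 : CertB 536870912 536870912 0 1230186008 536870912 50465866 3 eng mog cd4q1 cd6q3 pd3 true false false .dn 1 3 3
    ndB4q1 ndB6q3 pcB3 Cut.none Ext.none :=
  certB0 (fam := true) (s1 := false) (s2 := false) (a := 1) (b := 3) (c := 3) (cn := .dn) (n1 := ndB4q1) (n2 := ndB6q3) (pc := pcB3) (cut := Cut.none) (xt := Ext.none) (P1 := 536870912) (W1 := 536870912) (P2 := 0) (W2 := 1230186008) (P3 := 536870912) (W3 := 50465866) (N0 := 3) (En := eng) (mo := mog) (C1 := cd4q1) (C2 := cd6q3) (C3 := pd3)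
    rfl k0_mm_133

noncomputable def f_mm_202 : ℕ → ℕ → ℕ → ℕ → Bool := onCell 1073741824 536870912 0 536870912 536870912 50465866
    (rowB 3 eng mog cd4q2 cd6q0 pd2 0 true false false .pp 2 0 2 (qsf 1073741824 536870912 0 536870912 2) ndB4q2 ndB6q0 pcB2 Cut.none Ext.none)

def k0_mm_202 : ∃ t, chk3 f_mm_202 t 1 1 1 = true :=
  ⟨(l 4), by decide +kernel⟩

theorem c_mm_202 : CertB 1073741824 536870912 0 536870912 536870912 50465866 3 eng mog cd4q2 cd6q0 pd2 true false false .pp 2 0 2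
    ndB4q2 ndB6q0 pcB2 Cut.none Ext.none :=
  certB0 (fam := true) (s1 := false) (s2 := false) (a := 2) (b := 0) (c := 2) (cn := .pp) (n1 := ndB4q2) (n2 := ndB6q0) (pc := pcB2) (cut := Cut.none) (xt := Ext.none) (P1 := 1073741824) (W1 := 536870912) (P2 := 0) (W2 := 536870912) (P3 := 536870912) (W3 := 50465866) (N0 := 3) (En := eng) (mo := mog) (C1 := cd4q2) (C2 := cd6q0) (C3 := pd2)
    rfl k0_mm_202

noncomputable def f_mm_203 : ℕ → ℕ → ℕ → ℕ → Bool := onCell 1073741824 536870912 0 536870912 536870912 50465866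
    (rowB 3 eng mog cd4q2 cd6q0 pd3 0 true false false .up 2 0 3 (qsf 1073741824 536870912 0 536870912 3) ndB4q2 ndB6q0 pcB3 Cut.none Ext.none)

def k0_mm_203 : ∃ t, chk3 f_mm_203 t 1 1 1 = true :=
  ⟨(l 4), by decide +kernel⟩

theorem c_mm_203 : CertB 1073741824 536870912 0 536870912 536870912 50465866 3 eng mog cd4q2 cd6q0 pd3 true false false .up 2 0 3
    ndB4q2 ndB6q0 pcB3 Cut.none Ext.none :=
  certB0 (fam := true) (s1 := false) (s2 := false) (a := 2) (b := 0) (c := 3) (cn := .up) (n1 := ndB4q2) (n2 := ndB6q0) (pc := pcB3) (cut := Cut.none) (xt := Ext.none) (P1 := 1073741824) (W1 := 536870912) (P2 := 0) (W2 := 536870912) (P3 := 536870912) (W3 := 50465866) (N0 := 3) (En := eng) (mo := mog) (C1 := cd4q2) (C2 := cd6q0) (C3 := pd3)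
    rfl k0_mm_203

noncomputable def f_mm_213 : ℕ → ℕ → ℕ → ℕ → Bool := onCell 1073741824 536870912 536870912 536870912 536870912 50465866
    (rowB 3 eng mog cd4q2 cd6q1 pd3 0 true false false .pnn 2 1 3 (qsf 1073741824 536870912 536870912 536870912 3) ndB4q2 ndB6q1 pcB3 Cut.none Ext.none)

def k0_mm_213 : ∃ t, chk3 f_mm_213 t 1 1 1 = true :=
  ⟨(l 4), by decide +kernel⟩

theorem c_mm_213 : CertB 1073741824 536870912 536870912 536870912 536870912 50465866 3 eng mog cd4q2 cd6q1 pd3 true false false .pnn 2 1 3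
    ndB4q2 ndB6q1 pcB3 Cut.none Ext.none :=
  certB0 (fam := true) (s1 := false) (s2 := false) (a := 2) (b := 1) (c := 3) (cn := .pnn) (n1 := ndB4q2) (n2 := ndB6q1) (pc := pcB3) (cut := Cut.none) (xt := Ext.none) (P1 := 1073741824) (W1 := 536870912) (P2 := 536870912) (W2 := 536870912) (P3 := 536870912) (W3 := 50465866) (N0 := 3) (En := eng) (mo := mog) (C1 := cd4q2) (C2 := cd6q1) (C3 := pd3)
    rfl k0_mm_213

noncomputable def f_mm_303 : ℕ → ℕ → ℕ → ℕ → Bool := onCell 0 1230186008 0 536870912 536870912 50465866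
    (rowB 3 eng mog cd4q3 cd6q0 pd3 0 true false false .npn 3 0 3 (qsf 0 1230186008 0 536870912 3) ndB4q3 ndB6q0 pcB3 Cut.none Ext.none)

def k0_mm_303 : ∃ t, chk3 f_mm_303 t 1 1 1 = true :=
  ⟨(l 4), by decide +kernel⟩

theorem c_mm_303 : CertB 0 1230186008 0 536870912 536870912 50465866 3 eng mog cd4q3 cd6q0 pd3 true false false .npn 3 0 3
    ndB4q3 ndB6q0 pcB3 Cut.none Ext.none :=
  certB0 (fam := true) (s1 := false) (s2 := false) (a := 3) (b := 0) (c := 3) (cn := .npn) (n1 := ndB4q3) (n2 := ndB6q0) (pc := pcB3) (cut := Cut.none) (xt := Ext.none) (P1 := 0) (W1 := 1230186008) (P2 := 0) (W2 := 536870912) (P3 := 536870912) (W3 := 50465866) (N0 := 3) (En := eng) (mo := mog) (C1 := cd4q3) (C2 := cd6q0) (C3 := pd3)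
    rfl k0_mm_303

noncomputable def f_mm_313 : ℕ → ℕ → ℕ → ℕ → Bool := onCell 0 1230186008 536870912 536870912 536870912 50465866
    (rowB 3 eng mog cd4q3 cd6q1 pd3 0 true false false .dn 3 1 3 (qsf 0 1230186008 536870912 536870912 3) ndB4q3 ndB6q1 pcB3 Cut.none Ext.none)

def k0_mm_313 : ∃ t, chk3 f_mm_313 t 1 1 1 = true :=
  ⟨(l 4), by decide +kernel⟩

theorem c_mm_313 : CertB 0 1230186008 536870912 536870912 536870912 50465866 3 eng mog cd4q3 cd6q1 pd3 true false false .dn 3 1 3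
    ndB4q3 ndB6q1 pcB3 Cut.none Ext.none :=
  certB0 (fam := true) (s1 := false) (s2 := false) (a := 3) (b := 1) (c := 3) (cn := .dn) (n1 := ndB4q3) (n2 := ndB6q1) (pc := pcB3) (cut := Cut.none) (xt := Ext.none) (P1 := 0) (W1 := 1230186008) (P2 := 536870912) (W2 := 536870912) (P3 := 536870912) (W3 := 50465866) (N0 := 3) (En := eng) (mo := mog) (C1 := cd4q3) (C2 := cd6q1) (C3 := pd3)
    rfl k0_mm_313

end Pool.Agent.Strip051.G.I5000_5470.Tab.C.BA46

namespace Pool.Agent.Strip051.G.I5000_5470.Tab.C.BA55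

open Pool.Agent.Strip051.PB Pool.Agent.Strip051.PB.T
open Pool.Agent.Strip051.G.I5000_5470.Tab

noncomputable def f_pp_001 : ℕ → ℕ → ℕ → ℕ → Bool := onCell 0 536870912 0 536870912 536870912 50465866
    (rowB 3 eng mog cd5q0 cd5q0 pd1 0 true true true .up 0 0 1 (qsf 0 536870912 0 536870912 1) ndB5q0 ndB5q0 pcB1 Cut.none Ext.none)

def k0_pp_001 : ∃ t, chk3 f_pp_001 t 1 1 1 = true :=
  ⟨(l 4), by decide +kernel⟩

theorem c_pp_001 : CertB 0 536870912 0 536870912 536870912 50465866 3 eng mog cd5q0 cd5q0 pd1 true true true .up 0 0 1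
    ndB5q0 ndB5q0 pcB1 Cut.none Ext.none :=
  certB0 (fam := true) (s1 := true) (s2 := true) (a := 0) (b := 0) (c := 1) (cn := .up) (n1 := ndB5q0) (n2 := ndB5q0) (pc := pcB1) (cut := Cut.none) (xt := Ext.none) (P1 := 0) (W1 := 536870912) (P2 := 0) (W2 := 536870912) (P3 := 536870912) (W3 := 50465866) (N0 := 3) (En := eng) (mo := mog) (C1 := cd5q0) (C2 := cd5q0) (C3 := pd1)
    rfl k0_pp_001

noncomputable def f_pp_011 : ℕ → ℕ → ℕ → ℕ → Bool := onCell 0 536870912 536870912 536870912 536870912 50465866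
    (rowB 3 eng mog cd5q0 cd5q1 pd1 0 true true true .pnn 0 1 1 (qsf 0 536870912 536870912 536870912 1) ndB5q0 ndB5q1 pcB1 Cut.none Ext.none)

def k0_pp_011 : ∃ t, chk3 f_pp_011 t 1 1 1 = true :=
  ⟨(l 4), by decide +kernel⟩

theorem c_pp_011 : CertB 0 536870912 536870912 536870912 536870912 50465866 3 eng mog cd5q0 cd5q1 pd1 true true true .pnn 0 1 1
    ndB5q0 ndB5q1 pcB1 Cut.none Ext.none :=
  certB0 (fam := true) (s1 := true) (s2 := true) (a := 0) (b := 1) (c := 1) (cn := .pnn) (n1 := ndB5q0) (n2 := ndB5q1) (pc := pcB1) (cut := Cut.none) (xt := Ext.none) (P1 := 0) (W1 := 536870912) (P2 := 536870912) (W2 := 536870912) (P3 := 536870912) (W3 := 50465866) (N0 := 3) (En := eng) (mo := mog) (C1 := cd5q0) (C2 := cd5q1) (C3 := pd1)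
    rfl k0_pp_011

noncomputable def f_pp_012 : ℕ → ℕ → ℕ → ℕ → Bool := onCell 0 536870912 536870912 536870912 536870912 50465866
    (rowB 3 eng mog cd5q0 cd5q1 pd2 0 true true true .pnp 0 1 2 (qsf 0 536870912 536870912 536870912 2) ndB5q0 ndB5q1 pcB2 Cut.none Ext.none)

def k0_pp_012 : ∃ t, chk3 f_pp_012 t 1 1 1 = true :=
  ⟨(l 4), by decide +kernel⟩

theorem c_pp_012 : CertB 0 536870912 536870912 536870912 536870912 50465866 3 eng mog cd5q0 cd5q1 pd2 true true true .pnp 0 1 2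
    ndB5q0 ndB5q1 pcB2 Cut.none Ext.none :=
  certB0 (fam := true) (s1 := true) (s2 := true) (a := 0) (b := 1) (c := 2) (cn := .pnp) (n1 := ndB5q0) (n2 := ndB5q1) (pc := pcB2) (cut := Cut.none) (xt := Ext.none) (P1 := 0) (W1 := 536870912) (P2 := 536870912) (W2 := 536870912) (P3 := 536870912) (W3 := 50465866) (N0 := 3) (En := eng) (mo := mog) (C1 := cd5q0) (C2 := cd5q1) (C3 := pd2)
    rfl k0_pp_012

noncomputable def f_pp_022 : ℕ → ℕ → ℕ → ℕ → Bool := onCell 0 536870912 1073741824 536870912 536870912 50465866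
    (rowB 3 eng mog cd5q0 cd5q2 pd2 0 true true true .pp 0 2 2 (qsf 0 536870912 1073741824 536870912 2) ndB5q0 ndB5q2 pcB2 Cut.none Ext.none)

def k0_pp_022 : ∃ t, chk3 f_pp_022 t 1 1 1 = true :=
  ⟨(l 4), by decide +kernel⟩

theorem c_pp_022 : CertB 0 536870912 1073741824 536870912 536870912 50465866 3 eng mog cd5q0 cd5q2 pd2 true true true .pp 0 2 2
    ndB5q0 ndB5q2 pcB2 Cut.none Ext.none :=
  certB0 (fam := true) (s1 := true) (s2 := true) (a := 0) (b := 2) (c := 2) (cn := .pp) (n1 := ndB5q0) (n2 := ndB5q2) (pc := pcB2) (cut := Cut.none) (xt := Ext.none) (P1 := 0) (W1 := 536870912) (P2 := 1073741824) (W2 := 536870912) (P3 := 536870912) (W3 := 50465866) (N0 := 3) (En := eng) (mo := mog) (C1 := cd5q0) (C2 := cd5q2) (C3 := pd2)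
    rfl k0_pp_022

noncomputable def f_pp_023 : ℕ → ℕ → ℕ → ℕ → Bool := onCell 0 536870912 1073741824 536870912 536870912 50465866
    (rowB 3 eng mog cd5q0 cd5q2 pd3 0 true true true .up 0 2 3 (qsf 0 536870912 1073741824 536870912 3) ndB5q0 ndB5q2 pcB3 Cut.none Ext.none)

def k0_pp_023 : ∃ t, chk3 f_pp_023 t 1 1 1 = true :=
  ⟨(l 4), by decide +kernel⟩

theorem c_pp_023 : CertB 0 536870912 1073741824 536870912 536870912 50465866 3 eng mog cd5q0 cd5q2 pd3 true true true .up 0 2 3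
    ndB5q0 ndB5q2 pcB3 Cut.none Ext.none :=
  certB0 (fam := true) (s1 := true) (s2 := true) (a := 0) (b := 2) (c := 3) (cn := .up) (n1 := ndB5q0) (n2 := ndB5q2) (pc := pcB3) (cut := Cut.none) (xt := Ext.none) (P1 := 0) (W1 := 536870912) (P2 := 1073741824) (W2 := 536870912) (P3 := 536870912) (W3 := 50465866) (N0 := 3) (En := eng) (mo := mog) (C1 := cd5q0) (C2 := cd5q2) (C3 := pd3)
    rfl k0_pp_023

noncomputable def f_pp_033 : ℕ → ℕ → ℕ → ℕ → Bool := onCell 0 536870912 0 1230186008 536870912 50465866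
    (rowB 3 eng mog cd5q0 cd5q3 pd3 0 true true true .pnn 0 3 3 (qsf 0 536870912 0 1230186008 3) ndB5q0 ndB5q3 pcB3 Cut.none Ext.none)

def k0_pp_033 : ∃ t, chk3 f_pp_033 t 1 1 1 = true :=
  ⟨(l 4), by decide +kernel⟩

theorem c_pp_033 : CertB 0 536870912 0 1230186008 536870912 50465866 3 eng mog cd5q0 cd5q3 pd3 true true true .pnn 0 3 3
    ndB5q0 ndB5q3 pcB3 Cut.none Ext.none :=
  certB0 (fam := true) (s1 := true) (s2 := true) (a := 0) (b := 3) (c := 3) (cn := .pnn) (n1 := ndB5q0) (n2 := ndB5q3) (pc := pcB3) (cut := Cut.none) (xt := Ext.none) (P1 := 0) (W1 := 536870912) (P2 := 0) (W2 := 1230186008) (P3 := 536870912) (W3 := 50465866) (N0 := 3) (En := eng) (mo := mog) (C1 := cd5q0) (C2 := cd5q3) (C3 := pd3)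
    rfl k0_pp_033

noncomputable def f_pp_101 : ℕ → ℕ → ℕ → ℕ → Bool := onCell 536870912 536870912 0 536870912 536870912 50465866
    (rowB 3 eng mog cd5q1 cd5q0 pd1 0 true true true .npn 1 0 1 (qsf 536870912 536870912 0 536870912 1) ndB5q1 ndB5q0 pcB1 Cut.none Ext.none)

def k0_pp_101 : ∃ t, chk3 f_pp_101 t 1 1 1 = true :=
  ⟨(l 4), by decide +kernel⟩

theorem c_pp_101 : CertB 536870912 536870912 0 536870912 536870912 50465866 3 eng mog cd5q1 cd5q0 pd1 true true true .npn 1 0 1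
    ndB5q1 ndB5q0 pcB1 Cut.none Ext.none :=
  certB0 (fam := true) (s1 := true) (s2 := true) (a := 1) (b := 0) (c := 1) (cn := .npn) (n1 := ndB5q1) (n2 := ndB5q0) (pc := pcB1) (cut := Cut.none) (xt := Ext.none) (P1 := 536870912) (W1 := 536870912) (P2 := 0) (W2 := 536870912) (P3 := 536870912) (W3 := 50465866) (N0 := 3) (En := eng) (mo := mog) (C1 := cd5q1) (C2 := cd5q0) (C3 := pd1)
    rfl k0_pp_101

noncomputable def f_pp_102 : ℕ → ℕ → ℕ → ℕ → Bool := onCell 536870912 536870912 0 536870912 536870912 50465866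
    (rowB 3 eng mog cd5q1 cd5q0 pd2 0 true true true .npp 1 0 2 (qsf 536870912 536870912 0 536870912 2) ndB5q1 ndB5q0 pcB2 Cut.none Ext.none)

def k0_pp_102 : ∃ t, chk3 f_pp_102 t 1 1 1 = true :=
  ⟨(l 4), by decide +kernel⟩

theorem c_pp_102 : CertB 536870912 536870912 0 536870912 536870912 50465866 3 eng mog cd5q1 cd5q0 pd2 true true true .npp 1 0 2
    ndB5q1 ndB5q0 pcB2 Cut.none Ext.none :=
  certB0 (fam := true) (s1 := true) (s2 := true) (a := 1) (b := 0) (c := 2) (cn := .npp) (n1 := ndB5q1) (n2 := ndB5q0) (pc := pcB2) (cut := Cut.none) (xt := Ext.none) (P1 := 536870912) (W1 := 536870912) (P2 := 0) (W2 := 536870912) (P3 := 536870912) (W3 := 50465866) (N0 := 3) (En := eng) (mo := mog) (C1 := cd5q1) (C2 := cd5q0) (C3 := pd2)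
    rfl k0_pp_102

noncomputable def f_pp_112 : ℕ → ℕ → ℕ → ℕ → Bool := onCell 536870912 536870912 536870912 536870912 536870912 50465866
    (rowB 3 eng mog cd5q1 cd5q1 pd2 0 true true true .dn 1 1 2 (qsf 536870912 536870912 536870912 536870912 2) ndB5q1 ndB5q1 pcB2 Cut.none Ext.none)

def k0_pp_112 : ∃ t, chk3 f_pp_112 t 1 1 1 = true :=
  ⟨(l 4), by decide +kernel⟩

theorem c_pp_112 : CertB 536870912 536870912 536870912 536870912 536870912 50465866 3 eng mog cd5q1 cd5q1 pd2 true true true .dn 1 1 2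
    ndB5q1 ndB5q1 pcB2 Cut.none Ext.none :=
  certB0 (fam := true) (s1 := true) (s2 := true) (a := 1) (b := 1) (c := 2) (cn := .dn) (n1 := ndB5q1) (n2 := ndB5q1) (pc := pcB2) (cut := Cut.none) (xt := Ext.none) (P1 := 536870912) (W1 := 536870912) (P2 := 536870912) (W2 := 536870912) (P3 := 536870912) (W3 := 50465866) (N0 := 3) (En := eng) (mo := mog) (C1 := cd5q1) (C2 := cd5q1) (C3 := pd2)
    rfl k0_pp_112

noncomputable def f_pp_113 : ℕ → ℕ → ℕ → ℕ → Bool := onCell 536870912 536870912 536870912 536870912 536870912 50465866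
    (rowB 3 eng mog cd5q1 cd5q1 pd3 0 true true true .nn 1 1 3 (qsf 536870912 536870912 536870912 536870912 3) ndB5q1 ndB5q1 pcB3 Cut.none Ext.none)

def k0_pp_113 : ∃ t, chk3 f_pp_113 t 1 1 1 = true :=
  ⟨(l 4), by decide +kernel⟩

theorem c_pp_113 : CertB 536870912 536870912 536870912 536870912 536870912 50465866 3 eng mog cd5q1 cd5q1 pd3 true true true .nn 1 1 3
    ndB5q1 ndB5q1 pcB3 Cut.none Ext.none :=
  certB0 (fam := true) (s1 := true) (s2 := true) (a := 1) (b := 1) (c := 3) (cn := .nn) (n1 := ndB5q1) (n2 := ndB5q1) (pc := pcB3) (cut := Cut.none) (xt := Ext.none) (P1 := 536870912) (W1 := 536870912) (P2 := 536870912) (W2 := 536870912) (P3 := 536870912) (W3 := 50465866) (N0 := 3) (En := eng) (mo := mog) (C1 := cd5q1) (C2 := cd5q1) (C3 := pd3)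
    rfl k0_pp_113

noncomputable def f_pp_123 : ℕ → ℕ → ℕ → ℕ → Bool := onCell 536870912 536870912 1073741824 536870912 536870912 50465866
    (rowB 3 eng mog cd5q1 cd5q2 pd3 0 true true true .npn 1 2 3 (qsf 536870912 536870912 1073741824 536870912 3) ndB5q1 ndB5q2 pcB3 Cut.none Ext.none)

def k0_pp_123 : ∃ t, chk3 f_pp_123 t 1 1 1 = true :=
  ⟨(l 4), by decide +kernel⟩

theorem c_pp_123 : CertB 536870912 536870912 1073741824 536870912 536870912 50465866 3 eng mog cd5q1 cd5q2 pd3 true true true .npn 1 2 3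
    ndB5q1 ndB5q2 pcB3 Cut.none Ext.none :=
  certB0 (fam := true) (s1 := true) (s2 := true) (a := 1) (b := 2) (c := 3) (cn := .npn) (n1 := ndB5q1) (n2 := ndB5q2) (pc := pcB3) (cut := Cut.none) (xt := Ext.none) (P1 := 536870912) (W1 := 536870912) (P2 := 1073741824) (W2 := 536870912) (P3 := 536870912) (W3 := 50465866) (N0 := 3) (En := eng) (mo := mog) (C1 := cd5q1) (C2 := cd5q2) (C3 := pd3)
    rfl k0_pp_123

noncomputable def f_pp_133 : ℕ → ℕ → ℕ → ℕ → Bool := onCell 536870912 536870912 0 1230186008 536870912 50465866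
    (rowB 3 eng mog cd5q1 cd5q3 pd3 0 true true true .dn 1 3 3 (qsf 536870912 536870912 0 1230186008 3) ndB5q1 ndB5q3 pcB3 Cut.none Ext.none)

def k0_pp_133 : ∃ t, chk3 f_pp_133 t 1 1 1 = true :=
  ⟨(l 4), by decide +kernel⟩

theorem c_pp_133 : CertB 536870912 536870912 0 1230186008 536870912 50465866 3 eng mog cd5q1 cd5q3 pd3 true true true .dn 1 3 3
    ndB5q1 ndB5q3 pcB3 Cut.none Ext.none :=
  certB0 (fam := true) (s1 := true) (s2 := true) (a := 1) (b := 3) (c := 3) (cn := .dn) (n1 := ndB5q1) (n2 := ndB5q3) (pc := pcB3) (cut := Cut.none) (xt := Ext.none) (P1 := 536870912) (W1 := 536870912) (P2 := 0) (W2 := 1230186008) (P3 := 536870912) (W3 := 50465866) (N0 := 3) (En := eng) (mo := mog) (C1 := cd5q1) (C2 := cd5q3) (C3 := pd3)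
    rfl k0_pp_133

noncomputable def f_pp_202 : ℕ → ℕ → ℕ → ℕ → Bool := onCell 1073741824 536870912 0 536870912 536870912 50465866
    (rowB 3 eng mog cd5q2 cd5q0 pd2 0 true true true .pp 2 0 2 (qsf 1073741824 536870912 0 536870912 2) ndB5q2 ndB5q0 pcB2 Cut.none Ext.none)

def k0_pp_202 : ∃ t, chk3 f_pp_202 t 1 1 1 = true :=
  ⟨(l 4), by decide +kernel⟩

theorem c_pp_202 : CertB 1073741824 536870912 0 536870912 536870912 50465866 3 eng mog cd5q2 cd5q0 pd2 true true true .pp 2 0 2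
    ndB5q2 ndB5q0 pcB2 Cut.none Ext.none :=
  certB0 (fam := true) (s1 := true) (s2 := true) (a := 2) (b := 0) (c := 2) (cn := .pp) (n1 := ndB5q2) (n2 := ndB5q0) (pc := pcB2) (cut := Cut.none) (xt := Ext.none) (P1 := 1073741824) (W1 := 536870912) (P2 := 0) (W2 := 536870912) (P3 := 536870912) (W3 := 50465866) (N0 := 3) (En := eng) (mo := mog) (C1 := cd5q2) (C2 := cd5q0) (C3 := pd2)
    rfl k0_pp_202

noncomputable def f_pp_203 : ℕ → ℕ → ℕ → ℕ → Bool := onCell 1073741824 536870912 0 536870912 536870912 50465866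
    (rowB 3 eng mog cd5q2 cd5q0 pd3 0 true true true .up 2 0 3 (qsf 1073741824 536870912 0 536870912 3) ndB5q2 ndB5q0 pcB3 Cut.none Ext.none)

def k0_pp_203 : ∃ t, chk3 f_pp_203 t 1 1 1 = true :=
  ⟨(l 4), by decide +kernel⟩

theorem c_pp_203 : CertB 1073741824 536870912 0 536870912 536870912 50465866 3 eng mog cd5q2 cd5q0 pd3 true true true .up 2 0 3
    ndB5q2 ndB5q0 pcB3 Cut.none Ext.none :=
  certB0 (fam := true) (s1 := true) (s2 := true) (a := 2) (b := 0) (c := 3) (cn := .up) (n1 := ndB5q2) (n2 := ndB5q0) (pc := pcB3) (cut := Cut.none) (xt := Ext.none) (P1 := 1073741824) (W1 := 536870912) (P2 := 0) (W2 := 536870912) (P3 := 536870912) (W3 := 50465866) (N0 := 3) (En := eng) (mo := mog) (C1 := cd5q2) (C2 := cd5q0) (C3 := pd3)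
    rfl k0_pp_203

noncomputable def f_pp_213 : ℕ → ℕ → ℕ → ℕ → Bool := onCell 1073741824 536870912 536870912 536870912 536870912 50465866
    (rowB 3 eng mog cd5q2 cd5q1 pd3 0 true true true .pnn 2 1 3 (qsf 1073741824 536870912 536870912 536870912 3) ndB5q2 ndB5q1 pcB3 Cut.none Ext.none)

def k0_pp_213 : ∃ t, chk3 f_pp_213 t 1 1 1 = true :=
  ⟨(l 4), by decide +kernel⟩

theorem c_pp_213 : CertB 1073741824 536870912 536870912 536870912 536870912 50465866 3 eng mog cd5q2 cd5q1 pd3 true true true .pnn 2 1 3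
    ndB5q2 ndB5q1 pcB3 Cut.none Ext.none :=
  certB0 (fam := true) (s1 := true) (s2 := true) (a := 2) (b := 1) (c := 3) (cn := .pnn) (n1 := ndB5q2) (n2 := ndB5q1) (pc := pcB3) (cut := Cut.none) (xt := Ext.none) (P1 := 1073741824) (W1 := 536870912) (P2 := 536870912) (W2 := 536870912) (P3 := 536870912) (W3 := 50465866) (N0 := 3) (En := eng) (mo := mog) (C1 := cd5q2) (C2 := cd5q1) (C3 := pd3)
    rfl k0_pp_213

noncomputable def f_pp_303 : ℕ → ℕ → ℕ → ℕ → Bool := onCell 0 1230186008 0 536870912 536870912 50465866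
    (rowB 3 eng mog cd5q3 cd5q0 pd3 0 true true true .npn 3 0 3 (qsf 0 1230186008 0 536870912 3) ndB5q3 ndB5q0 pcB3 Cut.none Ext.none)

def k0_pp_303 : ∃ t, chk3 f_pp_303 t 1 1 1 = true :=
  ⟨(l 4), by decide +kernel⟩

theorem c_pp_303 : CertB 0 1230186008 0 536870912 536870912 50465866 3 eng mog cd5q3 cd5q0 pd3 true true true .npn 3 0 3
    ndB5q3 ndB5q0 pcB3 Cut.none Ext.none :=
  certB0 (fam := true) (s1 := true) (s2 := true) (a := 3) (b := 0) (c := 3) (cn := .npn) (n1 := ndB5q3) (n2 := ndB5q0) (pc := pcB3) (cut := Cut.none) (xt := Ext.none) (P1 := 0) (W1 := 1230186008) (P2 := 0) (W2 := 536870912) (P3 := 536870912) (W3 := 50465866) (N0 := 3) (En := eng) (mo := mog) (C1 := cd5q3) (C2 := cd5q0) (C3 := pd3)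
    rfl k0_pp_303

noncomputable def f_pp_313 : ℕ → ℕ → ℕ → ℕ → Bool := onCell 0 1230186008 536870912 536870912 536870912 50465866
    (rowB 3 eng mog cd5q3 cd5q1 pd3 0 true true true .dn 3 1 3 (qsf 0 1230186008 536870912 536870912 3) ndB5q3 ndB5q1 pcB3 Cut.none Ext.none)

def k0_pp_313 : ∃ t, chk3 f_pp_313 t 1 1 1 = true :=
  ⟨(l 4), by decide +kernel⟩

theorem c_pp_313 : CertB 0 1230186008 536870912 536870912 536870912 50465866 3 eng mog cd5q3 cd5q1 pd3 true true true .dn 3 1 3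
    ndB5q3 ndB5q1 pcB3 Cut.none Ext.none :=
  certB0 (fam := true) (s1 := true) (s2 := true) (a := 3) (b := 1) (c := 3) (cn := .dn) (n1 := ndB5q3) (n2 := ndB5q1) (pc := pcB3) (cut := Cut.none) (xt := Ext.none) (P1 := 0) (W1 := 1230186008) (P2 := 536870912) (W2 := 536870912) (P3 := 536870912) (W3 := 50465866) (N0 := 3) (En := eng) (mo := mog) (C1 := cd5q3) (C2 := cd5q1) (C3 := pd3)
    rfl k0_pp_313

noncomputable def f_pm_001 : ℕ → ℕ → ℕ → ℕ → Bool := onCell 0 536870912 0 536870912 536870912 50465866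
    (rowB 3 eng mog cd5q0 cd5q0 pd1 0 true true false .up 0 0 1 (qsf 0 536870912 0 536870912 1) ndB5q0 ndB5q0 pcB1 Cut.none Ext.none)

def k0_pm_001 : ∃ t, chk3 f_pm_001 t 1 1 1 = true :=
  ⟨(l 3), by decide +kernel⟩

theorem c_pm_001 : CertB 0 536870912 0 536870912 536870912 50465866 3 eng mog cd5q0 cd5q0 pd1 true true false .up 0 0 1
    ndB5q0 ndB5q0 pcB1 Cut.none Ext.none :=
  certB0 (fam := true) (s1 := true) (s2 := false) (a := 0) (b := 0) (c := 1) (cn := .up) (n1 := ndB5q0) (n2 := ndB5q0) (pc := pcB1) (cut := Cut.none) (xt := Ext.none) (P1 := 0) (W1 := 536870912) (P2 := 0) (W2 := 536870912) (P3 := 536870912) (W3 := 50465866) (N0 := 3) (En := eng) (mo := mog) (C1 := cd5q0) (C2 := cd5q0) (C3 := pd1)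
    rfl k0_pm_001

noncomputable def f_pm_011 : ℕ → ℕ → ℕ → ℕ → Bool := onCell 0 536870912 536870912 536870912 536870912 50465866
    (rowB 3 eng mog cd5q0 cd5q1 pd1 1 true true false .pnn 0 1 1 (qsf 0 536870912 536870912 536870912 1) ndB5q0 ndB5q1 pcB1 Cut.none Ext.none)

def k0_pm_011 : ∃ t, chk3 f_pm_011 t 1 1 1 = true :=
  ⟨(l 3), by decide +kernel⟩

theorem c_pm_011 : CertB 0 536870912 536870912 536870912 536870912 50465866 3 eng mog cd5q0 cd5q1 pd1 true true false .pnn 0 1 1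
    ndB5q0 ndB5q1 pcB1 Cut.none Ext.none :=
  certB1 (fam := true) (s1 := true) (s2 := false) (a := 0) (b := 1) (c := 1) (cn := .pnn) (n1 := ndB5q0) (n2 := ndB5q1) (pc := pcB1) (cut := Cut.none) (xt := Ext.none) (P1 := 0) (W1 := 536870912) (P2 := 536870912) (W2 := 536870912) (P3 := 536870912) (W3 := 50465866) (N0 := 3) (En := eng) (mo := mog) (C1 := cd5q0) (C2 := cd5q1) (C3 := pd1)
    rfl (fun _ => rfl) k0_pm_011

noncomputable def f_pm_012 : ℕ → ℕ → ℕ → ℕ → Bool := onCell 1073741824 536870912 536870912 536870912 536870912 50465866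
    (rowB 3 eng mog cd5q0 cd5q1 pd2 2 true true false .pnp 0 1 2 (qsf 0 536870912 536870912 536870912 2) ndB5q0 ndB5q1 pcB2 Cut.none Ext.none)

def k0_pm_012 : ∃ t, chk3 f_pm_012 t 1 1 1 = true :=
  ⟨(a (a (l 3) (a (a (a (l 3) (a (l 3) (b (b (l 2) (a (l 3) (b (l 16715552) (l 16707120)))) (b (a (l 3) (a (l 16685896) (l 16686800))) (a (l 16639080) (a (l 16639136) (l 16639376))))))) (b (b (l 2) (l 16724200)) (b (l 16695808) (l 16641936)))) (b (b (l 2) (l 16770200)) (b (l 16735616) (b (l 16681960) (l 16636680)))))) (b (a (b (l 2) (l 16923200)) (l 2)) (a (b (l 16893272) (a (l 16729280) (l 16854016))) (b (l 17279920) (l 17184176))))), by decide +kernel⟩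

theorem c_pm_012 : CertB 0 536870912 536870912 536870912 536870912 50465866 3 eng mog cd5q0 cd5q1 pd2 true true false .pnp 0 1 2
    ndB5q0 ndB5q1 pcB2 Cut.none Ext.none :=
  certB2 (fam := true) (s1 := true) (s2 := false) (a := 0) (b := 1) (c := 2) (cn := .pnp) (n1 := ndB5q0) (n2 := ndB5q1) (pc := pcB2) (cut := Cut.none) (xt := Ext.none) (P1 := 0) (W1 := 536870912) (P2 := 536870912) (W2 := 536870912) (P3 := 536870912) (W3 := 50465866) (N0 := 3) (En := eng) (mo := mog) (C1 := cd5q0) (C2 := cd5q1) (C3 := pd2)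
    rfl (fun _ => rfl) k0_pm_012

noncomputable def f_pm_022 : ℕ → ℕ → ℕ → ℕ → Bool := onCell 0 536870912 1073741824 536870912 536870912 50465866
    (rowB 3 eng mog cd5q0 cd5q2 pd2 1 true true false .pp 0 2 2 (qsf 0 536870912 1073741824 536870912 2) ndB5q0 ndB5q2 pcB2 Cut.none Ext.none)

def k0_pm_022 : ∃ t, chk3 f_pm_022 t 1 1 1 = true :=
  ⟨(a (b (b (b (l 3) (b (b (l 3) (a (a (b (l 16653448) (l 16653040)) (b (a (l 16667616) (l 1)) (a (l 16663760) (l 16688520)))) (l 1))) (a (b (a (l 16652664) (l 81637721063)) (a (l 16652088) (l 16661528))) (b (l 1) (a (l 561063642055) (l 1)))))) (b (b (b (a (a (l 16651592) (l 16656848)) (a (l 16700864) (l 1))) (b (a (l 16649456) (l 16726744)) (a (b (l 16649072) (a (l 16651880) (l 16651744))) (b (l 16721072) (a (l 16682392) (l 1)))))) (a (l 16689976) (a (l 16672568) (l 16733888)))) (a (a (l 16651968) (l 16645416)) (l 16678400)))) (b (a (b (l 16648840) (l 16648680)) (b (l 16665024) (l 16661744))) (b (a (l 16644648)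 (l 16667736)) (a (l 16634408) (l 16676704))))) (b (b (l 1) (b (l 1) (a (l 617972607863) (l 1)))) (b (a (b (l 16808896) (l 16777320)) (l 634079582199)) (b (a (l 16771008) (l 17179936)) (a (l 16776584) (l 17159040)))))), by decide +kernel⟩

theorem c_pm_022 : CertB 0 536870912 1073741824 536870912 536870912 50465866 3 eng mog cd5q0 cd5q2 pd2 true true false .pp 0 2 2
    ndB5q0 ndB5q2 pcB2 Cut.none Ext.none :=
  certB1 (fam := true) (s1 := true) (s2 := false) (a := 0) (b := 2) (c := 2) (cn := .pp) (n1 := ndB5q0) (n2 := ndB5q2) (pc := pcB2) (cut := Cut.none) (xt := Ext.none) (P1 := 0) (W1 := 536870912) (P2 := 1073741824) (W2 := 536870912) (P3 := 536870912) (W3 := 50465866) (N0 := 3) (En := eng) (mo := mog) (C1 := cd5q0) (C2 := cd5q2) (C3 := pd2)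
    rfl (fun _ => rfl) k0_pm_022

noncomputable def f_pm_023 : ℕ → ℕ → ℕ → ℕ → Bool := onCell 0 536870912 1610612736 536870912 536870912 50465866
    (rowB 3 eng mog cd5q0 cd5q2 pd3 1 true true false .up 0 2 3 (qsf 0 536870912 1073741824 536870912 3) ndB5q0 ndB5q2 pcB3 Cut.none Ext.none)

def k0_pm_023 : ∃ t, chk3 f_pm_023 t 1 1 1 = true :=
  ⟨(a (b (b (b (l 16654480) (l 16636080)) (b (l 16634752) (l 16675536))) (b (b (l 16747984) (l 2)) (l 2))) (b (b (b (a (l 16772592) (l 17103576)) (l 17060648)) (a (l 16774224) (l 17009744))) (b (b (l 16840384) (l 16780776)) (b (l 16760704) (l 4))))), by decide +kernel⟩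

theorem c_pm_023 : CertB 0 536870912 1073741824 536870912 536870912 50465866 3 eng mog cd5q0 cd5q2 pd3 true true false .up 0 2 3
    ndB5q0 ndB5q2 pcB3 Cut.none Ext.none :=
  certB1 (fam := true) (s1 := true) (s2 := false) (a := 0) (b := 2) (c := 3) (cn := .up) (n1 := ndB5q0) (n2 := ndB5q2) (pc := pcB3) (cut := Cut.none) (xt := Ext.none) (P1 := 0) (W1 := 536870912) (P2 := 1073741824) (W2 := 536870912) (P3 := 536870912) (W3 := 50465866) (N0 := 3) (En := eng) (mo := mog) (C1 := cd5q0) (C2 := cd5q2) (C3 := pd3)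
    rfl (fun _ => rfl) k0_pm_023

noncomputable def f_pm_033 : ℕ → ℕ → ℕ → ℕ → Bool := onCell 1610612736 536870912 0 1230186008 536870912 50465866
    (rowB 3 eng mog cd5q0 cd5q3 pd3 2 true true false .pnn 0 3 3 (qsf 0 536870912 0 1230186008 3) ndB5q0 ndB5q3 pcB3 Cut.none Ext.none)

def k0_pm_033 : ∃ t, chk3 f_pm_033 t 1 1 1 = true :=
  ⟨(a (b (l 1) (b (b (l 1) (a (l 1) (a (l 1) (l 16773560)))) (b (a (l 1) (l 16689144)) (a (a (l 16406024) (l 16468456)) (l 16643512))))) (a (b (l 1) (b (l 16852336) (a (l 16747448) (l 16795768)))) (b (b (l 4) (l 4)) (b (l 4) (l 4))))), by decide +kernel⟩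

theorem c_pm_033 : CertB 0 536870912 0 1230186008 536870912 50465866 3 eng mog cd5q0 cd5q3 pd3 true true false .pnn 0 3 3
    ndB5q0 ndB5q3 pcB3 Cut.none Ext.none :=
  certB2 (fam := true) (s1 := true) (s2 := false) (a := 0) (b := 3) (c := 3) (cn := .pnn) (n1 := ndB5q0) (n2 := ndB5q3) (pc := pcB3) (cut := Cut.none) (xt := Ext.none) (P1 := 0) (W1 := 536870912) (P2 := 0) (W2 := 1230186008) (P3 := 536870912) (W3 := 50465866) (N0 := 3) (En := eng) (mo := mog) (C1 := cd5q0) (C2 := cd5q3) (C3 := pd3)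
    rfl (fun _ => rfl) k0_pm_033

noncomputable def f_pm_101 : ℕ → ℕ → ℕ → ℕ → Bool := onCell 536870912 536870912 0 536870912 536870912 50465866
    (rowB 3 eng mog cd5q1 cd5q0 pd1 2 true true false .npn 1 0 1 (qsf 536870912 536870912 0 536870912 1) ndB5q1 ndB5q0 pcB1 Cut.none Ext.none)

def k0_pm_101 : ∃ t, chk3 f_pm_101 t 1 1 1 = true :=
  ⟨(l 3), by decide +kernel⟩

theorem c_pm_101 : CertB 536870912 536870912 0 536870912 536870912 50465866 3 eng mog cd5q1 cd5q0 pd1 true true false .npn 1 0 1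
    ndB5q1 ndB5q0 pcB1 Cut.none Ext.none :=
  certB2 (fam := true) (s1 := true) (s2 := false) (a := 1) (b := 0) (c := 1) (cn := .npn) (n1 := ndB5q1) (n2 := ndB5q0) (pc := pcB1) (cut := Cut.none) (xt := Ext.none) (P1 := 536870912) (W1 := 536870912) (P2 := 0) (W2 := 536870912) (P3 := 536870912) (W3 := 50465866) (N0 := 3) (En := eng) (mo := mog) (C1 := cd5q1) (C2 := cd5q0) (C3 := pd1)
    rfl (fun _ => rfl) k0_pm_101

noncomputable def f_pm_102 : ℕ → ℕ → ℕ → ℕ → Bool := onCell 536870912 536870912 1073741824 536870912 536870912 50465866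
    (rowB 3 eng mog cd5q1 cd5q0 pd2 1 true true false .npp 1 0 2 (qsf 536870912 536870912 0 536870912 2) ndB5q1 ndB5q0 pcB2 Cut.none Ext.none)

def k0_pm_102 : ∃ t, chk3 f_pm_102 t 1 1 1 = true :=
  ⟨(b (b (l 3) (b (b (b (l 3) (b (l 3) (a (a (l 2) (b (l 3) (a (l 16715552) (l 16707120)))) (a (b (l 3) (b (l 16685896) (l 16686800))) (b (l 16639080) (b (l 16639136) (l 16639376))))))) (a (a (l 2) (l 16724200)) (a (l 16695808) (l 16641936)))) (a (a (l 2) (l 16770200)) (a (l 16735616) (a (l 16681960) (l 16636680)))))) (a (b (a (l 2) (l 16923200)) (l 2)) (b (a (l 16893272) (b (l 16729280) (l 16854016))) (a (l 17279920) (l 17184176))))), by decide +kernel⟩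

theorem c_pm_102 : CertB 536870912 536870912 0 536870912 536870912 50465866 3 eng mog cd5q1 cd5q0 pd2 true true false .npp 1 0 2
    ndB5q1 ndB5q0 pcB2 Cut.none Ext.none :=
  certB1 (fam := true) (s1 := true) (s2 := false) (a := 1) (b := 0) (c := 2) (cn := .npp) (n1 := ndB5q1) (n2 := ndB5q0) (pc := pcB2) (cut := Cut.none) (xt := Ext.none) (P1 := 536870912) (W1 := 536870912) (P2 := 0) (W2 := 536870912) (P3 := 536870912) (W3 := 50465866) (N0 := 3) (En := eng) (mo := mog) (C1 := cd5q1) (C2 := cd5q0) (C3 := pd2)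
    rfl (fun _ => rfl) k0_pm_102

noncomputable def f_pm_112 : ℕ → ℕ → ℕ → ℕ → Bool := onCell 536870912 536870912 1073741824 536870912 536870912 50465866
    (rowB 3 eng mog cd5q1 cd5q1 pd2 1 true true false .dn 1 1 2 (qsf 536870912 536870912 536870912 536870912 2) ndB5q1 ndB5q1 pcB2 Cut.none Ext.none)

def k0_pm_112 : ∃ t, chk3 f_pm_112 t 1 1 1 = true :=
  ⟨(b (b (l 3) (a (b (b (b (l 3) (b (l 3) (b (l 3) (a (l 16720032) (l 184180649959))))) (l 16731528)) (l 16779256)) (b (l 1) (l 485365239063)))) (a (b (l 16949864) (l 17389048)) (b (l 16848848) (l 17298336)))), by decide +kernel⟩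

theorem c_pm_112 : CertB 536870912 536870912 536870912 536870912 536870912 50465866 3 eng mog cd5q1 cd5q1 pd2 true true false .dn 1 1 2
    ndB5q1 ndB5q1 pcB2 Cut.none Ext.none :=
  certB1 (fam := true) (s1 := true) (s2 := false) (a := 1) (b := 1) (c := 2) (cn := .dn) (n1 := ndB5q1) (n2 := ndB5q1) (pc := pcB2) (cut := Cut.none) (xt := Ext.none) (P1 := 536870912) (W1 := 536870912) (P2 := 536870912) (W2 := 536870912) (P3 := 536870912) (W3 := 50465866) (N0 := 3) (En := eng) (mo := mog) (C1 := cd5q1) (C2 := cd5q1) (C3 := pd2)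
    rfl (fun _ => rfl) k0_pm_112

noncomputable def f_pm_113 : ℕ → ℕ → ℕ → ℕ → Bool := onCell 536870912 536870912 1610612736 536870912 536870912 50465866
    (rowB 3 eng mog cd5q1 cd5q1 pd3 1 true true false .nn 1 1 3 (qsf 536870912 536870912 536870912 536870912 3) ndB5q1 ndB5q1 pcB3 Cut.none Ext.none)

def k0_pm_113 : ∃ t, chk3 f_pm_113 t 1 1 1 = true :=
  ⟨(a (b (b (l 17698000) (l 17475136)) (b (l 17262432) (l 2))) (b (l 17699328) (b (l 17320608) (b (l 17046480) (b (l 16917416) (b (l 16854352) (l 16814096))))))), by decide +kernel⟩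

theorem c_pm_113 : CertB 536870912 536870912 536870912 536870912 536870912 50465866 3 eng mog cd5q1 cd5q1 pd3 true true false .nn 1 1 3
    ndB5q1 ndB5q1 pcB3 Cut.none Ext.none :=
  certB1 (fam := true) (s1 := true) (s2 := false) (a := 1) (b := 1) (c := 3) (cn := .nn) (n1 := ndB5q1) (n2 := ndB5q1) (pc := pcB3) (cut := Cut.none) (xt := Ext.none) (P1 := 536870912) (W1 := 536870912) (P2 := 536870912) (W2 := 536870912) (P3 := 536870912) (W3 := 50465866) (N0 := 3) (En := eng) (mo := mog) (C1 := cd5q1) (C2 := cd5q1) (C3 := pd3)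
    rfl (fun _ => rfl) k0_pm_113

noncomputable def f_pm_123 : ℕ → ℕ → ℕ → ℕ → Bool := onCell 536870912 536870912 1610612736 536870912 536870912 50465866
    (rowB 3 eng mog cd5q1 cd5q2 pd3 1 true true false .npn 1 2 3 (qsf 536870912 536870912 1073741824 536870912 3) ndB5q1 ndB5q2 pcB3 Cut.none Ext.none)

def k0_pm_123 : ∃ t, chk3 f_pm_123 t 1 1 1 = true :=
  ⟨(a (b (b (b (l 18015488) (l 17702112)) (a (l 17352392) (l 17479120))) (b (b (l 17227776) (l 17041568)) (b (l 16810544) (b (l 16765984) (l 4))))) (b (b (l 1) (l 639448704439)) (b (l 533684577591) (b (l 16935936) (b (l 16808056) (b (l 16740488) (l 4))))))), by decide +kernel⟩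

theorem c_pm_123 : CertB 536870912 536870912 1073741824 536870912 536870912 50465866 3 eng mog cd5q1 cd5q2 pd3 true true false .npn 1 2 3
    ndB5q1 ndB5q2 pcB3 Cut.none Ext.none :=
  certB1 (fam := true) (s1 := true) (s2 := false) (a := 1) (b := 2) (c := 3) (cn := .npn) (n1 := ndB5q1) (n2 := ndB5q2) (pc := pcB3) (cut := Cut.none) (xt := Ext.none) (P1 := 536870912) (W1 := 536870912) (P2 := 1073741824) (W2 := 536870912) (P3 := 536870912) (W3 := 50465866) (N0 := 3) (En := eng) (mo := mog) (C1 := cd5q1) (C2 := cd5q2) (C3 := pd3)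
    rfl (fun _ => rfl) k0_pm_123

noncomputable def f_pm_133 : ℕ → ℕ → ℕ → ℕ → Bool := onCell 536870912 536870912 0 1230186008 536870912 50465866
    (rowB 3 eng mog cd5q1 cd5q3 pd3 0 true true false .dn 1 3 3 (qsf 536870912 536870912 0 1230186008 3) ndB5q1 ndB5q3 pcB3 Cut.none Ext.none)

def k0_pm_133 : ∃ t, chk3 f_pm_133 t 1 1 1 = true :=
  ⟨(b (l 2) (l 4)), by decide +kernel⟩

theorem c_pm_133 : CertB 536870912 536870912 0 1230186008 536870912 50465866 3 eng mog cd5q1 cd5q3 pd3 true true false .dn 1 3 3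
    ndB5q1 ndB5q3 pcB3 Cut.none Ext.none :=
  certB0 (fam := true) (s1 := true) (s2 := false) (a := 1) (b := 3) (c := 3) (cn := .dn) (n1 := ndB5q1) (n2 := ndB5q3) (pc := pcB3) (cut := Cut.none) (xt := Ext.none) (P1 := 536870912) (W1 := 536870912) (P2 := 0) (W2 := 1230186008) (P3 := 536870912) (W3 := 50465866) (N0 := 3) (En := eng) (mo := mog) (C1 := cd5q1) (C2 := cd5q3) (C3 := pd3)
    rfl k0_pm_133

noncomputable def f_pm_202 : ℕ → ℕ → ℕ → ℕ → Bool := onCell 1073741824 536870912 0 536870912 536870912 50465866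
    (rowB 3 eng mog cd5q2 cd5q0 pd2 2 true true false .pp 2 0 2 (qsf 1073741824 536870912 0 536870912 2) ndB5q2 ndB5q0 pcB2 Cut.none Ext.none)

def k0_pm_202 : ∃ t, chk3 f_pm_202 t 1 1 1 = true :=
  ⟨(a (a (a (l 3) (b (a (a (l 3) (b (b (a (l 96267393639) (l 16653040)) (b (a (l 16667616) (l 16663760)) (l 279206264983))) (l 1))) (b (a (b (l 16652664) (l 16668104)) (b (l 16652088) (l 16661528))) (a (l 1) (b (l 16713144) (l 1))))) (l 1))) (b (a (a (a (b (b (l 16651592) (l 16656848)) (b (l 16700864) (l 1))) (a (b (l 16649456) (l 16726744)) (b (a (l 16649072) (b (l 16651880) (l 16651744))) (a (l 16721072) (b (l 16682392) (l 1)))))) (b (l 16731920) (b (l 16672568) (l 16733888)))) (b (b (l 16651968) (l 16645416)) (l 16678400))) (a (l 1) (b (l 623878187895) (l 1))))) (a (b (b (a (l 16648840) (l 16648680)) (a (l 16665024) (l 16661744))) (b (a (l 16808896) (l 16777320)) (l 633542711287))) (b (a (b (l 16644648) (l 16667736)) (b (l 16634408) (l 16676704))) (a (b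 (l 16771008) (l 17179936)) (b (l 16776584) (l 17159040)))))), by decide +kernel⟩

theorem c_pm_202 : CertB 1073741824 536870912 0 536870912 536870912 50465866 3 eng mog cd5q2 cd5q0 pd2 true true false .pp 2 0 2
    ndB5q2 ndB5q0 pcB2 Cut.none Ext.none :=
  certB2 (fam := true) (s1 := true) (s2 := false) (a := 2) (b := 0) (c := 2) (cn := .pp) (n1 := ndB5q2) (n2 := ndB5q0) (pc := pcB2) (cut := Cut.none) (xt := Ext.none) (P1 := 1073741824) (W1 := 536870912) (P2 := 0) (W2 := 536870912) (P3 := 536870912) (W3 := 50465866) (N0 := 3) (En := eng) (mo := mog) (C1 := cd5q2) (C2 := cd5q0) (C3 := pd2)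
    rfl (fun _ => rfl) k0_pm_202

noncomputable def f_pm_203 : ℕ → ℕ → ℕ → ℕ → Bool := onCell 1073741824 536870912 1610612736 536870912 536870912 50465866
    (rowB 3 eng mog cd5q2 cd5q0 pd3 1 true true false .up 2 0 3 (qsf 1073741824 536870912 0 536870912 3) ndB5q2 ndB5q0 pcB3 Cut.none Ext.none)

def k0_pm_203 : ∃ t, chk3 f_pm_203 t 1 1 1 = true :=
  ⟨(a (b (b (b (a (l 17261880) (l 16829896)) (l 17206000)) (a (l 17278952) (l 17213296))) (b (a (l 2) (l 16956664)) (l 2))) (b (b (b (l 16674544) (l 16705488)) (a (l 16878168) (l 16734592))) (b (b (l 16877592) (l 16873672)) (b (l 16784784) (l 4))))), by decide +kernel⟩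

theorem c_pm_203 : CertB 1073741824 536870912 0 536870912 536870912 50465866 3 eng mog cd5q2 cd5q0 pd3 true true false .up 2 0 3
    ndB5q2 ndB5q0 pcB3 Cut.none Ext.none :=
  certB1 (fam := true) (s1 := true) (s2 := false) (a := 2) (b := 0) (c := 3) (cn := .up) (n1 := ndB5q2) (n2 := ndB5q0) (pc := pcB3) (cut := Cut.none) (xt := Ext.none) (P1 := 1073741824) (W1 := 536870912) (P2 := 0) (W2 := 536870912) (P3 := 536870912) (W3 := 50465866) (N0 := 3) (En := eng) (mo := mog) (C1 := cd5q2) (C2 := cd5q0) (C3 := pd3)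
    rfl (fun _ => rfl) k0_pm_203

noncomputable def f_pm_213 : ℕ → ℕ → ℕ → ℕ → Bool := onCell 1073741824 536870912 1610612736 536870912 536870912 50465866
    (rowB 3 eng mog cd5q2 cd5q1 pd3 1 true true false .pnn 2 1 3 (qsf 1073741824 536870912 536870912 536870912 3) ndB5q2 ndB5q1 pcB3 Cut.none Ext.none)

def k0_pm_213 : ∃ t, chk3 f_pm_213 t 1 1 1 = true :=
  ⟨(a (b (b (b (l 17002720) (l 17192416)) (a (l 17467720) (l 17218472))) (b (a (l 17164624) (l 17103712)) (b (l 16951616) (b (l 16786600) (b (l 16728464) (l 4)))))) (b (b (l 1) (l 16814056)) (b (b (l 16877456) (l 16875208)) (b (l 16761432) (l 4))))), by decide +kernel⟩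

theorem c_pm_213 : CertB 1073741824 536870912 536870912 536870912 536870912 50465866 3 eng mog cd5q2 cd5q1 pd3 true true false .pnn 2 1 3
    ndB5q2 ndB5q1 pcB3 Cut.none Ext.none :=
  certB1 (fam := true) (s1 := true) (s2 := false) (a := 2) (b := 1) (c := 3) (cn := .pnn) (n1 := ndB5q2) (n2 := ndB5q1) (pc := pcB3) (cut := Cut.none) (xt := Ext.none) (P1 := 1073741824) (W1 := 536870912) (P2 := 536870912) (W2 := 536870912) (P3 := 536870912) (W3 := 50465866) (N0 := 3) (En := eng) (mo := mog) (C1 := cd5q2) (C2 := cd5q1) (C3 := pd3)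
    rfl (fun _ => rfl) k0_pm_213

noncomputable def f_pm_303 : ℕ → ℕ → ℕ → ℕ → Bool := onCell 0 1230186008 1610612736 536870912 536870912 50465866
    (rowB 3 eng mog cd5q3 cd5q0 pd3 1 true true false .npn 3 0 3 (qsf 0 1230186008 0 536870912 3) ndB5q3 ndB5q0 pcB3 Cut.none Ext.none)

def k0_pm_303 : ∃ t, chk3 f_pm_303 t 1 1 1 = true :=
  ⟨(b (a (l 1) (a (a (l 1) (b (l 1) (b (l 1) (l 16773560)))) (a (b (l 1) (l 16689144)) (b (b (l 16406024) (l 16468456)) (l 16643504))))) (b (a (l 1) (a (l 16852336) (b (l 16747440) (l 16795768)))) (a (a (l 4) (l 4)) (a (l 4) (l 4))))), by decide +kernel⟩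

theorem c_pm_303 : CertB 0 1230186008 0 536870912 536870912 50465866 3 eng mog cd5q3 cd5q0 pd3 true true false .npn 3 0 3
    ndB5q3 ndB5q0 pcB3 Cut.none Ext.none :=
  certB1 (fam := true) (s1 := true) (s2 := false) (a := 3) (b := 0) (c := 3) (cn := .npn) (n1 := ndB5q3) (n2 := ndB5q0) (pc := pcB3) (cut := Cut.none) (xt := Ext.none) (P1 := 0) (W1 := 1230186008) (P2 := 0) (W2 := 536870912) (P3 := 536870912) (W3 := 50465866) (N0 := 3) (En := eng) (mo := mog) (C1 := cd5q3) (C2 := cd5q0) (C3 := pd3)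
    rfl (fun _ => rfl) k0_pm_303

noncomputable def f_pm_313 : ℕ → ℕ → ℕ → ℕ → Bool := onCell 0 1230186008 536870912 536870912 536870912 50465866
    (rowB 3 eng mog cd5q3 cd5q1 pd3 0 true true false .dn 3 1 3 (qsf 0 1230186008 536870912 536870912 3) ndB5q3 ndB5q1 pcB3 Cut.none Ext.none)

def k0_pm_313 : ∃ t, chk3 f_pm_313 t 1 1 1 = true :=
  ⟨(a (l 2) (l 4)), by decide +kernel⟩

theorem c_pm_313 : CertB 0 1230186008 536870912 536870912 536870912 50465866 3 eng mog cd5q3 cd5q1 pd3 true true false .dn 3 1 3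
    ndB5q3 ndB5q1 pcB3 Cut.none Ext.none :=
  certB0 (fam := true) (s1 := true) (s2 := false) (a := 3) (b := 1) (c := 3) (cn := .dn) (n1 := ndB5q3) (n2 := ndB5q1) (pc := pcB3) (cut := Cut.none) (xt := Ext.none) (P1 := 0) (W1 := 1230186008) (P2 := 536870912) (W2 := 536870912) (P3 := 536870912) (W3 := 50465866) (N0 := 3) (En := eng) (mo := mog) (C1 := cd5q3) (C2 := cd5q1) (C3 := pd3)
    rfl k0_pm_313

noncomputable def f_mm_001 : ℕ → ℕ → ℕ → ℕ → Bool := onCell 0 536870912 0 536870912 536870912 50465866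
    (rowB 3 eng mog cd5q0 cd5q0 pd1 0 true false false .up 0 0 1 (qsf 0 536870912 0 536870912 1) ndB5q0 ndB5q0 pcB1 Cut.none Ext.none)

def k0_mm_001 : ∃ t, chk3 f_mm_001 t 1 1 1 = true :=
  ⟨(l 4), by decide +kernel⟩

theorem c_mm_001 : CertB 0 536870912 0 536870912 536870912 50465866 3 eng mog cd5q0 cd5q0 pd1 true false false .up 0 0 1
    ndB5q0 ndB5q0 pcB1 Cut.none Ext.none :=
  certB0 (fam := true) (s1 := false) (s2 := false) (a := 0) (b := 0) (c := 1) (cn := .up) (n1 := ndB5q0) (n2 := ndB5q0) (pc := pcB1) (cut := Cut.none) (xt := Ext.none) (P1 := 0) (W1 := 536870912) (P2 := 0) (W2 := 536870912) (P3 := 536870912) (W3 := 50465866) (N0 := 3) (En := eng) (mo := mog) (C1 := cd5q0) (C2 := cd5q0) (C3 := pd1)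
    rfl k0_mm_001

noncomputable def f_mm_011 : ℕ → ℕ → ℕ → ℕ → Bool := onCell 0 536870912 536870912 536870912 536870912 50465866
    (rowB 3 eng mog cd5q0 cd5q1 pd1 0 true false false .pnn 0 1 1 (qsf 0 536870912 536870912 536870912 1) ndB5q0 ndB5q1 pcB1 Cut.none Ext.none)

def k0_mm_011 : ∃ t, chk3 f_mm_011 t 1 1 1 = true :=
  ⟨(l 4), by decide +kernel⟩

theorem c_mm_011 : CertB 0 536870912 536870912 536870912 536870912 50465866 3 eng mog cd5q0 cd5q1 pd1 true false false .pnn 0 1 1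
    ndB5q0 ndB5q1 pcB1 Cut.none Ext.none :=
  certB0 (fam := true) (s1 := false) (s2 := false) (a := 0) (b := 1) (c := 1) (cn := .pnn) (n1 := ndB5q0) (n2 := ndB5q1) (pc := pcB1) (cut := Cut.none) (xt := Ext.none) (P1 := 0) (W1 := 536870912) (P2 := 536870912) (W2 := 536870912) (P3 := 536870912) (W3 := 50465866) (N0 := 3) (En := eng) (mo := mog) (C1 := cd5q0) (C2 := cd5q1) (C3 := pd1)
    rfl k0_mm_011

noncomputable def f_mm_012 : ℕ → ℕ → ℕ → ℕ → Bool := onCell 0 536870912 536870912 536870912 536870912 50465866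
    (rowB 3 eng mog cd5q0 cd5q1 pd2 0 true false false .pnp 0 1 2 (qsf 0 536870912 536870912 536870912 2) ndB5q0 ndB5q1 pcB2 Cut.none Ext.none)

def k0_mm_012 : ∃ t, chk3 f_mm_012 t 1 1 1 = true :=
  ⟨(l 4), by decide +kernel⟩

theorem c_mm_012 : CertB 0 536870912 536870912 536870912 536870912 50465866 3 eng mog cd5q0 cd5q1 pd2 true false false .pnp 0 1 2
    ndB5q0 ndB5q1 pcB2 Cut.none Ext.none :=
  certB0 (fam := true) (s1 := false) (s2 := false) (a := 0) (b := 1) (c := 2) (cn := .pnp) (n1 := ndB5q0) (n2 := ndB5q1) (pc := pcB2) (cut := Cut.none) (xt := Ext.none) (P1 := 0) (W1 := 536870912) (P2 := 536870912) (W2 := 536870912) (P3 := 536870912) (W3 := 50465866) (N0 := 3) (En := eng) (mo := mog) (C1 := cd5q0) (C2 := cd5q1) (C3 := pd2)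
    rfl k0_mm_012

noncomputable def f_mm_022 : ℕ → ℕ → ℕ → ℕ → Bool := onCell 0 536870912 1073741824 536870912 536870912 50465866
    (rowB 3 eng mog cd5q0 cd5q2 pd2 0 true false false .pp 0 2 2 (qsf 0 536870912 1073741824 536870912 2) ndB5q0 ndB5q2 pcB2 Cut.none Ext.none)

def k0_mm_022 : ∃ t, chk3 f_mm_022 t 1 1 1 = true :=
  ⟨(l 4), by decide +kernel⟩

theorem c_mm_022 : CertB 0 536870912 1073741824 536870912 536870912 50465866 3 eng mog cd5q0 cd5q2 pd2 true false false .pp 0 2 2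
    ndB5q0 ndB5q2 pcB2 Cut.none Ext.none :=
  certB0 (fam := true) (s1 := false) (s2 := false) (a := 0) (b := 2) (c := 2) (cn := .pp) (n1 := ndB5q0) (n2 := ndB5q2) (pc := pcB2) (cut := Cut.none) (xt := Ext.none) (P1 := 0) (W1 := 536870912) (P2 := 1073741824) (W2 := 536870912) (P3 := 536870912) (W3 := 50465866) (N0 := 3) (En := eng) (mo := mog) (C1 := cd5q0) (C2 := cd5q2) (C3 := pd2)
    rfl k0_mm_022

noncomputable def f_mm_023 : ℕ → ℕ → ℕ → ℕ → Bool := onCell 0 536870912 1073741824 536870912 536870912 50465866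
    (rowB 3 eng mog cd5q0 cd5q2 pd3 0 true false false .up 0 2 3 (qsf 0 536870912 1073741824 536870912 3) ndB5q0 ndB5q2 pcB3 Cut.none Ext.none)

def k0_mm_023 : ∃ t, chk3 f_mm_023 t 1 1 1 = true :=
  ⟨(l 4), by decide +kernel⟩

theorem c_mm_023 : CertB 0 536870912 1073741824 536870912 536870912 50465866 3 eng mog cd5q0 cd5q2 pd3 true false false .up 0 2 3
    ndB5q0 ndB5q2 pcB3 Cut.none Ext.none :=
  certB0 (fam := true) (s1 := false) (s2 := false) (a := 0) (b := 2) (c := 3) (cn := .up) (n1 := ndB5q0) (n2 := ndB5q2) (pc := pcB3) (cut := Cut.none) (xt := Ext.none) (P1 := 0) (W1 := 536870912) (P2 := 1073741824) (W2 := 536870912) (P3 := 536870912) (W3 := 50465866) (N0 := 3) (En := eng) (mo := mog) (C1 := cd5q0) (C2 := cd5q2) (C3 := pd3)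
    rfl k0_mm_023

noncomputable def f_mm_033 : ℕ → ℕ → ℕ → ℕ → Bool := onCell 0 536870912 0 1230186008 536870912 50465866
    (rowB 3 eng mog cd5q0 cd5q3 pd3 0 true false false .pnn 0 3 3 (qsf 0 536870912 0 1230186008 3) ndB5q0 ndB5q3 pcB3 Cut.none Ext.none)

def k0_mm_033 : ∃ t, chk3 f_mm_033 t 1 1 1 = true :=
  ⟨(l 4), by decide +kernel⟩

theorem c_mm_033 : CertB 0 536870912 0 1230186008 536870912 50465866 3 eng mog cd5q0 cd5q3 pd3 true false false .pnn 0 3 3
    ndB5q0 ndB5q3 pcB3 Cut.none Ext.none :=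
  certB0 (fam := true) (s1 := false) (s2 := false) (a := 0) (b := 3) (c := 3) (cn := .pnn) (n1 := ndB5q0) (n2 := ndB5q3) (pc := pcB3) (cut := Cut.none) (xt := Ext.none) (P1 := 0) (W1 := 536870912) (P2 := 0) (W2 := 1230186008) (P3 := 536870912) (W3 := 50465866) (N0 := 3) (En := eng) (mo := mog) (C1 := cd5q0) (C2 := cd5q3) (C3 := pd3)
    rfl k0_mm_033

noncomputable def f_mm_101 : ℕ → ℕ → ℕ → ℕ → Bool := onCell 536870912 536870912 0 536870912 536870912 50465866
    (rowB 3 eng mog cd5q1 cd5q0 pd1 0 true false false .npn 1 0 1 (qsf 536870912 536870912 0 536870912 1) ndB5q1 ndB5q0 pcB1 Cut.none Ext.none)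

def k0_mm_101 : ∃ t, chk3 f_mm_101 t 1 1 1 = true :=
  ⟨(l 4), by decide +kernel⟩

theorem c_mm_101 : CertB 536870912 536870912 0 536870912 536870912 50465866 3 eng mog cd5q1 cd5q0 pd1 true false false .npn 1 0 1
    ndB5q1 ndB5q0 pcB1 Cut.none Ext.none :=
  certB0 (fam := true) (s1 := false) (s2 := false) (a := 1) (b := 0) (c := 1) (cn := .npn) (n1 := ndB5q1) (n2 := ndB5q0) (pc := pcB1) (cut := Cut.none) (xt := Ext.none) (P1 := 536870912) (W1 := 536870912) (P2 := 0) (W2 := 536870912) (P3 := 536870912) (W3 := 50465866) (N0 := 3) (En := eng) (mo := mog) (C1 := cd5q1) (C2 := cd5q0) (C3 := pd1)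
    rfl k0_mm_101

noncomputable def f_mm_102 : ℕ → ℕ → ℕ → ℕ → Bool := onCell 536870912 536870912 0 536870912 536870912 50465866
    (rowB 3 eng mog cd5q1 cd5q0 pd2 0 true false false .npp 1 0 2 (qsf 536870912 536870912 0 536870912 2) ndB5q1 ndB5q0 pcB2 Cut.none Ext.none)

def k0_mm_102 : ∃ t, chk3 f_mm_102 t 1 1 1 = true :=
  ⟨(l 4), by decide +kernel⟩

theorem c_mm_102 : CertB 536870912 536870912 0 536870912 536870912 50465866 3 eng mog cd5q1 cd5q0 pd2 true false false .npp 1 0 2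
    ndB5q1 ndB5q0 pcB2 Cut.none Ext.none :=
  certB0 (fam := true) (s1 := false) (s2 := false) (a := 1) (b := 0) (c := 2) (cn := .npp) (n1 := ndB5q1) (n2 := ndB5q0) (pc := pcB2) (cut := Cut.none) (xt := Ext.none) (P1 := 536870912) (W1 := 536870912) (P2 := 0) (W2 := 536870912) (P3 := 536870912) (W3 := 50465866) (N0 := 3) (En := eng) (mo := mog) (C1 := cd5q1) (C2 := cd5q0) (C3 := pd2)
    rfl k0_mm_102

noncomputable def f_mm_112 : ℕ → ℕ → ℕ → ℕ → Bool := onCell 536870912 536870912 536870912 536870912 536870912 50465866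
    (rowB 3 eng mog cd5q1 cd5q1 pd2 0 true false false .dn 1 1 2 (qsf 536870912 536870912 536870912 536870912 2) ndB5q1 ndB5q1 pcB2 Cut.none Ext.none)

def k0_mm_112 : ∃ t, chk3 f_mm_112 t 1 1 1 = true :=
  ⟨(l 4), by decide +kernel⟩

theorem c_mm_112 : CertB 536870912 536870912 536870912 536870912 536870912 50465866 3 eng mog cd5q1 cd5q1 pd2 true false false .dn 1 1 2
    ndB5q1 ndB5q1 pcB2 Cut.none Ext.none :=
  certB0 (fam := true) (s1 := false) (s2 := false) (a := 1) (b := 1) (c := 2) (cn := .dn) (n1 := ndB5q1) (n2 := ndB5q1) (pc := pcB2) (cut := Cut.none) (xt := Ext.none) (P1 := 536870912) (W1 := 536870912) (P2 := 536870912) (W2 := 536870912) (P3 := 536870912) (W3 := 50465866) (N0 := 3) (En := eng) (mo := mog) (C1 := cd5q1) (C2 := cd5q1) (C3 := pd2)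
    rfl k0_mm_112

noncomputable def f_mm_113 : ℕ → ℕ → ℕ → ℕ → Bool := onCell 536870912 536870912 536870912 536870912 536870912 50465866
    (rowB 3 eng mog cd5q1 cd5q1 pd3 0 true false false .nn 1 1 3 (qsf 536870912 536870912 536870912 536870912 3) ndB5q1 ndB5q1 pcB3 Cut.none Ext.none)

def k0_mm_113 : ∃ t, chk3 f_mm_113 t 1 1 1 = true :=
  ⟨(l 4), by decide +kernel⟩

theorem c_mm_113 : CertB 536870912 536870912 536870912 536870912 536870912 50465866 3 eng mog cd5q1 cd5q1 pd3 true false false .nn 1 1 3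
    ndB5q1 ndB5q1 pcB3 Cut.none Ext.none :=
  certB0 (fam := true) (s1 := false) (s2 := false) (a := 1) (b := 1) (c := 3) (cn := .nn) (n1 := ndB5q1) (n2 := ndB5q1) (pc := pcB3) (cut := Cut.none) (xt := Ext.none) (P1 := 536870912) (W1 := 536870912) (P2 := 536870912) (W2 := 536870912) (P3 := 536870912) (W3 := 50465866) (N0 := 3) (En := eng) (mo := mog) (C1 := cd5q1) (C2 := cd5q1) (C3 := pd3)
    rfl k0_mm_113

noncomputable def f_mm_123 : ℕ → ℕ → ℕ → ℕ → Bool := onCell 536870912 536870912 1073741824 536870912 536870912 50465866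
    (rowB 3 eng mog cd5q1 cd5q2 pd3 0 true false false .npn 1 2 3 (qsf 536870912 536870912 1073741824 536870912 3) ndB5q1 ndB5q2 pcB3 Cut.none Ext.none)

def k0_mm_123 : ∃ t, chk3 f_mm_123 t 1 1 1 = true :=
  ⟨(l 4), by decide +kernel⟩

theorem c_mm_123 : CertB 536870912 536870912 1073741824 536870912 536870912 50465866 3 eng mog cd5q1 cd5q2 pd3 true false false .npn 1 2 3
    ndB5q1 ndB5q2 pcB3 Cut.none Ext.none :=
  certB0 (fam := true) (s1 := false) (s2 := false) (a := 1) (b := 2) (c := 3) (cn := .npn) (n1 := ndB5q1) (n2 := ndB5q2) (pc := pcB3) (cut := Cut.none) (xt := Ext.none) (P1 := 536870912) (W1 := 536870912) (P2 := 1073741824) (W2 := 536870912) (P3 := 536870912) (W3 := 50465866) (N0 := 3) (En := eng) (mo := mog) (C1 := cd5q1) (C2 := cd5q2) (C3 := pd3)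
    rfl k0_mm_123

noncomputable def f_mm_133 : ℕ → ℕ → ℕ → ℕ → Bool := onCell 536870912 536870912 0 1230186008 536870912 50465866
    (rowB 3 eng mog cd5q1 cd5q3 pd3 0 true false false .dn 1 3 3 (qsf 536870912 536870912 0 1230186008 3) ndB5q1 ndB5q3 pcB3 Cut.none Ext.none)

def k0_mm_133 : ∃ t, chk3 f_mm_133 t 1 1 1 = true :=
  ⟨(l 4), by decide +kernel⟩

theorem c_mm_133 : CertB 536870912 536870912 0 1230186008 536870912 50465866 3 eng mog cd5q1 cd5q3 pd3 true false false .dn 1 3 3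
    ndB5q1 ndB5q3 pcB3 Cut.none Ext.none :=
  certB0 (fam := true) (s1 := false) (s2 := false) (a := 1) (b := 3) (c := 3) (cn := .dn) (n1 := ndB5q1) (n2 := ndB5q3) (pc := pcB3) (cut := Cut.none) (xt := Ext.none) (P1 := 536870912) (W1 := 536870912) (P2 := 0) (W2 := 1230186008) (P3 := 536870912) (W3 := 50465866) (N0 := 3) (En := eng) (mo := mog) (C1 := cd5q1) (C2 := cd5q3) (C3 := pd3)
    rfl k0_mm_133

noncomputable def f_mm_202 : ℕ → ℕ → ℕ → ℕ → Bool := onCell 1073741824 536870912 0 536870912 536870912 50465866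
    (rowB 3 eng mog cd5q2 cd5q0 pd2 0 true false false .pp 2 0 2 (qsf 1073741824 536870912 0 536870912 2) ndB5q2 ndB5q0 pcB2 Cut.none Ext.none)

def k0_mm_202 : ∃ t, chk3 f_mm_202 t 1 1 1 = true :=
  ⟨(l 4), by decide +kernel⟩

theorem c_mm_202 : CertB 1073741824 536870912 0 536870912 536870912 50465866 3 eng mog cd5q2 cd5q0 pd2 true false false .pp 2 0 2
    ndB5q2 ndB5q0 pcB2 Cut.none Ext.none :=
  certB0 (fam := true) (s1 := false) (s2 := false) (a := 2) (b := 0) (c := 2) (cn := .pp) (n1 := ndB5q2) (n2 := ndB5q0) (pc := pcB2) (cut := Cut.none) (xt := Ext.none) (P1 := 1073741824) (W1 := 536870912) (P2 := 0) (W2 := 536870912) (P3 := 536870912) (W3 := 50465866) (N0 := 3) (En := eng) (mo := mog) (C1 := cd5q2) (C2 := cd5q0) (C3 := pd2)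
    rfl k0_mm_202

noncomputable def f_mm_203 : ℕ → ℕ → ℕ → ℕ → Bool := onCell 1073741824 536870912 0 536870912 536870912 50465866
    (rowB 3 eng mog cd5q2 cd5q0 pd3 0 true false false .up 2 0 3 (qsf 1073741824 536870912 0 536870912 3) ndB5q2 ndB5q0 pcB3 Cut.none Ext.none)

def k0_mm_203 : ∃ t, chk3 f_mm_203 t 1 1 1 = true :=
  ⟨(l 4), by decide +kernel⟩

theorem c_mm_203 : CertB 1073741824 536870912 0 536870912 536870912 50465866 3 eng mog cd5q2 cd5q0 pd3 true false false .up 2 0 3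
    ndB5q2 ndB5q0 pcB3 Cut.none Ext.none :=
  certB0 (fam := true) (s1 := false) (s2 := false) (a := 2) (b := 0) (c := 3) (cn := .up) (n1 := ndB5q2) (n2 := ndB5q0) (pc := pcB3) (cut := Cut.none) (xt := Ext.none) (P1 := 1073741824) (W1 := 536870912) (P2 := 0) (W2 := 536870912) (P3 := 536870912) (W3 := 50465866) (N0 := 3) (En := eng) (mo := mog) (C1 := cd5q2) (C2 := cd5q0) (C3 := pd3)
    rfl k0_mm_203

noncomputable def f_mm_213 : ℕ → ℕ → ℕ → ℕ → Bool := onCell 1073741824 536870912 536870912 536870912 536870912 50465866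
    (rowB 3 eng mog cd5q2 cd5q1 pd3 0 true false false .pnn 2 1 3 (qsf 1073741824 536870912 536870912 536870912 3) ndB5q2 ndB5q1 pcB3 Cut.none Ext.none)

def k0_mm_213 : ∃ t, chk3 f_mm_213 t 1 1 1 = true :=
  ⟨(l 4), by decide +kernel⟩

theorem c_mm_213 : CertB 1073741824 536870912 536870912 536870912 536870912 50465866 3 eng mog cd5q2 cd5q1 pd3 true false false .pnn 2 1 3
    ndB5q2 ndB5q1 pcB3 Cut.none Ext.none :=
  certB0 (fam := true) (s1 := false) (s2 := false) (a := 2) (b := 1) (c := 3) (cn := .pnn) (n1 := ndB5q2) (n2 := ndB5q1) (pc := pcB3) (cut := Cut.none) (xt := Ext.none) (P1 := 1073741824) (W1 := 536870912) (P2 := 536870912) (W2 := 536870912) (P3 := 536870912) (W3 := 50465866) (N0 := 3) (En := eng) (mo := mog) (C1 := cd5q2) (C2 := cd5q1) (C3 := pd3)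
    rfl k0_mm_213

noncomputable def f_mm_303 : ℕ → ℕ → ℕ → ℕ → Bool := onCell 0 1230186008 0 536870912 536870912 50465866
    (rowB 3 eng mog cd5q3 cd5q0 pd3 0 true false false .npn 3 0 3 (qsf 0 1230186008 0 536870912 3) ndB5q3 ndB5q0 pcB3 Cut.none Ext.none)

def k0_mm_303 : ∃ t, chk3 f_mm_303 t 1 1 1 = true :=
  ⟨(l 4), by decide +kernel⟩

theorem c_mm_303 : CertB 0 1230186008 0 536870912 536870912 50465866 3 eng mog cd5q3 cd5q0 pd3 true false false .npn 3 0 3
    ndB5q3 ndB5q0 pcB3 Cut.none Ext.none :=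
  certB0 (fam := true) (s1 := false) (s2 := false) (a := 3) (b := 0) (c := 3) (cn := .npn) (n1 := ndB5q3) (n2 := ndB5q0) (pc := pcB3) (cut := Cut.none) (xt := Ext.none) (P1 := 0) (W1 := 1230186008) (P2 := 0) (W2 := 536870912) (P3 := 536870912) (W3 := 50465866) (N0 := 3) (En := eng) (mo := mog) (C1 := cd5q3) (C2 := cd5q0) (C3 := pd3)
    rfl k0_mm_303

noncomputable def f_mm_313 : ℕ → ℕ → ℕ → ℕ → Bool := onCell 0 1230186008 536870912 536870912 536870912 50465866
    (rowB 3 eng mog cd5q3 cd5q1 pd3 0 true false false .dn 3 1 3 (qsf 0 1230186008 536870912 536870912 3) ndB5q3 ndB5q1 pcB3 Cut.none Ext.none)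

def k0_mm_313 : ∃ t, chk3 f_mm_313 t 1 1 1 = true :=
  ⟨(l 4), by decide +kernel⟩

theorem c_mm_313 : CertB 0 1230186008 536870912 536870912 536870912 50465866 3 eng mog cd5q3 cd5q1 pd3 true false false .dn 3 1 3
    ndB5q3 ndB5q1 pcB3 Cut.none Ext.none :=
  certB0 (fam := true) (s1 := false) (s2 := false) (a := 3) (b := 1) (c := 3) (cn := .dn) (n1 := ndB5q3) (n2 := ndB5q1) (pc := pcB3) (cut := Cut.none) (xt := Ext.none) (P1 := 0) (W1 := 1230186008) (P2 := 536870912) (W2 := 536870912) (P3 := 536870912) (W3 := 50465866) (N0 := 3) (En := eng) (mo := mog) (C1 := cd5q3) (C2 := cd5q1) (C3 := pd3)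
    rfl k0_mm_313

end Pool.Agent.Strip051.G.I5000_5470.Tab.C.BA55

namespace Pool.Agent.Strip051.G.I5000_5470.Tab.C.BA56

open Pool.Agent.Strip051.PB Pool.Agent.Strip051.PB.T
open Pool.Agent.Strip051.G.I5000_5470.Tab

noncomputable def f_pp_001 : ℕ → ℕ → ℕ → ℕ → Bool := onCell 0 536870912 0 536870912 536870912 50465866
    (rowB 3 eng mog cd5q0 cd6q0 pd1 0 true true true .up 0 0 1 (qsf 0 536870912 0 536870912 1) ndB5q0 ndB6q0 pcB1 Cut.none Ext.none)

def k0_pp_001 : ∃ t, chk3 f_pp_001 t 1 1 1 = true :=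
  ⟨(l 4), by decide +kernel⟩

theorem c_pp_001 : CertB 0 536870912 0 536870912 536870912 50465866 3 eng mog cd5q0 cd6q0 pd1 true true true .up 0 0 1
    ndB5q0 ndB6q0 pcB1 Cut.none Ext.none :=
  certB0 (fam := true) (s1 := true) (s2 := true) (a := 0) (b := 0) (c := 1) (cn := .up) (n1 := ndB5q0) (n2 := ndB6q0) (pc := pcB1) (cut := Cut.none) (xt := Ext.none) (P1 := 0) (W1 := 536870912) (P2 := 0) (W2 := 536870912) (P3 := 536870912) (W3 := 50465866) (N0 := 3) (En := eng) (mo := mog) (C1 := cd5q0) (C2 := cd6q0) (C3 := pd1)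
    rfl k0_pp_001

noncomputable def f_pp_011 : ℕ → ℕ → ℕ → ℕ → Bool := onCell 0 536870912 536870912 536870912 536870912 50465866
    (rowB 3 eng mog cd5q0 cd6q1 pd1 0 true true true .pnn 0 1 1 (qsf 0 536870912 536870912 536870912 1) ndB5q0 ndB6q1 pcB1 Cut.none Ext.none)

def k0_pp_011 : ∃ t, chk3 f_pp_011 t 1 1 1 = true :=
  ⟨(l 4), by decide +kernel⟩

theorem c_pp_011 : CertB 0 536870912 536870912 536870912 536870912 50465866 3 eng mog cd5q0 cd6q1 pd1 true true true .pnn 0 1 1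
    ndB5q0 ndB6q1 pcB1 Cut.none Ext.none :=
  certB0 (fam := true) (s1 := true) (s2 := true) (a := 0) (b := 1) (c := 1) (cn := .pnn) (n1 := ndB5q0) (n2 := ndB6q1) (pc := pcB1) (cut := Cut.none) (xt := Ext.none) (P1 := 0) (W1 := 536870912) (P2 := 536870912) (W2 := 536870912) (P3 := 536870912) (W3 := 50465866) (N0 := 3) (En := eng) (mo := mog) (C1 := cd5q0) (C2 := cd6q1) (C3 := pd1)
    rfl k0_pp_011

noncomputable def f_pp_012 : ℕ → ℕ → ℕ → ℕ → Bool := onCell 0 536870912 536870912 536870912 536870912 50465866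
    (rowB 3 eng mog cd5q0 cd6q1 pd2 0 true true true .pnp 0 1 2 (qsf 0 536870912 536870912 536870912 2) ndB5q0 ndB6q1 pcB2 Cut.none Ext.none)

def k0_pp_012 : ∃ t, chk3 f_pp_012 t 1 1 1 = true :=
  ⟨(l 4), by decide +kernel⟩

theorem c_pp_012 : CertB 0 536870912 536870912 536870912 536870912 50465866 3 eng mog cd5q0 cd6q1 pd2 true true true .pnp 0 1 2
    ndB5q0 ndB6q1 pcB2 Cut.none Ext.none :=
  certB0 (fam := true) (s1 := true) (s2 := true) (a := 0) (b := 1) (c := 2) (cn := .pnp) (n1 := ndB5q0) (n2 := ndB6q1) (pc := pcB2) (cut := Cut.none) (xt := Ext.none) (P1 := 0) (W1 := 536870912) (P2 := 536870912) (W2 := 536870912) (P3 := 536870912) (W3 := 50465866) (N0 := 3) (En := eng) (mo := mog) (C1 := cd5q0) (C2 := cd6q1) (C3 := pd2)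
    rfl k0_pp_012

noncomputable def f_pp_022 : ℕ → ℕ → ℕ → ℕ → Bool := onCell 0 536870912 1073741824 536870912 536870912 50465866
    (rowB 3 eng mog cd5q0 cd6q2 pd2 0 true true true .pp 0 2 2 (qsf 0 536870912 1073741824 536870912 2) ndB5q0 ndB6q2 pcB2 Cut.none Ext.none)

def k0_pp_022 : ∃ t, chk3 f_pp_022 t 1 1 1 = true :=
  ⟨(l 4), by decide +kernel⟩

theorem c_pp_022 : CertB 0 536870912 1073741824 536870912 536870912 50465866 3 eng mog cd5q0 cd6q2 pd2 true true true .pp 0 2 2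
    ndB5q0 ndB6q2 pcB2 Cut.none Ext.none :=
  certB0 (fam := true) (s1 := true) (s2 := true) (a := 0) (b := 2) (c := 2) (cn := .pp) (n1 := ndB5q0) (n2 := ndB6q2) (pc := pcB2) (cut := Cut.none) (xt := Ext.none) (P1 := 0) (W1 := 536870912) (P2 := 1073741824) (W2 := 536870912) (P3 := 536870912) (W3 := 50465866) (N0 := 3) (En := eng) (mo := mog) (C1 := cd5q0) (C2 := cd6q2) (C3 := pd2)
    rfl k0_pp_022

noncomputable def f_pp_023 : ℕ → ℕ → ℕ → ℕ → Bool := onCell 0 536870912 1073741824 536870912 536870912 50465866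
    (rowB 3 eng mog cd5q0 cd6q2 pd3 0 true true true .up 0 2 3 (qsf 0 536870912 1073741824 536870912 3) ndB5q0 ndB6q2 pcB3 Cut.none Ext.none)

def k0_pp_023 : ∃ t, chk3 f_pp_023 t 1 1 1 = true :=
  ⟨(l 4), by decide +kernel⟩

theorem c_pp_023 : CertB 0 536870912 1073741824 536870912 536870912 50465866 3 eng mog cd5q0 cd6q2 pd3 true true true .up 0 2 3
    ndB5q0 ndB6q2 pcB3 Cut.none Ext.none :=
  certB0 (fam := true) (s1 := true) (s2 := true) (a := 0) (b := 2) (c := 3) (cn := .up) (n1 := ndB5q0) (n2 := ndB6q2) (pc := pcB3) (cut := Cut.none) (xt := Ext.none) (P1 := 0) (W1 := 536870912) (P2 := 1073741824) (W2 := 536870912) (P3 := 536870912) (W3 := 50465866) (N0 := 3) (En := eng) (mo := mog) (C1 := cd5q0) (C2 := cd6q2) (C3 := pd3)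
    rfl k0_pp_023

noncomputable def f_pp_033 : ℕ → ℕ → ℕ → ℕ → Bool := onCell 0 536870912 0 1230186008 536870912 50465866
    (rowB 3 eng mog cd5q0 cd6q3 pd3 0 true true true .pnn 0 3 3 (qsf 0 536870912 0 1230186008 3) ndB5q0 ndB6q3 pcB3 Cut.none Ext.none)

def k0_pp_033 : ∃ t, chk3 f_pp_033 t 1 1 1 = true :=
  ⟨(l 4), by decide +kernel⟩

theorem c_pp_033 : CertB 0 536870912 0 1230186008 536870912 50465866 3 eng mog cd5q0 cd6q3 pd3 true true true .pnn 0 3 3
    ndB5q0 ndB6q3 pcB3 Cut.none Ext.none :=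
  certB0 (fam := true) (s1 := true) (s2 := true) (a := 0) (b := 3) (c := 3) (cn := .pnn) (n1 := ndB5q0) (n2 := ndB6q3) (pc := pcB3) (cut := Cut.none) (xt := Ext.none) (P1 := 0) (W1 := 536870912) (P2 := 0) (W2 := 1230186008) (P3 := 536870912) (W3 := 50465866) (N0 := 3) (En := eng) (mo := mog) (C1 := cd5q0) (C2 := cd6q3) (C3 := pd3)
    rfl k0_pp_033

noncomputable def f_pp_101 : ℕ → ℕ → ℕ → ℕ → Bool := onCell 536870912 536870912 0 536870912 536870912 50465866
    (rowB 3 eng mog cd5q1 cd6q0 pd1 0 true true true .npn 1 0 1 (qsf 536870912 536870912 0 536870912 1) ndB5q1 ndB6q0 pcB1 Cut.none Ext.none)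

def k0_pp_101 : ∃ t, chk3 f_pp_101 t 1 1 1 = true :=
  ⟨(l 4), by decide +kernel⟩

theorem c_pp_101 : CertB 536870912 536870912 0 536870912 536870912 50465866 3 eng mog cd5q1 cd6q0 pd1 true true true .npn 1 0 1
    ndB5q1 ndB6q0 pcB1 Cut.none Ext.none :=
  certB0 (fam := true) (s1 := true) (s2 := true) (a := 1) (b := 0) (c := 1) (cn := .npn) (n1 := ndB5q1) (n2 := ndB6q0) (pc := pcB1) (cut := Cut.none) (xt := Ext.none) (P1 := 536870912) (W1 := 536870912) (P2 := 0) (W2 := 536870912) (P3 := 536870912) (W3 := 50465866) (N0 := 3) (En := eng) (mo := mog) (C1 := cd5q1) (C2 := cd6q0) (C3 := pd1)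
    rfl k0_pp_101

noncomputable def f_pp_102 : ℕ → ℕ → ℕ → ℕ → Bool := onCell 536870912 536870912 0 536870912 536870912 50465866
    (rowB 3 eng mog cd5q1 cd6q0 pd2 0 true true true .npp 1 0 2 (qsf 536870912 536870912 0 536870912 2) ndB5q1 ndB6q0 pcB2 Cut.none Ext.none)

def k0_pp_102 : ∃ t, chk3 f_pp_102 t 1 1 1 = true :=
  ⟨(l 4), by decide +kernel⟩

theorem c_pp_102 : CertB 536870912 536870912 0 536870912 536870912 50465866 3 eng mog cd5q1 cd6q0 pd2 true true true .npp 1 0 2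
    ndB5q1 ndB6q0 pcB2 Cut.none Ext.none :=
  certB0 (fam := true) (s1 := true) (s2 := true) (a := 1) (b := 0) (c := 2) (cn := .npp) (n1 := ndB5q1) (n2 := ndB6q0) (pc := pcB2) (cut := Cut.none) (xt := Ext.none) (P1 := 536870912) (W1 := 536870912) (P2 := 0) (W2 := 536870912) (P3 := 536870912) (W3 := 50465866) (N0 := 3) (En := eng) (mo := mog) (C1 := cd5q1) (C2 := cd6q0) (C3 := pd2)
    rfl k0_pp_102

noncomputable def f_pp_112 : ℕ → ℕ → ℕ → ℕ → Bool := onCell 536870912 536870912 536870912 536870912 536870912 50465866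
    (rowB 3 eng mog cd5q1 cd6q1 pd2 0 true true true .dn 1 1 2 (qsf 536870912 536870912 536870912 536870912 2) ndB5q1 ndB6q1 pcB2 Cut.none Ext.none)

def k0_pp_112 : ∃ t, chk3 f_pp_112 t 1 1 1 = true :=
  ⟨(l 4), by decide +kernel⟩

theorem c_pp_112 : CertB 536870912 536870912 536870912 536870912 536870912 50465866 3 eng mog cd5q1 cd6q1 pd2 true true true .dn 1 1 2
    ndB5q1 ndB6q1 pcB2 Cut.none Ext.none :=
  certB0 (fam := true) (s1 := true) (s2 := true) (a := 1) (b := 1) (c := 2) (cn := .dn) (n1 := ndB5q1) (n2 := ndB6q1) (pc := pcB2) (cut := Cut.none) (xt := Ext.none) (P1 := 536870912) (W1 := 536870912) (P2 := 536870912) (W2 := 536870912) (P3 := 536870912) (W3 := 50465866) (N0 := 3) (En := eng) (mo := mog) (C1 := cd5q1) (C2 := cd6q1) (C3 := pd2)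
    rfl k0_pp_112

noncomputable def f_pp_113 : ℕ → ℕ → ℕ → ℕ → Bool := onCell 536870912 536870912 536870912 536870912 536870912 50465866
    (rowB 3 eng mog cd5q1 cd6q1 pd3 0 true true true .nn 1 1 3 (qsf 536870912 536870912 536870912 536870912 3) ndB5q1 ndB6q1 pcB3 Cut.none Ext.none)

def k0_pp_113 : ∃ t, chk3 f_pp_113 t 1 1 1 = true :=
  ⟨(l 4), by decide +kernel⟩

theorem c_pp_113 : CertB 536870912 536870912 536870912 536870912 536870912 50465866 3 eng mog cd5q1 cd6q1 pd3 true true true .nn 1 1 3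
    ndB5q1 ndB6q1 pcB3 Cut.none Ext.none :=
  certB0 (fam := true) (s1 := true) (s2 := true) (a := 1) (b := 1) (c := 3) (cn := .nn) (n1 := ndB5q1) (n2 := ndB6q1) (pc := pcB3) (cut := Cut.none) (xt := Ext.none) (P1 := 536870912) (W1 := 536870912) (P2 := 536870912) (W2 := 536870912) (P3 := 536870912) (W3 := 50465866) (N0 := 3) (En := eng) (mo := mog) (C1 := cd5q1) (C2 := cd6q1) (C3 := pd3)
    rfl k0_pp_113

noncomputable def f_pp_123 : ℕ → ℕ → ℕ → ℕ → Bool := onCell 536870912 536870912 1073741824 536870912 536870912 50465866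
    (rowB 3 eng mog cd5q1 cd6q2 pd3 0 true true true .npn 1 2 3 (qsf 536870912 536870912 1073741824 536870912 3) ndB5q1 ndB6q2 pcB3 Cut.none Ext.none)

def k0_pp_123 : ∃ t, chk3 f_pp_123 t 1 1 1 = true :=
  ⟨(l 4), by decide +kernel⟩

theorem c_pp_123 : CertB 536870912 536870912 1073741824 536870912 536870912 50465866 3 eng mog cd5q1 cd6q2 pd3 true true true .npn 1 2 3
    ndB5q1 ndB6q2 pcB3 Cut.none Ext.none :=
  certB0 (fam := true) (s1 := true) (s2 := true) (a := 1) (b := 2) (c := 3) (cn := .npn) (n1 := ndB5q1) (n2 := ndB6q2) (pc := pcB3) (cut := Cut.none) (xt := Ext.none) (P1 := 536870912) (W1 := 536870912) (P2 := 1073741824) (W2 := 536870912) (P3 := 536870912) (W3 := 50465866) (N0 := 3) (En := eng) (mo := mog) (C1 := cd5q1) (C2 := cd6q2) (C3 := pd3)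
    rfl k0_pp_123

noncomputable def f_pp_133 : ℕ → ℕ → ℕ → ℕ → Bool := onCell 536870912 536870912 0 1230186008 536870912 50465866
    (rowB 3 eng mog cd5q1 cd6q3 pd3 0 true true true .dn 1 3 3 (qsf 536870912 536870912 0 1230186008 3) ndB5q1 ndB6q3 pcB3 Cut.none Ext.none)

def k0_pp_133 : ∃ t, chk3 f_pp_133 t 1 1 1 = true :=
  ⟨(l 4), by decide +kernel⟩

theorem c_pp_133 : CertB 536870912 536870912 0 1230186008 536870912 50465866 3 eng mog cd5q1 cd6q3 pd3 true true true .dn 1 3 3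
    ndB5q1 ndB6q3 pcB3 Cut.none Ext.none :=
  certB0 (fam := true) (s1 := true) (s2 := true) (a := 1) (b := 3) (c := 3) (cn := .dn) (n1 := ndB5q1) (n2 := ndB6q3) (pc := pcB3) (cut := Cut.none) (xt := Ext.none) (P1 := 536870912) (W1 := 536870912) (P2 := 0) (W2 := 1230186008) (P3 := 536870912) (W3 := 50465866) (N0 := 3) (En := eng) (mo := mog) (C1 := cd5q1) (C2 := cd6q3) (C3 := pd3)
    rfl k0_pp_133

noncomputable def f_pp_202 : ℕ → ℕ → ℕ → ℕ → Bool := onCell 1073741824 536870912 0 536870912 536870912 50465866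
    (rowB 3 eng mog cd5q2 cd6q0 pd2 0 true true true .pp 2 0 2 (qsf 1073741824 536870912 0 536870912 2) ndB5q2 ndB6q0 pcB2 Cut.none Ext.none)

def k0_pp_202 : ∃ t, chk3 f_pp_202 t 1 1 1 = true :=
  ⟨(l 4), by decide +kernel⟩

theorem c_pp_202 : CertB 1073741824 536870912 0 536870912 536870912 50465866 3 eng mog cd5q2 cd6q0 pd2 true true true .pp 2 0 2
    ndB5q2 ndB6q0 pcB2 Cut.none Ext.none :=
  certB0 (fam := true) (s1 := true) (s2 := true) (a := 2) (b := 0) (c := 2) (cn := .pp) (n1 := ndB5q2) (n2 := ndB6q0) (pc := pcB2) (cut := Cut.none) (xt := Ext.none) (P1 := 1073741824) (W1 := 536870912) (P2 := 0) (W2 := 536870912) (P3 := 536870912) (W3 := 50465866) (N0 := 3) (En := eng) (mo := mog) (C1 := cd5q2) (C2 := cd6q0) (C3 := pd2)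
    rfl k0_pp_202

noncomputable def f_pp_203 : ℕ → ℕ → ℕ → ℕ → Bool := onCell 1073741824 536870912 0 536870912 536870912 50465866
    (rowB 3 eng mog cd5q2 cd6q0 pd3 0 true true true .up 2 0 3 (qsf 1073741824 536870912 0 536870912 3) ndB5q2 ndB6q0 pcB3 Cut.none Ext.none)

def k0_pp_203 : ∃ t, chk3 f_pp_203 t 1 1 1 = true :=
  ⟨(l 4), by decide +kernel⟩

theorem c_pp_203 : CertB 1073741824 536870912 0 536870912 536870912 50465866 3 eng mog cd5q2 cd6q0 pd3 true true true .up 2 0 3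
    ndB5q2 ndB6q0 pcB3 Cut.none Ext.none :=
  certB0 (fam := true) (s1 := true) (s2 := true) (a := 2) (b := 0) (c := 3) (cn := .up) (n1 := ndB5q2) (n2 := ndB6q0) (pc := pcB3) (cut := Cut.none) (xt := Ext.none) (P1 := 1073741824) (W1 := 536870912) (P2 := 0) (W2 := 536870912) (P3 := 536870912) (W3 := 50465866) (N0 := 3) (En := eng) (mo := mog) (C1 := cd5q2) (C2 := cd6q0) (C3 := pd3)
    rfl k0_pp_203

noncomputable def f_pp_213 : ℕ → ℕ → ℕ → ℕ → Bool := onCell 1073741824 536870912 536870912 536870912 536870912 50465866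
    (rowB 3 eng mog cd5q2 cd6q1 pd3 0 true true true .pnn 2 1 3 (qsf 1073741824 536870912 536870912 536870912 3) ndB5q2 ndB6q1 pcB3 Cut.none Ext.none)

def k0_pp_213 : ∃ t, chk3 f_pp_213 t 1 1 1 = true :=
  ⟨(l 4), by decide +kernel⟩

theorem c_pp_213 : CertB 1073741824 536870912 536870912 536870912 536870912 50465866 3 eng mog cd5q2 cd6q1 pd3 true true true .pnn 2 1 3
    ndB5q2 ndB6q1 pcB3 Cut.none Ext.none :=
  certB0 (fam := true) (s1 := true) (s2 := true) (a := 2) (b := 1) (c := 3) (cn := .pnn) (n1 := ndB5q2) (n2 := ndB6q1) (pc := pcB3) (cut := Cut.none) (xt := Ext.none) (P1 := 1073741824) (W1 := 536870912) (P2 := 536870912) (W2 := 536870912) (P3 := 536870912) (W3 := 50465866) (N0 := 3) (En := eng) (mo := mog) (C1 := cd5q2) (C2 := cd6q1) (C3 := pd3)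
    rfl k0_pp_213

noncomputable def f_pp_303 : ℕ → ℕ → ℕ → ℕ → Bool := onCell 0 1230186008 0 536870912 536870912 50465866
    (rowB 3 eng mog cd5q3 cd6q0 pd3 0 true true true .npn 3 0 3 (qsf 0 1230186008 0 536870912 3) ndB5q3 ndB6q0 pcB3 Cut.none Ext.none)

def k0_pp_303 : ∃ t, chk3 f_pp_303 t 1 1 1 = true :=
  ⟨(l 4), by decide +kernel⟩

theorem c_pp_303 : CertB 0 1230186008 0 536870912 536870912 50465866 3 eng mog cd5q3 cd6q0 pd3 true true true .npn 3 0 3
    ndB5q3 ndB6q0 pcB3 Cut.none Ext.none :=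
  certB0 (fam := true) (s1 := true) (s2 := true) (a := 3) (b := 0) (c := 3) (cn := .npn) (n1 := ndB5q3) (n2 := ndB6q0) (pc := pcB3) (cut := Cut.none) (xt := Ext.none) (P1 := 0) (W1 := 1230186008) (P2 := 0) (W2 := 536870912) (P3 := 536870912) (W3 := 50465866) (N0 := 3) (En := eng) (mo := mog) (C1 := cd5q3) (C2 := cd6q0) (C3 := pd3)
    rfl k0_pp_303

noncomputable def f_pp_313 : ℕ → ℕ → ℕ → ℕ → Bool := onCell 0 1230186008 536870912 536870912 536870912 50465866
    (rowB 3 eng mog cd5q3 cd6q1 pd3 0 true true true .dn 3 1 3 (qsf 0 1230186008 536870912 536870912 3) ndB5q3 ndB6q1 pcB3 Cut.none Ext.none)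

def k0_pp_313 : ∃ t, chk3 f_pp_313 t 1 1 1 = true :=
  ⟨(l 4), by decide +kernel⟩

theorem c_pp_313 : CertB 0 1230186008 536870912 536870912 536870912 50465866 3 eng mog cd5q3 cd6q1 pd3 true true true .dn 3 1 3
    ndB5q3 ndB6q1 pcB3 Cut.none Ext.none :=
  certB0 (fam := true) (s1 := true) (s2 := true) (a := 3) (b := 1) (c := 3) (cn := .dn) (n1 := ndB5q3) (n2 := ndB6q1) (pc := pcB3) (cut := Cut.none) (xt := Ext.none) (P1 := 0) (W1 := 1230186008) (P2 := 536870912) (W2 := 536870912) (P3 := 536870912) (W3 := 50465866) (N0 := 3) (En := eng) (mo := mog) (C1 := cd5q3) (C2 := cd6q1) (C3 := pd3)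
    rfl k0_pp_313

noncomputable def f_pm_001 : ℕ → ℕ → ℕ → ℕ → Bool := onCell 0 536870912 0 536870912 536870912 50465866
    (rowB 3 eng mog cd5q0 cd6q0 pd1 0 true true false .up 0 0 1 (qsf 0 536870912 0 536870912 1) ndB5q0 ndB6q0 pcB1 Cut.none Ext.none)

def k0_pm_001 : ∃ t, chk3 f_pm_001 t 1 1 1 = true :=
  ⟨(l 3), by decide +kernel⟩

theorem c_pm_001 : CertB 0 536870912 0 536870912 536870912 50465866 3 eng mog cd5q0 cd6q0 pd1 true true false .up 0 0 1
    ndB5q0 ndB6q0 pcB1 Cut.none Ext.none :=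
  certB0 (fam := true) (s1 := true) (s2 := false) (a := 0) (b := 0) (c := 1) (cn := .up) (n1 := ndB5q0) (n2 := ndB6q0) (pc := pcB1) (cut := Cut.none) (xt := Ext.none) (P1 := 0) (W1 := 536870912) (P2 := 0) (W2 := 536870912) (P3 := 536870912) (W3 := 50465866) (N0 := 3) (En := eng) (mo := mog) (C1 := cd5q0) (C2 := cd6q0) (C3 := pd1)
    rfl k0_pm_001

noncomputable def f_pm_011 : ℕ → ℕ → ℕ → ℕ → Bool := onCell 0 536870912 536870912 536870912 536870912 50465866
    (rowB 3 eng mog cd5q0 cd6q1 pd1 1 true true false .pnn 0 1 1 (qsf 0 536870912 536870912 536870912 1) ndB5q0 ndB6q1 pcB1 Cut.none Ext.none)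

def k0_pm_011 : ∃ t, chk3 f_pm_011 t 1 1 1 = true :=
  ⟨(l 3), by decide +kernel⟩

theorem c_pm_011 : CertB 0 536870912 536870912 536870912 536870912 50465866 3 eng mog cd5q0 cd6q1 pd1 true true false .pnn 0 1 1
    ndB5q0 ndB6q1 pcB1 Cut.none Ext.none :=
  certB1 (fam := true) (s1 := true) (s2 := false) (a := 0) (b := 1) (c := 1) (cn := .pnn) (n1 := ndB5q0) (n2 := ndB6q1) (pc := pcB1) (cut := Cut.none) (xt := Ext.none) (P1 := 0) (W1 := 536870912) (P2 := 536870912) (W2 := 536870912) (P3 := 536870912) (W3 := 50465866) (N0 := 3) (En := eng) (mo := mog) (C1 := cd5q0) (C2 := cd6q1) (C3 := pd1)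
    rfl (fun _ => rfl) k0_pm_011

noncomputable def f_pm_012 : ℕ → ℕ → ℕ → ℕ → Bool := onCell 1073741824 536870912 536870912 536870912 536870912 50465866
    (rowB 3 eng mog cd5q0 cd6q1 pd2 2 true true false .pnp 0 1 2 (qsf 0 536870912 536870912 536870912 2) ndB5q0 ndB6q1 pcB2 Cut.none Ext.none)

def k0_pm_012 : ∃ t, chk3 f_pm_012 t 1 1 1 = true :=
  ⟨(a (a (l 3) (b (a (a (a (l 3) (a (l 3) (b (l 2) (a (l 3) (b (l 16708128) (l 16698184)))))) (b (l 2) (l 16716056))) (b (l 2) (l 16763360))) (a (a (a (l 3) (a (l 3) (b (a (l 3) (a (l 16677272) (l 16678136))) (a (l 16635624) (a (l 16635704) (l 16635920)))))) (b (l 16687032) (l 16638360))) (b (l 16727104) (b (l 16676680) (l 16634840)))))) (b (b (l 2) (a (l 16920896) (l 2))) (b (a (l 16887552) (l 17281768)) (a (b (l 16813648) (l 16742304)) (l 17183368))))), by decide +kernel⟩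

theorem c_pm_012 : CertB 0 536870912 536870912 536870912 536870912 50465866 3 eng mog cd5q0 cd6q1 pd2 true true false .pnp 0 1 2
    ndB5q0 ndB6q1 pcB2 Cut.none Ext.none :=
  certB2 (fam := true) (s1 := true) (s2 := false) (a := 0) (b := 1) (c := 2) (cn := .pnp) (n1 := ndB5q0) (n2 := ndB6q1) (pc := pcB2) (cut := Cut.none) (xt := Ext.none) (P1 := 0) (W1 := 536870912) (P2 := 536870912) (W2 := 536870912) (P3 := 536870912) (W3 := 50465866) (N0 := 3) (En := eng) (mo := mog) (C1 := cd5q0) (C2 := cd6q1) (C3 := pd2)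
    rfl (fun _ => rfl) k0_pm_012

noncomputable def f_pm_022 : ℕ → ℕ → ℕ → ℕ → Bool := onCell 0 536870912 1073741824 536870912 536870912 50465866
    (rowB 3 eng mog cd5q0 cd6q2 pd2 1 true true false .pp 0 2 2 (qsf 0 536870912 1073741824 536870912 2) ndB5q0 ndB6q2 pcB2 Cut.none Ext.none)

def k0_pm_022 : ∃ t, chk3 f_pm_022 t 1 1 1 = true :=
  ⟨(a (b (b (l 3) (b (b (b (l 3) (b (a (l 3) (l 3)) (a (b (l 16625448) (b (l 16625608) (l 16625712))) (b (l 5201373268855) (b (l 147136327975) (l 148209850423)))))) (a (l 16668480) (l 141767624455))) (a (a (l 16641192) (l 16618944)) (a (l 16606528) (l 16611976))))) (b (a (b (a (l 16642392) (l 16623600)) (l 16822776)) (b (l 16614512) (l 16621088))) (a (b (l 16778104) (a (l 16618800) (l 16631128))) (b (l 16628104) (l 16638984))))) (b (b (l 1) (b (l 1) (a (l 673806842983) (l 1)))) (b (a (b (l 16688904) (l 16696272)) (l 747358944055)) (a (b (l 16701152) (l 16708696)) (l 17043440))))), by decide +kernel⟩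

theorem c_pm_022 : CertB 0 536870912 1073741824 536870912 536870912 50465866 3 eng mog cd5q0 cd6q2 pd2 true true false .pp 0 2 2
    ndB5q0 ndB6q2 pcB2 Cut.none Ext.none :=
  certB1 (fam := true) (s1 := true) (s2 := false) (a := 0) (b := 2) (c := 2) (cn := .pp) (n1 := ndB5q0) (n2 := ndB6q2) (pc := pcB2) (cut := Cut.none) (xt := Ext.none) (P1 := 0) (W1 := 536870912) (P2 := 1073741824) (W2 := 536870912) (P3 := 536870912) (W3 := 50465866) (N0 := 3) (En := eng) (mo := mog) (C1 := cd5q0) (C2 := cd6q2) (C3 := pd2)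
    rfl (fun _ => rfl) k0_pm_022

noncomputable def f_pm_023 : ℕ → ℕ → ℕ → ℕ → Bool := onCell 1610612736 536870912 1073741824 536870912 536870912 50465866
    (rowB 3 eng mog cd5q0 cd6q2 pd3 2 true true false .up 0 2 3 (qsf 0 536870912 1073741824 536870912 3) ndB5q0 ndB6q2 pcB3 Cut.none Ext.none)

def k0_pm_023 : ∃ t, chk3 f_pm_023 t 1 1 1 = true :=
  ⟨(a (a (b (b (l 17370792) (l 16868968)) (b (a (l 16660664) (l 16714928)) (l 16672512))) (b (b (l 17230344) (l 17151168)) (b (l 16871304) (l 16709520)))) (a (b (l 249209604967) (b (l 16931656) (l 16805968))) (b (l 2) (a (b (l 16802320) (l 16774792)) (a (l 16764080) (b (l 2) (l 4))))))), by decide +kernel⟩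

theorem c_pm_023 : CertB 0 536870912 1073741824 536870912 536870912 50465866 3 eng mog cd5q0 cd6q2 pd3 true true false .up 0 2 3
    ndB5q0 ndB6q2 pcB3 Cut.none Ext.none :=
  certB2 (fam := true) (s1 := true) (s2 := false) (a := 0) (b := 2) (c := 3) (cn := .up) (n1 := ndB5q0) (n2 := ndB6q2) (pc := pcB3) (cut := Cut.none) (xt := Ext.none) (P1 := 0) (W1 := 536870912) (P2 := 1073741824) (W2 := 536870912) (P3 := 536870912) (W3 := 50465866) (N0 := 3) (En := eng) (mo := mog) (C1 := cd5q0) (C2 := cd6q2) (C3 := pd3)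
    rfl (fun _ => rfl) k0_pm_023

noncomputable def f_pm_033 : ℕ → ℕ → ℕ → ℕ → Bool := onCell 1610612736 536870912 0 1230186008 536870912 50465866
    (rowB 3 eng mog cd5q0 cd6q3 pd3 2 true true false .pnn 0 3 3 (qsf 0 536870912 0 1230186008 3) ndB5q0 ndB6q3 pcB3 Cut.none Ext.none)

def k0_pm_033 : ∃ t, chk3 f_pm_033 t 1 1 1 = true :=
  ⟨(a (b (l 1) (b (b (l 1) (a (l 1) (a (l 1) (l 16794296)))) (b (a (l 1) (l 16693920)) (a (a (l 16445104) (l 16510416)) (l 16601072))))) (a (b (l 1) (b (a (l 16839456) (l 16847136)) (b (l 16778296) (l 16900136)))) (b (b (l 4) (l 4)) (b (l 4) (a (b (l 16825168) (l 16773480)) (a (l 16938864) (l 4))))))), by decide +kernel⟩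

theorem c_pm_033 : CertB 0 536870912 0 1230186008 536870912 50465866 3 eng mog cd5q0 cd6q3 pd3 true true false .pnn 0 3 3
    ndB5q0 ndB6q3 pcB3 Cut.none Ext.none :=
  certB2 (fam := true) (s1 := true) (s2 := false) (a := 0) (b := 3) (c := 3) (cn := .pnn) (n1 := ndB5q0) (n2 := ndB6q3) (pc := pcB3) (cut := Cut.none) (xt := Ext.none) (P1 := 0) (W1 := 536870912) (P2 := 0) (W2 := 1230186008) (P3 := 536870912) (W3 := 50465866) (N0 := 3) (En := eng) (mo := mog) (C1 := cd5q0) (C2 := cd6q3) (C3 := pd3)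
    rfl (fun _ => rfl) k0_pm_033

noncomputable def f_pm_101 : ℕ → ℕ → ℕ → ℕ → Bool := onCell 536870912 536870912 536870912 536870912 536870912 50465866
    (rowB 3 eng mog cd5q1 cd6q0 pd1 1 true true false .npn 1 0 1 (qsf 536870912 536870912 0 536870912 1) ndB5q1 ndB6q0 pcB1 Cut.none Ext.none)

def k0_pm_101 : ∃ t, chk3 f_pm_101 t 1 1 1 = true :=
  ⟨(l 3), by decide +kernel⟩

theorem c_pm_101 : CertB 536870912 536870912 0 536870912 536870912 50465866 3 eng mog cd5q1 cd6q0 pd1 true true false .npn 1 0 1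
    ndB5q1 ndB6q0 pcB1 Cut.none Ext.none :=
  certB1 (fam := true) (s1 := true) (s2 := false) (a := 1) (b := 0) (c := 1) (cn := .npn) (n1 := ndB5q1) (n2 := ndB6q0) (pc := pcB1) (cut := Cut.none) (xt := Ext.none) (P1 := 536870912) (W1 := 536870912) (P2 := 0) (W2 := 536870912) (P3 := 536870912) (W3 := 50465866) (N0 := 3) (En := eng) (mo := mog) (C1 := cd5q1) (C2 := cd6q0) (C3 := pd1)
    rfl (fun _ => rfl) k0_pm_101

noncomputable def f_pm_102 : ℕ → ℕ → ℕ → ℕ → Bool := onCell 536870912 536870912 1073741824 536870912 536870912 50465866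
    (rowB 3 eng mog cd5q1 cd6q0 pd2 1 true true false .npp 1 0 2 (qsf 536870912 536870912 0 536870912 2) ndB5q1 ndB6q0 pcB2 Cut.none Ext.none)

def k0_pm_102 : ∃ t, chk3 f_pm_102 t 1 1 1 = true :=
  ⟨(a (b (b (l 3) (b (b (b (l 3) (a (l 2) (b (l 16708320) (b (l 16712496) (a (l 16716024) (l 16714472)))))) (a (l 2) (l 16729728))) (a (l 2) (l 16781056)))) (a (l 2) (b (b (l 16888848) (l 2)) (l 2)))) (b (b (b (l 3) (a (l 3) (b (l 3) (b (l 3) (l 16674184))))) (b (b (b (a (l 16694528) (a (l 16686520) (l 16679648))) (b (a (l 16702592) (l 16692592)) (a (b (l 16707120) (l 16710048)) (b (l 16696360) (l 16699608))))) (a (l 16724360) (l 16712816))) (a (l 16772640) (l 16755872)))) (a (b (b (l 16871480) (l 17027360)) (b (l 17275712) (l 2))) (b (b (l 16838456) (l 16962680)) (b (l 17163464) (l 17471920)))))), by decide +kernel⟩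

theorem c_pm_102 : CertB 536870912 536870912 0 536870912 536870912 50465866 3 eng mog cd5q1 cd6q0 pd2 true true false .npp 1 0 2
    ndB5q1 ndB6q0 pcB2 Cut.none Ext.none :=
  certB1 (fam := true) (s1 := true) (s2 := false) (a := 1) (b := 0) (c := 2) (cn := .npp) (n1 := ndB5q1) (n2 := ndB6q0) (pc := pcB2) (cut := Cut.none) (xt := Ext.none) (P1 := 536870912) (W1 := 536870912) (P2 := 0) (W2 := 536870912) (P3 := 536870912) (W3 := 50465866) (N0 := 3) (En := eng) (mo := mog) (C1 := cd5q1) (C2 := cd6q0) (C3 := pd2)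
    rfl (fun _ => rfl) k0_pm_102

noncomputable def f_pm_112 : ℕ → ℕ → ℕ → ℕ → Bool := onCell 1073741824 536870912 536870912 536870912 536870912 50465866
    (rowB 3 eng mog cd5q1 cd6q1 pd2 2 true true false .dn 1 1 2 (qsf 536870912 536870912 536870912 536870912 2) ndB5q1 ndB6q1 pcB2 Cut.none Ext.none)

def k0_pm_112 : ∃ t, chk3 f_pm_112 t 1 1 1 = true :=
  ⟨(a (a (l 3) (a (b (a (a (l 3) (a (l 3) (a (l 219748443527) (b (l 16715728) (l 16787512))))) (b (l 16729688) (l 16716272))) (l 1)) (b (b (l 16780776) (l 16765584)) (l 479996515831)))) (b (b (a (l 16952152) (l 17359664)) (l 17157272)) (a (l 437583982919) (l 17298432)))), by decide +kernel⟩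

theorem c_pm_112 : CertB 536870912 536870912 536870912 536870912 536870912 50465866 3 eng mog cd5q1 cd6q1 pd2 true true false .dn 1 1 2
    ndB5q1 ndB6q1 pcB2 Cut.none Ext.none :=
  certB2 (fam := true) (s1 := true) (s2 := false) (a := 1) (b := 1) (c := 2) (cn := .dn) (n1 := ndB5q1) (n2 := ndB6q1) (pc := pcB2) (cut := Cut.none) (xt := Ext.none) (P1 := 536870912) (W1 := 536870912) (P2 := 536870912) (W2 := 536870912) (P3 := 536870912) (W3 := 50465866) (N0 := 3) (En := eng) (mo := mog) (C1 := cd5q1) (C2 := cd6q1) (C3 := pd2)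
    rfl (fun _ => rfl) k0_pm_112

noncomputable def f_pm_113 : ℕ → ℕ → ℕ → ℕ → Bool := onCell 1610612736 536870912 536870912 536870912 536870912 50465866
    (rowB 3 eng mog cd5q1 cd6q1 pd3 2 true true false .nn 1 1 3 (qsf 536870912 536870912 536870912 536870912 3) ndB5q1 ndB6q1 pcB3 Cut.none Ext.none)

def k0_pm_113 : ∃ t, chk3 f_pm_113 t 1 1 1 = true :=
  ⟨(b (a (a (l 17808192) (l 17542944)) (a (l 17291184) (l 2))) (a (l 17899728) (a (l 17340064) (a (l 17053088) (a (l 16918160) (a (l 16852576) (l 16810784))))))), by decide +kernel⟩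

theorem c_pm_113 : CertB 536870912 536870912 536870912 536870912 536870912 50465866 3 eng mog cd5q1 cd6q1 pd3 true true false .nn 1 1 3
    ndB5q1 ndB6q1 pcB3 Cut.none Ext.none :=
  certB2 (fam := true) (s1 := true) (s2 := false) (a := 1) (b := 1) (c := 3) (cn := .nn) (n1 := ndB5q1) (n2 := ndB6q1) (pc := pcB3) (cut := Cut.none) (xt := Ext.none) (P1 := 536870912) (W1 := 536870912) (P2 := 536870912) (W2 := 536870912) (P3 := 536870912) (W3 := 50465866) (N0 := 3) (En := eng) (mo := mog) (C1 := cd5q1) (C2 := cd6q1) (C3 := pd3)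
    rfl (fun _ => rfl) k0_pm_113

noncomputable def f_pm_123 : ℕ → ℕ → ℕ → ℕ → Bool := onCell 1610612736 536870912 1073741824 536870912 536870912 50465866
    (rowB 3 eng mog cd5q1 cd6q2 pd3 2 true true false .npn 1 2 3 (qsf 536870912 536870912 1073741824 536870912 3) ndB5q1 ndB6q2 pcB3 Cut.none Ext.none)

def k0_pm_123 : ∃ t, chk3 f_pm_123 t 1 1 1 = true :=
  ⟨(a (a (b (b (l 17375752) (l 16879104)) (l 1)) (b (l 17296896) (b (l 16878784) (l 1)))) (a (b (b (l 17234560) (l 17086056)) (b (l 16934760) (l 16815744))) (b (a (l 16983264) (a (l 16877320) (a (l 16820784) (b (l 16796184) (l 16779072))))) (a (l 16867264) (a (l 16773480) (a (l 16783720) (l 100093351943))))))), by decide +kernel⟩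

theorem c_pm_123 : CertB 536870912 536870912 1073741824 536870912 536870912 50465866 3 eng mog cd5q1 cd6q2 pd3 true true false .npn 1 2 3
    ndB5q1 ndB6q2 pcB3 Cut.none Ext.none :=
  certB2 (fam := true) (s1 := true) (s2 := false) (a := 1) (b := 2) (c := 3) (cn := .npn) (n1 := ndB5q1) (n2 := ndB6q2) (pc := pcB3) (cut := Cut.none) (xt := Ext.none) (P1 := 536870912) (W1 := 536870912) (P2 := 1073741824) (W2 := 536870912) (P3 := 536870912) (W3 := 50465866) (N0 := 3) (En := eng) (mo := mog) (C1 := cd5q1) (C2 := cd6q2) (C3 := pd3)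
    rfl (fun _ => rfl) k0_pm_123

noncomputable def f_pm_133 : ℕ → ℕ → ℕ → ℕ → Bool := onCell 536870912 536870912 0 1230186008 536870912 50465866
    (rowB 3 eng mog cd5q1 cd6q3 pd3 0 true true false .dn 1 3 3 (qsf 536870912 536870912 0 1230186008 3) ndB5q1 ndB6q3 pcB3 Cut.none Ext.none)

def k0_pm_133 : ∃ t, chk3 f_pm_133 t 1 1 1 = true :=
  ⟨(b (l 2) (b (l 2) (l 4))), by decide +kernel⟩

theorem c_pm_133 : CertB 536870912 536870912 0 1230186008 536870912 50465866 3 eng mog cd5q1 cd6q3 pd3 true true false .dn 1 3 3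
    ndB5q1 ndB6q3 pcB3 Cut.none Ext.none :=
  certB0 (fam := true) (s1 := true) (s2 := false) (a := 1) (b := 3) (c := 3) (cn := .dn) (n1 := ndB5q1) (n2 := ndB6q3) (pc := pcB3) (cut := Cut.none) (xt := Ext.none) (P1 := 536870912) (W1 := 536870912) (P2 := 0) (W2 := 1230186008) (P3 := 536870912) (W3 := 50465866) (N0 := 3) (En := eng) (mo := mog) (C1 := cd5q1) (C2 := cd6q3) (C3 := pd3)
    rfl k0_pm_133

noncomputable def f_pm_202 : ℕ → ℕ → ℕ → ℕ → Bool := onCell 1073741824 536870912 1073741824 536870912 536870912 50465866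
    (rowB 3 eng mog cd5q2 cd6q0 pd2 1 true true false .pp 2 0 2 (qsf 1073741824 536870912 0 536870912 2) ndB5q2 ndB6q0 pcB2 Cut.none Ext.none)

def k0_pm_202 : ∃ t, chk3 f_pm_202 t 1 1 1 = true :=
  ⟨(a (b (b (a (b (a (b (a (a (a (b (l 16616160) (l 16631416)) (l 354367864599)) (l 333429985767)) (a (l 357052344535) (l 1))) (a (b (l 16632320) (l 16644472)) (l 16593256))) (b (l 1) (a (l 16545792) (l 1)))) (a (b (a (l 16667904) (l 16633592)) (l 16675568)) (b (l 16557792) (l 16625728)))) (b (l 1) (a (a (l 16715720) (l 1)) (l 1)))) (a (b (b (a (l 16705880) (l 16645832)) (l 16695000)) (l 16740208)) (b (b (a (b (l 16612408) (l 16625112)) (l 1)) (a (l 16637296) (l 16609136))) (a (l 16661416) (l 16644912))))) (b (a (b (l 16806848) (l 16890720)) (b (l 16685480) (l 16724072))) (b (a (l 17014112) (l 16775920)) (a (l 17185160) (l 16845576))))) (b (b (l 1) (a (b (l 1) (a (l 16618616) (l 1))) (l 1))) (b (a (b (l 16654240) (l 16690608)) (b (l 1) (l 16654032))) (b (a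 (l 16714696) (l 16697264)) (a (l 16741520) (l 16722896)))))), by decide +kernel⟩

theorem c_pm_202 : CertB 1073741824 536870912 0 536870912 536870912 50465866 3 eng mog cd5q2 cd6q0 pd2 true true false .pp 2 0 2
    ndB5q2 ndB6q0 pcB2 Cut.none Ext.none :=
  certB1 (fam := true) (s1 := true) (s2 := false) (a := 2) (b := 0) (c := 2) (cn := .pp) (n1 := ndB5q2) (n2 := ndB6q0) (pc := pcB2) (cut := Cut.none) (xt := Ext.none) (P1 := 1073741824) (W1 := 536870912) (P2 := 0) (W2 := 536870912) (P3 := 536870912) (W3 := 50465866) (N0 := 3) (En := eng) (mo := mog) (C1 := cd5q2) (C2 := cd6q0) (C3 := pd2)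
    rfl (fun _ => rfl) k0_pm_202

noncomputable def f_pm_203 : ℕ → ℕ → ℕ → ℕ → Bool := onCell 1610612736 536870912 0 536870912 536870912 50465866
    (rowB 3 eng mog cd5q2 cd6q0 pd3 2 true true false .up 2 0 3 (qsf 1073741824 536870912 0 536870912 3) ndB5q2 ndB6q0 pcB3 Cut.none Ext.none)

def k0_pm_203 : ∃ t, chk3 f_pm_203 t 1 1 1 = true :=
  ⟨(b (a (a (a (b (l 16739768) (l 16760480)) (l 16750240)) (a (l 16758512) (l 16764584))) (a (l 16796184) (l 2))) (b (a (a (a (l 16878648) (l 16859072)) (l 16825224)) (a (l 16733064) (l 4))) (a (a (a (l 17243896) (l 17158880)) (l 17256936)) (a (l 16830496) (l 4))))), by decide +kernel⟩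

theorem c_pm_203 : CertB 1073741824 536870912 0 536870912 536870912 50465866 3 eng mog cd5q2 cd6q0 pd3 true true false .up 2 0 3
    ndB5q2 ndB6q0 pcB3 Cut.none Ext.none :=
  certB2 (fam := true) (s1 := true) (s2 := false) (a := 2) (b := 0) (c := 3) (cn := .up) (n1 := ndB5q2) (n2 := ndB6q0) (pc := pcB3) (cut := Cut.none) (xt := Ext.none) (P1 := 1073741824) (W1 := 536870912) (P2 := 0) (W2 := 536870912) (P3 := 536870912) (W3 := 50465866) (N0 := 3) (En := eng) (mo := mog) (C1 := cd5q2) (C2 := cd6q0) (C3 := pd3)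
    rfl (fun _ => rfl) k0_pm_203

noncomputable def f_pm_213 : ℕ → ℕ → ℕ → ℕ → Bool := onCell 1610612736 536870912 536870912 536870912 536870912 50465866
    (rowB 3 eng mog cd5q2 cd6q1 pd3 2 true true false .pnn 2 1 3 (qsf 1073741824 536870912 536870912 536870912 3) ndB5q2 ndB6q1 pcB3 Cut.none Ext.none)

def k0_pm_213 : ∃ t, chk3 f_pm_213 t 1 1 1 = true :=
  ⟨(a (a (b (a (b (l 17888216) (l 1)) (l 252902087623)) (l 1)) (b (b (l 17449304) (l 17448944)) (l 655017959415))) (a (b (b (l 17065640) (l 17325544)) (b (l 17144456) (l 17206576))) (a (b (l 16752968) (l 17137560)) (b (l 4) (a (l 16798008) (a (l 16729424) (l 4))))))), by decide +kernel⟩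

theorem c_pm_213 : CertB 1073741824 536870912 536870912 536870912 536870912 50465866 3 eng mog cd5q2 cd6q1 pd3 true true false .pnn 2 1 3
    ndB5q2 ndB6q1 pcB3 Cut.none Ext.none :=
  certB2 (fam := true) (s1 := true) (s2 := false) (a := 2) (b := 1) (c := 3) (cn := .pnn) (n1 := ndB5q2) (n2 := ndB6q1) (pc := pcB3) (cut := Cut.none) (xt := Ext.none) (P1 := 1073741824) (W1 := 536870912) (P2 := 536870912) (W2 := 536870912) (P3 := 536870912) (W3 := 50465866) (N0 := 3) (En := eng) (mo := mog) (C1 := cd5q2) (C2 := cd6q1) (C3 := pd3)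
    rfl (fun _ => rfl) k0_pm_213

noncomputable def f_pm_303 : ℕ → ℕ → ℕ → ℕ → Bool := onCell 0 1230186008 1610612736 536870912 536870912 50465866
    (rowB 3 eng mog cd5q3 cd6q0 pd3 1 true true false .npn 3 0 3 (qsf 0 1230186008 0 536870912 3) ndB5q3 ndB6q0 pcB3 Cut.none Ext.none)

def k0_pm_303 : ∃ t, chk3 f_pm_303 t 1 1 1 = true :=
  ⟨(a (l 4) (a (b (b (l 1) (l 4)) (l 4)) (b (b (a (l 1) (b (l 16733528) (l 16746560))) (b (l 16736416) (l 16751056))) (b (a (l 4) (l 16765880)) (l 4))))), by decide +kernel⟩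

theorem c_pm_303 : CertB 0 1230186008 0 536870912 536870912 50465866 3 eng mog cd5q3 cd6q0 pd3 true true false .npn 3 0 3
    ndB5q3 ndB6q0 pcB3 Cut.none Ext.none :=
  certB1 (fam := true) (s1 := true) (s2 := false) (a := 3) (b := 0) (c := 3) (cn := .npn) (n1 := ndB5q3) (n2 := ndB6q0) (pc := pcB3) (cut := Cut.none) (xt := Ext.none) (P1 := 0) (W1 := 1230186008) (P2 := 0) (W2 := 536870912) (P3 := 536870912) (W3 := 50465866) (N0 := 3) (En := eng) (mo := mog) (C1 := cd5q3) (C2 := cd6q0) (C3 := pd3)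
    rfl (fun _ => rfl) k0_pm_303

noncomputable def f_pm_313 : ℕ → ℕ → ℕ → ℕ → Bool := onCell 0 1230186008 536870912 536870912 536870912 50465866
    (rowB 3 eng mog cd5q3 cd6q1 pd3 0 true true false .dn 3 1 3 (qsf 0 1230186008 536870912 536870912 3) ndB5q3 ndB6q1 pcB3 Cut.none Ext.none)

def k0_pm_313 : ∃ t, chk3 f_pm_313 t 1 1 1 = true :=
  ⟨(a (l 2) (l 4)), by decide +kernel⟩

theorem c_pm_313 : CertB 0 1230186008 536870912 536870912 536870912 50465866 3 eng mog cd5q3 cd6q1 pd3 true true false .dn 3 1 3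
    ndB5q3 ndB6q1 pcB3 Cut.none Ext.none :=
  certB0 (fam := true) (s1 := true) (s2 := false) (a := 3) (b := 1) (c := 3) (cn := .dn) (n1 := ndB5q3) (n2 := ndB6q1) (pc := pcB3) (cut := Cut.none) (xt := Ext.none) (P1 := 0) (W1 := 1230186008) (P2 := 536870912) (W2 := 536870912) (P3 := 536870912) (W3 := 50465866) (N0 := 3) (En := eng) (mo := mog) (C1 := cd5q3) (C2 := cd6q1) (C3 := pd3)
    rfl k0_pm_313

noncomputable def f_mm_001 : ℕ → ℕ → ℕ → ℕ → Bool := onCell 0 536870912 0 536870912 536870912 50465866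
    (rowB 3 eng mog cd5q0 cd6q0 pd1 0 true false false .up 0 0 1 (qsf 0 536870912 0 536870912 1) ndB5q0 ndB6q0 pcB1 Cut.none Ext.none)

def k0_mm_001 : ∃ t, chk3 f_mm_001 t 1 1 1 = true :=
  ⟨(l 4), by decide +kernel⟩

theorem c_mm_001 : CertB 0 536870912 0 536870912 536870912 50465866 3 eng mog cd5q0 cd6q0 pd1 true false false .up 0 0 1
    ndB5q0 ndB6q0 pcB1 Cut.none Ext.none :=
  certB0 (fam := true) (s1 := false) (s2 := false) (a := 0) (b := 0) (c := 1) (cn := .up) (n1 := ndB5q0) (n2 := ndB6q0) (pc := pcB1) (cut := Cut.none) (xt := Ext.none) (P1 := 0) (W1 := 536870912) (P2 := 0) (W2 := 536870912) (P3 := 536870912) (W3 := 50465866) (N0 := 3) (En := eng) (mo := mog) (C1 := cd5q0) (C2 := cd6q0) (C3 := pd1)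
    rfl k0_mm_001

noncomputable def f_mm_011 : ℕ → ℕ → ℕ → ℕ → Bool := onCell 0 536870912 536870912 536870912 536870912 50465866
    (rowB 3 eng mog cd5q0 cd6q1 pd1 0 true false false .pnn 0 1 1 (qsf 0 536870912 536870912 536870912 1) ndB5q0 ndB6q1 pcB1 Cut.none Ext.none)

def k0_mm_011 : ∃ t, chk3 f_mm_011 t 1 1 1 = true :=
  ⟨(l 4), by decide +kernel⟩

theorem c_mm_011 : CertB 0 536870912 536870912 536870912 536870912 50465866 3 eng mog cd5q0 cd6q1 pd1 true false false .pnn 0 1 1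
    ndB5q0 ndB6q1 pcB1 Cut.none Ext.none :=
  certB0 (fam := true) (s1 := false) (s2 := false) (a := 0) (b := 1) (c := 1) (cn := .pnn) (n1 := ndB5q0) (n2 := ndB6q1) (pc := pcB1) (cut := Cut.none) (xt := Ext.none) (P1 := 0) (W1 := 536870912) (P2 := 536870912) (W2 := 536870912) (P3 := 536870912) (W3 := 50465866) (N0 := 3) (En := eng) (mo := mog) (C1 := cd5q0) (C2 := cd6q1) (C3 := pd1)
    rfl k0_mm_011

noncomputable def f_mm_012 : ℕ → ℕ → ℕ → ℕ → Bool := onCell 0 536870912 536870912 536870912 536870912 50465866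
    (rowB 3 eng mog cd5q0 cd6q1 pd2 0 true false false .pnp 0 1 2 (qsf 0 536870912 536870912 536870912 2) ndB5q0 ndB6q1 pcB2 Cut.none Ext.none)

def k0_mm_012 : ∃ t, chk3 f_mm_012 t 1 1 1 = true :=
  ⟨(l 4), by decide +kernel⟩

theorem c_mm_012 : CertB 0 536870912 536870912 536870912 536870912 50465866 3 eng mog cd5q0 cd6q1 pd2 true false false .pnp 0 1 2
    ndB5q0 ndB6q1 pcB2 Cut.none Ext.none :=
  certB0 (fam := true) (s1 := false) (s2 := false) (a := 0) (b := 1) (c := 2) (cn := .pnp) (n1 := ndB5q0) (n2 := ndB6q1) (pc := pcB2) (cut := Cut.none) (xt := Ext.none) (P1 := 0) (W1 := 536870912) (P2 := 536870912) (W2 := 536870912) (P3 := 536870912) (W3 := 50465866) (N0 := 3) (En := eng) (mo := mog) (C1 := cd5q0) (C2 := cd6q1) (C3 := pd2)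
    rfl k0_mm_012

noncomputable def f_mm_022 : ℕ → ℕ → ℕ → ℕ → Bool := onCell 0 536870912 1073741824 536870912 536870912 50465866
    (rowB 3 eng mog cd5q0 cd6q2 pd2 0 true false false .pp 0 2 2 (qsf 0 536870912 1073741824 536870912 2) ndB5q0 ndB6q2 pcB2 Cut.none Ext.none)

def k0_mm_022 : ∃ t, chk3 f_mm_022 t 1 1 1 = true :=
  ⟨(l 4), by decide +kernel⟩

theorem c_mm_022 : CertB 0 536870912 1073741824 536870912 536870912 50465866 3 eng mog cd5q0 cd6q2 pd2 true false false .pp 0 2 2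
    ndB5q0 ndB6q2 pcB2 Cut.none Ext.none :=
  certB0 (fam := true) (s1 := false) (s2 := false) (a := 0) (b := 2) (c := 2) (cn := .pp) (n1 := ndB5q0) (n2 := ndB6q2) (pc := pcB2) (cut := Cut.none) (xt := Ext.none) (P1 := 0) (W1 := 536870912) (P2 := 1073741824) (W2 := 536870912) (P3 := 536870912) (W3 := 50465866) (N0 := 3) (En := eng) (mo := mog) (C1 := cd5q0) (C2 := cd6q2) (C3 := pd2)
    rfl k0_mm_022

noncomputable def f_mm_023 : ℕ → ℕ → ℕ → ℕ → Bool := onCell 0 536870912 1073741824 536870912 536870912 50465866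
    (rowB 3 eng mog cd5q0 cd6q2 pd3 0 true false false .up 0 2 3 (qsf 0 536870912 1073741824 536870912 3) ndB5q0 ndB6q2 pcB3 Cut.none Ext.none)

def k0_mm_023 : ∃ t, chk3 f_mm_023 t 1 1 1 = true :=
  ⟨(l 4), by decide +kernel⟩

theorem c_mm_023 : CertB 0 536870912 1073741824 536870912 536870912 50465866 3 eng mog cd5q0 cd6q2 pd3 true false false .up 0 2 3
    ndB5q0 ndB6q2 pcB3 Cut.none Ext.none :=
  certB0 (fam := true) (s1 := false) (s2 := false) (a := 0) (b := 2) (c := 3) (cn := .up) (n1 := ndB5q0) (n2 := ndB6q2) (pc := pcB3) (cut := Cut.none) (xt := Ext.none) (P1 := 0) (W1 := 536870912) (P2 := 1073741824) (W2 := 536870912) (P3 := 536870912) (W3 := 50465866) (N0 := 3) (En := eng) (mo := mog) (C1 := cd5q0) (C2 := cd6q2) (C3 := pd3)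
    rfl k0_mm_023

noncomputable def f_mm_033 : ℕ → ℕ → ℕ → ℕ → Bool := onCell 0 536870912 0 1230186008 536870912 50465866
    (rowB 3 eng mog cd5q0 cd6q3 pd3 0 true false false .pnn 0 3 3 (qsf 0 536870912 0 1230186008 3) ndB5q0 ndB6q3 pcB3 Cut.none Ext.none)

def k0_mm_033 : ∃ t, chk3 f_mm_033 t 1 1 1 = true :=
  ⟨(l 4), by decide +kernel⟩

theorem c_mm_033 : CertB 0 536870912 0 1230186008 536870912 50465866 3 eng mog cd5q0 cd6q3 pd3 true false false .pnn 0 3 3
    ndB5q0 ndB6q3 pcB3 Cut.none Ext.none :=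
  certB0 (fam := true) (s1 := false) (s2 := false) (a := 0) (b := 3) (c := 3) (cn := .pnn) (n1 := ndB5q0) (n2 := ndB6q3) (pc := pcB3) (cut := Cut.none) (xt := Ext.none) (P1 := 0) (W1 := 536870912) (P2 := 0) (W2 := 1230186008) (P3 := 536870912) (W3 := 50465866) (N0 := 3) (En := eng) (mo := mog) (C1 := cd5q0) (C2 := cd6q3) (C3 := pd3)
    rfl k0_mm_033

noncomputable def f_mm_101 : ℕ → ℕ → ℕ → ℕ → Bool := onCell 536870912 536870912 0 536870912 536870912 50465866
    (rowB 3 eng mog cd5q1 cd6q0 pd1 0 true false false .npn 1 0 1 (qsf 536870912 536870912 0 536870912 1) ndB5q1 ndB6q0 pcB1 Cut.none Ext.none)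

def k0_mm_101 : ∃ t, chk3 f_mm_101 t 1 1 1 = true :=
  ⟨(l 4), by decide +kernel⟩

theorem c_mm_101 : CertB 536870912 536870912 0 536870912 536870912 50465866 3 eng mog cd5q1 cd6q0 pd1 true false false .npn 1 0 1
    ndB5q1 ndB6q0 pcB1 Cut.none Ext.none :=
  certB0 (fam := true) (s1 := false) (s2 := false) (a := 1) (b := 0) (c := 1) (cn := .npn) (n1 := ndB5q1) (n2 := ndB6q0) (pc := pcB1) (cut := Cut.none) (xt := Ext.none) (P1 := 536870912) (W1 := 536870912) (P2 := 0) (W2 := 536870912) (P3 := 536870912) (W3 := 50465866) (N0 := 3) (En := eng) (mo := mog) (C1 := cd5q1) (C2 := cd6q0) (C3 := pd1)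
    rfl k0_mm_101

noncomputable def f_mm_102 : ℕ → ℕ → ℕ → ℕ → Bool := onCell 536870912 536870912 0 536870912 536870912 50465866
    (rowB 3 eng mog cd5q1 cd6q0 pd2 0 true false false .npp 1 0 2 (qsf 536870912 536870912 0 536870912 2) ndB5q1 ndB6q0 pcB2 Cut.none Ext.none)

def k0_mm_102 : ∃ t, chk3 f_mm_102 t 1 1 1 = true :=
  ⟨(l 4), by decide +kernel⟩

theorem c_mm_102 : CertB 536870912 536870912 0 536870912 536870912 50465866 3 eng mog cd5q1 cd6q0 pd2 true false false .npp 1 0 2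
    ndB5q1 ndB6q0 pcB2 Cut.none Ext.none :=
  certB0 (fam := true) (s1 := false) (s2 := false) (a := 1) (b := 0) (c := 2) (cn := .npp) (n1 := ndB5q1) (n2 := ndB6q0) (pc := pcB2) (cut := Cut.none) (xt := Ext.none) (P1 := 536870912) (W1 := 536870912) (P2 := 0) (W2 := 536870912) (P3 := 536870912) (W3 := 50465866) (N0 := 3) (En := eng) (mo := mog) (C1 := cd5q1) (C2 := cd6q0) (C3 := pd2)
    rfl k0_mm_102

noncomputable def f_mm_112 : ℕ → ℕ → ℕ → ℕ → Bool := onCell 536870912 536870912 536870912 536870912 536870912 50465866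
    (rowB 3 eng mog cd5q1 cd6q1 pd2 0 true false false .dn 1 1 2 (qsf 536870912 536870912 536870912 536870912 2) ndB5q1 ndB6q1 pcB2 Cut.none Ext.none)

def k0_mm_112 : ∃ t, chk3 f_mm_112 t 1 1 1 = true :=
  ⟨(l 4), by decide +kernel⟩

theorem c_mm_112 : CertB 536870912 536870912 536870912 536870912 536870912 50465866 3 eng mog cd5q1 cd6q1 pd2 true false false .dn 1 1 2
    ndB5q1 ndB6q1 pcB2 Cut.none Ext.none :=
  certB0 (fam := true) (s1 := false) (s2 := false) (a := 1) (b := 1) (c := 2) (cn := .dn) (n1 := ndB5q1) (n2 := ndB6q1) (pc := pcB2) (cut := Cut.none) (xt := Ext.none) (P1 := 536870912) (W1 := 536870912) (P2 := 536870912) (W2 := 536870912) (P3 := 536870912) (W3 := 50465866) (N0 := 3) (En := eng) (mo := mog) (C1 := cd5q1) (C2 := cd6q1) (C3 := pd2)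
    rfl k0_mm_112

noncomputable def f_mm_113 : ℕ → ℕ → ℕ → ℕ → Bool := onCell 536870912 536870912 536870912 536870912 536870912 50465866
    (rowB 3 eng mog cd5q1 cd6q1 pd3 0 true false false .nn 1 1 3 (qsf 536870912 536870912 536870912 536870912 3) ndB5q1 ndB6q1 pcB3 Cut.none Ext.none)

def k0_mm_113 : ∃ t, chk3 f_mm_113 t 1 1 1 = true :=
  ⟨(l 4), by decide +kernel⟩

theorem c_mm_113 : CertB 536870912 536870912 536870912 536870912 536870912 50465866 3 eng mog cd5q1 cd6q1 pd3 true false false .nn 1 1 3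
    ndB5q1 ndB6q1 pcB3 Cut.none Ext.none :=
  certB0 (fam := true) (s1 := false) (s2 := false) (a := 1) (b := 1) (c := 3) (cn := .nn) (n1 := ndB5q1) (n2 := ndB6q1) (pc := pcB3) (cut := Cut.none) (xt := Ext.none) (P1 := 536870912) (W1 := 536870912) (P2 := 536870912) (W2 := 536870912) (P3 := 536870912) (W3 := 50465866) (N0 := 3) (En := eng) (mo := mog) (C1 := cd5q1) (C2 := cd6q1) (C3 := pd3)
    rfl k0_mm_113

noncomputable def f_mm_123 : ℕ → ℕ → ℕ → ℕ → Bool := onCell 536870912 536870912 1073741824 536870912 536870912 50465866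
    (rowB 3 eng mog cd5q1 cd6q2 pd3 0 true false false .npn 1 2 3 (qsf 536870912 536870912 1073741824 536870912 3) ndB5q1 ndB6q2 pcB3 Cut.none Ext.none)

def k0_mm_123 : ∃ t, chk3 f_mm_123 t 1 1 1 = true :=
  ⟨(l 4), by decide +kernel⟩

theorem c_mm_123 : CertB 536870912 536870912 1073741824 536870912 536870912 50465866 3 eng mog cd5q1 cd6q2 pd3 true false false .npn 1 2 3
    ndB5q1 ndB6q2 pcB3 Cut.none Ext.none :=
  certB0 (fam := true) (s1 := false) (s2 := false) (a := 1) (b := 2) (c := 3) (cn := .npn) (n1 := ndB5q1) (n2 := ndB6q2) (pc := pcB3) (cut := Cut.none) (xt := Ext.none) (P1 := 536870912) (W1 := 536870912) (P2 := 1073741824) (W2 := 536870912) (P3 := 536870912) (W3 := 50465866) (N0 := 3) (En := eng) (mo := mog) (C1 := cd5q1) (C2 := cd6q2) (C3 := pd3)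
    rfl k0_mm_123

noncomputable def f_mm_133 : ℕ → ℕ → ℕ → ℕ → Bool := onCell 536870912 536870912 0 1230186008 536870912 50465866
    (rowB 3 eng mog cd5q1 cd6q3 pd3 0 true false false .dn 1 3 3 (qsf 536870912 536870912 0 1230186008 3) ndB5q1 ndB6q3 pcB3 Cut.none Ext.none)

def k0_mm_133 : ∃ t, chk3 f_mm_133 t 1 1 1 = true :=
  ⟨(l 4), by decide +kernel⟩

theorem c_mm_133 : CertB 536870912 536870912 0 1230186008 536870912 50465866 3 eng mog cd5q1 cd6q3 pd3 true false false .dn 1 3 3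
    ndB5q1 ndB6q3 pcB3 Cut.none Ext.none :=
  certB0 (fam := true) (s1 := false) (s2 := false) (a := 1) (b := 3) (c := 3) (cn := .dn) (n1 := ndB5q1) (n2 := ndB6q3) (pc := pcB3) (cut := Cut.none) (xt := Ext.none) (P1 := 536870912) (W1 := 536870912) (P2 := 0) (W2 := 1230186008) (P3 := 536870912) (W3 := 50465866) (N0 := 3) (En := eng) (mo := mog) (C1 := cd5q1) (C2 := cd6q3) (C3 := pd3)
    rfl k0_mm_133

noncomputable def f_mm_202 : ℕ → ℕ → ℕ → ℕ → Bool := onCell 1073741824 536870912 0 536870912 536870912 50465866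
    (rowB 3 eng mog cd5q2 cd6q0 pd2 0 true false false .pp 2 0 2 (qsf 1073741824 536870912 0 536870912 2) ndB5q2 ndB6q0 pcB2 Cut.none Ext.none)

def k0_mm_202 : ∃ t, chk3 f_mm_202 t 1 1 1 = true :=
  ⟨(l 4), by decide +kernel⟩

theorem c_mm_202 : CertB 1073741824 536870912 0 536870912 536870912 50465866 3 eng mog cd5q2 cd6q0 pd2 true false false .pp 2 0 2
    ndB5q2 ndB6q0 pcB2 Cut.none Ext.none :=
  certB0 (fam := true) (s1 := false) (s2 := false) (a := 2) (b := 0) (c := 2) (cn := .pp) (n1 := ndB5q2) (n2 := ndB6q0) (pc := pcB2) (cut := Cut.none) (xt := Ext.none) (P1 := 1073741824) (W1 := 536870912) (P2 := 0) (W2 := 536870912) (P3 := 536870912) (W3 := 50465866) (N0 := 3) (En := eng) (mo := mog) (C1 := cd5q2) (C2 := cd6q0) (C3 := pd2)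
    rfl k0_mm_202

noncomputable def f_mm_203 : ℕ → ℕ → ℕ → ℕ → Bool := onCell 1073741824 536870912 0 536870912 536870912 50465866
    (rowB 3 eng mog cd5q2 cd6q0 pd3 0 true false false .up 2 0 3 (qsf 1073741824 536870912 0 536870912 3) ndB5q2 ndB6q0 pcB3 Cut.none Ext.none)

def k0_mm_203 : ∃ t, chk3 f_mm_203 t 1 1 1 = true :=
  ⟨(l 4), by decide +kernel⟩

theorem c_mm_203 : CertB 1073741824 536870912 0 536870912 536870912 50465866 3 eng mog cd5q2 cd6q0 pd3 true false false .up 2 0 3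
    ndB5q2 ndB6q0 pcB3 Cut.none Ext.none :=
  certB0 (fam := true) (s1 := false) (s2 := false) (a := 2) (b := 0) (c := 3) (cn := .up) (n1 := ndB5q2) (n2 := ndB6q0) (pc := pcB3) (cut := Cut.none) (xt := Ext.none) (P1 := 1073741824) (W1 := 536870912) (P2 := 0) (W2 := 536870912) (P3 := 536870912) (W3 := 50465866) (N0 := 3) (En := eng) (mo := mog) (C1 := cd5q2) (C2 := cd6q0) (C3 := pd3)
    rfl k0_mm_203

noncomputable def f_mm_213 : ℕ → ℕ → ℕ → ℕ → Bool := onCell 1073741824 536870912 536870912 536870912 536870912 50465866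
    (rowB 3 eng mog cd5q2 cd6q1 pd3 0 true false false .pnn 2 1 3 (qsf 1073741824 536870912 536870912 536870912 3) ndB5q2 ndB6q1 pcB3 Cut.none Ext.none)

def k0_mm_213 : ∃ t, chk3 f_mm_213 t 1 1 1 = true :=
  ⟨(l 4), by decide +kernel⟩

theorem c_mm_213 : CertB 1073741824 536870912 536870912 536870912 536870912 50465866 3 eng mog cd5q2 cd6q1 pd3 true false false .pnn 2 1 3
    ndB5q2 ndB6q1 pcB3 Cut.none Ext.none :=
  certB0 (fam := true) (s1 := false) (s2 := false) (a := 2) (b := 1) (c := 3) (cn := .pnn) (n1 := ndB5q2) (n2 := ndB6q1) (pc := pcB3) (cut := Cut.none) (xt := Ext.none) (P1 := 1073741824) (W1 := 536870912) (P2 := 536870912) (W2 := 536870912) (P3 := 536870912) (W3 := 50465866) (N0 := 3) (En := eng) (mo := mog) (C1 := cd5q2) (C2 := cd6q1) (C3 := pd3)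
    rfl k0_mm_213

noncomputable def f_mm_303 : ℕ → ℕ → ℕ → ℕ → Bool := onCell 0 1230186008 0 536870912 536870912 50465866
    (rowB 3 eng mog cd5q3 cd6q0 pd3 0 true false false .npn 3 0 3 (qsf 0 1230186008 0 536870912 3) ndB5q3 ndB6q0 pcB3 Cut.none Ext.none)

def k0_mm_303 : ∃ t, chk3 f_mm_303 t 1 1 1 = true :=
  ⟨(l 4), by decide +kernel⟩

theorem c_mm_303 : CertB 0 1230186008 0 536870912 536870912 50465866 3 eng mog cd5q3 cd6q0 pd3 true false false .npn 3 0 3
    ndB5q3 ndB6q0 pcB3 Cut.none Ext.none :=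
  certB0 (fam := true) (s1 := false) (s2 := false) (a := 3) (b := 0) (c := 3) (cn := .npn) (n1 := ndB5q3) (n2 := ndB6q0) (pc := pcB3) (cut := Cut.none) (xt := Ext.none) (P1 := 0) (W1 := 1230186008) (P2 := 0) (W2 := 536870912) (P3 := 536870912) (W3 := 50465866) (N0 := 3) (En := eng) (mo := mog) (C1 := cd5q3) (C2 := cd6q0) (C3 := pd3)
    rfl k0_mm_303

noncomputable def f_mm_313 : ℕ → ℕ → ℕ → ℕ → Bool := onCell 0 1230186008 536870912 536870912 536870912 50465866
    (rowB 3 eng mog cd5q3 cd6q1 pd3 0 true false false .dn 3 1 3 (qsf 0 1230186008 536870912 536870912 3) ndB5q3 ndB6q1 pcB3 Cut.none Ext.none)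

def k0_mm_313 : ∃ t, chk3 f_mm_313 t 1 1 1 = true :=
  ⟨(l 4), by decide +kernel⟩

theorem c_mm_313 : CertB 0 1230186008 536870912 536870912 536870912 50465866 3 eng mog cd5q3 cd6q1 pd3 true false false .dn 3 1 3
    ndB5q3 ndB6q1 pcB3 Cut.none Ext.none :=
  certB0 (fam := true) (s1 := false) (s2 := false) (a := 3) (b := 1) (c := 3) (cn := .dn) (n1 := ndB5q3) (n2 := ndB6q1) (pc := pcB3) (cut := Cut.none) (xt := Ext.none) (P1 := 0) (W1 := 1230186008) (P2 := 536870912) (W2 := 536870912) (P3 := 536870912) (W3 := 50465866) (N0 := 3) (En := eng) (mo := mog) (C1 := cd5q3) (C2 := cd6q1) (C3 := pd3)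
    rfl k0_mm_313

end Pool.Agent.Strip051.G.I5000_5470.Tab.C.BA56

namespace Pool.Agent.Strip051.G.I5000_5470.Tab.C.BA66

open Pool.Agent.Strip051.PB Pool.Agent.Strip051.PB.T
open Pool.Agent.Strip051.G.I5000_5470.Tab

noncomputable def f_pp_001 : ℕ → ℕ → ℕ → ℕ → Bool := onCell 0 536870912 0 536870912 536870912 50465866
    (rowB 3 eng mog cd6q0 cd6q0 pd1 0 true true true .up 0 0 1 (qsf 0 536870912 0 536870912 1) ndB6q0 ndB6q0 pcB1 Cut.none Ext.none)

def k0_pp_001 : ∃ t, chk3 f_pp_001 t 1 1 1 = true :=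
  ⟨(l 4), by decide +kernel⟩

theorem c_pp_001 : CertB 0 536870912 0 536870912 536870912 50465866 3 eng mog cd6q0 cd6q0 pd1 true true true .up 0 0 1
    ndB6q0 ndB6q0 pcB1 Cut.none Ext.none :=
  certB0 (fam := true) (s1 := true) (s2 := true) (a := 0) (b := 0) (c := 1) (cn := .up) (n1 := ndB6q0) (n2 := ndB6q0) (pc := pcB1) (cut := Cut.none) (xt := Ext.none) (P1 := 0) (W1 := 536870912) (P2 := 0) (W2 := 536870912) (P3 := 536870912) (W3 := 50465866) (N0 := 3) (En := eng) (mo := mog) (C1 := cd6q0) (C2 := cd6q0) (C3 := pd1)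
    rfl k0_pp_001

noncomputable def f_pp_011 : ℕ → ℕ → ℕ → ℕ → Bool := onCell 0 536870912 536870912 536870912 536870912 50465866
    (rowB 3 eng mog cd6q0 cd6q1 pd1 0 true true true .pnn 0 1 1 (qsf 0 536870912 536870912 536870912 1) ndB6q0 ndB6q1 pcB1 Cut.none Ext.none)

def k0_pp_011 : ∃ t, chk3 f_pp_011 t 1 1 1 = true :=
  ⟨(l 4), by decide +kernel⟩

theorem c_pp_011 : CertB 0 536870912 536870912 536870912 536870912 50465866 3 eng mog cd6q0 cd6q1 pd1 true true true .pnn 0 1 1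
    ndB6q0 ndB6q1 pcB1 Cut.none Ext.none :=
  certB0 (fam := true) (s1 := true) (s2 := true) (a := 0) (b := 1) (c := 1) (cn := .pnn) (n1 := ndB6q0) (n2 := ndB6q1) (pc := pcB1) (cut := Cut.none) (xt := Ext.none) (P1 := 0) (W1 := 536870912) (P2 := 536870912) (W2 := 536870912) (P3 := 536870912) (W3 := 50465866) (N0 := 3) (En := eng) (mo := mog) (C1 := cd6q0) (C2 := cd6q1) (C3 := pd1)
    rfl k0_pp_011

noncomputable def f_pp_012 : ℕ → ℕ → ℕ → ℕ → Bool := onCell 0 536870912 536870912 536870912 536870912 50465866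
    (rowB 3 eng mog cd6q0 cd6q1 pd2 0 true true true .pnp 0 1 2 (qsf 0 536870912 536870912 536870912 2) ndB6q0 ndB6q1 pcB2 Cut.none Ext.none)

def k0_pp_012 : ∃ t, chk3 f_pp_012 t 1 1 1 = true :=
  ⟨(l 4), by decide +kernel⟩

theorem c_pp_012 : CertB 0 536870912 536870912 536870912 536870912 50465866 3 eng mog cd6q0 cd6q1 pd2 true true true .pnp 0 1 2
    ndB6q0 ndB6q1 pcB2 Cut.none Ext.none :=
  certB0 (fam := true) (s1 := true) (s2 := true) (a := 0) (b := 1) (c := 2) (cn := .pnp) (n1 := ndB6q0) (n2 := ndB6q1) (pc := pcB2) (cut := Cut.none) (xt := Ext.none) (P1 := 0) (W1 := 536870912) (P2 := 536870912) (W2 := 536870912) (P3 := 536870912) (W3 := 50465866) (N0 := 3) (En := eng) (mo := mog) (C1 := cd6q0) (C2 := cd6q1) (C3 := pd2)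
    rfl k0_pp_012

noncomputable def f_pp_022 : ℕ → ℕ → ℕ → ℕ → Bool := onCell 0 536870912 1073741824 536870912 536870912 50465866
    (rowB 3 eng mog cd6q0 cd6q2 pd2 0 true true true .pp 0 2 2 (qsf 0 536870912 1073741824 536870912 2) ndB6q0 ndB6q2 pcB2 Cut.none Ext.none)

def k0_pp_022 : ∃ t, chk3 f_pp_022 t 1 1 1 = true :=
  ⟨(l 4), by decide +kernel⟩

theorem c_pp_022 : CertB 0 536870912 1073741824 536870912 536870912 50465866 3 eng mog cd6q0 cd6q2 pd2 true true true .pp 0 2 2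
    ndB6q0 ndB6q2 pcB2 Cut.none Ext.none :=
  certB0 (fam := true) (s1 := true) (s2 := true) (a := 0) (b := 2) (c := 2) (cn := .pp) (n1 := ndB6q0) (n2 := ndB6q2) (pc := pcB2) (cut := Cut.none) (xt := Ext.none) (P1 := 0) (W1 := 536870912) (P2 := 1073741824) (W2 := 536870912) (P3 := 536870912) (W3 := 50465866) (N0 := 3) (En := eng) (mo := mog) (C1 := cd6q0) (C2 := cd6q2) (C3 := pd2)
    rfl k0_pp_022

noncomputable def f_pp_023 : ℕ → ℕ → ℕ → ℕ → Bool := onCell 0 536870912 1073741824 536870912 536870912 50465866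
    (rowB 3 eng mog cd6q0 cd6q2 pd3 0 true true true .up 0 2 3 (qsf 0 536870912 1073741824 536870912 3) ndB6q0 ndB6q2 pcB3 Cut.none Ext.none)

def k0_pp_023 : ∃ t, chk3 f_pp_023 t 1 1 1 = true :=
  ⟨(l 4), by decide +kernel⟩

theorem c_pp_023 : CertB 0 536870912 1073741824 536870912 536870912 50465866 3 eng mog cd6q0 cd6q2 pd3 true true true .up 0 2 3
    ndB6q0 ndB6q2 pcB3 Cut.none Ext.none :=
  certB0 (fam := true) (s1 := true) (s2 := true) (a := 0) (b := 2) (c := 3) (cn := .up) (n1 := ndB6q0) (n2 := ndB6q2) (pc := pcB3) (cut := Cut.none) (xt := Ext.none) (P1 := 0) (W1 := 536870912) (P2 := 1073741824) (W2 := 536870912) (P3 := 536870912) (W3 := 50465866) (N0 := 3) (En := eng) (mo := mog) (C1 := cd6q0) (C2 := cd6q2) (C3 := pd3)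
    rfl k0_pp_023

noncomputable def f_pp_033 : ℕ → ℕ → ℕ → ℕ → Bool := onCell 0 536870912 0 1230186008 536870912 50465866
    (rowB 3 eng mog cd6q0 cd6q3 pd3 0 true true true .pnn 0 3 3 (qsf 0 536870912 0 1230186008 3) ndB6q0 ndB6q3 pcB3 Cut.none Ext.none)

def k0_pp_033 : ∃ t, chk3 f_pp_033 t 1 1 1 = true :=
  ⟨(l 4), by decide +kernel⟩

theorem c_pp_033 : CertB 0 536870912 0 1230186008 536870912 50465866 3 eng mog cd6q0 cd6q3 pd3 true true true .pnn 0 3 3
    ndB6q0 ndB6q3 pcB3 Cut.none Ext.none :=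
  certB0 (fam := true) (s1 := true) (s2 := true) (a := 0) (b := 3) (c := 3) (cn := .pnn) (n1 := ndB6q0) (n2 := ndB6q3) (pc := pcB3) (cut := Cut.none) (xt := Ext.none) (P1 := 0) (W1 := 536870912) (P2 := 0) (W2 := 1230186008) (P3 := 536870912) (W3 := 50465866) (N0 := 3) (En := eng) (mo := mog) (C1 := cd6q0) (C2 := cd6q3) (C3 := pd3)
    rfl k0_pp_033

noncomputable def f_pp_101 : ℕ → ℕ → ℕ → ℕ → Bool := onCell 536870912 536870912 0 536870912 536870912 50465866
    (rowB 3 eng mog cd6q1 cd6q0 pd1 0 true true true .npn 1 0 1 (qsf 536870912 536870912 0 536870912 1) ndB6q1 ndB6q0 pcB1 Cut.none Ext.none)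

def k0_pp_101 : ∃ t, chk3 f_pp_101 t 1 1 1 = true :=
  ⟨(l 4), by decide +kernel⟩

theorem c_pp_101 : CertB 536870912 536870912 0 536870912 536870912 50465866 3 eng mog cd6q1 cd6q0 pd1 true true true .npn 1 0 1
    ndB6q1 ndB6q0 pcB1 Cut.none Ext.none :=
  certB0 (fam := true) (s1 := true) (s2 := true) (a := 1) (b := 0) (c := 1) (cn := .npn) (n1 := ndB6q1) (n2 := ndB6q0) (pc := pcB1) (cut := Cut.none) (xt := Ext.none) (P1 := 536870912) (W1 := 536870912) (P2 := 0) (W2 := 536870912) (P3 := 536870912) (W3 := 50465866) (N0 := 3) (En := eng) (mo := mog) (C1 := cd6q1) (C2 := cd6q0) (C3 := pd1)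
    rfl k0_pp_101

noncomputable def f_pp_102 : ℕ → ℕ → ℕ → ℕ → Bool := onCell 536870912 536870912 0 536870912 536870912 50465866
    (rowB 3 eng mog cd6q1 cd6q0 pd2 0 true true true .npp 1 0 2 (qsf 536870912 536870912 0 536870912 2) ndB6q1 ndB6q0 pcB2 Cut.none Ext.none)

def k0_pp_102 : ∃ t, chk3 f_pp_102 t 1 1 1 = true :=
  ⟨(l 4), by decide +kernel⟩

theorem c_pp_102 : CertB 536870912 536870912 0 536870912 536870912 50465866 3 eng mog cd6q1 cd6q0 pd2 true true true .npp 1 0 2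
    ndB6q1 ndB6q0 pcB2 Cut.none Ext.none :=
  certB0 (fam := true) (s1 := true) (s2 := true) (a := 1) (b := 0) (c := 2) (cn := .npp) (n1 := ndB6q1) (n2 := ndB6q0) (pc := pcB2) (cut := Cut.none) (xt := Ext.none) (P1 := 536870912) (W1 := 536870912) (P2 := 0) (W2 := 536870912) (P3 := 536870912) (W3 := 50465866) (N0 := 3) (En := eng) (mo := mog) (C1 := cd6q1) (C2 := cd6q0) (C3 := pd2)
    rfl k0_pp_102

noncomputable def f_pp_112 : ℕ → ℕ → ℕ → ℕ → Bool := onCell 536870912 536870912 536870912 536870912 536870912 50465866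
    (rowB 3 eng mog cd6q1 cd6q1 pd2 0 true true true .dn 1 1 2 (qsf 536870912 536870912 536870912 536870912 2) ndB6q1 ndB6q1 pcB2 Cut.none Ext.none)

def k0_pp_112 : ∃ t, chk3 f_pp_112 t 1 1 1 = true :=
  ⟨(l 4), by decide +kernel⟩

theorem c_pp_112 : CertB 536870912 536870912 536870912 536870912 536870912 50465866 3 eng mog cd6q1 cd6q1 pd2 true true true .dn 1 1 2
    ndB6q1 ndB6q1 pcB2 Cut.none Ext.none :=
  certB0 (fam := true) (s1 := true) (s2 := true) (a := 1) (b := 1) (c := 2) (cn := .dn) (n1 := ndB6q1) (n2 := ndB6q1) (pc := pcB2) (cut := Cut.none) (xt := Ext.none) (P1 := 536870912) (W1 := 536870912) (P2 := 536870912) (W2 := 536870912) (P3 := 536870912) (W3 := 50465866) (N0 := 3) (En := eng) (mo := mog) (C1 := cd6q1) (C2 := cd6q1) (C3 := pd2)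
    rfl k0_pp_112

noncomputable def f_pp_113 : ℕ → ℕ → ℕ → ℕ → Bool := onCell 536870912 536870912 536870912 536870912 536870912 50465866
    (rowB 3 eng mog cd6q1 cd6q1 pd3 0 true true true .nn 1 1 3 (qsf 536870912 536870912 536870912 536870912 3) ndB6q1 ndB6q1 pcB3 Cut.none Ext.none)

def k0_pp_113 : ∃ t, chk3 f_pp_113 t 1 1 1 = true :=
  ⟨(l 4), by decide +kernel⟩

theorem c_pp_113 : CertB 536870912 536870912 536870912 536870912 536870912 50465866 3 eng mog cd6q1 cd6q1 pd3 true true true .nn 1 1 3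
    ndB6q1 ndB6q1 pcB3 Cut.none Ext.none :=
  certB0 (fam := true) (s1 := true) (s2 := true) (a := 1) (b := 1) (c := 3) (cn := .nn) (n1 := ndB6q1) (n2 := ndB6q1) (pc := pcB3) (cut := Cut.none) (xt := Ext.none) (P1 := 536870912) (W1 := 536870912) (P2 := 536870912) (W2 := 536870912) (P3 := 536870912) (W3 := 50465866) (N0 := 3) (En := eng) (mo := mog) (C1 := cd6q1) (C2 := cd6q1) (C3 := pd3)
    rfl k0_pp_113

noncomputable def f_pp_123 : ℕ → ℕ → ℕ → ℕ → Bool := onCell 536870912 536870912 1073741824 536870912 536870912 50465866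
    (rowB 3 eng mog cd6q1 cd6q2 pd3 0 true true true .npn 1 2 3 (qsf 536870912 536870912 1073741824 536870912 3) ndB6q1 ndB6q2 pcB3 Cut.none Ext.none)

def k0_pp_123 : ∃ t, chk3 f_pp_123 t 1 1 1 = true :=
  ⟨(l 4), by decide +kernel⟩

theorem c_pp_123 : CertB 536870912 536870912 1073741824 536870912 536870912 50465866 3 eng mog cd6q1 cd6q2 pd3 true true true .npn 1 2 3
    ndB6q1 ndB6q2 pcB3 Cut.none Ext.none :=
  certB0 (fam := true) (s1 := true) (s2 := true) (a := 1) (b := 2) (c := 3) (cn := .npn) (n1 := ndB6q1) (n2 := ndB6q2) (pc := pcB3) (cut := Cut.none) (xt := Ext.none) (P1 := 536870912) (W1 := 536870912) (P2 := 1073741824) (W2 := 536870912) (P3 := 536870912) (W3 := 50465866) (N0 := 3) (En := eng) (mo := mog) (C1 := cd6q1) (C2 := cd6q2) (C3 := pd3)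
    rfl k0_pp_123

noncomputable def f_pp_133 : ℕ → ℕ → ℕ → ℕ → Bool := onCell 536870912 536870912 0 1230186008 536870912 50465866
    (rowB 3 eng mog cd6q1 cd6q3 pd3 0 true true true .dn 1 3 3 (qsf 536870912 536870912 0 1230186008 3) ndB6q1 ndB6q3 pcB3 Cut.none Ext.none)

def k0_pp_133 : ∃ t, chk3 f_pp_133 t 1 1 1 = true :=
  ⟨(l 4), by decide +kernel⟩

theorem c_pp_133 : CertB 536870912 536870912 0 1230186008 536870912 50465866 3 eng mog cd6q1 cd6q3 pd3 true true true .dn 1 3 3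
    ndB6q1 ndB6q3 pcB3 Cut.none Ext.none :=
  certB0 (fam := true) (s1 := true) (s2 := true) (a := 1) (b := 3) (c := 3) (cn := .dn) (n1 := ndB6q1) (n2 := ndB6q3) (pc := pcB3) (cut := Cut.none) (xt := Ext.none) (P1 := 536870912) (W1 := 536870912) (P2 := 0) (W2 := 1230186008) (P3 := 536870912) (W3 := 50465866) (N0 := 3) (En := eng) (mo := mog) (C1 := cd6q1) (C2 := cd6q3) (C3 := pd3)
    rfl k0_pp_133

noncomputable def f_pp_202 : ℕ → ℕ → ℕ → ℕ → Bool := onCell 1073741824 536870912 0 536870912 536870912 50465866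
    (rowB 3 eng mog cd6q2 cd6q0 pd2 0 true true true .pp 2 0 2 (qsf 1073741824 536870912 0 536870912 2) ndB6q2 ndB6q0 pcB2 Cut.none Ext.none)

def k0_pp_202 : ∃ t, chk3 f_pp_202 t 1 1 1 = true :=
  ⟨(l 4), by decide +kernel⟩

theorem c_pp_202 : CertB 1073741824 536870912 0 536870912 536870912 50465866 3 eng mog cd6q2 cd6q0 pd2 true true true .pp 2 0 2
    ndB6q2 ndB6q0 pcB2 Cut.none Ext.none :=
  certB0 (fam := true) (s1 := true) (s2 := true) (a := 2) (b := 0) (c := 2) (cn := .pp) (n1 := ndB6q2) (n2 := ndB6q0) (pc := pcB2) (cut := Cut.none) (xt := Ext.none) (P1 := 1073741824) (W1 := 536870912) (P2 := 0) (W2 := 536870912) (P3 := 536870912) (W3 := 50465866) (N0 := 3) (En := eng) (mo := mog) (C1 := cd6q2) (C2 := cd6q0) (C3 := pd2)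
    rfl k0_pp_202

noncomputable def f_pp_203 : ℕ → ℕ → ℕ → ℕ → Bool := onCell 1073741824 536870912 0 536870912 536870912 50465866
    (rowB 3 eng mog cd6q2 cd6q0 pd3 0 true true true .up 2 0 3 (qsf 1073741824 536870912 0 536870912 3) ndB6q2 ndB6q0 pcB3 Cut.none Ext.none)

def k0_pp_203 : ∃ t, chk3 f_pp_203 t 1 1 1 = true :=
  ⟨(l 4), by decide +kernel⟩

theorem c_pp_203 : CertB 1073741824 536870912 0 536870912 536870912 50465866 3 eng mog cd6q2 cd6q0 pd3 true true true .up 2 0 3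
    ndB6q2 ndB6q0 pcB3 Cut.none Ext.none :=
  certB0 (fam := true) (s1 := true) (s2 := true) (a := 2) (b := 0) (c := 3) (cn := .up) (n1 := ndB6q2) (n2 := ndB6q0) (pc := pcB3) (cut := Cut.none) (xt := Ext.none) (P1 := 1073741824) (W1 := 536870912) (P2 := 0) (W2 := 536870912) (P3 := 536870912) (W3 := 50465866) (N0 := 3) (En := eng) (mo := mog) (C1 := cd6q2) (C2 := cd6q0) (C3 := pd3)
    rfl k0_pp_203

noncomputable def f_pp_213 : ℕ → ℕ → ℕ → ℕ → Bool := onCell 1073741824 536870912 536870912 536870912 536870912 50465866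
    (rowB 3 eng mog cd6q2 cd6q1 pd3 0 true true true .pnn 2 1 3 (qsf 1073741824 536870912 536870912 536870912 3) ndB6q2 ndB6q1 pcB3 Cut.none Ext.none)

def k0_pp_213 : ∃ t, chk3 f_pp_213 t 1 1 1 = true :=
  ⟨(l 4), by decide +kernel⟩

theorem c_pp_213 : CertB 1073741824 536870912 536870912 536870912 536870912 50465866 3 eng mog cd6q2 cd6q1 pd3 true true true .pnn 2 1 3
    ndB6q2 ndB6q1 pcB3 Cut.none Ext.none :=
  certB0 (fam := true) (s1 := true) (s2 := true) (a := 2) (b := 1) (c := 3) (cn := .pnn) (n1 := ndB6q2) (n2 := ndB6q1) (pc := pcB3) (cut := Cut.none) (xt := Ext.none) (P1 := 1073741824) (W1 := 536870912) (P2 := 536870912) (W2 := 536870912) (P3 := 536870912) (W3 := 50465866) (N0 := 3) (En := eng) (mo := mog) (C1 := cd6q2) (C2 := cd6q1) (C3 := pd3)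
    rfl k0_pp_213

noncomputable def f_pp_303 : ℕ → ℕ → ℕ → ℕ → Bool := onCell 0 1230186008 0 536870912 536870912 50465866
    (rowB 3 eng mog cd6q3 cd6q0 pd3 0 true true true .npn 3 0 3 (qsf 0 1230186008 0 536870912 3) ndB6q3 ndB6q0 pcB3 Cut.none Ext.none)

def k0_pp_303 : ∃ t, chk3 f_pp_303 t 1 1 1 = true :=
  ⟨(l 4), by decide +kernel⟩

theorem c_pp_303 : CertB 0 1230186008 0 536870912 536870912 50465866 3 eng mog cd6q3 cd6q0 pd3 true true true .npn 3 0 3
    ndB6q3 ndB6q0 pcB3 Cut.none Ext.none :=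
  certB0 (fam := true) (s1 := true) (s2 := true) (a := 3) (b := 0) (c := 3) (cn := .npn) (n1 := ndB6q3) (n2 := ndB6q0) (pc := pcB3) (cut := Cut.none) (xt := Ext.none) (P1 := 0) (W1 := 1230186008) (P2 := 0) (W2 := 536870912) (P3 := 536870912) (W3 := 50465866) (N0 := 3) (En := eng) (mo := mog) (C1 := cd6q3) (C2 := cd6q0) (C3 := pd3)
    rfl k0_pp_303

noncomputable def f_pp_313 : ℕ → ℕ → ℕ → ℕ → Bool := onCell 0 1230186008 536870912 536870912 536870912 50465866
    (rowB 3 eng mog cd6q3 cd6q1 pd3 0 true true true .dn 3 1 3 (qsf 0 1230186008 536870912 536870912 3) ndB6q3 ndB6q1 pcB3 Cut.none Ext.none)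

def k0_pp_313 : ∃ t, chk3 f_pp_313 t 1 1 1 = true :=
  ⟨(l 4), by decide +kernel⟩

theorem c_pp_313 : CertB 0 1230186008 536870912 536870912 536870912 50465866 3 eng mog cd6q3 cd6q1 pd3 true true true .dn 3 1 3
    ndB6q3 ndB6q1 pcB3 Cut.none Ext.none :=
  certB0 (fam := true) (s1 := true) (s2 := true) (a := 3) (b := 1) (c := 3) (cn := .dn) (n1 := ndB6q3) (n2 := ndB6q1) (pc := pcB3) (cut := Cut.none) (xt := Ext.none) (P1 := 0) (W1 := 1230186008) (P2 := 536870912) (W2 := 536870912) (P3 := 536870912) (W3 := 50465866) (N0 := 3) (En := eng) (mo := mog) (C1 := cd6q3) (C2 := cd6q1) (C3 := pd3)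
    rfl k0_pp_313

noncomputable def f_pm_001 : ℕ → ℕ → ℕ → ℕ → Bool := onCell 0 536870912 0 536870912 536870912 50465866
    (rowB 3 eng mog cd6q0 cd6q0 pd1 0 true true false .up 0 0 1 (qsf 0 536870912 0 536870912 1) ndB6q0 ndB6q0 pcB1 Cut.none Ext.none)

def k0_pm_001 : ∃ t, chk3 f_pm_001 t 1 1 1 = true :=
  ⟨(l 3), by decide +kernel⟩

theorem c_pm_001 : CertB 0 536870912 0 536870912 536870912 50465866 3 eng mog cd6q0 cd6q0 pd1 true true false .up 0 0 1
    ndB6q0 ndB6q0 pcB1 Cut.none Ext.none :=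
  certB0 (fam := true) (s1 := true) (s2 := false) (a := 0) (b := 0) (c := 1) (cn := .up) (n1 := ndB6q0) (n2 := ndB6q0) (pc := pcB1) (cut := Cut.none) (xt := Ext.none) (P1 := 0) (W1 := 536870912) (P2 := 0) (W2 := 536870912) (P3 := 536870912) (W3 := 50465866) (N0 := 3) (En := eng) (mo := mog) (C1 := cd6q0) (C2 := cd6q0) (C3 := pd1)
    rfl k0_pm_001

noncomputable def f_pm_011 : ℕ → ℕ → ℕ → ℕ → Bool := onCell 0 536870912 536870912 536870912 536870912 50465866
    (rowB 3 eng mog cd6q0 cd6q1 pd1 1 true true false .pnn 0 1 1 (qsf 0 536870912 536870912 536870912 1) ndB6q0 ndB6q1 pcB1 Cut.none Ext.none)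

def k0_pm_011 : ∃ t, chk3 f_pm_011 t 1 1 1 = true :=
  ⟨(l 3), by decide +kernel⟩

theorem c_pm_011 : CertB 0 536870912 536870912 536870912 536870912 50465866 3 eng mog cd6q0 cd6q1 pd1 true true false .pnn 0 1 1
    ndB6q0 ndB6q1 pcB1 Cut.none Ext.none :=
  certB1 (fam := true) (s1 := true) (s2 := false) (a := 0) (b := 1) (c := 1) (cn := .pnn) (n1 := ndB6q0) (n2 := ndB6q1) (pc := pcB1) (cut := Cut.none) (xt := Ext.none) (P1 := 0) (W1 := 536870912) (P2 := 536870912) (W2 := 536870912) (P3 := 536870912) (W3 := 50465866) (N0 := 3) (En := eng) (mo := mog) (C1 := cd6q0) (C2 := cd6q1) (C3 := pd1)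
    rfl (fun _ => rfl) k0_pm_011

noncomputable def f_pm_012 : ℕ → ℕ → ℕ → ℕ → Bool := onCell 1073741824 536870912 536870912 536870912 536870912 50465866
    (rowB 3 eng mog cd6q0 cd6q1 pd2 2 true true false .pnp 0 1 2 (qsf 0 536870912 536870912 536870912 2) ndB6q0 ndB6q1 pcB2 Cut.none Ext.none)

def k0_pm_012 : ∃ t, chk3 f_pm_012 t 1 1 1 = true :=
  ⟨(a (a (b (l 3) (a (l 3) (b (l 3) (a (l 3) (a (l 3) (l 171966756599)))))) (b (a (a (a (l 3) (a (l 3) (b (l 2) (a (l 16708696) (b (l 16713248) (l 16709768)))))) (b (l 2) (l 16725672))) (b (l 2) (l 16777656))) (a (a (a (b (l 16689560) (b (l 16684120) (l 16678280))) (a (b (l 16697128) (l 16689848)) (b (a (l 16701488) (b (l 16768920) (l 16702552))) (a (l 16693704) (b (l 16698896) (l 16693584)))))) (b (l 16718280) (l 16709864))) (b (l 16766208) (l 16815576))))) (b (a (b (l 2) (a (l 16888504) (l 2))) (l 2)) (b (a (a (l 16866088) (l 17024536)) (a (l 17277328) (l 2))) (a (a (l 16835336) (l 16960152)) (a (l 17161992)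 (l 17472024)))))), by decide +kernel⟩

theorem c_pm_012 : CertB 0 536870912 536870912 536870912 536870912 50465866 3 eng mog cd6q0 cd6q1 pd2 true true false .pnp 0 1 2
    ndB6q0 ndB6q1 pcB2 Cut.none Ext.none :=
  certB2 (fam := true) (s1 := true) (s2 := false) (a := 0) (b := 1) (c := 2) (cn := .pnp) (n1 := ndB6q0) (n2 := ndB6q1) (pc := pcB2) (cut := Cut.none) (xt := Ext.none) (P1 := 0) (W1 := 536870912) (P2 := 536870912) (W2 := 536870912) (P3 := 536870912) (W3 := 50465866) (N0 := 3) (En := eng) (mo := mog) (C1 := cd6q0) (C2 := cd6q1) (C3 := pd2)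
    rfl (fun _ => rfl) k0_pm_012

noncomputable def f_pm_022 : ℕ → ℕ → ℕ → ℕ → Bool := onCell 0 536870912 1073741824 536870912 536870912 50465866
    (rowB 3 eng mog cd6q0 cd6q2 pd2 1 true true false .pp 0 2 2 (qsf 0 536870912 1073741824 536870912 2) ndB6q0 ndB6q2 pcB2 Cut.none Ext.none)

def k0_pm_022 : ∃ t, chk3 f_pm_022 t 1 1 1 = true :=
  ⟨(a (b (b (b (l 3) (b (l 3) (a (a (b (l 16627464) (l 16631240)) (b (l 3) (l 16649936))) (a (b (l 1) (l 666290343447)) (l 1))))) (b (b (b (a (a (l 16635336) (l 16649816)) (a (l 308197623511) (l 1))) (b (a (a (l 16638104) (l 16650112)) (a (l 16692632) (l 1))) (a (b (l 16641496) (a (l 16640960) (l 16650872))) (b (l 246994569367) (a (l 16691568) (l 1)))))) (a (l 16646496) (a (l 16685944) (l 16752632)))) (a (l 16825152) (l 262563790951)))) (b (a (b (l 16674168) (l 16691312)) (b (l 16703080) (l 16708168))) (a (b (l 16705808) (l 16720080)) (b (l 16720320) (l 16734784))))) (b (b (l 1) (b (l 1) (a (l 836479156839) (l 1))))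 (b (a (b (l 16872128) (l 16851280)) (l 847217394407)) (a (b (l 16843728) (l 16853288)) (l 745748635975))))), by decide +kernel⟩

theorem c_pm_022 : CertB 0 536870912 1073741824 536870912 536870912 50465866 3 eng mog cd6q0 cd6q2 pd2 true true false .pp 0 2 2
    ndB6q0 ndB6q2 pcB2 Cut.none Ext.none :=
  certB1 (fam := true) (s1 := true) (s2 := false) (a := 0) (b := 2) (c := 2) (cn := .pp) (n1 := ndB6q0) (n2 := ndB6q2) (pc := pcB2) (cut := Cut.none) (xt := Ext.none) (P1 := 0) (W1 := 536870912) (P2 := 1073741824) (W2 := 536870912) (P3 := 536870912) (W3 := 50465866) (N0 := 3) (En := eng) (mo := mog) (C1 := cd6q0) (C2 := cd6q2) (C3 := pd2)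
    rfl (fun _ => rfl) k0_pm_022

noncomputable def f_pm_023 : ℕ → ℕ → ℕ → ℕ → Bool := onCell 1610612736 536870912 1073741824 536870912 536870912 50465866
    (rowB 3 eng mog cd6q0 cd6q2 pd3 2 true true false .up 0 2 3 (qsf 0 536870912 1073741824 536870912 3) ndB6q0 ndB6q2 pcB3 Cut.none Ext.none)

def k0_pm_023 : ∃ t, chk3 f_pm_023 t 1 1 1 = true :=
  ⟨(a (a (b (b (l 17550912) (a (l 16906192) (l 17043816))) (b (a (l 16762872) (l 16814336)) (a (l 16734000) (l 16751384)))) (b (b (l 40368047911) (l 17333944)) (b (l 16933608) (l 16793080)))) (b (a (b (l 2) (l 170826984903)) (l 2)) (b (a (l 17070376) (a (l 16916040) (l 2))) (a (l 16844896) (a (l 16791936) (a (l 16768808) (l 4))))))), by decide +kernel⟩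

theorem c_pm_023 : CertB 0 536870912 1073741824 536870912 536870912 50465866 3 eng mog cd6q0 cd6q2 pd3 true true false .up 0 2 3
    ndB6q0 ndB6q2 pcB3 Cut.none Ext.none :=
  certB2 (fam := true) (s1 := true) (s2 := false) (a := 0) (b := 2) (c := 3) (cn := .up) (n1 := ndB6q0) (n2 := ndB6q2) (pc := pcB3) (cut := Cut.none) (xt := Ext.none) (P1 := 0) (W1 := 536870912) (P2 := 1073741824) (W2 := 536870912) (P3 := 536870912) (W3 := 50465866) (N0 := 3) (En := eng) (mo := mog) (C1 := cd6q0) (C2 := cd6q2) (C3 := pd3)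
    rfl (fun _ => rfl) k0_pm_023

noncomputable def f_pm_033 : ℕ → ℕ → ℕ → ℕ → Bool := onCell 1610612736 536870912 0 1230186008 536870912 50465866
    (rowB 3 eng mog cd6q0 cd6q3 pd3 2 true true false .pnn 0 3 3 (qsf 0 536870912 0 1230186008 3) ndB6q0 ndB6q3 pcB3 Cut.none Ext.none)

def k0_pm_033 : ∃ t, chk3 f_pm_033 t 1 1 1 = true :=
  ⟨(b (a (l 1) (l 4)) (b (a (a (l 1) (b (l 1) (l 16784784))) (l 4)) (a (a (b (l 1) (a (l 16721024) (l 16741592))) (b (l 16764656) (a (l 16755504) (l 16766840)))) (a (b (l 16774024) (l 16775640)) (a (b (l 4) (l 16767680)) (l 4)))))), by decide +kernel⟩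

theorem c_pm_033 : CertB 0 536870912 0 1230186008 536870912 50465866 3 eng mog cd6q0 cd6q3 pd3 true true false .pnn 0 3 3
    ndB6q0 ndB6q3 pcB3 Cut.none Ext.none :=
  certB2 (fam := true) (s1 := true) (s2 := false) (a := 0) (b := 3) (c := 3) (cn := .pnn) (n1 := ndB6q0) (n2 := ndB6q3) (pc := pcB3) (cut := Cut.none) (xt := Ext.none) (P1 := 0) (W1 := 536870912) (P2 := 0) (W2 := 1230186008) (P3 := 536870912) (W3 := 50465866) (N0 := 3) (En := eng) (mo := mog) (C1 := cd6q0) (C2 := cd6q3) (C3 := pd3)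
    rfl (fun _ => rfl) k0_pm_033

noncomputable def f_pm_101 : ℕ → ℕ → ℕ → ℕ → Bool := onCell 536870912 536870912 536870912 536870912 536870912 50465866
    (rowB 3 eng mog cd6q1 cd6q0 pd1 1 true true false .npn 1 0 1 (qsf 536870912 536870912 0 536870912 1) ndB6q1 ndB6q0 pcB1 Cut.none Ext.none)

def k0_pm_101 : ∃ t, chk3 f_pm_101 t 1 1 1 = true :=
  ⟨(l 3), by decide +kernel⟩

theorem c_pm_101 : CertB 536870912 536870912 0 536870912 536870912 50465866 3 eng mog cd6q1 cd6q0 pd1 true true false .npn 1 0 1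
    ndB6q1 ndB6q0 pcB1 Cut.none Ext.none :=
  certB1 (fam := true) (s1 := true) (s2 := false) (a := 1) (b := 0) (c := 1) (cn := .npn) (n1 := ndB6q1) (n2 := ndB6q0) (pc := pcB1) (cut := Cut.none) (xt := Ext.none) (P1 := 536870912) (W1 := 536870912) (P2 := 0) (W2 := 536870912) (P3 := 536870912) (W3 := 50465866) (N0 := 3) (En := eng) (mo := mog) (C1 := cd6q1) (C2 := cd6q0) (C3 := pd1)
    rfl (fun _ => rfl) k0_pm_101

noncomputable def f_pm_102 : ℕ → ℕ → ℕ → ℕ → Bool := onCell 536870912 536870912 1073741824 536870912 536870912 50465866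
    (rowB 3 eng mog cd6q1 cd6q0 pd2 1 true true false .npp 1 0 2 (qsf 536870912 536870912 0 536870912 2) ndB6q1 ndB6q0 pcB2 Cut.none Ext.none)

def k0_pm_102 : ∃ t, chk3 f_pm_102 t 1 1 1 = true :=
  ⟨(a (b (b (l 3) (b (b (b (l 3) (b (l 3) (a (l 2) (b (l 16708696) (a (l 16713248) (l 16709768)))))) (a (l 2) (l 16725672))) (a (l 2) (l 16777656)))) (a (l 2) (b (b (l 16888504) (l 2)) (l 2)))) (b (b (b (l 3) (a (l 3) (b (l 3) (b (l 3) (l 171966756599))))) (b (b (b (a (l 16689560) (a (l 16684120) (l 16678280))) (b (a (l 16697128) (l 16689848)) (a (b (l 16701488) (a (l 16768920) (l 16702552))) (b (l 16693704) (a (l 16698896) (l 16693584)))))) (a (l 16718280) (l 16709864))) (a (l 16766208) (l 16752664)))) (a (b (b (l 16866088) (l 17024536)) (b (l 17277328) (l 2))) (b (b (l 16835336) (l 16960152)) (b (l 17161992) (l 17472024)))))), by decide +kernel⟩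

theorem c_pm_102 : CertB 536870912 536870912 0 536870912 536870912 50465866 3 eng mog cd6q1 cd6q0 pd2 true true false .npp 1 0 2
    ndB6q1 ndB6q0 pcB2 Cut.none Ext.none :=
  certB1 (fam := true) (s1 := true) (s2 := false) (a := 1) (b := 0) (c := 2) (cn := .npp) (n1 := ndB6q1) (n2 := ndB6q0) (pc := pcB2) (cut := Cut.none) (xt := Ext.none) (P1 := 536870912) (W1 := 536870912) (P2 := 0) (W2 := 536870912) (P3 := 536870912) (W3 := 50465866) (N0 := 3) (En := eng) (mo := mog) (C1 := cd6q1) (C2 := cd6q0) (C3 := pd2)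
    rfl (fun _ => rfl) k0_pm_102

noncomputable def f_pm_112 : ℕ → ℕ → ℕ → ℕ → Bool := onCell 536870912 536870912 1073741824 536870912 536870912 50465866
    (rowB 3 eng mog cd6q1 cd6q1 pd2 1 true true false .dn 1 1 2 (qsf 536870912 536870912 536870912 536870912 2) ndB6q1 ndB6q1 pcB2 Cut.none Ext.none)

def k0_pm_112 : ∃ t, chk3 f_pm_112 t 1 1 1 = true :=
  ⟨(b (b (a (l 3) (l 1)) (a (b (b (b (l 3) (b (l 3) (a (b (l 3) (l 16715000)) (b (l 16708840) (l 225519709591))))) (a (l 16728688) (l 16725696))) (a (l 16778696) (l 16776856))) (b (l 1) (a (l 16764472) (l 1))))) (a (b (a (l 16949904) (l 16964392)) (a (l 17362248) (l 17468976))) (b (a (l 16932160) (l 16877352)) (a (l 17440280) (l 17287000))))), by decide +kernel⟩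

theorem c_pm_112 : CertB 536870912 536870912 536870912 536870912 536870912 50465866 3 eng mog cd6q1 cd6q1 pd2 true true false .dn 1 1 2
    ndB6q1 ndB6q1 pcB2 Cut.none Ext.none :=
  certB1 (fam := true) (s1 := true) (s2 := false) (a := 1) (b := 1) (c := 2) (cn := .dn) (n1 := ndB6q1) (n2 := ndB6q1) (pc := pcB2) (cut := Cut.none) (xt := Ext.none) (P1 := 536870912) (W1 := 536870912) (P2 := 536870912) (W2 := 536870912) (P3 := 536870912) (W3 := 50465866) (N0 := 3) (En := eng) (mo := mog) (C1 := cd6q1) (C2 := cd6q1) (C3 := pd2)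
    rfl (fun _ => rfl) k0_pm_112

noncomputable def f_pm_113 : ℕ → ℕ → ℕ → ℕ → Bool := onCell 536870912 536870912 1610612736 536870912 536870912 50465866
    (rowB 3 eng mog cd6q1 cd6q1 pd3 1 true true false .nn 1 1 3 (qsf 536870912 536870912 536870912 536870912 3) ndB6q1 ndB6q1 pcB3 Cut.none Ext.none)

def k0_pm_113 : ∃ t, chk3 f_pm_113 t 1 1 1 = true :=
  ⟨(a (b (b (l 17803272) (l 17542104)) (b (l 84927792503) (l 2))) (b (b (l 18023752) (l 17669176)) (b (l 17334904) (b (l 17052704) (b (l 16917008) (b (l 16851160) (l 16809232))))))), by decide +kernel⟩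

theorem c_pm_113 : CertB 536870912 536870912 536870912 536870912 536870912 50465866 3 eng mog cd6q1 cd6q1 pd3 true true false .nn 1 1 3
    ndB6q1 ndB6q1 pcB3 Cut.none Ext.none :=
  certB1 (fam := true) (s1 := true) (s2 := false) (a := 1) (b := 1) (c := 3) (cn := .nn) (n1 := ndB6q1) (n2 := ndB6q1) (pc := pcB3) (cut := Cut.none) (xt := Ext.none) (P1 := 536870912) (W1 := 536870912) (P2 := 536870912) (W2 := 536870912) (P3 := 536870912) (W3 := 50465866) (N0 := 3) (En := eng) (mo := mog) (C1 := cd6q1) (C2 := cd6q1) (C3 := pd3)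
    rfl (fun _ => rfl) k0_pm_113

noncomputable def f_pm_123 : ℕ → ℕ → ℕ → ℕ → Bool := onCell 536870912 536870912 1610612736 536870912 536870912 50465866
    (rowB 3 eng mog cd6q1 cd6q2 pd3 1 true true false .npn 1 2 3 (qsf 536870912 536870912 1073741824 536870912 3) ndB6q1 ndB6q2 pcB3 Cut.none Ext.none)

def k0_pm_123 : ∃ t, chk3 f_pm_123 t 1 1 1 = true :=
  ⟨(a (b (b (a (l 17707952) (l 17957120)) (a (l 17365600) (l 17563912))) (b (a (l 17050224) (l 17189616)) (b (a (l 16866368) (l 16937424)) (b (a (l 16774960) (l 16830688)) (a (l 4) (l 16854344)))))) (b (a (l 649113313495) (l 1)) (b (a (l 17309872) (l 17375816)) (b (l 17046280) (b (l 16903992) (b (l 16836320) (a (l 16762912) (l 16798216)))))))), by decide +kernel⟩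

theorem c_pm_123 : CertB 536870912 536870912 1073741824 536870912 536870912 50465866 3 eng mog cd6q1 cd6q2 pd3 true true false .npn 1 2 3
    ndB6q1 ndB6q2 pcB3 Cut.none Ext.none :=
  certB1 (fam := true) (s1 := true) (s2 := false) (a := 1) (b := 2) (c := 3) (cn := .npn) (n1 := ndB6q1) (n2 := ndB6q2) (pc := pcB3) (cut := Cut.none) (xt := Ext.none) (P1 := 536870912) (W1 := 536870912) (P2 := 1073741824) (W2 := 536870912) (P3 := 536870912) (W3 := 50465866) (N0 := 3) (En := eng) (mo := mog) (C1 := cd6q1) (C2 := cd6q2) (C3 := pd3)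
    rfl (fun _ => rfl) k0_pm_123

noncomputable def f_pm_133 : ℕ → ℕ → ℕ → ℕ → Bool := onCell 536870912 536870912 0 1230186008 536870912 50465866
    (rowB 3 eng mog cd6q1 cd6q3 pd3 0 true true false .dn 1 3 3 (qsf 536870912 536870912 0 1230186008 3) ndB6q1 ndB6q3 pcB3 Cut.none Ext.none)

def k0_pm_133 : ∃ t, chk3 f_pm_133 t 1 1 1 = true :=
  ⟨(b (l 2) (b (l 2) (l 4))), by decide +kernel⟩

theorem c_pm_133 : CertB 536870912 536870912 0 1230186008 536870912 50465866 3 eng mog cd6q1 cd6q3 pd3 true true false .dn 1 3 3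
    ndB6q1 ndB6q3 pcB3 Cut.none Ext.none :=
  certB0 (fam := true) (s1 := true) (s2 := false) (a := 1) (b := 3) (c := 3) (cn := .dn) (n1 := ndB6q1) (n2 := ndB6q3) (pc := pcB3) (cut := Cut.none) (xt := Ext.none) (P1 := 536870912) (W1 := 536870912) (P2 := 0) (W2 := 1230186008) (P3 := 536870912) (W3 := 50465866) (N0 := 3) (En := eng) (mo := mog) (C1 := cd6q1) (C2 := cd6q3) (C3 := pd3)
    rfl k0_pm_133

noncomputable def f_pm_202 : ℕ → ℕ → ℕ → ℕ → Bool := onCell 1073741824 536870912 0 536870912 536870912 50465866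
    (rowB 3 eng mog cd6q2 cd6q0 pd2 2 true true false .pp 2 0 2 (qsf 1073741824 536870912 0 536870912 2) ndB6q2 ndB6q0 pcB2 Cut.none Ext.none)

def k0_pm_202 : ∃ t, chk3 f_pm_202 t 1 1 1 = true :=
  ⟨(a (a (b (a (l 3) (a (l 3) (b (b (a (l 16627464) (l 16631240)) (a (l 3) (l 16649936))) (b (a (l 1) (l 803192402407)) (l 1))))) (l 1)) (b (a (a (a (b (b (l 16635336) (l 16649816)) (b (l 365105924455) (l 1))) (a (b (b (l 16638104) (l 16650112)) (b (l 16692632) (l 1))) (b (a (l 16641496) (b (l 16640960) (l 16650872))) (a (l 246994569367) (b (l 16691568) (l 1)))))) (b (l 16646496) (b (l 16685944) (l 16752632)))) (b (l 16867096) (l 264174403687))) (a (l 1) (b (l 835405415015) (l 1))))) (a (b (b (a (l 16674168) (l 16691312)) (a (l 16703080) (l 16708168))) (b (a (l 16872128) (l 16851280)) (l 846680523495))) (b (b (a (l 16705808) (l 16720080)) (a (l 16720320) (l 16734784))) (b (a (l 16843728) (l 16853288)) (l 642669420871))))), by decide +kernel⟩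

theorem c_pm_202 : CertB 1073741824 536870912 0 536870912 536870912 50465866 3 eng mog cd6q2 cd6q0 pd2 true true false .pp 2 0 2
    ndB6q2 ndB6q0 pcB2 Cut.none Ext.none :=
  certB2 (fam := true) (s1 := true) (s2 := false) (a := 2) (b := 0) (c := 2) (cn := .pp) (n1 := ndB6q2) (n2 := ndB6q0) (pc := pcB2) (cut := Cut.none) (xt := Ext.none) (P1 := 1073741824) (W1 := 536870912) (P2 := 0) (W2 := 536870912) (P3 := 536870912) (W3 := 50465866) (N0 := 3) (En := eng) (mo := mog) (C1 := cd6q2) (C2 := cd6q0) (C3 := pd2)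
    rfl (fun _ => rfl) k0_pm_202

noncomputable def f_pm_203 : ℕ → ℕ → ℕ → ℕ → Bool := onCell 1073741824 536870912 1610612736 536870912 536870912 50465866
    (rowB 3 eng mog cd6q2 cd6q0 pd3 1 true true false .up 2 0 3 (qsf 1073741824 536870912 0 536870912 3) ndB6q2 ndB6q0 pcB3 Cut.none Ext.none)

def k0_pm_203 : ∃ t, chk3 f_pm_203 t 1 1 1 = true :=
  ⟨(a (b (b (a (l 17550912) (b (l 16906192) (l 17043816))) (a (l 40368047911) (l 17333944))) (a (l 2) (b (l 170827047815) (l 2)))) (a (b (b (b (l 16762872) (l 16814336)) (l 16933608)) (b (l 17070376) (b (l 16916040) (l 2)))) (b (b (b (l 16734000) (l 16751384)) (l 16793080)) (b (l 16844896) (b (l 16791936) (b (l 16768808) (l 4))))))), by decide +kernel⟩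

theorem c_pm_203 : CertB 1073741824 536870912 0 536870912 536870912 50465866 3 eng mog cd6q2 cd6q0 pd3 true true false .up 2 0 3
    ndB6q2 ndB6q0 pcB3 Cut.none Ext.none :=
  certB1 (fam := true) (s1 := true) (s2 := false) (a := 2) (b := 0) (c := 3) (cn := .up) (n1 := ndB6q2) (n2 := ndB6q0) (pc := pcB3) (cut := Cut.none) (xt := Ext.none) (P1 := 1073741824) (W1 := 536870912) (P2 := 0) (W2 := 536870912) (P3 := 536870912) (W3 := 50465866) (N0 := 3) (En := eng) (mo := mog) (C1 := cd6q2) (C2 := cd6q0) (C3 := pd3)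
    rfl (fun _ => rfl) k0_pm_203

noncomputable def f_pm_213 : ℕ → ℕ → ℕ → ℕ → Bool := onCell 1073741824 536870912 1610612736 536870912 536870912 50465866
    (rowB 3 eng mog cd6q2 cd6q1 pd3 1 true true false .pnn 2 1 3 (qsf 1073741824 536870912 536870912 536870912 3) ndB6q2 ndB6q1 pcB3 Cut.none Ext.none)

def k0_pm_213 : ∃ t, chk3 f_pm_213 t 1 1 1 = true :=
  ⟨(a (b (b (a (l 17509672) (l 16954200)) (a (l 17484776) (l 17287200))) (b (a (l 17261136) (l 17144856)) (b (l 17191712) (b (l 16888584) (b (l 16833896) (a (l 16796808) (l 16765552))))))) (b (b (l 1) (a (l 16927824) (l 1))) (b (a (l 17027576) (l 16849464)) (b (a (l 16887760) (l 16808200)) (b (l 16775120) (a (l 16769576) (l 4))))))), by decide +kernel⟩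

theorem c_pm_213 : CertB 1073741824 536870912 536870912 536870912 536870912 50465866 3 eng mog cd6q2 cd6q1 pd3 true true false .pnn 2 1 3
    ndB6q2 ndB6q1 pcB3 Cut.none Ext.none :=
  certB1 (fam := true) (s1 := true) (s2 := false) (a := 2) (b := 1) (c := 3) (cn := .pnn) (n1 := ndB6q2) (n2 := ndB6q1) (pc := pcB3) (cut := Cut.none) (xt := Ext.none) (P1 := 1073741824) (W1 := 536870912) (P2 := 536870912) (W2 := 536870912) (P3 := 536870912) (W3 := 50465866) (N0 := 3) (En := eng) (mo := mog) (C1 := cd6q2) (C2 := cd6q1) (C3 := pd3)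
    rfl (fun _ => rfl) k0_pm_213

noncomputable def f_pm_303 : ℕ → ℕ → ℕ → ℕ → Bool := onCell 0 1230186008 1610612736 536870912 536870912 50465866
    (rowB 3 eng mog cd6q3 cd6q0 pd3 1 true true false .npn 3 0 3 (qsf 0 1230186008 0 536870912 3) ndB6q3 ndB6q0 pcB3 Cut.none Ext.none)

def k0_pm_303 : ∃ t, chk3 f_pm_303 t 1 1 1 = true :=
  ⟨(a (b (l 1) (l 4)) (a (b (b (l 1) (a (l 1) (l 16784784))) (l 4)) (b (b (a (l 1) (b (l 16721024) (l 16741560))) (a (l 16764656) (b (l 16755480) (l 16766840)))) (b (a (l 16774024) (l 16775640)) (b (a (l 4) (l 16767680)) (l 4)))))), by decide +kernel⟩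

theorem c_pm_303 : CertB 0 1230186008 0 536870912 536870912 50465866 3 eng mog cd6q3 cd6q0 pd3 true true false .npn 3 0 3
    ndB6q3 ndB6q0 pcB3 Cut.none Ext.none :=
  certB1 (fam := true) (s1 := true) (s2 := false) (a := 3) (b := 0) (c := 3) (cn := .npn) (n1 := ndB6q3) (n2 := ndB6q0) (pc := pcB3) (cut := Cut.none) (xt := Ext.none) (P1 := 0) (W1 := 1230186008) (P2 := 0) (W2 := 536870912) (P3 := 536870912) (W3 := 50465866) (N0 := 3) (En := eng) (mo := mog) (C1 := cd6q3) (C2 := cd6q0) (C3 := pd3)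
    rfl (fun _ => rfl) k0_pm_303

noncomputable def f_pm_313 : ℕ → ℕ → ℕ → ℕ → Bool := onCell 0 1230186008 536870912 536870912 536870912 50465866
    (rowB 3 eng mog cd6q3 cd6q1 pd3 0 true true false .dn 3 1 3 (qsf 0 1230186008 536870912 536870912 3) ndB6q3 ndB6q1 pcB3 Cut.none Ext.none)

def k0_pm_313 : ∃ t, chk3 f_pm_313 t 1 1 1 = true :=
  ⟨(a (l 2) (a (l 2) (l 4))), by decide +kernel⟩

theorem c_pm_313 : CertB 0 1230186008 536870912 536870912 536870912 50465866 3 eng mog cd6q3 cd6q1 pd3 true true false .dn 3 1 3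
    ndB6q3 ndB6q1 pcB3 Cut.none Ext.none :=
  certB0 (fam := true) (s1 := true) (s2 := false) (a := 3) (b := 1) (c := 3) (cn := .dn) (n1 := ndB6q3) (n2 := ndB6q1) (pc := pcB3) (cut := Cut.none) (xt := Ext.none) (P1 := 0) (W1 := 1230186008) (P2 := 536870912) (W2 := 536870912) (P3 := 536870912) (W3 := 50465866) (N0 := 3) (En := eng) (mo := mog) (C1 := cd6q3) (C2 := cd6q1) (C3 := pd3)
    rfl k0_pm_313

noncomputable def f_mm_001 : ℕ → ℕ → ℕ → ℕ → Bool := onCell 0 536870912 0 536870912 536870912 50465866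
    (rowB 3 eng mog cd6q0 cd6q0 pd1 0 true false false .up 0 0 1 (qsf 0 536870912 0 536870912 1) ndB6q0 ndB6q0 pcB1 Cut.none Ext.none)

def k0_mm_001 : ∃ t, chk3 f_mm_001 t 1 1 1 = true :=
  ⟨(l 4), by decide +kernel⟩

theorem c_mm_001 : CertB 0 536870912 0 536870912 536870912 50465866 3 eng mog cd6q0 cd6q0 pd1 true false false .up 0 0 1
    ndB6q0 ndB6q0 pcB1 Cut.none Ext.none :=
  certB0 (fam := true) (s1 := false) (s2 := false) (a := 0) (b := 0) (c := 1) (cn := .up) (n1 := ndB6q0) (n2 := ndB6q0) (pc := pcB1) (cut := Cut.none) (xt := Ext.none) (P1 := 0) (W1 := 536870912) (P2 := 0) (W2 := 536870912) (P3 := 536870912) (W3 := 50465866) (N0 := 3) (En := eng) (mo := mog) (C1 := cd6q0) (C2 := cd6q0) (C3 := pd1)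
    rfl k0_mm_001

noncomputable def f_mm_011 : ℕ → ℕ → ℕ → ℕ → Bool := onCell 0 536870912 536870912 536870912 536870912 50465866
    (rowB 3 eng mog cd6q0 cd6q1 pd1 0 true false false .pnn 0 1 1 (qsf 0 536870912 536870912 536870912 1) ndB6q0 ndB6q1 pcB1 Cut.none Ext.none)

def k0_mm_011 : ∃ t, chk3 f_mm_011 t 1 1 1 = true :=
  ⟨(l 4), by decide +kernel⟩

theorem c_mm_011 : CertB 0 536870912 536870912 536870912 536870912 50465866 3 eng mog cd6q0 cd6q1 pd1 true false false .pnn 0 1 1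
    ndB6q0 ndB6q1 pcB1 Cut.none Ext.none :=
  certB0 (fam := true) (s1 := false) (s2 := false) (a := 0) (b := 1) (c := 1) (cn := .pnn) (n1 := ndB6q0) (n2 := ndB6q1) (pc := pcB1) (cut := Cut.none) (xt := Ext.none) (P1 := 0) (W1 := 536870912) (P2 := 536870912) (W2 := 536870912) (P3 := 536870912) (W3 := 50465866) (N0 := 3) (En := eng) (mo := mog) (C1 := cd6q0) (C2 := cd6q1) (C3 := pd1)
    rfl k0_mm_011

noncomputable def f_mm_012 : ℕ → ℕ → ℕ → ℕ → Bool := onCell 0 536870912 536870912 536870912 536870912 50465866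
    (rowB 3 eng mog cd6q0 cd6q1 pd2 0 true false false .pnp 0 1 2 (qsf 0 536870912 536870912 536870912 2) ndB6q0 ndB6q1 pcB2 Cut.none Ext.none)

def k0_mm_012 : ∃ t, chk3 f_mm_012 t 1 1 1 = true :=
  ⟨(l 4), by decide +kernel⟩

theorem c_mm_012 : CertB 0 536870912 536870912 536870912 536870912 50465866 3 eng mog cd6q0 cd6q1 pd2 true false false .pnp 0 1 2
    ndB6q0 ndB6q1 pcB2 Cut.none Ext.none :=
  certB0 (fam := true) (s1 := false) (s2 := false) (a := 0) (b := 1) (c := 2) (cn := .pnp) (n1 := ndB6q0) (n2 := ndB6q1) (pc := pcB2) (cut := Cut.none) (xt := Ext.none) (P1 := 0) (W1 := 536870912) (P2 := 536870912) (W2 := 536870912) (P3 := 536870912) (W3 := 50465866) (N0 := 3) (En := eng) (mo := mog) (C1 := cd6q0) (C2 := cd6q1) (C3 := pd2)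
    rfl k0_mm_012

noncomputable def f_mm_022 : ℕ → ℕ → ℕ → ℕ → Bool := onCell 0 536870912 1073741824 536870912 536870912 50465866
    (rowB 3 eng mog cd6q0 cd6q2 pd2 0 true false false .pp 0 2 2 (qsf 0 536870912 1073741824 536870912 2) ndB6q0 ndB6q2 pcB2 Cut.none Ext.none)

def k0_mm_022 : ∃ t, chk3 f_mm_022 t 1 1 1 = true :=
  ⟨(l 4), by decide +kernel⟩

theorem c_mm_022 : CertB 0 536870912 1073741824 536870912 536870912 50465866 3 eng mog cd6q0 cd6q2 pd2 true false false .pp 0 2 2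
    ndB6q0 ndB6q2 pcB2 Cut.none Ext.none :=
  certB0 (fam := true) (s1 := false) (s2 := false) (a := 0) (b := 2) (c := 2) (cn := .pp) (n1 := ndB6q0) (n2 := ndB6q2) (pc := pcB2) (cut := Cut.none) (xt := Ext.none) (P1 := 0) (W1 := 536870912) (P2 := 1073741824) (W2 := 536870912) (P3 := 536870912) (W3 := 50465866) (N0 := 3) (En := eng) (mo := mog) (C1 := cd6q0) (C2 := cd6q2) (C3 := pd2)
    rfl k0_mm_022

noncomputable def f_mm_023 : ℕ → ℕ → ℕ → ℕ → Bool := onCell 0 536870912 1073741824 536870912 536870912 50465866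
    (rowB 3 eng mog cd6q0 cd6q2 pd3 0 true false false .up 0 2 3 (qsf 0 536870912 1073741824 536870912 3) ndB6q0 ndB6q2 pcB3 Cut.none Ext.none)

def k0_mm_023 : ∃ t, chk3 f_mm_023 t 1 1 1 = true :=
  ⟨(l 4), by decide +kernel⟩

theorem c_mm_023 : CertB 0 536870912 1073741824 536870912 536870912 50465866 3 eng mog cd6q0 cd6q2 pd3 true false false .up 0 2 3
    ndB6q0 ndB6q2 pcB3 Cut.none Ext.none :=
  certB0 (fam := true) (s1 := false) (s2 := false) (a := 0) (b := 2) (c := 3) (cn := .up) (n1 := ndB6q0) (n2 := ndB6q2) (pc := pcB3) (cut := Cut.none) (xt := Ext.none) (P1 := 0) (W1 := 536870912) (P2 := 1073741824) (W2 := 536870912) (P3 := 536870912) (W3 := 50465866) (N0 := 3) (En := eng) (mo := mog) (C1 := cd6q0) (C2 := cd6q2) (C3 := pd3)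
    rfl k0_mm_023

noncomputable def f_mm_033 : ℕ → ℕ → ℕ → ℕ → Bool := onCell 0 536870912 0 1230186008 536870912 50465866
    (rowB 3 eng mog cd6q0 cd6q3 pd3 0 true false false .pnn 0 3 3 (qsf 0 536870912 0 1230186008 3) ndB6q0 ndB6q3 pcB3 Cut.none Ext.none)

def k0_mm_033 : ∃ t, chk3 f_mm_033 t 1 1 1 = true :=
  ⟨(l 4), by decide +kernel⟩

theorem c_mm_033 : CertB 0 536870912 0 1230186008 536870912 50465866 3 eng mog cd6q0 cd6q3 pd3 true false false .pnn 0 3 3
    ndB6q0 ndB6q3 pcB3 Cut.none Ext.none :=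
  certB0 (fam := true) (s1 := false) (s2 := false) (a := 0) (b := 3) (c := 3) (cn := .pnn) (n1 := ndB6q0) (n2 := ndB6q3) (pc := pcB3) (cut := Cut.none) (xt := Ext.none) (P1 := 0) (W1 := 536870912) (P2 := 0) (W2 := 1230186008) (P3 := 536870912) (W3 := 50465866) (N0 := 3) (En := eng) (mo := mog) (C1 := cd6q0) (C2 := cd6q3) (C3 := pd3)
    rfl k0_mm_033

noncomputable def f_mm_101 : ℕ → ℕ → ℕ → ℕ → Bool := onCell 536870912 536870912 0 536870912 536870912 50465866
    (rowB 3 eng mog cd6q1 cd6q0 pd1 0 true false false .npn 1 0 1 (qsf 536870912 536870912 0 536870912 1) ndB6q1 ndB6q0 pcB1 Cut.none Ext.none)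

def k0_mm_101 : ∃ t, chk3 f_mm_101 t 1 1 1 = true :=
  ⟨(l 4), by decide +kernel⟩

theorem c_mm_101 : CertB 536870912 536870912 0 536870912 536870912 50465866 3 eng mog cd6q1 cd6q0 pd1 true false false .npn 1 0 1
    ndB6q1 ndB6q0 pcB1 Cut.none Ext.none :=
  certB0 (fam := true) (s1 := false) (s2 := false) (a := 1) (b := 0) (c := 1) (cn := .npn) (n1 := ndB6q1) (n2 := ndB6q0) (pc := pcB1) (cut := Cut.none) (xt := Ext.none) (P1 := 536870912) (W1 := 536870912) (P2 := 0) (W2 := 536870912) (P3 := 536870912) (W3 := 50465866) (N0 := 3) (En := eng) (mo := mog) (C1 := cd6q1) (C2 := cd6q0) (C3 := pd1)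
    rfl k0_mm_101

noncomputable def f_mm_102 : ℕ → ℕ → ℕ → ℕ → Bool := onCell 536870912 536870912 0 536870912 536870912 50465866
    (rowB 3 eng mog cd6q1 cd6q0 pd2 0 true false false .npp 1 0 2 (qsf 536870912 536870912 0 536870912 2) ndB6q1 ndB6q0 pcB2 Cut.none Ext.none)

def k0_mm_102 : ∃ t, chk3 f_mm_102 t 1 1 1 = true :=
  ⟨(l 4), by decide +kernel⟩

theorem c_mm_102 : CertB 536870912 536870912 0 536870912 536870912 50465866 3 eng mog cd6q1 cd6q0 pd2 true false false .npp 1 0 2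
    ndB6q1 ndB6q0 pcB2 Cut.none Ext.none :=
  certB0 (fam := true) (s1 := false) (s2 := false) (a := 1) (b := 0) (c := 2) (cn := .npp) (n1 := ndB6q1) (n2 := ndB6q0) (pc := pcB2) (cut := Cut.none) (xt := Ext.none) (P1 := 536870912) (W1 := 536870912) (P2 := 0) (W2 := 536870912) (P3 := 536870912) (W3 := 50465866) (N0 := 3) (En := eng) (mo := mog) (C1 := cd6q1) (C2 := cd6q0) (C3 := pd2)
    rfl k0_mm_102

noncomputable def f_mm_112 : ℕ → ℕ → ℕ → ℕ → Bool := onCell 536870912 536870912 536870912 536870912 536870912 50465866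
    (rowB 3 eng mog cd6q1 cd6q1 pd2 0 true false false .dn 1 1 2 (qsf 536870912 536870912 536870912 536870912 2) ndB6q1 ndB6q1 pcB2 Cut.none Ext.none)

def k0_mm_112 : ∃ t, chk3 f_mm_112 t 1 1 1 = true :=
  ⟨(l 4), by decide +kernel⟩

theorem c_mm_112 : CertB 536870912 536870912 536870912 536870912 536870912 50465866 3 eng mog cd6q1 cd6q1 pd2 true false false .dn 1 1 2
    ndB6q1 ndB6q1 pcB2 Cut.none Ext.none :=
  certB0 (fam := true) (s1 := false) (s2 := false) (a := 1) (b := 1) (c := 2) (cn := .dn) (n1 := ndB6q1) (n2 := ndB6q1) (pc := pcB2) (cut := Cut.none) (xt := Ext.none) (P1 := 536870912) (W1 := 536870912) (P2 := 536870912) (W2 := 536870912) (P3 := 536870912) (W3 := 50465866) (N0 := 3) (En := eng) (mo := mog) (C1 := cd6q1) (C2 := cd6q1) (C3 := pd2)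
    rfl k0_mm_112

noncomputable def f_mm_113 : ℕ → ℕ → ℕ → ℕ → Bool := onCell 536870912 536870912 536870912 536870912 536870912 50465866
    (rowB 3 eng mog cd6q1 cd6q1 pd3 0 true false false .nn 1 1 3 (qsf 536870912 536870912 536870912 536870912 3) ndB6q1 ndB6q1 pcB3 Cut.none Ext.none)

def k0_mm_113 : ∃ t, chk3 f_mm_113 t 1 1 1 = true :=
  ⟨(l 4), by decide +kernel⟩

theorem c_mm_113 : CertB 536870912 536870912 536870912 536870912 536870912 50465866 3 eng mog cd6q1 cd6q1 pd3 true false false .nn 1 1 3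
    ndB6q1 ndB6q1 pcB3 Cut.none Ext.none :=
  certB0 (fam := true) (s1 := false) (s2 := false) (a := 1) (b := 1) (c := 3) (cn := .nn) (n1 := ndB6q1) (n2 := ndB6q1) (pc := pcB3) (cut := Cut.none) (xt := Ext.none) (P1 := 536870912) (W1 := 536870912) (P2 := 536870912) (W2 := 536870912) (P3 := 536870912) (W3 := 50465866) (N0 := 3) (En := eng) (mo := mog) (C1 := cd6q1) (C2 := cd6q1) (C3 := pd3)
    rfl k0_mm_113

noncomputable def f_mm_123 : ℕ → ℕ → ℕ → ℕ → Bool := onCell 536870912 536870912 1073741824 536870912 536870912 50465866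
    (rowB 3 eng mog cd6q1 cd6q2 pd3 0 true false false .npn 1 2 3 (qsf 536870912 536870912 1073741824 536870912 3) ndB6q1 ndB6q2 pcB3 Cut.none Ext.none)

def k0_mm_123 : ∃ t, chk3 f_mm_123 t 1 1 1 = true :=
  ⟨(l 4), by decide +kernel⟩

theorem c_mm_123 : CertB 536870912 536870912 1073741824 536870912 536870912 50465866 3 eng mog cd6q1 cd6q2 pd3 true false false .npn 1 2 3
    ndB6q1 ndB6q2 pcB3 Cut.none Ext.none :=
  certB0 (fam := true) (s1 := false) (s2 := false) (a := 1) (b := 2) (c := 3) (cn := .npn) (n1 := ndB6q1) (n2 := ndB6q2) (pc := pcB3) (cut := Cut.none) (xt := Ext.none) (P1 := 536870912) (W1 := 536870912) (P2 := 1073741824) (W2 := 536870912) (P3 := 536870912) (W3 := 50465866) (N0 := 3) (En := eng) (mo := mog) (C1 := cd6q1) (C2 := cd6q2) (C3 := pd3)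
    rfl k0_mm_123

noncomputable def f_mm_133 : ℕ → ℕ → ℕ → ℕ → Bool := onCell 536870912 536870912 0 1230186008 536870912 50465866
    (rowB 3 eng mog cd6q1 cd6q3 pd3 0 true false false .dn 1 3 3 (qsf 536870912 536870912 0 1230186008 3) ndB6q1 ndB6q3 pcB3 Cut.none Ext.none)

def k0_mm_133 : ∃ t, chk3 f_mm_133 t 1 1 1 = true :=
  ⟨(l 4), by decide +kernel⟩

theorem c_mm_133 : CertB 536870912 536870912 0 1230186008 536870912 50465866 3 eng mog cd6q1 cd6q3 pd3 true false false .dn 1 3 3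
    ndB6q1 ndB6q3 pcB3 Cut.none Ext.none :=
  certB0 (fam := true) (s1 := false) (s2 := false) (a := 1) (b := 3) (c := 3) (cn := .dn) (n1 := ndB6q1) (n2 := ndB6q3) (pc := pcB3) (cut := Cut.none) (xt := Ext.none) (P1 := 536870912) (W1 := 536870912) (P2 := 0) (W2 := 1230186008) (P3 := 536870912) (W3 := 50465866) (N0 := 3) (En := eng) (mo := mog) (C1 := cd6q1) (C2 := cd6q3) (C3 := pd3)
    rfl k0_mm_133

noncomputable def f_mm_202 : ℕ → ℕ → ℕ → ℕ → Bool := onCell 1073741824 536870912 0 536870912 536870912 50465866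
    (rowB 3 eng mog cd6q2 cd6q0 pd2 0 true false false .pp 2 0 2 (qsf 1073741824 536870912 0 536870912 2) ndB6q2 ndB6q0 pcB2 Cut.none Ext.none)

def k0_mm_202 : ∃ t, chk3 f_mm_202 t 1 1 1 = true :=
  ⟨(l 4), by decide +kernel⟩

theorem c_mm_202 : CertB 1073741824 536870912 0 536870912 536870912 50465866 3 eng mog cd6q2 cd6q0 pd2 true false false .pp 2 0 2
    ndB6q2 ndB6q0 pcB2 Cut.none Ext.none :=
  certB0 (fam := true) (s1 := false) (s2 := false) (a := 2) (b := 0) (c := 2) (cn := .pp) (n1 := ndB6q2) (n2 := ndB6q0) (pc := pcB2) (cut := Cut.none) (xt := Ext.none) (P1 := 1073741824) (W1 := 536870912) (P2 := 0) (W2 := 536870912) (P3 := 536870912) (W3 := 50465866) (N0 := 3) (En := eng) (mo := mog) (C1 := cd6q2) (C2 := cd6q0) (C3 := pd2)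
    rfl k0_mm_202

noncomputable def f_mm_203 : ℕ → ℕ → ℕ → ℕ → Bool := onCell 1073741824 536870912 0 536870912 536870912 50465866
    (rowB 3 eng mog cd6q2 cd6q0 pd3 0 true false false .up 2 0 3 (qsf 1073741824 536870912 0 536870912 3) ndB6q2 ndB6q0 pcB3 Cut.none Ext.none)

def k0_mm_203 : ∃ t, chk3 f_mm_203 t 1 1 1 = true :=
  ⟨(l 4), by decide +kernel⟩

theorem c_mm_203 : CertB 1073741824 536870912 0 536870912 536870912 50465866 3 eng mog cd6q2 cd6q0 pd3 true false false .up 2 0 3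
    ndB6q2 ndB6q0 pcB3 Cut.none Ext.none :=
  certB0 (fam := true) (s1 := false) (s2 := false) (a := 2) (b := 0) (c := 3) (cn := .up) (n1 := ndB6q2) (n2 := ndB6q0) (pc := pcB3) (cut := Cut.none) (xt := Ext.none) (P1 := 1073741824) (W1 := 536870912) (P2 := 0) (W2 := 536870912) (P3 := 536870912) (W3 := 50465866) (N0 := 3) (En := eng) (mo := mog) (C1 := cd6q2) (C2 := cd6q0) (C3 := pd3)
    rfl k0_mm_203

noncomputable def f_mm_213 : ℕ → ℕ → ℕ → ℕ → Bool := onCell 1073741824 536870912 536870912 536870912 536870912 50465866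
    (rowB 3 eng mog cd6q2 cd6q1 pd3 0 true false false .pnn 2 1 3 (qsf 1073741824 536870912 536870912 536870912 3) ndB6q2 ndB6q1 pcB3 Cut.none Ext.none)

def k0_mm_213 : ∃ t, chk3 f_mm_213 t 1 1 1 = true :=
  ⟨(l 4), by decide +kernel⟩

theorem c_mm_213 : CertB 1073741824 536870912 536870912 536870912 536870912 50465866 3 eng mog cd6q2 cd6q1 pd3 true false false .pnn 2 1 3
    ndB6q2 ndB6q1 pcB3 Cut.none Ext.none :=
  certB0 (fam := true) (s1 := false) (s2 := false) (a := 2) (b := 1) (c := 3) (cn := .pnn) (n1 := ndB6q2) (n2 := ndB6q1) (pc := pcB3) (cut := Cut.none) (xt := Ext.none) (P1 := 1073741824) (W1 := 536870912) (P2 := 536870912) (W2 := 536870912) (P3 := 536870912) (W3 := 50465866) (N0 := 3) (En := eng) (mo := mog) (C1 := cd6q2) (C2 := cd6q1) (C3 := pd3)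
    rfl k0_mm_213

noncomputable def f_mm_303 : ℕ → ℕ → ℕ → ℕ → Bool := onCell 0 1230186008 0 536870912 536870912 50465866
    (rowB 3 eng mog cd6q3 cd6q0 pd3 0 true false false .npn 3 0 3 (qsf 0 1230186008 0 536870912 3) ndB6q3 ndB6q0 pcB3 Cut.none Ext.none)

def k0_mm_303 : ∃ t, chk3 f_mm_303 t 1 1 1 = true :=
  ⟨(l 4), by decide +kernel⟩

theorem c_mm_303 : CertB 0 1230186008 0 536870912 536870912 50465866 3 eng mog cd6q3 cd6q0 pd3 true false false .npn 3 0 3
    ndB6q3 ndB6q0 pcB3 Cut.none Ext.none :=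
  certB0 (fam := true) (s1 := false) (s2 := false) (a := 3) (b := 0) (c := 3) (cn := .npn) (n1 := ndB6q3) (n2 := ndB6q0) (pc := pcB3) (cut := Cut.none) (xt := Ext.none) (P1 := 0) (W1 := 1230186008) (P2 := 0) (W2 := 536870912) (P3 := 536870912) (W3 := 50465866) (N0 := 3) (En := eng) (mo := mog) (C1 := cd6q3) (C2 := cd6q0) (C3 := pd3)
    rfl k0_mm_303

noncomputable def f_mm_313 : ℕ → ℕ → ℕ → ℕ → Bool := onCell 0 1230186008 536870912 536870912 536870912 50465866
    (rowB 3 eng mog cd6q3 cd6q1 pd3 0 true false false .dn 3 1 3 (qsf 0 1230186008 536870912 536870912 3) ndB6q3 ndB6q1 pcB3 Cut.none Ext.none)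

def k0_mm_313 : ∃ t, chk3 f_mm_313 t 1 1 1 = true :=
  ⟨(l 4), by decide +kernel⟩

theorem c_mm_313 : CertB 0 1230186008 536870912 536870912 536870912 50465866 3 eng mog cd6q3 cd6q1 pd3 true false false .dn 3 1 3
    ndB6q3 ndB6q1 pcB3 Cut.none Ext.none :=
  certB0 (fam := true) (s1 := false) (s2 := false) (a := 3) (b := 1) (c := 3) (cn := .dn) (n1 := ndB6q3) (n2 := ndB6q1) (pc := pcB3) (cut := Cut.none) (xt := Ext.none) (P1 := 0) (W1 := 1230186008) (P2 := 536870912) (W2 := 536870912) (P3 := 536870912) (W3 := 50465866) (N0 := 3) (En := eng) (mo := mog) (C1 := cd6q3) (C2 := cd6q1) (C3 := pd3)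
    rfl k0_mm_313

end Pool.Agent.Strip051.G.I5000_5470.Tab.C.BA66

namespace Pool.Agent.Strip051.G.I5000_5470.Tab.C.BB00

open Pool.Agent.Strip051.PB Pool.Agent.Strip051.PB.T
open Pool.Agent.Strip051.G.I5000_5470.Tab

noncomputable def cut_pp_001 : Cut := Cut.of [[⟨3, 0, 0, 1449551462⟩], [⟨4, 0, 0, 2845415833⟩]]

noncomputable def f_pp_001 : ℕ → ℕ → ℕ → ℕ → Bool := onCell 0 536870912 536870912 536870912 536870912 50465866
    (rowB 3 eng mog cd0q0 cd0q1 pd0 0 false true true .up 0 0 1 (qsf 0 536870912 536870912 536870912 0) ndB0q0 ndB0q1 pcB0 cut_pp_001 Ext.none)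

def k0_pp_001 : ∃ t, chk3 f_pp_001 t 1 1 1 = true :=
  ⟨(l 6), by decide +kernel⟩

theorem c_pp_001 : CertB 0 536870912 536870912 536870912 536870912 50465866 3 eng mog cd0q0 cd0q1 pd0 false true true .up 0 0 1
    ndB0q0 ndB0q1 pcB0 cut_pp_001 Ext.none :=
  certB0 (fam := false) (s1 := true) (s2 := true) (a := 0) (b := 0) (c := 1) (cn := .up) (n1 := ndB0q0) (n2 := ndB0q1) (pc := pcB0) (cut := cut_pp_001) (xt := Ext.none) (P1 := 0) (W1 := 536870912) (P2 := 536870912) (W2 := 536870912) (P3 := 536870912) (W3 := 50465866) (N0 := 3) (En := eng) (mo := mog) (C1 := cd0q0) (C2 := cd0q1) (C3 := pd0)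
    rfl k0_pp_001

noncomputable def cut_pp_011 : Cut := Cut.of [[⟨3, 0, 0, 1449551462⟩], [⟨4, 0, 0, 2845415833⟩], [⟨0, 0, 0, 67108864⟩, ⟨1, 1, 0, 67108864⟩, ⟨2, 1, 0, 67108864⟩]]

noncomputable def f_pp_011 : ℕ → ℕ → ℕ → ℕ → Bool := onCell 0 536870912 536870912 536870912 536870912 50465866
    (rowB 3 eng mog cd0q0 cd0q1 pd1 0 false true true .pnn 0 1 1 (qsf 0 536870912 536870912 536870912 1) ndB0q0 ndB0q1 pcB1 cut_pp_011 Ext.none)

def k0_pp_011 : ∃ t, chk3 f_pp_011 t 1 1 1 = true :=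
  ⟨(l 6), by decide +kernel⟩

theorem c_pp_011 : CertB 0 536870912 536870912 536870912 536870912 50465866 3 eng mog cd0q0 cd0q1 pd1 false true true .pnn 0 1 1
    ndB0q0 ndB0q1 pcB1 cut_pp_011 Ext.none :=
  certB0 (fam := false) (s1 := true) (s2 := true) (a := 0) (b := 1) (c := 1) (cn := .pnn) (n1 := ndB0q0) (n2 := ndB0q1) (pc := pcB1) (cut := cut_pp_011) (xt := Ext.none) (P1 := 0) (W1 := 536870912) (P2 := 536870912) (W2 := 536870912) (P3 := 536870912) (W3 := 50465866) (N0 := 3) (En := eng) (mo := mog) (C1 := cd0q0) (C2 := cd0q1) (C3 := pd1)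
    rfl k0_pp_011

noncomputable def cut_pp_012 : Cut := Cut.of [[⟨3, 0, 0, 1449551462⟩], [⟨4, 0, 0, 2845415833⟩], [⟨0, 0, 0, 67108864⟩, ⟨1, 1, 0, 67108864⟩, ⟨2, 1, 0, 67108864⟩]]

noncomputable def f_pp_012 : ℕ → ℕ → ℕ → ℕ → Bool := onCell 536870912 536870912 0 536870912 536870912 50465866
    (rowB 3 eng mog cd0q0 cd0q2 pd1 2 false true true .pnp 0 1 2 (qsf 0 536870912 0 536870912 1) ndB0q0 ndB0q2 pcB1 cut_pp_012 Ext.none)

def k0_pp_012 : ∃ t, chk3 f_pp_012 t 1 1 1 = true :=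
  ⟨(a (l 6) (b (a (b (a (b (b (a (a (l 6) (l 16642632)) (a (l 16634664) (l 16626888))) (l 6)) (l 6)) (b (a (b (a (l 16618728) (l 16610168)) (a (l 16637448) (l 16628392))) (b (a (l 16601112) (l 16591112)) (a (l 16618608) (l 16607944)))) (a (l 6) (b (a (l 16637648) (l 16626208)) (l 6))))) (l 6)) (b (a (b (a (b (a (l 16580152) (b (l 16564792) (l 16572312))) (a (l 16596288) (l 16584000))) (b (a (b (l 16553072) (l 16560224)) (b (l 16541368) (l 16548120))) (a (l 16571384) (l 16558744)))) (a (b (a (l 16613848) (l 16600864)) (a (l 16633432) (l 16619696))) (b (a (l 16587552) (l 16574216)) (a (l 16605664) (l 16591600))))) (b (a (b (a (l 16533080) (l 16521800)) (a (l 16546352) (l 16534432))) (b (a (l 16511328) (l 16501976)) (a (l 16523360) (l 16513376)))) (a (b (a (l 16561120) (l 16548528)) (a (l 16577776) (l 16564480))) (a (b (l 16536912) (l 16552232)) (l 16528648))))) (a (a (l 6) (b (b (a (l 16624104) (l 16609432)) (l 6)) (l 6))) (b (a (b (a (l 16594952) (l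 16581200)) (a (l 16611792) (l 16597768))) (b (a (l 16568416) (l 16556712)) (a (l 16584800) (l 16593728)))) (a (l 6) (b (a (b (l 16596976) (l 6)) (b (l 16584872) (l 16614152))) (a (l 6) (b (c (l 16602184) (l 16614560)) (l 6))))))))) (l 6))), by decide +kernel⟩

theorem c_pp_012 : CertB 0 536870912 0 536870912 536870912 50465866 3 eng mog cd0q0 cd0q2 pd1 false true true .pnp 0 1 2
    ndB0q0 ndB0q2 pcB1 cut_pp_012 Ext.none :=
  certB2 (fam := false) (s1 := true) (s2 := true) (a := 0) (b := 1) (c := 2) (cn := .pnp) (n1 := ndB0q0) (n2 := ndB0q2) (pc := pcB1) (cut := cut_pp_012) (xt := Ext.none) (P1 := 0) (W1 := 536870912) (P2 := 0) (W2 := 536870912) (P3 := 536870912) (W3 := 50465866) (N0 := 3) (En := eng) (mo := mog) (C1 := cd0q0) (C2 := cd0q2) (C3 := pd1)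
    rfl (fun _ => rfl) k0_pp_012

noncomputable def cut_pp_022 : Cut := Cut.of [[⟨3, 0, 0, 1449551462⟩], [⟨4, 0, 0, 2845415833⟩], [⟨0, 0, 0, 67108864⟩, ⟨1, 1, 0, 67108864⟩, ⟨2, 1, 0, 67108864⟩]]

noncomputable def f_pp_022 : ℕ → ℕ → ℕ → ℕ → Bool := onCell 0 536870912 0 536870912 536870912 50465866
    (rowB 3 eng mog cd0q0 cd0q2 pd2 0 false true true .pp 0 2 2 (qsf 0 536870912 0 536870912 2) ndB0q0 ndB0q2 pcB2 cut_pp_022 Ext.none)

def k0_pp_022 : ∃ t, chk3 f_pp_022 t 1 1 1 = true :=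
  ⟨(a (b (b (a (b (a (b (l 16502672) (l 16528424)) (b (l 16509560) (l 16527600))) (a (a (l 16513496) (l 16503352)) (a (l 16495408) (l 16509208)))) (a (a (b (b (l 16492136) (l 16502704)) (a (l 16520016) (l 16611152))) (b (l 1) (l 1))) (l 1))) (a (b (a (a (a (l 16509616) (l 16517240)) (l 16575816)) (a (l 16586472) (l 16588920))) (a (a (b (a (l 16510960) (l 16520200)) (b (l 16550680) (a (l 16534912) (l 16545304)))) (b (l 16565520) (b (l 16549616) (l 16560632)))) (b (a (l 16581184) (l 16611672)) (a (a (l 16569912) (l 16621280)) (b (l 16623360) (a (l 16594032) (l 6))))))) (a (a (a (b (l 16596584) (b (l 88616933255) (b (l 433824933911) (l 1)))) (b (b (l 16553496) (l 16636464)) (l 1))) (l 1)) (l 1)))) (a (b (a (b (a (a (b (c (l 16614064) (l 16549920)) (b (l 16567384) (l 16578880))) (b (b (l 16556200) (l 16567376)) (b (l 16578856) (l 16590728)))) (b (a (c (l 16614664) (l 16571880)) (b (l 16577064) (l 16588816))) (a (b (l 16590024) (l 16623200)) (b (l 16621856)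 (l 6))))) (a (b (a (b (l 16611832) (l 6)) (l 6)) (l 6)) (l 6))) (b (a (b (b (a (l 16608080) (l 16628256)) (a (c (l 16599592) (l 16598416)) (l 6))) (l 6)) (l 6)) (l 6))) (l 6)) (l 6))) (l 1)), by decide +kernel⟩

theorem c_pp_022 : CertB 0 536870912 0 536870912 536870912 50465866 3 eng mog cd0q0 cd0q2 pd2 false true true .pp 0 2 2
    ndB0q0 ndB0q2 pcB2 cut_pp_022 Ext.none :=
  certB0 (fam := false) (s1 := true) (s2 := true) (a := 0) (b := 2) (c := 2) (cn := .pp) (n1 := ndB0q0) (n2 := ndB0q2) (pc := pcB2) (cut := cut_pp_022) (xt := Ext.none) (P1 := 0) (W1 := 536870912) (P2 := 0) (W2 := 536870912) (P3 := 536870912) (W3 := 50465866) (N0 := 3) (En := eng) (mo := mog) (C1 := cd0q0) (C2 := cd0q2) (C3 := pd2)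
    rfl k0_pp_022

noncomputable def cut_pp_101 : Cut := Cut.of [[⟨3, 0, 0, 1449551462⟩], [⟨4, 0, 0, 2845415833⟩]]

noncomputable def f_pp_101 : ℕ → ℕ → ℕ → ℕ → Bool := onCell 536870912 536870912 536870912 536870912 536870912 50465866
    (rowB 3 eng mog cd0q1 cd0q1 pd0 0 false true true .npn 1 0 1 (qsf 536870912 536870912 536870912 536870912 0) ndB0q1 ndB0q1 pcB0 cut_pp_101 Ext.none)

def k0_pp_101 : ∃ t, chk3 f_pp_101 t 1 1 1 = true :=
  ⟨(l 3), by decide +kernel⟩

theorem c_pp_101 : CertB 536870912 536870912 536870912 536870912 536870912 50465866 3 eng mog cd0q1 cd0q1 pd0 false true true .npn 1 0 1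
    ndB0q1 ndB0q1 pcB0 cut_pp_101 Ext.none :=
  certB0 (fam := false) (s1 := true) (s2 := true) (a := 1) (b := 0) (c := 1) (cn := .npn) (n1 := ndB0q1) (n2 := ndB0q1) (pc := pcB0) (cut := cut_pp_101) (xt := Ext.none) (P1 := 536870912) (W1 := 536870912) (P2 := 536870912) (W2 := 536870912) (P3 := 536870912) (W3 := 50465866) (N0 := 3) (En := eng) (mo := mog) (C1 := cd0q1) (C2 := cd0q1) (C3 := pd0)
    rfl k0_pp_101

noncomputable def cut_pp_102 : Cut := Cut.of [[⟨3, 0, 0, 1449551462⟩], [⟨4, 0, 0, 2845415833⟩]]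

noncomputable def f_pp_102 : ℕ → ℕ → ℕ → ℕ → Bool := onCell 536870912 536870912 0 536870912 536870912 50465866
    (rowB 3 eng mog cd0q1 cd0q2 pd0 0 false true true .npp 1 0 2 (qsf 536870912 536870912 0 536870912 0) ndB0q1 ndB0q2 pcB0 cut_pp_102 Ext.none)

def k0_pp_102 : ∃ t, chk3 f_pp_102 t 1 1 1 = true :=
  ⟨(a (l 6) (l 3)), by decide +kernel⟩

theorem c_pp_102 : CertB 536870912 536870912 0 536870912 536870912 50465866 3 eng mog cd0q1 cd0q2 pd0 false true true .npp 1 0 2
    ndB0q1 ndB0q2 pcB0 cut_pp_102 Ext.none :=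
  certB0 (fam := false) (s1 := true) (s2 := true) (a := 1) (b := 0) (c := 2) (cn := .npp) (n1 := ndB0q1) (n2 := ndB0q2) (pc := pcB0) (cut := cut_pp_102) (xt := Ext.none) (P1 := 536870912) (W1 := 536870912) (P2 := 0) (W2 := 536870912) (P3 := 536870912) (W3 := 50465866) (N0 := 3) (En := eng) (mo := mog) (C1 := cd0q1) (C2 := cd0q2) (C3 := pd0)
    rfl k0_pp_102

noncomputable def cut_pp_112 : Cut := Cut.of [[⟨3, 0, 0, 1449551462⟩], [⟨4, 0, 0, 2845415833⟩]]

noncomputable def f_pp_112 : ℕ → ℕ → ℕ → ℕ → Bool := onCell 536870912 536870912 0 536870912 536870912 50465866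
    (rowB 3 eng mog cd0q1 cd0q2 pd1 0 false true true .dn 1 1 2 (qsf 536870912 536870912 0 536870912 1) ndB0q1 ndB0q2 pcB1 cut_pp_112 Ext.none)

def k0_pp_112 : ∃ t, chk3 f_pp_112 t 1 1 1 = true :=
  ⟨(a (l 6) (l 1)), by decide +kernel⟩

theorem c_pp_112 : CertB 536870912 536870912 0 536870912 536870912 50465866 3 eng mog cd0q1 cd0q2 pd1 false true true .dn 1 1 2
    ndB0q1 ndB0q2 pcB1 cut_pp_112 Ext.none :=
  certB0 (fam := false) (s1 := true) (s2 := true) (a := 1) (b := 1) (c := 2) (cn := .dn) (n1 := ndB0q1) (n2 := ndB0q2) (pc := pcB1) (cut := cut_pp_112) (xt := Ext.none) (P1 := 536870912) (W1 := 536870912) (P2 := 0) (W2 := 536870912) (P3 := 536870912) (W3 := 50465866) (N0 := 3) (En := eng) (mo := mog) (C1 := cd0q1) (C2 := cd0q2) (C3 := pd1)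
    rfl k0_pp_112

noncomputable def cut_pp_202 : Cut := Cut.of [[⟨3, 0, 0, 1449551462⟩], [⟨4, 0, 0, 2845415833⟩]]

noncomputable def f_pp_202 : ℕ → ℕ → ℕ → ℕ → Bool := onCell 0 536870912 0 536870912 536870912 50465866
    (rowB 3 eng mog cd0q2 cd0q2 pd0 0 false true true .pp 2 0 2 (qsf 0 536870912 0 536870912 0) ndB0q2 ndB0q2 pcB0 cut_pp_202 Ext.none)

def k0_pp_202 : ∃ t, chk3 f_pp_202 t 1 1 1 = true :=
  ⟨(l 3), by decide +kernel⟩

theorem c_pp_202 : CertB 0 536870912 0 536870912 536870912 50465866 3 eng mog cd0q2 cd0q2 pd0 false true true .pp 2 0 2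
    ndB0q2 ndB0q2 pcB0 cut_pp_202 Ext.none :=
  certB0 (fam := false) (s1 := true) (s2 := true) (a := 2) (b := 0) (c := 2) (cn := .pp) (n1 := ndB0q2) (n2 := ndB0q2) (pc := pcB0) (cut := cut_pp_202) (xt := Ext.none) (P1 := 0) (W1 := 536870912) (P2 := 0) (W2 := 536870912) (P3 := 536870912) (W3 := 50465866) (N0 := 3) (En := eng) (mo := mog) (C1 := cd0q2) (C2 := cd0q2) (C3 := pd0)
    rfl k0_pp_202

noncomputable def cut_pm_001 : Cut := Cut.of [[⟨3, 0, 0, 1449551462⟩], [⟨4, 0, 0, 2845415833⟩], [⟨0, 0, 1, 20971520⟩, ⟨1, 1, 2, 20971520⟩, ⟨2, 1, 0, 33554432⟩]]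

noncomputable def xt_pm_001 : Ext := extD2 3 ⟨7, 3, 3, 10, 1741, 1000, 23, 25, 19, 50, 3, 16⟩ eng cd0q0 cd0q1 pd0 false true false .up 0 0 1 rfl ndB0q0 ndB0q1 pcB0

noncomputable def f_pm_001 : ℕ → ℕ → ℕ → ℕ → Bool := onCell 0 536870912 536870912 536870912 536870912 50465866
    (rowB 3 eng mog cd0q0 cd0q1 pd0 2 false true false .up 0 0 1 (qsf 0 536870912 536870912 536870912 0) ndB0q0 ndB0q1 pcB0 cut_pm_001 xt_pm_001)

def k0_pm_001 : ∃ t, chk3 f_pm_001 t 2 1 1 = true :=
  ⟨(b (b (l 14) (a (b (a (l 2) (l 14)) (l 2)) (a (b (l 14) (b (l 14) (l 2))) (l 14)))) (a (l 2) (b (b (a (l 2) (a (l 2) (b (b (l 14) (l 2)) (l 2)))) (l 2)) (l 2)))), by decide +kernel⟩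

def k1_pm_001 : ∃ t, chk3 f_pm_001 t 3 2 1 = true :=
  ⟨(l 14), by decide +kernel⟩

def k2_pm_001 : ∃ t, chk3 f_pm_001 t 6 3 1 = true :=
  ⟨(b (b (a (b (l 14) (b (a (b (l 14) (l 2)) (l 14)) (a (l 2) (a (b (l 16783944) (l 2)) (b (l 14) (l 16782232)))))) (l 14)) (a (b (a (l 2) (b (a (l 2) (a (l 2) (l 16784208))) (l 2))) (l 2)) (b (a (b (a (b (l 16768016) (l 16770840)) (b (l 14) (l 16753912))) (a (b (l 16816272) (l 2)) (b (l 16756208) (l 16755280)))) (b (l 14) (a (b (l 16740440) (a (l 16743408) (l 16736992))) (b (l 14) (l 16707368))))) (a (b (a (l 2) (b (l 16758184) (l 2))) (l 2)) (b (a (l 16761184) (a (l 16727560) (l 16699056))) (a (b (l 16742216) (l 2)) (b (l 16724056) (l 16724784)))))))) (b (a (l 2) (a (l 2) (a (l 2) (b (b (a (l 2) (l 16743592)) (l 2)) (l 2))))) (l 2))), by decide +kernel⟩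

def k3_pm_001 : ∃ t, chk3 f_pm_001 t 7 6 1 = true :=
  ⟨(b (l 14) (a (b (l 14) (a (b (a (b (l 16693992) (l 16711936)) (b (l 16708192) (l 16701792))) (a (c (l 16744632) (l 16674360)) (a (l 16700288) (l 16674384)))) (b (a (b (l 14) (l 16697272)) (l 14)) (a (c (l 16684912) (l 16673744)) (b (a (l 16687672) (l 14)) (l 16681904)))))) (b (l 14) (a (b (l 14) (a (b (l 14) (a (l 16686552) (l 16691080))) (l 14))) (l 14))))), by decide +kernel⟩

def k4_pm_001 : ∃ t, chk3 f_pm_001 t 14 7 1 = true :=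
  ⟨(b (a (b (b (a (a (l 16713016) (l 16725304)) (c (a (l 16713336) (l 16707512)) (l 16655736))) (a (b (c (l 16727432) (l 16694704)) (l 2)) (a (b (l 16696648) (l 16698160)) (b (l 16688392) (l 143249837884063791))))) (a (l 2) (b (a (l 2) (b (l 143240629477670959) (l 2))) (l 2)))) (b (b (a (b (l 16662592) (l 16659536)) (b (l 16676704) (b (l 16673176) (l 16671040)))) (a (a (b (l 16681208) (l 143158853279858735)) (b (l 16675224) (a (l 16675016) (l 143058247947829295)))) (a (b (l 16649200) (c (l 143166137561808943) (l 16645680))) (b (l 16666120) (b (l 16663304) (l 142743718882148399)))))) (b (a (b (a (l 143137619005734959) (l 143043404585992239)) (a (c (l 143284884849082415) (l 142961697062780975)) (c (l 143185997504626735) (l 142845698564423727)))) (a (b (c (l 143127173616549935) (l 142783713579483183)) (c (l 143095562657988655) (l 142738839758635055))) (b (a (l 142720972734021679) (l 142691973109383215)) (a (c (l 143033989996920879) (l 142665447344472111))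 (l 142641532987801647))))) (b (a (a (l 2) (b (l 143004853006942255) (l 2))) (c (a (b (l 143076802243051567) (l 143067044079714351)) (a (a (l 143011724889915439) (l 142989116178399279)) (l 142966163910311983))) (a (l 142702899429769263) (c (l 142517356848955439) (l 142498871303602223))))) (a (l 2) (a (a (l 2) (b (l 142844255569707055) (l 2))) (c (a (b (l 142980594968084527) (l 142970080955449391)) (b (l 142942524369371183) (l 142929536390529071))) (a (l 142580441319325743) (l 142536804431282223))))))))) (a (l 2) (b (b (a (l 2) (b (b (a (l 2) (a (l 2) (a (l 2) (c (l 142910020059529263) (l 142501894979715119))))) (l 2)) (l 2))) (l 2)) (l 2)))), by decide +kernel⟩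

def k5_pm_001 : ∃ t, chk3 f_pm_001 t 15 28 1 = true :=
  ⟨(a (a (b (a (c (l 16690040) (l 16662792)) (b (l 16682664) (l 16674672))) (a (b (l 142950083477274671) (c (l 143067662534524975) (l 142722278369099823))) (b (c (l 16670512) (l 16663904)) (c (l 143028148827127855) (l 142738083830808623))))) (a (b (c (l 16690752) (l 16671576)) (b (c (l 16679720) (l 16652704)) (c (l 142959910379241519) (l 142721178858602543)))) (b (b (l 16678936) (l 16670504)) (a (b (l 16684112) (l 142781033545531439)) (b (l 16682456) (l 142760898735177775)))))) (b (b (l 14) (a (a (l 16667808) (l 16666048)) (a (l 16665000) (l 14)))) (a (b (a (c (l 16672224) (l 16647000)) (c (l 142881295291187247) (l 16645400))) (a (c (l 142832160855687215) (l 142638578034671663)) (c (l 142803985864540207) (l 142608204022136879)))) (b (a (c (l 142857312190169135) (l 16644528)) (c (l 142838895368110127) (l 16644264))) (a (c (l 142780071481901103) (l 142582502935085103)) (c (l 142761929536602159) (a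 (l 16634376) (l 16634128)))))))), by decide +kernel⟩

def k6_pm_001 : ∃ t, chk3 f_pm_001 t 30 29 1 = true :=
  ⟨(a (a (a (b (b (l 142666753056210991) (l 142616450351087663)) (b (c (l 142938126313078831) (l 142550342205653039)) (c (l 142903560503853103) (l 142503131921678383)))) (b (b (l 142641464283742255) (l 142589031316553775)) (b (c (l 142909745161519151) (l 142520311792681007)) (c (l 142870437620940847) (l 142468497300553775))))) (a (b (b (l 142795464588329007) (c (l 142929536324468783) (l 142581265978294319))) (b (c (l 142881363967279151) (l 142508079724658735)) (c (l 142836764982231087) (l 142433106767118383)))) (b (a (b (l 142775535983689775) (l 142717536690044975)) (b (l 142762204362752047) (b (l 142716505943900207) (l 142687781153554479)))) (b (b (c (l 142863565616513071) (l 142530688434356271)) (c (l 142838689163640879) (l 142494885581340719))) (a (c (l 142811063891066927) (l 142434481154687023)) (b (c (l 142805841292804143) (l 142457708338905135))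 (c (l 142781926870745135) (l 142417095123664943)))))))) (b (b (a (c (l 142898543873622063) (c (l 142687575034052655) (l 142594528832323631))) (c (l 142799793976246319) (l 142598514569232431))) (b (a (c (l 142855181875331119) (l 142583808598163503)) (c (l 142755744782368815) (l 142542714342965295))) (a (c (l 142827694081327151) (l 142547043671359535)) (c (l 142728119546888239) (l 142507117647052847))))) (c (b (a (a (c (l 142909470242455599) (l 142712451493969967)) (l 142764540872376367)) (a (l 142714787962585135) (l 142663110911377455))) (a (a (a (l 142773611809538095) (l 142751346693603375)) (a (l 142728050785370159) (l 142704067682336815))) (a (c (l 142770931751551023) (l 142560375271718959)) (c (l 142722896868851759) (l 142518318947303471))))) (a (b (a (c (l 142546974960943151) (l 142458326803497007)) (c (l 142529520209330223) (l 142438535589920815))) (a (c (l 142474682060963887) (l 142387958069559343)) (c (l 142461487916449839) (l 142372839758495791))))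 (a (b (l 142465542398984239) (c (l 142445476273651759) (l 142354491653767215))) (b (l 142446781934780463) (c (l 142429189753241647) (l 142336006110347311)))))))), by decide +kernel⟩

def k7_pm_001 : ∃ t, chk3 f_pm_001 t 31 29 1 = true :=
  ⟨(c (b (a (b (a (l 142755195027963951) (l 142726882596814895)) (a (b (l 142699119925215279) (l 142662836035371055)) (c (l 142703449256443951) (l 142602637754171439)))) (b (a (l 142703036932571183) (l 142682558523457583)) (a (l 142626346024075311) (l 142603462388695087)))) (a (b (a (a (l 142617000137949231) (l 142603118799274031)) (a (l 142588962582659119) (l 142574462768562223))) (a (a (c (l 142671838286397487) (l 142504094010933295)) (c (l 142618305809104943) (l 142489388038291503))) (a (c (l 142568965219680303) (l 142473857431797807)) (c (l 142555221318893615) (l 142457433471893551))))) (b (a (a (l 142559894234955823) (l 142545531859812399)) (c (l 142578311057981487) (l 142472345596248111))) (a (a (c (l 142540584064696367)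 (l 142440459756027951)) (c (l 142525397054537775) (l 142423211162173487))) (a (a (l 142461625360678959) (l 142453241581731887)) (l 142440872114716719)))))) (b (a (b (a (l 142561268606566447) (l 142529588922875951)) (a (c (l 142536392155627567) (l 142440116138819631)) (l 142455097036570671))) (a (b (l 142503612956950575) (l 142425547613356079)) (b (a (l 142486914121941039) (l 142477636991533103)) (a (l 142406649753976879) (l 142395379757891631))))) (a (b (a (a (l 142428571269562415) (l 142410910360387631)) (c (l 142433931394891823) (l 142336074829856815))) (a (a (c (l 142412216038080559) (l 142317245689102383)) (c (l 142395104884080687) (l 142298622706974767))) (a (a (l 142333394774933551) (l 142324186362937391)) (l 142310236348923951)))) (b (a (c (l 142401014758113327) (l 142302745877315631)) (a (l 142328309532344367) (l 142314015878266927))) (a (a (l 142291475884556335) (l 142272784182640687)) (a (l 142254436078157871) (l 142236569010110511))))))),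 by decide +kernel⟩

def k8_pm_001 : ∃ t, chk3 f_pm_001 t 30 60 1 = true :=
  ⟨(a (b (a (a (c (a (l 142887136513146927) (l 142868513486651439)) (l 142466298241269807)) (c (l 142840063636684847) (l 142427196891627567))) (a (c (l 142800962136195119) (l 142386583676207151)) (a (c (l 142770862997159983) (l 142360401552244783)) (b (c (l 142760280192155695) (l 142378818371403823)) (c (l 142740901299978287) (l 142343084240568367)))))) (a (a (l 2) (b (b (c (l 142825357650477103) (l 142406306172583983)) (l 2)) (l 2))) (a (b (a (c (l 142792647171833903) (l 142371740269527087)) (c (l 142770588127772719) (l 142348925400252463))) (c (l 142774573948256303) (l 142348032047595567))) (a (b (c (l 142748048133193775) (l 142325560775180335)) (c (l 142738564932861999) (l 142310786086273071))) (b (a (c (l 142730662143770671) (l 142311404560711727)) (c (l 142718911067111471) (l 142310236328116271))) (c (l 142714100706754607) (l 142285428596146223))))))) (b (a (c (a (b (l 142727982072578095)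 (l 142707709783867439)) (b (l 142682146169864239) (l 142661324167921711))) (a (b (l 142375107515924527) (l 142338892348358703)) (b (l 142366723734454319) (l 142330783444402223)))) (c (a (b (l 142634042524319791) (l 142613151802425391)) (b (l 142582296789696559) (l 142562368139624495))) (a (b (l 142355041418477615) (l 142322124784959535)) (b (l 142338548739358767) (l 142310167590961199))))) (a (b (a (c (c (l 142793884121628719) (l 142585457851269167)) (c (l 142371740273229871) (l 142261651636830255))) (c (l 142642907348434991) (l 142297042199887919))) (a (a (c (l 142689567890030639) (l 142279449998278703)) (c (l 142664966267879471) (l 142273883727872047))) (a (b (c (l 142642769870143535) (l 142275189384380463)) (l 142422042920943663)) (b (c (l 142618237053468719) (l 142270653917265967)) (l 142394967463182383))))) (a (c (b (l 142593979068268591) (b (b (l 142583671147200559) (l 142579685460541487)) (l 142575012536483887))) (b (l 142288383561465903) (b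 (b (l 142268935947976751) (l 142260895725469743)) (l 142250312925184047)))) (c (b (l 142542989225033775) (b (a (l 142542783064637487) (l 142516738381709359)) (l 142521754928496687))) (b (l 142279106426568751) (b (c (l 142299584829095983) (l 142209493534490671)) (l 142239455241732143)))))))), by decide +kernel⟩

def k9_pm_001 : ∃ t, chk3 f_pm_001 t 30 61 1 = true :=
  ⟨(b (b (a (a (l 2) (a (l 2) (a (l 2) (c (l 142710802217189423) (l 142276701222109231))))) (a (a (c (l 142672525415858223) (l 142256085373681711)) (c (l 142620642197700655) (l 142243097385500719))) (c (c (l 142650329041059887) (l 142427540483850287)) (c (l 142268661059502127) (l 142177539020390447))))) (a (l 2) (a (a (c (l 142669914121551919) (l 142237668553850927)) (c (l 142615144684994607) (l 142221519469183023))) (c (c (l 142642013964976175) (l 142416339189448751)) (c (l 142243509708374063) (l 142150875818836015)))))) (a (l 2) (a (a (l 2) (a (l 2) (b (l 142371327935676463) (l 2)))) (b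 (c (c (l 142636516409737263) (l 142408024135401519)) (c (l 142221107158646831) (l 142126892720685103))) (c (l 142158503726055471) (a (l 142164757174419503) (l 142143660287082543))))))), by decide +kernel⟩

def k10_pm_001 : ∃ t, chk3 f_pm_001 t 62 60 1 = true :=
  ⟨(a (c (b (a (b (l 142528008398077999) (l 142507736148115503)) (b (l 142487120304373807) (l 142456059096399919))) (b (a (l 142489181880221743) (c (l 142545531869216815) (l 142383353869156399))) (b (a (c (l 142588000476086319) (l 142375519852003375)) (c (l 142533231082569775) (l 142363700096204847))) (a (l 142466641894342703) (l 142408848807182383))))) (b (a (b (l 142320887829332015) (l 142293331314343983)) (b (l 142302745883000879) (l 142275120691265583))) (b (a (l 142266462037622831) (c (l 142294911869468719) (l 142201522067669039))) (b (a (c (l 142290582545186863) (l 142199666644041775)) (c (l 142276701205381167) (l 142184136037105711))) (a (l 142228597558558767) (l 142215815730249775))))))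 (a (b (b (c (l 142473032806285359) (l 142283779302817839)) (c (l 142442040338989103) (l 142255741750968367))) (b (c (c (l 142487120306356271) (l 142367754542235695)) (c (l 142276288885899311) (l 142180906219651119))) (b (c (c (l 142472964091019311) (l 142346520220696623)) (l 142209699693215791)) (c (c (c (l 142521205173567535) (l 142404107164942383)) (l 142331195775221807)) (c (l 142242066580881455) (l 142148058303873071)))))) (b (b (c (l 142457364759855151) (l 142263988088717359)) (c (l 142426028705546287) (l 142235125902770223))) (b (c (c (l 142440872091828271) (l 142349750033088559)) (l 142207638149742639)) (c (b (l 142373458297618479) (b (c (l 142406237470638127) (l 142317864190804015)) (l 142354560406896687))) (b (l 142187846893797423) (c (l 142221107155746863) (l 142125312151339055)))))))), by decide +kernel⟩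

def k11_pm_001 : ∃ t, chk3 f_pm_001 t 63 60 1 = true :=
  ⟨(b (c (a (a (b (l 142440391043055663) (a (l 142412903248445487) (l 142403763554713647))) (b (l 142422455253368879) (l 142389401221906479))) (a (b (l 142403832268734511) (l 142369403804205103)) (c (l 142418950558236719) (l 142315321557778479)))) (a (a (c (l 142278006869573679) (l 142179325669900335)) (c (l 142256978704121903) (l 142157747749273647))) (a (l 142185716629143599) (l 142164001226244143)))) (c (a (b (a (c (l 142424241971232815) (l 142329958817120303)) (c (l 142405756424339503) (l 142308724491812911))) (b (a (c (l 142400602467532847) (l 142307968580747311)) (c (l 142381429725446191) (l 142285840901832751))) (a (b (c (l 142389607349649455) (l 142297798096535599)) (l 142335318977953839)) (b (l 142322193561665583) (c (l 142360813879197743) (l 142266530725560367)))))) (a (b (c (l 142385690329104431) (l 142286184496185391)) (b (l 142311267158769711) (c (c (l 142368922777272367) (l 142320475530739759))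 (l 142247495423393839)))) (b (c (l 142364318563516463) (l 142262682427654191)) (c (c (l 142355041435123759) (l 142304876202115119)) (l 142229971950092335))))) (a (a (b (l 142185098112614447) (b (l 142164413546070063) (a (l 142156510848253999) (l 142144622375600175)))) (b (l 142161527326081071) (b (l 142139811966992431) (a (l 142132458982031407) (l 142119883314446383))))) (a (b (l 142137338064125999) (a (l 142115004229877807) (l 142101466489454639))) (c (l 142147164954492975) (l 142048002720153647)))))), by decide +kernel⟩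

def k12_pm_001 : ∃ t, chk3 f_pm_001 t 31 61 1 = true :=
  ⟨(a (a (b (a (b (c (l 142454409828007983) (l 142204683178557487)) (c (l 142440391013187631) (l 142174927643050031))) (b (c (l 142395173629444143) (l 142191901349969967)) (c (l 142378543514288175) (l 142160084229734447)))) (a (c (c (l 142542233267683375) (l 142306937808879663)) (c (l 142182280643067951) (l 142087516449718319))) (c (c (l 142478118023970863) (l 142253405328916527)) (c (l 142163795096633391) (l 142069168342646831))))) (b (b (a (c (c (l 142450011782021167) (l 142309686577070127)) (l 142175477389131823)) (c (c (l 142384865710833711) (l 142290994872582191)) (l 142153487150432303))) (a (c (l 142320612988321839) (l 142144691060637743)) (c (l 142303845450268719) (l 142125655759224879)))) (c (a (c (l 142411528835498031) (l 142234782343200815)) (b (l 142273059101491247) (l 142243922042568751))) (a (c (l 142145378269773871) (l 142050957674643503)) (b (l 142095487906496559) (l 142064701579362351))))))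 (a (a (b (b (c (c (l 142359920533061679) (l 142270241583415343)) (l 142129366607691823)) (c (l 142283848085766191) (l 142101466496892975))) (b (c (l 142253611481907247) (l 142074322300960815)) (c (l 142223443630456879) (l 142044910363000879)))) (b (b (c (c (l 142340266754293807) (l 142247426709372975)) (l 142103871675039791)) (c (l 142262270172905519) (l 142075490527952943))) (b (c (l 142231277644054575) (l 142048346331922479)) (c (l 142201865706749999) (l 142022095489744943))))) (b (b (a (c (c (l 142318413951664175) (l 142222756408967215)) (l 142077071072002095)) (c (c (l 142293949808197679) (l 142195955804176431)) (l 142048621201080367))) (a (c (l 142238630664454191) (l 142048277608103983)) (c (l 142213341888086063) (l 142020102615302191)))) (c (b (a (l 142207638135832623) (l 142182280640200751)) (a (l 142177676442730543) (l 142152387666837551))) (a (c (l 142054943409586223) (l 141959560743895087)) (l 141979420724477999)))))), by decide +kernel⟩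

def k13_pm_001 : ∃ t, chk3 f_pm_001 t 15 62 1 = true :=
  ⟨(a (b (a (l 2) (a (l 2) (a (l 2) (c (l 142124006558859311) (l 142116378667483183))))) (l 2)) (a (a (b (a (c (l 142234507483430959) (l 142091983255683119)) (c (a (l 142181181146955823) (l 142145034694180911)) (l 142068687363964975))) (b (a (l 2) (c (l 142158984802828335) (l 142039206670614575))) (l 2))) (b (c (b (c (l 142179875476127791) (l 142185166876999727)) (c (l 142172385057554479) (l 142162214572867631))) (a (l 142045941212151855) (l 142023332496670767))) (b (a (c (l 142261514202480687) (l 142013024541638703)) (c (l 142181318602719279) (l 141987323449147439))) (a (c (l 142080094811684911) (l 141994745163268143)) (c (l 141997494005661743) (l 141966982486097967)))))) (a (b (c (a (c (l 142241379431170095) (l 142138506340302895)) (b (l 142172522489659439) (l 142144897260486703))) (a (l 142001067378671663) (b (l 141993576905572399) (l 141964577285963823)))) (b (c (a (l 142146546538381359) (l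 142120158250336303)) (a (l 141962309551570991) (l 141937982848942127))) (a (c (l 142126892770869295) (l 141940113162305583)) (c (l 142098442898210863) (l 141914068472447023))))) (b (c (a (b (l 142149226578772015) (l 142120914154520623)) (b (l 142123525486067759) (l 142096312573427759))) (a (b (l 141969456362061871) (l 141942106009616431)) (b (l 141941212649947183) (l 141917160832286767)))) (b (c (a (l 142094525876682799) (l 142069443258974255)) (a (l 141914274621751343) (l 141981138665095215))) (a (c (l 142070886378913839) (l 141888985855475759)) (c (l 142044360651980847) (l 141864727872438319)))))))), by decide +kernel⟩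

def k14_pm_001 : ∃ t, chk3 f_pm_001 t 15 63 1 = true :=
  ⟨(a (l 2) (a (b (b (a (l 2) (a (l 2) (a (l 2) (c (l 142155617523433519) (l 141942106036338735))))) (l 2)) (l 2)) (b (a (c (b (a (c (l 22) (l 142064495471886383)) (c (l 142133833450045487) (l 142034602490167343))) (c (l 22) (a (l 142050407983857711) (l 142018453417508911)))) (b (a (l 141920596833599535) (l 141892902876004399)) (a (c (l 141953788362899503) (l 141853320451244079)) (c (l 141923551784042543) (l 141824801859911727))))) (c (b (a (c (l 142094113582809135) (l 142005877739798575)) (c (l 142065320112603183) (l 141978321220763695))) (c (c (l 22) (a (l 142055561952198703) (l 142025325372899375))) (a (l 141987941960450095) (l 141958804893220911)))) (b (a (l 141866377149743151) (l 141840882215911471)) (a (c (l 141894620875554863) (l 141797588938915887)) (c (l 141867064356880431) (l 141771612968796207)))))) (a (a (l 2) (b (b (c (c (l 22) (l 142008420377886767)) (c (l 141912144354377775) (l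 141812226198601775))) (l 2)) (l 2))) (b (b (c (a (c (l 22) (l 141976534531096623)) (c (l 142035427148824623) (l 141946229232582703))) (a (l 141923551760498735) (c (l 141853457903566895) (l 141757113161760815)))) (c (c (l 22) (a (c (l 141993233375936559) (l 141946504113553455)) (l 141983887530082351))) (a (c (l 141874692233084975) (l 141775804869673007)) (c (l 141845417727197231) (l 141748385790263343))))) (a (a (l 2) (b (b (c (c (l 22) (l 141957499238875183)) (l 141812982124527663)) (l 2)) (l 2))) (c (c (l 22) (b (b (l 141933859753279535) (a (l 141938670099136559) (l 141923070773231663))) (a (c (l 22) (b (l 141912419251568687) (l 2))) (c (b (l 141943136871186479) (l 22)) (b (l 141896819925712943) (b (l 141894689623195695) (a (l 2) (b (l 141889810539839535) (a (l 2) (l 141887199199592495)))))))))) (b (c (a (l 141845417732079663) (l 141830849198637103)) (a (l 141747217563500591) (l 141733611103043631))) (b (a (c (c (l 141864727916396591) (l 141816211947520047))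 (l 141741720007278639)) (c (c (l 141849678346518575) (l 141801643414126639)) (l 141727907388342319))) (a (l 2) (a (b (c (l 141827069631840303) (l 141728663304618031)) (l 2)) (c (c (c (l 141854763592826927) (l 141830917925290031)) (l 141794771466862639)) (l 141720966721519663))))))))))))), by decide +kernel⟩

theorem s15_pm_001 : ∃ t, chk3 f_pm_001 t 15 31 1 = true := ex3_b k13_pm_001 k14_pm_001

theorem s16_pm_001 : ∃ t, chk3 f_pm_001 t 31 60 1 = true := ex3_a k10_pm_001 k11_pm_001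

theorem s17_pm_001 : ∃ t, chk3 f_pm_001 t 31 30 1 = true := ex3_b s16_pm_001 k12_pm_001

theorem s18_pm_001 : ∃ t, chk3 f_pm_001 t 30 30 1 = true := ex3_b k8_pm_001 k9_pm_001

theorem s19_pm_001 : ∃ t, chk3 f_pm_001 t 15 30 1 = true := ex3_a s18_pm_001 s17_pm_001

theorem s20_pm_001 : ∃ t, chk3 f_pm_001 t 15 15 1 = true := ex3_b s19_pm_001 s15_pm_001

theorem s21_pm_001 : ∃ t, chk3 f_pm_001 t 15 29 1 = true := ex3_a k6_pm_001 k7_pm_001

theorem s22_pm_001 : ∃ t, chk3 f_pm_001 t 15 14 1 = true := ex3_b k5_pm_001 s21_pm_001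

theorem s23_pm_001 : ∃ t, chk3 f_pm_001 t 15 7 1 = true := ex3_b s22_pm_001 s20_pm_001

theorem s24_pm_001 : ∃ t, chk3 f_pm_001 t 7 7 1 = true := ex3_a k4_pm_001 s23_pm_001

theorem s25_pm_001 : ∃ t, chk3 f_pm_001 t 7 3 1 = true := ex3_b k3_pm_001 s24_pm_001

theorem s26_pm_001 : ∃ t, chk3 f_pm_001 t 3 3 1 = true := ex3_a k2_pm_001 s25_pm_001

theorem s27_pm_001 : ∃ t, chk3 f_pm_001 t 3 1 1 = true := ex3_b k1_pm_001 s26_pm_001

theorem s28_pm_001 : ∃ t, chk3 f_pm_001 t 1 1 1 = true := ex3_a k0_pm_001 s27_pm_001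

theorem c_pm_001 : CertB 0 536870912 536870912 536870912 536870912 50465866 3 eng mog cd0q0 cd0q1 pd0 false true false .up 0 0 1
    ndB0q0 ndB0q1 pcB0 cut_pm_001 xt_pm_001 :=
  certB2 (fam := false) (s1 := true) (s2 := false) (a := 0) (b := 0) (c := 1) (cn := .up) (n1 := ndB0q0) (n2 := ndB0q1) (pc := pcB0) (cut := cut_pm_001) (xt := xt_pm_001) (P1 := 0) (W1 := 536870912) (P2 := 536870912) (W2 := 536870912) (P3 := 536870912) (W3 := 50465866) (N0 := 3) (En := eng) (mo := mog) (C1 := cd0q0) (C2 := cd0q1) (C3 := pd0)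
    rfl (fun _ => rfl) s28_pm_001

end Pool.Agent.Strip051.G.I5000_5470.Tab.C.BB00

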