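import Pool.Agent.Strip051.G.I5000_5470.CrnB
import Pool.Agent.Strip051.G.I5000_5470.CG_1
import Pool.Agent.Strip051.G.I5000_5470.CW_1

/-! # Aligned corners: the alternatives (generated) -/

set_option linter.all false

namespace Pool.Agent.Strip051.G.I5000_5470.Tab

open Pool.Agent.Strip051.PB Pool.Agent.StripNear Pool.Agent.Strip051.LC

theorem altB_B012E_30 {κ x : ℝ} (hκ : κ * h0 = ken x) (hx : ((536870912 : ℕ) : ℝ) / S ≤ x) (hx' : x ≤ (((536870912 : ℕ) : ℝ) + (50465866 : ℕ)) / S) :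
    AltEB 3 κ (eng.v x) (3 / 40) (tnt (h0 * x) (3 / 10)) PP tK tL tC pcB (scP esg pd) [⟨0, 0, 0, 44739242⟩, ⟨1, 1, 0, 44739242⟩, ⟨2, 1, 0, 44739242⟩] 0 1 2 3 0 (sgb true) (sgb true) x := by
  have X : XR 44739242 x := XR.of hx hx' (by norm_num) (by norm_num) (by norm_num) (by norm_num)
  have hen : 0 < eng.v x := en_pos X.x0.le
  refine CornW.altB (C := cB012E) (j := (3 : Fin 7)) (k := (0 : Fin 7)) (Ef := esg) (pd := pd) (o := 3 / 40)
    (cornW_of (C := cB012E) (C0 := c0B) (En := eng) (mo := mog) (j := (3 : Fin 7)) (k := (0 : Fin 7)) (lo := 0) (hi := 0) (W := 44739242) (N0 := 3) cB012E_q (sideB hx hx') gokB (pinU hx hx') dokB X (by norm_num) (by norm_num) (l := (0 : Fin 7)) rfl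
      (gatB30 x) (gatB02 x) (gatB01 x) (datB30 x) (datB02 x) (datB01 x) ?_)
    (cornS_of (C := cB012E) (C0 := c0B) (j := (3 : Fin 7)) (k := (0 : Fin 7)) (lo := 0) (hi := 0) (W := 44739242) (N0 := 3) cB012E_q (sideB hx hx') gokB X (by norm_num) (by norm_num) (l := (0 : Fin 7)) rfl
      (gatB30 x) (gatB02 x) (gatB01 x) ?_)
    (thU (pinU hx hx')) rfl hκ (fun j q y => tC_eq j q y x) (esg_rng X.x0.le (by linarith [X.b, X.p0])).1 (mo_v x) le_rfl le_rfl
  · intro ρ a B hρ hd i h1 h2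
    fin_cases i
    · exact corW_cert (G1 := gB3q0) (G2 := gB0q2) (Ga := gB0q1) (Gb := gB1q1) (D1 := dB3q0) (D2 := dB0q2) (Da := dB0q1) (Db := dB1q1) cB012E_ok B hρ hen (gatB30 x) (gatB02 x) (fun _ => gatB01 x) (fun h => absurd h (by decide)) (datB30 x) (datB02 x) (fun _ => datB01 x) (fun h => absurd h (by decide)) hd hx hx' CW.B012E_300
    · exact absurd h2 (by norm_num)
    · exact absurd h2 (by norm_num)
    · exact absurd h2 (by norm_num)
    · exact absurd h2 (by norm_num)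
    · exact absurd h2 (by norm_num)
  · intro ρ a B hρ hd i h1 h2
    fin_cases i
    · exact corT_cert (G1 := gB3q0) (G2 := gB0q2) (Ga := gB0q1) (Gb := gB1q1) cB012E_ok B hρ (gatB30 x) (gatB02 x) (fun _ => gatB01 x) (fun h => absurd h (by decide)) hd hx hx' CG.B012E_300
    · exact absurd h2 (by norm_num)
    · exact absurd h2 (by norm_num)
    · exact absurd h2 (by norm_num)
    · exact absurd h2 (by norm_num)
    · exact absurd h2 (by norm_num)

theorem altB_B012E_31 {κ x : ℝ} (hκ : κ * h0 = ken x) (hx : ((536870912 : ℕ) : ℝ) / S ≤ x) (hx' : x ≤ (((536870912 : ℕ) : ℝ) + (50465866 : ℕ)) / S) :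
    AltEB 3 κ (eng.v x) (3 / 40) (tnt (h0 * x) (3 / 10)) PP tK tL tC pcB (scP esg pd) [⟨0, 0, 0, 44739242⟩, ⟨1, 1, 0, 44739242⟩, ⟨2, 1, 0, 44739242⟩] 0 1 2 3 1 (sgb true) (sgb true) x := by
  have X : XR 44739242 x := XR.of hx hx' (by norm_num) (by norm_num) (by norm_num) (by norm_num)
  have hen : 0 < eng.v x := en_pos X.x0.le
  refine CornW.altB (C := cB012E) (j := (3 : Fin 7)) (k := (1 : Fin 7)) (Ef := esg) (pd := pd) (o := 3 / 40)
    (cornW_of (C := cB012E) (C0 := c0B) (En := eng) (mo := mog) (j := (3 : Fin 7)) (k := (1 : Fin 7)) (lo := 0) (hi := 0) (W := 44739242) (N0 := 3) cB012E_q (sideB hx hx') gokB (pinU hx hx') dokB X (by norm_num) (by norm_num) (l := (0 : Fin 7)) rfl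
      (gatB30 x) (gatB12 x) (gatB01 x) (datB30 x) (datB12 x) (datB01 x) ?_)
    (cornS_of (C := cB012E) (C0 := c0B) (j := (3 : Fin 7)) (k := (1 : Fin 7)) (lo := 0) (hi := 0) (W := 44739242) (N0 := 3) cB012E_q (sideB hx hx') gokB X (by norm_num) (by norm_num) (l := (0 : Fin 7)) rfl
      (gatB30 x) (gatB12 x) (gatB01 x) ?_)
    (thU (pinU hx hx')) rfl hκ (fun j q y => tC_eq j q y x) (esg_rng X.x0.le (by linarith [X.b, X.p0])).1 (mo_v x) le_rfl le_rfl
  · intro ρ a B hρ hd i h1 h2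
    fin_cases i
    · exact corW_cert (G1 := gB3q0) (G2 := gB1q2) (Ga := gB0q1) (Gb := gB1q1) (D1 := dB3q0) (D2 := dB1q2) (Da := dB0q1) (Db := dB1q1) cB012E_ok B hρ hen (gatB30 x) (gatB12 x) (fun _ => gatB01 x) (fun h => absurd h (by decide)) (datB30 x) (datB12 x) (fun _ => datB01 x) (fun h => absurd h (by decide)) hd hx hx' CW.B012E_310
    · exact absurd h2 (by norm_num)
    · exact absurd h2 (by norm_num)
    · exact absurd h2 (by norm_num)
    · exact absurd h2 (by norm_num)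
    · exact absurd h2 (by norm_num)
  · intro ρ a B hρ hd i h1 h2
    fin_cases i
    · exact corT_cert (G1 := gB3q0) (G2 := gB1q2) (Ga := gB0q1) (Gb := gB1q1) cB012E_ok B hρ (gatB30 x) (gatB12 x) (fun _ => gatB01 x) (fun h => absurd h (by decide)) hd hx hx' CG.B012E_310
    · exact absurd h2 (by norm_num)
    · exact absurd h2 (by norm_num)
    · exact absurd h2 (by norm_num)
    · exact absurd h2 (by norm_num)
    · exact absurd h2 (by norm_num)

theorem altB_B012E_32 {κ x : ℝ} (hκ : κ * h0 = ken x) (hx : ((536870912 : ℕ) : ℝ) / S ≤ x) (hx' : x ≤ (((536870912 : ℕ) : ℝ) + (50465866 : ℕ)) / S) :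
    AltEB 3 κ (eng.v x) (3 / 40) (tnt (h0 * x) (3 / 10)) PP tK tL tC pcB (scP esg pd) [⟨0, 0, 0, 53687091⟩, ⟨1, 1, 0, 53687091⟩, ⟨2, 1, 0, 53687091⟩] 0 1 2 3 2 (sgb true) (sgb true) x := by
  have X : XR 53687091 x := XR.of hx hx' (by norm_num) (by norm_num) (by norm_num) (by norm_num)
  have hen : 0 < eng.v x := en_pos X.x0.le
  refine CornW.altB (C := cB012E) (j := (3 : Fin 7)) (k := (2 : Fin 7)) (Ef := esg) (pd := pd) (o := 3 / 40)
    (cornW_of (C := cB012E) (C0 := c0B) (En := eng) (mo := mog) (j := (3 : Fin 7)) (k := (2 : Fin 7)) (lo := 0) (hi := 0) (W := 53687091) (N0 := 3) cB012E_q (sideB hx hx') gokB (pinU hx hx') dokB X (by norm_num) (by norm_num) (l := (0 : Fin 7)) rfl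
      (gatB30 x) (gatB22 x) (gatB01 x) (datB30 x) (datB22 x) (datB01 x) ?_)
    (cornS_of (C := cB012E) (C0 := c0B) (j := (3 : Fin 7)) (k := (2 : Fin 7)) (lo := 0) (hi := 0) (W := 53687091) (N0 := 3) cB012E_q (sideB hx hx') gokB X (by norm_num) (by norm_num) (l := (0 : Fin 7)) rfl
      (gatB30 x) (gatB22 x) (gatB01 x) ?_)
    (thU (pinU hx hx')) rfl hκ (fun j q y => tC_eq j q y x) (esg_rng X.x0.le (by linarith [X.b, X.p0])).1 (mo_v x) le_rfl le_rfl
  · intro ρ a B hρ hd i h1 h2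
    fin_cases i
    · exact corW_cert (G1 := gB3q0) (G2 := gB2q2) (Ga := gB0q1) (Gb := gB1q1) (D1 := dB3q0) (D2 := dB2q2) (Da := dB0q1) (Db := dB1q1) cB012E_ok B hρ hen (gatB30 x) (gatB22 x) (fun _ => gatB01 x) (fun h => absurd h (by decide)) (datB30 x) (datB22 x) (fun _ => datB01 x) (fun h => absurd h (by decide)) hd hx hx' CW.B012E_320
    · exact absurd h2 (by norm_num)
    · exact absurd h2 (by norm_num)
    · exact absurd h2 (by norm_num)
    · exact absurd h2 (by norm_num)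
    · exact absurd h2 (by norm_num)
  · intro ρ a B hρ hd i h1 h2
    fin_cases i
    · exact corT_cert (G1 := gB3q0) (G2 := gB2q2) (Ga := gB0q1) (Gb := gB1q1) cB012E_ok B hρ (gatB30 x) (gatB22 x) (fun _ => gatB01 x) (fun h => absurd h (by decide)) hd hx hx' CG.B012E_320
    · exact absurd h2 (by norm_num)
    · exact absurd h2 (by norm_num)
    · exact absurd h2 (by norm_num)
    · exact absurd h2 (by norm_num)
    · exact absurd h2 (by norm_num)

theorem altB_B012E_33 {κ x : ℝ} (hκ : κ * h0 = ken x) (hx : ((536870912 : ℕ) : ℝ) / S ≤ x) (hx' : x ≤ (((536870912 : ℕ) : ℝ) + (50465866 : ℕ)) / S) :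
    AltEB 3 κ (eng.v x) (3 / 40) (tnt (h0 * x) (3 / 10)) PP tK tL tC pcB (scP esg pd) [⟨0, 0, 0, 67108864⟩, ⟨1, 1, 0, 67108864⟩, ⟨2, 1, 0, 67108864⟩] 0 1 2 3 3 (sgb true) (sgb true) x := by
  have X : XR 67108864 x := XR.of hx hx' (by norm_num) (by norm_num) (by norm_num) (by norm_num)
  have hen : 0 < eng.v x := en_pos X.x0.le
  refine CornW.altB (C := cB012E) (j := (3 : Fin 7)) (k := (3 : Fin 7)) (Ef := esg) (pd := pd) (o := 3 / 40)
    (cornW_of (C := cB012E) (C0 := c0B) (En := eng) (mo := mog) (j := (3 : Fin 7)) (k := (3 : Fin 7)) (lo := 0) (hi := 0) (W := 67108864) (N0 := 3) cB012E_q (sideB hx hx') gokB (pinU hx hx') dokB X (by norm_num) (by norm_num) (l := (0 : Fin 7)) rfl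
      (gatB30 x) (gatB32 x) (gatB01 x) (datB30 x) (datB32 x) (datB01 x) ?_)
    (cornS_of (C := cB012E) (C0 := c0B) (j := (3 : Fin 7)) (k := (3 : Fin 7)) (lo := 0) (hi := 0) (W := 67108864) (N0 := 3) cB012E_q (sideB hx hx') gokB X (by norm_num) (by norm_num) (l := (0 : Fin 7)) rfl
      (gatB30 x) (gatB32 x) (gatB01 x) ?_)
    (thU (pinU hx hx')) rfl hκ (fun j q y => tC_eq j q y x) (esg_rng X.x0.le (by linarith [X.b, X.p0])).1 (mo_v x) le_rfl le_rfl
  · intro ρ a B hρ hd i h1 h2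
    fin_cases i
    · exact corW_cert (G1 := gB3q0) (G2 := gB3q2) (Ga := gB0q1) (Gb := gB1q1) (D1 := dB3q0) (D2 := dB3q2) (Da := dB0q1) (Db := dB1q1) cB012E_ok B hρ hen (gatB30 x) (gatB32 x) (fun _ => gatB01 x) (fun h => absurd h (by decide)) (datB30 x) (datB32 x) (fun _ => datB01 x) (fun h => absurd h (by decide)) hd hx hx' CW.B012E_330
    · exact absurd h2 (by norm_num)
    · exact absurd h2 (by norm_num)
    · exact absurd h2 (by norm_num)
    · exact absurd h2 (by norm_num)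
    · exact absurd h2 (by norm_num)
  · intro ρ a B hρ hd i h1 h2
    fin_cases i
    · exact corT_cert (G1 := gB3q0) (G2 := gB3q2) (Ga := gB0q1) (Gb := gB1q1) cB012E_ok B hρ (gatB30 x) (gatB32 x) (fun _ => gatB01 x) (fun h => absurd h (by decide)) hd hx hx' CG.B012E_330
    · exact absurd h2 (by norm_num)
    · exact absurd h2 (by norm_num)
    · exact absurd h2 (by norm_num)
    · exact absurd h2 (by norm_num)
    · exact absurd h2 (by norm_num)

theorem altB_B012L_06 {κ x : ℝ} (hκ : κ * h0 = ken x) (hx : ((536870912 : ℕ) : ℝ) / S ≤ x) (hx' : x ≤ (((536870912 : ℕ) : ℝ) + (50465866 : ℕ)) / S) :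
    AltEB 3 κ (eng.v x) (3 / 40) (tnt (h0 * x) (3 / 10)) PP tK tL tC pcB (scP esg pd) [⟨0, 0, 0, 67108864⟩, ⟨1, 1, 0, 67108864⟩, ⟨2, 1, 0, 67108864⟩] 0 1 2 0 6 (sgb true) (sgb true) x := by
  have X : XR 67108864 x := XR.of hx hx' (by norm_num) (by norm_num) (by norm_num) (by norm_num)
  have hen : 0 < eng.v x := en_pos X.x0.le
  refine CornW.altB (C := cB012L) (j := (0 : Fin 7)) (k := (6 : Fin 7)) (Ef := esg) (pd := pd) (o := 3 / 40)
    (cornW_of (C := cB012L) (C0 := c0B) (En := eng) (mo := mog) (j := (0 : Fin 7)) (k := (6 : Fin 7)) (lo := 0) (hi := 0) (W := 67108864) (N0 := 3) cB012L_q (sideB hx hx') gokB (pinU hx hx') dokB X (by norm_num) (by norm_num) (l := (0 : Fin 7)) rfl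
      (gatB00 x) (gatB62 x) (gatB01 x) (datB00 x) (datB62 x) (datB01 x) ?_)
    (cornS_of (C := cB012L) (C0 := c0B) (j := (0 : Fin 7)) (k := (6 : Fin 7)) (lo := 0) (hi := 0) (W := 67108864) (N0 := 3) cB012L_q (sideB hx hx') gokB X (by norm_num) (by norm_num) (l := (0 : Fin 7)) rfl
      (gatB00 x) (gatB62 x) (gatB01 x) ?_)
    (thU (pinU hx hx')) rfl hκ (fun j q y => tC_eq j q y x) (esg_rng X.x0.le (by linarith [X.b, X.p0])).1 (mo_v x) le_rfl le_rfl
  · intro ρ a B hρ hd i h1 h2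
    fin_cases i
    · exact corW_cert (G1 := gB0q0) (G2 := gB6q2) (Ga := gB0q1) (Gb := gB1q1) (D1 := dB0q0) (D2 := dB6q2) (Da := dB0q1) (Db := dB1q1) cB012L_ok B hρ hen (gatB00 x) (gatB62 x) (fun _ => gatB01 x) (fun h => absurd h (by decide)) (datB00 x) (datB62 x) (fun _ => datB01 x) (fun h => absurd h (by decide)) hd hx hx' CW.B012L_060
    · exact absurd h2 (by norm_num)
    · exact absurd h2 (by norm_num)
    · exact absurd h2 (by norm_num)
    · exact absurd h2 (by norm_num)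
    · exact absurd h2 (by norm_num)
  · intro ρ a B hρ hd i h1 h2
    fin_cases i
    · exact corT_cert (G1 := gB0q0) (G2 := gB6q2) (Ga := gB0q1) (Gb := gB1q1) cB012L_ok B hρ (gatB00 x) (gatB62 x) (fun _ => gatB01 x) (fun h => absurd h (by decide)) hd hx hx' CG.B012L_060
    · exact absurd h2 (by norm_num)
    · exact absurd h2 (by norm_num)
    · exact absurd h2 (by norm_num)
    · exact absurd h2 (by norm_num)
    · exact absurd h2 (by norm_num)

theorem altB_B012L_16 {κ x : ℝ} (hκ : κ * h0 = ken x) (hx : ((536870912 : ℕ) : ℝ) / S ≤ x) (hx' : x ≤ (((536870912 : ℕ) : ℝ) + (50465866 : ℕ)) / S) :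
    AltEB 3 κ (eng.v x) (3 / 40) (tnt (h0 * x) (3 / 10)) PP tK tL tC pcB (scP esg pd) [⟨0, 0, 0, 67108864⟩, ⟨1, 1, 0, 67108864⟩, ⟨2, 1, 0, 67108864⟩] 0 1 2 1 6 (sgb true) (sgb true) x := by
  have X : XR 67108864 x := XR.of hx hx' (by norm_num) (by norm_num) (by norm_num) (by norm_num)
  have hen : 0 < eng.v x := en_pos X.x0.le
  refine CornW.altB (C := cB012L) (j := (1 : Fin 7)) (k := (6 : Fin 7)) (Ef := esg) (pd := pd) (o := 3 / 40)
    (cornW_of (C := cB012L) (C0 := c0B) (En := eng) (mo := mog) (j := (1 : Fin 7)) (k := (6 : Fin 7)) (lo := 0) (hi := 0) (W := 67108864) (N0 := 3) cB012L_q (sideB hx hx') gokB (pinU hx hx') dokB X (by norm_num) (by norm_num) (l := (0 : Fin 7)) rfl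
      (gatB10 x) (gatB62 x) (gatB01 x) (datB10 x) (datB62 x) (datB01 x) ?_)
    (cornS_of (C := cB012L) (C0 := c0B) (j := (1 : Fin 7)) (k := (6 : Fin 7)) (lo := 0) (hi := 0) (W := 67108864) (N0 := 3) cB012L_q (sideB hx hx') gokB X (by norm_num) (by norm_num) (l := (0 : Fin 7)) rfl
      (gatB10 x) (gatB62 x) (gatB01 x) ?_)
    (thU (pinU hx hx')) rfl hκ (fun j q y => tC_eq j q y x) (esg_rng X.x0.le (by linarith [X.b, X.p0])).1 (mo_v x) le_rfl le_rfl
  · intro ρ a B hρ hd i h1 h2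
    fin_cases i
    · exact corW_cert (G1 := gB1q0) (G2 := gB6q2) (Ga := gB0q1) (Gb := gB1q1) (D1 := dB1q0) (D2 := dB6q2) (Da := dB0q1) (Db := dB1q1) cB012L_ok B hρ hen (gatB10 x) (gatB62 x) (fun _ => gatB01 x) (fun h => absurd h (by decide)) (datB10 x) (datB62 x) (fun _ => datB01 x) (fun h => absurd h (by decide)) hd hx hx' CW.B012L_160
    · exact absurd h2 (by norm_num)
    · exact absurd h2 (by norm_num)
    · exact absurd h2 (by norm_num)
    · exact absurd h2 (by norm_num)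
    · exact absurd h2 (by norm_num)
  · intro ρ a B hρ hd i h1 h2
    fin_cases i
    · exact corT_cert (G1 := gB1q0) (G2 := gB6q2) (Ga := gB0q1) (Gb := gB1q1) cB012L_ok B hρ (gatB10 x) (gatB62 x) (fun _ => gatB01 x) (fun h => absurd h (by decide)) hd hx hx' CG.B012L_160
    · exact absurd h2 (by norm_num)
    · exact absurd h2 (by norm_num)
    · exact absurd h2 (by norm_num)
    · exact absurd h2 (by norm_num)
    · exact absurd h2 (by norm_num)

theorem altB_B012L_26 {κ x : ℝ} (hκ : κ * h0 = ken x) (hx : ((536870912 : ℕ) : ℝ) / S ≤ x) (hx' : x ≤ (((536870912 : ℕ) : ℝ) + (50465866 : ℕ)) / S) :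
    AltEB 3 κ (eng.v x) (3 / 40) (tnt (h0 * x) (3 / 10)) PP tK tL tC pcB (scP esg pd) [⟨0, 0, 0, 67108864⟩, ⟨1, 1, 0, 67108864⟩, ⟨2, 1, 0, 67108864⟩] 0 1 2 2 6 (sgb true) (sgb true) x := by
  have X : XR 67108864 x := XR.of hx hx' (by norm_num) (by norm_num) (by norm_num) (by norm_num)
  have hen : 0 < eng.v x := en_pos X.x0.le
  refine CornW.altB (C := cB012L) (j := (2 : Fin 7)) (k := (6 : Fin 7)) (Ef := esg) (pd := pd) (o := 3 / 40)
    (cornW_of (C := cB012L) (C0 := c0B) (En := eng) (mo := mog) (j := (2 : Fin 7)) (k := (6 : Fin 7)) (lo := 0) (hi := 0) (W := 67108864) (N0 := 3) cB012L_q (sideB hx hx') gokB (pinU hx hx') dokB X (by norm_num) (by norm_num) (l := (0 : Fin 7)) rfl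
      (gatB20 x) (gatB62 x) (gatB01 x) (datB20 x) (datB62 x) (datB01 x) ?_)
    (cornS_of (C := cB012L) (C0 := c0B) (j := (2 : Fin 7)) (k := (6 : Fin 7)) (lo := 0) (hi := 0) (W := 67108864) (N0 := 3) cB012L_q (sideB hx hx') gokB X (by norm_num) (by norm_num) (l := (0 : Fin 7)) rfl
      (gatB20 x) (gatB62 x) (gatB01 x) ?_)
    (thU (pinU hx hx')) rfl hκ (fun j q y => tC_eq j q y x) (esg_rng X.x0.le (by linarith [X.b, X.p0])).1 (mo_v x) le_rfl le_rfl
  · intro ρ a B hρ hd i h1 h2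
    fin_cases i
    · exact corW_cert (G1 := gB2q0) (G2 := gB6q2) (Ga := gB0q1) (Gb := gB1q1) (D1 := dB2q0) (D2 := dB6q2) (Da := dB0q1) (Db := dB1q1) cB012L_ok B hρ hen (gatB20 x) (gatB62 x) (fun _ => gatB01 x) (fun h => absurd h (by decide)) (datB20 x) (datB62 x) (fun _ => datB01 x) (fun h => absurd h (by decide)) hd hx hx' CW.B012L_260
    · exact absurd h2 (by norm_num)
    · exact absurd h2 (by norm_num)
    · exact absurd h2 (by norm_num)
    · exact absurd h2 (by norm_num)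
    · exact absurd h2 (by norm_num)
  · intro ρ a B hρ hd i h1 h2
    fin_cases i
    · exact corT_cert (G1 := gB2q0) (G2 := gB6q2) (Ga := gB0q1) (Gb := gB1q1) cB012L_ok B hρ (gatB20 x) (gatB62 x) (fun _ => gatB01 x) (fun h => absurd h (by decide)) hd hx hx' CG.B012L_260
    · exact absurd h2 (by norm_num)
    · exact absurd h2 (by norm_num)
    · exact absurd h2 (by norm_num)
    · exact absurd h2 (by norm_num)
    · exact absurd h2 (by norm_num)

theorem altB_B012L_36 {κ x : ℝ} (hκ : κ * h0 = ken x) (hx : ((536870912 : ℕ) : ℝ) / S ≤ x) (hx' : x ≤ (((536870912 : ℕ) : ℝ) + (50465866 : ℕ)) / S) :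
    AltEB 3 κ (eng.v x) (3 / 40) (tnt (h0 * x) (3 / 10)) PP tK tL tC pcB (scP esg pd) [⟨0, 0, 0, 67108864⟩, ⟨1, 1, 0, 67108864⟩, ⟨2, 1, 0, 67108864⟩] 0 1 2 3 6 (sgb true) (sgb true) x := by
  have X : XR 67108864 x := XR.of hx hx' (by norm_num) (by norm_num) (by norm_num) (by norm_num)
  have hen : 0 < eng.v x := en_pos X.x0.le
  refine CornW.altB (C := cB012L) (j := (3 : Fin 7)) (k := (6 : Fin 7)) (Ef := esg) (pd := pd) (o := 3 / 40)
    (cornW_of (C := cB012L) (C0 := c0B) (En := eng) (mo := mog) (j := (3 : Fin 7)) (k := (6 : Fin 7)) (lo := 0) (hi := 0) (W := 67108864) (N0 := 3) cB012L_q (sideB hx hx') gokB (pinU hx hx') dokB X (by norm_num) (by norm_num) (l := (0 : Fin 7)) rfl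
      (gatB30 x) (gatB62 x) (gatB01 x) (datB30 x) (datB62 x) (datB01 x) ?_)
    (cornS_of (C := cB012L) (C0 := c0B) (j := (3 : Fin 7)) (k := (6 : Fin 7)) (lo := 0) (hi := 0) (W := 67108864) (N0 := 3) cB012L_q (sideB hx hx') gokB X (by norm_num) (by norm_num) (l := (0 : Fin 7)) rfl
      (gatB30 x) (gatB62 x) (gatB01 x) ?_)
    (thU (pinU hx hx')) rfl hκ (fun j q y => tC_eq j q y x) (esg_rng X.x0.le (by linarith [X.b, X.p0])).1 (mo_v x) le_rfl le_rfl
  · intro ρ a B hρ hd i h1 h2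
    fin_cases i
    · exact corW_cert (G1 := gB3q0) (G2 := gB6q2) (Ga := gB0q1) (Gb := gB1q1) (D1 := dB3q0) (D2 := dB6q2) (Da := dB0q1) (Db := dB1q1) cB012L_ok B hρ hen (gatB30 x) (gatB62 x) (fun _ => gatB01 x) (fun h => absurd h (by decide)) (datB30 x) (datB62 x) (fun _ => datB01 x) (fun h => absurd h (by decide)) hd hx hx' CW.B012L_360
    · exact absurd h2 (by norm_num)
    · exact absurd h2 (by norm_num)
    · exact absurd h2 (by norm_num)
    · exact absurd h2 (by norm_num)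
    · exact absurd h2 (by norm_num)
  · intro ρ a B hρ hd i h1 h2
    fin_cases i
    · exact corT_cert (G1 := gB3q0) (G2 := gB6q2) (Ga := gB0q1) (Gb := gB1q1) cB012L_ok B hρ (gatB30 x) (gatB62 x) (fun _ => gatB01 x) (fun h => absurd h (by decide)) hd hx hx' CG.B012L_360
    · exact absurd h2 (by norm_num)
    · exact absurd h2 (by norm_num)
    · exact absurd h2 (by norm_num)
    · exact absurd h2 (by norm_num)
    · exact absurd h2 (by norm_num)

theorem altB_B012R_00 {κ x : ℝ} (hκ : κ * h0 = ken x) (hx : ((536870912 : ℕ) : ℝ) / S ≤ x) (hx' : x ≤ (((536870912 : ℕ) : ℝ) + (50465866 : ℕ)) / S) :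
    AltEB 3 κ (eng.v x) (3 / 40) (tnt (h0 * x) (3 / 10)) PP tK tL tC pcB (scP esg pd) [⟨0, 0, 0, 67108864⟩, ⟨1, 1, 0, 67108864⟩, ⟨2, 1, 0, 67108864⟩] 0 1 2 0 0 (sgb true) (sgb false) x := by
  have X : XR 67108864 x := XR.of hx hx' (by norm_num) (by norm_num) (by norm_num) (by norm_num)
  have hen : 0 < eng.v x := en_pos X.x0.le
  refine CornW.altB (C := cB012R) (j := (0 : Fin 7)) (k := (0 : Fin 7)) (Ef := esg) (pd := pd) (o := 3 / 40)
    (cornW_of (C := cB012R) (C0 := c0B) (En := eng) (mo := mog) (j := (0 : Fin 7)) (k := (0 : Fin 7)) (lo := 4) (hi := 6) (W := 67108864) (N0 := 3) cB012R_q (sideB hx hx') gokB (pinU hx hx') dokB X (by norm_num) (by norm_num) (l := (4 : Fin 7)) rfl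
      (gatB00 x) (gatB02 x) (gatB41 x) (datB00 x) (datB02 x) (datB41 x) ?_)
    (cornS_of (C := cB012R) (C0 := c0B) (j := (0 : Fin 7)) (k := (0 : Fin 7)) (lo := 4) (hi := 6) (W := 67108864) (N0 := 3) cB012R_q (sideB hx hx') gokB X (by norm_num) (by norm_num) (l := (4 : Fin 7)) rfl
      (gatB00 x) (gatB02 x) (gatB41 x) ?_)
    (thU (pinU hx hx')) rfl hκ (fun j q y => tC_eq j q y x) (esg_rng X.x0.le (by linarith [X.b, X.p0])).1 (mo_v x) le_rfl le_rfl
  · intro ρ a B hρ hd i h1 h2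
    fin_cases i
    · exact absurd h1 (by norm_num)
    · exact absurd h1 (by norm_num)
    · exact absurd h1 (by norm_num)
    · exact corW_cert (G1 := gB0q0) (G2 := gB0q2) (Ga := gB3q1) (Gb := gB4q1) (D1 := dB0q0) (D2 := dB0q2) (Da := dB3q1) (Db := dB4q1) cB012R_ok B hρ hen (gatB00 x) (gatB02 x) (fun h => absurd h (by decide)) (fun _ => gatB41 x) (datB00 x) (datB02 x) (fun h => absurd h (by decide)) (fun _ => datB41 x) hd hx hx' CW.B012R_003
    · exact corW_cert (G1 := gB0q0) (G2 := gB0q2) (Ga := gB4q1) (Gb := gB5q1) (D1 := dB0q0) (D2 := dB0q2) (Da := dB4q1) (Db := dB5q1) cB012R_ok B hρ hen (gatB00 x) (gatB02 x) (fun _ => gatB41 x) (fun _ => gatB51 x) (datB00 x) (datB02 x) (fun _ => datB41 x) (fun _ => datB51 x) hd hx hx' CW.B012R_004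
    · exact corW_cert (G1 := gB0q0) (G2 := gB0q2) (Ga := gB5q1) (Gb := gB6q1) (D1 := dB0q0) (D2 := dB0q2) (Da := dB5q1) (Db := dB6q1) cB012R_ok B hρ hen (gatB00 x) (gatB02 x) (fun _ => gatB51 x) (fun _ => gatB61 x) (datB00 x) (datB02 x) (fun _ => datB51 x) (fun _ => datB61 x) hd hx hx' CW.B012R_005
  · intro ρ a B hρ hd i h1 h2
    fin_cases i
    · exact absurd h1 (by norm_num)
    · exact absurd h1 (by norm_num)
    · exact absurd h1 (by norm_num)
    · exact corT_cert (G1 := gB0q0) (G2 := gB0q2) (Ga := gB3q1) (Gb := gB4q1) cB012R_ok B hρ (gatB00 x) (gatB02 x) (fun h => absurd h (by decide)) (fun _ => gatB41 x) hd hx hx' CG.B012R_003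
    · exact corT_cert (G1 := gB0q0) (G2 := gB0q2) (Ga := gB4q1) (Gb := gB5q1) cB012R_ok B hρ (gatB00 x) (gatB02 x) (fun _ => gatB41 x) (fun _ => gatB51 x) hd hx hx' CG.B012R_004
    · exact corT_cert (G1 := gB0q0) (G2 := gB0q2) (Ga := gB5q1) (Gb := gB6q1) cB012R_ok B hρ (gatB00 x) (gatB02 x) (fun _ => gatB51 x) (fun _ => gatB61 x) hd hx hx' CG.B012R_005

theorem altB_B012R_01 {κ x : ℝ} (hκ : κ * h0 = ken x) (hx : ((536870912 : ℕ) : ℝ) / S ≤ x) (hx' : x ≤ (((536870912 : ℕ) : ℝ) + (50465866 : ℕ)) / S) :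
    AltEB 3 κ (eng.v x) (3 / 40) (tnt (h0 * x) (3 / 10)) PP tK tL tC pcB (scP esg pd) [⟨0, 0, 0, 67108864⟩, ⟨1, 1, 0, 67108864⟩, ⟨2, 1, 0, 67108864⟩] 0 1 2 0 1 (sgb true) (sgb false) x := by
  have X : XR 67108864 x := XR.of hx hx' (by norm_num) (by norm_num) (by norm_num) (by norm_num)
  have hen : 0 < eng.v x := en_pos X.x0.le
  refine CornW.altB (C := cB012R) (j := (0 : Fin 7)) (k := (1 : Fin 7)) (Ef := esg) (pd := pd) (o := 3 / 40)
    (cornW_of (C := cB012R) (C0 := c0B) (En := eng) (mo := mog) (j := (0 : Fin 7)) (k := (1 : Fin 7)) (lo := 4) (hi := 6) (W := 67108864) (N0 := 3) cB012R_q (sideB hx hx') gokB (pinU hx hx') dokB X (by norm_num) (by norm_num) (l := (4 : Fin 7)) rfl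
      (gatB00 x) (gatB12 x) (gatB41 x) (datB00 x) (datB12 x) (datB41 x) ?_)
    (cornS_of (C := cB012R) (C0 := c0B) (j := (0 : Fin 7)) (k := (1 : Fin 7)) (lo := 4) (hi := 6) (W := 67108864) (N0 := 3) cB012R_q (sideB hx hx') gokB X (by norm_num) (by norm_num) (l := (4 : Fin 7)) rfl
      (gatB00 x) (gatB12 x) (gatB41 x) ?_)
    (thU (pinU hx hx')) rfl hκ (fun j q y => tC_eq j q y x) (esg_rng X.x0.le (by linarith [X.b, X.p0])).1 (mo_v x) le_rfl le_rfl
  · intro ρ a B hρ hd i h1 h2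
    fin_cases i
    · exact absurd h1 (by norm_num)
    · exact absurd h1 (by norm_num)
    · exact absurd h1 (by norm_num)
    · exact corW_cert (G1 := gB0q0) (G2 := gB1q2) (Ga := gB3q1) (Gb := gB4q1) (D1 := dB0q0) (D2 := dB1q2) (Da := dB3q1) (Db := dB4q1) cB012R_ok B hρ hen (gatB00 x) (gatB12 x) (fun h => absurd h (by decide)) (fun _ => gatB41 x) (datB00 x) (datB12 x) (fun h => absurd h (by decide)) (fun _ => datB41 x) hd hx hx' CW.B012R_013
    · exact corW_cert (G1 := gB0q0) (G2 := gB1q2) (Ga := gB4q1) (Gb := gB5q1) (D1 := dB0q0) (D2 := dB1q2) (Da := dB4q1) (Db := dB5q1) cB012R_ok B hρ hen (gatB00 x) (gatB12 x) (fun _ => gatB41 x) (fun _ => gatB51 x) (datB00 x) (datB12 x) (fun _ => datB41 x) (fun _ => datB51 x) hd hx hx' CW.B012R_014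
    · exact corW_cert (G1 := gB0q0) (G2 := gB1q2) (Ga := gB5q1) (Gb := gB6q1) (D1 := dB0q0) (D2 := dB1q2) (Da := dB5q1) (Db := dB6q1) cB012R_ok B hρ hen (gatB00 x) (gatB12 x) (fun _ => gatB51 x) (fun _ => gatB61 x) (datB00 x) (datB12 x) (fun _ => datB51 x) (fun _ => datB61 x) hd hx hx' CW.B012R_015
  · intro ρ a B hρ hd i h1 h2
    fin_cases i
    · exact absurd h1 (by norm_num)
    · exact absurd h1 (by norm_num)
    · exact absurd h1 (by norm_num)
    · exact corT_cert (G1 := gB0q0) (G2 := gB1q2) (Ga := gB3q1) (Gb := gB4q1) cB012R_ok B hρ (gatB00 x) (gatB12 x) (fun h => absurd h (by decide)) (fun _ => gatB41 x) hd hx hx' CG.B012R_013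
    · exact corT_cert (G1 := gB0q0) (G2 := gB1q2) (Ga := gB4q1) (Gb := gB5q1) cB012R_ok B hρ (gatB00 x) (gatB12 x) (fun _ => gatB41 x) (fun _ => gatB51 x) hd hx hx' CG.B012R_014
    · exact corT_cert (G1 := gB0q0) (G2 := gB1q2) (Ga := gB5q1) (Gb := gB6q1) cB012R_ok B hρ (gatB00 x) (gatB12 x) (fun _ => gatB51 x) (fun _ => gatB61 x) hd hx hx' CG.B012R_015

theorem altB_B012R_02 {κ x : ℝ} (hκ : κ * h0 = ken x) (hx : ((536870912 : ℕ) : ℝ) / S ≤ x) (hx' : x ≤ (((536870912 : ℕ) : ℝ) + (50465866 : ℕ)) / S) :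
    AltEB 3 κ (eng.v x) (3 / 40) (tnt (h0 * x) (3 / 10)) PP tK tL tC pcB (scP esg pd) [⟨0, 0, 0, 67108864⟩, ⟨1, 1, 0, 67108864⟩, ⟨2, 1, 0, 67108864⟩] 0 1 2 0 2 (sgb true) (sgb false) x := by
  have X : XR 67108864 x := XR.of hx hx' (by norm_num) (by norm_num) (by norm_num) (by norm_num)
  have hen : 0 < eng.v x := en_pos X.x0.le
  refine CornW.altB (C := cB012R) (j := (0 : Fin 7)) (k := (2 : Fin 7)) (Ef := esg) (pd := pd) (o := 3 / 40)
    (cornW_of (C := cB012R) (C0 := c0B) (En := eng) (mo := mog) (j := (0 : Fin 7)) (k := (2 : Fin 7)) (lo := 4) (hi := 6) (W := 67108864) (N0 := 3) cB012R_q (sideB hx hx') gokB (pinU hx hx') dokB X (by norm_num) (by norm_num) (l := (4 : Fin 7)) rfl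
      (gatB00 x) (gatB22 x) (gatB41 x) (datB00 x) (datB22 x) (datB41 x) ?_)
    (cornS_of (C := cB012R) (C0 := c0B) (j := (0 : Fin 7)) (k := (2 : Fin 7)) (lo := 4) (hi := 6) (W := 67108864) (N0 := 3) cB012R_q (sideB hx hx') gokB X (by norm_num) (by norm_num) (l := (4 : Fin 7)) rfl
      (gatB00 x) (gatB22 x) (gatB41 x) ?_)
    (thU (pinU hx hx')) rfl hκ (fun j q y => tC_eq j q y x) (esg_rng X.x0.le (by linarith [X.b, X.p0])).1 (mo_v x) le_rfl le_rfl
  · intro ρ a B hρ hd i h1 h2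
    fin_cases i
    · exact absurd h1 (by norm_num)
    · exact absurd h1 (by norm_num)
    · exact absurd h1 (by norm_num)
    · exact corW_cert (G1 := gB0q0) (G2 := gB2q2) (Ga := gB3q1) (Gb := gB4q1) (D1 := dB0q0) (D2 := dB2q2) (Da := dB3q1) (Db := dB4q1) cB012R_ok B hρ hen (gatB00 x) (gatB22 x) (fun h => absurd h (by decide)) (fun _ => gatB41 x) (datB00 x) (datB22 x) (fun h => absurd h (by decide)) (fun _ => datB41 x) hd hx hx' CW.B012R_023
    · exact corW_cert (G1 := gB0q0) (G2 := gB2q2) (Ga := gB4q1) (Gb := gB5q1) (D1 := dB0q0) (D2 := dB2q2) (Da := dB4q1) (Db := dB5q1) cB012R_ok B hρ hen (gatB00 x) (gatB22 x) (fun _ => gatB41 x) (fun _ => gatB51 x) (datB00 x) (datB22 x) (fun _ => datB41 x) (fun _ => datB51 x) hd hx hx' CW.B012R_024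
    · exact corW_cert (G1 := gB0q0) (G2 := gB2q2) (Ga := gB5q1) (Gb := gB6q1) (D1 := dB0q0) (D2 := dB2q2) (Da := dB5q1) (Db := dB6q1) cB012R_ok B hρ hen (gatB00 x) (gatB22 x) (fun _ => gatB51 x) (fun _ => gatB61 x) (datB00 x) (datB22 x) (fun _ => datB51 x) (fun _ => datB61 x) hd hx hx' CW.B012R_025
  · intro ρ a B hρ hd i h1 h2
    fin_cases i
    · exact absurd h1 (by norm_num)
    · exact absurd h1 (by norm_num)
    · exact absurd h1 (by norm_num)
    · exact corT_cert (G1 := gB0q0) (G2 := gB2q2) (Ga := gB3q1) (Gb := gB4q1) cB012R_ok B hρ (gatB00 x) (gatB22 x) (fun h => absurd h (by decide)) (fun _ => gatB41 x) hd hx hx' CG.B012R_023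
    · exact corT_cert (G1 := gB0q0) (G2 := gB2q2) (Ga := gB4q1) (Gb := gB5q1) cB012R_ok B hρ (gatB00 x) (gatB22 x) (fun _ => gatB41 x) (fun _ => gatB51 x) hd hx hx' CG.B012R_024
    · exact corT_cert (G1 := gB0q0) (G2 := gB2q2) (Ga := gB5q1) (Gb := gB6q1) cB012R_ok B hρ (gatB00 x) (gatB22 x) (fun _ => gatB51 x) (fun _ => gatB61 x) hd hx hx' CG.B012R_025

theorem altB_B012R_03 {κ x : ℝ} (hκ : κ * h0 = ken x) (hx : ((536870912 : ℕ) : ℝ) / S ≤ x) (hx' : x ≤ (((536870912 : ℕ) : ℝ) + (50465866 : ℕ)) / S) :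
    AltEB 3 κ (eng.v x) (3 / 40) (tnt (h0 * x) (3 / 10)) PP tK tL tC pcB (scP esg pd) [⟨0, 0, 0, 67108864⟩, ⟨1, 1, 0, 67108864⟩, ⟨2, 1, 0, 67108864⟩] 0 1 2 0 3 (sgb true) (sgb false) x := by
  have X : XR 67108864 x := XR.of hx hx' (by norm_num) (by norm_num) (by norm_num) (by norm_num)
  have hen : 0 < eng.v x := en_pos X.x0.le
  refine CornW.altB (C := cB012R) (j := (0 : Fin 7)) (k := (3 : Fin 7)) (Ef := esg) (pd := pd) (o := 3 / 40)
    (cornW_of (C := cB012R) (C0 := c0B) (En := eng) (mo := mog) (j := (0 : Fin 7)) (k := (3 : Fin 7)) (lo := 4) (hi := 6) (W := 67108864) (N0 := 3) cB012R_q (sideB hx hx') gokB (pinU hx hx') dokB X (by norm_num) (by norm_num) (l := (4 : Fin 7)) rfl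
      (gatB00 x) (gatB32 x) (gatB41 x) (datB00 x) (datB32 x) (datB41 x) ?_)
    (cornS_of (C := cB012R) (C0 := c0B) (j := (0 : Fin 7)) (k := (3 : Fin 7)) (lo := 4) (hi := 6) (W := 67108864) (N0 := 3) cB012R_q (sideB hx hx') gokB X (by norm_num) (by norm_num) (l := (4 : Fin 7)) rfl
      (gatB00 x) (gatB32 x) (gatB41 x) ?_)
    (thU (pinU hx hx')) rfl hκ (fun j q y => tC_eq j q y x) (esg_rng X.x0.le (by linarith [X.b, X.p0])).1 (mo_v x) le_rfl le_rfl
  · intro ρ a B hρ hd i h1 h2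
    fin_cases i
    · exact absurd h1 (by norm_num)
    · exact absurd h1 (by norm_num)
    · exact absurd h1 (by norm_num)
    · exact corW_cert (G1 := gB0q0) (G2 := gB3q2) (Ga := gB3q1) (Gb := gB4q1) (D1 := dB0q0) (D2 := dB3q2) (Da := dB3q1) (Db := dB4q1) cB012R_ok B hρ hen (gatB00 x) (gatB32 x) (fun h => absurd h (by decide)) (fun _ => gatB41 x) (datB00 x) (datB32 x) (fun h => absurd h (by decide)) (fun _ => datB41 x) hd hx hx' CW.B012R_033
    · exact corW_cert (G1 := gB0q0) (G2 := gB3q2) (Ga := gB4q1) (Gb := gB5q1) (D1 := dB0q0) (D2 := dB3q2) (Da := dB4q1) (Db := dB5q1) cB012R_ok B hρ hen (gatB00 x) (gatB32 x) (fun _ => gatB41 x) (fun _ => gatB51 x) (datB00 x) (datB32 x) (fun _ => datB41 x) (fun _ => datB51 x) hd hx hx' CW.B012R_034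
    · exact corW_cert (G1 := gB0q0) (G2 := gB3q2) (Ga := gB5q1) (Gb := gB6q1) (D1 := dB0q0) (D2 := dB3q2) (Da := dB5q1) (Db := dB6q1) cB012R_ok B hρ hen (gatB00 x) (gatB32 x) (fun _ => gatB51 x) (fun _ => gatB61 x) (datB00 x) (datB32 x) (fun _ => datB51 x) (fun _ => datB61 x) hd hx hx' CW.B012R_035
  · intro ρ a B hρ hd i h1 h2
    fin_cases i
    · exact absurd h1 (by norm_num)
    · exact absurd h1 (by norm_num)
    · exact absurd h1 (by norm_num)
    · exact corT_cert (G1 := gB0q0) (G2 := gB3q2) (Ga := gB3q1) (Gb := gB4q1) cB012R_ok B hρ (gatB00 x) (gatB32 x) (fun h => absurd h (by decide)) (fun _ => gatB41 x) hd hx hx' CG.B012R_033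
    · exact corT_cert (G1 := gB0q0) (G2 := gB3q2) (Ga := gB4q1) (Gb := gB5q1) cB012R_ok B hρ (gatB00 x) (gatB32 x) (fun _ => gatB41 x) (fun _ => gatB51 x) hd hx hx' CG.B012R_034
    · exact corT_cert (G1 := gB0q0) (G2 := gB3q2) (Ga := gB5q1) (Gb := gB6q1) cB012R_ok B hρ (gatB00 x) (gatB32 x) (fun _ => gatB51 x) (fun _ => gatB61 x) hd hx hx' CG.B012R_035

theorem altB_B012R_10 {κ x : ℝ} (hκ : κ * h0 = ken x) (hx : ((536870912 : ℕ) : ℝ) / S ≤ x) (hx' : x ≤ (((536870912 : ℕ) : ℝ) + (50465866 : ℕ)) / S) :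
    AltEB 3 κ (eng.v x) (3 / 40) (tnt (h0 * x) (3 / 10)) PP tK tL tC pcB (scP esg pd) [⟨0, 0, 0, 67108864⟩, ⟨1, 1, 0, 67108864⟩, ⟨2, 1, 0, 67108864⟩] 0 1 2 1 0 (sgb true) (sgb false) x := by
  have X : XR 67108864 x := XR.of hx hx' (by norm_num) (by norm_num) (by norm_num) (by norm_num)
  have hen : 0 < eng.v x := en_pos X.x0.le
  refine CornW.altB (C := cB012R) (j := (1 : Fin 7)) (k := (0 : Fin 7)) (Ef := esg) (pd := pd) (o := 3 / 40)
    (cornW_of (C := cB012R) (C0 := c0B) (En := eng) (mo := mog) (j := (1 : Fin 7)) (k := (0 : Fin 7)) (lo := 4) (hi := 6) (W := 67108864) (N0 := 3) cB012R_q (sideB hx hx') gokB (pinU hx hx') dokB X (by norm_num) (by norm_num) (l := (4 : Fin 7)) rfl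
      (gatB10 x) (gatB02 x) (gatB41 x) (datB10 x) (datB02 x) (datB41 x) ?_)
    (cornS_of (C := cB012R) (C0 := c0B) (j := (1 : Fin 7)) (k := (0 : Fin 7)) (lo := 4) (hi := 6) (W := 67108864) (N0 := 3) cB012R_q (sideB hx hx') gokB X (by norm_num) (by norm_num) (l := (4 : Fin 7)) rfl
      (gatB10 x) (gatB02 x) (gatB41 x) ?_)
    (thU (pinU hx hx')) rfl hκ (fun j q y => tC_eq j q y x) (esg_rng X.x0.le (by linarith [X.b, X.p0])).1 (mo_v x) le_rfl le_rfl
  · intro ρ a B hρ hd i h1 h2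
    fin_cases i
    · exact absurd h1 (by norm_num)
    · exact absurd h1 (by norm_num)
    · exact absurd h1 (by norm_num)
    · exact corW_cert (G1 := gB1q0) (G2 := gB0q2) (Ga := gB3q1) (Gb := gB4q1) (D1 := dB1q0) (D2 := dB0q2) (Da := dB3q1) (Db := dB4q1) cB012R_ok B hρ hen (gatB10 x) (gatB02 x) (fun h => absurd h (by decide)) (fun _ => gatB41 x) (datB10 x) (datB02 x) (fun h => absurd h (by decide)) (fun _ => datB41 x) hd hx hx' CW.B012R_103
    · exact corW_cert (G1 := gB1q0) (G2 := gB0q2) (Ga := gB4q1) (Gb := gB5q1) (D1 := dB1q0) (D2 := dB0q2) (Da := dB4q1) (Db := dB5q1) cB012R_ok B hρ hen (gatB10 x) (gatB02 x) (fun _ => gatB41 x) (fun _ => gatB51 x) (datB10 x) (datB02 x) (fun _ => datB41 x) (fun _ => datB51 x) hd hx hx' CW.B012R_104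
    · exact corW_cert (G1 := gB1q0) (G2 := gB0q2) (Ga := gB5q1) (Gb := gB6q1) (D1 := dB1q0) (D2 := dB0q2) (Da := dB5q1) (Db := dB6q1) cB012R_ok B hρ hen (gatB10 x) (gatB02 x) (fun _ => gatB51 x) (fun _ => gatB61 x) (datB10 x) (datB02 x) (fun _ => datB51 x) (fun _ => datB61 x) hd hx hx' CW.B012R_105
  · intro ρ a B hρ hd i h1 h2
    fin_cases i
    · exact absurd h1 (by norm_num)
    · exact absurd h1 (by norm_num)
    · exact absurd h1 (by norm_num)
    · exact corT_cert (G1 := gB1q0) (G2 := gB0q2) (Ga := gB3q1) (Gb := gB4q1) cB012R_ok B hρ (gatB10 x) (gatB02 x) (fun h => absurd h (by decide)) (fun _ => gatB41 x) hd hx hx' CG.B012R_103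
    · exact corT_cert (G1 := gB1q0) (G2 := gB0q2) (Ga := gB4q1) (Gb := gB5q1) cB012R_ok B hρ (gatB10 x) (gatB02 x) (fun _ => gatB41 x) (fun _ => gatB51 x) hd hx hx' CG.B012R_104
    · exact corT_cert (G1 := gB1q0) (G2 := gB0q2) (Ga := gB5q1) (Gb := gB6q1) cB012R_ok B hρ (gatB10 x) (gatB02 x) (fun _ => gatB51 x) (fun _ => gatB61 x) hd hx hx' CG.B012R_105

theorem altB_B012R_11 {κ x : ℝ} (hκ : κ * h0 = ken x) (hx : ((536870912 : ℕ) : ℝ) / S ≤ x) (hx' : x ≤ (((536870912 : ℕ) : ℝ) + (50465866 : ℕ)) / S) :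
    AltEB 3 κ (eng.v x) (3 / 40) (tnt (h0 * x) (3 / 10)) PP tK tL tC pcB (scP esg pd) [⟨0, 0, 0, 67108864⟩, ⟨1, 1, 0, 67108864⟩, ⟨2, 1, 0, 67108864⟩] 0 1 2 1 1 (sgb true) (sgb false) x := by
  have X : XR 67108864 x := XR.of hx hx' (by norm_num) (by norm_num) (by norm_num) (by norm_num)
  have hen : 0 < eng.v x := en_pos X.x0.le
  refine CornW.altB (C := cB012R) (j := (1 : Fin 7)) (k := (1 : Fin 7)) (Ef := esg) (pd := pd) (o := 3 / 40)
    (cornW_of (C := cB012R) (C0 := c0B) (En := eng) (mo := mog) (j := (1 : Fin 7)) (k := (1 : Fin 7)) (lo := 4) (hi := 6) (W := 67108864) (N0 := 3) cB012R_q (sideB hx hx') gokB (pinU hx hx') dokB X (by norm_num) (by norm_num) (l := (4 : Fin 7)) rfl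
      (gatB10 x) (gatB12 x) (gatB41 x) (datB10 x) (datB12 x) (datB41 x) ?_)
    (cornS_of (C := cB012R) (C0 := c0B) (j := (1 : Fin 7)) (k := (1 : Fin 7)) (lo := 4) (hi := 6) (W := 67108864) (N0 := 3) cB012R_q (sideB hx hx') gokB X (by norm_num) (by norm_num) (l := (4 : Fin 7)) rfl
      (gatB10 x) (gatB12 x) (gatB41 x) ?_)
    (thU (pinU hx hx')) rfl hκ (fun j q y => tC_eq j q y x) (esg_rng X.x0.le (by linarith [X.b, X.p0])).1 (mo_v x) le_rfl le_rfl
  · intro ρ a B hρ hd i h1 h2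
    fin_cases i
    · exact absurd h1 (by norm_num)
    · exact absurd h1 (by norm_num)
    · exact absurd h1 (by norm_num)
    · exact corW_cert (G1 := gB1q0) (G2 := gB1q2) (Ga := gB3q1) (Gb := gB4q1) (D1 := dB1q0) (D2 := dB1q2) (Da := dB3q1) (Db := dB4q1) cB012R_ok B hρ hen (gatB10 x) (gatB12 x) (fun h => absurd h (by decide)) (fun _ => gatB41 x) (datB10 x) (datB12 x) (fun h => absurd h (by decide)) (fun _ => datB41 x) hd hx hx' CW.B012R_113
    · exact corW_cert (G1 := gB1q0) (G2 := gB1q2) (Ga := gB4q1) (Gb := gB5q1) (D1 := dB1q0) (D2 := dB1q2) (Da := dB4q1) (Db := dB5q1) cB012R_ok B hρ hen (gatB10 x) (gatB12 x) (fun _ => gatB41 x) (fun _ => gatB51 x) (datB10 x) (datB12 x) (fun _ => datB41 x) (fun _ => datB51 x) hd hx hx' CW.B012R_114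
    · exact corW_cert (G1 := gB1q0) (G2 := gB1q2) (Ga := gB5q1) (Gb := gB6q1) (D1 := dB1q0) (D2 := dB1q2) (Da := dB5q1) (Db := dB6q1) cB012R_ok B hρ hen (gatB10 x) (gatB12 x) (fun _ => gatB51 x) (fun _ => gatB61 x) (datB10 x) (datB12 x) (fun _ => datB51 x) (fun _ => datB61 x) hd hx hx' CW.B012R_115
  · intro ρ a B hρ hd i h1 h2
    fin_cases i
    · exact absurd h1 (by norm_num)
    · exact absurd h1 (by norm_num)
    · exact absurd h1 (by norm_num)
    · exact corT_cert (G1 := gB1q0) (G2 := gB1q2) (Ga := gB3q1) (Gb := gB4q1) cB012R_ok B hρ (gatB10 x) (gatB12 x) (fun h => absurd h (by decide)) (fun _ => gatB41 x) hd hx hx' CG.B012R_113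
    · exact corT_cert (G1 := gB1q0) (G2 := gB1q2) (Ga := gB4q1) (Gb := gB5q1) cB012R_ok B hρ (gatB10 x) (gatB12 x) (fun _ => gatB41 x) (fun _ => gatB51 x) hd hx hx' CG.B012R_114
    · exact corT_cert (G1 := gB1q0) (G2 := gB1q2) (Ga := gB5q1) (Gb := gB6q1) cB012R_ok B hρ (gatB10 x) (gatB12 x) (fun _ => gatB51 x) (fun _ => gatB61 x) hd hx hx' CG.B012R_115

theorem altB_B012R_12 {κ x : ℝ} (hκ : κ * h0 = ken x) (hx : ((536870912 : ℕ) : ℝ) / S ≤ x) (hx' : x ≤ (((536870912 : ℕ) : ℝ) + (50465866 : ℕ)) / S) :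
    AltEB 3 κ (eng.v x) (3 / 40) (tnt (h0 * x) (3 / 10)) PP tK tL tC pcB (scP esg pd) [⟨0, 0, 0, 67108864⟩, ⟨1, 1, 0, 67108864⟩, ⟨2, 1, 0, 67108864⟩] 0 1 2 1 2 (sgb true) (sgb false) x := by
  have X : XR 67108864 x := XR.of hx hx' (by norm_num) (by norm_num) (by norm_num) (by norm_num)
  have hen : 0 < eng.v x := en_pos X.x0.le
  refine CornW.altB (C := cB012R) (j := (1 : Fin 7)) (k := (2 : Fin 7)) (Ef := esg) (pd := pd) (o := 3 / 40)
    (cornW_of (C := cB012R) (C0 := c0B) (En := eng) (mo := mog) (j := (1 : Fin 7)) (k := (2 : Fin 7)) (lo := 4) (hi := 6) (W := 67108864) (N0 := 3) cB012R_q (sideB hx hx') gokB (pinU hx hx') dokB X (by norm_num) (by norm_num) (l := (4 : Fin 7)) rfl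
      (gatB10 x) (gatB22 x) (gatB41 x) (datB10 x) (datB22 x) (datB41 x) ?_)
    (cornS_of (C := cB012R) (C0 := c0B) (j := (1 : Fin 7)) (k := (2 : Fin 7)) (lo := 4) (hi := 6) (W := 67108864) (N0 := 3) cB012R_q (sideB hx hx') gokB X (by norm_num) (by norm_num) (l := (4 : Fin 7)) rfl
      (gatB10 x) (gatB22 x) (gatB41 x) ?_)
    (thU (pinU hx hx')) rfl hκ (fun j q y => tC_eq j q y x) (esg_rng X.x0.le (by linarith [X.b, X.p0])).1 (mo_v x) le_rfl le_rfl
  · intro ρ a B hρ hd i h1 h2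
    fin_cases i
    · exact absurd h1 (by norm_num)
    · exact absurd h1 (by norm_num)
    · exact absurd h1 (by norm_num)
    · exact corW_cert (G1 := gB1q0) (G2 := gB2q2) (Ga := gB3q1) (Gb := gB4q1) (D1 := dB1q0) (D2 := dB2q2) (Da := dB3q1) (Db := dB4q1) cB012R_ok B hρ hen (gatB10 x) (gatB22 x) (fun h => absurd h (by decide)) (fun _ => gatB41 x) (datB10 x) (datB22 x) (fun h => absurd h (by decide)) (fun _ => datB41 x) hd hx hx' CW.B012R_123
    · exact corW_cert (G1 := gB1q0) (G2 := gB2q2) (Ga := gB4q1) (Gb := gB5q1) (D1 := dB1q0) (D2 := dB2q2) (Da := dB4q1) (Db := dB5q1) cB012R_ok B hρ hen (gatB10 x) (gatB22 x) (fun _ => gatB41 x) (fun _ => gatB51 x) (datB10 x) (datB22 x) (fun _ => datB41 x) (fun _ => datB51 x) hd hx hx' CW.B012R_124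
    · exact corW_cert (G1 := gB1q0) (G2 := gB2q2) (Ga := gB5q1) (Gb := gB6q1) (D1 := dB1q0) (D2 := dB2q2) (Da := dB5q1) (Db := dB6q1) cB012R_ok B hρ hen (gatB10 x) (gatB22 x) (fun _ => gatB51 x) (fun _ => gatB61 x) (datB10 x) (datB22 x) (fun _ => datB51 x) (fun _ => datB61 x) hd hx hx' CW.B012R_125
  · intro ρ a B hρ hd i h1 h2
    fin_cases i
    · exact absurd h1 (by norm_num)
    · exact absurd h1 (by norm_num)
    · exact absurd h1 (by norm_num)
    · exact corT_cert (G1 := gB1q0) (G2 := gB2q2) (Ga := gB3q1) (Gb := gB4q1) cB012R_ok B hρ (gatB10 x) (gatB22 x) (fun h => absurd h (by decide)) (fun _ => gatB41 x) hd hx hx' CG.B012R_123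
    · exact corT_cert (G1 := gB1q0) (G2 := gB2q2) (Ga := gB4q1) (Gb := gB5q1) cB012R_ok B hρ (gatB10 x) (gatB22 x) (fun _ => gatB41 x) (fun _ => gatB51 x) hd hx hx' CG.B012R_124
    · exact corT_cert (G1 := gB1q0) (G2 := gB2q2) (Ga := gB5q1) (Gb := gB6q1) cB012R_ok B hρ (gatB10 x) (gatB22 x) (fun _ => gatB51 x) (fun _ => gatB61 x) hd hx hx' CG.B012R_125

theorem altB_B012R_13 {κ x : ℝ} (hκ : κ * h0 = ken x) (hx : ((536870912 : ℕ) : ℝ) / S ≤ x) (hx' : x ≤ (((536870912 : ℕ) : ℝ) + (50465866 : ℕ)) / S) :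
    AltEB 3 κ (eng.v x) (3 / 40) (tnt (h0 * x) (3 / 10)) PP tK tL tC pcB (scP esg pd) [⟨0, 0, 0, 67108864⟩, ⟨1, 1, 0, 67108864⟩, ⟨2, 1, 0, 67108864⟩] 0 1 2 1 3 (sgb true) (sgb false) x := by
  have X : XR 67108864 x := XR.of hx hx' (by norm_num) (by norm_num) (by norm_num) (by norm_num)
  have hen : 0 < eng.v x := en_pos X.x0.le
  refine CornW.altB (C := cB012R) (j := (1 : Fin 7)) (k := (3 : Fin 7)) (Ef := esg) (pd := pd) (o := 3 / 40)
    (cornW_of (C := cB012R) (C0 := c0B) (En := eng) (mo := mog) (j := (1 : Fin 7)) (k := (3 : Fin 7)) (lo := 4) (hi := 6) (W := 67108864) (N0 := 3) cB012R_q (sideB hx hx') gokB (pinU hx hx') dokB X (by norm_num) (by norm_num) (l := (4 : Fin 7)) rfl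
      (gatB10 x) (gatB32 x) (gatB41 x) (datB10 x) (datB32 x) (datB41 x) ?_)
    (cornS_of (C := cB012R) (C0 := c0B) (j := (1 : Fin 7)) (k := (3 : Fin 7)) (lo := 4) (hi := 6) (W := 67108864) (N0 := 3) cB012R_q (sideB hx hx') gokB X (by norm_num) (by norm_num) (l := (4 : Fin 7)) rfl
      (gatB10 x) (gatB32 x) (gatB41 x) ?_)
    (thU (pinU hx hx')) rfl hκ (fun j q y => tC_eq j q y x) (esg_rng X.x0.le (by linarith [X.b, X.p0])).1 (mo_v x) le_rfl le_rfl
  · intro ρ a B hρ hd i h1 h2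
    fin_cases i
    · exact absurd h1 (by norm_num)
    · exact absurd h1 (by norm_num)
    · exact absurd h1 (by norm_num)
    · exact corW_cert (G1 := gB1q0) (G2 := gB3q2) (Ga := gB3q1) (Gb := gB4q1) (D1 := dB1q0) (D2 := dB3q2) (Da := dB3q1) (Db := dB4q1) cB012R_ok B hρ hen (gatB10 x) (gatB32 x) (fun h => absurd h (by decide)) (fun _ => gatB41 x) (datB10 x) (datB32 x) (fun h => absurd h (by decide)) (fun _ => datB41 x) hd hx hx' CW.B012R_133
    · exact corW_cert (G1 := gB1q0) (G2 := gB3q2) (Ga := gB4q1) (Gb := gB5q1) (D1 := dB1q0) (D2 := dB3q2) (Da := dB4q1) (Db := dB5q1) cB012R_ok B hρ hen (gatB10 x) (gatB32 x) (fun _ => gatB41 x) (fun _ => gatB51 x) (datB10 x) (datB32 x) (fun _ => datB41 x) (fun _ => datB51 x) hd hx hx' CW.B012R_134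
    · exact corW_cert (G1 := gB1q0) (G2 := gB3q2) (Ga := gB5q1) (Gb := gB6q1) (D1 := dB1q0) (D2 := dB3q2) (Da := dB5q1) (Db := dB6q1) cB012R_ok B hρ hen (gatB10 x) (gatB32 x) (fun _ => gatB51 x) (fun _ => gatB61 x) (datB10 x) (datB32 x) (fun _ => datB51 x) (fun _ => datB61 x) hd hx hx' CW.B012R_135
  · intro ρ a B hρ hd i h1 h2
    fin_cases i
    · exact absurd h1 (by norm_num)
    · exact absurd h1 (by norm_num)
    · exact absurd h1 (by norm_num)
    · exact corT_cert (G1 := gB1q0) (G2 := gB3q2) (Ga := gB3q1) (Gb := gB4q1) cB012R_ok B hρ (gatB10 x) (gatB32 x) (fun h => absurd h (by decide)) (fun _ => gatB41 x) hd hx hx' CG.B012R_133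
    · exact corT_cert (G1 := gB1q0) (G2 := gB3q2) (Ga := gB4q1) (Gb := gB5q1) cB012R_ok B hρ (gatB10 x) (gatB32 x) (fun _ => gatB41 x) (fun _ => gatB51 x) hd hx hx' CG.B012R_134
    · exact corT_cert (G1 := gB1q0) (G2 := gB3q2) (Ga := gB5q1) (Gb := gB6q1) cB012R_ok B hρ (gatB10 x) (gatB32 x) (fun _ => gatB51 x) (fun _ => gatB61 x) hd hx hx' CG.B012R_135

theorem altB_B012R_20 {κ x : ℝ} (hκ : κ * h0 = ken x) (hx : ((536870912 : ℕ) : ℝ) / S ≤ x) (hx' : x ≤ (((536870912 : ℕ) : ℝ) + (50465866 : ℕ)) / S) :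
    AltEB 3 κ (eng.v x) (3 / 40) (tnt (h0 * x) (3 / 10)) PP tK tL tC pcB (scP esg pd) [⟨0, 0, 0, 67108864⟩, ⟨1, 1, 0, 67108864⟩, ⟨2, 1, 0, 67108864⟩] 0 1 2 2 0 (sgb true) (sgb false) x := by
  have X : XR 67108864 x := XR.of hx hx' (by norm_num) (by norm_num) (by norm_num) (by norm_num)
  have hen : 0 < eng.v x := en_pos X.x0.le
  refine CornW.altB (C := cB012R) (j := (2 : Fin 7)) (k := (0 : Fin 7)) (Ef := esg) (pd := pd) (o := 3 / 40)
    (cornW_of (C := cB012R) (C0 := c0B) (En := eng) (mo := mog) (j := (2 : Fin 7)) (k := (0 : Fin 7)) (lo := 4) (hi := 6) (W := 67108864) (N0 := 3) cB012R_q (sideB hx hx') gokB (pinU hx hx') dokB X (by norm_num) (by norm_num) (l := (4 : Fin 7)) rfl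
      (gatB20 x) (gatB02 x) (gatB41 x) (datB20 x) (datB02 x) (datB41 x) ?_)
    (cornS_of (C := cB012R) (C0 := c0B) (j := (2 : Fin 7)) (k := (0 : Fin 7)) (lo := 4) (hi := 6) (W := 67108864) (N0 := 3) cB012R_q (sideB hx hx') gokB X (by norm_num) (by norm_num) (l := (4 : Fin 7)) rfl
      (gatB20 x) (gatB02 x) (gatB41 x) ?_)
    (thU (pinU hx hx')) rfl hκ (fun j q y => tC_eq j q y x) (esg_rng X.x0.le (by linarith [X.b, X.p0])).1 (mo_v x) le_rfl le_rfl
  · intro ρ a B hρ hd i h1 h2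
    fin_cases i
    · exact absurd h1 (by norm_num)
    · exact absurd h1 (by norm_num)
    · exact absurd h1 (by norm_num)
    · exact corW_cert (G1 := gB2q0) (G2 := gB0q2) (Ga := gB3q1) (Gb := gB4q1) (D1 := dB2q0) (D2 := dB0q2) (Da := dB3q1) (Db := dB4q1) cB012R_ok B hρ hen (gatB20 x) (gatB02 x) (fun h => absurd h (by decide)) (fun _ => gatB41 x) (datB20 x) (datB02 x) (fun h => absurd h (by decide)) (fun _ => datB41 x) hd hx hx' CW.B012R_203
    · exact corW_cert (G1 := gB2q0) (G2 := gB0q2) (Ga := gB4q1) (Gb := gB5q1) (D1 := dB2q0) (D2 := dB0q2) (Da := dB4q1) (Db := dB5q1) cB012R_ok B hρ hen (gatB20 x) (gatB02 x) (fun _ => gatB41 x) (fun _ => gatB51 x) (datB20 x) (datB02 x) (fun _ => datB41 x) (fun _ => datB51 x) hd hx hx' CW.B012R_204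
    · exact corW_cert (G1 := gB2q0) (G2 := gB0q2) (Ga := gB5q1) (Gb := gB6q1) (D1 := dB2q0) (D2 := dB0q2) (Da := dB5q1) (Db := dB6q1) cB012R_ok B hρ hen (gatB20 x) (gatB02 x) (fun _ => gatB51 x) (fun _ => gatB61 x) (datB20 x) (datB02 x) (fun _ => datB51 x) (fun _ => datB61 x) hd hx hx' CW.B012R_205
  · intro ρ a B hρ hd i h1 h2
    fin_cases i
    · exact absurd h1 (by norm_num)
    · exact absurd h1 (by norm_num)
    · exact absurd h1 (by norm_num)
    · exact corT_cert (G1 := gB2q0) (G2 := gB0q2) (Ga := gB3q1) (Gb := gB4q1) cB012R_ok B hρ (gatB20 x) (gatB02 x) (fun h => absurd h (by decide)) (fun _ => gatB41 x) hd hx hx' CG.B012R_203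
    · exact corT_cert (G1 := gB2q0) (G2 := gB0q2) (Ga := gB4q1) (Gb := gB5q1) cB012R_ok B hρ (gatB20 x) (gatB02 x) (fun _ => gatB41 x) (fun _ => gatB51 x) hd hx hx' CG.B012R_204
    · exact corT_cert (G1 := gB2q0) (G2 := gB0q2) (Ga := gB5q1) (Gb := gB6q1) cB012R_ok B hρ (gatB20 x) (gatB02 x) (fun _ => gatB51 x) (fun _ => gatB61 x) hd hx hx' CG.B012R_205

theorem altB_B012R_21 {κ x : ℝ} (hκ : κ * h0 = ken x) (hx : ((536870912 : ℕ) : ℝ) / S ≤ x) (hx' : x ≤ (((536870912 : ℕ) : ℝ) + (50465866 : ℕ)) / S) :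
    AltEB 3 κ (eng.v x) (3 / 40) (tnt (h0 * x) (3 / 10)) PP tK tL tC pcB (scP esg pd) [⟨0, 0, 0, 67108864⟩, ⟨1, 1, 0, 67108864⟩, ⟨2, 1, 0, 67108864⟩] 0 1 2 2 1 (sgb true) (sgb false) x := by
  have X : XR 67108864 x := XR.of hx hx' (by norm_num) (by norm_num) (by norm_num) (by norm_num)
  have hen : 0 < eng.v x := en_pos X.x0.le
  refine CornW.altB (C := cB012R) (j := (2 : Fin 7)) (k := (1 : Fin 7)) (Ef := esg) (pd := pd) (o := 3 / 40)
    (cornW_of (C := cB012R) (C0 := c0B) (En := eng) (mo := mog) (j := (2 : Fin 7)) (k := (1 : Fin 7)) (lo := 4) (hi := 6) (W := 67108864) (N0 := 3) cB012R_q (sideB hx hx') gokB (pinU hx hx') dokB X (by norm_num) (by norm_num) (l := (4 : Fin 7)) rfl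
      (gatB20 x) (gatB12 x) (gatB41 x) (datB20 x) (datB12 x) (datB41 x) ?_)
    (cornS_of (C := cB012R) (C0 := c0B) (j := (2 : Fin 7)) (k := (1 : Fin 7)) (lo := 4) (hi := 6) (W := 67108864) (N0 := 3) cB012R_q (sideB hx hx') gokB X (by norm_num) (by norm_num) (l := (4 : Fin 7)) rfl
      (gatB20 x) (gatB12 x) (gatB41 x) ?_)
    (thU (pinU hx hx')) rfl hκ (fun j q y => tC_eq j q y x) (esg_rng X.x0.le (by linarith [X.b, X.p0])).1 (mo_v x) le_rfl le_rfl
  · intro ρ a B hρ hd i h1 h2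
    fin_cases i
    · exact absurd h1 (by norm_num)
    · exact absurd h1 (by norm_num)
    · exact absurd h1 (by norm_num)
    · exact corW_cert (G1 := gB2q0) (G2 := gB1q2) (Ga := gB3q1) (Gb := gB4q1) (D1 := dB2q0) (D2 := dB1q2) (Da := dB3q1) (Db := dB4q1) cB012R_ok B hρ hen (gatB20 x) (gatB12 x) (fun h => absurd h (by decide)) (fun _ => gatB41 x) (datB20 x) (datB12 x) (fun h => absurd h (by decide)) (fun _ => datB41 x) hd hx hx' CW.B012R_213
    · exact corW_cert (G1 := gB2q0) (G2 := gB1q2) (Ga := gB4q1) (Gb := gB5q1) (D1 := dB2q0) (D2 := dB1q2) (Da := dB4q1) (Db := dB5q1) cB012R_ok B hρ hen (gatB20 x) (gatB12 x) (fun _ => gatB41 x) (fun _ => gatB51 x) (datB20 x) (datB12 x) (fun _ => datB41 x) (fun _ => datB51 x) hd hx hx' CW.B012R_214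
    · exact corW_cert (G1 := gB2q0) (G2 := gB1q2) (Ga := gB5q1) (Gb := gB6q1) (D1 := dB2q0) (D2 := dB1q2) (Da := dB5q1) (Db := dB6q1) cB012R_ok B hρ hen (gatB20 x) (gatB12 x) (fun _ => gatB51 x) (fun _ => gatB61 x) (datB20 x) (datB12 x) (fun _ => datB51 x) (fun _ => datB61 x) hd hx hx' CW.B012R_215
  · intro ρ a B hρ hd i h1 h2
    fin_cases i
    · exact absurd h1 (by norm_num)
    · exact absurd h1 (by norm_num)
    · exact absurd h1 (by norm_num)
    · exact corT_cert (G1 := gB2q0) (G2 := gB1q2) (Ga := gB3q1) (Gb := gB4q1) cB012R_ok B hρ (gatB20 x) (gatB12 x) (fun h => absurd h (by decide)) (fun _ => gatB41 x) hd hx hx' CG.B012R_213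
    · exact corT_cert (G1 := gB2q0) (G2 := gB1q2) (Ga := gB4q1) (Gb := gB5q1) cB012R_ok B hρ (gatB20 x) (gatB12 x) (fun _ => gatB41 x) (fun _ => gatB51 x) hd hx hx' CG.B012R_214
    · exact corT_cert (G1 := gB2q0) (G2 := gB1q2) (Ga := gB5q1) (Gb := gB6q1) cB012R_ok B hρ (gatB20 x) (gatB12 x) (fun _ => gatB51 x) (fun _ => gatB61 x) hd hx hx' CG.B012R_215

theorem altB_B012R_22 {κ x : ℝ} (hκ : κ * h0 = ken x) (hx : ((536870912 : ℕ) : ℝ) / S ≤ x) (hx' : x ≤ (((536870912 : ℕ) : ℝ) + (50465866 : ℕ)) / S) :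
    AltEB 3 κ (eng.v x) (3 / 40) (tnt (h0 * x) (3 / 10)) PP tK tL tC pcB (scP esg pd) [⟨0, 0, 0, 67108864⟩, ⟨1, 1, 0, 67108864⟩, ⟨2, 1, 0, 67108864⟩] 0 1 2 2 2 (sgb true) (sgb false) x := by
  have X : XR 67108864 x := XR.of hx hx' (by norm_num) (by norm_num) (by norm_num) (by norm_num)
  have hen : 0 < eng.v x := en_pos X.x0.le
  refine CornW.altB (C := cB012R) (j := (2 : Fin 7)) (k := (2 : Fin 7)) (Ef := esg) (pd := pd) (o := 3 / 40)
    (cornW_of (C := cB012R) (C0 := c0B) (En := eng) (mo := mog) (j := (2 : Fin 7)) (k := (2 : Fin 7)) (lo := 4) (hi := 6) (W := 67108864) (N0 := 3) cB012R_q (sideB hx hx') gokB (pinU hx hx') dokB X (by norm_num) (by norm_num) (l := (4 : Fin 7)) rfl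
      (gatB20 x) (gatB22 x) (gatB41 x) (datB20 x) (datB22 x) (datB41 x) ?_)
    (cornS_of (C := cB012R) (C0 := c0B) (j := (2 : Fin 7)) (k := (2 : Fin 7)) (lo := 4) (hi := 6) (W := 67108864) (N0 := 3) cB012R_q (sideB hx hx') gokB X (by norm_num) (by norm_num) (l := (4 : Fin 7)) rfl
      (gatB20 x) (gatB22 x) (gatB41 x) ?_)
    (thU (pinU hx hx')) rfl hκ (fun j q y => tC_eq j q y x) (esg_rng X.x0.le (by linarith [X.b, X.p0])).1 (mo_v x) le_rfl le_rfl
  · intro ρ a B hρ hd i h1 h2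
    fin_cases i
    · exact absurd h1 (by norm_num)
    · exact absurd h1 (by norm_num)
    · exact absurd h1 (by norm_num)
    · exact corW_cert (G1 := gB2q0) (G2 := gB2q2) (Ga := gB3q1) (Gb := gB4q1) (D1 := dB2q0) (D2 := dB2q2) (Da := dB3q1) (Db := dB4q1) cB012R_ok B hρ hen (gatB20 x) (gatB22 x) (fun h => absurd h (by decide)) (fun _ => gatB41 x) (datB20 x) (datB22 x) (fun h => absurd h (by decide)) (fun _ => datB41 x) hd hx hx' CW.B012R_223
    · exact corW_cert (G1 := gB2q0) (G2 := gB2q2) (Ga := gB4q1) (Gb := gB5q1) (D1 := dB2q0) (D2 := dB2q2) (Da := dB4q1) (Db := dB5q1) cB012R_ok B hρ hen (gatB20 x) (gatB22 x) (fun _ => gatB41 x) (fun _ => gatB51 x) (datB20 x) (datB22 x) (fun _ => datB41 x) (fun _ => datB51 x) hd hx hx' CW.B012R_224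
    · exact corW_cert (G1 := gB2q0) (G2 := gB2q2) (Ga := gB5q1) (Gb := gB6q1) (D1 := dB2q0) (D2 := dB2q2) (Da := dB5q1) (Db := dB6q1) cB012R_ok B hρ hen (gatB20 x) (gatB22 x) (fun _ => gatB51 x) (fun _ => gatB61 x) (datB20 x) (datB22 x) (fun _ => datB51 x) (fun _ => datB61 x) hd hx hx' CW.B012R_225
  · intro ρ a B hρ hd i h1 h2
    fin_cases i
    · exact absurd h1 (by norm_num)
    · exact absurd h1 (by norm_num)
    · exact absurd h1 (by norm_num)
    · exact corT_cert (G1 := gB2q0) (G2 := gB2q2) (Ga := gB3q1) (Gb := gB4q1) cB012R_ok B hρ (gatB20 x) (gatB22 x) (fun h => absurd h (by decide)) (fun _ => gatB41 x) hd hx hx' CG.B012R_223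
    · exact corT_cert (G1 := gB2q0) (G2 := gB2q2) (Ga := gB4q1) (Gb := gB5q1) cB012R_ok B hρ (gatB20 x) (gatB22 x) (fun _ => gatB41 x) (fun _ => gatB51 x) hd hx hx' CG.B012R_224
    · exact corT_cert (G1 := gB2q0) (G2 := gB2q2) (Ga := gB5q1) (Gb := gB6q1) cB012R_ok B hρ (gatB20 x) (gatB22 x) (fun _ => gatB51 x) (fun _ => gatB61 x) hd hx hx' CG.B012R_225

theorem altB_B012R_23 {κ x : ℝ} (hκ : κ * h0 = ken x) (hx : ((536870912 : ℕ) : ℝ) / S ≤ x) (hx' : x ≤ (((536870912 : ℕ) : ℝ) + (50465866 : ℕ)) / S) :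
    AltEB 3 κ (eng.v x) (3 / 40) (tnt (h0 * x) (3 / 10)) PP tK tL tC pcB (scP esg pd) [⟨0, 0, 0, 67108864⟩, ⟨1, 1, 0, 67108864⟩, ⟨2, 1, 0, 67108864⟩] 0 1 2 2 3 (sgb true) (sgb false) x := by
  have X : XR 67108864 x := XR.of hx hx' (by norm_num) (by norm_num) (by norm_num) (by norm_num)
  have hen : 0 < eng.v x := en_pos X.x0.le
  refine CornW.altB (C := cB012R) (j := (2 : Fin 7)) (k := (3 : Fin 7)) (Ef := esg) (pd := pd) (o := 3 / 40)
    (cornW_of (C := cB012R) (C0 := c0B) (En := eng) (mo := mog) (j := (2 : Fin 7)) (k := (3 : Fin 7)) (lo := 4) (hi := 6) (W := 67108864) (N0 := 3) cB012R_q (sideB hx hx') gokB (pinU hx hx') dokB X (by norm_num) (by norm_num) (l := (4 : Fin 7)) rfl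
      (gatB20 x) (gatB32 x) (gatB41 x) (datB20 x) (datB32 x) (datB41 x) ?_)
    (cornS_of (C := cB012R) (C0 := c0B) (j := (2 : Fin 7)) (k := (3 : Fin 7)) (lo := 4) (hi := 6) (W := 67108864) (N0 := 3) cB012R_q (sideB hx hx') gokB X (by norm_num) (by norm_num) (l := (4 : Fin 7)) rfl
      (gatB20 x) (gatB32 x) (gatB41 x) ?_)
    (thU (pinU hx hx')) rfl hκ (fun j q y => tC_eq j q y x) (esg_rng X.x0.le (by linarith [X.b, X.p0])).1 (mo_v x) le_rfl le_rfl
  · intro ρ a B hρ hd i h1 h2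
    fin_cases i
    · exact absurd h1 (by norm_num)
    · exact absurd h1 (by norm_num)
    · exact absurd h1 (by norm_num)
    · exact corW_cert (G1 := gB2q0) (G2 := gB3q2) (Ga := gB3q1) (Gb := gB4q1) (D1 := dB2q0) (D2 := dB3q2) (Da := dB3q1) (Db := dB4q1) cB012R_ok B hρ hen (gatB20 x) (gatB32 x) (fun h => absurd h (by decide)) (fun _ => gatB41 x) (datB20 x) (datB32 x) (fun h => absurd h (by decide)) (fun _ => datB41 x) hd hx hx' CW.B012R_233
    · exact corW_cert (G1 := gB2q0) (G2 := gB3q2) (Ga := gB4q1) (Gb := gB5q1) (D1 := dB2q0) (D2 := dB3q2) (Da := dB4q1) (Db := dB5q1) cB012R_ok B hρ hen (gatB20 x) (gatB32 x) (fun _ => gatB41 x) (fun _ => gatB51 x) (datB20 x) (datB32 x) (fun _ => datB41 x) (fun _ => datB51 x) hd hx hx' CW.B012R_234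
    · exact corW_cert (G1 := gB2q0) (G2 := gB3q2) (Ga := gB5q1) (Gb := gB6q1) (D1 := dB2q0) (D2 := dB3q2) (Da := dB5q1) (Db := dB6q1) cB012R_ok B hρ hen (gatB20 x) (gatB32 x) (fun _ => gatB51 x) (fun _ => gatB61 x) (datB20 x) (datB32 x) (fun _ => datB51 x) (fun _ => datB61 x) hd hx hx' CW.B012R_235
  · intro ρ a B hρ hd i h1 h2
    fin_cases i
    · exact absurd h1 (by norm_num)
    · exact absurd h1 (by norm_num)
    · exact absurd h1 (by norm_num)
    · exact corT_cert (G1 := gB2q0) (G2 := gB3q2) (Ga := gB3q1) (Gb := gB4q1) cB012R_ok B hρ (gatB20 x) (gatB32 x) (fun h => absurd h (by decide)) (fun _ => gatB41 x) hd hx hx' CG.B012R_233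
    · exact corT_cert (G1 := gB2q0) (G2 := gB3q2) (Ga := gB4q1) (Gb := gB5q1) cB012R_ok B hρ (gatB20 x) (gatB32 x) (fun _ => gatB41 x) (fun _ => gatB51 x) hd hx hx' CG.B012R_234
    · exact corT_cert (G1 := gB2q0) (G2 := gB3q2) (Ga := gB5q1) (Gb := gB6q1) cB012R_ok B hρ (gatB20 x) (gatB32 x) (fun _ => gatB51 x) (fun _ => gatB61 x) hd hx hx' CG.B012R_235

theorem altB_B012R_30 {κ x : ℝ} (hκ : κ * h0 = ken x) (hx : ((536870912 : ℕ) : ℝ) / S ≤ x) (hx' : x ≤ (((536870912 : ℕ) : ℝ) + (50465866 : ℕ)) / S) :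
    AltEB 3 κ (eng.v x) (3 / 40) (tnt (h0 * x) (3 / 10)) PP tK tL tC pcB (scP esg pd) [⟨0, 0, 0, 67108864⟩, ⟨1, 1, 0, 67108864⟩, ⟨2, 1, 0, 67108864⟩] 0 1 2 3 0 (sgb true) (sgb false) x := by
  have X : XR 67108864 x := XR.of hx hx' (by norm_num) (by norm_num) (by norm_num) (by norm_num)
  have hen : 0 < eng.v x := en_pos X.x0.le
  refine CornW.altB (C := cB012R) (j := (3 : Fin 7)) (k := (0 : Fin 7)) (Ef := esg) (pd := pd) (o := 3 / 40)
    (cornW_of (C := cB012R) (C0 := c0B) (En := eng) (mo := mog) (j := (3 : Fin 7)) (k := (0 : Fin 7)) (lo := 4) (hi := 6) (W := 67108864) (N0 := 3) cB012R_q (sideB hx hx') gokB (pinU hx hx') dokB X (by norm_num) (by norm_num) (l := (4 : Fin 7)) rfl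
      (gatB30 x) (gatB02 x) (gatB41 x) (datB30 x) (datB02 x) (datB41 x) ?_)
    (cornS_of (C := cB012R) (C0 := c0B) (j := (3 : Fin 7)) (k := (0 : Fin 7)) (lo := 4) (hi := 6) (W := 67108864) (N0 := 3) cB012R_q (sideB hx hx') gokB X (by norm_num) (by norm_num) (l := (4 : Fin 7)) rfl
      (gatB30 x) (gatB02 x) (gatB41 x) ?_)
    (thU (pinU hx hx')) rfl hκ (fun j q y => tC_eq j q y x) (esg_rng X.x0.le (by linarith [X.b, X.p0])).1 (mo_v x) le_rfl le_rfl
  · intro ρ a B hρ hd i h1 h2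
    fin_cases i
    · exact absurd h1 (by norm_num)
    · exact absurd h1 (by norm_num)
    · exact absurd h1 (by norm_num)
    · exact corW_cert (G1 := gB3q0) (G2 := gB0q2) (Ga := gB3q1) (Gb := gB4q1) (D1 := dB3q0) (D2 := dB0q2) (Da := dB3q1) (Db := dB4q1) cB012R_ok B hρ hen (gatB30 x) (gatB02 x) (fun h => absurd h (by decide)) (fun _ => gatB41 x) (datB30 x) (datB02 x) (fun h => absurd h (by decide)) (fun _ => datB41 x) hd hx hx' CW.B012R_303
    · exact corW_cert (G1 := gB3q0) (G2 := gB0q2) (Ga := gB4q1) (Gb := gB5q1) (D1 := dB3q0) (D2 := dB0q2) (Da := dB4q1) (Db := dB5q1) cB012R_ok B hρ hen (gatB30 x) (gatB02 x) (fun _ => gatB41 x) (fun _ => gatB51 x) (datB30 x) (datB02 x) (fun _ => datB41 x) (fun _ => datB51 x) hd hx hx' CW.B012R_304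
    · exact corW_cert (G1 := gB3q0) (G2 := gB0q2) (Ga := gB5q1) (Gb := gB6q1) (D1 := dB3q0) (D2 := dB0q2) (Da := dB5q1) (Db := dB6q1) cB012R_ok B hρ hen (gatB30 x) (gatB02 x) (fun _ => gatB51 x) (fun _ => gatB61 x) (datB30 x) (datB02 x) (fun _ => datB51 x) (fun _ => datB61 x) hd hx hx' CW.B012R_305
  · intro ρ a B hρ hd i h1 h2
    fin_cases i
    · exact absurd h1 (by norm_num)
    · exact absurd h1 (by norm_num)
    · exact absurd h1 (by norm_num)
    · exact corT_cert (G1 := gB3q0) (G2 := gB0q2) (Ga := gB3q1) (Gb := gB4q1) cB012R_ok B hρ (gatB30 x) (gatB02 x) (fun h => absurd h (by decide)) (fun _ => gatB41 x) hd hx hx' CG.B012R_303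
    · exact corT_cert (G1 := gB3q0) (G2 := gB0q2) (Ga := gB4q1) (Gb := gB5q1) cB012R_ok B hρ (gatB30 x) (gatB02 x) (fun _ => gatB41 x) (fun _ => gatB51 x) hd hx hx' CG.B012R_304
    · exact corT_cert (G1 := gB3q0) (G2 := gB0q2) (Ga := gB5q1) (Gb := gB6q1) cB012R_ok B hρ (gatB30 x) (gatB02 x) (fun _ => gatB51 x) (fun _ => gatB61 x) hd hx hx' CG.B012R_305

theorem altB_B012R_31 {κ x : ℝ} (hκ : κ * h0 = ken x) (hx : ((536870912 : ℕ) : ℝ) / S ≤ x) (hx' : x ≤ (((536870912 : ℕ) : ℝ) + (50465866 : ℕ)) / S) :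
    AltEB 3 κ (eng.v x) (3 / 40) (tnt (h0 * x) (3 / 10)) PP tK tL tC pcB (scP esg pd) [⟨0, 0, 0, 67108864⟩, ⟨1, 1, 0, 67108864⟩, ⟨2, 1, 0, 67108864⟩] 0 1 2 3 1 (sgb true) (sgb false) x := by
  have X : XR 67108864 x := XR.of hx hx' (by norm_num) (by norm_num) (by norm_num) (by norm_num)
  have hen : 0 < eng.v x := en_pos X.x0.le
  refine CornW.altB (C := cB012R) (j := (3 : Fin 7)) (k := (1 : Fin 7)) (Ef := esg) (pd := pd) (o := 3 / 40)
    (cornW_of (C := cB012R) (C0 := c0B) (En := eng) (mo := mog) (j := (3 : Fin 7)) (k := (1 : Fin 7)) (lo := 4) (hi := 6) (W := 67108864) (N0 := 3) cB012R_q (sideB hx hx') gokB (pinU hx hx') dokB X (by norm_num) (by norm_num) (l := (4 : Fin 7)) rfl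
      (gatB30 x) (gatB12 x) (gatB41 x) (datB30 x) (datB12 x) (datB41 x) ?_)
    (cornS_of (C := cB012R) (C0 := c0B) (j := (3 : Fin 7)) (k := (1 : Fin 7)) (lo := 4) (hi := 6) (W := 67108864) (N0 := 3) cB012R_q (sideB hx hx') gokB X (by norm_num) (by norm_num) (l := (4 : Fin 7)) rfl
      (gatB30 x) (gatB12 x) (gatB41 x) ?_)
    (thU (pinU hx hx')) rfl hκ (fun j q y => tC_eq j q y x) (esg_rng X.x0.le (by linarith [X.b, X.p0])).1 (mo_v x) le_rfl le_rfl
  · intro ρ a B hρ hd i h1 h2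
    fin_cases i
    · exact absurd h1 (by norm_num)
    · exact absurd h1 (by norm_num)
    · exact absurd h1 (by norm_num)
    · exact corW_cert (G1 := gB3q0) (G2 := gB1q2) (Ga := gB3q1) (Gb := gB4q1) (D1 := dB3q0) (D2 := dB1q2) (Da := dB3q1) (Db := dB4q1) cB012R_ok B hρ hen (gatB30 x) (gatB12 x) (fun h => absurd h (by decide)) (fun _ => gatB41 x) (datB30 x) (datB12 x) (fun h => absurd h (by decide)) (fun _ => datB41 x) hd hx hx' CW.B012R_313
    · exact corW_cert (G1 := gB3q0) (G2 := gB1q2) (Ga := gB4q1) (Gb := gB5q1) (D1 := dB3q0) (D2 := dB1q2) (Da := dB4q1) (Db := dB5q1) cB012R_ok B hρ hen (gatB30 x) (gatB12 x) (fun _ => gatB41 x) (fun _ => gatB51 x) (datB30 x) (datB12 x) (fun _ => datB41 x) (fun _ => datB51 x) hd hx hx' CW.B012R_314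
    · exact corW_cert (G1 := gB3q0) (G2 := gB1q2) (Ga := gB5q1) (Gb := gB6q1) (D1 := dB3q0) (D2 := dB1q2) (Da := dB5q1) (Db := dB6q1) cB012R_ok B hρ hen (gatB30 x) (gatB12 x) (fun _ => gatB51 x) (fun _ => gatB61 x) (datB30 x) (datB12 x) (fun _ => datB51 x) (fun _ => datB61 x) hd hx hx' CW.B012R_315
  · intro ρ a B hρ hd i h1 h2
    fin_cases i
    · exact absurd h1 (by norm_num)
    · exact absurd h1 (by norm_num)
    · exact absurd h1 (by norm_num)
    · exact corT_cert (G1 := gB3q0) (G2 := gB1q2) (Ga := gB3q1) (Gb := gB4q1) cB012R_ok B hρ (gatB30 x) (gatB12 x) (fun h => absurd h (by decide)) (fun _ => gatB41 x) hd hx hx' CG.B012R_313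
    · exact corT_cert (G1 := gB3q0) (G2 := gB1q2) (Ga := gB4q1) (Gb := gB5q1) cB012R_ok B hρ (gatB30 x) (gatB12 x) (fun _ => gatB41 x) (fun _ => gatB51 x) hd hx hx' CG.B012R_314
    · exact corT_cert (G1 := gB3q0) (G2 := gB1q2) (Ga := gB5q1) (Gb := gB6q1) cB012R_ok B hρ (gatB30 x) (gatB12 x) (fun _ => gatB51 x) (fun _ => gatB61 x) hd hx hx' CG.B012R_315

theorem altB_B012R_32 {κ x : ℝ} (hκ : κ * h0 = ken x) (hx : ((536870912 : ℕ) : ℝ) / S ≤ x) (hx' : x ≤ (((536870912 : ℕ) : ℝ) + (50465866 : ℕ)) / S) :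
    AltEB 3 κ (eng.v x) (3 / 40) (tnt (h0 * x) (3 / 10)) PP tK tL tC pcB (scP esg pd) [⟨0, 0, 0, 67108864⟩, ⟨1, 1, 0, 67108864⟩, ⟨2, 1, 0, 67108864⟩] 0 1 2 3 2 (sgb true) (sgb false) x := by
  have X : XR 67108864 x := XR.of hx hx' (by norm_num) (by norm_num) (by norm_num) (by norm_num)
  have hen : 0 < eng.v x := en_pos X.x0.le
  refine CornW.altB (C := cB012R) (j := (3 : Fin 7)) (k := (2 : Fin 7)) (Ef := esg) (pd := pd) (o := 3 / 40)
    (cornW_of (C := cB012R) (C0 := c0B) (En := eng) (mo := mog) (j := (3 : Fin 7)) (k := (2 : Fin 7)) (lo := 4) (hi := 6) (W := 67108864) (N0 := 3) cB012R_q (sideB hx hx') gokB (pinU hx hx') dokB X (by norm_num) (by norm_num) (l := (4 : Fin 7)) rfl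
      (gatB30 x) (gatB22 x) (gatB41 x) (datB30 x) (datB22 x) (datB41 x) ?_)
    (cornS_of (C := cB012R) (C0 := c0B) (j := (3 : Fin 7)) (k := (2 : Fin 7)) (lo := 4) (hi := 6) (W := 67108864) (N0 := 3) cB012R_q (sideB hx hx') gokB X (by norm_num) (by norm_num) (l := (4 : Fin 7)) rfl
      (gatB30 x) (gatB22 x) (gatB41 x) ?_)
    (thU (pinU hx hx')) rfl hκ (fun j q y => tC_eq j q y x) (esg_rng X.x0.le (by linarith [X.b, X.p0])).1 (mo_v x) le_rfl le_rfl
  · intro ρ a B hρ hd i h1 h2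
    fin_cases i
    · exact absurd h1 (by norm_num)
    · exact absurd h1 (by norm_num)
    · exact absurd h1 (by norm_num)
    · exact corW_cert (G1 := gB3q0) (G2 := gB2q2) (Ga := gB3q1) (Gb := gB4q1) (D1 := dB3q0) (D2 := dB2q2) (Da := dB3q1) (Db := dB4q1) cB012R_ok B hρ hen (gatB30 x) (gatB22 x) (fun h => absurd h (by decide)) (fun _ => gatB41 x) (datB30 x) (datB22 x) (fun h => absurd h (by decide)) (fun _ => datB41 x) hd hx hx' CW.B012R_323
    · exact corW_cert (G1 := gB3q0) (G2 := gB2q2) (Ga := gB4q1) (Gb := gB5q1) (D1 := dB3q0) (D2 := dB2q2) (Da := dB4q1) (Db := dB5q1) cB012R_ok B hρ hen (gatB30 x) (gatB22 x) (fun _ => gatB41 x) (fun _ => gatB51 x) (datB30 x) (datB22 x) (fun _ => datB41 x) (fun _ => datB51 x) hd hx hx' CW.B012R_324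
    · exact corW_cert (G1 := gB3q0) (G2 := gB2q2) (Ga := gB5q1) (Gb := gB6q1) (D1 := dB3q0) (D2 := dB2q2) (Da := dB5q1) (Db := dB6q1) cB012R_ok B hρ hen (gatB30 x) (gatB22 x) (fun _ => gatB51 x) (fun _ => gatB61 x) (datB30 x) (datB22 x) (fun _ => datB51 x) (fun _ => datB61 x) hd hx hx' CW.B012R_325
  · intro ρ a B hρ hd i h1 h2
    fin_cases i
    · exact absurd h1 (by norm_num)
    · exact absurd h1 (by norm_num)
    · exact absurd h1 (by norm_num)
    · exact corT_cert (G1 := gB3q0) (G2 := gB2q2) (Ga := gB3q1) (Gb := gB4q1) cB012R_ok B hρ (gatB30 x) (gatB22 x) (fun h => absurd h (by decide)) (fun _ => gatB41 x) hd hx hx' CG.B012R_323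
    · exact corT_cert (G1 := gB3q0) (G2 := gB2q2) (Ga := gB4q1) (Gb := gB5q1) cB012R_ok B hρ (gatB30 x) (gatB22 x) (fun _ => gatB41 x) (fun _ => gatB51 x) hd hx hx' CG.B012R_324
    · exact corT_cert (G1 := gB3q0) (G2 := gB2q2) (Ga := gB5q1) (Gb := gB6q1) cB012R_ok B hρ (gatB30 x) (gatB22 x) (fun _ => gatB51 x) (fun _ => gatB61 x) hd hx hx' CG.B012R_325

theorem altB_B012R_33 {κ x : ℝ} (hκ : κ * h0 = ken x) (hx : ((536870912 : ℕ) : ℝ) / S ≤ x) (hx' : x ≤ (((536870912 : ℕ) : ℝ) + (50465866 : ℕ)) / S) :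
    AltEB 3 κ (eng.v x) (3 / 40) (tnt (h0 * x) (3 / 10)) PP tK tL tC pcB (scP esg pd) [⟨0, 0, 0, 67108864⟩, ⟨1, 1, 0, 67108864⟩, ⟨2, 1, 0, 67108864⟩] 0 1 2 3 3 (sgb true) (sgb false) x := by
  have X : XR 67108864 x := XR.of hx hx' (by norm_num) (by norm_num) (by norm_num) (by norm_num)
  have hen : 0 < eng.v x := en_pos X.x0.le
  refine CornW.altB (C := cB012R) (j := (3 : Fin 7)) (k := (3 : Fin 7)) (Ef := esg) (pd := pd) (o := 3 / 40)
    (cornW_of (C := cB012R) (C0 := c0B) (En := eng) (mo := mog) (j := (3 : Fin 7)) (k := (3 : Fin 7)) (lo := 4) (hi := 6) (W := 67108864) (N0 := 3) cB012R_q (sideB hx hx') gokB (pinU hx hx') dokB X (by norm_num) (by norm_num) (l := (4 : Fin 7)) rfl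
      (gatB30 x) (gatB32 x) (gatB41 x) (datB30 x) (datB32 x) (datB41 x) ?_)
    (cornS_of (C := cB012R) (C0 := c0B) (j := (3 : Fin 7)) (k := (3 : Fin 7)) (lo := 4) (hi := 6) (W := 67108864) (N0 := 3) cB012R_q (sideB hx hx') gokB X (by norm_num) (by norm_num) (l := (4 : Fin 7)) rfl
      (gatB30 x) (gatB32 x) (gatB41 x) ?_)
    (thU (pinU hx hx')) rfl hκ (fun j q y => tC_eq j q y x) (esg_rng X.x0.le (by linarith [X.b, X.p0])).1 (mo_v x) le_rfl le_rfl
  · intro ρ a B hρ hd i h1 h2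
    fin_cases i
    · exact absurd h1 (by norm_num)
    · exact absurd h1 (by norm_num)
    · exact absurd h1 (by norm_num)
    · exact corW_cert (G1 := gB3q0) (G2 := gB3q2) (Ga := gB3q1) (Gb := gB4q1) (D1 := dB3q0) (D2 := dB3q2) (Da := dB3q1) (Db := dB4q1) cB012R_ok B hρ hen (gatB30 x) (gatB32 x) (fun h => absurd h (by decide)) (fun _ => gatB41 x) (datB30 x) (datB32 x) (fun h => absurd h (by decide)) (fun _ => datB41 x) hd hx hx' CW.B012R_333
    · exact corW_cert (G1 := gB3q0) (G2 := gB3q2) (Ga := gB4q1) (Gb := gB5q1) (D1 := dB3q0) (D2 := dB3q2) (Da := dB4q1) (Db := dB5q1) cB012R_ok B hρ hen (gatB30 x) (gatB32 x) (fun _ => gatB41 x) (fun _ => gatB51 x) (datB30 x) (datB32 x) (fun _ => datB41 x) (fun _ => datB51 x) hd hx hx' CW.B012R_334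
    · exact corW_cert (G1 := gB3q0) (G2 := gB3q2) (Ga := gB5q1) (Gb := gB6q1) (D1 := dB3q0) (D2 := dB3q2) (Da := dB5q1) (Db := dB6q1) cB012R_ok B hρ hen (gatB30 x) (gatB32 x) (fun _ => gatB51 x) (fun _ => gatB61 x) (datB30 x) (datB32 x) (fun _ => datB51 x) (fun _ => datB61 x) hd hx hx' CW.B012R_335
  · intro ρ a B hρ hd i h1 h2
    fin_cases i
    · exact absurd h1 (by norm_num)
    · exact absurd h1 (by norm_num)
    · exact absurd h1 (by norm_num)
    · exact corT_cert (G1 := gB3q0) (G2 := gB3q2) (Ga := gB3q1) (Gb := gB4q1) cB012R_ok B hρ (gatB30 x) (gatB32 x) (fun h => absurd h (by decide)) (fun _ => gatB41 x) hd hx hx' CG.B012R_333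
    · exact corT_cert (G1 := gB3q0) (G2 := gB3q2) (Ga := gB4q1) (Gb := gB5q1) cB012R_ok B hρ (gatB30 x) (gatB32 x) (fun _ => gatB41 x) (fun _ => gatB51 x) hd hx hx' CG.B012R_334
    · exact corT_cert (G1 := gB3q0) (G2 := gB3q2) (Ga := gB5q1) (Gb := gB6q1) cB012R_ok B hρ (gatB30 x) (gatB32 x) (fun _ => gatB51 x) (fun _ => gatB61 x) hd hx hx' CG.B012R_335

theorem altB_B022E_00 {κ x : ℝ} (hκ : κ * h0 = ken x) (hx : ((536870912 : ℕ) : ℝ) / S ≤ x) (hx' : x ≤ (((536870912 : ℕ) : ℝ) + (50465866 : ℕ)) / S) :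
    AltEB 3 κ (eng.v x) (3 / 40) (tnt (h0 * x) (3 / 10)) PP tK tL tC pcB (scP esg pd) [⟨0, 0, 0, 67108864⟩, ⟨1, 1, 0, 67108864⟩, ⟨2, 1, 0, 67108864⟩] 0 2 2 0 0 (sgb true) (sgb true) x := by
  have X : XR 67108864 x := XR.of hx hx' (by norm_num) (by norm_num) (by norm_num) (by norm_num)
  have hen : 0 < eng.v x := en_pos X.x0.le
  refine CornW.altB (C := cB022E) (j := (0 : Fin 7)) (k := (0 : Fin 7)) (Ef := esg) (pd := pd) (o := 3 / 40)
    (cornW_of (C := cB022E) (C0 := c0B) (En := eng) (mo := mog) (j := (0 : Fin 7)) (k := (0 : Fin 7)) (lo := 0) (hi := 3) (W := 67108864) (N0 := 3) cB022E_q (sideB hx hx') gokB (pinU hx hx') dokB X (by norm_num) (by norm_num) (l := (0 : Fin 7)) rfl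
      (gatB00 x) (gatB02 x) (gatB02 x) (datB00 x) (datB02 x) (datB02 x) ?_)
    (cornS_of (C := cB022E) (C0 := c0B) (j := (0 : Fin 7)) (k := (0 : Fin 7)) (lo := 0) (hi := 3) (W := 67108864) (N0 := 3) cB022E_q (sideB hx hx') gokB X (by norm_num) (by norm_num) (l := (0 : Fin 7)) rfl
      (gatB00 x) (gatB02 x) (gatB02 x) ?_)
    (thU (pinU hx hx')) rfl hκ (fun j q y => tC_eq j q y x) (esg_rng X.x0.le (by linarith [X.b, X.p0])).1 (mo_v x) le_rfl le_rfl
  · intro ρ a B hρ hd i h1 h2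
    fin_cases i
    · exact corW_cert (G1 := gB0q0) (G2 := gB0q2) (Ga := gB0q2) (Gb := gB1q2) (D1 := dB0q0) (D2 := dB0q2) (Da := dB0q2) (Db := dB1q2) cB022E_ok B hρ hen (gatB00 x) (gatB02 x) (fun _ => gatB02 x) (fun _ => gatB12 x) (datB00 x) (datB02 x) (fun _ => datB02 x) (fun _ => datB12 x) hd hx hx' CW.B022E_000
    · exact corW_cert (G1 := gB0q0) (G2 := gB0q2) (Ga := gB1q2) (Gb := gB2q2) (D1 := dB0q0) (D2 := dB0q2) (Da := dB1q2) (Db := dB2q2) cB022E_ok B hρ hen (gatB00 x) (gatB02 x) (fun _ => gatB12 x) (fun _ => gatB22 x) (datB00 x) (datB02 x) (fun _ => datB12 x) (fun _ => datB22 x) hd hx hx' CW.B022E_001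
    · exact corW_cert (G1 := gB0q0) (G2 := gB0q2) (Ga := gB2q2) (Gb := gB3q2) (D1 := dB0q0) (D2 := dB0q2) (Da := dB2q2) (Db := dB3q2) cB022E_ok B hρ hen (gatB00 x) (gatB02 x) (fun _ => gatB22 x) (fun _ => gatB32 x) (datB00 x) (datB02 x) (fun _ => datB22 x) (fun _ => datB32 x) hd hx hx' CW.B022E_002
    · exact corW_cert (G1 := gB0q0) (G2 := gB0q2) (Ga := gB3q2) (Gb := gB4q2) (D1 := dB0q0) (D2 := dB0q2) (Da := dB3q2) (Db := dB4q2) cB022E_ok B hρ hen (gatB00 x) (gatB02 x) (fun _ => gatB32 x) (fun h => absurd h (by decide)) (datB00 x) (datB02 x) (fun _ => datB32 x) (fun h => absurd h (by decide)) hd hx hx' CW.B022E_003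
    · exact absurd h2 (by norm_num)
    · exact absurd h2 (by norm_num)
  · intro ρ a B hρ hd i h1 h2
    fin_cases i
    · exact corT_cert (G1 := gB0q0) (G2 := gB0q2) (Ga := gB0q2) (Gb := gB1q2) cB022E_ok B hρ (gatB00 x) (gatB02 x) (fun _ => gatB02 x) (fun _ => gatB12 x) hd hx hx' CG.B022E_000
    · exact corT_cert (G1 := gB0q0) (G2 := gB0q2) (Ga := gB1q2) (Gb := gB2q2) cB022E_ok B hρ (gatB00 x) (gatB02 x) (fun _ => gatB12 x) (fun _ => gatB22 x) hd hx hx' CG.B022E_001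
    · exact corT_cert (G1 := gB0q0) (G2 := gB0q2) (Ga := gB2q2) (Gb := gB3q2) cB022E_ok B hρ (gatB00 x) (gatB02 x) (fun _ => gatB22 x) (fun _ => gatB32 x) hd hx hx' CG.B022E_002
    · exact corT_cert (G1 := gB0q0) (G2 := gB0q2) (Ga := gB3q2) (Gb := gB4q2) cB022E_ok B hρ (gatB00 x) (gatB02 x) (fun _ => gatB32 x) (fun h => absurd h (by decide)) hd hx hx' CG.B022E_003
    · exact absurd h2 (by norm_num)
    · exact absurd h2 (by norm_num)

theorem altB_B022E_01 {κ x : ℝ} (hκ : κ * h0 = ken x) (hx : ((536870912 : ℕ) : ℝ) / S ≤ x) (hx' : x ≤ (((536870912 : ℕ) : ℝ) + (50465866 : ℕ)) / S) :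
    AltEB 3 κ (eng.v x) (3 / 40) (tnt (h0 * x) (3 / 10)) PP tK tL tC pcB (scP esg pd) [⟨0, 0, 0, 67108864⟩, ⟨1, 1, 0, 67108864⟩, ⟨2, 1, 0, 67108864⟩] 0 2 2 0 1 (sgb true) (sgb true) x := by
  have X : XR 67108864 x := XR.of hx hx' (by norm_num) (by norm_num) (by norm_num) (by norm_num)
  have hen : 0 < eng.v x := en_pos X.x0.le
  refine CornW.altB (C := cB022E) (j := (0 : Fin 7)) (k := (1 : Fin 7)) (Ef := esg) (pd := pd) (o := 3 / 40)
    (cornW_of (C := cB022E) (C0 := c0B) (En := eng) (mo := mog) (j := (0 : Fin 7)) (k := (1 : Fin 7)) (lo := 0) (hi := 3) (W := 67108864) (N0 := 3) cB022E_q (sideB hx hx') gokB (pinU hx hx') dokB X (by norm_num) (by norm_num) (l := (0 : Fin 7)) rfl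
      (gatB00 x) (gatB12 x) (gatB02 x) (datB00 x) (datB12 x) (datB02 x) ?_)
    (cornS_of (C := cB022E) (C0 := c0B) (j := (0 : Fin 7)) (k := (1 : Fin 7)) (lo := 0) (hi := 3) (W := 67108864) (N0 := 3) cB022E_q (sideB hx hx') gokB X (by norm_num) (by norm_num) (l := (0 : Fin 7)) rfl
      (gatB00 x) (gatB12 x) (gatB02 x) ?_)
    (thU (pinU hx hx')) rfl hκ (fun j q y => tC_eq j q y x) (esg_rng X.x0.le (by linarith [X.b, X.p0])).1 (mo_v x) le_rfl le_rfl
  · intro ρ a B hρ hd i h1 h2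
    fin_cases i
    · exact corW_cert (G1 := gB0q0) (G2 := gB1q2) (Ga := gB0q2) (Gb := gB1q2) (D1 := dB0q0) (D2 := dB1q2) (Da := dB0q2) (Db := dB1q2) cB022E_ok B hρ hen (gatB00 x) (gatB12 x) (fun _ => gatB02 x) (fun _ => gatB12 x) (datB00 x) (datB12 x) (fun _ => datB02 x) (fun _ => datB12 x) hd hx hx' CW.B022E_010
    · exact corW_cert (G1 := gB0q0) (G2 := gB1q2) (Ga := gB1q2) (Gb := gB2q2) (D1 := dB0q0) (D2 := dB1q2) (Da := dB1q2) (Db := dB2q2) cB022E_ok B hρ hen (gatB00 x) (gatB12 x) (fun _ => gatB12 x) (fun _ => gatB22 x) (datB00 x) (datB12 x) (fun _ => datB12 x) (fun _ => datB22 x) hd hx hx' CW.B022E_011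
    · exact corW_cert (G1 := gB0q0) (G2 := gB1q2) (Ga := gB2q2) (Gb := gB3q2) (D1 := dB0q0) (D2 := dB1q2) (Da := dB2q2) (Db := dB3q2) cB022E_ok B hρ hen (gatB00 x) (gatB12 x) (fun _ => gatB22 x) (fun _ => gatB32 x) (datB00 x) (datB12 x) (fun _ => datB22 x) (fun _ => datB32 x) hd hx hx' CW.B022E_012
    · exact corW_cert (G1 := gB0q0) (G2 := gB1q2) (Ga := gB3q2) (Gb := gB4q2) (D1 := dB0q0) (D2 := dB1q2) (Da := dB3q2) (Db := dB4q2) cB022E_ok B hρ hen (gatB00 x) (gatB12 x) (fun _ => gatB32 x) (fun h => absurd h (by decide)) (datB00 x) (datB12 x) (fun _ => datB32 x) (fun h => absurd h (by decide)) hd hx hx' CW.B022E_013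
    · exact absurd h2 (by norm_num)
    · exact absurd h2 (by norm_num)
  · intro ρ a B hρ hd i h1 h2
    fin_cases i
    · exact corT_cert (G1 := gB0q0) (G2 := gB1q2) (Ga := gB0q2) (Gb := gB1q2) cB022E_ok B hρ (gatB00 x) (gatB12 x) (fun _ => gatB02 x) (fun _ => gatB12 x) hd hx hx' CG.B022E_010
    · exact corT_cert (G1 := gB0q0) (G2 := gB1q2) (Ga := gB1q2) (Gb := gB2q2) cB022E_ok B hρ (gatB00 x) (gatB12 x) (fun _ => gatB12 x) (fun _ => gatB22 x) hd hx hx' CG.B022E_011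
    · exact corT_cert (G1 := gB0q0) (G2 := gB1q2) (Ga := gB2q2) (Gb := gB3q2) cB022E_ok B hρ (gatB00 x) (gatB12 x) (fun _ => gatB22 x) (fun _ => gatB32 x) hd hx hx' CG.B022E_012
    · exact corT_cert (G1 := gB0q0) (G2 := gB1q2) (Ga := gB3q2) (Gb := gB4q2) cB022E_ok B hρ (gatB00 x) (gatB12 x) (fun _ => gatB32 x) (fun h => absurd h (by decide)) hd hx hx' CG.B022E_013
    · exact absurd h2 (by norm_num)
    · exact absurd h2 (by norm_num)

theorem altB_B022E_02 {κ x : ℝ} (hκ : κ * h0 = ken x) (hx : ((536870912 : ℕ) : ℝ) / S ≤ x) (hx' : x ≤ (((536870912 : ℕ) : ℝ) + (50465866 : ℕ)) / S) :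
    AltEB 3 κ (eng.v x) (3 / 40) (tnt (h0 * x) (3 / 10)) PP tK tL tC pcB (scP esg pd) [⟨0, 0, 0, 67108864⟩, ⟨1, 1, 0, 67108864⟩, ⟨2, 1, 0, 67108864⟩] 0 2 2 0 2 (sgb true) (sgb true) x := by
  have X : XR 67108864 x := XR.of hx hx' (by norm_num) (by norm_num) (by norm_num) (by norm_num)
  have hen : 0 < eng.v x := en_pos X.x0.le
  refine CornW.altB (C := cB022E) (j := (0 : Fin 7)) (k := (2 : Fin 7)) (Ef := esg) (pd := pd) (o := 3 / 40)
    (cornW_of (C := cB022E) (C0 := c0B) (En := eng) (mo := mog) (j := (0 : Fin 7)) (k := (2 : Fin 7)) (lo := 0) (hi := 3) (W := 67108864) (N0 := 3) cB022E_q (sideB hx hx') gokB (pinU hx hx') dokB X (by norm_num) (by norm_num) (l := (0 : Fin 7)) rfl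
      (gatB00 x) (gatB22 x) (gatB02 x) (datB00 x) (datB22 x) (datB02 x) ?_)
    (cornS_of (C := cB022E) (C0 := c0B) (j := (0 : Fin 7)) (k := (2 : Fin 7)) (lo := 0) (hi := 3) (W := 67108864) (N0 := 3) cB022E_q (sideB hx hx') gokB X (by norm_num) (by norm_num) (l := (0 : Fin 7)) rfl
      (gatB00 x) (gatB22 x) (gatB02 x) ?_)
    (thU (pinU hx hx')) rfl hκ (fun j q y => tC_eq j q y x) (esg_rng X.x0.le (by linarith [X.b, X.p0])).1 (mo_v x) le_rfl le_rfl
  · intro ρ a B hρ hd i h1 h2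
    fin_cases i
    · exact corW_cert (G1 := gB0q0) (G2 := gB2q2) (Ga := gB0q2) (Gb := gB1q2) (D1 := dB0q0) (D2 := dB2q2) (Da := dB0q2) (Db := dB1q2) cB022E_ok B hρ hen (gatB00 x) (gatB22 x) (fun _ => gatB02 x) (fun _ => gatB12 x) (datB00 x) (datB22 x) (fun _ => datB02 x) (fun _ => datB12 x) hd hx hx' CW.B022E_020
    · exact corW_cert (G1 := gB0q0) (G2 := gB2q2) (Ga := gB1q2) (Gb := gB2q2) (D1 := dB0q0) (D2 := dB2q2) (Da := dB1q2) (Db := dB2q2) cB022E_ok B hρ hen (gatB00 x) (gatB22 x) (fun _ => gatB12 x) (fun _ => gatB22 x) (datB00 x) (datB22 x) (fun _ => datB12 x) (fun _ => datB22 x) hd hx hx' CW.B022E_021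
    · exact corW_cert (G1 := gB0q0) (G2 := gB2q2) (Ga := gB2q2) (Gb := gB3q2) (D1 := dB0q0) (D2 := dB2q2) (Da := dB2q2) (Db := dB3q2) cB022E_ok B hρ hen (gatB00 x) (gatB22 x) (fun _ => gatB22 x) (fun _ => gatB32 x) (datB00 x) (datB22 x) (fun _ => datB22 x) (fun _ => datB32 x) hd hx hx' CW.B022E_022
    · exact corW_cert (G1 := gB0q0) (G2 := gB2q2) (Ga := gB3q2) (Gb := gB4q2) (D1 := dB0q0) (D2 := dB2q2) (Da := dB3q2) (Db := dB4q2) cB022E_ok B hρ hen (gatB00 x) (gatB22 x) (fun _ => gatB32 x) (fun h => absurd h (by decide)) (datB00 x) (datB22 x) (fun _ => datB32 x) (fun h => absurd h (by decide)) hd hx hx' CW.B022E_023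
    · exact absurd h2 (by norm_num)
    · exact absurd h2 (by norm_num)
  · intro ρ a B hρ hd i h1 h2
    fin_cases i
    · exact corT_cert (G1 := gB0q0) (G2 := gB2q2) (Ga := gB0q2) (Gb := gB1q2) cB022E_ok B hρ (gatB00 x) (gatB22 x) (fun _ => gatB02 x) (fun _ => gatB12 x) hd hx hx' CG.B022E_020
    · exact corT_cert (G1 := gB0q0) (G2 := gB2q2) (Ga := gB1q2) (Gb := gB2q2) cB022E_ok B hρ (gatB00 x) (gatB22 x) (fun _ => gatB12 x) (fun _ => gatB22 x) hd hx hx' CG.B022E_021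
    · exact corT_cert (G1 := gB0q0) (G2 := gB2q2) (Ga := gB2q2) (Gb := gB3q2) cB022E_ok B hρ (gatB00 x) (gatB22 x) (fun _ => gatB22 x) (fun _ => gatB32 x) hd hx hx' CG.B022E_022
    · exact corT_cert (G1 := gB0q0) (G2 := gB2q2) (Ga := gB3q2) (Gb := gB4q2) cB022E_ok B hρ (gatB00 x) (gatB22 x) (fun _ => gatB32 x) (fun h => absurd h (by decide)) hd hx hx' CG.B022E_023
    · exact absurd h2 (by norm_num)
    · exact absurd h2 (by norm_num)

theorem altB_B022E_03 {κ x : ℝ} (hκ : κ * h0 = ken x) (hx : ((536870912 : ℕ) : ℝ) / S ≤ x) (hx' : x ≤ (((536870912 : ℕ) : ℝ) + (50465866 : ℕ)) / S) :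
    AltEB 3 κ (eng.v x) (3 / 40) (tnt (h0 * x) (3 / 10)) PP tK tL tC pcB (scP esg pd) [⟨0, 0, 0, 67108864⟩, ⟨1, 1, 0, 67108864⟩, ⟨2, 1, 0, 67108864⟩] 0 2 2 0 3 (sgb true) (sgb true) x := by
  have X : XR 67108864 x := XR.of hx hx' (by norm_num) (by norm_num) (by norm_num) (by norm_num)
  have hen : 0 < eng.v x := en_pos X.x0.le
  refine CornW.altB (C := cB022E) (j := (0 : Fin 7)) (k := (3 : Fin 7)) (Ef := esg) (pd := pd) (o := 3 / 40)
    (cornW_of (C := cB022E) (C0 := c0B) (En := eng) (mo := mog) (j := (0 : Fin 7)) (k := (3 : Fin 7)) (lo := 0) (hi := 3) (W := 67108864) (N0 := 3) cB022E_q (sideB hx hx') gokB (pinU hx hx') dokB X (by norm_num) (by norm_num) (l := (0 : Fin 7)) rfl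
      (gatB00 x) (gatB32 x) (gatB02 x) (datB00 x) (datB32 x) (datB02 x) ?_)
    (cornS_of (C := cB022E) (C0 := c0B) (j := (0 : Fin 7)) (k := (3 : Fin 7)) (lo := 0) (hi := 3) (W := 67108864) (N0 := 3) cB022E_q (sideB hx hx') gokB X (by norm_num) (by norm_num) (l := (0 : Fin 7)) rfl
      (gatB00 x) (gatB32 x) (gatB02 x) ?_)
    (thU (pinU hx hx')) rfl hκ (fun j q y => tC_eq j q y x) (esg_rng X.x0.le (by linarith [X.b, X.p0])).1 (mo_v x) le_rfl le_rfl
  · intro ρ a B hρ hd i h1 h2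
    fin_cases i
    · exact corW_cert (G1 := gB0q0) (G2 := gB3q2) (Ga := gB0q2) (Gb := gB1q2) (D1 := dB0q0) (D2 := dB3q2) (Da := dB0q2) (Db := dB1q2) cB022E_ok B hρ hen (gatB00 x) (gatB32 x) (fun _ => gatB02 x) (fun _ => gatB12 x) (datB00 x) (datB32 x) (fun _ => datB02 x) (fun _ => datB12 x) hd hx hx' CW.B022E_030
    · exact corW_cert (G1 := gB0q0) (G2 := gB3q2) (Ga := gB1q2) (Gb := gB2q2) (D1 := dB0q0) (D2 := dB3q2) (Da := dB1q2) (Db := dB2q2) cB022E_ok B hρ hen (gatB00 x) (gatB32 x) (fun _ => gatB12 x) (fun _ => gatB22 x) (datB00 x) (datB32 x) (fun _ => datB12 x) (fun _ => datB22 x) hd hx hx' CW.B022E_031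
    · exact corW_cert (G1 := gB0q0) (G2 := gB3q2) (Ga := gB2q2) (Gb := gB3q2) (D1 := dB0q0) (D2 := dB3q2) (Da := dB2q2) (Db := dB3q2) cB022E_ok B hρ hen (gatB00 x) (gatB32 x) (fun _ => gatB22 x) (fun _ => gatB32 x) (datB00 x) (datB32 x) (fun _ => datB22 x) (fun _ => datB32 x) hd hx hx' CW.B022E_032
    · exact corW_cert (G1 := gB0q0) (G2 := gB3q2) (Ga := gB3q2) (Gb := gB4q2) (D1 := dB0q0) (D2 := dB3q2) (Da := dB3q2) (Db := dB4q2) cB022E_ok B hρ hen (gatB00 x) (gatB32 x) (fun _ => gatB32 x) (fun h => absurd h (by decide)) (datB00 x) (datB32 x) (fun _ => datB32 x) (fun h => absurd h (by decide)) hd hx hx' CW.B022E_033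
    · exact absurd h2 (by norm_num)
    · exact absurd h2 (by norm_num)
  · intro ρ a B hρ hd i h1 h2
    fin_cases i
    · exact corT_cert (G1 := gB0q0) (G2 := gB3q2) (Ga := gB0q2) (Gb := gB1q2) cB022E_ok B hρ (gatB00 x) (gatB32 x) (fun _ => gatB02 x) (fun _ => gatB12 x) hd hx hx' CG.B022E_030
    · exact corT_cert (G1 := gB0q0) (G2 := gB3q2) (Ga := gB1q2) (Gb := gB2q2) cB022E_ok B hρ (gatB00 x) (gatB32 x) (fun _ => gatB12 x) (fun _ => gatB22 x) hd hx hx' CG.B022E_031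
    · exact corT_cert (G1 := gB0q0) (G2 := gB3q2) (Ga := gB2q2) (Gb := gB3q2) cB022E_ok B hρ (gatB00 x) (gatB32 x) (fun _ => gatB22 x) (fun _ => gatB32 x) hd hx hx' CG.B022E_032
    · exact corT_cert (G1 := gB0q0) (G2 := gB3q2) (Ga := gB3q2) (Gb := gB4q2) cB022E_ok B hρ (gatB00 x) (gatB32 x) (fun _ => gatB32 x) (fun h => absurd h (by decide)) hd hx hx' CG.B022E_033
    · exact absurd h2 (by norm_num)
    · exact absurd h2 (by norm_num)

theorem altB_B022E_10 {κ x : ℝ} (hκ : κ * h0 = ken x) (hx : ((536870912 : ℕ) : ℝ) / S ≤ x) (hx' : x ≤ (((536870912 : ℕ) : ℝ) + (50465866 : ℕ)) / S) :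
    AltEB 3 κ (eng.v x) (3 / 40) (tnt (h0 * x) (3 / 10)) PP tK tL tC pcB (scP esg pd) [⟨0, 0, 0, 67108864⟩, ⟨1, 1, 0, 67108864⟩, ⟨2, 1, 0, 67108864⟩] 0 2 2 1 0 (sgb true) (sgb true) x := by
  have X : XR 67108864 x := XR.of hx hx' (by norm_num) (by norm_num) (by norm_num) (by norm_num)
  have hen : 0 < eng.v x := en_pos X.x0.le
  refine CornW.altB (C := cB022E) (j := (1 : Fin 7)) (k := (0 : Fin 7)) (Ef := esg) (pd := pd) (o := 3 / 40)
    (cornW_of (C := cB022E) (C0 := c0B) (En := eng) (mo := mog) (j := (1 : Fin 7)) (k := (0 : Fin 7)) (lo := 0) (hi := 3) (W := 67108864) (N0 := 3) cB022E_q (sideB hx hx') gokB (pinU hx hx') dokB X (by norm_num) (by norm_num) (l := (0 : Fin 7)) rfl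
      (gatB10 x) (gatB02 x) (gatB02 x) (datB10 x) (datB02 x) (datB02 x) ?_)
    (cornS_of (C := cB022E) (C0 := c0B) (j := (1 : Fin 7)) (k := (0 : Fin 7)) (lo := 0) (hi := 3) (W := 67108864) (N0 := 3) cB022E_q (sideB hx hx') gokB X (by norm_num) (by norm_num) (l := (0 : Fin 7)) rfl
      (gatB10 x) (gatB02 x) (gatB02 x) ?_)
    (thU (pinU hx hx')) rfl hκ (fun j q y => tC_eq j q y x) (esg_rng X.x0.le (by linarith [X.b, X.p0])).1 (mo_v x) le_rfl le_rfl
  · intro ρ a B hρ hd i h1 h2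
    fin_cases i
    · exact corW_cert (G1 := gB1q0) (G2 := gB0q2) (Ga := gB0q2) (Gb := gB1q2) (D1 := dB1q0) (D2 := dB0q2) (Da := dB0q2) (Db := dB1q2) cB022E_ok B hρ hen (gatB10 x) (gatB02 x) (fun _ => gatB02 x) (fun _ => gatB12 x) (datB10 x) (datB02 x) (fun _ => datB02 x) (fun _ => datB12 x) hd hx hx' CW.B022E_100
    · exact corW_cert (G1 := gB1q0) (G2 := gB0q2) (Ga := gB1q2) (Gb := gB2q2) (D1 := dB1q0) (D2 := dB0q2) (Da := dB1q2) (Db := dB2q2) cB022E_ok B hρ hen (gatB10 x) (gatB02 x) (fun _ => gatB12 x) (fun _ => gatB22 x) (datB10 x) (datB02 x) (fun _ => datB12 x) (fun _ => datB22 x) hd hx hx' CW.B022E_101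
    · exact corW_cert (G1 := gB1q0) (G2 := gB0q2) (Ga := gB2q2) (Gb := gB3q2) (D1 := dB1q0) (D2 := dB0q2) (Da := dB2q2) (Db := dB3q2) cB022E_ok B hρ hen (gatB10 x) (gatB02 x) (fun _ => gatB22 x) (fun _ => gatB32 x) (datB10 x) (datB02 x) (fun _ => datB22 x) (fun _ => datB32 x) hd hx hx' CW.B022E_102
    · exact corW_cert (G1 := gB1q0) (G2 := gB0q2) (Ga := gB3q2) (Gb := gB4q2) (D1 := dB1q0) (D2 := dB0q2) (Da := dB3q2) (Db := dB4q2) cB022E_ok B hρ hen (gatB10 x) (gatB02 x) (fun _ => gatB32 x) (fun h => absurd h (by decide)) (datB10 x) (datB02 x) (fun _ => datB32 x) (fun h => absurd h (by decide)) hd hx hx' CW.B022E_103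
    · exact absurd h2 (by norm_num)
    · exact absurd h2 (by norm_num)
  · intro ρ a B hρ hd i h1 h2
    fin_cases i
    · exact corT_cert (G1 := gB1q0) (G2 := gB0q2) (Ga := gB0q2) (Gb := gB1q2) cB022E_ok B hρ (gatB10 x) (gatB02 x) (fun _ => gatB02 x) (fun _ => gatB12 x) hd hx hx' CG.B022E_100
    · exact corT_cert (G1 := gB1q0) (G2 := gB0q2) (Ga := gB1q2) (Gb := gB2q2) cB022E_ok B hρ (gatB10 x) (gatB02 x) (fun _ => gatB12 x) (fun _ => gatB22 x) hd hx hx' CG.B022E_101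
    · exact corT_cert (G1 := gB1q0) (G2 := gB0q2) (Ga := gB2q2) (Gb := gB3q2) cB022E_ok B hρ (gatB10 x) (gatB02 x) (fun _ => gatB22 x) (fun _ => gatB32 x) hd hx hx' CG.B022E_102
    · exact corT_cert (G1 := gB1q0) (G2 := gB0q2) (Ga := gB3q2) (Gb := gB4q2) cB022E_ok B hρ (gatB10 x) (gatB02 x) (fun _ => gatB32 x) (fun h => absurd h (by decide)) hd hx hx' CG.B022E_103
    · exact absurd h2 (by norm_num)
    · exact absurd h2 (by norm_num)

theorem altB_B022E_11 {κ x : ℝ} (hκ : κ * h0 = ken x) (hx : ((536870912 : ℕ) : ℝ) / S ≤ x) (hx' : x ≤ (((536870912 : ℕ) : ℝ) + (50465866 : ℕ)) / S) :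
    AltEB 3 κ (eng.v x) (3 / 40) (tnt (h0 * x) (3 / 10)) PP tK tL tC pcB (scP esg pd) [⟨0, 0, 0, 67108864⟩, ⟨1, 1, 0, 67108864⟩, ⟨2, 1, 0, 67108864⟩] 0 2 2 1 1 (sgb true) (sgb true) x := by
  have X : XR 67108864 x := XR.of hx hx' (by norm_num) (by norm_num) (by norm_num) (by norm_num)
  have hen : 0 < eng.v x := en_pos X.x0.le
  refine CornW.altB (C := cB022E) (j := (1 : Fin 7)) (k := (1 : Fin 7)) (Ef := esg) (pd := pd) (o := 3 / 40)
    (cornW_of (C := cB022E) (C0 := c0B) (En := eng) (mo := mog) (j := (1 : Fin 7)) (k := (1 : Fin 7)) (lo := 0) (hi := 3) (W := 67108864) (N0 := 3) cB022E_q (sideB hx hx') gokB (pinU hx hx') dokB X (by norm_num) (by norm_num) (l := (0 : Fin 7)) rfl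
      (gatB10 x) (gatB12 x) (gatB02 x) (datB10 x) (datB12 x) (datB02 x) ?_)
    (cornS_of (C := cB022E) (C0 := c0B) (j := (1 : Fin 7)) (k := (1 : Fin 7)) (lo := 0) (hi := 3) (W := 67108864) (N0 := 3) cB022E_q (sideB hx hx') gokB X (by norm_num) (by norm_num) (l := (0 : Fin 7)) rfl
      (gatB10 x) (gatB12 x) (gatB02 x) ?_)
    (thU (pinU hx hx')) rfl hκ (fun j q y => tC_eq j q y x) (esg_rng X.x0.le (by linarith [X.b, X.p0])).1 (mo_v x) le_rfl le_rfl
  · intro ρ a B hρ hd i h1 h2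
    fin_cases i
    · exact corW_cert (G1 := gB1q0) (G2 := gB1q2) (Ga := gB0q2) (Gb := gB1q2) (D1 := dB1q0) (D2 := dB1q2) (Da := dB0q2) (Db := dB1q2) cB022E_ok B hρ hen (gatB10 x) (gatB12 x) (fun _ => gatB02 x) (fun _ => gatB12 x) (datB10 x) (datB12 x) (fun _ => datB02 x) (fun _ => datB12 x) hd hx hx' CW.B022E_110
    · exact corW_cert (G1 := gB1q0) (G2 := gB1q2) (Ga := gB1q2) (Gb := gB2q2) (D1 := dB1q0) (D2 := dB1q2) (Da := dB1q2) (Db := dB2q2) cB022E_ok B hρ hen (gatB10 x) (gatB12 x) (fun _ => gatB12 x) (fun _ => gatB22 x) (datB10 x) (datB12 x) (fun _ => datB12 x) (fun _ => datB22 x) hd hx hx' CW.B022E_111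
    · exact corW_cert (G1 := gB1q0) (G2 := gB1q2) (Ga := gB2q2) (Gb := gB3q2) (D1 := dB1q0) (D2 := dB1q2) (Da := dB2q2) (Db := dB3q2) cB022E_ok B hρ hen (gatB10 x) (gatB12 x) (fun _ => gatB22 x) (fun _ => gatB32 x) (datB10 x) (datB12 x) (fun _ => datB22 x) (fun _ => datB32 x) hd hx hx' CW.B022E_112
    · exact corW_cert (G1 := gB1q0) (G2 := gB1q2) (Ga := gB3q2) (Gb := gB4q2) (D1 := dB1q0) (D2 := dB1q2) (Da := dB3q2) (Db := dB4q2) cB022E_ok B hρ hen (gatB10 x) (gatB12 x) (fun _ => gatB32 x) (fun h => absurd h (by decide)) (datB10 x) (datB12 x) (fun _ => datB32 x) (fun h => absurd h (by decide)) hd hx hx' CW.B022E_113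
    · exact absurd h2 (by norm_num)
    · exact absurd h2 (by norm_num)
  · intro ρ a B hρ hd i h1 h2
    fin_cases i
    · exact corT_cert (G1 := gB1q0) (G2 := gB1q2) (Ga := gB0q2) (Gb := gB1q2) cB022E_ok B hρ (gatB10 x) (gatB12 x) (fun _ => gatB02 x) (fun _ => gatB12 x) hd hx hx' CG.B022E_110
    · exact corT_cert (G1 := gB1q0) (G2 := gB1q2) (Ga := gB1q2) (Gb := gB2q2) cB022E_ok B hρ (gatB10 x) (gatB12 x) (fun _ => gatB12 x) (fun _ => gatB22 x) hd hx hx' CG.B022E_111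
    · exact corT_cert (G1 := gB1q0) (G2 := gB1q2) (Ga := gB2q2) (Gb := gB3q2) cB022E_ok B hρ (gatB10 x) (gatB12 x) (fun _ => gatB22 x) (fun _ => gatB32 x) hd hx hx' CG.B022E_112
    · exact corT_cert (G1 := gB1q0) (G2 := gB1q2) (Ga := gB3q2) (Gb := gB4q2) cB022E_ok B hρ (gatB10 x) (gatB12 x) (fun _ => gatB32 x) (fun h => absurd h (by decide)) hd hx hx' CG.B022E_113
    · exact absurd h2 (by norm_num)
    · exact absurd h2 (by norm_num)

theorem altB_B022E_12 {κ x : ℝ} (hκ : κ * h0 = ken x) (hx : ((536870912 : ℕ) : ℝ) / S ≤ x) (hx' : x ≤ (((536870912 : ℕ) : ℝ) + (50465866 : ℕ)) / S) :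
    AltEB 3 κ (eng.v x) (3 / 40) (tnt (h0 * x) (3 / 10)) PP tK tL tC pcB (scP esg pd) [⟨0, 0, 0, 67108864⟩, ⟨1, 1, 0, 67108864⟩, ⟨2, 1, 0, 67108864⟩] 0 2 2 1 2 (sgb true) (sgb true) x := by
  have X : XR 67108864 x := XR.of hx hx' (by norm_num) (by norm_num) (by norm_num) (by norm_num)
  have hen : 0 < eng.v x := en_pos X.x0.le
  refine CornW.altB (C := cB022E) (j := (1 : Fin 7)) (k := (2 : Fin 7)) (Ef := esg) (pd := pd) (o := 3 / 40)
    (cornW_of (C := cB022E) (C0 := c0B) (En := eng) (mo := mog) (j := (1 : Fin 7)) (k := (2 : Fin 7)) (lo := 0) (hi := 3) (W := 67108864) (N0 := 3) cB022E_q (sideB hx hx') gokB (pinU hx hx') dokB X (by norm_num) (by norm_num) (l := (0 : Fin 7)) rfl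
      (gatB10 x) (gatB22 x) (gatB02 x) (datB10 x) (datB22 x) (datB02 x) ?_)
    (cornS_of (C := cB022E) (C0 := c0B) (j := (1 : Fin 7)) (k := (2 : Fin 7)) (lo := 0) (hi := 3) (W := 67108864) (N0 := 3) cB022E_q (sideB hx hx') gokB X (by norm_num) (by norm_num) (l := (0 : Fin 7)) rfl
      (gatB10 x) (gatB22 x) (gatB02 x) ?_)
    (thU (pinU hx hx')) rfl hκ (fun j q y => tC_eq j q y x) (esg_rng X.x0.le (by linarith [X.b, X.p0])).1 (mo_v x) le_rfl le_rfl
  · intro ρ a B hρ hd i h1 h2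
    fin_cases i
    · exact corW_cert (G1 := gB1q0) (G2 := gB2q2) (Ga := gB0q2) (Gb := gB1q2) (D1 := dB1q0) (D2 := dB2q2) (Da := dB0q2) (Db := dB1q2) cB022E_ok B hρ hen (gatB10 x) (gatB22 x) (fun _ => gatB02 x) (fun _ => gatB12 x) (datB10 x) (datB22 x) (fun _ => datB02 x) (fun _ => datB12 x) hd hx hx' CW.B022E_120
    · exact corW_cert (G1 := gB1q0) (G2 := gB2q2) (Ga := gB1q2) (Gb := gB2q2) (D1 := dB1q0) (D2 := dB2q2) (Da := dB1q2) (Db := dB2q2) cB022E_ok B hρ hen (gatB10 x) (gatB22 x) (fun _ => gatB12 x) (fun _ => gatB22 x) (datB10 x) (datB22 x) (fun _ => datB12 x) (fun _ => datB22 x) hd hx hx' CW.B022E_121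
    · exact corW_cert (G1 := gB1q0) (G2 := gB2q2) (Ga := gB2q2) (Gb := gB3q2) (D1 := dB1q0) (D2 := dB2q2) (Da := dB2q2) (Db := dB3q2) cB022E_ok B hρ hen (gatB10 x) (gatB22 x) (fun _ => gatB22 x) (fun _ => gatB32 x) (datB10 x) (datB22 x) (fun _ => datB22 x) (fun _ => datB32 x) hd hx hx' CW.B022E_122
    · exact corW_cert (G1 := gB1q0) (G2 := gB2q2) (Ga := gB3q2) (Gb := gB4q2) (D1 := dB1q0) (D2 := dB2q2) (Da := dB3q2) (Db := dB4q2) cB022E_ok B hρ hen (gatB10 x) (gatB22 x) (fun _ => gatB32 x) (fun h => absurd h (by decide)) (datB10 x) (datB22 x) (fun _ => datB32 x) (fun h => absurd h (by decide)) hd hx hx' CW.B022E_123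
    · exact absurd h2 (by norm_num)
    · exact absurd h2 (by norm_num)
  · intro ρ a B hρ hd i h1 h2
    fin_cases i
    · exact corT_cert (G1 := gB1q0) (G2 := gB2q2) (Ga := gB0q2) (Gb := gB1q2) cB022E_ok B hρ (gatB10 x) (gatB22 x) (fun _ => gatB02 x) (fun _ => gatB12 x) hd hx hx' CG.B022E_120
    · exact corT_cert (G1 := gB1q0) (G2 := gB2q2) (Ga := gB1q2) (Gb := gB2q2) cB022E_ok B hρ (gatB10 x) (gatB22 x) (fun _ => gatB12 x) (fun _ => gatB22 x) hd hx hx' CG.B022E_121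
    · exact corT_cert (G1 := gB1q0) (G2 := gB2q2) (Ga := gB2q2) (Gb := gB3q2) cB022E_ok B hρ (gatB10 x) (gatB22 x) (fun _ => gatB22 x) (fun _ => gatB32 x) hd hx hx' CG.B022E_122
    · exact corT_cert (G1 := gB1q0) (G2 := gB2q2) (Ga := gB3q2) (Gb := gB4q2) cB022E_ok B hρ (gatB10 x) (gatB22 x) (fun _ => gatB32 x) (fun h => absurd h (by decide)) hd hx hx' CG.B022E_123
    · exact absurd h2 (by norm_num)
    · exact absurd h2 (by norm_num)

theorem altB_B022E_13 {κ x : ℝ} (hκ : κ * h0 = ken x) (hx : ((536870912 : ℕ) : ℝ) / S ≤ x) (hx' : x ≤ (((536870912 : ℕ) : ℝ) + (50465866 : ℕ)) / S) :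
    AltEB 3 κ (eng.v x) (3 / 40) (tnt (h0 * x) (3 / 10)) PP tK tL tC pcB (scP esg pd) [⟨0, 0, 0, 67108864⟩, ⟨1, 1, 0, 67108864⟩, ⟨2, 1, 0, 67108864⟩] 0 2 2 1 3 (sgb true) (sgb true) x := by
  have X : XR 67108864 x := XR.of hx hx' (by norm_num) (by norm_num) (by norm_num) (by norm_num)
  have hen : 0 < eng.v x := en_pos X.x0.le
  refine CornW.altB (C := cB022E) (j := (1 : Fin 7)) (k := (3 : Fin 7)) (Ef := esg) (pd := pd) (o := 3 / 40)
    (cornW_of (C := cB022E) (C0 := c0B) (En := eng) (mo := mog) (j := (1 : Fin 7)) (k := (3 : Fin 7)) (lo := 0) (hi := 3) (W := 67108864) (N0 := 3) cB022E_q (sideB hx hx') gokB (pinU hx hx') dokB X (by norm_num) (by norm_num) (l := (0 : Fin 7)) rfl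
      (gatB10 x) (gatB32 x) (gatB02 x) (datB10 x) (datB32 x) (datB02 x) ?_)
    (cornS_of (C := cB022E) (C0 := c0B) (j := (1 : Fin 7)) (k := (3 : Fin 7)) (lo := 0) (hi := 3) (W := 67108864) (N0 := 3) cB022E_q (sideB hx hx') gokB X (by norm_num) (by norm_num) (l := (0 : Fin 7)) rfl
      (gatB10 x) (gatB32 x) (gatB02 x) ?_)
    (thU (pinU hx hx')) rfl hκ (fun j q y => tC_eq j q y x) (esg_rng X.x0.le (by linarith [X.b, X.p0])).1 (mo_v x) le_rfl le_rfl
  · intro ρ a B hρ hd i h1 h2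
    fin_cases i
    · exact corW_cert (G1 := gB1q0) (G2 := gB3q2) (Ga := gB0q2) (Gb := gB1q2) (D1 := dB1q0) (D2 := dB3q2) (Da := dB0q2) (Db := dB1q2) cB022E_ok B hρ hen (gatB10 x) (gatB32 x) (fun _ => gatB02 x) (fun _ => gatB12 x) (datB10 x) (datB32 x) (fun _ => datB02 x) (fun _ => datB12 x) hd hx hx' CW.B022E_130
    · exact corW_cert (G1 := gB1q0) (G2 := gB3q2) (Ga := gB1q2) (Gb := gB2q2) (D1 := dB1q0) (D2 := dB3q2) (Da := dB1q2) (Db := dB2q2) cB022E_ok B hρ hen (gatB10 x) (gatB32 x) (fun _ => gatB12 x) (fun _ => gatB22 x) (datB10 x) (datB32 x) (fun _ => datB12 x) (fun _ => datB22 x) hd hx hx' CW.B022E_131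
    · exact corW_cert (G1 := gB1q0) (G2 := gB3q2) (Ga := gB2q2) (Gb := gB3q2) (D1 := dB1q0) (D2 := dB3q2) (Da := dB2q2) (Db := dB3q2) cB022E_ok B hρ hen (gatB10 x) (gatB32 x) (fun _ => gatB22 x) (fun _ => gatB32 x) (datB10 x) (datB32 x) (fun _ => datB22 x) (fun _ => datB32 x) hd hx hx' CW.B022E_132
    · exact corW_cert (G1 := gB1q0) (G2 := gB3q2) (Ga := gB3q2) (Gb := gB4q2) (D1 := dB1q0) (D2 := dB3q2) (Da := dB3q2) (Db := dB4q2) cB022E_ok B hρ hen (gatB10 x) (gatB32 x) (fun _ => gatB32 x) (fun h => absurd h (by decide)) (datB10 x) (datB32 x) (fun _ => datB32 x) (fun h => absurd h (by decide)) hd hx hx' CW.B022E_133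
    · exact absurd h2 (by norm_num)
    · exact absurd h2 (by norm_num)
  · intro ρ a B hρ hd i h1 h2
    fin_cases i
    · exact corT_cert (G1 := gB1q0) (G2 := gB3q2) (Ga := gB0q2) (Gb := gB1q2) cB022E_ok B hρ (gatB10 x) (gatB32 x) (fun _ => gatB02 x) (fun _ => gatB12 x) hd hx hx' CG.B022E_130
    · exact corT_cert (G1 := gB1q0) (G2 := gB3q2) (Ga := gB1q2) (Gb := gB2q2) cB022E_ok B hρ (gatB10 x) (gatB32 x) (fun _ => gatB12 x) (fun _ => gatB22 x) hd hx hx' CG.B022E_131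
    · exact corT_cert (G1 := gB1q0) (G2 := gB3q2) (Ga := gB2q2) (Gb := gB3q2) cB022E_ok B hρ (gatB10 x) (gatB32 x) (fun _ => gatB22 x) (fun _ => gatB32 x) hd hx hx' CG.B022E_132
    · exact corT_cert (G1 := gB1q0) (G2 := gB3q2) (Ga := gB3q2) (Gb := gB4q2) cB022E_ok B hρ (gatB10 x) (gatB32 x) (fun _ => gatB32 x) (fun h => absurd h (by decide)) hd hx hx' CG.B022E_133
    · exact absurd h2 (by norm_num)
    · exact absurd h2 (by norm_num)

theorem altB_B022E_20 {κ x : ℝ} (hκ : κ * h0 = ken x) (hx : ((536870912 : ℕ) : ℝ) / S ≤ x) (hx' : x ≤ (((536870912 : ℕ) : ℝ) + (50465866 : ℕ)) / S) :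
    AltEB 3 κ (eng.v x) (3 / 40) (tnt (h0 * x) (3 / 10)) PP tK tL tC pcB (scP esg pd) [⟨0, 0, 0, 67108864⟩, ⟨1, 1, 0, 67108864⟩, ⟨2, 1, 0, 67108864⟩] 0 2 2 2 0 (sgb true) (sgb true) x := by
  have X : XR 67108864 x := XR.of hx hx' (by norm_num) (by norm_num) (by norm_num) (by norm_num)
  have hen : 0 < eng.v x := en_pos X.x0.le
  refine CornW.altB (C := cB022E) (j := (2 : Fin 7)) (k := (0 : Fin 7)) (Ef := esg) (pd := pd) (o := 3 / 40)
    (cornW_of (C := cB022E) (C0 := c0B) (En := eng) (mo := mog) (j := (2 : Fin 7)) (k := (0 : Fin 7)) (lo := 0) (hi := 3) (W := 67108864) (N0 := 3) cB022E_q (sideB hx hx') gokB (pinU hx hx') dokB X (by norm_num) (by norm_num) (l := (0 : Fin 7)) rfl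
      (gatB20 x) (gatB02 x) (gatB02 x) (datB20 x) (datB02 x) (datB02 x) ?_)
    (cornS_of (C := cB022E) (C0 := c0B) (j := (2 : Fin 7)) (k := (0 : Fin 7)) (lo := 0) (hi := 3) (W := 67108864) (N0 := 3) cB022E_q (sideB hx hx') gokB X (by norm_num) (by norm_num) (l := (0 : Fin 7)) rfl
      (gatB20 x) (gatB02 x) (gatB02 x) ?_)
    (thU (pinU hx hx')) rfl hκ (fun j q y => tC_eq j q y x) (esg_rng X.x0.le (by linarith [X.b, X.p0])).1 (mo_v x) le_rfl le_rfl
  · intro ρ a B hρ hd i h1 h2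
    fin_cases i
    · exact corW_cert (G1 := gB2q0) (G2 := gB0q2) (Ga := gB0q2) (Gb := gB1q2) (D1 := dB2q0) (D2 := dB0q2) (Da := dB0q2) (Db := dB1q2) cB022E_ok B hρ hen (gatB20 x) (gatB02 x) (fun _ => gatB02 x) (fun _ => gatB12 x) (datB20 x) (datB02 x) (fun _ => datB02 x) (fun _ => datB12 x) hd hx hx' CW.B022E_200
    · exact corW_cert (G1 := gB2q0) (G2 := gB0q2) (Ga := gB1q2) (Gb := gB2q2) (D1 := dB2q0) (D2 := dB0q2) (Da := dB1q2) (Db := dB2q2) cB022E_ok B hρ hen (gatB20 x) (gatB02 x) (fun _ => gatB12 x) (fun _ => gatB22 x) (datB20 x) (datB02 x) (fun _ => datB12 x) (fun _ => datB22 x) hd hx hx' CW.B022E_201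
    · exact corW_cert (G1 := gB2q0) (G2 := gB0q2) (Ga := gB2q2) (Gb := gB3q2) (D1 := dB2q0) (D2 := dB0q2) (Da := dB2q2) (Db := dB3q2) cB022E_ok B hρ hen (gatB20 x) (gatB02 x) (fun _ => gatB22 x) (fun _ => gatB32 x) (datB20 x) (datB02 x) (fun _ => datB22 x) (fun _ => datB32 x) hd hx hx' CW.B022E_202
    · exact corW_cert (G1 := gB2q0) (G2 := gB0q2) (Ga := gB3q2) (Gb := gB4q2) (D1 := dB2q0) (D2 := dB0q2) (Da := dB3q2) (Db := dB4q2) cB022E_ok B hρ hen (gatB20 x) (gatB02 x) (fun _ => gatB32 x) (fun h => absurd h (by decide)) (datB20 x) (datB02 x) (fun _ => datB32 x) (fun h => absurd h (by decide)) hd hx hx' CW.B022E_203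
    · exact absurd h2 (by norm_num)
    · exact absurd h2 (by norm_num)
  · intro ρ a B hρ hd i h1 h2
    fin_cases i
    · exact corT_cert (G1 := gB2q0) (G2 := gB0q2) (Ga := gB0q2) (Gb := gB1q2) cB022E_ok B hρ (gatB20 x) (gatB02 x) (fun _ => gatB02 x) (fun _ => gatB12 x) hd hx hx' CG.B022E_200
    · exact corT_cert (G1 := gB2q0) (G2 := gB0q2) (Ga := gB1q2) (Gb := gB2q2) cB022E_ok B hρ (gatB20 x) (gatB02 x) (fun _ => gatB12 x) (fun _ => gatB22 x) hd hx hx' CG.B022E_201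
    · exact corT_cert (G1 := gB2q0) (G2 := gB0q2) (Ga := gB2q2) (Gb := gB3q2) cB022E_ok B hρ (gatB20 x) (gatB02 x) (fun _ => gatB22 x) (fun _ => gatB32 x) hd hx hx' CG.B022E_202
    · exact corT_cert (G1 := gB2q0) (G2 := gB0q2) (Ga := gB3q2) (Gb := gB4q2) cB022E_ok B hρ (gatB20 x) (gatB02 x) (fun _ => gatB32 x) (fun h => absurd h (by decide)) hd hx hx' CG.B022E_203
    · exact absurd h2 (by norm_num)
    · exact absurd h2 (by norm_num)

theorem altB_B022E_21 {κ x : ℝ} (hκ : κ * h0 = ken x) (hx : ((536870912 : ℕ) : ℝ) / S ≤ x) (hx' : x ≤ (((536870912 : ℕ) : ℝ) + (50465866 : ℕ)) / S) :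
    AltEB 3 κ (eng.v x) (3 / 40) (tnt (h0 * x) (3 / 10)) PP tK tL tC pcB (scP esg pd) [⟨0, 0, 0, 67108864⟩, ⟨1, 1, 0, 67108864⟩, ⟨2, 1, 0, 67108864⟩] 0 2 2 2 1 (sgb true) (sgb true) x := by
  have X : XR 67108864 x := XR.of hx hx' (by norm_num) (by norm_num) (by norm_num) (by norm_num)
  have hen : 0 < eng.v x := en_pos X.x0.le
  refine CornW.altB (C := cB022E) (j := (2 : Fin 7)) (k := (1 : Fin 7)) (Ef := esg) (pd := pd) (o := 3 / 40)
    (cornW_of (C := cB022E) (C0 := c0B) (En := eng) (mo := mog) (j := (2 : Fin 7)) (k := (1 : Fin 7)) (lo := 0) (hi := 3) (W := 67108864) (N0 := 3) cB022E_q (sideB hx hx') gokB (pinU hx hx') dokB X (by norm_num) (by norm_num) (l := (0 : Fin 7)) rfl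
      (gatB20 x) (gatB12 x) (gatB02 x) (datB20 x) (datB12 x) (datB02 x) ?_)
    (cornS_of (C := cB022E) (C0 := c0B) (j := (2 : Fin 7)) (k := (1 : Fin 7)) (lo := 0) (hi := 3) (W := 67108864) (N0 := 3) cB022E_q (sideB hx hx') gokB X (by norm_num) (by norm_num) (l := (0 : Fin 7)) rfl
      (gatB20 x) (gatB12 x) (gatB02 x) ?_)
    (thU (pinU hx hx')) rfl hκ (fun j q y => tC_eq j q y x) (esg_rng X.x0.le (by linarith [X.b, X.p0])).1 (mo_v x) le_rfl le_rfl
  · intro ρ a B hρ hd i h1 h2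
    fin_cases i
    · exact corW_cert (G1 := gB2q0) (G2 := gB1q2) (Ga := gB0q2) (Gb := gB1q2) (D1 := dB2q0) (D2 := dB1q2) (Da := dB0q2) (Db := dB1q2) cB022E_ok B hρ hen (gatB20 x) (gatB12 x) (fun _ => gatB02 x) (fun _ => gatB12 x) (datB20 x) (datB12 x) (fun _ => datB02 x) (fun _ => datB12 x) hd hx hx' CW.B022E_210
    · exact corW_cert (G1 := gB2q0) (G2 := gB1q2) (Ga := gB1q2) (Gb := gB2q2) (D1 := dB2q0) (D2 := dB1q2) (Da := dB1q2) (Db := dB2q2) cB022E_ok B hρ hen (gatB20 x) (gatB12 x) (fun _ => gatB12 x) (fun _ => gatB22 x) (datB20 x) (datB12 x) (fun _ => datB12 x) (fun _ => datB22 x) hd hx hx' CW.B022E_211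
    · exact corW_cert (G1 := gB2q0) (G2 := gB1q2) (Ga := gB2q2) (Gb := gB3q2) (D1 := dB2q0) (D2 := dB1q2) (Da := dB2q2) (Db := dB3q2) cB022E_ok B hρ hen (gatB20 x) (gatB12 x) (fun _ => gatB22 x) (fun _ => gatB32 x) (datB20 x) (datB12 x) (fun _ => datB22 x) (fun _ => datB32 x) hd hx hx' CW.B022E_212
    · exact corW_cert (G1 := gB2q0) (G2 := gB1q2) (Ga := gB3q2) (Gb := gB4q2) (D1 := dB2q0) (D2 := dB1q2) (Da := dB3q2) (Db := dB4q2) cB022E_ok B hρ hen (gatB20 x) (gatB12 x) (fun _ => gatB32 x) (fun h => absurd h (by decide)) (datB20 x) (datB12 x) (fun _ => datB32 x) (fun h => absurd h (by decide)) hd hx hx' CW.B022E_213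
    · exact absurd h2 (by norm_num)
    · exact absurd h2 (by norm_num)
  · intro ρ a B hρ hd i h1 h2
    fin_cases i
    · exact corT_cert (G1 := gB2q0) (G2 := gB1q2) (Ga := gB0q2) (Gb := gB1q2) cB022E_ok B hρ (gatB20 x) (gatB12 x) (fun _ => gatB02 x) (fun _ => gatB12 x) hd hx hx' CG.B022E_210
    · exact corT_cert (G1 := gB2q0) (G2 := gB1q2) (Ga := gB1q2) (Gb := gB2q2) cB022E_ok B hρ (gatB20 x) (gatB12 x) (fun _ => gatB12 x) (fun _ => gatB22 x) hd hx hx' CG.B022E_211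
    · exact corT_cert (G1 := gB2q0) (G2 := gB1q2) (Ga := gB2q2) (Gb := gB3q2) cB022E_ok B hρ (gatB20 x) (gatB12 x) (fun _ => gatB22 x) (fun _ => gatB32 x) hd hx hx' CG.B022E_212
    · exact corT_cert (G1 := gB2q0) (G2 := gB1q2) (Ga := gB3q2) (Gb := gB4q2) cB022E_ok B hρ (gatB20 x) (gatB12 x) (fun _ => gatB32 x) (fun h => absurd h (by decide)) hd hx hx' CG.B022E_213
    · exact absurd h2 (by norm_num)
    · exact absurd h2 (by norm_num)

theorem altB_B022E_22 {κ x : ℝ} (hκ : κ * h0 = ken x) (hx : ((536870912 : ℕ) : ℝ) / S ≤ x) (hx' : x ≤ (((536870912 : ℕ) : ℝ) + (50465866 : ℕ)) / S) :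
    AltEB 3 κ (eng.v x) (3 / 40) (tnt (h0 * x) (3 / 10)) PP tK tL tC pcB (scP esg pd) [⟨0, 0, 0, 67108864⟩, ⟨1, 1, 0, 67108864⟩, ⟨2, 1, 0, 67108864⟩] 0 2 2 2 2 (sgb true) (sgb true) x := by
  have X : XR 67108864 x := XR.of hx hx' (by norm_num) (by norm_num) (by norm_num) (by norm_num)
  have hen : 0 < eng.v x := en_pos X.x0.le
  refine CornW.altB (C := cB022E) (j := (2 : Fin 7)) (k := (2 : Fin 7)) (Ef := esg) (pd := pd) (o := 3 / 40)
    (cornW_of (C := cB022E) (C0 := c0B) (En := eng) (mo := mog) (j := (2 : Fin 7)) (k := (2 : Fin 7)) (lo := 0) (hi := 3) (W := 67108864) (N0 := 3) cB022E_q (sideB hx hx') gokB (pinU hx hx') dokB X (by norm_num) (by norm_num) (l := (0 : Fin 7)) rfl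
      (gatB20 x) (gatB22 x) (gatB02 x) (datB20 x) (datB22 x) (datB02 x) ?_)
    (cornS_of (C := cB022E) (C0 := c0B) (j := (2 : Fin 7)) (k := (2 : Fin 7)) (lo := 0) (hi := 3) (W := 67108864) (N0 := 3) cB022E_q (sideB hx hx') gokB X (by norm_num) (by norm_num) (l := (0 : Fin 7)) rfl
      (gatB20 x) (gatB22 x) (gatB02 x) ?_)
    (thU (pinU hx hx')) rfl hκ (fun j q y => tC_eq j q y x) (esg_rng X.x0.le (by linarith [X.b, X.p0])).1 (mo_v x) le_rfl le_rfl
  · intro ρ a B hρ hd i h1 h2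
    fin_cases i
    · exact corW_cert (G1 := gB2q0) (G2 := gB2q2) (Ga := gB0q2) (Gb := gB1q2) (D1 := dB2q0) (D2 := dB2q2) (Da := dB0q2) (Db := dB1q2) cB022E_ok B hρ hen (gatB20 x) (gatB22 x) (fun _ => gatB02 x) (fun _ => gatB12 x) (datB20 x) (datB22 x) (fun _ => datB02 x) (fun _ => datB12 x) hd hx hx' CW.B022E_220
    · exact corW_cert (G1 := gB2q0) (G2 := gB2q2) (Ga := gB1q2) (Gb := gB2q2) (D1 := dB2q0) (D2 := dB2q2) (Da := dB1q2) (Db := dB2q2) cB022E_ok B hρ hen (gatB20 x) (gatB22 x) (fun _ => gatB12 x) (fun _ => gatB22 x) (datB20 x) (datB22 x) (fun _ => datB12 x) (fun _ => datB22 x) hd hx hx' CW.B022E_221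
    · exact corW_cert (G1 := gB2q0) (G2 := gB2q2) (Ga := gB2q2) (Gb := gB3q2) (D1 := dB2q0) (D2 := dB2q2) (Da := dB2q2) (Db := dB3q2) cB022E_ok B hρ hen (gatB20 x) (gatB22 x) (fun _ => gatB22 x) (fun _ => gatB32 x) (datB20 x) (datB22 x) (fun _ => datB22 x) (fun _ => datB32 x) hd hx hx' CW.B022E_222
    · exact corW_cert (G1 := gB2q0) (G2 := gB2q2) (Ga := gB3q2) (Gb := gB4q2) (D1 := dB2q0) (D2 := dB2q2) (Da := dB3q2) (Db := dB4q2) cB022E_ok B hρ hen (gatB20 x) (gatB22 x) (fun _ => gatB32 x) (fun h => absurd h (by decide)) (datB20 x) (datB22 x) (fun _ => datB32 x) (fun h => absurd h (by decide)) hd hx hx' CW.B022E_223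
    · exact absurd h2 (by norm_num)
    · exact absurd h2 (by norm_num)
  · intro ρ a B hρ hd i h1 h2
    fin_cases i
    · exact corT_cert (G1 := gB2q0) (G2 := gB2q2) (Ga := gB0q2) (Gb := gB1q2) cB022E_ok B hρ (gatB20 x) (gatB22 x) (fun _ => gatB02 x) (fun _ => gatB12 x) hd hx hx' CG.B022E_220
    · exact corT_cert (G1 := gB2q0) (G2 := gB2q2) (Ga := gB1q2) (Gb := gB2q2) cB022E_ok B hρ (gatB20 x) (gatB22 x) (fun _ => gatB12 x) (fun _ => gatB22 x) hd hx hx' CG.B022E_221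
    · exact corT_cert (G1 := gB2q0) (G2 := gB2q2) (Ga := gB2q2) (Gb := gB3q2) cB022E_ok B hρ (gatB20 x) (gatB22 x) (fun _ => gatB22 x) (fun _ => gatB32 x) hd hx hx' CG.B022E_222
    · exact corT_cert (G1 := gB2q0) (G2 := gB2q2) (Ga := gB3q2) (Gb := gB4q2) cB022E_ok B hρ (gatB20 x) (gatB22 x) (fun _ => gatB32 x) (fun h => absurd h (by decide)) hd hx hx' CG.B022E_223
    · exact absurd h2 (by norm_num)
    · exact absurd h2 (by norm_num)

theorem altB_B022E_23 {κ x : ℝ} (hκ : κ * h0 = ken x) (hx : ((536870912 : ℕ) : ℝ) / S ≤ x) (hx' : x ≤ (((536870912 : ℕ) : ℝ) + (50465866 : ℕ)) / S) :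
    AltEB 3 κ (eng.v x) (3 / 40) (tnt (h0 * x) (3 / 10)) PP tK tL tC pcB (scP esg pd) [⟨0, 0, 0, 67108864⟩, ⟨1, 1, 0, 67108864⟩, ⟨2, 1, 0, 67108864⟩] 0 2 2 2 3 (sgb true) (sgb true) x := by
  have X : XR 67108864 x := XR.of hx hx' (by norm_num) (by norm_num) (by norm_num) (by norm_num)
  have hen : 0 < eng.v x := en_pos X.x0.le
  refine CornW.altB (C := cB022E) (j := (2 : Fin 7)) (k := (3 : Fin 7)) (Ef := esg) (pd := pd) (o := 3 / 40)
    (cornW_of (C := cB022E) (C0 := c0B) (En := eng) (mo := mog) (j := (2 : Fin 7)) (k := (3 : Fin 7)) (lo := 0) (hi := 3) (W := 67108864) (N0 := 3) cB022E_q (sideB hx hx') gokB (pinU hx hx') dokB X (by norm_num) (by norm_num) (l := (0 : Fin 7)) rfl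
      (gatB20 x) (gatB32 x) (gatB02 x) (datB20 x) (datB32 x) (datB02 x) ?_)
    (cornS_of (C := cB022E) (C0 := c0B) (j := (2 : Fin 7)) (k := (3 : Fin 7)) (lo := 0) (hi := 3) (W := 67108864) (N0 := 3) cB022E_q (sideB hx hx') gokB X (by norm_num) (by norm_num) (l := (0 : Fin 7)) rfl
      (gatB20 x) (gatB32 x) (gatB02 x) ?_)
    (thU (pinU hx hx')) rfl hκ (fun j q y => tC_eq j q y x) (esg_rng X.x0.le (by linarith [X.b, X.p0])).1 (mo_v x) le_rfl le_rfl
  · intro ρ a B hρ hd i h1 h2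
    fin_cases i
    · exact corW_cert (G1 := gB2q0) (G2 := gB3q2) (Ga := gB0q2) (Gb := gB1q2) (D1 := dB2q0) (D2 := dB3q2) (Da := dB0q2) (Db := dB1q2) cB022E_ok B hρ hen (gatB20 x) (gatB32 x) (fun _ => gatB02 x) (fun _ => gatB12 x) (datB20 x) (datB32 x) (fun _ => datB02 x) (fun _ => datB12 x) hd hx hx' CW.B022E_230
    · exact corW_cert (G1 := gB2q0) (G2 := gB3q2) (Ga := gB1q2) (Gb := gB2q2) (D1 := dB2q0) (D2 := dB3q2) (Da := dB1q2) (Db := dB2q2) cB022E_ok B hρ hen (gatB20 x) (gatB32 x) (fun _ => gatB12 x) (fun _ => gatB22 x) (datB20 x) (datB32 x) (fun _ => datB12 x) (fun _ => datB22 x) hd hx hx' CW.B022E_231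
    · exact corW_cert (G1 := gB2q0) (G2 := gB3q2) (Ga := gB2q2) (Gb := gB3q2) (D1 := dB2q0) (D2 := dB3q2) (Da := dB2q2) (Db := dB3q2) cB022E_ok B hρ hen (gatB20 x) (gatB32 x) (fun _ => gatB22 x) (fun _ => gatB32 x) (datB20 x) (datB32 x) (fun _ => datB22 x) (fun _ => datB32 x) hd hx hx' CW.B022E_232
    · exact corW_cert (G1 := gB2q0) (G2 := gB3q2) (Ga := gB3q2) (Gb := gB4q2) (D1 := dB2q0) (D2 := dB3q2) (Da := dB3q2) (Db := dB4q2) cB022E_ok B hρ hen (gatB20 x) (gatB32 x) (fun _ => gatB32 x) (fun h => absurd h (by decide)) (datB20 x) (datB32 x) (fun _ => datB32 x) (fun h => absurd h (by decide)) hd hx hx' CW.B022E_233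
    · exact absurd h2 (by norm_num)
    · exact absurd h2 (by norm_num)
  · intro ρ a B hρ hd i h1 h2
    fin_cases i
    · exact corT_cert (G1 := gB2q0) (G2 := gB3q2) (Ga := gB0q2) (Gb := gB1q2) cB022E_ok B hρ (gatB20 x) (gatB32 x) (fun _ => gatB02 x) (fun _ => gatB12 x) hd hx hx' CG.B022E_230
    · exact corT_cert (G1 := gB2q0) (G2 := gB3q2) (Ga := gB1q2) (Gb := gB2q2) cB022E_ok B hρ (gatB20 x) (gatB32 x) (fun _ => gatB12 x) (fun _ => gatB22 x) hd hx hx' CG.B022E_231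
    · exact corT_cert (G1 := gB2q0) (G2 := gB3q2) (Ga := gB2q2) (Gb := gB3q2) cB022E_ok B hρ (gatB20 x) (gatB32 x) (fun _ => gatB22 x) (fun _ => gatB32 x) hd hx hx' CG.B022E_232
    · exact corT_cert (G1 := gB2q0) (G2 := gB3q2) (Ga := gB3q2) (Gb := gB4q2) cB022E_ok B hρ (gatB20 x) (gatB32 x) (fun _ => gatB32 x) (fun h => absurd h (by decide)) hd hx hx' CG.B022E_233
    · exact absurd h2 (by norm_num)
    · exact absurd h2 (by norm_num)

theorem altB_B022E_30 {κ x : ℝ} (hκ : κ * h0 = ken x) (hx : ((536870912 : ℕ) : ℝ) / S ≤ x) (hx' : x ≤ (((536870912 : ℕ) : ℝ) + (50465866 : ℕ)) / S) :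
    AltEB 3 κ (eng.v x) (3 / 40) (tnt (h0 * x) (3 / 10)) PP tK tL tC pcB (scP esg pd) [⟨0, 0, 0, 67108864⟩, ⟨1, 1, 0, 67108864⟩, ⟨2, 1, 0, 67108864⟩] 0 2 2 3 0 (sgb true) (sgb true) x := by
  have X : XR 67108864 x := XR.of hx hx' (by norm_num) (by norm_num) (by norm_num) (by norm_num)
  have hen : 0 < eng.v x := en_pos X.x0.le
  refine CornW.altB (C := cB022E) (j := (3 : Fin 7)) (k := (0 : Fin 7)) (Ef := esg) (pd := pd) (o := 3 / 40)
    (cornW_of (C := cB022E) (C0 := c0B) (En := eng) (mo := mog) (j := (3 : Fin 7)) (k := (0 : Fin 7)) (lo := 0) (hi := 3) (W := 67108864) (N0 := 3) cB022E_q (sideB hx hx') gokB (pinU hx hx') dokB X (by norm_num) (by norm_num) (l := (0 : Fin 7)) rfl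
      (gatB30 x) (gatB02 x) (gatB02 x) (datB30 x) (datB02 x) (datB02 x) ?_)
    (cornS_of (C := cB022E) (C0 := c0B) (j := (3 : Fin 7)) (k := (0 : Fin 7)) (lo := 0) (hi := 3) (W := 67108864) (N0 := 3) cB022E_q (sideB hx hx') gokB X (by norm_num) (by norm_num) (l := (0 : Fin 7)) rfl
      (gatB30 x) (gatB02 x) (gatB02 x) ?_)
    (thU (pinU hx hx')) rfl hκ (fun j q y => tC_eq j q y x) (esg_rng X.x0.le (by linarith [X.b, X.p0])).1 (mo_v x) le_rfl le_rfl
  · intro ρ a B hρ hd i h1 h2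
    fin_cases i
    · exact corW_cert (G1 := gB3q0) (G2 := gB0q2) (Ga := gB0q2) (Gb := gB1q2) (D1 := dB3q0) (D2 := dB0q2) (Da := dB0q2) (Db := dB1q2) cB022E_ok B hρ hen (gatB30 x) (gatB02 x) (fun _ => gatB02 x) (fun _ => gatB12 x) (datB30 x) (datB02 x) (fun _ => datB02 x) (fun _ => datB12 x) hd hx hx' CW.B022E_300
    · exact corW_cert (G1 := gB3q0) (G2 := gB0q2) (Ga := gB1q2) (Gb := gB2q2) (D1 := dB3q0) (D2 := dB0q2) (Da := dB1q2) (Db := dB2q2) cB022E_ok B hρ hen (gatB30 x) (gatB02 x) (fun _ => gatB12 x) (fun _ => gatB22 x) (datB30 x) (datB02 x) (fun _ => datB12 x) (fun _ => datB22 x) hd hx hx' CW.B022E_301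
    · exact corW_cert (G1 := gB3q0) (G2 := gB0q2) (Ga := gB2q2) (Gb := gB3q2) (D1 := dB3q0) (D2 := dB0q2) (Da := dB2q2) (Db := dB3q2) cB022E_ok B hρ hen (gatB30 x) (gatB02 x) (fun _ => gatB22 x) (fun _ => gatB32 x) (datB30 x) (datB02 x) (fun _ => datB22 x) (fun _ => datB32 x) hd hx hx' CW.B022E_302
    · exact corW_cert (G1 := gB3q0) (G2 := gB0q2) (Ga := gB3q2) (Gb := gB4q2) (D1 := dB3q0) (D2 := dB0q2) (Da := dB3q2) (Db := dB4q2) cB022E_ok B hρ hen (gatB30 x) (gatB02 x) (fun _ => gatB32 x) (fun h => absurd h (by decide)) (datB30 x) (datB02 x) (fun _ => datB32 x) (fun h => absurd h (by decide)) hd hx hx' CW.B022E_303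
    · exact absurd h2 (by norm_num)
    · exact absurd h2 (by norm_num)
  · intro ρ a B hρ hd i h1 h2
    fin_cases i
    · exact corT_cert (G1 := gB3q0) (G2 := gB0q2) (Ga := gB0q2) (Gb := gB1q2) cB022E_ok B hρ (gatB30 x) (gatB02 x) (fun _ => gatB02 x) (fun _ => gatB12 x) hd hx hx' CG.B022E_300
    · exact corT_cert (G1 := gB3q0) (G2 := gB0q2) (Ga := gB1q2) (Gb := gB2q2) cB022E_ok B hρ (gatB30 x) (gatB02 x) (fun _ => gatB12 x) (fun _ => gatB22 x) hd hx hx' CG.B022E_301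
    · exact corT_cert (G1 := gB3q0) (G2 := gB0q2) (Ga := gB2q2) (Gb := gB3q2) cB022E_ok B hρ (gatB30 x) (gatB02 x) (fun _ => gatB22 x) (fun _ => gatB32 x) hd hx hx' CG.B022E_302
    · exact corT_cert (G1 := gB3q0) (G2 := gB0q2) (Ga := gB3q2) (Gb := gB4q2) cB022E_ok B hρ (gatB30 x) (gatB02 x) (fun _ => gatB32 x) (fun h => absurd h (by decide)) hd hx hx' CG.B022E_303
    · exact absurd h2 (by norm_num)
    · exact absurd h2 (by norm_num)

theorem altB_B022E_31 {κ x : ℝ} (hκ : κ * h0 = ken x) (hx : ((536870912 : ℕ) : ℝ) / S ≤ x) (hx' : x ≤ (((536870912 : ℕ) : ℝ) + (50465866 : ℕ)) / S) :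
    AltEB 3 κ (eng.v x) (3 / 40) (tnt (h0 * x) (3 / 10)) PP tK tL tC pcB (scP esg pd) [⟨0, 0, 0, 67108864⟩, ⟨1, 1, 0, 67108864⟩, ⟨2, 1, 0, 67108864⟩] 0 2 2 3 1 (sgb true) (sgb true) x := by
  have X : XR 67108864 x := XR.of hx hx' (by norm_num) (by norm_num) (by norm_num) (by norm_num)
  have hen : 0 < eng.v x := en_pos X.x0.le
  refine CornW.altB (C := cB022E) (j := (3 : Fin 7)) (k := (1 : Fin 7)) (Ef := esg) (pd := pd) (o := 3 / 40)
    (cornW_of (C := cB022E) (C0 := c0B) (En := eng) (mo := mog) (j := (3 : Fin 7)) (k := (1 : Fin 7)) (lo := 0) (hi := 3) (W := 67108864) (N0 := 3) cB022E_q (sideB hx hx') gokB (pinU hx hx') dokB X (by norm_num) (by norm_num) (l := (0 : Fin 7)) rfl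
      (gatB30 x) (gatB12 x) (gatB02 x) (datB30 x) (datB12 x) (datB02 x) ?_)
    (cornS_of (C := cB022E) (C0 := c0B) (j := (3 : Fin 7)) (k := (1 : Fin 7)) (lo := 0) (hi := 3) (W := 67108864) (N0 := 3) cB022E_q (sideB hx hx') gokB X (by norm_num) (by norm_num) (l := (0 : Fin 7)) rfl
      (gatB30 x) (gatB12 x) (gatB02 x) ?_)
    (thU (pinU hx hx')) rfl hκ (fun j q y => tC_eq j q y x) (esg_rng X.x0.le (by linarith [X.b, X.p0])).1 (mo_v x) le_rfl le_rfl
  · intro ρ a B hρ hd i h1 h2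
    fin_cases i
    · exact corW_cert (G1 := gB3q0) (G2 := gB1q2) (Ga := gB0q2) (Gb := gB1q2) (D1 := dB3q0) (D2 := dB1q2) (Da := dB0q2) (Db := dB1q2) cB022E_ok B hρ hen (gatB30 x) (gatB12 x) (fun _ => gatB02 x) (fun _ => gatB12 x) (datB30 x) (datB12 x) (fun _ => datB02 x) (fun _ => datB12 x) hd hx hx' CW.B022E_310
    · exact corW_cert (G1 := gB3q0) (G2 := gB1q2) (Ga := gB1q2) (Gb := gB2q2) (D1 := dB3q0) (D2 := dB1q2) (Da := dB1q2) (Db := dB2q2) cB022E_ok B hρ hen (gatB30 x) (gatB12 x) (fun _ => gatB12 x) (fun _ => gatB22 x) (datB30 x) (datB12 x) (fun _ => datB12 x) (fun _ => datB22 x) hd hx hx' CW.B022E_311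
    · exact corW_cert (G1 := gB3q0) (G2 := gB1q2) (Ga := gB2q2) (Gb := gB3q2) (D1 := dB3q0) (D2 := dB1q2) (Da := dB2q2) (Db := dB3q2) cB022E_ok B hρ hen (gatB30 x) (gatB12 x) (fun _ => gatB22 x) (fun _ => gatB32 x) (datB30 x) (datB12 x) (fun _ => datB22 x) (fun _ => datB32 x) hd hx hx' CW.B022E_312
    · exact corW_cert (G1 := gB3q0) (G2 := gB1q2) (Ga := gB3q2) (Gb := gB4q2) (D1 := dB3q0) (D2 := dB1q2) (Da := dB3q2) (Db := dB4q2) cB022E_ok B hρ hen (gatB30 x) (gatB12 x) (fun _ => gatB32 x) (fun h => absurd h (by decide)) (datB30 x) (datB12 x) (fun _ => datB32 x) (fun h => absurd h (by decide)) hd hx hx' CW.B022E_313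
    · exact absurd h2 (by norm_num)
    · exact absurd h2 (by norm_num)
  · intro ρ a B hρ hd i h1 h2
    fin_cases i
    · exact corT_cert (G1 := gB3q0) (G2 := gB1q2) (Ga := gB0q2) (Gb := gB1q2) cB022E_ok B hρ (gatB30 x) (gatB12 x) (fun _ => gatB02 x) (fun _ => gatB12 x) hd hx hx' CG.B022E_310
    · exact corT_cert (G1 := gB3q0) (G2 := gB1q2) (Ga := gB1q2) (Gb := gB2q2) cB022E_ok B hρ (gatB30 x) (gatB12 x) (fun _ => gatB12 x) (fun _ => gatB22 x) hd hx hx' CG.B022E_311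
    · exact corT_cert (G1 := gB3q0) (G2 := gB1q2) (Ga := gB2q2) (Gb := gB3q2) cB022E_ok B hρ (gatB30 x) (gatB12 x) (fun _ => gatB22 x) (fun _ => gatB32 x) hd hx hx' CG.B022E_312
    · exact corT_cert (G1 := gB3q0) (G2 := gB1q2) (Ga := gB3q2) (Gb := gB4q2) cB022E_ok B hρ (gatB30 x) (gatB12 x) (fun _ => gatB32 x) (fun h => absurd h (by decide)) hd hx hx' CG.B022E_313
    · exact absurd h2 (by norm_num)
    · exact absurd h2 (by norm_num)

theorem altB_B022E_32 {κ x : ℝ} (hκ : κ * h0 = ken x) (hx : ((536870912 : ℕ) : ℝ) / S ≤ x) (hx' : x ≤ (((536870912 : ℕ) : ℝ) + (50465866 : ℕ)) / S) :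
    AltEB 3 κ (eng.v x) (3 / 40) (tnt (h0 * x) (3 / 10)) PP tK tL tC pcB (scP esg pd) [⟨0, 0, 0, 67108864⟩, ⟨1, 1, 0, 67108864⟩, ⟨2, 1, 0, 67108864⟩] 0 2 2 3 2 (sgb true) (sgb true) x := by
  have X : XR 67108864 x := XR.of hx hx' (by norm_num) (by norm_num) (by norm_num) (by norm_num)
  have hen : 0 < eng.v x := en_pos X.x0.le
  refine CornW.altB (C := cB022E) (j := (3 : Fin 7)) (k := (2 : Fin 7)) (Ef := esg) (pd := pd) (o := 3 / 40)
    (cornW_of (C := cB022E) (C0 := c0B) (En := eng) (mo := mog) (j := (3 : Fin 7)) (k := (2 : Fin 7)) (lo := 0) (hi := 3) (W := 67108864) (N0 := 3) cB022E_q (sideB hx hx') gokB (pinU hx hx') dokB X (by norm_num) (by norm_num) (l := (0 : Fin 7)) rfl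
      (gatB30 x) (gatB22 x) (gatB02 x) (datB30 x) (datB22 x) (datB02 x) ?_)
    (cornS_of (C := cB022E) (C0 := c0B) (j := (3 : Fin 7)) (k := (2 : Fin 7)) (lo := 0) (hi := 3) (W := 67108864) (N0 := 3) cB022E_q (sideB hx hx') gokB X (by norm_num) (by norm_num) (l := (0 : Fin 7)) rfl
      (gatB30 x) (gatB22 x) (gatB02 x) ?_)
    (thU (pinU hx hx')) rfl hκ (fun j q y => tC_eq j q y x) (esg_rng X.x0.le (by linarith [X.b, X.p0])).1 (mo_v x) le_rfl le_rfl
  · intro ρ a B hρ hd i h1 h2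
    fin_cases i
    · exact corW_cert (G1 := gB3q0) (G2 := gB2q2) (Ga := gB0q2) (Gb := gB1q2) (D1 := dB3q0) (D2 := dB2q2) (Da := dB0q2) (Db := dB1q2) cB022E_ok B hρ hen (gatB30 x) (gatB22 x) (fun _ => gatB02 x) (fun _ => gatB12 x) (datB30 x) (datB22 x) (fun _ => datB02 x) (fun _ => datB12 x) hd hx hx' CW.B022E_320
    · exact corW_cert (G1 := gB3q0) (G2 := gB2q2) (Ga := gB1q2) (Gb := gB2q2) (D1 := dB3q0) (D2 := dB2q2) (Da := dB1q2) (Db := dB2q2) cB022E_ok B hρ hen (gatB30 x) (gatB22 x) (fun _ => gatB12 x) (fun _ => gatB22 x) (datB30 x) (datB22 x) (fun _ => datB12 x) (fun _ => datB22 x) hd hx hx' CW.B022E_321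
    · exact corW_cert (G1 := gB3q0) (G2 := gB2q2) (Ga := gB2q2) (Gb := gB3q2) (D1 := dB3q0) (D2 := dB2q2) (Da := dB2q2) (Db := dB3q2) cB022E_ok B hρ hen (gatB30 x) (gatB22 x) (fun _ => gatB22 x) (fun _ => gatB32 x) (datB30 x) (datB22 x) (fun _ => datB22 x) (fun _ => datB32 x) hd hx hx' CW.B022E_322
    · exact corW_cert (G1 := gB3q0) (G2 := gB2q2) (Ga := gB3q2) (Gb := gB4q2) (D1 := dB3q0) (D2 := dB2q2) (Da := dB3q2) (Db := dB4q2) cB022E_ok B hρ hen (gatB30 x) (gatB22 x) (fun _ => gatB32 x) (fun h => absurd h (by decide)) (datB30 x) (datB22 x) (fun _ => datB32 x) (fun h => absurd h (by decide)) hd hx hx' CW.B022E_323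
    · exact absurd h2 (by norm_num)
    · exact absurd h2 (by norm_num)
  · intro ρ a B hρ hd i h1 h2
    fin_cases i
    · exact corT_cert (G1 := gB3q0) (G2 := gB2q2) (Ga := gB0q2) (Gb := gB1q2) cB022E_ok B hρ (gatB30 x) (gatB22 x) (fun _ => gatB02 x) (fun _ => gatB12 x) hd hx hx' CG.B022E_320
    · exact corT_cert (G1 := gB3q0) (G2 := gB2q2) (Ga := gB1q2) (Gb := gB2q2) cB022E_ok B hρ (gatB30 x) (gatB22 x) (fun _ => gatB12 x) (fun _ => gatB22 x) hd hx hx' CG.B022E_321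
    · exact corT_cert (G1 := gB3q0) (G2 := gB2q2) (Ga := gB2q2) (Gb := gB3q2) cB022E_ok B hρ (gatB30 x) (gatB22 x) (fun _ => gatB22 x) (fun _ => gatB32 x) hd hx hx' CG.B022E_322
    · exact corT_cert (G1 := gB3q0) (G2 := gB2q2) (Ga := gB3q2) (Gb := gB4q2) cB022E_ok B hρ (gatB30 x) (gatB22 x) (fun _ => gatB32 x) (fun h => absurd h (by decide)) hd hx hx' CG.B022E_323
    · exact absurd h2 (by norm_num)
    · exact absurd h2 (by norm_num)

theorem altB_B022E_33 {κ x : ℝ} (hκ : κ * h0 = ken x) (hx : ((536870912 : ℕ) : ℝ) / S ≤ x) (hx' : x ≤ (((536870912 : ℕ) : ℝ) + (50465866 : ℕ)) / S) :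
    AltEB 3 κ (eng.v x) (3 / 40) (tnt (h0 * x) (3 / 10)) PP tK tL tC pcB (scP esg pd) [⟨0, 0, 0, 67108864⟩, ⟨1, 1, 0, 67108864⟩, ⟨2, 1, 0, 67108864⟩] 0 2 2 3 3 (sgb true) (sgb true) x := by
  have X : XR 67108864 x := XR.of hx hx' (by norm_num) (by norm_num) (by norm_num) (by norm_num)
  have hen : 0 < eng.v x := en_pos X.x0.le
  refine CornW.altB (C := cB022E) (j := (3 : Fin 7)) (k := (3 : Fin 7)) (Ef := esg) (pd := pd) (o := 3 / 40)
    (cornW_of (C := cB022E) (C0 := c0B) (En := eng) (mo := mog) (j := (3 : Fin 7)) (k := (3 : Fin 7)) (lo := 0) (hi := 3) (W := 67108864) (N0 := 3) cB022E_q (sideB hx hx') gokB (pinU hx hx') dokB X (by norm_num) (by norm_num) (l := (0 : Fin 7)) rfl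
      (gatB30 x) (gatB32 x) (gatB02 x) (datB30 x) (datB32 x) (datB02 x) ?_)
    (cornS_of (C := cB022E) (C0 := c0B) (j := (3 : Fin 7)) (k := (3 : Fin 7)) (lo := 0) (hi := 3) (W := 67108864) (N0 := 3) cB022E_q (sideB hx hx') gokB X (by norm_num) (by norm_num) (l := (0 : Fin 7)) rfl
      (gatB30 x) (gatB32 x) (gatB02 x) ?_)
    (thU (pinU hx hx')) rfl hκ (fun j q y => tC_eq j q y x) (esg_rng X.x0.le (by linarith [X.b, X.p0])).1 (mo_v x) le_rfl le_rfl
  · intro ρ a B hρ hd i h1 h2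
    fin_cases i
    · exact corW_cert (G1 := gB3q0) (G2 := gB3q2) (Ga := gB0q2) (Gb := gB1q2) (D1 := dB3q0) (D2 := dB3q2) (Da := dB0q2) (Db := dB1q2) cB022E_ok B hρ hen (gatB30 x) (gatB32 x) (fun _ => gatB02 x) (fun _ => gatB12 x) (datB30 x) (datB32 x) (fun _ => datB02 x) (fun _ => datB12 x) hd hx hx' CW.B022E_330
    · exact corW_cert (G1 := gB3q0) (G2 := gB3q2) (Ga := gB1q2) (Gb := gB2q2) (D1 := dB3q0) (D2 := dB3q2) (Da := dB1q2) (Db := dB2q2) cB022E_ok B hρ hen (gatB30 x) (gatB32 x) (fun _ => gatB12 x) (fun _ => gatB22 x) (datB30 x) (datB32 x) (fun _ => datB12 x) (fun _ => datB22 x) hd hx hx' CW.B022E_331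
    · exact corW_cert (G1 := gB3q0) (G2 := gB3q2) (Ga := gB2q2) (Gb := gB3q2) (D1 := dB3q0) (D2 := dB3q2) (Da := dB2q2) (Db := dB3q2) cB022E_ok B hρ hen (gatB30 x) (gatB32 x) (fun _ => gatB22 x) (fun _ => gatB32 x) (datB30 x) (datB32 x) (fun _ => datB22 x) (fun _ => datB32 x) hd hx hx' CW.B022E_332
    · exact corW_cert (G1 := gB3q0) (G2 := gB3q2) (Ga := gB3q2) (Gb := gB4q2) (D1 := dB3q0) (D2 := dB3q2) (Da := dB3q2) (Db := dB4q2) cB022E_ok B hρ hen (gatB30 x) (gatB32 x) (fun _ => gatB32 x) (fun h => absurd h (by decide)) (datB30 x) (datB32 x) (fun _ => datB32 x) (fun h => absurd h (by decide)) hd hx hx' CW.B022E_333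
    · exact absurd h2 (by norm_num)
    · exact absurd h2 (by norm_num)
  · intro ρ a B hρ hd i h1 h2
    fin_cases i
    · exact corT_cert (G1 := gB3q0) (G2 := gB3q2) (Ga := gB0q2) (Gb := gB1q2) cB022E_ok B hρ (gatB30 x) (gatB32 x) (fun _ => gatB02 x) (fun _ => gatB12 x) hd hx hx' CG.B022E_330
    · exact corT_cert (G1 := gB3q0) (G2 := gB3q2) (Ga := gB1q2) (Gb := gB2q2) cB022E_ok B hρ (gatB30 x) (gatB32 x) (fun _ => gatB12 x) (fun _ => gatB22 x) hd hx hx' CG.B022E_331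
    · exact corT_cert (G1 := gB3q0) (G2 := gB3q2) (Ga := gB2q2) (Gb := gB3q2) cB022E_ok B hρ (gatB30 x) (gatB32 x) (fun _ => gatB22 x) (fun _ => gatB32 x) hd hx hx' CG.B022E_332
    · exact corT_cert (G1 := gB3q0) (G2 := gB3q2) (Ga := gB3q2) (Gb := gB4q2) cB022E_ok B hρ (gatB30 x) (gatB32 x) (fun _ => gatB32 x) (fun h => absurd h (by decide)) hd hx hx' CG.B022E_333
    · exact absurd h2 (by norm_num)
    · exact absurd h2 (by norm_num)

theorem altB_B022L_06 {κ x : ℝ} (hκ : κ * h0 = ken x) (hx : ((536870912 : ℕ) : ℝ) / S ≤ x) (hx' : x ≤ (((536870912 : ℕ) : ℝ) + (50465866 : ℕ)) / S) :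
    AltEB 3 κ (eng.v x) (3 / 40) (tnt (h0 * x) (3 / 10)) PP tK tL tC pcB (scP esg pd) [⟨0, 0, 0, 67108864⟩, ⟨1, 1, 0, 67108864⟩, ⟨2, 1, 0, 67108864⟩] 0 2 2 0 6 (sgb true) (sgb true) x := by
  have X : XR 67108864 x := XR.of hx hx' (by norm_num) (by norm_num) (by norm_num) (by norm_num)
  have hen : 0 < eng.v x := en_pos X.x0.le
  refine CornW.altB (C := cB022L) (j := (0 : Fin 7)) (k := (6 : Fin 7)) (Ef := esg) (pd := pd) (o := 3 / 40)
    (cornW_of (C := cB022L) (C0 := c0B) (En := eng) (mo := mog) (j := (0 : Fin 7)) (k := (6 : Fin 7)) (lo := 0) (hi := 3) (W := 67108864) (N0 := 3) cB022L_q (sideB hx hx') gokB (pinU hx hx') dokB X (by norm_num) (by norm_num) (l := (0 : Fin 7)) rfl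
      (gatB00 x) (gatB62 x) (gatB02 x) (datB00 x) (datB62 x) (datB02 x) ?_)
    (cornS_of (C := cB022L) (C0 := c0B) (j := (0 : Fin 7)) (k := (6 : Fin 7)) (lo := 0) (hi := 3) (W := 67108864) (N0 := 3) cB022L_q (sideB hx hx') gokB X (by norm_num) (by norm_num) (l := (0 : Fin 7)) rfl
      (gatB00 x) (gatB62 x) (gatB02 x) ?_)
    (thU (pinU hx hx')) rfl hκ (fun j q y => tC_eq j q y x) (esg_rng X.x0.le (by linarith [X.b, X.p0])).1 (mo_v x) le_rfl le_rfl
  · intro ρ a B hρ hd i h1 h2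
    fin_cases i
    · exact corW_cert (G1 := gB0q0) (G2 := gB6q2) (Ga := gB0q2) (Gb := gB1q2) (D1 := dB0q0) (D2 := dB6q2) (Da := dB0q2) (Db := dB1q2) cB022L_ok B hρ hen (gatB00 x) (gatB62 x) (fun _ => gatB02 x) (fun _ => gatB12 x) (datB00 x) (datB62 x) (fun _ => datB02 x) (fun _ => datB12 x) hd hx hx' CW.B022L_060
    · exact corW_cert (G1 := gB0q0) (G2 := gB6q2) (Ga := gB1q2) (Gb := gB2q2) (D1 := dB0q0) (D2 := dB6q2) (Da := dB1q2) (Db := dB2q2) cB022L_ok B hρ hen (gatB00 x) (gatB62 x) (fun _ => gatB12 x) (fun _ => gatB22 x) (datB00 x) (datB62 x) (fun _ => datB12 x) (fun _ => datB22 x) hd hx hx' CW.B022L_061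
    · exact corW_cert (G1 := gB0q0) (G2 := gB6q2) (Ga := gB2q2) (Gb := gB3q2) (D1 := dB0q0) (D2 := dB6q2) (Da := dB2q2) (Db := dB3q2) cB022L_ok B hρ hen (gatB00 x) (gatB62 x) (fun _ => gatB22 x) (fun _ => gatB32 x) (datB00 x) (datB62 x) (fun _ => datB22 x) (fun _ => datB32 x) hd hx hx' CW.B022L_062
    · exact corW_cert (G1 := gB0q0) (G2 := gB6q2) (Ga := gB3q2) (Gb := gB4q2) (D1 := dB0q0) (D2 := dB6q2) (Da := dB3q2) (Db := dB4q2) cB022L_ok B hρ hen (gatB00 x) (gatB62 x) (fun _ => gatB32 x) (fun h => absurd h (by decide)) (datB00 x) (datB62 x) (fun _ => datB32 x) (fun h => absurd h (by decide)) hd hx hx' CW.B022L_063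
    · exact absurd h2 (by norm_num)
    · exact absurd h2 (by norm_num)
  · intro ρ a B hρ hd i h1 h2
    fin_cases i
    · exact corX_cert (G1 := gB0q0) (G2 := gB6q2) (Ga := gB0q2) (Gb := gB1q2) (GT := gB0q2) cB022L_ok tB022L_ok B hρ (gatB00 x) (gatB62 x) (fun _ => gatB02 x) (fun _ => gatB12 x) rfl (tgh_B022L (kodd x) (gpu0 x) (gpt2 x) (gpu2 x) (gatB00 x) (gatB62 x) (gatB02 x) B (le_sixteenth hd (by norm_num))) hd hx hx' CG.B022L_060
    · exact corT_cert (G1 := gB0q0) (G2 := gB6q2) (Ga := gB1q2) (Gb := gB2q2) cB022L_ok B hρ (gatB00 x) (gatB62 x) (fun _ => gatB12 x) (fun _ => gatB22 x) hd hx hx' CG.B022L_061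
    · exact corT_cert (G1 := gB0q0) (G2 := gB6q2) (Ga := gB2q2) (Gb := gB3q2) cB022L_ok B hρ (gatB00 x) (gatB62 x) (fun _ => gatB22 x) (fun _ => gatB32 x) hd hx hx' CG.B022L_062
    · exact corT_cert (G1 := gB0q0) (G2 := gB6q2) (Ga := gB3q2) (Gb := gB4q2) cB022L_ok B hρ (gatB00 x) (gatB62 x) (fun _ => gatB32 x) (fun h => absurd h (by decide)) hd hx hx' CG.B022L_063
    · exact absurd h2 (by norm_num)
    · exact absurd h2 (by norm_num)

theorem altB_B022L_16 {κ x : ℝ} (hκ : κ * h0 = ken x) (hx : ((536870912 : ℕ) : ℝ) / S ≤ x) (hx' : x ≤ (((536870912 : ℕ) : ℝ) + (50465866 : ℕ)) / S) :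
    AltEB 3 κ (eng.v x) (3 / 40) (tnt (h0 * x) (3 / 10)) PP tK tL tC pcB (scP esg pd) [⟨0, 0, 0, 67108864⟩, ⟨1, 1, 0, 67108864⟩, ⟨2, 1, 0, 67108864⟩] 0 2 2 1 6 (sgb true) (sgb true) x := by
  have X : XR 67108864 x := XR.of hx hx' (by norm_num) (by norm_num) (by norm_num) (by norm_num)
  have hen : 0 < eng.v x := en_pos X.x0.le
  refine CornW.altB (C := cB022L) (j := (1 : Fin 7)) (k := (6 : Fin 7)) (Ef := esg) (pd := pd) (o := 3 / 40)
    (cornW_of (C := cB022L) (C0 := c0B) (En := eng) (mo := mog) (j := (1 : Fin 7)) (k := (6 : Fin 7)) (lo := 0) (hi := 3) (W := 67108864) (N0 := 3) cB022L_q (sideB hx hx') gokB (pinU hx hx') dokB X (by norm_num) (by norm_num) (l := (0 : Fin 7)) rfl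
      (gatB10 x) (gatB62 x) (gatB02 x) (datB10 x) (datB62 x) (datB02 x) ?_)
    (cornS_of (C := cB022L) (C0 := c0B) (j := (1 : Fin 7)) (k := (6 : Fin 7)) (lo := 0) (hi := 3) (W := 67108864) (N0 := 3) cB022L_q (sideB hx hx') gokB X (by norm_num) (by norm_num) (l := (0 : Fin 7)) rfl
      (gatB10 x) (gatB62 x) (gatB02 x) ?_)
    (thU (pinU hx hx')) rfl hκ (fun j q y => tC_eq j q y x) (esg_rng X.x0.le (by linarith [X.b, X.p0])).1 (mo_v x) le_rfl le_rfl
  · intro ρ a B hρ hd i h1 h2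
    fin_cases i
    · exact corW_cert (G1 := gB1q0) (G2 := gB6q2) (Ga := gB0q2) (Gb := gB1q2) (D1 := dB1q0) (D2 := dB6q2) (Da := dB0q2) (Db := dB1q2) cB022L_ok B hρ hen (gatB10 x) (gatB62 x) (fun _ => gatB02 x) (fun _ => gatB12 x) (datB10 x) (datB62 x) (fun _ => datB02 x) (fun _ => datB12 x) hd hx hx' CW.B022L_160
    · exact corW_cert (G1 := gB1q0) (G2 := gB6q2) (Ga := gB1q2) (Gb := gB2q2) (D1 := dB1q0) (D2 := dB6q2) (Da := dB1q2) (Db := dB2q2) cB022L_ok B hρ hen (gatB10 x) (gatB62 x) (fun _ => gatB12 x) (fun _ => gatB22 x) (datB10 x) (datB62 x) (fun _ => datB12 x) (fun _ => datB22 x) hd hx hx' CW.B022L_161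
    · exact corW_cert (G1 := gB1q0) (G2 := gB6q2) (Ga := gB2q2) (Gb := gB3q2) (D1 := dB1q0) (D2 := dB6q2) (Da := dB2q2) (Db := dB3q2) cB022L_ok B hρ hen (gatB10 x) (gatB62 x) (fun _ => gatB22 x) (fun _ => gatB32 x) (datB10 x) (datB62 x) (fun _ => datB22 x) (fun _ => datB32 x) hd hx hx' CW.B022L_162
    · exact corW_cert (G1 := gB1q0) (G2 := gB6q2) (Ga := gB3q2) (Gb := gB4q2) (D1 := dB1q0) (D2 := dB6q2) (Da := dB3q2) (Db := dB4q2) cB022L_ok B hρ hen (gatB10 x) (gatB62 x) (fun _ => gatB32 x) (fun h => absurd h (by decide)) (datB10 x) (datB62 x) (fun _ => datB32 x) (fun h => absurd h (by decide)) hd hx hx' CW.B022L_163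
    · exact absurd h2 (by norm_num)
    · exact absurd h2 (by norm_num)
  · intro ρ a B hρ hd i h1 h2
    fin_cases i
    · exact corT_cert (G1 := gB1q0) (G2 := gB6q2) (Ga := gB0q2) (Gb := gB1q2) cB022L_ok B hρ (gatB10 x) (gatB62 x) (fun _ => gatB02 x) (fun _ => gatB12 x) hd hx hx' CG.B022L_160
    · exact corT_cert (G1 := gB1q0) (G2 := gB6q2) (Ga := gB1q2) (Gb := gB2q2) cB022L_ok B hρ (gatB10 x) (gatB62 x) (fun _ => gatB12 x) (fun _ => gatB22 x) hd hx hx' CG.B022L_161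
    · exact corT_cert (G1 := gB1q0) (G2 := gB6q2) (Ga := gB2q2) (Gb := gB3q2) cB022L_ok B hρ (gatB10 x) (gatB62 x) (fun _ => gatB22 x) (fun _ => gatB32 x) hd hx hx' CG.B022L_162
    · exact corT_cert (G1 := gB1q0) (G2 := gB6q2) (Ga := gB3q2) (Gb := gB4q2) cB022L_ok B hρ (gatB10 x) (gatB62 x) (fun _ => gatB32 x) (fun h => absurd h (by decide)) hd hx hx' CG.B022L_163
    · exact absurd h2 (by norm_num)
    · exact absurd h2 (by norm_num)

theorem altB_B022L_26 {κ x : ℝ} (hκ : κ * h0 = ken x) (hx : ((536870912 : ℕ) : ℝ) / S ≤ x) (hx' : x ≤ (((536870912 : ℕ) : ℝ) + (50465866 : ℕ)) / S) :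
    AltEB 3 κ (eng.v x) (3 / 40) (tnt (h0 * x) (3 / 10)) PP tK tL tC pcB (scP esg pd) [⟨0, 0, 0, 67108864⟩, ⟨1, 1, 0, 67108864⟩, ⟨2, 1, 0, 67108864⟩] 0 2 2 2 6 (sgb true) (sgb true) x := by
  have X : XR 67108864 x := XR.of hx hx' (by norm_num) (by norm_num) (by norm_num) (by norm_num)
  have hen : 0 < eng.v x := en_pos X.x0.le
  refine CornW.altB (C := cB022L) (j := (2 : Fin 7)) (k := (6 : Fin 7)) (Ef := esg) (pd := pd) (o := 3 / 40)
    (cornW_of (C := cB022L) (C0 := c0B) (En := eng) (mo := mog) (j := (2 : Fin 7)) (k := (6 : Fin 7)) (lo := 0) (hi := 3) (W := 67108864) (N0 := 3) cB022L_q (sideB hx hx') gokB (pinU hx hx') dokB X (by norm_num) (by norm_num) (l := (0 : Fin 7)) rfl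
      (gatB20 x) (gatB62 x) (gatB02 x) (datB20 x) (datB62 x) (datB02 x) ?_)
    (cornS_of (C := cB022L) (C0 := c0B) (j := (2 : Fin 7)) (k := (6 : Fin 7)) (lo := 0) (hi := 3) (W := 67108864) (N0 := 3) cB022L_q (sideB hx hx') gokB X (by norm_num) (by norm_num) (l := (0 : Fin 7)) rfl
      (gatB20 x) (gatB62 x) (gatB02 x) ?_)
    (thU (pinU hx hx')) rfl hκ (fun j q y => tC_eq j q y x) (esg_rng X.x0.le (by linarith [X.b, X.p0])).1 (mo_v x) le_rfl le_rfl
  · intro ρ a B hρ hd i h1 h2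
    fin_cases i
    · exact corW_cert (G1 := gB2q0) (G2 := gB6q2) (Ga := gB0q2) (Gb := gB1q2) (D1 := dB2q0) (D2 := dB6q2) (Da := dB0q2) (Db := dB1q2) cB022L_ok B hρ hen (gatB20 x) (gatB62 x) (fun _ => gatB02 x) (fun _ => gatB12 x) (datB20 x) (datB62 x) (fun _ => datB02 x) (fun _ => datB12 x) hd hx hx' CW.B022L_260
    · exact corW_cert (G1 := gB2q0) (G2 := gB6q2) (Ga := gB1q2) (Gb := gB2q2) (D1 := dB2q0) (D2 := dB6q2) (Da := dB1q2) (Db := dB2q2) cB022L_ok B hρ hen (gatB20 x) (gatB62 x) (fun _ => gatB12 x) (fun _ => gatB22 x) (datB20 x) (datB62 x) (fun _ => datB12 x) (fun _ => datB22 x) hd hx hx' CW.B022L_261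
    · exact corW_cert (G1 := gB2q0) (G2 := gB6q2) (Ga := gB2q2) (Gb := gB3q2) (D1 := dB2q0) (D2 := dB6q2) (Da := dB2q2) (Db := dB3q2) cB022L_ok B hρ hen (gatB20 x) (gatB62 x) (fun _ => gatB22 x) (fun _ => gatB32 x) (datB20 x) (datB62 x) (fun _ => datB22 x) (fun _ => datB32 x) hd hx hx' CW.B022L_262
    · exact corW_cert (G1 := gB2q0) (G2 := gB6q2) (Ga := gB3q2) (Gb := gB4q2) (D1 := dB2q0) (D2 := dB6q2) (Da := dB3q2) (Db := dB4q2) cB022L_ok B hρ hen (gatB20 x) (gatB62 x) (fun _ => gatB32 x) (fun h => absurd h (by decide)) (datB20 x) (datB62 x) (fun _ => datB32 x) (fun h => absurd h (by decide)) hd hx hx' CW.B022L_263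
    · exact absurd h2 (by norm_num)
    · exact absurd h2 (by norm_num)
  · intro ρ a B hρ hd i h1 h2
    fin_cases i
    · exact corT_cert (G1 := gB2q0) (G2 := gB6q2) (Ga := gB0q2) (Gb := gB1q2) cB022L_ok B hρ (gatB20 x) (gatB62 x) (fun _ => gatB02 x) (fun _ => gatB12 x) hd hx hx' CG.B022L_260
    · exact corT_cert (G1 := gB2q0) (G2 := gB6q2) (Ga := gB1q2) (Gb := gB2q2) cB022L_ok B hρ (gatB20 x) (gatB62 x) (fun _ => gatB12 x) (fun _ => gatB22 x) hd hx hx' CG.B022L_261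
    · exact corT_cert (G1 := gB2q0) (G2 := gB6q2) (Ga := gB2q2) (Gb := gB3q2) cB022L_ok B hρ (gatB20 x) (gatB62 x) (fun _ => gatB22 x) (fun _ => gatB32 x) hd hx hx' CG.B022L_262
    · exact corT_cert (G1 := gB2q0) (G2 := gB6q2) (Ga := gB3q2) (Gb := gB4q2) cB022L_ok B hρ (gatB20 x) (gatB62 x) (fun _ => gatB32 x) (fun h => absurd h (by decide)) hd hx hx' CG.B022L_263
    · exact absurd h2 (by norm_num)
    · exact absurd h2 (by norm_num)

theorem altB_B022L_36 {κ x : ℝ} (hκ : κ * h0 = ken x) (hx : ((536870912 : ℕ) : ℝ) / S ≤ x) (hx' : x ≤ (((536870912 : ℕ) : ℝ) + (50465866 : ℕ)) / S) :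
    AltEB 3 κ (eng.v x) (3 / 40) (tnt (h0 * x) (3 / 10)) PP tK tL tC pcB (scP esg pd) [⟨0, 0, 0, 67108864⟩, ⟨1, 1, 0, 67108864⟩, ⟨2, 1, 0, 67108864⟩] 0 2 2 3 6 (sgb true) (sgb true) x := by
  have X : XR 67108864 x := XR.of hx hx' (by norm_num) (by norm_num) (by norm_num) (by norm_num)
  have hen : 0 < eng.v x := en_pos X.x0.le
  refine CornW.altB (C := cB022L) (j := (3 : Fin 7)) (k := (6 : Fin 7)) (Ef := esg) (pd := pd) (o := 3 / 40)
    (cornW_of (C := cB022L) (C0 := c0B) (En := eng) (mo := mog) (j := (3 : Fin 7)) (k := (6 : Fin 7)) (lo := 0) (hi := 3) (W := 67108864) (N0 := 3) cB022L_q (sideB hx hx') gokB (pinU hx hx') dokB X (by norm_num) (by norm_num) (l := (0 : Fin 7)) rfl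
      (gatB30 x) (gatB62 x) (gatB02 x) (datB30 x) (datB62 x) (datB02 x) ?_)
    (cornS_of (C := cB022L) (C0 := c0B) (j := (3 : Fin 7)) (k := (6 : Fin 7)) (lo := 0) (hi := 3) (W := 67108864) (N0 := 3) cB022L_q (sideB hx hx') gokB X (by norm_num) (by norm_num) (l := (0 : Fin 7)) rfl
      (gatB30 x) (gatB62 x) (gatB02 x) ?_)
    (thU (pinU hx hx')) rfl hκ (fun j q y => tC_eq j q y x) (esg_rng X.x0.le (by linarith [X.b, X.p0])).1 (mo_v x) le_rfl le_rfl
  · intro ρ a B hρ hd i h1 h2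
    fin_cases i
    · exact corW_cert (G1 := gB3q0) (G2 := gB6q2) (Ga := gB0q2) (Gb := gB1q2) (D1 := dB3q0) (D2 := dB6q2) (Da := dB0q2) (Db := dB1q2) cB022L_ok B hρ hen (gatB30 x) (gatB62 x) (fun _ => gatB02 x) (fun _ => gatB12 x) (datB30 x) (datB62 x) (fun _ => datB02 x) (fun _ => datB12 x) hd hx hx' CW.B022L_360
    · exact corW_cert (G1 := gB3q0) (G2 := gB6q2) (Ga := gB1q2) (Gb := gB2q2) (D1 := dB3q0) (D2 := dB6q2) (Da := dB1q2) (Db := dB2q2) cB022L_ok B hρ hen (gatB30 x) (gatB62 x) (fun _ => gatB12 x) (fun _ => gatB22 x) (datB30 x) (datB62 x) (fun _ => datB12 x) (fun _ => datB22 x) hd hx hx' CW.B022L_361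
    · exact corW_cert (G1 := gB3q0) (G2 := gB6q2) (Ga := gB2q2) (Gb := gB3q2) (D1 := dB3q0) (D2 := dB6q2) (Da := dB2q2) (Db := dB3q2) cB022L_ok B hρ hen (gatB30 x) (gatB62 x) (fun _ => gatB22 x) (fun _ => gatB32 x) (datB30 x) (datB62 x) (fun _ => datB22 x) (fun _ => datB32 x) hd hx hx' CW.B022L_362
    · exact corW_cert (G1 := gB3q0) (G2 := gB6q2) (Ga := gB3q2) (Gb := gB4q2) (D1 := dB3q0) (D2 := dB6q2) (Da := dB3q2) (Db := dB4q2) cB022L_ok B hρ hen (gatB30 x) (gatB62 x) (fun _ => gatB32 x) (fun h => absurd h (by decide)) (datB30 x) (datB62 x) (fun _ => datB32 x) (fun h => absurd h (by decide)) hd hx hx' CW.B022L_363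
    · exact absurd h2 (by norm_num)
    · exact absurd h2 (by norm_num)
  · intro ρ a B hρ hd i h1 h2
    fin_cases i
    · exact corT_cert (G1 := gB3q0) (G2 := gB6q2) (Ga := gB0q2) (Gb := gB1q2) cB022L_ok B hρ (gatB30 x) (gatB62 x) (fun _ => gatB02 x) (fun _ => gatB12 x) hd hx hx' CG.B022L_360
    · exact corT_cert (G1 := gB3q0) (G2 := gB6q2) (Ga := gB1q2) (Gb := gB2q2) cB022L_ok B hρ (gatB30 x) (gatB62 x) (fun _ => gatB12 x) (fun _ => gatB22 x) hd hx hx' CG.B022L_361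
    · exact corT_cert (G1 := gB3q0) (G2 := gB6q2) (Ga := gB2q2) (Gb := gB3q2) cB022L_ok B hρ (gatB30 x) (gatB62 x) (fun _ => gatB22 x) (fun _ => gatB32 x) hd hx hx' CG.B022L_362
    · exact corT_cert (G1 := gB3q0) (G2 := gB6q2) (Ga := gB3q2) (Gb := gB4q2) cB022L_ok B hρ (gatB30 x) (gatB62 x) (fun _ => gatB32 x) (fun h => absurd h (by decide)) hd hx hx' CG.B022L_363
    · exact absurd h2 (by norm_num)
    · exact absurd h2 (by norm_num)

theorem altB_B022R_00 {κ x : ℝ} (hκ : κ * h0 = ken x) (hx : ((536870912 : ℕ) : ℝ) / S ≤ x) (hx' : x ≤ (((536870912 : ℕ) : ℝ) + (50465866 : ℕ)) / S) :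
    AltEB 3 κ (eng.v x) (3 / 40) (tnt (h0 * x) (3 / 10)) PP tK tL tC pcB (scP esg pd) [⟨0, 0, 0, 67108864⟩, ⟨1, 1, 0, 67108864⟩, ⟨2, 1, 0, 67108864⟩] 0 2 2 0 0 (sgb true) (sgb false) x := by
  have X : XR 67108864 x := XR.of hx hx' (by norm_num) (by norm_num) (by norm_num) (by norm_num)
  have hen : 0 < eng.v x := en_pos X.x0.le
  refine CornW.altB (C := cB022R) (j := (0 : Fin 7)) (k := (0 : Fin 7)) (Ef := esg) (pd := pd) (o := 3 / 40)
    (cornW_of (C := cB022R) (C0 := c0B) (En := eng) (mo := mog) (j := (0 : Fin 7)) (k := (0 : Fin 7)) (lo := 6) (hi := 6) (W := 67108864) (N0 := 3) cB022R_q (sideB hx hx') gokB (pinU hx hx') dokB X (by norm_num) (by norm_num) (l := (6 : Fin 7)) rfl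
      (gatB00 x) (gatB02 x) (gatB62 x) (datB00 x) (datB02 x) (datB62 x) ?_)
    (cornS_of (C := cB022R) (C0 := c0B) (j := (0 : Fin 7)) (k := (0 : Fin 7)) (lo := 6) (hi := 6) (W := 67108864) (N0 := 3) cB022R_q (sideB hx hx') gokB X (by norm_num) (by norm_num) (l := (6 : Fin 7)) rfl
      (gatB00 x) (gatB02 x) (gatB62 x) ?_)
    (thU (pinU hx hx')) rfl hκ (fun j q y => tC_eq j q y x) (esg_rng X.x0.le (by linarith [X.b, X.p0])).1 (mo_v x) le_rfl le_rfl
  · intro ρ a B hρ hd i h1 h2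
    fin_cases i
    · exact absurd h1 (by norm_num)
    · exact absurd h1 (by norm_num)
    · exact absurd h1 (by norm_num)
    · exact absurd h1 (by norm_num)
    · exact absurd h1 (by norm_num)
    · exact corW_cert (G1 := gB0q0) (G2 := gB0q2) (Ga := gB5q2) (Gb := gB6q2) (D1 := dB0q0) (D2 := dB0q2) (Da := dB5q2) (Db := dB6q2) cB022R_ok B hρ hen (gatB00 x) (gatB02 x) (fun h => absurd h (by decide)) (fun _ => gatB62 x) (datB00 x) (datB02 x) (fun h => absurd h (by decide)) (fun _ => datB62 x) hd hx hx' CW.B022R_005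
  · intro ρ a B hρ hd i h1 h2
    fin_cases i
    · exact absurd h1 (by norm_num)
    · exact absurd h1 (by norm_num)
    · exact absurd h1 (by norm_num)
    · exact absurd h1 (by norm_num)
    · exact absurd h1 (by norm_num)
    · exact corT_cert (G1 := gB0q0) (G2 := gB0q2) (Ga := gB5q2) (Gb := gB6q2) cB022R_ok B hρ (gatB00 x) (gatB02 x) (fun h => absurd h (by decide)) (fun _ => gatB62 x) hd hx hx' CG.B022R_005

theorem altB_B022R_01 {κ x : ℝ} (hκ : κ * h0 = ken x) (hx : ((536870912 : ℕ) : ℝ) / S ≤ x) (hx' : x ≤ (((536870912 : ℕ) : ℝ) + (50465866 : ℕ)) / S) :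
    AltEB 3 κ (eng.v x) (3 / 40) (tnt (h0 * x) (3 / 10)) PP tK tL tC pcB (scP esg pd) [⟨0, 0, 0, 67108864⟩, ⟨1, 1, 0, 67108864⟩, ⟨2, 1, 0, 67108864⟩] 0 2 2 0 1 (sgb true) (sgb false) x := by
  have X : XR 67108864 x := XR.of hx hx' (by norm_num) (by norm_num) (by norm_num) (by norm_num)
  have hen : 0 < eng.v x := en_pos X.x0.le
  refine CornW.altB (C := cB022R) (j := (0 : Fin 7)) (k := (1 : Fin 7)) (Ef := esg) (pd := pd) (o := 3 / 40)
    (cornW_of (C := cB022R) (C0 := c0B) (En := eng) (mo := mog) (j := (0 : Fin 7)) (k := (1 : Fin 7)) (lo := 6) (hi := 6) (W := 67108864) (N0 := 3) cB022R_q (sideB hx hx') gokB (pinU hx hx') dokB X (by norm_num) (by norm_num) (l := (6 : Fin 7)) rfl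
      (gatB00 x) (gatB12 x) (gatB62 x) (datB00 x) (datB12 x) (datB62 x) ?_)
    (cornS_of (C := cB022R) (C0 := c0B) (j := (0 : Fin 7)) (k := (1 : Fin 7)) (lo := 6) (hi := 6) (W := 67108864) (N0 := 3) cB022R_q (sideB hx hx') gokB X (by norm_num) (by norm_num) (l := (6 : Fin 7)) rfl
      (gatB00 x) (gatB12 x) (gatB62 x) ?_)
    (thU (pinU hx hx')) rfl hκ (fun j q y => tC_eq j q y x) (esg_rng X.x0.le (by linarith [X.b, X.p0])).1 (mo_v x) le_rfl le_rfl
  · intro ρ a B hρ hd i h1 h2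
    fin_cases i
    · exact absurd h1 (by norm_num)
    · exact absurd h1 (by norm_num)
    · exact absurd h1 (by norm_num)
    · exact absurd h1 (by norm_num)
    · exact absurd h1 (by norm_num)
    · exact corW_cert (G1 := gB0q0) (G2 := gB1q2) (Ga := gB5q2) (Gb := gB6q2) (D1 := dB0q0) (D2 := dB1q2) (Da := dB5q2) (Db := dB6q2) cB022R_ok B hρ hen (gatB00 x) (gatB12 x) (fun h => absurd h (by decide)) (fun _ => gatB62 x) (datB00 x) (datB12 x) (fun h => absurd h (by decide)) (fun _ => datB62 x) hd hx hx' CW.B022R_015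
  · intro ρ a B hρ hd i h1 h2
    fin_cases i
    · exact absurd h1 (by norm_num)
    · exact absurd h1 (by norm_num)
    · exact absurd h1 (by norm_num)
    · exact absurd h1 (by norm_num)
    · exact absurd h1 (by norm_num)
    · exact corT_cert (G1 := gB0q0) (G2 := gB1q2) (Ga := gB5q2) (Gb := gB6q2) cB022R_ok B hρ (gatB00 x) (gatB12 x) (fun h => absurd h (by decide)) (fun _ => gatB62 x) hd hx hx' CG.B022R_015

theorem altB_B022R_02 {κ x : ℝ} (hκ : κ * h0 = ken x) (hx : ((536870912 : ℕ) : ℝ) / S ≤ x) (hx' : x ≤ (((536870912 : ℕ) : ℝ) + (50465866 : ℕ)) / S) :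
    AltEB 3 κ (eng.v x) (3 / 40) (tnt (h0 * x) (3 / 10)) PP tK tL tC pcB (scP esg pd) [⟨0, 0, 0, 67108864⟩, ⟨1, 1, 0, 67108864⟩, ⟨2, 1, 0, 67108864⟩] 0 2 2 0 2 (sgb true) (sgb false) x := by
  have X : XR 67108864 x := XR.of hx hx' (by norm_num) (by norm_num) (by norm_num) (by norm_num)
  have hen : 0 < eng.v x := en_pos X.x0.le
  refine CornW.altB (C := cB022R) (j := (0 : Fin 7)) (k := (2 : Fin 7)) (Ef := esg) (pd := pd) (o := 3 / 40)
    (cornW_of (C := cB022R) (C0 := c0B) (En := eng) (mo := mog) (j := (0 : Fin 7)) (k := (2 : Fin 7)) (lo := 6) (hi := 6) (W := 67108864) (N0 := 3) cB022R_q (sideB hx hx') gokB (pinU hx hx') dokB X (by norm_num) (by norm_num) (l := (6 : Fin 7)) rfl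
      (gatB00 x) (gatB22 x) (gatB62 x) (datB00 x) (datB22 x) (datB62 x) ?_)
    (cornS_of (C := cB022R) (C0 := c0B) (j := (0 : Fin 7)) (k := (2 : Fin 7)) (lo := 6) (hi := 6) (W := 67108864) (N0 := 3) cB022R_q (sideB hx hx') gokB X (by norm_num) (by norm_num) (l := (6 : Fin 7)) rfl
      (gatB00 x) (gatB22 x) (gatB62 x) ?_)
    (thU (pinU hx hx')) rfl hκ (fun j q y => tC_eq j q y x) (esg_rng X.x0.le (by linarith [X.b, X.p0])).1 (mo_v x) le_rfl le_rfl
  · intro ρ a B hρ hd i h1 h2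
    fin_cases i
    · exact absurd h1 (by norm_num)
    · exact absurd h1 (by norm_num)
    · exact absurd h1 (by norm_num)
    · exact absurd h1 (by norm_num)
    · exact absurd h1 (by norm_num)
    · exact corW_cert (G1 := gB0q0) (G2 := gB2q2) (Ga := gB5q2) (Gb := gB6q2) (D1 := dB0q0) (D2 := dB2q2) (Da := dB5q2) (Db := dB6q2) cB022R_ok B hρ hen (gatB00 x) (gatB22 x) (fun h => absurd h (by decide)) (fun _ => gatB62 x) (datB00 x) (datB22 x) (fun h => absurd h (by decide)) (fun _ => datB62 x) hd hx hx' CW.B022R_025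
  · intro ρ a B hρ hd i h1 h2
    fin_cases i
    · exact absurd h1 (by norm_num)
    · exact absurd h1 (by norm_num)
    · exact absurd h1 (by norm_num)
    · exact absurd h1 (by norm_num)
    · exact absurd h1 (by norm_num)
    · exact corT_cert (G1 := gB0q0) (G2 := gB2q2) (Ga := gB5q2) (Gb := gB6q2) cB022R_ok B hρ (gatB00 x) (gatB22 x) (fun h => absurd h (by decide)) (fun _ => gatB62 x) hd hx hx' CG.B022R_025

theorem altB_B022R_03 {κ x : ℝ} (hκ : κ * h0 = ken x) (hx : ((536870912 : ℕ) : ℝ) / S ≤ x) (hx' : x ≤ (((536870912 : ℕ) : ℝ) + (50465866 : ℕ)) / S) :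
    AltEB 3 κ (eng.v x) (3 / 40) (tnt (h0 * x) (3 / 10)) PP tK tL tC pcB (scP esg pd) [⟨0, 0, 0, 67108864⟩, ⟨1, 1, 0, 67108864⟩, ⟨2, 1, 0, 67108864⟩] 0 2 2 0 3 (sgb true) (sgb false) x := by
  have X : XR 67108864 x := XR.of hx hx' (by norm_num) (by norm_num) (by norm_num) (by norm_num)
  have hen : 0 < eng.v x := en_pos X.x0.le
  refine CornW.altB (C := cB022R) (j := (0 : Fin 7)) (k := (3 : Fin 7)) (Ef := esg) (pd := pd) (o := 3 / 40)
    (cornW_of (C := cB022R) (C0 := c0B) (En := eng) (mo := mog) (j := (0 : Fin 7)) (k := (3 : Fin 7)) (lo := 6) (hi := 6) (W := 67108864) (N0 := 3) cB022R_q (sideB hx hx') gokB (pinU hx hx') dokB X (by norm_num) (by norm_num) (l := (6 : Fin 7)) rfl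
      (gatB00 x) (gatB32 x) (gatB62 x) (datB00 x) (datB32 x) (datB62 x) ?_)
    (cornS_of (C := cB022R) (C0 := c0B) (j := (0 : Fin 7)) (k := (3 : Fin 7)) (lo := 6) (hi := 6) (W := 67108864) (N0 := 3) cB022R_q (sideB hx hx') gokB X (by norm_num) (by norm_num) (l := (6 : Fin 7)) rfl
      (gatB00 x) (gatB32 x) (gatB62 x) ?_)
    (thU (pinU hx hx')) rfl hκ (fun j q y => tC_eq j q y x) (esg_rng X.x0.le (by linarith [X.b, X.p0])).1 (mo_v x) le_rfl le_rfl
  · intro ρ a B hρ hd i h1 h2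
    fin_cases i
    · exact absurd h1 (by norm_num)
    · exact absurd h1 (by norm_num)
    · exact absurd h1 (by norm_num)
    · exact absurd h1 (by norm_num)
    · exact absurd h1 (by norm_num)
    · exact corW_cert (G1 := gB0q0) (G2 := gB3q2) (Ga := gB5q2) (Gb := gB6q2) (D1 := dB0q0) (D2 := dB3q2) (Da := dB5q2) (Db := dB6q2) cB022R_ok B hρ hen (gatB00 x) (gatB32 x) (fun h => absurd h (by decide)) (fun _ => gatB62 x) (datB00 x) (datB32 x) (fun h => absurd h (by decide)) (fun _ => datB62 x) hd hx hx' CW.B022R_035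
  · intro ρ a B hρ hd i h1 h2
    fin_cases i
    · exact absurd h1 (by norm_num)
    · exact absurd h1 (by norm_num)
    · exact absurd h1 (by norm_num)
    · exact absurd h1 (by norm_num)
    · exact absurd h1 (by norm_num)
    · exact corT_cert (G1 := gB0q0) (G2 := gB3q2) (Ga := gB5q2) (Gb := gB6q2) cB022R_ok B hρ (gatB00 x) (gatB32 x) (fun h => absurd h (by decide)) (fun _ => gatB62 x) hd hx hx' CG.B022R_035

theorem altB_B022R_10 {κ x : ℝ} (hκ : κ * h0 = ken x) (hx : ((536870912 : ℕ) : ℝ) / S ≤ x) (hx' : x ≤ (((536870912 : ℕ) : ℝ) + (50465866 : ℕ)) / S) :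
    AltEB 3 κ (eng.v x) (3 / 40) (tnt (h0 * x) (3 / 10)) PP tK tL tC pcB (scP esg pd) [⟨0, 0, 0, 67108864⟩, ⟨1, 1, 0, 67108864⟩, ⟨2, 1, 0, 67108864⟩] 0 2 2 1 0 (sgb true) (sgb false) x := by
  have X : XR 67108864 x := XR.of hx hx' (by norm_num) (by norm_num) (by norm_num) (by norm_num)
  have hen : 0 < eng.v x := en_pos X.x0.le
  refine CornW.altB (C := cB022R) (j := (1 : Fin 7)) (k := (0 : Fin 7)) (Ef := esg) (pd := pd) (o := 3 / 40)
    (cornW_of (C := cB022R) (C0 := c0B) (En := eng) (mo := mog) (j := (1 : Fin 7)) (k := (0 : Fin 7)) (lo := 6) (hi := 6) (W := 67108864) (N0 := 3) cB022R_q (sideB hx hx') gokB (pinU hx hx') dokB X (by norm_num) (by norm_num) (l := (6 : Fin 7)) rfl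
      (gatB10 x) (gatB02 x) (gatB62 x) (datB10 x) (datB02 x) (datB62 x) ?_)
    (cornS_of (C := cB022R) (C0 := c0B) (j := (1 : Fin 7)) (k := (0 : Fin 7)) (lo := 6) (hi := 6) (W := 67108864) (N0 := 3) cB022R_q (sideB hx hx') gokB X (by norm_num) (by norm_num) (l := (6 : Fin 7)) rfl
      (gatB10 x) (gatB02 x) (gatB62 x) ?_)
    (thU (pinU hx hx')) rfl hκ (fun j q y => tC_eq j q y x) (esg_rng X.x0.le (by linarith [X.b, X.p0])).1 (mo_v x) le_rfl le_rfl
  · intro ρ a B hρ hd i h1 h2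
    fin_cases i
    · exact absurd h1 (by norm_num)
    · exact absurd h1 (by norm_num)
    · exact absurd h1 (by norm_num)
    · exact absurd h1 (by norm_num)
    · exact absurd h1 (by norm_num)
    · exact corW_cert (G1 := gB1q0) (G2 := gB0q2) (Ga := gB5q2) (Gb := gB6q2) (D1 := dB1q0) (D2 := dB0q2) (Da := dB5q2) (Db := dB6q2) cB022R_ok B hρ hen (gatB10 x) (gatB02 x) (fun h => absurd h (by decide)) (fun _ => gatB62 x) (datB10 x) (datB02 x) (fun h => absurd h (by decide)) (fun _ => datB62 x) hd hx hx' CW.B022R_105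
  · intro ρ a B hρ hd i h1 h2
    fin_cases i
    · exact absurd h1 (by norm_num)
    · exact absurd h1 (by norm_num)
    · exact absurd h1 (by norm_num)
    · exact absurd h1 (by norm_num)
    · exact absurd h1 (by norm_num)
    · exact corT_cert (G1 := gB1q0) (G2 := gB0q2) (Ga := gB5q2) (Gb := gB6q2) cB022R_ok B hρ (gatB10 x) (gatB02 x) (fun h => absurd h (by decide)) (fun _ => gatB62 x) hd hx hx' CG.B022R_105

theorem altB_B022R_11 {κ x : ℝ} (hκ : κ * h0 = ken x) (hx : ((536870912 : ℕ) : ℝ) / S ≤ x) (hx' : x ≤ (((536870912 : ℕ) : ℝ) + (50465866 : ℕ)) / S) :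
    AltEB 3 κ (eng.v x) (3 / 40) (tnt (h0 * x) (3 / 10)) PP tK tL tC pcB (scP esg pd) [⟨0, 0, 0, 67108864⟩, ⟨1, 1, 0, 67108864⟩, ⟨2, 1, 0, 67108864⟩] 0 2 2 1 1 (sgb true) (sgb false) x := by
  have X : XR 67108864 x := XR.of hx hx' (by norm_num) (by norm_num) (by norm_num) (by norm_num)
  have hen : 0 < eng.v x := en_pos X.x0.le
  refine CornW.altB (C := cB022R) (j := (1 : Fin 7)) (k := (1 : Fin 7)) (Ef := esg) (pd := pd) (o := 3 / 40)
    (cornW_of (C := cB022R) (C0 := c0B) (En := eng) (mo := mog) (j := (1 : Fin 7)) (k := (1 : Fin 7)) (lo := 6) (hi := 6) (W := 67108864) (N0 := 3) cB022R_q (sideB hx hx') gokB (pinU hx hx') dokB X (by norm_num) (by norm_num) (l := (6 : Fin 7)) rfl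
      (gatB10 x) (gatB12 x) (gatB62 x) (datB10 x) (datB12 x) (datB62 x) ?_)
    (cornS_of (C := cB022R) (C0 := c0B) (j := (1 : Fin 7)) (k := (1 : Fin 7)) (lo := 6) (hi := 6) (W := 67108864) (N0 := 3) cB022R_q (sideB hx hx') gokB X (by norm_num) (by norm_num) (l := (6 : Fin 7)) rfl
      (gatB10 x) (gatB12 x) (gatB62 x) ?_)
    (thU (pinU hx hx')) rfl hκ (fun j q y => tC_eq j q y x) (esg_rng X.x0.le (by linarith [X.b, X.p0])).1 (mo_v x) le_rfl le_rfl
  · intro ρ a B hρ hd i h1 h2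
    fin_cases i
    · exact absurd h1 (by norm_num)
    · exact absurd h1 (by norm_num)
    · exact absurd h1 (by norm_num)
    · exact absurd h1 (by norm_num)
    · exact absurd h1 (by norm_num)
    · exact corW_cert (G1 := gB1q0) (G2 := gB1q2) (Ga := gB5q2) (Gb := gB6q2) (D1 := dB1q0) (D2 := dB1q2) (Da := dB5q2) (Db := dB6q2) cB022R_ok B hρ hen (gatB10 x) (gatB12 x) (fun h => absurd h (by decide)) (fun _ => gatB62 x) (datB10 x) (datB12 x) (fun h => absurd h (by decide)) (fun _ => datB62 x) hd hx hx' CW.B022R_115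
  · intro ρ a B hρ hd i h1 h2
    fin_cases i
    · exact absurd h1 (by norm_num)
    · exact absurd h1 (by norm_num)
    · exact absurd h1 (by norm_num)
    · exact absurd h1 (by norm_num)
    · exact absurd h1 (by norm_num)
    · exact corT_cert (G1 := gB1q0) (G2 := gB1q2) (Ga := gB5q2) (Gb := gB6q2) cB022R_ok B hρ (gatB10 x) (gatB12 x) (fun h => absurd h (by decide)) (fun _ => gatB62 x) hd hx hx' CG.B022R_115

theorem altB_B022R_12 {κ x : ℝ} (hκ : κ * h0 = ken x) (hx : ((536870912 : ℕ) : ℝ) / S ≤ x) (hx' : x ≤ (((536870912 : ℕ) : ℝ) + (50465866 : ℕ)) / S) :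
    AltEB 3 κ (eng.v x) (3 / 40) (tnt (h0 * x) (3 / 10)) PP tK tL tC pcB (scP esg pd) [⟨0, 0, 0, 67108864⟩, ⟨1, 1, 0, 67108864⟩, ⟨2, 1, 0, 67108864⟩] 0 2 2 1 2 (sgb true) (sgb false) x := by
  have X : XR 67108864 x := XR.of hx hx' (by norm_num) (by norm_num) (by norm_num) (by norm_num)
  have hen : 0 < eng.v x := en_pos X.x0.le
  refine CornW.altB (C := cB022R) (j := (1 : Fin 7)) (k := (2 : Fin 7)) (Ef := esg) (pd := pd) (o := 3 / 40)
    (cornW_of (C := cB022R) (C0 := c0B) (En := eng) (mo := mog) (j := (1 : Fin 7)) (k := (2 : Fin 7)) (lo := 6) (hi := 6) (W := 67108864) (N0 := 3) cB022R_q (sideB hx hx') gokB (pinU hx hx') dokB X (by norm_num) (by norm_num) (l := (6 : Fin 7)) rfl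
      (gatB10 x) (gatB22 x) (gatB62 x) (datB10 x) (datB22 x) (datB62 x) ?_)
    (cornS_of (C := cB022R) (C0 := c0B) (j := (1 : Fin 7)) (k := (2 : Fin 7)) (lo := 6) (hi := 6) (W := 67108864) (N0 := 3) cB022R_q (sideB hx hx') gokB X (by norm_num) (by norm_num) (l := (6 : Fin 7)) rfl
      (gatB10 x) (gatB22 x) (gatB62 x) ?_)
    (thU (pinU hx hx')) rfl hκ (fun j q y => tC_eq j q y x) (esg_rng X.x0.le (by linarith [X.b, X.p0])).1 (mo_v x) le_rfl le_rfl
  · intro ρ a B hρ hd i h1 h2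
    fin_cases i
    · exact absurd h1 (by norm_num)
    · exact absurd h1 (by norm_num)
    · exact absurd h1 (by norm_num)
    · exact absurd h1 (by norm_num)
    · exact absurd h1 (by norm_num)
    · exact corW_cert (G1 := gB1q0) (G2 := gB2q2) (Ga := gB5q2) (Gb := gB6q2) (D1 := dB1q0) (D2 := dB2q2) (Da := dB5q2) (Db := dB6q2) cB022R_ok B hρ hen (gatB10 x) (gatB22 x) (fun h => absurd h (by decide)) (fun _ => gatB62 x) (datB10 x) (datB22 x) (fun h => absurd h (by decide)) (fun _ => datB62 x) hd hx hx' CW.B022R_125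
  · intro ρ a B hρ hd i h1 h2
    fin_cases i
    · exact absurd h1 (by norm_num)
    · exact absurd h1 (by norm_num)
    · exact absurd h1 (by norm_num)
    · exact absurd h1 (by norm_num)
    · exact absurd h1 (by norm_num)
    · exact corT_cert (G1 := gB1q0) (G2 := gB2q2) (Ga := gB5q2) (Gb := gB6q2) cB022R_ok B hρ (gatB10 x) (gatB22 x) (fun h => absurd h (by decide)) (fun _ => gatB62 x) hd hx hx' CG.B022R_125

theorem altB_B022R_13 {κ x : ℝ} (hκ : κ * h0 = ken x) (hx : ((536870912 : ℕ) : ℝ) / S ≤ x) (hx' : x ≤ (((536870912 : ℕ) : ℝ) + (50465866 : ℕ)) / S) :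
    AltEB 3 κ (eng.v x) (3 / 40) (tnt (h0 * x) (3 / 10)) PP tK tL tC pcB (scP esg pd) [⟨0, 0, 0, 67108864⟩, ⟨1, 1, 0, 67108864⟩, ⟨2, 1, 0, 67108864⟩] 0 2 2 1 3 (sgb true) (sgb false) x := by
  have X : XR 67108864 x := XR.of hx hx' (by norm_num) (by norm_num) (by norm_num) (by norm_num)
  have hen : 0 < eng.v x := en_pos X.x0.le
  refine CornW.altB (C := cB022R) (j := (1 : Fin 7)) (k := (3 : Fin 7)) (Ef := esg) (pd := pd) (o := 3 / 40)
    (cornW_of (C := cB022R) (C0 := c0B) (En := eng) (mo := mog) (j := (1 : Fin 7)) (k := (3 : Fin 7)) (lo := 6) (hi := 6) (W := 67108864) (N0 := 3) cB022R_q (sideB hx hx') gokB (pinU hx hx') dokB X (by norm_num) (by norm_num) (l := (6 : Fin 7)) rfl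
      (gatB10 x) (gatB32 x) (gatB62 x) (datB10 x) (datB32 x) (datB62 x) ?_)
    (cornS_of (C := cB022R) (C0 := c0B) (j := (1 : Fin 7)) (k := (3 : Fin 7)) (lo := 6) (hi := 6) (W := 67108864) (N0 := 3) cB022R_q (sideB hx hx') gokB X (by norm_num) (by norm_num) (l := (6 : Fin 7)) rfl
      (gatB10 x) (gatB32 x) (gatB62 x) ?_)
    (thU (pinU hx hx')) rfl hκ (fun j q y => tC_eq j q y x) (esg_rng X.x0.le (by linarith [X.b, X.p0])).1 (mo_v x) le_rfl le_rfl
  · intro ρ a B hρ hd i h1 h2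
    fin_cases i
    · exact absurd h1 (by norm_num)
    · exact absurd h1 (by norm_num)
    · exact absurd h1 (by norm_num)
    · exact absurd h1 (by norm_num)
    · exact absurd h1 (by norm_num)
    · exact corW_cert (G1 := gB1q0) (G2 := gB3q2) (Ga := gB5q2) (Gb := gB6q2) (D1 := dB1q0) (D2 := dB3q2) (Da := dB5q2) (Db := dB6q2) cB022R_ok B hρ hen (gatB10 x) (gatB32 x) (fun h => absurd h (by decide)) (fun _ => gatB62 x) (datB10 x) (datB32 x) (fun h => absurd h (by decide)) (fun _ => datB62 x) hd hx hx' CW.B022R_135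
  · intro ρ a B hρ hd i h1 h2
    fin_cases i
    · exact absurd h1 (by norm_num)
    · exact absurd h1 (by norm_num)
    · exact absurd h1 (by norm_num)
    · exact absurd h1 (by norm_num)
    · exact absurd h1 (by norm_num)
    · exact corT_cert (G1 := gB1q0) (G2 := gB3q2) (Ga := gB5q2) (Gb := gB6q2) cB022R_ok B hρ (gatB10 x) (gatB32 x) (fun h => absurd h (by decide)) (fun _ => gatB62 x) hd hx hx' CG.B022R_135

theorem altB_B022R_20 {κ x : ℝ} (hκ : κ * h0 = ken x) (hx : ((536870912 : ℕ) : ℝ) / S ≤ x) (hx' : x ≤ (((536870912 : ℕ) : ℝ) + (50465866 : ℕ)) / S) :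
    AltEB 3 κ (eng.v x) (3 / 40) (tnt (h0 * x) (3 / 10)) PP tK tL tC pcB (scP esg pd) [⟨0, 0, 0, 67108864⟩, ⟨1, 1, 0, 67108864⟩, ⟨2, 1, 0, 67108864⟩] 0 2 2 2 0 (sgb true) (sgb false) x := by
  have X : XR 67108864 x := XR.of hx hx' (by norm_num) (by norm_num) (by norm_num) (by norm_num)
  have hen : 0 < eng.v x := en_pos X.x0.le
  refine CornW.altB (C := cB022R) (j := (2 : Fin 7)) (k := (0 : Fin 7)) (Ef := esg) (pd := pd) (o := 3 / 40)
    (cornW_of (C := cB022R) (C0 := c0B) (En := eng) (mo := mog) (j := (2 : Fin 7)) (k := (0 : Fin 7)) (lo := 6) (hi := 6) (W := 67108864) (N0 := 3) cB022R_q (sideB hx hx') gokB (pinU hx hx') dokB X (by norm_num) (by norm_num) (l := (6 : Fin 7)) rfl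
      (gatB20 x) (gatB02 x) (gatB62 x) (datB20 x) (datB02 x) (datB62 x) ?_)
    (cornS_of (C := cB022R) (C0 := c0B) (j := (2 : Fin 7)) (k := (0 : Fin 7)) (lo := 6) (hi := 6) (W := 67108864) (N0 := 3) cB022R_q (sideB hx hx') gokB X (by norm_num) (by norm_num) (l := (6 : Fin 7)) rfl
      (gatB20 x) (gatB02 x) (gatB62 x) ?_)
    (thU (pinU hx hx')) rfl hκ (fun j q y => tC_eq j q y x) (esg_rng X.x0.le (by linarith [X.b, X.p0])).1 (mo_v x) le_rfl le_rfl
  · intro ρ a B hρ hd i h1 h2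
    fin_cases i
    · exact absurd h1 (by norm_num)
    · exact absurd h1 (by norm_num)
    · exact absurd h1 (by norm_num)
    · exact absurd h1 (by norm_num)
    · exact absurd h1 (by norm_num)
    · exact corW_cert (G1 := gB2q0) (G2 := gB0q2) (Ga := gB5q2) (Gb := gB6q2) (D1 := dB2q0) (D2 := dB0q2) (Da := dB5q2) (Db := dB6q2) cB022R_ok B hρ hen (gatB20 x) (gatB02 x) (fun h => absurd h (by decide)) (fun _ => gatB62 x) (datB20 x) (datB02 x) (fun h => absurd h (by decide)) (fun _ => datB62 x) hd hx hx' CW.B022R_205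
  · intro ρ a B hρ hd i h1 h2
    fin_cases i
    · exact absurd h1 (by norm_num)
    · exact absurd h1 (by norm_num)
    · exact absurd h1 (by norm_num)
    · exact absurd h1 (by norm_num)
    · exact absurd h1 (by norm_num)
    · exact corT_cert (G1 := gB2q0) (G2 := gB0q2) (Ga := gB5q2) (Gb := gB6q2) cB022R_ok B hρ (gatB20 x) (gatB02 x) (fun h => absurd h (by decide)) (fun _ => gatB62 x) hd hx hx' CG.B022R_205

theorem altB_B022R_21 {κ x : ℝ} (hκ : κ * h0 = ken x) (hx : ((536870912 : ℕ) : ℝ) / S ≤ x) (hx' : x ≤ (((536870912 : ℕ) : ℝ) + (50465866 : ℕ)) / S) :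
    AltEB 3 κ (eng.v x) (3 / 40) (tnt (h0 * x) (3 / 10)) PP tK tL tC pcB (scP esg pd) [⟨0, 0, 0, 67108864⟩, ⟨1, 1, 0, 67108864⟩, ⟨2, 1, 0, 67108864⟩] 0 2 2 2 1 (sgb true) (sgb false) x := by
  have X : XR 67108864 x := XR.of hx hx' (by norm_num) (by norm_num) (by norm_num) (by norm_num)
  have hen : 0 < eng.v x := en_pos X.x0.le
  refine CornW.altB (C := cB022R) (j := (2 : Fin 7)) (k := (1 : Fin 7)) (Ef := esg) (pd := pd) (o := 3 / 40)
    (cornW_of (C := cB022R) (C0 := c0B) (En := eng) (mo := mog) (j := (2 : Fin 7)) (k := (1 : Fin 7)) (lo := 6) (hi := 6) (W := 67108864) (N0 := 3) cB022R_q (sideB hx hx') gokB (pinU hx hx') dokB X (by norm_num) (by norm_num) (l := (6 : Fin 7)) rfl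
      (gatB20 x) (gatB12 x) (gatB62 x) (datB20 x) (datB12 x) (datB62 x) ?_)
    (cornS_of (C := cB022R) (C0 := c0B) (j := (2 : Fin 7)) (k := (1 : Fin 7)) (lo := 6) (hi := 6) (W := 67108864) (N0 := 3) cB022R_q (sideB hx hx') gokB X (by norm_num) (by norm_num) (l := (6 : Fin 7)) rfl
      (gatB20 x) (gatB12 x) (gatB62 x) ?_)
    (thU (pinU hx hx')) rfl hκ (fun j q y => tC_eq j q y x) (esg_rng X.x0.le (by linarith [X.b, X.p0])).1 (mo_v x) le_rfl le_rfl
  · intro ρ a B hρ hd i h1 h2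
    fin_cases i
    · exact absurd h1 (by norm_num)
    · exact absurd h1 (by norm_num)
    · exact absurd h1 (by norm_num)
    · exact absurd h1 (by norm_num)
    · exact absurd h1 (by norm_num)
    · exact corW_cert (G1 := gB2q0) (G2 := gB1q2) (Ga := gB5q2) (Gb := gB6q2) (D1 := dB2q0) (D2 := dB1q2) (Da := dB5q2) (Db := dB6q2) cB022R_ok B hρ hen (gatB20 x) (gatB12 x) (fun h => absurd h (by decide)) (fun _ => gatB62 x) (datB20 x) (datB12 x) (fun h => absurd h (by decide)) (fun _ => datB62 x) hd hx hx' CW.B022R_215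
  · intro ρ a B hρ hd i h1 h2
    fin_cases i
    · exact absurd h1 (by norm_num)
    · exact absurd h1 (by norm_num)
    · exact absurd h1 (by norm_num)
    · exact absurd h1 (by norm_num)
    · exact absurd h1 (by norm_num)
    · exact corT_cert (G1 := gB2q0) (G2 := gB1q2) (Ga := gB5q2) (Gb := gB6q2) cB022R_ok B hρ (gatB20 x) (gatB12 x) (fun h => absurd h (by decide)) (fun _ => gatB62 x) hd hx hx' CG.B022R_215

theorem altB_B022R_22 {κ x : ℝ} (hκ : κ * h0 = ken x) (hx : ((536870912 : ℕ) : ℝ) / S ≤ x) (hx' : x ≤ (((536870912 : ℕ) : ℝ) + (50465866 : ℕ)) / S) :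
    AltEB 3 κ (eng.v x) (3 / 40) (tnt (h0 * x) (3 / 10)) PP tK tL tC pcB (scP esg pd) [⟨0, 0, 0, 67108864⟩, ⟨1, 1, 0, 67108864⟩, ⟨2, 1, 0, 67108864⟩] 0 2 2 2 2 (sgb true) (sgb false) x := by
  have X : XR 67108864 x := XR.of hx hx' (by norm_num) (by norm_num) (by norm_num) (by norm_num)
  have hen : 0 < eng.v x := en_pos X.x0.le
  refine CornW.altB (C := cB022R) (j := (2 : Fin 7)) (k := (2 : Fin 7)) (Ef := esg) (pd := pd) (o := 3 / 40)
    (cornW_of (C := cB022R) (C0 := c0B) (En := eng) (mo := mog) (j := (2 : Fin 7)) (k := (2 : Fin 7)) (lo := 6) (hi := 6) (W := 67108864) (N0 := 3) cB022R_q (sideB hx hx') gokB (pinU hx hx') dokB X (by norm_num) (by norm_num) (l := (6 : Fin 7)) rfl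
      (gatB20 x) (gatB22 x) (gatB62 x) (datB20 x) (datB22 x) (datB62 x) ?_)
    (cornS_of (C := cB022R) (C0 := c0B) (j := (2 : Fin 7)) (k := (2 : Fin 7)) (lo := 6) (hi := 6) (W := 67108864) (N0 := 3) cB022R_q (sideB hx hx') gokB X (by norm_num) (by norm_num) (l := (6 : Fin 7)) rfl
      (gatB20 x) (gatB22 x) (gatB62 x) ?_)
    (thU (pinU hx hx')) rfl hκ (fun j q y => tC_eq j q y x) (esg_rng X.x0.le (by linarith [X.b, X.p0])).1 (mo_v x) le_rfl le_rfl
  · intro ρ a B hρ hd i h1 h2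
    fin_cases i
    · exact absurd h1 (by norm_num)
    · exact absurd h1 (by norm_num)
    · exact absurd h1 (by norm_num)
    · exact absurd h1 (by norm_num)
    · exact absurd h1 (by norm_num)
    · exact corW_cert (G1 := gB2q0) (G2 := gB2q2) (Ga := gB5q2) (Gb := gB6q2) (D1 := dB2q0) (D2 := dB2q2) (Da := dB5q2) (Db := dB6q2) cB022R_ok B hρ hen (gatB20 x) (gatB22 x) (fun h => absurd h (by decide)) (fun _ => gatB62 x) (datB20 x) (datB22 x) (fun h => absurd h (by decide)) (fun _ => datB62 x) hd hx hx' CW.B022R_225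
  · intro ρ a B hρ hd i h1 h2
    fin_cases i
    · exact absurd h1 (by norm_num)
    · exact absurd h1 (by norm_num)
    · exact absurd h1 (by norm_num)
    · exact absurd h1 (by norm_num)
    · exact absurd h1 (by norm_num)
    · exact corT_cert (G1 := gB2q0) (G2 := gB2q2) (Ga := gB5q2) (Gb := gB6q2) cB022R_ok B hρ (gatB20 x) (gatB22 x) (fun h => absurd h (by decide)) (fun _ => gatB62 x) hd hx hx' CG.B022R_225

theorem altB_B022R_23 {κ x : ℝ} (hκ : κ * h0 = ken x) (hx : ((536870912 : ℕ) : ℝ) / S ≤ x) (hx' : x ≤ (((536870912 : ℕ) : ℝ) + (50465866 : ℕ)) / S) :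
    AltEB 3 κ (eng.v x) (3 / 40) (tnt (h0 * x) (3 / 10)) PP tK tL tC pcB (scP esg pd) [⟨0, 0, 0, 67108864⟩, ⟨1, 1, 0, 67108864⟩, ⟨2, 1, 0, 67108864⟩] 0 2 2 2 3 (sgb true) (sgb false) x := by
  have X : XR 67108864 x := XR.of hx hx' (by norm_num) (by norm_num) (by norm_num) (by norm_num)
  have hen : 0 < eng.v x := en_pos X.x0.le
  refine CornW.altB (C := cB022R) (j := (2 : Fin 7)) (k := (3 : Fin 7)) (Ef := esg) (pd := pd) (o := 3 / 40)
    (cornW_of (C := cB022R) (C0 := c0B) (En := eng) (mo := mog) (j := (2 : Fin 7)) (k := (3 : Fin 7)) (lo := 6) (hi := 6) (W := 67108864) (N0 := 3) cB022R_q (sideB hx hx') gokB (pinU hx hx') dokB X (by norm_num) (by norm_num) (l := (6 : Fin 7)) rfl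
      (gatB20 x) (gatB32 x) (gatB62 x) (datB20 x) (datB32 x) (datB62 x) ?_)
    (cornS_of (C := cB022R) (C0 := c0B) (j := (2 : Fin 7)) (k := (3 : Fin 7)) (lo := 6) (hi := 6) (W := 67108864) (N0 := 3) cB022R_q (sideB hx hx') gokB X (by norm_num) (by norm_num) (l := (6 : Fin 7)) rfl
      (gatB20 x) (gatB32 x) (gatB62 x) ?_)
    (thU (pinU hx hx')) rfl hκ (fun j q y => tC_eq j q y x) (esg_rng X.x0.le (by linarith [X.b, X.p0])).1 (mo_v x) le_rfl le_rfl
  · intro ρ a B hρ hd i h1 h2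
    fin_cases i
    · exact absurd h1 (by norm_num)
    · exact absurd h1 (by norm_num)
    · exact absurd h1 (by norm_num)
    · exact absurd h1 (by norm_num)
    · exact absurd h1 (by norm_num)
    · exact corW_cert (G1 := gB2q0) (G2 := gB3q2) (Ga := gB5q2) (Gb := gB6q2) (D1 := dB2q0) (D2 := dB3q2) (Da := dB5q2) (Db := dB6q2) cB022R_ok B hρ hen (gatB20 x) (gatB32 x) (fun h => absurd h (by decide)) (fun _ => gatB62 x) (datB20 x) (datB32 x) (fun h => absurd h (by decide)) (fun _ => datB62 x) hd hx hx' CW.B022R_235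
  · intro ρ a B hρ hd i h1 h2
    fin_cases i
    · exact absurd h1 (by norm_num)
    · exact absurd h1 (by norm_num)
    · exact absurd h1 (by norm_num)
    · exact absurd h1 (by norm_num)
    · exact absurd h1 (by norm_num)
    · exact corT_cert (G1 := gB2q0) (G2 := gB3q2) (Ga := gB5q2) (Gb := gB6q2) cB022R_ok B hρ (gatB20 x) (gatB32 x) (fun h => absurd h (by decide)) (fun _ => gatB62 x) hd hx hx' CG.B022R_235

theorem altB_B022R_30 {κ x : ℝ} (hκ : κ * h0 = ken x) (hx : ((536870912 : ℕ) : ℝ) / S ≤ x) (hx' : x ≤ (((536870912 : ℕ) : ℝ) + (50465866 : ℕ)) / S) :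
    AltEB 3 κ (eng.v x) (3 / 40) (tnt (h0 * x) (3 / 10)) PP tK tL tC pcB (scP esg pd) [⟨0, 0, 0, 67108864⟩, ⟨1, 1, 0, 67108864⟩, ⟨2, 1, 0, 67108864⟩] 0 2 2 3 0 (sgb true) (sgb false) x := by
  have X : XR 67108864 x := XR.of hx hx' (by norm_num) (by norm_num) (by norm_num) (by norm_num)
  have hen : 0 < eng.v x := en_pos X.x0.le
  refine CornW.altB (C := cB022R) (j := (3 : Fin 7)) (k := (0 : Fin 7)) (Ef := esg) (pd := pd) (o := 3 / 40)
    (cornW_of (C := cB022R) (C0 := c0B) (En := eng) (mo := mog) (j := (3 : Fin 7)) (k := (0 : Fin 7)) (lo := 6) (hi := 6) (W := 67108864) (N0 := 3) cB022R_q (sideB hx hx') gokB (pinU hx hx') dokB X (by norm_num) (by norm_num) (l := (6 : Fin 7)) rfl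
      (gatB30 x) (gatB02 x) (gatB62 x) (datB30 x) (datB02 x) (datB62 x) ?_)
    (cornS_of (C := cB022R) (C0 := c0B) (j := (3 : Fin 7)) (k := (0 : Fin 7)) (lo := 6) (hi := 6) (W := 67108864) (N0 := 3) cB022R_q (sideB hx hx') gokB X (by norm_num) (by norm_num) (l := (6 : Fin 7)) rfl
      (gatB30 x) (gatB02 x) (gatB62 x) ?_)
    (thU (pinU hx hx')) rfl hκ (fun j q y => tC_eq j q y x) (esg_rng X.x0.le (by linarith [X.b, X.p0])).1 (mo_v x) le_rfl le_rfl
  · intro ρ a B hρ hd i h1 h2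
    fin_cases i
    · exact absurd h1 (by norm_num)
    · exact absurd h1 (by norm_num)
    · exact absurd h1 (by norm_num)
    · exact absurd h1 (by norm_num)
    · exact absurd h1 (by norm_num)
    · exact corW_cert (G1 := gB3q0) (G2 := gB0q2) (Ga := gB5q2) (Gb := gB6q2) (D1 := dB3q0) (D2 := dB0q2) (Da := dB5q2) (Db := dB6q2) cB022R_ok B hρ hen (gatB30 x) (gatB02 x) (fun h => absurd h (by decide)) (fun _ => gatB62 x) (datB30 x) (datB02 x) (fun h => absurd h (by decide)) (fun _ => datB62 x) hd hx hx' CW.B022R_305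
  · intro ρ a B hρ hd i h1 h2
    fin_cases i
    · exact absurd h1 (by norm_num)
    · exact absurd h1 (by norm_num)
    · exact absurd h1 (by norm_num)
    · exact absurd h1 (by norm_num)
    · exact absurd h1 (by norm_num)
    · exact corT_cert (G1 := gB3q0) (G2 := gB0q2) (Ga := gB5q2) (Gb := gB6q2) cB022R_ok B hρ (gatB30 x) (gatB02 x) (fun h => absurd h (by decide)) (fun _ => gatB62 x) hd hx hx' CG.B022R_305

theorem altB_B022R_31 {κ x : ℝ} (hκ : κ * h0 = ken x) (hx : ((536870912 : ℕ) : ℝ) / S ≤ x) (hx' : x ≤ (((536870912 : ℕ) : ℝ) + (50465866 : ℕ)) / S) :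
    AltEB 3 κ (eng.v x) (3 / 40) (tnt (h0 * x) (3 / 10)) PP tK tL tC pcB (scP esg pd) [⟨0, 0, 0, 67108864⟩, ⟨1, 1, 0, 67108864⟩, ⟨2, 1, 0, 67108864⟩] 0 2 2 3 1 (sgb true) (sgb false) x := by
  have X : XR 67108864 x := XR.of hx hx' (by norm_num) (by norm_num) (by norm_num) (by norm_num)
  have hen : 0 < eng.v x := en_pos X.x0.le
  refine CornW.altB (C := cB022R) (j := (3 : Fin 7)) (k := (1 : Fin 7)) (Ef := esg) (pd := pd) (o := 3 / 40)
    (cornW_of (C := cB022R) (C0 := c0B) (En := eng) (mo := mog) (j := (3 : Fin 7)) (k := (1 : Fin 7)) (lo := 6) (hi := 6) (W := 67108864) (N0 := 3) cB022R_q (sideB hx hx') gokB (pinU hx hx') dokB X (by norm_num) (by norm_num) (l := (6 : Fin 7)) rfl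
      (gatB30 x) (gatB12 x) (gatB62 x) (datB30 x) (datB12 x) (datB62 x) ?_)
    (cornS_of (C := cB022R) (C0 := c0B) (j := (3 : Fin 7)) (k := (1 : Fin 7)) (lo := 6) (hi := 6) (W := 67108864) (N0 := 3) cB022R_q (sideB hx hx') gokB X (by norm_num) (by norm_num) (l := (6 : Fin 7)) rfl
      (gatB30 x) (gatB12 x) (gatB62 x) ?_)
    (thU (pinU hx hx')) rfl hκ (fun j q y => tC_eq j q y x) (esg_rng X.x0.le (by linarith [X.b, X.p0])).1 (mo_v x) le_rfl le_rfl
  · intro ρ a B hρ hd i h1 h2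
    fin_cases i
    · exact absurd h1 (by norm_num)
    · exact absurd h1 (by norm_num)
    · exact absurd h1 (by norm_num)
    · exact absurd h1 (by norm_num)
    · exact absurd h1 (by norm_num)
    · exact corW_cert (G1 := gB3q0) (G2 := gB1q2) (Ga := gB5q2) (Gb := gB6q2) (D1 := dB3q0) (D2 := dB1q2) (Da := dB5q2) (Db := dB6q2) cB022R_ok B hρ hen (gatB30 x) (gatB12 x) (fun h => absurd h (by decide)) (fun _ => gatB62 x) (datB30 x) (datB12 x) (fun h => absurd h (by decide)) (fun _ => datB62 x) hd hx hx' CW.B022R_315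
  · intro ρ a B hρ hd i h1 h2
    fin_cases i
    · exact absurd h1 (by norm_num)
    · exact absurd h1 (by norm_num)
    · exact absurd h1 (by norm_num)
    · exact absurd h1 (by norm_num)
    · exact absurd h1 (by norm_num)
    · exact corT_cert (G1 := gB3q0) (G2 := gB1q2) (Ga := gB5q2) (Gb := gB6q2) cB022R_ok B hρ (gatB30 x) (gatB12 x) (fun h => absurd h (by decide)) (fun _ => gatB62 x) hd hx hx' CG.B022R_315

theorem altB_B022R_32 {κ x : ℝ} (hκ : κ * h0 = ken x) (hx : ((536870912 : ℕ) : ℝ) / S ≤ x) (hx' : x ≤ (((536870912 : ℕ) : ℝ) + (50465866 : ℕ)) / S) :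
    AltEB 3 κ (eng.v x) (3 / 40) (tnt (h0 * x) (3 / 10)) PP tK tL tC pcB (scP esg pd) [⟨0, 0, 0, 67108864⟩, ⟨1, 1, 0, 67108864⟩, ⟨2, 1, 0, 67108864⟩] 0 2 2 3 2 (sgb true) (sgb false) x := by
  have X : XR 67108864 x := XR.of hx hx' (by norm_num) (by norm_num) (by norm_num) (by norm_num)
  have hen : 0 < eng.v x := en_pos X.x0.le
  refine CornW.altB (C := cB022R) (j := (3 : Fin 7)) (k := (2 : Fin 7)) (Ef := esg) (pd := pd) (o := 3 / 40)
    (cornW_of (C := cB022R) (C0 := c0B) (En := eng) (mo := mog) (j := (3 : Fin 7)) (k := (2 : Fin 7)) (lo := 6) (hi := 6) (W := 67108864) (N0 := 3) cB022R_q (sideB hx hx') gokB (pinU hx hx') dokB X (by norm_num) (by norm_num) (l := (6 : Fin 7)) rfl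
      (gatB30 x) (gatB22 x) (gatB62 x) (datB30 x) (datB22 x) (datB62 x) ?_)
    (cornS_of (C := cB022R) (C0 := c0B) (j := (3 : Fin 7)) (k := (2 : Fin 7)) (lo := 6) (hi := 6) (W := 67108864) (N0 := 3) cB022R_q (sideB hx hx') gokB X (by norm_num) (by norm_num) (l := (6 : Fin 7)) rfl
      (gatB30 x) (gatB22 x) (gatB62 x) ?_)
    (thU (pinU hx hx')) rfl hκ (fun j q y => tC_eq j q y x) (esg_rng X.x0.le (by linarith [X.b, X.p0])).1 (mo_v x) le_rfl le_rfl
  · intro ρ a B hρ hd i h1 h2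
    fin_cases i
    · exact absurd h1 (by norm_num)
    · exact absurd h1 (by norm_num)
    · exact absurd h1 (by norm_num)
    · exact absurd h1 (by norm_num)
    · exact absurd h1 (by norm_num)
    · exact corW_cert (G1 := gB3q0) (G2 := gB2q2) (Ga := gB5q2) (Gb := gB6q2) (D1 := dB3q0) (D2 := dB2q2) (Da := dB5q2) (Db := dB6q2) cB022R_ok B hρ hen (gatB30 x) (gatB22 x) (fun h => absurd h (by decide)) (fun _ => gatB62 x) (datB30 x) (datB22 x) (fun h => absurd h (by decide)) (fun _ => datB62 x) hd hx hx' CW.B022R_325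
  · intro ρ a B hρ hd i h1 h2
    fin_cases i
    · exact absurd h1 (by norm_num)
    · exact absurd h1 (by norm_num)
    · exact absurd h1 (by norm_num)
    · exact absurd h1 (by norm_num)
    · exact absurd h1 (by norm_num)
    · exact corT_cert (G1 := gB3q0) (G2 := gB2q2) (Ga := gB5q2) (Gb := gB6q2) cB022R_ok B hρ (gatB30 x) (gatB22 x) (fun h => absurd h (by decide)) (fun _ => gatB62 x) hd hx hx' CG.B022R_325

theorem altB_B022R_33 {κ x : ℝ} (hκ : κ * h0 = ken x) (hx : ((536870912 : ℕ) : ℝ) / S ≤ x) (hx' : x ≤ (((536870912 : ℕ) : ℝ) + (50465866 : ℕ)) / S) :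
    AltEB 3 κ (eng.v x) (3 / 40) (tnt (h0 * x) (3 / 10)) PP tK tL tC pcB (scP esg pd) [⟨0, 0, 0, 67108864⟩, ⟨1, 1, 0, 67108864⟩, ⟨2, 1, 0, 67108864⟩] 0 2 2 3 3 (sgb true) (sgb false) x := by
  have X : XR 67108864 x := XR.of hx hx' (by norm_num) (by norm_num) (by norm_num) (by norm_num)
  have hen : 0 < eng.v x := en_pos X.x0.le
  refine CornW.altB (C := cB022R) (j := (3 : Fin 7)) (k := (3 : Fin 7)) (Ef := esg) (pd := pd) (o := 3 / 40)
    (cornW_of (C := cB022R) (C0 := c0B) (En := eng) (mo := mog) (j := (3 : Fin 7)) (k := (3 : Fin 7)) (lo := 6) (hi := 6) (W := 67108864) (N0 := 3) cB022R_q (sideB hx hx') gokB (pinU hx hx') dokB X (by norm_num) (by norm_num) (l := (6 : Fin 7)) rfl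
      (gatB30 x) (gatB32 x) (gatB62 x) (datB30 x) (datB32 x) (datB62 x) ?_)
    (cornS_of (C := cB022R) (C0 := c0B) (j := (3 : Fin 7)) (k := (3 : Fin 7)) (lo := 6) (hi := 6) (W := 67108864) (N0 := 3) cB022R_q (sideB hx hx') gokB X (by norm_num) (by norm_num) (l := (6 : Fin 7)) rfl
      (gatB30 x) (gatB32 x) (gatB62 x) ?_)
    (thU (pinU hx hx')) rfl hκ (fun j q y => tC_eq j q y x) (esg_rng X.x0.le (by linarith [X.b, X.p0])).1 (mo_v x) le_rfl le_rfl
  · intro ρ a B hρ hd i h1 h2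
    fin_cases i
    · exact absurd h1 (by norm_num)
    · exact absurd h1 (by norm_num)
    · exact absurd h1 (by norm_num)
    · exact absurd h1 (by norm_num)
    · exact absurd h1 (by norm_num)
    · exact corW_cert (G1 := gB3q0) (G2 := gB3q2) (Ga := gB5q2) (Gb := gB6q2) (D1 := dB3q0) (D2 := dB3q2) (Da := dB5q2) (Db := dB6q2) cB022R_ok B hρ hen (gatB30 x) (gatB32 x) (fun h => absurd h (by decide)) (fun _ => gatB62 x) (datB30 x) (datB32 x) (fun h => absurd h (by decide)) (fun _ => datB62 x) hd hx hx' CW.B022R_335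
  · intro ρ a B hρ hd i h1 h2
    fin_cases i
    · exact absurd h1 (by norm_num)
    · exact absurd h1 (by norm_num)
    · exact absurd h1 (by norm_num)
    · exact absurd h1 (by norm_num)
    · exact absurd h1 (by norm_num)
    · exact corT_cert (G1 := gB3q0) (G2 := gB3q2) (Ga := gB5q2) (Gb := gB6q2) cB022R_ok B hρ (gatB30 x) (gatB32 x) (fun h => absurd h (by decide)) (fun _ => gatB62 x) hd hx hx' CG.B022R_335

end Pool.Agent.Strip051.G.I5000_5470.Tab
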