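import Pool.Agent.Strip051.G.I5000_5470.Gn
import Pool.Agent.Strip051.PB.Corns
import Pool.Agent.Strip051.PB.CornW

/-! # Certificates of the aligned corners (generated) -/

set_option linter.all false

namespace Pool.Agent.Strip051.G.I5000_5470.Tab.CG

open Pool.Agent.Strip051.PB

def B102E_021 :
    ∃ t, chk3 (onCell 0 67108864 0 1073741824 536870912 50465866 (corT true 1 c0B cB102E gB0q1 gB2q2 gB1q0 gB2q0 true true)) t 1 1 1 = true :=
  ⟨(T.b (T.b (T.l 1) (T.b (T.l 1) (T.b (T.l 1) (T.a (T.l 204) (T.a (T.l 204) (T.l 0)))))) (T.b (T.a (T.l 204) (T.b (T.a (T.l 204) (T.b (T.l 204) (T.l 204))) (T.b (T.a (T.l 204) (T.l 204)) (T.l 2)))) (T.l 2))), by decide +kernel⟩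

def B102E_022 :
    ∃ t, chk3 (onCell 0 67108864 0 1073741824 536870912 50465866 (corT true 1 c0B cB102E gB0q1 gB2q2 gB2q0 gB3q0 true true)) t 1 1 1 = true :=
  ⟨(T.b (T.l 1) (T.b (T.a (T.l 204) (T.b (T.b (T.l 1) (T.l 204)) (T.a (T.l 204) (T.b (T.l 204) (T.l 204))))) (T.a (T.b (T.l 204) (T.l 204)) (T.b (T.a (T.l 204) (T.b (T.l 204) (T.l 204))) (T.b (T.l 2) (T.l 2)))))), by decide +kernel⟩

def B102E_023 :
    ∃ t, chk3 (onCell 0 67108864 0 1073741824 536870912 50465866 (corT true 1 c0B cB102E gB0q1 gB2q2 gB3q0 gB4q0 true false)) t 1 1 1 = true :=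
  ⟨(T.b (T.l 1) (T.b (T.l 1) (T.b (T.a (T.l 204) (T.b (T.l 1) (T.a (T.l 204) (T.l 204)))) (T.a (T.a (T.l 204) (T.b (T.l 204) (T.l 204))) (T.a (T.a (T.b (T.l 204) (T.l 204)) (T.b (T.l 204) (T.c (T.l 204) (T.l 204)))) (T.b (T.b (T.l 204) (T.l 204)) (T.a (T.b (T.l 204) (T.l 204)) (T.b (T.l 204) (T.l 204))))))))), by decide +kernel⟩

def B102E_030 :
    ∃ t, chk3 (onCell 0 67108864 0 1073741824 536870912 50465866 (corT true 1 c0B cB102E gB0q1 gB3q2 gB0q0 gB1q0 true true)) t 1 1 1 = true :=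
  ⟨(T.b (T.b (T.b (T.l 1) (T.a (T.b (T.b (T.l 1) (T.b (T.b (T.l 1) (T.a (T.c (T.c (T.l 220) (T.l 220)) (T.c (T.l 204) (T.l 204))) (T.b (T.l 1) (T.c (T.a (T.l 204) (T.l 220)) (T.l 220))))) (T.c (T.a (T.l 204) (T.l 204)) (T.l 220)))) (T.a (T.l 204) (T.l 204))) (T.b (T.b (T.l 1) (T.b (T.l 1) (T.a (T.a (T.a (T.c (T.l 204) (T.l 204)) (T.c (T.c (T.l 220) (T.l 220)) (T.c (T.l 204) (T.l 204)))) (T.c (T.a (T.c (T.l 204) (T.l 204)) (T.l 204)) (T.c (T.l 220) (T.l 204)))) (T.a (T.c (T.l 220) (T.l 204)) (T.c (T.l 204) (T.l 204)))))) (T.a (T.a (T.a (T.l 204) (T.b (T.l 220) (T.l 204))) (T.b (T.c (T.l 204) (T.l 204)) (T.l 204))) (T.b (T.c (T.l 204) (T.l 204)) (T.l 204)))))) (T.b (T.b (T.a (T.l 204) (T.a (T.b (T.l 204) (T.l 2)) (T.l 204))) (T.l 2)) (T.l 2))) (T.l 2)), by decide +kernel⟩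

def B102E_031 :
    ∃ t, chk3 (onCell 0 67108864 0 1073741824 536870912 50465866 (corT true 1 c0B cB102E gB0q1 gB3q2 gB1q0 gB2q0 true true)) t 1 1 1 = true :=
  ⟨(T.b (T.b (T.l 1) (T.a (T.b (T.l 204) (T.l 204)) (T.b (T.a (T.a (T.l 204) (T.l 204)) (T.b (T.l 204) (T.l 204))) (T.b (T.l 204) (T.l 204))))) (T.b (T.a (T.l 204) (T.l 2)) (T.l 2))), by decide +kernel⟩

def B102E_032 :
    ∃ t, chk3 (onCell 0 67108864 0 1073741824 536870912 50465866 (corT true 1 c0B cB102E gB0q1 gB3q2 gB2q0 gB3q0 true true)) t 1 1 1 = true :=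
  ⟨(T.b (T.b (T.l 1) (T.b (T.l 1) (T.a (T.l 204) (T.b (T.l 1) (T.l 204))))) (T.a (T.b (T.l 204) (T.l 204)) (T.b (T.a (T.b (T.l 204) (T.l 204)) (T.b (T.l 204) (T.l 204))) (T.b (T.a (T.l 204) (T.b (T.l 204) (T.l 204))) (T.l 2))))), by decide +kernel⟩

def B102E_033 :
    ∃ t, chk3 (onCell 0 67108864 0 1073741824 536870912 50465866 (corT true 1 c0B cB102E gB0q1 gB3q2 gB3q0 gB4q0 true false)) t 1 1 1 = true :=
  ⟨(T.b (T.l 1) (T.b (T.l 1) (T.a (T.b (T.l 204) (T.a (T.l 204) (T.l 204))) (T.b (T.a (T.l 204) (T.b (T.l 1) (T.l 204))) (T.a (T.a (T.b (T.l 204) (T.l 204)) (T.b (T.l 204) (T.c (T.l 204) (T.l 204)))) (T.b (T.b (T.l 204) (T.l 204)) (T.a (T.b (T.l 204) (T.l 204)) (T.b (T.l 204) (T.l 204))))))))), by decide +kernel⟩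

def B102L_400 :
    ∃ t, chk3 (onCell 0 67108864 0 1073741824 536870912 50465866 (corT true 1 c0B cB102L gB4q1 gB0q2 gB0q0 gB1q0 true true)) t 1 1 1 = true :=
  ⟨(T.b (T.l 2) (T.b (T.l 2) (T.l 0))), by decide +kernel⟩

def B102L_401 :
    ∃ t, chk3 (onCell 0 67108864 0 1073741824 536870912 50465866 (corT true 1 c0B cB102L gB4q1 gB0q2 gB1q0 gB2q0 true true)) t 1 1 1 = true :=
  ⟨(T.b (T.l 2) (T.b (T.b (T.l 2) (T.l 204)) (T.l 0))), by decide +kernel⟩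

def B102L_402 :
    ∃ t, chk3 (onCell 0 67108864 0 1073741824 536870912 50465866 (corT true 1 c0B cB102L gB4q1 gB0q2 gB2q0 gB3q0 true true)) t 1 1 1 = true :=
  ⟨(T.b (T.b (T.a (T.b (T.l 2) (T.l 204)) (T.l 2)) (T.a (T.l 204) (T.a (T.l 204) (T.b (T.l 204) (T.l 204))))) (T.b (T.b (T.a (T.l 204) (T.l 0)) (T.l 204)) (T.l 1))), by decide +kernel⟩

def B102L_403 :
    ∃ t, chk3 (onCell 0 67108864 0 1073741824 536870912 50465866 (corT true 1 c0B cB102L gB4q1 gB0q2 gB3q0 gB4q0 true false)) t 1 1 1 = true :=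
  ⟨(T.b (T.b (T.b (T.a (T.a (T.l 204) (T.l 204)) (T.a (T.l 204) (T.l 204))) (T.a (T.l 204) (T.b (T.l 204) (T.l 204)))) (T.a (T.l 204) (T.a (T.l 0) (T.b (T.l 204) (T.l 204))))) (T.l 1)), by decide +kernel⟩

def B102L_410 :
    ∃ t, chk3 (onCell 0 67108864 0 1073741824 536870912 50465866 (corT true 1 c0B cB102L gB4q1 gB1q2 gB0q0 gB1q0 true true)) t 1 1 1 = true :=
  ⟨(T.b (T.l 2) (T.b (T.l 2) (T.l 0))), by decide +kernel⟩

def B102L_411 :
    ∃ t, chk3 (onCell 0 67108864 0 1073741824 536870912 50465866 (corT true 1 c0B cB102L gB4q1 gB1q2 gB1q0 gB2q0 true true)) t 1 1 1 = true :=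
  ⟨(T.b (T.l 2) (T.b (T.b (T.a (T.l 204) (T.l 2)) (T.l 204)) (T.l 0))), by decide +kernel⟩

def B102L_412 :
    ∃ t, chk3 (onCell 0 67108864 0 1073741824 536870912 50465866 (corT true 1 c0B cB102L gB4q1 gB1q2 gB2q0 gB3q0 true true)) t 1 1 1 = true :=
  ⟨(T.b (T.b (T.b (T.a (T.b (T.l 2) (T.l 204)) (T.l 2)) (T.a (T.l 204) (T.l 220))) (T.a (T.l 204) (T.a (T.b (T.l 204) (T.l 204)) (T.l 204)))) (T.b (T.b (T.a (T.l 204) (T.b (T.l 204) (T.l 204))) (T.l 204)) (T.l 1))), by decide +kernel⟩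

def B102L_413 :
    ∃ t, chk3 (onCell 0 67108864 0 1073741824 536870912 50465866 (corT true 1 c0B cB102L gB4q1 gB1q2 gB3q0 gB4q0 true false)) t 1 1 1 = true :=
  ⟨(T.b (T.b (T.b (T.a (T.a (T.l 204) (T.l 204)) (T.b (T.l 204) (T.l 204))) (T.a (T.l 204) (T.l 220))) (T.a (T.l 1) (T.a (T.l 16) (T.l 204)))) (T.l 1)), by decide +kernel⟩

def B102L_420 :
    ∃ t, chk3 (onCell 0 67108864 0 1073741824 536870912 50465866 (corT true 1 c0B cB102L gB4q1 gB2q2 gB0q0 gB1q0 true true)) t 1 1 1 = true :=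
  ⟨(T.b (T.l 2) (T.b (T.l 2) (T.l 0))), by decide +kernel⟩

def B102L_421 :
    ∃ t, chk3 (onCell 0 67108864 0 1073741824 536870912 50465866 (corT true 1 c0B cB102L gB4q1 gB2q2 gB1q0 gB2q0 true true)) t 1 1 1 = true :=
  ⟨(T.b (T.b (T.l 2) (T.a (T.l 204) (T.b (T.l 2) (T.l 204)))) (T.b (T.b (T.a (T.l 204) (T.l 0)) (T.l 204)) (T.l 0))), by decide +kernel⟩

def B102L_422 :
    ∃ t, chk3 (onCell 0 67108864 0 1073741824 536870912 50465866 (corT true 1 c0B cB102L gB4q1 gB2q2 gB2q0 gB3q0 true true)) t 1 1 1 = true :=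
  ⟨(T.b (T.b (T.a (T.a (T.l 204) (T.b (T.l 204) (T.l 204))) (T.b (T.l 220) (T.l 204))) (T.a (T.l 204) (T.b (T.l 204) (T.l 204)))) (T.b (T.a (T.l 1) (T.b (T.l 0) (T.l 1))) (T.l 1))), by decide +kernel⟩

def B102L_423 :
    ∃ t, chk3 (onCell 0 67108864 0 1073741824 536870912 50465866 (corT true 1 c0B cB102L gB4q1 gB2q2 gB3q0 gB4q0 true false)) t 1 1 1 = true :=
  ⟨(T.b (T.b (T.l 1) (T.l 1)) (T.l 1)), by decide +kernel⟩

def B102L_430 :
    ∃ t, chk3 (onCell 0 67108864 0 1073741824 536870912 50465866 (corT true 1 c0B cB102L gB4q1 gB3q2 gB0q0 gB1q0 true true)) t 1 1 1 = true :=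
  ⟨(T.b (T.l 2) (T.b (T.b (T.l 2) (T.l 2)) (T.l 0))), by decide +kernel⟩

def B102L_431 :
    ∃ t, chk3 (onCell 0 67108864 0 1073741824 536870912 50465866 (corT true 1 c0B cB102L gB4q1 gB3q2 gB1q0 gB2q0 true true)) t 1 1 1 = true :=
  ⟨(T.b (T.b (T.a (T.a (T.l 204) (T.b (T.l 204) (T.l 204))) (T.a (T.l 204) (T.l 204))) (T.a (T.l 204) (T.b (T.l 204) (T.l 0)))) (T.b (T.b (T.a (T.l 204) (T.l 0)) (T.l 204)) (T.l 0))), by decide +kernel⟩

def B102L_432 :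
    ∃ t, chk3 (onCell 0 67108864 0 1073741824 536870912 50465866 (corT true 1 c0B cB102L gB4q1 gB3q2 gB2q0 gB3q0 true true)) t 1 1 1 = true :=
  ⟨(T.l 1), by decide +kernel⟩

def B102L_433 :
    ∃ t, chk3 (onCell 0 67108864 0 1073741824 536870912 50465866 (corT true 1 c0B cB102L gB4q1 gB3q2 gB3q0 gB4q0 true false)) t 1 1 1 = true :=
  ⟨(T.l 1), by decide +kernel⟩

def B102L_500 :
    ∃ t, chk3 (onCell 0 67108864 0 1073741824 536870912 50465866 (corT true 1 c0B cB102L gB5q1 gB0q2 gB0q0 gB1q0 true true)) t 1 1 1 = true :=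
  ⟨(T.b (T.l 2) (T.l 2)), by decide +kernel⟩

def B102L_501 :
    ∃ t, chk3 (onCell 0 67108864 0 1073741824 536870912 50465866 (corT true 1 c0B cB102L gB5q1 gB0q2 gB1q0 gB2q0 true true)) t 1 1 1 = true :=
  ⟨(T.b (T.l 2) (T.b (T.l 2) (T.l 204))), by decide +kernel⟩

def B102L_502 :
    ∃ t, chk3 (onCell 0 67108864 0 1073741824 536870912 50465866 (corT true 1 c0B cB102L gB5q1 gB0q2 gB2q0 gB3q0 true true)) t 1 1 1 = true :=
  ⟨(T.b (T.b (T.a (T.b (T.l 2) (T.l 204)) (T.l 2)) (T.a (T.l 204) (T.a (T.l 204) (T.b (T.l 2) (T.l 204))))) (T.b (T.b (T.a (T.l 204) (T.l 0)) (T.l 204)) (T.l 204))), by decide +kernel⟩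

def B102L_503 :
    ∃ t, chk3 (onCell 0 67108864 0 1073741824 536870912 50465866 (corT true 1 c0B cB102L gB5q1 gB0q2 gB3q0 gB4q0 true false)) t 1 1 1 = true :=
  ⟨(T.b (T.b (T.b (T.a (T.a (T.l 204) (T.l 204)) (T.a (T.l 204) (T.l 204))) (T.a (T.l 204) (T.b (T.l 204) (T.l 204)))) (T.a (T.l 204) (T.a (T.l 204) (T.b (T.l 204) (T.l 204))))) (T.l 1)), by decide +kernel⟩

def B102L_510 :
    ∃ t, chk3 (onCell 0 67108864 0 1073741824 536870912 50465866 (corT true 1 c0B cB102L gB5q1 gB1q2 gB0q0 gB1q0 true true)) t 1 1 1 = true :=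
  ⟨(T.b (T.l 2) (T.l 2)), by decide +kernel⟩

def B102L_511 :
    ∃ t, chk3 (onCell 0 67108864 0 1073741824 536870912 50465866 (corT true 1 c0B cB102L gB5q1 gB1q2 gB1q0 gB2q0 true true)) t 1 1 1 = true :=
  ⟨(T.b (T.l 2) (T.b (T.b (T.l 2) (T.l 204)) (T.l 204))), by decide +kernel⟩

def B102L_512 :
    ∃ t, chk3 (onCell 0 67108864 0 1073741824 536870912 50465866 (corT true 1 c0B cB102L gB5q1 gB1q2 gB2q0 gB3q0 true true)) t 1 1 1 = true :=
  ⟨(T.b (T.b (T.a (T.b (T.b (T.l 2) (T.l 204)) (T.l 204)) (T.b (T.l 2) (T.l 204))) (T.a (T.l 204) (T.a (T.b (T.l 204) (T.l 204)) (T.l 204)))) (T.b (T.b (T.a (T.l 204) (T.b (T.l 204) (T.l 204))) (T.l 204)) (T.l 204))), by decide +kernel⟩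

def B102L_513 :
    ∃ t, chk3 (onCell 0 67108864 0 1073741824 536870912 50465866 (corT true 1 c0B cB102L gB5q1 gB1q2 gB3q0 gB4q0 true false)) t 1 1 1 = true :=
  ⟨(T.b (T.b (T.a (T.a (T.l 204) (T.b (T.l 204) (T.l 204))) (T.a (T.l 204) (T.l 204))) (T.a (T.l 204) (T.b (T.l 220) (T.l 1)))) (T.l 1)), by decide +kernel⟩

def B102L_520 :
    ∃ t, chk3 (onCell 0 67108864 0 1073741824 536870912 50465866 (corT true 1 c0B cB102L gB5q1 gB2q2 gB0q0 gB1q0 true true)) t 1 1 1 = true :=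
  ⟨(T.l 2), by decide +kernel⟩

def B102L_521 :
    ∃ t, chk3 (onCell 0 67108864 0 1073741824 536870912 50465866 (corT true 1 c0B cB102L gB5q1 gB2q2 gB1q0 gB2q0 true true)) t 1 1 1 = true :=
  ⟨(T.b (T.b (T.l 2) (T.b (T.l 2) (T.l 2))) (T.b (T.b (T.a (T.l 204) (T.l 204)) (T.l 204)) (T.l 204))), by decide +kernel⟩

def B102L_522 :
    ∃ t, chk3 (onCell 0 67108864 0 1073741824 536870912 50465866 (corT true 1 c0B cB102L gB5q1 gB2q2 gB2q0 gB3q0 true true)) t 1 1 1 = true :=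
  ⟨(T.b (T.b (T.a (T.a (T.l 204) (T.b (T.l 204) (T.l 204))) (T.b (T.l 204) (T.l 204))) (T.a (T.l 204) (T.b (T.l 204) (T.l 204)))) (T.b (T.a (T.l 204) (T.b (T.l 204) (T.l 204))) (T.l 1))), by decide +kernel⟩

def B102L_523 :
    ∃ t, chk3 (onCell 0 67108864 0 1073741824 536870912 50465866 (corT true 1 c0B cB102L gB5q1 gB2q2 gB3q0 gB4q0 true false)) t 1 1 1 = true :=
  ⟨(T.b (T.b (T.l 1) (T.l 1)) (T.l 1)), by decide +kernel⟩

def B102L_530 :
    ∃ t, chk3 (onCell 0 67108864 0 1073741824 536870912 50465866 (corT true 1 c0B cB102L gB5q1 gB3q2 gB0q0 gB1q0 true true)) t 1 1 1 = true :=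
  ⟨(T.l 2), by decide +kernel⟩

def B102L_531 :
    ∃ t, chk3 (onCell 0 67108864 0 1073741824 536870912 50465866 (corT true 1 c0B cB102L gB5q1 gB3q2 gB1q0 gB2q0 true true)) t 1 1 1 = true :=
  ⟨(T.b (T.a (T.b (T.a (T.l 204) (T.b (T.l 204) (T.l 204))) (T.l 204)) (T.b (T.a (T.l 204) (T.l 204)) (T.b (T.l 204) (T.l 204)))) (T.b (T.a (T.l 204) (T.b (T.l 204) (T.l 204))) (T.l 204))), by decide +kernel⟩

def B102L_532 :
    ∃ t, chk3 (onCell 0 67108864 0 1073741824 536870912 50465866 (corT true 1 c0B cB102L gB5q1 gB3q2 gB2q0 gB3q0 true true)) t 1 1 1 = true :=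
  ⟨(T.l 1), by decide +kernel⟩

def B102L_533 :
    ∃ t, chk3 (onCell 0 67108864 0 1073741824 536870912 50465866 (corT true 1 c0B cB102L gB5q1 gB3q2 gB3q0 gB4q0 true false)) t 1 1 1 = true :=
  ⟨(T.l 1), by decide +kernel⟩

def B102L_600 :
    ∃ t, chk3 (onCell 0 67108864 0 1073741824 536870912 50465866 (corT true 1 c0B cB102L gB6q1 gB0q2 gB0q0 gB1q0 true true)) t 1 1 1 = true :=
  ⟨(T.l 2), by decide +kernel⟩

def B102L_601 :
    ∃ t, chk3 (onCell 0 67108864 0 1073741824 536870912 50465866 (corT true 1 c0B cB102L gB6q1 gB0q2 gB1q0 gB2q0 true true)) t 1 1 1 = true :=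
  ⟨(T.b (T.l 2) (T.b (T.l 2) (T.l 204))), by decide +kernel⟩

def B102L_602 :
    ∃ t, chk3 (onCell 0 67108864 0 1073741824 536870912 50465866 (corT true 1 c0B cB102L gB6q1 gB0q2 gB2q0 gB3q0 true true)) t 1 1 1 = true :=
  ⟨(T.b (T.b (T.b (T.l 2) (T.l 2)) (T.a (T.l 204) (T.a (T.l 204) (T.b (T.l 2) (T.l 204))))) (T.b (T.b (T.a (T.l 204) (T.l 204)) (T.l 204)) (T.l 204))), by decide +kernel⟩

def B102L_603 :
    ∃ t, chk3 (onCell 0 67108864 0 1073741824 536870912 50465866 (corT true 1 c0B cB102L gB6q1 gB0q2 gB3q0 gB4q0 true false)) t 1 1 1 = true :=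
  ⟨(T.b (T.b (T.a (T.a (T.l 204) (T.b (T.l 204) (T.l 204))) (T.a (T.b (T.l 204) (T.l 204)) (T.b (T.l 204) (T.l 204)))) (T.a (T.l 204) (T.a (T.l 204) (T.b (T.l 204) (T.l 204))))) (T.b (T.l 1) (T.l 1))), by decide +kernel⟩

def B102L_610 :
    ∃ t, chk3 (onCell 0 67108864 0 1073741824 536870912 50465866 (corT true 1 c0B cB102L gB6q1 gB1q2 gB0q0 gB1q0 true true)) t 1 1 1 = true :=
  ⟨(T.l 2), by decide +kernel⟩

def B102L_611 :
    ∃ t, chk3 (onCell 0 67108864 0 1073741824 536870912 50465866 (corT true 1 c0B cB102L gB6q1 gB1q2 gB1q0 gB2q0 true true)) t 1 1 1 = true :=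
  ⟨(T.b (T.l 2) (T.b (T.l 2) (T.l 204))), by decide +kernel⟩

def B102L_612 :
    ∃ t, chk3 (onCell 0 67108864 0 1073741824 536870912 50465866 (corT true 1 c0B cB102L gB6q1 gB1q2 gB2q0 gB3q0 true true)) t 1 1 1 = true :=
  ⟨(T.b (T.b (T.a (T.b (T.l 2) (T.l 204)) (T.b (T.l 2) (T.l 2))) (T.a (T.l 204) (T.a (T.l 220) (T.l 204)))) (T.b (T.b (T.a (T.l 204) (T.b (T.l 204) (T.l 204))) (T.l 204)) (T.l 204))), by decide +kernel⟩

def B102L_613 :
    ∃ t, chk3 (onCell 0 67108864 0 1073741824 536870912 50465866 (corT true 1 c0B cB102L gB6q1 gB1q2 gB3q0 gB4q0 true false)) t 1 1 1 = true :=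
  ⟨(T.b (T.b (T.a (T.a (T.l 204) (T.b (T.l 204) (T.l 204))) (T.a (T.l 204) (T.l 204))) (T.a (T.l 204) (T.b (T.l 220) (T.l 220)))) (T.l 1)), by decide +kernel⟩

def B102L_620 :
    ∃ t, chk3 (onCell 0 67108864 0 1073741824 536870912 50465866 (corT true 1 c0B cB102L gB6q1 gB2q2 gB0q0 gB1q0 true true)) t 1 1 1 = true :=
  ⟨(T.l 2), by decide +kernel⟩

def B102L_621 :
    ∃ t, chk3 (onCell 0 67108864 0 1073741824 536870912 50465866 (corT true 1 c0B cB102L gB6q1 gB2q2 gB1q0 gB2q0 true true)) t 1 1 1 = true :=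
  ⟨(T.b (T.l 2) (T.b (T.b (T.l 2) (T.l 204)) (T.l 204))), by decide +kernel⟩

def B102L_622 :
    ∃ t, chk3 (onCell 0 67108864 0 1073741824 536870912 50465866 (corT true 1 c0B cB102L gB6q1 gB2q2 gB2q0 gB3q0 true true)) t 1 1 1 = true :=
  ⟨(T.b (T.b (T.a (T.a (T.l 204) (T.b (T.l 204) (T.l 204))) (T.b (T.l 204) (T.l 204))) (T.a (T.l 204) (T.b (T.l 204) (T.l 204)))) (T.b (T.a (T.l 204) (T.b (T.l 204) (T.l 204))) (T.l 204))), by decide +kernel⟩

def B102L_623 :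
    ∃ t, chk3 (onCell 0 67108864 0 1073741824 536870912 50465866 (corT true 1 c0B cB102L gB6q1 gB2q2 gB3q0 gB4q0 true false)) t 1 1 1 = true :=
  ⟨(T.b (T.b (T.l 1) (T.l 1)) (T.l 1)), by decide +kernel⟩

def B102L_630 :
    ∃ t, chk3 (onCell 0 67108864 0 1073741824 536870912 50465866 (corT true 1 c0B cB102L gB6q1 gB3q2 gB0q0 gB1q0 true true)) t 1 1 1 = true :=
  ⟨(T.l 2), by decide +kernel⟩

def B102L_631 :
    ∃ t, chk3 (onCell 0 67108864 0 1073741824 536870912 50465866 (corT true 1 c0B cB102L gB6q1 gB3q2 gB1q0 gB2q0 true true)) t 1 1 1 = true :=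
  ⟨(T.b (T.a (T.b (T.a (T.l 204) (T.b (T.l 204) (T.l 204))) (T.l 204)) (T.b (T.a (T.l 204) (T.l 204)) (T.b (T.l 204) (T.l 204)))) (T.a (T.l 204) (T.a (T.l 204) (T.b (T.l 204) (T.l 204))))), by decide +kernel⟩

def B102L_632 :
    ∃ t, chk3 (onCell 0 67108864 0 1073741824 536870912 50465866 (corT true 1 c0B cB102L gB6q1 gB3q2 gB2q0 gB3q0 true true)) t 1 1 1 = true :=
  ⟨(T.b (T.l 1) (T.l 1)), by decide +kernel⟩

def B102L_633 :
    ∃ t, chk3 (onCell 0 67108864 0 1073741824 536870912 50465866 (corT true 1 c0B cB102L gB6q1 gB3q2 gB3q0 gB4q0 true false)) t 1 1 1 = true :=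
  ⟨(T.l 1), by decide +kernel⟩

def B102R_060 :
    ∃ t, chk3 (onCell 0 67108864 0 1073741824 536870912 50465866 (corT true 1 c0B cB102R gB0q1 gB6q2 gB0q0 gB1q0 true true)) t 1 1 1 = true :=
  ⟨(T.l 1), by decide +kernel⟩

def B102R_061 :
    ∃ t, chk3 (onCell 0 67108864 0 1073741824 536870912 50465866 (corT true 1 c0B cB102R gB0q1 gB6q2 gB1q0 gB2q0 true true)) t 1 1 1 = true :=
  ⟨(T.l 1), by decide +kernel⟩

def B102R_062 :
    ∃ t, chk3 (onCell 0 67108864 0 1073741824 536870912 50465866 (corT true 1 c0B cB102R gB0q1 gB6q2 gB2q0 gB3q0 true true)) t 1 1 1 = true :=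
  ⟨(T.l 1), by decide +kernel⟩

def B102R_063 :
    ∃ t, chk3 (onCell 0 67108864 0 1073741824 536870912 50465866 (corT true 1 c0B cB102R gB0q1 gB6q2 gB3q0 gB4q0 true false)) t 1 1 1 = true :=
  ⟨(T.l 1), by decide +kernel⟩

def B202E_000 :
    ∃ t, chk3 (onCell 0 67108864 0 1073741824 536870912 50465866 (corT true 1 c0B cB202E gB0q2 gB0q2 gB0q0 gB1q0 true true)) t 1 1 1 = true :=
  ⟨(T.l 1), by decide +kernel⟩

def B202E_001 :
    ∃ t, chk3 (onCell 0 67108864 0 1073741824 536870912 50465866 (corT true 1 c0B cB202E gB0q2 gB0q2 gB1q0 gB2q0 true true)) t 1 1 1 = true :=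
  ⟨(T.l 1), by decide +kernel⟩

def B202E_002 :
    ∃ t, chk3 (onCell 0 67108864 0 1073741824 536870912 50465866 (corT true 1 c0B cB202E gB0q2 gB0q2 gB2q0 gB3q0 true true)) t 1 1 1 = true :=
  ⟨(T.l 1), by decide +kernel⟩

def B202E_003 :
    ∃ t, chk3 (onCell 0 67108864 0 1073741824 536870912 50465866 (corT true 1 c0B cB202E gB0q2 gB0q2 gB3q0 gB4q0 true false)) t 1 1 1 = true :=
  ⟨(T.l 1), by decide +kernel⟩

def B202E_010 :
    ∃ t, chk3 (onCell 0 67108864 0 1073741824 536870912 50465866 (corT true 1 c0B cB202E gB0q2 gB1q2 gB0q0 gB1q0 true true)) t 1 1 1 = true :=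
  ⟨(T.l 1), by decide +kernel⟩

def B202E_011 :
    ∃ t, chk3 (onCell 0 67108864 0 1073741824 536870912 50465866 (corT true 1 c0B cB202E gB0q2 gB1q2 gB1q0 gB2q0 true true)) t 1 1 1 = true :=
  ⟨(T.l 1), by decide +kernel⟩

def B202E_012 :
    ∃ t, chk3 (onCell 0 67108864 0 1073741824 536870912 50465866 (corT true 1 c0B cB202E gB0q2 gB1q2 gB2q0 gB3q0 true true)) t 1 1 1 = true :=
  ⟨(T.l 1), by decide +kernel⟩

def B202E_013 :
    ∃ t, chk3 (onCell 0 67108864 0 1073741824 536870912 50465866 (corT true 1 c0B cB202E gB0q2 gB1q2 gB3q0 gB4q0 true false)) t 1 1 1 = true :=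
  ⟨(T.l 1), by decide +kernel⟩

def B202E_020 :
    ∃ t, chk3 (onCell 0 67108864 0 1073741824 536870912 50465866 (corT true 1 c0B cB202E gB0q2 gB2q2 gB0q0 gB1q0 true true)) t 1 1 1 = true :=
  ⟨(T.l 1), by decide +kernel⟩

def B202E_021 :
    ∃ t, chk3 (onCell 0 67108864 0 1073741824 536870912 50465866 (corT true 1 c0B cB202E gB0q2 gB2q2 gB1q0 gB2q0 true true)) t 1 1 1 = true :=
  ⟨(T.l 1), by decide +kernel⟩

def B202E_022 :
    ∃ t, chk3 (onCell 0 67108864 0 1073741824 536870912 50465866 (corT true 1 c0B cB202E gB0q2 gB2q2 gB2q0 gB3q0 true true)) t 1 1 1 = true :=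
  ⟨(T.l 1), by decide +kernel⟩

def B202E_023 :
    ∃ t, chk3 (onCell 0 67108864 0 1073741824 536870912 50465866 (corT true 1 c0B cB202E gB0q2 gB2q2 gB3q0 gB4q0 true false)) t 1 1 1 = true :=
  ⟨(T.l 1), by decide +kernel⟩

def B202E_030 :
    ∃ t, chk3 (onCell 0 67108864 0 1073741824 536870912 50465866 (corT true 1 c0B cB202E gB0q2 gB3q2 gB0q0 gB1q0 true true)) t 1 1 1 = true :=
  ⟨(T.b (T.l 1) (T.l 1)), by decide +kernel⟩

def B202E_031 :
    ∃ t, chk3 (onCell 0 67108864 0 1073741824 536870912 50465866 (corT true 1 c0B cB202E gB0q2 gB3q2 gB1q0 gB2q0 true true)) t 1 1 1 = true :=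
  ⟨(T.l 1), by decide +kernel⟩

def B202E_032 :
    ∃ t, chk3 (onCell 0 67108864 0 1073741824 536870912 50465866 (corT true 1 c0B cB202E gB0q2 gB3q2 gB2q0 gB3q0 true true)) t 1 1 1 = true :=
  ⟨(T.l 1), by decide +kernel⟩

def B202E_033 :
    ∃ t, chk3 (onCell 0 67108864 0 1073741824 536870912 50465866 (corT true 1 c0B cB202E gB0q2 gB3q2 gB3q0 gB4q0 true false)) t 1 1 1 = true :=
  ⟨(T.l 1), by decide +kernel⟩

def B202E_100 :
    ∃ t, chk3 (onCell 0 67108864 0 1073741824 536870912 50465866 (corT true 1 c0B cB202E gB1q2 gB0q2 gB0q0 gB1q0 true true)) t 1 1 1 = true :=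
  ⟨(T.l 1), by decide +kernel⟩

def B202E_101 :
    ∃ t, chk3 (onCell 0 67108864 0 1073741824 536870912 50465866 (corT true 1 c0B cB202E gB1q2 gB0q2 gB1q0 gB2q0 true true)) t 1 1 1 = true :=
  ⟨(T.l 1), by decide +kernel⟩

def B202E_102 :
    ∃ t, chk3 (onCell 0 67108864 0 1073741824 536870912 50465866 (corT true 1 c0B cB202E gB1q2 gB0q2 gB2q0 gB3q0 true true)) t 1 1 1 = true :=
  ⟨(T.l 1), by decide +kernel⟩

def B202E_103 :
    ∃ t, chk3 (onCell 0 67108864 0 1073741824 536870912 50465866 (corT true 1 c0B cB202E gB1q2 gB0q2 gB3q0 gB4q0 true false)) t 1 1 1 = true :=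
  ⟨(T.l 1), by decide +kernel⟩

def B202E_110 :
    ∃ t, chk3 (onCell 0 67108864 0 1073741824 536870912 50465866 (corT true 1 c0B cB202E gB1q2 gB1q2 gB0q0 gB1q0 true true)) t 1 1 1 = true :=
  ⟨(T.l 1), by decide +kernel⟩

def B202E_111 :
    ∃ t, chk3 (onCell 0 67108864 0 1073741824 536870912 50465866 (corT true 1 c0B cB202E gB1q2 gB1q2 gB1q0 gB2q0 true true)) t 1 1 1 = true :=
  ⟨(T.l 1), by decide +kernel⟩

def B202E_112 :
    ∃ t, chk3 (onCell 0 67108864 0 1073741824 536870912 50465866 (corT true 1 c0B cB202E gB1q2 gB1q2 gB2q0 gB3q0 true true)) t 1 1 1 = true :=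
  ⟨(T.l 1), by decide +kernel⟩

def B202E_113 :
    ∃ t, chk3 (onCell 0 67108864 0 1073741824 536870912 50465866 (corT true 1 c0B cB202E gB1q2 gB1q2 gB3q0 gB4q0 true false)) t 1 1 1 = true :=
  ⟨(T.l 1), by decide +kernel⟩

def B202E_120 :
    ∃ t, chk3 (onCell 0 67108864 0 1073741824 536870912 50465866 (corT true 1 c0B cB202E gB1q2 gB2q2 gB0q0 gB1q0 true true)) t 1 1 1 = true :=
  ⟨(T.l 1), by decide +kernel⟩

def B202E_121 :
    ∃ t, chk3 (onCell 0 67108864 0 1073741824 536870912 50465866 (corT true 1 c0B cB202E gB1q2 gB2q2 gB1q0 gB2q0 true true)) t 1 1 1 = true :=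
  ⟨(T.l 1), by decide +kernel⟩

def B202E_122 :
    ∃ t, chk3 (onCell 0 67108864 0 1073741824 536870912 50465866 (corT true 1 c0B cB202E gB1q2 gB2q2 gB2q0 gB3q0 true true)) t 1 1 1 = true :=
  ⟨(T.l 1), by decide +kernel⟩

def B202E_123 :
    ∃ t, chk3 (onCell 0 67108864 0 1073741824 536870912 50465866 (corT true 1 c0B cB202E gB1q2 gB2q2 gB3q0 gB4q0 true false)) t 1 1 1 = true :=
  ⟨(T.l 1), by decide +kernel⟩

def B202E_130 :
    ∃ t, chk3 (onCell 0 67108864 0 1073741824 536870912 50465866 (corT true 1 c0B cB202E gB1q2 gB3q2 gB0q0 gB1q0 true true)) t 1 1 1 = true :=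
  ⟨(T.l 1), by decide +kernel⟩

def B202E_131 :
    ∃ t, chk3 (onCell 0 67108864 0 1073741824 536870912 50465866 (corT true 1 c0B cB202E gB1q2 gB3q2 gB1q0 gB2q0 true true)) t 1 1 1 = true :=
  ⟨(T.l 1), by decide +kernel⟩

def B202E_132 :
    ∃ t, chk3 (onCell 0 67108864 0 1073741824 536870912 50465866 (corT true 1 c0B cB202E gB1q2 gB3q2 gB2q0 gB3q0 true true)) t 1 1 1 = true :=
  ⟨(T.l 1), by decide +kernel⟩

def B202E_133 :
    ∃ t, chk3 (onCell 0 67108864 0 1073741824 536870912 50465866 (corT true 1 c0B cB202E gB1q2 gB3q2 gB3q0 gB4q0 true false)) t 1 1 1 = true :=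
  ⟨(T.l 1), by decide +kernel⟩

def B202E_200 :
    ∃ t, chk3 (onCell 0 67108864 0 1073741824 536870912 50465866 (corT true 1 c0B cB202E gB2q2 gB0q2 gB0q0 gB1q0 true true)) t 1 1 1 = true :=
  ⟨(T.l 1), by decide +kernel⟩

def B202E_201 :
    ∃ t, chk3 (onCell 0 67108864 0 1073741824 536870912 50465866 (corT true 1 c0B cB202E gB2q2 gB0q2 gB1q0 gB2q0 true true)) t 1 1 1 = true :=
  ⟨(T.l 1), by decide +kernel⟩

def B202E_202 :
    ∃ t, chk3 (onCell 0 67108864 0 1073741824 536870912 50465866 (corT true 1 c0B cB202E gB2q2 gB0q2 gB2q0 gB3q0 true true)) t 1 1 1 = true :=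
  ⟨(T.l 1), by decide +kernel⟩

def B202E_203 :
    ∃ t, chk3 (onCell 0 67108864 0 1073741824 536870912 50465866 (corT true 1 c0B cB202E gB2q2 gB0q2 gB3q0 gB4q0 true false)) t 1 1 1 = true :=
  ⟨(T.l 1), by decide +kernel⟩

def B202E_210 :
    ∃ t, chk3 (onCell 0 67108864 0 1073741824 536870912 50465866 (corT true 1 c0B cB202E gB2q2 gB1q2 gB0q0 gB1q0 true true)) t 1 1 1 = true :=
  ⟨(T.l 1), by decide +kernel⟩

def B202E_211 :
    ∃ t, chk3 (onCell 0 67108864 0 1073741824 536870912 50465866 (corT true 1 c0B cB202E gB2q2 gB1q2 gB1q0 gB2q0 true true)) t 1 1 1 = true :=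
  ⟨(T.l 1), by decide +kernel⟩

def B202E_212 :
    ∃ t, chk3 (onCell 0 67108864 0 1073741824 536870912 50465866 (corT true 1 c0B cB202E gB2q2 gB1q2 gB2q0 gB3q0 true true)) t 1 1 1 = true :=
  ⟨(T.l 1), by decide +kernel⟩

def B202E_213 :
    ∃ t, chk3 (onCell 0 67108864 0 1073741824 536870912 50465866 (corT true 1 c0B cB202E gB2q2 gB1q2 gB3q0 gB4q0 true false)) t 1 1 1 = true :=
  ⟨(T.l 1), by decide +kernel⟩

def B202E_220 :
    ∃ t, chk3 (onCell 0 67108864 0 1073741824 536870912 50465866 (corT true 1 c0B cB202E gB2q2 gB2q2 gB0q0 gB1q0 true true)) t 1 1 1 = true :=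
  ⟨(T.l 1), by decide +kernel⟩

def B202E_221 :
    ∃ t, chk3 (onCell 0 67108864 0 1073741824 536870912 50465866 (corT true 1 c0B cB202E gB2q2 gB2q2 gB1q0 gB2q0 true true)) t 1 1 1 = true :=
  ⟨(T.l 1), by decide +kernel⟩

def B202E_222 :
    ∃ t, chk3 (onCell 0 67108864 0 1073741824 536870912 50465866 (corT true 1 c0B cB202E gB2q2 gB2q2 gB2q0 gB3q0 true true)) t 1 1 1 = true :=
  ⟨(T.l 1), by decide +kernel⟩

def B202E_223 :
    ∃ t, chk3 (onCell 0 67108864 0 1073741824 536870912 50465866 (corT true 1 c0B cB202E gB2q2 gB2q2 gB3q0 gB4q0 true false)) t 1 1 1 = true :=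
  ⟨(T.l 1), by decide +kernel⟩

def B202E_230 :
    ∃ t, chk3 (onCell 0 67108864 0 1073741824 536870912 50465866 (corT true 1 c0B cB202E gB2q2 gB3q2 gB0q0 gB1q0 true true)) t 1 1 1 = true :=
  ⟨(T.l 1), by decide +kernel⟩

def B202E_231 :
    ∃ t, chk3 (onCell 0 67108864 0 1073741824 536870912 50465866 (corT true 1 c0B cB202E gB2q2 gB3q2 gB1q0 gB2q0 true true)) t 1 1 1 = true :=
  ⟨(T.l 1), by decide +kernel⟩

def B202E_232 :
    ∃ t, chk3 (onCell 0 67108864 0 1073741824 536870912 50465866 (corT true 1 c0B cB202E gB2q2 gB3q2 gB2q0 gB3q0 true true)) t 1 1 1 = true :=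
  ⟨(T.l 1), by decide +kernel⟩

def B202E_233 :
    ∃ t, chk3 (onCell 0 67108864 0 1073741824 536870912 50465866 (corT true 1 c0B cB202E gB2q2 gB3q2 gB3q0 gB4q0 true false)) t 1 1 1 = true :=
  ⟨(T.l 1), by decide +kernel⟩

def B202E_300 :
    ∃ t, chk3 (onCell 0 67108864 0 1073741824 536870912 50465866 (corT true 1 c0B cB202E gB3q2 gB0q2 gB0q0 gB1q0 true true)) t 1 1 1 = true :=
  ⟨(T.l 1), by decide +kernel⟩

def B202E_301 :
    ∃ t, chk3 (onCell 0 67108864 0 1073741824 536870912 50465866 (corT true 1 c0B cB202E gB3q2 gB0q2 gB1q0 gB2q0 true true)) t 1 1 1 = true :=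
  ⟨(T.l 1), by decide +kernel⟩

def B202E_302 :
    ∃ t, chk3 (onCell 0 67108864 0 1073741824 536870912 50465866 (corT true 1 c0B cB202E gB3q2 gB0q2 gB2q0 gB3q0 true true)) t 1 1 1 = true :=
  ⟨(T.l 1), by decide +kernel⟩

def B202E_303 :
    ∃ t, chk3 (onCell 0 67108864 0 1073741824 536870912 50465866 (corT true 1 c0B cB202E gB3q2 gB0q2 gB3q0 gB4q0 true false)) t 1 1 1 = true :=
  ⟨(T.l 1), by decide +kernel⟩

def B202E_310 :
    ∃ t, chk3 (onCell 0 67108864 0 1073741824 536870912 50465866 (corT true 1 c0B cB202E gB3q2 gB1q2 gB0q0 gB1q0 true true)) t 1 1 1 = true :=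
  ⟨(T.l 1), by decide +kernel⟩

def B202E_311 :
    ∃ t, chk3 (onCell 0 67108864 0 1073741824 536870912 50465866 (corT true 1 c0B cB202E gB3q2 gB1q2 gB1q0 gB2q0 true true)) t 1 1 1 = true :=
  ⟨(T.l 1), by decide +kernel⟩

def B202E_312 :
    ∃ t, chk3 (onCell 0 67108864 0 1073741824 536870912 50465866 (corT true 1 c0B cB202E gB3q2 gB1q2 gB2q0 gB3q0 true true)) t 1 1 1 = true :=
  ⟨(T.l 1), by decide +kernel⟩

def B202E_313 :
    ∃ t, chk3 (onCell 0 67108864 0 1073741824 536870912 50465866 (corT true 1 c0B cB202E gB3q2 gB1q2 gB3q0 gB4q0 true false)) t 1 1 1 = true :=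
  ⟨(T.l 1), by decide +kernel⟩

def B202E_320 :
    ∃ t, chk3 (onCell 0 67108864 0 1073741824 536870912 50465866 (corT true 1 c0B cB202E gB3q2 gB2q2 gB0q0 gB1q0 true true)) t 1 1 1 = true :=
  ⟨(T.l 1), by decide +kernel⟩

def B202E_321 :
    ∃ t, chk3 (onCell 0 67108864 0 1073741824 536870912 50465866 (corT true 1 c0B cB202E gB3q2 gB2q2 gB1q0 gB2q0 true true)) t 1 1 1 = true :=
  ⟨(T.l 1), by decide +kernel⟩

def B202E_322 :
    ∃ t, chk3 (onCell 0 67108864 0 1073741824 536870912 50465866 (corT true 1 c0B cB202E gB3q2 gB2q2 gB2q0 gB3q0 true true)) t 1 1 1 = true :=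
  ⟨(T.l 1), by decide +kernel⟩

def B202E_323 :
    ∃ t, chk3 (onCell 0 67108864 0 1073741824 536870912 50465866 (corT true 1 c0B cB202E gB3q2 gB2q2 gB3q0 gB4q0 true false)) t 1 1 1 = true :=
  ⟨(T.l 1), by decide +kernel⟩

def B202E_330 :
    ∃ t, chk3 (onCell 0 67108864 0 1073741824 536870912 50465866 (corT true 1 c0B cB202E gB3q2 gB3q2 gB0q0 gB1q0 true true)) t 1 1 1 = true :=
  ⟨(T.l 1), by decide +kernel⟩

def B202E_331 :
    ∃ t, chk3 (onCell 0 67108864 0 1073741824 536870912 50465866 (corT true 1 c0B cB202E gB3q2 gB3q2 gB1q0 gB2q0 true true)) t 1 1 1 = true :=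
  ⟨(T.l 1), by decide +kernel⟩

def B202E_332 :
    ∃ t, chk3 (onCell 0 67108864 0 1073741824 536870912 50465866 (corT true 1 c0B cB202E gB3q2 gB3q2 gB2q0 gB3q0 true true)) t 1 1 1 = true :=
  ⟨(T.l 1), by decide +kernel⟩

def B202E_333 :
    ∃ t, chk3 (onCell 0 67108864 0 1073741824 536870912 50465866 (corT true 1 c0B cB202E gB3q2 gB3q2 gB3q0 gB4q0 true false)) t 1 1 1 = true :=
  ⟨(T.l 1), by decide +kernel⟩

def B202L_600 :
    ∃ t, chk3 (onCell 0 67108864 0 1073741824 536870912 50465866 (corT true 1 c0B cB202L gB6q2 gB0q2 gB0q0 gB1q0 true true)) t 1 1 1 = true :=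
  ⟨(T.l 2), by decide +kernel⟩

def B202L_601 :
    ∃ t, chk3 (onCell 0 67108864 0 1073741824 536870912 50465866 (corT true 1 c0B cB202L gB6q2 gB0q2 gB1q0 gB2q0 true true)) t 1 1 1 = true :=
  ⟨(T.l 2), by decide +kernel⟩

def B202L_602 :
    ∃ t, chk3 (onCell 0 67108864 0 1073741824 536870912 50465866 (corT true 1 c0B cB202L gB6q2 gB0q2 gB2q0 gB3q0 true true)) t 1 1 1 = true :=
  ⟨(T.l 2), by decide +kernel⟩

def B202L_603 :
    ∃ t, chk3 (onCell 0 67108864 0 1073741824 536870912 50465866 (corT true 1 c0B cB202L gB6q2 gB0q2 gB3q0 gB4q0 true false)) t 1 1 1 = true :=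
  ⟨(T.a (T.a (T.l 204) (T.l 204)) (T.a (T.l 204) (T.l 204))), by decide +kernel⟩

def B202L_610 :
    ∃ t, chk3 (onCell 0 67108864 0 1073741824 536870912 50465866 (corT true 1 c0B cB202L gB6q2 gB1q2 gB0q0 gB1q0 true true)) t 1 1 1 = true :=
  ⟨(T.l 2), by decide +kernel⟩

def B202L_611 :
    ∃ t, chk3 (onCell 0 67108864 0 1073741824 536870912 50465866 (corT true 1 c0B cB202L gB6q2 gB1q2 gB1q0 gB2q0 true true)) t 1 1 1 = true :=
  ⟨(T.l 2), by decide +kernel⟩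

def B202L_612 :
    ∃ t, chk3 (onCell 0 67108864 0 1073741824 536870912 50465866 (corT true 1 c0B cB202L gB6q2 gB1q2 gB2q0 gB3q0 true true)) t 1 1 1 = true :=
  ⟨(T.l 2), by decide +kernel⟩

def B202L_613 :
    ∃ t, chk3 (onCell 0 67108864 0 1073741824 536870912 50465866 (corT true 1 c0B cB202L gB6q2 gB1q2 gB3q0 gB4q0 true false)) t 1 1 1 = true :=
  ⟨(T.a (T.a (T.l 204) (T.l 204)) (T.b (T.l 204) (T.l 220))), by decide +kernel⟩

def B202L_620 :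
    ∃ t, chk3 (onCell 0 67108864 0 1073741824 536870912 50465866 (corT true 1 c0B cB202L gB6q2 gB2q2 gB0q0 gB1q0 true true)) t 1 1 1 = true :=
  ⟨(T.l 2), by decide +kernel⟩

def B202L_621 :
    ∃ t, chk3 (onCell 0 67108864 0 1073741824 536870912 50465866 (corT true 1 c0B cB202L gB6q2 gB2q2 gB1q0 gB2q0 true true)) t 1 1 1 = true :=
  ⟨(T.l 2), by decide +kernel⟩

def B202L_622 :
    ∃ t, chk3 (onCell 0 67108864 0 1073741824 536870912 50465866 (corT true 1 c0B cB202L gB6q2 gB2q2 gB2q0 gB3q0 true true)) t 1 1 1 = true :=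
  ⟨(T.b (T.a (T.a (T.l 204) (T.l 204)) (T.l 204)) (T.l 2)), by decide +kernel⟩

def B202L_623 :
    ∃ t, chk3 (onCell 0 67108864 0 1073741824 536870912 50465866 (corT true 1 c0B cB202L gB6q2 gB2q2 gB3q0 gB4q0 true false)) t 1 1 1 = true :=
  ⟨(T.a (T.a (T.l 204) (T.l 0)) (T.b (T.l 204) (T.l 204))), by decide +kernel⟩

def B202L_630 :
    ∃ t, chk3 (onCell 0 67108864 0 1073741824 536870912 50465866 (corT true 1 c0B cB202L gB6q2 gB3q2 gB0q0 gB1q0 true true)) t 1 1 1 = true :=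
  ⟨(T.b (T.b (T.l 2) (T.a (T.a (T.l 204) (T.l 204)) (T.l 204))) (T.b (T.a (T.a (T.l 0) (T.l 0)) (T.l 0)) (T.l 1))), by decide +kernel⟩

def B202L_631 :
    ∃ t, chk3 (onCell 0 67108864 0 1073741824 536870912 50465866 (corT true 1 c0B cB202L gB6q2 gB3q2 gB1q0 gB2q0 true true)) t 1 1 1 = true :=
  ⟨(T.b (T.a (T.a (T.l 204) (T.l 204)) (T.l 0)) (T.b (T.a (T.l 1) (T.l 0)) (T.l 1))), by decide +kernel⟩

def B202L_632 :
    ∃ t, chk3 (onCell 0 67108864 0 1073741824 536870912 50465866 (corT true 1 c0B cB202L gB6q2 gB3q2 gB2q0 gB3q0 true true)) t 1 1 1 = true :=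
  ⟨(T.l 1), by decide +kernel⟩

def B202L_633 :
    ∃ t, chk3 (onCell 0 67108864 0 1073741824 536870912 50465866 (corT true 1 c0B cB202L gB6q2 gB3q2 gB3q0 gB4q0 true false)) t 1 1 1 = true :=
  ⟨(T.l 1), by decide +kernel⟩

def B202R_060 :
    ∃ t, chk3 (onCell 0 67108864 0 1073741824 536870912 50465866 (corX 1 c0B cB202R tB202R gB0q2 gB6q2 gB0q0 gB1q0 gB0q0 true true)) t 1 1 1 = true :=
  ⟨(T.b (T.b (T.l 1) (T.b (T.a (T.l 207) (T.l 207)) (T.b (T.a (T.l 207) (T.l 207)) (T.l 2)))) (T.l 2)), by decide +kernel⟩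

def B202R_061 :
    ∃ t, chk3 (onCell 0 67108864 0 1073741824 536870912 50465866 (corT true 1 c0B cB202R gB0q2 gB6q2 gB1q0 gB2q0 true true)) t 1 1 1 = true :=
  ⟨(T.b (T.b (T.l 1) (T.b (T.l 1) (T.b (T.l 204) (T.a (T.l 204) (T.a (T.l 204) (T.l 204)))))) (T.b (T.a (T.l 204) (T.b (T.b (T.a (T.l 204) (T.l 204)) (T.l 2)) (T.l 2))) (T.l 2))), by decide +kernel⟩

def B202R_062 :
    ∃ t, chk3 (onCell 0 67108864 0 1073741824 536870912 50465866 (corT true 1 c0B cB202R gB0q2 gB6q2 gB2q0 gB3q0 true true)) t 1 1 1 = true :=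
  ⟨(T.b (T.b (T.l 1) (T.b (T.l 1) (T.a (T.l 1) (T.b (T.l 1) (T.a (T.l 1) (T.l 204)))))) (T.b (T.a (T.l 204) (T.b (T.a (T.l 204) (T.b (T.l 204) (T.l 204))) (T.l 2))) (T.l 2))), by decide +kernel⟩

def B202R_063 :
    ∃ t, chk3 (onCell 0 67108864 0 1073741824 536870912 50465866 (corT true 1 c0B cB202R gB0q2 gB6q2 gB3q0 gB4q0 true false)) t 1 1 1 = true :=
  ⟨(T.b (T.l 1) (T.b (T.a (T.l 0) (T.a (T.b (T.l 0) (T.l 0)) (T.b (T.l 0) (T.l 204)))) (T.b (T.a (T.l 204) (T.a (T.l 204) (T.l 204))) (T.a (T.a (T.l 204) (T.l 204)) (T.a (T.l 204) (T.l 204)))))), by decide +kernel⟩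

def B202R_160 :
    ∃ t, chk3 (onCell 0 67108864 0 1073741824 536870912 50465866 (corT true 1 c0B cB202R gB1q2 gB6q2 gB0q0 gB1q0 true true)) t 1 1 1 = true :=
  ⟨(T.b (T.b (T.l 1) (T.b (T.b (T.l 1) (T.b (T.l 1) (T.b (T.l 1) (T.b (T.l 1) (T.a (T.a (T.l 1) (T.a (T.l 1) (T.l 0))) (T.l 0)))))) (T.b (T.a (T.a (T.b (T.l 0) (T.l 204)) (T.l 0)) (T.l 0)) (T.b (T.l 204) (T.l 2))))) (T.b (T.l 2) (T.l 2))), by decide +kernel⟩

def B202R_161 :
    ∃ t, chk3 (onCell 0 67108864 0 1073741824 536870912 50465866 (corT true 1 c0B cB202R gB1q2 gB6q2 gB1q0 gB2q0 true true)) t 1 1 1 = true :=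
  ⟨(T.b (T.b (T.l 1) (T.b (T.l 1) (T.b (T.b (T.l 1) (T.l 204)) (T.a (T.l 204) (T.a (T.l 204) (T.l 0)))))) (T.b (T.a (T.l 204) (T.b (T.a (T.l 204) (T.l 0)) (T.l 2))) (T.l 2))), by decide +kernel⟩

def B202R_162 :
    ∃ t, chk3 (onCell 0 67108864 0 1073741824 536870912 50465866 (corT true 1 c0B cB202R gB1q2 gB6q2 gB2q0 gB3q0 true true)) t 1 1 1 = true :=
  ⟨(T.b (T.l 1) (T.b (T.b (T.a (T.l 204) (T.a (T.l 204) (T.l 0))) (T.a (T.l 204) (T.a (T.l 0) (T.l 204)))) (T.l 2))), by decide +kernel⟩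

def B202R_163 :
    ∃ t, chk3 (onCell 0 67108864 0 1073741824 536870912 50465866 (corT true 1 c0B cB202R gB1q2 gB6q2 gB3q0 gB4q0 true false)) t 1 1 1 = true :=
  ⟨(T.b (T.l 1) (T.b (T.b (T.l 1) (T.a (T.l 204) (T.a (T.l 0) (T.l 204)))) (T.b (T.a (T.l 204) (T.a (T.l 204) (T.l 204))) (T.a (T.a (T.l 204) (T.b (T.l 204) (T.l 204))) (T.a (T.l 204) (T.l 204)))))), by decide +kernel⟩

def B202R_260 :
    ∃ t, chk3 (onCell 0 67108864 0 1073741824 536870912 50465866 (corT true 1 c0B cB202R gB2q2 gB6q2 gB0q0 gB1q0 true true)) t 1 1 1 = true :=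
  ⟨(T.b (T.l 1) (T.b (T.b (T.b (T.b (T.a (T.l 1) (T.a (T.l 1) (T.a (T.l 1) (T.l 0)))) (T.a (T.l 0) (T.a (T.l 0) (T.l 0)))) (T.a (T.l 0) (T.a (T.l 0) (T.l 0)))) (T.a (T.l 204) (T.l 2))) (T.l 2))), by decide +kernel⟩

def B202R_261 :
    ∃ t, chk3 (onCell 0 67108864 0 1073741824 536870912 50465866 (corT true 1 c0B cB202R gB2q2 gB6q2 gB1q0 gB2q0 true true)) t 1 1 1 = true :=
  ⟨(T.b (T.l 1) (T.b (T.b (T.b (T.l 1) (T.a (T.l 0) (T.a (T.l 204) (T.l 0)))) (T.a (T.l 204) (T.a (T.b (T.l 0) (T.l 0)) (T.l 0)))) (T.b (T.l 2) (T.l 2)))), by decide +kernel⟩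

def B202R_262 :
    ∃ t, chk3 (onCell 0 67108864 0 1073741824 536870912 50465866 (corT true 1 c0B cB202R gB2q2 gB6q2 gB2q0 gB3q0 true true)) t 1 1 1 = true :=
  ⟨(T.b (T.l 1) (T.b (T.b (T.l 1) (T.a (T.l 204) (T.a (T.b (T.l 1) (T.l 0)) (T.l 0)))) (T.b (T.a (T.l 204) (T.a (T.l 0) (T.l 204))) (T.l 2)))), by decide +kernel⟩

def B202R_263 :
    ∃ t, chk3 (onCell 0 67108864 0 1073741824 536870912 50465866 (corT true 1 c0B cB202R gB2q2 gB6q2 gB3q0 gB4q0 true false)) t 1 1 1 = true :=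
  ⟨(T.b (T.l 1) (T.b (T.l 1) (T.b (T.a (T.l 0) (T.a (T.l 0) (T.l 0))) (T.a (T.a (T.l 204) (T.l 256)) (T.b (T.l 0) (T.l 256)))))), by decide +kernel⟩

def B202R_360 :
    ∃ t, chk3 (onCell 0 67108864 0 1073741824 536870912 50465866 (corT true 1 c0B cB202R gB3q2 gB6q2 gB0q0 gB1q0 true true)) t 1 1 1 = true :=
  ⟨(T.l 1), by decide +kernel⟩

def B202R_361 :
    ∃ t, chk3 (onCell 0 67108864 0 1073741824 536870912 50465866 (corT true 1 c0B cB202R gB3q2 gB6q2 gB1q0 gB2q0 true true)) t 1 1 1 = true :=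
  ⟨(T.l 1), by decide +kernel⟩

def B202R_362 :
    ∃ t, chk3 (onCell 0 67108864 0 1073741824 536870912 50465866 (corT true 1 c0B cB202R gB3q2 gB6q2 gB2q0 gB3q0 true true)) t 1 1 1 = true :=
  ⟨(T.l 1), by decide +kernel⟩

def B202R_363 :
    ∃ t, chk3 (onCell 0 67108864 0 1073741824 536870912 50465866 (corT true 1 c0B cB202R gB3q2 gB6q2 gB3q0 gB4q0 true false)) t 1 1 1 = true :=
  ⟨(T.l 1), by decide +kernel⟩

end Pool.Agent.Strip051.G.I5000_5470.Tab.CG
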