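import Pool.Agent.Strip051.G.I5000_5470.Gn
import Pool.Agent.Strip051.PB.Corns
import Pool.Agent.Strip051.PB.CornW

/-! # Certificates of the aligned corners (generated) -/

set_option linter.all false

namespace Pool.Agent.Strip051.G.I5000_5470.Tab.CW

open Pool.Agent.Strip051.PB

def B101L_600 :
    ∃ t, chk3 (onCell 0 67108864 0 1073741824 536870912 50465866 (corW 3 c0B eng mog cB101L gB6q1 gB0q1 gB0q0 gB1q0 dB6q1 dB0q1 dB0q0 dB1q0 true true)) t 1 1 1 = true :=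
  ⟨(T.b (T.l 1) (T.b (T.b (T.l 1) (T.b (T.b (T.l 1) (T.b (T.b (T.a (T.a (T.l 1) (T.b (T.l 1) (T.b (T.l 1) (T.a (T.l 1) (T.b (T.l 1) (T.a (T.b (T.l 1) (T.l 0)) (T.l 0))))))) (T.b (T.a (T.l 1) (T.a (T.l 1) (T.a (T.l 1) (T.b (T.l 1) (T.b (T.l 1) (T.b (T.l 1) (T.l 0))))))) (T.a (T.b (T.a (T.l 1) (T.b (T.l 1) (T.a (T.b (T.l 1) (T.l 0)) (T.c (T.l 0) (T.l 0))))) (T.a (T.a (T.b (T.b (T.l 1) (T.l 0)) (T.l 0)) (T.l 0)) (T.l 0))) (T.a (T.b (T.b (T.b (T.l 1) (T.c (T.l 0) (T.c (T.l 0) (T.a (T.l 0) (T.l 0))))) (T.l 0)) (T.l 204)) (T.l 0))))) (T.a (T.b (T.a (T.b (T.a (T.a (T.l 1) (T.b (T.l 1) (T.b (T.l 1) (T.l 0)))) (T.b (T.a (T.l 1) (T.a (T.l 1) (T.b (T.l 1) (T.l 0)))) (T.c (T.l 0) (T.c (T.l 0) (T.l 0))))) (T.c (T.l 0) (T.a (T.l 0) (T.l 0)))) (T.a (T.a (T.c (T.l 0) (T.c (T.l 0) (T.a (T.c (T.l 0) (T.b (T.c (T.l 0) (T.a (T.b (T.b (T.l 1) (T.l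 0)) (T.l 204)) (T.l 0))) (T.l 204))) (T.l 0)))) (T.l 0)) (T.l 0))) (T.l 0)) (T.a (T.l 0) (T.l 204)))) (T.a (T.l 0) (T.l 204)))) (T.a (T.l 204) (T.l 204)))) (T.b (T.a (T.l 204) (T.l 204)) (T.l 2)))), by decide +kernel⟩

def B101L_601 :
    ∃ t, chk3 (onCell 0 67108864 0 1073741824 536870912 50465866 (corW 3 c0B eng mog cB101L gB6q1 gB0q1 gB1q0 gB2q0 dB6q1 dB0q1 dB1q0 dB2q0 true true)) t 1 1 1 = true :=
  ⟨(T.b (T.l 1) (T.b (T.b (T.l 1) (T.b (T.l 1) (T.a (T.l 1) (T.l 204)))) (T.b (T.l 204) (T.l 204)))), by decide +kernel⟩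

def B101L_602 :
    ∃ t, chk3 (onCell 0 67108864 0 1073741824 536870912 50465866 (corW 3 c0B eng mog cB101L gB6q1 gB0q1 gB2q0 gB3q0 dB6q1 dB0q1 dB2q0 dB3q0 true true)) t 1 1 1 = true :=
  ⟨(T.b (T.l 1) (T.l 1)), by decide +kernel⟩

def B101L_603 :
    ∃ t, chk3 (onCell 0 67108864 0 1073741824 536870912 50465866 (corW 3 c0B eng mog cB101L gB6q1 gB0q1 gB3q0 gB4q0 dB6q1 dB0q1 dB3q0 dB4q0 true false)) t 1 1 1 = true :=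
  ⟨(T.l 1), by decide +kernel⟩

def B101R_040 :
    ∃ t, chk3 (onCell 0 67108864 0 1073741824 536870912 50465866 (corW 3 c0B eng mog cB101R gB0q1 gB4q1 gB0q0 gB1q0 dB0q1 dB4q1 dB0q0 dB1q0 true true)) t 1 1 1 = true :=
  ⟨(T.l 1), by decide +kernel⟩

def B101R_041 :
    ∃ t, chk3 (onCell 0 67108864 0 1073741824 536870912 50465866 (corW 3 c0B eng mog cB101R gB0q1 gB4q1 gB1q0 gB2q0 dB0q1 dB4q1 dB1q0 dB2q0 true true)) t 1 1 1 = true :=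
  ⟨(T.l 1), by decide +kernel⟩

def B101R_042 :
    ∃ t, chk3 (onCell 0 67108864 0 1073741824 536870912 50465866 (corW 3 c0B eng mog cB101R gB0q1 gB4q1 gB2q0 gB3q0 dB0q1 dB4q1 dB2q0 dB3q0 true true)) t 1 1 1 = true :=
  ⟨(T.l 1), by decide +kernel⟩

def B101R_043 :
    ∃ t, chk3 (onCell 0 67108864 0 1073741824 536870912 50465866 (corW 3 c0B eng mog cB101R gB0q1 gB4q1 gB3q0 gB4q0 dB0q1 dB4q1 dB3q0 dB4q0 true false)) t 1 1 1 = true :=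
  ⟨(T.l 1), by decide +kernel⟩

def B101R_050 :
    ∃ t, chk3 (onCell 0 67108864 0 1073741824 536870912 50465866 (corW 3 c0B eng mog cB101R gB0q1 gB5q1 gB0q0 gB1q0 dB0q1 dB5q1 dB0q0 dB1q0 true true)) t 1 1 1 = true :=
  ⟨(T.l 1), by decide +kernel⟩

def B101R_051 :
    ∃ t, chk3 (onCell 0 67108864 0 1073741824 536870912 50465866 (corW 3 c0B eng mog cB101R gB0q1 gB5q1 gB1q0 gB2q0 dB0q1 dB5q1 dB1q0 dB2q0 true true)) t 1 1 1 = true :=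
  ⟨(T.l 1), by decide +kernel⟩

def B101R_052 :
    ∃ t, chk3 (onCell 0 67108864 0 1073741824 536870912 50465866 (corW 3 c0B eng mog cB101R gB0q1 gB5q1 gB2q0 gB3q0 dB0q1 dB5q1 dB2q0 dB3q0 true true)) t 1 1 1 = true :=
  ⟨(T.l 1), by decide +kernel⟩

def B101R_053 :
    ∃ t, chk3 (onCell 0 67108864 0 1073741824 536870912 50465866 (corW 3 c0B eng mog cB101R gB0q1 gB5q1 gB3q0 gB4q0 dB0q1 dB5q1 dB3q0 dB4q0 true false)) t 1 1 1 = true :=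
  ⟨(T.l 1), by decide +kernel⟩

def B101R_060 :
    ∃ t, chk3 (onCell 0 67108864 0 1073741824 536870912 50465866 (corW 3 c0B eng mog cB101R gB0q1 gB6q1 gB0q0 gB1q0 dB0q1 dB6q1 dB0q0 dB1q0 true true)) t 1 1 1 = true :=
  ⟨(T.l 1), by decide +kernel⟩

def B101R_061 :
    ∃ t, chk3 (onCell 0 67108864 0 1073741824 536870912 50465866 (corW 3 c0B eng mog cB101R gB0q1 gB6q1 gB1q0 gB2q0 dB0q1 dB6q1 dB1q0 dB2q0 true true)) t 1 1 1 = true :=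
  ⟨(T.l 1), by decide +kernel⟩

def B101R_062 :
    ∃ t, chk3 (onCell 0 67108864 0 1073741824 536870912 50465866 (corW 3 c0B eng mog cB101R gB0q1 gB6q1 gB2q0 gB3q0 dB0q1 dB6q1 dB2q0 dB3q0 true true)) t 1 1 1 = true :=
  ⟨(T.l 1), by decide +kernel⟩

def B101R_063 :
    ∃ t, chk3 (onCell 0 67108864 0 1073741824 536870912 50465866 (corW 3 c0B eng mog cB101R gB0q1 gB6q1 gB3q0 gB4q0 dB0q1 dB6q1 dB3q0 dB4q0 true false)) t 1 1 1 = true :=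
  ⟨(T.l 1), by decide +kernel⟩

def B102E_000_1_2_1 :
    ∃ t, chk3 (onCell 0 67108864 0 1073741824 536870912 50465866 (corW 3 c0B eng mog cB102E gB0q1 gB0q2 gB0q0 gB1q0 dB0q1 dB0q2 dB0q0 dB1q0 true true)) t 1 2 1 = true :=
  ⟨(T.b (T.l 1) (T.b (T.l 1) (T.a (T.b (T.l 1) (T.a (T.b (T.l 1) (T.a (T.b (T.l 1) (T.a (T.b (T.l 1) (T.a (T.b (T.l 1) (T.a (T.b (T.l 1) (T.a (T.b (T.l 1) (T.a (T.b (T.l 1) (T.a (T.l 0) (T.l 1))) (T.l 1))) (T.l 1))) (T.l 1))) (T.l 1))) (T.l 1))) (T.l 1))) (T.l 1))) (T.l 1)))), by decide +kernel⟩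

def B102E_000_4_96_1 :
    ∃ t, chk3 (onCell 0 67108864 0 1073741824 536870912 50465866 (corW 3 c0B eng mog cB102E gB0q1 gB0q2 gB0q0 gB1q0 dB0q1 dB0q2 dB0q0 dB1q0 true true)) t 4 96 1 = true :=
  ⟨(T.b (T.a (T.b (T.b (T.a (T.b (T.a (T.a (T.l 0) (T.b (T.b (T.l 1) (T.l 0)) (T.l 0))) (T.a (T.b (T.l 1) (T.b (T.a (T.l 0) (T.l 1)) (T.l 0))) (T.l 1))) (T.a (T.l 204) (T.c (T.l 0) (T.l 0)))) (T.a (T.b (T.l 1) (T.b (T.a (T.a (T.b (T.l 1) (T.l 0)) (T.l 1)) (T.l 1)) (T.a (T.l 0) (T.b (T.l 1) (T.l 0))))) (T.l 1))) (T.a (T.l 204) (T.a (T.l 0) (T.b (T.b (T.a (T.b (T.a (T.l 0) (T.l 1)) (T.l 0)) (T.l 1)) (T.c (T.l 0) (T.l 0))) (T.l 0))))) (T.c (T.l 204) (T.l 204))) (T.b (T.a (T.b (T.l 1) (T.b (T.a (T.a (T.a (T.a (T.b (T.l 1) (T.c (T.l 0) (T.l 0))) (T.l 1)) (T.l 1)) (T.l 1)) (T.l 1)) (T.a (T.a (T.l 0) (T.b (T.b (T.l 1) (T.l 0)) (T.l 0))) (T.a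 (T.b (T.l 1) (T.b (T.a (T.l 0) (T.l 1)) (T.l 0))) (T.l 1))))) (T.l 1)) (T.b (T.a (T.a (T.l 204) (T.c (T.l 0) (T.l 0))) (T.b (T.a (T.b (T.a (T.a (T.b (T.l 1) (T.l 0)) (T.l 1)) (T.l 1)) (T.a (T.l 0) (T.a (T.l 0) (T.l 1)))) (T.l 1)) (T.a (T.l 0) (T.b (T.a (T.c (T.l 0) (T.c (T.l 0) (T.l 0))) (T.l 1)) (T.c (T.l 0) (T.l 0)))))) (T.c (T.l 0) (T.l 0))))) (T.c (T.a (T.l 204) (T.l 204)) (T.a (T.l 204) (T.c (T.l 204) (T.l 204))))), by decide +kernel⟩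

def B102E_000_5_96_1 :
    ∃ t, chk3 (onCell 0 67108864 0 1073741824 536870912 50465866 (corW 3 c0B eng mog cB102E gB0q1 gB0q2 gB0q0 gB1q0 dB0q1 dB0q2 dB0q0 dB1q0 true true)) t 5 96 1 = true :=
  ⟨(T.b (T.a (T.b (T.l 1) (T.b (T.a (T.a (T.a (T.a (T.b (T.l 1) (T.a (T.l 1) (T.l 1))) (T.l 1)) (T.l 1)) (T.l 1)) (T.l 1)) (T.a (T.b (T.a (T.a (T.l 0) (T.b (T.a (T.l 0) (T.l 1)) (T.l 0))) (T.a (T.b (T.l 1) (T.b (T.l 1) (T.l 0))) (T.l 1))) (T.c (T.l 0) (T.l 0))) (T.a (T.b (T.l 1) (T.b (T.a (T.l 1) (T.l 1)) (T.a (T.l 0) (T.a (T.l 0) (T.l 1))))) (T.l 1))))) (T.l 1)) (T.a (T.a (T.c (T.l 204) (T.l 204)) (T.b (T.b (T.a (T.l 0) (T.b (T.b (T.a (T.c (T.l 0) (T.l 0)) (T.l 1)) (T.l 0)) (T.l 0))) (T.l 204)) (T.l 204))) (T.b (T.b (T.a (T.b (T.a (T.a (T.l 1) (T.l 1)) (T.l 1)) (T.a (T.a (T.l 0) (T.a (T.l 0) (T.b (T.l 1) (T.l 0)))) (T.a (T.b (T.l 1) (T.c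 (T.l 0) (T.l 0))) (T.l 1)))) (T.l 1)) (T.a (T.c (T.l 0) (T.c (T.l 0) (T.l 0))) (T.b (T.a (T.b (T.l 1) (T.a (T.l 0) (T.a (T.l 0) (T.l 1)))) (T.l 1)) (T.a (T.l 0) (T.b (T.a (T.c (T.l 0) (T.l 0)) (T.l 1)) (T.l 0)))))) (T.c (T.l 0) (T.l 0))))), by decide +kernel⟩

def B102E_000_2_97_1 :
    ∃ t, chk3 (onCell 0 67108864 0 1073741824 536870912 50465866 (corW 3 c0B eng mog cB102E gB0q1 gB0q2 gB0q0 gB1q0 dB0q1 dB0q2 dB0q0 dB1q0 true true)) t 2 97 1 = true :=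
  ⟨(T.a (T.c (T.a (T.l 204) (T.l 204)) (T.a (T.c (T.l 204) (T.l 204)) (T.c (T.l 204) (T.l 204)))) (T.c (T.b (T.a (T.l 204) (T.l 204)) (T.l 716)) (T.a (T.c (T.l 204) (T.l 204)) (T.c (T.l 204) (T.l 204))))), by decide +kernel⟩

def B102E_000_2_49_1 :
    ∃ t, chk3 (onCell 0 67108864 0 1073741824 536870912 50465866 (corW 3 c0B eng mog cB102E gB0q1 gB0q2 gB0q0 gB1q0 dB0q1 dB0q2 dB0q0 dB1q0 true true)) t 2 49 1 = true :=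
  ⟨(T.a (T.c (T.a (T.l 204) (T.l 204)) (T.b (T.a (T.l 204) (T.l 204)) (T.a (T.l 204) (T.l 204)))) (T.c (T.b (T.a (T.l 204) (T.l 204)) (T.l 204)) (T.b (T.a (T.l 204) (T.l 204)) (T.a (T.l 204) (T.l 204))))), by decide +kernel⟩

def B102E_000_3_96_1 :
    ∃ t, chk3 (onCell 0 67108864 0 1073741824 536870912 50465866 (corW 3 c0B eng mog cB102E gB0q1 gB0q2 gB0q0 gB1q0 dB0q1 dB0q2 dB0q0 dB1q0 true true)) t 3 96 1 = true :=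
  ⟨(T.a (T.b (T.l 1) (T.b (T.a (T.a (T.a (T.b (T.l 1) (T.a (T.l 1) (T.l 1))) (T.l 1)) (T.l 1)) (T.l 1)) (T.a (T.b (T.a (T.b (T.a (T.a (T.l 0) (T.a (T.l 0) (T.b (T.l 1) (T.l 0)))) (T.a (T.b (T.l 1) (T.c (T.l 0) (T.l 0))) (T.l 1))) (T.c (T.l 0) (T.l 0))) (T.a (T.b (T.l 1) (T.b (T.l 1) (T.c (T.l 0) (T.a (T.l 0) (T.a (T.l 0) (T.l 1)))))) (T.l 1))) (T.a (T.l 204) (T.a (T.l 0) (T.b (T.b (T.a (T.c (T.l 0) (T.l 0)) (T.l 1)) (T.l 0)) (T.l 0))))) (T.a (T.b (T.l 1) (T.b (T.a (T.l 1) (T.l 1)) (T.a (T.c (T.l 0) (T.c (T.l 0) (T.a (T.l 0) (T.c (T.l 0) (T.c (T.l 0) (T.a (T.l 0) (T.b (T.l 1) (T.l 0)))))))) (T.a (T.b (T.l 1) (T.l 0)) (T.l 1))))) (T.l 1))))) (T.l 1)), by decide +kernel⟩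

def B102E_000_3_97_1 :
    ∃ t, chk3 (onCell 0 67108864 0 1073741824 536870912 50465866 (corW 3 c0B eng mog cB102E gB0q1 gB0q2 gB0q0 gB1q0 dB0q1 dB0q2 dB0q0 dB1q0 true true)) t 3 97 1 = true :=
  ⟨(T.a (T.a (T.c (T.c (T.l 204) (T.l 204)) (T.c (T.l 204) (T.l 204))) (T.b (T.b (T.b (T.a (T.c (T.l 0) (T.l 0)) (T.b (T.a (T.b (T.l 1) (T.c (T.l 0) (T.c (T.l 0) (T.c (T.l 0) (T.c (T.l 0) (T.a (T.l 0) (T.l 0))))))) (T.l 1)) (T.a (T.l 0) (T.b (T.a (T.l 0) (T.l 1)) (T.l 0))))) (T.c (T.l 0) (T.l 0))) (T.c (T.l 204) (T.l 204))) (T.c (T.l 204) (T.l 204)))) (T.b (T.b (T.a (T.b (T.a (T.a (T.l 1) (T.l 1)) (T.l 1)) (T.a (T.b (T.a (T.c (T.l 0) (T.c (T.l 0) (T.c (T.l 0) (T.c (T.l 0) (T.l 0))))) (T.b (T.l 1) (T.a (T.l 0) (T.l 1)))) (T.c (T.l 0) (T.l 0))) (T.a (T.b (T.l 1) (T.b (T.l 1) (T.c (T.l 0) (T.c (T.l 0) (T.c (T.l 0) (T.l 0)))))) (T.l 1))))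 (T.l 1)) (T.a (T.a (T.l 0) (T.a (T.l 0) (T.b (T.b (T.a (T.l 0) (T.b (T.l 1) (T.l 0))) (T.l 0)) (T.l 204)))) (T.b (T.a (T.b (T.l 1) (T.a (T.c (T.l 0) (T.c (T.l 0) (T.l 0))) (T.b (T.l 1) (T.a (T.l 0) (T.l 1))))) (T.l 1)) (T.a (T.c (T.l 0) (T.l 0)) (T.b (T.a (T.b (T.l 1) (T.c (T.l 0) (T.c (T.l 0) (T.l 0)))) (T.l 1)) (T.a (T.l 0) (T.a (T.l 0) (T.b (T.l 1) (T.l 0))))))))) (T.c (T.a (T.l 204) (T.l 0)) (T.a (T.l 204) (T.l 0))))), by decide +kernel⟩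

def B102E_000_3_49_1 :
    ∃ t, chk3 (onCell 0 67108864 0 1073741824 536870912 50465866 (corW 3 c0B eng mog cB102E gB0q1 gB0q2 gB0q0 gB1q0 dB0q1 dB0q2 dB0q0 dB1q0 true true)) t 3 49 1 = true :=
  ⟨(T.a (T.c (T.b (T.a (T.l 204) (T.l 204)) (T.l 204)) (T.b (T.a (T.l 204) (T.l 204)) (T.a (T.l 204) (T.l 204)))) (T.b (T.c (T.a (T.l 204) (T.l 204)) (T.a (T.l 204) (T.l 204))) (T.a (T.c (T.l 204) (T.l 204)) (T.c (T.l 204) (T.l 204))))), by decide +kernel⟩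

def B102E_000_1_25_1 :
    ∃ t, chk3 (onCell 0 67108864 0 1073741824 536870912 50465866 (corW 3 c0B eng mog cB102E gB0q1 gB0q2 gB0q0 gB1q0 dB0q1 dB0q2 dB0q0 dB1q0 true true)) t 1 25 1 = true :=
  ⟨(T.b (T.a (T.b (T.b (T.a (T.c (T.l 204) (T.l 204)) (T.c (T.l 204) (T.l 204))) (T.l 2)) (T.l 2)) (T.a (T.b (T.c (T.l 204) (T.l 716)) (T.l 2)) (T.b (T.a (T.l 716) (T.c (T.l 204) (T.l 204))) (T.l 2)))) (T.l 2)), by decide +kernel⟩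

def B102E_000_1_13_1 :
    ∃ t, chk3 (onCell 0 67108864 0 1073741824 536870912 50465866 (corW 3 c0B eng mog cB102E gB0q1 gB0q2 gB0q0 gB1q0 dB0q1 dB0q2 dB0q0 dB1q0 true true)) t 1 13 1 = true :=
  ⟨(T.l 2), by decide +kernel⟩

def B102E_000_1_7_1 :
    ∃ t, chk3 (onCell 0 67108864 0 1073741824 536870912 50465866 (corW 3 c0B eng mog cB102E gB0q1 gB0q2 gB0q0 gB1q0 dB0q1 dB0q2 dB0q0 dB1q0 true true)) t 1 7 1 = true :=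
  ⟨(T.l 2), by decide +kernel⟩

theorem B102E_000_3_48_1 :
    ∃ t, chk3 (onCell 0 67108864 0 1073741824 536870912 50465866 (corW 3 c0B eng mog cB102E gB0q1 gB0q2 gB0q0 gB1q0 dB0q1 dB0q2 dB0q0 dB1q0 true true)) t 3 48 1 = true :=
  ex3_b B102E_000_3_96_1 B102E_000_3_97_1
theorem B102E_000_3_24_1 :
    ∃ t, chk3 (onCell 0 67108864 0 1073741824 536870912 50465866 (corW 3 c0B eng mog cB102E gB0q1 gB0q2 gB0q0 gB1q0 dB0q1 dB0q2 dB0q0 dB1q0 true true)) t 3 24 1 = true :=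
  ex3_b B102E_000_3_48_1 B102E_000_3_49_1
theorem B102E_000_2_96_1 :
    ∃ t, chk3 (onCell 0 67108864 0 1073741824 536870912 50465866 (corW 3 c0B eng mog cB102E gB0q1 gB0q2 gB0q0 gB1q0 dB0q1 dB0q2 dB0q0 dB1q0 true true)) t 2 96 1 = true :=
  ex3_a B102E_000_4_96_1 B102E_000_5_96_1
theorem B102E_000_2_48_1 :
    ∃ t, chk3 (onCell 0 67108864 0 1073741824 536870912 50465866 (corW 3 c0B eng mog cB102E gB0q1 gB0q2 gB0q0 gB1q0 dB0q1 dB0q2 dB0q0 dB1q0 true true)) t 2 48 1 = true :=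
  ex3_b B102E_000_2_96_1 B102E_000_2_97_1
theorem B102E_000_2_24_1 :
    ∃ t, chk3 (onCell 0 67108864 0 1073741824 536870912 50465866 (corW 3 c0B eng mog cB102E gB0q1 gB0q2 gB0q0 gB1q0 dB0q1 dB0q2 dB0q0 dB1q0 true true)) t 2 24 1 = true :=
  ex3_b B102E_000_2_48_1 B102E_000_2_49_1
theorem B102E_000_1_24_1 :
    ∃ t, chk3 (onCell 0 67108864 0 1073741824 536870912 50465866 (corW 3 c0B eng mog cB102E gB0q1 gB0q2 gB0q0 gB1q0 dB0q1 dB0q2 dB0q0 dB1q0 true true)) t 1 24 1 = true :=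
  ex3_a B102E_000_2_24_1 B102E_000_3_24_1
theorem B102E_000_1_12_1 :
    ∃ t, chk3 (onCell 0 67108864 0 1073741824 536870912 50465866 (corW 3 c0B eng mog cB102E gB0q1 gB0q2 gB0q0 gB1q0 dB0q1 dB0q2 dB0q0 dB1q0 true true)) t 1 12 1 = true :=
  ex3_b B102E_000_1_24_1 B102E_000_1_25_1
theorem B102E_000_1_6_1 :
    ∃ t, chk3 (onCell 0 67108864 0 1073741824 536870912 50465866 (corW 3 c0B eng mog cB102E gB0q1 gB0q2 gB0q0 gB1q0 dB0q1 dB0q2 dB0q0 dB1q0 true true)) t 1 6 1 = true :=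
  ex3_b B102E_000_1_12_1 B102E_000_1_13_1
theorem B102E_000_1_3_1 :
    ∃ t, chk3 (onCell 0 67108864 0 1073741824 536870912 50465866 (corW 3 c0B eng mog cB102E gB0q1 gB0q2 gB0q0 gB1q0 dB0q1 dB0q2 dB0q0 dB1q0 true true)) t 1 3 1 = true :=
  ex3_b B102E_000_1_6_1 B102E_000_1_7_1
theorem B102E_000 :
    ∃ t, chk3 (onCell 0 67108864 0 1073741824 536870912 50465866 (corW 3 c0B eng mog cB102E gB0q1 gB0q2 gB0q0 gB1q0 dB0q1 dB0q2 dB0q0 dB1q0 true true)) t 1 1 1 = true :=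
  ex3_b B102E_000_1_2_1 B102E_000_1_3_1

def B102E_001 :
    ∃ t, chk3 (onCell 0 67108864 0 1073741824 536870912 50465866 (corW 3 c0B eng mog cB102E gB0q1 gB0q2 gB1q0 gB2q0 dB0q1 dB0q2 dB1q0 dB2q0 true true)) t 1 1 1 = true :=
  ⟨(T.b (T.l 1) (T.b (T.b (T.b (T.a (T.a (T.b (T.l 1) (T.b (T.l 1) (T.b (T.l 1) (T.c (T.l 204) (T.l 716))))) (T.l 1)) (T.l 1)) (T.a (T.b (T.a (T.c (T.l 204) (T.a (T.l 204) (T.l 204))) (T.b (T.c (T.l 204) (T.l 716)) (T.l 716))) (T.a (T.l 716) (T.c (T.l 204) (T.l 204)))) (T.a (T.b (T.b (T.c (T.l 716) (T.a (T.l 204) (T.l 204))) (T.l 716)) (T.c (T.l 204) (T.l 204))) (T.b (T.b (T.b (T.l 1) (T.c (T.l 716) (T.l 716))) (T.c (T.l 716) (T.l 716))) (T.a (T.l 204) (T.l 716)))))) (T.a (T.b (T.b (T.a (T.l 204) (T.l 204)) (T.l 204)) (T.a (T.l 204) (T.l 204))) (T.a (T.b (T.b (T.l 716) (T.l 204)) (T.b (T.l 204) (T.l 2)))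 (T.b (T.b (T.c (T.l 716) (T.l 716)) (T.a (T.l 204) (T.l 204))) (T.a (T.l 716) (T.b (T.l 204) (T.l 2))))))) (T.l 2))), by decide +kernel⟩

def B102E_002 :
    ∃ t, chk3 (onCell 0 67108864 0 1073741824 536870912 50465866 (corW 3 c0B eng mog cB102E gB0q1 gB0q2 gB2q0 gB3q0 dB0q1 dB0q2 dB2q0 dB3q0 true true)) t 1 1 1 = true :=
  ⟨(T.b (T.l 1) (T.b (T.b (T.l 1) (T.b (T.l 1) (T.a (T.a (T.l 204) (T.l 204)) (T.a (T.b (T.l 204) (T.l 204)) (T.a (T.l 716) (T.b (T.l 204) (T.l 204))))))) (T.a (T.b (T.b (T.l 204) (T.l 204)) (T.b (T.l 204) (T.l 2))) (T.b (T.a (T.b (T.b (T.l 204) (T.l 204)) (T.l 716)) (T.b (T.a (T.l 716) (T.l 716)) (T.a (T.l 204) (T.l 204)))) (T.b (T.a (T.a (T.l 204) (T.l 204)) (T.b (T.l 716) (T.l 2))) (T.l 2)))))), by decide +kernel⟩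

def B102E_003 :
    ∃ t, chk3 (onCell 0 67108864 0 1073741824 536870912 50465866 (corW 3 c0B eng mog cB102E gB0q1 gB0q2 gB3q0 gB4q0 dB0q1 dB0q2 dB3q0 dB4q0 true false)) t 1 1 1 = true :=
  ⟨(T.b (T.l 1) (T.b (T.l 1) (T.b (T.l 1) (T.a (T.a (T.l 204) (T.b (T.l 204) (T.l 204))) (T.a (T.a (T.b (T.l 204) (T.b (T.l 204) (T.l 204))) (T.b (T.l 204) (T.b (T.l 204) (T.c (T.l 204) (T.l 204))))) (T.b (T.a (T.l 204) (T.l 204)) (T.a (T.b (T.l 204) (T.c (T.l 204) (T.l 204))) (T.b (T.l 204) (T.c (T.l 204) (T.l 204)))))))))), by decide +kernel⟩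

def B102E_010 :
    ∃ t, chk3 (onCell 0 67108864 0 1073741824 536870912 50465866 (corW 3 c0B eng mog cB102E gB0q1 gB1q2 gB0q0 gB1q0 dB0q1 dB1q2 dB0q0 dB1q0 true true)) t 1 1 1 = true :=
  ⟨(T.b (T.b (T.l 1) (T.b (T.l 1) (T.b (T.l 1) (T.b (T.a (T.a (T.a (T.b (T.l 1) (T.a (T.b (T.l 1) (T.a (T.b (T.l 1) (T.b (T.l 1) (T.l 0))) (T.l 1))) (T.l 1))) (T.l 1)) (T.l 1)) (T.l 1)) (T.a (T.b (T.b (T.a (T.a (T.l 0) (T.b (T.b (T.l 1) (T.l 0)) (T.l 0))) (T.b (T.l 1) (T.a (T.a (T.l 0) (T.c (T.l 0) (T.l 0))) (T.l 1)))) (T.a (T.l 0) (T.l 0))) (T.l 0)) (T.a (T.b (T.b (T.l 1) (T.b (T.a (T.a (T.l 4) (T.l 1)) (T.l 1)) (T.a (T.l 0) (T.b (T.l 1) (T.l 0))))) (T.l 0)) (T.b (T.l 1) (T.a (T.b (T.a (T.l 0) (T.b (T.b (T.l 1) (T.l 0)) (T.l 0))) (T.l 204)) (T.b (T.b (T.l 1) (T.a (T.l 0) (T.a (T.l 0) (T.c (T.l 0) (T.l 0))))) (T.l 0)))))))))) (T.b (T.b (T.b (T.a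 (T.a (T.l 204) (T.l 204)) (T.a (T.l 204) (T.b (T.a (T.l 204) (T.l 0)) (T.l 204)))) (T.l 2)) (T.l 2)) (T.l 2))), by decide +kernel⟩

def B102E_011 :
    ∃ t, chk3 (onCell 0 67108864 0 1073741824 536870912 50465866 (corW 3 c0B eng mog cB102E gB0q1 gB1q2 gB1q0 gB2q0 dB0q1 dB1q2 dB1q0 dB2q0 true true)) t 1 1 1 = true :=
  ⟨(T.b (T.b (T.l 1) (T.l 1)) (T.b (T.b (T.a (T.b (T.a (T.l 204) (T.l 204)) (T.l 204)) (T.b (T.b (T.l 1) (T.a (T.l 204) (T.l 204))) (T.a (T.l 204) (T.l 204)))) (T.a (T.b (T.l 204) (T.l 2)) (T.a (T.b (T.l 204) (T.l 2)) (T.a (T.l 204) (T.b (T.l 204) (T.l 204)))))) (T.l 2))), by decide +kernel⟩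

def B102E_012 :
    ∃ t, chk3 (onCell 0 67108864 0 1073741824 536870912 50465866 (corW 3 c0B eng mog cB102E gB0q1 gB1q2 gB2q0 gB3q0 dB0q1 dB1q2 dB2q0 dB3q0 true true)) t 1 1 1 = true :=
  ⟨(T.b (T.l 1) (T.b (T.b (T.l 1) (T.a (T.b (T.l 204) (T.l 204)) (T.a (T.b (T.l 204) (T.l 204)) (T.a (T.l 716) (T.b (T.l 204) (T.l 204)))))) (T.a (T.b (T.l 204) (T.l 204)) (T.b (T.a (T.b (T.l 204) (T.l 204)) (T.a (T.b (T.l 204) (T.l 204)) (T.b (T.l 204) (T.l 204)))) (T.b (T.a (T.b (T.l 204) (T.l 2)) (T.b (T.l 204) (T.l 2))) (T.l 2)))))), by decide +kernel⟩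

def B102E_013 :
    ∃ t, chk3 (onCell 0 67108864 0 1073741824 536870912 50465866 (corW 3 c0B eng mog cB102E gB0q1 gB1q2 gB3q0 gB4q0 dB0q1 dB1q2 dB3q0 dB4q0 true false)) t 1 1 1 = true :=
  ⟨(T.b (T.l 1) (T.b (T.l 1) (T.b (T.l 1) (T.a (T.a (T.l 204) (T.b (T.l 204) (T.l 204))) (T.a (T.a (T.b (T.l 204) (T.b (T.l 204) (T.l 204))) (T.b (T.l 204) (T.b (T.l 204) (T.c (T.l 204) (T.l 204))))) (T.b (T.a (T.l 204) (T.l 204)) (T.a (T.b (T.l 204) (T.c (T.l 204) (T.l 204))) (T.b (T.l 204) (T.c (T.l 204) (T.l 204)))))))))), by decide +kernel⟩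

def B102E_020 :
    ∃ t, chk3 (onCell 0 67108864 0 1073741824 536870912 50465866 (corW 3 c0B eng mog cB102E gB0q1 gB2q2 gB0q0 gB1q0 dB0q1 dB2q2 dB0q0 dB1q0 true true)) t 1 1 1 = true :=
  ⟨(T.b (T.b (T.l 1) (T.b (T.a (T.b (T.l 1) (T.a (T.b (T.l 1) (T.a (T.b (T.l 1) (T.b (T.l 1) (T.l 0))) (T.l 1))) (T.l 1))) (T.l 1)) (T.b (T.a (T.b (T.a (T.l 0) (T.b (T.a (T.l 0) (T.c (T.l 0) (T.l 0))) (T.l 0))) (T.l 204)) (T.a (T.b (T.b (T.b (T.l 1) (T.l 0)) (T.l 0)) (T.l 204)) (T.b (T.b (T.l 1) (T.a (T.l 0) (T.a (T.l 0) (T.l 0)))) (T.c (T.l 0) (T.l 0))))) (T.a (T.l 204) (T.a (T.l 204) (T.l 0)))))) (T.l 2)), by decide +kernel⟩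

def B102E_021 :
    ∃ t, chk3 (onCell 0 67108864 0 1073741824 536870912 50465866 (corW 3 c0B eng mog cB102E gB0q1 gB2q2 gB1q0 gB2q0 dB0q1 dB2q2 dB1q0 dB2q0 true true)) t 1 1 1 = true :=
  ⟨(T.b (T.b (T.l 1) (T.b (T.l 1) (T.b (T.l 1) (T.a (T.l 204) (T.a (T.l 204) (T.l 0)))))) (T.b (T.a (T.l 204) (T.b (T.a (T.l 204) (T.b (T.l 204) (T.l 204))) (T.a (T.l 204) (T.b (T.l 204) (T.l 2))))) (T.l 2))), by decide +kernel⟩

def B102E_022 :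
    ∃ t, chk3 (onCell 0 67108864 0 1073741824 536870912 50465866 (corW 3 c0B eng mog cB102E gB0q1 gB2q2 gB2q0 gB3q0 dB0q1 dB2q2 dB2q0 dB3q0 true true)) t 1 1 1 = true :=
  ⟨(T.b (T.l 1) (T.b (T.a (T.l 204) (T.b (T.b (T.l 1) (T.l 204)) (T.a (T.l 204) (T.b (T.l 204) (T.l 204))))) (T.a (T.b (T.l 204) (T.l 204)) (T.b (T.a (T.l 204) (T.b (T.l 204) (T.l 204))) (T.b (T.l 2) (T.l 2)))))), by decide +kernel⟩

def B102E_023 :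
    ∃ t, chk3 (onCell 0 67108864 0 1073741824 536870912 50465866 (corW 3 c0B eng mog cB102E gB0q1 gB2q2 gB3q0 gB4q0 dB0q1 dB2q2 dB3q0 dB4q0 true false)) t 1 1 1 = true :=
  ⟨(T.b (T.l 1) (T.b (T.l 1) (T.b (T.a (T.l 204) (T.b (T.l 1) (T.a (T.l 204) (T.l 204)))) (T.a (T.a (T.l 204) (T.b (T.l 204) (T.l 204))) (T.a (T.a (T.b (T.l 204) (T.b (T.l 204) (T.l 204))) (T.b (T.l 204) (T.b (T.l 204) (T.c (T.l 204) (T.l 204))))) (T.b (T.b (T.l 204) (T.l 204)) (T.a (T.b (T.l 204) (T.c (T.l 204) (T.l 204))) (T.b (T.l 204) (T.c (T.l 204) (T.l 204)))))))))), by decide +kernel⟩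

def B102E_030 :
    ∃ t, chk3 (onCell 0 67108864 0 1073741824 536870912 50465866 (corW 3 c0B eng mog cB102E gB0q1 gB3q2 gB0q0 gB1q0 dB0q1 dB3q2 dB0q0 dB1q0 true true)) t 1 1 1 = true :=
  ⟨(T.b (T.b (T.b (T.l 1) (T.a (T.b (T.b (T.l 1) (T.c (T.b (T.b (T.l 1) (T.a (T.l 204) (T.c (T.l 220) (T.l 204)))) (T.l 204)) (T.a (T.l 204) (T.l 204)))) (T.c (T.l 204) (T.l 204))) (T.b (T.b (T.l 1) (T.b (T.l 1) (T.a (T.a (T.c (T.c (T.l 220) (T.l 204)) (T.l 204)) (T.c (T.l 220) (T.l 204))) (T.c (T.a (T.l 204) (T.l 204)) (T.l 204))))) (T.a (T.a (T.c (T.b (T.l 204) (T.l 204)) (T.l 204)) (T.c (T.b (T.l 204) (T.l 204)) (T.l 204))) (T.c (T.b (T.l 204) (T.l 204)) (T.l 204)))))) (T.b (T.b (T.a (T.l 204) (T.a (T.l 220) (T.l 204))) (T.l 2)) (T.l 2))) (T.l 2)), by decide +kernel⟩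

def B102E_031 :
    ∃ t, chk3 (onCell 0 67108864 0 1073741824 536870912 50465866 (corW 3 c0B eng mog cB102E gB0q1 gB3q2 gB1q0 gB2q0 dB0q1 dB3q2 dB1q0 dB2q0 true true)) t 1 1 1 = true :=
  ⟨(T.b (T.b (T.l 1) (T.a (T.b (T.l 204) (T.l 204)) (T.b (T.a (T.a (T.l 204) (T.l 220)) (T.b (T.l 204) (T.l 204))) (T.b (T.l 204) (T.l 204))))) (T.b (T.a (T.l 204) (T.l 2)) (T.l 2))), by decide +kernel⟩

def B102E_032 :
    ∃ t, chk3 (onCell 0 67108864 0 1073741824 536870912 50465866 (corW 3 c0B eng mog cB102E gB0q1 gB3q2 gB2q0 gB3q0 dB0q1 dB3q2 dB2q0 dB3q0 true true)) t 1 1 1 = true :=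
  ⟨(T.b (T.b (T.l 1) (T.b (T.l 1) (T.a (T.l 204) (T.b (T.l 1) (T.l 204))))) (T.b (T.a (T.l 204) (T.b (T.b (T.l 204) (T.l 204)) (T.a (T.l 204) (T.l 204)))) (T.b (T.a (T.l 204) (T.a (T.l 204) (T.b (T.l 204) (T.l 204)))) (T.l 2)))), by decide +kernel⟩

def B102E_033 :
    ∃ t, chk3 (onCell 0 67108864 0 1073741824 536870912 50465866 (corW 3 c0B eng mog cB102E gB0q1 gB3q2 gB3q0 gB4q0 dB0q1 dB3q2 dB3q0 dB4q0 true false)) t 1 1 1 = true :=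
  ⟨(T.b (T.l 1) (T.b (T.l 1) (T.a (T.b (T.l 204) (T.a (T.l 204) (T.b (T.l 204) (T.l 204)))) (T.b (T.a (T.l 204) (T.b (T.l 1) (T.l 204))) (T.a (T.a (T.b (T.l 204) (T.l 236)) (T.b (T.l 204) (T.c (T.b (T.l 204) (T.l 204)) (T.l 236)))) (T.b (T.b (T.l 204) (T.l 204)) (T.a (T.b (T.l 204) (T.c (T.l 204) (T.l 204))) (T.b (T.l 204) (T.c (T.l 204) (T.l 204)))))))))), by decide +kernel⟩

def B102L_400 :
    ∃ t, chk3 (onCell 0 67108864 0 1073741824 536870912 50465866 (corW 3 c0B eng mog cB102L gB4q1 gB0q2 gB0q0 gB1q0 dB4q1 dB0q2 dB0q0 dB1q0 true true)) t 1 1 1 = true :=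
  ⟨(T.b (T.l 2) (T.b (T.l 2) (T.l 0))), by decide +kernel⟩

def B102L_401 :
    ∃ t, chk3 (onCell 0 67108864 0 1073741824 536870912 50465866 (corW 3 c0B eng mog cB102L gB4q1 gB0q2 gB1q0 gB2q0 dB4q1 dB0q2 dB1q0 dB2q0 true true)) t 1 1 1 = true :=
  ⟨(T.b (T.l 2) (T.b (T.b (T.l 2) (T.l 204)) (T.l 0))), by decide +kernel⟩

def B102L_402 :
    ∃ t, chk3 (onCell 0 67108864 0 1073741824 536870912 50465866 (corW 3 c0B eng mog cB102L gB4q1 gB0q2 gB2q0 gB3q0 dB4q1 dB0q2 dB2q0 dB3q0 true true)) t 1 1 1 = true :=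
  ⟨(T.b (T.b (T.a (T.b (T.l 2) (T.l 204)) (T.l 2)) (T.a (T.l 204) (T.a (T.l 204) (T.l 220)))) (T.b (T.b (T.a (T.l 204) (T.b (T.l 204) (T.l 204))) (T.l 204)) (T.l 1))), by decide +kernel⟩

def B102L_403 :
    ∃ t, chk3 (onCell 0 67108864 0 1073741824 536870912 50465866 (corW 3 c0B eng mog cB102L gB4q1 gB0q2 gB3q0 gB4q0 dB4q1 dB0q2 dB3q0 dB4q0 true false)) t 1 1 1 = true :=
  ⟨(T.b (T.b (T.b (T.a (T.a (T.l 204) (T.l 204)) (T.b (T.l 204) (T.l 204))) (T.a (T.l 204) (T.b (T.l 204) (T.l 204)))) (T.a (T.l 204) (T.a (T.l 0) (T.l 204)))) (T.l 1)), by decide +kernel⟩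

def B102L_410 :
    ∃ t, chk3 (onCell 0 67108864 0 1073741824 536870912 50465866 (corW 3 c0B eng mog cB102L gB4q1 gB1q2 gB0q0 gB1q0 dB4q1 dB1q2 dB0q0 dB1q0 true true)) t 1 1 1 = true :=
  ⟨(T.b (T.l 2) (T.b (T.l 2) (T.l 0))), by decide +kernel⟩

def B102L_411 :
    ∃ t, chk3 (onCell 0 67108864 0 1073741824 536870912 50465866 (corW 3 c0B eng mog cB102L gB4q1 gB1q2 gB1q0 gB2q0 dB4q1 dB1q2 dB1q0 dB2q0 true true)) t 1 1 1 = true :=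
  ⟨(T.b (T.l 2) (T.b (T.b (T.a (T.l 204) (T.l 2)) (T.l 204)) (T.l 0))), by decide +kernel⟩

def B102L_412 :
    ∃ t, chk3 (onCell 0 67108864 0 1073741824 536870912 50465866 (corW 3 c0B eng mog cB102L gB4q1 gB1q2 gB2q0 gB3q0 dB4q1 dB1q2 dB2q0 dB3q0 true true)) t 1 1 1 = true :=
  ⟨(T.b (T.b (T.b (T.a (T.b (T.l 2) (T.l 204)) (T.l 2)) (T.a (T.l 204) (T.l 204))) (T.a (T.l 204) (T.a (T.l 220) (T.l 204)))) (T.b (T.b (T.a (T.l 204) (T.b (T.l 204) (T.l 204))) (T.l 204)) (T.l 1))), by decide +kernel⟩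

def B102L_413 :
    ∃ t, chk3 (onCell 0 67108864 0 1073741824 536870912 50465866 (corW 3 c0B eng mog cB102L gB4q1 gB1q2 gB3q0 gB4q0 dB4q1 dB1q2 dB3q0 dB4q0 true false)) t 1 1 1 = true :=
  ⟨(T.b (T.b (T.b (T.a (T.a (T.l 204) (T.l 204)) (T.b (T.l 204) (T.l 204))) (T.a (T.l 204) (T.l 204))) (T.a (T.l 1) (T.b (T.l 204) (T.l 1)))) (T.l 1)), by decide +kernel⟩

def B102L_420 :
    ∃ t, chk3 (onCell 0 67108864 0 1073741824 536870912 50465866 (corW 3 c0B eng mog cB102L gB4q1 gB2q2 gB0q0 gB1q0 dB4q1 dB2q2 dB0q0 dB1q0 true true)) t 1 1 1 = true :=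
  ⟨(T.b (T.l 2) (T.b (T.l 2) (T.l 0))), by decide +kernel⟩

def B102L_421 :
    ∃ t, chk3 (onCell 0 67108864 0 1073741824 536870912 50465866 (corW 3 c0B eng mog cB102L gB4q1 gB2q2 gB1q0 gB2q0 dB4q1 dB2q2 dB1q0 dB2q0 true true)) t 1 1 1 = true :=
  ⟨(T.b (T.b (T.l 2) (T.a (T.l 204) (T.b (T.l 2) (T.l 220)))) (T.b (T.b (T.a (T.l 204) (T.b (T.l 204) (T.l 204))) (T.l 204)) (T.l 0))), by decide +kernel⟩

def B102L_422 :
    ∃ t, chk3 (onCell 0 67108864 0 1073741824 536870912 50465866 (corW 3 c0B eng mog cB102L gB4q1 gB2q2 gB2q0 gB3q0 dB4q1 dB2q2 dB2q0 dB3q0 true true)) t 1 1 1 = true :=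
  ⟨(T.b (T.b (T.a (T.a (T.l 204) (T.b (T.l 204) (T.l 204))) (T.a (T.l 204) (T.l 204))) (T.a (T.l 204) (T.b (T.l 204) (T.l 220)))) (T.b (T.a (T.l 1) (T.b (T.b (T.l 204) (T.l 1)) (T.l 1))) (T.l 1))), by decide +kernel⟩

def B102L_423 :
    ∃ t, chk3 (onCell 0 67108864 0 1073741824 536870912 50465866 (corW 3 c0B eng mog cB102L gB4q1 gB2q2 gB3q0 gB4q0 dB4q1 dB2q2 dB3q0 dB4q0 true false)) t 1 1 1 = true :=
  ⟨(T.b (T.b (T.l 1) (T.l 1)) (T.l 1)), by decide +kernel⟩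

def B102L_430 :
    ∃ t, chk3 (onCell 0 67108864 0 1073741824 536870912 50465866 (corW 3 c0B eng mog cB102L gB4q1 gB3q2 gB0q0 gB1q0 dB4q1 dB3q2 dB0q0 dB1q0 true true)) t 1 1 1 = true :=
  ⟨(T.b (T.l 2) (T.b (T.b (T.l 2) (T.l 2)) (T.l 0))), by decide +kernel⟩

def B102L_431 :
    ∃ t, chk3 (onCell 0 67108864 0 1073741824 536870912 50465866 (corW 3 c0B eng mog cB102L gB4q1 gB3q2 gB1q0 gB2q0 dB4q1 dB3q2 dB1q0 dB2q0 true true)) t 1 1 1 = true :=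
  ⟨(T.b (T.b (T.a (T.a (T.l 204) (T.b (T.l 204) (T.l 204))) (T.a (T.l 204) (T.l 204))) (T.a (T.l 204) (T.b (T.l 220) (T.l 0)))) (T.b (T.b (T.a (T.l 204) (T.l 0)) (T.l 204)) (T.l 0))), by decide +kernel⟩

def B102L_432 :
    ∃ t, chk3 (onCell 0 67108864 0 1073741824 536870912 50465866 (corW 3 c0B eng mog cB102L gB4q1 gB3q2 gB2q0 gB3q0 dB4q1 dB3q2 dB2q0 dB3q0 true true)) t 1 1 1 = true :=
  ⟨(T.l 1), by decide +kernel⟩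

def B102L_433 :
    ∃ t, chk3 (onCell 0 67108864 0 1073741824 536870912 50465866 (corW 3 c0B eng mog cB102L gB4q1 gB3q2 gB3q0 gB4q0 dB4q1 dB3q2 dB3q0 dB4q0 true false)) t 1 1 1 = true :=
  ⟨(T.l 1), by decide +kernel⟩

def B102L_500 :
    ∃ t, chk3 (onCell 0 67108864 0 1073741824 536870912 50465866 (corW 3 c0B eng mog cB102L gB5q1 gB0q2 gB0q0 gB1q0 dB5q1 dB0q2 dB0q0 dB1q0 true true)) t 1 1 1 = true :=
  ⟨(T.b (T.l 2) (T.l 2)), by decide +kernel⟩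

def B102L_501 :
    ∃ t, chk3 (onCell 0 67108864 0 1073741824 536870912 50465866 (corW 3 c0B eng mog cB102L gB5q1 gB0q2 gB1q0 gB2q0 dB5q1 dB0q2 dB1q0 dB2q0 true true)) t 1 1 1 = true :=
  ⟨(T.b (T.l 2) (T.b (T.l 2) (T.l 204))), by decide +kernel⟩

def B102L_502 :
    ∃ t, chk3 (onCell 0 67108864 0 1073741824 536870912 50465866 (corW 3 c0B eng mog cB102L gB5q1 gB0q2 gB2q0 gB3q0 dB5q1 dB0q2 dB2q0 dB3q0 true true)) t 1 1 1 = true :=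
  ⟨(T.b (T.b (T.a (T.b (T.l 2) (T.l 204)) (T.l 2)) (T.a (T.l 204) (T.a (T.l 204) (T.l 204)))) (T.b (T.b (T.a (T.l 204) (T.l 0)) (T.l 204)) (T.l 204))), by decide +kernel⟩

def B102L_503 :
    ∃ t, chk3 (onCell 0 67108864 0 1073741824 536870912 50465866 (corW 3 c0B eng mog cB102L gB5q1 gB0q2 gB3q0 gB4q0 dB5q1 dB0q2 dB3q0 dB4q0 true false)) t 1 1 1 = true :=
  ⟨(T.b (T.b (T.b (T.a (T.a (T.l 204) (T.l 204)) (T.b (T.l 204) (T.l 204))) (T.a (T.l 204) (T.b (T.l 204) (T.l 204)))) (T.a (T.l 204) (T.a (T.l 204) (T.l 204)))) (T.l 1)), by decide +kernel⟩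

def B102L_510 :
    ∃ t, chk3 (onCell 0 67108864 0 1073741824 536870912 50465866 (corW 3 c0B eng mog cB102L gB5q1 gB1q2 gB0q0 gB1q0 dB5q1 dB1q2 dB0q0 dB1q0 true true)) t 1 1 1 = true :=
  ⟨(T.b (T.l 2) (T.l 2)), by decide +kernel⟩

def B102L_511 :
    ∃ t, chk3 (onCell 0 67108864 0 1073741824 536870912 50465866 (corW 3 c0B eng mog cB102L gB5q1 gB1q2 gB1q0 gB2q0 dB5q1 dB1q2 dB1q0 dB2q0 true true)) t 1 1 1 = true :=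
  ⟨(T.b (T.l 2) (T.b (T.b (T.l 2) (T.l 204)) (T.l 204))), by decide +kernel⟩

def B102L_512 :
    ∃ t, chk3 (onCell 0 67108864 0 1073741824 536870912 50465866 (corW 3 c0B eng mog cB102L gB5q1 gB1q2 gB2q0 gB3q0 dB5q1 dB1q2 dB2q0 dB3q0 true true)) t 1 1 1 = true :=
  ⟨(T.b (T.b (T.a (T.b (T.b (T.l 2) (T.l 204)) (T.l 204)) (T.b (T.l 2) (T.l 204))) (T.a (T.l 204) (T.b (T.l 204) (T.l 204)))) (T.b (T.b (T.a (T.l 204) (T.b (T.l 204) (T.l 204))) (T.l 204)) (T.l 204))), by decide +kernel⟩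

def B102L_513 :
    ∃ t, chk3 (onCell 0 67108864 0 1073741824 536870912 50465866 (corW 3 c0B eng mog cB102L gB5q1 gB1q2 gB3q0 gB4q0 dB5q1 dB1q2 dB3q0 dB4q0 true false)) t 1 1 1 = true :=
  ⟨(T.b (T.b (T.a (T.a (T.l 204) (T.b (T.l 204) (T.l 204))) (T.a (T.l 204) (T.l 204))) (T.a (T.l 204) (T.b (T.l 204) (T.l 1)))) (T.l 1)), by decide +kernel⟩

def B102L_520 :
    ∃ t, chk3 (onCell 0 67108864 0 1073741824 536870912 50465866 (corW 3 c0B eng mog cB102L gB5q1 gB2q2 gB0q0 gB1q0 dB5q1 dB2q2 dB0q0 dB1q0 true true)) t 1 1 1 = true :=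
  ⟨(T.l 2), by decide +kernel⟩

def B102L_521 :
    ∃ t, chk3 (onCell 0 67108864 0 1073741824 536870912 50465866 (corW 3 c0B eng mog cB102L gB5q1 gB2q2 gB1q0 gB2q0 dB5q1 dB2q2 dB1q0 dB2q0 true true)) t 1 1 1 = true :=
  ⟨(T.b (T.b (T.l 2) (T.b (T.l 2) (T.l 2))) (T.b (T.b (T.a (T.l 204) (T.l 204)) (T.l 204)) (T.l 204))), by decide +kernel⟩

def B102L_522 :
    ∃ t, chk3 (onCell 0 67108864 0 1073741824 536870912 50465866 (corW 3 c0B eng mog cB102L gB5q1 gB2q2 gB2q0 gB3q0 dB5q1 dB2q2 dB2q0 dB3q0 true true)) t 1 1 1 = true :=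
  ⟨(T.b (T.b (T.a (T.a (T.l 204) (T.b (T.l 204) (T.l 204))) (T.b (T.l 220) (T.l 204))) (T.a (T.l 204) (T.b (T.l 204) (T.l 204)))) (T.b (T.a (T.l 204) (T.b (T.l 204) (T.l 204))) (T.l 1))), by decide +kernel⟩

def B102L_523 :
    ∃ t, chk3 (onCell 0 67108864 0 1073741824 536870912 50465866 (corW 3 c0B eng mog cB102L gB5q1 gB2q2 gB3q0 gB4q0 dB5q1 dB2q2 dB3q0 dB4q0 true false)) t 1 1 1 = true :=
  ⟨(T.b (T.b (T.l 1) (T.l 1)) (T.l 1)), by decide +kernel⟩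

def B102L_530 :
    ∃ t, chk3 (onCell 0 67108864 0 1073741824 536870912 50465866 (corW 3 c0B eng mog cB102L gB5q1 gB3q2 gB0q0 gB1q0 dB5q1 dB3q2 dB0q0 dB1q0 true true)) t 1 1 1 = true :=
  ⟨(T.l 2), by decide +kernel⟩

def B102L_531 :
    ∃ t, chk3 (onCell 0 67108864 0 1073741824 536870912 50465866 (corW 3 c0B eng mog cB102L gB5q1 gB3q2 gB1q0 gB2q0 dB5q1 dB3q2 dB1q0 dB2q0 true true)) t 1 1 1 = true :=
  ⟨(T.b (T.a (T.b (T.a (T.l 204) (T.b (T.l 204) (T.l 204))) (T.l 204)) (T.a (T.b (T.l 204) (T.l 204)) (T.b (T.l 204) (T.l 204)))) (T.b (T.a (T.l 204) (T.b (T.l 204) (T.l 204))) (T.l 204))), by decide +kernel⟩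

def B102L_532 :
    ∃ t, chk3 (onCell 0 67108864 0 1073741824 536870912 50465866 (corW 3 c0B eng mog cB102L gB5q1 gB3q2 gB2q0 gB3q0 dB5q1 dB3q2 dB2q0 dB3q0 true true)) t 1 1 1 = true :=
  ⟨(T.l 1), by decide +kernel⟩

def B102L_533 :
    ∃ t, chk3 (onCell 0 67108864 0 1073741824 536870912 50465866 (corW 3 c0B eng mog cB102L gB5q1 gB3q2 gB3q0 gB4q0 dB5q1 dB3q2 dB3q0 dB4q0 true false)) t 1 1 1 = true :=
  ⟨(T.l 1), by decide +kernel⟩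

def B102L_600 :
    ∃ t, chk3 (onCell 0 67108864 0 1073741824 536870912 50465866 (corW 3 c0B eng mog cB102L gB6q1 gB0q2 gB0q0 gB1q0 dB6q1 dB0q2 dB0q0 dB1q0 true true)) t 1 1 1 = true :=
  ⟨(T.l 2), by decide +kernel⟩

def B102L_601 :
    ∃ t, chk3 (onCell 0 67108864 0 1073741824 536870912 50465866 (corW 3 c0B eng mog cB102L gB6q1 gB0q2 gB1q0 gB2q0 dB6q1 dB0q2 dB1q0 dB2q0 true true)) t 1 1 1 = true :=
  ⟨(T.b (T.l 2) (T.b (T.l 2) (T.l 204))), by decide +kernel⟩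

def B102L_602 :
    ∃ t, chk3 (onCell 0 67108864 0 1073741824 536870912 50465866 (corW 3 c0B eng mog cB102L gB6q1 gB0q2 gB2q0 gB3q0 dB6q1 dB0q2 dB2q0 dB3q0 true true)) t 1 1 1 = true :=
  ⟨(T.b (T.b (T.b (T.l 2) (T.l 2)) (T.a (T.l 204) (T.a (T.l 204) (T.l 204)))) (T.b (T.b (T.a (T.l 204) (T.l 204)) (T.l 204)) (T.l 204))), by decide +kernel⟩

def B102L_603 :
    ∃ t, chk3 (onCell 0 67108864 0 1073741824 536870912 50465866 (corW 3 c0B eng mog cB102L gB6q1 gB0q2 gB3q0 gB4q0 dB6q1 dB0q2 dB3q0 dB4q0 true false)) t 1 1 1 = true :=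
  ⟨(T.b (T.b (T.a (T.a (T.l 204) (T.b (T.l 204) (T.l 204))) (T.a (T.l 220) (T.l 204))) (T.a (T.l 204) (T.a (T.l 204) (T.l 204)))) (T.b (T.l 1) (T.l 1))), by decide +kernel⟩

def B102L_610 :
    ∃ t, chk3 (onCell 0 67108864 0 1073741824 536870912 50465866 (corW 3 c0B eng mog cB102L gB6q1 gB1q2 gB0q0 gB1q0 dB6q1 dB1q2 dB0q0 dB1q0 true true)) t 1 1 1 = true :=
  ⟨(T.l 2), by decide +kernel⟩

def B102L_611 :
    ∃ t, chk3 (onCell 0 67108864 0 1073741824 536870912 50465866 (corW 3 c0B eng mog cB102L gB6q1 gB1q2 gB1q0 gB2q0 dB6q1 dB1q2 dB1q0 dB2q0 true true)) t 1 1 1 = true :=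
  ⟨(T.b (T.l 2) (T.b (T.l 2) (T.l 204))), by decide +kernel⟩

def B102L_612 :
    ∃ t, chk3 (onCell 0 67108864 0 1073741824 536870912 50465866 (corW 3 c0B eng mog cB102L gB6q1 gB1q2 gB2q0 gB3q0 dB6q1 dB1q2 dB2q0 dB3q0 true true)) t 1 1 1 = true :=
  ⟨(T.b (T.b (T.a (T.b (T.l 2) (T.l 204)) (T.b (T.l 2) (T.l 2))) (T.a (T.l 204) (T.b (T.l 204) (T.l 204)))) (T.b (T.b (T.a (T.l 204) (T.l 220)) (T.l 204)) (T.l 204))), by decide +kernel⟩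

def B102L_613 :
    ∃ t, chk3 (onCell 0 67108864 0 1073741824 536870912 50465866 (corW 3 c0B eng mog cB102L gB6q1 gB1q2 gB3q0 gB4q0 dB6q1 dB1q2 dB3q0 dB4q0 true false)) t 1 1 1 = true :=
  ⟨(T.b (T.b (T.a (T.a (T.l 204) (T.b (T.l 204) (T.l 204))) (T.a (T.l 204) (T.l 204))) (T.a (T.l 204) (T.b (T.l 204) (T.l 204)))) (T.l 1)), by decide +kernel⟩

def B102L_620 :
    ∃ t, chk3 (onCell 0 67108864 0 1073741824 536870912 50465866 (corW 3 c0B eng mog cB102L gB6q1 gB2q2 gB0q0 gB1q0 dB6q1 dB2q2 dB0q0 dB1q0 true true)) t 1 1 1 = true :=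
  ⟨(T.l 2), by decide +kernel⟩

def B102L_621 :
    ∃ t, chk3 (onCell 0 67108864 0 1073741824 536870912 50465866 (corW 3 c0B eng mog cB102L gB6q1 gB2q2 gB1q0 gB2q0 dB6q1 dB2q2 dB1q0 dB2q0 true true)) t 1 1 1 = true :=
  ⟨(T.b (T.l 2) (T.b (T.b (T.l 2) (T.l 204)) (T.l 204))), by decide +kernel⟩

def B102L_622 :
    ∃ t, chk3 (onCell 0 67108864 0 1073741824 536870912 50465866 (corW 3 c0B eng mog cB102L gB6q1 gB2q2 gB2q0 gB3q0 dB6q1 dB2q2 dB2q0 dB3q0 true true)) t 1 1 1 = true :=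
  ⟨(T.b (T.b (T.a (T.a (T.l 204) (T.b (T.l 204) (T.l 204))) (T.b (T.l 220) (T.l 204))) (T.a (T.l 204) (T.b (T.l 204) (T.l 204)))) (T.b (T.a (T.l 204) (T.b (T.l 204) (T.l 204))) (T.l 204))), by decide +kernel⟩

def B102L_623 :
    ∃ t, chk3 (onCell 0 67108864 0 1073741824 536870912 50465866 (corW 3 c0B eng mog cB102L gB6q1 gB2q2 gB3q0 gB4q0 dB6q1 dB2q2 dB3q0 dB4q0 true false)) t 1 1 1 = true :=
  ⟨(T.b (T.b (T.l 1) (T.l 1)) (T.l 1)), by decide +kernel⟩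

def B102L_630 :
    ∃ t, chk3 (onCell 0 67108864 0 1073741824 536870912 50465866 (corW 3 c0B eng mog cB102L gB6q1 gB3q2 gB0q0 gB1q0 dB6q1 dB3q2 dB0q0 dB1q0 true true)) t 1 1 1 = true :=
  ⟨(T.l 2), by decide +kernel⟩

def B102L_631 :
    ∃ t, chk3 (onCell 0 67108864 0 1073741824 536870912 50465866 (corW 3 c0B eng mog cB102L gB6q1 gB3q2 gB1q0 gB2q0 dB6q1 dB3q2 dB1q0 dB2q0 true true)) t 1 1 1 = true :=
  ⟨(T.b (T.a (T.b (T.a (T.l 204) (T.b (T.l 204) (T.l 204))) (T.l 204)) (T.b (T.a (T.l 204) (T.l 204)) (T.b (T.l 204) (T.l 204)))) (T.a (T.l 204) (T.a (T.l 204) (T.b (T.l 204) (T.l 204))))), by decide +kernel⟩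

def B102L_632 :
    ∃ t, chk3 (onCell 0 67108864 0 1073741824 536870912 50465866 (corW 3 c0B eng mog cB102L gB6q1 gB3q2 gB2q0 gB3q0 dB6q1 dB3q2 dB2q0 dB3q0 true true)) t 1 1 1 = true :=
  ⟨(T.b (T.l 1) (T.l 1)), by decide +kernel⟩

def B102L_633 :
    ∃ t, chk3 (onCell 0 67108864 0 1073741824 536870912 50465866 (corW 3 c0B eng mog cB102L gB6q1 gB3q2 gB3q0 gB4q0 dB6q1 dB3q2 dB3q0 dB4q0 true false)) t 1 1 1 = true :=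
  ⟨(T.l 1), by decide +kernel⟩

def B102R_060 :
    ∃ t, chk3 (onCell 0 67108864 0 1073741824 536870912 50465866 (corW 3 c0B eng mog cB102R gB0q1 gB6q2 gB0q0 gB1q0 dB0q1 dB6q2 dB0q0 dB1q0 true true)) t 1 1 1 = true :=
  ⟨(T.l 1), by decide +kernel⟩

def B102R_061 :
    ∃ t, chk3 (onCell 0 67108864 0 1073741824 536870912 50465866 (corW 3 c0B eng mog cB102R gB0q1 gB6q2 gB1q0 gB2q0 dB0q1 dB6q2 dB1q0 dB2q0 true true)) t 1 1 1 = true :=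
  ⟨(T.l 1), by decide +kernel⟩

def B102R_062 :
    ∃ t, chk3 (onCell 0 67108864 0 1073741824 536870912 50465866 (corW 3 c0B eng mog cB102R gB0q1 gB6q2 gB2q0 gB3q0 dB0q1 dB6q2 dB2q0 dB3q0 true true)) t 1 1 1 = true :=
  ⟨(T.l 1), by decide +kernel⟩

def B102R_063 :
    ∃ t, chk3 (onCell 0 67108864 0 1073741824 536870912 50465866 (corW 3 c0B eng mog cB102R gB0q1 gB6q2 gB3q0 gB4q0 dB0q1 dB6q2 dB3q0 dB4q0 true false)) t 1 1 1 = true :=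
  ⟨(T.l 1), by decide +kernel⟩

def B202E_000 :
    ∃ t, chk3 (onCell 0 67108864 0 1073741824 536870912 50465866 (corW 3 c0B eng mog cB202E gB0q2 gB0q2 gB0q0 gB1q0 dB0q2 dB0q2 dB0q0 dB1q0 true true)) t 1 1 1 = true :=
  ⟨(T.l 1), by decide +kernel⟩

def B202E_001 :
    ∃ t, chk3 (onCell 0 67108864 0 1073741824 536870912 50465866 (corW 3 c0B eng mog cB202E gB0q2 gB0q2 gB1q0 gB2q0 dB0q2 dB0q2 dB1q0 dB2q0 true true)) t 1 1 1 = true :=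
  ⟨(T.l 1), by decide +kernel⟩

def B202E_002 :
    ∃ t, chk3 (onCell 0 67108864 0 1073741824 536870912 50465866 (corW 3 c0B eng mog cB202E gB0q2 gB0q2 gB2q0 gB3q0 dB0q2 dB0q2 dB2q0 dB3q0 true true)) t 1 1 1 = true :=
  ⟨(T.l 1), by decide +kernel⟩

def B202E_003 :
    ∃ t, chk3 (onCell 0 67108864 0 1073741824 536870912 50465866 (corW 3 c0B eng mog cB202E gB0q2 gB0q2 gB3q0 gB4q0 dB0q2 dB0q2 dB3q0 dB4q0 true false)) t 1 1 1 = true :=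
  ⟨(T.l 1), by decide +kernel⟩

def B202E_010 :
    ∃ t, chk3 (onCell 0 67108864 0 1073741824 536870912 50465866 (corW 3 c0B eng mog cB202E gB0q2 gB1q2 gB0q0 gB1q0 dB0q2 dB1q2 dB0q0 dB1q0 true true)) t 1 1 1 = true :=
  ⟨(T.l 1), by decide +kernel⟩

def B202E_011 :
    ∃ t, chk3 (onCell 0 67108864 0 1073741824 536870912 50465866 (corW 3 c0B eng mog cB202E gB0q2 gB1q2 gB1q0 gB2q0 dB0q2 dB1q2 dB1q0 dB2q0 true true)) t 1 1 1 = true :=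
  ⟨(T.l 1), by decide +kernel⟩

def B202E_012 :
    ∃ t, chk3 (onCell 0 67108864 0 1073741824 536870912 50465866 (corW 3 c0B eng mog cB202E gB0q2 gB1q2 gB2q0 gB3q0 dB0q2 dB1q2 dB2q0 dB3q0 true true)) t 1 1 1 = true :=
  ⟨(T.l 1), by decide +kernel⟩

def B202E_013 :
    ∃ t, chk3 (onCell 0 67108864 0 1073741824 536870912 50465866 (corW 3 c0B eng mog cB202E gB0q2 gB1q2 gB3q0 gB4q0 dB0q2 dB1q2 dB3q0 dB4q0 true false)) t 1 1 1 = true :=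
  ⟨(T.l 1), by decide +kernel⟩

def B202E_020 :
    ∃ t, chk3 (onCell 0 67108864 0 1073741824 536870912 50465866 (corW 3 c0B eng mog cB202E gB0q2 gB2q2 gB0q0 gB1q0 dB0q2 dB2q2 dB0q0 dB1q0 true true)) t 1 1 1 = true :=
  ⟨(T.l 1), by decide +kernel⟩

def B202E_021 :
    ∃ t, chk3 (onCell 0 67108864 0 1073741824 536870912 50465866 (corW 3 c0B eng mog cB202E gB0q2 gB2q2 gB1q0 gB2q0 dB0q2 dB2q2 dB1q0 dB2q0 true true)) t 1 1 1 = true :=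
  ⟨(T.l 1), by decide +kernel⟩

def B202E_022 :
    ∃ t, chk3 (onCell 0 67108864 0 1073741824 536870912 50465866 (corW 3 c0B eng mog cB202E gB0q2 gB2q2 gB2q0 gB3q0 dB0q2 dB2q2 dB2q0 dB3q0 true true)) t 1 1 1 = true :=
  ⟨(T.l 1), by decide +kernel⟩

def B202E_023 :
    ∃ t, chk3 (onCell 0 67108864 0 1073741824 536870912 50465866 (corW 3 c0B eng mog cB202E gB0q2 gB2q2 gB3q0 gB4q0 dB0q2 dB2q2 dB3q0 dB4q0 true false)) t 1 1 1 = true :=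
  ⟨(T.l 1), by decide +kernel⟩

def B202E_030 :
    ∃ t, chk3 (onCell 0 67108864 0 1073741824 536870912 50465866 (corW 3 c0B eng mog cB202E gB0q2 gB3q2 gB0q0 gB1q0 dB0q2 dB3q2 dB0q0 dB1q0 true true)) t 1 1 1 = true :=
  ⟨(T.b (T.l 1) (T.l 1)), by decide +kernel⟩

def B202E_031 :
    ∃ t, chk3 (onCell 0 67108864 0 1073741824 536870912 50465866 (corW 3 c0B eng mog cB202E gB0q2 gB3q2 gB1q0 gB2q0 dB0q2 dB3q2 dB1q0 dB2q0 true true)) t 1 1 1 = true :=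
  ⟨(T.l 1), by decide +kernel⟩

def B202E_032 :
    ∃ t, chk3 (onCell 0 67108864 0 1073741824 536870912 50465866 (corW 3 c0B eng mog cB202E gB0q2 gB3q2 gB2q0 gB3q0 dB0q2 dB3q2 dB2q0 dB3q0 true true)) t 1 1 1 = true :=
  ⟨(T.l 1), by decide +kernel⟩

def B202E_033 :
    ∃ t, chk3 (onCell 0 67108864 0 1073741824 536870912 50465866 (corW 3 c0B eng mog cB202E gB0q2 gB3q2 gB3q0 gB4q0 dB0q2 dB3q2 dB3q0 dB4q0 true false)) t 1 1 1 = true :=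
  ⟨(T.l 1), by decide +kernel⟩

def B202E_100 :
    ∃ t, chk3 (onCell 0 67108864 0 1073741824 536870912 50465866 (corW 3 c0B eng mog cB202E gB1q2 gB0q2 gB0q0 gB1q0 dB1q2 dB0q2 dB0q0 dB1q0 true true)) t 1 1 1 = true :=
  ⟨(T.l 1), by decide +kernel⟩

def B202E_101 :
    ∃ t, chk3 (onCell 0 67108864 0 1073741824 536870912 50465866 (corW 3 c0B eng mog cB202E gB1q2 gB0q2 gB1q0 gB2q0 dB1q2 dB0q2 dB1q0 dB2q0 true true)) t 1 1 1 = true :=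
  ⟨(T.l 1), by decide +kernel⟩

def B202E_102 :
    ∃ t, chk3 (onCell 0 67108864 0 1073741824 536870912 50465866 (corW 3 c0B eng mog cB202E gB1q2 gB0q2 gB2q0 gB3q0 dB1q2 dB0q2 dB2q0 dB3q0 true true)) t 1 1 1 = true :=
  ⟨(T.l 1), by decide +kernel⟩

def B202E_103 :
    ∃ t, chk3 (onCell 0 67108864 0 1073741824 536870912 50465866 (corW 3 c0B eng mog cB202E gB1q2 gB0q2 gB3q0 gB4q0 dB1q2 dB0q2 dB3q0 dB4q0 true false)) t 1 1 1 = true :=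
  ⟨(T.l 1), by decide +kernel⟩

def B202E_110 :
    ∃ t, chk3 (onCell 0 67108864 0 1073741824 536870912 50465866 (corW 3 c0B eng mog cB202E gB1q2 gB1q2 gB0q0 gB1q0 dB1q2 dB1q2 dB0q0 dB1q0 true true)) t 1 1 1 = true :=
  ⟨(T.l 1), by decide +kernel⟩

def B202E_111 :
    ∃ t, chk3 (onCell 0 67108864 0 1073741824 536870912 50465866 (corW 3 c0B eng mog cB202E gB1q2 gB1q2 gB1q0 gB2q0 dB1q2 dB1q2 dB1q0 dB2q0 true true)) t 1 1 1 = true :=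
  ⟨(T.l 1), by decide +kernel⟩

def B202E_112 :
    ∃ t, chk3 (onCell 0 67108864 0 1073741824 536870912 50465866 (corW 3 c0B eng mog cB202E gB1q2 gB1q2 gB2q0 gB3q0 dB1q2 dB1q2 dB2q0 dB3q0 true true)) t 1 1 1 = true :=
  ⟨(T.l 1), by decide +kernel⟩

def B202E_113 :
    ∃ t, chk3 (onCell 0 67108864 0 1073741824 536870912 50465866 (corW 3 c0B eng mog cB202E gB1q2 gB1q2 gB3q0 gB4q0 dB1q2 dB1q2 dB3q0 dB4q0 true false)) t 1 1 1 = true :=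
  ⟨(T.l 1), by decide +kernel⟩

def B202E_120 :
    ∃ t, chk3 (onCell 0 67108864 0 1073741824 536870912 50465866 (corW 3 c0B eng mog cB202E gB1q2 gB2q2 gB0q0 gB1q0 dB1q2 dB2q2 dB0q0 dB1q0 true true)) t 1 1 1 = true :=
  ⟨(T.l 1), by decide +kernel⟩

def B202E_121 :
    ∃ t, chk3 (onCell 0 67108864 0 1073741824 536870912 50465866 (corW 3 c0B eng mog cB202E gB1q2 gB2q2 gB1q0 gB2q0 dB1q2 dB2q2 dB1q0 dB2q0 true true)) t 1 1 1 = true :=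
  ⟨(T.l 1), by decide +kernel⟩

def B202E_122 :
    ∃ t, chk3 (onCell 0 67108864 0 1073741824 536870912 50465866 (corW 3 c0B eng mog cB202E gB1q2 gB2q2 gB2q0 gB3q0 dB1q2 dB2q2 dB2q0 dB3q0 true true)) t 1 1 1 = true :=
  ⟨(T.l 1), by decide +kernel⟩

def B202E_123 :
    ∃ t, chk3 (onCell 0 67108864 0 1073741824 536870912 50465866 (corW 3 c0B eng mog cB202E gB1q2 gB2q2 gB3q0 gB4q0 dB1q2 dB2q2 dB3q0 dB4q0 true false)) t 1 1 1 = true :=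
  ⟨(T.l 1), by decide +kernel⟩

def B202E_130 :
    ∃ t, chk3 (onCell 0 67108864 0 1073741824 536870912 50465866 (corW 3 c0B eng mog cB202E gB1q2 gB3q2 gB0q0 gB1q0 dB1q2 dB3q2 dB0q0 dB1q0 true true)) t 1 1 1 = true :=
  ⟨(T.l 1), by decide +kernel⟩

def B202E_131 :
    ∃ t, chk3 (onCell 0 67108864 0 1073741824 536870912 50465866 (corW 3 c0B eng mog cB202E gB1q2 gB3q2 gB1q0 gB2q0 dB1q2 dB3q2 dB1q0 dB2q0 true true)) t 1 1 1 = true :=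
  ⟨(T.l 1), by decide +kernel⟩

def B202E_132 :
    ∃ t, chk3 (onCell 0 67108864 0 1073741824 536870912 50465866 (corW 3 c0B eng mog cB202E gB1q2 gB3q2 gB2q0 gB3q0 dB1q2 dB3q2 dB2q0 dB3q0 true true)) t 1 1 1 = true :=
  ⟨(T.l 1), by decide +kernel⟩

def B202E_133 :
    ∃ t, chk3 (onCell 0 67108864 0 1073741824 536870912 50465866 (corW 3 c0B eng mog cB202E gB1q2 gB3q2 gB3q0 gB4q0 dB1q2 dB3q2 dB3q0 dB4q0 true false)) t 1 1 1 = true :=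
  ⟨(T.l 1), by decide +kernel⟩

def B202E_200 :
    ∃ t, chk3 (onCell 0 67108864 0 1073741824 536870912 50465866 (corW 3 c0B eng mog cB202E gB2q2 gB0q2 gB0q0 gB1q0 dB2q2 dB0q2 dB0q0 dB1q0 true true)) t 1 1 1 = true :=
  ⟨(T.l 1), by decide +kernel⟩

def B202E_201 :
    ∃ t, chk3 (onCell 0 67108864 0 1073741824 536870912 50465866 (corW 3 c0B eng mog cB202E gB2q2 gB0q2 gB1q0 gB2q0 dB2q2 dB0q2 dB1q0 dB2q0 true true)) t 1 1 1 = true :=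
  ⟨(T.l 1), by decide +kernel⟩

def B202E_202 :
    ∃ t, chk3 (onCell 0 67108864 0 1073741824 536870912 50465866 (corW 3 c0B eng mog cB202E gB2q2 gB0q2 gB2q0 gB3q0 dB2q2 dB0q2 dB2q0 dB3q0 true true)) t 1 1 1 = true :=
  ⟨(T.l 1), by decide +kernel⟩

def B202E_203 :
    ∃ t, chk3 (onCell 0 67108864 0 1073741824 536870912 50465866 (corW 3 c0B eng mog cB202E gB2q2 gB0q2 gB3q0 gB4q0 dB2q2 dB0q2 dB3q0 dB4q0 true false)) t 1 1 1 = true :=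
  ⟨(T.l 1), by decide +kernel⟩

def B202E_210 :
    ∃ t, chk3 (onCell 0 67108864 0 1073741824 536870912 50465866 (corW 3 c0B eng mog cB202E gB2q2 gB1q2 gB0q0 gB1q0 dB2q2 dB1q2 dB0q0 dB1q0 true true)) t 1 1 1 = true :=
  ⟨(T.l 1), by decide +kernel⟩

def B202E_211 :
    ∃ t, chk3 (onCell 0 67108864 0 1073741824 536870912 50465866 (corW 3 c0B eng mog cB202E gB2q2 gB1q2 gB1q0 gB2q0 dB2q2 dB1q2 dB1q0 dB2q0 true true)) t 1 1 1 = true :=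
  ⟨(T.l 1), by decide +kernel⟩

def B202E_212 :
    ∃ t, chk3 (onCell 0 67108864 0 1073741824 536870912 50465866 (corW 3 c0B eng mog cB202E gB2q2 gB1q2 gB2q0 gB3q0 dB2q2 dB1q2 dB2q0 dB3q0 true true)) t 1 1 1 = true :=
  ⟨(T.l 1), by decide +kernel⟩

def B202E_213 :
    ∃ t, chk3 (onCell 0 67108864 0 1073741824 536870912 50465866 (corW 3 c0B eng mog cB202E gB2q2 gB1q2 gB3q0 gB4q0 dB2q2 dB1q2 dB3q0 dB4q0 true false)) t 1 1 1 = true :=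
  ⟨(T.l 1), by decide +kernel⟩

def B202E_220 :
    ∃ t, chk3 (onCell 0 67108864 0 1073741824 536870912 50465866 (corW 3 c0B eng mog cB202E gB2q2 gB2q2 gB0q0 gB1q0 dB2q2 dB2q2 dB0q0 dB1q0 true true)) t 1 1 1 = true :=
  ⟨(T.l 1), by decide +kernel⟩

def B202E_221 :
    ∃ t, chk3 (onCell 0 67108864 0 1073741824 536870912 50465866 (corW 3 c0B eng mog cB202E gB2q2 gB2q2 gB1q0 gB2q0 dB2q2 dB2q2 dB1q0 dB2q0 true true)) t 1 1 1 = true :=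
  ⟨(T.l 1), by decide +kernel⟩

def B202E_222 :
    ∃ t, chk3 (onCell 0 67108864 0 1073741824 536870912 50465866 (corW 3 c0B eng mog cB202E gB2q2 gB2q2 gB2q0 gB3q0 dB2q2 dB2q2 dB2q0 dB3q0 true true)) t 1 1 1 = true :=
  ⟨(T.l 1), by decide +kernel⟩

def B202E_223 :
    ∃ t, chk3 (onCell 0 67108864 0 1073741824 536870912 50465866 (corW 3 c0B eng mog cB202E gB2q2 gB2q2 gB3q0 gB4q0 dB2q2 dB2q2 dB3q0 dB4q0 true false)) t 1 1 1 = true :=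
  ⟨(T.l 1), by decide +kernel⟩

def B202E_230 :
    ∃ t, chk3 (onCell 0 67108864 0 1073741824 536870912 50465866 (corW 3 c0B eng mog cB202E gB2q2 gB3q2 gB0q0 gB1q0 dB2q2 dB3q2 dB0q0 dB1q0 true true)) t 1 1 1 = true :=
  ⟨(T.l 1), by decide +kernel⟩

def B202E_231 :
    ∃ t, chk3 (onCell 0 67108864 0 1073741824 536870912 50465866 (corW 3 c0B eng mog cB202E gB2q2 gB3q2 gB1q0 gB2q0 dB2q2 dB3q2 dB1q0 dB2q0 true true)) t 1 1 1 = true :=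
  ⟨(T.l 1), by decide +kernel⟩

def B202E_232 :
    ∃ t, chk3 (onCell 0 67108864 0 1073741824 536870912 50465866 (corW 3 c0B eng mog cB202E gB2q2 gB3q2 gB2q0 gB3q0 dB2q2 dB3q2 dB2q0 dB3q0 true true)) t 1 1 1 = true :=
  ⟨(T.l 1), by decide +kernel⟩

def B202E_233 :
    ∃ t, chk3 (onCell 0 67108864 0 1073741824 536870912 50465866 (corW 3 c0B eng mog cB202E gB2q2 gB3q2 gB3q0 gB4q0 dB2q2 dB3q2 dB3q0 dB4q0 true false)) t 1 1 1 = true :=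
  ⟨(T.l 1), by decide +kernel⟩

def B202E_300 :
    ∃ t, chk3 (onCell 0 67108864 0 1073741824 536870912 50465866 (corW 3 c0B eng mog cB202E gB3q2 gB0q2 gB0q0 gB1q0 dB3q2 dB0q2 dB0q0 dB1q0 true true)) t 1 1 1 = true :=
  ⟨(T.l 1), by decide +kernel⟩

def B202E_301 :
    ∃ t, chk3 (onCell 0 67108864 0 1073741824 536870912 50465866 (corW 3 c0B eng mog cB202E gB3q2 gB0q2 gB1q0 gB2q0 dB3q2 dB0q2 dB1q0 dB2q0 true true)) t 1 1 1 = true :=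
  ⟨(T.l 1), by decide +kernel⟩

def B202E_302 :
    ∃ t, chk3 (onCell 0 67108864 0 1073741824 536870912 50465866 (corW 3 c0B eng mog cB202E gB3q2 gB0q2 gB2q0 gB3q0 dB3q2 dB0q2 dB2q0 dB3q0 true true)) t 1 1 1 = true :=
  ⟨(T.l 1), by decide +kernel⟩

def B202E_303 :
    ∃ t, chk3 (onCell 0 67108864 0 1073741824 536870912 50465866 (corW 3 c0B eng mog cB202E gB3q2 gB0q2 gB3q0 gB4q0 dB3q2 dB0q2 dB3q0 dB4q0 true false)) t 1 1 1 = true :=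
  ⟨(T.l 1), by decide +kernel⟩

def B202E_310 :
    ∃ t, chk3 (onCell 0 67108864 0 1073741824 536870912 50465866 (corW 3 c0B eng mog cB202E gB3q2 gB1q2 gB0q0 gB1q0 dB3q2 dB1q2 dB0q0 dB1q0 true true)) t 1 1 1 = true :=
  ⟨(T.l 1), by decide +kernel⟩

def B202E_311 :
    ∃ t, chk3 (onCell 0 67108864 0 1073741824 536870912 50465866 (corW 3 c0B eng mog cB202E gB3q2 gB1q2 gB1q0 gB2q0 dB3q2 dB1q2 dB1q0 dB2q0 true true)) t 1 1 1 = true :=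
  ⟨(T.l 1), by decide +kernel⟩

def B202E_312 :
    ∃ t, chk3 (onCell 0 67108864 0 1073741824 536870912 50465866 (corW 3 c0B eng mog cB202E gB3q2 gB1q2 gB2q0 gB3q0 dB3q2 dB1q2 dB2q0 dB3q0 true true)) t 1 1 1 = true :=
  ⟨(T.l 1), by decide +kernel⟩

def B202E_313 :
    ∃ t, chk3 (onCell 0 67108864 0 1073741824 536870912 50465866 (corW 3 c0B eng mog cB202E gB3q2 gB1q2 gB3q0 gB4q0 dB3q2 dB1q2 dB3q0 dB4q0 true false)) t 1 1 1 = true :=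
  ⟨(T.l 1), by decide +kernel⟩

def B202E_320 :
    ∃ t, chk3 (onCell 0 67108864 0 1073741824 536870912 50465866 (corW 3 c0B eng mog cB202E gB3q2 gB2q2 gB0q0 gB1q0 dB3q2 dB2q2 dB0q0 dB1q0 true true)) t 1 1 1 = true :=
  ⟨(T.l 1), by decide +kernel⟩

def B202E_321 :
    ∃ t, chk3 (onCell 0 67108864 0 1073741824 536870912 50465866 (corW 3 c0B eng mog cB202E gB3q2 gB2q2 gB1q0 gB2q0 dB3q2 dB2q2 dB1q0 dB2q0 true true)) t 1 1 1 = true :=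
  ⟨(T.l 1), by decide +kernel⟩

def B202E_322 :
    ∃ t, chk3 (onCell 0 67108864 0 1073741824 536870912 50465866 (corW 3 c0B eng mog cB202E gB3q2 gB2q2 gB2q0 gB3q0 dB3q2 dB2q2 dB2q0 dB3q0 true true)) t 1 1 1 = true :=
  ⟨(T.l 1), by decide +kernel⟩

def B202E_323 :
    ∃ t, chk3 (onCell 0 67108864 0 1073741824 536870912 50465866 (corW 3 c0B eng mog cB202E gB3q2 gB2q2 gB3q0 gB4q0 dB3q2 dB2q2 dB3q0 dB4q0 true false)) t 1 1 1 = true :=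
  ⟨(T.l 1), by decide +kernel⟩

def B202E_330 :
    ∃ t, chk3 (onCell 0 67108864 0 1073741824 536870912 50465866 (corW 3 c0B eng mog cB202E gB3q2 gB3q2 gB0q0 gB1q0 dB3q2 dB3q2 dB0q0 dB1q0 true true)) t 1 1 1 = true :=
  ⟨(T.l 1), by decide +kernel⟩

def B202E_331 :
    ∃ t, chk3 (onCell 0 67108864 0 1073741824 536870912 50465866 (corW 3 c0B eng mog cB202E gB3q2 gB3q2 gB1q0 gB2q0 dB3q2 dB3q2 dB1q0 dB2q0 true true)) t 1 1 1 = true :=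
  ⟨(T.l 1), by decide +kernel⟩

def B202E_332 :
    ∃ t, chk3 (onCell 0 67108864 0 1073741824 536870912 50465866 (corW 3 c0B eng mog cB202E gB3q2 gB3q2 gB2q0 gB3q0 dB3q2 dB3q2 dB2q0 dB3q0 true true)) t 1 1 1 = true :=
  ⟨(T.l 1), by decide +kernel⟩

def B202E_333 :
    ∃ t, chk3 (onCell 0 67108864 0 1073741824 536870912 50465866 (corW 3 c0B eng mog cB202E gB3q2 gB3q2 gB3q0 gB4q0 dB3q2 dB3q2 dB3q0 dB4q0 true false)) t 1 1 1 = true :=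
  ⟨(T.l 1), by decide +kernel⟩

def B202L_600 :
    ∃ t, chk3 (onCell 0 67108864 0 1073741824 536870912 50465866 (corW 3 c0B eng mog cB202L gB6q2 gB0q2 gB0q0 gB1q0 dB6q2 dB0q2 dB0q0 dB1q0 true true)) t 1 1 1 = true :=
  ⟨(T.l 2), by decide +kernel⟩

def B202L_601 :
    ∃ t, chk3 (onCell 0 67108864 0 1073741824 536870912 50465866 (corW 3 c0B eng mog cB202L gB6q2 gB0q2 gB1q0 gB2q0 dB6q2 dB0q2 dB1q0 dB2q0 true true)) t 1 1 1 = true :=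
  ⟨(T.l 2), by decide +kernel⟩

def B202L_602 :
    ∃ t, chk3 (onCell 0 67108864 0 1073741824 536870912 50465866 (corW 3 c0B eng mog cB202L gB6q2 gB0q2 gB2q0 gB3q0 dB6q2 dB0q2 dB2q0 dB3q0 true true)) t 1 1 1 = true :=
  ⟨(T.l 2), by decide +kernel⟩

def B202L_603 :
    ∃ t, chk3 (onCell 0 67108864 0 1073741824 536870912 50465866 (corW 3 c0B eng mog cB202L gB6q2 gB0q2 gB3q0 gB4q0 dB6q2 dB0q2 dB3q0 dB4q0 true false)) t 1 1 1 = true :=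
  ⟨(T.a (T.a (T.l 204) (T.l 204)) (T.a (T.l 204) (T.l 204))), by decide +kernel⟩

def B202L_610 :
    ∃ t, chk3 (onCell 0 67108864 0 1073741824 536870912 50465866 (corW 3 c0B eng mog cB202L gB6q2 gB1q2 gB0q0 gB1q0 dB6q2 dB1q2 dB0q0 dB1q0 true true)) t 1 1 1 = true :=
  ⟨(T.l 2), by decide +kernel⟩

def B202L_611 :
    ∃ t, chk3 (onCell 0 67108864 0 1073741824 536870912 50465866 (corW 3 c0B eng mog cB202L gB6q2 gB1q2 gB1q0 gB2q0 dB6q2 dB1q2 dB1q0 dB2q0 true true)) t 1 1 1 = true :=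
  ⟨(T.l 2), by decide +kernel⟩

def B202L_612 :
    ∃ t, chk3 (onCell 0 67108864 0 1073741824 536870912 50465866 (corW 3 c0B eng mog cB202L gB6q2 gB1q2 gB2q0 gB3q0 dB6q2 dB1q2 dB2q0 dB3q0 true true)) t 1 1 1 = true :=
  ⟨(T.l 2), by decide +kernel⟩

def B202L_613 :
    ∃ t, chk3 (onCell 0 67108864 0 1073741824 536870912 50465866 (corW 3 c0B eng mog cB202L gB6q2 gB1q2 gB3q0 gB4q0 dB6q2 dB1q2 dB3q0 dB4q0 true false)) t 1 1 1 = true :=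
  ⟨(T.a (T.a (T.l 204) (T.l 204)) (T.b (T.l 204) (T.l 220))), by decide +kernel⟩

def B202L_620 :
    ∃ t, chk3 (onCell 0 67108864 0 1073741824 536870912 50465866 (corW 3 c0B eng mog cB202L gB6q2 gB2q2 gB0q0 gB1q0 dB6q2 dB2q2 dB0q0 dB1q0 true true)) t 1 1 1 = true :=
  ⟨(T.l 2), by decide +kernel⟩

def B202L_621 :
    ∃ t, chk3 (onCell 0 67108864 0 1073741824 536870912 50465866 (corW 3 c0B eng mog cB202L gB6q2 gB2q2 gB1q0 gB2q0 dB6q2 dB2q2 dB1q0 dB2q0 true true)) t 1 1 1 = true :=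
  ⟨(T.l 2), by decide +kernel⟩

def B202L_622 :
    ∃ t, chk3 (onCell 0 67108864 0 1073741824 536870912 50465866 (corW 3 c0B eng mog cB202L gB6q2 gB2q2 gB2q0 gB3q0 dB6q2 dB2q2 dB2q0 dB3q0 true true)) t 1 1 1 = true :=
  ⟨(T.b (T.a (T.a (T.l 204) (T.l 204)) (T.l 204)) (T.l 2)), by decide +kernel⟩

def B202L_623 :
    ∃ t, chk3 (onCell 0 67108864 0 1073741824 536870912 50465866 (corW 3 c0B eng mog cB202L gB6q2 gB2q2 gB3q0 gB4q0 dB6q2 dB2q2 dB3q0 dB4q0 true false)) t 1 1 1 = true :=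
  ⟨(T.a (T.a (T.l 204) (T.b (T.l 204) (T.l 204))) (T.b (T.l 204) (T.l 204))), by decide +kernel⟩

def B202L_630 :
    ∃ t, chk3 (onCell 0 67108864 0 1073741824 536870912 50465866 (corW 3 c0B eng mog cB202L gB6q2 gB3q2 gB0q0 gB1q0 dB6q2 dB3q2 dB0q0 dB1q0 true true)) t 1 1 1 = true :=
  ⟨(T.b (T.b (T.l 2) (T.a (T.a (T.l 204) (T.l 204)) (T.l 204))) (T.b (T.a (T.a (T.l 0) (T.l 0)) (T.l 0)) (T.l 1))), by decide +kernel⟩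

def B202L_631 :
    ∃ t, chk3 (onCell 0 67108864 0 1073741824 536870912 50465866 (corW 3 c0B eng mog cB202L gB6q2 gB3q2 gB1q0 gB2q0 dB6q2 dB3q2 dB1q0 dB2q0 true true)) t 1 1 1 = true :=
  ⟨(T.b (T.a (T.a (T.l 204) (T.l 204)) (T.l 0)) (T.b (T.a (T.l 1) (T.l 0)) (T.l 1))), by decide +kernel⟩

def B202L_632 :
    ∃ t, chk3 (onCell 0 67108864 0 1073741824 536870912 50465866 (corW 3 c0B eng mog cB202L gB6q2 gB3q2 gB2q0 gB3q0 dB6q2 dB3q2 dB2q0 dB3q0 true true)) t 1 1 1 = true :=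
  ⟨(T.l 1), by decide +kernel⟩

def B202L_633 :
    ∃ t, chk3 (onCell 0 67108864 0 1073741824 536870912 50465866 (corW 3 c0B eng mog cB202L gB6q2 gB3q2 gB3q0 gB4q0 dB6q2 dB3q2 dB3q0 dB4q0 true false)) t 1 1 1 = true :=
  ⟨(T.l 1), by decide +kernel⟩

def B202R_060 :
    ∃ t, chk3 (onCell 0 67108864 0 1073741824 536870912 50465866 (corW 3 c0B eng mog cB202R gB0q2 gB6q2 gB0q0 gB1q0 dB0q2 dB6q2 dB0q0 dB1q0 true true)) t 1 1 1 = true :=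
  ⟨(T.b (T.b (T.l 1) (T.b (T.b (T.l 1) (T.b (T.b (T.a (T.l 1) (T.b (T.l 1) (T.b (T.l 1) (T.b (T.l 1) (T.a (T.a (T.l 1) (T.a (T.l 1) (T.a (T.l 1) (T.b (T.l 1) (T.l 0))))) (T.a (T.b (T.a (T.l 1) (T.a (T.l 1) (T.l 0))) (T.l 0)) (T.l 0))))))) (T.a (T.b (T.b (T.a (T.a (T.l 1) (T.b (T.l 1) (T.b (T.l 1) (T.b (T.l 1) (T.l 0))))) (T.b (T.a (T.l 1) (T.a (T.l 1) (T.b (T.l 1) (T.c (T.l 0) (T.l 0))))) (T.a (T.c (T.a (T.b (T.l 1) (T.l 0)) (T.l 0)) (T.l 0)) (T.l 0)))) (T.a (T.c (T.a (T.c (T.a (T.l 0) (T.l 0)) (T.l 0)) (T.l 0)) (T.l 0)) (T.l 0))) (T.l 0)) (T.b (T.a (T.b (T.a (T.b (T.b (T.a (T.l 1) (T.c (T.l 0) (T.l 0))) (T.l 0)) (T.l 0)) (T.l 0)) (T.l 204)) (T.l 0)) (T.l 204)))) (T.a (T.l 0) (T.l 204)))) (T.b (T.a (T.l 204) (T.l 204)) (T.l 2)))) (T.l 2)), by decide +kernel⟩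

def B202R_061 :
    ∃ t, chk3 (onCell 0 67108864 0 1073741824 536870912 50465866 (corW 3 c0B eng mog cB202R gB0q2 gB6q2 gB1q0 gB2q0 dB0q2 dB6q2 dB1q0 dB2q0 true true)) t 1 1 1 = true :=
  ⟨(T.b (T.b (T.l 1) (T.b (T.l 1) (T.b (T.a (T.l 204) (T.l 204)) (T.a (T.l 204) (T.a (T.l 204) (T.l 204)))))) (T.b (T.a (T.l 204) (T.b (T.a (T.l 204) (T.l 0)) (T.l 2))) (T.l 2))), by decide +kernel⟩

def B202R_062 :
    ∃ t, chk3 (onCell 0 67108864 0 1073741824 536870912 50465866 (corW 3 c0B eng mog cB202R gB0q2 gB6q2 gB2q0 gB3q0 dB0q2 dB6q2 dB2q0 dB3q0 true true)) t 1 1 1 = true :=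
  ⟨(T.b (T.b (T.l 1) (T.b (T.l 1) (T.a (T.l 1) (T.b (T.l 1) (T.a (T.l 1) (T.l 204)))))) (T.b (T.a (T.l 204) (T.b (T.a (T.l 204) (T.l 0)) (T.l 2))) (T.l 2))), by decide +kernel⟩

def B202R_063 :
    ∃ t, chk3 (onCell 0 67108864 0 1073741824 536870912 50465866 (corW 3 c0B eng mog cB202R gB0q2 gB6q2 gB3q0 gB4q0 dB0q2 dB6q2 dB3q0 dB4q0 true false)) t 1 1 1 = true :=
  ⟨(T.b (T.l 1) (T.b (T.a (T.l 0) (T.b (T.a (T.l 0) (T.l 0)) (T.a (T.l 0) (T.l 204)))) (T.b (T.a (T.l 204) (T.a (T.l 204) (T.l 204))) (T.a (T.a (T.l 204) (T.l 204)) (T.a (T.l 204) (T.l 204)))))), by decide +kernel⟩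

def B202R_160 :
    ∃ t, chk3 (onCell 0 67108864 0 1073741824 536870912 50465866 (corW 3 c0B eng mog cB202R gB1q2 gB6q2 gB0q0 gB1q0 dB1q2 dB6q2 dB0q0 dB1q0 true true)) t 1 1 1 = true :=
  ⟨(T.b (T.b (T.l 1) (T.b (T.b (T.l 1) (T.b (T.l 1) (T.b (T.l 1) (T.b (T.l 1) (T.a (T.a (T.l 1) (T.l 0)) (T.l 0)))))) (T.b (T.a (T.a (T.l 0) (T.l 0)) (T.l 0)) (T.b (T.l 204) (T.l 2))))) (T.b (T.l 2) (T.l 2))), by decide +kernel⟩

def B202R_161 :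
    ∃ t, chk3 (onCell 0 67108864 0 1073741824 536870912 50465866 (corW 3 c0B eng mog cB202R gB1q2 gB6q2 gB1q0 gB2q0 dB1q2 dB6q2 dB1q0 dB2q0 true true)) t 1 1 1 = true :=
  ⟨(T.b (T.b (T.l 1) (T.b (T.l 1) (T.b (T.b (T.l 1) (T.l 204)) (T.a (T.l 204) (T.a (T.l 204) (T.l 0)))))) (T.b (T.a (T.l 204) (T.b (T.a (T.l 204) (T.l 0)) (T.l 2))) (T.l 2))), by decide +kernel⟩

def B202R_162 :
    ∃ t, chk3 (onCell 0 67108864 0 1073741824 536870912 50465866 (corW 3 c0B eng mog cB202R gB1q2 gB6q2 gB2q0 gB3q0 dB1q2 dB6q2 dB2q0 dB3q0 true true)) t 1 1 1 = true :=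
  ⟨(T.b (T.l 1) (T.b (T.b (T.a (T.l 204) (T.a (T.l 204) (T.l 0))) (T.a (T.l 204) (T.a (T.l 0) (T.l 204)))) (T.l 2))), by decide +kernel⟩

def B202R_163 :
    ∃ t, chk3 (onCell 0 67108864 0 1073741824 536870912 50465866 (corW 3 c0B eng mog cB202R gB1q2 gB6q2 gB3q0 gB4q0 dB1q2 dB6q2 dB3q0 dB4q0 true false)) t 1 1 1 = true :=
  ⟨(T.b (T.l 1) (T.b (T.b (T.l 1) (T.a (T.l 204) (T.a (T.l 0) (T.l 204)))) (T.b (T.a (T.l 204) (T.b (T.l 204) (T.l 204))) (T.a (T.a (T.l 204) (T.b (T.l 204) (T.l 204))) (T.a (T.l 204) (T.l 204)))))), by decide +kernel⟩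

def B202R_260 :
    ∃ t, chk3 (onCell 0 67108864 0 1073741824 536870912 50465866 (corW 3 c0B eng mog cB202R gB2q2 gB6q2 gB0q0 gB1q0 dB2q2 dB6q2 dB0q0 dB1q0 true true)) t 1 1 1 = true :=
  ⟨(T.b (T.l 1) (T.b (T.b (T.b (T.b (T.a (T.l 1) (T.a (T.l 1) (T.a (T.l 1) (T.l 0)))) (T.a (T.l 0) (T.a (T.l 0) (T.l 0)))) (T.a (T.l 0) (T.a (T.l 0) (T.l 0)))) (T.a (T.l 204) (T.l 2))) (T.l 2))), by decide +kernel⟩

def B202R_261 :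
    ∃ t, chk3 (onCell 0 67108864 0 1073741824 536870912 50465866 (corW 3 c0B eng mog cB202R gB2q2 gB6q2 gB1q0 gB2q0 dB2q2 dB6q2 dB1q0 dB2q0 true true)) t 1 1 1 = true :=
  ⟨(T.b (T.l 1) (T.b (T.b (T.b (T.l 1) (T.a (T.l 0) (T.a (T.l 204) (T.l 0)))) (T.a (T.l 204) (T.a (T.b (T.l 0) (T.l 0)) (T.l 0)))) (T.b (T.l 2) (T.l 2)))), by decide +kernel⟩

def B202R_262 :
    ∃ t, chk3 (onCell 0 67108864 0 1073741824 536870912 50465866 (corW 3 c0B eng mog cB202R gB2q2 gB6q2 gB2q0 gB3q0 dB2q2 dB6q2 dB2q0 dB3q0 true true)) t 1 1 1 = true :=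
  ⟨(T.b (T.l 1) (T.b (T.b (T.l 1) (T.a (T.l 204) (T.a (T.b (T.l 1) (T.l 0)) (T.l 0)))) (T.b (T.a (T.l 204) (T.a (T.l 0) (T.l 204))) (T.l 2)))), by decide +kernel⟩

def B202R_263 :
    ∃ t, chk3 (onCell 0 67108864 0 1073741824 536870912 50465866 (corW 3 c0B eng mog cB202R gB2q2 gB6q2 gB3q0 gB4q0 dB2q2 dB6q2 dB3q0 dB4q0 true false)) t 1 1 1 = true :=
  ⟨(T.b (T.l 1) (T.b (T.l 1) (T.b (T.a (T.l 0) (T.a (T.l 0) (T.l 0))) (T.a (T.a (T.l 204) (T.b (T.l 204) (T.l 204))) (T.a (T.l 204) (T.l 204)))))), by decide +kernel⟩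

def B202R_360 :
    ∃ t, chk3 (onCell 0 67108864 0 1073741824 536870912 50465866 (corW 3 c0B eng mog cB202R gB3q2 gB6q2 gB0q0 gB1q0 dB3q2 dB6q2 dB0q0 dB1q0 true true)) t 1 1 1 = true :=
  ⟨(T.l 1), by decide +kernel⟩

def B202R_361 :
    ∃ t, chk3 (onCell 0 67108864 0 1073741824 536870912 50465866 (corW 3 c0B eng mog cB202R gB3q2 gB6q2 gB1q0 gB2q0 dB3q2 dB6q2 dB1q0 dB2q0 true true)) t 1 1 1 = true :=
  ⟨(T.l 1), by decide +kernel⟩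

def B202R_362 :
    ∃ t, chk3 (onCell 0 67108864 0 1073741824 536870912 50465866 (corW 3 c0B eng mog cB202R gB3q2 gB6q2 gB2q0 gB3q0 dB3q2 dB6q2 dB2q0 dB3q0 true true)) t 1 1 1 = true :=
  ⟨(T.l 1), by decide +kernel⟩

def B202R_363 :
    ∃ t, chk3 (onCell 0 67108864 0 1073741824 536870912 50465866 (corW 3 c0B eng mog cB202R gB3q2 gB6q2 gB3q0 gB4q0 dB3q2 dB6q2 dB3q0 dB4q0 true false)) t 1 1 1 = true :=
  ⟨(T.l 1), by decide +kernel⟩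

end Pool.Agent.Strip051.G.I5000_5470.Tab.CW
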