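import Pool.Agent.Strip051.G.I5000_5470.CrnB
import Pool.Agent.Strip051.G.I5000_5470.CG_1
import Pool.Agent.Strip051.G.I5000_5470.CG_2
import Pool.Agent.Strip051.G.I5000_5470.CW_1
import Pool.Agent.Strip051.G.I5000_5470.CW_2

/-! # Aligned corners: the alternatives (generated) -/

set_option linter.all false

namespace Pool.Agent.Strip051.G.I5000_5470.Tab

open Pool.Agent.Strip051.PB Pool.Agent.StripNear Pool.Agent.Strip051.LC

theorem altB_B101E_00 {κ x : ℝ} (hκ : κ * h0 = ken x) (hx : ((536870912 : ℕ) : ℝ) / S ≤ x) (hx' : x ≤ (((536870912 : ℕ) : ℝ) + (50465866 : ℕ)) / S) :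
    AltEB 3 κ (eng.v x) (3 / 40) (tnt (h0 * x) (3 / 10)) PP tK tL tC pcB (scP esg pd) [⟨0, 1, 0, 67108864⟩, ⟨1, 0, 0, 67108864⟩, ⟨2, 1, 0, 67108864⟩] 1 0 1 0 0 (sgb true) (sgb false) x := by
  have X : XR 67108864 x := XR.of hx hx' (by norm_num) (by norm_num) (by norm_num) (by norm_num)
  have hen : 0 < eng.v x := en_pos X.x0.le
  refine CornW.altB (C := cB101E) (j := (0 : Fin 7)) (k := (0 : Fin 7)) (Ef := esg) (pd := pd) (o := 3 / 40)
    (cornW_of (C := cB101E) (C0 := c0B) (En := eng) (mo := mog) (j := (0 : Fin 7)) (k := (0 : Fin 7)) (lo := 0) (hi := 3) (W := 67108864) (N0 := 3) cB101E_q (sideB hx hx') gokB (pinU hx hx') dokB X (by norm_num) (by norm_num) (l := (0 : Fin 7)) rfl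
      (gatB01 x) (gatB01 x) (gatB00 x) (datB01 x) (datB01 x) (datB00 x) ?_)
    (cornS_of (C := cB101E) (C0 := c0B) (j := (0 : Fin 7)) (k := (0 : Fin 7)) (lo := 0) (hi := 3) (W := 67108864) (N0 := 3) cB101E_q (sideB hx hx') gokB X (by norm_num) (by norm_num) (l := (0 : Fin 7)) rfl
      (gatB01 x) (gatB01 x) (gatB00 x) ?_)
    (thU (pinU hx hx')) rfl hκ (fun j q y => tC_eq j q y x) (esg_rng X.x0.le (by linarith [X.b, X.p0])).1 (mo_v x) le_rfl le_rfl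
  · intro ρ a B hρ hd i h1 h2
    fin_cases i
    · exact corW_cert (G1 := gB0q1) (G2 := gB0q1) (Ga := gB0q0) (Gb := gB1q0) (D1 := dB0q1) (D2 := dB0q1) (Da := dB0q0) (Db := dB1q0) cB101E_ok B hρ hen (gatB01 x) (gatB01 x) (fun _ => gatB00 x) (fun _ => gatB10 x) (datB01 x) (datB01 x) (fun _ => datB00 x) (fun _ => datB10 x) hd hx hx' CW.B101E_000
    · exact corW_cert (G1 := gB0q1) (G2 := gB0q1) (Ga := gB1q0) (Gb := gB2q0) (D1 := dB0q1) (D2 := dB0q1) (Da := dB1q0) (Db := dB2q0) cB101E_ok B hρ hen (gatB01 x) (gatB01 x) (fun _ => gatB10 x) (fun _ => gatB20 x) (datB01 x) (datB01 x) (fun _ => datB10 x) (fun _ => datB20 x) hd hx hx' CW.B101E_001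
    · exact corW_cert (G1 := gB0q1) (G2 := gB0q1) (Ga := gB2q0) (Gb := gB3q0) (D1 := dB0q1) (D2 := dB0q1) (Da := dB2q0) (Db := dB3q0) cB101E_ok B hρ hen (gatB01 x) (gatB01 x) (fun _ => gatB20 x) (fun _ => gatB30 x) (datB01 x) (datB01 x) (fun _ => datB20 x) (fun _ => datB30 x) hd hx hx' CW.B101E_002
    · exact corW_cert (G1 := gB0q1) (G2 := gB0q1) (Ga := gB3q0) (Gb := gB4q0) (D1 := dB0q1) (D2 := dB0q1) (Da := dB3q0) (Db := dB4q0) cB101E_ok B hρ hen (gatB01 x) (gatB01 x) (fun _ => gatB30 x) (fun h => absurd h (by decide)) (datB01 x) (datB01 x) (fun _ => datB30 x) (fun h => absurd h (by decide)) hd hx hx' CW.B101E_003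
    · exact absurd h2 (by norm_num)
    · exact absurd h2 (by norm_num)
  · intro ρ a B hρ hd i h1 h2
    fin_cases i
    · exact corT_cert (G1 := gB0q1) (G2 := gB0q1) (Ga := gB0q0) (Gb := gB1q0) cB101E_ok B hρ (gatB01 x) (gatB01 x) (fun _ => gatB00 x) (fun _ => gatB10 x) hd hx hx' CG.B101E_000
    · exact corT_cert (G1 := gB0q1) (G2 := gB0q1) (Ga := gB1q0) (Gb := gB2q0) cB101E_ok B hρ (gatB01 x) (gatB01 x) (fun _ => gatB10 x) (fun _ => gatB20 x) hd hx hx' CG.B101E_001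
    · exact corT_cert (G1 := gB0q1) (G2 := gB0q1) (Ga := gB2q0) (Gb := gB3q0) cB101E_ok B hρ (gatB01 x) (gatB01 x) (fun _ => gatB20 x) (fun _ => gatB30 x) hd hx hx' CG.B101E_002
    · exact corT_cert (G1 := gB0q1) (G2 := gB0q1) (Ga := gB3q0) (Gb := gB4q0) cB101E_ok B hρ (gatB01 x) (gatB01 x) (fun _ => gatB30 x) (fun h => absurd h (by decide)) hd hx hx' CG.B101E_003
    · exact absurd h2 (by norm_num)
    · exact absurd h2 (by norm_num)

theorem altB_B101L_40 {κ x : ℝ} (hκ : κ * h0 = ken x) (hx : ((536870912 : ℕ) : ℝ) / S ≤ x) (hx' : x ≤ (((536870912 : ℕ) : ℝ) + (50465866 : ℕ)) / S) :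
    AltEB 3 κ (eng.v x) (3 / 40) (tnt (h0 * x) (3 / 10)) PP tK tL tC pcB (scP esg pd) [⟨0, 1, 0, 67108864⟩, ⟨1, 0, 0, 67108864⟩, ⟨2, 1, 0, 67108864⟩] 1 0 1 4 0 (sgb true) (sgb true) x := by
  have X : XR 67108864 x := XR.of hx hx' (by norm_num) (by norm_num) (by norm_num) (by norm_num)
  have hen : 0 < eng.v x := en_pos X.x0.le
  refine CornW.altB (C := cB101L) (j := (4 : Fin 7)) (k := (0 : Fin 7)) (Ef := esg) (pd := pd) (o := 3 / 40)
    (cornW_of (C := cB101L) (C0 := c0B) (En := eng) (mo := mog) (j := (4 : Fin 7)) (k := (0 : Fin 7)) (lo := 0) (hi := 3) (W := 67108864) (N0 := 3) cB101L_q (sideB hx hx') gokB (pinU hx hx') dokB X (by norm_num) (by norm_num) (l := (0 : Fin 7)) rfl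
      (gatB41 x) (gatB01 x) (gatB00 x) (datB41 x) (datB01 x) (datB00 x) ?_)
    (cornS_of (C := cB101L) (C0 := c0B) (j := (4 : Fin 7)) (k := (0 : Fin 7)) (lo := 0) (hi := 3) (W := 67108864) (N0 := 3) cB101L_q (sideB hx hx') gokB X (by norm_num) (by norm_num) (l := (0 : Fin 7)) rfl
      (gatB41 x) (gatB01 x) (gatB00 x) ?_)
    (thU (pinU hx hx')) rfl hκ (fun j q y => tC_eq j q y x) (esg_rng X.x0.le (by linarith [X.b, X.p0])).1 (mo_v x) le_rfl le_rfl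
  · intro ρ a B hρ hd i h1 h2
    fin_cases i
    · exact corW_cert (G1 := gB4q1) (G2 := gB0q1) (Ga := gB0q0) (Gb := gB1q0) (D1 := dB4q1) (D2 := dB0q1) (Da := dB0q0) (Db := dB1q0) cB101L_ok B hρ hen (gatB41 x) (gatB01 x) (fun _ => gatB00 x) (fun _ => gatB10 x) (datB41 x) (datB01 x) (fun _ => datB00 x) (fun _ => datB10 x) hd hx hx' CW.B101L_400
    · exact corW_cert (G1 := gB4q1) (G2 := gB0q1) (Ga := gB1q0) (Gb := gB2q0) (D1 := dB4q1) (D2 := dB0q1) (Da := dB1q0) (Db := dB2q0) cB101L_ok B hρ hen (gatB41 x) (gatB01 x) (fun _ => gatB10 x) (fun _ => gatB20 x) (datB41 x) (datB01 x) (fun _ => datB10 x) (fun _ => datB20 x) hd hx hx' CW.B101L_401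
    · exact corW_cert (G1 := gB4q1) (G2 := gB0q1) (Ga := gB2q0) (Gb := gB3q0) (D1 := dB4q1) (D2 := dB0q1) (Da := dB2q0) (Db := dB3q0) cB101L_ok B hρ hen (gatB41 x) (gatB01 x) (fun _ => gatB20 x) (fun _ => gatB30 x) (datB41 x) (datB01 x) (fun _ => datB20 x) (fun _ => datB30 x) hd hx hx' CW.B101L_402
    · exact corW_cert (G1 := gB4q1) (G2 := gB0q1) (Ga := gB3q0) (Gb := gB4q0) (D1 := dB4q1) (D2 := dB0q1) (Da := dB3q0) (Db := dB4q0) cB101L_ok B hρ hen (gatB41 x) (gatB01 x) (fun _ => gatB30 x) (fun h => absurd h (by decide)) (datB41 x) (datB01 x) (fun _ => datB30 x) (fun h => absurd h (by decide)) hd hx hx' CW.B101L_403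
    · exact absurd h2 (by norm_num)
    · exact absurd h2 (by norm_num)
  · intro ρ a B hρ hd i h1 h2
    fin_cases i
    · exact corT_cert (G1 := gB4q1) (G2 := gB0q1) (Ga := gB0q0) (Gb := gB1q0) cB101L_ok B hρ (gatB41 x) (gatB01 x) (fun _ => gatB00 x) (fun _ => gatB10 x) hd hx hx' CG.B101L_400
    · exact corT_cert (G1 := gB4q1) (G2 := gB0q1) (Ga := gB1q0) (Gb := gB2q0) cB101L_ok B hρ (gatB41 x) (gatB01 x) (fun _ => gatB10 x) (fun _ => gatB20 x) hd hx hx' CG.B101L_401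
    · exact corT_cert (G1 := gB4q1) (G2 := gB0q1) (Ga := gB2q0) (Gb := gB3q0) cB101L_ok B hρ (gatB41 x) (gatB01 x) (fun _ => gatB20 x) (fun _ => gatB30 x) hd hx hx' CG.B101L_402
    · exact corT_cert (G1 := gB4q1) (G2 := gB0q1) (Ga := gB3q0) (Gb := gB4q0) cB101L_ok B hρ (gatB41 x) (gatB01 x) (fun _ => gatB30 x) (fun h => absurd h (by decide)) hd hx hx' CG.B101L_403
    · exact absurd h2 (by norm_num)
    · exact absurd h2 (by norm_num)

theorem altB_B101L_50 {κ x : ℝ} (hκ : κ * h0 = ken x) (hx : ((536870912 : ℕ) : ℝ) / S ≤ x) (hx' : x ≤ (((536870912 : ℕ) : ℝ) + (50465866 : ℕ)) / S) :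
    AltEB 3 κ (eng.v x) (3 / 40) (tnt (h0 * x) (3 / 10)) PP tK tL tC pcB (scP esg pd) [⟨0, 1, 0, 67108864⟩, ⟨1, 0, 0, 67108864⟩, ⟨2, 1, 0, 67108864⟩] 1 0 1 5 0 (sgb true) (sgb true) x := by
  have X : XR 67108864 x := XR.of hx hx' (by norm_num) (by norm_num) (by norm_num) (by norm_num)
  have hen : 0 < eng.v x := en_pos X.x0.le
  refine CornW.altB (C := cB101L) (j := (5 : Fin 7)) (k := (0 : Fin 7)) (Ef := esg) (pd := pd) (o := 3 / 40)
    (cornW_of (C := cB101L) (C0 := c0B) (En := eng) (mo := mog) (j := (5 : Fin 7)) (k := (0 : Fin 7)) (lo := 0) (hi := 3) (W := 67108864) (N0 := 3) cB101L_q (sideB hx hx') gokB (pinU hx hx') dokB X (by norm_num) (by norm_num) (l := (0 : Fin 7)) rfl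
      (gatB51 x) (gatB01 x) (gatB00 x) (datB51 x) (datB01 x) (datB00 x) ?_)
    (cornS_of (C := cB101L) (C0 := c0B) (j := (5 : Fin 7)) (k := (0 : Fin 7)) (lo := 0) (hi := 3) (W := 67108864) (N0 := 3) cB101L_q (sideB hx hx') gokB X (by norm_num) (by norm_num) (l := (0 : Fin 7)) rfl
      (gatB51 x) (gatB01 x) (gatB00 x) ?_)
    (thU (pinU hx hx')) rfl hκ (fun j q y => tC_eq j q y x) (esg_rng X.x0.le (by linarith [X.b, X.p0])).1 (mo_v x) le_rfl le_rfl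
  · intro ρ a B hρ hd i h1 h2
    fin_cases i
    · exact corW_cert (G1 := gB5q1) (G2 := gB0q1) (Ga := gB0q0) (Gb := gB1q0) (D1 := dB5q1) (D2 := dB0q1) (Da := dB0q0) (Db := dB1q0) cB101L_ok B hρ hen (gatB51 x) (gatB01 x) (fun _ => gatB00 x) (fun _ => gatB10 x) (datB51 x) (datB01 x) (fun _ => datB00 x) (fun _ => datB10 x) hd hx hx' CW.B101L_500
    · exact corW_cert (G1 := gB5q1) (G2 := gB0q1) (Ga := gB1q0) (Gb := gB2q0) (D1 := dB5q1) (D2 := dB0q1) (Da := dB1q0) (Db := dB2q0) cB101L_ok B hρ hen (gatB51 x) (gatB01 x) (fun _ => gatB10 x) (fun _ => gatB20 x) (datB51 x) (datB01 x) (fun _ => datB10 x) (fun _ => datB20 x) hd hx hx' CW.B101L_501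
    · exact corW_cert (G1 := gB5q1) (G2 := gB0q1) (Ga := gB2q0) (Gb := gB3q0) (D1 := dB5q1) (D2 := dB0q1) (Da := dB2q0) (Db := dB3q0) cB101L_ok B hρ hen (gatB51 x) (gatB01 x) (fun _ => gatB20 x) (fun _ => gatB30 x) (datB51 x) (datB01 x) (fun _ => datB20 x) (fun _ => datB30 x) hd hx hx' CW.B101L_502
    · exact corW_cert (G1 := gB5q1) (G2 := gB0q1) (Ga := gB3q0) (Gb := gB4q0) (D1 := dB5q1) (D2 := dB0q1) (Da := dB3q0) (Db := dB4q0) cB101L_ok B hρ hen (gatB51 x) (gatB01 x) (fun _ => gatB30 x) (fun h => absurd h (by decide)) (datB51 x) (datB01 x) (fun _ => datB30 x) (fun h => absurd h (by decide)) hd hx hx' CW.B101L_503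
    · exact absurd h2 (by norm_num)
    · exact absurd h2 (by norm_num)
  · intro ρ a B hρ hd i h1 h2
    fin_cases i
    · exact corT_cert (G1 := gB5q1) (G2 := gB0q1) (Ga := gB0q0) (Gb := gB1q0) cB101L_ok B hρ (gatB51 x) (gatB01 x) (fun _ => gatB00 x) (fun _ => gatB10 x) hd hx hx' CG.B101L_500
    · exact corT_cert (G1 := gB5q1) (G2 := gB0q1) (Ga := gB1q0) (Gb := gB2q0) cB101L_ok B hρ (gatB51 x) (gatB01 x) (fun _ => gatB10 x) (fun _ => gatB20 x) hd hx hx' CG.B101L_501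
    · exact corT_cert (G1 := gB5q1) (G2 := gB0q1) (Ga := gB2q0) (Gb := gB3q0) cB101L_ok B hρ (gatB51 x) (gatB01 x) (fun _ => gatB20 x) (fun _ => gatB30 x) hd hx hx' CG.B101L_502
    · exact corT_cert (G1 := gB5q1) (G2 := gB0q1) (Ga := gB3q0) (Gb := gB4q0) cB101L_ok B hρ (gatB51 x) (gatB01 x) (fun _ => gatB30 x) (fun h => absurd h (by decide)) hd hx hx' CG.B101L_503
    · exact absurd h2 (by norm_num)
    · exact absurd h2 (by norm_num)

theorem altB_B101L_60 {κ x : ℝ} (hκ : κ * h0 = ken x) (hx : ((536870912 : ℕ) : ℝ) / S ≤ x) (hx' : x ≤ (((536870912 : ℕ) : ℝ) + (50465866 : ℕ)) / S) :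
    AltEB 3 κ (eng.v x) (3 / 40) (tnt (h0 * x) (3 / 10)) PP tK tL tC pcB (scP esg pd) [⟨0, 1, 0, 67108864⟩, ⟨1, 0, 0, 67108864⟩, ⟨2, 1, 0, 67108864⟩] 1 0 1 6 0 (sgb true) (sgb true) x := by
  have X : XR 67108864 x := XR.of hx hx' (by norm_num) (by norm_num) (by norm_num) (by norm_num)
  have hen : 0 < eng.v x := en_pos X.x0.le
  refine CornW.altB (C := cB101L) (j := (6 : Fin 7)) (k := (0 : Fin 7)) (Ef := esg) (pd := pd) (o := 3 / 40)
    (cornW_of (C := cB101L) (C0 := c0B) (En := eng) (mo := mog) (j := (6 : Fin 7)) (k := (0 : Fin 7)) (lo := 0) (hi := 3) (W := 67108864) (N0 := 3) cB101L_q (sideB hx hx') gokB (pinU hx hx') dokB X (by norm_num) (by norm_num) (l := (0 : Fin 7)) rfl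
      (gatB61 x) (gatB01 x) (gatB00 x) (datB61 x) (datB01 x) (datB00 x) ?_)
    (cornS_of (C := cB101L) (C0 := c0B) (j := (6 : Fin 7)) (k := (0 : Fin 7)) (lo := 0) (hi := 3) (W := 67108864) (N0 := 3) cB101L_q (sideB hx hx') gokB X (by norm_num) (by norm_num) (l := (0 : Fin 7)) rfl
      (gatB61 x) (gatB01 x) (gatB00 x) ?_)
    (thU (pinU hx hx')) rfl hκ (fun j q y => tC_eq j q y x) (esg_rng X.x0.le (by linarith [X.b, X.p0])).1 (mo_v x) le_rfl le_rfl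
  · intro ρ a B hρ hd i h1 h2
    fin_cases i
    · exact corW_cert (G1 := gB6q1) (G2 := gB0q1) (Ga := gB0q0) (Gb := gB1q0) (D1 := dB6q1) (D2 := dB0q1) (Da := dB0q0) (Db := dB1q0) cB101L_ok B hρ hen (gatB61 x) (gatB01 x) (fun _ => gatB00 x) (fun _ => gatB10 x) (datB61 x) (datB01 x) (fun _ => datB00 x) (fun _ => datB10 x) hd hx hx' CW.B101L_600
    · exact corW_cert (G1 := gB6q1) (G2 := gB0q1) (Ga := gB1q0) (Gb := gB2q0) (D1 := dB6q1) (D2 := dB0q1) (Da := dB1q0) (Db := dB2q0) cB101L_ok B hρ hen (gatB61 x) (gatB01 x) (fun _ => gatB10 x) (fun _ => gatB20 x) (datB61 x) (datB01 x) (fun _ => datB10 x) (fun _ => datB20 x) hd hx hx' CW.B101L_601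
    · exact corW_cert (G1 := gB6q1) (G2 := gB0q1) (Ga := gB2q0) (Gb := gB3q0) (D1 := dB6q1) (D2 := dB0q1) (Da := dB2q0) (Db := dB3q0) cB101L_ok B hρ hen (gatB61 x) (gatB01 x) (fun _ => gatB20 x) (fun _ => gatB30 x) (datB61 x) (datB01 x) (fun _ => datB20 x) (fun _ => datB30 x) hd hx hx' CW.B101L_602
    · exact corW_cert (G1 := gB6q1) (G2 := gB0q1) (Ga := gB3q0) (Gb := gB4q0) (D1 := dB6q1) (D2 := dB0q1) (Da := dB3q0) (Db := dB4q0) cB101L_ok B hρ hen (gatB61 x) (gatB01 x) (fun _ => gatB30 x) (fun h => absurd h (by decide)) (datB61 x) (datB01 x) (fun _ => datB30 x) (fun h => absurd h (by decide)) hd hx hx' CW.B101L_603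
    · exact absurd h2 (by norm_num)
    · exact absurd h2 (by norm_num)
  · intro ρ a B hρ hd i h1 h2
    fin_cases i
    · exact corX_cert (G1 := gB6q1) (G2 := gB0q1) (Ga := gB0q0) (Gb := gB1q0) (GT := gB0q0) cB101L_ok tB101L_ok B hρ (gatB61 x) (gatB01 x) (fun _ => gatB00 x) (fun _ => gatB10 x) rfl (tgh_B101L (kodd x) (gpt1 x) (gpu1 x) (gpu0 x) (gatB61 x) (gatB01 x) (gatB00 x) B (le_sixteenth hd (by norm_num))) hd hx hx' CG.B101L_600
    · exact corT_cert (G1 := gB6q1) (G2 := gB0q1) (Ga := gB1q0) (Gb := gB2q0) cB101L_ok B hρ (gatB61 x) (gatB01 x) (fun _ => gatB10 x) (fun _ => gatB20 x) hd hx hx' CG.B101L_601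
    · exact corT_cert (G1 := gB6q1) (G2 := gB0q1) (Ga := gB2q0) (Gb := gB3q0) cB101L_ok B hρ (gatB61 x) (gatB01 x) (fun _ => gatB20 x) (fun _ => gatB30 x) hd hx hx' CG.B101L_602
    · exact corT_cert (G1 := gB6q1) (G2 := gB0q1) (Ga := gB3q0) (Gb := gB4q0) cB101L_ok B hρ (gatB61 x) (gatB01 x) (fun _ => gatB30 x) (fun h => absurd h (by decide)) hd hx hx' CG.B101L_603
    · exact absurd h2 (by norm_num)
    · exact absurd h2 (by norm_num)

theorem altB_B101R_04 {κ x : ℝ} (hκ : κ * h0 = ken x) (hx : ((536870912 : ℕ) : ℝ) / S ≤ x) (hx' : x ≤ (((536870912 : ℕ) : ℝ) + (50465866 : ℕ)) / S) :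
    AltEB 3 κ (eng.v x) (3 / 40) (tnt (h0 * x) (3 / 10)) PP tK tL tC pcB (scP esg pd) [⟨0, 1, 0, 67108864⟩, ⟨1, 0, 0, 67108864⟩, ⟨2, 1, 0, 67108864⟩] 1 0 1 0 4 (sgb false) (sgb false) x := by
  have X : XR 67108864 x := XR.of hx hx' (by norm_num) (by norm_num) (by norm_num) (by norm_num)
  have hen : 0 < eng.v x := en_pos X.x0.le
  refine CornW.altB (C := cB101R) (j := (0 : Fin 7)) (k := (4 : Fin 7)) (Ef := esg) (pd := pd) (o := 3 / 40)
    (cornW_of (C := cB101R) (C0 := c0B) (En := eng) (mo := mog) (j := (0 : Fin 7)) (k := (4 : Fin 7)) (lo := 0) (hi := 3) (W := 67108864) (N0 := 3) cB101R_q (sideB hx hx') gokB (pinU hx hx') dokB X (by norm_num) (by norm_num) (l := (0 : Fin 7)) rfl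
      (gatB01 x) (gatB41 x) (gatB00 x) (datB01 x) (datB41 x) (datB00 x) ?_)
    (cornS_of (C := cB101R) (C0 := c0B) (j := (0 : Fin 7)) (k := (4 : Fin 7)) (lo := 0) (hi := 3) (W := 67108864) (N0 := 3) cB101R_q (sideB hx hx') gokB X (by norm_num) (by norm_num) (l := (0 : Fin 7)) rfl
      (gatB01 x) (gatB41 x) (gatB00 x) ?_)
    (thU (pinU hx hx')) rfl hκ (fun j q y => tC_eq j q y x) (esg_rng X.x0.le (by linarith [X.b, X.p0])).1 (mo_v x) le_rfl le_rfl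
  · intro ρ a B hρ hd i h1 h2
    fin_cases i
    · exact corW_cert (G1 := gB0q1) (G2 := gB4q1) (Ga := gB0q0) (Gb := gB1q0) (D1 := dB0q1) (D2 := dB4q1) (Da := dB0q0) (Db := dB1q0) cB101R_ok B hρ hen (gatB01 x) (gatB41 x) (fun _ => gatB00 x) (fun _ => gatB10 x) (datB01 x) (datB41 x) (fun _ => datB00 x) (fun _ => datB10 x) hd hx hx' CW.B101R_040
    · exact corW_cert (G1 := gB0q1) (G2 := gB4q1) (Ga := gB1q0) (Gb := gB2q0) (D1 := dB0q1) (D2 := dB4q1) (Da := dB1q0) (Db := dB2q0) cB101R_ok B hρ hen (gatB01 x) (gatB41 x) (fun _ => gatB10 x) (fun _ => gatB20 x) (datB01 x) (datB41 x) (fun _ => datB10 x) (fun _ => datB20 x) hd hx hx' CW.B101R_041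
    · exact corW_cert (G1 := gB0q1) (G2 := gB4q1) (Ga := gB2q0) (Gb := gB3q0) (D1 := dB0q1) (D2 := dB4q1) (Da := dB2q0) (Db := dB3q0) cB101R_ok B hρ hen (gatB01 x) (gatB41 x) (fun _ => gatB20 x) (fun _ => gatB30 x) (datB01 x) (datB41 x) (fun _ => datB20 x) (fun _ => datB30 x) hd hx hx' CW.B101R_042
    · exact corW_cert (G1 := gB0q1) (G2 := gB4q1) (Ga := gB3q0) (Gb := gB4q0) (D1 := dB0q1) (D2 := dB4q1) (Da := dB3q0) (Db := dB4q0) cB101R_ok B hρ hen (gatB01 x) (gatB41 x) (fun _ => gatB30 x) (fun h => absurd h (by decide)) (datB01 x) (datB41 x) (fun _ => datB30 x) (fun h => absurd h (by decide)) hd hx hx' CW.B101R_043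
    · exact absurd h2 (by norm_num)
    · exact absurd h2 (by norm_num)
  · intro ρ a B hρ hd i h1 h2
    fin_cases i
    · exact corT_cert (G1 := gB0q1) (G2 := gB4q1) (Ga := gB0q0) (Gb := gB1q0) cB101R_ok B hρ (gatB01 x) (gatB41 x) (fun _ => gatB00 x) (fun _ => gatB10 x) hd hx hx' CG.B101R_040
    · exact corT_cert (G1 := gB0q1) (G2 := gB4q1) (Ga := gB1q0) (Gb := gB2q0) cB101R_ok B hρ (gatB01 x) (gatB41 x) (fun _ => gatB10 x) (fun _ => gatB20 x) hd hx hx' CG.B101R_041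
    · exact corT_cert (G1 := gB0q1) (G2 := gB4q1) (Ga := gB2q0) (Gb := gB3q0) cB101R_ok B hρ (gatB01 x) (gatB41 x) (fun _ => gatB20 x) (fun _ => gatB30 x) hd hx hx' CG.B101R_042
    · exact corT_cert (G1 := gB0q1) (G2 := gB4q1) (Ga := gB3q0) (Gb := gB4q0) cB101R_ok B hρ (gatB01 x) (gatB41 x) (fun _ => gatB30 x) (fun h => absurd h (by decide)) hd hx hx' CG.B101R_043
    · exact absurd h2 (by norm_num)
    · exact absurd h2 (by norm_num)

theorem altB_B101R_05 {κ x : ℝ} (hκ : κ * h0 = ken x) (hx : ((536870912 : ℕ) : ℝ) / S ≤ x) (hx' : x ≤ (((536870912 : ℕ) : ℝ) + (50465866 : ℕ)) / S) :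
    AltEB 3 κ (eng.v x) (3 / 40) (tnt (h0 * x) (3 / 10)) PP tK tL tC pcB (scP esg pd) [⟨0, 1, 0, 67108864⟩, ⟨1, 0, 0, 67108864⟩, ⟨2, 1, 0, 67108864⟩] 1 0 1 0 5 (sgb false) (sgb false) x := by
  have X : XR 67108864 x := XR.of hx hx' (by norm_num) (by norm_num) (by norm_num) (by norm_num)
  have hen : 0 < eng.v x := en_pos X.x0.le
  refine CornW.altB (C := cB101R) (j := (0 : Fin 7)) (k := (5 : Fin 7)) (Ef := esg) (pd := pd) (o := 3 / 40)
    (cornW_of (C := cB101R) (C0 := c0B) (En := eng) (mo := mog) (j := (0 : Fin 7)) (k := (5 : Fin 7)) (lo := 0) (hi := 3) (W := 67108864) (N0 := 3) cB101R_q (sideB hx hx') gokB (pinU hx hx') dokB X (by norm_num) (by norm_num) (l := (0 : Fin 7)) rfl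
      (gatB01 x) (gatB51 x) (gatB00 x) (datB01 x) (datB51 x) (datB00 x) ?_)
    (cornS_of (C := cB101R) (C0 := c0B) (j := (0 : Fin 7)) (k := (5 : Fin 7)) (lo := 0) (hi := 3) (W := 67108864) (N0 := 3) cB101R_q (sideB hx hx') gokB X (by norm_num) (by norm_num) (l := (0 : Fin 7)) rfl
      (gatB01 x) (gatB51 x) (gatB00 x) ?_)
    (thU (pinU hx hx')) rfl hκ (fun j q y => tC_eq j q y x) (esg_rng X.x0.le (by linarith [X.b, X.p0])).1 (mo_v x) le_rfl le_rfl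
  · intro ρ a B hρ hd i h1 h2
    fin_cases i
    · exact corW_cert (G1 := gB0q1) (G2 := gB5q1) (Ga := gB0q0) (Gb := gB1q0) (D1 := dB0q1) (D2 := dB5q1) (Da := dB0q0) (Db := dB1q0) cB101R_ok B hρ hen (gatB01 x) (gatB51 x) (fun _ => gatB00 x) (fun _ => gatB10 x) (datB01 x) (datB51 x) (fun _ => datB00 x) (fun _ => datB10 x) hd hx hx' CW.B101R_050
    · exact corW_cert (G1 := gB0q1) (G2 := gB5q1) (Ga := gB1q0) (Gb := gB2q0) (D1 := dB0q1) (D2 := dB5q1) (Da := dB1q0) (Db := dB2q0) cB101R_ok B hρ hen (gatB01 x) (gatB51 x) (fun _ => gatB10 x) (fun _ => gatB20 x) (datB01 x) (datB51 x) (fun _ => datB10 x) (fun _ => datB20 x) hd hx hx' CW.B101R_051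
    · exact corW_cert (G1 := gB0q1) (G2 := gB5q1) (Ga := gB2q0) (Gb := gB3q0) (D1 := dB0q1) (D2 := dB5q1) (Da := dB2q0) (Db := dB3q0) cB101R_ok B hρ hen (gatB01 x) (gatB51 x) (fun _ => gatB20 x) (fun _ => gatB30 x) (datB01 x) (datB51 x) (fun _ => datB20 x) (fun _ => datB30 x) hd hx hx' CW.B101R_052
    · exact corW_cert (G1 := gB0q1) (G2 := gB5q1) (Ga := gB3q0) (Gb := gB4q0) (D1 := dB0q1) (D2 := dB5q1) (Da := dB3q0) (Db := dB4q0) cB101R_ok B hρ hen (gatB01 x) (gatB51 x) (fun _ => gatB30 x) (fun h => absurd h (by decide)) (datB01 x) (datB51 x) (fun _ => datB30 x) (fun h => absurd h (by decide)) hd hx hx' CW.B101R_053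
    · exact absurd h2 (by norm_num)
    · exact absurd h2 (by norm_num)
  · intro ρ a B hρ hd i h1 h2
    fin_cases i
    · exact corT_cert (G1 := gB0q1) (G2 := gB5q1) (Ga := gB0q0) (Gb := gB1q0) cB101R_ok B hρ (gatB01 x) (gatB51 x) (fun _ => gatB00 x) (fun _ => gatB10 x) hd hx hx' CG.B101R_050
    · exact corT_cert (G1 := gB0q1) (G2 := gB5q1) (Ga := gB1q0) (Gb := gB2q0) cB101R_ok B hρ (gatB01 x) (gatB51 x) (fun _ => gatB10 x) (fun _ => gatB20 x) hd hx hx' CG.B101R_051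
    · exact corT_cert (G1 := gB0q1) (G2 := gB5q1) (Ga := gB2q0) (Gb := gB3q0) cB101R_ok B hρ (gatB01 x) (gatB51 x) (fun _ => gatB20 x) (fun _ => gatB30 x) hd hx hx' CG.B101R_052
    · exact corT_cert (G1 := gB0q1) (G2 := gB5q1) (Ga := gB3q0) (Gb := gB4q0) cB101R_ok B hρ (gatB01 x) (gatB51 x) (fun _ => gatB30 x) (fun h => absurd h (by decide)) hd hx hx' CG.B101R_053
    · exact absurd h2 (by norm_num)
    · exact absurd h2 (by norm_num)

theorem altB_B101R_06 {κ x : ℝ} (hκ : κ * h0 = ken x) (hx : ((536870912 : ℕ) : ℝ) / S ≤ x) (hx' : x ≤ (((536870912 : ℕ) : ℝ) + (50465866 : ℕ)) / S) :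
    AltEB 3 κ (eng.v x) (3 / 40) (tnt (h0 * x) (3 / 10)) PP tK tL tC pcB (scP esg pd) [⟨0, 1, 0, 67108864⟩, ⟨1, 0, 0, 67108864⟩, ⟨2, 1, 0, 67108864⟩] 1 0 1 0 6 (sgb false) (sgb false) x := by
  have X : XR 67108864 x := XR.of hx hx' (by norm_num) (by norm_num) (by norm_num) (by norm_num)
  have hen : 0 < eng.v x := en_pos X.x0.le
  refine CornW.altB (C := cB101R) (j := (0 : Fin 7)) (k := (6 : Fin 7)) (Ef := esg) (pd := pd) (o := 3 / 40)
    (cornW_of (C := cB101R) (C0 := c0B) (En := eng) (mo := mog) (j := (0 : Fin 7)) (k := (6 : Fin 7)) (lo := 0) (hi := 3) (W := 67108864) (N0 := 3) cB101R_q (sideB hx hx') gokB (pinU hx hx') dokB X (by norm_num) (by norm_num) (l := (0 : Fin 7)) rfl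
      (gatB01 x) (gatB61 x) (gatB00 x) (datB01 x) (datB61 x) (datB00 x) ?_)
    (cornS_of (C := cB101R) (C0 := c0B) (j := (0 : Fin 7)) (k := (6 : Fin 7)) (lo := 0) (hi := 3) (W := 67108864) (N0 := 3) cB101R_q (sideB hx hx') gokB X (by norm_num) (by norm_num) (l := (0 : Fin 7)) rfl
      (gatB01 x) (gatB61 x) (gatB00 x) ?_)
    (thU (pinU hx hx')) rfl hκ (fun j q y => tC_eq j q y x) (esg_rng X.x0.le (by linarith [X.b, X.p0])).1 (mo_v x) le_rfl le_rfl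
  · intro ρ a B hρ hd i h1 h2
    fin_cases i
    · exact corW_cert (G1 := gB0q1) (G2 := gB6q1) (Ga := gB0q0) (Gb := gB1q0) (D1 := dB0q1) (D2 := dB6q1) (Da := dB0q0) (Db := dB1q0) cB101R_ok B hρ hen (gatB01 x) (gatB61 x) (fun _ => gatB00 x) (fun _ => gatB10 x) (datB01 x) (datB61 x) (fun _ => datB00 x) (fun _ => datB10 x) hd hx hx' CW.B101R_060
    · exact corW_cert (G1 := gB0q1) (G2 := gB6q1) (Ga := gB1q0) (Gb := gB2q0) (D1 := dB0q1) (D2 := dB6q1) (Da := dB1q0) (Db := dB2q0) cB101R_ok B hρ hen (gatB01 x) (gatB61 x) (fun _ => gatB10 x) (fun _ => gatB20 x) (datB01 x) (datB61 x) (fun _ => datB10 x) (fun _ => datB20 x) hd hx hx' CW.B101R_061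
    · exact corW_cert (G1 := gB0q1) (G2 := gB6q1) (Ga := gB2q0) (Gb := gB3q0) (D1 := dB0q1) (D2 := dB6q1) (Da := dB2q0) (Db := dB3q0) cB101R_ok B hρ hen (gatB01 x) (gatB61 x) (fun _ => gatB20 x) (fun _ => gatB30 x) (datB01 x) (datB61 x) (fun _ => datB20 x) (fun _ => datB30 x) hd hx hx' CW.B101R_062
    · exact corW_cert (G1 := gB0q1) (G2 := gB6q1) (Ga := gB3q0) (Gb := gB4q0) (D1 := dB0q1) (D2 := dB6q1) (Da := dB3q0) (Db := dB4q0) cB101R_ok B hρ hen (gatB01 x) (gatB61 x) (fun _ => gatB30 x) (fun h => absurd h (by decide)) (datB01 x) (datB61 x) (fun _ => datB30 x) (fun h => absurd h (by decide)) hd hx hx' CW.B101R_063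
    · exact absurd h2 (by norm_num)
    · exact absurd h2 (by norm_num)
  · intro ρ a B hρ hd i h1 h2
    fin_cases i
    · exact corT_cert (G1 := gB0q1) (G2 := gB6q1) (Ga := gB0q0) (Gb := gB1q0) cB101R_ok B hρ (gatB01 x) (gatB61 x) (fun _ => gatB00 x) (fun _ => gatB10 x) hd hx hx' CG.B101R_060
    · exact corT_cert (G1 := gB0q1) (G2 := gB6q1) (Ga := gB1q0) (Gb := gB2q0) cB101R_ok B hρ (gatB01 x) (gatB61 x) (fun _ => gatB10 x) (fun _ => gatB20 x) hd hx hx' CG.B101R_061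
    · exact corT_cert (G1 := gB0q1) (G2 := gB6q1) (Ga := gB2q0) (Gb := gB3q0) cB101R_ok B hρ (gatB01 x) (gatB61 x) (fun _ => gatB20 x) (fun _ => gatB30 x) hd hx hx' CG.B101R_062
    · exact corT_cert (G1 := gB0q1) (G2 := gB6q1) (Ga := gB3q0) (Gb := gB4q0) cB101R_ok B hρ (gatB01 x) (gatB61 x) (fun _ => gatB30 x) (fun h => absurd h (by decide)) hd hx hx' CG.B101R_063
    · exact absurd h2 (by norm_num)
    · exact absurd h2 (by norm_num)

theorem altB_B102E_00 {κ x : ℝ} (hκ : κ * h0 = ken x) (hx : ((536870912 : ℕ) : ℝ) / S ≤ x) (hx' : x ≤ (((536870912 : ℕ) : ℝ) + (50465866 : ℕ)) / S) :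
    AltEB 3 κ (eng.v x) (3 / 40) (tnt (h0 * x) (3 / 10)) PP tK tL tC pcB (scP esg pd) [⟨0, 1, 0, 67108864⟩, ⟨1, 0, 0, 67108864⟩, ⟨2, 1, 0, 67108864⟩] 1 0 2 0 0 (sgb true) (sgb false) x := by
  have X : XR 67108864 x := XR.of hx hx' (by norm_num) (by norm_num) (by norm_num) (by norm_num)
  have hen : 0 < eng.v x := en_pos X.x0.le
  refine CornW.altB (C := cB102E) (j := (0 : Fin 7)) (k := (0 : Fin 7)) (Ef := esg) (pd := pd) (o := 3 / 40)
    (cornW_of (C := cB102E) (C0 := c0B) (En := eng) (mo := mog) (j := (0 : Fin 7)) (k := (0 : Fin 7)) (lo := 0) (hi := 3) (W := 67108864) (N0 := 3) cB102E_q (sideB hx hx') gokB (pinU hx hx') dokB X (by norm_num) (by norm_num) (l := (0 : Fin 7)) rfl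
      (gatB01 x) (gatB02 x) (gatB00 x) (datB01 x) (datB02 x) (datB00 x) ?_)
    (cornS_of (C := cB102E) (C0 := c0B) (j := (0 : Fin 7)) (k := (0 : Fin 7)) (lo := 0) (hi := 3) (W := 67108864) (N0 := 3) cB102E_q (sideB hx hx') gokB X (by norm_num) (by norm_num) (l := (0 : Fin 7)) rfl
      (gatB01 x) (gatB02 x) (gatB00 x) ?_)
    (thU (pinU hx hx')) rfl hκ (fun j q y => tC_eq j q y x) (esg_rng X.x0.le (by linarith [X.b, X.p0])).1 (mo_v x) le_rfl le_rfl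
  · intro ρ a B hρ hd i h1 h2
    fin_cases i
    · exact corW_cert (G1 := gB0q1) (G2 := gB0q2) (Ga := gB0q0) (Gb := gB1q0) (D1 := dB0q1) (D2 := dB0q2) (Da := dB0q0) (Db := dB1q0) cB102E_ok B hρ hen (gatB01 x) (gatB02 x) (fun _ => gatB00 x) (fun _ => gatB10 x) (datB01 x) (datB02 x) (fun _ => datB00 x) (fun _ => datB10 x) hd hx hx' CW.B102E_000
    · exact corW_cert (G1 := gB0q1) (G2 := gB0q2) (Ga := gB1q0) (Gb := gB2q0) (D1 := dB0q1) (D2 := dB0q2) (Da := dB1q0) (Db := dB2q0) cB102E_ok B hρ hen (gatB01 x) (gatB02 x) (fun _ => gatB10 x) (fun _ => gatB20 x) (datB01 x) (datB02 x) (fun _ => datB10 x) (fun _ => datB20 x) hd hx hx' CW.B102E_001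
    · exact corW_cert (G1 := gB0q1) (G2 := gB0q2) (Ga := gB2q0) (Gb := gB3q0) (D1 := dB0q1) (D2 := dB0q2) (Da := dB2q0) (Db := dB3q0) cB102E_ok B hρ hen (gatB01 x) (gatB02 x) (fun _ => gatB20 x) (fun _ => gatB30 x) (datB01 x) (datB02 x) (fun _ => datB20 x) (fun _ => datB30 x) hd hx hx' CW.B102E_002
    · exact corW_cert (G1 := gB0q1) (G2 := gB0q2) (Ga := gB3q0) (Gb := gB4q0) (D1 := dB0q1) (D2 := dB0q2) (Da := dB3q0) (Db := dB4q0) cB102E_ok B hρ hen (gatB01 x) (gatB02 x) (fun _ => gatB30 x) (fun h => absurd h (by decide)) (datB01 x) (datB02 x) (fun _ => datB30 x) (fun h => absurd h (by decide)) hd hx hx' CW.B102E_003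
    · exact absurd h2 (by norm_num)
    · exact absurd h2 (by norm_num)
  · intro ρ a B hρ hd i h1 h2
    fin_cases i
    · exact corX_cert (G1 := gB0q1) (G2 := gB0q2) (Ga := gB0q0) (Gb := gB1q0) (GT := gB0q0) cB102E_ok tB102E_ok B hρ (gatB01 x) (gatB02 x) (fun _ => gatB00 x) (fun _ => gatB10 x) rfl (tgh_B102E (kodd x) (gpu1 x) (gpu2 x) (gpu0 x) (gatB01 x) (gatB02 x) (gatB00 x) B (le_sixteenth hd (by norm_num))) hd hx hx' CG.B102E_000
    · exact corT_cert (G1 := gB0q1) (G2 := gB0q2) (Ga := gB1q0) (Gb := gB2q0) cB102E_ok B hρ (gatB01 x) (gatB02 x) (fun _ => gatB10 x) (fun _ => gatB20 x) hd hx hx' CG.B102E_001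
    · exact corT_cert (G1 := gB0q1) (G2 := gB0q2) (Ga := gB2q0) (Gb := gB3q0) cB102E_ok B hρ (gatB01 x) (gatB02 x) (fun _ => gatB20 x) (fun _ => gatB30 x) hd hx hx' CG.B102E_002
    · exact corT_cert (G1 := gB0q1) (G2 := gB0q2) (Ga := gB3q0) (Gb := gB4q0) cB102E_ok B hρ (gatB01 x) (gatB02 x) (fun _ => gatB30 x) (fun h => absurd h (by decide)) hd hx hx' CG.B102E_003
    · exact absurd h2 (by norm_num)
    · exact absurd h2 (by norm_num)

theorem altB_B102E_01 {κ x : ℝ} (hκ : κ * h0 = ken x) (hx : ((536870912 : ℕ) : ℝ) / S ≤ x) (hx' : x ≤ (((536870912 : ℕ) : ℝ) + (50465866 : ℕ)) / S) :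
    AltEB 3 κ (eng.v x) (3 / 40) (tnt (h0 * x) (3 / 10)) PP tK tL tC pcB (scP esg pd) [⟨0, 1, 0, 67108864⟩, ⟨1, 0, 0, 67108864⟩, ⟨2, 1, 0, 67108864⟩] 1 0 2 0 1 (sgb true) (sgb false) x := by
  have X : XR 67108864 x := XR.of hx hx' (by norm_num) (by norm_num) (by norm_num) (by norm_num)
  have hen : 0 < eng.v x := en_pos X.x0.le
  refine CornW.altB (C := cB102E) (j := (0 : Fin 7)) (k := (1 : Fin 7)) (Ef := esg) (pd := pd) (o := 3 / 40)
    (cornW_of (C := cB102E) (C0 := c0B) (En := eng) (mo := mog) (j := (0 : Fin 7)) (k := (1 : Fin 7)) (lo := 0) (hi := 3) (W := 67108864) (N0 := 3) cB102E_q (sideB hx hx') gokB (pinU hx hx') dokB X (by norm_num) (by norm_num) (l := (0 : Fin 7)) rfl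
      (gatB01 x) (gatB12 x) (gatB00 x) (datB01 x) (datB12 x) (datB00 x) ?_)
    (cornS_of (C := cB102E) (C0 := c0B) (j := (0 : Fin 7)) (k := (1 : Fin 7)) (lo := 0) (hi := 3) (W := 67108864) (N0 := 3) cB102E_q (sideB hx hx') gokB X (by norm_num) (by norm_num) (l := (0 : Fin 7)) rfl
      (gatB01 x) (gatB12 x) (gatB00 x) ?_)
    (thU (pinU hx hx')) rfl hκ (fun j q y => tC_eq j q y x) (esg_rng X.x0.le (by linarith [X.b, X.p0])).1 (mo_v x) le_rfl le_rfl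
  · intro ρ a B hρ hd i h1 h2
    fin_cases i
    · exact corW_cert (G1 := gB0q1) (G2 := gB1q2) (Ga := gB0q0) (Gb := gB1q0) (D1 := dB0q1) (D2 := dB1q2) (Da := dB0q0) (Db := dB1q0) cB102E_ok B hρ hen (gatB01 x) (gatB12 x) (fun _ => gatB00 x) (fun _ => gatB10 x) (datB01 x) (datB12 x) (fun _ => datB00 x) (fun _ => datB10 x) hd hx hx' CW.B102E_010
    · exact corW_cert (G1 := gB0q1) (G2 := gB1q2) (Ga := gB1q0) (Gb := gB2q0) (D1 := dB0q1) (D2 := dB1q2) (Da := dB1q0) (Db := dB2q0) cB102E_ok B hρ hen (gatB01 x) (gatB12 x) (fun _ => gatB10 x) (fun _ => gatB20 x) (datB01 x) (datB12 x) (fun _ => datB10 x) (fun _ => datB20 x) hd hx hx' CW.B102E_011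
    · exact corW_cert (G1 := gB0q1) (G2 := gB1q2) (Ga := gB2q0) (Gb := gB3q0) (D1 := dB0q1) (D2 := dB1q2) (Da := dB2q0) (Db := dB3q0) cB102E_ok B hρ hen (gatB01 x) (gatB12 x) (fun _ => gatB20 x) (fun _ => gatB30 x) (datB01 x) (datB12 x) (fun _ => datB20 x) (fun _ => datB30 x) hd hx hx' CW.B102E_012
    · exact corW_cert (G1 := gB0q1) (G2 := gB1q2) (Ga := gB3q0) (Gb := gB4q0) (D1 := dB0q1) (D2 := dB1q2) (Da := dB3q0) (Db := dB4q0) cB102E_ok B hρ hen (gatB01 x) (gatB12 x) (fun _ => gatB30 x) (fun h => absurd h (by decide)) (datB01 x) (datB12 x) (fun _ => datB30 x) (fun h => absurd h (by decide)) hd hx hx' CW.B102E_013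
    · exact absurd h2 (by norm_num)
    · exact absurd h2 (by norm_num)
  · intro ρ a B hρ hd i h1 h2
    fin_cases i
    · exact corT_cert (G1 := gB0q1) (G2 := gB1q2) (Ga := gB0q0) (Gb := gB1q0) cB102E_ok B hρ (gatB01 x) (gatB12 x) (fun _ => gatB00 x) (fun _ => gatB10 x) hd hx hx' CG.B102E_010
    · exact corT_cert (G1 := gB0q1) (G2 := gB1q2) (Ga := gB1q0) (Gb := gB2q0) cB102E_ok B hρ (gatB01 x) (gatB12 x) (fun _ => gatB10 x) (fun _ => gatB20 x) hd hx hx' CG.B102E_011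
    · exact corT_cert (G1 := gB0q1) (G2 := gB1q2) (Ga := gB2q0) (Gb := gB3q0) cB102E_ok B hρ (gatB01 x) (gatB12 x) (fun _ => gatB20 x) (fun _ => gatB30 x) hd hx hx' CG.B102E_012
    · exact corT_cert (G1 := gB0q1) (G2 := gB1q2) (Ga := gB3q0) (Gb := gB4q0) cB102E_ok B hρ (gatB01 x) (gatB12 x) (fun _ => gatB30 x) (fun h => absurd h (by decide)) hd hx hx' CG.B102E_013
    · exact absurd h2 (by norm_num)
    · exact absurd h2 (by norm_num)

theorem altB_B102E_02 {κ x : ℝ} (hκ : κ * h0 = ken x) (hx : ((536870912 : ℕ) : ℝ) / S ≤ x) (hx' : x ≤ (((536870912 : ℕ) : ℝ) + (50465866 : ℕ)) / S) :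
    AltEB 3 κ (eng.v x) (3 / 40) (tnt (h0 * x) (3 / 10)) PP tK tL tC pcB (scP esg pd) [⟨0, 1, 0, 67108864⟩, ⟨1, 0, 0, 67108864⟩, ⟨2, 1, 0, 67108864⟩] 1 0 2 0 2 (sgb true) (sgb false) x := by
  have X : XR 67108864 x := XR.of hx hx' (by norm_num) (by norm_num) (by norm_num) (by norm_num)
  have hen : 0 < eng.v x := en_pos X.x0.le
  refine CornW.altB (C := cB102E) (j := (0 : Fin 7)) (k := (2 : Fin 7)) (Ef := esg) (pd := pd) (o := 3 / 40)
    (cornW_of (C := cB102E) (C0 := c0B) (En := eng) (mo := mog) (j := (0 : Fin 7)) (k := (2 : Fin 7)) (lo := 0) (hi := 3) (W := 67108864) (N0 := 3) cB102E_q (sideB hx hx') gokB (pinU hx hx') dokB X (by norm_num) (by norm_num) (l := (0 : Fin 7)) rfl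
      (gatB01 x) (gatB22 x) (gatB00 x) (datB01 x) (datB22 x) (datB00 x) ?_)
    (cornS_of (C := cB102E) (C0 := c0B) (j := (0 : Fin 7)) (k := (2 : Fin 7)) (lo := 0) (hi := 3) (W := 67108864) (N0 := 3) cB102E_q (sideB hx hx') gokB X (by norm_num) (by norm_num) (l := (0 : Fin 7)) rfl
      (gatB01 x) (gatB22 x) (gatB00 x) ?_)
    (thU (pinU hx hx')) rfl hκ (fun j q y => tC_eq j q y x) (esg_rng X.x0.le (by linarith [X.b, X.p0])).1 (mo_v x) le_rfl le_rfl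
  · intro ρ a B hρ hd i h1 h2
    fin_cases i
    · exact corW_cert (G1 := gB0q1) (G2 := gB2q2) (Ga := gB0q0) (Gb := gB1q0) (D1 := dB0q1) (D2 := dB2q2) (Da := dB0q0) (Db := dB1q0) cB102E_ok B hρ hen (gatB01 x) (gatB22 x) (fun _ => gatB00 x) (fun _ => gatB10 x) (datB01 x) (datB22 x) (fun _ => datB00 x) (fun _ => datB10 x) hd hx hx' CW.B102E_020
    · exact corW_cert (G1 := gB0q1) (G2 := gB2q2) (Ga := gB1q0) (Gb := gB2q0) (D1 := dB0q1) (D2 := dB2q2) (Da := dB1q0) (Db := dB2q0) cB102E_ok B hρ hen (gatB01 x) (gatB22 x) (fun _ => gatB10 x) (fun _ => gatB20 x) (datB01 x) (datB22 x) (fun _ => datB10 x) (fun _ => datB20 x) hd hx hx' CW.B102E_021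
    · exact corW_cert (G1 := gB0q1) (G2 := gB2q2) (Ga := gB2q0) (Gb := gB3q0) (D1 := dB0q1) (D2 := dB2q2) (Da := dB2q0) (Db := dB3q0) cB102E_ok B hρ hen (gatB01 x) (gatB22 x) (fun _ => gatB20 x) (fun _ => gatB30 x) (datB01 x) (datB22 x) (fun _ => datB20 x) (fun _ => datB30 x) hd hx hx' CW.B102E_022
    · exact corW_cert (G1 := gB0q1) (G2 := gB2q2) (Ga := gB3q0) (Gb := gB4q0) (D1 := dB0q1) (D2 := dB2q2) (Da := dB3q0) (Db := dB4q0) cB102E_ok B hρ hen (gatB01 x) (gatB22 x) (fun _ => gatB30 x) (fun h => absurd h (by decide)) (datB01 x) (datB22 x) (fun _ => datB30 x) (fun h => absurd h (by decide)) hd hx hx' CW.B102E_023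
    · exact absurd h2 (by norm_num)
    · exact absurd h2 (by norm_num)
  · intro ρ a B hρ hd i h1 h2
    fin_cases i
    · exact corT_cert (G1 := gB0q1) (G2 := gB2q2) (Ga := gB0q0) (Gb := gB1q0) cB102E_ok B hρ (gatB01 x) (gatB22 x) (fun _ => gatB00 x) (fun _ => gatB10 x) hd hx hx' CG.B102E_020
    · exact corT_cert (G1 := gB0q1) (G2 := gB2q2) (Ga := gB1q0) (Gb := gB2q0) cB102E_ok B hρ (gatB01 x) (gatB22 x) (fun _ => gatB10 x) (fun _ => gatB20 x) hd hx hx' CG.B102E_021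
    · exact corT_cert (G1 := gB0q1) (G2 := gB2q2) (Ga := gB2q0) (Gb := gB3q0) cB102E_ok B hρ (gatB01 x) (gatB22 x) (fun _ => gatB20 x) (fun _ => gatB30 x) hd hx hx' CG.B102E_022
    · exact corT_cert (G1 := gB0q1) (G2 := gB2q2) (Ga := gB3q0) (Gb := gB4q0) cB102E_ok B hρ (gatB01 x) (gatB22 x) (fun _ => gatB30 x) (fun h => absurd h (by decide)) hd hx hx' CG.B102E_023
    · exact absurd h2 (by norm_num)
    · exact absurd h2 (by norm_num)

theorem altB_B102E_03 {κ x : ℝ} (hκ : κ * h0 = ken x) (hx : ((536870912 : ℕ) : ℝ) / S ≤ x) (hx' : x ≤ (((536870912 : ℕ) : ℝ) + (50465866 : ℕ)) / S) :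
    AltEB 3 κ (eng.v x) (3 / 40) (tnt (h0 * x) (3 / 10)) PP tK tL tC pcB (scP esg pd) [⟨0, 1, 0, 67108864⟩, ⟨1, 0, 0, 67108864⟩, ⟨2, 1, 0, 67108864⟩] 1 0 2 0 3 (sgb true) (sgb false) x := by
  have X : XR 67108864 x := XR.of hx hx' (by norm_num) (by norm_num) (by norm_num) (by norm_num)
  have hen : 0 < eng.v x := en_pos X.x0.le
  refine CornW.altB (C := cB102E) (j := (0 : Fin 7)) (k := (3 : Fin 7)) (Ef := esg) (pd := pd) (o := 3 / 40)
    (cornW_of (C := cB102E) (C0 := c0B) (En := eng) (mo := mog) (j := (0 : Fin 7)) (k := (3 : Fin 7)) (lo := 0) (hi := 3) (W := 67108864) (N0 := 3) cB102E_q (sideB hx hx') gokB (pinU hx hx') dokB X (by norm_num) (by norm_num) (l := (0 : Fin 7)) rfl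
      (gatB01 x) (gatB32 x) (gatB00 x) (datB01 x) (datB32 x) (datB00 x) ?_)
    (cornS_of (C := cB102E) (C0 := c0B) (j := (0 : Fin 7)) (k := (3 : Fin 7)) (lo := 0) (hi := 3) (W := 67108864) (N0 := 3) cB102E_q (sideB hx hx') gokB X (by norm_num) (by norm_num) (l := (0 : Fin 7)) rfl
      (gatB01 x) (gatB32 x) (gatB00 x) ?_)
    (thU (pinU hx hx')) rfl hκ (fun j q y => tC_eq j q y x) (esg_rng X.x0.le (by linarith [X.b, X.p0])).1 (mo_v x) le_rfl le_rfl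
  · intro ρ a B hρ hd i h1 h2
    fin_cases i
    · exact corW_cert (G1 := gB0q1) (G2 := gB3q2) (Ga := gB0q0) (Gb := gB1q0) (D1 := dB0q1) (D2 := dB3q2) (Da := dB0q0) (Db := dB1q0) cB102E_ok B hρ hen (gatB01 x) (gatB32 x) (fun _ => gatB00 x) (fun _ => gatB10 x) (datB01 x) (datB32 x) (fun _ => datB00 x) (fun _ => datB10 x) hd hx hx' CW.B102E_030
    · exact corW_cert (G1 := gB0q1) (G2 := gB3q2) (Ga := gB1q0) (Gb := gB2q0) (D1 := dB0q1) (D2 := dB3q2) (Da := dB1q0) (Db := dB2q0) cB102E_ok B hρ hen (gatB01 x) (gatB32 x) (fun _ => gatB10 x) (fun _ => gatB20 x) (datB01 x) (datB32 x) (fun _ => datB10 x) (fun _ => datB20 x) hd hx hx' CW.B102E_031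
    · exact corW_cert (G1 := gB0q1) (G2 := gB3q2) (Ga := gB2q0) (Gb := gB3q0) (D1 := dB0q1) (D2 := dB3q2) (Da := dB2q0) (Db := dB3q0) cB102E_ok B hρ hen (gatB01 x) (gatB32 x) (fun _ => gatB20 x) (fun _ => gatB30 x) (datB01 x) (datB32 x) (fun _ => datB20 x) (fun _ => datB30 x) hd hx hx' CW.B102E_032
    · exact corW_cert (G1 := gB0q1) (G2 := gB3q2) (Ga := gB3q0) (Gb := gB4q0) (D1 := dB0q1) (D2 := dB3q2) (Da := dB3q0) (Db := dB4q0) cB102E_ok B hρ hen (gatB01 x) (gatB32 x) (fun _ => gatB30 x) (fun h => absurd h (by decide)) (datB01 x) (datB32 x) (fun _ => datB30 x) (fun h => absurd h (by decide)) hd hx hx' CW.B102E_033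
    · exact absurd h2 (by norm_num)
    · exact absurd h2 (by norm_num)
  · intro ρ a B hρ hd i h1 h2
    fin_cases i
    · exact corT_cert (G1 := gB0q1) (G2 := gB3q2) (Ga := gB0q0) (Gb := gB1q0) cB102E_ok B hρ (gatB01 x) (gatB32 x) (fun _ => gatB00 x) (fun _ => gatB10 x) hd hx hx' CG.B102E_030
    · exact corT_cert (G1 := gB0q1) (G2 := gB3q2) (Ga := gB1q0) (Gb := gB2q0) cB102E_ok B hρ (gatB01 x) (gatB32 x) (fun _ => gatB10 x) (fun _ => gatB20 x) hd hx hx' CG.B102E_031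
    · exact corT_cert (G1 := gB0q1) (G2 := gB3q2) (Ga := gB2q0) (Gb := gB3q0) cB102E_ok B hρ (gatB01 x) (gatB32 x) (fun _ => gatB20 x) (fun _ => gatB30 x) hd hx hx' CG.B102E_032
    · exact corT_cert (G1 := gB0q1) (G2 := gB3q2) (Ga := gB3q0) (Gb := gB4q0) cB102E_ok B hρ (gatB01 x) (gatB32 x) (fun _ => gatB30 x) (fun h => absurd h (by decide)) hd hx hx' CG.B102E_033
    · exact absurd h2 (by norm_num)
    · exact absurd h2 (by norm_num)

theorem altB_B102L_40 {κ x : ℝ} (hκ : κ * h0 = ken x) (hx : ((536870912 : ℕ) : ℝ) / S ≤ x) (hx' : x ≤ (((536870912 : ℕ) : ℝ) + (50465866 : ℕ)) / S) :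
    AltEB 3 κ (eng.v x) (3 / 40) (tnt (h0 * x) (3 / 10)) PP tK tL tC pcB (scP esg pd) [⟨0, 1, 0, 67108864⟩, ⟨1, 0, 0, 67108864⟩, ⟨2, 1, 0, 67108864⟩] 1 0 2 4 0 (sgb true) (sgb true) x := by
  have X : XR 67108864 x := XR.of hx hx' (by norm_num) (by norm_num) (by norm_num) (by norm_num)
  have hen : 0 < eng.v x := en_pos X.x0.le
  refine CornW.altB (C := cB102L) (j := (4 : Fin 7)) (k := (0 : Fin 7)) (Ef := esg) (pd := pd) (o := 3 / 40)
    (cornW_of (C := cB102L) (C0 := c0B) (En := eng) (mo := mog) (j := (4 : Fin 7)) (k := (0 : Fin 7)) (lo := 0) (hi := 3) (W := 67108864) (N0 := 3) cB102L_q (sideB hx hx') gokB (pinU hx hx') dokB X (by norm_num) (by norm_num) (l := (0 : Fin 7)) rfl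
      (gatB41 x) (gatB02 x) (gatB00 x) (datB41 x) (datB02 x) (datB00 x) ?_)
    (cornS_of (C := cB102L) (C0 := c0B) (j := (4 : Fin 7)) (k := (0 : Fin 7)) (lo := 0) (hi := 3) (W := 67108864) (N0 := 3) cB102L_q (sideB hx hx') gokB X (by norm_num) (by norm_num) (l := (0 : Fin 7)) rfl
      (gatB41 x) (gatB02 x) (gatB00 x) ?_)
    (thU (pinU hx hx')) rfl hκ (fun j q y => tC_eq j q y x) (esg_rng X.x0.le (by linarith [X.b, X.p0])).1 (mo_v x) le_rfl le_rfl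
  · intro ρ a B hρ hd i h1 h2
    fin_cases i
    · exact corW_cert (G1 := gB4q1) (G2 := gB0q2) (Ga := gB0q0) (Gb := gB1q0) (D1 := dB4q1) (D2 := dB0q2) (Da := dB0q0) (Db := dB1q0) cB102L_ok B hρ hen (gatB41 x) (gatB02 x) (fun _ => gatB00 x) (fun _ => gatB10 x) (datB41 x) (datB02 x) (fun _ => datB00 x) (fun _ => datB10 x) hd hx hx' CW.B102L_400
    · exact corW_cert (G1 := gB4q1) (G2 := gB0q2) (Ga := gB1q0) (Gb := gB2q0) (D1 := dB4q1) (D2 := dB0q2) (Da := dB1q0) (Db := dB2q0) cB102L_ok B hρ hen (gatB41 x) (gatB02 x) (fun _ => gatB10 x) (fun _ => gatB20 x) (datB41 x) (datB02 x) (fun _ => datB10 x) (fun _ => datB20 x) hd hx hx' CW.B102L_401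
    · exact corW_cert (G1 := gB4q1) (G2 := gB0q2) (Ga := gB2q0) (Gb := gB3q0) (D1 := dB4q1) (D2 := dB0q2) (Da := dB2q0) (Db := dB3q0) cB102L_ok B hρ hen (gatB41 x) (gatB02 x) (fun _ => gatB20 x) (fun _ => gatB30 x) (datB41 x) (datB02 x) (fun _ => datB20 x) (fun _ => datB30 x) hd hx hx' CW.B102L_402
    · exact corW_cert (G1 := gB4q1) (G2 := gB0q2) (Ga := gB3q0) (Gb := gB4q0) (D1 := dB4q1) (D2 := dB0q2) (Da := dB3q0) (Db := dB4q0) cB102L_ok B hρ hen (gatB41 x) (gatB02 x) (fun _ => gatB30 x) (fun h => absurd h (by decide)) (datB41 x) (datB02 x) (fun _ => datB30 x) (fun h => absurd h (by decide)) hd hx hx' CW.B102L_403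
    · exact absurd h2 (by norm_num)
    · exact absurd h2 (by norm_num)
  · intro ρ a B hρ hd i h1 h2
    fin_cases i
    · exact corT_cert (G1 := gB4q1) (G2 := gB0q2) (Ga := gB0q0) (Gb := gB1q0) cB102L_ok B hρ (gatB41 x) (gatB02 x) (fun _ => gatB00 x) (fun _ => gatB10 x) hd hx hx' CG.B102L_400
    · exact corT_cert (G1 := gB4q1) (G2 := gB0q2) (Ga := gB1q0) (Gb := gB2q0) cB102L_ok B hρ (gatB41 x) (gatB02 x) (fun _ => gatB10 x) (fun _ => gatB20 x) hd hx hx' CG.B102L_401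
    · exact corT_cert (G1 := gB4q1) (G2 := gB0q2) (Ga := gB2q0) (Gb := gB3q0) cB102L_ok B hρ (gatB41 x) (gatB02 x) (fun _ => gatB20 x) (fun _ => gatB30 x) hd hx hx' CG.B102L_402
    · exact corT_cert (G1 := gB4q1) (G2 := gB0q2) (Ga := gB3q0) (Gb := gB4q0) cB102L_ok B hρ (gatB41 x) (gatB02 x) (fun _ => gatB30 x) (fun h => absurd h (by decide)) hd hx hx' CG.B102L_403
    · exact absurd h2 (by norm_num)
    · exact absurd h2 (by norm_num)

theorem altB_B102L_41 {κ x : ℝ} (hκ : κ * h0 = ken x) (hx : ((536870912 : ℕ) : ℝ) / S ≤ x) (hx' : x ≤ (((536870912 : ℕ) : ℝ) + (50465866 : ℕ)) / S) :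
    AltEB 3 κ (eng.v x) (3 / 40) (tnt (h0 * x) (3 / 10)) PP tK tL tC pcB (scP esg pd) [⟨0, 1, 0, 67108864⟩, ⟨1, 0, 0, 67108864⟩, ⟨2, 1, 0, 67108864⟩] 1 0 2 4 1 (sgb true) (sgb true) x := by
  have X : XR 67108864 x := XR.of hx hx' (by norm_num) (by norm_num) (by norm_num) (by norm_num)
  have hen : 0 < eng.v x := en_pos X.x0.le
  refine CornW.altB (C := cB102L) (j := (4 : Fin 7)) (k := (1 : Fin 7)) (Ef := esg) (pd := pd) (o := 3 / 40)
    (cornW_of (C := cB102L) (C0 := c0B) (En := eng) (mo := mog) (j := (4 : Fin 7)) (k := (1 : Fin 7)) (lo := 0) (hi := 3) (W := 67108864) (N0 := 3) cB102L_q (sideB hx hx') gokB (pinU hx hx') dokB X (by norm_num) (by norm_num) (l := (0 : Fin 7)) rfl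
      (gatB41 x) (gatB12 x) (gatB00 x) (datB41 x) (datB12 x) (datB00 x) ?_)
    (cornS_of (C := cB102L) (C0 := c0B) (j := (4 : Fin 7)) (k := (1 : Fin 7)) (lo := 0) (hi := 3) (W := 67108864) (N0 := 3) cB102L_q (sideB hx hx') gokB X (by norm_num) (by norm_num) (l := (0 : Fin 7)) rfl
      (gatB41 x) (gatB12 x) (gatB00 x) ?_)
    (thU (pinU hx hx')) rfl hκ (fun j q y => tC_eq j q y x) (esg_rng X.x0.le (by linarith [X.b, X.p0])).1 (mo_v x) le_rfl le_rfl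
  · intro ρ a B hρ hd i h1 h2
    fin_cases i
    · exact corW_cert (G1 := gB4q1) (G2 := gB1q2) (Ga := gB0q0) (Gb := gB1q0) (D1 := dB4q1) (D2 := dB1q2) (Da := dB0q0) (Db := dB1q0) cB102L_ok B hρ hen (gatB41 x) (gatB12 x) (fun _ => gatB00 x) (fun _ => gatB10 x) (datB41 x) (datB12 x) (fun _ => datB00 x) (fun _ => datB10 x) hd hx hx' CW.B102L_410
    · exact corW_cert (G1 := gB4q1) (G2 := gB1q2) (Ga := gB1q0) (Gb := gB2q0) (D1 := dB4q1) (D2 := dB1q2) (Da := dB1q0) (Db := dB2q0) cB102L_ok B hρ hen (gatB41 x) (gatB12 x) (fun _ => gatB10 x) (fun _ => gatB20 x) (datB41 x) (datB12 x) (fun _ => datB10 x) (fun _ => datB20 x) hd hx hx' CW.B102L_411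
    · exact corW_cert (G1 := gB4q1) (G2 := gB1q2) (Ga := gB2q0) (Gb := gB3q0) (D1 := dB4q1) (D2 := dB1q2) (Da := dB2q0) (Db := dB3q0) cB102L_ok B hρ hen (gatB41 x) (gatB12 x) (fun _ => gatB20 x) (fun _ => gatB30 x) (datB41 x) (datB12 x) (fun _ => datB20 x) (fun _ => datB30 x) hd hx hx' CW.B102L_412
    · exact corW_cert (G1 := gB4q1) (G2 := gB1q2) (Ga := gB3q0) (Gb := gB4q0) (D1 := dB4q1) (D2 := dB1q2) (Da := dB3q0) (Db := dB4q0) cB102L_ok B hρ hen (gatB41 x) (gatB12 x) (fun _ => gatB30 x) (fun h => absurd h (by decide)) (datB41 x) (datB12 x) (fun _ => datB30 x) (fun h => absurd h (by decide)) hd hx hx' CW.B102L_413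
    · exact absurd h2 (by norm_num)
    · exact absurd h2 (by norm_num)
  · intro ρ a B hρ hd i h1 h2
    fin_cases i
    · exact corT_cert (G1 := gB4q1) (G2 := gB1q2) (Ga := gB0q0) (Gb := gB1q0) cB102L_ok B hρ (gatB41 x) (gatB12 x) (fun _ => gatB00 x) (fun _ => gatB10 x) hd hx hx' CG.B102L_410
    · exact corT_cert (G1 := gB4q1) (G2 := gB1q2) (Ga := gB1q0) (Gb := gB2q0) cB102L_ok B hρ (gatB41 x) (gatB12 x) (fun _ => gatB10 x) (fun _ => gatB20 x) hd hx hx' CG.B102L_411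
    · exact corT_cert (G1 := gB4q1) (G2 := gB1q2) (Ga := gB2q0) (Gb := gB3q0) cB102L_ok B hρ (gatB41 x) (gatB12 x) (fun _ => gatB20 x) (fun _ => gatB30 x) hd hx hx' CG.B102L_412
    · exact corT_cert (G1 := gB4q1) (G2 := gB1q2) (Ga := gB3q0) (Gb := gB4q0) cB102L_ok B hρ (gatB41 x) (gatB12 x) (fun _ => gatB30 x) (fun h => absurd h (by decide)) hd hx hx' CG.B102L_413
    · exact absurd h2 (by norm_num)
    · exact absurd h2 (by norm_num)

theorem altB_B102L_42 {κ x : ℝ} (hκ : κ * h0 = ken x) (hx : ((536870912 : ℕ) : ℝ) / S ≤ x) (hx' : x ≤ (((536870912 : ℕ) : ℝ) + (50465866 : ℕ)) / S) :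
    AltEB 3 κ (eng.v x) (3 / 40) (tnt (h0 * x) (3 / 10)) PP tK tL tC pcB (scP esg pd) [⟨0, 1, 0, 67108864⟩, ⟨1, 0, 0, 67108864⟩, ⟨2, 1, 0, 67108864⟩] 1 0 2 4 2 (sgb true) (sgb true) x := by
  have X : XR 67108864 x := XR.of hx hx' (by norm_num) (by norm_num) (by norm_num) (by norm_num)
  have hen : 0 < eng.v x := en_pos X.x0.le
  refine CornW.altB (C := cB102L) (j := (4 : Fin 7)) (k := (2 : Fin 7)) (Ef := esg) (pd := pd) (o := 3 / 40)
    (cornW_of (C := cB102L) (C0 := c0B) (En := eng) (mo := mog) (j := (4 : Fin 7)) (k := (2 : Fin 7)) (lo := 0) (hi := 3) (W := 67108864) (N0 := 3) cB102L_q (sideB hx hx') gokB (pinU hx hx') dokB X (by norm_num) (by norm_num) (l := (0 : Fin 7)) rfl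
      (gatB41 x) (gatB22 x) (gatB00 x) (datB41 x) (datB22 x) (datB00 x) ?_)
    (cornS_of (C := cB102L) (C0 := c0B) (j := (4 : Fin 7)) (k := (2 : Fin 7)) (lo := 0) (hi := 3) (W := 67108864) (N0 := 3) cB102L_q (sideB hx hx') gokB X (by norm_num) (by norm_num) (l := (0 : Fin 7)) rfl
      (gatB41 x) (gatB22 x) (gatB00 x) ?_)
    (thU (pinU hx hx')) rfl hκ (fun j q y => tC_eq j q y x) (esg_rng X.x0.le (by linarith [X.b, X.p0])).1 (mo_v x) le_rfl le_rfl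
  · intro ρ a B hρ hd i h1 h2
    fin_cases i
    · exact corW_cert (G1 := gB4q1) (G2 := gB2q2) (Ga := gB0q0) (Gb := gB1q0) (D1 := dB4q1) (D2 := dB2q2) (Da := dB0q0) (Db := dB1q0) cB102L_ok B hρ hen (gatB41 x) (gatB22 x) (fun _ => gatB00 x) (fun _ => gatB10 x) (datB41 x) (datB22 x) (fun _ => datB00 x) (fun _ => datB10 x) hd hx hx' CW.B102L_420
    · exact corW_cert (G1 := gB4q1) (G2 := gB2q2) (Ga := gB1q0) (Gb := gB2q0) (D1 := dB4q1) (D2 := dB2q2) (Da := dB1q0) (Db := dB2q0) cB102L_ok B hρ hen (gatB41 x) (gatB22 x) (fun _ => gatB10 x) (fun _ => gatB20 x) (datB41 x) (datB22 x) (fun _ => datB10 x) (fun _ => datB20 x) hd hx hx' CW.B102L_421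
    · exact corW_cert (G1 := gB4q1) (G2 := gB2q2) (Ga := gB2q0) (Gb := gB3q0) (D1 := dB4q1) (D2 := dB2q2) (Da := dB2q0) (Db := dB3q0) cB102L_ok B hρ hen (gatB41 x) (gatB22 x) (fun _ => gatB20 x) (fun _ => gatB30 x) (datB41 x) (datB22 x) (fun _ => datB20 x) (fun _ => datB30 x) hd hx hx' CW.B102L_422
    · exact corW_cert (G1 := gB4q1) (G2 := gB2q2) (Ga := gB3q0) (Gb := gB4q0) (D1 := dB4q1) (D2 := dB2q2) (Da := dB3q0) (Db := dB4q0) cB102L_ok B hρ hen (gatB41 x) (gatB22 x) (fun _ => gatB30 x) (fun h => absurd h (by decide)) (datB41 x) (datB22 x) (fun _ => datB30 x) (fun h => absurd h (by decide)) hd hx hx' CW.B102L_423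
    · exact absurd h2 (by norm_num)
    · exact absurd h2 (by norm_num)
  · intro ρ a B hρ hd i h1 h2
    fin_cases i
    · exact corT_cert (G1 := gB4q1) (G2 := gB2q2) (Ga := gB0q0) (Gb := gB1q0) cB102L_ok B hρ (gatB41 x) (gatB22 x) (fun _ => gatB00 x) (fun _ => gatB10 x) hd hx hx' CG.B102L_420
    · exact corT_cert (G1 := gB4q1) (G2 := gB2q2) (Ga := gB1q0) (Gb := gB2q0) cB102L_ok B hρ (gatB41 x) (gatB22 x) (fun _ => gatB10 x) (fun _ => gatB20 x) hd hx hx' CG.B102L_421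
    · exact corT_cert (G1 := gB4q1) (G2 := gB2q2) (Ga := gB2q0) (Gb := gB3q0) cB102L_ok B hρ (gatB41 x) (gatB22 x) (fun _ => gatB20 x) (fun _ => gatB30 x) hd hx hx' CG.B102L_422
    · exact corT_cert (G1 := gB4q1) (G2 := gB2q2) (Ga := gB3q0) (Gb := gB4q0) cB102L_ok B hρ (gatB41 x) (gatB22 x) (fun _ => gatB30 x) (fun h => absurd h (by decide)) hd hx hx' CG.B102L_423
    · exact absurd h2 (by norm_num)
    · exact absurd h2 (by norm_num)

theorem altB_B102L_43 {κ x : ℝ} (hκ : κ * h0 = ken x) (hx : ((536870912 : ℕ) : ℝ) / S ≤ x) (hx' : x ≤ (((536870912 : ℕ) : ℝ) + (50465866 : ℕ)) / S) :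
    AltEB 3 κ (eng.v x) (3 / 40) (tnt (h0 * x) (3 / 10)) PP tK tL tC pcB (scP esg pd) [⟨0, 1, 0, 67108864⟩, ⟨1, 0, 0, 67108864⟩, ⟨2, 1, 0, 67108864⟩] 1 0 2 4 3 (sgb true) (sgb true) x := by
  have X : XR 67108864 x := XR.of hx hx' (by norm_num) (by norm_num) (by norm_num) (by norm_num)
  have hen : 0 < eng.v x := en_pos X.x0.le
  refine CornW.altB (C := cB102L) (j := (4 : Fin 7)) (k := (3 : Fin 7)) (Ef := esg) (pd := pd) (o := 3 / 40)
    (cornW_of (C := cB102L) (C0 := c0B) (En := eng) (mo := mog) (j := (4 : Fin 7)) (k := (3 : Fin 7)) (lo := 0) (hi := 3) (W := 67108864) (N0 := 3) cB102L_q (sideB hx hx') gokB (pinU hx hx') dokB X (by norm_num) (by norm_num) (l := (0 : Fin 7)) rfl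
      (gatB41 x) (gatB32 x) (gatB00 x) (datB41 x) (datB32 x) (datB00 x) ?_)
    (cornS_of (C := cB102L) (C0 := c0B) (j := (4 : Fin 7)) (k := (3 : Fin 7)) (lo := 0) (hi := 3) (W := 67108864) (N0 := 3) cB102L_q (sideB hx hx') gokB X (by norm_num) (by norm_num) (l := (0 : Fin 7)) rfl
      (gatB41 x) (gatB32 x) (gatB00 x) ?_)
    (thU (pinU hx hx')) rfl hκ (fun j q y => tC_eq j q y x) (esg_rng X.x0.le (by linarith [X.b, X.p0])).1 (mo_v x) le_rfl le_rfl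
  · intro ρ a B hρ hd i h1 h2
    fin_cases i
    · exact corW_cert (G1 := gB4q1) (G2 := gB3q2) (Ga := gB0q0) (Gb := gB1q0) (D1 := dB4q1) (D2 := dB3q2) (Da := dB0q0) (Db := dB1q0) cB102L_ok B hρ hen (gatB41 x) (gatB32 x) (fun _ => gatB00 x) (fun _ => gatB10 x) (datB41 x) (datB32 x) (fun _ => datB00 x) (fun _ => datB10 x) hd hx hx' CW.B102L_430
    · exact corW_cert (G1 := gB4q1) (G2 := gB3q2) (Ga := gB1q0) (Gb := gB2q0) (D1 := dB4q1) (D2 := dB3q2) (Da := dB1q0) (Db := dB2q0) cB102L_ok B hρ hen (gatB41 x) (gatB32 x) (fun _ => gatB10 x) (fun _ => gatB20 x) (datB41 x) (datB32 x) (fun _ => datB10 x) (fun _ => datB20 x) hd hx hx' CW.B102L_431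
    · exact corW_cert (G1 := gB4q1) (G2 := gB3q2) (Ga := gB2q0) (Gb := gB3q0) (D1 := dB4q1) (D2 := dB3q2) (Da := dB2q0) (Db := dB3q0) cB102L_ok B hρ hen (gatB41 x) (gatB32 x) (fun _ => gatB20 x) (fun _ => gatB30 x) (datB41 x) (datB32 x) (fun _ => datB20 x) (fun _ => datB30 x) hd hx hx' CW.B102L_432
    · exact corW_cert (G1 := gB4q1) (G2 := gB3q2) (Ga := gB3q0) (Gb := gB4q0) (D1 := dB4q1) (D2 := dB3q2) (Da := dB3q0) (Db := dB4q0) cB102L_ok B hρ hen (gatB41 x) (gatB32 x) (fun _ => gatB30 x) (fun h => absurd h (by decide)) (datB41 x) (datB32 x) (fun _ => datB30 x) (fun h => absurd h (by decide)) hd hx hx' CW.B102L_433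
    · exact absurd h2 (by norm_num)
    · exact absurd h2 (by norm_num)
  · intro ρ a B hρ hd i h1 h2
    fin_cases i
    · exact corT_cert (G1 := gB4q1) (G2 := gB3q2) (Ga := gB0q0) (Gb := gB1q0) cB102L_ok B hρ (gatB41 x) (gatB32 x) (fun _ => gatB00 x) (fun _ => gatB10 x) hd hx hx' CG.B102L_430
    · exact corT_cert (G1 := gB4q1) (G2 := gB3q2) (Ga := gB1q0) (Gb := gB2q0) cB102L_ok B hρ (gatB41 x) (gatB32 x) (fun _ => gatB10 x) (fun _ => gatB20 x) hd hx hx' CG.B102L_431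
    · exact corT_cert (G1 := gB4q1) (G2 := gB3q2) (Ga := gB2q0) (Gb := gB3q0) cB102L_ok B hρ (gatB41 x) (gatB32 x) (fun _ => gatB20 x) (fun _ => gatB30 x) hd hx hx' CG.B102L_432
    · exact corT_cert (G1 := gB4q1) (G2 := gB3q2) (Ga := gB3q0) (Gb := gB4q0) cB102L_ok B hρ (gatB41 x) (gatB32 x) (fun _ => gatB30 x) (fun h => absurd h (by decide)) hd hx hx' CG.B102L_433
    · exact absurd h2 (by norm_num)
    · exact absurd h2 (by norm_num)

theorem altB_B102L_50 {κ x : ℝ} (hκ : κ * h0 = ken x) (hx : ((536870912 : ℕ) : ℝ) / S ≤ x) (hx' : x ≤ (((536870912 : ℕ) : ℝ) + (50465866 : ℕ)) / S) :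
    AltEB 3 κ (eng.v x) (3 / 40) (tnt (h0 * x) (3 / 10)) PP tK tL tC pcB (scP esg pd) [⟨0, 1, 0, 67108864⟩, ⟨1, 0, 0, 67108864⟩, ⟨2, 1, 0, 67108864⟩] 1 0 2 5 0 (sgb true) (sgb true) x := by
  have X : XR 67108864 x := XR.of hx hx' (by norm_num) (by norm_num) (by norm_num) (by norm_num)
  have hen : 0 < eng.v x := en_pos X.x0.le
  refine CornW.altB (C := cB102L) (j := (5 : Fin 7)) (k := (0 : Fin 7)) (Ef := esg) (pd := pd) (o := 3 / 40)
    (cornW_of (C := cB102L) (C0 := c0B) (En := eng) (mo := mog) (j := (5 : Fin 7)) (k := (0 : Fin 7)) (lo := 0) (hi := 3) (W := 67108864) (N0 := 3) cB102L_q (sideB hx hx') gokB (pinU hx hx') dokB X (by norm_num) (by norm_num) (l := (0 : Fin 7)) rfl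
      (gatB51 x) (gatB02 x) (gatB00 x) (datB51 x) (datB02 x) (datB00 x) ?_)
    (cornS_of (C := cB102L) (C0 := c0B) (j := (5 : Fin 7)) (k := (0 : Fin 7)) (lo := 0) (hi := 3) (W := 67108864) (N0 := 3) cB102L_q (sideB hx hx') gokB X (by norm_num) (by norm_num) (l := (0 : Fin 7)) rfl
      (gatB51 x) (gatB02 x) (gatB00 x) ?_)
    (thU (pinU hx hx')) rfl hκ (fun j q y => tC_eq j q y x) (esg_rng X.x0.le (by linarith [X.b, X.p0])).1 (mo_v x) le_rfl le_rfl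
  · intro ρ a B hρ hd i h1 h2
    fin_cases i
    · exact corW_cert (G1 := gB5q1) (G2 := gB0q2) (Ga := gB0q0) (Gb := gB1q0) (D1 := dB5q1) (D2 := dB0q2) (Da := dB0q0) (Db := dB1q0) cB102L_ok B hρ hen (gatB51 x) (gatB02 x) (fun _ => gatB00 x) (fun _ => gatB10 x) (datB51 x) (datB02 x) (fun _ => datB00 x) (fun _ => datB10 x) hd hx hx' CW.B102L_500
    · exact corW_cert (G1 := gB5q1) (G2 := gB0q2) (Ga := gB1q0) (Gb := gB2q0) (D1 := dB5q1) (D2 := dB0q2) (Da := dB1q0) (Db := dB2q0) cB102L_ok B hρ hen (gatB51 x) (gatB02 x) (fun _ => gatB10 x) (fun _ => gatB20 x) (datB51 x) (datB02 x) (fun _ => datB10 x) (fun _ => datB20 x) hd hx hx' CW.B102L_501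
    · exact corW_cert (G1 := gB5q1) (G2 := gB0q2) (Ga := gB2q0) (Gb := gB3q0) (D1 := dB5q1) (D2 := dB0q2) (Da := dB2q0) (Db := dB3q0) cB102L_ok B hρ hen (gatB51 x) (gatB02 x) (fun _ => gatB20 x) (fun _ => gatB30 x) (datB51 x) (datB02 x) (fun _ => datB20 x) (fun _ => datB30 x) hd hx hx' CW.B102L_502
    · exact corW_cert (G1 := gB5q1) (G2 := gB0q2) (Ga := gB3q0) (Gb := gB4q0) (D1 := dB5q1) (D2 := dB0q2) (Da := dB3q0) (Db := dB4q0) cB102L_ok B hρ hen (gatB51 x) (gatB02 x) (fun _ => gatB30 x) (fun h => absurd h (by decide)) (datB51 x) (datB02 x) (fun _ => datB30 x) (fun h => absurd h (by decide)) hd hx hx' CW.B102L_503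
    · exact absurd h2 (by norm_num)
    · exact absurd h2 (by norm_num)
  · intro ρ a B hρ hd i h1 h2
    fin_cases i
    · exact corT_cert (G1 := gB5q1) (G2 := gB0q2) (Ga := gB0q0) (Gb := gB1q0) cB102L_ok B hρ (gatB51 x) (gatB02 x) (fun _ => gatB00 x) (fun _ => gatB10 x) hd hx hx' CG.B102L_500
    · exact corT_cert (G1 := gB5q1) (G2 := gB0q2) (Ga := gB1q0) (Gb := gB2q0) cB102L_ok B hρ (gatB51 x) (gatB02 x) (fun _ => gatB10 x) (fun _ => gatB20 x) hd hx hx' CG.B102L_501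
    · exact corT_cert (G1 := gB5q1) (G2 := gB0q2) (Ga := gB2q0) (Gb := gB3q0) cB102L_ok B hρ (gatB51 x) (gatB02 x) (fun _ => gatB20 x) (fun _ => gatB30 x) hd hx hx' CG.B102L_502
    · exact corT_cert (G1 := gB5q1) (G2 := gB0q2) (Ga := gB3q0) (Gb := gB4q0) cB102L_ok B hρ (gatB51 x) (gatB02 x) (fun _ => gatB30 x) (fun h => absurd h (by decide)) hd hx hx' CG.B102L_503
    · exact absurd h2 (by norm_num)
    · exact absurd h2 (by norm_num)

theorem altB_B102L_51 {κ x : ℝ} (hκ : κ * h0 = ken x) (hx : ((536870912 : ℕ) : ℝ) / S ≤ x) (hx' : x ≤ (((536870912 : ℕ) : ℝ) + (50465866 : ℕ)) / S) :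
    AltEB 3 κ (eng.v x) (3 / 40) (tnt (h0 * x) (3 / 10)) PP tK tL tC pcB (scP esg pd) [⟨0, 1, 0, 67108864⟩, ⟨1, 0, 0, 67108864⟩, ⟨2, 1, 0, 67108864⟩] 1 0 2 5 1 (sgb true) (sgb true) x := by
  have X : XR 67108864 x := XR.of hx hx' (by norm_num) (by norm_num) (by norm_num) (by norm_num)
  have hen : 0 < eng.v x := en_pos X.x0.le
  refine CornW.altB (C := cB102L) (j := (5 : Fin 7)) (k := (1 : Fin 7)) (Ef := esg) (pd := pd) (o := 3 / 40)
    (cornW_of (C := cB102L) (C0 := c0B) (En := eng) (mo := mog) (j := (5 : Fin 7)) (k := (1 : Fin 7)) (lo := 0) (hi := 3) (W := 67108864) (N0 := 3) cB102L_q (sideB hx hx') gokB (pinU hx hx') dokB X (by norm_num) (by norm_num) (l := (0 : Fin 7)) rfl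
      (gatB51 x) (gatB12 x) (gatB00 x) (datB51 x) (datB12 x) (datB00 x) ?_)
    (cornS_of (C := cB102L) (C0 := c0B) (j := (5 : Fin 7)) (k := (1 : Fin 7)) (lo := 0) (hi := 3) (W := 67108864) (N0 := 3) cB102L_q (sideB hx hx') gokB X (by norm_num) (by norm_num) (l := (0 : Fin 7)) rfl
      (gatB51 x) (gatB12 x) (gatB00 x) ?_)
    (thU (pinU hx hx')) rfl hκ (fun j q y => tC_eq j q y x) (esg_rng X.x0.le (by linarith [X.b, X.p0])).1 (mo_v x) le_rfl le_rfl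
  · intro ρ a B hρ hd i h1 h2
    fin_cases i
    · exact corW_cert (G1 := gB5q1) (G2 := gB1q2) (Ga := gB0q0) (Gb := gB1q0) (D1 := dB5q1) (D2 := dB1q2) (Da := dB0q0) (Db := dB1q0) cB102L_ok B hρ hen (gatB51 x) (gatB12 x) (fun _ => gatB00 x) (fun _ => gatB10 x) (datB51 x) (datB12 x) (fun _ => datB00 x) (fun _ => datB10 x) hd hx hx' CW.B102L_510
    · exact corW_cert (G1 := gB5q1) (G2 := gB1q2) (Ga := gB1q0) (Gb := gB2q0) (D1 := dB5q1) (D2 := dB1q2) (Da := dB1q0) (Db := dB2q0) cB102L_ok B hρ hen (gatB51 x) (gatB12 x) (fun _ => gatB10 x) (fun _ => gatB20 x) (datB51 x) (datB12 x) (fun _ => datB10 x) (fun _ => datB20 x) hd hx hx' CW.B102L_511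
    · exact corW_cert (G1 := gB5q1) (G2 := gB1q2) (Ga := gB2q0) (Gb := gB3q0) (D1 := dB5q1) (D2 := dB1q2) (Da := dB2q0) (Db := dB3q0) cB102L_ok B hρ hen (gatB51 x) (gatB12 x) (fun _ => gatB20 x) (fun _ => gatB30 x) (datB51 x) (datB12 x) (fun _ => datB20 x) (fun _ => datB30 x) hd hx hx' CW.B102L_512
    · exact corW_cert (G1 := gB5q1) (G2 := gB1q2) (Ga := gB3q0) (Gb := gB4q0) (D1 := dB5q1) (D2 := dB1q2) (Da := dB3q0) (Db := dB4q0) cB102L_ok B hρ hen (gatB51 x) (gatB12 x) (fun _ => gatB30 x) (fun h => absurd h (by decide)) (datB51 x) (datB12 x) (fun _ => datB30 x) (fun h => absurd h (by decide)) hd hx hx' CW.B102L_513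
    · exact absurd h2 (by norm_num)
    · exact absurd h2 (by norm_num)
  · intro ρ a B hρ hd i h1 h2
    fin_cases i
    · exact corT_cert (G1 := gB5q1) (G2 := gB1q2) (Ga := gB0q0) (Gb := gB1q0) cB102L_ok B hρ (gatB51 x) (gatB12 x) (fun _ => gatB00 x) (fun _ => gatB10 x) hd hx hx' CG.B102L_510
    · exact corT_cert (G1 := gB5q1) (G2 := gB1q2) (Ga := gB1q0) (Gb := gB2q0) cB102L_ok B hρ (gatB51 x) (gatB12 x) (fun _ => gatB10 x) (fun _ => gatB20 x) hd hx hx' CG.B102L_511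
    · exact corT_cert (G1 := gB5q1) (G2 := gB1q2) (Ga := gB2q0) (Gb := gB3q0) cB102L_ok B hρ (gatB51 x) (gatB12 x) (fun _ => gatB20 x) (fun _ => gatB30 x) hd hx hx' CG.B102L_512
    · exact corT_cert (G1 := gB5q1) (G2 := gB1q2) (Ga := gB3q0) (Gb := gB4q0) cB102L_ok B hρ (gatB51 x) (gatB12 x) (fun _ => gatB30 x) (fun h => absurd h (by decide)) hd hx hx' CG.B102L_513
    · exact absurd h2 (by norm_num)
    · exact absurd h2 (by norm_num)

theorem altB_B102L_52 {κ x : ℝ} (hκ : κ * h0 = ken x) (hx : ((536870912 : ℕ) : ℝ) / S ≤ x) (hx' : x ≤ (((536870912 : ℕ) : ℝ) + (50465866 : ℕ)) / S) :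
    AltEB 3 κ (eng.v x) (3 / 40) (tnt (h0 * x) (3 / 10)) PP tK tL tC pcB (scP esg pd) [⟨0, 1, 0, 67108864⟩, ⟨1, 0, 0, 67108864⟩, ⟨2, 1, 0, 67108864⟩] 1 0 2 5 2 (sgb true) (sgb true) x := by
  have X : XR 67108864 x := XR.of hx hx' (by norm_num) (by norm_num) (by norm_num) (by norm_num)
  have hen : 0 < eng.v x := en_pos X.x0.le
  refine CornW.altB (C := cB102L) (j := (5 : Fin 7)) (k := (2 : Fin 7)) (Ef := esg) (pd := pd) (o := 3 / 40)
    (cornW_of (C := cB102L) (C0 := c0B) (En := eng) (mo := mog) (j := (5 : Fin 7)) (k := (2 : Fin 7)) (lo := 0) (hi := 3) (W := 67108864) (N0 := 3) cB102L_q (sideB hx hx') gokB (pinU hx hx') dokB X (by norm_num) (by norm_num) (l := (0 : Fin 7)) rfl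
      (gatB51 x) (gatB22 x) (gatB00 x) (datB51 x) (datB22 x) (datB00 x) ?_)
    (cornS_of (C := cB102L) (C0 := c0B) (j := (5 : Fin 7)) (k := (2 : Fin 7)) (lo := 0) (hi := 3) (W := 67108864) (N0 := 3) cB102L_q (sideB hx hx') gokB X (by norm_num) (by norm_num) (l := (0 : Fin 7)) rfl
      (gatB51 x) (gatB22 x) (gatB00 x) ?_)
    (thU (pinU hx hx')) rfl hκ (fun j q y => tC_eq j q y x) (esg_rng X.x0.le (by linarith [X.b, X.p0])).1 (mo_v x) le_rfl le_rfl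
  · intro ρ a B hρ hd i h1 h2
    fin_cases i
    · exact corW_cert (G1 := gB5q1) (G2 := gB2q2) (Ga := gB0q0) (Gb := gB1q0) (D1 := dB5q1) (D2 := dB2q2) (Da := dB0q0) (Db := dB1q0) cB102L_ok B hρ hen (gatB51 x) (gatB22 x) (fun _ => gatB00 x) (fun _ => gatB10 x) (datB51 x) (datB22 x) (fun _ => datB00 x) (fun _ => datB10 x) hd hx hx' CW.B102L_520
    · exact corW_cert (G1 := gB5q1) (G2 := gB2q2) (Ga := gB1q0) (Gb := gB2q0) (D1 := dB5q1) (D2 := dB2q2) (Da := dB1q0) (Db := dB2q0) cB102L_ok B hρ hen (gatB51 x) (gatB22 x) (fun _ => gatB10 x) (fun _ => gatB20 x) (datB51 x) (datB22 x) (fun _ => datB10 x) (fun _ => datB20 x) hd hx hx' CW.B102L_521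
    · exact corW_cert (G1 := gB5q1) (G2 := gB2q2) (Ga := gB2q0) (Gb := gB3q0) (D1 := dB5q1) (D2 := dB2q2) (Da := dB2q0) (Db := dB3q0) cB102L_ok B hρ hen (gatB51 x) (gatB22 x) (fun _ => gatB20 x) (fun _ => gatB30 x) (datB51 x) (datB22 x) (fun _ => datB20 x) (fun _ => datB30 x) hd hx hx' CW.B102L_522
    · exact corW_cert (G1 := gB5q1) (G2 := gB2q2) (Ga := gB3q0) (Gb := gB4q0) (D1 := dB5q1) (D2 := dB2q2) (Da := dB3q0) (Db := dB4q0) cB102L_ok B hρ hen (gatB51 x) (gatB22 x) (fun _ => gatB30 x) (fun h => absurd h (by decide)) (datB51 x) (datB22 x) (fun _ => datB30 x) (fun h => absurd h (by decide)) hd hx hx' CW.B102L_523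
    · exact absurd h2 (by norm_num)
    · exact absurd h2 (by norm_num)
  · intro ρ a B hρ hd i h1 h2
    fin_cases i
    · exact corT_cert (G1 := gB5q1) (G2 := gB2q2) (Ga := gB0q0) (Gb := gB1q0) cB102L_ok B hρ (gatB51 x) (gatB22 x) (fun _ => gatB00 x) (fun _ => gatB10 x) hd hx hx' CG.B102L_520
    · exact corT_cert (G1 := gB5q1) (G2 := gB2q2) (Ga := gB1q0) (Gb := gB2q0) cB102L_ok B hρ (gatB51 x) (gatB22 x) (fun _ => gatB10 x) (fun _ => gatB20 x) hd hx hx' CG.B102L_521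
    · exact corT_cert (G1 := gB5q1) (G2 := gB2q2) (Ga := gB2q0) (Gb := gB3q0) cB102L_ok B hρ (gatB51 x) (gatB22 x) (fun _ => gatB20 x) (fun _ => gatB30 x) hd hx hx' CG.B102L_522
    · exact corT_cert (G1 := gB5q1) (G2 := gB2q2) (Ga := gB3q0) (Gb := gB4q0) cB102L_ok B hρ (gatB51 x) (gatB22 x) (fun _ => gatB30 x) (fun h => absurd h (by decide)) hd hx hx' CG.B102L_523
    · exact absurd h2 (by norm_num)
    · exact absurd h2 (by norm_num)

theorem altB_B102L_53 {κ x : ℝ} (hκ : κ * h0 = ken x) (hx : ((536870912 : ℕ) : ℝ) / S ≤ x) (hx' : x ≤ (((536870912 : ℕ) : ℝ) + (50465866 : ℕ)) / S) :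
    AltEB 3 κ (eng.v x) (3 / 40) (tnt (h0 * x) (3 / 10)) PP tK tL tC pcB (scP esg pd) [⟨0, 1, 0, 67108864⟩, ⟨1, 0, 0, 67108864⟩, ⟨2, 1, 0, 67108864⟩] 1 0 2 5 3 (sgb true) (sgb true) x := by
  have X : XR 67108864 x := XR.of hx hx' (by norm_num) (by norm_num) (by norm_num) (by norm_num)
  have hen : 0 < eng.v x := en_pos X.x0.le
  refine CornW.altB (C := cB102L) (j := (5 : Fin 7)) (k := (3 : Fin 7)) (Ef := esg) (pd := pd) (o := 3 / 40)
    (cornW_of (C := cB102L) (C0 := c0B) (En := eng) (mo := mog) (j := (5 : Fin 7)) (k := (3 : Fin 7)) (lo := 0) (hi := 3) (W := 67108864) (N0 := 3) cB102L_q (sideB hx hx') gokB (pinU hx hx') dokB X (by norm_num) (by norm_num) (l := (0 : Fin 7)) rfl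
      (gatB51 x) (gatB32 x) (gatB00 x) (datB51 x) (datB32 x) (datB00 x) ?_)
    (cornS_of (C := cB102L) (C0 := c0B) (j := (5 : Fin 7)) (k := (3 : Fin 7)) (lo := 0) (hi := 3) (W := 67108864) (N0 := 3) cB102L_q (sideB hx hx') gokB X (by norm_num) (by norm_num) (l := (0 : Fin 7)) rfl
      (gatB51 x) (gatB32 x) (gatB00 x) ?_)
    (thU (pinU hx hx')) rfl hκ (fun j q y => tC_eq j q y x) (esg_rng X.x0.le (by linarith [X.b, X.p0])).1 (mo_v x) le_rfl le_rfl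
  · intro ρ a B hρ hd i h1 h2
    fin_cases i
    · exact corW_cert (G1 := gB5q1) (G2 := gB3q2) (Ga := gB0q0) (Gb := gB1q0) (D1 := dB5q1) (D2 := dB3q2) (Da := dB0q0) (Db := dB1q0) cB102L_ok B hρ hen (gatB51 x) (gatB32 x) (fun _ => gatB00 x) (fun _ => gatB10 x) (datB51 x) (datB32 x) (fun _ => datB00 x) (fun _ => datB10 x) hd hx hx' CW.B102L_530
    · exact corW_cert (G1 := gB5q1) (G2 := gB3q2) (Ga := gB1q0) (Gb := gB2q0) (D1 := dB5q1) (D2 := dB3q2) (Da := dB1q0) (Db := dB2q0) cB102L_ok B hρ hen (gatB51 x) (gatB32 x) (fun _ => gatB10 x) (fun _ => gatB20 x) (datB51 x) (datB32 x) (fun _ => datB10 x) (fun _ => datB20 x) hd hx hx' CW.B102L_531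
    · exact corW_cert (G1 := gB5q1) (G2 := gB3q2) (Ga := gB2q0) (Gb := gB3q0) (D1 := dB5q1) (D2 := dB3q2) (Da := dB2q0) (Db := dB3q0) cB102L_ok B hρ hen (gatB51 x) (gatB32 x) (fun _ => gatB20 x) (fun _ => gatB30 x) (datB51 x) (datB32 x) (fun _ => datB20 x) (fun _ => datB30 x) hd hx hx' CW.B102L_532
    · exact corW_cert (G1 := gB5q1) (G2 := gB3q2) (Ga := gB3q0) (Gb := gB4q0) (D1 := dB5q1) (D2 := dB3q2) (Da := dB3q0) (Db := dB4q0) cB102L_ok B hρ hen (gatB51 x) (gatB32 x) (fun _ => gatB30 x) (fun h => absurd h (by decide)) (datB51 x) (datB32 x) (fun _ => datB30 x) (fun h => absurd h (by decide)) hd hx hx' CW.B102L_533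
    · exact absurd h2 (by norm_num)
    · exact absurd h2 (by norm_num)
  · intro ρ a B hρ hd i h1 h2
    fin_cases i
    · exact corT_cert (G1 := gB5q1) (G2 := gB3q2) (Ga := gB0q0) (Gb := gB1q0) cB102L_ok B hρ (gatB51 x) (gatB32 x) (fun _ => gatB00 x) (fun _ => gatB10 x) hd hx hx' CG.B102L_530
    · exact corT_cert (G1 := gB5q1) (G2 := gB3q2) (Ga := gB1q0) (Gb := gB2q0) cB102L_ok B hρ (gatB51 x) (gatB32 x) (fun _ => gatB10 x) (fun _ => gatB20 x) hd hx hx' CG.B102L_531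
    · exact corT_cert (G1 := gB5q1) (G2 := gB3q2) (Ga := gB2q0) (Gb := gB3q0) cB102L_ok B hρ (gatB51 x) (gatB32 x) (fun _ => gatB20 x) (fun _ => gatB30 x) hd hx hx' CG.B102L_532
    · exact corT_cert (G1 := gB5q1) (G2 := gB3q2) (Ga := gB3q0) (Gb := gB4q0) cB102L_ok B hρ (gatB51 x) (gatB32 x) (fun _ => gatB30 x) (fun h => absurd h (by decide)) hd hx hx' CG.B102L_533
    · exact absurd h2 (by norm_num)
    · exact absurd h2 (by norm_num)

theorem altB_B102L_60 {κ x : ℝ} (hκ : κ * h0 = ken x) (hx : ((536870912 : ℕ) : ℝ) / S ≤ x) (hx' : x ≤ (((536870912 : ℕ) : ℝ) + (50465866 : ℕ)) / S) :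
    AltEB 3 κ (eng.v x) (3 / 40) (tnt (h0 * x) (3 / 10)) PP tK tL tC pcB (scP esg pd) [⟨0, 1, 0, 67108864⟩, ⟨1, 0, 0, 67108864⟩, ⟨2, 1, 0, 67108864⟩] 1 0 2 6 0 (sgb true) (sgb true) x := by
  have X : XR 67108864 x := XR.of hx hx' (by norm_num) (by norm_num) (by norm_num) (by norm_num)
  have hen : 0 < eng.v x := en_pos X.x0.le
  refine CornW.altB (C := cB102L) (j := (6 : Fin 7)) (k := (0 : Fin 7)) (Ef := esg) (pd := pd) (o := 3 / 40)
    (cornW_of (C := cB102L) (C0 := c0B) (En := eng) (mo := mog) (j := (6 : Fin 7)) (k := (0 : Fin 7)) (lo := 0) (hi := 3) (W := 67108864) (N0 := 3) cB102L_q (sideB hx hx') gokB (pinU hx hx') dokB X (by norm_num) (by norm_num) (l := (0 : Fin 7)) rfl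
      (gatB61 x) (gatB02 x) (gatB00 x) (datB61 x) (datB02 x) (datB00 x) ?_)
    (cornS_of (C := cB102L) (C0 := c0B) (j := (6 : Fin 7)) (k := (0 : Fin 7)) (lo := 0) (hi := 3) (W := 67108864) (N0 := 3) cB102L_q (sideB hx hx') gokB X (by norm_num) (by norm_num) (l := (0 : Fin 7)) rfl
      (gatB61 x) (gatB02 x) (gatB00 x) ?_)
    (thU (pinU hx hx')) rfl hκ (fun j q y => tC_eq j q y x) (esg_rng X.x0.le (by linarith [X.b, X.p0])).1 (mo_v x) le_rfl le_rfl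
  · intro ρ a B hρ hd i h1 h2
    fin_cases i
    · exact corW_cert (G1 := gB6q1) (G2 := gB0q2) (Ga := gB0q0) (Gb := gB1q0) (D1 := dB6q1) (D2 := dB0q2) (Da := dB0q0) (Db := dB1q0) cB102L_ok B hρ hen (gatB61 x) (gatB02 x) (fun _ => gatB00 x) (fun _ => gatB10 x) (datB61 x) (datB02 x) (fun _ => datB00 x) (fun _ => datB10 x) hd hx hx' CW.B102L_600
    · exact corW_cert (G1 := gB6q1) (G2 := gB0q2) (Ga := gB1q0) (Gb := gB2q0) (D1 := dB6q1) (D2 := dB0q2) (Da := dB1q0) (Db := dB2q0) cB102L_ok B hρ hen (gatB61 x) (gatB02 x) (fun _ => gatB10 x) (fun _ => gatB20 x) (datB61 x) (datB02 x) (fun _ => datB10 x) (fun _ => datB20 x) hd hx hx' CW.B102L_601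
    · exact corW_cert (G1 := gB6q1) (G2 := gB0q2) (Ga := gB2q0) (Gb := gB3q0) (D1 := dB6q1) (D2 := dB0q2) (Da := dB2q0) (Db := dB3q0) cB102L_ok B hρ hen (gatB61 x) (gatB02 x) (fun _ => gatB20 x) (fun _ => gatB30 x) (datB61 x) (datB02 x) (fun _ => datB20 x) (fun _ => datB30 x) hd hx hx' CW.B102L_602
    · exact corW_cert (G1 := gB6q1) (G2 := gB0q2) (Ga := gB3q0) (Gb := gB4q0) (D1 := dB6q1) (D2 := dB0q2) (Da := dB3q0) (Db := dB4q0) cB102L_ok B hρ hen (gatB61 x) (gatB02 x) (fun _ => gatB30 x) (fun h => absurd h (by decide)) (datB61 x) (datB02 x) (fun _ => datB30 x) (fun h => absurd h (by decide)) hd hx hx' CW.B102L_603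
    · exact absurd h2 (by norm_num)
    · exact absurd h2 (by norm_num)
  · intro ρ a B hρ hd i h1 h2
    fin_cases i
    · exact corT_cert (G1 := gB6q1) (G2 := gB0q2) (Ga := gB0q0) (Gb := gB1q0) cB102L_ok B hρ (gatB61 x) (gatB02 x) (fun _ => gatB00 x) (fun _ => gatB10 x) hd hx hx' CG.B102L_600
    · exact corT_cert (G1 := gB6q1) (G2 := gB0q2) (Ga := gB1q0) (Gb := gB2q0) cB102L_ok B hρ (gatB61 x) (gatB02 x) (fun _ => gatB10 x) (fun _ => gatB20 x) hd hx hx' CG.B102L_601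
    · exact corT_cert (G1 := gB6q1) (G2 := gB0q2) (Ga := gB2q0) (Gb := gB3q0) cB102L_ok B hρ (gatB61 x) (gatB02 x) (fun _ => gatB20 x) (fun _ => gatB30 x) hd hx hx' CG.B102L_602
    · exact corT_cert (G1 := gB6q1) (G2 := gB0q2) (Ga := gB3q0) (Gb := gB4q0) cB102L_ok B hρ (gatB61 x) (gatB02 x) (fun _ => gatB30 x) (fun h => absurd h (by decide)) hd hx hx' CG.B102L_603
    · exact absurd h2 (by norm_num)
    · exact absurd h2 (by norm_num)

theorem altB_B102L_61 {κ x : ℝ} (hκ : κ * h0 = ken x) (hx : ((536870912 : ℕ) : ℝ) / S ≤ x) (hx' : x ≤ (((536870912 : ℕ) : ℝ) + (50465866 : ℕ)) / S) :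
    AltEB 3 κ (eng.v x) (3 / 40) (tnt (h0 * x) (3 / 10)) PP tK tL tC pcB (scP esg pd) [⟨0, 1, 0, 67108864⟩, ⟨1, 0, 0, 67108864⟩, ⟨2, 1, 0, 67108864⟩] 1 0 2 6 1 (sgb true) (sgb true) x := by
  have X : XR 67108864 x := XR.of hx hx' (by norm_num) (by norm_num) (by norm_num) (by norm_num)
  have hen : 0 < eng.v x := en_pos X.x0.le
  refine CornW.altB (C := cB102L) (j := (6 : Fin 7)) (k := (1 : Fin 7)) (Ef := esg) (pd := pd) (o := 3 / 40)
    (cornW_of (C := cB102L) (C0 := c0B) (En := eng) (mo := mog) (j := (6 : Fin 7)) (k := (1 : Fin 7)) (lo := 0) (hi := 3) (W := 67108864) (N0 := 3) cB102L_q (sideB hx hx') gokB (pinU hx hx') dokB X (by norm_num) (by norm_num) (l := (0 : Fin 7)) rfl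
      (gatB61 x) (gatB12 x) (gatB00 x) (datB61 x) (datB12 x) (datB00 x) ?_)
    (cornS_of (C := cB102L) (C0 := c0B) (j := (6 : Fin 7)) (k := (1 : Fin 7)) (lo := 0) (hi := 3) (W := 67108864) (N0 := 3) cB102L_q (sideB hx hx') gokB X (by norm_num) (by norm_num) (l := (0 : Fin 7)) rfl
      (gatB61 x) (gatB12 x) (gatB00 x) ?_)
    (thU (pinU hx hx')) rfl hκ (fun j q y => tC_eq j q y x) (esg_rng X.x0.le (by linarith [X.b, X.p0])).1 (mo_v x) le_rfl le_rfl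
  · intro ρ a B hρ hd i h1 h2
    fin_cases i
    · exact corW_cert (G1 := gB6q1) (G2 := gB1q2) (Ga := gB0q0) (Gb := gB1q0) (D1 := dB6q1) (D2 := dB1q2) (Da := dB0q0) (Db := dB1q0) cB102L_ok B hρ hen (gatB61 x) (gatB12 x) (fun _ => gatB00 x) (fun _ => gatB10 x) (datB61 x) (datB12 x) (fun _ => datB00 x) (fun _ => datB10 x) hd hx hx' CW.B102L_610
    · exact corW_cert (G1 := gB6q1) (G2 := gB1q2) (Ga := gB1q0) (Gb := gB2q0) (D1 := dB6q1) (D2 := dB1q2) (Da := dB1q0) (Db := dB2q0) cB102L_ok B hρ hen (gatB61 x) (gatB12 x) (fun _ => gatB10 x) (fun _ => gatB20 x) (datB61 x) (datB12 x) (fun _ => datB10 x) (fun _ => datB20 x) hd hx hx' CW.B102L_611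
    · exact corW_cert (G1 := gB6q1) (G2 := gB1q2) (Ga := gB2q0) (Gb := gB3q0) (D1 := dB6q1) (D2 := dB1q2) (Da := dB2q0) (Db := dB3q0) cB102L_ok B hρ hen (gatB61 x) (gatB12 x) (fun _ => gatB20 x) (fun _ => gatB30 x) (datB61 x) (datB12 x) (fun _ => datB20 x) (fun _ => datB30 x) hd hx hx' CW.B102L_612
    · exact corW_cert (G1 := gB6q1) (G2 := gB1q2) (Ga := gB3q0) (Gb := gB4q0) (D1 := dB6q1) (D2 := dB1q2) (Da := dB3q0) (Db := dB4q0) cB102L_ok B hρ hen (gatB61 x) (gatB12 x) (fun _ => gatB30 x) (fun h => absurd h (by decide)) (datB61 x) (datB12 x) (fun _ => datB30 x) (fun h => absurd h (by decide)) hd hx hx' CW.B102L_613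
    · exact absurd h2 (by norm_num)
    · exact absurd h2 (by norm_num)
  · intro ρ a B hρ hd i h1 h2
    fin_cases i
    · exact corT_cert (G1 := gB6q1) (G2 := gB1q2) (Ga := gB0q0) (Gb := gB1q0) cB102L_ok B hρ (gatB61 x) (gatB12 x) (fun _ => gatB00 x) (fun _ => gatB10 x) hd hx hx' CG.B102L_610
    · exact corT_cert (G1 := gB6q1) (G2 := gB1q2) (Ga := gB1q0) (Gb := gB2q0) cB102L_ok B hρ (gatB61 x) (gatB12 x) (fun _ => gatB10 x) (fun _ => gatB20 x) hd hx hx' CG.B102L_611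
    · exact corT_cert (G1 := gB6q1) (G2 := gB1q2) (Ga := gB2q0) (Gb := gB3q0) cB102L_ok B hρ (gatB61 x) (gatB12 x) (fun _ => gatB20 x) (fun _ => gatB30 x) hd hx hx' CG.B102L_612
    · exact corT_cert (G1 := gB6q1) (G2 := gB1q2) (Ga := gB3q0) (Gb := gB4q0) cB102L_ok B hρ (gatB61 x) (gatB12 x) (fun _ => gatB30 x) (fun h => absurd h (by decide)) hd hx hx' CG.B102L_613
    · exact absurd h2 (by norm_num)
    · exact absurd h2 (by norm_num)

theorem altB_B102L_62 {κ x : ℝ} (hκ : κ * h0 = ken x) (hx : ((536870912 : ℕ) : ℝ) / S ≤ x) (hx' : x ≤ (((536870912 : ℕ) : ℝ) + (50465866 : ℕ)) / S) :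
    AltEB 3 κ (eng.v x) (3 / 40) (tnt (h0 * x) (3 / 10)) PP tK tL tC pcB (scP esg pd) [⟨0, 1, 0, 67108864⟩, ⟨1, 0, 0, 67108864⟩, ⟨2, 1, 0, 67108864⟩] 1 0 2 6 2 (sgb true) (sgb true) x := by
  have X : XR 67108864 x := XR.of hx hx' (by norm_num) (by norm_num) (by norm_num) (by norm_num)
  have hen : 0 < eng.v x := en_pos X.x0.le
  refine CornW.altB (C := cB102L) (j := (6 : Fin 7)) (k := (2 : Fin 7)) (Ef := esg) (pd := pd) (o := 3 / 40)
    (cornW_of (C := cB102L) (C0 := c0B) (En := eng) (mo := mog) (j := (6 : Fin 7)) (k := (2 : Fin 7)) (lo := 0) (hi := 3) (W := 67108864) (N0 := 3) cB102L_q (sideB hx hx') gokB (pinU hx hx') dokB X (by norm_num) (by norm_num) (l := (0 : Fin 7)) rfl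
      (gatB61 x) (gatB22 x) (gatB00 x) (datB61 x) (datB22 x) (datB00 x) ?_)
    (cornS_of (C := cB102L) (C0 := c0B) (j := (6 : Fin 7)) (k := (2 : Fin 7)) (lo := 0) (hi := 3) (W := 67108864) (N0 := 3) cB102L_q (sideB hx hx') gokB X (by norm_num) (by norm_num) (l := (0 : Fin 7)) rfl
      (gatB61 x) (gatB22 x) (gatB00 x) ?_)
    (thU (pinU hx hx')) rfl hκ (fun j q y => tC_eq j q y x) (esg_rng X.x0.le (by linarith [X.b, X.p0])).1 (mo_v x) le_rfl le_rfl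
  · intro ρ a B hρ hd i h1 h2
    fin_cases i
    · exact corW_cert (G1 := gB6q1) (G2 := gB2q2) (Ga := gB0q0) (Gb := gB1q0) (D1 := dB6q1) (D2 := dB2q2) (Da := dB0q0) (Db := dB1q0) cB102L_ok B hρ hen (gatB61 x) (gatB22 x) (fun _ => gatB00 x) (fun _ => gatB10 x) (datB61 x) (datB22 x) (fun _ => datB00 x) (fun _ => datB10 x) hd hx hx' CW.B102L_620
    · exact corW_cert (G1 := gB6q1) (G2 := gB2q2) (Ga := gB1q0) (Gb := gB2q0) (D1 := dB6q1) (D2 := dB2q2) (Da := dB1q0) (Db := dB2q0) cB102L_ok B hρ hen (gatB61 x) (gatB22 x) (fun _ => gatB10 x) (fun _ => gatB20 x) (datB61 x) (datB22 x) (fun _ => datB10 x) (fun _ => datB20 x) hd hx hx' CW.B102L_621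
    · exact corW_cert (G1 := gB6q1) (G2 := gB2q2) (Ga := gB2q0) (Gb := gB3q0) (D1 := dB6q1) (D2 := dB2q2) (Da := dB2q0) (Db := dB3q0) cB102L_ok B hρ hen (gatB61 x) (gatB22 x) (fun _ => gatB20 x) (fun _ => gatB30 x) (datB61 x) (datB22 x) (fun _ => datB20 x) (fun _ => datB30 x) hd hx hx' CW.B102L_622
    · exact corW_cert (G1 := gB6q1) (G2 := gB2q2) (Ga := gB3q0) (Gb := gB4q0) (D1 := dB6q1) (D2 := dB2q2) (Da := dB3q0) (Db := dB4q0) cB102L_ok B hρ hen (gatB61 x) (gatB22 x) (fun _ => gatB30 x) (fun h => absurd h (by decide)) (datB61 x) (datB22 x) (fun _ => datB30 x) (fun h => absurd h (by decide)) hd hx hx' CW.B102L_623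
    · exact absurd h2 (by norm_num)
    · exact absurd h2 (by norm_num)
  · intro ρ a B hρ hd i h1 h2
    fin_cases i
    · exact corT_cert (G1 := gB6q1) (G2 := gB2q2) (Ga := gB0q0) (Gb := gB1q0) cB102L_ok B hρ (gatB61 x) (gatB22 x) (fun _ => gatB00 x) (fun _ => gatB10 x) hd hx hx' CG.B102L_620
    · exact corT_cert (G1 := gB6q1) (G2 := gB2q2) (Ga := gB1q0) (Gb := gB2q0) cB102L_ok B hρ (gatB61 x) (gatB22 x) (fun _ => gatB10 x) (fun _ => gatB20 x) hd hx hx' CG.B102L_621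
    · exact corT_cert (G1 := gB6q1) (G2 := gB2q2) (Ga := gB2q0) (Gb := gB3q0) cB102L_ok B hρ (gatB61 x) (gatB22 x) (fun _ => gatB20 x) (fun _ => gatB30 x) hd hx hx' CG.B102L_622
    · exact corT_cert (G1 := gB6q1) (G2 := gB2q2) (Ga := gB3q0) (Gb := gB4q0) cB102L_ok B hρ (gatB61 x) (gatB22 x) (fun _ => gatB30 x) (fun h => absurd h (by decide)) hd hx hx' CG.B102L_623
    · exact absurd h2 (by norm_num)
    · exact absurd h2 (by norm_num)

theorem altB_B102L_63 {κ x : ℝ} (hκ : κ * h0 = ken x) (hx : ((536870912 : ℕ) : ℝ) / S ≤ x) (hx' : x ≤ (((536870912 : ℕ) : ℝ) + (50465866 : ℕ)) / S) :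
    AltEB 3 κ (eng.v x) (3 / 40) (tnt (h0 * x) (3 / 10)) PP tK tL tC pcB (scP esg pd) [⟨0, 1, 0, 67108864⟩, ⟨1, 0, 0, 67108864⟩, ⟨2, 1, 0, 67108864⟩] 1 0 2 6 3 (sgb true) (sgb true) x := by
  have X : XR 67108864 x := XR.of hx hx' (by norm_num) (by norm_num) (by norm_num) (by norm_num)
  have hen : 0 < eng.v x := en_pos X.x0.le
  refine CornW.altB (C := cB102L) (j := (6 : Fin 7)) (k := (3 : Fin 7)) (Ef := esg) (pd := pd) (o := 3 / 40)
    (cornW_of (C := cB102L) (C0 := c0B) (En := eng) (mo := mog) (j := (6 : Fin 7)) (k := (3 : Fin 7)) (lo := 0) (hi := 3) (W := 67108864) (N0 := 3) cB102L_q (sideB hx hx') gokB (pinU hx hx') dokB X (by norm_num) (by norm_num) (l := (0 : Fin 7)) rfl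
      (gatB61 x) (gatB32 x) (gatB00 x) (datB61 x) (datB32 x) (datB00 x) ?_)
    (cornS_of (C := cB102L) (C0 := c0B) (j := (6 : Fin 7)) (k := (3 : Fin 7)) (lo := 0) (hi := 3) (W := 67108864) (N0 := 3) cB102L_q (sideB hx hx') gokB X (by norm_num) (by norm_num) (l := (0 : Fin 7)) rfl
      (gatB61 x) (gatB32 x) (gatB00 x) ?_)
    (thU (pinU hx hx')) rfl hκ (fun j q y => tC_eq j q y x) (esg_rng X.x0.le (by linarith [X.b, X.p0])).1 (mo_v x) le_rfl le_rfl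
  · intro ρ a B hρ hd i h1 h2
    fin_cases i
    · exact corW_cert (G1 := gB6q1) (G2 := gB3q2) (Ga := gB0q0) (Gb := gB1q0) (D1 := dB6q1) (D2 := dB3q2) (Da := dB0q0) (Db := dB1q0) cB102L_ok B hρ hen (gatB61 x) (gatB32 x) (fun _ => gatB00 x) (fun _ => gatB10 x) (datB61 x) (datB32 x) (fun _ => datB00 x) (fun _ => datB10 x) hd hx hx' CW.B102L_630
    · exact corW_cert (G1 := gB6q1) (G2 := gB3q2) (Ga := gB1q0) (Gb := gB2q0) (D1 := dB6q1) (D2 := dB3q2) (Da := dB1q0) (Db := dB2q0) cB102L_ok B hρ hen (gatB61 x) (gatB32 x) (fun _ => gatB10 x) (fun _ => gatB20 x) (datB61 x) (datB32 x) (fun _ => datB10 x) (fun _ => datB20 x) hd hx hx' CW.B102L_631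
    · exact corW_cert (G1 := gB6q1) (G2 := gB3q2) (Ga := gB2q0) (Gb := gB3q0) (D1 := dB6q1) (D2 := dB3q2) (Da := dB2q0) (Db := dB3q0) cB102L_ok B hρ hen (gatB61 x) (gatB32 x) (fun _ => gatB20 x) (fun _ => gatB30 x) (datB61 x) (datB32 x) (fun _ => datB20 x) (fun _ => datB30 x) hd hx hx' CW.B102L_632
    · exact corW_cert (G1 := gB6q1) (G2 := gB3q2) (Ga := gB3q0) (Gb := gB4q0) (D1 := dB6q1) (D2 := dB3q2) (Da := dB3q0) (Db := dB4q0) cB102L_ok B hρ hen (gatB61 x) (gatB32 x) (fun _ => gatB30 x) (fun h => absurd h (by decide)) (datB61 x) (datB32 x) (fun _ => datB30 x) (fun h => absurd h (by decide)) hd hx hx' CW.B102L_633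
    · exact absurd h2 (by norm_num)
    · exact absurd h2 (by norm_num)
  · intro ρ a B hρ hd i h1 h2
    fin_cases i
    · exact corT_cert (G1 := gB6q1) (G2 := gB3q2) (Ga := gB0q0) (Gb := gB1q0) cB102L_ok B hρ (gatB61 x) (gatB32 x) (fun _ => gatB00 x) (fun _ => gatB10 x) hd hx hx' CG.B102L_630
    · exact corT_cert (G1 := gB6q1) (G2 := gB3q2) (Ga := gB1q0) (Gb := gB2q0) cB102L_ok B hρ (gatB61 x) (gatB32 x) (fun _ => gatB10 x) (fun _ => gatB20 x) hd hx hx' CG.B102L_631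
    · exact corT_cert (G1 := gB6q1) (G2 := gB3q2) (Ga := gB2q0) (Gb := gB3q0) cB102L_ok B hρ (gatB61 x) (gatB32 x) (fun _ => gatB20 x) (fun _ => gatB30 x) hd hx hx' CG.B102L_632
    · exact corT_cert (G1 := gB6q1) (G2 := gB3q2) (Ga := gB3q0) (Gb := gB4q0) cB102L_ok B hρ (gatB61 x) (gatB32 x) (fun _ => gatB30 x) (fun h => absurd h (by decide)) hd hx hx' CG.B102L_633
    · exact absurd h2 (by norm_num)
    · exact absurd h2 (by norm_num)

theorem altB_B102R_06 {κ x : ℝ} (hκ : κ * h0 = ken x) (hx : ((536870912 : ℕ) : ℝ) / S ≤ x) (hx' : x ≤ (((536870912 : ℕ) : ℝ) + (50465866 : ℕ)) / S) :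
    AltEB 3 κ (eng.v x) (3 / 40) (tnt (h0 * x) (3 / 10)) PP tK tL tC pcB (scP esg pd) [⟨0, 1, 0, 67108864⟩, ⟨1, 0, 0, 67108864⟩, ⟨2, 1, 0, 67108864⟩] 1 0 2 0 6 (sgb false) (sgb false) x := by
  have X : XR 67108864 x := XR.of hx hx' (by norm_num) (by norm_num) (by norm_num) (by norm_num)
  have hen : 0 < eng.v x := en_pos X.x0.le
  refine CornW.altB (C := cB102R) (j := (0 : Fin 7)) (k := (6 : Fin 7)) (Ef := esg) (pd := pd) (o := 3 / 40)
    (cornW_of (C := cB102R) (C0 := c0B) (En := eng) (mo := mog) (j := (0 : Fin 7)) (k := (6 : Fin 7)) (lo := 0) (hi := 3) (W := 67108864) (N0 := 3) cB102R_q (sideB hx hx') gokB (pinU hx hx') dokB X (by norm_num) (by norm_num) (l := (0 : Fin 7)) rfl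
      (gatB01 x) (gatB62 x) (gatB00 x) (datB01 x) (datB62 x) (datB00 x) ?_)
    (cornS_of (C := cB102R) (C0 := c0B) (j := (0 : Fin 7)) (k := (6 : Fin 7)) (lo := 0) (hi := 3) (W := 67108864) (N0 := 3) cB102R_q (sideB hx hx') gokB X (by norm_num) (by norm_num) (l := (0 : Fin 7)) rfl
      (gatB01 x) (gatB62 x) (gatB00 x) ?_)
    (thU (pinU hx hx')) rfl hκ (fun j q y => tC_eq j q y x) (esg_rng X.x0.le (by linarith [X.b, X.p0])).1 (mo_v x) le_rfl le_rfl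
  · intro ρ a B hρ hd i h1 h2
    fin_cases i
    · exact corW_cert (G1 := gB0q1) (G2 := gB6q2) (Ga := gB0q0) (Gb := gB1q0) (D1 := dB0q1) (D2 := dB6q2) (Da := dB0q0) (Db := dB1q0) cB102R_ok B hρ hen (gatB01 x) (gatB62 x) (fun _ => gatB00 x) (fun _ => gatB10 x) (datB01 x) (datB62 x) (fun _ => datB00 x) (fun _ => datB10 x) hd hx hx' CW.B102R_060
    · exact corW_cert (G1 := gB0q1) (G2 := gB6q2) (Ga := gB1q0) (Gb := gB2q0) (D1 := dB0q1) (D2 := dB6q2) (Da := dB1q0) (Db := dB2q0) cB102R_ok B hρ hen (gatB01 x) (gatB62 x) (fun _ => gatB10 x) (fun _ => gatB20 x) (datB01 x) (datB62 x) (fun _ => datB10 x) (fun _ => datB20 x) hd hx hx' CW.B102R_061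
    · exact corW_cert (G1 := gB0q1) (G2 := gB6q2) (Ga := gB2q0) (Gb := gB3q0) (D1 := dB0q1) (D2 := dB6q2) (Da := dB2q0) (Db := dB3q0) cB102R_ok B hρ hen (gatB01 x) (gatB62 x) (fun _ => gatB20 x) (fun _ => gatB30 x) (datB01 x) (datB62 x) (fun _ => datB20 x) (fun _ => datB30 x) hd hx hx' CW.B102R_062
    · exact corW_cert (G1 := gB0q1) (G2 := gB6q2) (Ga := gB3q0) (Gb := gB4q0) (D1 := dB0q1) (D2 := dB6q2) (Da := dB3q0) (Db := dB4q0) cB102R_ok B hρ hen (gatB01 x) (gatB62 x) (fun _ => gatB30 x) (fun h => absurd h (by decide)) (datB01 x) (datB62 x) (fun _ => datB30 x) (fun h => absurd h (by decide)) hd hx hx' CW.B102R_063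
    · exact absurd h2 (by norm_num)
    · exact absurd h2 (by norm_num)
  · intro ρ a B hρ hd i h1 h2
    fin_cases i
    · exact corT_cert (G1 := gB0q1) (G2 := gB6q2) (Ga := gB0q0) (Gb := gB1q0) cB102R_ok B hρ (gatB01 x) (gatB62 x) (fun _ => gatB00 x) (fun _ => gatB10 x) hd hx hx' CG.B102R_060
    · exact corT_cert (G1 := gB0q1) (G2 := gB6q2) (Ga := gB1q0) (Gb := gB2q0) cB102R_ok B hρ (gatB01 x) (gatB62 x) (fun _ => gatB10 x) (fun _ => gatB20 x) hd hx hx' CG.B102R_061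
    · exact corT_cert (G1 := gB0q1) (G2 := gB6q2) (Ga := gB2q0) (Gb := gB3q0) cB102R_ok B hρ (gatB01 x) (gatB62 x) (fun _ => gatB20 x) (fun _ => gatB30 x) hd hx hx' CG.B102R_062
    · exact corT_cert (G1 := gB0q1) (G2 := gB6q2) (Ga := gB3q0) (Gb := gB4q0) cB102R_ok B hρ (gatB01 x) (gatB62 x) (fun _ => gatB30 x) (fun h => absurd h (by decide)) hd hx hx' CG.B102R_063
    · exact absurd h2 (by norm_num)
    · exact absurd h2 (by norm_num)

theorem altB_B202E_00 {κ x : ℝ} (hκ : κ * h0 = ken x) (hx : ((536870912 : ℕ) : ℝ) / S ≤ x) (hx' : x ≤ (((536870912 : ℕ) : ℝ) + (50465866 : ℕ)) / S) :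
    AltEB 3 κ (eng.v x) (3 / 40) (tnt (h0 * x) (3 / 10)) PP tK tL tC pcB (scP esg pd) [⟨0, 1, 0, 67108864⟩, ⟨1, 0, 0, 67108864⟩, ⟨2, 1, 0, 67108864⟩] 2 0 2 0 0 (sgb true) (sgb false) x := by
  have X : XR 67108864 x := XR.of hx hx' (by norm_num) (by norm_num) (by norm_num) (by norm_num)
  have hen : 0 < eng.v x := en_pos X.x0.le
  refine CornW.altB (C := cB202E) (j := (0 : Fin 7)) (k := (0 : Fin 7)) (Ef := esg) (pd := pd) (o := 3 / 40)
    (cornW_of (C := cB202E) (C0 := c0B) (En := eng) (mo := mog) (j := (0 : Fin 7)) (k := (0 : Fin 7)) (lo := 0) (hi := 3) (W := 67108864) (N0 := 3) cB202E_q (sideB hx hx') gokB (pinU hx hx') dokB X (by norm_num) (by norm_num) (l := (0 : Fin 7)) rfl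
      (gatB02 x) (gatB02 x) (gatB00 x) (datB02 x) (datB02 x) (datB00 x) ?_)
    (cornS_of (C := cB202E) (C0 := c0B) (j := (0 : Fin 7)) (k := (0 : Fin 7)) (lo := 0) (hi := 3) (W := 67108864) (N0 := 3) cB202E_q (sideB hx hx') gokB X (by norm_num) (by norm_num) (l := (0 : Fin 7)) rfl
      (gatB02 x) (gatB02 x) (gatB00 x) ?_)
    (thU (pinU hx hx')) rfl hκ (fun j q y => tC_eq j q y x) (esg_rng X.x0.le (by linarith [X.b, X.p0])).1 (mo_v x) le_rfl le_rfl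
  · intro ρ a B hρ hd i h1 h2
    fin_cases i
    · exact corW_cert (G1 := gB0q2) (G2 := gB0q2) (Ga := gB0q0) (Gb := gB1q0) (D1 := dB0q2) (D2 := dB0q2) (Da := dB0q0) (Db := dB1q0) cB202E_ok B hρ hen (gatB02 x) (gatB02 x) (fun _ => gatB00 x) (fun _ => gatB10 x) (datB02 x) (datB02 x) (fun _ => datB00 x) (fun _ => datB10 x) hd hx hx' CW.B202E_000
    · exact corW_cert (G1 := gB0q2) (G2 := gB0q2) (Ga := gB1q0) (Gb := gB2q0) (D1 := dB0q2) (D2 := dB0q2) (Da := dB1q0) (Db := dB2q0) cB202E_ok B hρ hen (gatB02 x) (gatB02 x) (fun _ => gatB10 x) (fun _ => gatB20 x) (datB02 x) (datB02 x) (fun _ => datB10 x) (fun _ => datB20 x) hd hx hx' CW.B202E_001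
    · exact corW_cert (G1 := gB0q2) (G2 := gB0q2) (Ga := gB2q0) (Gb := gB3q0) (D1 := dB0q2) (D2 := dB0q2) (Da := dB2q0) (Db := dB3q0) cB202E_ok B hρ hen (gatB02 x) (gatB02 x) (fun _ => gatB20 x) (fun _ => gatB30 x) (datB02 x) (datB02 x) (fun _ => datB20 x) (fun _ => datB30 x) hd hx hx' CW.B202E_002
    · exact corW_cert (G1 := gB0q2) (G2 := gB0q2) (Ga := gB3q0) (Gb := gB4q0) (D1 := dB0q2) (D2 := dB0q2) (Da := dB3q0) (Db := dB4q0) cB202E_ok B hρ hen (gatB02 x) (gatB02 x) (fun _ => gatB30 x) (fun h => absurd h (by decide)) (datB02 x) (datB02 x) (fun _ => datB30 x) (fun h => absurd h (by decide)) hd hx hx' CW.B202E_003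
    · exact absurd h2 (by norm_num)
    · exact absurd h2 (by norm_num)
  · intro ρ a B hρ hd i h1 h2
    fin_cases i
    · exact corT_cert (G1 := gB0q2) (G2 := gB0q2) (Ga := gB0q0) (Gb := gB1q0) cB202E_ok B hρ (gatB02 x) (gatB02 x) (fun _ => gatB00 x) (fun _ => gatB10 x) hd hx hx' CG.B202E_000
    · exact corT_cert (G1 := gB0q2) (G2 := gB0q2) (Ga := gB1q0) (Gb := gB2q0) cB202E_ok B hρ (gatB02 x) (gatB02 x) (fun _ => gatB10 x) (fun _ => gatB20 x) hd hx hx' CG.B202E_001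
    · exact corT_cert (G1 := gB0q2) (G2 := gB0q2) (Ga := gB2q0) (Gb := gB3q0) cB202E_ok B hρ (gatB02 x) (gatB02 x) (fun _ => gatB20 x) (fun _ => gatB30 x) hd hx hx' CG.B202E_002
    · exact corT_cert (G1 := gB0q2) (G2 := gB0q2) (Ga := gB3q0) (Gb := gB4q0) cB202E_ok B hρ (gatB02 x) (gatB02 x) (fun _ => gatB30 x) (fun h => absurd h (by decide)) hd hx hx' CG.B202E_003
    · exact absurd h2 (by norm_num)
    · exact absurd h2 (by norm_num)

theorem altB_B202E_01 {κ x : ℝ} (hκ : κ * h0 = ken x) (hx : ((536870912 : ℕ) : ℝ) / S ≤ x) (hx' : x ≤ (((536870912 : ℕ) : ℝ) + (50465866 : ℕ)) / S) :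
    AltEB 3 κ (eng.v x) (3 / 40) (tnt (h0 * x) (3 / 10)) PP tK tL tC pcB (scP esg pd) [⟨0, 1, 0, 67108864⟩, ⟨1, 0, 0, 67108864⟩, ⟨2, 1, 0, 67108864⟩] 2 0 2 0 1 (sgb true) (sgb false) x := by
  have X : XR 67108864 x := XR.of hx hx' (by norm_num) (by norm_num) (by norm_num) (by norm_num)
  have hen : 0 < eng.v x := en_pos X.x0.le
  refine CornW.altB (C := cB202E) (j := (0 : Fin 7)) (k := (1 : Fin 7)) (Ef := esg) (pd := pd) (o := 3 / 40)
    (cornW_of (C := cB202E) (C0 := c0B) (En := eng) (mo := mog) (j := (0 : Fin 7)) (k := (1 : Fin 7)) (lo := 0) (hi := 3) (W := 67108864) (N0 := 3) cB202E_q (sideB hx hx') gokB (pinU hx hx') dokB X (by norm_num) (by norm_num) (l := (0 : Fin 7)) rfl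
      (gatB02 x) (gatB12 x) (gatB00 x) (datB02 x) (datB12 x) (datB00 x) ?_)
    (cornS_of (C := cB202E) (C0 := c0B) (j := (0 : Fin 7)) (k := (1 : Fin 7)) (lo := 0) (hi := 3) (W := 67108864) (N0 := 3) cB202E_q (sideB hx hx') gokB X (by norm_num) (by norm_num) (l := (0 : Fin 7)) rfl
      (gatB02 x) (gatB12 x) (gatB00 x) ?_)
    (thU (pinU hx hx')) rfl hκ (fun j q y => tC_eq j q y x) (esg_rng X.x0.le (by linarith [X.b, X.p0])).1 (mo_v x) le_rfl le_rfl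
  · intro ρ a B hρ hd i h1 h2
    fin_cases i
    · exact corW_cert (G1 := gB0q2) (G2 := gB1q2) (Ga := gB0q0) (Gb := gB1q0) (D1 := dB0q2) (D2 := dB1q2) (Da := dB0q0) (Db := dB1q0) cB202E_ok B hρ hen (gatB02 x) (gatB12 x) (fun _ => gatB00 x) (fun _ => gatB10 x) (datB02 x) (datB12 x) (fun _ => datB00 x) (fun _ => datB10 x) hd hx hx' CW.B202E_010
    · exact corW_cert (G1 := gB0q2) (G2 := gB1q2) (Ga := gB1q0) (Gb := gB2q0) (D1 := dB0q2) (D2 := dB1q2) (Da := dB1q0) (Db := dB2q0) cB202E_ok B hρ hen (gatB02 x) (gatB12 x) (fun _ => gatB10 x) (fun _ => gatB20 x) (datB02 x) (datB12 x) (fun _ => datB10 x) (fun _ => datB20 x) hd hx hx' CW.B202E_011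
    · exact corW_cert (G1 := gB0q2) (G2 := gB1q2) (Ga := gB2q0) (Gb := gB3q0) (D1 := dB0q2) (D2 := dB1q2) (Da := dB2q0) (Db := dB3q0) cB202E_ok B hρ hen (gatB02 x) (gatB12 x) (fun _ => gatB20 x) (fun _ => gatB30 x) (datB02 x) (datB12 x) (fun _ => datB20 x) (fun _ => datB30 x) hd hx hx' CW.B202E_012
    · exact corW_cert (G1 := gB0q2) (G2 := gB1q2) (Ga := gB3q0) (Gb := gB4q0) (D1 := dB0q2) (D2 := dB1q2) (Da := dB3q0) (Db := dB4q0) cB202E_ok B hρ hen (gatB02 x) (gatB12 x) (fun _ => gatB30 x) (fun h => absurd h (by decide)) (datB02 x) (datB12 x) (fun _ => datB30 x) (fun h => absurd h (by decide)) hd hx hx' CW.B202E_013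
    · exact absurd h2 (by norm_num)
    · exact absurd h2 (by norm_num)
  · intro ρ a B hρ hd i h1 h2
    fin_cases i
    · exact corT_cert (G1 := gB0q2) (G2 := gB1q2) (Ga := gB0q0) (Gb := gB1q0) cB202E_ok B hρ (gatB02 x) (gatB12 x) (fun _ => gatB00 x) (fun _ => gatB10 x) hd hx hx' CG.B202E_010
    · exact corT_cert (G1 := gB0q2) (G2 := gB1q2) (Ga := gB1q0) (Gb := gB2q0) cB202E_ok B hρ (gatB02 x) (gatB12 x) (fun _ => gatB10 x) (fun _ => gatB20 x) hd hx hx' CG.B202E_011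
    · exact corT_cert (G1 := gB0q2) (G2 := gB1q2) (Ga := gB2q0) (Gb := gB3q0) cB202E_ok B hρ (gatB02 x) (gatB12 x) (fun _ => gatB20 x) (fun _ => gatB30 x) hd hx hx' CG.B202E_012
    · exact corT_cert (G1 := gB0q2) (G2 := gB1q2) (Ga := gB3q0) (Gb := gB4q0) cB202E_ok B hρ (gatB02 x) (gatB12 x) (fun _ => gatB30 x) (fun h => absurd h (by decide)) hd hx hx' CG.B202E_013
    · exact absurd h2 (by norm_num)
    · exact absurd h2 (by norm_num)

theorem altB_B202E_02 {κ x : ℝ} (hκ : κ * h0 = ken x) (hx : ((536870912 : ℕ) : ℝ) / S ≤ x) (hx' : x ≤ (((536870912 : ℕ) : ℝ) + (50465866 : ℕ)) / S) :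
    AltEB 3 κ (eng.v x) (3 / 40) (tnt (h0 * x) (3 / 10)) PP tK tL tC pcB (scP esg pd) [⟨0, 1, 0, 67108864⟩, ⟨1, 0, 0, 67108864⟩, ⟨2, 1, 0, 67108864⟩] 2 0 2 0 2 (sgb true) (sgb false) x := by
  have X : XR 67108864 x := XR.of hx hx' (by norm_num) (by norm_num) (by norm_num) (by norm_num)
  have hen : 0 < eng.v x := en_pos X.x0.le
  refine CornW.altB (C := cB202E) (j := (0 : Fin 7)) (k := (2 : Fin 7)) (Ef := esg) (pd := pd) (o := 3 / 40)
    (cornW_of (C := cB202E) (C0 := c0B) (En := eng) (mo := mog) (j := (0 : Fin 7)) (k := (2 : Fin 7)) (lo := 0) (hi := 3) (W := 67108864) (N0 := 3) cB202E_q (sideB hx hx') gokB (pinU hx hx') dokB X (by norm_num) (by norm_num) (l := (0 : Fin 7)) rfl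
      (gatB02 x) (gatB22 x) (gatB00 x) (datB02 x) (datB22 x) (datB00 x) ?_)
    (cornS_of (C := cB202E) (C0 := c0B) (j := (0 : Fin 7)) (k := (2 : Fin 7)) (lo := 0) (hi := 3) (W := 67108864) (N0 := 3) cB202E_q (sideB hx hx') gokB X (by norm_num) (by norm_num) (l := (0 : Fin 7)) rfl
      (gatB02 x) (gatB22 x) (gatB00 x) ?_)
    (thU (pinU hx hx')) rfl hκ (fun j q y => tC_eq j q y x) (esg_rng X.x0.le (by linarith [X.b, X.p0])).1 (mo_v x) le_rfl le_rfl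
  · intro ρ a B hρ hd i h1 h2
    fin_cases i
    · exact corW_cert (G1 := gB0q2) (G2 := gB2q2) (Ga := gB0q0) (Gb := gB1q0) (D1 := dB0q2) (D2 := dB2q2) (Da := dB0q0) (Db := dB1q0) cB202E_ok B hρ hen (gatB02 x) (gatB22 x) (fun _ => gatB00 x) (fun _ => gatB10 x) (datB02 x) (datB22 x) (fun _ => datB00 x) (fun _ => datB10 x) hd hx hx' CW.B202E_020
    · exact corW_cert (G1 := gB0q2) (G2 := gB2q2) (Ga := gB1q0) (Gb := gB2q0) (D1 := dB0q2) (D2 := dB2q2) (Da := dB1q0) (Db := dB2q0) cB202E_ok B hρ hen (gatB02 x) (gatB22 x) (fun _ => gatB10 x) (fun _ => gatB20 x) (datB02 x) (datB22 x) (fun _ => datB10 x) (fun _ => datB20 x) hd hx hx' CW.B202E_021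
    · exact corW_cert (G1 := gB0q2) (G2 := gB2q2) (Ga := gB2q0) (Gb := gB3q0) (D1 := dB0q2) (D2 := dB2q2) (Da := dB2q0) (Db := dB3q0) cB202E_ok B hρ hen (gatB02 x) (gatB22 x) (fun _ => gatB20 x) (fun _ => gatB30 x) (datB02 x) (datB22 x) (fun _ => datB20 x) (fun _ => datB30 x) hd hx hx' CW.B202E_022
    · exact corW_cert (G1 := gB0q2) (G2 := gB2q2) (Ga := gB3q0) (Gb := gB4q0) (D1 := dB0q2) (D2 := dB2q2) (Da := dB3q0) (Db := dB4q0) cB202E_ok B hρ hen (gatB02 x) (gatB22 x) (fun _ => gatB30 x) (fun h => absurd h (by decide)) (datB02 x) (datB22 x) (fun _ => datB30 x) (fun h => absurd h (by decide)) hd hx hx' CW.B202E_023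
    · exact absurd h2 (by norm_num)
    · exact absurd h2 (by norm_num)
  · intro ρ a B hρ hd i h1 h2
    fin_cases i
    · exact corT_cert (G1 := gB0q2) (G2 := gB2q2) (Ga := gB0q0) (Gb := gB1q0) cB202E_ok B hρ (gatB02 x) (gatB22 x) (fun _ => gatB00 x) (fun _ => gatB10 x) hd hx hx' CG.B202E_020
    · exact corT_cert (G1 := gB0q2) (G2 := gB2q2) (Ga := gB1q0) (Gb := gB2q0) cB202E_ok B hρ (gatB02 x) (gatB22 x) (fun _ => gatB10 x) (fun _ => gatB20 x) hd hx hx' CG.B202E_021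
    · exact corT_cert (G1 := gB0q2) (G2 := gB2q2) (Ga := gB2q0) (Gb := gB3q0) cB202E_ok B hρ (gatB02 x) (gatB22 x) (fun _ => gatB20 x) (fun _ => gatB30 x) hd hx hx' CG.B202E_022
    · exact corT_cert (G1 := gB0q2) (G2 := gB2q2) (Ga := gB3q0) (Gb := gB4q0) cB202E_ok B hρ (gatB02 x) (gatB22 x) (fun _ => gatB30 x) (fun h => absurd h (by decide)) hd hx hx' CG.B202E_023
    · exact absurd h2 (by norm_num)
    · exact absurd h2 (by norm_num)

theorem altB_B202E_03 {κ x : ℝ} (hκ : κ * h0 = ken x) (hx : ((536870912 : ℕ) : ℝ) / S ≤ x) (hx' : x ≤ (((536870912 : ℕ) : ℝ) + (50465866 : ℕ)) / S) :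
    AltEB 3 κ (eng.v x) (3 / 40) (tnt (h0 * x) (3 / 10)) PP tK tL tC pcB (scP esg pd) [⟨0, 1, 0, 67108864⟩, ⟨1, 0, 0, 67108864⟩, ⟨2, 1, 0, 67108864⟩] 2 0 2 0 3 (sgb true) (sgb false) x := by
  have X : XR 67108864 x := XR.of hx hx' (by norm_num) (by norm_num) (by norm_num) (by norm_num)
  have hen : 0 < eng.v x := en_pos X.x0.le
  refine CornW.altB (C := cB202E) (j := (0 : Fin 7)) (k := (3 : Fin 7)) (Ef := esg) (pd := pd) (o := 3 / 40)
    (cornW_of (C := cB202E) (C0 := c0B) (En := eng) (mo := mog) (j := (0 : Fin 7)) (k := (3 : Fin 7)) (lo := 0) (hi := 3) (W := 67108864) (N0 := 3) cB202E_q (sideB hx hx') gokB (pinU hx hx') dokB X (by norm_num) (by norm_num) (l := (0 : Fin 7)) rfl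
      (gatB02 x) (gatB32 x) (gatB00 x) (datB02 x) (datB32 x) (datB00 x) ?_)
    (cornS_of (C := cB202E) (C0 := c0B) (j := (0 : Fin 7)) (k := (3 : Fin 7)) (lo := 0) (hi := 3) (W := 67108864) (N0 := 3) cB202E_q (sideB hx hx') gokB X (by norm_num) (by norm_num) (l := (0 : Fin 7)) rfl
      (gatB02 x) (gatB32 x) (gatB00 x) ?_)
    (thU (pinU hx hx')) rfl hκ (fun j q y => tC_eq j q y x) (esg_rng X.x0.le (by linarith [X.b, X.p0])).1 (mo_v x) le_rfl le_rfl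
  · intro ρ a B hρ hd i h1 h2
    fin_cases i
    · exact corW_cert (G1 := gB0q2) (G2 := gB3q2) (Ga := gB0q0) (Gb := gB1q0) (D1 := dB0q2) (D2 := dB3q2) (Da := dB0q0) (Db := dB1q0) cB202E_ok B hρ hen (gatB02 x) (gatB32 x) (fun _ => gatB00 x) (fun _ => gatB10 x) (datB02 x) (datB32 x) (fun _ => datB00 x) (fun _ => datB10 x) hd hx hx' CW.B202E_030
    · exact corW_cert (G1 := gB0q2) (G2 := gB3q2) (Ga := gB1q0) (Gb := gB2q0) (D1 := dB0q2) (D2 := dB3q2) (Da := dB1q0) (Db := dB2q0) cB202E_ok B hρ hen (gatB02 x) (gatB32 x) (fun _ => gatB10 x) (fun _ => gatB20 x) (datB02 x) (datB32 x) (fun _ => datB10 x) (fun _ => datB20 x) hd hx hx' CW.B202E_031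
    · exact corW_cert (G1 := gB0q2) (G2 := gB3q2) (Ga := gB2q0) (Gb := gB3q0) (D1 := dB0q2) (D2 := dB3q2) (Da := dB2q0) (Db := dB3q0) cB202E_ok B hρ hen (gatB02 x) (gatB32 x) (fun _ => gatB20 x) (fun _ => gatB30 x) (datB02 x) (datB32 x) (fun _ => datB20 x) (fun _ => datB30 x) hd hx hx' CW.B202E_032
    · exact corW_cert (G1 := gB0q2) (G2 := gB3q2) (Ga := gB3q0) (Gb := gB4q0) (D1 := dB0q2) (D2 := dB3q2) (Da := dB3q0) (Db := dB4q0) cB202E_ok B hρ hen (gatB02 x) (gatB32 x) (fun _ => gatB30 x) (fun h => absurd h (by decide)) (datB02 x) (datB32 x) (fun _ => datB30 x) (fun h => absurd h (by decide)) hd hx hx' CW.B202E_033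
    · exact absurd h2 (by norm_num)
    · exact absurd h2 (by norm_num)
  · intro ρ a B hρ hd i h1 h2
    fin_cases i
    · exact corT_cert (G1 := gB0q2) (G2 := gB3q2) (Ga := gB0q0) (Gb := gB1q0) cB202E_ok B hρ (gatB02 x) (gatB32 x) (fun _ => gatB00 x) (fun _ => gatB10 x) hd hx hx' CG.B202E_030
    · exact corT_cert (G1 := gB0q2) (G2 := gB3q2) (Ga := gB1q0) (Gb := gB2q0) cB202E_ok B hρ (gatB02 x) (gatB32 x) (fun _ => gatB10 x) (fun _ => gatB20 x) hd hx hx' CG.B202E_031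
    · exact corT_cert (G1 := gB0q2) (G2 := gB3q2) (Ga := gB2q0) (Gb := gB3q0) cB202E_ok B hρ (gatB02 x) (gatB32 x) (fun _ => gatB20 x) (fun _ => gatB30 x) hd hx hx' CG.B202E_032
    · exact corT_cert (G1 := gB0q2) (G2 := gB3q2) (Ga := gB3q0) (Gb := gB4q0) cB202E_ok B hρ (gatB02 x) (gatB32 x) (fun _ => gatB30 x) (fun h => absurd h (by decide)) hd hx hx' CG.B202E_033
    · exact absurd h2 (by norm_num)
    · exact absurd h2 (by norm_num)

theorem altB_B202E_10 {κ x : ℝ} (hκ : κ * h0 = ken x) (hx : ((536870912 : ℕ) : ℝ) / S ≤ x) (hx' : x ≤ (((536870912 : ℕ) : ℝ) + (50465866 : ℕ)) / S) :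
    AltEB 3 κ (eng.v x) (3 / 40) (tnt (h0 * x) (3 / 10)) PP tK tL tC pcB (scP esg pd) [⟨0, 1, 0, 67108864⟩, ⟨1, 0, 0, 67108864⟩, ⟨2, 1, 0, 67108864⟩] 2 0 2 1 0 (sgb true) (sgb false) x := by
  have X : XR 67108864 x := XR.of hx hx' (by norm_num) (by norm_num) (by norm_num) (by norm_num)
  have hen : 0 < eng.v x := en_pos X.x0.le
  refine CornW.altB (C := cB202E) (j := (1 : Fin 7)) (k := (0 : Fin 7)) (Ef := esg) (pd := pd) (o := 3 / 40)
    (cornW_of (C := cB202E) (C0 := c0B) (En := eng) (mo := mog) (j := (1 : Fin 7)) (k := (0 : Fin 7)) (lo := 0) (hi := 3) (W := 67108864) (N0 := 3) cB202E_q (sideB hx hx') gokB (pinU hx hx') dokB X (by norm_num) (by norm_num) (l := (0 : Fin 7)) rfl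
      (gatB12 x) (gatB02 x) (gatB00 x) (datB12 x) (datB02 x) (datB00 x) ?_)
    (cornS_of (C := cB202E) (C0 := c0B) (j := (1 : Fin 7)) (k := (0 : Fin 7)) (lo := 0) (hi := 3) (W := 67108864) (N0 := 3) cB202E_q (sideB hx hx') gokB X (by norm_num) (by norm_num) (l := (0 : Fin 7)) rfl
      (gatB12 x) (gatB02 x) (gatB00 x) ?_)
    (thU (pinU hx hx')) rfl hκ (fun j q y => tC_eq j q y x) (esg_rng X.x0.le (by linarith [X.b, X.p0])).1 (mo_v x) le_rfl le_rfl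
  · intro ρ a B hρ hd i h1 h2
    fin_cases i
    · exact corW_cert (G1 := gB1q2) (G2 := gB0q2) (Ga := gB0q0) (Gb := gB1q0) (D1 := dB1q2) (D2 := dB0q2) (Da := dB0q0) (Db := dB1q0) cB202E_ok B hρ hen (gatB12 x) (gatB02 x) (fun _ => gatB00 x) (fun _ => gatB10 x) (datB12 x) (datB02 x) (fun _ => datB00 x) (fun _ => datB10 x) hd hx hx' CW.B202E_100
    · exact corW_cert (G1 := gB1q2) (G2 := gB0q2) (Ga := gB1q0) (Gb := gB2q0) (D1 := dB1q2) (D2 := dB0q2) (Da := dB1q0) (Db := dB2q0) cB202E_ok B hρ hen (gatB12 x) (gatB02 x) (fun _ => gatB10 x) (fun _ => gatB20 x) (datB12 x) (datB02 x) (fun _ => datB10 x) (fun _ => datB20 x) hd hx hx' CW.B202E_101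
    · exact corW_cert (G1 := gB1q2) (G2 := gB0q2) (Ga := gB2q0) (Gb := gB3q0) (D1 := dB1q2) (D2 := dB0q2) (Da := dB2q0) (Db := dB3q0) cB202E_ok B hρ hen (gatB12 x) (gatB02 x) (fun _ => gatB20 x) (fun _ => gatB30 x) (datB12 x) (datB02 x) (fun _ => datB20 x) (fun _ => datB30 x) hd hx hx' CW.B202E_102
    · exact corW_cert (G1 := gB1q2) (G2 := gB0q2) (Ga := gB3q0) (Gb := gB4q0) (D1 := dB1q2) (D2 := dB0q2) (Da := dB3q0) (Db := dB4q0) cB202E_ok B hρ hen (gatB12 x) (gatB02 x) (fun _ => gatB30 x) (fun h => absurd h (by decide)) (datB12 x) (datB02 x) (fun _ => datB30 x) (fun h => absurd h (by decide)) hd hx hx' CW.B202E_103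
    · exact absurd h2 (by norm_num)
    · exact absurd h2 (by norm_num)
  · intro ρ a B hρ hd i h1 h2
    fin_cases i
    · exact corT_cert (G1 := gB1q2) (G2 := gB0q2) (Ga := gB0q0) (Gb := gB1q0) cB202E_ok B hρ (gatB12 x) (gatB02 x) (fun _ => gatB00 x) (fun _ => gatB10 x) hd hx hx' CG.B202E_100
    · exact corT_cert (G1 := gB1q2) (G2 := gB0q2) (Ga := gB1q0) (Gb := gB2q0) cB202E_ok B hρ (gatB12 x) (gatB02 x) (fun _ => gatB10 x) (fun _ => gatB20 x) hd hx hx' CG.B202E_101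
    · exact corT_cert (G1 := gB1q2) (G2 := gB0q2) (Ga := gB2q0) (Gb := gB3q0) cB202E_ok B hρ (gatB12 x) (gatB02 x) (fun _ => gatB20 x) (fun _ => gatB30 x) hd hx hx' CG.B202E_102
    · exact corT_cert (G1 := gB1q2) (G2 := gB0q2) (Ga := gB3q0) (Gb := gB4q0) cB202E_ok B hρ (gatB12 x) (gatB02 x) (fun _ => gatB30 x) (fun h => absurd h (by decide)) hd hx hx' CG.B202E_103
    · exact absurd h2 (by norm_num)
    · exact absurd h2 (by norm_num)

theorem altB_B202E_11 {κ x : ℝ} (hκ : κ * h0 = ken x) (hx : ((536870912 : ℕ) : ℝ) / S ≤ x) (hx' : x ≤ (((536870912 : ℕ) : ℝ) + (50465866 : ℕ)) / S) :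
    AltEB 3 κ (eng.v x) (3 / 40) (tnt (h0 * x) (3 / 10)) PP tK tL tC pcB (scP esg pd) [⟨0, 1, 0, 67108864⟩, ⟨1, 0, 0, 67108864⟩, ⟨2, 1, 0, 67108864⟩] 2 0 2 1 1 (sgb true) (sgb false) x := by
  have X : XR 67108864 x := XR.of hx hx' (by norm_num) (by norm_num) (by norm_num) (by norm_num)
  have hen : 0 < eng.v x := en_pos X.x0.le
  refine CornW.altB (C := cB202E) (j := (1 : Fin 7)) (k := (1 : Fin 7)) (Ef := esg) (pd := pd) (o := 3 / 40)
    (cornW_of (C := cB202E) (C0 := c0B) (En := eng) (mo := mog) (j := (1 : Fin 7)) (k := (1 : Fin 7)) (lo := 0) (hi := 3) (W := 67108864) (N0 := 3) cB202E_q (sideB hx hx') gokB (pinU hx hx') dokB X (by norm_num) (by norm_num) (l := (0 : Fin 7)) rfl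
      (gatB12 x) (gatB12 x) (gatB00 x) (datB12 x) (datB12 x) (datB00 x) ?_)
    (cornS_of (C := cB202E) (C0 := c0B) (j := (1 : Fin 7)) (k := (1 : Fin 7)) (lo := 0) (hi := 3) (W := 67108864) (N0 := 3) cB202E_q (sideB hx hx') gokB X (by norm_num) (by norm_num) (l := (0 : Fin 7)) rfl
      (gatB12 x) (gatB12 x) (gatB00 x) ?_)
    (thU (pinU hx hx')) rfl hκ (fun j q y => tC_eq j q y x) (esg_rng X.x0.le (by linarith [X.b, X.p0])).1 (mo_v x) le_rfl le_rfl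
  · intro ρ a B hρ hd i h1 h2
    fin_cases i
    · exact corW_cert (G1 := gB1q2) (G2 := gB1q2) (Ga := gB0q0) (Gb := gB1q0) (D1 := dB1q2) (D2 := dB1q2) (Da := dB0q0) (Db := dB1q0) cB202E_ok B hρ hen (gatB12 x) (gatB12 x) (fun _ => gatB00 x) (fun _ => gatB10 x) (datB12 x) (datB12 x) (fun _ => datB00 x) (fun _ => datB10 x) hd hx hx' CW.B202E_110
    · exact corW_cert (G1 := gB1q2) (G2 := gB1q2) (Ga := gB1q0) (Gb := gB2q0) (D1 := dB1q2) (D2 := dB1q2) (Da := dB1q0) (Db := dB2q0) cB202E_ok B hρ hen (gatB12 x) (gatB12 x) (fun _ => gatB10 x) (fun _ => gatB20 x) (datB12 x) (datB12 x) (fun _ => datB10 x) (fun _ => datB20 x) hd hx hx' CW.B202E_111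
    · exact corW_cert (G1 := gB1q2) (G2 := gB1q2) (Ga := gB2q0) (Gb := gB3q0) (D1 := dB1q2) (D2 := dB1q2) (Da := dB2q0) (Db := dB3q0) cB202E_ok B hρ hen (gatB12 x) (gatB12 x) (fun _ => gatB20 x) (fun _ => gatB30 x) (datB12 x) (datB12 x) (fun _ => datB20 x) (fun _ => datB30 x) hd hx hx' CW.B202E_112
    · exact corW_cert (G1 := gB1q2) (G2 := gB1q2) (Ga := gB3q0) (Gb := gB4q0) (D1 := dB1q2) (D2 := dB1q2) (Da := dB3q0) (Db := dB4q0) cB202E_ok B hρ hen (gatB12 x) (gatB12 x) (fun _ => gatB30 x) (fun h => absurd h (by decide)) (datB12 x) (datB12 x) (fun _ => datB30 x) (fun h => absurd h (by decide)) hd hx hx' CW.B202E_113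
    · exact absurd h2 (by norm_num)
    · exact absurd h2 (by norm_num)
  · intro ρ a B hρ hd i h1 h2
    fin_cases i
    · exact corT_cert (G1 := gB1q2) (G2 := gB1q2) (Ga := gB0q0) (Gb := gB1q0) cB202E_ok B hρ (gatB12 x) (gatB12 x) (fun _ => gatB00 x) (fun _ => gatB10 x) hd hx hx' CG.B202E_110
    · exact corT_cert (G1 := gB1q2) (G2 := gB1q2) (Ga := gB1q0) (Gb := gB2q0) cB202E_ok B hρ (gatB12 x) (gatB12 x) (fun _ => gatB10 x) (fun _ => gatB20 x) hd hx hx' CG.B202E_111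
    · exact corT_cert (G1 := gB1q2) (G2 := gB1q2) (Ga := gB2q0) (Gb := gB3q0) cB202E_ok B hρ (gatB12 x) (gatB12 x) (fun _ => gatB20 x) (fun _ => gatB30 x) hd hx hx' CG.B202E_112
    · exact corT_cert (G1 := gB1q2) (G2 := gB1q2) (Ga := gB3q0) (Gb := gB4q0) cB202E_ok B hρ (gatB12 x) (gatB12 x) (fun _ => gatB30 x) (fun h => absurd h (by decide)) hd hx hx' CG.B202E_113
    · exact absurd h2 (by norm_num)
    · exact absurd h2 (by norm_num)

theorem altB_B202E_12 {κ x : ℝ} (hκ : κ * h0 = ken x) (hx : ((536870912 : ℕ) : ℝ) / S ≤ x) (hx' : x ≤ (((536870912 : ℕ) : ℝ) + (50465866 : ℕ)) / S) :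
    AltEB 3 κ (eng.v x) (3 / 40) (tnt (h0 * x) (3 / 10)) PP tK tL tC pcB (scP esg pd) [⟨0, 1, 0, 67108864⟩, ⟨1, 0, 0, 67108864⟩, ⟨2, 1, 0, 67108864⟩] 2 0 2 1 2 (sgb true) (sgb false) x := by
  have X : XR 67108864 x := XR.of hx hx' (by norm_num) (by norm_num) (by norm_num) (by norm_num)
  have hen : 0 < eng.v x := en_pos X.x0.le
  refine CornW.altB (C := cB202E) (j := (1 : Fin 7)) (k := (2 : Fin 7)) (Ef := esg) (pd := pd) (o := 3 / 40)
    (cornW_of (C := cB202E) (C0 := c0B) (En := eng) (mo := mog) (j := (1 : Fin 7)) (k := (2 : Fin 7)) (lo := 0) (hi := 3) (W := 67108864) (N0 := 3) cB202E_q (sideB hx hx') gokB (pinU hx hx') dokB X (by norm_num) (by norm_num) (l := (0 : Fin 7)) rfl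
      (gatB12 x) (gatB22 x) (gatB00 x) (datB12 x) (datB22 x) (datB00 x) ?_)
    (cornS_of (C := cB202E) (C0 := c0B) (j := (1 : Fin 7)) (k := (2 : Fin 7)) (lo := 0) (hi := 3) (W := 67108864) (N0 := 3) cB202E_q (sideB hx hx') gokB X (by norm_num) (by norm_num) (l := (0 : Fin 7)) rfl
      (gatB12 x) (gatB22 x) (gatB00 x) ?_)
    (thU (pinU hx hx')) rfl hκ (fun j q y => tC_eq j q y x) (esg_rng X.x0.le (by linarith [X.b, X.p0])).1 (mo_v x) le_rfl le_rfl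
  · intro ρ a B hρ hd i h1 h2
    fin_cases i
    · exact corW_cert (G1 := gB1q2) (G2 := gB2q2) (Ga := gB0q0) (Gb := gB1q0) (D1 := dB1q2) (D2 := dB2q2) (Da := dB0q0) (Db := dB1q0) cB202E_ok B hρ hen (gatB12 x) (gatB22 x) (fun _ => gatB00 x) (fun _ => gatB10 x) (datB12 x) (datB22 x) (fun _ => datB00 x) (fun _ => datB10 x) hd hx hx' CW.B202E_120
    · exact corW_cert (G1 := gB1q2) (G2 := gB2q2) (Ga := gB1q0) (Gb := gB2q0) (D1 := dB1q2) (D2 := dB2q2) (Da := dB1q0) (Db := dB2q0) cB202E_ok B hρ hen (gatB12 x) (gatB22 x) (fun _ => gatB10 x) (fun _ => gatB20 x) (datB12 x) (datB22 x) (fun _ => datB10 x) (fun _ => datB20 x) hd hx hx' CW.B202E_121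
    · exact corW_cert (G1 := gB1q2) (G2 := gB2q2) (Ga := gB2q0) (Gb := gB3q0) (D1 := dB1q2) (D2 := dB2q2) (Da := dB2q0) (Db := dB3q0) cB202E_ok B hρ hen (gatB12 x) (gatB22 x) (fun _ => gatB20 x) (fun _ => gatB30 x) (datB12 x) (datB22 x) (fun _ => datB20 x) (fun _ => datB30 x) hd hx hx' CW.B202E_122
    · exact corW_cert (G1 := gB1q2) (G2 := gB2q2) (Ga := gB3q0) (Gb := gB4q0) (D1 := dB1q2) (D2 := dB2q2) (Da := dB3q0) (Db := dB4q0) cB202E_ok B hρ hen (gatB12 x) (gatB22 x) (fun _ => gatB30 x) (fun h => absurd h (by decide)) (datB12 x) (datB22 x) (fun _ => datB30 x) (fun h => absurd h (by decide)) hd hx hx' CW.B202E_123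
    · exact absurd h2 (by norm_num)
    · exact absurd h2 (by norm_num)
  · intro ρ a B hρ hd i h1 h2
    fin_cases i
    · exact corT_cert (G1 := gB1q2) (G2 := gB2q2) (Ga := gB0q0) (Gb := gB1q0) cB202E_ok B hρ (gatB12 x) (gatB22 x) (fun _ => gatB00 x) (fun _ => gatB10 x) hd hx hx' CG.B202E_120
    · exact corT_cert (G1 := gB1q2) (G2 := gB2q2) (Ga := gB1q0) (Gb := gB2q0) cB202E_ok B hρ (gatB12 x) (gatB22 x) (fun _ => gatB10 x) (fun _ => gatB20 x) hd hx hx' CG.B202E_121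
    · exact corT_cert (G1 := gB1q2) (G2 := gB2q2) (Ga := gB2q0) (Gb := gB3q0) cB202E_ok B hρ (gatB12 x) (gatB22 x) (fun _ => gatB20 x) (fun _ => gatB30 x) hd hx hx' CG.B202E_122
    · exact corT_cert (G1 := gB1q2) (G2 := gB2q2) (Ga := gB3q0) (Gb := gB4q0) cB202E_ok B hρ (gatB12 x) (gatB22 x) (fun _ => gatB30 x) (fun h => absurd h (by decide)) hd hx hx' CG.B202E_123
    · exact absurd h2 (by norm_num)
    · exact absurd h2 (by norm_num)

theorem altB_B202E_13 {κ x : ℝ} (hκ : κ * h0 = ken x) (hx : ((536870912 : ℕ) : ℝ) / S ≤ x) (hx' : x ≤ (((536870912 : ℕ) : ℝ) + (50465866 : ℕ)) / S) :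
    AltEB 3 κ (eng.v x) (3 / 40) (tnt (h0 * x) (3 / 10)) PP tK tL tC pcB (scP esg pd) [⟨0, 1, 0, 67108864⟩, ⟨1, 0, 0, 67108864⟩, ⟨2, 1, 0, 67108864⟩] 2 0 2 1 3 (sgb true) (sgb false) x := by
  have X : XR 67108864 x := XR.of hx hx' (by norm_num) (by norm_num) (by norm_num) (by norm_num)
  have hen : 0 < eng.v x := en_pos X.x0.le
  refine CornW.altB (C := cB202E) (j := (1 : Fin 7)) (k := (3 : Fin 7)) (Ef := esg) (pd := pd) (o := 3 / 40)
    (cornW_of (C := cB202E) (C0 := c0B) (En := eng) (mo := mog) (j := (1 : Fin 7)) (k := (3 : Fin 7)) (lo := 0) (hi := 3) (W := 67108864) (N0 := 3) cB202E_q (sideB hx hx') gokB (pinU hx hx') dokB X (by norm_num) (by norm_num) (l := (0 : Fin 7)) rfl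
      (gatB12 x) (gatB32 x) (gatB00 x) (datB12 x) (datB32 x) (datB00 x) ?_)
    (cornS_of (C := cB202E) (C0 := c0B) (j := (1 : Fin 7)) (k := (3 : Fin 7)) (lo := 0) (hi := 3) (W := 67108864) (N0 := 3) cB202E_q (sideB hx hx') gokB X (by norm_num) (by norm_num) (l := (0 : Fin 7)) rfl
      (gatB12 x) (gatB32 x) (gatB00 x) ?_)
    (thU (pinU hx hx')) rfl hκ (fun j q y => tC_eq j q y x) (esg_rng X.x0.le (by linarith [X.b, X.p0])).1 (mo_v x) le_rfl le_rfl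
  · intro ρ a B hρ hd i h1 h2
    fin_cases i
    · exact corW_cert (G1 := gB1q2) (G2 := gB3q2) (Ga := gB0q0) (Gb := gB1q0) (D1 := dB1q2) (D2 := dB3q2) (Da := dB0q0) (Db := dB1q0) cB202E_ok B hρ hen (gatB12 x) (gatB32 x) (fun _ => gatB00 x) (fun _ => gatB10 x) (datB12 x) (datB32 x) (fun _ => datB00 x) (fun _ => datB10 x) hd hx hx' CW.B202E_130
    · exact corW_cert (G1 := gB1q2) (G2 := gB3q2) (Ga := gB1q0) (Gb := gB2q0) (D1 := dB1q2) (D2 := dB3q2) (Da := dB1q0) (Db := dB2q0) cB202E_ok B hρ hen (gatB12 x) (gatB32 x) (fun _ => gatB10 x) (fun _ => gatB20 x) (datB12 x) (datB32 x) (fun _ => datB10 x) (fun _ => datB20 x) hd hx hx' CW.B202E_131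
    · exact corW_cert (G1 := gB1q2) (G2 := gB3q2) (Ga := gB2q0) (Gb := gB3q0) (D1 := dB1q2) (D2 := dB3q2) (Da := dB2q0) (Db := dB3q0) cB202E_ok B hρ hen (gatB12 x) (gatB32 x) (fun _ => gatB20 x) (fun _ => gatB30 x) (datB12 x) (datB32 x) (fun _ => datB20 x) (fun _ => datB30 x) hd hx hx' CW.B202E_132
    · exact corW_cert (G1 := gB1q2) (G2 := gB3q2) (Ga := gB3q0) (Gb := gB4q0) (D1 := dB1q2) (D2 := dB3q2) (Da := dB3q0) (Db := dB4q0) cB202E_ok B hρ hen (gatB12 x) (gatB32 x) (fun _ => gatB30 x) (fun h => absurd h (by decide)) (datB12 x) (datB32 x) (fun _ => datB30 x) (fun h => absurd h (by decide)) hd hx hx' CW.B202E_133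
    · exact absurd h2 (by norm_num)
    · exact absurd h2 (by norm_num)
  · intro ρ a B hρ hd i h1 h2
    fin_cases i
    · exact corT_cert (G1 := gB1q2) (G2 := gB3q2) (Ga := gB0q0) (Gb := gB1q0) cB202E_ok B hρ (gatB12 x) (gatB32 x) (fun _ => gatB00 x) (fun _ => gatB10 x) hd hx hx' CG.B202E_130
    · exact corT_cert (G1 := gB1q2) (G2 := gB3q2) (Ga := gB1q0) (Gb := gB2q0) cB202E_ok B hρ (gatB12 x) (gatB32 x) (fun _ => gatB10 x) (fun _ => gatB20 x) hd hx hx' CG.B202E_131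
    · exact corT_cert (G1 := gB1q2) (G2 := gB3q2) (Ga := gB2q0) (Gb := gB3q0) cB202E_ok B hρ (gatB12 x) (gatB32 x) (fun _ => gatB20 x) (fun _ => gatB30 x) hd hx hx' CG.B202E_132
    · exact corT_cert (G1 := gB1q2) (G2 := gB3q2) (Ga := gB3q0) (Gb := gB4q0) cB202E_ok B hρ (gatB12 x) (gatB32 x) (fun _ => gatB30 x) (fun h => absurd h (by decide)) hd hx hx' CG.B202E_133
    · exact absurd h2 (by norm_num)
    · exact absurd h2 (by norm_num)

theorem altB_B202E_20 {κ x : ℝ} (hκ : κ * h0 = ken x) (hx : ((536870912 : ℕ) : ℝ) / S ≤ x) (hx' : x ≤ (((536870912 : ℕ) : ℝ) + (50465866 : ℕ)) / S) :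
    AltEB 3 κ (eng.v x) (3 / 40) (tnt (h0 * x) (3 / 10)) PP tK tL tC pcB (scP esg pd) [⟨0, 1, 0, 67108864⟩, ⟨1, 0, 0, 67108864⟩, ⟨2, 1, 0, 67108864⟩] 2 0 2 2 0 (sgb true) (sgb false) x := by
  have X : XR 67108864 x := XR.of hx hx' (by norm_num) (by norm_num) (by norm_num) (by norm_num)
  have hen : 0 < eng.v x := en_pos X.x0.le
  refine CornW.altB (C := cB202E) (j := (2 : Fin 7)) (k := (0 : Fin 7)) (Ef := esg) (pd := pd) (o := 3 / 40)
    (cornW_of (C := cB202E) (C0 := c0B) (En := eng) (mo := mog) (j := (2 : Fin 7)) (k := (0 : Fin 7)) (lo := 0) (hi := 3) (W := 67108864) (N0 := 3) cB202E_q (sideB hx hx') gokB (pinU hx hx') dokB X (by norm_num) (by norm_num) (l := (0 : Fin 7)) rfl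
      (gatB22 x) (gatB02 x) (gatB00 x) (datB22 x) (datB02 x) (datB00 x) ?_)
    (cornS_of (C := cB202E) (C0 := c0B) (j := (2 : Fin 7)) (k := (0 : Fin 7)) (lo := 0) (hi := 3) (W := 67108864) (N0 := 3) cB202E_q (sideB hx hx') gokB X (by norm_num) (by norm_num) (l := (0 : Fin 7)) rfl
      (gatB22 x) (gatB02 x) (gatB00 x) ?_)
    (thU (pinU hx hx')) rfl hκ (fun j q y => tC_eq j q y x) (esg_rng X.x0.le (by linarith [X.b, X.p0])).1 (mo_v x) le_rfl le_rfl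
  · intro ρ a B hρ hd i h1 h2
    fin_cases i
    · exact corW_cert (G1 := gB2q2) (G2 := gB0q2) (Ga := gB0q0) (Gb := gB1q0) (D1 := dB2q2) (D2 := dB0q2) (Da := dB0q0) (Db := dB1q0) cB202E_ok B hρ hen (gatB22 x) (gatB02 x) (fun _ => gatB00 x) (fun _ => gatB10 x) (datB22 x) (datB02 x) (fun _ => datB00 x) (fun _ => datB10 x) hd hx hx' CW.B202E_200
    · exact corW_cert (G1 := gB2q2) (G2 := gB0q2) (Ga := gB1q0) (Gb := gB2q0) (D1 := dB2q2) (D2 := dB0q2) (Da := dB1q0) (Db := dB2q0) cB202E_ok B hρ hen (gatB22 x) (gatB02 x) (fun _ => gatB10 x) (fun _ => gatB20 x) (datB22 x) (datB02 x) (fun _ => datB10 x) (fun _ => datB20 x) hd hx hx' CW.B202E_201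
    · exact corW_cert (G1 := gB2q2) (G2 := gB0q2) (Ga := gB2q0) (Gb := gB3q0) (D1 := dB2q2) (D2 := dB0q2) (Da := dB2q0) (Db := dB3q0) cB202E_ok B hρ hen (gatB22 x) (gatB02 x) (fun _ => gatB20 x) (fun _ => gatB30 x) (datB22 x) (datB02 x) (fun _ => datB20 x) (fun _ => datB30 x) hd hx hx' CW.B202E_202
    · exact corW_cert (G1 := gB2q2) (G2 := gB0q2) (Ga := gB3q0) (Gb := gB4q0) (D1 := dB2q2) (D2 := dB0q2) (Da := dB3q0) (Db := dB4q0) cB202E_ok B hρ hen (gatB22 x) (gatB02 x) (fun _ => gatB30 x) (fun h => absurd h (by decide)) (datB22 x) (datB02 x) (fun _ => datB30 x) (fun h => absurd h (by decide)) hd hx hx' CW.B202E_203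
    · exact absurd h2 (by norm_num)
    · exact absurd h2 (by norm_num)
  · intro ρ a B hρ hd i h1 h2
    fin_cases i
    · exact corT_cert (G1 := gB2q2) (G2 := gB0q2) (Ga := gB0q0) (Gb := gB1q0) cB202E_ok B hρ (gatB22 x) (gatB02 x) (fun _ => gatB00 x) (fun _ => gatB10 x) hd hx hx' CG.B202E_200
    · exact corT_cert (G1 := gB2q2) (G2 := gB0q2) (Ga := gB1q0) (Gb := gB2q0) cB202E_ok B hρ (gatB22 x) (gatB02 x) (fun _ => gatB10 x) (fun _ => gatB20 x) hd hx hx' CG.B202E_201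
    · exact corT_cert (G1 := gB2q2) (G2 := gB0q2) (Ga := gB2q0) (Gb := gB3q0) cB202E_ok B hρ (gatB22 x) (gatB02 x) (fun _ => gatB20 x) (fun _ => gatB30 x) hd hx hx' CG.B202E_202
    · exact corT_cert (G1 := gB2q2) (G2 := gB0q2) (Ga := gB3q0) (Gb := gB4q0) cB202E_ok B hρ (gatB22 x) (gatB02 x) (fun _ => gatB30 x) (fun h => absurd h (by decide)) hd hx hx' CG.B202E_203
    · exact absurd h2 (by norm_num)
    · exact absurd h2 (by norm_num)

theorem altB_B202E_21 {κ x : ℝ} (hκ : κ * h0 = ken x) (hx : ((536870912 : ℕ) : ℝ) / S ≤ x) (hx' : x ≤ (((536870912 : ℕ) : ℝ) + (50465866 : ℕ)) / S) :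
    AltEB 3 κ (eng.v x) (3 / 40) (tnt (h0 * x) (3 / 10)) PP tK tL tC pcB (scP esg pd) [⟨0, 1, 0, 67108864⟩, ⟨1, 0, 0, 67108864⟩, ⟨2, 1, 0, 67108864⟩] 2 0 2 2 1 (sgb true) (sgb false) x := by
  have X : XR 67108864 x := XR.of hx hx' (by norm_num) (by norm_num) (by norm_num) (by norm_num)
  have hen : 0 < eng.v x := en_pos X.x0.le
  refine CornW.altB (C := cB202E) (j := (2 : Fin 7)) (k := (1 : Fin 7)) (Ef := esg) (pd := pd) (o := 3 / 40)
    (cornW_of (C := cB202E) (C0 := c0B) (En := eng) (mo := mog) (j := (2 : Fin 7)) (k := (1 : Fin 7)) (lo := 0) (hi := 3) (W := 67108864) (N0 := 3) cB202E_q (sideB hx hx') gokB (pinU hx hx') dokB X (by norm_num) (by norm_num) (l := (0 : Fin 7)) rfl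
      (gatB22 x) (gatB12 x) (gatB00 x) (datB22 x) (datB12 x) (datB00 x) ?_)
    (cornS_of (C := cB202E) (C0 := c0B) (j := (2 : Fin 7)) (k := (1 : Fin 7)) (lo := 0) (hi := 3) (W := 67108864) (N0 := 3) cB202E_q (sideB hx hx') gokB X (by norm_num) (by norm_num) (l := (0 : Fin 7)) rfl
      (gatB22 x) (gatB12 x) (gatB00 x) ?_)
    (thU (pinU hx hx')) rfl hκ (fun j q y => tC_eq j q y x) (esg_rng X.x0.le (by linarith [X.b, X.p0])).1 (mo_v x) le_rfl le_rfl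
  · intro ρ a B hρ hd i h1 h2
    fin_cases i
    · exact corW_cert (G1 := gB2q2) (G2 := gB1q2) (Ga := gB0q0) (Gb := gB1q0) (D1 := dB2q2) (D2 := dB1q2) (Da := dB0q0) (Db := dB1q0) cB202E_ok B hρ hen (gatB22 x) (gatB12 x) (fun _ => gatB00 x) (fun _ => gatB10 x) (datB22 x) (datB12 x) (fun _ => datB00 x) (fun _ => datB10 x) hd hx hx' CW.B202E_210
    · exact corW_cert (G1 := gB2q2) (G2 := gB1q2) (Ga := gB1q0) (Gb := gB2q0) (D1 := dB2q2) (D2 := dB1q2) (Da := dB1q0) (Db := dB2q0) cB202E_ok B hρ hen (gatB22 x) (gatB12 x) (fun _ => gatB10 x) (fun _ => gatB20 x) (datB22 x) (datB12 x) (fun _ => datB10 x) (fun _ => datB20 x) hd hx hx' CW.B202E_211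
    · exact corW_cert (G1 := gB2q2) (G2 := gB1q2) (Ga := gB2q0) (Gb := gB3q0) (D1 := dB2q2) (D2 := dB1q2) (Da := dB2q0) (Db := dB3q0) cB202E_ok B hρ hen (gatB22 x) (gatB12 x) (fun _ => gatB20 x) (fun _ => gatB30 x) (datB22 x) (datB12 x) (fun _ => datB20 x) (fun _ => datB30 x) hd hx hx' CW.B202E_212
    · exact corW_cert (G1 := gB2q2) (G2 := gB1q2) (Ga := gB3q0) (Gb := gB4q0) (D1 := dB2q2) (D2 := dB1q2) (Da := dB3q0) (Db := dB4q0) cB202E_ok B hρ hen (gatB22 x) (gatB12 x) (fun _ => gatB30 x) (fun h => absurd h (by decide)) (datB22 x) (datB12 x) (fun _ => datB30 x) (fun h => absurd h (by decide)) hd hx hx' CW.B202E_213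
    · exact absurd h2 (by norm_num)
    · exact absurd h2 (by norm_num)
  · intro ρ a B hρ hd i h1 h2
    fin_cases i
    · exact corT_cert (G1 := gB2q2) (G2 := gB1q2) (Ga := gB0q0) (Gb := gB1q0) cB202E_ok B hρ (gatB22 x) (gatB12 x) (fun _ => gatB00 x) (fun _ => gatB10 x) hd hx hx' CG.B202E_210
    · exact corT_cert (G1 := gB2q2) (G2 := gB1q2) (Ga := gB1q0) (Gb := gB2q0) cB202E_ok B hρ (gatB22 x) (gatB12 x) (fun _ => gatB10 x) (fun _ => gatB20 x) hd hx hx' CG.B202E_211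
    · exact corT_cert (G1 := gB2q2) (G2 := gB1q2) (Ga := gB2q0) (Gb := gB3q0) cB202E_ok B hρ (gatB22 x) (gatB12 x) (fun _ => gatB20 x) (fun _ => gatB30 x) hd hx hx' CG.B202E_212
    · exact corT_cert (G1 := gB2q2) (G2 := gB1q2) (Ga := gB3q0) (Gb := gB4q0) cB202E_ok B hρ (gatB22 x) (gatB12 x) (fun _ => gatB30 x) (fun h => absurd h (by decide)) hd hx hx' CG.B202E_213
    · exact absurd h2 (by norm_num)
    · exact absurd h2 (by norm_num)

theorem altB_B202E_22 {κ x : ℝ} (hκ : κ * h0 = ken x) (hx : ((536870912 : ℕ) : ℝ) / S ≤ x) (hx' : x ≤ (((536870912 : ℕ) : ℝ) + (50465866 : ℕ)) / S) :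
    AltEB 3 κ (eng.v x) (3 / 40) (tnt (h0 * x) (3 / 10)) PP tK tL tC pcB (scP esg pd) [⟨0, 1, 0, 67108864⟩, ⟨1, 0, 0, 67108864⟩, ⟨2, 1, 0, 67108864⟩] 2 0 2 2 2 (sgb true) (sgb false) x := by
  have X : XR 67108864 x := XR.of hx hx' (by norm_num) (by norm_num) (by norm_num) (by norm_num)
  have hen : 0 < eng.v x := en_pos X.x0.le
  refine CornW.altB (C := cB202E) (j := (2 : Fin 7)) (k := (2 : Fin 7)) (Ef := esg) (pd := pd) (o := 3 / 40)
    (cornW_of (C := cB202E) (C0 := c0B) (En := eng) (mo := mog) (j := (2 : Fin 7)) (k := (2 : Fin 7)) (lo := 0) (hi := 3) (W := 67108864) (N0 := 3) cB202E_q (sideB hx hx') gokB (pinU hx hx') dokB X (by norm_num) (by norm_num) (l := (0 : Fin 7)) rfl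
      (gatB22 x) (gatB22 x) (gatB00 x) (datB22 x) (datB22 x) (datB00 x) ?_)
    (cornS_of (C := cB202E) (C0 := c0B) (j := (2 : Fin 7)) (k := (2 : Fin 7)) (lo := 0) (hi := 3) (W := 67108864) (N0 := 3) cB202E_q (sideB hx hx') gokB X (by norm_num) (by norm_num) (l := (0 : Fin 7)) rfl
      (gatB22 x) (gatB22 x) (gatB00 x) ?_)
    (thU (pinU hx hx')) rfl hκ (fun j q y => tC_eq j q y x) (esg_rng X.x0.le (by linarith [X.b, X.p0])).1 (mo_v x) le_rfl le_rfl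
  · intro ρ a B hρ hd i h1 h2
    fin_cases i
    · exact corW_cert (G1 := gB2q2) (G2 := gB2q2) (Ga := gB0q0) (Gb := gB1q0) (D1 := dB2q2) (D2 := dB2q2) (Da := dB0q0) (Db := dB1q0) cB202E_ok B hρ hen (gatB22 x) (gatB22 x) (fun _ => gatB00 x) (fun _ => gatB10 x) (datB22 x) (datB22 x) (fun _ => datB00 x) (fun _ => datB10 x) hd hx hx' CW.B202E_220
    · exact corW_cert (G1 := gB2q2) (G2 := gB2q2) (Ga := gB1q0) (Gb := gB2q0) (D1 := dB2q2) (D2 := dB2q2) (Da := dB1q0) (Db := dB2q0) cB202E_ok B hρ hen (gatB22 x) (gatB22 x) (fun _ => gatB10 x) (fun _ => gatB20 x) (datB22 x) (datB22 x) (fun _ => datB10 x) (fun _ => datB20 x) hd hx hx' CW.B202E_221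
    · exact corW_cert (G1 := gB2q2) (G2 := gB2q2) (Ga := gB2q0) (Gb := gB3q0) (D1 := dB2q2) (D2 := dB2q2) (Da := dB2q0) (Db := dB3q0) cB202E_ok B hρ hen (gatB22 x) (gatB22 x) (fun _ => gatB20 x) (fun _ => gatB30 x) (datB22 x) (datB22 x) (fun _ => datB20 x) (fun _ => datB30 x) hd hx hx' CW.B202E_222
    · exact corW_cert (G1 := gB2q2) (G2 := gB2q2) (Ga := gB3q0) (Gb := gB4q0) (D1 := dB2q2) (D2 := dB2q2) (Da := dB3q0) (Db := dB4q0) cB202E_ok B hρ hen (gatB22 x) (gatB22 x) (fun _ => gatB30 x) (fun h => absurd h (by decide)) (datB22 x) (datB22 x) (fun _ => datB30 x) (fun h => absurd h (by decide)) hd hx hx' CW.B202E_223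
    · exact absurd h2 (by norm_num)
    · exact absurd h2 (by norm_num)
  · intro ρ a B hρ hd i h1 h2
    fin_cases i
    · exact corT_cert (G1 := gB2q2) (G2 := gB2q2) (Ga := gB0q0) (Gb := gB1q0) cB202E_ok B hρ (gatB22 x) (gatB22 x) (fun _ => gatB00 x) (fun _ => gatB10 x) hd hx hx' CG.B202E_220
    · exact corT_cert (G1 := gB2q2) (G2 := gB2q2) (Ga := gB1q0) (Gb := gB2q0) cB202E_ok B hρ (gatB22 x) (gatB22 x) (fun _ => gatB10 x) (fun _ => gatB20 x) hd hx hx' CG.B202E_221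
    · exact corT_cert (G1 := gB2q2) (G2 := gB2q2) (Ga := gB2q0) (Gb := gB3q0) cB202E_ok B hρ (gatB22 x) (gatB22 x) (fun _ => gatB20 x) (fun _ => gatB30 x) hd hx hx' CG.B202E_222
    · exact corT_cert (G1 := gB2q2) (G2 := gB2q2) (Ga := gB3q0) (Gb := gB4q0) cB202E_ok B hρ (gatB22 x) (gatB22 x) (fun _ => gatB30 x) (fun h => absurd h (by decide)) hd hx hx' CG.B202E_223
    · exact absurd h2 (by norm_num)
    · exact absurd h2 (by norm_num)

theorem altB_B202E_23 {κ x : ℝ} (hκ : κ * h0 = ken x) (hx : ((536870912 : ℕ) : ℝ) / S ≤ x) (hx' : x ≤ (((536870912 : ℕ) : ℝ) + (50465866 : ℕ)) / S) :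
    AltEB 3 κ (eng.v x) (3 / 40) (tnt (h0 * x) (3 / 10)) PP tK tL tC pcB (scP esg pd) [⟨0, 1, 0, 67108864⟩, ⟨1, 0, 0, 67108864⟩, ⟨2, 1, 0, 67108864⟩] 2 0 2 2 3 (sgb true) (sgb false) x := by
  have X : XR 67108864 x := XR.of hx hx' (by norm_num) (by norm_num) (by norm_num) (by norm_num)
  have hen : 0 < eng.v x := en_pos X.x0.le
  refine CornW.altB (C := cB202E) (j := (2 : Fin 7)) (k := (3 : Fin 7)) (Ef := esg) (pd := pd) (o := 3 / 40)
    (cornW_of (C := cB202E) (C0 := c0B) (En := eng) (mo := mog) (j := (2 : Fin 7)) (k := (3 : Fin 7)) (lo := 0) (hi := 3) (W := 67108864) (N0 := 3) cB202E_q (sideB hx hx') gokB (pinU hx hx') dokB X (by norm_num) (by norm_num) (l := (0 : Fin 7)) rfl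
      (gatB22 x) (gatB32 x) (gatB00 x) (datB22 x) (datB32 x) (datB00 x) ?_)
    (cornS_of (C := cB202E) (C0 := c0B) (j := (2 : Fin 7)) (k := (3 : Fin 7)) (lo := 0) (hi := 3) (W := 67108864) (N0 := 3) cB202E_q (sideB hx hx') gokB X (by norm_num) (by norm_num) (l := (0 : Fin 7)) rfl
      (gatB22 x) (gatB32 x) (gatB00 x) ?_)
    (thU (pinU hx hx')) rfl hκ (fun j q y => tC_eq j q y x) (esg_rng X.x0.le (by linarith [X.b, X.p0])).1 (mo_v x) le_rfl le_rfl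
  · intro ρ a B hρ hd i h1 h2
    fin_cases i
    · exact corW_cert (G1 := gB2q2) (G2 := gB3q2) (Ga := gB0q0) (Gb := gB1q0) (D1 := dB2q2) (D2 := dB3q2) (Da := dB0q0) (Db := dB1q0) cB202E_ok B hρ hen (gatB22 x) (gatB32 x) (fun _ => gatB00 x) (fun _ => gatB10 x) (datB22 x) (datB32 x) (fun _ => datB00 x) (fun _ => datB10 x) hd hx hx' CW.B202E_230
    · exact corW_cert (G1 := gB2q2) (G2 := gB3q2) (Ga := gB1q0) (Gb := gB2q0) (D1 := dB2q2) (D2 := dB3q2) (Da := dB1q0) (Db := dB2q0) cB202E_ok B hρ hen (gatB22 x) (gatB32 x) (fun _ => gatB10 x) (fun _ => gatB20 x) (datB22 x) (datB32 x) (fun _ => datB10 x) (fun _ => datB20 x) hd hx hx' CW.B202E_231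
    · exact corW_cert (G1 := gB2q2) (G2 := gB3q2) (Ga := gB2q0) (Gb := gB3q0) (D1 := dB2q2) (D2 := dB3q2) (Da := dB2q0) (Db := dB3q0) cB202E_ok B hρ hen (gatB22 x) (gatB32 x) (fun _ => gatB20 x) (fun _ => gatB30 x) (datB22 x) (datB32 x) (fun _ => datB20 x) (fun _ => datB30 x) hd hx hx' CW.B202E_232
    · exact corW_cert (G1 := gB2q2) (G2 := gB3q2) (Ga := gB3q0) (Gb := gB4q0) (D1 := dB2q2) (D2 := dB3q2) (Da := dB3q0) (Db := dB4q0) cB202E_ok B hρ hen (gatB22 x) (gatB32 x) (fun _ => gatB30 x) (fun h => absurd h (by decide)) (datB22 x) (datB32 x) (fun _ => datB30 x) (fun h => absurd h (by decide)) hd hx hx' CW.B202E_233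
    · exact absurd h2 (by norm_num)
    · exact absurd h2 (by norm_num)
  · intro ρ a B hρ hd i h1 h2
    fin_cases i
    · exact corT_cert (G1 := gB2q2) (G2 := gB3q2) (Ga := gB0q0) (Gb := gB1q0) cB202E_ok B hρ (gatB22 x) (gatB32 x) (fun _ => gatB00 x) (fun _ => gatB10 x) hd hx hx' CG.B202E_230
    · exact corT_cert (G1 := gB2q2) (G2 := gB3q2) (Ga := gB1q0) (Gb := gB2q0) cB202E_ok B hρ (gatB22 x) (gatB32 x) (fun _ => gatB10 x) (fun _ => gatB20 x) hd hx hx' CG.B202E_231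
    · exact corT_cert (G1 := gB2q2) (G2 := gB3q2) (Ga := gB2q0) (Gb := gB3q0) cB202E_ok B hρ (gatB22 x) (gatB32 x) (fun _ => gatB20 x) (fun _ => gatB30 x) hd hx hx' CG.B202E_232
    · exact corT_cert (G1 := gB2q2) (G2 := gB3q2) (Ga := gB3q0) (Gb := gB4q0) cB202E_ok B hρ (gatB22 x) (gatB32 x) (fun _ => gatB30 x) (fun h => absurd h (by decide)) hd hx hx' CG.B202E_233
    · exact absurd h2 (by norm_num)
    · exact absurd h2 (by norm_num)

theorem altB_B202E_30 {κ x : ℝ} (hκ : κ * h0 = ken x) (hx : ((536870912 : ℕ) : ℝ) / S ≤ x) (hx' : x ≤ (((536870912 : ℕ) : ℝ) + (50465866 : ℕ)) / S) :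
    AltEB 3 κ (eng.v x) (3 / 40) (tnt (h0 * x) (3 / 10)) PP tK tL tC pcB (scP esg pd) [⟨0, 1, 0, 67108864⟩, ⟨1, 0, 0, 67108864⟩, ⟨2, 1, 0, 67108864⟩] 2 0 2 3 0 (sgb true) (sgb false) x := by
  have X : XR 67108864 x := XR.of hx hx' (by norm_num) (by norm_num) (by norm_num) (by norm_num)
  have hen : 0 < eng.v x := en_pos X.x0.le
  refine CornW.altB (C := cB202E) (j := (3 : Fin 7)) (k := (0 : Fin 7)) (Ef := esg) (pd := pd) (o := 3 / 40)
    (cornW_of (C := cB202E) (C0 := c0B) (En := eng) (mo := mog) (j := (3 : Fin 7)) (k := (0 : Fin 7)) (lo := 0) (hi := 3) (W := 67108864) (N0 := 3) cB202E_q (sideB hx hx') gokB (pinU hx hx') dokB X (by norm_num) (by norm_num) (l := (0 : Fin 7)) rfl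
      (gatB32 x) (gatB02 x) (gatB00 x) (datB32 x) (datB02 x) (datB00 x) ?_)
    (cornS_of (C := cB202E) (C0 := c0B) (j := (3 : Fin 7)) (k := (0 : Fin 7)) (lo := 0) (hi := 3) (W := 67108864) (N0 := 3) cB202E_q (sideB hx hx') gokB X (by norm_num) (by norm_num) (l := (0 : Fin 7)) rfl
      (gatB32 x) (gatB02 x) (gatB00 x) ?_)
    (thU (pinU hx hx')) rfl hκ (fun j q y => tC_eq j q y x) (esg_rng X.x0.le (by linarith [X.b, X.p0])).1 (mo_v x) le_rfl le_rfl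
  · intro ρ a B hρ hd i h1 h2
    fin_cases i
    · exact corW_cert (G1 := gB3q2) (G2 := gB0q2) (Ga := gB0q0) (Gb := gB1q0) (D1 := dB3q2) (D2 := dB0q2) (Da := dB0q0) (Db := dB1q0) cB202E_ok B hρ hen (gatB32 x) (gatB02 x) (fun _ => gatB00 x) (fun _ => gatB10 x) (datB32 x) (datB02 x) (fun _ => datB00 x) (fun _ => datB10 x) hd hx hx' CW.B202E_300
    · exact corW_cert (G1 := gB3q2) (G2 := gB0q2) (Ga := gB1q0) (Gb := gB2q0) (D1 := dB3q2) (D2 := dB0q2) (Da := dB1q0) (Db := dB2q0) cB202E_ok B hρ hen (gatB32 x) (gatB02 x) (fun _ => gatB10 x) (fun _ => gatB20 x) (datB32 x) (datB02 x) (fun _ => datB10 x) (fun _ => datB20 x) hd hx hx' CW.B202E_301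
    · exact corW_cert (G1 := gB3q2) (G2 := gB0q2) (Ga := gB2q0) (Gb := gB3q0) (D1 := dB3q2) (D2 := dB0q2) (Da := dB2q0) (Db := dB3q0) cB202E_ok B hρ hen (gatB32 x) (gatB02 x) (fun _ => gatB20 x) (fun _ => gatB30 x) (datB32 x) (datB02 x) (fun _ => datB20 x) (fun _ => datB30 x) hd hx hx' CW.B202E_302
    · exact corW_cert (G1 := gB3q2) (G2 := gB0q2) (Ga := gB3q0) (Gb := gB4q0) (D1 := dB3q2) (D2 := dB0q2) (Da := dB3q0) (Db := dB4q0) cB202E_ok B hρ hen (gatB32 x) (gatB02 x) (fun _ => gatB30 x) (fun h => absurd h (by decide)) (datB32 x) (datB02 x) (fun _ => datB30 x) (fun h => absurd h (by decide)) hd hx hx' CW.B202E_303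
    · exact absurd h2 (by norm_num)
    · exact absurd h2 (by norm_num)
  · intro ρ a B hρ hd i h1 h2
    fin_cases i
    · exact corT_cert (G1 := gB3q2) (G2 := gB0q2) (Ga := gB0q0) (Gb := gB1q0) cB202E_ok B hρ (gatB32 x) (gatB02 x) (fun _ => gatB00 x) (fun _ => gatB10 x) hd hx hx' CG.B202E_300
    · exact corT_cert (G1 := gB3q2) (G2 := gB0q2) (Ga := gB1q0) (Gb := gB2q0) cB202E_ok B hρ (gatB32 x) (gatB02 x) (fun _ => gatB10 x) (fun _ => gatB20 x) hd hx hx' CG.B202E_301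
    · exact corT_cert (G1 := gB3q2) (G2 := gB0q2) (Ga := gB2q0) (Gb := gB3q0) cB202E_ok B hρ (gatB32 x) (gatB02 x) (fun _ => gatB20 x) (fun _ => gatB30 x) hd hx hx' CG.B202E_302
    · exact corT_cert (G1 := gB3q2) (G2 := gB0q2) (Ga := gB3q0) (Gb := gB4q0) cB202E_ok B hρ (gatB32 x) (gatB02 x) (fun _ => gatB30 x) (fun h => absurd h (by decide)) hd hx hx' CG.B202E_303
    · exact absurd h2 (by norm_num)
    · exact absurd h2 (by norm_num)

theorem altB_B202E_31 {κ x : ℝ} (hκ : κ * h0 = ken x) (hx : ((536870912 : ℕ) : ℝ) / S ≤ x) (hx' : x ≤ (((536870912 : ℕ) : ℝ) + (50465866 : ℕ)) / S) :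
    AltEB 3 κ (eng.v x) (3 / 40) (tnt (h0 * x) (3 / 10)) PP tK tL tC pcB (scP esg pd) [⟨0, 1, 0, 67108864⟩, ⟨1, 0, 0, 67108864⟩, ⟨2, 1, 0, 67108864⟩] 2 0 2 3 1 (sgb true) (sgb false) x := by
  have X : XR 67108864 x := XR.of hx hx' (by norm_num) (by norm_num) (by norm_num) (by norm_num)
  have hen : 0 < eng.v x := en_pos X.x0.le
  refine CornW.altB (C := cB202E) (j := (3 : Fin 7)) (k := (1 : Fin 7)) (Ef := esg) (pd := pd) (o := 3 / 40)
    (cornW_of (C := cB202E) (C0 := c0B) (En := eng) (mo := mog) (j := (3 : Fin 7)) (k := (1 : Fin 7)) (lo := 0) (hi := 3) (W := 67108864) (N0 := 3) cB202E_q (sideB hx hx') gokB (pinU hx hx') dokB X (by norm_num) (by norm_num) (l := (0 : Fin 7)) rfl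
      (gatB32 x) (gatB12 x) (gatB00 x) (datB32 x) (datB12 x) (datB00 x) ?_)
    (cornS_of (C := cB202E) (C0 := c0B) (j := (3 : Fin 7)) (k := (1 : Fin 7)) (lo := 0) (hi := 3) (W := 67108864) (N0 := 3) cB202E_q (sideB hx hx') gokB X (by norm_num) (by norm_num) (l := (0 : Fin 7)) rfl
      (gatB32 x) (gatB12 x) (gatB00 x) ?_)
    (thU (pinU hx hx')) rfl hκ (fun j q y => tC_eq j q y x) (esg_rng X.x0.le (by linarith [X.b, X.p0])).1 (mo_v x) le_rfl le_rfl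
  · intro ρ a B hρ hd i h1 h2
    fin_cases i
    · exact corW_cert (G1 := gB3q2) (G2 := gB1q2) (Ga := gB0q0) (Gb := gB1q0) (D1 := dB3q2) (D2 := dB1q2) (Da := dB0q0) (Db := dB1q0) cB202E_ok B hρ hen (gatB32 x) (gatB12 x) (fun _ => gatB00 x) (fun _ => gatB10 x) (datB32 x) (datB12 x) (fun _ => datB00 x) (fun _ => datB10 x) hd hx hx' CW.B202E_310
    · exact corW_cert (G1 := gB3q2) (G2 := gB1q2) (Ga := gB1q0) (Gb := gB2q0) (D1 := dB3q2) (D2 := dB1q2) (Da := dB1q0) (Db := dB2q0) cB202E_ok B hρ hen (gatB32 x) (gatB12 x) (fun _ => gatB10 x) (fun _ => gatB20 x) (datB32 x) (datB12 x) (fun _ => datB10 x) (fun _ => datB20 x) hd hx hx' CW.B202E_311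
    · exact corW_cert (G1 := gB3q2) (G2 := gB1q2) (Ga := gB2q0) (Gb := gB3q0) (D1 := dB3q2) (D2 := dB1q2) (Da := dB2q0) (Db := dB3q0) cB202E_ok B hρ hen (gatB32 x) (gatB12 x) (fun _ => gatB20 x) (fun _ => gatB30 x) (datB32 x) (datB12 x) (fun _ => datB20 x) (fun _ => datB30 x) hd hx hx' CW.B202E_312
    · exact corW_cert (G1 := gB3q2) (G2 := gB1q2) (Ga := gB3q0) (Gb := gB4q0) (D1 := dB3q2) (D2 := dB1q2) (Da := dB3q0) (Db := dB4q0) cB202E_ok B hρ hen (gatB32 x) (gatB12 x) (fun _ => gatB30 x) (fun h => absurd h (by decide)) (datB32 x) (datB12 x) (fun _ => datB30 x) (fun h => absurd h (by decide)) hd hx hx' CW.B202E_313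
    · exact absurd h2 (by norm_num)
    · exact absurd h2 (by norm_num)
  · intro ρ a B hρ hd i h1 h2
    fin_cases i
    · exact corT_cert (G1 := gB3q2) (G2 := gB1q2) (Ga := gB0q0) (Gb := gB1q0) cB202E_ok B hρ (gatB32 x) (gatB12 x) (fun _ => gatB00 x) (fun _ => gatB10 x) hd hx hx' CG.B202E_310
    · exact corT_cert (G1 := gB3q2) (G2 := gB1q2) (Ga := gB1q0) (Gb := gB2q0) cB202E_ok B hρ (gatB32 x) (gatB12 x) (fun _ => gatB10 x) (fun _ => gatB20 x) hd hx hx' CG.B202E_311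
    · exact corT_cert (G1 := gB3q2) (G2 := gB1q2) (Ga := gB2q0) (Gb := gB3q0) cB202E_ok B hρ (gatB32 x) (gatB12 x) (fun _ => gatB20 x) (fun _ => gatB30 x) hd hx hx' CG.B202E_312
    · exact corT_cert (G1 := gB3q2) (G2 := gB1q2) (Ga := gB3q0) (Gb := gB4q0) cB202E_ok B hρ (gatB32 x) (gatB12 x) (fun _ => gatB30 x) (fun h => absurd h (by decide)) hd hx hx' CG.B202E_313
    · exact absurd h2 (by norm_num)
    · exact absurd h2 (by norm_num)

theorem altB_B202E_32 {κ x : ℝ} (hκ : κ * h0 = ken x) (hx : ((536870912 : ℕ) : ℝ) / S ≤ x) (hx' : x ≤ (((536870912 : ℕ) : ℝ) + (50465866 : ℕ)) / S) :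
    AltEB 3 κ (eng.v x) (3 / 40) (tnt (h0 * x) (3 / 10)) PP tK tL tC pcB (scP esg pd) [⟨0, 1, 0, 67108864⟩, ⟨1, 0, 0, 67108864⟩, ⟨2, 1, 0, 67108864⟩] 2 0 2 3 2 (sgb true) (sgb false) x := by
  have X : XR 67108864 x := XR.of hx hx' (by norm_num) (by norm_num) (by norm_num) (by norm_num)
  have hen : 0 < eng.v x := en_pos X.x0.le
  refine CornW.altB (C := cB202E) (j := (3 : Fin 7)) (k := (2 : Fin 7)) (Ef := esg) (pd := pd) (o := 3 / 40)
    (cornW_of (C := cB202E) (C0 := c0B) (En := eng) (mo := mog) (j := (3 : Fin 7)) (k := (2 : Fin 7)) (lo := 0) (hi := 3) (W := 67108864) (N0 := 3) cB202E_q (sideB hx hx') gokB (pinU hx hx') dokB X (by norm_num) (by norm_num) (l := (0 : Fin 7)) rfl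
      (gatB32 x) (gatB22 x) (gatB00 x) (datB32 x) (datB22 x) (datB00 x) ?_)
    (cornS_of (C := cB202E) (C0 := c0B) (j := (3 : Fin 7)) (k := (2 : Fin 7)) (lo := 0) (hi := 3) (W := 67108864) (N0 := 3) cB202E_q (sideB hx hx') gokB X (by norm_num) (by norm_num) (l := (0 : Fin 7)) rfl
      (gatB32 x) (gatB22 x) (gatB00 x) ?_)
    (thU (pinU hx hx')) rfl hκ (fun j q y => tC_eq j q y x) (esg_rng X.x0.le (by linarith [X.b, X.p0])).1 (mo_v x) le_rfl le_rfl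
  · intro ρ a B hρ hd i h1 h2
    fin_cases i
    · exact corW_cert (G1 := gB3q2) (G2 := gB2q2) (Ga := gB0q0) (Gb := gB1q0) (D1 := dB3q2) (D2 := dB2q2) (Da := dB0q0) (Db := dB1q0) cB202E_ok B hρ hen (gatB32 x) (gatB22 x) (fun _ => gatB00 x) (fun _ => gatB10 x) (datB32 x) (datB22 x) (fun _ => datB00 x) (fun _ => datB10 x) hd hx hx' CW.B202E_320
    · exact corW_cert (G1 := gB3q2) (G2 := gB2q2) (Ga := gB1q0) (Gb := gB2q0) (D1 := dB3q2) (D2 := dB2q2) (Da := dB1q0) (Db := dB2q0) cB202E_ok B hρ hen (gatB32 x) (gatB22 x) (fun _ => gatB10 x) (fun _ => gatB20 x) (datB32 x) (datB22 x) (fun _ => datB10 x) (fun _ => datB20 x) hd hx hx' CW.B202E_321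
    · exact corW_cert (G1 := gB3q2) (G2 := gB2q2) (Ga := gB2q0) (Gb := gB3q0) (D1 := dB3q2) (D2 := dB2q2) (Da := dB2q0) (Db := dB3q0) cB202E_ok B hρ hen (gatB32 x) (gatB22 x) (fun _ => gatB20 x) (fun _ => gatB30 x) (datB32 x) (datB22 x) (fun _ => datB20 x) (fun _ => datB30 x) hd hx hx' CW.B202E_322
    · exact corW_cert (G1 := gB3q2) (G2 := gB2q2) (Ga := gB3q0) (Gb := gB4q0) (D1 := dB3q2) (D2 := dB2q2) (Da := dB3q0) (Db := dB4q0) cB202E_ok B hρ hen (gatB32 x) (gatB22 x) (fun _ => gatB30 x) (fun h => absurd h (by decide)) (datB32 x) (datB22 x) (fun _ => datB30 x) (fun h => absurd h (by decide)) hd hx hx' CW.B202E_323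
    · exact absurd h2 (by norm_num)
    · exact absurd h2 (by norm_num)
  · intro ρ a B hρ hd i h1 h2
    fin_cases i
    · exact corT_cert (G1 := gB3q2) (G2 := gB2q2) (Ga := gB0q0) (Gb := gB1q0) cB202E_ok B hρ (gatB32 x) (gatB22 x) (fun _ => gatB00 x) (fun _ => gatB10 x) hd hx hx' CG.B202E_320
    · exact corT_cert (G1 := gB3q2) (G2 := gB2q2) (Ga := gB1q0) (Gb := gB2q0) cB202E_ok B hρ (gatB32 x) (gatB22 x) (fun _ => gatB10 x) (fun _ => gatB20 x) hd hx hx' CG.B202E_321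
    · exact corT_cert (G1 := gB3q2) (G2 := gB2q2) (Ga := gB2q0) (Gb := gB3q0) cB202E_ok B hρ (gatB32 x) (gatB22 x) (fun _ => gatB20 x) (fun _ => gatB30 x) hd hx hx' CG.B202E_322
    · exact corT_cert (G1 := gB3q2) (G2 := gB2q2) (Ga := gB3q0) (Gb := gB4q0) cB202E_ok B hρ (gatB32 x) (gatB22 x) (fun _ => gatB30 x) (fun h => absurd h (by decide)) hd hx hx' CG.B202E_323
    · exact absurd h2 (by norm_num)
    · exact absurd h2 (by norm_num)

theorem altB_B202E_33 {κ x : ℝ} (hκ : κ * h0 = ken x) (hx : ((536870912 : ℕ) : ℝ) / S ≤ x) (hx' : x ≤ (((536870912 : ℕ) : ℝ) + (50465866 : ℕ)) / S) :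
    AltEB 3 κ (eng.v x) (3 / 40) (tnt (h0 * x) (3 / 10)) PP tK tL tC pcB (scP esg pd) [⟨0, 1, 0, 67108864⟩, ⟨1, 0, 0, 67108864⟩, ⟨2, 1, 0, 67108864⟩] 2 0 2 3 3 (sgb true) (sgb false) x := by
  have X : XR 67108864 x := XR.of hx hx' (by norm_num) (by norm_num) (by norm_num) (by norm_num)
  have hen : 0 < eng.v x := en_pos X.x0.le
  refine CornW.altB (C := cB202E) (j := (3 : Fin 7)) (k := (3 : Fin 7)) (Ef := esg) (pd := pd) (o := 3 / 40)
    (cornW_of (C := cB202E) (C0 := c0B) (En := eng) (mo := mog) (j := (3 : Fin 7)) (k := (3 : Fin 7)) (lo := 0) (hi := 3) (W := 67108864) (N0 := 3) cB202E_q (sideB hx hx') gokB (pinU hx hx') dokB X (by norm_num) (by norm_num) (l := (0 : Fin 7)) rfl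
      (gatB32 x) (gatB32 x) (gatB00 x) (datB32 x) (datB32 x) (datB00 x) ?_)
    (cornS_of (C := cB202E) (C0 := c0B) (j := (3 : Fin 7)) (k := (3 : Fin 7)) (lo := 0) (hi := 3) (W := 67108864) (N0 := 3) cB202E_q (sideB hx hx') gokB X (by norm_num) (by norm_num) (l := (0 : Fin 7)) rfl
      (gatB32 x) (gatB32 x) (gatB00 x) ?_)
    (thU (pinU hx hx')) rfl hκ (fun j q y => tC_eq j q y x) (esg_rng X.x0.le (by linarith [X.b, X.p0])).1 (mo_v x) le_rfl le_rfl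
  · intro ρ a B hρ hd i h1 h2
    fin_cases i
    · exact corW_cert (G1 := gB3q2) (G2 := gB3q2) (Ga := gB0q0) (Gb := gB1q0) (D1 := dB3q2) (D2 := dB3q2) (Da := dB0q0) (Db := dB1q0) cB202E_ok B hρ hen (gatB32 x) (gatB32 x) (fun _ => gatB00 x) (fun _ => gatB10 x) (datB32 x) (datB32 x) (fun _ => datB00 x) (fun _ => datB10 x) hd hx hx' CW.B202E_330
    · exact corW_cert (G1 := gB3q2) (G2 := gB3q2) (Ga := gB1q0) (Gb := gB2q0) (D1 := dB3q2) (D2 := dB3q2) (Da := dB1q0) (Db := dB2q0) cB202E_ok B hρ hen (gatB32 x) (gatB32 x) (fun _ => gatB10 x) (fun _ => gatB20 x) (datB32 x) (datB32 x) (fun _ => datB10 x) (fun _ => datB20 x) hd hx hx' CW.B202E_331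
    · exact corW_cert (G1 := gB3q2) (G2 := gB3q2) (Ga := gB2q0) (Gb := gB3q0) (D1 := dB3q2) (D2 := dB3q2) (Da := dB2q0) (Db := dB3q0) cB202E_ok B hρ hen (gatB32 x) (gatB32 x) (fun _ => gatB20 x) (fun _ => gatB30 x) (datB32 x) (datB32 x) (fun _ => datB20 x) (fun _ => datB30 x) hd hx hx' CW.B202E_332
    · exact corW_cert (G1 := gB3q2) (G2 := gB3q2) (Ga := gB3q0) (Gb := gB4q0) (D1 := dB3q2) (D2 := dB3q2) (Da := dB3q0) (Db := dB4q0) cB202E_ok B hρ hen (gatB32 x) (gatB32 x) (fun _ => gatB30 x) (fun h => absurd h (by decide)) (datB32 x) (datB32 x) (fun _ => datB30 x) (fun h => absurd h (by decide)) hd hx hx' CW.B202E_333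
    · exact absurd h2 (by norm_num)
    · exact absurd h2 (by norm_num)
  · intro ρ a B hρ hd i h1 h2
    fin_cases i
    · exact corT_cert (G1 := gB3q2) (G2 := gB3q2) (Ga := gB0q0) (Gb := gB1q0) cB202E_ok B hρ (gatB32 x) (gatB32 x) (fun _ => gatB00 x) (fun _ => gatB10 x) hd hx hx' CG.B202E_330
    · exact corT_cert (G1 := gB3q2) (G2 := gB3q2) (Ga := gB1q0) (Gb := gB2q0) cB202E_ok B hρ (gatB32 x) (gatB32 x) (fun _ => gatB10 x) (fun _ => gatB20 x) hd hx hx' CG.B202E_331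
    · exact corT_cert (G1 := gB3q2) (G2 := gB3q2) (Ga := gB2q0) (Gb := gB3q0) cB202E_ok B hρ (gatB32 x) (gatB32 x) (fun _ => gatB20 x) (fun _ => gatB30 x) hd hx hx' CG.B202E_332
    · exact corT_cert (G1 := gB3q2) (G2 := gB3q2) (Ga := gB3q0) (Gb := gB4q0) cB202E_ok B hρ (gatB32 x) (gatB32 x) (fun _ => gatB30 x) (fun h => absurd h (by decide)) hd hx hx' CG.B202E_333
    · exact absurd h2 (by norm_num)
    · exact absurd h2 (by norm_num)

theorem altB_B202L_60 {κ x : ℝ} (hκ : κ * h0 = ken x) (hx : ((536870912 : ℕ) : ℝ) / S ≤ x) (hx' : x ≤ (((536870912 : ℕ) : ℝ) + (50465866 : ℕ)) / S) :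
    AltEB 3 κ (eng.v x) (3 / 40) (tnt (h0 * x) (3 / 10)) PP tK tL tC pcB (scP esg pd) [⟨0, 1, 0, 67108864⟩, ⟨1, 0, 0, 67108864⟩, ⟨2, 1, 0, 67108864⟩] 2 0 2 6 0 (sgb true) (sgb true) x := by
  have X : XR 67108864 x := XR.of hx hx' (by norm_num) (by norm_num) (by norm_num) (by norm_num)
  have hen : 0 < eng.v x := en_pos X.x0.le
  refine CornW.altB (C := cB202L) (j := (6 : Fin 7)) (k := (0 : Fin 7)) (Ef := esg) (pd := pd) (o := 3 / 40)
    (cornW_of (C := cB202L) (C0 := c0B) (En := eng) (mo := mog) (j := (6 : Fin 7)) (k := (0 : Fin 7)) (lo := 0) (hi := 3) (W := 67108864) (N0 := 3) cB202L_q (sideB hx hx') gokB (pinU hx hx') dokB X (by norm_num) (by norm_num) (l := (0 : Fin 7)) rfl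
      (gatB62 x) (gatB02 x) (gatB00 x) (datB62 x) (datB02 x) (datB00 x) ?_)
    (cornS_of (C := cB202L) (C0 := c0B) (j := (6 : Fin 7)) (k := (0 : Fin 7)) (lo := 0) (hi := 3) (W := 67108864) (N0 := 3) cB202L_q (sideB hx hx') gokB X (by norm_num) (by norm_num) (l := (0 : Fin 7)) rfl
      (gatB62 x) (gatB02 x) (gatB00 x) ?_)
    (thU (pinU hx hx')) rfl hκ (fun j q y => tC_eq j q y x) (esg_rng X.x0.le (by linarith [X.b, X.p0])).1 (mo_v x) le_rfl le_rfl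
  · intro ρ a B hρ hd i h1 h2
    fin_cases i
    · exact corW_cert (G1 := gB6q2) (G2 := gB0q2) (Ga := gB0q0) (Gb := gB1q0) (D1 := dB6q2) (D2 := dB0q2) (Da := dB0q0) (Db := dB1q0) cB202L_ok B hρ hen (gatB62 x) (gatB02 x) (fun _ => gatB00 x) (fun _ => gatB10 x) (datB62 x) (datB02 x) (fun _ => datB00 x) (fun _ => datB10 x) hd hx hx' CW.B202L_600
    · exact corW_cert (G1 := gB6q2) (G2 := gB0q2) (Ga := gB1q0) (Gb := gB2q0) (D1 := dB6q2) (D2 := dB0q2) (Da := dB1q0) (Db := dB2q0) cB202L_ok B hρ hen (gatB62 x) (gatB02 x) (fun _ => gatB10 x) (fun _ => gatB20 x) (datB62 x) (datB02 x) (fun _ => datB10 x) (fun _ => datB20 x) hd hx hx' CW.B202L_601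
    · exact corW_cert (G1 := gB6q2) (G2 := gB0q2) (Ga := gB2q0) (Gb := gB3q0) (D1 := dB6q2) (D2 := dB0q2) (Da := dB2q0) (Db := dB3q0) cB202L_ok B hρ hen (gatB62 x) (gatB02 x) (fun _ => gatB20 x) (fun _ => gatB30 x) (datB62 x) (datB02 x) (fun _ => datB20 x) (fun _ => datB30 x) hd hx hx' CW.B202L_602
    · exact corW_cert (G1 := gB6q2) (G2 := gB0q2) (Ga := gB3q0) (Gb := gB4q0) (D1 := dB6q2) (D2 := dB0q2) (Da := dB3q0) (Db := dB4q0) cB202L_ok B hρ hen (gatB62 x) (gatB02 x) (fun _ => gatB30 x) (fun h => absurd h (by decide)) (datB62 x) (datB02 x) (fun _ => datB30 x) (fun h => absurd h (by decide)) hd hx hx' CW.B202L_603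
    · exact absurd h2 (by norm_num)
    · exact absurd h2 (by norm_num)
  · intro ρ a B hρ hd i h1 h2
    fin_cases i
    · exact corT_cert (G1 := gB6q2) (G2 := gB0q2) (Ga := gB0q0) (Gb := gB1q0) cB202L_ok B hρ (gatB62 x) (gatB02 x) (fun _ => gatB00 x) (fun _ => gatB10 x) hd hx hx' CG.B202L_600
    · exact corT_cert (G1 := gB6q2) (G2 := gB0q2) (Ga := gB1q0) (Gb := gB2q0) cB202L_ok B hρ (gatB62 x) (gatB02 x) (fun _ => gatB10 x) (fun _ => gatB20 x) hd hx hx' CG.B202L_601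
    · exact corT_cert (G1 := gB6q2) (G2 := gB0q2) (Ga := gB2q0) (Gb := gB3q0) cB202L_ok B hρ (gatB62 x) (gatB02 x) (fun _ => gatB20 x) (fun _ => gatB30 x) hd hx hx' CG.B202L_602
    · exact corT_cert (G1 := gB6q2) (G2 := gB0q2) (Ga := gB3q0) (Gb := gB4q0) cB202L_ok B hρ (gatB62 x) (gatB02 x) (fun _ => gatB30 x) (fun h => absurd h (by decide)) hd hx hx' CG.B202L_603
    · exact absurd h2 (by norm_num)
    · exact absurd h2 (by norm_num)

theorem altB_B202L_61 {κ x : ℝ} (hκ : κ * h0 = ken x) (hx : ((536870912 : ℕ) : ℝ) / S ≤ x) (hx' : x ≤ (((536870912 : ℕ) : ℝ) + (50465866 : ℕ)) / S) :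
    AltEB 3 κ (eng.v x) (3 / 40) (tnt (h0 * x) (3 / 10)) PP tK tL tC pcB (scP esg pd) [⟨0, 1, 0, 67108864⟩, ⟨1, 0, 0, 67108864⟩, ⟨2, 1, 0, 67108864⟩] 2 0 2 6 1 (sgb true) (sgb true) x := by
  have X : XR 67108864 x := XR.of hx hx' (by norm_num) (by norm_num) (by norm_num) (by norm_num)
  have hen : 0 < eng.v x := en_pos X.x0.le
  refine CornW.altB (C := cB202L) (j := (6 : Fin 7)) (k := (1 : Fin 7)) (Ef := esg) (pd := pd) (o := 3 / 40)
    (cornW_of (C := cB202L) (C0 := c0B) (En := eng) (mo := mog) (j := (6 : Fin 7)) (k := (1 : Fin 7)) (lo := 0) (hi := 3) (W := 67108864) (N0 := 3) cB202L_q (sideB hx hx') gokB (pinU hx hx') dokB X (by norm_num) (by norm_num) (l := (0 : Fin 7)) rfl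
      (gatB62 x) (gatB12 x) (gatB00 x) (datB62 x) (datB12 x) (datB00 x) ?_)
    (cornS_of (C := cB202L) (C0 := c0B) (j := (6 : Fin 7)) (k := (1 : Fin 7)) (lo := 0) (hi := 3) (W := 67108864) (N0 := 3) cB202L_q (sideB hx hx') gokB X (by norm_num) (by norm_num) (l := (0 : Fin 7)) rfl
      (gatB62 x) (gatB12 x) (gatB00 x) ?_)
    (thU (pinU hx hx')) rfl hκ (fun j q y => tC_eq j q y x) (esg_rng X.x0.le (by linarith [X.b, X.p0])).1 (mo_v x) le_rfl le_rfl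
  · intro ρ a B hρ hd i h1 h2
    fin_cases i
    · exact corW_cert (G1 := gB6q2) (G2 := gB1q2) (Ga := gB0q0) (Gb := gB1q0) (D1 := dB6q2) (D2 := dB1q2) (Da := dB0q0) (Db := dB1q0) cB202L_ok B hρ hen (gatB62 x) (gatB12 x) (fun _ => gatB00 x) (fun _ => gatB10 x) (datB62 x) (datB12 x) (fun _ => datB00 x) (fun _ => datB10 x) hd hx hx' CW.B202L_610
    · exact corW_cert (G1 := gB6q2) (G2 := gB1q2) (Ga := gB1q0) (Gb := gB2q0) (D1 := dB6q2) (D2 := dB1q2) (Da := dB1q0) (Db := dB2q0) cB202L_ok B hρ hen (gatB62 x) (gatB12 x) (fun _ => gatB10 x) (fun _ => gatB20 x) (datB62 x) (datB12 x) (fun _ => datB10 x) (fun _ => datB20 x) hd hx hx' CW.B202L_611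
    · exact corW_cert (G1 := gB6q2) (G2 := gB1q2) (Ga := gB2q0) (Gb := gB3q0) (D1 := dB6q2) (D2 := dB1q2) (Da := dB2q0) (Db := dB3q0) cB202L_ok B hρ hen (gatB62 x) (gatB12 x) (fun _ => gatB20 x) (fun _ => gatB30 x) (datB62 x) (datB12 x) (fun _ => datB20 x) (fun _ => datB30 x) hd hx hx' CW.B202L_612
    · exact corW_cert (G1 := gB6q2) (G2 := gB1q2) (Ga := gB3q0) (Gb := gB4q0) (D1 := dB6q2) (D2 := dB1q2) (Da := dB3q0) (Db := dB4q0) cB202L_ok B hρ hen (gatB62 x) (gatB12 x) (fun _ => gatB30 x) (fun h => absurd h (by decide)) (datB62 x) (datB12 x) (fun _ => datB30 x) (fun h => absurd h (by decide)) hd hx hx' CW.B202L_613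
    · exact absurd h2 (by norm_num)
    · exact absurd h2 (by norm_num)
  · intro ρ a B hρ hd i h1 h2
    fin_cases i
    · exact corT_cert (G1 := gB6q2) (G2 := gB1q2) (Ga := gB0q0) (Gb := gB1q0) cB202L_ok B hρ (gatB62 x) (gatB12 x) (fun _ => gatB00 x) (fun _ => gatB10 x) hd hx hx' CG.B202L_610
    · exact corT_cert (G1 := gB6q2) (G2 := gB1q2) (Ga := gB1q0) (Gb := gB2q0) cB202L_ok B hρ (gatB62 x) (gatB12 x) (fun _ => gatB10 x) (fun _ => gatB20 x) hd hx hx' CG.B202L_611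
    · exact corT_cert (G1 := gB6q2) (G2 := gB1q2) (Ga := gB2q0) (Gb := gB3q0) cB202L_ok B hρ (gatB62 x) (gatB12 x) (fun _ => gatB20 x) (fun _ => gatB30 x) hd hx hx' CG.B202L_612
    · exact corT_cert (G1 := gB6q2) (G2 := gB1q2) (Ga := gB3q0) (Gb := gB4q0) cB202L_ok B hρ (gatB62 x) (gatB12 x) (fun _ => gatB30 x) (fun h => absurd h (by decide)) hd hx hx' CG.B202L_613
    · exact absurd h2 (by norm_num)
    · exact absurd h2 (by norm_num)

theorem altB_B202L_62 {κ x : ℝ} (hκ : κ * h0 = ken x) (hx : ((536870912 : ℕ) : ℝ) / S ≤ x) (hx' : x ≤ (((536870912 : ℕ) : ℝ) + (50465866 : ℕ)) / S) :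
    AltEB 3 κ (eng.v x) (3 / 40) (tnt (h0 * x) (3 / 10)) PP tK tL tC pcB (scP esg pd) [⟨0, 1, 0, 67108864⟩, ⟨1, 0, 0, 67108864⟩, ⟨2, 1, 0, 67108864⟩] 2 0 2 6 2 (sgb true) (sgb true) x := by
  have X : XR 67108864 x := XR.of hx hx' (by norm_num) (by norm_num) (by norm_num) (by norm_num)
  have hen : 0 < eng.v x := en_pos X.x0.le
  refine CornW.altB (C := cB202L) (j := (6 : Fin 7)) (k := (2 : Fin 7)) (Ef := esg) (pd := pd) (o := 3 / 40)
    (cornW_of (C := cB202L) (C0 := c0B) (En := eng) (mo := mog) (j := (6 : Fin 7)) (k := (2 : Fin 7)) (lo := 0) (hi := 3) (W := 67108864) (N0 := 3) cB202L_q (sideB hx hx') gokB (pinU hx hx') dokB X (by norm_num) (by norm_num) (l := (0 : Fin 7)) rfl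
      (gatB62 x) (gatB22 x) (gatB00 x) (datB62 x) (datB22 x) (datB00 x) ?_)
    (cornS_of (C := cB202L) (C0 := c0B) (j := (6 : Fin 7)) (k := (2 : Fin 7)) (lo := 0) (hi := 3) (W := 67108864) (N0 := 3) cB202L_q (sideB hx hx') gokB X (by norm_num) (by norm_num) (l := (0 : Fin 7)) rfl
      (gatB62 x) (gatB22 x) (gatB00 x) ?_)
    (thU (pinU hx hx')) rfl hκ (fun j q y => tC_eq j q y x) (esg_rng X.x0.le (by linarith [X.b, X.p0])).1 (mo_v x) le_rfl le_rfl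
  · intro ρ a B hρ hd i h1 h2
    fin_cases i
    · exact corW_cert (G1 := gB6q2) (G2 := gB2q2) (Ga := gB0q0) (Gb := gB1q0) (D1 := dB6q2) (D2 := dB2q2) (Da := dB0q0) (Db := dB1q0) cB202L_ok B hρ hen (gatB62 x) (gatB22 x) (fun _ => gatB00 x) (fun _ => gatB10 x) (datB62 x) (datB22 x) (fun _ => datB00 x) (fun _ => datB10 x) hd hx hx' CW.B202L_620
    · exact corW_cert (G1 := gB6q2) (G2 := gB2q2) (Ga := gB1q0) (Gb := gB2q0) (D1 := dB6q2) (D2 := dB2q2) (Da := dB1q0) (Db := dB2q0) cB202L_ok B hρ hen (gatB62 x) (gatB22 x) (fun _ => gatB10 x) (fun _ => gatB20 x) (datB62 x) (datB22 x) (fun _ => datB10 x) (fun _ => datB20 x) hd hx hx' CW.B202L_621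
    · exact corW_cert (G1 := gB6q2) (G2 := gB2q2) (Ga := gB2q0) (Gb := gB3q0) (D1 := dB6q2) (D2 := dB2q2) (Da := dB2q0) (Db := dB3q0) cB202L_ok B hρ hen (gatB62 x) (gatB22 x) (fun _ => gatB20 x) (fun _ => gatB30 x) (datB62 x) (datB22 x) (fun _ => datB20 x) (fun _ => datB30 x) hd hx hx' CW.B202L_622
    · exact corW_cert (G1 := gB6q2) (G2 := gB2q2) (Ga := gB3q0) (Gb := gB4q0) (D1 := dB6q2) (D2 := dB2q2) (Da := dB3q0) (Db := dB4q0) cB202L_ok B hρ hen (gatB62 x) (gatB22 x) (fun _ => gatB30 x) (fun h => absurd h (by decide)) (datB62 x) (datB22 x) (fun _ => datB30 x) (fun h => absurd h (by decide)) hd hx hx' CW.B202L_623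
    · exact absurd h2 (by norm_num)
    · exact absurd h2 (by norm_num)
  · intro ρ a B hρ hd i h1 h2
    fin_cases i
    · exact corT_cert (G1 := gB6q2) (G2 := gB2q2) (Ga := gB0q0) (Gb := gB1q0) cB202L_ok B hρ (gatB62 x) (gatB22 x) (fun _ => gatB00 x) (fun _ => gatB10 x) hd hx hx' CG.B202L_620
    · exact corT_cert (G1 := gB6q2) (G2 := gB2q2) (Ga := gB1q0) (Gb := gB2q0) cB202L_ok B hρ (gatB62 x) (gatB22 x) (fun _ => gatB10 x) (fun _ => gatB20 x) hd hx hx' CG.B202L_621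
    · exact corT_cert (G1 := gB6q2) (G2 := gB2q2) (Ga := gB2q0) (Gb := gB3q0) cB202L_ok B hρ (gatB62 x) (gatB22 x) (fun _ => gatB20 x) (fun _ => gatB30 x) hd hx hx' CG.B202L_622
    · exact corT_cert (G1 := gB6q2) (G2 := gB2q2) (Ga := gB3q0) (Gb := gB4q0) cB202L_ok B hρ (gatB62 x) (gatB22 x) (fun _ => gatB30 x) (fun h => absurd h (by decide)) hd hx hx' CG.B202L_623
    · exact absurd h2 (by norm_num)
    · exact absurd h2 (by norm_num)

theorem altB_B202L_63 {κ x : ℝ} (hκ : κ * h0 = ken x) (hx : ((536870912 : ℕ) : ℝ) / S ≤ x) (hx' : x ≤ (((536870912 : ℕ) : ℝ) + (50465866 : ℕ)) / S) :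
    AltEB 3 κ (eng.v x) (3 / 40) (tnt (h0 * x) (3 / 10)) PP tK tL tC pcB (scP esg pd) [⟨0, 1, 0, 67108864⟩, ⟨1, 0, 0, 67108864⟩, ⟨2, 1, 0, 67108864⟩] 2 0 2 6 3 (sgb true) (sgb true) x := by
  have X : XR 67108864 x := XR.of hx hx' (by norm_num) (by norm_num) (by norm_num) (by norm_num)
  have hen : 0 < eng.v x := en_pos X.x0.le
  refine CornW.altB (C := cB202L) (j := (6 : Fin 7)) (k := (3 : Fin 7)) (Ef := esg) (pd := pd) (o := 3 / 40)
    (cornW_of (C := cB202L) (C0 := c0B) (En := eng) (mo := mog) (j := (6 : Fin 7)) (k := (3 : Fin 7)) (lo := 0) (hi := 3) (W := 67108864) (N0 := 3) cB202L_q (sideB hx hx') gokB (pinU hx hx') dokB X (by norm_num) (by norm_num) (l := (0 : Fin 7)) rfl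
      (gatB62 x) (gatB32 x) (gatB00 x) (datB62 x) (datB32 x) (datB00 x) ?_)
    (cornS_of (C := cB202L) (C0 := c0B) (j := (6 : Fin 7)) (k := (3 : Fin 7)) (lo := 0) (hi := 3) (W := 67108864) (N0 := 3) cB202L_q (sideB hx hx') gokB X (by norm_num) (by norm_num) (l := (0 : Fin 7)) rfl
      (gatB62 x) (gatB32 x) (gatB00 x) ?_)
    (thU (pinU hx hx')) rfl hκ (fun j q y => tC_eq j q y x) (esg_rng X.x0.le (by linarith [X.b, X.p0])).1 (mo_v x) le_rfl le_rfl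
  · intro ρ a B hρ hd i h1 h2
    fin_cases i
    · exact corW_cert (G1 := gB6q2) (G2 := gB3q2) (Ga := gB0q0) (Gb := gB1q0) (D1 := dB6q2) (D2 := dB3q2) (Da := dB0q0) (Db := dB1q0) cB202L_ok B hρ hen (gatB62 x) (gatB32 x) (fun _ => gatB00 x) (fun _ => gatB10 x) (datB62 x) (datB32 x) (fun _ => datB00 x) (fun _ => datB10 x) hd hx hx' CW.B202L_630
    · exact corW_cert (G1 := gB6q2) (G2 := gB3q2) (Ga := gB1q0) (Gb := gB2q0) (D1 := dB6q2) (D2 := dB3q2) (Da := dB1q0) (Db := dB2q0) cB202L_ok B hρ hen (gatB62 x) (gatB32 x) (fun _ => gatB10 x) (fun _ => gatB20 x) (datB62 x) (datB32 x) (fun _ => datB10 x) (fun _ => datB20 x) hd hx hx' CW.B202L_631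
    · exact corW_cert (G1 := gB6q2) (G2 := gB3q2) (Ga := gB2q0) (Gb := gB3q0) (D1 := dB6q2) (D2 := dB3q2) (Da := dB2q0) (Db := dB3q0) cB202L_ok B hρ hen (gatB62 x) (gatB32 x) (fun _ => gatB20 x) (fun _ => gatB30 x) (datB62 x) (datB32 x) (fun _ => datB20 x) (fun _ => datB30 x) hd hx hx' CW.B202L_632
    · exact corW_cert (G1 := gB6q2) (G2 := gB3q2) (Ga := gB3q0) (Gb := gB4q0) (D1 := dB6q2) (D2 := dB3q2) (Da := dB3q0) (Db := dB4q0) cB202L_ok B hρ hen (gatB62 x) (gatB32 x) (fun _ => gatB30 x) (fun h => absurd h (by decide)) (datB62 x) (datB32 x) (fun _ => datB30 x) (fun h => absurd h (by decide)) hd hx hx' CW.B202L_633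
    · exact absurd h2 (by norm_num)
    · exact absurd h2 (by norm_num)
  · intro ρ a B hρ hd i h1 h2
    fin_cases i
    · exact corT_cert (G1 := gB6q2) (G2 := gB3q2) (Ga := gB0q0) (Gb := gB1q0) cB202L_ok B hρ (gatB62 x) (gatB32 x) (fun _ => gatB00 x) (fun _ => gatB10 x) hd hx hx' CG.B202L_630
    · exact corT_cert (G1 := gB6q2) (G2 := gB3q2) (Ga := gB1q0) (Gb := gB2q0) cB202L_ok B hρ (gatB62 x) (gatB32 x) (fun _ => gatB10 x) (fun _ => gatB20 x) hd hx hx' CG.B202L_631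
    · exact corT_cert (G1 := gB6q2) (G2 := gB3q2) (Ga := gB2q0) (Gb := gB3q0) cB202L_ok B hρ (gatB62 x) (gatB32 x) (fun _ => gatB20 x) (fun _ => gatB30 x) hd hx hx' CG.B202L_632
    · exact corT_cert (G1 := gB6q2) (G2 := gB3q2) (Ga := gB3q0) (Gb := gB4q0) cB202L_ok B hρ (gatB62 x) (gatB32 x) (fun _ => gatB30 x) (fun h => absurd h (by decide)) hd hx hx' CG.B202L_633
    · exact absurd h2 (by norm_num)
    · exact absurd h2 (by norm_num)

theorem altB_B202R_06 {κ x : ℝ} (hκ : κ * h0 = ken x) (hx : ((536870912 : ℕ) : ℝ) / S ≤ x) (hx' : x ≤ (((536870912 : ℕ) : ℝ) + (50465866 : ℕ)) / S) :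
    AltEB 3 κ (eng.v x) (3 / 40) (tnt (h0 * x) (3 / 10)) PP tK tL tC pcB (scP esg pd) [⟨0, 1, 0, 67108864⟩, ⟨1, 0, 0, 67108864⟩, ⟨2, 1, 0, 67108864⟩] 2 0 2 0 6 (sgb false) (sgb false) x := by
  have X : XR 67108864 x := XR.of hx hx' (by norm_num) (by norm_num) (by norm_num) (by norm_num)
  have hen : 0 < eng.v x := en_pos X.x0.le
  refine CornW.altB (C := cB202R) (j := (0 : Fin 7)) (k := (6 : Fin 7)) (Ef := esg) (pd := pd) (o := 3 / 40)
    (cornW_of (C := cB202R) (C0 := c0B) (En := eng) (mo := mog) (j := (0 : Fin 7)) (k := (6 : Fin 7)) (lo := 0) (hi := 3) (W := 67108864) (N0 := 3) cB202R_q (sideB hx hx') gokB (pinU hx hx') dokB X (by norm_num) (by norm_num) (l := (0 : Fin 7)) rfl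
      (gatB02 x) (gatB62 x) (gatB00 x) (datB02 x) (datB62 x) (datB00 x) ?_)
    (cornS_of (C := cB202R) (C0 := c0B) (j := (0 : Fin 7)) (k := (6 : Fin 7)) (lo := 0) (hi := 3) (W := 67108864) (N0 := 3) cB202R_q (sideB hx hx') gokB X (by norm_num) (by norm_num) (l := (0 : Fin 7)) rfl
      (gatB02 x) (gatB62 x) (gatB00 x) ?_)
    (thU (pinU hx hx')) rfl hκ (fun j q y => tC_eq j q y x) (esg_rng X.x0.le (by linarith [X.b, X.p0])).1 (mo_v x) le_rfl le_rfl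
  · intro ρ a B hρ hd i h1 h2
    fin_cases i
    · exact corW_cert (G1 := gB0q2) (G2 := gB6q2) (Ga := gB0q0) (Gb := gB1q0) (D1 := dB0q2) (D2 := dB6q2) (Da := dB0q0) (Db := dB1q0) cB202R_ok B hρ hen (gatB02 x) (gatB62 x) (fun _ => gatB00 x) (fun _ => gatB10 x) (datB02 x) (datB62 x) (fun _ => datB00 x) (fun _ => datB10 x) hd hx hx' CW.B202R_060
    · exact corW_cert (G1 := gB0q2) (G2 := gB6q2) (Ga := gB1q0) (Gb := gB2q0) (D1 := dB0q2) (D2 := dB6q2) (Da := dB1q0) (Db := dB2q0) cB202R_ok B hρ hen (gatB02 x) (gatB62 x) (fun _ => gatB10 x) (fun _ => gatB20 x) (datB02 x) (datB62 x) (fun _ => datB10 x) (fun _ => datB20 x) hd hx hx' CW.B202R_061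
    · exact corW_cert (G1 := gB0q2) (G2 := gB6q2) (Ga := gB2q0) (Gb := gB3q0) (D1 := dB0q2) (D2 := dB6q2) (Da := dB2q0) (Db := dB3q0) cB202R_ok B hρ hen (gatB02 x) (gatB62 x) (fun _ => gatB20 x) (fun _ => gatB30 x) (datB02 x) (datB62 x) (fun _ => datB20 x) (fun _ => datB30 x) hd hx hx' CW.B202R_062
    · exact corW_cert (G1 := gB0q2) (G2 := gB6q2) (Ga := gB3q0) (Gb := gB4q0) (D1 := dB0q2) (D2 := dB6q2) (Da := dB3q0) (Db := dB4q0) cB202R_ok B hρ hen (gatB02 x) (gatB62 x) (fun _ => gatB30 x) (fun h => absurd h (by decide)) (datB02 x) (datB62 x) (fun _ => datB30 x) (fun h => absurd h (by decide)) hd hx hx' CW.B202R_063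
    · exact absurd h2 (by norm_num)
    · exact absurd h2 (by norm_num)
  · intro ρ a B hρ hd i h1 h2
    fin_cases i
    · exact corX_cert (G1 := gB0q2) (G2 := gB6q2) (Ga := gB0q0) (Gb := gB1q0) (GT := gB0q0) cB202R_ok tB202R_ok B hρ (gatB02 x) (gatB62 x) (fun _ => gatB00 x) (fun _ => gatB10 x) rfl (tgh_B202R (kodd x) (gpu2 x) (gpt2 x) (gpu0 x) (gatB02 x) (gatB62 x) (gatB00 x) B (le_sixteenth hd (by norm_num))) hd hx hx' CG.B202R_060
    · exact corT_cert (G1 := gB0q2) (G2 := gB6q2) (Ga := gB1q0) (Gb := gB2q0) cB202R_ok B hρ (gatB02 x) (gatB62 x) (fun _ => gatB10 x) (fun _ => gatB20 x) hd hx hx' CG.B202R_061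
    · exact corT_cert (G1 := gB0q2) (G2 := gB6q2) (Ga := gB2q0) (Gb := gB3q0) cB202R_ok B hρ (gatB02 x) (gatB62 x) (fun _ => gatB20 x) (fun _ => gatB30 x) hd hx hx' CG.B202R_062
    · exact corT_cert (G1 := gB0q2) (G2 := gB6q2) (Ga := gB3q0) (Gb := gB4q0) cB202R_ok B hρ (gatB02 x) (gatB62 x) (fun _ => gatB30 x) (fun h => absurd h (by decide)) hd hx hx' CG.B202R_063
    · exact absurd h2 (by norm_num)
    · exact absurd h2 (by norm_num)

theorem altB_B202R_16 {κ x : ℝ} (hκ : κ * h0 = ken x) (hx : ((536870912 : ℕ) : ℝ) / S ≤ x) (hx' : x ≤ (((536870912 : ℕ) : ℝ) + (50465866 : ℕ)) / S) :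
    AltEB 3 κ (eng.v x) (3 / 40) (tnt (h0 * x) (3 / 10)) PP tK tL tC pcB (scP esg pd) [⟨0, 1, 0, 67108864⟩, ⟨1, 0, 0, 67108864⟩, ⟨2, 1, 0, 67108864⟩] 2 0 2 1 6 (sgb false) (sgb false) x := by
  have X : XR 67108864 x := XR.of hx hx' (by norm_num) (by norm_num) (by norm_num) (by norm_num)
  have hen : 0 < eng.v x := en_pos X.x0.le
  refine CornW.altB (C := cB202R) (j := (1 : Fin 7)) (k := (6 : Fin 7)) (Ef := esg) (pd := pd) (o := 3 / 40)
    (cornW_of (C := cB202R) (C0 := c0B) (En := eng) (mo := mog) (j := (1 : Fin 7)) (k := (6 : Fin 7)) (lo := 0) (hi := 3) (W := 67108864) (N0 := 3) cB202R_q (sideB hx hx') gokB (pinU hx hx') dokB X (by norm_num) (by norm_num) (l := (0 : Fin 7)) rfl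
      (gatB12 x) (gatB62 x) (gatB00 x) (datB12 x) (datB62 x) (datB00 x) ?_)
    (cornS_of (C := cB202R) (C0 := c0B) (j := (1 : Fin 7)) (k := (6 : Fin 7)) (lo := 0) (hi := 3) (W := 67108864) (N0 := 3) cB202R_q (sideB hx hx') gokB X (by norm_num) (by norm_num) (l := (0 : Fin 7)) rfl
      (gatB12 x) (gatB62 x) (gatB00 x) ?_)
    (thU (pinU hx hx')) rfl hκ (fun j q y => tC_eq j q y x) (esg_rng X.x0.le (by linarith [X.b, X.p0])).1 (mo_v x) le_rfl le_rfl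
  · intro ρ a B hρ hd i h1 h2
    fin_cases i
    · exact corW_cert (G1 := gB1q2) (G2 := gB6q2) (Ga := gB0q0) (Gb := gB1q0) (D1 := dB1q2) (D2 := dB6q2) (Da := dB0q0) (Db := dB1q0) cB202R_ok B hρ hen (gatB12 x) (gatB62 x) (fun _ => gatB00 x) (fun _ => gatB10 x) (datB12 x) (datB62 x) (fun _ => datB00 x) (fun _ => datB10 x) hd hx hx' CW.B202R_160
    · exact corW_cert (G1 := gB1q2) (G2 := gB6q2) (Ga := gB1q0) (Gb := gB2q0) (D1 := dB1q2) (D2 := dB6q2) (Da := dB1q0) (Db := dB2q0) cB202R_ok B hρ hen (gatB12 x) (gatB62 x) (fun _ => gatB10 x) (fun _ => gatB20 x) (datB12 x) (datB62 x) (fun _ => datB10 x) (fun _ => datB20 x) hd hx hx' CW.B202R_161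
    · exact corW_cert (G1 := gB1q2) (G2 := gB6q2) (Ga := gB2q0) (Gb := gB3q0) (D1 := dB1q2) (D2 := dB6q2) (Da := dB2q0) (Db := dB3q0) cB202R_ok B hρ hen (gatB12 x) (gatB62 x) (fun _ => gatB20 x) (fun _ => gatB30 x) (datB12 x) (datB62 x) (fun _ => datB20 x) (fun _ => datB30 x) hd hx hx' CW.B202R_162
    · exact corW_cert (G1 := gB1q2) (G2 := gB6q2) (Ga := gB3q0) (Gb := gB4q0) (D1 := dB1q2) (D2 := dB6q2) (Da := dB3q0) (Db := dB4q0) cB202R_ok B hρ hen (gatB12 x) (gatB62 x) (fun _ => gatB30 x) (fun h => absurd h (by decide)) (datB12 x) (datB62 x) (fun _ => datB30 x) (fun h => absurd h (by decide)) hd hx hx' CW.B202R_163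
    · exact absurd h2 (by norm_num)
    · exact absurd h2 (by norm_num)
  · intro ρ a B hρ hd i h1 h2
    fin_cases i
    · exact corT_cert (G1 := gB1q2) (G2 := gB6q2) (Ga := gB0q0) (Gb := gB1q0) cB202R_ok B hρ (gatB12 x) (gatB62 x) (fun _ => gatB00 x) (fun _ => gatB10 x) hd hx hx' CG.B202R_160
    · exact corT_cert (G1 := gB1q2) (G2 := gB6q2) (Ga := gB1q0) (Gb := gB2q0) cB202R_ok B hρ (gatB12 x) (gatB62 x) (fun _ => gatB10 x) (fun _ => gatB20 x) hd hx hx' CG.B202R_161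
    · exact corT_cert (G1 := gB1q2) (G2 := gB6q2) (Ga := gB2q0) (Gb := gB3q0) cB202R_ok B hρ (gatB12 x) (gatB62 x) (fun _ => gatB20 x) (fun _ => gatB30 x) hd hx hx' CG.B202R_162
    · exact corT_cert (G1 := gB1q2) (G2 := gB6q2) (Ga := gB3q0) (Gb := gB4q0) cB202R_ok B hρ (gatB12 x) (gatB62 x) (fun _ => gatB30 x) (fun h => absurd h (by decide)) hd hx hx' CG.B202R_163
    · exact absurd h2 (by norm_num)
    · exact absurd h2 (by norm_num)

theorem altB_B202R_26 {κ x : ℝ} (hκ : κ * h0 = ken x) (hx : ((536870912 : ℕ) : ℝ) / S ≤ x) (hx' : x ≤ (((536870912 : ℕ) : ℝ) + (50465866 : ℕ)) / S) :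
    AltEB 3 κ (eng.v x) (3 / 40) (tnt (h0 * x) (3 / 10)) PP tK tL tC pcB (scP esg pd) [⟨0, 1, 0, 67108864⟩, ⟨1, 0, 0, 67108864⟩, ⟨2, 1, 0, 67108864⟩] 2 0 2 2 6 (sgb false) (sgb false) x := by
  have X : XR 67108864 x := XR.of hx hx' (by norm_num) (by norm_num) (by norm_num) (by norm_num)
  have hen : 0 < eng.v x := en_pos X.x0.le
  refine CornW.altB (C := cB202R) (j := (2 : Fin 7)) (k := (6 : Fin 7)) (Ef := esg) (pd := pd) (o := 3 / 40)
    (cornW_of (C := cB202R) (C0 := c0B) (En := eng) (mo := mog) (j := (2 : Fin 7)) (k := (6 : Fin 7)) (lo := 0) (hi := 3) (W := 67108864) (N0 := 3) cB202R_q (sideB hx hx') gokB (pinU hx hx') dokB X (by norm_num) (by norm_num) (l := (0 : Fin 7)) rfl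
      (gatB22 x) (gatB62 x) (gatB00 x) (datB22 x) (datB62 x) (datB00 x) ?_)
    (cornS_of (C := cB202R) (C0 := c0B) (j := (2 : Fin 7)) (k := (6 : Fin 7)) (lo := 0) (hi := 3) (W := 67108864) (N0 := 3) cB202R_q (sideB hx hx') gokB X (by norm_num) (by norm_num) (l := (0 : Fin 7)) rfl
      (gatB22 x) (gatB62 x) (gatB00 x) ?_)
    (thU (pinU hx hx')) rfl hκ (fun j q y => tC_eq j q y x) (esg_rng X.x0.le (by linarith [X.b, X.p0])).1 (mo_v x) le_rfl le_rfl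
  · intro ρ a B hρ hd i h1 h2
    fin_cases i
    · exact corW_cert (G1 := gB2q2) (G2 := gB6q2) (Ga := gB0q0) (Gb := gB1q0) (D1 := dB2q2) (D2 := dB6q2) (Da := dB0q0) (Db := dB1q0) cB202R_ok B hρ hen (gatB22 x) (gatB62 x) (fun _ => gatB00 x) (fun _ => gatB10 x) (datB22 x) (datB62 x) (fun _ => datB00 x) (fun _ => datB10 x) hd hx hx' CW.B202R_260
    · exact corW_cert (G1 := gB2q2) (G2 := gB6q2) (Ga := gB1q0) (Gb := gB2q0) (D1 := dB2q2) (D2 := dB6q2) (Da := dB1q0) (Db := dB2q0) cB202R_ok B hρ hen (gatB22 x) (gatB62 x) (fun _ => gatB10 x) (fun _ => gatB20 x) (datB22 x) (datB62 x) (fun _ => datB10 x) (fun _ => datB20 x) hd hx hx' CW.B202R_261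
    · exact corW_cert (G1 := gB2q2) (G2 := gB6q2) (Ga := gB2q0) (Gb := gB3q0) (D1 := dB2q2) (D2 := dB6q2) (Da := dB2q0) (Db := dB3q0) cB202R_ok B hρ hen (gatB22 x) (gatB62 x) (fun _ => gatB20 x) (fun _ => gatB30 x) (datB22 x) (datB62 x) (fun _ => datB20 x) (fun _ => datB30 x) hd hx hx' CW.B202R_262
    · exact corW_cert (G1 := gB2q2) (G2 := gB6q2) (Ga := gB3q0) (Gb := gB4q0) (D1 := dB2q2) (D2 := dB6q2) (Da := dB3q0) (Db := dB4q0) cB202R_ok B hρ hen (gatB22 x) (gatB62 x) (fun _ => gatB30 x) (fun h => absurd h (by decide)) (datB22 x) (datB62 x) (fun _ => datB30 x) (fun h => absurd h (by decide)) hd hx hx' CW.B202R_263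
    · exact absurd h2 (by norm_num)
    · exact absurd h2 (by norm_num)
  · intro ρ a B hρ hd i h1 h2
    fin_cases i
    · exact corT_cert (G1 := gB2q2) (G2 := gB6q2) (Ga := gB0q0) (Gb := gB1q0) cB202R_ok B hρ (gatB22 x) (gatB62 x) (fun _ => gatB00 x) (fun _ => gatB10 x) hd hx hx' CG.B202R_260
    · exact corT_cert (G1 := gB2q2) (G2 := gB6q2) (Ga := gB1q0) (Gb := gB2q0) cB202R_ok B hρ (gatB22 x) (gatB62 x) (fun _ => gatB10 x) (fun _ => gatB20 x) hd hx hx' CG.B202R_261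
    · exact corT_cert (G1 := gB2q2) (G2 := gB6q2) (Ga := gB2q0) (Gb := gB3q0) cB202R_ok B hρ (gatB22 x) (gatB62 x) (fun _ => gatB20 x) (fun _ => gatB30 x) hd hx hx' CG.B202R_262
    · exact corT_cert (G1 := gB2q2) (G2 := gB6q2) (Ga := gB3q0) (Gb := gB4q0) cB202R_ok B hρ (gatB22 x) (gatB62 x) (fun _ => gatB30 x) (fun h => absurd h (by decide)) hd hx hx' CG.B202R_263
    · exact absurd h2 (by norm_num)
    · exact absurd h2 (by norm_num)

theorem altB_B202R_36 {κ x : ℝ} (hκ : κ * h0 = ken x) (hx : ((536870912 : ℕ) : ℝ) / S ≤ x) (hx' : x ≤ (((536870912 : ℕ) : ℝ) + (50465866 : ℕ)) / S) :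
    AltEB 3 κ (eng.v x) (3 / 40) (tnt (h0 * x) (3 / 10)) PP tK tL tC pcB (scP esg pd) [⟨0, 1, 0, 67108864⟩, ⟨1, 0, 0, 67108864⟩, ⟨2, 1, 0, 67108864⟩] 2 0 2 3 6 (sgb false) (sgb false) x := by
  have X : XR 67108864 x := XR.of hx hx' (by norm_num) (by norm_num) (by norm_num) (by norm_num)
  have hen : 0 < eng.v x := en_pos X.x0.le
  refine CornW.altB (C := cB202R) (j := (3 : Fin 7)) (k := (6 : Fin 7)) (Ef := esg) (pd := pd) (o := 3 / 40)
    (cornW_of (C := cB202R) (C0 := c0B) (En := eng) (mo := mog) (j := (3 : Fin 7)) (k := (6 : Fin 7)) (lo := 0) (hi := 3) (W := 67108864) (N0 := 3) cB202R_q (sideB hx hx') gokB (pinU hx hx') dokB X (by norm_num) (by norm_num) (l := (0 : Fin 7)) rfl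
      (gatB32 x) (gatB62 x) (gatB00 x) (datB32 x) (datB62 x) (datB00 x) ?_)
    (cornS_of (C := cB202R) (C0 := c0B) (j := (3 : Fin 7)) (k := (6 : Fin 7)) (lo := 0) (hi := 3) (W := 67108864) (N0 := 3) cB202R_q (sideB hx hx') gokB X (by norm_num) (by norm_num) (l := (0 : Fin 7)) rfl
      (gatB32 x) (gatB62 x) (gatB00 x) ?_)
    (thU (pinU hx hx')) rfl hκ (fun j q y => tC_eq j q y x) (esg_rng X.x0.le (by linarith [X.b, X.p0])).1 (mo_v x) le_rfl le_rfl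
  · intro ρ a B hρ hd i h1 h2
    fin_cases i
    · exact corW_cert (G1 := gB3q2) (G2 := gB6q2) (Ga := gB0q0) (Gb := gB1q0) (D1 := dB3q2) (D2 := dB6q2) (Da := dB0q0) (Db := dB1q0) cB202R_ok B hρ hen (gatB32 x) (gatB62 x) (fun _ => gatB00 x) (fun _ => gatB10 x) (datB32 x) (datB62 x) (fun _ => datB00 x) (fun _ => datB10 x) hd hx hx' CW.B202R_360
    · exact corW_cert (G1 := gB3q2) (G2 := gB6q2) (Ga := gB1q0) (Gb := gB2q0) (D1 := dB3q2) (D2 := dB6q2) (Da := dB1q0) (Db := dB2q0) cB202R_ok B hρ hen (gatB32 x) (gatB62 x) (fun _ => gatB10 x) (fun _ => gatB20 x) (datB32 x) (datB62 x) (fun _ => datB10 x) (fun _ => datB20 x) hd hx hx' CW.B202R_361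
    · exact corW_cert (G1 := gB3q2) (G2 := gB6q2) (Ga := gB2q0) (Gb := gB3q0) (D1 := dB3q2) (D2 := dB6q2) (Da := dB2q0) (Db := dB3q0) cB202R_ok B hρ hen (gatB32 x) (gatB62 x) (fun _ => gatB20 x) (fun _ => gatB30 x) (datB32 x) (datB62 x) (fun _ => datB20 x) (fun _ => datB30 x) hd hx hx' CW.B202R_362
    · exact corW_cert (G1 := gB3q2) (G2 := gB6q2) (Ga := gB3q0) (Gb := gB4q0) (D1 := dB3q2) (D2 := dB6q2) (Da := dB3q0) (Db := dB4q0) cB202R_ok B hρ hen (gatB32 x) (gatB62 x) (fun _ => gatB30 x) (fun h => absurd h (by decide)) (datB32 x) (datB62 x) (fun _ => datB30 x) (fun h => absurd h (by decide)) hd hx hx' CW.B202R_363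
    · exact absurd h2 (by norm_num)
    · exact absurd h2 (by norm_num)
  · intro ρ a B hρ hd i h1 h2
    fin_cases i
    · exact corT_cert (G1 := gB3q2) (G2 := gB6q2) (Ga := gB0q0) (Gb := gB1q0) cB202R_ok B hρ (gatB32 x) (gatB62 x) (fun _ => gatB00 x) (fun _ => gatB10 x) hd hx hx' CG.B202R_360
    · exact corT_cert (G1 := gB3q2) (G2 := gB6q2) (Ga := gB1q0) (Gb := gB2q0) cB202R_ok B hρ (gatB32 x) (gatB62 x) (fun _ => gatB10 x) (fun _ => gatB20 x) hd hx hx' CG.B202R_361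
    · exact corT_cert (G1 := gB3q2) (G2 := gB6q2) (Ga := gB2q0) (Gb := gB3q0) cB202R_ok B hρ (gatB32 x) (gatB62 x) (fun _ => gatB20 x) (fun _ => gatB30 x) hd hx hx' CG.B202R_362
    · exact corT_cert (G1 := gB3q2) (G2 := gB6q2) (Ga := gB3q0) (Gb := gB4q0) cB202R_ok B hρ (gatB32 x) (gatB62 x) (fun _ => gatB30 x) (fun h => absurd h (by decide)) hd hx hx' CG.B202R_363
    · exact absurd h2 (by norm_num)
    · exact absurd h2 (by norm_num)

end Pool.Agent.Strip051.G.I5000_5470.Tab
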