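import Pool.Agent.Strip051.G.I5000_5470.Tab

/-! # Certificates B14 (generated) -/

set_option linter.all false
set_option maxRecDepth 100000

namespace Pool.Agent.Strip051.G.I5000_5470.Tab.C.BB01

open Pool.Agent.Strip051.PB Pool.Agent.Strip051.PB.T
open Pool.Agent.Strip051.G.I5000_5470.Tab

noncomputable def cut_pp_012_a : Cut := Cut.of [[⟨0, 0, 0, 67108864⟩, ⟨1, 1, 0, 67108864⟩, ⟨2, 1, 0, 67108864⟩]]

noncomputable def f_pp_012_a : ℕ → ℕ → ℕ → ℕ → Bool := onCell 536870912 536870912 0 536870912 536870912 50465866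
    (rowB 3 eng mog cd0q0 cd1q2a pd1 2 false true true .pnp 0 1 2 (qsf 0 536870912 0 536870912 1) ndB0q0 ndB1q2a pcB1 cut_pp_012_a Ext.none)

def k0_pp_012_a : ∃ t, chk3 f_pp_012_a t 4 1 1 = true :=
  ⟨(b (l 3) (l 3)), by decide +kernel⟩

def k1_pp_012_a : ∃ t, chk3 f_pp_012_a t 20 8 1 = true :=
  ⟨(b (a (l 2) (a (l 2) (a (l 2) (b (b (l 16766088) (l 16776416)) (b (a (l 2) (b (l 16776616) (a (b (b (l 16775680) (a (b (l 16776176) (a (c (l 100025760871) (l 104320728167)) (c (l 72645344119) (l 76940311415)))) (l 16776000))) (b (a (l 125795564423) (a (b (c (l 91972697159) (l 96804535303)) (l 3)) (b (l 66202893591) (l 114521274903)))) (l 3))) (b (l 16775280) (b (a (a (b (l 16776120) (c (l 83919633367) (l 88751471591))) (l 54391733495)) (l 16775864)) (b (a (c (l 109689437079) (l 115058145447)) (a (c (l 76403440487) (l 80698407703)) (l 16776136))) (a (l 3) (a (l 3) (c (l 95730793367) (l 100562631591)))))))))) (l 3)))))) (l 3)), by decide +kernel⟩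

def k2_pp_012_a : ∃ t, chk3 f_pp_012_a t 21 32 1 = true :=
  ⟨(a (a (c (l 16774832) (l 16773912)) (l 16767896)) (a (l 16750856) (l 16744248))), by decide +kernel⟩

def k3_pp_012_a : ∃ t, chk3 f_pp_012_a t 84 66 1 = true :=
  ⟨(a (b (l 16771736) (a (b (l 16774240) (a (a (a (b (l 16775632) (c (l 59760442039) (l 64592280247))) (l 16775720)) (l 16775480)) (l 16774976))) (l 16773336))) (l 16775056)), by decide +kernel⟩

def k4_pp_012_a : ∃ t, chk3 f_pp_012_a t 84 134 1 = true :=
  ⟨(a (a (b (a (b (a (a (l 121500596839) (b (c (l 87677729655) (l 92509567863)) (l 3))) (a (b (l 61907926311) (l 110226307399)) (b (l 16776000) (c (l 79624665847) (l 84456504071))))) (l 3)) (a (b (l 50633636887) (b (a (c (l 99488889655) (l 104320727863)) (c (l 71571602039) (l 76403440183))) (l 123111209415))) (b (l 16775576) (b (l 16775936) (a (c (l 91435825927) (l 96267664071)) (l 65129151671)))))) (a (l 3) (a (l 3) (c (l 120963726535) (l 126332434871))))) (a (b (c (l 16775528) (l 16775144)) (a (b (b (a (c (l 83382762119) (l 88214600343))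 (l 57612958679)) (c (l 108615694919) (l 113984403319))) (l 3)) (a (b (b (l 16775872) (a (l 83919633015) (l 66739764183))) (l 3)) (b (l 16775840) (a (l 115595016423) (b (l 91435825543) (l 3))))))) (b (l 16774656) (b (l 16775440) (a (b (c (l 61371054455) (l 66202892711)) (a (l 117205629031) (c (l 86603987463) (l 91435825703)))) (c (l 51170507495) (l 56539216151))))))) (a (c (l 16776952) (l 16776536)) (l 16772624))), by decide +kernel⟩

def k5_pp_012_a : ∃ t, chk3 f_pp_012_a t 84 135 1 = true :=
  ⟨(b (b (a (a (l 3) (a (l 3) (a (l 3) (b (a (l 109152565223) (c (l 78550923639) (l 83382761895))) (l 3))))) (a (a (a (b (l 51170507479) (a (c (l 97878276615) (l 102710114791)) (c (l 70497859815) (l 75329698071)))) (l 16775616)) (l 16775120)) (l 16774048))) (a (l 3) (a (a (a (l 123111209255) (a (b (a (l 102710114327) (l 84456504087)) (l 3)) (b (c (l 62444795943) (l 67276634167)) (l 112373790567)))) (a (a (b (l 16775744) (c (l 81235278135) (l 86067116327))) (l 52244249079)) (l 16775456))) (l 16775904)))) (a (l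 3) (a (a (l 3) (b (b (a (c (l 106468210887) (l 112373790215)) (a (a (l 81772149463) (l 65129151047)) (l 16775744))) (a (l 3) (a (l 3) (a (l 105931339831) (l 88214600407))))) (l 3))) (a (a (a (b (c (l 57076086807) (l 61907924967)) (l 118816241575)) (b (l 16775544) (b (c (l 84456503463) (l 89288341655)) (l 3)))) (b (l 16775296) (a (b (l 58686699943) (l 107005081175)) (b (l 16775584) (c (l 76403439623) (l 81235277831)))))) (c (l 16776520) (l 36674991783)))))), by decide +kernel⟩

def k6_pp_012_a : ∃ t, chk3 f_pp_012_a t 85 33 1 = true :=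
  ⟨(b (c (l 16765352) (l 16775080)) (a (a (c (l 16777704) (l 16777256)) (l 16770664)) (l 16768240))), by decide +kernel⟩

def k7_pp_012_a : ∃ t, chk3 f_pp_012_a t 43 33 1 = true :=
  ⟨(a (c (l 16771672) (l 16770896)) (l 16764600)), by decide +kernel⟩

def k8_pp_012_a : ∃ t, chk3 f_pp_012_a t 84 34 1 = true :=
  ⟨(b (a (l 3) (b (b (a (l 3) (a (l 3) (a (b (b (a (c (l 95193921607) (l 100562630743)) (c (l 67813504871) (l 73182213927))) (l 119353112279)) (l 3)) (b (a (b (l 16775584) (c (l 87140857927) (l 91972696087))) (c (l 53317990247) (l 58686699143))) (c (l 113447532647) (l 119353112007)))))) (l 3)) (l 3))) (l 3)), by decide +kernel⟩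

def k9_pp_012_a : ∃ t, chk3 f_pp_012_a t 170 68 1 = true :=
  ⟨(b (a (a (a (b (b (l 16775296) (b (a (c (l 79087794087) (l 83919632247)) (l 53317990423)) (c (l 104320726775) (l 110226306167)))) (l 3)) (b (b (l 16774952) (a (b (l 16775424) (c (l 70497859335) (l 75866568423))) (l 16775376))) (b (b (a (l 120426853815) (c (l 89825212311) (l 95193921319))) (l 3)) (l 3)))) (b (c (l 16774848) (l 16774520)) (b (a (b (c (l 57076086359) (l 61907924535)) (a (l 112373789975) (c (l 81235277559) (l 86603986647)))) (c (l 16775440) (l 52781118855))) (a (l 3) (a (c (l 108078823047) (l 113984402455)) (b (c (l 73182213703) (l 78550922727)) (l 3))))))) (b (l 16773576) (a (b (l 16774768) (a (b (l 46338668295) (a (c (l 91972695783) (l 97341404807)) (c (l 64592278935) (l 69960987975)))) (l 16776424))) (l 16776928)))) (b (a (l 3) (a (a (c (l 117742500023) (l 124184950295)) (b (b (a (c (l 83919631927) (l 89288341047)) (c (l 16775544) (l 61907924135))) (c (l 107541951879) (l 113447531319))) (l 3))) (b (a (b (l 16775152) (a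 (c (l 75329697159) (c (l 79624664375) (l 82309018647))) (l 50096764343))) (l 16774928)) (a (a (l 3) (b (c (l 94657050135) (l 100025759207)) (l 3))) (a (b (c (l 67276633287) (l 72645342359)) (l 117205627831)) (b (l 16775232) (c (a (l 96267662535) (l 79624664167)) (l 91435824439)))))))) (l 3))), by decide +kernel⟩

def k10_pp_012_a : ∃ t, chk3 f_pp_012_a t 171 68 1 = true :=
  ⟨(b (c (l 16777240) (l 16776864)) (a (a (a (b (c (c (l 43654313319) (l 46338667607)) (c (l 49559892967) (l 52244247239))) (b (b (b (a (l 102173242999) (a (l 69424116951) (l 16775288))) (c (l 102710113255) (l 108615692759))) (l 3)) (l 3))) (b (l 16774472) (b (b (c (l 16775256) (l 16775000)) (a (c (l 96804533575) (l 102173242663)) (c (l 69424116727) (c (l 73719083975) (l 76403438263))))) (l 120426853495)))) (b (l 16773912) (b (c (l 16774856) (l 16774600)) (a (b (a (b (a (l 90362082487) (l 62981665815)) (l 111836919303)) (c (l 60297311031) (l 66202891063))) (c (l 110763176935) (l 116668756439))) (a (b (l 16775032) (c (c (l 78550922423)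 (l 81235276967)) (c (l 83919631287) (l 87140856503)))) (c (l 16775760) (l 53317988887))))))) (a (c (l 16775152) (l 16774880)) (l 16775560)))), by decide +kernel⟩

def k11_pp_012_a : ∃ t, chk3 f_pp_012_a t 85 69 1 = true :=
  ⟨(a (l 3) (b (a (a (l 3) (a (l 3) (b (a (l 3) (b (a (l 117742498519) (c (l 104857596711) (l 110763176247))) (l 3))) (l 3)))) (a (b (a (b (a (b (c (c (l 69960987623) (l 72645342183)) (c (l 75866567415) (l 78550921735))) (l 3)) (b (l 45801796279) (b (c (l 79087792775) (l 84456501927)) (l 115058144391)))) (l 3)) (a (b (b (l 16774840) (c (l 61907923847) (l 68350374519))) (a (l 3) (l 115058143767))) (b (l 16775448) (b (c (c (l 80161534951) (l 82845889463)) (c (l 86067114727) (l 89288339959))) (l 3))))) (l 3)) (b (a (b (l 16774512) (b (c (l 49023021911) (l 55465472423)) (a (c (l 101636370839) (l 107541950423)) (c (c (l 71571600151) (l 74792825591)) (c (l 77477179943) (l 80698405191)))))) (c (l 39896216055) (l 45801795655))) (b (a (l 3) (a (b (b (c (l 81772147159) (l 87677727191)) (l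 3)) (l 3)) (b (b (l 16774920) (c (l 75866566951) (l 81235276167))) (l 115058143383)))) (l 3))))) (l 3))), by decide +kernel⟩

def k12_pp_012_a : ∃ t, chk3 f_pp_012_a t 42 35 1 = true :=
  ⟨(l 3), by decide +kernel⟩

def k13_pp_012_a : ∃ t, chk3 f_pp_012_a t 172 68 1 = true :=
  ⟨(c (l 16775192) (l 16774808)), by decide +kernel⟩

def k14_pp_012_a : ∃ t, chk3 f_pp_012_a t 172 138 1 = true :=
  ⟨(a (b (c (l 16776192) (l 16773344)) (a (b (a (a (b (l 16774808) (a (c (l 93583307239) (l 98952016375)) (c (l 76403437959) (l 82309017927)))) (b (l 16774624) (c (l 54928601527) (l 61907923015)))) (c (l 16774568) (l 16774376))) (a (c (c (l 108078822071) (l 111300047335)) (l 116131885207)) (a (b (a (c (l 82845888871) (l 88751468855)) (c (l 65666019831) (l 72108470407))) (l 3)) (b (c (l 16774872) (l 16774688)) (b (c (l 84456501463) (l 90362081543)) (l 3)))))) (a (a (b (l 16774192) (b (l 16774600) (b (c (l 16774880) (l 16774712)) (c (l 78014050743) (l 83919630503))))) (c (l 16774368) (l 16774176))) (c (l 16774080)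 (l 16773896))))) (c (l 16775176) (l 16774952))), by decide +kernel⟩

def k15_pp_012_a : ∃ t, chk3 f_pp_012_a t 172 139 1 = true :=
  ⟨(a (b (a (l 3) (b (b (b (a (a (l 115595013943) (c (l 72108470599) (l 78014050375))) (a (l 16774696) (l 16774512))) (a (c (l 109689434151) (l 115595013815)) (a (c (l 64592277639) (l 71571599255)) (l 16774648)))) (a (l 3) (a (c (l 104857595783) (l 110763175479)) (b (c (l 58149826583) (l 65129148135)) (c (l 93583306807) (l 99488886759)))))) (l 3))) (l 3)) (b (a (a (b (b (l 16774296) (c (l 45264924599) (l 51707375319))) (b (a (b (c (l 86603985079) (l 93046435799)) (l 3)) (b (c (l 16774744) (l 16774592)) (c (c (l 79087792103) (l 82309017527)) (l 86603984759)))) (l 3))) (b (l 16774048) (b (c (l 16774528) (l 16774384)) (a (a (c (l 97341403175) (l 103783853975)) (c (c (l 79087792103) (l 82309017543)) (c (l 84993371959) (l 88214597271)))) (c (c (l 56539213591) (a (l 65666019079) (l 16774616))) (c (l 62981664455) (l 66739760679))))))) (b (l 16773464) (c (l 16775400) (l 16773944))))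 (a (a (l 3) (a (l 3) (b (c (l 109689433991) (l 116131884615)) (l 3)))) (a (b (c (b (b (c (l 51170504391) (l 54391729831)) (a (l 95193919463) (l 54391729719))) (a (l 3) (c (l 96267660743) (l 98952015191)))) (b (a (b (l 67276631543) (l 101636370167)) (l 56002342311)) (c (l 107005078919) (l 110226304215)))) (l 3)) (b (a (b (c (l 16774392) (l 16774264)) (b (c (l 16774592) (l 16774472)) (c (c (l 81772146359) (l 84456500903)) (c (l 87677726247) (l 90898951575))))) (c (l 16774336) (l 16774216))) (b (a (l 3) (b (c (c (l 75329695287) (l 78550920759)) (c (l 81235275207) (l 84456500535))) (c (l 110763175223) (l 117205625927)))) (l 3))))))), by decide +kernel⟩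

def k16_pp_012_a : ∃ t, chk3 f_pp_012_a t 173 34 1 = true :=
  ⟨(b (l 16766432) (a (b (l 16770824) (b (c (l 16772632) (l 16772472)) (a (b (c (l 16773856) (l 16773728)) (b (a (b (c (l 16774384) (l 16774272)) (a (c (c (l 68887244231) (l 72108469703)) (c (l 74255953239) (l 78014049495))) (l 16774376))) (l 16774016)) (a (a (c (l 107541949783) (l 113984400471)) (b (c (c (l 61371051335) (l 64592276823)) (l 69424114951)) (c (l 97341402759) (l 103783853495)))) (a (a (c (l 55465471191) (l 61371051127)) (a (l 16774368) (l 16774320))) (l 16774192))))) (c (l 16773336) (l 16773224))))) (c (l 16774360) (l 16775472)))), by decide +kernel⟩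

def k17_pp_012_a : ∃ t, chk3 f_pp_012_a t 87 34 1 = true :=
  ⟨(a (a (b (l 16763896) (l 16773896)) (l 16775080)) (l 16772560)), by decide +kernel⟩

def k18_pp_012_a : ∃ t, chk3 f_pp_012_a t 172 140 1 = true :=
  ⟨(l 3), by decide +kernel⟩

def k19_pp_012_a : ∃ t, chk3 f_pp_012_a t 346 140 1 = true :=
  ⟨(a (a (l 3) (b (b (b (a (a (l 115595013223) (b (c (l 83382758759) (l 89825209511)) (l 3))) (b (c (l 50633632903) (l 57076083687)) (a (c (l 102173240663) (l 108078820599)) (c (l 74792824039) (l 81235274823))))) (l 3)) (l 3)) (l 3))) (b (b (a (b (c (l 40969956295) (l 16774128)) (a (a (c (l 101636369367) (l 108078820135)) (b (c (l 66202889335) (l 72645340119)) (l 115058142375))) (a (b (l 16774496) (c (l 84456500423) (l 90898951207))) (c (l 50633632711) (l 56539212599))))) (c (l 16773960) (l 16773880))) (b (a (c (l 110226304231) (l 116668754967)) (a (b (a (c (l 76403436615) (l 82309016519)) (c (l 16774344) (l 16774280))) (c (l 99488886007) (l 105931336887))) (a (b (l 16774224) (c (l 67813501815) (l 73719081815)))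 (c (l 16774216) (l 16774152))))) (a (l 3) (a (l 3) (a (l 3) (b (c (l 86067112903) (l 92509563815)) (l 3))))))) (l 3))), by decide +kernel⟩

def k20_pp_012_a : ∃ t, chk3 f_pp_012_a t 347 140 1 = true :=
  ⟨(a (a (b (b (l 16773536) (b (c (l 16773968) (l 16773912)) (a (b (c (c (l 51170503415) (l 54391728871)) (l 59223567063)) (a (c (l 104857594823) (l 110763174823)) (c (a (l 86067112743) (l 69960985287)) (l 83919629111)))) (c (l 44191181383) (l 16774096))))) (b (a (l 3) (a (c (l 107541949367) (l 113984400167)) (b (b (c (c (l 67276630743) (l 70497856199)) (l 74792823511)) (l 3)) (l 3)))) (l 3))) (b (c (l 16773432) (l 16773376)) (b (a (b (b (c (l 16774144) (l 16774112)) (a (c (l 87140854551) (l 93583305511)) (c (l 60297308679) (l 66202888807)))) (c (l 109689432791) (l 116131883623))) (b (c (l 16774016) (l 16773984)) (b (a (c (c (l 76940307095) (l 80161532583)) (l 84993370807)) (c (l 51707373959) (l 16774144))) (c (l 101099498407) (l 107541949287))))) (l 3)))) (b (c (l 16772832) (l 16772768)) (b (a (a (a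 (b (l 16773864) (b (l 16774072) (c (c (l 68887243207) (l 71571597863)) (l 76403436103)))) (c (l 16773904) (l 16773880))) (c (l 16773752) (l 16773728))) (c (l 16773456) (l 16773432))) (b (a (a (b (c (c (l 93046434679) (l 96267660071)) (l 101099498311)) (l 3)) (b (c (c (l 53317986695) (l 56539212183)) (a (l 67276630487) (l 16774032))) (a (c (l 106468207239) (l 113447529047)) (c (a (l 88751466903) (l 72108468583)) (l 86067112519))))) (c (c (l 41506826503) (l 44728052007)) (c (l 16774200) (l 16773848)))) (a (l 3) (b (a (a (c (l 97878272567) (l 104320723559)) (c (c (l 69424114087) (l 72645339591)) (l 76940306935))) (c (l 16774008) (l 16774000))) (a (l 3) (a (c (l 89288337895) (l 95730788967)) (c (c (l 60834179335) (l 64055404919)) (l 68350372263)))))))))), by decide +kernel⟩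

def k21_pp_012_a : ∃ t, chk3 f_pp_012_a t 87 140 1 = true :=
  ⟨(b (a (a (l 16773544) (l 16769912)) (l 16767408)) (a (a (a (b (l 16772848) (c (c (l 16773416) (l 16773432)) (a (l 16773624) (l 16773224)))) (c (l 16772320) (l 16772312))) (l 16773712)) (l 16773840))), by decide +kernel⟩

def k22_pp_012_a : ∃ t, chk3 f_pp_012_a t 86 141 1 = true :=
  ⟨(a (l 3) (a (l 3) (a (l 3) (a (l 3) (b (c (b (c (l 110763174983) (l 113984400423)) (l 3)) (l 120426851799)) (l 3)))))), by decide +kernel⟩

def k23_pp_012_a : ∃ t, chk3 f_pp_012_a t 174 282 1 = true :=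
  ⟨(a (a (a (b (a (b (b (a (c (c (l 79087790535) (l 82309016039)) (l 87140854311)) (c (l 53854857415) (l 16774072))) (c (l 102173240087) (l 109152561911))) (l 3)) (b (b (c (l 16773928) (l 16773920)) (a (c (c (l 70497855863) (l 73719081367)) (l 78550919639)) (c (l 16774032) (l 16774032)))) (c (c (c (l 99488885095) (l 101099497863)) (l 103246981511)) (l 108615690583)))) (l 3)) (b (b (c (l 16773704) (l 16773704)) (c (a (b (c (l 54928599319) (l 58149824823)) (a (l 109152561639) (a (l 91972692295) (l 75329693927)))) (c (l 44728051831) (l 47949277383))) (a (c (b (l 61371050295) (l 94657047239)) (l 81235274471)) (l 52244244791)))) (a (l 3) (a (c (l 108615690903) (l 115595012679)) (b (b (c (c (l 71571597639) (l 74792823159)) (l 79624661431)) (l 3)) (l 3)))))) (a (b (c (l 16773464) (l 16773472)) (a (b (b (c (l 16773968) (l 16773968)) (a (c (l 91435821463) (l 98415143383)) (c (c (l 62981662967) (l 66202888487)) (l 70497855847)))) (c (l 111836916183) (l 118279367063))) (b (c (l 16773848) (l 16773848)) (b (a (c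 (c (l 81235274103) (l 84456499607)) (l 89288337879)) (c (l 56002340983) (l 61907921095))) (c (l 103783852743) (l 110763174567)))))) (b (l 16773072) (a (b (l 16773656) (a (b (c (l 16773936) (l 16773936)) (c (c (l 72645339431) (l 75866564935)) (l 80698403223))) (c (l 43654309927) (l 16773920)))) (c (l 16773608) (l 16773616)))))) (a (c (l 16774088) (l 16772784)) (l 16771976))), by decide +kernel⟩

def k24_pp_012_a : ∃ t, chk3 f_pp_012_a t 174 283 1 = true :=
  ⟨(b (a (b (a (l 3) (a (l 3) (a (c (c (l 101099497767) (l 104320723255)) (l 109689432327)) (b (c (c (c (l 55465470119) (l 57076082903)) (l 59760437479)) (c (l 62981662967) (l 16773992))) (c (c (c (l 88214596183) (l 90362079767)) (l 93046434359)) (l 97878272615)))))) (l 3)) (a (b (a (a (c (c (l 45801793607) (l 48486148263)) (l 52781115639)) (c (l 16773688) (l 16773696))) (l 16774056)) (a (a (a (c (l 106468206839) (l 113447528663)) (b (c (c (l 73719081207) (l 76940306727)) (l 81235274087)) (l 3))) (b (c (l 45264922599) (l 16773936)) (a (c (l 93583305031)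 (l 100025756055)) (c (c (l 64592275623) (l 67813501143)) (l 72645339431))))) (c (l 16773712) (l 16773720)))) (c (l 16772944) (l 16772960)))) (a (l 3) (a (a (l 3) (b (b (a (a (c (c (l 82845886759) (l 86603983191)) (l 91435821463)) (c (c (l 56002340871) (l 59223566391)) (l 63518533767))) (c (l 16773848) (l 16773856))) (a (c (l 105931335831) (l 111836916327)) (a (c (c (l 74255952087) (l 77477177607)) (l 82309015895)) (c (l 49023018887) (l 16773968))))) (c (a (l 3) (c (l 102173239511) (l 105394465015))) (l 112910657927)))) (c (a (b (l 16773632) (a (b (a (a (l 74255951927) (l 57612953559)) (l 16773920)) (c (l 90898950599) (l 94120176119))) (c (l 46338664487) (l 49559890023)))) (l 16773392)) (b (l 16773440) (a (b (c (l 56002341175) (l 58686695703)) (a (l 98952014375) (l 58686695591))) (l 16773568))))))), by decide +kernel⟩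

def k25_pp_012_a : ∃ t, chk3 f_pp_012_a t 175 141 1 = true :=
  ⟨(a (a (c (l 16773120) (l 16771816)) (l 16772968)) (l 16772384)), by decide +kernel⟩

def k26_pp_012_a : ∃ t, chk3 f_pp_012_a t 86 71 1 = true :=
  ⟨(l 3), by decide +kernel⟩

def k27_pp_012_a : ∃ t, chk3 f_pp_012_a t 174 71 1 = true :=
  ⟨(b (a (l 3) (b (a (l 3) (b (a (a (l 3) (a (c (l 109689432583) (l 116668754375)) (b (b (c (c (l 75329693879) (l 78550919399)) (l 83382757687)) (l 3)) (l 3)))) (a (b (b (c (l 46338664439) (l 16773904)) (a (c (l 95193917703) (l 101636368727)) (c (c (l 66739759207) (l 69960984727)) (l 74255952103)))) (l 3)) (b (c (l 16773776) (l 16773784)) (a (c (c (l 94120176183) (l 97341401703)) (l 102173239879)) (b (c (c (l 57612953543) (l 60834179079)) (l 65129146519)) (c (l 104857594087) (l 111836916007))))))) (l 3))) (l 3))) (l 3)), by decide +kernel⟩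

def k28_pp_012_a : ∃ t, chk3 f_pp_012_a t 175 284 1 = true :=
  ⟨(a (a (b (a (a (a (b (l 16773648) (b (c (l 16773864) (l 16773880)) (c (c (l 75866564759) (l 79087790279)) (l 83919628567)))) (b (l 16773544) (c (l 45801793447) (l 16773856)))) (c (l 16773536) (l 16773552))) (c (l 16773240) (l 16773256))) (b (a (a (c (c (l 102710110359) (l 105931335863)) (l 110763174039)) (b (a (c (a (l 75866564599) (l 59223566231)) (l 74792822983)) (c (l 16773888) (l 16773896))) (c (c (l 91972692359) (l 95193917879)) (l 100025756151)))) (c (c (c (l 43117438903) (l 44728051687)) (c (l 45801793527) (l 47412406295))) (c (l 49559890103) (l 16773720)))) (a (l 3) (a (b (a (c (l 105931335879) (l 112373786903)) (c (c (l 76403435639) (l 80161532087)) (l 84456499447))) (l 3)) (b (c (c (l 16773848) (l 16773872)) (l 16773872)) (a (c (l 96804530343) (l 103246981399)) (c (c (l 67813500887) (l 71034726503)) (l 75329693879)))))))) (c (a (c (l 16774456) (l 16774488)) (l 16772768)) (c (l 16774296) (l 16772968)))) (c (l 16771760) (l 16771760))),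 by decide +kernel⟩

def k29_pp_012_a : ∃ t, chk3 f_pp_012_a t 175 285 1 = true :=
  ⟨(a (a (l 3) (a (b (b (b (a (a (c (c (l 86067112039) (l 89825208471)) (l 94120175911)) (c (c (l 59223566231) (l 61907920919)) (l 66739759207))) (c (l 16773792) (l 16773800))) (a (c (l 108078819367) (l 113984399863)) (a (c (c (l 77477177367) (l 80698402967)) (l 84993370327)) (c (l 51707373335) (l 16773912))))) (c (c (l 105394465079) (l 108615690583)) (l 113447528727))) (l 3)) (b (b (c (l 16773576) (l 16773584)) (b (c (a (a (a (l 77477177287) (l 60834178919)) (l 16773864)) (l 16773720)) (c (l 57076082887) (l 59760437415))) (a (c (c (l 92509563223) (l 96267659655)) (l 101099497911)) (c (c (l 53317986231) (l 56002340855)) (l 60834179143))))) (a (l 3) (b (b (c (c (c (l 85530241271) (l 87140854039)) (l 89288337719)) (l 94120175991)) (l 3)) (l 3)))))) (a (a (b (c (l 16773344) (l 16773352)) (a (b (b (c (c (l 16773824) (l 16773848)) (l 16773848)) (a (c (l 97878272119) (l 104320723175)) (c (c (l 68887242663) (l 72108468279))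 (l 76940306551)))) (l 3)) (b (c (l 16773720) (l 16773736)) (a (c (c (l 95193917911) (l 98952014327)) (l 103783852503)) (b (c (c (l 60297308007) (l 62981662695)) (l 67813500983)) (c (l 107541948551) (l 113984399559))))))) (b (l 16772960) (a (a (b (l 16773592) (b (c (l 16773816) (l 16773824)) (c (c (l 78550919143) (l 81772144743)) (l 86067112103)))) (c (c (l 40433084199) (l 43654309735)) (l 47949277015))) (c (l 16773488) (l 16773504))))) (c (c (l 16772656) (l 16772680)) (l 16772680)))), by decide +kernel⟩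

def k30_pp_012_a : ∃ t, chk3 f_pp_012_a t 175 143 1 = true :=
  ⟨(a (l 3) (b (b (a (b (a (l 3) (a (c (l 105394464855) (l 111836915751)) (b (c (c (c (l 59223566279) (l 60834179047)) (l 63518533655)) (l 67813501015)) (c (c (l 93583304999) (l 96804530519)) (l 101636368775))))) (l 3)) (a (a (b (c (c (c (l 47412406135) (l 48486148007)) (l 50633631687)) (l 54928599063)) (b (c (c (c (l 86067112135) (l 87677724919)) (l 90362079495)) (l 94657046855)) (l 3))) (c (b (l 16773584) (b (c (l 47412406087) (l 16773832)) (a (l 98952013863) (a (l 79087789959) (l 62444791591))))) (b (l 16773592) (b (l 16773824) (l 88214595847))))) (c (c (l 16773432) (l 16773456)) (l 16774112)))) (a (l 3) (a (l 3) (b (a (b (a (c (l 89825208359) (l 95730788551)) (c (c (l 60834178871) (l 64055404487)) (l 68350371847))) (c (l 109689432007) (l 116131882919))) (c (b (l 16773752) (a (c (l 79087790023) (l 82309015623)) (l 53317986039))) (c (l 62981662935) (l 66202888359)))) (c (c (l 105931335911) (l 109152561399)) (l 113984399543)))))) (l 3))),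 by decide +kernel⟩

def k31_pp_012_a : ∃ t, chk3 f_pp_012_a t 10 9 1 = true :=
  ⟨(l 3), by decide +kernel⟩

def k32_pp_012_a : ∃ t, chk3 f_pp_012_a t 10 5 1 = true :=
  ⟨(l 3), by decide +kernel⟩

def k33_pp_012_a : ∃ t, chk3 f_pp_012_a t 22 16 1 = true :=
  ⟨(a (a (c (l 16743320) (l 16762976)) (c (l 16758128) (l 16756560))) (a (l 16750688) (b (l 16718240) (l 16727760)))), by decide +kernel⟩

def k34_pp_012_a : ∃ t, chk3 f_pp_012_a t 22 34 1 = true :=
  ⟨(a (a (c (l 16767840) (l 16767320)) (a (l 16752256) (l 16749032))) (a (l 16744000) (l 16737296))), by decide +kernel⟩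

def k35_pp_012_a : ∃ t, chk3 f_pp_012_a t 88 35 1 = true :=
  ⟨(a (a (b (l 16772048) (b (c (l 16773424) (l 16770792)) (b (c (a (b (l 16772856) (a (b (l 16773536) (a (b (c (c (l 59760437159) (l 61371050007)) (l 64055404519)) (c (l 93583304967) (l 97341401399))) (c (c (l 47412406119) (l 49023018887)) (l 51170502567)))) (l 16773304))) (l 16772384)) (b (l 16772456) (a (b (l 16773344) (a (a (b (l 68350371879) (l 102173239575)) (l 55465470023)) (l 16773472))) (l 16772712)))) (a (b (a (a (l 3) (b (c (c (c (b (l 86603983031) (l 3)) (l 95730788247)) (l 98415142823)) (l 103246980983)) (l 3))) (a (b (b (c (c (l 47412406055) (l 16773816)) (l 16773808)) (c (a (l 99488884743) (a (l 80161531751) (l 62981662471))) (l 88751466711))) (l 3)) (c (b (l 16773688) (b (a (l 90362079239) (c (l 61371049767) (l 64055404455))) (l 109689431991))) (b (l 16773688) (b (l 81772144791) (l 115595012471)))))) (l 3)) (a (b (a (b (c (l 16773496) (l 16773496)) (b (c (l 16773736) (l 16773736)) (c (a (a (l 91435820967) (l 74792822599)) (l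 53854856919)) (l 75329693767)))) (c (l 16773464) (l 16773464))) (a (c (l 108615690599) (l 115058141431)) (b (b (c (c (c (l 60297308039) (l 61907920823)) (l 64055404583)) (l 68350371847)) (c (c (l 94120175863) (l 97341401367)) (l 102173239607))) (l 3)))) (b (c (l 16773168) (l 16773168)) (a (b (c (a (c (l 51170502519) (l 54391728039)) (l 16773696)) (l 55465469975)) (c (c (c (l 94120175463) (l 95730788215)) (l 98415142791)) (l 103246980951))) (b (c (l 16773552) (l 16773552)) (b (c (c (l 47412406039) (l 16773800)) (l 16773792)) (c (c (c (l 79624661159) (l 81772144839)) (l 83919628503)) (l 88751466711))))))))))) (b (l 16765144) (b (l 16769168) (a (b (l 16771592) (c (a (c (l 34527503911) (l 16774416)) (l 16772704)) (c (l 16774216) (l 16772880)))) (c (l 16771448) (l 16771432)))))) (b (l 16762672) (a (c (l 16774144) (l 16768848)) (l 16772504)))), by decide +kernel⟩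

def k36_pp_012_a : ∃ t, chk3 f_pp_012_a t 89 35 1 = true :=
  ⟨(b (a (l 16759424) (l 16756176)) (a (l 16775304) (l 16772056))), by decide +kernel⟩

def k37_pp_012_a : ∃ t, chk3 f_pp_012_a t 45 35 1 = true :=
  ⟨(a (c (l 16764576) (l 16764144)) (l 16757744)), by decide +kernel⟩

def k38_pp_012_a : ∃ t, chk3 f_pp_012_a t 176 72 1 = true :=
  ⟨(b (a (l 3) (b (a (a (b (b (a (b (c (a (l 90362079223) (a (l 68887242519) (l 16773848))) (l 81772144759)) (c (l 110226302871) (l 115595012423))) (b (c (l 16773728) (l 16773720)) (c (c (c (l 66739759127) (l 68350371895)) (l 70497855575)) (l 75329693783)))) (c (c (l 105931335879) (l 109152561351)) (l 113984399463))) (l 3)) (b (b (c (l 16773520) (l 16773504)) (a (b (c (c (c (l 60297308039) (l 61907920807)) (l 64055404567)) (l 68350371815)) (c (c (l 94120175847) (l 97341401351)) (l 102173239575))) (c (c (a (l 51170502503) (l 16773680)) (l 51170502519)) (l 54928599031)))) (a (l 3) (b (c (c (c (l 94120175447) (l 95730788215)) (l 98415142775)) (l 102710110007)) (l 3)))))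 (a (b (c (l 16773288) (l 16773280)) (a (b (b (c (l 49023018791) (l 16773776)) (c (c (c (l 79624661143) (l 81235273911)) (l 83919628487)) (l 88751466679))) (l 3)) (b (c (l 16773672) (l 16773656)) (b (c (a (l 90362079207) (l 62981662503)) (l 81772144759)) (c (l 109689431959) (l 115595012407)))))) (a (b (l 16773000) (b (l 16773488) (b (c (l 16773720) (l 16773704)) (c (a (l 81235273639) (l 53317986023)) (l 74792822839))))) (c (l 16774440) (l 16773112))))) (b (b (a (l 3) (a (l 3) (a (c (l 105931335671) (l 112373786519)) (b (c (c (l 60834178967) (l 63518533639)) (l 68350371831)) (c (l 95730788599) (l 101636368631)))))) (l 3)) (l 3)))) (l 3)), by decide +kernel⟩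

def k39_pp_012_a : ∃ t, chk3 f_pp_012_a t 177 144 1 = true :=
  ⟨(a (a (b (c (l 16773952) (l 16772616)) (b (a (a (b (c (c (l 47949277015) (l 50633631607)) (l 54928599015)) (c (c (c (l 94120175447) (l 95730788199)) (l 97878271847)) (l 102710109975))) (b (c (l 16773544) (l 16773520)) (b (c (l 48486147879) (l 16773760)) (c (a (l 99488884775) (l 71571597159)) (l 88214595783))))) (c (c (l 16773408) (l 16773424)) (l 16773392))) (a (l 3) (b (a (b (c (a (l 89825208295) (l 62444791591)) (l 81235273863)) (c (l 109689431943) (l 115058141463))) (b (c (l 16773720) (l 16773696)) (c (a (l 80698402727) (l 52781115111)) (l 74255951911)))) (c (l 107541948599) (l 113447528503)))))) (b (l 16771848) (a (b (l 16773680) (b (c (l 16773512) (l 16773480)) (a (b (c (c (l 60297308055) (l 62981662711)) (l 67813500887)) (c (l 95193917687) (l 101636368615))) (c (c (l 47412406103) (l 50096760695)) (l 54391728071))))) (c (l 16772968) (l 16772928))))) (c (c (l 16771328) (l 16771328)) (l 16773896))), by decide +kernel⟩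

def k40_pp_012_a : ∃ t, chk3 f_pp_012_a t 177 145 1 = true :=
  ⟨(b (a (a (l 3) (b (a (a (l 3) (b (c (c (l 94657046375) (l 97878271847)) (l 102173239031)) (l 3))) (a (b (b (c (l 47949276967) (l 16773752)) (c (c (l 80161532087) (l 83382757575)) (l 87677724855))) (l 3)) (b (c (l 16773680) (l 16773640)) (b (c (a (l 89288337383) (l 61907920679)) (l 80698402935)) (c (l 108615690535) (l 114521270535)))))) (l 3))) (a (a (b (a (b (l 16773480) (b (c (l 16773728) (l 16773680)) (c (c (l 66202888247) (l 69424113735)) (l 73719081015)))) (c (l 16773456) (l 16773408))) (a (c (l 108078819655) (l 113984399495)) (b (b (c (c (l 59760437159) (l 62444791815)) (l 66739759095)) (c (l 94657046775) (l 100562626775))) (l 3)))) (c (b (l 16773168) (a (c (b (l 46875535223) (l 94120175479)) (b (l 49559889783) (l 97341400935))) (b (l 16773552) (b (l 47412406071) (c (l 79087790279) (l 82309015751)))))) (b (l 16773120) (b (l 50096760807) (a (l 101636368103) (c (l 71034726631) (l 74255951991))))))) (c (c (l 32916891479) (l 16774224))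 (c (l 16772880) (l 16772824))))) (a (l 3) (a (l 3) (a (b (b (a (b (c (c (l 72645339271) (l 75329693831)) (l 80161532007)) (c (l 107541948807) (l 113984399607))) (c (a (b (l 16773784) (l 79087790087)) (l 16774096)) (l 62981662759))) (c (l 106468206791) (l 112910657543))) (l 3)) (a (b (b (c (l 16773624) (l 16773560)) (b (c (c (l 58686695367) (l 61907920903)) (l 66202888167)) (c (l 93583304967) (l 100025755879)))) (l 3)) (c (b (c (l 40969955223) (l 44191180759)) (c (b (l 93583304599) (l 3)) (l 103246981303))) (b (l 47949277111) (l 107541948423)))))))), by decide +kernel⟩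

def k41_pp_012_a : ∃ t, chk3 f_pp_012_a t 88 73 1 = true :=
  ⟨(l 3), by decide +kernel⟩

def k42_pp_012_a : ∃ t, chk3 f_pp_012_a t 89 72 1 = true :=
  ⟨(a (b (c (l 16768960) (l 16768832)) (a (b (c (l 16771752) (l 16771672)) (a (b (c (l 16773120) (l 16773048)) (a (a (b (b (c (l 16773808) (l 16773736)) (c (c (l 78550919399) (l 81772144855)) (l 86067112087))) (l 3)) (c (b (l 16773696) (a (l 95730788775) (b (l 59223566247) (l 105394464919)))) (b (l 16773624) (l 90362079639)))) (c (a (a (b (l 16773552) (b (l 16773792) (l 77477177463))) (l 39896213287)) (l 16773480)) (c (l 49559890087) (l 52244244583))))) (c (l 16772680) (l 16772592)))) (c (l 16770856) (l 16770736)))) (a (a (l 16770888) (l 16767456)) (l 16766248))), by decide +kernel⟩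

def k43_pp_012_a : ∃ t, chk3 f_pp_012_a t 89 146 1 = true :=
  ⟨(a (b (b (a (a (a (l 3) (a (c (l 107005077863) (l 113447528567)) (b (b (c (c (l 57612953575) (l 60834179095)) (l 65129146327)) (c (l 93046434087) (l 98952014055))) (l 3)))) (a (b (c (c (l 42043697047) (l 16774320)) (l 49023018967)) (a (c (c (l 92509562807) (l 95730788231)) (l 99488885255)) (b (c (l 16773816) (l 16773728)) (c (c (l 77477177607) (l 80161532135)) (l 84456499351))))) (c (l 16773456) (l 16773368)))) (c (l 16775128) (l 16772392))) (a (a (l 3) (a (l 3) (b (a (c (a (l 94657047031) (b (l 57612953527) (l 103783852215))) (l 89288337975)) (c (c (c (l 53317986551) (l 54391728359)) (l 56539211975)) (l 61371050007))) (c (l 105394465015) (l 111300044791))))) (a (a (a (b (l 16773616) (b (c (l 57612953687) (l 63518533591)) (c (l 91435821463) (l 97341401351)))) (c (c (l 39896213479) (l 16773608)) (l 16773520))) (c (l 16773344) (l 16773240))) (l 16774040)))) (a (l 3) (a (b (a (a (l 3) (b (b (c (l 84456499543) (l 90362079511)) (l 3)) (l 3)))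 (a (b (c (a (b (l 16773880) (l 93046434103)) (l 53317986423)) (l 69960984887)) (l 3)) (b (c (l 16773728) (l 16773616)) (c (a (l 93583305287) (b (l 16773920) (l 101636368679))) (l 88214596135))))) (l 3)) (a (b (b (l 16773408) (c (c (c (l 46875535639) (l 47949277447)) (l 50096761031)) (l 54391728295))) (a (c (l 105931336103) (l 111836915815)) (b (c (b (l 56539211895) (l 89825208759)) (l 78550919607)) (l 3)))) (b (l 16773184) (a (b (c (l 44728051783) (l 16773680)) (c (a (l 105394464839) (l 86603983383)) (l 97341401607))) (b (l 16773568) (c (b (l 16773856) (l 75866564983)) (l 68887243063))))))))) (a (b (a (l 16771624) (l 16770840)) (a (a (c (l 16774488) (l 16773048)) (c (l 16772808) (l 16772656))) (l 16772168))) (c (l 16770408) (l 16770216)))), by decide +kernel⟩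

def k44_pp_012_a : ∃ t, chk3 f_pp_012_a t 89 147 1 = true :=
  ⟨(b (a (a (l 3) (a (l 3) (c (b (l 111836916839) (l 3)) (l 118816238807)))) (a (a (b (a (b (a (b (c (l 68887243111) (l 74255952039)) (l 105394465335)) (c (c (l 51170502999) (l 54391728391)) (l 58686695623))) (c (l 103783852359) (l 109689432055))) (a (b (l 16773640) (c (b (l 54391728295) (l 88214596119)) (l 77477177783))) (c (c (l 16774352) (l 16773648)) (l 16773528)))) (b (a (l 3) (a (l 3) (c (a (l 102710111063) (l 85530241687)) (l 95730789191)))) (l 3))) (b (c (l 16773208) (l 16773048)) (b (a (a (b (l 43117438999) (c (l 74255952343) (l 79624661303))) (l 16773712)) (l 16773432)) (a (a (l 112373786759) (b (c (l 67276630423) (l 72645339383)) (l 103783852695))) (c (c (l 45801793927) (l 48486148375)) (l 52781115575)))))) (c (c (l 16772432) (l 16772368)) (l 16774840)))) (a (l 3) (b (a (b (a (l 3) (a (l 3) (a (c (l 99488884935) (l 105394464583)) (c (a (l 78550919895) (l 60834179527)) (l 76403435959))))) (l 3)) (a (a (b (c (l 16773768) (l 16773592))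 (a (c (a (l 101099498311) (l 83919629095)) (l 94657047207)) (c (c (l 59223566919) (l 62444792263)) (l 66202888519)))) (c (l 16773560) (l 16773376))) (l 16772920))) (a (l 3) (a (a (c (l 110226303831) (l 116131883399)) (b (a (b (c (l 65129146839) (l 71034726663)) (l 101636369159)) (c (l 51170503079) (l 16773752))) (c (l 102173239735) (l 108078819319)))) (a (a (b (l 16773680) (c (a (l 77477178135) (l 59760437847)) (l 74792823319))) (c (l 16773736) (l 16773536))) (l 16773368))))))), by decide +kernel⟩

def k45_pp_012_a : ∃ t, chk3 f_pp_012_a t 44 37 1 = true :=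
  ⟨(a (l 3) (b (a (l 3) (b (a (l 3) (a (l 3) (b (b (a (c (c (b (c (l 92509563335) (l 94120175991)) (l 3)) (l 101636368935)) (l 105931335847)) (b (c (c (c (l 50633632423) (l 52244245095)) (l 53854857863)) (l 58686695831)) (a (l 109689432263) (c (c (l 76403436471) (l 79087790855)) (l 83382758039))))) (l 3)) (l 3)))) (l 3))) (l 3))), by decide +kernel⟩

def k46_pp_012_a : ∃ t, chk3 f_pp_012_a t 45 36 1 = true :=
  ⟨(a (a (b (l 16763808) (b (l 16773184) (a (a (b (l 16771160) (l 16773792)) (l 16771048)) (l 16769872)))) (c (l 16773968) (l 16773616))) (c (l 16769144) (l 16768656))), by decide +kernel⟩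

def k47_pp_012_a : ∃ t, chk3 f_pp_012_a t 90 148 1 = true :=
  ⟨(a (a (a (a (b (a (c (b (l 44191181383) (l 102710110839)) (b (l 16773608) (l 108615690359))) (b (l 16773544) (b (c (c (l 66739759959) (l 69424114327)) (l 73719081511)) (l 3)))) (l 3)) (b (b (l 16773264) (a (b (l 16773832) (c (c (l 84993371239) (l 87677725607)) (l 91435821847))) (b (l 16773648) (c (l 58149825335) (l 64055404903))))) (c (l 110763175479) (l 116131883943)))) (b (c (l 16774440) (l 16772888)) (a (b (b (b (c (l 52781116151) (l 58149824951)) (a (l 96804531207) (l 57076083351))) (c (l 100025756215) (l 105394464791))) (l 3)) (a (b (b (l 16773720) (b (l 16774608) (a (l 98952014679) (l 71571597975)))) (l 3)) (b (l 16774352) (b (c (l 84456500471) (l 89825209127)) (l 3))))))) (a (b (l 16772264) (a (b (l 16773424) (b (c (c (l 49559890839) (l 52244245255)) (l 56539212295)) (a (l 106468206887) (b (l 61907921751) (l 94657047607))))) (c (c (l 16774856) (l 16773432)) (l 16774528)))) (c (l 16774912) (l 16772000)))) (c (a (l 16771152) (l 16769624))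 (l 16775288))), by decide +kernel⟩

def k48_pp_012_a : ∃ t, chk3 f_pp_012_a t 90 149 1 = true :=
  ⟨(b (a (a (l 3) (a (b (a (l 3) (a (c (l 100562627335) (l 106468206743)) (b (c (l 65666018359) (l 70497856167)) (l 3)))) (l 3)) (a (a (b (b (l 16773880) (c (l 82845887895) (l 88214596503))) (l 3)) (b (c (l 47949278199) (l 53317986887)) (l 108615690871))) (b (l 16773584) (b (a (b (l 59223567319) (l 91972693255)) (l 48486148967)) (c (l 97341401815) (l 102710110279))))))) (a (a (a (b (l 16773216) (a (b (l 16773776) (b (l 16774008) (l 77477178535))) (l 16773752))) (l 16773160)) (l 16772608)) (l 16771472))) (a (l 3) (a (a (b (a (a (l 113447529239) (a (l 103783852567) (b (l 76940307719) (l 3)))) (b (c (l 49023020167) (l 16773768)) (a (l 101099499175) (a (l 81772146007) (l 65129147559))))) (l 3)) (b (c (l 39359343735) (l 16773376)) (a (a (c (l 98415143863) (l 103783852231)) (b (a (l 69424115015) (l 16774072)) (l 110226303527))) (b (l 16773848) (a (a (l 91435822583) (l 74255953303)) (l 54391729463)))))) (c (c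 (l 16773040) (l 16772872)) (l 16775200))))), by decide +kernel⟩

def k49_pp_012_a : ∃ t, chk3 f_pp_012_a t 90 75 1 = true :=
  ⟨(a (l 3) (b (a (a (l 3) (a (l 3) (b (c (l 108615692119) (l 113984400375)) (l 3)))) (b (b (a (a (b (a (a (l 79087791591) (l 62444793143)) (l 16774024)) (c (l 94657047431) (l 100025755767))) (c (c (l 47412407815) (l 50096762023)) (l 53854857975))) (l 16773368)) (a (a (l 3) (a (l 110763174791) (b (a (l 88214597335) (l 71571598887)) (l 3)))) (a (b (c (l 16774208) (l 16773800)) (a (l 96804532167) (a (l 76403437255) (l 59760438727)))) (l 16775120)))) (a (l 3) (a (l 3) (b (b (a (a (l 97341402999) (l 80698404631)) (l 59760438967)) (l 108078820167)) (l 3)))))) (l 3))), by decide +kernel⟩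

def k50_pp_012_a : ∃ t, chk3 f_pp_012_a t 91 37 1 = true :=
  ⟨(a (b (c (b (l 16767288) (l 16770048)) (l 16773464)) (b (a (a (b (l 16775576) (b (a (a (b (l 16774008) (a (l 85530242919) (l 68887244471))) (l 46875536855)) (l 16773720)) (a (c (l 102710111687) (l 108078819879)) (b (c (a (l 65129148183) (l 16774304)) (l 62981663799)) (c (c (l 89825209639) (l 92509563767)) (l 96804530359)))))) (b (l 16772216) (a (b (l 16773360) (c (l 47412408039) (l 52244245319))) (l 16773312)))) (c (l 16771984) (l 16771488))) (a (b (a (l 3) (a (b (b (a (l 101636370759) (a (l 82845888439) (l 66202889991))) (l 3)) (l 3)) (b (b (l 16775072) (a (l 91972694263) (a (l 70497857527) (l 16774256)))) (l 112910658871)))) (l 3)) (a (a (b (b (l 16773888) (b (a (a (l 91435823351) (l 75329695815)) (l 55465471815)) (c (l 101636369863) (l 107541948855)))) (l 3)) (b (b (l 16773536) (a (b (l 16774088) (a (l 79624663191) (l 63518535671))) (l 16774064))) (a (l 3) (b (c (l 97341402615) (l 102710110663)) (l 3))))) (a (b (l 16773488) (b (b (c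 (l 54928601255) (l 59223567495)) (a (l 108078820295) (a (l 88214597943) (l 72108470423)))) (l 3))) (b (l 16773136) (b (c (l 16774976) (l 16773784)) (b (a (l 96267661959) (c (l 68350374167) (l 73182211351))) (l 3))))))))) (b (l 16765288) (b (c (l 16769736) (l 16769160)) (a (b (l 16772224) (a (b (l 16773536) (a (b (l 16774168) (a (c (l 84456501783) (l 89825209863)) (l 59760439527))) (l 16773976))) (l 16773136))) (l 16774016))))), by decide +kernel⟩

def k51_pp_012_a : ∃ t, chk3 f_pp_012_a t 22 19 1 = true :=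
  ⟨(a (l 3) (b (a (l 3) (b (a (l 3) (b (a (b (a (a (c (l 110226305575) (l 115595013447)) (b (b (a (a (l 84993372551) (l 68887245031)) (l 16774336)) (c (l 98415144615) (l 103783852551))) (l 3))) (a (a (b (a (b (l 16774208) (l 73182212407)) (l 51170505047)) (l 113447529911)) (b (l 16774144) (a (l 103783854583) (b (l 77477179959) (l 3))))) (b (l 16773888) (b (c (l 51170505111) (l 55465471207)) (a (l 100562629655) (c (l 72645341927) (l 77477178999))))))) (l 3)) (a (a (b (c (l 16775456) (l 16773528)) (b (b (a (c (l 88751469463) (l 94120177415)) (c (l 63518536279) (l 66202889671))) (l 110763175319)) (l 3))) (b (l 16773496) (b (b (l 16774256) (a (c (l 79624663975) (l 84456500919)) (l 53854859831))) (c (c (l 103783854631) (l 106468208551)) (l 110226303911))))) (b (l 16772968) (b (c (l 16774216) (l 16773560)) (b (a (a (c (l 69960987495) (l 74792824407)) (l 16774424)) (l 16774176)) (a (a (l 3) (c (l 86067115111) (l 91972693239))) (c (a (l 59223569111) (l 16774712)) (l 58149826119)))))))) (a (l 3) (b (b (a (l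 3) (a (l 3) (b (a (l 106468207959) (b (l 61371052871) (l 94120178199))) (l 3)))) (l 3)) (l 3))))) (l 3))) (l 3))), by decide +kernel⟩

def k52_pp_012_a : ∃ t, chk3 f_pp_012_a t 23 8 1 = true :=
  ⟨(b (a (b (a (b (l 16708960) (l 16713912)) (l 16704760)) (a (l 16721056) (l 16714536))) (b (l 16695624) (a (b (l 16705528) (l 16710416)) (l 16701832)))) (a (a (c (l 16756920) (l 16756168)) (c (l 16750328) (l 16749504))) (a (l 16738216) (b (l 16711424) (l 16721312))))), by decide +kernel⟩

def k53_pp_012_a : ∃ t, chk3 f_pp_012_a t 23 18 1 = true :=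
  ⟨(b (a (a (c (l 16752200) (l 16751552)) (l 16745352)) (a (l 16738888) (l 16732664))) (a (a (a (b (l 16762088) (c (l 16768072) (l 16767368))) (l 16772224)) (c (l 16757368) (l 16777392))) (a (l 16750536) (l 16744336)))), by decide +kernel⟩

def k54_pp_012_a : ∃ t, chk3 f_pp_012_a t 184 38 1 = true :=
  ⟨(b (b (a (a (c (l 16775848) (l 16772536)) (l 16772168)) (l 16771064)) (a (b (b (a (a (a (b (l 51170505431) (c (l 93046437159) (l 98952014583))) (b (l 16774344) (c (c (l 65129149335) (l 68887245143)) (l 69960986087)))) (c (l 16774584) (l 16773880))) (l 16773736)) (a (b (a (l 113984401031) (a (a (l 95730790471) (b (l 16774640) (l 100025757911))) (c (l 56539214679) (l 60297309735)))) (a (l 3) (c (l 104320725255) (l 109152562023)))) (a (b (l 16774344) (a (b (l 57076085495) (c (l 87140856983) (l 93046434503))) (l 48486151047))) (l 16774160)))) (a (l 3) (b (a (a (l 3) (b (b (c (l 80698406007) (l 86067112695)) (l 112910659015)) (l 3))) (a (b (b (l 16774600) (c (l 71571600471) (l 76403436311))) (l 107541949943))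 (b (l 16774512) (b (c (l 65129149447) (l 69424114535)) (c (l 94657049735) (l 100025755991)))))) (l 3)))) (a (b (l 16773352) (a (b (b (l 16774264) (a (c (l 53317989255) (l 57612954743)) (l 16774432))) (b (a (c (l 95730791079) (l 99488885335)) (b (l 52781118039) (c (l 81235276743) (l 85530241671)))) (l 3))) (b (l 16774064) (b (l 16775728) (a (b (c (l 74255954807) (l 78550919975)) (l 105931337271)) (c (c (l 59223569255) (l 61371052183)) (l 64055405623))))))) (b (l 16772648) (a (b (l 16773728) (l 16775512)) (l 16773632)))))) (b (a (l 3) (b (b (b (a (a (l 3) (c (l 104320725111) (l 108078820007))) (a (a (b (c (l 60297310903) (l 64592276391)) (c (l 89825211287) (l 94657046951))) (c (l 16774832) (l 16774088))) (l 16774224))) (a (l 3) (b (a (a (l 3) (a (l 99488886631) (l 74255954103))) (l 46875537991)) (a (l 3) (a (c (l 75866567383) (l 80161532631)) (l 16774424)))))) (b (a (l 3) (a (l 3) (a (l 109152562375) (b (c (l 68887245431) (l 73182210839)) (l 100562628311))))) (l 3))) (l 3))) (l 3))), by decide +kernel⟩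

def k55_pp_012_a : ∃ t, chk3 f_pp_012_a t 185 38 1 = true :=
  ⟨(a (b (b (l 16769552) (b (l 16771560) (l 16775384))) (b (b (a (b (l 16775144) (a (b (a (c (l 56539214375) (l 60297309351)) (l 16774272)) (a (c (l 97878273767) (l 102173239575)) (b (l 56539214343) (c (l 84456501991) (l 89288337991))))) (c (l 16774512) (l 16773752)))) (l 16776016)) (a (a (l 3) (b (b (a (b (c (l 77477180039) (l 81772145367)) (l 109152562759)) (a (b (l 16774384) (l 82845888583)) (l 53317988711))) (c (l 105394466631) (l 109689432439))) (l 3))) (a (b (a (b (l 16774240) (b (c (l 64055406967) (l 67813501863)) (c (l 93046436439) (l 97878272503)))) (c (l 49559892231) (l 53317987271))) (a (l 3) (a (l 110226304055) (b (b (l 79087792311) (l 3)) (l 3))))) (b (l 16773936) (a (b (b (l 16775624) (c (l 79087792615) (l 83382758183))) (l 111836916615)) (b (l 16774208) (b (c (l 72645341575) (l 76403436391)) (l 103246982807)))))))) (l 3))) (b (l 16774616) (b (b (l 16772336) (a (a (b (l 16773600) (a (b (l 16774040) (c (l 58686697735) (l 62444792711)))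 (l 16773984))) (l 16773496)) (l 16772968))) (a (b (a (b (a (c (l 104320724615) (l 108615690407)) (b (b (l 60297310407) (c (l 87677727063) (l 91972692535))) (l 3))) (l 3)) (a (b (b (l 50633633943) (c (c (l 88751469095) (l 90898952023)) (l 94120176199))) (l 3)) (b (b (l 16774000) (c (c (l 64055406823) (l 65666018823)) (l 67813501767))) (l 109689432919)))) (l 3)) (b (a (b (l 16775176) (a (b (b (a (l 77477179431) (l 16774200)) (l 97878273911)) (l 3)) (b (c (l 55465471991) (l 58686696055)) (c (l 96267660455) (l 100562626263))))) (b (l 16773528) (a (b (l 16773968) (b (l 16775128) (a (l 97878274039) (l 72645341095)))) (l 16773920)))) (a (l 3) (a (l 3) (b (b (c (c (l 84993372455) (l 87140855367)) (l 89825209127)) (l 3)) (l 3))))))))), by decide +kernel⟩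

def k56_pp_012_a : ∃ t, chk3 f_pp_012_a t 93 38 1 = true :=
  ⟨(b (a (l 16777560) (l 16763968)) (a (b (c (l 16771112) (l 16770176)) (a (a (b (c (l 16773640) (l 16772840)) (b (a (a (b (c (l 60834181127) (l 64055405095)) (l 104320723319)) (b (l 16773936) (b (l 62444793799) (l 91972694103)))) (c (l 47949278887) (l 16773408))) (a (l 3) (b (a (c (l 91435823383) (l 95730789127)) (c (l 66202890183) (l 69424114151))) (l 110763174359))))) (b (l 16772536) (b (l 16773280) (a (b (l 16773816) (a (c (l 80698405015) (l 84456499895)) (l 58149826295))) (l 16773584))))) (c (l 16772384) (l 16771520)))) (l 16773936))), by decide +kernel⟩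

def k57_pp_012_a : ∃ t, chk3 f_pp_012_a t 46 39 1 = true :=
  ⟨(a (l 3) (b (a (b (b (b (a (a (l 3) (a (c (l 104320724199) (l 108615689975)) (b (a (a (l 79087792071) (l 64055406295)) (l 16773864)) (c (c (l 93583305895) (l 95730788807)) (l 98952013143))))) (a (a (a (b (l 16773688) (l 63518535335)) (l 16773640)) (l 16773376)) (l 16772848))) (a (l 3) (b (a (a (a (l 105394464807) (a (l 87140855687) (l 70497857255))) (l 51707375063)) (l 16773224)) (a (a (l 3) (a (l 94120177591) (l 68350373639))) (l 16773464))))) (a (l 3) (a (c (l 110763175783) (l 115058141527)) (a (b (b (a (l 84456501143) (l 59223567767)) (l 104320722887)) (l 3)) (b (a (b (l 16773624) (l 73719082695)) (l 16773568)) (c (l 100025756391) (l 104320722151))))))) (l 3)) (b (a (b (l 16772024) (a (b (l 16773136) (a (b (c (l 58149825991) (l 61371049911)) (c (l 87140855703) (l 90898950567))) (l 50633633031))) (l 16772672))) (l 16771080)) (a (b (a (b (a (l 3) (a (l 102710109959) (b (l 69424115127) (l 111300044455)))) (l 3)) (b (a (a (b (l 16773552)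 (l 85530242631)) (l 54928600231)) (l 16773240)) (a (l 107005077351) (b (c (l 65129147719) (l 68887242551)) (l 97878271415))))) (l 3)) (b (a (c (c (l 49023020231) (l 50633632247)) (l 52244244263)) (l 16772248)) (b (a (a (c (l 95730788583) (l 99488883415)) (b (l 16773408) (l 82309017143))) (l 16773000)) (a (l 112373786679) (a (b (l 75329695095) (l 104857593159)) (c (l 59223567463) (l 62444791431))))))))) (a (l 3) (b (a (l 3) (a (l 3) (a (l 3) (b (l 106468206407) (l 3))))) (l 3))))), by decide +kernel⟩

def k58_pp_012_a : ∃ t, chk3 f_pp_012_a t 47 19 1 = true :=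
  ⟨(b (a (b (l 16759312) (l 16774632)) (l 16766128)) (a (b (a (a (a (b (l 16769976) (l 16774664)) (l 16770280)) (l 16769168)) (l 16766936)) (a (b (a (a (b (a (b (a (l 80698404103) (l 66739760295)) (l 3)) (b (l 16773120) (l 93046434039))) (l 3)) (a (b (c (l 56539212999) (l 59760436967)) (l 109152560855)) (b (l 16772664) (a (l 100562625767) (b (l 72108469287) (l 3)))))) (b (l 16771768) (a (b (l 53317987063) (a (l 97878270839) (l 69424114583))) (l 16772432)))) (a (l 3) (a (l 112910658375) (b (b (a (l 86603983079) (l 60297308839)) (l 104320722023)) (l 3))))) (b (c (l 16770592) (l 16769616)) (a (a (a (b (b (l 16772656) (l 74255952199)) (l 3)) (b (l 16772552) (l 98952012647))) (b (l 16772016) (b (l 60297308551) (a (l 105394463399) (l 80698402391))))) (c (l 47412406743) (l 50096759719)))))) (b (l 16762456) (a (l 16773472) (l 16765288))))), by decide +kernel⟩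

def k59_pp_012_a : ∃ t, chk3 f_pp_012_a t 11 5 1 = true :=
  ⟨(a (l 3) (b (b (a (l 3) (b (a (b (a (l 3) (b (a (l 3) (a (b (a (l 101099496215) (a (l 90362077447) (l 82309014727))) (l 3)) (b (a (a (l 72645338615) (l 64592275159)) (l 55465469943)) (l 104320721943)))) (l 3))) (l 3)) (b (b (a (a (b (l 16771568) (a (b (l 67813500327) (l 95193915559)) (l 56539211255))) (l 16770648)) (l 16768488)) (b (a (a (a (l 3) (a (l 104857592439) (l 90898948023))) (a (a (a (l 79624659495) (l 71571595959)) (l 61371048919)) (l 16771848))) (l 16770064)) (a (a (l 3) (a (l 107005076359) (b (l 73182208471) (l 99488882711)))) (a (a (a (l 64055403079) (l 16771992)) (l 16771464)) (l 16770392))))) (a (l 3) (b (a (b (a (c (l 95730787351) (l 98952011047)) (b (l 59760435559) (l 86603980071))) (l 3)) (b (l 50096759191) (a (a (l 96804527879) (a (l 88214592759) (l 80161529543))) (c (l 64592273335) (b (l 16771384) (l 73182207559)))))) (a (l 3) (b (c (l 101099497095) (l 104320720727)) (l 3))))))) (l 3))) (l 3)) (l 3))), by decide +kernel⟩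

def k60_pp_012_a : ∃ t, chk3 f_pp_012_a t 5 3 1 = true :=
  ⟨(l 3), by decide +kernel⟩

def k61_pp_012_a : ∃ t, chk3 f_pp_012_a t 12 4 1 = true :=
  ⟨(a (b (b (a (l 16710048) (l 16679120)) (a (b (a (b (l 16703088) (l 16707864)) (l 16700008)) (a (l 16715400) (b (l 16707136) (l 16712544)))) (b (l 16692528) (a (b (l 16701848) (l 16707256)) (l 16699592))))) (a (b (b (a (l 16726696) (l 16721008)) (a (l 16738352) (l 16732600))) (b (a (l 16749688) (l 16743904)) (a (l 16769224) (l 16752992)))) (b (b (a (l 16715600) (b (a (l 16708952) (l 16706408)) (l 16713264))) (a (l 16727088) (l 16721808))) (b (a (l 16738328) (l 16732968)) (a (l 16747408) (l 16742040)))))) (b (a (b (l 16670080) (b (l 16683192) (l 16703016))) (b (l 16661176) (b (l 16673912) (l 16683000)))) (b (a (b (a (b (l 16702832) (a (l 16709528) (l 16707048))) (l 16700728)) (a (a (l 16717992) (l 16715512)) (b (a (l 16710160) (l 16707624)) (a (l 16715784) (l 16713240))))) (a (b (l 16695800) (b (l 16703848) (a (b (l 16709224) (l 16712032)) (l 16708024))))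 (b (l 16690760) (l 16701392)))) (a (b (a (l 16727768) (l 16722568)) (a (l 16736768) (l 16731480))) (b (a (b (a (l 16716216) (b (l 16712192) (l 16714944))) (l 16719640)) (b (a (b (l 16709536) (l 16712256)) (l 16708216)) (a (l 16715608) (l 16712880)))) (a (l 16726088) (l 16720616))))))), by decide +kernel⟩

def k62_pp_012_a : ∃ t, chk3 f_pp_012_a t 48 40 1 = true :=
  ⟨(a (b (a (l 16766656) (l 16763776)) (a (b (c (l 16772992) (l 16771912)) (a (a (b (b (l 64592273015) (l 91435818183)) (l 3)) (b (l 54928596695) (a (l 101099495095) (b (l 75866561831) (l 3))))) (a (b (l 16771040) (a (b (l 16771992) (l 88214592567)) (l 58686692583))) (l 16770856)))) (c (l 16773888) (l 16772680)))) (b (l 16759512) (l 16774296))), by decide +kernel⟩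

def k63_pp_012_a : ∃ t, chk3 f_pp_012_a t 96 41 1 = true :=
  ⟨(b (a (b (a (l 3) (b (a (l 103783849975) (b (a (l 79087787111) (l 16771976)) (l 95730784759))) (l 3))) (l 3)) (b (a (a (b (c (l 57612951079) (l 58149821351)) (a (l 104857591431) (b (l 82309012391) (l 3)))) (b (l 16771016) (b (l 55465466903) (a (l 94657043223) (c (l 72645336471) (l 74255948343)))))) (c (l 16773672) (l 16772568))) (a (b (c (l 104857593447) (l 108615687847)) (l 3)) (a (b (a (a (l 98952010871) (b (l 80698399463) (l 3))) (b (l 61371046695) (l 97341397783))) (l 3)) (a (b (b (l 16771616) (a (l 82309012199) (l 69960981207))) (l 3)) (b (l 16772184) (b (b (l 76403432087) (l 103783848631)) (l 3)))))))) (l 3)), by decide +kernel⟩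

def k64_pp_012_a : ∃ t, chk3 f_pp_012_a t 97 41 1 = true :=
  ⟨(b (a (b (l 16768392) (a (b (l 16773280) (a (b (a (b (l 16771832) (l 69960981127)) (l 16771616)) (a (l 100025752343) (b (l 63518530183) (c (l 89825205463) (l 91435817255))))) (c (l 51170499335) (l 51707369703)))) (l 16772424))) (l 16771912)) (a (b (a (b (a (l 3) (a (b (a (l 100025752167) (b (l 76403431991) (l 3))) (l 3)) (b (b (l 16771832) (a (l 87677721159) (l 62981659271))) (c (l 95730786103) (l 99488880391))))) (l 3)) (a (a (b (b (l 16771616) (b (a (a (l 84993366599) (l 72645335607)) (l 16771920)) (c (l 88214592903) (l 91435816263)))) (l 3)) (b (b (l 16771272) (b (l 16771664) (c (l 53317983031) (l 53317982439)))) (b (a (l 97878268439) (b (l 65666013751) (l 3))) (l 3)))) (b (c (l 16771592) (l 16770456)) (b (a (a (b (l 16771896) (l 87140850231)) (l 50096757303)) (l 16771584)) (a (l 99488881271) (a (l 75866561111) (l 63518530119))))))) (l 3)) (a (a (b (b (l 16770328) (c (l 43117435575) (l 43117434919))) (b (b (a (l 90362075335) (l 59223562887))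 (l 3)) (l 3))) (b (l 16772752) (b (a (b (l 16771504) (l 80161528567)) (l 45801790007)) (l 95730785127)))) (b (l 16769104) (b (l 16770544) (a (b (l 54391724663) (l 87677720535)) (l 44728048183))))))), by decide +kernel⟩

def k65_pp_012_a : ∃ t, chk3 f_pp_012_a t 49 20 1 = true :=
  ⟨(b (a (l 16756112) (l 16750736)) (a (b (l 16762544) (a (a (b (l 16767736) (l 16769648)) (l 16767336)) (l 16765304))) (l 16769728))), by decide +kernel⟩

def k66_pp_012_a : ∃ t, chk3 f_pp_012_a t 24 21 1 = true :=
  ⟨(a (b (a (l 3) (b (a (l 3) (b (a (l 3) (b (c (l 88751464151) (l 91972687607)) (l 3))) (l 3))) (l 3))) (l 3)) (b (a (b (a (b (a (a (b (l 55465466615) (l 96267655735)) (b (l 16770728) (l 65666014167))) (c (l 16773376) (l 16772248))) (a (l 3) (b (c (l 73182206023) (l 75866558551)) (l 3)))) (b (l 16768160) (a (b (l 16770248) (c (l 62444789671) (l 63518530343))) (l 16769384)))) (a (l 3) (b (a (l 88751463527) (b (l 51170499575) (l 79087785319))) (l 3)))) (b (a (l 16766440) (l 16763776)) (a (b (c (l 40433081239) (l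 40433080087)) (a (b (l 71571591735) (l 3)) (c (l 51170500631) (l 52244241191)))) (c (l 16768168) (l 16766888))))) (a (l 3) (b (a (b (a (l 3) (l 84993366615)) (l 3)) (b (a (b (l 52244241495) (l 75866559271)) (l 41506822519)) (a (l 3) (b (l 68887236535) (l 3))))) (l 3))))), by decide +kernel⟩

def k67_pp_012_a : ∃ t, chk3 f_pp_012_a t 24 11 1 = true :=
  ⟨(l 3), by decide +kernel⟩

def k68_pp_012_a : ∃ t, chk3 f_pp_012_a t 25 10 1 = true :=
  ⟨(b (a (b (a (l 16745432) (l 16740056)) (a (l 16753896) (l 16748456))) (b (a (l 16734592) (l 16729048)) (a (l 16742936) (l 16737328)))) (a (b (a (b (l 16759728) (l 16768704)) (l 16756136)) (a (b (a (b (l 16767592) (a (b (l 16769640) (l 56539208503)) (l 16768736))) (l 16771024)) (a (b (a (l 81772140407) (b (l 49023015223) (l 75329687543))) (l 3)) (a (b (c (l 39896208903) (l 38822466439)) (b (l 69424106551) (l 3))) (b (l 16767824) (b (l 16771792) (c (l 59223562119) (l 59760432199))))))) (b (l 16772144) (a (c (l 16771192) (l 16771312)) (l 16763888))))) (b (a (l 16750576)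 (l 16744936)) (a (b (l 16756080) (l 16770176)) (l 16752232))))), by decide +kernel⟩

def k69_pp_012_a : ∃ t, chk3 f_pp_012_a t 50 22 1 = true :=
  ⟨(b (a (b (a (l 3) (b (a (l 3) (l 80161526695)) (l 3))) (l 3)) (a (b (b (b (a (c (l 46875530151) (l 46338658567)) (l 16768200)) (a (l 74255944679) (c (l 40969949111) (l 39896206615)))) (a (l 3) (a (l 3) (b (l 61371043543) (l 3))))) (l 3)) (b (b (c (l 16767120) (l 16766016)) (a (a (b (l 37211851639) (l 72108459655)) (b (l 16768232) (a (l 58149817287) (l 49023011303)))) (c (l 16768120) (l 16769776)))) (b (a (l 3) (a (b (a (l 69960975287) (b (l 16770208) (l 70497847559))) (l 3)) (a (b (c (l 49559881655) (l 49559881143)) (l 3)) (b (l 16768416) (c (l 68887233911) (l 71571586903)))))) (l 3))))) (l 3)), by decide +kernel⟩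

def k70_pp_012_a : ∃ t, chk3 f_pp_012_a t 51 22 1 = true :=
  ⟨(b (a (a (b (c (l 16767888) (l 16769296)) (b (a (b (l 16768856) (a (a (b (l 37748720807) (l 72645329207)) (b (l 16768368) (b (l 36674978775) (l 63518524583)))) (c (l 16769144) (l 16768952)))) (c (l 16769688) (l 16768720))) (a (b (a (l 3) (a (b (b (c (l 47412397079) (l 46338654679)) (l 66202878759)) (l 3)) (b (b (l 16768424) (c (l 42580558503) (l 40969945367))) (c (l 59760427767) (l 61907909895))))) (l 3)) (a (a (b (b (l 16768176) (a (c (l 40433074951) (l 39359332823)) (c (l 32380011063) (l 30769397703)))) (l 3)) (b (b (l 16767832) (l 16768936)) (b (a (l 57076073255) (l 39896203911)) (l 3)))) (a (b (l 16768360) (b (a (l 31306269079) (l 16768304)) (l 57612944231))) (b (l 16767352) (b (l 16768040) (a (l 39359332983) (l 30769398023))))))))) (b (l 16761840) (b (c (l 16765040) (l 16763904)) (a (b (l 16767136) (c (l 21105721063) (l 16768296))) (c (l 16766024) (l 16765048)))))) (b (l 16768064) (a (b (l 16761632) (l 16766024)) (l 16759664)))) (a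 (b (a (l 3) (b (a (a (b (b (a (l 49023009463) (l 28621914231)) (l 59760426855)) (l 3)) (b (c (l 27548172599) (l 25937558983)) (c (l 55465460263) (l 57076071591)))) (b (l 16768216) (a (b (l 16768928) (l 45264912839)) (l 16767472)))) (a (l 3) (a (l 3) (b (a (l 50633622135) (l 35064365271)) (l 3)))))) (l 3)) (b (a (b (c (l 16768344) (l 16767400)) (a (a (b (l 25937558759) (l 50633622231)) (b (l 16766968) (a (l 34527494135) (l 16767704)))) (c (l 16766768) (l 16765968)))) (c (l 16769096) (l 16768032))) (b (a (a (l 3) (b (a (l 42043686887) (l 16768680)) (l 52781104551))) (a (a (c (l 24863817895) (l 23253204103)) (l 16766392)) (l 16765328))) (a (l 3) (b (a (c (l 39359334183) (l 38822462423)) (l 21105719447)) (a (l 3) (c (l 32380011543) (l 31306268887))))))))), by decide +kernel⟩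

def k71_pp_012_a : ∃ t, chk3 f_pp_012_a t 25 23 1 = true :=
  ⟨(a (l 3) (l 3)), by decide +kernel⟩

def k72_pp_012_a : ∃ t, chk3 f_pp_012_a t 13 4 1 = true :=
  ⟨(b (a (a (b (l 16651840) (l 16689576)) (b (l 16642080) (l 16658392))) (a (b (l 16631800) (l 16647456)) (b (l 16620544) (l 16635600)))) (a (a (b (b (l 16682992) (a (l 16696088) (l 16690672))) (b (a (b (l 16704136) (a (l 16710112) (l 16707360))) (l 16700888)) (a (b (a (l 16714360) (l 16711544)) (l 16717144)) (b (l 16707304) (a (l 16712904) (l 16710016)))))) (b (a (l 16680048) (l 16674512)) (a (b (l 16695224) (l 16703648)) (b (l 16689456) (l 16697776))))) (b (a (l 16686784) (l 16653192)) (a (a (l 16708568) (l 16681224)) (a (l 16674576) (l 16667680)))))), by decide +kernel⟩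

def k73_pp_012_a : ∃ t, chk3 f_pp_012_a t 52 5 1 = true :=
  ⟨(b (b (b (a (l 16723408) (b (l 16715608) (l 16719736))) (a (l 16731640) (l 16725856))) (a (l 16763864) (l 16758072))) (b (b (a (b (l 16751832) (a (l 16756800) (l 16753920))) (b (l 16746024) (l 16749544))) (b (a (a (l 16765696) (l 16757584)) (l 16758440)) (a (a (a (b (l 16763912) (l 16768328)) (l 16766008)) (a (l 16761968) (l 16760528))) (a (l 16758344) (l 16755360))))) (b (a (b (a (b (a (b (a (l 34527492759) (l 16766688)) (l 37211849495)) (c (l 18958236711) (l 16273881383))) (a (l 3) (b (c (l 31306269351) (l 30769397751)) (l 3)))) (a (b (l 16764664) (b (l 16767296) (a (l 36138105015) (l 16767824)))) (c (l 16767120) (l 16766368)))) (b (a (l 3) (a (b (l 37748719751) (l 3)) (c (b (l 20031978231) (l 31843139431)) (b (l 18421364503) (l 31306267991))))) (l 3))) (b (c (a (l 16766328) (l 16759520)) (a (c (l 16766944) (l 16766488)) (l 16758360))) (b (a (a (c (l 14126397015) (a (l 16768016) (l 16764640))) (l 16763816)) (c (l 16761992) (l 16761160)))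 (a (b (a (a (l 38822458887) (l 27011297911)) (l 11442040199)) (a (l 3) (a (l 29695652727) (l 17347620359)))) (a (a (l 16764408) (l 16763664)) (l 16762536)))))) (a (l 3) (b (b (b (a (a (l 3) (c (l 34527492503) (l 39896198679))) (a (a (l 24326941207) (l 16764912)) (l 16763792))) (a (l 3) (b (a (a (l 3) (l 27011295911)) (l 16764408)) (a (l 3) (c (l 16766304) (l 16765960)))))) (b (a (l 3) (a (l 3) (a (l 29695651447) (c (l 22716328759) (l 21105715687))))) (l 3))) (l 3)))))), by decide +kernel⟩

def k74_pp_012_a : ∃ t, chk3 f_pp_012_a t 53 10 1 = true :=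
  ⟨(b (b (a (b (a (l 16711256) (l 16708312)) (l 16713904)) (b (l 16703832) (a (l 16709400) (l 16706328)))) (a (l 16719968) (b (l 16711920) (l 16715824)))) (a (b (l 16727480) (l 16734688)) (b (l 16721296) (l 16728440)))), by decide +kernel⟩

def k75_pp_012_a : ∃ t, chk3 f_pp_012_a t 53 22 1 = true :=
  ⟨(b (a (l 16741768) (l 16735424)) (a (a (l 16760984) (l 16747368)) (b (l 16740728) (l 16744312)))), by decide +kernel⟩

def k76_pp_012_a : ∃ t, chk3 f_pp_012_a t 106 23 1 = true :=
  ⟨(a (b (b (l 16755872) (a (a (l 16763152) (l 16759760)) (l 16761208))) (b (a (a (b (l 16763072) (b (l 16765600) (a (l 28085037303) (l 23790069511)))) (b (l 16762304) (b (l 16763536) (a (l 20031972343) (l 16764144))))) (b (l 16763768) (c (l 16764304) (l 16764552)))) (b (a (a (l 3) (b (b (l 26474423751) (l 3)) (l 3))) (a (b (b (l 8757682295) (a (l 30232519191) (l 22716325927))) (l 3)) (b (c (l 16763720) (l 16763472)) (a (b (l 24326938695) (l 3)) (b (l 16764640) (l 27011292967)))))) (l 3)))) (b (b (l 16752720) (a (l 16757016)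 (l 16755416))) (b (a (b (l 16759576) (a (l 16761632) (l 16760848))) (c (l 16761816) (l 16761088))) (b (a (a (b (l 16762832) (b (l 16763408) (a (a (l 23790066871) (l 16763896)) (l 16763600)))) (c (l 16763904) (l 16763616))) (c (l 16762768) (c (l 16763808) (l 16763624)))) (b (a (a (a (l 3) (b (a (l 25937550455) (l 22179453735)) (l 3))) (a (b (c (l 16763664) (l 16764200)) (c (l 23253196199) (l 22179454231))) (b (l 16763216) (c (l 21105711895) (c (l 16764232) (l 16764192)))))) (a (b (l 16763296) (a (l 16763696) (l 16762824))) (c (l 16762160) (l 16761952)))) (a (l 3) (a (a (b (c (l 22179453287) (c (l 20568840551) (l 20031969591))) (l 3)) (b (c (c (l 16763904) (l 16763872)) (l 10905162951)) (b (c (l 23790065687) (l 23253194727)) (l 3)))) (b (c (l 16763328) (l 16763224)) (a (a (b (l 16763344) (c (l 23253194551) (l 21642581783))) (b (l 16762992) (a (l 20568839495) (l 19495097479)))) (c (l 16763312) (l 16763256))))))))))), by decide +kernel⟩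

def k77_pp_012_a : ∃ t, chk3 f_pp_012_a t 107 23 1 = true :=
  ⟨(b (a (b (l 16749496) (l 16758232)) (c (l 16748816) (l 16757576))) (a (b (b (l 16755568) (a (l 16758056) (l 16756432))) (a (a (b (l 16761400) (b (l 16762584) (b (l 16762504) (c (l 16763248) (l 16762744))))) (b (l 16759288) (b (l 16760480) (c (l 16762648) (l 16762472))))) (b (c (l 16758360) (l 16757800)) (c (c (l 16761216) (l 16761064)) (c (l 16760912) (l 16761408)))))) (a (b (l 16759192) (b (l 16756440) (c (l 16760880) (l 16760472)))) (b (l 16752280) (b (l 16754784) (a (l 16759448) (l 16756000))))))), by decide +kernel⟩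

def k78_pp_012_a : ∃ t, chk3 f_pp_012_a t 27 5 1 = true :=
  ⟨(b (a (b (b (a (l 16699608) (l 16693056)) (a (b (l 16705520) (l 16709384)) (l 16721744))) (b (a (l 16714792) (b (l 16706200) (l 16709728))) (a (l 16721856) (l 16714976)))) (b (a (l 16690064) (l 16682944)) (b (a (l 16720560) (l 16693648)) (a (l 16707824) (l 16700416))))) (a (b (b (a (l 16728784) (l 16721848)) (a (l 16735832) (l 16728856))) (a (a (a (b (l 16745440) (b (l 16750600) (c (l 16756904) (l 16756200)))) (b (l 16743744) (b (l 16748896) (c (l 16752632) (l 16751840))))) (b (l 16741152) (b (l 16746312) (a (a (l 16750960) (l 16750096)) (l 16754048))))) (a (b (l 16737648) (b (l 16742808) (c (l 16746680) (l 16745648)))) (b (l 16734080) (c (l 16752096) (l 16748104)))))) (b (b (l 16721416) (l 16738856)) (b (a (l 16728608) (l 16721096)) (a (a (a (l 16738224) (l 16736392)) (l 16733616)) (b (l 16726256) (l 16729664))))))), by decide +kernel⟩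

def k79_pp_012_a : ∃ t, chk3 f_pp_012_a t 12 12 1 = true :=
  ⟨(l 3), by decide +kernel⟩

def k80_pp_012_a : ∃ t, chk3 f_pp_012_a t 52 24 1 = true :=
  ⟨(l 3), by decide +kernel⟩

def k81_pp_012_a : ∃ t, chk3 f_pp_012_a t 106 48 1 = true :=
  ⟨(b (a (l 3) (b (b (b (a (l 3) (a (l 3) (a (l 3) (b (a (c (l 16763584) (l 9294550295)) (c (l 16763384) (l 16763360))) (a (l 3) (c (l 16763728) (l 16763704))))))) (l 3)) (l 3)) (l 3))) (l 3)), by decide +kernel⟩

def k82_pp_012_a : ∃ t, chk3 f_pp_012_a t 214 48 1 = true :=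
  ⟨(b (a (b (b (b (a (a (b (l 16763080) (c (l 16763424) (l 16763392))) (c (l 16763216) (l 16763160))) (c (l 16762656) (l 16762560))) (a (a (b (a (l 3) (l 11442033847)) (l 3)) (b (c (l 16763696) (l 16763320)) (c (l 16763872) (l 9294550407)))) (c (l 16763296) (c (l 16763232) (l 16763192))))) (a (l 3) (a (b (b (c (l 16763968) (c (l 16763928) (l 16763904))) (a (l 3) (a (l 3) (l 16763472)))) (l 3)) (b (a (b (l 16762992) (l 16763648)) (l 16762960)) (b (a (l 3) (l 16763616)) (l 3)))))) (l 3)) (b (b (a (c (l 16762216) (c (l 16762768) (l 16762040))) (c (l 16760792) (l 16760608))) (a (a (b (l 16762992) (b (l 16763480) (a (l 16763912) (l 16763376)))) (b (l 16762272) (l 16763248))) (c (l 16762728) (c (l 16762616) (l 16762544))))) (b (a (b (a (a (l 3) (c (l 16763944) (l 7683938151))) (b (c (l 16763456) (l 16764024)) (c (l 16763800) (l 16764040)))) (l 3)) (a (b (c (l 16763232) (l 16763776)) (b (c (l 16763728) (l 16764280)) (l 3))) (b (l 16762776) (c (l 16763496) (l 16763704))))) (a (l 3) (a (l 3) (b (a (l 3) (l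 13052647975)) (l 3))))))) (l 3)), by decide +kernel⟩

def k83_pp_012_a : ∃ t, chk3 f_pp_012_a t 215 48 1 = true :=
  ⟨(b (a (a (b (b (l 16760552) (a (l 16761400) (l 16761000))) (b (c (l 16763240) (c (l 16763120) (l 16763040))) (b (a (b (l 16763848) (l 8220809719)) (l 16763608)) (a (l 3) (a (l 10368293671) (l 1778358855)))))) (b (c (l 16761176) (l 16760592)) (b (c (l 16761800) (l 16761592)) (a (c (l 16763936) (c (l 16763824) (l 16763584))) (c (l 16762888) (l 16762712)))))) (b (c (l 16759984) (c (l 16761048) (l 16759568))) (b (c (l 16761912) (l 16761640)) (a (a (l 16763048) (l 16761984)) (l 16762016))))) (b (b (a (a (l 3) (b (a (c (l 16764288) (l 16764472)) (c (l 16763864) (l 16764368))) (l 3))) (b (a (a (l 16763368) (l 16762960)) (l 16762344)) (a (a (a (l 16764472) (l 16764256)) (l 16764024)) (l 16763488)))) (a (l 3) (a (b (a (l 3) (a (l 3) (l 16764184))) (l 3)) (b (c (l 16763752) (c (l 16763608) (l 16764168))) (a (l 3) (a (l 16764216) (l 16764000))))))) (l 3))), by decide +kernel⟩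

def k84_pp_012_a : ∃ t, chk3 f_pp_012_a t 53 49 1 = true :=
  ⟨(l 3), by decide +kernel⟩

def k85_pp_012_a : ∃ t, chk3 f_pp_012_a t 26 25 1 = true :=
  ⟨(l 3), by decide +kernel⟩

def k86_pp_012_a : ∃ t, chk3 f_pp_012_a t 54 48 1 = true :=
  ⟨(b (b (a (c (a (c (l 16758968) (l 16758744)) (l 16758152)) (a (a (l 16759264) (l 16754912)) (l 16757528))) (a (l 16753048) (l 16745560))) (a (a (a (c (l 16760944) (a (l 16761032) (l 16758856))) (c (l 16757984) (l 16760184))) (c (l 16758096) (c (l 16757688) (l 16757408)))) (a (a (l 16752592) (l 16750832)) (l 16748152)))) (a (a (a (b (a (b (c (l 16761976) (l 16761712)) (c (l 16763264) (c (l 16763096) (l 16763640)))) (c (l 16763112) (c (l 16762896) (l 16762096)))) (a (b (b (c (l 16764256) (a (l 16764264) (l 16763824))) (c (l 16764944) (l 6610199223))) (l 3)) (b (b (l 16763952) (c (l 16764072) (a (l 16764064) (l 16763624)))) (b (c (l 16764752) (c (l 16764584) (l 16765136))) (l 3))))) (b (c (l 16761880) (a (l 16761960) (l 16761088))) (b (c (l 16763816) (c (l 16763592)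 (l 16762792))) (a (b (c (l 16763896) (l 16764296)) (c (l 16764560) (a (l 16764552) (l 16764096)))) (c (l 16763384) (l 16763760)))))) (a (b (c (l 16758896) (l 16759776)) (a (c (l 16763216) (c (l 16761648) (l 16762792))) (c (l 16761064) (l 16761992)))) (b (c (l 16757208) (l 16756696)) (c (l 16762408) (c (l 16762080) (l 16760552)))))) (b (a (a (l 16757824) (l 16753432)) (a (l 16751648) (l 16749840))) (c (a (c (l 16759960) (l 16759696)) (l 16758936)) (a (a (l 16760184) (l 16755752)) (l 16755632)))))), by decide +kernel⟩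

def k87_pp_012_a : ∃ t, chk3 f_pp_012_a t 54 98 1 = true :=
  ⟨(b (a (b (a (a (l 3) (a (l 3) (b (c (l 16764368) (c (l 16764176) (l 16764704))) (c (l 16765056) (l 1778361303))))) (a (a (a (b (l 16763592) (l 16764744)) (l 16763976)) (c (l 16763008) (l 16762680))) (c (l 16761736) (l 16762336)))) (a (l 3) (a (a (a (l 3) (c (l 16764976) (c (l 16764768) (l 16765296)))) (a (b (l 16764048) (l 16765048)) (b (l 16763616) (l 16764600)))) (c (l 16764344) (a (l 16763128) (l 16762240)))))) (a (a (c (l 16761976) (c (l 16761648) (l 16761424))) (c (l 16758928) (l 16760384))) (c (l 16759880) (c (l 16758440) (l 16758792))))) (a (a (l 3) (a (a (l 3) (b (c (l 16765680) (l 11978908439)) (l 3))) (a (b (a (c (l 16765000) (c (l 16764776) (l 16765296))) (b (l 16764064) (l 16765064))) (l 3)) (b (c (l 16763904) (c (l 16763656) (l 16764152))) (b (c (l 16764904) (c (l 16764664) (l 16765176))) (l 3)))))) (a (a (a (b (c (l 16763048) (l 16762680)) (c (l 16765008) (a (a (l 16765016) (l 16764128)) (l 16764448)))) (c (l 16764144) (b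 (l 16761776) (l 16763112)))) (a (c (l 16761960) (c (l 16761640) (l 16762744))) (b (l 16760200) (l 16762824)))) (a (c (l 16762384) (c (l 16759384) (l 16760440))) (a (l 16760768) (l 16757240)))))), by decide +kernel⟩

def k88_pp_012_a : ∃ t, chk3 f_pp_012_a t 54 99 1 = true :=
  ⟨(a (l 3) (b (a (b (a (a (a (l 3) (b (l 16764968) (l 3))) (c (l 16765296) (b (l 16764616) (c (l 16764888) (l 16764728))))) (a (c (l 16763912) (c (l 16763640) (l 16764112))) (c (l 16763040) (l 16762640)))) (a (l 3) (a (b (c (l 16764912) (c (l 16764648) (l 16765136))) (l 15200132055)) (c (l 16764352) (a (a (l 16764976) (l 16764096)) (l 16763752)))))) (a (b (c (l 16761712) (l 16762576)) (c (l 16764328) (c (l 16764016) (l 16763488)))) (c (l 16761896) (c (l 16762832) (l 16761272))))) (a (a (l 3) (a (l 3) (b (a (l 3) (b (l 16764936) (l 3))) (l 3)))) (a (a (b (a (b (l 16764808) (l 16765160)) (b (l 16764024) (l 1241489687))) (l 3)) (b (c (l 16763888) (l 16764136)) (a (b (l 16764912) (l 3)) (b (l 16764448) (l 16765128))))) (a (b (c (l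 16762992) (l 16762560)) (c (l 16764304) (a (l 16764792) (l 16763672)))) (c (l 16764064) (c (l 16762416) (l 16763512)))))))), by decide +kernel⟩

def k89_pp_012_a : ∃ t, chk3 f_pp_012_a t 55 24 1 = true :=
  ⟨(b (b (a (a (l 16748472) (l 16739544)) (l 16744392)) (a (a (a (l 16754568) (l 16747488)) (l 16749952)) (c (l 16750016) (l 16749040)))) (b (a (c (a (a (l 16760128) (l 16753064)) (l 16755552)) (a (a (l 16758152) (l 16757600)) (l 16754768))) (a (l 16751400) (l 16742344))) (a (b (a (a (a (l 16760272) (l 16758040)) (a (l 16757120) (l 16756192))) (c (l 16754208) (l 16758760))) (a (a (c (l 16763368) (a (l 16762680) (l 16760440))) (c (l 16759576) (l 16760344))) (c (l 16759440) (c (l 16758968) (l 16758664))))) (a (c (l 16757016) (c (l 16756472) (l 16756096))) (a (l 16748544) (l 16746624)))))), by decide +kernel⟩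

def k90_pp_012_a : ∃ t, chk3 f_pp_012_a t 54 25 1 = true :=
  ⟨(b (a (l 3) (b (a (l 3) (b (a (l 3) (a (a (l 3) (b (b (l 16764872) (l 3)) (l 3))) (b (c (l 16764728) (a (l 16764888) (l 16764088))) (c (l 16766736) (l 16765696))))) (l 3))) (l 3))) (l 3)), by decide +kernel⟩

def k91_pp_012_a : ∃ t, chk3 f_pp_012_a t 55 50 1 = true :=
  ⟨(a (b (a (b (b (a (c (l 16764680) (c (l 16764344) (l 16764128))) (a (l 16761752) (l 16760832))) (c (a (a (l 16765144) (l 16764224)) (l 16762864)) (a (a (a (l 16764984) (l 16764840)) (l 16764456)) (c (l 16762504) (l 16763592))))) (a (a (l 3) (b (c (l 16765568) (c (l 16765264) (l 16765400))) (l 3))) (a (b (b (l 16764744) (a (l 16764992) (l 16764520))) (a (l 3) (l 16765544))) (b (c (l 16763720) (l 16763272)) (c (l 16765048) (c (l 16764728) (l 16764864))))))) (b (a (c (l 16762992) (l 16761632)) (c (l 16758512) (l 16757928))) (c (a (c (l 16764440) (l 16764192)) (l 16763768)) (b (a (l 16763168) (l 16759952)) (a (a (l 16763680) (l 16762728)) (l 16761304)))))) (a (l 3) (a (b (a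 (b (c (l 16765464) (c (l 16765144) (l 16764952))) (l 3)) (b (c (l 16764528) (l 16764744)) (c (l 16767184) (l 16765456)))) (l 3)) (a (b (b (l 16764016) (b (l 16764368) (l 16765040))) (l 3)) (b (c (l 16763328) (l 16763840)) (b (c (l 16765336) (l 16764904)) (l 3))))))) (a (a (b (b (l 16756328) (a (l 16759464) (l 16758520))) (b (c (l 16763240) (c (l 16762856) (l 16762608))) (c (a (b (l 16764384) (l 16767048)) (l 16764776)) (a (b (l 16763936) (l 16765312)) (b (l 16762976) (l 16764344)))))) (b (c (l 16761320) (l 16758064)) (c (b (l 16760040) (l 16764016)) (b (l 16762112) (c (l 16763640) (l 16763408)))))) (b (c (l 16758464) (c (l 16757952) (l 16756304))) (a (b (l 16760472) (a (l 16762328) (l 16760056))) (b (l 16755920) (l 16761224)))))), by decide +kernel⟩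

def k92_pp_012_a : ∃ t, chk3 f_pp_012_a t 55 51 1 = true :=
  ⟨(a (l 3) (b (a (b (a (b (c (l 55465453607) (a (l 3) (l 16765720))) (l 3)) (a (b (c (l 16765184) (l 16764744)) (l 3)) (b (l 16763992) (a (l 16766496) (l 16765112))))) (l 3)) (b (a (a (b (l 16763032) (l 16765040)) (c (l 16763000) (l 16762520))) (c (l 16761560) (l 16762368))) (b (a (a (c (l 40433070391) (l 16765552)) (l 16764992)) (c (l 16763576) (l 16763104))) (a (l 3) (a (a (l 13589523015) (l 16764936)) (l 16764208)))))) (a (l 3) (b (a (l 3) (a (l 3) (b (b (l 16765888) (l 3)) (l 3)))) (l 3))))), by decide +kernel⟩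

def k93_pp_012_a : ∃ t, chk3 f_pp_012_a t 6 13 1 = true :=
  ⟨(l 3), by decide +kernel⟩

def k94_pp_012_a : ∃ t, chk3 f_pp_012_a t 6 7 1 = true :=
  ⟨(l 3), by decide +kernel⟩

def k95_pp_012_a : ∃ t, chk3 f_pp_012_a t 7 2 1 = true :=
  ⟨(a (b (a (b (a (b (l 16608272) (l 16622712)) (b (l 16595304) (l 16609128))) (a (b (l 16639608) (l 16656936)) (b (l 16625336) (l 16642024)))) (b (a (l 16588616) (l 16574896)) (b (a (l 16610672) (l 16595912)) (a (l 16626752) (l 16611376))))) (a (b (a (b (l 16671864) (a (l 16710520) (l 16681904))) (b (l 16656568) (l 16691168))) (a (a (b (b (l 16699496) (l 16706400)) (c (l 16738744) (l 16736872))) (b (b (l 16691672) (l 16698504)) (l 16735200))) (a (b (b (l 16683824) (l 16690520)) (l 16700976)) (b (l 16700272) (l 16703400))))) (b (a (b (l 16640952) (l 16654424)) (b (l 16625264) (l 16638640))) (b (a (l 16688456) (l 16651744)) (a (a (l 16705904) (l 16698032)) (a (l 16690280) (l 16663024))))))) (b (a (a (b (l 16561368) (l 16609760)) (b (l 16548280) (l 16595336))) (a (b (l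 16536104) (l 16581888)) (b (l 16567040) (l 16590552)))) (a (b (b (a (l 16609736) (l 16594888)) (a (l 16623112) (l 16608344))) (a (b (l 16647064) (a (l 16656832) (l 16655808))) (b (c (l 16622600) (l 16632192)) (b (a (l 16638416) (l 16632248)) (a (l 16649896) (b (l 16640584) (l 16646160))))))) (b (a (b (l 16581000) (l 16594632)) (b (l 16568160) (l 16592320))) (b (b (a (l 16605136) (l 16608224)) (a (c (l 16613352) (l 16612304)) (a (l 16603560) (l 16597696)))) (a (b (a (l 16626072) (l 16619888)) (a (b (l 16634168) (l 16639600)) (b (l 16627768) (l 16633056)))) (b (a (l 16608488) (l 16602352)) (a (b (l 16621408) (c (l 16628224) (l 16625080))) (b (l 16615080) (c (l 16621784) (l 16618632))))))))))), by decide +kernel⟩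

def k96_pp_012_a : ∃ t, chk3 f_pp_012_a t 28 12 1 = true :=
  ⟨(a (b (a (a (b (l 16730728) (c (l 16752008) (l 16751144))) (b (l 16726840) (l 16747680))) (b (l 16741904) (c (l 16752616) (l 16751816)))) (b (a (a (b (c (l 16749368) (l 16753888)) (a (c (l 16755632) (l 16757640)) (l 16755992))) (b (l 16745096) (a (l 16751416) (l 16749448)))) (a (a (l 16755288) (l 16753296)) (l 16750304))) (a (b (b (a (a (l 16760672) (l 16757416)) (c (l 16754768) (l 16754176))) (a (a (c (l 16764944) (l 16762984)) (c (l 16760392) (l 16759872))) (a (l 16758160) (l 16756192)))) (a (b (b (a (a (l 16765256) (l 16763624)) (l 16763472)) (a (a (l 56539195447) (a (l 32380001623) (l 16764752))) (c (l 16763768) (l 16763304)))) (a (l 3) (a (b (b (l 16765696) (a (l 3) (l 16765488))) (l 3)) (b (l 16765064) (a (l 3) (b (l 16765192) (l 3))))))) (b (a (c (l 16761144) (l 16763264)) (l 16761536)) (a (a (b (l 16763424) (c (l 16767648) (l 16764592))) (c (l 16763368) (l 16762912))) (a (l 16762800) (l 16761160)))))) (a (a (b (l 16758096) (b (l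 16756936) (a (l 16760168) (l 16759176)))) (b (l 16750872) (c (l 16761824) (l 16761304)))) (b (l 16758360) (c (l 16758824) (l 16760928))))))) (b (b (c (l 16730104) (l 16729608)) (a (l 16744216) (l 16715144))) (b (a (c (l 16749768) (l 16749216)) (l 16736120)) (a (a (a (l 16756752) (l 16756040)) (l 16752992)) (a (l 16748904) (l 16755272)))))), by decide +kernel⟩

def k97_pp_012_a : ∃ t, chk3 f_pp_012_a t 56 26 1 = true :=
  ⟨(b (a (b (a (l 3) (b (b (a (a (a (l 3) (l 80161515495)) (c (l 25937553991) (l 16764992))) (c (l 16766568) (l 6073325255))) (a (l 3) (c (a (l 71571580647) (l 16767448)) (c (c (l 16766352) (l 16765760)) (l 16765128))))) (a (l 3) (a (l 3) (c (l 86603968343) (l 89288322103)))))) (l 3)) (b (a (a (b (c (l 16765280) (l 16762536)) (b (c (a (l 23790072551) (l 16764224)) (l 16764784)) (a (l 3) (a (b (l 10368299895) (l 3)) (b (l 16764792) (l 23790073095)))))) (b (a (l 16760936) (l 16759936)) (c (c (l 16767480) (l 16765936)) (l 16764304)))) (a (a (c (l 16765800) (l 16762720)) (l 16760552)) (a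 (l 16758976) (l 16757312)))) (a (b (a (l 3) (c (b (a (l 78014031959) (l 20568846983)) (a (l 3) (l 83382741863))) (b (c (c (l 8757687383) (l 16767760)) (l 16766312)) (l 92509547575)))) (l 3)) (b (c (a (a (b (l 16764008) (a (l 45801780471) (l 36674973975))) (l 16766328)) (l 16767448)) (a (c (l 16765848) (l 16765008)) (l 16764400))) (b (a (a (l 3) (c (c (l 74255935399) (l 42580554743)) (l 16767360))) (c (c (l 23790071927) (l 16766800)) (l 16765200))) (a (l 3) (a (c (c (l 80161516199) (l 84456483063)) (l 19495106247)) (b (l 16767248) (a (l 50633618871) (l 15737008583)))))))))) (a (l 3) (b (a (l 3) (b (a (l 3) (b (c (a (l 3) (l 90362064103)) (l 97341386215)) (l 3))) (l 3))) (l 3)))), by decide +kernel⟩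

def k98_pp_012_a : ∃ t, chk3 f_pp_012_a t 57 26 1 = true :=
  ⟨(b (a (a (b (c (l 16760272) (l 16757192)) (a (b (l 16759968) (c (l 16766912) (l 16765200))) (a (l 16762472) (l 16761464)))) (b (l 16755976) (a (l 16762560) (l 16760512)))) (a (c (l 16760048) (l 16757120)) (l 16755792))) (a (b (a (b (a (a (b (c (c (b (l 34527489735) (l 79087773879)) (l 41506812503)) (l 16766504)) (l 3)) (b (c (l 16767192) (l 16764192)) (b (a (l 52244231639) (l 36138103447)) (l 3)))) (a (b (l 16765976) (a (b (l 16767288) (l 42043683703)) (l 16767136))) (l 16766408))) (b (a (l 3) (a (c (c (l 87677709335) (l 92509547127)) (l 56539198791)) (c (a (b (l 16766576) (l 54391714727)) (l 31306264695)) (l 16767616)))) (l 3))) (b (c (l 16765928) (l 16762952)) (a (b (c (l 16766456) (l 16763480)) (c (a (c (b (l 35064360983) (l 86603966983)) (l 43117425607)) (l 23790071591)) (c (l 11978912503) (l 16766256)))) (l 16766240)))) (a (l 3) (b (a (a (l 3) (b (b (a (l 55465456999) (l 39359328791)) (l 3)) (l 3))) (a (b (c (c (c (l 30232522647)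 (l 16766816)) (l 16766344)) (l 16767560)) (c (c (l 98415127895) (l 102710094903)) (l 94657031255))) (b (l 16766552) (a (b (l 37211844567) (l 72645325671)) (c (l 31843135703) (l 16765192)))))) (l 3)))) (b (a (a (l 16763432) (l 16762048)) (l 16759208)) (a (b (a (a (b (l 16765552) (l 22716329335)) (l 16765320)) (l 16763848)) (a (a (b (a (b (a (l 71571583255) (l 59760422679)) (l 3)) (b (l 37211844087) (l 74792808839))) (l 3)) (a (b (c (l 29158780631) (l 16765192)) (l 3)) (b (l 16766664) (b (a (l 72645324583) (l 59223551351)) (l 3))))) (b (l 16766080) (a (c (a (b (l 16766616) (l 61907906567)) (l 16766824)) (l 11442042695)) (l 16766096))))) (a (b (l 16759304) (l 16766184)) (l 16762800)))))), by decide +kernel⟩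

def k99_pp_012_a : ∃ t, chk3 f_pp_012_a t 28 27 1 = true :=
  ⟨(a (l 3) (b (a (l 3) (b (a (b (a (l 3) (b (c (a (b (l 104320707863) (l 3)) (a (b (l 50633616887) (l 3)) (b (l 16765312) (l 60834164567)))) (a (l 99488869127) (c (l 38822459575) (l 14663268471)))) (l 3))) (l 3)) (b (a (a (b (c (l 16766912) (l 16764928)) (c (b (a (l 72645324823) (l 45801778519)) (l 104857579271)) (l 81772127943))) (b (l 16766592) (b (l 16766384) (a (a (l 79624646087) (l 64592260199)) (l 16766224))))) (c (l 16765872) (l 16764512))) (a (a (l 3) (a (l 3) (b (c (b (l 69960970071) (l 3)) (l 95730773431)) (l 3)))) (a (b (b (c (l 38285585575) (l 16765536)) (c (a (l 80161517735) (l 53854842263)) (l 81772128887))) (a (l 3) (b (l 96267645287) (l 3)))) (b (c (l 16767568) (l 16764912)) (b (a (a (l 80698388135) (l 66202873079)) (l 48486132567)) (a (l 3) (a (l 97341386247) (l 80161516791))))))))) (l 3))) (l 3))), by decide +kernel⟩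

def k100_pp_012_a : ∃ t, chk3 f_pp_012_a t 29 12 1 = true :=
  ⟨(b (a (b (l 16715280) (l 16725552)) (b (a (l 16686936) (l 16702136)) (c (l 16716384) (l 16724448)))) (a (a (b (l 16738944) (l 16739408)) (b (l 16712216) (l 16733216))) (a (c (l 16736152) (l 16731832)) (b (l 16700904) (l 16731568))))), by decide +kernel⟩

def k101_pp_012_a : ∃ t, chk3 f_pp_012_a t 29 26 1 = true :=
  ⟨(a (b (a (c (l 16750808) (l 16750336)) (c (l 16744328) (l 16743488))) (b (a (l 16755720) (l 16751992)) (a (a (l 16759968) (l 16757600)) (l 16752208)))) (a (b (b (l 16724296) (l 16739960)) (c (l 16741744) (l 16742168))) (b (c (l 16742304) (l 16740688)) (b (l 16738528) (l 16738392))))), by decide +kernel⟩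

def k102_pp_012_a : ∃ t, chk3 f_pp_012_a t 58 54 1 = true :=
  ⟨(b (a (a (b (l 16764040) (a (b (l 16766104) (c (c (l 16767400) (l 16767568)) (l 16767520))) (l 16766216))) (c (l 16763336) (l 16761832))) (a (l 16759544) (l 16750664))) (a (a (a (b (a (b (b (a (l 97341386375) (l 72108452775)) (l 105394451143)) (l 3)) (b (b (l 16766208) (a (l 71034711031) (l 16766040))) (a (l 3) (a (l 110226288487) (l 100025740183))))) (l 3)) (b (b (c (l 16767104) (l 16764392)) (a (b (c (l 16766048) (l 16765976)) (a (l 99488870119) (l 73719065351))) (l 16765744))) (b (a (c (l 97878258359) (l 101636355847)) (a (b (l 78550904247) (l 3)) (b (l 16766264) (l 85530226599)))) (l 3)))) (b (a (a (l 16767664) (l 16762768)) (l 16766576)) (a (b (c (l 16768392) (l 16766488)) (a (a (l 91972678327) (b (l 16766744) (l 99488871335))) (c (c (l 16769032) (l 16766392)) (l 16766296)))) (c (l 16766872) (c (l 16766776) (l 16766680)))))) (b (a (l 16761128) (l 16754792)) (a (a (a (l 16765376) (l 16761808)) (l 16765624)) (c (l 16757712) (l 16757416)))))),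 by decide +kernel⟩

def k103_pp_012_a : ∃ t, chk3 f_pp_012_a t 116 55 1 = true :=
  ⟨(b (a (l 3) (b (a (a (l 3) (b (c (l 95193904343) (l 69960971879)) (l 3))) (a (b (c (c (l 24863817735) (l 9294561239)) (l 8220816423)) (c (l 104320711495) (l 73182198311))) (a (b (l 16766104) (c (l 68350358759) (l 10368301687))) (b (l 16765616) (a (l 17347621127) (l 21105717207)))))) (l 3))) (l 3)), by decide +kernel⟩

def k104_pp_012_a : ∃ t, chk3 f_pp_012_a t 117 55 1 = true :=
  ⟨(a (b (b (a (a (c (l 16768280) (c (l 16765568) (l 16766776))) (c (l 16764704) (l 16765856))) (c (l 16763288) (c (l 16763160) (l 16763032)))) (b (a (b (a (a (l 16767664) (l 16767152)) (l 16766416)) (a (l 67276617015) (a (l 16767384) (l 16766888)))) (c (l 16765392) (l 16766544))) (a (a (l 3) (c (l 62444779527) (b (l 16767800) (l 3)))) (a (a (b (l 16767120) (l 16767856)) (b (l 16766632) (l 16767344))) (c (l 16766320) (l 16766168)))))) (b (a (l 3) (b (c (a (l 66739748439) (b (l 16767384) (l 16768128))) (a (l 72108454615) (b (l 16767904) (l 16767984))))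 (l 3))) (l 3))) (b (b (a (a (l 16761784) (l 16760840)) (l 16762048)) (a (c (a (l 16767288) (l 16763720)) (c (l 16765376) (l 16765584))) (c (l 16762312) (l 16763400)))) (b (b (c (a (a (l 16766768) (l 16765808)) (l 16764392)) (a (c (l 16767168) (c (l 16767416) (l 16767352))) (l 16764200))) (a (c (a (b (l 16767840) (l 16768600)) (c (l 16767232) (l 16767192))) (b (a (a (l 16767952) (l 16767448)) (l 16766712)) (a (l 16768456) (a (l 16767672) (l 16767176))))) (c (c (l 16765800) (l 16765744)) (c (l 16766976) (l 16766864))))) (a (a (l 3) (a (l 3) (b (c (l 16768424) (c (l 16768328) (l 16768224))) (l 3)))) (b (a (b (a (a (l 10368300439) (l 16767360)) (l 16767000)) (a (a (l 16768352) (l 16768088)) (c (l 16767760) (l 16767624)))) (c (l 16766688) (l 16767848))) (b (a (c (l 16768768) (l 16767976)) (a (b (l 11442042471) (l 16768112)) (a (l 16767560) (l 16767320)))) (a (l 3) (a (l 3) (c (l 16768208) (l 16768080)))))))))), by decide +kernel⟩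

def k105_pp_012_a : ∃ t, chk3 f_pp_012_a t 59 27 1 = true :=
  ⟨(b (b (a (a (l 16752320) (l 16743544)) (c (l 16749256) (l 16748360))) (a (a (b (l 16751152) (l 16759128)) (l 16754144)) (a (l 16755816) (l 16741792)))) (a (a (b (a (b (l 16757560) (a (l 16760800) (l 16759856))) (b (l 16755712) (l 16758456))) (b (a (b (l 16763720) (a (l 16764272) (l 16763320))) (c (l 16761328) (l 16761072))) (b (a (a (c (l 16765736) (l 16765576)) (l 16764712)) (a (l 16763760) (l 16762816))) (c (a (a (a (l 16767360) (l 16766880)) (l 16766168)) (l 16765896)) (a (a (b (l 16766632) (l 4462721511)) (l 16766016)) (l 16765880)))))) (a (b (c (l 16760672) (l 16760280)) (b (l 16761960) (b (l 16761400) (l 16763432)))) (b (l 16758648) (b (l 16757472) (a (l 16760672) (l 16759736)))))) (b (a (c (l 16756176) (l 16755648)) (l 16752304)) (a (b (l 16757320) (c (l 16762808) (l 16759848))) (c (l 16757864) (l 16754104)))))), by decide +kernel⟩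

def k106_pp_012_a : ∃ t, chk3 f_pp_012_a t 28 7 1 = true :=
  ⟨(l 3), by decide +kernel⟩

def k107_pp_012_a : ∃ t, chk3 f_pp_012_a t 58 28 1 = true :=
  ⟨(l 3), by decide +kernel⟩

def k108_pp_012_a : ∃ t, chk3 f_pp_012_a t 118 56 1 = true :=
  ⟨(b (a (b (a (b (b (a (a (a (l 16768520) (l 16768256)) (a (l 8220817463) (l 16767760))) (c (l 16767200) (l 16767072))) (a (c (l 16768936) (l 16768800)) (a (a (l 16768232) (l 16767976)) (l 16767608)))) (b (a (l 3) (a (l 3) (a (l 16768456) (l 16768200)))) (l 3))) (a (c (b (l 16766600) (b (l 16767632) (a (l 16768592) (l 16768088)))) (b (l 16766456) (a (a (l 16768248) (l 16767992)) (l 16768280)))) (c (b (l 16765648) (c (l 16767032) (l 16767000))) (c (l 16766896) (l 16767448))))) (a (l 3) (b (b (a (c (l 16768760) (l 16768976)) (c (c (l 16768064) (l 16768048)) (l 16767952))) (a (l 3) (a (l 16769008) (l 16768448)))) (l 3)))) (a (b (b (a (l 16764632) (l 16763680)) (a (a (l 16766256) (l 16765776)) (l 16765056))) (a (b (c (c (l 16767448) (l 16767424)) (l 16767336)) (a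 (c (l 12515786135) (l 16769024)) (b (l 16768208) (l 16768936)))) (b (c (l 16767800) (l 16766368)) (c (a (l 16768264) (l 16767616)) (l 16768096))))) (c (b (l 16763696) (c (l 16767080) (l 16766712))) (b (l 16764144) (c (l 16766320) (b (l 16764872) (l 16766272))))))) (a (l 3) (b (a (a (l 3) (b (b (c (l 16768928) (l 16768848)) (l 3)) (l 3))) (a (c (b (c (l 16768944) (l 16768280)) (l 49559879911)) (b (c (l 16768240) (l 16768176)) (b (l 16769304) (l 3)))) (b (l 16768600) (a (b (l 16768576) (l 16769312)) (l 16769096))))) (l 3)))), by decide +kernel⟩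

def k109_pp_012_a : ∃ t, chk3 f_pp_012_a t 119 56 1 = true :=
  ⟨(b (c (a (a (a (l 16764960) (l 16764680)) (l 16763288)) (l 16760520)) (a (a (c (l 16764344) (l 16763728)) (l 16761728)) (l 16760208))) (b (a (a (a (b (l 16766336) (l 16769024)) (l 16767376)) (c (l 16767312) (l 16764568))) (c (l 16764504) (l 16764328))) (a (a (b (a (b (l 16770072) (a (l 3) (l 16769232))) (l 16769448)) (a (l 3) (b (a (l 16770760) (l 16768936)) (l 3)))) (b (l 16769320) (c (l 16769392) (l 16770672)))) (c (l 16767832) (l 16767096))))), by decide +kernel⟩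

def k110_pp_012_a : ∃ t, chk3 f_pp_012_a t 59 57 1 = true :=
  ⟨(a (l 3) (b (b (a (a (l 3) (a (a (l 3) (b (l 50633625575) (l 3))) (b (c (l 16770400) (l 16770288)) (l 118816230199)))) (a (b (l 16770152) (a (c (l 26474433591) (l 47412401095)) (l 16771144))) (l 16768936))) (a (l 3) (a (b (a (l 3) (b (l 43654303335) (l 84456494199))) (l 3)) (b (c (c (l 13052662839) (l 13052662391)) (c (l 13052661895) (l 16771024))) (a (a (l 3) (c (l 107005070023) (l 113447520487))) (b (c (l 16769304) (l 16769392)) (a (c (l 99488877703) (l 115595003895)) (b (l 16769480) (l 64592266631))))))))) (a (l 3) (b (a (l 3) (a (l 3) (a (l 3) (a (l 3) (b (b (l 111300037255) (l 3)) (l 3)))))) (l 3))))), by decide +kernel⟩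

def k111_pp_012_a : ∃ t, chk3 f_pp_012_a t 29 29 1 = true :=
  ⟨(l 3), by decide +kernel⟩

def k112_pp_012_a : ∃ t, chk3 f_pp_012_a t 29 15 1 = true :=
  ⟨(l 3), by decide +kernel⟩

def k113_pp_012_a : ∃ t, chk3 f_pp_012_a t 30 6 1 = true :=
  ⟨(b (a (b (b (c (l 16672848) (l 16669792)) (a (l 16706520) (l 16678872))) (b (a (l 16695176) (b (l 16686848) (l 16691624))) (a (l 16704544) (l 16698448)))) (b (b (a (l 16661008) (l 16654192)) (a (l 16671792) (l 16664680))) (b (a (b (l 16679872) (l 16685096)) (l 16675208)) (a (a (l 16693832) (l 16690712)) (a (l 16708296) (l 16683736)))))) (b (a (b (a (l 16724616) (l 16718248)) (a (c (l 16735232) (l 16733680)) (c (l 16718280) (l 16716400)))) (a (b (l 16701352) (l 16721144)) (b (l 16705384) (l 16714456)))) (a (a (b (b (l 16736680) (c (l 16747536) (l 16746536))) (a (b (l 16743488) (l 16751368)) (b (l 16739936) (l 16745128)))) (b (a (l 16734080) (l 16735880)) (b (l 16739880) (c (l 16750664) (l 16749808))))) (a (a (b (l 16721952) (l 16737120)) (b (l 16718504) (l 16728320)))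 (b (b (l 16710928) (l 16715688)) (c (l 16734184) (l 16732808))))))), by decide +kernel⟩

def k114_pp_012_a : ∃ t, chk3 f_pp_012_a t 31 6 1 = true :=
  ⟨(b (a (b (a (b (a (l 16649104) (l 16645720)) (l 16657616)) (b (a (l 16642344) (l 16638992)) (a (l 16652352) (l 16648864)))) (a (b (a (l 16669704) (l 16666056)) (l 16678176)) (b (a (l 16662424) (l 16658816)) (a (l 16672544) (l 16668816))))) (b (a (a (b (l 16635640) (l 16645392)) (b (a (l 16633144) (l 16631480)) (l 16641936))) (b (a (c (l 16630728) (l 16627448)) (c (l 16627416) (l 16624160))) (a (l 16638504) (b (l 16632704) (l 16637424))))) (b (a (a (l 16655224) (l 16651648)) (a (l 16648096) (l 16644568))) (a (a (l 16665112) (l 16661432)) (a (l 16657768) (l 16654144)))))) (a (a (b (b (b (l 16685736) (l 16690528)) (l 16697232)) (b (l 16716872) (b (l 16713440) (l 16718248)))) (b (b (b (l 16678240) (l 16683240)) (b (l 16688096) (l 16692680))) (b (l 16699424) (l 16719200)))) (b (a (b (l 16670544) (a (l 16684928) (l 16681160))) (b (b (l 16663200) (l 16668072))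 (l 16675424))) (a (b (b (l 16690208) (l 16694696)) (l 16701584)) (b (b (l 16682736) (l 16698048)) (a (l 16696248) (l 16692728))))))), by decide +kernel⟩

def k115_pp_012_a : ∃ t, chk3 f_pp_012_a t 60 56 1 = true :=
  ⟨(a (a (a (b (l 16760216) (l 16762968)) (b (l 16758376) (l 16758472))) (b (l 16755624) (l 16760920))) (a (b (l 16757208) (l 16751968)) (l 16750936))), by decide +kernel⟩

def k116_pp_012_a : ∃ t, chk3 f_pp_012_a t 60 57 1 = true :=
  ⟨(a (a (b (b (l 16768696) (a (b (l 16767904) (c (c (l 16770912) (l 16770760)) (c (l 16770640) (l 16770544)))) (l 16769976))) (b (b (a (a (b (a (a (b (l 16769864) (l 110226295559)) (b (l 16769616) (a (l 100562618871) (l 94120167591)))) (c (l 16769584) (l 16769312))) (a (l 3) (b (a (c (l 100562619303) (l 98415134679)) (c (l 45264915047) (l 43654301911))) (a (l 3) (b (c (c (l 58686688327) (l 58686688151)) (c (l 58149817079) (l 57076075063))) (l 72108460855)))))) (b (c (l 16768848) (l 16768584)) (a (b (c (l 16769656) (l 16769376)) (a (c (c (l 29158788007) (l 30769400487))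 (c (l 30232529463) (l 30769400135))) (l 16769744))) (b (l 16769016) (l 16769376))))) (b (c (l 16767384) (l 16769744)) (a (b (l 16768288) (l 16768640)) (l 16767488)))) (b (a (a (l 3) (b (a (a (c (l 66739751991) (l 68350364263)) (c (l 16770224) (l 16770272))) (l 16769704)) (a (l 78014040695) (c (l 16770184) (l 22179465447))))) (a (a (l 16769384) (l 16768896)) (l 16768160))) (a (b (a (l 3) (a (l 3) (a (l 3) (l 68350363719)))) (l 3)) (a (a (b (l 16769880) (l 65666009079)) (l 16769552)) (l 16768824))))) (a (l 3) (b (b (a (a (b (l 79087782375) (l 3)) (b (l 16770048) (l 72645331127))) (c (l 16769616) (l 16769376))) (a (l 3) (a (b (l 16770064) (l 54391722759)) (l 16769800)))) (a (l 3) (a (l 3) (b (l 53317980135) (l 3)))))))) (b (c (l 16765016) (l 16766232)) (a (b (b (l 16769592) (b (l 16769320) (l 16767528))) (a (b (l 16769496) (a (b (l 16770080) (l 50633626503)) (l 16770584))) (l 16769848))) (b (l 16769648) (l 16769040))))) (a (b (l 16762512) (b (l 16766736) (l 16766784))) (b (l 16753528) (l 16764208)))),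 by decide +kernel⟩

def k117_pp_012_a : ∃ t, chk3 f_pp_012_a t 61 28 1 = true :=
  ⟨(a (b (b (l 16749432) (l 16742752)) (b (l 16753176) (a (l 16760368) (l 16751312)))) (b (l 16740112) (a (l 16755456) (l 16751720)))), by decide +kernel⟩

def k118_pp_012_a : ∃ t, chk3 f_pp_012_a t 60 58 1 = true :=
  ⟨(a (b (a (l 3) (b (a (a (l 3) (b (c (l 16771608) (c (l 16771800) (l 34527499575))) (l 3))) (b (c (l 16771784) (l 16771616)) (a (a (c (l 16772520) (l 36138111975)) (l 8757697223)) (l 16771880)))) (a (l 3) (a (l 3) (a (l 3) (b (c (l 16772392) (l 30232534535)) (l 3))))))) (l 3)) (b (b (a (a (l 16770416) (l 16771096)) (l 16768200)) (a (a (b (c (a (l 16771664) (l 16769384)) (l 16772368)) (a (b (c (l 16771344) (l 65129142631)) (l 3)) (c (c (l 16772064) (l 16771992)) (l 16771952)))) (c (c (l 16771256) (l 16771184)) (l 16771104))) (l 16769560))) (b (a (a (l 3) (a (b (c (c (a (l 16772000) (l 16771848)) (l 16771720)) (a (l 37748726135) (l 16770792))) (l 3)) (b (c (l 16771752) (l 16770048)) (b (c (a (l 16772024) (l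 16771528)) (l 16771088)) (l 3))))) (a (b (l 16771232) (a (c (a (c (l 16771896) (l 16771368)) (l 16771544)) (l 16771760)) (l 16771456))) (l 16769984))) (a (l 3) (a (a (a (l 3) (b (c (c (b (l 16771752) (l 3)) (l 24326952087)) (l 49559884263)) (l 3))) (b (b (c (l 16771664) (l 16770496)) (c (c (a (l 9294566759) (l 16771616)) (l 12515791975)) (l 16771192))) (a (l 3) (b (c (l 22716339463) (l 16771320)) (l 3))))) (c (a (b (l 16771208) (b (c (c (a (l 16771736) (l 16771984)) (l 16771576)) (l 16771576)) (a (l 3) (a (l 22716339287) (b (l 16771720) (l 16771424)))))) (c (c (l 7147082743) (l 16771584)) (l 16772232))) (b (l 16772000) (a (a (l 37211853239) (l 31843143943)) (l 16772224))))))))), by decide +kernel⟩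

def k119_pp_012_a : ∃ t, chk3 f_pp_012_a t 60 59 1 = true :=
  ⟨(a (l 3) (b (a (l 3) (b (b (a (l 3) (a (l 3) (a (b (a (l 33990628343) (b (a (l 32916886263) (l 33990628071)) (l 3))) (l 3)) (c (b (a (b (l 16771024) (l 28085048151)) (l 16771608)) (b (l 32380015591) (l 3))) (l 37211853207))))) (l 3)) (l 3))) (l 3))), by decide +kernel⟩

def k120_pp_012_a : ∃ t, chk3 f_pp_012_a t 61 58 1 = true :=
  ⟨(a (b (a (l 16765680) (l 16756632)) (a (a (b (l 16770688) (c (l 16770792) (l 16770744))) (l 16770120)) (l 16767240))) (b (l 16757496) (a (l 16763400) (l 16754336)))), by decide +kernel⟩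

def k121_pp_012_a : ∃ t, chk3 f_pp_012_a t 61 118 1 = true :=
  ⟨(a (b (a (c (b (a (a (b (l 16771656) (a (b (l 24863822535) (a (l 39896208183) (l 29158789879))) (l 16771440))) (l 16771032)) (l 16770896)) (a (a (b (a (l 42580563047) (b (a (l 37211853591) (l 16771176)) (a (l 3) (l 42043691799)))) (l 3)) (b (c (l 16771888) (l 16772048)) (a (b (a (l 45801788231) (l 38822466231)) (l 49559884711)) (a (b (l 16771128) (l 44191175431)) (l 16771224))))) (c (l 16771608) (l 16772248)))) (a (a (a (b (l 35064369207) (l 47949272679)) (b (l 16770408) (l 44728046023))) (b (l 16769680) (a (b (l 16770944) (l 37748724599)) (l 16770960)))) (c (l 16771544) (l 16771504)))) (c (l 16770000) (l 16768608))) (a (b (a (a (l 3) (b (a (l 3) (a (l 45264917687) (b (c (l 47412400935) (l 16771528)) (l 3)))) (l 3))) (a (b (a (a (b (l 16771352) (l 46875530103)) (c (c (l 16772080) (l 16771248)) (l 16771208))) (c (l 16772200) (l 16770840))) (a (c (c (l 46875530471) (l 38285596167)) (l 16772032)) (a (b (a (l 50096755559) (l 16771448)) (l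 45264917895)) (b (l 16771264) (a (l 48486143063) (a (l 40969950215) (l 16771512))))))) (c (c (l 16772152) (l 16771808)) (l 16771768)))) (a (l 3) (a (a (l 3) (a (l 3) (b (b (l 22716339927) (l 3)) (l 3)))) (a (b (b (c (a (a (l 33453757815) (l 40433079431)) (l 16771472)) (l 16771552)) (a (l 3) (l 46338659607))) (l 3)) (b (c (c (l 16772272) (l 16772584)) (l 16771232)) (a (b (a (l 16771968) (l 27548177975)) (l 3)) (b (b (l 16771568) (l 37211854183)) (l 25400694615)))))))) (a (a (b (l 16770824) (a (b (l 16770776) (b (l 16771288) (a (a (l 31306274295) (l 16771712)) (l 16771504)))) (c (l 16771960) (l 16770600)))) (c (l 16771872) (l 16771808))) (l 16771048)))) (a (c (l 16767504) (l 16768712)) (l 16763592))), by decide +kernel⟩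

def k122_pp_012_a : ∃ t, chk3 f_pp_012_a t 61 119 1 = true :=
  ⟨(a (a (l 3) (b (a (b (c (a (b (b (a (a (l 16772128) (a (l 16771936) (l 16771808))) (l 16772480)) (a (l 3) (a (l 35601241831) (l 16771720)))) (b (c (a (l 3) (l 37748725751)) (l 35064371511)) (l 3))) (b (l 16772256) (a (b (c (l 16772352) (l 16771688)) (a (l 16772176) (l 35601241751))) (l 16771376)))) (a (b (a (l 25400694935) (l 16772280)) (l 42580564615)) (c (l 29695660807) (l 16771216)))) (b (a (l 3) (b (a (l 37748726295) (a (a (l 16772056) (l 16771928)) (l 16771744))) (a (l 3) (a (l 3) (l 32916887591))))) (l 3))) (a (b (c (l 16771624) (l 16770256)) (a (b (c (l 16771648) (l 16771520)) (b (a (l 16772216) (l 16771976)) (l 28085049927))) (b (l 16771064) (c (l 36138112455) (l 16771712))))) (c (l 16772480) (l 16772584)))) (a (l 3) (b (a (a (l 3) (b (a (l 3) (b (l 16772136) (l 3))) (l 3))) (b (c (c (c (l 16773032) (l 16773032)) (l 16771704)) (l 16772976)) (b (c (l 46338660311) (c (l 16773504) (l 16772160))) (l 48486144119)))) (l 3))))) (b (a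 (c (c (l 16770232) (l 16770200)) (l 16770144)) (l 16766296)) (a (a (a (a (b (l 16772936) (b (l 45801789623) (l 3))) (b (l 16770808) (b (l 16771832) (l 49559886119)))) (c (c (l 16772104) (l 16773392)) (l 16772040))) (l 16771920)) (c (l 16769032) (l 16768960))))), by decide +kernel⟩

def k123_pp_012_a : ∃ t, chk3 f_pp_012_a t 30 15 1 = true :=
  ⟨(b (a (l 3) (b (a (l 3) (b (a (b (b (a (a (l 3) (b (c (l 36138114023) (l 76403431463)) (l 95730786423))) (a (c (l 16772496) (l 16773760)) (l 16770840))) (a (l 3) (a (a (a (l 3) (l 102173235079)) (b (l 3925862103) (l 3))) (b (l 16771856) (c (l 16773880) (c (l 16774176) (l 67813497351))))))) (b (b (b (a (l 3) (c (l 98415139255) (l 106468204103))) (l 3)) (l 3)) (l 3))) (a (b (c (l 16771384) (l 16771992)) (a (b (a (b (l 16773800) (a (l 3) (l 142438553735))) (a (b (l 16772120) (l 89288334407)) (l 16773520))) (b (l 114521267959) (l 3))) (b (l 16772912) (a (b (a (a (l 141901682983) (l 21642602055)) (l 16773728)) (l 3)) (b (l 16772376) (b (c (l 16773552) (l 76403432663))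 (l 95193914327))))))) (b (l 16770064) (a (b (l 16770616) (c (l 16772976) (c (l 16772624) (l 16772944)))) (c (l 16771648) (l 16771616)))))) (a (l 3) (a (l 3) (b (b (b (a (a (b (a (l 144049167751) (l 93046431095)) (l 3)) (a (a (b (l 16772768) (l 141901683751)) (l 16773472)) (l 16772632))) (l 16772672)) (a (a (l 3) (a (l 3) (b (a (l 36138116407) (l 16773736)) (l 3)))) (a (b (l 16773424) (a (a (l 3) (l 29158794327)) (l 16773480))) (l 16773104)))) (b (a (l 3) (b (a (l 108078817335) (a (c (l 16773584) (c (l 16773576) (l 16810763143))) (l 16772840))) (a (l 3) (a (l 3) (b (l 16773424) (a (l 3) (l 16773528))))))) (l 3))) (l 3)))))) (l 3))) (l 3)), by decide +kernel⟩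

def k124_pp_012_a : ∃ t, chk3 f_pp_012_a t 31 7 1 = true :=
  ⟨(b (a (b (b (a (l 16730840) (l 16718288)) (a (a (l 16747984) (l 16744256)) (a (l 16740520) (l 16736792)))) (b (a (a (c (l 16753264) (l 16753040)) (l 16751960)) (a (l 16748160) (l 16741736))) (a (a (b (l 16761048) (a (l 16766048) (l 16765416))) (b (l 16757192) (c (l 16759944) (l 16762456)))) (a (b (l 16753344) (c (l 16758696) (l 16753336))) (b (l 16749504) (l 6)))))) (b (a (b (l 16710992) (a (l 16733072) (l 16729352))) (b (l 16703728) (a (l 16725640) (l 16721944)))) (a (a (b (l 16737952) (b (l 16740424) (l 6))) (b (l 16734160) (l 6))) (b (a (l 16730384) (l 6)) (l 6))))) (a (b (b (a (b (b (a (a (l 16768768) (l 16766808)) (c (l 16763920) (l 16763856))) (a (a (a (a (l 16770896) (l 16770400)) (l 16770320)) (c (l 16769200) (l 16769496))) (a (a (l 16768040) (l 6)) (l 6)))) (a (a (a (b (b (c (l 16772448) (l 16772672)) (a (a (b (l 16773256) (b (b (a (l 31843148615) (l 16773128)) (a (l 3) (c (l 34527503287) (l 38285599655)))) (l 3))) (b (l 16773168)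 (a (b (l 23253213623) (l 3)) (b (l 16772960) (b (c (l 16773552) (l 16773464)) (l 3)))))) (b (l 16772800) (b (c (l 16772984) (l 16772984)) (a (a (b (l 16773096) (a (l 94120173943) (l 6))) (l 16773384)) (l 6)))))) (a (l 3) (l 6))) (b (b (a (l 16771944) (l 16771456)) (b (c (l 16772064) (l 16772056)) (l 6))) (l 6))) (b (b (a (l 16770720) (l 6)) (l 6)) (l 6))) (l 6))) (l 6)) (l 6)) (l 6)) (l 6))), by decide +kernel⟩

theorem s125_pp_012_a : ∃ t, chk3 f_pp_012_a t 61 59 1 = true := ex3_b k121_pp_012_a k122_pp_012_a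

theorem s126_pp_012_a : ∃ t, chk3 f_pp_012_a t 61 29 1 = true := ex3_b k120_pp_012_a s125_pp_012_a

theorem s127_pp_012_a : ∃ t, chk3 f_pp_012_a t 60 29 1 = true := ex3_b k118_pp_012_a k119_pp_012_a

theorem s128_pp_012_a : ∃ t, chk3 f_pp_012_a t 30 29 1 = true := ex3_a s127_pp_012_a s126_pp_012_a

theorem s129_pp_012_a : ∃ t, chk3 f_pp_012_a t 60 28 1 = true := ex3_b k115_pp_012_a k116_pp_012_a

theorem s130_pp_012_a : ∃ t, chk3 f_pp_012_a t 30 28 1 = true := ex3_a s129_pp_012_a k117_pp_012_a

theorem s131_pp_012_a : ∃ t, chk3 f_pp_012_a t 30 14 1 = true := ex3_b s130_pp_012_a s128_pp_012_a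

theorem s132_pp_012_a : ∃ t, chk3 f_pp_012_a t 30 7 1 = true := ex3_b s131_pp_012_a k123_pp_012_a

theorem s133_pp_012_a : ∃ t, chk3 f_pp_012_a t 15 7 1 = true := ex3_a s132_pp_012_a k124_pp_012_a

theorem s134_pp_012_a : ∃ t, chk3 f_pp_012_a t 15 6 1 = true := ex3_a k113_pp_012_a k114_pp_012_a

theorem s135_pp_012_a : ∃ t, chk3 f_pp_012_a t 15 3 1 = true := ex3_b s134_pp_012_a s133_pp_012_a

theorem s136_pp_012_a : ∃ t, chk3 f_pp_012_a t 59 56 1 = true := ex3_a k108_pp_012_a k109_pp_012_a

theorem s137_pp_012_a : ∃ t, chk3 f_pp_012_a t 59 28 1 = true := ex3_b s136_pp_012_a k110_pp_012_a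

theorem s138_pp_012_a : ∃ t, chk3 f_pp_012_a t 29 28 1 = true := ex3_a k107_pp_012_a s137_pp_012_a

theorem s139_pp_012_a : ∃ t, chk3 f_pp_012_a t 29 14 1 = true := ex3_b s138_pp_012_a k111_pp_012_a

theorem s140_pp_012_a : ∃ t, chk3 f_pp_012_a t 29 7 1 = true := ex3_b s139_pp_012_a k112_pp_012_a

theorem s141_pp_012_a : ∃ t, chk3 f_pp_012_a t 14 7 1 = true := ex3_a k106_pp_012_a s140_pp_012_a

theorem s142_pp_012_a : ∃ t, chk3 f_pp_012_a t 58 55 1 = true := ex3_a k103_pp_012_a k104_pp_012_a

theorem s143_pp_012_a : ∃ t, chk3 f_pp_012_a t 58 27 1 = true := ex3_b k102_pp_012_a s142_pp_012_a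

theorem s144_pp_012_a : ∃ t, chk3 f_pp_012_a t 29 27 1 = true := ex3_a s143_pp_012_a k105_pp_012_a

theorem s145_pp_012_a : ∃ t, chk3 f_pp_012_a t 29 13 1 = true := ex3_b k101_pp_012_a s144_pp_012_a

theorem s146_pp_012_a : ∃ t, chk3 f_pp_012_a t 29 6 1 = true := ex3_b k100_pp_012_a s145_pp_012_a

theorem s147_pp_012_a : ∃ t, chk3 f_pp_012_a t 28 26 1 = true := ex3_a k97_pp_012_a k98_pp_012_a

theorem s148_pp_012_a : ∃ t, chk3 f_pp_012_a t 28 13 1 = true := ex3_b s147_pp_012_a k99_pp_012_a

theorem s149_pp_012_a : ∃ t, chk3 f_pp_012_a t 28 6 1 = true := ex3_b k96_pp_012_a s148_pp_012_a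

theorem s150_pp_012_a : ∃ t, chk3 f_pp_012_a t 14 6 1 = true := ex3_a s149_pp_012_a s146_pp_012_a

theorem s151_pp_012_a : ∃ t, chk3 f_pp_012_a t 14 3 1 = true := ex3_b s150_pp_012_a s141_pp_012_a

theorem s152_pp_012_a : ∃ t, chk3 f_pp_012_a t 7 3 1 = true := ex3_a s151_pp_012_a s135_pp_012_a

theorem s153_pp_012_a : ∃ t, chk3 f_pp_012_a t 7 1 1 = true := ex3_b k95_pp_012_a s152_pp_012_a

theorem s154_pp_012_a : ∃ t, chk3 f_pp_012_a t 55 25 1 = true := ex3_b k91_pp_012_a k92_pp_012_a

theorem s155_pp_012_a : ∃ t, chk3 f_pp_012_a t 27 25 1 = true := ex3_a k90_pp_012_a s154_pp_012_a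

theorem s156_pp_012_a : ∃ t, chk3 f_pp_012_a t 54 49 1 = true := ex3_b k87_pp_012_a k88_pp_012_a

theorem s157_pp_012_a : ∃ t, chk3 f_pp_012_a t 54 24 1 = true := ex3_b k86_pp_012_a s156_pp_012_a

theorem s158_pp_012_a : ∃ t, chk3 f_pp_012_a t 27 24 1 = true := ex3_a s157_pp_012_a k89_pp_012_a

theorem s159_pp_012_a : ∃ t, chk3 f_pp_012_a t 27 12 1 = true := ex3_b s158_pp_012_a s155_pp_012_a

theorem s160_pp_012_a : ∃ t, chk3 f_pp_012_a t 107 48 1 = true := ex3_a k82_pp_012_a k83_pp_012_a

theorem s161_pp_012_a : ∃ t, chk3 f_pp_012_a t 53 48 1 = true := ex3_a k81_pp_012_a s160_pp_012_a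

theorem s162_pp_012_a : ∃ t, chk3 f_pp_012_a t 53 24 1 = true := ex3_b s161_pp_012_a k84_pp_012_a

theorem s163_pp_012_a : ∃ t, chk3 f_pp_012_a t 26 24 1 = true := ex3_a k80_pp_012_a s162_pp_012_a

theorem s164_pp_012_a : ∃ t, chk3 f_pp_012_a t 26 12 1 = true := ex3_b s163_pp_012_a k85_pp_012_a

theorem s165_pp_012_a : ∃ t, chk3 f_pp_012_a t 13 12 1 = true := ex3_a s164_pp_012_a s159_pp_012_a

theorem s166_pp_012_a : ∃ t, chk3 f_pp_012_a t 6 12 1 = true := ex3_a k79_pp_012_a s165_pp_012_a

theorem s167_pp_012_a : ∃ t, chk3 f_pp_012_a t 6 6 1 = true := ex3_b s166_pp_012_a k93_pp_012_a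

theorem s168_pp_012_a : ∃ t, chk3 f_pp_012_a t 6 3 1 = true := ex3_b s167_pp_012_a k94_pp_012_a

theorem s169_pp_012_a : ∃ t, chk3 f_pp_012_a t 53 23 1 = true := ex3_a k76_pp_012_a k77_pp_012_a

theorem s170_pp_012_a : ∃ t, chk3 f_pp_012_a t 53 11 1 = true := ex3_b k75_pp_012_a s169_pp_012_a

theorem s171_pp_012_a : ∃ t, chk3 f_pp_012_a t 53 5 1 = true := ex3_b k74_pp_012_a s170_pp_012_a

theorem s172_pp_012_a : ∃ t, chk3 f_pp_012_a t 26 5 1 = true := ex3_a k73_pp_012_a s171_pp_012_a

theorem s173_pp_012_a : ∃ t, chk3 f_pp_012_a t 13 5 1 = true := ex3_a s172_pp_012_a k78_pp_012_a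

theorem s174_pp_012_a : ∃ t, chk3 f_pp_012_a t 13 2 1 = true := ex3_b k72_pp_012_a s173_pp_012_a

theorem s175_pp_012_a : ∃ t, chk3 f_pp_012_a t 25 22 1 = true := ex3_a k69_pp_012_a k70_pp_012_a

theorem s176_pp_012_a : ∃ t, chk3 f_pp_012_a t 25 11 1 = true := ex3_b s175_pp_012_a k71_pp_012_a

theorem s177_pp_012_a : ∃ t, chk3 f_pp_012_a t 25 5 1 = true := ex3_b k68_pp_012_a s176_pp_012_a

theorem s178_pp_012_a : ∃ t, chk3 f_pp_012_a t 48 41 1 = true := ex3_a k63_pp_012_a k64_pp_012_a

theorem s179_pp_012_a : ∃ t, chk3 f_pp_012_a t 48 20 1 = true := ex3_b k62_pp_012_a s178_pp_012_a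

theorem s180_pp_012_a : ∃ t, chk3 f_pp_012_a t 24 20 1 = true := ex3_a s179_pp_012_a k65_pp_012_a

theorem s181_pp_012_a : ∃ t, chk3 f_pp_012_a t 24 10 1 = true := ex3_b s180_pp_012_a k66_pp_012_a

theorem s182_pp_012_a : ∃ t, chk3 f_pp_012_a t 24 5 1 = true := ex3_b s181_pp_012_a k67_pp_012_a

theorem s183_pp_012_a : ∃ t, chk3 f_pp_012_a t 12 5 1 = true := ex3_a s182_pp_012_a s177_pp_012_a

theorem s184_pp_012_a : ∃ t, chk3 f_pp_012_a t 12 2 1 = true := ex3_b k61_pp_012_a s183_pp_012_a

theorem s185_pp_012_a : ∃ t, chk3 f_pp_012_a t 6 2 1 = true := ex3_a s184_pp_012_a s174_pp_012_a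

theorem s186_pp_012_a : ∃ t, chk3 f_pp_012_a t 6 1 1 = true := ex3_b s185_pp_012_a s168_pp_012_a

theorem s187_pp_012_a : ∃ t, chk3 f_pp_012_a t 3 1 1 = true := ex3_a s186_pp_012_a s153_pp_012_a

theorem s188_pp_012_a : ∃ t, chk3 f_pp_012_a t 92 38 1 = true := ex3_a k54_pp_012_a k55_pp_012_a

theorem s189_pp_012_a : ∃ t, chk3 f_pp_012_a t 46 38 1 = true := ex3_a s188_pp_012_a k56_pp_012_a

theorem s190_pp_012_a : ∃ t, chk3 f_pp_012_a t 46 19 1 = true := ex3_b s189_pp_012_a k57_pp_012_a

theorem s191_pp_012_a : ∃ t, chk3 f_pp_012_a t 23 19 1 = true := ex3_a s190_pp_012_a k58_pp_012_a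

theorem s192_pp_012_a : ∃ t, chk3 f_pp_012_a t 23 9 1 = true := ex3_b k53_pp_012_a s191_pp_012_a

theorem s193_pp_012_a : ∃ t, chk3 f_pp_012_a t 23 4 1 = true := ex3_b k52_pp_012_a s192_pp_012_a

theorem s194_pp_012_a : ∃ t, chk3 f_pp_012_a t 90 74 1 = true := ex3_b k47_pp_012_a k48_pp_012_a

theorem s195_pp_012_a : ∃ t, chk3 f_pp_012_a t 90 37 1 = true := ex3_b s194_pp_012_a k49_pp_012_a

theorem s196_pp_012_a : ∃ t, chk3 f_pp_012_a t 45 37 1 = true := ex3_a s195_pp_012_a k50_pp_012_a

theorem s197_pp_012_a : ∃ t, chk3 f_pp_012_a t 45 18 1 = true := ex3_b k46_pp_012_a s196_pp_012_a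

theorem s198_pp_012_a : ∃ t, chk3 f_pp_012_a t 89 73 1 = true := ex3_b k43_pp_012_a k44_pp_012_a

theorem s199_pp_012_a : ∃ t, chk3 f_pp_012_a t 89 36 1 = true := ex3_b k42_pp_012_a s198_pp_012_a

theorem s200_pp_012_a : ∃ t, chk3 f_pp_012_a t 177 72 1 = true := ex3_b k39_pp_012_a k40_pp_012_a

theorem s201_pp_012_a : ∃ t, chk3 f_pp_012_a t 88 72 1 = true := ex3_a k38_pp_012_a s200_pp_012_a

theorem s202_pp_012_a : ∃ t, chk3 f_pp_012_a t 88 36 1 = true := ex3_b s201_pp_012_a k41_pp_012_a

theorem s203_pp_012_a : ∃ t, chk3 f_pp_012_a t 44 36 1 = true := ex3_a s202_pp_012_a s199_pp_012_a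

theorem s204_pp_012_a : ∃ t, chk3 f_pp_012_a t 44 18 1 = true := ex3_b s203_pp_012_a k45_pp_012_a

theorem s205_pp_012_a : ∃ t, chk3 f_pp_012_a t 22 18 1 = true := ex3_a s204_pp_012_a s197_pp_012_a

theorem s206_pp_012_a : ∃ t, chk3 f_pp_012_a t 22 9 1 = true := ex3_b s205_pp_012_a k51_pp_012_a

theorem s207_pp_012_a : ∃ t, chk3 f_pp_012_a t 44 35 1 = true := ex3_a k35_pp_012_a k36_pp_012_a

theorem s208_pp_012_a : ∃ t, chk3 f_pp_012_a t 22 35 1 = true := ex3_a s207_pp_012_a k37_pp_012_a

theorem s209_pp_012_a : ∃ t, chk3 f_pp_012_a t 22 17 1 = true := ex3_b k34_pp_012_a s208_pp_012_a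

theorem s210_pp_012_a : ∃ t, chk3 f_pp_012_a t 22 8 1 = true := ex3_b k33_pp_012_a s209_pp_012_a

theorem s211_pp_012_a : ∃ t, chk3 f_pp_012_a t 22 4 1 = true := ex3_b s210_pp_012_a s206_pp_012_a

theorem s212_pp_012_a : ∃ t, chk3 f_pp_012_a t 11 4 1 = true := ex3_a s211_pp_012_a s193_pp_012_a

theorem s213_pp_012_a : ∃ t, chk3 f_pp_012_a t 11 2 1 = true := ex3_b s212_pp_012_a k59_pp_012_a

theorem s214_pp_012_a : ∃ t, chk3 f_pp_012_a t 175 142 1 = true := ex3_b k28_pp_012_a k29_pp_012_a

theorem s215_pp_012_a : ∃ t, chk3 f_pp_012_a t 175 71 1 = true := ex3_b s214_pp_012_a k30_pp_012_a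

theorem s216_pp_012_a : ∃ t, chk3 f_pp_012_a t 87 71 1 = true := ex3_a k27_pp_012_a s215_pp_012_a

theorem s217_pp_012_a : ∃ t, chk3 f_pp_012_a t 43 71 1 = true := ex3_a k26_pp_012_a s216_pp_012_a

theorem s218_pp_012_a : ∃ t, chk3 f_pp_012_a t 174 141 1 = true := ex3_b k23_pp_012_a k24_pp_012_a

theorem s219_pp_012_a : ∃ t, chk3 f_pp_012_a t 87 141 1 = true := ex3_a s218_pp_012_a k25_pp_012_a

theorem s220_pp_012_a : ∃ t, chk3 f_pp_012_a t 43 141 1 = true := ex3_a k22_pp_012_a s219_pp_012_a

theorem s221_pp_012_a : ∃ t, chk3 f_pp_012_a t 173 140 1 = true := ex3_a k19_pp_012_a k20_pp_012_a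

theorem s222_pp_012_a : ∃ t, chk3 f_pp_012_a t 86 140 1 = true := ex3_a k18_pp_012_a s221_pp_012_a

theorem s223_pp_012_a : ∃ t, chk3 f_pp_012_a t 43 140 1 = true := ex3_a s222_pp_012_a k21_pp_012_a

theorem s224_pp_012_a : ∃ t, chk3 f_pp_012_a t 43 70 1 = true := ex3_b s223_pp_012_a s220_pp_012_a

theorem s225_pp_012_a : ∃ t, chk3 f_pp_012_a t 43 35 1 = true := ex3_b s224_pp_012_a s217_pp_012_a

theorem s226_pp_012_a : ∃ t, chk3 f_pp_012_a t 172 69 1 = true := ex3_b k14_pp_012_a k15_pp_012_a

theorem s227_pp_012_a : ∃ t, chk3 f_pp_012_a t 172 34 1 = true := ex3_b k13_pp_012_a s226_pp_012_a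

theorem s228_pp_012_a : ∃ t, chk3 f_pp_012_a t 86 34 1 = true := ex3_a s227_pp_012_a k16_pp_012_a

theorem s229_pp_012_a : ∃ t, chk3 f_pp_012_a t 43 34 1 = true := ex3_a s228_pp_012_a k17_pp_012_a

theorem s230_pp_012_a : ∃ t, chk3 f_pp_012_a t 43 17 1 = true := ex3_b s229_pp_012_a s225_pp_012_a

theorem s231_pp_012_a : ∃ t, chk3 f_pp_012_a t 85 68 1 = true := ex3_a k9_pp_012_a k10_pp_012_a

theorem s232_pp_012_a : ∃ t, chk3 f_pp_012_a t 85 34 1 = true := ex3_b s231_pp_012_a k11_pp_012_a

theorem s233_pp_012_a : ∃ t, chk3 f_pp_012_a t 42 34 1 = true := ex3_a k8_pp_012_a s232_pp_012_a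

theorem s234_pp_012_a : ∃ t, chk3 f_pp_012_a t 42 17 1 = true := ex3_b s233_pp_012_a k12_pp_012_a

theorem s235_pp_012_a : ∃ t, chk3 f_pp_012_a t 21 17 1 = true := ex3_a s234_pp_012_a s230_pp_012_a

theorem s236_pp_012_a : ∃ t, chk3 f_pp_012_a t 84 67 1 = true := ex3_b k4_pp_012_a k5_pp_012_a

theorem s237_pp_012_a : ∃ t, chk3 f_pp_012_a t 84 33 1 = true := ex3_b k3_pp_012_a s236_pp_012_a

theorem s238_pp_012_a : ∃ t, chk3 f_pp_012_a t 42 33 1 = true := ex3_a s237_pp_012_a k6_pp_012_a

theorem s239_pp_012_a : ∃ t, chk3 f_pp_012_a t 21 33 1 = true := ex3_a s238_pp_012_a k7_pp_012_a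

theorem s240_pp_012_a : ∃ t, chk3 f_pp_012_a t 21 16 1 = true := ex3_b k2_pp_012_a s239_pp_012_a

theorem s241_pp_012_a : ∃ t, chk3 f_pp_012_a t 21 8 1 = true := ex3_b s240_pp_012_a s235_pp_012_a

theorem s242_pp_012_a : ∃ t, chk3 f_pp_012_a t 10 8 1 = true := ex3_a k1_pp_012_a s241_pp_012_a

theorem s243_pp_012_a : ∃ t, chk3 f_pp_012_a t 10 4 1 = true := ex3_b s242_pp_012_a k31_pp_012_a

theorem s244_pp_012_a : ∃ t, chk3 f_pp_012_a t 10 2 1 = true := ex3_b s243_pp_012_a k32_pp_012_a

theorem s245_pp_012_a : ∃ t, chk3 f_pp_012_a t 5 2 1 = true := ex3_a s244_pp_012_a s213_pp_012_a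

theorem s246_pp_012_a : ∃ t, chk3 f_pp_012_a t 5 1 1 = true := ex3_b s245_pp_012_a k60_pp_012_a

theorem s247_pp_012_a : ∃ t, chk3 f_pp_012_a t 2 1 1 = true := ex3_a k0_pp_012_a s246_pp_012_a

theorem s248_pp_012_a : ∃ t, chk3 f_pp_012_a t 1 1 1 = true := ex3_a s247_pp_012_a s187_pp_012_a

theorem c_pp_012_a : CertB 0 536870912 0 536870912 536870912 50465866 3 eng mog cd0q0 cd1q2a pd1 false true true .pnp 0 1 2
    ndB0q0 ndB1q2a pcB1 cut_pp_012_a Ext.none :=
  certB2 (fam := false) (s1 := true) (s2 := true) (a := 0) (b := 1) (c := 2) (cn := .pnp) (n1 := ndB0q0) (n2 := ndB1q2a) (pc := pcB1) (cut := cut_pp_012_a) (xt := Ext.none) (P1 := 0) (W1 := 536870912) (P2 := 0) (W2 := 536870912) (P3 := 536870912) (W3 := 50465866) (N0 := 3) (En := eng) (mo := mog) (C1 := cd0q0) (C2 := cd1q2a) (C3 := pd1)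
    rfl (fun _ => rfl) s248_pp_012_a

end Pool.Agent.Strip051.G.I5000_5470.Tab.C.BB01

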