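import Pool.Agent.Strip051.G.I5000_5470.Tab
import Pool.Agent.Strip051.PB.ExtD2

/-! # Certificates B15 (generated) -/

set_option linter.all false
set_option maxRecDepth 100000

namespace Pool.Agent.Strip051.G.I5000_5470.Tab.C.BB01

open Pool.Agent.Strip051.PB Pool.Agent.Strip051.PB.T
open Pool.Agent.Strip051.G.I5000_5470.Tab

noncomputable def cut_pp_012_b : Cut := Cut.of [[⟨0, 0, 0, 67108864⟩, ⟨1, 1, 0, 67108864⟩, ⟨2, 1, 0, 67108864⟩]]

noncomputable def f_pp_012_b : ℕ → ℕ → ℕ → ℕ → Bool := onCell 0 536870912 1239849684 370763052 536870912 50465866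
    (rowB 3 eng mog cd0q0 cd1q2b pd1 0 false true true .pnp 0 1 2 (qsf 0 536870912 1239849684 370763052 1) ndB0q0 ndB1q2b pcB1 cut_pp_012_b Ext.none)

def k0_pp_012_b : ∃ t, chk3 f_pp_012_b t 2 1 1 = true :=
  ⟨(b (a (l 2) (b (b (a (a (a (l 2) (b (l 16484376) (l 2))) (a (b (b (l 16505568) (l 16483616)) (l 2)) (b (l 16505880) (l 16462480)))) (a (b (a (l 16518192) (l 16531304)) (a (l 16476168) (l 16490688))) (b (a (l 16544864) (l 16558648)) (a (l 16505592) (l 16520760))))) (a (l 2) (b (a (a (l 16432656) (l 16448536)) (a (l 16464912) (l 16481472))) (a (l 2) (a (l 16422744) (l 16440824)))))) (a (l 2) (a (l 2) (b (a (l 2) (b (l 16398752) (l 2))) (l 2)))))) (l 2)), by decide +kernel⟩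

def k1_pp_012_b : ∃ t, chk3 f_pp_012_b t 3 2 1 = true :=
  ⟨(a (b (a (b (a (a (b (l 16572368) (l 16535928)) (b (l 16585712) (l 16550760))) (a (b (l 16598360) (l 16564912)) (b (l 16610000) (l 16578056)))) (a (a (b (l 16498048) (l 16458840)) (l 16516552)) (a (l 16532896) (l 16569216)))) (b (a (b (a (l 16620704) (l 16631000)) (l 16638184)) (b (a (l 16661880) (l 16671392)) (a (l 16613720) (l 16624920)))) (a (b (l 16564960) (l 16532200)) (b (l 16591056) (l 16561256))))) (a (b (a (b (a (l 16418304) (l 16437472)) (a (l 16376424) (l 16397120))) (a (l 16457616) (l 16454800))) (a (l 2) (a (l 16377464) (l 16440384)))) (b (a (b (l 16498056) (l 16462648)) (a (l 16505736) (l 16522248))) (a (b (l 16426080) (l 16388336)) (l 16446312))))) (b (a (b (a (b (a (l 16681200) (b (l 16676160) (l 16665752))) (a (l 16636440) (l 16648992))) (b (a (b (l 16687808) (l 16678296)) (b (l 16700712) (l 16692016))) (a (l 16662808) (l 16677752)))) (a (b (l 16617632) (l 16590992)) (b (l 16648536) (l 16625272)))) (b (a (b (a (b (a (l 16710928) (l 16717952))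 (a (l 16702760) (l 16710168))) (b (a (l 16735400) (l 16742144)) (l 16742296))) (a (l 16693288) (b (l 16713496) (l 16705096)))) (b (a (b (a (l 16738352) (l 16745104)) (a (l 16732352) (l 16739472))) (b (a (b (l 16752792) (l 16750536)) (b (l 16759240) (l 16757040))) (a (l 16746360) (l 16753008)))) (a (b (l 16749968) (l 16721496)) (b (l 16764496) (l 16757800))))) (a (b (a (l 16674248) (l 16691840)) (l 16663272)) (b (a (b (l 16713616) (l 16705424)) (b (l 16729816) (l 16722560))) (a (l 16692600) (l 16753136)))))) (a (b (a (l 16569208) (l 16608608)) (a (l 16486672) (l 16532960))) (b (a (l 16694120) (b (a (l 16674496) (l 16695240)) (l 16666792))) (a (l 16584328) (l 16637760)))))), by decide +kernel⟩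

def k2_pp_012_b : ∃ t, chk3 f_pp_012_b t 3 3 1 = true :=
  ⟨(a (a (l 2) (b (b (a (b (l 16349512) (l 2)) (b (l 16392720) (l 16355664))) (a (l 2) (l 16298336))) (l 2))) (a (b (a (b (l 16420552) (l 16350464)) (b (l 16473768) (l 16410640))) (b (a (l 2) (l 16344080)) (l 2))) (b (a (b (l 16533232) (l 16478368)) (b (l 16595864) (l 16550624))) (b (a (l 16420200) (l 16502384)) (a (l 16359248) (l 16451552)))))), by decide +kernel⟩

theorem s3_pp_012_b : ∃ t, chk3 f_pp_012_b t 3 1 1 = true := ex3_b k1_pp_012_b k2_pp_012_b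

theorem s4_pp_012_b : ∃ t, chk3 f_pp_012_b t 1 1 1 = true := ex3_a k0_pp_012_b s3_pp_012_b

theorem c_pp_012_b : CertB 0 536870912 1239849684 370763052 536870912 50465866 3 eng mog cd0q0 cd1q2b pd1 false true true .pnp 0 1 2
    ndB0q0 ndB1q2b pcB1 cut_pp_012_b Ext.none :=
  certB0 (fam := false) (s1 := true) (s2 := true) (a := 0) (b := 1) (c := 2) (cn := .pnp) (n1 := ndB0q0) (n2 := ndB1q2b) (pc := pcB1) (cut := cut_pp_012_b) (xt := Ext.none) (P1 := 0) (W1 := 536870912) (P2 := 1239849684) (W2 := 370763052) (P3 := 536870912) (W3 := 50465866) (N0 := 3) (En := eng) (mo := mog) (C1 := cd0q0) (C2 := cd1q2b) (C3 := pd1)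
    rfl s4_pp_012_b

noncomputable def cut_pp_022_a : Cut := Cut.of [[⟨0, 0, 0, 67108864⟩, ⟨1, 1, 0, 67108864⟩, ⟨2, 1, 0, 67108864⟩]]

noncomputable def f_pp_022_a : ℕ → ℕ → ℕ → ℕ → Bool := onCell 1073741824 536870912 0 536870912 536870912 50465866
    (rowB 3 eng mog cd0q0 cd1q2a pd2 2 false true true .pp 0 2 2 (qsf 0 536870912 0 536870912 2) ndB0q0 ndB1q2a pcB2 cut_pp_022_a Ext.none)

def k0_pp_022_a : ∃ t, chk3 f_pp_022_a t 4 2 1 = true :=
  ⟨(b (a (a (b (l 16511544) (a (l 16537800) (l 16528896))) (b (l 16497328) (l 16536744))) (a (b (l 16483856) (l 16520024)) (b (l 16471640) (l 16504952)))) (a (b (a (b (l 16572960) (l 16607032)) (b (l 16532120) (l 16567792))) (a (a (c (b (l 16585088) (b (l 16598416) (a (l 16630752) (l 16605400)))) (b (l 16584056) (b (l 16596432) (l 16615864)))) (b (l 16576040) (b (l 16609696) (l 16628936)))) (b (a (l 16567176) (l 16557800)) (a (c (l 16605328) (l 16583016)) (b (l 16569728) (l 16577912)))))) (b (a (b (l 16514680) (l 16528344)) (b (l 16497688) (l 16509440))) (a (a (b (l 16548080) (l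 16563656)) (b (l 16538104) (l 16553144))) (b (a (l 16527944) (l 16559576)) (a (b (l 16538680) (l 16545976)) (a (l 16534200) (l 16528672)))))))), by decide +kernel⟩

def k1_pp_022_a : ∃ t, chk3 f_pp_022_a t 8 3 1 = true :=
  ⟨(b (a (b (a (c (b (b (a (a (l 16619824) (l 16617616)) (l 16614200)) (a (b (l 16635624) (l 16634728)) (l 16622640))) (b (a (c (b (l 16634408) (l 16638792)) (l 16635632)) (l 16631256)) (a (b (a (l 16643992) (l 16641560)) (l 16652552)) (l 16650520)))) (b (b (l 16622768) (a (l 16625328) (l 16620712))) (b (a (l 16644936) (l 16629616)) (a (b (l 16641400) (l 16646112)) (l 16659688))))) (a (b (c (l 16624152) (l 16632672)) (b (l 16625384) (l 16634136))) (b (b (l 16603568) (l 16611800)) (b (l 16620200) (l 16628752))))) (b (a (a (a (b (b (l 16663056) (l 16657448)) (c (l 16665288) (l 16664680))) (b (l 16662888) (l 16661928))) (b (l 16655024) (l 16657776))) (b (c (l 16661800) (l 16660664)) (l 16659752))) (a (b (a (a (b (l 16672656) (l 16677744)) (l 16672048)) (l 16667296)) (a (a (b (l 16682840) (l 16687952))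 (l 16682184)) (l 16677264))) (b (l 16679400) (l 16688792))))) (a (a (b (b (l 16602728) (l 16619168)) (b (l 16646664) (l 16659048))) (b (b (l 16597616) (l 16613704)) (b (l 16630288) (b (l 16642984) (l 16651704))))) (b (b (l 16610704) (a (l 16608104) (l 16602392))) (b (a (l 16624256) (l 16618096)) (b (l 16643800) (a (l 16645008) (l 16638152))))))) (a (b (b (a (a (a (b (c (l 16696280) (l 16694992)) (b (l 16703376) (l 6))) (b (l 16692384) (l 16707848))) (b (l 16687368) (l 16697488))) (b (l 16698336) (c (l 16697512) (l 16707968)))) (l 6)) (l 6)) (a (b (b (b (a (l 16667352) (l 16660512)) (a (l 16676576) (b (l 16667144) (l 6)))) (l 6)) (l 6)) (b (a (b (b (l 16653504) (b (l 16659880) (l 6))) (l 6)) (b (b (l 16646320) (b (l 16652440) (l 16656544))) (a (l 6) (l 1)))) (l 1))))), by decide +kernel⟩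

def k2_pp_022_a : ∃ t, chk3 f_pp_022_a t 9 3 1 = true :=
  ⟨(b (b (a (b (a (l 16578888) (l 16567712)) (a (a (l 16596592) (l 16590688)) (b (l 16578088) (l 16585080)))) (b (a (b (l 16552896) (l 16559424)) (a (l 16547440) (l 16541488))) (a (a (l 16572392) (l 16566112)) (l 1)))) (a (b (a (a (l 16611840) (l 16605448)) (a (l 16598928) (l 16592304))) (a (b (l 16619952) (a (l 16631168) (l 16624024))) (b (a (l 16609552) (l 1)) (l 1)))) (b (a (a (l 16585552) (l 1)) (l 1)) (l 1)))) (b (a (b (a (b (a (l 16638992) (l 16631488)) (a (l 16646800) (l 1))) (l 1)) (l 1)) (l 1)) (l 1))), by decide +kernel⟩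

def k3_pp_022_a : ∃ t, chk3 f_pp_022_a t 5 1 1 = true :=
  ⟨(b (a (b (a (a (l 16553192) (l 16549632)) (b (l 1) (l 1))) (a (b (c (l 16483448) (l 16486848)) (a (b (l 16612072) (a (l 16523096) (l 1))) (l 1))) (l 1))) (l 1)) (b (l 1) (l 1))), by decide +kernel⟩

def k4_pp_022_a : ∃ t, chk3 f_pp_022_a t 3 1 1 = true :=
  ⟨(l 1), by decide +kernel⟩

theorem s5_pp_022_a : ∃ t, chk3 f_pp_022_a t 4 3 1 = true := ex3_a k1_pp_022_a k2_pp_022_a

theorem s6_pp_022_a : ∃ t, chk3 f_pp_022_a t 4 1 1 = true := ex3_b k0_pp_022_a s5_pp_022_a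

theorem s7_pp_022_a : ∃ t, chk3 f_pp_022_a t 2 1 1 = true := ex3_a s6_pp_022_a k3_pp_022_a

theorem s8_pp_022_a : ∃ t, chk3 f_pp_022_a t 1 1 1 = true := ex3_a s7_pp_022_a k4_pp_022_a

theorem c_pp_022_a : CertB 0 536870912 0 536870912 536870912 50465866 3 eng mog cd0q0 cd1q2a pd2 false true true .pp 0 2 2
    ndB0q0 ndB1q2a pcB2 cut_pp_022_a Ext.none :=
  certB2 (fam := false) (s1 := true) (s2 := true) (a := 0) (b := 2) (c := 2) (cn := .pp) (n1 := ndB0q0) (n2 := ndB1q2a) (pc := pcB2) (cut := cut_pp_022_a) (xt := Ext.none) (P1 := 0) (W1 := 536870912) (P2 := 0) (W2 := 536870912) (P3 := 536870912) (W3 := 50465866) (N0 := 3) (En := eng) (mo := mog) (C1 := cd0q0) (C2 := cd1q2a) (C3 := pd2)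
    rfl (fun _ => rfl) s8_pp_022_a

noncomputable def cut_pp_022_b : Cut := Cut.of [[⟨0, 0, 0, 67108864⟩, ⟨1, 1, 0, 67108864⟩, ⟨2, 1, 0, 67108864⟩]]

noncomputable def f_pp_022_b : ℕ → ℕ → ℕ → ℕ → Bool := onCell 0 536870912 1073741824 536870912 536870912 50465866
    (rowB 3 eng mog cd0q0 cd1q2b pd2 1 false true true .pp 0 2 2 (qsf 0 536870912 1239849684 370763052 2) ndB0q0 ndB1q2b pcB2 cut_pp_022_b Ext.none)

def k0_pp_022_b : ∃ t, chk3 f_pp_022_b t 1 1 1 = true :=
  ⟨(a (b (a (b (b (a (l 1) (b (a (l 1) (l 27950530423)) (a (l 69289492823) (l 16487856)))) (a (b (a (l 1) (l 83248119015)) (a (l 84321845031) (l 16506592))) (b (l 16556288) (l 16475240)))) (b (a (b (a (l 16519080) (l 16402256)) (a (l 16500168) (l 16401088))) (b (l 16394896) (l 16373608))) (a (a (l 16481864) (l 16288448)) (l 16257888)))) (b (b (a (b (a (l 16542368) (l 16479896)) (l 16548968)) (b (a (l 16425872) (l 16400784)) (l 16471184))) (a (b (l 16389640) (l 16315192)) (a (l 16308248) (l 16296792)))) (b (a (b (l 16262600) (l 16206832)) (b (l 16236240) (l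 16191624))) (a (l 16109344) (l 16106208))))) (b (a (a (b (l 16303056) (l 16227704)) (b (l 16190168) (l 16175672))) (a (l 16239296) (l 16028464))) (b (a (l 16209728) (l 16288256)) (a (a (l 16201528) (l 16249528)) (l 2))))) (b (a (b (a (b (a (l 16446456) (l 16369480)) (l 16369216)) (b (a (l 16336072) (l 16327888)) (l 16275416))) (b (a (b (l 16235912) (l 16202080)) (l 16223512)) (a (l 16138656) (l 16197584)))) (b (a (b (l 16334104) (l 16293088)) (b (l 16404256) (l 16411464))) (b (a (l 16272728) (l 2)) (l 2)))) (b (a (a (l 16275584) (l 2)) (l 2)) (l 2)))), by decide +kernel⟩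

theorem c_pp_022_b : CertB 0 536870912 1239849684 370763052 536870912 50465866 3 eng mog cd0q0 cd1q2b pd2 false true true .pp 0 2 2
    ndB0q0 ndB1q2b pcB2 cut_pp_022_b Ext.none :=
  certB1 (fam := false) (s1 := true) (s2 := true) (a := 0) (b := 2) (c := 2) (cn := .pp) (n1 := ndB0q0) (n2 := ndB1q2b) (pc := pcB2) (cut := cut_pp_022_b) (xt := Ext.none) (P1 := 0) (W1 := 536870912) (P2 := 1239849684) (W2 := 370763052) (P3 := 536870912) (W3 := 50465866) (N0 := 3) (En := eng) (mo := mog) (C1 := cd0q0) (C2 := cd1q2b) (C3 := pd2)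
    rfl (fun _ => rfl) k0_pp_022_b

noncomputable def f_pp_023 : ℕ → ℕ → ℕ → ℕ → Bool := onCell 0 536870912 1073741824 536870912 536870912 50465866
    (rowB 3 eng mog cd0q0 cd1q3 pd2 1 false true true .up 0 2 3 (qsf 0 536870912 1610612736 536870912 2) ndB0q0 ndB1q3 pcB2 Cut.none Ext.none)

def k0_pp_023 : ∃ t, chk3 f_pp_023 t 1 1 1 = true :=
  ⟨(a (b (a (l 1) (b (l 1) (b (l 1) (l 247530184455)))) (b (a (l 266857630567) (a (l 176125843287) (l 16013600))) (b (a (l 16202496) (l 16281496)) (a (l 277594933623) (a (l 16388616) (l 16510376)))))) (b (a (b (a (l 1) (l 173979241735)) (b (a (l 229813593159) (l 16233000)) (l 117607512551))) (b (a (l 169147334231) (b (l 16415640) (l 16424208))) (b (a (l 16282504) (l 16503584)) (a (l 16421440) (l 16577768))))) (b (a (a (l 16275192) (l 16453600)) (a (l 16576280) (l 16662360))) (a (b (l 16560568) (l 16636056)) (b (l 16693928) (l 16720096)))))), by decide +kernel⟩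

theorem c_pp_023 : CertB 0 536870912 1610612736 536870912 536870912 50465866 3 eng mog cd0q0 cd1q3 pd2 false true true .up 0 2 3
    ndB0q0 ndB1q3 pcB2 Cut.none Ext.none :=
  certB1 (fam := false) (s1 := true) (s2 := true) (a := 0) (b := 2) (c := 3) (cn := .up) (n1 := ndB0q0) (n2 := ndB1q3) (pc := pcB2) (cut := Cut.none) (xt := Ext.none) (P1 := 0) (W1 := 536870912) (P2 := 1610612736) (W2 := 536870912) (P3 := 536870912) (W3 := 50465866) (N0 := 3) (En := eng) (mo := mog) (C1 := cd0q0) (C2 := cd1q3) (C3 := pd2)
    rfl (fun _ => rfl) k0_pp_023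

noncomputable def f_pp_033 : ℕ → ℕ → ℕ → ℕ → Bool := onCell 0 536870912 1610612736 536870912 536870912 50465866
    (rowB 3 eng mog cd0q0 cd1q3 pd3 1 false true true .pnn 0 3 3 (qsf 0 536870912 1610612736 536870912 3) ndB0q0 ndB1q3 pcB3 Cut.none Ext.none)

def k0_pp_033 : ∃ t, chk3 f_pp_033 t 1 1 1 = true :=
  ⟨(a (b (b (a (b (l 16386416) (l 16505440)) (b (l 16574416) (l 16635960))) (b (a (l 16612392) (l 16684128)) (l 4))) (b (l 4) (a (l 4) (a (b (l 4) (l 2)) (l 2))))) (b (a (b (b (l 16687872) (l 16711536)) (b (l 16728952) (l 4))) (b (b (l 16741448) (l 16755352)) (a (b (l 16753640) (l 2)) (l 2)))) (a (b (a (b (l 4) (l 2)) (l 2)) (l 2)) (l 2)))), by decide +kernel⟩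

theorem c_pp_033 : CertB 0 536870912 1610612736 536870912 536870912 50465866 3 eng mog cd0q0 cd1q3 pd3 false true true .pnn 0 3 3
    ndB0q0 ndB1q3 pcB3 Cut.none Ext.none :=
  certB1 (fam := false) (s1 := true) (s2 := true) (a := 0) (b := 3) (c := 3) (cn := .pnn) (n1 := ndB0q0) (n2 := ndB1q3) (pc := pcB3) (cut := Cut.none) (xt := Ext.none) (P1 := 0) (W1 := 536870912) (P2 := 1610612736) (W2 := 536870912) (P3 := 536870912) (W3 := 50465866) (N0 := 3) (En := eng) (mo := mog) (C1 := cd0q0) (C2 := cd1q3) (C3 := pd3)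
    rfl (fun _ => rfl) k0_pp_033

noncomputable def f_pp_101 : ℕ → ℕ → ℕ → ℕ → Bool := onCell 536870912 536870912 536870912 536870912 536870912 50465866
    (rowB 3 eng mog cd0q1 cd1q1 pd0 0 false true true .npn 1 0 1 (qsf 536870912 536870912 536870912 536870912 0) ndB0q1 ndB1q1 pcB0 Cut.none Ext.none)

def k0_pp_101 : ∃ t, chk3 f_pp_101 t 1 1 1 = true :=
  ⟨(l 3), by decide +kernel⟩

theorem c_pp_101 : CertB 536870912 536870912 536870912 536870912 536870912 50465866 3 eng mog cd0q1 cd1q1 pd0 false true true .npn 1 0 1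
    ndB0q1 ndB1q1 pcB0 Cut.none Ext.none :=
  certB0 (fam := false) (s1 := true) (s2 := true) (a := 1) (b := 0) (c := 1) (cn := .npn) (n1 := ndB0q1) (n2 := ndB1q1) (pc := pcB0) (cut := Cut.none) (xt := Ext.none) (P1 := 536870912) (W1 := 536870912) (P2 := 536870912) (W2 := 536870912) (P3 := 536870912) (W3 := 50465866) (N0 := 3) (En := eng) (mo := mog) (C1 := cd0q1) (C2 := cd1q1) (C3 := pd0)
    rfl k0_pp_101

noncomputable def f_pp_102_a : ℕ → ℕ → ℕ → ℕ → Bool := onCell 0 536870912 0 536870912 536870912 50465866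
    (rowB 3 eng mog cd0q1 cd1q2a pd0 2 false true true .npp 1 0 2 (qsf 536870912 536870912 0 536870912 0) ndB0q1 ndB1q2a pcB0 Cut.none Ext.none)

def k0_pp_102_a : ∃ t, chk3 f_pp_102_a t 1 1 1 = true :=
  ⟨(a (b (l 3) (l 3)) (l 3)), by decide +kernel⟩

theorem c_pp_102_a : CertB 536870912 536870912 0 536870912 536870912 50465866 3 eng mog cd0q1 cd1q2a pd0 false true true .npp 1 0 2
    ndB0q1 ndB1q2a pcB0 Cut.none Ext.none :=
  certB2 (fam := false) (s1 := true) (s2 := true) (a := 1) (b := 0) (c := 2) (cn := .npp) (n1 := ndB0q1) (n2 := ndB1q2a) (pc := pcB0) (cut := Cut.none) (xt := Ext.none) (P1 := 536870912) (W1 := 536870912) (P2 := 0) (W2 := 536870912) (P3 := 536870912) (W3 := 50465866) (N0 := 3) (En := eng) (mo := mog) (C1 := cd0q1) (C2 := cd1q2a) (C3 := pd0)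
    rfl (fun _ => rfl) k0_pp_102_a

noncomputable def f_pp_102_b : ℕ → ℕ → ℕ → ℕ → Bool := onCell 536870912 536870912 0 536870912 536870912 50465866
    (rowB 3 eng mog cd0q1 cd1q2b pd0 1 false true true .npp 1 0 2 (qsf 536870912 536870912 1239849684 370763052 0) ndB0q1 ndB1q2b pcB0 Cut.none Ext.none)

def k0_pp_102_b : ∃ t, chk3 f_pp_102_b t 1 1 1 = true :=
  ⟨(a (l 3) (l 3)), by decide +kernel⟩

theorem c_pp_102_b : CertB 536870912 536870912 1239849684 370763052 536870912 50465866 3 eng mog cd0q1 cd1q2b pd0 false true true .npp 1 0 2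
    ndB0q1 ndB1q2b pcB0 Cut.none Ext.none :=
  certB1 (fam := false) (s1 := true) (s2 := true) (a := 1) (b := 0) (c := 2) (cn := .npp) (n1 := ndB0q1) (n2 := ndB1q2b) (pc := pcB0) (cut := Cut.none) (xt := Ext.none) (P1 := 536870912) (W1 := 536870912) (P2 := 1239849684) (W2 := 370763052) (P3 := 536870912) (W3 := 50465866) (N0 := 3) (En := eng) (mo := mog) (C1 := cd0q1) (C2 := cd1q2b) (C3 := pd0)
    rfl (fun _ => rfl) k0_pp_102_b

noncomputable def f_pp_112_a : ℕ → ℕ → ℕ → ℕ → Bool := onCell 536870912 536870912 0 536870912 536870912 50465866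
    (rowB 3 eng mog cd0q1 cd1q2a pd1 0 false true true .dn 1 1 2 (qsf 536870912 536870912 0 536870912 1) ndB0q1 ndB1q2a pcB1 Cut.none Ext.none)

def k0_pp_112_a : ∃ t, chk3 f_pp_112_a t 32 64 1 = true :=
  ⟨(a (c (l 16774544) (l 16776424)) (a (a (l 16778000) (b (l 16773000) (a (l 16775024) (a (l 16775520) (c (l 16777352) (l 16776952)))))) (b (a (l 16774448) (b (l 16775248) (a (l 16775992) (b (l 16776328) (a (l 16776632) (b (l 59223572807) (a (a (l 71571603063) (a (l 83382762791) (l 92509568247))) (a (a (l 101636373799) (l 111300050167)) (l 121500597783))))))))) (b (a (a (l 16775792) (a (l 16776232) (a (l 16777752) (b (l 16776352) (b (l 16776664) (a (l 71571602983) (a (l 83382762711) (l 92509568183)))))))) (a (a (b (l 16776544) (a (b (l 16776776) (a (a (l 101636373719) (l 110763179175)) (l 121500597719))) (b (b (l 69960990215) (l 104320728311)) (l 3)))) (b (b (l 16776688) (a (l 68350377751) (b (l 80161537335) (l 114521275607)))) (c (c (l 122574340183) (l 124721823511)) (c (l 126869306823) (l 129016790151))))) (b (a (b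 (a (c (l 73719086855) (l 77477183255)) (a (c (l 94120181591) (l 98952019207)) (l 113447533815))) (c (l 124184952711) (l 128479919383))) (l 133311757991)) (l 3)))) (a (a (a (b (l 16776368) (b (l 58686701879) (a (a (l 71571602903) (a (l 83382762631) (l 92509568103))) (c (l 107541954231) (l 111836920855))))) (a (b (l 16776560) (b (b (l 69960990119) (l 104857599143)) (l 3))) (c (b (l 59760443479) (l 120963727191)) (b (l 64592281175) (l 125258693815))))) (b (a (a (b (l 16776696) (b (l 80161537255) (l 114521275527))) (b (c (l 73182215863) (l 76940312247)) (l 123111210455))) (a (b (a (c (l 94120181527) (l 98415148295)) (l 113447533735)) (l 3)) (l 131701145175))) (l 3))) (l 3)))))), by decide +kernel⟩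

def k1_pp_112_a : ∃ t, chk3 f_pp_112_a t 32 130 1 = true :=
  ⟨(a (a (l 16771200) (a (l 16773464) (a (l 16774544) (l 16777192)))) (a (a (a (b (l 16775344) (b (l 16776112) (a (l 16776424) (b (l 58686701671) (a (b (l 16776656) (l 95730793383)) (c (l 107541954071) (l 112373791575))))))) (b (l 16777288) (b (a (c (l 57076088951) (c (l 61371055527) (l 63518538903))) (a (b (l 16776600) (b (l 80698407959) (l 115058146231))) (b (c (l 73182215783) (l 76940312199)) (l 123111210295)))) (b (a (a (b (l 70497860839) (l 105394469799)) (l 116668759287)) (l 3)) (l 3))))) (a (a (a (b (l 16777640) (b (b (b (l 90362084327) (l 124721822999)) (l 3)) (l 3))) (b (b (l 16776240) (b (l 16776568) (b (l 16776704) (l 95193922567)))) (l 133848628839))) (b (b (l 16776448) (a (b (l 16776680) (c (l 107541954151) (l 111836920759))) (b (b (l 69960990039) (l 104857599063)) (l 3)))) (l 3))) (b (b (b (a (l 16776592) (a (c (l 73182215783) (l 76940312151)) (b (l 89825213511) (l 124184952167)))) (a (a (l 68350377575) (b (l 80161537143) (l 114521275447))) (c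 (l 123648081703) (l 127943048311)))) (a (a (c (l 120426856215) (l 124721822823)) (l 3)) (l 3))) (l 3)))) (a (a (a (a (b (l 134385499799) (l 3)) (l 3)) (l 3)) (l 3)) (l 3)))), by decide +kernel⟩

def k2_pp_112_a : ∃ t, chk3 f_pp_112_a t 32 131 1 = true :=
  ⟨(a (a (c (l 16776536) (l 16776024)) (a (b (l 16777816) (a (c (l 16777424) (l 41506831511)) (b (a (l 16776120) (c (l 57612959463) (c (l 60834184535) (l 63518538727)))) (a (a (b (l 16776384) (b (l 16776536) (l 97878276807))) (b (l 62444797527) (c (l 108615695703) (l 113447533175)))) (b (a (a (l 82309020471) (l 98952018679)) (l 117742500919)) (l 3)))))) (a (a (b (l 16775984) (b (a (b (l 16776480) (b (l 82309020439) (l 117205629639))) (b (c (l 73719086487) (l 78014053799)) (l 124184951927))) (l 3))) (a (b (l 51170508583) (b (b (c (l 101099503207) (l 105394470023)) (l 3)) (l 3))) (b (b (l 16776112) (b (l 16776448) (b (l 16776600) (l 96804535111)))) (l 3)))) (b (b (b (l 16777656) (a (l 16776432) (a (l 68887248279) (b (l 81235278775) (l 116131887927))))) (a (a (b (l 61907926583)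 (c (l 108078824887) (l 112910662375))) (b (b (l 71571602567) (l 106468211511)) (l 3))) (c (l 122037468887) (l 126869306359)))) (l 3))))) (b (b (a (a (a (a (b (a (c (l 73182215687) (l 77477182999)) (b (l 90898955143) (l 125258693815))) (l 125795564839)) (l 3)) (l 3)) (l 3)) (l 3)) (l 3)) (l 3))), by decide +kernel⟩

def k3_pp_112_a : ∃ t, chk3 f_pp_112_a t 32 33 1 = true :=
  ⟨(a (b (a (b (b (a (l 16774680) (a (c (l 16775888) (l 16775472)) (b (l 16777024) (a (a (l 16776288) (b (l 16776312) (c (l 81772150055) (l 86067117303)))) (a (b (l 62981668311) (l 111836920695)) (b (a (l 83382762183) (l 100025760391)) (l 3))))))) (a (a (l 16775432) (b (l 16775808) (a (c (l 16776328) (l 16775952)) (a (b (l 16776240) (c (l 82845891735) (l 87140858999))) (b (l 64055409991) (l 112910662391)))))) (b (b (a (a (l 16776136) (a (l 16776344) (c (l 75329698967) (l 79624666279)))) (a (a (a (l 100562631239) (l 116668758871)) (l 3)) (l 3))) (a (a (c (l 62981668023) (l 67813506135)) (a (c (l 95730793767) (l 100025761063)) (l 125795564439))) (l 3)))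 (a (a (a (b (c (l 89288342743) (l 93583310039)) (l 3)) (l 123111209943)) (l 3)) (l 3))))) (a (b (b (a (a (l 16776024) (b (l 16776200) (a (c (l 69960989607) (l 74255956903)) (c (l 96804535463) (l 101099502759))))) (a (b (a (c (l 76403440663) (l 80698407959)) (c (l 103783857159) (l 108615694631))) (l 3)) (l 3))) (a (a (a (b (l 65129151831) (l 113984404071)) (b (c (l 90362084455) (l 94657051719)) (l 3))) (l 124721821991)) (l 3))) (l 3)) (l 3))) (b (b (a (a (b (a (b (l 16776352) (a (l 69960989943) (c (l 95193922983) (l 98952019383)))) (b (a (c (l 74255957287) (l 78550924583)) (c (l 101636374007) (l 107005082151))) (l 126332435559))) (a (a (l 122574339159) (l 3)) (l 3))) (l 3)) (l 3)) (l 3)) (l 3))) (l 3)) (l 3)), by decide +kernel⟩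

def k4_pp_112_a : ∃ t, chk3 f_pp_112_a t 33 16 1 = true :=
  ⟨(b (a (b (a (b (a (a (b (l 16777496) (b (b (a (l 16776616) (a (l 16776784) (c (l 74255957815) (l 78014054167)))) (a (c (l 62981668839) (l 66739765095)) (a (b (l 80161537415) (l 115058146583)) (l 123648081495)))) (b (a (a (a (l 80161537479) (c (l 94657052535) (l 98952019255))) (c (l 115058147159) (l 119353113847))) (l 3)) (l 3)))) (a (b (a (l 16777840) (b (l 16776440) (b (l 16776744) (a (l 72645344887) (c (l 86603988855) (l 90898955751)))))) (b (b (a (a (c (l 94657052551) (l 98952019287)) (l 113984404871)) (l 130627403383)) (l 3)) (l 3))) (b (b (l 16776632) (b (a (l 16776848) (a (l 81235279335) (c (l 95193923495) (l 99488890247)))) (a (a (a (l 102173244775) (l 111836921143)) (l 122037468759)) (l 3)))) (l 3)))) (b (a (a (b (b (l 16776768) (a (l 69424119639) (b (l 81235279271) (l 115595017639)))) (a (a (b (l 113984404903) (l 3)) (l 132774887095)) (l 3))) (b (b (a (c (l 74792828791) (l 78550925079)) (a (c (l 95730794423) (l 100025761191)) (l 114521275831))) (c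 (l 125258694599) (l 129553661335))) (l 3))) (a (a (l 137069853127) (l 3)) (l 3))) (l 3))) (l 3)) (l 3)) (l 3)) (l 3)) (l 3)), by decide +kernel⟩

def k5_pp_112_a : ∃ t, chk3 f_pp_112_a t 16 17 1 = true :=
  ⟨(l 3), by decide +kernel⟩

def k6_pp_112_a : ∃ t, chk3 f_pp_112_a t 16 9 1 = true :=
  ⟨(l 3), by decide +kernel⟩

def k7_pp_112_a : ∃ t, chk3 f_pp_112_a t 17 4 1 = true :=
  ⟨(l 3), by decide +kernel⟩

def k8_pp_112_a : ∃ t, chk3 f_pp_112_a t 8 5 1 = true :=
  ⟨(l 3), by decide +kernel⟩

def k9_pp_112_a : ∃ t, chk3 f_pp_112_a t 9 2 1 = true :=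
  ⟨(l 3), by decide +kernel⟩

def k10_pp_112_a : ∃ t, chk3 f_pp_112_a t 4 3 1 = true :=
  ⟨(l 3), by decide +kernel⟩

def k11_pp_112_a : ∃ t, chk3 f_pp_112_a t 5 1 1 = true :=
  ⟨(l 3), by decide +kernel⟩

def k12_pp_112_a : ∃ t, chk3 f_pp_112_a t 3 1 1 = true :=
  ⟨(l 1), by decide +kernel⟩

theorem s13_pp_112_a : ∃ t, chk3 f_pp_112_a t 32 65 1 = true := ex3_b k1_pp_112_a k2_pp_112_a

theorem s14_pp_112_a : ∃ t, chk3 f_pp_112_a t 32 32 1 = true := ex3_b k0_pp_112_a s13_pp_112_a

theorem s15_pp_112_a : ∃ t, chk3 f_pp_112_a t 32 16 1 = true := ex3_b s14_pp_112_a k3_pp_112_a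

theorem s16_pp_112_a : ∃ t, chk3 f_pp_112_a t 16 16 1 = true := ex3_a s15_pp_112_a k4_pp_112_a

theorem s17_pp_112_a : ∃ t, chk3 f_pp_112_a t 16 8 1 = true := ex3_b s16_pp_112_a k5_pp_112_a

theorem s18_pp_112_a : ∃ t, chk3 f_pp_112_a t 16 4 1 = true := ex3_b s17_pp_112_a k6_pp_112_a

theorem s19_pp_112_a : ∃ t, chk3 f_pp_112_a t 8 4 1 = true := ex3_a s18_pp_112_a k7_pp_112_a

theorem s20_pp_112_a : ∃ t, chk3 f_pp_112_a t 8 2 1 = true := ex3_b s19_pp_112_a k8_pp_112_a

theorem s21_pp_112_a : ∃ t, chk3 f_pp_112_a t 4 2 1 = true := ex3_a s20_pp_112_a k9_pp_112_a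

theorem s22_pp_112_a : ∃ t, chk3 f_pp_112_a t 4 1 1 = true := ex3_b s21_pp_112_a k10_pp_112_a

theorem s23_pp_112_a : ∃ t, chk3 f_pp_112_a t 2 1 1 = true := ex3_a s22_pp_112_a k11_pp_112_a

theorem s24_pp_112_a : ∃ t, chk3 f_pp_112_a t 1 1 1 = true := ex3_a s23_pp_112_a k12_pp_112_a

theorem c_pp_112_a : CertB 536870912 536870912 0 536870912 536870912 50465866 3 eng mog cd0q1 cd1q2a pd1 false true true .dn 1 1 2
    ndB0q1 ndB1q2a pcB1 Cut.none Ext.none :=
  certB0 (fam := false) (s1 := true) (s2 := true) (a := 1) (b := 1) (c := 2) (cn := .dn) (n1 := ndB0q1) (n2 := ndB1q2a) (pc := pcB1) (cut := Cut.none) (xt := Ext.none) (P1 := 536870912) (W1 := 536870912) (P2 := 0) (W2 := 536870912) (P3 := 536870912) (W3 := 50465866) (N0 := 3) (En := eng) (mo := mog) (C1 := cd0q1) (C2 := cd1q2a) (C3 := pd1)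
    rfl s24_pp_112_a

noncomputable def f_pp_112_b : ℕ → ℕ → ℕ → ℕ → Bool := onCell 536870912 536870912 536870912 536870912 536870912 50465866
    (rowB 3 eng mog cd0q1 cd1q2b pd1 1 false true true .dn 1 1 2 (qsf 536870912 536870912 1239849684 370763052 1) ndB0q1 ndB1q2b pcB1 Cut.none Ext.none)

def k0_pp_112_b : ∃ t, chk3 f_pp_112_b t 2 4 1 = true :=
  ⟨(a (a (a (a (l 1) (l 3)) (l 3)) (l 3)) (l 3)), by decide +kernel⟩

def k1_pp_112_b : ∃ t, chk3 f_pp_112_b t 4 10 1 = true :=
  ⟨(a (b (a (b (a (b (l 1) (a (l 1) (b (l 1) (a (l 1) (b (l 1) (a (l 1) (c (l 39225124391) (l 36540769751)))))))) (b (l 3) (a (a (b (b (l 1) (a (l 1) (b (a (l 1) (l 3)) (b (b (a (l 1) (l 3)) (a (l 59626225319) (a (l 122037468471) (l 3)))) (a (l 16776840) (a (a (l 49559895879) (a (l 98952019527) (l 110226308519))) (l 131164273751))))))) (b (b (a (a (l 1) (l 16776416)) (a (l 16776568) (l 32916898567))) (a (l 16775936) (l 16776208))) (l 16775488))) (b (l 3) (a (b (b (a (b (l 127943048519) (l 16776544)) (l 144049175367)) (l 44191188375)) (l 16775736))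 (b (l 141364820455) (l 47412414711))))) (a (b (l 3) (b (l 3) (l 133848626535))) (l 3))))) (a (b (a (b (l 1) (a (l 1) (l 153041766247))) (b (a (b (l 1) (l 102039016935)) (b (a (l 16772616) (l 16774072)) (l 16772984))) (a (l 11307828263) (l 16771712)))) (a (b (a (l 110092072295) (l 16767408)) (l 16765200)) (l 16768560))) (b (a (b (c (l 16775200) (l 16773704)) (l 16772744)) (b (a (a (l 16774848) (l 97341410903)) (l 124184948519)) (l 16773592))) (a (l 16770104) (l 16771256))))) (b (l 3) (a (a (b (b (l 3) (l 119353108567)) (l 36675004631)) (b (l 3) (l 110763172071))) (l 3)))) (a (b (a (b (l 16763832) (l 16759872)) (b (l 16767176) (l 16763480))) (a (l 16753544) (l 16757656))) (b (a (b (l 16770056) (l 16767032)) (b (a (l 92509587687) (l 125258687767)) (l 16770952))) (a (l 16762104) (l 16767224))))) (a (b (l 3) (b (a (b (l 3) (l 116131884967)) (l 3)) (a (b (l 41506874663) (l 16772104)) (b (l 126869319607) (l 16778880))))) (l 3))), by decide +kernel⟩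

def k2_pp_112_b : ∃ t, chk3 f_pp_112_b t 4 11 1 = true :=
  ⟨(a (b (a (b (a (l 16744544) (l 16749464)) (l 16737968)) (b (l 16800176) (l 16751656))) (a (l 16766024) (l 16783416))) (b (a (b (a (l 16769192) (l 16777608)) (l 16770080)) (b (l 96267690759) (l 16792976))) (a (b (l 16766656) (l 16763072)) (l 16794448)))), by decide +kernel⟩

def k3_pp_112_b : ∃ t, chk3 f_pp_112_b t 5 5 1 = true :=
  ⟨(b (l 3) (a (b (a (b (l 3) (l 108615784279)) (l 3)) (a (b (l 16826792) (l 16833512)) (l 130627602231))) (l 3))), by decide +kernel⟩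

def k4_pp_112_b : ∃ t, chk3 f_pp_112_b t 3 2 1 = true :=
  ⟨(l 3), by decide +kernel⟩

def k5_pp_112_b : ∃ t, chk3 f_pp_112_b t 1 3 1 = true :=
  ⟨(a (b (a (b (a (b (a (l 16704184) (l 16726896)) (a (l 16682472) (l 16711144))) (b (a (l 16757384) (l 16796064)) (a (l 16748976) (l 16797344)))) (a (a (l 16646872) (l 16684832)) (a (l 16734808) (l 16798664)))) (b (a (b (a (l 16843640) (l 16902024)) (l 16874000)) (b (a (l 155323815687) (l 3)) (a (l 16987584) (l 126869935207)))) (a (b (l 16888792) (l 16875888)) (b (l 16920824) (l 2))))) (a (a (b (a (l 16594552) (l 16646568)) (l 16569800)) (b (a (l 16714976) (l 16779736)) (b (l 16737096) (l 2)))) (b (a (l 16775720) (l 2)) (l 2)))) (b (b (b (l 3) (l 2)) (l 2)) (l 2))), by decide +kernel⟩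

theorem s6_pp_112_b : ∃ t, chk3 f_pp_112_b t 4 5 1 = true := ex3_b k1_pp_112_b k2_pp_112_b

theorem s7_pp_112_b : ∃ t, chk3 f_pp_112_b t 2 5 1 = true := ex3_a s6_pp_112_b k3_pp_112_b

theorem s8_pp_112_b : ∃ t, chk3 f_pp_112_b t 2 2 1 = true := ex3_b k0_pp_112_b s7_pp_112_b

theorem s9_pp_112_b : ∃ t, chk3 f_pp_112_b t 1 2 1 = true := ex3_a s8_pp_112_b k4_pp_112_b

theorem s10_pp_112_b : ∃ t, chk3 f_pp_112_b t 1 1 1 = true := ex3_b s9_pp_112_b k5_pp_112_b

theorem c_pp_112_b : CertB 536870912 536870912 1239849684 370763052 536870912 50465866 3 eng mog cd0q1 cd1q2b pd1 false true true .dn 1 1 2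
    ndB0q1 ndB1q2b pcB1 Cut.none Ext.none :=
  certB1 (fam := false) (s1 := true) (s2 := true) (a := 1) (b := 1) (c := 2) (cn := .dn) (n1 := ndB0q1) (n2 := ndB1q2b) (pc := pcB1) (cut := Cut.none) (xt := Ext.none) (P1 := 536870912) (W1 := 536870912) (P2 := 1239849684) (W2 := 370763052) (P3 := 536870912) (W3 := 50465866) (N0 := 3) (En := eng) (mo := mog) (C1 := cd0q1) (C2 := cd1q2b) (C3 := pd1)
    rfl (fun _ => rfl) s10_pp_112_b

noncomputable def cut_pp_113 : Cut := Cut.of [[⟨0, 1, 0, 67108864⟩, ⟨1, 1, 0, 67108864⟩, ⟨2, 2, 0, 16777216⟩]]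

noncomputable def f_pp_113 : ℕ → ℕ → ℕ → ℕ → Bool := onCell 536870912 536870912 536870912 536870912 536870912 50465866
    (rowB 3 eng mog cd0q1 cd1q3 pd1 1 false true true .nn 1 1 3 (qsf 536870912 536870912 1610612736 536870912 1) ndB0q1 ndB1q3 pcB1 cut_pp_113 Ext.none)

def k0_pp_113 : ∃ t, chk3 f_pp_113 t 1 1 1 = true :=
  ⟨(b (a (a (l 1) (a (l 1) (l 3))) (l 3)) (a (b (a (b (l 1) (a (l 1) (b (l 1) (l 16768768)))) (b (b (a (l 1) (a (l 209413559703) (l 3))) (a (l 16898760) (a (l 16998792) (l 116132344871)))) (a (b (l 16897648) (l 16886072)) (b (l 16995440) (l 16971208))))) (a (a (b (l 31171762007) (l 16582544)) (b (l 16759648) (a (l 16711296) (l 16777000)))) (b (a (l 16723776) (b (l 16931136) (l 16935520))) (a (b (l 16856840) (l 16848448)) (l 16913840))))) (b (a (b (a (b (l 3) (l 213306110855)) (l 3)) (a (b (a (l 17035984) (l 150492071399)) (a (l 17000888) (l 17009184))) (b (l 3) (a (l 108079215495) (l 3))))) (l 3)) (a (b (a (b (a (l 16974008) (l 16976664)) (a (l 16952552) (l 16952080))) (b (a (l 16979480) (l 108079152039))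 (l 16950440))) (a (b (l 16931616) (l 16913496)) (b (l 16924408) (a (l 16904240) (l 16896584))))) (b (a (b (a (l 336249360391) (l 3)) (a (l 131164522807) (l 328733074311))) (l 3)) (a (b (a (l 16914584) (b (l 16908728) (l 16890784))) (a (l 16885320) (l 16866048))) (a (b (a (b (l 406579272199) (l 16873248)) (l 414095413415)) (b (l 103247176359) (l 16831288))) (b (l 3) (a (b (a (l 174114105783) (l 479593582839)) (a (l 16812680) (l 16805120))) (b (l 3) (a (b (l 436643871895) (l 16793112)) (b (l 3) (a (b (l 459729297047) (l 6)) (l 6)))))))))))))), by decide +kernel⟩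

theorem c_pp_113 : CertB 536870912 536870912 1610612736 536870912 536870912 50465866 3 eng mog cd0q1 cd1q3 pd1 false true true .nn 1 1 3
    ndB0q1 ndB1q3 pcB1 cut_pp_113 Ext.none :=
  certB1 (fam := false) (s1 := true) (s2 := true) (a := 1) (b := 1) (c := 3) (cn := .nn) (n1 := ndB0q1) (n2 := ndB1q3) (pc := pcB1) (cut := cut_pp_113) (xt := Ext.none) (P1 := 536870912) (W1 := 536870912) (P2 := 1610612736) (W2 := 536870912) (P3 := 536870912) (W3 := 50465866) (N0 := 3) (En := eng) (mo := mog) (C1 := cd0q1) (C2 := cd1q3) (C3 := pd1)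
    rfl (fun _ => rfl) k0_pp_113

noncomputable def cut_pp_123 : Cut := Cut.of [[⟨0, 1, 0, 67108864⟩, ⟨1, 1, 0, 67108864⟩, ⟨2, 2, 0, 16777216⟩]]

noncomputable def f_pp_123 : ℕ → ℕ → ℕ → ℕ → Bool := onCell 536870912 536870912 1073741824 536870912 536870912 50465866
    (rowB 3 eng mog cd0q1 cd1q3 pd2 1 false true true .npn 1 2 3 (qsf 536870912 536870912 1610612736 536870912 2) ndB0q1 ndB1q3 pcB2 cut_pp_123 Ext.none)

def k0_pp_123 : ∃ t, chk3 f_pp_123 t 1 1 1 = true :=
  ⟨(a (b (b (a (a (b (l 16585600) (l 16616336)) (b (l 16734776) (l 16726288))) (a (b (l 16824424) (l 16789024)) (b (l 16871120) (l 16817448)))) (a (b (a (l 16644088) (l 16721784)) (a (l 16675736) (l 16727648))) (b (a (l 16762008) (b (b (l 16788720) (l 16778744)) (l 16767712))) (a (l 16751480) (l 16756400))))) (a (b (a (l 16714096) (l 16739264)) (b (l 16745048) (l 16752560))) (b (a (l 16747512) (l 16739128)) (a (b (l 16744672) (l 2)) (l 2))))) (b (a (b (a (b (l 16870528) (l 16809816)) (b (l 16852408) (l 16788888))) (b (a (b (b (l 16778600) (l 16768528))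 (l 16758072)) (b (l 16755680) (l 16739536))) (a (l 16744344) (l 16671768)))) (b (b (b (a (l 16841616) (a (b (l 16813088) (l 16795696)) (a (l 16782936) (b (a (l 16780256) (b (l 6) (l 555225189463))) (l 546098393703))))) (a (l 16805936) (a (l 16769832) (l 528381687575)))) (a (l 16794632) (l 539119424103))) (a (b (b (l 226123669111) (l 2)) (l 2)) (l 2)))) (a (b (a (b (l 16729144) (l 2)) (l 2)) (l 2)) (l 2)))), by decide +kernel⟩

theorem c_pp_123 : CertB 536870912 536870912 1610612736 536870912 536870912 50465866 3 eng mog cd0q1 cd1q3 pd2 false true true .npn 1 2 3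
    ndB0q1 ndB1q3 pcB2 cut_pp_123 Ext.none :=
  certB1 (fam := false) (s1 := true) (s2 := true) (a := 1) (b := 2) (c := 3) (cn := .npn) (n1 := ndB0q1) (n2 := ndB1q3) (pc := pcB2) (cut := cut_pp_123) (xt := Ext.none) (P1 := 536870912) (W1 := 536870912) (P2 := 1610612736) (W2 := 536870912) (P3 := 536870912) (W3 := 50465866) (N0 := 3) (En := eng) (mo := mog) (C1 := cd0q1) (C2 := cd1q3) (C3 := pd2)
    rfl (fun _ => rfl) k0_pp_123

noncomputable def f_pp_133 : ℕ → ℕ → ℕ → ℕ → Bool := onCell 1610612736 536870912 1610612736 536870912 536870912 50465866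
    (rowB 3 eng mog cd0q1 cd1q3 pd3 2 false true true .dn 1 3 3 (qsf 536870912 536870912 1610612736 536870912 3) ndB0q1 ndB1q3 pcB3 Cut.none Ext.none)

def k0_pp_133 : ∃ t, chk3 f_pp_133 t 1 1 1 = true :=
  ⟨(a (b (l 1) (a (b (l 1) (a (l 474090976279) (l 1))) (l 1))) (l 1)), by decide +kernel⟩

theorem c_pp_133 : CertB 536870912 536870912 1610612736 536870912 536870912 50465866 3 eng mog cd0q1 cd1q3 pd3 false true true .dn 1 3 3
    ndB0q1 ndB1q3 pcB3 Cut.none Ext.none :=
  certB2 (fam := false) (s1 := true) (s2 := true) (a := 1) (b := 3) (c := 3) (cn := .dn) (n1 := ndB0q1) (n2 := ndB1q3) (pc := pcB3) (cut := Cut.none) (xt := Ext.none) (P1 := 536870912) (W1 := 536870912) (P2 := 1610612736) (W2 := 536870912) (P3 := 536870912) (W3 := 50465866) (N0 := 3) (En := eng) (mo := mog) (C1 := cd0q1) (C2 := cd1q3) (C3 := pd3)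
    rfl (fun _ => rfl) k0_pp_133

noncomputable def f_pp_202_a : ℕ → ℕ → ℕ → ℕ → Bool := onCell 0 536870912 0 536870912 536870912 50465866
    (rowB 3 eng mog cd0q2 cd1q2a pd0 0 false true true .pp 2 0 2 (qsf 0 536870912 0 536870912 0) ndB0q2 ndB1q2a pcB0 Cut.none Ext.none)

def k0_pp_202_a : ∃ t, chk3 f_pp_202_a t 1 1 1 = true :=
  ⟨(l 3), by decide +kernel⟩

theorem c_pp_202_a : CertB 0 536870912 0 536870912 536870912 50465866 3 eng mog cd0q2 cd1q2a pd0 false true true .pp 2 0 2
    ndB0q2 ndB1q2a pcB0 Cut.none Ext.none :=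
  certB0 (fam := false) (s1 := true) (s2 := true) (a := 2) (b := 0) (c := 2) (cn := .pp) (n1 := ndB0q2) (n2 := ndB1q2a) (pc := pcB0) (cut := Cut.none) (xt := Ext.none) (P1 := 0) (W1 := 536870912) (P2 := 0) (W2 := 536870912) (P3 := 536870912) (W3 := 50465866) (N0 := 3) (En := eng) (mo := mog) (C1 := cd0q2) (C2 := cd1q2a) (C3 := pd0)
    rfl k0_pp_202_a

noncomputable def f_pp_202_b : ℕ → ℕ → ℕ → ℕ → Bool := onCell 0 536870912 1239849684 370763052 536870912 50465866
    (rowB 3 eng mog cd0q2 cd1q2b pd0 0 false true true .pp 2 0 2 (qsf 0 536870912 1239849684 370763052 0) ndB0q2 ndB1q2b pcB0 Cut.none Ext.none)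

def k0_pp_202_b : ∃ t, chk3 f_pp_202_b t 1 1 1 = true :=
  ⟨(l 3), by decide +kernel⟩

theorem c_pp_202_b : CertB 0 536870912 1239849684 370763052 536870912 50465866 3 eng mog cd0q2 cd1q2b pd0 false true true .pp 2 0 2
    ndB0q2 ndB1q2b pcB0 Cut.none Ext.none :=
  certB0 (fam := false) (s1 := true) (s2 := true) (a := 2) (b := 0) (c := 2) (cn := .pp) (n1 := ndB0q2) (n2 := ndB1q2b) (pc := pcB0) (cut := Cut.none) (xt := Ext.none) (P1 := 0) (W1 := 536870912) (P2 := 1239849684) (W2 := 370763052) (P3 := 536870912) (W3 := 50465866) (N0 := 3) (En := eng) (mo := mog) (C1 := cd0q2) (C2 := cd1q2b) (C3 := pd0)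
    rfl k0_pp_202_b

noncomputable def f_pp_203 : ℕ → ℕ → ℕ → ℕ → Bool := onCell 0 536870912 0 536870912 536870912 50465866
    (rowB 3 eng mog cd0q2 cd1q3 pd0 1 false true true .up 2 0 3 (qsf 0 536870912 1610612736 536870912 0) ndB0q2 ndB1q3 pcB0 Cut.none Ext.none)

def k0_pp_203 : ∃ t, chk3 f_pp_203 t 1 1 1 = true :=
  ⟨(l 3), by decide +kernel⟩

theorem c_pp_203 : CertB 0 536870912 1610612736 536870912 536870912 50465866 3 eng mog cd0q2 cd1q3 pd0 false true true .up 2 0 3
    ndB0q2 ndB1q3 pcB0 Cut.none Ext.none :=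
  certB1 (fam := false) (s1 := true) (s2 := true) (a := 2) (b := 0) (c := 3) (cn := .up) (n1 := ndB0q2) (n2 := ndB1q3) (pc := pcB0) (cut := Cut.none) (xt := Ext.none) (P1 := 0) (W1 := 536870912) (P2 := 1610612736) (W2 := 536870912) (P3 := 536870912) (W3 := 50465866) (N0 := 3) (En := eng) (mo := mog) (C1 := cd0q2) (C2 := cd1q3) (C3 := pd0)
    rfl (fun _ => rfl) k0_pp_203

noncomputable def cut_pp_213 : Cut := Cut.of [[⟨0, 1, 0, 67108864⟩, ⟨1, 1, 0, 67108864⟩, ⟨2, 2, 0, 16777216⟩]]

noncomputable def f_pp_213 : ℕ → ℕ → ℕ → ℕ → Bool := onCell 0 536870912 1610612736 536870912 536870912 50465866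
    (rowB 3 eng mog cd0q2 cd1q3 pd1 0 false true true .pnn 2 1 3 (qsf 0 536870912 1610612736 536870912 1) ndB0q2 ndB1q3 pcB1 cut_pp_213 Ext.none)

def k0_pp_213 : ∃ t, chk3 f_pp_213 t 1 1 1 = true :=
  ⟨(b (l 3) (a (l 3) (b (l 3) (a (l 3) (b (l 3) (a (l 3) (a (l 3) (b (l 3) (b (l 3) (b (l 3) (l 6))))))))))), by decide +kernel⟩

theorem c_pp_213 : CertB 0 536870912 1610612736 536870912 536870912 50465866 3 eng mog cd0q2 cd1q3 pd1 false true true .pnn 2 1 3
    ndB0q2 ndB1q3 pcB1 cut_pp_213 Ext.none :=
  certB0 (fam := false) (s1 := true) (s2 := true) (a := 2) (b := 1) (c := 3) (cn := .pnn) (n1 := ndB0q2) (n2 := ndB1q3) (pc := pcB1) (cut := cut_pp_213) (xt := Ext.none) (P1 := 0) (W1 := 536870912) (P2 := 1610612736) (W2 := 536870912) (P3 := 536870912) (W3 := 50465866) (N0 := 3) (En := eng) (mo := mog) (C1 := cd0q2) (C2 := cd1q3) (C3 := pd1)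
    rfl k0_pp_213

noncomputable def f_pm_001 : ℕ → ℕ → ℕ → ℕ → Bool := onCell 0 536870912 0 536870912 536870912 50465866
    (rowB 3 eng mog cd0q0 cd1q1 pd0 1 false true false .up 0 0 1 (qsf 0 536870912 536870912 536870912 0) ndB0q0 ndB1q1 pcB0 Cut.none Ext.none)

def k0_pm_001 : ∃ t, chk3 f_pm_001 t 1 1 1 = true :=
  ⟨(a (l 4) (b (l 4) (b (a (l 4) (a (l 4) (b (a (l 4) (b (l 4) (b (l 4) (a (l 4) (l 16669416))))) (b (a (l 4) (a (b (l 4) (l 16646472)) (b (l 16649648) (l 16629368)))) (a (a (l 4) (b (l 4) (l 16619472))) (a (b (l 16622560) (l 16597992)) (l 16597336))))))) (a (l 4) (b (a (a (l 4) (b (l 4) (a (l 4) (b (l 16586808) (l 16547656))))) (a (b (a (b (l 4) (l 16587168)) (b (l 16590936) (l 16561768))) (a (b (l 16553256) (l 16518632)) (b (l 16531576) (l 16498688)))) (b (a (b (l 16572624) (l 16544744)) (b (l 16559600) (l 16531232))) (b (a (l 16514240) (l 16500512)) (a (l 16481504) (l 16468456)))))) (a (b (a (l 4) (b (a (l 16545152) (l 16485952)) (a (a (l 16506920) (l 16486016)) (l 16464816)))) (a (a (l 4) (b (l 16530408)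 (l 16526896))) (b (a (a (l 16470600) (l 16455960)) (l 16437088)) (a (l 16451984) (l 16425648))))) (b (a (a (b (l 16503992) (l 16441760)) (b (l 16505832) (l 16422160))) (b (a (l 16447936) (b (c (l 16503112) (l 16410664)) (l 16406800))) (a (a (l 16409504) (l 16424488)) (c (l 16408744) (l 16356080))))) (a (a (c (l 16444328) (l 16421512)) (b (c (l 16411640) (l 16385512)) (a (l 16404872) (l 16389064)))) (b (b (a (c (l 16404632) (l 16363024)) (l 16354448)) (a (l 16361496) (l 16347632))) (b (l 16370968) (l 16364472))))))))))), by decide +kernel⟩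

theorem c_pm_001 : CertB 0 536870912 536870912 536870912 536870912 50465866 3 eng mog cd0q0 cd1q1 pd0 false true false .up 0 0 1
    ndB0q0 ndB1q1 pcB0 Cut.none Ext.none :=
  certB1 (fam := false) (s1 := true) (s2 := false) (a := 0) (b := 0) (c := 1) (cn := .up) (n1 := ndB0q0) (n2 := ndB1q1) (pc := pcB0) (cut := Cut.none) (xt := Ext.none) (P1 := 0) (W1 := 536870912) (P2 := 536870912) (W2 := 536870912) (P3 := 536870912) (W3 := 50465866) (N0 := 3) (En := eng) (mo := mog) (C1 := cd0q0) (C2 := cd1q1) (C3 := pd0)
    rfl (fun _ => rfl) k0_pm_001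

noncomputable def f_pm_011 : ℕ → ℕ → ℕ → ℕ → Bool := onCell 536870912 536870912 536870912 536870912 536870912 50465866
    (rowB 3 eng mog cd0q0 cd1q1 pd1 2 false true false .pnn 0 1 1 (qsf 0 536870912 536870912 536870912 1) ndB0q0 ndB1q1 pcB1 Cut.none Ext.none)

def k0_pm_011 : ∃ t, chk3 f_pm_011 t 2 1 1 = true :=
  ⟨(a (b (l 4) (b (l 4) (a (b (b (a (b (l 4) (a (l 16524712) (l 16545176))) (l 4)) (a (b (a (l 16446720) (l 16461368)) (a (l 16414712) (l 16428528))) (b (b (a (l 16484664) (l 16503368)) (l 16514480)) (a (l 16441064) (l 16451536))))) (b (a (a (b (l 16382544) (a (l 16389032) (l 16395736))) (b (l 16395848) (a (l 16402504) (l 16388040)))) (b (a (l 16407592) (l 16418392)) (a (c (l 16420432) (l 16373872)) (l 16406632)))) (a (a (b (l 16345576) (l 16300488)) (b (l 16337080) (l 16333768))) (a (a (l 16353112) (l 16357216)) (b (l 16373992) (l 16329192)))))) (b (b (l 4) (a (b (b (l 4) (l 16568280)) (a (l 16462688) (l 16497296))) (b (l 4) (a (l 16513832) (l 4))))) (b (a (b (l 16474096) (a (l 16393760) (l 16401704))) (a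 (l 16491864) (b (l 16481360) (l 16419400)))) (b (a (b (l 16436984) (l 16398712)) (a (l 16396968) (l 16382808))) (a (l 16401520) (a (l 16345912) (l 16370128))))))))) (b (l 4) (b (l 4) (b (l 4) (a (b (a (b (a (l 16527752) (l 16529440)) (a (l 16446008) (l 16472224))) (b (l 4) (a (a (l 16510960) (l 16542840)) (l 21709203415)))) (a (b (a (l 16405512) (l 16432968)) (a (l 16387864) (b (l 16405168) (l 16387224)))) (b (a (l 16521200) (l 16542984)) (a (c (l 16489696) (l 16480304)) (b (l 16452624) (l 16435008)))))) (b (l 4) (a (a (b (b (l 16509584) (l 16491136)) (l 16462808)) (b (b (l 16527584) (l 16510256)) (l 16481672))) (a (b (l 16598480) (b (l 16509432) (l 16490048))) (b (l 4) (b (l 16525800) (l 16507328))))))))))), by decide +kernel⟩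

def k1_pm_011 : ∃ t, chk3 f_pm_011 t 3 1 1 = true :=
  ⟨(b (l 4) (a (b (l 4) (b (l 4) (a (b (l 4) (a (b (l 4) (b (l 4) (a (l 16523176) (l 16537504)))) (l 4))) (l 4)))) (l 4))), by decide +kernel⟩

theorem s2_pm_011 : ∃ t, chk3 f_pm_011 t 1 1 1 = true := ex3_a k0_pm_011 k1_pm_011

theorem c_pm_011 : CertB 0 536870912 536870912 536870912 536870912 50465866 3 eng mog cd0q0 cd1q1 pd1 false true false .pnn 0 1 1
    ndB0q0 ndB1q1 pcB1 Cut.none Ext.none :=
  certB2 (fam := false) (s1 := true) (s2 := false) (a := 0) (b := 1) (c := 1) (cn := .pnn) (n1 := ndB0q0) (n2 := ndB1q1) (pc := pcB1) (cut := Cut.none) (xt := Ext.none) (P1 := 0) (W1 := 536870912) (P2 := 536870912) (W2 := 536870912) (P3 := 536870912) (W3 := 50465866) (N0 := 3) (En := eng) (mo := mog) (C1 := cd0q0) (C2 := cd1q1) (C3 := pd1)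
    rfl (fun _ => rfl) s2_pm_011

noncomputable def cut_pm_012_a : Cut := Cut.of [[⟨0, 0, 0, 67108864⟩, ⟨1, 1, 0, 67108864⟩, ⟨2, 1, 0, 67108864⟩], [⟨0, 0, 1, 20971520⟩, ⟨1, 1, 2, 20971520⟩, ⟨2, 1, 0, 33554432⟩]]

noncomputable def xt_pm_012_a : Ext := extD2 3 ⟨7, 3, 3, 10, 1741, 1000, 23, 25, 19, 50, 3, 16⟩ eng cd0q0 cd1q2a pd1 false true false .pnp 0 1 2 rfl ndB0q0 ndB1q2a pcB1

noncomputable def f_pm_012_a : ℕ → ℕ → ℕ → ℕ → Bool := onCell 536870912 536870912 0 536870912 536870912 50465866
    (rowB 3 eng mog cd0q0 cd1q2a pd1 2 false true false .pnp 0 1 2 (qsf 0 536870912 0 536870912 1) ndB0q0 ndB1q2a pcB1 cut_pm_012_a xt_pm_012_a)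

def k0_pm_012_a : ∃ t, chk3 f_pm_012_a t 4 2 1 = true :=
  ⟨(b (l 2) (a (l 2) (a (l 2) (b (l 2) (b (l 2) (l 16524440)))))), by decide +kernel⟩

def k1_pm_012_a : ∃ t, chk3 f_pm_012_a t 4 6 1 = true :=
  ⟨(a (l 2) (a (b (l 2) (b (l 16534888) (l 16536576))) (b (c (l 16547464) (l 16542280)) (a (l 16517752) (l 16518888))))), by decide +kernel⟩

def k2_pm_012_a : ∃ t, chk3 f_pm_012_a t 8 14 1 = true :=
  ⟨(a (l 2) (b (b (l 2) (a (l 2) (l 16601744))) (a (b (l 2) (b (l 16619152) (l 16609880))) (b (l 16592128) (b (l 16580928) (l 16574152)))))), by decide +kernel⟩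

def k3_pm_012_a : ∃ t, chk3 f_pm_012_a t 32 30 1 = true :=
  ⟨(l 2), by decide +kernel⟩

def k4_pm_012_a : ∃ t, chk3 f_pm_012_a t 64 62 1 = true :=
  ⟨(l 2), by decide +kernel⟩

def k5_pm_012_a : ∃ t, chk3 f_pm_012_a t 128 63 1 = true :=
  ⟨(b (l 2) (c (c (l 14) (b (l 141904585247965231) (b (a (l 141906234509443119) (l 141890635183341615)) (b (a (c (l 141925750845767727) (l 141880533411807279)) (l 141932966376980527)) (b (c (a (l 141924582612549679) (l 141909120725581871)) (a (l 141878884142317615) (l 141863903291834415))) (c (c (l 14) (a (a (l 14) (c (l 14) (l 141902867248529455))) (a (c (l 14) (l 141895239384317999)) (c (l 141899018957766703) (l 141887748959076399))))) (a (c (a (c (l 141899018955604015) (l 141887474078957615)) (l 141885618653069359)) (a (l 141869950605557807) (l 141862460180348975))) (c (a (l 141878059508367407) (l 141870706522112047)) (a (l 141855038474616879) (l 141847754207871023)))))))))) (c (b (l 141818479706652719) (b (c (l 141831330249916463) (l 141785563060142127)) (b (a (l 141811126712909871)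 (l 141796695618388015)) (c (b (a (l 141832361038348335) (l 141817861224349743)) (a (a (l 141834697500344367) (l 141827344514121775)) (a (l 141820128966885423) (l 141812982139158575)))) (a (c (l 141796077140328495) (l 141772094033854511)) (c (l 141781989643321391) (l 141758212695343151))))))) (b (l 141728732033122351) (b (l 141715263008030767) (c (b (l 141732855199416367) (a (l 141735741417013295) (l 141722203676000303))) (a (l 141688737277968431) (l 141675680573407279)))))))), by decide +kernel⟩

def k6_pm_012_a : ∃ t, chk3 f_pm_012_a t 129 63 1 = true :=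
  ⟨(b (c (b (l 141925888316047407) (l 141919497393340463)) (b (l 141776766977015855) (l 141760617889611823))) (c (c (c (l 14) (b (l 141934272078954543) (b (l 141931866889224239) (a (l 14) (b (l 141923414387294255) (c (l 14) (b (l 141912281825722415) (a (l 14) (c (l 14) (l 141902935972298799)))))))))) (b (l 141873317875859503) (b (a (l 141875516893691951) (l 141860810920984623)) (b (a (l 141918054245908527) (l 141948634408534063)) (b (c (a (l 141894139875049519) (l 141879571341459503)) (a (l 141849334758293551) (l 141835247261204527))) (c (a (c (c (l 14) (a (l 141902798531199023) (l 141895445544927279))) (a (l 141897232246865967) (l 141878677985919023))) (c (b (l 141890154144399407) (a (l 141893590118727727) (l 141886374571458607))) (a (l 141871531158126639) (l 141864453049827375)))) (a (b (l 141893727539331119) (a (l 141874279927873583) (l 141844661831237679))) (a (c (l 141849128599814191) (l 141826588602564655)) (l 141830986651385903))))))))) (b (c (l 141788999041630255) (l 141701175514120239)) (c (b (c (l 141802468060610607)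 (l 141757594224345135)) (b (a (l 141782745560301615) (l 141769207819173935)) (c (a (a (l 141806591226298415) (l 141799719276511279)) (a (l 141792916046217263) (l 141786250254909487))) (a (c (l 141768314463273007) (l 141744812393283631)) (l 141788449261436975))))) (b (l 141688737281720367) (c (b (l 141706398192713775) (a (l 141709146971439151) (l 141696502583803951))) (a (l 141663036185804847) (l 141650804115144751)))))))), by decide +kernel⟩

def k7_pm_012_a : ∃ t, chk3 f_pm_012_a t 65 62 1 = true :=
  ⟨(b (c (l 141899293899145263) (l 141788861624795183)) (c (b (l 141888367485354031) (l 141882182721617967)) (b (l 141763366683328559) (l 141747561193717807)))), by decide +kernel⟩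

def k8_pm_012_a : ∃ t, chk3 f_pm_012_a t 65 126 1 = true :=
  ⟨(c (b (a (l 141892834235842607) (l 141861291984551983)) (a (l 141887817703555119) (l 141857649842667567))) (b (l 141732580338188335) (a (l 141732305455661103) (l 141705367411605551)))), by decide +kernel⟩

def k9_pm_012_a : ∃ t, chk3 f_pm_012_a t 65 127 2 = true :=
  ⟨(c (b (a (l 141968013340655663) (l 141938532675059759)) (c (c (l 14) (a (l 14) (b (l 141904035495297071) (a (a (l 14) (a (l 14) (b (l 141906509393707055) (b (l 141906990428405807) (l 141929805293600815))))) (b (l 141898056895283247) (b (l 141898606649507887) (a (c (l 14) (l 141897094818889775)) (a (l 141897369697337391) (l 141894071161389103))))))))) (a (b (l 141902042626687023) (a (b (l 141908777134096431) (c (l 14) (b (l 141897850731085871) (a (c (l 14) (l 141895789144490031)) (c (l 141899499998412847) (l 141888779755651119)))))) (b (l 141894620917350447) (b (l 141894483476660271) (c (c (l 14) (a (l 141903210852335663) (l 141896338902482991))) (b (l 141883831952539695) (a (l 141887199207407663)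 (l 141880395977064495)))))))) (b (l 141874073790414895) (a (b (l 141880808298070063) (b (l 141880877015892015) (c (a (c (l 141900049756389423) (l 141889535672107055)) (c (l 141893315245506607) (l 141882869880717359))) (a (l 141873661466476591) (l 141867064394596399))))) (b (l 141867545434701871) (b (l 141867682872082479) (c (a (c (l 141886718173610031) (l 141876272808837167)) (l 141897575846674479)) (a (l 141860604761686063) (l 141854213848285231)))))))))) (b (a (l 141843768491065391) (l 141815868374106159)) (a (b (c (l 141860604764553263) (l 141818342268698671)) (b (a (l 141844593116332079) (l 141830986655612975)) (b (c (a (l 141865483844321327) (l 141851808664125487)) (a (l 141821572081057839) (l 141808377937346607))) (c (a (a (c (l 141879433902407727) (l 141857512380514351)) (a (l 141863353538822191) (l 141859917563920431))) (a (a (l 141856481589018671) (l 141853183053070383)) (a (l 141849815797645359) (l 141846517261713455)))) (a (a (l 141824183421075503) (l 141817517629751343)) (a (l 141810989277397039) (l 141804529644535855)))))))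 (b (c (l 141833391842836527) (l 141791953980997679)) (a (b (l 141817861231329327) (a (c (c (l 141874967128408111) (l 141830986654613551)) (l 141798482329092143)) (c (c (l 141845898787651631) (l 141824595741212719)) (l 141792160135233583)))) (b (l 141805148123988015) (a (c (c (l 141839507874234415) (l 141818273547321391)) (l 141786044099821615)) (c (c (l 141833185680326703) (l 141812020072923183)) (l 141779996783902767))))))))), by decide +kernel⟩

def k10_pm_012_a : ∃ t, chk3 f_pm_012_a t 65 127 3 = true :=
  ⟨(b (a (c (l 141761167644426287) (l 141675130823966767)) (c (l 141734916795564079) (l 141650666682155055))) (a (c (b (c (l 141775255139123247) (l 141731274656366639)) (b (c (l 141772025320341551) (l 141727151484452911)) (c (a (c (l 141787693365248047) (l 141765084648603695)) (c (l 141774842819051567) (l 141752440260902959))) (a (l 141730724897030191) (l 141718424106827823))))) (b (l 141663792103735343) (c (a (l 141685919781666863) (l 141674031308423215)) (a (l 141638915641950255) (l 141627508205191215))))) (c (b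 (c (l 141749691485454383) (l 141706604356190255)) (b (c (l 141747011422781487) (l 141703030940385327)) (c (a (c (l 141762404589813807) (l 141740208190160943)) (c (l 141750378677518383) (l 141728388436361263))) (a (l 141706604353044527) (l 141695128196743215))))) (b (l 141640496193552431) (c (a (l 141662486432645167) (l 141651353873825839)) (a (l 141616444365897775) (l 141605724124069935))))))), by decide +kernel⟩

def k11_pm_012_a : ∃ t, chk3 f_pm_012_a t 66 30 1 = true :=
  ⟨(b (l 2) (b (l 2) (c (l 141840332580110383) (l 141754158283554863)))), by decide +kernel⟩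

def k12_pm_012_a : ∃ t, chk3 f_pm_012_a t 66 62 1 = true :=
  ⟨(b (c (l 141919703555260463) (l 141724196572708911)) (c (a (l 141836346817347631) (l 141807003588100143)) (a (l 141710864982016047) (l 141683514619379759)))), by decide +kernel⟩

def k13_pm_012_a : ∃ t, chk3 f_pm_012_a t 66 126 1 = true :=
  ⟨(c (a (b (l 141831192842666031) (l 141829062530121775)) (b (l 141804254796333103) (l 141893796266557487))) (a (b (l 141691486076665903) (l 141679872476938287)) (b (l 141666609616224303) (l 141656645284642863)))), by decide +kernel⟩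

def k14_pm_012_a : ∃ t, chk3 f_pm_012_a t 132 127 1 = true :=
  ⟨(c (b (c (l 141955781254037551) (l 141789548805488687)) (c (b (a (l 141873936353345583) (l 141861017087311919)) (a (c (b (l 141894895799255087) (b (l 141895720431452207) (c (b (l 141906234514915375) (c (l 14) (a (l 141904722684854319) (l 141898263051927599)))) (a (c (l 141894346039853103) (l 141884106833543215)) (c (l 141887955126403119) (l 141877784639602735)))))) (b (l 141854626168799279) (b (l 141854969764692015) (a (a (l 141882388836483119) (l 141856756470628399)) (a (l 141853664093143087) (l 141850571715674159)))))) (c (b (l 141882113972256815) (b (l 141883007324028975) (c (a (a (l 141898400491667503) (l 141895308114165807)) (c (l 141895651712106543) (l 141885618664276015))) (a (c (l 141881701651939375) (l 141871599884632111)) (l 141870500373069871))))) (b (l 141842187939332143) (b (l 141842668974260271) (a (a (l 141847548057698351) (l 141844524399706159)) (a (l 141841500741730351) (l 141838545803247663)))))))) (b (c (l 141807828188921903) (l 141767146241638447))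 (b (a (l 141792847333589039) (l 141780958860148783)) (c (b (a (l 141813463183687727) (l 141801574710263855)) (a (a (l 141816418121220143) (l 141810439524778031)) (a (l 141804529647812655) (l 141798688490373167)))) (a (c (l 141781714772181039) (l 141760343006396463)) (c (l 141770169896255535) (l 141748935569489967)))))))) (b (c (l 141710177775534127) (l 141627576930222127)) (c (b (c (l 141725708380110895) (l 141683445884862511)) (b (c (l 141723578073530415) (l 141680490944626735)) (c (a (l 141727907400581167) (l 141716843561173039)) (a (l 141683995637907503) (l 141673344115490863))))) (b (l 141618643392725039) (b (l 141704474016497711) (a (l 141616719244607535) (l 141606686197694511))))))), by decide +kernel⟩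

def k15_pm_012_a : ∃ t, chk3 f_pm_012_a t 133 127 1 = true :=
  ⟨(a (c (b (c (l 141846654717640751) (l 141771475576258607)) (c (a (b (l 141851808674103343) (a (b (l 141854557451010095) (b (l 141855382083371055) (c (c (l 141897300975878191) (l 141865964886081583)) (l 141835590864748591)))) (b (l 141851946109698095) (c (c (l 141883007323979823) (l 141863078667337775)) (l 141832773365514287))))) (b (l 141846792149647407) (b (l 141848441414402095) (b (l 141849266046795823) (c (c (l 141879983664562223) (l 141859986288476207)) (l 141829612267225135)))))) (b (l 141770376059174959) (c (b (l 141790579591086127) (a (a (l 141794359162339375) (l 141791816540586031)) (l 141788449284374575))) (a (a (l 141752852582432815) (l 141750309960712239)) (l 141746942704549935)))))) (a (b (l 141655202172076079) (b (l 141738765050511407) (a (c (b (l 141689905517346863) (l 141688599845584943)) (l 141601875833126959)) (c (l 141686813139025967) (l 141599539369984047))))) (b (l 141650185647931439) (b (l 141644000889880623) (c (b (l 141684133078548527)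 (l 141682896126312495)) (l 141596309552988207)))))) (c (b (l 141799169536819247) (b (c (l 141839576600543279) (l 141760892766371887)) (c (c (b (l 141861085802479663) (b (l 141862254032322607) (b (c (l 141872836835246127) (l 141852839459225647)) (c (a (c (l 141880602139082799) (l 141870637810794543)) (c (l 141875929212043311) (l 141865964883787823))) (a (l 141855588239163439) (l 141850846592696367)))))) (b (l 141821503367266351) (b (l 141822259280265263) (a (c (l 141835247265939503) (l 141814906292518959)) (a (l 141844112072409135) (l 141818960742678575)))))) (c (b (l 141781302456762415) (b (l 141781508613963823) (a (l 141784051234996271) (l 141779103430246447)))) (b (l 141740276912537647) (a (l 141742338496397359) (l 141737390691729455))))))) (b (l 141642832660365359) (b (l 141637128938831919) (c (b (l 141677329846943791) (c (a (l 141700007282098223) (l 141695059477512239)) (a (l 141656920153554991) (l 141651903629574191)))) (b (l 141590811992506415) (c (l 141610465769603119) (l 141565866812604463)))))))), by decide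 +kernel⟩

def k16_pm_012_a : ∃ t, chk3 f_pm_012_a t 67 30 1 = true :=
  ⟨(b (b (l 2) (c (l 141786731394908207) (l 141742407261683759))) (b (l 141749554103058479) (l 141733336288329775))), by decide +kernel⟩

def k17_pm_012_a : ∃ t, chk3 f_pm_012_a t 67 62 1 = true :=
  ⟨(b (c (l 141769001713483823) (l 141665853711712303)) (c (l 141767696027435055) (l 141645444012048431))), by decide +kernel⟩

def k18_pm_012_a : ∃ t, chk3 f_pm_012_a t 67 126 1 = true :=
  ⟨(c (a (b (l 141780546564554799) (l 141781783507927087)) (b (l 141756838333120559) (l 141759037349953583))) (a (l 141819716596367407) (b (l 141620704984825903) (l 141612389921996847)))), by decide +kernel⟩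

def k19_pm_012_a : ∃ t, chk3 f_pm_012_a t 67 127 2 = true :=
  ⟨(b (b (c (l 141808790268117039) (l 141824526995701807)) (a (c (l 141821915690319919) (l 141745568318799919)) (c (l 141800337763958831) (l 141722134967271471)))) (c (a (b (c (l 141843974647349295) (l 141805010687639599)) (c (b (a (l 141851396351000623) (l 141841500741189679)) (b (a (l 141852564580909103) (l 141842875129593903)) (a (a (c (c (b (l 141870775249109039) (l 141871256285036591)) (l 141860948359610415)) (l 141845692629614639)) (c (c (a (l 141867476712079407) (l 141865208968069167)) (l 141856137993682991)) (l 141840813544226863))) (a (c (c (a (l 141862872504582191) (l 141860536041095215)) (l 141851396347265071)) (l 141835934458888239)) (c (c (a (l 141858199577624623) (l 141855863114121263)) (l 141846654700830767)) (l 141830986654056495)))))) (c (b (l 141816418122498095) (a (a (l 141825076778762287) (l 141819922815500335)) (a (l 141814837571747887) (l 141809752328011823)))) (b (l 141796077149208623) (b (l 141796558184398895) (a (l 141802124463669295)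 (l 141791610378879023))))))) (a (b (l 141808652820316207) (c (b (l 141831536411934767) (b (l 141833048239341615) (c (b (l 141844318236999727) (c (a (c (l 141855175918272559) (l 141849953236025391)) (c (l 141850365552328751) (l 141845074150604847))) (a (l 141842050493169711) (l 141837102688305199)))) (a (l 141825970129748015) (l 141820884885946415))))) (b (l 141790235990310959) (b (l 141790991903473711) (a (l 141816761707773999) (l 141788861597761583)))))) (b (l 141797932576784431) (c (b (l 141821228485263407) (b (l 141822809032179759) (a (c (c (a (l 141843699760316463) (l 141841225857859631)) (l 141831742566727727)) (l 141815662203191343)) (c (c (a (l 141838683235926063) (l 141836071894515759)) (l 141826588603416623)) (l 141810370800959535))))) (b (l 141779240869036079) (c (b (l 141790785744076847) (l 141791472938156079)) (l 141769620136951855))))))) (a (a (b (l 141750859717804079) (b (l 141795458655846447) (c (c (l 141781233734926383) (l 141760411725266991)) (l 141728800753647663)))) (b (l 141739452279799855) (b (l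 141738902521741359) (b (l 141828787596214319) (c (l 141782401956806703) (l 141717187157131311)))))) (b (l 141721653928083503) (c (b (l 141742682093895727) (a (c (l 141759380931756079) (l 141738009166446639)) (l 141737253251465263))) (b (l 141700282160726063) (a (l 141705711000305711) (l 141693822526242863)))))))), by decide +kernel⟩

def k20_pm_012_a : ∃ t, chk3 f_pm_012_a t 67 127 3 = true :=
  ⟨(b (a (b (l 141629638515425327) (a (l 141631219062521903) (l 141620086502768687))) (c (l 141643519855181871) (l 141562018523594799))) (a (c (b (a (l 141669083507556399) (l 141657126314065967)) (b (c (l 141681796614406191) (l 141639053083525167)) (c (a (l 141686194661654575) (l 141674306187755567)) (l 141636854058811439)))) (b (a (l 141584352359792687) (l 141572189008232495)) (b (l 141663860790083631) (c (l 141592804857872431) (l 141548205901135919))))) (c (b (l 141638228451229743) (a (c (l 141662967470374959) (l 141619536744988719)) (c (l 141650735399075887) (l 141607167234900015)))) (b (l 141553016267997231) (c (l 141569508947771439)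 (l 141525184869269551)))))), by decide +kernel⟩

def k21_pm_012_a : ∃ t, chk3 f_pm_012_a t 68 15 1 = true :=
  ⟨(b (b (b (l 20501377399) (l 141779584499499055)) (b (l 141678291973963823) (l 141668671231688751))) (b (b (c (l 141709971654688815) (l 141608472924209199)) (c (c (l 141743163164721199) (l 141685301333835823)) (b (l 141596859323138095) (l 141588338102009903)))) (b (c (b (c (l 141751478212313135) (l 141684682849632303)) (c (l 141757319362199599) (l 141683995649327151))) (b (a (l 141594522854178863) (l 141564767310921775)) (c (l 141608953949569071) (l 141532056823939119)))) (c (b (c (a (l 141776217218416687) (l 141752096671268911)) (a (l 141697327227650095) (l 141671282535923759))) (c (b (a (c (l 141801918306500655) (l 141760274287902767)) (c (l 141778965990604847) (l 141736153741295663))) (a (c (c (b (l 141815868362194991) (c (b (l 141823083908218927) (a (a (b (l 141831948724142127) (l 141832498479611951)) (l 141835384695193647)) (a (l 141821640797241391) (l 141816211955957807)))) (a (a (l 141820816165126191)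 (l 141815456043352111)) (a (l 141810027202101295) (l 141804460921880623))))) (b (l 141794359158145071) (a (a (l 141804529643225135) (l 141799100802007087)) (a (l 141793534521835567) (l 141787899522170927))))) (b (l 141762129711808559) (a (c (l 141802605488734255) (l 141758281418375215)) (c (l 141768658062196783) (l 141746667821858863))))) (c (b (l 141782401962606639) (a (b (l 141789892387274799) (c (a (l 141805079396171823) (l 141799444396458031)) (l 141779790619754543))) (c (a (l 141793053482795055) (l 141787212324634671)) (l 141767558548029487)))) (b (l 141738352762732591) (b (l 141739452273475631) (a (l 141746186784112687) (l 141734160870670383))))))) (a (b (l 141697395943161903) (c (b (l 141719111303708719) (a (l 141725570935636015) (l 141713545022406703))) (a (l 141681934052818991) (l 141669564542369839)))) (b (l 141672038446530607) (b (l 141762610715099183) (a (c (l 141701381670223919) (l 141656988872884271)) (c (l 141688943440101423) (l 141644275765051439)))))))) (b (c (a (l 141617062847365167) (l 141590056083718191))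 (l 141521817616891951)) (c (b (a (l 141612802235924527) (l 141586688825802799)) (b (a (l 141610809369215023) (l 141585176995594287)) (a (c (l 141676711353991215) (l 141587513457524783)) (c (l 141606342600949807) (l 141562087242645551))))) (b (a (l 141527315175489583) (l 141501270485598255)) (a (c (l 141544357611094063) (l 141500239691366447)) (c (l 141518862677049391) (l 141475088355082287)))))))))), by decide +kernel⟩

def k22_pm_012_a : ∃ t, chk3 f_pm_012_a t 69 15 1 = true :=
  ⟨(b (b (b (l 16592544) (l 141612252540764207)) (b (l 141607579602173999) (c (l 141642695272103983) (l 141561056473645103)))) (b (b (c (l 141649086171578415) (l 141545732018782255)) (c (b (l 141653965246283823) (l 141658225848877103)) (l 141529720370266159))) (b (c (b (l 141662417732108335) (c (l 141705573573640239) (l 141628539010646063))) (b (l 141519549880631343) (l 141693478871777327))) (c (b (c (a (l 141726739173457967) (l 141700213444493359)) (a (l 141644344490967087) (l 141616650531733551))) (c (a (b (c (l 141754639285076015) (l 141710933682978863))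 (c (b (l 141758350135164975) (c (b (l 141771681716551727) (a (l 141779034702659631) (l 141766940069462063))) (a (l 141755532634406959) (l 141743163123400751)))) (b (l 141713407582502959) (b (l 141714713251758127) (a (l 141721791359844399) (l 141709215690555439)))))) (b (l 141706810511196207) (c (b (l 141733130076536879) (b (l 141735191660101679) (a (c (l 141754570558324783) (l 141731205928976431)) (c (l 141741926169280559) (l 141718355381600303))))) (b (l 141687500329533487) (b (l 141688943437824047) (a (l 141696433862836271) (l 141683377157210159))))))) (b (a (l 141645856316145711) (l 141618918271500335)) (b (a (l 141646749667754031) (l 141620155220656175)) (a (c (a (l 141676230332071983) (l 141663379785072687)) (a (l 141631425218265135) (l 141618437232525359))) (c (a (l 141650323079643183) (l 141637060215783471)) (a (l 141605243088355375) (l 141591911505231919)))))))) (b (c (l 141548549505859631) (l 141467254335389743)) (c (b (a (l 141560025659883567) (l 141532950177120303)) (c (b (l 141567516084256815) (a (l 141580435349340207)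 (l 141554047061409839))) (a (l 141536729747767343) (l 141510410179674159)))) (b (l 141461962932682799) (a (c (l 141493161584623663) (l 141449868299370543)) (c (l 141467254333800495) (l 141424579524247599)))))))))), by decide +kernel⟩

def k23_pm_012_a : ∃ t, chk3 f_pm_012_a t 70 15 1 = true :=
  ⟨(b (b (b (l 16575936) (l 141737528115462191)) (b (l 141714094762360879) (a (l 141550611123257391) (l 141512540520169519)))) (b (b (c (l 141582703130984495) (l 141475088374251567)) (c (l 141593560799559727) (l 141464368127311919))) (b (c (c (b (l 141639327978946607) (l 141648742543474735)) (l 141567790973960239)) (c (l 141493024155402287) (l 141419700445839407))) (c (b (c (a (l 141672656923312175) (l 141644207048917039)) (l 141663860797095983)) (c (b (a (l 141679941185142831) (l 141652178505842735)) (a (c (b (l 141706879225708591) (b (l 141709078248325167) (a (c (l 141729006902313007) (l 141705298675793967)) (c (l 141715812757422127) (l 141691967092064303))))) (a (c (l 141702618609811503) (l 141657057589674031)) (c (l 141666540879364143)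 (l 141643451128234031)))) (c (b (l 141679666302173231) (b (l 141682002763825199) (a (c (l 141702412454101039) (l 141678429349904431)) (c (l 141688737272856623) (l 141664685449314351))))) (b (l 141633074483413039) (a (l 141687431591329839) (l 141673550251933743)))))) (b (a (l 141591293032087599) (l 141563118036860975)) (b (a (l 141592942298251311) (l 141565179620065327)) (a (c (a (l 141623591193493551) (l 141610053451726895)) (l 141571639252647983)) (c (a (l 141596240832036911) (l 141582359492886575)) (l 141544288891650095))))))) (b (c (l 141491787199627311) (l 141412141298303023)) (c (b (l 141581809711743023) (a (c (l 141527177737568303) (l 141483884453183535)) (c (l 141499896096456751) (l 141457083848851503)))) (b (l 141409117639000111) (a (l 141510272711163951) (l 141394549104590895))))))))), by decide +kernel⟩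

def k24_pm_012_a : ∃ t, chk3 f_pm_012_a t 71 15 1 = true :=
  ⟨(b (b (b (l 16560096) (l 141631974969180207)) (c (l 141669908132446255) (l 141412691078840367))) (b (c (b (l 141511990763290671) (l 141527040321765423)) (b (l 141402314426187823) (l 141397435336540207))) (b (c (c (l 141762816853295151) (l 141505118789664815)) (c (l 141431039167791151) (l 141359983202811951))) (a (c (b (c (l 141614863821307951) (l 141529582924431407)) (c (b (l 141623522473361455) (c (b (l 141651560025423919) (a (b (l 141661112034885679) (c (l 141674855933198383) (l 141650735390294063))) (c (l 141682415070412847) (l 141635823258730543)))) (b (l 141604762048725039) (a (l 141614520216338479) (l 141600295279575087))))) (b (l 141534393285853231) (a (c (l 141567378642436143) (l 141522779688828975)) (c (l 141553153705885743) (l 141508692191477807)))))) (b (l 141409117642178607) (b (l 141499277593804847) (c (c (l 141472408296947759) (l 141430214525108271)) (l 141368985451577391))))) (c (b (l 141631631349973039) (c (b (l 141594247965573167) (c (b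 (l 141622697834430511) (a (c (l 141645581425492015) (l 141621460882833455)) (c (l 141631150329987119) (l 141606961067982895)))) (b (l 141575831138746415) (a (l 141586001623334959) (l 141571501808681007))))) (b (l 141505324937494575) (c (a (l 141538860049874991) (l 141524428954910767)) (l 141487457866252335))))) (b (l 141380736489701423) (b (l 141471995953283119) (c (c (l 141444714339090479) (l 141403276481970223)) (l 141343559237632047))))))))), by decide +kernel⟩

def k25_pm_012_a : ∃ t, chk3 f_pm_012_a t 9 14 1 = true :=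
  ⟨(b (a (b (l 16541568) (a (l 16562096) (l 16523424))) (b (l 16545104) (a (l 16484368) (l 16444392)))) (a (a (b (l 16553224) (l 16543360)) (b (l 16516168) (l 16510616))) (a (b (l 16480408) (l 16478496)) (l 16488488)))), by decide +kernel⟩

def k26_pm_012_a : ∃ t, chk3 f_pm_012_a t 9 30 1 = true :=
  ⟨(a (b (a (b (l 16578928) (b (l 141494123656609839) (l 141588200616738863))) (a (l 16544904) (l 16499064))) (a (b (c (l 141540028281503791) (l 141289751901503535)) (c (l 141559956923990063) (l 141289958054068271))) (b (c (l 141363900203712559) (l 141297104836280367)) (c (l 141393861893636143) (l 141310436412571695))))) (a (b (a (l 16484920) (l 16471128)) (c (a (l 141428015432876079) (l 16478504)) (l 141366374022807599))) (b (l 16450800) (a (l 16461200) (l 16449528))))), by decide +kernel⟩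

def k27_pm_012_a : ∃ t, chk3 f_pm_012_a t 18 31 2 = true :=
  ⟨(b (a (b (a (l 141438186019192879) (l 141361907374096431)) (a (l 141457702345506863) (l 141386234065649711))) (b (l 141604899405545519) (a (l 141313391396585519) (l 141239861533196335)))) (b (a (a (c (l 141518106773209135) (l 141440659899138095)) (b (l 141405338078314543) (l 141418738375327791))) (a (b (l 141336343701372975) (l 141352561497915439)) (b (l 141266730849550383) (l 141285010231230511)))) (a (a (b (c (l 141538516455112751) (l 141453922755559471)) (c (b (a (l 141564286263066671) (l 141533843524239407)) (b (a (c (l 141593079729209391) (l 141546350473003055)) (l 141629501035429935)) (a (c (a (c (l 141616444356591663) (l 141592323814195247)) (c (l 141601669663719471) (l 141577549121454127))) (a (l 141556933274566703) (l 141542227301498927))) (c (a (c (l 141586688812433455) (l 141562636989775919)) (l 141559544610930735)) (a (l 141527383889494063) (l 141512471758012463)))))) (b (a (l 141475912991817775) (l 141446226168299567)) (a (c (b (l 141501270484205615)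 (l 141503950543421487)) (l 141458939274248239)) (c (l 141518312904654895) (l 141430214523895855)))))) (b (c (l 141474950917292079) (l 141392212645789743)) (c (a (b (l 141502919749140527) (b (l 141508967062847535) (c (a (l 141544357601296431) (l 141529033152741423)) (l 141489931762155567)))) (b (l 141471583657263151) (c (a (l 141511372242010159) (l 141495772915531823)) (l 141457633598193711)))) (b (l 141491443569803311) (a (c (l 141443752262877231) (l 141401489773625391)) (c (l 141413996720013359) (l 141372627584516143))))))) (a (b (c (l 141410079709724719) (l 141330227658522671)) (b (c (a (l 141440041407021103) (l 141408086839984175)) (l 141341360214048815)) (c (a (c (b (l 141469865664938031) (l 141474813467344943)) (l 141427053421150255)) (c (l 141440522437967919) (l 141395923488325679))) (a (l 141453785282756655) (l 141334075945271343))))) (b (c (l 141343353076465711) (l 141267143159873583)) (c (b (l 141358883679092783) (a (l 141475706795278383) (l 141352767641206831))) (a (l 141299716197597231) (l 141268723704479791)))))))),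 by decide +kernel⟩

def k28_pm_012_a : ∃ t, chk3 f_pm_012_a t 19 31 2 = true :=
  ⟨(b (a (b (l 141444920414027823) (a (l 141164751122071599) (l 141088472480120879))) (b (l 141279718743375919) (a (l 141010407131906095) (l 141291882086367279)))) (b (a (a (b (l 141195331291496495) (l 141215878416744495)) (l 141313803649056815)) (a (l 141060641075839023) (l 141345552005906479))) (b (a (a (c (l 141274083822583855) (l 141202271954878511)) (l 141348163391340591)) (a (c (l 141130941110501423) (l 141069849486016559)) (l 141025113092407343))) (a (a (c (a (l 141313803687280687) (l 141279718816596015)) (a (l 141237387613995055) (l 141205845365129263))) (c (l 141408292942348335) (l 141158222754316335))) (a (c (l 141157054515429423) (l 141094038745448495)) (l 141051707534475311)))))), by decide +kernel⟩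

def k29_pm_012_a : ∃ t, chk3 f_pm_012_a t 9 31 3 = true :=
  ⟨(a (b (a (b (l 141472270820851759) (a (l 141330090229235759) (l 141262813841850415))) (b (l 141325760854540335) (a (l 141196087210786863) (l 141130597530943535)))) (b (a (a (b (l 141332495407726639) (l 141335038026563631)) (b (l 141269960665595951) (l 141275733100724271))) (a (l 141393380828102703) (l 141333869744373807))) (a (c (a (b (l 141375445089288239) (b (l 141379705695813679) (a (c (l 141416882942361647) (l 141376338438914095)) (l 141459076686676015)))) (b (l 141317102235992111) (b (l 141323630585921583) (a (l 141341772531679279) (l 141314628330274863))))) (a (b (l 141302671139455023) (b (l 141304389125357615) (a (l 141318339182231599) (l 141293394004852783)))) (b (l 141249138651578415) (a (l 141267349316091951) (l 141242679016783919))))) (a (b (c (l 141259446577971247) (l 141197117992779823)) (c (a (l 141284872788803631) (l 141257453709590575)) (a (l 141218352315007023) (l 141194163052265519)))) (b (l 141352492723994671) (c (a (l 141229691032977455)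 (l 141201584759013423)) (l 141157535560794159))))))) (b (a (b (l 141362663173914671) (a (l 141065039131983919) (l 141179800640323631))) (b (l 16455352) (c (l 141274083740614703) (l 141161383789756463)))) (a (b (a (l 141094176192954415) (l 141214091663458351)) (b (a (l 141116578744827951) (l 141060572356001839)) (a (c (l 141159047391002671) (l 141108194962767919)) (c (l 141102216368062511) (l 141059197962403887))))) (a (b (l 141334213292720175) (c (l 141034665105424431) (b (l 141170592217858095) (l 141011575351984175)))) (b (l 141185504329465903) (b (l 141222063096987695) (l 141292363125866543))))))), by decide +kernel⟩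

def k30_pm_012_a : ∃ t, chk3 f_pm_012_a t 5 2 1 = true :=
  ⟨(a (b (a (a (l 2) (b (l 16697840) (b (l 16618176) (l 16590504)))) (b (a (a (l 16650616) (l 16667800)) (b (l 16648552) (l 16628208))) (a (b (l 16613464) (b (l 16593296) (a (l 16583592) (a (l 16582440) (l 16581264))))) (b (l 16603944) (b (l 16584664) (l 16574032)))))) (a (b (b (a (l 16608696) (b (l 16573528) (l 16562704))) (a (l 16544696) (l 16548336))) (a (b (l 16524640) (l 16504384)) (b (l 16530456) (l 16513104)))) (a (b (b (a (l 16567696) (a (l 16567232) (l 16566496))) (a (l 16549416) (a (l 16549616) (l 16549360)))) (a (b (l 16533344) (l 16518056)) (b (a (l 16534408) (l 16534744)) (a (l 16520272) (l 16521264))))) (b (b (l 16559824) (l 16543456)) (b (l 16529696) (l 16517168)))))) (b (b (a (a (l 16647256) (l 16614392)) (a (l 16603144) (l 16614376))) (a (b (a (l 16592208) (l 16581232)) (a (b (l 16572792) (l 16563176)) (l 16557936))) (b (a (b (l 16576920) (l 16564768)) (l 16561992)) (a (l 16549000) (l 16541520))))) (b (a (b (a (l 16549616) (l 16540592)) (a (l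 16534416) (l 16526496))) (b (a (l 16532752) (l 16526472)) (a (l 16520008) (l 16515008)))) (a (b (a (l 16521944) (l 16515336)) (a (l 16510792) (l 16505808))) (b (a (l 16510200) (l 16506712)) (a (l 16502304) (l 16500352))))))), by decide +kernel⟩

def k31_pm_012_a : ∃ t, chk3 f_pm_012_a t 5 6 1 = true :=
  ⟨(a (a (a (b (b (l 16476568) (l 16439112)) (l 16456320)) (b (b (l 16490032) (l 16459176)) (b (l 16449352) (l 16399240)))) (b (a (b (a (l 16498112) (a (l 16501792) (l 16503648))) (a (l 16471888) (l 16500016))) (b (l 16500520) (l 16478840))) (a (b (a (l 16446120) (l 16456240)) (a (l 16422968) (b (l 16440544) (l 16432392)))) (b (l 16458448) (a (l 16440776) (l 16442104)))))) (b (a (b (a (l 16496040) (l 16492944)) (a (l 16476488) (l 16475880))) (b (a (l 16491488) (l 16491440)) (a (l 16476920) (l 16478768)))) (a (b (a (l 16458736) (l 16461040)) (b (l 16449344) (a (l 16441976) (l 16447104)))) (b (a (l 16464152) (l 16468008)) (a (l 16496424) (l 16460024)))))), by decide +kernel⟩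

def k32_pm_012_a : ∃ t, chk3 f_pm_012_a t 5 7 1 = true :=
  ⟨(a (b (a (a (b (c (l 16465384) (l 16448952)) (l 16477264)) (b (l 16457080) (l 16425064))) (a (b (b (a (l 16428992) (l 16423800)) (l 16490224)) (a (l 16391440) (l 16472928))) (b (a (l 16446560) (l 16428648)) (a (l 16419400) (l 16424800))))) (b (a (a (a (a (l 16437640) (l 16431512)) (l 16485368)) (a (l 16452536) (l 16440776))) (a (b (a (l 16389880) (l 16430576)) (l 16443856)) (a (b (l 16420840) (l 16424304)) (l 16472008)))) (b (a (a (a (b (l 16443992) (l 16448352)) (l 16436728)) (c (l 16484816) (l 16466024))) (a (l 16460016) (a (l 16429336) (l 16438488)))) (a (a (a (c (b (l 141086823156072495) (l 141325829506793519)) (c (l 141165025918205999) (b (l 16448872) (l 141256491540316207)))) (c (a (l 141240411178025007) (l 141024219695349807)) (b (l 16443312) (b (l 16447440) (a (l 141322805831827503) (l 16448896)))))) (a (b (l 16437104) (c (l 16444168) (l 16443304))) (a (l 16435608) (l 16422112)))) (a (a (l 16475664) (l 16465824)) (a (l 16456656) (l 16466960)))))))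 (b (a (a (b (l 16433480) (l 16473656)) (b (l 16440472) (l 16441656))) (a (b (l 16448144) (l 16472640)) (b (l 16455928) (l 16461304)))) (b (a (a (b (l 16436488) (l 16441848)) (c (l 16497024) (l 16489976))) (a (c (l 16508424) (l 16481280)) (b (l 16470640) (l 16478864)))) (b (a (a (l 16491064) (l 16504816)) (a (l 16476136) (l 16488600))) (a (a (c (l 16481632) (l 16454736)) (c (l 16475032) (l 16469992))) (a (l 16507232) (l 16520592))))))), by decide +kernel⟩

def k33_pm_012_a : ∃ t, chk3 f_pm_012_a t 6 2 1 = true :=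
  ⟨(a (b (b (a (b (l 16589696) (a (l 16575656) (l 16568744))) (b (a (l 16579984) (l 16573832)) (a (l 16563296) (l 16558056)))) (a (b (a (l 16555216) (l 16549616)) (a (l 16535696) (l 16531328))) (b (a (l 16545024) (l 16540544)) (a (l 16527640) (l 16524072))))) (a (b (b (a (l 16521816) (l 16518488)) (a (l 16511576) (l 16509312))) (b (a (l 16504656) (l 16503256)) (a (l 16499600) (l 16499224)))) (b (b (a (l 16515760) (l 16512856)) (a (l 16507352) (l 16505144))) (b (a (l 16502032) (l 16500536)) (a (l 16498672) (l 16498072)))))) (b (a (b (a (b (l 16567480) (l 16552424)) (l 16553856)) (a (b (l 16535736) (l 16520168)) (b (l 16530672) (l 16516024)))) (b (a (l 16547000) (l 16539376)) (b (a (l 16525048) (l 16518472)) (a (l 16511248) (l 16505504))))) (a (b (a (b (l 16509720) (l 16502832)) (b (l 16506328) (l 16499968))) (b (a (l 16498904) (a (l 16497336) (l 16495968))) (a (l 16496992) (l 16495288)))) (b (b (a (l 16502176) (l 16497120)) (a (l 16496384) (l 16491968))) (b (a (b (l 16494056) (l 16493096)) (b (l 16490128) (l 16489544)))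 (a (l 16492800) (l 16489864))))))), by decide +kernel⟩

def k34_pm_012_a : ∃ t, chk3 f_pm_012_a t 7 2 1 = true :=
  ⟨(a (b (a (b (a (l 16530840) (b (l 16527608) (l 16515736))) (b (a (l 16511120) (l 16503280)) (a (l 16499072) (l 16492232)))) (b (a (b (l 16517856) (l 16506720)) (b (l 16508088) (l 16497736))) (b (a (l 16495248) (l 16487296)) (a (l 16485288) (l 16478504))))) (a (b (b (a (l 16491464) (l 16496000)) (a (l 16487088) (b (l 16482488) (l 16481616)))) (b (a (b (l 16485840) (l 16485696)) (b (l 16481464) (l 16481832))) (a (l 16486768) (l 16483744)))) (b (b (a (b (l 16480672) (l 16478448)) (b (l 16474656) (l 16472976))) (a (a (l 16478272) (l 16475848)) (a (l 16473512) (l 16471288)))) (b (a (b (l 16477256) (l 16478184)) (b (l 16473408) (l 16474904))) (a (l 16502000) (l 16499752)))))) (b (a (b (a (l 16514832) (l 16485168)) (a (b (l 16479648) (l 16472080)) (b (l 16472512) (l 16466256)))) (b (a (l 16477336) (l 16470616)) (a (b (l 16466328) (l 16461464)) (b (l 16461248) (l 16457760))))) (a (b (a (b (l 16468456) (l 16468192))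 (b (l 16463936) (l 16464920))) (a (b (b (l 16470152) (l 16472408)) (l 16477408)) (b (b (l 16467904) (l 16470904)) (l 16477128)))) (b (a (b (l 16460424) (l 16462760)) (b (l 16457944) (l 16461496))) (a (b (b (l 16466720) (l 16470416)) (a (l 16477512) (l 16478008))) (b (a (l 16468480) (l 16468616)) (a (l 16478648) (l 16479424)))))))), by decide +kernel⟩

def k35_pm_012_a : ∃ t, chk3 f_pm_012_a t 6 3 1 = true :=
  ⟨(b (a (b (a (b (a (l 16491992) (l 16492768)) (l 16503024)) (a (b (l 16493296) (l 16485216)) (b (l 16493720) (l 16486744)))) (b (a (a (l 16471768) (l 16475592)) (a (l 16478984) (l 16481944))) (a (a (l 16465528) (l 16470728)) (a (l 16475632) (l 16479960))))) (b (a (b (a (l 16493576) (l 16492608)) (a (l 16487752) (l 16488048))) (b (a (l 16491128) (l 16489400)) (a (l 16488072) (l 16488056)))) (a (b (a (l 16484136) (l 16485976)) (a (l 16483952) (l 16487888))) (b (a (l 16487800) (l 16489816)) (a (l 16492016) (l 16496496)))))) (a (b (a (a (b (l 16463376) (l 16470624)) (b (l 16470536) (l 16479224))) (b (a (l 16477016)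 (l 16483152)) (a (l 16508440) (l 16495648)))) (b (a (a (l 16493248) (l 16516704)) (a (l 16527008) (l 16537480))) (b (a (a (l 16500648) (l 16512592)) (a (l 16527896) (l 16545480))) (a (a (l 16535880) (c (l 16554000) (l 16533840))) (a (b (l 16545608) (c (l 16579256) (l 16557488))) (b (l 16563328) (a (l 16571368) (l 16580128)))))))) (b (a (b (a (l 16489240) (l 16495536)) (l 16555480)) (b (l 16547360) (a (l 16521848) (l 16536104)))) (b (a (a (l 16550328) (b (l 16534848) (l 16556008))) (b (a (l 16550384) (l 16565064)) (a (l 16571576) (l 16586240)))) (a (b (a (a (l 16579304) (l 16566624)) (l 16620512)) (a (b (l 16580400) (l 16608528)) (a (l 16619736) (l 16622280)))) (b (a (l 16594144) (l 16608944)) (b (a (l 16612000) (l 16626960)) (a (l 16645400) (l 16650016))))))))), by decide +kernel⟩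

def k36_pm_012_a : ∃ t, chk3 f_pm_012_a t 7 6 1 = true :=
  ⟨(a (b (a (b (a (l 16487664) (l 16486176)) (a (l 16488232) (l 16488672))) (b (a (l 16485048) (l 16484736)) (a (l 16490008) (l 16513152)))) (a (b (a (l 16492264) (l 16537232)) (l 16535776)) (b (b (l 16540312) (l 16505064)) (l 16560120)))) (a (b (b (a (l 16485384) (l 16508040)) (a (b (l 16492392) (l 16498528)) (b (l 16495872) (l 16503200)))) (a (b (l 16510224) (l 16530736)) (b (l 16516696) (l 16539656)))) (b (b (a (b (l 16486384) (l 16492640)) (a (l 16491712) (b (l 16489536) (l 16497088)))) (a (b (l 16499984) (l 16508384)) (b (a (l 16503344) (l 16505632)) (l 16513840)))) (a (b (b (l 16518048) (l 16529088)) (b (l 16541640) (l 16555920))) (b (b (l 16524528) (l 16536616)) (b (a (l 16548080) (l 16552344)) (l 16565496))))))), by decide +kernel⟩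

def k37_pm_012_a : ∃ t, chk3 f_pm_012_a t 7 7 1 = true :=
  ⟨(a (b (a (b (l 16553216) (a (l 16549688) (l 16551800))) (b (a (l 16539032) (l 16549792)) (a (l 16616232) (b (l 16576128) (l 16595696))))) (b (a (b (a (l 16578744) (l 16591776)) (a (l 16600144) (l 16613552))) (b (a (l 16604408) (l 16616872)) (a (l 16647656) (l 16660736)))) (b (a (a (b (l 16617184) (l 16629104)) (b (l 16630912) (l 16643064))) (a (b (l 16644472) (l 16677896)) (b (l 16658064) (l 16691848)))) (a (b (a (l 16641440) (l 16676632)) (a (c (l 16666752) (l 16662632)) (a (l 16665088) (l 16688048)))) (b (a (c (l 16692488) (l 16668168)) (a (l 16680560) (l 16698272))) (a (b (l 16690304) (a (l 16682960) (l 16700792))) (b (c (l 16706400) (l 16692968)) (a (l 16708200) (c (l 16706632) (l 16703776)))))))))) (b (a (b (a (l 16560168) (l 16591384)) (a (b (l 16587336) (l 16607512)) (b (l 16598552) (l 16619440)))) (b (a (b (l 16571840) (l 16589952)) (b (l 16582424) (l 16622080))) (a (b (l 16609952) (l 16642128)) (b (l 16638800) (a (l 16641032) (l 6)))))) (a (a (b (b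 (a (l 16626224) (l 16632504)) (a (l 16649656) (l 16656328))) (b (b (l 16692840) (a (l 16681496) (l 16688688))) (a (b (l 16705584) (b (l 16705608) (c (l 16719296) (l 16721992)))) (b (b (l 16698992) (l 6)) (l 6))))) (b (b (a (l 16638848) (l 16666248)) (b (l 16670632) (a (l 16669376) (l 16676328)))) (b (b (a (l 16682432) (l 6)) (l 6)) (l 6)))) (b (a (b (a (l 16651792) (l 6)) (l 6)) (l 6)) (l 6))))), by decide +kernel⟩

theorem s38_pm_012_a : ∃ t, chk3 f_pm_012_a t 7 3 1 = true := ex3_b k36_pm_012_a k37_pm_012_a

theorem s39_pm_012_a : ∃ t, chk3 f_pm_012_a t 3 3 1 = true := ex3_a k35_pm_012_a s38_pm_012_a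

theorem s40_pm_012_a : ∃ t, chk3 f_pm_012_a t 3 2 1 = true := ex3_a k33_pm_012_a k34_pm_012_a

theorem s41_pm_012_a : ∃ t, chk3 f_pm_012_a t 3 1 1 = true := ex3_b s40_pm_012_a s39_pm_012_a

theorem s42_pm_012_a : ∃ t, chk3 f_pm_012_a t 5 3 1 = true := ex3_b k31_pm_012_a k32_pm_012_a

theorem s43_pm_012_a : ∃ t, chk3 f_pm_012_a t 5 1 1 = true := ex3_b k30_pm_012_a s42_pm_012_a

theorem s44_pm_012_a : ∃ t, chk3 f_pm_012_a t 9 31 2 = true := ex3_a k27_pm_012_a k28_pm_012_a

theorem s45_pm_012_a : ∃ t, chk3 f_pm_012_a t 9 31 1 = true := ex3_c s44_pm_012_a k29_pm_012_a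

theorem s46_pm_012_a : ∃ t, chk3 f_pm_012_a t 9 15 1 = true := ex3_b k26_pm_012_a s45_pm_012_a

theorem s47_pm_012_a : ∃ t, chk3 f_pm_012_a t 9 7 1 = true := ex3_b k25_pm_012_a s46_pm_012_a

theorem s48_pm_012_a : ∃ t, chk3 f_pm_012_a t 35 15 1 = true := ex3_a k23_pm_012_a k24_pm_012_a

theorem s49_pm_012_a : ∃ t, chk3 f_pm_012_a t 34 15 1 = true := ex3_a k21_pm_012_a k22_pm_012_a

theorem s50_pm_012_a : ∃ t, chk3 f_pm_012_a t 17 15 1 = true := ex3_a s49_pm_012_a s48_pm_012_a

theorem s51_pm_012_a : ∃ t, chk3 f_pm_012_a t 67 127 1 = true := ex3_c k19_pm_012_a k20_pm_012_a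

theorem s52_pm_012_a : ∃ t, chk3 f_pm_012_a t 67 63 1 = true := ex3_b k18_pm_012_a s51_pm_012_a

theorem s53_pm_012_a : ∃ t, chk3 f_pm_012_a t 67 31 1 = true := ex3_b k17_pm_012_a s52_pm_012_a

theorem s54_pm_012_a : ∃ t, chk3 f_pm_012_a t 67 15 1 = true := ex3_b k16_pm_012_a s53_pm_012_a

theorem s55_pm_012_a : ∃ t, chk3 f_pm_012_a t 66 127 1 = true := ex3_a k14_pm_012_a k15_pm_012_a

theorem s56_pm_012_a : ∃ t, chk3 f_pm_012_a t 66 63 1 = true := ex3_b k13_pm_012_a s55_pm_012_a

theorem s57_pm_012_a : ∃ t, chk3 f_pm_012_a t 66 31 1 = true := ex3_b k12_pm_012_a s56_pm_012_a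

theorem s58_pm_012_a : ∃ t, chk3 f_pm_012_a t 66 15 1 = true := ex3_b k11_pm_012_a s57_pm_012_a

theorem s59_pm_012_a : ∃ t, chk3 f_pm_012_a t 33 15 1 = true := ex3_a s58_pm_012_a s54_pm_012_a

theorem s60_pm_012_a : ∃ t, chk3 f_pm_012_a t 65 127 1 = true := ex3_c k9_pm_012_a k10_pm_012_a

theorem s61_pm_012_a : ∃ t, chk3 f_pm_012_a t 65 63 1 = true := ex3_b k8_pm_012_a s60_pm_012_a

theorem s62_pm_012_a : ∃ t, chk3 f_pm_012_a t 65 31 1 = true := ex3_b k7_pm_012_a s61_pm_012_a

theorem s63_pm_012_a : ∃ t, chk3 f_pm_012_a t 64 63 1 = true := ex3_a k5_pm_012_a k6_pm_012_a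

theorem s64_pm_012_a : ∃ t, chk3 f_pm_012_a t 64 31 1 = true := ex3_b k4_pm_012_a s63_pm_012_a

theorem s65_pm_012_a : ∃ t, chk3 f_pm_012_a t 32 31 1 = true := ex3_a s64_pm_012_a s62_pm_012_a

theorem s66_pm_012_a : ∃ t, chk3 f_pm_012_a t 32 15 1 = true := ex3_b k3_pm_012_a s65_pm_012_a

theorem s67_pm_012_a : ∃ t, chk3 f_pm_012_a t 16 15 1 = true := ex3_a s66_pm_012_a s59_pm_012_a

theorem s68_pm_012_a : ∃ t, chk3 f_pm_012_a t 8 15 1 = true := ex3_a s67_pm_012_a s50_pm_012_a

theorem s69_pm_012_a : ∃ t, chk3 f_pm_012_a t 8 7 1 = true := ex3_b k2_pm_012_a s68_pm_012_a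

theorem s70_pm_012_a : ∃ t, chk3 f_pm_012_a t 4 7 1 = true := ex3_a s69_pm_012_a s47_pm_012_a

theorem s71_pm_012_a : ∃ t, chk3 f_pm_012_a t 4 3 1 = true := ex3_b k1_pm_012_a s70_pm_012_a

theorem s72_pm_012_a : ∃ t, chk3 f_pm_012_a t 4 1 1 = true := ex3_b k0_pm_012_a s71_pm_012_a

theorem s73_pm_012_a : ∃ t, chk3 f_pm_012_a t 2 1 1 = true := ex3_a s72_pm_012_a s43_pm_012_a

theorem s74_pm_012_a : ∃ t, chk3 f_pm_012_a t 1 1 1 = true := ex3_a s73_pm_012_a s41_pm_012_a

theorem c_pm_012_a : CertB 0 536870912 0 536870912 536870912 50465866 3 eng mog cd0q0 cd1q2a pd1 false true false .pnp 0 1 2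
    ndB0q0 ndB1q2a pcB1 cut_pm_012_a xt_pm_012_a :=
  certB2 (fam := false) (s1 := true) (s2 := false) (a := 0) (b := 1) (c := 2) (cn := .pnp) (n1 := ndB0q0) (n2 := ndB1q2a) (pc := pcB1) (cut := cut_pm_012_a) (xt := xt_pm_012_a) (P1 := 0) (W1 := 536870912) (P2 := 0) (W2 := 536870912) (P3 := 536870912) (W3 := 50465866) (N0 := 3) (En := eng) (mo := mog) (C1 := cd0q0) (C2 := cd1q2a) (C3 := pd1)
    rfl (fun _ => rfl) s74_pm_012_a

noncomputable def cut_pm_012_b : Cut := Cut.of [[⟨0, 0, 0, 67108864⟩, ⟨1, 1, 0, 67108864⟩, ⟨2, 1, 0, 67108864⟩], [⟨0, 0, 1, 20971520⟩, ⟨1, 1, 2, 20971520⟩, ⟨2, 1, 0, 33554432⟩]]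

noncomputable def f_pm_012_b : ℕ → ℕ → ℕ → ℕ → Bool := onCell 536870912 536870912 1239849684 370763052 536870912 50465866
    (rowB 3 eng mog cd0q0 cd1q2b pd1 2 false true false .pnp 0 1 2 (qsf 0 536870912 1239849684 370763052 1) ndB0q0 ndB1q2b pcB1 cut_pm_012_b Ext.none)

def k0_pm_012_b : ∃ t, chk3 f_pm_012_b t 2 1 1 = true :=
  ⟨(b (a (l 2) (a (b (b (a (a (l 2) (b (l 16709104) (l 2))) (b (a (b (l 16673672) (l 16682312)) (l 16666000)) (a (l 2) (l 16681240)))) (l 2)) (l 2)) (b (b (a (b (a (l 16653024) (l 16639248)) (a (l 16666616) (l 16651632))) (b (a (l 16625784) (l 16613728)) (l 16628896))) (a (a (l 16688744) (l 16672656)) (b (l 16640248) (l 16654224)))) (b (a (l 2) (l 16742792)) (l 2))))) (l 2)), by decide +kernel⟩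

def k1_pm_012_b : ∃ t, chk3 f_pm_012_b t 3 1 1 = true :=
  ⟨(b (a (b (a (b (a (b (a (l 16602744) (l 16592920)) (l 16599456)) (b (a (l 16584728) (l 16577040)) (l 16576000))) (a (b (l 16605696) (l 16617400)) (l 16576768))) (a (b (b (a (l 16569728) (l 16561952)) (l 16576568)) (b (l 16549016) (l 16546888))) (b (b (a (l 16554048) (l 16545328)) (l 16579152)) (b (l 16525728) (l 16518320))))) (a (b (a (l 16681336) (l 16597936)) (a (l 2) (l 16654376))) (b (a (l 16554328) (l 16516664)) (a (l 16585528) (l 16554744))))) (b (a (a (b (a (b (l 16535968) (l 16521752)) (b (l 16525632) (l 16510872))) (b (l 16503472) (l 16491640))) (b (a (b (l 16514808) (l 16498976)) (b (l 16503768) (l 16486432))) (a (l 16541384) (b (l 16471680) (l 16458600))))) (b (a (a (b (l 16492760) (l 16473552)) (b (l 16481888) (l 16460632))) (a (b (l 16471880) (l 16447928)) (b (l 16462840) (l 16435624)))) (b (a (a (l 16457472) (l 16442808)) (a (l 16427984) (l 16413304))) (a (l 16477928) (a (l 16411640) (l 16394952)))))) (a (b (a (l 16481512) (b (l 16455368) (l 16446184)))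 (a (l 16484512) (l 16442768))) (b (a (b (l 16423624) (l 16413424)) (a (l 16412712) (l 16394768))) (a (l 16401488) (b (l 16367712) (l 16360648))))))) (a (b (a (l 2) (b (a (l 16634096) (l 16575104)) (a (l 2) (b (l 16620656) (l 2))))) (l 2)) (b (a (b (a (l 16535400) (l 16455328)) (a (l 16569216) (l 16500896))) (b (a (l 16402992) (l 16353432)) (a (l 16430408) (l 16364184)))) (a (b (a (l 2) (l 16571536)) (l 2)) (b (a (l 16490784) (l 16407944)) (a (l 16578328) (l 16484552))))))), by decide +kernel⟩

theorem s2_pm_012_b : ∃ t, chk3 f_pm_012_b t 1 1 1 = true := ex3_a k0_pm_012_b k1_pm_012_b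

theorem c_pm_012_b : CertB 0 536870912 1239849684 370763052 536870912 50465866 3 eng mog cd0q0 cd1q2b pd1 false true false .pnp 0 1 2
    ndB0q0 ndB1q2b pcB1 cut_pm_012_b Ext.none :=
  certB2 (fam := false) (s1 := true) (s2 := false) (a := 0) (b := 1) (c := 2) (cn := .pnp) (n1 := ndB0q0) (n2 := ndB1q2b) (pc := pcB1) (cut := cut_pm_012_b) (xt := Ext.none) (P1 := 0) (W1 := 536870912) (P2 := 1239849684) (W2 := 370763052) (P3 := 536870912) (W3 := 50465866) (N0 := 3) (En := eng) (mo := mog) (C1 := cd0q0) (C2 := cd1q2b) (C3 := pd1)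
    rfl (fun _ => rfl) s2_pm_012_b

noncomputable def cut_pm_022_a : Cut := Cut.of [[⟨0, 0, 0, 67108864⟩, ⟨1, 1, 0, 67108864⟩, ⟨2, 1, 0, 67108864⟩]]

noncomputable def f_pm_022_a : ℕ → ℕ → ℕ → ℕ → Bool := onCell 1073741824 536870912 0 536870912 536870912 50465866
    (rowB 3 eng mog cd0q0 cd1q2a pd2 2 false true false .pp 0 2 2 (qsf 0 536870912 0 536870912 2) ndB0q0 ndB1q2a pcB2 cut_pm_022_a Ext.none)

def k0_pm_022_a : ∃ t, chk3 f_pm_022_a t 2 2 1 = true :=
  ⟨(a (b (a (b (a (a (l 16465832) (l 16464544)) (l 16462584)) (a (a (l 16457048) (l 16457848)) (l 16458936))) (b (l 16480040) (a (l 16460520) (l 16524792)))) (a (b (a (a (b (l 16457192) (b (l 16460256) (l 16463360))) (b (l 16459624) (l 16465480))) (b (l 16484152) (l 16470728))) (a (b (a (b (l 16467288) (l 16472040)) (l 16474624)) (a (a (b (l 16476168) (a (l 16481776) (l 16483480))) (l 16503584)) (b (l 16483664) (l 16490976)))) (b (a (l 16479440) (l 16484128)) (a (l 16493424) (l 16499288))))) (a (b (l 16514496) (b (l 16490696) (a (l 16504840) (l 16509960)))) (b (l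 16477432) (b (l 16498104) (l 16563760)))))) (a (b (b (a (l 16455320) (l 1)) (a (a (l 16505648) (l 101501652983)) (l 1))) (a (b (b (l 16479352) (l 16513432)) (b (b (l 75731928167) (l 89153724615)) (l 407518079463))) (l 1))) (l 1))), by decide +kernel⟩

def k1_pm_022_a : ∃ t, chk3 f_pm_022_a t 2 3 1 = true :=
  ⟨(a (b (a (a (b (a (b (b (a (a (l 16488768) (l 16490648)) (l 16493448)) (a (l 16497480) (l 16501568))) (b (a (l 16506432) (l 16510872)) (l 16519040))) (b (b (l 16498912) (l 16507552)) (b (l 16517352) (l 16528400)))) (b (a (b (l 16530744) (l 16543864)) (b (l 16540768) (l 16554528))) (a (b (l 16558496) (l 16574760)) (b (l 16569792) (l 16586688))))) (a (b (b (l 16531576) (b (l 16525680) (l 16537344))) (b (b (l 16550312) (l 16564672)) (l 16625928))) (b (b (l 16517640) (l 16539672)) (b (l 16566744) (b (l 16590776) (a (l 16606608) (l 16612408))))))) (b (a (a (b (l 16545208) (l 16547296)) (b (l 16530312) (l 16575256))) (b (a (l 16556704) (a (l 16582632) (l 103112395735))) (a (b (l 16591960) (l 216392097911)) (l 1)))) (a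 (b (a (a (l 16573280) (l 16578184)) (b (a (l 16574712) (l 139619563399)) (a (l 16623088) (l 195454218823)))) (a (a (b (l 16599112) (b (l 16613144) (l 16622896))) (b (l 125661001687) (a (l 16622128) (l 193843679639)))) (b (a (l 179884992839) (l 1)) (l 1)))) (b (a (b (a (l 242161955527) (l 1)) (l 1)) (l 1)) (l 1))))) (a (b (a (a (b (b (l 16592688) (l 16612352)) (l 6)) (b (b (l 16605216) (l 16646448)) (l 6))) (b (a (b (l 16638360) (b (b (l 16630344) (l 6)) (l 6))) (b (a (a (l 16604080) (l 16628040)) (b (l 16627264) (l 16637592))) (a (b (l 16642280) (l 6)) (b (l 137472280391) (a (l 6) (l 324840222999)))))) (a (l 6) (a (l 6) (a (l 6) (l 1)))))) (a (l 6) (a (l 6) (l 1)))) (b (b (a (a (b (a (b (l 16653920) (l 223908456919)) (l 331819510919)) (a (b (l 327524564263) (l 1)) (l 1))) (l 1)) (l 1)) (l 1)) (l 1)))) (b (l 1) (l 1))), by decide +kernel⟩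

def k2_pm_022_a : ∃ t, chk3 f_pm_022_a t 3 1 1 = true :=
  ⟨(l 1), by decide +kernel⟩

theorem s3_pm_022_a : ∃ t, chk3 f_pm_022_a t 2 1 1 = true := ex3_b k0_pm_022_a k1_pm_022_a

theorem s4_pm_022_a : ∃ t, chk3 f_pm_022_a t 1 1 1 = true := ex3_a s3_pm_022_a k2_pm_022_a

theorem c_pm_022_a : CertB 0 536870912 0 536870912 536870912 50465866 3 eng mog cd0q0 cd1q2a pd2 false true false .pp 0 2 2
    ndB0q0 ndB1q2a pcB2 cut_pm_022_a Ext.none :=
  certB2 (fam := false) (s1 := true) (s2 := false) (a := 0) (b := 2) (c := 2) (cn := .pp) (n1 := ndB0q0) (n2 := ndB1q2a) (pc := pcB2) (cut := cut_pm_022_a) (xt := Ext.none) (P1 := 0) (W1 := 536870912) (P2 := 0) (W2 := 536870912) (P3 := 536870912) (W3 := 50465866) (N0 := 3) (En := eng) (mo := mog) (C1 := cd0q0) (C2 := cd1q2a) (C3 := pd2)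
    rfl (fun _ => rfl) s4_pm_022_a

noncomputable def cut_pm_022_b : Cut := Cut.of [[⟨0, 0, 0, 67108864⟩, ⟨1, 1, 0, 67108864⟩, ⟨2, 1, 0, 67108864⟩]]

noncomputable def f_pm_022_b : ℕ → ℕ → ℕ → ℕ → Bool := onCell 0 536870912 1073741824 536870912 536870912 50465866
    (rowB 3 eng mog cd0q0 cd1q2b pd2 1 false true false .pp 0 2 2 (qsf 0 536870912 1239849684 370763052 2) ndB0q0 ndB1q2b pcB2 cut_pm_022_b Ext.none)

def k0_pm_022_b : ∃ t, chk3 f_pm_022_b t 1 1 1 = true :=
  ⟨(a (b (a (b (a (b (l 1) (a (b (l 1) (l 82174356759)) (b (l 16560544) (l 16476928)))) (a (b (b (l 1) (l 16583200)) (l 16535792)) (b (b (l 16596112) (l 16485296)) (l 16423256)))) (b (a (b (b (l 16522384) (l 16471280)) (c (l 16468576) (l 16463560))) (b (l 16365560) (b (l 16283656) (l 16252784)))) (a (a (l 16357136) (l 16253848)) (l 16268712)))) (b (b (b (a (a (l 16573848) (l 16423920)) (a (l 16389392) (l 16364392))) (a (l 16520648) (l 16400224))) (a (b (l 16388456) (l 16320864)) (a (l 16290496) (l 16281112)))) (b (a (b (l 16254752) (l 16313408)) (b (l 16232280)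 (l 16197752))) (a (l 16121552) (l 16133224))))) (b (a (b (a (l 16382840) (l 16111056)) (a (l 16183696) (l 16078904))) (b (a (l 15994552) (l 16028408)) (a (l 15985984) (l 16102736)))) (a (b (a (l 16121712) (l 16054152)) (l 16058808)) (b (l 16418496) (l 2))))) (b (a (b (a (b (a (l 16353176) (l 16321584)) (l 16274944)) (b (a (l 16313928) (l 16311744)) (l 16275872))) (b (a (b (l 16239208) (l 16215272)) (l 16242472)) (a (l 16171120) (l 16203904)))) (b (a (b (l 16328872) (l 16307264)) (b (l 16416112) (l 16429168))) (b (a (l 16286560) (l 2)) (l 2)))) (b (a (a (l 16244992) (l 2)) (l 2)) (l 2)))), by decide +kernel⟩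

theorem c_pm_022_b : CertB 0 536870912 1239849684 370763052 536870912 50465866 3 eng mog cd0q0 cd1q2b pd2 false true false .pp 0 2 2
    ndB0q0 ndB1q2b pcB2 cut_pm_022_b Ext.none :=
  certB1 (fam := false) (s1 := true) (s2 := false) (a := 0) (b := 2) (c := 2) (cn := .pp) (n1 := ndB0q0) (n2 := ndB1q2b) (pc := pcB2) (cut := cut_pm_022_b) (xt := Ext.none) (P1 := 0) (W1 := 536870912) (P2 := 1239849684) (W2 := 370763052) (P3 := 536870912) (W3 := 50465866) (N0 := 3) (En := eng) (mo := mog) (C1 := cd0q0) (C2 := cd1q2b) (C3 := pd2)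
    rfl (fun _ => rfl) k0_pm_022_b

noncomputable def f_pm_023 : ℕ → ℕ → ℕ → ℕ → Bool := onCell 0 536870912 1073741824 536870912 536870912 50465866
    (rowB 3 eng mog cd0q0 cd1q3 pd2 1 false true false .up 0 2 3 (qsf 0 536870912 1610612736 536870912 2) ndB0q0 ndB1q3 pcB2 Cut.none Ext.none)

def k0_pm_023 : ∃ t, chk3 f_pm_023 t 1 1 1 = true :=
  ⟨(a (b (a (l 1) (b (l 1) (b (l 1) (l 270078513927)))) (b (a (b (l 1) (l 271689064391)) (b (l 228739407639) (l 246456104167))) (a (b (l 249140757079) (l 16073968)) (b (l 16235680) (l 16419560))))) (b (a (b (a (l 1) (l 198138414311)) (b (a (l 184179590919) (l 16233456)) (a (l 16162024) (l 16189440)))) (b (a (l 145524995671) (b (l 16404808) (l 16416144))) (b (a (l 16271896) (l 16499032)) (a (l 16411808) (l 16574584))))) (b (a (a (l 16244384) (l 16438248)) (a (l 16569360) (l 16660136))) (b (a (l 16547480) (l 16691424)) (a (l 16627520) (l 16718880)))))), by decide +kernel⟩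

theorem c_pm_023 : CertB 0 536870912 1610612736 536870912 536870912 50465866 3 eng mog cd0q0 cd1q3 pd2 false true false .up 0 2 3
    ndB0q0 ndB1q3 pcB2 Cut.none Ext.none :=
  certB1 (fam := false) (s1 := true) (s2 := false) (a := 0) (b := 2) (c := 3) (cn := .up) (n1 := ndB0q0) (n2 := ndB1q3) (pc := pcB2) (cut := Cut.none) (xt := Ext.none) (P1 := 0) (W1 := 536870912) (P2 := 1610612736) (W2 := 536870912) (P3 := 536870912) (W3 := 50465866) (N0 := 3) (En := eng) (mo := mog) (C1 := cd0q0) (C2 := cd1q3) (C3 := pd2)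
    rfl (fun _ => rfl) k0_pm_023

noncomputable def f_pm_033 : ℕ → ℕ → ℕ → ℕ → Bool := onCell 1610612736 536870912 1610612736 536870912 536870912 50465866
    (rowB 3 eng mog cd0q0 cd1q3 pd3 2 false true false .pnn 0 3 3 (qsf 0 536870912 1610612736 536870912 3) ndB0q0 ndB1q3 pcB3 Cut.none Ext.none)

def k0_pm_033 : ∃ t, chk3 f_pm_033 t 1 1 1 = true :=
  ⟨(a (a (b (b (a (b (l 16148312) (l 16310800)) (a (l 377989828983) (l 422550521015))) (a (b (l 16442168) (l 16546784)) (a (l 16506832) (l 16528632)))) (b (a (b (l 16625528) (l 16681056)) (b (l 16623672) (l 16674256))) (a (l 16728672) (b (l 16709160) (l 16729200))))) (a (b (l 4) (b (b (l 4) (l 16680264)) (b (l 16707384) (l 16726488)))) (l 4))) (l 4)), by decide +kernel⟩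

theorem c_pm_033 : CertB 0 536870912 1610612736 536870912 536870912 50465866 3 eng mog cd0q0 cd1q3 pd3 false true false .pnn 0 3 3
    ndB0q0 ndB1q3 pcB3 Cut.none Ext.none :=
  certB2 (fam := false) (s1 := true) (s2 := false) (a := 0) (b := 3) (c := 3) (cn := .pnn) (n1 := ndB0q0) (n2 := ndB1q3) (pc := pcB3) (cut := Cut.none) (xt := Ext.none) (P1 := 0) (W1 := 536870912) (P2 := 1610612736) (W2 := 536870912) (P3 := 536870912) (W3 := 50465866) (N0 := 3) (En := eng) (mo := mog) (C1 := cd0q0) (C2 := cd1q3) (C3 := pd3)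
    rfl (fun _ => rfl) k0_pm_033

noncomputable def f_pm_101 : ℕ → ℕ → ℕ → ℕ → Bool := onCell 536870912 536870912 536870912 536870912 536870912 50465866
    (rowB 3 eng mog cd0q1 cd1q1 pd0 0 false true false .npn 1 0 1 (qsf 536870912 536870912 536870912 536870912 0) ndB0q1 ndB1q1 pcB0 Cut.none Ext.none)

def k0_pm_101 : ∃ t, chk3 f_pm_101 t 2 2 1 = true :=
  ⟨(a (b (l 4) (a (b (l 4) (a (l 4) (b (l 4) (a (l 4) (l 16728152))))) (b (a (l 4) (b (l 4) (l 16771744))) (a (b (a (l 4) (l 16741880)) (a (l 16729448) (l 16731576))) (b (b (l 16744312) (l 16740656)) (l 16735800)))))) (b (a (a (l 4) (l 1)) (l 1)) (a (b (a (b (a (l 16755768) (l 16755544)) (a (l 16749488) (l 16748968))) (b (a (l 16757176) (l 1)) (l 16771344))) (b (a (l 16744752) (l 16830872)) (a (l 16741568) (l 16746496)))) (b (a (b (l 1) (l 16757432)) (l 1)) (a (b (l 16772192) (l 16750960)) (b (l 16761024) (l 16757936))))))), by decide +kernel⟩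

def k1_pm_101 : ∃ t, chk3 f_pm_101 t 4 3 1 = true :=
  ⟨(b (a (b (b (a (a (l 4) (l 16704760)) (a (l 16707248) (l 16711024))) (a (a (b (l 16680120) (a (l 16661888) (l 16665616))) (l 16678224)) (l 16689384))) (a (b (a (b (l 16648240) (l 16630856)) (b (l 16659360) (l 16645032))) (a (b (l 16611136) (l 16588840)) (l 16617760))) (b (a (b (l 16670056) (l 16659336)) (l 16675400)) (a (b (l 16645848) (l 16628112)) (b (l 16662624) (l 16649960)))))) (b (a (b (l 16718280) (l 16704632)) (b (l 16728504) (l 16719152))) (a (b (l 16689968) (a (l 16671560) (l 16683608))) (b (l 16708304) (l 16698696))))) (a (b (a (a (b (b (l 16563880) (l 16536384)) (b (l 16506584) (c (l 16511120) (l 16443312)))) (b (b (l 16584800) (l 16559472)) (b (l 16531696) (l 16543696)))) (a (b (b (l 16607672) (l 16584584)) (b (l 16560208) (l 16529656))) (b (l 16621744) (b (l 16587992) (l 16561704))))) (b (a (b (a (c (l 16480600) (l 16407040)) (l 16472648)) (a (a (l 16419784) (l 16438808)) (c (l 16480536) (l 16403872)))) (b (l 16519112) (a (l 16474888) (l 16508184))))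 (a (b (a (l 16359808) (c (a (l 16437368) (l 16458208)) (l 16365528))) (a (l 16369872) (a (l 16347272) (l 16374864)))) (b (a (a (l 16436592) (l 16454440)) (a (l 16472232) (l 16489856))) (a (a (b (l 16410992) (l 16389648)) (b (l 16432072) (l 16414536))) (b (l 16460440) (c (l 16487144) (l 16404800)))))))) (b (b (a (a (b (l 16657088) (l 16638488)) (b (l 16677928) (l 16668288))) (b (l 16697448) (a (l 16688496) (l 16699400)))) (a (a (b (l 16615232) (l 16592592)) (l 16633600)) (b (l 16707232) (l 16670400)))) (b (a (a (l 16555408) (l 16589096)) (a (l 16622720) (l 16655952))) (a (b (b (l 16541168) (l 16528816)) (a (b (l 16497704) (l 16485400)) (l 16529624))) (b (l 16607408) (l 16586464))))))), by decide +kernel⟩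

def k2_pm_101 : ∃ t, chk3 f_pm_101 t 5 3 1 = true :=
  ⟨(b (b (a (a (b (l 16737720) (l 16732472)) (b (l 16745152) (l 16742880))) (a (b (l 16751872) (l 16751536)) (b (l 16758808) (l 16760496)))) (a (a (b (l 16725056) (l 16717336)) (b (l 16739136) (b (l 16735048) (l 16732416)))) (b (a (l 16750424) (b (l 16760960) (l 16804000))) (a (b (a (l 16747032) (l 16752816)) (l 16829824)) (b (l 16885480) (l 16760352)))))) (b (a (b (a (a (l 16707776) (l 16715568)) (l 16769768)) (a (a (l 16710056) (l 16720704)) (l 16730104))) (b (a (l 16743632) (b (l 16759336) (l 16758160))) (a (l 16742784) (l 16757184)))) (a (b (a (a (l 16688280) (b (l 16722176) (l 16709968))) (b (l 16736560) (a (l 16734504) (l 16746336)))) (a (a (l 16651088) (l 16684472)) (a (l 16715160) (b (l 16747184) (l 16737312))))) (b (a (l 16749456) (l 16761008)) (b (a (l 16761168) (l 16769736)) (a (a (b (l 16763464) (l 16760720)) (l 16796368)) (l 16840888))))))), by decide +kernel⟩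

def k3_pm_101 : ∃ t, chk3 f_pm_101 t 3 1 1 = true :=
  ⟨(b (a (b (l 1) (a (b (l 1) (b (l 1) (a (l 16770000) (l 1)))) (l 1))) (l 1)) (a (b (b (a (a (b (l 16768296) (l 16769848)) (b (l 16781552) (l 16780704))) (b (l 1) (a (b (l 1) (l 55868337895)) (l 1)))) (a (b (a (b (l 16772648) (l 16771640)) (b (l 16781592) (l 16782960))) (a (l 16772968) (l 16784512))) (a (b (b (l 16790568) (l 16791088)) (l 16792632)) (b (l 97207368967) (l 16798344))))) (b (a (a (b (a (l 16769488) (l 16776424)) (b (l 16772400) (l 16772488))) (b (l 16785952) (a (l 16782768) (l 16788920)))) (a (b (l 16795128) (l 16796128)) (b (l 16799456) (l 16800888)))) (b (a (a (l 16774672) (a (l 16784032) (l 16789064))) (a (b (l 16795640) (l 16795120)) (l 16800184))) (a (a (b (l 16780832) (l 16783904)) (b (l 16792208) (l 16791208))) (a (b (b (l 16795056) (l 16878728)) (l 16794304)) (b (b (l 16799064) (l 16795768)) (l 16792800))))))) (b (a (b (l 1) (a (b (l 1) (l 103112977831)) (l 1))) (l 1)) (b (a (a (b (l 16801672) (l 16801480)) (b (l 102039353047) (l 16807272)))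 (b (l 1) (a (b (l 1) (l 16803776)) (l 1)))) (a (b (a (l 16800568) (b (l 16799248) (b (l 16798360) (l 16797792)))) (a (b (b (l 16797720) (l 16795640)) (l 16791176)) (b (l 16793272) (l 16787864)))) (b (a (b (l 16799008) (b (l 16795640) (l 16792720))) (b (l 1) (b (l 1) (l 16783512)))) (a (b (l 16788088) (l 16781864)) (b (l 16778064) (l 16770320))))))))), by decide +kernel⟩

theorem s4_pm_101 : ∃ t, chk3 f_pm_101 t 2 3 1 = true := ex3_a k1_pm_101 k2_pm_101

theorem s5_pm_101 : ∃ t, chk3 f_pm_101 t 2 1 1 = true := ex3_b k0_pm_101 s4_pm_101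

theorem s6_pm_101 : ∃ t, chk3 f_pm_101 t 1 1 1 = true := ex3_a s5_pm_101 k3_pm_101

theorem c_pm_101 : CertB 536870912 536870912 536870912 536870912 536870912 50465866 3 eng mog cd0q1 cd1q1 pd0 false true false .npn 1 0 1
    ndB0q1 ndB1q1 pcB0 Cut.none Ext.none :=
  certB0 (fam := false) (s1 := true) (s2 := false) (a := 1) (b := 0) (c := 1) (cn := .npn) (n1 := ndB0q1) (n2 := ndB1q1) (pc := pcB0) (cut := Cut.none) (xt := Ext.none) (P1 := 536870912) (W1 := 536870912) (P2 := 536870912) (W2 := 536870912) (P3 := 536870912) (W3 := 50465866) (N0 := 3) (En := eng) (mo := mog) (C1 := cd0q1) (C2 := cd1q1) (C3 := pd0)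
    rfl s6_pm_101

end Pool.Agent.Strip051.G.I5000_5470.Tab.C.BB01

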