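import Pool.Agent.Strip051.G.I5000_5470.Tab
import Pool.Agent.Strip051.PB.ExtD2

/-! # Certificates B17 (generated) -/

set_option linter.all false
set_option maxRecDepth 100000

namespace Pool.Agent.Strip051.G.I5000_5470.Tab.C.BB01

open Pool.Agent.Strip051.PB Pool.Agent.Strip051.PB.T
open Pool.Agent.Strip051.G.I5000_5470.Tab

noncomputable def cut_pm_102_b : Cut := Cut.of [[⟨0, 1, 0, 67108864⟩, ⟨1, 0, 0, 67108864⟩, ⟨2, 1, 0, 67108864⟩], [⟨0, 0, 1, 20971520⟩, ⟨1, 1, 2, 20971520⟩, ⟨2, 1, 0, 33554432⟩]]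

noncomputable def f_pm_102_b : ℕ → ℕ → ℕ → ℕ → Bool := onCell 0 536870912 1239849684 370763052 536870912 50465866
    (rowB 3 eng mog cd0q1 cd1q2b pd0 2 false true false .npp 1 0 2 (qsf 536870912 536870912 1239849684 370763052 0) ndB0q1 ndB1q2b pcB0 cut_pm_102_b Ext.none)

def k0_pm_102_b : ∃ t, chk3 f_pm_102_b t 1 1 1 = true :=
  ⟨(a (l 3) (b (a (l 3) (a (l 3) (l 3))) (a (l 3) (l 3)))), by decide +kernel⟩

theorem c_pm_102_b : CertB 536870912 536870912 1239849684 370763052 536870912 50465866 3 eng mog cd0q1 cd1q2b pd0 false true false .npp 1 0 2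
    ndB0q1 ndB1q2b pcB0 cut_pm_102_b Ext.none :=
  certB2 (fam := false) (s1 := true) (s2 := false) (a := 1) (b := 0) (c := 2) (cn := .npp) (n1 := ndB0q1) (n2 := ndB1q2b) (pc := pcB0) (cut := cut_pm_102_b) (xt := Ext.none) (P1 := 536870912) (W1 := 536870912) (P2 := 1239849684) (W2 := 370763052) (P3 := 536870912) (W3 := 50465866) (N0 := 3) (En := eng) (mo := mog) (C1 := cd0q1) (C2 := cd1q2b) (C3 := pd0)
    rfl (fun _ => rfl) k0_pm_102_b

noncomputable def cut_pm_112_a : Cut := Cut.of [[⟨0, 0, 1, 20971520⟩, ⟨1, 1, 2, 20971520⟩, ⟨2, 1, 0, 33554432⟩]]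

noncomputable def xt_pm_112_a : Ext := extD2 3 ⟨7, 3, 3, 10, 1741, 1000, 23, 25, 19, 50, 3, 16⟩ eng cd0q1 cd1q2a pd1 false true false .dn 1 1 2 rfl ndB0q1 ndB1q2a pcB1

noncomputable def f_pm_112_a : ℕ → ℕ → ℕ → ℕ → Bool := onCell 536870912 536870912 0 536870912 536870912 50465866
    (rowB 3 eng mog cd0q1 cd1q2a pd1 2 false true false .dn 1 1 2 (qsf 536870912 536870912 0 536870912 1) ndB0q1 ndB1q2a pcB1 cut_pm_112_a xt_pm_112_a)

def k0_pm_112_a : ∃ t, chk3 f_pm_112_a t 64 32 1 = true :=
  ⟨(b (l 3) (a (l 3) (b (l 3) (a (b (l 3) (a (c (l 130627401655) (l 130090530791)) (b (a (l 3) (b (l 3) (l 76403440855))) (a (b (l 78014052935) (c (l 54928604103) (l 52781120535))) (c (l 52244249623) (l 50096766007)))))) (a (b (b (l 3) (a (l 3) (b (l 3) (l 56539217207)))) (b (a (b (l 57076088199) (a (l 53317991015) (l 16776768))) (c (l 50633636935) (l 49023024023))) (l 16776944))) (b (b (a (l 3) (b (l 3) (c (l 56002345991) (l 53317991447)))) (a (b (c (l 56539216823) (l 53854862215)) (l 50633636391)) (c (l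 16777080) (l 16776680)))) (l 16776976))))))), by decide +kernel⟩

def k1_pm_112_a : ∃ t, chk3 f_pm_112_a t 65 64 1 = true :=
  ⟨(a (l 3) (b (a (l 3) (a (l 3) (a (l 3) (b (l 3) (b (l 3) (b (l 86067117255) (c (l 54391733847) (l 51707379079)))))))) (b (b (a (l 3) (a (a (l 3) (b (l 3) (c (l 55465475479) (l 52781120951)))) (a (b (c (l 54928604631) (l 52244250087)) (l 50096766039)) (l 16777032)))) (a (b (l 3) (a (l 3) (a (l 3) (c (l 56539217191) (l 53317991575))))) (a (a (a (b (l 56002346679) (l 52244249559)) (b (l 53317991623) (l 16776976))) (c (l 50096766503) (l 48486153143))) (l 16777016)))) (b (a (a (a (l 3) (a (l 3) (l 85530246167))) (a (b (c (l 76403441351) (l 73182215207)) (c (l 53317991927) (l 51170507975))) (c (l 51170508343) (a (l 50096765895) (l 16776816))))) (c (l 16777176) (l 16776760))) (a (b (a (a (l 79087795223) (c (l 53854862791) (l 51707379031))) (l 16777016)) (a (a (c (l 54391733639) (l 52244250055)) (l 16776976)) (l 16777016))) (l 16776744)))))), by decide +kernel⟩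

def k2_pm_112_a : ∃ t, chk3 f_pm_112_a t 65 65 1 = true :=
  ⟨(b (a (a (b (l 3) (a (b (l 3) (a (l 127406176839) (b (l 79087795015) (c (l 54928604311) (l 52781120759))))) (a (a (b (l 3) (b (l 53854862263) (l 16776872))) (b (l 86067116887) (l 49559894599))) (b (a (a (l 56539217447) (l 54928604391)) (b (l 55465475367) (l 16776864))) (l 16776960))))) (b (a (b (l 3) (a (b (l 3) (l 56002346503)) (a (b (l 56539217479) (l 51707378407)) (b (l 53854862359) (l 16776912))))) (a (a (b (l 86067116983) (l 49559894759)) (b (b (l 3) (l 53317991351)) (l 16776976))) (b (b (c (l 54928604487) (l 52781120903)) (l 49559894887)) (l 16777008)))) (a (a (b (c (l 51170508087) (l 49023023927)) (l 16777000)) (l 16777000)) (l 16776920)))) (a (a (b (c (l 16777224) (l 16776792)) (l 16776608)) (l 16776520)) (l 16775640))) (a (a (b (a (b (a (b (a (l 56002346183) (l 52781120151)) (l 16776856)) (l 16776928)) (l 16776984)) (l 16776968)) (l 16776704)) (l 16776160)) (l 16773856))), by decide +kernel⟩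

def k3_pm_112_a : ∃ t, chk3 f_pm_112_a t 32 33 1 = true :=
  ⟨(a (b (b (a (a (b (l 3) (b (l 3) (a (l 3) (a (l 127406178887) (b (l 78014052647) (c (l 54391732775) (l 52244249271))))))) (b (a (l 3) (b (l 3) (a (b (l 3) (l 57076087943)) (b (a (l 58149829735) (l 54391732839)) (l 50096765191))))) (a (a (b (b (l 3) (l 76403440583)) (c (l 51707378423) (l 49559894791))) (b (b (l 57612958839) (a (l 53317990807) (l 16776664))) (l 16776816))) (c (c (l 46338669687) (l 45801798471)) (c (l 45264927159) (l 44191185431)))))) (a (b (b (b (a (a (l 3) (c (l 55465474935) (l 53317991367))) (l 16776864)) (a (a (c (l 56002345751) (l 53854862119)) (l 16776760)) (l 16776936))) (a (c (l 47412411335) (l 45801798039)) (l 16776968))) (l 16776888)) (l 16776544))) (a (a (a (b (b (a (l 3) (b (l 128479918183) (c (l 56002345399) (l 53854861831)))) (a (b (a (l 58686700359) (l 53854861767)) (l 49023022967)) (l 16776032))) (l 16776904)) (b (a (b (a (a (l 53854861815) (l 51707377879)) (l 49559894055)) (l 16776832)) (l 16776856))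 (l 16776912))) (c (l 16777120) (l 16776472))) (c (l 16775704) (l 16774960)))) (a (a (a (l 16775840) (l 16775200)) (l 16774016)) (l 16770984))) (a (b (c (l 16778824) (l 16778128)) (l 16768232)) (l 16778520))), by decide +kernel⟩

def k4_pm_112_a : ∃ t, chk3 f_pm_112_a t 33 16 1 = true :=
  ⟨(b (a (a (b (b (a (a (b (l 3) (a (b (b (l 3) (l 75866571303)) (a (b (l 53317991687) (l 16777008)) (l 50096766007))) (b (b (c (l 74792828183) (l 72645344279)) (c (l 53317992119) (l 51170507959))) (l 16777040)))) (a (a (b (l 3) (b (a (l 51170507879) (l 50633636919)) (l 16777032))) (b (b (l 3) (b (l 3) (l 53854862807))) (l 46875540503))) (b (b (l 3) (b (c (l 55465475591) (l 52781120983)) (c (l 52244250279) (l 50096766103)))) (l 16777000)))) (a (b (a (b (b (l 3) (c (l 54928604759) (l 52244250199))) (c (l 50096766647) (l 48486153335))) (b (b (c (l 54391733895) (l 51707379175)) (l 50633637047)) (l 16777040))) (l 16776808)) (a (a (b (l 46875540599) (l 16776544)) (l 16776792)) (l 16776640)))) (a (a (a (l 16776736)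 (l 16776520)) (l 16776104)) (l 16774992))) (l 16776480)) (b (a (c (l 16777456) (l 16777680)) (l 16777832)) (l 16769280))) (a (b (l 16776040) (l 16767392)) (l 16767136))) (a (a (l 16766224) (l 16764408)) (l 16761512))), by decide +kernel⟩

def k5_pm_112_a : ∃ t, chk3 f_pm_112_a t 16 17 1 = true :=
  ⟨(a (a (b (a (l 16777464) (l 16765200)) (l 16759864)) (b (l 16762656) (l 16756696))) (a (b (l 16759152) (l 16753168)) (b (l 16755168) (l 16730224)))), by decide +kernel⟩

def k6_pm_112_a : ∃ t, chk3 f_pm_112_a t 17 8 1 = true :=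
  ⟨(b (a (a (b (l 16764032) (l 16757152)) (l 16755752)) (a (l 16750072) (b (l 16747608) (l 16738744)))) (a (b (a (l 16750488) (l 16744576)) (a (l 16743976) (l 16737744))) (b (a (l 16738536) (l 16730696)) (l 16725912)))), by decide +kernel⟩

def k7_pm_112_a : ∃ t, chk3 f_pm_112_a t 8 9 1 = true :=
  ⟨(a (b (a (b (a (l 16753840) (b (l 16752248) (l 16759784))) (a (b (a (l 16750008) (l 16748976)) (l 16747088)) (l 16745440))) (b (a (b (l 16748560) (l 16745824)) (l 16742656)) (l 16738736))) (a (b (a (l 16743560) (l 16740168)) (l 16737688)) (l 16709072))) (a (b (l 16729616) (l 16715256)) (l 16704176))), by decide +kernel⟩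

def k8_pm_112_a : ∃ t, chk3 f_pm_112_a t 9 4 1 = true :=
  ⟨(b (a (b (a (b (l 16735256) (a (l 16731080) (l 16721456))) (b (l 16716216) (l 16704200))) (a (l 16711208) (l 16686928))) (a (b (l 16689080) (l 16661272)) (l 16710160))) (a (a (l 16680440) (l 16650864)) (b (l 16651568) (l 16621040)))), by decide +kernel⟩

def k9_pm_112_a : ∃ t, chk3 f_pm_112_a t 4 5 1 = true :=
  ⟨(a (b (a (a (b (a (l 16734048) (l 16729232)) (l 16745872)) (b (l 16719576) (l 16709992))) (a (b (l 16702088) (l 16689680)) (l 16671432))) (a (b (a (l 16761000) (l 16700584)) (a (l 16694808) (l 16693688))) (b (b (l 16666592) (l 16660800)) (l 16649664)))) (a (b (b (l 16633480) (a (l 16629752) (l 16590752))) (a (l 16600128) (l 16551376))) (b (b (a (l 16572728) (l 16563312)) (b (l 16580512) (l 16526728))) (b (l 16550112) (l 16524400))))), by decide +kernel⟩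

def k10_pm_112_a : ∃ t, chk3 f_pm_112_a t 4 6 1 = true :=
  ⟨(a (a (b (b (l 16699584) (l 16695528)) (b (l 16693832) (l 16695352))) (b (l 16649408) (b (l 16613936) (l 16616640)))) (a (b (a (l 16559536) (l 16518408)) (b (l 16534928) (l 16536648))) (b (a (l 16475488) (l 16488056)) (a (l 16517864) (l 1))))), by decide +kernel⟩

def k11_pm_112_a : ∃ t, chk3 f_pm_112_a t 8 14 1 = true :=
  ⟨(a (b (a (l 16721952) (l 16682408)) (a (b (b (l 16727912) (l 16717864)) (b (l 16703448) (a (l 16699616) (l 16678896)))) (b (b (l 16684664) (l 16672536)) (a (b (l 16671032) (l 16658664)) (l 16644168))))) (b (b (l 16620504) (a (l 16642848) (l 16601760))) (a (b (l 16634208) (b (l 16619168) (l 16609888))) (b (l 16592152) (l 154651979095))))), by decide +kernel⟩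

def k12_pm_112_a : ∃ t, chk3 f_pm_112_a t 8 15 1 = true :=
  ⟨(b (a (b (a (a (b (c (l 16708896) (l 142737602851995695)) (c (l 142498665293496367) (l 142347001318408239))) (c (b (l 16686120) (l 142253611596611631)) (b (l 142567315951796271) (l 141902042672119855)))) (a (b (c (l 16665720) (l 142404107158700079)) (c (l 142181456107569199) (l 141819922864390191))) (b (c (l 16645608) (l 16610408)) (c (l 141786731394924591) (l 141742407261683759))))) (a (b (a (c (l 142076452796481583) (l 141943411804553263)) (l 142058654374903855)) (a (c (l 142063808383664175) (l 141899912349745199)) (c (l 141915924036354095) (l 141825008091414575)))) (b (a (a (l 141841019767603247) (l 141803155319652399)) (l 141749622822551599)) (a (c (l 141840401299587119) (l 141754227003031599)) (l 141733405007822895))))) (b (a (a (b (l 142241791718113327) (l 141779653218992175)) (l 1)) (l 1)) (l 1))) (a (a (b (a (b (c (l 141974747914502191) (l 141858337041530927)) (c (b (l 141959835768455215) (l 141951039662833711)) (b (l 141828718929231919)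 (l 141810027220123695)))) (b (c (l 141899362618621999) (l 141788861624795183)) (c (b (l 141888367485354031) (l 141882182721617967)) (b (l 141763435402805295) (l 141747561193734191))))) (b (b (a (c (a (l 141960522944626735) (l 141925888316047407)) (l 141882320098557999)) (c (a (l 141892834235858991) (l 1)) (l 141912762806190127))) (a (c (a (l 141952895070453807) (l 141919497393340463)) (a (l 141790510871904303) (l 141760686609088559))) (l 1))) (a (a (c (c (l 6) (b (l 141994676481966127) (b (a (l 141906234509443119) (l 141890635183341615)) (a (a (b (l 141907196579102767) (a (c (l 6) (c (l 141906921694429231) (l 141872493227458607))) (b (l 141903829322055727) (l 1)))) (b (l 141899362556379183) (l 1))) (l 1))))) (b (c (l 141818479706652719) (l 141728732033122351)) (b (c (a (l 141815937080279087) (l 141801299827179567)) (l 141805285522554927)) (a (b (c (l 141811126712909871) (l 141715537884266543)) (a (c (c (c (l 141847135730860079) (l 141823564941213743)) (l 141787693360693295)) (l 141804667044102191))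 (l 1))) (l 1))))) (b (b (c (l 141915374216462383) (l 141749141729443887)) (l 1)) (l 1))) (l 1)))) (b (b (a (c (l 141919772274753583) (l 141724265292202031)) (l 1)) (l 1)) (l 1))) (l 1))), by decide +kernel⟩

def k13_pm_112_a : ∃ t, chk3 f_pm_112_a t 9 7 1 = true :=
  ⟨(a (a (b (b (l 242698845687) (l 1)) (l 1)) (l 1)) (l 1)), by decide +kernel⟩

def k14_pm_112_a : ∃ t, chk3 f_pm_112_a t 5 1 1 = true :=
  ⟨(b (a (b (a (b (a (l 16704168) (l 16697832)) (a (l 16648360) (b (l 16618168) (l 16590496)))) (b (l 1) (l 1))) (a (b (b (a (l 16608688) (b (l 16573520) (l 16562696))) (a (l 16544680) (l 16548320))) (b (a (l 16524624) (l 1)) (l 74658229127))) (l 1))) (l 1)) (b (l 1) (l 1))), by decide +kernel⟩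

def k15_pm_112_a : ∃ t, chk3 f_pm_112_a t 3 1 1 = true :=
  ⟨(l 1), by decide +kernel⟩

theorem s16_pm_112_a : ∃ t, chk3 f_pm_112_a t 8 7 1 = true := ex3_b k11_pm_112_a k12_pm_112_a

theorem s17_pm_112_a : ∃ t, chk3 f_pm_112_a t 4 7 1 = true := ex3_a s16_pm_112_a k13_pm_112_a

theorem s18_pm_112_a : ∃ t, chk3 f_pm_112_a t 4 3 1 = true := ex3_b k10_pm_112_a s17_pm_112_a

theorem s19_pm_112_a : ∃ t, chk3 f_pm_112_a t 65 32 1 = true := ex3_b k1_pm_112_a k2_pm_112_a

theorem s20_pm_112_a : ∃ t, chk3 f_pm_112_a t 32 32 1 = true := ex3_a k0_pm_112_a s19_pm_112_a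

theorem s21_pm_112_a : ∃ t, chk3 f_pm_112_a t 32 16 1 = true := ex3_b s20_pm_112_a k3_pm_112_a

theorem s22_pm_112_a : ∃ t, chk3 f_pm_112_a t 16 16 1 = true := ex3_a s21_pm_112_a k4_pm_112_a

theorem s23_pm_112_a : ∃ t, chk3 f_pm_112_a t 16 8 1 = true := ex3_b s22_pm_112_a k5_pm_112_a

theorem s24_pm_112_a : ∃ t, chk3 f_pm_112_a t 8 8 1 = true := ex3_a s23_pm_112_a k6_pm_112_a

theorem s25_pm_112_a : ∃ t, chk3 f_pm_112_a t 8 4 1 = true := ex3_b s24_pm_112_a k7_pm_112_a

theorem s26_pm_112_a : ∃ t, chk3 f_pm_112_a t 4 4 1 = true := ex3_a s25_pm_112_a k8_pm_112_a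

theorem s27_pm_112_a : ∃ t, chk3 f_pm_112_a t 4 2 1 = true := ex3_b s26_pm_112_a k9_pm_112_a

theorem s28_pm_112_a : ∃ t, chk3 f_pm_112_a t 4 1 1 = true := ex3_b s27_pm_112_a s18_pm_112_a

theorem s29_pm_112_a : ∃ t, chk3 f_pm_112_a t 2 1 1 = true := ex3_a s28_pm_112_a k14_pm_112_a

theorem s30_pm_112_a : ∃ t, chk3 f_pm_112_a t 1 1 1 = true := ex3_a s29_pm_112_a k15_pm_112_a

theorem c_pm_112_a : CertB 536870912 536870912 0 536870912 536870912 50465866 3 eng mog cd0q1 cd1q2a pd1 false true false .dn 1 1 2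
    ndB0q1 ndB1q2a pcB1 cut_pm_112_a xt_pm_112_a :=
  certB2 (fam := false) (s1 := true) (s2 := false) (a := 1) (b := 1) (c := 2) (cn := .dn) (n1 := ndB0q1) (n2 := ndB1q2a) (pc := pcB1) (cut := cut_pm_112_a) (xt := xt_pm_112_a) (P1 := 536870912) (W1 := 536870912) (P2 := 0) (W2 := 536870912) (P3 := 536870912) (W3 := 50465866) (N0 := 3) (En := eng) (mo := mog) (C1 := cd0q1) (C2 := cd1q2a) (C3 := pd1)
    rfl (fun _ => rfl) s30_pm_112_a

noncomputable def cut_pm_112_b : Cut := Cut.of [[⟨0, 0, 1, 20971520⟩, ⟨1, 1, 2, 20971520⟩, ⟨2, 1, 0, 33554432⟩]]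

noncomputable def f_pm_112_b : ℕ → ℕ → ℕ → ℕ → Bool := onCell 536870912 536870912 536870912 536870912 536870912 50465866
    (rowB 3 eng mog cd0q1 cd1q2b pd1 1 false true false .dn 1 1 2 (qsf 536870912 536870912 1239849684 370763052 1) ndB0q1 ndB1q2b pcB1 cut_pm_112_b Ext.none)

def k0_pm_112_b : ∃ t, chk3 f_pm_112_b t 4 4 1 = true :=
  ⟨(b (a (l 1) (b (a (l 1) (b (l 1) (a (l 1) (b (l 1) (a (l 1) (b (l 1) (l 192233326423))))))) (a (b (l 1) (a (l 1) (l 259879047847))) (b (a (b (l 1) (l 220687477287)) (b (a (l 204044475783) (b (l 63921197943) (l 16767760))) (a (l 16783184) (l 16770616)))) (a (b (l 75195495559) (l 16749568)) (l 16769408)))))) (a (b (a (l 1) (b (l 1) (a (l 1) (l 253973407127)))) (a (b (l 1) (a (l 1) (l 238940907159))) (b (a (l 249678382887) (l 153578572791)) (a (l 110091930855) (l 16717400))))) (b (a (a (b (l 259342162343) (l 120292590295)) (b (l 81101045527) (l 16743960))) (b (a (l 16757560) (l 16770072)) (l 16765592))) (a (b (a (l 16730464) (l 16747648)) (l 16741576)) (l 16765168))))),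 by decide +kernel⟩

def k1_pm_112_b : ∃ t, chk3 f_pm_112_b t 5 4 1 = true :=
  ⟨(b (a (b (a (b (a (a (l 1) (a (l 1) (l 3))) (l 3)) (a (b (b (a (l 1) (a (a (l 1) (b (l 1) (b (a (l 1) (b (l 206863072711) (a (l 60297313735) (l 3)))) (a (l 16777088) (a (b (l 51170508103) (l 16776984)) (a (b (l 69424119175) (l 16776896)) (l 80698408615))))))) (a (a (b (l 3) (b (l 3) (l 81772150807))) (l 3)) (l 3)))) (b (a (l 1) (a (a (a (l 41909486135) (a (l 16776744) (l 16776912))) (a (l 16776976) (l 16776864))) (a (a (b (l 36674994167) (l 16776608)) (l 82845893127)) (l 3)))) (a (a (l 1) (a (l 1) (l 60163097767))) (a (c (l 16777208) (l 16776464)) (a (l 16776440) (l 84456506263)))))) (b (a (a (b (l 1) (l 102575901143)) (a (l 67142419959) (l 16775928))) (a (l 16776656) (c (l 16776960) (l 16775304)))) (a (a (l 16771896) (l 16775680)) (l 16776328)))) (a (b (l 3) (a (b (l 87140861687) (l 16775096)) (l 86603982167))) (l 3)))) (l 3)) (a (a (b (b (a (a (l 16773952) (l 16775672)) (l 16776104)) (l 16775736)) (l 16775488))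 (b (b (a (l 47412411319) (l 88214592343)) (a (l 16775120) (l 56539224935))) (b (l 16775008) (l 16775784)))) (a (a (b (l 99488877575) (l 68350392903)) (b (l 3) (l 93046428087))) (l 3)))) (l 3)) (a (a (b (b (a (l 16775544) (l 16777176)) (l 16778096)) (l 16781160)) (b (b (a (b (l 16775032) (l 16777144)) (l 106468246951)) (a (l 16780640) (l 81235312439))) (b (l 16786904) (l 16794152)))) (a (b (b (l 3) (l 168208367575)) (b (l 93583378679) (l 83919659575))) (l 3)))), by decide +kernel⟩

def k2_pm_112_b : ∃ t, chk3 f_pm_112_b t 2 5 1 = true :=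
  ⟨(a (b (a (b (a (a (b (l 190085636775) (l 68215927511)) (b (l 92375137911) (l 16694120))) (b (l 16713272) (l 16714096))) (a (b (a (l 16683080) (l 16694784)) (l 16686776)) (b (l 16712376) (l 16709376)))) (b (a (l 16740600) (l 16764984)) (a (b (l 16737784) (l 16735664)) (l 16765264)))) (a (a (b (l 16680416) (l 16669496)) (l 16763328)) (a (b (l 16732936) (l 16730456)) (l 16769120)))) (b (a (b (a (l 16787248) (l 16806704)) (a (l 16795480) (l 16826696))) (b (a (b (l 16813032) (l 16828776)) (b (l 118279424375) (l 72645438743))) (a (l 16855488) (l 40433259543)))) (a (b (a (l 16806184) (l 16850184)) (a (l 16819920) (l 16876768))) (b (a (l 16895480) (l 16937352)) (a (l 16938968) (l 17000896)))))), by decide +kernel⟩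

def k3_pm_112_b : ∃ t, chk3 f_pm_112_b t 3 2 1 = true :=
  ⟨(b (l 3) (a (a (b (b (l 3) (a (l 120963904391) (l 3))) (b (a (b (l 16953320) (l 16993888)) (l 147270813031)) (a (l 17059664) (l 93516530119)))) (l 3)) (l 3))), by decide +kernel⟩

def k4_pm_112_b : ∃ t, chk3 f_pm_112_b t 1 3 1 = true :=
  ⟨(a (b (a (a (b (a (l 16650016) (l 16684128)) (a (l 16619640) (l 16665888))) (b (a (l 16727408) (l 16780784)) (a (l 16724600) (l 16796864)))) (b (a (a (l 16845416) (l 16924456)) (b (a (l 16987848) (l 17054608)) (l 17007208))) (a (a (l 16857208) (l 16911712)) (l 16893384)))) (a (a (b (a (l 16585344) (l 16646312)) (c (l 16624232) (l 16550608))) (b (a (l 16722616) (l 16791744)) (a (l 16717448) (l 2)))) (a (b (a (l 16847032) (l 2)) (l 2)) (l 2)))) (b (a (b (a (b (l 39292616839) (l 2)) (l 2)) (l 2)) (l 2)) (l 2))), by decide +kernel⟩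

theorem s5_pm_112_b : ∃ t, chk3 f_pm_112_b t 2 4 1 = true := ex3_a k0_pm_112_b k1_pm_112_b

theorem s6_pm_112_b : ∃ t, chk3 f_pm_112_b t 2 2 1 = true := ex3_b s5_pm_112_b k2_pm_112_b

theorem s7_pm_112_b : ∃ t, chk3 f_pm_112_b t 1 2 1 = true := ex3_a s6_pm_112_b k3_pm_112_b

theorem s8_pm_112_b : ∃ t, chk3 f_pm_112_b t 1 1 1 = true := ex3_b s7_pm_112_b k4_pm_112_b

theorem c_pm_112_b : CertB 536870912 536870912 1239849684 370763052 536870912 50465866 3 eng mog cd0q1 cd1q2b pd1 false true false .dn 1 1 2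
    ndB0q1 ndB1q2b pcB1 cut_pm_112_b Ext.none :=
  certB1 (fam := false) (s1 := true) (s2 := false) (a := 1) (b := 1) (c := 2) (cn := .dn) (n1 := ndB0q1) (n2 := ndB1q2b) (pc := pcB1) (cut := cut_pm_112_b) (xt := Ext.none) (P1 := 536870912) (W1 := 536870912) (P2 := 1239849684) (W2 := 370763052) (P3 := 536870912) (W3 := 50465866) (N0 := 3) (En := eng) (mo := mog) (C1 := cd0q1) (C2 := cd1q2b) (C3 := pd1)
    rfl (fun _ => rfl) s8_pm_112_b

noncomputable def cut_pm_113 : Cut := Cut.of [[⟨0, 1, 0, 67108864⟩, ⟨1, 1, 0, 67108864⟩, ⟨2, 2, 0, 16777216⟩]]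

noncomputable def f_pm_113 : ℕ → ℕ → ℕ → ℕ → Bool := onCell 536870912 536870912 536870912 536870912 536870912 50465866
    (rowB 3 eng mog cd0q1 cd1q3 pd1 1 false true false .nn 1 1 3 (qsf 536870912 536870912 1610612736 536870912 1) ndB0q1 ndB1q3 pcB1 cut_pm_113 Ext.none)

def k0_pm_113 : ∃ t, chk3 f_pm_113 t 1 1 1 = true :=
  ⟨(b (a (b (l 1) (a (l 1) (b (l 1) (a (l 1) (b (l 1) (l 141230943559)))))) (b (l 3) (a (a (a (b (l 1) (b (l 134788471479) (l 17060640))) (b (l 3) (b (l 167671930455) (l 82846359047)))) (l 3)) (l 3)))) (a (b (a (a (l 1) (b (l 1) (l 84322260439))) (b (a (l 79490551543) (b (l 16978104) (l 16996256))) (a (l 60163142231) (l 16924712)))) (a (a (b (l 66068473175) (c (l 16611424) (l 16538976))) (b (l 86469759911) (b (l 16742416) (l 16738024)))) (a (b (a (l 16835992) (l 16883696)) (c (l 16877536) (l 16883672))) (b (l 16999424) (l 16912104))))) (b (a (b (a (b (l 17011184) (l 17052712)) (a (b (l 177335615639) (l 17066384)) (b (l 3) (l 266456119207)))) (a (b (l 17018544) (l 16949192))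 (a (b (l 17044328) (l 17004880)) (b (l 16900728) (l 17019848))))) (a (b (l 3) (a (b (l 275582936391) (l 173577197719)) (l 3))) (l 3))) (a (b (a (b (l 16967856) (l 16947456)) (b (l 16976968) (l 16948264))) (a (l 16921176) (b (l 16923080) (l 16900584)))) (b (a (a (b (l 16985640) (l 16946576)) (b (l 289541529815) (l 89825718791))) (a (b (l 3) (a (l 341618010183) (l 3))) (l 3))) (a (a (b (l 16914496) (l 16885200)) (b (l 16899064) (l 16866368))) (a (b (b (l 297594598071) (l 16866032)) (l 16871160)) (b (b (l 3) (l 436107056823)) (b (a (a (l 16830080) (l 116132021351)) (l 472614234839)) (b (a (l 16813128) (a (l 68887332519) (l 494089041815))) (a (l 16804520) (a (l 16793032) (a (a (l 16788248) (l 6)) (l 6)))))))))))))), by decide +kernel⟩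

theorem c_pm_113 : CertB 536870912 536870912 1610612736 536870912 536870912 50465866 3 eng mog cd0q1 cd1q3 pd1 false true false .nn 1 1 3
    ndB0q1 ndB1q3 pcB1 cut_pm_113 Ext.none :=
  certB1 (fam := false) (s1 := true) (s2 := false) (a := 1) (b := 1) (c := 3) (cn := .nn) (n1 := ndB0q1) (n2 := ndB1q3) (pc := pcB1) (cut := cut_pm_113) (xt := Ext.none) (P1 := 536870912) (W1 := 536870912) (P2 := 1610612736) (W2 := 536870912) (P3 := 536870912) (W3 := 50465866) (N0 := 3) (En := eng) (mo := mog) (C1 := cd0q1) (C2 := cd1q3) (C3 := pd1)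
    rfl (fun _ => rfl) k0_pm_113

noncomputable def cut_pm_123 : Cut := Cut.of [[⟨0, 1, 0, 67108864⟩, ⟨1, 1, 0, 67108864⟩, ⟨2, 2, 0, 16777216⟩]]

noncomputable def f_pm_123 : ℕ → ℕ → ℕ → ℕ → Bool := onCell 536870912 536870912 1073741824 536870912 536870912 50465866
    (rowB 3 eng mog cd0q1 cd1q3 pd2 1 false true false .npn 1 2 3 (qsf 536870912 536870912 1610612736 536870912 2) ndB0q1 ndB1q3 pcB2 cut_pm_123 Ext.none)

def k0_pm_123 : ∃ t, chk3 f_pm_123 t 1 1 1 = true :=
  ⟨(a (b (a (b (a (b (l 16578368) (l 16613280)) (b (b (l 16732968) (l 16729880)) (l 16725864))) (b (a (l 16643376) (l 16722696)) (a (l 16675624) (l 16728496)))) (b (a (b (l 16823456) (l 16789664)) (b (l 16871688) (l 16817960))) (b (a (l 16763248) (l 16775744)) (a (l 16752184) (l 16756440))))) (a (b (a (l 16713792) (l 16739232)) (b (l 16744832) (l 16754136))) (b (a (l 16747384) (l 16740840)) (a (b (l 16748680) (l 2)) (l 2))))) (b (a (b (a (b (l 16871384) (l 16809680)) (b (l 16852656) (l 16788480))) (b (a (b (b (l 16778072) (l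 16767784)) (l 16757496)) (b (l 16755416) (l 16740152))) (a (l 16744440) (l 16674464)))) (b (b (b (a (l 16841496) (b (a (l 16812824) (a (l 16791136) (a (l 16780208) (b (l 6) (l 688369180967))))) (a (l 16795432) (l 590121834519)))) (a (l 16805552) (a (l 16769856) (l 678705571639)))) (a (a (l 16768280) (l 16742704)) (l 708770679287))) (a (b (b (b (l 16710120) (l 2)) (l 2)) (l 2)) (l 2)))) (a (b (a (b (l 16734664) (l 2)) (l 2)) (l 2)) (l 2)))), by decide +kernel⟩

theorem c_pm_123 : CertB 536870912 536870912 1610612736 536870912 536870912 50465866 3 eng mog cd0q1 cd1q3 pd2 false true false .npn 1 2 3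
    ndB0q1 ndB1q3 pcB2 cut_pm_123 Ext.none :=
  certB1 (fam := false) (s1 := true) (s2 := false) (a := 1) (b := 2) (c := 3) (cn := .npn) (n1 := ndB0q1) (n2 := ndB1q3) (pc := pcB2) (cut := cut_pm_123) (xt := Ext.none) (P1 := 536870912) (W1 := 536870912) (P2 := 1610612736) (W2 := 536870912) (P3 := 536870912) (W3 := 50465866) (N0 := 3) (En := eng) (mo := mog) (C1 := cd0q1) (C2 := cd1q3) (C3 := pd2)
    rfl (fun _ => rfl) k0_pm_123

noncomputable def f_pm_133 : ℕ → ℕ → ℕ → ℕ → Bool := onCell 1610612736 536870912 1610612736 536870912 536870912 50465866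
    (rowB 3 eng mog cd0q1 cd1q3 pd3 2 false true false .dn 1 3 3 (qsf 536870912 536870912 1610612736 536870912 3) ndB0q1 ndB1q3 pcB3 Cut.none Ext.none)

def k0_pm_133 : ∃ t, chk3 f_pm_133 t 1 1 1 = true :=
  ⟨(a (b (l 1) (a (b (l 1) (a (l 449931782967) (l 1))) (l 1))) (l 1)), by decide +kernel⟩

theorem c_pm_133 : CertB 536870912 536870912 1610612736 536870912 536870912 50465866 3 eng mog cd0q1 cd1q3 pd3 false true false .dn 1 3 3
    ndB0q1 ndB1q3 pcB3 Cut.none Ext.none :=
  certB2 (fam := false) (s1 := true) (s2 := false) (a := 1) (b := 3) (c := 3) (cn := .dn) (n1 := ndB0q1) (n2 := ndB1q3) (pc := pcB3) (cut := Cut.none) (xt := Ext.none) (P1 := 536870912) (W1 := 536870912) (P2 := 1610612736) (W2 := 536870912) (P3 := 536870912) (W3 := 50465866) (N0 := 3) (En := eng) (mo := mog) (C1 := cd0q1) (C2 := cd1q3) (C3 := pd3)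
    rfl (fun _ => rfl) k0_pm_133

noncomputable def cut_pm_202_a : Cut := Cut.of [[⟨0, 1, 0, 67108864⟩, ⟨1, 0, 0, 67108864⟩, ⟨2, 1, 0, 67108864⟩]]

noncomputable def f_pm_202_a : ℕ → ℕ → ℕ → ℕ → Bool := onCell 0 536870912 0 536870912 536870912 50465866
    (rowB 3 eng mog cd0q2 cd1q2a pd0 0 false true false .pp 2 0 2 (qsf 0 536870912 0 536870912 0) ndB0q2 ndB1q2a pcB0 cut_pm_202_a Ext.none)

def k0_pm_202_a : ∃ t, chk3 f_pm_202_a t 1 1 1 = true :=
  ⟨(a (l 3) (b (l 3) (a (l 3) (b (l 3) (b (l 3) (a (l 3) (l 6))))))), by decide +kernel⟩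

theorem c_pm_202_a : CertB 0 536870912 0 536870912 536870912 50465866 3 eng mog cd0q2 cd1q2a pd0 false true false .pp 2 0 2
    ndB0q2 ndB1q2a pcB0 cut_pm_202_a Ext.none :=
  certB0 (fam := false) (s1 := true) (s2 := false) (a := 2) (b := 0) (c := 2) (cn := .pp) (n1 := ndB0q2) (n2 := ndB1q2a) (pc := pcB0) (cut := cut_pm_202_a) (xt := Ext.none) (P1 := 0) (W1 := 536870912) (P2 := 0) (W2 := 536870912) (P3 := 536870912) (W3 := 50465866) (N0 := 3) (En := eng) (mo := mog) (C1 := cd0q2) (C2 := cd1q2a) (C3 := pd0)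
    rfl k0_pm_202_a

noncomputable def cut_pm_202_b : Cut := Cut.of [[⟨0, 1, 0, 67108864⟩, ⟨1, 0, 0, 67108864⟩, ⟨2, 1, 0, 67108864⟩]]

noncomputable def f_pm_202_b : ℕ → ℕ → ℕ → ℕ → Bool := onCell 0 536870912 1239849684 370763052 536870912 50465866
    (rowB 3 eng mog cd0q2 cd1q2b pd0 0 false true false .pp 2 0 2 (qsf 0 536870912 1239849684 370763052 0) ndB0q2 ndB1q2b pcB0 cut_pm_202_b Ext.none)

def k0_pm_202_b : ∃ t, chk3 f_pm_202_b t 1 1 1 = true :=
  ⟨(l 3), by decide +kernel⟩

theorem c_pm_202_b : CertB 0 536870912 1239849684 370763052 536870912 50465866 3 eng mog cd0q2 cd1q2b pd0 false true false .pp 2 0 2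
    ndB0q2 ndB1q2b pcB0 cut_pm_202_b Ext.none :=
  certB0 (fam := false) (s1 := true) (s2 := false) (a := 2) (b := 0) (c := 2) (cn := .pp) (n1 := ndB0q2) (n2 := ndB1q2b) (pc := pcB0) (cut := cut_pm_202_b) (xt := Ext.none) (P1 := 0) (W1 := 536870912) (P2 := 1239849684) (W2 := 370763052) (P3 := 536870912) (W3 := 50465866) (N0 := 3) (En := eng) (mo := mog) (C1 := cd0q2) (C2 := cd1q2b) (C3 := pd0)
    rfl k0_pm_202_b

noncomputable def f_pm_203 : ℕ → ℕ → ℕ → ℕ → Bool := onCell 0 536870912 0 536870912 536870912 50465866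
    (rowB 3 eng mog cd0q2 cd1q3 pd0 1 false true false .up 2 0 3 (qsf 0 536870912 1610612736 536870912 0) ndB0q2 ndB1q3 pcB0 Cut.none Ext.none)

def k0_pm_203 : ∃ t, chk3 f_pm_203 t 1 1 1 = true :=
  ⟨(l 3), by decide +kernel⟩

theorem c_pm_203 : CertB 0 536870912 1610612736 536870912 536870912 50465866 3 eng mog cd0q2 cd1q3 pd0 false true false .up 2 0 3
    ndB0q2 ndB1q3 pcB0 Cut.none Ext.none :=
  certB1 (fam := false) (s1 := true) (s2 := false) (a := 2) (b := 0) (c := 3) (cn := .up) (n1 := ndB0q2) (n2 := ndB1q3) (pc := pcB0) (cut := Cut.none) (xt := Ext.none) (P1 := 0) (W1 := 536870912) (P2 := 1610612736) (W2 := 536870912) (P3 := 536870912) (W3 := 50465866) (N0 := 3) (En := eng) (mo := mog) (C1 := cd0q2) (C2 := cd1q3) (C3 := pd0)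
    rfl (fun _ => rfl) k0_pm_203

noncomputable def cut_pm_213 : Cut := Cut.of [[⟨0, 1, 0, 67108864⟩, ⟨1, 1, 0, 67108864⟩, ⟨2, 2, 0, 16777216⟩]]

noncomputable def f_pm_213 : ℕ → ℕ → ℕ → ℕ → Bool := onCell 0 536870912 1610612736 536870912 536870912 50465866
    (rowB 3 eng mog cd0q2 cd1q3 pd1 0 false true false .pnn 2 1 3 (qsf 0 536870912 1610612736 536870912 1) ndB0q2 ndB1q3 pcB1 cut_pm_213 Ext.none)

def k0_pm_213 : ∃ t, chk3 f_pm_213 t 1 1 1 = true :=
  ⟨(b (l 3) (a (l 3) (b (l 3) (a (l 3) (b (l 3) (a (l 3) (a (l 3) (b (l 3) (b (l 3) (b (l 3) (l 6))))))))))), by decide +kernel⟩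

theorem c_pm_213 : CertB 0 536870912 1610612736 536870912 536870912 50465866 3 eng mog cd0q2 cd1q3 pd1 false true false .pnn 2 1 3
    ndB0q2 ndB1q3 pcB1 cut_pm_213 Ext.none :=
  certB0 (fam := false) (s1 := true) (s2 := false) (a := 2) (b := 1) (c := 3) (cn := .pnn) (n1 := ndB0q2) (n2 := ndB1q3) (pc := pcB1) (cut := cut_pm_213) (xt := Ext.none) (P1 := 0) (W1 := 536870912) (P2 := 1610612736) (W2 := 536870912) (P3 := 536870912) (W3 := 50465866) (N0 := 3) (En := eng) (mo := mog) (C1 := cd0q2) (C2 := cd1q3) (C3 := pd1)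
    rfl k0_pm_213

noncomputable def f_mm_001 : ℕ → ℕ → ℕ → ℕ → Bool := onCell 0 536870912 0 536870912 536870912 50465866
    (rowB 3 eng mog cd0q0 cd1q1 pd0 1 false false false .up 0 0 1 (qsf 0 536870912 536870912 536870912 0) ndB0q0 ndB1q1 pcB0 Cut.none Ext.none)

def k0_mm_001 : ∃ t, chk3 f_mm_001 t 1 1 1 = true :=
  ⟨(l 3), by decide +kernel⟩

theorem c_mm_001 : CertB 0 536870912 536870912 536870912 536870912 50465866 3 eng mog cd0q0 cd1q1 pd0 false false false .up 0 0 1
    ndB0q0 ndB1q1 pcB0 Cut.none Ext.none :=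
  certB1 (fam := false) (s1 := false) (s2 := false) (a := 0) (b := 0) (c := 1) (cn := .up) (n1 := ndB0q0) (n2 := ndB1q1) (pc := pcB0) (cut := Cut.none) (xt := Ext.none) (P1 := 0) (W1 := 536870912) (P2 := 536870912) (W2 := 536870912) (P3 := 536870912) (W3 := 50465866) (N0 := 3) (En := eng) (mo := mog) (C1 := cd0q0) (C2 := cd1q1) (C3 := pd0)
    rfl (fun _ => rfl) k0_mm_001

noncomputable def f_mm_011 : ℕ → ℕ → ℕ → ℕ → Bool := onCell 0 536870912 536870912 536870912 536870912 50465866
    (rowB 3 eng mog cd0q0 cd1q1 pd1 1 false false false .pnn 0 1 1 (qsf 0 536870912 536870912 536870912 1) ndB0q0 ndB1q1 pcB1 Cut.none Ext.none)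

def k0_mm_011 : ∃ t, chk3 f_mm_011 t 1 1 1 = true :=
  ⟨(l 5), by decide +kernel⟩

theorem c_mm_011 : CertB 0 536870912 536870912 536870912 536870912 50465866 3 eng mog cd0q0 cd1q1 pd1 false false false .pnn 0 1 1
    ndB0q0 ndB1q1 pcB1 Cut.none Ext.none :=
  certB1 (fam := false) (s1 := false) (s2 := false) (a := 0) (b := 1) (c := 1) (cn := .pnn) (n1 := ndB0q0) (n2 := ndB1q1) (pc := pcB1) (cut := Cut.none) (xt := Ext.none) (P1 := 0) (W1 := 536870912) (P2 := 536870912) (W2 := 536870912) (P3 := 536870912) (W3 := 50465866) (N0 := 3) (En := eng) (mo := mog) (C1 := cd0q0) (C2 := cd1q1) (C3 := pd1)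
    rfl (fun _ => rfl) k0_mm_011

noncomputable def f_mm_012_a : ℕ → ℕ → ℕ → ℕ → Bool := onCell 0 536870912 0 536870912 536870912 50465866
    (rowB 3 eng mog cd0q0 cd1q2a pd1 0 false false false .pnp 0 1 2 (qsf 0 536870912 0 536870912 1) ndB0q0 ndB1q2a pcB1 Cut.none Ext.none)

def k0_mm_012_a : ∃ t, chk3 f_mm_012_a t 1 1 1 = true :=
  ⟨(l 5), by decide +kernel⟩

theorem c_mm_012_a : CertB 0 536870912 0 536870912 536870912 50465866 3 eng mog cd0q0 cd1q2a pd1 false false false .pnp 0 1 2
    ndB0q0 ndB1q2a pcB1 Cut.none Ext.none :=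
  certB0 (fam := false) (s1 := false) (s2 := false) (a := 0) (b := 1) (c := 2) (cn := .pnp) (n1 := ndB0q0) (n2 := ndB1q2a) (pc := pcB1) (cut := Cut.none) (xt := Ext.none) (P1 := 0) (W1 := 536870912) (P2 := 0) (W2 := 536870912) (P3 := 536870912) (W3 := 50465866) (N0 := 3) (En := eng) (mo := mog) (C1 := cd0q0) (C2 := cd1q2a) (C3 := pd1)
    rfl k0_mm_012_a

noncomputable def f_mm_012_b : ℕ → ℕ → ℕ → ℕ → Bool := onCell 0 536870912 1239849684 370763052 536870912 50465866
    (rowB 3 eng mog cd0q0 cd1q2b pd1 0 false false false .pnp 0 1 2 (qsf 0 536870912 1239849684 370763052 1) ndB0q0 ndB1q2b pcB1 Cut.none Ext.none)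

def k0_mm_012_b : ∃ t, chk3 f_mm_012_b t 1 1 1 = true :=
  ⟨(l 5), by decide +kernel⟩

theorem c_mm_012_b : CertB 0 536870912 1239849684 370763052 536870912 50465866 3 eng mog cd0q0 cd1q2b pd1 false false false .pnp 0 1 2
    ndB0q0 ndB1q2b pcB1 Cut.none Ext.none :=
  certB0 (fam := false) (s1 := false) (s2 := false) (a := 0) (b := 1) (c := 2) (cn := .pnp) (n1 := ndB0q0) (n2 := ndB1q2b) (pc := pcB1) (cut := Cut.none) (xt := Ext.none) (P1 := 0) (W1 := 536870912) (P2 := 1239849684) (W2 := 370763052) (P3 := 536870912) (W3 := 50465866) (N0 := 3) (En := eng) (mo := mog) (C1 := cd0q0) (C2 := cd1q2b) (C3 := pd1)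
    rfl k0_mm_012_b

noncomputable def f_mm_022_a : ℕ → ℕ → ℕ → ℕ → Bool := onCell 0 536870912 0 536870912 536870912 50465866
    (rowB 3 eng mog cd0q0 cd1q2a pd2 0 false false false .pp 0 2 2 (qsf 0 536870912 0 536870912 2) ndB0q0 ndB1q2a pcB2 Cut.none Ext.none)

def k0_mm_022_a : ∃ t, chk3 f_mm_022_a t 1 1 1 = true :=
  ⟨(l 5), by decide +kernel⟩

theorem c_mm_022_a : CertB 0 536870912 0 536870912 536870912 50465866 3 eng mog cd0q0 cd1q2a pd2 false false false .pp 0 2 2
    ndB0q0 ndB1q2a pcB2 Cut.none Ext.none :=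
  certB0 (fam := false) (s1 := false) (s2 := false) (a := 0) (b := 2) (c := 2) (cn := .pp) (n1 := ndB0q0) (n2 := ndB1q2a) (pc := pcB2) (cut := Cut.none) (xt := Ext.none) (P1 := 0) (W1 := 536870912) (P2 := 0) (W2 := 536870912) (P3 := 536870912) (W3 := 50465866) (N0 := 3) (En := eng) (mo := mog) (C1 := cd0q0) (C2 := cd1q2a) (C3 := pd2)
    rfl k0_mm_022_a

noncomputable def f_mm_022_b : ℕ → ℕ → ℕ → ℕ → Bool := onCell 0 536870912 1239849684 370763052 536870912 50465866
    (rowB 3 eng mog cd0q0 cd1q2b pd2 0 false false false .pp 0 2 2 (qsf 0 536870912 1239849684 370763052 2) ndB0q0 ndB1q2b pcB2 Cut.none Ext.none)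

def k0_mm_022_b : ∃ t, chk3 f_mm_022_b t 1 1 1 = true :=
  ⟨(l 5), by decide +kernel⟩

theorem c_mm_022_b : CertB 0 536870912 1239849684 370763052 536870912 50465866 3 eng mog cd0q0 cd1q2b pd2 false false false .pp 0 2 2
    ndB0q0 ndB1q2b pcB2 Cut.none Ext.none :=
  certB0 (fam := false) (s1 := false) (s2 := false) (a := 0) (b := 2) (c := 2) (cn := .pp) (n1 := ndB0q0) (n2 := ndB1q2b) (pc := pcB2) (cut := Cut.none) (xt := Ext.none) (P1 := 0) (W1 := 536870912) (P2 := 1239849684) (W2 := 370763052) (P3 := 536870912) (W3 := 50465866) (N0 := 3) (En := eng) (mo := mog) (C1 := cd0q0) (C2 := cd1q2b) (C3 := pd2)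
    rfl k0_mm_022_b

noncomputable def f_mm_023 : ℕ → ℕ → ℕ → ℕ → Bool := onCell 0 536870912 1610612736 536870912 536870912 50465866
    (rowB 3 eng mog cd0q0 cd1q3 pd2 0 false false false .up 0 2 3 (qsf 0 536870912 1610612736 536870912 2) ndB0q0 ndB1q3 pcB2 Cut.none Ext.none)

def k0_mm_023 : ∃ t, chk3 f_mm_023 t 1 1 1 = true :=
  ⟨(l 5), by decide +kernel⟩

theorem c_mm_023 : CertB 0 536870912 1610612736 536870912 536870912 50465866 3 eng mog cd0q0 cd1q3 pd2 false false false .up 0 2 3
    ndB0q0 ndB1q3 pcB2 Cut.none Ext.none :=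
  certB0 (fam := false) (s1 := false) (s2 := false) (a := 0) (b := 2) (c := 3) (cn := .up) (n1 := ndB0q0) (n2 := ndB1q3) (pc := pcB2) (cut := Cut.none) (xt := Ext.none) (P1 := 0) (W1 := 536870912) (P2 := 1610612736) (W2 := 536870912) (P3 := 536870912) (W3 := 50465866) (N0 := 3) (En := eng) (mo := mog) (C1 := cd0q0) (C2 := cd1q3) (C3 := pd2)
    rfl k0_mm_023

noncomputable def f_mm_033 : ℕ → ℕ → ℕ → ℕ → Bool := onCell 0 536870912 1610612736 536870912 536870912 50465866
    (rowB 3 eng mog cd0q0 cd1q3 pd3 0 false false false .pnn 0 3 3 (qsf 0 536870912 1610612736 536870912 3) ndB0q0 ndB1q3 pcB3 Cut.none Ext.none)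

def k0_mm_033 : ∃ t, chk3 f_mm_033 t 1 1 1 = true :=
  ⟨(l 5), by decide +kernel⟩

theorem c_mm_033 : CertB 0 536870912 1610612736 536870912 536870912 50465866 3 eng mog cd0q0 cd1q3 pd3 false false false .pnn 0 3 3
    ndB0q0 ndB1q3 pcB3 Cut.none Ext.none :=
  certB0 (fam := false) (s1 := false) (s2 := false) (a := 0) (b := 3) (c := 3) (cn := .pnn) (n1 := ndB0q0) (n2 := ndB1q3) (pc := pcB3) (cut := Cut.none) (xt := Ext.none) (P1 := 0) (W1 := 536870912) (P2 := 1610612736) (W2 := 536870912) (P3 := 536870912) (W3 := 50465866) (N0 := 3) (En := eng) (mo := mog) (C1 := cd0q0) (C2 := cd1q3) (C3 := pd3)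
    rfl k0_mm_033

noncomputable def f_mm_101 : ℕ → ℕ → ℕ → ℕ → Bool := onCell 536870912 536870912 536870912 536870912 536870912 50465866
    (rowB 3 eng mog cd0q1 cd1q1 pd0 0 false false false .npn 1 0 1 (qsf 536870912 536870912 536870912 536870912 0) ndB0q1 ndB1q1 pcB0 Cut.none Ext.none)

def k0_mm_101 : ∃ t, chk3 f_mm_101 t 1 1 1 = true :=
  ⟨(l 3), by decide +kernel⟩

theorem c_mm_101 : CertB 536870912 536870912 536870912 536870912 536870912 50465866 3 eng mog cd0q1 cd1q1 pd0 false false false .npn 1 0 1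
    ndB0q1 ndB1q1 pcB0 Cut.none Ext.none :=
  certB0 (fam := false) (s1 := false) (s2 := false) (a := 1) (b := 0) (c := 1) (cn := .npn) (n1 := ndB0q1) (n2 := ndB1q1) (pc := pcB0) (cut := Cut.none) (xt := Ext.none) (P1 := 536870912) (W1 := 536870912) (P2 := 536870912) (W2 := 536870912) (P3 := 536870912) (W3 := 50465866) (N0 := 3) (En := eng) (mo := mog) (C1 := cd0q1) (C2 := cd1q1) (C3 := pd0)
    rfl k0_mm_101

noncomputable def f_mm_102_a : ℕ → ℕ → ℕ → ℕ → Bool := onCell 536870912 536870912 0 536870912 536870912 50465866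
    (rowB 3 eng mog cd0q1 cd1q2a pd0 0 false false false .npp 1 0 2 (qsf 536870912 536870912 0 536870912 0) ndB0q1 ndB1q2a pcB0 Cut.none Ext.none)

def k0_mm_102_a : ∃ t, chk3 f_mm_102_a t 1 1 1 = true :=
  ⟨(a (l 5) (l 3)), by decide +kernel⟩

theorem c_mm_102_a : CertB 536870912 536870912 0 536870912 536870912 50465866 3 eng mog cd0q1 cd1q2a pd0 false false false .npp 1 0 2
    ndB0q1 ndB1q2a pcB0 Cut.none Ext.none :=
  certB0 (fam := false) (s1 := false) (s2 := false) (a := 1) (b := 0) (c := 2) (cn := .npp) (n1 := ndB0q1) (n2 := ndB1q2a) (pc := pcB0) (cut := Cut.none) (xt := Ext.none) (P1 := 536870912) (W1 := 536870912) (P2 := 0) (W2 := 536870912) (P3 := 536870912) (W3 := 50465866) (N0 := 3) (En := eng) (mo := mog) (C1 := cd0q1) (C2 := cd1q2a) (C3 := pd0)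
    rfl k0_mm_102_a

noncomputable def f_mm_102_b : ℕ → ℕ → ℕ → ℕ → Bool := onCell 536870912 536870912 1239849684 370763052 536870912 50465866
    (rowB 3 eng mog cd0q1 cd1q2b pd0 0 false false false .npp 1 0 2 (qsf 536870912 536870912 1239849684 370763052 0) ndB0q1 ndB1q2b pcB0 Cut.none Ext.none)

def k0_mm_102_b : ∃ t, chk3 f_mm_102_b t 1 1 1 = true :=
  ⟨(l 5), by decide +kernel⟩

theorem c_mm_102_b : CertB 536870912 536870912 1239849684 370763052 536870912 50465866 3 eng mog cd0q1 cd1q2b pd0 false false false .npp 1 0 2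
    ndB0q1 ndB1q2b pcB0 Cut.none Ext.none :=
  certB0 (fam := false) (s1 := false) (s2 := false) (a := 1) (b := 0) (c := 2) (cn := .npp) (n1 := ndB0q1) (n2 := ndB1q2b) (pc := pcB0) (cut := Cut.none) (xt := Ext.none) (P1 := 536870912) (W1 := 536870912) (P2 := 1239849684) (W2 := 370763052) (P3 := 536870912) (W3 := 50465866) (N0 := 3) (En := eng) (mo := mog) (C1 := cd0q1) (C2 := cd1q2b) (C3 := pd0)
    rfl k0_mm_102_b

noncomputable def f_mm_112_a : ℕ → ℕ → ℕ → ℕ → Bool := onCell 536870912 536870912 0 536870912 536870912 50465866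
    (rowB 3 eng mog cd0q1 cd1q2a pd1 2 false false false .dn 1 1 2 (qsf 536870912 536870912 0 536870912 1) ndB0q1 ndB1q2a pcB1 Cut.none Ext.none)

def k0_mm_112_a : ∃ t, chk3 f_mm_112_a t 1 1 1 = true :=
  ⟨(l 5), by decide +kernel⟩

theorem c_mm_112_a : CertB 536870912 536870912 0 536870912 536870912 50465866 3 eng mog cd0q1 cd1q2a pd1 false false false .dn 1 1 2
    ndB0q1 ndB1q2a pcB1 Cut.none Ext.none :=
  certB2 (fam := false) (s1 := false) (s2 := false) (a := 1) (b := 1) (c := 2) (cn := .dn) (n1 := ndB0q1) (n2 := ndB1q2a) (pc := pcB1) (cut := Cut.none) (xt := Ext.none) (P1 := 536870912) (W1 := 536870912) (P2 := 0) (W2 := 536870912) (P3 := 536870912) (W3 := 50465866) (N0 := 3) (En := eng) (mo := mog) (C1 := cd0q1) (C2 := cd1q2a) (C3 := pd1)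
    rfl (fun _ => rfl) k0_mm_112_a

noncomputable def f_mm_112_b : ℕ → ℕ → ℕ → ℕ → Bool := onCell 536870912 536870912 1239849684 370763052 536870912 50465866
    (rowB 3 eng mog cd0q1 cd1q2b pd1 0 false false false .dn 1 1 2 (qsf 536870912 536870912 1239849684 370763052 1) ndB0q1 ndB1q2b pcB1 Cut.none Ext.none)

def k0_mm_112_b : ∃ t, chk3 f_mm_112_b t 1 1 1 = true :=
  ⟨(l 5), by decide +kernel⟩

theorem c_mm_112_b : CertB 536870912 536870912 1239849684 370763052 536870912 50465866 3 eng mog cd0q1 cd1q2b pd1 false false false .dn 1 1 2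
    ndB0q1 ndB1q2b pcB1 Cut.none Ext.none :=
  certB0 (fam := false) (s1 := false) (s2 := false) (a := 1) (b := 1) (c := 2) (cn := .dn) (n1 := ndB0q1) (n2 := ndB1q2b) (pc := pcB1) (cut := Cut.none) (xt := Ext.none) (P1 := 536870912) (W1 := 536870912) (P2 := 1239849684) (W2 := 370763052) (P3 := 536870912) (W3 := 50465866) (N0 := 3) (En := eng) (mo := mog) (C1 := cd0q1) (C2 := cd1q2b) (C3 := pd1)
    rfl k0_mm_112_b

noncomputable def f_mm_113 : ℕ → ℕ → ℕ → ℕ → Bool := onCell 536870912 536870912 1610612736 536870912 536870912 50465866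
    (rowB 3 eng mog cd0q1 cd1q3 pd1 0 false false false .nn 1 1 3 (qsf 536870912 536870912 1610612736 536870912 1) ndB0q1 ndB1q3 pcB1 Cut.none Ext.none)

def k0_mm_113 : ∃ t, chk3 f_mm_113 t 1 1 1 = true :=
  ⟨(l 5), by decide +kernel⟩

theorem c_mm_113 : CertB 536870912 536870912 1610612736 536870912 536870912 50465866 3 eng mog cd0q1 cd1q3 pd1 false false false .nn 1 1 3
    ndB0q1 ndB1q3 pcB1 Cut.none Ext.none :=
  certB0 (fam := false) (s1 := false) (s2 := false) (a := 1) (b := 1) (c := 3) (cn := .nn) (n1 := ndB0q1) (n2 := ndB1q3) (pc := pcB1) (cut := Cut.none) (xt := Ext.none) (P1 := 536870912) (W1 := 536870912) (P2 := 1610612736) (W2 := 536870912) (P3 := 536870912) (W3 := 50465866) (N0 := 3) (En := eng) (mo := mog) (C1 := cd0q1) (C2 := cd1q3) (C3 := pd1)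
    rfl k0_mm_113

noncomputable def f_mm_123 : ℕ → ℕ → ℕ → ℕ → Bool := onCell 536870912 536870912 1610612736 536870912 536870912 50465866
    (rowB 3 eng mog cd0q1 cd1q3 pd2 0 false false false .npn 1 2 3 (qsf 536870912 536870912 1610612736 536870912 2) ndB0q1 ndB1q3 pcB2 Cut.none Ext.none)

def k0_mm_123 : ∃ t, chk3 f_mm_123 t 1 1 1 = true :=
  ⟨(l 5), by decide +kernel⟩

theorem c_mm_123 : CertB 536870912 536870912 1610612736 536870912 536870912 50465866 3 eng mog cd0q1 cd1q3 pd2 false false false .npn 1 2 3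
    ndB0q1 ndB1q3 pcB2 Cut.none Ext.none :=
  certB0 (fam := false) (s1 := false) (s2 := false) (a := 1) (b := 2) (c := 3) (cn := .npn) (n1 := ndB0q1) (n2 := ndB1q3) (pc := pcB2) (cut := Cut.none) (xt := Ext.none) (P1 := 536870912) (W1 := 536870912) (P2 := 1610612736) (W2 := 536870912) (P3 := 536870912) (W3 := 50465866) (N0 := 3) (En := eng) (mo := mog) (C1 := cd0q1) (C2 := cd1q3) (C3 := pd2)
    rfl k0_mm_123

noncomputable def f_mm_133 : ℕ → ℕ → ℕ → ℕ → Bool := onCell 536870912 536870912 1610612736 536870912 536870912 50465866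
    (rowB 3 eng mog cd0q1 cd1q3 pd3 0 false false false .dn 1 3 3 (qsf 536870912 536870912 1610612736 536870912 3) ndB0q1 ndB1q3 pcB3 Cut.none Ext.none)

def k0_mm_133 : ∃ t, chk3 f_mm_133 t 1 1 1 = true :=
  ⟨(l 5), by decide +kernel⟩

theorem c_mm_133 : CertB 536870912 536870912 1610612736 536870912 536870912 50465866 3 eng mog cd0q1 cd1q3 pd3 false false false .dn 1 3 3
    ndB0q1 ndB1q3 pcB3 Cut.none Ext.none :=
  certB0 (fam := false) (s1 := false) (s2 := false) (a := 1) (b := 3) (c := 3) (cn := .dn) (n1 := ndB0q1) (n2 := ndB1q3) (pc := pcB3) (cut := Cut.none) (xt := Ext.none) (P1 := 536870912) (W1 := 536870912) (P2 := 1610612736) (W2 := 536870912) (P3 := 536870912) (W3 := 50465866) (N0 := 3) (En := eng) (mo := mog) (C1 := cd0q1) (C2 := cd1q3) (C3 := pd3)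
    rfl k0_mm_133

noncomputable def f_mm_202_a : ℕ → ℕ → ℕ → ℕ → Bool := onCell 0 536870912 0 536870912 536870912 50465866
    (rowB 3 eng mog cd0q2 cd1q2a pd0 0 false false false .pp 2 0 2 (qsf 0 536870912 0 536870912 0) ndB0q2 ndB1q2a pcB0 Cut.none Ext.none)

def k0_mm_202_a : ∃ t, chk3 f_mm_202_a t 1 1 1 = true :=
  ⟨(l 3), by decide +kernel⟩

theorem c_mm_202_a : CertB 0 536870912 0 536870912 536870912 50465866 3 eng mog cd0q2 cd1q2a pd0 false false false .pp 2 0 2
    ndB0q2 ndB1q2a pcB0 Cut.none Ext.none :=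
  certB0 (fam := false) (s1 := false) (s2 := false) (a := 2) (b := 0) (c := 2) (cn := .pp) (n1 := ndB0q2) (n2 := ndB1q2a) (pc := pcB0) (cut := Cut.none) (xt := Ext.none) (P1 := 0) (W1 := 536870912) (P2 := 0) (W2 := 536870912) (P3 := 536870912) (W3 := 50465866) (N0 := 3) (En := eng) (mo := mog) (C1 := cd0q2) (C2 := cd1q2a) (C3 := pd0)
    rfl k0_mm_202_a

noncomputable def f_mm_202_b : ℕ → ℕ → ℕ → ℕ → Bool := onCell 0 536870912 1239849684 370763052 536870912 50465866
    (rowB 3 eng mog cd0q2 cd1q2b pd0 0 false false false .pp 2 0 2 (qsf 0 536870912 1239849684 370763052 0) ndB0q2 ndB1q2b pcB0 Cut.none Ext.none)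

def k0_mm_202_b : ∃ t, chk3 f_mm_202_b t 1 1 1 = true :=
  ⟨(l 3), by decide +kernel⟩

theorem c_mm_202_b : CertB 0 536870912 1239849684 370763052 536870912 50465866 3 eng mog cd0q2 cd1q2b pd0 false false false .pp 2 0 2
    ndB0q2 ndB1q2b pcB0 Cut.none Ext.none :=
  certB0 (fam := false) (s1 := false) (s2 := false) (a := 2) (b := 0) (c := 2) (cn := .pp) (n1 := ndB0q2) (n2 := ndB1q2b) (pc := pcB0) (cut := Cut.none) (xt := Ext.none) (P1 := 0) (W1 := 536870912) (P2 := 1239849684) (W2 := 370763052) (P3 := 536870912) (W3 := 50465866) (N0 := 3) (En := eng) (mo := mog) (C1 := cd0q2) (C2 := cd1q2b) (C3 := pd0)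
    rfl k0_mm_202_b

noncomputable def f_mm_203 : ℕ → ℕ → ℕ → ℕ → Bool := onCell 0 536870912 0 536870912 536870912 50465866
    (rowB 3 eng mog cd0q2 cd1q3 pd0 1 false false false .up 2 0 3 (qsf 0 536870912 1610612736 536870912 0) ndB0q2 ndB1q3 pcB0 Cut.none Ext.none)

def k0_mm_203 : ∃ t, chk3 f_mm_203 t 1 1 1 = true :=
  ⟨(l 3), by decide +kernel⟩

theorem c_mm_203 : CertB 0 536870912 1610612736 536870912 536870912 50465866 3 eng mog cd0q2 cd1q3 pd0 false false false .up 2 0 3
    ndB0q2 ndB1q3 pcB0 Cut.none Ext.none :=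
  certB1 (fam := false) (s1 := false) (s2 := false) (a := 2) (b := 0) (c := 3) (cn := .up) (n1 := ndB0q2) (n2 := ndB1q3) (pc := pcB0) (cut := Cut.none) (xt := Ext.none) (P1 := 0) (W1 := 536870912) (P2 := 1610612736) (W2 := 536870912) (P3 := 536870912) (W3 := 50465866) (N0 := 3) (En := eng) (mo := mog) (C1 := cd0q2) (C2 := cd1q3) (C3 := pd0)
    rfl (fun _ => rfl) k0_mm_203

noncomputable def f_mm_213 : ℕ → ℕ → ℕ → ℕ → Bool := onCell 0 536870912 1610612736 536870912 536870912 50465866
    (rowB 3 eng mog cd0q2 cd1q3 pd1 0 false false false .pnn 2 1 3 (qsf 0 536870912 1610612736 536870912 1) ndB0q2 ndB1q3 pcB1 Cut.none Ext.none)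

def k0_mm_213 : ∃ t, chk3 f_mm_213 t 1 1 1 = true :=
  ⟨(a (l 3) (l 5)), by decide +kernel⟩

theorem c_mm_213 : CertB 0 536870912 1610612736 536870912 536870912 50465866 3 eng mog cd0q2 cd1q3 pd1 false false false .pnn 2 1 3
    ndB0q2 ndB1q3 pcB1 Cut.none Ext.none :=
  certB0 (fam := false) (s1 := false) (s2 := false) (a := 2) (b := 1) (c := 3) (cn := .pnn) (n1 := ndB0q2) (n2 := ndB1q3) (pc := pcB1) (cut := Cut.none) (xt := Ext.none) (P1 := 0) (W1 := 536870912) (P2 := 1610612736) (W2 := 536870912) (P3 := 536870912) (W3 := 50465866) (N0 := 3) (En := eng) (mo := mog) (C1 := cd0q2) (C2 := cd1q3) (C3 := pd1)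
    rfl k0_mm_213

end Pool.Agent.Strip051.G.I5000_5470.Tab.C.BB01

namespace Pool.Agent.Strip051.G.I5000_5470.Tab.C.BB02

open Pool.Agent.Strip051.PB Pool.Agent.Strip051.PB.T
open Pool.Agent.Strip051.G.I5000_5470.Tab

noncomputable def f_pp_001 : ℕ → ℕ → ℕ → ℕ → Bool := onCell 0 536870912 536870912 536870912 536870912 50465866
    (rowB 3 eng mog cd0q0 cd2q1 pd0 0 false true true .up 0 0 1 (qsf 0 536870912 536870912 536870912 0) ndB0q0 ndB2q1 pcB0 Cut.none Ext.none)

def k0_pp_001 : ∃ t, chk3 f_pp_001 t 1 1 1 = true :=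
  ⟨(l 3), by decide +kernel⟩

theorem c_pp_001 : CertB 0 536870912 536870912 536870912 536870912 50465866 3 eng mog cd0q0 cd2q1 pd0 false true true .up 0 0 1
    ndB0q0 ndB2q1 pcB0 Cut.none Ext.none :=
  certB0 (fam := false) (s1 := true) (s2 := true) (a := 0) (b := 0) (c := 1) (cn := .up) (n1 := ndB0q0) (n2 := ndB2q1) (pc := pcB0) (cut := Cut.none) (xt := Ext.none) (P1 := 0) (W1 := 536870912) (P2 := 536870912) (W2 := 536870912) (P3 := 536870912) (W3 := 50465866) (N0 := 3) (En := eng) (mo := mog) (C1 := cd0q0) (C2 := cd2q1) (C3 := pd0)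
    rfl k0_pp_001

noncomputable def f_pp_011 : ℕ → ℕ → ℕ → ℕ → Bool := onCell 0 536870912 536870912 536870912 536870912 50465866
    (rowB 3 eng mog cd0q0 cd2q1 pd1 0 false true true .pnn 0 1 1 (qsf 0 536870912 536870912 536870912 1) ndB0q0 ndB2q1 pcB1 Cut.none Ext.none)

def k0_pp_011 : ∃ t, chk3 f_pp_011 t 1 1 1 = true :=
  ⟨(l 3), by decide +kernel⟩

theorem c_pp_011 : CertB 0 536870912 536870912 536870912 536870912 50465866 3 eng mog cd0q0 cd2q1 pd1 false true true .pnn 0 1 1
    ndB0q0 ndB2q1 pcB1 Cut.none Ext.none :=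
  certB0 (fam := false) (s1 := true) (s2 := true) (a := 0) (b := 1) (c := 1) (cn := .pnn) (n1 := ndB0q0) (n2 := ndB2q1) (pc := pcB1) (cut := Cut.none) (xt := Ext.none) (P1 := 0) (W1 := 536870912) (P2 := 536870912) (W2 := 536870912) (P3 := 536870912) (W3 := 50465866) (N0 := 3) (En := eng) (mo := mog) (C1 := cd0q0) (C2 := cd2q1) (C3 := pd1)
    rfl k0_pp_011

noncomputable def cut_pp_012_a : Cut := Cut.of [[⟨0, 0, 0, 67108864⟩, ⟨1, 1, 0, 67108864⟩, ⟨2, 1, 0, 67108864⟩]]

noncomputable def f_pp_012_a : ℕ → ℕ → ℕ → ℕ → Bool := onCell 536870912 536870912 0 536870912 536870912 50465866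
    (rowB 3 eng mog cd0q0 cd2q2a pd1 2 false true true .pnp 0 1 2 (qsf 0 536870912 0 536870912 1) ndB0q0 ndB2q2a pcB1 cut_pp_012_a Ext.none)

def k0_pp_012_a : ∃ t, chk3 f_pp_012_a t 2 1 1 = true :=
  ⟨(a (l 3) (l 3)), by decide +kernel⟩

def k1_pp_012_a : ∃ t, chk3 f_pp_012_a t 24 4 1 = true :=
  ⟨(b (b (a (l 3) (a (b (a (b (a (l 3) (a (l 3) (b (b (c (b (l 78014030455) (l 94120159479)) (b (l 79087765303) (l 97341374999))) (l 3)) (l 3)))) (l 3)) (b (a (b (c (a (b (l 51707355143) (l 84993353543)) (l 50633612823)) (a (b (l 52781089943) (l 87677697991)) (l 51170476535))) (b (c (l 90362063303) (l 93583278535)) (l 3))) (b (l 16762384) (b (c (l 52244225463) (l 52781088871)) (c (a (l 87677707911) (l 58686676791)) (a (l 90362052007) (l 59223540087)))))) (a (l 3) (c (l 94657029815) (l 97341376327))))) (l 3)) (b (a (b (c (l 16762224) (l 16759456)) (b (a (b (c (l 54928579879) (l 55465442903)) (c (l 76403417831) (l 79087761543))) (l 16762032)) (a (b (l 94120153767) (l 3)) (b (c (l 57612934295) (l 58149796935))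 (c (l 77477159479) (l 80161502823)))))) (b (l 16756512) (c (l 43654287367) (l 44191150071)))) (a (l 3) (b (b (a (b (c (l 62981643319) (l 63518505511)) (c (l 78550901111) (l 81235244119))) (c (l 16763352) (l 16757464))) (a (l 3) (c (l 69960965671) (b (l 64592246967) (l 81772114487))))) (l 3)))))) (l 3)) (l 3)), by decide +kernel⟩

def k2_pp_012_a : ∃ t, chk3 f_pp_012_a t 50 8 1 = true :=
  ⟨(b (a (b (c (l 16766968) (l 16760968)) (b (a (a (c (l 16763256) (l 16758856)) (l 16758072)) (l 16755872)) (b (a (a (c (l 69960965495) (l 72645307815)) (c (l 16763184) (l 16759560))) (l 16760440)) (a (a (l 3) (c (l 71034707143) (l 73182178183))) (a (c (l 48486127159) (l 49022988007)) (l 16758376)))))) (b (l 16747608) (a (a (l 16757936) (l 16753520)) (l 16751312)))) (b (a (b (a (l 3) (a (b (c (l 72108448791) (l 74255919479)) (l 3)) (b (c (l 48486127159) (l 49022987655)) (c (l 73182190455) (l 75329660775))))) (l 3)) (b (a (b (c (l 16760928) (l 16754128)) (a (b (l 16760480) (c (l 52244224199) (l 52781083959)))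 (l 16758024))) (c (l 16758768) (l 16751688))) (a (b (c (a (l 73719061191) (b (l 16762512) (l 52781095079))) (a (l 75866533767) (c (l 49022989639) (l 49559854759)))) (a (l 3) (b (c (l 72108447591) (l 74255917207)) (l 3)))) (b (c (l 16760720) (l 16753552)) (a (b (c (l 16762400) (l 16755256)) (c (a (l 67813481095) (l 16762696)) (a (l 68887210951) (l 16755496)))) (c (l 16761312) (l 16754024))))))) (a (l 3) (b (a (l 3) (b (a (a (l 3) (b (c (l 69424092071) (l 71034690359)) (l 3))) (b (c (l 40969933735) (l 40969921703)) (c (a (b (l 58686675351) (l 71571575847)) (c (l 43654291975) (l 43654285735))) (a (l 67276596263) (l 44191147463))))) (b (a (l 3) (a (l 3) (c (l 62981640375) (l 65129109415)))) (l 3)))) (l 3))))), by decide +kernel⟩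

def k3_pp_012_a : ∃ t, chk3 f_pp_012_a t 51 8 1 = true :=
  ⟨(b (a (b (l 16741728) (l 16746856)) (l 16738312)) (b (b (a (a (l 16752184) (l 16749176)) (l 16744616)) (a (a (c (l 16758520) (l 16751080)) (l 16751720)) (l 16747144))) (a (b (a (b (c (a (l 16761168) (l 16759736)) (a (l 16753704) (l 16752144))) (a (c (a (b (l 40433062759) (l 62981639671)) (c (l 37748710295) (l 37748704183))) (b (l 37748695319) (a (l 65665979687) (l 41506791831)))) (c (l 16760640) (l 16753160)))) (c (b (l 16757576) (l 16758472)) (l 16755544))) (a (a (b (b (c (l 66202865175) (l 68887205303)) (l 3)) (l 3)) (b (c (a (b (l 41506803159) (l 63518509143)) (l 38822447511)) (a (b (l 42043662087) (l 66202849287)) (l 38822435831))) (c (l 66739734999) (l 69424075351)))) (a (b (c (l 16759904) (l 16752496)) (c (b (l 38822446375) (a (l 63518507655) (l 43117413479))) (b (l 38822434807) (l 53317949847)))) (c (l 16758792) (l 16751368))))) (a (b (l 16753664) (c (l 16756592) (l 16748992))) (b (l 16747960) (l 16749632)))))), by decide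 +kernel⟩

def k4_pp_012_a : ∃ t, chk3 f_pp_012_a t 25 9 1 = true :=
  ⟨(a (l 3) (b (a (b (a (l 3) (b (b (a (c (l 65665991671) (l 68350332167)) (c (b (l 39359315671) (l 52781088759)) (b (l 40969917159) (l 52781077703)))) (c (l 66202862535) (l 68887203287))) (l 3))) (l 3)) (b (b (a (b (c (l 16757608) (l 16752936)) (a (c (b (l 40969926551) (l 52244216071)) (b (l 40433044839) (l 52244205367))) (c (l 16757536) (l 16750392)))) (c (l 16754976) (l 16747560))) (b (c (a (a (l 63518504839) (b (l 40969924743) (l 51707343175))) (l 29695631591)) (a (a (l 66202845671) (b (l 40433043383) (l 51707332839))) (l 16751480))) (a (l 3) (a (c (b (l 40433051975) (l 50633599479)) (b (l 39896170903) (l 50633589511))) (c (l 16755832) (l 16748904)))))) (a (l 3) (b (a (l 3) (b (c (b (l 39359308071) (l 49022984583)) (b (l 37748685559) (l 50633587655))) (l 3))) (l 3))))) (l 3))), by decide +kernel⟩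

def k5_pp_012_a : ∃ t, chk3 f_pp_012_a t 12 5 1 = true :=
  ⟨(l 3), by decide +kernel⟩

def k6_pp_012_a : ∃ t, chk3 f_pp_012_a t 26 8 1 = true :=
  ⟨(b (a (a (l 16732224) (l 16726048)) (l 16716592)) (a (b (a (l 16739712) (l 16733448)) (a (c (l 16748392) (l 16750552)) (l 16743080))) (b (l 16723864) (a (l 16731440) (l 16724944))))), by decide +kernel⟩

def k7_pp_012_a : ∃ t, chk3 f_pp_012_a t 26 18 1 = true :=
  ⟨(a (a (b (a (b (l 16748072) (c (l 16753264) (l 16746072))) (c (l 16749608) (l 16741984))) (b (a (b (c (c (l 16756008) (l 16752424)) (l 24863779767)) (a (c (b (l 37211822311) (l 48486111463)) (b (l 36674942023) (l 50096715191))) (c (l 16754048) (l 16747352)))) (c (l 16751480) (l 16749768))) (a (b (a (l 3) (c (b (l 36138078167) (l 47949238295)) (b (l 35064327383) (l 49559842359)))) (l 3)) (b (a (c (l 16753120) (l 16746560)) (l 16749504)) (a (c (b (l 34527463111) (l 47412365015)) (b (l 33453712887) (l 50096707719))) (c (l 24326912887) (l 22179420887))))))) (a (b (l 16744520) (c (b (l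 16748440) (c (l 16751400) (l 16747880))) (b (l 16741272) (c (l 16744528) (l 16741360))))) (b (l 16739384) (b (l 16741600) (a (l 16743816) (l 16742224)))))) (b (a (l 16734568) (l 16728072)) (a (b (l 16736792) (a (l 16739832) (l 16736624))) (c (l 16735080) (l 16727192))))), by decide +kernel⟩

def k8_pp_012_a : ∃ t, chk3 f_pp_012_a t 52 19 1 = true :=
  ⟨(a (b (a (l 3) (b (b (a (l 3) (c (b (c (l 32916851591) (l 32916846007)) (l 46338622007)) (b (c (l 31843100215) (l 31306225015)) (l 49022966887)))) (l 3)) (l 3))) (l 3)) (b (a (a (b (a (b (c (l 24326911159) (l 21642548823)) (b (c (l 43654264311) (l 45264869495)) (l 3))) (b (c (l 16750840) (l 16744528)) (c (b (l 16751248) (l 36674941271)) (b (l 16746432) (l 36138062999))))) (l 3)) (b (c (b (l 16749696) (c (l 21642557847) (l 21642551671))) (b (l 16743312) (c (l 20031935079) (l 18958189255)))) (b (b (c (c (l 29158751255) (l 29158745543)) (c (l 28621870951) (l 27548125127))) (c (l 37211811463) (l 36674933255))) (l 3)))) (a (b (b (l 16744848) (c (l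 16748720) (l 16742480))) (b (c (c (l 16750872) (l 16747704)) (c (l 16744712) (l 16741880))) (c (a (l 35601197575) (c (l 24863781079) (l 23790034551))) (a (l 34527448679) (c (l 23790031063) (l 22716285591)))))) (b (c (l 16746928) (l 16740456)) (c (c (l 16810716375) (l 16273839495)) (c (l 15200093175) (l 16743280)))))) (a (l 3) (b (a (l 3) (b (c (a (l 32916841575) (l 23790034695)) (a (l 31843093079) (l 21642544439))) (l 3))) (l 3))))), by decide +kernel⟩

def k9_pp_012_a : ∃ t, chk3 f_pp_012_a t 53 19 1 = true :=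
  ⟨(a (b (c (b (a (l 16744624) (l 16741528)) (a (c (l 16747360) (l 16744128)) (l 16742648))) (b (a (l 16738000) (l 16734696)) (a (c (l 16741072) (l 16738184)) (l 16736320)))) (a (b (c (a (b (l 16273839319) (a (l 30769356311) (l 22179420295))) (c (l 16747528) (l 16744536))) (a (b (l 16743560) (c (l 24863770807) (l 23790025511))) (c (l 16741704) (l 16739048)))) (a (l 3) (b (c (c (l 23790035015) (l 23790030647)) (c (l 22716285687) (l 21642540535))) (l 3)))) (a (b (c (l 16744488) (l 16738720)) (c (b (l 16745232) (c (l 22179420183) (l 21642545175))) (b (l 16742496) (c (l 21105671287) (l 20031926391))))) (c (b (l 16742952) (c (l 16745384) (l 16742560))) (b (l 16737088) (c (l 16739896) (l 16737400))))))) (b (a (b (l 16734800) (a (l 16736992) (l 16735376))) (c (l 16735832) (l 16728816))) (c (a (b (l 16740640) (c (l 16743128) (l 16740224))) (b (l 16737496) (l 16738520))) (a (b (l 16734608) (c (l 16737480) (l 16734904))) (b (l 16731248) (l 16732824)))))), by decide +kernel⟩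

def k10_pp_012_a : ∃ t, chk3 f_pp_012_a t 27 4 1 = true :=
  ⟨(b (a (b (a (l 16706864) (l 16700080)) (b (l 16710544) (l 16714776))) (b (a (l 16713920) (l 16685536)) (a (l 16701952) (l 16694384)))) (a (b (a (b (l 16721384) (l 16726968)) (b (l 16714392) (l 16717328))) (a (b (c (b (l 16730344) (l 16731488)) (b (l 16722792) (l 16724432))) (a (b (l 16730944) (a (l 16733104) (l 16731408))) (b (l 16727512) (l 16728832)))) (a (b (l 16721936) (a (l 16725552) (l 16723776))) (b (l 16718336) (l 16721064))))) (b (a (l 16708552) (l 16700912)) (a (b (l 16712792) (c (l 16719016) (l 16712176))) (b (l 16705128) (l 16707856)))))), by decide +kernel⟩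

def k11_pp_012_a : ∃ t, chk3 f_pp_012_a t 26 5 1 = true :=
  ⟨(b (a (l 3) (b (a (b (a (l 3) (a (l 3) (b (b (a (b (l 22179413495) (l 3)) (b (l 13052606391) (l 21105670711))) (l 3)) (l 3)))) (l 3)) (b (a (a (b (c (b (l 16743136) (c (l 18958190423) (l 18421315959))) (b (l 16740744) (c (l 18421313335) (l 17347568711)))) (l 3)) (b (c (c (l 16743168) (l 16740528)) (c (l 16738040) (l 16735712))) (b (a (c (l 19495057767) (l 18958181975)) (c (l 16273830695) (l 14663213175))) (l 3)))) (a (b (c (l 16740264) (l 16735192)) (c (b (l 16740920) (c (l 16273831303) (l 15736957159))) (b (l 16736288) (c (l 15200083943) (l 14663210455))))) (c (b (l 16738680) (c (l 16740784) (l 16738352))) (b (l 16733504) (c (l 16736056) (l 16733912)))))) (b (b (a (l 3) (a (l 3) (a (c (l 16273827719) (l 15200081591)) (c (l 14126342263) (l 16738224))))) (l 3)) (l 3)))) (l 3))) (l 3)), by decide +kernel⟩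

def k12_pp_012_a : ∃ t, chk3 f_pp_012_a t 27 20 1 = true :=
  ⟨(b (a (a (c (a (a (b (l 16737072) (l 16737944)) (b (l 16735432) (l 16736320))) (b (l 16732928) (c (l 16735144) (l 16732544)))) (a (b (l 16733552) (c (l 16736152) (l 16736552))) (b (l 16727416) (c (l 16730088) (l 16727768))))) (c (a (b (l 16729512) (l 16730424)) (l 16726472)) (a (b (l 16723824) (l 16725336)) (l 16720928)))) (a (a (c (l 16722864) (l 16717192)) (l 16716208)) (c (l 16713464) (l 16707584)))) (b (a (a (c (a (a (b (l 16738536) (c (l 14126342743) (l 13052597735))) (b (l 16736920) (l 16737288))) (a (l 16735472) (l 16733800))) (a (a (b (l 16734320) (c (l 11978853959) (l 11441980951))) (a (l 16736008) (l 16732528))) (c (l 16733992) (l 16734600)))) (c (a (c (l 16732448) (l 16730088)) (l 16727768)) (a (c (l 16727856) (l 16725752)) (l 16723144)))) (a (a (l 16721744) (l 16718024)) (l 16712288))) (a (a (a (a (l 3) (b (b (c (l 11978854087) (l 7683883207)) (a (l 3) (l 10905110855))) (l 3))) (a (c (b (c (l 16737256) (l 16735240))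 (c (l 10368245175) (l 9831370615))) (b (c (l 16733344) (l 16731568)) (c (l 9294496711) (l 16735928)))) (c (b (l 16734576) (l 16736104)) (b (l 16730696) (l 16732376))))) (b (c (a (a (l 16732896) (l 16731184)) (l 16728576)) (a (a (l 16728920) (l 16727128)) (l 16724400))) (a (a (a (l 16732880) (l 16732016)) (l 16730696)) (a (l 16728912) (l 16727112))))) (a (c (a (l 16725760) (l 16722096)) (a (l 16721520) (l 16717736))) (a (l 16716064) (l 16712192)))))), by decide +kernel⟩

def k13_pp_012_a : ∃ t, chk3 f_pp_012_a t 27 21 1 = true :=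
  ⟨(a (a (b (a (l 3) (a (l 3) (b (b (c (c (l 9294503255) (l 8757628759)) (c (l 8757625319) (l 16735960))) (l 3)) (l 3)))) (l 3)) (b (a (b (b (a (c (l 16736048) (l 16732368)) (a (l 16732832) (l 16731944))) (a (c (a (l 16738136) (l 16737264)) (a (l 16737232) (l 16733696))) (c (l 16735960) (l 16732336)))) (a (l 3) (b (c (a (l 16738056) (l 16737160)) (a (l 16734584) (l 16733656))) (l 3)))) (a (c (b (l 16733400) (b (l 16735840) (l 9831367815))) (b (l 16729616) (b (l 16732272) (a (l 16734528) (l 16733592))))) (c (b (l 16731632) (c (l 16735840) (l 16733944))) (b (l 16727768) (c (l 16732160) (l 16730472)))))) (b (a (l 3) (a (a (l 3) (b (l 11978849511) (l 3))) (b (c (l 9831370151) (a (l 16734448) (l 16733496))) (c (l 16739024) (l 16735776))))) (l 3)))) (a (c (b (a (b (l 16728936) (c (l 16733160) (l 16736448))) (b (l 16725256) (l 16728480))) (a (a (b (c (l 6610148087) (l 6073273943)) (l 6610147687)) (b (l 16734504) (c (l 16738648) (l 16739600)))) (a (b (l 16732656) (c (l 16736776) (l 16735080))) (b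 (l 16730776) (l 16734032))))) (b (a (b (l 16730208) (c (l 16734600) (l 16732856))) (b (l 16721160) (l 16724648))) (a (b (a (b (l 16732080) (l 8757622023)) (c (l 16731888) (l 16730256))) (a (c (l 16737320) (l 16735848)) (b (l 16733736) (l 16735536)))) (a (b (l 16729136) (c (l 16733464) (l 16734560))) (b (l 16727192) (l 16730736)))))) (a (b (b (l 16719336) (l 16722680)) (c (b (l 16727928) (l 16731176)) (b (l 16724256) (c (l 16728600) (l 16726984))))) (b (c (l 16719240) (l 16715088)) (c (l 16730912) (b (l 16720288) (l 16723792))))))), by decide +kernel⟩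

def k14_pp_012_a : ∃ t, chk3 f_pp_012_a t 27 11 1 = true :=
  ⟨(a (l 3) (b (a (b (b (a (l 3) (a (c (l 16739248) (l 16736296)) (c (l 16738632) (c (l 16735040) (l 16733616))))) (l 3)) (l 3)) (b (a (a (c (b (l 16735400) (l 16738752)) (b (l 4462654455) (l 16735960))) (b (b (l 16731016) (l 16732728)) (b (l 16734448) (l 16736232)))) (c (b (l 16730544) (c (l 16734624) (l 16733096))) (b (l 16727336) (c (l 16736872) (l 6073267575))))) (b (a (l 3) (c (b (l 16736536) (l 16738392)) (c (l 16740608) (l 2852048087)))) (l 3)))) (l 3))), by decide +kernel⟩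

def k15_pp_012_a : ∃ t, chk3 f_pp_012_a t 6 3 1 = true :=
  ⟨(l 3), by decide +kernel⟩

def k16_pp_012_a : ∃ t, chk3 f_pp_012_a t 14 4 1 = true :=
  ⟨(a (b (a (b (l 16674008) (b (l 16701496) (l 16715968))) (b (l 16657912) (a (l 16670264) (l 16661896)))) (a (b (a (l 16692992) (l 16684824)) (a (l 16698584) (l 16690400))) (b (a (l 16676464) (l 16667976)) (a (l 16682008) (l 16673456))))) (b (a (b (l 16641280) (l 16649152)) (l 16649216)) (b (a (l 16655160) (l 16637928)) (a (c (l 16705576) (l 16678600)) (l 16664408))))), by decide +kernel⟩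

def k17_pp_012_a : ∃ t, chk3 f_pp_012_a t 28 5 1 = true :=
  ⟨(b (a (b (a (b (l 16702536) (b (l 16704408) (l 16706264))) (b (l 16694384) (l 16697216))) (b (a (c (l 16713304) (l 16719568)) (l 16702984)) (a (a (a (l 16720832) (l 16718816)) (l 16726264)) (a (l 16711664) (l 16707512))))) (b (a (l 16708456) (l 16699960)) (a (c (l 16699864) (l 16717000)) (l 16710360)))) (a (b (b (a (a (b (l 16724896) (a (l 16729344) (l 16727320))) (c (l 16724184) (l 16731448))) (c (c (l 16718840) (l 16717152)) (a (l 16716816) (l 16712640)))) (a (c (b (a (l 16738704) (l 16729408)) (a (b (l 16736224) (l 12515735687)) (l 16733080))) (a (b (a (l 16731632) (l 16729576)) (c (l 16735080) (l 16739024))) (b (l 16726472) (l 14126330023)))) (a (b (l 16734256) (a (l 16728536) (l 16726456))) (c (l 16733424) (l 16719992))))) (a (b (a (l 3) (b (a (b (l 16735504) (l 3)) (l 7147011143)) (l 3))) (l 3)) (b (c (a (b (l 16732648) (a (l 26474377399) (l 16735328))) (b (l 16728464) (l 16742672))) (a (b (l 16729920) (l 16733784)) (b (l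 16725696) (l 16729552)))) (b (a (l 72645268615) (c (b (l 16745480) (l 46338600727)) (l 16738688))) (a (l 3) (c (l 70497786599) (l 59760363719))))))) (b (b (a (c (l 16709512) (l 16706320)) (l 16720272)) (a (c (a (l 16718696) (l 16714384)) (l 16724120)) (c (l 16707816) (l 16705096)))) (c (a (b (a (c (l 16737264) (l 16725376)) (c (l 16722448) (l 16721072))) (b (c (a (l 16732344) (l 16728024)) (l 16739376)) (a (a (l 45264857895) (l 27011242775)) (a (l 16732240) (l 16730072))))) (b (c (l 16715832) (l 16735504)) (a (c (b (l 16723624) (l 16727384)) (l 16724280)) (c (l 16721048) (l 16719888))))) (a (a (b (l 16723368) (b (l 16729176) (l 10368245687))) (b (l 16719088) (l 16737328))) (b (l 16723128) (a (l 16722528) (l 16718208)))))))), by decide +kernel⟩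

def k18_pp_012_a : ∃ t, chk3 f_pp_012_a t 29 5 1 = true :=
  ⟨(b (a (b (a (l 16670424) (l 16682816)) (c (l 16719888) (l 16695984))) (b (l 16691064) (l 16690760))) (b (a (a (c (l 16716408) (l 16713904)) (l 16706432)) (c (l 16693960) (l 16692752))) (a (a (c (b (l 16706272) (a (l 16716000) (l 16711512))) (b (l 16704032) (l 16732688))) (c (l 16721984) (a (l 16722400) (l 16718112)))) (a (a (l 16714536) (l 16689200)) (l 16703728))))), by decide +kernel⟩

def k19_pp_012_a : ∃ t, chk3 f_pp_012_a t 15 2 1 = true :=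
  ⟨(b (a (b (a (b (l 16607552) (l 16614792)) (b (l 16591008) (l 16597944))) (a (b (l 16620784) (l 16626552)) (b (l 16604000) (l 16610120)))) (b (a (b (l 16575264) (l 16581920)) (b (l 16560688) (l 16567048))) (a (b (l 16588128) (l 16594688)) (b (l 16573392) (l 16580368))))) (a (b (a (b (l 16632568) (l 16666008)) (b (l 16616984) (l 16632888))) (a (b (l 16680344) (l 16694448)) (b (a (l 16682880) (b (l 16641208) (l 16648920))) (a (l 16686240) (l 16680608))))) (b (a (b (l 16620456) (a (l 16622904) (l 16616232))) (a (b (l 16595376) (l 16609560)) (b (l 16578640) (l 16602912)))) (b (a (b (l 16630688) (l 16638328)) (b (l 16616720) (l 16623960))) (a (a (b (l 16649632) (l 16657024)) (b (l 16642400) (l 16650128))) (a (l 16638920) (l 16631504))))))), by decide +kernel⟩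

def k20_pp_012_a : ∃ t, chk3 f_pp_012_a t 28 6 1 = true :=
  ⟨(b (a (l 3) (b (a (b (a (b (c (a (l 3) (l 71034654583)) (l 75866490471)) (l 3)) (c (b (c (a (l 41506760327) (l 16734512)) (l 29695599207)) (a (l 3) (b (l 43117371943) (l 3)))) (b (l 14663212311) (l 53317911575)))) (l 3)) (b (c (a (a (b (l 16736984) (a (l 40433017383) (l 38822402471))) (b (l 16729536) (c (l 16739264) (l 16732928)))) (a (b (l 16727328) (l 16736504)) (b (l 16725104) (l 16729040)))) (a (b (l 16728448) (a (l 16738776) (l 16731368))) (l 16736600))) (b (a (a (l 3) (b (c (l 40969887447) (l 16734408)) (l 3))) (c (c (a (l 37211791335) (l 16738768)) (l 32916823367)) (c (l 16737880) (l 16731720)))) (a (l 3) (a (l 3) (c (b (l 42043628583) (l 54928526759)) (l 36674920455))))))) (l 3))) (l 3)), by decide +kernel⟩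

def k21_pp_012_a : ∃ t, chk3 f_pp_012_a t 29 12 1 = true :=
  ⟨(a (b (a (b (c (c (a (b (l 16722272) (l 16726192)) (l 16719696)) (a (l 16723224) (l 16718776))) (c (l 16741040) (l 16740136))) (c (c (a (b (a (l 16731280) (l 16729024)) (a (l 31843081271) (l 16733032))) (b (l 16725624) (l 16740120))) (a (b (l 16729192) (l 28084984391)) (l 16726760))) (a (b (l 16727832) (l 22716273671)) (l 16725536)))) (b (c (l 16733432) (l 16731936)) (c (a (c (l 16723064) (l 16722288)) (l 16718168)) (l 16740008)))) (a (b (b (a (c (a (l 59760366599) (c (l 30232472247) (l 16741432))) (c (l 28621861799) (l 16740952))) (c (c (a (l 26474371223) (l 16732552)) (l 16732872)) (l 16731744))) (a (l 3) (c (a (l 47412344743) (l 24863762759)) (l 22716281703)))) (l 3)) (a (b (c (b (l 16734016) (a (l 16739280) (l 16731800))) (l 16740008)) (b (c (a (l 44191118903) (l 16741256)) (l 6610155911)) (l 3))) (b (c (c (l 16737176) (l 16726072)) (l 16725224)) (b (c (l 16740584) (l 16731656)) (c (a (l 16738096) (l 16735944)) (l 16746520)))))))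 (b (b (a (l 16723896) (l 16694336)) (a (c (l 16732456) (l 16710520)) (l 16723440))) (b (a (c (a (l 16732440) (l 16738552)) (l 16718896)) (c (l 16711128) (l 16710648))) (a (a (c (c (l 16741256) (l 16740776)) (l 16729648)) (c (l 16736696) (l 16725496))) (a (l 16732136) (l 16728104)))))), by decide +kernel⟩

def k22_pp_012_a : ∃ t, chk3 f_pp_012_a t 29 13 1 = true :=
  ⟨(a (b (a (l 3) (a (l 3) (b (c (l 78550857927) (l 78013985447)) (l 3)))) (l 3)) (b (a (b (c (b (a (c (l 16742592) (l 16747376)) (l 16743352)) (a (l 16749416) (l 11978855351))) (a (b (l 16736304) (l 16746088)) (l 16739696))) (a (l 3) (a (l 3) (b (l 16745840) (l 3))))) (b (c (a (l 16741392) (l 16737216)) (l 16738872)) (c (a (b (l 16743056) (l 16747712)) (c (l 16742720) (l 16746440))) (a (b (l 16737296) (l 16747464)) (l 16741184))))) (a (l 3) (b (b (a (l 3) (c (c (l 16748528) (l 16743248)) (l 16743232))) (l 3)) (l 3))))), by decide +kernel⟩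

def k23_pp_012_a : ∃ t, chk3 f_pp_012_a t 14 7 1 = true :=
  ⟨(l 3), by decide +kernel⟩

def k24_pp_012_a : ∃ t, chk3 f_pp_012_a t 30 6 1 = true :=
  ⟨(b (a (b (a (l 16702240) (l 16706824)) (a (c (l 16719216) (l 16721248)) (c (l 16723520) (l 16706736)))) (b (a (l 16700832) (l 16694720)) (a (b (l 16691440) (l 16720528)) (c (l 16710968) (l 16698560))))) (a (b (b (a (c (l 16732184) (l 16731816)) (b (l 16723024) (l 16727384))) (a (c (a (l 16737672) (l 16739472)) (l 16740960)) (c (l 16734336) (l 16728520)))) (b (a (c (b (c (l 16745456) (l 16742832)) (a (a (l 16745296) (l 16748528)) (l 16745736))) (a (b (l 16739328) (l 16745552)) (l 16743240))) (c (c (l 16740792) (l 16739984)) (b (l 16740600) (l 16745256)))) (a (a (l 3) (a (b (b (l 16747648) (l 3)) (l 3)) (b (c (b (l 16743120) (l 16748192)) (l 16744224)) (c (l 25937519527) (l 28085002231))))) (a (b (c (l 16744864) (l 16749232)) (a (a (b (l 16746864) (l 3)) (b (l 16745544) (l 16747648))) (b (l 16744136) (a (l 29695612631) (l 16746064))))) (b (c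 (l 16743208) (l 16737616)) (a (b (l 16742272) (l 16745968)) (l 16742256))))))) (b (a (b (c (l 16708504) (l 16707360)) (c (l 16727504) (l 16726584))) (b (l 16722064) (l 16717400))) (a (b (c (a (l 16738048) (l 16724032)) (a (l 16726944) (l 16723272))) (c (a (c (l 16745928) (l 16747072)) (l 16743528)) (a (c (l 16746856) (l 16746592)) (l 16742976)))) (c (b (l 16729200) (b (l 16725312) (l 16740296))) (b (l 16728240) (b (l 16724544) (l 16739648)))))))), by decide +kernel⟩

def k25_pp_012_a : ∃ t, chk3 f_pp_012_a t 31 6 1 = true :=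
  ⟨(b (a (b (a (l 16688496) (b (l 16657640) (l 16664648))) (a (c (l 16704544) (l 16702240)) (b (l 16671888) (l 16679416)))) (b (a (b (l 16650464) (l 16679048)) (b (l 16642888) (l 16650688))) (a (b (l 16665240) (l 16672584)) (b (a (l 16660248) (l 16656600)) (l 16665744))))) (a (a (b (b (l 16694192) (l 16712928)) (b (c (l 16711584) (l 16710376)) (c (l 16730752) (l 16729840)))) (b (b (l 16687216) (l 16695304)) (b (l 16714168) (a (l 16714232) (l 16710504))))) (b (a (b (l 16680216) (l 16688136)) (b (l 16673208) (l 16680976))) (a (b (l 16706848) (a (l 16706776) (l 16703048))) (b (l 16699536) (a (l 16699328) (l 16695608))))))), by decide +kernel⟩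

def k26_pp_012_a : ∃ t, chk3 f_pp_012_a t 30 28 1 = true :=
  ⟨(b (b (a (a (l 3) (b (b (a (a (l 3) (l 28085001447)) (a (l 16746448) (l 16744568))) (a (l 3) (a (a (l 39896159159) (l 16747176)) (l 16745760)))) (a (l 3) (c (a (a (l 3) (l 20031939927)) (c (l 18958197047) (l 25400646471))) (a (l 16749448) (l 16747448)))))) (a (a (a (c (l 16746216) (l 16744328)) (c (l 16747968) (l 16742416))) (c (l 16745184) (l 16739560))) (a (c (l 16736232) (l 16735760)) (l 16732256)))) (a (b (a (l 3) (a (l 3) (a (l 3) (a (c (l 16810716679) (l 16750448)) (b (l 16748904) (l 22716295799)))))) (l 3)) (a (a (a (a (b (b (l 16747944) (l 16749160)) (b (l 21642555079) (l 3))) (b (l 16747600) (b (l 16749416) (a (l 16750912) (l 16750400))))) (b (l 16746176) (c (l 16750280) (l 16748464)))) (a (a (l 16748584) (l 16745008)) (l 16748824))) (a (l 16743360) (a (l 16737888) (l 16735992)))))) (a (l 3) (b (a (a (a (l 3) (a (b (b (a (l 16751160) (l 16750648)) (l 16752192)) (l 3)) (c (b (c (l 16751880) (l 16750568)) (c (l 16753104)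 (l 16752456))) (l 4999560135)))) (a (c (b (l 16751760) (a (b (l 16751432) (l 16752696)) (l 16753040))) (b (l 16748984) (l 16751464))) (a (c (l 16751544) (l 16754008)) (l 16750544)))) (a (c (l 16749536) (l 16745384)) (l 16744312))) (a (a (l 3) (b (b (c (a (a (l 3) (l 16754248)) (l 16754072)) (l 23253172839)) (a (l 3) (a (a (l 16754744) (l 31306239415)) (l 16754152)))) (a (l 3) (a (l 3) (b (c (l 16754848) (l 16753352)) (l 48486110023)))))) (b (a (c (l 16753128) (l 16749056)) (l 16750544)) (a (a (c (c (b (l 16754592) (l 9831404343)) (l 16753920)) (l 16752496)) (c (l 16755928) (l 16750544))) (l 16751024))))))), by decide +kernel⟩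

def k27_pp_012_a : ∃ t, chk3 f_pp_012_a t 30 29 1 = true :=
  ⟨(a (l 3) (a (l 3) (a (b (b (a (b (a (a (l 3) (b (l 36674950183) (l 3))) (c (c (b (l 16755280) (l 23790049207)) (l 46338625511)) (l 49559850615))) (l 3)) (b (c (c (c (l 16755504) (l 16755768)) (l 16754208)) (c (l 16758320) (l 16752944))) (a (b (a (l 42580531335) (b (l 33990595991) (l 45264885623))) (l 3)) (c (c (b (l 16755816) (a (l 33990597367) (l 24326920967))) (l 46338626711)) (b (l 16754392) (l 16755656)))))) (l 3)) (l 3)) (b (b (b (c (l 16753528) (l 16750088)) (a (c (c (c (l 16756296) (l 16756304)) (l 16754328)) (c (l 16753600) (l 16753464))) (c (l 16756992) (l 16751584)))) (b (c (a (b (c (a (a (l 28085018263) (l 25937534311)) (l 16756360)) (l 43117401911)) (a (l 46875501079) (a (a (l 37211824295) (l 33453727975)) (a (l 36138082279) (l 16755936))))) (c (l 16756352) (l 16754864))) (a (a (b (l 16755912) (l 16757200)) (b (l 16754920) (l 16756176))) (l 16754072))) (b (c (a (a (l 3) (a (l 3) (l 37211825335))) (a (a (a (l 33990599687)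 (l 33453728663)) (l 16757024)) (l 16756912))) (a (l 25400667287) (l 41506790839))) (a (l 3) (c (a (a (l 3) (a (l 40969922375) (l 31306246087))) (c (c (l 16757744) (l 16756856)) (l 49022984391))) (a (l 16757720) (l 16756712))))))) (b (b (a (l 3) (a (l 3) (b (a (l 42043665255) (b (a (l 16757632) (l 16757384)) (l 44191148743))) (l 3)))) (l 3)) (l 3)))))), by decide +kernel⟩

def k28_pp_012_a : ∃ t, chk3 f_pp_012_a t 30 15 1 = true :=
  ⟨(l 3), by decide +kernel⟩

def k29_pp_012_a : ∃ t, chk3 f_pp_012_a t 62 14 1 = true :=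
  ⟨(b (a (b (a (c (l 16741584) (l 16741008)) (c (l 16737840) (l 16726704))) (c (a (l 16745648) (l 16747072)) (a (l 16745344) (l 16736224)))) (b (a (l 16733736) (l 16729944)) (a (l 16737816) (l 16739216)))) (a (b (b (a (c (l 16752872) (l 16747416)) (l 16748896)) (b (a (c (l 16753928) (l 16751128)) (l 16747336)) (a (a (a (c (l 16756560) (l 16755096)) (l 16755536)) (l 16755376)) (l 16752432)))) (a (a (b (a (b (a (c (b (l 27011279543) (l 38822440807)) (l 31843118103)) (b (l 16757488) (b (l 38822439943) (l 42580537111)))) (l 3)) (c (b (c (l 16758736) (l 16756752)) (b (a (c (l 31306249127) (l 16758912)) (l 18958218103)) (l 40433055687))) (b (l 16756624) (b (l 16758528) (l 16759824))))) (l 3)) (b (b (c (l 16757920) (l 16755144)) (c (a (c (c (b (l 16757656) (l 16759912)) (l 10368283975)) (l 28621893799)) (l 16759936)) (c (l 42043664535) (l 36674956103)))) (b (b (c (c (a (l 31843122359) (l 16760352)) (a (l 45264893975) (l 16759200))) (a (l 16760096) (l 16759080))) (b (a (l 3) (a (l 3) (l 36674960855)))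 (l 3))) (l 3)))) (a (b (c (l 16758360) (l 16755752)) (b (c (c (c (l 16760968) (l 16760976)) (l 16759816)) (l 35601215527)) (a (b (a (l 32916866183) (b (l 16761136) (l 16761456))) (l 3)) (c (b (l 16761064) (a (l 16761960) (l 16762096))) (l 34527476887))))) (b (l 16756504) (b (l 16758960) (a (c (l 16762024) (l 16759296)) (l 16761000))))))) (a (b (c (l 16747584) (l 16747320)) (c (b (l 16754936) (c (l 16759936) (l 16759912))) (b (l 16749512) (l 16757832)))) (b (l 16744880) (b (l 16750928) (l 6)))))), by decide +kernel⟩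

def k30_pp_012_a : ∃ t, chk3 f_pp_012_a t 62 15 1 = true :=
  ⟨(b (b (a (b (a (l 3) (a (l 3) (b (a (c (b (a (l 16762560) (l 16762376)) (l 17347613591)) (l 49022993815)) (b (l 16762256) (l 6))) (l 6)))) (l 3)) (l 6)) (l 6)) (l 3)), by decide +kernel⟩

def k31_pp_012_a : ∃ t, chk3 f_pp_012_a t 63 7 1 = true :=
  ⟨(b (b (c (a (b (l 16724688) (l 16728448)) (b (l 16714560) (l 16720816))) (a (b (l 16723824) (l 16722696)) (a (l 16722792) (l 16718976)))) (a (b (c (l 16739192) (l 16740176)) (a (c (l 16749584) (l 16749400)) (l 6))) (b (a (l 16731896) (l 6)) (l 6)))) (l 6)), by decide +kernel⟩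

theorem s32_pp_012_a : ∃ t, chk3 f_pp_012_a t 62 7 1 = true := ex3_b k29_pp_012_a k30_pp_012_a

theorem s33_pp_012_a : ∃ t, chk3 f_pp_012_a t 31 7 1 = true := ex3_a s32_pp_012_a k31_pp_012_a

theorem s34_pp_012_a : ∃ t, chk3 f_pp_012_a t 30 14 1 = true := ex3_b k26_pp_012_a k27_pp_012_a

theorem s35_pp_012_a : ∃ t, chk3 f_pp_012_a t 30 7 1 = true := ex3_b s34_pp_012_a k28_pp_012_a

theorem s36_pp_012_a : ∃ t, chk3 f_pp_012_a t 15 7 1 = true := ex3_a s35_pp_012_a s33_pp_012_a

theorem s37_pp_012_a : ∃ t, chk3 f_pp_012_a t 15 6 1 = true := ex3_a k24_pp_012_a k25_pp_012_a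

theorem s38_pp_012_a : ∃ t, chk3 f_pp_012_a t 15 3 1 = true := ex3_b s37_pp_012_a s36_pp_012_a

theorem s39_pp_012_a : ∃ t, chk3 f_pp_012_a t 29 6 1 = true := ex3_b k21_pp_012_a k22_pp_012_a

theorem s40_pp_012_a : ∃ t, chk3 f_pp_012_a t 14 6 1 = true := ex3_a k20_pp_012_a s39_pp_012_a

theorem s41_pp_012_a : ∃ t, chk3 f_pp_012_a t 14 3 1 = true := ex3_b s40_pp_012_a k23_pp_012_a

theorem s42_pp_012_a : ∃ t, chk3 f_pp_012_a t 7 3 1 = true := ex3_a s41_pp_012_a s38_pp_012_a

theorem s43_pp_012_a : ∃ t, chk3 f_pp_012_a t 14 5 1 = true := ex3_a k17_pp_012_a k18_pp_012_a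

theorem s44_pp_012_a : ∃ t, chk3 f_pp_012_a t 14 2 1 = true := ex3_b k16_pp_012_a s43_pp_012_a

theorem s45_pp_012_a : ∃ t, chk3 f_pp_012_a t 7 2 1 = true := ex3_a s44_pp_012_a k19_pp_012_a

theorem s46_pp_012_a : ∃ t, chk3 f_pp_012_a t 7 1 1 = true := ex3_b s45_pp_012_a s42_pp_012_a

theorem s47_pp_012_a : ∃ t, chk3 f_pp_012_a t 27 10 1 = true := ex3_b k12_pp_012_a k13_pp_012_a

theorem s48_pp_012_a : ∃ t, chk3 f_pp_012_a t 27 5 1 = true := ex3_b s47_pp_012_a k14_pp_012_a

theorem s49_pp_012_a : ∃ t, chk3 f_pp_012_a t 13 5 1 = true := ex3_a k11_pp_012_a s48_pp_012_a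

theorem s50_pp_012_a : ∃ t, chk3 f_pp_012_a t 26 19 1 = true := ex3_a k8_pp_012_a k9_pp_012_a

theorem s51_pp_012_a : ∃ t, chk3 f_pp_012_a t 26 9 1 = true := ex3_b k7_pp_012_a s50_pp_012_a

theorem s52_pp_012_a : ∃ t, chk3 f_pp_012_a t 26 4 1 = true := ex3_b k6_pp_012_a s51_pp_012_a

theorem s53_pp_012_a : ∃ t, chk3 f_pp_012_a t 13 4 1 = true := ex3_a s52_pp_012_a k10_pp_012_a

theorem s54_pp_012_a : ∃ t, chk3 f_pp_012_a t 13 2 1 = true := ex3_b s53_pp_012_a s49_pp_012_a

theorem s55_pp_012_a : ∃ t, chk3 f_pp_012_a t 25 8 1 = true := ex3_a k2_pp_012_a k3_pp_012_a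

theorem s56_pp_012_a : ∃ t, chk3 f_pp_012_a t 25 4 1 = true := ex3_b s55_pp_012_a k4_pp_012_a

theorem s57_pp_012_a : ∃ t, chk3 f_pp_012_a t 12 4 1 = true := ex3_a k1_pp_012_a s56_pp_012_a

theorem s58_pp_012_a : ∃ t, chk3 f_pp_012_a t 12 2 1 = true := ex3_b s57_pp_012_a k5_pp_012_a

theorem s59_pp_012_a : ∃ t, chk3 f_pp_012_a t 6 2 1 = true := ex3_a s58_pp_012_a s54_pp_012_a

theorem s60_pp_012_a : ∃ t, chk3 f_pp_012_a t 6 1 1 = true := ex3_b s59_pp_012_a k15_pp_012_a

theorem s61_pp_012_a : ∃ t, chk3 f_pp_012_a t 3 1 1 = true := ex3_a s60_pp_012_a s46_pp_012_a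

theorem s62_pp_012_a : ∃ t, chk3 f_pp_012_a t 1 1 1 = true := ex3_a k0_pp_012_a s61_pp_012_a

theorem c_pp_012_a : CertB 0 536870912 0 536870912 536870912 50465866 3 eng mog cd0q0 cd2q2a pd1 false true true .pnp 0 1 2
    ndB0q0 ndB2q2a pcB1 cut_pp_012_a Ext.none :=
  certB2 (fam := false) (s1 := true) (s2 := true) (a := 0) (b := 1) (c := 2) (cn := .pnp) (n1 := ndB0q0) (n2 := ndB2q2a) (pc := pcB1) (cut := cut_pp_012_a) (xt := Ext.none) (P1 := 0) (W1 := 536870912) (P2 := 0) (W2 := 536870912) (P3 := 536870912) (W3 := 50465866) (N0 := 3) (En := eng) (mo := mog) (C1 := cd0q0) (C2 := cd2q2a) (C3 := pd1)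
    rfl (fun _ => rfl) s62_pp_012_a

noncomputable def cut_pp_012_b : Cut := Cut.of [[⟨0, 0, 0, 67108864⟩, ⟨1, 1, 0, 67108864⟩, ⟨2, 1, 0, 67108864⟩]]

noncomputable def f_pp_012_b : ℕ → ℕ → ℕ → ℕ → Bool := onCell 536870912 536870912 1239849684 370763052 536870912 50465866
    (rowB 3 eng mog cd0q0 cd2q2b pd1 2 false true true .pnp 0 1 2 (qsf 0 536870912 1239849684 370763052 1) ndB0q0 ndB2q2b pcB1 cut_pp_012_b Ext.none)

def k0_pp_012_b : ∃ t, chk3 f_pp_012_b t 2 1 1 = true :=
  ⟨(b (a (l 2) (l 3)) (l 2)), by decide +kernel⟩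

def k1_pp_012_b : ∃ t, chk3 f_pp_012_b t 12 2 1 = true :=
  ⟨(b (a (b (a (l 3) (a (b (a (b (b (b (a (l 3) (a (l 3) (b (c (l 72645322103) (l 73719057767)) (l 84456480167)))) (a (l 3) (l 102173212087))) (l 3)) (l 3)) (a (b (b (a (b (l 16760872) (l 16759328)) (l 16764560)) (l 75866547767)) (l 99488860471)) (b (c (l 16769520) (l 16764688)) (l 16764000)))) (l 3)) (b (b (a (b (l 16755840) (l 16752648)) (l 16751088)) (a (l 16748280) (l 16744856))) (b (a (l 16764336) (l 16739608)) (l 78550886887))))) (a (l 3) (a (l 3) (b (a (l 3) (l 90362033719)) (l 3))))) (b (b (a (a (b (l 16767528) (l 16739792)) (l 16757768)) (c (l 16751704) (l 16755792))) (a (a (l 16752552) (l 16724040)) (a (l 16716720) (l 16709832)))) (a (a (b (b (l 16725904) (l 16723472)) (l 81235225943)) (b (l 16715688) (l 16711864))) (b (l 16723808) (l 16717864))))) (a (l 3) (b (a (a (l 3) (b (l 16712216) (l 82308980871))) (b (l 16695824) (a (l 16705360) (l 16693496)))) (a (l 3) (b (a (l 16713296) (l 16700976)) (l 49022955319)))))), by decide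 +kernel⟩

def k2_pp_012_b : ∃ t, chk3 f_pp_012_b t 13 2 1 = true :=
  ⟨(b (b (a (a (b (a (l 16718328) (l 16712064)) (l 16720400)) (b (a (l 16705688) (l 16699208)) (a (l 16689240) (l 16682536)))) (b (a (a (l 16692704) (b (l 16690360) (l 16681480))) (b (l 16700808) (l 16691888))) (a (a (l 16675576) (l 16668496)) (a (l 16661304) (l 16654152))))) (a (b (a (l 16686232) (l 16670992)) (a (l 16677600) (l 16659192))) (a (b (a (l 16659784) (l 16652240)) (a (l 16646248) (l 16638056))) (b (a (l 16644880) (l 16637256)) (a (l 16629840) (l 16621736)))))) (a (b (a (b (l 16673776) (l 16675184)) (b (l 16652472) (l 16650888))) (a (b (l 16681856) (l 16692392)) (b (l 16655696) (l 16664672)))) (b (a (b (l 16632072) (l 16627600)) (b (a (l 16617680) (l 16608464)) (l 16615792))) (a (b (l 16629048) (l 16636160)) (b (l 16603352) (l 16607408)))))), by decide +kernel⟩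

def k3_pp_012_b : ∃ t, chk3 f_pp_012_b t 7 2 1 = true :=
  ⟨(a (b (a (b (a (b (b (l 16664800) (l 16656064)) (b (l 16647248) (l 16638584))) (b (a (l 16648504) (l 16640304)) (a (l 16631240) (l 16623048)))) (b (a (a (l 16629568) (l 16622008)) (l 16630952)) (a (l 16630288) (l 16593272)))) (b (a (b (l 16627736) (l 16610296)) (b (l 16610648) (l 16592640))) (b (a (l 16593224) (l 16575792)) (a (l 16576664) (l 16559184))))) (a (b (a (b (b (l 16598648) (l 16592112)) (l 16584128)) (b (l 16577784) (l 16564776))) (a (b (l 16578896) (l 16579488)) (b (l 16555776) (l 16552936)))) (a (b (b (l 16560544) (l 16546016)) (b (l 16534768) (l 16528032))) (b (b (l 16543072) (l 16527664)) (l 16509048))))) (b (b (a (a (b (l 16593440) (l 16574544)) (b (l 16576288) (l 16556336))) (a (b (l 16559992) (l 16538384)) (b (l 16544720) (l 16520912)))) (a (a (b (l 16557256) (l 16540968)) (b (l 16538248) (l 16521656))) (a (b (l 16519128) (l 16501848)) (b (l 16500264) (l 16481896))))) (b (a (b (l 16578104) (l 16541744)) (b (l 16517616)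 (l 16501904))) (a (b (l 16484304) (l 16472240)) (b (l 16445560) (l 16432120)))))), by decide +kernel⟩

def k4_pp_012_b : ∃ t, chk3 f_pp_012_b t 3 3 1 = true :=
  ⟨(a (a (l 2) (b (a (b (b (a (l 16705152) (l 16677784)) (l 2)) (l 2)) (b (a (b (l 16647936) (l 16663280)) (b (l 16617384) (l 16631688))) (a (l 2) (b (l 16650264) (l 2))))) (l 2))) (a (b (a (b (a (b (l 16586424) (l 16599472)) (b (l 16556464) (l 16566656))) (a (b (l 16617376) (l 2)) (b (l 16582488) (l 16603520)))) (b (a (l 16550416) (l 16500416)) (a (a (l 16565168) (l 16546968)) (l 16519944)))) (a (l 2) (b (a (l 105863895319) (l 16563816)) (l 2)))) (b (b (a (b (l 16463360) (l 16459112)) (b (l 16418192) (l 16408400))) (a (a (l 16483864) (l 16449648)) (a (l 16417968) (l 16388712)))) (b (a (b (l 16491592) (l 16515808)) (b (l 16413896) (l 16432888))) (a (l 16563080) (l 16471104)))))), by decide +kernel⟩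

theorem s5_pp_012_b : ∃ t, chk3 f_pp_012_b t 6 2 1 = true := ex3_a k1_pp_012_b k2_pp_012_b

theorem s6_pp_012_b : ∃ t, chk3 f_pp_012_b t 3 2 1 = true := ex3_a s5_pp_012_b k3_pp_012_b

theorem s7_pp_012_b : ∃ t, chk3 f_pp_012_b t 3 1 1 = true := ex3_b s6_pp_012_b k4_pp_012_b

theorem s8_pp_012_b : ∃ t, chk3 f_pp_012_b t 1 1 1 = true := ex3_a k0_pp_012_b s7_pp_012_b

theorem c_pp_012_b : CertB 0 536870912 1239849684 370763052 536870912 50465866 3 eng mog cd0q0 cd2q2b pd1 false true true .pnp 0 1 2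
    ndB0q0 ndB2q2b pcB1 cut_pp_012_b Ext.none :=
  certB2 (fam := false) (s1 := true) (s2 := true) (a := 0) (b := 1) (c := 2) (cn := .pnp) (n1 := ndB0q0) (n2 := ndB2q2b) (pc := pcB1) (cut := cut_pp_012_b) (xt := Ext.none) (P1 := 0) (W1 := 536870912) (P2 := 1239849684) (W2 := 370763052) (P3 := 536870912) (W3 := 50465866) (N0 := 3) (En := eng) (mo := mog) (C1 := cd0q0) (C2 := cd2q2b) (C3 := pd1)
    rfl (fun _ => rfl) s8_pp_012_b

noncomputable def cut_pp_022_a : Cut := Cut.of [[⟨0, 0, 0, 67108864⟩, ⟨1, 1, 0, 67108864⟩, ⟨2, 1, 0, 67108864⟩]]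

noncomputable def f_pp_022_a : ℕ → ℕ → ℕ → ℕ → Bool := onCell 1073741824 536870912 0 536870912 536870912 50465866
    (rowB 3 eng mog cd0q0 cd2q2a pd2 2 false true true .pp 0 2 2 (qsf 0 536870912 0 536870912 2) ndB0q0 ndB2q2a pcB2 cut_pp_022_a Ext.none)

def k0_pp_022_a : ∃ t, chk3 f_pp_022_a t 4 2 1 = true :=
  ⟨(a (b (b (a (c (l 16610152) (l 16606976)) (l 16585912)) (a (b (l 16617000) (l 16618512)) (c (l 16580128) (l 16560800)))) (a (a (b (b (l 16597952) (l 16589336)) (b (l 16615144) (a (l 16617784) (l 16634320)))) (b (b (l 16569240) (l 16602064)) (b (l 16614200) (c (l 16607040) (l 16605216))))) (a (b (b (l 16544816) (l 16571952)) (b (l 16583584) (l 16616936))) (b (b (b (l 16548096) (l 16554072)) (l 16562144)) (b (l 16573320) (l 16585168)))))) (b (b (a (l 16567320) (l 16556144)) (a (a (l 16619504) (c (l 16513352) (l 16516064))) (c (l 16602464) (b (l 16496448) (l 16504648))))) (b (b (a (a (l 16541160) (l 16530760)) (c (l 16577344) (l 16513872))) (a (a (l 16551808) (l 16541040)) (a (l 16529928)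 (l 16518520)))) (a (b (a (l 16562544) (l 16551312)) (a (l 16573856) (l 16562072))) (a (b (l 16539712) (l 16549872)) (b (l 16527768) (l 16537280))))))), by decide +kernel⟩

def k1_pp_022_a : ∃ t, chk3 f_pp_022_a t 8 3 1 = true :=
  ⟨(b (a (a (a (b (b (l 16643032) (l 16658784)) (b (b (l 16660680) (l 16669288)) (c (l 16693680) (l 16693296)))) (b (b (b (l 16623968) (l 16631408)) (b (l 16639080) (l 16667960))) (b (l 16659392) (l 16687136)))) (b (b (c (l 16641800) (l 16619176)) (c (l 16656456) (l 16655032))) (b (b (l 16646424) (l 16659728)) (a (l 16670320) (b (l 16659536) (l 16667936)))))) (b (b (a (l 16630168) (l 16597776)) (a (a (l 16626168) (l 16620280)) (l 16632096))) (b (a (a (l 16641240) (l 16634936)) (a (l 16628448) (l 16621792))) (a (a (l 16667616) (l 16671312)) (a (b (l 16639496) (l 16647112)) (b (l 16632472) (l 16639816))))))) (a (b (b (a (a (b (l 16699936) (b (l 16704128) (l 6))) (c (l 16715872) (l 16715760))) (a (b (l 16683440) (l 16692512)) (b (l 16676528) (c (l 16685760) (l 16684704)))))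 (l 6)) (l 6)) (b (b (a (b (a (l 16669480) (l 16662272)) (b (a (l 16675816) (l 16668376)) (l 6))) (a (b (l 16654864) (b (l 16660744) (l 6))) (b (a (l 16649184) (l 16645344)) (b (a (l 16654880) (l 16650920)) (a (l 6) (l 16654680)))))) (a (l 6) (a (l 6) (a (l 6) (l 1))))) (a (l 6) (l 1))))), by decide +kernel⟩

def k2_pp_022_a : ∃ t, chk3 f_pp_022_a t 9 3 1 = true :=
  ⟨(b (b (a (b (a (l 16585840) (l 16573392)) (a (l 16598432) (a (l 16588536) (l 16581792)))) (b (a (l 16560480) (l 16568072)) (a (a (l 16574896) (l 16567872)) (l 1)))) (a (b (a (a (l 16615016) (l 16608072)) (a (b (l 16597760) (l 16604072)) (b (l 16590656) (l 16596688)))) (a (a (b (l 16625312) (l 16632368)) (b (l 16617968) (c (l 16626856) (l 16622192)))) (b (a (l 16610448) (l 1)) (l 1)))) (b (a (a (l 16586320) (l 1)) (l 1)) (l 1)))) (b (b (a (a (b (a (b (l 16637696) (l 16641288)) (l 16631544)) (a (b (l 16644888) (l 1)) (l 1))) (l 1)) (l 1)) (l 1)) (l 1))), by decide +kernel⟩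

def k3_pp_022_a : ∃ t, chk3 f_pp_022_a t 5 1 1 = true :=
  ⟨(b (a (b (a (a (b (l 16470896) (a (l 16612248) (l 16606872))) (a (b (l 16463664) (l 16611944)) (a (b (l 16460048) (l 16597384)) (b (b (l 16456328) (l 16542728)) (b (l 16590544) (l 1)))))) (b (l 1) (l 1))) (a (a (b (b (l 16497832) (l 16506808)) (b (l 16515472) (l 16524272))) (a (b (b (l 16489248) (l 16497840)) (l 1)) (l 1))) (l 1))) (l 1)) (b (l 1) (l 1))), by decide +kernel⟩

def k4_pp_022_a : ∃ t, chk3 f_pp_022_a t 3 1 1 = true :=
  ⟨(l 1), by decide +kernel⟩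

theorem s5_pp_022_a : ∃ t, chk3 f_pp_022_a t 4 3 1 = true := ex3_a k1_pp_022_a k2_pp_022_a

theorem s6_pp_022_a : ∃ t, chk3 f_pp_022_a t 4 1 1 = true := ex3_b k0_pp_022_a s5_pp_022_a

theorem s7_pp_022_a : ∃ t, chk3 f_pp_022_a t 2 1 1 = true := ex3_a s6_pp_022_a k3_pp_022_a

theorem s8_pp_022_a : ∃ t, chk3 f_pp_022_a t 1 1 1 = true := ex3_a s7_pp_022_a k4_pp_022_a

theorem c_pp_022_a : CertB 0 536870912 0 536870912 536870912 50465866 3 eng mog cd0q0 cd2q2a pd2 false true true .pp 0 2 2
    ndB0q0 ndB2q2a pcB2 cut_pp_022_a Ext.none :=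
  certB2 (fam := false) (s1 := true) (s2 := true) (a := 0) (b := 2) (c := 2) (cn := .pp) (n1 := ndB0q0) (n2 := ndB2q2a) (pc := pcB2) (cut := cut_pp_022_a) (xt := Ext.none) (P1 := 0) (W1 := 536870912) (P2 := 0) (W2 := 536870912) (P3 := 536870912) (W3 := 50465866) (N0 := 3) (En := eng) (mo := mog) (C1 := cd0q0) (C2 := cd2q2a) (C3 := pd2)
    rfl (fun _ => rfl) s8_pp_022_a

noncomputable def cut_pp_022_b : Cut := Cut.of [[⟨0, 0, 0, 67108864⟩, ⟨1, 1, 0, 67108864⟩, ⟨2, 1, 0, 67108864⟩]]

noncomputable def f_pp_022_b : ℕ → ℕ → ℕ → ℕ → Bool := onCell 0 536870912 1073741824 536870912 536870912 50465866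
    (rowB 3 eng mog cd0q0 cd2q2b pd2 1 false true true .pp 0 2 2 (qsf 0 536870912 1239849684 370763052 2) ndB0q0 ndB2q2b pcB2 cut_pp_022_b Ext.none)

def k0_pp_022_b : ∃ t, chk3 f_pp_022_b t 1 1 1 = true :=
  ⟨(a (b (b (a (b (a (l 1) (b (a (l 1) (b (l 1) (l 16617280))) (a (a (l 1) (l 16623416)) (l 16600048)))) (b (a (a (l 1) (a (l 1) (l 16610704))) (a (l 16581112) (l 16492952))) (a (a (a (l 1) (l 52109687351)) (l 29561060759)) (a (l 16475152) (l 16386464))))) (b (a (b (a (b (l 16574680) (l 16522184)) (l 16546816)) (a (l 16516664) (l 16439216))) (b (a (l 16510000) (l 16442560)) (b (l 16517816) (l 16490632)))) (a (b (l 16498568) (l 16415424)) (a (b (l 16355344) (l 16299472)) (l 16460240))))) (a (b (b (a (a (l 27950428023) (l 16457616)) (l 16451528)) (a (a (c (l 16508440) (l 16565648)) (l 16469352)) (b (l 16347480) (l 16296240)))) (a (b (a (l 16372264) (l 16338584)) (l 16354528)) (a (l 16319128) (l 16266816)))) (b (a (b (l 16332360) (l 16334784)) (b (l 16259056) (l 16279448))) (a (b (l 16212432)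 (l 16220184)) (l 16172784))))) (b (a (a (b (a (l 16322168) (l 16305080)) (a (l 16307336) (l 16298784))) (b (l 16277976) (l 16283920))) (a (b (l 16236832) (l 16259136)) (b (l 16181888) (l 16238080)))) (b (a (a (l 16303744) (l 16293872)) (l 16363208)) (a (b (l 16312664) (a (l 16334040) (l 2))) (l 2))))) (b (b (a (b (a (b (a (l 16421080) (l 16401360)) (a (l 16373392) (l 16357120))) (a (l 16466152) (l 16388272))) (a (b (l 16423272) (l 16315416)) (b (l 16292912) (l 16254520)))) (b (a (b (l 16378064) (l 16323808)) (a (l 16371392) (l 16415064))) (a (b (l 16291544) (l 16260608)) (l 16395416)))) (a (b (a (b (l 16229336) (l 16266040)) (b (l 16217320) (l 16178496))) (a (l 16090288) (l 16215944))) (b (a (b (l 16231280) (l 2)) (l 2)) (l 2)))) (b (a (a (l 16299400) (l 2)) (l 2)) (l 2)))), by decide +kernel⟩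

theorem c_pp_022_b : CertB 0 536870912 1239849684 370763052 536870912 50465866 3 eng mog cd0q0 cd2q2b pd2 false true true .pp 0 2 2
    ndB0q0 ndB2q2b pcB2 cut_pp_022_b Ext.none :=
  certB1 (fam := false) (s1 := true) (s2 := true) (a := 0) (b := 2) (c := 2) (cn := .pp) (n1 := ndB0q0) (n2 := ndB2q2b) (pc := pcB2) (cut := cut_pp_022_b) (xt := Ext.none) (P1 := 0) (W1 := 536870912) (P2 := 1239849684) (W2 := 370763052) (P3 := 536870912) (W3 := 50465866) (N0 := 3) (En := eng) (mo := mog) (C1 := cd0q0) (C2 := cd2q2b) (C3 := pd2)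
    rfl (fun _ => rfl) k0_pp_022_b

noncomputable def f_pp_023 : ℕ → ℕ → ℕ → ℕ → Bool := onCell 0 536870912 1073741824 536870912 536870912 50465866
    (rowB 3 eng mog cd0q0 cd2q3 pd2 1 false true true .up 0 2 3 (qsf 0 536870912 1610612736 536870912 2) ndB0q0 ndB2q3 pcB2 Cut.none Ext.none)

def k0_pp_023 : ∃ t, chk3 f_pp_023 t 1 1 1 = true :=
  ⟨(a (b (b (l 1) (a (l 1) (b (l 1) (a (l 1) (l 16264768))))) (b (a (a (l 1) (l 222297616599)) (a (l 192232227111) (l 16325856))) (b (a (l 285111468119) (l 16338000)) (a (b (l 16271728) (l 16301728)) (a (l 16438856) (l 16540400)))))) (b (b (a (b (l 1) (a (l 1) (l 160020364791))) (a (b (l 178810926999) (l 177737090007)) (b (l 213170761495) (l 16435624)))) (a (b (a (l 260415225895) (b (l 16245416) (l 16217376))) (a (l 16127920) (l 16231104))) (b (a (b (l 16280048) (l 16333008)) (b (b (l 16483088) (b (l 16496152) (l 16504624))) (l 16528008))) (a (l 16434912) (l 16582704))))) (b (a (a (l 16314920) (l 16474320)) (a (l 16586024) (l 16665840))) (a (b (l 16577760)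 (l 16647856)) (b (l 16697352) (l 16722344)))))), by decide +kernel⟩

theorem c_pp_023 : CertB 0 536870912 1610612736 536870912 536870912 50465866 3 eng mog cd0q0 cd2q3 pd2 false true true .up 0 2 3
    ndB0q0 ndB2q3 pcB2 Cut.none Ext.none :=
  certB1 (fam := false) (s1 := true) (s2 := true) (a := 0) (b := 2) (c := 3) (cn := .up) (n1 := ndB0q0) (n2 := ndB2q3) (pc := pcB2) (cut := Cut.none) (xt := Ext.none) (P1 := 0) (W1 := 536870912) (P2 := 1610612736) (W2 := 536870912) (P3 := 536870912) (W3 := 50465866) (N0 := 3) (En := eng) (mo := mog) (C1 := cd0q0) (C2 := cd2q3) (C3 := pd2)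
    rfl (fun _ => rfl) k0_pp_023

noncomputable def f_pp_033 : ℕ → ℕ → ℕ → ℕ → Bool := onCell 0 536870912 1610612736 536870912 536870912 50465866
    (rowB 3 eng mog cd0q0 cd2q3 pd3 1 false true true .pnn 0 3 3 (qsf 0 536870912 1610612736 536870912 3) ndB0q0 ndB2q3 pcB3 Cut.none Ext.none)

def k0_pp_033 : ∃ t, chk3 f_pp_033 t 1 1 1 = true :=
  ⟨(a (b (b (b (a (a (l 16414328) (l 16497192)) (l 16791224)) (a (a (l 16518824) (l 16579560)) (l 16653024))) (a (b (l 16628992) (b (l 16676032) (l 16698464))) (b (l 16690032) (l 16713488)))) (b (l 4) (a (l 4) (a (b (l 4) (l 2)) (l 2))))) (b (a (b (b (l 16695496) (l 16714416)) (b (l 16729312) (l 16737016))) (b (b (l 16741648) (l 16755952)) (a (b (l 16755168) (l 2)) (l 2)))) (a (b (a (b (l 4) (l 2)) (l 2)) (l 2)) (l 2)))), by decide +kernel⟩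

theorem c_pp_033 : CertB 0 536870912 1610612736 536870912 536870912 50465866 3 eng mog cd0q0 cd2q3 pd3 false true true .pnn 0 3 3
    ndB0q0 ndB2q3 pcB3 Cut.none Ext.none :=
  certB1 (fam := false) (s1 := true) (s2 := true) (a := 0) (b := 3) (c := 3) (cn := .pnn) (n1 := ndB0q0) (n2 := ndB2q3) (pc := pcB3) (cut := Cut.none) (xt := Ext.none) (P1 := 0) (W1 := 536870912) (P2 := 1610612736) (W2 := 536870912) (P3 := 536870912) (W3 := 50465866) (N0 := 3) (En := eng) (mo := mog) (C1 := cd0q0) (C2 := cd2q3) (C3 := pd3)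
    rfl (fun _ => rfl) k0_pp_033

noncomputable def f_pp_101 : ℕ → ℕ → ℕ → ℕ → Bool := onCell 536870912 536870912 536870912 536870912 536870912 50465866
    (rowB 3 eng mog cd0q1 cd2q1 pd0 0 false true true .npn 1 0 1 (qsf 536870912 536870912 536870912 536870912 0) ndB0q1 ndB2q1 pcB0 Cut.none Ext.none)

def k0_pp_101 : ∃ t, chk3 f_pp_101 t 1 1 1 = true :=
  ⟨(l 3), by decide +kernel⟩

theorem c_pp_101 : CertB 536870912 536870912 536870912 536870912 536870912 50465866 3 eng mog cd0q1 cd2q1 pd0 false true true .npn 1 0 1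
    ndB0q1 ndB2q1 pcB0 Cut.none Ext.none :=
  certB0 (fam := false) (s1 := true) (s2 := true) (a := 1) (b := 0) (c := 1) (cn := .npn) (n1 := ndB0q1) (n2 := ndB2q1) (pc := pcB0) (cut := Cut.none) (xt := Ext.none) (P1 := 536870912) (W1 := 536870912) (P2 := 536870912) (W2 := 536870912) (P3 := 536870912) (W3 := 50465866) (N0 := 3) (En := eng) (mo := mog) (C1 := cd0q1) (C2 := cd2q1) (C3 := pd0)
    rfl k0_pp_101

noncomputable def f_pp_102_a : ℕ → ℕ → ℕ → ℕ → Bool := onCell 536870912 536870912 0 536870912 536870912 50465866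
    (rowB 3 eng mog cd0q1 cd2q2a pd0 0 false true true .npp 1 0 2 (qsf 536870912 536870912 0 536870912 0) ndB0q1 ndB2q2a pcB0 Cut.none Ext.none)

def k0_pp_102_a : ∃ t, chk3 f_pp_102_a t 1 1 1 = true :=
  ⟨(a (l 3) (l 3)), by decide +kernel⟩

theorem c_pp_102_a : CertB 536870912 536870912 0 536870912 536870912 50465866 3 eng mog cd0q1 cd2q2a pd0 false true true .npp 1 0 2
    ndB0q1 ndB2q2a pcB0 Cut.none Ext.none :=
  certB0 (fam := false) (s1 := true) (s2 := true) (a := 1) (b := 0) (c := 2) (cn := .npp) (n1 := ndB0q1) (n2 := ndB2q2a) (pc := pcB0) (cut := Cut.none) (xt := Ext.none) (P1 := 536870912) (W1 := 536870912) (P2 := 0) (W2 := 536870912) (P3 := 536870912) (W3 := 50465866) (N0 := 3) (En := eng) (mo := mog) (C1 := cd0q1) (C2 := cd2q2a) (C3 := pd0)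
    rfl k0_pp_102_a

noncomputable def f_pp_102_b : ℕ → ℕ → ℕ → ℕ → Bool := onCell 536870912 536870912 0 536870912 536870912 50465866
    (rowB 3 eng mog cd0q1 cd2q2b pd0 1 false true true .npp 1 0 2 (qsf 536870912 536870912 1239849684 370763052 0) ndB0q1 ndB2q2b pcB0 Cut.none Ext.none)

def k0_pp_102_b : ∃ t, chk3 f_pp_102_b t 1 1 1 = true :=
  ⟨(l 3), by decide +kernel⟩

theorem c_pp_102_b : CertB 536870912 536870912 1239849684 370763052 536870912 50465866 3 eng mog cd0q1 cd2q2b pd0 false true true .npp 1 0 2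
    ndB0q1 ndB2q2b pcB0 Cut.none Ext.none :=
  certB1 (fam := false) (s1 := true) (s2 := true) (a := 1) (b := 0) (c := 2) (cn := .npp) (n1 := ndB0q1) (n2 := ndB2q2b) (pc := pcB0) (cut := Cut.none) (xt := Ext.none) (P1 := 536870912) (W1 := 536870912) (P2 := 1239849684) (W2 := 370763052) (P3 := 536870912) (W3 := 50465866) (N0 := 3) (En := eng) (mo := mog) (C1 := cd0q1) (C2 := cd2q2b) (C3 := pd0)
    rfl (fun _ => rfl) k0_pp_102_b

noncomputable def f_pp_112_a : ℕ → ℕ → ℕ → ℕ → Bool := onCell 536870912 536870912 0 536870912 536870912 50465866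
    (rowB 3 eng mog cd0q1 cd2q2a pd1 0 false true true .dn 1 1 2 (qsf 536870912 536870912 0 536870912 1) ndB0q1 ndB2q2a pcB1 Cut.none Ext.none)

def k0_pp_112_a : ∃ t, chk3 f_pp_112_a t 1 1 1 = true :=
  ⟨(a (l 3) (l 1)), by decide +kernel⟩

theorem c_pp_112_a : CertB 536870912 536870912 0 536870912 536870912 50465866 3 eng mog cd0q1 cd2q2a pd1 false true true .dn 1 1 2
    ndB0q1 ndB2q2a pcB1 Cut.none Ext.none :=
  certB0 (fam := false) (s1 := true) (s2 := true) (a := 1) (b := 1) (c := 2) (cn := .dn) (n1 := ndB0q1) (n2 := ndB2q2a) (pc := pcB1) (cut := Cut.none) (xt := Ext.none) (P1 := 536870912) (W1 := 536870912) (P2 := 0) (W2 := 536870912) (P3 := 536870912) (W3 := 50465866) (N0 := 3) (En := eng) (mo := mog) (C1 := cd0q1) (C2 := cd2q2a) (C3 := pd1)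
    rfl k0_pp_112_a

noncomputable def f_pp_112_b : ℕ → ℕ → ℕ → ℕ → Bool := onCell 536870912 536870912 536870912 536870912 536870912 50465866
    (rowB 3 eng mog cd0q1 cd2q2b pd1 1 false true true .dn 1 1 2 (qsf 536870912 536870912 1239849684 370763052 1) ndB0q1 ndB2q2b pcB1 Cut.none Ext.none)

def k0_pp_112_b : ∃ t, chk3 f_pp_112_b t 1 1 1 = true :=
  ⟨(b (a (l 3) (l 3)) (a (b (a (b (a (b (l 3) (b (l 3) (a (l 58149758919) (l 3)))) (l 3)) (a (b (a (b (l 16703696) (l 16686936)) (b (l 16727360) (l 16713944))) (a (b (l 16669536) (l 16651712)) (l 16692496))) (b (a (b (l 103783842327) (l 58686672839)) (b (l 3) (l 143512356599))) (a (b (l 16742008) (l 16731608)) (b (a (l 16782832) (l 16808520)) (l 16786584)))))) (b (l 3) (b (l 3) (a (a (b (a (l 79624784951) (l 127406325159)) (b (l 53250982471) (l 37681798631))) (b (l 3) (l 2))) (l 2))))) (a (b (a (a (b (a (l 16616632) (l 16633200)) (l 16587024)) (b (l 16662920) (l 16632592))) (b (a (l 16716408) (a (l 16739480) (l 16766080))) (a (l 16699696) (a (l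 16746392) (l 2))))) (a (a (l 16528192) (l 16597080)) (b (b (l 16784864) (l 2)) (l 2)))) (b (b (a (a (b (l 27481265239) (l 2)) (l 2)) (l 2)) (l 2)) (l 2)))) (b (a (l 3) (l 2)) (l 2)))), by decide +kernel⟩

theorem c_pp_112_b : CertB 536870912 536870912 1239849684 370763052 536870912 50465866 3 eng mog cd0q1 cd2q2b pd1 false true true .dn 1 1 2
    ndB0q1 ndB2q2b pcB1 Cut.none Ext.none :=
  certB1 (fam := false) (s1 := true) (s2 := true) (a := 1) (b := 1) (c := 2) (cn := .dn) (n1 := ndB0q1) (n2 := ndB2q2b) (pc := pcB1) (cut := Cut.none) (xt := Ext.none) (P1 := 536870912) (W1 := 536870912) (P2 := 1239849684) (W2 := 370763052) (P3 := 536870912) (W3 := 50465866) (N0 := 3) (En := eng) (mo := mog) (C1 := cd0q1) (C2 := cd2q2b) (C3 := pd1)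
    rfl (fun _ => rfl) k0_pp_112_b

noncomputable def cut_pp_113 : Cut := Cut.of [[⟨0, 1, 0, 67108864⟩, ⟨1, 1, 0, 67108864⟩, ⟨2, 2, 0, 16777216⟩]]

noncomputable def f_pp_113 : ℕ → ℕ → ℕ → ℕ → Bool := onCell 536870912 536870912 536870912 536870912 536870912 50465866
    (rowB 3 eng mog cd0q1 cd2q3 pd1 1 false true true .nn 1 1 3 (qsf 536870912 536870912 1610612736 536870912 1) ndB0q1 ndB2q3 pcB1 cut_pp_113 Ext.none)

def k0_pp_113 : ∃ t, chk3 f_pp_113 t 1 1 1 = true :=
  ⟨(b (a (l 3) (l 3)) (a (b (a (b (l 1) (a (l 1) (b (l 1) (a (l 1) (l 144451845607))))) (b (l 3) (b (l 3) (a (a (b (l 130090687383) (l 16869168)) (b (l 3) (l 16919576))) (b (l 3) (l 162839885047)))))) (a (b (a (b (l 1) (l 191696257607)) (b (a (l 16743336) (l 16806952)) (b (l 16749824) (l 16745696)))) (a (b (l 77342683287) (l 16587160)) (b (a (l 16726176) (l 16789408)) (l 16751008)))) (b (b (a (a (l 16838600) (l 16885624)) (b (a (l 16950992) (l 16977736)) (l 16941872))) (a (a (l 16848952) (l 16892800)) (a (l 16927480) (l 16948272))))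 (a (b (b (l 16928648) (l 16860272)) (l 16852136)) (b (b (l 16927872) (l 16920248)) (l 16908800)))))) (b (a (l 3) (l 3)) (a (b (a (b (a (l 145123325111) (l 3)) (a (l 16955160) (b (l 16960704) (l 16947632)))) (b (l 3) (a (b (l 16960432) (l 16945088)) (l 154250087415)))) (a (b (a (l 16934712) (l 16930872)) (a (l 16916608) (l 16911104))) (b (a (l 16925856) (b (l 16928776) (l 16914816))) (a (l 16903712) (l 16895720))))) (b (l 3) (a (b (a (b (l 135459531255) (l 167671721687)) (b (l 3) (l 260013435527))) (a (b (l 16891680) (l 16877376)) (b (l 16873976) (l 16857736)))) (b (l 3) (a (b (a (l 147807470631) (l 441475790983)) (a (l 16838304) (l 16823968))) (b (l 3) (a (b (a (l 150491728023) (l 467245530503)) (l 16804672)) (b (l 3) (a (b (a (l 151565419815) (l 480667270951)) (l 16791008)) (b (l 3) (l 6)))))))))))))), by decide +kernel⟩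

theorem c_pp_113 : CertB 536870912 536870912 1610612736 536870912 536870912 50465866 3 eng mog cd0q1 cd2q3 pd1 false true true .nn 1 1 3
    ndB0q1 ndB2q3 pcB1 cut_pp_113 Ext.none :=
  certB1 (fam := false) (s1 := true) (s2 := true) (a := 1) (b := 1) (c := 3) (cn := .nn) (n1 := ndB0q1) (n2 := ndB2q3) (pc := pcB1) (cut := cut_pp_113) (xt := Ext.none) (P1 := 536870912) (W1 := 536870912) (P2 := 1610612736) (W2 := 536870912) (P3 := 536870912) (W3 := 50465866) (N0 := 3) (En := eng) (mo := mog) (C1 := cd0q1) (C2 := cd2q3) (C3 := pd1)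
    rfl (fun _ => rfl) k0_pp_113

noncomputable def cut_pp_123 : Cut := Cut.of [[⟨0, 1, 0, 67108864⟩, ⟨1, 1, 0, 67108864⟩, ⟨2, 2, 0, 16777216⟩]]

noncomputable def f_pp_123 : ℕ → ℕ → ℕ → ℕ → Bool := onCell 536870912 536870912 1073741824 536870912 536870912 50465866
    (rowB 3 eng mog cd0q1 cd2q3 pd2 1 false true true .npn 1 2 3 (qsf 536870912 536870912 1610612736 536870912 2) ndB0q1 ndB2q3 pcB2 cut_pp_123 Ext.none)

def k0_pp_123 : ∃ t, chk3 f_pp_123 t 1 1 1 = true :=
  ⟨(a (b (b (a (a (b (l 16594824) (l 16621384)) (b (l 16843480) (l 16727872))) (a (b (b (l 16835072) (l 16815352)) (l 16789152)) (b (l 16870448) (l 16817408)))) (a (b (b (a (b (l 16636296) (l 16641992)) (b (l 16722880) (l 16721392))) (a (l 16652456) (l 16721296))) (a (l 16676480) (l 16726872))) (b (b (a (b (l 16770352) (l 16763856)) (l 16868360)) (a (l 16756832) (l 16768120))) (a (l 16750832) (l 16756384))))) (a (b (a (l 16714872) (l 16739448)) (b (l 16745320) (l 16750576))) (b (a (l 16747672) (l 16737480)) (a (b (l 16741136)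 (l 2)) (l 2))))) (b (a (b (b (a (l 17016536) (b (l 16869360) (l 16835200))) (a (l 16810048) (l 16810344))) (b (a (b (l 16984240) (l 16758736)) (b (l 16755984) (l 16738832))) (a (l 16744248) (l 16669000)))) (b (b (a (a (l 16916968) (l 16813336)) (b (a (l 16804736) (b (b (a (l 16795736) (a (l 16773992) (l 6))) (l 323833834855)) (l 342624319095))) (a (l 16769808) (l 386110872391)))) (a (l 16815432) (l 357120173687))) (a (b (b (l 81705386711) (l 2)) (l 2)) (l 2)))) (a (b (a (b (l 16724552) (l 2)) (l 2)) (l 2)) (l 2)))), by decide +kernel⟩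

theorem c_pp_123 : CertB 536870912 536870912 1610612736 536870912 536870912 50465866 3 eng mog cd0q1 cd2q3 pd2 false true true .npn 1 2 3
    ndB0q1 ndB2q3 pcB2 cut_pp_123 Ext.none :=
  certB1 (fam := false) (s1 := true) (s2 := true) (a := 1) (b := 2) (c := 3) (cn := .npn) (n1 := ndB0q1) (n2 := ndB2q3) (pc := pcB2) (cut := cut_pp_123) (xt := Ext.none) (P1 := 536870912) (W1 := 536870912) (P2 := 1610612736) (W2 := 536870912) (P3 := 536870912) (W3 := 50465866) (N0 := 3) (En := eng) (mo := mog) (C1 := cd0q1) (C2 := cd2q3) (C3 := pd2)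
    rfl (fun _ => rfl) k0_pp_123

noncomputable def f_pp_133 : ℕ → ℕ → ℕ → ℕ → Bool := onCell 1610612736 536870912 1610612736 536870912 536870912 50465866
    (rowB 3 eng mog cd0q1 cd2q3 pd3 2 false true true .dn 1 3 3 (qsf 536870912 536870912 1610612736 536870912 3) ndB0q1 ndB2q3 pcB3 Cut.none Ext.none)

def k0_pp_133 : ∃ t, chk3 f_pp_133 t 1 1 1 = true :=
  ⟨(a (b (l 1) (a (b (l 1) (a (l 497176428247) (l 1))) (l 1))) (l 1)), by decide +kernel⟩

theorem c_pp_133 : CertB 536870912 536870912 1610612736 536870912 536870912 50465866 3 eng mog cd0q1 cd2q3 pd3 false true true .dn 1 3 3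
    ndB0q1 ndB2q3 pcB3 Cut.none Ext.none :=
  certB2 (fam := false) (s1 := true) (s2 := true) (a := 1) (b := 3) (c := 3) (cn := .dn) (n1 := ndB0q1) (n2 := ndB2q3) (pc := pcB3) (cut := Cut.none) (xt := Ext.none) (P1 := 536870912) (W1 := 536870912) (P2 := 1610612736) (W2 := 536870912) (P3 := 536870912) (W3 := 50465866) (N0 := 3) (En := eng) (mo := mog) (C1 := cd0q1) (C2 := cd2q3) (C3 := pd3)
    rfl (fun _ => rfl) k0_pp_133

noncomputable def f_pp_202_a : ℕ → ℕ → ℕ → ℕ → Bool := onCell 0 536870912 0 536870912 536870912 50465866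
    (rowB 3 eng mog cd0q2 cd2q2a pd0 0 false true true .pp 2 0 2 (qsf 0 536870912 0 536870912 0) ndB0q2 ndB2q2a pcB0 Cut.none Ext.none)

def k0_pp_202_a : ∃ t, chk3 f_pp_202_a t 1 1 1 = true :=
  ⟨(l 3), by decide +kernel⟩

theorem c_pp_202_a : CertB 0 536870912 0 536870912 536870912 50465866 3 eng mog cd0q2 cd2q2a pd0 false true true .pp 2 0 2
    ndB0q2 ndB2q2a pcB0 Cut.none Ext.none :=
  certB0 (fam := false) (s1 := true) (s2 := true) (a := 2) (b := 0) (c := 2) (cn := .pp) (n1 := ndB0q2) (n2 := ndB2q2a) (pc := pcB0) (cut := Cut.none) (xt := Ext.none) (P1 := 0) (W1 := 536870912) (P2 := 0) (W2 := 536870912) (P3 := 536870912) (W3 := 50465866) (N0 := 3) (En := eng) (mo := mog) (C1 := cd0q2) (C2 := cd2q2a) (C3 := pd0)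
    rfl k0_pp_202_a

noncomputable def f_pp_202_b : ℕ → ℕ → ℕ → ℕ → Bool := onCell 0 536870912 1239849684 370763052 536870912 50465866
    (rowB 3 eng mog cd0q2 cd2q2b pd0 0 false true true .pp 2 0 2 (qsf 0 536870912 1239849684 370763052 0) ndB0q2 ndB2q2b pcB0 Cut.none Ext.none)

def k0_pp_202_b : ∃ t, chk3 f_pp_202_b t 1 1 1 = true :=
  ⟨(l 3), by decide +kernel⟩

theorem c_pp_202_b : CertB 0 536870912 1239849684 370763052 536870912 50465866 3 eng mog cd0q2 cd2q2b pd0 false true true .pp 2 0 2
    ndB0q2 ndB2q2b pcB0 Cut.none Ext.none :=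
  certB0 (fam := false) (s1 := true) (s2 := true) (a := 2) (b := 0) (c := 2) (cn := .pp) (n1 := ndB0q2) (n2 := ndB2q2b) (pc := pcB0) (cut := Cut.none) (xt := Ext.none) (P1 := 0) (W1 := 536870912) (P2 := 1239849684) (W2 := 370763052) (P3 := 536870912) (W3 := 50465866) (N0 := 3) (En := eng) (mo := mog) (C1 := cd0q2) (C2 := cd2q2b) (C3 := pd0)
    rfl k0_pp_202_b

noncomputable def f_pp_203 : ℕ → ℕ → ℕ → ℕ → Bool := onCell 0 536870912 0 536870912 536870912 50465866
    (rowB 3 eng mog cd0q2 cd2q3 pd0 1 false true true .up 2 0 3 (qsf 0 536870912 1610612736 536870912 0) ndB0q2 ndB2q3 pcB0 Cut.none Ext.none)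

def k0_pp_203 : ∃ t, chk3 f_pp_203 t 1 1 1 = true :=
  ⟨(l 3), by decide +kernel⟩

theorem c_pp_203 : CertB 0 536870912 1610612736 536870912 536870912 50465866 3 eng mog cd0q2 cd2q3 pd0 false true true .up 2 0 3
    ndB0q2 ndB2q3 pcB0 Cut.none Ext.none :=
  certB1 (fam := false) (s1 := true) (s2 := true) (a := 2) (b := 0) (c := 3) (cn := .up) (n1 := ndB0q2) (n2 := ndB2q3) (pc := pcB0) (cut := Cut.none) (xt := Ext.none) (P1 := 0) (W1 := 536870912) (P2 := 1610612736) (W2 := 536870912) (P3 := 536870912) (W3 := 50465866) (N0 := 3) (En := eng) (mo := mog) (C1 := cd0q2) (C2 := cd2q3) (C3 := pd0)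
    rfl (fun _ => rfl) k0_pp_203

noncomputable def cut_pp_213 : Cut := Cut.of [[⟨0, 1, 0, 67108864⟩, ⟨1, 1, 0, 67108864⟩, ⟨2, 2, 0, 16777216⟩]]

noncomputable def f_pp_213 : ℕ → ℕ → ℕ → ℕ → Bool := onCell 0 536870912 1610612736 536870912 536870912 50465866
    (rowB 3 eng mog cd0q2 cd2q3 pd1 0 false true true .pnn 2 1 3 (qsf 0 536870912 1610612736 536870912 1) ndB0q2 ndB2q3 pcB1 cut_pp_213 Ext.none)

def k0_pp_213 : ∃ t, chk3 f_pp_213 t 1 1 1 = true :=
  ⟨(b (l 3) (a (l 3) (b (l 3) (a (l 3) (b (l 3) (a (l 3) (b (l 3) (b (l 3) (b (l 3) (l 6)))))))))), by decide +kernel⟩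

theorem c_pp_213 : CertB 0 536870912 1610612736 536870912 536870912 50465866 3 eng mog cd0q2 cd2q3 pd1 false true true .pnn 2 1 3
    ndB0q2 ndB2q3 pcB1 cut_pp_213 Ext.none :=
  certB0 (fam := false) (s1 := true) (s2 := true) (a := 2) (b := 1) (c := 3) (cn := .pnn) (n1 := ndB0q2) (n2 := ndB2q3) (pc := pcB1) (cut := cut_pp_213) (xt := Ext.none) (P1 := 0) (W1 := 536870912) (P2 := 1610612736) (W2 := 536870912) (P3 := 536870912) (W3 := 50465866) (N0 := 3) (En := eng) (mo := mog) (C1 := cd0q2) (C2 := cd2q3) (C3 := pd1)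
    rfl k0_pp_213

noncomputable def f_pm_001 : ℕ → ℕ → ℕ → ℕ → Bool := onCell 0 536870912 536870912 536870912 536870912 50465866
    (rowB 3 eng mog cd0q0 cd2q1 pd0 0 false true false .up 0 0 1 (qsf 0 536870912 536870912 536870912 0) ndB0q0 ndB2q1 pcB0 Cut.none Ext.none)

def k0_pm_001 : ∃ t, chk3 f_pm_001 t 1 1 1 = true :=
  ⟨(l 4), by decide +kernel⟩

theorem c_pm_001 : CertB 0 536870912 536870912 536870912 536870912 50465866 3 eng mog cd0q0 cd2q1 pd0 false true false .up 0 0 1
    ndB0q0 ndB2q1 pcB0 Cut.none Ext.none :=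
  certB0 (fam := false) (s1 := true) (s2 := false) (a := 0) (b := 0) (c := 1) (cn := .up) (n1 := ndB0q0) (n2 := ndB2q1) (pc := pcB0) (cut := Cut.none) (xt := Ext.none) (P1 := 0) (W1 := 536870912) (P2 := 536870912) (W2 := 536870912) (P3 := 536870912) (W3 := 50465866) (N0 := 3) (En := eng) (mo := mog) (C1 := cd0q0) (C2 := cd2q1) (C3 := pd0)
    rfl k0_pm_001

noncomputable def f_pm_011 : ℕ → ℕ → ℕ → ℕ → Bool := onCell 0 536870912 536870912 536870912 536870912 50465866
    (rowB 3 eng mog cd0q0 cd2q1 pd1 0 false true false .pnn 0 1 1 (qsf 0 536870912 536870912 536870912 1) ndB0q0 ndB2q1 pcB1 Cut.none Ext.none)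

def k0_pm_011 : ∃ t, chk3 f_pm_011 t 1 1 1 = true :=
  ⟨(l 4), by decide +kernel⟩

theorem c_pm_011 : CertB 0 536870912 536870912 536870912 536870912 50465866 3 eng mog cd0q0 cd2q1 pd1 false true false .pnn 0 1 1
    ndB0q0 ndB2q1 pcB1 Cut.none Ext.none :=
  certB0 (fam := false) (s1 := true) (s2 := false) (a := 0) (b := 1) (c := 1) (cn := .pnn) (n1 := ndB0q0) (n2 := ndB2q1) (pc := pcB1) (cut := Cut.none) (xt := Ext.none) (P1 := 0) (W1 := 536870912) (P2 := 536870912) (W2 := 536870912) (P3 := 536870912) (W3 := 50465866) (N0 := 3) (En := eng) (mo := mog) (C1 := cd0q0) (C2 := cd2q1) (C3 := pd1)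
    rfl k0_pm_011

noncomputable def cut_pm_012_a : Cut := Cut.of [[⟨0, 0, 0, 67108864⟩, ⟨1, 1, 0, 67108864⟩, ⟨2, 1, 0, 67108864⟩], [⟨0, 0, 1, 20971520⟩, ⟨1, 1, 2, 20971520⟩, ⟨2, 1, 0, 33554432⟩]]

noncomputable def xt_pm_012_a : Ext := extD2 3 ⟨7, 3, 3, 10, 1741, 1000, 23, 25, 19, 50, 3, 16⟩ eng cd0q0 cd2q2a pd1 false true false .pnp 0 1 2 rfl ndB0q0 ndB2q2a pcB1

noncomputable def f_pm_012_a : ℕ → ℕ → ℕ → ℕ → Bool := onCell 536870912 536870912 0 536870912 536870912 50465866
    (rowB 3 eng mog cd0q0 cd2q2a pd1 2 false true false .pnp 0 1 2 (qsf 0 536870912 0 536870912 1) ndB0q0 ndB2q2a pcB1 cut_pm_012_a xt_pm_012_a)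

def k0_pm_012_a : ∃ t, chk3 f_pm_012_a t 4 2 1 = true :=
  ⟨(a (l 2) (b (l 2) (a (l 2) (b (l 2) (l 16464064))))), by decide +kernel⟩

def k1_pm_012_a : ∃ t, chk3 f_pm_012_a t 4 6 1 = true :=
  ⟨(a (l 2) (b (a (l 2) (l 16412256)) (a (b (l 16481760) (l 16532904)) (b (l 16394000) (l 16513552))))), by decide +kernel⟩

def k2_pm_012_a : ∃ t, chk3 f_pm_012_a t 8 14 1 = true :=
  ⟨(a (l 2) (b (a (l 2) (l 16549152)) (a (l 16571360) (l 16536584)))), by decide +kernel⟩

def k3_pm_012_a : ∃ t, chk3 f_pm_012_a t 32 30 1 = true :=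
  ⟨(l 2), by decide +kernel⟩

def k4_pm_012_a : ∃ t, chk3 f_pm_012_a t 32 62 1 = true :=
  ⟨(a (l 2) (b (l 141702137638912047) (c (l 141783707683962927) (l 141653209327763503)))), by decide +kernel⟩

def k5_pm_012_a : ∃ t, chk3 f_pm_012_a t 32 126 1 = true :=
  ⟨(a (a (l 2) (c (l 141861085823320111) (l 141706604367822895))) (a (c (l 141829406133649455) (l 141678360653463599)) (c (l 141799375711813679) (l 141651560048476207)))), by decide +kernel⟩

def k6_pm_012_a : ∃ t, chk3 f_pm_012_a t 64 127 1 = true :=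
  ⟨(a (c (c (l 14) (b (l 141873386595336239) (b (l 141882869879816239) (b (c (l 141955231496290351) (l 141865140244185135)) (c (c (l 14) (a (a (l 14) (a (l 14) (a (l 14) (l 141903485725048879)))) (b (l 141894002434916399) (b (l 141895376824090671) (a (l 141922589737779247) (l 141892559324168239)))))) (c (a (b (l 141886512007512111) (a (l 141914480835166255) (l 141884312982601775))) (b (l 141871393718059055) (a (l 141876822557360175) (l 141869400851628079)))) (a (a (l 141890497728954415) (l 141860467315359791)) (a (l 141853045609627695) (l 141845692623405103))))))))) (b (l 141832773330026543) (b (c (l 141792984767971375) (l 141699663682306095)) (c (b (c (l 141819304335081519) (l 141772643792273455)) (c (a (b (l 141828444026961967) (a (l 141833391829876783) (l 141826038843654191))) (a (l 141851946084450351) (l 141811057993629743))) (a (a (l 141785082019774511) (l 141778003911540783)) (b (l 141767077511807023) (l 141768039584022575))))) (b (l 141791060584874031) (c (a (l 141733130076127279) (l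 141719661054607407)) (a (l 141683858193137711) (l 141670870208102447)))))))) (b (c (c (l 141923551839191087) (l 141842531540369455)) (l 141894758289113135)) (b (c (c (l 141937433170591791) (l 141852702020108335)) (c (l 141764741054234671) (l 141673344114540591))) (a (c (c (l 14) (b (l 141865346404761647) (c (b (l 141890291583090735) (c (c (l 14) (a (l 141901492860715055) (l 141894139874443311))) (a (l 141884725301674031) (l 141877441034911791)))) (a (c (l 141861223231897647) (l 141838545795629103)) (a (l 141889604369678383) (l 141841019698528303)))))) (c (b (l 141775048976564271) (a (c (l 141804048604872751) (l 141757319342784559)) (c (l 141797176655085615) (l 141750722270969903)))) (b (l 141681384294006831) (c (l 141706604350046255) (l 141658363259502639))))) (c (c (b (l 141937020849995823) (c (l 14) (a (l 14) (a (l 14) (a (l 14) (c (l 14) (l 141925750839722031))))))) (b (l 141850915310157871) (c (b (l 141875723049517103) (b (l 141922314854449199) (a (a (l 141906165778874415) (l 141880052376617007))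 (a (l 141876478962729007) (l 141872974268317743))))) (b (l 141831398969294895) (a (l 141881632907460655) (l 141829749700395055)))))) (c (b (l 141761511235452975) (c (a (l 141790373424791599) (l 141783707633483823)) (l 141740895382781999))) (c (l 141693135329116207) (l 141645718872424495)))))))), by decide +kernel⟩

def k7_pm_012_a : ∃ t, chk3 f_pm_012_a t 65 254 1 = true :=
  ⟨(c (a (c (l 141892765503422511) (l 141813325753221167)) (c (l 141863697154981935) (l 141785837953384495))) (a (l 141868232562540591) (l 141843287384293423))), by decide +kernel⟩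

def k8_pm_012_a : ∃ t, chk3 f_pm_012_a t 65 255 1 = true :=
  ⟨(c (b (a (c (l 141907402749624367) (l 141824389586665519)) (c (l 141879227754905647) (l 141797795140517935))) (a (c (c (l 14) (b (l 141939082418552879) (a (b (l 141904791401381935) (c (l 14) (a (a (l 141901699021832239) (l 141898194327404591)) (b (l 141892284450832431) (l 141915992670142511))))) (b (l 141890703904194607) (c (c (l 14) (a (l 141901973901344815) (l 141895101951475759))) (a (b (l 141885343781503023) (l 141886580731920431)) (l 141901630295244847))))))) (b (c (l 141851671226613807) (l 141808446658232367)) (c (a (b (l 141861704271872047) (c (a (l 141878196951416879) (l 141871256282087471)) (a (l 141856206710046767) (l 141849403479719983)))) (b (l 141848029091692591) (c (a (l 141864384332267567) (l 141857718540894255)) (a (l 141842668968886319) (l 141836071897022511))))) (a (b (l 141817792508641327) (a (l 141822946470101039) (l 141816280678760495))) (a (l 141831330242265135) (l 141802330621050927)))))) (b (a (c (l 141894002443796527)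 (l 141810370806005807)) (c (l 141880533421965359) (l 141797726418173999))) (c (b (c (a (l 141918672744169519) (l 141905135002861615)) (a (l 141877166162919471) (l 141863972019126319))) (c (c (l 14) (c (a (l 14) (a (l 14) (l 141899637441282095))) (a (a (l 14) (l 141913793653489711)) (a (l 141895857867898927) (l 141889329515479087))))) (a (c (a (a (l 141895239390986287) (l 141891872135544879)) (b (l 141886237136896047) (l 141887542806822959))) (a (l 141872424515485743) (l 141865827443605551))) (c (a (b (l 141879640064999471) (l 141880945734942767)) (l 141873798907314223)) (a (l 141859367810711599) (l 141852976897294383)))))) (c (a (a (a (l 141863422251696175) (l 141882663704133679)) (a (l 141834353910956079) (l 141831192813994031))) (b (l 141822121840640047) (a (l 141872630656811055) (l 141821365925150767)))) (a (a (l 141795939707682863) (l 141789686233301039)) (a (l 141783501478412335) (l 141777454162493487)))))))) (a (b (c (l 141738146608316463) (l 141648673814577199)) (c (b (c (l 141764397456130095)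 (l 141719592339783727)) (c (a (a (l 141777110561669167) (l 141770650928840751)) (b (l 141760343004495919) (l 141761923552133167))) (a (l 141728182275637295) (l 141715950204911663)))) (a (a (l 141705504823230511) (l 141744606203625519)) (a (l 141648673812267055) (l 141642970093879343))))) (b (c (l 141713201430216751) (l 141625515343462447)) (c (b (c (l 141739520997572655) (l 141695540515242031)) (c (a (b (l 141748042214228015) (l 141749622761914415)) (l 141781989631770671)) (a (l 141704061731668015) (l 141692585575383087)))) (b (l 141628126682726447) (a (l 141725502182457391) (l 141624690706628655))))))), by decide +kernel⟩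

def k9_pm_012_a : ∃ t, chk3 f_pm_012_a t 66 30 1 = true :=
  ⟨(b (l 2) (b (l 2) (l 141618368580206639))), by decide +kernel⟩

def k10_pm_012_a : ∃ t, chk3 f_pm_012_a t 66 62 1 = true :=
  ⟨(b (c (l 141690592776028207) (l 141584283678883887)) (c (l 141903142111215663) (l 141598027567906863))), by decide +kernel⟩

def k11_pm_012_a : ∃ t, chk3 f_pm_012_a t 66 126 1 = true :=
  ⟨(c (a (l 141770925838336047) (b (l 141736153773457455) (l 141755257786204207))) (a (l 141626202552860719) (l 141783295267602479))), by decide +kernel⟩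

def k12_pm_012_a : ∃ t, chk3 f_pm_012_a t 66 254 1 = true :=
  ⟨(a (c (c (l 141836346793836591) (l 141759999421366319)) (l 141819854034894895)) (c (c (l 141812569844957231) (l 141737253265309743)) (c (l 141658981748178991) (l 141577617854595119)))), by decide +kernel⟩

def k13_pm_012_a : ∃ t, chk3 f_pm_012_a t 132 255 1 = true :=
  ⟨(c (c (b (l 141852770747482159) (a (b (l 141867545436553263) (c (b (l 141892009578496047) (b (c (l 141904379088420911) (l 141884106834264111)) (c (c (l 14) (a (l 141904104209350703) (l 141897644576423983))) (a (c (l 141893865003057199) (l 141883625796763695)) (l 141882388846231599))))) (b (l 141851258911768623) (c (a (l 141867476713373743) (l 141861223238942767)) (a (l 141846723422863407) (l 141840538667941935)))))) (b (l 141854969768099887) (a (b (l 141862391472390191) (a (c (c (l 141897232260153391) (l 141876960006045743)) (l 141846311106723887)) (c (c (l 141894071163174959) (l 141873867628560431)) (l 141843287448731695)))) (b (l 141856275436912687) (c (c (a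 (l 141890978785689647) (l 141887886408204335)) (l 141869332141572143)) (c (l 141848991168020527) (l 141828512755531823)))))))) (b (l 141772849962172463) (b (c (l 141800200321810479) (l 141758556301967407)) (c (a (b (l 141809821050273839) (a (l 141815181170245679) (l 141809202573803567))) (a (l 141824595734724655) (l 141796214588899375))) (a (a (l 141771544285560879) (l 141765703128137775)) (b (l 141756013679165487) (l 141791953965334575))))))) (b (c (l 141689905519902767) (l 141603937420656687)) (c (c (b (l 141716225087356975) (a (l 141725433498697775) (l 141714369659289647))) (a (l 141680078627242031) (l 141669358385315887))) (b (l 141607029796454447) (a (l 141614245342773295) (l 141604212295876655)))))), by decide +kernel⟩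

def k14_pm_012_a : ∃ t, chk3 f_pm_012_a t 133 255 1 = true :=
  ⟨(a (a (c (b (l 141888161255817263) (c (b (l 141845967513452591) (b (c (l 141870431655395375) (l 141830299464204335)) (c (a (c (l 141884862750195759) (l 141864796654583855)) (l 141894758349455407)) (a (l 141834353913790511) (l 141831811292004399))))) (b (l 141765153375289391) (c (a (l 141791953979899951) (l 141789411358146607)) (a (l 141750172521234479) (l 141747698619007023)))))) (b (l 141634105283346479) (a (b (l 141639602841485359) (c (l 141686125943717935) (l 141598164979892271))) (c (l 141682002774245423) (l 141594729005285423))))) (c (b (l 141793259655905327) (b (l 141891253629370415) (c (b (l 141845692632842287) (c (c (l 141878746713587759) (l 141858749337501743)) (l 141828444035743791))) (c (l 141786044101935151) (l 141744400082337839))))) (b (l 141629501076226095) (c (l 141723715494920239) (l 141591499188305967))))) (c (b (l 141786181545934895) (b (c (l 141834216476459055) (l 141753677216612399)) (c (b (c (l 141858680618352687)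 (l 141818617146851375)) (c (b (c (l 141871050128261167) (l 141851052752240687)) (c (a (c (l 141879983663595567) (l 141870019335307311)) (c (l 141875379456032815) (l 141865346408300591))) (a (l 141855038483152943) (l 141850228117225519)))) (c (a (l 141834079034458159) (l 141829268668563503)) (a (l 141813738061037615) (l 141808858975698991))))) (c (b (l 141777866480582703) (a (l 141782883003514927) (l 141777935198781487))) (a (l 141739933313990703) (l 141735054228799535)))))) (b (l 141622697844686895) (c (b (l 141670114299805743) (b (l 141672794359234607) (a (l 141677054967808047) (l 141716980981579823)))) (b (l 141583665164976175) (c (l 141608060587245615) (l 141563461630279727))))))), by decide +kernel⟩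

def k15_pm_012_a : ∃ t, chk3 f_pm_012_a t 67 30 1 = true :=
  ⟨(b (l 16583672) (l 141727357646061615)), by decide +kernel⟩

def k16_pm_012_a : ∃ t, chk3 f_pm_012_a t 67 62 1 = true :=
  ⟨(b (l 141584558564802607) (c (l 141672656961503279) (l 141549923912908847))), by decide +kernel⟩

def k17_pm_012_a : ∃ t, chk3 f_pm_012_a t 67 126 1 = true :=
  ⟨(a (c (l 141723990413705263) (l 141582222068793391)) (b (l 141804735756664879) (c (l 141712445530226735) (l 141565591945379887)))), by decide +kernel⟩

def k18_pm_012_a : ∃ t, chk3 f_pm_012_a t 67 127 1 = true :=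
  ⟨(c (b (c (a (l 141792366307852335) (l 141771338137370671)) (a (l 141717118448402479) (l 141694578450137135))) (b (c (a (c (l 141829887149998127) (l 141790854470942767)) (l 141789411359785007)) (a (a (l 141736566062301231) (l 141725364782776367)) (l 141707703870095407))) (c (a (c (a (b (l 141844318242586671) (b (l 141849059886432303) (c (b (l 141861566835294255) (a (c (l 141870637809549359) (l 141860536042356783)) (a (l 141862116590452783) (l 141870981401690159)))) (a (l 141844524398116911) (l 141839645312745519))))) (b (l 141834491352268847) (b (l 141839370435133487) (a (c (c (a (l 141861704273100847) (l 141859367809613871)) (l 141850228115767343)) (l 141834766227390511)) (c (c (a (l 141857100065603631) (l 141854694882639919)) (l 141845486469349423)) (l 141829818422575151)))))) (b (l 141799169527513135) (a (a (a (l 141836346768687151) (l 141833666707849263)) (a (l 141831055366504495) (l 141828512744636463))) (c (a (l 141812501108801583) (l 141807415865049135)) (l 141789067757879343)))))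 (a (b (l 141803979891474479) (b (a (l 141811195437826095) (l 141805972755087407)) (a (c (c (c (a (l 141852358419152943) (l 141849953236189231)) (l 141840607383961647)) (l 141824801898266671)) (l 141838133464662063)) (c (c (c (a (l 141847479333732399) (l 141845005431291951)) (l 141835659579097135)) (l 141819716654481455)) (l 141787693366296623))))) (b (l 141793397087010863) (b (c (l 141819373057228847) (l 141776629526806575)) (a (c (c (c (a (l 141842531528835119) (l 141840057626378287)) (l 141830643054739503)) (l 141814562691203119)) (l 141782264525176879)) (c (c (c (a (l 141837515004461103) (l 141834972382511151)) (l 141825489091412015)) (l 141809271288954927)) (l 141776766964564015))))))) (b (a (c (l 141758281422553135) (l 141716843561779247)) (l 141804667051802671)) (a (c (a (c (l 141778897271980079) (l 141758006542843951)) (c (l 141768039589871663) (l 141746873982926895))) (a (l 141726464290734127) (l 141714988133531695))) (c (a (c (l 141757044468826159) (l 141735672703533103)) (l 141734916788551727))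 (a (l 141703374537408559) (l 141691554782838831)))))))) (b (a (c (l 141638984370946095) (l 141557895356006447)) (c (l 141615482300694575) (l 141534118408536111))) (a (b (c (l 141648879975055407) (l 141564080108240943)) (c (b (c (l 141674718506237999) (l 141631974975406127)) (c (a (l 141683789479264303) (l 141671969724858415)) (l 141634448876453935))) (b (l 141566691448061999) (c (l 141590468395024431) (l 141545869438287919))))) (c (b (l 141624278393487407) (a (c (l 141658294544613423) (l 141614863819259951)) (a (l 141717530722271279) (l 141621254733201455)))) (b (l 141539066210484271) (c (l 141564836022091823) (l 141520580663099439))))))), by decide +kernel⟩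

def k19_pm_012_a : ∃ t, chk3 f_pm_012_a t 34 30 1 = true :=
  ⟨(b (b (l 16561864) (l 16559088)) (b (l 141620636259401775) (a (l 141500789501411375) (l 141442721518518319)))), by decide +kernel⟩

def k20_pm_012_a : ∃ t, chk3 f_pm_012_a t 34 62 1 = true :=
  ⟨(c (b (a (l 141581191315652655) (l 141525597234266159)) (a (l 141623316353417263) (l 141568065871101999))) (b (a (l 141478661797134383) (l 141421074854248495)) (a (l 141500308430143535) (l 141441484538232879)))), by decide +kernel⟩

def k21_pm_012_a : ∃ t, chk3 f_pm_012_a t 34 126 1 = true :=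
  ⟨(a (c (b (l 141654789873319983) (l 141675611874820143)) (b (l 141515770311393327) (l 141525253598855215))) (c (b (l 141601463537664047) (l 141623591209893935)) (b (l 141458183371292719) (l 141469659524235311)))), by decide +kernel⟩

def k22_pm_012_a : ∃ t, chk3 f_pm_012_a t 34 127 2 = true :=
  ⟨(b (a (c (a (l 141749004296945711) (l 141725433505857583)) (l 141657332479066159)) (c (a (l 141700625764089903) (l 141674718510628911)) (l 141604624620683311))) (a (c (b (a (l 141767558555959343) (l 141744262642991151)) (a (c (b (l 141798344889516079) (b (a (l 141808790252666927) (l 141797863850704943)) (a (c (a (b (l 141824801896022063) (c (l 141831948723617839) (l 141821091042345007))) (a (l 141821709517652015) (l 141819029456764975))) (c (l 141806659947003951) (l 141795733546270767))) (c (c (a (l 141820541285253167) (l 141815112443969583)) (l 141806728665235503)) (l 141812638534402095))))) (b (l 141755326481481775) (a (c (l 141777797756911663) (l 141756013674922031)) (c (l 141766459038236719)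 (l 141744400078438447))))) (c (b (l 141775736171233327) (a (b (l 141786525131849775) (c (a (l 141803979884183599) (l 141798344884486191)) (l 141778691107766319))) (c (a (l 141790854458834991) (l 141785082020151343)) (l 141765359524069423)))) (b (l 141731686971424815) (b (l 141736153737560111) (a (l 141745087272140847) (l 141733061358698543))))))) (a (b (l 141683720763195439) (b (l 141690661430460463) (a (c (l 141723234472738863) (l 141679460150329391)) (c (l 141711345998463023) (l 141667228078866479))))) (b (l 141658638144585775) (b (l 141665853689872431) (a (c (l 141699113926803503) (l 141654721129496623)) (c (l 141686675696697391) (l 141642076741156911))))))) (a (c (b (l 141719729779343407) (c (b (l 141751890502271023) (a (c (b (l 141774430497226799) (l 141777935190671407)) (l 141753333610463279)) (a (l 141800681329737775) (l 141771956585840687)))) (a (c (l 141749966348501039) (l 141704955083767855)) (c (l 141714919410253871) (l 141692310695051311))))) (b (l 141632730892206127) (b (l 141640152596037679)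 (c (a (l 141674031308161071) (l 141661180761178159)) (a (l 141629226194370607) (l 141616238208647215)))))) (c (b (l 141694097404018735) (b (l 141793946804240431) (c (a (c (l 141751753059352623) (l 141728457149481007)) (c (l 141750378664476719) (l 141715606602104879))) (b (l 141685782340911151) (a (l 141695334350880815) (l 141682346364731439)))))) (b (l 141606067725565999) (a (c (l 141679185259085871) (l 141600707602120751)) (c (l 141677192389394479) (l 141587307299504175)))))))), by decide +kernel⟩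

def k23_pm_012_a : ∃ t, chk3 f_pm_012_a t 34 127 3 = true :=
  ⟨(a (b (c (l 141576518343786543) (l 141494673416355887)) (c (b (a (l 141599127056171055) (l 141573288524070959)) (c (b (l 141613077113356335) (a (l 141629363633864751) (l 141604074857578543))) (a (l 141628813862404143) (l 141558307670753327)))) (b (l 141500858169245743) (a (c (l 141539822124400687) (l 141495704204722223)) (c (l 141514464629342255) (l 141470690307407919)))))) (b (c (l 141522504816918575) (l 141441209646858287)) (c (b (l 141533568653262895) (a (c (b (l 141574250595598383) (l 141578236325462063)) (l 141532400419520559)) (c (l 141639877687099439) (l 141506149570936879)))) (b (l 141448974948171823) (b (l 141453029397577775) (a (l 141468422564479023) (l 141443065069731887))))))), by decide +kernel⟩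

def k24_pm_012_a : ∃ t, chk3 f_pm_012_a t 35 15 1 = true :=
  ⟨(b (b (b (l 16532504) (l 16531728)) (b (b (l 16531496) (l 141496047796027439)) (a (l 141377025674625071) (l 141306450748457007)))) (b (c (b (l 141432413587685423) (a (l 141509723012694063) (l 141446913388036143))) (a (l 141548205865926703) (l 141482784904216623))) (b (c (a (b (l 141544014033207343) (l 141567378656641071)) (c (l 141535286651289647) (l 141457290020028463))) (a (l 141586001580032047) (l 141346995222020143))) (b (c (a (c (l 141633899125276719) (l 141548893105258543)) (c (l 141576380901605423) (l 141490893847150639))) (a (c (l 141466773303214127) (l 141387264841236527)) (c (l 141410010997555247) (l 141333320035942447)))) (c (b (a (c (a (l 141667502955970607) (l 141640015154708527)) (l 141564904744517679)) (c (a (l 141611634000232495) (l 141582634370465839)) (l 141508073717989423))) (b (a (c (a (l 141677467280736303) (l 141650185638019119)) (a (l 141586688824049711) (l 141559063584849967))) (c (a (l 141622079361564719)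 (l 141593285890342959)) (a (l 141530957309362223) (l 141502507436523567)))) (a (c (a (c (b (l 141705985870889007) (a (c (l 141727976109834287) (l 141704267883315247)) (c (l 141714781964943407) (l 141690936299601967)))) (a (l 141701312935149615) (l 141699045187338287))) (c (a (b (l 141685782336749615) (c (l 141701381661622319) (l 141677398557442095))) (c (l 141708391042760751) (l 141661936669802543))) (a (l 141685438725881903) (l 141626546129240111)))) (a (c (a (l 141621529608568879) (l 141607923147325487)) (l 141569577667739695)) (c (a (l 141594247966605359) (l 141580366627471407)) (l 141542227306758191)))) (a (c (c (a (c (l 141694578422562863) (l 141647986610765871)) (a (l 141694440976334895) (l 141687294148100143))) (a (l 141612527350906927) (l 141598371133636655))) (c (a (l 141566347849383983) (l 141552260351819823)) (l 141514464628965423))) (c (a (c (a (l 141680147319865391) (l 141627920514875439)) (l 141584008757936175)) (c (a (l 141620704967163951) (l 141613420699975727)) (l 141569577662758959)))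 (c (l 141575899844591663) (l 141486427073314863))))))) (a (c (b (l 141479280249028655) (a (c (l 141522985848324143) (l 141479692563972143)) (c (l 141495841646182447) (l 141452960679133231)))) (b (l 141396748129959983) (a (l 141416058307461167) (l 141390494654398511)))) (c (b (l 141424029772349487) (a (c (l 141468353846722607) (l 141426228794376239)) (c (l 141440797327851567) (l 141399359470747695)))) (b (l 141344590031536175) (a (l 141364999720910895) (l 141339642226458671)))))))))), by decide +kernel⟩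

def k25_pm_012_a : ∃ t, chk3 f_pm_012_a t 18 14 1 = true :=
  ⟨(b (l 16532144) (a (l 16504752) (l 16474128))), by decide +kernel⟩

def k26_pm_012_a : ∃ t, chk3 f_pm_012_a t 18 30 1 = true :=
  ⟨(b (a (l 16547328) (l 16479864)) (a (a (l 141574525402529839) (l 141497834442539055)) (a (l 141420112690692143) (l 16500328)))), by decide +kernel⟩

def k27_pm_012_a : ∃ t, chk3 f_pm_012_a t 18 31 1 = true :=
  ⟨(b (b (a (c (l 141295455622217775) (l 141185573136089135)) (c (l 141150113881341999) (l 141049371094482991))) (a (c (a (l 141381354984357935) (l 141313734996557871)) (l 141401283577643055)) (c (l 141570745806225455) (l 141276007935705135)))) (b (a (c (a (c (l 141472958063312943) (l 141395030153560111)) (l 141368985462112303)) (a (l 141287965173907503) (l 141229278723620911))) (c (a (l 141303908096671791) (l 141237318902972463)) (a (l 141171691785551919) (l 141114379725750319)))) (b (a (c (a (c (l 141516113898913839) (l 141431314041258031)) (c (l 141453716592607279) (l 141370703443509295)))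 (a (l 141495704155668527) (l 141440728558108719))) (c (a (c (l 141389944897077295) (l 141309749248770095)) (c (l 141324317775839279) (l 141247832981602351))) (a (l 141206601285255215) (l 141152862639161391)))) (a (c (a (c (b (a (l 141552947545964591) (l 141522779685158959)) (b (a (l 141563873943879727) (l 141533912241618991)) (a (c (a (a (l 141606136432787503) (l 141598783446138927)) (b (l 141585726741381167) (l 141589575032471599))) (a (l 141555009128644655) (l 141540303155593263))) (c (a (l 141617750012444719) (l 141557689184501807)) (a (l 141525528463065135) (l 141510616331599919)))))) (b (l 141449799582646319) (a (c (b (l 141495566765981743) (l 141502026397515823)) (l 141455159701962799)) (c (l 141469590794584111) (l 141426503671119919))))) (a (c (b (l 141492130788065327) (a (c (l 141583596421513263) (l 141491993347981359)) (c (l 141523260715679791) (l 141476875058102319)))) (b (l 141405475506044975) (c (l 141440110129578031) (l 141397847640358959)))) (c (b (l 141461138293669935) (c (a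 (l 141507867547631663) (l 141492336940662831)) (l 141454128903847983))) (c (l 141403413918629935) (l 141362457100042287))))) (a (c (b (l 141368366979104815) (a (c (l 141413034650615855) (l 141372490147201071)) (l 141365274599931951))) (a (l 141400252796911663) (l 141285010227036207))) (a (c (b (l 141326585524682799) (l 141338130398445615)) (l 141260065049739311)) (c (l 141395098835681327) (l 141235532189433903))))) (c (a (c (b (l 141414134156148783) (a (c (l 141559063544758319) (l 141423617446330415)) (c (l 141437223902101551) (l 141392624952492079)))) (b (l 141331189728657455) (a (l 141360326793445423) (l 141330777409454127)))) (c (b (l 141349331669057583) (a (l 141472476978921519) (l 141349606544375855))) (a (l 141293187845521455) (l 141262401510899759)))) (a (a (c (l 141277932119834671) (l 141211480365613103)) (c (l 141250719199117359) (l 141187428541874223))) (c (b (l 141202340674420783) (l 141216015852601391)) (l 141151075928391727)))))))), by decide +kernel⟩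

def k28_pm_012_a : ∃ t, chk3 f_pm_012_a t 19 7 1 = true :=
  ⟨(b (b (l 16521560) (a (l 16445072) (l 16416520))) (b (b (a (l 16454952) (l 16430680)) (a (c (l 16468352) (l 16457216)) (l 16441440))) (a (c (b (b (l 141000648973271087) (l 141246870868574255)) (b (a (l 141169286600458287) (l 141099398872154159)) (a (b (l 141398672221634607) (c (a (l 141307756371574831) (l 141273877659385903)) (a (l 141231271578894383) (l 141199866769047599)))) (b (l 141151007207899183) (c (l 141402726663159855) (l 141152519036223535)))))) (b (a (l 141156573455024175) (l 141272778072899631)) (b (c (l 141230653063364655) (l 141368916636942383)) (a (b (l 141098161920491567) (c (l 141153000075493423) (l 141102078927863855))) (c (l 141171141999001647) (l 141038925712752687)))))) (b (b (l 16449896) (c (l 141459488886980655) (l 141297654503604271))) (a (b (c (l 141028549071437871) (l 141301296655351855)) (c (b (l 141082562589786159) (c (l 141151831833739311) (l 141088678624854063))) (c (l 141023876144889903) (l 141260546012004399))))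 (c (b (l 141135545276923951) (b (l 141010269681434671) (l 141046828450299951))) (b (l 141064626762465327) (b (l 141206876088975407) (l 141332357860114479))))))))), by decide +kernel⟩

def k29_pm_012_a : ∃ t, chk3 f_pm_012_a t 5 2 1 = true :=
  ⟨(a (b (a (b (a (l 2) (l 16559904)) (l 16584888)) (a (b (a (l 16558024) (l 16556208)) (l 16562272)) (b (l 16548424) (l 16533624)))) (a (b (l 16569672) (l 16549160)) (a (b (l 16549416) (l 16495392)) (b (l 16522160) (l 16492416))))) (b (b (a (b (l 16537080) (l 16526224)) (b (l 16518184) (l 16508088))) (a (l 16518232) (l 16501656))) (b (a (l 16508944) (l 16516832)) (a (l 16483056) (l 16475368))))), by decide +kernel⟩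

def k30_pm_012_a : ∃ t, chk3 f_pm_012_a t 5 3 1 = true :=
  ⟨(b (a (a (b (a (l 16427656) (l 16445016)) (b (a (l 16384400) (l 16411928)) (l 16444360))) (b (a (b (l 16467448) (l 16449840)) (l 16460744)) (a (b (l 16475760) (a (l 16411400) (l 16423392))) (b (l 16440592) (l 16428344))))) (b (a (b (l 16462808) (l 16451144)) (b (l 16460960) (l 16453672))) (a (b (l 16442032) (l 16434248)) (b (l 16447992) (l 16444928))))) (a (b (a (b (l 16436352) (b (l 16409968) (l 16465248))) (b (a (l 16466808) (l 16419696)) (a (a (l 16389240) (l 16406264)) (a (l 16415872) (l 16421792))))) (b (a (a (b (l 16407264) (l 16420576)) (l 16476272)) (a (b (l 16440112) (l 16463720)) (a (l 16462488) (l 16428616)))) (b (a (a (a (l 16439048) (l 16430184)) (c (l 16458040) (l 16460528))) (a (l 16447128) (b (l 16473480) (l 16476880)))) (a (a (c (b (l 141289889192755247) (c (l 141389051415920687) (l 141311604562051119))) (c (b (l 141293874917294127) (l 141224743139131439)) (b (l 16463352) (a (l 141292156946563119) (b (l 16444976)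 (l 16448752)))))) (a (b (l 16434208) (c (l 16443192) (l 16442392))) (b (l 16427464) (l 16437216)))) (a (a (l 16479360) (l 16464440)) (a (l 16456432) (l 16445824))))))) (b (a (b (a (l 16426896) (l 16434416)) (a (l 16428968) (l 16439208))) (b (a (l 16442552) (l 16450760)) (a (l 16449488) (l 16459368)))) (b (a (a (l 16479704) (b (l 16446544) (l 16453776))) (a (b (l 16458320) (l 16466272)) (l 16526320))) (a (a (b (l 16490536) (c (l 16481416) (l 16454656))) (b (l 16504376) (c (l 16474864) (l 16469936)))) (a (b (l 16475792) (l 16507160)) (c (l 16532448) (l 16534304)))))))), by decide +kernel⟩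

def k31_pm_012_a : ∃ t, chk3 f_pm_012_a t 3 2 1 = true :=
  ⟨(a (b (a (a (b (b (l 16504848) (l 16495568)) (l 16491016)) (b (b (l 16496648) (l 16488072)) (l 16504960))) (a (b (a (l 16487208) (l 16483528)) (a (l 16479624) (l 16476408))) (b (a (l 16479352) (b (l 16477952) (l 16470928))) (a (l 16472608) (l 16468200))))) (a (a (b (l 16508928) (l 16472968)) (b (l 16546104) (b (l 16475048) (l 16469752)))) (a (b (b (l 16479680) (l 16476992)) (a (l 16471240) (l 16470024))) (b (b (l 16472480) (l 16470808)) (b (l 16467872) (l 16465960)))))) (a (b (a (b (a (b (l 16472072) (l 16465416)) (b (l 16465672) (l 16459416))) (a (l 16462992) (b (l 16457176) (l 16457616)))) (b (a (b (l 16459056) (l 16453232)) (b (l 16452504) (l 16447128))) (a (b (l 16451288) (l 16452024)) (b (l 16445512) (l 16446584))))) (b (a (b (a (l 16465328) (l 16460136)) (a (l 16464600) (l 16460160))) (b (a (l 16454912) (l 16449880)) (a (l 16455800) (l 16451704)))) (a (b (l 16482376) (a (l 16462992) (l 16461048))) (b (a (l 16456640) (l 16453800))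 (a (l 16459408) (l 16458232)))))) (b (a (b (a (b (l 16446232) (l 16441328)) (b (l 16440432) (l 16436008))) (a (b (l 16440056) (l 16441488)) (b (l 16435112) (l 16436968)))) (b (a (b (l 16435496) (l 16431592)) (b (l 16431704) (l 16428312))) (a (b (l 16431128) (l 16433440)) (b (l 16428240) (a (l 16431504) (l 16430488)))))) (a (b (b (a (l 16445200) (l 16441288)) (a (l 16448056) (l 16445256))) (b (a (l 16451720) (l 16450536)) (a (l 16457880) (l 16458528)))) (b (a (b (b (l 16436800) (l 16439824)) (l 16443520)) (b (b (l 16434688) (a (l 16438384) (l 16437664))) (b (l 16440928) (l 16444312)))) (b (a (b (l 16448304) (l 16452320)) (b (l 16448440) (l 16453120))) (a (l 16459952) (l 16461920)))))))), by decide +kernel⟩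

def k32_pm_012_a : ∃ t, chk3 f_pm_012_a t 6 3 1 = true :=
  ⟨(b (a (a (b (b (l 16462664) (l 16458600)) (b (l 16456832) (l 16457600))) (b (b (l 16465704) (l 16463664)) (b (l 16464416) (l 16468504)))) (a (b (b (l 16466992) (l 16467368)) (b (l 16470712) (l 16498616))) (b (b (l 16466208) (l 16469448)) (b (l 16476040) (l 16486760))))) (a (b (a (b (l 16504176) (a (l 16468920) (l 16477752))) (b (l 16497176) (a (l 16486216) (l 16494600)))) (b (a (a (l 16526704) (l 16495264)) (a (l 16505712) (l 16516312))) (b (a (l 16548416) (a (l 16524688) (l 16542208))) (a (a (l 16534688) (b (l 16525656) (l 16539088))) (b (a (l 16543968) (l 16582760)) (a (c (l 16599672) (l 16557000)) (a (l 16570864) (l 16579648)))))))) (b (a (b (a (l 16485872) (l 16492424)) (a (l 16503120) (l 16511984))) (b (a (l 16499152) (l 16506256)) (l 16567840))) (b (a (a (l 16548248) (l 16560008)) (a (l 16617936) (b (l 16558456) (l 16581968)))) (a (a (b (l 16559456) (b (l 16578968) (a (l 16588200) (l 16596496)))) (b (l 16617680) (b (l 16595168)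 (a (l 16604504) (l 16612320))))) (b (a (l 16591576) (l 16606648)) (b (a (l 16610808) (l 16625912)) (a (l 16645024) (l 16649688))))))))), by decide +kernel⟩

def k33_pm_012_a : ∃ t, chk3 f_pm_012_a t 7 6 1 = true :=
  ⟨(a (b (a (b (l 16465224) (l 16471408)) (b (l 16486400) (l 16496976))) (a (b (l 16482096) (l 16539360)) (b (l 16511992) (l 16574432)))) (a (b (b (a (l 16467584) (l 16470144)) (a (l 16481408) (l 16486000))) (b (a (l 16500016) (l 16506744)) (a (l 16524096) (l 16533000)))) (b (b (a (l 16473344) (l 16476984)) (a (l 16491112) (l 16496496))) (a (b (l 16513808) (l 16542056)) (b (l 16521024) (a (l 16548848) (l 16553328))))))), by decide +kernel⟩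

def k34_pm_012_a : ∃ t, chk3 f_pm_012_a t 7 7 1 = true :=
  ⟨(a (b (a (b (l 16539712) (l 16579128)) (b (l 16559160) (a (l 16566328) (l 16599976)))) (b (a (b (a (l 16572776) (l 16565488)) (a (l 16596320) (l 16610192))) (a (b (l 16599728) (l 16644752)) (b (l 16612832) (a (l 16633928) (l 16640720))))) (b (a (a (l 16642104) (b (l 16628792) (l 16641672))) (b (a (l 16642672) (l 16656592)) (a (l 16655752) (l 16690912)))) (a (b (a (l 16640528) (l 16654888)) (a (b (l 16650528) (l 16657320)) (a (l 16664840) (l 16693072)))) (b (a (l 16690176) (a (l 16680032) (l 16687336))) (a (b (l 16700496) (a (l 16682864) (l 16700704))) (b (c (l 16695624) (l 16692816)) (a (l 16708128) (c (l 16706544) (l 16703736)))))))))) (b (a (a (b (l 16554384) (l 16612992)) (b (l 16565432) (b (l 16594208) (l 16615832)))) (b (a (b (l 16567064) (l 16585880)) (a (l 16605576) (b (l 16580000) (l 16599928)))) (a (a (l 16635584) (l 16631408)) (b (a (l 16615648) (l 16621592)) (a (l 16638664) (l 6)))))) (a (a (b (b (l 16625960) (a (l 16668528)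 (l 16654464))) (b (b (l 16670720) (a (l 16680744) (l 16688048))) (a (b (l 16694712) (b (l 16705440) (c (l 16719224) (l 16721968)))) (b (l 16712680) (l 6))))) (b (b (l 16660272) (a (l 16661448) (l 16668528))) (b (b (a (l 16681536) (l 6)) (l 6)) (l 6)))) (b (a (b (a (l 16649768) (l 6)) (l 6)) (l 6)) (l 6))))), by decide +kernel⟩

theorem s35_pm_012_a : ∃ t, chk3 f_pm_012_a t 7 3 1 = true := ex3_b k33_pm_012_a k34_pm_012_a

theorem s36_pm_012_a : ∃ t, chk3 f_pm_012_a t 3 3 1 = true := ex3_a k32_pm_012_a s35_pm_012_a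

theorem s37_pm_012_a : ∃ t, chk3 f_pm_012_a t 3 1 1 = true := ex3_b k31_pm_012_a s36_pm_012_a

theorem s38_pm_012_a : ∃ t, chk3 f_pm_012_a t 5 1 1 = true := ex3_b k29_pm_012_a k30_pm_012_a

theorem s39_pm_012_a : ∃ t, chk3 f_pm_012_a t 18 15 1 = true := ex3_b k26_pm_012_a k27_pm_012_a

theorem s40_pm_012_a : ∃ t, chk3 f_pm_012_a t 18 7 1 = true := ex3_b k25_pm_012_a s39_pm_012_a

theorem s41_pm_012_a : ∃ t, chk3 f_pm_012_a t 9 7 1 = true := ex3_a s40_pm_012_a k28_pm_012_a

theorem s42_pm_012_a : ∃ t, chk3 f_pm_012_a t 34 127 1 = true := ex3_c k22_pm_012_a k23_pm_012_a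

theorem s43_pm_012_a : ∃ t, chk3 f_pm_012_a t 34 63 1 = true := ex3_b k21_pm_012_a s42_pm_012_a

theorem s44_pm_012_a : ∃ t, chk3 f_pm_012_a t 34 31 1 = true := ex3_b k20_pm_012_a s43_pm_012_a

theorem s45_pm_012_a : ∃ t, chk3 f_pm_012_a t 34 15 1 = true := ex3_b k19_pm_012_a s44_pm_012_a

theorem s46_pm_012_a : ∃ t, chk3 f_pm_012_a t 17 15 1 = true := ex3_a s45_pm_012_a k24_pm_012_a

theorem s47_pm_012_a : ∃ t, chk3 f_pm_012_a t 67 63 1 = true := ex3_b k17_pm_012_a k18_pm_012_a

theorem s48_pm_012_a : ∃ t, chk3 f_pm_012_a t 67 31 1 = true := ex3_b k16_pm_012_a s47_pm_012_a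

theorem s49_pm_012_a : ∃ t, chk3 f_pm_012_a t 67 15 1 = true := ex3_b k15_pm_012_a s48_pm_012_a

theorem s50_pm_012_a : ∃ t, chk3 f_pm_012_a t 66 255 1 = true := ex3_a k13_pm_012_a k14_pm_012_a

theorem s51_pm_012_a : ∃ t, chk3 f_pm_012_a t 66 127 1 = true := ex3_b k12_pm_012_a s50_pm_012_a

theorem s52_pm_012_a : ∃ t, chk3 f_pm_012_a t 66 63 1 = true := ex3_b k11_pm_012_a s51_pm_012_a

theorem s53_pm_012_a : ∃ t, chk3 f_pm_012_a t 66 31 1 = true := ex3_b k10_pm_012_a s52_pm_012_a

theorem s54_pm_012_a : ∃ t, chk3 f_pm_012_a t 66 15 1 = true := ex3_b k9_pm_012_a s53_pm_012_a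

theorem s55_pm_012_a : ∃ t, chk3 f_pm_012_a t 33 15 1 = true := ex3_a s54_pm_012_a s49_pm_012_a

theorem s56_pm_012_a : ∃ t, chk3 f_pm_012_a t 65 127 1 = true := ex3_b k7_pm_012_a k8_pm_012_a

theorem s57_pm_012_a : ∃ t, chk3 f_pm_012_a t 32 127 1 = true := ex3_a k6_pm_012_a s56_pm_012_a

theorem s58_pm_012_a : ∃ t, chk3 f_pm_012_a t 32 63 1 = true := ex3_b k5_pm_012_a s57_pm_012_a

theorem s59_pm_012_a : ∃ t, chk3 f_pm_012_a t 32 31 1 = true := ex3_b k4_pm_012_a s58_pm_012_a

theorem s60_pm_012_a : ∃ t, chk3 f_pm_012_a t 32 15 1 = true := ex3_b k3_pm_012_a s59_pm_012_a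

theorem s61_pm_012_a : ∃ t, chk3 f_pm_012_a t 16 15 1 = true := ex3_a s60_pm_012_a s55_pm_012_a

theorem s62_pm_012_a : ∃ t, chk3 f_pm_012_a t 8 15 1 = true := ex3_a s61_pm_012_a s46_pm_012_a

theorem s63_pm_012_a : ∃ t, chk3 f_pm_012_a t 8 7 1 = true := ex3_b k2_pm_012_a s62_pm_012_a

theorem s64_pm_012_a : ∃ t, chk3 f_pm_012_a t 4 7 1 = true := ex3_a s63_pm_012_a s41_pm_012_a

theorem s65_pm_012_a : ∃ t, chk3 f_pm_012_a t 4 3 1 = true := ex3_b k1_pm_012_a s64_pm_012_a

theorem s66_pm_012_a : ∃ t, chk3 f_pm_012_a t 4 1 1 = true := ex3_b k0_pm_012_a s65_pm_012_a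

theorem s67_pm_012_a : ∃ t, chk3 f_pm_012_a t 2 1 1 = true := ex3_a s66_pm_012_a s38_pm_012_a

theorem s68_pm_012_a : ∃ t, chk3 f_pm_012_a t 1 1 1 = true := ex3_a s67_pm_012_a s37_pm_012_a

theorem c_pm_012_a : CertB 0 536870912 0 536870912 536870912 50465866 3 eng mog cd0q0 cd2q2a pd1 false true false .pnp 0 1 2
    ndB0q0 ndB2q2a pcB1 cut_pm_012_a xt_pm_012_a :=
  certB2 (fam := false) (s1 := true) (s2 := false) (a := 0) (b := 1) (c := 2) (cn := .pnp) (n1 := ndB0q0) (n2 := ndB2q2a) (pc := pcB1) (cut := cut_pm_012_a) (xt := xt_pm_012_a) (P1 := 0) (W1 := 536870912) (P2 := 0) (W2 := 536870912) (P3 := 536870912) (W3 := 50465866) (N0 := 3) (En := eng) (mo := mog) (C1 := cd0q0) (C2 := cd2q2a) (C3 := pd1)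
    rfl (fun _ => rfl) s68_pm_012_a

noncomputable def cut_pm_012_b : Cut := Cut.of [[⟨0, 0, 0, 67108864⟩, ⟨1, 1, 0, 67108864⟩, ⟨2, 1, 0, 67108864⟩], [⟨0, 0, 1, 20971520⟩, ⟨1, 1, 2, 20971520⟩, ⟨2, 1, 0, 33554432⟩]]

noncomputable def f_pm_012_b : ℕ → ℕ → ℕ → ℕ → Bool := onCell 0 536870912 1239849684 370763052 536870912 50465866
    (rowB 3 eng mog cd0q0 cd2q2b pd1 0 false true false .pnp 0 1 2 (qsf 0 536870912 1239849684 370763052 1) ndB0q0 ndB2q2b pcB1 cut_pm_012_b Ext.none)

def k0_pm_012_b : ∃ t, chk3 f_pm_012_b t 2 1 1 = true :=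
  ⟨(a (l 2) (b (b (a (b (a (a (l 2) (b (b (l 16420984) (l 2)) (l 2))) (a (b (b (a (l 16423744) (l 16425872)) (a (l 2) (l 16405784))) (l 2)) (b (b (l 16429536) (l 16410336)) (b (l 16411432) (l 16369952))))) (l 2)) (a (b (a (b (l 16426520) (b (l 16398728) (l 16379384))) (b (l 16433824) (l 16398808))) (b (a (b (l 16359432) (l 2)) (b (l 16370880) (l 16351520))) (l 2))) (b (a (b (l 16441560) (l 16408896)) (b (l 16449544) (l 16419208))) (b (a (l 16373744) (l 16386424)) (a (l 16357232) (l 16351336)))))) (b (a (l 2) (a (l 2) (b (a (l 2) (l 16314104)) (l 2)))) (l 2))) (l 2))), by decide +kernel⟩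

def k1_pm_012_b : ∃ t, chk3 f_pm_012_b t 3 1 1 = true :=
  ⟨(a (b (a (b (a (b (a (b (l 16457536) (l 16429512)) (b (l 16465256) (l 16439496))) (a (b (l 16399056) (l 16366344)) (l 16396424))) (b (b (a (l 16472416) (l 16478696)) (l 16453080)) (a (l 16409184) (l 16420944)))) (a (b (b (a (l 16331496) (l 16348480)) (l 16325312)) (l 2)) (b (b (l 16372200) (l 16341144)) (a (l 16280544) (l 16301216))))) (b (b (a (b (a (l 16484200) (l 16489480)) (l 16468744)) (b (a (l 16494568) (l 16499440)) (l 16483192))) (a (l 16437128) (l 16457864))) (a (b (l 16387688) (b (l 16345416) (l 16315008))) (b (l 16416776) (l 16368008))))) (a (l 2) (b (a (b (b (l 16283056) (l 2)) (l 2)) (b (l 18353425047) (l 16252136))) (l 2)))) (b (a (b (b (a (b (l 16507928) (l 16498592)) (b (l 16524088) (l 16518976))) (a (l 16479560) (l 16506176))) (a (b (l 16446712) (l 16406344)) (b (l 16481680) (l 16450000)))) (b (a (b (b (l 16545504) (l 16544296)) (l 16537424)) (b (b (a (l 16564272) (b (a (b (l 16571144) (l 16573344)) (l 16576200))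 (l 16578080))) (l 16572904)) (l 16571528))) (a (b (l 16521208) (l 16498424)) (b (l 16563280) (l 16549344))))) (a (b (a (b (l 16359880) (l 16307920)) (b (l 16412784) (l 16370672))) (a (l 2) (b (l 16323904) (l 2)))) (b (a (b (l 16470912) (l 16439360)) (b (l 16531720) (l 16511208))) (a (b (l 16403872) (l 16364912)) (b (l 16487888) (l 16461864))))))), by decide +kernel⟩

theorem s2_pm_012_b : ∃ t, chk3 f_pm_012_b t 1 1 1 = true := ex3_a k0_pm_012_b k1_pm_012_b

theorem c_pm_012_b : CertB 0 536870912 1239849684 370763052 536870912 50465866 3 eng mog cd0q0 cd2q2b pd1 false true false .pnp 0 1 2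
    ndB0q0 ndB2q2b pcB1 cut_pm_012_b Ext.none :=
  certB0 (fam := false) (s1 := true) (s2 := false) (a := 0) (b := 1) (c := 2) (cn := .pnp) (n1 := ndB0q0) (n2 := ndB2q2b) (pc := pcB1) (cut := cut_pm_012_b) (xt := Ext.none) (P1 := 0) (W1 := 536870912) (P2 := 1239849684) (W2 := 370763052) (P3 := 536870912) (W3 := 50465866) (N0 := 3) (En := eng) (mo := mog) (C1 := cd0q0) (C2 := cd2q2b) (C3 := pd1)
    rfl s2_pm_012_b

noncomputable def cut_pm_022_a : Cut := Cut.of [[⟨0, 0, 0, 67108864⟩, ⟨1, 1, 0, 67108864⟩, ⟨2, 1, 0, 67108864⟩]]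

noncomputable def f_pm_022_a : ℕ → ℕ → ℕ → ℕ → Bool := onCell 1073741824 536870912 0 536870912 536870912 50465866
    (rowB 3 eng mog cd0q0 cd2q2a pd2 2 false true false .pp 0 2 2 (qsf 0 536870912 0 536870912 2) ndB0q0 ndB2q2a pcB2 cut_pm_022_a Ext.none)

def k0_pm_022_a : ∃ t, chk3 f_pm_022_a t 2 2 1 = true :=
  ⟨(a (a (b (a (a (b (b (l 16430488) (l 16427480)) (b (l 16427696) (l 16430752))) (b (b (l 16433264) (l 16430984)) (b (l 16432040) (l 16435960)))) (b (b (l 16437240) (l 16436128)) (a (l 16438760) (l 16443360)))) (b (b (a (a (a (l 16434944) (l 16438048)) (l 16442624)) (l 16472480)) (a (a (l 16443488) (l 16450592)) (l 16460864))) (a (b (a (l 16452808) (l 16460944)) (a (l 16465480) (l 16474672))) (b (l 16514616) (a (l 16483528) (l 16492016)))))) (b (b (a (l 16442928) (l 16448392)) (a (b (l 16446600) (l 16453256)) (l 16457880))) (b (a (b (l 16462744) (l 16473680)) (a (l 16497280) (l 16543776))) (a (a (l 16512856) (l 16540928)) (b (l 16502576) (l 16538248)))))) (a (b (a (b (l 16452008)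 (l 16484336)) (a (l 357052215079) (l 1))) (a (b (a (l 16495088) (l 16529224)) (a (l 99354233559) (l 1))) (l 1))) (l 1))), by decide +kernel⟩

def k1_pm_022_a : ∃ t, chk3 f_pm_022_a t 2 3 1 = true :=
  ⟨(a (b (a (a (b (b (a (l 16482152) (l 16492392)) (a (l 16503312) (l 16514584))) (b (a (l 16529472) (l 16541720)) (a (a (l 16557784) (l 16564536)) (b (l 16565464) (l 16583256))))) (b (a (b (l 16502216) (l 16525336)) (b (l 16511576) (l 16535536))) (b (a (l 16553376) (l 16564376)) (a (l 16597344) (l 16619600))))) (b (a (a (a (l 16593448) (l 16597864)) (b (l 16528504) (l 16553856))) (b (a (l 16535832) (l 16584120)) (a (l 16608920) (l 1)))) (a (b (a (l 16574632) (a (l 16581776) (l 16628704))) (a (a (l 16606912) (b (l 16602760) (l 183643134503))) (a (l 311418345303) (l 1)))) (b (a (l 339335606343) (l 1)) (l 1))))) (a (b (a (b (a (b (l 16588728) (l 16630192)) (b (l 16602568) (l 16633984))) (l 6)) (b (a (b (l 16615680) (l 16657976)) (b (l 16648968) (a (l 16646792) (b (l 16689528) (a (l 6) (l 289943630487))))))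 (a (l 6) (a (l 6) (a (l 6) (l 1)))))) (a (l 6) (a (l 6) (l 1)))) (b (a (b (a (b (a (a (l 16635904) (l 469258407911)) (l 368326732711)) (l 442414935607)) (l 1)) (l 1)) (l 1)) (l 1)))) (b (l 1) (l 1))), by decide +kernel⟩

def k2_pm_022_a : ∃ t, chk3 f_pm_022_a t 3 1 1 = true :=
  ⟨(l 1), by decide +kernel⟩

theorem s3_pm_022_a : ∃ t, chk3 f_pm_022_a t 2 1 1 = true := ex3_b k0_pm_022_a k1_pm_022_a

theorem s4_pm_022_a : ∃ t, chk3 f_pm_022_a t 1 1 1 = true := ex3_a s3_pm_022_a k2_pm_022_a

theorem c_pm_022_a : CertB 0 536870912 0 536870912 536870912 50465866 3 eng mog cd0q0 cd2q2a pd2 false true false .pp 0 2 2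
    ndB0q0 ndB2q2a pcB2 cut_pm_022_a Ext.none :=
  certB2 (fam := false) (s1 := true) (s2 := false) (a := 0) (b := 2) (c := 2) (cn := .pp) (n1 := ndB0q0) (n2 := ndB2q2a) (pc := pcB2) (cut := cut_pm_022_a) (xt := Ext.none) (P1 := 0) (W1 := 536870912) (P2 := 0) (W2 := 536870912) (P3 := 536870912) (W3 := 50465866) (N0 := 3) (En := eng) (mo := mog) (C1 := cd0q0) (C2 := cd2q2a) (C3 := pd2)
    rfl (fun _ => rfl) s4_pm_022_a

noncomputable def cut_pm_022_b : Cut := Cut.of [[⟨0, 0, 0, 67108864⟩, ⟨1, 1, 0, 67108864⟩, ⟨2, 1, 0, 67108864⟩]]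

noncomputable def f_pm_022_b : ℕ → ℕ → ℕ → ℕ → Bool := onCell 0 536870912 1073741824 536870912 536870912 50465866
    (rowB 3 eng mog cd0q0 cd2q2b pd2 1 false true false .pp 0 2 2 (qsf 0 536870912 1239849684 370763052 2) ndB0q0 ndB2q2b pcB2 cut_pm_022_b Ext.none)

def k0_pm_022_b : ∃ t, chk3 f_pm_022_b t 1 1 1 = true :=
  ⟨(a (b (b (a (a (b (l 1) (a (b (l 1) (l 272763454279)) (b (l 297996368055) (l 16486816)))) (a (b (b (l 1) (l 263099740855)) (b (l 16482552) (l 16408320))) (b (b (b (l 1) (l 102038610503)) (l 92911671415)) (b (l 16385272) (l 16337416))))) (a (b (a (b (a (b (l 227129457335) (l 16432560)) (l 67678688151)) (l 16425872)) (b (b (l 16393584) (l 16372768)) (l 16342880))) (b (l 16425448) (l 16323584))) (b (b (a (l 16388944) (l 16322304)) (a (l 16314552) (l 16297200))) (a (l 16311240) (l 16262000))))) (a (b (a (b (a (l 96132910343) (l 16389080)) (a (l 16449872) (l 16354360))) (a (b (l 16336488) (l 16348648)) (b (l 16291728) (l 16245984)))) (a (c (l 16414648) (l 16404592)) (b (l 16250296)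 (l 16147336)))) (b (a (b (l 16265272) (a (l 16216968) (l 16200968))) (b (l 16225488) (l 16284416))) (a (b (l 16162912) (l 16114824)) (l 16280648))))) (b (a (b (a (b (l 16185936) (l 16144576)) (l 16110176)) (a (a (l 16181696) (l 16058312)) (l 15964200))) (b (a (l 16034816) (l 16081344)) (a (l 15910456) (l 16048800)))) (a (b (a (l 16105152) (l 15915616)) (a (l 15993160) (l 16052144))) (b (a (l 16035912) (l 2)) (l 2))))) (b (a (b (a (b (a (b (l 16306480) (l 16287736)) (l 16290144)) (a (l 16261448) (l 16264552))) (b (a (l 16287720) (l 16292064)) (l 16378504))) (b (a (b (l 16239736) (a (l 16220072) (l 16233944))) (b (l 16262616) (l 16254944))) (a (l 16198400) (l 16240232)))) (b (a (b (a (l 16306880) (l 16423576)) (a (l 16302256) (l 16341520))) (b (a (b (l 16389872) (l 16394920)) (b (l 16461328) (l 16469080))) (a (l 16400368) (l 2)))) (b (a (b (l 16316888) (l 2)) (l 2)) (l 2)))) (b (a (b (a (l 16151528) (l 2)) (l 2)) (l 2)) (l 2)))), by decide +kernel⟩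

theorem c_pm_022_b : CertB 0 536870912 1239849684 370763052 536870912 50465866 3 eng mog cd0q0 cd2q2b pd2 false true false .pp 0 2 2
    ndB0q0 ndB2q2b pcB2 cut_pm_022_b Ext.none :=
  certB1 (fam := false) (s1 := true) (s2 := false) (a := 0) (b := 2) (c := 2) (cn := .pp) (n1 := ndB0q0) (n2 := ndB2q2b) (pc := pcB2) (cut := cut_pm_022_b) (xt := Ext.none) (P1 := 0) (W1 := 536870912) (P2 := 1239849684) (W2 := 370763052) (P3 := 536870912) (W3 := 50465866) (N0 := 3) (En := eng) (mo := mog) (C1 := cd0q0) (C2 := cd2q2b) (C3 := pd2)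
    rfl (fun _ => rfl) k0_pm_022_b

noncomputable def f_pm_023 : ℕ → ℕ → ℕ → ℕ → Bool := onCell 0 536870912 1073741824 536870912 536870912 50465866
    (rowB 3 eng mog cd0q0 cd2q3 pd2 1 false true false .up 0 2 3 (qsf 0 536870912 1610612736 536870912 2) ndB0q0 ndB2q3 pcB2 Cut.none Ext.none)

def k0_pm_023 : ∃ t, chk3 f_pm_023 t 1 1 1 = true :=
  ⟨(a (b (b (l 1) (a (l 1) (b (l 1) (a (l 1) (l 288869239239))))) (b (a (b (l 1) (l 224444279223)) (b (a (l 16149072) (l 16050528)) (l 239476534407))) (a (b (l 244308436967) (a (l 15990648) (l 16087144))) (b (a (l 16058696) (l 16296640)) (l 16383056))))) (b (a (b (a (l 1) (b (l 1) (l 104722610759))) (b (a (l 209949434023) (b (l 16238448) (l 16222800))) (a (l 16171024) (l 16196704)))) (b (a (b (l 177200196631) (l 115460032839)) (b (a (l 152504168631) (l 115460196199)) (l 16405560))) (a (b (b (l 16274056) (l 16293816)) (l 16401192)) (b (b (l 16472552) (l 16512736)) (l 16570960))))) (b (a (b (a (l 16105872) (l 16347712)) (l 16409184)) (a (l 16562240) (l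 16658048))) (a (b (l 16533728) (l 16617704)) (b (l 16689232) (l 16717680)))))), by decide +kernel⟩

theorem c_pm_023 : CertB 0 536870912 1610612736 536870912 536870912 50465866 3 eng mog cd0q0 cd2q3 pd2 false true false .up 0 2 3
    ndB0q0 ndB2q3 pcB2 Cut.none Ext.none :=
  certB1 (fam := false) (s1 := true) (s2 := false) (a := 0) (b := 2) (c := 3) (cn := .up) (n1 := ndB0q0) (n2 := ndB2q3) (pc := pcB2) (cut := Cut.none) (xt := Ext.none) (P1 := 0) (W1 := 536870912) (P2 := 1610612736) (W2 := 536870912) (P3 := 536870912) (W3 := 50465866) (N0 := 3) (En := eng) (mo := mog) (C1 := cd0q0) (C2 := cd2q3) (C3 := pd2)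
    rfl (fun _ => rfl) k0_pm_023

noncomputable def f_pm_033 : ℕ → ℕ → ℕ → ℕ → Bool := onCell 1610612736 536870912 1610612736 536870912 536870912 50465866
    (rowB 3 eng mog cd0q0 cd2q3 pd3 2 false true false .pnn 0 3 3 (qsf 0 536870912 1610612736 536870912 3) ndB0q0 ndB2q3 pcB3 Cut.none Ext.none)

def k0_pm_033 : ∃ t, chk3 f_pm_033 t 1 1 1 = true :=
  ⟨(a (a (b (a (b (a (l 16135032) (l 4)) (b (l 16503760) (l 16519080))) (l 4)) (b (a (b (l 16610056) (l 16673848)) (b (l 16614984) (l 16668920))) (a (l 16726736) (b (l 16706704) (l 16728608))))) (b (l 4) (b (l 4) (a (b (l 16705608) (l 16726176)) (l 4))))) (l 4)), by decide +kernel⟩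

theorem c_pm_033 : CertB 0 536870912 1610612736 536870912 536870912 50465866 3 eng mog cd0q0 cd2q3 pd3 false true false .pnn 0 3 3
    ndB0q0 ndB2q3 pcB3 Cut.none Ext.none :=
  certB2 (fam := false) (s1 := true) (s2 := false) (a := 0) (b := 3) (c := 3) (cn := .pnn) (n1 := ndB0q0) (n2 := ndB2q3) (pc := pcB3) (cut := Cut.none) (xt := Ext.none) (P1 := 0) (W1 := 536870912) (P2 := 1610612736) (W2 := 536870912) (P3 := 536870912) (W3 := 50465866) (N0 := 3) (En := eng) (mo := mog) (C1 := cd0q0) (C2 := cd2q3) (C3 := pd3)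
    rfl (fun _ => rfl) k0_pm_033

noncomputable def f_pm_101 : ℕ → ℕ → ℕ → ℕ → Bool := onCell 0 536870912 536870912 536870912 536870912 50465866
    (rowB 3 eng mog cd0q1 cd2q1 pd0 2 false true false .npn 1 0 1 (qsf 536870912 536870912 536870912 536870912 0) ndB0q1 ndB2q1 pcB0 Cut.none Ext.none)

def k0_pm_101 : ∃ t, chk3 f_pm_101 t 2 1 1 = true :=
  ⟨(b (l 4) (a (b (a (b (a (b (l 4) (l 16736904)) (l 4)) (a (b (a (l 16688824) (l 16688032)) (l 16750176)) (b (l 16936904) (l 16701456)))) (b (l 4) (b (l 4) (a (l 16795448) (l 16656432))))) (b (a (b (a (a (l 16689152) (l 16687088)) (l 16680760)) (a (a (b (l 16691232) (l 16693120)) (b (l 16688640) (l 16690184))) (a (l 16684912) (l 16678936)))) (a (b (l 16666400) (l 16666992)) (b (l 16647016) (l 16645296)))) (a (b (a (b (a (b (l 16694664) (a (b (l 16696008) (l 16696200)) (l 16695320))) (l 16691816)) (a (b (a (l 16696936) (l 16695720)) (l 16697296)) (b (a (l 16694072) (l 16691968)) (l 16693552)))) (b (a (l 16686432) (l 16679408)) (a (b (l 16687096)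 (a (l 16688832) (l 16685560))) (b (l 16679448) (l 16679616))))) (a (b (a (l 16702016) (l 16694072)) (a (l 16697608) (l 16690984))) (b (a (l 16687224) (b (a (l 16680768) (l 16676368)) (l 16677960))) (a (l 16684856) (l 16675312))))) (b (a (b (l 16666680) (a (l 16670416) (l 16660560))) (b (l 16644880) (l 16643576))) (a (b (a (b (a (l 16671952) (l 16666584)) (l 16667264)) (b (l 16658704) (l 16657376))) (a (l 16664520) (l 16652560))) (b (l 16640776) (a (b (l 16643128) (l 16639296)) (b (l 16631080) (l 16627240))))))))) (b (l 4) (b (a (a (b (l 16625432) (l 16616928)) (b (l 4) (l 16584488))) (a (b (l 4) (l 16552344)) (l 4))) (a (a (b (l 16615928) (a (b (l 16621080) (l 16617408)) (l 16604472))) (b (l 16578424) (l 16575808))) (b (a (l 16532968) (l 16486752)) (a (l 16529392) (l 16472984)))))))), by decide +kernel⟩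

def k1_pm_101 : ∃ t, chk3 f_pm_101 t 3 1 1 = true :=
  ⟨(b (l 4) (a (b (l 4) (b (l 4) (a (a (b (l 16445856) (l 16409600)) (b (l 4) (a (l 16362872) (l 16332984)))) (b (l 4) (a (c (l 16355360) (l 16229176)) (l 4)))))) (l 4))), by decide +kernel⟩

theorem s2_pm_101 : ∃ t, chk3 f_pm_101 t 1 1 1 = true := ex3_a k0_pm_101 k1_pm_101

theorem c_pm_101 : CertB 536870912 536870912 536870912 536870912 536870912 50465866 3 eng mog cd0q1 cd2q1 pd0 false true false .npn 1 0 1
    ndB0q1 ndB2q1 pcB0 Cut.none Ext.none :=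
  certB2 (fam := false) (s1 := true) (s2 := false) (a := 1) (b := 0) (c := 1) (cn := .npn) (n1 := ndB0q1) (n2 := ndB2q1) (pc := pcB0) (cut := Cut.none) (xt := Ext.none) (P1 := 536870912) (W1 := 536870912) (P2 := 536870912) (W2 := 536870912) (P3 := 536870912) (W3 := 50465866) (N0 := 3) (En := eng) (mo := mog) (C1 := cd0q1) (C2 := cd2q1) (C3 := pd0)
    rfl (fun _ => rfl) s2_pm_101

end Pool.Agent.Strip051.G.I5000_5470.Tab.C.BB02

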