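import Pool.Agent.Strip051.G.I5000_5470.Tab
import Pool.Agent.Strip051.PB.ExtD2

/-! # Certificates B18 (generated) -/

set_option linter.all false
set_option maxRecDepth 100000

namespace Pool.Agent.Strip051.G.I5000_5470.Tab.C.BB02

open Pool.Agent.Strip051.PB Pool.Agent.Strip051.PB.T
open Pool.Agent.Strip051.G.I5000_5470.Tab

noncomputable def cut_pm_102_a : Cut := Cut.of [[⟨0, 1, 0, 67108864⟩, ⟨1, 0, 0, 67108864⟩, ⟨2, 1, 0, 67108864⟩], [⟨0, 0, 1, 20971520⟩, ⟨1, 1, 2, 20971520⟩, ⟨2, 1, 0, 33554432⟩]]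

noncomputable def xt_pm_102_a : Ext := extD2 3 ⟨7, 3, 3, 10, 1741, 1000, 23, 25, 19, 50, 3, 16⟩ eng cd0q1 cd2q2a pd0 false true false .npp 1 0 2 rfl ndB0q1 ndB2q2a pcB0

noncomputable def f_pm_102_a : ℕ → ℕ → ℕ → ℕ → Bool := onCell 536870912 536870912 0 536870912 536870912 50465866
    (rowB 3 eng mog cd0q1 cd2q2a pd0 0 false true false .npp 1 0 2 (qsf 536870912 536870912 0 536870912 0) ndB0q1 ndB2q2a pcB0 cut_pm_102_a xt_pm_102_a)

def k0_pm_102_a : ∃ t, chk3 f_pm_102_a t 2 2 1 = true :=
  ⟨(a (b (l 2) (a (l 2) (b (l 2) (l 16665376)))) (a (b (a (a (l 2) (b (l 16733232) (l 16718616))) (b (b (l 16740976) (l 16733600)) (l 16746696))) (b (a (l 16770208) (b (l 16719552) (l 16717856))) (a (l 16698488) (l 16714696)))) (b (b (a (a (l 16784432) (b (l 16750896) (l 16744392))) (b (a (b (a (l 16761304) (l 16768536)) (l 16780216)) (a (b (l 16773168) (l 16769640)) (l 16774680))) (a (l 16751320) (b (a (l 16764952) (l 16770520)) (l 16763392))))) (a (b (l 16736824) (l 16733208)) (a (l 16744256) (l 16794160)))) (a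 (b (b (l 16730720) (l 16727608)) (l 16875800)) (b (b (l 16743168) (l 16740400)) (b (l 16738792) (l 16741840))))))), by decide +kernel⟩

def k1_pm_102_a : ∃ t, chk3 f_pm_102_a t 4 6 1 = true :=
  ⟨(a (l 2) (b (l 16662064) (a (l 16659136) (b (l 16685096) (l 16698336))))), by decide +kernel⟩

def k2_pm_102_a : ∃ t, chk3 f_pm_102_a t 8 14 1 = true :=
  ⟨(a (l 2) (b (b (l 2) (l 16631904)) (b (l 16630408) (b (l 16631424) (l 16633112))))), by decide +kernel⟩

def k3_pm_102_a : ∃ t, chk3 f_pm_102_a t 8 30 1 = true :=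
  ⟨(a (a (l 2) (b (b (l 2) (l 10837673655)) (b (l 141887061763080239) (a (l 141730312632057903) (l 141810783159091247))))) (b (a (b (l 16619960) (l 16601984)) (b (l 16650464) (l 16611888))) (a (b (l 142042642709119023) (a (l 142007870646124591) (l 142195887168159791))) (a (b (l 16608464) (l 142376207106932783)) (b (l 16644144) (l 142549311498993839)))))), by decide +kernel⟩

def k4_pm_102_a : ∃ t, chk3 f_pm_102_a t 8 62 1 = true :=
  ⟨(a (a (a (l 2) (b (l 141723303233175599) (c (l 141859711437029423) (l 141709902907392047)))) (b (a (l 141792297606496303) (l 141879914960076847)) (a (c (l 141839439218917423) (l 141776629537652783)) (c (l 142032815862874159) (l 141852839457636399))))) (b (a (a (l 141895514312458287) (l 142081744127983663)) (b (l 142510141390077999) (l 142182349491617839))) (a (a (a (l 141922108753444911) (l 142015910856359983)) (a (a (l 142265018972045359) (l 142220282600882223)) (l 142377237897789487))) (a (l 142147852307988527) (c (l 142901705051455663) (l 142087172986732719)))))),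 by decide +kernel⟩

def k5_pm_102_a : ∃ t, chk3 f_pm_102_a t 8 126 1 = true :=
  ⟨(a (a (a (a (l 2) (c (l 141883900688252975) (l 141720004665360431))) (c (b (l 141917092207689775) (l 141956605912481839)) (b (l 141751684355113007) (l 141780821417705519)))) (a (c (b (l 141904585293430831) (l 142040031389614127)) (b (l 141820266411835439) (l 141850502986399791))) (a (c (l 142070336702201903) (l 141893246514085935)) (b (l 141886305898430511) (l 142018384739893295))))) (a (a (b (a (l 141981138793906223) (l 142073635226599471)) (a (l 142067038146854959) (c (l 142541821085974703) (l 142040924705964079)))) (b (l 142028142957592623) (c (l 142669295738765487) (l 141999899203141679)))) (a (a (b (l 142518868764721199) (l 142375519943000111)) (b (l 142603462455951535) (l 142098786625470639))) (b (l 142186472693448879) (c (l 142988016730112175) (l 142169430216327343)))))), by decide +kernel⟩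

def k6_pm_102_a : ∃ t, chk3 f_pm_102_a t 16 127 2 = true :=
  ⟨(c (a (l 14) (a (c (b (a (l 142328034761212079) (l 142419843999711407)) (a (a (l 14) (a (l 14) (b (l 142398815834980527) (b (l 142417095218905263) (l 142429327287861423))))) (b (l 142455371975164079) (a (b (l 142450905207947439) (c (l 142495572877443247) (l 14))) (a (l 142490418914508975) (l 142512615309738159)))))) (l 14)) (b (a (l 142085729906065583) (l 142534949142282415)) (a (b (a (l 142458052032594095) (l 142502582261989551)) (b (a (l 142475506782683311) (l 142519762134106287)) (a (c (l 142551579260354735) (l 14)) (c (l 142595147416895663) (c (l 142499283724615855) (l 14)))))) (b (a (l 142546562735423663) (l 142589924733403311)) (a (b (l 142563467729600687) (l 142394692696686767)) (c (l 142675068183576751) (l 142549174072918191)))))))) (a (a (b (a (l 141866995677937711) (l 141899431280394287)) (b (a (l 141895239387217967) (l 141928018587189295)) (c (l 14) (a (b (l 141886512006807599) (a (b (l 141885618652430383) (a (c (l 141898125601374255)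 (l 141874692250681391)) (b (l 141893040357638191) (a (l 141893452674301999) (l 141897369685639215))))) (b (l 141901424136732719) (c (l 14) (a (l 141890291576504367) (l 141898263038148655)))))) (b (l 141918947609313327) (a (b (l 141917710657486895) (c (l 14) (b (l 141909258157785135) (a (l 141907471450587183) (l 14))))) (l 14))))))) (b (a (l 141933859748102191) (l 14)) (l 14))) (l 14))), by decide +kernel⟩

def k7_pm_102_a : ∃ t, chk3 f_pm_102_a t 16 254 3 = true :=
  ⟨(a (a (a (l 141734298314702895) (l 141763504100868143)) (a (l 141794702752251951) (l 141917985502887983))) (a (a (l 141953238604267567) (b (l 141892696754159663) (l 141908502236528687))) (a (c (l 14) (l 141887199188336687)) (l 141981894658129967)))), by decide +kernel⟩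

def k8_pm_102_a : ∃ t, chk3 f_pm_102_a t 16 255 6 = true :=
  ⟨(a (a (b (a (l 141803636288471087) (l 141834353903534127)) (a (b (a (l 141808584090615855) (l 141823564940967983)) (b (a (l 141814837564031023) (l 141829818414383151)) (a (c (a (l 141839232986988591) (l 141846792131674159)) (l 141839851445108783)) (a (c (l 141854419995852847) (l 141805835307401263)) (c (c (l 141874279931527215) (l 141850090666475567)) (l 141813394452054063)))))) (b (a (l 141839026827755567) (l 141854969750978607)) (a (b (l 141845349020663855) (a (c (c (l 141882251393155119) (l 141857924689117231)) (l 141821022316199983)) (c (c (l 141890291574292527) (l 141865827431252015)) (l 141828718899855407)))) (b (l 141861291943903279) (a (c (c (l 141898469194399791) (l 141873936331849775)) (l 141836621641957423)) (c (c (l 141929324241846319) (l 141882113951940655)) (l 141844593103568943)))))))) (b (a (l 141866995664371759) (l 141901699009921071)) (c (a (b (l 141904516510236719) (c (l 14) (a (b (l 141890222853062703) (a (l 141890429011017775)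 (l 141898812789604399))) (a (a (l 141903073398620207) (l 141907334007390255)) (l 14))))) (l 14)) (a (b (l 141854763590221871) (a (b (l 141852633285148719) (a (l 141852702004166703) (l 141905959600996399))) (b (l 141869332122746927) (b (l 141872424499740719) (a (l 141870294195126319) (l 141923826669912111)))))) (b (l 141888985899335727) (c (a (b (l 141899362543730735) (a (l 141899225104285743) (l 141908021199798319))) (l 14)) (a (a (l 141871324986802223) (l 141879914923835439)) (b (l 141891047482409007) (a (l 141890772603977775) (l 141899637418967087)))))))))) (c (l 14) (a (a (b (l 141912762846232623) (b (l 141925269793177647) (a (a (b (l 141917710648000559) (c (l 14) (l 141908639672942639))) (l 14)) (l 14)))) (l 14)) (l 14)))), by decide +kernel⟩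

def k9_pm_102_a : ∃ t, chk3 f_pm_102_a t 16 255 7 = true :=
  ⟨(a (a (b (a (l 141708734654840879) (l 141737253246058543)) (a (b (l 141719042578120751) (c (a (l 141743919036989487) (l 141758143972884527)) (a (l 141694166117564463) (l 141707910016974895)))) (b (l 141747836047310895) (c (b (l 141778553663651887) (a (l 141774774090891311) (l 141789961099673647))) (a (l 141722066233344047) (l 141736703486165039)))))) (b (a (l 141767695983034415) (l 141800062865752111)) (a (b (c (l 141804117317009455) (l 141752577690615855)) (c (a (a (l 141799719268417583) (l 141807690729996335)) (a (l 141815730911084591) (l 141823908531142703))) (a (l 141751753055928367) (l 141812363638865967)))) (b (c (l 141837171394723887) (l 141784532256374831)) (b (a (l 141808171764596783) (l 141824939321655343)) (c (a (a (l 141834147735879727) (l 141842531514417199)) (a (l 141851121451417647) (l 141859780107927599))) (a (l 141785082011484207) (c (l 141815112432304175) (l 141787968229326895))))))))) (b (a (a (l 141834422613721135)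 (l 141870775226941487)) (a (l 141909326863859759) (l 141949871366012975))) (c (a (a (b (l 141872287057133615) (a (b (l 141869125959761967) (b (l 141872012178309167) (a (l 141869538276261935) (l 141923483067990063)))) (b (l 141887199187157039) (a (c (l 141900118453141551) (l 141872905530540079)) (c (l 141909326865580079) (l 141881976503992367)))))) (b (l 141909395584811055) (c (l 14) (a (a (l 141911800759091247) (a (l 141896270159265839) (l 141901011804454959))) (a (a (l 141905753449644079) (l 141910495094849583)) (l 14)))))) (l 14)) (a (a (b (l 141818342248415279) (a (a (l 141812501090598959) (l 141821091027599407)) (a (l 141829887123046447) (l 141883763195265071)))) (b (l 141854282544660527) (a (b (l 141850434252455983) (a (l 141849472179191855) (l 141858611872120879))) (a (a (l 141863697114955823) (l 141868370040651823)) (c (l 141889604365893679) (l 141861223211991087)))))) (a (b (l 141892146986680367) (c (a (b (l 141902180033724463) (a (l 141901011801997359) (l 141910701250854959))) (l 14)) (a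 (a (l 141870637782876207) (l 141880189792747567)) (a (l 141889810522112047) (a (l 141897163508121647) (l 141902111311773743)))))) (b (l 141932210452398127) (a (a (c (l 14) (l 141909601736753199)) (l 14)) (l 14)))))))), by decide +kernel⟩

def k10_pm_102_a : ∃ t, chk3 f_pm_102_a t 17 127 2 = true :=
  ⟨(a (a (a (b (c (l 142621604418650287) (l 142010756931813551)) (c (b (l 142653971297763503) (a (l 142654795931336879) (l 142696852259029167))) (b (l 142403076430119087) (b (l 142058998013001903) (c (a (l 142471658483155119) (l 142515020481167535)) (l 14)))))) (b (b (l 142572744855847087) (l 142593635580444847)) (b (c (l 142737602916630703) (l 142490556340404399)) (c (c (l 142819997587357871) (l 142697470731681967)) (a (c (l 142552610042069167) (l 14)) (b (l 142527802303692975) (a (l 142527596145197231) (l 142548899186983087)))))))) (b (a (l 142667577751257263) (l 142749972419133615)) (b (a (c (l 142819172950786223) (l 142575974665978031)) (l 142779659238555823)) (a (c (l 142839857517035695) (b (l 142591299112124591)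 (a (l 142400396360777903) (l 142622360321425583)))) (c (l 142918816210616495) (a (l 142658644211941551) (l 142699532308267183))))))) (a (c (a (b (l 142947540957266095) (a (l 142966988572819631) (l 143005196608995503))) (b (l 143024163187949743) (l 143061477870928047))) (b (a (l 142712314133135535) (l 142792715935744175)) (a (b (l 142740764001910959) (a (a (l 142729837603176623) (l 142749903694135471)) (l 142779727952609455))) (b (l 142820203731763375) (c (l 142897100843483311) (l 142779865388908719)))))) (b (a (l 142985542828818607) (l 143060240913744047)) (a (c (l 143135007724683439) (b (l 142897719315873967) (l 142915448944443567))) (c (l 143206613432713391) (l 142891809456603311)))))), by decide +kernel⟩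

def k11_pm_102_a : ∃ t, chk3 f_pm_102_a t 17 127 3 = true :=
  ⟨(a (a (b (a (l 142070474075095087) (l 14)) (l 14)) (a (l 14) (c (c (b (l 142447881529442479) (b (l 142476949873606831) (b (l 142491587124969647) (a (l 142480248409227439) (l 142522442175856815))))) (l 14)) (l 14)))) (c (b (a (a (l 142472757981970607) (l 142557008075997359)) (a (l 142639334024282287) (l 142719735826841775))) (a (a (b (l 142140499317375151) (a (b (l 142493854865604783) (c (a (l 142553709543620783) (l 142574462829478063)) (l 14))) (c (l 142600644954947759) (c (l 142510141383442607) (l 14))))) (b (l 142583946116202671) (c (b (l 142657063655801007) (l 142666134628548783)) (b (l 142537697897447599) (a (l 142526015584370863) (l 142567178558603439)))))) (a (b (l 142665241272238255) (a (a (l 142652528167026863) (l 142672594257952943)) (l 142522167285956783))) (b (l 142744543563055279) (a (l 142741588625408175) (l 142780415136956591)))))) (a (l 14) (b (l 142085248837337263) (b (a (l 142068137685057711) (l 142331333296308399))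 (a (b (l 142125793285718191) (c (a (c (l 142518525156376751) (l 14)) (l 142529657712476335)) (l 14))) (b (l 142163176739291311) (c (a (l 142570202211287215) (l 142610265673646255)) (a (l 14) (c (l 142522236004057263) (l 14))))))))))), by decide +kernel⟩

def k12_pm_102_a : ∃ t, chk3 f_pm_102_a t 36 14 1 = true :=
  ⟨(b (l 16647000) (b (l 16670064) (l 16673920))), by decide +kernel⟩

def k13_pm_102_a : ∃ t, chk3 f_pm_102_a t 72 15 1 = true :=
  ⟨(b (b (l 16673304) (b (l 16679184) (l 142717330648613039))) (b (b (c (l 142992483495952559) (l 142557763982311599)) (c (l 143056186462355631) (a (l 142575424891863215) (l 142660156021555375)))) (b (c (a (l 143083399380893871) (l 143158509782089903)) (a (b (l 142622085425758383) (l 142653352794013871)) (b (l 142705029848875183) (l 142734991546941615)))) (c (a (b (l 143133152291897519) (c (l 143276432433971375) (l 143055293105324207))) (a (b (l 143187440688283823) (b (l 143211492510154927) (c (l 143337592779341999) (l 143118858632904879)))) (b (l 143225442565308591)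 (b (l 143251418532446383) (l 143271415903436975))))) (b (a (c (l 142798350922629295) (l 142569858610102447)) (b (l 142757325381615791) (a (l 142751759103639727) (l 142612602170343599)))) (a (c (b (l 142822059147100335) (c (l 142894558211555503) (l 142780690012340399))) (b (l 142592673481293999) (c (b (l 142661874009964719) (l 142669433132597423)) (b (l 142545875506987183) (a (l 142533231121203375) (l 142573225864069295)))))) (a (b (c (l 142879371201134767) (l 142652665595445423)) (c (a (l 142884937480356015) (b (l 142901361437933743) (l 142910982166413487))) (a (b (l 142653421510312111) (c (l 142718292711014575) (a (l 142597964880265391) (b (l 142606211218882735) (l 142610334388338863))))) (b (l 142674655832293551) (b (l 142681596500770991) (l 142687025340367023)))))) (b (c (l 142922114722676911) (a (l 142684895035556015) (l 142709290453680303))) (c (l 142942455691280559) (c (l 142774573971144879) (a (l 142647992656560303) (c (l 142702968259199151) (l 142646343397605551))))))))))))), by decide +kernel⟩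

def k14_pm_102_a : ∃ t, chk3 f_pm_102_a t 73 15 1 = true :=
  ⟨(b (b (l 16686696) (b (l 16692760) (l 142886243150250095))) (b (b (c (l 143151912707997807) (l 142731418129465519)) (b (l 142987054641397871) (a (l 142976196963156143) (l 143056186447413359)))) (b (a (b (l 143006158661025967) (c (l 143251899566833839) (a (l 142796632928223407) (l 142839926205743279)))) (c (b (l 143298560097730671) (l 143335325023846511)) (b (l 142874835704529071) (l 142911738070073519)))) (c (b (a (a (l 143265918343348399) (l 143308936741879983)) (l 143375182326530159)) (c (l 143477024616284271) (a (l 143221319387218095) (l 143312716304203951)))) (b (a (a (b (l 142819928835588271) (l 142838483097698479)) (l 142877996802605231)) (l 142772787295060143)) (c (a (a (l 142980732445261999) (l 143029592000446639)) (a (l 143078245397201071) (l 143126692635541679))) (b (a (l 142774436527620271) (l 142878134234038447)) (b (a (l 142790997924364463) (l 142894901746319535)) (a (c (c (l 142884868750262447) (l 142829824436895919)) (c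 (a (l 142748254401446063) (l 142800893528785071)) (b (l 142716231116390575) (a (a (l 142681733933777071) (a (l 142701868743606447) (l 142715269043667119))) (b (l 142747292324806831) (a (a (l 142730112452985007) (l 142743444033552559)) (a (l 142756844333613231) (l 142770175914197167)))))))) (c (a (l 142934209340080303) (l 142985130480189615)) (a (b (l 142823433518727343) (c (l 142856143996731567) (a (a (l 142782064385507503) (l 142795395966091439)) (l 142815324617490607)))) (a (l 142865764723097775) (l 142892015567339695))))))))))))), by decide +kernel⟩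

def k15_pm_102_a : ∃ t, chk3 f_pm_102_a t 37 7 1 = true :=
  ⟨(b (b (l 16688312) (b (l 16694440) (l 16699248))) (a (b (b (l 16699672) (a (l 142983481225183343) (l 143064638940332143))) (b (c (b (l 143307631066988655) (a (l 143330171060404335) (l 143414146272919663))) (b (l 142901567582224559) (a (l 142916960749158575) (l 143011243885887663)))) (c (b (l 143445894676824175) (c (l 143626764375867631) (b (l 143405762488270959) (l 143448162369306735)))) (a (b (l 142990078285103279) (b (l 143052200702607535) (c (l 143198916794957999) (b (l 142981007306752175) (a (c (l 143030141744332975) (l 142925550677164207)) (l 143029179667906735)))))) (b (l 143087797395980463) (c (l 143272584106246319) (b (l 143049589354725551) (b (l 143082849587282095) (l 143105595695136943))))))))) (b (b (l 16712224) (b (l 16718360) (c (l 16745688) (l 16700496)))) (b (b (c (l 143469121860993263) (l 143081750078800047)) (c (l 143539971652387055) (l 143153561944096943))) (c (b (l 143616731319927023) (c (l 143793615288303855) (l 143604018207801583)))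 (b (c (l 143329071523315887) (l 143135763591086255)) (b (a (l 143247776363626671) (l 143344052365607087)) (c (l 143435655449854127) (a (l 143195137230274735) (l 143294917926469807)))))))))), by decide +kernel⟩

def k16_pm_102_a : ∃ t, chk3 f_pm_102_a t 19 7 1 = true :=
  ⟨(b (b (b (l 16712712) (a (l 16713224) (l 16732496))) (a (c (l 16741440) (l 16699280)) (c (l 16761720) (l 16724536)))) (b (a (a (b (l 16724344) (b (l 16730664) (l 143383153764401263))) (b (l 16736296) (l 143520936335409263))) (b (l 16753856) (c (l 16781600) (l 16745664)))) (c (a (b (a (l 143669370444808431) (l 143830861238255855)) (c (a (l 143915180058869999) (l 144073372316762351)) (b (l 143777466191331567) (a (l 143776985156370671) (l 143945416619245807))))) (b (l 144064576212746479) (b (l 144181536781566191) (b (l 144244140235489519) (a (l 144210192809689327) (l 144363780863590703)))))) (b (a (a (l 143304401218437231) (l 143487607372300399)) (b (l 143715343754100975) (l 143792172142756079))) (a (b (a (l 143421980263448687) (l 143606904404820079))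 (b (a (l 143486301704945775) (l 143671913041363055)) (a (c (l 143620235993039087) (c (l 143486851458744495) (a (l 143348381685219503) (l 143447475186925743)))) (b (l 143525609281454191) (c (l 143811551046713583) (b (l 143640714389848175) (c (l 143693559678681327) (a (l 143563198805180591) (l 143659818405576879))))))))) (c (b (l 143950226970935535) (a (a (l 143909270157721839) (l 143995306956488943)) (a (l 144079969365606639) (l 144163188665598191)))) (b (l 143800006161367279) (b (l 143866732785615087) (a (b (l 143810245366857967) (a (c (l 143826257010049263) (a (l 143725445516771567) (l 143772724524728559))) (c (l 143916898014970095) (a (l 143819659935285487) (l 143866251748425967))))) (b (l 143991733535555823) (a (c (l 144006095910732015) (a (l 143912431244673263) (l 143958267143487727))) (c (l 144093850697367791) (a (l 144003759444902127) (l 144048839429406959)))))))))))))), by decide +kernel⟩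

def k17_pm_102_a : ∃ t, chk3 f_pm_102_a t 5 6 1 = true :=
  ⟨(a (b (a (l 16701528) (l 16721024)) (a (l 16805536) (l 16745048))) (b (a (l 16736496) (l 16751512)) (a (l 16784760) (l 16865776)))), by decide +kernel⟩

def k18_pm_102_a : ∃ t, chk3 f_pm_102_a t 10 7 1 = true :=
  ⟨(b (a (b (b (l 16746112) (b (l 16756000) (l 16762584))) (a (c (l 16781552) (l 16749496)) (c (l 16799352) (l 16772600)))) (b (l 16779440) (b (a (l 16796264) (l 16808816)) (l 16834952)))) (a (b (a (c (l 16818408) (b (l 16761136) (l 16771888))) (b (l 16797424) (l 16808264))) (b (a (c (l 144357527385932079) (a (l 144008157493051631) (l 144168067742023983))) (a (a (l 144400064740327727) (l 144463286669787439)) (l 144532555917951279))) (b (a (c (l 144475312589340975) (a (l 144130546903597295) (l 144290938189365551))) (a (c (l 16838920) (l 144439715882156335)) (l 144652883744096559))) (a (c (a (a (l 144453665952612655) (l 144525752694882607)) (b (l 144607460164944175) (l 144650890881974575))) (b (a (l 144196655052521711) (l 144357115057963311))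 (c (a (a (l 144267642287931695) (l 144347425613725999)) (b (l 144450985882288431) (l 144473938191827247))) (b (a (l 144167036950741231) (l 144333681710711087)) (a (a (c (l 144180093655367919) (a (l 144093575816495343) (l 144137831167197423))) (c (l 144264343748280623) (a (l 144181468042526959) (l 144224555161960687)))) (a (a (l 144296229589811503) (l 144337255124566319)) (a (l 144377593464471855) (l 144417382048465199)))))))) (b (c (a (l 607036375340325725842735) (l 16853624)) (a (l 144505892750950703) (l 144620997898961199))) (c (a (l 607218248751039453635887) (l 607584877877396660643183)) (b (a (l 144540252495921455) (l 144655357644013871)) (a (c (l 144616737288995119) (a (l 144475931052933423) (l 144548430114292015))) (a (l 144652471424532783) (l 144704629519335727)))))))))) (b (a (a (l 16837936) (l 16825656)) (b (l 16831912) (l 16843696))) (b (a (c (l 16849880) (l 144581140599308591)) (c (l 16864296) (l 16851440))) (a (b (c (l 16860464) (l 144704904401092911)) (a (b (l 144803791747350831) (c (l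 144938619387871599) (a (l 144743730910921007) (l 144793277664903471)))) (c (l 144984455291044207) (b (l 16855088) (l 144865089534345583))))) (c (a (b (l 16871592) (l 16879376)) (l 16882512)) (b (l 16863488) (a (l 144933740307546479) (l 16877000))))))))), by decide +kernel⟩

def k19_pm_102_a : ∃ t, chk3 f_pm_102_a t 11 7 1 = true :=
  ⟨(b (a (b (l 16800984) (a (l 16933248) (l 16882256))) (b (l 16821560) (a (l 16851776) (b (l 16853544) (l 16891672))))) (b (a (a (l 16916256) (l 16889520)) (a (b (l 16876296) (b (l 16883480) (l 16949992))) (b (a (l 16881800) (l 16880504)) (l 16904168)))) (a (a (b (l 16873376) (a (c (l 16889496) (l 16882072)) (b (l 16888976) (b (l 16895168) (l 16920008))))) (b (b (l 16884824) (l 16890816)) (a (b (l 16895488) (a (l 16900664) (l 16901080))) (b (l 16918120) (a (a (l 16900968) (l 16900528)) (l 16899392)))))) (b (a (a (a (l 16892240) (l 16891520)) (l 16889736)) (l 16885944)) (a (b (a (l 16895144) (l 16892160)) (l 16937312)) (b (l 16888456) (l 16890392))))))), by decide +kernel⟩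

def k20_pm_102_a : ∃ t, chk3 f_pm_102_a t 24 4 1 = true :=
  ⟨(b (a (b (b (a (l 16774960) (b (a (l 16772056) (l 16769504)) (l 16772784))) (a (l 16775336) (l 16774584))) (a (b (l 16774040) (l 16771560)) (l 16775048))) (b (a (b (b (a (b (a (l 16766328) (a (c (l 16767472) (l 16762440)) (b (c (b (l 69424096263) (l 16766248)) (b (l 69960960263) (l 16761240))) (l 16764408)))) (c (l 16769664) (l 16764480))) (b (a (a (b (c (l 89825190535) (l 88751438695)) (c (l 63518516807) (l 64592251335))) (c (l 90898931671) (l 89825182343))) (l 3)) (a (a (l 16764784) (b (c (l 62444774999) (l 63518509431)) (l 16764264))) (b (c (l 90362060599) (l 88751440103)) (c (a (l 61371033271) (l 84993352039)) (a (l 62444767367) (l 84456470583))))))) (a (l 16769176) (a (l 16766800) (b (c (l 56539197511) (l 57076058135)) (l 16765848))))) (c (l 16774080) (l 16768480))) (b (b (l 3) (a (b (a (a (b (a (l 79087768071) (l 90362055223)) (l 59760416599)) (c (l 87677705815) (l 86603953159))) (l 3)) (a (c (l 16766824) (l 16761248)) (b (c (l 86603963863)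 (l 85530210919)) (c (l 69424096375) (l 70497829639))))) (c (l 98951990455) (l 97341369127)))) (b (b (a (c (l 16767688) (l 16761944)) (a (b (c (l 84456480039) (l 81772113991)) (c (l 68887225575) (l 69960958391))) (b (l 3) (l 95730761767)))) (a (l 16766368) (a (l 16763696) (b (c (l 82845867143) (l 81235242551)) (c (l 67813483911) (l 69424087223)))))) (a (l 16768456) (c (l 16768360) (l 16762192)))))) (b (a (l 16774176) (b (l 16769480) (l 16771512))) (a (l 16775176) (l 16773472))))) (b (a (b (l 16771232) (l 16768472)) (b (l 16775112) (a (l 16774040) (l 16775072)))) (a (l 16763096) (l 16773216)))), by decide +kernel⟩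

def k21_pm_102_a : ∃ t, chk3 f_pm_102_a t 50 8 1 = true :=
  ⟨(b (b (l 3) (a (b (a (a (c (l 98415120407) (l 96804495767)) (l 3)) (l 3)) (a (b (c (a (b (l 81235254247) (l 16765216)) (l 96804508599)) (a (b (l 80698371111) (l 16760336)) (l 95193883463))) (a (l 16763368) (b (c (l 80698384167) (l 81772115863)) (c (l 16765152) (l 16758776))))) (a (b (l 3) (c (l 96804508423) (l 95193882919))) (l 3)))) (l 3))) (b (a (b (a (c (l 16768168) (l 16761648)) (b (a (b (c (l 80161513447) (l 81235244759)) (c (l 16765088) (l 16758528))) (b (l 3) (c (l 93583283351) (l 92509528327)))) (a (l 16763024) (a (a (l 16761880) (l 65129123943)) (c (l 76940288215) (l 78014018887)))))) (a (l 16767672) (c (l 16767968) (l 16761088)))) (b (a (b (l 3) (a (b (l 106468177047) (a (c (l 82845867223) (l 83382726967)) (l 104857564711))) (l 3))) (l 3)) (a (b (a (a (a (l 16761712) (l 16762560)) (b (c (l 81772125319) (l 82308984951)) (l 16760976))) (a (b (l 104320696215) (c (l 80698383735) (l 81772113927))) (c (l 105931312679) (l 104857556935))))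 (a (l 16762664) (a (a (l 16761536) (l 16762712)) (b (c (l 79624641815) (l 80698371815)) (l 16760792))))) (b (l 3) (a (b (c (l 106468183415) (l 104857556471)) (c (a (l 78550900055) (l 103246958407)) (a (l 79624629703) (l 102173202231)))) (l 3)))))) (a (c (l 16772776) (l 16766064)) (b (a (c (l 16767560) (l 16760392)) (b (a (b (a (l 16760696) (c (b (l 87677705031) (l 16763648)) (l 79087758487))) (c (l 16764736) (l 16757432))) (a (b (c (l 102710087367) (l 101636330999)) (c (b (l 86603963255) (l 16763552)) (b (l 87677692407) (l 16756216)))) (b (l 3) (b (l 3) (c (l 100562606391) (l 100025718135)))))) (a (l 16761960) (a (c (l 16764296) (l 16757000)) (b (c (b (l 86067091863) (l 16763224)) (l 83919596135)) (l 16759976)))))) (a (l 16766040) (c (l 16766376) (l 16759208))))))), by decide +kernel⟩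

def k22_pm_102_a : ∃ t, chk3 f_pm_102_a t 51 8 1 = true :=
  ⟨(b (l 3) (b (l 3) (a (b (a (b (l 3) (a (a (b (c (b (l 116668730135) (l 101636344903)) (l 104320684631)) (c (l 82308995239) (l 83382724583))) (b (l 3) (c (l 104320701239) (l 103783813063)))) (l 3))) (l 3)) (a (b (a (a (l 16762560) (b (c (l 81772123623) (l 83382724263)) (l 16759304))) (a (b (c (l 103783826967) (l 103246941479)) (c (l 81235252007) (l 83382723623))) (b (l 3) (c (l 103246955319) (l 102710069895))))) (a (l 16760640) (a (l 16759256) (c (l 79087768455) (l 80698368759))))) (b (l 3) (a (a (b (c (l 103246954567) (l 102710069223)) (c (l 16761320) (l 16754136))) (b (l 3) (c (l 102710082903) (l 102173197623)))) (l 3))))) (l 3)))), by decide +kernel⟩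

def k23_pm_102_a : ∃ t, chk3 f_pm_102_a t 25 9 1 = true :=
  ⟨(a (b (a (l 16773032) (b (b (l 16766352) (l 16768032)) (l 16770160))) (b (a (l 16774752) (l 16772344)) (l 16774768))) (b (b (a (a (c (l 16766000) (l 16758984)) (b (b (a (c (l 78014026263) (l 79624624967)) (b (c (a (l 102173211207) (l 3)) (l 107005039703)) (c (a (l 16760560) (l 102173210423)) (a (l 16753456) (l 101636325303))))) (a (l 16759224) (c (l 16760936) (l 16753880)))) (l 16759936))) (a (b (b (l 3) (a (b (c (a (l 101636338711) (l 3)) (l 107005038279)) (c (a (l 16759776) (l 101636337911)) (a (l 16752752) (l 101099452951)))) (l 3))) (b (a (c (l 16760144) (l 16753160)) (b (c (a (l 101099466167) (l 120426817575)) (l 107005036807)) (c (a (l 16758968) (l 101099465335)) (l 95730748599)))) (a (l 16757704) (c (l 16759320) (l 16752424))))) (b (l 3) (b (a (c (l 121500557735) (l 120426801943)) (l 3)) (a (a (c (l 94657015687) (l 96267618391)) (c (l 108078786519) (l 107005034935))) (c (l 122574297815) (l 121500542247))))))) (a (l 16764552) (a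 (b (l 16758376) (l 16760376)) (b (a (c (l 16759000) (l 16752232)) (a (b (b (c (l 101636335143) (l 102710067031)) (l 16753824)) (l 16754648)) (b (b (l 120426807175) (c (l 101636334087) (l 103246937015))) (l 16753688)))) (l 16756712))))) (a (l 16769088) (b (b (l 16760480) (l 16762272)) (l 16764736))))), by decide +kernel⟩

def k24_pm_102_a : ∃ t, chk3 f_pm_102_a t 12 5 1 = true :=
  ⟨(b (a (b (l 16761288) (l 16753712)) (a (b (l 16774968) (l 16768344)) (b (b (a (l 16772352) (l 16767600)) (l 16793336)) (l 16775200)))) (a (b (l 16751896) (l 16753528)) (b (l 16804728) (l 16763512)))), by decide +kernel⟩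

def k25_pm_102_a : ∃ t, chk3 f_pm_102_a t 26 8 1 = true :=
  ⟨(l 3), by decide +kernel⟩

def k26_pm_102_a : ∃ t, chk3 f_pm_102_a t 104 9 1 = true :=
  ⟨(b (b (l 3) (a (c (b (b (l 125795520247) (a (b (a (l 100562591207) (l 122037425015)) (l 96804494887)) (l 125258648775))) (a (l 16757208) (b (a (l 95193880455) (a (l 104857554711) (l 112373746695))) (l 16755768)))) (b (b (l 124721764871) (a (b (a (l 101099452583) (l 120963669895)) (l 96267614519)) (l 124184893671))) (b (a (l 16750112) (b (a (l 100562579767) (l 121500539223)) (l 96267612599))) (l 16750256)))) (b (l 3) (b (a (c (l 126332388743) (l 125795504807)) (l 3)) (a (a (b (c (l 99488844887) (l 100025706919)) (l 16751272)) (b (c (l 123648034039) (l 122574279415)) (c (l 99488843703) (l 100025706119)))) (c (l 127942999575) (l 126869248935))))))) (b (b (a (l 16754968) (a (c (l 16755328) (l 16749024)) (b (a (b (c (l 98951971591) (l 99488834215)) (l 16750384)) (b (c (l 124184903031) (l 123648019607)) (c (l 98951970295) (l 99488833319)))) (c (l 16753848)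 (l 16747664))))) (a (l 16756936) (l 16753168))) (l 16757880))), by decide +kernel⟩

def k27_pm_102_a : ∃ t, chk3 f_pm_102_a t 105 9 1 = true :=
  ⟨(b (l 3) (b (b (a (b (b (l 3) (a (a (c (l 124721772967) (l 124184889687)) (l 3)) (l 3))) (a (a (b (c (c (l 98951970935) (l 98951967207)) (c (l 99488834071) (l 99488828071))) (l 16749480)) (b (c (l 125258642903) (l 124721762391)) (c (b (l 108615643703) (l 16751744)) (b (l 109152506423) (l 16745696))))) (a (a (b (l 3) (c (l 124721771335) (l 124184888343))) (l 3)) (l 3)))) (l 3)) (b (a (a (c (l 16752880) (l 16746832)) (a (b (c (b (l 108615643223) (l 16751264)) (b (l 110763119479) (l 16745288))) (l 16748576)) (b (c (l 129016737335) (l 129553596311)) (c (b (l 109152513495) (l 16750768)) (l 108078764823))))) (a (a (b (l 3) (c (l 129016736359) (l 129553595479))) (l 3)) (l 3))) (a (c (l 16752880) (l 16746928)) (a (a (b (c (l 105931287719) (l 108615634903)) (l 16747664)) (b (c (l 129553606279) (l 130090465559)) (c (l 106468157927) (l 109152505303)))) (b (l 3) (c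 (l 133311701031) (l 133311694775))))))) (b (a (l 16751304) (a (c (l 16751368) (l 16745632)) (b (a (b (c (l 107005028087) (l 109689375687)) (l 16746728)) (b (c (l 130090475191) (l 130627334775)) (c (l 107541898231) (l 110763116663)))) (l 16749600)))) (a (l 16753176) (l 16749360))))), by decide +kernel⟩

def k28_pm_102_a : ∃ t, chk3 f_pm_102_a t 53 9 1 = true :=
  ⟨(b (l 3) (a (b (l 3) (a (b (b (a (b (l 3) (c (l 134385440839) (l 134385429655))) (l 3)) (a (b (c (a (l 108078768359) (l 131164214999)) (a (l 111299986551) (l 131701074887))) (c (a (l 16748616) (l 109152509335)) (l 107541889399))) (b (l 3) (c (l 134922309719) (l 135459169767))))) (b (a (l 16746024) (b (c (a (l 110226250359) (l 132237954759)) (a (l 112910597559) (l 132237944087))) (c (l 106468154311) (l 109152500231)))) (a (l 16746952) (l 16745048)))) (b (l 3) (b (a (b (l 3) (c (l 136532920391) (l 136532909863))) (l 3)) (a (b (c (a (l 111299990423) (l 133311694503)) (a (l 113984337479) (l 133848555079))) (c (l 108078765271) (l 110226240119)))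 (b (l 3) (c (l 138680401943) (l 138680391767)))))))) (l 3))), by decide +kernel⟩

def k29_pm_102_a : ∃ t, chk3 f_pm_102_a t 27 4 1 = true :=
  ⟨(l 3), by decide +kernel⟩

def k30_pm_102_a : ∃ t, chk3 f_pm_102_a t 26 5 1 = true :=
  ⟨(b (a (b (b (a (l 16761248) (l 16753936)) (a (l 16764528) (l 16757512))) (b (a (l 16769600) (l 16763664)) (l 16771768))) (b (a (b (a (b (l 16747344) (l 16749072)) (b (b (a (l 16744064) (b (c (a (l 112373730375) (l 135459176055)) (a (l 114521206455) (l 135459166071))) (c (a (l 16745440) (l 112910600231)) (l 111836851079)))) (a (l 16744944) (l 16743064))) (l 16745280))) (b (l 16748816) (l 16751104))) (b (a (b (a (b (b (l 3) (c (l 140291012567) (l 140291002743))) (a (b (c (l 113447470231) (l 115594946503)) (l 16741880)) (b (c (l 137069786647) (l 137069777031)) (c (l 115058082039) (l 116668687271))))) (a (b (l 3) (c (l 141364752775) (l 141364743223))) (l 3))) (b (a (l 16744672) (a (b (c (l 115058080919) (l 117205557255)) (l 16740856)) (b (c (l 138143526263) (l 138680387943))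 (c (l 115594950695) (l 118279298151))))) (a (l 16742872) (l 16743624)))) (b (l 3) (a (a (b (c (l 142438492359) (l 142975354103)) (b (c (l 116668691367) (l 118816167943)) (l 16739800))) (b (l 3) (b (c (l 140291007623) (l 140827869687)) (c (l 117742432007) (l 119889908791))))) (b (l 3) (c (a (l 144049102775) (l 3)) (l 146733453159)))))) (b (a (l 16743120) (a (c (l 16742496) (l 16738248)) (a (b (b (c (l 118816172631) (l 120963649639)) (l 16738704)) (l 16739264)) (b (b (c (l 141901617991) (l 142438480487)) (c (l 118816169127) (l 121500519383))) (l 16738328))))) (a (l 16745400) (l 16741600))))) (a (b (l 16756544) (l 16763312)) (b (l 16749088) (l 16756176))))) (a (l 16761016) (b (a (l 16813488) (l 16807976)) (l 16775176)))), by decide +kernel⟩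

def k31_pm_102_a : ∃ t, chk3 f_pm_102_a t 54 20 1 = true :=
  ⟨(a (b (l 3) (b (a (a (b (c (a (l 145659713111) (l 3)) (l 148344063911)) (a (b (c (l 119889909719) (l 122037385351)) (l 16737568)) (b (c (l 144049099175) (l 144585962119)) (c (l 120963650279) (l 123111126151))))) (b (l 3) (c (l 149417806359) (l 149954669367)))) (l 3)) (a (b (a (c (l 16739856) (l 16735992)) (a (b (c (b (l 127406099815) (l 16739424)) (l 123647996055)) (l 16736832)) (b (c (l 146196580327) (l 146733443719)) (c (l 122574261367) (l 124721737575))))) (c (l 16740728) (l 16736864))) (b (a (b (l 3) (c (l 149954675639) (l 150491539127))) (l 3)) (a (a (b (c (l 123648003191) (l 124721737623)) (l 16736848)) (b (l 148880933303) (c (l 124721744999) (l 126869221319)))) (c (l 153175900423) (l 153175893047))))))) (l 3)), by decide +kernel⟩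

def k32_pm_102_a : ∃ t, chk3 f_pm_102_a t 54 21 1 = true :=
  ⟨(a (b (a (b (l 16741552) (l 16745240)) (b (a (b (c (l 16739720) (l 16735976)) (l 16739648)) (a (b (b (c (l 126332357703) (l 127942963159)) (l 16736840)) (l 16738224)) (b (b (l 151565285255) (c (l 127406099479) (l 129016704999))) (l 16737280)))) (l 16741456))) (l 16748736)) (b (a (b (b (a (c (l 154249642167) (l 154786505799)) (l 3)) (a (a (b (c (l 128479841239) (l 129553575895)) (l 16736800)) (b (l 153175897943) (c (l 129553582983) (l 132237933223)))) (c (l 155860254759) (l 155860247591)))) (b (a (c (l 16739560) (l 16735944)) (a (b (c (l 130627324727) (l 133311675015)) (l 16736728)) (b (l 155323381479) (c (l 131701066439) (l 134385416807))))) (a (l 16739512) (c (l 16739440) (l 16735888))))) (b (l 3) (a (a (b (l 156933993463) (b (c (l 132774808151) (l 135459158407)) (l 16736632))) (b (l 3) (b (l 3) (c (l 134922291671) (l 136532899671))))) (l 3)))) (a (b (l 16741264) (l 16744816)) (b (b (a (c (l 16739296) (l 16735816)) (a (b (c (l 136532904247)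 (l 137606640759)) (l 111299969479)) (b (l 3) (c (l 137606645927) (l 138680381031))))) (a (l 16739288) (c (l 108615618743) (l 112910581351)))) (l 16740984))))), by decide +kernel⟩

def k33_pm_102_a : ∃ t, chk3 f_pm_102_a t 55 10 1 = true :=
  ⟨(b (l 3) (a (b (l 3) (a (b (b (l 3) (a (a (b (c (l 139217258487) (l 140290993671)) (l 113447451575)) (b (l 3) (c (l 140827871047) (l 141901606295)))) (l 3))) (a (b (c (l 109152488039) (l 113984323111)) (l 16738984)) (b (a (b (c (l 142975354503) (l 143512218919)) (l 115058062631)) (c (l 149954675495) (l 150491539927))) (c (l 109689357127) (l 115594935751))))) (b (l 3) (b (l 3) (a (a (b (l 144585958247) (l 117205544359)) (b (l 3) (l 146196570311))) (l 3)))))) (l 3))), by decide +kernel⟩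

def k34_pm_102_a : ∃ t, chk3 f_pm_102_a t 27 11 1 = true :=
  ⟨(a (b (a (b (l 16755648) (l 16762616)) (b (l 16748160) (l 16755328))) (a (l 16771688) (b (l 16762480) (l 16768936)))) (b (a (b (a (b (l 16740640) (l 16744144)) (b (a (b (c (l 110763097655) (l 116668676647)) (l 16738600)) (b (a (b (l 148344053847) (l 119353026151)) (b (l 3) (l 152102155767))) (c (l 112373710199) (l 117205545719)))) (l 16740256))) (l 16747752)) (b (a (b (a (b (l 3) (a (b (l 153712768295) (l 122574251511)) (l 159081476535))) (l 3)) (a (b (b (l 118279284631) (l 16736848)) (l 16738200)) (b (c (l 149417803511) (a (l 145122831207) (l 161765827815))) (b (l 120426768327) (l 16736688))))) (b (l 3) (a (b (l 3) (c (l 147270319399) (l 148344055543))) (l 3)))) (a (b (l 16740016) (l 16743760)) (b (a (b (c (l 118279289463) (l 121500509351)) (l 16737976)) (b (c (l 148880931879) (l 149954668055)) (c (l 119889902007) (l 124721738519)))) (l 16739784))))) (a (b (l 16755088) (l 16762344)) (b (l 16747384) (l 16754800))))), by decide +kernel⟩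

def k35_pm_102_a : ∃ t, chk3 f_pm_102_a t 7 2 1 = true :=
  ⟨(a (b (l 3) (a (b (l 3) (a (b (a (b (l 3) (a (b (a (b (l 3) (c (l 151565286183) (l 152639022391))) (l 3)) (a (b (c (l 122037385607) (l 126869221927)) (l 16737696)) (b (c (l 154249640439) (l 155323376695)) (c (l 125795485415) (l 129016705303))))) (b (l 3) (a (b (l 3) (l 157470862775)) (l 3))))) (l 3)) (a (b (a (b (l 16739504) (l 16743264)) (b (a (b (c (l 127942968711) (l 130627317767)) (l 16737384)) (b (l 160155217031) (c (l 131164193815) (l 133311672039)))) (l 16739192))) (l 16746920)) (b (a (b (a (l 164450182535) (l 3)) (a (b (c (l 132774806167) (l 135459155399)) (l 16737040)) (b (l 166597667335) (c (l 135459160343) (l 138143509655))))) (b (l 3) (l 3))) (a (b (a (l 16739896) (l 16737816)) (l 16742688)) (b (a (b (c (l 136532901751) (l 146733443959)) (l 16736672)) (b (l 3) (c (l 125795483095) (l 149954669127)))) (a (l 16739560) (c (b (l 16737792) (l 16739784)) (l 116131804183)))))))) (b (l 3) (a (b (l 3) (a (b (l 3) (a (b (c (l 124184869943)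 (l 152639023399)) (c (l 117205552695) (l 16735112))) (b (l 3) (c (a (l 113447452167) (l 149417801415)) (l 155323377687))))) (l 3))) (l 3))))) (l 3))) (l 3)), by decide +kernel⟩

def k36_pm_102_a : ∃ t, chk3 f_pm_102_a t 6 3 1 = true :=
  ⟨(b (a (b (a (b (l 16760960) (l 16771952)) (b (l 16769688) (a (l 16781384) (l 16698496)))) (a (b (l 16788496) (a (l 16806856) (l 16814104))) (b (l 16796512) (a (l 16814576) (l 16810600))))) (b (a (b (l 16769448) (l 16798344)) (a (l 16769320) (b (a (l 16771992) (b (l 16762256) (l 16769232))) (l 16773184)))) (a (b (a (l 16792160) (l 16785488)) (a (l 16805640) (l 16799152))) (b (a (l 16779200) (l 16772624)) (a (l 16812912) (l 16824744)))))) (a (b (a (b (a (l 16834944) (l 16836336)) (a (l 16862288) (l 16857168))) (b (l 16829904) (l 16848856))) (b (a (b (l 16937208) (l 16877320)) (b (l 16904648) (l 16953928))) (b (a (l 16943272) (l 16935824)) (a (a (l 16885776) (l 16882768)) (a (l 16879224) (l 16874752)))))) (b (a (b (l 16838712) (l 16855656)) (b (a (l 16805576) (l 16818080))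 (a (l 16821120) (l 16811456)))) (b (a (b (l 16847952) (a (l 16860560) (l 16851232))) (a (b (l 16833160) (l 16882424)) (b (l 16822720) (a (l 16832464) (l 16827704))))) (a (a (b (l 16864216) (l 16868968)) (b (l 16856224) (b (l 16859960) (l 16862760)))) (b (a (l 16846792) (a (b (l 16838000) (l 16841176)) (b (l 16834136) (l 16838184)))) (a (a (b (l 16853240) (l 16856232)) (b (l 16848664) (a (l 16853248) (l 16851896)))) (a (b (l 16845344) (b (l 16848904) (a (l 16851936) (l 16850760)))) (b (l 16842792) (c (l 16854760) (l 16840800))))))))))), by decide +kernel⟩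

def k37_pm_102_a : ∃ t, chk3 f_pm_102_a t 28 6 1 = true :=
  ⟨(b (a (b (a (b (l 16754536) (l 16762280)) (b (a (l 16748544) (l 16744456)) (l 16754584))) (b (a (l 16769592) (l 16762760)) (l 16772792))) (b (a (b (a (b (a (l 16739296) (b (c (l 118279294375) (l 16734976)) (l 16738160))) (l 16742296)) (b (a (b (c (a (l 115058064503) (l 148880930119)) (l 152639022855)) (c (l 118279294071) (l 126332353063))) (b (l 3) (c (l 142975361143) (l 145659700743)))) (a (l 16739048) (b (c (a (l 16737536) (l 116668678487)) (l 129553578599)) (l 16737872))))) (a (l 16748536) (b (l 16742144) (l 16746408)))) (b (a (b (l 3) (a (b (c (l 144585973511) (l 146196571399)) (c (a (l 16737328) (l 116131807175)) (l 131164191255))) (b (l 3) (c (l 146733446295) (l 148344054823))))) (l 3)) (a (b (a (c (l 16740024) (l 16737632)) (b (c (a (l 118279293607) (l 116131806775)) (l 131701062263)) (c (l 16738728) (l 16736496)))) (l 16741984)) (c (b (a (b (l 147807187751) (a (l 117742422599) (l 115594935463))) (l 149417798583)) (a (l 16739680)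 (b (a (l 115594938871) (l 115058064183)) (l 16738336)))) (b (a (b (l 150491538263) (l 127406092631)) (l 160692083767)) (a (l 16737464) (b (l 130090446999) (l 16736304)))))))) (b (a (l 16760328) (a (l 16748608) (b (c (l 16743072) (l 16740664)) (l 16746368)))) (a (l 16763384) (a (l 16757608) (l 16753232)))))) (a (b (l 16770496) (l 16775392)) (b (a (l 16773456) (b (a (l 16765888) (l 16762256)) (l 16771504))) (l 16770184)))), by decide +kernel⟩

def k38_pm_102_a : ∃ t, chk3 f_pm_102_a t 29 12 1 = true :=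
  ⟨(a (b (a (b (l 3) (a (b (l 3) (a (b (l 3) (c (a (l 117742420487) (l 117205547463)) (l 129553575911))) (l 3))) (l 3))) (l 3)) (a (b (a (b (a (c (b (l 16738136) (l 16740504)) (l 16737320)) (b (c (a (l 117205549191) (l 117205547127)) (l 130627317607)) (c (l 105931262631) (l 16736152)))) (c (l 16742832) (l 16740632))) (b (a (b (l 3) (c (l 116668676967) (l 131701059319))) (l 3)) (a (c (b (l 103783779095) (l 16740176)) (l 107541873095)) (b (c (l 116668676663) (l 133311671975)) (c (l 102173166423) (l 112373710775)))))) (a (l 16748736) (b (c (l 16742608) (l 16740632)) (l 16746416)))) (b (a (a (b (l 3) (c (l 138143511207) (l 151028410311))) (l 3)) (l 3)) (a (b (a (b (c (l 101099424567) (l 113447452743)) (l 16739080)) (b (l 138143511431) (c (l 101099424695) (l 117205549351)))) (c (l 16742456) (l 16740720))) (b (a (l 142438477015) (l 3)) (a (b (c (l 115594939383) (l 119889904119)) (l 16739064)) (b (l 144585962551) (c (l 122574261399) (l 122574258775))))))))) (b (l 3) (a (l 3) (l 3)))), by decide +kernel⟩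

def k39_pm_102_a : ∃ t, chk3 f_pm_102_a t 29 13 1 = true :=
  ⟨(a (b (a (b (a (l 16758264) (l 16753720)) (b (l 16762856) (l 16766992))) (b (a (l 16743824) (b (c (l 16737192) (l 16735680)) (l 16746784))) (a (b (l 16756504) (l 16761376)) (l 16754448)))) (a (l 16774272) (b (a (l 16767760) (l 16785040)) (l 16773168)))) (b (a (b (a (b (b (a (c (l 124184873095) (l 133311677031)) (l 3)) (a (c (l 16739768) (l 16738672)) (c (l 133848549703) (l 137069794455)))) (a (l 16743096) (c (l 16735976) (l 16740104)))) (b (l 3) (a (b (c (l 137606646391) (l 133848545927)) (c (l 16739944) (l 16739072))) (b (l 3) (l 143512226071))))) (a (b (l 16747112) (l 16752328)) (b (a (l 16743432) (c (l 69960911911) (l 89288268167))) (l 16747536)))) (b (l 3) (a (b (a (b (l 144049097543) (c (l 100562555303) (l 116131815687))) (l 154249643559)) (a (l 16738632) (b (c (l 120426782343) (l 141364752087)) (l 16742784)))) (b (l 3) (a (b (l 163913322663) (c (l 135459171095) (l 156397140823))) (l 3)))))) (a (b (b (l 16755152) (a (l 16762376)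 (l 16757952))) (a (l 16768872) (b (l 16762904) (l 16767384)))) (b (a (b (l 16742816) (l 16753344)) (b (a (c (l 16739672) (l 16744048)) (b (l 159618369319) (c (l 91972631959) (l 16743128)))) (c (l 16749280) (l 16748064)))) (a (b (l 16758496) (l 16763480)) (l 16746056)))))), by decide +kernel⟩

def k40_pm_102_a : ∃ t, chk3 f_pm_102_a t 15 6 1 = true :=
  ⟨(a (b (l 3) (a (b (l 3) (a (b (a (b (a (b (l 3) (l 152639050039)) (l 3)) (a (b (a (l 16744312) (l 137606666407)) (l 16746416)) (b (l 155323405783) (c (a (l 16744952) (l 138680406103)) (l 150491571767))))) (b (l 3) (a (b (l 3) (l 155860275223)) (l 3)))) (a (b (a (l 16750440) (c (l 16748576) (l 16747736))) (l 16754584)) (b (a (b (c (a (l 116668700967) (b (l 170355788487) (l 148344085415))) (l 163913347031)) (c (l 16747488) (l 16746880))) (b (l 155323402807) (a (b (l 164450214775) (l 16750752)) (b (l 153175916519) (l 173040148663))))) (a (l 16751168) (b (a (l 16748120) (a (l 16747272) (b (l 16748968) (l 16747376)))) (l 16750232)))))) (b (l 3) (a (b (a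 (b (l 3) (l 3)) (l 3)) (a (a (b (b (l 171966406119) (c (l 142975380439) (l 16746784))) (c (l 16748848) (l 16748328))) (b (b (l 3) (l 168745180071)) (b (c (c (l 140827895575) (l 166597700455)) (l 16748392)) (l 16748104)))) (b (l 3) (a (b (l 163913341335) (c (c (l 152102185703) (l 170355795991)) (l 178408856903))) (b (l 3) (l 153712793207)))))) (l 3))))) (l 3))) (l 3)), by decide +kernel⟩

def k41_pm_102_a : ∃ t, chk3 f_pm_102_a t 14 7 1 = true :=
  ⟨(b (a (b (a (b (l 16784576) (l 16792072)) (b (l 16776576) (a (l 16785360) (l 16780912)))) (a (b (l 16798408) (l 16805488)) (b (a (l 16792008) (l 16788592)) (a (l 16798968) (l 16795256))))) (b (a (b (l 16771184) (l 16775776)) (a (l 16773320) (b (b (a (l 16768040) (l 16764112)) (l 16770536)) (l 16774736)))) (a (b (a (l 16784608) (l 16780408)) (a (l 16791712) (l 16788576))) (b (l 16775720) (a (b (l 16782440) (l 16786696)) (b (l 16779104) (l 16782504))))))) (a (b (a (b (l 16854960) (a (l 16823456) (l 16819952))) (b (l 16805224) (l 16835592))) (b (a (b (a (l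 16851968) (l 16827536)) (a (l 16835400) (l 16832360))) (b (a (l 16823960) (l 16820648)) (a (l 16829176) (l 16847024)))) (a (b (a (l 16840008) (l 16836944)) (a (c (l 16851712) (l 16838248)) (c (l 16848368) (l 16835416)))) (b (a (l 16833672) (l 16830344)) (a (c (l 16844800) (l 16832376)) (b (l 16833896) (a (l 16837184) (l 16835504)))))))) (b (a (b (l 16798000) (a (l 16809184) (l 16805528))) (b (a (l 16792520) (b (l 16786920) (l 16790864))) (a (l 16801760) (l 16797856)))) (b (a (b (l 16815176) (a (b (l 16821056) (l 16823592)) (b (l 16817456) (l 16820256)))) (a (b (l 16809496) (b (l 16813632) (l 16816328))) (b (l 16805512) (l 16810904)))) (a (b (a (l 16826992) (l 16823544)) (b (a (l 16830520) (l 16827040)) (a (c (l 16838736) (l 16827384)) (c (l 16836152) (l 16824264))))) (b (a (l 16819952) (b (b (l 16814504) (l 16815624)) (l 16817304))) (b (a (l 16823416) (l 16819592)) (b (a (l 16825200) (l 16821360)) (a (c (l 16831432) (l 16821560)) (c (l 16827112) (l 16818152))))))))))), by decide +kernel⟩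

def k42_pm_102_a : ∃ t, chk3 f_pm_102_a t 60 14 1 = true :=
  ⟨(b (a (b (a (b (l 16759768) (l 16764800)) (b (l 16755320) (l 16760504))) (b (a (l 16769544) (l 16797008)) (l 16772088))) (b (a (b (a (c (l 16752432) (l 16751632)) (b (c (a (l 16749264) (b (c (l 159618379447) (l 172503279431)) (l 16748784))) (a (l 16748912) (b (l 174113891175) (l 16748704)))) (c (l 16751456) (l 16750864)))) (c (l 16756744) (l 16755656))) (b (a (a (b (b (l 149417825143) (a (b (l 176261374647) (l 16748480)) (l 162839601911))) (b (c (c (l 16749136) (l 16749040)) (l 16749008)) (l 16750160))) (c (b (l 147270342199) (a (b (l 171429539767) (l 16749544)) (b (l 154786536727) (b (l 16750264) (l 16749416))))) (b (l 148880953415) (l 173040153511)))) (a (b (l 3) (b (l 3) (a (c (l 170892668551) (l 160692119031)) (l 150491570487)))) (l 3))) (a (b (c (l 16751904) (l 16751384)) (l 16754224)) (b (c (a (b (c (a (l 16749904) (l 155323414503)) (l 164450221463)) (l 16750888)) (a (b (l 167134572087) (l 16748824)) (b (l 144049119559) (b (l 169818926503)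 (l 16750056))))) (a (b (l 183777571143) (l 16750672)) (b (l 152102183415) (l 181093216519)))) (c (c (l 16749920) (l 16752240)) (l 16754544)))))) (a (b (l 16761320) (a (l 16767320) (l 16765336))) (b (a (l 16758128) (b (l 16754728) (l 16757360))) (l 16762320))))) (a (b (l 16774008) (l 16777312)) (b (b (a (l 16771152) (b (l 16766064) (l 16768512))) (l 16773688)) (l 16774248)))), by decide +kernel⟩

def k43_pm_102_a : ∃ t, chk3 f_pm_102_a t 122 28 1 = true :=
  ⟨(b (b (l 3) (a (a (a (b (a (b (l 3) (c (l 150491571911) (l 152639055479))) (l 3)) (b (c (c (a (l 121500541559) (l 174650768535)) (l 166597705095)) (l 173577024823)) (c (c (l 16751520) (l 16751296)) (l 16751280)))) (b (l 3) (b (a (b (l 3) (l 159618379799)) (l 3)) (c (c (a (l 144585997863) (l 148344090151)) (l 166060834023)) (l 167671446007))))) (b (l 3) (c (a (b (l 3) (l 147807217943)) (l 3)) (l 153175922167)))) (l 3))) (a (b (a (b (a (l 16753184) (c (c (l 16752504) (l 16752256)) (l 16752120))) (l 16755312)) (b (b (a (c (c (b (l 147807219639) (l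 150491578615)) (l 163913350695)) (l 163376478951)) (l 3)) (c (a (c (l 109689389095) (l 16751888)) (c (a (l 161228996887) (l 147807220311)) (l 154786542631))) (l 166060838327))) (b (a (l 16753112) (c (c (a (l 16752648) (l 125795517111)) (l 142438518055)) (l 16752160))) (c (l 16754184) (l 16753728))))) (c (l 16753416) (l 16757808))) (b (a (b (l 3) (c (a (a (b (l 181630094695) (l 16752816)) (b (l 149954704535) (b (l 162302741815) (l 16752616)))) (b (l 3) (c (a (l 145122867751) (l 3)) (l 153175930983)))) (a (l 181093224903) (l 155323413319)))) (l 3)) (a (b (c (a (l 16754600) (b (c (a (l 16753216) (l 137069806807)) (l 146196615271)) (l 16754176))) (a (l 16754168) (b (l 169282065415) (l 16753856)))) (c (l 16756704) (l 16756144))) (b (b (a (a (b (l 3) (l 169282064519)) (l 3)) (l 3)) (c (a (c (a (l 101099456199) (l 140827904375)) (l 152639066983)) (c (l 147270352199) (l 143512255655))) (l 148880970775))) (c (a (c (l 16755200) (l 16754944)) (b (a (b (l 158544647639) (l 16753904)) (a (l 164987099175) (l 142975389063)))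 (c (l 16753432) (l 16754536)))) (a (l 16754712) (b (l 165523967959) (l 16754440))))))))), by decide +kernel⟩

def k44_pm_102_a : ∃ t, chk3 f_pm_102_a t 123 28 1 = true :=
  ⟨(b (l 3) (a (b (l 3) (a (a (b (l 3) (b (l 3) (c (c (a (b (l 154786549879) (l 16754232)) (b (l 3) (l 163376485223))) (l 145659742199)) (l 155323418807)))) (l 3)) (l 3))) (l 3))), by decide +kernel⟩

def k45_pm_102_a : ∃ t, chk3 f_pm_102_a t 122 29 1 = true :=
  ⟨(b (a (b (a (l 16764328) (l 16762256)) (a (l 16769264) (l 16788296))) (a (b (l 16760216) (b (l 16764040) (l 16766600))) (b (c (b (l 16754552) (l 16759840)) (l 16750056)) (l 16763296)))) (b (a (l 16773016) (b (a (l 16769064) (l 16767120)) (l 16770552))) (l 16775160))), by decide +kernel⟩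

def k46_pm_102_a : ∃ t, chk3 f_pm_102_a t 246 58 1 = true :=
  ⟨(b (a (b (c (a (b (c (a (l 16755248) (b (l 129016746951) (l 16755024))) (l 134385458903)) (l 16756200)) (b (c (a (b (l 140827904423) (l 138680423927)) (l 141901647239)) (l 145122874487)) (c (a (l 16755480) (b (l 146733488183) (l 16755256))) (a (l 16755296) (l 161229005527))))) (a (b (l 145122871895) (l 16755872)) (b (l 151028451991) (l 150491582439)))) (c (c (l 16755184) (l 16757520)) (l 16752000))) (a (c (b (b (l 3) (c (a (b (l 140291034071) (l 154249681623)) (l 3)) (l 142975388791))) (b (c (a (c (l 16755760) (l 16755664)) (b (l 167134584167) (c (l 108078782695) (l 16755448)))) (a (l 16755576) (l 167671456071))) (c (l 16756792) (l 16756600)))) (b (l 142438517831) (b (l 170892682311) (l 16756464)))) (b (l 3) (b (a (b (l 3) (a (c (l 160692133047) (l 16755064)) (l 139217294935))) (l 3)) (c (c (a (b (c (l 120963685223) (l 146196619287)) (l 16756288)) (a (b (l 163913358535) (l 16755864)) (b (l 3) (l 167134585335)))) (a (l 154249685511) (l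 162302746567))) (l 167134585671)))))) (a (b (l 16759976) (l 16762544)) (b (b (a (l 16757808) (c (c (l 16755728) (l 16756856)) (l 16756760))) (c (l 16758824) (l 16758424))) (l 16757896)))), by decide +kernel⟩

def k47_pm_102_a : ∃ t, chk3 f_pm_102_a t 247 58 1 = true :=
  ⟨(b (a (a (b (l 3) (b (l 3) (c (c (a (b (l 3) (l 138680423671)) (l 3)) (l 137069809879)) (l 138680422439)))) (l 3)) (l 3)) (a (a (b (b (c (c (a (b (c (a (l 123648040615) (l 163376488295)) (l 160692134903)) (l 16756536)) (b (l 137069811223) (c (b (l 161229005111) (l 140827910535)) (l 161229005575)))) (a (l 162839620711) (l 145659746407))) (l 165523972695)) (a (c (l 16757464) (l 16757272)) (c (c (c (l 16756720) (l 16756960)) (l 16756888)) (l 16756832)))) (c (l 16759208) (l 16758856))) (b (b (l 3) (c (c (a (a (b (l 170355812167) (l 16756920)) (b (l 138143554311) (a (l 16756712) (l 127943006551)))) (b (l 3) (a (l 167671457335) (l 133848587303)))) (a (l 170892684087) (l 139754166951))) (l 153712810903))) (a (c (c (l 16755880) (l 16758304))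 (l 16758152)) (b (c (b (c (c (a (l 16757088) (l 138143557127)) (l 148880976647)) (l 173577038295)) (l 16754896)) (l 176798262695)) (c (l 16758520) (l 16758304)))))) (b (l 3) (a (b (c (b (a (a (l 157470909911) (l 3)) (l 3)) (c (a (c (a (l 16757208) (l 157470910423)) (l 155323428103)) (c (l 136532942615) (l 136532942663))) (l 147270362631))) (l 147807231431)) (a (c (c (l 16758064) (l 16757920)) (l 16757864)) (c (b (c (c (a (l 126332397879) (l 167671458295)) (l 159618395655)) (l 169282070807)) (c (l 16757848) (l 16757784))) (l 178408876983)))) (a (b (l 3) (c (c (b (l 135459201095) (c (b (l 158007782103) (l 140827913239)) (l 160155266375))) (l 142975394471)) (b (l 134385459063) (l 152102200695)))) (l 3)))))), by decide +kernel⟩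

def k48_pm_102_a : ∃ t, chk3 f_pm_102_a t 123 59 1 = true :=
  ⟨(a (b (a (b (l 16765096) (l 16767656)) (l 16764368)) (b (a (l 16770128) (l 16768192)) (l 16771608))) (b (a (c (l 16757456) (l 16762080)) (b (c (b (a (l 16756440) (b (c (a (c (l 16758008) (l 16757944)) (a (l 173040169351) (l 137069815111))) (l 161765881303)) (a (l 16758584) (a (l 16756872) (b (l 168208331031) (l 16758128)))))) (c (l 16757352) (l 16759768))) (a (l 16759440) (b (c (l 167671462471) (l 178945748983)) (l 16759128)))) (c (l 16761880) (l 16761432)))) (a (b (l 16766192) (l 16768736)) (l 16760232)))), by decide +kernel⟩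

def k49_pm_102_a : ∃ t, chk3 f_pm_102_a t 62 28 1 = true :=
  ⟨(l 3), by decide +kernel⟩

def k50_pm_102_a : ∃ t, chk3 f_pm_102_a t 124 58 1 = true :=
  ⟨(l 3), by decide +kernel⟩

def k51_pm_102_a : ∃ t, chk3 f_pm_102_a t 248 59 1 = true :=
  ⟨(b (b (a (a (b (b (l 3) (a (a (b (l 141901654535) (c (l 166060847383) (l 16757816))) (l 136532945415)) (l 3))) (b (c (c (a (c (a (l 16758408) (l 137069817879)) (l 144586011831)) (c (l 137069815879) (l 138680428647))) (l 146733495367)) (l 161229007911)) (c (a (l 16756232) (c (a (l 107541914487) (l 169282074039)) (l 168745203015))) (l 177872009687)))) (b (l 3) (c (c (a (b (l 3) (l 137606687095)) (l 3)) (l 138143556903)) (l 129553622135)))) (l 3)) (b (a (c (b (a (c (l 16759336) (l 16759200)) (a (a (b (l 166597719783) (l 16758792)) (l 167671461623)) (l 134385461911))) (a (l 16759928) (c (a (l 16759184) (c (l 144049140999) (l 158544656439))) (l 159081530071)))) (a (l 16757456) (l 163376495127))) (l 3)) (a (c (a (l 16760944) (a (l 16760136) (c (c (l 81772115431)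 (l 16759632)) (l 118279333863)))) (a (l 16760648) (c (l 132237978135) (l 16759688)))) (a (a (c (c (a (b (l 166060849735) (l 16759592)) (b (l 137069817735) (l 134385466343))) (l 174650786471)) (l 170892687463)) (b (l 3) (a (c (l 169282075927) (l 148880978519)) (l 139217302951)))) (l 3))))) (a (b (c (a (l 16762960) (l 16761888)) (l 16762024)) (l 16764760)) (b (b (c (a (a (l 16757792) (b (c (c (l 113984371063) (l 135459208503)) (l 163376497159)) (l 16760208))) (a (c (b (l 137606689447) (c (l 122574305943) (l 141364788823))) (l 172503302759)) (b (l 3) (l 137606691063)))) (a (a (l 16760256) (l 166060848631)) (l 145122882167))) (c (a (l 16761488) (c (a (l 16760760) (b (b (l 152639078311) (l 131701112967)) (l 16760552))) (a (l 16760632) (b (l 161765884279) (l 16760448))))) (a (l 16761248) (a (l 16760552) (l 164987108231))))) (c (c (l 16760480) (l 16760240)) (a (l 16763088) (l 16762168)))))), by decide +kernel⟩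

def k52_pm_102_a : ∃ t, chk3 f_pm_102_a t 249 59 1 = true :=
  ⟨(b (l 3) (a (a (b (a (b (l 3) (c (b (l 137069819111) (c (l 146733498823) (l 163376496983))) (l 147270367031))) (l 3)) (b (c (c (a (b (l 100025729559) (l 16761376)) (b (c (l 133848595239) (l 116668724007)) (c (l 93046407063) (l 16760800)))) (a (l 105931304823) (l 168745208791))) (c (l 160692147463) (l 171429563591))) (c (c (l 16762128) (l 16761976)) (l 16761856)))) (b (l 3) (a (b (c (b (l 3) (c (l 136532950039) (l 125795530455))) (l 140291045607)) (c (b (c (c (l 102710083847) (l 123648050455)) (l 153175952599)) (l 16761584)) (l 153175948487))) (b (l 3) (c (c (b (l 139217304919) (c (l 110226276823) (l 127943017799))) (l 176261402487)) (l 148344110567)))))) (a (b (l 3) (b (l 3) (c (c (a (l 145122884663) (l 3)) (l 140827916775)) (l 139217303927)))) (l 3)))), by decide +kernel⟩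

def k53_pm_102_a : ∃ t, chk3 f_pm_102_a t 125 29 1 = true :=
  ⟨(l 3), by decide +kernel⟩

def k54_pm_102_a : ∃ t, chk3 f_pm_102_a t 63 14 1 = true :=
  ⟨(l 3), by decide +kernel⟩

def k55_pm_102_a : ∃ t, chk3 f_pm_102_a t 15 15 1 = true :=
  ⟨(a (b (a (b (b (a (l 16803560) (l 16778840)) (a (l 16787176) (a (l 16783784) (l 16781624)))) (a (l 16814768) (b (a (l 16788272) (l 16786280)) (l 16791920)))) (b (a (b (l 16775120) (l 16778560)) (b (a (l 16774848) (b (a (l 16771208) (l 16769288)) (l 16772688))) (a (l 16775528) (l 16775584)))) (b (a (a (l 16783840) (l 16781480)) (l 16778152)) (a (a (l 16788528) (l 16807328)) (a (b (l 16782504) (l 6)) (l 6)))))) (b (a (a (b (l 16801344) (l 16806752)) (b (l 16796944) (l 16802264))) (a (b (l 16792280) (l 6)) (l 6))) (a (b (a (b (b (l 16810208) (l 16811640)) (l 16813296)) (b (l 16806336) (l 6))) (a (a (c (l 16832240) (l 16813896)) (b (l 16814504) (l 6))) (l 6))) (l 6)))) (b (a (a (b (a (b (a (b (l 16767312) (l 16780328)) (b (l 16765328) (l 16767880))) (b (a (l 16772312)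 (b (l 16769784) (l 6))) (l 16773768))) (b (b (b (a (a (l 16763208) (c (c (l 16761096) (l 16762272)) (l 16759544))) (a (c (c (a (b (c (l 120426824439) (l 134385469111)) (l 16761928)) (b (l 3) (l 144586017047))) (a (l 139217309751) (l 139754176967))) (l 162302760519)) (l 3))) (a (c (l 16764208) (l 16763840)) (a (a (c (l 16762880) (l 16762704)) (l 6)) (l 6)))) (a (l 16763288) (l 6))) (l 6))) (l 6)) (l 6)) (l 6)) (l 6))), by decide +kernel⟩

theorem s56_pm_102_a : ∃ t, chk3 f_pm_102_a t 124 59 1 = true := ex3_a k51_pm_102_a k52_pm_102_a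

theorem s57_pm_102_a : ∃ t, chk3 f_pm_102_a t 124 29 1 = true := ex3_b k50_pm_102_a s56_pm_102_a

theorem s58_pm_102_a : ∃ t, chk3 f_pm_102_a t 62 29 1 = true := ex3_a s57_pm_102_a k53_pm_102_a

theorem s59_pm_102_a : ∃ t, chk3 f_pm_102_a t 62 14 1 = true := ex3_b k49_pm_102_a s58_pm_102_a

theorem s60_pm_102_a : ∃ t, chk3 f_pm_102_a t 31 14 1 = true := ex3_a s59_pm_102_a k54_pm_102_a

theorem s61_pm_102_a : ∃ t, chk3 f_pm_102_a t 123 58 1 = true := ex3_a k46_pm_102_a k47_pm_102_a

theorem s62_pm_102_a : ∃ t, chk3 f_pm_102_a t 123 29 1 = true := ex3_b s61_pm_102_a k48_pm_102_a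

theorem s63_pm_102_a : ∃ t, chk3 f_pm_102_a t 61 29 1 = true := ex3_a k45_pm_102_a s62_pm_102_a

theorem s64_pm_102_a : ∃ t, chk3 f_pm_102_a t 61 28 1 = true := ex3_a k43_pm_102_a k44_pm_102_a

theorem s65_pm_102_a : ∃ t, chk3 f_pm_102_a t 61 14 1 = true := ex3_b s64_pm_102_a s63_pm_102_a

theorem s66_pm_102_a : ∃ t, chk3 f_pm_102_a t 30 14 1 = true := ex3_a k42_pm_102_a s65_pm_102_a

theorem s67_pm_102_a : ∃ t, chk3 f_pm_102_a t 15 14 1 = true := ex3_a s66_pm_102_a s60_pm_102_a

theorem s68_pm_102_a : ∃ t, chk3 f_pm_102_a t 15 7 1 = true := ex3_b s67_pm_102_a k55_pm_102_a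

theorem s69_pm_102_a : ∃ t, chk3 f_pm_102_a t 7 7 1 = true := ex3_a k41_pm_102_a s68_pm_102_a

theorem s70_pm_102_a : ∃ t, chk3 f_pm_102_a t 29 6 1 = true := ex3_b k38_pm_102_a k39_pm_102_a

theorem s71_pm_102_a : ∃ t, chk3 f_pm_102_a t 14 6 1 = true := ex3_a k37_pm_102_a s70_pm_102_a

theorem s72_pm_102_a : ∃ t, chk3 f_pm_102_a t 7 6 1 = true := ex3_a s71_pm_102_a k40_pm_102_a

theorem s73_pm_102_a : ∃ t, chk3 f_pm_102_a t 7 3 1 = true := ex3_b s72_pm_102_a s69_pm_102_a

theorem s74_pm_102_a : ∃ t, chk3 f_pm_102_a t 3 3 1 = true := ex3_a k36_pm_102_a s73_pm_102_a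

theorem s75_pm_102_a : ∃ t, chk3 f_pm_102_a t 54 10 1 = true := ex3_b k31_pm_102_a k32_pm_102_a

theorem s76_pm_102_a : ∃ t, chk3 f_pm_102_a t 27 10 1 = true := ex3_a s75_pm_102_a k33_pm_102_a

theorem s77_pm_102_a : ∃ t, chk3 f_pm_102_a t 27 5 1 = true := ex3_b s76_pm_102_a k34_pm_102_a

theorem s78_pm_102_a : ∃ t, chk3 f_pm_102_a t 13 5 1 = true := ex3_a k30_pm_102_a s77_pm_102_a

theorem s79_pm_102_a : ∃ t, chk3 f_pm_102_a t 52 9 1 = true := ex3_a k26_pm_102_a k27_pm_102_a

theorem s80_pm_102_a : ∃ t, chk3 f_pm_102_a t 26 9 1 = true := ex3_a s79_pm_102_a k28_pm_102_a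

theorem s81_pm_102_a : ∃ t, chk3 f_pm_102_a t 26 4 1 = true := ex3_b k25_pm_102_a s80_pm_102_a

theorem s82_pm_102_a : ∃ t, chk3 f_pm_102_a t 13 4 1 = true := ex3_a s81_pm_102_a k29_pm_102_a

theorem s83_pm_102_a : ∃ t, chk3 f_pm_102_a t 13 2 1 = true := ex3_b s82_pm_102_a s78_pm_102_a

theorem s84_pm_102_a : ∃ t, chk3 f_pm_102_a t 25 8 1 = true := ex3_a k21_pm_102_a k22_pm_102_a

theorem s85_pm_102_a : ∃ t, chk3 f_pm_102_a t 25 4 1 = true := ex3_b s84_pm_102_a k23_pm_102_a

theorem s86_pm_102_a : ∃ t, chk3 f_pm_102_a t 12 4 1 = true := ex3_a k20_pm_102_a s85_pm_102_a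

theorem s87_pm_102_a : ∃ t, chk3 f_pm_102_a t 12 2 1 = true := ex3_b s86_pm_102_a k24_pm_102_a

theorem s88_pm_102_a : ∃ t, chk3 f_pm_102_a t 6 2 1 = true := ex3_a s87_pm_102_a s83_pm_102_a

theorem s89_pm_102_a : ∃ t, chk3 f_pm_102_a t 3 2 1 = true := ex3_a s88_pm_102_a k35_pm_102_a

theorem s90_pm_102_a : ∃ t, chk3 f_pm_102_a t 3 1 1 = true := ex3_b s89_pm_102_a s74_pm_102_a

theorem s91_pm_102_a : ∃ t, chk3 f_pm_102_a t 5 7 1 = true := ex3_a k18_pm_102_a k19_pm_102_a

theorem s92_pm_102_a : ∃ t, chk3 f_pm_102_a t 5 3 1 = true := ex3_b k17_pm_102_a s91_pm_102_a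

theorem s93_pm_102_a : ∃ t, chk3 f_pm_102_a t 36 15 1 = true := ex3_a k13_pm_102_a k14_pm_102_a

theorem s94_pm_102_a : ∃ t, chk3 f_pm_102_a t 36 7 1 = true := ex3_b k12_pm_102_a s93_pm_102_a

theorem s95_pm_102_a : ∃ t, chk3 f_pm_102_a t 18 7 1 = true := ex3_a s94_pm_102_a k15_pm_102_a

theorem s96_pm_102_a : ∃ t, chk3 f_pm_102_a t 9 7 1 = true := ex3_a s95_pm_102_a k16_pm_102_a

theorem s97_pm_102_a : ∃ t, chk3 f_pm_102_a t 17 127 1 = true := ex3_c k10_pm_102_a k11_pm_102_a

theorem s98_pm_102_a : ∃ t, chk3 f_pm_102_a t 16 255 3 = true := ex3_c k8_pm_102_a k9_pm_102_a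

theorem s99_pm_102_a : ∃ t, chk3 f_pm_102_a t 16 127 3 = true := ex3_b k7_pm_102_a s98_pm_102_a

theorem s100_pm_102_a : ∃ t, chk3 f_pm_102_a t 16 127 1 = true := ex3_c k6_pm_102_a s99_pm_102_a

theorem s101_pm_102_a : ∃ t, chk3 f_pm_102_a t 8 127 1 = true := ex3_a s100_pm_102_a s97_pm_102_a

theorem s102_pm_102_a : ∃ t, chk3 f_pm_102_a t 8 63 1 = true := ex3_b k5_pm_102_a s101_pm_102_a

theorem s103_pm_102_a : ∃ t, chk3 f_pm_102_a t 8 31 1 = true := ex3_b k4_pm_102_a s102_pm_102_a

theorem s104_pm_102_a : ∃ t, chk3 f_pm_102_a t 8 15 1 = true := ex3_b k3_pm_102_a s103_pm_102_a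

theorem s105_pm_102_a : ∃ t, chk3 f_pm_102_a t 8 7 1 = true := ex3_b k2_pm_102_a s104_pm_102_a

theorem s106_pm_102_a : ∃ t, chk3 f_pm_102_a t 4 7 1 = true := ex3_a s105_pm_102_a s96_pm_102_a

theorem s107_pm_102_a : ∃ t, chk3 f_pm_102_a t 4 3 1 = true := ex3_b k1_pm_102_a s106_pm_102_a

theorem s108_pm_102_a : ∃ t, chk3 f_pm_102_a t 2 3 1 = true := ex3_a s107_pm_102_a s92_pm_102_a

theorem s109_pm_102_a : ∃ t, chk3 f_pm_102_a t 2 1 1 = true := ex3_b k0_pm_102_a s108_pm_102_a

theorem s110_pm_102_a : ∃ t, chk3 f_pm_102_a t 1 1 1 = true := ex3_a s109_pm_102_a s90_pm_102_a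

theorem c_pm_102_a : CertB 536870912 536870912 0 536870912 536870912 50465866 3 eng mog cd0q1 cd2q2a pd0 false true false .npp 1 0 2
    ndB0q1 ndB2q2a pcB0 cut_pm_102_a xt_pm_102_a :=
  certB0 (fam := false) (s1 := true) (s2 := false) (a := 1) (b := 0) (c := 2) (cn := .npp) (n1 := ndB0q1) (n2 := ndB2q2a) (pc := pcB0) (cut := cut_pm_102_a) (xt := xt_pm_102_a) (P1 := 536870912) (W1 := 536870912) (P2 := 0) (W2 := 536870912) (P3 := 536870912) (W3 := 50465866) (N0 := 3) (En := eng) (mo := mog) (C1 := cd0q1) (C2 := cd2q2a) (C3 := pd0)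
    rfl s110_pm_102_a

noncomputable def cut_pm_102_b : Cut := Cut.of [[⟨0, 1, 0, 67108864⟩, ⟨1, 0, 0, 67108864⟩, ⟨2, 1, 0, 67108864⟩], [⟨0, 0, 1, 20971520⟩, ⟨1, 1, 2, 20971520⟩, ⟨2, 1, 0, 33554432⟩]]

noncomputable def f_pm_102_b : ℕ → ℕ → ℕ → ℕ → Bool := onCell 536870912 536870912 1239849684 370763052 536870912 50465866
    (rowB 3 eng mog cd0q1 cd2q2b pd0 0 false true false .npp 1 0 2 (qsf 536870912 536870912 1239849684 370763052 0) ndB0q1 ndB2q2b pcB0 cut_pm_102_b Ext.none)

def k0_pm_102_b : ∃ t, chk3 f_pm_102_b t 2 1 1 = true :=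
  ⟨(b (a (l 2) (a (b (b (a (b (l 16719904) (l 2)) (b (b (l 16741200) (l 16736632)) (l 16744112))) (l 2)) (l 2)) (b (b (a (b (b (a (l 16747792) (l 16759168)) (l 16783840)) (l 16771880)) (a (b (b (a (l 16769656) (l 16773552)) (l 16774760)) (l 16775096)) (b (b (a (l 16775240) (l 16774768)) (l 16773752)) (l 16770600)))) (a (l 16777976) (a (l 16793704) (b (l 16766688) (l 16763648))))) (a (l 2) (b (a (l 2) (l 16761336)) (l 2)))))) (l 2)), by decide +kernel⟩

def k1_pm_102_b : ∃ t, chk3 f_pm_102_b t 3 1 1 = true :=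
  ⟨(b (a (b (a (b (a (a (b (a (b (l 16782504) (l 16768464)) (b (a (l 16768360) (b (c (l 16768816) (l 16763984)) (l 16763960))) (l 16762504))) (a (l 16763760) (b (l 16758872) (l 16755880)))) (b (a (b (a (b (b (a (l 16764248) (c (a (l 16765080) (b (c (l 73719065511) (l 73719062455)) (l 16763712))) (a (l 16760464) (b (l 74255928711) (l 16759096))))) (c (l 53317969703) (l 16759576))) (c (l 16762624) (l 16757592))) (a (b (b (l 3) (c (l 169282077863) (l 188609421319))) (c (l 72645319447) (l 71571567991))) (l 3))) (a (l 16767168) (b (a (l 16754440) (l 153712819367)) (l 16751160)))) (b (l 3) (a (l 170355794039) (l 3)))) (a (b (a (l 16752912) (l 16748336)) (l 16747656)) (b (a (l 79624624455) (l 3)) (a (l 16740368) (l 135459182359)))))) (l 3)) (a (a (b (l 16776864) (l 16752920)) (b (a (l 16744328) (b (l 76940254247) (l 16734000))) (a (l 16741968) (l 16732776)))) (a (b (a (b (l 140827849831) (l 90898878103)) (l 3)) (a (b (l 89288258119) (l 16722344)) (l 138143467847))) (l 3)))) (l 3)) (a (a (b (a (l 16750648)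 (b (l 16737360) (l 16738496))) (l 2)) (b (a (b (a (l 16723480) (l 103246894151)) (a (l 16726376) (l 112373714503))) (b (l 3) (a (l 133311613447) (l 3)))) (a (b (l 16726656) (l 2)) (b (a (l 124721692551) (l 131164124471)) (a (l 2) (l 130627262919)))))) (b (l 3) (a (l 3) (l 3))))) (l 3)) (a (b (a (l 2) (a (b (a (b (l 156397086855) (l 2)) (l 3)) (l 2)) (l 3))) (l 2)) (l 3))), by decide +kernel⟩

theorem s2_pm_102_b : ∃ t, chk3 f_pm_102_b t 1 1 1 = true := ex3_a k0_pm_102_b k1_pm_102_b

theorem c_pm_102_b : CertB 536870912 536870912 1239849684 370763052 536870912 50465866 3 eng mog cd0q1 cd2q2b pd0 false true false .npp 1 0 2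
    ndB0q1 ndB2q2b pcB0 cut_pm_102_b Ext.none :=
  certB0 (fam := false) (s1 := true) (s2 := false) (a := 1) (b := 0) (c := 2) (cn := .npp) (n1 := ndB0q1) (n2 := ndB2q2b) (pc := pcB0) (cut := cut_pm_102_b) (xt := Ext.none) (P1 := 536870912) (W1 := 536870912) (P2 := 1239849684) (W2 := 370763052) (P3 := 536870912) (W3 := 50465866) (N0 := 3) (En := eng) (mo := mog) (C1 := cd0q1) (C2 := cd2q2b) (C3 := pd0)
    rfl s2_pm_102_b

noncomputable def cut_pm_112_a : Cut := Cut.of [[⟨0, 0, 1, 20971520⟩, ⟨1, 1, 2, 20971520⟩, ⟨2, 1, 0, 33554432⟩]]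

noncomputable def xt_pm_112_a : Ext := extD2 3 ⟨7, 3, 3, 10, 1741, 1000, 23, 25, 19, 50, 3, 16⟩ eng cd0q1 cd2q2a pd1 false true false .dn 1 1 2 rfl ndB0q1 ndB2q2a pcB1

noncomputable def f_pm_112_a : ℕ → ℕ → ℕ → ℕ → Bool := onCell 536870912 536870912 0 536870912 536870912 50465866
    (rowB 3 eng mog cd0q1 cd2q2a pd1 2 false true false .dn 1 1 2 (qsf 536870912 536870912 0 536870912 1) ndB0q1 ndB2q2a pcB1 cut_pm_112_a xt_pm_112_a)

def k0_pm_112_a : ∃ t, chk3 f_pm_112_a t 4 2 1 = true :=
  ⟨(a (b (a (b (a (l 16710400) (l 16696936)) (b (l 16693528) (l 16687496))) (b (l 16667136) (b (l 16651560) (l 16642064)))) (a (b (l 16679088) (l 16667352)) (b (l 16626056) (l 16601456)))) (b (b (a (b (l 16615192) (l 16600632)) (b (l 16588072) (l 16552400))) (a (l 16579176) (l 16539528))) (a (b (l 16546752) (l 16504296)) (b (l 16518696) (l 16464032))))), by decide +kernel⟩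

def k1_pm_112_a : ∃ t, chk3 f_pm_112_a t 4 3 1 = true :=
  ⟨(b (a (b (a (l 16660360) (l 16578424)) (a (b (l 16661544) (a (l 16687512) (l 16644312))) (b (l 16567360) (l 16576376)))) (a (b (l 16468152) (b (l 16481808) (l 16532984))) (b (l 16412136) (l 174516187015)))) (a (b (a (b (a (l 16683872) (l 16637896)) (a (b (l 16656048) (l 16639368)) (b (l 16615416) (l 16602736)))) (b (a (l 16592616) (l 16549176)) (a (l 16571384) (l 16536632)))) (b (a (b (a (a (b (l 16636488) (l 16628768)) (l 16595032)) (a (l 16599872) (l 16583680))) (a (b (a (l 141749829007884335) (l 141672038529548335)) (a (l 141759724598558767) (l 141686332169371695))) (a (b (l 141599470732951599) (l 141618437299699759)) (l 141727495085031471)))) (b (a (l 180421768743) (l 1)) (l 1))) (a (b (a (a (b (l 141951314487017519) (c (l 141851465112649775) (l 141714438402752559))) (b (l 141702137638912047) (c (l 141783776403456047) (l 141653278047240239)))) (b (a (c (l 141690661495521327) (l 141584283678900271)) (l 1)) (l 1))) (a (a (a (c (c (l 6)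 (b (l 141856275452919855) (b (l 141873455314812975) (b (l 141882869879816239) (a (b (l 141895514264305711) (a (c (l 6) (b (l 141878815422726191) (c (b (l 141891528530083887) (l 141892353163526191)) (l 141868644935090223)))) (l 1))) (l 1)))))) (b (l 141736428630540335) (b (l 141877853306765359) (b (c (l 141792984767971375) (l 141699663682306095)) (a (a (b (l 141849540880891951) (c (c (b (l 141832154879803439) (l 141833391829876783)) (l 141785082019774511)) (l 141711964469231663))) (b (l 141842462772641839) (l 1))) (l 1)))))) (b (c (l 141861085823320111) (l 141706604367839279)) (a (b (b (l 141805285569462319) (l 1)) (l 1)) (l 1)))) (a (b (c (l 141829406133649455) (l 141678360653463599)) (l 1)) (l 1))) (l 1))) (l 1)))) (b (a (b (l 16553240) (l 1)) (l 1)) (l 1)))), by decide +kernel⟩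

def k2_pm_112_a : ∃ t, chk3 f_pm_112_a t 5 1 1 = true :=
  ⟨(b (a (b (a (b (a (l 16560872) (l 16559904)) (l 16584864)) (b (l 1) (l 1))) (a (b (l 16569632) (l 16570040)) (l 1))) (l 1)) (b (l 1) (l 1))), by decide +kernel⟩

def k3_pm_112_a : ∃ t, chk3 f_pm_112_a t 3 1 1 = true :=
  ⟨(l 1), by decide +kernel⟩

theorem s4_pm_112_a : ∃ t, chk3 f_pm_112_a t 4 1 1 = true := ex3_b k0_pm_112_a k1_pm_112_a

theorem s5_pm_112_a : ∃ t, chk3 f_pm_112_a t 2 1 1 = true := ex3_a s4_pm_112_a k2_pm_112_a

theorem s6_pm_112_a : ∃ t, chk3 f_pm_112_a t 1 1 1 = true := ex3_a s5_pm_112_a k3_pm_112_a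

theorem c_pm_112_a : CertB 536870912 536870912 0 536870912 536870912 50465866 3 eng mog cd0q1 cd2q2a pd1 false true false .dn 1 1 2
    ndB0q1 ndB2q2a pcB1 cut_pm_112_a xt_pm_112_a :=
  certB2 (fam := false) (s1 := true) (s2 := false) (a := 1) (b := 1) (c := 2) (cn := .dn) (n1 := ndB0q1) (n2 := ndB2q2a) (pc := pcB1) (cut := cut_pm_112_a) (xt := xt_pm_112_a) (P1 := 536870912) (W1 := 536870912) (P2 := 0) (W2 := 536870912) (P3 := 536870912) (W3 := 50465866) (N0 := 3) (En := eng) (mo := mog) (C1 := cd0q1) (C2 := cd2q2a) (C3 := pd1)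
    rfl (fun _ => rfl) s6_pm_112_a

noncomputable def cut_pm_112_b : Cut := Cut.of [[⟨0, 0, 1, 20971520⟩, ⟨1, 1, 2, 20971520⟩, ⟨2, 1, 0, 33554432⟩]]

noncomputable def f_pm_112_b : ℕ → ℕ → ℕ → ℕ → Bool := onCell 536870912 536870912 536870912 536870912 536870912 50465866
    (rowB 3 eng mog cd0q1 cd2q2b pd1 1 false true false .dn 1 1 2 (qsf 536870912 536870912 1239849684 370763052 1) ndB0q1 ndB2q2b pcB1 cut_pm_112_b Ext.none)

def k0_pm_112_b : ∃ t, chk3 f_pm_112_b t 1 2 1 = true :=
  ⟨(a (b (a (a (b (l 1) (b (a (l 1) (l 425235017063)) (a (l 370474141511) (l 173442541495)))) (b (b (a (l 1) (l 391412372759)) (a (l 408055286583) (l 213171168055))) (a (b (l 230887829175) (l 16645024)) (b (l 16672848) (l 16698832))))) (b (a (a (b (b (l 241088481495) (l 204581398103)) (l 16706976)) (b (b (l 16736856) (l 16750448)) (l 16762000))) (a (b (l 16777320) (l 16784784)) (b (l 16777400) (l 16787304)))) (a (a (l 16739224) (l 16778016)) (a (l 16804720) (l 16819128))))) (a (a (b (b (a (b (l 264173731111) (l 161631249975))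 (l 16622040)) (a (b (l 16597792) (l 16602200)) (b (l 16633208) (l 16636400)))) (a (l 16604776) (l 16640824))) (b (b (l 16688408) (a (l 16674224) (l 16717872))) (a (l 16683520) (l 16733464)))) (b (a (b (l 16777632) (l 16813344)) (b (l 16856592) (l 16895920))) (a (a (l 16790984) (l 16857592)) (a (l 16929944) (l 17002408)))))) (b (a (b (a (a (b (l 16760480) (l 16776592)) (b (a (l 16739304) (b (l 105931190663) (l 16726768))) (l 16753264))) (a (b (b (l 3) (l 155860188295)) (a (l 108615556375) (l 167134501895))) (l 3))) (a (a (b (l 16803784) (l 16842480)) (b (l 16788632) (l 16838664))) (a (b (a (l 16768592) (b (l 132774817079) (l 111836822471))) (a (l 16825512) (b (l 16794456) (l 16828976)))) (a (b (l 3) (b (l 142438574007) (l 127943113351))) (l 3))))) (l 3)) (a (b (a (b (a (l 16892944) (l 16903704)) (a (l 16958064) (b (l 16963536) (l 17009056)))) (a (b (a (l 16900008) (l 16881240)) (l 16926288)) (b (a (b (a (l 16842160) (l 125258702375)) (l 55465524567)) (a (b (l 3) (l 140291224087)) (l 3))) (a (l 199279860343)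 (l 2))))) (a (b (a (l 17032144) (l 17083056)) (l 17075664)) (a (b (l 189616586647) (l 2)) (l 2)))) (b (b (l 3) (l 2)) (l 2))))), by decide +kernel⟩

def k1_pm_112_b : ∃ t, chk3 f_pm_112_b t 1 3 1 = true :=
  ⟨(a (a (b (a (b (a (l 16599264) (l 16642696)) (b (a (l 16590632) (l 16642784)) (a (l 16583808) (l 16642896)))) (b (a (l 16759016) (l 16760096)) (a (b (l 16707128) (l 16715856)) (b (l 16785376) (l 16796704))))) (a (a (b (l 16572088) (l 7079617351)) (b (l 16643136) (l 16646744))) (a (b (l 16728808) (a (l 16716200) (l 2))) (b (a (l 16786240) (l 16818712)) (l 2))))) (b (a (b (a (l 16836448) (l 16918632)) (a (l 16859640) (l 16917016))) (b (a (l 16980048) (l 17026848)) (a (l 16963728) (l 2)))) (a (b (a (a (l 16847272) (l 2)) (l 2)) (l 2)) (l 2)))) (b (a (b (a (a (l 17057536) (l 2)) (l 2)) (l 2)) (l 2)) (l 2))), by decide +kernel⟩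

theorem s2_pm_112_b : ∃ t, chk3 f_pm_112_b t 1 1 1 = true := ex3_b k0_pm_112_b k1_pm_112_b

theorem c_pm_112_b : CertB 536870912 536870912 1239849684 370763052 536870912 50465866 3 eng mog cd0q1 cd2q2b pd1 false true false .dn 1 1 2
    ndB0q1 ndB2q2b pcB1 cut_pm_112_b Ext.none :=
  certB1 (fam := false) (s1 := true) (s2 := false) (a := 1) (b := 1) (c := 2) (cn := .dn) (n1 := ndB0q1) (n2 := ndB2q2b) (pc := pcB1) (cut := cut_pm_112_b) (xt := Ext.none) (P1 := 536870912) (W1 := 536870912) (P2 := 1239849684) (W2 := 370763052) (P3 := 536870912) (W3 := 50465866) (N0 := 3) (En := eng) (mo := mog) (C1 := cd0q1) (C2 := cd2q2b) (C3 := pd1)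
    rfl (fun _ => rfl) s2_pm_112_b

noncomputable def cut_pm_113 : Cut := Cut.of [[⟨0, 1, 0, 67108864⟩, ⟨1, 1, 0, 67108864⟩, ⟨2, 2, 0, 16777216⟩]]

noncomputable def f_pm_113 : ℕ → ℕ → ℕ → ℕ → Bool := onCell 536870912 536870912 536870912 536870912 536870912 50465866
    (rowB 3 eng mog cd0q1 cd2q3 pd1 1 false true false .nn 1 1 3 (qsf 536870912 536870912 1610612736 536870912 1) ndB0q1 ndB2q3 pcB1 cut_pm_113 Ext.none)

def k0_pm_113 : ∃ t, chk3 f_pm_113 t 1 2 1 = true :=
  ⟨(a (b (l 1) (a (l 1) (b (l 1) (a (l 1) (l 95596832055))))) (b (a (a (l 1) (a (l 1) (a (l 1) (l 3)))) (l 3)) (a (b (a (b (l 1) (a (l 1) (l 16995032))) (a (b (l 16914824) (l 17005896)) (b (a (l 100965335943) (l 206326382775)) (a (l 16952840) (l 84993491879))))) (a (b (a (l 17032672) (l 17091016)) (l 17075968)) (a (b (l 17082488) (l 17130480)) (b (l 16894136) (l 17042152))))) (a (a (b (l 3) (b (a (l 171429803895) (l 3)) (a (l 16988640) (l 232096459527)))) (l 3)) (l 3))))), by decide +kernel⟩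

def k1_pm_113 : ∃ t, chk3 f_pm_113 t 1 3 1 = true :=
  ⟨(a (a (b (a (l 1) (b (l 1) (a (l 1) (l 97744163751)))) (a (a (b (l 1) (l 51035905063)) (b (l 102038816999) (l 16602576))) (a (b (l 92375268279) (l 16692304)) (b (l 16767752) (l 16762792))))) (b (a (b (l 95596672215) (a (l 81638061207) (l 16885672))) (b (l 79490617543) (l 16844456))) (a (b (a (l 16825088) (l 16874176)) (b (l 16846048) (l 16841840))) (b (a (l 16913248) (l 16937976)) (l 16972360))))) (b (a (b (a (a (l 17021224) (l 17042112)) (a (l 17069360) (b (l 17070728) (l 17083232)))) (a (l 16838104) (b (l 17028200) (l 16995688)))) (a (b (a (b (l 90362288039) (l 17011056)) (b (l 253571182599) (a (l 213842873079) (l 270751040055)))) (a (b (l 17023760) (l 17018344)) (b (a (l 16972736) (l 237465142855)) (l 140828023495)))) (b (l 3) (a (b (l 3) (a (l 240149472887) (l 3))) (l 3))))) (a (b (a (l 17054232) (l 16954784)) (a (l 16919608) (l 16910008))) (b (b (a (a (l 16977888) (l 16965392)) (a (a (l 273435413575) (l 331954248935)) (l 3))) (a (a (l 16943232)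 (l 16933808)) (a (a (l 16915160) (l 161766213607)) (a (l 330880440423) (l 3))))) (b (a (a (l 16912360) (l 16898376)) (a (l 16874408) (a (b (l 326585472759) (l 55465665415)) (b (l 3) (l 423222140215))))) (a (a (l 16884464) (l 16865960)) (a (l 16839640) (a (l 16859216) (b (a (a (l 16815952) (l 137606802759)) (l 449528778311)) (b (a (l 16801600) (a (a (l 16796576) (l 147807310247)) (l 466171750583))) (a (l 16792944) (a (l 16787224) (l 6))))))))))))), by decide +kernel⟩

theorem s2_pm_113 : ∃ t, chk3 f_pm_113 t 1 1 1 = true := ex3_b k0_pm_113 k1_pm_113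

theorem c_pm_113 : CertB 536870912 536870912 1610612736 536870912 536870912 50465866 3 eng mog cd0q1 cd2q3 pd1 false true false .nn 1 1 3
    ndB0q1 ndB2q3 pcB1 cut_pm_113 Ext.none :=
  certB1 (fam := false) (s1 := true) (s2 := false) (a := 1) (b := 1) (c := 3) (cn := .nn) (n1 := ndB0q1) (n2 := ndB2q3) (pc := pcB1) (cut := cut_pm_113) (xt := Ext.none) (P1 := 536870912) (W1 := 536870912) (P2 := 1610612736) (W2 := 536870912) (P3 := 536870912) (W3 := 50465866) (N0 := 3) (En := eng) (mo := mog) (C1 := cd0q1) (C2 := cd2q3) (C3 := pd1)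
    rfl (fun _ => rfl) s2_pm_113

noncomputable def cut_pm_123 : Cut := Cut.of [[⟨0, 1, 0, 67108864⟩, ⟨1, 1, 0, 67108864⟩, ⟨2, 2, 0, 16777216⟩]]

noncomputable def f_pm_123 : ℕ → ℕ → ℕ → ℕ → Bool := onCell 536870912 536870912 1073741824 536870912 536870912 50465866
    (rowB 3 eng mog cd0q1 cd2q3 pd2 1 false true false .npn 1 2 3 (qsf 536870912 536870912 1610612736 536870912 2) ndB0q1 ndB2q3 pcB2 cut_pm_123 Ext.none)

def k0_pm_123 : ∃ t, chk3 f_pm_123 t 1 1 1 = true :=
  ⟨(a (b (a (b (a (b (a (l 16513952) (l 16615000)) (l 16608696)) (b (a (l 16693632) (l 16754160)) (l 16724680))) (b (a (b (l 16633896) (l 16649768)) (l 16723448)) (a (l 16675440) (l 16729432)))) (b (a (b (b (l 16829832) (l 16813144)) (l 16790056)) (b (l 16871056) (l 16818600))) (a (b (l 16764520) (l 16753000)) (b (l 16776616) (l 16756584))))) (a (b (a (l 16713664) (l 16739304)) (b (l 16744592) (l 16966064))) (b (a (b (l 16749016) (l 16748952)) (b (l 16748008) (l 16751512))) (a (b (l 16755048) (l 2)) (l 2))))) (b (a (b (a (b (l 16871688)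 (l 16809736)) (b (l 16852920) (l 16788008))) (b (a (b (a (l 16777208) (l 16935800)) (l 16757208)) (b (b (l 16759888) (l 16751808)) (l 16740888))) (a (l 16744640) (l 16866472)))) (b (b (b (a (l 16841352) (b (b (a (l 16816944) (a (l 16795080) (a (l 16784144) (l 6)))) (a (l 16808112) (a (l 16786792) (a (l 6) (l 846209203927))))) (a (l 16795120) (a (l 16774576) (l 841914219911))))) (a (l 16805112) (a (l 16769888) (a (l 16793456) (l 2))))) (a (a (l 16768064) (l 16743472)) (a (l 765678858951) (l 2)))) (a (b (b (a (l 321686544151) (l 2)) (l 2)) (l 2)) (l 2)))) (a (b (a (b (l 16744632) (l 2)) (l 2)) (l 2)) (l 2)))), by decide +kernel⟩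

theorem c_pm_123 : CertB 536870912 536870912 1610612736 536870912 536870912 50465866 3 eng mog cd0q1 cd2q3 pd2 false true false .npn 1 2 3
    ndB0q1 ndB2q3 pcB2 cut_pm_123 Ext.none :=
  certB1 (fam := false) (s1 := true) (s2 := false) (a := 1) (b := 2) (c := 3) (cn := .npn) (n1 := ndB0q1) (n2 := ndB2q3) (pc := pcB2) (cut := cut_pm_123) (xt := Ext.none) (P1 := 536870912) (W1 := 536870912) (P2 := 1610612736) (W2 := 536870912) (P3 := 536870912) (W3 := 50465866) (N0 := 3) (En := eng) (mo := mog) (C1 := cd0q1) (C2 := cd2q3) (C3 := pd2)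
    rfl (fun _ => rfl) k0_pm_123

noncomputable def f_pm_133 : ℕ → ℕ → ℕ → ℕ → Bool := onCell 1610612736 536870912 1610612736 536870912 536870912 50465866
    (rowB 3 eng mog cd0q1 cd2q3 pd3 2 false true false .dn 1 3 3 (qsf 536870912 536870912 1610612736 536870912 3) ndB0q1 ndB2q3 pcB3 Cut.none Ext.none)

def k0_pm_133 : ∃ t, chk3 f_pm_133 t 1 1 1 = true :=
  ⟨(a (b (l 1) (a (b (l 1) (a (l 429530768263) (l 1))) (l 1))) (l 1)), by decide +kernel⟩

theorem c_pm_133 : CertB 536870912 536870912 1610612736 536870912 536870912 50465866 3 eng mog cd0q1 cd2q3 pd3 false true false .dn 1 3 3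
    ndB0q1 ndB2q3 pcB3 Cut.none Ext.none :=
  certB2 (fam := false) (s1 := true) (s2 := false) (a := 1) (b := 3) (c := 3) (cn := .dn) (n1 := ndB0q1) (n2 := ndB2q3) (pc := pcB3) (cut := Cut.none) (xt := Ext.none) (P1 := 536870912) (W1 := 536870912) (P2 := 1610612736) (W2 := 536870912) (P3 := 536870912) (W3 := 50465866) (N0 := 3) (En := eng) (mo := mog) (C1 := cd0q1) (C2 := cd2q3) (C3 := pd3)
    rfl (fun _ => rfl) k0_pm_133

noncomputable def cut_pm_202_a : Cut := Cut.of [[⟨0, 1, 0, 67108864⟩, ⟨1, 0, 0, 67108864⟩, ⟨2, 1, 0, 67108864⟩]]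

noncomputable def f_pm_202_a : ℕ → ℕ → ℕ → ℕ → Bool := onCell 0 536870912 0 536870912 536870912 50465866
    (rowB 3 eng mog cd0q2 cd2q2a pd0 0 false true false .pp 2 0 2 (qsf 0 536870912 0 536870912 0) ndB0q2 ndB2q2a pcB0 cut_pm_202_a Ext.none)

def k0_pm_202_a : ∃ t, chk3 f_pm_202_a t 1 1 1 = true :=
  ⟨(a (l 3) (b (l 3) (a (l 3) (b (l 3) (b (l 3) (a (l 3) (l 6))))))), by decide +kernel⟩

theorem c_pm_202_a : CertB 0 536870912 0 536870912 536870912 50465866 3 eng mog cd0q2 cd2q2a pd0 false true false .pp 2 0 2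
    ndB0q2 ndB2q2a pcB0 cut_pm_202_a Ext.none :=
  certB0 (fam := false) (s1 := true) (s2 := false) (a := 2) (b := 0) (c := 2) (cn := .pp) (n1 := ndB0q2) (n2 := ndB2q2a) (pc := pcB0) (cut := cut_pm_202_a) (xt := Ext.none) (P1 := 0) (W1 := 536870912) (P2 := 0) (W2 := 536870912) (P3 := 536870912) (W3 := 50465866) (N0 := 3) (En := eng) (mo := mog) (C1 := cd0q2) (C2 := cd2q2a) (C3 := pd0)
    rfl k0_pm_202_a

noncomputable def cut_pm_202_b : Cut := Cut.of [[⟨0, 1, 0, 67108864⟩, ⟨1, 0, 0, 67108864⟩, ⟨2, 1, 0, 67108864⟩]]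

noncomputable def f_pm_202_b : ℕ → ℕ → ℕ → ℕ → Bool := onCell 0 536870912 1239849684 370763052 536870912 50465866
    (rowB 3 eng mog cd0q2 cd2q2b pd0 0 false true false .pp 2 0 2 (qsf 0 536870912 1239849684 370763052 0) ndB0q2 ndB2q2b pcB0 cut_pm_202_b Ext.none)

def k0_pm_202_b : ∃ t, chk3 f_pm_202_b t 1 1 1 = true :=
  ⟨(l 3), by decide +kernel⟩

theorem c_pm_202_b : CertB 0 536870912 1239849684 370763052 536870912 50465866 3 eng mog cd0q2 cd2q2b pd0 false true false .pp 2 0 2
    ndB0q2 ndB2q2b pcB0 cut_pm_202_b Ext.none :=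
  certB0 (fam := false) (s1 := true) (s2 := false) (a := 2) (b := 0) (c := 2) (cn := .pp) (n1 := ndB0q2) (n2 := ndB2q2b) (pc := pcB0) (cut := cut_pm_202_b) (xt := Ext.none) (P1 := 0) (W1 := 536870912) (P2 := 1239849684) (W2 := 370763052) (P3 := 536870912) (W3 := 50465866) (N0 := 3) (En := eng) (mo := mog) (C1 := cd0q2) (C2 := cd2q2b) (C3 := pd0)
    rfl k0_pm_202_b

noncomputable def f_pm_203 : ℕ → ℕ → ℕ → ℕ → Bool := onCell 0 536870912 0 536870912 536870912 50465866
    (rowB 3 eng mog cd0q2 cd2q3 pd0 1 false true false .up 2 0 3 (qsf 0 536870912 1610612736 536870912 0) ndB0q2 ndB2q3 pcB0 Cut.none Ext.none)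

def k0_pm_203 : ∃ t, chk3 f_pm_203 t 1 1 1 = true :=
  ⟨(l 3), by decide +kernel⟩

theorem c_pm_203 : CertB 0 536870912 1610612736 536870912 536870912 50465866 3 eng mog cd0q2 cd2q3 pd0 false true false .up 2 0 3
    ndB0q2 ndB2q3 pcB0 Cut.none Ext.none :=
  certB1 (fam := false) (s1 := true) (s2 := false) (a := 2) (b := 0) (c := 3) (cn := .up) (n1 := ndB0q2) (n2 := ndB2q3) (pc := pcB0) (cut := Cut.none) (xt := Ext.none) (P1 := 0) (W1 := 536870912) (P2 := 1610612736) (W2 := 536870912) (P3 := 536870912) (W3 := 50465866) (N0 := 3) (En := eng) (mo := mog) (C1 := cd0q2) (C2 := cd2q3) (C3 := pd0)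
    rfl (fun _ => rfl) k0_pm_203

noncomputable def cut_pm_213 : Cut := Cut.of [[⟨0, 1, 0, 67108864⟩, ⟨1, 1, 0, 67108864⟩, ⟨2, 2, 0, 16777216⟩]]

noncomputable def f_pm_213 : ℕ → ℕ → ℕ → ℕ → Bool := onCell 0 536870912 1610612736 536870912 536870912 50465866
    (rowB 3 eng mog cd0q2 cd2q3 pd1 0 false true false .pnn 2 1 3 (qsf 0 536870912 1610612736 536870912 1) ndB0q2 ndB2q3 pcB1 cut_pm_213 Ext.none)

def k0_pm_213 : ∃ t, chk3 f_pm_213 t 1 1 1 = true :=
  ⟨(b (l 3) (a (l 3) (b (l 3) (a (l 3) (b (l 3) (a (l 3) (a (l 3) (b (l 3) (b (l 3) (b (l 3) (l 6))))))))))), by decide +kernel⟩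

theorem c_pm_213 : CertB 0 536870912 1610612736 536870912 536870912 50465866 3 eng mog cd0q2 cd2q3 pd1 false true false .pnn 2 1 3
    ndB0q2 ndB2q3 pcB1 cut_pm_213 Ext.none :=
  certB0 (fam := false) (s1 := true) (s2 := false) (a := 2) (b := 1) (c := 3) (cn := .pnn) (n1 := ndB0q2) (n2 := ndB2q3) (pc := pcB1) (cut := cut_pm_213) (xt := Ext.none) (P1 := 0) (W1 := 536870912) (P2 := 1610612736) (W2 := 536870912) (P3 := 536870912) (W3 := 50465866) (N0 := 3) (En := eng) (mo := mog) (C1 := cd0q2) (C2 := cd2q3) (C3 := pd1)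
    rfl k0_pm_213

noncomputable def f_mm_001 : ℕ → ℕ → ℕ → ℕ → Bool := onCell 0 536870912 536870912 536870912 536870912 50465866
    (rowB 3 eng mog cd0q0 cd2q1 pd0 0 false false false .up 0 0 1 (qsf 0 536870912 536870912 536870912 0) ndB0q0 ndB2q1 pcB0 Cut.none Ext.none)

def k0_mm_001 : ∃ t, chk3 f_mm_001 t 1 1 1 = true :=
  ⟨(l 3), by decide +kernel⟩

theorem c_mm_001 : CertB 0 536870912 536870912 536870912 536870912 50465866 3 eng mog cd0q0 cd2q1 pd0 false false false .up 0 0 1
    ndB0q0 ndB2q1 pcB0 Cut.none Ext.none :=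
  certB0 (fam := false) (s1 := false) (s2 := false) (a := 0) (b := 0) (c := 1) (cn := .up) (n1 := ndB0q0) (n2 := ndB2q1) (pc := pcB0) (cut := Cut.none) (xt := Ext.none) (P1 := 0) (W1 := 536870912) (P2 := 536870912) (W2 := 536870912) (P3 := 536870912) (W3 := 50465866) (N0 := 3) (En := eng) (mo := mog) (C1 := cd0q0) (C2 := cd2q1) (C3 := pd0)
    rfl k0_mm_001

noncomputable def f_mm_011 : ℕ → ℕ → ℕ → ℕ → Bool := onCell 0 536870912 536870912 536870912 536870912 50465866
    (rowB 3 eng mog cd0q0 cd2q1 pd1 0 false false false .pnn 0 1 1 (qsf 0 536870912 536870912 536870912 1) ndB0q0 ndB2q1 pcB1 Cut.none Ext.none)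

def k0_mm_011 : ∃ t, chk3 f_mm_011 t 1 1 1 = true :=
  ⟨(l 3), by decide +kernel⟩

theorem c_mm_011 : CertB 0 536870912 536870912 536870912 536870912 50465866 3 eng mog cd0q0 cd2q1 pd1 false false false .pnn 0 1 1
    ndB0q0 ndB2q1 pcB1 Cut.none Ext.none :=
  certB0 (fam := false) (s1 := false) (s2 := false) (a := 0) (b := 1) (c := 1) (cn := .pnn) (n1 := ndB0q0) (n2 := ndB2q1) (pc := pcB1) (cut := Cut.none) (xt := Ext.none) (P1 := 0) (W1 := 536870912) (P2 := 536870912) (W2 := 536870912) (P3 := 536870912) (W3 := 50465866) (N0 := 3) (En := eng) (mo := mog) (C1 := cd0q0) (C2 := cd2q1) (C3 := pd1)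
    rfl k0_mm_011

noncomputable def f_mm_012_a : ℕ → ℕ → ℕ → ℕ → Bool := onCell 0 536870912 0 536870912 536870912 50465866
    (rowB 3 eng mog cd0q0 cd2q2a pd1 0 false false false .pnp 0 1 2 (qsf 0 536870912 0 536870912 1) ndB0q0 ndB2q2a pcB1 Cut.none Ext.none)

def k0_mm_012_a : ∃ t, chk3 f_mm_012_a t 1 1 1 = true :=
  ⟨(l 5), by decide +kernel⟩

theorem c_mm_012_a : CertB 0 536870912 0 536870912 536870912 50465866 3 eng mog cd0q0 cd2q2a pd1 false false false .pnp 0 1 2
    ndB0q0 ndB2q2a pcB1 Cut.none Ext.none :=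
  certB0 (fam := false) (s1 := false) (s2 := false) (a := 0) (b := 1) (c := 2) (cn := .pnp) (n1 := ndB0q0) (n2 := ndB2q2a) (pc := pcB1) (cut := Cut.none) (xt := Ext.none) (P1 := 0) (W1 := 536870912) (P2 := 0) (W2 := 536870912) (P3 := 536870912) (W3 := 50465866) (N0 := 3) (En := eng) (mo := mog) (C1 := cd0q0) (C2 := cd2q2a) (C3 := pd1)
    rfl k0_mm_012_a

noncomputable def f_mm_012_b : ℕ → ℕ → ℕ → ℕ → Bool := onCell 0 536870912 1239849684 370763052 536870912 50465866
    (rowB 3 eng mog cd0q0 cd2q2b pd1 0 false false false .pnp 0 1 2 (qsf 0 536870912 1239849684 370763052 1) ndB0q0 ndB2q2b pcB1 Cut.none Ext.none)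

def k0_mm_012_b : ∃ t, chk3 f_mm_012_b t 1 1 1 = true :=
  ⟨(l 5), by decide +kernel⟩

theorem c_mm_012_b : CertB 0 536870912 1239849684 370763052 536870912 50465866 3 eng mog cd0q0 cd2q2b pd1 false false false .pnp 0 1 2
    ndB0q0 ndB2q2b pcB1 Cut.none Ext.none :=
  certB0 (fam := false) (s1 := false) (s2 := false) (a := 0) (b := 1) (c := 2) (cn := .pnp) (n1 := ndB0q0) (n2 := ndB2q2b) (pc := pcB1) (cut := Cut.none) (xt := Ext.none) (P1 := 0) (W1 := 536870912) (P2 := 1239849684) (W2 := 370763052) (P3 := 536870912) (W3 := 50465866) (N0 := 3) (En := eng) (mo := mog) (C1 := cd0q0) (C2 := cd2q2b) (C3 := pd1)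
    rfl k0_mm_012_b

noncomputable def f_mm_022_a : ℕ → ℕ → ℕ → ℕ → Bool := onCell 0 536870912 0 536870912 536870912 50465866
    (rowB 3 eng mog cd0q0 cd2q2a pd2 0 false false false .pp 0 2 2 (qsf 0 536870912 0 536870912 2) ndB0q0 ndB2q2a pcB2 Cut.none Ext.none)

def k0_mm_022_a : ∃ t, chk3 f_mm_022_a t 1 1 1 = true :=
  ⟨(l 5), by decide +kernel⟩

theorem c_mm_022_a : CertB 0 536870912 0 536870912 536870912 50465866 3 eng mog cd0q0 cd2q2a pd2 false false false .pp 0 2 2
    ndB0q0 ndB2q2a pcB2 Cut.none Ext.none :=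
  certB0 (fam := false) (s1 := false) (s2 := false) (a := 0) (b := 2) (c := 2) (cn := .pp) (n1 := ndB0q0) (n2 := ndB2q2a) (pc := pcB2) (cut := Cut.none) (xt := Ext.none) (P1 := 0) (W1 := 536870912) (P2 := 0) (W2 := 536870912) (P3 := 536870912) (W3 := 50465866) (N0 := 3) (En := eng) (mo := mog) (C1 := cd0q0) (C2 := cd2q2a) (C3 := pd2)
    rfl k0_mm_022_a

noncomputable def f_mm_022_b : ℕ → ℕ → ℕ → ℕ → Bool := onCell 0 536870912 1239849684 370763052 536870912 50465866
    (rowB 3 eng mog cd0q0 cd2q2b pd2 0 false false false .pp 0 2 2 (qsf 0 536870912 1239849684 370763052 2) ndB0q0 ndB2q2b pcB2 Cut.none Ext.none)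

def k0_mm_022_b : ∃ t, chk3 f_mm_022_b t 1 1 1 = true :=
  ⟨(l 5), by decide +kernel⟩

theorem c_mm_022_b : CertB 0 536870912 1239849684 370763052 536870912 50465866 3 eng mog cd0q0 cd2q2b pd2 false false false .pp 0 2 2
    ndB0q0 ndB2q2b pcB2 Cut.none Ext.none :=
  certB0 (fam := false) (s1 := false) (s2 := false) (a := 0) (b := 2) (c := 2) (cn := .pp) (n1 := ndB0q0) (n2 := ndB2q2b) (pc := pcB2) (cut := Cut.none) (xt := Ext.none) (P1 := 0) (W1 := 536870912) (P2 := 1239849684) (W2 := 370763052) (P3 := 536870912) (W3 := 50465866) (N0 := 3) (En := eng) (mo := mog) (C1 := cd0q0) (C2 := cd2q2b) (C3 := pd2)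
    rfl k0_mm_022_b

noncomputable def f_mm_023 : ℕ → ℕ → ℕ → ℕ → Bool := onCell 0 536870912 1610612736 536870912 536870912 50465866
    (rowB 3 eng mog cd0q0 cd2q3 pd2 0 false false false .up 0 2 3 (qsf 0 536870912 1610612736 536870912 2) ndB0q0 ndB2q3 pcB2 Cut.none Ext.none)

def k0_mm_023 : ∃ t, chk3 f_mm_023 t 1 1 1 = true :=
  ⟨(l 5), by decide +kernel⟩

theorem c_mm_023 : CertB 0 536870912 1610612736 536870912 536870912 50465866 3 eng mog cd0q0 cd2q3 pd2 false false false .up 0 2 3
    ndB0q0 ndB2q3 pcB2 Cut.none Ext.none :=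
  certB0 (fam := false) (s1 := false) (s2 := false) (a := 0) (b := 2) (c := 3) (cn := .up) (n1 := ndB0q0) (n2 := ndB2q3) (pc := pcB2) (cut := Cut.none) (xt := Ext.none) (P1 := 0) (W1 := 536870912) (P2 := 1610612736) (W2 := 536870912) (P3 := 536870912) (W3 := 50465866) (N0 := 3) (En := eng) (mo := mog) (C1 := cd0q0) (C2 := cd2q3) (C3 := pd2)
    rfl k0_mm_023

noncomputable def f_mm_033 : ℕ → ℕ → ℕ → ℕ → Bool := onCell 0 536870912 1610612736 536870912 536870912 50465866
    (rowB 3 eng mog cd0q0 cd2q3 pd3 0 false false false .pnn 0 3 3 (qsf 0 536870912 1610612736 536870912 3) ndB0q0 ndB2q3 pcB3 Cut.none Ext.none)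

def k0_mm_033 : ∃ t, chk3 f_mm_033 t 1 1 1 = true :=
  ⟨(l 5), by decide +kernel⟩

theorem c_mm_033 : CertB 0 536870912 1610612736 536870912 536870912 50465866 3 eng mog cd0q0 cd2q3 pd3 false false false .pnn 0 3 3
    ndB0q0 ndB2q3 pcB3 Cut.none Ext.none :=
  certB0 (fam := false) (s1 := false) (s2 := false) (a := 0) (b := 3) (c := 3) (cn := .pnn) (n1 := ndB0q0) (n2 := ndB2q3) (pc := pcB3) (cut := Cut.none) (xt := Ext.none) (P1 := 0) (W1 := 536870912) (P2 := 1610612736) (W2 := 536870912) (P3 := 536870912) (W3 := 50465866) (N0 := 3) (En := eng) (mo := mog) (C1 := cd0q0) (C2 := cd2q3) (C3 := pd3)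
    rfl k0_mm_033

noncomputable def f_mm_101 : ℕ → ℕ → ℕ → ℕ → Bool := onCell 536870912 536870912 536870912 536870912 536870912 50465866
    (rowB 3 eng mog cd0q1 cd2q1 pd0 0 false false false .npn 1 0 1 (qsf 536870912 536870912 536870912 536870912 0) ndB0q1 ndB2q1 pcB0 Cut.none Ext.none)

def k0_mm_101 : ∃ t, chk3 f_mm_101 t 1 1 1 = true :=
  ⟨(l 3), by decide +kernel⟩

theorem c_mm_101 : CertB 536870912 536870912 536870912 536870912 536870912 50465866 3 eng mog cd0q1 cd2q1 pd0 false false false .npn 1 0 1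
    ndB0q1 ndB2q1 pcB0 Cut.none Ext.none :=
  certB0 (fam := false) (s1 := false) (s2 := false) (a := 1) (b := 0) (c := 1) (cn := .npn) (n1 := ndB0q1) (n2 := ndB2q1) (pc := pcB0) (cut := Cut.none) (xt := Ext.none) (P1 := 536870912) (W1 := 536870912) (P2 := 536870912) (W2 := 536870912) (P3 := 536870912) (W3 := 50465866) (N0 := 3) (En := eng) (mo := mog) (C1 := cd0q1) (C2 := cd2q1) (C3 := pd0)
    rfl k0_mm_101

noncomputable def f_mm_102_a : ℕ → ℕ → ℕ → ℕ → Bool := onCell 536870912 536870912 0 536870912 536870912 50465866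
    (rowB 3 eng mog cd0q1 cd2q2a pd0 0 false false false .npp 1 0 2 (qsf 536870912 536870912 0 536870912 0) ndB0q1 ndB2q2a pcB0 Cut.none Ext.none)

def k0_mm_102_a : ∃ t, chk3 f_mm_102_a t 1 1 1 = true :=
  ⟨(a (l 3) (l 3)), by decide +kernel⟩

theorem c_mm_102_a : CertB 536870912 536870912 0 536870912 536870912 50465866 3 eng mog cd0q1 cd2q2a pd0 false false false .npp 1 0 2
    ndB0q1 ndB2q2a pcB0 Cut.none Ext.none :=
  certB0 (fam := false) (s1 := false) (s2 := false) (a := 1) (b := 0) (c := 2) (cn := .npp) (n1 := ndB0q1) (n2 := ndB2q2a) (pc := pcB0) (cut := Cut.none) (xt := Ext.none) (P1 := 536870912) (W1 := 536870912) (P2 := 0) (W2 := 536870912) (P3 := 536870912) (W3 := 50465866) (N0 := 3) (En := eng) (mo := mog) (C1 := cd0q1) (C2 := cd2q2a) (C3 := pd0)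
    rfl k0_mm_102_a

noncomputable def f_mm_102_b : ℕ → ℕ → ℕ → ℕ → Bool := onCell 536870912 536870912 1239849684 370763052 536870912 50465866
    (rowB 3 eng mog cd0q1 cd2q2b pd0 0 false false false .npp 1 0 2 (qsf 536870912 536870912 1239849684 370763052 0) ndB0q1 ndB2q2b pcB0 Cut.none Ext.none)

def k0_mm_102_b : ∃ t, chk3 f_mm_102_b t 1 1 1 = true :=
  ⟨(l 5), by decide +kernel⟩

theorem c_mm_102_b : CertB 536870912 536870912 1239849684 370763052 536870912 50465866 3 eng mog cd0q1 cd2q2b pd0 false false false .npp 1 0 2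
    ndB0q1 ndB2q2b pcB0 Cut.none Ext.none :=
  certB0 (fam := false) (s1 := false) (s2 := false) (a := 1) (b := 0) (c := 2) (cn := .npp) (n1 := ndB0q1) (n2 := ndB2q2b) (pc := pcB0) (cut := Cut.none) (xt := Ext.none) (P1 := 536870912) (W1 := 536870912) (P2 := 1239849684) (W2 := 370763052) (P3 := 536870912) (W3 := 50465866) (N0 := 3) (En := eng) (mo := mog) (C1 := cd0q1) (C2 := cd2q2b) (C3 := pd0)
    rfl k0_mm_102_b

noncomputable def f_mm_112_a : ℕ → ℕ → ℕ → ℕ → Bool := onCell 536870912 536870912 0 536870912 536870912 50465866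
    (rowB 3 eng mog cd0q1 cd2q2a pd1 2 false false false .dn 1 1 2 (qsf 536870912 536870912 0 536870912 1) ndB0q1 ndB2q2a pcB1 Cut.none Ext.none)

def k0_mm_112_a : ∃ t, chk3 f_mm_112_a t 1 1 1 = true :=
  ⟨(l 5), by decide +kernel⟩

theorem c_mm_112_a : CertB 536870912 536870912 0 536870912 536870912 50465866 3 eng mog cd0q1 cd2q2a pd1 false false false .dn 1 1 2
    ndB0q1 ndB2q2a pcB1 Cut.none Ext.none :=
  certB2 (fam := false) (s1 := false) (s2 := false) (a := 1) (b := 1) (c := 2) (cn := .dn) (n1 := ndB0q1) (n2 := ndB2q2a) (pc := pcB1) (cut := Cut.none) (xt := Ext.none) (P1 := 536870912) (W1 := 536870912) (P2 := 0) (W2 := 536870912) (P3 := 536870912) (W3 := 50465866) (N0 := 3) (En := eng) (mo := mog) (C1 := cd0q1) (C2 := cd2q2a) (C3 := pd1)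
    rfl (fun _ => rfl) k0_mm_112_a

noncomputable def f_mm_112_b : ℕ → ℕ → ℕ → ℕ → Bool := onCell 536870912 536870912 1239849684 370763052 536870912 50465866
    (rowB 3 eng mog cd0q1 cd2q2b pd1 0 false false false .dn 1 1 2 (qsf 536870912 536870912 1239849684 370763052 1) ndB0q1 ndB2q2b pcB1 Cut.none Ext.none)

def k0_mm_112_b : ∃ t, chk3 f_mm_112_b t 1 1 1 = true :=
  ⟨(l 5), by decide +kernel⟩

theorem c_mm_112_b : CertB 536870912 536870912 1239849684 370763052 536870912 50465866 3 eng mog cd0q1 cd2q2b pd1 false false false .dn 1 1 2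
    ndB0q1 ndB2q2b pcB1 Cut.none Ext.none :=
  certB0 (fam := false) (s1 := false) (s2 := false) (a := 1) (b := 1) (c := 2) (cn := .dn) (n1 := ndB0q1) (n2 := ndB2q2b) (pc := pcB1) (cut := Cut.none) (xt := Ext.none) (P1 := 536870912) (W1 := 536870912) (P2 := 1239849684) (W2 := 370763052) (P3 := 536870912) (W3 := 50465866) (N0 := 3) (En := eng) (mo := mog) (C1 := cd0q1) (C2 := cd2q2b) (C3 := pd1)
    rfl k0_mm_112_b

noncomputable def f_mm_113 : ℕ → ℕ → ℕ → ℕ → Bool := onCell 536870912 536870912 1610612736 536870912 536870912 50465866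
    (rowB 3 eng mog cd0q1 cd2q3 pd1 0 false false false .nn 1 1 3 (qsf 536870912 536870912 1610612736 536870912 1) ndB0q1 ndB2q3 pcB1 Cut.none Ext.none)

def k0_mm_113 : ∃ t, chk3 f_mm_113 t 1 1 1 = true :=
  ⟨(l 5), by decide +kernel⟩

theorem c_mm_113 : CertB 536870912 536870912 1610612736 536870912 536870912 50465866 3 eng mog cd0q1 cd2q3 pd1 false false false .nn 1 1 3
    ndB0q1 ndB2q3 pcB1 Cut.none Ext.none :=
  certB0 (fam := false) (s1 := false) (s2 := false) (a := 1) (b := 1) (c := 3) (cn := .nn) (n1 := ndB0q1) (n2 := ndB2q3) (pc := pcB1) (cut := Cut.none) (xt := Ext.none) (P1 := 536870912) (W1 := 536870912) (P2 := 1610612736) (W2 := 536870912) (P3 := 536870912) (W3 := 50465866) (N0 := 3) (En := eng) (mo := mog) (C1 := cd0q1) (C2 := cd2q3) (C3 := pd1)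
    rfl k0_mm_113

noncomputable def f_mm_123 : ℕ → ℕ → ℕ → ℕ → Bool := onCell 536870912 536870912 1610612736 536870912 536870912 50465866
    (rowB 3 eng mog cd0q1 cd2q3 pd2 0 false false false .npn 1 2 3 (qsf 536870912 536870912 1610612736 536870912 2) ndB0q1 ndB2q3 pcB2 Cut.none Ext.none)

def k0_mm_123 : ∃ t, chk3 f_mm_123 t 1 1 1 = true :=
  ⟨(l 5), by decide +kernel⟩

theorem c_mm_123 : CertB 536870912 536870912 1610612736 536870912 536870912 50465866 3 eng mog cd0q1 cd2q3 pd2 false false false .npn 1 2 3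
    ndB0q1 ndB2q3 pcB2 Cut.none Ext.none :=
  certB0 (fam := false) (s1 := false) (s2 := false) (a := 1) (b := 2) (c := 3) (cn := .npn) (n1 := ndB0q1) (n2 := ndB2q3) (pc := pcB2) (cut := Cut.none) (xt := Ext.none) (P1 := 536870912) (W1 := 536870912) (P2 := 1610612736) (W2 := 536870912) (P3 := 536870912) (W3 := 50465866) (N0 := 3) (En := eng) (mo := mog) (C1 := cd0q1) (C2 := cd2q3) (C3 := pd2)
    rfl k0_mm_123

noncomputable def f_mm_133 : ℕ → ℕ → ℕ → ℕ → Bool := onCell 536870912 536870912 1610612736 536870912 536870912 50465866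
    (rowB 3 eng mog cd0q1 cd2q3 pd3 0 false false false .dn 1 3 3 (qsf 536870912 536870912 1610612736 536870912 3) ndB0q1 ndB2q3 pcB3 Cut.none Ext.none)

def k0_mm_133 : ∃ t, chk3 f_mm_133 t 1 1 1 = true :=
  ⟨(l 5), by decide +kernel⟩

theorem c_mm_133 : CertB 536870912 536870912 1610612736 536870912 536870912 50465866 3 eng mog cd0q1 cd2q3 pd3 false false false .dn 1 3 3
    ndB0q1 ndB2q3 pcB3 Cut.none Ext.none :=
  certB0 (fam := false) (s1 := false) (s2 := false) (a := 1) (b := 3) (c := 3) (cn := .dn) (n1 := ndB0q1) (n2 := ndB2q3) (pc := pcB3) (cut := Cut.none) (xt := Ext.none) (P1 := 536870912) (W1 := 536870912) (P2 := 1610612736) (W2 := 536870912) (P3 := 536870912) (W3 := 50465866) (N0 := 3) (En := eng) (mo := mog) (C1 := cd0q1) (C2 := cd2q3) (C3 := pd3)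
    rfl k0_mm_133

noncomputable def f_mm_202_a : ℕ → ℕ → ℕ → ℕ → Bool := onCell 0 536870912 0 536870912 536870912 50465866
    (rowB 3 eng mog cd0q2 cd2q2a pd0 0 false false false .pp 2 0 2 (qsf 0 536870912 0 536870912 0) ndB0q2 ndB2q2a pcB0 Cut.none Ext.none)

def k0_mm_202_a : ∃ t, chk3 f_mm_202_a t 1 1 1 = true :=
  ⟨(l 3), by decide +kernel⟩

theorem c_mm_202_a : CertB 0 536870912 0 536870912 536870912 50465866 3 eng mog cd0q2 cd2q2a pd0 false false false .pp 2 0 2
    ndB0q2 ndB2q2a pcB0 Cut.none Ext.none :=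
  certB0 (fam := false) (s1 := false) (s2 := false) (a := 2) (b := 0) (c := 2) (cn := .pp) (n1 := ndB0q2) (n2 := ndB2q2a) (pc := pcB0) (cut := Cut.none) (xt := Ext.none) (P1 := 0) (W1 := 536870912) (P2 := 0) (W2 := 536870912) (P3 := 536870912) (W3 := 50465866) (N0 := 3) (En := eng) (mo := mog) (C1 := cd0q2) (C2 := cd2q2a) (C3 := pd0)
    rfl k0_mm_202_a

noncomputable def f_mm_202_b : ℕ → ℕ → ℕ → ℕ → Bool := onCell 0 536870912 1239849684 370763052 536870912 50465866
    (rowB 3 eng mog cd0q2 cd2q2b pd0 0 false false false .pp 2 0 2 (qsf 0 536870912 1239849684 370763052 0) ndB0q2 ndB2q2b pcB0 Cut.none Ext.none)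

def k0_mm_202_b : ∃ t, chk3 f_mm_202_b t 1 1 1 = true :=
  ⟨(l 3), by decide +kernel⟩

theorem c_mm_202_b : CertB 0 536870912 1239849684 370763052 536870912 50465866 3 eng mog cd0q2 cd2q2b pd0 false false false .pp 2 0 2
    ndB0q2 ndB2q2b pcB0 Cut.none Ext.none :=
  certB0 (fam := false) (s1 := false) (s2 := false) (a := 2) (b := 0) (c := 2) (cn := .pp) (n1 := ndB0q2) (n2 := ndB2q2b) (pc := pcB0) (cut := Cut.none) (xt := Ext.none) (P1 := 0) (W1 := 536870912) (P2 := 1239849684) (W2 := 370763052) (P3 := 536870912) (W3 := 50465866) (N0 := 3) (En := eng) (mo := mog) (C1 := cd0q2) (C2 := cd2q2b) (C3 := pd0)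
    rfl k0_mm_202_b

noncomputable def f_mm_203 : ℕ → ℕ → ℕ → ℕ → Bool := onCell 0 536870912 0 536870912 536870912 50465866
    (rowB 3 eng mog cd0q2 cd2q3 pd0 1 false false false .up 2 0 3 (qsf 0 536870912 1610612736 536870912 0) ndB0q2 ndB2q3 pcB0 Cut.none Ext.none)

def k0_mm_203 : ∃ t, chk3 f_mm_203 t 1 1 1 = true :=
  ⟨(l 3), by decide +kernel⟩

theorem c_mm_203 : CertB 0 536870912 1610612736 536870912 536870912 50465866 3 eng mog cd0q2 cd2q3 pd0 false false false .up 2 0 3
    ndB0q2 ndB2q3 pcB0 Cut.none Ext.none :=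
  certB1 (fam := false) (s1 := false) (s2 := false) (a := 2) (b := 0) (c := 3) (cn := .up) (n1 := ndB0q2) (n2 := ndB2q3) (pc := pcB0) (cut := Cut.none) (xt := Ext.none) (P1 := 0) (W1 := 536870912) (P2 := 1610612736) (W2 := 536870912) (P3 := 536870912) (W3 := 50465866) (N0 := 3) (En := eng) (mo := mog) (C1 := cd0q2) (C2 := cd2q3) (C3 := pd0)
    rfl (fun _ => rfl) k0_mm_203

noncomputable def f_mm_213 : ℕ → ℕ → ℕ → ℕ → Bool := onCell 0 536870912 1610612736 536870912 536870912 50465866
    (rowB 3 eng mog cd0q2 cd2q3 pd1 0 false false false .pnn 2 1 3 (qsf 0 536870912 1610612736 536870912 1) ndB0q2 ndB2q3 pcB1 Cut.none Ext.none)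

def k0_mm_213 : ∃ t, chk3 f_mm_213 t 1 1 1 = true :=
  ⟨(a (l 3) (l 5)), by decide +kernel⟩

theorem c_mm_213 : CertB 0 536870912 1610612736 536870912 536870912 50465866 3 eng mog cd0q2 cd2q3 pd1 false false false .pnn 2 1 3
    ndB0q2 ndB2q3 pcB1 Cut.none Ext.none :=
  certB0 (fam := false) (s1 := false) (s2 := false) (a := 2) (b := 1) (c := 3) (cn := .pnn) (n1 := ndB0q2) (n2 := ndB2q3) (pc := pcB1) (cut := Cut.none) (xt := Ext.none) (P1 := 0) (W1 := 536870912) (P2 := 1610612736) (W2 := 536870912) (P3 := 536870912) (W3 := 50465866) (N0 := 3) (En := eng) (mo := mog) (C1 := cd0q2) (C2 := cd2q3) (C3 := pd1)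
    rfl k0_mm_213

end Pool.Agent.Strip051.G.I5000_5470.Tab.C.BB02

namespace Pool.Agent.Strip051.G.I5000_5470.Tab.C.BB03

open Pool.Agent.Strip051.PB Pool.Agent.Strip051.PB.T
open Pool.Agent.Strip051.G.I5000_5470.Tab

noncomputable def f_pp_001 : ℕ → ℕ → ℕ → ℕ → Bool := onCell 0 536870912 536870912 536870912 536870912 50465866
    (rowB 3 eng mog cd0q0 cd3q1 pd0 0 false true true .up 0 0 1 (qsf 0 536870912 536870912 536870912 0) ndB0q0 ndB3q1 pcB0 Cut.none Ext.none)

def k0_pp_001 : ∃ t, chk3 f_pp_001 t 1 1 1 = true :=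
  ⟨(l 3), by decide +kernel⟩

theorem c_pp_001 : CertB 0 536870912 536870912 536870912 536870912 50465866 3 eng mog cd0q0 cd3q1 pd0 false true true .up 0 0 1
    ndB0q0 ndB3q1 pcB0 Cut.none Ext.none :=
  certB0 (fam := false) (s1 := true) (s2 := true) (a := 0) (b := 0) (c := 1) (cn := .up) (n1 := ndB0q0) (n2 := ndB3q1) (pc := pcB0) (cut := Cut.none) (xt := Ext.none) (P1 := 0) (W1 := 536870912) (P2 := 536870912) (W2 := 536870912) (P3 := 536870912) (W3 := 50465866) (N0 := 3) (En := eng) (mo := mog) (C1 := cd0q0) (C2 := cd3q1) (C3 := pd0)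
    rfl k0_pp_001

noncomputable def f_pp_011 : ℕ → ℕ → ℕ → ℕ → Bool := onCell 0 536870912 536870912 536870912 536870912 50465866
    (rowB 3 eng mog cd0q0 cd3q1 pd1 0 false true true .pnn 0 1 1 (qsf 0 536870912 536870912 536870912 1) ndB0q0 ndB3q1 pcB1 Cut.none Ext.none)

def k0_pp_011 : ∃ t, chk3 f_pp_011 t 1 1 1 = true :=
  ⟨(l 3), by decide +kernel⟩

theorem c_pp_011 : CertB 0 536870912 536870912 536870912 536870912 50465866 3 eng mog cd0q0 cd3q1 pd1 false true true .pnn 0 1 1
    ndB0q0 ndB3q1 pcB1 Cut.none Ext.none :=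
  certB0 (fam := false) (s1 := true) (s2 := true) (a := 0) (b := 1) (c := 1) (cn := .pnn) (n1 := ndB0q0) (n2 := ndB3q1) (pc := pcB1) (cut := Cut.none) (xt := Ext.none) (P1 := 0) (W1 := 536870912) (P2 := 536870912) (W2 := 536870912) (P3 := 536870912) (W3 := 50465866) (N0 := 3) (En := eng) (mo := mog) (C1 := cd0q0) (C2 := cd3q1) (C3 := pd1)
    rfl k0_pp_011

noncomputable def cut_pp_012_a : Cut := Cut.of [[⟨0, 0, 0, 67108864⟩, ⟨1, 1, 0, 67108864⟩, ⟨2, 1, 0, 67108864⟩]]

noncomputable def f_pp_012_a : ℕ → ℕ → ℕ → ℕ → Bool := onCell 536870912 536870912 0 536870912 536870912 50465866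
    (rowB 3 eng mog cd0q0 cd3q2a pd1 2 false true true .pnp 0 1 2 (qsf 0 536870912 0 536870912 1) ndB0q0 ndB3q2a pcB1 cut_pp_012_a Ext.none)

def k0_pp_012_a : ∃ t, chk3 f_pp_012_a t 2 1 1 = true :=
  ⟨(l 3), by decide +kernel⟩

def k1_pp_012_a : ∃ t, chk3 f_pp_012_a t 6 1 1 = true :=
  ⟨(l 3), by decide +kernel⟩

def k2_pp_012_a : ∃ t, chk3 f_pp_012_a t 14 2 1 = true :=
  ⟨(a (l 3) (b (a (l 3) (b (b (a (l 3) (a (b (c (l 18421154791) (l 31842917303)) (l 3)) (b (c (c (l 16657400) (l 16656344)) (a (l 16656088) (l 16653816))) (c (l 27547956599) (l 16658112))))) (l 3)) (l 3))) (l 3))), by decide +kernel⟩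

def k3_pp_012_a : ∃ t, chk3 f_pp_012_a t 15 2 1 = true :=
  ⟨(a (b (a (b (b (a (a (b (c (l 16662520) (l 16650432)) (c (l 16655488) (l 16653512))) (c (l 16669888) (l 16647472))) (c (l 16641704) (l 16641144))) (a (a (c (c (l 16661496) (l 16665448)) (l 16658440)) (c (b (l 16654096) (l 16657696)) (l 16653776))) (c (c (l 16669904) (l 16669040)) (l 16670496)))) (a (a (l 3) (b (c (l 36137906855) (l 16660712)) (l 3))) (b (c (b (l 16653872) (l 16657608)) (a (l 16655976) (l 16651320))) (c (a (l 25937377783) (l 16660952)) (l 45801582967))))) (a (b (c (l 16658224) (l 16657896)) (b (b (l 16664288) (l 16667832)) (c (l 16674376) (l 16672600)))) (b (b (l 16652840) (l 16632768)) (b (l 16635832) (l 16643096))))) (a (b (a (l 3) (b (c (a (l 3) (l 57075898343)) (l 20568678087)) (l 3))) (l 3)) (a (b (b (c (a (l 16664144) (l 16659152)) (l 16670048)) (c (a (l 16683528) (l 16668112)) (l 16678752))) (b (c (a (l 3) (l 16688320)) (l 16688344)) (l 3))) (b (b (c (l 16672816) (l 16629456)) (c (l 16660832) (l 16659096))) (b (c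 (b (l 16668080) (l 16673192)) (l 16684384)) (b (c (l 16678536) (l 16676408)) (c (l 16684096) (l 16681936)))))))) (b (b (a (b (a (l 16626944) (l 16621712)) (a (l 16627816) (l 16622536))) (b (a (l 16616248) (l 16610624)) (a (l 16617008) (l 16611304)))) (a (c (l 16651184) (l 16655368)) (b (l 16632064) (l 16619944)))) (a (b (b (l 16669112) (a (l 16650864) (l 16642112))) (b (a (c (l 16661304) (l 16680824)) (l 16651784)) (a (c (l 16693048) (l 16691328)) (l 16683400)))) (b (c (l 16650016) (l 16648744)) (a (b (l 16643304) (l 16653920)) (l 16661904)))))), by decide +kernel⟩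

def k4_pp_012_a : ∃ t, chk3 f_pp_012_a t 14 3 1 = true :=
  ⟨(l 3), by decide +kernel⟩

def k5_pp_012_a : ∃ t, chk3 f_pp_012_a t 15 6 1 = true :=
  ⟨(a (b (a (l 3) (a (l 3) (a (l 3) (a (l 3) (b (l 4462578743) (l 3)))))) (l 3)) (b (c (a (a (b (b (l 16680704) (l 16686768)) (b (l 16703576) (a (l 3) (l 16697424)))) (b (l 16695792) (b (l 16684224) (l 16690832)))) (b (a (l 16655648) (l 16657664)) (a (l 16699872) (l 16665192)))) (a (b (a (b (l 16678840) (l 16684856)) (l 16694304)) (a (b (l 16701664) (l 16703016)) (b (l 16682616) (l 16689176)))) (b (a (l 16665008) (l 16656856)) (a (l 16674960) (l 16669384))))) (a (b (a (a (l 3) (b (l 16708480) (l 3))) (a (b (l 16709376) (a (l 16707096) (l 16704928))) (b (l 16694624) (l 16701736)))) (a (l 3) (a (b (c (l 16714304) (l 16712752)) (l 3)) (c (b (l 16720480) (b (l 16715672) (l 16719568))) (b (l 16718944) (b (l 16714208) (l 16718168))))))) (b (a (b (l 16704016) (c (l 16696176) (l 16694776))) (b (l 16700920) (l 16708032))) (a (a (b (l 16704928) (c (l 16713360) (l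 16711976))) (b (l 16700728) (l 16708400))) (a (b (l 16696544) (l 16704216)) (b (l 16692384) (l 16700048)))))))), by decide +kernel⟩

def k6_pp_012_a : ∃ t, chk3 f_pp_012_a t 15 7 1 = true :=
  ⟨(a (l 3) (b (a (b (a (l 3) (a (l 3) (a (l 3) (b (b (l 16721728) (l 3)) (l 3))))) (l 3)) (b (a (a (b (b (l 16723784) (a (l 16723672) (l 16721560))) (a (b (l 16727856) (l 3)) (b (l 16725720) (a (l 16730488) (l 16729424))))) (b (c (l 16717080) (l 16715824)) (b (l 16727808) (a (l 16727848) (l 16725744))))) (a (b (l 16712200) (c (l 16721136) (l 16719984))) (b (l 16708024) (c (l 16716928) (l 16715816))))) (a (b (b (a (a (l 3) (a (l 3) (l 16733736))) (c (a (l 16732776) (l 16730664)) (l 40969876215))) (a (l 3) (a (b (l 9294502119) (l 6)) (l 6)))) (a (l 3) (l 6))) (a (b (b (l 16732144) (l 6)) (l 6)) (l 6))))) (a (l 3) (l 6)))), by decide +kernel⟩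

theorem s7_pp_012_a : ∃ t, chk3 f_pp_012_a t 15 3 1 = true := ex3_b k5_pp_012_a k6_pp_012_a

theorem s8_pp_012_a : ∃ t, chk3 f_pp_012_a t 7 3 1 = true := ex3_a k4_pp_012_a s7_pp_012_a

theorem s9_pp_012_a : ∃ t, chk3 f_pp_012_a t 7 2 1 = true := ex3_a k2_pp_012_a k3_pp_012_a

theorem s10_pp_012_a : ∃ t, chk3 f_pp_012_a t 7 1 1 = true := ex3_b s9_pp_012_a s8_pp_012_a

theorem s11_pp_012_a : ∃ t, chk3 f_pp_012_a t 3 1 1 = true := ex3_a k1_pp_012_a s10_pp_012_a

theorem s12_pp_012_a : ∃ t, chk3 f_pp_012_a t 1 1 1 = true := ex3_a k0_pp_012_a s11_pp_012_a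

theorem c_pp_012_a : CertB 0 536870912 0 536870912 536870912 50465866 3 eng mog cd0q0 cd3q2a pd1 false true true .pnp 0 1 2
    ndB0q0 ndB3q2a pcB1 cut_pp_012_a Ext.none :=
  certB2 (fam := false) (s1 := true) (s2 := true) (a := 0) (b := 1) (c := 2) (cn := .pnp) (n1 := ndB0q0) (n2 := ndB3q2a) (pc := pcB1) (cut := cut_pp_012_a) (xt := Ext.none) (P1 := 0) (W1 := 536870912) (P2 := 0) (W2 := 536870912) (P3 := 536870912) (W3 := 50465866) (N0 := 3) (En := eng) (mo := mog) (C1 := cd0q0) (C2 := cd3q2a) (C3 := pd1)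
    rfl (fun _ => rfl) s12_pp_012_a

noncomputable def cut_pp_012_b : Cut := Cut.of [[⟨0, 0, 0, 67108864⟩, ⟨1, 1, 0, 67108864⟩, ⟨2, 1, 0, 67108864⟩]]

noncomputable def xt_pp_012_b : Ext := extD2 3 ⟨7, 3, 3, 10, 1741, 1000, 23, 25, 19, 50, 3, 16⟩ eng cd0q0 cd3q2b pd1 false true true .pnp 0 1 2 rfl ndB0q0 ndB3q2b pcB1

noncomputable def f_pp_012_b : ℕ → ℕ → ℕ → ℕ → Bool := onCell 0 536870912 536870912 536870912 536870912 50465866
    (rowB 3 eng mog cd0q0 cd3q2b pd1 1 false true true .pnp 0 1 2 (qsf 0 536870912 1239849684 370763052 1) ndB0q0 ndB3q2b pcB1 cut_pp_012_b xt_pp_012_b)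

def k0_pp_012_b : ∃ t, chk3 f_pp_012_b t 1 2 1 = true :=
  ⟨(l 3), by decide +kernel⟩

def k1_pp_012_b : ∃ t, chk3 f_pp_012_b t 1 6 1 = true :=
  ⟨(a (l 1) (l 3)), by decide +kernel⟩

def k2_pp_012_b : ∃ t, chk3 f_pp_012_b t 2 7 1 = true :=
  ⟨(a (l 1) (b (a (l 1) (b (l 3) (b (l 3) (b (l 3) (b (a (l 1) (b (l 3) (a (a (b (l 3) (b (l 3) (c (l 16656944) (l 23655640263)))) (l 3)) (l 3)))) (a (b (l 1) (a (l 1) (a (l 1) (c (l 76805866263) (c (l 83248318759) (l 70363411831)))))) (c (a (a (a (l 16659288) (l 16651024)) (l 16657064)) (c (l 16649096) (l 16647792))) (a (a (b (l 19897540343) (l 16648696)) (l 16644368)) (l 16645816))))))))) (a (b (a (l 1) (b (l 1) (a (l 1) (b (l 1) (a (l 1) (l 126734840599)))))) (a (b (l 1) (a (l 1) (b (l 1) (a (l 1) (l 112239280375))))) (b (a (b (l 1) (l 165389488279)) (c (b (l 71974013783) (l 16616584)) (b (l 142840941335) (l 16613024)))) (b (a (c (l 83785145143) (l 144451547863)) (l 16620744)) (a (l 93985654119) (l 16584960)))))) (b (a (a (a (b (l 1) (b (b (l 1) (l 134251021815))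 (l 16655960))) (b (a (l 1) (b (l 1) (c (l 16665928) (l 75732132279)))) (b (b (l 16659232) (l 16651432)) (l 16639840)))) (b (a (b (c (a (l 1) (l 79490230967)) (l 184180032663)) (c (l 16659912) (l 34393060423))) (b (b (c (l 16661256) (l 37077414599)) (l 16652688)) (l 16651432))) (b (l 16649464) (l 16623312)))) (b (b (a (a (c (l 16661664) (l 16659992)) (c (l 16634768) (l 16632760))) (c (a (l 16629008) (l 16623408)) (c (l 16624376) (l 16623112)))) (a (c (l 16642856) (l 16641336)) (c (l 16610424) (l 16608304)))) (a (c (l 16619088) (l 16618080)) (c (l 16607712) (l 16585120))))) (a (b (a (a (a (l 16630448) (l 16625104)) (l 16614304)) (l 16600008)) (a (a (l 16618800) (l 16566040)) (l 16570176))) (a (b (l 16587408) (l 16535344)) (b (l 16596824) (l 16523864)))))))), by decide +kernel⟩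

def k3_pp_012_b : ∃ t, chk3 f_pp_012_b t 6 7 1 = true :=
  ⟨(b (a (b (l 3) (b (l 3) (b (l 3) (b (l 3) (a (a (c (a (l 16629656) (l 16624240)) (l 16634368)) (c (l 32916590135) (l 16612904))) (a (c (l 199346548359) (l 248738667367)) (l 3))))))) (l 3)) (a (b (b (a (a (b (c (a (l 16617928) (l 16612544)) (b (l 16616192) (l 16608504))) (c (l 16599536) (l 16596968))) (c (b (a (l 16607208) (l 16601896)) (l 16588952)) (b (b (l 16605240) (l 16597600)) (l 16586120)))) (b (a (c (a (l 16596552) (l 16591144)) (a (l 16593384) (l 16588024))) (c (a (l 16585616) (l 16590400)) (a (l 16582624) (l 16577128)))) (a (c (l 16578352) (l 16575496)) (c (l 16567336) (l 16564736))))) (a (a (c (l 16596936) (l 16573880)) (c (l 16586480) (l 16563160))) (a (b (l 16561752) (l 16546400)) (b (c (l 16551864) (l 16549576)) (l 16535408))))) (b (a (a (l 16565016) (l 16533648)) (a (l 16544128) (l 16527240))) (a (c (l 16570944) (l 16548984)) (a (l 16491568) (l 16479448))))) (b (a (b (b (a (c (b (l 31842758087) (l 16567480)) (b (l 16572704)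 (l 16565136))) (c (b (b (l 3) (l 16561392)) (l 16555312)) (b (l 27547765975) (l 16553680)))) (a (c (l 16566144) (l 16553576)) (c (l 16543080) (l 16541752)))) (a (b (l 16539072) (l 16523000)) (b (l 16526640) (l 16510616)))) (b (b (b (a (c (l 75329247911) (l 99488441143)) (l 3)) (a (c (c (l 16542504) (l 16542720)) (l 16541928)) (c (c (l 31842663943) (l 16530872)) (l 30768927111)))) (a (c (b (l 16534592) (l 16526488)) (l 16530072)) (c (b (l 16522552) (l 16514512)) (l 16518960)))) (a (b (c (l 16514352) (l 16514296)) (l 16498736)) (b (c (l 16502456) (l 16503296)) (l 16487440))))) (a (b (a (l 16498888) (l 16486640)) (b (l 16468760) (l 16452912))) (b (a (l 16474920) (l 16463800)) (a (l 16443376) (l 16432488))))))), by decide +kernel⟩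

def k4_pp_012_b : ∃ t, chk3 f_pp_012_b t 7 14 1 = true :=
  ⟨(l 3), by decide +kernel⟩

def k5_pp_012_b : ∃ t, chk3 f_pp_012_b t 7 30 1 = true :=
  ⟨(b (b (b (l 3) (a (a (a (a (b (l 79624160151) (l 34526995639)) (c (l 31305769335) (l 16519016))) (a (c (l 31305761959) (l 16515440)) (a (l 621387871423693826157101071) (l 141744880980574223)))) (l 3)) (l 3))) (a (c (a (a (a (l 16510496) (l 16505968)) (c (l 141635204671193103) (l 141470209211039759))) (a (c (l 141469590723837967) (l 141396885521268751)) (a (l 141338267805515791) (l 747116156663273724527919119)))) (a (a (b (l 16513248) (l 16505472)) (a (l 16503824) (l 16511536))) (a (c (l 141447669216559119) (l 524673805854055649978974223)) (a (b (l 141285353819258895) (l 141223162678067215)) (b (a (l 727773343549283733232549903) (l 776130376333882369240186895)) (l 141244946760941583)))))) (a (a (c (a (l 785801782890955945628958735) (l 1308057736964394728868462607)) (a (b (l 843830222232343796795424783) (l 141300953150439439)) (b (l 921201474687743973105385487)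 (l 141365068440141839)))) (c (b (l 2952196851640630567943684111) (c (l 141537691867938831) (l 141512471766384655))) (a (b (l 2410598084453039065652527119) (l 141437292630048783)) (b (l 3) (a (l 141496941152092175) (l 141539409800183823)))))) (b (l 3) (a (c (c (l 1201672264838763315361562639) (l 669744904208256796900294671)) (a (c (l 141633074474303503) (l 834158815675676833635975183)) (c (l 824487409118922459286306831) (l 921201474688024486078906383)))) (c (a (l 766458969777686272070565903) (l 863173035347014935734042639)) (b (l 3) (a (l 824487409118998944061014031) (l 969558507472879239620821007))))))))) (a (a (a (b (a (l 16495648) (l 16491384)) (l 16477760)) (b (a (l 16487848) (l 16485104)) (l 16470880))) (b (a (a (l 141577686435577871) (c (l 141229416122908687) (l 141144616293138447))) (c (l 141466292176551951) (a (l 141151488246284303) (l 141194712810307599)))) (a (a (l 16468168) (l 141362731886362639)) (c (l 16482424) (l 16479984))))) (c (a (a (b (l 141279031646421007) (l 141238280984199183))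 (b (l 141497765795364879) (l 141458183365214223))) (b (a (c (l 141801299798802447) (l 141721035429314575)) (b (l 142073978745700367) (l 142057486067023887))) (a (l 141722959574843407) (l 142031578817806351)))) (b (a (a (c (l 141283292244787215) (l 141281917847273487)) (c (l 141445676412125199) (l 141412553609740303))) (a (a (l 141561125161795599) (l 141665029037015055)) (a (l 141784600954208271) (l 141910288906059791)))) (a (a (l 141214229149810703) (l 141362319663611919)) (a (l 141547931020410895) (l 141785563027881999))))))), by decide +kernel⟩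

def k6_pp_012_b : ∃ t, chk3 f_pp_012_b t 7 31 1 = true :=
  ⟨(a (c (a (a (b (l 16452576) (l 16422944)) (b (l 141175539984760847) (l 16425904))) (b (a (l 141210243334520847) (l 16472392)) (l 16469216))) (a (a (b (l 16455152) (l 16425656)) (b (l 16481544) (l 16426168))) (b (a (l 16475032) (l 16466688)) (l 16441144)))) (a (a (b (c (l 141169080451710991) (l 141103522046754831)) (l 16474432)) (b (c (l 141391937771765775) (l 141255529572253711)) (l 16499800))) (a (b (a (l 141487526589153295) (l 141670320429416463)) (l 16551280)) (b (b (l 141853732769284111) (l 16573216)) (l 16564704))))), by decide +kernel⟩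

theorem s7_pp_012_b : ∃ t, chk3 f_pp_012_b t 7 15 1 = true := ex3_b k5_pp_012_b k6_pp_012_b

theorem s8_pp_012_b : ∃ t, chk3 f_pp_012_b t 7 7 1 = true := ex3_b k4_pp_012_b s7_pp_012_b

theorem s9_pp_012_b : ∃ t, chk3 f_pp_012_b t 3 7 1 = true := ex3_a k3_pp_012_b s8_pp_012_b

theorem s10_pp_012_b : ∃ t, chk3 f_pp_012_b t 1 7 1 = true := ex3_a k2_pp_012_b s9_pp_012_b

theorem s11_pp_012_b : ∃ t, chk3 f_pp_012_b t 1 3 1 = true := ex3_b k1_pp_012_b s10_pp_012_b

theorem s12_pp_012_b : ∃ t, chk3 f_pp_012_b t 1 1 1 = true := ex3_b k0_pp_012_b s11_pp_012_b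

theorem c_pp_012_b : CertB 0 536870912 1239849684 370763052 536870912 50465866 3 eng mog cd0q0 cd3q2b pd1 false true true .pnp 0 1 2
    ndB0q0 ndB3q2b pcB1 cut_pp_012_b xt_pp_012_b :=
  certB1 (fam := false) (s1 := true) (s2 := true) (a := 0) (b := 1) (c := 2) (cn := .pnp) (n1 := ndB0q0) (n2 := ndB3q2b) (pc := pcB1) (cut := cut_pp_012_b) (xt := xt_pp_012_b) (P1 := 0) (W1 := 536870912) (P2 := 1239849684) (W2 := 370763052) (P3 := 536870912) (W3 := 50465866) (N0 := 3) (En := eng) (mo := mog) (C1 := cd0q0) (C2 := cd3q2b) (C3 := pd1)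
    rfl (fun _ => rfl) s12_pp_012_b

noncomputable def cut_pp_022_a : Cut := Cut.of [[⟨0, 0, 0, 67108864⟩, ⟨1, 1, 0, 67108864⟩, ⟨2, 1, 0, 67108864⟩]]

noncomputable def f_pp_022_a : ℕ → ℕ → ℕ → ℕ → Bool := onCell 1073741824 536870912 0 536870912 536870912 50465866
    (rowB 3 eng mog cd0q0 cd3q2a pd2 2 false true true .pp 0 2 2 (qsf 0 536870912 0 536870912 2) ndB0q0 ndB3q2a pcB2 cut_pp_022_a Ext.none)

def k0_pp_022_a : ∃ t, chk3 f_pp_022_a t 8 1 1 = true :=
  ⟨(b (b (a (b (a (b (a (l 16596080) (l 16592712)) (l 16606184)) (c (l 16589376) (l 16606488))) (a (b (l 16640304) (l 16602456)) (b (l 16590496) (l 16594312)))) (b (a (c (l 16580880) (l 16576168)) (b (l 16568264) (l 16569216))) (a (l 16604240) (l 16573064)))) (a (a (b (l 16646952) (b (l 16644176) (l 16654088))) (b (a (l 16626072) (l 16600296)) (b (l 16613568) (l 16622568)))) (a (b (l 16613752) (b (l 16602848) (l 16611248))) (b (l 16581896) (b (l 16591264) (l 16599104)))))) (b (a (b (a (a (b (l 16648544) (a (l 16684096) (l 16659440))) (b (l 16641288)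 (l 16653824))) (a (l 16662776) (l 16651488))) (a (b (a (a (a (l 16677800) (l 16675976)) (l 16673216)) (l 16688576)) (a (a (b (l 16687896) (l 16695616)) (b (l 16684216) (l 16691928))) (a (l 16705344) (l 16680584)))) (a (b (l 16660752) (l 16696216)) (b (l 16654136) (l 16678688))))) (b (a (b (l 16662832) (a (l 16635000) (l 16628496))) (b (l 16608120) (l 16639272))) (a (b (a (l 16647384) (l 16640480)) (a (c (l 16661392) (l 16660320)) (l 16666760))) (b (a (l 16633328) (l 16625968)) (a (b (l 16642696) (l 16649344)) (b (l 16635000) (l 16641408))))))) (a (b (b (a (a (b (a (l 16708880) (l 16720920)) (b (a (l 16709848) (l 16706144)) (l 6))) (b (l 16715280) (c (l 16702872) (l 16702544)))) (a (c (l 16711904) (l 16701344)) (c (l 16694192) (b (l 16679056) (l 16686920))))) (l 6)) (l 6)) (b (b (a (b (a (l 16671944) (l 16664216)) (b (a (l 16677664) (l 16669728)) (l 6))) (a (b (l 16656240) (a (l 16665464) (l 16661280))) (b (a (l 16650112) (l 16645960)) (c (l 3254548055) (a (l 16655056) (l 16650552)))))) (a (l 6) (a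 (l 6) (a (l 6) (l 1))))) (a (l 6) (l 1)))))), by decide +kernel⟩

def k1_pp_022_a : ∃ t, chk3 f_pp_022_a t 9 1 1 = true :=
  ⟨(b (b (a (b (a (l 16558208) (l 16546888)) (a (l 16562040) (l 16550296))) (b (a (l 16535040) (l 16522728)) (a (l 16537992) (l 16525184)))) (a (b (a (l 16570208) (l 16557800)) (a (b (l 16578912) (l 16586200)) (b (l 16565824) (l 16572552)))) (b (a (b (l 16542536) (l 16546856)) (b (l 16529200) (l 16533072))) (a (b (l 16552104) (a (l 16561864) (l 16554544))) (b (a (l 16541392) (l 16534064)) (a (l 16547064) (l 16539408))))))) (b (b (a (a (b (l 16594584) (a (l 16607672) (l 16600344))) (b (a (l 16583904) (l 16576600)) (a (l 16592808) (l 16585120)))) (a (b (a (l 16569088) (l 16561408)) (a (b (l 16575040) (l 16579320)) (b (l 16567064) (l 16571120)))) (b (a (l 24192298983) (l 16545520)) (l 1)))) (a (b (a (a (l 16618440) (l 16621176)) (a (b (l 16600104) (l 16605296)) (b (l 16592080) (l 16597032)))) (a (a (b (l 16627120) (a (l 16635328) (l 16631208))) (b (l 16619024) (c (l 16627184) (l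 16622200)))) (a (b (c (l 16613240) (l 16607680)) (l 1)) (l 1)))) (b (a (a (b (l 16583840) (l 1)) (l 1)) (l 1)) (l 1)))) (a (c (a (b (b (b (a (l 16641632) (l 16633408)) (a (l 16648344) (l 1))) (l 1)) (l 1)) (l 1)) (a (b (b (b (a (l 16637232) (l 16628168)) (a (l 16643680) (l 1))) (l 1)) (l 1)) (l 1))) (l 1)))), by decide +kernel⟩

def k2_pp_022_a : ∃ t, chk3 f_pp_022_a t 5 1 1 = true :=
  ⟨(b (a (a (a (b (b (c (l 16514872) (l 16504280)) (a (l 16515200) (l 16508416))) (b (b (a (l 16518792) (l 16511712)) (a (l 16522304) (l 16514968))) (b (a (l 16526576) (l 16518936)) (a (l 16531576) (l 1))))) (b (a (b (b (l 16500080) (l 16499976)) (b (l 16500720) (l 16502264))) (a (b (b (l 16495232) (l 16495040)) (l 16496448)) (b (b (a (l 16493000) (c (l 16497544) (a (a (a (l 16485552) (a (l 16485480) (l 16485504))) (l 16485200)) (l 1)))) (a (l 16492760) (l 1))) (a (l 16494064) (l 1))))) (a (b (b (l 16504544) (l 16507536)) (l 1)) (l 1)))) (b (b (l 1) (l 1)) (l 1))) (l 1)) (b (l 1) (l 1))), by decide +kernel⟩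

def k3_pp_022_a : ∃ t, chk3 f_pp_022_a t 3 1 1 = true :=
  ⟨(l 1), by decide +kernel⟩

theorem s4_pp_022_a : ∃ t, chk3 f_pp_022_a t 4 1 1 = true := ex3_a k0_pp_022_a k1_pp_022_a

theorem s5_pp_022_a : ∃ t, chk3 f_pp_022_a t 2 1 1 = true := ex3_a s4_pp_022_a k2_pp_022_a

theorem s6_pp_022_a : ∃ t, chk3 f_pp_022_a t 1 1 1 = true := ex3_a s5_pp_022_a k3_pp_022_a

theorem c_pp_022_a : CertB 0 536870912 0 536870912 536870912 50465866 3 eng mog cd0q0 cd3q2a pd2 false true true .pp 0 2 2
    ndB0q0 ndB3q2a pcB2 cut_pp_022_a Ext.none :=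
  certB2 (fam := false) (s1 := true) (s2 := true) (a := 0) (b := 2) (c := 2) (cn := .pp) (n1 := ndB0q0) (n2 := ndB3q2a) (pc := pcB2) (cut := cut_pp_022_a) (xt := Ext.none) (P1 := 0) (W1 := 536870912) (P2 := 0) (W2 := 536870912) (P3 := 536870912) (W3 := 50465866) (N0 := 3) (En := eng) (mo := mog) (C1 := cd0q0) (C2 := cd3q2a) (C3 := pd2)
    rfl (fun _ => rfl) s6_pp_022_a

noncomputable def cut_pp_022_b : Cut := Cut.of [[⟨0, 0, 0, 67108864⟩, ⟨1, 1, 0, 67108864⟩, ⟨2, 1, 0, 67108864⟩]]

noncomputable def f_pp_022_b : ℕ → ℕ → ℕ → ℕ → Bool := onCell 0 536870912 1073741824 536870912 536870912 50465866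
    (rowB 3 eng mog cd0q0 cd3q2b pd2 1 false true true .pp 0 2 2 (qsf 0 536870912 1239849684 370763052 2) ndB0q0 ndB3q2b pcB2 cut_pp_022_b Ext.none)

def k0_pp_022_b : ∃ t, chk3 f_pp_022_b t 2 4 1 = true :=
  ⟨(a (b (a (l 1) (b (a (l 1) (b (l 1) (a (l 1) (b (l 1) (l 140693369495))))) (a (b (l 1) (a (l 1) (b (l 1) (l 95596207799)))) (b (a (b (l 1) (l 122976648695)) (b (l 92375002487) (l 16570024))) (a (c (l 16569560) (l 96669947879)) (l 16551600)))))) (a (b (a (l 1) (b (l 1) (a (l 1) (b (l 1) (l 100427992935))))) (a (b (l 1) (a (l 1) (c (l 100964860199) (l 124587107447)))) (b (a (c (l 92911821735) (l 117070941367)) (l 93448662039)) (a (l 92374893479) (l 16509520))))) (b (a (b (a (b (l 1) (l 97743665351)) (l 92911840503)) (a (l 93985558151) (l 16531784))) (b (a (l 16542104) (l 16527792)) (l 16511592))) (a (b (a (l 16520880) (l 16508240)) (l 16491608)) (b (l 16489024) (l 16467304)))))) (b (a (b (a (b (a (b (l 1) (l 177200609255)) (b (a (l 153578321031) (l 135861563447)) (a (l 16611664) (l 16581496))))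 (a (b (l 132640322759) (l 92374998919)) (c (l 16569512) (l 16565360)))) (a (b (b (l 16621384) (l 16567264)) (l 16549200)) (b (l 16553088) (l 16550752)))) (a (b (a (l 16602064) (l 16543432)) (l 16580760)) (b (l 16558744) (l 16494776)))) (b (a (b (l 16563568) (l 16497904)) (c (l 16566944) (l 16567488))) (a (a (l 16476848) (l 16455848)) (l 16465120)))) (a (b (a (b (l 16505584) (l 16483520)) (l 16547088)) (a (l 16494096) (l 16445224))) (a (b (l 16512040) (l 16435264)) (b (l 16389536) (l 16358112)))))), by decide +kernel⟩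

def k1_pp_022_b : ∃ t, chk3 f_pp_022_b t 2 5 1 = true :=
  ⟨(a (b (a (b (b (b (a (a (l 1) (l 117607781495)) (l 16497824)) (a (a (l 122976466759) (l 16502944)) (l 16486384))) (b (a (a (l 124050206871) (l 16491328)) (l 16475288)) (a (b (a (l 129418884471) (l 16482912)) (a (a (b (l 16491696) (c (l 16495024) (b (b (b (l 16483584) (a (l 142303769511) (l 16482264))) (l 16482880)) (l 16481728)))) (b (l 16486648) (l 16484312))) (b (l 16479040) (l 16476848)))) (b (l 16467296) (b (l 16463696) (l 16461760)))))) (a (b (a (b (b (l 16482248) (l 16476984)) (l 16470272)) (l 16465488)) (a (c (l 16465776) (l 16448832)) (l 16449792))) (b (l 16451208) (l 16437656)))) (b (b (a (l 16469560) (l 16446424)) (a (b (l 16453632) (b (l 16446136) (l 16463712))) (b (l 16431328) (b (l 16424312) (l 16421568))))) (a (b (l 16431696) (l 16420992)) (l 16408144)))) (a (a (b (a (b (a (l 16444248) (l 16441064)) (a (l 16430856) (l 16428360))) (b (l 16436200) (l 16424512))) (a (b (a (l 16440416) (l 16417600)) (a (l 16430984) (l 16408784)))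 (b (l 16414712) (l 16406968)))) (b (a (l 16424104) (l 16418016)) (l 16490240))) (a (b (l 16409328) (l 16400712)) (l 16436984)))) (b (a (b (b (a (l 16422408) (l 16397304)) (b (l 16418120) (a (b (l 16402456) (l 16400520)) (l 16422432)))) (a (l 16389880) (l 16369416))) (b (b (a (l 16368496) (l 16334272)) (a (b (l 16356712) (l 16395472)) (b (l 16321080) (b (l 16314256) (l 16333208))))) (a (l 16362536) (l 16297424)))) (a (b (a (l 16385128) (l 16366912)) (l 16538824)) (b (l 16459752) (l 16326064))))), by decide +kernel⟩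

def k2_pp_022_b : ∃ t, chk3 f_pp_022_b t 2 3 1 = true :=
  ⟨(b (a (a (b (a (b (a (b (a (l 16402568) (l 16402136)) (l 16398208)) (l 16400256)) (a (b (l 16396944) (l 16397784)) (l 16399736))) (b (l 16400360) (l 16402888))) (a (b (a (l 16400816) (l 16405112)) (a (l 16405472) (l 16406136))) (b (l 16406776) (l 16398944)))) (b (a (b (l 16399376) (l 16402176)) (l 16453120)) (a (l 16390848) (l 16374352)))) (a (b (a (l 16372728) (l 16347752)) (l 16345616)) (b (l 16341784) (l 16293272)))) (b (a (a (a (b (a (l 16400672) (l 16394536)) (l 16384168)) (l 16377024)) (l 16397920)) (a (l 16325640) (l 2))) (a (b (a (a (l 16373088) (l 16360168)) (l 16338840)) (a (b (a (l 16366592) (l 16353880)) (l 16393248)) (l 2))) (l 2)))), by decide +kernel⟩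

def k3_pp_022_b : ∃ t, chk3 f_pp_022_b t 3 1 1 = true :=
  ⟨(b (b (a (b (a (a (b (b (c (l 16519008) (l 16475744)) (l 16448568)) (l 16425400)) (b (b (a (l 16460176) (l 16448360)) (l 16468800)) (l 16405752))) (b (a (b (b (l 16436680) (l 16423672)) (l 16403888)) (b (a (l 16413264) (l 16404200)) (l 16430248))) (a (b (l 16377992) (l 16355504)) (l 16428448)))) (a (b (b (l 16464488) (l 16436488)) (a (l 16336056) (l 16287472))) (a (b (l 16329456) (l 16299832)) (b (l 16340152) (l 16315512))))) (b (a (b (b (a (a (l 16403088) (l 16410624)) (b (l 16432928) (l 16429072))) (a (l 16395624) (l 16423288))) (a (l 16380088) (l 16411816))) (b (b (a (b (l 16475944) (l 16473480)) (a (l 16520488) (l 16556224))) (a (l 16469728) (l 16534968))) (a (l 16462216) (l 16530808)))) (a (b (c (l 16384952) (l 16367400)) (l 16358400)) (b (l 16490144) (l 2))))) (a (b (b (a (b (l 16334744) (b (l 16236928) (a (l 16256040) (l 16240168)))) (b (l 16285904) (b (l 16276160) (l 16269168)))) (a (l 16286488) (l 16251432))) (a (l 16262088) (l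 16302648))) (b (a (b (b (l 16345368) (l 2)) (l 2)) (l 2)) (l 2)))) (b (a (b (a (l 16282120) (l 2)) (l 2)) (l 2)) (l 2))), by decide +kernel⟩

theorem s4_pp_022_b : ∃ t, chk3 f_pp_022_b t 2 2 1 = true := ex3_b k0_pp_022_b k1_pp_022_b

theorem s5_pp_022_b : ∃ t, chk3 f_pp_022_b t 2 1 1 = true := ex3_b s4_pp_022_b k2_pp_022_b

theorem s6_pp_022_b : ∃ t, chk3 f_pp_022_b t 1 1 1 = true := ex3_a s5_pp_022_b k3_pp_022_b

theorem c_pp_022_b : CertB 0 536870912 1239849684 370763052 536870912 50465866 3 eng mog cd0q0 cd3q2b pd2 false true true .pp 0 2 2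
    ndB0q0 ndB3q2b pcB2 cut_pp_022_b Ext.none :=
  certB1 (fam := false) (s1 := true) (s2 := true) (a := 0) (b := 2) (c := 2) (cn := .pp) (n1 := ndB0q0) (n2 := ndB3q2b) (pc := pcB2) (cut := cut_pp_022_b) (xt := Ext.none) (P1 := 0) (W1 := 536870912) (P2 := 1239849684) (W2 := 370763052) (P3 := 536870912) (W3 := 50465866) (N0 := 3) (En := eng) (mo := mog) (C1 := cd0q0) (C2 := cd3q2b) (C3 := pd2)
    rfl (fun _ => rfl) s6_pp_022_b

noncomputable def f_pp_023 : ℕ → ℕ → ℕ → ℕ → Bool := onCell 0 536870912 1073741824 536870912 536870912 50465866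
    (rowB 3 eng mog cd0q0 cd3q3 pd2 1 false true true .up 0 2 3 (qsf 0 536870912 1610612736 536870912 2) ndB0q0 ndB3q3 pcB2 Cut.none Ext.none)

def k0_pp_023 : ∃ t, chk3 f_pp_023 t 1 1 1 = true :=
  ⟨(a (b (b (l 1) (a (l 1) (b (l 1) (a (l 1) (l 16495288))))) (b (a (a (l 1) (b (l 1) (l 16402416))) (a (b (l 16378624) (l 16379560)) (b (l 16334520) (l 16348152)))) (b (a (a (l 290480036647) (l 16393896)) (a (l 16379264) (l 16479328))) (a (b (a (l 16405152) (l 16395240)) (a (b (l 16408112) (l 16447560)) (l 16469416))) (b (a (l 16477240) (l 16560784)) (a (l 16543104) (l 16607208))))))) (b (b (a (b (l 1) (a (l 1) (l 233571624887))) (b (a (b (l 1) (l 262562784087)) (a (l 146598763639) (b (b (l 16493096) (l 16485736)) (l 16474192)))) (a (b (l 16337848) (l 16309720)) (a (l 16400776) (l 16490880))))) (a (b (b (a (l 1) (b (l 16249816) (l 16317000))) (a (l 16232176) (l 16200536))) (a (l 156261878183) (l 16288120))) (b (a (b (b (l 16287984) (b (l 16312440) (l 16329704))) (l 16370832)) (b (b (l 16504136) (l 16605320))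 (l 16546008))) (a (l 16464016) (l 16595168))))) (b (a (b (a (l 16288544) (l 16448744)) (a (l 16460232) (l 16563184))) (a (b (l 16564576) (l 16637704)) (l 16840712))) (b (a (l 16606056) (l 16703560)) (a (b (l 16652840) (l 16677824)) (b (l 16721224) (l 16729392))))))), by decide +kernel⟩

theorem c_pp_023 : CertB 0 536870912 1610612736 536870912 536870912 50465866 3 eng mog cd0q0 cd3q3 pd2 false true true .up 0 2 3
    ndB0q0 ndB3q3 pcB2 Cut.none Ext.none :=
  certB1 (fam := false) (s1 := true) (s2 := true) (a := 0) (b := 2) (c := 3) (cn := .up) (n1 := ndB0q0) (n2 := ndB3q3) (pc := pcB2) (cut := Cut.none) (xt := Ext.none) (P1 := 0) (W1 := 536870912) (P2 := 1610612736) (W2 := 536870912) (P3 := 536870912) (W3 := 50465866) (N0 := 3) (En := eng) (mo := mog) (C1 := cd0q0) (C2 := cd3q3) (C3 := pd2)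
    rfl (fun _ => rfl) k0_pp_023

noncomputable def f_pp_033 : ℕ → ℕ → ℕ → ℕ → Bool := onCell 0 536870912 1610612736 536870912 536870912 50465866
    (rowB 3 eng mog cd0q0 cd3q3 pd3 1 false true true .pnn 0 3 3 (qsf 0 536870912 1610612736 536870912 3) ndB0q0 ndB3q3 pcB3 Cut.none Ext.none)

def k0_pp_033 : ∃ t, chk3 f_pp_033 t 1 1 1 = true :=
  ⟨(a (b (b (b (a (b (a (a (l 16420368) (l 16463176)) (l 16520504)) (a (l 16534024) (l 16585048))) (a (b (l 16586360) (l 16630056)) (l 16657056))) (a (a (b (l 16579264) (l 16600008)) (l 16626224)) (a (l 16659848) (l 16688416)))) (b (a (a (l 16641480) (l 16668240)) (a (l 16690648) (l 16708912))) (a (b (l 16691152) (l 16707184)) (l 16800544)))) (b (b (a (l 16721456) (l 4)) (l 4)) (a (l 4) (a (b (l 4) (l 2)) (l 2))))) (b (a (b (b (a (l 16692600) (l 16715496)) (a (l 16711912) (l 16726680))) (b (l 16730584) (l 16738056))) (b (b (a (l 16731688) (l 16749584)) (a (l 16740824) (l 16771264))) (a (b (l 16759208) (l 2)) (l 2)))) (a (b (a (b (l 4) (l 2)) (l 2)) (l 2)) (l 2)))),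 by decide +kernel⟩

theorem c_pp_033 : CertB 0 536870912 1610612736 536870912 536870912 50465866 3 eng mog cd0q0 cd3q3 pd3 false true true .pnn 0 3 3
    ndB0q0 ndB3q3 pcB3 Cut.none Ext.none :=
  certB1 (fam := false) (s1 := true) (s2 := true) (a := 0) (b := 3) (c := 3) (cn := .pnn) (n1 := ndB0q0) (n2 := ndB3q3) (pc := pcB3) (cut := Cut.none) (xt := Ext.none) (P1 := 0) (W1 := 536870912) (P2 := 1610612736) (W2 := 536870912) (P3 := 536870912) (W3 := 50465866) (N0 := 3) (En := eng) (mo := mog) (C1 := cd0q0) (C2 := cd3q3) (C3 := pd3)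
    rfl (fun _ => rfl) k0_pp_033

noncomputable def f_pp_101 : ℕ → ℕ → ℕ → ℕ → Bool := onCell 536870912 536870912 536870912 536870912 536870912 50465866
    (rowB 3 eng mog cd0q1 cd3q1 pd0 0 false true true .npn 1 0 1 (qsf 536870912 536870912 536870912 536870912 0) ndB0q1 ndB3q1 pcB0 Cut.none Ext.none)

def k0_pp_101 : ∃ t, chk3 f_pp_101 t 1 1 1 = true :=
  ⟨(l 3), by decide +kernel⟩

theorem c_pp_101 : CertB 536870912 536870912 536870912 536870912 536870912 50465866 3 eng mog cd0q1 cd3q1 pd0 false true true .npn 1 0 1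
    ndB0q1 ndB3q1 pcB0 Cut.none Ext.none :=
  certB0 (fam := false) (s1 := true) (s2 := true) (a := 1) (b := 0) (c := 1) (cn := .npn) (n1 := ndB0q1) (n2 := ndB3q1) (pc := pcB0) (cut := Cut.none) (xt := Ext.none) (P1 := 536870912) (W1 := 536870912) (P2 := 536870912) (W2 := 536870912) (P3 := 536870912) (W3 := 50465866) (N0 := 3) (En := eng) (mo := mog) (C1 := cd0q1) (C2 := cd3q1) (C3 := pd0)
    rfl k0_pp_101

noncomputable def f_pp_102_a : ℕ → ℕ → ℕ → ℕ → Bool := onCell 536870912 536870912 0 536870912 536870912 50465866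
    (rowB 3 eng mog cd0q1 cd3q2a pd0 0 false true true .npp 1 0 2 (qsf 536870912 536870912 0 536870912 0) ndB0q1 ndB3q2a pcB0 Cut.none Ext.none)

def k0_pp_102_a : ∃ t, chk3 f_pp_102_a t 1 1 1 = true :=
  ⟨(l 3), by decide +kernel⟩

theorem c_pp_102_a : CertB 536870912 536870912 0 536870912 536870912 50465866 3 eng mog cd0q1 cd3q2a pd0 false true true .npp 1 0 2
    ndB0q1 ndB3q2a pcB0 Cut.none Ext.none :=
  certB0 (fam := false) (s1 := true) (s2 := true) (a := 1) (b := 0) (c := 2) (cn := .npp) (n1 := ndB0q1) (n2 := ndB3q2a) (pc := pcB0) (cut := Cut.none) (xt := Ext.none) (P1 := 536870912) (W1 := 536870912) (P2 := 0) (W2 := 536870912) (P3 := 536870912) (W3 := 50465866) (N0 := 3) (En := eng) (mo := mog) (C1 := cd0q1) (C2 := cd3q2a) (C3 := pd0)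
    rfl k0_pp_102_a

noncomputable def f_pp_102_b : ℕ → ℕ → ℕ → ℕ → Bool := onCell 536870912 536870912 0 536870912 536870912 50465866
    (rowB 3 eng mog cd0q1 cd3q2b pd0 1 false true true .npp 1 0 2 (qsf 536870912 536870912 1239849684 370763052 0) ndB0q1 ndB3q2b pcB0 Cut.none Ext.none)

def k0_pp_102_b : ∃ t, chk3 f_pp_102_b t 1 1 1 = true :=
  ⟨(l 3), by decide +kernel⟩

theorem c_pp_102_b : CertB 536870912 536870912 1239849684 370763052 536870912 50465866 3 eng mog cd0q1 cd3q2b pd0 false true true .npp 1 0 2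
    ndB0q1 ndB3q2b pcB0 Cut.none Ext.none :=
  certB1 (fam := false) (s1 := true) (s2 := true) (a := 1) (b := 0) (c := 2) (cn := .npp) (n1 := ndB0q1) (n2 := ndB3q2b) (pc := pcB0) (cut := Cut.none) (xt := Ext.none) (P1 := 536870912) (W1 := 536870912) (P2 := 1239849684) (W2 := 370763052) (P3 := 536870912) (W3 := 50465866) (N0 := 3) (En := eng) (mo := mog) (C1 := cd0q1) (C2 := cd3q2b) (C3 := pd0)
    rfl (fun _ => rfl) k0_pp_102_b

noncomputable def f_pp_112_a : ℕ → ℕ → ℕ → ℕ → Bool := onCell 536870912 536870912 0 536870912 536870912 50465866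
    (rowB 3 eng mog cd0q1 cd3q2a pd1 0 false true true .dn 1 1 2 (qsf 536870912 536870912 0 536870912 1) ndB0q1 ndB3q2a pcB1 Cut.none Ext.none)

def k0_pp_112_a : ∃ t, chk3 f_pp_112_a t 1 1 1 = true :=
  ⟨(l 3), by decide +kernel⟩

theorem c_pp_112_a : CertB 536870912 536870912 0 536870912 536870912 50465866 3 eng mog cd0q1 cd3q2a pd1 false true true .dn 1 1 2
    ndB0q1 ndB3q2a pcB1 Cut.none Ext.none :=
  certB0 (fam := false) (s1 := true) (s2 := true) (a := 1) (b := 1) (c := 2) (cn := .dn) (n1 := ndB0q1) (n2 := ndB3q2a) (pc := pcB1) (cut := Cut.none) (xt := Ext.none) (P1 := 536870912) (W1 := 536870912) (P2 := 0) (W2 := 536870912) (P3 := 536870912) (W3 := 50465866) (N0 := 3) (En := eng) (mo := mog) (C1 := cd0q1) (C2 := cd3q2a) (C3 := pd1)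
    rfl k0_pp_112_a

noncomputable def xt_pp_112_b : Ext := extD2 3 ⟨7, 3, 3, 10, 1741, 1000, 23, 25, 19, 50, 3, 16⟩ eng cd0q1 cd3q2b pd1 false true true .dn 1 1 2 rfl ndB0q1 ndB3q2b pcB1

noncomputable def f_pp_112_b : ℕ → ℕ → ℕ → ℕ → Bool := onCell 536870912 536870912 536870912 536870912 536870912 50465866
    (rowB 3 eng mog cd0q1 cd3q2b pd1 1 false true true .dn 1 1 2 (qsf 536870912 536870912 1239849684 370763052 1) ndB0q1 ndB3q2b pcB1 Cut.none xt_pp_112_b)

def k0_pp_112_b : ∃ t, chk3 f_pp_112_b t 1 1 1 = true :=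
  ⟨(b (l 3) (a (b (l 3) (b (l 3) (a (a (b (b (a (b (l 3) (a (b (l 3) (c (a (l 969558507473266061654605839) (l 1085615386156439718531923983)) (a (l 1162986638611357896314060815) (l 1269372110737581465693945871)))) (l 3))) (l 3)) (a (a (c (b (b (l 142403282531696655) (l 142388988898672655)) (l 142366448905224207)) (b (a (l 142041886734106639) (l 142179463157841935)) (l 142052675695869967))) (a (b (c (l 142658919064141839) (l 142323018177249295)) (l 142446781989240847)) (b (c (l 142851677237035023) (l 1008244133701073420918145039)) (l 142615625781755919)))) (a (b (c (b (l 143200703485116559) (l 143201322003120271)) (b (l 1366086176307254826388684815) (l 142701318982516751))) (l 142905622034399247)) (b (b (b (l 3) (l 2)) (l 2)) (l 2))))) (a (b (a (b (l 142159053475659791) (l 16608904)) (b (l 142490075271102479) (l 16647024))) (a (l 16601768) (l 16641416))) (a (b (l 142885281064878095) (l 2)) (l 2)))) (b (b (l 3) (l 2)) (l 2))) (l 2)))) (b (l 3) (l 2)))), by decide +kernel⟩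

theorem c_pp_112_b : CertB 536870912 536870912 1239849684 370763052 536870912 50465866 3 eng mog cd0q1 cd3q2b pd1 false true true .dn 1 1 2
    ndB0q1 ndB3q2b pcB1 Cut.none xt_pp_112_b :=
  certB1 (fam := false) (s1 := true) (s2 := true) (a := 1) (b := 1) (c := 2) (cn := .dn) (n1 := ndB0q1) (n2 := ndB3q2b) (pc := pcB1) (cut := Cut.none) (xt := xt_pp_112_b) (P1 := 536870912) (W1 := 536870912) (P2 := 1239849684) (W2 := 370763052) (P3 := 536870912) (W3 := 50465866) (N0 := 3) (En := eng) (mo := mog) (C1 := cd0q1) (C2 := cd3q2b) (C3 := pd1)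
    rfl (fun _ => rfl) k0_pp_112_b

noncomputable def cut_pp_113 : Cut := Cut.of [[⟨0, 1, 0, 67108864⟩, ⟨1, 1, 0, 67108864⟩, ⟨2, 2, 0, 16777216⟩]]

noncomputable def xt_pp_113 : Ext := extD2 3 ⟨7, 3, 3, 10, 1741, 1000, 23, 25, 19, 50, 3, 16⟩ eng cd0q1 cd3q3 pd1 false true true .nn 1 1 3 rfl ndB0q1 ndB3q3 pcB1

noncomputable def f_pp_113 : ℕ → ℕ → ℕ → ℕ → Bool := onCell 536870912 536870912 536870912 536870912 536870912 50465866
    (rowB 3 eng mog cd0q1 cd3q3 pd1 1 false true true .nn 1 1 3 (qsf 536870912 536870912 1610612736 536870912 1) ndB0q1 ndB3q3 pcB1 cut_pp_113 xt_pp_113)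

def k0_pp_113 : ∃ t, chk3 f_pp_113 t 1 2 1 = true :=
  ⟨(l 3), by decide +kernel⟩

def k1_pp_113 : ∃ t, chk3 f_pp_113 t 2 3 1 = true :=
  ⟨(b (l 3) (b (l 3) (b (a (b (a (a (l 1) (l 3)) (l 3)) (a (a (a (l 1) (b (l 1) (l 173442554887))) (a (b (a (b (l 1) (l 142300615646461967)) (b (c (l 1588528527116380954252558479) (l 1501485868103721177904922639)) (l 142501894989709327))) (l 142358133859762191)) (b (a (b (c (l 142937232930209935) (l 1346743363193195978134159375)) (l 142692797738893327)) (b (l 1269372110738260826555891855) (l 747116156664714703537340559))) (l 142744955880390671)))) (a (a (b (b (l 3) (a (l 2120455887747104420080304271) (l 1965713382836587191745019983))) (c (l 143287771153252431) (l 142882944616431759))) (b (a (l 1520828681218322154221011023) (l 1617542746787792861097328719)) (c (l 143561137296212047) (l 143201596901015695)))) (a (b (a (l 1917356350052362870891331663) (l 1994727602507829155341926479)) (c (l 16805712) (l 143490356205207631))) (b (l 3) (b (l 1656228373015943749067948239)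 (l 16788456))))))) (b (l 3) (a (b (l 3) (a (a (c (l 16851104) (b (l 1878670723825135366686081231) (l 16813280))) (c (l 16870536) (b (l 85530325799) (l 16835024)))) (c (l 98415389783) (a (l 115595151559) (l 124721999287))))) (a (a (l 137070113879) (l 3)) (l 3))))) (b (a (a (a (a (l 173979370791) (l 141910838695493647)) (b (l 142319857105944591) (l 16636976))) (a (a (b (l 16656344) (l 16716320)) (b (l 16752488) (l 16749696))) (b (a (l 16781752) (l 16807312)) (l 16792272)))) (a (a (a (b (l 16829696) (l 16826792)) (b (l 16850136) (l 16847088))) (b (a (l 16869136) (l 16886344)) (l 16874848))) (a (b (c (l 16920440) (l 16891912)) (l 16902296)) (a (l 131701427991) (l 142438859687))))) (a (a (a (a (l 16552432) (l 16585088)) (b (l 16612664) (l 16651272))) (a (b (l 16730760) (l 16727904)) (l 16788104))) (a (a (b (l 16834584) (l 16831680)) (l 16869904)) (a (l 16896560) (l 16909728)))))))), by decide +kernel⟩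

def k2_pp_113 : ∃ t, chk3 f_pp_113 t 3 3 1 = true :=
  ⟨(b (l 3) (b (l 3) (b (a (l 3) (l 3)) (b (a (a (a (b (l 158008132775) (l 16917600)) (l 156934417383)) (a (l 167134937463) (l 280951507511))) (a (l 3) (l 3))) (a (a (a (l 16910432) (l 16903904)) (a (l 16895952) (l 154786868023))) (a (a (b (l 172503562327) (l 16872424)) (a (l 172503562183) (a (l 176798509735) (l 139754347447)))) (a (b (l 3) (a (l 177335305847) (b (l 407116000871) (l 16817520)))) (b (l 3) (b (l 3) (a (a (l 16806376) (l 151028538871)) (a (b (l 3) (a (l 16791936) (l 6))) (l 6)))))))))))), by decide +kernel⟩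

theorem s3_pp_113 : ∃ t, chk3 f_pp_113 t 1 3 1 = true := ex3_a k1_pp_113 k2_pp_113

theorem s4_pp_113 : ∃ t, chk3 f_pp_113 t 1 1 1 = true := ex3_b k0_pp_113 s3_pp_113

theorem c_pp_113 : CertB 536870912 536870912 1610612736 536870912 536870912 50465866 3 eng mog cd0q1 cd3q3 pd1 false true true .nn 1 1 3
    ndB0q1 ndB3q3 pcB1 cut_pp_113 xt_pp_113 :=
  certB1 (fam := false) (s1 := true) (s2 := true) (a := 1) (b := 1) (c := 3) (cn := .nn) (n1 := ndB0q1) (n2 := ndB3q3) (pc := pcB1) (cut := cut_pp_113) (xt := xt_pp_113) (P1 := 536870912) (W1 := 536870912) (P2 := 1610612736) (W2 := 536870912) (P3 := 536870912) (W3 := 50465866) (N0 := 3) (En := eng) (mo := mog) (C1 := cd0q1) (C2 := cd3q3) (C3 := pd1)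
    rfl (fun _ => rfl) s4_pp_113

noncomputable def cut_pp_123 : Cut := Cut.of [[⟨0, 1, 0, 67108864⟩, ⟨1, 1, 0, 67108864⟩, ⟨2, 2, 0, 16777216⟩]]

noncomputable def f_pp_123 : ℕ → ℕ → ℕ → ℕ → Bool := onCell 536870912 536870912 1073741824 536870912 536870912 50465866
    (rowB 3 eng mog cd0q1 cd3q3 pd2 1 false true true .npn 1 2 3 (qsf 536870912 536870912 1610612736 536870912 2) ndB0q1 ndB3q3 pcB2 cut_pp_123 Ext.none)

def k0_pp_123 : ∃ t, chk3 f_pp_123 t 1 1 1 = true :=
  ⟨(a (b (b (a (b (a (b (a (b (l 16556248) (l 16560896)) (b (l 16586016) (l 16650896))) (a (l 16573416) (l 16654360))) (b (a (b (l 16723392) (l 16720496)) (b (l 16780416) (l 16773760))) (l 16742760))) (a (b (l 16627456) (l 16638032)) (b (l 16735592) (l 16730032)))) (b (a (b (a (c (l 16840184) (l 16797928)) (l 16853096)) (l 16817832)) (b (a (l 16877424) (l 16888952)) (l 16856624))) (a (l 16916592) (l 16818000)))) (a (b (a (b (b (l 16645880) (l 16651616)) (l 16660240)) (b (b (l 16726784) (l 16725544)) (l 16724480))) (a (l 16680608) (l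 16727800))) (b (b (a (b (l 16771816) (l 16765832)) (b (l 16790024) (l 16780856))) (a (l 16758272) (l 16769208))) (a (l 16750912) (l 16756720))))) (a (b (a (l 16737984) (l 16761064)) (b (l 16745752) (a (l 16831456) (l 16744888)))) (b (b (a (l 16749448) (l 16747456)) (a (l 16748480) (l 16728968))) (a (b (l 16734440) (l 2)) (l 2))))) (b (a (b (b (a (b (a (l 16888712) (l 16881592)) (l 16853568)) (b (a (l 16872904) (l 16863608)) (l 16835416))) (a (l 16915448) (b (l 16804120) (l 16777144)))) (b (a (b (b (l 16780096) (l 16770576)) (l 16759656)) (b (l 16987096) (l 16737856))) (a (l 16744232) (l 16667152)))) (b (b (a (b (a (l 16871832) (b (l 16840000) (l 16822432))) (a (l 16816120) (l 16796248))) (b (b (a (a (l 16820792) (b (l 16810904) (l 16802320))) (b (a (b (l 16777200) (l 16793928)) (a (a (l 16786552) (l 6)) (l 6))) (l 175657456919))) (a (l 16775472) (l 16767040))) (a (l 16769768) (l 16740352)))) (a (b (l 16770896) (l 16733016)) (a (l 16775336) (l 2)))) (a (b (b (b (l 16703040) (l 2)) (l 2)) (l 2)) (l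 2)))) (a (b (a (b (l 16719832) (l 2)) (l 2)) (l 2)) (l 2)))), by decide +kernel⟩

theorem c_pp_123 : CertB 536870912 536870912 1610612736 536870912 536870912 50465866 3 eng mog cd0q1 cd3q3 pd2 false true true .npn 1 2 3
    ndB0q1 ndB3q3 pcB2 cut_pp_123 Ext.none :=
  certB1 (fam := false) (s1 := true) (s2 := true) (a := 1) (b := 2) (c := 3) (cn := .npn) (n1 := ndB0q1) (n2 := ndB3q3) (pc := pcB2) (cut := cut_pp_123) (xt := Ext.none) (P1 := 536870912) (W1 := 536870912) (P2 := 1610612736) (W2 := 536870912) (P3 := 536870912) (W3 := 50465866) (N0 := 3) (En := eng) (mo := mog) (C1 := cd0q1) (C2 := cd3q3) (C3 := pd2)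
    rfl (fun _ => rfl) k0_pp_123

noncomputable def f_pp_133 : ℕ → ℕ → ℕ → ℕ → Bool := onCell 536870912 536870912 1610612736 536870912 536870912 50465866
    (rowB 3 eng mog cd0q1 cd3q3 pd3 1 false true true .dn 1 3 3 (qsf 536870912 536870912 1610612736 536870912 3) ndB0q1 ndB3q3 pcB3 Cut.none Ext.none)

def k0_pp_133 : ∃ t, chk3 f_pp_133 t 1 1 1 = true :=
  ⟨(a (b (a (b (a (b (l 16751248) (l 2)) (l 2)) (l 2)) (l 2)) (l 2)) (l 2)), by decide +kernel⟩

theorem c_pp_133 : CertB 536870912 536870912 1610612736 536870912 536870912 50465866 3 eng mog cd0q1 cd3q3 pd3 false true true .dn 1 3 3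
    ndB0q1 ndB3q3 pcB3 Cut.none Ext.none :=
  certB1 (fam := false) (s1 := true) (s2 := true) (a := 1) (b := 3) (c := 3) (cn := .dn) (n1 := ndB0q1) (n2 := ndB3q3) (pc := pcB3) (cut := Cut.none) (xt := Ext.none) (P1 := 536870912) (W1 := 536870912) (P2 := 1610612736) (W2 := 536870912) (P3 := 536870912) (W3 := 50465866) (N0 := 3) (En := eng) (mo := mog) (C1 := cd0q1) (C2 := cd3q3) (C3 := pd3)
    rfl (fun _ => rfl) k0_pp_133

noncomputable def f_pp_202_a : ℕ → ℕ → ℕ → ℕ → Bool := onCell 0 536870912 0 536870912 536870912 50465866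
    (rowB 3 eng mog cd0q2 cd3q2a pd0 0 false true true .pp 2 0 2 (qsf 0 536870912 0 536870912 0) ndB0q2 ndB3q2a pcB0 Cut.none Ext.none)

def k0_pp_202_a : ∃ t, chk3 f_pp_202_a t 1 1 1 = true :=
  ⟨(l 3), by decide +kernel⟩

theorem c_pp_202_a : CertB 0 536870912 0 536870912 536870912 50465866 3 eng mog cd0q2 cd3q2a pd0 false true true .pp 2 0 2
    ndB0q2 ndB3q2a pcB0 Cut.none Ext.none :=
  certB0 (fam := false) (s1 := true) (s2 := true) (a := 2) (b := 0) (c := 2) (cn := .pp) (n1 := ndB0q2) (n2 := ndB3q2a) (pc := pcB0) (cut := Cut.none) (xt := Ext.none) (P1 := 0) (W1 := 536870912) (P2 := 0) (W2 := 536870912) (P3 := 536870912) (W3 := 50465866) (N0 := 3) (En := eng) (mo := mog) (C1 := cd0q2) (C2 := cd3q2a) (C3 := pd0)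
    rfl k0_pp_202_a

noncomputable def f_pp_202_b : ℕ → ℕ → ℕ → ℕ → Bool := onCell 0 536870912 1239849684 370763052 536870912 50465866
    (rowB 3 eng mog cd0q2 cd3q2b pd0 0 false true true .pp 2 0 2 (qsf 0 536870912 1239849684 370763052 0) ndB0q2 ndB3q2b pcB0 Cut.none Ext.none)

def k0_pp_202_b : ∃ t, chk3 f_pp_202_b t 1 1 1 = true :=
  ⟨(l 3), by decide +kernel⟩

theorem c_pp_202_b : CertB 0 536870912 1239849684 370763052 536870912 50465866 3 eng mog cd0q2 cd3q2b pd0 false true true .pp 2 0 2
    ndB0q2 ndB3q2b pcB0 Cut.none Ext.none :=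
  certB0 (fam := false) (s1 := true) (s2 := true) (a := 2) (b := 0) (c := 2) (cn := .pp) (n1 := ndB0q2) (n2 := ndB3q2b) (pc := pcB0) (cut := Cut.none) (xt := Ext.none) (P1 := 0) (W1 := 536870912) (P2 := 1239849684) (W2 := 370763052) (P3 := 536870912) (W3 := 50465866) (N0 := 3) (En := eng) (mo := mog) (C1 := cd0q2) (C2 := cd3q2b) (C3 := pd0)
    rfl k0_pp_202_b

noncomputable def f_pp_203 : ℕ → ℕ → ℕ → ℕ → Bool := onCell 0 536870912 0 536870912 536870912 50465866
    (rowB 3 eng mog cd0q2 cd3q3 pd0 1 false true true .up 2 0 3 (qsf 0 536870912 1610612736 536870912 0) ndB0q2 ndB3q3 pcB0 Cut.none Ext.none)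

def k0_pp_203 : ∃ t, chk3 f_pp_203 t 1 1 1 = true :=
  ⟨(l 3), by decide +kernel⟩

theorem c_pp_203 : CertB 0 536870912 1610612736 536870912 536870912 50465866 3 eng mog cd0q2 cd3q3 pd0 false true true .up 2 0 3
    ndB0q2 ndB3q3 pcB0 Cut.none Ext.none :=
  certB1 (fam := false) (s1 := true) (s2 := true) (a := 2) (b := 0) (c := 3) (cn := .up) (n1 := ndB0q2) (n2 := ndB3q3) (pc := pcB0) (cut := Cut.none) (xt := Ext.none) (P1 := 0) (W1 := 536870912) (P2 := 1610612736) (W2 := 536870912) (P3 := 536870912) (W3 := 50465866) (N0 := 3) (En := eng) (mo := mog) (C1 := cd0q2) (C2 := cd3q3) (C3 := pd0)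
    rfl (fun _ => rfl) k0_pp_203

noncomputable def cut_pp_213 : Cut := Cut.of [[⟨0, 1, 0, 67108864⟩, ⟨1, 1, 0, 67108864⟩, ⟨2, 2, 0, 16777216⟩]]

noncomputable def f_pp_213 : ℕ → ℕ → ℕ → ℕ → Bool := onCell 0 536870912 1610612736 536870912 536870912 50465866
    (rowB 3 eng mog cd0q2 cd3q3 pd1 0 false true true .pnn 2 1 3 (qsf 0 536870912 1610612736 536870912 1) ndB0q2 ndB3q3 pcB1 cut_pp_213 Ext.none)

def k0_pp_213 : ∃ t, chk3 f_pp_213 t 1 1 1 = true :=
  ⟨(b (l 3) (a (l 3) (b (l 3) (a (l 3) (b (l 3) (a (l 3) (b (l 3) (b (l 3) (b (l 3) (l 6)))))))))), by decide +kernel⟩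

theorem c_pp_213 : CertB 0 536870912 1610612736 536870912 536870912 50465866 3 eng mog cd0q2 cd3q3 pd1 false true true .pnn 2 1 3
    ndB0q2 ndB3q3 pcB1 cut_pp_213 Ext.none :=
  certB0 (fam := false) (s1 := true) (s2 := true) (a := 2) (b := 1) (c := 3) (cn := .pnn) (n1 := ndB0q2) (n2 := ndB3q3) (pc := pcB1) (cut := cut_pp_213) (xt := Ext.none) (P1 := 0) (W1 := 536870912) (P2 := 1610612736) (W2 := 536870912) (P3 := 536870912) (W3 := 50465866) (N0 := 3) (En := eng) (mo := mog) (C1 := cd0q2) (C2 := cd3q3) (C3 := pd1)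
    rfl k0_pp_213

noncomputable def f_pm_001 : ℕ → ℕ → ℕ → ℕ → Bool := onCell 0 536870912 536870912 536870912 536870912 50465866
    (rowB 3 eng mog cd0q0 cd3q1 pd0 0 false true false .up 0 0 1 (qsf 0 536870912 536870912 536870912 0) ndB0q0 ndB3q1 pcB0 Cut.none Ext.none)

def k0_pm_001 : ∃ t, chk3 f_pm_001 t 1 1 1 = true :=
  ⟨(l 4), by decide +kernel⟩

theorem c_pm_001 : CertB 0 536870912 536870912 536870912 536870912 50465866 3 eng mog cd0q0 cd3q1 pd0 false true false .up 0 0 1
    ndB0q0 ndB3q1 pcB0 Cut.none Ext.none :=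
  certB0 (fam := false) (s1 := true) (s2 := false) (a := 0) (b := 0) (c := 1) (cn := .up) (n1 := ndB0q0) (n2 := ndB3q1) (pc := pcB0) (cut := Cut.none) (xt := Ext.none) (P1 := 0) (W1 := 536870912) (P2 := 536870912) (W2 := 536870912) (P3 := 536870912) (W3 := 50465866) (N0 := 3) (En := eng) (mo := mog) (C1 := cd0q0) (C2 := cd3q1) (C3 := pd0)
    rfl k0_pm_001

noncomputable def f_pm_011 : ℕ → ℕ → ℕ → ℕ → Bool := onCell 0 536870912 536870912 536870912 536870912 50465866
    (rowB 3 eng mog cd0q0 cd3q1 pd1 0 false true false .pnn 0 1 1 (qsf 0 536870912 536870912 536870912 1) ndB0q0 ndB3q1 pcB1 Cut.none Ext.none)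

def k0_pm_011 : ∃ t, chk3 f_pm_011 t 1 1 1 = true :=
  ⟨(l 4), by decide +kernel⟩

theorem c_pm_011 : CertB 0 536870912 536870912 536870912 536870912 50465866 3 eng mog cd0q0 cd3q1 pd1 false true false .pnn 0 1 1
    ndB0q0 ndB3q1 pcB1 Cut.none Ext.none :=
  certB0 (fam := false) (s1 := true) (s2 := false) (a := 0) (b := 1) (c := 1) (cn := .pnn) (n1 := ndB0q0) (n2 := ndB3q1) (pc := pcB1) (cut := Cut.none) (xt := Ext.none) (P1 := 0) (W1 := 536870912) (P2 := 536870912) (W2 := 536870912) (P3 := 536870912) (W3 := 50465866) (N0 := 3) (En := eng) (mo := mog) (C1 := cd0q0) (C2 := cd3q1) (C3 := pd1)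
    rfl k0_pm_011

end Pool.Agent.Strip051.G.I5000_5470.Tab.C.BB03

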