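import Pool.Agent.Strip051.G.I5000_5470.Tab

/-! # Certificates B20 (generated) -/

set_option linter.all false
set_option maxRecDepth 100000

namespace Pool.Agent.Strip051.G.I5000_5470.Tab.C.BB04

open Pool.Agent.Strip051.PB Pool.Agent.Strip051.PB.T
open Pool.Agent.Strip051.G.I5000_5470.Tab

noncomputable def f_pm_202 : ℕ → ℕ → ℕ → ℕ → Bool := onCell 0 536870912 1073741824 536870912 536870912 50465866
    (rowB 3 eng mog cd0q2 cd4q2 pd0 0 false true false .pp 2 0 2 (qsf 0 536870912 1073741824 536870912 0) ndB0q2 ndB4q2 pcB0 Cut.none Ext.none)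

def k0_pm_202 : ∃ t, chk3 f_pm_202 t 2 1 1 = true :=
  ⟨(b (a (l 3) (b (b (l 1) (a (l 1) (b (l 1) (a (l 1) (b (l 1) (a (b (l 1) (b (l 1) (l 926672433559))) (l 16534064))))))) (b (a (l 3) (b (b (b (a (l 3) (a (c (l 133311388375) (l 134922047687)) (l 16567536))) (a (l 3) (a (l 137069530375) (a (l 16583280) (l 16548208))))) (a (l 3) (a (b (l 133848242615) (l 132237576487)) (a (a (b (l 16537696) (l 16516840)) (b (l 16521488) (l 16520528))) (a (b (l 16523272) (l 16523904)) (b (l 16525672) (l 16527568))))))) (a (l 3) (a (b (b (l 130090061623) (l 135995755703)) (l 3)) (a (b (b (a (l 16538096) (l 16518616)) (l 16536352)) (l 16529456)) (b (b (l 16524600) (l 16519024)) (l 16555008))))))) (a (l 3) (a (l 3) (a (l 3) (b (b (l 16549808) (l 141901211159)) (b (b (l 132774504871) (l 355575753047)) (l 3))))))))) (b (a (l 3) (l 3)) (l 3))), by decide +kernel⟩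

def k1_pm_202 : ∃ t, chk3 f_pm_202 t 3 4 1 = true :=
  ⟨(a (b (l 1) (a (b (l 1) (a (b (l 16565448) (l 16535920)) (b (l 16592712) (l 16586024)))) (b (b (a (l 1) (l 16649664)) (a (l 16623632) (l 16645432))) (a (l 16615704) (l 16639192))))) (b (a (b (l 1) (a (b (l 1) (l 16671272)) (b (b (l 16689968) (l 16688976)) (l 16686976)))) (b (a (b (l 1) (a (l 16758872) (l 16703416))) (a (l 16710528) (l 16718416))) (a (b (l 16702392) (l 16700552)) (l 16716128)))) (a (b (a (l 16666224) (l 16682864)) (l 16670456)) (b (a (l 16699120) (l 16719768)) (l 16712704))))), by decide +kernel⟩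

def k2_pm_202 : ∃ t, chk3 f_pm_202 t 3 5 1 = true :=
  ⟨(a (b (a (b (a (b (a (a (l 16576624) (l 16544592)) (l 16556576)) (a (c (b (a (l 16581136) (l 16586240)) (a (l 16588360) (l 16545320))) (b (l 16533304) (l 16562984))) (b (b (l 16552096) (l 16550104)) (a (l 16546120) (l 16553168))))) (b (l 16579808) (a (b (l 16567504) (l 16564112)) (l 16581960)))) (a (a (b (b (a (l 16532040) (l 16538016)) (a (l 16527656) (l 16535256))) (a (l 16518208) (l 16527888))) (b (b (l 16548840) (l 16544984)) (b (l 16541232) (l 16537640)))) (b (a (b (l 16563496) (l 16559880)) (b (l 16577632) (l 16574784))) (a (l 16554408) (l 16569168))))) (b (a (l 16606480) (l 16632840)) (a (b (b (l 16601640) (l 16596960)) (a (l 16584664) (l 16598424))) (b (l 16628600) (l 16621328))))) (a (a (b (a (a (l 16613728) (l 16613576)) (b (l 16530000) (l 16517400))) (b (a (a (l 16512984) (l 16511408)) (l 16572008)) (a (a (l 16516056) (l 16514000)) (l 16573328)))) (b (a (b (l 16545200) (l 16535912))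 (b (l 16561256) (l 16551032))) (b (l 16534800) (l 16522944)))) (b (a (b (l 16584448) (l 16576504)) (b (l 16614440) (l 16608728))) (a (b (l 16565688) (l 16555976)) (l 16594320))))) (b (a (b (l 16668816) (a (l 16652968) (l 16679912))) (b (l 16867040) (a (l 16708568) (l 16743240)))) (a (b (a (b (l 16644648) (l 16636664)) (l 16669504)) (a (l 16624648) (l 16649016))) (b (l 16715336) (l 16694824))))), by decide +kernel⟩

def k3_pm_202 : ∃ t, chk3 f_pm_202 t 3 3 1 = true :=
  ⟨(a (b (a (b (a (a (b (a (l 181629696103) (b (l 16516912) (l 16519840))) (b (l 153175536871) (l 175724108535))) (b (a (l 16493720) (l 16510144)) (b (l 16515824) (l 16517416)))) (b (a (l 16604528) (l 16517192)) (b (a (l 16504296) (l 16503088)) (a (l 16504880) (l 16493152))))) (a (a (l 3) (b (b (l 16538824) (l 16515016)) (l 140290661127))) (b (a (l 16503416) (l 16487136)) (a (l 16493736) (l 16480792))))) (b (b (a (l 16544136) (l 16571616)) (a (l 16523864) (l 16555312))) (a (b (l 16508752)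 (a (l 16494208) (l 16511344))) (b (l 16541368) (l 16534248))))) (b (a (a (l 3) (b (a (l 16481784) (l 16480160)) (a (l 16491792) (l 16477304)))) (a (b (a (l 16495000) (l 16509744)) (a (l 16493784) (l 16511344))) (l 16579936))) (a (a (l 3) (a (l 3) (b (l 16470784) (b (l 16485936) (l 158544139255))))) (b (a (a (l 16491120) (l 16515440)) (b (l 16545528) (l 16547272))) (a (b (l 16499712) (l 16500248)) (b (l 16548256) (l 16512664))))))) (b (b (a (a (l 16760912) (l 16619504)) (b (l 16672568) (a (l 16636920) (l 16668384)))) (a (a (b (l 16567784) (l 16564944)) (b (l 16595880) (l 16596240))) (b (l 16648168) (l 16662880)))) (b (a (a (l 16575512) (l 16617496)) (a (l 16661680) (l 16724800))) (a (b (l 16615800) (b (l 16623856) (l 16592088))) (b (l 16726624) (l 16731320)))))), by decide +kernel⟩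

theorem s4_pm_202 : ∃ t, chk3 f_pm_202 t 3 2 1 = true := ex3_b k1_pm_202 k2_pm_202

theorem s5_pm_202 : ∃ t, chk3 f_pm_202 t 3 1 1 = true := ex3_b s4_pm_202 k3_pm_202

theorem s6_pm_202 : ∃ t, chk3 f_pm_202 t 1 1 1 = true := ex3_a k0_pm_202 s5_pm_202

theorem c_pm_202 : CertB 0 536870912 1073741824 536870912 536870912 50465866 3 eng mog cd0q2 cd4q2 pd0 false true false .pp 2 0 2
    ndB0q2 ndB4q2 pcB0 Cut.none Ext.none :=
  certB0 (fam := false) (s1 := true) (s2 := false) (a := 2) (b := 0) (c := 2) (cn := .pp) (n1 := ndB0q2) (n2 := ndB4q2) (pc := pcB0) (cut := Cut.none) (xt := Ext.none) (P1 := 0) (W1 := 536870912) (P2 := 1073741824) (W2 := 536870912) (P3 := 536870912) (W3 := 50465866) (N0 := 3) (En := eng) (mo := mog) (C1 := cd0q2) (C2 := cd4q2) (C3 := pd0)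
    rfl s6_pm_202

noncomputable def f_pm_203 : ℕ → ℕ → ℕ → ℕ → Bool := onCell 0 536870912 0 1230186008 536870912 50465866
    (rowB 3 eng mog cd0q2 cd4q3 pd0 0 false true false .up 2 0 3 (qsf 0 536870912 0 1230186008 0) ndB0q2 ndB4q3 pcB0 Cut.none Ext.none)

def k0_pm_203 : ∃ t, chk3 f_pm_203 t 1 1 1 = true :=
  ⟨(b (l 2) (b (l 2) (b (a (l 3) (l 2)) (a (l 3) (b (a (a (l 3) (b (l 2) (a (a (l 3) (b (l 16614336) (l 16572192))) (a (l 16599728) (l 16604032))))) (a (a (b (l 2) (l 16618744)) (l 2)) (l 2))) (a (a (b (l 3) (a (l 3) (b (l 3) (l 183240328167)))) (b (a (b (a (l 293835687095) (l 16536488)) (l 136532536103)) (b (l 16552232) (l 16544312))) (a (b (b (l 16506432) (l 16517072)) (l 140827644327)) (b (l 16561496) (l 16588880))))) (a (b (a (l 16586232) (l 16645776)) (b (l 16642280) (l 16668624))) (b (l 16750848) (l 16797712))))))))), by decide +kernel⟩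

theorem c_pm_203 : CertB 0 536870912 0 1230186008 536870912 50465866 3 eng mog cd0q2 cd4q3 pd0 false true false .up 2 0 3
    ndB0q2 ndB4q3 pcB0 Cut.none Ext.none :=
  certB0 (fam := false) (s1 := true) (s2 := false) (a := 2) (b := 0) (c := 3) (cn := .up) (n1 := ndB0q2) (n2 := ndB4q3) (pc := pcB0) (cut := Cut.none) (xt := Ext.none) (P1 := 0) (W1 := 536870912) (P2 := 0) (W2 := 1230186008) (P3 := 536870912) (W3 := 50465866) (N0 := 3) (En := eng) (mo := mog) (C1 := cd0q2) (C2 := cd4q3) (C3 := pd0)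
    rfl k0_pm_203

noncomputable def cut_pm_213 : Cut := Cut.of [[⟨0, 1, 0, 67108864⟩, ⟨1, 1, 0, 67108864⟩, ⟨2, 2, 0, 16777216⟩]]

noncomputable def f_pm_213 : ℕ → ℕ → ℕ → ℕ → Bool := onCell 0 536870912 0 1230186008 536870912 50465866
    (rowB 3 eng mog cd0q2 cd4q3 pd1 0 false true false .pnn 2 1 3 (qsf 0 536870912 0 1230186008 1) ndB0q2 ndB4q3 pcB1 cut_pm_213 Ext.none)

def k0_pm_213 : ∃ t, chk3 f_pm_213 t 1 2 1 = true :=
  ⟨(a (l 3) (b (a (l 3) (a (l 3) (b (l 6) (a (a (l 3) (b (l 6) (a (b (l 3) (l 315311036375)) (b (a (l 317458510983) (l 325511576007)) (l 279877562695))))) (b (a (l 6) (l 6)) (a (a (b (l 282025037799) (l 16799128)) (l 16797232)) (l 16798536))))))) (a (l 3) (b (b (a (l 3) (a (a (a (l 3) (b (l 3) (l 294373092807))) (b (b (l 277730083207) (l 278266959655)) (l 276656356887))) (a (l 16809824) (l 16812392)))) (a (l 3) (a (a (a (b (l 276656361511) (l 255181538807)) (b (l 264308356583) (l 16821704))) (l 16821632)) (l 16827624)))) (a (a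 (l 3) (b (a (l 3) (b (l 242296639719) (a (l 224043036519) (l 230485513383)))) (a (b (l 3) (a (l 3) (l 204715697607))) (a (b (l 224043048167) (l 200420755559)) (b (l 16834848) (l 16841872)))))) (a (b (a (b (a (l 258939673639) (l 16829008)) (l 16834576)) (l 16837840)) (a (b (l 16842056) (l 16850120)) (l 16813920))) (b (l 16846664) (l 16868912)))))))), by decide +kernel⟩

def k1_pm_213 : ∃ t, chk3 f_pm_213 t 1 6 1 = true :=
  ⟨(a (l 3) (b (a (l 3) (a (b (b (a (l 3) (a (a (l 190220185191) (b (l 203105088567) (l 16838952))) (l 16846496))) (a (l 3) (a (a (b (l 186462097879) (l 182704002615)) (l 16844832)) (l 16854816)))) (a (a (l 3) (b (b (l 290615056583) (l 168208497079)) (a (l 257329076391) (l 161766076839)))) (a (b (a (b (l 16845264) (l 16850472)) (l 16854664)) (l 16862376)) (b (l 16865432) (l 16877624))))) (b (a (a (l 16884616) (l 16876288)) (l 16894304)) (a (a (l 16886696) (l 16902416)) (l 16924696))))) (a (a (l 3) (b (l 3) (a (l 3) (a (l 3) (b (l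 3) (l 140291236503)))))) (a (b (a (a (b (l 241759821079) (a (l 3) (l 141365002631))) (b (a (l 149954924647) (l 16861696)) (l 16866328))) (b (l 16882200) (l 16894096))) (a (a (b (b (l 132775048679) (l 129016985207)) (l 104320934023)) (b (l 16872792) (l 16874640))) (b (l 16905064) (l 16810048)))) (a (b (l 16923832) (l 16953760)) (l 16980624)))))), by decide +kernel⟩

def k2_pm_213 : ∃ t, chk3 f_pm_213 t 1 7 1 = true :=
  ⟨(b (a (l 3) (a (a (l 3) (b (a (l 3) (a (b (l 3) (l 228337998503)) (b (l 124721973271) (b (l 16811880) (l 16802744))))) (a (b (l 3) (l 151028372231)) (b (a (l 113447603367) (l 16785592)) (a (l 16730600) (l 16751640)))))) (a (b (a (b (b (l 16858624) (l 16854720)) (b (l 16849128) (l 16840832))) (b (a (l 16898552) (l 16928920)) (l 16820840))) (a (b (a (l 16810952) (l 16838800)) (l 16897720)) (b (l 16884648) (l 16854704)))) (a (b (a (l 16960064) (l 16993512)) (l 16948776)) (b (l 17039320) (l 17036016)))))) (a (l 3) (b (a (a (l 3) (b (a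 (a (l 3) (l 136532884359)) (a (l 16682392) (l 16703760))) (a (b (l 138680224615) (l 706555219687)) (l 16628904)))) (a (a (b (l 16742336) (l 16677104)) (l 16774936)) (b (l 16932848) (l 16868136)))) (a (l 1) (a (b (a (l 16635736) (l 16698600)) (l 1)) (b (l 16785248) (b (l 16826856) (l 16828608)))))))), by decide +kernel⟩

theorem s3_pm_213 : ∃ t, chk3 f_pm_213 t 1 3 1 = true := ex3_b k1_pm_213 k2_pm_213

theorem s4_pm_213 : ∃ t, chk3 f_pm_213 t 1 1 1 = true := ex3_b k0_pm_213 s3_pm_213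

theorem c_pm_213 : CertB 0 536870912 0 1230186008 536870912 50465866 3 eng mog cd0q2 cd4q3 pd1 false true false .pnn 2 1 3
    ndB0q2 ndB4q3 pcB1 cut_pm_213 Ext.none :=
  certB0 (fam := false) (s1 := true) (s2 := false) (a := 2) (b := 1) (c := 3) (cn := .pnn) (n1 := ndB0q2) (n2 := ndB4q3) (pc := pcB1) (cut := cut_pm_213) (xt := Ext.none) (P1 := 0) (W1 := 536870912) (P2 := 0) (W2 := 1230186008) (P3 := 536870912) (W3 := 50465866) (N0 := 3) (En := eng) (mo := mog) (C1 := cd0q2) (C2 := cd4q3) (C3 := pd1)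
    rfl s4_pm_213

noncomputable def f_mm_001 : ℕ → ℕ → ℕ → ℕ → Bool := onCell 0 536870912 0 536870912 536870912 50465866
    (rowB 3 eng mog cd0q0 cd4q1 pd0 1 false false false .up 0 0 1 (qsf 0 536870912 536870912 536870912 0) ndB0q0 ndB4q1 pcB0 Cut.none Ext.none)

def k0_mm_001 : ∃ t, chk3 f_mm_001 t 1 1 1 = true :=
  ⟨(l 3), by decide +kernel⟩

theorem c_mm_001 : CertB 0 536870912 536870912 536870912 536870912 50465866 3 eng mog cd0q0 cd4q1 pd0 false false false .up 0 0 1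
    ndB0q0 ndB4q1 pcB0 Cut.none Ext.none :=
  certB1 (fam := false) (s1 := false) (s2 := false) (a := 0) (b := 0) (c := 1) (cn := .up) (n1 := ndB0q0) (n2 := ndB4q1) (pc := pcB0) (cut := Cut.none) (xt := Ext.none) (P1 := 0) (W1 := 536870912) (P2 := 536870912) (W2 := 536870912) (P3 := 536870912) (W3 := 50465866) (N0 := 3) (En := eng) (mo := mog) (C1 := cd0q0) (C2 := cd4q1) (C3 := pd0)
    rfl (fun _ => rfl) k0_mm_001

noncomputable def f_mm_011 : ℕ → ℕ → ℕ → ℕ → Bool := onCell 0 536870912 536870912 536870912 536870912 50465866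
    (rowB 3 eng mog cd0q0 cd4q1 pd1 1 false false false .pnn 0 1 1 (qsf 0 536870912 536870912 536870912 1) ndB0q0 ndB4q1 pcB1 Cut.none Ext.none)

def k0_mm_011 : ∃ t, chk3 f_mm_011 t 1 1 1 = true :=
  ⟨(l 5), by decide +kernel⟩

theorem c_mm_011 : CertB 0 536870912 536870912 536870912 536870912 50465866 3 eng mog cd0q0 cd4q1 pd1 false false false .pnn 0 1 1
    ndB0q0 ndB4q1 pcB1 Cut.none Ext.none :=
  certB1 (fam := false) (s1 := false) (s2 := false) (a := 0) (b := 1) (c := 1) (cn := .pnn) (n1 := ndB0q0) (n2 := ndB4q1) (pc := pcB1) (cut := Cut.none) (xt := Ext.none) (P1 := 0) (W1 := 536870912) (P2 := 536870912) (W2 := 536870912) (P3 := 536870912) (W3 := 50465866) (N0 := 3) (En := eng) (mo := mog) (C1 := cd0q0) (C2 := cd4q1) (C3 := pd1)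
    rfl (fun _ => rfl) k0_mm_011

noncomputable def f_mm_012 : ℕ → ℕ → ℕ → ℕ → Bool := onCell 0 536870912 1073741824 536870912 536870912 50465866
    (rowB 3 eng mog cd0q0 cd4q2 pd1 0 false false false .pnp 0 1 2 (qsf 0 536870912 1073741824 536870912 1) ndB0q0 ndB4q2 pcB1 Cut.none Ext.none)

def k0_mm_012 : ∃ t, chk3 f_mm_012 t 1 1 1 = true :=
  ⟨(l 5), by decide +kernel⟩

theorem c_mm_012 : CertB 0 536870912 1073741824 536870912 536870912 50465866 3 eng mog cd0q0 cd4q2 pd1 false false false .pnp 0 1 2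
    ndB0q0 ndB4q2 pcB1 Cut.none Ext.none :=
  certB0 (fam := false) (s1 := false) (s2 := false) (a := 0) (b := 1) (c := 2) (cn := .pnp) (n1 := ndB0q0) (n2 := ndB4q2) (pc := pcB1) (cut := Cut.none) (xt := Ext.none) (P1 := 0) (W1 := 536870912) (P2 := 1073741824) (W2 := 536870912) (P3 := 536870912) (W3 := 50465866) (N0 := 3) (En := eng) (mo := mog) (C1 := cd0q0) (C2 := cd4q2) (C3 := pd1)
    rfl k0_mm_012

noncomputable def f_mm_022 : ℕ → ℕ → ℕ → ℕ → Bool := onCell 0 536870912 1073741824 536870912 536870912 50465866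
    (rowB 3 eng mog cd0q0 cd4q2 pd2 0 false false false .pp 0 2 2 (qsf 0 536870912 1073741824 536870912 2) ndB0q0 ndB4q2 pcB2 Cut.none Ext.none)

def k0_mm_022 : ∃ t, chk3 f_mm_022 t 1 1 1 = true :=
  ⟨(l 5), by decide +kernel⟩

theorem c_mm_022 : CertB 0 536870912 1073741824 536870912 536870912 50465866 3 eng mog cd0q0 cd4q2 pd2 false false false .pp 0 2 2
    ndB0q0 ndB4q2 pcB2 Cut.none Ext.none :=
  certB0 (fam := false) (s1 := false) (s2 := false) (a := 0) (b := 2) (c := 2) (cn := .pp) (n1 := ndB0q0) (n2 := ndB4q2) (pc := pcB2) (cut := Cut.none) (xt := Ext.none) (P1 := 0) (W1 := 536870912) (P2 := 1073741824) (W2 := 536870912) (P3 := 536870912) (W3 := 50465866) (N0 := 3) (En := eng) (mo := mog) (C1 := cd0q0) (C2 := cd4q2) (C3 := pd2)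
    rfl k0_mm_022

noncomputable def f_mm_023 : ℕ → ℕ → ℕ → ℕ → Bool := onCell 0 536870912 0 1230186008 536870912 50465866
    (rowB 3 eng mog cd0q0 cd4q3 pd2 0 false false false .up 0 2 3 (qsf 0 536870912 0 1230186008 2) ndB0q0 ndB4q3 pcB2 Cut.none Ext.none)

def k0_mm_023 : ∃ t, chk3 f_mm_023 t 1 1 1 = true :=
  ⟨(l 5), by decide +kernel⟩

theorem c_mm_023 : CertB 0 536870912 0 1230186008 536870912 50465866 3 eng mog cd0q0 cd4q3 pd2 false false false .up 0 2 3
    ndB0q0 ndB4q3 pcB2 Cut.none Ext.none :=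
  certB0 (fam := false) (s1 := false) (s2 := false) (a := 0) (b := 2) (c := 3) (cn := .up) (n1 := ndB0q0) (n2 := ndB4q3) (pc := pcB2) (cut := Cut.none) (xt := Ext.none) (P1 := 0) (W1 := 536870912) (P2 := 0) (W2 := 1230186008) (P3 := 536870912) (W3 := 50465866) (N0 := 3) (En := eng) (mo := mog) (C1 := cd0q0) (C2 := cd4q3) (C3 := pd2)
    rfl k0_mm_023

noncomputable def f_mm_033 : ℕ → ℕ → ℕ → ℕ → Bool := onCell 0 536870912 0 1230186008 536870912 50465866
    (rowB 3 eng mog cd0q0 cd4q3 pd3 0 false false false .pnn 0 3 3 (qsf 0 536870912 0 1230186008 3) ndB0q0 ndB4q3 pcB3 Cut.none Ext.none)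

def k0_mm_033 : ∃ t, chk3 f_mm_033 t 1 1 1 = true :=
  ⟨(l 5), by decide +kernel⟩

theorem c_mm_033 : CertB 0 536870912 0 1230186008 536870912 50465866 3 eng mog cd0q0 cd4q3 pd3 false false false .pnn 0 3 3
    ndB0q0 ndB4q3 pcB3 Cut.none Ext.none :=
  certB0 (fam := false) (s1 := false) (s2 := false) (a := 0) (b := 3) (c := 3) (cn := .pnn) (n1 := ndB0q0) (n2 := ndB4q3) (pc := pcB3) (cut := Cut.none) (xt := Ext.none) (P1 := 0) (W1 := 536870912) (P2 := 0) (W2 := 1230186008) (P3 := 536870912) (W3 := 50465866) (N0 := 3) (En := eng) (mo := mog) (C1 := cd0q0) (C2 := cd4q3) (C3 := pd3)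
    rfl k0_mm_033

noncomputable def cut_mm_101 : Cut := Cut.of [[⟨0, 1, 0, 67108864⟩, ⟨1, 0, 0, 67108864⟩, ⟨2, 1, 0, 67108864⟩]]

noncomputable def f_mm_101 : ℕ → ℕ → ℕ → ℕ → Bool := onCell 536870912 536870912 0 536870912 536870912 50465866
    (rowB 3 eng mog cd0q1 cd4q1 pd0 1 false false false .npn 1 0 1 (qsf 536870912 536870912 536870912 536870912 0) ndB0q1 ndB4q1 pcB0 cut_mm_101 Ext.none)

def k0_mm_101 : ∃ t, chk3 f_mm_101 t 1 1 1 = true :=
  ⟨(a (l 3) (b (a (l 3) (b (a (l 3) (b (a (l 3) (b (l 6) (l 3))) (l 3))) (l 3))) (l 3))), by decide +kernel⟩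

theorem c_mm_101 : CertB 536870912 536870912 536870912 536870912 536870912 50465866 3 eng mog cd0q1 cd4q1 pd0 false false false .npn 1 0 1
    ndB0q1 ndB4q1 pcB0 cut_mm_101 Ext.none :=
  certB1 (fam := false) (s1 := false) (s2 := false) (a := 1) (b := 0) (c := 1) (cn := .npn) (n1 := ndB0q1) (n2 := ndB4q1) (pc := pcB0) (cut := cut_mm_101) (xt := Ext.none) (P1 := 536870912) (W1 := 536870912) (P2 := 536870912) (W2 := 536870912) (P3 := 536870912) (W3 := 50465866) (N0 := 3) (En := eng) (mo := mog) (C1 := cd0q1) (C2 := cd4q1) (C3 := pd0)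
    rfl (fun _ => rfl) k0_mm_101

noncomputable def f_mm_102 : ℕ → ℕ → ℕ → ℕ → Bool := onCell 536870912 536870912 1073741824 536870912 536870912 50465866
    (rowB 3 eng mog cd0q1 cd4q2 pd0 0 false false false .npp 1 0 2 (qsf 536870912 536870912 1073741824 536870912 0) ndB0q1 ndB4q2 pcB0 Cut.none Ext.none)

def k0_mm_102 : ∃ t, chk3 f_mm_102 t 1 1 1 = true :=
  ⟨(l 3), by decide +kernel⟩

theorem c_mm_102 : CertB 536870912 536870912 1073741824 536870912 536870912 50465866 3 eng mog cd0q1 cd4q2 pd0 false false false .npp 1 0 2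
    ndB0q1 ndB4q2 pcB0 Cut.none Ext.none :=
  certB0 (fam := false) (s1 := false) (s2 := false) (a := 1) (b := 0) (c := 2) (cn := .npp) (n1 := ndB0q1) (n2 := ndB4q2) (pc := pcB0) (cut := Cut.none) (xt := Ext.none) (P1 := 536870912) (W1 := 536870912) (P2 := 1073741824) (W2 := 536870912) (P3 := 536870912) (W3 := 50465866) (N0 := 3) (En := eng) (mo := mog) (C1 := cd0q1) (C2 := cd4q2) (C3 := pd0)
    rfl k0_mm_102

noncomputable def f_mm_112 : ℕ → ℕ → ℕ → ℕ → Bool := onCell 536870912 536870912 1073741824 536870912 536870912 50465866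
    (rowB 3 eng mog cd0q1 cd4q2 pd1 0 false false false .dn 1 1 2 (qsf 536870912 536870912 1073741824 536870912 1) ndB0q1 ndB4q2 pcB1 Cut.none Ext.none)

def k0_mm_112 : ∃ t, chk3 f_mm_112 t 1 1 1 = true :=
  ⟨(l 3), by decide +kernel⟩

theorem c_mm_112 : CertB 536870912 536870912 1073741824 536870912 536870912 50465866 3 eng mog cd0q1 cd4q2 pd1 false false false .dn 1 1 2
    ndB0q1 ndB4q2 pcB1 Cut.none Ext.none :=
  certB0 (fam := false) (s1 := false) (s2 := false) (a := 1) (b := 1) (c := 2) (cn := .dn) (n1 := ndB0q1) (n2 := ndB4q2) (pc := pcB1) (cut := Cut.none) (xt := Ext.none) (P1 := 536870912) (W1 := 536870912) (P2 := 1073741824) (W2 := 536870912) (P3 := 536870912) (W3 := 50465866) (N0 := 3) (En := eng) (mo := mog) (C1 := cd0q1) (C2 := cd4q2) (C3 := pd1)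
    rfl k0_mm_112

noncomputable def f_mm_113 : ℕ → ℕ → ℕ → ℕ → Bool := onCell 536870912 536870912 0 1230186008 536870912 50465866
    (rowB 3 eng mog cd0q1 cd4q3 pd1 0 false false false .nn 1 1 3 (qsf 536870912 536870912 0 1230186008 1) ndB0q1 ndB4q3 pcB1 Cut.none Ext.none)

def k0_mm_113 : ∃ t, chk3 f_mm_113 t 1 1 1 = true :=
  ⟨(b (l 5) (b (l 5) (l 5))), by decide +kernel⟩

theorem c_mm_113 : CertB 536870912 536870912 0 1230186008 536870912 50465866 3 eng mog cd0q1 cd4q3 pd1 false false false .nn 1 1 3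
    ndB0q1 ndB4q3 pcB1 Cut.none Ext.none :=
  certB0 (fam := false) (s1 := false) (s2 := false) (a := 1) (b := 1) (c := 3) (cn := .nn) (n1 := ndB0q1) (n2 := ndB4q3) (pc := pcB1) (cut := Cut.none) (xt := Ext.none) (P1 := 536870912) (W1 := 536870912) (P2 := 0) (W2 := 1230186008) (P3 := 536870912) (W3 := 50465866) (N0 := 3) (En := eng) (mo := mog) (C1 := cd0q1) (C2 := cd4q3) (C3 := pd1)
    rfl k0_mm_113

noncomputable def f_mm_123 : ℕ → ℕ → ℕ → ℕ → Bool := onCell 1073741824 536870912 0 1230186008 536870912 50465866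
    (rowB 3 eng mog cd0q1 cd4q3 pd2 2 false false false .npn 1 2 3 (qsf 536870912 536870912 0 1230186008 2) ndB0q1 ndB4q3 pcB2 Cut.none Ext.none)

def k0_mm_123 : ∃ t, chk3 f_mm_123 t 1 1 1 = true :=
  ⟨(b (l 5) (l 5)), by decide +kernel⟩

theorem c_mm_123 : CertB 536870912 536870912 0 1230186008 536870912 50465866 3 eng mog cd0q1 cd4q3 pd2 false false false .npn 1 2 3
    ndB0q1 ndB4q3 pcB2 Cut.none Ext.none :=
  certB2 (fam := false) (s1 := false) (s2 := false) (a := 1) (b := 2) (c := 3) (cn := .npn) (n1 := ndB0q1) (n2 := ndB4q3) (pc := pcB2) (cut := Cut.none) (xt := Ext.none) (P1 := 536870912) (W1 := 536870912) (P2 := 0) (W2 := 1230186008) (P3 := 536870912) (W3 := 50465866) (N0 := 3) (En := eng) (mo := mog) (C1 := cd0q1) (C2 := cd4q3) (C3 := pd2)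
    rfl (fun _ => rfl) k0_mm_123

noncomputable def f_mm_133 : ℕ → ℕ → ℕ → ℕ → Bool := onCell 1610612736 536870912 0 1230186008 536870912 50465866
    (rowB 3 eng mog cd0q1 cd4q3 pd3 2 false false false .dn 1 3 3 (qsf 536870912 536870912 0 1230186008 3) ndB0q1 ndB4q3 pcB3 Cut.none Ext.none)

def k0_mm_133 : ∃ t, chk3 f_mm_133 t 1 1 1 = true :=
  ⟨(l 5), by decide +kernel⟩

theorem c_mm_133 : CertB 536870912 536870912 0 1230186008 536870912 50465866 3 eng mog cd0q1 cd4q3 pd3 false false false .dn 1 3 3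
    ndB0q1 ndB4q3 pcB3 Cut.none Ext.none :=
  certB2 (fam := false) (s1 := false) (s2 := false) (a := 1) (b := 3) (c := 3) (cn := .dn) (n1 := ndB0q1) (n2 := ndB4q3) (pc := pcB3) (cut := Cut.none) (xt := Ext.none) (P1 := 536870912) (W1 := 536870912) (P2 := 0) (W2 := 1230186008) (P3 := 536870912) (W3 := 50465866) (N0 := 3) (En := eng) (mo := mog) (C1 := cd0q1) (C2 := cd4q3) (C3 := pd3)
    rfl (fun _ => rfl) k0_mm_133

noncomputable def f_mm_202 : ℕ → ℕ → ℕ → ℕ → Bool := onCell 0 536870912 1073741824 536870912 536870912 50465866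
    (rowB 3 eng mog cd0q2 cd4q2 pd0 0 false false false .pp 2 0 2 (qsf 0 536870912 1073741824 536870912 0) ndB0q2 ndB4q2 pcB0 Cut.none Ext.none)

def k0_mm_202 : ∃ t, chk3 f_mm_202 t 1 1 1 = true :=
  ⟨(l 3), by decide +kernel⟩

theorem c_mm_202 : CertB 0 536870912 1073741824 536870912 536870912 50465866 3 eng mog cd0q2 cd4q2 pd0 false false false .pp 2 0 2
    ndB0q2 ndB4q2 pcB0 Cut.none Ext.none :=
  certB0 (fam := false) (s1 := false) (s2 := false) (a := 2) (b := 0) (c := 2) (cn := .pp) (n1 := ndB0q2) (n2 := ndB4q2) (pc := pcB0) (cut := Cut.none) (xt := Ext.none) (P1 := 0) (W1 := 536870912) (P2 := 1073741824) (W2 := 536870912) (P3 := 536870912) (W3 := 50465866) (N0 := 3) (En := eng) (mo := mog) (C1 := cd0q2) (C2 := cd4q2) (C3 := pd0)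
    rfl k0_mm_202

noncomputable def f_mm_203 : ℕ → ℕ → ℕ → ℕ → Bool := onCell 0 536870912 0 1230186008 536870912 50465866
    (rowB 3 eng mog cd0q2 cd4q3 pd0 0 false false false .up 2 0 3 (qsf 0 536870912 0 1230186008 0) ndB0q2 ndB4q3 pcB0 Cut.none Ext.none)

def k0_mm_203 : ∃ t, chk3 f_mm_203 t 1 1 1 = true :=
  ⟨(b (l 2) (l 3)), by decide +kernel⟩

theorem c_mm_203 : CertB 0 536870912 0 1230186008 536870912 50465866 3 eng mog cd0q2 cd4q3 pd0 false false false .up 2 0 3
    ndB0q2 ndB4q3 pcB0 Cut.none Ext.none :=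
  certB0 (fam := false) (s1 := false) (s2 := false) (a := 2) (b := 0) (c := 3) (cn := .up) (n1 := ndB0q2) (n2 := ndB4q3) (pc := pcB0) (cut := Cut.none) (xt := Ext.none) (P1 := 0) (W1 := 536870912) (P2 := 0) (W2 := 1230186008) (P3 := 536870912) (W3 := 50465866) (N0 := 3) (En := eng) (mo := mog) (C1 := cd0q2) (C2 := cd4q3) (C3 := pd0)
    rfl k0_mm_203

noncomputable def f_mm_213 : ℕ → ℕ → ℕ → ℕ → Bool := onCell 0 536870912 0 1230186008 536870912 50465866
    (rowB 3 eng mog cd0q2 cd4q3 pd1 0 false false false .pnn 2 1 3 (qsf 0 536870912 0 1230186008 1) ndB0q2 ndB4q3 pcB1 Cut.none Ext.none)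

def k0_mm_213 : ∃ t, chk3 f_mm_213 t 1 1 1 = true :=
  ⟨(b (a (l 3) (l 5)) (l 3)), by decide +kernel⟩

theorem c_mm_213 : CertB 0 536870912 0 1230186008 536870912 50465866 3 eng mog cd0q2 cd4q3 pd1 false false false .pnn 2 1 3
    ndB0q2 ndB4q3 pcB1 Cut.none Ext.none :=
  certB0 (fam := false) (s1 := false) (s2 := false) (a := 2) (b := 1) (c := 3) (cn := .pnn) (n1 := ndB0q2) (n2 := ndB4q3) (pc := pcB1) (cut := Cut.none) (xt := Ext.none) (P1 := 0) (W1 := 536870912) (P2 := 0) (W2 := 1230186008) (P3 := 536870912) (W3 := 50465866) (N0 := 3) (En := eng) (mo := mog) (C1 := cd0q2) (C2 := cd4q3) (C3 := pd1)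
    rfl k0_mm_213

end Pool.Agent.Strip051.G.I5000_5470.Tab.C.BB04

namespace Pool.Agent.Strip051.G.I5000_5470.Tab.C.BB05

open Pool.Agent.Strip051.PB Pool.Agent.Strip051.PB.T
open Pool.Agent.Strip051.G.I5000_5470.Tab

noncomputable def f_pp_001 : ℕ → ℕ → ℕ → ℕ → Bool := onCell 0 536870912 0 536870912 536870912 50465866
    (rowB 3 eng mog cd0q0 cd5q1 pd0 1 false true true .up 0 0 1 (qsf 0 536870912 536870912 536870912 0) ndB0q0 ndB5q1 pcB0 Cut.none Ext.none)

def k0_pp_001 : ∃ t, chk3 f_pp_001 t 1 1 1 = true :=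
  ⟨(l 3), by decide +kernel⟩

theorem c_pp_001 : CertB 0 536870912 536870912 536870912 536870912 50465866 3 eng mog cd0q0 cd5q1 pd0 false true true .up 0 0 1
    ndB0q0 ndB5q1 pcB0 Cut.none Ext.none :=
  certB1 (fam := false) (s1 := true) (s2 := true) (a := 0) (b := 0) (c := 1) (cn := .up) (n1 := ndB0q0) (n2 := ndB5q1) (pc := pcB0) (cut := Cut.none) (xt := Ext.none) (P1 := 0) (W1 := 536870912) (P2 := 536870912) (W2 := 536870912) (P3 := 536870912) (W3 := 50465866) (N0 := 3) (En := eng) (mo := mog) (C1 := cd0q0) (C2 := cd5q1) (C3 := pd0)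
    rfl (fun _ => rfl) k0_pp_001

noncomputable def cut_pp_011 : Cut := Cut.of [[⟨0, 0, 0, 67108864⟩, ⟨1, 1, 0, 67108864⟩, ⟨2, 1, 0, 67108864⟩]]

noncomputable def f_pp_011 : ℕ → ℕ → ℕ → ℕ → Bool := onCell 0 536870912 536870912 536870912 536870912 50465866
    (rowB 3 eng mog cd0q0 cd5q1 pd1 1 false true true .pnn 0 1 1 (qsf 0 536870912 536870912 536870912 1) ndB0q0 ndB5q1 pcB1 cut_pp_011 Ext.none)

def k0_pp_011 : ∃ t, chk3 f_pp_011 t 1 1 1 = true :=
  ⟨(b (l 3) (a (b (l 3) (a (b (l 3) (a (b (l 3) (a (l 6) (l 3))) (l 3))) (l 3))) (l 3))), by decide +kernel⟩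

theorem c_pp_011 : CertB 0 536870912 536870912 536870912 536870912 50465866 3 eng mog cd0q0 cd5q1 pd1 false true true .pnn 0 1 1
    ndB0q0 ndB5q1 pcB1 cut_pp_011 Ext.none :=
  certB1 (fam := false) (s1 := true) (s2 := true) (a := 0) (b := 1) (c := 1) (cn := .pnn) (n1 := ndB0q0) (n2 := ndB5q1) (pc := pcB1) (cut := cut_pp_011) (xt := Ext.none) (P1 := 0) (W1 := 536870912) (P2 := 536870912) (W2 := 536870912) (P3 := 536870912) (W3 := 50465866) (N0 := 3) (En := eng) (mo := mog) (C1 := cd0q0) (C2 := cd5q1) (C3 := pd1)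
    rfl (fun _ => rfl) k0_pp_011

noncomputable def f_pp_012 : ℕ → ℕ → ℕ → ℕ → Bool := onCell 0 536870912 536870912 536870912 536870912 50465866
    (rowB 3 eng mog cd0q0 cd5q2 pd1 1 false true true .pnp 0 1 2 (qsf 0 536870912 1073741824 536870912 1) ndB0q0 ndB5q2 pcB1 Cut.none Ext.none)

def k0_pp_012 : ∃ t, chk3 f_pp_012 t 1 1 1 = true :=
  ⟨(l 3), by decide +kernel⟩

theorem c_pp_012 : CertB 0 536870912 1073741824 536870912 536870912 50465866 3 eng mog cd0q0 cd5q2 pd1 false true true .pnp 0 1 2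
    ndB0q0 ndB5q2 pcB1 Cut.none Ext.none :=
  certB1 (fam := false) (s1 := true) (s2 := true) (a := 0) (b := 1) (c := 2) (cn := .pnp) (n1 := ndB0q0) (n2 := ndB5q2) (pc := pcB1) (cut := Cut.none) (xt := Ext.none) (P1 := 0) (W1 := 536870912) (P2 := 1073741824) (W2 := 536870912) (P3 := 536870912) (W3 := 50465866) (N0 := 3) (En := eng) (mo := mog) (C1 := cd0q0) (C2 := cd5q2) (C3 := pd1)
    rfl (fun _ => rfl) k0_pp_012

noncomputable def f_pp_022 : ℕ → ℕ → ℕ → ℕ → Bool := onCell 0 536870912 1073741824 536870912 536870912 50465866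
    (rowB 3 eng mog cd0q0 cd5q2 pd2 1 false true true .pp 0 2 2 (qsf 0 536870912 1073741824 536870912 2) ndB0q0 ndB5q2 pcB2 Cut.none Ext.none)

def k0_pp_022 : ∃ t, chk3 f_pp_022 t 2 4 1 = true :=
  ⟨(l 3), by decide +kernel⟩

def k1_pp_022 : ∃ t, chk3 f_pp_022 t 2 40 1 = true :=
  ⟨(a (l 3) (l 3)), by decide +kernel⟩

def k2_pp_022 : ∃ t, chk3 f_pp_022 t 2 82 1 = true :=
  ⟨(a (a (a (b (l 16546384) (a (l 16474952) (l 16481544))) (b (l 3) (l 16521632))) (b (l 3) (a (a (l 16513096) (l 16525072)) (l 3)))) (l 3)), by decide +kernel⟩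

def k3_pp_022 : ∃ t, chk3 f_pp_022 t 2 83 1 = true :=
  ⟨(a (b (b (a (a (l 16513264) (l 16490304)) (a (a (l 16507968) (l 16519912)) (l 16537648))) (a (a (l 16519552) (l 16486392)) (a (l 16520888) (l 16534280)))) (a (b (b (a (l 16506440) (l 16483280)) (a (l 16504328) (l 16481504))) (a (l 16511408) (l 16479280))) (b (b (a (l 16507504) (l 16531720)) (a (a (l 16499648) (l 16511920)) (c (l 16532232) (l 16527736)))) (a (a (l 16497512) (l 16509864)) (b (b (b (l 16529352) (l 16529072)) (l 16528552)) (l 16527504)))))) (b (a (b (l 3) (a (l 16556608) (l 16576032))) (l 3)) (a (b (b (a (l 16554352) (l 16574056)) (a (a (l 16547464) (l 16558240)) (l 16572832))) (a (c (b (a (c (b (b (l 16551008) (b (l 16550920) (l 16550952))) (l 16550616)) (b (b (l 16548200) (b (l 16548024) (l 16547952))) (l 16547560))) (c (b (b (l 16562416) (b (l 16562232) (l 16562200))) (l 16561912)) (b (b (l 16559200) (a (l 16561512) (l 16561560))) (l 16558536)))) (l 16553872)) (b (a (b (b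 (l 16543568) (c (l 16544832) (l 16541472))) (l 16542608)) (b (b (l 16554048) (c (l 16555496) (l 16551872))) (l 16553168))) (l 16546952))) (c (b (a (b (b (l 16571136) (b (l 16570920) (l 16570800))) (l 16570456)) (b (b (l 16580224) (l 16579952)) (l 16579536))) (l 16574288)) (b (a (b (b (l 16563840) (l 16563536)) (l 16563064)) (b (b (l 16572736) (l 16572448)) (l 16572000))) (l 16566688))))) (b (a (b (l 16589328) (l 16588256)) (c (l 16645224) (l 16617904))) (a (c (b (b (b (l 16591232) (l 16590976)) (l 16590584)) (l 16589784)) (b (b (b (l 16584048) (l 16583776)) (l 16583344)) (l 16582456))) (a (c (l 16598968) (l 16592224)) (l 16600472))))))), by decide +kernel⟩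

def k4_pp_022 : ∃ t, chk3 f_pp_022 t 2 21 1 = true :=
  ⟨(a (a (a (a (l 16506392) (l 16433480)) (a (l 16446072) (l 16459056))) (a (a (l 16472288) (l 16485584)) (a (l 16498752) (l 16511584)))) (a (a (a (l 16523912) (l 16535528)) (a (l 16546224) (l 16555872))) (a (l 16568264) (l 16581408)))), by decide +kernel⟩

def k5_pp_022 : ∃ t, chk3 f_pp_022 t 2 11 1 = true :=
  ⟨(b (a (a (a (a (l 16370288) (l 16384584)) (l 16448752)) (a (l 16437088) (l 16487736))) (a (a (l 16494232) (l 16518368)) (a (l 16538616) (l 16555024)))) (a (a (a (l 16333680) (l 16367520)) (a (l 16401656) (l 16434552))) (a (a (l 16464952) (l 16492224)) (l 16526248)))), by decide +kernel⟩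

def k6_pp_022 : ∃ t, chk3 f_pp_022 t 2 3 1 = true :=
  ⟨(a (b (a (b (a (b (l 16296752) (l 16267048)) (b (l 16335032) (l 16309488))) (a (l 16236376) (l 16285352))) (b (a (l 16360936) (l 16398840)) (l 16356256))) (b (a (l 16254896) (l 16367440)) (a (l 16288368) (l 16439368)))) (b (a (b (a (l 16434280) (l 16466576)) (l 16441336)) (b (l 16529192) (l 16512600))) (b (a (l 16471448) (l 2)) (l 2)))), by decide +kernel⟩

def k7_pp_022 : ∃ t, chk3 f_pp_022 t 3 1 1 = true :=
  ⟨(b (b (l 3) (b (b (b (l 3) (a (b (l 3) (b (l 3) (a (b (l 3) (a (l 16606320) (l 16612152))) (b (b (l 3) (l 16660536)) (a (l 16616128) (c (l 50029381255) (l 16613280))))))) (l 2))) (a (a (a (l 16591264) (l 16598656)) (a (l 16603944) (l 16605880))) (l 2))) (a (a (a (l 16558896) (l 16570832)) (b (l 16589424) (l 2))) (l 2)))) (b (a (a (b (l 16551184) (l 2)) (l 2)) (l 2)) (l 2))), by decide +kernel⟩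

theorem s8_pp_022 : ∃ t, chk3 f_pp_022 t 2 41 1 = true := ex3_b k2_pp_022 k3_pp_022

theorem s9_pp_022 : ∃ t, chk3 f_pp_022 t 2 20 1 = true := ex3_b k1_pp_022 s8_pp_022

theorem s10_pp_022 : ∃ t, chk3 f_pp_022 t 2 10 1 = true := ex3_b s9_pp_022 k4_pp_022

theorem s11_pp_022 : ∃ t, chk3 f_pp_022 t 2 5 1 = true := ex3_b s10_pp_022 k5_pp_022

theorem s12_pp_022 : ∃ t, chk3 f_pp_022 t 2 2 1 = true := ex3_b k0_pp_022 s11_pp_022

theorem s13_pp_022 : ∃ t, chk3 f_pp_022 t 2 1 1 = true := ex3_b s12_pp_022 k6_pp_022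

theorem s14_pp_022 : ∃ t, chk3 f_pp_022 t 1 1 1 = true := ex3_a s13_pp_022 k7_pp_022

theorem c_pp_022 : CertB 0 536870912 1073741824 536870912 536870912 50465866 3 eng mog cd0q0 cd5q2 pd2 false true true .pp 0 2 2
    ndB0q0 ndB5q2 pcB2 Cut.none Ext.none :=
  certB1 (fam := false) (s1 := true) (s2 := true) (a := 0) (b := 2) (c := 2) (cn := .pp) (n1 := ndB0q0) (n2 := ndB5q2) (pc := pcB2) (cut := Cut.none) (xt := Ext.none) (P1 := 0) (W1 := 536870912) (P2 := 1073741824) (W2 := 536870912) (P3 := 536870912) (W3 := 50465866) (N0 := 3) (En := eng) (mo := mog) (C1 := cd0q0) (C2 := cd5q2) (C3 := pd2)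
    rfl (fun _ => rfl) s14_pp_022

noncomputable def f_pp_023 : ℕ → ℕ → ℕ → ℕ → Bool := onCell 1073741824 536870912 0 1230186008 536870912 50465866
    (rowB 3 eng mog cd0q0 cd5q3 pd2 2 false true true .up 0 2 3 (qsf 0 536870912 0 1230186008 2) ndB0q0 ndB5q3 pcB2 Cut.none Ext.none)

def k0_pp_023 : ∃ t, chk3 f_pp_023 t 1 2 1 = true :=
  ⟨(a (l 2) (a (l 2) (a (b (l 2) (b (l 16770864) (l 16775864))) (b (l 16752416) (b (l 16767296) (a (l 16770576) (l 16770472))))))), by decide +kernel⟩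

def k1_pp_023 : ∃ t, chk3 f_pp_023 t 1 6 1 = true :=
  ⟨(a (a (l 2) (a (l 2) (b (l 2) (a (l 2) (b (l 2) (l 16730000)))))) (a (b (a (l 2) (b (l 16784464) (l 16782144))) (a (b (a (l 16748896) (l 16754352)) (a (l 16728640) (l 16731808))) (b (l 16764848) (l 16740536)))) (a (b (b (l 16778200) (l 16776680)) (b (l 16765312) (l 16724424))) (a (b (l 16768840) (l 16872200)) (b (l 16767600) (a (l 16741760) (l 16739992))))))), by decide +kernel⟩

def k2_pp_023 : ∃ t, chk3 f_pp_023 t 1 7 1 = true :=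
  ⟨(a (a (l 3) (a (a (a (b (b (l 2) (l 3)) (l 3)) (b (b (l 2) (b (l 2) (a (a (l 3) (l 16725248)) (a (a (l 16720832) (l 16718128)) (a (l 16841344) (l 16712696)))))) (a (b (b (a (l 3) (l 16695936)) (l 3)) (l 3)) (b (a (b (a (l 16691224) (l 16688280)) (a (l 16650200) (l 16647392))) (b (a (c (l 16801512) (l 16716472)) (l 16682560)) (a (c (l 16678752) (l 16652776)) (c (b (l 16665728) (l 16644168)) (l 16639056))))) (a (b (l 373829807255) (l 3)) (b (a (a (l 16640776) (l 16640456)) (b (l 16633584) (l 16665952))) (b (a (l 16674992) (l 16652608)) (a (l 16682200) (c (a (l 16664880) (l 16664160)) (l 16654696)))))))))) (b (b (a (l 2) (l 16727224)) (b (l 16711608) (l 16691152))) (b (b (l 16639080) (l 16619736)) (b (l 16632408) (l 16644472))))) (a (b (b (l 16880008) (b (l 16686592) (l 16661344))) (b (b (l 16629376) (l 16608512)) (b (l 16616192) (l 16621200)))) (b (b (l 16702240) (l 16658104)) (b (l 16599792) (l 16682080)))))) (a (b (a (b (a (l 16698760) (l 16700448))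 (a (l 16651112) (l 16648752))) (b (l 16708656) (l 16651152))) (b (a (a (l 16590784) (l 16580560)) (l 16563488)) (a (b (l 16571144) (l 16561584)) (b (l 16529888) (l 16507712))))) (b (a (b (l 16714776) (l 16653960)) (b (l 16746272) (l 16709488))) (b (a (l 16554104) (l 16550840)) (a (l 16487368) (l 16411488)))))), by decide +kernel⟩

theorem s3_pp_023 : ∃ t, chk3 f_pp_023 t 1 3 1 = true := ex3_b k1_pp_023 k2_pp_023

theorem s4_pp_023 : ∃ t, chk3 f_pp_023 t 1 1 1 = true := ex3_b k0_pp_023 s3_pp_023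

theorem c_pp_023 : CertB 0 536870912 0 1230186008 536870912 50465866 3 eng mog cd0q0 cd5q3 pd2 false true true .up 0 2 3
    ndB0q0 ndB5q3 pcB2 Cut.none Ext.none :=
  certB2 (fam := false) (s1 := true) (s2 := true) (a := 0) (b := 2) (c := 3) (cn := .up) (n1 := ndB0q0) (n2 := ndB5q3) (pc := pcB2) (cut := Cut.none) (xt := Ext.none) (P1 := 0) (W1 := 536870912) (P2 := 0) (W2 := 1230186008) (P3 := 536870912) (W3 := 50465866) (N0 := 3) (En := eng) (mo := mog) (C1 := cd0q0) (C2 := cd5q3) (C3 := pd2)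
    rfl (fun _ => rfl) s4_pp_023

noncomputable def f_pp_033 : ℕ → ℕ → ℕ → ℕ → Bool := onCell 1610612736 536870912 0 1230186008 536870912 50465866
    (rowB 3 eng mog cd0q0 cd5q3 pd3 2 false true true .pnn 0 3 3 (qsf 0 536870912 0 1230186008 3) ndB0q0 ndB5q3 pcB3 Cut.none Ext.none)

def k0_pp_033 : ∃ t, chk3 f_pp_033 t 1 1 1 = true :=
  ⟨(b (b (a (a (a (b (l 16745464) (l 16753448)) (l 16741912)) (a (l 16759664) (l 16733440))) (a (a (l 16726304) (l 4)) (l 4))) (a (a (a (b (l 16950496) (a (l 16765344) (l 16770336))) (b (l 16756824) (l 16956656))) (a (b (l 16746928) (l 16755752)) (b (l 16741040) (l 16746408)))) (a (a (b (l 16734664) (l 16741856)) (a (l 16736264) (l 16736352))) (a (a (l 16734928) (l 4)) (l 4))))) (b (a (a (a (b (a (l 16767128) (l 16771552)) (b (l 16754464) (l 16860000))) (b (a (l 16772768) (l 16767464)) (b (l 16751128) (l 16727648)))) (b (a (b (l 16759376) (l 16755960)) (b (l 16749760) (l 16747408))) (a (b (l 16742144) (l 16721368))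 (l 16728336)))) (a (b (a (l 16748712) (a (l 16756800) (l 16764312))) (a (l 16732776) (a (l 16743920) (l 1)))) (a (b (a (l 16765696) (l 1)) (l 1)) (l 1)))) (a (a (b (a (b (a (l 16702848) (l 16698656)) (l 16629728)) (b (l 16694104) (l 16622832))) (b (a (l 16517744) (l 16506440)) (b (l 16389040) (l 16273616)))) (b (b (a (l 16690144) (l 16688600)) (a (l 16619584) (l 1))) (b (a (l 16498336) (l 1)) (l 1)))) (l 1)))), by decide +kernel⟩

theorem c_pp_033 : CertB 0 536870912 0 1230186008 536870912 50465866 3 eng mog cd0q0 cd5q3 pd3 false true true .pnn 0 3 3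
    ndB0q0 ndB5q3 pcB3 Cut.none Ext.none :=
  certB2 (fam := false) (s1 := true) (s2 := true) (a := 0) (b := 3) (c := 3) (cn := .pnn) (n1 := ndB0q0) (n2 := ndB5q3) (pc := pcB3) (cut := Cut.none) (xt := Ext.none) (P1 := 0) (W1 := 536870912) (P2 := 0) (W2 := 1230186008) (P3 := 536870912) (W3 := 50465866) (N0 := 3) (En := eng) (mo := mog) (C1 := cd0q0) (C2 := cd5q3) (C3 := pd3)
    rfl (fun _ => rfl) k0_pp_033

noncomputable def f_pp_101 : ℕ → ℕ → ℕ → ℕ → Bool := onCell 536870912 536870912 536870912 536870912 536870912 50465866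
    (rowB 3 eng mog cd0q1 cd5q1 pd0 0 false true true .npn 1 0 1 (qsf 536870912 536870912 536870912 536870912 0) ndB0q1 ndB5q1 pcB0 Cut.none Ext.none)

def k0_pp_101 : ∃ t, chk3 f_pp_101 t 1 1 1 = true :=
  ⟨(a (l 3) (l 5)), by decide +kernel⟩

theorem c_pp_101 : CertB 536870912 536870912 536870912 536870912 536870912 50465866 3 eng mog cd0q1 cd5q1 pd0 false true true .npn 1 0 1
    ndB0q1 ndB5q1 pcB0 Cut.none Ext.none :=
  certB0 (fam := false) (s1 := true) (s2 := true) (a := 1) (b := 0) (c := 1) (cn := .npn) (n1 := ndB0q1) (n2 := ndB5q1) (pc := pcB0) (cut := Cut.none) (xt := Ext.none) (P1 := 536870912) (W1 := 536870912) (P2 := 536870912) (W2 := 536870912) (P3 := 536870912) (W3 := 50465866) (N0 := 3) (En := eng) (mo := mog) (C1 := cd0q1) (C2 := cd5q1) (C3 := pd0)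
    rfl k0_pp_101

noncomputable def f_pp_102 : ℕ → ℕ → ℕ → ℕ → Bool := onCell 536870912 536870912 1073741824 536870912 536870912 50465866
    (rowB 3 eng mog cd0q1 cd5q2 pd0 0 false true true .npp 1 0 2 (qsf 536870912 536870912 1073741824 536870912 0) ndB0q1 ndB5q2 pcB0 Cut.none Ext.none)

def k0_pp_102 : ∃ t, chk3 f_pp_102 t 1 1 1 = true :=
  ⟨(l 3), by decide +kernel⟩

theorem c_pp_102 : CertB 536870912 536870912 1073741824 536870912 536870912 50465866 3 eng mog cd0q1 cd5q2 pd0 false true true .npp 1 0 2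
    ndB0q1 ndB5q2 pcB0 Cut.none Ext.none :=
  certB0 (fam := false) (s1 := true) (s2 := true) (a := 1) (b := 0) (c := 2) (cn := .npp) (n1 := ndB0q1) (n2 := ndB5q2) (pc := pcB0) (cut := Cut.none) (xt := Ext.none) (P1 := 536870912) (W1 := 536870912) (P2 := 1073741824) (W2 := 536870912) (P3 := 536870912) (W3 := 50465866) (N0 := 3) (En := eng) (mo := mog) (C1 := cd0q1) (C2 := cd5q2) (C3 := pd0)
    rfl k0_pp_102

noncomputable def f_pp_112 : ℕ → ℕ → ℕ → ℕ → Bool := onCell 536870912 536870912 1073741824 536870912 536870912 50465866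
    (rowB 3 eng mog cd0q1 cd5q2 pd1 0 false true true .dn 1 1 2 (qsf 536870912 536870912 1073741824 536870912 1) ndB0q1 ndB5q2 pcB1 Cut.none Ext.none)

def k0_pp_112 : ∃ t, chk3 f_pp_112 t 1 1 1 = true :=
  ⟨(l 3), by decide +kernel⟩

theorem c_pp_112 : CertB 536870912 536870912 1073741824 536870912 536870912 50465866 3 eng mog cd0q1 cd5q2 pd1 false true true .dn 1 1 2
    ndB0q1 ndB5q2 pcB1 Cut.none Ext.none :=
  certB0 (fam := false) (s1 := true) (s2 := true) (a := 1) (b := 1) (c := 2) (cn := .dn) (n1 := ndB0q1) (n2 := ndB5q2) (pc := pcB1) (cut := Cut.none) (xt := Ext.none) (P1 := 536870912) (W1 := 536870912) (P2 := 1073741824) (W2 := 536870912) (P3 := 536870912) (W3 := 50465866) (N0 := 3) (En := eng) (mo := mog) (C1 := cd0q1) (C2 := cd5q2) (C3 := pd1)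
    rfl k0_pp_112

noncomputable def cut_pp_113 : Cut := Cut.of [[⟨0, 1, 0, 67108864⟩, ⟨1, 1, 0, 67108864⟩, ⟨2, 2, 0, 16777216⟩]]

noncomputable def f_pp_113 : ℕ → ℕ → ℕ → ℕ → Bool := onCell 536870912 536870912 0 1230186008 536870912 50465866
    (rowB 3 eng mog cd0q1 cd5q3 pd1 2 false true true .nn 1 1 3 (qsf 536870912 536870912 0 1230186008 1) ndB0q1 ndB5q3 pcB1 cut_pp_113 Ext.none)

def k0_pp_113 : ∃ t, chk3 f_pp_113 t 1 1 1 = true :=
  ⟨(b (a (l 2) (a (l 2) (b (a (l 2) (a (l 2) (b (l 6) (l 3)))) (l 3)))) (b (a (a (l 2) (b (l 2) (a (l 2) (l 3)))) (l 3)) (a (a (b (l 2) (l 3)) (l 3)) (l 3)))), by decide +kernel⟩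

theorem c_pp_113 : CertB 536870912 536870912 0 1230186008 536870912 50465866 3 eng mog cd0q1 cd5q3 pd1 false true true .nn 1 1 3
    ndB0q1 ndB5q3 pcB1 cut_pp_113 Ext.none :=
  certB2 (fam := false) (s1 := true) (s2 := true) (a := 1) (b := 1) (c := 3) (cn := .nn) (n1 := ndB0q1) (n2 := ndB5q3) (pc := pcB1) (cut := cut_pp_113) (xt := Ext.none) (P1 := 536870912) (W1 := 536870912) (P2 := 0) (W2 := 1230186008) (P3 := 536870912) (W3 := 50465866) (N0 := 3) (En := eng) (mo := mog) (C1 := cd0q1) (C2 := cd5q3) (C3 := pd1)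
    rfl (fun _ => rfl) k0_pp_113

noncomputable def cut_pp_123 : Cut := Cut.of [[⟨0, 1, 0, 67108864⟩, ⟨1, 1, 0, 67108864⟩, ⟨2, 2, 0, 16777216⟩]]

noncomputable def f_pp_123 : ℕ → ℕ → ℕ → ℕ → Bool := onCell 1073741824 536870912 0 1230186008 536870912 50465866
    (rowB 3 eng mog cd0q1 cd5q3 pd2 2 false true true .npn 1 2 3 (qsf 536870912 536870912 0 1230186008 2) ndB0q1 ndB5q3 pcB2 cut_pp_123 Ext.none)

def k0_pp_123 : ∃ t, chk3 f_pp_123 t 4 4 1 = true :=
  ⟨(a (a (b (l 6) (b (l 6) (l 3))) (a (b (l 6) (b (l 6) (a (l 3) (b (a (l 3) (b (a (l 3) (b (a (l 358797556183) (a (l 301352371287) (l 286319987431))) (l 3))) (l 3))) (l 3))))) (b (b (l 16773528) (l 16796184)) (b (a (b (a (l 6) (l 16778864)) (a (b (l 16781672) (a (b (l 16782952) (a (l 16783808) (l 16783760))) (l 16783144))) (b (l 16781784) (l 16782768)))) (b (l 16777400) (b (l 16780024) (l 16823504)))) (a (b (a (b (b (b (a (l 16784368) (l 16784240)) (a (l 16784848) (l 16784616))) (a (a (l 340543946583)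 (a (l 292225567655) (l 16785424))) (b (l 16785024) (l 16785520)))) (a (a (l 3) (b (l 410874037143) (l 3))) (a (b (l 360408171799) (l 3)) (b (l 287393719047) (l 403357845991))))) (b (a (b (l 16784200) (c (l 16795912) (l 16795760))) (l 16784456)) (a (a (b (l 16786056) (l 320679725143)) (b (l 16785920) (l 16786880))) (a (b (l 16785912) (l 16786816)) (b (l 16785856) (l 16786712)))))) (a (l 3) (b (a (a (l 3) (b (l 389936074887) (l 3))) (a (b (l 303499859095) (l 3)) (b (l 16787688) (l 349670759911)))) (l 3)))) (b (a (b (l 16784104) (a (l 16799344) (l 16786000))) (b (l 16783664) (l 16785480))) (a (b (a (b (l 16787568) (a (l 16788536) (l 16788552))) (b (l 16787320) (l 16788408))) (a (b (a (l 462950522119) (l 286856867367)) (l 3)) (b (l 16789464) (l 286320003575)))) (b (l 16808016) (a (b (l 16788952) (l 16789968)) (b (l 16788472) (l 16789528))))))))))) (a (b (l 16792376) (a (b (l 16776216) (a (b (l 16803240) (a (b (l 16786560) (l 16788040)) (l 16786496)))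 (b (l 16779888) (l 16783640)))) (b (l 16773608) (l 16777520)))) (b (l 16767192) (a (l 16793264) (l 16770328))))), by decide +kernel⟩

def k1_pp_123 : ∃ t, chk3 f_pp_123 t 5 4 1 = true :=
  ⟨(a (a (a (b (l 16763392) (l 16768728)) (b (l 16761432) (l 16810456))) (l 16802968)) (b (l 16757896) (l 16767152))), by decide +kernel⟩

def k2_pp_123 : ∃ t, chk3 f_pp_123 t 3 4 1 = true :=
  ⟨(a (a (l 16761064) (l 16759920)) (a (l 16756608) (l 16752640))), by decide +kernel⟩

def k3_pp_123 : ∃ t, chk3 f_pp_123 t 8 5 1 = true :=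
  ⟨(a (l 3) (b (a (l 3) (b (a (l 3) (b (a (l 3) (b (a (b (l 266992654823) (l 344838926935)) (b (l 16790488) (l 16791600))) (a (l 3) (b (l 243907210663) (l 3))))) (l 3))) (l 3))) (l 3))), by decide +kernel⟩

def k4_pp_123 : ∃ t, chk3 f_pp_123 t 18 5 1 = true :=
  ⟨(b (a (b (a (b (a (b (a (b (l 16790048) (l 16790984)) (l 16810728)) (a (b (l 16791992) (l 178408955495)) (b (l 16791464) (l 16792352)))) (b (l 16789256) (a (l 16807064) (l 16811400)))) (a (b (a (l 3) (b (l 16793480) (l 3))) (l 3)) (b (a (b (l 16792672) (l 16804168)) (b (l 16792184) (l 16792928))) (a (l 406579111975) (b (l 16793824) (l 16794952)))))) (b (a (l 16788928) (l 16787448)) (a (b (a (b (l 16791480) (l 16792408)) (l 16790800)) (a (b (l 16793120) (l 16793936)) (b (l 16792560) (l 16793280)))) (b (l 16790072) (a (l 16792176) (l 16791400)))))) (a (l 3) (b (a (b (a (b (l 16794976) (l 3)) (b (l 16794048) (l 16795000))) (l 3)) (b (a (b (l 16793416) (l 16794160)) (l 16793160)) (a (b (l 16795040)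 (l 16796136)) (l 218674283367)))) (a (l 3) (b (a (l 3) (l 103247039367)) (l 3)))))) (b (a (b (l 16784232) (a (l 16789264) (l 16787576))) (l 16803432)) (a (b (a (b (a (l 16792272) (l 16791456)) (a (l 16794016) (l 16793192))) (b (l 16790168) (a (l 16792320) (l 16791496)))) (a (b (a (l 170892776071) (l 16794792)) (a (l 3) (l 148881070007))) (b (a (l 16794104) (l 16793224)) (a (l 16795680) (l 16794920))))) (b (l 16788408) (a (b (l 16791928) (a (l 16794136) (l 16793200))) (l 16790960)))))) (a (l 3) (b (a (b (a (l 3) (b (a (l 16797664) (l 16796608)) (a (l 3) (l 16798728)))) (l 3)) (b (b (a (a (l 16795744) (l 16795000)) (a (l 16794088) (l 16793176))) (a (a (l 16797576) (l 16796624)) (a (l 16795816) (l 16795016)))) (a (b (a (l 3) (l 16798616)) (l 3)) (b (a (l 16797592) (l 16796744)) (a (l 16799760) (l 16798680)))))) (l 3)))), by decide +kernel⟩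

def k5_pp_123 : ∃ t, chk3 f_pp_123 t 19 5 1 = true :=
  ⟨(b (a (b (l 16840760) (a (b (l 16784488) (l 16788104)) (l 16824320))) (b (l 16773416) (l 16777968))) (a (b (a (b (a (b (l 16791760) (l 16814280)) (l 16790792)) (a (b (a (l 16795968) (l 16795064)) (l 16797424)) (b (l 16793664) (l 16795720)))) (b (l 16788000) (l 16792040))) (a (b (a (b (a (l 16799936) (l 16798992)) (l 426980198039)) (b (a (l 16798224) (l 16797480)) (l 271824539479))) (a (l 3) (b (l 448455056327) (l 3)))) (b (a (b (l 16796160) (l 16798488)) (l 16795176)) (a (b (l 16800608) (l 16802864)) (b (l 16798960) (l 16801112)))))) (b (a (b (l 16784416) (l 16788488)) (l 16783128)) (a (b (l 16792856) (a (b (l 16797112) (l 16799288)) (l 16796288))) (b (l 16789192) (l 16793192)))))), by decide +kernel⟩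

def k6_pp_123 : ∃ t, chk3 f_pp_123 t 5 5 1 = true :=
  ⟨(a (a (a (b (b (l 16771072) (l 16774008)) (b (l 16778984) (a (l 16745664) (l 16784232)))) (b (a (l 16770944) (b (l 16770744) (a (l 16772152) (l 16772560)))) (a (l 16778568) (a (l 16777024) (a (l 16776864) (l 16777216)))))) (b (l 16770400) (l 16877608))) (b (l 16771696) (a (l 16771056) (l 16772792)))), by decide +kernel⟩

def k7_pp_123 : ∃ t, chk3 f_pp_123 t 3 5 1 = true :=
  ⟨(a (a (b (l 16774208) (l 16776408)) (b (l 16774168) (l 16947800))) (a (b (l 16770864) (l 16775824)) (b (l 16767248) (l 697429274807)))), by decide +kernel⟩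

def k8_pp_123 : ∃ t, chk3 f_pp_123 t 4 6 1 = true :=
  ⟨(a (l 3) (a (l 3) (b (a (b (a (l 3) (b (a (b (a (l 3) (l 16804648)) (l 3)) (b (l 16803120) (l 321753524999))) (a (l 3) (b (l 537038744887) (l 3))))) (l 3)) (b (a (b (a (b (l 16801432) (l 16803272)) (b (l 16799504) (l 16801480))) (a (b (l 285246302919) (a (l 3) (l 526838193879))) (b (l 16803024) (a (l 261087100423) (l 16803280))))) (b (l 16796904) (a (b (l 16800600) (a (l 16802184) (l 16800744))) (b (l 16797616) (l 16798328))))) (a (a (l 3) (b (b (b (a (a (l 579988413223) (b (l 16804424) (l 289004377447))) (l 16803520)) (b (a (c (l 606831963959) (l 598242018167)) (a (a (b (l 16804008) (a (l 581599023655) (b (l 16803920) (l 261623971511)))) (l 16803672)) (l 16803184))) (a (l 3) (a (c (b (a (a (l 3) (a (l 331954055319) (a (l 107005149575) (l 88214667559)))) (l 46338736695)) (l 304573639319)) (a (l 330343431495) (l 54928662087))) (l 16803456))))) (b (a (l 3) (a (l 332490923031) (a (l 16815168)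 (l 16804264)))) (l 3))) (l 3))) (b (a (b (a (b (l 16802288) (c (l 16805200) (l 16799352))) (l 16800896)) (a (a (l 16814832) (l 16803536)) (l 16802368))) (b (a (l 16799336) (l 16797608)) (l 16799912))) (b (a (a (l 297057461287) (l 16804288)) (l 16801640)) (a (l 292225636391) (l 16803000))))))) (a (l 3) (b (a (l 3) (a (l 3) (b (a (l 16805432) (l 16803104)) (l 3)))) (l 3)))))), by decide +kernel⟩

def k9_pp_123 : ∃ t, chk3 f_pp_123 t 5 6 1 = true :=
  ⟨(a (a (a (b (b (a (b (l 16792528) (l 16793824)) (b (l 16788208) (l 16767928))) (a (b (a (b (l 16795136) (l 16796344)) (l 16792624)) (a (b (l 16797984) (l 16799168)) (a (l 16795760) (l 16793992)))) (b (l 16809280) (l 16789776)))) (b (a (a (b (b (l 16799760) (l 16799712)) (b (l 16799176) (l 16798240))) (b (b (l 16795712) (l 16795456)) (l 16794320))) (b (a (l 16791312) (l 16787888)) (a (l 16789888) (l 16785776)))) (a (b (a (l 3) (l 16792008)) (l 3)) (a (b (l 16787408) (l 16783184)) (b (l 16783168) (l 16778760))))))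 (b (a (a (b (l 16785000) (b (l 16784120) (l 16785016))) (b (l 16782104) (b (l 16780680) (l 16781288)))) (b (a (l 16779696) (a (l 16778520) (l 16757392))) (a (b (l 16777616) (l 16777768)) (a (l 16817784) (b (l 16775456) (l 16774936)))))) (a (b (a (l 16783816) (l 16780280)) (a (b (l 16779320) (l 16774584)) (l 16836392))) (b (a (l 16881008) (a (l 16857344) (l 16814640))) (a (b (l 16772400) (l 16767232)) (b (a (l 16769456) (l 16767840)) (a (l 16764272) (l 16762360)))))))) (b (b (l 16771080) (b (l 16767160) (l 16765696))) (b (l 16846168) (l 16836984)))) (b (b (l 16787288) (a (l 16758392) (l 16759232))) (a (b (l 16750152) (l 16779304)) (b (l 16746776) (l 16729992))))), by decide +kernel⟩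

def k10_pp_123 : ∃ t, chk3 f_pp_123 t 3 6 1 = true :=
  ⟨(a (b (a (b (l 16923520) (a (l 16764904) (l 16773192))) (b (l 16784456) (l 16782104))) (a (b (a (l 16748888) (l 16754344)) (a (l 16728608) (l 16731760))) (b (l 164316010903) (l 1)))) (b (a (l 466574838471) (l 1)) (l 1))), by decide +kernel⟩

def k11_pp_123 : ∃ t, chk3 f_pp_123 t 1 7 1 = true :=
  ⟨(a (a (l 3) (a (a (a (b (b (a (l 3) (b (l 139217471975) (a (l 3) (l 16759664)))) (l 3)) (l 3)) (b (a (b (a (b (l 16766256) (l 16754800)) (b (l 16762008) (l 16750200))) (b (a (l 16746664) (l 16741416)) (a (l 3) (l 16725224)))) (b (a (b (l 16758312) (l 16856208)) (a (l 16770664) (l 16747608))) (a (a (a (l 16730464) (l 16750152)) (l 30635332647)) (a (a (l 16746512) (l 16745200)) (l 16785104))))) (l 1))) (b (b (a (l 16886664) (l 16727216)) (b (l 16711560) (l 16691032))) (l 1))) (b (b (a (b (l 16720528) (l 16704728)) (l 16702160)) (l 1)) (l 1)))) (l 1)), by decide +kernel⟩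

theorem s12_pp_123 : ∃ t, chk3 f_pp_123 t 2 6 1 = true := ex3_a k8_pp_123 k9_pp_123

theorem s13_pp_123 : ∃ t, chk3 f_pp_123 t 1 6 1 = true := ex3_a s12_pp_123 k10_pp_123

theorem s14_pp_123 : ∃ t, chk3 f_pp_123 t 1 3 1 = true := ex3_b s13_pp_123 k11_pp_123

theorem s15_pp_123 : ∃ t, chk3 f_pp_123 t 9 5 1 = true := ex3_a k4_pp_123 k5_pp_123

theorem s16_pp_123 : ∃ t, chk3 f_pp_123 t 4 5 1 = true := ex3_a k3_pp_123 s15_pp_123

theorem s17_pp_123 : ∃ t, chk3 f_pp_123 t 2 5 1 = true := ex3_a s16_pp_123 k6_pp_123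

theorem s18_pp_123 : ∃ t, chk3 f_pp_123 t 1 5 1 = true := ex3_a s17_pp_123 k7_pp_123

theorem s19_pp_123 : ∃ t, chk3 f_pp_123 t 2 4 1 = true := ex3_a k0_pp_123 k1_pp_123

theorem s20_pp_123 : ∃ t, chk3 f_pp_123 t 1 4 1 = true := ex3_a s19_pp_123 k2_pp_123

theorem s21_pp_123 : ∃ t, chk3 f_pp_123 t 1 2 1 = true := ex3_b s20_pp_123 s18_pp_123

theorem s22_pp_123 : ∃ t, chk3 f_pp_123 t 1 1 1 = true := ex3_b s21_pp_123 s14_pp_123

theorem c_pp_123 : CertB 536870912 536870912 0 1230186008 536870912 50465866 3 eng mog cd0q1 cd5q3 pd2 false true true .npn 1 2 3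
    ndB0q1 ndB5q3 pcB2 cut_pp_123 Ext.none :=
  certB2 (fam := false) (s1 := true) (s2 := true) (a := 1) (b := 2) (c := 3) (cn := .npn) (n1 := ndB0q1) (n2 := ndB5q3) (pc := pcB2) (cut := cut_pp_123) (xt := Ext.none) (P1 := 536870912) (W1 := 536870912) (P2 := 0) (W2 := 1230186008) (P3 := 536870912) (W3 := 50465866) (N0 := 3) (En := eng) (mo := mog) (C1 := cd0q1) (C2 := cd5q3) (C3 := pd2)
    rfl (fun _ => rfl) s22_pp_123

noncomputable def f_pp_133 : ℕ → ℕ → ℕ → ℕ → Bool := onCell 1610612736 536870912 0 1230186008 536870912 50465866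
    (rowB 3 eng mog cd0q1 cd5q3 pd3 2 false true true .dn 1 3 3 (qsf 536870912 536870912 0 1230186008 3) ndB0q1 ndB5q3 pcB3 Cut.none Ext.none)

def k0_pp_133 : ∃ t, chk3 f_pp_133 t 1 1 1 = true :=
  ⟨(b (b (a (a (a (l 962643496839) (l 1)) (l 1)) (l 1)) (l 1)) (l 1)), by decide +kernel⟩

theorem c_pp_133 : CertB 536870912 536870912 0 1230186008 536870912 50465866 3 eng mog cd0q1 cd5q3 pd3 false true true .dn 1 3 3
    ndB0q1 ndB5q3 pcB3 Cut.none Ext.none :=
  certB2 (fam := false) (s1 := true) (s2 := true) (a := 1) (b := 3) (c := 3) (cn := .dn) (n1 := ndB0q1) (n2 := ndB5q3) (pc := pcB3) (cut := Cut.none) (xt := Ext.none) (P1 := 536870912) (W1 := 536870912) (P2 := 0) (W2 := 1230186008) (P3 := 536870912) (W3 := 50465866) (N0 := 3) (En := eng) (mo := mog) (C1 := cd0q1) (C2 := cd5q3) (C3 := pd3)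
    rfl (fun _ => rfl) k0_pp_133

noncomputable def f_pp_202 : ℕ → ℕ → ℕ → ℕ → Bool := onCell 0 536870912 1073741824 536870912 536870912 50465866
    (rowB 3 eng mog cd0q2 cd5q2 pd0 0 false true true .pp 2 0 2 (qsf 0 536870912 1073741824 536870912 0) ndB0q2 ndB5q2 pcB0 Cut.none Ext.none)

def k0_pp_202 : ∃ t, chk3 f_pp_202 t 1 1 1 = true :=
  ⟨(l 5), by decide +kernel⟩

theorem c_pp_202 : CertB 0 536870912 1073741824 536870912 536870912 50465866 3 eng mog cd0q2 cd5q2 pd0 false true true .pp 2 0 2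
    ndB0q2 ndB5q2 pcB0 Cut.none Ext.none :=
  certB0 (fam := false) (s1 := true) (s2 := true) (a := 2) (b := 0) (c := 2) (cn := .pp) (n1 := ndB0q2) (n2 := ndB5q2) (pc := pcB0) (cut := Cut.none) (xt := Ext.none) (P1 := 0) (W1 := 536870912) (P2 := 1073741824) (W2 := 536870912) (P3 := 536870912) (W3 := 50465866) (N0 := 3) (En := eng) (mo := mog) (C1 := cd0q2) (C2 := cd5q2) (C3 := pd0)
    rfl k0_pp_202

noncomputable def f_pp_203 : ℕ → ℕ → ℕ → ℕ → Bool := onCell 0 536870912 0 1230186008 536870912 50465866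
    (rowB 3 eng mog cd0q2 cd5q3 pd0 0 false true true .up 2 0 3 (qsf 0 536870912 0 1230186008 0) ndB0q2 ndB5q3 pcB0 Cut.none Ext.none)

def k0_pp_203 : ∃ t, chk3 f_pp_203 t 1 1 1 = true :=
  ⟨(b (l 2) (b (l 2) (a (l 3) (l 3)))), by decide +kernel⟩

theorem c_pp_203 : CertB 0 536870912 0 1230186008 536870912 50465866 3 eng mog cd0q2 cd5q3 pd0 false true true .up 2 0 3
    ndB0q2 ndB5q3 pcB0 Cut.none Ext.none :=
  certB0 (fam := false) (s1 := true) (s2 := true) (a := 2) (b := 0) (c := 3) (cn := .up) (n1 := ndB0q2) (n2 := ndB5q3) (pc := pcB0) (cut := Cut.none) (xt := Ext.none) (P1 := 0) (W1 := 536870912) (P2 := 0) (W2 := 1230186008) (P3 := 536870912) (W3 := 50465866) (N0 := 3) (En := eng) (mo := mog) (C1 := cd0q2) (C2 := cd5q3) (C3 := pd0)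
    rfl k0_pp_203

noncomputable def cut_pp_213 : Cut := Cut.of [[⟨0, 1, 0, 67108864⟩, ⟨1, 1, 0, 67108864⟩, ⟨2, 2, 0, 16777216⟩]]

noncomputable def f_pp_213 : ℕ → ℕ → ℕ → ℕ → Bool := onCell 0 536870912 0 1230186008 536870912 50465866
    (rowB 3 eng mog cd0q2 cd5q3 pd1 0 false true true .pnn 2 1 3 (qsf 0 536870912 0 1230186008 1) ndB0q2 ndB5q3 pcB1 cut_pp_213 Ext.none)

def k0_pp_213 : ∃ t, chk3 f_pp_213 t 1 1 1 = true :=
  ⟨(b (a (l 3) (b (a (l 3) (a (l 3) (b (l 6) (l 3)))) (l 3))) (b (l 3) (a (l 3) (l 3)))), by decide +kernel⟩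

theorem c_pp_213 : CertB 0 536870912 0 1230186008 536870912 50465866 3 eng mog cd0q2 cd5q3 pd1 false true true .pnn 2 1 3
    ndB0q2 ndB5q3 pcB1 cut_pp_213 Ext.none :=
  certB0 (fam := false) (s1 := true) (s2 := true) (a := 2) (b := 1) (c := 3) (cn := .pnn) (n1 := ndB0q2) (n2 := ndB5q3) (pc := pcB1) (cut := cut_pp_213) (xt := Ext.none) (P1 := 0) (W1 := 536870912) (P2 := 0) (W2 := 1230186008) (P3 := 536870912) (W3 := 50465866) (N0 := 3) (En := eng) (mo := mog) (C1 := cd0q2) (C2 := cd5q3) (C3 := pd1)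
    rfl k0_pp_213

noncomputable def f_pm_001 : ℕ → ℕ → ℕ → ℕ → Bool := onCell 0 536870912 536870912 536870912 536870912 50465866
    (rowB 3 eng mog cd0q0 cd5q1 pd0 0 false true false .up 0 0 1 (qsf 0 536870912 536870912 536870912 0) ndB0q0 ndB5q1 pcB0 Cut.none Ext.none)

def k0_pm_001 : ∃ t, chk3 f_pm_001 t 1 1 1 = true :=
  ⟨(l 4), by decide +kernel⟩

theorem c_pm_001 : CertB 0 536870912 536870912 536870912 536870912 50465866 3 eng mog cd0q0 cd5q1 pd0 false true false .up 0 0 1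
    ndB0q0 ndB5q1 pcB0 Cut.none Ext.none :=
  certB0 (fam := false) (s1 := true) (s2 := false) (a := 0) (b := 0) (c := 1) (cn := .up) (n1 := ndB0q0) (n2 := ndB5q1) (pc := pcB0) (cut := Cut.none) (xt := Ext.none) (P1 := 0) (W1 := 536870912) (P2 := 536870912) (W2 := 536870912) (P3 := 536870912) (W3 := 50465866) (N0 := 3) (En := eng) (mo := mog) (C1 := cd0q0) (C2 := cd5q1) (C3 := pd0)
    rfl k0_pm_001

noncomputable def f_pm_011 : ℕ → ℕ → ℕ → ℕ → Bool := onCell 0 536870912 536870912 536870912 536870912 50465866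
    (rowB 3 eng mog cd0q0 cd5q1 pd1 0 false true false .pnn 0 1 1 (qsf 0 536870912 536870912 536870912 1) ndB0q0 ndB5q1 pcB1 Cut.none Ext.none)

def k0_pm_011 : ∃ t, chk3 f_pm_011 t 1 1 1 = true :=
  ⟨(l 4), by decide +kernel⟩

theorem c_pm_011 : CertB 0 536870912 536870912 536870912 536870912 50465866 3 eng mog cd0q0 cd5q1 pd1 false true false .pnn 0 1 1
    ndB0q0 ndB5q1 pcB1 Cut.none Ext.none :=
  certB0 (fam := false) (s1 := true) (s2 := false) (a := 0) (b := 1) (c := 1) (cn := .pnn) (n1 := ndB0q0) (n2 := ndB5q1) (pc := pcB1) (cut := Cut.none) (xt := Ext.none) (P1 := 0) (W1 := 536870912) (P2 := 536870912) (W2 := 536870912) (P3 := 536870912) (W3 := 50465866) (N0 := 3) (En := eng) (mo := mog) (C1 := cd0q0) (C2 := cd5q1) (C3 := pd1)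
    rfl k0_pm_011

noncomputable def f_pm_012 : ℕ → ℕ → ℕ → ℕ → Bool := onCell 0 536870912 1073741824 536870912 536870912 50465866
    (rowB 3 eng mog cd0q0 cd5q2 pd1 0 false true false .pnp 0 1 2 (qsf 0 536870912 1073741824 536870912 1) ndB0q0 ndB5q2 pcB1 Cut.none Ext.none)

def k0_pm_012 : ∃ t, chk3 f_pm_012 t 1 1 1 = true :=
  ⟨(l 4), by decide +kernel⟩

theorem c_pm_012 : CertB 0 536870912 1073741824 536870912 536870912 50465866 3 eng mog cd0q0 cd5q2 pd1 false true false .pnp 0 1 2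
    ndB0q0 ndB5q2 pcB1 Cut.none Ext.none :=
  certB0 (fam := false) (s1 := true) (s2 := false) (a := 0) (b := 1) (c := 2) (cn := .pnp) (n1 := ndB0q0) (n2 := ndB5q2) (pc := pcB1) (cut := Cut.none) (xt := Ext.none) (P1 := 0) (W1 := 536870912) (P2 := 1073741824) (W2 := 536870912) (P3 := 536870912) (W3 := 50465866) (N0 := 3) (En := eng) (mo := mog) (C1 := cd0q0) (C2 := cd5q2) (C3 := pd1)
    rfl k0_pm_012

noncomputable def f_pm_022 : ℕ → ℕ → ℕ → ℕ → Bool := onCell 0 536870912 1073741824 536870912 536870912 50465866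
    (rowB 3 eng mog cd0q0 cd5q2 pd2 0 false true false .pp 0 2 2 (qsf 0 536870912 1073741824 536870912 2) ndB0q0 ndB5q2 pcB2 Cut.none Ext.none)

def k0_pm_022 : ∃ t, chk3 f_pm_022 t 1 1 1 = true :=
  ⟨(l 4), by decide +kernel⟩

theorem c_pm_022 : CertB 0 536870912 1073741824 536870912 536870912 50465866 3 eng mog cd0q0 cd5q2 pd2 false true false .pp 0 2 2
    ndB0q0 ndB5q2 pcB2 Cut.none Ext.none :=
  certB0 (fam := false) (s1 := true) (s2 := false) (a := 0) (b := 2) (c := 2) (cn := .pp) (n1 := ndB0q0) (n2 := ndB5q2) (pc := pcB2) (cut := Cut.none) (xt := Ext.none) (P1 := 0) (W1 := 536870912) (P2 := 1073741824) (W2 := 536870912) (P3 := 536870912) (W3 := 50465866) (N0 := 3) (En := eng) (mo := mog) (C1 := cd0q0) (C2 := cd5q2) (C3 := pd2)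
    rfl k0_pm_022

noncomputable def f_pm_023 : ℕ → ℕ → ℕ → ℕ → Bool := onCell 0 536870912 0 1230186008 536870912 50465866
    (rowB 3 eng mog cd0q0 cd5q3 pd2 0 false true false .up 0 2 3 (qsf 0 536870912 0 1230186008 2) ndB0q0 ndB5q3 pcB2 Cut.none Ext.none)

def k0_pm_023 : ∃ t, chk3 f_pm_023 t 1 1 1 = true :=
  ⟨(a (b (l 2) (l 4)) (b (a (l 2) (b (a (l 2) (b (l 16739080) (l 16736400))) (a (l 4) (b (l 16734248) (l 4))))) (l 4))), by decide +kernel⟩

theorem c_pm_023 : CertB 0 536870912 0 1230186008 536870912 50465866 3 eng mog cd0q0 cd5q3 pd2 false true false .up 0 2 3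
    ndB0q0 ndB5q3 pcB2 Cut.none Ext.none :=
  certB0 (fam := false) (s1 := true) (s2 := false) (a := 0) (b := 2) (c := 3) (cn := .up) (n1 := ndB0q0) (n2 := ndB5q3) (pc := pcB2) (cut := Cut.none) (xt := Ext.none) (P1 := 0) (W1 := 536870912) (P2 := 0) (W2 := 1230186008) (P3 := 536870912) (W3 := 50465866) (N0 := 3) (En := eng) (mo := mog) (C1 := cd0q0) (C2 := cd5q3) (C3 := pd2)
    rfl k0_pm_023

noncomputable def f_pm_033 : ℕ → ℕ → ℕ → ℕ → Bool := onCell 1610612736 536870912 0 1230186008 536870912 50465866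
    (rowB 3 eng mog cd0q0 cd5q3 pd3 2 false true false .pnn 0 3 3 (qsf 0 536870912 0 1230186008 3) ndB0q0 ndB5q3 pcB3 Cut.none Ext.none)

def k0_pm_033 : ∃ t, chk3 f_pm_033 t 1 1 1 = true :=
  ⟨(b (b (a (a (a (l 16743272) (l 16735120)) (a (l 16732416) (l 4))) (l 4)) (a (a (a (b (l 16736384) (l 4)) (l 4)) (l 4)) (l 4))) (l 4)), by decide +kernel⟩

theorem c_pm_033 : CertB 0 536870912 0 1230186008 536870912 50465866 3 eng mog cd0q0 cd5q3 pd3 false true false .pnn 0 3 3
    ndB0q0 ndB5q3 pcB3 Cut.none Ext.none :=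
  certB2 (fam := false) (s1 := true) (s2 := false) (a := 0) (b := 3) (c := 3) (cn := .pnn) (n1 := ndB0q0) (n2 := ndB5q3) (pc := pcB3) (cut := Cut.none) (xt := Ext.none) (P1 := 0) (W1 := 536870912) (P2 := 0) (W2 := 1230186008) (P3 := 536870912) (W3 := 50465866) (N0 := 3) (En := eng) (mo := mog) (C1 := cd0q0) (C2 := cd5q3) (C3 := pd3)
    rfl (fun _ => rfl) k0_pm_033

noncomputable def f_pm_101 : ℕ → ℕ → ℕ → ℕ → Bool := onCell 536870912 536870912 536870912 536870912 536870912 50465866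
    (rowB 3 eng mog cd0q1 cd5q1 pd0 0 false true false .npn 1 0 1 (qsf 536870912 536870912 536870912 536870912 0) ndB0q1 ndB5q1 pcB0 Cut.none Ext.none)

def k0_pm_101 : ∃ t, chk3 f_pm_101 t 1 1 1 = true :=
  ⟨(l 4), by decide +kernel⟩

theorem c_pm_101 : CertB 536870912 536870912 536870912 536870912 536870912 50465866 3 eng mog cd0q1 cd5q1 pd0 false true false .npn 1 0 1
    ndB0q1 ndB5q1 pcB0 Cut.none Ext.none :=
  certB0 (fam := false) (s1 := true) (s2 := false) (a := 1) (b := 0) (c := 1) (cn := .npn) (n1 := ndB0q1) (n2 := ndB5q1) (pc := pcB0) (cut := Cut.none) (xt := Ext.none) (P1 := 536870912) (W1 := 536870912) (P2 := 536870912) (W2 := 536870912) (P3 := 536870912) (W3 := 50465866) (N0 := 3) (En := eng) (mo := mog) (C1 := cd0q1) (C2 := cd5q1) (C3 := pd0)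
    rfl k0_pm_101

noncomputable def f_pm_102 : ℕ → ℕ → ℕ → ℕ → Bool := onCell 536870912 536870912 0 536870912 536870912 50465866
    (rowB 3 eng mog cd0q1 cd5q2 pd0 1 false true false .npp 1 0 2 (qsf 536870912 536870912 1073741824 536870912 0) ndB0q1 ndB5q2 pcB0 Cut.none Ext.none)

def k0_pm_102 : ∃ t, chk3 f_pm_102 t 1 1 1 = true :=
  ⟨(a (l 4) (b (a (l 4) (b (a (l 4) (b (a (l 4) (b (a (a (l 117808995959) (a (l 151430558311) (l 164315440343))) (b (l 156262359095) (l 16621832))) (a (b (l 16602648) (l 16613720)) (l 16639384)))) (a (b (l 16586592) (l 16607808)) (b (l 16646248) (l 16668808))))) (b (a (l 4) (a (b (l 16628904) (l 16649744)) (b (l 16691200) (l 16713752)))) (a (a (l 4) (l 118346673959)) (a (b (l 16670968) (l 16696400)) (l 16756208)))))) (b (a (l 4) (a (b (b (l 16750952) (l 18488742935)) (a (l 16658384) (l 16730016))) (b (a (l 16742592) (b (l 16808464) (l 16845064))) (a (l 16805192) (b (l 16872512) (l 16898944)))))) (a (b (l 4) (a (l 4)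 (l 16673296))) (b (a (l 16757288) (a (l 16855864) (l 16940840))) (b (a (l 16806184) (l 17144992)) (a (l 16828688) (l 16957224)))))))), by decide +kernel⟩

theorem c_pm_102 : CertB 536870912 536870912 1073741824 536870912 536870912 50465866 3 eng mog cd0q1 cd5q2 pd0 false true false .npp 1 0 2
    ndB0q1 ndB5q2 pcB0 Cut.none Ext.none :=
  certB1 (fam := false) (s1 := true) (s2 := false) (a := 1) (b := 0) (c := 2) (cn := .npp) (n1 := ndB0q1) (n2 := ndB5q2) (pc := pcB0) (cut := Cut.none) (xt := Ext.none) (P1 := 536870912) (W1 := 536870912) (P2 := 1073741824) (W2 := 536870912) (P3 := 536870912) (W3 := 50465866) (N0 := 3) (En := eng) (mo := mog) (C1 := cd0q1) (C2 := cd5q2) (C3 := pd0)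
    rfl (fun _ => rfl) k0_pm_102

noncomputable def f_pm_112 : ℕ → ℕ → ℕ → ℕ → Bool := onCell 536870912 536870912 1073741824 536870912 536870912 50465866
    (rowB 3 eng mog cd0q1 cd5q2 pd1 2 false true false .dn 1 1 2 (qsf 536870912 536870912 1073741824 536870912 1) ndB0q1 ndB5q2 pcB1 Cut.none Ext.none)

def k0_pm_112 : ∃ t, chk3 f_pm_112 t 1 1 1 = true :=
  ⟨(a (b (l 4) (a (b (a (b (l 4) (l 16660824)) (l 4)) (a (b (a (l 16818472) (l 16779008)) (a (l 16928784) (l 16892864))) (b (l 16716816) (l 16837864)))) (b (l 4) (a (b (l 4) (l 16763888)) (l 4))))) (l 4)), by decide +kernel⟩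

theorem c_pm_112 : CertB 536870912 536870912 1073741824 536870912 536870912 50465866 3 eng mog cd0q1 cd5q2 pd1 false true false .dn 1 1 2
    ndB0q1 ndB5q2 pcB1 Cut.none Ext.none :=
  certB2 (fam := false) (s1 := true) (s2 := false) (a := 1) (b := 1) (c := 2) (cn := .dn) (n1 := ndB0q1) (n2 := ndB5q2) (pc := pcB1) (cut := Cut.none) (xt := Ext.none) (P1 := 536870912) (W1 := 536870912) (P2 := 1073741824) (W2 := 536870912) (P3 := 536870912) (W3 := 50465866) (N0 := 3) (En := eng) (mo := mog) (C1 := cd0q1) (C2 := cd5q2) (C3 := pd1)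
    rfl (fun _ => rfl) k0_pm_112

noncomputable def cut_pm_113 : Cut := Cut.of [[⟨0, 1, 0, 67108864⟩, ⟨1, 1, 0, 67108864⟩, ⟨2, 2, 0, 16777216⟩]]

noncomputable def f_pm_113 : ℕ → ℕ → ℕ → ℕ → Bool := onCell 536870912 536870912 0 1230186008 536870912 50465866
    (rowB 3 eng mog cd0q1 cd5q3 pd1 0 false true false .nn 1 1 3 (qsf 536870912 536870912 0 1230186008 1) ndB0q1 ndB5q3 pcB1 cut_pm_113 Ext.none)

def k0_pm_113 : ∃ t, chk3 f_pm_113 t 1 1 1 = true :=
  ⟨(b (a (l 2) (a (l 2) (b (a (l 2) (a (l 2) (b (l 6) (b (l 6) (l 16795232))))) (a (b (a (l 2) (l 16825256)) (l 16853656)) (b (a (l 16816960) (l 16812832)) (b (l 16834720) (l 16850648))))))) (b (b (a (l 2) (a (a (l 2) (l 16880632)) (a (l 16877736) (b (l 16867976) (l 16883608))))) (a (a (l 2) (a (l 2) (b (l 2) (l 16845840)))) (a (a (l 135392827639) (b (l 16879824) (l 16876720))) (a (b (l 16890176) (l 16896624)) (l 16903632))))) (a (a (l 4) (b (a (l 4) (b (l 179953010727) (l 16785960))) (l 4))) (b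 (a (a (b (l 16851320) (l 16868920)) (b (l 16872192) (l 16859088))) (a (b (l 16901608) (l 16898480)) (b (l 16918968) (l 16926176)))) (a (b (a (a (l 16793736) (l 16813960)) (l 16845168)) (a (l 16784624) (b (l 16837320) (l 16833992)))) (b (a (b (l 16894920) (l 16897280)) (b (l 16944648) (l 16964376))) (a (a (l 16884888) (l 16919184)) (a (l 16952736) (l 17024120))))))))), by decide +kernel⟩

theorem c_pm_113 : CertB 536870912 536870912 0 1230186008 536870912 50465866 3 eng mog cd0q1 cd5q3 pd1 false true false .nn 1 1 3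
    ndB0q1 ndB5q3 pcB1 cut_pm_113 Ext.none :=
  certB0 (fam := false) (s1 := true) (s2 := false) (a := 1) (b := 1) (c := 3) (cn := .nn) (n1 := ndB0q1) (n2 := ndB5q3) (pc := pcB1) (cut := cut_pm_113) (xt := Ext.none) (P1 := 536870912) (W1 := 536870912) (P2 := 0) (W2 := 1230186008) (P3 := 536870912) (W3 := 50465866) (N0 := 3) (En := eng) (mo := mog) (C1 := cd0q1) (C2 := cd5q3) (C3 := pd1)
    rfl k0_pm_113

noncomputable def cut_pm_123 : Cut := Cut.of [[⟨0, 1, 0, 67108864⟩, ⟨1, 1, 0, 67108864⟩, ⟨2, 2, 0, 16777216⟩]]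

noncomputable def f_pm_123 : ℕ → ℕ → ℕ → ℕ → Bool := onCell 1073741824 536870912 0 1230186008 536870912 50465866
    (rowB 3 eng mog cd0q1 cd5q3 pd2 2 false true false .npn 1 2 3 (qsf 536870912 536870912 0 1230186008 2) ndB0q1 ndB5q3 pcB2 cut_pm_123 Ext.none)

def k0_pm_123 : ∃ t, chk3 f_pm_123 t 1 1 1 = true :=
  ⟨(b (b (a (a (a (b (a (l 6) (l 16773136)) (a (l 16787840) (l 16781464))) (b (a (l 16768312) (l 16762160)) (l 16768600))) (a (a (a (l 16756624) (b (l 16921680) (l 16753720))) (b (l 16751496) (l 16751632))) (l 16752152))) (a (a (l 16752800) (l 16746416)) (a (l 16744760) (b (l 16744064) (l 16741192))))) (a (a (a (b (a (l 16811632) (l 16799264)) (b (l 16824920) (l 16838000))) (b (a (l 16786024) (l 16773712)) (b (l 16792104) (l 16801672)))) (a (b (l 16846200) (a (l 16779584) (l 16772392))) (b (l 16758432) (l 16765416)))) (a (a (b (l 16755872) (l 16754048)) (b (l 16750176) (l 16744280))) (a (b (l 16744216) (l 16734600)) (b (l 16736568) (l 4))))))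 (b (a (a (b (a (b (l 17037576) (l 16982376)) (b (l 16811336) (l 16814528))) (a (b (l 16847344) (a (l 16843496) (l 16809496))) (b (l 16798984) (l 16993672)))) (b (a (a (l 16790088) (l 16775224)) (b (l 16761440) (l 16748640))) (b (a (a (l 16763088) (l 16742976)) (l 4)) (l 4)))) (a (b (a (a (l 16741368) (l 16734104)) (a (l 16725928) (l 4))) (l 4)) (l 4))) (a (a (b (a (b (a (l 16793304) (l 16751256)) (l 4)) (l 4)) (l 4)) (l 4)) (l 1)))), by decide +kernel⟩

theorem c_pm_123 : CertB 536870912 536870912 0 1230186008 536870912 50465866 3 eng mog cd0q1 cd5q3 pd2 false true false .npn 1 2 3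
    ndB0q1 ndB5q3 pcB2 cut_pm_123 Ext.none :=
  certB2 (fam := false) (s1 := true) (s2 := false) (a := 1) (b := 2) (c := 3) (cn := .npn) (n1 := ndB0q1) (n2 := ndB5q3) (pc := pcB2) (cut := cut_pm_123) (xt := Ext.none) (P1 := 536870912) (W1 := 536870912) (P2 := 0) (W2 := 1230186008) (P3 := 536870912) (W3 := 50465866) (N0 := 3) (En := eng) (mo := mog) (C1 := cd0q1) (C2 := cd5q3) (C3 := pd2)
    rfl (fun _ => rfl) k0_pm_123

noncomputable def f_pm_133 : ℕ → ℕ → ℕ → ℕ → Bool := onCell 1610612736 536870912 0 1230186008 536870912 50465866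
    (rowB 3 eng mog cd0q1 cd5q3 pd3 2 false true false .dn 1 3 3 (qsf 536870912 536870912 0 1230186008 3) ndB0q1 ndB5q3 pcB3 Cut.none Ext.none)

def k0_pm_133 : ∃ t, chk3 f_pm_133 t 1 1 1 = true :=
  ⟨(b (b (a (a (a (l 16742664) (l 1)) (l 1)) (l 1)) (l 1)) (l 1)), by decide +kernel⟩

theorem c_pm_133 : CertB 536870912 536870912 0 1230186008 536870912 50465866 3 eng mog cd0q1 cd5q3 pd3 false true false .dn 1 3 3
    ndB0q1 ndB5q3 pcB3 Cut.none Ext.none :=
  certB2 (fam := false) (s1 := true) (s2 := false) (a := 1) (b := 3) (c := 3) (cn := .dn) (n1 := ndB0q1) (n2 := ndB5q3) (pc := pcB3) (cut := Cut.none) (xt := Ext.none) (P1 := 536870912) (W1 := 536870912) (P2 := 0) (W2 := 1230186008) (P3 := 536870912) (W3 := 50465866) (N0 := 3) (En := eng) (mo := mog) (C1 := cd0q1) (C2 := cd5q3) (C3 := pd3)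
    rfl (fun _ => rfl) k0_pm_133

noncomputable def f_pm_202 : ℕ → ℕ → ℕ → ℕ → Bool := onCell 0 536870912 0 536870912 536870912 50465866
    (rowB 3 eng mog cd0q2 cd5q2 pd0 1 false true false .pp 2 0 2 (qsf 0 536870912 1073741824 536870912 0) ndB0q2 ndB5q2 pcB0 Cut.none Ext.none)

def k0_pm_202 : ∃ t, chk3 f_pm_202 t 2 1 1 = true :=
  ⟨(b (b (a (b (a (b (a (l 16554096) (l 16571544)) (l 16563080)) (b (b (a (l 16587752) (l 16601744)) (l 16601552)) (l 16604552))) (a (b (a (b (l 16545376) (a (l 16529816) (l 16545848))) (l 16568512)) (a (b (a (l 16528232) (l 16537152)) (l 16531352)) (b (l 16561240) (l 16553008)))) (b (l 16605032) (l 16602168)))) (b (b (a (l 16628944) (l 16652424)) (a (a (l 16630168) (l 16644488)) (l 16665304))) (a (b (l 16648368) (l 16650168)) (b (l 16675912) (l 16687608))))) (a (b (a (b (a (b (l 16524648) (l 16515608)) (b (l 16553560) (l 16546400))) (a (a (l 16517232) (l 16516264)) (l 16582408))) (b (a (b (l 16578656) (l 16575568))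 (l 16609760)) (a (l 16566512) (l 16589912)))) (a (b (a (l 16536376) (l 16527544)) (a (a (l 16548304) (l 16553928)) (l 16526800))) (a (b (l 16532712) (l 16544320)) (b (l 16576000) (l 16565752))))) (b (a (b (l 16651304) (b (l 16644328) (l 16692328))) (b (l 16697952) (l 16694744))) (a (b (a (l 16601144) (l 16631912)) (a (l 16587288) (l 16614392))) (b (l 16685712) (l 16673672)))))) (b (a (b (a (a (b (a (l 16590000) (l 16574632)) (a (l 16631344) (l 16593784))) (b (l 16549600) (a (l 16575344) (l 16556296)))) (b (a (l 16546672) (l 16563736)) (a (l 16552960) (l 16572632)))) (a (b (a (a (l 169818750199) (l 16635560)) (a (l 16595160) (l 16572272))) (b (a (l 191830408599) (l 16599488)) (l 2))) (a (b (l 16614464) (b (l 16574488) (l 2))) (l 16599128)))) (b (a (b (l 16594336) (l 16771976)) (b (l 16678896) (l 16642648))) (a (a (l 16625552) (l 16643552)) (b (l 16665088) (l 16720104))))) (a (l 2) (b (a (l 2) (b (l 16720904) (l 2))) (l 2))))), by decide +kernel⟩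

def k1_pm_202 : ∃ t, chk3 f_pm_202 t 3 1 1 = true :=
  ⟨(b (b (b (a (a (b (a (l 16663000) (l 16666280)) (l 16679792)) (b (a (l 16666408) (b (l 16660544) (l 16667576))) (a (l 16682504) (l 16681064)))) (a (b (b (a (l 16655320) (l 16648032)) (l 16660168)) (a (a (l 16679216) (l 16677632)) (l 16675616))) (b (a (b (b (l 16637320) (l 16642192)) (l 16650976)) (b (a (b (b (l 16629424) (l 16631872)) (l 16636352)) (a (b (b (l 16625344) (l 16628688)) (l 16635256)) (b (a (b (l 16621304) (l 16628096)) (b (l 16623984) (l 16629488))) (l 16638144)))) (a (l 16649232) (a (l 16653072) (l 16646712))))) (a (l 16675736) (a (l 16683808) (l 16504528)))))) (a (a (b (l 16697144) (l 16714064)) (b (a (l 16702624) (l 16703680)) (l 16727856))) (a (b (a (l 16725616) (l 16707808)) (a (l 16735864) (a (l 16742400) (l 16749056)))) (a (b (l 16717744) (l 16765448)) (b (l 16706336) (l 16727856)))))) (a (b (a (b (l 16726688) (l 16737232)) (b (l 16751592) (l 16771808))) (a (l 16743944)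 (b (l 16784528) (l 16794240)))) (b (a (b (a (l 16768496) (l 16785976)) (l 16810464)) (b (a (l 16803752) (l 16750248)) (a (l 16832320) (l 16776280)))) (a (l 16852896) (b (l 16835904) (l 16870432)))))) (b (a (b (a (b (l 16725744) (l 16709072)) (b (l 16800080) (l 16798120))) (a (b (l 16723416) (l 16755632)) (l 16980400))) (b (a (b (l 16876656) (l 16888832)) (b (l 16913416) (l 16963240))) (a (b (l 16925832) (l 16960664)) (b (l 16987936) (l 17014032))))) (b (a (a (l 16798752) (l 16905256)) (a (l 17005744) (b (l 17028608) (l 17043576)))) (a (l 2) (a (l 17079056) (b (l 17037400) (l 17077152))))))), by decide +kernel⟩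

theorem s2_pm_202 : ∃ t, chk3 f_pm_202 t 1 1 1 = true := ex3_a k0_pm_202 k1_pm_202

theorem c_pm_202 : CertB 0 536870912 1073741824 536870912 536870912 50465866 3 eng mog cd0q2 cd5q2 pd0 false true false .pp 2 0 2
    ndB0q2 ndB5q2 pcB0 Cut.none Ext.none :=
  certB1 (fam := false) (s1 := true) (s2 := false) (a := 2) (b := 0) (c := 2) (cn := .pp) (n1 := ndB0q2) (n2 := ndB5q2) (pc := pcB0) (cut := Cut.none) (xt := Ext.none) (P1 := 0) (W1 := 536870912) (P2 := 1073741824) (W2 := 536870912) (P3 := 536870912) (W3 := 50465866) (N0 := 3) (En := eng) (mo := mog) (C1 := cd0q2) (C2 := cd5q2) (C3 := pd0)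
    rfl (fun _ => rfl) s2_pm_202

noncomputable def f_pm_203 : ℕ → ℕ → ℕ → ℕ → Bool := onCell 0 536870912 0 1230186008 536870912 50465866
    (rowB 3 eng mog cd0q2 cd5q3 pd0 0 false true false .up 2 0 3 (qsf 0 536870912 0 1230186008 0) ndB0q2 ndB5q3 pcB0 Cut.none Ext.none)

def k0_pm_203 : ∃ t, chk3 f_pm_203 t 1 1 1 = true :=
  ⟨(b (l 2) (b (l 2) (a (b (b (l 2) (b (a (l 2) (l 2)) (a (a (l 3) (a (l 3) (l 172503348839))) (a (a (l 16723040) (l 16726296)) (l 16760040))))) (a (b (a (l 3) (b (a (l 209010392743) (l 166597567623)) (a (b (l 169818826791) (l 16638464)) (b (l 16666008) (l 16646616))))) (a (b (a (l 3) (a (l 3) (l 170892544503))) (a (l 3) (b (l 171429432343) (l 16671000)))) (b (a (b (l 16612184) (l 16611152)) (b (l 16622816) (l 16592656))) (a (b (l 16609168) (l 16611208)) (a (l 16569792) (l 16557120)))))) (b (a (b (a (l 16679720) (a (l 16709488) (l 16723112))) (a (a (l 16665920) (l 16675584)) (l 16696568))) (l 16764016)) (a (b (l 16642384) (l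 16609512)) (b (l 16722648) (l 16677064)))))) (b (l 2) (a (b (a (l 16847312) (l 16964120)) (a (l 16786992) (b (l 16918472) (l 16863016)))) (b (a (l 17083400) (l 2)) (a (b (l 17083352) (l 17017536)) (b (l 17119336) (l 17116072))))))))), by decide +kernel⟩

theorem c_pm_203 : CertB 0 536870912 0 1230186008 536870912 50465866 3 eng mog cd0q2 cd5q3 pd0 false true false .up 2 0 3
    ndB0q2 ndB5q3 pcB0 Cut.none Ext.none :=
  certB0 (fam := false) (s1 := true) (s2 := false) (a := 2) (b := 0) (c := 3) (cn := .up) (n1 := ndB0q2) (n2 := ndB5q3) (pc := pcB0) (cut := Cut.none) (xt := Ext.none) (P1 := 0) (W1 := 536870912) (P2 := 0) (W2 := 1230186008) (P3 := 536870912) (W3 := 50465866) (N0 := 3) (En := eng) (mo := mog) (C1 := cd0q2) (C2 := cd5q3) (C3 := pd0)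
    rfl k0_pm_203

noncomputable def cut_pm_213 : Cut := Cut.of [[⟨0, 1, 0, 67108864⟩, ⟨1, 1, 0, 67108864⟩, ⟨2, 2, 0, 16777216⟩]]

noncomputable def f_pm_213 : ℕ → ℕ → ℕ → ℕ → Bool := onCell 0 536870912 0 1230186008 536870912 50465866
    (rowB 3 eng mog cd0q2 cd5q3 pd1 0 false true false .pnn 2 1 3 (qsf 0 536870912 0 1230186008 1) ndB0q2 ndB5q3 pcB1 cut_pm_213 Ext.none)

def k0_pm_213 : ∃ t, chk3 f_pm_213 t 2 2 1 = true :=
  ⟨(l 3), by decide +kernel⟩

def k1_pm_213 : ∃ t, chk3 f_pm_213 t 3 4 1 = true :=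
  ⟨(a (l 3) (a (b (l 3) (a (b (l 3) (a (l 3) (b (l 3) (a (l 3) (b (l 336785854199) (l 293836186663)))))) (b (a (l 3) (l 6)) (a (b (a (b (l 3) (l 312626671879)) (b (a (l 3) (b (l 289004338183) (l 244444053927))) (a (l 266992634567) (l 16787072)))) (a (b (l 276119453879) (l 16790752)) (l 16790360))) (b (a (b (l 247128408487) (l 16787640)) (l 16787384)) (l 16791600)))))) (b (l 6) (a (b (a (l 6) (l 6)) (a (l 16791024) (l 16792800))) (b (a (l 6) (l 6)) (l 16794600)))))), by decide +kernel⟩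

def k2_pm_213 : ∃ t, chk3 f_pm_213 t 3 5 1 = true :=
  ⟨(a (b (a (l 3) (a (l 3) (b (a (l 3) (b (l 3) (b (l 3) (l 331954044647)))) (a (b (l 3) (a (b (l 3) (l 321753485047)) (b (l 316921646471) (l 300278665863)))) (b (a (b (l 327122188167) (l 309942324279)) (b (l 304036764839) (l 16797864))) (a (b (l 298131181623) (l 16801512)) (l 16802872))))))) (a (b (l 3) (a (l 3) (b (a (l 3) (l 316384801991)) (a (l 240685985911) (b (l 196125653255) (l 16808232)))))) (b (a (b (a (l 3) (a (l 334638385223) (b (l 326585323623) (l 298131171431)))) (a (b (l 344302062599) (l 287930622807)) (b (l 294373100199) (l 16805032)))) (b (a (a (b (l 299204912839) (l 16802248)) (l 16803816)) (l 16809112)) (l 16814728))) (a (b (a (b (l 272361407175) (l 16806424)) (l 16812392)) (l 16819264)) (l 16874528))))) (b (a (b (a (a (b (a (l 3) (b (l 3) (l 330880282679))) (a (b (l 329806541783) (a (l 301889258519) (l 16795312))) (b (l 287393744231) (l 16797040)))) (b (a (b (l 312089799383)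 (l 276119447943)) (b (l 16792576) (l 16795360))) (l 16798832))) (a (l 16819408) (l 16800344))) (a (a (b (a (l 16778072) (l 16801664)) (l 16807448)) (l 16809256)) (l 16833792))) (a (b (l 16802616) (l 16814848)) (l 16811864))) (a (b (a (b (l 16819328) (l 16827768)) (l 16826744)) (a (l 16839416) (l 16840736))) (l 16838216)))), by decide +kernel⟩

def k3_pm_213 : ∃ t, chk3 f_pm_213 t 2 6 1 = true :=
  ⟨(b (a (l 3) (a (l 3) (b (l 3) (a (l 3) (b (a (l 3) (b (l 3) (l 328732838375))) (a (b (l 3) (l 326048461351)) (b (a (l 323900981927) (b (l 236391028823) (l 227801102391))) (a (l 235854159431) (l 16812168))))))))) (a (l 3) (b (a (l 3) (a (b (l 3) (a (l 3) (l 255181582167))) (b (a (b (l 247128442055) (l 228337924071)) (b (l 16814952) (l 16820856))) (a (l 16811384) (l 16828632))))) (a (a (l 3) (b (l 3) (l 254644592567))) (a (b (a (l 267529515319) (l 16803296)) (l 16801544)) (b (l 16828528) (l 16837144))))))), by decide +kernel⟩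

def k4_pm_213 : ∃ t, chk3 f_pm_213 t 3 6 1 = true :=
  ⟨(a (b (a (b (a (a (b (l 3) (a (l 3) (b (l 3) (l 234243542487)))) (b (l 232096075127) (a (b (l 228874834279) (l 140828011239)) (b (l 152102313991) (l 16812416))))) (a (b (b (l 212768708999) (l 16788712)) (l 16796928)) (b (l 16816608) (l 16828840)))) (a (b (a (b (a (a (l 3) (b (l 3) (b (l 3) (a (l 3) (b (c (b (l 283098801191) (l 232632936007)) (l 295983691703)) (l 227264243127)))))) (a (b (a (l 3) (l 228874856071)) (b (a (a (c (a (l 234780419495) (l 135459301191)) (l 230485440967)) (l 133311833751)) (l 16805440)) (a (b (b (b (c (l 222432395191) (l 16804216)) (l 16804736)) (l 16805056)) (l 16805696)) (l 16806752)))) (b (l 135459315447) (l 16808312)))) (a (b (a (l 319606017463) (a (l 310479235799) (l 221358658551))) (l 222432390183)) (l 16811992))) (b (a (l 16811592) (l 16817512)) (l 16821696))) (a (b (a (l 16812448) (l 16819504)) (l 16823744)) (l 16834768))) (b (l 16836896) (l 16854872)))) (b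 (a (l 16881872) (l 16851096)) (a (l 16858896) (l 16864128)))) (a (b (a (b (l 16844600) (l 16860320)) (b (l 16860840) (l 16870936))) (a (b (l 16869472) (l 16878176)) (l 16894064))) (b (l 16871232) (l 16889856)))) (b (a (b (l 16855512) (l 16871888)) (a (l 16868936) (l 16875904))) (a (b (l 16884392) (l 16897544)) (b (l 16897216) (l 16908928))))), by decide +kernel⟩

def k5_pm_213 : ∃ t, chk3 f_pm_213 t 1 7 1 = true :=
  ⟨(a (b (a (a (l 3) (a (l 3) (b (l 3) (b (l 229411583351) (l 175724421943))))) (b (a (a (b (l 263234497591) (l 177335130423)) (b (l 186462094983) (l 16770248))) (b (a (l 16803120) (l 16836840)) (a (l 16797056) (l 16831768)))) (a (a (b (l 166061021527) (l 16740040)) (b (l 16769416) (l 16762432))) (a (b (l 16793536) (l 16790128)) (l 16828104))))) (a (l 1) (b (a (l 1) (b (l 16794400) (l 1))) (l 1)))) (b (a (b (a (l 16905520) (l 16939264)) (a (l 16902424) (l 17018664))) (b (a (l 17180968) (l 16922312)) (a (l 16999136) (l 16958352)))) (a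 (b (a (l 16862392) (l 16984320)) (l 1)) (b (a (l 17136544) (l 17041808)) (a (b (l 17050944) (l 1)) (b (l 17127240) (l 17128968))))))), by decide +kernel⟩

theorem s6_pm_213 : ∃ t, chk3 f_pm_213 t 1 6 1 = true := ex3_a k3_pm_213 k4_pm_213

theorem s7_pm_213 : ∃ t, chk3 f_pm_213 t 1 3 1 = true := ex3_b s6_pm_213 k5_pm_213

theorem s8_pm_213 : ∃ t, chk3 f_pm_213 t 3 2 1 = true := ex3_b k1_pm_213 k2_pm_213

theorem s9_pm_213 : ∃ t, chk3 f_pm_213 t 1 2 1 = true := ex3_a k0_pm_213 s8_pm_213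

theorem s10_pm_213 : ∃ t, chk3 f_pm_213 t 1 1 1 = true := ex3_b s9_pm_213 s7_pm_213

theorem c_pm_213 : CertB 0 536870912 0 1230186008 536870912 50465866 3 eng mog cd0q2 cd5q3 pd1 false true false .pnn 2 1 3
    ndB0q2 ndB5q3 pcB1 cut_pm_213 Ext.none :=
  certB0 (fam := false) (s1 := true) (s2 := false) (a := 2) (b := 1) (c := 3) (cn := .pnn) (n1 := ndB0q2) (n2 := ndB5q3) (pc := pcB1) (cut := cut_pm_213) (xt := Ext.none) (P1 := 0) (W1 := 536870912) (P2 := 0) (W2 := 1230186008) (P3 := 536870912) (W3 := 50465866) (N0 := 3) (En := eng) (mo := mog) (C1 := cd0q2) (C2 := cd5q3) (C3 := pd1)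
    rfl s10_pm_213

noncomputable def f_mm_001 : ℕ → ℕ → ℕ → ℕ → Bool := onCell 0 536870912 0 536870912 536870912 50465866
    (rowB 3 eng mog cd0q0 cd5q1 pd0 1 false false false .up 0 0 1 (qsf 0 536870912 536870912 536870912 0) ndB0q0 ndB5q1 pcB0 Cut.none Ext.none)

def k0_mm_001 : ∃ t, chk3 f_mm_001 t 1 1 1 = true :=
  ⟨(l 3), by decide +kernel⟩

theorem c_mm_001 : CertB 0 536870912 536870912 536870912 536870912 50465866 3 eng mog cd0q0 cd5q1 pd0 false false false .up 0 0 1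
    ndB0q0 ndB5q1 pcB0 Cut.none Ext.none :=
  certB1 (fam := false) (s1 := false) (s2 := false) (a := 0) (b := 0) (c := 1) (cn := .up) (n1 := ndB0q0) (n2 := ndB5q1) (pc := pcB0) (cut := Cut.none) (xt := Ext.none) (P1 := 0) (W1 := 536870912) (P2 := 536870912) (W2 := 536870912) (P3 := 536870912) (W3 := 50465866) (N0 := 3) (En := eng) (mo := mog) (C1 := cd0q0) (C2 := cd5q1) (C3 := pd0)
    rfl (fun _ => rfl) k0_mm_001

noncomputable def f_mm_011 : ℕ → ℕ → ℕ → ℕ → Bool := onCell 0 536870912 536870912 536870912 536870912 50465866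
    (rowB 3 eng mog cd0q0 cd5q1 pd1 1 false false false .pnn 0 1 1 (qsf 0 536870912 536870912 536870912 1) ndB0q0 ndB5q1 pcB1 Cut.none Ext.none)

def k0_mm_011 : ∃ t, chk3 f_mm_011 t 1 1 1 = true :=
  ⟨(l 5), by decide +kernel⟩

theorem c_mm_011 : CertB 0 536870912 536870912 536870912 536870912 50465866 3 eng mog cd0q0 cd5q1 pd1 false false false .pnn 0 1 1
    ndB0q0 ndB5q1 pcB1 Cut.none Ext.none :=
  certB1 (fam := false) (s1 := false) (s2 := false) (a := 0) (b := 1) (c := 1) (cn := .pnn) (n1 := ndB0q0) (n2 := ndB5q1) (pc := pcB1) (cut := Cut.none) (xt := Ext.none) (P1 := 0) (W1 := 536870912) (P2 := 536870912) (W2 := 536870912) (P3 := 536870912) (W3 := 50465866) (N0 := 3) (En := eng) (mo := mog) (C1 := cd0q0) (C2 := cd5q1) (C3 := pd1)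
    rfl (fun _ => rfl) k0_mm_011

noncomputable def f_mm_012 : ℕ → ℕ → ℕ → ℕ → Bool := onCell 0 536870912 1073741824 536870912 536870912 50465866
    (rowB 3 eng mog cd0q0 cd5q2 pd1 0 false false false .pnp 0 1 2 (qsf 0 536870912 1073741824 536870912 1) ndB0q0 ndB5q2 pcB1 Cut.none Ext.none)

def k0_mm_012 : ∃ t, chk3 f_mm_012 t 1 1 1 = true :=
  ⟨(l 5), by decide +kernel⟩

theorem c_mm_012 : CertB 0 536870912 1073741824 536870912 536870912 50465866 3 eng mog cd0q0 cd5q2 pd1 false false false .pnp 0 1 2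
    ndB0q0 ndB5q2 pcB1 Cut.none Ext.none :=
  certB0 (fam := false) (s1 := false) (s2 := false) (a := 0) (b := 1) (c := 2) (cn := .pnp) (n1 := ndB0q0) (n2 := ndB5q2) (pc := pcB1) (cut := Cut.none) (xt := Ext.none) (P1 := 0) (W1 := 536870912) (P2 := 1073741824) (W2 := 536870912) (P3 := 536870912) (W3 := 50465866) (N0 := 3) (En := eng) (mo := mog) (C1 := cd0q0) (C2 := cd5q2) (C3 := pd1)
    rfl k0_mm_012

noncomputable def f_mm_022 : ℕ → ℕ → ℕ → ℕ → Bool := onCell 0 536870912 1073741824 536870912 536870912 50465866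
    (rowB 3 eng mog cd0q0 cd5q2 pd2 0 false false false .pp 0 2 2 (qsf 0 536870912 1073741824 536870912 2) ndB0q0 ndB5q2 pcB2 Cut.none Ext.none)

def k0_mm_022 : ∃ t, chk3 f_mm_022 t 1 1 1 = true :=
  ⟨(l 5), by decide +kernel⟩

theorem c_mm_022 : CertB 0 536870912 1073741824 536870912 536870912 50465866 3 eng mog cd0q0 cd5q2 pd2 false false false .pp 0 2 2
    ndB0q0 ndB5q2 pcB2 Cut.none Ext.none :=
  certB0 (fam := false) (s1 := false) (s2 := false) (a := 0) (b := 2) (c := 2) (cn := .pp) (n1 := ndB0q0) (n2 := ndB5q2) (pc := pcB2) (cut := Cut.none) (xt := Ext.none) (P1 := 0) (W1 := 536870912) (P2 := 1073741824) (W2 := 536870912) (P3 := 536870912) (W3 := 50465866) (N0 := 3) (En := eng) (mo := mog) (C1 := cd0q0) (C2 := cd5q2) (C3 := pd2)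
    rfl k0_mm_022

noncomputable def f_mm_023 : ℕ → ℕ → ℕ → ℕ → Bool := onCell 0 536870912 0 1230186008 536870912 50465866
    (rowB 3 eng mog cd0q0 cd5q3 pd2 0 false false false .up 0 2 3 (qsf 0 536870912 0 1230186008 2) ndB0q0 ndB5q3 pcB2 Cut.none Ext.none)

def k0_mm_023 : ∃ t, chk3 f_mm_023 t 1 1 1 = true :=
  ⟨(l 5), by decide +kernel⟩

theorem c_mm_023 : CertB 0 536870912 0 1230186008 536870912 50465866 3 eng mog cd0q0 cd5q3 pd2 false false false .up 0 2 3
    ndB0q0 ndB5q3 pcB2 Cut.none Ext.none :=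
  certB0 (fam := false) (s1 := false) (s2 := false) (a := 0) (b := 2) (c := 3) (cn := .up) (n1 := ndB0q0) (n2 := ndB5q3) (pc := pcB2) (cut := Cut.none) (xt := Ext.none) (P1 := 0) (W1 := 536870912) (P2 := 0) (W2 := 1230186008) (P3 := 536870912) (W3 := 50465866) (N0 := 3) (En := eng) (mo := mog) (C1 := cd0q0) (C2 := cd5q3) (C3 := pd2)
    rfl k0_mm_023

noncomputable def f_mm_033 : ℕ → ℕ → ℕ → ℕ → Bool := onCell 0 536870912 0 1230186008 536870912 50465866
    (rowB 3 eng mog cd0q0 cd5q3 pd3 0 false false false .pnn 0 3 3 (qsf 0 536870912 0 1230186008 3) ndB0q0 ndB5q3 pcB3 Cut.none Ext.none)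

def k0_mm_033 : ∃ t, chk3 f_mm_033 t 1 1 1 = true :=
  ⟨(l 5), by decide +kernel⟩

theorem c_mm_033 : CertB 0 536870912 0 1230186008 536870912 50465866 3 eng mog cd0q0 cd5q3 pd3 false false false .pnn 0 3 3
    ndB0q0 ndB5q3 pcB3 Cut.none Ext.none :=
  certB0 (fam := false) (s1 := false) (s2 := false) (a := 0) (b := 3) (c := 3) (cn := .pnn) (n1 := ndB0q0) (n2 := ndB5q3) (pc := pcB3) (cut := Cut.none) (xt := Ext.none) (P1 := 0) (W1 := 536870912) (P2 := 0) (W2 := 1230186008) (P3 := 536870912) (W3 := 50465866) (N0 := 3) (En := eng) (mo := mog) (C1 := cd0q0) (C2 := cd5q3) (C3 := pd3)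
    rfl k0_mm_033

noncomputable def cut_mm_101 : Cut := Cut.of [[⟨0, 1, 0, 67108864⟩, ⟨1, 0, 0, 67108864⟩, ⟨2, 1, 0, 67108864⟩]]

noncomputable def f_mm_101 : ℕ → ℕ → ℕ → ℕ → Bool := onCell 536870912 536870912 0 536870912 536870912 50465866
    (rowB 3 eng mog cd0q1 cd5q1 pd0 1 false false false .npn 1 0 1 (qsf 536870912 536870912 536870912 536870912 0) ndB0q1 ndB5q1 pcB0 cut_mm_101 Ext.none)

def k0_mm_101 : ∃ t, chk3 f_mm_101 t 1 1 1 = true :=
  ⟨(a (l 3) (b (a (l 3) (b (a (l 3) (b (a (l 3) (b (l 6) (l 3))) (l 3))) (l 3))) (l 3))), by decide +kernel⟩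

theorem c_mm_101 : CertB 536870912 536870912 536870912 536870912 536870912 50465866 3 eng mog cd0q1 cd5q1 pd0 false false false .npn 1 0 1
    ndB0q1 ndB5q1 pcB0 cut_mm_101 Ext.none :=
  certB1 (fam := false) (s1 := false) (s2 := false) (a := 1) (b := 0) (c := 1) (cn := .npn) (n1 := ndB0q1) (n2 := ndB5q1) (pc := pcB0) (cut := cut_mm_101) (xt := Ext.none) (P1 := 536870912) (W1 := 536870912) (P2 := 536870912) (W2 := 536870912) (P3 := 536870912) (W3 := 50465866) (N0 := 3) (En := eng) (mo := mog) (C1 := cd0q1) (C2 := cd5q1) (C3 := pd0)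
    rfl (fun _ => rfl) k0_mm_101

noncomputable def f_mm_102 : ℕ → ℕ → ℕ → ℕ → Bool := onCell 536870912 536870912 1073741824 536870912 536870912 50465866
    (rowB 3 eng mog cd0q1 cd5q2 pd0 0 false false false .npp 1 0 2 (qsf 536870912 536870912 1073741824 536870912 0) ndB0q1 ndB5q2 pcB0 Cut.none Ext.none)

def k0_mm_102 : ∃ t, chk3 f_mm_102 t 1 1 1 = true :=
  ⟨(l 3), by decide +kernel⟩

theorem c_mm_102 : CertB 536870912 536870912 1073741824 536870912 536870912 50465866 3 eng mog cd0q1 cd5q2 pd0 false false false .npp 1 0 2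
    ndB0q1 ndB5q2 pcB0 Cut.none Ext.none :=
  certB0 (fam := false) (s1 := false) (s2 := false) (a := 1) (b := 0) (c := 2) (cn := .npp) (n1 := ndB0q1) (n2 := ndB5q2) (pc := pcB0) (cut := Cut.none) (xt := Ext.none) (P1 := 536870912) (W1 := 536870912) (P2 := 1073741824) (W2 := 536870912) (P3 := 536870912) (W3 := 50465866) (N0 := 3) (En := eng) (mo := mog) (C1 := cd0q1) (C2 := cd5q2) (C3 := pd0)
    rfl k0_mm_102

noncomputable def f_mm_112 : ℕ → ℕ → ℕ → ℕ → Bool := onCell 536870912 536870912 1073741824 536870912 536870912 50465866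
    (rowB 3 eng mog cd0q1 cd5q2 pd1 0 false false false .dn 1 1 2 (qsf 536870912 536870912 1073741824 536870912 1) ndB0q1 ndB5q2 pcB1 Cut.none Ext.none)

def k0_mm_112 : ∃ t, chk3 f_mm_112 t 1 1 1 = true :=
  ⟨(l 3), by decide +kernel⟩

theorem c_mm_112 : CertB 536870912 536870912 1073741824 536870912 536870912 50465866 3 eng mog cd0q1 cd5q2 pd1 false false false .dn 1 1 2
    ndB0q1 ndB5q2 pcB1 Cut.none Ext.none :=
  certB0 (fam := false) (s1 := false) (s2 := false) (a := 1) (b := 1) (c := 2) (cn := .dn) (n1 := ndB0q1) (n2 := ndB5q2) (pc := pcB1) (cut := Cut.none) (xt := Ext.none) (P1 := 536870912) (W1 := 536870912) (P2 := 1073741824) (W2 := 536870912) (P3 := 536870912) (W3 := 50465866) (N0 := 3) (En := eng) (mo := mog) (C1 := cd0q1) (C2 := cd5q2) (C3 := pd1)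
    rfl k0_mm_112

noncomputable def f_mm_113 : ℕ → ℕ → ℕ → ℕ → Bool := onCell 536870912 536870912 0 1230186008 536870912 50465866
    (rowB 3 eng mog cd0q1 cd5q3 pd1 0 false false false .nn 1 1 3 (qsf 536870912 536870912 0 1230186008 1) ndB0q1 ndB5q3 pcB1 Cut.none Ext.none)

def k0_mm_113 : ∃ t, chk3 f_mm_113 t 1 1 1 = true :=
  ⟨(b (l 5) (b (l 5) (a (l 5) (l 3)))), by decide +kernel⟩

theorem c_mm_113 : CertB 536870912 536870912 0 1230186008 536870912 50465866 3 eng mog cd0q1 cd5q3 pd1 false false false .nn 1 1 3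
    ndB0q1 ndB5q3 pcB1 Cut.none Ext.none :=
  certB0 (fam := false) (s1 := false) (s2 := false) (a := 1) (b := 1) (c := 3) (cn := .nn) (n1 := ndB0q1) (n2 := ndB5q3) (pc := pcB1) (cut := Cut.none) (xt := Ext.none) (P1 := 536870912) (W1 := 536870912) (P2 := 0) (W2 := 1230186008) (P3 := 536870912) (W3 := 50465866) (N0 := 3) (En := eng) (mo := mog) (C1 := cd0q1) (C2 := cd5q3) (C3 := pd1)
    rfl k0_mm_113

noncomputable def f_mm_123 : ℕ → ℕ → ℕ → ℕ → Bool := onCell 1073741824 536870912 0 1230186008 536870912 50465866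
    (rowB 3 eng mog cd0q1 cd5q3 pd2 2 false false false .npn 1 2 3 (qsf 536870912 536870912 0 1230186008 2) ndB0q1 ndB5q3 pcB2 Cut.none Ext.none)

def k0_mm_123 : ∃ t, chk3 f_mm_123 t 1 1 1 = true :=
  ⟨(b (l 5) (l 5)), by decide +kernel⟩

theorem c_mm_123 : CertB 536870912 536870912 0 1230186008 536870912 50465866 3 eng mog cd0q1 cd5q3 pd2 false false false .npn 1 2 3
    ndB0q1 ndB5q3 pcB2 Cut.none Ext.none :=
  certB2 (fam := false) (s1 := false) (s2 := false) (a := 1) (b := 2) (c := 3) (cn := .npn) (n1 := ndB0q1) (n2 := ndB5q3) (pc := pcB2) (cut := Cut.none) (xt := Ext.none) (P1 := 536870912) (W1 := 536870912) (P2 := 0) (W2 := 1230186008) (P3 := 536870912) (W3 := 50465866) (N0 := 3) (En := eng) (mo := mog) (C1 := cd0q1) (C2 := cd5q3) (C3 := pd2)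
    rfl (fun _ => rfl) k0_mm_123

noncomputable def f_mm_133 : ℕ → ℕ → ℕ → ℕ → Bool := onCell 1610612736 536870912 0 1230186008 536870912 50465866
    (rowB 3 eng mog cd0q1 cd5q3 pd3 2 false false false .dn 1 3 3 (qsf 536870912 536870912 0 1230186008 3) ndB0q1 ndB5q3 pcB3 Cut.none Ext.none)

def k0_mm_133 : ∃ t, chk3 f_mm_133 t 1 1 1 = true :=
  ⟨(l 5), by decide +kernel⟩

theorem c_mm_133 : CertB 536870912 536870912 0 1230186008 536870912 50465866 3 eng mog cd0q1 cd5q3 pd3 false false false .dn 1 3 3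
    ndB0q1 ndB5q3 pcB3 Cut.none Ext.none :=
  certB2 (fam := false) (s1 := false) (s2 := false) (a := 1) (b := 3) (c := 3) (cn := .dn) (n1 := ndB0q1) (n2 := ndB5q3) (pc := pcB3) (cut := Cut.none) (xt := Ext.none) (P1 := 536870912) (W1 := 536870912) (P2 := 0) (W2 := 1230186008) (P3 := 536870912) (W3 := 50465866) (N0 := 3) (En := eng) (mo := mog) (C1 := cd0q1) (C2 := cd5q3) (C3 := pd3)
    rfl (fun _ => rfl) k0_mm_133

noncomputable def f_mm_202 : ℕ → ℕ → ℕ → ℕ → Bool := onCell 0 536870912 0 536870912 536870912 50465866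
    (rowB 3 eng mog cd0q2 cd5q2 pd0 1 false false false .pp 2 0 2 (qsf 0 536870912 1073741824 536870912 0) ndB0q2 ndB5q2 pcB0 Cut.none Ext.none)

def k0_mm_202 : ∃ t, chk3 f_mm_202 t 2 4 1 = true :=
  ⟨(a (b (a (b (a (l 16536400) (l 16518952)) (a (l 16530296) (b (l 16512368) (a (l 16481544) (b (l 16497160) (l 16501168)))))) (b (a (b (l 16503096) (b (l 16502192) (l 16474976))) (b (a (l 16491168) (b (l 16484192) (l 16483152))) (a (b (a (l 16491872) (l 16465576)) (b (l 16468936) (a (l 16490080) (l 16486336)))) (b (b (a (l 16485152) (l 16483336)) (c (l 16474608) (l 16483752))) (a (b (l 16486592) (l 16488592)) (l 16507416)))))) (a (b (a (b (l 16495680) (l 16473512)) (b (a (l 16490824) (l 16492448)) (l 16517248))) (a (b (l 16496184) (l 16489536)) (a (l 16509736) (l 16533592)))) (a (a (b (b (l 16486288) (l 16490216)) (l 16562768)) (b (b (l 16488136) (l 16488608)) (l 16494112))) (b (b (l 16532496) (l 122573891095)) (b (a (l 16495344) (l 16500104)) (l 16504960)))))))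 (a (b (a (b (a (l 16526152) (l 16485720)) (a (l 16519952) (l 16510976))) (b (a (b (l 16506472) (l 16504488)) (l 16512720)) (b (l 16555528) (l 16576984)))) (a (b (l 16542688) (l 16581192)) (b (a (l 16498432) (l 16503792)) (a (l 16507272) (l 16498608))))) (a (b (b (a (l 16555112) (b (l 16492240) (l 16499616))) (a (l 16499824) (c (l 16573520) (l 16489304)))) (a (b (a (l 16512152) (l 16539064)) (a (l 16590808) (l 16533424))) (b (a (l 16586112) (l 94656685383)) (a (l 16539208) (l 127942636583))))) (b (a (b (a (l 16503544) (l 16508680)) (l 109689070327)) (b (l 158544248919) (l 3))) (b (a (a (l 112910307431) (l 3)) (l 3)) (l 3)))))) (b (a (a (b (b (a (b (l 16550440) (a (l 16536112) (l 16524576))) (l 132237594519)) (a (b (b (b (l 110225869255) (l 16486368)) (l 119889457943)) (b (l 114520850215) (l 16492272))) (l 3))) (a (l 122573899527) (l 3))) (l 3)) (l 3)) (l 3))), by decide +kernel⟩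

def k1_mm_202 : ∃ t, chk3 f_mm_202 t 2 5 1 = true :=
  ⟨(a (b (a (b (a (a (l 16505576) (l 16516912)) (b (a (l 16521904) (a (l 16531016) (l 16536776))) (a (l 16600680) (a (l 16545752) (l 16552240))))) (a (b (l 16531760) (l 16631136)) (b (a (l 16635512) (a (l 16561096) (l 16567424))) (a (l 16565864) (l 16578488))))) (a (b (a (b (a (l 16542968) (l 16549024)) (a (l 16558472) (l 16564248))) (b (a (l 16554712) (l 3)) (l 3))) (a (b (a (l 16573248) (l 3)) (l 3)) (l 3))) (l 3))) (a (a (b (b (a (l 16552408) (l 16565880)) (a (l 16565232) (l 16579120))) (b (l 81235029095) (l 16594560))) (b (b (a (l 16579520) (l 16591416)) (l 140827725751)) (b (l 156933739015) (l 3)))) (l 3))) (l 3)), by decide +kernel⟩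

def k2_mm_202 : ∃ t, chk3 f_mm_202 t 2 3 1 = true :=
  ⟨(b (a (b (a (a (b (l 145122706007) (a (l 186461749239) (l 3))) (l 3)) (l 3)) (l 3)) (l 3)) (l 3)), by decide +kernel⟩

def k3_mm_202 : ∃ t, chk3 f_mm_202 t 3 1 1 = true :=
  ⟨(l 3), by decide +kernel⟩

theorem s4_mm_202 : ∃ t, chk3 f_mm_202 t 2 2 1 = true := ex3_b k0_mm_202 k1_mm_202

theorem s5_mm_202 : ∃ t, chk3 f_mm_202 t 2 1 1 = true := ex3_b s4_mm_202 k2_mm_202

theorem s6_mm_202 : ∃ t, chk3 f_mm_202 t 1 1 1 = true := ex3_a s5_mm_202 k3_mm_202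

theorem c_mm_202 : CertB 0 536870912 1073741824 536870912 536870912 50465866 3 eng mog cd0q2 cd5q2 pd0 false false false .pp 2 0 2
    ndB0q2 ndB5q2 pcB0 Cut.none Ext.none :=
  certB1 (fam := false) (s1 := false) (s2 := false) (a := 2) (b := 0) (c := 2) (cn := .pp) (n1 := ndB0q2) (n2 := ndB5q2) (pc := pcB0) (cut := Cut.none) (xt := Ext.none) (P1 := 0) (W1 := 536870912) (P2 := 1073741824) (W2 := 536870912) (P3 := 536870912) (W3 := 50465866) (N0 := 3) (En := eng) (mo := mog) (C1 := cd0q2) (C2 := cd5q2) (C3 := pd0)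
    rfl (fun _ => rfl) s6_mm_202

noncomputable def f_mm_203 : ℕ → ℕ → ℕ → ℕ → Bool := onCell 0 536870912 0 1230186008 536870912 50465866
    (rowB 3 eng mog cd0q2 cd5q3 pd0 0 false false false .up 2 0 3 (qsf 0 536870912 0 1230186008 0) ndB0q2 ndB5q3 pcB0 Cut.none Ext.none)

def k0_mm_203 : ∃ t, chk3 f_mm_203 t 1 1 1 = true :=
  ⟨(b (l 2) (b (l 2) (a (l 3) (l 3)))), by decide +kernel⟩

theorem c_mm_203 : CertB 0 536870912 0 1230186008 536870912 50465866 3 eng mog cd0q2 cd5q3 pd0 false false false .up 2 0 3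
    ndB0q2 ndB5q3 pcB0 Cut.none Ext.none :=
  certB0 (fam := false) (s1 := false) (s2 := false) (a := 2) (b := 0) (c := 3) (cn := .up) (n1 := ndB0q2) (n2 := ndB5q3) (pc := pcB0) (cut := Cut.none) (xt := Ext.none) (P1 := 0) (W1 := 536870912) (P2 := 0) (W2 := 1230186008) (P3 := 536870912) (W3 := 50465866) (N0 := 3) (En := eng) (mo := mog) (C1 := cd0q2) (C2 := cd5q3) (C3 := pd0)
    rfl k0_mm_203

noncomputable def f_mm_213 : ℕ → ℕ → ℕ → ℕ → Bool := onCell 0 536870912 0 1230186008 536870912 50465866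
    (rowB 3 eng mog cd0q2 cd5q3 pd1 0 false false false .pnn 2 1 3 (qsf 0 536870912 0 1230186008 1) ndB0q2 ndB5q3 pcB1 Cut.none Ext.none)

def k0_mm_213 : ∃ t, chk3 f_mm_213 t 1 1 1 = true :=
  ⟨(b (a (l 3) (b (l 5) (l 3))) (b (l 3) (a (l 3) (l 3)))), by decide +kernel⟩

theorem c_mm_213 : CertB 0 536870912 0 1230186008 536870912 50465866 3 eng mog cd0q2 cd5q3 pd1 false false false .pnn 2 1 3
    ndB0q2 ndB5q3 pcB1 Cut.none Ext.none :=
  certB0 (fam := false) (s1 := false) (s2 := false) (a := 2) (b := 1) (c := 3) (cn := .pnn) (n1 := ndB0q2) (n2 := ndB5q3) (pc := pcB1) (cut := Cut.none) (xt := Ext.none) (P1 := 0) (W1 := 536870912) (P2 := 0) (W2 := 1230186008) (P3 := 536870912) (W3 := 50465866) (N0 := 3) (En := eng) (mo := mog) (C1 := cd0q2) (C2 := cd5q3) (C3 := pd1)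
    rfl k0_mm_213

end Pool.Agent.Strip051.G.I5000_5470.Tab.C.BB05

namespace Pool.Agent.Strip051.G.I5000_5470.Tab.C.BB06

open Pool.Agent.Strip051.PB Pool.Agent.Strip051.PB.T
open Pool.Agent.Strip051.G.I5000_5470.Tab

noncomputable def cut_pp_001 : Cut := Cut.of [[⟨3, 0, 0, 1449551462⟩]]

noncomputable def f_pp_001 : ℕ → ℕ → ℕ → ℕ → Bool := onCell 0 536870912 536870912 536870912 536870912 50465866
    (rowB 3 eng mog cd0q0 cd6q1 pd0 0 false true true .up 0 0 1 (qsf 0 536870912 536870912 536870912 0) ndB0q0 ndB6q1 pcB0 cut_pp_001 Ext.none)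

def k0_pp_001 : ∃ t, chk3 f_pp_001 t 1 1 1 = true :=
  ⟨(l 6), by decide +kernel⟩

theorem c_pp_001 : CertB 0 536870912 536870912 536870912 536870912 50465866 3 eng mog cd0q0 cd6q1 pd0 false true true .up 0 0 1
    ndB0q0 ndB6q1 pcB0 cut_pp_001 Ext.none :=
  certB0 (fam := false) (s1 := true) (s2 := true) (a := 0) (b := 0) (c := 1) (cn := .up) (n1 := ndB0q0) (n2 := ndB6q1) (pc := pcB0) (cut := cut_pp_001) (xt := Ext.none) (P1 := 0) (W1 := 536870912) (P2 := 536870912) (W2 := 536870912) (P3 := 536870912) (W3 := 50465866) (N0 := 3) (En := eng) (mo := mog) (C1 := cd0q0) (C2 := cd6q1) (C3 := pd0)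
    rfl k0_pp_001

noncomputable def cut_pp_011 : Cut := Cut.of [[⟨3, 0, 0, 1449551462⟩], [⟨0, 0, 0, 67108864⟩, ⟨1, 1, 0, 67108864⟩, ⟨2, 1, 0, 67108864⟩]]

noncomputable def f_pp_011 : ℕ → ℕ → ℕ → ℕ → Bool := onCell 0 536870912 536870912 536870912 536870912 50465866
    (rowB 3 eng mog cd0q0 cd6q1 pd1 0 false true true .pnn 0 1 1 (qsf 0 536870912 536870912 536870912 1) ndB0q0 ndB6q1 pcB1 cut_pp_011 Ext.none)

def k0_pp_011 : ∃ t, chk3 f_pp_011 t 1 1 1 = true :=
  ⟨(l 6), by decide +kernel⟩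

theorem c_pp_011 : CertB 0 536870912 536870912 536870912 536870912 50465866 3 eng mog cd0q0 cd6q1 pd1 false true true .pnn 0 1 1
    ndB0q0 ndB6q1 pcB1 cut_pp_011 Ext.none :=
  certB0 (fam := false) (s1 := true) (s2 := true) (a := 0) (b := 1) (c := 1) (cn := .pnn) (n1 := ndB0q0) (n2 := ndB6q1) (pc := pcB1) (cut := cut_pp_011) (xt := Ext.none) (P1 := 0) (W1 := 536870912) (P2 := 536870912) (W2 := 536870912) (P3 := 536870912) (W3 := 50465866) (N0 := 3) (En := eng) (mo := mog) (C1 := cd0q0) (C2 := cd6q1) (C3 := pd1)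
    rfl k0_pp_011

noncomputable def cut_pp_012 : Cut := Cut.of [[⟨3, 0, 0, 1449551462⟩], [⟨0, 0, 0, 67108864⟩, ⟨1, 1, 0, 67108864⟩, ⟨2, 1, 0, 67108864⟩]]

noncomputable def f_pp_012 : ℕ → ℕ → ℕ → ℕ → Bool := onCell 0 536870912 536870912 536870912 536870912 50465866
    (rowB 3 eng mog cd0q0 cd6q2 pd1 1 false true true .pnp 0 1 2 (qsf 0 536870912 1073741824 536870912 1) ndB0q0 ndB6q2 pcB1 cut_pp_012 Ext.none)

def k0_pp_012 : ∃ t, chk3 f_pp_012 t 1 1 1 = true :=
  ⟨(l 6), by decide +kernel⟩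

theorem c_pp_012 : CertB 0 536870912 1073741824 536870912 536870912 50465866 3 eng mog cd0q0 cd6q2 pd1 false true true .pnp 0 1 2
    ndB0q0 ndB6q2 pcB1 cut_pp_012 Ext.none :=
  certB1 (fam := false) (s1 := true) (s2 := true) (a := 0) (b := 1) (c := 2) (cn := .pnp) (n1 := ndB0q0) (n2 := ndB6q2) (pc := pcB1) (cut := cut_pp_012) (xt := Ext.none) (P1 := 0) (W1 := 536870912) (P2 := 1073741824) (W2 := 536870912) (P3 := 536870912) (W3 := 50465866) (N0 := 3) (En := eng) (mo := mog) (C1 := cd0q0) (C2 := cd6q2) (C3 := pd1)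
    rfl (fun _ => rfl) k0_pp_012

noncomputable def cut_pp_022 : Cut := Cut.of [[⟨3, 0, 0, 1449551462⟩], [⟨0, 0, 0, 67108864⟩, ⟨1, 1, 0, 67108864⟩, ⟨2, 1, 0, 67108864⟩]]

noncomputable def f_pp_022 : ℕ → ℕ → ℕ → ℕ → Bool := onCell 0 536870912 1073741824 536870912 536870912 50465866
    (rowB 3 eng mog cd0q0 cd6q2 pd2 0 false true true .pp 0 2 2 (qsf 0 536870912 1073741824 536870912 2) ndB0q0 ndB6q2 pcB2 cut_pp_022 Ext.none)

def k0_pp_022 : ∃ t, chk3 f_pp_022 t 1 1 1 = true :=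
  ⟨(a (b (l 6) (a (b (b (a (b (l 6) (a (l 16209592) (l 6))) (l 6)) (a (a (b (l 16165536) (l 16127120)) (b (l 16254272) (l 16213984))) (b (l 6) (a (l 16301152) (l 6))))) (b (a (b (a (l 16095248) (l 16177968)) (l 16233552)) (b (a (l 16262712) (l 6)) (l 16393296))) (a (b (l 16079872) (l 16056400)) (b (a (l 16194216) (l 16272096)) (l 16226968))))) (b (l 6) (a (b (l 6) (b (l 16534440) (l 16352344))) (l 6))))) (l 6)), by decide +kernel⟩

theorem c_pp_022 : CertB 0 536870912 1073741824 536870912 536870912 50465866 3 eng mog cd0q0 cd6q2 pd2 false true true .pp 0 2 2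
    ndB0q0 ndB6q2 pcB2 cut_pp_022 Ext.none :=
  certB0 (fam := false) (s1 := true) (s2 := true) (a := 0) (b := 2) (c := 2) (cn := .pp) (n1 := ndB0q0) (n2 := ndB6q2) (pc := pcB2) (cut := cut_pp_022) (xt := Ext.none) (P1 := 0) (W1 := 536870912) (P2 := 1073741824) (W2 := 536870912) (P3 := 536870912) (W3 := 50465866) (N0 := 3) (En := eng) (mo := mog) (C1 := cd0q0) (C2 := cd6q2) (C3 := pd2)
    rfl k0_pp_022

noncomputable def cut_pp_023 : Cut := Cut.of [[⟨3, 0, 0, 1449551462⟩]]

noncomputable def f_pp_023 : ℕ → ℕ → ℕ → ℕ → Bool := onCell 1073741824 536870912 0 1230186008 536870912 50465866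
    (rowB 3 eng mog cd0q0 cd6q3 pd2 2 false true true .up 0 2 3 (qsf 0 536870912 0 1230186008 2) ndB0q0 ndB6q3 pcB2 cut_pp_023 Ext.none)

def k0_pp_023 : ∃ t, chk3 f_pp_023 t 1 1 1 = true :=
  ⟨(b (a (l 2) (a (l 2) (a (b (l 2) (b (l 16810200) (l 17024472))) (b (b (l 16751288) (l 16773248)) (b (l 16795928) (a (l 16809648) (l 16801584))))))) (b (a (l 6) (a (b (a (l 2) (b (l 16830168) (l 16825176))) (a (l 6) (b (l 16792192) (l 16760024)))) (b (a (b (l 16837712) (l 16819840)) (b (l 16809288) (l 16803504))) (b (a (l 16794432) (l 16789392)) (a (l 16761696) (l 16761296)))))) (a (l 6) (b (a (a (l 6) (b (l 16719160) (l 16655616))) (a (b (l 16713720) (l 16634392)) (b (l 16707480) (l 16616032)))) (a (a (l 6) (b (b (l 16577560) (l 16500808)) (b (l 16418512) (l 16404960)))) (b (a (b (l 16535096) (l 16437744)) (l 16447384)) (a (b (l 16306680) (l 16229240)) (l 16240152)))))))), by decide +kernel⟩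

theorem c_pp_023 : CertB 0 536870912 0 1230186008 536870912 50465866 3 eng mog cd0q0 cd6q3 pd2 false true true .up 0 2 3
    ndB0q0 ndB6q3 pcB2 cut_pp_023 Ext.none :=
  certB2 (fam := false) (s1 := true) (s2 := true) (a := 0) (b := 2) (c := 3) (cn := .up) (n1 := ndB0q0) (n2 := ndB6q3) (pc := pcB2) (cut := cut_pp_023) (xt := Ext.none) (P1 := 0) (W1 := 536870912) (P2 := 0) (W2 := 1230186008) (P3 := 536870912) (W3 := 50465866) (N0 := 3) (En := eng) (mo := mog) (C1 := cd0q0) (C2 := cd6q3) (C3 := pd2)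
    rfl (fun _ => rfl) k0_pp_023

noncomputable def cut_pp_033 : Cut := Cut.of [[⟨3, 0, 0, 1449551462⟩]]

noncomputable def f_pp_033 : ℕ → ℕ → ℕ → ℕ → Bool := onCell 1610612736 536870912 0 1230186008 536870912 50465866
    (rowB 3 eng mog cd0q0 cd6q3 pd3 2 false true true .pnn 0 3 3 (qsf 0 536870912 0 1230186008 3) ndB0q0 ndB6q3 pcB3 cut_pp_033 Ext.none)

def k0_pp_033 : ∃ t, chk3 f_pp_033 t 1 1 1 = true :=
  ⟨(b (b (a (a (a (b (l 16744632) (l 16765696)) (b (l 16760544) (l 16757544))) (a (b (l 16737016) (l 16748440)) (l 16947824))) (a (a (l 16729944) (a (l 16723688) (l 4))) (l 4))) (a (a (a (b (a (l 16783744) (l 16785584)) (a (l 16797728) (l 16797416))) (b (l 16841992) (l 16938928))) (a (b (l 16766168) (l 16776888)) (b (l 16753904) (l 16763240)))) (a (a (b (l 16745592) (l 16755040)) (b (l 16948624) (a (l 16753864) (l 16754360)))) (a (b (l 16731696) (a (l 16753304) (l 16753456))) (a (l 463890532423) (l 4)))))) (b (a (a (b (a (b (l 16804560) (l 16796560))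 (b (l 16794072) (l 16785336))) (b (a (l 16774816) (l 16764032)) (a (l 16741944) (l 16731616)))) (b (a (l 16777120) (l 16765352)) (b (a (l 16754272) (l 16747464)) (l 16720856)))) (a (b (a (l 16759072) (l 16762480)) (b (l 16747720) (l 16715352))) (a (b (a (l 16767224) (l 1)) (l 1)) (l 1)))) (a (b (a (b (a (l 16688848) (l 16677928)) (a (l 16596104) (l 16581288))) (b (l 16666248) (l 16561680))) (a (b (a (l 16421136) (l 16392000)) (b (l 16167720) (l 15931136))) (b (b (l 16416456) (l 1)) (l 1)))) (l 1)))), by decide +kernel⟩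

theorem c_pp_033 : CertB 0 536870912 0 1230186008 536870912 50465866 3 eng mog cd0q0 cd6q3 pd3 false true true .pnn 0 3 3
    ndB0q0 ndB6q3 pcB3 cut_pp_033 Ext.none :=
  certB2 (fam := false) (s1 := true) (s2 := true) (a := 0) (b := 3) (c := 3) (cn := .pnn) (n1 := ndB0q0) (n2 := ndB6q3) (pc := pcB3) (cut := cut_pp_033) (xt := Ext.none) (P1 := 0) (W1 := 536870912) (P2 := 0) (W2 := 1230186008) (P3 := 536870912) (W3 := 50465866) (N0 := 3) (En := eng) (mo := mog) (C1 := cd0q0) (C2 := cd6q3) (C3 := pd3)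
    rfl (fun _ => rfl) k0_pp_033

noncomputable def cut_pp_101 : Cut := Cut.of [[⟨3, 0, 0, 1449551462⟩]]

noncomputable def f_pp_101 : ℕ → ℕ → ℕ → ℕ → Bool := onCell 536870912 536870912 0 536870912 536870912 50465866
    (rowB 3 eng mog cd0q1 cd6q1 pd0 1 false true true .npn 1 0 1 (qsf 536870912 536870912 536870912 536870912 0) ndB0q1 ndB6q1 pcB0 cut_pp_101 Ext.none)

def k0_pp_101 : ∃ t, chk3 f_pp_101 t 1 1 1 = true :=
  ⟨(l 6), by decide +kernel⟩

theorem c_pp_101 : CertB 536870912 536870912 536870912 536870912 536870912 50465866 3 eng mog cd0q1 cd6q1 pd0 false true true .npn 1 0 1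
    ndB0q1 ndB6q1 pcB0 cut_pp_101 Ext.none :=
  certB1 (fam := false) (s1 := true) (s2 := true) (a := 1) (b := 0) (c := 1) (cn := .npn) (n1 := ndB0q1) (n2 := ndB6q1) (pc := pcB0) (cut := cut_pp_101) (xt := Ext.none) (P1 := 536870912) (W1 := 536870912) (P2 := 536870912) (W2 := 536870912) (P3 := 536870912) (W3 := 50465866) (N0 := 3) (En := eng) (mo := mog) (C1 := cd0q1) (C2 := cd6q1) (C3 := pd0)
    rfl (fun _ => rfl) k0_pp_101

noncomputable def cut_pp_102 : Cut := Cut.of [[⟨3, 0, 0, 1449551462⟩]]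

noncomputable def f_pp_102 : ℕ → ℕ → ℕ → ℕ → Bool := onCell 536870912 536870912 1073741824 536870912 536870912 50465866
    (rowB 3 eng mog cd0q1 cd6q2 pd0 0 false true true .npp 1 0 2 (qsf 536870912 536870912 1073741824 536870912 0) ndB0q1 ndB6q2 pcB0 cut_pp_102 Ext.none)

def k0_pp_102 : ∃ t, chk3 f_pp_102 t 1 1 1 = true :=
  ⟨(l 6), by decide +kernel⟩

theorem c_pp_102 : CertB 536870912 536870912 1073741824 536870912 536870912 50465866 3 eng mog cd0q1 cd6q2 pd0 false true true .npp 1 0 2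
    ndB0q1 ndB6q2 pcB0 cut_pp_102 Ext.none :=
  certB0 (fam := false) (s1 := true) (s2 := true) (a := 1) (b := 0) (c := 2) (cn := .npp) (n1 := ndB0q1) (n2 := ndB6q2) (pc := pcB0) (cut := cut_pp_102) (xt := Ext.none) (P1 := 536870912) (W1 := 536870912) (P2 := 1073741824) (W2 := 536870912) (P3 := 536870912) (W3 := 50465866) (N0 := 3) (En := eng) (mo := mog) (C1 := cd0q1) (C2 := cd6q2) (C3 := pd0)
    rfl k0_pp_102

noncomputable def cut_pp_112 : Cut := Cut.of [[⟨3, 0, 0, 1449551462⟩]]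

noncomputable def f_pp_112 : ℕ → ℕ → ℕ → ℕ → Bool := onCell 536870912 536870912 1073741824 536870912 536870912 50465866
    (rowB 3 eng mog cd0q1 cd6q2 pd1 0 false true true .dn 1 1 2 (qsf 536870912 536870912 1073741824 536870912 1) ndB0q1 ndB6q2 pcB1 cut_pp_112 Ext.none)

def k0_pp_112 : ∃ t, chk3 f_pp_112 t 1 1 1 = true :=
  ⟨(l 6), by decide +kernel⟩

theorem c_pp_112 : CertB 536870912 536870912 1073741824 536870912 536870912 50465866 3 eng mog cd0q1 cd6q2 pd1 false true true .dn 1 1 2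
    ndB0q1 ndB6q2 pcB1 cut_pp_112 Ext.none :=
  certB0 (fam := false) (s1 := true) (s2 := true) (a := 1) (b := 1) (c := 2) (cn := .dn) (n1 := ndB0q1) (n2 := ndB6q2) (pc := pcB1) (cut := cut_pp_112) (xt := Ext.none) (P1 := 536870912) (W1 := 536870912) (P2 := 1073741824) (W2 := 536870912) (P3 := 536870912) (W3 := 50465866) (N0 := 3) (En := eng) (mo := mog) (C1 := cd0q1) (C2 := cd6q2) (C3 := pd1)
    rfl k0_pp_112

noncomputable def cut_pp_113 : Cut := Cut.of [[⟨3, 0, 0, 1449551462⟩], [⟨0, 1, 0, 67108864⟩, ⟨1, 1, 0, 67108864⟩, ⟨2, 2, 0, 16777216⟩]]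

noncomputable def f_pp_113 : ℕ → ℕ → ℕ → ℕ → Bool := onCell 536870912 536870912 0 1230186008 536870912 50465866
    (rowB 3 eng mog cd0q1 cd6q3 pd1 0 false true true .nn 1 1 3 (qsf 536870912 536870912 0 1230186008 1) ndB0q1 ndB6q3 pcB1 cut_pp_113 Ext.none)

def k0_pp_113 : ∃ t, chk3 f_pp_113 t 1 1 1 = true :=
  ⟨(b (a (l 2) (a (l 2) (b (a (l 2) (l 6)) (l 6)))) (b (a (a (l 2) (l 6)) (l 6)) (l 6))), by decide +kernel⟩

theorem c_pp_113 : CertB 536870912 536870912 0 1230186008 536870912 50465866 3 eng mog cd0q1 cd6q3 pd1 false true true .nn 1 1 3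
    ndB0q1 ndB6q3 pcB1 cut_pp_113 Ext.none :=
  certB0 (fam := false) (s1 := true) (s2 := true) (a := 1) (b := 1) (c := 3) (cn := .nn) (n1 := ndB0q1) (n2 := ndB6q3) (pc := pcB1) (cut := cut_pp_113) (xt := Ext.none) (P1 := 536870912) (W1 := 536870912) (P2 := 0) (W2 := 1230186008) (P3 := 536870912) (W3 := 50465866) (N0 := 3) (En := eng) (mo := mog) (C1 := cd0q1) (C2 := cd6q3) (C3 := pd1)
    rfl k0_pp_113

noncomputable def cut_pp_123 : Cut := Cut.of [[⟨3, 0, 0, 1449551462⟩], [⟨0, 1, 0, 67108864⟩, ⟨1, 1, 0, 67108864⟩, ⟨2, 2, 0, 16777216⟩]]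

noncomputable def f_pp_123 : ℕ → ℕ → ℕ → ℕ → Bool := onCell 1073741824 536870912 0 1230186008 536870912 50465866
    (rowB 3 eng mog cd0q1 cd6q3 pd2 2 false true true .npn 1 2 3 (qsf 536870912 536870912 0 1230186008 2) ndB0q1 ndB6q3 pcB2 cut_pp_123 Ext.none)

def k0_pp_123 : ∃ t, chk3 f_pp_123 t 1 1 1 = true :=
  ⟨(b (b (a (a (a (l 6) (a (l 6) (b (l 16769560) (l 6)))) (a (a (b (a (l 16765824) (l 16764080)) (l 6)) (b (l 16761304) (l 16782984))) (b (l 16760488) (l 16795840)))) (a (b (a (l 16761048) (l 16758936)) (a (l 16792872) (l 16786888))) (a (b (l 16754904) (l 16778952)) (b (l 16751336) (l 16773232))))) (a (a (l 6) (a (l 6) (b (a (l 6) (l 16770704)) (l 6)))) (a (b (a (l 16791496) (l 16832360)) (a (b (l 16783144) (l 16790456)) (b (l 16822504) (l 16823568)))) (a (b (l 16810200) (b (l 16828840) (l 16840824))) (b (l 16816816) (l 475164870343)))))) (a (l 6) (b (a (b (a (b (l 16922208) (l 6)) (b (l 16830184) (l 16825096))) (a (l 6) (b (l 16792072)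 (l 1)))) (b (a (b (l 16837536) (l 1)) (l 1)) (l 1))) (l 1)))), by decide +kernel⟩

theorem c_pp_123 : CertB 536870912 536870912 0 1230186008 536870912 50465866 3 eng mog cd0q1 cd6q3 pd2 false true true .npn 1 2 3
    ndB0q1 ndB6q3 pcB2 cut_pp_123 Ext.none :=
  certB2 (fam := false) (s1 := true) (s2 := true) (a := 1) (b := 2) (c := 3) (cn := .npn) (n1 := ndB0q1) (n2 := ndB6q3) (pc := pcB2) (cut := cut_pp_123) (xt := Ext.none) (P1 := 536870912) (W1 := 536870912) (P2 := 0) (W2 := 1230186008) (P3 := 536870912) (W3 := 50465866) (N0 := 3) (En := eng) (mo := mog) (C1 := cd0q1) (C2 := cd6q3) (C3 := pd2)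
    rfl (fun _ => rfl) k0_pp_123

noncomputable def cut_pp_133 : Cut := Cut.of [[⟨3, 0, 0, 1449551462⟩]]

noncomputable def f_pp_133 : ℕ → ℕ → ℕ → ℕ → Bool := onCell 536870912 536870912 0 1230186008 536870912 50465866
    (rowB 3 eng mog cd0q1 cd6q3 pd3 0 false true true .dn 1 3 3 (qsf 536870912 536870912 0 1230186008 3) ndB0q1 ndB6q3 pcB3 cut_pp_133 Ext.none)

def k0_pp_133 : ∃ t, chk3 f_pp_133 t 1 1 1 = true :=
  ⟨(b (b (a (a (a (b (l 16751312) (l 1)) (l 1)) (l 1)) (l 1)) (l 1)) (l 1)), by decide +kernel⟩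

theorem c_pp_133 : CertB 536870912 536870912 0 1230186008 536870912 50465866 3 eng mog cd0q1 cd6q3 pd3 false true true .dn 1 3 3
    ndB0q1 ndB6q3 pcB3 cut_pp_133 Ext.none :=
  certB0 (fam := false) (s1 := true) (s2 := true) (a := 1) (b := 3) (c := 3) (cn := .dn) (n1 := ndB0q1) (n2 := ndB6q3) (pc := pcB3) (cut := cut_pp_133) (xt := Ext.none) (P1 := 536870912) (W1 := 536870912) (P2 := 0) (W2 := 1230186008) (P3 := 536870912) (W3 := 50465866) (N0 := 3) (En := eng) (mo := mog) (C1 := cd0q1) (C2 := cd6q3) (C3 := pd3)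
    rfl k0_pp_133

noncomputable def cut_pp_202 : Cut := Cut.of [[⟨3, 0, 0, 1449551462⟩]]

noncomputable def f_pp_202 : ℕ → ℕ → ℕ → ℕ → Bool := onCell 0 536870912 1073741824 536870912 536870912 50465866
    (rowB 3 eng mog cd0q2 cd6q2 pd0 0 false true true .pp 2 0 2 (qsf 0 536870912 1073741824 536870912 0) ndB0q2 ndB6q2 pcB0 cut_pp_202 Ext.none)

def k0_pp_202 : ∃ t, chk3 f_pp_202 t 1 1 1 = true :=
  ⟨(l 5), by decide +kernel⟩

theorem c_pp_202 : CertB 0 536870912 1073741824 536870912 536870912 50465866 3 eng mog cd0q2 cd6q2 pd0 false true true .pp 2 0 2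
    ndB0q2 ndB6q2 pcB0 cut_pp_202 Ext.none :=
  certB0 (fam := false) (s1 := true) (s2 := true) (a := 2) (b := 0) (c := 2) (cn := .pp) (n1 := ndB0q2) (n2 := ndB6q2) (pc := pcB0) (cut := cut_pp_202) (xt := Ext.none) (P1 := 0) (W1 := 536870912) (P2 := 1073741824) (W2 := 536870912) (P3 := 536870912) (W3 := 50465866) (N0 := 3) (En := eng) (mo := mog) (C1 := cd0q2) (C2 := cd6q2) (C3 := pd0)
    rfl k0_pp_202

noncomputable def cut_pp_203 : Cut := Cut.of [[⟨3, 0, 0, 1449551462⟩]]

noncomputable def f_pp_203 : ℕ → ℕ → ℕ → ℕ → Bool := onCell 0 536870912 0 1230186008 536870912 50465866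
    (rowB 3 eng mog cd0q2 cd6q3 pd0 0 false true true .up 2 0 3 (qsf 0 536870912 0 1230186008 0) ndB0q2 ndB6q3 pcB0 cut_pp_203 Ext.none)

def k0_pp_203 : ∃ t, chk3 f_pp_203 t 1 1 1 = true :=
  ⟨(b (l 2) (a (l 5) (l 6))), by decide +kernel⟩

theorem c_pp_203 : CertB 0 536870912 0 1230186008 536870912 50465866 3 eng mog cd0q2 cd6q3 pd0 false true true .up 2 0 3
    ndB0q2 ndB6q3 pcB0 cut_pp_203 Ext.none :=
  certB0 (fam := false) (s1 := true) (s2 := true) (a := 2) (b := 0) (c := 3) (cn := .up) (n1 := ndB0q2) (n2 := ndB6q3) (pc := pcB0) (cut := cut_pp_203) (xt := Ext.none) (P1 := 0) (W1 := 536870912) (P2 := 0) (W2 := 1230186008) (P3 := 536870912) (W3 := 50465866) (N0 := 3) (En := eng) (mo := mog) (C1 := cd0q2) (C2 := cd6q3) (C3 := pd0)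
    rfl k0_pp_203

noncomputable def cut_pp_213 : Cut := Cut.of [[⟨3, 0, 0, 1449551462⟩], [⟨0, 1, 0, 67108864⟩, ⟨1, 1, 0, 67108864⟩, ⟨2, 2, 0, 16777216⟩]]

noncomputable def f_pp_213 : ℕ → ℕ → ℕ → ℕ → Bool := onCell 0 536870912 0 1230186008 536870912 50465866
    (rowB 3 eng mog cd0q2 cd6q3 pd1 0 false true true .pnn 2 1 3 (qsf 0 536870912 0 1230186008 1) ndB0q2 ndB6q3 pcB1 cut_pp_213 Ext.none)

def k0_pp_213 : ∃ t, chk3 f_pp_213 t 1 1 1 = true :=
  ⟨(b (l 6) (a (l 5) (l 6))), by decide +kernel⟩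

theorem c_pp_213 : CertB 0 536870912 0 1230186008 536870912 50465866 3 eng mog cd0q2 cd6q3 pd1 false true true .pnn 2 1 3
    ndB0q2 ndB6q3 pcB1 cut_pp_213 Ext.none :=
  certB0 (fam := false) (s1 := true) (s2 := true) (a := 2) (b := 1) (c := 3) (cn := .pnn) (n1 := ndB0q2) (n2 := ndB6q3) (pc := pcB1) (cut := cut_pp_213) (xt := Ext.none) (P1 := 0) (W1 := 536870912) (P2 := 0) (W2 := 1230186008) (P3 := 536870912) (W3 := 50465866) (N0 := 3) (En := eng) (mo := mog) (C1 := cd0q2) (C2 := cd6q3) (C3 := pd1)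
    rfl k0_pp_213

noncomputable def cut_pm_001 : Cut := Cut.of [[⟨3, 0, 0, 1449551462⟩]]

noncomputable def f_pm_001 : ℕ → ℕ → ℕ → ℕ → Bool := onCell 0 536870912 536870912 536870912 536870912 50465866
    (rowB 3 eng mog cd0q0 cd6q1 pd0 0 false true false .up 0 0 1 (qsf 0 536870912 536870912 536870912 0) ndB0q0 ndB6q1 pcB0 cut_pm_001 Ext.none)

def k0_pm_001 : ∃ t, chk3 f_pm_001 t 1 1 1 = true :=
  ⟨(l 4), by decide +kernel⟩

theorem c_pm_001 : CertB 0 536870912 536870912 536870912 536870912 50465866 3 eng mog cd0q0 cd6q1 pd0 false true false .up 0 0 1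
    ndB0q0 ndB6q1 pcB0 cut_pm_001 Ext.none :=
  certB0 (fam := false) (s1 := true) (s2 := false) (a := 0) (b := 0) (c := 1) (cn := .up) (n1 := ndB0q0) (n2 := ndB6q1) (pc := pcB0) (cut := cut_pm_001) (xt := Ext.none) (P1 := 0) (W1 := 536870912) (P2 := 536870912) (W2 := 536870912) (P3 := 536870912) (W3 := 50465866) (N0 := 3) (En := eng) (mo := mog) (C1 := cd0q0) (C2 := cd6q1) (C3 := pd0)
    rfl k0_pm_001

noncomputable def cut_pm_011 : Cut := Cut.of [[⟨3, 0, 0, 1449551462⟩]]

noncomputable def f_pm_011 : ℕ → ℕ → ℕ → ℕ → Bool := onCell 0 536870912 536870912 536870912 536870912 50465866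
    (rowB 3 eng mog cd0q0 cd6q1 pd1 0 false true false .pnn 0 1 1 (qsf 0 536870912 536870912 536870912 1) ndB0q0 ndB6q1 pcB1 cut_pm_011 Ext.none)

def k0_pm_011 : ∃ t, chk3 f_pm_011 t 1 1 1 = true :=
  ⟨(l 4), by decide +kernel⟩

theorem c_pm_011 : CertB 0 536870912 536870912 536870912 536870912 50465866 3 eng mog cd0q0 cd6q1 pd1 false true false .pnn 0 1 1
    ndB0q0 ndB6q1 pcB1 cut_pm_011 Ext.none :=
  certB0 (fam := false) (s1 := true) (s2 := false) (a := 0) (b := 1) (c := 1) (cn := .pnn) (n1 := ndB0q0) (n2 := ndB6q1) (pc := pcB1) (cut := cut_pm_011) (xt := Ext.none) (P1 := 0) (W1 := 536870912) (P2 := 536870912) (W2 := 536870912) (P3 := 536870912) (W3 := 50465866) (N0 := 3) (En := eng) (mo := mog) (C1 := cd0q0) (C2 := cd6q1) (C3 := pd1)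
    rfl k0_pm_011

noncomputable def cut_pm_012 : Cut := Cut.of [[⟨3, 0, 0, 1449551462⟩]]

noncomputable def f_pm_012 : ℕ → ℕ → ℕ → ℕ → Bool := onCell 0 536870912 1073741824 536870912 536870912 50465866
    (rowB 3 eng mog cd0q0 cd6q2 pd1 0 false true false .pnp 0 1 2 (qsf 0 536870912 1073741824 536870912 1) ndB0q0 ndB6q2 pcB1 cut_pm_012 Ext.none)

def k0_pm_012 : ∃ t, chk3 f_pm_012 t 1 1 1 = true :=
  ⟨(l 4), by decide +kernel⟩

theorem c_pm_012 : CertB 0 536870912 1073741824 536870912 536870912 50465866 3 eng mog cd0q0 cd6q2 pd1 false true false .pnp 0 1 2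
    ndB0q0 ndB6q2 pcB1 cut_pm_012 Ext.none :=
  certB0 (fam := false) (s1 := true) (s2 := false) (a := 0) (b := 1) (c := 2) (cn := .pnp) (n1 := ndB0q0) (n2 := ndB6q2) (pc := pcB1) (cut := cut_pm_012) (xt := Ext.none) (P1 := 0) (W1 := 536870912) (P2 := 1073741824) (W2 := 536870912) (P3 := 536870912) (W3 := 50465866) (N0 := 3) (En := eng) (mo := mog) (C1 := cd0q0) (C2 := cd6q2) (C3 := pd1)
    rfl k0_pm_012

noncomputable def cut_pm_022 : Cut := Cut.of [[⟨3, 0, 0, 1449551462⟩]]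

noncomputable def f_pm_022 : ℕ → ℕ → ℕ → ℕ → Bool := onCell 0 536870912 1073741824 536870912 536870912 50465866
    (rowB 3 eng mog cd0q0 cd6q2 pd2 0 false true false .pp 0 2 2 (qsf 0 536870912 1073741824 536870912 2) ndB0q0 ndB6q2 pcB2 cut_pm_022 Ext.none)

def k0_pm_022 : ∃ t, chk3 f_pm_022 t 1 1 1 = true :=
  ⟨(l 4), by decide +kernel⟩

theorem c_pm_022 : CertB 0 536870912 1073741824 536870912 536870912 50465866 3 eng mog cd0q0 cd6q2 pd2 false true false .pp 0 2 2
    ndB0q0 ndB6q2 pcB2 cut_pm_022 Ext.none :=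
  certB0 (fam := false) (s1 := true) (s2 := false) (a := 0) (b := 2) (c := 2) (cn := .pp) (n1 := ndB0q0) (n2 := ndB6q2) (pc := pcB2) (cut := cut_pm_022) (xt := Ext.none) (P1 := 0) (W1 := 536870912) (P2 := 1073741824) (W2 := 536870912) (P3 := 536870912) (W3 := 50465866) (N0 := 3) (En := eng) (mo := mog) (C1 := cd0q0) (C2 := cd6q2) (C3 := pd2)
    rfl k0_pm_022

noncomputable def cut_pm_023 : Cut := Cut.of [[⟨3, 0, 0, 1449551462⟩]]

noncomputable def f_pm_023 : ℕ → ℕ → ℕ → ℕ → Bool := onCell 0 536870912 0 1230186008 536870912 50465866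
    (rowB 3 eng mog cd0q0 cd6q3 pd2 0 false true false .up 0 2 3 (qsf 0 536870912 0 1230186008 2) ndB0q0 ndB6q3 pcB2 cut_pm_023 Ext.none)

def k0_pm_023 : ∃ t, chk3 f_pm_023 t 1 1 1 = true :=
  ⟨(b (a (l 2) (a (l 2) (b (a (l 2) (b (l 16740432) (l 16745400))) (a (l 4) (l 4))))) (l 4)), by decide +kernel⟩

theorem c_pm_023 : CertB 0 536870912 0 1230186008 536870912 50465866 3 eng mog cd0q0 cd6q3 pd2 false true false .up 0 2 3
    ndB0q0 ndB6q3 pcB2 cut_pm_023 Ext.none :=
  certB0 (fam := false) (s1 := true) (s2 := false) (a := 0) (b := 2) (c := 3) (cn := .up) (n1 := ndB0q0) (n2 := ndB6q3) (pc := pcB2) (cut := cut_pm_023) (xt := Ext.none) (P1 := 0) (W1 := 536870912) (P2 := 0) (W2 := 1230186008) (P3 := 536870912) (W3 := 50465866) (N0 := 3) (En := eng) (mo := mog) (C1 := cd0q0) (C2 := cd6q3) (C3 := pd2)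
    rfl k0_pm_023

noncomputable def cut_pm_033 : Cut := Cut.of [[⟨3, 0, 0, 1449551462⟩]]

noncomputable def f_pm_033 : ℕ → ℕ → ℕ → ℕ → Bool := onCell 1610612736 536870912 0 1230186008 536870912 50465866
    (rowB 3 eng mog cd0q0 cd6q3 pd3 2 false true false .pnn 0 3 3 (qsf 0 536870912 0 1230186008 3) ndB0q0 ndB6q3 pcB3 cut_pm_033 Ext.none)

def k0_pm_033 : ∃ t, chk3 f_pm_033 t 1 1 1 = true :=
  ⟨(b (b (a (a (a (l 16809920) (l 16842560)) (a (l 16734200) (l 4))) (l 4)) (l 4)) (l 4)), by decide +kernel⟩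

theorem c_pm_033 : CertB 0 536870912 0 1230186008 536870912 50465866 3 eng mog cd0q0 cd6q3 pd3 false true false .pnn 0 3 3
    ndB0q0 ndB6q3 pcB3 cut_pm_033 Ext.none :=
  certB2 (fam := false) (s1 := true) (s2 := false) (a := 0) (b := 3) (c := 3) (cn := .pnn) (n1 := ndB0q0) (n2 := ndB6q3) (pc := pcB3) (cut := cut_pm_033) (xt := Ext.none) (P1 := 0) (W1 := 536870912) (P2 := 0) (W2 := 1230186008) (P3 := 536870912) (W3 := 50465866) (N0 := 3) (En := eng) (mo := mog) (C1 := cd0q0) (C2 := cd6q3) (C3 := pd3)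
    rfl (fun _ => rfl) k0_pm_033

noncomputable def cut_pm_101 : Cut := Cut.of [[⟨3, 0, 0, 1449551462⟩]]

noncomputable def f_pm_101 : ℕ → ℕ → ℕ → ℕ → Bool := onCell 536870912 536870912 536870912 536870912 536870912 50465866
    (rowB 3 eng mog cd0q1 cd6q1 pd0 0 false true false .npn 1 0 1 (qsf 536870912 536870912 536870912 536870912 0) ndB0q1 ndB6q1 pcB0 cut_pm_101 Ext.none)

def k0_pm_101 : ∃ t, chk3 f_pm_101 t 1 1 1 = true :=
  ⟨(l 4), by decide +kernel⟩

theorem c_pm_101 : CertB 536870912 536870912 536870912 536870912 536870912 50465866 3 eng mog cd0q1 cd6q1 pd0 false true false .npn 1 0 1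
    ndB0q1 ndB6q1 pcB0 cut_pm_101 Ext.none :=
  certB0 (fam := false) (s1 := true) (s2 := false) (a := 1) (b := 0) (c := 1) (cn := .npn) (n1 := ndB0q1) (n2 := ndB6q1) (pc := pcB0) (cut := cut_pm_101) (xt := Ext.none) (P1 := 536870912) (W1 := 536870912) (P2 := 536870912) (W2 := 536870912) (P3 := 536870912) (W3 := 50465866) (N0 := 3) (En := eng) (mo := mog) (C1 := cd0q1) (C2 := cd6q1) (C3 := pd0)
    rfl k0_pm_101

noncomputable def cut_pm_102 : Cut := Cut.of [[⟨3, 0, 0, 1449551462⟩]]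

noncomputable def f_pm_102 : ℕ → ℕ → ℕ → ℕ → Bool := onCell 536870912 536870912 0 536870912 536870912 50465866
    (rowB 3 eng mog cd0q1 cd6q2 pd0 1 false true false .npp 1 0 2 (qsf 536870912 536870912 1073741824 536870912 0) ndB0q1 ndB6q2 pcB0 cut_pm_102 Ext.none)

def k0_pm_102 : ∃ t, chk3 f_pm_102 t 1 1 1 = true :=
  ⟨(a (l 4) (b (l 4) (b (l 4) (a (l 4) (b (l 4) (a (l 4) (l 16844600))))))), by decide +kernel⟩

theorem c_pm_102 : CertB 536870912 536870912 1073741824 536870912 536870912 50465866 3 eng mog cd0q1 cd6q2 pd0 false true false .npp 1 0 2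
    ndB0q1 ndB6q2 pcB0 cut_pm_102 Ext.none :=
  certB1 (fam := false) (s1 := true) (s2 := false) (a := 1) (b := 0) (c := 2) (cn := .npp) (n1 := ndB0q1) (n2 := ndB6q2) (pc := pcB0) (cut := cut_pm_102) (xt := Ext.none) (P1 := 536870912) (W1 := 536870912) (P2 := 1073741824) (W2 := 536870912) (P3 := 536870912) (W3 := 50465866) (N0 := 3) (En := eng) (mo := mog) (C1 := cd0q1) (C2 := cd6q2) (C3 := pd0)
    rfl (fun _ => rfl) k0_pm_102

noncomputable def cut_pm_112 : Cut := Cut.of [[⟨3, 0, 0, 1449551462⟩]]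

noncomputable def f_pm_112 : ℕ → ℕ → ℕ → ℕ → Bool := onCell 536870912 536870912 1073741824 536870912 536870912 50465866
    (rowB 3 eng mog cd0q1 cd6q2 pd1 0 false true false .dn 1 1 2 (qsf 536870912 536870912 1073741824 536870912 1) ndB0q1 ndB6q2 pcB1 cut_pm_112 Ext.none)

def k0_pm_112 : ∃ t, chk3 f_pm_112 t 1 1 1 = true :=
  ⟨(a (l 4) (b (l 4) (a (l 4) (b (l 4) (b (l 4) (a (l 4) (l 16852688))))))), by decide +kernel⟩

theorem c_pm_112 : CertB 536870912 536870912 1073741824 536870912 536870912 50465866 3 eng mog cd0q1 cd6q2 pd1 false true false .dn 1 1 2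
    ndB0q1 ndB6q2 pcB1 cut_pm_112 Ext.none :=
  certB0 (fam := false) (s1 := true) (s2 := false) (a := 1) (b := 1) (c := 2) (cn := .dn) (n1 := ndB0q1) (n2 := ndB6q2) (pc := pcB1) (cut := cut_pm_112) (xt := Ext.none) (P1 := 536870912) (W1 := 536870912) (P2 := 1073741824) (W2 := 536870912) (P3 := 536870912) (W3 := 50465866) (N0 := 3) (En := eng) (mo := mog) (C1 := cd0q1) (C2 := cd6q2) (C3 := pd1)
    rfl k0_pm_112

noncomputable def cut_pm_113 : Cut := Cut.of [[⟨3, 0, 0, 1449551462⟩], [⟨0, 1, 0, 67108864⟩, ⟨1, 1, 0, 67108864⟩, ⟨2, 2, 0, 16777216⟩]]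

noncomputable def f_pm_113 : ℕ → ℕ → ℕ → ℕ → Bool := onCell 536870912 536870912 0 1230186008 536870912 50465866
    (rowB 3 eng mog cd0q1 cd6q3 pd1 0 false true false .nn 1 1 3 (qsf 536870912 536870912 0 1230186008 1) ndB0q1 ndB6q3 pcB1 cut_pm_113 Ext.none)

def k0_pm_113 : ∃ t, chk3 f_pm_113 t 1 1 1 = true :=
  ⟨(b (a (l 2) (a (l 2) (b (a (l 2) (a (l 2) (b (l 6) (l 16790560)))) (a (b (l 16835328) (l 16853808)) (b (b (l 16806488) (l 16816384)) (b (l 16827104) (l 16838024))))))) (b (b (a (l 2) (a (a (l 2) (b (l 16881808) (l 16876240))) (a (b (l 16865664) (l 16869432)) (b (l 16849024) (l 16857584))))) (a (l 4) (a (a (b (l 16870576) (l 16850688)) (b (l 16865104) (l 16853416))) (a (b (l 16869544) (l 16866024)) (b (l 16862880) (l 16866840)))))) (a (l 4) (b (a (a (l 4) (b (l 16842912) (l 16826744))) (b (a (l 16861728) (l 16866760)) (a (l 16858456) (l 17058640)))) (a (l 4) (a (b (l 16846056) (l 4)) (b (b (l 16874776) (l 16870640)) (b (l 16872072) (l 16860880))))))))),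 by decide +kernel⟩

theorem c_pm_113 : CertB 536870912 536870912 0 1230186008 536870912 50465866 3 eng mog cd0q1 cd6q3 pd1 false true false .nn 1 1 3
    ndB0q1 ndB6q3 pcB1 cut_pm_113 Ext.none :=
  certB0 (fam := false) (s1 := true) (s2 := false) (a := 1) (b := 1) (c := 3) (cn := .nn) (n1 := ndB0q1) (n2 := ndB6q3) (pc := pcB1) (cut := cut_pm_113) (xt := Ext.none) (P1 := 536870912) (W1 := 536870912) (P2 := 0) (W2 := 1230186008) (P3 := 536870912) (W3 := 50465866) (N0 := 3) (En := eng) (mo := mog) (C1 := cd0q1) (C2 := cd6q3) (C3 := pd1)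
    rfl k0_pm_113

noncomputable def cut_pm_123 : Cut := Cut.of [[⟨3, 0, 0, 1449551462⟩], [⟨0, 1, 0, 67108864⟩, ⟨1, 1, 0, 67108864⟩, ⟨2, 2, 0, 16777216⟩]]

noncomputable def f_pm_123 : ℕ → ℕ → ℕ → ℕ → Bool := onCell 1073741824 536870912 0 1230186008 536870912 50465866
    (rowB 3 eng mog cd0q1 cd6q3 pd2 2 false true false .npn 1 2 3 (qsf 536870912 536870912 0 1230186008 2) ndB0q1 ndB6q3 pcB2 cut_pm_123 Ext.none)

def k0_pm_123 : ∃ t, chk3 f_pm_123 t 1 1 1 = true :=
  ⟨(b (b (a (a (a (b (a (l 6) (b (l 6) (l 16773960))) (a (l 16788056) (l 16782264))) (b (a (l 16768344) (l 16761904)) (l 16770416))) (a (b (a (a (l 16756688) (a (l 16754192) (l 16752768))) (l 16751376)) (a (l 16758040) (l 16754336))) (b (l 16752624) (l 16756872)))) (a (b (l 16753032) (a (l 16756832) (l 16755136))) (a (l 16896392) (b (l 16868816) (l 16747768))))) (a (a (b (a (l 16805800) (a (l 16788384) (l 16777320))) (a (b (l 16824352) (l 16922280)) (b (l 16794456) (l 16805576)))) (a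 (b (a (l 16768744) (l 16764184)) (a (l 16785584) (l 16779312))) (b (l 16912072) (l 16814344)))) (a (a (b (l 16763080) (a (l 16764864) (l 16760904))) (b (l 16928488) (a (l 16758048) (l 16755608)))) (a (b (l 16760184) (l 4)) (l 12046491399))))) (b (a (a (a (b (b (l 16848464) (l 16851064)) (b (l 16841880) (l 4))) (b (b (l 16813568) (l 16815152)) (b (l 16802264) (l 4)))) (b (a (a (l 16797312) (l 16785472)) (b (l 16773136) (l 4))) (l 4))) (l 4)) (l 4))), by decide +kernel⟩

theorem c_pm_123 : CertB 536870912 536870912 0 1230186008 536870912 50465866 3 eng mog cd0q1 cd6q3 pd2 false true false .npn 1 2 3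
    ndB0q1 ndB6q3 pcB2 cut_pm_123 Ext.none :=
  certB2 (fam := false) (s1 := true) (s2 := false) (a := 1) (b := 2) (c := 3) (cn := .npn) (n1 := ndB0q1) (n2 := ndB6q3) (pc := pcB2) (cut := cut_pm_123) (xt := Ext.none) (P1 := 536870912) (W1 := 536870912) (P2 := 0) (W2 := 1230186008) (P3 := 536870912) (W3 := 50465866) (N0 := 3) (En := eng) (mo := mog) (C1 := cd0q1) (C2 := cd6q3) (C3 := pd2)
    rfl (fun _ => rfl) k0_pm_123

noncomputable def cut_pm_133 : Cut := Cut.of [[⟨3, 0, 0, 1449551462⟩]]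

noncomputable def f_pm_133 : ℕ → ℕ → ℕ → ℕ → Bool := onCell 1610612736 536870912 0 1230186008 536870912 50465866
    (rowB 3 eng mog cd0q1 cd6q3 pd3 2 false true false .dn 1 3 3 (qsf 536870912 536870912 0 1230186008 3) ndB0q1 ndB6q3 pcB3 cut_pm_133 Ext.none)

def k0_pm_133 : ∃ t, chk3 f_pm_133 t 1 1 1 = true :=
  ⟨(b (b (a (a (a (l 16788304) (l 1)) (l 1)) (l 1)) (l 1)) (l 1)), by decide +kernel⟩

theorem c_pm_133 : CertB 536870912 536870912 0 1230186008 536870912 50465866 3 eng mog cd0q1 cd6q3 pd3 false true false .dn 1 3 3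
    ndB0q1 ndB6q3 pcB3 cut_pm_133 Ext.none :=
  certB2 (fam := false) (s1 := true) (s2 := false) (a := 1) (b := 3) (c := 3) (cn := .dn) (n1 := ndB0q1) (n2 := ndB6q3) (pc := pcB3) (cut := cut_pm_133) (xt := Ext.none) (P1 := 536870912) (W1 := 536870912) (P2 := 0) (W2 := 1230186008) (P3 := 536870912) (W3 := 50465866) (N0 := 3) (En := eng) (mo := mog) (C1 := cd0q1) (C2 := cd6q3) (C3 := pd3)
    rfl (fun _ => rfl) k0_pm_133

noncomputable def cut_pm_202 : Cut := Cut.of [[⟨3, 0, 0, 1449551462⟩]]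

noncomputable def f_pm_202 : ℕ → ℕ → ℕ → ℕ → Bool := onCell 0 536870912 1073741824 536870912 536870912 50465866
    (rowB 3 eng mog cd0q2 cd6q2 pd0 0 false true false .pp 2 0 2 (qsf 0 536870912 1073741824 536870912 0) ndB0q2 ndB6q2 pcB0 cut_pm_202 Ext.none)

def k0_pm_202 : ∃ t, chk3 f_pm_202 t 1 1 1 = true :=
  ⟨(a (b (a (b (l 1) (b (a (b (l 16625984) (l 16661352)) (b (l 16635424) (l 16669976))) (a (l 16690328) (l 16699192)))) (b (b (l 1) (b (l 1) (a (l 1) (l 16600560)))) (b (a (b (l 16645072) (l 16672944)) (l 16660392)) (a (l 16703800) (l 16706832))))) (b (a (b (a (b (l 16716328) (l 16729400)) (l 16737792)) (a (l 16745192) (l 16763872))) (b (a (l 16748408) (l 16758656)) (a (l 16785664) (l 16810048)))) (a (b (a (b (l 16735984) (l 16719880)) (l 16769856)) (a (b (l 16701120) (l 16754272)) (b (l 16767192) (l 16784496)))) (b (b (l 16820256) (a (l 16810904) (l 16853968))) (a (l 16833760) (b (l 16880520) (l 16903824))))))) (b (b (a (b (l 1) (a (b (l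 1) (l 16615016)) (l 4))) (l 4)) (a (b (a (l 16657088) (l 61975308663)) (a (l 16710120) (l 16732872))) (b (l 4) (a (l 4) (l 4))))) (a (b (b (a (l 16776752) (l 16788568)) (a (l 16842616) (l 16833312))) (b (a (l 16902104) (b (l 16861432) (l 16864176))) (a (b (l 16915784) (l 16902424)) (l 16892856)))) (b (b (a (l 16775568) (l 4)) (a (b (l 16799008) (l 16816800)) (b (l 4) (l 16810088)))) (b (a (b (l 16833376) (l 16849464)) (l 16846544)) (b (a (l 16858232) (l 16855608)) (a (l 16856720) (l 16868832)))))))), by decide +kernel⟩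

theorem c_pm_202 : CertB 0 536870912 1073741824 536870912 536870912 50465866 3 eng mog cd0q2 cd6q2 pd0 false true false .pp 2 0 2
    ndB0q2 ndB6q2 pcB0 cut_pm_202 Ext.none :=
  certB0 (fam := false) (s1 := true) (s2 := false) (a := 2) (b := 0) (c := 2) (cn := .pp) (n1 := ndB0q2) (n2 := ndB6q2) (pc := pcB0) (cut := cut_pm_202) (xt := Ext.none) (P1 := 0) (W1 := 536870912) (P2 := 1073741824) (W2 := 536870912) (P3 := 536870912) (W3 := 50465866) (N0 := 3) (En := eng) (mo := mog) (C1 := cd0q2) (C2 := cd6q2) (C3 := pd0)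
    rfl k0_pm_202

noncomputable def cut_pm_203 : Cut := Cut.of [[⟨3, 0, 0, 1449551462⟩]]

noncomputable def f_pm_203 : ℕ → ℕ → ℕ → ℕ → Bool := onCell 0 536870912 0 1230186008 536870912 50465866
    (rowB 3 eng mog cd0q2 cd6q3 pd0 0 false true false .up 2 0 3 (qsf 0 536870912 0 1230186008 0) ndB0q2 ndB6q3 pcB0 cut_pm_203 Ext.none)

def k0_pm_203 : ∃ t, chk3 f_pm_203 t 1 1 1 = true :=
  ⟨(b (l 2) (b (l 2) (a (b (b (l 2) (a (a (l 6) (l 16824984)) (a (l 16876632) (l 16947360)))) (b (a (a (b (l 16813504) (l 16821144)) (b (l 16852728) (l 16852440))) (a (l 16904624) (l 16937616))) (a (a (b (l 16809944) (l 16790000)) (b (l 16841152) (l 16818328))) (b (a (l 16882608) (l 16946776)) (a (l 16860280) (l 16928512)))))) (b (l 2) (a (b (a (l 16917720) (l 17130952)) (b (a (l 16903608) (l 16887816)) (a (l 16901488) (l 16886248)))) (b (a (b (l 2) (l 16881400)) (l 2)) (a (b (l 16883480) (l 16793952)) (b (a (l 16880232) (l 2)) (a (l 16872032) (l 16874152)))))))))),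 by decide +kernel⟩

theorem c_pm_203 : CertB 0 536870912 0 1230186008 536870912 50465866 3 eng mog cd0q2 cd6q3 pd0 false true false .up 2 0 3
    ndB0q2 ndB6q3 pcB0 cut_pm_203 Ext.none :=
  certB0 (fam := false) (s1 := true) (s2 := false) (a := 2) (b := 0) (c := 3) (cn := .up) (n1 := ndB0q2) (n2 := ndB6q3) (pc := pcB0) (cut := cut_pm_203) (xt := Ext.none) (P1 := 0) (W1 := 536870912) (P2 := 0) (W2 := 1230186008) (P3 := 536870912) (W3 := 50465866) (N0 := 3) (En := eng) (mo := mog) (C1 := cd0q2) (C2 := cd6q3) (C3 := pd0)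
    rfl k0_pm_203

noncomputable def cut_pm_213 : Cut := Cut.of [[⟨3, 0, 0, 1449551462⟩], [⟨0, 1, 0, 67108864⟩, ⟨1, 1, 0, 67108864⟩, ⟨2, 2, 0, 16777216⟩]]

noncomputable def f_pm_213 : ℕ → ℕ → ℕ → ℕ → Bool := onCell 0 536870912 0 1230186008 536870912 50465866
    (rowB 3 eng mog cd0q2 cd6q3 pd1 0 false true false .pnn 2 1 3 (qsf 0 536870912 0 1230186008 1) ndB0q2 ndB6q3 pcB1 cut_pm_213 Ext.none)

def k0_pm_213 : ∃ t, chk3 f_pm_213 t 1 1 1 = true :=
  ⟨(b (a (l 6) (b (a (l 6) (l 6)) (a (b (l 6) (a (l 6) (b (l 6) (l 16791104)))) (b (a (b (l 6) (a (l 6) (l 16795672))) (b (l 16795688) (l 16803176))) (a (b (l 16799456) (l 16806912)) (b (l 16812384) (l 16823160))))))) (b (a (b (l 6) (a (l 6) (b (a (l 6) (l 16780568)) (a (l 16801928) (l 16794744))))) (a (b (a (b (a (l 6) (l 6)) (l 16782504)) (b (l 16795800) (l 16798808))) (b (a (l 16782304) (l 16802224)) (a (l 16942376) (l 16804656)))) (b (a (b (l 16814648) (l 16821680)) (l 16837768)) (b (l 16834352) (a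 (l 16824688) (l 16848032)))))) (a (b (a (b (l 6) (a (l 6) (l 16855080))) (b (a (l 16840192) (l 16838080)) (a (l 16918128) (l 16906240)))) (b (a (l 1) (a (l 1) (l 16943968))) (l 1))) (b (a (b (l 16835064) (a (a (l 16895040) (l 16890600)) (l 16884136))) (b (a (l 16837920) (l 16916376)) (a (l 16873824) (l 16871784)))) (a (b (a (b (l 16941200) (l 16942856)) (l 17112192)) (l 1)) (b (a (b (l 16888528) (l 16877464)) (l 16880472)) (a (b (a (l 16871424) (l 16873688)) (l 1)) (b (a (l 16874840) (l 16875336)) (a (l 16866864) (l 16870008)))))))))), by decide +kernel⟩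

theorem c_pm_213 : CertB 0 536870912 0 1230186008 536870912 50465866 3 eng mog cd0q2 cd6q3 pd1 false true false .pnn 2 1 3
    ndB0q2 ndB6q3 pcB1 cut_pm_213 Ext.none :=
  certB0 (fam := false) (s1 := true) (s2 := false) (a := 2) (b := 1) (c := 3) (cn := .pnn) (n1 := ndB0q2) (n2 := ndB6q3) (pc := pcB1) (cut := cut_pm_213) (xt := Ext.none) (P1 := 0) (W1 := 536870912) (P2 := 0) (W2 := 1230186008) (P3 := 536870912) (W3 := 50465866) (N0 := 3) (En := eng) (mo := mog) (C1 := cd0q2) (C2 := cd6q3) (C3 := pd1)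
    rfl k0_pm_213

noncomputable def cut_mm_001 : Cut := Cut.of [[⟨3, 0, 0, 1449551462⟩]]

noncomputable def f_mm_001 : ℕ → ℕ → ℕ → ℕ → Bool := onCell 0 536870912 536870912 536870912 536870912 50465866
    (rowB 3 eng mog cd0q0 cd6q1 pd0 0 false false false .up 0 0 1 (qsf 0 536870912 536870912 536870912 0) ndB0q0 ndB6q1 pcB0 cut_mm_001 Ext.none)

def k0_mm_001 : ∃ t, chk3 f_mm_001 t 1 1 1 = true :=
  ⟨(l 6), by decide +kernel⟩

theorem c_mm_001 : CertB 0 536870912 536870912 536870912 536870912 50465866 3 eng mog cd0q0 cd6q1 pd0 false false false .up 0 0 1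
    ndB0q0 ndB6q1 pcB0 cut_mm_001 Ext.none :=
  certB0 (fam := false) (s1 := false) (s2 := false) (a := 0) (b := 0) (c := 1) (cn := .up) (n1 := ndB0q0) (n2 := ndB6q1) (pc := pcB0) (cut := cut_mm_001) (xt := Ext.none) (P1 := 0) (W1 := 536870912) (P2 := 536870912) (W2 := 536870912) (P3 := 536870912) (W3 := 50465866) (N0 := 3) (En := eng) (mo := mog) (C1 := cd0q0) (C2 := cd6q1) (C3 := pd0)
    rfl k0_mm_001

noncomputable def cut_mm_011 : Cut := Cut.of [[⟨3, 0, 0, 1449551462⟩]]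

noncomputable def f_mm_011 : ℕ → ℕ → ℕ → ℕ → Bool := onCell 0 536870912 536870912 536870912 536870912 50465866
    (rowB 3 eng mog cd0q0 cd6q1 pd1 0 false false false .pnn 0 1 1 (qsf 0 536870912 536870912 536870912 1) ndB0q0 ndB6q1 pcB1 cut_mm_011 Ext.none)

def k0_mm_011 : ∃ t, chk3 f_mm_011 t 1 1 1 = true :=
  ⟨(l 6), by decide +kernel⟩

theorem c_mm_011 : CertB 0 536870912 536870912 536870912 536870912 50465866 3 eng mog cd0q0 cd6q1 pd1 false false false .pnn 0 1 1
    ndB0q0 ndB6q1 pcB1 cut_mm_011 Ext.none :=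
  certB0 (fam := false) (s1 := false) (s2 := false) (a := 0) (b := 1) (c := 1) (cn := .pnn) (n1 := ndB0q0) (n2 := ndB6q1) (pc := pcB1) (cut := cut_mm_011) (xt := Ext.none) (P1 := 0) (W1 := 536870912) (P2 := 536870912) (W2 := 536870912) (P3 := 536870912) (W3 := 50465866) (N0 := 3) (En := eng) (mo := mog) (C1 := cd0q0) (C2 := cd6q1) (C3 := pd1)
    rfl k0_mm_011

noncomputable def cut_mm_012 : Cut := Cut.of [[⟨3, 0, 0, 1449551462⟩]]

noncomputable def f_mm_012 : ℕ → ℕ → ℕ → ℕ → Bool := onCell 0 536870912 1073741824 536870912 536870912 50465866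
    (rowB 3 eng mog cd0q0 cd6q2 pd1 0 false false false .pnp 0 1 2 (qsf 0 536870912 1073741824 536870912 1) ndB0q0 ndB6q2 pcB1 cut_mm_012 Ext.none)

def k0_mm_012 : ∃ t, chk3 f_mm_012 t 1 1 1 = true :=
  ⟨(l 5), by decide +kernel⟩

theorem c_mm_012 : CertB 0 536870912 1073741824 536870912 536870912 50465866 3 eng mog cd0q0 cd6q2 pd1 false false false .pnp 0 1 2
    ndB0q0 ndB6q2 pcB1 cut_mm_012 Ext.none :=
  certB0 (fam := false) (s1 := false) (s2 := false) (a := 0) (b := 1) (c := 2) (cn := .pnp) (n1 := ndB0q0) (n2 := ndB6q2) (pc := pcB1) (cut := cut_mm_012) (xt := Ext.none) (P1 := 0) (W1 := 536870912) (P2 := 1073741824) (W2 := 536870912) (P3 := 536870912) (W3 := 50465866) (N0 := 3) (En := eng) (mo := mog) (C1 := cd0q0) (C2 := cd6q2) (C3 := pd1)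
    rfl k0_mm_012

noncomputable def cut_mm_022 : Cut := Cut.of [[⟨3, 0, 0, 1449551462⟩]]

noncomputable def f_mm_022 : ℕ → ℕ → ℕ → ℕ → Bool := onCell 0 536870912 1073741824 536870912 536870912 50465866
    (rowB 3 eng mog cd0q0 cd6q2 pd2 0 false false false .pp 0 2 2 (qsf 0 536870912 1073741824 536870912 2) ndB0q0 ndB6q2 pcB2 cut_mm_022 Ext.none)

def k0_mm_022 : ∃ t, chk3 f_mm_022 t 1 1 1 = true :=
  ⟨(l 5), by decide +kernel⟩

theorem c_mm_022 : CertB 0 536870912 1073741824 536870912 536870912 50465866 3 eng mog cd0q0 cd6q2 pd2 false false false .pp 0 2 2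
    ndB0q0 ndB6q2 pcB2 cut_mm_022 Ext.none :=
  certB0 (fam := false) (s1 := false) (s2 := false) (a := 0) (b := 2) (c := 2) (cn := .pp) (n1 := ndB0q0) (n2 := ndB6q2) (pc := pcB2) (cut := cut_mm_022) (xt := Ext.none) (P1 := 0) (W1 := 536870912) (P2 := 1073741824) (W2 := 536870912) (P3 := 536870912) (W3 := 50465866) (N0 := 3) (En := eng) (mo := mog) (C1 := cd0q0) (C2 := cd6q2) (C3 := pd2)
    rfl k0_mm_022

noncomputable def cut_mm_023 : Cut := Cut.of [[⟨3, 0, 0, 1449551462⟩]]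

noncomputable def f_mm_023 : ℕ → ℕ → ℕ → ℕ → Bool := onCell 0 536870912 0 1230186008 536870912 50465866
    (rowB 3 eng mog cd0q0 cd6q3 pd2 0 false false false .up 0 2 3 (qsf 0 536870912 0 1230186008 2) ndB0q0 ndB6q3 pcB2 cut_mm_023 Ext.none)

def k0_mm_023 : ∃ t, chk3 f_mm_023 t 1 1 1 = true :=
  ⟨(l 5), by decide +kernel⟩

theorem c_mm_023 : CertB 0 536870912 0 1230186008 536870912 50465866 3 eng mog cd0q0 cd6q3 pd2 false false false .up 0 2 3
    ndB0q0 ndB6q3 pcB2 cut_mm_023 Ext.none :=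
  certB0 (fam := false) (s1 := false) (s2 := false) (a := 0) (b := 2) (c := 3) (cn := .up) (n1 := ndB0q0) (n2 := ndB6q3) (pc := pcB2) (cut := cut_mm_023) (xt := Ext.none) (P1 := 0) (W1 := 536870912) (P2 := 0) (W2 := 1230186008) (P3 := 536870912) (W3 := 50465866) (N0 := 3) (En := eng) (mo := mog) (C1 := cd0q0) (C2 := cd6q3) (C3 := pd2)
    rfl k0_mm_023

noncomputable def cut_mm_033 : Cut := Cut.of [[⟨3, 0, 0, 1449551462⟩]]

noncomputable def f_mm_033 : ℕ → ℕ → ℕ → ℕ → Bool := onCell 0 536870912 0 1230186008 536870912 50465866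
    (rowB 3 eng mog cd0q0 cd6q3 pd3 0 false false false .pnn 0 3 3 (qsf 0 536870912 0 1230186008 3) ndB0q0 ndB6q3 pcB3 cut_mm_033 Ext.none)

def k0_mm_033 : ∃ t, chk3 f_mm_033 t 1 1 1 = true :=
  ⟨(l 5), by decide +kernel⟩

theorem c_mm_033 : CertB 0 536870912 0 1230186008 536870912 50465866 3 eng mog cd0q0 cd6q3 pd3 false false false .pnn 0 3 3
    ndB0q0 ndB6q3 pcB3 cut_mm_033 Ext.none :=
  certB0 (fam := false) (s1 := false) (s2 := false) (a := 0) (b := 3) (c := 3) (cn := .pnn) (n1 := ndB0q0) (n2 := ndB6q3) (pc := pcB3) (cut := cut_mm_033) (xt := Ext.none) (P1 := 0) (W1 := 536870912) (P2 := 0) (W2 := 1230186008) (P3 := 536870912) (W3 := 50465866) (N0 := 3) (En := eng) (mo := mog) (C1 := cd0q0) (C2 := cd6q3) (C3 := pd3)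
    rfl k0_mm_033

noncomputable def cut_mm_101 : Cut := Cut.of [[⟨3, 0, 0, 1449551462⟩], [⟨0, 1, 0, 67108864⟩, ⟨1, 0, 0, 67108864⟩, ⟨2, 1, 0, 67108864⟩]]

noncomputable def f_mm_101 : ℕ → ℕ → ℕ → ℕ → Bool := onCell 536870912 536870912 0 536870912 536870912 50465866
    (rowB 3 eng mog cd0q1 cd6q1 pd0 1 false false false .npn 1 0 1 (qsf 536870912 536870912 536870912 536870912 0) ndB0q1 ndB6q1 pcB0 cut_mm_101 Ext.none)

def k0_mm_101 : ∃ t, chk3 f_mm_101 t 1 1 1 = true :=
  ⟨(l 6), by decide +kernel⟩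

theorem c_mm_101 : CertB 536870912 536870912 536870912 536870912 536870912 50465866 3 eng mog cd0q1 cd6q1 pd0 false false false .npn 1 0 1
    ndB0q1 ndB6q1 pcB0 cut_mm_101 Ext.none :=
  certB1 (fam := false) (s1 := false) (s2 := false) (a := 1) (b := 0) (c := 1) (cn := .npn) (n1 := ndB0q1) (n2 := ndB6q1) (pc := pcB0) (cut := cut_mm_101) (xt := Ext.none) (P1 := 536870912) (W1 := 536870912) (P2 := 536870912) (W2 := 536870912) (P3 := 536870912) (W3 := 50465866) (N0 := 3) (En := eng) (mo := mog) (C1 := cd0q1) (C2 := cd6q1) (C3 := pd0)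
    rfl (fun _ => rfl) k0_mm_101

noncomputable def cut_mm_102 : Cut := Cut.of [[⟨3, 0, 0, 1449551462⟩], [⟨0, 1, 0, 67108864⟩, ⟨1, 0, 0, 67108864⟩, ⟨2, 1, 0, 67108864⟩]]

noncomputable def f_mm_102 : ℕ → ℕ → ℕ → ℕ → Bool := onCell 536870912 536870912 1073741824 536870912 536870912 50465866
    (rowB 3 eng mog cd0q1 cd6q2 pd0 0 false false false .npp 1 0 2 (qsf 536870912 536870912 1073741824 536870912 0) ndB0q1 ndB6q2 pcB0 cut_mm_102 Ext.none)

def k0_mm_102 : ∃ t, chk3 f_mm_102 t 1 1 1 = true :=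
  ⟨(l 6), by decide +kernel⟩

theorem c_mm_102 : CertB 536870912 536870912 1073741824 536870912 536870912 50465866 3 eng mog cd0q1 cd6q2 pd0 false false false .npp 1 0 2
    ndB0q1 ndB6q2 pcB0 cut_mm_102 Ext.none :=
  certB0 (fam := false) (s1 := false) (s2 := false) (a := 1) (b := 0) (c := 2) (cn := .npp) (n1 := ndB0q1) (n2 := ndB6q2) (pc := pcB0) (cut := cut_mm_102) (xt := Ext.none) (P1 := 536870912) (W1 := 536870912) (P2 := 1073741824) (W2 := 536870912) (P3 := 536870912) (W3 := 50465866) (N0 := 3) (En := eng) (mo := mog) (C1 := cd0q1) (C2 := cd6q2) (C3 := pd0)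
    rfl k0_mm_102

noncomputable def cut_mm_112 : Cut := Cut.of [[⟨3, 0, 0, 1449551462⟩]]

noncomputable def f_mm_112 : ℕ → ℕ → ℕ → ℕ → Bool := onCell 536870912 536870912 1073741824 536870912 536870912 50465866
    (rowB 3 eng mog cd0q1 cd6q2 pd1 0 false false false .dn 1 1 2 (qsf 536870912 536870912 1073741824 536870912 1) ndB0q1 ndB6q2 pcB1 cut_mm_112 Ext.none)

def k0_mm_112 : ∃ t, chk3 f_mm_112 t 1 1 1 = true :=
  ⟨(l 6), by decide +kernel⟩

theorem c_mm_112 : CertB 536870912 536870912 1073741824 536870912 536870912 50465866 3 eng mog cd0q1 cd6q2 pd1 false false false .dn 1 1 2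
    ndB0q1 ndB6q2 pcB1 cut_mm_112 Ext.none :=
  certB0 (fam := false) (s1 := false) (s2 := false) (a := 1) (b := 1) (c := 2) (cn := .dn) (n1 := ndB0q1) (n2 := ndB6q2) (pc := pcB1) (cut := cut_mm_112) (xt := Ext.none) (P1 := 536870912) (W1 := 536870912) (P2 := 1073741824) (W2 := 536870912) (P3 := 536870912) (W3 := 50465866) (N0 := 3) (En := eng) (mo := mog) (C1 := cd0q1) (C2 := cd6q2) (C3 := pd1)
    rfl k0_mm_112

noncomputable def cut_mm_113 : Cut := Cut.of [[⟨3, 0, 0, 1449551462⟩]]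

noncomputable def f_mm_113 : ℕ → ℕ → ℕ → ℕ → Bool := onCell 536870912 536870912 0 1230186008 536870912 50465866
    (rowB 3 eng mog cd0q1 cd6q3 pd1 0 false false false .nn 1 1 3 (qsf 536870912 536870912 0 1230186008 1) ndB0q1 ndB6q3 pcB1 cut_mm_113 Ext.none)

def k0_mm_113 : ∃ t, chk3 f_mm_113 t 1 1 1 = true :=
  ⟨(a (l 5) (b (l 5) (l 6))), by decide +kernel⟩

theorem c_mm_113 : CertB 536870912 536870912 0 1230186008 536870912 50465866 3 eng mog cd0q1 cd6q3 pd1 false false false .nn 1 1 3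
    ndB0q1 ndB6q3 pcB1 cut_mm_113 Ext.none :=
  certB0 (fam := false) (s1 := false) (s2 := false) (a := 1) (b := 1) (c := 3) (cn := .nn) (n1 := ndB0q1) (n2 := ndB6q3) (pc := pcB1) (cut := cut_mm_113) (xt := Ext.none) (P1 := 536870912) (W1 := 536870912) (P2 := 0) (W2 := 1230186008) (P3 := 536870912) (W3 := 50465866) (N0 := 3) (En := eng) (mo := mog) (C1 := cd0q1) (C2 := cd6q3) (C3 := pd1)
    rfl k0_mm_113

noncomputable def cut_mm_123 : Cut := Cut.of [[⟨3, 0, 0, 1449551462⟩]]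

noncomputable def f_mm_123 : ℕ → ℕ → ℕ → ℕ → Bool := onCell 1073741824 536870912 0 1230186008 536870912 50465866
    (rowB 3 eng mog cd0q1 cd6q3 pd2 2 false false false .npn 1 2 3 (qsf 536870912 536870912 0 1230186008 2) ndB0q1 ndB6q3 pcB2 cut_mm_123 Ext.none)

def k0_mm_123 : ∃ t, chk3 f_mm_123 t 1 1 1 = true :=
  ⟨(b (l 5) (l 5)), by decide +kernel⟩

theorem c_mm_123 : CertB 536870912 536870912 0 1230186008 536870912 50465866 3 eng mog cd0q1 cd6q3 pd2 false false false .npn 1 2 3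
    ndB0q1 ndB6q3 pcB2 cut_mm_123 Ext.none :=
  certB2 (fam := false) (s1 := false) (s2 := false) (a := 1) (b := 2) (c := 3) (cn := .npn) (n1 := ndB0q1) (n2 := ndB6q3) (pc := pcB2) (cut := cut_mm_123) (xt := Ext.none) (P1 := 536870912) (W1 := 536870912) (P2 := 0) (W2 := 1230186008) (P3 := 536870912) (W3 := 50465866) (N0 := 3) (En := eng) (mo := mog) (C1 := cd0q1) (C2 := cd6q3) (C3 := pd2)
    rfl (fun _ => rfl) k0_mm_123

noncomputable def cut_mm_133 : Cut := Cut.of [[⟨3, 0, 0, 1449551462⟩]]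

noncomputable def f_mm_133 : ℕ → ℕ → ℕ → ℕ → Bool := onCell 1610612736 536870912 0 1230186008 536870912 50465866
    (rowB 3 eng mog cd0q1 cd6q3 pd3 2 false false false .dn 1 3 3 (qsf 536870912 536870912 0 1230186008 3) ndB0q1 ndB6q3 pcB3 cut_mm_133 Ext.none)

def k0_mm_133 : ∃ t, chk3 f_mm_133 t 1 1 1 = true :=
  ⟨(l 5), by decide +kernel⟩

theorem c_mm_133 : CertB 536870912 536870912 0 1230186008 536870912 50465866 3 eng mog cd0q1 cd6q3 pd3 false false false .dn 1 3 3
    ndB0q1 ndB6q3 pcB3 cut_mm_133 Ext.none :=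
  certB2 (fam := false) (s1 := false) (s2 := false) (a := 1) (b := 3) (c := 3) (cn := .dn) (n1 := ndB0q1) (n2 := ndB6q3) (pc := pcB3) (cut := cut_mm_133) (xt := Ext.none) (P1 := 536870912) (W1 := 536870912) (P2 := 0) (W2 := 1230186008) (P3 := 536870912) (W3 := 50465866) (N0 := 3) (En := eng) (mo := mog) (C1 := cd0q1) (C2 := cd6q3) (C3 := pd3)
    rfl (fun _ => rfl) k0_mm_133

noncomputable def cut_mm_202 : Cut := Cut.of [[⟨3, 0, 0, 1449551462⟩], [⟨0, 1, 0, 67108864⟩, ⟨1, 0, 0, 67108864⟩, ⟨2, 1, 0, 67108864⟩]]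

noncomputable def f_mm_202 : ℕ → ℕ → ℕ → ℕ → Bool := onCell 0 536870912 0 536870912 536870912 50465866
    (rowB 3 eng mog cd0q2 cd6q2 pd0 1 false false false .pp 2 0 2 (qsf 0 536870912 1073741824 536870912 0) ndB0q2 ndB6q2 pcB0 cut_mm_202 Ext.none)

def k0_mm_202 : ∃ t, chk3 f_mm_202 t 1 1 1 = true :=
  ⟨(a (b (b (a (b (a (l 16658784) (b (l 16635768) (l 16651576))) (a (b (l 16683256) (l 16700472)) (b (l 16672624) (l 16685784)))) (b (b (a (l 16621552) (l 16642152)) (a (l 16645592) (l 16639680))) (a (l 16668704) (b (l 16657296) (a (l 16670608) (l 6)))))) (a (b (a (b (l 16714520) (l 16717424)) (b (l 16697192) (l 16682384))) (a (b (l 16712272) (a (l 16705768) (l 16688744))) (b (a (l 16686376) (l 16682352)) (l 16685600)))) (b (b (a (b (l 16682848) (a (l 16688104) (l 16680976))) (b (a (l 16675872) (l 6)) (l 6))) (a (a (l 16681208) (l 16684176)) (l 6))) (a (b (a (l 16681072) (l 6)) (l 6)) (l 6))))) (a (b (b (a (b (l 16697248) (l 16705592)) (b (a (l 16689392)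 (l 16690992)) (b (l 16701248) (l 6)))) (a (b (a (l 16743336) (l 16738736)) (l 16772752)) (l 6))) (l 2)) (l 6))) (b (b (a (a (b (a (b (l 16622096) (l 16643536)) (l 6)) (l 6)) (l 6)) (l 6)) (l 6)) (l 6))), by decide +kernel⟩

theorem c_mm_202 : CertB 0 536870912 1073741824 536870912 536870912 50465866 3 eng mog cd0q2 cd6q2 pd0 false false false .pp 2 0 2
    ndB0q2 ndB6q2 pcB0 cut_mm_202 Ext.none :=
  certB1 (fam := false) (s1 := false) (s2 := false) (a := 2) (b := 0) (c := 2) (cn := .pp) (n1 := ndB0q2) (n2 := ndB6q2) (pc := pcB0) (cut := cut_mm_202) (xt := Ext.none) (P1 := 0) (W1 := 536870912) (P2 := 1073741824) (W2 := 536870912) (P3 := 536870912) (W3 := 50465866) (N0 := 3) (En := eng) (mo := mog) (C1 := cd0q2) (C2 := cd6q2) (C3 := pd0)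
    rfl (fun _ => rfl) k0_mm_202

noncomputable def cut_mm_203 : Cut := Cut.of [[⟨3, 0, 0, 1449551462⟩]]

noncomputable def f_mm_203 : ℕ → ℕ → ℕ → ℕ → Bool := onCell 0 536870912 0 1230186008 536870912 50465866
    (rowB 3 eng mog cd0q2 cd6q3 pd0 0 false false false .up 2 0 3 (qsf 0 536870912 0 1230186008 0) ndB0q2 ndB6q3 pcB0 cut_mm_203 Ext.none)

def k0_mm_203 : ∃ t, chk3 f_mm_203 t 1 1 1 = true :=
  ⟨(b (l 2) (b (l 2) (a (b (l 6) (a (b (l 6) (a (b (l 6) (l 16777064)) (l 6))) (l 6))) (l 3)))), by decide +kernel⟩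

theorem c_mm_203 : CertB 0 536870912 0 1230186008 536870912 50465866 3 eng mog cd0q2 cd6q3 pd0 false false false .up 2 0 3
    ndB0q2 ndB6q3 pcB0 cut_mm_203 Ext.none :=
  certB0 (fam := false) (s1 := false) (s2 := false) (a := 2) (b := 0) (c := 3) (cn := .up) (n1 := ndB0q2) (n2 := ndB6q3) (pc := pcB0) (cut := cut_mm_203) (xt := Ext.none) (P1 := 0) (W1 := 536870912) (P2 := 0) (W2 := 1230186008) (P3 := 536870912) (W3 := 50465866) (N0 := 3) (En := eng) (mo := mog) (C1 := cd0q2) (C2 := cd6q3) (C3 := pd0)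
    rfl k0_mm_203

noncomputable def cut_mm_213 : Cut := Cut.of [[⟨3, 0, 0, 1449551462⟩]]

noncomputable def f_mm_213 : ℕ → ℕ → ℕ → ℕ → Bool := onCell 0 536870912 0 1230186008 536870912 50465866
    (rowB 3 eng mog cd0q2 cd6q3 pd1 0 false false false .pnn 2 1 3 (qsf 0 536870912 0 1230186008 1) ndB0q2 ndB6q3 pcB1 cut_mm_213 Ext.none)

def k0_mm_213 : ∃ t, chk3 f_mm_213 t 1 1 1 = true :=
  ⟨(b (l 6) (b (l 6) (a (b (l 6) (a (l 1) (l 6))) (l 3)))), by decide +kernel⟩

theorem c_mm_213 : CertB 0 536870912 0 1230186008 536870912 50465866 3 eng mog cd0q2 cd6q3 pd1 false false false .pnn 2 1 3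
    ndB0q2 ndB6q3 pcB1 cut_mm_213 Ext.none :=
  certB0 (fam := false) (s1 := false) (s2 := false) (a := 2) (b := 1) (c := 3) (cn := .pnn) (n1 := ndB0q2) (n2 := ndB6q3) (pc := pcB1) (cut := cut_mm_213) (xt := Ext.none) (P1 := 0) (W1 := 536870912) (P2 := 0) (W2 := 1230186008) (P3 := 536870912) (W3 := 50465866) (N0 := 3) (En := eng) (mo := mog) (C1 := cd0q2) (C2 := cd6q3) (C3 := pd1)
    rfl k0_mm_213

end Pool.Agent.Strip051.G.I5000_5470.Tab.C.BB06

namespace Pool.Agent.Strip051.G.I5000_5470.Tab.C.BB10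

open Pool.Agent.Strip051.PB Pool.Agent.Strip051.PB.T
open Pool.Agent.Strip051.G.I5000_5470.Tab

noncomputable def f_pp_001 : ℕ → ℕ → ℕ → ℕ → Bool := onCell 0 536870912 0 536870912 536870912 50465866
    (rowB 3 eng mog cd1q0 cd0q1 pd0 1 false true true .up 0 0 1 (qsf 0 536870912 536870912 536870912 0) ndB1q0 ndB0q1 pcB0 Cut.none Ext.none)

def k0_pp_001 : ∃ t, chk3 f_pp_001 t 1 1 1 = true :=
  ⟨(l 3), by decide +kernel⟩

theorem c_pp_001 : CertB 0 536870912 536870912 536870912 536870912 50465866 3 eng mog cd1q0 cd0q1 pd0 false true true .up 0 0 1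
    ndB1q0 ndB0q1 pcB0 Cut.none Ext.none :=
  certB1 (fam := false) (s1 := true) (s2 := true) (a := 0) (b := 0) (c := 1) (cn := .up) (n1 := ndB1q0) (n2 := ndB0q1) (pc := pcB0) (cut := Cut.none) (xt := Ext.none) (P1 := 0) (W1 := 536870912) (P2 := 536870912) (W2 := 536870912) (P3 := 536870912) (W3 := 50465866) (N0 := 3) (En := eng) (mo := mog) (C1 := cd1q0) (C2 := cd0q1) (C3 := pd0)
    rfl (fun _ => rfl) k0_pp_001

noncomputable def cut_pp_011 : Cut := Cut.of [[⟨0, 0, 0, 67108864⟩, ⟨1, 1, 0, 67108864⟩, ⟨2, 1, 0, 67108864⟩]]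

noncomputable def f_pp_011 : ℕ → ℕ → ℕ → ℕ → Bool := onCell 0 536870912 536870912 536870912 536870912 50465866
    (rowB 3 eng mog cd1q0 cd0q1 pd1 0 false true true .pnn 0 1 1 (qsf 0 536870912 536870912 536870912 1) ndB1q0 ndB0q1 pcB1 cut_pp_011 Ext.none)

def k0_pp_011 : ∃ t, chk3 f_pp_011 t 1 1 1 = true :=
  ⟨(a (b (l 3) (b (l 3) (a (b (l 3) (a (b (l 3) (a (b (l 3) (l 6)) (l 3))) (l 3))) (l 3)))) (l 3)), by decide +kernel⟩

theorem c_pp_011 : CertB 0 536870912 536870912 536870912 536870912 50465866 3 eng mog cd1q0 cd0q1 pd1 false true true .pnn 0 1 1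
    ndB1q0 ndB0q1 pcB1 cut_pp_011 Ext.none :=
  certB0 (fam := false) (s1 := true) (s2 := true) (a := 0) (b := 1) (c := 1) (cn := .pnn) (n1 := ndB1q0) (n2 := ndB0q1) (pc := pcB1) (cut := cut_pp_011) (xt := Ext.none) (P1 := 0) (W1 := 536870912) (P2 := 536870912) (W2 := 536870912) (P3 := 536870912) (W3 := 50465866) (N0 := 3) (En := eng) (mo := mog) (C1 := cd1q0) (C2 := cd0q1) (C3 := pd1)
    rfl k0_pp_011

noncomputable def cut_pp_012 : Cut := Cut.of [[⟨0, 0, 0, 67108864⟩, ⟨1, 1, 0, 67108864⟩, ⟨2, 1, 0, 67108864⟩]]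

noncomputable def f_pp_012 : ℕ → ℕ → ℕ → ℕ → Bool := onCell 536870912 536870912 0 536870912 536870912 50465866
    (rowB 3 eng mog cd1q0 cd0q2 pd1 2 false true true .pnp 0 1 2 (qsf 0 536870912 0 536870912 1) ndB1q0 ndB0q2 pcB1 cut_pp_012 Ext.none)

def k0_pp_012 : ∃ t, chk3 f_pp_012 t 2 1 1 = true :=
  ⟨(b (a (b (l 2) (l 3)) (b (a (b (b (a (l 16738272) (l 16724048)) (a (l 16759736) (l 16744136))) (b (a (l 16796720) (a (l 16766880) (l 16759224))) (a (b (l 141834701127) (a (l 2) (l 16816832))) (a (l 16773896) (l 16773752))))) (b (b (l 16698072) (l 16717840)) (a (b (l 16746624) (a (l 16768000) (l 16761088))) (b (l 16728184) (l 16748648))))) (a (b (a (b (a (b (l 2) (l 3)) (b (a (b (l 169282147783) (l 194515093831)) (b (l 16781872) (l 169282137495))) (b (l 196125683607) (l 3)))) (l 3)) (b (a (b (l 16809960) (a (b (l 168745257319) (l 193441331607)) (b (l 16774144) (l 167134636231)))) (b (l 16767624) (b (l 16760848) (l 16787008)))) (a (b (a (l 3) (l 193978197767))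 (l 3)) (b (a (b (l 163913403319) (l 189146347671)) (b (l 16768416) (b (l 138143620135) (l 164987142983)))) (a (l 3) (l 186461990935)))))) (l 3)) (b (a (b (a (l 16773120) (l 16773352)) (a (b (a (l 16763312) (l 16758416)) (a (b (b (l 133311774231) (l 160155300055)) (l 182703885495)) (b (l 16786192) (a (l 164987135655) (l 146196667207))))) (b (l 16768640) (a (l 16782848) (l 16758856))))) (b (a (l 16768808) (l 16761920)) (a (l 16772896) (l 16773208)))) (a (b (b (a (a (l 3) (a (l 3) (l 178408916391))) (a (b (a (l 161765907815) (l 144049161127)) (l 3)) (b (l 16764584) (a (l 158544681063) (a (l 145122904103) (l 131701148231)))))) (l 3)) (l 3)) (b (a (b (a (b (l 16760464) (l 109689449479)) (l 16760224)) (a (b (a (l 154249713399) (l 137606720343)) (l 3)) (b (l 113447543831) (a (l 154249714055) (l 134385485687))))) (b (l 16769960) (a (b (l 16762224) (l 110763190647)) (l 16762368)))) (a (l 3) (b (a (b (a (l 156934070439) (l 130627391591)) (l 3)) (b (l 16788824)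 (a (l 160155298807) (l 127406169335)))) (l 3))))))))) (l 3)), by decide +kernel⟩

def k1_pp_012 : ∃ t, chk3 f_pp_012 t 3 2 1 = true :=
  ⟨(a (b (b (a (l 16707976) (a (l 16630696) (l 16606592))) (a (l 16790512) (a (l 16669688) (l 16643648)))) (a (b (a (b (l 16748384) (a (l 16768240) (l 16760200))) (b (l 16725968) (l 16744648))) (a (b (a (l 16773832) (l 16772400)) (a (b (a (l 101099526631) (l 16765072)) (a (b (l 155860333335) (l 3)) (b (l 16771720) (l 159618434727)))) (b (l 16772096) (a (l 16770992) (l 16768296))))) (b (a (l 16765248) (l 16755184)) (a (l 16774928) (l 16769856))))) (b (a (l 16710848) (l 16683712)) (a (b (l 16758240) (a (l 16759744) (l 16747456))) (b (l 16710056) (l 16789784)))))) (b (a (a (b (l 16581712) (l 16616520)) (b (l 16557184) (l 16589600))) (b (a (l 16535080) (l 16514176)) (a (l 16564776) (l 16541112)))) (a (b (a (l 16654864) (l 16647248)) (a (b (l 16680736) (l 16697616)) (b (l 16651944) (l 16669032)))) (b (a (b (l 16590248)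 (l 16607336)) (b (l 16564408) (l 16580480))) (b (a (l 16623872) (a (l 16603264) (l 16589976))) (a (a (l 16647800) (l 16633800)) (a (l 16620072) (l 16606744)))))))), by decide +kernel⟩

def k2_pp_012 : ∃ t, chk3 f_pp_012 t 6 3 1 = true :=
  ⟨(b (a (b (a (b (a (l 3) (b (a (l 166597768375) (l 104320783671)) (l 3))) (l 3)) (b (a (b (l 16814744) (a (l 137606749735) (l 99488950791))) (b (l 16774312) (l 16807360))) (b (a (l 3) (a (l 134385533319) (l 86604058471))) (l 3)))) (l 3)) (b (a (a (b (l 16774728) (b (l 16799376) (a (l 129553702711) (l 134922358455)))) (b (l 16765448) (b (l 16775824) (a (l 16783216) (l 16776232))))) (b (a (l 16752640) (l 16738480)) (a (l 16793392) (l 16759728)))) (a (b (a (l 3) (b (a (l 145659833095) (l 156934065335)) (l 3))) (l 3)) (b (a (b (a (l 16783120) (l 16776040)) (a (b (l 16805440) (l 215453058199)) (b (l 16786416) (l 143512363543)))) (b (l 16775032) (a (l 16781432) (l 16774600)))) (b (a (a (l 3) (l 220821771799)) (a (b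 (l 148881066855) (l 214916180343)) (l 128479972919))) (a (l 3) (a (l 3) (l 217063666455)))))))) (l 3)), by decide +kernel⟩

def k3_pp_012 : ∃ t, chk3 f_pp_012 t 14 6 1 = true :=
  ⟨(b (a (a (b (l 16723728) (l 16745592)) (b (l 16709320) (l 16731136))) (b (a (l 16695088) (l 16680776)) (a (l 16737424) (l 16701784)))) (a (b (a (l 16810824) (l 16776056)) (a (b (a (l 16778104) (l 16773536)) (a (b (l 159081582823) (l 213842429607)) (b (l 16779360) (l 154249740679)))) (b (l 16771880) (a (l 16796448) (l 16775088))))) (b (a (l 16740176) (l 16766848)) (a (b (l 16758168) (l 16769248)) (l 16790656))))), by decide +kernel⟩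

def k4_pp_012 : ∃ t, chk3 f_pp_012 t 14 7 1 = true :=
  ⟨(b (a (b (b (a (a (l 3) (b (l 213305554615) (l 3))) (a (a (b (l 196125672375) (l 3)) (b (l 16792408) (l 199346902999))) (b (l 16776864) (a (a (l 187535736807) (l 178408932711)) (l 133848656375))))) (a (l 3) (a (l 3) (b (a (l 3) (b (a (l 191293835303) (l 177335187735)) (l 3))) (l 3))))) (l 3)) (b (a (b (a (b (l 16773872) (l 16797120)) (l 16774920)) (a (b (a (b (l 137606751255) (a (l 184851383367) (b (l 16783272) (l 176798317543)))) (c (l 135996135943) (l 16779048))) (a (l 3) (b (a (b (l 169818995303) (l 188609480647)) (b (l 16782920) (l 163913425415))) (a (l 3) (l 184851385687))))) (b (l 16775696) (a (b (l 16789048) (a (b (c (l 161229061895) (l 167134638439)) (l 180556416311)) (b (l 16782648) (c (l 160155319751) (l 163913412743))))) (b (l 16778080) (l 16780952)))))) (b (l 16765560) (a (b (l 16775432) (l 16775440)) (l 16772256)))) (a (b (a (l 3) (b (a (b (c (l 180019551783) (l 185388256487))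 (l 3)) (b (a (b (c (l 155860352167) (l 156397226983)) (l 178945803047)) (b (l 16782432) (l 154249747975))) (a (l 3) (b (l 178408931927) (l 3))))) (l 3))) (l 3)) (b (a (b (a (b (l 16780776) (a (b (l 144049199911) (l 177335189911)) (l 137606749767))) (l 16779160)) (a (b (a (l 3) (l 180556417015)) (l 3)) (b (a (b (l 16783776) (l 175724576871)) (l 16782936)) (a (l 3) (l 180019545847))))) (b (l 16775376) (a (b (l 16780536) (a (l 144586062103) (l 16782848))) (l 16778960)))) (a (l 3) (b (a (b (l 182703902103) (l 3)) (b (l 130627434119) (a (l 171966485223) (l 167134642791)))) (l 3))))))) (l 3)), by decide +kernel⟩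

def k5_pp_012 : ∃ t, chk3 f_pp_012 t 15 6 1 = true :=
  ⟨(b (a (b (a (l 16666496) (l 16652352)) (a (l 16687200) (l 16672768))) (a (b (l 16680432) (l 16658616)) (b (l 16625040) (b (l 16639776) (l 16650256))))) (a (b (a (l 16709744) (l 16694832)) (a (l 16732984) (l 16738536))) (a (b (l 16680352) (b (l 16697248) (l 16708584))) (b (l 16658808) (b (l 16683248) (l 16694280)))))), by decide +kernel⟩

def k6_pp_012 : ∃ t, chk3 f_pp_012 t 15 14 1 = true :=
  ⟨(a (b (b (a (l 16749896) (l 16734360)) (a (l 16781936) (l 16766528))) (a (b (a (b (l 16772768) (l 16775864)) (l 16768104)) (a (b (a (b (l 16779904) (l 112910688503)) (l 16777752)) (a (b (a (l 172503354183) (l 160692189959)) (l 3)) (b (l 112910686423) (a (l 165524030455) (b (l 16783104) (l 159618447879)))))) (b (l 16775664) (a (b (l 16778272) (l 112910684119)) (l 16776368))))) (b (a (l 16760480) (l 16752784)) (a (b (l 16768680) (l 16773944)) (l 16763696))))) (b (a (a (l 16718352) (l 16721440)) (b (l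 16726056) (l 16715576))) (a (b (a (l 16745088) (l 16737416)) (a (l 16755896) (l 16753344))) (b (a (l 16729792) (l 16743200)) (a (b (l 16737672) (l 6)) (l 6)))))), by decide +kernel⟩

def k7_pp_012 : ∃ t, chk3 f_pp_012 t 15 15 1 = true :=
  ⟨(a (b (a (b (a (l 3) (b (a (b (a (b (l 155323479719) (l 3)) (b (l 16782280) (l 141364835175))) (l 166597775079)) (b (l 16785496) (a (b (l 141364834359) (l 162839674039)) (b (l 16781488) (l 138680478983))))) (a (l 3) (b (a (l 3) (l 161765933063)) (l 3))))) (l 3)) (b (a (b (a (b (l 16776840) (l 16779488)) (l 16776080)) (a (b (a (b (l 127943068135) (l 158007834167)) (b (l 16780720) (l 127943065879))) (a (l 3) (b (l 155323478791) (l 3)))) (b (l 16778736) (a (b (l 129553675127) (c (l 147270415271) (l 158007831671))) (b (l 16779960) (l 127943061207)))))) (b (l 16771784) (a (b (l 16775944) (l 16777992)) (l 16775120)))) (a (b (a (l 3) (b (a (l 3) (b (c (l 144586059879) (l 155860347223)) (l 3))) (l 3))) (l 3)) (b (a (b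 (a (b (l 16782656) (a (l 153175993687) (l 139217350791))) (l 16782528)) (a (l 3) (a (b (l 149954767399) (l 3)) (b (l 132774899047) (l 6))))) (b (l 16777248) (l 6))) (a (l 3) (l 6)))))) (l 3)) (b (a (b (a (b (l 16764000) (l 16769424)) (l 6)) (l 6)) (l 6)) (l 6))), by decide +kernel⟩

theorem s8_pp_012 : ∃ t, chk3 f_pp_012 t 15 7 1 = true := ex3_b k6_pp_012 k7_pp_012

theorem s9_pp_012 : ∃ t, chk3 f_pp_012 t 15 3 1 = true := ex3_b k5_pp_012 s8_pp_012

theorem s10_pp_012 : ∃ t, chk3 f_pp_012 t 14 3 1 = true := ex3_b k3_pp_012 k4_pp_012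

theorem s11_pp_012 : ∃ t, chk3 f_pp_012 t 7 3 1 = true := ex3_a s10_pp_012 s9_pp_012

theorem s12_pp_012 : ∃ t, chk3 f_pp_012 t 3 3 1 = true := ex3_a k2_pp_012 s11_pp_012

theorem s13_pp_012 : ∃ t, chk3 f_pp_012 t 3 1 1 = true := ex3_b k1_pp_012 s12_pp_012

theorem s14_pp_012 : ∃ t, chk3 f_pp_012 t 1 1 1 = true := ex3_a k0_pp_012 s13_pp_012

theorem c_pp_012 : CertB 0 536870912 0 536870912 536870912 50465866 3 eng mog cd1q0 cd0q2 pd1 false true true .pnp 0 1 2
    ndB1q0 ndB0q2 pcB1 cut_pp_012 Ext.none :=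
  certB2 (fam := false) (s1 := true) (s2 := true) (a := 0) (b := 1) (c := 2) (cn := .pnp) (n1 := ndB1q0) (n2 := ndB0q2) (pc := pcB1) (cut := cut_pp_012) (xt := Ext.none) (P1 := 0) (W1 := 536870912) (P2 := 0) (W2 := 536870912) (P3 := 536870912) (W3 := 50465866) (N0 := 3) (En := eng) (mo := mog) (C1 := cd1q0) (C2 := cd0q2) (C3 := pd1)
    rfl (fun _ => rfl) s14_pp_012

noncomputable def cut_pp_022 : Cut := Cut.of [[⟨0, 0, 0, 67108864⟩, ⟨1, 1, 0, 67108864⟩, ⟨2, 1, 0, 67108864⟩]]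

noncomputable def f_pp_022 : ℕ → ℕ → ℕ → ℕ → Bool := onCell 1073741824 536870912 0 536870912 536870912 50465866
    (rowB 3 eng mog cd1q0 cd0q2 pd2 2 false true true .pp 0 2 2 (qsf 0 536870912 0 536870912 2) ndB1q0 ndB0q2 pcB2 cut_pp_022 Ext.none)

def k0_pp_022 : ∃ t, chk3 f_pp_022 t 2 2 1 = true :=
  ⟨(a (b (b (a (a (l 16498440) (l 16488080)) (a (l 16479264) (l 16469416))) (a (a (l 16521920) (l 16507960)) (a (l 16495344) (l 16481672)))) (a (b (a (l 16613696) (l 16533744)) (a (b (l 16573640) (l 16610880)) (l 16635440))) (b (a (l 16517408) (l 16562856)) (b (a (l 16535216) (l 16518208)) (a (l 16572816) (a (l 16537792) (c (l 16527184) (l 77342428231)))))))) (a (a (b (b (l 16521968) (l 16531784)) (b (l 76268789607) (a (b (l 16505080) (c (l 16517504) (l 16517656))) (l 1)))) (b (b (l 1) (l 1)) (l 1))) (l 1))), by decide +kernel⟩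

def k1_pp_022 : ∃ t, chk3 f_pp_022 t 2 3 1 = true :=
  ⟨(a (a (b (a (b (a (b (l 16612744) (l 16632264)) (a (l 16667176) (l 16651216))) (b (a (b (l 16647576) (l 16699936)) (l 16641104)) (b (a (a (l 16671416) (l 16665448)) (l 16656192)) (a (a (l 16681928) (l 16675792)) (l 16666264))))) (a (b (b (l 16592272) (l 16610888)) (b (l 16629512) (l 16669392))) (b (b (l 16583136) (l 16600920)) (b (l 16618496) (b (l 16631608) (l 16640464)))))) (a (b (b (b (a (a (l 16692384) (l 16686088)) (l 16676288)) (a (a (l 16702832) (l 16696368)) (l 16686304))) (l 6)) (l 6)) (a (b (b (a (l 16691984) (b (l 16659488) (l 16668920))) (l 6)) (l 6)) (b (a (b (b (l 16652768) (a (l 16663584) (l 16659952))) (l 6)) (b (b (l 16645848) (l 73584633687)) (b (l 70900294279) (l 1)))) (l 1))))) (b (b (c (a (b (l 16568392) (a (l 16590648) (l 16580000))) (b (b (l 16607112) (l 49962222215)) (a (l 41372232087) (l 1)))) (a (b (a (l 16573480) (l 16563232)) (a (l 16589800) (l 16578368))) (b (a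 (l 16552504) (l 16541312)) (a (l 51572775031) (l 1))))) (a (b (a (b (l 16602712) (l 16610864)) (b (l 16590824) (l 46204114679))) (a (b (l 16629456) (a (l 16630480) (l 16623584))) (b (l 16605640) (l 1)))) (b (a (b (l 16578376) (l 1)) (l 1)) (l 1)))) (b (a (b (a (b (a (l 16638728) (l 16631392)) (a (l 16646824) (l 1))) (l 1)) (l 1)) (l 1)) (l 1)))) (b (l 1) (l 1))), by decide +kernel⟩

def k2_pp_022 : ∃ t, chk3 f_pp_022 t 3 1 1 = true :=
  ⟨(l 1), by decide +kernel⟩

theorem s3_pp_022 : ∃ t, chk3 f_pp_022 t 2 1 1 = true := ex3_b k0_pp_022 k1_pp_022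

theorem s4_pp_022 : ∃ t, chk3 f_pp_022 t 1 1 1 = true := ex3_a s3_pp_022 k2_pp_022

theorem c_pp_022 : CertB 0 536870912 0 536870912 536870912 50465866 3 eng mog cd1q0 cd0q2 pd2 false true true .pp 0 2 2
    ndB1q0 ndB0q2 pcB2 cut_pp_022 Ext.none :=
  certB2 (fam := false) (s1 := true) (s2 := true) (a := 0) (b := 2) (c := 2) (cn := .pp) (n1 := ndB1q0) (n2 := ndB0q2) (pc := pcB2) (cut := cut_pp_022) (xt := Ext.none) (P1 := 0) (W1 := 536870912) (P2 := 0) (W2 := 536870912) (P3 := 536870912) (W3 := 50465866) (N0 := 3) (En := eng) (mo := mog) (C1 := cd1q0) (C2 := cd0q2) (C3 := pd2)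
    rfl (fun _ => rfl) s4_pp_022

noncomputable def f_pp_101 : ℕ → ℕ → ℕ → ℕ → Bool := onCell 536870912 536870912 536870912 536870912 536870912 50465866
    (rowB 3 eng mog cd1q1 cd0q1 pd0 0 false true true .npn 1 0 1 (qsf 536870912 536870912 536870912 536870912 0) ndB1q1 ndB0q1 pcB0 Cut.none Ext.none)

def k0_pp_101 : ∃ t, chk3 f_pp_101 t 1 1 1 = true :=
  ⟨(l 3), by decide +kernel⟩

theorem c_pp_101 : CertB 536870912 536870912 536870912 536870912 536870912 50465866 3 eng mog cd1q1 cd0q1 pd0 false true true .npn 1 0 1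
    ndB1q1 ndB0q1 pcB0 Cut.none Ext.none :=
  certB0 (fam := false) (s1 := true) (s2 := true) (a := 1) (b := 0) (c := 1) (cn := .npn) (n1 := ndB1q1) (n2 := ndB0q1) (pc := pcB0) (cut := Cut.none) (xt := Ext.none) (P1 := 536870912) (W1 := 536870912) (P2 := 536870912) (W2 := 536870912) (P3 := 536870912) (W3 := 50465866) (N0 := 3) (En := eng) (mo := mog) (C1 := cd1q1) (C2 := cd0q1) (C3 := pd0)
    rfl k0_pp_101

noncomputable def f_pp_102 : ℕ → ℕ → ℕ → ℕ → Bool := onCell 0 536870912 0 536870912 536870912 50465866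
    (rowB 3 eng mog cd1q1 cd0q2 pd0 2 false true true .npp 1 0 2 (qsf 536870912 536870912 0 536870912 0) ndB1q1 ndB0q2 pcB0 Cut.none Ext.none)

def k0_pp_102 : ∃ t, chk3 f_pp_102 t 1 1 1 = true :=
  ⟨(b (a (l 3) (a (l 3) (a (l 3) (l 3)))) (l 3)), by decide +kernel⟩

theorem c_pp_102 : CertB 536870912 536870912 0 536870912 536870912 50465866 3 eng mog cd1q1 cd0q2 pd0 false true true .npp 1 0 2
    ndB1q1 ndB0q2 pcB0 Cut.none Ext.none :=
  certB2 (fam := false) (s1 := true) (s2 := true) (a := 1) (b := 0) (c := 2) (cn := .npp) (n1 := ndB1q1) (n2 := ndB0q2) (pc := pcB0) (cut := Cut.none) (xt := Ext.none) (P1 := 536870912) (W1 := 536870912) (P2 := 0) (W2 := 536870912) (P3 := 536870912) (W3 := 50465866) (N0 := 3) (En := eng) (mo := mog) (C1 := cd1q1) (C2 := cd0q2) (C3 := pd0)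
    rfl (fun _ => rfl) k0_pp_102

noncomputable def f_pp_112 : ℕ → ℕ → ℕ → ℕ → Bool := onCell 536870912 536870912 0 536870912 536870912 50465866
    (rowB 3 eng mog cd1q1 cd0q2 pd1 0 false true true .dn 1 1 2 (qsf 536870912 536870912 0 536870912 1) ndB1q1 ndB0q2 pcB1 Cut.none Ext.none)

def k0_pp_112 : ∃ t, chk3 f_pp_112 t 1 1 1 = true :=
  ⟨(a (b (a (b (a (b (a (b (l 16755664) (a (l 16766736) (l 16772016))) (b (a (l 16767560) (l 16772520)) (a (l 16773840) (l 16769640)))) (a (b (a (l 16773736) (l 16768784)) (b (a (l 16757440) (a (l 16745608) (l 108078789591))) (a (b (l 16768344) (a (l 16750000) (a (l 113447491687) (l 161229000599)))) (a (b (l 126332364599) (l 170355807703)) (l 190756899271))))) (b (a (b (l 16763264) (l 16741840)) (b (l 16740504) (b (l 124184907431) (l 161228973927)))) (b (a (b (l 123648045159) (l 168745182327)) (l 3)) (l 3))))) (b (a (b (a (l 16773408) (l 16768264)) (a (l 16756520) (b (l 16747720) (a (l 16724920) (l 158007742599)))))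 (b (a (l 16736160) (b (l 16750104) (l 89825084343))) (a (b (a (l 16731784) (l 126332313479)) (l 171429454055)) (b (l 153175838935) (l 3))))) (a (b (a (b (l 142975379815) (l 191830598503)) (l 206326087447)) (l 3)) (l 3)))) (a (b (a (b (b (a (b (a (b (a (l 16753216) (b (l 114521231063) (l 164450228951))) (a (a (b (l 110226266039) (l 164987100295)) (l 166060842375)) (l 3))) (l 194515002615)) (l 3)) (l 3)) (l 3)) (l 3)) (l 3)) (l 3)) (l 3))) (b (a (b (a (b (a (b (b (l 16738168) (l 151565317287)) (a (l 161228922695) (l 173576937207))) (b (b (l 155323372535) (l 173040072327)) (l 3))) (l 3)) (l 1)) (l 3)) (l 1)) (l 3))) (l 3)) (l 1)), by decide +kernel⟩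

theorem c_pp_112 : CertB 536870912 536870912 0 536870912 536870912 50465866 3 eng mog cd1q1 cd0q2 pd1 false true true .dn 1 1 2
    ndB1q1 ndB0q2 pcB1 Cut.none Ext.none :=
  certB0 (fam := false) (s1 := true) (s2 := true) (a := 1) (b := 1) (c := 2) (cn := .dn) (n1 := ndB1q1) (n2 := ndB0q2) (pc := pcB1) (cut := Cut.none) (xt := Ext.none) (P1 := 536870912) (W1 := 536870912) (P2 := 0) (W2 := 536870912) (P3 := 536870912) (W3 := 50465866) (N0 := 3) (En := eng) (mo := mog) (C1 := cd1q1) (C2 := cd0q2) (C3 := pd1)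
    rfl k0_pp_112

noncomputable def f_pp_202_a : ℕ → ℕ → ℕ → ℕ → Bool := onCell 0 536870912 0 536870912 536870912 50465866
    (rowB 3 eng mog cd1q2a cd0q2 pd0 0 false true true .pp 2 0 2 (qsf 0 536870912 0 536870912 0) ndB1q2a ndB0q2 pcB0 Cut.none Ext.none)

def k0_pp_202_a : ∃ t, chk3 f_pp_202_a t 1 1 1 = true :=
  ⟨(l 3), by decide +kernel⟩

theorem c_pp_202_a : CertB 0 536870912 0 536870912 536870912 50465866 3 eng mog cd1q2a cd0q2 pd0 false true true .pp 2 0 2
    ndB1q2a ndB0q2 pcB0 Cut.none Ext.none :=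
  certB0 (fam := false) (s1 := true) (s2 := true) (a := 2) (b := 0) (c := 2) (cn := .pp) (n1 := ndB1q2a) (n2 := ndB0q2) (pc := pcB0) (cut := Cut.none) (xt := Ext.none) (P1 := 0) (W1 := 536870912) (P2 := 0) (W2 := 536870912) (P3 := 536870912) (W3 := 50465866) (N0 := 3) (En := eng) (mo := mog) (C1 := cd1q2a) (C2 := cd0q2) (C3 := pd0)
    rfl k0_pp_202_a

noncomputable def f_pp_202_b : ℕ → ℕ → ℕ → ℕ → Bool := onCell 1239849684 370763052 0 536870912 536870912 50465866
    (rowB 3 eng mog cd1q2b cd0q2 pd0 0 false true true .pp 2 0 2 (qsf 1239849684 370763052 0 536870912 0) ndB1q2b ndB0q2 pcB0 Cut.none Ext.none)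

def k0_pp_202_b : ∃ t, chk3 f_pp_202_b t 1 1 1 = true :=
  ⟨(l 3), by decide +kernel⟩

theorem c_pp_202_b : CertB 1239849684 370763052 0 536870912 536870912 50465866 3 eng mog cd1q2b cd0q2 pd0 false true true .pp 2 0 2
    ndB1q2b ndB0q2 pcB0 Cut.none Ext.none :=
  certB0 (fam := false) (s1 := true) (s2 := true) (a := 2) (b := 0) (c := 2) (cn := .pp) (n1 := ndB1q2b) (n2 := ndB0q2) (pc := pcB0) (cut := Cut.none) (xt := Ext.none) (P1 := 1239849684) (W1 := 370763052) (P2 := 0) (W2 := 536870912) (P3 := 536870912) (W3 := 50465866) (N0 := 3) (En := eng) (mo := mog) (C1 := cd1q2b) (C2 := cd0q2) (C3 := pd0)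
    rfl k0_pp_202_b

noncomputable def f_pm_001 : ℕ → ℕ → ℕ → ℕ → Bool := onCell 0 536870912 0 536870912 536870912 50465866
    (rowB 3 eng mog cd1q0 cd0q1 pd0 1 false true false .up 0 0 1 (qsf 0 536870912 536870912 536870912 0) ndB1q0 ndB0q1 pcB0 Cut.none Ext.none)

def k0_pm_001 : ∃ t, chk3 f_pm_001 t 1 1 1 = true :=
  ⟨(a (l 4) (b (b (l 4) (a (l 4) (a (l 4) (l 4)))) (b (a (l 4) (b (a (l 4) (a (b (l 4) (b (l 4) (l 22783494583))) (b (a (l 16740984) (l 16729472)) (b (l 16718128) (l 16790856))))) (a (a (l 4) (b (l 4) (b (l 16767040) (l 25467823511)))) (b (a (b (l 26541617383) (l 29225884951)) (a (l 16690920) (l 16687536))) (a (a (l 16703184) (l 16667696)) (l 16657920)))))) (a (b (l 4) (a (l 4) (a (l 4) (b (b (l 4) (a (l 4) (l 16668304))) (a (b (l 16705112) (l 16672328)) (b (l 16652800) (l 16606032))))))) (b (a (a (b (l 4) (b (l 39426317335) (l 42647480711))) (b (a (l 25467799431) (l 16679256)) (a (l 16629472) (l 16606552)))) (b (a (l 16674880) (b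 (l 16628560) (l 16631472))) (a (b (l 16596600) (l 16573240)) (b (l 16584256) (l 16557720))))) (a (a (b (b (a (l 16692032) (l 16611760)) (l 16613920)) (b (l 16578112) (l 16548160))) (b (b (l 16573640) (l 16539024)) (b (l 16545648) (l 16589840)))) (b (a (b (l 16548512) (l 16550912)) (b (l 16541008) (l 16510304))) (a (b (l 16490032) (l 16479720)) (b (l 16488912) (l 16476280)))))))))), by decide +kernel⟩

theorem c_pm_001 : CertB 0 536870912 536870912 536870912 536870912 50465866 3 eng mog cd1q0 cd0q1 pd0 false true false .up 0 0 1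
    ndB1q0 ndB0q1 pcB0 Cut.none Ext.none :=
  certB1 (fam := false) (s1 := true) (s2 := false) (a := 0) (b := 0) (c := 1) (cn := .up) (n1 := ndB1q0) (n2 := ndB0q1) (pc := pcB0) (cut := Cut.none) (xt := Ext.none) (P1 := 0) (W1 := 536870912) (P2 := 536870912) (W2 := 536870912) (P3 := 536870912) (W3 := 50465866) (N0 := 3) (En := eng) (mo := mog) (C1 := cd1q0) (C2 := cd0q1) (C3 := pd0)
    rfl (fun _ => rfl) k0_pm_001

noncomputable def cut_pm_011 : Cut := Cut.of [[⟨0, 0, 0, 67108864⟩, ⟨1, 1, 0, 67108864⟩, ⟨2, 1, 0, 67108864⟩]]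

noncomputable def f_pm_011 : ℕ → ℕ → ℕ → ℕ → Bool := onCell 536870912 536870912 536870912 536870912 536870912 50465866
    (rowB 3 eng mog cd1q0 cd0q1 pd1 2 false true false .pnn 0 1 1 (qsf 0 536870912 536870912 536870912 1) ndB1q0 ndB0q1 pcB1 cut_pm_011 Ext.none)

def k0_pm_011 : ∃ t, chk3 f_pm_011 t 2 1 1 = true :=
  ⟨(b (a (l 4) (b (a (b (l 1) (l 4)) (l 1)) (l 4))) (a (b (b (l 4) (b (l 4) (a (a (b (l 16693912) (l 16611096)) (b (l 16750816) (l 16677224))) (a (b (l 4) (l 16760048)) (l 4))))) (a (b (b (a (l 16585856) (l 16639344)) (a (b (l 16498720) (l 16471240)) (l 16630480))) (b (a (l 16483096) (l 16449416)) (a (b (l 16419808) (l 16417920)) (l 16459136)))) (b (b (a (b (l 16663296) (l 16589496)) (b (l 16749176) (l 16631912))) (a (b (l 16548008) (l 16508912)) (b (l 16578208) (l 16535264)))) (b (a (l 16461616) (l 16540256)) (b (l 16426416) (l 16465984)))))) (b (l 4) (b (a (b (a (b (l 4) (l 16760912)) (b (l 4) (b (l 4) (l 23320343671)))) (a (b (l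 16626728) (l 16580408)) (a (l 16686600) (b (l 16680864) (l 16634640))))) (b (l 4) (a (b (a (l 16701248) (l 16784232)) (a (l 16653608) (l 16652496))) (b (a (b (l 4) (l 16728984)) (l 4)) (a (l 16688064) (l 34057621255)))))) (a (b (b (a (l 16558968) (a (l 16573704) (l 16592608))) (a (l 16495632) (l 16544120))) (a (l 16521728) (a (l 16499416) (b (l 16518400) (l 16485192))))) (b (a (b (l 16649464) (l 16577920)) (b (a (l 16624464) (l 16643272)) (l 16641688))) (b (l 16596520) (a (l 16526360) (l 16531328))))))))), by decide +kernel⟩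

def k1_pm_011 : ∃ t, chk3 f_pm_011 t 3 2 1 = true :=
  ⟨(a (b (l 1) (a (b (l 1) (l 4)) (l 1))) (l 1)), by decide +kernel⟩

def k2_pm_011 : ∃ t, chk3 f_pm_011 t 6 3 1 = true :=
  ⟨(b (l 4) (b (a (b (l 4) (a (b (l 4) (a (l 29225836791) (b (l 4) (l 16757560)))) (l 4))) (l 4)) (a (b (b (a (a (l 16703896) (l 16764160)) (a (b (l 16751840) (l 16707256)) (b (l 137673666327) (l 16745656)))) (a (b (l 16698336) (l 16633552)) (a (l 16676264) (l 16751728)))) (b (a (l 16600672) (b (l 16645496) (l 16622696))) (a (l 16559160) (l 16589616)))) (a (b (b (b (l 4) (a (l 16762328) (l 4))) (a (b (l 16718072) (l 16694240)) (b (l 16766184) (l 16711016)))) (b (b (a (l 16670768) (l 16687208)) (l 16655848)) (l 16662984))) (b (b (l 4) (a (b (b (l 4) (l 16745552)) (l 16732872)) (b (l 4) (b (l 16750568) (l 16759632))))) (b (b (a (l 16703432) (l 16720200)) (b (l 16714552) (l 16681808))) (b (l 16663888) (l 16641264)))))))), by decide +kernel⟩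

def k3_pm_011 : ∃ t, chk3 f_pm_011 t 7 3 1 = true :=
  ⟨(b (a (b (l 1) (l 4)) (l 1)) (b (l 4) (a (b (a (b (l 4) (b (l 4) (a (a (l 16762400) (l 4)) (l 4)))) (l 4)) (b (a (a (b (a (l 16722680) (l 45331967639)) (l 16733632)) (b (a (l 28688996327) (b (l 4) (l 16773480))) (a (l 16725624) (l 16734184)))) (b (a (b (l 4) (a (l 156464240615) (l 4))) (l 4)) (a (a (b (l 16769752) (l 16715552)) (a (l 43184500567) (a (l 43184505527) (l 37815803031)))) (b (b (l 4) (a (l 16783360) (l 4))) (a (b (l 16777352) (l 16750304)) (b (l 163980449335) (l 16779600))))))) (a (b (b (l 16745208) (l 16692120)) (l 16696320)) (b (a (b (l 16749448) (l 16716592)) (b (a (l 16741152) (l 16749520)) (l 16754144))) (a (l 16699448) (l 16736552)))))) (b (l 4) (a (a (a (a (b (b (l 4) (b (l 4) (l 163443588743))) (b (b (b (l 16758800) (l 16752728)) (l 16743616)) (l 16725736))) (l 6)) (l 6)) (l 6)) (l 6)))))), by decide +kernel⟩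

theorem s4_pm_011 : ∃ t, chk3 f_pm_011 t 3 3 1 = true := ex3_a k2_pm_011 k3_pm_011

theorem s5_pm_011 : ∃ t, chk3 f_pm_011 t 3 1 1 = true := ex3_b k1_pm_011 s4_pm_011

theorem s6_pm_011 : ∃ t, chk3 f_pm_011 t 1 1 1 = true := ex3_a k0_pm_011 s5_pm_011

theorem c_pm_011 : CertB 0 536870912 536870912 536870912 536870912 50465866 3 eng mog cd1q0 cd0q1 pd1 false true false .pnn 0 1 1
    ndB1q0 ndB0q1 pcB1 cut_pm_011 Ext.none :=
  certB2 (fam := false) (s1 := true) (s2 := false) (a := 0) (b := 1) (c := 1) (cn := .pnn) (n1 := ndB1q0) (n2 := ndB0q1) (pc := pcB1) (cut := cut_pm_011) (xt := Ext.none) (P1 := 0) (W1 := 536870912) (P2 := 536870912) (W2 := 536870912) (P3 := 536870912) (W3 := 50465866) (N0 := 3) (En := eng) (mo := mog) (C1 := cd1q0) (C2 := cd0q1) (C3 := pd1)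
    rfl (fun _ => rfl) s6_pm_011

noncomputable def cut_pm_012 : Cut := Cut.of [[⟨0, 0, 0, 67108864⟩, ⟨1, 1, 0, 67108864⟩, ⟨2, 1, 0, 67108864⟩]]

noncomputable def f_pm_012 : ℕ → ℕ → ℕ → ℕ → Bool := onCell 536870912 536870912 0 536870912 536870912 50465866
    (rowB 3 eng mog cd1q0 cd0q2 pd1 2 false true false .pnp 0 1 2 (qsf 0 536870912 0 536870912 1) ndB1q0 ndB0q2 pcB1 cut_pm_012 Ext.none)

def k0_pm_012 : ∃ t, chk3 f_pm_012 t 2 1 1 = true :=
  ⟨(a (b (b (l 2) (a (l 2) (b (l 2) (l 16570792)))) (b (a (l 2) (b (l 16540136) (b (l 16458352) (l 16509536)))) (a (b (a (l 2) (l 16527920)) (a (b (l 16511824) (l 16453808)) (l 16439696))) (b (a (l 16446984) (l 16376552)) (b (l 16412232) (l 16412448)))))) (b (b (a (b (a (l 16703920) (l 16713800)) (a (l 16652496) (b (l 16659200) (l 16738808)))) (b (b (l 16677896) (l 16657472)) (a (l 16632352) (l 16616048)))) (a (a (b (l 16595272) (l 16554240)) (b (a (l 16599808) (l 16596248)) (a (l 16564080) (l 16562616))))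 (b (l 16580288) (a (l 16555280) (l 16544848))))) (b (a (b (a (l 16499056) (a (l 16527576) (l 16529016))) (a (b (l 16468920) (l 16439048)) (a (l 16651760) (l 16510600)))) (b (a (l 16524368) (l 16517848)) (b (l 16518296) (l 16480640)))) (a (b (a (b (l 16416568) (l 16403288)) (b (l 16542312) (l 16532824))) (a (b (l 16399072) (l 16401536)) (b (a (l 16439208) (l 16455824)) (l 16558000)))) (b (b (l 16470096) (l 16489640)) (b (l 16560008) (l 16501504))))))), by decide +kernel⟩

def k1_pm_012 : ∃ t, chk3 f_pm_012 t 3 2 1 = true :=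
  ⟨(a (b (b (a (b (l 16637744) (l 16618992)) (a (l 16596240) (l 16574592))) (a (l 16589784) (a (l 16561976) (l 16543616)))) (a (b (a (l 16559120) (l 16544280)) (a (l 16533816) (l 16523064))) (b (a (l 16530056) (l 16516064)) (a (l 16513120) (l 16503536))))) (b (a (b (a (l 16552520) (l 16530896)) (a (l 16525216) (l 16507808))) (b (a (l 16511744) (l 16493864)) (a (l 16492952) (l 16479392)))) (a (b (a (l 16502432) (l 16490696)) (a (l 16494944) (l 16488864))) (b (a (l 16481344) (b (l 16473256) (l 16473472))) (a (b (l 16481736) (l 16486832)) (b (l 16477632) (a (l 16485624) (l 16485360)))))))), by decide +kernel⟩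

def k2_pm_012 : ∃ t, chk3 f_pm_012 t 3 3 1 = true :=
  ⟨(b (a (b (a (a (l 16511456) (l 16506072)) (a (l 16501496) (l 16497792))) (a (b (a (l 16494328) (l 16494056)) (l 16486224)) (a (b (l 16494824) (l 16494112)) (l 16604272)))) (a (b (a (l 16538304) (b (l 16494184) (l 16500824))) (a (l 16591504) (b (l 16510448) (l 16525088)))) (b (a (b (l 16494536) (a (l 16503864) (l 16506408))) (b (a (l 16495808) (l 16497248)) (a (l 16509384) (b (l 16508576) (l 16517392))))) (a (b (l 16519256) (l 16538880)) (b (a (l 16527040) (l 16533256)) (a (l 16592752) (b (l 16552120) (l 16566896)))))))) (a (b (a (b (l 16527456) (l 16556976)) (a (b (l 16501104) (l 16517784)) (l 16535640))) (a (b (l 16532872) (l 16600984)) (b (a (l 16564960) (l 16567336)) (b (l 16603224) (a (l 16588360) (l 16617560)))))) (b (a (a (l 16584920) (b (l 16547256) (l 16578136))) (a (b (l 16587240) (l 16644096)) (b (a (l 16582000) (b (l 16583480) (l 16601888))) (a (l 16641832) (b (l 16622168) (l 16644352))))))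 (a (b (a (l 16591704) (l 16657712)) (a (b (l 16624536) (l 16671528)) (b (l 16676040) (b (l 16674968) (l 16709832))))) (b (a (a (l 16660344) (l 16684960)) (a (b (l 16654920) (l 6)) (l 6))) (a (a (b (l 16677400) (b (l 16698120) (l 16712584))) (b (l 16713448) (l 6))) (l 6))))))), by decide +kernel⟩

theorem s3_pm_012 : ∃ t, chk3 f_pm_012 t 3 1 1 = true := ex3_b k1_pm_012 k2_pm_012

theorem s4_pm_012 : ∃ t, chk3 f_pm_012 t 1 1 1 = true := ex3_a k0_pm_012 s3_pm_012

theorem c_pm_012 : CertB 0 536870912 0 536870912 536870912 50465866 3 eng mog cd1q0 cd0q2 pd1 false true false .pnp 0 1 2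
    ndB1q0 ndB0q2 pcB1 cut_pm_012 Ext.none :=
  certB2 (fam := false) (s1 := true) (s2 := false) (a := 0) (b := 1) (c := 2) (cn := .pnp) (n1 := ndB1q0) (n2 := ndB0q2) (pc := pcB1) (cut := cut_pm_012) (xt := Ext.none) (P1 := 0) (W1 := 536870912) (P2 := 0) (W2 := 536870912) (P3 := 536870912) (W3 := 50465866) (N0 := 3) (En := eng) (mo := mog) (C1 := cd1q0) (C2 := cd0q2) (C3 := pd1)
    rfl (fun _ => rfl) s4_pm_012

noncomputable def cut_pm_022 : Cut := Cut.of [[⟨0, 0, 0, 67108864⟩, ⟨1, 1, 0, 67108864⟩, ⟨2, 1, 0, 67108864⟩]]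

noncomputable def f_pm_022 : ℕ → ℕ → ℕ → ℕ → Bool := onCell 0 536870912 0 536870912 536870912 50465866
    (rowB 3 eng mog cd1q0 cd0q2 pd2 0 false true false .pp 0 2 2 (qsf 0 536870912 0 536870912 2) ndB1q0 ndB0q2 pcB2 cut_pm_022 Ext.none)

def k0_pm_022 : ∃ t, chk3 f_pm_022 t 2 2 1 = true :=
  ⟨(b (a (b (a (a (l 16499656) (l 16465408)) (a (l 16471272) (l 16476056))) (a (a (l 16464816) (l 16468440)) (a (l 16470152) (l 16470560)))) (a (b (b (l 16488200) (l 16480440)) (a (l 16471992) (l 1))) (l 1))) (a (a (a (b (b (l 16477192) (l 16488584)) (b (l 16501536) (l 16563904))) (b (l 16542816) (b (l 16495472) (l 16509360)))) (b (b (l 16472712) (a (l 16479984) (l 16474304))) (b (a (l 16488848) (l 16480392)) (a (l 16520896) (a (l 16491208) (l 16485400)))))) (a (a (b (b (l 16468280) (l 16468832)) (b (l 93985407287) (l 193843425463))) (l 1)) (l 1)))), by decide +kernel⟩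

def k1_pm_022 : ∃ t, chk3 f_pm_022 t 4 6 1 = true :=
  ⟨(a (b (b (a (b (l 16571816) (a (l 16564480) (l 16537112))) (a (l 16548680) (l 16522208))) (a (a (b (a (l 16577328) (l 16552344)) (a (b (l 16565056) (l 16571088)) (l 16563800))) (l 16573312)) (a (l 16546088) (l 16559944)))) (a (a (b (b (a (b (l 16577280) (l 16583640)) (b (l 16572800) (l 16579024))) (a (a (b (l 16591296) (l 16597992)) (l 16592312)) (a (l 16589904) (l 16587448)))) (a (b (a (b (c (l 16606152) (l 16603496)) (c (l 16613232) (l 16610392))) (l 16616344)) (a (b (c (l 16620408) (l 16617432)) (c (l 16627704) (l 16624632))) (b (l 16616344) (l 16623520)))) (b (a (l 16603328) (l 16600736)) (a (l 16617280) (l 16614560))))) (b (b (l 16568712) (l 16602032)) (b (a (l 16596744) (l 16591216)) (b (l 16604040) (l 16610912))))) (b (a (l 16587640) (b (l 16552752) (l 16562784))) (a (b (l 16583752) (l 16596200)) (b (l 16573488) (l 16584936)))))) (b (a (b (a (l 16515960) (l 16509040)) (a (l 16531080)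 (l 16522456))) (b (a (l 16501488) (l 16514848)) (a (l 16513168) (l 1)))) (a (a (b (l 16569088) (b (l 16562352) (l 16572784))) (b (b (l 16533544) (l 16541680)) (b (l 16550408) (l 1)))) (b (b (a (l 16522856) (l 1)) (l 1)) (l 1))))), by decide +kernel⟩

def k2_pm_022 : ∃ t, chk3 f_pm_022 t 4 7 1 = true :=
  ⟨(a (b (b (a (a (a (b (a (b (c (l 16635120) (l 16632000)) (c (l 16642680) (l 16639544))) (b (l 16630848) (l 16638336))) (a (b (c (l 16650384) (l 16647280)) (l 6)) (l 16649912))) (b (b (l 16626680) (l 16634064)) (b (l 16641616) (l 6)))) (b (b (l 16617936) (l 16625112)) (a (l 16639392) (l 16633032)))) (a (b (l 16609448) (l 16623424)) (b (l 16597144) (l 16631008)))) (a (l 6) (a (l 6) (a (l 6) (a (l 6) (l 1)))))) (a (l 6) (a (l 6) (l 1)))) (b (a (b (a (b (l 16583928) (l 16595720)) (l 1)) (l 1)) (l 1)) (l 1))), by decide +kernel⟩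

def k3_pm_022 : ∃ t, chk3 f_pm_022 t 5 3 1 = true :=
  ⟨(b (l 1) (l 1)), by decide +kernel⟩

def k4_pm_022 : ∃ t, chk3 f_pm_022 t 3 1 1 = true :=
  ⟨(l 1), by decide +kernel⟩

theorem s5_pm_022 : ∃ t, chk3 f_pm_022 t 4 3 1 = true := ex3_b k1_pm_022 k2_pm_022

theorem s6_pm_022 : ∃ t, chk3 f_pm_022 t 2 3 1 = true := ex3_a s5_pm_022 k3_pm_022

theorem s7_pm_022 : ∃ t, chk3 f_pm_022 t 2 1 1 = true := ex3_b k0_pm_022 s6_pm_022

theorem s8_pm_022 : ∃ t, chk3 f_pm_022 t 1 1 1 = true := ex3_a s7_pm_022 k4_pm_022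

theorem c_pm_022 : CertB 0 536870912 0 536870912 536870912 50465866 3 eng mog cd1q0 cd0q2 pd2 false true false .pp 0 2 2
    ndB1q0 ndB0q2 pcB2 cut_pm_022 Ext.none :=
  certB0 (fam := false) (s1 := true) (s2 := false) (a := 0) (b := 2) (c := 2) (cn := .pp) (n1 := ndB1q0) (n2 := ndB0q2) (pc := pcB2) (cut := cut_pm_022) (xt := Ext.none) (P1 := 0) (W1 := 536870912) (P2 := 0) (W2 := 536870912) (P3 := 536870912) (W3 := 50465866) (N0 := 3) (En := eng) (mo := mog) (C1 := cd1q0) (C2 := cd0q2) (C3 := pd2)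
    rfl s8_pm_022

noncomputable def f_pm_101 : ℕ → ℕ → ℕ → ℕ → Bool := onCell 0 536870912 536870912 536870912 536870912 50465866
    (rowB 3 eng mog cd1q1 cd0q1 pd0 2 false true false .npn 1 0 1 (qsf 536870912 536870912 536870912 536870912 0) ndB1q1 ndB0q1 pcB0 Cut.none Ext.none)

def k0_pm_101 : ∃ t, chk3 f_pm_101 t 2 2 1 = true :=
  ⟨(b (l 4) (a (b (a (b (a (b (l 4) (l 16754432)) (l 4)) (a (l 16791256) (b (l 16753528) (l 16749296)))) (b (l 4) (a (b (l 4) (l 16751376)) (l 4)))) (a (b (a (l 16769400) (l 16746776)) (a (l 16753080) (l 16768896))) (b (a (l 16745528) (l 8824896535)) (a (l 16743952) (l 16740152))))) (b (l 4) (a (b (a (b (l 16750880) (l 16743624)) (l 36205261127)) (a (l 16736888) (l 16776792))) (b (l 4) (a (b (l 16739008) (l 16730120)) (b (l 4) (l 16730368)))))))), by decide +kernel⟩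

def k1_pm_101 : ∃ t, chk3 f_pm_101 t 2 6 1 = true :=
  ⟨(a (b (a (b (a (l 16762536) (l 16754144)) (a (l 16774456) (l 16764472))) (b (a (l 16746696) (l 16740720)) (a (l 16816784) (b (l 16742928) (l 16745528))))) (a (b (b (a (l 16782152) (l 16836184)) (a (l 16787736) (l 16777920))) (a (l 16793704) (l 16784944))) (b (a (b (l 16762336) (a (l 16769048) (l 16762552))) (b (l 16749288) (b (a (l 16756248) (l 16749792)) (a (l 16758400) (l 16751384))))) (a (b (l 16771496) (l 16776200)) (b (l 16758904) (l 16763688)))))) (b (a (b (a (l 16734744) (l 16728280)) (a (b (l 16736064) (l 16737688)) (l 16727800))) (b (a (l 16722560) (l 16738424)) (a (l 16718440) (l 16710160)))) (a (b (a (b (l 16802520) (b (a (l 16743376) (l 16739048)) (a (b (l 16745056) (l 16745472)) (a (l 16741560) (l 16739128))))) (b (l 16729568) (l 16752136))) (a (a (b (l 16748704) (l 16753304)) (b (a (l 16743632) (b (l 16760248) (l 16740952))) (l 16767216))) (b (b (a (b (l 16735264) (l 16735120))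 (l 16729832)) (a (l 16735832) (l 16730040))) (a (c (l 16760536) (l 16716048)) (l 16731120))))) (b (a (l 16739880) (l 16708264)) (a (b (b (l 16720912) (a (l 16723704) (l 16718784))) (l 16722920)) (b (l 16710536) (b (l 16710624) (l 16712736)))))))), by decide +kernel⟩

def k2_pm_101 : ∃ t, chk3 f_pm_101 t 2 7 1 = true :=
  ⟨(a (b (a (b (a (l 16798688) (l 16792128)) (a (l 16800368) (l 16796976))) (b (a (l 16824672) (b (l 16768336) (l 16772808))) (a (l 16789816) (b (l 16777096) (l 16781064))))) (b (a (b (a (l 16797992) (l 16797848)) (a (b (l 16795168) (l 16791696)) (l 16838976))) (a (b (l 16793144) (l 16794944)) (b (l 16784424) (l 16808920)))) (a (a (b (l 16785432) (l 16772608)) (l 16785472)) (a (l 16787824) (b (l 16785840) (l 16781624)))))) (b (a (b (a (a (b (l 16757896) (l 16762464)) (b (l 16750968) (l 16755768))) (b (a (l 16742600) (l 16775968)) (c (l 16766776) (l 16721520)))) (a (a (b (l 16767040) (l 16771488)) (b (l 16760672) (l 16765592))) (b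 (c (l 16772728) (l 16727864)) (l 16777344)))) (b (b (a (a (l 16727384) (l 16722384)) (l 16715176)) (a (a (l 16751960) (l 16724832)) (l 16718632))) (a (b (a (l 16737560) (l 16729504)) (l 16783584)) (b (c (l 16743432) (l 16702528)) (c (l 16811688) (l 16708848)))))) (a (b (a (a (b (l 16775496) (l 16779312)) (b (l 16770248) (l 16774288))) (b (l 16762744) (l 16768824))) (a (a (l 16819544) (b (l 16774688) (l 16773088))) (b (l 16833512) (l 16771144)))) (b (a (b (l 16750464) (l 16759408)) (b (a (l 16739736) (l 16733168)) (l 16747976))) (b (b (a (l 16764976) (l 16757176)) (l 16888984)) (a (l 16767280) (l 16761672))))))), by decide +kernel⟩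

def k3_pm_101 : ∃ t, chk3 f_pm_101 t 6 1 1 = true :=
  ⟨(b (b (l 1) (l 4)) (b (b (a (b (a (b (l 16761472) (l 16708936)) (b (l 1) (l 164316146631))) (a (l 16701496) (a (l 16694136) (l 179885091959)))) (b (l 1) (a (l 175053457911) (l 1)))) (a (b (a (l 16698984) (l 16708328)) (a (b (l 16699912) (b (l 16702632) (l 16701856))) (b (l 16690208) (l 16738016)))) (b (a (l 16684904) (l 167000233671)) (a (l 16660872) (l 16626048))))) (b (a (b (a (a (l 16710624) (l 16706696)) (a (l 16703712) (a (l 16697792) (l 16686912)))) (b (a (l 16716848) (a (l 16712520) (l 16698824))) (a (l 16723264) (a (l 16720496) (l 16705480))))) (b (a (b (l 16661536) (l 16663336)) (b (l 16623040) (l 16620440))) (a (c (l 16751200) (l 16752600)) (l 16621960)))) (a (b (a (b (l 16793096) (c (l 16755432) (l 16724600))) (a (a (l 16735472) (l 16753576)) (b (l 16713048) (l 16721192)))) (a (b (b (a (l 16749968) (l 16746232)) (l 16751120)) (l 16754728)) (a (b (b (l 16745528) (l 16746328)) (l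 16748216)) (b (b (l 16727432) (l 16728984)) (l 16730280))))) (a (a (b (l 16692816) (b (b (l 16703568) (l 16706000)) (l 16708440))) (b (l 16666864) (b (l 16681920) (l 16684952)))) (b (c (l 16674416) (l 16732008)) (b (a (l 16655688) (l 16628040)) (l 16646624)))))))), by decide +kernel⟩

def k4_pm_101 : ∃ t, chk3 f_pm_101 t 7 1 1 = true :=
  ⟨(b (l 1) (b (a (b (l 1) (b (l 1) (a (l 118144799815) (l 1)))) (l 1)) (a (b (b (a (b (l 16581624) (l 16574768)) (b (l 1) (l 16533080))) (a (l 16575896) (a (l 16540136) (l 16515984)))) (a (b (l 16580512) (b (l 16610488) (l 16591872))) (a (b (l 16543160) (b (l 16551096) (l 16552888))) (b (l 16517648) (b (l 16587168) (l 16527576)))))) (b (b (l 1) (a (b (l 1) (l 16472624)) (l 1))) (a (a (b (l 16490712) (l 16498200)) (b (l 16454672) (l 16463128))) (b (l 85932300839) (b (l 16417160) (l 16417464)))))))), by decide +kernel⟩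

theorem s5_pm_101 : ∃ t, chk3 f_pm_101 t 3 1 1 = true := ex3_a k3_pm_101 k4_pm_101

theorem s6_pm_101 : ∃ t, chk3 f_pm_101 t 2 3 1 = true := ex3_b k1_pm_101 k2_pm_101

theorem s7_pm_101 : ∃ t, chk3 f_pm_101 t 2 1 1 = true := ex3_b k0_pm_101 s6_pm_101

theorem s8_pm_101 : ∃ t, chk3 f_pm_101 t 1 1 1 = true := ex3_a s7_pm_101 s5_pm_101

theorem c_pm_101 : CertB 536870912 536870912 536870912 536870912 536870912 50465866 3 eng mog cd1q1 cd0q1 pd0 false true false .npn 1 0 1
    ndB1q1 ndB0q1 pcB0 Cut.none Ext.none :=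
  certB2 (fam := false) (s1 := true) (s2 := false) (a := 1) (b := 0) (c := 1) (cn := .npn) (n1 := ndB1q1) (n2 := ndB0q1) (pc := pcB0) (cut := Cut.none) (xt := Ext.none) (P1 := 536870912) (W1 := 536870912) (P2 := 536870912) (W2 := 536870912) (P3 := 536870912) (W3 := 50465866) (N0 := 3) (En := eng) (mo := mog) (C1 := cd1q1) (C2 := cd0q1) (C3 := pd0)
    rfl (fun _ => rfl) s8_pm_101

noncomputable def f_pm_102 : ℕ → ℕ → ℕ → ℕ → Bool := onCell 536870912 536870912 0 536870912 536870912 50465866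
    (rowB 3 eng mog cd1q1 cd0q2 pd0 0 false true false .npp 1 0 2 (qsf 536870912 536870912 0 536870912 0) ndB1q1 ndB0q2 pcB0 Cut.none Ext.none)

def k0_pm_102 : ∃ t, chk3 f_pm_102 t 2 2 1 = true :=
  ⟨(a (b (l 2) (a (l 2) (b (l 2) (a (l 2) (l 16663584))))) (b (a (b (a (a (l 2) (b (b (l 156934015111) (l 16741112)) (l 16757456))) (b (a (b (l 170355750407) (l 120426751495)) (b (l 3) (a (l 151028369623) (l 170355722311)))) (a (l 16748352) (b (l 116131785639) (l 16743568))))) (b (a (l 16774056) (a (l 16767280) (l 16759880))) (a (l 16766472) (l 16772832)))) (b (a (b (l 3) (a (b (a (l 149417770695) (l 166597625367)) (a (l 16734216) (l 16727032))) (b (l 169818828039) (a (b (l 152638985911) (l 16722504)) (b (l 166060742583) (l 150491500135)))))) (b (l 3) (a (b (l 3) (a (l 169818830775) (l 3))) (l 3)))) (a (b (a (l 16750480) (b (a (l 16734304) (l 16726248)) (l 16744912))) (a (l 16767512) (l 16761208))) (b (a (b (a (b (l 151565240471) (l 16721632)) (b (l 168208222647)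 (l 152102110487))) (a (l 16734512) (l 16726184))) (b (a (l 173040054007) (l 3)) (a (b (l 151565239463) (l 16721760)) (b (l 170355706295) (a (l 16714648) (l 153175848455)))))) (a (b (l 16745840) (l 16757632)) (b (a (l 16735256) (l 16727048)) (l 16746552))))))) (a (a (b (l 16728280) (l 16723144)) (b (l 16757896) (b (l 16721696) (l 16690448)))) (b (a (l 16812152) (b (a (l 16767920) (l 16761800)) (l 16771240))) (b (l 16865200) (a (l 16727720) (l 16752184))))))), by decide +kernel⟩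

def k1_pm_102 : ∃ t, chk3 f_pm_102 t 2 3 1 = true :=
  ⟨(a (a (b (l 2) (a (b (l 2) (b (l 16439000) (c (l 16457896) (l 16435872)))) (b (b (l 16540000) (l 16510664)) (b (l 16494288) (b (l 16489056) (l 16488136)))))) (b (b (l 16630560) (b (l 16617240) (b (l 16614688) (l 16613088)))) (b (b (a (l 16581624) (l 16616432)) (a (l 16562608) (l 16602984))) (b (a (l 16529184) (b (l 16596120) (l 16593792))) (a (b (l 16544872) (b (l 16543232) (l 16542696))) (l 16591712)))))) (b (a (b (a (l 16657800) (l 16675200)) (b (l 16661544) (b (l 16664112) (l 16771576)))) (b (a (l 16735016) (b (l 16720576) (l 16713808))) (b (l 16746400) (l 16735816)))) (b (b (a (a (l 16652936) (l 16683968)) (a (l 16711832) (l 16746696))) (a (l 16745432) (a (l 16711776) (l 16793576)))) (a (b (b (l 16660344) (l 16661688)) (a (l 16643792) (l 16689680))) (b (a (l 16718320) (a (l 16750728) (l 16762032))) (a (b (l 16727776) (a (l 16724608) (l 16745968))) (b (l 16820976) (l 16757472)))))))), by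 decide +kernel⟩

def k2_pm_102 : ∃ t, chk3 f_pm_102 t 6 4 1 = true :=
  ⟨(a (b (l 3) (a (b (a (b (l 3) (a (l 171966335223) (l 3))) (l 3)) (a (b (a (b (a (l 142975298039) (l 152638979431)) (l 16723056)) (b (l 169281968567) (a (l 144585913479) (l 153175852807)))) (a (l 16736088) (l 16728264))) (b (a (b (l 3) (l 168745100695)) (l 3)) (a (b (a (l 145659658087) (l 153712726295)) (l 16724528)) (b (a (l 168208235111) (l 3)) (a (l 147270273591) (b (l 167671368615) (l 149954628391)))))))) (b (l 3) (a (b (l 3) (a (b (l 3) (a (l 167671367127) (l 3))) (l 3))) (l 3))))) (l 3)), by decide +kernel⟩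

def k3_pm_102 : ∃ t, chk3 f_pm_102 t 12 5 1 = true :=
  ⟨(b (a (b (a (b (l 16746712) (l 16757440)) (b (a (l 16736512) (l 16729184)) (l 16746272))) (a (l 16767128) (l 16759952))) (b (a (b (a (b (a (b (l 150491500407) (l 16721552)) (b (l 165523887511) (l 151565243143))) (l 16725672)) (b (a (b (l 3) (l 164450146695)) (l 3)) (a (b (a (l 16719080) (l 153712733303)) (l 16722088)) (b (a (l 163376406823) (l 3)) (a (l 16719352) (l 153712733927)))))) (a (l 16736384) (b (l 16725864) (l 16732744)))) (b (a (b (l 3) (a (b (l 3) (a (l 162302665671) (l 3))) (l 3))) (l 3)) (a (b (a (b (a (l 16719552) (b (l 159081441783) (l 16718704))) (l 16722320)) (b (a (l 154249602519) (l 3)) (a (l 151565244775) (l 154249604343)))) (a (l 16727520) (l 16724048))) (b (a (c (l 154249603335) (l 155323337175)) (l 3)) (a (b (a (l 152638993303) (l 154786476775)) (l 16722296)) (b (l 154249602023) (a (l 154786483815) (l 156397089543)))))))) (a (b (l 16745040) (l 16754176)) (b (a (l 16735160)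 (b (l 16725432) (l 16731400))) (l 16742744))))) (a (b (l 16770840) (l 16768360)) (b (a (l 16764184) (b (l 16751224) (l 16758656))) (l 16769584)))), by decide +kernel⟩

def k4_pm_102 : ∃ t, chk3 f_pm_102 t 13 5 1 = true :=
  ⟨(b (a (b (a (b (l 3) (a (b (l 3) (a (b (l 3) (l 154786473015)) (l 3))) (l 3))) (l 3)) (a (b (a (b (a (b (a (l 156397099623) (l 158007702135)) (l 16721928)) (b (l 155860214711) (a (l 156933970471) (l 158544572711)))) (l 16724744)) (b (a (l 155860212311) (l 3)) (a (b (a (l 156933970407) (l 158544572199)) (l 16721224)) (b (l 154786472103) (l 153712745303))))) (a (l 16732936) (b (a (l 16725376) (l 16722112)) (l 16728928)))) (b (a (b (l 3) (a (l 154249598599) (l 3))) (l 3)) (a (b (a (b (l 152638992135) (l 16720192)) (b (l 152638986903) (l 151028378263))) (a (l 16724032) (l 16720744))) (b (l 3) (a (b (l 159618311431) (l 16718664)) (l 157470824295))))))) (l 3)) (a (b (a (b (l 16739432) (l 16747512)) (b (a (l 16729480) (b (a (l 16722224)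 (l 155860227175)) (l 16725048))) (l 16735120))) (a (l 16758904) (b (l 16743352) (l 16751984)))) (b (a (b (a (b (a (l 162839535383) (l 156397078455)) (l 153175872343)) (b (l 3) (l 160155194039))) (a (l 16724720) (b (l 150491512135) (l 16719864)))) (b (l 3) (a (b (l 156397071063) (l 146196538423)) (l 152638965671)))) (b (a (l 16730152) (a (l 16719128) (l 142975313031))) (a (l 16738736) (l 16724576)))))), by decide +kernel⟩

def k5_pm_102 : ∃ t, chk3 f_pm_102 t 7 2 1 = true :=
  ⟨(b (l 3) (a (b (l 3) (a (b (l 3) (a (b (a (l 151028374311) (l 145122760023)) (a (l 16712848) (b (l 131164131911) (l 16707336)))) (b (l 3) (a (b (l 139217176263) (l 123647928327)) (l 145122746775))))) (l 3))) (l 3))), by decide +kernel⟩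

def k6_pm_102 : ∃ t, chk3 f_pm_102 t 6 3 1 = true :=
  ⟨(b (a (b (a (b (l 16750984) (l 16732912)) (b (a (l 16766912) (l 16771480)) (b (l 16798072) (l 16747048)))) (a (b (l 16737024) (l 16751184)) (b (l 16831864) (l 16756680)))) (b (b (a (l 16767328) (a (l 16753216) (b (l 16733888) (l 16744840)))) (a (l 16770456) (a (l 16768568) (l 16760056)))) (b (a (l 16751952) (b (l 16771224) (l 16766264))) (l 16857912)))) (b (a (a (a (b (l 16788080) (l 16768672)) (b (l 16875712) (l 16769240))) (b (l 16766768) (l 16767552))) (b (a (l 16760736) (l 16755704)) (a (l 16763992) (l 16760056)))) (a (b (l 16807176) (a (l 16762736) (l 16765704))) (b (a (l 16763808) (l 16761048)) (a (l 16766824) (b (l 16765080) (l 16769896))))))), by decide +kernel⟩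

def k7_pm_102 : ∃ t, chk3 f_pm_102 t 14 6 1 = true :=
  ⟨(b (a (b (a (b (a (l 16722504) (l 16714680)) (l 16750272)) (b (a (l 16706736) (b (l 87140696551) (l 16701152))) (a (l 16717928) (l 16709928)))) (a (l 16747576) (b (a (l 16730160) (l 16721888)) (l 16738888)))) (b (a (b (a (l 143512166199) (l 3)) (a (l 16701344) (l 145659677847))) (b (l 3) (a (l 177871872839) (l 3)))) (a (b (a (l 16714160) (l 16705672)) (a (l 16727048) (l 16718544))) (b (a (l 144585958967) (b (l 170892556007) (l 150491531143))) (a (l 16710616) (b (l 16700624) (l 16705248))))))) (a (b (b (l 16757320) (l 16787088)) (a (l 16765480) (l 16770080))) (b (a (l 16742176) (b (a (l 16723768) (b (l 16712096) (l 16718768))) (l 16732544))) (b (a (l 16758936) (l 16745048)) (a (l 16766824) (l 16797712)))))), by decide +kernel⟩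

def k8_pm_102 : ∃ t, chk3 f_pm_102 t 15 6 1 = true :=
  ⟨(b (a (b (l 3) (a (b (a (b (l 3) (l 181093102615)) (l 3)) (a (b (a (l 144585942535) (l 186461847303)) (l 151565285063)) (b (l 3) (a (l 158544555607) (l 177335010599))))) (l 3))) (l 3)) (a (b (a (b (a (b (l 16703584) (l 16710408)) (b (a (l 16701096) (l 154249626839)) (l 16702904))) (a (b (l 16716896) (l 16723432)) (b (l 16708712) (l 16715032)))) (b (a (b (a (l 178408755239) (l 3)) (a (l 16732040) (b (l 176261272487) (l 16699488)))) (b (l 3) (a (l 169818818071) (l 3)))) (a (b (l 16723464) (l 16707008)) (b (a (b (l 177871904199) (l 16700464)) (l 170892604231)) (a (l 16702736) (b (l 16699944) (l 16701512))))))) (a (b (l 16728848) (l 16772616)) (b (a (b (l 16713120) (l 16719552)) (b (l 16705304) (l 16711160))) (l 16724616)))) (b (a (b (l 3) (a (b (a (l 163376363911) (l 3)) (a (b (l 167671337335) (l 16699320)) (l 171429450903))) (l 3))) (l 3)) (a (b (a (b (a (l 16701824) (b (l 171966329335) (l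 16700288))) (a (l 16705448) (l 16702744))) (b (a (l 181093129479) (l 173576909831)) (a (l 16721328) (b (l 168745101991) (l 16719656))))) (a (b (a (l 16711520) (l 16707640)) (l 16715544)) (b (a (l 16704136) (l 16701264)) (a (l 16709808) (l 16706040))))) (b (a (b (l 3) (a (l 160692010087) (l 3))) (l 3)) (a (b (a (b (l 171966348135) (l 16699624)) (l 189146222935)) (a (l 16702600) (b (l 16698792) (l 16700648)))) (b (l 3) (a (a (l 171966356167) (l 173040090327)) (b (l 3) (l 169281957367)))))))))), by decide +kernel⟩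

def k9_pm_102 : ∃ t, chk3 f_pm_102 t 7 7 1 = true :=
  ⟨(b (a (a (b (l 16754712) (b (l 16755376) (l 16755624))) (b (a (l 16766008) (l 16767056)) (b (l 16777928) (l 16755480)))) (a (b (b (a (l 16751752) (a (l 16740136) (l 16753208))) (a (l 16760920) (l 16746824))) (b (a (l 16766608) (l 16756224)) (a (l 16764128) (l 16763584)))) (b (a (b (a (b (l 16721280) (l 16726920)) (l 16716248)) (b (a (l 16732096) (l 16724208)) (l 16733328))) (b (a (b (a (l 16741624) (b (l 16703008) (l 16705560))) (l 16711312)) (b (a (b (l 16699824) (l 16702104)) (b (l 177335050695) (l 16698968))) (a (b (l 16704568) (l 16707104)) (b (l 16701160) (l 16703560))))) (b (a (l 16716464) (l 16709016)) (a (l 16721384) (a (l 16715736) (l 16712024)))))) (b (a (l 16740792) (a (l 16728752) (b (l 16718576) (l 16723296)))) (b (a (l 16747936) (a (l 16735880) (l 16727944))) (l 16744632)))))) (a (b (a (l 16759824) (l 16759104)) (a (l 16770608) (l 16770736))) (b (a (l 16757216) (a (l 16761536)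 (b (l 16743096) (l 16750976)))) (a (b (l 16762216) (l 16769888)) (a (b (l 16757800) (l 16763000)) (b (l 16755952) (l 16761128))))))), by decide +kernel⟩

theorem s10_pm_102 : ∃ t, chk3 f_pm_102 t 7 6 1 = true := ex3_a k7_pm_102 k8_pm_102

theorem s11_pm_102 : ∃ t, chk3 f_pm_102 t 7 3 1 = true := ex3_b s10_pm_102 k9_pm_102

theorem s12_pm_102 : ∃ t, chk3 f_pm_102 t 3 3 1 = true := ex3_a k6_pm_102 s11_pm_102

theorem s13_pm_102 : ∃ t, chk3 f_pm_102 t 6 5 1 = true := ex3_a k3_pm_102 k4_pm_102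

theorem s14_pm_102 : ∃ t, chk3 f_pm_102 t 6 2 1 = true := ex3_b k2_pm_102 s13_pm_102

theorem s15_pm_102 : ∃ t, chk3 f_pm_102 t 3 2 1 = true := ex3_a s14_pm_102 k5_pm_102

theorem s16_pm_102 : ∃ t, chk3 f_pm_102 t 3 1 1 = true := ex3_b s15_pm_102 s12_pm_102

theorem s17_pm_102 : ∃ t, chk3 f_pm_102 t 2 1 1 = true := ex3_b k0_pm_102 k1_pm_102

theorem s18_pm_102 : ∃ t, chk3 f_pm_102 t 1 1 1 = true := ex3_a s17_pm_102 s16_pm_102

theorem c_pm_102 : CertB 536870912 536870912 0 536870912 536870912 50465866 3 eng mog cd1q1 cd0q2 pd0 false true false .npp 1 0 2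
    ndB1q1 ndB0q2 pcB0 Cut.none Ext.none :=
  certB0 (fam := false) (s1 := true) (s2 := false) (a := 1) (b := 0) (c := 2) (cn := .npp) (n1 := ndB1q1) (n2 := ndB0q2) (pc := pcB0) (cut := Cut.none) (xt := Ext.none) (P1 := 536870912) (W1 := 536870912) (P2 := 0) (W2 := 536870912) (P3 := 536870912) (W3 := 50465866) (N0 := 3) (En := eng) (mo := mog) (C1 := cd1q1) (C2 := cd0q2) (C3 := pd0)
    rfl s18_pm_102

noncomputable def f_pm_112 : ℕ → ℕ → ℕ → ℕ → Bool := onCell 536870912 536870912 0 536870912 536870912 50465866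
    (rowB 3 eng mog cd1q1 cd0q2 pd1 2 false true false .dn 1 1 2 (qsf 536870912 536870912 0 536870912 1) ndB1q1 ndB0q2 pcB1 Cut.none Ext.none)

def k0_pm_112 : ∃ t, chk3 f_pm_112 t 1 1 1 = true :=
  ⟨(a (a (b (b (a (b (a (b (a (b (a (l 16732312) (l 16740976)) (l 16752560)) (l 16758400)) (a (l 16767016) (l 16771832))) (b (a (l 16767792) (l 16772616)) (l 16772120))) (a (l 16767296) (l 16749584))) (b (a (b (l 16771352) (l 16758800)) (l 16747416)) (a (l 16723416) (l 16698728)))) (b (a (b (l 16737488) (a (l 16693784) (l 16659104))) (b (a (l 16671464) (l 16650688)) (l 16686888))) (a (a (l 16650440) (l 16604000)) (a (l 16576008) (l 16577416))))) (b (a (b (l 16598736) (b (l 16579552) (a (l 16608248) (l 16520952)))) (b (l 55867727959) (b (l 16422608) (l 16559592)))) (a (a (b (l 16523976) (b (l 16437736) (l 16392568))) (b (l 16462008) (l 190622136983))) (b (l 264173626759) (l 1))))) (b (a (a (b (b (l 16727024) (l 16680352)) (b (l 16625672) (l 16582688)))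 (b (b (l 1) (l 1)) (l 1))) (l 1)) (b (l 1) (l 1)))) (l 1)), by decide +kernel⟩

theorem c_pm_112 : CertB 536870912 536870912 0 536870912 536870912 50465866 3 eng mog cd1q1 cd0q2 pd1 false true false .dn 1 1 2
    ndB1q1 ndB0q2 pcB1 Cut.none Ext.none :=
  certB2 (fam := false) (s1 := true) (s2 := false) (a := 1) (b := 1) (c := 2) (cn := .dn) (n1 := ndB1q1) (n2 := ndB0q2) (pc := pcB1) (cut := Cut.none) (xt := Ext.none) (P1 := 536870912) (W1 := 536870912) (P2 := 0) (W2 := 536870912) (P3 := 536870912) (W3 := 50465866) (N0 := 3) (En := eng) (mo := mog) (C1 := cd1q1) (C2 := cd0q2) (C3 := pd1)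
    rfl (fun _ => rfl) k0_pm_112

noncomputable def cut_pm_202_a : Cut := Cut.of [[⟨0, 1, 0, 67108864⟩, ⟨1, 0, 0, 67108864⟩, ⟨2, 1, 0, 67108864⟩]]

noncomputable def f_pm_202_a : ℕ → ℕ → ℕ → ℕ → Bool := onCell 0 536870912 0 536870912 536870912 50465866
    (rowB 3 eng mog cd1q2a cd0q2 pd0 0 false true false .pp 2 0 2 (qsf 0 536870912 0 536870912 0) ndB1q2a ndB0q2 pcB0 cut_pm_202_a Ext.none)

def k0_pm_202_a : ∃ t, chk3 f_pm_202_a t 1 1 1 = true :=
  ⟨(a (l 3) (b (l 3) (b (l 3) (a (l 3) (b (l 3) (a (l 3) (l 6))))))), by decide +kernel⟩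

theorem c_pm_202_a : CertB 0 536870912 0 536870912 536870912 50465866 3 eng mog cd1q2a cd0q2 pd0 false true false .pp 2 0 2
    ndB1q2a ndB0q2 pcB0 cut_pm_202_a Ext.none :=
  certB0 (fam := false) (s1 := true) (s2 := false) (a := 2) (b := 0) (c := 2) (cn := .pp) (n1 := ndB1q2a) (n2 := ndB0q2) (pc := pcB0) (cut := cut_pm_202_a) (xt := Ext.none) (P1 := 0) (W1 := 536870912) (P2 := 0) (W2 := 536870912) (P3 := 536870912) (W3 := 50465866) (N0 := 3) (En := eng) (mo := mog) (C1 := cd1q2a) (C2 := cd0q2) (C3 := pd0)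
    rfl k0_pm_202_a

noncomputable def cut_pm_202_b : Cut := Cut.of [[⟨0, 1, 0, 67108864⟩, ⟨1, 0, 0, 67108864⟩, ⟨2, 1, 0, 67108864⟩]]

noncomputable def f_pm_202_b : ℕ → ℕ → ℕ → ℕ → Bool := onCell 1239849684 370763052 0 536870912 536870912 50465866
    (rowB 3 eng mog cd1q2b cd0q2 pd0 0 false true false .pp 2 0 2 (qsf 1239849684 370763052 0 536870912 0) ndB1q2b ndB0q2 pcB0 cut_pm_202_b Ext.none)

def k0_pm_202_b : ∃ t, chk3 f_pm_202_b t 1 1 1 = true :=
  ⟨(l 3), by decide +kernel⟩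

theorem c_pm_202_b : CertB 1239849684 370763052 0 536870912 536870912 50465866 3 eng mog cd1q2b cd0q2 pd0 false true false .pp 2 0 2
    ndB1q2b ndB0q2 pcB0 cut_pm_202_b Ext.none :=
  certB0 (fam := false) (s1 := true) (s2 := false) (a := 2) (b := 0) (c := 2) (cn := .pp) (n1 := ndB1q2b) (n2 := ndB0q2) (pc := pcB0) (cut := cut_pm_202_b) (xt := Ext.none) (P1 := 1239849684) (W1 := 370763052) (P2 := 0) (W2 := 536870912) (P3 := 536870912) (W3 := 50465866) (N0 := 3) (En := eng) (mo := mog) (C1 := cd1q2b) (C2 := cd0q2) (C3 := pd0)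
    rfl k0_pm_202_b

noncomputable def f_mm_001 : ℕ → ℕ → ℕ → ℕ → Bool := onCell 0 536870912 0 536870912 536870912 50465866
    (rowB 3 eng mog cd1q0 cd0q1 pd0 1 false false false .up 0 0 1 (qsf 0 536870912 536870912 536870912 0) ndB1q0 ndB0q1 pcB0 Cut.none Ext.none)

def k0_mm_001 : ∃ t, chk3 f_mm_001 t 1 1 1 = true :=
  ⟨(l 3), by decide +kernel⟩

theorem c_mm_001 : CertB 0 536870912 536870912 536870912 536870912 50465866 3 eng mog cd1q0 cd0q1 pd0 false false false .up 0 0 1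
    ndB1q0 ndB0q1 pcB0 Cut.none Ext.none :=
  certB1 (fam := false) (s1 := false) (s2 := false) (a := 0) (b := 0) (c := 1) (cn := .up) (n1 := ndB1q0) (n2 := ndB0q1) (pc := pcB0) (cut := Cut.none) (xt := Ext.none) (P1 := 0) (W1 := 536870912) (P2 := 536870912) (W2 := 536870912) (P3 := 536870912) (W3 := 50465866) (N0 := 3) (En := eng) (mo := mog) (C1 := cd1q0) (C2 := cd0q1) (C3 := pd0)
    rfl (fun _ => rfl) k0_mm_001

noncomputable def f_mm_011 : ℕ → ℕ → ℕ → ℕ → Bool := onCell 0 536870912 536870912 536870912 536870912 50465866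
    (rowB 3 eng mog cd1q0 cd0q1 pd1 1 false false false .pnn 0 1 1 (qsf 0 536870912 536870912 536870912 1) ndB1q0 ndB0q1 pcB1 Cut.none Ext.none)

def k0_mm_011 : ∃ t, chk3 f_mm_011 t 1 1 1 = true :=
  ⟨(l 5), by decide +kernel⟩

theorem c_mm_011 : CertB 0 536870912 536870912 536870912 536870912 50465866 3 eng mog cd1q0 cd0q1 pd1 false false false .pnn 0 1 1
    ndB1q0 ndB0q1 pcB1 Cut.none Ext.none :=
  certB1 (fam := false) (s1 := false) (s2 := false) (a := 0) (b := 1) (c := 1) (cn := .pnn) (n1 := ndB1q0) (n2 := ndB0q1) (pc := pcB1) (cut := Cut.none) (xt := Ext.none) (P1 := 0) (W1 := 536870912) (P2 := 536870912) (W2 := 536870912) (P3 := 536870912) (W3 := 50465866) (N0 := 3) (En := eng) (mo := mog) (C1 := cd1q0) (C2 := cd0q1) (C3 := pd1)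
    rfl (fun _ => rfl) k0_mm_011

noncomputable def f_mm_012 : ℕ → ℕ → ℕ → ℕ → Bool := onCell 0 536870912 0 536870912 536870912 50465866
    (rowB 3 eng mog cd1q0 cd0q2 pd1 0 false false false .pnp 0 1 2 (qsf 0 536870912 0 536870912 1) ndB1q0 ndB0q2 pcB1 Cut.none Ext.none)

def k0_mm_012 : ∃ t, chk3 f_mm_012 t 1 1 1 = true :=
  ⟨(l 5), by decide +kernel⟩

theorem c_mm_012 : CertB 0 536870912 0 536870912 536870912 50465866 3 eng mog cd1q0 cd0q2 pd1 false false false .pnp 0 1 2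
    ndB1q0 ndB0q2 pcB1 Cut.none Ext.none :=
  certB0 (fam := false) (s1 := false) (s2 := false) (a := 0) (b := 1) (c := 2) (cn := .pnp) (n1 := ndB1q0) (n2 := ndB0q2) (pc := pcB1) (cut := Cut.none) (xt := Ext.none) (P1 := 0) (W1 := 536870912) (P2 := 0) (W2 := 536870912) (P3 := 536870912) (W3 := 50465866) (N0 := 3) (En := eng) (mo := mog) (C1 := cd1q0) (C2 := cd0q2) (C3 := pd1)
    rfl k0_mm_012

noncomputable def f_mm_022 : ℕ → ℕ → ℕ → ℕ → Bool := onCell 0 536870912 0 536870912 536870912 50465866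
    (rowB 3 eng mog cd1q0 cd0q2 pd2 0 false false false .pp 0 2 2 (qsf 0 536870912 0 536870912 2) ndB1q0 ndB0q2 pcB2 Cut.none Ext.none)

def k0_mm_022 : ∃ t, chk3 f_mm_022 t 1 1 1 = true :=
  ⟨(l 5), by decide +kernel⟩

theorem c_mm_022 : CertB 0 536870912 0 536870912 536870912 50465866 3 eng mog cd1q0 cd0q2 pd2 false false false .pp 0 2 2
    ndB1q0 ndB0q2 pcB2 Cut.none Ext.none :=
  certB0 (fam := false) (s1 := false) (s2 := false) (a := 0) (b := 2) (c := 2) (cn := .pp) (n1 := ndB1q0) (n2 := ndB0q2) (pc := pcB2) (cut := Cut.none) (xt := Ext.none) (P1 := 0) (W1 := 536870912) (P2 := 0) (W2 := 536870912) (P3 := 536870912) (W3 := 50465866) (N0 := 3) (En := eng) (mo := mog) (C1 := cd1q0) (C2 := cd0q2) (C3 := pd2)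
    rfl k0_mm_022

noncomputable def f_mm_101 : ℕ → ℕ → ℕ → ℕ → Bool := onCell 536870912 536870912 536870912 536870912 536870912 50465866
    (rowB 3 eng mog cd1q1 cd0q1 pd0 0 false false false .npn 1 0 1 (qsf 536870912 536870912 536870912 536870912 0) ndB1q1 ndB0q1 pcB0 Cut.none Ext.none)

def k0_mm_101 : ∃ t, chk3 f_mm_101 t 1 1 1 = true :=
  ⟨(l 3), by decide +kernel⟩

theorem c_mm_101 : CertB 536870912 536870912 536870912 536870912 536870912 50465866 3 eng mog cd1q1 cd0q1 pd0 false false false .npn 1 0 1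
    ndB1q1 ndB0q1 pcB0 Cut.none Ext.none :=
  certB0 (fam := false) (s1 := false) (s2 := false) (a := 1) (b := 0) (c := 1) (cn := .npn) (n1 := ndB1q1) (n2 := ndB0q1) (pc := pcB0) (cut := Cut.none) (xt := Ext.none) (P1 := 536870912) (W1 := 536870912) (P2 := 536870912) (W2 := 536870912) (P3 := 536870912) (W3 := 50465866) (N0 := 3) (En := eng) (mo := mog) (C1 := cd1q1) (C2 := cd0q1) (C3 := pd0)
    rfl k0_mm_101

noncomputable def f_mm_102 : ℕ → ℕ → ℕ → ℕ → Bool := onCell 536870912 536870912 0 536870912 536870912 50465866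
    (rowB 3 eng mog cd1q1 cd0q2 pd0 0 false false false .npp 1 0 2 (qsf 536870912 536870912 0 536870912 0) ndB1q1 ndB0q2 pcB0 Cut.none Ext.none)

def k0_mm_102 : ∃ t, chk3 f_mm_102 t 1 1 1 = true :=
  ⟨(l 5), by decide +kernel⟩

theorem c_mm_102 : CertB 536870912 536870912 0 536870912 536870912 50465866 3 eng mog cd1q1 cd0q2 pd0 false false false .npp 1 0 2
    ndB1q1 ndB0q2 pcB0 Cut.none Ext.none :=
  certB0 (fam := false) (s1 := false) (s2 := false) (a := 1) (b := 0) (c := 2) (cn := .npp) (n1 := ndB1q1) (n2 := ndB0q2) (pc := pcB0) (cut := Cut.none) (xt := Ext.none) (P1 := 536870912) (W1 := 536870912) (P2 := 0) (W2 := 536870912) (P3 := 536870912) (W3 := 50465866) (N0 := 3) (En := eng) (mo := mog) (C1 := cd1q1) (C2 := cd0q2) (C3 := pd0)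
    rfl k0_mm_102

noncomputable def f_mm_112 : ℕ → ℕ → ℕ → ℕ → Bool := onCell 536870912 536870912 0 536870912 536870912 50465866
    (rowB 3 eng mog cd1q1 cd0q2 pd1 0 false false false .dn 1 1 2 (qsf 536870912 536870912 0 536870912 1) ndB1q1 ndB0q2 pcB1 Cut.none Ext.none)

def k0_mm_112 : ∃ t, chk3 f_mm_112 t 1 1 1 = true :=
  ⟨(l 5), by decide +kernel⟩

theorem c_mm_112 : CertB 536870912 536870912 0 536870912 536870912 50465866 3 eng mog cd1q1 cd0q2 pd1 false false false .dn 1 1 2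
    ndB1q1 ndB0q2 pcB1 Cut.none Ext.none :=
  certB0 (fam := false) (s1 := false) (s2 := false) (a := 1) (b := 1) (c := 2) (cn := .dn) (n1 := ndB1q1) (n2 := ndB0q2) (pc := pcB1) (cut := Cut.none) (xt := Ext.none) (P1 := 536870912) (W1 := 536870912) (P2 := 0) (W2 := 536870912) (P3 := 536870912) (W3 := 50465866) (N0 := 3) (En := eng) (mo := mog) (C1 := cd1q1) (C2 := cd0q2) (C3 := pd1)
    rfl k0_mm_112

noncomputable def f_mm_202_a : ℕ → ℕ → ℕ → ℕ → Bool := onCell 0 536870912 0 536870912 536870912 50465866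
    (rowB 3 eng mog cd1q2a cd0q2 pd0 0 false false false .pp 2 0 2 (qsf 0 536870912 0 536870912 0) ndB1q2a ndB0q2 pcB0 Cut.none Ext.none)

def k0_mm_202_a : ∃ t, chk3 f_mm_202_a t 1 1 1 = true :=
  ⟨(l 3), by decide +kernel⟩

theorem c_mm_202_a : CertB 0 536870912 0 536870912 536870912 50465866 3 eng mog cd1q2a cd0q2 pd0 false false false .pp 2 0 2
    ndB1q2a ndB0q2 pcB0 Cut.none Ext.none :=
  certB0 (fam := false) (s1 := false) (s2 := false) (a := 2) (b := 0) (c := 2) (cn := .pp) (n1 := ndB1q2a) (n2 := ndB0q2) (pc := pcB0) (cut := Cut.none) (xt := Ext.none) (P1 := 0) (W1 := 536870912) (P2 := 0) (W2 := 536870912) (P3 := 536870912) (W3 := 50465866) (N0 := 3) (En := eng) (mo := mog) (C1 := cd1q2a) (C2 := cd0q2) (C3 := pd0)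
    rfl k0_mm_202_a

noncomputable def f_mm_202_b : ℕ → ℕ → ℕ → ℕ → Bool := onCell 1239849684 370763052 0 536870912 536870912 50465866
    (rowB 3 eng mog cd1q2b cd0q2 pd0 0 false false false .pp 2 0 2 (qsf 1239849684 370763052 0 536870912 0) ndB1q2b ndB0q2 pcB0 Cut.none Ext.none)

def k0_mm_202_b : ∃ t, chk3 f_mm_202_b t 1 1 1 = true :=
  ⟨(l 3), by decide +kernel⟩

theorem c_mm_202_b : CertB 1239849684 370763052 0 536870912 536870912 50465866 3 eng mog cd1q2b cd0q2 pd0 false false false .pp 2 0 2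
    ndB1q2b ndB0q2 pcB0 Cut.none Ext.none :=
  certB0 (fam := false) (s1 := false) (s2 := false) (a := 2) (b := 0) (c := 2) (cn := .pp) (n1 := ndB1q2b) (n2 := ndB0q2) (pc := pcB0) (cut := Cut.none) (xt := Ext.none) (P1 := 1239849684) (W1 := 370763052) (P2 := 0) (W2 := 536870912) (P3 := 536870912) (W3 := 50465866) (N0 := 3) (En := eng) (mo := mog) (C1 := cd1q2b) (C2 := cd0q2) (C3 := pd0)
    rfl k0_mm_202_b

end Pool.Agent.Strip051.G.I5000_5470.Tab.C.BB10

namespace Pool.Agent.Strip051.G.I5000_5470.Tab.C.BB11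

open Pool.Agent.Strip051.PB Pool.Agent.Strip051.PB.T
open Pool.Agent.Strip051.G.I5000_5470.Tab

noncomputable def f_pp_001 : ℕ → ℕ → ℕ → ℕ → Bool := onCell 0 536870912 0 536870912 536870912 50465866
    (rowB 3 eng mog cd1q0 cd1q1 pd0 1 false true true .up 0 0 1 (qsf 0 536870912 536870912 536870912 0) ndB1q0 ndB1q1 pcB0 Cut.none Ext.none)

def k0_pp_001 : ∃ t, chk3 f_pp_001 t 1 1 1 = true :=
  ⟨(l 3), by decide +kernel⟩

theorem c_pp_001 : CertB 0 536870912 536870912 536870912 536870912 50465866 3 eng mog cd1q0 cd1q1 pd0 false true true .up 0 0 1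
    ndB1q0 ndB1q1 pcB0 Cut.none Ext.none :=
  certB1 (fam := false) (s1 := true) (s2 := true) (a := 0) (b := 0) (c := 1) (cn := .up) (n1 := ndB1q0) (n2 := ndB1q1) (pc := pcB0) (cut := Cut.none) (xt := Ext.none) (P1 := 0) (W1 := 536870912) (P2 := 536870912) (W2 := 536870912) (P3 := 536870912) (W3 := 50465866) (N0 := 3) (En := eng) (mo := mog) (C1 := cd1q0) (C2 := cd1q1) (C3 := pd0)
    rfl (fun _ => rfl) k0_pp_001

noncomputable def f_pp_011 : ℕ → ℕ → ℕ → ℕ → Bool := onCell 0 536870912 536870912 536870912 536870912 50465866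
    (rowB 3 eng mog cd1q0 cd1q1 pd1 0 false true true .pnn 0 1 1 (qsf 0 536870912 536870912 536870912 1) ndB1q0 ndB1q1 pcB1 Cut.none Ext.none)

def k0_pp_011 : ∃ t, chk3 f_pp_011 t 1 1 1 = true :=
  ⟨(a (l 3) (l 3)), by decide +kernel⟩

theorem c_pp_011 : CertB 0 536870912 536870912 536870912 536870912 50465866 3 eng mog cd1q0 cd1q1 pd1 false true true .pnn 0 1 1
    ndB1q0 ndB1q1 pcB1 Cut.none Ext.none :=
  certB0 (fam := false) (s1 := true) (s2 := true) (a := 0) (b := 1) (c := 1) (cn := .pnn) (n1 := ndB1q0) (n2 := ndB1q1) (pc := pcB1) (cut := Cut.none) (xt := Ext.none) (P1 := 0) (W1 := 536870912) (P2 := 536870912) (W2 := 536870912) (P3 := 536870912) (W3 := 50465866) (N0 := 3) (En := eng) (mo := mog) (C1 := cd1q0) (C2 := cd1q1) (C3 := pd1)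
    rfl k0_pp_011

end Pool.Agent.Strip051.G.I5000_5470.Tab.C.BB11

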