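import Pool.Agent.Strip051.G.I5000_5470.Tab

/-! # Certificates B21 (generated) -/

set_option linter.all false
set_option maxRecDepth 100000

namespace Pool.Agent.Strip051.G.I5000_5470.Tab.C.BB11

open Pool.Agent.Strip051.PB Pool.Agent.Strip051.PB.T
open Pool.Agent.Strip051.G.I5000_5470.Tab

noncomputable def cut_pp_012_a : Cut := Cut.of [[⟨0, 0, 0, 67108864⟩, ⟨1, 1, 0, 67108864⟩, ⟨2, 1, 0, 67108864⟩]]

noncomputable def f_pp_012_a : ℕ → ℕ → ℕ → ℕ → Bool := onCell 536870912 536870912 0 536870912 536870912 50465866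
    (rowB 3 eng mog cd1q0 cd1q2a pd1 2 false true true .pnp 0 1 2 (qsf 0 536870912 0 536870912 1) ndB1q0 ndB1q2a pcB1 cut_pp_012_a Ext.none)

def k0_pp_012_a : ∃ t, chk3 f_pp_012_a t 2 1 1 = true :=
  ⟨(a (b (b (l 2) (l 3)) (l 3)) (b (a (b (b (b (a (l 16773824) (a (l 16763480) (l 16755456))) (a (l 126802323815) (a (l 16774744) (l 16769216)))) (a (a (l 2) (b (a (l 2) (l 138143674055)) (l 3))) (b (a (b (l 16767336) (l 16785696)) (l 16773952)) (a (b (a (l 181093275095) (l 142438613079)) (l 193441311095)) (b (l 16759256) (a (l 169282097191) (l 16784536))))))) (b (a (l 3) (b (a (l 3) (l 190756946455)) (l 3))) (l 3))) (b (b (a (b (l 16742472) (l 16820760)) (l 16731992)) (a (b (l 16812848) (a (b (l 16771328) (l 16757480)) (l 16773976))) (b (l 16756816) (l 16801248)))) (b (a (b (a (b (a (l 162302763415) (l 112373822231)) (l 174113910007)) (b (l 16761816) (a (l 147807242423) (l 16758784)))) (a (l 3) (b (l 160155281431) (l 3)))) (b (a (b (l 16773432) (l 16766224))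 (l 16773880)) (a (b (a (l 124184972935) (l 16759608)) (l 154249699527)) (b (l 16769720) (a (l 117205647063) (l 16761800)))))) (a (l 3) (b (a (l 3) (b (l 155323443175) (l 3))) (l 3)))))) (l 3))), by decide +kernel⟩

def k1_pp_012_a : ∃ t, chk3 f_pp_012_a t 6 1 1 = true :=
  ⟨(b (a (b (b (l 16699232) (a (b (l 16737216) (l 16754032)) (l 16722816))) (a (b (b (l 16766480) (a (l 16774024) (l 16772176))) (b (a (b (a (l 16784736) (l 16764960)) (l 158007802519)) (b (l 16774224) (l 54391715687))) (a (l 3) (b (l 157470938231) (l 3))))) (b (b (l 16746720) (l 16759880)) (a (b (l 16774032) (b (l 16769496) (l 110226371591))) (b (l 16766712) (l 16775528)))))) (b (a (l 16763512) (l 16736592)) (b (a (b (l 16721656) (l 16735936)) (l 16700936)) (a (a (l 16783496) (l 16791976)) (a (l 16799136) (l 16763456)))))) (b (a (b (a (l 3) (b (a (l 3) (b (l 107542007303) (l 139217360407))) (l 3))) (l 3)) (b (b (b (a (a (l 16775904) (l 16768328)) (l 16768984)) (a (a (l 124721771271)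 (l 16775760)) (l 16800192))) (a (a (l 164987138631) (a (l 156934076615) (a (l 149417850743) (l 131701096855)))) (a (l 16817968) (l 16766592)))) (a (l 3) (b (a (b (l 181093248823) (l 3)) (a (b (l 16776536) (l 222969223223)) (l 71571680679))) (l 3))))) (l 3))), by decide +kernel⟩

def k2_pp_012_a : ∃ t, chk3 f_pp_012_a t 7 2 1 = true :=
  ⟨(a (b (b (a (l 16608304) (l 16581064)) (a (l 16640240) (l 16610848))) (a (b (l 16670752) (b (l 16691336) (l 16692512))) (b (l 16661536) (a (l 16676368) (l 16661816))))) (b (a (b (l 16556088) (l 16583232)) (b (l 16532400) (l 16556680))) (a (b (b (l 16604472) (l 16618328)) (a (l 16668256) (b (l 16625208) (l 16640184)))) (b (b (l 16576424) (l 16589944)) (b (a (l 16611024) (l 16597224)) (a (l 16626128) (l 16612472))))))), by decide +kernel⟩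

def k3_pp_012_a : ∃ t, chk3 f_pp_012_a t 14 3 1 = true :=
  ⟨(b (b (b (a (a (l 16730768) (l 16715896)) (l 16693856)) (a (a (l 16752400) (l 16737688)) (a (l 16722552) (l 16728296)))) (a (b (a (b (l 16768456) (l 16775848)) (l 16759832)) (b (a (a (l 209547439735) (l 16796616)) (l 16795344)) (a (l 226190454423) (a (l 201494367191) (l 16773744))))) (b (a (l 16744736) (l 16729136)) (a (b (l 16761304) (l 16771376)) (a (l 16755208) (l 16747288)))))) (b (a (b (a (l 3) (b (a (l 3) (l 219747986247)) (l 3))) (l 3)) (b (a (b (a (l 168208412471) (l 16775504)) (a (l 3) (b (l 163376529655) (l 184314507063)))) (b (l 16767384) (a (b (l 16775288) (l 131701184199)) (l 16773736)))) (a (l 3) (b (a (l 186461996359) (b (l 94120211543) (l 181093279271))) (l 3))))) (l 3))), by decide +kernel⟩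

def k4_pp_012_a : ∃ t, chk3 f_pp_012_a t 15 3 1 = true :=
  ⟨(b (a (b (b (l 16664744) (a (l 16692304) (l 16677520))) (a (b (l 16713544) (b (l 16729864) (l 16740672))) (b (l 16698304) (l 16719624)))) (b (a (b (l 16643432) (l 16663024)) (b (l 16629728) (l 16649168))) (a (b (l 16683688) (b (l 16699768) (l 16710168))) (b (l 16669840) (b (l 16685496) (l 16695952)))))) (a (b (b (a (b (l 16751608) (a (l 16766536) (l 16758648))) (b (l 16735872) (l 16778472))) (a (b (a (b (l 16773960) (l 16796752)) (l 16769224)) (a (b (l 179482663863) (l 3)) (b (l 16776128) (a (l 183777631079) (l 16777048))))) (b (a (l 16761544) (l 16753768)) (a (l 16782552) (l 16764344))))) (b (a (b (a (l 3) (b (l 195588799543) (l 3))) (l 3)) (b (a (b (a (l 160155326247) (l 16775896)) (a (l 3) (l 177872051431))) (b (l 16772280) (a (b (l 16776080) (l 129016804711)) (l 16775480)))) (a (l 3) (b (a (l 166597766679) (b (l 108078837111) (l 6))) (l 3))))) (l 3))) (b (a (a (b (l 16730128) (b (l 16745976)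 (l 16756488))) (b (l 16722616) (b (l 16738216) (l 16748640)))) (a (b (l 16715160) (b (l 16730504) (l 16740824))) (b (l 16707784) (b (l 16722856) (l 6))))) (b (a (b (a (b (l 16764448) (l 16769800)) (l 6)) (l 6)) (l 6)) (l 6))))), by decide +kernel⟩

theorem s5_pp_012_a : ∃ t, chk3 f_pp_012_a t 7 3 1 = true := ex3_a k3_pp_012_a k4_pp_012_a

theorem s6_pp_012_a : ∃ t, chk3 f_pp_012_a t 7 1 1 = true := ex3_b k2_pp_012_a s5_pp_012_a

theorem s7_pp_012_a : ∃ t, chk3 f_pp_012_a t 3 1 1 = true := ex3_a k1_pp_012_a s6_pp_012_a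

theorem s8_pp_012_a : ∃ t, chk3 f_pp_012_a t 1 1 1 = true := ex3_a k0_pp_012_a s7_pp_012_a

theorem c_pp_012_a : CertB 0 536870912 0 536870912 536870912 50465866 3 eng mog cd1q0 cd1q2a pd1 false true true .pnp 0 1 2
    ndB1q0 ndB1q2a pcB1 cut_pp_012_a Ext.none :=
  certB2 (fam := false) (s1 := true) (s2 := true) (a := 0) (b := 1) (c := 2) (cn := .pnp) (n1 := ndB1q0) (n2 := ndB1q2a) (pc := pcB1) (cut := cut_pp_012_a) (xt := Ext.none) (P1 := 0) (W1 := 536870912) (P2 := 0) (W2 := 536870912) (P3 := 536870912) (W3 := 50465866) (N0 := 3) (En := eng) (mo := mog) (C1 := cd1q0) (C2 := cd1q2a) (C3 := pd1)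
    rfl (fun _ => rfl) s8_pp_012_a

noncomputable def cut_pp_012_b : Cut := Cut.of [[⟨0, 0, 0, 67108864⟩, ⟨1, 1, 0, 67108864⟩, ⟨2, 1, 0, 67108864⟩]]

noncomputable def f_pp_012_b : ℕ → ℕ → ℕ → ℕ → Bool := onCell 536870912 536870912 1239849684 370763052 536870912 50465866
    (rowB 3 eng mog cd1q0 cd1q2b pd1 2 false true true .pnp 0 1 2 (qsf 0 536870912 1239849684 370763052 1) ndB1q0 ndB1q2b pcB1 cut_pp_012_b Ext.none)

def k0_pp_012_b : ∃ t, chk3 f_pp_012_b t 1 1 1 = true :=
  ⟨(a (b (a (l 2) (a (b (b (a (l 16766952) (l 16834224)) (l 2)) (l 2)) (b (b (l 16763528) (l 16719944)) (a (l 2) (l 16717824))))) (l 2)) (a (b (b (a (b (l 16675760) (l 16668360)) (b (l 16684808) (l 16606112))) (a (l 16673544) (l 16644176))) (a (l 2) (b (l 16631008) (l 2)))) (b (a (b (a (l 16628232) (b (l 16549360) (l 16519368))) (a (l 16540664) (l 16497104))) (b (a (b (l 16521400) (l 16484128)) (b (l 16495224) (l 16449760))) (a (l 16452488) (l 16407432)))) (a (b (l 16536424) (l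 16597096)) (b (a (l 16455864) (l 16398888)) (l 16478192)))))), by decide +kernel⟩

theorem c_pp_012_b : CertB 0 536870912 1239849684 370763052 536870912 50465866 3 eng mog cd1q0 cd1q2b pd1 false true true .pnp 0 1 2
    ndB1q0 ndB1q2b pcB1 cut_pp_012_b Ext.none :=
  certB2 (fam := false) (s1 := true) (s2 := true) (a := 0) (b := 1) (c := 2) (cn := .pnp) (n1 := ndB1q0) (n2 := ndB1q2b) (pc := pcB1) (cut := cut_pp_012_b) (xt := Ext.none) (P1 := 0) (W1 := 536870912) (P2 := 1239849684) (W2 := 370763052) (P3 := 536870912) (W3 := 50465866) (N0 := 3) (En := eng) (mo := mog) (C1 := cd1q0) (C2 := cd1q2b) (C3 := pd1)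
    rfl (fun _ => rfl) k0_pp_012_b

noncomputable def cut_pp_022_a : Cut := Cut.of [[⟨0, 0, 0, 67108864⟩, ⟨1, 1, 0, 67108864⟩, ⟨2, 1, 0, 67108864⟩]]

noncomputable def f_pp_022_a : ℕ → ℕ → ℕ → ℕ → Bool := onCell 1073741824 536870912 0 536870912 536870912 50465866
    (rowB 3 eng mog cd1q0 cd1q2a pd2 2 false true true .pp 0 2 2 (qsf 0 536870912 0 536870912 2) ndB1q0 ndB1q2a pcB2 cut_pp_022_a Ext.none)

def k0_pp_022_a : ∃ t, chk3 f_pp_022_a t 2 2 1 = true :=
  ⟨(a (a (b (a (b (l 16513336) (l 16555800)) (b (l 16499280) (l 16517664))) (b (a (l 16601672) (l 16540008)) (a (b (l 16579592) (l 16615336)) (l 16608848)))) (a (b (l 16547392) (b (l 16521056) (b (l 16540696) (a (l 16561472) (l 16551792))))) (b (b (l 16473664) (l 16485368)) (b (l 16565464) (a (b (l 16526792) (l 16625616)) (b (l 16517168) (b (l 16569632) (l 16534768)))))))) (a (a (b (a (l 16552520) (l 22044804551)) (b (c (l 16483488) (l 16570784)) (a (b (l 48351607687) (b (l 16580080) (l 1))) (l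 1)))) (b (b (l 1) (l 1)) (l 1))) (l 1))), by decide +kernel⟩

def k1_pp_022_a : ∃ t, chk3 f_pp_022_a t 2 3 1 = true :=
  ⟨(a (a (b (a (b (b (l 16653112) (a (l 16635560) (l 16623976))) (a (b (l 16655264) (a (l 16678408) (l 16672192))) (b (l 16643056) (l 16662512)))) (b (a (l 16626816) (b (l 16587440) (l 16603768))) (b (a (l 16631800) (l 16623016)) (a (l 16670888) (a (l 16661456) (l 16633952)))))) (a (b (b (a (b (a (l 16693600) (l 16687160)) (a (l 16703832) (l 16697240))) (a (l 16685552) (l 16699592))) (l 6)) (l 6)) (a (b (b (b (l 16663664) (b (l 16691552) (l 6))) (l 6)) (l 6)) (b (a (b (b (l 16653408) (b (l 16659864) (l 6))) (l 6)) (b (b (l 16646304) (b (l 16652440) (l 51572924903))) (a (l 6) (l 1)))) (l 1))))) (b (b (a (a (b (l 16577416) (l 16592824)) (b (l 16566920) (a (l 16584232) (l 16578344)))) (b (a (b (l 16552528) (l 16559232)) (b (l 16541408) (l 16547560))) (a (a (l 16572320) (l 16566160)) (l 1)))) (a (b (a (a (l 16611392) (l 16605200)) (a (l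 16598824) (l 16592304))) (a (b (l 16619856) (a (l 16631128) (l 16624024))) (b (a (l 16609560) (l 1)) (l 1)))) (b (a (b (l 16578952) (l 1)) (l 1)) (l 1)))) (b (b (a (a (b (a (l 73584600151) (l 16631472)) (a (l 66068428807) (l 1))) (l 1)) (l 1)) (l 1)) (l 1)))) (b (l 1) (l 1))), by decide +kernel⟩

def k2_pp_022_a : ∃ t, chk3 f_pp_022_a t 3 1 1 = true :=
  ⟨(l 1), by decide +kernel⟩

theorem s3_pp_022_a : ∃ t, chk3 f_pp_022_a t 2 1 1 = true := ex3_b k0_pp_022_a k1_pp_022_a

theorem s4_pp_022_a : ∃ t, chk3 f_pp_022_a t 1 1 1 = true := ex3_a s3_pp_022_a k2_pp_022_a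

theorem c_pp_022_a : CertB 0 536870912 0 536870912 536870912 50465866 3 eng mog cd1q0 cd1q2a pd2 false true true .pp 0 2 2
    ndB1q0 ndB1q2a pcB2 cut_pp_022_a Ext.none :=
  certB2 (fam := false) (s1 := true) (s2 := true) (a := 0) (b := 2) (c := 2) (cn := .pp) (n1 := ndB1q0) (n2 := ndB1q2a) (pc := pcB2) (cut := cut_pp_022_a) (xt := Ext.none) (P1 := 0) (W1 := 536870912) (P2 := 0) (W2 := 536870912) (P3 := 536870912) (W3 := 50465866) (N0 := 3) (En := eng) (mo := mog) (C1 := cd1q0) (C2 := cd1q2a) (C3 := pd2)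
    rfl (fun _ => rfl) s4_pp_022_a

noncomputable def cut_pp_022_b : Cut := Cut.of [[⟨0, 0, 0, 67108864⟩, ⟨1, 1, 0, 67108864⟩, ⟨2, 1, 0, 67108864⟩]]

noncomputable def f_pp_022_b : ℕ → ℕ → ℕ → ℕ → Bool := onCell 1073741824 536870912 1239849684 370763052 536870912 50465866
    (rowB 3 eng mog cd1q0 cd1q2b pd2 2 false true true .pp 0 2 2 (qsf 0 536870912 1239849684 370763052 2) ndB1q0 ndB1q2b pcB2 cut_pp_022_b Ext.none)

def k0_pp_022_b : ∃ t, chk3 f_pp_022_b t 1 1 1 = true :=
  ⟨(a (a (b (b (a (a (l 16533352) (l 16456736)) (a (l 16525912) (b (l 16436520) (l 16375656)))) (a (b (l 16379224) (l 16353304)) (l 16491608))) (b (a (l 16341424) (l 16285256)) (a (l 16373328) (l 16300376)))) (b (a (b (b (a (l 16444328) (a (l 16497336) (l 155188731527))) (a (l 16359368) (l 16444424))) (a (l 16288248) (l 16407752))) (b (a (b (l 401075411527) (b (l 108480986935) (l 16333104))) (b (l 1) (l 262562597735))) (a (l 16327392) (b (l 16299224) (l 16232896))))) (a (b (l 16475920)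 (l 16226120)) (b (l 16149080) (l 16125632))))) (b (a (b (l 1) (a (b (l 294237893639) (l 192769203671)) (b (l 1) (l 336113763479)))) (l 1)) (a (a (b (l 16394376) (l 16051864)) (b (l 244845593031) (l 16142272))) (a (b (l 384432077479) (l 16190328)) (b (l 1) (l 395706705447)))))), by decide +kernel⟩

theorem c_pp_022_b : CertB 0 536870912 1239849684 370763052 536870912 50465866 3 eng mog cd1q0 cd1q2b pd2 false true true .pp 0 2 2
    ndB1q0 ndB1q2b pcB2 cut_pp_022_b Ext.none :=
  certB2 (fam := false) (s1 := true) (s2 := true) (a := 0) (b := 2) (c := 2) (cn := .pp) (n1 := ndB1q0) (n2 := ndB1q2b) (pc := pcB2) (cut := cut_pp_022_b) (xt := Ext.none) (P1 := 0) (W1 := 536870912) (P2 := 1239849684) (W2 := 370763052) (P3 := 536870912) (W3 := 50465866) (N0 := 3) (En := eng) (mo := mog) (C1 := cd1q0) (C2 := cd1q2b) (C3 := pd2)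
    rfl (fun _ => rfl) k0_pp_022_b

noncomputable def f_pp_023 : ℕ → ℕ → ℕ → ℕ → Bool := onCell 0 536870912 1073741824 536870912 536870912 50465866
    (rowB 3 eng mog cd1q0 cd1q3 pd2 1 false true true .up 0 2 3 (qsf 0 536870912 1610612736 536870912 2) ndB1q0 ndB1q3 pcB2 Cut.none Ext.none)

def k0_pp_023 : ∃ t, chk3 f_pp_023 t 1 1 1 = true :=
  ⟨(a (b (b (l 1) (a (l 1) (b (l 1) (l 16161216)))) (b (a (l 283500760967) (l 16215328)) (b (a (l 16173192) (l 16269568)) (a (l 16227624) (l 16444560))))) (b (b (a (l 184179845895) (l 170757989975)) (a (b (l 16277328) (l 16177504)) (b (l 16417184) (l 16513896)))) (b (a (l 16364248) (l 16624448)) (b (l 16639368) (l 16686632))))), by decide +kernel⟩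

theorem c_pp_023 : CertB 0 536870912 1610612736 536870912 536870912 50465866 3 eng mog cd1q0 cd1q3 pd2 false true true .up 0 2 3
    ndB1q0 ndB1q3 pcB2 Cut.none Ext.none :=
  certB1 (fam := false) (s1 := true) (s2 := true) (a := 0) (b := 2) (c := 3) (cn := .up) (n1 := ndB1q0) (n2 := ndB1q3) (pc := pcB2) (cut := Cut.none) (xt := Ext.none) (P1 := 0) (W1 := 536870912) (P2 := 1610612736) (W2 := 536870912) (P3 := 536870912) (W3 := 50465866) (N0 := 3) (En := eng) (mo := mog) (C1 := cd1q0) (C2 := cd1q3) (C3 := pd2)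
    rfl (fun _ => rfl) k0_pp_023

noncomputable def f_pp_033 : ℕ → ℕ → ℕ → ℕ → Bool := onCell 0 536870912 1610612736 536870912 536870912 50465866
    (rowB 3 eng mog cd1q0 cd1q3 pd3 1 false true true .pnn 0 3 3 (qsf 0 536870912 1610612736 536870912 3) ndB1q0 ndB1q3 pcB3 Cut.none Ext.none)

def k0_pp_033 : ∃ t, chk3 f_pp_033 t 1 1 1 = true :=
  ⟨(a (b (b (b (a (l 16378824) (l 16566232)) (a (l 16502232) (l 16632960))) (b (a (l 16612752) (l 16684688)) (l 4))) (b (l 4) (a (l 4) (a (b (l 4) (l 2)) (l 2))))) (b (b (b (l 16719688) (l 16740176)) (a (b (l 16729312) (l 4)) (a (b (l 16755936) (l 2)) (l 2)))) (a (b (a (b (l 4) (l 2)) (l 2)) (l 2)) (l 2)))), by decide +kernel⟩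

theorem c_pp_033 : CertB 0 536870912 1610612736 536870912 536870912 50465866 3 eng mog cd1q0 cd1q3 pd3 false true true .pnn 0 3 3
    ndB1q0 ndB1q3 pcB3 Cut.none Ext.none :=
  certB1 (fam := false) (s1 := true) (s2 := true) (a := 0) (b := 3) (c := 3) (cn := .pnn) (n1 := ndB1q0) (n2 := ndB1q3) (pc := pcB3) (cut := Cut.none) (xt := Ext.none) (P1 := 0) (W1 := 536870912) (P2 := 1610612736) (W2 := 536870912) (P3 := 536870912) (W3 := 50465866) (N0 := 3) (En := eng) (mo := mog) (C1 := cd1q0) (C2 := cd1q3) (C3 := pd3)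
    rfl (fun _ => rfl) k0_pp_033

noncomputable def f_pp_101 : ℕ → ℕ → ℕ → ℕ → Bool := onCell 536870912 536870912 536870912 536870912 536870912 50465866
    (rowB 3 eng mog cd1q1 cd1q1 pd0 0 false true true .npn 1 0 1 (qsf 536870912 536870912 536870912 536870912 0) ndB1q1 ndB1q1 pcB0 Cut.none Ext.none)

def k0_pp_101 : ∃ t, chk3 f_pp_101 t 1 1 1 = true :=
  ⟨(l 3), by decide +kernel⟩

theorem c_pp_101 : CertB 536870912 536870912 536870912 536870912 536870912 50465866 3 eng mog cd1q1 cd1q1 pd0 false true true .npn 1 0 1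
    ndB1q1 ndB1q1 pcB0 Cut.none Ext.none :=
  certB0 (fam := false) (s1 := true) (s2 := true) (a := 1) (b := 0) (c := 1) (cn := .npn) (n1 := ndB1q1) (n2 := ndB1q1) (pc := pcB0) (cut := Cut.none) (xt := Ext.none) (P1 := 536870912) (W1 := 536870912) (P2 := 536870912) (W2 := 536870912) (P3 := 536870912) (W3 := 50465866) (N0 := 3) (En := eng) (mo := mog) (C1 := cd1q1) (C2 := cd1q1) (C3 := pd0)
    rfl k0_pp_101

noncomputable def f_pp_102_a : ℕ → ℕ → ℕ → ℕ → Bool := onCell 0 536870912 0 536870912 536870912 50465866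
    (rowB 3 eng mog cd1q1 cd1q2a pd0 2 false true true .npp 1 0 2 (qsf 536870912 536870912 0 536870912 0) ndB1q1 ndB1q2a pcB0 Cut.none Ext.none)

def k0_pp_102_a : ∃ t, chk3 f_pp_102_a t 1 1 1 = true :=
  ⟨(a (a (l 3) (l 3)) (l 3)), by decide +kernel⟩

theorem c_pp_102_a : CertB 536870912 536870912 0 536870912 536870912 50465866 3 eng mog cd1q1 cd1q2a pd0 false true true .npp 1 0 2
    ndB1q1 ndB1q2a pcB0 Cut.none Ext.none :=
  certB2 (fam := false) (s1 := true) (s2 := true) (a := 1) (b := 0) (c := 2) (cn := .npp) (n1 := ndB1q1) (n2 := ndB1q2a) (pc := pcB0) (cut := Cut.none) (xt := Ext.none) (P1 := 536870912) (W1 := 536870912) (P2 := 0) (W2 := 536870912) (P3 := 536870912) (W3 := 50465866) (N0 := 3) (En := eng) (mo := mog) (C1 := cd1q1) (C2 := cd1q2a) (C3 := pd0)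
    rfl (fun _ => rfl) k0_pp_102_a

noncomputable def f_pp_102_b : ℕ → ℕ → ℕ → ℕ → Bool := onCell 536870912 536870912 0 536870912 536870912 50465866
    (rowB 3 eng mog cd1q1 cd1q2b pd0 1 false true true .npp 1 0 2 (qsf 536870912 536870912 1239849684 370763052 0) ndB1q1 ndB1q2b pcB0 Cut.none Ext.none)

def k0_pp_102_b : ∃ t, chk3 f_pp_102_b t 1 1 1 = true :=
  ⟨(a (a (l 1) (l 3)) (l 3)), by decide +kernel⟩

theorem c_pp_102_b : CertB 536870912 536870912 1239849684 370763052 536870912 50465866 3 eng mog cd1q1 cd1q2b pd0 false true true .npp 1 0 2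
    ndB1q1 ndB1q2b pcB0 Cut.none Ext.none :=
  certB1 (fam := false) (s1 := true) (s2 := true) (a := 1) (b := 0) (c := 2) (cn := .npp) (n1 := ndB1q1) (n2 := ndB1q2b) (pc := pcB0) (cut := Cut.none) (xt := Ext.none) (P1 := 536870912) (W1 := 536870912) (P2 := 1239849684) (W2 := 370763052) (P3 := 536870912) (W3 := 50465866) (N0 := 3) (En := eng) (mo := mog) (C1 := cd1q1) (C2 := cd1q2b) (C3 := pd0)
    rfl (fun _ => rfl) k0_pp_102_b

noncomputable def f_pp_112_a : ℕ → ℕ → ℕ → ℕ → Bool := onCell 536870912 536870912 0 536870912 536870912 50465866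
    (rowB 3 eng mog cd1q1 cd1q2a pd1 0 false true true .dn 1 1 2 (qsf 536870912 536870912 0 536870912 1) ndB1q1 ndB1q2a pcB1 Cut.none Ext.none)

def k0_pp_112_a : ∃ t, chk3 f_pp_112_a t 1 1 1 = true :=
  ⟨(a (b (b (a (a (b (a (b (a (l 16773280) (l 16772800)) (a (l 16767504) (b (l 16758792) (a (l 16744408) (l 16765360))))) (b (a (l 16764200) (b (l 16754560) (l 16751296))) (a (b (l 16740680) (l 156934010343)) (l 176798216631)))) (a (b (a (b (a (l 16745496) (l 105931296343)) (b (a (l 122574292151) (l 168745183351)) (l 171966410391))) (b (b (l 140291019495) (l 168745180679)) (l 3))) (l 3)) (l 3))) (b (a (b (a (b (l 16728960) (l 159618336375)) (l 164450151575)) (l 3)) (l 3)) (l 3))) (l 3)) (l 3)) (l 3)) (l 1)), by decide +kernel⟩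

theorem c_pp_112_a : CertB 536870912 536870912 0 536870912 536870912 50465866 3 eng mog cd1q1 cd1q2a pd1 false true true .dn 1 1 2
    ndB1q1 ndB1q2a pcB1 Cut.none Ext.none :=
  certB0 (fam := false) (s1 := true) (s2 := true) (a := 1) (b := 1) (c := 2) (cn := .dn) (n1 := ndB1q1) (n2 := ndB1q2a) (pc := pcB1) (cut := Cut.none) (xt := Ext.none) (P1 := 536870912) (W1 := 536870912) (P2 := 0) (W2 := 536870912) (P3 := 536870912) (W3 := 50465866) (N0 := 3) (En := eng) (mo := mog) (C1 := cd1q1) (C2 := cd1q2a) (C3 := pd1)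
    rfl k0_pp_112_a

noncomputable def f_pp_112_b : ℕ → ℕ → ℕ → ℕ → Bool := onCell 536870912 536870912 1239849684 370763052 536870912 50465866
    (rowB 3 eng mog cd1q1 cd1q2b pd1 2 false true true .dn 1 1 2 (qsf 536870912 536870912 1239849684 370763052 1) ndB1q1 ndB1q2b pcB1 Cut.none Ext.none)

def k0_pp_112_b : ∃ t, chk3 f_pp_112_b t 1 1 1 = true :=
  ⟨(a (a (b (a (b (l 3) (l 3)) (b (a (b (a (b (a (l 175187601831) (l 16731784)) (l 16733760)) (b (l 16747760) (l 16749184))) (l 134385428567)) (b (a (l 16763904) (l 16772024)) (a (l 16761112) (l 16771496)))) (a (l 3) (b (l 130627491863) (l 135996093575))))) (a (l 3) (l 3))) (b (a (b (a (b (a (l 16773856) (l 16770648)) (l 16777696)) (b (a (l 16764296) (l 16755936)) (l 16789560))) (a (b (l 16785872) (l 123648271239)) (b (l 16786144) (l 16809800)))) (b (b (l 115460930055) (l 16799272)) (a (b (l 16767584) (l 16800304)) (l 16753800)))) (a (b (a (b (l 133848691383) (l 3)) (b (l 16836992) (l 127943277831)))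 (a (l 3) (b (l 138680711863) (l 3)))) (b (a (b (l 16843024) (l 16893112)) (l 16853992)) (a (a (l 102173494119) (l 16962160)) (b (l 16964936) (l 17045536))))))) (a (b (b (l 1) (a (l 100965282983) (l 124050677383))) (a (b (a (l 16819200) (l 16769592)) (a (l 17001088) (l 16967280))) (b (l 16682384) (l 16866176)))) (b (l 1) (b (a (l 118681733559) (l 1)) (a (l 16693696) (l 16531208)))))), by decide +kernel⟩

theorem c_pp_112_b : CertB 536870912 536870912 1239849684 370763052 536870912 50465866 3 eng mog cd1q1 cd1q2b pd1 false true true .dn 1 1 2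
    ndB1q1 ndB1q2b pcB1 Cut.none Ext.none :=
  certB2 (fam := false) (s1 := true) (s2 := true) (a := 1) (b := 1) (c := 2) (cn := .dn) (n1 := ndB1q1) (n2 := ndB1q2b) (pc := pcB1) (cut := Cut.none) (xt := Ext.none) (P1 := 536870912) (W1 := 536870912) (P2 := 1239849684) (W2 := 370763052) (P3 := 536870912) (W3 := 50465866) (N0 := 3) (En := eng) (mo := mog) (C1 := cd1q1) (C2 := cd1q2b) (C3 := pd1)
    rfl (fun _ => rfl) k0_pp_112_b

noncomputable def f_pp_113 : ℕ → ℕ → ℕ → ℕ → Bool := onCell 536870912 536870912 536870912 536870912 536870912 50465866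
    (rowB 3 eng mog cd1q1 cd1q3 pd1 1 false true true .nn 1 1 3 (qsf 536870912 536870912 1610612736 536870912 1) ndB1q1 ndB1q3 pcB1 Cut.none Ext.none)

def k0_pp_113 : ∃ t, chk3 f_pp_113 t 1 1 1 = true :=
  ⟨(b (b (a (l 1) (l 3)) (a (b (l 1) (a (l 1) (a (l 1) (b (l 1) (l 16998296))))) (a (b (l 3) (b (a (l 203642076071) (l 3)) (a (l 16997976) (l 3)))) (l 3)))) (b (a (a (b (l 1) (l 16719976)) (b (a (l 16940288) (l 17118432)) (a (l 16978200) (l 17071696)))) (a (b (a (b (l 17092384) (l 17142216)) (b (l 16936320) (l 17025040))) (b (a (l 17124608) (l 17055472)) (a (l 17080896) (l 17083800)))) (b (a (b (l 3) (l 276119991447)) (l 3)) (a (b (l 207936765191) (l 16976680)) (a (b (l 3) (l 16917824)) (l 3)))))) (a (a (b (l 16733176) (l 16721240)) (a (l 16935504) (l 16850144))) (b (b (a (l 17043552) (a (l 16983552) (l 381346464631))) (a (l 17007096) (a (l 16967616) (l 239075792359)))) (a (l 16963584) (a (l 16905864) (b (l 16864088) (l 16829944)))))))), by decide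 +kernel⟩

theorem c_pp_113 : CertB 536870912 536870912 1610612736 536870912 536870912 50465866 3 eng mog cd1q1 cd1q3 pd1 false true true .nn 1 1 3
    ndB1q1 ndB1q3 pcB1 Cut.none Ext.none :=
  certB1 (fam := false) (s1 := true) (s2 := true) (a := 1) (b := 1) (c := 3) (cn := .nn) (n1 := ndB1q1) (n2 := ndB1q3) (pc := pcB1) (cut := Cut.none) (xt := Ext.none) (P1 := 536870912) (W1 := 536870912) (P2 := 1610612736) (W2 := 536870912) (P3 := 536870912) (W3 := 50465866) (N0 := 3) (En := eng) (mo := mog) (C1 := cd1q1) (C2 := cd1q3) (C3 := pd1)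
    rfl (fun _ => rfl) k0_pp_113

noncomputable def f_pp_123 : ℕ → ℕ → ℕ → ℕ → Bool := onCell 1073741824 536870912 1610612736 536870912 536870912 50465866
    (rowB 3 eng mog cd1q1 cd1q3 pd2 2 false true true .npn 1 2 3 (qsf 536870912 536870912 1610612736 536870912 2) ndB1q1 ndB1q3 pcB2 Cut.none Ext.none)

def k0_pp_123 : ∃ t, chk3 f_pp_123 t 1 1 1 = true :=
  ⟨(a (b (a (b (a (l 16622384) (l 16478200)) (a (a (l 16908880) (l 16847248)) (l 16758144))) (a (b (l 16407376) (l 16870608)) (b (l 1) (l 16600120)))) (a (b (a (l 16909008) (l 16928952)) (a (b (l 16854472) (l 16799456)) (l 16794736))) (b (a (a (l 16799616) (l 16771328)) (l 16738992)) (a (a (l 16776408) (l 16767472)) (l 16760672))))) (a (b (b (l 1) (l 16543112)) (b (l 16738288) (l 16746504))) (b (l 1) (a (l 246457683847) (l 221224746023))))), by decide +kernel⟩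

theorem c_pp_123 : CertB 536870912 536870912 1610612736 536870912 536870912 50465866 3 eng mog cd1q1 cd1q3 pd2 false true true .npn 1 2 3
    ndB1q1 ndB1q3 pcB2 Cut.none Ext.none :=
  certB2 (fam := false) (s1 := true) (s2 := true) (a := 1) (b := 2) (c := 3) (cn := .npn) (n1 := ndB1q1) (n2 := ndB1q3) (pc := pcB2) (cut := Cut.none) (xt := Ext.none) (P1 := 536870912) (W1 := 536870912) (P2 := 1610612736) (W2 := 536870912) (P3 := 536870912) (W3 := 50465866) (N0 := 3) (En := eng) (mo := mog) (C1 := cd1q1) (C2 := cd1q3) (C3 := pd2)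
    rfl (fun _ => rfl) k0_pp_123

noncomputable def f_pp_133 : ℕ → ℕ → ℕ → ℕ → Bool := onCell 1610612736 536870912 1610612736 536870912 536870912 50465866
    (rowB 3 eng mog cd1q1 cd1q3 pd3 2 false true true .dn 1 3 3 (qsf 536870912 536870912 1610612736 536870912 3) ndB1q1 ndB1q3 pcB3 Cut.none Ext.none)

def k0_pp_133 : ∃ t, chk3 f_pp_133 t 1 1 1 = true :=
  ⟨(a (b (l 1) (a (a (l 16779408) (l 1)) (l 1))) (l 1)), by decide +kernel⟩

theorem c_pp_133 : CertB 536870912 536870912 1610612736 536870912 536870912 50465866 3 eng mog cd1q1 cd1q3 pd3 false true true .dn 1 3 3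
    ndB1q1 ndB1q3 pcB3 Cut.none Ext.none :=
  certB2 (fam := false) (s1 := true) (s2 := true) (a := 1) (b := 3) (c := 3) (cn := .dn) (n1 := ndB1q1) (n2 := ndB1q3) (pc := pcB3) (cut := Cut.none) (xt := Ext.none) (P1 := 536870912) (W1 := 536870912) (P2 := 1610612736) (W2 := 536870912) (P3 := 536870912) (W3 := 50465866) (N0 := 3) (En := eng) (mo := mog) (C1 := cd1q1) (C2 := cd1q3) (C3 := pd3)
    rfl (fun _ => rfl) k0_pp_133

noncomputable def f_pp_202_aa : ℕ → ℕ → ℕ → ℕ → Bool := onCell 0 536870912 0 536870912 536870912 50465866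
    (rowB 3 eng mog cd1q2a cd1q2a pd0 0 false true true .pp 2 0 2 (qsf 0 536870912 0 536870912 0) ndB1q2a ndB1q2a pcB0 Cut.none Ext.none)

def k0_pp_202_aa : ∃ t, chk3 f_pp_202_aa t 1 1 1 = true :=
  ⟨(l 3), by decide +kernel⟩

theorem c_pp_202_aa : CertB 0 536870912 0 536870912 536870912 50465866 3 eng mog cd1q2a cd1q2a pd0 false true true .pp 2 0 2
    ndB1q2a ndB1q2a pcB0 Cut.none Ext.none :=
  certB0 (fam := false) (s1 := true) (s2 := true) (a := 2) (b := 0) (c := 2) (cn := .pp) (n1 := ndB1q2a) (n2 := ndB1q2a) (pc := pcB0) (cut := Cut.none) (xt := Ext.none) (P1 := 0) (W1 := 536870912) (P2 := 0) (W2 := 536870912) (P3 := 536870912) (W3 := 50465866) (N0 := 3) (En := eng) (mo := mog) (C1 := cd1q2a) (C2 := cd1q2a) (C3 := pd0)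
    rfl k0_pp_202_aa

noncomputable def f_pp_202_ab : ℕ → ℕ → ℕ → ℕ → Bool := onCell 0 536870912 1239849684 370763052 536870912 50465866
    (rowB 3 eng mog cd1q2a cd1q2b pd0 0 false true true .pp 2 0 2 (qsf 0 536870912 1239849684 370763052 0) ndB1q2a ndB1q2b pcB0 Cut.none Ext.none)

def k0_pp_202_ab : ∃ t, chk3 f_pp_202_ab t 1 1 1 = true :=
  ⟨(l 3), by decide +kernel⟩

theorem c_pp_202_ab : CertB 0 536870912 1239849684 370763052 536870912 50465866 3 eng mog cd1q2a cd1q2b pd0 false true true .pp 2 0 2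
    ndB1q2a ndB1q2b pcB0 Cut.none Ext.none :=
  certB0 (fam := false) (s1 := true) (s2 := true) (a := 2) (b := 0) (c := 2) (cn := .pp) (n1 := ndB1q2a) (n2 := ndB1q2b) (pc := pcB0) (cut := Cut.none) (xt := Ext.none) (P1 := 0) (W1 := 536870912) (P2 := 1239849684) (W2 := 370763052) (P3 := 536870912) (W3 := 50465866) (N0 := 3) (En := eng) (mo := mog) (C1 := cd1q2a) (C2 := cd1q2b) (C3 := pd0)
    rfl k0_pp_202_ab

noncomputable def f_pp_202_ba : ℕ → ℕ → ℕ → ℕ → Bool := onCell 1239849684 370763052 0 536870912 536870912 50465866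
    (rowB 3 eng mog cd1q2b cd1q2a pd0 0 false true true .pp 2 0 2 (qsf 1239849684 370763052 0 536870912 0) ndB1q2b ndB1q2a pcB0 Cut.none Ext.none)

def k0_pp_202_ba : ∃ t, chk3 f_pp_202_ba t 1 1 1 = true :=
  ⟨(l 3), by decide +kernel⟩

theorem c_pp_202_ba : CertB 1239849684 370763052 0 536870912 536870912 50465866 3 eng mog cd1q2b cd1q2a pd0 false true true .pp 2 0 2
    ndB1q2b ndB1q2a pcB0 Cut.none Ext.none :=
  certB0 (fam := false) (s1 := true) (s2 := true) (a := 2) (b := 0) (c := 2) (cn := .pp) (n1 := ndB1q2b) (n2 := ndB1q2a) (pc := pcB0) (cut := Cut.none) (xt := Ext.none) (P1 := 1239849684) (W1 := 370763052) (P2 := 0) (W2 := 536870912) (P3 := 536870912) (W3 := 50465866) (N0 := 3) (En := eng) (mo := mog) (C1 := cd1q2b) (C2 := cd1q2a) (C3 := pd0)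
    rfl k0_pp_202_ba

noncomputable def f_pp_202_bb : ℕ → ℕ → ℕ → ℕ → Bool := onCell 1239849684 370763052 1239849684 370763052 536870912 50465866
    (rowB 3 eng mog cd1q2b cd1q2b pd0 0 false true true .pp 2 0 2 (qsf 1239849684 370763052 1239849684 370763052 0) ndB1q2b ndB1q2b pcB0 Cut.none Ext.none)

def k0_pp_202_bb : ∃ t, chk3 f_pp_202_bb t 1 1 1 = true :=
  ⟨(l 3), by decide +kernel⟩

theorem c_pp_202_bb : CertB 1239849684 370763052 1239849684 370763052 536870912 50465866 3 eng mog cd1q2b cd1q2b pd0 false true true .pp 2 0 2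
    ndB1q2b ndB1q2b pcB0 Cut.none Ext.none :=
  certB0 (fam := false) (s1 := true) (s2 := true) (a := 2) (b := 0) (c := 2) (cn := .pp) (n1 := ndB1q2b) (n2 := ndB1q2b) (pc := pcB0) (cut := Cut.none) (xt := Ext.none) (P1 := 1239849684) (W1 := 370763052) (P2 := 1239849684) (W2 := 370763052) (P3 := 536870912) (W3 := 50465866) (N0 := 3) (En := eng) (mo := mog) (C1 := cd1q2b) (C2 := cd1q2b) (C3 := pd0)
    rfl k0_pp_202_bb

noncomputable def f_pp_203_a : ℕ → ℕ → ℕ → ℕ → Bool := onCell 0 536870912 0 536870912 536870912 50465866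
    (rowB 3 eng mog cd1q2a cd1q3 pd0 1 false true true .up 2 0 3 (qsf 0 536870912 1610612736 536870912 0) ndB1q2a ndB1q3 pcB0 Cut.none Ext.none)

def k0_pp_203_a : ∃ t, chk3 f_pp_203_a t 1 1 1 = true :=
  ⟨(l 3), by decide +kernel⟩

theorem c_pp_203_a : CertB 0 536870912 1610612736 536870912 536870912 50465866 3 eng mog cd1q2a cd1q3 pd0 false true true .up 2 0 3
    ndB1q2a ndB1q3 pcB0 Cut.none Ext.none :=
  certB1 (fam := false) (s1 := true) (s2 := true) (a := 2) (b := 0) (c := 3) (cn := .up) (n1 := ndB1q2a) (n2 := ndB1q3) (pc := pcB0) (cut := Cut.none) (xt := Ext.none) (P1 := 0) (W1 := 536870912) (P2 := 1610612736) (W2 := 536870912) (P3 := 536870912) (W3 := 50465866) (N0 := 3) (En := eng) (mo := mog) (C1 := cd1q2a) (C2 := cd1q3) (C3 := pd0)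
    rfl (fun _ => rfl) k0_pp_203_a

noncomputable def f_pp_203_b : ℕ → ℕ → ℕ → ℕ → Bool := onCell 1239849684 370763052 1610612736 536870912 536870912 50465866
    (rowB 3 eng mog cd1q2b cd1q3 pd0 0 false true true .up 2 0 3 (qsf 1239849684 370763052 1610612736 536870912 0) ndB1q2b ndB1q3 pcB0 Cut.none Ext.none)

def k0_pp_203_b : ∃ t, chk3 f_pp_203_b t 1 1 1 = true :=
  ⟨(l 3), by decide +kernel⟩

theorem c_pp_203_b : CertB 1239849684 370763052 1610612736 536870912 536870912 50465866 3 eng mog cd1q2b cd1q3 pd0 false true true .up 2 0 3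
    ndB1q2b ndB1q3 pcB0 Cut.none Ext.none :=
  certB0 (fam := false) (s1 := true) (s2 := true) (a := 2) (b := 0) (c := 3) (cn := .up) (n1 := ndB1q2b) (n2 := ndB1q3) (pc := pcB0) (cut := Cut.none) (xt := Ext.none) (P1 := 1239849684) (W1 := 370763052) (P2 := 1610612736) (W2 := 536870912) (P3 := 536870912) (W3 := 50465866) (N0 := 3) (En := eng) (mo := mog) (C1 := cd1q2b) (C2 := cd1q3) (C3 := pd0)
    rfl k0_pp_203_b

noncomputable def cut_pp_213_a : Cut := Cut.of [[⟨0, 1, 0, 67108864⟩, ⟨1, 1, 0, 67108864⟩, ⟨2, 2, 0, 16777216⟩]]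

noncomputable def f_pp_213_a : ℕ → ℕ → ℕ → ℕ → Bool := onCell 0 536870912 1610612736 536870912 536870912 50465866
    (rowB 3 eng mog cd1q2a cd1q3 pd1 0 false true true .pnn 2 1 3 (qsf 0 536870912 1610612736 536870912 1) ndB1q2a ndB1q3 pcB1 cut_pp_213_a Ext.none)

def k0_pp_213_a : ∃ t, chk3 f_pp_213_a t 1 1 1 = true :=
  ⟨(b (l 3) (a (l 3) (b (l 3) (a (l 3) (b (l 3) (a (l 3) (a (l 3) (b (l 3) (b (l 3) (b (l 3) (l 6))))))))))), by decide +kernel⟩

theorem c_pp_213_a : CertB 0 536870912 1610612736 536870912 536870912 50465866 3 eng mog cd1q2a cd1q3 pd1 false true true .pnn 2 1 3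
    ndB1q2a ndB1q3 pcB1 cut_pp_213_a Ext.none :=
  certB0 (fam := false) (s1 := true) (s2 := true) (a := 2) (b := 1) (c := 3) (cn := .pnn) (n1 := ndB1q2a) (n2 := ndB1q3) (pc := pcB1) (cut := cut_pp_213_a) (xt := Ext.none) (P1 := 0) (W1 := 536870912) (P2 := 1610612736) (W2 := 536870912) (P3 := 536870912) (W3 := 50465866) (N0 := 3) (En := eng) (mo := mog) (C1 := cd1q2a) (C2 := cd1q3) (C3 := pd1)
    rfl k0_pp_213_a

noncomputable def cut_pp_213_b : Cut := Cut.of [[⟨0, 1, 0, 67108864⟩, ⟨1, 1, 0, 67108864⟩, ⟨2, 2, 0, 16777216⟩]]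

noncomputable def f_pp_213_b : ℕ → ℕ → ℕ → ℕ → Bool := onCell 1239849684 370763052 1610612736 536870912 536870912 50465866
    (rowB 3 eng mog cd1q2b cd1q3 pd1 0 false true true .pnn 2 1 3 (qsf 1239849684 370763052 1610612736 536870912 1) ndB1q2b ndB1q3 pcB1 cut_pp_213_b Ext.none)

def k0_pp_213_b : ∃ t, chk3 f_pp_213_b t 1 1 1 = true :=
  ⟨(l 3), by decide +kernel⟩

theorem c_pp_213_b : CertB 1239849684 370763052 1610612736 536870912 536870912 50465866 3 eng mog cd1q2b cd1q3 pd1 false true true .pnn 2 1 3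
    ndB1q2b ndB1q3 pcB1 cut_pp_213_b Ext.none :=
  certB0 (fam := false) (s1 := true) (s2 := true) (a := 2) (b := 1) (c := 3) (cn := .pnn) (n1 := ndB1q2b) (n2 := ndB1q3) (pc := pcB1) (cut := cut_pp_213_b) (xt := Ext.none) (P1 := 1239849684) (W1 := 370763052) (P2 := 1610612736) (W2 := 536870912) (P3 := 536870912) (W3 := 50465866) (N0 := 3) (En := eng) (mo := mog) (C1 := cd1q2b) (C2 := cd1q3) (C3 := pd1)
    rfl k0_pp_213_b

noncomputable def f_pp_303 : ℕ → ℕ → ℕ → ℕ → Bool := onCell 1610612736 536870912 1610612736 536870912 536870912 50465866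
    (rowB 3 eng mog cd1q3 cd1q3 pd0 0 false true true .npn 3 0 3 (qsf 1610612736 536870912 1610612736 536870912 0) ndB1q3 ndB1q3 pcB0 Cut.none Ext.none)

def k0_pp_303 : ∃ t, chk3 f_pp_303 t 1 1 1 = true :=
  ⟨(l 3), by decide +kernel⟩

theorem c_pp_303 : CertB 1610612736 536870912 1610612736 536870912 536870912 50465866 3 eng mog cd1q3 cd1q3 pd0 false true true .npn 3 0 3
    ndB1q3 ndB1q3 pcB0 Cut.none Ext.none :=
  certB0 (fam := false) (s1 := true) (s2 := true) (a := 3) (b := 0) (c := 3) (cn := .npn) (n1 := ndB1q3) (n2 := ndB1q3) (pc := pcB0) (cut := Cut.none) (xt := Ext.none) (P1 := 1610612736) (W1 := 536870912) (P2 := 1610612736) (W2 := 536870912) (P3 := 536870912) (W3 := 50465866) (N0 := 3) (En := eng) (mo := mog) (C1 := cd1q3) (C2 := cd1q3) (C3 := pd0)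
    rfl k0_pp_303

noncomputable def f_pp_313 : ℕ → ℕ → ℕ → ℕ → Bool := onCell 1610612736 536870912 1610612736 536870912 536870912 50465866
    (rowB 3 eng mog cd1q3 cd1q3 pd1 0 false true true .dn 3 1 3 (qsf 1610612736 536870912 1610612736 536870912 1) ndB1q3 ndB1q3 pcB1 Cut.none Ext.none)

def k0_pp_313 : ∃ t, chk3 f_pp_313 t 1 1 1 = true :=
  ⟨(l 3), by decide +kernel⟩

theorem c_pp_313 : CertB 1610612736 536870912 1610612736 536870912 536870912 50465866 3 eng mog cd1q3 cd1q3 pd1 false true true .dn 3 1 3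
    ndB1q3 ndB1q3 pcB1 Cut.none Ext.none :=
  certB0 (fam := false) (s1 := true) (s2 := true) (a := 3) (b := 1) (c := 3) (cn := .dn) (n1 := ndB1q3) (n2 := ndB1q3) (pc := pcB1) (cut := Cut.none) (xt := Ext.none) (P1 := 1610612736) (W1 := 536870912) (P2 := 1610612736) (W2 := 536870912) (P3 := 536870912) (W3 := 50465866) (N0 := 3) (En := eng) (mo := mog) (C1 := cd1q3) (C2 := cd1q3) (C3 := pd1)
    rfl k0_pp_313

noncomputable def f_pm_001 : ℕ → ℕ → ℕ → ℕ → Bool := onCell 0 536870912 0 536870912 536870912 50465866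
    (rowB 3 eng mog cd1q0 cd1q1 pd0 1 false true false .up 0 0 1 (qsf 0 536870912 536870912 536870912 0) ndB1q0 ndB1q1 pcB0 Cut.none Ext.none)

def k0_pm_001 : ∃ t, chk3 f_pm_001 t 1 1 1 = true :=
  ⟨(a (l 4) (a (l 4) (b (l 4) (b (l 4) (b (a (l 4) (a (l 4) (b (l 16513944) (l 16423072)))) (b (a (l 4) (a (b (l 16405688) (l 16363848)) (l 16309776))) (a (a (l 4) (l 16486472)) (a (l 16358488) (l 16279520))))))))), by decide +kernel⟩

theorem c_pm_001 : CertB 0 536870912 536870912 536870912 536870912 50465866 3 eng mog cd1q0 cd1q1 pd0 false true false .up 0 0 1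
    ndB1q0 ndB1q1 pcB0 Cut.none Ext.none :=
  certB1 (fam := false) (s1 := true) (s2 := false) (a := 0) (b := 0) (c := 1) (cn := .up) (n1 := ndB1q0) (n2 := ndB1q1) (pc := pcB0) (cut := Cut.none) (xt := Ext.none) (P1 := 0) (W1 := 536870912) (P2 := 536870912) (W2 := 536870912) (P3 := 536870912) (W3 := 50465866) (N0 := 3) (En := eng) (mo := mog) (C1 := cd1q0) (C2 := cd1q1) (C3 := pd0)
    rfl (fun _ => rfl) k0_pm_001

noncomputable def f_pm_011 : ℕ → ℕ → ℕ → ℕ → Bool := onCell 0 536870912 536870912 536870912 536870912 50465866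
    (rowB 3 eng mog cd1q0 cd1q1 pd1 0 false true false .pnn 0 1 1 (qsf 0 536870912 536870912 536870912 1) ndB1q0 ndB1q1 pcB1 Cut.none Ext.none)

def k0_pm_011 : ∃ t, chk3 f_pm_011 t 1 1 1 = true :=
  ⟨(b (l 4) (a (l 4) (b (l 4) (a (b (l 4) (a (b (l 4) (a (l 4) (b (l 4) (l 16555656)))) (a (b (l 4) (b (l 16429408) (a (l 16448112) (l 16431392)))) (b (l 16493456) (b (l 16437248) (l 16404864)))))) (b (a (b (l 4) (a (l 4) (l 16431416))) (b (l 1) (a (l 16377000) (l 1)))) (a (b (a (l 16437872) (l 16358504)) (a (l 16392776) (l 16328048))) (b (b (l 16297680) (l 16274760)) (a (l 16299184) (b (l 16227504) (l 16215000)))))))))), by decide +kernel⟩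

theorem c_pm_011 : CertB 0 536870912 536870912 536870912 536870912 50465866 3 eng mog cd1q0 cd1q1 pd1 false true false .pnn 0 1 1
    ndB1q0 ndB1q1 pcB1 Cut.none Ext.none :=
  certB0 (fam := false) (s1 := true) (s2 := false) (a := 0) (b := 1) (c := 1) (cn := .pnn) (n1 := ndB1q0) (n2 := ndB1q1) (pc := pcB1) (cut := Cut.none) (xt := Ext.none) (P1 := 0) (W1 := 536870912) (P2 := 536870912) (W2 := 536870912) (P3 := 536870912) (W3 := 50465866) (N0 := 3) (En := eng) (mo := mog) (C1 := cd1q0) (C2 := cd1q1) (C3 := pd1)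
    rfl k0_pm_011

noncomputable def cut_pm_012_a : Cut := Cut.of [[⟨0, 0, 0, 67108864⟩, ⟨1, 1, 0, 67108864⟩, ⟨2, 1, 0, 67108864⟩]]

noncomputable def f_pm_012_a : ℕ → ℕ → ℕ → ℕ → Bool := onCell 536870912 536870912 0 536870912 536870912 50465866
    (rowB 3 eng mog cd1q0 cd1q2a pd1 2 false true false .pnp 0 1 2 (qsf 0 536870912 0 536870912 1) ndB1q0 ndB1q2a pcB1 cut_pm_012_a Ext.none)

def k0_pm_012_a : ∃ t, chk3 f_pm_012_a t 2 1 1 = true :=
  ⟨(a (b (b (l 2) (a (l 2) (a (l 2) (l 16527512)))) (a (b (l 2) (b (a (l 2) (l 16500712)) (a (l 16513704) (l 16431208)))) (b (b (l 16444104) (b (l 16430432) (l 16415664))) (b (a (l 16424560) (l 16358920)) (a (l 16398040) (l 16374264)))))) (b (b (a (a (b (l 16661832) (l 16612144)) (b (a (l 16657648) (l 16651384)) (l 16695064))) (b (a (l 16639416) (l 16622320)) (l 16590952))) (a (a (b (l 16570648) (l 16540080)) (a (l 16583200) (l 16560152))) (b (l 16558160) (l 16536960)))) (b (a (b (a (l 16501800) (l 16625144)) (a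 (l 16596304) (a (l 16478488) (l 16484240)))) (b (l 16597376) (a (l 16483720) (l 16483536)))) (a (b (a (l 16395832) (a (l 16444960) (l 16456656))) (a (l 16452520) (b (a (l 16438392) (l 16455008)) (l 16557768)))) (b (b (l 16467400) (l 16467376)) (b (l 16538504) (l 16490880))))))), by decide +kernel⟩

def k1_pm_012_a : ∃ t, chk3 f_pm_012_a t 3 1 1 = true :=
  ⟨(b (a (b (a (b (l 16594704) (l 16559048)) (a (l 16549792) (l 16531936))) (a (b (l 16531624) (l 16537464)) (a (l 16548240) (b (l 16498992) (l 16493240))))) (a (b (a (l 16556016) (b (l 16507088) (l 16486616))) (a (b (l 16486800) (l 16485424)) (b (l 16476544) (l 16480096)))) (b (a (b (l 16490664) (l 16474336)) (b (l 16475600) (l 16463440))) (a (b (l 16468696) (l 16497544)) (b (a (l 16463656) (l 16460776)) (a (l 16474800) (l 16474144))))))) (a (b (a (b (a (l 16504320) (l 16499328)) (a (l 16484832) (l 16487408))) (b (a (l 16495120) (l 16491816)) (a (l 16491056) (l 16496784)))) (b (a (b (l 16483664) (l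 16535256)) (a (b (l 16499688) (l 16517264)) (l 16525832))) (a (b (l 16511672) (l 16600952)) (a (b (l 16564832) (l 16578624)) (b (l 16567192) (b (l 16595784) (l 16617560))))))) (b (a (b (a (l 16532632) (b (l 16488424) (l 16495424))) (a (l 16504952) (b (l 16506640) (l 16523016)))) (b (a (b (l 16489072) (l 16500024)) (a (b (l 16490536) (l 16504408)) (b (l 16492040) (l 16508064)))) (a (b (l 16515496) (l 16557568)) (a (b (l 16523272) (l 16548312)) (b (l 16529440) (l 16556816)))))) (b (a (a (l 16573696) (b (l 16566776) (l 16577408))) (a (b (l 16564664) (l 16630080)) (a (b (l 16580224) (l 16619792)) (b (b (l 16581432) (l 16600128)) (a (l 16649968) (b (l 16623760) (l 6))))))) (a (a (b (l 16591504) (b (l 16623728) (l 16671304))) (b (l 16659808) (b (l 16675472) (b (l 16674728) (l 16709768))))) (b (a (a (l 16659896) (l 16679248)) (a (b (l 16654256) (l 6)) (l 6))) (a (a (b (l 16677016) (b (l 16697968) (l 16712544))) (b (l 16713216) (l 6))) (l 6)))))))), by decide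 +kernel⟩

theorem s2_pm_012_a : ∃ t, chk3 f_pm_012_a t 1 1 1 = true := ex3_a k0_pm_012_a k1_pm_012_a

theorem c_pm_012_a : CertB 0 536870912 0 536870912 536870912 50465866 3 eng mog cd1q0 cd1q2a pd1 false true false .pnp 0 1 2
    ndB1q0 ndB1q2a pcB1 cut_pm_012_a Ext.none :=
  certB2 (fam := false) (s1 := true) (s2 := false) (a := 0) (b := 1) (c := 2) (cn := .pnp) (n1 := ndB1q0) (n2 := ndB1q2a) (pc := pcB1) (cut := cut_pm_012_a) (xt := Ext.none) (P1 := 0) (W1 := 536870912) (P2 := 0) (W2 := 536870912) (P3 := 536870912) (W3 := 50465866) (N0 := 3) (En := eng) (mo := mog) (C1 := cd1q0) (C2 := cd1q2a) (C3 := pd1)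
    rfl (fun _ => rfl) s2_pm_012_a

noncomputable def cut_pm_012_b : Cut := Cut.of [[⟨0, 0, 0, 67108864⟩, ⟨1, 1, 0, 67108864⟩, ⟨2, 1, 0, 67108864⟩]]

noncomputable def f_pm_012_b : ℕ → ℕ → ℕ → ℕ → Bool := onCell 536870912 536870912 1239849684 370763052 536870912 50465866
    (rowB 3 eng mog cd1q0 cd1q2b pd1 2 false true false .pnp 0 1 2 (qsf 0 536870912 1239849684 370763052 1) ndB1q0 ndB1q2b pcB1 cut_pm_012_b Ext.none)

def k0_pm_012_b : ∃ t, chk3 f_pm_012_b t 1 1 1 = true :=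
  ⟨(a (a (l 2) (b (a (b (a (l 16700624) (l 16683400)) (l 2)) (b (b (l 16650336) (l 16658232)) (l 16684656))) (l 2))) (a (b (b (a (b (l 16607704) (l 16608048)) (a (l 16567392) (l 16560736))) (a (l 16626880) (a (l 16575720) (l 16538104)))) (a (l 2) (b (l 16606704) (l 2)))) (b (a (b (b (a (l 16523352) (l 16498896)) (l 16486912)) (b (l 16476728) (l 16480920))) (b (a (b (l 16475792) (l 16438840)) (b (l 16454568) (l 16407808))) (a (l 16412808) (l 16369128)))) (a (b (l 16512816) (l 16598408)) (b (a (l 16432232) (l 16374816)) (l 16478048)))))), by decide +kernel⟩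

theorem c_pm_012_b : CertB 0 536870912 1239849684 370763052 536870912 50465866 3 eng mog cd1q0 cd1q2b pd1 false true false .pnp 0 1 2
    ndB1q0 ndB1q2b pcB1 cut_pm_012_b Ext.none :=
  certB2 (fam := false) (s1 := true) (s2 := false) (a := 0) (b := 1) (c := 2) (cn := .pnp) (n1 := ndB1q0) (n2 := ndB1q2b) (pc := pcB1) (cut := cut_pm_012_b) (xt := Ext.none) (P1 := 0) (W1 := 536870912) (P2 := 1239849684) (W2 := 370763052) (P3 := 536870912) (W3 := 50465866) (N0 := 3) (En := eng) (mo := mog) (C1 := cd1q0) (C2 := cd1q2b) (C3 := pd1)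
    rfl (fun _ => rfl) k0_pm_012_b

noncomputable def cut_pm_022_a : Cut := Cut.of [[⟨0, 0, 0, 67108864⟩, ⟨1, 1, 0, 67108864⟩, ⟨2, 1, 0, 67108864⟩]]

noncomputable def f_pm_022_a : ℕ → ℕ → ℕ → ℕ → Bool := onCell 0 536870912 0 536870912 536870912 50465866
    (rowB 3 eng mog cd1q0 cd1q2a pd2 0 false true false .pp 0 2 2 (qsf 0 536870912 0 536870912 2) ndB1q0 ndB1q2a pcB2 cut_pm_022_a Ext.none)

def k0_pm_022_a : ∃ t, chk3 f_pm_022_a t 2 1 1 = true :=
  ⟨(b (a (b (b (a (l 16500944) (l 16464272)) (a (b (l 16503592) (a (l 16467048) (l 16465760))) (a (l 16462920) (l 16460144)))) (a (b (a (l 16522904) (l 16477520)) (a (b (l 16500136) (a (l 16518320) (l 16514992))) (b (l 16494176) (l 16571256)))) (b (a (l 16472096) (b (l 16462384) (l 16467200))) (a (b (l 16485200) (l 16496744)) (b (l 16474152) (a (l 16486280) (l 16479240))))))) (a (a (b (b (l 16467064) (l 16458352)) (b (b (l 16477872) (l 16458968)) (b (l 73584293991) (l 122439560023)))) (b (b (l 1) (l 1))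 (l 1))) (l 1))) (a (b (a (a (a (b (b (l 16558304) (a (l 16582112) (l 16556824))) (b (a (b (l 16569040) (l 16592632)) (l 16581072)) (b (a (l 16606344) (l 16600944)) (a (l 16631096) (l 16614984))))) (b (b (l 16532688) (l 16552168)) (b (l 16574384) (b (l 16592832) (l 16606224))))) (b (b (a (l 16527096) (l 16520648)) (a (l 16545104) (l 16537144))) (b (a (l 16565704) (l 16556096)) (a (l 16589128) (l 16603928))))) (b (a (b (l 16530512) (a (l 16528360) (l 16518816))) (b (a (l 16496848) (l 16488128)) (a (l 16508560) (l 1)))) (a (b (a (l 16545624) (l 16534344)) (a (b (l 16560072) (l 16570648)) (b (l 16547408) (l 1)))) (b (a (l 16522320) (l 1)) (l 1))))) (a (a (b (b (b (a (a (a (l 16636952) (l 16634088)) (b (l 16625904) (l 16633416))) (l 16620416)) (a (b (a (l 16647120) (l 16641096)) (l 6)) (l 16656384))) (l 6)) (l 6)) (a (b (b (b (l 16608512) (l 16622440)) (l 6)) (l 6)) (b (b (b (l 16595648) (l 16608552)) (b (l 16643160) (a (l 6) (l 1)))) (l 1)))) (b (b (a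 (a (b (l 16581864) (l 16593728)) (l 1)) (l 1)) (l 1)) (l 1)))) (b (l 1) (l 1)))), by decide +kernel⟩

def k1_pm_022_a : ∃ t, chk3 f_pm_022_a t 3 1 1 = true :=
  ⟨(l 1), by decide +kernel⟩

theorem s2_pm_022_a : ∃ t, chk3 f_pm_022_a t 1 1 1 = true := ex3_a k0_pm_022_a k1_pm_022_a

theorem c_pm_022_a : CertB 0 536870912 0 536870912 536870912 50465866 3 eng mog cd1q0 cd1q2a pd2 false true false .pp 0 2 2
    ndB1q0 ndB1q2a pcB2 cut_pm_022_a Ext.none :=
  certB0 (fam := false) (s1 := true) (s2 := false) (a := 0) (b := 2) (c := 2) (cn := .pp) (n1 := ndB1q0) (n2 := ndB1q2a) (pc := pcB2) (cut := cut_pm_022_a) (xt := Ext.none) (P1 := 0) (W1 := 536870912) (P2 := 0) (W2 := 536870912) (P3 := 536870912) (W3 := 50465866) (N0 := 3) (En := eng) (mo := mog) (C1 := cd1q0) (C2 := cd1q2a) (C3 := pd2)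
    rfl s2_pm_022_a

noncomputable def cut_pm_022_b : Cut := Cut.of [[⟨0, 0, 0, 67108864⟩, ⟨1, 1, 0, 67108864⟩, ⟨2, 1, 0, 67108864⟩]]

noncomputable def f_pm_022_b : ℕ → ℕ → ℕ → ℕ → Bool := onCell 0 536870912 1073741824 536870912 536870912 50465866
    (rowB 3 eng mog cd1q0 cd1q2b pd2 1 false true false .pp 0 2 2 (qsf 0 536870912 1239849684 370763052 2) ndB1q0 ndB1q2b pcB2 cut_pm_022_b Ext.none)

def k0_pm_022_b : ∃ t, chk3 f_pm_022_b t 1 1 1 = true :=
  ⟨(a (b (b (a (a (b (l 1) (b (l 210486498903) (a (l 97206826679) (l 16458784)))) (b (b (l 61773461111) (l 16577504)) (b (l 16479072) (l 16382760)))) (b (a (b (l 16468952) (l 16400568)) (l 16355624)) (a (l 16332896) (l 16286048)))) (a (b (a (b (a (l 16494512) (l 16400224)) (l 16500544)) (b (l 16372168) (b (l 16291392) (l 16261616)))) (a (a (l 16356104) (l 16249600)) (l 16217776))) (b (b (l 16271000) (l 16379712)) (l 16329952)))) (b (a (b (a (a (l 16280376) (l 16184064)) (l 16096976)) (a (l 16158896)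 (l 16063904))) (b (l 16028216) (l 15940784))) (a (b (l 16205864) (l 16048336)) (b (l 16219912) (l 2))))) (b (b (a (b (a (l 16321432) (l 16320648)) (l 16278344)) (b (l 16384400) (l 16374800))) (a (b (l 16366928) (l 16198520)) (b (l 16420680) (l 2)))) (b (a (b (l 16255680) (l 2)) (l 2)) (l 2)))), by decide +kernel⟩

theorem c_pm_022_b : CertB 0 536870912 1239849684 370763052 536870912 50465866 3 eng mog cd1q0 cd1q2b pd2 false true false .pp 0 2 2
    ndB1q0 ndB1q2b pcB2 cut_pm_022_b Ext.none :=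
  certB1 (fam := false) (s1 := true) (s2 := false) (a := 0) (b := 2) (c := 2) (cn := .pp) (n1 := ndB1q0) (n2 := ndB1q2b) (pc := pcB2) (cut := cut_pm_022_b) (xt := Ext.none) (P1 := 0) (W1 := 536870912) (P2 := 1239849684) (W2 := 370763052) (P3 := 536870912) (W3 := 50465866) (N0 := 3) (En := eng) (mo := mog) (C1 := cd1q0) (C2 := cd1q2b) (C3 := pd2)
    rfl (fun _ => rfl) k0_pm_022_b

noncomputable def f_pm_023 : ℕ → ℕ → ℕ → ℕ → Bool := onCell 0 536870912 1073741824 536870912 536870912 50465866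
    (rowB 3 eng mog cd1q0 cd1q3 pd2 1 false true false .up 0 2 3 (qsf 0 536870912 1610612736 536870912 2) ndB1q0 ndB1q3 pcB2 Cut.none Ext.none)

def k0_pm_023 : ∃ t, chk3 f_pm_023 t 1 1 1 = true :=
  ⟨(a (b (b (l 1) (a (l 1) (b (l 1) (l 16329944)))) (b (a (b (l 1) (l 340945390215)) (l 270078472295)) (a (b (l 16171408) (l 16063560)) (b (l 16225560) (l 16411400))))) (b (b (a (l 143914509127) (l 143377526423)) (a (b (l 16340152) (l 16187080)) (b (l 16410312) (l 16508872)))) (b (a (b (l 16252528) (l 16422024)) (l 16620792)) (b (l 16634800) (l 16683240))))), by decide +kernel⟩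

theorem c_pm_023 : CertB 0 536870912 1610612736 536870912 536870912 50465866 3 eng mog cd1q0 cd1q3 pd2 false true false .up 0 2 3
    ndB1q0 ndB1q3 pcB2 Cut.none Ext.none :=
  certB1 (fam := false) (s1 := true) (s2 := false) (a := 0) (b := 2) (c := 3) (cn := .up) (n1 := ndB1q0) (n2 := ndB1q3) (pc := pcB2) (cut := Cut.none) (xt := Ext.none) (P1 := 0) (W1 := 536870912) (P2 := 1610612736) (W2 := 536870912) (P3 := 536870912) (W3 := 50465866) (N0 := 3) (En := eng) (mo := mog) (C1 := cd1q0) (C2 := cd1q3) (C3 := pd2)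
    rfl (fun _ => rfl) k0_pm_023

noncomputable def f_pm_033 : ℕ → ℕ → ℕ → ℕ → Bool := onCell 0 536870912 1610612736 536870912 536870912 50465866
    (rowB 3 eng mog cd1q0 cd1q3 pd3 1 false true false .pnn 0 3 3 (qsf 0 536870912 1610612736 536870912 3) ndB1q0 ndB1q3 pcB3 Cut.none Ext.none)

def k0_pm_033 : ∃ t, chk3 f_pm_033 t 1 1 1 = true :=
  ⟨(a (b (b (b (a (l 16303696) (l 16539496)) (a (l 16470568) (l 16622024))) (l 4)) (b (l 4) (a (l 4) (a (b (l 4) (l 2)) (l 2))))) (b (b (b (l 16718104) (l 16803256)) (a (b (l 16729160) (l 4)) (a (b (l 16754840) (l 2)) (l 2)))) (a (b (a (b (l 4) (l 2)) (l 2)) (l 2)) (l 2)))), by decide +kernel⟩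

theorem c_pm_033 : CertB 0 536870912 1610612736 536870912 536870912 50465866 3 eng mog cd1q0 cd1q3 pd3 false true false .pnn 0 3 3
    ndB1q0 ndB1q3 pcB3 Cut.none Ext.none :=
  certB1 (fam := false) (s1 := true) (s2 := false) (a := 0) (b := 3) (c := 3) (cn := .pnn) (n1 := ndB1q0) (n2 := ndB1q3) (pc := pcB3) (cut := Cut.none) (xt := Ext.none) (P1 := 0) (W1 := 536870912) (P2 := 1610612736) (W2 := 536870912) (P3 := 536870912) (W3 := 50465866) (N0 := 3) (En := eng) (mo := mog) (C1 := cd1q0) (C2 := cd1q3) (C3 := pd3)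
    rfl (fun _ => rfl) k0_pm_033

noncomputable def f_pm_101 : ℕ → ℕ → ℕ → ℕ → Bool := onCell 0 536870912 536870912 536870912 536870912 50465866
    (rowB 3 eng mog cd1q1 cd1q1 pd0 2 false true false .npn 1 0 1 (qsf 536870912 536870912 536870912 536870912 0) ndB1q1 ndB1q1 pcB0 Cut.none Ext.none)

def k0_pm_101 : ∃ t, chk3 f_pm_101 t 2 1 1 = true :=
  ⟨(b (a (b (l 4) (b (l 4) (a (b (a (l 16750720) (l 4)) (a (l 16722624) (l 16723240))) (b (l 4) (a (l 16723416) (l 4)))))) (l 4)) (a (b (a (a (b (l 16722960) (b (l 16730480) (l 16739240))) (b (l 16843872) (l 16726360))) (b (b (a (l 16713984) (l 16710432)) (l 16916528)) (b (l 16706976) (l 16711208)))) (b (a (b (a (l 16744080) (l 16735432)) (l 16790104)) (b (a (l 16871432) (l 16899648)) (l 16975736))) (a (b (a (l 16757672) (l 16746984)) (a (l 16747648) (l 16742840))) (b (a (l 16736144) (l 16720904)) (a (l 16736240) (l 16722544)))))) (b (a (b (a (b (l 16706600) (l 16693640)) (b (l 4) (l 16685072))) (a (b (l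 16687288) (l 16686864)) (l 16754864))) (b (a (l 13119853191) (l 4)) (b (a (l 16658400) (l 16643912)) (l 16639336)))) (a (b (b (a (l 16692920) (l 16668664)) (a (l 16842448) (b (l 16672656) (l 16675536)))) (a (b (l 16702496) (l 16704960)) (b (l 16680672) (l 16686144)))) (b (b (l 16822720) (a (b (l 16645928) (l 16646008)) (b (l 16619000) (l 16619288)))) (b (a (l 16654248) (l 16624640)) (l 16714360))))))), by decide +kernel⟩

def k1_pm_101 : ∃ t, chk3 f_pm_101 t 3 1 1 = true :=
  ⟨(a (b (l 4) (b (b (l 4) (a (a (b (l 16631120) (l 16605976)) (b (l 4) (a (l 16588616) (l 16577264)))) (b (l 4) (a (l 16582176) (l 16539896))))) (a (b (a (b (l 16597056) (l 16597888)) (b (l 16568320) (l 16566984))) (b (a (l 16720024) (a (l 16577288) (l 16560456))) (a (l 16608784) (l 16661464)))) (b (a (b (l 16530672) (l 16518760)) (b (l 16492720) (l 16468320))) (b (a (l 16516312) (l 16478040)) (b (l 16483248) (l 16483912))))))) (b (l 1) (b (l 4) (a (b (b (a (l 82711120359) (l 16517608))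 (a (l 16416656) (l 16359760))) (b (a (l 16397104) (l 16330248)) (a (l 16373304) (a (l 16320896) (l 16287456))))) (b (b (l 1) (a (a (l 16358528) (l 1)) (l 1))) (b (a (a (l 16277912) (l 16276496)) (l 198137967847)) (a (l 16273928) (l 16272536)))))))), by decide +kernel⟩

theorem s2_pm_101 : ∃ t, chk3 f_pm_101 t 1 1 1 = true := ex3_a k0_pm_101 k1_pm_101

theorem c_pm_101 : CertB 536870912 536870912 536870912 536870912 536870912 50465866 3 eng mog cd1q1 cd1q1 pd0 false true false .npn 1 0 1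
    ndB1q1 ndB1q1 pcB0 Cut.none Ext.none :=
  certB2 (fam := false) (s1 := true) (s2 := false) (a := 1) (b := 0) (c := 1) (cn := .npn) (n1 := ndB1q1) (n2 := ndB1q1) (pc := pcB0) (cut := Cut.none) (xt := Ext.none) (P1 := 536870912) (W1 := 536870912) (P2 := 536870912) (W2 := 536870912) (P3 := 536870912) (W3 := 50465866) (N0 := 3) (En := eng) (mo := mog) (C1 := cd1q1) (C2 := cd1q1) (C3 := pd0)
    rfl (fun _ => rfl) s2_pm_101

noncomputable def f_pm_102_a : ℕ → ℕ → ℕ → ℕ → Bool := onCell 536870912 536870912 0 536870912 536870912 50465866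
    (rowB 3 eng mog cd1q1 cd1q2a pd0 0 false true false .npp 1 0 2 (qsf 536870912 536870912 0 536870912 0) ndB1q1 ndB1q2a pcB0 Cut.none Ext.none)

def k0_pm_102_a : ∃ t, chk3 f_pm_102_a t 2 1 1 = true :=
  ⟨(b (a (b (l 2) (a (l 2) (b (l 2) (l 16633632)))) (b (a (b (a (b (l 16773016) (l 16771824)) (b (a (l 16764192) (l 16756120)) (l 16771064))) (a (l 16748488) (l 16767704))) (b (a (a (b (l 16745720) (l 16761888)) (b (a (l 16736352) (l 87140726695)) (l 16753768))) (b (a (b (a (l 154249595559) (l 167134481015)) (a (l 16727280) (l 139754069239))) (b (l 3) (a (l 155323319815) (l 171429442391)))) (a (l 16742176) (b (a (l 16724088) (l 141901546583)) (l 16733952))))) (a (b (l 16769344) (l 16770928)) (b (a (l 16760840) (l 16752104)) (a (l 16770008) (l 16765888)))))) (a (b (a (l 16697416) (l 16757488)) (a (l 16661376) (l 16686488))) (a (b (l 16759808) (l 16788448)) (b (l 16769832) (l 16834000)))))) (a (a (b (l 2) (a (b (l 2) (b (l 16424448) (c (l 16432312) (l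 16431480)))) (b (b (l 16510576) (l 16490584)) (b (l 16482464) (b (l 16483144) (l 16486152)))))) (b (b (l 16610896) (b (l 16601096) (l 16595472))) (b (b (a (l 16558808) (l 16597400)) (a (l 16546400) (l 16588976))) (b (a (b (l 16542136) (l 16539400)) (l 16670016)) (a (b (l 16539736) (b (l 16540616) (l 16541808))) (l 16588608)))))) (b (b (a (a (l 16643392) (l 16663784)) (a (l 16684120) (l 16708728))) (a (b (l 16651008) (a (l 16641336) (l 16667408))) (b (l 16698408) (l 16897104)))) (b (a (a (b (l 16635680) (l 16630848)) (l 16667408)) (a (l 16783944) (b (l 16737672) (l 16743104)))) (a (a (b (l 16632152) (l 16641048)) (b (l 16673320) (l 16687264))) (a (b (l 16712240) (a (l 16717832) (b (l 16736440) (l 16744984)))) (b (a (l 16745328) (l 16757136)) (b (l 16797424) (l 16756608))))))))), by decide +kernel⟩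

def k1_pm_102_a : ∃ t, chk3 f_pm_102_a t 12 2 1 = true :=
  ⟨(b (b (a (b (l 3) (a (b (a (b (l 169281961527) (l 148343997863)) (l 170355697047)) (a (l 16721528) (b (l 152638973975) (l 16716744)))) (b (l 3) (a (b (l 169818829991) (l 154249586359)) (l 170355696695))))) (l 3)) (a (b (a (l 16739328) (b (a (l 16720408) (b (l 164987015399) (l 16716096))) (l 16731400))) (a (l 16758528) (b (l 16743784) (l 16752488)))) (b (a (b (a (b (l 3) (a (l 153712719255) (l 167671357079))) (l 3)) (a (b (l 147270266967) (l 16723608)) (b (a (l 154786461863) (l 166060745543)) (a (l 16717904) (l 151028362919))))) (b (l 3) (a (b (l 3) (a (l 155323333415) (l 156933941047))) (l 3)))) (a (b (l 16729936) (l 16740272)) (b (a (b (a (l 16717704) (l 154249597927)) (l 16722008)) (b (a (l 155323333879) (l 3)) (a (l 16716584) (l 155323337959)))) (a (l 16729936) (l 16722864))))))) (b (a (b (a (l 16767936) (l 16761800)) (l 16770280)) (b (a (l 16752216) (b (l 16735984) (l 16744416))) (a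 (l 16763376) (l 16754232)))) (a (b (l 16769672) (l 16762272)) (b (l 16767360) (l 16770856))))), by decide +kernel⟩

def k2_pm_102_a : ∃ t, chk3 f_pm_102_a t 13 2 1 = true :=
  ⟨(b (b (l 3) (a (b (l 3) (a (b (a (b (l 3) (l 156397071943)) (l 3)) (a (b (a (l 154786478583) (l 156933947895)) (l 16718408)) (b (l 156397069431) (a (l 154249596135) (l 158007686695))))) (l 3))) (l 3))) (b (a (b (a (b (a (l 16725752) (b (l 16721696) (l 16721200))) (l 16731272)) (b (a (b (a (l 161228914471) (l 158007683479)) (l 157470836551)) (b (l 3) (l 161228908167))) (a (l 16721072) (b (l 156397091991) (l 16716344))))) (a (b (l 16739088) (l 16745880)) (b (l 16725480) (l 16732816)))) (b (a (b (l 3) (a (b (l 161228903767) (l 151028363223)) (l 155860186615))) (l 3)) (a (b (a (l 16715088) (b (l 146733389623) (l 16709816))) (l 16718664)) (b (a (l 153712702039) (l 3)) (a (l 151565243335) (l 159081409239)))))) (a (b (a (l 16755080) (b (l 16739480) (l 16746472))) (l 16760976)) (b (a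 (b (l 16725736) (l 16732696)) (b (l 16710840) (l 16718080))) (a (l 16744128) (b (l 16725280) (l 16733648))))))), by decide +kernel⟩

def k3_pm_102_a : ∃ t, chk3 f_pm_102_a t 7 2 1 = true :=
  ⟨(a (b (l 3) (b (a (b (l 3) (a (b (l 3) (l 152638959959)) (l 3))) (l 3)) (a (b (a (b (a (l 144049038279) (l 153175812519)) (a (l 16706288) (l 16698464))) (b (l 3) (a (l 145659635943) (l 136532797223)))) (a (b (l 16709856) (l 16717208)) (b (a (l 16697576) (l 145659673895)) (a (l 16705392) (l 16697280))))) (b (l 3) (a (b (a (l 142438377479) (l 3)) (a (l 16689128) (l 148880866471))) (b (l 3) (a (l 178945603799) (l 3)))))))) (l 3)), by decide +kernel⟩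

def k4_pm_102_a : ∃ t, chk3 f_pm_102_a t 6 3 1 = true :=
  ⟨(b (a (b (a (l 16729704) (a (l 16798320) (b (l 16769232) (l 16748168)))) (a (b (l 16733672) (l 16748880)) (b (l 16745624) (l 16754792)))) (b (a (b (b (l 16768088) (l 16771000)) (l 16766848)) (b (l 16754064) (l 16789088))) (a (l 16749312) (b (l 16767048) (l 16751504))))) (b (a (a (b (a (l 16760768) (l 16787144)) (l 16887472)) (b (l 16763528) (l 16761480))) (b (a (l 16758248) (l 16753240)) (l 16757192))) (a (b (l 16761168) (a (l 16761224) (l 16764384))) (b (l 16780616) (a (l 16765696) (b (l 16763672) (l 16769408))))))), by decide +kernel⟩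

def k5_pm_102_a : ∃ t, chk3 f_pm_102_a t 14 6 1 = true :=
  ⟨(b (a (b (a (l 16733336) (b (l 16710992) (l 16723232))) (l 16748072)) (b (a (b (a (l 16699368) (l 16690616)) (a (l 16710664) (l 16702560))) (b (a (l 16716088) (l 189683013527)) (a (l 16694392) (l 16708640)))) (a (l 16724704) (b (a (l 16705920) (l 16697896)) (l 16714024))))) (a (b (a (l 16768472) (l 16760080)) (l 16767480)) (a (b (l 16768416) (l 16764824)) (b (l 16732104) (a (l 16756600) (l 16875400)))))), by decide +kernel⟩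

def k6_pm_102_a : ∃ t, chk3 f_pm_102_a t 15 6 1 = true :=
  ⟨(b (a (b (a (b (l 3) (a (l 160692074391) (b (l 3) (l 168208179111)))) (l 3)) (a (b (a (l 16710896) (b (l 174650702343) (l 16725728))) (a (l 16701200) (b (l 16691288) (l 16696152)))) (b (a (b (l 3) (l 174650655991)) (l 3)) (a (b (a (l 16689360) (l 168208209943)) (l 16691072)) (b (l 172503148663) (a (l 16699160) (l 174650637111))))))) (b (l 3) (a (l 3) (l 3)))) (a (b (a (b (a (l 16713312) (b (l 16701824) (l 16707928))) (l 16720904)) (b (a (b (l 16693928) (l 16699464)) (a (l 16713480) (b (l 16689584) (l 16692392)))) (a (l 16708456) (b (l 16697216) (l 16703112))))) (a (b (l 16732760) (l 16743312)) (b (l 16715920) (a (l 16731320) (l 16723272))))) (b (a (b (a (b (a (l 177871898871) (l 164986957303)) (a (l 16690496) (l 176798150647))) (b (l 3) (a (l 170892539143) (l 3)))) (b (a (l 16708080) (a (l 181093114279) (l 163376348087))) (a (l 16695696) (a (l 16692424) (l 16689992))))) (b (l 3) (a (b (l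 3) (a (l 177335024215) (l 155323280215))) (l 3)))) (a (b (a (b (l 16700736) (l 16706520)) (b (a (l 16695648) (l 16693144)) (l 16750784))) (l 16710968)) (b (a (b (a (l 16690760) (l 175187537879)) (a (l 16694080) (l 16691600))) (b (a (l 161228861863) (l 3)) (a (l 171966342231) (l 162839476247)))) (a (b (a (l 16698768) (l 16695176)) (l 16702176)) (b (a (l 16692440) (b (l 16688920) (l 16690720))) (a (l 16696712) (b (l 16692512) (l 16694520)))))))))), by decide +kernel⟩

def k7_pm_102_a : ∃ t, chk3 f_pm_102_a t 7 7 1 = true :=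
  ⟨(b (a (a (b (b (l 16753552) (l 16751608)) (l 16752136)) (b (a (l 16763464) (l 16766824)) (b (l 16755128) (l 16753328)))) (a (b (a (l 16757944) (b (l 16738016) (l 16748136))) (b (a (l 16766296) (l 16756744)) (l 16765648))) (b (a (b (a (l 16725640) (l 16780624)) (l 16731952)) (b (b (l 16703576) (a (l 16712416) (l 16704808))) (b (a (l 16717256) (l 16730584)) (a (l 16722152) (l 16714264))))) (a (b (b (l 16739096) (l 16743728)) (l 16750528)) (b (a (l 16729216) (l 16763144)) (b (l 16732040) (l 16736536))))))) (a (b (a (l 16757616) (l 16757344)) (a (l 16769784) (l 16770064))) (a (b (l 16756048) (l 16786352)) (b (a (l 16761144) (l 16746968)) (a (b (l 16757288) (l 16762792)) (b (l 16755600) (l 16760976))))))), by decide +kernel⟩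

theorem s8_pm_102_a : ∃ t, chk3 f_pm_102_a t 7 6 1 = true := ex3_a k5_pm_102_a k6_pm_102_a

theorem s9_pm_102_a : ∃ t, chk3 f_pm_102_a t 7 3 1 = true := ex3_b s8_pm_102_a k7_pm_102_a

theorem s10_pm_102_a : ∃ t, chk3 f_pm_102_a t 3 3 1 = true := ex3_a k4_pm_102_a s9_pm_102_a

theorem s11_pm_102_a : ∃ t, chk3 f_pm_102_a t 6 2 1 = true := ex3_a k1_pm_102_a k2_pm_102_a

theorem s12_pm_102_a : ∃ t, chk3 f_pm_102_a t 3 2 1 = true := ex3_a s11_pm_102_a k3_pm_102_a

theorem s13_pm_102_a : ∃ t, chk3 f_pm_102_a t 3 1 1 = true := ex3_b s12_pm_102_a s10_pm_102_a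

theorem s14_pm_102_a : ∃ t, chk3 f_pm_102_a t 1 1 1 = true := ex3_a k0_pm_102_a s13_pm_102_a

theorem c_pm_102_a : CertB 536870912 536870912 0 536870912 536870912 50465866 3 eng mog cd1q1 cd1q2a pd0 false true false .npp 1 0 2
    ndB1q1 ndB1q2a pcB0 Cut.none Ext.none :=
  certB0 (fam := false) (s1 := true) (s2 := false) (a := 1) (b := 0) (c := 2) (cn := .npp) (n1 := ndB1q1) (n2 := ndB1q2a) (pc := pcB0) (cut := Cut.none) (xt := Ext.none) (P1 := 536870912) (W1 := 536870912) (P2 := 0) (W2 := 536870912) (P3 := 536870912) (W3 := 50465866) (N0 := 3) (En := eng) (mo := mog) (C1 := cd1q1) (C2 := cd1q2a) (C3 := pd0)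
    rfl s14_pm_102_a

noncomputable def f_pm_102_b : ℕ → ℕ → ℕ → ℕ → Bool := onCell 0 536870912 1239849684 370763052 536870912 50465866
    (rowB 3 eng mog cd1q1 cd1q2b pd0 2 false true false .npp 1 0 2 (qsf 536870912 536870912 1239849684 370763052 0) ndB1q1 ndB1q2b pcB0 Cut.none Ext.none)

def k0_pm_102_b : ∃ t, chk3 f_pm_102_b t 1 1 1 = true :=
  ⟨(a (l 3) (a (b (l 3) (l 3)) (b (a (b (a (l 3) (b (a (l 3) (b (l 3) (l 3))) (l 3))) (l 3)) (b (a (b (a (b (a (l 159618314391) (l 16715736)) (l 167134459431)) (b (l 16727888) (l 86066980183))) (a (l 3) (l 166060698855))) (b (a (b (l 16740976) (l 16725896)) (l 16744672)) (a (l 95193777591) (l 16717776)))) (a (l 3) (b (a (l 3) (l 119889809207)) (l 3))))) (a (l 3) (l 3))))), by decide +kernel⟩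

theorem c_pm_102_b : CertB 536870912 536870912 1239849684 370763052 536870912 50465866 3 eng mog cd1q1 cd1q2b pd0 false true false .npp 1 0 2
    ndB1q1 ndB1q2b pcB0 Cut.none Ext.none :=
  certB2 (fam := false) (s1 := true) (s2 := false) (a := 1) (b := 0) (c := 2) (cn := .npp) (n1 := ndB1q1) (n2 := ndB1q2b) (pc := pcB0) (cut := Cut.none) (xt := Ext.none) (P1 := 536870912) (W1 := 536870912) (P2 := 1239849684) (W2 := 370763052) (P3 := 536870912) (W3 := 50465866) (N0 := 3) (En := eng) (mo := mog) (C1 := cd1q1) (C2 := cd1q2b) (C3 := pd0)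
    rfl (fun _ => rfl) k0_pm_102_b

noncomputable def f_pm_112_a : ℕ → ℕ → ℕ → ℕ → Bool := onCell 536870912 536870912 0 536870912 536870912 50465866
    (rowB 3 eng mog cd1q1 cd1q2a pd1 2 false true false .dn 1 1 2 (qsf 536870912 536870912 0 536870912 1) ndB1q1 ndB1q2a pcB1 Cut.none Ext.none)

def k0_pm_112_a : ∃ t, chk3 f_pm_112_a t 1 1 1 = true :=
  ⟨(a (a (b (a (b (a (b (b (l 16772640) (l 16767704)) (l 16742184)) (b (l 16758624) (l 16713872))) (b (a (l 16702560) (l 16647208)) (l 16632232))) (b (b (l 16785384) (a (l 16683384) (l 16659192))) (b (l 16654576) (l 16537864)))) (b (a (b (l 16582112) (a (b (l 16602048) (l 16584184)) (l 16496544))) (b (l 16488104) (a (l 16412472) (l 16431240)))) (a (b (a (l 16494736) (l 16433936)) (a (b (l 16421560) (l 16387424)) (l 16441584))) (b (l 248067426775) (l 1))))) (b (a (b (a (b (l 16689624) (l 16643344)) (b (l 1) (l 1))) (a (l 141230499095) (l 1))) (l 1)) (b (l 1) (l 1)))) (l 1)), by decide +kernel⟩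

theorem c_pm_112_a : CertB 536870912 536870912 0 536870912 536870912 50465866 3 eng mog cd1q1 cd1q2a pd1 false true false .dn 1 1 2
    ndB1q1 ndB1q2a pcB1 Cut.none Ext.none :=
  certB2 (fam := false) (s1 := true) (s2 := false) (a := 1) (b := 1) (c := 2) (cn := .dn) (n1 := ndB1q1) (n2 := ndB1q2a) (pc := pcB1) (cut := Cut.none) (xt := Ext.none) (P1 := 536870912) (W1 := 536870912) (P2 := 0) (W2 := 536870912) (P3 := 536870912) (W3 := 50465866) (N0 := 3) (En := eng) (mo := mog) (C1 := cd1q1) (C2 := cd1q2a) (C3 := pd1)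
    rfl (fun _ => rfl) k0_pm_112_a

noncomputable def f_pm_112_b : ℕ → ℕ → ℕ → ℕ → Bool := onCell 536870912 536870912 536870912 536870912 536870912 50465866
    (rowB 3 eng mog cd1q1 cd1q2b pd1 1 false true false .dn 1 1 2 (qsf 536870912 536870912 1239849684 370763052 1) ndB1q1 ndB1q2b pcB1 Cut.none Ext.none)

def k0_pm_112_b : ∃ t, chk3 f_pm_112_b t 1 1 1 = true :=
  ⟨(b (b (a (a (b (a (l 1) (b (l 248068213991) (a (l 16767072) (l 16770048)))) (a (b (l 139083330359) (l 91301567959)) (b (l 16763088) (l 16761848)))) (b (a (b (a (l 16771640) (l 16761664)) (l 16771344)) (b (a (l 16746160) (l 16727312)) (l 16753784))) (a (b (l 16779920) (l 16792752)) (b (l 16778952) (l 16812128))))) (a (b (a (b (a (l 69423985527) (l 3)) (l 87140808663)) (l 3)) (a (b (l 89825197047) (l 16812904)) (b (l 3) (a (l 16799968) (l 3))))) (l 3))) (a (a (b (a (b (l 16718200) (l 16710752)) (b (l 16761416) (l 16762240))) (a (l 16699200) (l 16769632))) (b (a (l 16820128) (b (l 16853384)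 (l 16906152))) (a (l 16871888) (l 16996592)))) (a (b (a (b (l 16881864) (l 16970176)) (b (l 123111169319) (l 16924656))) (a (b (l 17071784) (l 17170728)) (b (l 16989328) (l 2)))) (b (a (l 3) (l 2)) (l 2))))) (b (a (a (b (a (l 16682880) (l 16786616)) (a (l 16665208) (l 16810704))) (b (l 17037520) (l 17019864))) (a (b (a (l 17173744) (l 2)) (l 2)) (l 2))) (a (a (b (l 16728696) (l 16725552)) (b (l 16988784) (l 2))) (l 2)))), by decide +kernel⟩

theorem c_pm_112_b : CertB 536870912 536870912 1239849684 370763052 536870912 50465866 3 eng mog cd1q1 cd1q2b pd1 false true false .dn 1 1 2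
    ndB1q1 ndB1q2b pcB1 Cut.none Ext.none :=
  certB1 (fam := false) (s1 := true) (s2 := false) (a := 1) (b := 1) (c := 2) (cn := .dn) (n1 := ndB1q1) (n2 := ndB1q2b) (pc := pcB1) (cut := Cut.none) (xt := Ext.none) (P1 := 536870912) (W1 := 536870912) (P2 := 1239849684) (W2 := 370763052) (P3 := 536870912) (W3 := 50465866) (N0 := 3) (En := eng) (mo := mog) (C1 := cd1q1) (C2 := cd1q2b) (C3 := pd1)
    rfl (fun _ => rfl) k0_pm_112_b

noncomputable def f_pm_113 : ℕ → ℕ → ℕ → ℕ → Bool := onCell 536870912 536870912 536870912 536870912 536870912 50465866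
    (rowB 3 eng mog cd1q1 cd1q3 pd1 1 false true false .nn 1 1 3 (qsf 536870912 536870912 1610612736 536870912 1) ndB1q1 ndB1q3 pcB1 Cut.none Ext.none)

def k0_pm_113 : ∃ t, chk3 f_pm_113 t 1 1 1 = true :=
  ⟨(b (b (a (l 1) (a (a (l 1) (a (l 1) (l 3))) (l 3))) (a (b (l 1) (a (l 1) (l 161631936839))) (a (b (a (b (l 1) (l 16972704)) (b (l 128479927463) (l 16935168))) (a (b (l 17074480) (l 17182856)) (b (l 17000848) (l 17050136)))) (a (b (l 3) (a (l 210084293847) (l 275582851047))) (l 3))))) (b (a (a (b (l 1) (l 114923904823)) (b (l 17033944) (l 17008864))) (a (b (a (l 17159928) (b (l 17084912) (l 17110232))) (a (l 17078960) (l 17304320))) (b (a (b (l 132238091607) (l 16990200)) (a (b (l 3) (l 16927464)) (l 3))) (a (b (l 17003952) (l 17010256)) (a (b (l 16931712) (l 16935048)) (b (l 316921904663) (l 16896200))))))) (a (a (b (l 16720552) (l 16711896)) (b (l 16978192) (l 17120064))) (a (b (l 17016896) (l 16962224)) (b (b (a (l 17007600) (a (l 16929648)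 (l 16889376))) (a (l 16962464) (l 17016888))) (a (l 16904856) (a (l 16863728) (l 17062248)))))))), by decide +kernel⟩

theorem c_pm_113 : CertB 536870912 536870912 1610612736 536870912 536870912 50465866 3 eng mog cd1q1 cd1q3 pd1 false true false .nn 1 1 3
    ndB1q1 ndB1q3 pcB1 Cut.none Ext.none :=
  certB1 (fam := false) (s1 := true) (s2 := false) (a := 1) (b := 1) (c := 3) (cn := .nn) (n1 := ndB1q1) (n2 := ndB1q3) (pc := pcB1) (cut := Cut.none) (xt := Ext.none) (P1 := 536870912) (W1 := 536870912) (P2 := 1610612736) (W2 := 536870912) (P3 := 536870912) (W3 := 50465866) (N0 := 3) (En := eng) (mo := mog) (C1 := cd1q1) (C2 := cd1q3) (C3 := pd1)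
    rfl (fun _ => rfl) k0_pm_113

noncomputable def f_pm_123 : ℕ → ℕ → ℕ → ℕ → Bool := onCell 536870912 536870912 1073741824 536870912 536870912 50465866
    (rowB 3 eng mog cd1q1 cd1q3 pd2 1 false true false .npn 1 2 3 (qsf 536870912 536870912 1610612736 536870912 2) ndB1q1 ndB1q3 pcB2 Cut.none Ext.none)

def k0_pm_123 : ∃ t, chk3 f_pm_123 t 1 1 1 = true :=
  ⟨(a (b (b (a (a (l 16628056) (l 16772360)) (a (l 16855184) (l 16885536))) (a (b (l 16708336) (l 16717584)) (b (l 16794512) (l 16766088)))) (b (a (l 16731904) (l 16698448)) (a (b (l 16743336) (l 16750584)) (a (b (l 16743648) (l 2)) (l 2))))) (b (b (a (l 16856160) (b (l 16799200) (l 292695693239))) (a (b (a (l 16771840) (l 16734856)) (l 16679560)) (a (b (l 235250397719) (l 2)) (l 2)))) (a (b (a (b (l 16727376) (l 2)) (l 2)) (l 2)) (l 2)))), by decide +kernel⟩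

theorem c_pm_123 : CertB 536870912 536870912 1610612736 536870912 536870912 50465866 3 eng mog cd1q1 cd1q3 pd2 false true false .npn 1 2 3
    ndB1q1 ndB1q3 pcB2 Cut.none Ext.none :=
  certB1 (fam := false) (s1 := true) (s2 := false) (a := 1) (b := 2) (c := 3) (cn := .npn) (n1 := ndB1q1) (n2 := ndB1q3) (pc := pcB2) (cut := Cut.none) (xt := Ext.none) (P1 := 536870912) (W1 := 536870912) (P2 := 1610612736) (W2 := 536870912) (P3 := 536870912) (W3 := 50465866) (N0 := 3) (En := eng) (mo := mog) (C1 := cd1q1) (C2 := cd1q3) (C3 := pd2)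
    rfl (fun _ => rfl) k0_pm_123

noncomputable def f_pm_133 : ℕ → ℕ → ℕ → ℕ → Bool := onCell 1610612736 536870912 1610612736 536870912 536870912 50465866
    (rowB 3 eng mog cd1q1 cd1q3 pd3 2 false true false .dn 1 3 3 (qsf 536870912 536870912 1610612736 536870912 3) ndB1q1 ndB1q3 pcB3 Cut.none Ext.none)

def k0_pm_133 : ∃ t, chk3 f_pm_133 t 1 1 1 = true :=
  ⟨(a (b (l 1) (a (a (l 285112384455) (l 1)) (l 1))) (l 1)), by decide +kernel⟩

theorem c_pm_133 : CertB 536870912 536870912 1610612736 536870912 536870912 50465866 3 eng mog cd1q1 cd1q3 pd3 false true false .dn 1 3 3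
    ndB1q1 ndB1q3 pcB3 Cut.none Ext.none :=
  certB2 (fam := false) (s1 := true) (s2 := false) (a := 1) (b := 3) (c := 3) (cn := .dn) (n1 := ndB1q1) (n2 := ndB1q3) (pc := pcB3) (cut := Cut.none) (xt := Ext.none) (P1 := 536870912) (W1 := 536870912) (P2 := 1610612736) (W2 := 536870912) (P3 := 536870912) (W3 := 50465866) (N0 := 3) (En := eng) (mo := mog) (C1 := cd1q1) (C2 := cd1q3) (C3 := pd3)
    rfl (fun _ => rfl) k0_pm_133

noncomputable def cut_pm_202_aa : Cut := Cut.of [[⟨0, 1, 0, 67108864⟩, ⟨1, 0, 0, 67108864⟩, ⟨2, 1, 0, 67108864⟩]]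

noncomputable def f_pm_202_aa : ℕ → ℕ → ℕ → ℕ → Bool := onCell 0 536870912 0 536870912 536870912 50465866
    (rowB 3 eng mog cd1q2a cd1q2a pd0 0 false true false .pp 2 0 2 (qsf 0 536870912 0 536870912 0) ndB1q2a ndB1q2a pcB0 cut_pm_202_aa Ext.none)

def k0_pm_202_aa : ∃ t, chk3 f_pm_202_aa t 1 1 1 = true :=
  ⟨(a (l 3) (b (l 3) (a (l 3) (b (l 3) (b (l 3) (a (l 3) (l 6))))))), by decide +kernel⟩

theorem c_pm_202_aa : CertB 0 536870912 0 536870912 536870912 50465866 3 eng mog cd1q2a cd1q2a pd0 false true false .pp 2 0 2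
    ndB1q2a ndB1q2a pcB0 cut_pm_202_aa Ext.none :=
  certB0 (fam := false) (s1 := true) (s2 := false) (a := 2) (b := 0) (c := 2) (cn := .pp) (n1 := ndB1q2a) (n2 := ndB1q2a) (pc := pcB0) (cut := cut_pm_202_aa) (xt := Ext.none) (P1 := 0) (W1 := 536870912) (P2 := 0) (W2 := 536870912) (P3 := 536870912) (W3 := 50465866) (N0 := 3) (En := eng) (mo := mog) (C1 := cd1q2a) (C2 := cd1q2a) (C3 := pd0)
    rfl k0_pm_202_aa

noncomputable def cut_pm_202_ab : Cut := Cut.of [[⟨0, 1, 0, 67108864⟩, ⟨1, 0, 0, 67108864⟩, ⟨2, 1, 0, 67108864⟩]]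

noncomputable def f_pm_202_ab : ℕ → ℕ → ℕ → ℕ → Bool := onCell 0 536870912 1239849684 370763052 536870912 50465866
    (rowB 3 eng mog cd1q2a cd1q2b pd0 0 false true false .pp 2 0 2 (qsf 0 536870912 1239849684 370763052 0) ndB1q2a ndB1q2b pcB0 cut_pm_202_ab Ext.none)

def k0_pm_202_ab : ∃ t, chk3 f_pm_202_ab t 1 1 1 = true :=
  ⟨(l 3), by decide +kernel⟩

theorem c_pm_202_ab : CertB 0 536870912 1239849684 370763052 536870912 50465866 3 eng mog cd1q2a cd1q2b pd0 false true false .pp 2 0 2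
    ndB1q2a ndB1q2b pcB0 cut_pm_202_ab Ext.none :=
  certB0 (fam := false) (s1 := true) (s2 := false) (a := 2) (b := 0) (c := 2) (cn := .pp) (n1 := ndB1q2a) (n2 := ndB1q2b) (pc := pcB0) (cut := cut_pm_202_ab) (xt := Ext.none) (P1 := 0) (W1 := 536870912) (P2 := 1239849684) (W2 := 370763052) (P3 := 536870912) (W3 := 50465866) (N0 := 3) (En := eng) (mo := mog) (C1 := cd1q2a) (C2 := cd1q2b) (C3 := pd0)
    rfl k0_pm_202_ab

noncomputable def cut_pm_202_ba : Cut := Cut.of [[⟨0, 1, 0, 67108864⟩, ⟨1, 0, 0, 67108864⟩, ⟨2, 1, 0, 67108864⟩]]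

noncomputable def f_pm_202_ba : ℕ → ℕ → ℕ → ℕ → Bool := onCell 1239849684 370763052 0 536870912 536870912 50465866
    (rowB 3 eng mog cd1q2b cd1q2a pd0 0 false true false .pp 2 0 2 (qsf 1239849684 370763052 0 536870912 0) ndB1q2b ndB1q2a pcB0 cut_pm_202_ba Ext.none)

def k0_pm_202_ba : ∃ t, chk3 f_pm_202_ba t 1 1 1 = true :=
  ⟨(l 3), by decide +kernel⟩

theorem c_pm_202_ba : CertB 1239849684 370763052 0 536870912 536870912 50465866 3 eng mog cd1q2b cd1q2a pd0 false true false .pp 2 0 2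
    ndB1q2b ndB1q2a pcB0 cut_pm_202_ba Ext.none :=
  certB0 (fam := false) (s1 := true) (s2 := false) (a := 2) (b := 0) (c := 2) (cn := .pp) (n1 := ndB1q2b) (n2 := ndB1q2a) (pc := pcB0) (cut := cut_pm_202_ba) (xt := Ext.none) (P1 := 1239849684) (W1 := 370763052) (P2 := 0) (W2 := 536870912) (P3 := 536870912) (W3 := 50465866) (N0 := 3) (En := eng) (mo := mog) (C1 := cd1q2b) (C2 := cd1q2a) (C3 := pd0)
    rfl k0_pm_202_ba

noncomputable def cut_pm_202_bb : Cut := Cut.of [[⟨0, 1, 0, 67108864⟩, ⟨1, 0, 0, 67108864⟩, ⟨2, 1, 0, 67108864⟩]]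

noncomputable def f_pm_202_bb : ℕ → ℕ → ℕ → ℕ → Bool := onCell 1239849684 370763052 1239849684 370763052 536870912 50465866
    (rowB 3 eng mog cd1q2b cd1q2b pd0 0 false true false .pp 2 0 2 (qsf 1239849684 370763052 1239849684 370763052 0) ndB1q2b ndB1q2b pcB0 cut_pm_202_bb Ext.none)

def k0_pm_202_bb : ∃ t, chk3 f_pm_202_bb t 1 1 1 = true :=
  ⟨(l 3), by decide +kernel⟩

theorem c_pm_202_bb : CertB 1239849684 370763052 1239849684 370763052 536870912 50465866 3 eng mog cd1q2b cd1q2b pd0 false true false .pp 2 0 2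
    ndB1q2b ndB1q2b pcB0 cut_pm_202_bb Ext.none :=
  certB0 (fam := false) (s1 := true) (s2 := false) (a := 2) (b := 0) (c := 2) (cn := .pp) (n1 := ndB1q2b) (n2 := ndB1q2b) (pc := pcB0) (cut := cut_pm_202_bb) (xt := Ext.none) (P1 := 1239849684) (W1 := 370763052) (P2 := 1239849684) (W2 := 370763052) (P3 := 536870912) (W3 := 50465866) (N0 := 3) (En := eng) (mo := mog) (C1 := cd1q2b) (C2 := cd1q2b) (C3 := pd0)
    rfl k0_pm_202_bb

noncomputable def f_pm_203_a : ℕ → ℕ → ℕ → ℕ → Bool := onCell 0 536870912 0 536870912 536870912 50465866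
    (rowB 3 eng mog cd1q2a cd1q3 pd0 1 false true false .up 2 0 3 (qsf 0 536870912 1610612736 536870912 0) ndB1q2a ndB1q3 pcB0 Cut.none Ext.none)

def k0_pm_203_a : ∃ t, chk3 f_pm_203_a t 1 1 1 = true :=
  ⟨(l 3), by decide +kernel⟩

theorem c_pm_203_a : CertB 0 536870912 1610612736 536870912 536870912 50465866 3 eng mog cd1q2a cd1q3 pd0 false true false .up 2 0 3
    ndB1q2a ndB1q3 pcB0 Cut.none Ext.none :=
  certB1 (fam := false) (s1 := true) (s2 := false) (a := 2) (b := 0) (c := 3) (cn := .up) (n1 := ndB1q2a) (n2 := ndB1q3) (pc := pcB0) (cut := Cut.none) (xt := Ext.none) (P1 := 0) (W1 := 536870912) (P2 := 1610612736) (W2 := 536870912) (P3 := 536870912) (W3 := 50465866) (N0 := 3) (En := eng) (mo := mog) (C1 := cd1q2a) (C2 := cd1q3) (C3 := pd0)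
    rfl (fun _ => rfl) k0_pm_203_a

noncomputable def f_pm_203_b : ℕ → ℕ → ℕ → ℕ → Bool := onCell 1239849684 370763052 1610612736 536870912 536870912 50465866
    (rowB 3 eng mog cd1q2b cd1q3 pd0 0 false true false .up 2 0 3 (qsf 1239849684 370763052 1610612736 536870912 0) ndB1q2b ndB1q3 pcB0 Cut.none Ext.none)

def k0_pm_203_b : ∃ t, chk3 f_pm_203_b t 1 1 1 = true :=
  ⟨(l 3), by decide +kernel⟩

theorem c_pm_203_b : CertB 1239849684 370763052 1610612736 536870912 536870912 50465866 3 eng mog cd1q2b cd1q3 pd0 false true false .up 2 0 3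
    ndB1q2b ndB1q3 pcB0 Cut.none Ext.none :=
  certB0 (fam := false) (s1 := true) (s2 := false) (a := 2) (b := 0) (c := 3) (cn := .up) (n1 := ndB1q2b) (n2 := ndB1q3) (pc := pcB0) (cut := Cut.none) (xt := Ext.none) (P1 := 1239849684) (W1 := 370763052) (P2 := 1610612736) (W2 := 536870912) (P3 := 536870912) (W3 := 50465866) (N0 := 3) (En := eng) (mo := mog) (C1 := cd1q2b) (C2 := cd1q3) (C3 := pd0)
    rfl k0_pm_203_b

noncomputable def cut_pm_213_a : Cut := Cut.of [[⟨0, 1, 0, 67108864⟩, ⟨1, 1, 0, 67108864⟩, ⟨2, 2, 0, 16777216⟩]]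

noncomputable def f_pm_213_a : ℕ → ℕ → ℕ → ℕ → Bool := onCell 0 536870912 1610612736 536870912 536870912 50465866
    (rowB 3 eng mog cd1q2a cd1q3 pd1 0 false true false .pnn 2 1 3 (qsf 0 536870912 1610612736 536870912 1) ndB1q2a ndB1q3 pcB1 cut_pm_213_a Ext.none)

def k0_pm_213_a : ∃ t, chk3 f_pm_213_a t 1 1 1 = true :=
  ⟨(b (l 3) (a (l 3) (b (l 3) (a (l 3) (b (l 3) (a (l 3) (a (l 3) (b (l 3) (b (l 3) (b (l 3) (l 6))))))))))), by decide +kernel⟩

theorem c_pm_213_a : CertB 0 536870912 1610612736 536870912 536870912 50465866 3 eng mog cd1q2a cd1q3 pd1 false true false .pnn 2 1 3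
    ndB1q2a ndB1q3 pcB1 cut_pm_213_a Ext.none :=
  certB0 (fam := false) (s1 := true) (s2 := false) (a := 2) (b := 1) (c := 3) (cn := .pnn) (n1 := ndB1q2a) (n2 := ndB1q3) (pc := pcB1) (cut := cut_pm_213_a) (xt := Ext.none) (P1 := 0) (W1 := 536870912) (P2 := 1610612736) (W2 := 536870912) (P3 := 536870912) (W3 := 50465866) (N0 := 3) (En := eng) (mo := mog) (C1 := cd1q2a) (C2 := cd1q3) (C3 := pd1)
    rfl k0_pm_213_a

noncomputable def cut_pm_213_b : Cut := Cut.of [[⟨0, 1, 0, 67108864⟩, ⟨1, 1, 0, 67108864⟩, ⟨2, 2, 0, 16777216⟩]]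

noncomputable def f_pm_213_b : ℕ → ℕ → ℕ → ℕ → Bool := onCell 1239849684 370763052 1610612736 536870912 536870912 50465866
    (rowB 3 eng mog cd1q2b cd1q3 pd1 0 false true false .pnn 2 1 3 (qsf 1239849684 370763052 1610612736 536870912 1) ndB1q2b ndB1q3 pcB1 cut_pm_213_b Ext.none)

def k0_pm_213_b : ∃ t, chk3 f_pm_213_b t 1 1 1 = true :=
  ⟨(l 3), by decide +kernel⟩

theorem c_pm_213_b : CertB 1239849684 370763052 1610612736 536870912 536870912 50465866 3 eng mog cd1q2b cd1q3 pd1 false true false .pnn 2 1 3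
    ndB1q2b ndB1q3 pcB1 cut_pm_213_b Ext.none :=
  certB0 (fam := false) (s1 := true) (s2 := false) (a := 2) (b := 1) (c := 3) (cn := .pnn) (n1 := ndB1q2b) (n2 := ndB1q3) (pc := pcB1) (cut := cut_pm_213_b) (xt := Ext.none) (P1 := 1239849684) (W1 := 370763052) (P2 := 1610612736) (W2 := 536870912) (P3 := 536870912) (W3 := 50465866) (N0 := 3) (En := eng) (mo := mog) (C1 := cd1q2b) (C2 := cd1q3) (C3 := pd1)
    rfl k0_pm_213_b

noncomputable def f_pm_303 : ℕ → ℕ → ℕ → ℕ → Bool := onCell 1610612736 536870912 1610612736 536870912 536870912 50465866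
    (rowB 3 eng mog cd1q3 cd1q3 pd0 0 false true false .npn 3 0 3 (qsf 1610612736 536870912 1610612736 536870912 0) ndB1q3 ndB1q3 pcB0 Cut.none Ext.none)

def k0_pm_303 : ∃ t, chk3 f_pm_303 t 1 1 1 = true :=
  ⟨(l 3), by decide +kernel⟩

theorem c_pm_303 : CertB 1610612736 536870912 1610612736 536870912 536870912 50465866 3 eng mog cd1q3 cd1q3 pd0 false true false .npn 3 0 3
    ndB1q3 ndB1q3 pcB0 Cut.none Ext.none :=
  certB0 (fam := false) (s1 := true) (s2 := false) (a := 3) (b := 0) (c := 3) (cn := .npn) (n1 := ndB1q3) (n2 := ndB1q3) (pc := pcB0) (cut := Cut.none) (xt := Ext.none) (P1 := 1610612736) (W1 := 536870912) (P2 := 1610612736) (W2 := 536870912) (P3 := 536870912) (W3 := 50465866) (N0 := 3) (En := eng) (mo := mog) (C1 := cd1q3) (C2 := cd1q3) (C3 := pd0)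
    rfl k0_pm_303

noncomputable def f_pm_313 : ℕ → ℕ → ℕ → ℕ → Bool := onCell 1610612736 536870912 1610612736 536870912 536870912 50465866
    (rowB 3 eng mog cd1q3 cd1q3 pd1 0 false true false .dn 3 1 3 (qsf 1610612736 536870912 1610612736 536870912 1) ndB1q3 ndB1q3 pcB1 Cut.none Ext.none)

def k0_pm_313 : ∃ t, chk3 f_pm_313 t 1 1 1 = true :=
  ⟨(l 3), by decide +kernel⟩

theorem c_pm_313 : CertB 1610612736 536870912 1610612736 536870912 536870912 50465866 3 eng mog cd1q3 cd1q3 pd1 false true false .dn 3 1 3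
    ndB1q3 ndB1q3 pcB1 Cut.none Ext.none :=
  certB0 (fam := false) (s1 := true) (s2 := false) (a := 3) (b := 1) (c := 3) (cn := .dn) (n1 := ndB1q3) (n2 := ndB1q3) (pc := pcB1) (cut := Cut.none) (xt := Ext.none) (P1 := 1610612736) (W1 := 536870912) (P2 := 1610612736) (W2 := 536870912) (P3 := 536870912) (W3 := 50465866) (N0 := 3) (En := eng) (mo := mog) (C1 := cd1q3) (C2 := cd1q3) (C3 := pd1)
    rfl k0_pm_313

noncomputable def f_mm_001 : ℕ → ℕ → ℕ → ℕ → Bool := onCell 0 536870912 0 536870912 536870912 50465866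
    (rowB 3 eng mog cd1q0 cd1q1 pd0 1 false false false .up 0 0 1 (qsf 0 536870912 536870912 536870912 0) ndB1q0 ndB1q1 pcB0 Cut.none Ext.none)

def k0_mm_001 : ∃ t, chk3 f_mm_001 t 1 1 1 = true :=
  ⟨(l 3), by decide +kernel⟩

theorem c_mm_001 : CertB 0 536870912 536870912 536870912 536870912 50465866 3 eng mog cd1q0 cd1q1 pd0 false false false .up 0 0 1
    ndB1q0 ndB1q1 pcB0 Cut.none Ext.none :=
  certB1 (fam := false) (s1 := false) (s2 := false) (a := 0) (b := 0) (c := 1) (cn := .up) (n1 := ndB1q0) (n2 := ndB1q1) (pc := pcB0) (cut := Cut.none) (xt := Ext.none) (P1 := 0) (W1 := 536870912) (P2 := 536870912) (W2 := 536870912) (P3 := 536870912) (W3 := 50465866) (N0 := 3) (En := eng) (mo := mog) (C1 := cd1q0) (C2 := cd1q1) (C3 := pd0)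
    rfl (fun _ => rfl) k0_mm_001

noncomputable def f_mm_011 : ℕ → ℕ → ℕ → ℕ → Bool := onCell 0 536870912 536870912 536870912 536870912 50465866
    (rowB 3 eng mog cd1q0 cd1q1 pd1 1 false false false .pnn 0 1 1 (qsf 0 536870912 536870912 536870912 1) ndB1q0 ndB1q1 pcB1 Cut.none Ext.none)

def k0_mm_011 : ∃ t, chk3 f_mm_011 t 1 1 1 = true :=
  ⟨(l 5), by decide +kernel⟩

theorem c_mm_011 : CertB 0 536870912 536870912 536870912 536870912 50465866 3 eng mog cd1q0 cd1q1 pd1 false false false .pnn 0 1 1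
    ndB1q0 ndB1q1 pcB1 Cut.none Ext.none :=
  certB1 (fam := false) (s1 := false) (s2 := false) (a := 0) (b := 1) (c := 1) (cn := .pnn) (n1 := ndB1q0) (n2 := ndB1q1) (pc := pcB1) (cut := Cut.none) (xt := Ext.none) (P1 := 0) (W1 := 536870912) (P2 := 536870912) (W2 := 536870912) (P3 := 536870912) (W3 := 50465866) (N0 := 3) (En := eng) (mo := mog) (C1 := cd1q0) (C2 := cd1q1) (C3 := pd1)
    rfl (fun _ => rfl) k0_mm_011

noncomputable def f_mm_012_a : ℕ → ℕ → ℕ → ℕ → Bool := onCell 0 536870912 0 536870912 536870912 50465866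
    (rowB 3 eng mog cd1q0 cd1q2a pd1 0 false false false .pnp 0 1 2 (qsf 0 536870912 0 536870912 1) ndB1q0 ndB1q2a pcB1 Cut.none Ext.none)

def k0_mm_012_a : ∃ t, chk3 f_mm_012_a t 1 1 1 = true :=
  ⟨(l 5), by decide +kernel⟩

theorem c_mm_012_a : CertB 0 536870912 0 536870912 536870912 50465866 3 eng mog cd1q0 cd1q2a pd1 false false false .pnp 0 1 2
    ndB1q0 ndB1q2a pcB1 Cut.none Ext.none :=
  certB0 (fam := false) (s1 := false) (s2 := false) (a := 0) (b := 1) (c := 2) (cn := .pnp) (n1 := ndB1q0) (n2 := ndB1q2a) (pc := pcB1) (cut := Cut.none) (xt := Ext.none) (P1 := 0) (W1 := 536870912) (P2 := 0) (W2 := 536870912) (P3 := 536870912) (W3 := 50465866) (N0 := 3) (En := eng) (mo := mog) (C1 := cd1q0) (C2 := cd1q2a) (C3 := pd1)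
    rfl k0_mm_012_a

noncomputable def f_mm_012_b : ℕ → ℕ → ℕ → ℕ → Bool := onCell 0 536870912 1239849684 370763052 536870912 50465866
    (rowB 3 eng mog cd1q0 cd1q2b pd1 0 false false false .pnp 0 1 2 (qsf 0 536870912 1239849684 370763052 1) ndB1q0 ndB1q2b pcB1 Cut.none Ext.none)

def k0_mm_012_b : ∃ t, chk3 f_mm_012_b t 1 1 1 = true :=
  ⟨(l 5), by decide +kernel⟩

theorem c_mm_012_b : CertB 0 536870912 1239849684 370763052 536870912 50465866 3 eng mog cd1q0 cd1q2b pd1 false false false .pnp 0 1 2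
    ndB1q0 ndB1q2b pcB1 Cut.none Ext.none :=
  certB0 (fam := false) (s1 := false) (s2 := false) (a := 0) (b := 1) (c := 2) (cn := .pnp) (n1 := ndB1q0) (n2 := ndB1q2b) (pc := pcB1) (cut := Cut.none) (xt := Ext.none) (P1 := 0) (W1 := 536870912) (P2 := 1239849684) (W2 := 370763052) (P3 := 536870912) (W3 := 50465866) (N0 := 3) (En := eng) (mo := mog) (C1 := cd1q0) (C2 := cd1q2b) (C3 := pd1)
    rfl k0_mm_012_b

noncomputable def f_mm_022_a : ℕ → ℕ → ℕ → ℕ → Bool := onCell 0 536870912 0 536870912 536870912 50465866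
    (rowB 3 eng mog cd1q0 cd1q2a pd2 0 false false false .pp 0 2 2 (qsf 0 536870912 0 536870912 2) ndB1q0 ndB1q2a pcB2 Cut.none Ext.none)

def k0_mm_022_a : ∃ t, chk3 f_mm_022_a t 1 1 1 = true :=
  ⟨(l 5), by decide +kernel⟩

theorem c_mm_022_a : CertB 0 536870912 0 536870912 536870912 50465866 3 eng mog cd1q0 cd1q2a pd2 false false false .pp 0 2 2
    ndB1q0 ndB1q2a pcB2 Cut.none Ext.none :=
  certB0 (fam := false) (s1 := false) (s2 := false) (a := 0) (b := 2) (c := 2) (cn := .pp) (n1 := ndB1q0) (n2 := ndB1q2a) (pc := pcB2) (cut := Cut.none) (xt := Ext.none) (P1 := 0) (W1 := 536870912) (P2 := 0) (W2 := 536870912) (P3 := 536870912) (W3 := 50465866) (N0 := 3) (En := eng) (mo := mog) (C1 := cd1q0) (C2 := cd1q2a) (C3 := pd2)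
    rfl k0_mm_022_a

noncomputable def f_mm_022_b : ℕ → ℕ → ℕ → ℕ → Bool := onCell 0 536870912 1239849684 370763052 536870912 50465866
    (rowB 3 eng mog cd1q0 cd1q2b pd2 0 false false false .pp 0 2 2 (qsf 0 536870912 1239849684 370763052 2) ndB1q0 ndB1q2b pcB2 Cut.none Ext.none)

def k0_mm_022_b : ∃ t, chk3 f_mm_022_b t 1 1 1 = true :=
  ⟨(l 5), by decide +kernel⟩

theorem c_mm_022_b : CertB 0 536870912 1239849684 370763052 536870912 50465866 3 eng mog cd1q0 cd1q2b pd2 false false false .pp 0 2 2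
    ndB1q0 ndB1q2b pcB2 Cut.none Ext.none :=
  certB0 (fam := false) (s1 := false) (s2 := false) (a := 0) (b := 2) (c := 2) (cn := .pp) (n1 := ndB1q0) (n2 := ndB1q2b) (pc := pcB2) (cut := Cut.none) (xt := Ext.none) (P1 := 0) (W1 := 536870912) (P2 := 1239849684) (W2 := 370763052) (P3 := 536870912) (W3 := 50465866) (N0 := 3) (En := eng) (mo := mog) (C1 := cd1q0) (C2 := cd1q2b) (C3 := pd2)
    rfl k0_mm_022_b

noncomputable def f_mm_023 : ℕ → ℕ → ℕ → ℕ → Bool := onCell 0 536870912 1610612736 536870912 536870912 50465866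
    (rowB 3 eng mog cd1q0 cd1q3 pd2 0 false false false .up 0 2 3 (qsf 0 536870912 1610612736 536870912 2) ndB1q0 ndB1q3 pcB2 Cut.none Ext.none)

def k0_mm_023 : ∃ t, chk3 f_mm_023 t 1 1 1 = true :=
  ⟨(l 5), by decide +kernel⟩

theorem c_mm_023 : CertB 0 536870912 1610612736 536870912 536870912 50465866 3 eng mog cd1q0 cd1q3 pd2 false false false .up 0 2 3
    ndB1q0 ndB1q3 pcB2 Cut.none Ext.none :=
  certB0 (fam := false) (s1 := false) (s2 := false) (a := 0) (b := 2) (c := 3) (cn := .up) (n1 := ndB1q0) (n2 := ndB1q3) (pc := pcB2) (cut := Cut.none) (xt := Ext.none) (P1 := 0) (W1 := 536870912) (P2 := 1610612736) (W2 := 536870912) (P3 := 536870912) (W3 := 50465866) (N0 := 3) (En := eng) (mo := mog) (C1 := cd1q0) (C2 := cd1q3) (C3 := pd2)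
    rfl k0_mm_023

noncomputable def f_mm_033 : ℕ → ℕ → ℕ → ℕ → Bool := onCell 0 536870912 1610612736 536870912 536870912 50465866
    (rowB 3 eng mog cd1q0 cd1q3 pd3 0 false false false .pnn 0 3 3 (qsf 0 536870912 1610612736 536870912 3) ndB1q0 ndB1q3 pcB3 Cut.none Ext.none)

def k0_mm_033 : ∃ t, chk3 f_mm_033 t 1 1 1 = true :=
  ⟨(l 5), by decide +kernel⟩

theorem c_mm_033 : CertB 0 536870912 1610612736 536870912 536870912 50465866 3 eng mog cd1q0 cd1q3 pd3 false false false .pnn 0 3 3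
    ndB1q0 ndB1q3 pcB3 Cut.none Ext.none :=
  certB0 (fam := false) (s1 := false) (s2 := false) (a := 0) (b := 3) (c := 3) (cn := .pnn) (n1 := ndB1q0) (n2 := ndB1q3) (pc := pcB3) (cut := Cut.none) (xt := Ext.none) (P1 := 0) (W1 := 536870912) (P2 := 1610612736) (W2 := 536870912) (P3 := 536870912) (W3 := 50465866) (N0 := 3) (En := eng) (mo := mog) (C1 := cd1q0) (C2 := cd1q3) (C3 := pd3)
    rfl k0_mm_033

noncomputable def f_mm_101 : ℕ → ℕ → ℕ → ℕ → Bool := onCell 536870912 536870912 536870912 536870912 536870912 50465866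
    (rowB 3 eng mog cd1q1 cd1q1 pd0 0 false false false .npn 1 0 1 (qsf 536870912 536870912 536870912 536870912 0) ndB1q1 ndB1q1 pcB0 Cut.none Ext.none)

def k0_mm_101 : ∃ t, chk3 f_mm_101 t 1 1 1 = true :=
  ⟨(l 3), by decide +kernel⟩

theorem c_mm_101 : CertB 536870912 536870912 536870912 536870912 536870912 50465866 3 eng mog cd1q1 cd1q1 pd0 false false false .npn 1 0 1
    ndB1q1 ndB1q1 pcB0 Cut.none Ext.none :=
  certB0 (fam := false) (s1 := false) (s2 := false) (a := 1) (b := 0) (c := 1) (cn := .npn) (n1 := ndB1q1) (n2 := ndB1q1) (pc := pcB0) (cut := Cut.none) (xt := Ext.none) (P1 := 536870912) (W1 := 536870912) (P2 := 536870912) (W2 := 536870912) (P3 := 536870912) (W3 := 50465866) (N0 := 3) (En := eng) (mo := mog) (C1 := cd1q1) (C2 := cd1q1) (C3 := pd0)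
    rfl k0_mm_101

noncomputable def f_mm_102_a : ℕ → ℕ → ℕ → ℕ → Bool := onCell 536870912 536870912 0 536870912 536870912 50465866
    (rowB 3 eng mog cd1q1 cd1q2a pd0 0 false false false .npp 1 0 2 (qsf 536870912 536870912 0 536870912 0) ndB1q1 ndB1q2a pcB0 Cut.none Ext.none)

def k0_mm_102_a : ∃ t, chk3 f_mm_102_a t 1 1 1 = true :=
  ⟨(l 5), by decide +kernel⟩

theorem c_mm_102_a : CertB 536870912 536870912 0 536870912 536870912 50465866 3 eng mog cd1q1 cd1q2a pd0 false false false .npp 1 0 2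
    ndB1q1 ndB1q2a pcB0 Cut.none Ext.none :=
  certB0 (fam := false) (s1 := false) (s2 := false) (a := 1) (b := 0) (c := 2) (cn := .npp) (n1 := ndB1q1) (n2 := ndB1q2a) (pc := pcB0) (cut := Cut.none) (xt := Ext.none) (P1 := 536870912) (W1 := 536870912) (P2 := 0) (W2 := 536870912) (P3 := 536870912) (W3 := 50465866) (N0 := 3) (En := eng) (mo := mog) (C1 := cd1q1) (C2 := cd1q2a) (C3 := pd0)
    rfl k0_mm_102_a

noncomputable def f_mm_102_b : ℕ → ℕ → ℕ → ℕ → Bool := onCell 536870912 536870912 1239849684 370763052 536870912 50465866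
    (rowB 3 eng mog cd1q1 cd1q2b pd0 0 false false false .npp 1 0 2 (qsf 536870912 536870912 1239849684 370763052 0) ndB1q1 ndB1q2b pcB0 Cut.none Ext.none)

def k0_mm_102_b : ∃ t, chk3 f_mm_102_b t 1 1 1 = true :=
  ⟨(l 5), by decide +kernel⟩

theorem c_mm_102_b : CertB 536870912 536870912 1239849684 370763052 536870912 50465866 3 eng mog cd1q1 cd1q2b pd0 false false false .npp 1 0 2
    ndB1q1 ndB1q2b pcB0 Cut.none Ext.none :=
  certB0 (fam := false) (s1 := false) (s2 := false) (a := 1) (b := 0) (c := 2) (cn := .npp) (n1 := ndB1q1) (n2 := ndB1q2b) (pc := pcB0) (cut := Cut.none) (xt := Ext.none) (P1 := 536870912) (W1 := 536870912) (P2 := 1239849684) (W2 := 370763052) (P3 := 536870912) (W3 := 50465866) (N0 := 3) (En := eng) (mo := mog) (C1 := cd1q1) (C2 := cd1q2b) (C3 := pd0)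
    rfl k0_mm_102_b

noncomputable def f_mm_112_a : ℕ → ℕ → ℕ → ℕ → Bool := onCell 536870912 536870912 0 536870912 536870912 50465866
    (rowB 3 eng mog cd1q1 cd1q2a pd1 0 false false false .dn 1 1 2 (qsf 536870912 536870912 0 536870912 1) ndB1q1 ndB1q2a pcB1 Cut.none Ext.none)

def k0_mm_112_a : ∃ t, chk3 f_mm_112_a t 1 1 1 = true :=
  ⟨(l 5), by decide +kernel⟩

theorem c_mm_112_a : CertB 536870912 536870912 0 536870912 536870912 50465866 3 eng mog cd1q1 cd1q2a pd1 false false false .dn 1 1 2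
    ndB1q1 ndB1q2a pcB1 Cut.none Ext.none :=
  certB0 (fam := false) (s1 := false) (s2 := false) (a := 1) (b := 1) (c := 2) (cn := .dn) (n1 := ndB1q1) (n2 := ndB1q2a) (pc := pcB1) (cut := Cut.none) (xt := Ext.none) (P1 := 536870912) (W1 := 536870912) (P2 := 0) (W2 := 536870912) (P3 := 536870912) (W3 := 50465866) (N0 := 3) (En := eng) (mo := mog) (C1 := cd1q1) (C2 := cd1q2a) (C3 := pd1)
    rfl k0_mm_112_a

noncomputable def f_mm_112_b : ℕ → ℕ → ℕ → ℕ → Bool := onCell 536870912 536870912 1239849684 370763052 536870912 50465866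
    (rowB 3 eng mog cd1q1 cd1q2b pd1 0 false false false .dn 1 1 2 (qsf 536870912 536870912 1239849684 370763052 1) ndB1q1 ndB1q2b pcB1 Cut.none Ext.none)

def k0_mm_112_b : ∃ t, chk3 f_mm_112_b t 1 1 1 = true :=
  ⟨(l 5), by decide +kernel⟩

theorem c_mm_112_b : CertB 536870912 536870912 1239849684 370763052 536870912 50465866 3 eng mog cd1q1 cd1q2b pd1 false false false .dn 1 1 2
    ndB1q1 ndB1q2b pcB1 Cut.none Ext.none :=
  certB0 (fam := false) (s1 := false) (s2 := false) (a := 1) (b := 1) (c := 2) (cn := .dn) (n1 := ndB1q1) (n2 := ndB1q2b) (pc := pcB1) (cut := Cut.none) (xt := Ext.none) (P1 := 536870912) (W1 := 536870912) (P2 := 1239849684) (W2 := 370763052) (P3 := 536870912) (W3 := 50465866) (N0 := 3) (En := eng) (mo := mog) (C1 := cd1q1) (C2 := cd1q2b) (C3 := pd1)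
    rfl k0_mm_112_b

noncomputable def f_mm_113 : ℕ → ℕ → ℕ → ℕ → Bool := onCell 536870912 536870912 1610612736 536870912 536870912 50465866
    (rowB 3 eng mog cd1q1 cd1q3 pd1 0 false false false .nn 1 1 3 (qsf 536870912 536870912 1610612736 536870912 1) ndB1q1 ndB1q3 pcB1 Cut.none Ext.none)

def k0_mm_113 : ∃ t, chk3 f_mm_113 t 1 1 1 = true :=
  ⟨(l 5), by decide +kernel⟩

theorem c_mm_113 : CertB 536870912 536870912 1610612736 536870912 536870912 50465866 3 eng mog cd1q1 cd1q3 pd1 false false false .nn 1 1 3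
    ndB1q1 ndB1q3 pcB1 Cut.none Ext.none :=
  certB0 (fam := false) (s1 := false) (s2 := false) (a := 1) (b := 1) (c := 3) (cn := .nn) (n1 := ndB1q1) (n2 := ndB1q3) (pc := pcB1) (cut := Cut.none) (xt := Ext.none) (P1 := 536870912) (W1 := 536870912) (P2 := 1610612736) (W2 := 536870912) (P3 := 536870912) (W3 := 50465866) (N0 := 3) (En := eng) (mo := mog) (C1 := cd1q1) (C2 := cd1q3) (C3 := pd1)
    rfl k0_mm_113

noncomputable def f_mm_123 : ℕ → ℕ → ℕ → ℕ → Bool := onCell 536870912 536870912 1610612736 536870912 536870912 50465866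
    (rowB 3 eng mog cd1q1 cd1q3 pd2 0 false false false .npn 1 2 3 (qsf 536870912 536870912 1610612736 536870912 2) ndB1q1 ndB1q3 pcB2 Cut.none Ext.none)

def k0_mm_123 : ∃ t, chk3 f_mm_123 t 1 1 1 = true :=
  ⟨(l 5), by decide +kernel⟩

theorem c_mm_123 : CertB 536870912 536870912 1610612736 536870912 536870912 50465866 3 eng mog cd1q1 cd1q3 pd2 false false false .npn 1 2 3
    ndB1q1 ndB1q3 pcB2 Cut.none Ext.none :=
  certB0 (fam := false) (s1 := false) (s2 := false) (a := 1) (b := 2) (c := 3) (cn := .npn) (n1 := ndB1q1) (n2 := ndB1q3) (pc := pcB2) (cut := Cut.none) (xt := Ext.none) (P1 := 536870912) (W1 := 536870912) (P2 := 1610612736) (W2 := 536870912) (P3 := 536870912) (W3 := 50465866) (N0 := 3) (En := eng) (mo := mog) (C1 := cd1q1) (C2 := cd1q3) (C3 := pd2)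
    rfl k0_mm_123

noncomputable def f_mm_133 : ℕ → ℕ → ℕ → ℕ → Bool := onCell 536870912 536870912 1610612736 536870912 536870912 50465866
    (rowB 3 eng mog cd1q1 cd1q3 pd3 0 false false false .dn 1 3 3 (qsf 536870912 536870912 1610612736 536870912 3) ndB1q1 ndB1q3 pcB3 Cut.none Ext.none)

def k0_mm_133 : ∃ t, chk3 f_mm_133 t 1 1 1 = true :=
  ⟨(l 5), by decide +kernel⟩

theorem c_mm_133 : CertB 536870912 536870912 1610612736 536870912 536870912 50465866 3 eng mog cd1q1 cd1q3 pd3 false false false .dn 1 3 3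
    ndB1q1 ndB1q3 pcB3 Cut.none Ext.none :=
  certB0 (fam := false) (s1 := false) (s2 := false) (a := 1) (b := 3) (c := 3) (cn := .dn) (n1 := ndB1q1) (n2 := ndB1q3) (pc := pcB3) (cut := Cut.none) (xt := Ext.none) (P1 := 536870912) (W1 := 536870912) (P2 := 1610612736) (W2 := 536870912) (P3 := 536870912) (W3 := 50465866) (N0 := 3) (En := eng) (mo := mog) (C1 := cd1q1) (C2 := cd1q3) (C3 := pd3)
    rfl k0_mm_133

noncomputable def f_mm_202_aa : ℕ → ℕ → ℕ → ℕ → Bool := onCell 0 536870912 0 536870912 536870912 50465866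
    (rowB 3 eng mog cd1q2a cd1q2a pd0 0 false false false .pp 2 0 2 (qsf 0 536870912 0 536870912 0) ndB1q2a ndB1q2a pcB0 Cut.none Ext.none)

def k0_mm_202_aa : ∃ t, chk3 f_mm_202_aa t 1 1 1 = true :=
  ⟨(l 3), by decide +kernel⟩

theorem c_mm_202_aa : CertB 0 536870912 0 536870912 536870912 50465866 3 eng mog cd1q2a cd1q2a pd0 false false false .pp 2 0 2
    ndB1q2a ndB1q2a pcB0 Cut.none Ext.none :=
  certB0 (fam := false) (s1 := false) (s2 := false) (a := 2) (b := 0) (c := 2) (cn := .pp) (n1 := ndB1q2a) (n2 := ndB1q2a) (pc := pcB0) (cut := Cut.none) (xt := Ext.none) (P1 := 0) (W1 := 536870912) (P2 := 0) (W2 := 536870912) (P3 := 536870912) (W3 := 50465866) (N0 := 3) (En := eng) (mo := mog) (C1 := cd1q2a) (C2 := cd1q2a) (C3 := pd0)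
    rfl k0_mm_202_aa

noncomputable def f_mm_202_ab : ℕ → ℕ → ℕ → ℕ → Bool := onCell 0 536870912 1239849684 370763052 536870912 50465866
    (rowB 3 eng mog cd1q2a cd1q2b pd0 0 false false false .pp 2 0 2 (qsf 0 536870912 1239849684 370763052 0) ndB1q2a ndB1q2b pcB0 Cut.none Ext.none)

def k0_mm_202_ab : ∃ t, chk3 f_mm_202_ab t 1 1 1 = true :=
  ⟨(l 3), by decide +kernel⟩

theorem c_mm_202_ab : CertB 0 536870912 1239849684 370763052 536870912 50465866 3 eng mog cd1q2a cd1q2b pd0 false false false .pp 2 0 2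
    ndB1q2a ndB1q2b pcB0 Cut.none Ext.none :=
  certB0 (fam := false) (s1 := false) (s2 := false) (a := 2) (b := 0) (c := 2) (cn := .pp) (n1 := ndB1q2a) (n2 := ndB1q2b) (pc := pcB0) (cut := Cut.none) (xt := Ext.none) (P1 := 0) (W1 := 536870912) (P2 := 1239849684) (W2 := 370763052) (P3 := 536870912) (W3 := 50465866) (N0 := 3) (En := eng) (mo := mog) (C1 := cd1q2a) (C2 := cd1q2b) (C3 := pd0)
    rfl k0_mm_202_ab

noncomputable def f_mm_202_ba : ℕ → ℕ → ℕ → ℕ → Bool := onCell 1239849684 370763052 0 536870912 536870912 50465866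
    (rowB 3 eng mog cd1q2b cd1q2a pd0 0 false false false .pp 2 0 2 (qsf 1239849684 370763052 0 536870912 0) ndB1q2b ndB1q2a pcB0 Cut.none Ext.none)

def k0_mm_202_ba : ∃ t, chk3 f_mm_202_ba t 1 1 1 = true :=
  ⟨(l 3), by decide +kernel⟩

theorem c_mm_202_ba : CertB 1239849684 370763052 0 536870912 536870912 50465866 3 eng mog cd1q2b cd1q2a pd0 false false false .pp 2 0 2
    ndB1q2b ndB1q2a pcB0 Cut.none Ext.none :=
  certB0 (fam := false) (s1 := false) (s2 := false) (a := 2) (b := 0) (c := 2) (cn := .pp) (n1 := ndB1q2b) (n2 := ndB1q2a) (pc := pcB0) (cut := Cut.none) (xt := Ext.none) (P1 := 1239849684) (W1 := 370763052) (P2 := 0) (W2 := 536870912) (P3 := 536870912) (W3 := 50465866) (N0 := 3) (En := eng) (mo := mog) (C1 := cd1q2b) (C2 := cd1q2a) (C3 := pd0)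
    rfl k0_mm_202_ba

noncomputable def f_mm_202_bb : ℕ → ℕ → ℕ → ℕ → Bool := onCell 1239849684 370763052 1239849684 370763052 536870912 50465866
    (rowB 3 eng mog cd1q2b cd1q2b pd0 0 false false false .pp 2 0 2 (qsf 1239849684 370763052 1239849684 370763052 0) ndB1q2b ndB1q2b pcB0 Cut.none Ext.none)

def k0_mm_202_bb : ∃ t, chk3 f_mm_202_bb t 1 1 1 = true :=
  ⟨(l 3), by decide +kernel⟩

theorem c_mm_202_bb : CertB 1239849684 370763052 1239849684 370763052 536870912 50465866 3 eng mog cd1q2b cd1q2b pd0 false false false .pp 2 0 2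
    ndB1q2b ndB1q2b pcB0 Cut.none Ext.none :=
  certB0 (fam := false) (s1 := false) (s2 := false) (a := 2) (b := 0) (c := 2) (cn := .pp) (n1 := ndB1q2b) (n2 := ndB1q2b) (pc := pcB0) (cut := Cut.none) (xt := Ext.none) (P1 := 1239849684) (W1 := 370763052) (P2 := 1239849684) (W2 := 370763052) (P3 := 536870912) (W3 := 50465866) (N0 := 3) (En := eng) (mo := mog) (C1 := cd1q2b) (C2 := cd1q2b) (C3 := pd0)
    rfl k0_mm_202_bb

noncomputable def f_mm_203_a : ℕ → ℕ → ℕ → ℕ → Bool := onCell 0 536870912 0 536870912 536870912 50465866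
    (rowB 3 eng mog cd1q2a cd1q3 pd0 1 false false false .up 2 0 3 (qsf 0 536870912 1610612736 536870912 0) ndB1q2a ndB1q3 pcB0 Cut.none Ext.none)

def k0_mm_203_a : ∃ t, chk3 f_mm_203_a t 1 1 1 = true :=
  ⟨(l 3), by decide +kernel⟩

theorem c_mm_203_a : CertB 0 536870912 1610612736 536870912 536870912 50465866 3 eng mog cd1q2a cd1q3 pd0 false false false .up 2 0 3
    ndB1q2a ndB1q3 pcB0 Cut.none Ext.none :=
  certB1 (fam := false) (s1 := false) (s2 := false) (a := 2) (b := 0) (c := 3) (cn := .up) (n1 := ndB1q2a) (n2 := ndB1q3) (pc := pcB0) (cut := Cut.none) (xt := Ext.none) (P1 := 0) (W1 := 536870912) (P2 := 1610612736) (W2 := 536870912) (P3 := 536870912) (W3 := 50465866) (N0 := 3) (En := eng) (mo := mog) (C1 := cd1q2a) (C2 := cd1q3) (C3 := pd0)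
    rfl (fun _ => rfl) k0_mm_203_a

noncomputable def f_mm_203_b : ℕ → ℕ → ℕ → ℕ → Bool := onCell 1239849684 370763052 1610612736 536870912 536870912 50465866
    (rowB 3 eng mog cd1q2b cd1q3 pd0 0 false false false .up 2 0 3 (qsf 1239849684 370763052 1610612736 536870912 0) ndB1q2b ndB1q3 pcB0 Cut.none Ext.none)

def k0_mm_203_b : ∃ t, chk3 f_mm_203_b t 1 1 1 = true :=
  ⟨(l 3), by decide +kernel⟩

theorem c_mm_203_b : CertB 1239849684 370763052 1610612736 536870912 536870912 50465866 3 eng mog cd1q2b cd1q3 pd0 false false false .up 2 0 3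
    ndB1q2b ndB1q3 pcB0 Cut.none Ext.none :=
  certB0 (fam := false) (s1 := false) (s2 := false) (a := 2) (b := 0) (c := 3) (cn := .up) (n1 := ndB1q2b) (n2 := ndB1q3) (pc := pcB0) (cut := Cut.none) (xt := Ext.none) (P1 := 1239849684) (W1 := 370763052) (P2 := 1610612736) (W2 := 536870912) (P3 := 536870912) (W3 := 50465866) (N0 := 3) (En := eng) (mo := mog) (C1 := cd1q2b) (C2 := cd1q3) (C3 := pd0)
    rfl k0_mm_203_b

noncomputable def f_mm_213_a : ℕ → ℕ → ℕ → ℕ → Bool := onCell 0 536870912 1610612736 536870912 536870912 50465866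
    (rowB 3 eng mog cd1q2a cd1q3 pd1 0 false false false .pnn 2 1 3 (qsf 0 536870912 1610612736 536870912 1) ndB1q2a ndB1q3 pcB1 Cut.none Ext.none)

def k0_mm_213_a : ∃ t, chk3 f_mm_213_a t 1 1 1 = true :=
  ⟨(b (l 3) (l 5)), by decide +kernel⟩

theorem c_mm_213_a : CertB 0 536870912 1610612736 536870912 536870912 50465866 3 eng mog cd1q2a cd1q3 pd1 false false false .pnn 2 1 3
    ndB1q2a ndB1q3 pcB1 Cut.none Ext.none :=
  certB0 (fam := false) (s1 := false) (s2 := false) (a := 2) (b := 1) (c := 3) (cn := .pnn) (n1 := ndB1q2a) (n2 := ndB1q3) (pc := pcB1) (cut := Cut.none) (xt := Ext.none) (P1 := 0) (W1 := 536870912) (P2 := 1610612736) (W2 := 536870912) (P3 := 536870912) (W3 := 50465866) (N0 := 3) (En := eng) (mo := mog) (C1 := cd1q2a) (C2 := cd1q3) (C3 := pd1)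
    rfl k0_mm_213_a

noncomputable def f_mm_213_b : ℕ → ℕ → ℕ → ℕ → Bool := onCell 1239849684 370763052 1610612736 536870912 536870912 50465866
    (rowB 3 eng mog cd1q2b cd1q3 pd1 0 false false false .pnn 2 1 3 (qsf 1239849684 370763052 1610612736 536870912 1) ndB1q2b ndB1q3 pcB1 Cut.none Ext.none)

def k0_mm_213_b : ∃ t, chk3 f_mm_213_b t 1 1 1 = true :=
  ⟨(l 3), by decide +kernel⟩

theorem c_mm_213_b : CertB 1239849684 370763052 1610612736 536870912 536870912 50465866 3 eng mog cd1q2b cd1q3 pd1 false false false .pnn 2 1 3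
    ndB1q2b ndB1q3 pcB1 Cut.none Ext.none :=
  certB0 (fam := false) (s1 := false) (s2 := false) (a := 2) (b := 1) (c := 3) (cn := .pnn) (n1 := ndB1q2b) (n2 := ndB1q3) (pc := pcB1) (cut := Cut.none) (xt := Ext.none) (P1 := 1239849684) (W1 := 370763052) (P2 := 1610612736) (W2 := 536870912) (P3 := 536870912) (W3 := 50465866) (N0 := 3) (En := eng) (mo := mog) (C1 := cd1q2b) (C2 := cd1q3) (C3 := pd1)
    rfl k0_mm_213_b

noncomputable def f_mm_303 : ℕ → ℕ → ℕ → ℕ → Bool := onCell 1610612736 536870912 1610612736 536870912 536870912 50465866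
    (rowB 3 eng mog cd1q3 cd1q3 pd0 0 false false false .npn 3 0 3 (qsf 1610612736 536870912 1610612736 536870912 0) ndB1q3 ndB1q3 pcB0 Cut.none Ext.none)

def k0_mm_303 : ∃ t, chk3 f_mm_303 t 1 1 1 = true :=
  ⟨(l 3), by decide +kernel⟩

theorem c_mm_303 : CertB 1610612736 536870912 1610612736 536870912 536870912 50465866 3 eng mog cd1q3 cd1q3 pd0 false false false .npn 3 0 3
    ndB1q3 ndB1q3 pcB0 Cut.none Ext.none :=
  certB0 (fam := false) (s1 := false) (s2 := false) (a := 3) (b := 0) (c := 3) (cn := .npn) (n1 := ndB1q3) (n2 := ndB1q3) (pc := pcB0) (cut := Cut.none) (xt := Ext.none) (P1 := 1610612736) (W1 := 536870912) (P2 := 1610612736) (W2 := 536870912) (P3 := 536870912) (W3 := 50465866) (N0 := 3) (En := eng) (mo := mog) (C1 := cd1q3) (C2 := cd1q3) (C3 := pd0)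
    rfl k0_mm_303

noncomputable def f_mm_313 : ℕ → ℕ → ℕ → ℕ → Bool := onCell 1610612736 536870912 1610612736 536870912 536870912 50465866
    (rowB 3 eng mog cd1q3 cd1q3 pd1 0 false false false .dn 3 1 3 (qsf 1610612736 536870912 1610612736 536870912 1) ndB1q3 ndB1q3 pcB1 Cut.none Ext.none)

def k0_mm_313 : ∃ t, chk3 f_mm_313 t 1 1 1 = true :=
  ⟨(l 3), by decide +kernel⟩

theorem c_mm_313 : CertB 1610612736 536870912 1610612736 536870912 536870912 50465866 3 eng mog cd1q3 cd1q3 pd1 false false false .dn 3 1 3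
    ndB1q3 ndB1q3 pcB1 Cut.none Ext.none :=
  certB0 (fam := false) (s1 := false) (s2 := false) (a := 3) (b := 1) (c := 3) (cn := .dn) (n1 := ndB1q3) (n2 := ndB1q3) (pc := pcB1) (cut := Cut.none) (xt := Ext.none) (P1 := 1610612736) (W1 := 536870912) (P2 := 1610612736) (W2 := 536870912) (P3 := 536870912) (W3 := 50465866) (N0 := 3) (En := eng) (mo := mog) (C1 := cd1q3) (C2 := cd1q3) (C3 := pd1)
    rfl k0_mm_313

end Pool.Agent.Strip051.G.I5000_5470.Tab.C.BB11

namespace Pool.Agent.Strip051.G.I5000_5470.Tab.C.BB12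

open Pool.Agent.Strip051.PB Pool.Agent.Strip051.PB.T
open Pool.Agent.Strip051.G.I5000_5470.Tab

noncomputable def f_pp_001 : ℕ → ℕ → ℕ → ℕ → Bool := onCell 0 536870912 536870912 536870912 536870912 50465866
    (rowB 3 eng mog cd1q0 cd2q1 pd0 0 false true true .up 0 0 1 (qsf 0 536870912 536870912 536870912 0) ndB1q0 ndB2q1 pcB0 Cut.none Ext.none)

def k0_pp_001 : ∃ t, chk3 f_pp_001 t 1 1 1 = true :=
  ⟨(l 3), by decide +kernel⟩

theorem c_pp_001 : CertB 0 536870912 536870912 536870912 536870912 50465866 3 eng mog cd1q0 cd2q1 pd0 false true true .up 0 0 1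
    ndB1q0 ndB2q1 pcB0 Cut.none Ext.none :=
  certB0 (fam := false) (s1 := true) (s2 := true) (a := 0) (b := 0) (c := 1) (cn := .up) (n1 := ndB1q0) (n2 := ndB2q1) (pc := pcB0) (cut := Cut.none) (xt := Ext.none) (P1 := 0) (W1 := 536870912) (P2 := 536870912) (W2 := 536870912) (P3 := 536870912) (W3 := 50465866) (N0 := 3) (En := eng) (mo := mog) (C1 := cd1q0) (C2 := cd2q1) (C3 := pd0)
    rfl k0_pp_001

noncomputable def f_pp_011 : ℕ → ℕ → ℕ → ℕ → Bool := onCell 0 536870912 536870912 536870912 536870912 50465866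
    (rowB 3 eng mog cd1q0 cd2q1 pd1 0 false true true .pnn 0 1 1 (qsf 0 536870912 536870912 536870912 1) ndB1q0 ndB2q1 pcB1 Cut.none Ext.none)

def k0_pp_011 : ∃ t, chk3 f_pp_011 t 1 1 1 = true :=
  ⟨(l 3), by decide +kernel⟩

theorem c_pp_011 : CertB 0 536870912 536870912 536870912 536870912 50465866 3 eng mog cd1q0 cd2q1 pd1 false true true .pnn 0 1 1
    ndB1q0 ndB2q1 pcB1 Cut.none Ext.none :=
  certB0 (fam := false) (s1 := true) (s2 := true) (a := 0) (b := 1) (c := 1) (cn := .pnn) (n1 := ndB1q0) (n2 := ndB2q1) (pc := pcB1) (cut := Cut.none) (xt := Ext.none) (P1 := 0) (W1 := 536870912) (P2 := 536870912) (W2 := 536870912) (P3 := 536870912) (W3 := 50465866) (N0 := 3) (En := eng) (mo := mog) (C1 := cd1q0) (C2 := cd2q1) (C3 := pd1)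
    rfl k0_pp_011

noncomputable def cut_pp_012_a : Cut := Cut.of [[⟨0, 0, 0, 67108864⟩, ⟨1, 1, 0, 67108864⟩, ⟨2, 1, 0, 67108864⟩]]

noncomputable def f_pp_012_a : ℕ → ℕ → ℕ → ℕ → Bool := onCell 536870912 536870912 0 536870912 536870912 50465866
    (rowB 3 eng mog cd1q0 cd2q2a pd1 2 false true true .pnp 0 1 2 (qsf 0 536870912 0 536870912 1) ndB1q0 ndB2q2a pcB1 cut_pp_012_a Ext.none)

def k0_pp_012_a : ∃ t, chk3 f_pp_012_a t 2 1 1 = true :=
  ⟨(a (l 3) (b (a (l 3) (b (b (a (a (l 3) (b (l 153712809319) (l 3))) (b (a (a (l 119353074375) (l 94657068967)) (l 16773608)) (a (l 3) (l 118816325303)))) (l 3)) (l 3))) (l 3))), by decide +kernel⟩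

def k1_pp_012_a : ∃ t, chk3 f_pp_012_a t 6 1 1 = true :=
  ⟨(b (a (b (a (b (a (b (l 16773096) (l 56002302119)) (l 16770104)) (a (b (l 142438636231) (l 3)) (b (l 16774696) (l 140291158263)))) (b (a (l 16761672) (l 16750480)) (a (b (l 16770360) (l 16774048)) (l 16763576)))) (a (l 3) (b (b (a (l 16775272) (l 16771192)) (l 111837042695)) (l 3)))) (b (a (b (b (l 16726296) (l 16735160)) (a (l 16751488) (l 16737752))) (b (l 16701264) (a (l 16722888) (l 16707184)))) (a (a (b (l 16764808) (l 3)) (b (l 16793304) (l 73182211831))) (b (a (l 16757480) (l 16720840)) (a (b (l 16755184) (l 16769040)) (l 16810216)))))) (a (l 3) (b (a (l 3) (b (a (l 3) (b (l 16769264) (l 3))) (l 3))) (l 3)))), by decide +kernel⟩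

def k2_pp_012_a : ∃ t, chk3 f_pp_012_a t 7 2 1 = true :=
  ⟨(a (b (a (b (l 16669120) (l 16724464)) (b (l 16635864) (l 16649144))) (a (b (a (l 16704536) (l 16729760)) (a (l 16773136) (l 16756752))) (b (b (l 16658152) (l 16710872)) (b (l 16745704) (l 16740096))))) (b (a (b (l 16604088) (l 16638216)) (b (l 16594200) (a (l 16593848) (l 16578664)))) (a (b (l 16632712) (b (l 16693336) (l 16666112))) (b (b (l 16597152) (l 16566016)) (b (l 16620976) (l 16635304)))))), by decide +kernel⟩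

def k3_pp_012_a : ∃ t, chk3 f_pp_012_a t 7 3 1 = true :=
  ⟨(a (b (a (b (a (b (l 16754376) (l 69424155687)) (b (l 16738648) (l 16776424))) (b (a (l 3) (l 87140888311)) (l 3))) (b (a (b (l 16722536) (l 16739520)) (b (l 16706144) (l 16723040))) (b (a (a (l 16760824) (l 16752928)) (l 16740632)) (a (b (l 16769688) (l 3)) (a (l 16762760) (l 16754672)))))) (a (l 3) (b (b (a (l 3) (b (l 77477200919) (l 3))) (l 3)) (l 3)))) (b (a (b (a (l 16761144) (l 16692600)) (a (b (l 16723952) (a (l 16746368) (l 16738000))) (b (l 16707448) (l 16725640)))) (b (a (b (l 16658272) (l 16674512)) (b (l 16643272) (l 16660680))) (a (b (l 16691632) (l 16710008)) (b (l 16698752) (l 16705608))))) (a (b (b (a (a (b (l 16760408) (l 16769960)) (b (l 16752096) (l 16761904))) (b (l 16729464) (a (l 16753904) (l 16746000)))) (a (b (a (l 3) (l 16771728)) (l 3)) (a (b (l 16763864) (l 72108507943)) (b (l 16755912) (a (l 16767944) (l 16763944)))))) (b (a (l 3) (b (a (l 3) (b (l 16773568) (l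 3))) (l 3))) (l 3))) (b (a (b (b (l 16713880) (a (l 16738112) (l 16730256))) (b (a (l 16747944) (l 16740008)) (a (l 16757944) (l 16749944)))) (b (a (l 16717704) (l 16710048)) (a (b (l 16732120) (l 16744600)) (b (l 16724280) (l 6))))) (b (a (b (a (a (l 16778032) (l 16771376)) (l 6)) (l 6)) (l 6)) (l 6)))))), by decide +kernel⟩

theorem s4_pp_012_a : ∃ t, chk3 f_pp_012_a t 7 1 1 = true := ex3_b k2_pp_012_a k3_pp_012_a

theorem s5_pp_012_a : ∃ t, chk3 f_pp_012_a t 3 1 1 = true := ex3_a k1_pp_012_a s4_pp_012_a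

theorem s6_pp_012_a : ∃ t, chk3 f_pp_012_a t 1 1 1 = true := ex3_a k0_pp_012_a s5_pp_012_a

theorem c_pp_012_a : CertB 0 536870912 0 536870912 536870912 50465866 3 eng mog cd1q0 cd2q2a pd1 false true true .pnp 0 1 2
    ndB1q0 ndB2q2a pcB1 cut_pp_012_a Ext.none :=
  certB2 (fam := false) (s1 := true) (s2 := true) (a := 0) (b := 1) (c := 2) (cn := .pnp) (n1 := ndB1q0) (n2 := ndB2q2a) (pc := pcB1) (cut := cut_pp_012_a) (xt := Ext.none) (P1 := 0) (W1 := 536870912) (P2 := 0) (W2 := 536870912) (P3 := 536870912) (W3 := 50465866) (N0 := 3) (En := eng) (mo := mog) (C1 := cd1q0) (C2 := cd2q2a) (C3 := pd1)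
    rfl (fun _ => rfl) s6_pp_012_a

noncomputable def cut_pp_012_b : Cut := Cut.of [[⟨0, 0, 0, 67108864⟩, ⟨1, 1, 0, 67108864⟩, ⟨2, 1, 0, 67108864⟩]]

noncomputable def f_pp_012_b : ℕ → ℕ → ℕ → ℕ → Bool := onCell 536870912 536870912 1239849684 370763052 536870912 50465866
    (rowB 3 eng mog cd1q0 cd2q2b pd1 2 false true true .pnp 0 1 2 (qsf 0 536870912 1239849684 370763052 1) ndB1q0 ndB2q2b pcB1 cut_pp_012_b Ext.none)

def k0_pp_012_b : ∃ t, chk3 f_pp_012_b t 1 1 1 = true :=
  ⟨(a (b (a (l 2) (a (l 3) (b (a (b (a (l 3) (b (l 108078793559) (l 3))) (l 3)) (b (a (b (l 16773936) (l 16774968)) (l 16771904)) (l 16831520))) (a (l 2) (l 103716932023))))) (l 2)) (a (b (a (b (a (b (l 16802192) (l 16748048)) (b (l 16737016) (l 16720640))) (a (l 16740568) (l 16709392))) (b (a (b (l 16708344) (l 16688320)) (b (l 16676608) (l 16652392))) (a (l 16673136) (l 16632920)))) (a (l 2) (b (a (l 16680744) (l 16636920)) (l 2)))) (b (a (b (a (b (l 16643024) (l 16614408)) (b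 (l 16608240) (l 16575376))) (a (l 16589432) (l 16543744))) (b (a (b (l 16574056) (l 16535816)) (b (l 16583480) (l 16497248))) (a (l 16497000) (l 16450264)))) (b (a (l 16647304) (a (l 16482160) (l 16425512))) (a (b (l 16584848) (l 2)) (l 16478552)))))), by decide +kernel⟩

theorem c_pp_012_b : CertB 0 536870912 1239849684 370763052 536870912 50465866 3 eng mog cd1q0 cd2q2b pd1 false true true .pnp 0 1 2
    ndB1q0 ndB2q2b pcB1 cut_pp_012_b Ext.none :=
  certB2 (fam := false) (s1 := true) (s2 := true) (a := 0) (b := 1) (c := 2) (cn := .pnp) (n1 := ndB1q0) (n2 := ndB2q2b) (pc := pcB1) (cut := cut_pp_012_b) (xt := Ext.none) (P1 := 0) (W1 := 536870912) (P2 := 1239849684) (W2 := 370763052) (P3 := 536870912) (W3 := 50465866) (N0 := 3) (En := eng) (mo := mog) (C1 := cd1q0) (C2 := cd2q2b) (C3 := pd1)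
    rfl (fun _ => rfl) k0_pp_012_b

noncomputable def cut_pp_022_a : Cut := Cut.of [[⟨0, 0, 0, 67108864⟩, ⟨1, 1, 0, 67108864⟩, ⟨2, 1, 0, 67108864⟩]]

noncomputable def f_pp_022_a : ℕ → ℕ → ℕ → ℕ → Bool := onCell 1073741824 536870912 0 536870912 536870912 50465866
    (rowB 3 eng mog cd1q0 cd2q2a pd2 2 false true true .pp 0 2 2 (qsf 0 536870912 0 536870912 2) ndB1q0 ndB2q2a pcB2 cut_pp_022_a Ext.none)

def k0_pp_022_a : ∃ t, chk3 f_pp_022_a t 2 2 1 = true :=
  ⟨(a (b (b (a (a (l 16600064) (l 16525016)) (a (l 16504344) (l 16504104))) (a (a (l 16559392) (l 16556336)) (a (l 16515880) (b (l 16492632) (l 16502248))))) (a (b (a (l 16638088) (l 16598272)) (a (c (l 16642224) (l 16641232)) (a (l 16585496) (l 16575984)))) (b (a (a (l 16542872) (l 16638200)) (c (a (l 16523008) (l 16596792)) (b (l 16512776) (l 16521992)))) (a (a (l 16628832) (b (l 16549408) (l 16560752))) (b (a (l 16538600) (l 16527312)) (a (l 16549216) (l 16537144))))))) (a (b (b (a (a (l 16470008)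 (a (l 16463320) (a (l 16459936) (a (l 16458240) (l 16457168))))) (l 1)) (a (a (c (l 16480400) (l 16568008)) (a (l 16611736) (a (l 16618400) (a (l 16616504) (l 1))))) (l 1))) (a (a (b (b (a (l 16500040) (l 16494712)) (l 16506656)) (b (l 16515552) (l 83248059767))) (a (b (b (l 16489304) (l 16498080)) (l 1)) (l 1))) (l 1))) (l 1))), by decide +kernel⟩

def k1_pp_022_a : ∃ t, chk3 f_pp_022_a t 2 3 1 = true :=
  ⟨(a (a (b (a (b (a (b (l 16627664) (l 16644048)) (l 16623960)) (a (b (l 16661344) (a (l 16682632) (l 16676000))) (c (l 16699096) (l 16699232)))) (b (a (l 16634680) (b (l 16595528) (l 16609640))) (a (b (l 16636688) (a (l 16656296) (l 16649760))) (b (l 16645328) (a (l 16642992) (b (l 16632168) (l 16639696))))))) (a (b (b (a (a (a (l 16703048) (l 16699688)) (l 16694544)) (a (l 16687480) (l 16701512))) (l 6)) (l 6)) (a (b (b (a (b (l 16669096) (a (l 16679632) (l 16675992))) (b (l 16662064) (l 16680896))) (l 6)) (l 6)) (b (a (b (b (l 16654776) (b (l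 16660728) (l 6))) (l 6)) (a (b (b (l 16649152) (b (l 16654888) (l 6))) (l 6)) (b (b (l 16645336) (b (l 16650928) (l 16654664))) (l 1)))) (l 1))))) (b (b (a (b (a (l 16584392) (l 16572608)) (a (l 16597608) (a (l 16588088) (l 16581552)))) (b (a (l 16560208) (l 84858720439)) (a (a (l 16574816) (l 148746386007)) (l 1)))) (a (a (b (a (l 16614584) (l 16607832)) (a (b (l 16625160) (l 16632328)) (b (l 16617920) (a (l 16626648) (l 16622792))))) (b (a (b (l 16597584) (l 16604016)) (b (l 16590608) (l 16596712))) (b (a (l 120292304887) (l 1)) (l 1)))) (b (a (b (l 110628573015) (l 1)) (l 1)) (l 1)))) (b (a (b (a (b (a (a (l 97743788599) (l 89690715991)) (l 45667289927)) (a (b (l 16644872) (l 1)) (l 1))) (l 1)) (l 1)) (l 1)) (l 1)))) (b (l 1) (l 1))), by decide +kernel⟩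

def k2_pp_022_a : ∃ t, chk3 f_pp_022_a t 3 1 1 = true :=
  ⟨(l 1), by decide +kernel⟩

theorem s3_pp_022_a : ∃ t, chk3 f_pp_022_a t 2 1 1 = true := ex3_b k0_pp_022_a k1_pp_022_a

theorem s4_pp_022_a : ∃ t, chk3 f_pp_022_a t 1 1 1 = true := ex3_a s3_pp_022_a k2_pp_022_a

theorem c_pp_022_a : CertB 0 536870912 0 536870912 536870912 50465866 3 eng mog cd1q0 cd2q2a pd2 false true true .pp 0 2 2
    ndB1q0 ndB2q2a pcB2 cut_pp_022_a Ext.none :=
  certB2 (fam := false) (s1 := true) (s2 := true) (a := 0) (b := 2) (c := 2) (cn := .pp) (n1 := ndB1q0) (n2 := ndB2q2a) (pc := pcB2) (cut := cut_pp_022_a) (xt := Ext.none) (P1 := 0) (W1 := 536870912) (P2 := 0) (W2 := 536870912) (P3 := 536870912) (W3 := 50465866) (N0 := 3) (En := eng) (mo := mog) (C1 := cd1q0) (C2 := cd2q2a) (C3 := pd2)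
    rfl (fun _ => rfl) s4_pp_022_a

noncomputable def cut_pp_022_b : Cut := Cut.of [[⟨0, 0, 0, 67108864⟩, ⟨1, 1, 0, 67108864⟩, ⟨2, 1, 0, 67108864⟩]]

noncomputable def f_pp_022_b : ℕ → ℕ → ℕ → ℕ → Bool := onCell 1073741824 536870912 1239849684 370763052 536870912 50465866
    (rowB 3 eng mog cd1q0 cd2q2b pd2 2 false true true .pp 0 2 2 (qsf 0 536870912 1239849684 370763052 2) ndB1q0 ndB2q2b pcB2 cut_pp_022_b Ext.none)

def k0_pp_022_b : ∃ t, chk3 f_pp_022_b t 1 1 1 = true :=
  ⟨(a (a (b (b (b (a (a (l 16536576) (l 16493408)) (a (l 16492056) (l 16491920))) (a (l 16603384) (l 16485200))) (a (b (l 16500520) (l 16387248)) (b (l 16362104) (l 16327576)))) (a (b (l 16469872) (l 16375128)) (b (l 16423064) (l 16295992)))) (b (a (a (b (b (l 16514272) (l 16368064)) (l 16317928)) (b (b (a (b (l 16583800) (l 16405224)) (b (l 389801121975) (l 16449168))) (a (l 16356360) (l 16363376))) (b (l 16337768) (l 16236688)))) (b (a (b (b (l 1) (l 215318063479)) (l 187937545271))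 (b (l 1) (l 221223561527))) (b (a (l 16319832) (l 16334144)) (l 16490080)))) (a (b (a (l 16241632) (l 16198032)) (l 16400224)) (b (b (l 16227616) (l 16167208)) (l 16085528))))) (b (a (b (l 1) (a (b (a (l 233034688007) (l 253972625079)) (l 184179514279)) (b (l 1) (l 297459133623)))) (l 1)) (a (b (a (b (l 16286312) (l 16253448)) (b (l 247530185655) (l 16293352))) (a (l 16193904) (l 16262376))) (a (b (b (l 1) (l 343630004327)) (l 202433050295)) (b (l 1) (a (l 336650664151) (l 365104895111))))))), by decide +kernel⟩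

theorem c_pp_022_b : CertB 0 536870912 1239849684 370763052 536870912 50465866 3 eng mog cd1q0 cd2q2b pd2 false true true .pp 0 2 2
    ndB1q0 ndB2q2b pcB2 cut_pp_022_b Ext.none :=
  certB2 (fam := false) (s1 := true) (s2 := true) (a := 0) (b := 2) (c := 2) (cn := .pp) (n1 := ndB1q0) (n2 := ndB2q2b) (pc := pcB2) (cut := cut_pp_022_b) (xt := Ext.none) (P1 := 0) (W1 := 536870912) (P2 := 1239849684) (W2 := 370763052) (P3 := 536870912) (W3 := 50465866) (N0 := 3) (En := eng) (mo := mog) (C1 := cd1q0) (C2 := cd2q2b) (C3 := pd2)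
    rfl (fun _ => rfl) k0_pp_022_b

noncomputable def f_pp_023 : ℕ → ℕ → ℕ → ℕ → Bool := onCell 1073741824 536870912 1610612736 536870912 536870912 50465866
    (rowB 3 eng mog cd1q0 cd2q3 pd2 2 false true true .up 0 2 3 (qsf 0 536870912 1610612736 536870912 2) ndB1q0 ndB2q3 pcB2 Cut.none Ext.none)

def k0_pp_023 : ∃ t, chk3 f_pp_023 t 1 1 1 = true :=
  ⟨(a (a (b (b (a (l 16551736) (l 16438608)) (a (l 2) (l 16669200))) (l 2)) (b (a (b (l 16320792) (l 16622040)) (b (l 16233144) (l 16580920))) (a (l 2) (l 16886032)))) (a (b (b (a (l 16194592) (l 16203936)) (l 16535904)) (b (l 16687408) (l 16731168))) (a (b (b (l 16245536) (l 16522424)) (l 16712472)) (b (b (a (l 16288520) (l 16326208)) (l 16532248)) (b (l 16669112) (l 16730368)))))), by decide +kernel⟩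

theorem c_pp_023 : CertB 0 536870912 1610612736 536870912 536870912 50465866 3 eng mog cd1q0 cd2q3 pd2 false true true .up 0 2 3
    ndB1q0 ndB2q3 pcB2 Cut.none Ext.none :=
  certB2 (fam := false) (s1 := true) (s2 := true) (a := 0) (b := 2) (c := 3) (cn := .up) (n1 := ndB1q0) (n2 := ndB2q3) (pc := pcB2) (cut := Cut.none) (xt := Ext.none) (P1 := 0) (W1 := 536870912) (P2 := 1610612736) (W2 := 536870912) (P3 := 536870912) (W3 := 50465866) (N0 := 3) (En := eng) (mo := mog) (C1 := cd1q0) (C2 := cd2q3) (C3 := pd2)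
    rfl (fun _ => rfl) k0_pp_023

noncomputable def f_pp_033 : ℕ → ℕ → ℕ → ℕ → Bool := onCell 0 536870912 1610612736 536870912 536870912 50465866
    (rowB 3 eng mog cd1q0 cd2q3 pd3 1 false true true .pnn 0 3 3 (qsf 0 536870912 1610612736 536870912 3) ndB1q0 ndB2q3 pcB3 Cut.none Ext.none)

def k0_pp_033 : ∃ t, chk3 f_pp_033 t 1 1 1 = true :=
  ⟨(a (b (b (b (a (a (l 16406056) (l 16491464)) (l 16598040)) (a (a (l 16517368) (l 16572336)) (l 16647776))) (b (a (l 16628200) (l 16690056)) (a (b (l 16676520) (l 16699160)) (l 16714576)))) (b (l 4) (a (l 4) (a (b (l 4) (l 2)) (l 2))))) (b (a (b (b (l 16692552) (l 16712776)) (b (l 16729664) (l 4))) (b (b (l 16740768) (l 16757560)) (a (b (l 16757368) (l 2)) (l 2)))) (a (b (a (b (l 4) (l 2)) (l 2)) (l 2)) (l 2)))), by decide +kernel⟩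

theorem c_pp_033 : CertB 0 536870912 1610612736 536870912 536870912 50465866 3 eng mog cd1q0 cd2q3 pd3 false true true .pnn 0 3 3
    ndB1q0 ndB2q3 pcB3 Cut.none Ext.none :=
  certB1 (fam := false) (s1 := true) (s2 := true) (a := 0) (b := 3) (c := 3) (cn := .pnn) (n1 := ndB1q0) (n2 := ndB2q3) (pc := pcB3) (cut := Cut.none) (xt := Ext.none) (P1 := 0) (W1 := 536870912) (P2 := 1610612736) (W2 := 536870912) (P3 := 536870912) (W3 := 50465866) (N0 := 3) (En := eng) (mo := mog) (C1 := cd1q0) (C2 := cd2q3) (C3 := pd3)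
    rfl (fun _ => rfl) k0_pp_033

noncomputable def f_pp_101 : ℕ → ℕ → ℕ → ℕ → Bool := onCell 536870912 536870912 536870912 536870912 536870912 50465866
    (rowB 3 eng mog cd1q1 cd2q1 pd0 0 false true true .npn 1 0 1 (qsf 536870912 536870912 536870912 536870912 0) ndB1q1 ndB2q1 pcB0 Cut.none Ext.none)

def k0_pp_101 : ∃ t, chk3 f_pp_101 t 1 1 1 = true :=
  ⟨(l 3), by decide +kernel⟩

theorem c_pp_101 : CertB 536870912 536870912 536870912 536870912 536870912 50465866 3 eng mog cd1q1 cd2q1 pd0 false true true .npn 1 0 1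
    ndB1q1 ndB2q1 pcB0 Cut.none Ext.none :=
  certB0 (fam := false) (s1 := true) (s2 := true) (a := 1) (b := 0) (c := 1) (cn := .npn) (n1 := ndB1q1) (n2 := ndB2q1) (pc := pcB0) (cut := Cut.none) (xt := Ext.none) (P1 := 536870912) (W1 := 536870912) (P2 := 536870912) (W2 := 536870912) (P3 := 536870912) (W3 := 50465866) (N0 := 3) (En := eng) (mo := mog) (C1 := cd1q1) (C2 := cd2q1) (C3 := pd0)
    rfl k0_pp_101

noncomputable def f_pp_102_a : ℕ → ℕ → ℕ → ℕ → Bool := onCell 0 536870912 0 536870912 536870912 50465866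
    (rowB 3 eng mog cd1q1 cd2q2a pd0 2 false true true .npp 1 0 2 (qsf 536870912 536870912 0 536870912 0) ndB1q1 ndB2q2a pcB0 Cut.none Ext.none)

def k0_pp_102_a : ∃ t, chk3 f_pp_102_a t 1 1 1 = true :=
  ⟨(a (l 3) (l 3)), by decide +kernel⟩

theorem c_pp_102_a : CertB 536870912 536870912 0 536870912 536870912 50465866 3 eng mog cd1q1 cd2q2a pd0 false true true .npp 1 0 2
    ndB1q1 ndB2q2a pcB0 Cut.none Ext.none :=
  certB2 (fam := false) (s1 := true) (s2 := true) (a := 1) (b := 0) (c := 2) (cn := .npp) (n1 := ndB1q1) (n2 := ndB2q2a) (pc := pcB0) (cut := Cut.none) (xt := Ext.none) (P1 := 536870912) (W1 := 536870912) (P2 := 0) (W2 := 536870912) (P3 := 536870912) (W3 := 50465866) (N0 := 3) (En := eng) (mo := mog) (C1 := cd1q1) (C2 := cd2q2a) (C3 := pd0)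
    rfl (fun _ => rfl) k0_pp_102_a

noncomputable def f_pp_102_b : ℕ → ℕ → ℕ → ℕ → Bool := onCell 536870912 536870912 0 536870912 536870912 50465866
    (rowB 3 eng mog cd1q1 cd2q2b pd0 1 false true true .npp 1 0 2 (qsf 536870912 536870912 1239849684 370763052 0) ndB1q1 ndB2q2b pcB0 Cut.none Ext.none)

def k0_pp_102_b : ∃ t, chk3 f_pp_102_b t 1 1 1 = true :=
  ⟨(l 3), by decide +kernel⟩

theorem c_pp_102_b : CertB 536870912 536870912 1239849684 370763052 536870912 50465866 3 eng mog cd1q1 cd2q2b pd0 false true true .npp 1 0 2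
    ndB1q1 ndB2q2b pcB0 Cut.none Ext.none :=
  certB1 (fam := false) (s1 := true) (s2 := true) (a := 1) (b := 0) (c := 2) (cn := .npp) (n1 := ndB1q1) (n2 := ndB2q2b) (pc := pcB0) (cut := Cut.none) (xt := Ext.none) (P1 := 536870912) (W1 := 536870912) (P2 := 1239849684) (W2 := 370763052) (P3 := 536870912) (W3 := 50465866) (N0 := 3) (En := eng) (mo := mog) (C1 := cd1q1) (C2 := cd2q2b) (C3 := pd0)
    rfl (fun _ => rfl) k0_pp_102_b

noncomputable def f_pp_112_a : ℕ → ℕ → ℕ → ℕ → Bool := onCell 536870912 536870912 0 536870912 536870912 50465866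
    (rowB 3 eng mog cd1q1 cd2q2a pd1 0 false true true .dn 1 1 2 (qsf 536870912 536870912 0 536870912 1) ndB1q1 ndB2q2a pcB1 Cut.none Ext.none)

def k0_pp_112_a : ∃ t, chk3 f_pp_112_a t 1 1 1 = true :=
  ⟨(a (b (l 3) (l 3)) (l 1)), by decide +kernel⟩

theorem c_pp_112_a : CertB 536870912 536870912 0 536870912 536870912 50465866 3 eng mog cd1q1 cd2q2a pd1 false true true .dn 1 1 2
    ndB1q1 ndB2q2a pcB1 Cut.none Ext.none :=
  certB0 (fam := false) (s1 := true) (s2 := true) (a := 1) (b := 1) (c := 2) (cn := .dn) (n1 := ndB1q1) (n2 := ndB2q2a) (pc := pcB1) (cut := Cut.none) (xt := Ext.none) (P1 := 536870912) (W1 := 536870912) (P2 := 0) (W2 := 536870912) (P3 := 536870912) (W3 := 50465866) (N0 := 3) (En := eng) (mo := mog) (C1 := cd1q1) (C2 := cd2q2a) (C3 := pd1)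
    rfl k0_pp_112_a

noncomputable def f_pp_112_b : ℕ → ℕ → ℕ → ℕ → Bool := onCell 536870912 536870912 536870912 536870912 536870912 50465866
    (rowB 3 eng mog cd1q1 cd2q2b pd1 1 false true true .dn 1 1 2 (qsf 536870912 536870912 1239849684 370763052 1) ndB1q1 ndB2q2b pcB1 Cut.none Ext.none)

def k0_pp_112_b : ∃ t, chk3 f_pp_112_b t 1 1 1 = true :=
  ⟨(b (b (l 3) (a (b (l 3) (a (b (l 3) (a (l 136533096711) (l 3))) (l 3))) (l 3))) (b (a (a (b (b (a (l 16769032) (l 96267878871)) (a (l 16750680) (l 16823840))) (a (b (l 16727864) (l 16702056)) (b (l 16823440) (l 16821032)))) (b (b (a (l 188072927335) (l 3)) (a (l 124722145671) (l 169819483191))) (b (a (l 16981232) (l 17079152)) (a (l 16953288) (l 2))))) (b (a (l 3) (l 2)) (l 2))) (a (b (a (a (l 16659448) (l 16801896)) (b (a (l 16931912) (l 2)) (l 2))) (a (b (l 16695968) (l 16681368)) (l 2))) (l 2)))), by decide +kernel⟩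

theorem c_pp_112_b : CertB 536870912 536870912 1239849684 370763052 536870912 50465866 3 eng mog cd1q1 cd2q2b pd1 false true true .dn 1 1 2
    ndB1q1 ndB2q2b pcB1 Cut.none Ext.none :=
  certB1 (fam := false) (s1 := true) (s2 := true) (a := 1) (b := 1) (c := 2) (cn := .dn) (n1 := ndB1q1) (n2 := ndB2q2b) (pc := pcB1) (cut := Cut.none) (xt := Ext.none) (P1 := 536870912) (W1 := 536870912) (P2 := 1239849684) (W2 := 370763052) (P3 := 536870912) (W3 := 50465866) (N0 := 3) (En := eng) (mo := mog) (C1 := cd1q1) (C2 := cd2q2b) (C3 := pd1)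
    rfl (fun _ => rfl) k0_pp_112_b

noncomputable def f_pp_113 : ℕ → ℕ → ℕ → ℕ → Bool := onCell 536870912 536870912 536870912 536870912 536870912 50465866
    (rowB 3 eng mog cd1q1 cd2q3 pd1 1 false true true .nn 1 1 3 (qsf 536870912 536870912 1610612736 536870912 1) ndB1q1 ndB2q3 pcB1 Cut.none Ext.none)

def k0_pp_113 : ∃ t, chk3 f_pp_113 t 1 1 1 = true :=
  ⟨(b (a (a (l 1) (l 3)) (l 3)) (b (a (b (a (l 1) (b (a (l 1) (l 3)) (a (l 16955552) (l 206863500023)))) (a (a (l 1) (l 158410554295)) (b (a (l 17003072) (l 17125088)) (a (l 16991064) (l 17079304))))) (b (a (l 3) (l 3)) (a (b (a (l 17067920) (l 3)) (a (l 17104208) (l 17020112))) (a (l 3) (l 3))))) (a (b (a (a (l 16673984) (l 16837448)) (b (a (l 16970408) (l 17045144)) (l 16988032))) (a (l 101501785063) (l 16833288))) (b (a (b (a (l 17057280) (l 17050216)) (l 17056720)) (b (a (l 315848221063) (l 401210568567)) (a (l 16961552) (l 289004661927)))) (a (b (l 16980960) (l 16951112)) (a (b (l 16928176)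 (l 16889736)) (b (l 16861240) (l 16830736)))))))), by decide +kernel⟩

theorem c_pp_113 : CertB 536870912 536870912 1610612736 536870912 536870912 50465866 3 eng mog cd1q1 cd2q3 pd1 false true true .nn 1 1 3
    ndB1q1 ndB2q3 pcB1 Cut.none Ext.none :=
  certB1 (fam := false) (s1 := true) (s2 := true) (a := 1) (b := 1) (c := 3) (cn := .nn) (n1 := ndB1q1) (n2 := ndB2q3) (pc := pcB1) (cut := Cut.none) (xt := Ext.none) (P1 := 536870912) (W1 := 536870912) (P2 := 1610612736) (W2 := 536870912) (P3 := 536870912) (W3 := 50465866) (N0 := 3) (En := eng) (mo := mog) (C1 := cd1q1) (C2 := cd2q3) (C3 := pd1)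
    rfl (fun _ => rfl) k0_pp_113

noncomputable def f_pp_123 : ℕ → ℕ → ℕ → ℕ → Bool := onCell 536870912 536870912 1073741824 536870912 536870912 50465866
    (rowB 3 eng mog cd1q1 cd2q3 pd2 1 false true true .npn 1 2 3 (qsf 536870912 536870912 1610612736 536870912 2) ndB1q1 ndB2q3 pcB2 Cut.none Ext.none)

def k0_pp_123 : ∃ t, chk3 f_pp_123 t 1 1 1 = true :=
  ⟨(a (b (b (a (b (l 16697288) (l 16710440)) (b (l 16907616) (l 16843672))) (a (b (l 16707712) (l 16716056)) (b (l 16792216) (l 16764952)))) (b (a (l 16731640) (l 16698928)) (a (b (l 16743856) (l 16747632)) (a (b (l 16734816) (l 2)) (l 2))))) (b (b (a (b (l 16895072) (l 16815736)) (b (l 16799640) (l 16879168))) (a (b (b (l 16756248) (l 16720344)) (l 16678224)) (a (b (b (l 16676008) (l 2)) (l 2)) (l 2)))) (a (b (a (b (l 16715808) (l 2)) (l 2)) (l 2)) (l 2)))), by decide +kernel⟩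

theorem c_pp_123 : CertB 536870912 536870912 1610612736 536870912 536870912 50465866 3 eng mog cd1q1 cd2q3 pd2 false true true .npn 1 2 3
    ndB1q1 ndB2q3 pcB2 Cut.none Ext.none :=
  certB1 (fam := false) (s1 := true) (s2 := true) (a := 1) (b := 2) (c := 3) (cn := .npn) (n1 := ndB1q1) (n2 := ndB2q3) (pc := pcB2) (cut := Cut.none) (xt := Ext.none) (P1 := 536870912) (W1 := 536870912) (P2 := 1610612736) (W2 := 536870912) (P3 := 536870912) (W3 := 50465866) (N0 := 3) (En := eng) (mo := mog) (C1 := cd1q1) (C2 := cd2q3) (C3 := pd2)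
    rfl (fun _ => rfl) k0_pp_123

noncomputable def f_pp_133 : ℕ → ℕ → ℕ → ℕ → Bool := onCell 1610612736 536870912 1610612736 536870912 536870912 50465866
    (rowB 3 eng mog cd1q1 cd2q3 pd3 2 false true true .dn 1 3 3 (qsf 536870912 536870912 1610612736 536870912 3) ndB1q1 ndB2q3 pcB3 Cut.none Ext.none)

def k0_pp_133 : ∃ t, chk3 f_pp_133 t 1 1 1 = true :=
  ⟨(a (b (l 1) (a (a (l 379064810215) (l 1)) (l 1))) (l 1)), by decide +kernel⟩

theorem c_pp_133 : CertB 536870912 536870912 1610612736 536870912 536870912 50465866 3 eng mog cd1q1 cd2q3 pd3 false true true .dn 1 3 3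
    ndB1q1 ndB2q3 pcB3 Cut.none Ext.none :=
  certB2 (fam := false) (s1 := true) (s2 := true) (a := 1) (b := 3) (c := 3) (cn := .dn) (n1 := ndB1q1) (n2 := ndB2q3) (pc := pcB3) (cut := Cut.none) (xt := Ext.none) (P1 := 536870912) (W1 := 536870912) (P2 := 1610612736) (W2 := 536870912) (P3 := 536870912) (W3 := 50465866) (N0 := 3) (En := eng) (mo := mog) (C1 := cd1q1) (C2 := cd2q3) (C3 := pd3)
    rfl (fun _ => rfl) k0_pp_133

noncomputable def f_pp_202_aa : ℕ → ℕ → ℕ → ℕ → Bool := onCell 0 536870912 0 536870912 536870912 50465866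
    (rowB 3 eng mog cd1q2a cd2q2a pd0 0 false true true .pp 2 0 2 (qsf 0 536870912 0 536870912 0) ndB1q2a ndB2q2a pcB0 Cut.none Ext.none)

def k0_pp_202_aa : ∃ t, chk3 f_pp_202_aa t 1 1 1 = true :=
  ⟨(l 3), by decide +kernel⟩

theorem c_pp_202_aa : CertB 0 536870912 0 536870912 536870912 50465866 3 eng mog cd1q2a cd2q2a pd0 false true true .pp 2 0 2
    ndB1q2a ndB2q2a pcB0 Cut.none Ext.none :=
  certB0 (fam := false) (s1 := true) (s2 := true) (a := 2) (b := 0) (c := 2) (cn := .pp) (n1 := ndB1q2a) (n2 := ndB2q2a) (pc := pcB0) (cut := Cut.none) (xt := Ext.none) (P1 := 0) (W1 := 536870912) (P2 := 0) (W2 := 536870912) (P3 := 536870912) (W3 := 50465866) (N0 := 3) (En := eng) (mo := mog) (C1 := cd1q2a) (C2 := cd2q2a) (C3 := pd0)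
    rfl k0_pp_202_aa

noncomputable def f_pp_202_ab : ℕ → ℕ → ℕ → ℕ → Bool := onCell 0 536870912 1239849684 370763052 536870912 50465866
    (rowB 3 eng mog cd1q2a cd2q2b pd0 0 false true true .pp 2 0 2 (qsf 0 536870912 1239849684 370763052 0) ndB1q2a ndB2q2b pcB0 Cut.none Ext.none)

def k0_pp_202_ab : ∃ t, chk3 f_pp_202_ab t 1 1 1 = true :=
  ⟨(l 3), by decide +kernel⟩

theorem c_pp_202_ab : CertB 0 536870912 1239849684 370763052 536870912 50465866 3 eng mog cd1q2a cd2q2b pd0 false true true .pp 2 0 2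
    ndB1q2a ndB2q2b pcB0 Cut.none Ext.none :=
  certB0 (fam := false) (s1 := true) (s2 := true) (a := 2) (b := 0) (c := 2) (cn := .pp) (n1 := ndB1q2a) (n2 := ndB2q2b) (pc := pcB0) (cut := Cut.none) (xt := Ext.none) (P1 := 0) (W1 := 536870912) (P2 := 1239849684) (W2 := 370763052) (P3 := 536870912) (W3 := 50465866) (N0 := 3) (En := eng) (mo := mog) (C1 := cd1q2a) (C2 := cd2q2b) (C3 := pd0)
    rfl k0_pp_202_ab

noncomputable def f_pp_202_ba : ℕ → ℕ → ℕ → ℕ → Bool := onCell 1239849684 370763052 0 536870912 536870912 50465866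
    (rowB 3 eng mog cd1q2b cd2q2a pd0 0 false true true .pp 2 0 2 (qsf 1239849684 370763052 0 536870912 0) ndB1q2b ndB2q2a pcB0 Cut.none Ext.none)

def k0_pp_202_ba : ∃ t, chk3 f_pp_202_ba t 1 1 1 = true :=
  ⟨(l 3), by decide +kernel⟩

theorem c_pp_202_ba : CertB 1239849684 370763052 0 536870912 536870912 50465866 3 eng mog cd1q2b cd2q2a pd0 false true true .pp 2 0 2
    ndB1q2b ndB2q2a pcB0 Cut.none Ext.none :=
  certB0 (fam := false) (s1 := true) (s2 := true) (a := 2) (b := 0) (c := 2) (cn := .pp) (n1 := ndB1q2b) (n2 := ndB2q2a) (pc := pcB0) (cut := Cut.none) (xt := Ext.none) (P1 := 1239849684) (W1 := 370763052) (P2 := 0) (W2 := 536870912) (P3 := 536870912) (W3 := 50465866) (N0 := 3) (En := eng) (mo := mog) (C1 := cd1q2b) (C2 := cd2q2a) (C3 := pd0)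
    rfl k0_pp_202_ba

noncomputable def f_pp_202_bb : ℕ → ℕ → ℕ → ℕ → Bool := onCell 1239849684 370763052 1239849684 370763052 536870912 50465866
    (rowB 3 eng mog cd1q2b cd2q2b pd0 0 false true true .pp 2 0 2 (qsf 1239849684 370763052 1239849684 370763052 0) ndB1q2b ndB2q2b pcB0 Cut.none Ext.none)

def k0_pp_202_bb : ∃ t, chk3 f_pp_202_bb t 1 1 1 = true :=
  ⟨(l 3), by decide +kernel⟩

theorem c_pp_202_bb : CertB 1239849684 370763052 1239849684 370763052 536870912 50465866 3 eng mog cd1q2b cd2q2b pd0 false true true .pp 2 0 2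
    ndB1q2b ndB2q2b pcB0 Cut.none Ext.none :=
  certB0 (fam := false) (s1 := true) (s2 := true) (a := 2) (b := 0) (c := 2) (cn := .pp) (n1 := ndB1q2b) (n2 := ndB2q2b) (pc := pcB0) (cut := Cut.none) (xt := Ext.none) (P1 := 1239849684) (W1 := 370763052) (P2 := 1239849684) (W2 := 370763052) (P3 := 536870912) (W3 := 50465866) (N0 := 3) (En := eng) (mo := mog) (C1 := cd1q2b) (C2 := cd2q2b) (C3 := pd0)
    rfl k0_pp_202_bb

noncomputable def f_pp_203_a : ℕ → ℕ → ℕ → ℕ → Bool := onCell 0 536870912 0 536870912 536870912 50465866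
    (rowB 3 eng mog cd1q2a cd2q3 pd0 1 false true true .up 2 0 3 (qsf 0 536870912 1610612736 536870912 0) ndB1q2a ndB2q3 pcB0 Cut.none Ext.none)

def k0_pp_203_a : ∃ t, chk3 f_pp_203_a t 1 1 1 = true :=
  ⟨(l 3), by decide +kernel⟩

theorem c_pp_203_a : CertB 0 536870912 1610612736 536870912 536870912 50465866 3 eng mog cd1q2a cd2q3 pd0 false true true .up 2 0 3
    ndB1q2a ndB2q3 pcB0 Cut.none Ext.none :=
  certB1 (fam := false) (s1 := true) (s2 := true) (a := 2) (b := 0) (c := 3) (cn := .up) (n1 := ndB1q2a) (n2 := ndB2q3) (pc := pcB0) (cut := Cut.none) (xt := Ext.none) (P1 := 0) (W1 := 536870912) (P2 := 1610612736) (W2 := 536870912) (P3 := 536870912) (W3 := 50465866) (N0 := 3) (En := eng) (mo := mog) (C1 := cd1q2a) (C2 := cd2q3) (C3 := pd0)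
    rfl (fun _ => rfl) k0_pp_203_a

noncomputable def f_pp_203_b : ℕ → ℕ → ℕ → ℕ → Bool := onCell 1239849684 370763052 1610612736 536870912 536870912 50465866
    (rowB 3 eng mog cd1q2b cd2q3 pd0 0 false true true .up 2 0 3 (qsf 1239849684 370763052 1610612736 536870912 0) ndB1q2b ndB2q3 pcB0 Cut.none Ext.none)

def k0_pp_203_b : ∃ t, chk3 f_pp_203_b t 1 1 1 = true :=
  ⟨(l 3), by decide +kernel⟩

theorem c_pp_203_b : CertB 1239849684 370763052 1610612736 536870912 536870912 50465866 3 eng mog cd1q2b cd2q3 pd0 false true true .up 2 0 3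
    ndB1q2b ndB2q3 pcB0 Cut.none Ext.none :=
  certB0 (fam := false) (s1 := true) (s2 := true) (a := 2) (b := 0) (c := 3) (cn := .up) (n1 := ndB1q2b) (n2 := ndB2q3) (pc := pcB0) (cut := Cut.none) (xt := Ext.none) (P1 := 1239849684) (W1 := 370763052) (P2 := 1610612736) (W2 := 536870912) (P3 := 536870912) (W3 := 50465866) (N0 := 3) (En := eng) (mo := mog) (C1 := cd1q2b) (C2 := cd2q3) (C3 := pd0)
    rfl k0_pp_203_b

noncomputable def cut_pp_213_a : Cut := Cut.of [[⟨0, 1, 0, 67108864⟩, ⟨1, 1, 0, 67108864⟩, ⟨2, 2, 0, 16777216⟩]]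

noncomputable def f_pp_213_a : ℕ → ℕ → ℕ → ℕ → Bool := onCell 0 536870912 1610612736 536870912 536870912 50465866
    (rowB 3 eng mog cd1q2a cd2q3 pd1 0 false true true .pnn 2 1 3 (qsf 0 536870912 1610612736 536870912 1) ndB1q2a ndB2q3 pcB1 cut_pp_213_a Ext.none)

def k0_pp_213_a : ∃ t, chk3 f_pp_213_a t 1 1 1 = true :=
  ⟨(b (l 3) (a (l 3) (b (l 3) (a (l 3) (b (l 3) (a (l 3) (b (l 3) (b (l 3) (b (l 3) (l 6)))))))))), by decide +kernel⟩

theorem c_pp_213_a : CertB 0 536870912 1610612736 536870912 536870912 50465866 3 eng mog cd1q2a cd2q3 pd1 false true true .pnn 2 1 3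
    ndB1q2a ndB2q3 pcB1 cut_pp_213_a Ext.none :=
  certB0 (fam := false) (s1 := true) (s2 := true) (a := 2) (b := 1) (c := 3) (cn := .pnn) (n1 := ndB1q2a) (n2 := ndB2q3) (pc := pcB1) (cut := cut_pp_213_a) (xt := Ext.none) (P1 := 0) (W1 := 536870912) (P2 := 1610612736) (W2 := 536870912) (P3 := 536870912) (W3 := 50465866) (N0 := 3) (En := eng) (mo := mog) (C1 := cd1q2a) (C2 := cd2q3) (C3 := pd1)
    rfl k0_pp_213_a

noncomputable def cut_pp_213_b : Cut := Cut.of [[⟨0, 1, 0, 67108864⟩, ⟨1, 1, 0, 67108864⟩, ⟨2, 2, 0, 16777216⟩]]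

noncomputable def f_pp_213_b : ℕ → ℕ → ℕ → ℕ → Bool := onCell 1239849684 370763052 1610612736 536870912 536870912 50465866
    (rowB 3 eng mog cd1q2b cd2q3 pd1 0 false true true .pnn 2 1 3 (qsf 1239849684 370763052 1610612736 536870912 1) ndB1q2b ndB2q3 pcB1 cut_pp_213_b Ext.none)

def k0_pp_213_b : ∃ t, chk3 f_pp_213_b t 1 1 1 = true :=
  ⟨(l 3), by decide +kernel⟩

theorem c_pp_213_b : CertB 1239849684 370763052 1610612736 536870912 536870912 50465866 3 eng mog cd1q2b cd2q3 pd1 false true true .pnn 2 1 3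
    ndB1q2b ndB2q3 pcB1 cut_pp_213_b Ext.none :=
  certB0 (fam := false) (s1 := true) (s2 := true) (a := 2) (b := 1) (c := 3) (cn := .pnn) (n1 := ndB1q2b) (n2 := ndB2q3) (pc := pcB1) (cut := cut_pp_213_b) (xt := Ext.none) (P1 := 1239849684) (W1 := 370763052) (P2 := 1610612736) (W2 := 536870912) (P3 := 536870912) (W3 := 50465866) (N0 := 3) (En := eng) (mo := mog) (C1 := cd1q2b) (C2 := cd2q3) (C3 := pd1)
    rfl k0_pp_213_b

noncomputable def f_pp_303 : ℕ → ℕ → ℕ → ℕ → Bool := onCell 1610612736 536870912 1610612736 536870912 536870912 50465866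
    (rowB 3 eng mog cd1q3 cd2q3 pd0 0 false true true .npn 3 0 3 (qsf 1610612736 536870912 1610612736 536870912 0) ndB1q3 ndB2q3 pcB0 Cut.none Ext.none)

def k0_pp_303 : ∃ t, chk3 f_pp_303 t 1 1 1 = true :=
  ⟨(l 3), by decide +kernel⟩

theorem c_pp_303 : CertB 1610612736 536870912 1610612736 536870912 536870912 50465866 3 eng mog cd1q3 cd2q3 pd0 false true true .npn 3 0 3
    ndB1q3 ndB2q3 pcB0 Cut.none Ext.none :=
  certB0 (fam := false) (s1 := true) (s2 := true) (a := 3) (b := 0) (c := 3) (cn := .npn) (n1 := ndB1q3) (n2 := ndB2q3) (pc := pcB0) (cut := Cut.none) (xt := Ext.none) (P1 := 1610612736) (W1 := 536870912) (P2 := 1610612736) (W2 := 536870912) (P3 := 536870912) (W3 := 50465866) (N0 := 3) (En := eng) (mo := mog) (C1 := cd1q3) (C2 := cd2q3) (C3 := pd0)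
    rfl k0_pp_303

noncomputable def f_pp_313 : ℕ → ℕ → ℕ → ℕ → Bool := onCell 1610612736 536870912 1610612736 536870912 536870912 50465866
    (rowB 3 eng mog cd1q3 cd2q3 pd1 0 false true true .dn 3 1 3 (qsf 1610612736 536870912 1610612736 536870912 1) ndB1q3 ndB2q3 pcB1 Cut.none Ext.none)

def k0_pp_313 : ∃ t, chk3 f_pp_313 t 1 1 1 = true :=
  ⟨(l 3), by decide +kernel⟩

theorem c_pp_313 : CertB 1610612736 536870912 1610612736 536870912 536870912 50465866 3 eng mog cd1q3 cd2q3 pd1 false true true .dn 3 1 3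
    ndB1q3 ndB2q3 pcB1 Cut.none Ext.none :=
  certB0 (fam := false) (s1 := true) (s2 := true) (a := 3) (b := 1) (c := 3) (cn := .dn) (n1 := ndB1q3) (n2 := ndB2q3) (pc := pcB1) (cut := Cut.none) (xt := Ext.none) (P1 := 1610612736) (W1 := 536870912) (P2 := 1610612736) (W2 := 536870912) (P3 := 536870912) (W3 := 50465866) (N0 := 3) (En := eng) (mo := mog) (C1 := cd1q3) (C2 := cd2q3) (C3 := pd1)
    rfl k0_pp_313

noncomputable def f_pm_001 : ℕ → ℕ → ℕ → ℕ → Bool := onCell 0 536870912 536870912 536870912 536870912 50465866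
    (rowB 3 eng mog cd1q0 cd2q1 pd0 0 false true false .up 0 0 1 (qsf 0 536870912 536870912 536870912 0) ndB1q0 ndB2q1 pcB0 Cut.none Ext.none)

def k0_pm_001 : ∃ t, chk3 f_pm_001 t 1 1 1 = true :=
  ⟨(l 4), by decide +kernel⟩

theorem c_pm_001 : CertB 0 536870912 536870912 536870912 536870912 50465866 3 eng mog cd1q0 cd2q1 pd0 false true false .up 0 0 1
    ndB1q0 ndB2q1 pcB0 Cut.none Ext.none :=
  certB0 (fam := false) (s1 := true) (s2 := false) (a := 0) (b := 0) (c := 1) (cn := .up) (n1 := ndB1q0) (n2 := ndB2q1) (pc := pcB0) (cut := Cut.none) (xt := Ext.none) (P1 := 0) (W1 := 536870912) (P2 := 536870912) (W2 := 536870912) (P3 := 536870912) (W3 := 50465866) (N0 := 3) (En := eng) (mo := mog) (C1 := cd1q0) (C2 := cd2q1) (C3 := pd0)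
    rfl k0_pm_001

noncomputable def f_pm_011 : ℕ → ℕ → ℕ → ℕ → Bool := onCell 0 536870912 536870912 536870912 536870912 50465866
    (rowB 3 eng mog cd1q0 cd2q1 pd1 0 false true false .pnn 0 1 1 (qsf 0 536870912 536870912 536870912 1) ndB1q0 ndB2q1 pcB1 Cut.none Ext.none)

def k0_pm_011 : ∃ t, chk3 f_pm_011 t 1 1 1 = true :=
  ⟨(l 4), by decide +kernel⟩

theorem c_pm_011 : CertB 0 536870912 536870912 536870912 536870912 50465866 3 eng mog cd1q0 cd2q1 pd1 false true false .pnn 0 1 1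
    ndB1q0 ndB2q1 pcB1 Cut.none Ext.none :=
  certB0 (fam := false) (s1 := true) (s2 := false) (a := 0) (b := 1) (c := 1) (cn := .pnn) (n1 := ndB1q0) (n2 := ndB2q1) (pc := pcB1) (cut := Cut.none) (xt := Ext.none) (P1 := 0) (W1 := 536870912) (P2 := 536870912) (W2 := 536870912) (P3 := 536870912) (W3 := 50465866) (N0 := 3) (En := eng) (mo := mog) (C1 := cd1q0) (C2 := cd2q1) (C3 := pd1)
    rfl k0_pm_011

noncomputable def cut_pm_012_a : Cut := Cut.of [[⟨0, 0, 0, 67108864⟩, ⟨1, 1, 0, 67108864⟩, ⟨2, 1, 0, 67108864⟩]]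

noncomputable def f_pm_012_a : ℕ → ℕ → ℕ → ℕ → Bool := onCell 536870912 536870912 0 536870912 536870912 50465866
    (rowB 3 eng mog cd1q0 cd2q2a pd1 2 false true false .pnp 0 1 2 (qsf 0 536870912 0 536870912 1) ndB1q0 ndB2q2a pcB1 cut_pm_012_a Ext.none)

def k0_pm_012_a : ∃ t, chk3 f_pm_012_a t 2 1 1 = true :=
  ⟨(a (b (b (l 2) (a (l 2) (l 16510344))) (b (a (l 2) (b (l 16452032) (l 16364984))) (a (a (b (l 2) (l 16447384)) (b (l 16436056) (l 16411360))) (b (l 16448280) (a (l 16382272) (l 16362264)))))) (b (a (b (a (l 16556320) (l 16683712)) (a (l 16517912) (b (l 16541112) (l 16515912)))) (b (l 16560984) (b (l 16525944) (l 16505104)))) (b (a (a (b (l 16468048) (l 16433192)) (b (l 16487672) (l 16545352))) (b (l 16482960) (l 16466280))) (a (b (a (l 16427592) (a (l 16438536) (l 16450376))) (a (l 16442568) (b (l 16507512) (l 16536208)))) (b (b (l 16460512) (l 16464192)) (b (l 16515984) (l 16490520))))))), by decide +kernel⟩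

def k1_pm_012_a : ∃ t, chk3 f_pm_012_a t 3 1 1 = true :=
  ⟨(b (a (b (a (b (l 16516824) (l 16506296)) (a (l 16490064) (l 16476440))) (a (b (l 16501944) (l 16508296)) (b (l 16478624) (a (l 16475384) (l 16468480))))) (a (b (a (l 16463120) (b (l 16452416) (l 16448584))) (b (a (l 16462480) (l 16453664)) (a (l 16462632) (l 16459144)))) (b (a (b (l 16442184) (l 16439904)) (b (l 16433480) (l 16432608))) (a (b (b (l 16445128) (l 16448880)) (l 16457192)) (b (b (l 16438808) (l 16444256)) (a (l 16456376) (l 16456216))))))) (a (b (a (b (l 16475104) (a (l 16469976) (l 16474208))) (b (a (l 16471760) (l 16470688)) (a (l 16479384) (l 16486248)))) (b (a (a (l 16478776) (l 16491336)) (a (l 16547736) (l 16585008))) (a (b (l 16510872) (l 16600840)) (a (l 16623704) (b (l 16587624) (l 16627568)))))) (b (a (a (b (l 16471592) (l 16495272)) (b (l 16474600) (l 16526704))) (b (a (l 16499728) (a (l 16482640) (b (l 16476168) (l 16495400)))) (a (b (l 16505240) (l 16529792)) (a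 (b (l 16513472) (l 16541560)) (b (l 16519888) (l 16550064)))))) (a (b (a (b (l 16525352) (l 16554400)) (b (l 16542128) (l 16617560))) (b (a (l 16590872) (l 16659000)) (a (b (l 16623320) (l 16670784)) (b (l 16653368) (b (l 16674160) (l 16688640)))))) (b (a (b (a (l 16555688) (l 16565624)) (a (l 16592936) (l 16605128))) (b (a (l 16575984) (a (l 16583728) (l 16588856))) (a (b (l 16606064) (l 16628480)) (a (l 16626296) (l 16668976))))) (b (a (a (l 16637920) (b (l 16639264) (l 16664536))) (a (b (l 16673664) (l 6)) (l 6))) (a (a (b (l 16676512) (a (l 16701088) (l 16709024))) (b (l 16702256) (l 6))) (l 6)))))))), by decide +kernel⟩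

theorem s2_pm_012_a : ∃ t, chk3 f_pm_012_a t 1 1 1 = true := ex3_a k0_pm_012_a k1_pm_012_a

theorem c_pm_012_a : CertB 0 536870912 0 536870912 536870912 50465866 3 eng mog cd1q0 cd2q2a pd1 false true false .pnp 0 1 2
    ndB1q0 ndB2q2a pcB1 cut_pm_012_a Ext.none :=
  certB2 (fam := false) (s1 := true) (s2 := false) (a := 0) (b := 1) (c := 2) (cn := .pnp) (n1 := ndB1q0) (n2 := ndB2q2a) (pc := pcB1) (cut := cut_pm_012_a) (xt := Ext.none) (P1 := 0) (W1 := 536870912) (P2 := 0) (W2 := 536870912) (P3 := 536870912) (W3 := 50465866) (N0 := 3) (En := eng) (mo := mog) (C1 := cd1q0) (C2 := cd2q2a) (C3 := pd1)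
    rfl (fun _ => rfl) s2_pm_012_a

noncomputable def cut_pm_012_b : Cut := Cut.of [[⟨0, 0, 0, 67108864⟩, ⟨1, 1, 0, 67108864⟩, ⟨2, 1, 0, 67108864⟩]]

noncomputable def f_pm_012_b : ℕ → ℕ → ℕ → ℕ → Bool := onCell 536870912 536870912 1239849684 370763052 536870912 50465866
    (rowB 3 eng mog cd1q0 cd2q2b pd1 2 false true false .pnp 0 1 2 (qsf 0 536870912 1239849684 370763052 1) ndB1q0 ndB2q2b pcB1 cut_pm_012_b Ext.none)

def k0_pm_012_b : ∃ t, chk3 f_pm_012_b t 1 1 1 = true :=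
  ⟨(a (a (l 2) (b (a (b (a (l 16612376) (b (l 16587752) (l 2))) (l 2)) (b (b (l 16564240) (l 16583784)) (l 16629136))) (l 2))) (b (a (b (a (b (l 16527856) (l 16537400)) (b (a (l 16498200) (l 16478432)) (l 16484720))) (a (l 16572464) (a (l 16523032) (l 16486984)))) (a (b (b (a (l 16459032) (l 16440000)) (l 16428648)) (b (l 16424536) (l 16436672))) (a (b (b (l 16422552) (l 16386288)) (l 16367000)) (b (b (a (l 16410720) (l 16403504)) (l 16359104)) (l 16387824))))) (a (b (a (l 2) (l 16577296)) (l 2)) (a (b (l 16484280) (l 16596432)) (b (a (l 16404064) (l 16346480)) (l 16475528)))))), by decide +kernel⟩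

theorem c_pm_012_b : CertB 0 536870912 1239849684 370763052 536870912 50465866 3 eng mog cd1q0 cd2q2b pd1 false true false .pnp 0 1 2
    ndB1q0 ndB2q2b pcB1 cut_pm_012_b Ext.none :=
  certB2 (fam := false) (s1 := true) (s2 := false) (a := 0) (b := 1) (c := 2) (cn := .pnp) (n1 := ndB1q0) (n2 := ndB2q2b) (pc := pcB1) (cut := cut_pm_012_b) (xt := Ext.none) (P1 := 0) (W1 := 536870912) (P2 := 1239849684) (W2 := 370763052) (P3 := 536870912) (W3 := 50465866) (N0 := 3) (En := eng) (mo := mog) (C1 := cd1q0) (C2 := cd2q2b) (C3 := pd1)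
    rfl (fun _ => rfl) k0_pm_012_b

noncomputable def cut_pm_022_a : Cut := Cut.of [[⟨0, 0, 0, 67108864⟩, ⟨1, 1, 0, 67108864⟩, ⟨2, 1, 0, 67108864⟩]]

noncomputable def f_pm_022_a : ℕ → ℕ → ℕ → ℕ → Bool := onCell 1073741824 536870912 0 536870912 536870912 50465866
    (rowB 3 eng mog cd1q0 cd2q2a pd2 2 false true false .pp 0 2 2 (qsf 0 536870912 0 536870912 2) ndB1q0 ndB2q2a pcB2 cut_pm_022_a Ext.none)

def k0_pm_022_a : ∃ t, chk3 f_pm_022_a t 1 1 1 = true :=
  ⟨(a (b (a (a (b (b (a (l 16432184) (l 16438624)) (a (l 16432912) (l 16442752))) (a (b (b (l 16440320) (l 16447464)) (a (l 16458792) (l 16468032))) (b (l 16499728) (l 16523616)))) (b (b (a (l 16445872) (l 16451040)) (a (l 16452776) (l 16460208))) (b (a (l 16491640) (a (l 16478272) (l 16503192))) (a (b (l 16489040) (l 16505480)) (a (l 16548608) (l 16532568)))))) (a (b (a (b (l 16453024) (l 16495504)) (a (l 412349972647) (l 1))) (a (b (a (l 16485104) (l 148209444871)) (a (l 193306649367) (l 1)))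 (l 1))) (l 1))) (a (b (a (a (b (a (l 16513016) (l 16503704)) (b (l 16577376) (a (l 16560512) (l 16574336)))) (b (b (l 16508128) (l 16552424)) (a (b (l 16553928) (l 16608168)) (b (l 16565096) (l 16599040))))) (b (a (b (l 16599200) (l 16581896)) (b (a (l 16536392) (l 160557587591)) (a (l 136398394247) (l 1)))) (a (b (a (l 16575224) (a (l 16582080) (l 33856133383))) (a (a (l 16607184) (c (l 250215075895) (l 240014534215))) (b (l 410202599975) (l 1)))) (b (a (l 432751145159) (l 1)) (l 1))))) (a (b (a (b (a (l 16619272) (a (l 16609352) (l 16637376))) (l 6)) (b (a (l 16668432) (b (l 16649168) (a (l 16646776) (b (l 198138701031) (l 410739565479))))) (a (l 6) (a (l 6) (a (l 6) (l 1)))))) (a (l 6) (a (l 6) (l 1)))) (b (b (a (a (a (b (b (l 16632072) (l 165389597319)) (l 449931143191)) (l 528851094471)) (l 1)) (l 1)) (l 1)) (l 1)))) (b (l 1) (l 1)))) (l 1)), by decide +kernel⟩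

theorem c_pm_022_a : CertB 0 536870912 0 536870912 536870912 50465866 3 eng mog cd1q0 cd2q2a pd2 false true false .pp 0 2 2
    ndB1q0 ndB2q2a pcB2 cut_pm_022_a Ext.none :=
  certB2 (fam := false) (s1 := true) (s2 := false) (a := 0) (b := 2) (c := 2) (cn := .pp) (n1 := ndB1q0) (n2 := ndB2q2a) (pc := pcB2) (cut := cut_pm_022_a) (xt := Ext.none) (P1 := 0) (W1 := 536870912) (P2 := 0) (W2 := 536870912) (P3 := 536870912) (W3 := 50465866) (N0 := 3) (En := eng) (mo := mog) (C1 := cd1q0) (C2 := cd2q2a) (C3 := pd2)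
    rfl (fun _ => rfl) k0_pm_022_a

noncomputable def cut_pm_022_b : Cut := Cut.of [[⟨0, 0, 0, 67108864⟩, ⟨1, 1, 0, 67108864⟩, ⟨2, 1, 0, 67108864⟩]]

noncomputable def f_pm_022_b : ℕ → ℕ → ℕ → ℕ → Bool := onCell 1073741824 536870912 1239849684 370763052 536870912 50465866
    (rowB 3 eng mog cd1q0 cd2q2b pd2 2 false true false .pp 0 2 2 (qsf 0 536870912 1239849684 370763052 2) ndB1q0 ndB2q2b pcB2 cut_pm_022_b Ext.none)

def k0_pm_022_b : ∃ t, chk3 f_pm_022_b t 1 1 1 = true :=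
  ⟨(a (a (b (b (b (a (a (l 16401672) (l 16405432)) (a (l 16408312) (l 16411192))) (a (l 16347280) (l 16387480))) (a (b (l 16308832) (l 16289240)) (b (l 16298976) (l 16269416)))) (b (a (b (l 16288912) (l 16307464)) (b (l 16257376) (l 16263368))) (a (l 16369968) (l 16409352)))) (b (b (a (a (a (l 16438472) (l 16459088)) (b (b (l 200822720903) (l 16431136)) (l 16378680))) (b (a (l 442414480615) (l 1)) (a (l 16410600) (l 357588709847)))) (a (a (l 16288464) (b (l 16318200) (l 16234672))) (b (l 16391776) (l 16239216)))) (a (b (a (l 16229480) (l 16208104)) (a (l 16257552) (l 16226440))) (b (b (l 16188696) (l 16157600)) (l 16172632))))) (b (a (b (l 1) (a (b (a (l 279205591607) (l 344166818839)) (a (l 16161504) (l 266857349063))) (b (l 1) (a (l 330744908551) (l 1))))) (l 1)) (a (a (b (l 16302256) (l 16071760)) (b (b (l 172368343527) (l 16049752)) (l 15970496))) (a (b (b (l 1) (l 232497742311)) (l 16192424)) (b (l 1) (l 301217120279)))))), by decide +kernel⟩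

theorem c_pm_022_b : CertB 0 536870912 1239849684 370763052 536870912 50465866 3 eng mog cd1q0 cd2q2b pd2 false true false .pp 0 2 2
    ndB1q0 ndB2q2b pcB2 cut_pm_022_b Ext.none :=
  certB2 (fam := false) (s1 := true) (s2 := false) (a := 0) (b := 2) (c := 2) (cn := .pp) (n1 := ndB1q0) (n2 := ndB2q2b) (pc := pcB2) (cut := cut_pm_022_b) (xt := Ext.none) (P1 := 0) (W1 := 536870912) (P2 := 1239849684) (W2 := 370763052) (P3 := 536870912) (W3 := 50465866) (N0 := 3) (En := eng) (mo := mog) (C1 := cd1q0) (C2 := cd2q2b) (C3 := pd2)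
    rfl (fun _ => rfl) k0_pm_022_b

noncomputable def f_pm_023 : ℕ → ℕ → ℕ → ℕ → Bool := onCell 0 536870912 1073741824 536870912 536870912 50465866
    (rowB 3 eng mog cd1q0 cd2q3 pd2 1 false true false .up 0 2 3 (qsf 0 536870912 1610612736 536870912 2) ndB1q0 ndB2q3 pcB2 Cut.none Ext.none)

def k0_pm_023 : ∃ t, chk3 f_pm_023 t 1 1 1 = true :=
  ⟨(a (b (b (l 1) (a (l 1) (b (l 1) (l 258804597655)))) (b (a (b (l 1) (l 294774307687)) (b (l 16201512) (l 15929616))) (b (a (l 292090210311) (l 16177432)) (a (a (l 15986008) (l 16078648)) (l 16375936))))) (b (b (a (b (l 1) (l 146061886935)) (a (l 147672489943) (l 16393120))) (a (b (l 176663455351) (l 16192824)) (b (a (l 16307016) (l 16494072)) (l 16503208)))) (b (a (b (l 16229384) (l 16404088)) (b (l 16585104) (l 16646168))) (b (l 16629376) (l 16679576))))), by decide +kernel⟩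

theorem c_pm_023 : CertB 0 536870912 1610612736 536870912 536870912 50465866 3 eng mog cd1q0 cd2q3 pd2 false true false .up 0 2 3
    ndB1q0 ndB2q3 pcB2 Cut.none Ext.none :=
  certB1 (fam := false) (s1 := true) (s2 := false) (a := 0) (b := 2) (c := 3) (cn := .up) (n1 := ndB1q0) (n2 := ndB2q3) (pc := pcB2) (cut := Cut.none) (xt := Ext.none) (P1 := 0) (W1 := 536870912) (P2 := 1610612736) (W2 := 536870912) (P3 := 536870912) (W3 := 50465866) (N0 := 3) (En := eng) (mo := mog) (C1 := cd1q0) (C2 := cd2q3) (C3 := pd2)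
    rfl (fun _ => rfl) k0_pm_023

noncomputable def f_pm_033 : ℕ → ℕ → ℕ → ℕ → Bool := onCell 0 536870912 1610612736 536870912 536870912 50465866
    (rowB 3 eng mog cd1q0 cd2q3 pd3 1 false true false .pnn 0 3 3 (qsf 0 536870912 1610612736 536870912 3) ndB1q0 ndB2q3 pcB3 Cut.none Ext.none)

def k0_pm_033 : ∃ t, chk3 f_pm_033 t 1 1 1 = true :=
  ⟨(a (b (b (b (a (l 4) (l 16516264)) (l 4)) (l 4)) (b (l 4) (a (l 4) (a (b (l 4) (l 2)) (l 2))))) (b (a (b (b (l 16670680) (l 16706264)) (b (l 16729016) (l 16736872))) (b (b (l 16739800) (l 16756416)) (a (b (l 16754056) (l 2)) (l 2)))) (a (b (a (b (l 4) (l 2)) (l 2)) (l 2)) (l 2)))), by decide +kernel⟩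

theorem c_pm_033 : CertB 0 536870912 1610612736 536870912 536870912 50465866 3 eng mog cd1q0 cd2q3 pd3 false true false .pnn 0 3 3
    ndB1q0 ndB2q3 pcB3 Cut.none Ext.none :=
  certB1 (fam := false) (s1 := true) (s2 := false) (a := 0) (b := 3) (c := 3) (cn := .pnn) (n1 := ndB1q0) (n2 := ndB2q3) (pc := pcB3) (cut := Cut.none) (xt := Ext.none) (P1 := 0) (W1 := 536870912) (P2 := 1610612736) (W2 := 536870912) (P3 := 536870912) (W3 := 50465866) (N0 := 3) (En := eng) (mo := mog) (C1 := cd1q0) (C2 := cd2q3) (C3 := pd3)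
    rfl (fun _ => rfl) k0_pm_033

noncomputable def f_pm_101 : ℕ → ℕ → ℕ → ℕ → Bool := onCell 0 536870912 536870912 536870912 536870912 50465866
    (rowB 3 eng mog cd1q1 cd2q1 pd0 2 false true false .npn 1 0 1 (qsf 536870912 536870912 536870912 536870912 0) ndB1q1 ndB2q1 pcB0 Cut.none Ext.none)

def k0_pm_101 : ∃ t, chk3 f_pm_101 t 1 1 1 = true :=
  ⟨(b (l 4) (a (a (b (l 4) (b (a (a (b (l 16664952) (l 16663664)) (l 16759088)) (a (l 16638064) (l 16618160))) (a (b (a (l 16679760) (l 16647600)) (a (l 16667176) (l 16636496))) (b (l 16689376) (l 16590456))))) (b (l 4) (b (l 4) (a (a (l 16773200) (l 16500824)) (a (l 16456640) (l 4)))))) (l 4))), by decide +kernel⟩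

theorem c_pm_101 : CertB 536870912 536870912 536870912 536870912 536870912 50465866 3 eng mog cd1q1 cd2q1 pd0 false true false .npn 1 0 1
    ndB1q1 ndB2q1 pcB0 Cut.none Ext.none :=
  certB2 (fam := false) (s1 := true) (s2 := false) (a := 1) (b := 0) (c := 1) (cn := .npn) (n1 := ndB1q1) (n2 := ndB2q1) (pc := pcB0) (cut := Cut.none) (xt := Ext.none) (P1 := 536870912) (W1 := 536870912) (P2 := 536870912) (W2 := 536870912) (P3 := 536870912) (W3 := 50465866) (N0 := 3) (En := eng) (mo := mog) (C1 := cd1q1) (C2 := cd2q1) (C3 := pd0)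
    rfl (fun _ => rfl) k0_pm_101

noncomputable def f_pm_102_a : ℕ → ℕ → ℕ → ℕ → Bool := onCell 536870912 536870912 0 536870912 536870912 50465866
    (rowB 3 eng mog cd1q1 cd2q2a pd0 0 false true false .npp 1 0 2 (qsf 536870912 536870912 0 536870912 0) ndB1q1 ndB2q2a pcB0 Cut.none Ext.none)

def k0_pm_102_a : ∃ t, chk3 f_pm_102_a t 2 1 1 = true :=
  ⟨(b (a (b (l 2) (a (l 2) (l 16607368))) (b (a (a (l 16730112) (l 16873832)) (b (a (l 16758936) (l 16769272)) (a (l 16746240) (l 16762768)))) (a (b (l 16673488) (l 16632128)) (b (l 16761216) (l 16698456))))) (a (b (a (l 2) (b (b (l 16565408) (l 16558648)) (b (l 16545472) (l 16514960)))) (a (b (a (l 2) (a (l 16422384) (l 16461744))) (b (a (l 16390312) (l 16454952)) (a (c (l 16421536) (l 16421240)) (b (l 16469336) (l 16481512))))) (b (a (b (l 16506528) (l 16508944)) (b (l 16553768) (l 16556616))) (b (a (b (l 16515456) (l 16519832)) (l 16565680)) (a (b (l 16527744) (l 16558128)) (l 16581376)))))) (b (a (a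 (b (l 16606904) (l 16600848)) (b (l 16655216) (l 16634232))) (b (l 16676344) (b (l 16681456) (l 16684640)))) (b (a (a (b (l 16597536) (l 16602016)) (l 16637616)) (a (l 16673888) (b (l 16710424) (l 16723528)))) (a (a (b (l 16613856) (l 16634632)) (b (l 16657176) (l 16681632))) (b (a (l 16698104) (a (l 16732760) (l 16745744))) (a (a (l 16712760) (b (l 16729464) (l 16742680))) (b (l 16749456) (l 16754568))))))))), by decide +kernel⟩

def k1_pm_102_a : ∃ t, chk3 f_pm_102_a t 6 2 1 = true :=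
  ⟨(b (a (b (a (l 16769048) (l 16755976)) (a (l 16770056) (l 16764672))) (b (a (b (a (l 16733152) (l 16719128)) (a (l 16742392) (l 16728136))) (a (b (a (l 16707680) (b (l 157470813127) (l 16702696))) (b (l 16711392) (l 16715552))) (b (a (a (l 146733396279) (l 147807101895)) (l 154249543383)) (b (l 147270262647) (l 16700016))))) (a (l 16744984) (a (b (l 16719976) (l 16726376)) (b (l 16704632) (l 16710576)))))) (a (b (a (l 16766264) (l 16769184)) (l 16861160)) (b (a (b (l 16752192) (l 16759488)) (l 16856328)) (a (l 17020472) (l 16858632))))), by decide +kernel⟩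

def k2_pm_102_a : ∃ t, chk3 f_pm_102_a t 7 2 1 = true :=
  ⟨(a (b (a (b (a (b (l 3) (b (l 153712683191) (a (l 16688336) (l 152638918503)))) (l 3)) (b (a (a (l 16692416) (l 16684400)) (a (l 146733350823) (l 148343927799))) (a (l 16693992) (b (l 16675888) (l 16678568))))) (b (l 3) (a (a (b (l 144048946791) (l 124184767351)) (b (l 3) (l 142975216311))) (b (l 3) (b (l 3) (l 143512046903)))))) (a (b (a (l 16706744) (b (b (l 16681320) (l 16684448)) (l 16695232))) (b (l 16718904) (l 16734456))) (b (a (a (b (l 16670392) (l 16681424)) (b (l 16682768) (l 16673056))) (b (a (b (l 16673264) (l 16655088)) (l 141901504039)) (a (l 16665128) (l 16656112)))) (b (a (l 16693160) (b (l 16671312) (l 16679528))) (l 16680168))))) (b (l 3) (a (b (a (b (a (b (l 3) (l 3)) (l 3)) (a (b (l 16644472) (l 16650824)) (b (l 3) (l 16667328)))) (l 3)) (a (b (b (a (l 16658400) (l 16650032)) (a (l 16666560) (l 16657824))) (a (l 16679208) (b (l 16666128) (l 16674688)))) (b (a (b (l 167671296759)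 (l 16651880)) (b (l 3) (l 169281915047))) (a (b (l 16657560) (l 16665880)) (b (l 16674456) (l 16657544)))))) (b (l 3) (a (b (l 3) (a (b (l 173039973127) (l 160692013447)) (b (l 3) (l 167671244631)))) (l 3)))))), by decide +kernel⟩

def k3_pm_102_a : ∃ t, chk3 f_pm_102_a t 6 3 1 = true :=
  ⟨(b (a (b (a (l 16715136) (l 16734848)) (a (b (l 16724320) (l 16733880)) (b (l 16739384) (l 16787776)))) (a (b (l 16759264) (l 16762624)) (b (l 16769112) (l 16746040)))) (a (b (a (b (l 16739424) (l 16745264)) (l 16746320)) (b (l 16751712) (a (l 16757680) (l 16761296)))) (b (a (l 16745664) (l 16744408)) (b (l 16752816) (a (l 16763064) (l 16827344)))))), by decide +kernel⟩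

def k4_pm_102_a : ∃ t, chk3 f_pm_102_a t 7 3 1 = true :=
  ⟨(b (a (b (a (b (l 16748352) (l 16761088)) (b (a (l 16726640) (l 16709808)) (a (l 16742920) (l 16726808)))) (a (b (l 16767816) (l 16759544)) (b (l 16751464) (l 16847168)))) (a (b (a (b (l 16692016) (l 16814992)) (b (a (l 16678944) (b (l 16665856) (l 16674680))) (l 16692296))) (b (a (l 16728192) (a (l 16714888) (l 16706344))) (a (l 16745808) (l 16729392)))) (b (a (b (a (b (l 16658576) (l 16666088)) (b (a (l 16657000) (l 168745027543)) (a (l 16661176) (l 16659904)))) (a (l 16679504) (b (a (l 16668672) (l 16664920)) (l 16675576)))) (b (a (b (a (l 169281899959) (l 3)) (a (l 16679232) (l 167671297239))) (b (l 3) (b (l 3) (l 152101993367)))) (a (b (a (l 16663096) (l 16661408)) (a (l 16669392) (l 16666912))) (b (a (l 168745070567) (l 166597555847)) (a (l 16664640) (l 16662496)))))) (a (b (b (l 16688816) (l 16782120)) (b (l 16707208) (l 16716480))) (b (a (l 16681240) (b (a (l 16691920) (l 16700016))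 (l 16678040))) (b (l 16672600) (l 16699520))))))) (a (b (b (a (l 16745536) (a (l 16757448) (l 16765232))) (a (l 16744888) (l 16748368))) (b (a (l 16752480) (l 16753256)) (a (l 16767872) (l 16768504)))) (b (a (b (a (l 16759760) (b (l 16742408) (l 16750448))) (l 16763480)) (b (b (a (l 16725432) (l 16708432)) (a (l 16734264) (a (l 16721440) (l 16713056)))) (a (l 16747104) (l 16730368)))) (b (a (l 16753320) (a (l 16760144) (l 16746376))) (a (l 16764184) (a (b (l 16756072) (l 16762320)) (b (l 16754760) (l 16760616)))))))), by decide +kernel⟩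

theorem s5_pm_102_a : ∃ t, chk3 f_pm_102_a t 3 3 1 = true := ex3_a k3_pm_102_a k4_pm_102_a

theorem s6_pm_102_a : ∃ t, chk3 f_pm_102_a t 3 2 1 = true := ex3_a k1_pm_102_a k2_pm_102_a

theorem s7_pm_102_a : ∃ t, chk3 f_pm_102_a t 3 1 1 = true := ex3_b s6_pm_102_a s5_pm_102_a

theorem s8_pm_102_a : ∃ t, chk3 f_pm_102_a t 1 1 1 = true := ex3_a k0_pm_102_a s7_pm_102_a

theorem c_pm_102_a : CertB 536870912 536870912 0 536870912 536870912 50465866 3 eng mog cd1q1 cd2q2a pd0 false true false .npp 1 0 2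
    ndB1q1 ndB2q2a pcB0 Cut.none Ext.none :=
  certB0 (fam := false) (s1 := true) (s2 := false) (a := 1) (b := 0) (c := 2) (cn := .npp) (n1 := ndB1q1) (n2 := ndB2q2a) (pc := pcB0) (cut := Cut.none) (xt := Ext.none) (P1 := 536870912) (W1 := 536870912) (P2 := 0) (W2 := 536870912) (P3 := 536870912) (W3 := 50465866) (N0 := 3) (En := eng) (mo := mog) (C1 := cd1q1) (C2 := cd2q2a) (C3 := pd0)
    rfl s8_pm_102_a

noncomputable def f_pm_102_b : ℕ → ℕ → ℕ → ℕ → Bool := onCell 536870912 536870912 0 536870912 536870912 50465866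
    (rowB 3 eng mog cd1q1 cd2q2b pd0 1 false true false .npp 1 0 2 (qsf 536870912 536870912 1239849684 370763052 0) ndB1q1 ndB2q2b pcB0 Cut.none Ext.none)

def k0_pm_102_b : ∃ t, chk3 f_pm_102_b t 1 1 1 = true :=
  ⟨(a (b (l 1) (b (l 1) (a (l 1) (a (b (l 1) (a (a (l 1) (l 269542644167)) (l 209949993271))) (b (b (a (l 1) (l 153578551543)) (a (l 187401429703) (l 16770856))) (b (l 114386944551) (l 16773904))))))) (b (a (l 1) (l 3)) (b (a (b (a (l 1) (b (a (l 1) (a (l 1) (l 3))) (a (a (l 1) (b (l 1) (l 16723752))) (a (b (a (l 1) (l 163376424759)) (a (l 16703952) (l 166060754487))) (l 3))))) (a (b (a (l 1) (l 119218940903)) (a (l 134251320295) (l 16747152))) (a (b (a (l 16731944) (l 16706296)) (a (l 16713656) (l 16687136))) (b (a (b (l 153175829159) (l 16673488)) (a (b (l 171429373319) (l 151565128855)) (l 3))) (a (b (l 16663384) (l 16654608)) (a (b (l 16641416) (l 16632040)) (b (l 200957194647) (l 150491310343)))))))) (b (l 3) (a (l 3) (l 3)))) (a (b (a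 (b (l 16772912) (l 16742784)) (a (b (l 16687496) (l 16678640)) (b (a (l 16644704) (b (l 16616816) (l 16611824))) (a (l 16638432) (l 16609504))))) (a (l 16736440) (a (b (l 16674584) (l 16675888)) (b (l 16626304) (l 16633632))))) (a (a (a (b (b (b (l 211694536087) (l 155323077463)) (a (l 148343779399) (l 204715203351))) (b (l 146196279367) (l 16603808))) (b (l 3) (b (l 188609035543) (l 141364425703)))) (l 3)) (l 3)))))), by decide +kernel⟩

theorem c_pm_102_b : CertB 536870912 536870912 1239849684 370763052 536870912 50465866 3 eng mog cd1q1 cd2q2b pd0 false true false .npp 1 0 2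
    ndB1q1 ndB2q2b pcB0 Cut.none Ext.none :=
  certB1 (fam := false) (s1 := true) (s2 := false) (a := 1) (b := 0) (c := 2) (cn := .npp) (n1 := ndB1q1) (n2 := ndB2q2b) (pc := pcB0) (cut := Cut.none) (xt := Ext.none) (P1 := 536870912) (W1 := 536870912) (P2 := 1239849684) (W2 := 370763052) (P3 := 536870912) (W3 := 50465866) (N0 := 3) (En := eng) (mo := mog) (C1 := cd1q1) (C2 := cd2q2b) (C3 := pd0)
    rfl (fun _ => rfl) k0_pm_102_b

noncomputable def f_pm_112_a : ℕ → ℕ → ℕ → ℕ → Bool := onCell 536870912 536870912 0 536870912 536870912 50465866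
    (rowB 3 eng mog cd1q1 cd2q2a pd1 2 false true false .dn 1 1 2 (qsf 536870912 536870912 0 536870912 1) ndB1q1 ndB2q2a pcB1 Cut.none Ext.none)

def k0_pm_112_a : ∃ t, chk3 f_pm_112_a t 1 1 1 = true :=
  ⟨(a (a (b (b (a (b (l 16702696) (l 16651864)) (a (l 16620768) (l 16600296))) (a (l 16748064) (a (l 16542768) (l 16541672)))) (b (a (b (a (l 16572744) (l 16490528)) (l 16481240)) (b (l 129955783351) (l 151430499655))) (a (a (b (l 16427616) (l 16443192)) (b (l 16367344) (l 16358648))) (b (l 209949422455) (l 1))))) (b (a (b (a (l 16588272) (a (l 16582136) (l 1))) (a (l 16544840) (l 1))) (l 1)) (b (l 1) (l 1)))) (l 1)), by decide +kernel⟩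

theorem c_pm_112_a : CertB 536870912 536870912 0 536870912 536870912 50465866 3 eng mog cd1q1 cd2q2a pd1 false true false .dn 1 1 2
    ndB1q1 ndB2q2a pcB1 Cut.none Ext.none :=
  certB2 (fam := false) (s1 := true) (s2 := false) (a := 1) (b := 1) (c := 2) (cn := .dn) (n1 := ndB1q1) (n2 := ndB2q2a) (pc := pcB1) (cut := Cut.none) (xt := Ext.none) (P1 := 536870912) (W1 := 536870912) (P2 := 0) (W2 := 536870912) (P3 := 536870912) (W3 := 50465866) (N0 := 3) (En := eng) (mo := mog) (C1 := cd1q1) (C2 := cd2q2a) (C3 := pd1)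
    rfl (fun _ => rfl) k0_pm_112_a

noncomputable def f_pm_112_b : ℕ → ℕ → ℕ → ℕ → Bool := onCell 536870912 536870912 536870912 536870912 536870912 50465866
    (rowB 3 eng mog cd1q1 cd2q2b pd1 1 false true false .dn 1 1 2 (qsf 536870912 536870912 1239849684 370763052 1) ndB1q1 ndB2q2b pcB1 Cut.none Ext.none)

def k0_pm_112_b : ∃ t, chk3 f_pm_112_b t 1 1 1 = true :=
  ⟨(b (a (b (a (b (a (l 1) (b (l 387117268999) (l 201359965431))) (a (b (l 370474024775) (l 164315672695)) (b (l 16684552) (l 16700696)))) (a (b (a (l 16731544) (l 16767448)) (l 16774568)) (b (l 16785768) (l 16827584)))) (a (b (a (b (l 16628848) (l 16635304)) (b (l 16708592) (l 16714840))) (a (l 16637576) (l 16732024))) (b (a (b (l 16797224) (l 16818648)) (l 16909048)) (a (l 16863520) (l 17023672))))) (b (a (b (a (l 16771080) (a (l 16734584) (b (l 16682216) (l 16722488)))) (a (l 16852256) (a (l 16846776) (l 16826136)))) (b (a (a (b (a (l 16646776) (l 16621176)) (l 16680312)) (b (l 213842021431)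 (l 119352732743))) (l 3)) (b (a (a (l 16749624) (l 105931025559)) (l 3)) (a (a (l 16826184) (l 16755512)) (l 2))))) (a (b (a (l 16998624) (b (l 16986592) (l 17065832))) (l 40903244919)) (b (a (a (l 198742843687) (l 2)) (l 2)) (l 2))))) (b (a (a (a (b (l 16637672) (l 16637080)) (b (l 16762296) (l 16802544))) (a (l 16933768) (b (l 17099456) (l 17065064)))) (a (b (l 17170936) (l 2)) (l 2))) (a (a (a (l 16637640) (l 16833192)) (a (l 16956176) (l 2))) (l 2)))), by decide +kernel⟩

theorem c_pm_112_b : CertB 536870912 536870912 1239849684 370763052 536870912 50465866 3 eng mog cd1q1 cd2q2b pd1 false true false .dn 1 1 2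
    ndB1q1 ndB2q2b pcB1 Cut.none Ext.none :=
  certB1 (fam := false) (s1 := true) (s2 := false) (a := 1) (b := 1) (c := 2) (cn := .dn) (n1 := ndB1q1) (n2 := ndB2q2b) (pc := pcB1) (cut := Cut.none) (xt := Ext.none) (P1 := 536870912) (W1 := 536870912) (P2 := 1239849684) (W2 := 370763052) (P3 := 536870912) (W3 := 50465866) (N0 := 3) (En := eng) (mo := mog) (C1 := cd1q1) (C2 := cd2q2b) (C3 := pd1)
    rfl (fun _ => rfl) k0_pm_112_b

noncomputable def f_pm_113 : ℕ → ℕ → ℕ → ℕ → Bool := onCell 536870912 536870912 536870912 536870912 536870912 50465866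
    (rowB 3 eng mog cd1q1 cd2q3 pd1 1 false true false .nn 1 1 3 (qsf 536870912 536870912 1610612736 536870912 1) ndB1q1 ndB2q3 pcB1 Cut.none Ext.none)

def k0_pm_113 : ∃ t, chk3 f_pm_113 t 1 1 1 = true :=
  ⟨(b (a (b (l 1) (a (l 1) (b (l 1) (l 132104072631)))) (b (a (b (l 1) (a (l 1) (a (l 1) (l 16843848)))) (b (a (a (l 1) (b (l 1) (l 191159405527))) (l 3)) (a (a (l 125661186199) (b (l 16742432) (l 16814472))) (a (b (l 3) (l 277193184103)) (l 3))))) (a (b (a (l 17002288) (b (l 17012304) (l 17107504))) (l 17225264)) (b (a (a (l 16860496) (l 16782608)) (a (b (l 197736455671) (l 16907504)) (l 3))) (a (a (l 17059208) (l 16914720)) (a (b (l 16926448) (l 16951152)) (b (l 3) (l 316921965079)))))))) (b (a (a (b (l 1) (l 158947330839)) (a (l 109018451975) (l 105260374295))) (a (b (l 17132800) (l 17063344)) (b (a (a (l 17092984) (l 17023040)) (a (l 16860272) (a (l 239076070199) (l 263772113879)))) (a (a (l 17065376) (l 17023408)) (a (l 16963704) (b (l 16915888)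 (l 16910112))))))) (b (a (a (l 142304158775) (l 16946416)) (a (l 17007536) (a (l 16974744) (a (l 16935880) (l 16949896))))) (a (a (l 156262633303) (l 17094208)) (a (l 16960288) (a (l 16902864) (a (l 16862768) (l 16832760)))))))), by decide +kernel⟩

theorem c_pm_113 : CertB 536870912 536870912 1610612736 536870912 536870912 50465866 3 eng mog cd1q1 cd2q3 pd1 false true false .nn 1 1 3
    ndB1q1 ndB2q3 pcB1 Cut.none Ext.none :=
  certB1 (fam := false) (s1 := true) (s2 := false) (a := 1) (b := 1) (c := 3) (cn := .nn) (n1 := ndB1q1) (n2 := ndB2q3) (pc := pcB1) (cut := Cut.none) (xt := Ext.none) (P1 := 536870912) (W1 := 536870912) (P2 := 1610612736) (W2 := 536870912) (P3 := 536870912) (W3 := 50465866) (N0 := 3) (En := eng) (mo := mog) (C1 := cd1q1) (C2 := cd2q3) (C3 := pd1)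
    rfl (fun _ => rfl) k0_pm_113

noncomputable def f_pm_123 : ℕ → ℕ → ℕ → ℕ → Bool := onCell 536870912 536870912 1073741824 536870912 536870912 50465866
    (rowB 3 eng mog cd1q1 cd2q3 pd2 1 false true false .npn 1 2 3 (qsf 536870912 536870912 1610612736 536870912 2) ndB1q1 ndB2q3 pcB2 Cut.none Ext.none)

def k0_pm_123 : ∃ t, chk3 f_pm_123 t 1 1 1 = true :=
  ⟨(a (b (b (a (a (l 16621144) (l 16769464)) (a (l 16854376) (l 16885408))) (a (b (l 16708520) (l 16718464)) (b (l 16795704) (l 16766712)))) (b (a (b (l 16728232) (l 16735896)) (b (l 16748768) (l 16739280))) (a (b (l 16742936) (l 16752648)) (a (b (l 16751104) (l 2)) (l 2))))) (b (b (a (b (l 16894776) (l 16815488)) (a (l 16995536) (b (l 16768472) (l 685148285303)))) (a (b (a (l 16772016) (b (l 16752976) (l 16734088))) (l 16785656)) (a (b (b (l 16747504) (l 2)) (l 2)) (l 2)))) (a (b (a (b (l 16739672) (l 2)) (l 2)) (l 2)) (l 2)))), by decide +kernel⟩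

theorem c_pm_123 : CertB 536870912 536870912 1610612736 536870912 536870912 50465866 3 eng mog cd1q1 cd2q3 pd2 false true false .npn 1 2 3
    ndB1q1 ndB2q3 pcB2 Cut.none Ext.none :=
  certB1 (fam := false) (s1 := true) (s2 := false) (a := 1) (b := 2) (c := 3) (cn := .npn) (n1 := ndB1q1) (n2 := ndB2q3) (pc := pcB2) (cut := Cut.none) (xt := Ext.none) (P1 := 536870912) (W1 := 536870912) (P2 := 1610612736) (W2 := 536870912) (P3 := 536870912) (W3 := 50465866) (N0 := 3) (En := eng) (mo := mog) (C1 := cd1q1) (C2 := cd2q3) (C3 := pd2)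
    rfl (fun _ => rfl) k0_pm_123

noncomputable def f_pm_133 : ℕ → ℕ → ℕ → ℕ → Bool := onCell 1610612736 536870912 1610612736 536870912 536870912 50465866
    (rowB 3 eng mog cd1q1 cd2q3 pd3 2 false true false .dn 1 3 3 (qsf 536870912 536870912 1610612736 536870912 3) ndB1q1 ndB2q3 pcB3 Cut.none Ext.none)

def k0_pm_133 : ∃ t, chk3 f_pm_133 t 1 1 1 = true :=
  ⟨(a (b (l 1) (a (a (l 323230219735) (l 1)) (l 1))) (l 1)), by decide +kernel⟩

theorem c_pm_133 : CertB 536870912 536870912 1610612736 536870912 536870912 50465866 3 eng mog cd1q1 cd2q3 pd3 false true false .dn 1 3 3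
    ndB1q1 ndB2q3 pcB3 Cut.none Ext.none :=
  certB2 (fam := false) (s1 := true) (s2 := false) (a := 1) (b := 3) (c := 3) (cn := .dn) (n1 := ndB1q1) (n2 := ndB2q3) (pc := pcB3) (cut := Cut.none) (xt := Ext.none) (P1 := 536870912) (W1 := 536870912) (P2 := 1610612736) (W2 := 536870912) (P3 := 536870912) (W3 := 50465866) (N0 := 3) (En := eng) (mo := mog) (C1 := cd1q1) (C2 := cd2q3) (C3 := pd3)
    rfl (fun _ => rfl) k0_pm_133

noncomputable def cut_pm_202_aa : Cut := Cut.of [[⟨0, 1, 0, 67108864⟩, ⟨1, 0, 0, 67108864⟩, ⟨2, 1, 0, 67108864⟩]]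

noncomputable def f_pm_202_aa : ℕ → ℕ → ℕ → ℕ → Bool := onCell 0 536870912 0 536870912 536870912 50465866
    (rowB 3 eng mog cd1q2a cd2q2a pd0 0 false true false .pp 2 0 2 (qsf 0 536870912 0 536870912 0) ndB1q2a ndB2q2a pcB0 cut_pm_202_aa Ext.none)

def k0_pm_202_aa : ∃ t, chk3 f_pm_202_aa t 1 1 1 = true :=
  ⟨(a (l 3) (b (l 3) (a (l 3) (b (l 3) (a (l 3) (b (l 3) (l 6))))))), by decide +kernel⟩

theorem c_pm_202_aa : CertB 0 536870912 0 536870912 536870912 50465866 3 eng mog cd1q2a cd2q2a pd0 false true false .pp 2 0 2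
    ndB1q2a ndB2q2a pcB0 cut_pm_202_aa Ext.none :=
  certB0 (fam := false) (s1 := true) (s2 := false) (a := 2) (b := 0) (c := 2) (cn := .pp) (n1 := ndB1q2a) (n2 := ndB2q2a) (pc := pcB0) (cut := cut_pm_202_aa) (xt := Ext.none) (P1 := 0) (W1 := 536870912) (P2 := 0) (W2 := 536870912) (P3 := 536870912) (W3 := 50465866) (N0 := 3) (En := eng) (mo := mog) (C1 := cd1q2a) (C2 := cd2q2a) (C3 := pd0)
    rfl k0_pm_202_aa

noncomputable def cut_pm_202_ab : Cut := Cut.of [[⟨0, 1, 0, 67108864⟩, ⟨1, 0, 0, 67108864⟩, ⟨2, 1, 0, 67108864⟩]]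

noncomputable def f_pm_202_ab : ℕ → ℕ → ℕ → ℕ → Bool := onCell 0 536870912 1239849684 370763052 536870912 50465866
    (rowB 3 eng mog cd1q2a cd2q2b pd0 0 false true false .pp 2 0 2 (qsf 0 536870912 1239849684 370763052 0) ndB1q2a ndB2q2b pcB0 cut_pm_202_ab Ext.none)

def k0_pm_202_ab : ∃ t, chk3 f_pm_202_ab t 1 1 1 = true :=
  ⟨(l 3), by decide +kernel⟩

theorem c_pm_202_ab : CertB 0 536870912 1239849684 370763052 536870912 50465866 3 eng mog cd1q2a cd2q2b pd0 false true false .pp 2 0 2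
    ndB1q2a ndB2q2b pcB0 cut_pm_202_ab Ext.none :=
  certB0 (fam := false) (s1 := true) (s2 := false) (a := 2) (b := 0) (c := 2) (cn := .pp) (n1 := ndB1q2a) (n2 := ndB2q2b) (pc := pcB0) (cut := cut_pm_202_ab) (xt := Ext.none) (P1 := 0) (W1 := 536870912) (P2 := 1239849684) (W2 := 370763052) (P3 := 536870912) (W3 := 50465866) (N0 := 3) (En := eng) (mo := mog) (C1 := cd1q2a) (C2 := cd2q2b) (C3 := pd0)
    rfl k0_pm_202_ab

noncomputable def cut_pm_202_ba : Cut := Cut.of [[⟨0, 1, 0, 67108864⟩, ⟨1, 0, 0, 67108864⟩, ⟨2, 1, 0, 67108864⟩]]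

noncomputable def f_pm_202_ba : ℕ → ℕ → ℕ → ℕ → Bool := onCell 1239849684 370763052 0 536870912 536870912 50465866
    (rowB 3 eng mog cd1q2b cd2q2a pd0 0 false true false .pp 2 0 2 (qsf 1239849684 370763052 0 536870912 0) ndB1q2b ndB2q2a pcB0 cut_pm_202_ba Ext.none)

def k0_pm_202_ba : ∃ t, chk3 f_pm_202_ba t 1 1 1 = true :=
  ⟨(l 3), by decide +kernel⟩

theorem c_pm_202_ba : CertB 1239849684 370763052 0 536870912 536870912 50465866 3 eng mog cd1q2b cd2q2a pd0 false true false .pp 2 0 2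
    ndB1q2b ndB2q2a pcB0 cut_pm_202_ba Ext.none :=
  certB0 (fam := false) (s1 := true) (s2 := false) (a := 2) (b := 0) (c := 2) (cn := .pp) (n1 := ndB1q2b) (n2 := ndB2q2a) (pc := pcB0) (cut := cut_pm_202_ba) (xt := Ext.none) (P1 := 1239849684) (W1 := 370763052) (P2 := 0) (W2 := 536870912) (P3 := 536870912) (W3 := 50465866) (N0 := 3) (En := eng) (mo := mog) (C1 := cd1q2b) (C2 := cd2q2a) (C3 := pd0)
    rfl k0_pm_202_ba

noncomputable def cut_pm_202_bb : Cut := Cut.of [[⟨0, 1, 0, 67108864⟩, ⟨1, 0, 0, 67108864⟩, ⟨2, 1, 0, 67108864⟩]]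

noncomputable def f_pm_202_bb : ℕ → ℕ → ℕ → ℕ → Bool := onCell 1239849684 370763052 1239849684 370763052 536870912 50465866
    (rowB 3 eng mog cd1q2b cd2q2b pd0 0 false true false .pp 2 0 2 (qsf 1239849684 370763052 1239849684 370763052 0) ndB1q2b ndB2q2b pcB0 cut_pm_202_bb Ext.none)

def k0_pm_202_bb : ∃ t, chk3 f_pm_202_bb t 1 1 1 = true :=
  ⟨(l 3), by decide +kernel⟩

theorem c_pm_202_bb : CertB 1239849684 370763052 1239849684 370763052 536870912 50465866 3 eng mog cd1q2b cd2q2b pd0 false true false .pp 2 0 2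
    ndB1q2b ndB2q2b pcB0 cut_pm_202_bb Ext.none :=
  certB0 (fam := false) (s1 := true) (s2 := false) (a := 2) (b := 0) (c := 2) (cn := .pp) (n1 := ndB1q2b) (n2 := ndB2q2b) (pc := pcB0) (cut := cut_pm_202_bb) (xt := Ext.none) (P1 := 1239849684) (W1 := 370763052) (P2 := 1239849684) (W2 := 370763052) (P3 := 536870912) (W3 := 50465866) (N0 := 3) (En := eng) (mo := mog) (C1 := cd1q2b) (C2 := cd2q2b) (C3 := pd0)
    rfl k0_pm_202_bb

noncomputable def f_pm_203_a : ℕ → ℕ → ℕ → ℕ → Bool := onCell 0 536870912 0 536870912 536870912 50465866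
    (rowB 3 eng mog cd1q2a cd2q3 pd0 1 false true false .up 2 0 3 (qsf 0 536870912 1610612736 536870912 0) ndB1q2a ndB2q3 pcB0 Cut.none Ext.none)

def k0_pm_203_a : ∃ t, chk3 f_pm_203_a t 1 1 1 = true :=
  ⟨(l 3), by decide +kernel⟩

theorem c_pm_203_a : CertB 0 536870912 1610612736 536870912 536870912 50465866 3 eng mog cd1q2a cd2q3 pd0 false true false .up 2 0 3
    ndB1q2a ndB2q3 pcB0 Cut.none Ext.none :=
  certB1 (fam := false) (s1 := true) (s2 := false) (a := 2) (b := 0) (c := 3) (cn := .up) (n1 := ndB1q2a) (n2 := ndB2q3) (pc := pcB0) (cut := Cut.none) (xt := Ext.none) (P1 := 0) (W1 := 536870912) (P2 := 1610612736) (W2 := 536870912) (P3 := 536870912) (W3 := 50465866) (N0 := 3) (En := eng) (mo := mog) (C1 := cd1q2a) (C2 := cd2q3) (C3 := pd0)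
    rfl (fun _ => rfl) k0_pm_203_a

noncomputable def f_pm_203_b : ℕ → ℕ → ℕ → ℕ → Bool := onCell 1239849684 370763052 1610612736 536870912 536870912 50465866
    (rowB 3 eng mog cd1q2b cd2q3 pd0 0 false true false .up 2 0 3 (qsf 1239849684 370763052 1610612736 536870912 0) ndB1q2b ndB2q3 pcB0 Cut.none Ext.none)

def k0_pm_203_b : ∃ t, chk3 f_pm_203_b t 1 1 1 = true :=
  ⟨(l 3), by decide +kernel⟩

theorem c_pm_203_b : CertB 1239849684 370763052 1610612736 536870912 536870912 50465866 3 eng mog cd1q2b cd2q3 pd0 false true false .up 2 0 3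
    ndB1q2b ndB2q3 pcB0 Cut.none Ext.none :=
  certB0 (fam := false) (s1 := true) (s2 := false) (a := 2) (b := 0) (c := 3) (cn := .up) (n1 := ndB1q2b) (n2 := ndB2q3) (pc := pcB0) (cut := Cut.none) (xt := Ext.none) (P1 := 1239849684) (W1 := 370763052) (P2 := 1610612736) (W2 := 536870912) (P3 := 536870912) (W3 := 50465866) (N0 := 3) (En := eng) (mo := mog) (C1 := cd1q2b) (C2 := cd2q3) (C3 := pd0)
    rfl k0_pm_203_b

noncomputable def cut_pm_213_a : Cut := Cut.of [[⟨0, 1, 0, 67108864⟩, ⟨1, 1, 0, 67108864⟩, ⟨2, 2, 0, 16777216⟩]]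

noncomputable def f_pm_213_a : ℕ → ℕ → ℕ → ℕ → Bool := onCell 0 536870912 1610612736 536870912 536870912 50465866
    (rowB 3 eng mog cd1q2a cd2q3 pd1 0 false true false .pnn 2 1 3 (qsf 0 536870912 1610612736 536870912 1) ndB1q2a ndB2q3 pcB1 cut_pm_213_a Ext.none)

def k0_pm_213_a : ∃ t, chk3 f_pm_213_a t 1 1 1 = true :=
  ⟨(b (l 3) (a (l 3) (b (l 3) (a (l 3) (b (l 3) (a (l 3) (a (l 3) (b (l 3) (b (l 3) (b (l 3) (l 6))))))))))), by decide +kernel⟩

theorem c_pm_213_a : CertB 0 536870912 1610612736 536870912 536870912 50465866 3 eng mog cd1q2a cd2q3 pd1 false true false .pnn 2 1 3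
    ndB1q2a ndB2q3 pcB1 cut_pm_213_a Ext.none :=
  certB0 (fam := false) (s1 := true) (s2 := false) (a := 2) (b := 1) (c := 3) (cn := .pnn) (n1 := ndB1q2a) (n2 := ndB2q3) (pc := pcB1) (cut := cut_pm_213_a) (xt := Ext.none) (P1 := 0) (W1 := 536870912) (P2 := 1610612736) (W2 := 536870912) (P3 := 536870912) (W3 := 50465866) (N0 := 3) (En := eng) (mo := mog) (C1 := cd1q2a) (C2 := cd2q3) (C3 := pd1)
    rfl k0_pm_213_a

noncomputable def cut_pm_213_b : Cut := Cut.of [[⟨0, 1, 0, 67108864⟩, ⟨1, 1, 0, 67108864⟩, ⟨2, 2, 0, 16777216⟩]]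

noncomputable def f_pm_213_b : ℕ → ℕ → ℕ → ℕ → Bool := onCell 1239849684 370763052 1610612736 536870912 536870912 50465866
    (rowB 3 eng mog cd1q2b cd2q3 pd1 0 false true false .pnn 2 1 3 (qsf 1239849684 370763052 1610612736 536870912 1) ndB1q2b ndB2q3 pcB1 cut_pm_213_b Ext.none)

def k0_pm_213_b : ∃ t, chk3 f_pm_213_b t 1 1 1 = true :=
  ⟨(l 3), by decide +kernel⟩

theorem c_pm_213_b : CertB 1239849684 370763052 1610612736 536870912 536870912 50465866 3 eng mog cd1q2b cd2q3 pd1 false true false .pnn 2 1 3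
    ndB1q2b ndB2q3 pcB1 cut_pm_213_b Ext.none :=
  certB0 (fam := false) (s1 := true) (s2 := false) (a := 2) (b := 1) (c := 3) (cn := .pnn) (n1 := ndB1q2b) (n2 := ndB2q3) (pc := pcB1) (cut := cut_pm_213_b) (xt := Ext.none) (P1 := 1239849684) (W1 := 370763052) (P2 := 1610612736) (W2 := 536870912) (P3 := 536870912) (W3 := 50465866) (N0 := 3) (En := eng) (mo := mog) (C1 := cd1q2b) (C2 := cd2q3) (C3 := pd1)
    rfl k0_pm_213_b

noncomputable def f_pm_303 : ℕ → ℕ → ℕ → ℕ → Bool := onCell 1610612736 536870912 1610612736 536870912 536870912 50465866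
    (rowB 3 eng mog cd1q3 cd2q3 pd0 0 false true false .npn 3 0 3 (qsf 1610612736 536870912 1610612736 536870912 0) ndB1q3 ndB2q3 pcB0 Cut.none Ext.none)

def k0_pm_303 : ∃ t, chk3 f_pm_303 t 1 1 1 = true :=
  ⟨(l 3), by decide +kernel⟩

theorem c_pm_303 : CertB 1610612736 536870912 1610612736 536870912 536870912 50465866 3 eng mog cd1q3 cd2q3 pd0 false true false .npn 3 0 3
    ndB1q3 ndB2q3 pcB0 Cut.none Ext.none :=
  certB0 (fam := false) (s1 := true) (s2 := false) (a := 3) (b := 0) (c := 3) (cn := .npn) (n1 := ndB1q3) (n2 := ndB2q3) (pc := pcB0) (cut := Cut.none) (xt := Ext.none) (P1 := 1610612736) (W1 := 536870912) (P2 := 1610612736) (W2 := 536870912) (P3 := 536870912) (W3 := 50465866) (N0 := 3) (En := eng) (mo := mog) (C1 := cd1q3) (C2 := cd2q3) (C3 := pd0)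
    rfl k0_pm_303

noncomputable def f_pm_313 : ℕ → ℕ → ℕ → ℕ → Bool := onCell 1610612736 536870912 1610612736 536870912 536870912 50465866
    (rowB 3 eng mog cd1q3 cd2q3 pd1 0 false true false .dn 3 1 3 (qsf 1610612736 536870912 1610612736 536870912 1) ndB1q3 ndB2q3 pcB1 Cut.none Ext.none)

def k0_pm_313 : ∃ t, chk3 f_pm_313 t 1 1 1 = true :=
  ⟨(l 3), by decide +kernel⟩

theorem c_pm_313 : CertB 1610612736 536870912 1610612736 536870912 536870912 50465866 3 eng mog cd1q3 cd2q3 pd1 false true false .dn 3 1 3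
    ndB1q3 ndB2q3 pcB1 Cut.none Ext.none :=
  certB0 (fam := false) (s1 := true) (s2 := false) (a := 3) (b := 1) (c := 3) (cn := .dn) (n1 := ndB1q3) (n2 := ndB2q3) (pc := pcB1) (cut := Cut.none) (xt := Ext.none) (P1 := 1610612736) (W1 := 536870912) (P2 := 1610612736) (W2 := 536870912) (P3 := 536870912) (W3 := 50465866) (N0 := 3) (En := eng) (mo := mog) (C1 := cd1q3) (C2 := cd2q3) (C3 := pd1)
    rfl k0_pm_313

noncomputable def f_mm_001 : ℕ → ℕ → ℕ → ℕ → Bool := onCell 0 536870912 536870912 536870912 536870912 50465866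
    (rowB 3 eng mog cd1q0 cd2q1 pd0 0 false false false .up 0 0 1 (qsf 0 536870912 536870912 536870912 0) ndB1q0 ndB2q1 pcB0 Cut.none Ext.none)

def k0_mm_001 : ∃ t, chk3 f_mm_001 t 1 1 1 = true :=
  ⟨(l 3), by decide +kernel⟩

theorem c_mm_001 : CertB 0 536870912 536870912 536870912 536870912 50465866 3 eng mog cd1q0 cd2q1 pd0 false false false .up 0 0 1
    ndB1q0 ndB2q1 pcB0 Cut.none Ext.none :=
  certB0 (fam := false) (s1 := false) (s2 := false) (a := 0) (b := 0) (c := 1) (cn := .up) (n1 := ndB1q0) (n2 := ndB2q1) (pc := pcB0) (cut := Cut.none) (xt := Ext.none) (P1 := 0) (W1 := 536870912) (P2 := 536870912) (W2 := 536870912) (P3 := 536870912) (W3 := 50465866) (N0 := 3) (En := eng) (mo := mog) (C1 := cd1q0) (C2 := cd2q1) (C3 := pd0)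
    rfl k0_mm_001

noncomputable def f_mm_011 : ℕ → ℕ → ℕ → ℕ → Bool := onCell 0 536870912 536870912 536870912 536870912 50465866
    (rowB 3 eng mog cd1q0 cd2q1 pd1 0 false false false .pnn 0 1 1 (qsf 0 536870912 536870912 536870912 1) ndB1q0 ndB2q1 pcB1 Cut.none Ext.none)

def k0_mm_011 : ∃ t, chk3 f_mm_011 t 1 1 1 = true :=
  ⟨(l 3), by decide +kernel⟩

theorem c_mm_011 : CertB 0 536870912 536870912 536870912 536870912 50465866 3 eng mog cd1q0 cd2q1 pd1 false false false .pnn 0 1 1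
    ndB1q0 ndB2q1 pcB1 Cut.none Ext.none :=
  certB0 (fam := false) (s1 := false) (s2 := false) (a := 0) (b := 1) (c := 1) (cn := .pnn) (n1 := ndB1q0) (n2 := ndB2q1) (pc := pcB1) (cut := Cut.none) (xt := Ext.none) (P1 := 0) (W1 := 536870912) (P2 := 536870912) (W2 := 536870912) (P3 := 536870912) (W3 := 50465866) (N0 := 3) (En := eng) (mo := mog) (C1 := cd1q0) (C2 := cd2q1) (C3 := pd1)
    rfl k0_mm_011

noncomputable def f_mm_012_a : ℕ → ℕ → ℕ → ℕ → Bool := onCell 0 536870912 0 536870912 536870912 50465866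
    (rowB 3 eng mog cd1q0 cd2q2a pd1 0 false false false .pnp 0 1 2 (qsf 0 536870912 0 536870912 1) ndB1q0 ndB2q2a pcB1 Cut.none Ext.none)

def k0_mm_012_a : ∃ t, chk3 f_mm_012_a t 1 1 1 = true :=
  ⟨(l 5), by decide +kernel⟩

theorem c_mm_012_a : CertB 0 536870912 0 536870912 536870912 50465866 3 eng mog cd1q0 cd2q2a pd1 false false false .pnp 0 1 2
    ndB1q0 ndB2q2a pcB1 Cut.none Ext.none :=
  certB0 (fam := false) (s1 := false) (s2 := false) (a := 0) (b := 1) (c := 2) (cn := .pnp) (n1 := ndB1q0) (n2 := ndB2q2a) (pc := pcB1) (cut := Cut.none) (xt := Ext.none) (P1 := 0) (W1 := 536870912) (P2 := 0) (W2 := 536870912) (P3 := 536870912) (W3 := 50465866) (N0 := 3) (En := eng) (mo := mog) (C1 := cd1q0) (C2 := cd2q2a) (C3 := pd1)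
    rfl k0_mm_012_a

noncomputable def f_mm_012_b : ℕ → ℕ → ℕ → ℕ → Bool := onCell 0 536870912 1239849684 370763052 536870912 50465866
    (rowB 3 eng mog cd1q0 cd2q2b pd1 0 false false false .pnp 0 1 2 (qsf 0 536870912 1239849684 370763052 1) ndB1q0 ndB2q2b pcB1 Cut.none Ext.none)

def k0_mm_012_b : ∃ t, chk3 f_mm_012_b t 1 1 1 = true :=
  ⟨(l 5), by decide +kernel⟩

theorem c_mm_012_b : CertB 0 536870912 1239849684 370763052 536870912 50465866 3 eng mog cd1q0 cd2q2b pd1 false false false .pnp 0 1 2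
    ndB1q0 ndB2q2b pcB1 Cut.none Ext.none :=
  certB0 (fam := false) (s1 := false) (s2 := false) (a := 0) (b := 1) (c := 2) (cn := .pnp) (n1 := ndB1q0) (n2 := ndB2q2b) (pc := pcB1) (cut := Cut.none) (xt := Ext.none) (P1 := 0) (W1 := 536870912) (P2 := 1239849684) (W2 := 370763052) (P3 := 536870912) (W3 := 50465866) (N0 := 3) (En := eng) (mo := mog) (C1 := cd1q0) (C2 := cd2q2b) (C3 := pd1)
    rfl k0_mm_012_b

noncomputable def f_mm_022_a : ℕ → ℕ → ℕ → ℕ → Bool := onCell 0 536870912 0 536870912 536870912 50465866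
    (rowB 3 eng mog cd1q0 cd2q2a pd2 0 false false false .pp 0 2 2 (qsf 0 536870912 0 536870912 2) ndB1q0 ndB2q2a pcB2 Cut.none Ext.none)

def k0_mm_022_a : ∃ t, chk3 f_mm_022_a t 1 1 1 = true :=
  ⟨(l 5), by decide +kernel⟩

theorem c_mm_022_a : CertB 0 536870912 0 536870912 536870912 50465866 3 eng mog cd1q0 cd2q2a pd2 false false false .pp 0 2 2
    ndB1q0 ndB2q2a pcB2 Cut.none Ext.none :=
  certB0 (fam := false) (s1 := false) (s2 := false) (a := 0) (b := 2) (c := 2) (cn := .pp) (n1 := ndB1q0) (n2 := ndB2q2a) (pc := pcB2) (cut := Cut.none) (xt := Ext.none) (P1 := 0) (W1 := 536870912) (P2 := 0) (W2 := 536870912) (P3 := 536870912) (W3 := 50465866) (N0 := 3) (En := eng) (mo := mog) (C1 := cd1q0) (C2 := cd2q2a) (C3 := pd2)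
    rfl k0_mm_022_a

noncomputable def f_mm_022_b : ℕ → ℕ → ℕ → ℕ → Bool := onCell 0 536870912 1239849684 370763052 536870912 50465866
    (rowB 3 eng mog cd1q0 cd2q2b pd2 0 false false false .pp 0 2 2 (qsf 0 536870912 1239849684 370763052 2) ndB1q0 ndB2q2b pcB2 Cut.none Ext.none)

def k0_mm_022_b : ∃ t, chk3 f_mm_022_b t 1 1 1 = true :=
  ⟨(l 5), by decide +kernel⟩

theorem c_mm_022_b : CertB 0 536870912 1239849684 370763052 536870912 50465866 3 eng mog cd1q0 cd2q2b pd2 false false false .pp 0 2 2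
    ndB1q0 ndB2q2b pcB2 Cut.none Ext.none :=
  certB0 (fam := false) (s1 := false) (s2 := false) (a := 0) (b := 2) (c := 2) (cn := .pp) (n1 := ndB1q0) (n2 := ndB2q2b) (pc := pcB2) (cut := Cut.none) (xt := Ext.none) (P1 := 0) (W1 := 536870912) (P2 := 1239849684) (W2 := 370763052) (P3 := 536870912) (W3 := 50465866) (N0 := 3) (En := eng) (mo := mog) (C1 := cd1q0) (C2 := cd2q2b) (C3 := pd2)
    rfl k0_mm_022_b

noncomputable def f_mm_023 : ℕ → ℕ → ℕ → ℕ → Bool := onCell 0 536870912 1610612736 536870912 536870912 50465866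
    (rowB 3 eng mog cd1q0 cd2q3 pd2 0 false false false .up 0 2 3 (qsf 0 536870912 1610612736 536870912 2) ndB1q0 ndB2q3 pcB2 Cut.none Ext.none)

def k0_mm_023 : ∃ t, chk3 f_mm_023 t 1 1 1 = true :=
  ⟨(l 5), by decide +kernel⟩

theorem c_mm_023 : CertB 0 536870912 1610612736 536870912 536870912 50465866 3 eng mog cd1q0 cd2q3 pd2 false false false .up 0 2 3
    ndB1q0 ndB2q3 pcB2 Cut.none Ext.none :=
  certB0 (fam := false) (s1 := false) (s2 := false) (a := 0) (b := 2) (c := 3) (cn := .up) (n1 := ndB1q0) (n2 := ndB2q3) (pc := pcB2) (cut := Cut.none) (xt := Ext.none) (P1 := 0) (W1 := 536870912) (P2 := 1610612736) (W2 := 536870912) (P3 := 536870912) (W3 := 50465866) (N0 := 3) (En := eng) (mo := mog) (C1 := cd1q0) (C2 := cd2q3) (C3 := pd2)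
    rfl k0_mm_023

noncomputable def f_mm_033 : ℕ → ℕ → ℕ → ℕ → Bool := onCell 0 536870912 1610612736 536870912 536870912 50465866
    (rowB 3 eng mog cd1q0 cd2q3 pd3 0 false false false .pnn 0 3 3 (qsf 0 536870912 1610612736 536870912 3) ndB1q0 ndB2q3 pcB3 Cut.none Ext.none)

def k0_mm_033 : ∃ t, chk3 f_mm_033 t 1 1 1 = true :=
  ⟨(l 5), by decide +kernel⟩

theorem c_mm_033 : CertB 0 536870912 1610612736 536870912 536870912 50465866 3 eng mog cd1q0 cd2q3 pd3 false false false .pnn 0 3 3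
    ndB1q0 ndB2q3 pcB3 Cut.none Ext.none :=
  certB0 (fam := false) (s1 := false) (s2 := false) (a := 0) (b := 3) (c := 3) (cn := .pnn) (n1 := ndB1q0) (n2 := ndB2q3) (pc := pcB3) (cut := Cut.none) (xt := Ext.none) (P1 := 0) (W1 := 536870912) (P2 := 1610612736) (W2 := 536870912) (P3 := 536870912) (W3 := 50465866) (N0 := 3) (En := eng) (mo := mog) (C1 := cd1q0) (C2 := cd2q3) (C3 := pd3)
    rfl k0_mm_033

noncomputable def f_mm_101 : ℕ → ℕ → ℕ → ℕ → Bool := onCell 536870912 536870912 536870912 536870912 536870912 50465866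
    (rowB 3 eng mog cd1q1 cd2q1 pd0 0 false false false .npn 1 0 1 (qsf 536870912 536870912 536870912 536870912 0) ndB1q1 ndB2q1 pcB0 Cut.none Ext.none)

def k0_mm_101 : ∃ t, chk3 f_mm_101 t 1 1 1 = true :=
  ⟨(l 3), by decide +kernel⟩

theorem c_mm_101 : CertB 536870912 536870912 536870912 536870912 536870912 50465866 3 eng mog cd1q1 cd2q1 pd0 false false false .npn 1 0 1
    ndB1q1 ndB2q1 pcB0 Cut.none Ext.none :=
  certB0 (fam := false) (s1 := false) (s2 := false) (a := 1) (b := 0) (c := 1) (cn := .npn) (n1 := ndB1q1) (n2 := ndB2q1) (pc := pcB0) (cut := Cut.none) (xt := Ext.none) (P1 := 536870912) (W1 := 536870912) (P2 := 536870912) (W2 := 536870912) (P3 := 536870912) (W3 := 50465866) (N0 := 3) (En := eng) (mo := mog) (C1 := cd1q1) (C2 := cd2q1) (C3 := pd0)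
    rfl k0_mm_101

noncomputable def f_mm_102_a : ℕ → ℕ → ℕ → ℕ → Bool := onCell 536870912 536870912 0 536870912 536870912 50465866
    (rowB 3 eng mog cd1q1 cd2q2a pd0 0 false false false .npp 1 0 2 (qsf 536870912 536870912 0 536870912 0) ndB1q1 ndB2q2a pcB0 Cut.none Ext.none)

def k0_mm_102_a : ∃ t, chk3 f_mm_102_a t 1 1 1 = true :=
  ⟨(l 5), by decide +kernel⟩

theorem c_mm_102_a : CertB 536870912 536870912 0 536870912 536870912 50465866 3 eng mog cd1q1 cd2q2a pd0 false false false .npp 1 0 2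
    ndB1q1 ndB2q2a pcB0 Cut.none Ext.none :=
  certB0 (fam := false) (s1 := false) (s2 := false) (a := 1) (b := 0) (c := 2) (cn := .npp) (n1 := ndB1q1) (n2 := ndB2q2a) (pc := pcB0) (cut := Cut.none) (xt := Ext.none) (P1 := 536870912) (W1 := 536870912) (P2 := 0) (W2 := 536870912) (P3 := 536870912) (W3 := 50465866) (N0 := 3) (En := eng) (mo := mog) (C1 := cd1q1) (C2 := cd2q2a) (C3 := pd0)
    rfl k0_mm_102_a

noncomputable def f_mm_102_b : ℕ → ℕ → ℕ → ℕ → Bool := onCell 536870912 536870912 1239849684 370763052 536870912 50465866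
    (rowB 3 eng mog cd1q1 cd2q2b pd0 0 false false false .npp 1 0 2 (qsf 536870912 536870912 1239849684 370763052 0) ndB1q1 ndB2q2b pcB0 Cut.none Ext.none)

def k0_mm_102_b : ∃ t, chk3 f_mm_102_b t 1 1 1 = true :=
  ⟨(l 5), by decide +kernel⟩

theorem c_mm_102_b : CertB 536870912 536870912 1239849684 370763052 536870912 50465866 3 eng mog cd1q1 cd2q2b pd0 false false false .npp 1 0 2
    ndB1q1 ndB2q2b pcB0 Cut.none Ext.none :=
  certB0 (fam := false) (s1 := false) (s2 := false) (a := 1) (b := 0) (c := 2) (cn := .npp) (n1 := ndB1q1) (n2 := ndB2q2b) (pc := pcB0) (cut := Cut.none) (xt := Ext.none) (P1 := 536870912) (W1 := 536870912) (P2 := 1239849684) (W2 := 370763052) (P3 := 536870912) (W3 := 50465866) (N0 := 3) (En := eng) (mo := mog) (C1 := cd1q1) (C2 := cd2q2b) (C3 := pd0)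
    rfl k0_mm_102_b

noncomputable def f_mm_112_a : ℕ → ℕ → ℕ → ℕ → Bool := onCell 536870912 536870912 0 536870912 536870912 50465866
    (rowB 3 eng mog cd1q1 cd2q2a pd1 0 false false false .dn 1 1 2 (qsf 536870912 536870912 0 536870912 1) ndB1q1 ndB2q2a pcB1 Cut.none Ext.none)

def k0_mm_112_a : ∃ t, chk3 f_mm_112_a t 1 1 1 = true :=
  ⟨(l 5), by decide +kernel⟩

theorem c_mm_112_a : CertB 536870912 536870912 0 536870912 536870912 50465866 3 eng mog cd1q1 cd2q2a pd1 false false false .dn 1 1 2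
    ndB1q1 ndB2q2a pcB1 Cut.none Ext.none :=
  certB0 (fam := false) (s1 := false) (s2 := false) (a := 1) (b := 1) (c := 2) (cn := .dn) (n1 := ndB1q1) (n2 := ndB2q2a) (pc := pcB1) (cut := Cut.none) (xt := Ext.none) (P1 := 536870912) (W1 := 536870912) (P2 := 0) (W2 := 536870912) (P3 := 536870912) (W3 := 50465866) (N0 := 3) (En := eng) (mo := mog) (C1 := cd1q1) (C2 := cd2q2a) (C3 := pd1)
    rfl k0_mm_112_a

noncomputable def f_mm_112_b : ℕ → ℕ → ℕ → ℕ → Bool := onCell 536870912 536870912 1239849684 370763052 536870912 50465866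
    (rowB 3 eng mog cd1q1 cd2q2b pd1 0 false false false .dn 1 1 2 (qsf 536870912 536870912 1239849684 370763052 1) ndB1q1 ndB2q2b pcB1 Cut.none Ext.none)

def k0_mm_112_b : ∃ t, chk3 f_mm_112_b t 1 1 1 = true :=
  ⟨(l 5), by decide +kernel⟩

theorem c_mm_112_b : CertB 536870912 536870912 1239849684 370763052 536870912 50465866 3 eng mog cd1q1 cd2q2b pd1 false false false .dn 1 1 2
    ndB1q1 ndB2q2b pcB1 Cut.none Ext.none :=
  certB0 (fam := false) (s1 := false) (s2 := false) (a := 1) (b := 1) (c := 2) (cn := .dn) (n1 := ndB1q1) (n2 := ndB2q2b) (pc := pcB1) (cut := Cut.none) (xt := Ext.none) (P1 := 536870912) (W1 := 536870912) (P2 := 1239849684) (W2 := 370763052) (P3 := 536870912) (W3 := 50465866) (N0 := 3) (En := eng) (mo := mog) (C1 := cd1q1) (C2 := cd2q2b) (C3 := pd1)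
    rfl k0_mm_112_b

noncomputable def f_mm_113 : ℕ → ℕ → ℕ → ℕ → Bool := onCell 536870912 536870912 1610612736 536870912 536870912 50465866
    (rowB 3 eng mog cd1q1 cd2q3 pd1 0 false false false .nn 1 1 3 (qsf 536870912 536870912 1610612736 536870912 1) ndB1q1 ndB2q3 pcB1 Cut.none Ext.none)

def k0_mm_113 : ∃ t, chk3 f_mm_113 t 1 1 1 = true :=
  ⟨(l 5), by decide +kernel⟩

theorem c_mm_113 : CertB 536870912 536870912 1610612736 536870912 536870912 50465866 3 eng mog cd1q1 cd2q3 pd1 false false false .nn 1 1 3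
    ndB1q1 ndB2q3 pcB1 Cut.none Ext.none :=
  certB0 (fam := false) (s1 := false) (s2 := false) (a := 1) (b := 1) (c := 3) (cn := .nn) (n1 := ndB1q1) (n2 := ndB2q3) (pc := pcB1) (cut := Cut.none) (xt := Ext.none) (P1 := 536870912) (W1 := 536870912) (P2 := 1610612736) (W2 := 536870912) (P3 := 536870912) (W3 := 50465866) (N0 := 3) (En := eng) (mo := mog) (C1 := cd1q1) (C2 := cd2q3) (C3 := pd1)
    rfl k0_mm_113

noncomputable def f_mm_123 : ℕ → ℕ → ℕ → ℕ → Bool := onCell 536870912 536870912 1610612736 536870912 536870912 50465866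
    (rowB 3 eng mog cd1q1 cd2q3 pd2 0 false false false .npn 1 2 3 (qsf 536870912 536870912 1610612736 536870912 2) ndB1q1 ndB2q3 pcB2 Cut.none Ext.none)

def k0_mm_123 : ∃ t, chk3 f_mm_123 t 1 1 1 = true :=
  ⟨(l 5), by decide +kernel⟩

theorem c_mm_123 : CertB 536870912 536870912 1610612736 536870912 536870912 50465866 3 eng mog cd1q1 cd2q3 pd2 false false false .npn 1 2 3
    ndB1q1 ndB2q3 pcB2 Cut.none Ext.none :=
  certB0 (fam := false) (s1 := false) (s2 := false) (a := 1) (b := 2) (c := 3) (cn := .npn) (n1 := ndB1q1) (n2 := ndB2q3) (pc := pcB2) (cut := Cut.none) (xt := Ext.none) (P1 := 536870912) (W1 := 536870912) (P2 := 1610612736) (W2 := 536870912) (P3 := 536870912) (W3 := 50465866) (N0 := 3) (En := eng) (mo := mog) (C1 := cd1q1) (C2 := cd2q3) (C3 := pd2)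
    rfl k0_mm_123

noncomputable def f_mm_133 : ℕ → ℕ → ℕ → ℕ → Bool := onCell 536870912 536870912 1610612736 536870912 536870912 50465866
    (rowB 3 eng mog cd1q1 cd2q3 pd3 0 false false false .dn 1 3 3 (qsf 536870912 536870912 1610612736 536870912 3) ndB1q1 ndB2q3 pcB3 Cut.none Ext.none)

def k0_mm_133 : ∃ t, chk3 f_mm_133 t 1 1 1 = true :=
  ⟨(l 5), by decide +kernel⟩

theorem c_mm_133 : CertB 536870912 536870912 1610612736 536870912 536870912 50465866 3 eng mog cd1q1 cd2q3 pd3 false false false .dn 1 3 3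
    ndB1q1 ndB2q3 pcB3 Cut.none Ext.none :=
  certB0 (fam := false) (s1 := false) (s2 := false) (a := 1) (b := 3) (c := 3) (cn := .dn) (n1 := ndB1q1) (n2 := ndB2q3) (pc := pcB3) (cut := Cut.none) (xt := Ext.none) (P1 := 536870912) (W1 := 536870912) (P2 := 1610612736) (W2 := 536870912) (P3 := 536870912) (W3 := 50465866) (N0 := 3) (En := eng) (mo := mog) (C1 := cd1q1) (C2 := cd2q3) (C3 := pd3)
    rfl k0_mm_133

noncomputable def f_mm_202_aa : ℕ → ℕ → ℕ → ℕ → Bool := onCell 0 536870912 0 536870912 536870912 50465866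
    (rowB 3 eng mog cd1q2a cd2q2a pd0 0 false false false .pp 2 0 2 (qsf 0 536870912 0 536870912 0) ndB1q2a ndB2q2a pcB0 Cut.none Ext.none)

def k0_mm_202_aa : ∃ t, chk3 f_mm_202_aa t 1 1 1 = true :=
  ⟨(l 3), by decide +kernel⟩

theorem c_mm_202_aa : CertB 0 536870912 0 536870912 536870912 50465866 3 eng mog cd1q2a cd2q2a pd0 false false false .pp 2 0 2
    ndB1q2a ndB2q2a pcB0 Cut.none Ext.none :=
  certB0 (fam := false) (s1 := false) (s2 := false) (a := 2) (b := 0) (c := 2) (cn := .pp) (n1 := ndB1q2a) (n2 := ndB2q2a) (pc := pcB0) (cut := Cut.none) (xt := Ext.none) (P1 := 0) (W1 := 536870912) (P2 := 0) (W2 := 536870912) (P3 := 536870912) (W3 := 50465866) (N0 := 3) (En := eng) (mo := mog) (C1 := cd1q2a) (C2 := cd2q2a) (C3 := pd0)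
    rfl k0_mm_202_aa

noncomputable def f_mm_202_ab : ℕ → ℕ → ℕ → ℕ → Bool := onCell 0 536870912 1239849684 370763052 536870912 50465866
    (rowB 3 eng mog cd1q2a cd2q2b pd0 0 false false false .pp 2 0 2 (qsf 0 536870912 1239849684 370763052 0) ndB1q2a ndB2q2b pcB0 Cut.none Ext.none)

def k0_mm_202_ab : ∃ t, chk3 f_mm_202_ab t 1 1 1 = true :=
  ⟨(l 3), by decide +kernel⟩

theorem c_mm_202_ab : CertB 0 536870912 1239849684 370763052 536870912 50465866 3 eng mog cd1q2a cd2q2b pd0 false false false .pp 2 0 2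
    ndB1q2a ndB2q2b pcB0 Cut.none Ext.none :=
  certB0 (fam := false) (s1 := false) (s2 := false) (a := 2) (b := 0) (c := 2) (cn := .pp) (n1 := ndB1q2a) (n2 := ndB2q2b) (pc := pcB0) (cut := Cut.none) (xt := Ext.none) (P1 := 0) (W1 := 536870912) (P2 := 1239849684) (W2 := 370763052) (P3 := 536870912) (W3 := 50465866) (N0 := 3) (En := eng) (mo := mog) (C1 := cd1q2a) (C2 := cd2q2b) (C3 := pd0)
    rfl k0_mm_202_ab

noncomputable def f_mm_202_ba : ℕ → ℕ → ℕ → ℕ → Bool := onCell 1239849684 370763052 0 536870912 536870912 50465866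
    (rowB 3 eng mog cd1q2b cd2q2a pd0 0 false false false .pp 2 0 2 (qsf 1239849684 370763052 0 536870912 0) ndB1q2b ndB2q2a pcB0 Cut.none Ext.none)

def k0_mm_202_ba : ∃ t, chk3 f_mm_202_ba t 1 1 1 = true :=
  ⟨(l 3), by decide +kernel⟩

theorem c_mm_202_ba : CertB 1239849684 370763052 0 536870912 536870912 50465866 3 eng mog cd1q2b cd2q2a pd0 false false false .pp 2 0 2
    ndB1q2b ndB2q2a pcB0 Cut.none Ext.none :=
  certB0 (fam := false) (s1 := false) (s2 := false) (a := 2) (b := 0) (c := 2) (cn := .pp) (n1 := ndB1q2b) (n2 := ndB2q2a) (pc := pcB0) (cut := Cut.none) (xt := Ext.none) (P1 := 1239849684) (W1 := 370763052) (P2 := 0) (W2 := 536870912) (P3 := 536870912) (W3 := 50465866) (N0 := 3) (En := eng) (mo := mog) (C1 := cd1q2b) (C2 := cd2q2a) (C3 := pd0)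
    rfl k0_mm_202_ba

noncomputable def f_mm_202_bb : ℕ → ℕ → ℕ → ℕ → Bool := onCell 1239849684 370763052 1239849684 370763052 536870912 50465866
    (rowB 3 eng mog cd1q2b cd2q2b pd0 0 false false false .pp 2 0 2 (qsf 1239849684 370763052 1239849684 370763052 0) ndB1q2b ndB2q2b pcB0 Cut.none Ext.none)

def k0_mm_202_bb : ∃ t, chk3 f_mm_202_bb t 1 1 1 = true :=
  ⟨(l 3), by decide +kernel⟩

theorem c_mm_202_bb : CertB 1239849684 370763052 1239849684 370763052 536870912 50465866 3 eng mog cd1q2b cd2q2b pd0 false false false .pp 2 0 2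
    ndB1q2b ndB2q2b pcB0 Cut.none Ext.none :=
  certB0 (fam := false) (s1 := false) (s2 := false) (a := 2) (b := 0) (c := 2) (cn := .pp) (n1 := ndB1q2b) (n2 := ndB2q2b) (pc := pcB0) (cut := Cut.none) (xt := Ext.none) (P1 := 1239849684) (W1 := 370763052) (P2 := 1239849684) (W2 := 370763052) (P3 := 536870912) (W3 := 50465866) (N0 := 3) (En := eng) (mo := mog) (C1 := cd1q2b) (C2 := cd2q2b) (C3 := pd0)
    rfl k0_mm_202_bb

noncomputable def f_mm_203_a : ℕ → ℕ → ℕ → ℕ → Bool := onCell 0 536870912 0 536870912 536870912 50465866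
    (rowB 3 eng mog cd1q2a cd2q3 pd0 1 false false false .up 2 0 3 (qsf 0 536870912 1610612736 536870912 0) ndB1q2a ndB2q3 pcB0 Cut.none Ext.none)

def k0_mm_203_a : ∃ t, chk3 f_mm_203_a t 1 1 1 = true :=
  ⟨(l 3), by decide +kernel⟩

theorem c_mm_203_a : CertB 0 536870912 1610612736 536870912 536870912 50465866 3 eng mog cd1q2a cd2q3 pd0 false false false .up 2 0 3
    ndB1q2a ndB2q3 pcB0 Cut.none Ext.none :=
  certB1 (fam := false) (s1 := false) (s2 := false) (a := 2) (b := 0) (c := 3) (cn := .up) (n1 := ndB1q2a) (n2 := ndB2q3) (pc := pcB0) (cut := Cut.none) (xt := Ext.none) (P1 := 0) (W1 := 536870912) (P2 := 1610612736) (W2 := 536870912) (P3 := 536870912) (W3 := 50465866) (N0 := 3) (En := eng) (mo := mog) (C1 := cd1q2a) (C2 := cd2q3) (C3 := pd0)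
    rfl (fun _ => rfl) k0_mm_203_a

noncomputable def f_mm_203_b : ℕ → ℕ → ℕ → ℕ → Bool := onCell 1239849684 370763052 1610612736 536870912 536870912 50465866
    (rowB 3 eng mog cd1q2b cd2q3 pd0 0 false false false .up 2 0 3 (qsf 1239849684 370763052 1610612736 536870912 0) ndB1q2b ndB2q3 pcB0 Cut.none Ext.none)

def k0_mm_203_b : ∃ t, chk3 f_mm_203_b t 1 1 1 = true :=
  ⟨(l 3), by decide +kernel⟩

theorem c_mm_203_b : CertB 1239849684 370763052 1610612736 536870912 536870912 50465866 3 eng mog cd1q2b cd2q3 pd0 false false false .up 2 0 3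
    ndB1q2b ndB2q3 pcB0 Cut.none Ext.none :=
  certB0 (fam := false) (s1 := false) (s2 := false) (a := 2) (b := 0) (c := 3) (cn := .up) (n1 := ndB1q2b) (n2 := ndB2q3) (pc := pcB0) (cut := Cut.none) (xt := Ext.none) (P1 := 1239849684) (W1 := 370763052) (P2 := 1610612736) (W2 := 536870912) (P3 := 536870912) (W3 := 50465866) (N0 := 3) (En := eng) (mo := mog) (C1 := cd1q2b) (C2 := cd2q3) (C3 := pd0)
    rfl k0_mm_203_b

noncomputable def f_mm_213_a : ℕ → ℕ → ℕ → ℕ → Bool := onCell 0 536870912 1610612736 536870912 536870912 50465866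
    (rowB 3 eng mog cd1q2a cd2q3 pd1 0 false false false .pnn 2 1 3 (qsf 0 536870912 1610612736 536870912 1) ndB1q2a ndB2q3 pcB1 Cut.none Ext.none)

def k0_mm_213_a : ∃ t, chk3 f_mm_213_a t 1 1 1 = true :=
  ⟨(a (l 3) (l 5)), by decide +kernel⟩

theorem c_mm_213_a : CertB 0 536870912 1610612736 536870912 536870912 50465866 3 eng mog cd1q2a cd2q3 pd1 false false false .pnn 2 1 3
    ndB1q2a ndB2q3 pcB1 Cut.none Ext.none :=
  certB0 (fam := false) (s1 := false) (s2 := false) (a := 2) (b := 1) (c := 3) (cn := .pnn) (n1 := ndB1q2a) (n2 := ndB2q3) (pc := pcB1) (cut := Cut.none) (xt := Ext.none) (P1 := 0) (W1 := 536870912) (P2 := 1610612736) (W2 := 536870912) (P3 := 536870912) (W3 := 50465866) (N0 := 3) (En := eng) (mo := mog) (C1 := cd1q2a) (C2 := cd2q3) (C3 := pd1)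
    rfl k0_mm_213_a

noncomputable def f_mm_213_b : ℕ → ℕ → ℕ → ℕ → Bool := onCell 1239849684 370763052 1610612736 536870912 536870912 50465866
    (rowB 3 eng mog cd1q2b cd2q3 pd1 0 false false false .pnn 2 1 3 (qsf 1239849684 370763052 1610612736 536870912 1) ndB1q2b ndB2q3 pcB1 Cut.none Ext.none)

def k0_mm_213_b : ∃ t, chk3 f_mm_213_b t 1 1 1 = true :=
  ⟨(l 3), by decide +kernel⟩

theorem c_mm_213_b : CertB 1239849684 370763052 1610612736 536870912 536870912 50465866 3 eng mog cd1q2b cd2q3 pd1 false false false .pnn 2 1 3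
    ndB1q2b ndB2q3 pcB1 Cut.none Ext.none :=
  certB0 (fam := false) (s1 := false) (s2 := false) (a := 2) (b := 1) (c := 3) (cn := .pnn) (n1 := ndB1q2b) (n2 := ndB2q3) (pc := pcB1) (cut := Cut.none) (xt := Ext.none) (P1 := 1239849684) (W1 := 370763052) (P2 := 1610612736) (W2 := 536870912) (P3 := 536870912) (W3 := 50465866) (N0 := 3) (En := eng) (mo := mog) (C1 := cd1q2b) (C2 := cd2q3) (C3 := pd1)
    rfl k0_mm_213_b

noncomputable def f_mm_303 : ℕ → ℕ → ℕ → ℕ → Bool := onCell 1610612736 536870912 1610612736 536870912 536870912 50465866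
    (rowB 3 eng mog cd1q3 cd2q3 pd0 0 false false false .npn 3 0 3 (qsf 1610612736 536870912 1610612736 536870912 0) ndB1q3 ndB2q3 pcB0 Cut.none Ext.none)

def k0_mm_303 : ∃ t, chk3 f_mm_303 t 1 1 1 = true :=
  ⟨(l 3), by decide +kernel⟩

theorem c_mm_303 : CertB 1610612736 536870912 1610612736 536870912 536870912 50465866 3 eng mog cd1q3 cd2q3 pd0 false false false .npn 3 0 3
    ndB1q3 ndB2q3 pcB0 Cut.none Ext.none :=
  certB0 (fam := false) (s1 := false) (s2 := false) (a := 3) (b := 0) (c := 3) (cn := .npn) (n1 := ndB1q3) (n2 := ndB2q3) (pc := pcB0) (cut := Cut.none) (xt := Ext.none) (P1 := 1610612736) (W1 := 536870912) (P2 := 1610612736) (W2 := 536870912) (P3 := 536870912) (W3 := 50465866) (N0 := 3) (En := eng) (mo := mog) (C1 := cd1q3) (C2 := cd2q3) (C3 := pd0)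
    rfl k0_mm_303

noncomputable def f_mm_313 : ℕ → ℕ → ℕ → ℕ → Bool := onCell 1610612736 536870912 1610612736 536870912 536870912 50465866
    (rowB 3 eng mog cd1q3 cd2q3 pd1 0 false false false .dn 3 1 3 (qsf 1610612736 536870912 1610612736 536870912 1) ndB1q3 ndB2q3 pcB1 Cut.none Ext.none)

def k0_mm_313 : ∃ t, chk3 f_mm_313 t 1 1 1 = true :=
  ⟨(l 3), by decide +kernel⟩

theorem c_mm_313 : CertB 1610612736 536870912 1610612736 536870912 536870912 50465866 3 eng mog cd1q3 cd2q3 pd1 false false false .dn 3 1 3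
    ndB1q3 ndB2q3 pcB1 Cut.none Ext.none :=
  certB0 (fam := false) (s1 := false) (s2 := false) (a := 3) (b := 1) (c := 3) (cn := .dn) (n1 := ndB1q3) (n2 := ndB2q3) (pc := pcB1) (cut := Cut.none) (xt := Ext.none) (P1 := 1610612736) (W1 := 536870912) (P2 := 1610612736) (W2 := 536870912) (P3 := 536870912) (W3 := 50465866) (N0 := 3) (En := eng) (mo := mog) (C1 := cd1q3) (C2 := cd2q3) (C3 := pd1)
    rfl k0_mm_313

end Pool.Agent.Strip051.G.I5000_5470.Tab.C.BB12

namespace Pool.Agent.Strip051.G.I5000_5470.Tab.C.BB13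

open Pool.Agent.Strip051.PB Pool.Agent.Strip051.PB.T
open Pool.Agent.Strip051.G.I5000_5470.Tab

noncomputable def f_pp_001 : ℕ → ℕ → ℕ → ℕ → Bool := onCell 0 536870912 536870912 536870912 536870912 50465866
    (rowB 3 eng mog cd1q0 cd3q1 pd0 0 false true true .up 0 0 1 (qsf 0 536870912 536870912 536870912 0) ndB1q0 ndB3q1 pcB0 Cut.none Ext.none)

def k0_pp_001 : ∃ t, chk3 f_pp_001 t 1 1 1 = true :=
  ⟨(l 3), by decide +kernel⟩

theorem c_pp_001 : CertB 0 536870912 536870912 536870912 536870912 50465866 3 eng mog cd1q0 cd3q1 pd0 false true true .up 0 0 1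
    ndB1q0 ndB3q1 pcB0 Cut.none Ext.none :=
  certB0 (fam := false) (s1 := true) (s2 := true) (a := 0) (b := 0) (c := 1) (cn := .up) (n1 := ndB1q0) (n2 := ndB3q1) (pc := pcB0) (cut := Cut.none) (xt := Ext.none) (P1 := 0) (W1 := 536870912) (P2 := 536870912) (W2 := 536870912) (P3 := 536870912) (W3 := 50465866) (N0 := 3) (En := eng) (mo := mog) (C1 := cd1q0) (C2 := cd3q1) (C3 := pd0)
    rfl k0_pp_001

noncomputable def f_pp_011 : ℕ → ℕ → ℕ → ℕ → Bool := onCell 0 536870912 536870912 536870912 536870912 50465866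
    (rowB 3 eng mog cd1q0 cd3q1 pd1 0 false true true .pnn 0 1 1 (qsf 0 536870912 536870912 536870912 1) ndB1q0 ndB3q1 pcB1 Cut.none Ext.none)

def k0_pp_011 : ∃ t, chk3 f_pp_011 t 1 1 1 = true :=
  ⟨(l 3), by decide +kernel⟩

theorem c_pp_011 : CertB 0 536870912 536870912 536870912 536870912 50465866 3 eng mog cd1q0 cd3q1 pd1 false true true .pnn 0 1 1
    ndB1q0 ndB3q1 pcB1 Cut.none Ext.none :=
  certB0 (fam := false) (s1 := true) (s2 := true) (a := 0) (b := 1) (c := 1) (cn := .pnn) (n1 := ndB1q0) (n2 := ndB3q1) (pc := pcB1) (cut := Cut.none) (xt := Ext.none) (P1 := 0) (W1 := 536870912) (P2 := 536870912) (W2 := 536870912) (P3 := 536870912) (W3 := 50465866) (N0 := 3) (En := eng) (mo := mog) (C1 := cd1q0) (C2 := cd3q1) (C3 := pd1)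
    rfl k0_pp_011

noncomputable def cut_pp_012_a : Cut := Cut.of [[⟨0, 0, 0, 67108864⟩, ⟨1, 1, 0, 67108864⟩, ⟨2, 1, 0, 67108864⟩]]

noncomputable def f_pp_012_a : ℕ → ℕ → ℕ → ℕ → Bool := onCell 536870912 536870912 0 536870912 536870912 50465866
    (rowB 3 eng mog cd1q0 cd3q2a pd1 2 false true true .pnp 0 1 2 (qsf 0 536870912 0 536870912 1) ndB1q0 ndB3q2a pcB1 cut_pp_012_a Ext.none)

def k0_pp_012_a : ∃ t, chk3 f_pp_012_a t 1 1 1 = true :=
  ⟨(a (l 3) (a (l 3) (b (a (a (b (l 3) (l 3)) (b (b (a (l 16686224) (l 16667824)) (a (l 16701912) (l 16683144))) (b (a (l 3) (l 16700720)) (l 3)))) (a (b (b (a (l 16650312) (l 16633216)) (a (l 16664816) (l 16646760))) (b (a (l 16681888) (l 16663216)) (a (l 16743480) (l 16682536)))) (a (b (l 16623208) (b (l 16644960) (l 16663888))) (b (l 16627984) (b (l 16627368) (l 16666800)))))) (a (l 3) (b (a (b (a (b (l 16717824) (l 3)) (b (l 16698776) (l 16731672))) (a (l 3) (a (l 3) (b (l 16718744) (l 16732752))))) (b (a (b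 (l 16680024) (l 16692000)) (b (l 16661840) (l 16695056))) (a (b (a (l 16709480) (l 16700512)) (a (l 16744808) (l 16715192))) (a (b (l 16691848) (l 16706640)) (b (l 16683400) (l 16698136)))))) (a (l 3) (a (b (a (b (b (l 16735568) (l 16743856)) (l 3)) (b (b (l 16726920) (l 16735176)) (b (l 16743720) (a (l 3) (l 16750472))))) (l 3)) (b (b (a (l 16743480) (b (l 16709840) (l 16718080))) (a (b (l 16735144) (a (l 16746168) (l 6))) (b (l 16726640) (l 6)))) (l 6))))))))), by decide +kernel⟩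

theorem c_pp_012_a : CertB 0 536870912 0 536870912 536870912 50465866 3 eng mog cd1q0 cd3q2a pd1 false true true .pnp 0 1 2
    ndB1q0 ndB3q2a pcB1 cut_pp_012_a Ext.none :=
  certB2 (fam := false) (s1 := true) (s2 := true) (a := 0) (b := 1) (c := 2) (cn := .pnp) (n1 := ndB1q0) (n2 := ndB3q2a) (pc := pcB1) (cut := cut_pp_012_a) (xt := Ext.none) (P1 := 0) (W1 := 536870912) (P2 := 0) (W2 := 536870912) (P3 := 536870912) (W3 := 50465866) (N0 := 3) (En := eng) (mo := mog) (C1 := cd1q0) (C2 := cd3q2a) (C3 := pd1)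
    rfl (fun _ => rfl) k0_pp_012_a

noncomputable def cut_pp_012_b : Cut := Cut.of [[⟨0, 0, 0, 67108864⟩, ⟨1, 1, 0, 67108864⟩, ⟨2, 1, 0, 67108864⟩]]

noncomputable def f_pp_012_b : ℕ → ℕ → ℕ → ℕ → Bool := onCell 536870912 536870912 1239849684 370763052 536870912 50465866
    (rowB 3 eng mog cd1q0 cd3q2b pd1 2 false true true .pnp 0 1 2 (qsf 0 536870912 1239849684 370763052 1) ndB1q0 ndB3q2b pcB1 cut_pp_012_b Ext.none)

def k0_pp_012_b : ∃ t, chk3 f_pp_012_b t 1 1 1 = true :=
  ⟨(a (l 3) (a (l 3) (b (a (b (a (l 3) (b (a (l 16683576) (l 16643320)) (a (l 16634400) (l 16613256)))) (a (l 3) (b (l 16685568) (l 16583760)))) (b (a (a (b (l 16624600) (l 16592160)) (b (l 16606712) (l 16571400))) (a (l 16653992) (b (l 16574600) (l 16532736)))) (a (b (l 16555512) (l 16533440)) (a (l 16571320) (l 16548544))))) (a (a (b (l 3) (l 2)) (b (b (l 16571960) (l 16580752)) (l 16655768))) (b (a (b (l 16518840) (l 16524696)) (b (l 16465456) (l 16467272))) (a (l 16596184)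 (l 16532208))))))), by decide +kernel⟩

theorem c_pp_012_b : CertB 0 536870912 1239849684 370763052 536870912 50465866 3 eng mog cd1q0 cd3q2b pd1 false true true .pnp 0 1 2
    ndB1q0 ndB3q2b pcB1 cut_pp_012_b Ext.none :=
  certB2 (fam := false) (s1 := true) (s2 := true) (a := 0) (b := 1) (c := 2) (cn := .pnp) (n1 := ndB1q0) (n2 := ndB3q2b) (pc := pcB1) (cut := cut_pp_012_b) (xt := Ext.none) (P1 := 0) (W1 := 536870912) (P2 := 1239849684) (W2 := 370763052) (P3 := 536870912) (W3 := 50465866) (N0 := 3) (En := eng) (mo := mog) (C1 := cd1q0) (C2 := cd3q2b) (C3 := pd1)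
    rfl (fun _ => rfl) k0_pp_012_b

noncomputable def cut_pp_022_a : Cut := Cut.of [[⟨0, 0, 0, 67108864⟩, ⟨1, 1, 0, 67108864⟩, ⟨2, 1, 0, 67108864⟩]]

noncomputable def f_pp_022_a : ℕ → ℕ → ℕ → ℕ → Bool := onCell 1073741824 536870912 0 536870912 536870912 50465866
    (rowB 3 eng mog cd1q0 cd3q2a pd2 2 false true true .pp 0 2 2 (qsf 0 536870912 0 536870912 2) ndB1q0 ndB3q2a pcB2 cut_pp_022_a Ext.none)

def k0_pp_022_a : ∃ t, chk3 f_pp_022_a t 2 2 1 = true :=
  ⟨(a (a (a (b (c (l 16626640) (l 16647640)) (b (l 16644072) (b (l 16636480) (l 16709848)))) (b (a (b (l 16571496) (l 16576552)) (l 16586552)) (b (l 16582304) (a (l 16602736) (l 16591912))))) (b (a (b (l 16548360) (l 16552392)) (a (l 16555224) (a (l 16525528) (l 16519544)))) (a (b (l 16603016) (a (l 16580256) (l 16567736))) (b (a (l 16543072) (b (l 16528080) (l 16532288))) (a (b (l 16551024) (l 16557600)) (b (a (l 16540800) (l 16533752)) (a (l 16546808) (l 102038549095)))))))) (a (a (b (a (b (l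 16508952) (a (l 16514264) (l 16507856))) (a (b (l 16499656) (b (l 16500424) (l 16502128))) (a (b (l 16495048) (l 141766917527)) (b (b (a (l 16492944) (c (l 16497600) (a (a (a (l 16485544) (a (l 16485488) (l 16485512))) (l 16485216)) (l 1)))) (a (l 16492760) (l 1))) (a (l 111165272023) (l 1)))))) (a (b (a (b (l 16518208) (l 16521992)) (b (l 16511456) (l 16514944))) (b (a (l 106333488327) (l 69826249607)) (a (l 64457568023) (l 1)))) (a (b (b (l 87006091559) (l 99354129047)) (l 1)) (l 1)))) (b (b (l 1) (l 1)) (l 1))) (l 1))), by decide +kernel⟩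

def k1_pp_022_a : ∃ t, chk3 f_pp_022_a t 2 3 1 = true :=
  ⟨(a (a (b (a (a (b (b (l 16644688) (l 16699376)) (b (a (l 16674744) (l 16667584)) (a (l 16689576) (l 16682352)))) (b (l 16636528) (b (l 16656400) (l 16692032)))) (b (a (l 16623744) (b (l 16605880) (l 16616824))) (a (b (l 16642528) (a (l 16660168) (l 16653072))) (b (a (l 16632392) (l 16625304)) (a (l 16645688) (b (l 16634696) (l 16641280))))))) (a (b (b (a (a (b (l 16701368) (l 16709672)) (c (l 16699112) (l 16697624))) (c (l 16708056) (l 16718296))) (l 6)) (l 6)) (a (b (b (a (b (l 16671568) (l 16679480)) (b (l 16664000) (l 16671576))) (l 6)) (l 6)) (b (a (b (b (l 16656152) (a (l 16665456) (l 16661288))) (l 6)) (a (b (b (l 16650080) (b (l 16655280) (l 6))) (l 6)) (b (b (l 16645952) (l 65531555303)) (l 1)))) (l 1))))) (b (b (a (a (b (l 16593152) (l 16603224)) (b (l 16579520) (a (l 16592368) (l 16584880)))) (a (b (a (l 16568704) (l 140156432151)) (a (b (l 16574896) (l 102038625319)) (b (l 86469342119)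 (l 16571192)))) (b (a (l 101501708375) (l 51035824887)) (l 1)))) (a (a (b (a (l 16618008) (l 16610448)) (a (b (l 16626968) (a (l 16635272) (l 16631184))) (b (l 139082802023) (a (l 16627024) (l 16622792))))) (b (a (b (l 16599936) (l 16605240)) (b (l 16592040) (l 73047630103))) (a (b (a (l 16612792) (l 16608600)) (l 1)) (l 1)))) (a (b (a (b (l 61236442567) (l 1)) (l 1)) (l 1)) (l 1)))) (b (b (a (a (b (a (a (l 99891269559) (l 66068393255)) (l 18286869383)) (a (c (l 16648392) (l 16643552)) (l 1))) (l 1)) (l 1)) (l 1)) (l 1)))) (b (l 1) (l 1))), by decide +kernel⟩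

def k2_pp_022_a : ∃ t, chk3 f_pp_022_a t 3 1 1 = true :=
  ⟨(l 1), by decide +kernel⟩

theorem s3_pp_022_a : ∃ t, chk3 f_pp_022_a t 2 1 1 = true := ex3_b k0_pp_022_a k1_pp_022_a

theorem s4_pp_022_a : ∃ t, chk3 f_pp_022_a t 1 1 1 = true := ex3_a s3_pp_022_a k2_pp_022_a

theorem c_pp_022_a : CertB 0 536870912 0 536870912 536870912 50465866 3 eng mog cd1q0 cd3q2a pd2 false true true .pp 0 2 2
    ndB1q0 ndB3q2a pcB2 cut_pp_022_a Ext.none :=
  certB2 (fam := false) (s1 := true) (s2 := true) (a := 0) (b := 2) (c := 2) (cn := .pp) (n1 := ndB1q0) (n2 := ndB3q2a) (pc := pcB2) (cut := cut_pp_022_a) (xt := Ext.none) (P1 := 0) (W1 := 536870912) (P2 := 0) (W2 := 536870912) (P3 := 536870912) (W3 := 50465866) (N0 := 3) (En := eng) (mo := mog) (C1 := cd1q0) (C2 := cd3q2a) (C3 := pd2)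
    rfl (fun _ => rfl) s4_pp_022_a

noncomputable def cut_pp_022_b : Cut := Cut.of [[⟨0, 0, 0, 67108864⟩, ⟨1, 1, 0, 67108864⟩, ⟨2, 1, 0, 67108864⟩]]

noncomputable def f_pp_022_b : ℕ → ℕ → ℕ → ℕ → Bool := onCell 0 536870912 1073741824 536870912 536870912 50465866
    (rowB 3 eng mog cd1q0 cd3q2b pd2 1 false true true .pp 0 2 2 (qsf 0 536870912 1239849684 370763052 2) ndB1q0 ndB3q2b pcB2 cut_pp_022_b Ext.none)

def k0_pp_022_b : ∃ t, chk3 f_pp_022_b t 2 2 1 = true :=
  ⟨(b (a (b (a (l 1) (b (a (l 1) (a (l 1) (l 191696163207))) (a (b (l 1) (l 119218610967)) (b (l 69826562791) (l 16572976))))) (a (b (a (l 1) (b (l 1) (l 154115166551))) (a (a (l 1) (b (l 1) (l 184716712263))) (b (l 163241917767) (l 90764292871)))) (b (a (b (l 132640324919) (l 16533584)) (l 16619744)) (a (b (l 16509040) (l 16485344)) (l 16467920))))) (b (a (b (a (l 111165521639) (l 16558632)) (a (l 16527992) (l 16487680))) (b (l 16535024) (l 16432808))) (a (a (b (l 16480376) (l 16435376))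 (l 16453680)) (b (l 16380528) (l 16342512))))) (a (b (a (b (b (a (b (l 197601535543) (l 200822736583)) (l 16488944)) (a (b (a (l 205654584775) (l 16489960)) (a (b (l 211560133063) (b (a (l 16491504) (l 16485992)) (a (c (l 16494760) (a (b (b (b (l 16484720) (l 145524994855)) (l 16484008)) (l 16482856)) (l 16481080))) (l 16483632)))) (b (l 16481440) (b (l 16477512) (l 16475264))))) (b (l 16471712) (b (l 16463504) (l 16480256))))) (a (b (a (b (b (l 16481808) (l 16476528)) (l 16469800)) (l 16463808)) (a (a (l 16459400) (l 16454936)) (l 16448000))) (b (l 16447008) (l 16433312)))) (b (b (a (l 16462488) (l 16434320)) (b (l 16432352) (a (b (l 16438008) (l 16434248)) (l 16431496)))) (a (l 16417264) (l 16393568)))) (a (a (b (a (a (b (l 16443984) (l 16430568)) (l 16433568)) (l 16428168)) (a (a (b (l 16440120) (l 16430672)) (l 16411960)) (l 16408520))) (b (l 16416584) (l 16401664))) (a (l 16395064) (l 16380840)))) (b (b (a (b (l 16387312) (b (l 16372648) (l 16471296)))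 (b (l 16313904) (b (l 16298904) (l 16291912)))) (a (l 16395760) (l 16275240))) (a (a (l 16362032) (l 16333192)) (l 16265936))))), by decide +kernel⟩

def k1_pp_022_b : ∃ t, chk3 f_pp_022_b t 2 3 1 = true :=
  ⟨(b (a (a (b (a (b (a (b (a (l 16402240) (l 16401104)) (l 16397520)) (l 16398056)) (a (b (l 16396224) (l 16397040)) (l 16397440))) (b (l 16395568) (l 16397992))) (a (b (a (l 16400048) (l 16402704)) (a (l 16404632) (l 16403536))) (b (l 16401728) (l 16393568)))) (b (a (b (l 16390456) (l 16393264)) (l 16376472)) (a (l 16381496) (l 16359560)))) (b (a (l 16337632) (l 16260880)) (a (l 16321864) (l 16274688)))) (b (a (a (a (a (b (l 16399800) (l 16386320)) (l 16384208)) (l 16371800)) (l 16344368)) (l 16375360)) (a (b (a (a (l 16371040) (l 16353824)) (l 16325392)) (a (b (a (l 16364456) (l 16347288)) (l 16388144)) (l 2))) (l 2)))), by decide +kernel⟩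

def k2_pp_022_b : ∃ t, chk3 f_pp_022_b t 3 1 1 = true :=
  ⟨(b (b (a (b (a (b (l 16447056) (l 16391360)) (b (l 16501320) (l 16379512))) (a (l 16470728) (l 16379992))) (a (b (l 16494152) (l 16403392)) (b (l 16504072) (l 16508992)))) (b (a (b (b (l 16301880) (a (l 16237968) (l 16298360))) (l 16286544)) (b (b (l 16458112) (l 2)) (l 2))) (a (l 16336456) (l 2)))) (b (a (b (l 16360488) (l 2)) (l 2)) (l 2))), by decide +kernel⟩

theorem s3_pp_022_b : ∃ t, chk3 f_pp_022_b t 2 1 1 = true := ex3_b k0_pp_022_b k1_pp_022_b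

theorem s4_pp_022_b : ∃ t, chk3 f_pp_022_b t 1 1 1 = true := ex3_a s3_pp_022_b k2_pp_022_b

theorem c_pp_022_b : CertB 0 536870912 1239849684 370763052 536870912 50465866 3 eng mog cd1q0 cd3q2b pd2 false true true .pp 0 2 2
    ndB1q0 ndB3q2b pcB2 cut_pp_022_b Ext.none :=
  certB1 (fam := false) (s1 := true) (s2 := true) (a := 0) (b := 2) (c := 2) (cn := .pp) (n1 := ndB1q0) (n2 := ndB3q2b) (pc := pcB2) (cut := cut_pp_022_b) (xt := Ext.none) (P1 := 0) (W1 := 536870912) (P2 := 1239849684) (W2 := 370763052) (P3 := 536870912) (W3 := 50465866) (N0 := 3) (En := eng) (mo := mog) (C1 := cd1q0) (C2 := cd3q2b) (C3 := pd2)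
    rfl (fun _ => rfl) s4_pp_022_b

noncomputable def f_pp_023 : ℕ → ℕ → ℕ → ℕ → Bool := onCell 1073741824 536870912 1610612736 536870912 536870912 50465866
    (rowB 3 eng mog cd1q0 cd3q3 pd2 2 false true true .up 0 2 3 (qsf 0 536870912 1610612736 536870912 2) ndB1q0 ndB3q3 pcB2 Cut.none Ext.none)

def k0_pp_023 : ∃ t, chk3 f_pp_023 t 1 1 1 = true :=
  ⟨(a (a (b (b (a (b (l 16492552) (l 16626696)) (l 16460960)) (a (l 2) (l 16674344))) (l 2)) (b (a (b (a (a (l 16390832) (l 16364128)) (l 16328160)) (a (a (l 16645816) (l 16634144)) (l 16617712))) (b (l 16281544) (l 16590608))) (a (l 2) (b (l 16701120) (l 2))))) (a (b (b (a (l 16267192) (l 16421760)) (a (l 16564800) (l 16555584))) (b (l 16691192) (l 16732128))) (a (b (b (b (l 16370480) (l 16410344)) (l 16559384)) (l 16715568)) (b (b (a (l 16395120) (b (a (l 16398016) (l 16440744)) (l 16478680))) (a (l 16568904) (l 16582752))) (b (l 16681912) (l 16731920)))))), by decide +kernel⟩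

theorem c_pp_023 : CertB 0 536870912 1610612736 536870912 536870912 50465866 3 eng mog cd1q0 cd3q3 pd2 false true true .up 0 2 3
    ndB1q0 ndB3q3 pcB2 Cut.none Ext.none :=
  certB2 (fam := false) (s1 := true) (s2 := true) (a := 0) (b := 2) (c := 3) (cn := .up) (n1 := ndB1q0) (n2 := ndB3q3) (pc := pcB2) (cut := Cut.none) (xt := Ext.none) (P1 := 0) (W1 := 536870912) (P2 := 1610612736) (W2 := 536870912) (P3 := 536870912) (W3 := 50465866) (N0 := 3) (En := eng) (mo := mog) (C1 := cd1q0) (C2 := cd3q3) (C3 := pd2)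
    rfl (fun _ => rfl) k0_pp_023

noncomputable def f_pp_033 : ℕ → ℕ → ℕ → ℕ → Bool := onCell 0 536870912 1610612736 536870912 536870912 50465866
    (rowB 3 eng mog cd1q0 cd3q3 pd3 1 false true true .pnn 0 3 3 (qsf 0 536870912 1610612736 536870912 3) ndB1q0 ndB3q3 pcB3 Cut.none Ext.none)

def k0_pp_033 : ∃ t, chk3 f_pp_033 t 1 1 1 = true :=
  ⟨(a (b (b (b (a (b (a (a (l 16419080) (l 16460088)) (l 16516096)) (a (l 16531072) (l 16579208))) (b (l 16611088) (l 16644912))) (a (a (b (l 16576344) (l 16597928)) (l 16621360)) (l 16670736))) (b (a (a (l 16640912) (l 16667264)) (l 16702784)) (a (b (l 16691072) (l 16707768)) (l 16717744)))) (b (b (a (l 16722160) (l 4)) (l 4)) (a (l 4) (a (b (l 4) (l 2)) (l 2))))) (b (a (b (b (l 16700888) (a (l 16709392) (l 16725064))) (b (l 16731200) (l 16738680))) (b (b (l 16742592) (l 16759032)) (a (b (l 16761512) (l 2)) (l 2)))) (a (b (a (b (l 4) (l 2)) (l 2)) (l 2)) (l 2)))), by decide +kernel⟩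

theorem c_pp_033 : CertB 0 536870912 1610612736 536870912 536870912 50465866 3 eng mog cd1q0 cd3q3 pd3 false true true .pnn 0 3 3
    ndB1q0 ndB3q3 pcB3 Cut.none Ext.none :=
  certB1 (fam := false) (s1 := true) (s2 := true) (a := 0) (b := 3) (c := 3) (cn := .pnn) (n1 := ndB1q0) (n2 := ndB3q3) (pc := pcB3) (cut := Cut.none) (xt := Ext.none) (P1 := 0) (W1 := 536870912) (P2 := 1610612736) (W2 := 536870912) (P3 := 536870912) (W3 := 50465866) (N0 := 3) (En := eng) (mo := mog) (C1 := cd1q0) (C2 := cd3q3) (C3 := pd3)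
    rfl (fun _ => rfl) k0_pp_033

noncomputable def f_pp_101 : ℕ → ℕ → ℕ → ℕ → Bool := onCell 536870912 536870912 536870912 536870912 536870912 50465866
    (rowB 3 eng mog cd1q1 cd3q1 pd0 0 false true true .npn 1 0 1 (qsf 536870912 536870912 536870912 536870912 0) ndB1q1 ndB3q1 pcB0 Cut.none Ext.none)

def k0_pp_101 : ∃ t, chk3 f_pp_101 t 1 1 1 = true :=
  ⟨(l 3), by decide +kernel⟩

theorem c_pp_101 : CertB 536870912 536870912 536870912 536870912 536870912 50465866 3 eng mog cd1q1 cd3q1 pd0 false true true .npn 1 0 1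
    ndB1q1 ndB3q1 pcB0 Cut.none Ext.none :=
  certB0 (fam := false) (s1 := true) (s2 := true) (a := 1) (b := 0) (c := 1) (cn := .npn) (n1 := ndB1q1) (n2 := ndB3q1) (pc := pcB0) (cut := Cut.none) (xt := Ext.none) (P1 := 536870912) (W1 := 536870912) (P2 := 536870912) (W2 := 536870912) (P3 := 536870912) (W3 := 50465866) (N0 := 3) (En := eng) (mo := mog) (C1 := cd1q1) (C2 := cd3q1) (C3 := pd0)
    rfl k0_pp_101

noncomputable def f_pp_102_a : ℕ → ℕ → ℕ → ℕ → Bool := onCell 536870912 536870912 0 536870912 536870912 50465866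
    (rowB 3 eng mog cd1q1 cd3q2a pd0 0 false true true .npp 1 0 2 (qsf 536870912 536870912 0 536870912 0) ndB1q1 ndB3q2a pcB0 Cut.none Ext.none)

def k0_pp_102_a : ∃ t, chk3 f_pp_102_a t 1 1 1 = true :=
  ⟨(l 3), by decide +kernel⟩

theorem c_pp_102_a : CertB 536870912 536870912 0 536870912 536870912 50465866 3 eng mog cd1q1 cd3q2a pd0 false true true .npp 1 0 2
    ndB1q1 ndB3q2a pcB0 Cut.none Ext.none :=
  certB0 (fam := false) (s1 := true) (s2 := true) (a := 1) (b := 0) (c := 2) (cn := .npp) (n1 := ndB1q1) (n2 := ndB3q2a) (pc := pcB0) (cut := Cut.none) (xt := Ext.none) (P1 := 536870912) (W1 := 536870912) (P2 := 0) (W2 := 536870912) (P3 := 536870912) (W3 := 50465866) (N0 := 3) (En := eng) (mo := mog) (C1 := cd1q1) (C2 := cd3q2a) (C3 := pd0)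
    rfl k0_pp_102_a

noncomputable def f_pp_102_b : ℕ → ℕ → ℕ → ℕ → Bool := onCell 536870912 536870912 0 536870912 536870912 50465866
    (rowB 3 eng mog cd1q1 cd3q2b pd0 1 false true true .npp 1 0 2 (qsf 536870912 536870912 1239849684 370763052 0) ndB1q1 ndB3q2b pcB0 Cut.none Ext.none)

def k0_pp_102_b : ∃ t, chk3 f_pp_102_b t 1 1 1 = true :=
  ⟨(l 3), by decide +kernel⟩

theorem c_pp_102_b : CertB 536870912 536870912 1239849684 370763052 536870912 50465866 3 eng mog cd1q1 cd3q2b pd0 false true true .npp 1 0 2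
    ndB1q1 ndB3q2b pcB0 Cut.none Ext.none :=
  certB1 (fam := false) (s1 := true) (s2 := true) (a := 1) (b := 0) (c := 2) (cn := .npp) (n1 := ndB1q1) (n2 := ndB3q2b) (pc := pcB0) (cut := Cut.none) (xt := Ext.none) (P1 := 536870912) (W1 := 536870912) (P2 := 1239849684) (W2 := 370763052) (P3 := 536870912) (W3 := 50465866) (N0 := 3) (En := eng) (mo := mog) (C1 := cd1q1) (C2 := cd3q2b) (C3 := pd0)
    rfl (fun _ => rfl) k0_pp_102_b

noncomputable def f_pp_112_a : ℕ → ℕ → ℕ → ℕ → Bool := onCell 536870912 536870912 0 536870912 536870912 50465866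
    (rowB 3 eng mog cd1q1 cd3q2a pd1 0 false true true .dn 1 1 2 (qsf 536870912 536870912 0 536870912 1) ndB1q1 ndB3q2a pcB1 Cut.none Ext.none)

def k0_pp_112_a : ∃ t, chk3 f_pp_112_a t 1 1 1 = true :=
  ⟨(l 3), by decide +kernel⟩

theorem c_pp_112_a : CertB 536870912 536870912 0 536870912 536870912 50465866 3 eng mog cd1q1 cd3q2a pd1 false true true .dn 1 1 2
    ndB1q1 ndB3q2a pcB1 Cut.none Ext.none :=
  certB0 (fam := false) (s1 := true) (s2 := true) (a := 1) (b := 1) (c := 2) (cn := .dn) (n1 := ndB1q1) (n2 := ndB3q2a) (pc := pcB1) (cut := Cut.none) (xt := Ext.none) (P1 := 536870912) (W1 := 536870912) (P2 := 0) (W2 := 536870912) (P3 := 536870912) (W3 := 50465866) (N0 := 3) (En := eng) (mo := mog) (C1 := cd1q1) (C2 := cd3q2a) (C3 := pd1)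
    rfl k0_pp_112_a

noncomputable def f_pp_112_b : ℕ → ℕ → ℕ → ℕ → Bool := onCell 536870912 536870912 1239849684 370763052 536870912 50465866
    (rowB 3 eng mog cd1q1 cd3q2b pd1 2 false true true .dn 1 1 2 (qsf 536870912 536870912 1239849684 370763052 1) ndB1q1 ndB3q2b pcB1 Cut.none Ext.none)

def k0_pp_112_b : ∃ t, chk3 f_pp_112_b t 1 1 1 = true :=
  ⟨(a (l 3) (a (l 3) (b (l 1) (a (b (a (l 3) (b (l 1) (l 16622848))) (a (l 3) (b (l 16686872) (l 16795568)))) (b (l 1) (a (l 39761667287) (l 16583280))))))), by decide +kernel⟩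

theorem c_pp_112_b : CertB 536870912 536870912 1239849684 370763052 536870912 50465866 3 eng mog cd1q1 cd3q2b pd1 false true true .dn 1 1 2
    ndB1q1 ndB3q2b pcB1 Cut.none Ext.none :=
  certB2 (fam := false) (s1 := true) (s2 := true) (a := 1) (b := 1) (c := 2) (cn := .dn) (n1 := ndB1q1) (n2 := ndB3q2b) (pc := pcB1) (cut := Cut.none) (xt := Ext.none) (P1 := 536870912) (W1 := 536870912) (P2 := 1239849684) (W2 := 370763052) (P3 := 536870912) (W3 := 50465866) (N0 := 3) (En := eng) (mo := mog) (C1 := cd1q1) (C2 := cd3q2b) (C3 := pd1)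
    rfl (fun _ => rfl) k0_pp_112_b

noncomputable def f_pp_113 : ℕ → ℕ → ℕ → ℕ → Bool := onCell 536870912 536870912 536870912 536870912 536870912 50465866
    (rowB 3 eng mog cd1q1 cd3q3 pd1 1 false true true .nn 1 1 3 (qsf 536870912 536870912 1610612736 536870912 1) ndB1q1 ndB3q3 pcB1 Cut.none Ext.none)

def k0_pp_113 : ∃ t, chk3 f_pp_113 t 1 1 1 = true :=
  ⟨(b (l 3) (b (a (l 3) (l 3)) (a (b (a (b (l 3) (a (l 16693920) (l 16853552))) (b (l 3) (a (l 16946784) (l 104321297255)))) (a (b (a (l 16676408) (l 16840064)) (a (l 16657400) (l 16827440))) (a (b (l 16947712) (l 16930208)) (b (l 16999120) (l 16974648))))) (b (b (l 3) (a (a (l 17029336) (l 17012008)) (a (l 263234501559) (l 3)))) (a (b (l 16983696) (l 16952096)) (b (a (l 16929288) (l 16898744)) (a (l 16890472) (l 16831376)))))))), by decide +kernel⟩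

theorem c_pp_113 : CertB 536870912 536870912 1610612736 536870912 536870912 50465866 3 eng mog cd1q1 cd3q3 pd1 false true true .nn 1 1 3
    ndB1q1 ndB3q3 pcB1 Cut.none Ext.none :=
  certB1 (fam := false) (s1 := true) (s2 := true) (a := 1) (b := 1) (c := 3) (cn := .nn) (n1 := ndB1q1) (n2 := ndB3q3) (pc := pcB1) (cut := Cut.none) (xt := Ext.none) (P1 := 536870912) (W1 := 536870912) (P2 := 1610612736) (W2 := 536870912) (P3 := 536870912) (W3 := 50465866) (N0 := 3) (En := eng) (mo := mog) (C1 := cd1q1) (C2 := cd3q3) (C3 := pd1)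
    rfl (fun _ => rfl) k0_pp_113

noncomputable def f_pp_123 : ℕ → ℕ → ℕ → ℕ → Bool := onCell 1073741824 536870912 1610612736 536870912 536870912 50465866
    (rowB 3 eng mog cd1q1 cd3q3 pd2 2 false true true .npn 1 2 3 (qsf 536870912 536870912 1610612736 536870912 2) ndB1q1 ndB3q3 pcB2 Cut.none Ext.none)

def k0_pp_123 : ∃ t, chk3 f_pp_123 t 1 1 1 = true :=
  ⟨(a (b (a (b (a (b (l 16561464) (l 16730768)) (l 121366026199)) (a (b (l 16848912) (l 16909368)) (b (l 16717680) (l 16804144)))) (b (a (a (l 120829132807) (l 1)) (l 1)) (a (a (a (l 16700688) (l 16678160)) (l 16649440)) (l 16611784)))) (a (b (a (l 16908528) (b (l 16844936) (l 16844144))) (a (b (l 16855312) (l 16800320)) (l 16796176))) (b (a (a (a (l 16807384) (l 16791656)) (l 16769488)) (l 16737216)) (a (a (l 16860552) (l 16767296)) (l 16759928))))) (a (b (b (l 1) (a (l 16591120) (l 1))) (b (a (l 16708688) (l 16695136)) (l 16788776))) (b (l 1) (a (l 216929792167) (b (l 1) (l 16840216)))))), by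 decide +kernel⟩

theorem c_pp_123 : CertB 536870912 536870912 1610612736 536870912 536870912 50465866 3 eng mog cd1q1 cd3q3 pd2 false true true .npn 1 2 3
    ndB1q1 ndB3q3 pcB2 Cut.none Ext.none :=
  certB2 (fam := false) (s1 := true) (s2 := true) (a := 1) (b := 2) (c := 3) (cn := .npn) (n1 := ndB1q1) (n2 := ndB3q3) (pc := pcB2) (cut := Cut.none) (xt := Ext.none) (P1 := 536870912) (W1 := 536870912) (P2 := 1610612736) (W2 := 536870912) (P3 := 536870912) (W3 := 50465866) (N0 := 3) (En := eng) (mo := mog) (C1 := cd1q1) (C2 := cd3q3) (C3 := pd2)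
    rfl (fun _ => rfl) k0_pp_123

noncomputable def f_pp_133 : ℕ → ℕ → ℕ → ℕ → Bool := onCell 1610612736 536870912 1610612736 536870912 536870912 50465866
    (rowB 3 eng mog cd1q1 cd3q3 pd3 2 false true true .dn 1 3 3 (qsf 536870912 536870912 1610612736 536870912 3) ndB1q1 ndB3q3 pcB3 Cut.none Ext.none)

def k0_pp_133 : ∃ t, chk3 f_pp_133 t 1 1 1 = true :=
  ⟨(a (b (l 1) (a (a (b (l 1) (l 16737320)) (l 1)) (l 1))) (l 1)), by decide +kernel⟩

theorem c_pp_133 : CertB 536870912 536870912 1610612736 536870912 536870912 50465866 3 eng mog cd1q1 cd3q3 pd3 false true true .dn 1 3 3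
    ndB1q1 ndB3q3 pcB3 Cut.none Ext.none :=
  certB2 (fam := false) (s1 := true) (s2 := true) (a := 1) (b := 3) (c := 3) (cn := .dn) (n1 := ndB1q1) (n2 := ndB3q3) (pc := pcB3) (cut := Cut.none) (xt := Ext.none) (P1 := 536870912) (W1 := 536870912) (P2 := 1610612736) (W2 := 536870912) (P3 := 536870912) (W3 := 50465866) (N0 := 3) (En := eng) (mo := mog) (C1 := cd1q1) (C2 := cd3q3) (C3 := pd3)
    rfl (fun _ => rfl) k0_pp_133

noncomputable def f_pp_202_aa : ℕ → ℕ → ℕ → ℕ → Bool := onCell 0 536870912 0 536870912 536870912 50465866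
    (rowB 3 eng mog cd1q2a cd3q2a pd0 0 false true true .pp 2 0 2 (qsf 0 536870912 0 536870912 0) ndB1q2a ndB3q2a pcB0 Cut.none Ext.none)

def k0_pp_202_aa : ∃ t, chk3 f_pp_202_aa t 1 1 1 = true :=
  ⟨(l 3), by decide +kernel⟩

theorem c_pp_202_aa : CertB 0 536870912 0 536870912 536870912 50465866 3 eng mog cd1q2a cd3q2a pd0 false true true .pp 2 0 2
    ndB1q2a ndB3q2a pcB0 Cut.none Ext.none :=
  certB0 (fam := false) (s1 := true) (s2 := true) (a := 2) (b := 0) (c := 2) (cn := .pp) (n1 := ndB1q2a) (n2 := ndB3q2a) (pc := pcB0) (cut := Cut.none) (xt := Ext.none) (P1 := 0) (W1 := 536870912) (P2 := 0) (W2 := 536870912) (P3 := 536870912) (W3 := 50465866) (N0 := 3) (En := eng) (mo := mog) (C1 := cd1q2a) (C2 := cd3q2a) (C3 := pd0)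
    rfl k0_pp_202_aa

noncomputable def f_pp_202_ab : ℕ → ℕ → ℕ → ℕ → Bool := onCell 0 536870912 1239849684 370763052 536870912 50465866
    (rowB 3 eng mog cd1q2a cd3q2b pd0 0 false true true .pp 2 0 2 (qsf 0 536870912 1239849684 370763052 0) ndB1q2a ndB3q2b pcB0 Cut.none Ext.none)

def k0_pp_202_ab : ∃ t, chk3 f_pp_202_ab t 1 1 1 = true :=
  ⟨(l 3), by decide +kernel⟩

theorem c_pp_202_ab : CertB 0 536870912 1239849684 370763052 536870912 50465866 3 eng mog cd1q2a cd3q2b pd0 false true true .pp 2 0 2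
    ndB1q2a ndB3q2b pcB0 Cut.none Ext.none :=
  certB0 (fam := false) (s1 := true) (s2 := true) (a := 2) (b := 0) (c := 2) (cn := .pp) (n1 := ndB1q2a) (n2 := ndB3q2b) (pc := pcB0) (cut := Cut.none) (xt := Ext.none) (P1 := 0) (W1 := 536870912) (P2 := 1239849684) (W2 := 370763052) (P3 := 536870912) (W3 := 50465866) (N0 := 3) (En := eng) (mo := mog) (C1 := cd1q2a) (C2 := cd3q2b) (C3 := pd0)
    rfl k0_pp_202_ab

noncomputable def f_pp_202_ba : ℕ → ℕ → ℕ → ℕ → Bool := onCell 1239849684 370763052 0 536870912 536870912 50465866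
    (rowB 3 eng mog cd1q2b cd3q2a pd0 0 false true true .pp 2 0 2 (qsf 1239849684 370763052 0 536870912 0) ndB1q2b ndB3q2a pcB0 Cut.none Ext.none)

def k0_pp_202_ba : ∃ t, chk3 f_pp_202_ba t 1 1 1 = true :=
  ⟨(l 3), by decide +kernel⟩

theorem c_pp_202_ba : CertB 1239849684 370763052 0 536870912 536870912 50465866 3 eng mog cd1q2b cd3q2a pd0 false true true .pp 2 0 2
    ndB1q2b ndB3q2a pcB0 Cut.none Ext.none :=
  certB0 (fam := false) (s1 := true) (s2 := true) (a := 2) (b := 0) (c := 2) (cn := .pp) (n1 := ndB1q2b) (n2 := ndB3q2a) (pc := pcB0) (cut := Cut.none) (xt := Ext.none) (P1 := 1239849684) (W1 := 370763052) (P2 := 0) (W2 := 536870912) (P3 := 536870912) (W3 := 50465866) (N0 := 3) (En := eng) (mo := mog) (C1 := cd1q2b) (C2 := cd3q2a) (C3 := pd0)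
    rfl k0_pp_202_ba

noncomputable def f_pp_202_bb : ℕ → ℕ → ℕ → ℕ → Bool := onCell 1239849684 370763052 1239849684 370763052 536870912 50465866
    (rowB 3 eng mog cd1q2b cd3q2b pd0 0 false true true .pp 2 0 2 (qsf 1239849684 370763052 1239849684 370763052 0) ndB1q2b ndB3q2b pcB0 Cut.none Ext.none)

def k0_pp_202_bb : ∃ t, chk3 f_pp_202_bb t 1 1 1 = true :=
  ⟨(l 3), by decide +kernel⟩

theorem c_pp_202_bb : CertB 1239849684 370763052 1239849684 370763052 536870912 50465866 3 eng mog cd1q2b cd3q2b pd0 false true true .pp 2 0 2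
    ndB1q2b ndB3q2b pcB0 Cut.none Ext.none :=
  certB0 (fam := false) (s1 := true) (s2 := true) (a := 2) (b := 0) (c := 2) (cn := .pp) (n1 := ndB1q2b) (n2 := ndB3q2b) (pc := pcB0) (cut := Cut.none) (xt := Ext.none) (P1 := 1239849684) (W1 := 370763052) (P2 := 1239849684) (W2 := 370763052) (P3 := 536870912) (W3 := 50465866) (N0 := 3) (En := eng) (mo := mog) (C1 := cd1q2b) (C2 := cd3q2b) (C3 := pd0)
    rfl k0_pp_202_bb

noncomputable def f_pp_203_a : ℕ → ℕ → ℕ → ℕ → Bool := onCell 0 536870912 0 536870912 536870912 50465866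
    (rowB 3 eng mog cd1q2a cd3q3 pd0 1 false true true .up 2 0 3 (qsf 0 536870912 1610612736 536870912 0) ndB1q2a ndB3q3 pcB0 Cut.none Ext.none)

def k0_pp_203_a : ∃ t, chk3 f_pp_203_a t 1 1 1 = true :=
  ⟨(l 3), by decide +kernel⟩

theorem c_pp_203_a : CertB 0 536870912 1610612736 536870912 536870912 50465866 3 eng mog cd1q2a cd3q3 pd0 false true true .up 2 0 3
    ndB1q2a ndB3q3 pcB0 Cut.none Ext.none :=
  certB1 (fam := false) (s1 := true) (s2 := true) (a := 2) (b := 0) (c := 3) (cn := .up) (n1 := ndB1q2a) (n2 := ndB3q3) (pc := pcB0) (cut := Cut.none) (xt := Ext.none) (P1 := 0) (W1 := 536870912) (P2 := 1610612736) (W2 := 536870912) (P3 := 536870912) (W3 := 50465866) (N0 := 3) (En := eng) (mo := mog) (C1 := cd1q2a) (C2 := cd3q3) (C3 := pd0)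
    rfl (fun _ => rfl) k0_pp_203_a

noncomputable def f_pp_203_b : ℕ → ℕ → ℕ → ℕ → Bool := onCell 1239849684 370763052 1610612736 536870912 536870912 50465866
    (rowB 3 eng mog cd1q2b cd3q3 pd0 0 false true true .up 2 0 3 (qsf 1239849684 370763052 1610612736 536870912 0) ndB1q2b ndB3q3 pcB0 Cut.none Ext.none)

def k0_pp_203_b : ∃ t, chk3 f_pp_203_b t 1 1 1 = true :=
  ⟨(l 3), by decide +kernel⟩

theorem c_pp_203_b : CertB 1239849684 370763052 1610612736 536870912 536870912 50465866 3 eng mog cd1q2b cd3q3 pd0 false true true .up 2 0 3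
    ndB1q2b ndB3q3 pcB0 Cut.none Ext.none :=
  certB0 (fam := false) (s1 := true) (s2 := true) (a := 2) (b := 0) (c := 3) (cn := .up) (n1 := ndB1q2b) (n2 := ndB3q3) (pc := pcB0) (cut := Cut.none) (xt := Ext.none) (P1 := 1239849684) (W1 := 370763052) (P2 := 1610612736) (W2 := 536870912) (P3 := 536870912) (W3 := 50465866) (N0 := 3) (En := eng) (mo := mog) (C1 := cd1q2b) (C2 := cd3q3) (C3 := pd0)
    rfl k0_pp_203_b

noncomputable def cut_pp_213_a : Cut := Cut.of [[⟨0, 1, 0, 67108864⟩, ⟨1, 1, 0, 67108864⟩, ⟨2, 2, 0, 16777216⟩]]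

noncomputable def f_pp_213_a : ℕ → ℕ → ℕ → ℕ → Bool := onCell 0 536870912 1610612736 536870912 536870912 50465866
    (rowB 3 eng mog cd1q2a cd3q3 pd1 0 false true true .pnn 2 1 3 (qsf 0 536870912 1610612736 536870912 1) ndB1q2a ndB3q3 pcB1 cut_pp_213_a Ext.none)

def k0_pp_213_a : ∃ t, chk3 f_pp_213_a t 1 1 1 = true :=
  ⟨(b (l 3) (a (l 3) (b (l 3) (a (l 3) (b (l 3) (a (l 3) (b (l 3) (b (l 3) (b (l 3) (l 6)))))))))), by decide +kernel⟩

theorem c_pp_213_a : CertB 0 536870912 1610612736 536870912 536870912 50465866 3 eng mog cd1q2a cd3q3 pd1 false true true .pnn 2 1 3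
    ndB1q2a ndB3q3 pcB1 cut_pp_213_a Ext.none :=
  certB0 (fam := false) (s1 := true) (s2 := true) (a := 2) (b := 1) (c := 3) (cn := .pnn) (n1 := ndB1q2a) (n2 := ndB3q3) (pc := pcB1) (cut := cut_pp_213_a) (xt := Ext.none) (P1 := 0) (W1 := 536870912) (P2 := 1610612736) (W2 := 536870912) (P3 := 536870912) (W3 := 50465866) (N0 := 3) (En := eng) (mo := mog) (C1 := cd1q2a) (C2 := cd3q3) (C3 := pd1)
    rfl k0_pp_213_a

noncomputable def cut_pp_213_b : Cut := Cut.of [[⟨0, 1, 0, 67108864⟩, ⟨1, 1, 0, 67108864⟩, ⟨2, 2, 0, 16777216⟩]]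

noncomputable def f_pp_213_b : ℕ → ℕ → ℕ → ℕ → Bool := onCell 1239849684 370763052 1610612736 536870912 536870912 50465866
    (rowB 3 eng mog cd1q2b cd3q3 pd1 0 false true true .pnn 2 1 3 (qsf 1239849684 370763052 1610612736 536870912 1) ndB1q2b ndB3q3 pcB1 cut_pp_213_b Ext.none)

def k0_pp_213_b : ∃ t, chk3 f_pp_213_b t 1 1 1 = true :=
  ⟨(l 3), by decide +kernel⟩

theorem c_pp_213_b : CertB 1239849684 370763052 1610612736 536870912 536870912 50465866 3 eng mog cd1q2b cd3q3 pd1 false true true .pnn 2 1 3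
    ndB1q2b ndB3q3 pcB1 cut_pp_213_b Ext.none :=
  certB0 (fam := false) (s1 := true) (s2 := true) (a := 2) (b := 1) (c := 3) (cn := .pnn) (n1 := ndB1q2b) (n2 := ndB3q3) (pc := pcB1) (cut := cut_pp_213_b) (xt := Ext.none) (P1 := 1239849684) (W1 := 370763052) (P2 := 1610612736) (W2 := 536870912) (P3 := 536870912) (W3 := 50465866) (N0 := 3) (En := eng) (mo := mog) (C1 := cd1q2b) (C2 := cd3q3) (C3 := pd1)
    rfl k0_pp_213_b

noncomputable def f_pp_303 : ℕ → ℕ → ℕ → ℕ → Bool := onCell 1610612736 536870912 1610612736 536870912 536870912 50465866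
    (rowB 3 eng mog cd1q3 cd3q3 pd0 0 false true true .npn 3 0 3 (qsf 1610612736 536870912 1610612736 536870912 0) ndB1q3 ndB3q3 pcB0 Cut.none Ext.none)

def k0_pp_303 : ∃ t, chk3 f_pp_303 t 1 1 1 = true :=
  ⟨(l 3), by decide +kernel⟩

theorem c_pp_303 : CertB 1610612736 536870912 1610612736 536870912 536870912 50465866 3 eng mog cd1q3 cd3q3 pd0 false true true .npn 3 0 3
    ndB1q3 ndB3q3 pcB0 Cut.none Ext.none :=
  certB0 (fam := false) (s1 := true) (s2 := true) (a := 3) (b := 0) (c := 3) (cn := .npn) (n1 := ndB1q3) (n2 := ndB3q3) (pc := pcB0) (cut := Cut.none) (xt := Ext.none) (P1 := 1610612736) (W1 := 536870912) (P2 := 1610612736) (W2 := 536870912) (P3 := 536870912) (W3 := 50465866) (N0 := 3) (En := eng) (mo := mog) (C1 := cd1q3) (C2 := cd3q3) (C3 := pd0)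
    rfl k0_pp_303

noncomputable def f_pp_313 : ℕ → ℕ → ℕ → ℕ → Bool := onCell 1610612736 536870912 1610612736 536870912 536870912 50465866
    (rowB 3 eng mog cd1q3 cd3q3 pd1 0 false true true .dn 3 1 3 (qsf 1610612736 536870912 1610612736 536870912 1) ndB1q3 ndB3q3 pcB1 Cut.none Ext.none)

def k0_pp_313 : ∃ t, chk3 f_pp_313 t 1 1 1 = true :=
  ⟨(l 3), by decide +kernel⟩

theorem c_pp_313 : CertB 1610612736 536870912 1610612736 536870912 536870912 50465866 3 eng mog cd1q3 cd3q3 pd1 false true true .dn 3 1 3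
    ndB1q3 ndB3q3 pcB1 Cut.none Ext.none :=
  certB0 (fam := false) (s1 := true) (s2 := true) (a := 3) (b := 1) (c := 3) (cn := .dn) (n1 := ndB1q3) (n2 := ndB3q3) (pc := pcB1) (cut := Cut.none) (xt := Ext.none) (P1 := 1610612736) (W1 := 536870912) (P2 := 1610612736) (W2 := 536870912) (P3 := 536870912) (W3 := 50465866) (N0 := 3) (En := eng) (mo := mog) (C1 := cd1q3) (C2 := cd3q3) (C3 := pd1)
    rfl k0_pp_313

noncomputable def f_pm_001 : ℕ → ℕ → ℕ → ℕ → Bool := onCell 0 536870912 536870912 536870912 536870912 50465866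
    (rowB 3 eng mog cd1q0 cd3q1 pd0 0 false true false .up 0 0 1 (qsf 0 536870912 536870912 536870912 0) ndB1q0 ndB3q1 pcB0 Cut.none Ext.none)

def k0_pm_001 : ∃ t, chk3 f_pm_001 t 1 1 1 = true :=
  ⟨(l 4), by decide +kernel⟩

theorem c_pm_001 : CertB 0 536870912 536870912 536870912 536870912 50465866 3 eng mog cd1q0 cd3q1 pd0 false true false .up 0 0 1
    ndB1q0 ndB3q1 pcB0 Cut.none Ext.none :=
  certB0 (fam := false) (s1 := true) (s2 := false) (a := 0) (b := 0) (c := 1) (cn := .up) (n1 := ndB1q0) (n2 := ndB3q1) (pc := pcB0) (cut := Cut.none) (xt := Ext.none) (P1 := 0) (W1 := 536870912) (P2 := 536870912) (W2 := 536870912) (P3 := 536870912) (W3 := 50465866) (N0 := 3) (En := eng) (mo := mog) (C1 := cd1q0) (C2 := cd3q1) (C3 := pd0)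
    rfl k0_pm_001

noncomputable def f_pm_011 : ℕ → ℕ → ℕ → ℕ → Bool := onCell 0 536870912 536870912 536870912 536870912 50465866
    (rowB 3 eng mog cd1q0 cd3q1 pd1 0 false true false .pnn 0 1 1 (qsf 0 536870912 536870912 536870912 1) ndB1q0 ndB3q1 pcB1 Cut.none Ext.none)

def k0_pm_011 : ∃ t, chk3 f_pm_011 t 1 1 1 = true :=
  ⟨(l 4), by decide +kernel⟩

theorem c_pm_011 : CertB 0 536870912 536870912 536870912 536870912 50465866 3 eng mog cd1q0 cd3q1 pd1 false true false .pnn 0 1 1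
    ndB1q0 ndB3q1 pcB1 Cut.none Ext.none :=
  certB0 (fam := false) (s1 := true) (s2 := false) (a := 0) (b := 1) (c := 1) (cn := .pnn) (n1 := ndB1q0) (n2 := ndB3q1) (pc := pcB1) (cut := Cut.none) (xt := Ext.none) (P1 := 0) (W1 := 536870912) (P2 := 536870912) (W2 := 536870912) (P3 := 536870912) (W3 := 50465866) (N0 := 3) (En := eng) (mo := mog) (C1 := cd1q0) (C2 := cd3q1) (C3 := pd1)
    rfl k0_pm_011

noncomputable def cut_pm_012_a : Cut := Cut.of [[⟨0, 0, 0, 67108864⟩, ⟨1, 1, 0, 67108864⟩, ⟨2, 1, 0, 67108864⟩]]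

noncomputable def f_pm_012_a : ℕ → ℕ → ℕ → ℕ → Bool := onCell 536870912 536870912 0 536870912 536870912 50465866
    (rowB 3 eng mog cd1q0 cd3q2a pd1 2 false true false .pnp 0 1 2 (qsf 0 536870912 0 536870912 1) ndB1q0 ndB3q2a pcB1 cut_pm_012_a Ext.none)

def k0_pm_012_a : ∃ t, chk3 f_pm_012_a t 2 1 1 = true :=
  ⟨(a (b (a (l 2) (b (l 2) (l 16404712))) (a (b (l 2) (a (b (l 2) (l 16412016)) (b (l 16341056) (l 16382544)))) (b (b (l 16354168) (l 16325768)) (b (l 16348256) (b (l 16329224) (l 16372168)))))) (b (a (a (l 16638048) (a (l 16476136) (l 16474904))) (b (l 16481272) (l 16445600))) (a (a (b (l 16442360) (b (l 16385552) (l 16415312))) (b (b (l 16426456) (l 16417808)) (b (l 16441872) (b (l 16432952) (l 16532448))))) (b (b (l 16428376) (l 16428272)) (b (a (l 16436280) (l 16448488)) (b (l 16464472) (l 16487504))))))), by decide +kernel⟩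

def k1_pm_012_a : ∃ t, chk3 f_pm_012_a t 3 1 1 = true :=
  ⟨(b (a (a (b (l 16458336) (l 16433216)) (b (a (l 16440952) (l 16430048)) (a (l 16425224) (l 16420664)))) (a (b (a (l 16419136) (l 16408896)) (a (l 16416704) (b (l 16407912) (l 16420352)))) (b (a (l 16400544) (b (l 16392288) (l 16392360))) (a (b (l 16404864) (l 16422056)) (b (l 16423408) (a (l 16423800) (l 16425248))))))) (a (b (a (b (l 16429040) (l 16440960)) (b (l 16496280) (a (l 16453272) (l 16463000)))) (b (a (a (l 16462152) (l 16476792)) (a (l 16493160) (l 16532024))) (a (b (l 16566640) (l 16577704)) (a (l 16620224) (b (l 16561904) (l 16626184)))))) (b (a (b (a (l 16439272) (l 16445688)) (a (l 16474648) (l 16508568))) (a (b (l 16453080) (a (l 16498008) (l 16526376))) (b (a (l 16459256) (l 16516336)) (a (b (l 16497056) (l 16529584)) (b (l 16504664) (l 16539016)))))) (b (a (a (b (l 16513408) (l 16546904)) (b (l 16531744) (l 16590176))) (a (a (b (l 16546400) (l 16587256)) (b (l 16557008)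 (l 16599912))) (a (b (l 16568024) (a (l 16609360) (l 16615624))) (b (a (l 16576240) (l 16581688)) (a (l 16621864) (b (l 16615664) (l 6))))))) (a (b (a (l 16586864) (l 16645176)) (b (a (l 16621576) (l 16651952)) (a (l 16669928) (l 16727992)))) (b (a (a (b (l 16622184) (l 16647864)) (b (l 16636072) (l 16662512))) (a (b (l 16670808) (l 6)) (l 6))) (a (a (b (l 16675320) (l 16717752)) (b (l 16690728) (l 6))) (l 6)))))))), by decide +kernel⟩

theorem s2_pm_012_a : ∃ t, chk3 f_pm_012_a t 1 1 1 = true := ex3_a k0_pm_012_a k1_pm_012_a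

theorem c_pm_012_a : CertB 0 536870912 0 536870912 536870912 50465866 3 eng mog cd1q0 cd3q2a pd1 false true false .pnp 0 1 2
    ndB1q0 ndB3q2a pcB1 cut_pm_012_a Ext.none :=
  certB2 (fam := false) (s1 := true) (s2 := false) (a := 0) (b := 1) (c := 2) (cn := .pnp) (n1 := ndB1q0) (n2 := ndB3q2a) (pc := pcB1) (cut := cut_pm_012_a) (xt := Ext.none) (P1 := 0) (W1 := 536870912) (P2 := 0) (W2 := 536870912) (P3 := 536870912) (W3 := 50465866) (N0 := 3) (En := eng) (mo := mog) (C1 := cd1q0) (C2 := cd3q2a) (C3 := pd1)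
    rfl (fun _ => rfl) s2_pm_012_a

noncomputable def cut_pm_012_b : Cut := Cut.of [[⟨0, 0, 0, 67108864⟩, ⟨1, 1, 0, 67108864⟩, ⟨2, 1, 0, 67108864⟩]]

noncomputable def f_pm_012_b : ℕ → ℕ → ℕ → ℕ → Bool := onCell 536870912 536870912 1239849684 370763052 536870912 50465866
    (rowB 3 eng mog cd1q0 cd3q2b pd1 2 false true false .pnp 0 1 2 (qsf 0 536870912 1239849684 370763052 1) ndB1q0 ndB3q2b pcB1 cut_pm_012_b Ext.none)

def k0_pm_012_b : ∃ t, chk3 f_pm_012_b t 1 1 1 = true :=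
  ⟨(a (a (l 2) (b (a (b (a (l 16547704) (l 16536040)) (l 2)) (b (l 16616128) (l 16568232))) (l 2))) (b (a (b (a (b (l 16472552) (l 16477672)) (b (l 16563832) (l 16429136))) (a (l 16597840) (b (l 16437176) (l 16465608)))) (b (a (b (a (l 16411552) (l 16393912)) (a (l 16389792) (l 16363144))) (a (b (l 16460952) (l 16335848)) (b (a (l 16365040) (l 16378320)) (a (l 16315120) (l 16301632))))) (a (b (l 16369656) (l 16385736)) (a (b (l 16315240) (l 16318760)) (b (l 16278016) (l 16272048)))))) (a (b (a (l 2) (b (l 16510464) (l 16556416))) (l 2)) (b (a (b (l 16421584) (l 16461800)) (b (a (l 16345016) (l 16289736)) (l 16349416))) (a (l 16504712) (b (l 16370768) (l 16404120))))))), by decide +kernel⟩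

theorem c_pm_012_b : CertB 0 536870912 1239849684 370763052 536870912 50465866 3 eng mog cd1q0 cd3q2b pd1 false true false .pnp 0 1 2
    ndB1q0 ndB3q2b pcB1 cut_pm_012_b Ext.none :=
  certB2 (fam := false) (s1 := true) (s2 := false) (a := 0) (b := 1) (c := 2) (cn := .pnp) (n1 := ndB1q0) (n2 := ndB3q2b) (pc := pcB1) (cut := cut_pm_012_b) (xt := Ext.none) (P1 := 0) (W1 := 536870912) (P2 := 1239849684) (W2 := 370763052) (P3 := 536870912) (W3 := 50465866) (N0 := 3) (En := eng) (mo := mog) (C1 := cd1q0) (C2 := cd3q2b) (C3 := pd1)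
    rfl (fun _ => rfl) k0_pm_012_b

noncomputable def cut_pm_022_a : Cut := Cut.of [[⟨0, 0, 0, 67108864⟩, ⟨1, 1, 0, 67108864⟩, ⟨2, 1, 0, 67108864⟩]]

noncomputable def f_pm_022_a : ℕ → ℕ → ℕ → ℕ → Bool := onCell 1073741824 536870912 0 536870912 536870912 50465866
    (rowB 3 eng mog cd1q0 cd3q2a pd2 2 false true false .pp 0 2 2 (qsf 0 536870912 0 536870912 2) ndB1q0 ndB3q2a pcB2 cut_pm_022_a Ext.none)

def k0_pm_022_a : ∃ t, chk3 f_pm_022_a t 1 1 1 = true :=
  ⟨(a (b (a (a (b (a (b (l 16397472) (l 16399992)) (b (l 16416912) (l 16421304))) (a (b (l 16434144) (a (l 16432328) (l 16445912))) (b (l 16436928) (l 16465712)))) (b (a (l 16513024) (b (l 16452128) (l 16458696))) (a (b (l 16458872) (l 16509832)) (b (l 16497552) (a (l 16492608) (l 16552464)))))) (a (a (b (b (a (l 16461048) (l 16465208)) (a (l 16468048) (l 16451328))) (b (a (l 16486056) (l 185253583623)) (l 4))) (b (b (l 1) (l 1)) (l 1))) (l 1))) (a (a (b (a (b (a (l 16494728) (l 16488840)) (a (b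 (l 16516480) (l 16551832)) (b (l 16532200) (l 16567888)))) (b (a (l 16503064) (l 16516264)) (a (b (l 16546904) (l 16603864)) (b (l 16560528) (l 16633416))))) (b (a (b (a (a (l 16588520) (l 16596968)) (a (l 16605144) (l 16613056))) (l 6)) (b (a (a (b (l 16609584) (l 16631776)) (l 16649016)) (l 4)) (l 4))) (a (l 6) (l 4)))) (b (a (a (b (l 16570304) (a (l 23320094199) (l 4))) (b (l 16586256) (l 4))) (b (a (l 151095289175) (l 4)) (l 4))) (l 4))) (b (l 1) (l 1)))) (l 1)), by decide +kernel⟩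

theorem c_pm_022_a : CertB 0 536870912 0 536870912 536870912 50465866 3 eng mog cd1q0 cd3q2a pd2 false true false .pp 0 2 2
    ndB1q0 ndB3q2a pcB2 cut_pm_022_a Ext.none :=
  certB2 (fam := false) (s1 := true) (s2 := false) (a := 0) (b := 2) (c := 2) (cn := .pp) (n1 := ndB1q0) (n2 := ndB3q2a) (pc := pcB2) (cut := cut_pm_022_a) (xt := Ext.none) (P1 := 0) (W1 := 536870912) (P2 := 0) (W2 := 536870912) (P3 := 536870912) (W3 := 50465866) (N0 := 3) (En := eng) (mo := mog) (C1 := cd1q0) (C2 := cd3q2a) (C3 := pd2)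
    rfl (fun _ => rfl) k0_pm_022_a

noncomputable def cut_pm_022_b : Cut := Cut.of [[⟨0, 0, 0, 67108864⟩, ⟨1, 1, 0, 67108864⟩, ⟨2, 1, 0, 67108864⟩]]

noncomputable def f_pm_022_b : ℕ → ℕ → ℕ → ℕ → Bool := onCell 1073741824 536870912 1239849684 370763052 536870912 50465866
    (rowB 3 eng mog cd1q0 cd3q2b pd2 2 false true false .pp 0 2 2 (qsf 0 536870912 1239849684 370763052 2) ndB1q0 ndB3q2b pcB2 cut_pm_022_b Ext.none)

def k0_pm_022_b : ∃ t, chk3 f_pm_022_b t 1 1 1 = true :=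
  ⟨(a (a (b (b (a (b (a (b (l 16379944) (l 16344904)) (b (l 16397728) (l 16360792))) (a (l 16301168) (l 16314440))) (a (b (b (l 16414536) (l 16374160)) (l 16324408)) (b (b (l 16429824) (l 16387504)) (l 16332520)))) (b (a (a (l 16261280) (l 16268544)) (a (l 16274688) (l 16277864))) (a (a (l 16246736) (l 16246400)) (l 16287584)))) (b (a (b (l 16272216) (l 16267288)) (b (l 16235144) (l 16236712))) (a (b (l 16278936) (l 16303888)) (l 16241800)))) (b (a (b (b (a (b (l 16482632) (l 16398024)) (a (b (a (l 16444424) (l 16466120)) (l 16402176)) (b (l 180421537943) (l 16402560)))) (a (l 16339696) (a (l 16343488) (l 16343912)))) (a (b (l 16277904) (l 16240336)) (b (l 16318528) (l 16231768)))) (a (b (b (b (l 1) (l 218002537031)) (b (l 16358672) (l 16321752))) (b (l 16271880) (l 16220040))) (b (l 4) (l 4)))) (a (b (a (l 16215784) (l 16390136)) (a (l 16206624) (l 16182480))) (b (a (l 16182664) (l 16388528)) (l 16141504))))) (b (a (b (l 1) (l 4)) (l 1)) (a (a (b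 (l 4) (l 220351023367)) (l 4)) (b (a (l 4) (l 1)) (l 4))))), by decide +kernel⟩

theorem c_pm_022_b : CertB 0 536870912 1239849684 370763052 536870912 50465866 3 eng mog cd1q0 cd3q2b pd2 false true false .pp 0 2 2
    ndB1q0 ndB3q2b pcB2 cut_pm_022_b Ext.none :=
  certB2 (fam := false) (s1 := true) (s2 := false) (a := 0) (b := 2) (c := 2) (cn := .pp) (n1 := ndB1q0) (n2 := ndB3q2b) (pc := pcB2) (cut := cut_pm_022_b) (xt := Ext.none) (P1 := 0) (W1 := 536870912) (P2 := 1239849684) (W2 := 370763052) (P3 := 536870912) (W3 := 50465866) (N0 := 3) (En := eng) (mo := mog) (C1 := cd1q0) (C2 := cd3q2b) (C3 := pd2)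
    rfl (fun _ => rfl) k0_pm_022_b

noncomputable def f_pm_023 : ℕ → ℕ → ℕ → ℕ → Bool := onCell 0 536870912 1073741824 536870912 536870912 50465866
    (rowB 3 eng mog cd1q0 cd3q3 pd2 1 false true false .up 0 2 3 (qsf 0 536870912 1610612736 536870912 2) ndB1q0 ndB3q3 pcB2 Cut.none Ext.none)

def k0_pm_023 : ∃ t, chk3 f_pm_023 t 1 1 1 = true :=
  ⟨(a (b (b (l 1) (a (l 1) (b (l 1) (l 185253303975)))) (b (a (l 4) (b (a (l 16123512) (l 16086336)) (l 194043624119))) (l 4))) (b (b (a (b (l 1) (l 223371143239)) (b (b (l 147135262247) (l 48888104663)) (l 72510467767))) (b (a (b (l 16227680) (l 16213832)) (b (l 16358392) (l 16416328))) (a (l 16192136) (l 16495024)))) (b (a (b (l 16198688) (l 16382152)) (b (l 16579680) (l 16642832))) (a (b (l 16514664) (l 16605168)) (b (l 16686704) (l 16714840)))))), by decide +kernel⟩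

theorem c_pm_023 : CertB 0 536870912 1610612736 536870912 536870912 50465866 3 eng mog cd1q0 cd3q3 pd2 false true false .up 0 2 3
    ndB1q0 ndB3q3 pcB2 Cut.none Ext.none :=
  certB1 (fam := false) (s1 := true) (s2 := false) (a := 0) (b := 2) (c := 3) (cn := .up) (n1 := ndB1q0) (n2 := ndB3q3) (pc := pcB2) (cut := Cut.none) (xt := Ext.none) (P1 := 0) (W1 := 536870912) (P2 := 1610612736) (W2 := 536870912) (P3 := 536870912) (W3 := 50465866) (N0 := 3) (En := eng) (mo := mog) (C1 := cd1q0) (C2 := cd3q3) (C3 := pd2)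
    rfl (fun _ => rfl) k0_pm_023

noncomputable def f_pm_033 : ℕ → ℕ → ℕ → ℕ → Bool := onCell 0 536870912 1610612736 536870912 536870912 50465866
    (rowB 3 eng mog cd1q0 cd3q3 pd3 1 false true false .pnn 0 3 3 (qsf 0 536870912 1610612736 536870912 3) ndB1q0 ndB3q3 pcB3 Cut.none Ext.none)

def k0_pm_033 : ∃ t, chk3 f_pm_033 t 1 1 1 = true :=
  ⟨(a (b (b (l 4) (l 4)) (b (l 4) (a (l 4) (a (b (l 4) (l 2)) (l 2))))) (b (a (b (b (l 16665960) (l 16704744)) (b (l 16730128) (l 16737112))) (b (b (l 16739384) (l 16756896)) (a (b (l 16754024) (l 2)) (l 2)))) (a (b (a (b (l 4) (l 2)) (l 2)) (l 2)) (l 2)))), by decide +kernel⟩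

theorem c_pm_033 : CertB 0 536870912 1610612736 536870912 536870912 50465866 3 eng mog cd1q0 cd3q3 pd3 false true false .pnn 0 3 3
    ndB1q0 ndB3q3 pcB3 Cut.none Ext.none :=
  certB1 (fam := false) (s1 := true) (s2 := false) (a := 0) (b := 3) (c := 3) (cn := .pnn) (n1 := ndB1q0) (n2 := ndB3q3) (pc := pcB3) (cut := Cut.none) (xt := Ext.none) (P1 := 0) (W1 := 536870912) (P2 := 1610612736) (W2 := 536870912) (P3 := 536870912) (W3 := 50465866) (N0 := 3) (En := eng) (mo := mog) (C1 := cd1q0) (C2 := cd3q3) (C3 := pd3)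
    rfl (fun _ => rfl) k0_pm_033

noncomputable def f_pm_101 : ℕ → ℕ → ℕ → ℕ → Bool := onCell 536870912 536870912 536870912 536870912 536870912 50465866
    (rowB 3 eng mog cd1q1 cd3q1 pd0 0 false true false .npn 1 0 1 (qsf 536870912 536870912 536870912 536870912 0) ndB1q1 ndB3q1 pcB0 Cut.none Ext.none)

def k0_pm_101 : ∃ t, chk3 f_pm_101 t 1 1 1 = true :=
  ⟨(l 4), by decide +kernel⟩

theorem c_pm_101 : CertB 536870912 536870912 536870912 536870912 536870912 50465866 3 eng mog cd1q1 cd3q1 pd0 false true false .npn 1 0 1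
    ndB1q1 ndB3q1 pcB0 Cut.none Ext.none :=
  certB0 (fam := false) (s1 := true) (s2 := false) (a := 1) (b := 0) (c := 1) (cn := .npn) (n1 := ndB1q1) (n2 := ndB3q1) (pc := pcB0) (cut := Cut.none) (xt := Ext.none) (P1 := 536870912) (W1 := 536870912) (P2 := 536870912) (W2 := 536870912) (P3 := 536870912) (W3 := 50465866) (N0 := 3) (En := eng) (mo := mog) (C1 := cd1q1) (C2 := cd3q1) (C3 := pd0)
    rfl k0_pm_101

noncomputable def f_pm_102_a : ℕ → ℕ → ℕ → ℕ → Bool := onCell 0 536870912 0 536870912 536870912 50465866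
    (rowB 3 eng mog cd1q1 cd3q2a pd0 2 false true false .npp 1 0 2 (qsf 536870912 536870912 0 536870912 0) ndB1q1 ndB3q2a pcB0 Cut.none Ext.none)

def k0_pm_102_a : ∃ t, chk3 f_pm_102_a t 2 1 1 = true :=
  ⟨(a (b (a (l 2) (a (l 2) (b (l 2) (b (l 2) (a (l 2) (b (l 2) (l 16721792))))))) (b (a (l 2) (b (a (l 2) (a (b (a (l 2) (l 16645960)) (l 16666104)) (l 16673520))) (a (a (b (l 2) (b (l 16676800) (l 16692080))) (b (l 16674144) (l 16703656))) (b (a (l 16693704) (l 16713664)) (l 16732776))))) (a (b (a (l 2) (b (a (l 2) (l 16697600)) (a (l 16714216) (l 16731280)))) (a (a (b (l 2) (b (l 16741160) (l 16756384))) (b (b (l 16722976) (l 16738904)) (b (l 16753672) (l 16759872)))) (b (a (l 16747440) (l 16758880)) (b (l 16754512) (l 16766952))))) (b (a (b (l 16726088) (l 16754824)) (l 16759968)) (a (b (l 16748496) (l 16765592)) (l 16839872)))))) (b (a (b (a (a (l 2) (b (b (a (l 2) (l 16597712)) (l 264240924151)) (b (l 252429826199) (l 16609040)))) (b (l 16633800)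 (a (l 16621624) (l 16640960)))) (a (b (a (b (l 16645008) (l 16618976)) (l 16630400)) (a (b (l 16636648) (l 16657248)) (l 16667184))) (b (a (b (l 16640920) (l 16657336)) (l 16669560)) (l 16697864)))) (b (a (b (l 16649968) (l 16669512)) (l 16698552)) (a (b (l 16699232) (l 16733144)) (l 16747824)))) (b (a (a (b (a (l 16694392) (l 16715040)) (a (l 16745048) (l 16757040))) (b (l 16740232) (l 16762008))) (b (a (l 16762000) (l 16763328)) (l 16730656))) (a (b (a (l 16738232) (l 16730952)) (a (b (l 16744144) (l 16761848)) (l 16751328))) (b (l 16727288) (a (l 16750032) (l 16747032))))))), by decide +kernel⟩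

def k1_pm_102_a : ∃ t, chk3 f_pm_102_a t 3 1 1 = true :=
  ⟨(a (b (a (b (a (l 16731200) (l 16755912)) (a (l 16765720) (l 16829616))) (b (l 16768680) (b (l 16748240) (l 16705840)))) (b (a (a (l 16722736) (b (l 16718672) (l 16708328))) (b (l 16679544) (l 16661224))) (a (b (a (l 16722216) (l 16711896)) (a (l 16805312) (b (l 16721680) (a (l 16742472) (l 16722816))))) (b (a (l 16673016) (l 16627952)) (a (b (l 16676080) (l 16688264)) (l 16678480)))))) (b (a (b (l 16731016) (l 16820840)) (b (l 16667696) (a (l 16594112) (l 16551976)))) (b (a (a (l 16611768) (l 16571192)) (a (l 16528808) (l 16477368))) (a (a (b (l 16584760) (l 16586984)) (b (l 16539712) (b (l 16533184) (l 16537504)))) (a (b (l 16489192) (l 16461272)) (b (l 16426568) (l 16406944))))))), by decide +kernel⟩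

theorem s2_pm_102_a : ∃ t, chk3 f_pm_102_a t 1 1 1 = true := ex3_a k0_pm_102_a k1_pm_102_a

theorem c_pm_102_a : CertB 536870912 536870912 0 536870912 536870912 50465866 3 eng mog cd1q1 cd3q2a pd0 false true false .npp 1 0 2
    ndB1q1 ndB3q2a pcB0 Cut.none Ext.none :=
  certB2 (fam := false) (s1 := true) (s2 := false) (a := 1) (b := 0) (c := 2) (cn := .npp) (n1 := ndB1q1) (n2 := ndB3q2a) (pc := pcB0) (cut := Cut.none) (xt := Ext.none) (P1 := 536870912) (W1 := 536870912) (P2 := 0) (W2 := 536870912) (P3 := 536870912) (W3 := 50465866) (N0 := 3) (En := eng) (mo := mog) (C1 := cd1q1) (C2 := cd3q2a) (C3 := pd0)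
    rfl (fun _ => rfl) s2_pm_102_a

noncomputable def f_pm_102_b : ℕ → ℕ → ℕ → ℕ → Bool := onCell 536870912 536870912 1239849684 370763052 536870912 50465866
    (rowB 3 eng mog cd1q1 cd3q2b pd0 0 false true false .npp 1 0 2 (qsf 536870912 536870912 1239849684 370763052 0) ndB1q1 ndB3q2b pcB0 Cut.none Ext.none)

def k0_pm_102_b : ∃ t, chk3 f_pm_102_b t 1 1 1 = true :=
  ⟨(a (b (a (l 2) (b (a (a (l 16689400) (l 16723168)) (b (l 16744560) (l 16770656))) (a (l 2) (l 16809328)))) (l 2)) (b (a (b (a (b (l 16771248) (l 16780840)) (a (l 16757632) (b (l 16733136) (l 16723152)))) (a (l 16803400) (a (l 16766600) (l 16724760)))) (a (b (a (b (l 16697400) (l 16677648)) (b (l 16721648) (a (l 16640376) (l 16659800)))) (a (l 16691248) (l 16801560))) (b (a (b (l 16600104) (l 16626672)) (a (a (l 16576528) (l 16587832)) (a (l 16641456) (b (l 16621632) (l 16528544))))) (a (b (l 16580584) (l 16543880)) (a (b (l 16522672) (l 16498816)) (b (l 16500672) (l 16577920)))))))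 (a (a (l 2) (b (b (l 16768544) (l 16803120)) (l 2))) (a (b (a (l 16693448) (l 16619744)) (b (l 16737064) (l 2))) (b (a (b (l 16536728) (l 16550496)) (a (l 16611472) (b (l 16556632) (c (l 16454824) (l 16446576))))) (a (l 16634784) (a (l 16560712) (b (l 16489360) (l 16545760))))))))), by decide +kernel⟩

theorem c_pm_102_b : CertB 536870912 536870912 1239849684 370763052 536870912 50465866 3 eng mog cd1q1 cd3q2b pd0 false true false .npp 1 0 2
    ndB1q1 ndB3q2b pcB0 Cut.none Ext.none :=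
  certB0 (fam := false) (s1 := true) (s2 := false) (a := 1) (b := 0) (c := 2) (cn := .npp) (n1 := ndB1q1) (n2 := ndB3q2b) (pc := pcB0) (cut := Cut.none) (xt := Ext.none) (P1 := 536870912) (W1 := 536870912) (P2 := 1239849684) (W2 := 370763052) (P3 := 536870912) (W3 := 50465866) (N0 := 3) (En := eng) (mo := mog) (C1 := cd1q1) (C2 := cd3q2b) (C3 := pd0)
    rfl k0_pm_102_b

noncomputable def f_pm_112_a : ℕ → ℕ → ℕ → ℕ → Bool := onCell 536870912 536870912 0 536870912 536870912 50465866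
    (rowB 3 eng mog cd1q1 cd3q2a pd1 2 false true false .dn 1 1 2 (qsf 536870912 536870912 0 536870912 1) ndB1q1 ndB3q2a pcB1 Cut.none Ext.none)

def k0_pm_112_a : ∃ t, chk3 f_pm_112_a t 1 1 1 = true :=
  ⟨(a (a (b (a (b (l 16585760) (a (l 16508160) (l 16479616))) (b (l 16540648) (l 16488096))) (a (b (a (l 16414024) (l 16350888)) (a (b (l 16332152) (l 16407512)) (l 235719253511))) (b (l 143914639511) (b (l 185790062583) (l 1))))) (b (a (a (l 230887990551) (b (l 16516136) (l 1))) (l 1)) (b (l 1) (l 1)))) (l 1)), by decide +kernel⟩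

theorem c_pm_112_a : CertB 536870912 536870912 0 536870912 536870912 50465866 3 eng mog cd1q1 cd3q2a pd1 false true false .dn 1 1 2
    ndB1q1 ndB3q2a pcB1 Cut.none Ext.none :=
  certB2 (fam := false) (s1 := true) (s2 := false) (a := 1) (b := 1) (c := 2) (cn := .dn) (n1 := ndB1q1) (n2 := ndB3q2a) (pc := pcB1) (cut := Cut.none) (xt := Ext.none) (P1 := 536870912) (W1 := 536870912) (P2 := 0) (W2 := 536870912) (P3 := 536870912) (W3 := 50465866) (N0 := 3) (En := eng) (mo := mog) (C1 := cd1q1) (C2 := cd3q2a) (C3 := pd1)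
    rfl (fun _ => rfl) k0_pm_112_a

noncomputable def f_pm_112_b : ℕ → ℕ → ℕ → ℕ → Bool := onCell 536870912 536870912 1239849684 370763052 536870912 50465866
    (rowB 3 eng mog cd1q1 cd3q2b pd1 2 false true false .dn 1 1 2 (qsf 536870912 536870912 1239849684 370763052 1) ndB1q1 ndB3q2b pcB1 Cut.none Ext.none)

def k0_pm_112_b : ∃ t, chk3 f_pm_112_b t 1 1 1 = true :=
  ⟨(a (a (b (b (a (b (l 16673288) (l 16750648)) (b (l 16605984) (l 16681208))) (a (l 16813528) (l 16790488))) (a (b (b (l 16822240) (l 16804512)) (b (a (l 16740344) (l 16846960)) (a (a (b (l 16683528) (l 16654304)) (l 16730424)) (l 16827888)))) (b (l 16911344) (a (l 16955192) (l 17048136))))) (b (a (b (a (l 16593328) (l 122976909399)) (a (l 16735568) (l 16689384))) (b (l 135324952551) (l 16624128))) (a (b (a (l 16918104) (l 16891128)) (a (l 17111016) (l 17100560))) (b (l 16822096) (l 17023968))))) (b (a (b (l 1) (a (l 116534266903) (b (l 1) (l 16495016)))) (l 1)) (a (b (a (l 16706032)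 (b (l 16548896) (l 16628376))) (a (l 16919080) (l 16780488))) (b (a (b (l 1) (l 16502576)) (l 1)) (a (l 89690682375) (b (l 16418152) (l 16470712))))))), by decide +kernel⟩

theorem c_pm_112_b : CertB 536870912 536870912 1239849684 370763052 536870912 50465866 3 eng mog cd1q1 cd3q2b pd1 false true false .dn 1 1 2
    ndB1q1 ndB3q2b pcB1 Cut.none Ext.none :=
  certB2 (fam := false) (s1 := true) (s2 := false) (a := 1) (b := 1) (c := 2) (cn := .dn) (n1 := ndB1q1) (n2 := ndB3q2b) (pc := pcB1) (cut := Cut.none) (xt := Ext.none) (P1 := 536870912) (W1 := 536870912) (P2 := 1239849684) (W2 := 370763052) (P3 := 536870912) (W3 := 50465866) (N0 := 3) (En := eng) (mo := mog) (C1 := cd1q1) (C2 := cd3q2b) (C3 := pd1)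
    rfl (fun _ => rfl) k0_pm_112_b

noncomputable def f_pm_113 : ℕ → ℕ → ℕ → ℕ → Bool := onCell 536870912 536870912 536870912 536870912 536870912 50465866
    (rowB 3 eng mog cd1q1 cd3q3 pd1 1 false true false .nn 1 1 3 (qsf 536870912 536870912 1610612736 536870912 1) ndB1q1 ndB3q3 pcB1 Cut.none Ext.none)

def k0_pm_113 : ∃ t, chk3 f_pm_113 t 1 1 1 = true :=
  ⟨(a (b (b (l 1) (a (l 1) (b (l 1) (l 16933680)))) (a (b (a (l 1) (l 16748792)) (a (b (l 16589176) (l 16566440)) (l 16769056))) (b (a (l 16913736) (l 17009576)) (a (l 16903664) (l 16973248))))) (b (b (b (a (l 1) (a (l 16768840) (a (l 16714056) (b (l 16621224) (l 16708512))))) (a (l 16942176) (a (l 16992232) (a (l 16894744) (b (l 16795136) (l 16865256)))))) (a (b (a (l 17073280) (l 17234728)) (l 17125832)) (b (a (l 17155584) (a (l 17018344) (b (l 16915904) (l 16955944)))) (a (l 17197664) (a (l 17059016) (l 16876600)))))) (b (a (a (l 17044480) (l 17063264)) (a (l 17069728) (a (l 17029040) (b (l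 16971720) (l 16942928))))) (a (a (l 16980664) (b (l 16988096) (l 16942584))) (a (l 16930576) (a (l 16896872) (b (l 16897104) (l 16831088)))))))), by decide +kernel⟩

theorem c_pm_113 : CertB 536870912 536870912 1610612736 536870912 536870912 50465866 3 eng mog cd1q1 cd3q3 pd1 false true false .nn 1 1 3
    ndB1q1 ndB3q3 pcB1 Cut.none Ext.none :=
  certB1 (fam := false) (s1 := true) (s2 := false) (a := 1) (b := 1) (c := 3) (cn := .nn) (n1 := ndB1q1) (n2 := ndB3q3) (pc := pcB1) (cut := Cut.none) (xt := Ext.none) (P1 := 536870912) (W1 := 536870912) (P2 := 1610612736) (W2 := 536870912) (P3 := 536870912) (W3 := 50465866) (N0 := 3) (En := eng) (mo := mog) (C1 := cd1q1) (C2 := cd3q3) (C3 := pd1)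
    rfl (fun _ => rfl) k0_pm_113

noncomputable def f_pm_123 : ℕ → ℕ → ℕ → ℕ → Bool := onCell 1073741824 536870912 1610612736 536870912 536870912 50465866
    (rowB 3 eng mog cd1q1 cd3q3 pd2 2 false true false .npn 1 2 3 (qsf 536870912 536870912 1610612736 536870912 2) ndB1q1 ndB3q3 pcB2 Cut.none Ext.none)

def k0_pm_123 : ∃ t, chk3 f_pm_123 t 1 1 1 = true :=
  ⟨(a (b (a (b (a (b (l 16478432) (b (l 16636736) (l 16727320))) (b (l 16397464) (l 16539984))) (a (b (l 16952064) (l 16901008)) (b (l 16697896) (l 16798712)))) (b (a (l 215318514487) (l 1)) (a (b (l 16595136) (l 16707736)) (l 16591320)))) (a (a (b (l 16991320) (b (l 16853656) (l 16798264))) (b (l 16909296) (l 16856552))) (b (a (b (l 16773832) (l 16797160)) (b (l 16719536) (l 16759312))) (a (b (l 16785544) (a (l 16762088) (l 16756704))) (l 16824440))))) (a (b (a (b (l 1) (l 16553128)) (l 1)) (b (a (l 16708744) (l 16685728)) (b (a (l 16750800) (l 16736448)) (l 16813136)))) (b (l 1) (a (b (l 16673848)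 (l 16734928)) (a (l 16756488) (l 171295743735)))))), by decide +kernel⟩

theorem c_pm_123 : CertB 536870912 536870912 1610612736 536870912 536870912 50465866 3 eng mog cd1q1 cd3q3 pd2 false true false .npn 1 2 3
    ndB1q1 ndB3q3 pcB2 Cut.none Ext.none :=
  certB2 (fam := false) (s1 := true) (s2 := false) (a := 1) (b := 2) (c := 3) (cn := .npn) (n1 := ndB1q1) (n2 := ndB3q3) (pc := pcB2) (cut := Cut.none) (xt := Ext.none) (P1 := 536870912) (W1 := 536870912) (P2 := 1610612736) (W2 := 536870912) (P3 := 536870912) (W3 := 50465866) (N0 := 3) (En := eng) (mo := mog) (C1 := cd1q1) (C2 := cd3q3) (C3 := pd2)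
    rfl (fun _ => rfl) k0_pm_123

noncomputable def f_pm_133 : ℕ → ℕ → ℕ → ℕ → Bool := onCell 1610612736 536870912 1610612736 536870912 536870912 50465866
    (rowB 3 eng mog cd1q1 cd3q3 pd3 2 false true false .dn 1 3 3 (qsf 536870912 536870912 1610612736 536870912 3) ndB1q1 ndB3q3 pcB3 Cut.none Ext.none)

def k0_pm_133 : ∃ t, chk3 f_pm_133 t 1 1 1 = true :=
  ⟨(a (b (l 1) (a (a (l 319472123671) (l 1)) (l 1))) (l 1)), by decide +kernel⟩

theorem c_pm_133 : CertB 536870912 536870912 1610612736 536870912 536870912 50465866 3 eng mog cd1q1 cd3q3 pd3 false true false .dn 1 3 3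
    ndB1q1 ndB3q3 pcB3 Cut.none Ext.none :=
  certB2 (fam := false) (s1 := true) (s2 := false) (a := 1) (b := 3) (c := 3) (cn := .dn) (n1 := ndB1q1) (n2 := ndB3q3) (pc := pcB3) (cut := Cut.none) (xt := Ext.none) (P1 := 536870912) (W1 := 536870912) (P2 := 1610612736) (W2 := 536870912) (P3 := 536870912) (W3 := 50465866) (N0 := 3) (En := eng) (mo := mog) (C1 := cd1q1) (C2 := cd3q3) (C3 := pd3)
    rfl (fun _ => rfl) k0_pm_133

noncomputable def cut_pm_202_aa : Cut := Cut.of [[⟨0, 1, 0, 67108864⟩, ⟨1, 0, 0, 67108864⟩, ⟨2, 1, 0, 67108864⟩]]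

noncomputable def f_pm_202_aa : ℕ → ℕ → ℕ → ℕ → Bool := onCell 0 536870912 0 536870912 536870912 50465866
    (rowB 3 eng mog cd1q2a cd3q2a pd0 0 false true false .pp 2 0 2 (qsf 0 536870912 0 536870912 0) ndB1q2a ndB3q2a pcB0 cut_pm_202_aa Ext.none)

def k0_pm_202_aa : ∃ t, chk3 f_pm_202_aa t 1 1 1 = true :=
  ⟨(a (l 3) (b (l 3) (a (l 3) (b (l 3) (a (l 3) (b (l 3) (l 6))))))), by decide +kernel⟩

theorem c_pm_202_aa : CertB 0 536870912 0 536870912 536870912 50465866 3 eng mog cd1q2a cd3q2a pd0 false true false .pp 2 0 2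
    ndB1q2a ndB3q2a pcB0 cut_pm_202_aa Ext.none :=
  certB0 (fam := false) (s1 := true) (s2 := false) (a := 2) (b := 0) (c := 2) (cn := .pp) (n1 := ndB1q2a) (n2 := ndB3q2a) (pc := pcB0) (cut := cut_pm_202_aa) (xt := Ext.none) (P1 := 0) (W1 := 536870912) (P2 := 0) (W2 := 536870912) (P3 := 536870912) (W3 := 50465866) (N0 := 3) (En := eng) (mo := mog) (C1 := cd1q2a) (C2 := cd3q2a) (C3 := pd0)
    rfl k0_pm_202_aa

noncomputable def cut_pm_202_ab : Cut := Cut.of [[⟨0, 1, 0, 67108864⟩, ⟨1, 0, 0, 67108864⟩, ⟨2, 1, 0, 67108864⟩]]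

noncomputable def f_pm_202_ab : ℕ → ℕ → ℕ → ℕ → Bool := onCell 0 536870912 1239849684 370763052 536870912 50465866
    (rowB 3 eng mog cd1q2a cd3q2b pd0 0 false true false .pp 2 0 2 (qsf 0 536870912 1239849684 370763052 0) ndB1q2a ndB3q2b pcB0 cut_pm_202_ab Ext.none)

def k0_pm_202_ab : ∃ t, chk3 f_pm_202_ab t 1 1 1 = true :=
  ⟨(l 3), by decide +kernel⟩

theorem c_pm_202_ab : CertB 0 536870912 1239849684 370763052 536870912 50465866 3 eng mog cd1q2a cd3q2b pd0 false true false .pp 2 0 2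
    ndB1q2a ndB3q2b pcB0 cut_pm_202_ab Ext.none :=
  certB0 (fam := false) (s1 := true) (s2 := false) (a := 2) (b := 0) (c := 2) (cn := .pp) (n1 := ndB1q2a) (n2 := ndB3q2b) (pc := pcB0) (cut := cut_pm_202_ab) (xt := Ext.none) (P1 := 0) (W1 := 536870912) (P2 := 1239849684) (W2 := 370763052) (P3 := 536870912) (W3 := 50465866) (N0 := 3) (En := eng) (mo := mog) (C1 := cd1q2a) (C2 := cd3q2b) (C3 := pd0)
    rfl k0_pm_202_ab

noncomputable def cut_pm_202_ba : Cut := Cut.of [[⟨0, 1, 0, 67108864⟩, ⟨1, 0, 0, 67108864⟩, ⟨2, 1, 0, 67108864⟩]]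

noncomputable def f_pm_202_ba : ℕ → ℕ → ℕ → ℕ → Bool := onCell 1239849684 370763052 0 536870912 536870912 50465866
    (rowB 3 eng mog cd1q2b cd3q2a pd0 0 false true false .pp 2 0 2 (qsf 1239849684 370763052 0 536870912 0) ndB1q2b ndB3q2a pcB0 cut_pm_202_ba Ext.none)

def k0_pm_202_ba : ∃ t, chk3 f_pm_202_ba t 1 1 1 = true :=
  ⟨(l 3), by decide +kernel⟩

theorem c_pm_202_ba : CertB 1239849684 370763052 0 536870912 536870912 50465866 3 eng mog cd1q2b cd3q2a pd0 false true false .pp 2 0 2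
    ndB1q2b ndB3q2a pcB0 cut_pm_202_ba Ext.none :=
  certB0 (fam := false) (s1 := true) (s2 := false) (a := 2) (b := 0) (c := 2) (cn := .pp) (n1 := ndB1q2b) (n2 := ndB3q2a) (pc := pcB0) (cut := cut_pm_202_ba) (xt := Ext.none) (P1 := 1239849684) (W1 := 370763052) (P2 := 0) (W2 := 536870912) (P3 := 536870912) (W3 := 50465866) (N0 := 3) (En := eng) (mo := mog) (C1 := cd1q2b) (C2 := cd3q2a) (C3 := pd0)
    rfl k0_pm_202_ba

noncomputable def cut_pm_202_bb : Cut := Cut.of [[⟨0, 1, 0, 67108864⟩, ⟨1, 0, 0, 67108864⟩, ⟨2, 1, 0, 67108864⟩]]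

noncomputable def f_pm_202_bb : ℕ → ℕ → ℕ → ℕ → Bool := onCell 1239849684 370763052 1239849684 370763052 536870912 50465866
    (rowB 3 eng mog cd1q2b cd3q2b pd0 0 false true false .pp 2 0 2 (qsf 1239849684 370763052 1239849684 370763052 0) ndB1q2b ndB3q2b pcB0 cut_pm_202_bb Ext.none)

def k0_pm_202_bb : ∃ t, chk3 f_pm_202_bb t 1 1 1 = true :=
  ⟨(l 3), by decide +kernel⟩

theorem c_pm_202_bb : CertB 1239849684 370763052 1239849684 370763052 536870912 50465866 3 eng mog cd1q2b cd3q2b pd0 false true false .pp 2 0 2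
    ndB1q2b ndB3q2b pcB0 cut_pm_202_bb Ext.none :=
  certB0 (fam := false) (s1 := true) (s2 := false) (a := 2) (b := 0) (c := 2) (cn := .pp) (n1 := ndB1q2b) (n2 := ndB3q2b) (pc := pcB0) (cut := cut_pm_202_bb) (xt := Ext.none) (P1 := 1239849684) (W1 := 370763052) (P2 := 1239849684) (W2 := 370763052) (P3 := 536870912) (W3 := 50465866) (N0 := 3) (En := eng) (mo := mog) (C1 := cd1q2b) (C2 := cd3q2b) (C3 := pd0)
    rfl k0_pm_202_bb

noncomputable def f_pm_203_a : ℕ → ℕ → ℕ → ℕ → Bool := onCell 0 536870912 0 536870912 536870912 50465866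
    (rowB 3 eng mog cd1q2a cd3q3 pd0 1 false true false .up 2 0 3 (qsf 0 536870912 1610612736 536870912 0) ndB1q2a ndB3q3 pcB0 Cut.none Ext.none)

def k0_pm_203_a : ∃ t, chk3 f_pm_203_a t 1 1 1 = true :=
  ⟨(l 3), by decide +kernel⟩

theorem c_pm_203_a : CertB 0 536870912 1610612736 536870912 536870912 50465866 3 eng mog cd1q2a cd3q3 pd0 false true false .up 2 0 3
    ndB1q2a ndB3q3 pcB0 Cut.none Ext.none :=
  certB1 (fam := false) (s1 := true) (s2 := false) (a := 2) (b := 0) (c := 3) (cn := .up) (n1 := ndB1q2a) (n2 := ndB3q3) (pc := pcB0) (cut := Cut.none) (xt := Ext.none) (P1 := 0) (W1 := 536870912) (P2 := 1610612736) (W2 := 536870912) (P3 := 536870912) (W3 := 50465866) (N0 := 3) (En := eng) (mo := mog) (C1 := cd1q2a) (C2 := cd3q3) (C3 := pd0)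
    rfl (fun _ => rfl) k0_pm_203_a

noncomputable def f_pm_203_b : ℕ → ℕ → ℕ → ℕ → Bool := onCell 1239849684 370763052 1610612736 536870912 536870912 50465866
    (rowB 3 eng mog cd1q2b cd3q3 pd0 0 false true false .up 2 0 3 (qsf 1239849684 370763052 1610612736 536870912 0) ndB1q2b ndB3q3 pcB0 Cut.none Ext.none)

def k0_pm_203_b : ∃ t, chk3 f_pm_203_b t 1 1 1 = true :=
  ⟨(l 3), by decide +kernel⟩

theorem c_pm_203_b : CertB 1239849684 370763052 1610612736 536870912 536870912 50465866 3 eng mog cd1q2b cd3q3 pd0 false true false .up 2 0 3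
    ndB1q2b ndB3q3 pcB0 Cut.none Ext.none :=
  certB0 (fam := false) (s1 := true) (s2 := false) (a := 2) (b := 0) (c := 3) (cn := .up) (n1 := ndB1q2b) (n2 := ndB3q3) (pc := pcB0) (cut := Cut.none) (xt := Ext.none) (P1 := 1239849684) (W1 := 370763052) (P2 := 1610612736) (W2 := 536870912) (P3 := 536870912) (W3 := 50465866) (N0 := 3) (En := eng) (mo := mog) (C1 := cd1q2b) (C2 := cd3q3) (C3 := pd0)
    rfl k0_pm_203_b

noncomputable def cut_pm_213_a : Cut := Cut.of [[⟨0, 1, 0, 67108864⟩, ⟨1, 1, 0, 67108864⟩, ⟨2, 2, 0, 16777216⟩]]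

noncomputable def f_pm_213_a : ℕ → ℕ → ℕ → ℕ → Bool := onCell 0 536870912 1610612736 536870912 536870912 50465866
    (rowB 3 eng mog cd1q2a cd3q3 pd1 0 false true false .pnn 2 1 3 (qsf 0 536870912 1610612736 536870912 1) ndB1q2a ndB3q3 pcB1 cut_pm_213_a Ext.none)

def k0_pm_213_a : ∃ t, chk3 f_pm_213_a t 1 1 1 = true :=
  ⟨(a (l 3) (b (l 3) (b (l 3) (a (l 3) (b (l 3) (a (l 3) (a (l 3) (b (l 3) (a (l 3) (b (l 3) (b (l 3) (l 6)))))))))))), by decide +kernel⟩

theorem c_pm_213_a : CertB 0 536870912 1610612736 536870912 536870912 50465866 3 eng mog cd1q2a cd3q3 pd1 false true false .pnn 2 1 3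
    ndB1q2a ndB3q3 pcB1 cut_pm_213_a Ext.none :=
  certB0 (fam := false) (s1 := true) (s2 := false) (a := 2) (b := 1) (c := 3) (cn := .pnn) (n1 := ndB1q2a) (n2 := ndB3q3) (pc := pcB1) (cut := cut_pm_213_a) (xt := Ext.none) (P1 := 0) (W1 := 536870912) (P2 := 1610612736) (W2 := 536870912) (P3 := 536870912) (W3 := 50465866) (N0 := 3) (En := eng) (mo := mog) (C1 := cd1q2a) (C2 := cd3q3) (C3 := pd1)
    rfl k0_pm_213_a

noncomputable def cut_pm_213_b : Cut := Cut.of [[⟨0, 1, 0, 67108864⟩, ⟨1, 1, 0, 67108864⟩, ⟨2, 2, 0, 16777216⟩]]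

noncomputable def f_pm_213_b : ℕ → ℕ → ℕ → ℕ → Bool := onCell 1239849684 370763052 1610612736 536870912 536870912 50465866
    (rowB 3 eng mog cd1q2b cd3q3 pd1 0 false true false .pnn 2 1 3 (qsf 1239849684 370763052 1610612736 536870912 1) ndB1q2b ndB3q3 pcB1 cut_pm_213_b Ext.none)

def k0_pm_213_b : ∃ t, chk3 f_pm_213_b t 1 1 1 = true :=
  ⟨(l 3), by decide +kernel⟩

theorem c_pm_213_b : CertB 1239849684 370763052 1610612736 536870912 536870912 50465866 3 eng mog cd1q2b cd3q3 pd1 false true false .pnn 2 1 3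
    ndB1q2b ndB3q3 pcB1 cut_pm_213_b Ext.none :=
  certB0 (fam := false) (s1 := true) (s2 := false) (a := 2) (b := 1) (c := 3) (cn := .pnn) (n1 := ndB1q2b) (n2 := ndB3q3) (pc := pcB1) (cut := cut_pm_213_b) (xt := Ext.none) (P1 := 1239849684) (W1 := 370763052) (P2 := 1610612736) (W2 := 536870912) (P3 := 536870912) (W3 := 50465866) (N0 := 3) (En := eng) (mo := mog) (C1 := cd1q2b) (C2 := cd3q3) (C3 := pd1)
    rfl k0_pm_213_b

noncomputable def f_pm_303 : ℕ → ℕ → ℕ → ℕ → Bool := onCell 1610612736 536870912 1610612736 536870912 536870912 50465866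
    (rowB 3 eng mog cd1q3 cd3q3 pd0 0 false true false .npn 3 0 3 (qsf 1610612736 536870912 1610612736 536870912 0) ndB1q3 ndB3q3 pcB0 Cut.none Ext.none)

def k0_pm_303 : ∃ t, chk3 f_pm_303 t 1 1 1 = true :=
  ⟨(l 3), by decide +kernel⟩

theorem c_pm_303 : CertB 1610612736 536870912 1610612736 536870912 536870912 50465866 3 eng mog cd1q3 cd3q3 pd0 false true false .npn 3 0 3
    ndB1q3 ndB3q3 pcB0 Cut.none Ext.none :=
  certB0 (fam := false) (s1 := true) (s2 := false) (a := 3) (b := 0) (c := 3) (cn := .npn) (n1 := ndB1q3) (n2 := ndB3q3) (pc := pcB0) (cut := Cut.none) (xt := Ext.none) (P1 := 1610612736) (W1 := 536870912) (P2 := 1610612736) (W2 := 536870912) (P3 := 536870912) (W3 := 50465866) (N0 := 3) (En := eng) (mo := mog) (C1 := cd1q3) (C2 := cd3q3) (C3 := pd0)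
    rfl k0_pm_303

noncomputable def f_pm_313 : ℕ → ℕ → ℕ → ℕ → Bool := onCell 1610612736 536870912 1610612736 536870912 536870912 50465866
    (rowB 3 eng mog cd1q3 cd3q3 pd1 0 false true false .dn 3 1 3 (qsf 1610612736 536870912 1610612736 536870912 1) ndB1q3 ndB3q3 pcB1 Cut.none Ext.none)

def k0_pm_313 : ∃ t, chk3 f_pm_313 t 1 1 1 = true :=
  ⟨(l 3), by decide +kernel⟩

theorem c_pm_313 : CertB 1610612736 536870912 1610612736 536870912 536870912 50465866 3 eng mog cd1q3 cd3q3 pd1 false true false .dn 3 1 3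
    ndB1q3 ndB3q3 pcB1 Cut.none Ext.none :=
  certB0 (fam := false) (s1 := true) (s2 := false) (a := 3) (b := 1) (c := 3) (cn := .dn) (n1 := ndB1q3) (n2 := ndB3q3) (pc := pcB1) (cut := Cut.none) (xt := Ext.none) (P1 := 1610612736) (W1 := 536870912) (P2 := 1610612736) (W2 := 536870912) (P3 := 536870912) (W3 := 50465866) (N0 := 3) (En := eng) (mo := mog) (C1 := cd1q3) (C2 := cd3q3) (C3 := pd1)
    rfl k0_pm_313

noncomputable def f_mm_001 : ℕ → ℕ → ℕ → ℕ → Bool := onCell 0 536870912 536870912 536870912 536870912 50465866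
    (rowB 3 eng mog cd1q0 cd3q1 pd0 0 false false false .up 0 0 1 (qsf 0 536870912 536870912 536870912 0) ndB1q0 ndB3q1 pcB0 Cut.none Ext.none)

def k0_mm_001 : ∃ t, chk3 f_mm_001 t 1 1 1 = true :=
  ⟨(l 3), by decide +kernel⟩

theorem c_mm_001 : CertB 0 536870912 536870912 536870912 536870912 50465866 3 eng mog cd1q0 cd3q1 pd0 false false false .up 0 0 1
    ndB1q0 ndB3q1 pcB0 Cut.none Ext.none :=
  certB0 (fam := false) (s1 := false) (s2 := false) (a := 0) (b := 0) (c := 1) (cn := .up) (n1 := ndB1q0) (n2 := ndB3q1) (pc := pcB0) (cut := Cut.none) (xt := Ext.none) (P1 := 0) (W1 := 536870912) (P2 := 536870912) (W2 := 536870912) (P3 := 536870912) (W3 := 50465866) (N0 := 3) (En := eng) (mo := mog) (C1 := cd1q0) (C2 := cd3q1) (C3 := pd0)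
    rfl k0_mm_001

noncomputable def f_mm_011 : ℕ → ℕ → ℕ → ℕ → Bool := onCell 0 536870912 536870912 536870912 536870912 50465866
    (rowB 3 eng mog cd1q0 cd3q1 pd1 0 false false false .pnn 0 1 1 (qsf 0 536870912 536870912 536870912 1) ndB1q0 ndB3q1 pcB1 Cut.none Ext.none)

def k0_mm_011 : ∃ t, chk3 f_mm_011 t 1 1 1 = true :=
  ⟨(l 3), by decide +kernel⟩

theorem c_mm_011 : CertB 0 536870912 536870912 536870912 536870912 50465866 3 eng mog cd1q0 cd3q1 pd1 false false false .pnn 0 1 1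
    ndB1q0 ndB3q1 pcB1 Cut.none Ext.none :=
  certB0 (fam := false) (s1 := false) (s2 := false) (a := 0) (b := 1) (c := 1) (cn := .pnn) (n1 := ndB1q0) (n2 := ndB3q1) (pc := pcB1) (cut := Cut.none) (xt := Ext.none) (P1 := 0) (W1 := 536870912) (P2 := 536870912) (W2 := 536870912) (P3 := 536870912) (W3 := 50465866) (N0 := 3) (En := eng) (mo := mog) (C1 := cd1q0) (C2 := cd3q1) (C3 := pd1)
    rfl k0_mm_011

noncomputable def f_mm_012_a : ℕ → ℕ → ℕ → ℕ → Bool := onCell 0 536870912 0 536870912 536870912 50465866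
    (rowB 3 eng mog cd1q0 cd3q2a pd1 0 false false false .pnp 0 1 2 (qsf 0 536870912 0 536870912 1) ndB1q0 ndB3q2a pcB1 Cut.none Ext.none)

def k0_mm_012_a : ∃ t, chk3 f_mm_012_a t 1 1 1 = true :=
  ⟨(l 5), by decide +kernel⟩

theorem c_mm_012_a : CertB 0 536870912 0 536870912 536870912 50465866 3 eng mog cd1q0 cd3q2a pd1 false false false .pnp 0 1 2
    ndB1q0 ndB3q2a pcB1 Cut.none Ext.none :=
  certB0 (fam := false) (s1 := false) (s2 := false) (a := 0) (b := 1) (c := 2) (cn := .pnp) (n1 := ndB1q0) (n2 := ndB3q2a) (pc := pcB1) (cut := Cut.none) (xt := Ext.none) (P1 := 0) (W1 := 536870912) (P2 := 0) (W2 := 536870912) (P3 := 536870912) (W3 := 50465866) (N0 := 3) (En := eng) (mo := mog) (C1 := cd1q0) (C2 := cd3q2a) (C3 := pd1)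
    rfl k0_mm_012_a

noncomputable def f_mm_012_b : ℕ → ℕ → ℕ → ℕ → Bool := onCell 0 536870912 1239849684 370763052 536870912 50465866
    (rowB 3 eng mog cd1q0 cd3q2b pd1 0 false false false .pnp 0 1 2 (qsf 0 536870912 1239849684 370763052 1) ndB1q0 ndB3q2b pcB1 Cut.none Ext.none)

def k0_mm_012_b : ∃ t, chk3 f_mm_012_b t 1 1 1 = true :=
  ⟨(l 5), by decide +kernel⟩

theorem c_mm_012_b : CertB 0 536870912 1239849684 370763052 536870912 50465866 3 eng mog cd1q0 cd3q2b pd1 false false false .pnp 0 1 2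
    ndB1q0 ndB3q2b pcB1 Cut.none Ext.none :=
  certB0 (fam := false) (s1 := false) (s2 := false) (a := 0) (b := 1) (c := 2) (cn := .pnp) (n1 := ndB1q0) (n2 := ndB3q2b) (pc := pcB1) (cut := Cut.none) (xt := Ext.none) (P1 := 0) (W1 := 536870912) (P2 := 1239849684) (W2 := 370763052) (P3 := 536870912) (W3 := 50465866) (N0 := 3) (En := eng) (mo := mog) (C1 := cd1q0) (C2 := cd3q2b) (C3 := pd1)
    rfl k0_mm_012_b

noncomputable def f_mm_022_a : ℕ → ℕ → ℕ → ℕ → Bool := onCell 0 536870912 0 536870912 536870912 50465866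
    (rowB 3 eng mog cd1q0 cd3q2a pd2 0 false false false .pp 0 2 2 (qsf 0 536870912 0 536870912 2) ndB1q0 ndB3q2a pcB2 Cut.none Ext.none)

def k0_mm_022_a : ∃ t, chk3 f_mm_022_a t 1 1 1 = true :=
  ⟨(l 5), by decide +kernel⟩

theorem c_mm_022_a : CertB 0 536870912 0 536870912 536870912 50465866 3 eng mog cd1q0 cd3q2a pd2 false false false .pp 0 2 2
    ndB1q0 ndB3q2a pcB2 Cut.none Ext.none :=
  certB0 (fam := false) (s1 := false) (s2 := false) (a := 0) (b := 2) (c := 2) (cn := .pp) (n1 := ndB1q0) (n2 := ndB3q2a) (pc := pcB2) (cut := Cut.none) (xt := Ext.none) (P1 := 0) (W1 := 536870912) (P2 := 0) (W2 := 536870912) (P3 := 536870912) (W3 := 50465866) (N0 := 3) (En := eng) (mo := mog) (C1 := cd1q0) (C2 := cd3q2a) (C3 := pd2)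
    rfl k0_mm_022_a

noncomputable def f_mm_022_b : ℕ → ℕ → ℕ → ℕ → Bool := onCell 0 536870912 1239849684 370763052 536870912 50465866
    (rowB 3 eng mog cd1q0 cd3q2b pd2 0 false false false .pp 0 2 2 (qsf 0 536870912 1239849684 370763052 2) ndB1q0 ndB3q2b pcB2 Cut.none Ext.none)

def k0_mm_022_b : ∃ t, chk3 f_mm_022_b t 1 1 1 = true :=
  ⟨(l 5), by decide +kernel⟩

theorem c_mm_022_b : CertB 0 536870912 1239849684 370763052 536870912 50465866 3 eng mog cd1q0 cd3q2b pd2 false false false .pp 0 2 2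
    ndB1q0 ndB3q2b pcB2 Cut.none Ext.none :=
  certB0 (fam := false) (s1 := false) (s2 := false) (a := 0) (b := 2) (c := 2) (cn := .pp) (n1 := ndB1q0) (n2 := ndB3q2b) (pc := pcB2) (cut := Cut.none) (xt := Ext.none) (P1 := 0) (W1 := 536870912) (P2 := 1239849684) (W2 := 370763052) (P3 := 536870912) (W3 := 50465866) (N0 := 3) (En := eng) (mo := mog) (C1 := cd1q0) (C2 := cd3q2b) (C3 := pd2)
    rfl k0_mm_022_b

noncomputable def f_mm_023 : ℕ → ℕ → ℕ → ℕ → Bool := onCell 0 536870912 1610612736 536870912 536870912 50465866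
    (rowB 3 eng mog cd1q0 cd3q3 pd2 0 false false false .up 0 2 3 (qsf 0 536870912 1610612736 536870912 2) ndB1q0 ndB3q3 pcB2 Cut.none Ext.none)

def k0_mm_023 : ∃ t, chk3 f_mm_023 t 1 1 1 = true :=
  ⟨(l 5), by decide +kernel⟩

theorem c_mm_023 : CertB 0 536870912 1610612736 536870912 536870912 50465866 3 eng mog cd1q0 cd3q3 pd2 false false false .up 0 2 3
    ndB1q0 ndB3q3 pcB2 Cut.none Ext.none :=
  certB0 (fam := false) (s1 := false) (s2 := false) (a := 0) (b := 2) (c := 3) (cn := .up) (n1 := ndB1q0) (n2 := ndB3q3) (pc := pcB2) (cut := Cut.none) (xt := Ext.none) (P1 := 0) (W1 := 536870912) (P2 := 1610612736) (W2 := 536870912) (P3 := 536870912) (W3 := 50465866) (N0 := 3) (En := eng) (mo := mog) (C1 := cd1q0) (C2 := cd3q3) (C3 := pd2)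
    rfl k0_mm_023

noncomputable def f_mm_033 : ℕ → ℕ → ℕ → ℕ → Bool := onCell 0 536870912 1610612736 536870912 536870912 50465866
    (rowB 3 eng mog cd1q0 cd3q3 pd3 0 false false false .pnn 0 3 3 (qsf 0 536870912 1610612736 536870912 3) ndB1q0 ndB3q3 pcB3 Cut.none Ext.none)

def k0_mm_033 : ∃ t, chk3 f_mm_033 t 1 1 1 = true :=
  ⟨(l 5), by decide +kernel⟩

theorem c_mm_033 : CertB 0 536870912 1610612736 536870912 536870912 50465866 3 eng mog cd1q0 cd3q3 pd3 false false false .pnn 0 3 3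
    ndB1q0 ndB3q3 pcB3 Cut.none Ext.none :=
  certB0 (fam := false) (s1 := false) (s2 := false) (a := 0) (b := 3) (c := 3) (cn := .pnn) (n1 := ndB1q0) (n2 := ndB3q3) (pc := pcB3) (cut := Cut.none) (xt := Ext.none) (P1 := 0) (W1 := 536870912) (P2 := 1610612736) (W2 := 536870912) (P3 := 536870912) (W3 := 50465866) (N0 := 3) (En := eng) (mo := mog) (C1 := cd1q0) (C2 := cd3q3) (C3 := pd3)
    rfl k0_mm_033

noncomputable def f_mm_101 : ℕ → ℕ → ℕ → ℕ → Bool := onCell 536870912 536870912 536870912 536870912 536870912 50465866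
    (rowB 3 eng mog cd1q1 cd3q1 pd0 0 false false false .npn 1 0 1 (qsf 536870912 536870912 536870912 536870912 0) ndB1q1 ndB3q1 pcB0 Cut.none Ext.none)

def k0_mm_101 : ∃ t, chk3 f_mm_101 t 1 1 1 = true :=
  ⟨(l 3), by decide +kernel⟩

theorem c_mm_101 : CertB 536870912 536870912 536870912 536870912 536870912 50465866 3 eng mog cd1q1 cd3q1 pd0 false false false .npn 1 0 1
    ndB1q1 ndB3q1 pcB0 Cut.none Ext.none :=
  certB0 (fam := false) (s1 := false) (s2 := false) (a := 1) (b := 0) (c := 1) (cn := .npn) (n1 := ndB1q1) (n2 := ndB3q1) (pc := pcB0) (cut := Cut.none) (xt := Ext.none) (P1 := 536870912) (W1 := 536870912) (P2 := 536870912) (W2 := 536870912) (P3 := 536870912) (W3 := 50465866) (N0 := 3) (En := eng) (mo := mog) (C1 := cd1q1) (C2 := cd3q1) (C3 := pd0)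
    rfl k0_mm_101

noncomputable def f_mm_102_a : ℕ → ℕ → ℕ → ℕ → Bool := onCell 536870912 536870912 0 536870912 536870912 50465866
    (rowB 3 eng mog cd1q1 cd3q2a pd0 0 false false false .npp 1 0 2 (qsf 536870912 536870912 0 536870912 0) ndB1q1 ndB3q2a pcB0 Cut.none Ext.none)

def k0_mm_102_a : ∃ t, chk3 f_mm_102_a t 1 1 1 = true :=
  ⟨(l 3), by decide +kernel⟩

theorem c_mm_102_a : CertB 536870912 536870912 0 536870912 536870912 50465866 3 eng mog cd1q1 cd3q2a pd0 false false false .npp 1 0 2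
    ndB1q1 ndB3q2a pcB0 Cut.none Ext.none :=
  certB0 (fam := false) (s1 := false) (s2 := false) (a := 1) (b := 0) (c := 2) (cn := .npp) (n1 := ndB1q1) (n2 := ndB3q2a) (pc := pcB0) (cut := Cut.none) (xt := Ext.none) (P1 := 536870912) (W1 := 536870912) (P2 := 0) (W2 := 536870912) (P3 := 536870912) (W3 := 50465866) (N0 := 3) (En := eng) (mo := mog) (C1 := cd1q1) (C2 := cd3q2a) (C3 := pd0)
    rfl k0_mm_102_a

noncomputable def f_mm_102_b : ℕ → ℕ → ℕ → ℕ → Bool := onCell 536870912 536870912 1239849684 370763052 536870912 50465866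
    (rowB 3 eng mog cd1q1 cd3q2b pd0 0 false false false .npp 1 0 2 (qsf 536870912 536870912 1239849684 370763052 0) ndB1q1 ndB3q2b pcB0 Cut.none Ext.none)

def k0_mm_102_b : ∃ t, chk3 f_mm_102_b t 1 1 1 = true :=
  ⟨(l 5), by decide +kernel⟩

theorem c_mm_102_b : CertB 536870912 536870912 1239849684 370763052 536870912 50465866 3 eng mog cd1q1 cd3q2b pd0 false false false .npp 1 0 2
    ndB1q1 ndB3q2b pcB0 Cut.none Ext.none :=
  certB0 (fam := false) (s1 := false) (s2 := false) (a := 1) (b := 0) (c := 2) (cn := .npp) (n1 := ndB1q1) (n2 := ndB3q2b) (pc := pcB0) (cut := Cut.none) (xt := Ext.none) (P1 := 536870912) (W1 := 536870912) (P2 := 1239849684) (W2 := 370763052) (P3 := 536870912) (W3 := 50465866) (N0 := 3) (En := eng) (mo := mog) (C1 := cd1q1) (C2 := cd3q2b) (C3 := pd0)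
    rfl k0_mm_102_b

noncomputable def f_mm_112_a : ℕ → ℕ → ℕ → ℕ → Bool := onCell 536870912 536870912 0 536870912 536870912 50465866
    (rowB 3 eng mog cd1q1 cd3q2a pd1 0 false false false .dn 1 1 2 (qsf 536870912 536870912 0 536870912 1) ndB1q1 ndB3q2a pcB1 Cut.none Ext.none)

def k0_mm_112_a : ∃ t, chk3 f_mm_112_a t 1 1 1 = true :=
  ⟨(l 3), by decide +kernel⟩

theorem c_mm_112_a : CertB 536870912 536870912 0 536870912 536870912 50465866 3 eng mog cd1q1 cd3q2a pd1 false false false .dn 1 1 2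
    ndB1q1 ndB3q2a pcB1 Cut.none Ext.none :=
  certB0 (fam := false) (s1 := false) (s2 := false) (a := 1) (b := 1) (c := 2) (cn := .dn) (n1 := ndB1q1) (n2 := ndB3q2a) (pc := pcB1) (cut := Cut.none) (xt := Ext.none) (P1 := 536870912) (W1 := 536870912) (P2 := 0) (W2 := 536870912) (P3 := 536870912) (W3 := 50465866) (N0 := 3) (En := eng) (mo := mog) (C1 := cd1q1) (C2 := cd3q2a) (C3 := pd1)
    rfl k0_mm_112_a

noncomputable def f_mm_112_b : ℕ → ℕ → ℕ → ℕ → Bool := onCell 536870912 536870912 1239849684 370763052 536870912 50465866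
    (rowB 3 eng mog cd1q1 cd3q2b pd1 0 false false false .dn 1 1 2 (qsf 536870912 536870912 1239849684 370763052 1) ndB1q1 ndB3q2b pcB1 Cut.none Ext.none)

def k0_mm_112_b : ∃ t, chk3 f_mm_112_b t 1 1 1 = true :=
  ⟨(l 5), by decide +kernel⟩

theorem c_mm_112_b : CertB 536870912 536870912 1239849684 370763052 536870912 50465866 3 eng mog cd1q1 cd3q2b pd1 false false false .dn 1 1 2
    ndB1q1 ndB3q2b pcB1 Cut.none Ext.none :=
  certB0 (fam := false) (s1 := false) (s2 := false) (a := 1) (b := 1) (c := 2) (cn := .dn) (n1 := ndB1q1) (n2 := ndB3q2b) (pc := pcB1) (cut := Cut.none) (xt := Ext.none) (P1 := 536870912) (W1 := 536870912) (P2 := 1239849684) (W2 := 370763052) (P3 := 536870912) (W3 := 50465866) (N0 := 3) (En := eng) (mo := mog) (C1 := cd1q1) (C2 := cd3q2b) (C3 := pd1)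
    rfl k0_mm_112_b

noncomputable def f_mm_113 : ℕ → ℕ → ℕ → ℕ → Bool := onCell 536870912 536870912 1610612736 536870912 536870912 50465866
    (rowB 3 eng mog cd1q1 cd3q3 pd1 0 false false false .nn 1 1 3 (qsf 536870912 536870912 1610612736 536870912 1) ndB1q1 ndB3q3 pcB1 Cut.none Ext.none)

def k0_mm_113 : ∃ t, chk3 f_mm_113 t 1 1 1 = true :=
  ⟨(l 5), by decide +kernel⟩

theorem c_mm_113 : CertB 536870912 536870912 1610612736 536870912 536870912 50465866 3 eng mog cd1q1 cd3q3 pd1 false false false .nn 1 1 3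
    ndB1q1 ndB3q3 pcB1 Cut.none Ext.none :=
  certB0 (fam := false) (s1 := false) (s2 := false) (a := 1) (b := 1) (c := 3) (cn := .nn) (n1 := ndB1q1) (n2 := ndB3q3) (pc := pcB1) (cut := Cut.none) (xt := Ext.none) (P1 := 536870912) (W1 := 536870912) (P2 := 1610612736) (W2 := 536870912) (P3 := 536870912) (W3 := 50465866) (N0 := 3) (En := eng) (mo := mog) (C1 := cd1q1) (C2 := cd3q3) (C3 := pd1)
    rfl k0_mm_113

noncomputable def f_mm_123 : ℕ → ℕ → ℕ → ℕ → Bool := onCell 536870912 536870912 1610612736 536870912 536870912 50465866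
    (rowB 3 eng mog cd1q1 cd3q3 pd2 0 false false false .npn 1 2 3 (qsf 536870912 536870912 1610612736 536870912 2) ndB1q1 ndB3q3 pcB2 Cut.none Ext.none)

def k0_mm_123 : ∃ t, chk3 f_mm_123 t 1 1 1 = true :=
  ⟨(l 5), by decide +kernel⟩

theorem c_mm_123 : CertB 536870912 536870912 1610612736 536870912 536870912 50465866 3 eng mog cd1q1 cd3q3 pd2 false false false .npn 1 2 3
    ndB1q1 ndB3q3 pcB2 Cut.none Ext.none :=
  certB0 (fam := false) (s1 := false) (s2 := false) (a := 1) (b := 2) (c := 3) (cn := .npn) (n1 := ndB1q1) (n2 := ndB3q3) (pc := pcB2) (cut := Cut.none) (xt := Ext.none) (P1 := 536870912) (W1 := 536870912) (P2 := 1610612736) (W2 := 536870912) (P3 := 536870912) (W3 := 50465866) (N0 := 3) (En := eng) (mo := mog) (C1 := cd1q1) (C2 := cd3q3) (C3 := pd2)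
    rfl k0_mm_123

noncomputable def f_mm_133 : ℕ → ℕ → ℕ → ℕ → Bool := onCell 536870912 536870912 1610612736 536870912 536870912 50465866
    (rowB 3 eng mog cd1q1 cd3q3 pd3 0 false false false .dn 1 3 3 (qsf 536870912 536870912 1610612736 536870912 3) ndB1q1 ndB3q3 pcB3 Cut.none Ext.none)

def k0_mm_133 : ∃ t, chk3 f_mm_133 t 1 1 1 = true :=
  ⟨(l 5), by decide +kernel⟩

theorem c_mm_133 : CertB 536870912 536870912 1610612736 536870912 536870912 50465866 3 eng mog cd1q1 cd3q3 pd3 false false false .dn 1 3 3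
    ndB1q1 ndB3q3 pcB3 Cut.none Ext.none :=
  certB0 (fam := false) (s1 := false) (s2 := false) (a := 1) (b := 3) (c := 3) (cn := .dn) (n1 := ndB1q1) (n2 := ndB3q3) (pc := pcB3) (cut := Cut.none) (xt := Ext.none) (P1 := 536870912) (W1 := 536870912) (P2 := 1610612736) (W2 := 536870912) (P3 := 536870912) (W3 := 50465866) (N0 := 3) (En := eng) (mo := mog) (C1 := cd1q1) (C2 := cd3q3) (C3 := pd3)
    rfl k0_mm_133

noncomputable def f_mm_202_aa : ℕ → ℕ → ℕ → ℕ → Bool := onCell 0 536870912 0 536870912 536870912 50465866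
    (rowB 3 eng mog cd1q2a cd3q2a pd0 0 false false false .pp 2 0 2 (qsf 0 536870912 0 536870912 0) ndB1q2a ndB3q2a pcB0 Cut.none Ext.none)

def k0_mm_202_aa : ∃ t, chk3 f_mm_202_aa t 1 1 1 = true :=
  ⟨(l 3), by decide +kernel⟩

theorem c_mm_202_aa : CertB 0 536870912 0 536870912 536870912 50465866 3 eng mog cd1q2a cd3q2a pd0 false false false .pp 2 0 2
    ndB1q2a ndB3q2a pcB0 Cut.none Ext.none :=
  certB0 (fam := false) (s1 := false) (s2 := false) (a := 2) (b := 0) (c := 2) (cn := .pp) (n1 := ndB1q2a) (n2 := ndB3q2a) (pc := pcB0) (cut := Cut.none) (xt := Ext.none) (P1 := 0) (W1 := 536870912) (P2 := 0) (W2 := 536870912) (P3 := 536870912) (W3 := 50465866) (N0 := 3) (En := eng) (mo := mog) (C1 := cd1q2a) (C2 := cd3q2a) (C3 := pd0)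
    rfl k0_mm_202_aa

noncomputable def f_mm_202_ab : ℕ → ℕ → ℕ → ℕ → Bool := onCell 0 536870912 1239849684 370763052 536870912 50465866
    (rowB 3 eng mog cd1q2a cd3q2b pd0 0 false false false .pp 2 0 2 (qsf 0 536870912 1239849684 370763052 0) ndB1q2a ndB3q2b pcB0 Cut.none Ext.none)

def k0_mm_202_ab : ∃ t, chk3 f_mm_202_ab t 1 1 1 = true :=
  ⟨(l 3), by decide +kernel⟩

theorem c_mm_202_ab : CertB 0 536870912 1239849684 370763052 536870912 50465866 3 eng mog cd1q2a cd3q2b pd0 false false false .pp 2 0 2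
    ndB1q2a ndB3q2b pcB0 Cut.none Ext.none :=
  certB0 (fam := false) (s1 := false) (s2 := false) (a := 2) (b := 0) (c := 2) (cn := .pp) (n1 := ndB1q2a) (n2 := ndB3q2b) (pc := pcB0) (cut := Cut.none) (xt := Ext.none) (P1 := 0) (W1 := 536870912) (P2 := 1239849684) (W2 := 370763052) (P3 := 536870912) (W3 := 50465866) (N0 := 3) (En := eng) (mo := mog) (C1 := cd1q2a) (C2 := cd3q2b) (C3 := pd0)
    rfl k0_mm_202_ab

noncomputable def f_mm_202_ba : ℕ → ℕ → ℕ → ℕ → Bool := onCell 1239849684 370763052 0 536870912 536870912 50465866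
    (rowB 3 eng mog cd1q2b cd3q2a pd0 0 false false false .pp 2 0 2 (qsf 1239849684 370763052 0 536870912 0) ndB1q2b ndB3q2a pcB0 Cut.none Ext.none)

def k0_mm_202_ba : ∃ t, chk3 f_mm_202_ba t 1 1 1 = true :=
  ⟨(l 3), by decide +kernel⟩

theorem c_mm_202_ba : CertB 1239849684 370763052 0 536870912 536870912 50465866 3 eng mog cd1q2b cd3q2a pd0 false false false .pp 2 0 2
    ndB1q2b ndB3q2a pcB0 Cut.none Ext.none :=
  certB0 (fam := false) (s1 := false) (s2 := false) (a := 2) (b := 0) (c := 2) (cn := .pp) (n1 := ndB1q2b) (n2 := ndB3q2a) (pc := pcB0) (cut := Cut.none) (xt := Ext.none) (P1 := 1239849684) (W1 := 370763052) (P2 := 0) (W2 := 536870912) (P3 := 536870912) (W3 := 50465866) (N0 := 3) (En := eng) (mo := mog) (C1 := cd1q2b) (C2 := cd3q2a) (C3 := pd0)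
    rfl k0_mm_202_ba

noncomputable def f_mm_202_bb : ℕ → ℕ → ℕ → ℕ → Bool := onCell 1239849684 370763052 1239849684 370763052 536870912 50465866
    (rowB 3 eng mog cd1q2b cd3q2b pd0 0 false false false .pp 2 0 2 (qsf 1239849684 370763052 1239849684 370763052 0) ndB1q2b ndB3q2b pcB0 Cut.none Ext.none)

def k0_mm_202_bb : ∃ t, chk3 f_mm_202_bb t 1 1 1 = true :=
  ⟨(l 3), by decide +kernel⟩

theorem c_mm_202_bb : CertB 1239849684 370763052 1239849684 370763052 536870912 50465866 3 eng mog cd1q2b cd3q2b pd0 false false false .pp 2 0 2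
    ndB1q2b ndB3q2b pcB0 Cut.none Ext.none :=
  certB0 (fam := false) (s1 := false) (s2 := false) (a := 2) (b := 0) (c := 2) (cn := .pp) (n1 := ndB1q2b) (n2 := ndB3q2b) (pc := pcB0) (cut := Cut.none) (xt := Ext.none) (P1 := 1239849684) (W1 := 370763052) (P2 := 1239849684) (W2 := 370763052) (P3 := 536870912) (W3 := 50465866) (N0 := 3) (En := eng) (mo := mog) (C1 := cd1q2b) (C2 := cd3q2b) (C3 := pd0)
    rfl k0_mm_202_bb

noncomputable def f_mm_203_a : ℕ → ℕ → ℕ → ℕ → Bool := onCell 0 536870912 0 536870912 536870912 50465866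
    (rowB 3 eng mog cd1q2a cd3q3 pd0 1 false false false .up 2 0 3 (qsf 0 536870912 1610612736 536870912 0) ndB1q2a ndB3q3 pcB0 Cut.none Ext.none)

def k0_mm_203_a : ∃ t, chk3 f_mm_203_a t 1 1 1 = true :=
  ⟨(l 3), by decide +kernel⟩

theorem c_mm_203_a : CertB 0 536870912 1610612736 536870912 536870912 50465866 3 eng mog cd1q2a cd3q3 pd0 false false false .up 2 0 3
    ndB1q2a ndB3q3 pcB0 Cut.none Ext.none :=
  certB1 (fam := false) (s1 := false) (s2 := false) (a := 2) (b := 0) (c := 3) (cn := .up) (n1 := ndB1q2a) (n2 := ndB3q3) (pc := pcB0) (cut := Cut.none) (xt := Ext.none) (P1 := 0) (W1 := 536870912) (P2 := 1610612736) (W2 := 536870912) (P3 := 536870912) (W3 := 50465866) (N0 := 3) (En := eng) (mo := mog) (C1 := cd1q2a) (C2 := cd3q3) (C3 := pd0)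
    rfl (fun _ => rfl) k0_mm_203_a

noncomputable def f_mm_203_b : ℕ → ℕ → ℕ → ℕ → Bool := onCell 1239849684 370763052 1610612736 536870912 536870912 50465866
    (rowB 3 eng mog cd1q2b cd3q3 pd0 0 false false false .up 2 0 3 (qsf 1239849684 370763052 1610612736 536870912 0) ndB1q2b ndB3q3 pcB0 Cut.none Ext.none)

def k0_mm_203_b : ∃ t, chk3 f_mm_203_b t 1 1 1 = true :=
  ⟨(l 3), by decide +kernel⟩

theorem c_mm_203_b : CertB 1239849684 370763052 1610612736 536870912 536870912 50465866 3 eng mog cd1q2b cd3q3 pd0 false false false .up 2 0 3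
    ndB1q2b ndB3q3 pcB0 Cut.none Ext.none :=
  certB0 (fam := false) (s1 := false) (s2 := false) (a := 2) (b := 0) (c := 3) (cn := .up) (n1 := ndB1q2b) (n2 := ndB3q3) (pc := pcB0) (cut := Cut.none) (xt := Ext.none) (P1 := 1239849684) (W1 := 370763052) (P2 := 1610612736) (W2 := 536870912) (P3 := 536870912) (W3 := 50465866) (N0 := 3) (En := eng) (mo := mog) (C1 := cd1q2b) (C2 := cd3q3) (C3 := pd0)
    rfl k0_mm_203_b

noncomputable def f_mm_213_a : ℕ → ℕ → ℕ → ℕ → Bool := onCell 0 536870912 1610612736 536870912 536870912 50465866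
    (rowB 3 eng mog cd1q2a cd3q3 pd1 0 false false false .pnn 2 1 3 (qsf 0 536870912 1610612736 536870912 1) ndB1q2a ndB3q3 pcB1 Cut.none Ext.none)

def k0_mm_213_a : ∃ t, chk3 f_mm_213_a t 1 1 1 = true :=
  ⟨(b (l 3) (a (l 3) (l 5))), by decide +kernel⟩

theorem c_mm_213_a : CertB 0 536870912 1610612736 536870912 536870912 50465866 3 eng mog cd1q2a cd3q3 pd1 false false false .pnn 2 1 3
    ndB1q2a ndB3q3 pcB1 Cut.none Ext.none :=
  certB0 (fam := false) (s1 := false) (s2 := false) (a := 2) (b := 1) (c := 3) (cn := .pnn) (n1 := ndB1q2a) (n2 := ndB3q3) (pc := pcB1) (cut := Cut.none) (xt := Ext.none) (P1 := 0) (W1 := 536870912) (P2 := 1610612736) (W2 := 536870912) (P3 := 536870912) (W3 := 50465866) (N0 := 3) (En := eng) (mo := mog) (C1 := cd1q2a) (C2 := cd3q3) (C3 := pd1)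
    rfl k0_mm_213_a

noncomputable def f_mm_213_b : ℕ → ℕ → ℕ → ℕ → Bool := onCell 1239849684 370763052 1610612736 536870912 536870912 50465866
    (rowB 3 eng mog cd1q2b cd3q3 pd1 0 false false false .pnn 2 1 3 (qsf 1239849684 370763052 1610612736 536870912 1) ndB1q2b ndB3q3 pcB1 Cut.none Ext.none)

def k0_mm_213_b : ∃ t, chk3 f_mm_213_b t 1 1 1 = true :=
  ⟨(l 3), by decide +kernel⟩

theorem c_mm_213_b : CertB 1239849684 370763052 1610612736 536870912 536870912 50465866 3 eng mog cd1q2b cd3q3 pd1 false false false .pnn 2 1 3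
    ndB1q2b ndB3q3 pcB1 Cut.none Ext.none :=
  certB0 (fam := false) (s1 := false) (s2 := false) (a := 2) (b := 1) (c := 3) (cn := .pnn) (n1 := ndB1q2b) (n2 := ndB3q3) (pc := pcB1) (cut := Cut.none) (xt := Ext.none) (P1 := 1239849684) (W1 := 370763052) (P2 := 1610612736) (W2 := 536870912) (P3 := 536870912) (W3 := 50465866) (N0 := 3) (En := eng) (mo := mog) (C1 := cd1q2b) (C2 := cd3q3) (C3 := pd1)
    rfl k0_mm_213_b

noncomputable def f_mm_303 : ℕ → ℕ → ℕ → ℕ → Bool := onCell 1610612736 536870912 1610612736 536870912 536870912 50465866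
    (rowB 3 eng mog cd1q3 cd3q3 pd0 0 false false false .npn 3 0 3 (qsf 1610612736 536870912 1610612736 536870912 0) ndB1q3 ndB3q3 pcB0 Cut.none Ext.none)

def k0_mm_303 : ∃ t, chk3 f_mm_303 t 1 1 1 = true :=
  ⟨(l 3), by decide +kernel⟩

theorem c_mm_303 : CertB 1610612736 536870912 1610612736 536870912 536870912 50465866 3 eng mog cd1q3 cd3q3 pd0 false false false .npn 3 0 3
    ndB1q3 ndB3q3 pcB0 Cut.none Ext.none :=
  certB0 (fam := false) (s1 := false) (s2 := false) (a := 3) (b := 0) (c := 3) (cn := .npn) (n1 := ndB1q3) (n2 := ndB3q3) (pc := pcB0) (cut := Cut.none) (xt := Ext.none) (P1 := 1610612736) (W1 := 536870912) (P2 := 1610612736) (W2 := 536870912) (P3 := 536870912) (W3 := 50465866) (N0 := 3) (En := eng) (mo := mog) (C1 := cd1q3) (C2 := cd3q3) (C3 := pd0)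
    rfl k0_mm_303

noncomputable def f_mm_313 : ℕ → ℕ → ℕ → ℕ → Bool := onCell 1610612736 536870912 1610612736 536870912 536870912 50465866
    (rowB 3 eng mog cd1q3 cd3q3 pd1 0 false false false .dn 3 1 3 (qsf 1610612736 536870912 1610612736 536870912 1) ndB1q3 ndB3q3 pcB1 Cut.none Ext.none)

def k0_mm_313 : ∃ t, chk3 f_mm_313 t 1 1 1 = true :=
  ⟨(l 3), by decide +kernel⟩

theorem c_mm_313 : CertB 1610612736 536870912 1610612736 536870912 536870912 50465866 3 eng mog cd1q3 cd3q3 pd1 false false false .dn 3 1 3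
    ndB1q3 ndB3q3 pcB1 Cut.none Ext.none :=
  certB0 (fam := false) (s1 := false) (s2 := false) (a := 3) (b := 1) (c := 3) (cn := .dn) (n1 := ndB1q3) (n2 := ndB3q3) (pc := pcB1) (cut := Cut.none) (xt := Ext.none) (P1 := 1610612736) (W1 := 536870912) (P2 := 1610612736) (W2 := 536870912) (P3 := 536870912) (W3 := 50465866) (N0 := 3) (En := eng) (mo := mog) (C1 := cd1q3) (C2 := cd3q3) (C3 := pd1)
    rfl k0_mm_313

end Pool.Agent.Strip051.G.I5000_5470.Tab.C.BB13

namespace Pool.Agent.Strip051.G.I5000_5470.Tab.C.BB14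

open Pool.Agent.Strip051.PB Pool.Agent.Strip051.PB.T
open Pool.Agent.Strip051.G.I5000_5470.Tab

noncomputable def f_pp_001 : ℕ → ℕ → ℕ → ℕ → Bool := onCell 0 536870912 0 536870912 536870912 50465866
    (rowB 3 eng mog cd1q0 cd4q1 pd0 1 false true true .up 0 0 1 (qsf 0 536870912 536870912 536870912 0) ndB1q0 ndB4q1 pcB0 Cut.none Ext.none)

def k0_pp_001 : ∃ t, chk3 f_pp_001 t 1 1 1 = true :=
  ⟨(l 3), by decide +kernel⟩

theorem c_pp_001 : CertB 0 536870912 536870912 536870912 536870912 50465866 3 eng mog cd1q0 cd4q1 pd0 false true true .up 0 0 1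
    ndB1q0 ndB4q1 pcB0 Cut.none Ext.none :=
  certB1 (fam := false) (s1 := true) (s2 := true) (a := 0) (b := 0) (c := 1) (cn := .up) (n1 := ndB1q0) (n2 := ndB4q1) (pc := pcB0) (cut := Cut.none) (xt := Ext.none) (P1 := 0) (W1 := 536870912) (P2 := 536870912) (W2 := 536870912) (P3 := 536870912) (W3 := 50465866) (N0 := 3) (En := eng) (mo := mog) (C1 := cd1q0) (C2 := cd4q1) (C3 := pd0)
    rfl (fun _ => rfl) k0_pp_001

noncomputable def cut_pp_011 : Cut := Cut.of [[⟨0, 0, 0, 67108864⟩, ⟨1, 1, 0, 67108864⟩, ⟨2, 1, 0, 67108864⟩]]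

noncomputable def f_pp_011 : ℕ → ℕ → ℕ → ℕ → Bool := onCell 0 536870912 536870912 536870912 536870912 50465866
    (rowB 3 eng mog cd1q0 cd4q1 pd1 1 false true true .pnn 0 1 1 (qsf 0 536870912 536870912 536870912 1) ndB1q0 ndB4q1 pcB1 cut_pp_011 Ext.none)

def k0_pp_011 : ∃ t, chk3 f_pp_011 t 1 1 1 = true :=
  ⟨(a (b (l 3) (b (l 3) (b (l 3) (a (a (b (l 3) (a (l 6) (l 3))) (l 3)) (l 2))))) (l 3)), by decide +kernel⟩

theorem c_pp_011 : CertB 0 536870912 536870912 536870912 536870912 50465866 3 eng mog cd1q0 cd4q1 pd1 false true true .pnn 0 1 1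
    ndB1q0 ndB4q1 pcB1 cut_pp_011 Ext.none :=
  certB1 (fam := false) (s1 := true) (s2 := true) (a := 0) (b := 1) (c := 1) (cn := .pnn) (n1 := ndB1q0) (n2 := ndB4q1) (pc := pcB1) (cut := cut_pp_011) (xt := Ext.none) (P1 := 0) (W1 := 536870912) (P2 := 536870912) (W2 := 536870912) (P3 := 536870912) (W3 := 50465866) (N0 := 3) (En := eng) (mo := mog) (C1 := cd1q0) (C2 := cd4q1) (C3 := pd1)
    rfl (fun _ => rfl) k0_pp_011

noncomputable def f_pp_012 : ℕ → ℕ → ℕ → ℕ → Bool := onCell 0 536870912 536870912 536870912 536870912 50465866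
    (rowB 3 eng mog cd1q0 cd4q2 pd1 1 false true true .pnp 0 1 2 (qsf 0 536870912 1073741824 536870912 1) ndB1q0 ndB4q2 pcB1 Cut.none Ext.none)

def k0_pp_012 : ∃ t, chk3 f_pp_012 t 1 1 1 = true :=
  ⟨(l 3), by decide +kernel⟩

theorem c_pp_012 : CertB 0 536870912 1073741824 536870912 536870912 50465866 3 eng mog cd1q0 cd4q2 pd1 false true true .pnp 0 1 2
    ndB1q0 ndB4q2 pcB1 Cut.none Ext.none :=
  certB1 (fam := false) (s1 := true) (s2 := true) (a := 0) (b := 1) (c := 2) (cn := .pnp) (n1 := ndB1q0) (n2 := ndB4q2) (pc := pcB1) (cut := Cut.none) (xt := Ext.none) (P1 := 0) (W1 := 536870912) (P2 := 1073741824) (W2 := 536870912) (P3 := 536870912) (W3 := 50465866) (N0 := 3) (En := eng) (mo := mog) (C1 := cd1q0) (C2 := cd4q2) (C3 := pd1)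
    rfl (fun _ => rfl) k0_pp_012

end Pool.Agent.Strip051.G.I5000_5470.Tab.C.BB14

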