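import Pool.Agent.Strip051.G.I5000_5470.Tab

/-! # Certificates B22 (generated) -/

set_option linter.all false
set_option maxRecDepth 100000

namespace Pool.Agent.Strip051.G.I5000_5470.Tab.C.BB14

open Pool.Agent.Strip051.PB Pool.Agent.Strip051.PB.T
open Pool.Agent.Strip051.G.I5000_5470.Tab

noncomputable def f_pp_022 : ℕ → ℕ → ℕ → ℕ → Bool := onCell 1073741824 536870912 1073741824 536870912 536870912 50465866
    (rowB 3 eng mog cd1q0 cd4q2 pd2 2 false true true .pp 0 2 2 (qsf 0 536870912 1073741824 536870912 2) ndB1q0 ndB4q2 pcB2 Cut.none Ext.none)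

def k0_pp_022 : ∃ t, chk3 f_pp_022 t 2 2 1 = true :=
  ⟨(a (a (l 3) (a (l 3) (b (b (l 1) (l 3)) (a (l 3) (a (b (l 3) (b (l 16514376) (l 16512312))) (b (b (a (l 3) (l 16609000)) (a (b (l 16520992) (l 16513232)) (l 16572152))) (b (l 16547512) (l 16505712)))))))) (b (a (b (l 1) (a (a (a (a (b (l 1) (l 120829000071)) (l 1)) (l 1)) (l 1)) (l 1))) (l 1)) (a (a (a (b (c (b (a (a (l 16509424) (l 16500944)) (b (l 16536744) (l 16510464))) (a (a (l 16505424) (l 16497160)) (l 16505080))) (b (a (a (l 16510248) (l 132103305127)) (a (l 164852402423) (l 171831681175))) (a (l 16571184) (l 16487192)))) (a (b (l 16555104) (l 16498624)) (b (l 16487464) (l 16492648)))) (a (b (b (a (b (l 16487464) (l 16481456)) (b (l 1) (l 16475000))) (b (l 16557480) (l 16474944))) (b (a (l 16481664) (l 16475144)) (l 16610744))) (b (a (b (b (l 1) (c (l 16464912) (l 16469200))) (b (l 16504968) (l 16464360))) (b (b (l 1) (b (l 1) (a (l 16502512) (c (l 16455832) (l 16543904))))) (a (b (l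 16583672) (l 16459680)) (b (b (l 16571520) (l 16477824)) (l 16469512))))) (a (b (l 16463624) (l 16475384)) (a (b (l 16464296) (l 16472384)) (b (c (l 16463280) (l 16464752)) (l 16474040))))))) (b (b (b (l 1) (l 72510499799)) (b (c (l 16471312) (l 58551900183)) (a (c (l 16445600) (l 16447680)) (l 16423600)))) (b (b (l 16441080) (l 16447120)) (l 16457064)))) (b (b (l 1) (a (b (l 1) (l 16385696)) (l 1))) (b (a (b (l 16394248) (l 91837699463)) (b (l 1) (l 16355360))) (a (b (l 16413168) (l 16423192)) (b (l 16368240) (l 16381512)))))))), by decide +kernel⟩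

def k1_pp_022 : ∃ t, chk3 f_pp_022 t 2 3 1 = true :=
  ⟨(a (a (l 3) (b (a (l 3) (a (b (l 16573096) (b (l 16517920) (l 16474704))) (b (a (l 16508480) (b (l 16504968) (l 16505352))) (b (a (l 16498760) (l 16500896)) (l 16486736))))) (b (a (a (l 3) (l 16512904)) (a (l 16477568) (l 16456656))) (a (b (l 215989586839) (a (l 447917667511) (l 16616224))) (b (a (l 16486864) (l 16448160)) (a (l 16476264) (l 16437344))))))) (b (a (a (a (a (b (l 16502048) (l 16476424)) (b (l 16521456) (l 16499296))) (a (b (b (l 16491512) (l 16496984)) (l 16496336)) (a (b (l 16486344) (l 16492656)) (b (a (l 16485896) (b (l 16484584) (l 16494400))) (a (l 16495552) (l 16502288)))))) (b (b (l 16471176) (l 16485112)) (l 16498944))) (b (b (a (l 16438584) (b (l 16394992) (l 16408496))) (a (l 16459000) (l 16428576))) (b (l 16465216) (l 16480136)))) (b (a (a (a (l 16482776) (a (l 16479072) (a (l 16481760) (a (l 16489152) (l 16499640))))) (l 16504728)) (l 16498440)) (a (a (a (b (l 16438256)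 (l 16429416)) (a (b (l 16454168) (l 16451520)) (a (b (l 16463256) (l 16464840)) (b (l 16484032) (a (l 16479248) (l 16495120)))))) (b (l 16501808) (l 16511408))) (b (l 16511472) (l 16529824)))))), by decide +kernel⟩

def k2_pp_022 : ∃ t, chk3 f_pp_022 t 3 1 1 = true :=
  ⟨(b (a (b (l 1) (a (b (l 1) (a (b (l 1) (b (l 1) (l 16336080))) (l 1))) (l 1))) (l 1)) (a (b (b (a (b (a (b (l 69825888791) (l 16369656)) (l 93985032311)) (a (l 16394752) (l 147672293575))) (b (l 1) (a (l 114386207895) (l 1)))) (a (b (a (l 16424960) (l 16395952)) (l 16437624)) (b (a (l 136398006919) (l 143377243991)) (a (l 16401184) (l 121902322279))))) (b (a (l 16473624) (b (a (l 16434936) (l 16414792)) (l 16459304))) (b (a (l 16503824) (l 16488872)) (a (l 16530896) (b (l 16506408) (l 16541272)))))) (b (a (b (l 1) (b (l 1) (a (l 191158587271) (l 1)))) (l 1)) (b (a (a (b (a (l 16396048) (l 122976018119)) (l 16428136)) (b (l 229276563079) (l 132639713431))) (a (b (l 1) (l 256120110103))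 (l 1))) (a (b (a (l 16463608) (l 16423640)) (b (a (l 16483384) (l 16446896)) (l 16510816))) (b (a (l 170220669879) (l 277594947607)) (a (b (b (l 16403896) (l 16416416)) (l 16465984)) (b (b (l 173441917447) (l 147135297415)) (a (l 16444504) (l 154651524279)))))))))), by decide +kernel⟩

theorem s3_pp_022 : ∃ t, chk3 f_pp_022 t 2 1 1 = true := ex3_b k0_pp_022 k1_pp_022

theorem s4_pp_022 : ∃ t, chk3 f_pp_022 t 1 1 1 = true := ex3_a s3_pp_022 k2_pp_022

theorem c_pp_022 : CertB 0 536870912 1073741824 536870912 536870912 50465866 3 eng mog cd1q0 cd4q2 pd2 false true true .pp 0 2 2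
    ndB1q0 ndB4q2 pcB2 Cut.none Ext.none :=
  certB2 (fam := false) (s1 := true) (s2 := true) (a := 0) (b := 2) (c := 2) (cn := .pp) (n1 := ndB1q0) (n2 := ndB4q2) (pc := pcB2) (cut := Cut.none) (xt := Ext.none) (P1 := 0) (W1 := 536870912) (P2 := 1073741824) (W2 := 536870912) (P3 := 536870912) (W3 := 50465866) (N0 := 3) (En := eng) (mo := mog) (C1 := cd1q0) (C2 := cd4q2) (C3 := pd2)
    rfl (fun _ => rfl) s4_pp_022

noncomputable def f_pp_023 : ℕ → ℕ → ℕ → ℕ → Bool := onCell 1073741824 536870912 0 1230186008 536870912 50465866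
    (rowB 3 eng mog cd1q0 cd4q3 pd2 2 false true true .up 0 2 3 (qsf 0 536870912 0 1230186008 2) ndB1q0 ndB4q3 pcB2 Cut.none Ext.none)

def k0_pp_023 : ∃ t, chk3 f_pp_023 t 1 1 1 = true :=
  ⟨(b (a (l 2) (a (l 2) (a (b (l 2) (l 16741856)) (b (l 16742176) (l 16952320))))) (b (a (a (l 2) (a (l 2) (l 242229821415))) (a (a (l 16857480) (l 16878872)) (a (b (l 16726936) (l 16695592)) (a (l 16714168) (b (l 16732656) (l 16705448)))))) (a (a (b (l 2) (a (b (l 2) (l 3)) (b (a (a (l 16629512) (l 16611080)) (a (l 16592528) (l 16575440))) (a (b (a (l 235316865079) (l 16534000)) (a (l 16590856) (l 16559376))) (b (a (l 16509320) (l 16485656)) (a (l 16526288) (l 16490400))))))) (b (a (a (a (l 16679912) (a (l 16672776) (l 16669272))) (l 16657384)) (l 16635024)) (b (a (a (a (l 16560136) (a (l 16550656) (a (l 16547152) (a (l 16546048) (l 16545912))))) (l 16534104)) (l 16515184)) (a (a (a (b (l 16465424) (l 16450808)) (a (b (l 16453472) (l 16417624)) (a (b (l 16450112)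 (l 16404008)) (b (a (l 16460184) (l 16477920)) (l 16479336))))) (b (l 16499328) (l 16473704))) (b (l 16531200) (l 16504968)))))) (b (a (a (l 16621552) (l 16627720)) (a (l 16634920) (a (l 16637328) (b (l 16664680) (l 16630632))))) (a (b (a (l 16545536) (l 16574112)) (b (a (l 16551704) (l 16565296)) (a (l 16514440) (l 16514056)))) (b (a (l 16576512) (a (l 16578256) (l 16568840))) (a (b (l 16550768) (b (l 16501560) (l 16461208))) (b (a (l 16520832) (l 16495176)) (a (l 16435120) (b (l 16439576) (a (l 16385632) (l 16378568)))))))))))), by decide +kernel⟩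

theorem c_pp_023 : CertB 0 536870912 0 1230186008 536870912 50465866 3 eng mog cd1q0 cd4q3 pd2 false true true .up 0 2 3
    ndB1q0 ndB4q3 pcB2 Cut.none Ext.none :=
  certB2 (fam := false) (s1 := true) (s2 := true) (a := 0) (b := 2) (c := 3) (cn := .up) (n1 := ndB1q0) (n2 := ndB4q3) (pc := pcB2) (cut := Cut.none) (xt := Ext.none) (P1 := 0) (W1 := 536870912) (P2 := 0) (W2 := 1230186008) (P3 := 536870912) (W3 := 50465866) (N0 := 3) (En := eng) (mo := mog) (C1 := cd1q0) (C2 := cd4q3) (C3 := pd2)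
    rfl (fun _ => rfl) k0_pp_023

noncomputable def f_pp_033 : ℕ → ℕ → ℕ → ℕ → Bool := onCell 1610612736 536870912 0 1230186008 536870912 50465866
    (rowB 3 eng mog cd1q0 cd4q3 pd3 2 false true true .pnn 0 3 3 (qsf 0 536870912 0 1230186008 3) ndB1q0 ndB4q3 pcB3 Cut.none Ext.none)

def k0_pp_033 : ∃ t, chk3 f_pp_033 t 1 1 1 = true :=
  ⟨(b (b (a (a (a (l 16743112) (l 16737432)) (a (l 16734824) (l 16730528))) (l 4)) (a (a (a (l 16738376) (b (l 16738984) (l 16737328))) (a (l 16733520) (l 16732160))) (a (a (l 16728344) (l 36742502983)) (l 4)))) (b (a (a (a (b (l 16733192) (a (l 16699632) (l 16716328))) (b (l 16733560) (a (l 16723520) (l 16717176)))) (a (b (l 16727208) (l 16712112)) (b (l 16729032) (l 16716976)))) (a (a (b (l 16735728) (b (l 16735768) (l 16732536))) (a (b (l 16747168) (l 506840161847)) (b (l 16754728) (l 1)))) (b (a (l 4) (l 1)) (l 1)))) (a (b (a (a (a (l 16710376) (b (l 16686184) (l 16661472))) (b (a (l 16701928) (l 16698480)) (a (l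 16681080) (l 16680416)))) (a (b (l 16693904) (l 157873488999)) (b (l 444025817655) (l 1)))) (a (b (a (a (l 16602600) (b (l 16641184) (l 16626448))) (a (a (l 146062082839) (l 303365210023)) (l 310344700231))) (a (b (a (b (l 16567728) (l 16512104)) (b (a (l 16590120) (l 16605688)) (l 185790187351))) (a (b (l 175589556215) (l 241087808759)) (b (l 263099663991) (l 1)))) (b (a (b (a (l 155725631735) (l 1)) (l 1)) (l 1)) (l 1)))) (b (a (l 320545253591) (l 1)) (l 1)))) (l 1)))), by decide +kernel⟩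

theorem c_pp_033 : CertB 0 536870912 0 1230186008 536870912 50465866 3 eng mog cd1q0 cd4q3 pd3 false true true .pnn 0 3 3
    ndB1q0 ndB4q3 pcB3 Cut.none Ext.none :=
  certB2 (fam := false) (s1 := true) (s2 := true) (a := 0) (b := 3) (c := 3) (cn := .pnn) (n1 := ndB1q0) (n2 := ndB4q3) (pc := pcB3) (cut := Cut.none) (xt := Ext.none) (P1 := 0) (W1 := 536870912) (P2 := 0) (W2 := 1230186008) (P3 := 536870912) (W3 := 50465866) (N0 := 3) (En := eng) (mo := mog) (C1 := cd1q0) (C2 := cd4q3) (C3 := pd3)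
    rfl (fun _ => rfl) k0_pp_033

noncomputable def f_pp_101 : ℕ → ℕ → ℕ → ℕ → Bool := onCell 536870912 536870912 0 536870912 536870912 50465866
    (rowB 3 eng mog cd1q1 cd4q1 pd0 1 false true true .npn 1 0 1 (qsf 536870912 536870912 536870912 536870912 0) ndB1q1 ndB4q1 pcB0 Cut.none Ext.none)

def k0_pp_101 : ∃ t, chk3 f_pp_101 t 1 1 1 = true :=
  ⟨(l 3), by decide +kernel⟩

theorem c_pp_101 : CertB 536870912 536870912 536870912 536870912 536870912 50465866 3 eng mog cd1q1 cd4q1 pd0 false true true .npn 1 0 1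
    ndB1q1 ndB4q1 pcB0 Cut.none Ext.none :=
  certB1 (fam := false) (s1 := true) (s2 := true) (a := 1) (b := 0) (c := 1) (cn := .npn) (n1 := ndB1q1) (n2 := ndB4q1) (pc := pcB0) (cut := Cut.none) (xt := Ext.none) (P1 := 536870912) (W1 := 536870912) (P2 := 536870912) (W2 := 536870912) (P3 := 536870912) (W3 := 50465866) (N0 := 3) (En := eng) (mo := mog) (C1 := cd1q1) (C2 := cd4q1) (C3 := pd0)
    rfl (fun _ => rfl) k0_pp_101

noncomputable def f_pp_102 : ℕ → ℕ → ℕ → ℕ → Bool := onCell 536870912 536870912 1073741824 536870912 536870912 50465866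
    (rowB 3 eng mog cd1q1 cd4q2 pd0 0 false true true .npp 1 0 2 (qsf 536870912 536870912 1073741824 536870912 0) ndB1q1 ndB4q2 pcB0 Cut.none Ext.none)

def k0_pp_102 : ∃ t, chk3 f_pp_102 t 1 1 1 = true :=
  ⟨(l 3), by decide +kernel⟩

theorem c_pp_102 : CertB 536870912 536870912 1073741824 536870912 536870912 50465866 3 eng mog cd1q1 cd4q2 pd0 false true true .npp 1 0 2
    ndB1q1 ndB4q2 pcB0 Cut.none Ext.none :=
  certB0 (fam := false) (s1 := true) (s2 := true) (a := 1) (b := 0) (c := 2) (cn := .npp) (n1 := ndB1q1) (n2 := ndB4q2) (pc := pcB0) (cut := Cut.none) (xt := Ext.none) (P1 := 536870912) (W1 := 536870912) (P2 := 1073741824) (W2 := 536870912) (P3 := 536870912) (W3 := 50465866) (N0 := 3) (En := eng) (mo := mog) (C1 := cd1q1) (C2 := cd4q2) (C3 := pd0)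
    rfl k0_pp_102

noncomputable def f_pp_112 : ℕ → ℕ → ℕ → ℕ → Bool := onCell 536870912 536870912 1073741824 536870912 536870912 50465866
    (rowB 3 eng mog cd1q1 cd4q2 pd1 0 false true true .dn 1 1 2 (qsf 536870912 536870912 1073741824 536870912 1) ndB1q1 ndB4q2 pcB1 Cut.none Ext.none)

def k0_pp_112 : ∃ t, chk3 f_pp_112 t 1 1 1 = true :=
  ⟨(l 3), by decide +kernel⟩

theorem c_pp_112 : CertB 536870912 536870912 1073741824 536870912 536870912 50465866 3 eng mog cd1q1 cd4q2 pd1 false true true .dn 1 1 2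
    ndB1q1 ndB4q2 pcB1 Cut.none Ext.none :=
  certB0 (fam := false) (s1 := true) (s2 := true) (a := 1) (b := 1) (c := 2) (cn := .dn) (n1 := ndB1q1) (n2 := ndB4q2) (pc := pcB1) (cut := Cut.none) (xt := Ext.none) (P1 := 536870912) (W1 := 536870912) (P2 := 1073741824) (W2 := 536870912) (P3 := 536870912) (W3 := 50465866) (N0 := 3) (En := eng) (mo := mog) (C1 := cd1q1) (C2 := cd4q2) (C3 := pd1)
    rfl k0_pp_112

noncomputable def f_pp_113 : ℕ → ℕ → ℕ → ℕ → Bool := onCell 536870912 536870912 0 1230186008 536870912 50465866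
    (rowB 3 eng mog cd1q1 cd4q3 pd1 2 false true true .nn 1 1 3 (qsf 536870912 536870912 0 1230186008 1) ndB1q1 ndB4q3 pcB1 Cut.none Ext.none)

def k0_pp_113 : ∃ t, chk3 f_pp_113 t 1 1 1 = true :=
  ⟨(b (a (l 2) (a (l 2) (b (a (l 2) (a (l 2) (b (l 965931729383) (a (l 16792896) (l 16794488))))) (a (l 3) (a (l 3) (a (b (l 445233837063) (l 3)) (b (l 16822440) (l 16861992)))))))) (b (a (l 3) (a (l 3) (l 3))) (a (l 3) (l 3)))), by decide +kernel⟩

theorem c_pp_113 : CertB 536870912 536870912 0 1230186008 536870912 50465866 3 eng mog cd1q1 cd4q3 pd1 false true true .nn 1 1 3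
    ndB1q1 ndB4q3 pcB1 Cut.none Ext.none :=
  certB2 (fam := false) (s1 := true) (s2 := true) (a := 1) (b := 1) (c := 3) (cn := .nn) (n1 := ndB1q1) (n2 := ndB4q3) (pc := pcB1) (cut := Cut.none) (xt := Ext.none) (P1 := 536870912) (W1 := 536870912) (P2 := 0) (W2 := 1230186008) (P3 := 536870912) (W3 := 50465866) (N0 := 3) (En := eng) (mo := mog) (C1 := cd1q1) (C2 := cd4q3) (C3 := pd1)
    rfl (fun _ => rfl) k0_pp_113

noncomputable def f_pp_123 : ℕ → ℕ → ℕ → ℕ → Bool := onCell 1073741824 536870912 0 1230186008 536870912 50465866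
    (rowB 3 eng mog cd1q1 cd4q3 pd2 2 false true true .npn 1 2 3 (qsf 536870912 536870912 0 1230186008 2) ndB1q1 ndB4q3 pcB2 Cut.none Ext.none)

def k0_pp_123 : ∃ t, chk3 f_pp_123 t 1 1 1 = true :=
  ⟨(b (b (a (a (a (a (l 16783880) (l 16774264)) (l 16763696)) (a (a (l 16777952) (l 16753864)) (l 16754960))) (a (l 16754896) (a (l 16750560) (l 16746456)))) (a (a (a (a (b (l 16818960) (l 16856728)) (b (l 16807200) (l 16841848))) (b (l 16787216) (l 16815408))) (a (a (l 16990808) (l 16770008)) (b (l 16759072) (l 16763272)))) (a (a (l 16899840) (l 16790984)) (a (l 16746272) (a (l 16745192) (l 16746152)))))) (b (a (a (a (a (b (l 205789803303) (b (l 291152211719) (l 3))) (b (l 16879432) (b (l 16908784) (a (l 16849568) (l 16894528))))) (a (b (l 16857256) (l 16882120)) (b (l 16833976) (b (l 16848672) (l 16837024))))) (a (b (a (l 16811872) (l 16786992)) (a (a (l 16813648) (l 16732712)) (l 16768504))) (b (l 16758056) (l 16729288)))) (a (b (l 16941552) (l 256121413319))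 (a (b (l 16730720) (l 1)) (l 1)))) (a (a (b (a (a (l 3) (b (a (l 241222853319) (l 240685924919)) (a (l 3) (l 233706525351)))) (a (b (l 16746568) (a (b (l 16829856) (l 16784704)) (l 16775656))) (b (l 16803720) (l 16773648)))) (a (b (a (l 3) (a (l 3) (l 16729496))) (l 3)) (b (a (a (l 16672976) (l 16662872)) (l 59089039975)) (a (b (a (l 261623643287) (l 1)) (l 1)) (l 1))))) (b (a (a (a (l 16711376) (a (l 16716096) (l 16686096))) (l 16685024)) (l 16651880)) (b (a (a (a (l 16593944) (l 1)) (l 1)) (l 1)) (l 1)))) (l 1)))), by decide +kernel⟩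

theorem c_pp_123 : CertB 536870912 536870912 0 1230186008 536870912 50465866 3 eng mog cd1q1 cd4q3 pd2 false true true .npn 1 2 3
    ndB1q1 ndB4q3 pcB2 Cut.none Ext.none :=
  certB2 (fam := false) (s1 := true) (s2 := true) (a := 1) (b := 2) (c := 3) (cn := .npn) (n1 := ndB1q1) (n2 := ndB4q3) (pc := pcB2) (cut := Cut.none) (xt := Ext.none) (P1 := 536870912) (W1 := 536870912) (P2 := 0) (W2 := 1230186008) (P3 := 536870912) (W3 := 50465866) (N0 := 3) (En := eng) (mo := mog) (C1 := cd1q1) (C2 := cd4q3) (C3 := pd2)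
    rfl (fun _ => rfl) k0_pp_123

noncomputable def f_pp_133 : ℕ → ℕ → ℕ → ℕ → Bool := onCell 1610612736 536870912 0 1230186008 536870912 50465866
    (rowB 3 eng mog cd1q1 cd4q3 pd3 2 false true true .dn 1 3 3 (qsf 536870912 536870912 0 1230186008 3) ndB1q1 ndB4q3 pcB3 Cut.none Ext.none)

def k0_pp_133 : ∃ t, chk3 f_pp_133 t 1 1 1 = true :=
  ⟨(b (b (a (a (a (l 16745976) (l 1)) (l 1)) (l 1)) (l 1)) (l 1)), by decide +kernel⟩

theorem c_pp_133 : CertB 536870912 536870912 0 1230186008 536870912 50465866 3 eng mog cd1q1 cd4q3 pd3 false true true .dn 1 3 3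
    ndB1q1 ndB4q3 pcB3 Cut.none Ext.none :=
  certB2 (fam := false) (s1 := true) (s2 := true) (a := 1) (b := 3) (c := 3) (cn := .dn) (n1 := ndB1q1) (n2 := ndB4q3) (pc := pcB3) (cut := Cut.none) (xt := Ext.none) (P1 := 536870912) (W1 := 536870912) (P2 := 0) (W2 := 1230186008) (P3 := 536870912) (W3 := 50465866) (N0 := 3) (En := eng) (mo := mog) (C1 := cd1q1) (C2 := cd4q3) (C3 := pd3)
    rfl (fun _ => rfl) k0_pp_133

noncomputable def f_pp_202_a : ℕ → ℕ → ℕ → ℕ → Bool := onCell 0 536870912 1073741824 536870912 536870912 50465866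
    (rowB 3 eng mog cd1q2a cd4q2 pd0 0 false true true .pp 2 0 2 (qsf 0 536870912 1073741824 536870912 0) ndB1q2a ndB4q2 pcB0 Cut.none Ext.none)

def k0_pp_202_a : ∃ t, chk3 f_pp_202_a t 1 1 1 = true :=
  ⟨(l 3), by decide +kernel⟩

theorem c_pp_202_a : CertB 0 536870912 1073741824 536870912 536870912 50465866 3 eng mog cd1q2a cd4q2 pd0 false true true .pp 2 0 2
    ndB1q2a ndB4q2 pcB0 Cut.none Ext.none :=
  certB0 (fam := false) (s1 := true) (s2 := true) (a := 2) (b := 0) (c := 2) (cn := .pp) (n1 := ndB1q2a) (n2 := ndB4q2) (pc := pcB0) (cut := Cut.none) (xt := Ext.none) (P1 := 0) (W1 := 536870912) (P2 := 1073741824) (W2 := 536870912) (P3 := 536870912) (W3 := 50465866) (N0 := 3) (En := eng) (mo := mog) (C1 := cd1q2a) (C2 := cd4q2) (C3 := pd0)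
    rfl k0_pp_202_a

noncomputable def f_pp_202_b : ℕ → ℕ → ℕ → ℕ → Bool := onCell 1239849684 370763052 1073741824 536870912 536870912 50465866
    (rowB 3 eng mog cd1q2b cd4q2 pd0 0 false true true .pp 2 0 2 (qsf 1239849684 370763052 1073741824 536870912 0) ndB1q2b ndB4q2 pcB0 Cut.none Ext.none)

def k0_pp_202_b : ∃ t, chk3 f_pp_202_b t 1 1 1 = true :=
  ⟨(l 3), by decide +kernel⟩

theorem c_pp_202_b : CertB 1239849684 370763052 1073741824 536870912 536870912 50465866 3 eng mog cd1q2b cd4q2 pd0 false true true .pp 2 0 2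
    ndB1q2b ndB4q2 pcB0 Cut.none Ext.none :=
  certB0 (fam := false) (s1 := true) (s2 := true) (a := 2) (b := 0) (c := 2) (cn := .pp) (n1 := ndB1q2b) (n2 := ndB4q2) (pc := pcB0) (cut := Cut.none) (xt := Ext.none) (P1 := 1239849684) (W1 := 370763052) (P2 := 1073741824) (W2 := 536870912) (P3 := 536870912) (W3 := 50465866) (N0 := 3) (En := eng) (mo := mog) (C1 := cd1q2b) (C2 := cd4q2) (C3 := pd0)
    rfl k0_pp_202_b

noncomputable def f_pp_203_a : ℕ → ℕ → ℕ → ℕ → Bool := onCell 0 536870912 0 1230186008 536870912 50465866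
    (rowB 3 eng mog cd1q2a cd4q3 pd0 0 false true true .up 2 0 3 (qsf 0 536870912 0 1230186008 0) ndB1q2a ndB4q3 pcB0 Cut.none Ext.none)

def k0_pp_203_a : ∃ t, chk3 f_pp_203_a t 1 1 1 = true :=
  ⟨(b (l 2) (l 3)), by decide +kernel⟩

theorem c_pp_203_a : CertB 0 536870912 0 1230186008 536870912 50465866 3 eng mog cd1q2a cd4q3 pd0 false true true .up 2 0 3
    ndB1q2a ndB4q3 pcB0 Cut.none Ext.none :=
  certB0 (fam := false) (s1 := true) (s2 := true) (a := 2) (b := 0) (c := 3) (cn := .up) (n1 := ndB1q2a) (n2 := ndB4q3) (pc := pcB0) (cut := Cut.none) (xt := Ext.none) (P1 := 0) (W1 := 536870912) (P2 := 0) (W2 := 1230186008) (P3 := 536870912) (W3 := 50465866) (N0 := 3) (En := eng) (mo := mog) (C1 := cd1q2a) (C2 := cd4q3) (C3 := pd0)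
    rfl k0_pp_203_a

noncomputable def f_pp_203_b : ℕ → ℕ → ℕ → ℕ → Bool := onCell 1239849684 370763052 0 1230186008 536870912 50465866
    (rowB 3 eng mog cd1q2b cd4q3 pd0 0 false true true .up 2 0 3 (qsf 1239849684 370763052 0 1230186008 0) ndB1q2b ndB4q3 pcB0 Cut.none Ext.none)

def k0_pp_203_b : ∃ t, chk3 f_pp_203_b t 1 1 1 = true :=
  ⟨(b (l 3) (l 3)), by decide +kernel⟩

theorem c_pp_203_b : CertB 1239849684 370763052 0 1230186008 536870912 50465866 3 eng mog cd1q2b cd4q3 pd0 false true true .up 2 0 3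
    ndB1q2b ndB4q3 pcB0 Cut.none Ext.none :=
  certB0 (fam := false) (s1 := true) (s2 := true) (a := 2) (b := 0) (c := 3) (cn := .up) (n1 := ndB1q2b) (n2 := ndB4q3) (pc := pcB0) (cut := Cut.none) (xt := Ext.none) (P1 := 1239849684) (W1 := 370763052) (P2 := 0) (W2 := 1230186008) (P3 := 536870912) (W3 := 50465866) (N0 := 3) (En := eng) (mo := mog) (C1 := cd1q2b) (C2 := cd4q3) (C3 := pd0)
    rfl k0_pp_203_b

noncomputable def cut_pp_213_a : Cut := Cut.of [[⟨0, 1, 0, 67108864⟩, ⟨1, 1, 0, 67108864⟩, ⟨2, 2, 0, 16777216⟩]]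

noncomputable def f_pp_213_a : ℕ → ℕ → ℕ → ℕ → Bool := onCell 0 536870912 0 1230186008 536870912 50465866
    (rowB 3 eng mog cd1q2a cd4q3 pd1 0 false true true .pnn 2 1 3 (qsf 0 536870912 0 1230186008 1) ndB1q2a ndB4q3 pcB1 cut_pp_213_a Ext.none)

def k0_pp_213_a : ∃ t, chk3 f_pp_213_a t 1 1 1 = true :=
  ⟨(b (a (l 3) (b (a (l 3) (a (l 3) (b (l 6) (l 3)))) (l 3))) (l 3)), by decide +kernel⟩

theorem c_pp_213_a : CertB 0 536870912 0 1230186008 536870912 50465866 3 eng mog cd1q2a cd4q3 pd1 false true true .pnn 2 1 3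
    ndB1q2a ndB4q3 pcB1 cut_pp_213_a Ext.none :=
  certB0 (fam := false) (s1 := true) (s2 := true) (a := 2) (b := 1) (c := 3) (cn := .pnn) (n1 := ndB1q2a) (n2 := ndB4q3) (pc := pcB1) (cut := cut_pp_213_a) (xt := Ext.none) (P1 := 0) (W1 := 536870912) (P2 := 0) (W2 := 1230186008) (P3 := 536870912) (W3 := 50465866) (N0 := 3) (En := eng) (mo := mog) (C1 := cd1q2a) (C2 := cd4q3) (C3 := pd1)
    rfl k0_pp_213_a

noncomputable def cut_pp_213_b : Cut := Cut.of [[⟨0, 1, 0, 67108864⟩, ⟨1, 1, 0, 67108864⟩, ⟨2, 2, 0, 16777216⟩]]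

noncomputable def f_pp_213_b : ℕ → ℕ → ℕ → ℕ → Bool := onCell 1239849684 370763052 0 1230186008 536870912 50465866
    (rowB 3 eng mog cd1q2b cd4q3 pd1 0 false true true .pnn 2 1 3 (qsf 1239849684 370763052 0 1230186008 1) ndB1q2b ndB4q3 pcB1 cut_pp_213_b Ext.none)

def k0_pp_213_b : ∃ t, chk3 f_pp_213_b t 1 1 1 = true :=
  ⟨(b (l 3) (l 3)), by decide +kernel⟩

theorem c_pp_213_b : CertB 1239849684 370763052 0 1230186008 536870912 50465866 3 eng mog cd1q2b cd4q3 pd1 false true true .pnn 2 1 3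
    ndB1q2b ndB4q3 pcB1 cut_pp_213_b Ext.none :=
  certB0 (fam := false) (s1 := true) (s2 := true) (a := 2) (b := 1) (c := 3) (cn := .pnn) (n1 := ndB1q2b) (n2 := ndB4q3) (pc := pcB1) (cut := cut_pp_213_b) (xt := Ext.none) (P1 := 1239849684) (W1 := 370763052) (P2 := 0) (W2 := 1230186008) (P3 := 536870912) (W3 := 50465866) (N0 := 3) (En := eng) (mo := mog) (C1 := cd1q2b) (C2 := cd4q3) (C3 := pd1)
    rfl k0_pp_213_b

noncomputable def f_pp_303 : ℕ → ℕ → ℕ → ℕ → Bool := onCell 1610612736 536870912 0 1230186008 536870912 50465866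
    (rowB 3 eng mog cd1q3 cd4q3 pd0 0 false true true .npn 3 0 3 (qsf 1610612736 536870912 0 1230186008 0) ndB1q3 ndB4q3 pcB0 Cut.none Ext.none)

def k0_pp_303 : ∃ t, chk3 f_pp_303 t 1 1 1 = true :=
  ⟨(b (l 3) (l 3)), by decide +kernel⟩

theorem c_pp_303 : CertB 1610612736 536870912 0 1230186008 536870912 50465866 3 eng mog cd1q3 cd4q3 pd0 false true true .npn 3 0 3
    ndB1q3 ndB4q3 pcB0 Cut.none Ext.none :=
  certB0 (fam := false) (s1 := true) (s2 := true) (a := 3) (b := 0) (c := 3) (cn := .npn) (n1 := ndB1q3) (n2 := ndB4q3) (pc := pcB0) (cut := Cut.none) (xt := Ext.none) (P1 := 1610612736) (W1 := 536870912) (P2 := 0) (W2 := 1230186008) (P3 := 536870912) (W3 := 50465866) (N0 := 3) (En := eng) (mo := mog) (C1 := cd1q3) (C2 := cd4q3) (C3 := pd0)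
    rfl k0_pp_303

noncomputable def f_pp_313 : ℕ → ℕ → ℕ → ℕ → Bool := onCell 1610612736 536870912 0 1230186008 536870912 50465866
    (rowB 3 eng mog cd1q3 cd4q3 pd1 0 false true true .dn 3 1 3 (qsf 1610612736 536870912 0 1230186008 1) ndB1q3 ndB4q3 pcB1 Cut.none Ext.none)

def k0_pp_313 : ∃ t, chk3 f_pp_313 t 1 1 1 = true :=
  ⟨(b (l 3) (l 1)), by decide +kernel⟩

theorem c_pp_313 : CertB 1610612736 536870912 0 1230186008 536870912 50465866 3 eng mog cd1q3 cd4q3 pd1 false true true .dn 3 1 3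
    ndB1q3 ndB4q3 pcB1 Cut.none Ext.none :=
  certB0 (fam := false) (s1 := true) (s2 := true) (a := 3) (b := 1) (c := 3) (cn := .dn) (n1 := ndB1q3) (n2 := ndB4q3) (pc := pcB1) (cut := Cut.none) (xt := Ext.none) (P1 := 1610612736) (W1 := 536870912) (P2 := 0) (W2 := 1230186008) (P3 := 536870912) (W3 := 50465866) (N0 := 3) (En := eng) (mo := mog) (C1 := cd1q3) (C2 := cd4q3) (C3 := pd1)
    rfl k0_pp_313

noncomputable def f_pm_001 : ℕ → ℕ → ℕ → ℕ → Bool := onCell 0 536870912 536870912 536870912 536870912 50465866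
    (rowB 3 eng mog cd1q0 cd4q1 pd0 0 false true false .up 0 0 1 (qsf 0 536870912 536870912 536870912 0) ndB1q0 ndB4q1 pcB0 Cut.none Ext.none)

def k0_pm_001 : ∃ t, chk3 f_pm_001 t 1 1 1 = true :=
  ⟨(l 4), by decide +kernel⟩

theorem c_pm_001 : CertB 0 536870912 536870912 536870912 536870912 50465866 3 eng mog cd1q0 cd4q1 pd0 false true false .up 0 0 1
    ndB1q0 ndB4q1 pcB0 Cut.none Ext.none :=
  certB0 (fam := false) (s1 := true) (s2 := false) (a := 0) (b := 0) (c := 1) (cn := .up) (n1 := ndB1q0) (n2 := ndB4q1) (pc := pcB0) (cut := Cut.none) (xt := Ext.none) (P1 := 0) (W1 := 536870912) (P2 := 536870912) (W2 := 536870912) (P3 := 536870912) (W3 := 50465866) (N0 := 3) (En := eng) (mo := mog) (C1 := cd1q0) (C2 := cd4q1) (C3 := pd0)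
    rfl k0_pm_001

noncomputable def f_pm_011 : ℕ → ℕ → ℕ → ℕ → Bool := onCell 0 536870912 536870912 536870912 536870912 50465866
    (rowB 3 eng mog cd1q0 cd4q1 pd1 0 false true false .pnn 0 1 1 (qsf 0 536870912 536870912 536870912 1) ndB1q0 ndB4q1 pcB1 Cut.none Ext.none)

def k0_pm_011 : ∃ t, chk3 f_pm_011 t 1 1 1 = true :=
  ⟨(l 4), by decide +kernel⟩

theorem c_pm_011 : CertB 0 536870912 536870912 536870912 536870912 50465866 3 eng mog cd1q0 cd4q1 pd1 false true false .pnn 0 1 1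
    ndB1q0 ndB4q1 pcB1 Cut.none Ext.none :=
  certB0 (fam := false) (s1 := true) (s2 := false) (a := 0) (b := 1) (c := 1) (cn := .pnn) (n1 := ndB1q0) (n2 := ndB4q1) (pc := pcB1) (cut := Cut.none) (xt := Ext.none) (P1 := 0) (W1 := 536870912) (P2 := 536870912) (W2 := 536870912) (P3 := 536870912) (W3 := 50465866) (N0 := 3) (En := eng) (mo := mog) (C1 := cd1q0) (C2 := cd4q1) (C3 := pd1)
    rfl k0_pm_011

noncomputable def f_pm_012 : ℕ → ℕ → ℕ → ℕ → Bool := onCell 0 536870912 1073741824 536870912 536870912 50465866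
    (rowB 3 eng mog cd1q0 cd4q2 pd1 0 false true false .pnp 0 1 2 (qsf 0 536870912 1073741824 536870912 1) ndB1q0 ndB4q2 pcB1 Cut.none Ext.none)

def k0_pm_012 : ∃ t, chk3 f_pm_012 t 1 1 1 = true :=
  ⟨(l 4), by decide +kernel⟩

theorem c_pm_012 : CertB 0 536870912 1073741824 536870912 536870912 50465866 3 eng mog cd1q0 cd4q2 pd1 false true false .pnp 0 1 2
    ndB1q0 ndB4q2 pcB1 Cut.none Ext.none :=
  certB0 (fam := false) (s1 := true) (s2 := false) (a := 0) (b := 1) (c := 2) (cn := .pnp) (n1 := ndB1q0) (n2 := ndB4q2) (pc := pcB1) (cut := Cut.none) (xt := Ext.none) (P1 := 0) (W1 := 536870912) (P2 := 1073741824) (W2 := 536870912) (P3 := 536870912) (W3 := 50465866) (N0 := 3) (En := eng) (mo := mog) (C1 := cd1q0) (C2 := cd4q2) (C3 := pd1)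
    rfl k0_pm_012

noncomputable def f_pm_022 : ℕ → ℕ → ℕ → ℕ → Bool := onCell 0 536870912 1073741824 536870912 536870912 50465866
    (rowB 3 eng mog cd1q0 cd4q2 pd2 0 false true false .pp 0 2 2 (qsf 0 536870912 1073741824 536870912 2) ndB1q0 ndB4q2 pcB2 Cut.none Ext.none)

def k0_pm_022 : ∃ t, chk3 f_pm_022 t 1 1 1 = true :=
  ⟨(l 4), by decide +kernel⟩

theorem c_pm_022 : CertB 0 536870912 1073741824 536870912 536870912 50465866 3 eng mog cd1q0 cd4q2 pd2 false true false .pp 0 2 2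
    ndB1q0 ndB4q2 pcB2 Cut.none Ext.none :=
  certB0 (fam := false) (s1 := true) (s2 := false) (a := 0) (b := 2) (c := 2) (cn := .pp) (n1 := ndB1q0) (n2 := ndB4q2) (pc := pcB2) (cut := Cut.none) (xt := Ext.none) (P1 := 0) (W1 := 536870912) (P2 := 1073741824) (W2 := 536870912) (P3 := 536870912) (W3 := 50465866) (N0 := 3) (En := eng) (mo := mog) (C1 := cd1q0) (C2 := cd4q2) (C3 := pd2)
    rfl k0_pm_022

noncomputable def f_pm_023 : ℕ → ℕ → ℕ → ℕ → Bool := onCell 0 536870912 0 1230186008 536870912 50465866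
    (rowB 3 eng mog cd1q0 cd4q3 pd2 0 false true false .up 0 2 3 (qsf 0 536870912 0 1230186008 2) ndB1q0 ndB4q3 pcB2 Cut.none Ext.none)

def k0_pm_023 : ∃ t, chk3 f_pm_023 t 1 1 1 = true :=
  ⟨(a (b (l 2) (l 4)) (a (b (l 2) (l 4)) (b (b (a (l 2) (l 16735512)) (b (l 16732176) (a (l 4) (l 16719936)))) (b (b (a (l 4) (a (l 4) (l 16701224))) (l 4)) (l 4))))), by decide +kernel⟩

theorem c_pm_023 : CertB 0 536870912 0 1230186008 536870912 50465866 3 eng mog cd1q0 cd4q3 pd2 false true false .up 0 2 3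
    ndB1q0 ndB4q3 pcB2 Cut.none Ext.none :=
  certB0 (fam := false) (s1 := true) (s2 := false) (a := 0) (b := 2) (c := 3) (cn := .up) (n1 := ndB1q0) (n2 := ndB4q3) (pc := pcB2) (cut := Cut.none) (xt := Ext.none) (P1 := 0) (W1 := 536870912) (P2 := 0) (W2 := 1230186008) (P3 := 536870912) (W3 := 50465866) (N0 := 3) (En := eng) (mo := mog) (C1 := cd1q0) (C2 := cd4q3) (C3 := pd2)
    rfl k0_pm_023

noncomputable def f_pm_033 : ℕ → ℕ → ℕ → ℕ → Bool := onCell 0 536870912 0 1230186008 536870912 50465866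
    (rowB 3 eng mog cd1q0 cd4q3 pd3 0 false true false .pnn 0 3 3 (qsf 0 536870912 0 1230186008 3) ndB1q0 ndB4q3 pcB3 Cut.none Ext.none)

def k0_pm_033 : ∃ t, chk3 f_pm_033 t 1 1 1 = true :=
  ⟨(a (b (l 4) (l 4)) (b (b (a (a (l 4) (l 16733264)) (b (l 16737944) (l 16904536))) (a (l 4) (b (a (l 16809800) (l 16730200)) (a (l 4) (a (l 16718424) (l 1)))))) (b (a (l 4) (a (l 4) (l 1))) (l 1)))), by decide +kernel⟩

theorem c_pm_033 : CertB 0 536870912 0 1230186008 536870912 50465866 3 eng mog cd1q0 cd4q3 pd3 false true false .pnn 0 3 3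
    ndB1q0 ndB4q3 pcB3 Cut.none Ext.none :=
  certB0 (fam := false) (s1 := true) (s2 := false) (a := 0) (b := 3) (c := 3) (cn := .pnn) (n1 := ndB1q0) (n2 := ndB4q3) (pc := pcB3) (cut := Cut.none) (xt := Ext.none) (P1 := 0) (W1 := 536870912) (P2 := 0) (W2 := 1230186008) (P3 := 536870912) (W3 := 50465866) (N0 := 3) (En := eng) (mo := mog) (C1 := cd1q0) (C2 := cd4q3) (C3 := pd3)
    rfl k0_pm_033

noncomputable def f_pm_101 : ℕ → ℕ → ℕ → ℕ → Bool := onCell 536870912 536870912 536870912 536870912 536870912 50465866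
    (rowB 3 eng mog cd1q1 cd4q1 pd0 0 false true false .npn 1 0 1 (qsf 536870912 536870912 536870912 536870912 0) ndB1q1 ndB4q1 pcB0 Cut.none Ext.none)

def k0_pm_101 : ∃ t, chk3 f_pm_101 t 1 1 1 = true :=
  ⟨(l 4), by decide +kernel⟩

theorem c_pm_101 : CertB 536870912 536870912 536870912 536870912 536870912 50465866 3 eng mog cd1q1 cd4q1 pd0 false true false .npn 1 0 1
    ndB1q1 ndB4q1 pcB0 Cut.none Ext.none :=
  certB0 (fam := false) (s1 := true) (s2 := false) (a := 1) (b := 0) (c := 1) (cn := .npn) (n1 := ndB1q1) (n2 := ndB4q1) (pc := pcB0) (cut := Cut.none) (xt := Ext.none) (P1 := 536870912) (W1 := 536870912) (P2 := 536870912) (W2 := 536870912) (P3 := 536870912) (W3 := 50465866) (N0 := 3) (En := eng) (mo := mog) (C1 := cd1q1) (C2 := cd4q1) (C3 := pd0)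
    rfl k0_pm_101

noncomputable def f_pm_102 : ℕ → ℕ → ℕ → ℕ → Bool := onCell 536870912 536870912 0 536870912 536870912 50465866
    (rowB 3 eng mog cd1q1 cd4q2 pd0 1 false true false .npp 1 0 2 (qsf 536870912 536870912 1073741824 536870912 0) ndB1q1 ndB4q2 pcB0 Cut.none Ext.none)

def k0_pm_102 : ∃ t, chk3 f_pm_102 t 1 1 1 = true :=
  ⟨(a (a (b (l 1) (b (l 4) (l 4))) (b (b (l 1) (b (l 1) (a (l 1) (a (l 1) (l 272226802551))))) (b (b (a (b (l 1) (l 274373712327)) (b (l 16334552) (l 16340304))) (a (b (l 199748745527) (l 16174120)) (l 16347440))) (b (a (b (l 16183728) (l 16196640)) (b (l 16368016) (l 16389664))) (a (b (l 16211336) (l 16229264)) (b (l 16421256) (l 16462968))))))) (b (b (a (b (l 1) (a (l 1) (b (l 1) (a (l 1) (l 291017719031))))) (a (b (a (l 1) (b (l 1) (a (l 1) (l 16648096)))) (a (b (b (l 1) (l 16624600)) (l 16614832)) (b (l 16645720) (l 16643080)))) (b (a (b (l 258268325639) (l 227666716919)) (b (l 240551567063) (a (l 16689232) (l 16719624))))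 (a (b (l 16670712) (l 16694592)) (l 16745720))))) (a (a (b (b (l 1) (l 290480614535)) (l 250215281591)) (b (a (l 261489723319) (b (l 16583168) (l 16580416))) (a (l 16609936) (l 16596768)))) (a (b (b (l 16634128) (l 16650728)) (b (l 16673800) (l 16702888))) (b (b (l 16766840) (l 16795600)) (a (l 16816800) (l 16819776)))))) (a (b (b (a (b (l 16478296) (l 16494216)) (b (l 16596272) (l 16619080))) (a (a (l 16471056) (l 16545216)) (l 16665632))) (b (a (b (l 16544648) (l 16583368)) (l 16757808)) (a (b (l 16631784) (l 16682856)) (b (l 16837648) (l 16885472))))) (b (b (a (b (l 16742024) (l 16793912)) (b (l 16837264) (l 16840824))) (a (l 16864408) (b (l 16857104) (l 16876512)))) (b (a (b (l 16921696) (l 16961536)) (b (l 16904544) (l 16935480))) (a (b (l 17004456) (l 17056008)) (b (l 16973280) (a (l 17046456) (l 16972952))))))))), by decide +kernel⟩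

theorem c_pm_102 : CertB 536870912 536870912 1073741824 536870912 536870912 50465866 3 eng mog cd1q1 cd4q2 pd0 false true false .npp 1 0 2
    ndB1q1 ndB4q2 pcB0 Cut.none Ext.none :=
  certB1 (fam := false) (s1 := true) (s2 := false) (a := 1) (b := 0) (c := 2) (cn := .npp) (n1 := ndB1q1) (n2 := ndB4q2) (pc := pcB0) (cut := Cut.none) (xt := Ext.none) (P1 := 536870912) (W1 := 536870912) (P2 := 1073741824) (W2 := 536870912) (P3 := 536870912) (W3 := 50465866) (N0 := 3) (En := eng) (mo := mog) (C1 := cd1q1) (C2 := cd4q2) (C3 := pd0)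
    rfl (fun _ => rfl) k0_pm_102

noncomputable def f_pm_112 : ℕ → ℕ → ℕ → ℕ → Bool := onCell 536870912 536870912 1073741824 536870912 536870912 50465866
    (rowB 3 eng mog cd1q1 cd4q2 pd1 2 false true false .dn 1 1 2 (qsf 536870912 536870912 1073741824 536870912 1) ndB1q1 ndB4q2 pcB1 Cut.none Ext.none)

def k0_pm_112 : ∃ t, chk3 f_pm_112 t 1 1 1 = true :=
  ⟨(a (b (a (b (l 4) (a (b (a (l 16193456) (l 16114104)) (a (l 16451592) (l 16370944))) (b (l 4) (l 16266416)))) (l 4)) (a (b (a (b (a (l 16680072) (l 16625728)) (a (l 16876176) (l 16827544))) (b (l 16525352) (l 16754568))) (b (a (a (l 17078928) (l 16998568)) (l 16912960)) (a (b (l 17142144) (l 17105600)) (l 17061456)))) (b (a (b (l 16390280) (l 16632600)) (b (l 4) (l 16480392))) (b (a (l 16825648) (l 16718808)) (a (l 16952624) (l 16884480)))))) (b (l 4) (b (a (a (l 70564300855) (l 4)) (l 4)) (b (a (a (l 16561368) (l 16385672)) (l 4)) (a (b (a (l 16742048) (l 16578336)) (a (l 16843344) (l 16719064)))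 (b (l 4) (l 60900502183))))))), by decide +kernel⟩

theorem c_pm_112 : CertB 536870912 536870912 1073741824 536870912 536870912 50465866 3 eng mog cd1q1 cd4q2 pd1 false true false .dn 1 1 2
    ndB1q1 ndB4q2 pcB1 Cut.none Ext.none :=
  certB2 (fam := false) (s1 := true) (s2 := false) (a := 1) (b := 1) (c := 2) (cn := .dn) (n1 := ndB1q1) (n2 := ndB4q2) (pc := pcB1) (cut := Cut.none) (xt := Ext.none) (P1 := 536870912) (W1 := 536870912) (P2 := 1073741824) (W2 := 536870912) (P3 := 536870912) (W3 := 50465866) (N0 := 3) (En := eng) (mo := mog) (C1 := cd1q1) (C2 := cd4q2) (C3 := pd1)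
    rfl (fun _ => rfl) k0_pm_112

noncomputable def f_pm_113 : ℕ → ℕ → ℕ → ℕ → Bool := onCell 536870912 536870912 0 1230186008 536870912 50465866
    (rowB 3 eng mog cd1q1 cd4q3 pd1 0 false true false .nn 1 1 3 (qsf 536870912 536870912 0 1230186008 1) ndB1q1 ndB4q3 pcB1 Cut.none Ext.none)

def k0_pm_113 : ∃ t, chk3 f_pm_113 t 1 1 1 = true :=
  ⟨(b (a (l 2) (a (l 2) (b (a (l 2) (a (l 2) (b (l 16777024) (l 16792072)))) (a (b (l 16830392) (l 16863832)) (b (l 16819992) (l 16860792)))))) (b (a (b (l 2) (a (l 2) (a (l 2) (l 183711320871)))) (a (b (a (l 2) (l 16910872)) (a (l 16936648) (l 16940184))) (a (b (l 16904368) (l 16949112)) (b (l 16914584) (l 16979504))))) (a (b (a (l 2) (a (l 16856968) (l 16927752))) (b (a (a (l 2) (a (l 276052565079) (l 16759176))) (a (l 16853976) (l 16937328))) (a (a (l 4) (b (b (l 16701120) (l 16661944)) (l 75396946807))) (b (a (l 16826904) (l 16921432)) (a (a (l 16723064) (l 16793232)) (l 16869096)))))) (b (a (a (l 16995536)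 (l 16973688)) (a (l 17001752) (b (l 17030000) (l 17081984)))) (a (b (l 16950176) (b (l 16779760) (a (l 16928040) (l 16984672)))) (b (a (l 17055856) (l 17204104)) (a (b (l 17090856) (l 17101208)) (a (l 17296160) (l 17126656))))))))), by decide +kernel⟩

theorem c_pm_113 : CertB 536870912 536870912 0 1230186008 536870912 50465866 3 eng mog cd1q1 cd4q3 pd1 false true false .nn 1 1 3
    ndB1q1 ndB4q3 pcB1 Cut.none Ext.none :=
  certB0 (fam := false) (s1 := true) (s2 := false) (a := 1) (b := 1) (c := 3) (cn := .nn) (n1 := ndB1q1) (n2 := ndB4q3) (pc := pcB1) (cut := Cut.none) (xt := Ext.none) (P1 := 536870912) (W1 := 536870912) (P2 := 0) (W2 := 1230186008) (P3 := 536870912) (W3 := 50465866) (N0 := 3) (En := eng) (mo := mog) (C1 := cd1q1) (C2 := cd4q3) (C3 := pd1)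
    rfl k0_pm_113

noncomputable def f_pm_123 : ℕ → ℕ → ℕ → ℕ → Bool := onCell 1073741824 536870912 0 1230186008 536870912 50465866
    (rowB 3 eng mog cd1q1 cd4q3 pd2 2 false true false .npn 1 2 3 (qsf 536870912 536870912 0 1230186008 2) ndB1q1 ndB4q3 pcB2 Cut.none Ext.none)

def k0_pm_123 : ∃ t, chk3 f_pm_123 t 1 1 1 = true :=
  ⟨(b (b (a (a (a (l 16987384) (l 16762272)) (a (b (l 16753080) (l 16754984)) (l 16752696))) (a (a (l 16753616) (l 16750496)) (a (l 16746488) (l 16742448)))) (a (b (a (a (l 16808696) (l 16784168)) (a (l 16766480) (l 16761712))) (a (l 16828616) (a (l 16785584) (l 16771320)))) (a (a (l 16776440) (b (l 16749304) (l 16741888))) (a (l 16738160) (l 16734328))))) (a (b (a (a (b (l 16883016) (l 17089480)) (b (l 16839392) (l 16830856))) (a (b (l 16800064) (l 16765016)) (b (l 16766336) (l 16711376)))) (b (a (a (a (l 16860992) (l 16801016)) (b (l 16762368) (l 16669192))) (a (a (l 16649488) (l 16610840)) (l 16693224))) (a (b (a (a (l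 16693776) (l 16617976)) (l 4)) (l 4)) (l 4)))) (b (a (a (b (l 16738096) (l 16673920)) (b (l 16717232) (l 4))) (a (l 200286766327) (l 1))) (l 1)))), by decide +kernel⟩

theorem c_pm_123 : CertB 536870912 536870912 0 1230186008 536870912 50465866 3 eng mog cd1q1 cd4q3 pd2 false true false .npn 1 2 3
    ndB1q1 ndB4q3 pcB2 Cut.none Ext.none :=
  certB2 (fam := false) (s1 := true) (s2 := false) (a := 1) (b := 2) (c := 3) (cn := .npn) (n1 := ndB1q1) (n2 := ndB4q3) (pc := pcB2) (cut := Cut.none) (xt := Ext.none) (P1 := 536870912) (W1 := 536870912) (P2 := 0) (W2 := 1230186008) (P3 := 536870912) (W3 := 50465866) (N0 := 3) (En := eng) (mo := mog) (C1 := cd1q1) (C2 := cd4q3) (C3 := pd2)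
    rfl (fun _ => rfl) k0_pm_123

noncomputable def f_pm_133 : ℕ → ℕ → ℕ → ℕ → Bool := onCell 1610612736 536870912 0 1230186008 536870912 50465866
    (rowB 3 eng mog cd1q1 cd4q3 pd3 2 false true false .dn 1 3 3 (qsf 536870912 536870912 0 1230186008 3) ndB1q1 ndB4q3 pcB3 Cut.none Ext.none)

def k0_pm_133 : ∃ t, chk3 f_pm_133 t 1 1 1 = true :=
  ⟨(b (b (a (a (l 16741080) (l 1)) (l 1)) (l 1)) (l 1)), by decide +kernel⟩

theorem c_pm_133 : CertB 536870912 536870912 0 1230186008 536870912 50465866 3 eng mog cd1q1 cd4q3 pd3 false true false .dn 1 3 3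
    ndB1q1 ndB4q3 pcB3 Cut.none Ext.none :=
  certB2 (fam := false) (s1 := true) (s2 := false) (a := 1) (b := 3) (c := 3) (cn := .dn) (n1 := ndB1q1) (n2 := ndB4q3) (pc := pcB3) (cut := Cut.none) (xt := Ext.none) (P1 := 536870912) (W1 := 536870912) (P2 := 0) (W2 := 1230186008) (P3 := 536870912) (W3 := 50465866) (N0 := 3) (En := eng) (mo := mog) (C1 := cd1q1) (C2 := cd4q3) (C3 := pd3)
    rfl (fun _ => rfl) k0_pm_133

noncomputable def f_pm_202_a : ℕ → ℕ → ℕ → ℕ → Bool := onCell 0 536870912 1073741824 536870912 536870912 50465866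
    (rowB 3 eng mog cd1q2a cd4q2 pd0 0 false true false .pp 2 0 2 (qsf 0 536870912 1073741824 536870912 0) ndB1q2a ndB4q2 pcB0 Cut.none Ext.none)

def k0_pm_202_a : ∃ t, chk3 f_pm_202_a t 2 1 1 = true :=
  ⟨(b (a (l 3) (b (b (l 1) (a (l 1) (b (l 1) (a (l 1) (l 16536848))))) (b (a (b (a (l 3) (l 3)) (l 3)) (b (a (a (b (b (l 16617792) (c (l 16562152) (l 16607392))) (b (l 16603328) (l 16570896))) (b (l 16573936) (b (l 16588968) (a (l 16567512) (l 16569696))))) (b (l 16533888) (a (b (l 16518016) (l 16555224)) (b (l 16534976) (l 16528552))))) (b (b (a (a (l 134385068327) (a (l 16542920) (l 16529112))) (a (a (l 16511520) (l 16520056)) (a (l 16526176) (l 16532944)))) (a (a (l 16493480) (l 16562976)) (a (l 16543864) (l 16526016)))) (a (a (l 16556344) (a (l 16494800) (l 16495808))) (a (b (l 16509504) (l 16503416)) (b (l 16521152) (l 16517320))))))) (a (l 3) (a (a (l 3) (b (b (a (l 16497264) (l 16497880)) (l 140827579031)) (b (l 142438189959) (l 145659440535))))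 (b (a (b (l 16519928) (l 16522456)) (b (l 16510496) (l 16501424))) (b (a (a (l 16505120) (l 16504760)) (l 16504784)) (a (l 114520925127) (l 16512904))))))))) (a (l 3) (a (l 3) (b (a (l 3) (a (b (b (b (l 16512952) (l 16538008)) (a (l 3) (l 160691749959))) (l 3)) (b (a (b (l 16513024) (l 16541216)) (b (l 16521544) (l 16517904))) (b (b (l 16522728) (l 16521624)) (l 16539088))))) (l 3))))), by decide +kernel⟩

def k1_pm_202_a : ∃ t, chk3 f_pm_202_a t 3 2 1 = true :=
  ⟨(b (a (b (l 1) (a (b (l 1) (a (b (l 16576424) (l 16569152)) (l 16598008))) (b (b (l 16705824) (l 16638800)) (a (l 16621448) (l 16642760))))) (b (b (a (l 1) (a (b (l 1) (a (l 16695208) (l 16702840))) (a (l 16710112) (l 16718280)))) (a (a (b (l 1) (l 16672032)) (b (b (l 16689824) (l 16688960)) (l 16687136))) (a (b (l 16702080) (l 16700384)) (l 16715968)))) (a (b (a (l 16667520) (l 16683344)) (l 16671888)) (b (a (l 16699344) (l 16719752)) (l 16712984))))) (a (b (a (b (a (l 16559248) (l 16587408))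 (a (b (a (b (l 16542824) (l 16539824)) (b (l 16558936) (l 16553256))) (a (l 16533424) (l 16548200))) (b (l 16579336) (a (l 16562392) (l 16576096))))) (b (l 16626152) (a (l 16604080) (l 16631184)))) (a (b (a (a (b (l 16523632) (l 16514208)) (b (l 16539216) (l 16528480))) (b (l 16562152) (l 16553056))) (a (a (l 16502104) (l 16514688)) (b (l 16541432) (l 16531856)))) (b (a (b (l 16590984) (l 16584336)) (b (l 16620888) (l 16613296))) (a (l 16570352) (l 16601424))))) (a (b (b (l 16670896) (l 16669688)) (b (l 16700984) (a (l 16627328) (l 16650848)))) (b (b (l 16720792) (l 16809656)) (b (l 16716536) (l 16697888)))))), by decide +kernel⟩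

def k2_pm_202_a : ∃ t, chk3 f_pm_202_a t 3 3 1 = true :=
  ⟨(a (b (a (b (a (b (a (a (l 16508608) (l 16504400)) (l 16497840)) (a (b (l 16510112) (l 16512656)) (b (l 16499840) (l 16501664)))) (b (l 16518632) (l 16496832))) (b (a (a (l 16534888) (l 16501152)) (l 16585144)) (a (a (l 16508688) (l 16493944)) (l 16512920)))) (b (a (b (l 16546768) (l 16530328)) (b (l 16578448) (l 16556688))) (a (l 16509536) (b (l 16543464) (l 16535808))))) (b (a (b (a (a (l 16500880) (l 16483584)) (a (l 16467448) (l 16480656))) (a (a (l 16493144) (l 16473752)) (a (l 16466016) (l 16483184)))) (a (b (l 16505104) (a (l 16498224) (l 16517232))) (l 16541584))) (a (b (a (l 162839083287) (l 16470968)) (a (l 3) (b (l 16466064) (l 16530104)))) (b (a (l 16512112) (l 16554440)) (a (b (l 16515216) (l 16477024)) (l 16542568)))))) (b (b (a (b (l 16618664) (l 16599224)) (b (l 16672920) (a (l 16637296) (l 16668360)))) (a (a (b (l 16569128) (l 16564512)) (l 16723848)) (b (l 16648472) (l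 16663560)))) (b (a (a (l 16579720) (l 16618592)) (l 16695264)) (a (b (l 16622816) (l 16699208)) (b (l 16728640) (l 16733136)))))), by decide +kernel⟩

theorem s3_pm_202_a : ∃ t, chk3 f_pm_202_a t 3 1 1 = true := ex3_b k1_pm_202_a k2_pm_202_a

theorem s4_pm_202_a : ∃ t, chk3 f_pm_202_a t 1 1 1 = true := ex3_a k0_pm_202_a s3_pm_202_a

theorem c_pm_202_a : CertB 0 536870912 1073741824 536870912 536870912 50465866 3 eng mog cd1q2a cd4q2 pd0 false true false .pp 2 0 2
    ndB1q2a ndB4q2 pcB0 Cut.none Ext.none :=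
  certB0 (fam := false) (s1 := true) (s2 := false) (a := 2) (b := 0) (c := 2) (cn := .pp) (n1 := ndB1q2a) (n2 := ndB4q2) (pc := pcB0) (cut := Cut.none) (xt := Ext.none) (P1 := 0) (W1 := 536870912) (P2 := 1073741824) (W2 := 536870912) (P3 := 536870912) (W3 := 50465866) (N0 := 3) (En := eng) (mo := mog) (C1 := cd1q2a) (C2 := cd4q2) (C3 := pd0)
    rfl s4_pm_202_a

noncomputable def f_pm_202_b : ℕ → ℕ → ℕ → ℕ → Bool := onCell 0 536870912 1073741824 536870912 536870912 50465866
    (rowB 3 eng mog cd1q2b cd4q2 pd0 2 false true false .pp 2 0 2 (qsf 1239849684 370763052 1073741824 536870912 0) ndB1q2b ndB4q2 pcB0 Cut.none Ext.none)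

def k0_pm_202_b : ∃ t, chk3 f_pm_202_b t 1 1 1 = true :=
  ⟨(l 3), by decide +kernel⟩

theorem c_pm_202_b : CertB 1239849684 370763052 1073741824 536870912 536870912 50465866 3 eng mog cd1q2b cd4q2 pd0 false true false .pp 2 0 2
    ndB1q2b ndB4q2 pcB0 Cut.none Ext.none :=
  certB2 (fam := false) (s1 := true) (s2 := false) (a := 2) (b := 0) (c := 2) (cn := .pp) (n1 := ndB1q2b) (n2 := ndB4q2) (pc := pcB0) (cut := Cut.none) (xt := Ext.none) (P1 := 1239849684) (W1 := 370763052) (P2 := 1073741824) (W2 := 536870912) (P3 := 536870912) (W3 := 50465866) (N0 := 3) (En := eng) (mo := mog) (C1 := cd1q2b) (C2 := cd4q2) (C3 := pd0)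
    rfl (fun _ => rfl) k0_pm_202_b

noncomputable def f_pm_203_a : ℕ → ℕ → ℕ → ℕ → Bool := onCell 0 536870912 0 1230186008 536870912 50465866
    (rowB 3 eng mog cd1q2a cd4q3 pd0 0 false true false .up 2 0 3 (qsf 0 536870912 0 1230186008 0) ndB1q2a ndB4q3 pcB0 Cut.none Ext.none)

def k0_pm_203_a : ∃ t, chk3 f_pm_203_a t 1 1 1 = true :=
  ⟨(b (l 2) (b (l 2) (b (a (l 3) (l 2)) (a (l 3) (b (b (a (a (l 3) (l 2)) (l 2)) (a (a (a (l 3) (l 145122678551)) (a (a (l 84993144439) (l 16588992)) (l 16681808))) (a (a (l 16624048) (l 2)) (l 2)))) (a (b (a (a (l 3) (b (l 142438122823) (l 146196122279))) (a (b (l 16531048) (l 16514824)) (b (l 16554000) (l 16548048)))) (a (a (l 3) (b (l 147269939607) (l 16566968))) (a (b (l 16522832) (l 16552584)) (b (l 16568264) (l 16597352))))) (a (b (l 16624904) (l 16664192)) (b (l 16753904) (l 16800184))))))))), by decide +kernel⟩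

theorem c_pm_203_a : CertB 0 536870912 0 1230186008 536870912 50465866 3 eng mog cd1q2a cd4q3 pd0 false true false .up 2 0 3
    ndB1q2a ndB4q3 pcB0 Cut.none Ext.none :=
  certB0 (fam := false) (s1 := true) (s2 := false) (a := 2) (b := 0) (c := 3) (cn := .up) (n1 := ndB1q2a) (n2 := ndB4q3) (pc := pcB0) (cut := Cut.none) (xt := Ext.none) (P1 := 0) (W1 := 536870912) (P2 := 0) (W2 := 1230186008) (P3 := 536870912) (W3 := 50465866) (N0 := 3) (En := eng) (mo := mog) (C1 := cd1q2a) (C2 := cd4q3) (C3 := pd0)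
    rfl k0_pm_203_a

noncomputable def f_pm_203_b : ℕ → ℕ → ℕ → ℕ → Bool := onCell 1239849684 370763052 0 1230186008 536870912 50465866
    (rowB 3 eng mog cd1q2b cd4q3 pd0 0 false true false .up 2 0 3 (qsf 1239849684 370763052 0 1230186008 0) ndB1q2b ndB4q3 pcB0 Cut.none Ext.none)

def k0_pm_203_b : ∃ t, chk3 f_pm_203_b t 1 1 1 = true :=
  ⟨(b (l 3) (l 3)), by decide +kernel⟩

theorem c_pm_203_b : CertB 1239849684 370763052 0 1230186008 536870912 50465866 3 eng mog cd1q2b cd4q3 pd0 false true false .up 2 0 3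
    ndB1q2b ndB4q3 pcB0 Cut.none Ext.none :=
  certB0 (fam := false) (s1 := true) (s2 := false) (a := 2) (b := 0) (c := 3) (cn := .up) (n1 := ndB1q2b) (n2 := ndB4q3) (pc := pcB0) (cut := Cut.none) (xt := Ext.none) (P1 := 1239849684) (W1 := 370763052) (P2 := 0) (W2 := 1230186008) (P3 := 536870912) (W3 := 50465866) (N0 := 3) (En := eng) (mo := mog) (C1 := cd1q2b) (C2 := cd4q3) (C3 := pd0)
    rfl k0_pm_203_b

noncomputable def cut_pm_213_a : Cut := Cut.of [[⟨0, 1, 0, 67108864⟩, ⟨1, 1, 0, 67108864⟩, ⟨2, 2, 0, 16777216⟩]]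

noncomputable def f_pm_213_a : ℕ → ℕ → ℕ → ℕ → Bool := onCell 0 536870912 0 1230186008 536870912 50465866
    (rowB 3 eng mog cd1q2a cd4q3 pd1 0 false true false .pnn 2 1 3 (qsf 0 536870912 0 1230186008 1) ndB1q2a ndB4q3 pcB1 cut_pm_213_a Ext.none)

def k0_pm_213_a : ∃ t, chk3 f_pm_213_a t 1 2 1 = true :=
  ⟨(a (l 3) (b (a (l 3) (a (l 3) (b (l 6) (a (a (l 3) (b (l 6) (b (a (l 3) (l 266992646391)) (l 262160818055)))) (b (a (l 6) (l 6)) (a (b (l 16793976) (l 16799712)) (l 16798568))))))) (a (l 3) (b (a (a (l 3) (b (l 3) (a (l 3) (b (l 3) (l 258402756823))))) (a (b (a (a (l 340007152743) (b (l 302426144311) (l 226190441959))) (b (l 266455805015) (l 16810624))) (a (b (l 240149164215) (l 222969211479)) (l 16821944))) (b (l 16811224) (l 16827744)))) (a (a (l 3) (b (a (l 3) (b (l 231022352887) (l 232096154583))) (a (b (l 216526845831) (l 209010706679)) (b (l 16834208) (l 16841328))))) (a (b (a (b (l 16828104) (l 16835536)) (l 16838360)) (a (l 16868496)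 (l 16835784))) (b (l 16846856) (l 16869240)))))))), by decide +kernel⟩

def k1_pm_213_a : ∃ t, chk3 f_pm_213_a t 1 3 1 = true :=
  ⟨(b (a (l 3) (b (a (l 3) (a (a (b (a (l 3) (b (l 179482758647) (a (l 188072707431) (l 182704022471)))) (a (b (l 3) (l 251423511207)) (b (l 159618599095) (l 16853152)))) (b (a (b (l 169282269047) (l 16845328)) (l 16895472)) (b (a (l 16855336) (l 16868944)) (l 16874496)))) (b (a (l 16871672) (l 16894840)) (a (l 16897504) (l 16925648))))) (a (a (l 3) (a (l 3) (b (b (l 3) (l 209010679511)) (a (b (l 3) (l 140291208807)) (b (l 137070091095) (l 16838088)))))) (a (b (a (a (b (l 134385681447) (l 16856136)) (b (l 16863504) (l 16872960))) (b (l 16886840) (l 16899248))) (a (b (a (l 16860312) (l 16880768)) (l 16955648)) (a (l 16883864) (l 16885808)))) (a (b (l 16926456) (l 16957976)) (l 16981776)))))) (b (a (l 3) (a (a (l 3) (b (a (b (l 3) (l 235854107463)) (b (a (l 124185080743) (l 16830728)) (a (l 16797472) (l 16818480)))) (a (b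 (l 123111270679) (l 135996107911)) (b (l 16785040) (l 16749808))))) (a (b (a (b (l 16866864) (l 16855248)) (b (l 16837824) (l 16912208))) (a (b (l 16836024) (l 16800424)) (a (l 16860704) (l 16897280)))) (b (a (l 16981712) (l 17041000)) (b (l 17008288) (l 16981496)))))) (a (l 3) (b (a (a (b (l 3) (b (l 3) (l 1))) (a (b (a (l 16657296) (l 16671704)) (a (l 16629360) (l 16606736))) (b (l 16701000) (l 16639032)))) (a (a (b (l 16748400) (l 16684616)) (l 16781696)) (b (l 16936312) (l 16871312)))) (a (l 1) (a (b (l 16673248) (l 1)) (b (l 16829928) (b (l 16828952) (l 16830032))))))))), by decide +kernel⟩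

theorem s2_pm_213_a : ∃ t, chk3 f_pm_213_a t 1 1 1 = true := ex3_b k0_pm_213_a k1_pm_213_a

theorem c_pm_213_a : CertB 0 536870912 0 1230186008 536870912 50465866 3 eng mog cd1q2a cd4q3 pd1 false true false .pnn 2 1 3
    ndB1q2a ndB4q3 pcB1 cut_pm_213_a Ext.none :=
  certB0 (fam := false) (s1 := true) (s2 := false) (a := 2) (b := 1) (c := 3) (cn := .pnn) (n1 := ndB1q2a) (n2 := ndB4q3) (pc := pcB1) (cut := cut_pm_213_a) (xt := Ext.none) (P1 := 0) (W1 := 536870912) (P2 := 0) (W2 := 1230186008) (P3 := 536870912) (W3 := 50465866) (N0 := 3) (En := eng) (mo := mog) (C1 := cd1q2a) (C2 := cd4q3) (C3 := pd1)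
    rfl s2_pm_213_a

noncomputable def cut_pm_213_b : Cut := Cut.of [[⟨0, 1, 0, 67108864⟩, ⟨1, 1, 0, 67108864⟩, ⟨2, 2, 0, 16777216⟩]]

noncomputable def f_pm_213_b : ℕ → ℕ → ℕ → ℕ → Bool := onCell 1239849684 370763052 0 1230186008 536870912 50465866
    (rowB 3 eng mog cd1q2b cd4q3 pd1 0 false true false .pnn 2 1 3 (qsf 1239849684 370763052 0 1230186008 1) ndB1q2b ndB4q3 pcB1 cut_pm_213_b Ext.none)

def k0_pm_213_b : ∃ t, chk3 f_pm_213_b t 1 1 1 = true :=
  ⟨(b (l 3) (l 3)), by decide +kernel⟩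

theorem c_pm_213_b : CertB 1239849684 370763052 0 1230186008 536870912 50465866 3 eng mog cd1q2b cd4q3 pd1 false true false .pnn 2 1 3
    ndB1q2b ndB4q3 pcB1 cut_pm_213_b Ext.none :=
  certB0 (fam := false) (s1 := true) (s2 := false) (a := 2) (b := 1) (c := 3) (cn := .pnn) (n1 := ndB1q2b) (n2 := ndB4q3) (pc := pcB1) (cut := cut_pm_213_b) (xt := Ext.none) (P1 := 1239849684) (W1 := 370763052) (P2 := 0) (W2 := 1230186008) (P3 := 536870912) (W3 := 50465866) (N0 := 3) (En := eng) (mo := mog) (C1 := cd1q2b) (C2 := cd4q3) (C3 := pd1)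
    rfl k0_pm_213_b

noncomputable def f_pm_303 : ℕ → ℕ → ℕ → ℕ → Bool := onCell 1610612736 536870912 0 1230186008 536870912 50465866
    (rowB 3 eng mog cd1q3 cd4q3 pd0 0 false true false .npn 3 0 3 (qsf 1610612736 536870912 0 1230186008 0) ndB1q3 ndB4q3 pcB0 Cut.none Ext.none)

def k0_pm_303 : ∃ t, chk3 f_pm_303 t 1 1 1 = true :=
  ⟨(b (l 3) (l 3)), by decide +kernel⟩

theorem c_pm_303 : CertB 1610612736 536870912 0 1230186008 536870912 50465866 3 eng mog cd1q3 cd4q3 pd0 false true false .npn 3 0 3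
    ndB1q3 ndB4q3 pcB0 Cut.none Ext.none :=
  certB0 (fam := false) (s1 := true) (s2 := false) (a := 3) (b := 0) (c := 3) (cn := .npn) (n1 := ndB1q3) (n2 := ndB4q3) (pc := pcB0) (cut := Cut.none) (xt := Ext.none) (P1 := 1610612736) (W1 := 536870912) (P2 := 0) (W2 := 1230186008) (P3 := 536870912) (W3 := 50465866) (N0 := 3) (En := eng) (mo := mog) (C1 := cd1q3) (C2 := cd4q3) (C3 := pd0)
    rfl k0_pm_303

noncomputable def f_pm_313 : ℕ → ℕ → ℕ → ℕ → Bool := onCell 1610612736 536870912 0 1230186008 536870912 50465866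
    (rowB 3 eng mog cd1q3 cd4q3 pd1 0 false true false .dn 3 1 3 (qsf 1610612736 536870912 0 1230186008 1) ndB1q3 ndB4q3 pcB1 Cut.none Ext.none)

def k0_pm_313 : ∃ t, chk3 f_pm_313 t 1 1 1 = true :=
  ⟨(b (l 3) (l 1)), by decide +kernel⟩

theorem c_pm_313 : CertB 1610612736 536870912 0 1230186008 536870912 50465866 3 eng mog cd1q3 cd4q3 pd1 false true false .dn 3 1 3
    ndB1q3 ndB4q3 pcB1 Cut.none Ext.none :=
  certB0 (fam := false) (s1 := true) (s2 := false) (a := 3) (b := 1) (c := 3) (cn := .dn) (n1 := ndB1q3) (n2 := ndB4q3) (pc := pcB1) (cut := Cut.none) (xt := Ext.none) (P1 := 1610612736) (W1 := 536870912) (P2 := 0) (W2 := 1230186008) (P3 := 536870912) (W3 := 50465866) (N0 := 3) (En := eng) (mo := mog) (C1 := cd1q3) (C2 := cd4q3) (C3 := pd1)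
    rfl k0_pm_313

noncomputable def f_mm_001 : ℕ → ℕ → ℕ → ℕ → Bool := onCell 0 536870912 0 536870912 536870912 50465866
    (rowB 3 eng mog cd1q0 cd4q1 pd0 1 false false false .up 0 0 1 (qsf 0 536870912 536870912 536870912 0) ndB1q0 ndB4q1 pcB0 Cut.none Ext.none)

def k0_mm_001 : ∃ t, chk3 f_mm_001 t 1 1 1 = true :=
  ⟨(l 3), by decide +kernel⟩

theorem c_mm_001 : CertB 0 536870912 536870912 536870912 536870912 50465866 3 eng mog cd1q0 cd4q1 pd0 false false false .up 0 0 1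
    ndB1q0 ndB4q1 pcB0 Cut.none Ext.none :=
  certB1 (fam := false) (s1 := false) (s2 := false) (a := 0) (b := 0) (c := 1) (cn := .up) (n1 := ndB1q0) (n2 := ndB4q1) (pc := pcB0) (cut := Cut.none) (xt := Ext.none) (P1 := 0) (W1 := 536870912) (P2 := 536870912) (W2 := 536870912) (P3 := 536870912) (W3 := 50465866) (N0 := 3) (En := eng) (mo := mog) (C1 := cd1q0) (C2 := cd4q1) (C3 := pd0)
    rfl (fun _ => rfl) k0_mm_001

noncomputable def f_mm_011 : ℕ → ℕ → ℕ → ℕ → Bool := onCell 0 536870912 536870912 536870912 536870912 50465866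
    (rowB 3 eng mog cd1q0 cd4q1 pd1 1 false false false .pnn 0 1 1 (qsf 0 536870912 536870912 536870912 1) ndB1q0 ndB4q1 pcB1 Cut.none Ext.none)

def k0_mm_011 : ∃ t, chk3 f_mm_011 t 1 1 1 = true :=
  ⟨(l 5), by decide +kernel⟩

theorem c_mm_011 : CertB 0 536870912 536870912 536870912 536870912 50465866 3 eng mog cd1q0 cd4q1 pd1 false false false .pnn 0 1 1
    ndB1q0 ndB4q1 pcB1 Cut.none Ext.none :=
  certB1 (fam := false) (s1 := false) (s2 := false) (a := 0) (b := 1) (c := 1) (cn := .pnn) (n1 := ndB1q0) (n2 := ndB4q1) (pc := pcB1) (cut := Cut.none) (xt := Ext.none) (P1 := 0) (W1 := 536870912) (P2 := 536870912) (W2 := 536870912) (P3 := 536870912) (W3 := 50465866) (N0 := 3) (En := eng) (mo := mog) (C1 := cd1q0) (C2 := cd4q1) (C3 := pd1)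
    rfl (fun _ => rfl) k0_mm_011

noncomputable def f_mm_012 : ℕ → ℕ → ℕ → ℕ → Bool := onCell 0 536870912 1073741824 536870912 536870912 50465866
    (rowB 3 eng mog cd1q0 cd4q2 pd1 0 false false false .pnp 0 1 2 (qsf 0 536870912 1073741824 536870912 1) ndB1q0 ndB4q2 pcB1 Cut.none Ext.none)

def k0_mm_012 : ∃ t, chk3 f_mm_012 t 1 1 1 = true :=
  ⟨(l 5), by decide +kernel⟩

theorem c_mm_012 : CertB 0 536870912 1073741824 536870912 536870912 50465866 3 eng mog cd1q0 cd4q2 pd1 false false false .pnp 0 1 2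
    ndB1q0 ndB4q2 pcB1 Cut.none Ext.none :=
  certB0 (fam := false) (s1 := false) (s2 := false) (a := 0) (b := 1) (c := 2) (cn := .pnp) (n1 := ndB1q0) (n2 := ndB4q2) (pc := pcB1) (cut := Cut.none) (xt := Ext.none) (P1 := 0) (W1 := 536870912) (P2 := 1073741824) (W2 := 536870912) (P3 := 536870912) (W3 := 50465866) (N0 := 3) (En := eng) (mo := mog) (C1 := cd1q0) (C2 := cd4q2) (C3 := pd1)
    rfl k0_mm_012

noncomputable def f_mm_022 : ℕ → ℕ → ℕ → ℕ → Bool := onCell 0 536870912 1073741824 536870912 536870912 50465866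
    (rowB 3 eng mog cd1q0 cd4q2 pd2 0 false false false .pp 0 2 2 (qsf 0 536870912 1073741824 536870912 2) ndB1q0 ndB4q2 pcB2 Cut.none Ext.none)

def k0_mm_022 : ∃ t, chk3 f_mm_022 t 1 1 1 = true :=
  ⟨(l 5), by decide +kernel⟩

theorem c_mm_022 : CertB 0 536870912 1073741824 536870912 536870912 50465866 3 eng mog cd1q0 cd4q2 pd2 false false false .pp 0 2 2
    ndB1q0 ndB4q2 pcB2 Cut.none Ext.none :=
  certB0 (fam := false) (s1 := false) (s2 := false) (a := 0) (b := 2) (c := 2) (cn := .pp) (n1 := ndB1q0) (n2 := ndB4q2) (pc := pcB2) (cut := Cut.none) (xt := Ext.none) (P1 := 0) (W1 := 536870912) (P2 := 1073741824) (W2 := 536870912) (P3 := 536870912) (W3 := 50465866) (N0 := 3) (En := eng) (mo := mog) (C1 := cd1q0) (C2 := cd4q2) (C3 := pd2)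
    rfl k0_mm_022

noncomputable def f_mm_023 : ℕ → ℕ → ℕ → ℕ → Bool := onCell 0 536870912 0 1230186008 536870912 50465866
    (rowB 3 eng mog cd1q0 cd4q3 pd2 0 false false false .up 0 2 3 (qsf 0 536870912 0 1230186008 2) ndB1q0 ndB4q3 pcB2 Cut.none Ext.none)

def k0_mm_023 : ∃ t, chk3 f_mm_023 t 1 1 1 = true :=
  ⟨(l 5), by decide +kernel⟩

theorem c_mm_023 : CertB 0 536870912 0 1230186008 536870912 50465866 3 eng mog cd1q0 cd4q3 pd2 false false false .up 0 2 3
    ndB1q0 ndB4q3 pcB2 Cut.none Ext.none :=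
  certB0 (fam := false) (s1 := false) (s2 := false) (a := 0) (b := 2) (c := 3) (cn := .up) (n1 := ndB1q0) (n2 := ndB4q3) (pc := pcB2) (cut := Cut.none) (xt := Ext.none) (P1 := 0) (W1 := 536870912) (P2 := 0) (W2 := 1230186008) (P3 := 536870912) (W3 := 50465866) (N0 := 3) (En := eng) (mo := mog) (C1 := cd1q0) (C2 := cd4q3) (C3 := pd2)
    rfl k0_mm_023

noncomputable def f_mm_033 : ℕ → ℕ → ℕ → ℕ → Bool := onCell 0 536870912 0 1230186008 536870912 50465866
    (rowB 3 eng mog cd1q0 cd4q3 pd3 0 false false false .pnn 0 3 3 (qsf 0 536870912 0 1230186008 3) ndB1q0 ndB4q3 pcB3 Cut.none Ext.none)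

def k0_mm_033 : ∃ t, chk3 f_mm_033 t 1 1 1 = true :=
  ⟨(l 5), by decide +kernel⟩

theorem c_mm_033 : CertB 0 536870912 0 1230186008 536870912 50465866 3 eng mog cd1q0 cd4q3 pd3 false false false .pnn 0 3 3
    ndB1q0 ndB4q3 pcB3 Cut.none Ext.none :=
  certB0 (fam := false) (s1 := false) (s2 := false) (a := 0) (b := 3) (c := 3) (cn := .pnn) (n1 := ndB1q0) (n2 := ndB4q3) (pc := pcB3) (cut := Cut.none) (xt := Ext.none) (P1 := 0) (W1 := 536870912) (P2 := 0) (W2 := 1230186008) (P3 := 536870912) (W3 := 50465866) (N0 := 3) (En := eng) (mo := mog) (C1 := cd1q0) (C2 := cd4q3) (C3 := pd3)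
    rfl k0_mm_033

noncomputable def f_mm_101 : ℕ → ℕ → ℕ → ℕ → Bool := onCell 536870912 536870912 0 536870912 536870912 50465866
    (rowB 3 eng mog cd1q1 cd4q1 pd0 1 false false false .npn 1 0 1 (qsf 536870912 536870912 536870912 536870912 0) ndB1q1 ndB4q1 pcB0 Cut.none Ext.none)

def k0_mm_101 : ∃ t, chk3 f_mm_101 t 1 1 1 = true :=
  ⟨(l 3), by decide +kernel⟩

theorem c_mm_101 : CertB 536870912 536870912 536870912 536870912 536870912 50465866 3 eng mog cd1q1 cd4q1 pd0 false false false .npn 1 0 1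
    ndB1q1 ndB4q1 pcB0 Cut.none Ext.none :=
  certB1 (fam := false) (s1 := false) (s2 := false) (a := 1) (b := 0) (c := 1) (cn := .npn) (n1 := ndB1q1) (n2 := ndB4q1) (pc := pcB0) (cut := Cut.none) (xt := Ext.none) (P1 := 536870912) (W1 := 536870912) (P2 := 536870912) (W2 := 536870912) (P3 := 536870912) (W3 := 50465866) (N0 := 3) (En := eng) (mo := mog) (C1 := cd1q1) (C2 := cd4q1) (C3 := pd0)
    rfl (fun _ => rfl) k0_mm_101

noncomputable def f_mm_102 : ℕ → ℕ → ℕ → ℕ → Bool := onCell 536870912 536870912 1073741824 536870912 536870912 50465866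
    (rowB 3 eng mog cd1q1 cd4q2 pd0 0 false false false .npp 1 0 2 (qsf 536870912 536870912 1073741824 536870912 0) ndB1q1 ndB4q2 pcB0 Cut.none Ext.none)

def k0_mm_102 : ∃ t, chk3 f_mm_102 t 1 1 1 = true :=
  ⟨(l 3), by decide +kernel⟩

theorem c_mm_102 : CertB 536870912 536870912 1073741824 536870912 536870912 50465866 3 eng mog cd1q1 cd4q2 pd0 false false false .npp 1 0 2
    ndB1q1 ndB4q2 pcB0 Cut.none Ext.none :=
  certB0 (fam := false) (s1 := false) (s2 := false) (a := 1) (b := 0) (c := 2) (cn := .npp) (n1 := ndB1q1) (n2 := ndB4q2) (pc := pcB0) (cut := Cut.none) (xt := Ext.none) (P1 := 536870912) (W1 := 536870912) (P2 := 1073741824) (W2 := 536870912) (P3 := 536870912) (W3 := 50465866) (N0 := 3) (En := eng) (mo := mog) (C1 := cd1q1) (C2 := cd4q2) (C3 := pd0)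
    rfl k0_mm_102

noncomputable def f_mm_112 : ℕ → ℕ → ℕ → ℕ → Bool := onCell 536870912 536870912 1073741824 536870912 536870912 50465866
    (rowB 3 eng mog cd1q1 cd4q2 pd1 0 false false false .dn 1 1 2 (qsf 536870912 536870912 1073741824 536870912 1) ndB1q1 ndB4q2 pcB1 Cut.none Ext.none)

def k0_mm_112 : ∃ t, chk3 f_mm_112 t 1 1 1 = true :=
  ⟨(l 3), by decide +kernel⟩

theorem c_mm_112 : CertB 536870912 536870912 1073741824 536870912 536870912 50465866 3 eng mog cd1q1 cd4q2 pd1 false false false .dn 1 1 2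
    ndB1q1 ndB4q2 pcB1 Cut.none Ext.none :=
  certB0 (fam := false) (s1 := false) (s2 := false) (a := 1) (b := 1) (c := 2) (cn := .dn) (n1 := ndB1q1) (n2 := ndB4q2) (pc := pcB1) (cut := Cut.none) (xt := Ext.none) (P1 := 536870912) (W1 := 536870912) (P2 := 1073741824) (W2 := 536870912) (P3 := 536870912) (W3 := 50465866) (N0 := 3) (En := eng) (mo := mog) (C1 := cd1q1) (C2 := cd4q2) (C3 := pd1)
    rfl k0_mm_112

noncomputable def f_mm_113 : ℕ → ℕ → ℕ → ℕ → Bool := onCell 536870912 536870912 0 1230186008 536870912 50465866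
    (rowB 3 eng mog cd1q1 cd4q3 pd1 0 false false false .nn 1 1 3 (qsf 536870912 536870912 0 1230186008 1) ndB1q1 ndB4q3 pcB1 Cut.none Ext.none)

def k0_mm_113 : ∃ t, chk3 f_mm_113 t 1 1 1 = true :=
  ⟨(b (l 5) (l 5)), by decide +kernel⟩

theorem c_mm_113 : CertB 536870912 536870912 0 1230186008 536870912 50465866 3 eng mog cd1q1 cd4q3 pd1 false false false .nn 1 1 3
    ndB1q1 ndB4q3 pcB1 Cut.none Ext.none :=
  certB0 (fam := false) (s1 := false) (s2 := false) (a := 1) (b := 1) (c := 3) (cn := .nn) (n1 := ndB1q1) (n2 := ndB4q3) (pc := pcB1) (cut := Cut.none) (xt := Ext.none) (P1 := 536870912) (W1 := 536870912) (P2 := 0) (W2 := 1230186008) (P3 := 536870912) (W3 := 50465866) (N0 := 3) (En := eng) (mo := mog) (C1 := cd1q1) (C2 := cd4q3) (C3 := pd1)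
    rfl k0_mm_113

noncomputable def f_mm_123 : ℕ → ℕ → ℕ → ℕ → Bool := onCell 536870912 536870912 0 1230186008 536870912 50465866
    (rowB 3 eng mog cd1q1 cd4q3 pd2 0 false false false .npn 1 2 3 (qsf 536870912 536870912 0 1230186008 2) ndB1q1 ndB4q3 pcB2 Cut.none Ext.none)

def k0_mm_123 : ∃ t, chk3 f_mm_123 t 1 1 1 = true :=
  ⟨(b (l 5) (l 5)), by decide +kernel⟩

theorem c_mm_123 : CertB 536870912 536870912 0 1230186008 536870912 50465866 3 eng mog cd1q1 cd4q3 pd2 false false false .npn 1 2 3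
    ndB1q1 ndB4q3 pcB2 Cut.none Ext.none :=
  certB0 (fam := false) (s1 := false) (s2 := false) (a := 1) (b := 2) (c := 3) (cn := .npn) (n1 := ndB1q1) (n2 := ndB4q3) (pc := pcB2) (cut := Cut.none) (xt := Ext.none) (P1 := 536870912) (W1 := 536870912) (P2 := 0) (W2 := 1230186008) (P3 := 536870912) (W3 := 50465866) (N0 := 3) (En := eng) (mo := mog) (C1 := cd1q1) (C2 := cd4q3) (C3 := pd2)
    rfl k0_mm_123

noncomputable def f_mm_133 : ℕ → ℕ → ℕ → ℕ → Bool := onCell 536870912 536870912 0 1230186008 536870912 50465866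
    (rowB 3 eng mog cd1q1 cd4q3 pd3 0 false false false .dn 1 3 3 (qsf 536870912 536870912 0 1230186008 3) ndB1q1 ndB4q3 pcB3 Cut.none Ext.none)

def k0_mm_133 : ∃ t, chk3 f_mm_133 t 1 1 1 = true :=
  ⟨(b (l 5) (l 1)), by decide +kernel⟩

theorem c_mm_133 : CertB 536870912 536870912 0 1230186008 536870912 50465866 3 eng mog cd1q1 cd4q3 pd3 false false false .dn 1 3 3
    ndB1q1 ndB4q3 pcB3 Cut.none Ext.none :=
  certB0 (fam := false) (s1 := false) (s2 := false) (a := 1) (b := 3) (c := 3) (cn := .dn) (n1 := ndB1q1) (n2 := ndB4q3) (pc := pcB3) (cut := Cut.none) (xt := Ext.none) (P1 := 536870912) (W1 := 536870912) (P2 := 0) (W2 := 1230186008) (P3 := 536870912) (W3 := 50465866) (N0 := 3) (En := eng) (mo := mog) (C1 := cd1q1) (C2 := cd4q3) (C3 := pd3)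
    rfl k0_mm_133

noncomputable def f_mm_202_a : ℕ → ℕ → ℕ → ℕ → Bool := onCell 0 536870912 1073741824 536870912 536870912 50465866
    (rowB 3 eng mog cd1q2a cd4q2 pd0 0 false false false .pp 2 0 2 (qsf 0 536870912 1073741824 536870912 0) ndB1q2a ndB4q2 pcB0 Cut.none Ext.none)

def k0_mm_202_a : ∃ t, chk3 f_mm_202_a t 1 1 1 = true :=
  ⟨(l 3), by decide +kernel⟩

theorem c_mm_202_a : CertB 0 536870912 1073741824 536870912 536870912 50465866 3 eng mog cd1q2a cd4q2 pd0 false false false .pp 2 0 2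
    ndB1q2a ndB4q2 pcB0 Cut.none Ext.none :=
  certB0 (fam := false) (s1 := false) (s2 := false) (a := 2) (b := 0) (c := 2) (cn := .pp) (n1 := ndB1q2a) (n2 := ndB4q2) (pc := pcB0) (cut := Cut.none) (xt := Ext.none) (P1 := 0) (W1 := 536870912) (P2 := 1073741824) (W2 := 536870912) (P3 := 536870912) (W3 := 50465866) (N0 := 3) (En := eng) (mo := mog) (C1 := cd1q2a) (C2 := cd4q2) (C3 := pd0)
    rfl k0_mm_202_a

noncomputable def f_mm_202_b : ℕ → ℕ → ℕ → ℕ → Bool := onCell 1239849684 370763052 1073741824 536870912 536870912 50465866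
    (rowB 3 eng mog cd1q2b cd4q2 pd0 0 false false false .pp 2 0 2 (qsf 1239849684 370763052 1073741824 536870912 0) ndB1q2b ndB4q2 pcB0 Cut.none Ext.none)

def k0_mm_202_b : ∃ t, chk3 f_mm_202_b t 1 1 1 = true :=
  ⟨(l 3), by decide +kernel⟩

theorem c_mm_202_b : CertB 1239849684 370763052 1073741824 536870912 536870912 50465866 3 eng mog cd1q2b cd4q2 pd0 false false false .pp 2 0 2
    ndB1q2b ndB4q2 pcB0 Cut.none Ext.none :=
  certB0 (fam := false) (s1 := false) (s2 := false) (a := 2) (b := 0) (c := 2) (cn := .pp) (n1 := ndB1q2b) (n2 := ndB4q2) (pc := pcB0) (cut := Cut.none) (xt := Ext.none) (P1 := 1239849684) (W1 := 370763052) (P2 := 1073741824) (W2 := 536870912) (P3 := 536870912) (W3 := 50465866) (N0 := 3) (En := eng) (mo := mog) (C1 := cd1q2b) (C2 := cd4q2) (C3 := pd0)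
    rfl k0_mm_202_b

noncomputable def f_mm_203_a : ℕ → ℕ → ℕ → ℕ → Bool := onCell 0 536870912 0 1230186008 536870912 50465866
    (rowB 3 eng mog cd1q2a cd4q3 pd0 0 false false false .up 2 0 3 (qsf 0 536870912 0 1230186008 0) ndB1q2a ndB4q3 pcB0 Cut.none Ext.none)

def k0_mm_203_a : ∃ t, chk3 f_mm_203_a t 1 1 1 = true :=
  ⟨(b (l 2) (l 3)), by decide +kernel⟩

theorem c_mm_203_a : CertB 0 536870912 0 1230186008 536870912 50465866 3 eng mog cd1q2a cd4q3 pd0 false false false .up 2 0 3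
    ndB1q2a ndB4q3 pcB0 Cut.none Ext.none :=
  certB0 (fam := false) (s1 := false) (s2 := false) (a := 2) (b := 0) (c := 3) (cn := .up) (n1 := ndB1q2a) (n2 := ndB4q3) (pc := pcB0) (cut := Cut.none) (xt := Ext.none) (P1 := 0) (W1 := 536870912) (P2 := 0) (W2 := 1230186008) (P3 := 536870912) (W3 := 50465866) (N0 := 3) (En := eng) (mo := mog) (C1 := cd1q2a) (C2 := cd4q3) (C3 := pd0)
    rfl k0_mm_203_a

noncomputable def f_mm_203_b : ℕ → ℕ → ℕ → ℕ → Bool := onCell 1239849684 370763052 0 1230186008 536870912 50465866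
    (rowB 3 eng mog cd1q2b cd4q3 pd0 0 false false false .up 2 0 3 (qsf 1239849684 370763052 0 1230186008 0) ndB1q2b ndB4q3 pcB0 Cut.none Ext.none)

def k0_mm_203_b : ∃ t, chk3 f_mm_203_b t 1 1 1 = true :=
  ⟨(b (l 3) (l 3)), by decide +kernel⟩

theorem c_mm_203_b : CertB 1239849684 370763052 0 1230186008 536870912 50465866 3 eng mog cd1q2b cd4q3 pd0 false false false .up 2 0 3
    ndB1q2b ndB4q3 pcB0 Cut.none Ext.none :=
  certB0 (fam := false) (s1 := false) (s2 := false) (a := 2) (b := 0) (c := 3) (cn := .up) (n1 := ndB1q2b) (n2 := ndB4q3) (pc := pcB0) (cut := Cut.none) (xt := Ext.none) (P1 := 1239849684) (W1 := 370763052) (P2 := 0) (W2 := 1230186008) (P3 := 536870912) (W3 := 50465866) (N0 := 3) (En := eng) (mo := mog) (C1 := cd1q2b) (C2 := cd4q3) (C3 := pd0)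
    rfl k0_mm_203_b

noncomputable def f_mm_213_a : ℕ → ℕ → ℕ → ℕ → Bool := onCell 0 536870912 0 1230186008 536870912 50465866
    (rowB 3 eng mog cd1q2a cd4q3 pd1 0 false false false .pnn 2 1 3 (qsf 0 536870912 0 1230186008 1) ndB1q2a ndB4q3 pcB1 Cut.none Ext.none)

def k0_mm_213_a : ∃ t, chk3 f_mm_213_a t 1 1 1 = true :=
  ⟨(b (a (l 3) (l 5)) (l 3)), by decide +kernel⟩

theorem c_mm_213_a : CertB 0 536870912 0 1230186008 536870912 50465866 3 eng mog cd1q2a cd4q3 pd1 false false false .pnn 2 1 3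
    ndB1q2a ndB4q3 pcB1 Cut.none Ext.none :=
  certB0 (fam := false) (s1 := false) (s2 := false) (a := 2) (b := 1) (c := 3) (cn := .pnn) (n1 := ndB1q2a) (n2 := ndB4q3) (pc := pcB1) (cut := Cut.none) (xt := Ext.none) (P1 := 0) (W1 := 536870912) (P2 := 0) (W2 := 1230186008) (P3 := 536870912) (W3 := 50465866) (N0 := 3) (En := eng) (mo := mog) (C1 := cd1q2a) (C2 := cd4q3) (C3 := pd1)
    rfl k0_mm_213_a

noncomputable def f_mm_213_b : ℕ → ℕ → ℕ → ℕ → Bool := onCell 1239849684 370763052 0 1230186008 536870912 50465866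
    (rowB 3 eng mog cd1q2b cd4q3 pd1 0 false false false .pnn 2 1 3 (qsf 1239849684 370763052 0 1230186008 1) ndB1q2b ndB4q3 pcB1 Cut.none Ext.none)

def k0_mm_213_b : ∃ t, chk3 f_mm_213_b t 1 1 1 = true :=
  ⟨(b (l 3) (l 3)), by decide +kernel⟩

theorem c_mm_213_b : CertB 1239849684 370763052 0 1230186008 536870912 50465866 3 eng mog cd1q2b cd4q3 pd1 false false false .pnn 2 1 3
    ndB1q2b ndB4q3 pcB1 Cut.none Ext.none :=
  certB0 (fam := false) (s1 := false) (s2 := false) (a := 2) (b := 1) (c := 3) (cn := .pnn) (n1 := ndB1q2b) (n2 := ndB4q3) (pc := pcB1) (cut := Cut.none) (xt := Ext.none) (P1 := 1239849684) (W1 := 370763052) (P2 := 0) (W2 := 1230186008) (P3 := 536870912) (W3 := 50465866) (N0 := 3) (En := eng) (mo := mog) (C1 := cd1q2b) (C2 := cd4q3) (C3 := pd1)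
    rfl k0_mm_213_b

noncomputable def f_mm_303 : ℕ → ℕ → ℕ → ℕ → Bool := onCell 1610612736 536870912 0 1230186008 536870912 50465866
    (rowB 3 eng mog cd1q3 cd4q3 pd0 0 false false false .npn 3 0 3 (qsf 1610612736 536870912 0 1230186008 0) ndB1q3 ndB4q3 pcB0 Cut.none Ext.none)

def k0_mm_303 : ∃ t, chk3 f_mm_303 t 1 1 1 = true :=
  ⟨(b (l 3) (l 3)), by decide +kernel⟩

theorem c_mm_303 : CertB 1610612736 536870912 0 1230186008 536870912 50465866 3 eng mog cd1q3 cd4q3 pd0 false false false .npn 3 0 3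
    ndB1q3 ndB4q3 pcB0 Cut.none Ext.none :=
  certB0 (fam := false) (s1 := false) (s2 := false) (a := 3) (b := 0) (c := 3) (cn := .npn) (n1 := ndB1q3) (n2 := ndB4q3) (pc := pcB0) (cut := Cut.none) (xt := Ext.none) (P1 := 1610612736) (W1 := 536870912) (P2 := 0) (W2 := 1230186008) (P3 := 536870912) (W3 := 50465866) (N0 := 3) (En := eng) (mo := mog) (C1 := cd1q3) (C2 := cd4q3) (C3 := pd0)
    rfl k0_mm_303

noncomputable def f_mm_313 : ℕ → ℕ → ℕ → ℕ → Bool := onCell 1610612736 536870912 0 1230186008 536870912 50465866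
    (rowB 3 eng mog cd1q3 cd4q3 pd1 0 false false false .dn 3 1 3 (qsf 1610612736 536870912 0 1230186008 1) ndB1q3 ndB4q3 pcB1 Cut.none Ext.none)

def k0_mm_313 : ∃ t, chk3 f_mm_313 t 1 1 1 = true :=
  ⟨(b (l 3) (l 1)), by decide +kernel⟩

theorem c_mm_313 : CertB 1610612736 536870912 0 1230186008 536870912 50465866 3 eng mog cd1q3 cd4q3 pd1 false false false .dn 3 1 3
    ndB1q3 ndB4q3 pcB1 Cut.none Ext.none :=
  certB0 (fam := false) (s1 := false) (s2 := false) (a := 3) (b := 1) (c := 3) (cn := .dn) (n1 := ndB1q3) (n2 := ndB4q3) (pc := pcB1) (cut := Cut.none) (xt := Ext.none) (P1 := 1610612736) (W1 := 536870912) (P2 := 0) (W2 := 1230186008) (P3 := 536870912) (W3 := 50465866) (N0 := 3) (En := eng) (mo := mog) (C1 := cd1q3) (C2 := cd4q3) (C3 := pd1)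
    rfl k0_mm_313

end Pool.Agent.Strip051.G.I5000_5470.Tab.C.BB14

namespace Pool.Agent.Strip051.G.I5000_5470.Tab.C.BB15

open Pool.Agent.Strip051.PB Pool.Agent.Strip051.PB.T
open Pool.Agent.Strip051.G.I5000_5470.Tab

noncomputable def f_pp_001 : ℕ → ℕ → ℕ → ℕ → Bool := onCell 0 536870912 0 536870912 536870912 50465866
    (rowB 3 eng mog cd1q0 cd5q1 pd0 1 false true true .up 0 0 1 (qsf 0 536870912 536870912 536870912 0) ndB1q0 ndB5q1 pcB0 Cut.none Ext.none)

def k0_pp_001 : ∃ t, chk3 f_pp_001 t 1 1 1 = true :=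
  ⟨(l 3), by decide +kernel⟩

theorem c_pp_001 : CertB 0 536870912 536870912 536870912 536870912 50465866 3 eng mog cd1q0 cd5q1 pd0 false true true .up 0 0 1
    ndB1q0 ndB5q1 pcB0 Cut.none Ext.none :=
  certB1 (fam := false) (s1 := true) (s2 := true) (a := 0) (b := 0) (c := 1) (cn := .up) (n1 := ndB1q0) (n2 := ndB5q1) (pc := pcB0) (cut := Cut.none) (xt := Ext.none) (P1 := 0) (W1 := 536870912) (P2 := 536870912) (W2 := 536870912) (P3 := 536870912) (W3 := 50465866) (N0 := 3) (En := eng) (mo := mog) (C1 := cd1q0) (C2 := cd5q1) (C3 := pd0)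
    rfl (fun _ => rfl) k0_pp_001

noncomputable def cut_pp_011 : Cut := Cut.of [[⟨0, 0, 0, 67108864⟩, ⟨1, 1, 0, 67108864⟩, ⟨2, 1, 0, 67108864⟩]]

noncomputable def f_pp_011 : ℕ → ℕ → ℕ → ℕ → Bool := onCell 0 536870912 536870912 536870912 536870912 50465866
    (rowB 3 eng mog cd1q0 cd5q1 pd1 1 false true true .pnn 0 1 1 (qsf 0 536870912 536870912 536870912 1) ndB1q0 ndB5q1 pcB1 cut_pp_011 Ext.none)

def k0_pp_011 : ∃ t, chk3 f_pp_011 t 1 1 1 = true :=
  ⟨(b (l 3) (b (l 3) (a (b (l 3) (a (a (b (l 3) (a (l 6) (l 3))) (l 3)) (l 2))) (l 2)))), by decide +kernel⟩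

theorem c_pp_011 : CertB 0 536870912 536870912 536870912 536870912 50465866 3 eng mog cd1q0 cd5q1 pd1 false true true .pnn 0 1 1
    ndB1q0 ndB5q1 pcB1 cut_pp_011 Ext.none :=
  certB1 (fam := false) (s1 := true) (s2 := true) (a := 0) (b := 1) (c := 1) (cn := .pnn) (n1 := ndB1q0) (n2 := ndB5q1) (pc := pcB1) (cut := cut_pp_011) (xt := Ext.none) (P1 := 0) (W1 := 536870912) (P2 := 536870912) (W2 := 536870912) (P3 := 536870912) (W3 := 50465866) (N0 := 3) (En := eng) (mo := mog) (C1 := cd1q0) (C2 := cd5q1) (C3 := pd1)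
    rfl (fun _ => rfl) k0_pp_011

noncomputable def f_pp_012 : ℕ → ℕ → ℕ → ℕ → Bool := onCell 0 536870912 536870912 536870912 536870912 50465866
    (rowB 3 eng mog cd1q0 cd5q2 pd1 1 false true true .pnp 0 1 2 (qsf 0 536870912 1073741824 536870912 1) ndB1q0 ndB5q2 pcB1 Cut.none Ext.none)

def k0_pp_012 : ∃ t, chk3 f_pp_012 t 1 1 1 = true :=
  ⟨(l 3), by decide +kernel⟩

theorem c_pp_012 : CertB 0 536870912 1073741824 536870912 536870912 50465866 3 eng mog cd1q0 cd5q2 pd1 false true true .pnp 0 1 2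
    ndB1q0 ndB5q2 pcB1 Cut.none Ext.none :=
  certB1 (fam := false) (s1 := true) (s2 := true) (a := 0) (b := 1) (c := 2) (cn := .pnp) (n1 := ndB1q0) (n2 := ndB5q2) (pc := pcB1) (cut := Cut.none) (xt := Ext.none) (P1 := 0) (W1 := 536870912) (P2 := 1073741824) (W2 := 536870912) (P3 := 536870912) (W3 := 50465866) (N0 := 3) (En := eng) (mo := mog) (C1 := cd1q0) (C2 := cd5q2) (C3 := pd1)
    rfl (fun _ => rfl) k0_pp_012

noncomputable def f_pp_022 : ℕ → ℕ → ℕ → ℕ → Bool := onCell 0 536870912 1073741824 536870912 536870912 50465866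
    (rowB 3 eng mog cd1q0 cd5q2 pd2 1 false true true .pp 0 2 2 (qsf 0 536870912 1073741824 536870912 2) ndB1q0 ndB5q2 pcB2 Cut.none Ext.none)

def k0_pp_022 : ∃ t, chk3 f_pp_022 t 2 1 1 = true :=
  ⟨(b (b (l 3) (b (b (b (a (l 3) (l 3)) (b (a (b (a (a (a (l 16483512) (l 3)) (l 3)) (l 3)) (a (a (a (l 16474696) (l 16483440)) (l 16492312)) (l 3))) (l 3)) (a (b (b (a (a (l 16514064) (l 16487240)) (a (l 16507424) (l 3))) (a (a (l 16510424) (l 16483488)) (a (l 16503936) (l 16523864)))) (a (b (a (a (l 16460632) (l 16468960)) (b (l 16480432) (l 16478632))) (a (l 16502288) (l 16476376))) (b (b (a (l 16501256) (l 16521536)) (a (l 16499584) (l 16520080))) (a (b (a (l 16492936) (a (l 16500824) (b (b (l 16506560) (l 16506256)) (l 16505720)))) (l 16496744)) (b (b (b (l 16519296) (l 16518992)) (l 16518488)) (l 16517456)))))) (b (a (l 3) (l 3)) (a (b (b (l 16546864) (l 16608520)) (b (a (b (b (l 16537104) (l 16536808)) (l 16536352)) (l 16551520)) (l 16543296))) (b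 (l 3) (a (l 16562256) (l 16569664)))))))) (a (a (a (b (l 16512696) (l 16413664)) (l 16449640)) (a (l 16472896) (l 16495544))) (a (a (l 16515424) (l 16532040)) (l 16550336)))) (a (a (a (b (l 16376712) (l 16333016)) (b (l 16404008) (l 16364880))) (a (b (l 16431400) (l 16396456)) (b (l 16457840) (l 16426480)))) (a (a (l 16466416) (l 16488312)) (l 16556880))))) (b (a (a (b (a (b (l 16296136) (l 16266496)) (l 16319064)) (a (l 16236000) (l 16283968))) (b (a (l 16356648) (l 16392328)) (l 16353000))) (b (a (l 16440640) (l 16493456)) (a (l 16435432) (l 16504696)))) (b (a (a (l 16254792) (l 16366856)) (a (l 16466408) (l 2))) (a (a (l 16289360) (l 16437840)) (l 2))))), by decide +kernel⟩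

def k1_pp_022 : ∃ t, chk3 f_pp_022 t 3 1 1 = true :=
  ⟨(b (b (l 3) (a (b (b (b (l 3) (b (l 3) (b (a (l 3) (l 16571544)) (a (b (l 16571832) (l 16570272)) (b (l 16563696) (l 16558624)))))) (a (l 16558848) (l 16543984))) (a (l 16536288) (l 16538256))) (b (b (b (b (l 3) (l 2)) (l 2)) (l 2)) (l 2)))) (b (a (b (a (l 16532880) (l 2)) (l 2)) (l 2)) (l 2))), by decide +kernel⟩

theorem s2_pp_022 : ∃ t, chk3 f_pp_022 t 1 1 1 = true := ex3_a k0_pp_022 k1_pp_022

theorem c_pp_022 : CertB 0 536870912 1073741824 536870912 536870912 50465866 3 eng mog cd1q0 cd5q2 pd2 false true true .pp 0 2 2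
    ndB1q0 ndB5q2 pcB2 Cut.none Ext.none :=
  certB1 (fam := false) (s1 := true) (s2 := true) (a := 0) (b := 2) (c := 2) (cn := .pp) (n1 := ndB1q0) (n2 := ndB5q2) (pc := pcB2) (cut := Cut.none) (xt := Ext.none) (P1 := 0) (W1 := 536870912) (P2 := 1073741824) (W2 := 536870912) (P3 := 536870912) (W3 := 50465866) (N0 := 3) (En := eng) (mo := mog) (C1 := cd1q0) (C2 := cd5q2) (C3 := pd2)
    rfl (fun _ => rfl) s2_pp_022

noncomputable def f_pp_023 : ℕ → ℕ → ℕ → ℕ → Bool := onCell 1073741824 536870912 0 1230186008 536870912 50465866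
    (rowB 3 eng mog cd1q0 cd5q3 pd2 2 false true true .up 0 2 3 (qsf 0 536870912 0 1230186008 2) ndB1q0 ndB5q3 pcB2 Cut.none Ext.none)

def k0_pp_023 : ∃ t, chk3 f_pp_023 t 1 1 1 = true :=
  ⟨(b (a (l 2) (a (l 2) (a (b (l 2) (l 16762360)) (b (l 248672332551) (a (l 16763416) (l 16766000)))))) (b (a (a (l 2) (a (l 2) (b (l 2) (l 16727712)))) (a (b (a (l 2) (l 16764096)) (a (l 16733408) (l 16746560))) (a (b (l 16766872) (l 16748600)) (b (a (l 16763952) (l 16765248)) (a (l 16739888) (l 16735336)))))) (a (b (b (a (l 2) (a (a (l 2) (l 16713600)) (l 16699152))) (a (l 2) (a (a (a (l 137606642903) (a (l 16759920) (a (l 16712608) (b (l 2) (l 16703272))))) (l 16693576)) (l 16663112)))) (a (l 3) (a (a (a (b (l 209010446727) (l 3)) (a (b (l 16682680) (l 16582416)) (b (a (l 16673680) (l 16647160)) (a (l 16571200) (a (l 16575992) (l 16576392)))))) (b (l 16644376) (l 16581608))) (b (l 16596200) (l 16576904))))) (a (b (a (l 16672928) (l 16678816)) (b (l 16560936)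 (l 16616424))) (b (a (l 16682152) (b (l 16695920) (l 16639848))) (b (a (l 16552544) (l 16549264)) (l 16440648))))))), by decide +kernel⟩

theorem c_pp_023 : CertB 0 536870912 0 1230186008 536870912 50465866 3 eng mog cd1q0 cd5q3 pd2 false true true .up 0 2 3
    ndB1q0 ndB5q3 pcB2 Cut.none Ext.none :=
  certB2 (fam := false) (s1 := true) (s2 := true) (a := 0) (b := 2) (c := 3) (cn := .up) (n1 := ndB1q0) (n2 := ndB5q3) (pc := pcB2) (cut := Cut.none) (xt := Ext.none) (P1 := 0) (W1 := 536870912) (P2 := 0) (W2 := 1230186008) (P3 := 536870912) (W3 := 50465866) (N0 := 3) (En := eng) (mo := mog) (C1 := cd1q0) (C2 := cd5q3) (C3 := pd2)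
    rfl (fun _ => rfl) k0_pp_023

noncomputable def f_pp_033 : ℕ → ℕ → ℕ → ℕ → Bool := onCell 1610612736 536870912 0 1230186008 536870912 50465866
    (rowB 3 eng mog cd1q0 cd5q3 pd3 2 false true true .pnn 0 3 3 (qsf 0 536870912 0 1230186008 3) ndB1q0 ndB5q3 pcB3 Cut.none Ext.none)

def k0_pp_033 : ∃ t, chk3 f_pp_033 t 1 1 1 = true :=
  ⟨(b (b (a (a (a (l 16745864) (b (l 16738240) (l 16746032))) (a (l 16739536) (l 16733352))) (a (a (l 16726848) (l 4)) (l 4))) (a (a (a (a (l 16762256) (l 16765432)) (b (l 16755696) (l 16765640))) (a (b (l 16745816) (l 16753824)) (l 16786248))) (a (a (l 16739960) (a (l 16737488) (l 16737160))) (a (a (l 16735480) (l 4)) (l 4))))) (b (a (a (a (b (l 16787336) (l 16762160)) (b (l 16768096) (l 16740864))) (b (a (l 16757344) (l 16749616)) (a (l 16733672) (l 16728832)))) (a (a (b (l 16748912) (l 16733000)) (b (a (l 16757312) (l 16764264)) (a (l 16742920) (l 1)))) (b (a (a (l 16765448) (l 1)) (l 1)) (l 1)))) (a (b (a (b (a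 (l 16700008) (l 16695064)) (l 16627016)) (b (l 16689888) (l 68753175543))) (a (b (l 16512288) (l 71973298935)) (b (a (l 16497904) (l 1)) (l 1)))) (l 1)))), by decide +kernel⟩

theorem c_pp_033 : CertB 0 536870912 0 1230186008 536870912 50465866 3 eng mog cd1q0 cd5q3 pd3 false true true .pnn 0 3 3
    ndB1q0 ndB5q3 pcB3 Cut.none Ext.none :=
  certB2 (fam := false) (s1 := true) (s2 := true) (a := 0) (b := 3) (c := 3) (cn := .pnn) (n1 := ndB1q0) (n2 := ndB5q3) (pc := pcB3) (cut := Cut.none) (xt := Ext.none) (P1 := 0) (W1 := 536870912) (P2 := 0) (W2 := 1230186008) (P3 := 536870912) (W3 := 50465866) (N0 := 3) (En := eng) (mo := mog) (C1 := cd1q0) (C2 := cd5q3) (C3 := pd3)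
    rfl (fun _ => rfl) k0_pp_033

noncomputable def f_pp_101 : ℕ → ℕ → ℕ → ℕ → Bool := onCell 536870912 536870912 0 536870912 536870912 50465866
    (rowB 3 eng mog cd1q1 cd5q1 pd0 1 false true true .npn 1 0 1 (qsf 536870912 536870912 536870912 536870912 0) ndB1q1 ndB5q1 pcB0 Cut.none Ext.none)

def k0_pp_101 : ∃ t, chk3 f_pp_101 t 1 1 1 = true :=
  ⟨(l 3), by decide +kernel⟩

theorem c_pp_101 : CertB 536870912 536870912 536870912 536870912 536870912 50465866 3 eng mog cd1q1 cd5q1 pd0 false true true .npn 1 0 1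
    ndB1q1 ndB5q1 pcB0 Cut.none Ext.none :=
  certB1 (fam := false) (s1 := true) (s2 := true) (a := 1) (b := 0) (c := 1) (cn := .npn) (n1 := ndB1q1) (n2 := ndB5q1) (pc := pcB0) (cut := Cut.none) (xt := Ext.none) (P1 := 536870912) (W1 := 536870912) (P2 := 536870912) (W2 := 536870912) (P3 := 536870912) (W3 := 50465866) (N0 := 3) (En := eng) (mo := mog) (C1 := cd1q1) (C2 := cd5q1) (C3 := pd0)
    rfl (fun _ => rfl) k0_pp_101

noncomputable def f_pp_102 : ℕ → ℕ → ℕ → ℕ → Bool := onCell 536870912 536870912 1073741824 536870912 536870912 50465866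
    (rowB 3 eng mog cd1q1 cd5q2 pd0 0 false true true .npp 1 0 2 (qsf 536870912 536870912 1073741824 536870912 0) ndB1q1 ndB5q2 pcB0 Cut.none Ext.none)

def k0_pp_102 : ∃ t, chk3 f_pp_102 t 1 1 1 = true :=
  ⟨(l 3), by decide +kernel⟩

theorem c_pp_102 : CertB 536870912 536870912 1073741824 536870912 536870912 50465866 3 eng mog cd1q1 cd5q2 pd0 false true true .npp 1 0 2
    ndB1q1 ndB5q2 pcB0 Cut.none Ext.none :=
  certB0 (fam := false) (s1 := true) (s2 := true) (a := 1) (b := 0) (c := 2) (cn := .npp) (n1 := ndB1q1) (n2 := ndB5q2) (pc := pcB0) (cut := Cut.none) (xt := Ext.none) (P1 := 536870912) (W1 := 536870912) (P2 := 1073741824) (W2 := 536870912) (P3 := 536870912) (W3 := 50465866) (N0 := 3) (En := eng) (mo := mog) (C1 := cd1q1) (C2 := cd5q2) (C3 := pd0)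
    rfl k0_pp_102

noncomputable def f_pp_112 : ℕ → ℕ → ℕ → ℕ → Bool := onCell 536870912 536870912 1073741824 536870912 536870912 50465866
    (rowB 3 eng mog cd1q1 cd5q2 pd1 0 false true true .dn 1 1 2 (qsf 536870912 536870912 1073741824 536870912 1) ndB1q1 ndB5q2 pcB1 Cut.none Ext.none)

def k0_pp_112 : ∃ t, chk3 f_pp_112 t 1 1 1 = true :=
  ⟨(l 3), by decide +kernel⟩

theorem c_pp_112 : CertB 536870912 536870912 1073741824 536870912 536870912 50465866 3 eng mog cd1q1 cd5q2 pd1 false true true .dn 1 1 2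
    ndB1q1 ndB5q2 pcB1 Cut.none Ext.none :=
  certB0 (fam := false) (s1 := true) (s2 := true) (a := 1) (b := 1) (c := 2) (cn := .dn) (n1 := ndB1q1) (n2 := ndB5q2) (pc := pcB1) (cut := Cut.none) (xt := Ext.none) (P1 := 536870912) (W1 := 536870912) (P2 := 1073741824) (W2 := 536870912) (P3 := 536870912) (W3 := 50465866) (N0 := 3) (En := eng) (mo := mog) (C1 := cd1q1) (C2 := cd5q2) (C3 := pd1)
    rfl k0_pp_112

noncomputable def f_pp_113 : ℕ → ℕ → ℕ → ℕ → Bool := onCell 536870912 536870912 0 1230186008 536870912 50465866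
    (rowB 3 eng mog cd1q1 cd5q3 pd1 2 false true true .nn 1 1 3 (qsf 536870912 536870912 0 1230186008 1) ndB1q1 ndB5q3 pcB1 Cut.none Ext.none)

def k0_pp_113 : ∃ t, chk3 f_pp_113 t 1 1 1 = true :=
  ⟨(a (b (l 2) (b (l 3) (a (b (l 2) (l 3)) (l 3)))) (b (a (l 2) (b (a (l 2) (a (l 2) (b (b (l 978279745687) (l 1040019807591)) (a (l 3) (b (l 16786552) (l 3)))))) (l 3))) (b (l 3) (l 3)))), by decide +kernel⟩

theorem c_pp_113 : CertB 536870912 536870912 0 1230186008 536870912 50465866 3 eng mog cd1q1 cd5q3 pd1 false true true .nn 1 1 3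
    ndB1q1 ndB5q3 pcB1 Cut.none Ext.none :=
  certB2 (fam := false) (s1 := true) (s2 := true) (a := 1) (b := 1) (c := 3) (cn := .nn) (n1 := ndB1q1) (n2 := ndB5q3) (pc := pcB1) (cut := Cut.none) (xt := Ext.none) (P1 := 536870912) (W1 := 536870912) (P2 := 0) (W2 := 1230186008) (P3 := 536870912) (W3 := 50465866) (N0 := 3) (En := eng) (mo := mog) (C1 := cd1q1) (C2 := cd5q3) (C3 := pd1)
    rfl (fun _ => rfl) k0_pp_113

noncomputable def f_pp_123 : ℕ → ℕ → ℕ → ℕ → Bool := onCell 1073741824 536870912 0 1230186008 536870912 50465866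
    (rowB 3 eng mog cd1q1 cd5q3 pd2 2 false true true .npn 1 2 3 (qsf 536870912 536870912 0 1230186008 2) ndB1q1 ndB5q3 pcB2 Cut.none Ext.none)

def k0_pp_123 : ∃ t, chk3 f_pp_123 t 1 1 1 = true :=
  ⟨(b (b (a (a (b (a (l 16813872) (l 16764664)) (a (a (a (l 215453361783) (l 16789760)) (l 16783056)) (l 16770744))) (a (a (a (l 16761240) (l 16759488)) (l 16757744)) (l 16758888))) (a (a (l 16761344) (l 16760144)) (a (l 16755832) (l 16748552)))) (a (a (a (b (a (a (l 3) (l 348597155319)) (a (l 251423629303) (l 16805816))) (a (l 3) (a (l 3) (l 448992085335)))) (a (b (l 16796504) (a (l 336786099271) (l 16825576))) (b (l 16783536) (l 16918040)))) (a (a (a (l 16954560) (a (l 16844560) (a (l 16779024) (a (l 16798824) (l 16778664))))) (l 16773456)) (l 16765856))) (a (a (l 16766416) (l 16768728)) (a (l 16767792) (l 536904953863))))) (b (a (a (a (l 3) (a (b (a (l 416242865463) (b (l 16863952) (l 372219549783))) (l 3)) (b (a (b (l 16841128) (l 16851784)) (b (l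 16831528) (l 16848936))) (a (a (l 16890648) (l 16958096)) (a (l 16866864) (l 16853280)))))) (a (a (a (b (b (l 16821032) (l 16833248)) (b (l 16839264) (l 16829336))) (b (a (l 16817416) (a (l 16813056) (a (l 16812208) (l 16812856)))) (a (l 16816016) (a (l 16807080) (l 16907872))))) (b (l 16793664) (l 16781128))) (b (l 16763456) (l 16745304)))) (a (b (a (l 16760328) (l 16768192)) (a (l 16737920) (l 16750416))) (a (b (l 16770832) (l 1)) (l 1)))) (a (a (a (l 3) (a (l 3) (b (a (l 3) (l 396378894023)) (l 3)))) (a (a (a (b (b (l 16804656) (l 122574280951)) (b (l 429127599287) (l 1))) (b (a (b (l 16784088) (l 16757344)) (a (l 16803544) (b (l 16789408) (b (l 17000384) (l 16798824))))) (l 1))) (b (b (l 16746584) (l 16719976)) (l 1))) (b (b (l 16712152) (l 1)) (l 1)))) (l 1)))), by decide +kernel⟩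

theorem c_pp_123 : CertB 536870912 536870912 0 1230186008 536870912 50465866 3 eng mog cd1q1 cd5q3 pd2 false true true .npn 1 2 3
    ndB1q1 ndB5q3 pcB2 Cut.none Ext.none :=
  certB2 (fam := false) (s1 := true) (s2 := true) (a := 1) (b := 2) (c := 3) (cn := .npn) (n1 := ndB1q1) (n2 := ndB5q3) (pc := pcB2) (cut := Cut.none) (xt := Ext.none) (P1 := 536870912) (W1 := 536870912) (P2 := 0) (W2 := 1230186008) (P3 := 536870912) (W3 := 50465866) (N0 := 3) (En := eng) (mo := mog) (C1 := cd1q1) (C2 := cd5q3) (C3 := pd2)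
    rfl (fun _ => rfl) k0_pp_123

noncomputable def f_pp_133 : ℕ → ℕ → ℕ → ℕ → Bool := onCell 1610612736 536870912 0 1230186008 536870912 50465866
    (rowB 3 eng mog cd1q1 cd5q3 pd3 2 false true true .dn 1 3 3 (qsf 536870912 536870912 0 1230186008 3) ndB1q1 ndB5q3 pcB3 Cut.none Ext.none)

def k0_pp_133 : ∃ t, chk3 f_pp_133 t 1 1 1 = true :=
  ⟨(b (b (a (a (a (l 16748952) (l 1)) (l 1)) (l 1)) (l 1)) (l 1)), by decide +kernel⟩

theorem c_pp_133 : CertB 536870912 536870912 0 1230186008 536870912 50465866 3 eng mog cd1q1 cd5q3 pd3 false true true .dn 1 3 3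
    ndB1q1 ndB5q3 pcB3 Cut.none Ext.none :=
  certB2 (fam := false) (s1 := true) (s2 := true) (a := 1) (b := 3) (c := 3) (cn := .dn) (n1 := ndB1q1) (n2 := ndB5q3) (pc := pcB3) (cut := Cut.none) (xt := Ext.none) (P1 := 536870912) (W1 := 536870912) (P2 := 0) (W2 := 1230186008) (P3 := 536870912) (W3 := 50465866) (N0 := 3) (En := eng) (mo := mog) (C1 := cd1q1) (C2 := cd5q3) (C3 := pd3)
    rfl (fun _ => rfl) k0_pp_133

noncomputable def f_pp_202_a : ℕ → ℕ → ℕ → ℕ → Bool := onCell 0 536870912 1073741824 536870912 536870912 50465866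
    (rowB 3 eng mog cd1q2a cd5q2 pd0 0 false true true .pp 2 0 2 (qsf 0 536870912 1073741824 536870912 0) ndB1q2a ndB5q2 pcB0 Cut.none Ext.none)

def k0_pp_202_a : ∃ t, chk3 f_pp_202_a t 1 1 1 = true :=
  ⟨(l 5), by decide +kernel⟩

theorem c_pp_202_a : CertB 0 536870912 1073741824 536870912 536870912 50465866 3 eng mog cd1q2a cd5q2 pd0 false true true .pp 2 0 2
    ndB1q2a ndB5q2 pcB0 Cut.none Ext.none :=
  certB0 (fam := false) (s1 := true) (s2 := true) (a := 2) (b := 0) (c := 2) (cn := .pp) (n1 := ndB1q2a) (n2 := ndB5q2) (pc := pcB0) (cut := Cut.none) (xt := Ext.none) (P1 := 0) (W1 := 536870912) (P2 := 1073741824) (W2 := 536870912) (P3 := 536870912) (W3 := 50465866) (N0 := 3) (En := eng) (mo := mog) (C1 := cd1q2a) (C2 := cd5q2) (C3 := pd0)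
    rfl k0_pp_202_a

noncomputable def f_pp_202_b : ℕ → ℕ → ℕ → ℕ → Bool := onCell 1239849684 370763052 1073741824 536870912 536870912 50465866
    (rowB 3 eng mog cd1q2b cd5q2 pd0 0 false true true .pp 2 0 2 (qsf 1239849684 370763052 1073741824 536870912 0) ndB1q2b ndB5q2 pcB0 Cut.none Ext.none)

def k0_pp_202_b : ∃ t, chk3 f_pp_202_b t 1 1 1 = true :=
  ⟨(l 5), by decide +kernel⟩

theorem c_pp_202_b : CertB 1239849684 370763052 1073741824 536870912 536870912 50465866 3 eng mog cd1q2b cd5q2 pd0 false true true .pp 2 0 2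
    ndB1q2b ndB5q2 pcB0 Cut.none Ext.none :=
  certB0 (fam := false) (s1 := true) (s2 := true) (a := 2) (b := 0) (c := 2) (cn := .pp) (n1 := ndB1q2b) (n2 := ndB5q2) (pc := pcB0) (cut := Cut.none) (xt := Ext.none) (P1 := 1239849684) (W1 := 370763052) (P2 := 1073741824) (W2 := 536870912) (P3 := 536870912) (W3 := 50465866) (N0 := 3) (En := eng) (mo := mog) (C1 := cd1q2b) (C2 := cd5q2) (C3 := pd0)
    rfl k0_pp_202_b

noncomputable def f_pp_203_a : ℕ → ℕ → ℕ → ℕ → Bool := onCell 0 536870912 0 1230186008 536870912 50465866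
    (rowB 3 eng mog cd1q2a cd5q3 pd0 0 false true true .up 2 0 3 (qsf 0 536870912 0 1230186008 0) ndB1q2a ndB5q3 pcB0 Cut.none Ext.none)

def k0_pp_203_a : ∃ t, chk3 f_pp_203_a t 1 1 1 = true :=
  ⟨(b (l 2) (b (l 2) (l 3))), by decide +kernel⟩

theorem c_pp_203_a : CertB 0 536870912 0 1230186008 536870912 50465866 3 eng mog cd1q2a cd5q3 pd0 false true true .up 2 0 3
    ndB1q2a ndB5q3 pcB0 Cut.none Ext.none :=
  certB0 (fam := false) (s1 := true) (s2 := true) (a := 2) (b := 0) (c := 3) (cn := .up) (n1 := ndB1q2a) (n2 := ndB5q3) (pc := pcB0) (cut := Cut.none) (xt := Ext.none) (P1 := 0) (W1 := 536870912) (P2 := 0) (W2 := 1230186008) (P3 := 536870912) (W3 := 50465866) (N0 := 3) (En := eng) (mo := mog) (C1 := cd1q2a) (C2 := cd5q3) (C3 := pd0)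
    rfl k0_pp_203_a

noncomputable def f_pp_203_b : ℕ → ℕ → ℕ → ℕ → Bool := onCell 1239849684 370763052 0 1230186008 536870912 50465866
    (rowB 3 eng mog cd1q2b cd5q3 pd0 0 false true true .up 2 0 3 (qsf 1239849684 370763052 0 1230186008 0) ndB1q2b ndB5q3 pcB0 Cut.none Ext.none)

def k0_pp_203_b : ∃ t, chk3 f_pp_203_b t 1 1 1 = true :=
  ⟨(b (l 3) (l 5)), by decide +kernel⟩

theorem c_pp_203_b : CertB 1239849684 370763052 0 1230186008 536870912 50465866 3 eng mog cd1q2b cd5q3 pd0 false true true .up 2 0 3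
    ndB1q2b ndB5q3 pcB0 Cut.none Ext.none :=
  certB0 (fam := false) (s1 := true) (s2 := true) (a := 2) (b := 0) (c := 3) (cn := .up) (n1 := ndB1q2b) (n2 := ndB5q3) (pc := pcB0) (cut := Cut.none) (xt := Ext.none) (P1 := 1239849684) (W1 := 370763052) (P2 := 0) (W2 := 1230186008) (P3 := 536870912) (W3 := 50465866) (N0 := 3) (En := eng) (mo := mog) (C1 := cd1q2b) (C2 := cd5q3) (C3 := pd0)
    rfl k0_pp_203_b

noncomputable def cut_pp_213_a : Cut := Cut.of [[⟨0, 1, 0, 67108864⟩, ⟨1, 1, 0, 67108864⟩, ⟨2, 2, 0, 16777216⟩]]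

noncomputable def f_pp_213_a : ℕ → ℕ → ℕ → ℕ → Bool := onCell 0 536870912 0 1230186008 536870912 50465866
    (rowB 3 eng mog cd1q2a cd5q3 pd1 0 false true true .pnn 2 1 3 (qsf 0 536870912 0 1230186008 1) ndB1q2a ndB5q3 pcB1 cut_pp_213_a Ext.none)

def k0_pp_213_a : ∃ t, chk3 f_pp_213_a t 1 1 1 = true :=
  ⟨(b (a (l 3) (b (a (l 3) (a (l 3) (b (l 6) (l 3)))) (l 3))) (b (l 3) (l 3))), by decide +kernel⟩

theorem c_pp_213_a : CertB 0 536870912 0 1230186008 536870912 50465866 3 eng mog cd1q2a cd5q3 pd1 false true true .pnn 2 1 3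
    ndB1q2a ndB5q3 pcB1 cut_pp_213_a Ext.none :=
  certB0 (fam := false) (s1 := true) (s2 := true) (a := 2) (b := 1) (c := 3) (cn := .pnn) (n1 := ndB1q2a) (n2 := ndB5q3) (pc := pcB1) (cut := cut_pp_213_a) (xt := Ext.none) (P1 := 0) (W1 := 536870912) (P2 := 0) (W2 := 1230186008) (P3 := 536870912) (W3 := 50465866) (N0 := 3) (En := eng) (mo := mog) (C1 := cd1q2a) (C2 := cd5q3) (C3 := pd1)
    rfl k0_pp_213_a

noncomputable def cut_pp_213_b : Cut := Cut.of [[⟨0, 1, 0, 67108864⟩, ⟨1, 1, 0, 67108864⟩, ⟨2, 2, 0, 16777216⟩]]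

noncomputable def f_pp_213_b : ℕ → ℕ → ℕ → ℕ → Bool := onCell 1239849684 370763052 0 1230186008 536870912 50465866
    (rowB 3 eng mog cd1q2b cd5q3 pd1 0 false true true .pnn 2 1 3 (qsf 1239849684 370763052 0 1230186008 1) ndB1q2b ndB5q3 pcB1 cut_pp_213_b Ext.none)

def k0_pp_213_b : ∃ t, chk3 f_pp_213_b t 1 1 1 = true :=
  ⟨(b (l 3) (l 5)), by decide +kernel⟩

theorem c_pp_213_b : CertB 1239849684 370763052 0 1230186008 536870912 50465866 3 eng mog cd1q2b cd5q3 pd1 false true true .pnn 2 1 3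
    ndB1q2b ndB5q3 pcB1 cut_pp_213_b Ext.none :=
  certB0 (fam := false) (s1 := true) (s2 := true) (a := 2) (b := 1) (c := 3) (cn := .pnn) (n1 := ndB1q2b) (n2 := ndB5q3) (pc := pcB1) (cut := cut_pp_213_b) (xt := Ext.none) (P1 := 1239849684) (W1 := 370763052) (P2 := 0) (W2 := 1230186008) (P3 := 536870912) (W3 := 50465866) (N0 := 3) (En := eng) (mo := mog) (C1 := cd1q2b) (C2 := cd5q3) (C3 := pd1)
    rfl k0_pp_213_b

noncomputable def f_pp_303 : ℕ → ℕ → ℕ → ℕ → Bool := onCell 1610612736 536870912 0 1230186008 536870912 50465866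
    (rowB 3 eng mog cd1q3 cd5q3 pd0 0 false true true .npn 3 0 3 (qsf 1610612736 536870912 0 1230186008 0) ndB1q3 ndB5q3 pcB0 Cut.none Ext.none)

def k0_pp_303 : ∃ t, chk3 f_pp_303 t 1 1 1 = true :=
  ⟨(b (l 3) (l 5)), by decide +kernel⟩

theorem c_pp_303 : CertB 1610612736 536870912 0 1230186008 536870912 50465866 3 eng mog cd1q3 cd5q3 pd0 false true true .npn 3 0 3
    ndB1q3 ndB5q3 pcB0 Cut.none Ext.none :=
  certB0 (fam := false) (s1 := true) (s2 := true) (a := 3) (b := 0) (c := 3) (cn := .npn) (n1 := ndB1q3) (n2 := ndB5q3) (pc := pcB0) (cut := Cut.none) (xt := Ext.none) (P1 := 1610612736) (W1 := 536870912) (P2 := 0) (W2 := 1230186008) (P3 := 536870912) (W3 := 50465866) (N0 := 3) (En := eng) (mo := mog) (C1 := cd1q3) (C2 := cd5q3) (C3 := pd0)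
    rfl k0_pp_303

noncomputable def f_pp_313 : ℕ → ℕ → ℕ → ℕ → Bool := onCell 1610612736 536870912 0 1230186008 536870912 50465866
    (rowB 3 eng mog cd1q3 cd5q3 pd1 0 false true true .dn 3 1 3 (qsf 1610612736 536870912 0 1230186008 1) ndB1q3 ndB5q3 pcB1 Cut.none Ext.none)

def k0_pp_313 : ∃ t, chk3 f_pp_313 t 1 1 1 = true :=
  ⟨(b (l 3) (l 1)), by decide +kernel⟩

theorem c_pp_313 : CertB 1610612736 536870912 0 1230186008 536870912 50465866 3 eng mog cd1q3 cd5q3 pd1 false true true .dn 3 1 3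
    ndB1q3 ndB5q3 pcB1 Cut.none Ext.none :=
  certB0 (fam := false) (s1 := true) (s2 := true) (a := 3) (b := 1) (c := 3) (cn := .dn) (n1 := ndB1q3) (n2 := ndB5q3) (pc := pcB1) (cut := Cut.none) (xt := Ext.none) (P1 := 1610612736) (W1 := 536870912) (P2 := 0) (W2 := 1230186008) (P3 := 536870912) (W3 := 50465866) (N0 := 3) (En := eng) (mo := mog) (C1 := cd1q3) (C2 := cd5q3) (C3 := pd1)
    rfl k0_pp_313

noncomputable def f_pm_001 : ℕ → ℕ → ℕ → ℕ → Bool := onCell 0 536870912 536870912 536870912 536870912 50465866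
    (rowB 3 eng mog cd1q0 cd5q1 pd0 0 false true false .up 0 0 1 (qsf 0 536870912 536870912 536870912 0) ndB1q0 ndB5q1 pcB0 Cut.none Ext.none)

def k0_pm_001 : ∃ t, chk3 f_pm_001 t 1 1 1 = true :=
  ⟨(l 4), by decide +kernel⟩

theorem c_pm_001 : CertB 0 536870912 536870912 536870912 536870912 50465866 3 eng mog cd1q0 cd5q1 pd0 false true false .up 0 0 1
    ndB1q0 ndB5q1 pcB0 Cut.none Ext.none :=
  certB0 (fam := false) (s1 := true) (s2 := false) (a := 0) (b := 0) (c := 1) (cn := .up) (n1 := ndB1q0) (n2 := ndB5q1) (pc := pcB0) (cut := Cut.none) (xt := Ext.none) (P1 := 0) (W1 := 536870912) (P2 := 536870912) (W2 := 536870912) (P3 := 536870912) (W3 := 50465866) (N0 := 3) (En := eng) (mo := mog) (C1 := cd1q0) (C2 := cd5q1) (C3 := pd0)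
    rfl k0_pm_001

noncomputable def f_pm_011 : ℕ → ℕ → ℕ → ℕ → Bool := onCell 0 536870912 536870912 536870912 536870912 50465866
    (rowB 3 eng mog cd1q0 cd5q1 pd1 0 false true false .pnn 0 1 1 (qsf 0 536870912 536870912 536870912 1) ndB1q0 ndB5q1 pcB1 Cut.none Ext.none)

def k0_pm_011 : ∃ t, chk3 f_pm_011 t 1 1 1 = true :=
  ⟨(l 4), by decide +kernel⟩

theorem c_pm_011 : CertB 0 536870912 536870912 536870912 536870912 50465866 3 eng mog cd1q0 cd5q1 pd1 false true false .pnn 0 1 1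
    ndB1q0 ndB5q1 pcB1 Cut.none Ext.none :=
  certB0 (fam := false) (s1 := true) (s2 := false) (a := 0) (b := 1) (c := 1) (cn := .pnn) (n1 := ndB1q0) (n2 := ndB5q1) (pc := pcB1) (cut := Cut.none) (xt := Ext.none) (P1 := 0) (W1 := 536870912) (P2 := 536870912) (W2 := 536870912) (P3 := 536870912) (W3 := 50465866) (N0 := 3) (En := eng) (mo := mog) (C1 := cd1q0) (C2 := cd5q1) (C3 := pd1)
    rfl k0_pm_011

noncomputable def f_pm_012 : ℕ → ℕ → ℕ → ℕ → Bool := onCell 0 536870912 1073741824 536870912 536870912 50465866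
    (rowB 3 eng mog cd1q0 cd5q2 pd1 0 false true false .pnp 0 1 2 (qsf 0 536870912 1073741824 536870912 1) ndB1q0 ndB5q2 pcB1 Cut.none Ext.none)

def k0_pm_012 : ∃ t, chk3 f_pm_012 t 1 1 1 = true :=
  ⟨(l 4), by decide +kernel⟩

theorem c_pm_012 : CertB 0 536870912 1073741824 536870912 536870912 50465866 3 eng mog cd1q0 cd5q2 pd1 false true false .pnp 0 1 2
    ndB1q0 ndB5q2 pcB1 Cut.none Ext.none :=
  certB0 (fam := false) (s1 := true) (s2 := false) (a := 0) (b := 1) (c := 2) (cn := .pnp) (n1 := ndB1q0) (n2 := ndB5q2) (pc := pcB1) (cut := Cut.none) (xt := Ext.none) (P1 := 0) (W1 := 536870912) (P2 := 1073741824) (W2 := 536870912) (P3 := 536870912) (W3 := 50465866) (N0 := 3) (En := eng) (mo := mog) (C1 := cd1q0) (C2 := cd5q2) (C3 := pd1)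
    rfl k0_pm_012

noncomputable def f_pm_022 : ℕ → ℕ → ℕ → ℕ → Bool := onCell 0 536870912 1073741824 536870912 536870912 50465866
    (rowB 3 eng mog cd1q0 cd5q2 pd2 0 false true false .pp 0 2 2 (qsf 0 536870912 1073741824 536870912 2) ndB1q0 ndB5q2 pcB2 Cut.none Ext.none)

def k0_pm_022 : ∃ t, chk3 f_pm_022 t 1 1 1 = true :=
  ⟨(l 4), by decide +kernel⟩

theorem c_pm_022 : CertB 0 536870912 1073741824 536870912 536870912 50465866 3 eng mog cd1q0 cd5q2 pd2 false true false .pp 0 2 2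
    ndB1q0 ndB5q2 pcB2 Cut.none Ext.none :=
  certB0 (fam := false) (s1 := true) (s2 := false) (a := 0) (b := 2) (c := 2) (cn := .pp) (n1 := ndB1q0) (n2 := ndB5q2) (pc := pcB2) (cut := Cut.none) (xt := Ext.none) (P1 := 0) (W1 := 536870912) (P2 := 1073741824) (W2 := 536870912) (P3 := 536870912) (W3 := 50465866) (N0 := 3) (En := eng) (mo := mog) (C1 := cd1q0) (C2 := cd5q2) (C3 := pd2)
    rfl k0_pm_022

noncomputable def f_pm_023 : ℕ → ℕ → ℕ → ℕ → Bool := onCell 0 536870912 0 1230186008 536870912 50465866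
    (rowB 3 eng mog cd1q0 cd5q3 pd2 0 false true false .up 0 2 3 (qsf 0 536870912 0 1230186008 2) ndB1q0 ndB5q3 pcB2 Cut.none Ext.none)

def k0_pm_023 : ∃ t, chk3 f_pm_023 t 1 1 1 = true :=
  ⟨(a (b (l 2) (l 4)) (b (a (l 2) (b (a (l 2) (l 16884784)) (a (l 4) (l 95798151927)))) (l 4))), by decide +kernel⟩

theorem c_pm_023 : CertB 0 536870912 0 1230186008 536870912 50465866 3 eng mog cd1q0 cd5q3 pd2 false true false .up 0 2 3
    ndB1q0 ndB5q3 pcB2 Cut.none Ext.none :=
  certB0 (fam := false) (s1 := true) (s2 := false) (a := 0) (b := 2) (c := 3) (cn := .up) (n1 := ndB1q0) (n2 := ndB5q3) (pc := pcB2) (cut := Cut.none) (xt := Ext.none) (P1 := 0) (W1 := 536870912) (P2 := 0) (W2 := 1230186008) (P3 := 536870912) (W3 := 50465866) (N0 := 3) (En := eng) (mo := mog) (C1 := cd1q0) (C2 := cd5q3) (C3 := pd2)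
    rfl k0_pm_023

noncomputable def f_pm_033 : ℕ → ℕ → ℕ → ℕ → Bool := onCell 0 536870912 0 1230186008 536870912 50465866
    (rowB 3 eng mog cd1q0 cd5q3 pd3 0 false true false .pnn 0 3 3 (qsf 0 536870912 0 1230186008 3) ndB1q0 ndB5q3 pcB3 Cut.none Ext.none)

def k0_pm_033 : ∃ t, chk3 f_pm_033 t 1 1 1 = true :=
  ⟨(b (a (l 4) (a (b (a (l 4) (l 16734040)) (l 4)) (b (a (l 16737896) (l 16740392)) (b (b (l 16741192) (l 4)) (l 4))))) (l 4)), by decide +kernel⟩

theorem c_pm_033 : CertB 0 536870912 0 1230186008 536870912 50465866 3 eng mog cd1q0 cd5q3 pd3 false true false .pnn 0 3 3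
    ndB1q0 ndB5q3 pcB3 Cut.none Ext.none :=
  certB0 (fam := false) (s1 := true) (s2 := false) (a := 0) (b := 3) (c := 3) (cn := .pnn) (n1 := ndB1q0) (n2 := ndB5q3) (pc := pcB3) (cut := Cut.none) (xt := Ext.none) (P1 := 0) (W1 := 536870912) (P2 := 0) (W2 := 1230186008) (P3 := 536870912) (W3 := 50465866) (N0 := 3) (En := eng) (mo := mog) (C1 := cd1q0) (C2 := cd5q3) (C3 := pd3)
    rfl k0_pm_033

noncomputable def f_pm_101 : ℕ → ℕ → ℕ → ℕ → Bool := onCell 536870912 536870912 536870912 536870912 536870912 50465866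
    (rowB 3 eng mog cd1q1 cd5q1 pd0 0 false true false .npn 1 0 1 (qsf 536870912 536870912 536870912 536870912 0) ndB1q1 ndB5q1 pcB0 Cut.none Ext.none)

def k0_pm_101 : ∃ t, chk3 f_pm_101 t 1 1 1 = true :=
  ⟨(l 4), by decide +kernel⟩

theorem c_pm_101 : CertB 536870912 536870912 536870912 536870912 536870912 50465866 3 eng mog cd1q1 cd5q1 pd0 false true false .npn 1 0 1
    ndB1q1 ndB5q1 pcB0 Cut.none Ext.none :=
  certB0 (fam := false) (s1 := true) (s2 := false) (a := 1) (b := 0) (c := 1) (cn := .npn) (n1 := ndB1q1) (n2 := ndB5q1) (pc := pcB0) (cut := Cut.none) (xt := Ext.none) (P1 := 536870912) (W1 := 536870912) (P2 := 536870912) (W2 := 536870912) (P3 := 536870912) (W3 := 50465866) (N0 := 3) (En := eng) (mo := mog) (C1 := cd1q1) (C2 := cd5q1) (C3 := pd0)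
    rfl k0_pm_101

noncomputable def f_pm_102 : ℕ → ℕ → ℕ → ℕ → Bool := onCell 536870912 536870912 0 536870912 536870912 50465866
    (rowB 3 eng mog cd1q1 cd5q2 pd0 1 false true false .npp 1 0 2 (qsf 536870912 536870912 1073741824 536870912 0) ndB1q1 ndB5q2 pcB0 Cut.none Ext.none)

def k0_pm_102 : ∃ t, chk3 f_pm_102 t 1 1 1 = true :=
  ⟨(a (l 4) (a (l 4) (b (b (l 4) (a (l 4) (b (l 4) (l 16724992)))) (b (a (l 4) (b (a (l 4) (l 16817592)) (l 16861840))) (b (b (l 16837808) (l 16881144)) (a (l 16847064) (l 16984184))))))), by decide +kernel⟩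

theorem c_pm_102 : CertB 536870912 536870912 1073741824 536870912 536870912 50465866 3 eng mog cd1q1 cd5q2 pd0 false true false .npp 1 0 2
    ndB1q1 ndB5q2 pcB0 Cut.none Ext.none :=
  certB1 (fam := false) (s1 := true) (s2 := false) (a := 1) (b := 0) (c := 2) (cn := .npp) (n1 := ndB1q1) (n2 := ndB5q2) (pc := pcB0) (cut := Cut.none) (xt := Ext.none) (P1 := 536870912) (W1 := 536870912) (P2 := 1073741824) (W2 := 536870912) (P3 := 536870912) (W3 := 50465866) (N0 := 3) (En := eng) (mo := mog) (C1 := cd1q1) (C2 := cd5q2) (C3 := pd0)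
    rfl (fun _ => rfl) k0_pm_102

noncomputable def f_pm_112 : ℕ → ℕ → ℕ → ℕ → Bool := onCell 536870912 536870912 1073741824 536870912 536870912 50465866
    (rowB 3 eng mog cd1q1 cd5q2 pd1 2 false true false .dn 1 1 2 (qsf 536870912 536870912 1073741824 536870912 1) ndB1q1 ndB5q2 pcB1 Cut.none Ext.none)

def k0_pm_112 : ∃ t, chk3 f_pm_112 t 1 1 1 = true :=
  ⟨(b (l 4) (a (a (b (l 4) (a (l 17083952) (l 16828992))) (l 4)) (l 4))), by decide +kernel⟩

theorem c_pm_112 : CertB 536870912 536870912 1073741824 536870912 536870912 50465866 3 eng mog cd1q1 cd5q2 pd1 false true false .dn 1 1 2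
    ndB1q1 ndB5q2 pcB1 Cut.none Ext.none :=
  certB2 (fam := false) (s1 := true) (s2 := false) (a := 1) (b := 1) (c := 2) (cn := .dn) (n1 := ndB1q1) (n2 := ndB5q2) (pc := pcB1) (cut := Cut.none) (xt := Ext.none) (P1 := 536870912) (W1 := 536870912) (P2 := 1073741824) (W2 := 536870912) (P3 := 536870912) (W3 := 50465866) (N0 := 3) (En := eng) (mo := mog) (C1 := cd1q1) (C2 := cd5q2) (C3 := pd1)
    rfl (fun _ => rfl) k0_pm_112

noncomputable def f_pm_113 : ℕ → ℕ → ℕ → ℕ → Bool := onCell 536870912 536870912 0 1230186008 536870912 50465866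
    (rowB 3 eng mog cd1q1 cd5q3 pd1 0 false true false .nn 1 1 3 (qsf 536870912 536870912 0 1230186008 1) ndB1q1 ndB5q3 pcB1 Cut.none Ext.none)

def k0_pm_113 : ∃ t, chk3 f_pm_113 t 1 1 1 = true :=
  ⟨(b (a (l 2) (a (l 2) (b (a (l 2) (b (a (l 2) (l 16839064)) (l 16791472))) (a (b (l 16833992) (l 16860640)) (b (l 16814352) (l 16846480)))))) (b (a (a (l 2) (b (l 2) (a (l 2) (b (l 2) (l 16902192))))) (a (b (a (l 2) (l 16907552)) (a (l 16915048) (l 16912568))) (b (a (l 16885928) (l 16878880)) (a (l 17096952) (b (l 16901648) (l 16914888)))))) (a (b (l 4) (l 4)) (b (a (b (a (l 16902712) (l 16911104)) (a (l 16885464) (l 16905624))) (a (l 17151416) (a (l 16993344) (l 17087696)))) (a (a (l 4) (b (l 16899704) (l 16896624))) (b (a (l 16924680) (l 16960624)) (a (l 16938728) (b (l 16986192) (a (l 16970720) (l 17010600)))))))))), by decide +kernel⟩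

theorem c_pm_113 : CertB 536870912 536870912 0 1230186008 536870912 50465866 3 eng mog cd1q1 cd5q3 pd1 false true false .nn 1 1 3
    ndB1q1 ndB5q3 pcB1 Cut.none Ext.none :=
  certB0 (fam := false) (s1 := true) (s2 := false) (a := 1) (b := 1) (c := 3) (cn := .nn) (n1 := ndB1q1) (n2 := ndB5q3) (pc := pcB1) (cut := Cut.none) (xt := Ext.none) (P1 := 536870912) (W1 := 536870912) (P2 := 0) (W2 := 1230186008) (P3 := 536870912) (W3 := 50465866) (N0 := 3) (En := eng) (mo := mog) (C1 := cd1q1) (C2 := cd5q3) (C3 := pd1)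
    rfl k0_pm_113

noncomputable def f_pm_123 : ℕ → ℕ → ℕ → ℕ → Bool := onCell 1073741824 536870912 0 1230186008 536870912 50465866
    (rowB 3 eng mog cd1q1 cd5q3 pd2 2 false true false .npn 1 2 3 (qsf 536870912 536870912 0 1230186008 2) ndB1q1 ndB5q3 pcB2 Cut.none Ext.none)

def k0_pm_123 : ∃ t, chk3 f_pm_123 t 1 1 1 = true :=
  ⟨(b (b (a (a (a (b (l 16769936) (l 16780600)) (b (l 16760792) (l 16765904))) (a (b (l 16899464) (l 16755344)) (l 16752976))) (a (a (l 16749400) (l 16748888)) (a (b (l 16747800) (l 16746872)) (l 16746760)))) (a (a (b (l 16791992) (a (l 16839416) (l 16810992))) (a (b (l 16767592) (l 16789560)) (b (l 16764600) (l 16775576)))) (a (a (l 16770848) (l 16841456)) (l 16789144)))) (b (b (a (a (a (l 16878568) (l 16837800)) (a (l 16804376) (l 16774024))) (a (a (l 16749080) (l 4)) (l 4))) (a (a (a (l 16883064) (l 16821608)) (a (l 4) (l 4))) (l 4))) (a (a (l 4) (l 4)) (l 1)))), by decide +kernel⟩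

theorem c_pm_123 : CertB 536870912 536870912 0 1230186008 536870912 50465866 3 eng mog cd1q1 cd5q3 pd2 false true false .npn 1 2 3
    ndB1q1 ndB5q3 pcB2 Cut.none Ext.none :=
  certB2 (fam := false) (s1 := true) (s2 := false) (a := 1) (b := 2) (c := 3) (cn := .npn) (n1 := ndB1q1) (n2 := ndB5q3) (pc := pcB2) (cut := Cut.none) (xt := Ext.none) (P1 := 536870912) (W1 := 536870912) (P2 := 0) (W2 := 1230186008) (P3 := 536870912) (W3 := 50465866) (N0 := 3) (En := eng) (mo := mog) (C1 := cd1q1) (C2 := cd5q3) (C3 := pd2)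
    rfl (fun _ => rfl) k0_pm_123

noncomputable def f_pm_133 : ℕ → ℕ → ℕ → ℕ → Bool := onCell 1610612736 536870912 0 1230186008 536870912 50465866
    (rowB 3 eng mog cd1q1 cd5q3 pd3 2 false true false .dn 1 3 3 (qsf 536870912 536870912 0 1230186008 3) ndB1q1 ndB5q3 pcB3 Cut.none Ext.none)

def k0_pm_133 : ∃ t, chk3 f_pm_133 t 1 1 1 = true :=
  ⟨(b (b (a (a (l 16743048) (l 1)) (l 1)) (l 1)) (l 1)), by decide +kernel⟩

theorem c_pm_133 : CertB 536870912 536870912 0 1230186008 536870912 50465866 3 eng mog cd1q1 cd5q3 pd3 false true false .dn 1 3 3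
    ndB1q1 ndB5q3 pcB3 Cut.none Ext.none :=
  certB2 (fam := false) (s1 := true) (s2 := false) (a := 1) (b := 3) (c := 3) (cn := .dn) (n1 := ndB1q1) (n2 := ndB5q3) (pc := pcB3) (cut := Cut.none) (xt := Ext.none) (P1 := 536870912) (W1 := 536870912) (P2 := 0) (W2 := 1230186008) (P3 := 536870912) (W3 := 50465866) (N0 := 3) (En := eng) (mo := mog) (C1 := cd1q1) (C2 := cd5q3) (C3 := pd3)
    rfl (fun _ => rfl) k0_pm_133

noncomputable def f_pm_202_a : ℕ → ℕ → ℕ → ℕ → Bool := onCell 0 536870912 0 536870912 536870912 50465866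
    (rowB 3 eng mog cd1q2a cd5q2 pd0 1 false true false .pp 2 0 2 (qsf 0 536870912 1073741824 536870912 0) ndB1q2a ndB5q2 pcB0 Cut.none Ext.none)

def k0_pm_202_a : ∃ t, chk3 f_pm_202_a t 2 1 1 = true :=
  ⟨(b (b (b (a (b (a (b (l 16587744) (l 16592280)) (b (l 16613896) (l 16616160))) (a (l 16593216) (a (l 16617432) (l 16629016)))) (b (a (l 16640024) (l 16657320)) (a (l 16650776) (l 16671024)))) (b (a (l 16614112) (a (l 16658104) (l 16684992))) (a (l 16610936) (a (l 16668776) (l 16694896))))) (b (a (b (a (b (a (l 16565416) (l 16593008)) (a (l 16564512) (l 16585656))) (l 16627360)) (a (a (l 16548384) (l 16572584)) (b (l 16616648) (l 16600376)))) (a (l 16667616) (b (l 16706224) (l 16710064)))) (a (a (b (l 16570992) (a (l 16533776) (l 16543912))) (b (a (l 16577688) (l 16596672)) (l 16575288))) (a (b (l 16646480) (l 16608400)) (l 16697832))))) (b (a (b (b (a (a (l 16533720) (l 16547912)) (l 16553080)) (a (l 16547528) (b (l 16568048) (l 16576224)))) (a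 (b (a (l 16612640) (l 16570368)) (b (a (l 16561952) (l 16581784)) (l 2))) (b (l 16599880) (l 16618824)))) (b (b (a (l 16609736) (l 16666352)) (a (l 16603408) (l 16651360))) (a (a (l 16633448) (l 16658088)) (b (l 16677880) (l 16707664))))) (a (l 2) (b (a (l 2) (b (l 16738800) (l 2))) (l 2))))), by decide +kernel⟩

def k1_pm_202_a : ∃ t, chk3 f_pm_202_a t 3 1 1 = true :=
  ⟨(b (b (b (a (a (b (l 16665744) (l 16680984)) (b (a (b (l 16662360) (l 16669192)) (b (l 16659168) (l 16666360))) (a (l 16681768) (l 16679944)))) (a (b (b (a (l 16653736) (l 16646608)) (l 16658688)) (a (l 16677032) (l 16674424))) (b (a (b (b (l 16636320) (l 16641208)) (l 16650032)) (b (a (b (b (l 16628888) (l 16631344)) (l 16635824)) (a (b (b (l 16625064) (l 16628416)) (l 16634992)) (b (a (b (l 16621160) (l 16627960)) (b (l 16623944) (l 16629440))) (l 16638048)))) (a (l 16648752) (a (l 16652848) (l 16646616))))) (a (l 16674984) (a (l 16683480) (l 16588232)))))) (a (b (a (l 16699200)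 (a (l 16702464) (l 16703008))) (a (l 16717568) (l 16728352))) (a (b (a (l 16703840) (l 16707032)) (a (l 16735704) (l 16745336))) (a (l 16677976) (b (l 16705976) (l 16727528)))))) (a (b (b (l 16744632) (a (l 16742632) (l 16775344))) (a (l 16754224) (l 16795488))) (b (a (b (a (l 16769240) (l 16786408)) (l 16812128)) (b (a (l 16800872) (l 16749936)) (a (l 16831384) (l 16775976)))) (a (l 16856616) (b (l 16835480) (l 16869744)))))) (b (b (a (a (l 16737760) (b (l 16807632) (l 16812296))) (a (b (l 16885008) (l 16895184)) (b (l 16912128) (l 16961456)))) (a (b (l 16773656) (l 16816624)) (a (b (l 16931968) (l 16970856)) (l 17002856)))) (b (a (a (a (l 16795208) (l 16811616)) (l 16887616)) (a (l 17017256) (b (l 17028000) (l 17042608)))) (a (l 2) (a (l 17090528) (b (l 17036088) (l 17075144))))))), by decide +kernel⟩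

theorem s2_pm_202_a : ∃ t, chk3 f_pm_202_a t 1 1 1 = true := ex3_a k0_pm_202_a k1_pm_202_a

theorem c_pm_202_a : CertB 0 536870912 1073741824 536870912 536870912 50465866 3 eng mog cd1q2a cd5q2 pd0 false true false .pp 2 0 2
    ndB1q2a ndB5q2 pcB0 Cut.none Ext.none :=
  certB1 (fam := false) (s1 := true) (s2 := false) (a := 2) (b := 0) (c := 2) (cn := .pp) (n1 := ndB1q2a) (n2 := ndB5q2) (pc := pcB0) (cut := Cut.none) (xt := Ext.none) (P1 := 0) (W1 := 536870912) (P2 := 1073741824) (W2 := 536870912) (P3 := 536870912) (W3 := 50465866) (N0 := 3) (En := eng) (mo := mog) (C1 := cd1q2a) (C2 := cd5q2) (C3 := pd0)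
    rfl (fun _ => rfl) s2_pm_202_a

noncomputable def f_pm_202_b : ℕ → ℕ → ℕ → ℕ → Bool := onCell 0 536870912 1073741824 536870912 536870912 50465866
    (rowB 3 eng mog cd1q2b cd5q2 pd0 2 false true false .pp 2 0 2 (qsf 1239849684 370763052 1073741824 536870912 0) ndB1q2b ndB5q2 pcB0 Cut.none Ext.none)

def k0_pm_202_b : ∃ t, chk3 f_pm_202_b t 1 1 1 = true :=
  ⟨(a (b (a (b (l 1) (b (a (a (b (l 16613264) (l 16572968)) (b (l 1) (l 16666192))) (l 1)) (a (a (l 16489904) (l 248067439143)) (b (l 313566108519) (l 230350923527))))) (l 1)) (a (b (a (b (l 16355432) (l 16259432)) (b (b (l 16675824) (a (l 16401528) (l 16469744))) (a (l 16336936) (l 16509312)))) (a (a (b (l 16223080) (l 16243448)) (b (l 16315944) (l 16374840))) (b (a (b (l 16325504) (l 16325112)) (l 16539232)) (b (l 16352568) (l 16362600))))) (b (a (b (a (b (l 282964155127) (l 16551800)) (l 295849291111)) (a (l 16426720) (l 16482536))) (b (l 1) (b (l 232498569895) (l 252362454327)))) (a (b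 (b (l 16437200) (l 16434680)) (b (l 16435792) (l 16440728))) (b (l 16503648) (a (l 16489640) (l 16519112))))))) (a (b (l 1) (b (l 1) (a (b (b (l 81101252695) (l 240551385159)) (a (l 16542664) (l 16653528))) (b (l 1) (b (l 290480525671) (a (l 16569384) (l 16704696))))))) (l 1))), by decide +kernel⟩

theorem c_pm_202_b : CertB 1239849684 370763052 1073741824 536870912 536870912 50465866 3 eng mog cd1q2b cd5q2 pd0 false true false .pp 2 0 2
    ndB1q2b ndB5q2 pcB0 Cut.none Ext.none :=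
  certB2 (fam := false) (s1 := true) (s2 := false) (a := 2) (b := 0) (c := 2) (cn := .pp) (n1 := ndB1q2b) (n2 := ndB5q2) (pc := pcB0) (cut := Cut.none) (xt := Ext.none) (P1 := 1239849684) (W1 := 370763052) (P2 := 1073741824) (W2 := 536870912) (P3 := 536870912) (W3 := 50465866) (N0 := 3) (En := eng) (mo := mog) (C1 := cd1q2b) (C2 := cd5q2) (C3 := pd0)
    rfl (fun _ => rfl) k0_pm_202_b

noncomputable def f_pm_203_a : ℕ → ℕ → ℕ → ℕ → Bool := onCell 0 536870912 0 1230186008 536870912 50465866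
    (rowB 3 eng mog cd1q2a cd5q3 pd0 0 false true false .up 2 0 3 (qsf 0 536870912 0 1230186008 0) ndB1q2a ndB5q3 pcB0 Cut.none Ext.none)

def k0_pm_203_a : ∃ t, chk3 f_pm_203_a t 1 1 1 = true :=
  ⟨(b (l 2) (b (l 2) (a (b (b (l 2) (b (a (l 2) (l 2)) (a (a (a (l 3) (l 212768537655)) (a (l 16715984) (l 16714696))) (a (a (l 16720096) (l 16739424)) (l 16778456))))) (a (b (a (b (a (l 3) (l 181093282647)) (a (l 182703645255) (l 16646152))) (b (a (l 16687584) (l 16694544)) (a (l 16654400) (b (l 16675664) (l 16658768))))) (a (b (a (b (l 16621872) (l 16621816)) (b (l 16611936) (l 16583344))) (a (b (l 16619512) (l 16618960)) (b (l 16576320) (l 16581376)))) (b (a (b (l 16618688) (l 16590272)) (l 16620408)) (l 16565896)))) (b (a (l 16715704) (l 16784448)) (a (b (l 16673288) (l 16628256)) (b (l 16737272) (l 16697360)))))) (b (l 2) (a (b (a (l 16867360) (l 16983208)) (b (l 16876896) (a (l 16775976) (l 16875688)))) (b (a (l 17211680) (l 2)) (a (l 17272064) (b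 (l 17112488) (l 17113048))))))))), by decide +kernel⟩

theorem c_pm_203_a : CertB 0 536870912 0 1230186008 536870912 50465866 3 eng mog cd1q2a cd5q3 pd0 false true false .up 2 0 3
    ndB1q2a ndB5q3 pcB0 Cut.none Ext.none :=
  certB0 (fam := false) (s1 := true) (s2 := false) (a := 2) (b := 0) (c := 3) (cn := .up) (n1 := ndB1q2a) (n2 := ndB5q3) (pc := pcB0) (cut := Cut.none) (xt := Ext.none) (P1 := 0) (W1 := 536870912) (P2 := 0) (W2 := 1230186008) (P3 := 536870912) (W3 := 50465866) (N0 := 3) (En := eng) (mo := mog) (C1 := cd1q2a) (C2 := cd5q3) (C3 := pd0)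
    rfl k0_pm_203_a

noncomputable def f_pm_203_b : ℕ → ℕ → ℕ → ℕ → Bool := onCell 1239849684 370763052 0 1230186008 536870912 50465866
    (rowB 3 eng mog cd1q2b cd5q3 pd0 0 false true false .up 2 0 3 (qsf 1239849684 370763052 0 1230186008 0) ndB1q2b ndB5q3 pcB0 Cut.none Ext.none)

def k0_pm_203_b : ∃ t, chk3 f_pm_203_b t 1 1 1 = true :=
  ⟨(b (l 3) (b (l 3) (b (l 3) (b (a (l 3) (l 3)) (a (a (a (b (b (l 3) (a (l 16639768) (l 16633320))) (b (l 16674432) (l 16628776))) (b (l 3) (b (l 16612144) (l 16606480)))) (a (b (l 3) (l 126869156487)) (l 3))) (l 3)))))), by decide +kernel⟩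

theorem c_pm_203_b : CertB 1239849684 370763052 0 1230186008 536870912 50465866 3 eng mog cd1q2b cd5q3 pd0 false true false .up 2 0 3
    ndB1q2b ndB5q3 pcB0 Cut.none Ext.none :=
  certB0 (fam := false) (s1 := true) (s2 := false) (a := 2) (b := 0) (c := 3) (cn := .up) (n1 := ndB1q2b) (n2 := ndB5q3) (pc := pcB0) (cut := Cut.none) (xt := Ext.none) (P1 := 1239849684) (W1 := 370763052) (P2 := 0) (W2 := 1230186008) (P3 := 536870912) (W3 := 50465866) (N0 := 3) (En := eng) (mo := mog) (C1 := cd1q2b) (C2 := cd5q3) (C3 := pd0)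
    rfl k0_pm_203_b

noncomputable def cut_pm_213_a : Cut := Cut.of [[⟨0, 1, 0, 67108864⟩, ⟨1, 1, 0, 67108864⟩, ⟨2, 2, 0, 16777216⟩]]

noncomputable def f_pm_213_a : ℕ → ℕ → ℕ → ℕ → Bool := onCell 0 536870912 0 1230186008 536870912 50465866
    (rowB 3 eng mog cd1q2a cd5q3 pd1 0 false true false .pnn 2 1 3 (qsf 0 536870912 0 1230186008 1) ndB1q2a ndB5q3 pcB1 cut_pm_213_a Ext.none)

def k0_pm_213_a : ∃ t, chk3 f_pm_213_a t 1 2 1 = true :=
  ⟨(a (b (l 3) (l 3)) (b (a (l 3) (a (b (l 3) (b (a (l 3) (a (b (l 3) (l 334638359431)) (l 6))) (a (a (l 349670747383) (b (l 327122169815) (l 275045701351))) (b (a (l 260013339943) (l 16787024)) (l 16811840))))) (b (l 6) (b (b (l 6) (a (l 16806248) (l 16788168))) (a (l 16813048) (l 16794584)))))) (a (b (a (l 3) (b (a (l 3) (a (l 3) (b (l 3) (l 308331704519)))) (a (a (l 3) (b (l 3) (l 321216608791))) (b (a (l 314774114711) (l 16797192)) (a (l 264308239511) (l 16804072)))))) (a (b (a (l 3) (b (l 3) (a (l 3) (l 347523287015))))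 (a (b (l 3) (l 235854141671)) (b (l 263234564023) (l 16809032)))) (b (a (b (a (l 333564641127) (l 253033944855)) (l 248202228215)) (l 16856000)) (a (l 16820160) (l 16832904))))) (b (a (b (a (b (a (l 303499863863) (l 16793592)) (a (l 16795808) (l 16799440))) (b (l 16796296) (l 16802776))) (a (b (l 16804328) (l 16812288)) (l 16812592))) (a (b (l 16802512) (l 16814384)) (l 16811816))) (a (b (a (l 16823640) (l 16826032)) (a (l 16838088) (l 16839920))) (l 16838072)))))), by decide +kernel⟩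

def k1_pm_213_a : ∃ t, chk3 f_pm_213_a t 1 3 1 = true :=
  ⟨(b (a (b (a (l 3) (a (l 3) (b (a (l 3) (a (l 3) (b (l 3) (l 236391020311)))) (a (b (l 3) (b (l 318532255447) (l 247665321607))) (b (a (b (l 242296592151) (l 231022309687)) (b (l 16804760) (l 16810848))) (b (l 229948577191) (l 16819464))))))) (a (l 3) (a (b (a (l 3) (b (l 320679726279) (l 259476444711))) (a (b (l 336785836247) (l 255718435959)) (b (l 226190373079) (l 16794672)))) (b (a (b (a (l 294373068743) (l 16806488)) (l 16808792)) (b (l 16829840) (l 16842632))) (b (a (l 16816568) (l 16851336)) (a (l 16823976) (l 16857528))))))) (a (b (a (b (a (a (b (l 202031228807) (l 16808536)) (l 16833624)) (l 16826976)) (a (b (l 16825200) (l 16843904)) (l 16850976))) (b (a (l 16842416) (l 16847536)) (a (l 16855416) (l 16861424)))) (a (b (a (l 16865256) (l 16862128)) (l 16893712)) (b (l 16868496) (l 16886488)))) (b (a (l 16863136) (l 16871664)) (a (b (l 16882808) (l 16896744)) (b (l 16897120) (l 16908720))))))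 (a (b (a (b (a (l 3) (a (l 3) (b (l 224042911415) (l 181630238391)))) (a (b (l 3) (a (l 3) (l 215989762727))) (b (a (l 207936845175) (l 16745920)) (a (l 16785968) (l 16738632))))) (b (b (a (a (l 16772240) (l 16794648)) (l 16829848)) (a (a (l 16765192) (l 16786336)) (l 16832824))) (a (a (b (l 16763128) (l 16754928)) (b (l 16782736) (l 16778200))) (l 16827472)))) (a (l 1) (b (a (l 1) (l 16798024)) (l 1)))) (b (a (b (a (l 16926760) (l 16938544)) (a (l 16918248) (l 17034784))) (b (a (l 16926344) (l 16922112)) (a (l 16997824) (l 16958280)))) (a (b (a (l 16873608) (l 16996728)) (l 1)) (b (a (a (l 17114192) (l 17124536)) (l 17042176)) (a (b (l 17059744) (l 1)) (b (l 17123168) (l 17123976)))))))), by decide +kernel⟩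

theorem s2_pm_213_a : ∃ t, chk3 f_pm_213_a t 1 1 1 = true := ex3_b k0_pm_213_a k1_pm_213_a

theorem c_pm_213_a : CertB 0 536870912 0 1230186008 536870912 50465866 3 eng mog cd1q2a cd5q3 pd1 false true false .pnn 2 1 3
    ndB1q2a ndB5q3 pcB1 cut_pm_213_a Ext.none :=
  certB0 (fam := false) (s1 := true) (s2 := false) (a := 2) (b := 1) (c := 3) (cn := .pnn) (n1 := ndB1q2a) (n2 := ndB5q3) (pc := pcB1) (cut := cut_pm_213_a) (xt := Ext.none) (P1 := 0) (W1 := 536870912) (P2 := 0) (W2 := 1230186008) (P3 := 536870912) (W3 := 50465866) (N0 := 3) (En := eng) (mo := mog) (C1 := cd1q2a) (C2 := cd5q3) (C3 := pd1)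
    rfl s2_pm_213_a

noncomputable def cut_pm_213_b : Cut := Cut.of [[⟨0, 1, 0, 67108864⟩, ⟨1, 1, 0, 67108864⟩, ⟨2, 2, 0, 16777216⟩]]

noncomputable def f_pm_213_b : ℕ → ℕ → ℕ → ℕ → Bool := onCell 1239849684 370763052 0 1230186008 536870912 50465866
    (rowB 3 eng mog cd1q2b cd5q3 pd1 0 false true false .pnn 2 1 3 (qsf 1239849684 370763052 0 1230186008 1) ndB1q2b ndB5q3 pcB1 cut_pm_213_b Ext.none)

def k0_pm_213_b : ∃ t, chk3 f_pm_213_b t 1 1 1 = true :=
  ⟨(b (l 3) (b (l 3) (b (l 3) (l 1)))), by decide +kernel⟩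

theorem c_pm_213_b : CertB 1239849684 370763052 0 1230186008 536870912 50465866 3 eng mog cd1q2b cd5q3 pd1 false true false .pnn 2 1 3
    ndB1q2b ndB5q3 pcB1 cut_pm_213_b Ext.none :=
  certB0 (fam := false) (s1 := true) (s2 := false) (a := 2) (b := 1) (c := 3) (cn := .pnn) (n1 := ndB1q2b) (n2 := ndB5q3) (pc := pcB1) (cut := cut_pm_213_b) (xt := Ext.none) (P1 := 1239849684) (W1 := 370763052) (P2 := 0) (W2 := 1230186008) (P3 := 536870912) (W3 := 50465866) (N0 := 3) (En := eng) (mo := mog) (C1 := cd1q2b) (C2 := cd5q3) (C3 := pd1)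
    rfl k0_pm_213_b

noncomputable def f_pm_303 : ℕ → ℕ → ℕ → ℕ → Bool := onCell 1610612736 536870912 0 1230186008 536870912 50465866
    (rowB 3 eng mog cd1q3 cd5q3 pd0 0 false true false .npn 3 0 3 (qsf 1610612736 536870912 0 1230186008 0) ndB1q3 ndB5q3 pcB0 Cut.none Ext.none)

def k0_pm_303 : ∃ t, chk3 f_pm_303 t 1 1 1 = true :=
  ⟨(b (l 3) (b (l 3) (a (b (l 3) (l 3)) (l 1)))), by decide +kernel⟩

theorem c_pm_303 : CertB 1610612736 536870912 0 1230186008 536870912 50465866 3 eng mog cd1q3 cd5q3 pd0 false true false .npn 3 0 3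
    ndB1q3 ndB5q3 pcB0 Cut.none Ext.none :=
  certB0 (fam := false) (s1 := true) (s2 := false) (a := 3) (b := 0) (c := 3) (cn := .npn) (n1 := ndB1q3) (n2 := ndB5q3) (pc := pcB0) (cut := Cut.none) (xt := Ext.none) (P1 := 1610612736) (W1 := 536870912) (P2 := 0) (W2 := 1230186008) (P3 := 536870912) (W3 := 50465866) (N0 := 3) (En := eng) (mo := mog) (C1 := cd1q3) (C2 := cd5q3) (C3 := pd0)
    rfl k0_pm_303

noncomputable def f_pm_313 : ℕ → ℕ → ℕ → ℕ → Bool := onCell 1610612736 536870912 0 1230186008 536870912 50465866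
    (rowB 3 eng mog cd1q3 cd5q3 pd1 0 false true false .dn 3 1 3 (qsf 1610612736 536870912 0 1230186008 1) ndB1q3 ndB5q3 pcB1 Cut.none Ext.none)

def k0_pm_313 : ∃ t, chk3 f_pm_313 t 1 1 1 = true :=
  ⟨(b (l 3) (l 1)), by decide +kernel⟩

theorem c_pm_313 : CertB 1610612736 536870912 0 1230186008 536870912 50465866 3 eng mog cd1q3 cd5q3 pd1 false true false .dn 3 1 3
    ndB1q3 ndB5q3 pcB1 Cut.none Ext.none :=
  certB0 (fam := false) (s1 := true) (s2 := false) (a := 3) (b := 1) (c := 3) (cn := .dn) (n1 := ndB1q3) (n2 := ndB5q3) (pc := pcB1) (cut := Cut.none) (xt := Ext.none) (P1 := 1610612736) (W1 := 536870912) (P2 := 0) (W2 := 1230186008) (P3 := 536870912) (W3 := 50465866) (N0 := 3) (En := eng) (mo := mog) (C1 := cd1q3) (C2 := cd5q3) (C3 := pd1)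
    rfl k0_pm_313

noncomputable def f_mm_001 : ℕ → ℕ → ℕ → ℕ → Bool := onCell 0 536870912 0 536870912 536870912 50465866
    (rowB 3 eng mog cd1q0 cd5q1 pd0 1 false false false .up 0 0 1 (qsf 0 536870912 536870912 536870912 0) ndB1q0 ndB5q1 pcB0 Cut.none Ext.none)

def k0_mm_001 : ∃ t, chk3 f_mm_001 t 1 1 1 = true :=
  ⟨(l 3), by decide +kernel⟩

theorem c_mm_001 : CertB 0 536870912 536870912 536870912 536870912 50465866 3 eng mog cd1q0 cd5q1 pd0 false false false .up 0 0 1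
    ndB1q0 ndB5q1 pcB0 Cut.none Ext.none :=
  certB1 (fam := false) (s1 := false) (s2 := false) (a := 0) (b := 0) (c := 1) (cn := .up) (n1 := ndB1q0) (n2 := ndB5q1) (pc := pcB0) (cut := Cut.none) (xt := Ext.none) (P1 := 0) (W1 := 536870912) (P2 := 536870912) (W2 := 536870912) (P3 := 536870912) (W3 := 50465866) (N0 := 3) (En := eng) (mo := mog) (C1 := cd1q0) (C2 := cd5q1) (C3 := pd0)
    rfl (fun _ => rfl) k0_mm_001

noncomputable def f_mm_011 : ℕ → ℕ → ℕ → ℕ → Bool := onCell 0 536870912 536870912 536870912 536870912 50465866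
    (rowB 3 eng mog cd1q0 cd5q1 pd1 1 false false false .pnn 0 1 1 (qsf 0 536870912 536870912 536870912 1) ndB1q0 ndB5q1 pcB1 Cut.none Ext.none)

def k0_mm_011 : ∃ t, chk3 f_mm_011 t 1 1 1 = true :=
  ⟨(l 5), by decide +kernel⟩

theorem c_mm_011 : CertB 0 536870912 536870912 536870912 536870912 50465866 3 eng mog cd1q0 cd5q1 pd1 false false false .pnn 0 1 1
    ndB1q0 ndB5q1 pcB1 Cut.none Ext.none :=
  certB1 (fam := false) (s1 := false) (s2 := false) (a := 0) (b := 1) (c := 1) (cn := .pnn) (n1 := ndB1q0) (n2 := ndB5q1) (pc := pcB1) (cut := Cut.none) (xt := Ext.none) (P1 := 0) (W1 := 536870912) (P2 := 536870912) (W2 := 536870912) (P3 := 536870912) (W3 := 50465866) (N0 := 3) (En := eng) (mo := mog) (C1 := cd1q0) (C2 := cd5q1) (C3 := pd1)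
    rfl (fun _ => rfl) k0_mm_011

noncomputable def f_mm_012 : ℕ → ℕ → ℕ → ℕ → Bool := onCell 0 536870912 1073741824 536870912 536870912 50465866
    (rowB 3 eng mog cd1q0 cd5q2 pd1 0 false false false .pnp 0 1 2 (qsf 0 536870912 1073741824 536870912 1) ndB1q0 ndB5q2 pcB1 Cut.none Ext.none)

def k0_mm_012 : ∃ t, chk3 f_mm_012 t 1 1 1 = true :=
  ⟨(l 5), by decide +kernel⟩

theorem c_mm_012 : CertB 0 536870912 1073741824 536870912 536870912 50465866 3 eng mog cd1q0 cd5q2 pd1 false false false .pnp 0 1 2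
    ndB1q0 ndB5q2 pcB1 Cut.none Ext.none :=
  certB0 (fam := false) (s1 := false) (s2 := false) (a := 0) (b := 1) (c := 2) (cn := .pnp) (n1 := ndB1q0) (n2 := ndB5q2) (pc := pcB1) (cut := Cut.none) (xt := Ext.none) (P1 := 0) (W1 := 536870912) (P2 := 1073741824) (W2 := 536870912) (P3 := 536870912) (W3 := 50465866) (N0 := 3) (En := eng) (mo := mog) (C1 := cd1q0) (C2 := cd5q2) (C3 := pd1)
    rfl k0_mm_012

noncomputable def f_mm_022 : ℕ → ℕ → ℕ → ℕ → Bool := onCell 0 536870912 1073741824 536870912 536870912 50465866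
    (rowB 3 eng mog cd1q0 cd5q2 pd2 0 false false false .pp 0 2 2 (qsf 0 536870912 1073741824 536870912 2) ndB1q0 ndB5q2 pcB2 Cut.none Ext.none)

def k0_mm_022 : ∃ t, chk3 f_mm_022 t 1 1 1 = true :=
  ⟨(l 5), by decide +kernel⟩

theorem c_mm_022 : CertB 0 536870912 1073741824 536870912 536870912 50465866 3 eng mog cd1q0 cd5q2 pd2 false false false .pp 0 2 2
    ndB1q0 ndB5q2 pcB2 Cut.none Ext.none :=
  certB0 (fam := false) (s1 := false) (s2 := false) (a := 0) (b := 2) (c := 2) (cn := .pp) (n1 := ndB1q0) (n2 := ndB5q2) (pc := pcB2) (cut := Cut.none) (xt := Ext.none) (P1 := 0) (W1 := 536870912) (P2 := 1073741824) (W2 := 536870912) (P3 := 536870912) (W3 := 50465866) (N0 := 3) (En := eng) (mo := mog) (C1 := cd1q0) (C2 := cd5q2) (C3 := pd2)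
    rfl k0_mm_022

noncomputable def f_mm_023 : ℕ → ℕ → ℕ → ℕ → Bool := onCell 0 536870912 0 1230186008 536870912 50465866
    (rowB 3 eng mog cd1q0 cd5q3 pd2 0 false false false .up 0 2 3 (qsf 0 536870912 0 1230186008 2) ndB1q0 ndB5q3 pcB2 Cut.none Ext.none)

def k0_mm_023 : ∃ t, chk3 f_mm_023 t 1 1 1 = true :=
  ⟨(l 5), by decide +kernel⟩

theorem c_mm_023 : CertB 0 536870912 0 1230186008 536870912 50465866 3 eng mog cd1q0 cd5q3 pd2 false false false .up 0 2 3
    ndB1q0 ndB5q3 pcB2 Cut.none Ext.none :=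
  certB0 (fam := false) (s1 := false) (s2 := false) (a := 0) (b := 2) (c := 3) (cn := .up) (n1 := ndB1q0) (n2 := ndB5q3) (pc := pcB2) (cut := Cut.none) (xt := Ext.none) (P1 := 0) (W1 := 536870912) (P2 := 0) (W2 := 1230186008) (P3 := 536870912) (W3 := 50465866) (N0 := 3) (En := eng) (mo := mog) (C1 := cd1q0) (C2 := cd5q3) (C3 := pd2)
    rfl k0_mm_023

noncomputable def f_mm_033 : ℕ → ℕ → ℕ → ℕ → Bool := onCell 0 536870912 0 1230186008 536870912 50465866
    (rowB 3 eng mog cd1q0 cd5q3 pd3 0 false false false .pnn 0 3 3 (qsf 0 536870912 0 1230186008 3) ndB1q0 ndB5q3 pcB3 Cut.none Ext.none)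

def k0_mm_033 : ∃ t, chk3 f_mm_033 t 1 1 1 = true :=
  ⟨(l 5), by decide +kernel⟩

theorem c_mm_033 : CertB 0 536870912 0 1230186008 536870912 50465866 3 eng mog cd1q0 cd5q3 pd3 false false false .pnn 0 3 3
    ndB1q0 ndB5q3 pcB3 Cut.none Ext.none :=
  certB0 (fam := false) (s1 := false) (s2 := false) (a := 0) (b := 3) (c := 3) (cn := .pnn) (n1 := ndB1q0) (n2 := ndB5q3) (pc := pcB3) (cut := Cut.none) (xt := Ext.none) (P1 := 0) (W1 := 536870912) (P2 := 0) (W2 := 1230186008) (P3 := 536870912) (W3 := 50465866) (N0 := 3) (En := eng) (mo := mog) (C1 := cd1q0) (C2 := cd5q3) (C3 := pd3)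
    rfl k0_mm_033

noncomputable def f_mm_101 : ℕ → ℕ → ℕ → ℕ → Bool := onCell 536870912 536870912 0 536870912 536870912 50465866
    (rowB 3 eng mog cd1q1 cd5q1 pd0 1 false false false .npn 1 0 1 (qsf 536870912 536870912 536870912 536870912 0) ndB1q1 ndB5q1 pcB0 Cut.none Ext.none)

def k0_mm_101 : ∃ t, chk3 f_mm_101 t 1 1 1 = true :=
  ⟨(l 3), by decide +kernel⟩

theorem c_mm_101 : CertB 536870912 536870912 536870912 536870912 536870912 50465866 3 eng mog cd1q1 cd5q1 pd0 false false false .npn 1 0 1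
    ndB1q1 ndB5q1 pcB0 Cut.none Ext.none :=
  certB1 (fam := false) (s1 := false) (s2 := false) (a := 1) (b := 0) (c := 1) (cn := .npn) (n1 := ndB1q1) (n2 := ndB5q1) (pc := pcB0) (cut := Cut.none) (xt := Ext.none) (P1 := 536870912) (W1 := 536870912) (P2 := 536870912) (W2 := 536870912) (P3 := 536870912) (W3 := 50465866) (N0 := 3) (En := eng) (mo := mog) (C1 := cd1q1) (C2 := cd5q1) (C3 := pd0)
    rfl (fun _ => rfl) k0_mm_101

noncomputable def f_mm_102 : ℕ → ℕ → ℕ → ℕ → Bool := onCell 536870912 536870912 1073741824 536870912 536870912 50465866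
    (rowB 3 eng mog cd1q1 cd5q2 pd0 0 false false false .npp 1 0 2 (qsf 536870912 536870912 1073741824 536870912 0) ndB1q1 ndB5q2 pcB0 Cut.none Ext.none)

def k0_mm_102 : ∃ t, chk3 f_mm_102 t 1 1 1 = true :=
  ⟨(l 3), by decide +kernel⟩

theorem c_mm_102 : CertB 536870912 536870912 1073741824 536870912 536870912 50465866 3 eng mog cd1q1 cd5q2 pd0 false false false .npp 1 0 2
    ndB1q1 ndB5q2 pcB0 Cut.none Ext.none :=
  certB0 (fam := false) (s1 := false) (s2 := false) (a := 1) (b := 0) (c := 2) (cn := .npp) (n1 := ndB1q1) (n2 := ndB5q2) (pc := pcB0) (cut := Cut.none) (xt := Ext.none) (P1 := 536870912) (W1 := 536870912) (P2 := 1073741824) (W2 := 536870912) (P3 := 536870912) (W3 := 50465866) (N0 := 3) (En := eng) (mo := mog) (C1 := cd1q1) (C2 := cd5q2) (C3 := pd0)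
    rfl k0_mm_102

noncomputable def f_mm_112 : ℕ → ℕ → ℕ → ℕ → Bool := onCell 536870912 536870912 1073741824 536870912 536870912 50465866
    (rowB 3 eng mog cd1q1 cd5q2 pd1 0 false false false .dn 1 1 2 (qsf 536870912 536870912 1073741824 536870912 1) ndB1q1 ndB5q2 pcB1 Cut.none Ext.none)

def k0_mm_112 : ∃ t, chk3 f_mm_112 t 1 1 1 = true :=
  ⟨(l 3), by decide +kernel⟩

theorem c_mm_112 : CertB 536870912 536870912 1073741824 536870912 536870912 50465866 3 eng mog cd1q1 cd5q2 pd1 false false false .dn 1 1 2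
    ndB1q1 ndB5q2 pcB1 Cut.none Ext.none :=
  certB0 (fam := false) (s1 := false) (s2 := false) (a := 1) (b := 1) (c := 2) (cn := .dn) (n1 := ndB1q1) (n2 := ndB5q2) (pc := pcB1) (cut := Cut.none) (xt := Ext.none) (P1 := 536870912) (W1 := 536870912) (P2 := 1073741824) (W2 := 536870912) (P3 := 536870912) (W3 := 50465866) (N0 := 3) (En := eng) (mo := mog) (C1 := cd1q1) (C2 := cd5q2) (C3 := pd1)
    rfl k0_mm_112

noncomputable def f_mm_113 : ℕ → ℕ → ℕ → ℕ → Bool := onCell 536870912 536870912 0 1230186008 536870912 50465866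
    (rowB 3 eng mog cd1q1 cd5q3 pd1 0 false false false .nn 1 1 3 (qsf 536870912 536870912 0 1230186008 1) ndB1q1 ndB5q3 pcB1 Cut.none Ext.none)

def k0_mm_113 : ∃ t, chk3 f_mm_113 t 1 1 1 = true :=
  ⟨(b (l 5) (b (l 5) (a (l 5) (l 3)))), by decide +kernel⟩

theorem c_mm_113 : CertB 536870912 536870912 0 1230186008 536870912 50465866 3 eng mog cd1q1 cd5q3 pd1 false false false .nn 1 1 3
    ndB1q1 ndB5q3 pcB1 Cut.none Ext.none :=
  certB0 (fam := false) (s1 := false) (s2 := false) (a := 1) (b := 1) (c := 3) (cn := .nn) (n1 := ndB1q1) (n2 := ndB5q3) (pc := pcB1) (cut := Cut.none) (xt := Ext.none) (P1 := 536870912) (W1 := 536870912) (P2 := 0) (W2 := 1230186008) (P3 := 536870912) (W3 := 50465866) (N0 := 3) (En := eng) (mo := mog) (C1 := cd1q1) (C2 := cd5q3) (C3 := pd1)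
    rfl k0_mm_113

noncomputable def f_mm_123 : ℕ → ℕ → ℕ → ℕ → Bool := onCell 1073741824 536870912 0 1230186008 536870912 50465866
    (rowB 3 eng mog cd1q1 cd5q3 pd2 2 false false false .npn 1 2 3 (qsf 536870912 536870912 0 1230186008 2) ndB1q1 ndB5q3 pcB2 Cut.none Ext.none)

def k0_mm_123 : ∃ t, chk3 f_mm_123 t 1 1 1 = true :=
  ⟨(b (l 5) (l 5)), by decide +kernel⟩

theorem c_mm_123 : CertB 536870912 536870912 0 1230186008 536870912 50465866 3 eng mog cd1q1 cd5q3 pd2 false false false .npn 1 2 3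
    ndB1q1 ndB5q3 pcB2 Cut.none Ext.none :=
  certB2 (fam := false) (s1 := false) (s2 := false) (a := 1) (b := 2) (c := 3) (cn := .npn) (n1 := ndB1q1) (n2 := ndB5q3) (pc := pcB2) (cut := Cut.none) (xt := Ext.none) (P1 := 536870912) (W1 := 536870912) (P2 := 0) (W2 := 1230186008) (P3 := 536870912) (W3 := 50465866) (N0 := 3) (En := eng) (mo := mog) (C1 := cd1q1) (C2 := cd5q3) (C3 := pd2)
    rfl (fun _ => rfl) k0_mm_123

noncomputable def f_mm_133 : ℕ → ℕ → ℕ → ℕ → Bool := onCell 536870912 536870912 0 1230186008 536870912 50465866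
    (rowB 3 eng mog cd1q1 cd5q3 pd3 0 false false false .dn 1 3 3 (qsf 536870912 536870912 0 1230186008 3) ndB1q1 ndB5q3 pcB3 Cut.none Ext.none)

def k0_mm_133 : ∃ t, chk3 f_mm_133 t 1 1 1 = true :=
  ⟨(b (l 5) (l 1)), by decide +kernel⟩

theorem c_mm_133 : CertB 536870912 536870912 0 1230186008 536870912 50465866 3 eng mog cd1q1 cd5q3 pd3 false false false .dn 1 3 3
    ndB1q1 ndB5q3 pcB3 Cut.none Ext.none :=
  certB0 (fam := false) (s1 := false) (s2 := false) (a := 1) (b := 3) (c := 3) (cn := .dn) (n1 := ndB1q1) (n2 := ndB5q3) (pc := pcB3) (cut := Cut.none) (xt := Ext.none) (P1 := 536870912) (W1 := 536870912) (P2 := 0) (W2 := 1230186008) (P3 := 536870912) (W3 := 50465866) (N0 := 3) (En := eng) (mo := mog) (C1 := cd1q1) (C2 := cd5q3) (C3 := pd3)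
    rfl k0_mm_133

noncomputable def f_mm_202_a : ℕ → ℕ → ℕ → ℕ → Bool := onCell 0 536870912 0 536870912 536870912 50465866
    (rowB 3 eng mog cd1q2a cd5q2 pd0 1 false false false .pp 2 0 2 (qsf 0 536870912 1073741824 536870912 0) ndB1q2a ndB5q2 pcB0 Cut.none Ext.none)

def k0_mm_202_a : ∃ t, chk3 f_mm_202_a t 1 1 1 = true :=
  ⟨(a (b (b (a (b (a (b (a (b (l 16500160) (l 16496680)) (b (l 16460664) (a (b (l 16482280) (l 16459600)) (b (b (l 16476040) (a (l 16476528) (l 16472080))) (c (l 16473120) (l 16472816)))))) (a (b (a (l 16489208) (a (l 16485944) (l 16483800))) (a (b (l 16491416) (l 16489744)) (b (l 16479912) (l 16483816)))) (a (b (b (a (l 16481472) (l 16475640)) (l 16478560)) (a (l 16524392) (l 16481536))) (b (a (b (l 16476776) (l 16476656)) (l 16537472)) (a (l 16484912) (l 16488624)))))) (a (b (b (a (b (l 16469816) (a (l 16471224) (l 16499864))) (b (l 16535384) (l 116668243543))) (b (a (a (b (l 16471976) (l 16474120)) (b (a (l 16472888) (l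 16471064)) (l 16472968))) (l 125258149431)) (l 126331927847))) (b (b (l 123647611431) (l 115057618423)) (l 122573924455))) (l 3))) (a (b (a (b (a (l 16525576) (l 16549576)) (a (l 16493800) (l 16501992))) (a (b (l 16515200) (c (l 16572312) (l 16571464))) (b (l 125794973895) (l 111836544167)))) (a (b (a (l 16509504) (a (l 16557376) (l 16519480))) (a (a (l 16522440) (l 16526752)) (a (l 16531240) (l 16535448)))) (a (b (l 113984031927) (a (l 16539376) (l 3))) (l 3)))) (l 3))) (l 3)) (a (b (a (a (b (b (b (a (l 16536184) (l 16545136)) (l 116131566119)) (a (a (l 16553408) (l 16558032)) (l 3))) (a (b (l 16591520) (l 3)) (l 3))) (l 3)) (l 3)) (l 3)) (l 3))) (l 3)) (l 3)), by decide +kernel⟩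

theorem c_mm_202_a : CertB 0 536870912 1073741824 536870912 536870912 50465866 3 eng mog cd1q2a cd5q2 pd0 false false false .pp 2 0 2
    ndB1q2a ndB5q2 pcB0 Cut.none Ext.none :=
  certB1 (fam := false) (s1 := false) (s2 := false) (a := 2) (b := 0) (c := 2) (cn := .pp) (n1 := ndB1q2a) (n2 := ndB5q2) (pc := pcB0) (cut := Cut.none) (xt := Ext.none) (P1 := 0) (W1 := 536870912) (P2 := 1073741824) (W2 := 536870912) (P3 := 536870912) (W3 := 50465866) (N0 := 3) (En := eng) (mo := mog) (C1 := cd1q2a) (C2 := cd5q2) (C3 := pd0)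
    rfl (fun _ => rfl) k0_mm_202_a

noncomputable def f_mm_202_b : ℕ → ℕ → ℕ → ℕ → Bool := onCell 1239849684 370763052 0 536870912 536870912 50465866
    (rowB 3 eng mog cd1q2b cd5q2 pd0 1 false false false .pp 2 0 2 (qsf 1239849684 370763052 1073741824 536870912 0) ndB1q2b ndB5q2 pcB0 Cut.none Ext.none)

def k0_mm_202_b : ∃ t, chk3 f_mm_202_b t 1 1 1 = true :=
  ⟨(b (b (a (b (a (b (a (b (a (l 16485952) (l 16433832)) (l 16430192)) (b (l 16340128) (l 16414632))) (b (a (b (l 16479072) (l 16478024)) (a (b (l 16376600) (l 16384592)) (l 16440880))) (a (b (l 16482904) (l 16559608)) (a (b (l 16393144) (l 16401848)) (l 16417848))))) (b (a (b (l 16432888) (b (l 16447384) (l 16395256))) (b (l 66202165895) (l 16275216))) (a (b (a (a (l 16487952) (l 16331824)) (l 16319648)) (a (l 16420544) (l 3))) (l 3)))) (a (b (a (b (b (l 16530192) (l 16558512)) (a (l 16477480) (l 16454704))) (a (b (l 16415368) (l 16433760)) (b (b (l 16390648) (l 16400616)) (l 16415632))))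 (a (b (a (l 16493744) (l 16492840)) (a (l 16614448) (l 16489240))) (b (l 71571103783) (l 63518097959)))) (b (a (l 64591754055) (l 3)) (l 3)))) (b (l 3) (l 3))) (a (b (a (a (b (b (a (a (l 16530360) (l 16520760)) (l 70497487383)) (a (l 16541568) (a (l 3) (l 3)))) (b (a (l 16556880) (l 3)) (l 3))) (l 3)) (l 3)) (l 3)) (l 3))) (b (a (l 3) (l 2)) (l 2))), by decide +kernel⟩

theorem c_mm_202_b : CertB 1239849684 370763052 1073741824 536870912 536870912 50465866 3 eng mog cd1q2b cd5q2 pd0 false false false .pp 2 0 2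
    ndB1q2b ndB5q2 pcB0 Cut.none Ext.none :=
  certB1 (fam := false) (s1 := false) (s2 := false) (a := 2) (b := 0) (c := 2) (cn := .pp) (n1 := ndB1q2b) (n2 := ndB5q2) (pc := pcB0) (cut := Cut.none) (xt := Ext.none) (P1 := 1239849684) (W1 := 370763052) (P2 := 1073741824) (W2 := 536870912) (P3 := 536870912) (W3 := 50465866) (N0 := 3) (En := eng) (mo := mog) (C1 := cd1q2b) (C2 := cd5q2) (C3 := pd0)
    rfl (fun _ => rfl) k0_mm_202_b

noncomputable def f_mm_203_a : ℕ → ℕ → ℕ → ℕ → Bool := onCell 0 536870912 0 1230186008 536870912 50465866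
    (rowB 3 eng mog cd1q2a cd5q3 pd0 0 false false false .up 2 0 3 (qsf 0 536870912 0 1230186008 0) ndB1q2a ndB5q3 pcB0 Cut.none Ext.none)

def k0_mm_203_a : ∃ t, chk3 f_mm_203_a t 1 1 1 = true :=
  ⟨(b (l 2) (b (l 2) (l 3))), by decide +kernel⟩

theorem c_mm_203_a : CertB 0 536870912 0 1230186008 536870912 50465866 3 eng mog cd1q2a cd5q3 pd0 false false false .up 2 0 3
    ndB1q2a ndB5q3 pcB0 Cut.none Ext.none :=
  certB0 (fam := false) (s1 := false) (s2 := false) (a := 2) (b := 0) (c := 3) (cn := .up) (n1 := ndB1q2a) (n2 := ndB5q3) (pc := pcB0) (cut := Cut.none) (xt := Ext.none) (P1 := 0) (W1 := 536870912) (P2 := 0) (W2 := 1230186008) (P3 := 536870912) (W3 := 50465866) (N0 := 3) (En := eng) (mo := mog) (C1 := cd1q2a) (C2 := cd5q3) (C3 := pd0)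
    rfl k0_mm_203_a

noncomputable def f_mm_203_b : ℕ → ℕ → ℕ → ℕ → Bool := onCell 1239849684 370763052 0 1230186008 536870912 50465866
    (rowB 3 eng mog cd1q2b cd5q3 pd0 0 false false false .up 2 0 3 (qsf 1239849684 370763052 0 1230186008 0) ndB1q2b ndB5q3 pcB0 Cut.none Ext.none)

def k0_mm_203_b : ∃ t, chk3 f_mm_203_b t 1 1 1 = true :=
  ⟨(b (l 3) (b (l 3) (l 3))), by decide +kernel⟩

theorem c_mm_203_b : CertB 1239849684 370763052 0 1230186008 536870912 50465866 3 eng mog cd1q2b cd5q3 pd0 false false false .up 2 0 3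
    ndB1q2b ndB5q3 pcB0 Cut.none Ext.none :=
  certB0 (fam := false) (s1 := false) (s2 := false) (a := 2) (b := 0) (c := 3) (cn := .up) (n1 := ndB1q2b) (n2 := ndB5q3) (pc := pcB0) (cut := Cut.none) (xt := Ext.none) (P1 := 1239849684) (W1 := 370763052) (P2 := 0) (W2 := 1230186008) (P3 := 536870912) (W3 := 50465866) (N0 := 3) (En := eng) (mo := mog) (C1 := cd1q2b) (C2 := cd5q3) (C3 := pd0)
    rfl k0_mm_203_b

noncomputable def f_mm_213_a : ℕ → ℕ → ℕ → ℕ → Bool := onCell 0 536870912 0 1230186008 536870912 50465866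
    (rowB 3 eng mog cd1q2a cd5q3 pd1 0 false false false .pnn 2 1 3 (qsf 0 536870912 0 1230186008 1) ndB1q2a ndB5q3 pcB1 Cut.none Ext.none)

def k0_mm_213_a : ∃ t, chk3 f_mm_213_a t 1 1 1 = true :=
  ⟨(b (a (l 3) (l 5)) (b (l 3) (l 3))), by decide +kernel⟩

theorem c_mm_213_a : CertB 0 536870912 0 1230186008 536870912 50465866 3 eng mog cd1q2a cd5q3 pd1 false false false .pnn 2 1 3
    ndB1q2a ndB5q3 pcB1 Cut.none Ext.none :=
  certB0 (fam := false) (s1 := false) (s2 := false) (a := 2) (b := 1) (c := 3) (cn := .pnn) (n1 := ndB1q2a) (n2 := ndB5q3) (pc := pcB1) (cut := Cut.none) (xt := Ext.none) (P1 := 0) (W1 := 536870912) (P2 := 0) (W2 := 1230186008) (P3 := 536870912) (W3 := 50465866) (N0 := 3) (En := eng) (mo := mog) (C1 := cd1q2a) (C2 := cd5q3) (C3 := pd1)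
    rfl k0_mm_213_a

noncomputable def f_mm_213_b : ℕ → ℕ → ℕ → ℕ → Bool := onCell 1239849684 370763052 0 1230186008 536870912 50465866
    (rowB 3 eng mog cd1q2b cd5q3 pd1 0 false false false .pnn 2 1 3 (qsf 1239849684 370763052 0 1230186008 1) ndB1q2b ndB5q3 pcB1 Cut.none Ext.none)

def k0_mm_213_b : ∃ t, chk3 f_mm_213_b t 1 1 1 = true :=
  ⟨(b (l 3) (b (l 3) (l 3))), by decide +kernel⟩

theorem c_mm_213_b : CertB 1239849684 370763052 0 1230186008 536870912 50465866 3 eng mog cd1q2b cd5q3 pd1 false false false .pnn 2 1 3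
    ndB1q2b ndB5q3 pcB1 Cut.none Ext.none :=
  certB0 (fam := false) (s1 := false) (s2 := false) (a := 2) (b := 1) (c := 3) (cn := .pnn) (n1 := ndB1q2b) (n2 := ndB5q3) (pc := pcB1) (cut := Cut.none) (xt := Ext.none) (P1 := 1239849684) (W1 := 370763052) (P2 := 0) (W2 := 1230186008) (P3 := 536870912) (W3 := 50465866) (N0 := 3) (En := eng) (mo := mog) (C1 := cd1q2b) (C2 := cd5q3) (C3 := pd1)
    rfl k0_mm_213_b

noncomputable def f_mm_303 : ℕ → ℕ → ℕ → ℕ → Bool := onCell 0 536870912 0 1230186008 536870912 50465866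
    (rowB 3 eng mog cd1q3 cd5q3 pd0 2 false false false .npn 3 0 3 (qsf 1610612736 536870912 0 1230186008 0) ndB1q3 ndB5q3 pcB0 Cut.none Ext.none)

def k0_mm_303 : ∃ t, chk3 f_mm_303 t 1 1 1 = true :=
  ⟨(b (l 3) (a (l 3) (l 3))), by decide +kernel⟩

theorem c_mm_303 : CertB 1610612736 536870912 0 1230186008 536870912 50465866 3 eng mog cd1q3 cd5q3 pd0 false false false .npn 3 0 3
    ndB1q3 ndB5q3 pcB0 Cut.none Ext.none :=
  certB2 (fam := false) (s1 := false) (s2 := false) (a := 3) (b := 0) (c := 3) (cn := .npn) (n1 := ndB1q3) (n2 := ndB5q3) (pc := pcB0) (cut := Cut.none) (xt := Ext.none) (P1 := 1610612736) (W1 := 536870912) (P2 := 0) (W2 := 1230186008) (P3 := 536870912) (W3 := 50465866) (N0 := 3) (En := eng) (mo := mog) (C1 := cd1q3) (C2 := cd5q3) (C3 := pd0)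
    rfl (fun _ => rfl) k0_mm_303

noncomputable def f_mm_313 : ℕ → ℕ → ℕ → ℕ → Bool := onCell 1610612736 536870912 0 1230186008 536870912 50465866
    (rowB 3 eng mog cd1q3 cd5q3 pd1 0 false false false .dn 3 1 3 (qsf 1610612736 536870912 0 1230186008 1) ndB1q3 ndB5q3 pcB1 Cut.none Ext.none)

def k0_mm_313 : ∃ t, chk3 f_mm_313 t 1 1 1 = true :=
  ⟨(b (l 3) (l 1)), by decide +kernel⟩

theorem c_mm_313 : CertB 1610612736 536870912 0 1230186008 536870912 50465866 3 eng mog cd1q3 cd5q3 pd1 false false false .dn 3 1 3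
    ndB1q3 ndB5q3 pcB1 Cut.none Ext.none :=
  certB0 (fam := false) (s1 := false) (s2 := false) (a := 3) (b := 1) (c := 3) (cn := .dn) (n1 := ndB1q3) (n2 := ndB5q3) (pc := pcB1) (cut := Cut.none) (xt := Ext.none) (P1 := 1610612736) (W1 := 536870912) (P2 := 0) (W2 := 1230186008) (P3 := 536870912) (W3 := 50465866) (N0 := 3) (En := eng) (mo := mog) (C1 := cd1q3) (C2 := cd5q3) (C3 := pd1)
    rfl k0_mm_313

end Pool.Agent.Strip051.G.I5000_5470.Tab.C.BB15

namespace Pool.Agent.Strip051.G.I5000_5470.Tab.C.BB16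

open Pool.Agent.Strip051.PB Pool.Agent.Strip051.PB.T
open Pool.Agent.Strip051.G.I5000_5470.Tab

noncomputable def f_pp_001 : ℕ → ℕ → ℕ → ℕ → Bool := onCell 0 536870912 0 536870912 536870912 50465866
    (rowB 3 eng mog cd1q0 cd6q1 pd0 1 false true true .up 0 0 1 (qsf 0 536870912 536870912 536870912 0) ndB1q0 ndB6q1 pcB0 Cut.none Ext.none)

def k0_pp_001 : ∃ t, chk3 f_pp_001 t 1 1 1 = true :=
  ⟨(l 3), by decide +kernel⟩

theorem c_pp_001 : CertB 0 536870912 536870912 536870912 536870912 50465866 3 eng mog cd1q0 cd6q1 pd0 false true true .up 0 0 1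
    ndB1q0 ndB6q1 pcB0 Cut.none Ext.none :=
  certB1 (fam := false) (s1 := true) (s2 := true) (a := 0) (b := 0) (c := 1) (cn := .up) (n1 := ndB1q0) (n2 := ndB6q1) (pc := pcB0) (cut := Cut.none) (xt := Ext.none) (P1 := 0) (W1 := 536870912) (P2 := 536870912) (W2 := 536870912) (P3 := 536870912) (W3 := 50465866) (N0 := 3) (En := eng) (mo := mog) (C1 := cd1q0) (C2 := cd6q1) (C3 := pd0)
    rfl (fun _ => rfl) k0_pp_001

noncomputable def cut_pp_011 : Cut := Cut.of [[⟨0, 0, 0, 67108864⟩, ⟨1, 1, 0, 67108864⟩, ⟨2, 1, 0, 67108864⟩]]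

noncomputable def f_pp_011 : ℕ → ℕ → ℕ → ℕ → Bool := onCell 0 536870912 536870912 536870912 536870912 50465866
    (rowB 3 eng mog cd1q0 cd6q1 pd1 1 false true true .pnn 0 1 1 (qsf 0 536870912 536870912 536870912 1) ndB1q0 ndB6q1 pcB1 cut_pp_011 Ext.none)

def k0_pp_011 : ∃ t, chk3 f_pp_011 t 1 1 1 = true :=
  ⟨(b (l 3) (b (l 3) (a (b (l 3) (a (a (b (l 3) (a (l 6) (l 3))) (l 3)) (l 2))) (l 2)))), by decide +kernel⟩

theorem c_pp_011 : CertB 0 536870912 536870912 536870912 536870912 50465866 3 eng mog cd1q0 cd6q1 pd1 false true true .pnn 0 1 1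
    ndB1q0 ndB6q1 pcB1 cut_pp_011 Ext.none :=
  certB1 (fam := false) (s1 := true) (s2 := true) (a := 0) (b := 1) (c := 1) (cn := .pnn) (n1 := ndB1q0) (n2 := ndB6q1) (pc := pcB1) (cut := cut_pp_011) (xt := Ext.none) (P1 := 0) (W1 := 536870912) (P2 := 536870912) (W2 := 536870912) (P3 := 536870912) (W3 := 50465866) (N0 := 3) (En := eng) (mo := mog) (C1 := cd1q0) (C2 := cd6q1) (C3 := pd1)
    rfl (fun _ => rfl) k0_pp_011

noncomputable def cut_pp_012 : Cut := Cut.of [[⟨0, 0, 0, 67108864⟩, ⟨1, 1, 0, 67108864⟩, ⟨2, 1, 0, 67108864⟩]]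

noncomputable def f_pp_012 : ℕ → ℕ → ℕ → ℕ → Bool := onCell 0 536870912 536870912 536870912 536870912 50465866
    (rowB 3 eng mog cd1q0 cd6q2 pd1 1 false true true .pnp 0 1 2 (qsf 0 536870912 1073741824 536870912 1) ndB1q0 ndB6q2 pcB1 cut_pp_012 Ext.none)

def k0_pp_012 : ∃ t, chk3 f_pp_012 t 1 1 1 = true :=
  ⟨(b (l 3) (a (b (l 3) (b (l 3) (a (a (a (b (l 3) (l 6)) (l 3)) (l 3)) (l 3)))) (l 3))), by decide +kernel⟩

theorem c_pp_012 : CertB 0 536870912 1073741824 536870912 536870912 50465866 3 eng mog cd1q0 cd6q2 pd1 false true true .pnp 0 1 2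
    ndB1q0 ndB6q2 pcB1 cut_pp_012 Ext.none :=
  certB1 (fam := false) (s1 := true) (s2 := true) (a := 0) (b := 1) (c := 2) (cn := .pnp) (n1 := ndB1q0) (n2 := ndB6q2) (pc := pcB1) (cut := cut_pp_012) (xt := Ext.none) (P1 := 0) (W1 := 536870912) (P2 := 1073741824) (W2 := 536870912) (P3 := 536870912) (W3 := 50465866) (N0 := 3) (En := eng) (mo := mog) (C1 := cd1q0) (C2 := cd6q2) (C3 := pd1)
    rfl (fun _ => rfl) k0_pp_012

noncomputable def cut_pp_022 : Cut := Cut.of [[⟨0, 0, 0, 67108864⟩, ⟨1, 1, 0, 67108864⟩, ⟨2, 1, 0, 67108864⟩]]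

noncomputable def f_pp_022 : ℕ → ℕ → ℕ → ℕ → Bool := onCell 0 536870912 1073741824 536870912 536870912 50465866
    (rowB 3 eng mog cd1q0 cd6q2 pd2 1 false true true .pp 0 2 2 (qsf 0 536870912 1073741824 536870912 2) ndB1q0 ndB6q2 pcB2 cut_pp_022 Ext.none)

def k0_pp_022 : ∃ t, chk3 f_pp_022 t 8 8 1 = true :=
  ⟨(b (a (b (l 6) (a (l 6) (b (l 6) (a (l 6) (b (l 6) (l 16743696)))))) (b (l 3) (b (a (a (a (l 6) (a (l 6) (l 3))) (l 3)) (l 3)) (a (b (a (b (a (l 6) (c (l 16774624) (l 16763392))) (a (l 16755768) (l 16759696))) (a (b (l 91972693607) (l 16768800)) (b (l 3) (l 16775248)))) (a (a (l 16749616) (b (l 16755600) (l 16751504))) (b (a (l 16759520) (l 16763408)) (a (l 16755416) (l 16759320))))) (b (l 3) (a (a (b (l 3) (l 16763192)) (l 3)) (l 3))))))) (a (b (a (a (l 6) (b (l 6) (l 16699160))) (b (a (b (l 6) (l 16719392)) (a (l 16734648) (l 16733360))) (a (l 16707096) (l 16720240)))) (a (a (a (l 16680360) (l 16689608)) (a (l 16693552) (l 16697472)))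 (b (a (l 16690688) (l 16698608)) (l 16678256)))) (b (a (b (a (l 16741888) (b (b (a (l 16751312) (l 16755216)) (a (l 16747200) (l 16751112))) (a (l 16741040) (l 16744944)))) (a (l 16722856) (b (l 16734784) (l 16726576)))) (a (b (b (b (a (l 16759112) (l 16762960)) (a (l 16755000) (l 16758880))) (a (l 16748840) (b (l 16754768) (l 16750656)))) (a (l 16736512) (b (l 16744496) (l 16736272)))) (a (b (b (b (l 3) (l 16762704)) (b (l 16758624) (l 16754520))) (b (l 16748344) (l 16740128))) (b (b (l 3) (b (l 16762432) (l 16758360))) (b (l 16752192) (l 16743960)))))) (a (b (a (l 16706472) (l 16735248)) (c (l 16694488) (l 16693456))) (b (a (l 16722024) (l 16729704)) (l 16709448)))))), by decide +kernel⟩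

def k1_pp_022 : ∃ t, chk3 f_pp_022 t 9 8 1 = true :=
  ⟨(b (l 3) (b (a (a (b (b (l 3) (a (b (l 3) (l 16774408)) (l 3))) (b (a (a (l 16756008) (l 16759784)) (b (l 3) (l 16763312))) (a (b (l 16751736) (l 16747608)) (a (l 16755328) (l 16759048))))) (l 3)) (l 3)) (a (b (a (b (a (b (l 16743488) (l 16739368)) (a (l 16747072) (l 16750808))) (a (l 16733176) (l 16740672))) (a (b (l 16777264) (l 16769032)) (b (l 3) (l 16755256)))) (a (b (a (l 16724920) (l 16732384)) (l 16720416)) (b (a (l 16739744) (l 16746976)) (a (l 16731424) (l 16738608))))) (a (b (l 3) (b (a (l 16754032) (l 3)) (a (l 16745640) (l 16752488)))) (l 3))))), by decide +kernel⟩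

def k2_pp_022 : ∃ t, chk3 f_pp_022 t 5 8 1 = true :=
  ⟨(l 3), by decide +kernel⟩

def k3_pp_022 : ∃ t, chk3 f_pp_022 t 4 9 1 = true :=
  ⟨(b (a (a (a (b (a (l 16654800) (l 16641728)) (b (l 16613240) (l 16597032))) (b (b (l 16661896) (l 16645568)) (l 16631672))) (b (a (a (l 16665584) (l 16673384)) (b (a (l 16689264) (l 16696864)) (l 16679352))) (a (l 16636912) (b (l 16660368) (l 16644000))))) (a (b (a (b (l 16708064) (l 16691616)) (b (a (l 16718968) (b (l 16730240) (l 16721888))) (l 16705904))) (a (b (l 16675160) (l 16658648)) (b (l 16689232) (l 16672536)))) (b (b (a (b (a (l 16737216) (l 16744008)) (a (l 16728792) (l 16735520))) (b (a (l 16751264) (l 3)) (a (l 16742728) (l 16750704)))) (a (b (a (l 16720376) (l 16727016)) (l 16715256)) (b (a (l 16734176) (l 16742144)) (a (l 16725600) (l 16733560))))) (a (l 16735992) (b (b (l 16721008) (l 16712392)) (l 16699424)))))) (a (a (b (a (l 16583400) (l 16588888)) (a (l 16541248) (l 16556984))) (b (a (b (l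 16612520) (l 16596320)) (l 16661392)) (a (l 16593152) (l 16607672)))) (a (b (b (a (l 16642080) (l 16655720)) (l 16674208)) (a (l 16600416) (l 16613176))) (a (b (l 16701712) (l 16624776)) (b (l 16694192) (l 16632240)))))), by decide +kernel⟩

def k4_pp_022 : ∃ t, chk3 f_pp_022 t 5 9 1 = true :=
  ⟨(b (a (b (a (b (a (b (l 3) (l 85530294807)) (l 3)) (a (c (l 16793056) (l 16789704)) (b (l 3) (l 16759400)))) (l 3)) (a (b (a (b (l 16736512) (l 16727840)) (l 16788656)) (a (a (l 16710984) (l 16718416)) (l 16771080))) (b (a (l 170355908167) (l 3)) (a (l 16742384) (l 16796104))))) (l 3)) (a (b (a (b (a (l 16697096) (l 16732128)) (l 16686296)) (b (b (l 16776744) (l 16767416)) (a (l 16726320) (l 16737632)))) (a (b (l 16667664) (l 16648960)) (b (l 16713104) (l 16672152)))) (b (a (b (a (l 16767328) (l 3)) (a (l 16748160) (l 16715968))) (b (l 3) (l 185388291927))) (b (a (l 16754360) (l 16794848)) (a (l 16691864) (b (l 16716712) (l 16706000))))))), by decide +kernel⟩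

def k5_pp_022 : ∃ t, chk3 f_pp_022 t 2 5 1 = true :=
  ⟨(b (a (a (a (b (b (a (b (l 16517976) (l 16502880)) (l 16567704)) (b (a (l 16509280) (l 16503008)) (b (a (l 16478024) (l 16492488)) (b (a (l 16504880) (l 16488264)) (a (l 16470808) (b (b (b (l 16487208) (a (l 16525712) (l 16512008))) (l 16486880)) (l 16485416))))))) (b (a (b (l 16461328) (l 16446224)) (b (l 16476528) (l 16460600))) (a (l 16423136) (l 16436080)))) (b (b (a (l 16582312) (l 16575152)) (b (a (l 16516872) (l 16529832)) (b (l 16533072) (b (l 16549408) (b (a (a (c (l 16520792) (l 16557080)) (l 16545184)) (l 16532992)) (l 16504688)))))) (a (l 16548216) (l 16537712)))) (b (b (a (b (l 16602520) (l 16564544)) (b (l 16604264) (l 16585960))) (b (a (l 16547272) (l 16566640)) (b (a (l 16534416) (l 16552136)) (b (a (l 16529032) (l 16545904)) (a (a (l 16542528) (l 16551752)) (l 16542880)))))) (a (b (l 16506512) (l 16468592)) (l 16542624)))) (b (b (a (a (b (l 16629840) (l 16610368)) (b (l 16651992)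 (l 16631912))) (b (a (l 16671160) (l 16713840)) (a (l 16651360) (l 16677232)))) (b (a (b (l 16685832) (l 16659072)) (a (l 16639680) (l 16663784))) (a (b (l 16648920) (b (a (l 16569096) (l 16601784)) (a (l 16563024) (l 16591736)))) (b (a (l 16638408) (l 16661528)) (b (a (l 16633200) (l 16660728)) (a (l 16623408) (l 16651592))))))) (a (a (l 16530368) (l 16564088)) (a (l 16595752) (l 16621320))))) (b (a (a (a (a (l 16458544) (l 16426968)) (l 16429040)) (a (l 16429544) (l 16446912))) (a (a (l 16484432) (l 16519768)) (a (l 16550560) (l 16574168)))) (a (a (a (l 16339768) (l 16320736)) (a (l 16360808) (l 16402304))) (a (a (l 16462600) (l 16476248)) (a (l 16505032) (l 16523720)))))), by decide +kernel⟩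

def k6_pp_022 : ∃ t, chk3 f_pp_022 t 2 3 1 = true :=
  ⟨(a (b (b (a (a (a (l 16318488) (l 16322824)) (b (l 16274264) (l 16231640))) (a (b (l 16317784) (l 16277888)) (b (l 16361192) (l 16321360)))) (a (a (b (l 16145000) (l 16109112)) (b (l 16193712) (l 16158808))) (b (a (l 16240520) (l 16284960)) (a (l 16207128) (l 16250904))))) (b (a (b (a (l 16079400) (l 16129480)) (a (l 16055040) (l 16102408))) (b (l 16264824) (l 16193136))) (a (a (l 16104264) (l 16094136)) (a (l 16205432) (l 2))))) (b (b (a (b (a (l 16399960) (l 16433584)) (a (l 16360448) (l 16391864))) (b (l 16469888) (l 16441864))) (a (a (l 16370536) (l 16374600)) (b (l 16424320) (l 2)))) (a (b (a (l 16287224) (l 2)) (l 2)) (l 2)))), by decide +kernel⟩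

def k7_pp_022 : ∃ t, chk3 f_pp_022 t 3 1 1 = true :=
  ⟨(a (b (b (b (l 3) (b (l 3) (a (b (l 3) (a (b (l 200420678535) (l 220284781703)) (l 3))) (l 3)))) (b (b (b (a (b (a (l 16736400) (l 16785704)) (a (l 16698376) (l 16725240))) (b (a (l 292762429223) (l 3)) (a (l 16754496) (l 16759840)))) (b (a (a (l 16680392) (l 16767656)) (a (l 16753288) (b (l 16768560) (l 16761160)))) (b (a (l 16739848) (a (l 16724376) (l 16753032))) (a (b (a (l 16675272) (l 16685208)) (a (l 16671296) (l 16680120))) (b (a (l 16718064) (l 16746568)) (l 16729568)))))) (a (a (l 16639496) (l 16642096)) (a (l 16674232) (l 16702224)))) (a (b (l 16712792) (l 16590480)) (b (a (l 16601912) (l 2)) (l 2))))) (b (b (a (b (l 16520240) (l 2)) (l 2)) (l 2)) (l 2))) (b (b (l 3) (b (b (b (l 3) (l 2)) (l 2)) (l 2))) (l 2))), by decide +kernel⟩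

theorem s8_pp_022 : ∃ t, chk3 f_pp_022 t 2 9 1 = true := ex3_a k3_pp_022 k4_pp_022

theorem s9_pp_022 : ∃ t, chk3 f_pp_022 t 4 8 1 = true := ex3_a k0_pp_022 k1_pp_022

theorem s10_pp_022 : ∃ t, chk3 f_pp_022 t 2 8 1 = true := ex3_a s9_pp_022 k2_pp_022

theorem s11_pp_022 : ∃ t, chk3 f_pp_022 t 2 4 1 = true := ex3_b s10_pp_022 s8_pp_022

theorem s12_pp_022 : ∃ t, chk3 f_pp_022 t 2 2 1 = true := ex3_b s11_pp_022 k5_pp_022

theorem s13_pp_022 : ∃ t, chk3 f_pp_022 t 2 1 1 = true := ex3_b s12_pp_022 k6_pp_022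

theorem s14_pp_022 : ∃ t, chk3 f_pp_022 t 1 1 1 = true := ex3_a s13_pp_022 k7_pp_022

theorem c_pp_022 : CertB 0 536870912 1073741824 536870912 536870912 50465866 3 eng mog cd1q0 cd6q2 pd2 false true true .pp 0 2 2
    ndB1q0 ndB6q2 pcB2 cut_pp_022 Ext.none :=
  certB1 (fam := false) (s1 := true) (s2 := true) (a := 0) (b := 2) (c := 2) (cn := .pp) (n1 := ndB1q0) (n2 := ndB6q2) (pc := pcB2) (cut := cut_pp_022) (xt := Ext.none) (P1 := 0) (W1 := 536870912) (P2 := 1073741824) (W2 := 536870912) (P3 := 536870912) (W3 := 50465866) (N0 := 3) (En := eng) (mo := mog) (C1 := cd1q0) (C2 := cd6q2) (C3 := pd2)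
    rfl (fun _ => rfl) s14_pp_022

noncomputable def f_pp_023 : ℕ → ℕ → ℕ → ℕ → Bool := onCell 1073741824 536870912 0 1230186008 536870912 50465866
    (rowB 3 eng mog cd1q0 cd6q3 pd2 2 false true true .up 0 2 3 (qsf 0 536870912 0 1230186008 2) ndB1q0 ndB6q3 pcB2 Cut.none Ext.none)

def k0_pp_023 : ∃ t, chk3 f_pp_023 t 1 1 1 = true :=
  ⟨(b (a (l 2) (a (l 2) (a (b (l 2) (b (l 16788632) (l 16811496))) (b (b (l 16745264) (l 16765640)) (b (l 16788952) (l 16801264)))))) (b (a (a (l 2) (a (l 2) (b (l 2) (b (l 2) (l 16742480))))) (a (b (l 17045488) (b (l 16779432) (l 16751880))) (b (a (l 16822344) (l 16804864)) (b (l 16788272) (l 16760464))))) (a (a (l 3) (a (a (a (b (l 3) (l 3)) (b (a (l 3) (b (l 2) (a (l 3) (a (l 16759432) (l 16799328))))) (a (b (l 3) (b (l 16788480) (a (l 16778792) (l 16769800)))) (b (a (l 16800856) (a (l 16794080) (b (l 16766736) (l 16770792)))) (a (b (l 16776680) (l 16759384)) (a (a (l 16762936) (l 16823248)) (l 16777360))))))) (b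 (b (l 16743192) (l 16741584)) (b (b (l 16738960) (l 16732128)) (b (l 16716120) (l 16692120))))) (b (b (l 16728880) (l 16706688)) (b (b (l 16678464) (l 16648520)) (b (l 16602960) (l 16571480)))))) (b (a (b (l 16716832) (l 16661800)) (b (l 16711464) (l 16626272))) (b (a (a (l 16592320) (l 16535944)) (l 16470608)) (a (a (l 16507416) (l 16359456)) (b (l 16271688) (l 16160584)))))))), by decide +kernel⟩

theorem c_pp_023 : CertB 0 536870912 0 1230186008 536870912 50465866 3 eng mog cd1q0 cd6q3 pd2 false true true .up 0 2 3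
    ndB1q0 ndB6q3 pcB2 Cut.none Ext.none :=
  certB2 (fam := false) (s1 := true) (s2 := true) (a := 0) (b := 2) (c := 3) (cn := .up) (n1 := ndB1q0) (n2 := ndB6q3) (pc := pcB2) (cut := Cut.none) (xt := Ext.none) (P1 := 0) (W1 := 536870912) (P2 := 0) (W2 := 1230186008) (P3 := 536870912) (W3 := 50465866) (N0 := 3) (En := eng) (mo := mog) (C1 := cd1q0) (C2 := cd6q3) (C3 := pd2)
    rfl (fun _ => rfl) k0_pp_023

noncomputable def f_pp_033 : ℕ → ℕ → ℕ → ℕ → Bool := onCell 1610612736 536870912 0 1230186008 536870912 50465866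
    (rowB 3 eng mog cd1q0 cd6q3 pd3 2 false true true .pnn 0 3 3 (qsf 0 536870912 0 1230186008 3) ndB1q0 ndB6q3 pcB3 Cut.none Ext.none)

def k0_pp_033 : ∃ t, chk3 f_pp_033 t 1 1 1 = true :=
  ⟨(b (b (a (a (a (l 16771800) (l 16748416)) (a (l 16743800) (l 16738008))) (a (a (l 16730504) (l 16722728)) (l 4))) (a (a (a (b (a (l 16782512) (l 16786120)) (l 16796968)) (b (l 16778400) (l 16791352))) (a (b (l 16764328) (l 16776176)) (b (l 16754056) (l 16763944)))) (a (a (b (l 16747008) (l 16756072)) (b (l 16741040) (a (l 16754952) (l 16755096)))) (a (b (l 16732240) (a (l 16753600) (l 16753488))) (a (l 575559598471) (l 4)))))) (b (a (a (b (a (l 16799080) (l 16791208)) (a (l 16759976) (l 16793320))) (b (a (l 16777424) (l 16766400)) (b (l 16751984) (l 16721928)))) (a (b (a (l 16760304) (l 16762888)) (b (l 16744024) (l 16713464))) (b (a (a (l 16766544) (l 1)) (l 1)) (l 1)))) (a (b (a (b (l 16684944) (l 16590072)) (b (l 16667032) (l 16561320))) (a (b (l 16407368)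 (b (l 16168000) (l 15931704))) (b (a (l 16361984) (l 1)) (l 1)))) (l 1)))), by decide +kernel⟩

theorem c_pp_033 : CertB 0 536870912 0 1230186008 536870912 50465866 3 eng mog cd1q0 cd6q3 pd3 false true true .pnn 0 3 3
    ndB1q0 ndB6q3 pcB3 Cut.none Ext.none :=
  certB2 (fam := false) (s1 := true) (s2 := true) (a := 0) (b := 3) (c := 3) (cn := .pnn) (n1 := ndB1q0) (n2 := ndB6q3) (pc := pcB3) (cut := Cut.none) (xt := Ext.none) (P1 := 0) (W1 := 536870912) (P2 := 0) (W2 := 1230186008) (P3 := 536870912) (W3 := 50465866) (N0 := 3) (En := eng) (mo := mog) (C1 := cd1q0) (C2 := cd6q3) (C3 := pd3)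
    rfl (fun _ => rfl) k0_pp_033

noncomputable def f_pp_101 : ℕ → ℕ → ℕ → ℕ → Bool := onCell 536870912 536870912 0 536870912 536870912 50465866
    (rowB 3 eng mog cd1q1 cd6q1 pd0 1 false true true .npn 1 0 1 (qsf 536870912 536870912 536870912 536870912 0) ndB1q1 ndB6q1 pcB0 Cut.none Ext.none)

def k0_pp_101 : ∃ t, chk3 f_pp_101 t 1 1 1 = true :=
  ⟨(l 3), by decide +kernel⟩

theorem c_pp_101 : CertB 536870912 536870912 536870912 536870912 536870912 50465866 3 eng mog cd1q1 cd6q1 pd0 false true true .npn 1 0 1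
    ndB1q1 ndB6q1 pcB0 Cut.none Ext.none :=
  certB1 (fam := false) (s1 := true) (s2 := true) (a := 1) (b := 0) (c := 1) (cn := .npn) (n1 := ndB1q1) (n2 := ndB6q1) (pc := pcB0) (cut := Cut.none) (xt := Ext.none) (P1 := 536870912) (W1 := 536870912) (P2 := 536870912) (W2 := 536870912) (P3 := 536870912) (W3 := 50465866) (N0 := 3) (En := eng) (mo := mog) (C1 := cd1q1) (C2 := cd6q1) (C3 := pd0)
    rfl (fun _ => rfl) k0_pp_101

noncomputable def f_pp_102 : ℕ → ℕ → ℕ → ℕ → Bool := onCell 536870912 536870912 1073741824 536870912 536870912 50465866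
    (rowB 3 eng mog cd1q1 cd6q2 pd0 0 false true true .npp 1 0 2 (qsf 536870912 536870912 1073741824 536870912 0) ndB1q1 ndB6q2 pcB0 Cut.none Ext.none)

def k0_pp_102 : ∃ t, chk3 f_pp_102 t 1 1 1 = true :=
  ⟨(l 3), by decide +kernel⟩

theorem c_pp_102 : CertB 536870912 536870912 1073741824 536870912 536870912 50465866 3 eng mog cd1q1 cd6q2 pd0 false true true .npp 1 0 2
    ndB1q1 ndB6q2 pcB0 Cut.none Ext.none :=
  certB0 (fam := false) (s1 := true) (s2 := true) (a := 1) (b := 0) (c := 2) (cn := .npp) (n1 := ndB1q1) (n2 := ndB6q2) (pc := pcB0) (cut := Cut.none) (xt := Ext.none) (P1 := 536870912) (W1 := 536870912) (P2 := 1073741824) (W2 := 536870912) (P3 := 536870912) (W3 := 50465866) (N0 := 3) (En := eng) (mo := mog) (C1 := cd1q1) (C2 := cd6q2) (C3 := pd0)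
    rfl k0_pp_102

noncomputable def f_pp_112 : ℕ → ℕ → ℕ → ℕ → Bool := onCell 536870912 536870912 1073741824 536870912 536870912 50465866
    (rowB 3 eng mog cd1q1 cd6q2 pd1 0 false true true .dn 1 1 2 (qsf 536870912 536870912 1073741824 536870912 1) ndB1q1 ndB6q2 pcB1 Cut.none Ext.none)

def k0_pp_112 : ∃ t, chk3 f_pp_112 t 1 1 1 = true :=
  ⟨(l 3), by decide +kernel⟩

theorem c_pp_112 : CertB 536870912 536870912 1073741824 536870912 536870912 50465866 3 eng mog cd1q1 cd6q2 pd1 false true true .dn 1 1 2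
    ndB1q1 ndB6q2 pcB1 Cut.none Ext.none :=
  certB0 (fam := false) (s1 := true) (s2 := true) (a := 1) (b := 1) (c := 2) (cn := .dn) (n1 := ndB1q1) (n2 := ndB6q2) (pc := pcB1) (cut := Cut.none) (xt := Ext.none) (P1 := 536870912) (W1 := 536870912) (P2 := 1073741824) (W2 := 536870912) (P3 := 536870912) (W3 := 50465866) (N0 := 3) (En := eng) (mo := mog) (C1 := cd1q1) (C2 := cd6q2) (C3 := pd1)
    rfl k0_pp_112

noncomputable def f_pp_113 : ℕ → ℕ → ℕ → ℕ → Bool := onCell 536870912 536870912 0 1230186008 536870912 50465866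
    (rowB 3 eng mog cd1q1 cd6q3 pd1 2 false true true .nn 1 1 3 (qsf 536870912 536870912 0 1230186008 1) ndB1q1 ndB6q3 pcB1 Cut.none Ext.none)

def k0_pp_113 : ∃ t, chk3 f_pp_113 t 1 1 1 = true :=
  ⟨(b (a (l 2) (a (l 2) (b (a (l 2) (b (a (l 2) (b (l 993312125783) (a (l 2) (l 16801552)))) (l 3))) (l 3)))) (a (b (a (l 2) (b (l 2) (a (l 2) (l 3)))) (a (b (l 2) (l 3)) (l 3))) (b (l 3) (l 3)))), by decide +kernel⟩

theorem c_pp_113 : CertB 536870912 536870912 0 1230186008 536870912 50465866 3 eng mog cd1q1 cd6q3 pd1 false true true .nn 1 1 3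
    ndB1q1 ndB6q3 pcB1 Cut.none Ext.none :=
  certB2 (fam := false) (s1 := true) (s2 := true) (a := 1) (b := 1) (c := 3) (cn := .nn) (n1 := ndB1q1) (n2 := ndB6q3) (pc := pcB1) (cut := Cut.none) (xt := Ext.none) (P1 := 536870912) (W1 := 536870912) (P2 := 0) (W2 := 1230186008) (P3 := 536870912) (W3 := 50465866) (N0 := 3) (En := eng) (mo := mog) (C1 := cd1q1) (C2 := cd6q3) (C3 := pd1)
    rfl (fun _ => rfl) k0_pp_113

noncomputable def f_pp_123 : ℕ → ℕ → ℕ → ℕ → Bool := onCell 1073741824 536870912 0 1230186008 536870912 50465866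
    (rowB 3 eng mog cd1q1 cd6q3 pd2 2 false true true .npn 1 2 3 (qsf 536870912 536870912 0 1230186008 2) ndB1q1 ndB6q3 pcB2 Cut.none Ext.none)

def k0_pp_123 : ∃ t, chk3 f_pp_123 t 1 2 1 = true :=
  ⟨(b (a (a (a (b (a (l 211158299319) (l 16770904)) (a (b (l 261624275831) (l 485499092759)) (a (l 237465085367) (l 16882656)))) (b (l 16766112) (a (l 16773456) (l 16774800)))) (a (a (b (l 16761072) (l 16989568)) (l 16763008)) (l 16765464))) (a (b (l 16760896) (l 16787496)) (a (l 16767248) (b (l 16750024) (l 16771712))))) (a (a (a (b (a (l 3) (b (a (l 3) (l 415706045479)) (l 3))) (l 3)) (a (b (b (a (l 16786984) (l 16784184)) (a (l 497310310071) (l 373293173607))) (a (l 3) (b (l 461339910519) (l 3)))) (b (b (l 16776008) (l 16883408)) (a (b (l 16779280) (l 402820783335)) (b (l 16776008) (l 16817656)))))) (a (b (a (a (l 16776776) (a (l 16775504) (b (l 16774136) (a (l 16771152) (l 16875032))))) (l 16771968)) (a (a (b (l 16775168) (l 16815936)) (a (l 16880488)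 (a (l 16774256) (a (l 16775640) (l 16775168))))) (l 16772224))) (b (l 16775704) (l 16763080)))) (a (b (l 16816976) (a (l 16783968) (l 16825864))) (a (b (l 16802976) (l 16822464)) (b (l 16837904) (l 16809128)))))), by decide +kernel⟩

def k1_pp_123 : ∃ t, chk3 f_pp_123 t 1 3 1 = true :=
  ⟨(b (a (a (a (l 3) (a (l 3) (b (a (l 3) (b (l 449528777143) (l 3))) (l 3)))) (a (a (a (b (b (l 293836336999) (a (l 16753448) (l 16775296))) (b (l 349670962519) (l 3))) (b (a (b (l 16774736) (l 16779584)) (a (l 16863712) (a (l 16823616) (l 16843168)))) (a (b (l 16782680) (l 16830656)) (b (a (l 16789240) (l 16792536)) (a (l 16794840) (a (l 16796904) (l 16800536))))))) (b (l 16824256) (b (l 16786608) (l 16782920)))) (b (l 16863424) (b (l 16762808) (l 16751488))))) (a (b (a (l 16794224) (l 16826384)) (b (l 16783544) (l 16755376))) (b (a (l 16831576) (l 1)) (l 1)))) (a (a (l 3) (a (a (a (b (l 3) (l 3)) (b (a (l 3) (b (a (l 16805808) (a (l 16810776) (l 16805104))) (a (l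 3) (a (l 16806072) (l 16800720))))) (l 1))) (b (b (l 16772968) (l 16768536)) (l 1))) (b (b (l 16737936) (l 1)) (l 1)))) (l 1))), by decide +kernel⟩

theorem s2_pp_123 : ∃ t, chk3 f_pp_123 t 1 1 1 = true := ex3_b k0_pp_123 k1_pp_123

theorem c_pp_123 : CertB 536870912 536870912 0 1230186008 536870912 50465866 3 eng mog cd1q1 cd6q3 pd2 false true true .npn 1 2 3
    ndB1q1 ndB6q3 pcB2 Cut.none Ext.none :=
  certB2 (fam := false) (s1 := true) (s2 := true) (a := 1) (b := 2) (c := 3) (cn := .npn) (n1 := ndB1q1) (n2 := ndB6q3) (pc := pcB2) (cut := Cut.none) (xt := Ext.none) (P1 := 536870912) (W1 := 536870912) (P2 := 0) (W2 := 1230186008) (P3 := 536870912) (W3 := 50465866) (N0 := 3) (En := eng) (mo := mog) (C1 := cd1q1) (C2 := cd6q3) (C3 := pd2)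
    rfl (fun _ => rfl) s2_pp_123

noncomputable def f_pp_133 : ℕ → ℕ → ℕ → ℕ → Bool := onCell 1610612736 536870912 0 1230186008 536870912 50465866
    (rowB 3 eng mog cd1q1 cd6q3 pd3 2 false true true .dn 1 3 3 (qsf 536870912 536870912 0 1230186008 3) ndB1q1 ndB6q3 pcB3 Cut.none Ext.none)

def k0_pp_133 : ∃ t, chk3 f_pp_133 t 1 1 1 = true :=
  ⟨(b (b (a (a (a (l 16754344) (l 1)) (l 1)) (l 1)) (l 1)) (l 1)), by decide +kernel⟩

theorem c_pp_133 : CertB 536870912 536870912 0 1230186008 536870912 50465866 3 eng mog cd1q1 cd6q3 pd3 false true true .dn 1 3 3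
    ndB1q1 ndB6q3 pcB3 Cut.none Ext.none :=
  certB2 (fam := false) (s1 := true) (s2 := true) (a := 1) (b := 3) (c := 3) (cn := .dn) (n1 := ndB1q1) (n2 := ndB6q3) (pc := pcB3) (cut := Cut.none) (xt := Ext.none) (P1 := 536870912) (W1 := 536870912) (P2 := 0) (W2 := 1230186008) (P3 := 536870912) (W3 := 50465866) (N0 := 3) (En := eng) (mo := mog) (C1 := cd1q1) (C2 := cd6q3) (C3 := pd3)
    rfl (fun _ => rfl) k0_pp_133

noncomputable def f_pp_202_a : ℕ → ℕ → ℕ → ℕ → Bool := onCell 0 536870912 1073741824 536870912 536870912 50465866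
    (rowB 3 eng mog cd1q2a cd6q2 pd0 0 false true true .pp 2 0 2 (qsf 0 536870912 1073741824 536870912 0) ndB1q2a ndB6q2 pcB0 Cut.none Ext.none)

def k0_pp_202_a : ∃ t, chk3 f_pp_202_a t 1 1 1 = true :=
  ⟨(l 5), by decide +kernel⟩

theorem c_pp_202_a : CertB 0 536870912 1073741824 536870912 536870912 50465866 3 eng mog cd1q2a cd6q2 pd0 false true true .pp 2 0 2
    ndB1q2a ndB6q2 pcB0 Cut.none Ext.none :=
  certB0 (fam := false) (s1 := true) (s2 := true) (a := 2) (b := 0) (c := 2) (cn := .pp) (n1 := ndB1q2a) (n2 := ndB6q2) (pc := pcB0) (cut := Cut.none) (xt := Ext.none) (P1 := 0) (W1 := 536870912) (P2 := 1073741824) (W2 := 536870912) (P3 := 536870912) (W3 := 50465866) (N0 := 3) (En := eng) (mo := mog) (C1 := cd1q2a) (C2 := cd6q2) (C3 := pd0)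
    rfl k0_pp_202_a

noncomputable def f_pp_202_b : ℕ → ℕ → ℕ → ℕ → Bool := onCell 1239849684 370763052 1073741824 536870912 536870912 50465866
    (rowB 3 eng mog cd1q2b cd6q2 pd0 0 false true true .pp 2 0 2 (qsf 1239849684 370763052 1073741824 536870912 0) ndB1q2b ndB6q2 pcB0 Cut.none Ext.none)

def k0_pp_202_b : ∃ t, chk3 f_pp_202_b t 1 1 1 = true :=
  ⟨(l 5), by decide +kernel⟩

theorem c_pp_202_b : CertB 1239849684 370763052 1073741824 536870912 536870912 50465866 3 eng mog cd1q2b cd6q2 pd0 false true true .pp 2 0 2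
    ndB1q2b ndB6q2 pcB0 Cut.none Ext.none :=
  certB0 (fam := false) (s1 := true) (s2 := true) (a := 2) (b := 0) (c := 2) (cn := .pp) (n1 := ndB1q2b) (n2 := ndB6q2) (pc := pcB0) (cut := Cut.none) (xt := Ext.none) (P1 := 1239849684) (W1 := 370763052) (P2 := 1073741824) (W2 := 536870912) (P3 := 536870912) (W3 := 50465866) (N0 := 3) (En := eng) (mo := mog) (C1 := cd1q2b) (C2 := cd6q2) (C3 := pd0)
    rfl k0_pp_202_b

noncomputable def f_pp_203_a : ℕ → ℕ → ℕ → ℕ → Bool := onCell 0 536870912 0 1230186008 536870912 50465866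
    (rowB 3 eng mog cd1q2a cd6q3 pd0 0 false true true .up 2 0 3 (qsf 0 536870912 0 1230186008 0) ndB1q2a ndB6q3 pcB0 Cut.none Ext.none)

def k0_pp_203_a : ∃ t, chk3 f_pp_203_a t 1 1 1 = true :=
  ⟨(b (l 2) (a (l 5) (l 3))), by decide +kernel⟩

theorem c_pp_203_a : CertB 0 536870912 0 1230186008 536870912 50465866 3 eng mog cd1q2a cd6q3 pd0 false true true .up 2 0 3
    ndB1q2a ndB6q3 pcB0 Cut.none Ext.none :=
  certB0 (fam := false) (s1 := true) (s2 := true) (a := 2) (b := 0) (c := 3) (cn := .up) (n1 := ndB1q2a) (n2 := ndB6q3) (pc := pcB0) (cut := Cut.none) (xt := Ext.none) (P1 := 0) (W1 := 536870912) (P2 := 0) (W2 := 1230186008) (P3 := 536870912) (W3 := 50465866) (N0 := 3) (En := eng) (mo := mog) (C1 := cd1q2a) (C2 := cd6q3) (C3 := pd0)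
    rfl k0_pp_203_a

noncomputable def f_pp_203_b : ℕ → ℕ → ℕ → ℕ → Bool := onCell 1239849684 370763052 0 1230186008 536870912 50465866
    (rowB 3 eng mog cd1q2b cd6q3 pd0 0 false true true .up 2 0 3 (qsf 1239849684 370763052 0 1230186008 0) ndB1q2b ndB6q3 pcB0 Cut.none Ext.none)

def k0_pp_203_b : ∃ t, chk3 f_pp_203_b t 1 1 1 = true :=
  ⟨(b (l 3) (l 5)), by decide +kernel⟩

theorem c_pp_203_b : CertB 1239849684 370763052 0 1230186008 536870912 50465866 3 eng mog cd1q2b cd6q3 pd0 false true true .up 2 0 3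
    ndB1q2b ndB6q3 pcB0 Cut.none Ext.none :=
  certB0 (fam := false) (s1 := true) (s2 := true) (a := 2) (b := 0) (c := 3) (cn := .up) (n1 := ndB1q2b) (n2 := ndB6q3) (pc := pcB0) (cut := Cut.none) (xt := Ext.none) (P1 := 1239849684) (W1 := 370763052) (P2 := 0) (W2 := 1230186008) (P3 := 536870912) (W3 := 50465866) (N0 := 3) (En := eng) (mo := mog) (C1 := cd1q2b) (C2 := cd6q3) (C3 := pd0)
    rfl k0_pp_203_b

noncomputable def cut_pp_213_a : Cut := Cut.of [[⟨0, 1, 0, 67108864⟩, ⟨1, 1, 0, 67108864⟩, ⟨2, 2, 0, 16777216⟩]]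

noncomputable def f_pp_213_a : ℕ → ℕ → ℕ → ℕ → Bool := onCell 0 536870912 0 1230186008 536870912 50465866
    (rowB 3 eng mog cd1q2a cd6q3 pd1 0 false true true .pnn 2 1 3 (qsf 0 536870912 0 1230186008 1) ndB1q2a ndB6q3 pcB1 cut_pp_213_a Ext.none)

def k0_pp_213_a : ∃ t, chk3 f_pp_213_a t 1 1 1 = true :=
  ⟨(a (b (l 3) (l 5)) (b (b (a (l 3) (b (a (l 3) (l 6)) (l 3))) (l 3)) (l 3))), by decide +kernel⟩

theorem c_pp_213_a : CertB 0 536870912 0 1230186008 536870912 50465866 3 eng mog cd1q2a cd6q3 pd1 false true true .pnn 2 1 3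
    ndB1q2a ndB6q3 pcB1 cut_pp_213_a Ext.none :=
  certB0 (fam := false) (s1 := true) (s2 := true) (a := 2) (b := 1) (c := 3) (cn := .pnn) (n1 := ndB1q2a) (n2 := ndB6q3) (pc := pcB1) (cut := cut_pp_213_a) (xt := Ext.none) (P1 := 0) (W1 := 536870912) (P2 := 0) (W2 := 1230186008) (P3 := 536870912) (W3 := 50465866) (N0 := 3) (En := eng) (mo := mog) (C1 := cd1q2a) (C2 := cd6q3) (C3 := pd1)
    rfl k0_pp_213_a

noncomputable def cut_pp_213_b : Cut := Cut.of [[⟨0, 1, 0, 67108864⟩, ⟨1, 1, 0, 67108864⟩, ⟨2, 2, 0, 16777216⟩]]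

noncomputable def f_pp_213_b : ℕ → ℕ → ℕ → ℕ → Bool := onCell 1239849684 370763052 0 1230186008 536870912 50465866
    (rowB 3 eng mog cd1q2b cd6q3 pd1 0 false true true .pnn 2 1 3 (qsf 1239849684 370763052 0 1230186008 1) ndB1q2b ndB6q3 pcB1 cut_pp_213_b Ext.none)

def k0_pp_213_b : ∃ t, chk3 f_pp_213_b t 1 1 1 = true :=
  ⟨(b (l 3) (l 5)), by decide +kernel⟩

theorem c_pp_213_b : CertB 1239849684 370763052 0 1230186008 536870912 50465866 3 eng mog cd1q2b cd6q3 pd1 false true true .pnn 2 1 3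
    ndB1q2b ndB6q3 pcB1 cut_pp_213_b Ext.none :=
  certB0 (fam := false) (s1 := true) (s2 := true) (a := 2) (b := 1) (c := 3) (cn := .pnn) (n1 := ndB1q2b) (n2 := ndB6q3) (pc := pcB1) (cut := cut_pp_213_b) (xt := Ext.none) (P1 := 1239849684) (W1 := 370763052) (P2 := 0) (W2 := 1230186008) (P3 := 536870912) (W3 := 50465866) (N0 := 3) (En := eng) (mo := mog) (C1 := cd1q2b) (C2 := cd6q3) (C3 := pd1)
    rfl k0_pp_213_b

noncomputable def f_pp_303 : ℕ → ℕ → ℕ → ℕ → Bool := onCell 1610612736 536870912 0 1230186008 536870912 50465866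
    (rowB 3 eng mog cd1q3 cd6q3 pd0 0 false true true .npn 3 0 3 (qsf 1610612736 536870912 0 1230186008 0) ndB1q3 ndB6q3 pcB0 Cut.none Ext.none)

def k0_pp_303 : ∃ t, chk3 f_pp_303 t 1 1 1 = true :=
  ⟨(b (l 3) (l 5)), by decide +kernel⟩

theorem c_pp_303 : CertB 1610612736 536870912 0 1230186008 536870912 50465866 3 eng mog cd1q3 cd6q3 pd0 false true true .npn 3 0 3
    ndB1q3 ndB6q3 pcB0 Cut.none Ext.none :=
  certB0 (fam := false) (s1 := true) (s2 := true) (a := 3) (b := 0) (c := 3) (cn := .npn) (n1 := ndB1q3) (n2 := ndB6q3) (pc := pcB0) (cut := Cut.none) (xt := Ext.none) (P1 := 1610612736) (W1 := 536870912) (P2 := 0) (W2 := 1230186008) (P3 := 536870912) (W3 := 50465866) (N0 := 3) (En := eng) (mo := mog) (C1 := cd1q3) (C2 := cd6q3) (C3 := pd0)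
    rfl k0_pp_303

noncomputable def f_pp_313 : ℕ → ℕ → ℕ → ℕ → Bool := onCell 1610612736 536870912 0 1230186008 536870912 50465866
    (rowB 3 eng mog cd1q3 cd6q3 pd1 0 false true true .dn 3 1 3 (qsf 1610612736 536870912 0 1230186008 1) ndB1q3 ndB6q3 pcB1 Cut.none Ext.none)

def k0_pp_313 : ∃ t, chk3 f_pp_313 t 1 1 1 = true :=
  ⟨(b (l 3) (l 1)), by decide +kernel⟩

theorem c_pp_313 : CertB 1610612736 536870912 0 1230186008 536870912 50465866 3 eng mog cd1q3 cd6q3 pd1 false true true .dn 3 1 3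
    ndB1q3 ndB6q3 pcB1 Cut.none Ext.none :=
  certB0 (fam := false) (s1 := true) (s2 := true) (a := 3) (b := 1) (c := 3) (cn := .dn) (n1 := ndB1q3) (n2 := ndB6q3) (pc := pcB1) (cut := Cut.none) (xt := Ext.none) (P1 := 1610612736) (W1 := 536870912) (P2 := 0) (W2 := 1230186008) (P3 := 536870912) (W3 := 50465866) (N0 := 3) (En := eng) (mo := mog) (C1 := cd1q3) (C2 := cd6q3) (C3 := pd1)
    rfl k0_pp_313

noncomputable def f_pm_001 : ℕ → ℕ → ℕ → ℕ → Bool := onCell 0 536870912 536870912 536870912 536870912 50465866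
    (rowB 3 eng mog cd1q0 cd6q1 pd0 0 false true false .up 0 0 1 (qsf 0 536870912 536870912 536870912 0) ndB1q0 ndB6q1 pcB0 Cut.none Ext.none)

def k0_pm_001 : ∃ t, chk3 f_pm_001 t 1 1 1 = true :=
  ⟨(l 4), by decide +kernel⟩

theorem c_pm_001 : CertB 0 536870912 536870912 536870912 536870912 50465866 3 eng mog cd1q0 cd6q1 pd0 false true false .up 0 0 1
    ndB1q0 ndB6q1 pcB0 Cut.none Ext.none :=
  certB0 (fam := false) (s1 := true) (s2 := false) (a := 0) (b := 0) (c := 1) (cn := .up) (n1 := ndB1q0) (n2 := ndB6q1) (pc := pcB0) (cut := Cut.none) (xt := Ext.none) (P1 := 0) (W1 := 536870912) (P2 := 536870912) (W2 := 536870912) (P3 := 536870912) (W3 := 50465866) (N0 := 3) (En := eng) (mo := mog) (C1 := cd1q0) (C2 := cd6q1) (C3 := pd0)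
    rfl k0_pm_001

noncomputable def f_pm_011 : ℕ → ℕ → ℕ → ℕ → Bool := onCell 0 536870912 536870912 536870912 536870912 50465866
    (rowB 3 eng mog cd1q0 cd6q1 pd1 0 false true false .pnn 0 1 1 (qsf 0 536870912 536870912 536870912 1) ndB1q0 ndB6q1 pcB1 Cut.none Ext.none)

def k0_pm_011 : ∃ t, chk3 f_pm_011 t 1 1 1 = true :=
  ⟨(l 4), by decide +kernel⟩

theorem c_pm_011 : CertB 0 536870912 536870912 536870912 536870912 50465866 3 eng mog cd1q0 cd6q1 pd1 false true false .pnn 0 1 1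
    ndB1q0 ndB6q1 pcB1 Cut.none Ext.none :=
  certB0 (fam := false) (s1 := true) (s2 := false) (a := 0) (b := 1) (c := 1) (cn := .pnn) (n1 := ndB1q0) (n2 := ndB6q1) (pc := pcB1) (cut := Cut.none) (xt := Ext.none) (P1 := 0) (W1 := 536870912) (P2 := 536870912) (W2 := 536870912) (P3 := 536870912) (W3 := 50465866) (N0 := 3) (En := eng) (mo := mog) (C1 := cd1q0) (C2 := cd6q1) (C3 := pd1)
    rfl k0_pm_011

noncomputable def f_pm_012 : ℕ → ℕ → ℕ → ℕ → Bool := onCell 0 536870912 1073741824 536870912 536870912 50465866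
    (rowB 3 eng mog cd1q0 cd6q2 pd1 0 false true false .pnp 0 1 2 (qsf 0 536870912 1073741824 536870912 1) ndB1q0 ndB6q2 pcB1 Cut.none Ext.none)

def k0_pm_012 : ∃ t, chk3 f_pm_012 t 1 1 1 = true :=
  ⟨(l 4), by decide +kernel⟩

theorem c_pm_012 : CertB 0 536870912 1073741824 536870912 536870912 50465866 3 eng mog cd1q0 cd6q2 pd1 false true false .pnp 0 1 2
    ndB1q0 ndB6q2 pcB1 Cut.none Ext.none :=
  certB0 (fam := false) (s1 := true) (s2 := false) (a := 0) (b := 1) (c := 2) (cn := .pnp) (n1 := ndB1q0) (n2 := ndB6q2) (pc := pcB1) (cut := Cut.none) (xt := Ext.none) (P1 := 0) (W1 := 536870912) (P2 := 1073741824) (W2 := 536870912) (P3 := 536870912) (W3 := 50465866) (N0 := 3) (En := eng) (mo := mog) (C1 := cd1q0) (C2 := cd6q2) (C3 := pd1)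
    rfl k0_pm_012

noncomputable def f_pm_022 : ℕ → ℕ → ℕ → ℕ → Bool := onCell 0 536870912 1073741824 536870912 536870912 50465866
    (rowB 3 eng mog cd1q0 cd6q2 pd2 0 false true false .pp 0 2 2 (qsf 0 536870912 1073741824 536870912 2) ndB1q0 ndB6q2 pcB2 Cut.none Ext.none)

def k0_pm_022 : ∃ t, chk3 f_pm_022 t 1 1 1 = true :=
  ⟨(l 4), by decide +kernel⟩

theorem c_pm_022 : CertB 0 536870912 1073741824 536870912 536870912 50465866 3 eng mog cd1q0 cd6q2 pd2 false true false .pp 0 2 2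
    ndB1q0 ndB6q2 pcB2 Cut.none Ext.none :=
  certB0 (fam := false) (s1 := true) (s2 := false) (a := 0) (b := 2) (c := 2) (cn := .pp) (n1 := ndB1q0) (n2 := ndB6q2) (pc := pcB2) (cut := Cut.none) (xt := Ext.none) (P1 := 0) (W1 := 536870912) (P2 := 1073741824) (W2 := 536870912) (P3 := 536870912) (W3 := 50465866) (N0 := 3) (En := eng) (mo := mog) (C1 := cd1q0) (C2 := cd6q2) (C3 := pd2)
    rfl k0_pm_022

noncomputable def f_pm_023 : ℕ → ℕ → ℕ → ℕ → Bool := onCell 0 536870912 0 1230186008 536870912 50465866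
    (rowB 3 eng mog cd1q0 cd6q3 pd2 0 false true false .up 0 2 3 (qsf 0 536870912 0 1230186008 2) ndB1q0 ndB6q3 pcB2 Cut.none Ext.none)

def k0_pm_023 : ∃ t, chk3 f_pm_023 t 1 1 1 = true :=
  ⟨(b (b (a (l 2) (a (l 2) (b (l 16738032) (l 16745128)))) (l 4)) (l 4)), by decide +kernel⟩

theorem c_pm_023 : CertB 0 536870912 0 1230186008 536870912 50465866 3 eng mog cd1q0 cd6q3 pd2 false true false .up 0 2 3
    ndB1q0 ndB6q3 pcB2 Cut.none Ext.none :=
  certB0 (fam := false) (s1 := true) (s2 := false) (a := 0) (b := 2) (c := 3) (cn := .up) (n1 := ndB1q0) (n2 := ndB6q3) (pc := pcB2) (cut := Cut.none) (xt := Ext.none) (P1 := 0) (W1 := 536870912) (P2 := 0) (W2 := 1230186008) (P3 := 536870912) (W3 := 50465866) (N0 := 3) (En := eng) (mo := mog) (C1 := cd1q0) (C2 := cd6q3) (C3 := pd2)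
    rfl k0_pm_023

noncomputable def f_pm_033 : ℕ → ℕ → ℕ → ℕ → Bool := onCell 0 536870912 0 1230186008 536870912 50465866
    (rowB 3 eng mog cd1q0 cd6q3 pd3 0 false true false .pnn 0 3 3 (qsf 0 536870912 0 1230186008 3) ndB1q0 ndB6q3 pcB3 Cut.none Ext.none)

def k0_pm_033 : ∃ t, chk3 f_pm_033 t 1 1 1 = true :=
  ⟨(b (b (a (l 4) (a (a (l 4) (l 16966720)) (a (l 16740800) (l 16744000)))) (l 4)) (l 4)), by decide +kernel⟩

theorem c_pm_033 : CertB 0 536870912 0 1230186008 536870912 50465866 3 eng mog cd1q0 cd6q3 pd3 false true false .pnn 0 3 3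
    ndB1q0 ndB6q3 pcB3 Cut.none Ext.none :=
  certB0 (fam := false) (s1 := true) (s2 := false) (a := 0) (b := 3) (c := 3) (cn := .pnn) (n1 := ndB1q0) (n2 := ndB6q3) (pc := pcB3) (cut := Cut.none) (xt := Ext.none) (P1 := 0) (W1 := 536870912) (P2 := 0) (W2 := 1230186008) (P3 := 536870912) (W3 := 50465866) (N0 := 3) (En := eng) (mo := mog) (C1 := cd1q0) (C2 := cd6q3) (C3 := pd3)
    rfl k0_pm_033

noncomputable def f_pm_101 : ℕ → ℕ → ℕ → ℕ → Bool := onCell 536870912 536870912 536870912 536870912 536870912 50465866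
    (rowB 3 eng mog cd1q1 cd6q1 pd0 0 false true false .npn 1 0 1 (qsf 536870912 536870912 536870912 536870912 0) ndB1q1 ndB6q1 pcB0 Cut.none Ext.none)

def k0_pm_101 : ∃ t, chk3 f_pm_101 t 1 1 1 = true :=
  ⟨(l 4), by decide +kernel⟩

theorem c_pm_101 : CertB 536870912 536870912 536870912 536870912 536870912 50465866 3 eng mog cd1q1 cd6q1 pd0 false true false .npn 1 0 1
    ndB1q1 ndB6q1 pcB0 Cut.none Ext.none :=
  certB0 (fam := false) (s1 := true) (s2 := false) (a := 1) (b := 0) (c := 1) (cn := .npn) (n1 := ndB1q1) (n2 := ndB6q1) (pc := pcB0) (cut := Cut.none) (xt := Ext.none) (P1 := 536870912) (W1 := 536870912) (P2 := 536870912) (W2 := 536870912) (P3 := 536870912) (W3 := 50465866) (N0 := 3) (En := eng) (mo := mog) (C1 := cd1q1) (C2 := cd6q1) (C3 := pd0)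
    rfl k0_pm_101

noncomputable def f_pm_102 : ℕ → ℕ → ℕ → ℕ → Bool := onCell 536870912 536870912 1073741824 536870912 536870912 50465866
    (rowB 3 eng mog cd1q1 cd6q2 pd0 0 false true false .npp 1 0 2 (qsf 536870912 536870912 1073741824 536870912 0) ndB1q1 ndB6q2 pcB0 Cut.none Ext.none)

def k0_pm_102 : ∃ t, chk3 f_pm_102 t 1 1 1 = true :=
  ⟨(a (l 4) (l 4)), by decide +kernel⟩

theorem c_pm_102 : CertB 536870912 536870912 1073741824 536870912 536870912 50465866 3 eng mog cd1q1 cd6q2 pd0 false true false .npp 1 0 2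
    ndB1q1 ndB6q2 pcB0 Cut.none Ext.none :=
  certB0 (fam := false) (s1 := true) (s2 := false) (a := 1) (b := 0) (c := 2) (cn := .npp) (n1 := ndB1q1) (n2 := ndB6q2) (pc := pcB0) (cut := Cut.none) (xt := Ext.none) (P1 := 536870912) (W1 := 536870912) (P2 := 1073741824) (W2 := 536870912) (P3 := 536870912) (W3 := 50465866) (N0 := 3) (En := eng) (mo := mog) (C1 := cd1q1) (C2 := cd6q2) (C3 := pd0)
    rfl k0_pm_102

noncomputable def f_pm_112 : ℕ → ℕ → ℕ → ℕ → Bool := onCell 536870912 536870912 1073741824 536870912 536870912 50465866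
    (rowB 3 eng mog cd1q1 cd6q2 pd1 0 false true false .dn 1 1 2 (qsf 536870912 536870912 1073741824 536870912 1) ndB1q1 ndB6q2 pcB1 Cut.none Ext.none)

def k0_pm_112 : ∃ t, chk3 f_pm_112 t 1 1 1 = true :=
  ⟨(b (l 4) (l 4)), by decide +kernel⟩

theorem c_pm_112 : CertB 536870912 536870912 1073741824 536870912 536870912 50465866 3 eng mog cd1q1 cd6q2 pd1 false true false .dn 1 1 2
    ndB1q1 ndB6q2 pcB1 Cut.none Ext.none :=
  certB0 (fam := false) (s1 := true) (s2 := false) (a := 1) (b := 1) (c := 2) (cn := .dn) (n1 := ndB1q1) (n2 := ndB6q2) (pc := pcB1) (cut := Cut.none) (xt := Ext.none) (P1 := 536870912) (W1 := 536870912) (P2 := 1073741824) (W2 := 536870912) (P3 := 536870912) (W3 := 50465866) (N0 := 3) (En := eng) (mo := mog) (C1 := cd1q1) (C2 := cd6q2) (C3 := pd1)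
    rfl k0_pm_112

noncomputable def f_pm_113 : ℕ → ℕ → ℕ → ℕ → Bool := onCell 536870912 536870912 0 1230186008 536870912 50465866
    (rowB 3 eng mog cd1q1 cd6q3 pd1 0 false true false .nn 1 1 3 (qsf 536870912 536870912 0 1230186008 1) ndB1q1 ndB6q3 pcB1 Cut.none Ext.none)

def k0_pm_113 : ∃ t, chk3 f_pm_113 t 1 1 1 = true :=
  ⟨(b (a (l 2) (a (l 2) (b (a (l 2) (b (a (l 2) (l 16901864)) (l 16791888))) (b (a (l 16839192) (l 16812344)) (a (l 16858976) (l 16833280)))))) (b (a (b (l 2) (l 4)) (a (a (b (l 2) (l 4)) (b (l 16903904) (l 26005560647))) (b (a (l 16878320) (b (l 16851608) (l 16861504))) (a (b (l 16879696) (l 16883896)) (b (l 16867816) (l 16873408)))))) (a (l 4) (a (l 4) (a (b (b (l 16889760) (l 4)) (l 4)) (b (b (l 16883440) (l 16895688)) (l 17051392))))))), by decide +kernel⟩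

theorem c_pm_113 : CertB 536870912 536870912 0 1230186008 536870912 50465866 3 eng mog cd1q1 cd6q3 pd1 false true false .nn 1 1 3
    ndB1q1 ndB6q3 pcB1 Cut.none Ext.none :=
  certB0 (fam := false) (s1 := true) (s2 := false) (a := 1) (b := 1) (c := 3) (cn := .nn) (n1 := ndB1q1) (n2 := ndB6q3) (pc := pcB1) (cut := Cut.none) (xt := Ext.none) (P1 := 536870912) (W1 := 536870912) (P2 := 0) (W2 := 1230186008) (P3 := 536870912) (W3 := 50465866) (N0 := 3) (En := eng) (mo := mog) (C1 := cd1q1) (C2 := cd6q3) (C3 := pd1)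
    rfl k0_pm_113

noncomputable def f_pm_123 : ℕ → ℕ → ℕ → ℕ → Bool := onCell 1073741824 536870912 0 1230186008 536870912 50465866
    (rowB 3 eng mog cd1q1 cd6q3 pd2 2 false true false .npn 1 2 3 (qsf 536870912 536870912 0 1230186008 2) ndB1q1 ndB6q3 pcB2 Cut.none Ext.none)

def k0_pm_123 : ∃ t, chk3 f_pm_123 t 1 1 1 = true :=
  ⟨(b (b (a (a (a (b (l 16769800) (l 16780392)) (b (l 16760768) (l 16767768))) (a (b (a (l 16753952) (l 16751152)) (l 16758200)) (b (l 16753024) (l 16758200)))) (a (a (l 16774312) (l 16754416)) (a (l 16753192) (l 16751344)))) (a (a (b (a (l 16804424) (l 16785864)) (a (l 16840392) (l 16813576))) (a (b (l 16774032) (l 16796624)) (b (l 16771584) (l 16786232)))) (a (a (l 16805104) (l 16777768)) (b (l 16846416) (l 4))))) (a (b (b (a (a (l 16877344) (l 16844648)) (a (l 16838744) (l 4))) (a (l 4) (l 4))) (l 4)) (l 4))), by decide +kernel⟩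

theorem c_pm_123 : CertB 536870912 536870912 0 1230186008 536870912 50465866 3 eng mog cd1q1 cd6q3 pd2 false true false .npn 1 2 3
    ndB1q1 ndB6q3 pcB2 Cut.none Ext.none :=
  certB2 (fam := false) (s1 := true) (s2 := false) (a := 1) (b := 2) (c := 3) (cn := .npn) (n1 := ndB1q1) (n2 := ndB6q3) (pc := pcB2) (cut := Cut.none) (xt := Ext.none) (P1 := 536870912) (W1 := 536870912) (P2 := 0) (W2 := 1230186008) (P3 := 536870912) (W3 := 50465866) (N0 := 3) (En := eng) (mo := mog) (C1 := cd1q1) (C2 := cd6q3) (C3 := pd2)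
    rfl (fun _ => rfl) k0_pm_123

noncomputable def f_pm_133 : ℕ → ℕ → ℕ → ℕ → Bool := onCell 1610612736 536870912 0 1230186008 536870912 50465866
    (rowB 3 eng mog cd1q1 cd6q3 pd3 2 false true false .dn 1 3 3 (qsf 536870912 536870912 0 1230186008 3) ndB1q1 ndB6q3 pcB3 Cut.none Ext.none)

def k0_pm_133 : ∃ t, chk3 f_pm_133 t 1 1 1 = true :=
  ⟨(b (b (a (a (l 16893440) (l 1)) (l 1)) (l 1)) (l 1)), by decide +kernel⟩

theorem c_pm_133 : CertB 536870912 536870912 0 1230186008 536870912 50465866 3 eng mog cd1q1 cd6q3 pd3 false true false .dn 1 3 3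
    ndB1q1 ndB6q3 pcB3 Cut.none Ext.none :=
  certB2 (fam := false) (s1 := true) (s2 := false) (a := 1) (b := 3) (c := 3) (cn := .dn) (n1 := ndB1q1) (n2 := ndB6q3) (pc := pcB3) (cut := Cut.none) (xt := Ext.none) (P1 := 536870912) (W1 := 536870912) (P2 := 0) (W2 := 1230186008) (P3 := 536870912) (W3 := 50465866) (N0 := 3) (En := eng) (mo := mog) (C1 := cd1q1) (C2 := cd6q3) (C3 := pd3)
    rfl (fun _ => rfl) k0_pm_133

noncomputable def f_pm_202_a : ℕ → ℕ → ℕ → ℕ → Bool := onCell 0 536870912 1073741824 536870912 536870912 50465866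
    (rowB 3 eng mog cd1q2a cd6q2 pd0 0 false true false .pp 2 0 2 (qsf 0 536870912 1073741824 536870912 0) ndB1q2a ndB6q2 pcB0 Cut.none Ext.none)

def k0_pm_202_a : ∃ t, chk3 f_pm_202_a t 1 1 1 = true :=
  ⟨(a (b (a (b (l 1) (b (b (a (l 16628848) (l 16634584)) (l 16815272)) (a (l 16695384) (l 16698888)))) (b (b (l 1) (b (l 1) (a (l 1) (l 16594520)))) (b (b (l 16639968) (l 16668920)) (a (l 16700608) (l 16701232))))) (b (a (b (l 16737512) (a (l 16757456) (l 16772864))) (b (a (l 16747336) (l 16756632)) (a (l 16791976) (l 16811536)))) (b (a (a (l 16760728) (l 16792992)) (a (l 17008328) (l 16858000))) (a (a (b (l 16751272) (l 16769704)) (l 16806632)) (a (l 16856040) (l 16906280)))))) (a (b (b (a (b (l 1) (b (l 1) (l 16611776))) (l 4)) (b (a (l 16652768) (l 16660872)) (a (l 16705216) (l 16731440)))) (b (b (a (l 16772976) (l 16783376)) (a (l 16843752) (l 16821952))) (b (a (b (l 16885160) (l 16900896)) (b (l 16856712) (l 16859976))) (a (l 16899632) (l 16847944)))))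 (b (l 4) (b (b (a (l 16775768) (l 4)) (a (b (l 16797688) (l 16814288)) (b (l 4) (l 16810664)))) (b (a (l 16837392) (l 16847696)) (a (b (l 16857456) (l 16865192)) (b (l 16849824) (l 16869696)))))))), by decide +kernel⟩

theorem c_pm_202_a : CertB 0 536870912 1073741824 536870912 536870912 50465866 3 eng mog cd1q2a cd6q2 pd0 false true false .pp 2 0 2
    ndB1q2a ndB6q2 pcB0 Cut.none Ext.none :=
  certB0 (fam := false) (s1 := true) (s2 := false) (a := 2) (b := 0) (c := 2) (cn := .pp) (n1 := ndB1q2a) (n2 := ndB6q2) (pc := pcB0) (cut := Cut.none) (xt := Ext.none) (P1 := 0) (W1 := 536870912) (P2 := 1073741824) (W2 := 536870912) (P3 := 536870912) (W3 := 50465866) (N0 := 3) (En := eng) (mo := mog) (C1 := cd1q2a) (C2 := cd6q2) (C3 := pd0)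
    rfl k0_pm_202_a

noncomputable def f_pm_202_b : ℕ → ℕ → ℕ → ℕ → Bool := onCell 0 536870912 1073741824 536870912 536870912 50465866
    (rowB 3 eng mog cd1q2b cd6q2 pd0 2 false true false .pp 2 0 2 (qsf 1239849684 370763052 1073741824 536870912 0) ndB1q2b ndB6q2 pcB0 Cut.none Ext.none)

def k0_pm_202_b : ∃ t, chk3 f_pm_202_b t 1 1 1 = true :=
  ⟨(a (b (a (b (l 1) (b (a (a (l 16664344) (l 16690096)) (l 1)) (a (l 16661560) (l 353294544791)))) (l 1)) (b (a (b (a (l 16621608) (l 16692080)) (a (l 16535688) (l 16618976))) (b (a (l 341483257511) (l 1)) (a (l 192770579479) (l 16848304)))) (b (a (a (l 16365576) (l 16496632)) (a (l 16607200) (l 16699520))) (a (l 16377896) (a (l 16428336) (l 16496232)))))) (a (b (l 1) (b (l 1) (a (b (a (l 16765480) (l 16813080)) (a (l 16625464) (l 16691184))) (b (l 1) (l 351147460999))))) (l 1))), by decide +kernel⟩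

theorem c_pm_202_b : CertB 1239849684 370763052 1073741824 536870912 536870912 50465866 3 eng mog cd1q2b cd6q2 pd0 false true false .pp 2 0 2
    ndB1q2b ndB6q2 pcB0 Cut.none Ext.none :=
  certB2 (fam := false) (s1 := true) (s2 := false) (a := 2) (b := 0) (c := 2) (cn := .pp) (n1 := ndB1q2b) (n2 := ndB6q2) (pc := pcB0) (cut := Cut.none) (xt := Ext.none) (P1 := 1239849684) (W1 := 370763052) (P2 := 1073741824) (W2 := 536870912) (P3 := 536870912) (W3 := 50465866) (N0 := 3) (En := eng) (mo := mog) (C1 := cd1q2b) (C2 := cd6q2) (C3 := pd0)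
    rfl (fun _ => rfl) k0_pm_202_b

noncomputable def f_pm_203_a : ℕ → ℕ → ℕ → ℕ → Bool := onCell 0 536870912 0 1230186008 536870912 50465866
    (rowB 3 eng mog cd1q2a cd6q3 pd0 0 false true false .up 2 0 3 (qsf 0 536870912 0 1230186008 0) ndB1q2a ndB6q3 pcB0 Cut.none Ext.none)

def k0_pm_203_a : ∃ t, chk3 f_pm_203_a t 1 1 1 = true :=
  ⟨(b (l 2) (b (l 2) (a (b (b (l 2) (a (a (l 16810296) (l 16849208)) (l 16960424))) (b (a (a (b (l 16840584) (l 16839576)) (l 16877400)) (b (l 16954688) (l 16950064))) (a (b (l 16846920) (l 16798112)) (b (l 16934408) (l 16916560))))) (b (l 2) (a (b (a (l 16912552) (l 16997760)) (b (a (l 16895328) (l 16884344)) (a (l 16893232) (l 16884344)))) (b (a (b (l 2) (l 16879504)) (l 2)) (a (b (l 16778000) (l 16876080)) (b (a (l 16880424) (l 2)) (l 16954568))))))))), by decide +kernel⟩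

theorem c_pm_203_a : CertB 0 536870912 0 1230186008 536870912 50465866 3 eng mog cd1q2a cd6q3 pd0 false true false .up 2 0 3
    ndB1q2a ndB6q3 pcB0 Cut.none Ext.none :=
  certB0 (fam := false) (s1 := true) (s2 := false) (a := 2) (b := 0) (c := 3) (cn := .up) (n1 := ndB1q2a) (n2 := ndB6q3) (pc := pcB0) (cut := Cut.none) (xt := Ext.none) (P1 := 0) (W1 := 536870912) (P2 := 0) (W2 := 1230186008) (P3 := 536870912) (W3 := 50465866) (N0 := 3) (En := eng) (mo := mog) (C1 := cd1q2a) (C2 := cd6q3) (C3 := pd0)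
    rfl k0_pm_203_a

noncomputable def f_pm_203_b : ℕ → ℕ → ℕ → ℕ → Bool := onCell 0 536870912 0 1230186008 536870912 50465866
    (rowB 3 eng mog cd1q2b cd6q3 pd0 2 false true false .up 2 0 3 (qsf 1239849684 370763052 0 1230186008 0) ndB1q2b ndB6q3 pcB0 Cut.none Ext.none)

def k0_pm_203_b : ∃ t, chk3 f_pm_203_b t 1 1 1 = true :=
  ⟨(b (l 3) (b (a (l 3) (a (l 3) (b (l 3) (a (l 3) (b (l 3) (a (l 164450319879) (l 164450317591))))))) (a (b (a (l 2) (a (b (l 3) (l 16612096)) (b (l 154250083831) (l 16835776)))) (a (b (a (l 2) (l 16423056)) (l 16169384)) (b (a (a (l 16443888) (l 16478568)) (l 16501848)) (a (l 16281400) (l 16352696))))) (a (b (b (a (l 16818432) (l 163913327671)) (a (l 16640136) (b (l 16672560) (l 16641800)))) (b (a (l 16540864) (l 16608864)) (a (l 16470824) (l 16706376)))) (b (a (b (a (l 16722568) (l 16724544)) (b (l 16688048) (l 16681432))) (b (a (l 16747912) (b (l 16737984) (l 16725584))) (l 16735312))) (b (a (l 16731992) (l 380138582679))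 (a (l 413424478455) (l 1)))))))), by decide +kernel⟩

theorem c_pm_203_b : CertB 1239849684 370763052 0 1230186008 536870912 50465866 3 eng mog cd1q2b cd6q3 pd0 false true false .up 2 0 3
    ndB1q2b ndB6q3 pcB0 Cut.none Ext.none :=
  certB2 (fam := false) (s1 := true) (s2 := false) (a := 2) (b := 0) (c := 3) (cn := .up) (n1 := ndB1q2b) (n2 := ndB6q3) (pc := pcB0) (cut := Cut.none) (xt := Ext.none) (P1 := 1239849684) (W1 := 370763052) (P2 := 0) (W2 := 1230186008) (P3 := 536870912) (W3 := 50465866) (N0 := 3) (En := eng) (mo := mog) (C1 := cd1q2b) (C2 := cd6q3) (C3 := pd0)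
    rfl (fun _ => rfl) k0_pm_203_b

noncomputable def cut_pm_213_a : Cut := Cut.of [[⟨0, 1, 0, 67108864⟩, ⟨1, 1, 0, 67108864⟩, ⟨2, 2, 0, 16777216⟩]]

noncomputable def f_pm_213_a : ℕ → ℕ → ℕ → ℕ → Bool := onCell 0 536870912 0 1230186008 536870912 50465866
    (rowB 3 eng mog cd1q2a cd6q3 pd1 0 false true false .pnn 2 1 3 (qsf 0 536870912 0 1230186008 1) ndB1q2a ndB6q3 pcB1 cut_pm_213_a Ext.none)

def k0_pm_213_a : ∃ t, chk3 f_pm_213_a t 2 2 1 = true :=
  ⟨(b (l 3) (a (l 3) (b (a (l 3) (b (l 3) (a (l 3) (b (l 3) (l 321753457879))))) (a (b (l 3) (a (b (l 3) (a (l 3) (l 326048431207))) (b (a (l 3) (l 301889241495)) (a (b (l 303499834775) (l 256255231799)) (l 239612238663))))) (b (a (b (l 3) (a (l 303499830183) (l 279340663351))) (b (a (l 294373046167) (b (l 275582545735) (l 16776680))) (a (l 240149098951) (l 16774960)))) (a (b (a (b (l 276119418679) (l 16776808)) (l 16776176)) (l 16776344)) (b (l 16775072) (l 16774976)))))))), by decide +kernel⟩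

def k1_pm_213_a : ∃ t, chk3 f_pm_213_a t 3 2 1 = true :=
  ⟨(b (a (b (l 3) (a (l 3) (b (l 3) (a (b (l 3) (a (l 3) (b (l 3) (l 307794799879)))) (b (a (l 358260664071) (b (l 321753444519) (l 269140097719))) (a (b (a (l 313163509575) (l 272361322615)) (l 241759697703)) (l 16778088))))))) (b (a (a (l 3) (l 6)) (l 6)) (a (b (a (b (a (l 3) (b (l 3) (a (l 3) (l 308331674023)))) (a (b (l 352355086535) (l 295983663447)) (b (a (l 286856837719) (l 16777136)) (l 16777936)))) (b (a (b (a (l 331417122999) (l 6)) (l 255718347751)) (l 6)) (l 16801040))) (a (b (a (b (l 243370311479) (l 16778368)) (l 16780336)) (l 16782080)) (b (l 16783336) (l 16786304)))) (b (b (l 6) (a (l 16783568) (l 16785904))) (a (b (l 16786144) (l 16788648)) (l 16790536)))))) (a (b (a (b (a (l 3) (b (l 3) (a (l 328732762151) (b (l 300815477863) (l 261623926135))))) (a (b (a (l 3) (l 312626677895)) (a (b (l 302962958951) (l 258939562503)) (l 221895482679))) (b (a (b (l 283098739159) (l 16776536))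 (l 16777136)) (l 16777344)))) (b (a (b (a (b (l 336785827607) (l 287930577463)) (b (l 271287580983) (l 16777264))) (a (l 227264195287) (l 16778904))) (b (l 16800728) (l 16782848))) (a (b (l 16779712) (l 16781112)) (b (l 16784816) (l 16786600))))) (a (b (a (b (l 16775456) (l 16775488)) (b (l 16777888) (l 16779024))) (b (l 16843096) (l 16782288))) (b (a (b (l 16782776) (l 16783672)) (l 16788992)) (l 16789928)))) (b (a (b (a (b (l 16785512) (l 16788056)) (l 16872176)) (l 16792736)) (b (l 16795544) (l 16803040))) (a (l 16822456) (l 16818000))))), by decide +kernel⟩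

def k2_pm_213_a : ∃ t, chk3 f_pm_213_a t 2 6 1 = true :=
  ⟨(b (a (b (a (l 3) (a (l 3) (b (l 357186915895) (a (b (l 3) (a (l 326585284567) (l 294909923399))) (b (l 298667998503) (l 16793080)))))) (a (b (l 3) (a (l 3) (a (b (l 3) (l 361481885623)) (b (l 339470180103) (a (a (l 329269638535) (l 293836160135)) (l 272898215335)))))) (b (a (a (b (l 3) (l 334101474135)) (b (a (l 341080796471) (l 299204869255)) (l 268603258167))) (a (b (l 263771427927) (l 16782200)) (l 16780904))) (a (a (b (a (l 292762418471) (l 255181483959)) (l 16781328)) (l 16782784)) (l 16783704))))) (b (a (a (b (a (b (l 326585282407) (l 282561871383)) (b (l 273971937047) (l 16779320))) (b (l 16779592) (l 16779664))) (b (l 16777896) (l 16778024))) (b (a (l 16776280) (l 16776184)) (l 16801448))) (a (a (b (l 16779792) (l 16781920)) (b (l 16778488) (l 16779232))) (l 16776600)))) (a (b (a (a (b (a (l 3) (b (l 3) (b (b (l 349133861095) (l 327122155991)) (a (l 322827189431) (l 267529503351)))))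 (a (b (a (b (l 3) (l 331953993799)) (b (l 327122156327) (a (b (l 295983644423) (l 263234525559)) (l 248202119831)))) (a (b (b (a (l 320679706311) (l 271287581335)) (l 264308272823)) (l 16778624)) (l 16780736))) (b (b (b (l 269676990135) (l 16778048)) (l 16781032)) (l 16783880)))) (b (a (b (b (a (l 3) (l 293836181511)) (b (l 300815482631) (l 280414386903))) (a (l 252497123319) (l 16782000))) (b (l 16780424) (l 16782960))) (l 16785520))) (a (b (l 16785392) (l 16789832)) (b (l 16787464) (l 16794896)))) (b (a (a (b (l 16785056) (l 16788248)) (l 16790888)) (l 16811064)) (a (a (l 16794856) (l 16805392)) (l 16815264)))) (b (a (b (l 16790456) (l 16789240)) (l 16779336)) (a (l 16807568) (l 16797448))))), by decide +kernel⟩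

def k3_pm_213_a : ∃ t, chk3 f_pm_213_a t 3 6 1 = true :=
  ⟨(b (a (a (l 16781416) (b (l 16794880) (l 16798536))) (b (a (l 16814160) (l 16832432)) (l 17006192))) (a (b (a (l 16781920) (l 16801000)) (a (l 16794584) (l 16803904))) (b (l 16833696) (a (l 16824048) (l 16848128))))), by decide +kernel⟩

def k4_pm_213_a : ∃ t, chk3 f_pm_213_a t 1 7 1 = true :=
  ⟨(a (b (a (b (a (b (l 16815968) (l 16835264)) (l 16855064)) (a (l 16849776) (l 16883224))) (b (a (l 16856648) (l 16842632)) (l 16928200))) (b (a (l 1) (a (l 1) (l 16969208))) (l 1))) (b (a (b (l 16831024) (a (l 16958160) (l 16883928))) (b (a (l 16837960) (l 16853624)) (a (l 16869928) (l 16871952)))) (a (b (a (l 16915944) (l 16998168)) (l 1)) (b (a (b (l 16885768) (l 16875352)) (l 16880864)) (a (b (b (l 16877352) (l 16868752)) (l 1)) (b (a (l 16874760) (l 16875504)) (l 16951600))))))), by decide +kernel⟩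

theorem s5_pm_213_a : ∃ t, chk3 f_pm_213_a t 1 6 1 = true := ex3_a k2_pm_213_a k3_pm_213_a

theorem s6_pm_213_a : ∃ t, chk3 f_pm_213_a t 1 3 1 = true := ex3_b s5_pm_213_a k4_pm_213_a

theorem s7_pm_213_a : ∃ t, chk3 f_pm_213_a t 1 2 1 = true := ex3_a k0_pm_213_a k1_pm_213_a

theorem s8_pm_213_a : ∃ t, chk3 f_pm_213_a t 1 1 1 = true := ex3_b s7_pm_213_a s6_pm_213_a

theorem c_pm_213_a : CertB 0 536870912 0 1230186008 536870912 50465866 3 eng mog cd1q2a cd6q3 pd1 false true false .pnn 2 1 3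
    ndB1q2a ndB6q3 pcB1 cut_pm_213_a Ext.none :=
  certB0 (fam := false) (s1 := true) (s2 := false) (a := 2) (b := 1) (c := 3) (cn := .pnn) (n1 := ndB1q2a) (n2 := ndB6q3) (pc := pcB1) (cut := cut_pm_213_a) (xt := Ext.none) (P1 := 0) (W1 := 536870912) (P2 := 0) (W2 := 1230186008) (P3 := 536870912) (W3 := 50465866) (N0 := 3) (En := eng) (mo := mog) (C1 := cd1q2a) (C2 := cd6q3) (C3 := pd1)
    rfl s8_pm_213_a

noncomputable def cut_pm_213_b : Cut := Cut.of [[⟨0, 1, 0, 67108864⟩, ⟨1, 1, 0, 67108864⟩, ⟨2, 2, 0, 16777216⟩]]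

noncomputable def f_pm_213_b : ℕ → ℕ → ℕ → ℕ → Bool := onCell 1239849684 370763052 0 1230186008 536870912 50465866
    (rowB 3 eng mog cd1q2b cd6q3 pd1 0 false true false .pnn 2 1 3 (qsf 1239849684 370763052 0 1230186008 1) ndB1q2b ndB6q3 pcB1 cut_pm_213_b Ext.none)

def k0_pm_213_b : ∃ t, chk3 f_pm_213_b t 1 1 1 = true :=
  ⟨(b (l 3) (b (a (b (l 3) (a (b (a (b (l 3) (b (l 3) (a (a (a (b (a (l 318532222567) (l 3)) (l 16781016)) (l 296520514503)) (l 315310996023)) (l 3)))) (l 3)) (a (b (b (a (a (l 16775168) (l 16773248)) (l 16773888)) (a (l 16773544) (l 16768352))) (a (l 16778320) (l 16761536))) (b (a (l 16772208) (l 3)) (b (l 16762472) (l 16753784))))) (b (l 3) (a (b (l 3) (l 222969274823)) (l 1))))) (l 3)) (a (b (a (b (a (b (l 16768544) (l 16769560)) (b (b (l 16746928) (l 16740784)) (l 16712208))) (l 16932968)) (l 1)) (l 1)) (l 1)))), by decide +kernel⟩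

theorem c_pm_213_b : CertB 1239849684 370763052 0 1230186008 536870912 50465866 3 eng mog cd1q2b cd6q3 pd1 false true false .pnn 2 1 3
    ndB1q2b ndB6q3 pcB1 cut_pm_213_b Ext.none :=
  certB0 (fam := false) (s1 := true) (s2 := false) (a := 2) (b := 1) (c := 3) (cn := .pnn) (n1 := ndB1q2b) (n2 := ndB6q3) (pc := pcB1) (cut := cut_pm_213_b) (xt := Ext.none) (P1 := 1239849684) (W1 := 370763052) (P2 := 0) (W2 := 1230186008) (P3 := 536870912) (W3 := 50465866) (N0 := 3) (En := eng) (mo := mog) (C1 := cd1q2b) (C2 := cd6q3) (C3 := pd1)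
    rfl k0_pm_213_b

noncomputable def f_pm_303 : ℕ → ℕ → ℕ → ℕ → Bool := onCell 0 536870912 0 1230186008 536870912 50465866
    (rowB 3 eng mog cd1q3 cd6q3 pd0 2 false true false .npn 3 0 3 (qsf 1610612736 536870912 0 1230186008 0) ndB1q3 ndB6q3 pcB0 Cut.none Ext.none)

def k0_pm_303 : ∃ t, chk3 f_pm_303 t 1 1 1 = true :=
  ⟨(b (l 3) (b (a (l 3) (a (l 3) (b (l 3) (l 1)))) (a (b (a (b (l 3) (a (a (l 16719272) (l 16789264)) (b (l 16617984) (b (l 16574656) (l 16543344))))) (a (b (l 3) (l 16605640)) (b (l 148881365031) (l 1)))) (a (b (a (l 16411424) (l 16414320)) (l 16160880)) (b (a (b (l 16508552) (l 1)) (l 1)) (l 1)))) (l 1)))), by decide +kernel⟩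

theorem c_pm_303 : CertB 1610612736 536870912 0 1230186008 536870912 50465866 3 eng mog cd1q3 cd6q3 pd0 false true false .npn 3 0 3
    ndB1q3 ndB6q3 pcB0 Cut.none Ext.none :=
  certB2 (fam := false) (s1 := true) (s2 := false) (a := 3) (b := 0) (c := 3) (cn := .npn) (n1 := ndB1q3) (n2 := ndB6q3) (pc := pcB0) (cut := Cut.none) (xt := Ext.none) (P1 := 1610612736) (W1 := 536870912) (P2 := 0) (W2 := 1230186008) (P3 := 536870912) (W3 := 50465866) (N0 := 3) (En := eng) (mo := mog) (C1 := cd1q3) (C2 := cd6q3) (C3 := pd0)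
    rfl (fun _ => rfl) k0_pm_303

noncomputable def f_pm_313 : ℕ → ℕ → ℕ → ℕ → Bool := onCell 1610612736 536870912 0 1230186008 536870912 50465866
    (rowB 3 eng mog cd1q3 cd6q3 pd1 0 false true false .dn 3 1 3 (qsf 1610612736 536870912 0 1230186008 1) ndB1q3 ndB6q3 pcB1 Cut.none Ext.none)

def k0_pm_313 : ∃ t, chk3 f_pm_313 t 1 1 1 = true :=
  ⟨(b (l 3) (l 1)), by decide +kernel⟩

theorem c_pm_313 : CertB 1610612736 536870912 0 1230186008 536870912 50465866 3 eng mog cd1q3 cd6q3 pd1 false true false .dn 3 1 3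
    ndB1q3 ndB6q3 pcB1 Cut.none Ext.none :=
  certB0 (fam := false) (s1 := true) (s2 := false) (a := 3) (b := 1) (c := 3) (cn := .dn) (n1 := ndB1q3) (n2 := ndB6q3) (pc := pcB1) (cut := Cut.none) (xt := Ext.none) (P1 := 1610612736) (W1 := 536870912) (P2 := 0) (W2 := 1230186008) (P3 := 536870912) (W3 := 50465866) (N0 := 3) (En := eng) (mo := mog) (C1 := cd1q3) (C2 := cd6q3) (C3 := pd1)
    rfl k0_pm_313

noncomputable def f_mm_001 : ℕ → ℕ → ℕ → ℕ → Bool := onCell 0 536870912 0 536870912 536870912 50465866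
    (rowB 3 eng mog cd1q0 cd6q1 pd0 1 false false false .up 0 0 1 (qsf 0 536870912 536870912 536870912 0) ndB1q0 ndB6q1 pcB0 Cut.none Ext.none)

def k0_mm_001 : ∃ t, chk3 f_mm_001 t 1 1 1 = true :=
  ⟨(l 3), by decide +kernel⟩

theorem c_mm_001 : CertB 0 536870912 536870912 536870912 536870912 50465866 3 eng mog cd1q0 cd6q1 pd0 false false false .up 0 0 1
    ndB1q0 ndB6q1 pcB0 Cut.none Ext.none :=
  certB1 (fam := false) (s1 := false) (s2 := false) (a := 0) (b := 0) (c := 1) (cn := .up) (n1 := ndB1q0) (n2 := ndB6q1) (pc := pcB0) (cut := Cut.none) (xt := Ext.none) (P1 := 0) (W1 := 536870912) (P2 := 536870912) (W2 := 536870912) (P3 := 536870912) (W3 := 50465866) (N0 := 3) (En := eng) (mo := mog) (C1 := cd1q0) (C2 := cd6q1) (C3 := pd0)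
    rfl (fun _ => rfl) k0_mm_001

noncomputable def f_mm_011 : ℕ → ℕ → ℕ → ℕ → Bool := onCell 0 536870912 536870912 536870912 536870912 50465866
    (rowB 3 eng mog cd1q0 cd6q1 pd1 1 false false false .pnn 0 1 1 (qsf 0 536870912 536870912 536870912 1) ndB1q0 ndB6q1 pcB1 Cut.none Ext.none)

def k0_mm_011 : ∃ t, chk3 f_mm_011 t 1 1 1 = true :=
  ⟨(l 5), by decide +kernel⟩

theorem c_mm_011 : CertB 0 536870912 536870912 536870912 536870912 50465866 3 eng mog cd1q0 cd6q1 pd1 false false false .pnn 0 1 1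
    ndB1q0 ndB6q1 pcB1 Cut.none Ext.none :=
  certB1 (fam := false) (s1 := false) (s2 := false) (a := 0) (b := 1) (c := 1) (cn := .pnn) (n1 := ndB1q0) (n2 := ndB6q1) (pc := pcB1) (cut := Cut.none) (xt := Ext.none) (P1 := 0) (W1 := 536870912) (P2 := 536870912) (W2 := 536870912) (P3 := 536870912) (W3 := 50465866) (N0 := 3) (En := eng) (mo := mog) (C1 := cd1q0) (C2 := cd6q1) (C3 := pd1)
    rfl (fun _ => rfl) k0_mm_011

noncomputable def f_mm_012 : ℕ → ℕ → ℕ → ℕ → Bool := onCell 0 536870912 1073741824 536870912 536870912 50465866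
    (rowB 3 eng mog cd1q0 cd6q2 pd1 0 false false false .pnp 0 1 2 (qsf 0 536870912 1073741824 536870912 1) ndB1q0 ndB6q2 pcB1 Cut.none Ext.none)

def k0_mm_012 : ∃ t, chk3 f_mm_012 t 1 1 1 = true :=
  ⟨(l 5), by decide +kernel⟩

theorem c_mm_012 : CertB 0 536870912 1073741824 536870912 536870912 50465866 3 eng mog cd1q0 cd6q2 pd1 false false false .pnp 0 1 2
    ndB1q0 ndB6q2 pcB1 Cut.none Ext.none :=
  certB0 (fam := false) (s1 := false) (s2 := false) (a := 0) (b := 1) (c := 2) (cn := .pnp) (n1 := ndB1q0) (n2 := ndB6q2) (pc := pcB1) (cut := Cut.none) (xt := Ext.none) (P1 := 0) (W1 := 536870912) (P2 := 1073741824) (W2 := 536870912) (P3 := 536870912) (W3 := 50465866) (N0 := 3) (En := eng) (mo := mog) (C1 := cd1q0) (C2 := cd6q2) (C3 := pd1)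
    rfl k0_mm_012

noncomputable def f_mm_022 : ℕ → ℕ → ℕ → ℕ → Bool := onCell 0 536870912 1073741824 536870912 536870912 50465866
    (rowB 3 eng mog cd1q0 cd6q2 pd2 0 false false false .pp 0 2 2 (qsf 0 536870912 1073741824 536870912 2) ndB1q0 ndB6q2 pcB2 Cut.none Ext.none)

def k0_mm_022 : ∃ t, chk3 f_mm_022 t 1 1 1 = true :=
  ⟨(l 5), by decide +kernel⟩

theorem c_mm_022 : CertB 0 536870912 1073741824 536870912 536870912 50465866 3 eng mog cd1q0 cd6q2 pd2 false false false .pp 0 2 2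
    ndB1q0 ndB6q2 pcB2 Cut.none Ext.none :=
  certB0 (fam := false) (s1 := false) (s2 := false) (a := 0) (b := 2) (c := 2) (cn := .pp) (n1 := ndB1q0) (n2 := ndB6q2) (pc := pcB2) (cut := Cut.none) (xt := Ext.none) (P1 := 0) (W1 := 536870912) (P2 := 1073741824) (W2 := 536870912) (P3 := 536870912) (W3 := 50465866) (N0 := 3) (En := eng) (mo := mog) (C1 := cd1q0) (C2 := cd6q2) (C3 := pd2)
    rfl k0_mm_022

noncomputable def f_mm_023 : ℕ → ℕ → ℕ → ℕ → Bool := onCell 0 536870912 0 1230186008 536870912 50465866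
    (rowB 3 eng mog cd1q0 cd6q3 pd2 0 false false false .up 0 2 3 (qsf 0 536870912 0 1230186008 2) ndB1q0 ndB6q3 pcB2 Cut.none Ext.none)

def k0_mm_023 : ∃ t, chk3 f_mm_023 t 1 1 1 = true :=
  ⟨(l 5), by decide +kernel⟩

theorem c_mm_023 : CertB 0 536870912 0 1230186008 536870912 50465866 3 eng mog cd1q0 cd6q3 pd2 false false false .up 0 2 3
    ndB1q0 ndB6q3 pcB2 Cut.none Ext.none :=
  certB0 (fam := false) (s1 := false) (s2 := false) (a := 0) (b := 2) (c := 3) (cn := .up) (n1 := ndB1q0) (n2 := ndB6q3) (pc := pcB2) (cut := Cut.none) (xt := Ext.none) (P1 := 0) (W1 := 536870912) (P2 := 0) (W2 := 1230186008) (P3 := 536870912) (W3 := 50465866) (N0 := 3) (En := eng) (mo := mog) (C1 := cd1q0) (C2 := cd6q3) (C3 := pd2)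
    rfl k0_mm_023

noncomputable def f_mm_033 : ℕ → ℕ → ℕ → ℕ → Bool := onCell 0 536870912 0 1230186008 536870912 50465866
    (rowB 3 eng mog cd1q0 cd6q3 pd3 0 false false false .pnn 0 3 3 (qsf 0 536870912 0 1230186008 3) ndB1q0 ndB6q3 pcB3 Cut.none Ext.none)

def k0_mm_033 : ∃ t, chk3 f_mm_033 t 1 1 1 = true :=
  ⟨(l 5), by decide +kernel⟩

theorem c_mm_033 : CertB 0 536870912 0 1230186008 536870912 50465866 3 eng mog cd1q0 cd6q3 pd3 false false false .pnn 0 3 3
    ndB1q0 ndB6q3 pcB3 Cut.none Ext.none :=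
  certB0 (fam := false) (s1 := false) (s2 := false) (a := 0) (b := 3) (c := 3) (cn := .pnn) (n1 := ndB1q0) (n2 := ndB6q3) (pc := pcB3) (cut := Cut.none) (xt := Ext.none) (P1 := 0) (W1 := 536870912) (P2 := 0) (W2 := 1230186008) (P3 := 536870912) (W3 := 50465866) (N0 := 3) (En := eng) (mo := mog) (C1 := cd1q0) (C2 := cd6q3) (C3 := pd3)
    rfl k0_mm_033

noncomputable def f_mm_101 : ℕ → ℕ → ℕ → ℕ → Bool := onCell 536870912 536870912 0 536870912 536870912 50465866
    (rowB 3 eng mog cd1q1 cd6q1 pd0 1 false false false .npn 1 0 1 (qsf 536870912 536870912 536870912 536870912 0) ndB1q1 ndB6q1 pcB0 Cut.none Ext.none)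

def k0_mm_101 : ∃ t, chk3 f_mm_101 t 1 1 1 = true :=
  ⟨(l 3), by decide +kernel⟩

theorem c_mm_101 : CertB 536870912 536870912 536870912 536870912 536870912 50465866 3 eng mog cd1q1 cd6q1 pd0 false false false .npn 1 0 1
    ndB1q1 ndB6q1 pcB0 Cut.none Ext.none :=
  certB1 (fam := false) (s1 := false) (s2 := false) (a := 1) (b := 0) (c := 1) (cn := .npn) (n1 := ndB1q1) (n2 := ndB6q1) (pc := pcB0) (cut := Cut.none) (xt := Ext.none) (P1 := 536870912) (W1 := 536870912) (P2 := 536870912) (W2 := 536870912) (P3 := 536870912) (W3 := 50465866) (N0 := 3) (En := eng) (mo := mog) (C1 := cd1q1) (C2 := cd6q1) (C3 := pd0)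
    rfl (fun _ => rfl) k0_mm_101

noncomputable def f_mm_102 : ℕ → ℕ → ℕ → ℕ → Bool := onCell 536870912 536870912 1073741824 536870912 536870912 50465866
    (rowB 3 eng mog cd1q1 cd6q2 pd0 0 false false false .npp 1 0 2 (qsf 536870912 536870912 1073741824 536870912 0) ndB1q1 ndB6q2 pcB0 Cut.none Ext.none)

def k0_mm_102 : ∃ t, chk3 f_mm_102 t 1 1 1 = true :=
  ⟨(l 3), by decide +kernel⟩

theorem c_mm_102 : CertB 536870912 536870912 1073741824 536870912 536870912 50465866 3 eng mog cd1q1 cd6q2 pd0 false false false .npp 1 0 2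
    ndB1q1 ndB6q2 pcB0 Cut.none Ext.none :=
  certB0 (fam := false) (s1 := false) (s2 := false) (a := 1) (b := 0) (c := 2) (cn := .npp) (n1 := ndB1q1) (n2 := ndB6q2) (pc := pcB0) (cut := Cut.none) (xt := Ext.none) (P1 := 536870912) (W1 := 536870912) (P2 := 1073741824) (W2 := 536870912) (P3 := 536870912) (W3 := 50465866) (N0 := 3) (En := eng) (mo := mog) (C1 := cd1q1) (C2 := cd6q2) (C3 := pd0)
    rfl k0_mm_102

noncomputable def f_mm_112 : ℕ → ℕ → ℕ → ℕ → Bool := onCell 536870912 536870912 1073741824 536870912 536870912 50465866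
    (rowB 3 eng mog cd1q1 cd6q2 pd1 0 false false false .dn 1 1 2 (qsf 536870912 536870912 1073741824 536870912 1) ndB1q1 ndB6q2 pcB1 Cut.none Ext.none)

def k0_mm_112 : ∃ t, chk3 f_mm_112 t 1 1 1 = true :=
  ⟨(l 3), by decide +kernel⟩

theorem c_mm_112 : CertB 536870912 536870912 1073741824 536870912 536870912 50465866 3 eng mog cd1q1 cd6q2 pd1 false false false .dn 1 1 2
    ndB1q1 ndB6q2 pcB1 Cut.none Ext.none :=
  certB0 (fam := false) (s1 := false) (s2 := false) (a := 1) (b := 1) (c := 2) (cn := .dn) (n1 := ndB1q1) (n2 := ndB6q2) (pc := pcB1) (cut := Cut.none) (xt := Ext.none) (P1 := 536870912) (W1 := 536870912) (P2 := 1073741824) (W2 := 536870912) (P3 := 536870912) (W3 := 50465866) (N0 := 3) (En := eng) (mo := mog) (C1 := cd1q1) (C2 := cd6q2) (C3 := pd1)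
    rfl k0_mm_112

noncomputable def f_mm_113 : ℕ → ℕ → ℕ → ℕ → Bool := onCell 536870912 536870912 0 1230186008 536870912 50465866
    (rowB 3 eng mog cd1q1 cd6q3 pd1 0 false false false .nn 1 1 3 (qsf 536870912 536870912 0 1230186008 1) ndB1q1 ndB6q3 pcB1 Cut.none Ext.none)

def k0_mm_113 : ∃ t, chk3 f_mm_113 t 1 1 1 = true :=
  ⟨(b (l 5) (b (l 5) (a (l 5) (l 3)))), by decide +kernel⟩

theorem c_mm_113 : CertB 536870912 536870912 0 1230186008 536870912 50465866 3 eng mog cd1q1 cd6q3 pd1 false false false .nn 1 1 3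
    ndB1q1 ndB6q3 pcB1 Cut.none Ext.none :=
  certB0 (fam := false) (s1 := false) (s2 := false) (a := 1) (b := 1) (c := 3) (cn := .nn) (n1 := ndB1q1) (n2 := ndB6q3) (pc := pcB1) (cut := Cut.none) (xt := Ext.none) (P1 := 536870912) (W1 := 536870912) (P2 := 0) (W2 := 1230186008) (P3 := 536870912) (W3 := 50465866) (N0 := 3) (En := eng) (mo := mog) (C1 := cd1q1) (C2 := cd6q3) (C3 := pd1)
    rfl k0_mm_113

noncomputable def f_mm_123 : ℕ → ℕ → ℕ → ℕ → Bool := onCell 1073741824 536870912 0 1230186008 536870912 50465866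
    (rowB 3 eng mog cd1q1 cd6q3 pd2 2 false false false .npn 1 2 3 (qsf 536870912 536870912 0 1230186008 2) ndB1q1 ndB6q3 pcB2 Cut.none Ext.none)

def k0_mm_123 : ∃ t, chk3 f_mm_123 t 1 1 1 = true :=
  ⟨(b (l 5) (l 5)), by decide +kernel⟩

theorem c_mm_123 : CertB 536870912 536870912 0 1230186008 536870912 50465866 3 eng mog cd1q1 cd6q3 pd2 false false false .npn 1 2 3
    ndB1q1 ndB6q3 pcB2 Cut.none Ext.none :=
  certB2 (fam := false) (s1 := false) (s2 := false) (a := 1) (b := 2) (c := 3) (cn := .npn) (n1 := ndB1q1) (n2 := ndB6q3) (pc := pcB2) (cut := Cut.none) (xt := Ext.none) (P1 := 536870912) (W1 := 536870912) (P2 := 0) (W2 := 1230186008) (P3 := 536870912) (W3 := 50465866) (N0 := 3) (En := eng) (mo := mog) (C1 := cd1q1) (C2 := cd6q3) (C3 := pd2)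
    rfl (fun _ => rfl) k0_mm_123

noncomputable def f_mm_133 : ℕ → ℕ → ℕ → ℕ → Bool := onCell 536870912 536870912 0 1230186008 536870912 50465866
    (rowB 3 eng mog cd1q1 cd6q3 pd3 0 false false false .dn 1 3 3 (qsf 536870912 536870912 0 1230186008 3) ndB1q1 ndB6q3 pcB3 Cut.none Ext.none)

def k0_mm_133 : ∃ t, chk3 f_mm_133 t 1 1 1 = true :=
  ⟨(b (l 5) (l 1)), by decide +kernel⟩

theorem c_mm_133 : CertB 536870912 536870912 0 1230186008 536870912 50465866 3 eng mog cd1q1 cd6q3 pd3 false false false .dn 1 3 3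
    ndB1q1 ndB6q3 pcB3 Cut.none Ext.none :=
  certB0 (fam := false) (s1 := false) (s2 := false) (a := 1) (b := 3) (c := 3) (cn := .dn) (n1 := ndB1q1) (n2 := ndB6q3) (pc := pcB3) (cut := Cut.none) (xt := Ext.none) (P1 := 536870912) (W1 := 536870912) (P2 := 0) (W2 := 1230186008) (P3 := 536870912) (W3 := 50465866) (N0 := 3) (En := eng) (mo := mog) (C1 := cd1q1) (C2 := cd6q3) (C3 := pd3)
    rfl k0_mm_133

noncomputable def cut_mm_202_a : Cut := Cut.of [[⟨0, 1, 0, 67108864⟩, ⟨1, 0, 0, 67108864⟩, ⟨2, 1, 0, 67108864⟩]]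

noncomputable def f_mm_202_a : ℕ → ℕ → ℕ → ℕ → Bool := onCell 0 536870912 0 536870912 536870912 50465866
    (rowB 3 eng mog cd1q2a cd6q2 pd0 1 false false false .pp 2 0 2 (qsf 0 536870912 1073741824 536870912 0) ndB1q2a ndB6q2 pcB0 cut_mm_202_a Ext.none)

def k0_mm_202_a : ∃ t, chk3 f_mm_202_a t 2 2 1 = true :=
  ⟨(b (b (a (b (l 16624312) (a (l 16649544) (l 16639080))) (b (a (l 16610848) (l 16607488)) (l 16732328))) (a (b (l 16749528) (l 16675240)) (b (a (l 16643536) (l 16642152)) (a (a (l 16656728) (l 16652904)) (a (b (l 16649432) (l 16654184)) (b (l 16651808) (l 16660672))))))) (b (a (a (l 16693360) (b (l 16674336) (b (l 16668304) (l 16667776)))) (b (a (b (a (l 16661920) (l 16658256)) (l 16665728)) (a (l 16663912) (b (l 16667424) (l 16671016)))) (a (a (l 16664696) (l 16653184)) (a (b (l 16665480) (l 16671704)) (l 16683808))))) (a (b (a (b (l 16678576) (l 16675736)) (b (l 16665608) (l 16664048))) (a (l 16677528) (a (l 16668288) (l 16667040))))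 (a (b (a (l 16661672) (l 16670264)) (a (l 16674944) (l 16679776))) (b (a (l 16679416) (b (l 16690888) (a (l 16692712) (l 16700376)))) (a (b (l 16687504) (l 16711224)) (b (a (l 16697584) (l 16709072)) (l 16762368)))))))), by decide +kernel⟩

def k1_mm_202_a : ∃ t, chk3 f_mm_202_a t 2 3 1 = true :=
  ⟨(b (a (b (b (a (l 16667936) (a (l 16680456) (l 16685840))) (a (l 16699656) (l 16703944))) (a (b (l 16736856) (l 16760064)) (b (a (l 16732304) (b (l 16727400) (l 16738336))) (b (a (l 16749792) (l 16750944)) (l 2))))) (b (a (b (a (l 16688280) (b (l 16691768) (l 16701384))) (b (a (l 16705528) (l 16716456)) (a (l 16718272) (l 16730600)))) (b (a (b (l 16705616) (l 16740360)) (b (a (l 16721512) (b (l 16730112) (l 187535670135))) (a (b (l 16733920) (l 181093228631)) (b (a (l 16753760) (l 236390917015)) (l 238538410263))))) (a (b (a (l 16727736) (b (l 16736792) (l 16760192))) (a (b (l 16738000) (l 16761704)) (b (l 235317181111) (l 242296517511)))) (b (a (b (l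 229948486039) (l 233169707911)) (l 3)) (l 3))))) (a (b (a (b (l 16733176) (l 16742776)) (b (a (l 16738072) (b (l 16740776) (l 16768912))) (a (b (l 16744152) (l 16770232)) (b (l 228337867607) (l 255181428167))))) (a (a (l 243840077287) (b (b (l 16748224) (l 16771064)) (b (a (l 2) (l 256792018439)) (l 2)))) (b (a (b (l 230485357111) (l 256792044183)) (l 3)) (l 3)))) (b (a (b (a (b (l 241222775543) (l 251423327351)) (l 3)) (l 3)) (l 3)) (l 3))))) (a (l 2) (a (l 2) (l 3)))), by decide +kernel⟩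

def k2_mm_202_a : ∃ t, chk3 f_mm_202_a t 6 4 1 = true :=
  ⟨(b (a (b (b (l 16611400) (l 16622440)) (l 16637200)) (b (b (a (l 16626816) (l 16642784)) (l 16667640)) (b (a (l 16649112) (a (l 16661320) (b (l 16668448) (l 16776344)))) (a (b (l 16656304) (a (l 16656800) (l 16664840))) (b (a (l 16668560) (l 16680536)) (l 16681728)))))) (a (b (a (b (l 16644920) (b (l 16648952) (l 16654296))) (b (b (l 16814832) (l 16656016)) (a (l 16661576) (l 16668472)))) (b (a (l 16662296) (a (l 16671528) (l 16678288))) (a (l 16669696) (l 16685496)))) (b (a (b (a (l 16665816) (l 16674688)) (a (l 16677416) (l 16686536))) (b (a (b (l 16682240) (l 16688472)) (b (l 16693824) (l 16701232))) (b (l 16764848) (l 16707280)))) (a (b (a (l 16688616) (l 16698944)) (l 16703736)) (b (b (l 16712920) (a (l 16712024) (l 16744904))) (b (a (l 16717408) (l 16772432)) (a (l 16744320) (l 16758008)))))))), by decide +kernel⟩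

def k3_mm_202_a : ∃ t, chk3 f_mm_202_a t 14 8 1 = true :=
  ⟨(b (b (a (b (l 16660440) (l 16667304)) (b (a (l 16679792) (l 6)) (l 16694512))) (a (l 16676984) (b (a (l 16693848) (a (l 16705200) (b (l 6) (l 16715008)))) (a (b (l 16697976) (l 16702128)) (b (a (l 16710400) (l 16718920)) (l 16718536)))))) (b (a (b (a (l 16677800) (b (l 16690696) (l 16694520))) (a (l 16686128) (l 16699960))) (a (b (b (l 16705976) (l 16709696)) (a (l 16711168) (l 16740384))) (b (b (a (l 16718152) (l 16726704)) (l 16768304)) (a (l 16748880) (l 16736344))))) (a (a (b (l 16693160) (l 16700056)) (b (l 16728160) (l 16736000))) (a (b (l 16765120) (l 16730128)) (b (a (l 16735200) (b (l 16741968) (l 16766560))) (a (b (l 16740584) (l 16765200)) (b (a (l 16747128) (l 16751504)) (l 16773888)))))))), by decide +kernel⟩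

def k4_mm_202_a : ∃ t, chk3 f_mm_202_a t 15 8 1 = true :=
  ⟨(b (a (b (l 6) (a (b (l 6) (a (b (l 16727792) (l 16731712)) (b (l 6) (l 16741000)))) (l 6))) (l 6)) (a (b (a (b (a (l 16779648) (b (l 16744864) (a (l 16746400) (l 16751040)))) (b (a (l 16743352) (a (l 16750184) (c (l 16776280) (l 16775584)))) (a (a (l 16744880) (l 16749368)) (a (l 16775040) (l 16769200))))) (b (a (a (b (l 16751928) (a (l 16754624) (l 16778024))) (b (l 6) (l 16760664))) (a (b (l 6) (b (l 6) (l 117742490215))) (l 6))) (a (b (a (l 16770160) (c (l 125795551847) (l 119353100823))) (a (c (l 16768832) (l 16768616)) (a (b (l 16768776) (c (l 218137344263) (l 222969182391))) (b (c (l 219211087175) (l 223506054391)) (l 3))))) (b (a (a (b (l 16769856) (c (l 219211088295) (l 224579797319))) (b (c (l 219747960327) (l 225116669351)) (l 3))) (l 3)) (l 3))))) (a (b (b (a (a (l 16748584) (l 16753208)) (a (l 16768264) (l 16768208))) (a (l 16765120) (a (l 16766736) (a (b (l 16764088) (l 152102224359))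 (b (l 136532969607) (l 225116666887)))))) (a (a (l 16768280) (b (l 16765776) (a (l 16767144) (b (l 16767072) (l 248738982823))))) (a (b (a (l 151028481415) (b (l 149954739991) (l 250349597639))) (a (l 249812727751) (l 3))) (b (a (b (l 235317213159) (l 3)) (l 3)) (l 3))))) (a (b (a (b (a (b (l 16765104) (c (l 217600471207) (l 221895438407))) (b (c (l 218137343175) (l 222432310391)) (l 3))) (l 3)) (l 3)) (l 3)) (l 3)))) (b (b (l 6) (l 3)) (l 3)))), by decide +kernel⟩

def k5_mm_202_a : ∃ t, chk3 f_mm_202_a t 14 9 1 = true :=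
  ⟨(b (a (b (a (b (l 16707744) (l 16714072)) (a (l 16721344) (b (l 16725384) (l 16731952)))) (a (b (l 16720472) (a (l 16723096) (l 16729752))) (b (a (l 16730848) (c (l 16760488) (l 16758960))) (a (l 16758528) (l 16745160))))) (b (a (b (a (l 16733128) (b (l 16739312) (l 16763928))) (a (l 16760880) (l 16769160))) (b (a (b (l 16768888) (l 16772288)) (a (l 16766536) (b (l 16758704) (a (l 16766392) (l 126332416967))))) (a (b (l 16765288) (c (l 119353093687) (l 120963705127))) (a (b (b (l 16765704) (l 107005065943)) (a (l 179482630343) (l 3))) (b (a (l 202031210567) (l 3)) (l 3)))))) (a (b (a (l 16746608) (b (l 16753184) (a (l 16754456) (l 117205607751)))) (a (c (l 118816217911) (l 118279345799)) (a (b (l 16764416) (a (l 127943024647) (l 210621140807))) (b (a (l 124721799799) (l 192904402535)) (l 3))))) (b (a (a (b (l 116668739255) (a (l 176798274679) (l 207936789927))) (b (b (l 182166983495) (l 3)) (l 3))) (l 3)) (l 3))))) (a (b (a (b (a (l 16728608)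 (l 16757280)) (l 16770256)) (a (b (l 16743704) (l 134385464631)) (b (b (l 16750040) (l 16760520)) (a (b (l 16765008) (a (l 203641814455) (l 243370259927))) (b (l 231559098791) (l 3)))))) (a (b (b (l 16764176) (l 16757064)) (a (l 16758104) (b (l 127406150711) (a (l 124184924791) (l 254107678519))))) (b (a (a (b (l 16752976) (l 156934050839)) (b (a (l 162839626759) (l 244980870695)) (l 3))) (l 3)) (l 3)))) (b (a (a (b (b (a (l 16761416) (a (l 130090507687) (l 212231751735))) (a (l 219747940407) (l 3))) (l 3)) (l 3)) (l 3)) (l 3)))), by decide +kernel⟩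

def k6_mm_202_a : ∃ t, chk3 f_mm_202_a t 15 9 1 = true :=
  ⟨(b (a (a (b (a (b (a (b (a (l 16767328) (b (l 16768704) (l 219747951559))) (a (l 220821694439) (l 3))) (b (a (l 248738983879) (l 3)) (l 3))) (l 3)) (l 3)) (l 3)) (l 3)) (l 3)) (l 3)), by decide +kernel⟩

def k7_mm_202_a : ∃ t, chk3 f_mm_202_a t 6 10 1 = true :=
  ⟨(a (b (a (b (l 16677888) (l 16686776)) (b (l 16694328) (l 16704216))) (a (b (l 16693792) (a (l 16696816) (l 16705808))) (a (b (l 16708344) (l 16716632)) (b (l 16760728) (l 16749080))))) (b (a (a (b (l 16709392) (l 16761848)) (b (b (l 16717360) (l 16723504)) (b (l 16750704) (l 16734328)))) (b (a (a (l 16772144) (l 16736072)) (b (a (l 16739680) (l 16757024)) (a (l 16745480) (b (l 122037439927) (a (l 120426822695) (l 224042901239)))))) (a (b (a (l 16738120) (l 16744400)) (a (l 16743288) (b (l 165523976807) (a (l 177335132935) (l 244980860887))))) (b (a (b (l 138143564039) (a (l 145122880935) (l 244980863831))) (b (l 252497063159)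 (l 3))) (a (b (l 248738963799) (l 3)) (l 3)))))) (a (b (a (l 16772712) (b (l 16760152) (a (l 16740888) (a (l 16752216) (b (l 16752648) (l 251960176983)))))) (a (b (l 16757568) (a (l 16738104) (a (l 16753216) (b (l 16744632) (l 253033913255))))) (b (a (b (l 16754976) (a (l 16745344) (l 252497045015))) (b (l 257328889671) (l 3))) (a (a (l 258402646215) (l 3)) (l 3))))) (b (a (b (a (a (l 174650770871) (b (l 181630098551) (l 249812696183))) (b (l 249275831767) (l 3))) (a (b (l 256255150711) (l 3)) (l 3))) (l 3)) (l 3))))), by decide +kernel⟩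

def k8_mm_202_a : ∃ t, chk3 f_mm_202_a t 6 11 1 = true :=
  ⟨(a (b (a (a (b (l 16703200) (l 16711624)) (b (l 16714160) (l 16722240))) (b (a (l 16724592) (a (l 16754312) (b (l 16736920) (a (l 16740664) (l 177872002375))))) (a (b (l 16731904) (a (l 16734192) (l 173040163207))) (b (a (l 175187647895) (a (l 250886431751) (l 3))) (a (l 244980855431) (l 3)))))) (a (b (a (l 16720328) (a (l 16750888) (b (l 16733488) (l 184314440807)))) (a (b (l 16729680) (l 189683152103)) (b (a (l 187535664359) (l 234780306279)) (a (l 235317176375) (l 3))))) (b (a (b (a (l 169282065815) (l 243907113015)) (a (b (l 231559077367) (l 249812696679)) (l 3))) (l 3)) (l 3)))) (b (a (b (a (b (a (b (l 16762808) (l 242833360039)) (a (l 256255142503) (l 3))) (a (a (l 253570787031) (l 3)) (l 3))) (l 3)) (l 3)) (l 3)) (l 3))), by decide +kernel⟩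

def k9_mm_202_a : ∃ t, chk3 f_mm_202_a t 7 5 1 = true :=
  ⟨(b (a (b (a (b (a (b (a (b (l 122037435383) (a (l 116668729447) (l 225116646119))) (a (l 255181423047) (l 3))) (a (b (l 228874746055) (l 3)) (l 3))) (l 3)) (l 3)) (l 3)) (l 3)) (l 3)) (l 3)), by decide +kernel⟩

def k10_mm_202_a : ∃ t, chk3 f_mm_202_a t 3 3 1 = true :=
  ⟨(b (a (b (a (b (a (b (a (b (a (l 196662471111) (l 236927787991)) (a (l 227800980967) (l 3))) (l 3)) (l 3)) (l 3)) (l 3)) (l 3)) (l 3)) (l 3)) (l 3)), by decide +kernel⟩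

theorem s11_mm_202_a : ∃ t, chk3 f_mm_202_a t 6 5 1 = true := ex3_b k7_mm_202_a k8_mm_202_a

theorem s12_mm_202_a : ∃ t, chk3 f_mm_202_a t 3 5 1 = true := ex3_a s11_mm_202_a k9_mm_202_a

theorem s13_mm_202_a : ∃ t, chk3 f_mm_202_a t 7 9 1 = true := ex3_a k5_mm_202_a k6_mm_202_a

theorem s14_mm_202_a : ∃ t, chk3 f_mm_202_a t 7 8 1 = true := ex3_a k3_mm_202_a k4_mm_202_a

theorem s15_mm_202_a : ∃ t, chk3 f_mm_202_a t 7 4 1 = true := ex3_b s14_mm_202_a s13_mm_202_a

theorem s16_mm_202_a : ∃ t, chk3 f_mm_202_a t 3 4 1 = true := ex3_a k2_mm_202_a s15_mm_202_a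

theorem s17_mm_202_a : ∃ t, chk3 f_mm_202_a t 3 2 1 = true := ex3_b s16_mm_202_a s12_mm_202_a

theorem s18_mm_202_a : ∃ t, chk3 f_mm_202_a t 3 1 1 = true := ex3_b s17_mm_202_a k10_mm_202_a

theorem s19_mm_202_a : ∃ t, chk3 f_mm_202_a t 2 1 1 = true := ex3_b k0_mm_202_a k1_mm_202_a

theorem s20_mm_202_a : ∃ t, chk3 f_mm_202_a t 1 1 1 = true := ex3_a s19_mm_202_a s18_mm_202_a

theorem c_mm_202_a : CertB 0 536870912 1073741824 536870912 536870912 50465866 3 eng mog cd1q2a cd6q2 pd0 false false false .pp 2 0 2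
    ndB1q2a ndB6q2 pcB0 cut_mm_202_a Ext.none :=
  certB1 (fam := false) (s1 := false) (s2 := false) (a := 2) (b := 0) (c := 2) (cn := .pp) (n1 := ndB1q2a) (n2 := ndB6q2) (pc := pcB0) (cut := cut_mm_202_a) (xt := Ext.none) (P1 := 0) (W1 := 536870912) (P2 := 1073741824) (W2 := 536870912) (P3 := 536870912) (W3 := 50465866) (N0 := 3) (En := eng) (mo := mog) (C1 := cd1q2a) (C2 := cd6q2) (C3 := pd0)
    rfl (fun _ => rfl) s20_mm_202_a

noncomputable def cut_mm_202_b : Cut := Cut.of [[⟨0, 1, 0, 67108864⟩, ⟨1, 0, 0, 67108864⟩, ⟨2, 1, 0, 67108864⟩]]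

noncomputable def f_mm_202_b : ℕ → ℕ → ℕ → ℕ → Bool := onCell 0 536870912 1073741824 536870912 536870912 50465866
    (rowB 3 eng mog cd1q2b cd6q2 pd0 2 false false false .pp 2 0 2 (qsf 1239849684 370763052 1073741824 536870912 0) ndB1q2b ndB6q2 pcB0 cut_mm_202_b Ext.none)

def k0_mm_202_b : ∃ t, chk3 f_mm_202_b t 1 1 1 = true :=
  ⟨(a (b (a (b (l 1) (b (a (a (l 16650096) (l 16689992)) (l 1)) (a (l 16622248) (a (l 16687608) (l 16773976))))) (l 1)) (b (a (a (b (a (l 16514536) (l 16560568)) (l 16411216)) (b (a (l 16617488) (l 16668728)) (l 16521632))) (b (a (a (l 16720368) (l 16763968)) (l 1)) (a (l 16896880) (b (l 16771784) (l 16714280))))) (a (b (l 16348568) (a (l 16071008) (l 16192640))) (b (a (a (l 16443488) (l 16478528)) (a (l 16570864) (l 16644216))) (a (a (l 16277648) (l 16332208)) (b (l 16471696) (l 16406816))))))) (a (b (l 1) (b (l 1) (b (a (l 333966905815) (l 1)) (a (a (l 16569032) (l 16664496)) (b (l 323767295783) (l 333966977143))))))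 (l 1))), by decide +kernel⟩

theorem c_mm_202_b : CertB 1239849684 370763052 1073741824 536870912 536870912 50465866 3 eng mog cd1q2b cd6q2 pd0 false false false .pp 2 0 2
    ndB1q2b ndB6q2 pcB0 cut_mm_202_b Ext.none :=
  certB2 (fam := false) (s1 := false) (s2 := false) (a := 2) (b := 0) (c := 2) (cn := .pp) (n1 := ndB1q2b) (n2 := ndB6q2) (pc := pcB0) (cut := cut_mm_202_b) (xt := Ext.none) (P1 := 1239849684) (W1 := 370763052) (P2 := 1073741824) (W2 := 536870912) (P3 := 536870912) (W3 := 50465866) (N0 := 3) (En := eng) (mo := mog) (C1 := cd1q2b) (C2 := cd6q2) (C3 := pd0)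
    rfl (fun _ => rfl) k0_mm_202_b

noncomputable def f_mm_203_a : ℕ → ℕ → ℕ → ℕ → Bool := onCell 0 536870912 0 1230186008 536870912 50465866
    (rowB 3 eng mog cd1q2a cd6q3 pd0 0 false false false .up 2 0 3 (qsf 0 536870912 0 1230186008 0) ndB1q2a ndB6q3 pcB0 Cut.none Ext.none)

def k0_mm_203_a : ∃ t, chk3 f_mm_203_a t 1 2 1 = true :=
  ⟨(l 2), by decide +kernel⟩

def k1_mm_203_a : ∃ t, chk3 f_mm_203_a t 1 6 1 = true :=
  ⟨(l 2), by decide +kernel⟩

def k2_mm_203_a : ∃ t, chk3 f_mm_203_a t 2 14 1 = true :=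
  ⟨(a (b (l 2) (a (b (l 2) (a (b (a (a (l 290547816343) (b (b (l 2) (l 210084300263)) (l 16770696))) (b (a (l 308331675111) (l 3)) (a (b (a (l 239612191559) (l 283098740807)) (l 210084309671)) (l 3)))) (a (l 16766936) (b (a (l 16780544) (b (l 266992600167) (l 210084297863))) (a (l 16767808) (l 187535718039))))) (b (l 3) (a (a (b (l 3) (b (l 267529480775) (a (l 16780544) (l 267529477143)))) (l 3)) (l 3))))) (l 3))) (l 3)), by decide +kernel⟩

def k3_mm_203_a : ∃ t, chk3 f_mm_203_a t 2 15 1 = true :=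
  ⟨(b (a (a (b (a (b (l 16768272) (l 16767216)) (b (a (b (a (l 189683202199) (b (l 266992608791) (l 240685947319))) (b (l 192367559991) (l 16766368))) (b (l 3) (a (b (l 264308253095) (l 240149074903)) (l 3)))) (a (l 16764800) (b (a (b (l 211158041655) (l 16765952)) (b (l 269676962247) (l 239075333367))) (a (l 16764616) (b (l 211158040135) (l 16765088))))))) (a (b (l 16772240) (l 16775224)) (b (a (l 16764960) (l 16763208)) (l 16767648)))) (b (a (b (l 3) (a (a (b (l 3) (b (l 3) (l 263234504183))) (l 3)) (l 3))) (l 3)) (a (b (a (b (a (c (l 219747974071) (l 225116678711)) (b (l 3) (l 262697634279))) (a (l 16762776) (a (l 16771384) (l 251960228295)))) (a (b (l 3) (l 269140074295)) (l 3))) (a (b (l 16761664) (l 16761008)) (b (a (b (l 240685903751) (l 207399938519)) (l 268603204535)) (a (l 16760648) (b (l 239075298183) (l 206326199143)))))) (b (l 3) (a (b (l 3) (a (l 268066361031) (l 3))) (l 3)))))) (l 3)) (a (a (b (a (l 16778216) (b (l 16770760) (l 16768416)))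 (l 16763232)) (b (a (b (b (l 16770448) (l 16761680)) (l 16765072)) (b (a (b (a (b (l 264308243479) (l 206326200871)) (l 265918866503)) (a (l 16758536) (b (l 266992597511) (l 237464710071)))) (b (l 3) (l 268066343447))) (a (b (l 16756888) (l 16757464)) (b (a (l 257328914695) (l 3)) (a (l 16755504) (l 257328913319)))))) (a (b (l 16762216) (l 16752648)) (b (a (l 16758328) (b (l 16774960) (l 16755192))) (l 16776872))))) (a (b (l 3) (a (b (a (b (a (l 256255170375) (l 3)) (a (l 16752288) (l 255181427735))) (l 3)) (a (b (l 16768216) (l 16751944)) (b (a (l 254107685351) (l 3)) (a (l 16773464) (l 266992586551))))) (l 3))) (l 3)))), by decide +kernel⟩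

def k4_mm_203_a : ∃ t, chk3 f_mm_203_a t 3 7 1 = true :=
  ⟨(l 3), by decide +kernel⟩

theorem s5_mm_203_a : ∃ t, chk3 f_mm_203_a t 2 7 1 = true := ex3_b k2_mm_203_a k3_mm_203_a

theorem s6_mm_203_a : ∃ t, chk3 f_mm_203_a t 1 7 1 = true := ex3_a s5_mm_203_a k4_mm_203_a

theorem s7_mm_203_a : ∃ t, chk3 f_mm_203_a t 1 3 1 = true := ex3_b k1_mm_203_a s6_mm_203_a

theorem s8_mm_203_a : ∃ t, chk3 f_mm_203_a t 1 1 1 = true := ex3_b k0_mm_203_a s7_mm_203_a

theorem c_mm_203_a : CertB 0 536870912 0 1230186008 536870912 50465866 3 eng mog cd1q2a cd6q3 pd0 false false false .up 2 0 3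
    ndB1q2a ndB6q3 pcB0 Cut.none Ext.none :=
  certB0 (fam := false) (s1 := false) (s2 := false) (a := 2) (b := 0) (c := 3) (cn := .up) (n1 := ndB1q2a) (n2 := ndB6q3) (pc := pcB0) (cut := Cut.none) (xt := Ext.none) (P1 := 0) (W1 := 536870912) (P2 := 0) (W2 := 1230186008) (P3 := 536870912) (W3 := 50465866) (N0 := 3) (En := eng) (mo := mog) (C1 := cd1q2a) (C2 := cd6q3) (C3 := pd0)
    rfl s8_mm_203_a

noncomputable def f_mm_203_b : ℕ → ℕ → ℕ → ℕ → Bool := onCell 0 536870912 0 1230186008 536870912 50465866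
    (rowB 3 eng mog cd1q2b cd6q3 pd0 2 false false false .up 2 0 3 (qsf 1239849684 370763052 0 1230186008 0) ndB1q2b ndB6q3 pcB0 Cut.none Ext.none)

def k0_mm_203_b : ∃ t, chk3 f_mm_203_b t 1 1 1 = true :=
  ⟨(b (l 3) (b (l 3) (b (b (l 3) (a (l 3) (a (a (l 3) (l 3)) (b (a (l 3) (a (l 3) (b (l 3) (a (l 160155306631) (l 134922376247))))) (b (a (l 16747960) (a (l 16737768) (a (l 16750800) (l 16762912)))) (a (l 16759568) (a (l 16730560) (l 246994135351)))))))) (a (a (a (b (l 2) (l 16168432)) (b (b (l 3) (l 16374000)) (b (l 16253456) (l 16188488)))) (b (a (l 98951412167) (b (l 16523720) (l 16474856))) (a (a (l 16299936) (l 16393888)) (b (l 16415096) (l 16403696))))) (a (b (a (a (l 16550152) (l 16577848)) (a (b (l 16621616) (l 16593760)) (b (l 16644224) (l 16636896)))) (a (l 16490472) (b (l 16622816) (l 16711968)))) (a (b (a (b (l 16672592) (l 16688520)) (b (l 16707528) (l 16756944))) (a (b (l 16765256) (l 16820440)) (l 463353482231))) (b (b (a (a (l 16739840)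 (l 16767088)) (l 393559890439)) (l 468184987991)) (l 1)))))))), by decide +kernel⟩

theorem c_mm_203_b : CertB 1239849684 370763052 0 1230186008 536870912 50465866 3 eng mog cd1q2b cd6q3 pd0 false false false .up 2 0 3
    ndB1q2b ndB6q3 pcB0 Cut.none Ext.none :=
  certB2 (fam := false) (s1 := false) (s2 := false) (a := 2) (b := 0) (c := 3) (cn := .up) (n1 := ndB1q2b) (n2 := ndB6q3) (pc := pcB0) (cut := Cut.none) (xt := Ext.none) (P1 := 1239849684) (W1 := 370763052) (P2 := 0) (W2 := 1230186008) (P3 := 536870912) (W3 := 50465866) (N0 := 3) (En := eng) (mo := mog) (C1 := cd1q2b) (C2 := cd6q3) (C3 := pd0)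
    rfl (fun _ => rfl) k0_mm_203_b

noncomputable def f_mm_213_a : ℕ → ℕ → ℕ → ℕ → Bool := onCell 0 536870912 0 1230186008 536870912 50465866
    (rowB 3 eng mog cd1q2a cd6q3 pd1 0 false false false .pnn 2 1 3 (qsf 0 536870912 0 1230186008 1) ndB1q2a ndB6q3 pcB1 Cut.none Ext.none)

def k0_mm_213_a : ∃ t, chk3 f_mm_213_a t 1 1 1 = true :=
  ⟨(b (a (l 3) (b (l 5) (l 3))) (b (l 3) (a (b (a (b (l 3) (a (b (a (b (l 3) (a (b (a (a (b (l 3) (a (l 276656283623) (l 291151805623))) (l 3)) (l 3)) (b (a (a (l 227264170471) (a (l 277730030871) (l 292225547431))) (l 3)) (a (l 213305529271) (l 283098734487)))) (l 3))) (l 3)) (b (a (b (a (a (l 16774976) (a (b (l 245517772647) (l 16773816)) (b (l 278803773767) (l 247128384759)))) (a (l 307794798967) (l 3))) (l 1)) (l 3)) (l 1))) (l 3))) (l 3)) (b (a (l 1) (l 3)) (l 1))) (l 3)))), by decide +kernel⟩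

theorem c_mm_213_a : CertB 0 536870912 0 1230186008 536870912 50465866 3 eng mog cd1q2a cd6q3 pd1 false false false .pnn 2 1 3
    ndB1q2a ndB6q3 pcB1 Cut.none Ext.none :=
  certB0 (fam := false) (s1 := false) (s2 := false) (a := 2) (b := 1) (c := 3) (cn := .pnn) (n1 := ndB1q2a) (n2 := ndB6q3) (pc := pcB1) (cut := Cut.none) (xt := Ext.none) (P1 := 0) (W1 := 536870912) (P2 := 0) (W2 := 1230186008) (P3 := 536870912) (W3 := 50465866) (N0 := 3) (En := eng) (mo := mog) (C1 := cd1q2a) (C2 := cd6q3) (C3 := pd1)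
    rfl k0_mm_213_a

noncomputable def f_mm_213_b : ℕ → ℕ → ℕ → ℕ → Bool := onCell 1239849684 370763052 0 1230186008 536870912 50465866
    (rowB 3 eng mog cd1q2b cd6q3 pd1 0 false false false .pnn 2 1 3 (qsf 1239849684 370763052 0 1230186008 1) ndB1q2b ndB6q3 pcB1 Cut.none Ext.none)

def k0_mm_213_b : ∃ t, chk3 f_mm_213_b t 1 1 1 = true :=
  ⟨(b (l 3) (b (l 3) (a (b (a (b (l 3) (a (b (b (l 3) (a (a (b (b (l 3) (a (b (l 273435067735) (l 16773248)) (l 16771608))) (l 16779304)) (l 279877516887)) (l 1))) (a (b (a (l 16767760) (l 1)) (l 1)) (l 1))) (l 1))) (l 1)) (l 1)) (l 1)))), by decide +kernel⟩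

theorem c_mm_213_b : CertB 1239849684 370763052 0 1230186008 536870912 50465866 3 eng mog cd1q2b cd6q3 pd1 false false false .pnn 2 1 3
    ndB1q2b ndB6q3 pcB1 Cut.none Ext.none :=
  certB0 (fam := false) (s1 := false) (s2 := false) (a := 2) (b := 1) (c := 3) (cn := .pnn) (n1 := ndB1q2b) (n2 := ndB6q3) (pc := pcB1) (cut := Cut.none) (xt := Ext.none) (P1 := 1239849684) (W1 := 370763052) (P2 := 0) (W2 := 1230186008) (P3 := 536870912) (W3 := 50465866) (N0 := 3) (En := eng) (mo := mog) (C1 := cd1q2b) (C2 := cd6q3) (C3 := pd1)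
    rfl k0_mm_213_b

noncomputable def f_mm_303 : ℕ → ℕ → ℕ → ℕ → Bool := onCell 0 536870912 0 1230186008 536870912 50465866
    (rowB 3 eng mog cd1q3 cd6q3 pd0 2 false false false .npn 3 0 3 (qsf 1610612736 536870912 0 1230186008 0) ndB1q3 ndB6q3 pcB0 Cut.none Ext.none)

def k0_mm_303 : ∃ t, chk3 f_mm_303 t 1 1 1 = true :=
  ⟨(b (l 3) (b (l 3) (a (b (l 3) (a (a (b (b (l 3) (a (l 16335728) (l 16354304))) (l 16159792)) (b (b (l 3) (l 16382240)) (b (l 16259744) (l 1)))) (b (a (l 100562031831) (l 1)) (l 1)))) (l 1)))), by decide +kernel⟩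

theorem c_mm_303 : CertB 1610612736 536870912 0 1230186008 536870912 50465866 3 eng mog cd1q3 cd6q3 pd0 false false false .npn 3 0 3
    ndB1q3 ndB6q3 pcB0 Cut.none Ext.none :=
  certB2 (fam := false) (s1 := false) (s2 := false) (a := 3) (b := 0) (c := 3) (cn := .npn) (n1 := ndB1q3) (n2 := ndB6q3) (pc := pcB0) (cut := Cut.none) (xt := Ext.none) (P1 := 1610612736) (W1 := 536870912) (P2 := 0) (W2 := 1230186008) (P3 := 536870912) (W3 := 50465866) (N0 := 3) (En := eng) (mo := mog) (C1 := cd1q3) (C2 := cd6q3) (C3 := pd0)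
    rfl (fun _ => rfl) k0_mm_303

noncomputable def f_mm_313 : ℕ → ℕ → ℕ → ℕ → Bool := onCell 1610612736 536870912 0 1230186008 536870912 50465866
    (rowB 3 eng mog cd1q3 cd6q3 pd1 0 false false false .dn 3 1 3 (qsf 1610612736 536870912 0 1230186008 1) ndB1q3 ndB6q3 pcB1 Cut.none Ext.none)

def k0_mm_313 : ∃ t, chk3 f_mm_313 t 1 1 1 = true :=
  ⟨(b (l 3) (l 1)), by decide +kernel⟩

theorem c_mm_313 : CertB 1610612736 536870912 0 1230186008 536870912 50465866 3 eng mog cd1q3 cd6q3 pd1 false false false .dn 3 1 3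
    ndB1q3 ndB6q3 pcB1 Cut.none Ext.none :=
  certB0 (fam := false) (s1 := false) (s2 := false) (a := 3) (b := 1) (c := 3) (cn := .dn) (n1 := ndB1q3) (n2 := ndB6q3) (pc := pcB1) (cut := Cut.none) (xt := Ext.none) (P1 := 1610612736) (W1 := 536870912) (P2 := 0) (W2 := 1230186008) (P3 := 536870912) (W3 := 50465866) (N0 := 3) (En := eng) (mo := mog) (C1 := cd1q3) (C2 := cd6q3) (C3 := pd1)
    rfl k0_mm_313

end Pool.Agent.Strip051.G.I5000_5470.Tab.C.BB16

namespace Pool.Agent.Strip051.G.I5000_5470.Tab.C.BB20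

open Pool.Agent.Strip051.PB Pool.Agent.Strip051.PB.T
open Pool.Agent.Strip051.G.I5000_5470.Tab

noncomputable def f_pp_001 : ℕ → ℕ → ℕ → ℕ → Bool := onCell 0 536870912 0 536870912 536870912 50465866
    (rowB 3 eng mog cd2q0 cd0q1 pd0 1 false true true .up 0 0 1 (qsf 0 536870912 536870912 536870912 0) ndB2q0 ndB0q1 pcB0 Cut.none Ext.none)

def k0_pp_001 : ∃ t, chk3 f_pp_001 t 1 1 1 = true :=
  ⟨(l 3), by decide +kernel⟩

theorem c_pp_001 : CertB 0 536870912 536870912 536870912 536870912 50465866 3 eng mog cd2q0 cd0q1 pd0 false true true .up 0 0 1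
    ndB2q0 ndB0q1 pcB0 Cut.none Ext.none :=
  certB1 (fam := false) (s1 := true) (s2 := true) (a := 0) (b := 0) (c := 1) (cn := .up) (n1 := ndB2q0) (n2 := ndB0q1) (pc := pcB0) (cut := Cut.none) (xt := Ext.none) (P1 := 0) (W1 := 536870912) (P2 := 536870912) (W2 := 536870912) (P3 := 536870912) (W3 := 50465866) (N0 := 3) (En := eng) (mo := mog) (C1 := cd2q0) (C2 := cd0q1) (C3 := pd0)
    rfl (fun _ => rfl) k0_pp_001

noncomputable def cut_pp_011 : Cut := Cut.of [[⟨0, 0, 0, 67108864⟩, ⟨1, 1, 0, 67108864⟩, ⟨2, 1, 0, 67108864⟩]]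

noncomputable def f_pp_011 : ℕ → ℕ → ℕ → ℕ → Bool := onCell 0 536870912 536870912 536870912 536870912 50465866
    (rowB 3 eng mog cd2q0 cd0q1 pd1 0 false true true .pnn 0 1 1 (qsf 0 536870912 536870912 536870912 1) ndB2q0 ndB0q1 pcB1 cut_pp_011 Ext.none)

def k0_pp_011 : ∃ t, chk3 f_pp_011 t 1 1 1 = true :=
  ⟨(a (b (l 3) (b (l 3) (a (b (l 3) (a (b (l 3) (b (l 3) (a (l 6) (l 3)))) (l 3))) (l 3)))) (l 3)), by decide +kernel⟩

theorem c_pp_011 : CertB 0 536870912 536870912 536870912 536870912 50465866 3 eng mog cd2q0 cd0q1 pd1 false true true .pnn 0 1 1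
    ndB2q0 ndB0q1 pcB1 cut_pp_011 Ext.none :=
  certB0 (fam := false) (s1 := true) (s2 := true) (a := 0) (b := 1) (c := 1) (cn := .pnn) (n1 := ndB2q0) (n2 := ndB0q1) (pc := pcB1) (cut := cut_pp_011) (xt := Ext.none) (P1 := 0) (W1 := 536870912) (P2 := 536870912) (W2 := 536870912) (P3 := 536870912) (W3 := 50465866) (N0 := 3) (En := eng) (mo := mog) (C1 := cd2q0) (C2 := cd0q1) (C3 := pd1)
    rfl k0_pp_011

noncomputable def cut_pp_012 : Cut := Cut.of [[⟨0, 0, 0, 53687091⟩, ⟨1, 1, 0, 53687091⟩, ⟨2, 1, 0, 53687091⟩]]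

noncomputable def f_pp_012 : ℕ → ℕ → ℕ → ℕ → Bool := onCell 536870912 536870912 0 536870912 536870912 50465866
    (rowB 3 eng mog cd2q0 cd0q2 pd1 2 false true true .pnp 0 1 2 (qsf 0 536870912 0 536870912 1) ndB2q0 ndB0q2 pcB1 cut_pp_012 Ext.none)

def k0_pp_012 : ∃ t, chk3 f_pp_012 t 2 1 1 = true :=
  ⟨(b (a (b (l 2) (a (l 2) (a (l 2) (a (l 2) (b (l 2) (b (l 2) (l 16727160))))))) (b (a (b (a (l 16753592) (l 16739880)) (a (l 16766768) (l 16761080))) (b (l 16719272) (l 16747200))) (a (b (a (b (l 16756352) (l 16728344)) (l 16762048)) (b (a (l 16691216) (l 16748640)) (a (a (l 16718472) (l 16711432)) (a (l 16706568) (l 16704448))))) (b (l 16764848) (b (l 16762104) (a (l 16746968) (l 16754688))))))) (a (b (a (l 2) (b (a (l 2) (b (b (a (l 2) (l 149954712375)) (l 3)) (l 3))) (l 3))) (l 3)) (b (a (b (a (a (b (b (l 131164187815) (l 164987116359)) (l 3)) (b (b (l 16737400) (l 122574419095)) (l 199883757351))) (a (b (l 16737816) (b (l 135996094087) (l 3)))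 (b (l 16729104) (b (l 16759128) (l 168745239479))))) (l 3)) (b (b (a (l 16806024) (l 16726496)) (a (a (b (l 16749712) (l 102173368919)) (l 16753704)) (l 16811840))) (b (a (a (l 3) (l 155860368471)) (a (l 100562815607) (l 87141041991))) (l 3)))) (l 3)))), by decide +kernel⟩

def k1_pp_012 : ∃ t, chk3 f_pp_012 t 3 2 1 = true :=
  ⟨(a (b (a (b (l 16679976) (l 16713864)) (b (l 16627120) (l 16662872))) (a (b (l 16745288) (a (l 16767560) (l 16760544))) (b (l 16700384) (a (l 16743104) (l 16720256))))) (b (a (b (l 16575768) (l 16608984)) (b (l 16526592) (a (l 16568256) (l 16541744)))) (a (b (a (l 16659952) (l 16631480)) (a (l 16693952) (l 16665144))) (b (a (l 16602312) (l 16573680)) (a (l 16656248) (b (l 16597680) (l 16614512))))))), by decide +kernel⟩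

def k2_pp_012 : ∃ t, chk3 f_pp_012 t 6 3 1 = true :=
  ⟨(b (a (b (a (b (l 16751240) (l 16748480)) (b (l 16769464) (l 16751224))) (b (a (a (l 16783888) (l 16781400)) (l 16815928)) (a (a (l 169282205911) (l 150491675271)) (b (l 16823280) (l 123111434887))))) (b (a (b (l 16764192) (l 16770400)) (l 16755368)) (a (b (l 16761008) (l 16852192)) (b (l 16770352) (l 16789832))))) (b (a (b (a (l 3) (b (l 236928054423) (l 3))) (l 3)) (b (a (b (a (l 16866304) (l 16810688)) (a (l 3) (l 193978355239))) (a (b (l 16796624) (l 16856672)) (l 16812696))) (a (l 3) (b (a (l 195588895063) (l 167134777927)) (l 3))))) (l 3))), by decide +kernel⟩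

def k3_pp_012 : ∃ t, chk3 f_pp_012 t 7 3 1 = true :=
  ⟨(b (a (b (a (l 16731712) (l 16703264)) (a (b (l 16761448) (l 16812848)) (b (l 16735456) (l 16778224)))) (b (a (b (l 16662440) (l 16682888)) (b (l 16632904) (l 16652872))) (a (a (b (l 16712680) (l 16735408)) (l 16729760)) (a (b (l 16681752) (l 16703792)) (b (l 16666544) (l 16688048)))))) (a (b (b (a (a (l 16779544) (l 16770184)) (a (l 16768176) (l 16769160))) (a (b (a (l 16802096) (l 16788552)) (a (l 170892847463) (a (l 147807393015) (l 16799960)))) (a (b (l 16777072) (l 16790088)) (l 16815112)))) (b (a (b (a (l 3) (b (l 171429670023) (l 3))) (l 3)) (b (a (a (l 164987204743) (l 152102309847)) (a (l 109152636535) (l 16788784))) (a (l 3) (b (a (l 163376587623) (l 159618477591)) (l 3))))) (l 3))) (b (a (b (a (l 16756784) (l 16741488)) (a (l 16772784) (l 16762080))) (b (a (l 16746440) (b (l 16704088) (l 16714776))) (a (b (l 16741152) (l 16751592)) (a (l 16734472) (b (l 16721400) (l 16731744))))))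 (a (b (a (b (l 16801040) (b (a (l 16793056) (l 16786904)) (a (b (l 158544733735) (l 3)) (b (l 16792016) (l 129016843975))))) (b (l 16773416) (b (l 16777936) (a (l 16787432) (l 16781144))))) (b (a (b (a (l 3) (b (l 157470993591) (l 3))) (l 3)) (b (a (a (l 155323503431) (a (l 154249756487) (l 148344184887))) (a (l 127943085911) (l 16786032))) (a (l 3) (b (a (l 154249758631) (l 152102267959)) (l 3))))) (l 3))) (b (a (b (l 16762128) (a (l 16774488) (l 16768888))) (b (a (l 16750200) (l 6)) (l 6))) (a (b (b (a (l 16781088) (l 6)) (l 6)) (l 6)) (l 6))))))), by decide +kernel⟩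

theorem s4_pp_012 : ∃ t, chk3 f_pp_012 t 3 3 1 = true := ex3_a k2_pp_012 k3_pp_012

theorem s5_pp_012 : ∃ t, chk3 f_pp_012 t 3 1 1 = true := ex3_b k1_pp_012 s4_pp_012

theorem s6_pp_012 : ∃ t, chk3 f_pp_012 t 1 1 1 = true := ex3_a k0_pp_012 s5_pp_012

theorem c_pp_012 : CertB 0 536870912 0 536870912 536870912 50465866 3 eng mog cd2q0 cd0q2 pd1 false true true .pnp 0 1 2
    ndB2q0 ndB0q2 pcB1 cut_pp_012 Ext.none :=
  certB2 (fam := false) (s1 := true) (s2 := true) (a := 0) (b := 1) (c := 2) (cn := .pnp) (n1 := ndB2q0) (n2 := ndB0q2) (pc := pcB1) (cut := cut_pp_012) (xt := Ext.none) (P1 := 0) (W1 := 536870912) (P2 := 0) (W2 := 536870912) (P3 := 536870912) (W3 := 50465866) (N0 := 3) (En := eng) (mo := mog) (C1 := cd2q0) (C2 := cd0q2) (C3 := pd1)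
    rfl (fun _ => rfl) s6_pp_012

noncomputable def cut_pp_022 : Cut := Cut.of [[⟨0, 0, 0, 67108864⟩, ⟨1, 1, 0, 67108864⟩, ⟨2, 1, 0, 67108864⟩]]

noncomputable def f_pp_022 : ℕ → ℕ → ℕ → ℕ → Bool := onCell 0 536870912 0 536870912 536870912 50465866
    (rowB 3 eng mog cd2q0 cd0q2 pd2 0 false true true .pp 0 2 2 (qsf 0 536870912 0 536870912 2) ndB2q0 ndB0q2 pcB2 cut_pp_022 Ext.none)

def k0_pp_022 : ∃ t, chk3 f_pp_022 t 2 2 1 = true :=
  ⟨(b (a (b (a (a (a (l 16457440) (l 16465240)) (l 16476152)) (b (l 16488520) (l 16495896))) (a (a (a (l 16467952) (l 16477104)) (l 16490448)) (a (l 16505368) (l 16517088)))) (a (b (l 16502568) (l 16592368)) (l 1))) (c (a (b (a (a (l 16516440) (l 16516944)) (a (l 16535896) (l 16552264))) (a (a (b (l 16514832) (l 16600152)) (l 16567768)) (a (l 16568528) (l 16587720)))) (a (a (b (l 16566216) (l 16667448)) (l 1)) (l 1))) (a (a (b (a (l 16534720) (l 16511800)) (a (b (l 16515392) (a (l 16613264) (l 16538480))) (l 16564624)))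 (b (a (l 16528448) (l 16541568)) (a (l 16563024) (l 16578872)))) (a (a (b (l 16551472) (l 126198022967)) (l 1)) (l 1))))), by decide +kernel⟩

def k1_pp_022 : ∃ t, chk3 f_pp_022 t 2 3 1 = true :=
  ⟨(a (b (b (b (a (a (a (a (b (l 16584368) (l 16553184)) (l 16552664)) (l 16559560)) (l 16574840)) (a (l 16597264) (l 16616592))) (a (a (a (a (b (l 16564224) (l 16575648)) (b (l 16569424) (l 16581128))) (l 16582984)) (l 16620096)) (a (l 16622192) (l 91838289079)))) (b (a (a (a (a (b (l 16587552) (l 16600048)) (b (l 16593312) (l 16606088))) (l 16629128)) (a (l 16619896) (l 16632568))) (a (a (l 16644208) (l 16654944)) (a (l 256120818983) (l 1)))) (a (a (a (a (b (l 16613208) (l 16627176)) (b (l 16619544) (l 16633792))) (l 16677840)) (a (l 16649488) (b (l 16654440) (l 16669664)))) (a (a (b (l 16666064) (l 16681232)) (l 231961678167)) (l 1))))) (b (a (a (b (a (a (b (a (l 16640224) (l 16643752)) (a (l 16676800) (l 16659504))) (b (l 16648896) (l 16664864))) (a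 (l 16684760) (l 16670912))) (l 6)) (b (a (b (l 16672808) (l 16689048)) (b (l 16685304) (l 16701392))) (a (l 6) (a (l 6) (a (l 6) (l 1)))))) (a (b (a (b (l 16696768) (l 273300766487)) (l 1)) (l 1)) (l 1))) (a (a (l 6) (a (l 6) (l 1))) (l 1)))) (b (l 1) (l 1))), by decide +kernel⟩

def k2_pp_022 : ∃ t, chk3 f_pp_022 t 3 1 1 = true :=
  ⟨(l 1), by decide +kernel⟩

theorem s3_pp_022 : ∃ t, chk3 f_pp_022 t 2 1 1 = true := ex3_b k0_pp_022 k1_pp_022

theorem s4_pp_022 : ∃ t, chk3 f_pp_022 t 1 1 1 = true := ex3_a s3_pp_022 k2_pp_022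

theorem c_pp_022 : CertB 0 536870912 0 536870912 536870912 50465866 3 eng mog cd2q0 cd0q2 pd2 false true true .pp 0 2 2
    ndB2q0 ndB0q2 pcB2 cut_pp_022 Ext.none :=
  certB0 (fam := false) (s1 := true) (s2 := true) (a := 0) (b := 2) (c := 2) (cn := .pp) (n1 := ndB2q0) (n2 := ndB0q2) (pc := pcB2) (cut := cut_pp_022) (xt := Ext.none) (P1 := 0) (W1 := 536870912) (P2 := 0) (W2 := 536870912) (P3 := 536870912) (W3 := 50465866) (N0 := 3) (En := eng) (mo := mog) (C1 := cd2q0) (C2 := cd0q2) (C3 := pd2)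
    rfl s4_pp_022

noncomputable def f_pp_101 : ℕ → ℕ → ℕ → ℕ → Bool := onCell 536870912 536870912 536870912 536870912 536870912 50465866
    (rowB 3 eng mog cd2q1 cd0q1 pd0 0 false true true .npn 1 0 1 (qsf 536870912 536870912 536870912 536870912 0) ndB2q1 ndB0q1 pcB0 Cut.none Ext.none)

def k0_pp_101 : ∃ t, chk3 f_pp_101 t 1 1 1 = true :=
  ⟨(l 3), by decide +kernel⟩

theorem c_pp_101 : CertB 536870912 536870912 536870912 536870912 536870912 50465866 3 eng mog cd2q1 cd0q1 pd0 false true true .npn 1 0 1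
    ndB2q1 ndB0q1 pcB0 Cut.none Ext.none :=
  certB0 (fam := false) (s1 := true) (s2 := true) (a := 1) (b := 0) (c := 1) (cn := .npn) (n1 := ndB2q1) (n2 := ndB0q1) (pc := pcB0) (cut := Cut.none) (xt := Ext.none) (P1 := 536870912) (W1 := 536870912) (P2 := 536870912) (W2 := 536870912) (P3 := 536870912) (W3 := 50465866) (N0 := 3) (En := eng) (mo := mog) (C1 := cd2q1) (C2 := cd0q1) (C3 := pd0)
    rfl k0_pp_101

noncomputable def f_pp_102 : ℕ → ℕ → ℕ → ℕ → Bool := onCell 0 536870912 0 536870912 536870912 50465866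
    (rowB 3 eng mog cd2q1 cd0q2 pd0 2 false true true .npp 1 0 2 (qsf 536870912 536870912 0 536870912 0) ndB2q1 ndB0q2 pcB0 Cut.none Ext.none)

def k0_pp_102 : ∃ t, chk3 f_pp_102 t 1 1 1 = true :=
  ⟨(a (b (a (l 3) (a (l 3) (l 3))) (l 3)) (b (a (b (a (b (a (b (b (a (l 174113513415) (l 174650427399)) (a (l 3) (l 171966037687))) (l 3)) (b (b (a (l 16580656) (l 16592376)) (a (l 179482275495) (l 16582712))) (b (a (l 169281688887) (l 174113541991)) (l 3)))) (l 3)) (b (a (b (b (l 16610584) (l 16600552)) (a (a (l 171966063431) (l 157470553671)) (l 151564987543))) (b (a (l 16624272) (l 16638312)) (a (l 16600384) (l 16613416)))) (b (a (b (l 174650404871) (l 3)) (a (l 171966060359) (l 166597367831))) (l 3)))) (l 3)) (b (a (b (b (l 16669752) (a (b (l 16638488) (l 16625536)) (l 16656616))) (a (b (a (l 16594840) (l 16608120)) (b (a (l 173039791527) (l 161765506311)) (l 178408482839))) (b (l 16628408) (b (l 16601080) (a (l 162302373799) (l 16588744)))))) (b (a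 (l 16690968) (l 16709296)) (a (b (l 16650584) (b (l 16626432) (l 16609528))) (b (l 16671680) (l 16679944))))) (b (a (a (l 3) (b (b (a (l 182703447559) (l 174650405447)) (l 3)) (l 3))) (a (b (b (a (l 140827544519) (l 16598632)) (a (l 178408495767) (l 137606315943))) (b (a (l 3) (l 183777201703)) (l 3))) (b (a (b (l 16609784) (a (l 16590984) (l 16594016))) (l 16605024)) (a (a (b (l 170892315031) (l 3)) (l 172502914119)) (b (l 163376114295) (l 209546989447)))))) (l 3)))) (l 3))), by decide +kernel⟩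

theorem c_pp_102 : CertB 536870912 536870912 0 536870912 536870912 50465866 3 eng mog cd2q1 cd0q2 pd0 false true true .npp 1 0 2
    ndB2q1 ndB0q2 pcB0 Cut.none Ext.none :=
  certB2 (fam := false) (s1 := true) (s2 := true) (a := 1) (b := 0) (c := 2) (cn := .npp) (n1 := ndB2q1) (n2 := ndB0q2) (pc := pcB0) (cut := Cut.none) (xt := Ext.none) (P1 := 536870912) (W1 := 536870912) (P2 := 0) (W2 := 536870912) (P3 := 536870912) (W3 := 50465866) (N0 := 3) (En := eng) (mo := mog) (C1 := cd2q1) (C2 := cd0q2) (C3 := pd0)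
    rfl (fun _ => rfl) k0_pp_102

noncomputable def f_pp_112 : ℕ → ℕ → ℕ → ℕ → Bool := onCell 536870912 536870912 0 536870912 536870912 50465866
    (rowB 3 eng mog cd2q1 cd0q2 pd1 2 false true true .dn 1 1 2 (qsf 536870912 536870912 0 536870912 1) ndB2q1 ndB0q2 pcB1 Cut.none Ext.none)

def k0_pp_112 : ∃ t, chk3 f_pp_112 t 1 1 1 = true :=
  ⟨(a (b (a (b (a (b (l 16743888) (a (b (l 16705656) (l 16675384)) (l 16717016))) (b (l 16765064) (l 16752328))) (a (b (a (b (l 16657216) (a (b (l 16591728) (l 171966092103)) (l 16583816))) (b (l 16659568) (l 16598472))) (a (b (a (l 178408419767) (l 186998404119)) (l 3)) (b (b (l 16589280) (l 170892372263)) (l 186998538135)))) (b (b (l 16713160) (a (l 16636952) (l 16684816))) (a (b (l 16635072) (a (l 170355630599) (l 159081381991))) (b (l 16670912) (a (b (l 16689952) (l 98951862679)) (l 16684872))))))) (a (a (b (b (l 16755144) (l 16765624)) (b (b (l 16754784) (l 16728848)) (b (l 16684048) (l 779033094247)))) (b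 (b (l 1) (l 1)) (l 1))) (l 1))) (b (a (a (l 3) (b (a (l 3) (b (b (a (l 176261330247) (b (l 94120181383) (l 167671423207))) (l 3)) (l 3))) (l 3))) (l 1)) (l 3))) (l 1)), by decide +kernel⟩

theorem c_pp_112 : CertB 536870912 536870912 0 536870912 536870912 50465866 3 eng mog cd2q1 cd0q2 pd1 false true true .dn 1 1 2
    ndB2q1 ndB0q2 pcB1 Cut.none Ext.none :=
  certB2 (fam := false) (s1 := true) (s2 := true) (a := 1) (b := 1) (c := 2) (cn := .dn) (n1 := ndB2q1) (n2 := ndB0q2) (pc := pcB1) (cut := Cut.none) (xt := Ext.none) (P1 := 536870912) (W1 := 536870912) (P2 := 0) (W2 := 536870912) (P3 := 536870912) (W3 := 50465866) (N0 := 3) (En := eng) (mo := mog) (C1 := cd2q1) (C2 := cd0q2) (C3 := pd1)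
    rfl (fun _ => rfl) k0_pp_112

noncomputable def f_pp_202_a : ℕ → ℕ → ℕ → ℕ → Bool := onCell 0 536870912 0 536870912 536870912 50465866
    (rowB 3 eng mog cd2q2a cd0q2 pd0 0 false true true .pp 2 0 2 (qsf 0 536870912 0 536870912 0) ndB2q2a ndB0q2 pcB0 Cut.none Ext.none)

def k0_pp_202_a : ∃ t, chk3 f_pp_202_a t 1 1 1 = true :=
  ⟨(l 3), by decide +kernel⟩

theorem c_pp_202_a : CertB 0 536870912 0 536870912 536870912 50465866 3 eng mog cd2q2a cd0q2 pd0 false true true .pp 2 0 2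
    ndB2q2a ndB0q2 pcB0 Cut.none Ext.none :=
  certB0 (fam := false) (s1 := true) (s2 := true) (a := 2) (b := 0) (c := 2) (cn := .pp) (n1 := ndB2q2a) (n2 := ndB0q2) (pc := pcB0) (cut := Cut.none) (xt := Ext.none) (P1 := 0) (W1 := 536870912) (P2 := 0) (W2 := 536870912) (P3 := 536870912) (W3 := 50465866) (N0 := 3) (En := eng) (mo := mog) (C1 := cd2q2a) (C2 := cd0q2) (C3 := pd0)
    rfl k0_pp_202_a

noncomputable def f_pp_202_b : ℕ → ℕ → ℕ → ℕ → Bool := onCell 1239849684 370763052 0 536870912 536870912 50465866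
    (rowB 3 eng mog cd2q2b cd0q2 pd0 0 false true true .pp 2 0 2 (qsf 1239849684 370763052 0 536870912 0) ndB2q2b ndB0q2 pcB0 Cut.none Ext.none)

def k0_pp_202_b : ∃ t, chk3 f_pp_202_b t 1 1 1 = true :=
  ⟨(l 3), by decide +kernel⟩

theorem c_pp_202_b : CertB 1239849684 370763052 0 536870912 536870912 50465866 3 eng mog cd2q2b cd0q2 pd0 false true true .pp 2 0 2
    ndB2q2b ndB0q2 pcB0 Cut.none Ext.none :=
  certB0 (fam := false) (s1 := true) (s2 := true) (a := 2) (b := 0) (c := 2) (cn := .pp) (n1 := ndB2q2b) (n2 := ndB0q2) (pc := pcB0) (cut := Cut.none) (xt := Ext.none) (P1 := 1239849684) (W1 := 370763052) (P2 := 0) (W2 := 536870912) (P3 := 536870912) (W3 := 50465866) (N0 := 3) (En := eng) (mo := mog) (C1 := cd2q2b) (C2 := cd0q2) (C3 := pd0)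
    rfl k0_pp_202_b

noncomputable def f_pm_001 : ℕ → ℕ → ℕ → ℕ → Bool := onCell 0 536870912 0 536870912 536870912 50465866
    (rowB 3 eng mog cd2q0 cd0q1 pd0 1 false true false .up 0 0 1 (qsf 0 536870912 536870912 536870912 0) ndB2q0 ndB0q1 pcB0 Cut.none Ext.none)

def k0_pm_001 : ∃ t, chk3 f_pm_001 t 1 1 1 = true :=
  ⟨(a (l 4) (b (l 4) (b (l 4) (a (l 4) (a (l 4) (b (b (l 4) (a (l 4) (l 16501096))) (b (a (l 4) (l 16460704)) (a (l 16478832) (l 16565392))))))))), by decide +kernel⟩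

theorem c_pm_001 : CertB 0 536870912 536870912 536870912 536870912 50465866 3 eng mog cd2q0 cd0q1 pd0 false true false .up 0 0 1
    ndB2q0 ndB0q1 pcB0 Cut.none Ext.none :=
  certB1 (fam := false) (s1 := true) (s2 := false) (a := 0) (b := 0) (c := 1) (cn := .up) (n1 := ndB2q0) (n2 := ndB0q1) (pc := pcB0) (cut := Cut.none) (xt := Ext.none) (P1 := 0) (W1 := 536870912) (P2 := 536870912) (W2 := 536870912) (P3 := 536870912) (W3 := 50465866) (N0 := 3) (En := eng) (mo := mog) (C1 := cd2q0) (C2 := cd0q1) (C3 := pd0)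
    rfl (fun _ => rfl) k0_pm_001

noncomputable def cut_pm_011 : Cut := Cut.of [[⟨0, 0, 0, 67108864⟩, ⟨1, 1, 0, 67108864⟩, ⟨2, 1, 0, 67108864⟩]]

noncomputable def f_pm_011 : ℕ → ℕ → ℕ → ℕ → Bool := onCell 0 536870912 536870912 536870912 536870912 50465866
    (rowB 3 eng mog cd2q0 cd0q1 pd1 0 false true false .pnn 0 1 1 (qsf 0 536870912 536870912 536870912 1) ndB2q0 ndB0q1 pcB1 cut_pm_011 Ext.none)

def k0_pm_011 : ∃ t, chk3 f_pm_011 t 1 1 1 = true :=
  ⟨(a (b (l 4) (b (l 4) (b (l 4) (b (l 4) (b (a (l 4) (l 4)) (b (a (l 4) (a (l 4) (l 16747136))) (a (a (a (l 6) (l 4)) (a (l 4) (l 16760688))) (a (a (l 16650056) (l 16624840)) (l 16629936))))))))) (b (l 4) (b (l 4) (a (b (l 4) (a (b (l 4) (b (a (l 16576520) (l 16548880)) (l 16669640))) (b (b (l 4) (l 16570280)) (a (l 16602032) (l 16497664))))) (b (a (l 4) (a (l 4) (l 1))) (a (b (a (l 16503312) (l 16485064)) (l 16467288)) (b (l 16540960) (l 16427976)))))))), by decide +kernel⟩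

theorem c_pm_011 : CertB 0 536870912 536870912 536870912 536870912 50465866 3 eng mog cd2q0 cd0q1 pd1 false true false .pnn 0 1 1
    ndB2q0 ndB0q1 pcB1 cut_pm_011 Ext.none :=
  certB0 (fam := false) (s1 := true) (s2 := false) (a := 0) (b := 1) (c := 1) (cn := .pnn) (n1 := ndB2q0) (n2 := ndB0q1) (pc := pcB1) (cut := cut_pm_011) (xt := Ext.none) (P1 := 0) (W1 := 536870912) (P2 := 536870912) (W2 := 536870912) (P3 := 536870912) (W3 := 50465866) (N0 := 3) (En := eng) (mo := mog) (C1 := cd2q0) (C2 := cd0q1) (C3 := pd1)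
    rfl k0_pm_011

end Pool.Agent.Strip051.G.I5000_5470.Tab.C.BB20

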