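import Pool.Agent.Strip051.G.I5000_5470.Tab

/-! # Certificates B23 (generated) -/

set_option linter.all false
set_option maxRecDepth 100000

namespace Pool.Agent.Strip051.G.I5000_5470.Tab.C.BB20

open Pool.Agent.Strip051.PB Pool.Agent.Strip051.PB.T
open Pool.Agent.Strip051.G.I5000_5470.Tab

noncomputable def cut_pm_012 : Cut := Cut.of [[⟨0, 0, 0, 67108864⟩, ⟨1, 1, 0, 67108864⟩, ⟨2, 1, 0, 67108864⟩]]

noncomputable def f_pm_012 : ℕ → ℕ → ℕ → ℕ → Bool := onCell 536870912 536870912 0 536870912 536870912 50465866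
    (rowB 3 eng mog cd2q0 cd0q2 pd1 2 false true false .pnp 0 1 2 (qsf 0 536870912 0 536870912 1) ndB2q0 ndB0q2 pcB1 cut_pm_012 Ext.none)

def k0_pm_012 : ∃ t, chk3 f_pm_012 t 2 1 1 = true :=
  ⟨(a (b (b (l 2) (a (l 2) (b (l 2) (l 16627440)))) (a (b (l 2) (b (a (l 2) (l 16461144)) (a (l 16419408) (l 16652712)))) (b (b (l 16580296) (l 16524248)) (b (l 16477296) (b (l 16461104) (l 16457160)))))) (b (b (a (b (l 16846032) (l 16685192)) (b (l 16687808) (l 16651824))) (a (b (l 16644672) (l 16631952)) (b (l 16613392) (l 16584368)))) (b (a (b (l 16574832) (l 16531400)) (b (l 16555616) (l 16523712))) (a (b (a (l 16492536) (l 16606824)) (b (l 16489672) (l 16512872))) (b (b (l 16506472) (l 16504264)) (b (l 16510192) (l 16649544))))))), by decide +kernel⟩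

def k1_pm_012 : ∃ t, chk3 f_pm_012 t 3 1 1 = true :=
  ⟨(b (a (b (a (b (l 16646808) (l 16611344)) (b (l 16595320) (l 16563800))) (a (b (l 16575728) (l 16551728)) (b (l 16535088) (l 16520648)))) (b (a (b (l 16548280) (l 16523672)) (b (l 16504760) (l 16488120))) (a (b (l 16504512) (l 16500064)) (a (b (l 16484936) (l 16487936)) (b (l 16473888) (l 16482320)))))) (b (a (a (b (l 16531040) (l 16513080)) (b (l 16513584) (l 16534720))) (a (b (l 16505216) (a (l 16518832) (l 16524200))) (b (a (l 16502592) (b (l 16496728) (l 16510896))) (a (l 16552736) (a (l 16538920) (l 16586360)))))) (a (a (b (b (l 16510256) (l 16562256)) (b (l 16538568) (a (l 16554112) (l 16575928)))) (b (a (b (l 16521744) (l 16539248)) (l 16688216)) (b (a (l 16564536) (l 16582112)) (b (l 16767224) (a (l 16607848) (l 16631632)))))) (b (a (a (l 16595848) (b (l 16553904) (l 16584448))) (a (b (l 16568752) (l 16624760)) (a (b (l 16581296) (l 16619696)) (b (l 16590400) (a (l 16628144) (l 16633968))))))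 (a (b (a (l 16643792) (b (l 16612736) (l 16655344))) (a (b (l 16769848) (l 16656968)) (a (b (l 16693840) (l 16677096)) (b (l 16748600) (l 16732968))))) (b (a (a (l 16703928) (l 16695296)) (a (b (l 16653608) (l 6)) (l 6))) (a (a (b (a (l 16737544) (l 16744384)) (b (l 16761360) (l 16712800))) (b (a (l 16688448) (l 6)) (l 6))) (l 6)))))))), by decide +kernel⟩

theorem s2_pm_012 : ∃ t, chk3 f_pm_012 t 1 1 1 = true := ex3_a k0_pm_012 k1_pm_012

theorem c_pm_012 : CertB 0 536870912 0 536870912 536870912 50465866 3 eng mog cd2q0 cd0q2 pd1 false true false .pnp 0 1 2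
    ndB2q0 ndB0q2 pcB1 cut_pm_012 Ext.none :=
  certB2 (fam := false) (s1 := true) (s2 := false) (a := 0) (b := 1) (c := 2) (cn := .pnp) (n1 := ndB2q0) (n2 := ndB0q2) (pc := pcB1) (cut := cut_pm_012) (xt := Ext.none) (P1 := 0) (W1 := 536870912) (P2 := 0) (W2 := 536870912) (P3 := 536870912) (W3 := 50465866) (N0 := 3) (En := eng) (mo := mog) (C1 := cd2q0) (C2 := cd0q2) (C3 := pd1)
    rfl (fun _ => rfl) s2_pm_012

noncomputable def cut_pm_022 : Cut := Cut.of [[⟨0, 0, 0, 67108864⟩, ⟨1, 1, 0, 67108864⟩, ⟨2, 1, 0, 67108864⟩]]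

noncomputable def f_pm_022 : ℕ → ℕ → ℕ → ℕ → Bool := onCell 0 536870912 0 536870912 536870912 50465866
    (rowB 3 eng mog cd2q0 cd0q2 pd2 0 false true false .pp 0 2 2 (qsf 0 536870912 0 536870912 2) ndB2q0 ndB0q2 pcB2 cut_pm_022 Ext.none)

def k0_pm_022 : ∃ t, chk3 f_pm_022 t 2 2 1 = true :=
  ⟨(b (a (b (a (a (b (l 16459072) (l 16460656)) (l 16471288)) (l 16481520)) (a (a (l 16487944) (l 16474016)) (l 16477592))) (a (b (l 16483520) (l 16470016)) (l 1))) (a (a (b (a (b (l 16519096) (l 16487640)) (l 16484792)) (a (b (l 16522256) (a (l 16540416) (l 16516904))) (b (l 16499808) (l 16513072)))) (a (b (l 16483112) (l 16540888)) (b (l 16477368) (l 16486632)))) (a (a (b (l 16467848) (l 16470168)) (l 1)) (l 1)))), by decide +kernel⟩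

def k1_pm_022 : ∃ t, chk3 f_pm_022 t 2 3 1 = true :=
  ⟨(b (a (a (a (b (b (a (a (l 16582088) (l 16536504)) (l 16534464)) (a (a (a (b (l 16557256) (l 16569048)) (l 16576728)) (l 16578528)) (l 16554040))) (a (a (b (b (a (a (l 16603064) (l 16580936)) (l 16579152)) (a (b (l 16591248) (l 16597944)) (l 16592136))) (a (a (b (b (l 16605416) (l 16612416)) (b (l 16619544) (c (l 16628368) (l 16625248)))) (b (l 16607664) (l 16621872))) (b (l 16605720) (l 16619848)))) (b (b (l 16575448) (l 16588264)) (b (l 16601680) (l 16615640)))) (b (l 16575920) (a (l 16602912) (l 16598312))))) (b (b (l 16549064) (a (l 16548272) (l 16541120))) (b (a (l 16568144) (l 16558896)) (a (l 16590664) (l 16579120))))) (b (a (b (l 16515040) (l 16527904)) (b (l 16497160) (l 16505840))) (a (b (l 16542408) (a (l 16566088) (l 16551624))) (b (l 16515744) (l 1))))) (l 1)) (a (a (a (b (b (b (a (a (a (a (b (c (l 16635808) (l 16632632)) (l 16641784)) (l 16636640)) (l 16634536)) (a (l 16631648)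 (l 16628664))) (l 16621208)) (a (a (a (b (a (l 16649520) (l 16648104)) (l 6)) (l 16649888)) (l 16645360)) (l 16635952))) (l 6)) (l 6)) (a (b (b (l 16616168) (l 6)) (l 6)) (b (b (l 16602096) (b (l 16620840) (l 16634072))) (l 1)))) (a (b (b (a (l 16586472) (l 1)) (l 1)) (l 1)) (l 1))) (l 1))), by decide +kernel⟩

def k2_pm_022 : ∃ t, chk3 f_pm_022 t 3 1 1 = true :=
  ⟨(l 1), by decide +kernel⟩

theorem s3_pm_022 : ∃ t, chk3 f_pm_022 t 2 1 1 = true := ex3_b k0_pm_022 k1_pm_022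

theorem s4_pm_022 : ∃ t, chk3 f_pm_022 t 1 1 1 = true := ex3_a s3_pm_022 k2_pm_022

theorem c_pm_022 : CertB 0 536870912 0 536870912 536870912 50465866 3 eng mog cd2q0 cd0q2 pd2 false true false .pp 0 2 2
    ndB2q0 ndB0q2 pcB2 cut_pm_022 Ext.none :=
  certB0 (fam := false) (s1 := true) (s2 := false) (a := 0) (b := 2) (c := 2) (cn := .pp) (n1 := ndB2q0) (n2 := ndB0q2) (pc := pcB2) (cut := cut_pm_022) (xt := Ext.none) (P1 := 0) (W1 := 536870912) (P2 := 0) (W2 := 536870912) (P3 := 536870912) (W3 := 50465866) (N0 := 3) (En := eng) (mo := mog) (C1 := cd2q0) (C2 := cd0q2) (C3 := pd2)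
    rfl s4_pm_022

noncomputable def f_pm_101 : ℕ → ℕ → ℕ → ℕ → Bool := onCell 0 536870912 536870912 536870912 536870912 50465866
    (rowB 3 eng mog cd2q1 cd0q1 pd0 2 false true false .npn 1 0 1 (qsf 536870912 536870912 536870912 536870912 0) ndB2q1 ndB0q1 pcB0 Cut.none Ext.none)

def k0_pm_101 : ∃ t, chk3 f_pm_101 t 2 1 1 = true :=
  ⟨(b (l 4) (b (a (b (a (b (l 4) (a (l 16695592) (l 4))) (l 4)) (a (b (a (l 16689264) (l 16686568)) (a (l 16686912) (l 16680368))) (b (a (l 16680200) (l 16670520)) (a (l 16669720) (l 16655376))))) (b (l 4) (b (l 4) (a (a (l 16637824) (l 16764576)) (a (l 16599680) (l 4)))))) (a (b (a (b (a (l 16687336) (l 16677400)) (a (b (l 16688656) (l 16690352)) (b (l 16676696) (l 16676792)))) (b (a (l 16662608) (l 16643376)) (a (b (l 16658824) (l 16656872)) (b (l 16636184) (l 16631912))))) (b (a (b (a (b (l 16691520) (a (b (l 16694592) (l 16694728)) (l 16689456))) (a (l 16681504) (l 16671896))) (a (a (l 16696024) (l 16689856)) (b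 (a (l 16681168) (l 16670984)) (l 16675856)))) (b (a (l 16654792) (l 16627472)) (a (b (b (l 16653016) (l 16652256)) (l 16650392)) (b (l 16623504) (a (l 16627920) (l 16612008)))))) (a (b (a (b (l 16693816) (a (l 16696688) (l 16689088))) (l 16673776)) (a (b (l 16690848) (l 16686776)) (b (l 16668872) (l 16662008)))) (b (a (l 16646288) (l 16613928)) (a (l 16634936) (l 16600136)))))) (b (a (b (a (l 16619992) (l 16592264)) (a (b (l 16609272) (l 16602816)) (l 16572936))) (a (b (b (l 16568696) (l 16553320)) (l 16534808)) (b (b (l 16544928) (l 16520104)) (l 16492816)))) (a (b (a (b (l 16596200) (b (l 16590568) (a (l 16595352) (l 16577672)))) (b (l 16559528) (l 16549832))) (a (b (a (l 16587288) (l 16568288)) (l 16562480)) (b (b (l 16582760) (l 16534080)) (l 16521160)))) (b (a (l 16512408) (l 16465416)) (b (a (l 16555544) (l 16451136)) (l 16479616)))))))), by decide +kernel⟩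

def k1_pm_101 : ∃ t, chk3 f_pm_101 t 3 1 1 = true :=
  ⟨(b (l 4) (b (l 4) (a (b (a (b (a (l 16511528) (l 16502088)) (a (l 16455936) (l 16458760))) (b (l 16615496) (l 16677536))) (a (b (a (l 16439688) (l 16520448)) (a (b (l 16444792) (l 16461256)) (b (l 16441624) (l 16453136)))) (b (l 16458480) (a (b (l 16441536) (l 16454152)) (l 16434808))))) (a (b (b (l 4) (l 16541056)) (b (l 16438080) (a (l 16423408) (l 16412328)))) (b (b (l 1) (a (l 16493616) (l 1))) (b (a (l 16445208) (l 16459360)) (l 16512344))))))), by decide +kernel⟩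

theorem s2_pm_101 : ∃ t, chk3 f_pm_101 t 1 1 1 = true := ex3_a k0_pm_101 k1_pm_101

theorem c_pm_101 : CertB 536870912 536870912 536870912 536870912 536870912 50465866 3 eng mog cd2q1 cd0q1 pd0 false true false .npn 1 0 1
    ndB2q1 ndB0q1 pcB0 Cut.none Ext.none :=
  certB2 (fam := false) (s1 := true) (s2 := false) (a := 1) (b := 0) (c := 1) (cn := .npn) (n1 := ndB2q1) (n2 := ndB0q1) (pc := pcB0) (cut := Cut.none) (xt := Ext.none) (P1 := 536870912) (W1 := 536870912) (P2 := 536870912) (W2 := 536870912) (P3 := 536870912) (W3 := 50465866) (N0 := 3) (En := eng) (mo := mog) (C1 := cd2q1) (C2 := cd0q1) (C3 := pd0)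
    rfl (fun _ => rfl) s2_pm_101

noncomputable def f_pm_102 : ℕ → ℕ → ℕ → ℕ → Bool := onCell 536870912 536870912 0 536870912 536870912 50465866
    (rowB 3 eng mog cd2q1 cd0q2 pd0 0 false true false .npp 1 0 2 (qsf 536870912 536870912 0 536870912 0) ndB2q1 ndB0q2 pcB0 Cut.none Ext.none)

def k0_pm_102 : ∃ t, chk3 f_pm_102 t 2 1 1 = true :=
  ⟨(b (a (b (l 2) (b (l 2) (a (l 2) (a (l 2) (l 16709008))))) (b (b (a (l 16747056) (l 16782368)) (a (l 16759232) (l 16745056))) (b (a (l 16753880) (l 16755880)) (a (a (l 16728616) (l 16741088)) (b (l 16754024) (l 16748008)))))) (a (b (a (l 2) (b (a (l 2) (l 16664768)) (a (l 16574024) (l 16601472)))) (b (a (a (l 2) (a (l 16629408) (l 16529672))) (b (a (l 16519208) (l 16545624)) (a (l 16485056) (l 16510992)))) (a (b (a (l 16433536) (l 16439672)) (a (l 16411688) (l 16414288))) (b (a (l 16454992) (l 16479280)) (a (l 16427272) (l 16448520)))))) (b (a (b (a (l 16690072) (l 16709448)) (a (l 16630528) (l 16655304)))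 (b (l 16728296) (l 16679032))) (b (a (a (b (l 16575480) (l 16540144)) (l 16582952)) (b (l 16624216) (l 16582768))) (a (b (l 16516128) (l 16477296)) (b (a (l 16533624) (l 16542816)) (a (l 16485800) (l 16495016)))))))), by decide +kernel⟩

def k1_pm_102 : ∃ t, chk3 f_pm_102 t 3 2 1 = true :=
  ⟨(a (b (a (b (a (l 16689608) (l 16664072)) (l 16713688)) (b (a (l 16636352) (b (b (l 16594392) (l 16603520)) (l 16618304))) (a (l 16676256) (b (l 16638168) (l 16657776))))) (a (b (l 16740600) (l 16899600)) (a (b (l 16711008) (a (l 16739432) (l 16752200))) (b (l 16686656) (l 16759968))))) (b (a (b (a (a (b (b (l 16576176) (l 16584296)) (l 16598176)) (b (b (l 168744834455) (l 16572120)) (l 16603928))) (b (a (b (l 174650373015) (l 16559992)) (b (l 3) (l 175724104487))) (a (b (l 16567352) (l 16574992)) (b (l 16555000) (l 16562552))))) (b (a (l 16610896) (b (a (l 16584848) (l 16571120)) (l 16587896))) (a (l 16631664) (l 16604016)))) (b (a (b (l 3) (a (b (a (l 16546392)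 (l 174650364007)) (a (l 16553352) (l 16547264))) (b (a (l 170355370487) (l 3)) (a (l 16541328) (l 149417419383))))) (b (l 3) (b (l 3) (a (a (l 171429110983) (l 3)) (l 3))))) (a (b (a (b (l 16558384) (l 16567560)) (b (a (l 16549464) (l 16542856)) (a (l 16557552) (l 16551376)))) (l 16575056)) (b (a (b (a (l 16536848) (l 16531896)) (a (l 16545560) (l 16539128))) (b (a (b (l 3) (l 16528776)) (l 3)) (a (l 16533248) (b (l 16527288) (l 16529720))))) (a (b (a (l 16553952) (l 16547368)) (l 16559288)) (b (b (a (l 16539608) (l 16533472)) (l 16540688)) (b (l 16544280) (l 16548544)))))))) (a (b (b (a (l 16651920) (l 16623160)) (l 16657440)) (b (l 16675632) (l 16694680))) (b (a (b (l 16594032) (l 16613984)) (b (a (l 16572920) (l 16559136)) (a (l 16591200) (l 16575392)))) (b (a (l 16633808) (a (l 16610744) (l 16594408))) (a (l 16654152) (a (l 16630672) (l 16612880)))))))), by decide +kernel⟩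

def k2_pm_102 : ∃ t, chk3 f_pm_102 t 3 3 1 = true :=
  ⟨(a (b (a (b (a (l 16744624) (l 16751192)) (a (l 16705552) (l 16722432))) (b (a (l 16750592) (l 16743472)) (l 16738144))) (b (a (b (a (l 16652328) (l 16674576)) (l 16704744)) (b (l 16704472) (l 16668992))) (a (b (l 16574552) (l 16524120)) (b (l 16624880) (a (l 16557456) (l 16582400)))))) (b (a (b (a (l 16730624) (l 16711656)) (a (l 16741280) (l 16734224))) (b (a (b (l 16675912) (l 16695096)) (b (l 16642672) (l 16662264))) (a (b (l 16711024) (l 16722224)) (l 16688392)))) (b (a (b (a (l 16725728) (l 16731776)) (a (l 16701024) (l 16717176))) (a (b (l 16727320) (l 16724072)) (b (l 16706472) (l 16712816)))) (a (b (a (l 16664368) (l 16689744)) (a (l 16610328) (l 16641600))) (b (a (l 16709736) (a (l 16714808) (l 16708472))) (a (b (l 16686200) (l 16659528)) (a (b (l 16703752) (l 16686656)) (b (l 16703992) (l 16701256))))))))), by decide +kernel⟩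

theorem s3_pm_102 : ∃ t, chk3 f_pm_102 t 3 1 1 = true := ex3_b k1_pm_102 k2_pm_102

theorem s4_pm_102 : ∃ t, chk3 f_pm_102 t 1 1 1 = true := ex3_a k0_pm_102 s3_pm_102

theorem c_pm_102 : CertB 536870912 536870912 0 536870912 536870912 50465866 3 eng mog cd2q1 cd0q2 pd0 false true false .npp 1 0 2
    ndB2q1 ndB0q2 pcB0 Cut.none Ext.none :=
  certB0 (fam := false) (s1 := true) (s2 := false) (a := 1) (b := 0) (c := 2) (cn := .npp) (n1 := ndB2q1) (n2 := ndB0q2) (pc := pcB0) (cut := Cut.none) (xt := Ext.none) (P1 := 536870912) (W1 := 536870912) (P2 := 0) (W2 := 536870912) (P3 := 536870912) (W3 := 50465866) (N0 := 3) (En := eng) (mo := mog) (C1 := cd2q1) (C2 := cd0q2) (C3 := pd0)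
    rfl s4_pm_102

noncomputable def f_pm_112 : ℕ → ℕ → ℕ → ℕ → Bool := onCell 536870912 536870912 0 536870912 536870912 50465866
    (rowB 3 eng mog cd2q1 cd0q2 pd1 2 false true false .dn 1 1 2 (qsf 536870912 536870912 0 536870912 1) ndB2q1 ndB0q2 pcB1 Cut.none Ext.none)

def k0_pm_112 : ∃ t, chk3 f_pm_112 t 1 1 1 = true :=
  ⟨(a (a (b (b (b (a (l 16760408) (l 16756784)) (a (l 16759824) (l 16731944))) (b (l 16883944) (a (l 16697624) (l 16646608)))) (a (b (b (l 16635200) (l 16681216)) (b (a (l 16486816) (l 16475896)) (a (l 16432984) (l 16656776)))) (b (b (l 16593504) (l 16530936)) (b (l 16543392) (l 1))))) (b (a (b (b (l 16932728) (l 16688640)) (b (l 16647800) (l 16613176))) (l 1)) (b (l 1) (l 1)))) (l 1)), by decide +kernel⟩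

theorem c_pm_112 : CertB 536870912 536870912 0 536870912 536870912 50465866 3 eng mog cd2q1 cd0q2 pd1 false true false .dn 1 1 2
    ndB2q1 ndB0q2 pcB1 Cut.none Ext.none :=
  certB2 (fam := false) (s1 := true) (s2 := false) (a := 1) (b := 1) (c := 2) (cn := .dn) (n1 := ndB2q1) (n2 := ndB0q2) (pc := pcB1) (cut := Cut.none) (xt := Ext.none) (P1 := 536870912) (W1 := 536870912) (P2 := 0) (W2 := 536870912) (P3 := 536870912) (W3 := 50465866) (N0 := 3) (En := eng) (mo := mog) (C1 := cd2q1) (C2 := cd0q2) (C3 := pd1)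
    rfl (fun _ => rfl) k0_pm_112

noncomputable def cut_pm_202_a : Cut := Cut.of [[⟨0, 1, 0, 67108864⟩, ⟨1, 0, 0, 67108864⟩, ⟨2, 1, 0, 67108864⟩]]

noncomputable def f_pm_202_a : ℕ → ℕ → ℕ → ℕ → Bool := onCell 0 536870912 0 536870912 536870912 50465866
    (rowB 3 eng mog cd2q2a cd0q2 pd0 0 false true false .pp 2 0 2 (qsf 0 536870912 0 536870912 0) ndB2q2a ndB0q2 pcB0 cut_pm_202_a Ext.none)

def k0_pm_202_a : ∃ t, chk3 f_pm_202_a t 1 1 1 = true :=
  ⟨(a (l 3) (b (l 3) (b (l 3) (a (l 3) (b (l 3) (a (l 3) (l 6))))))), by decide +kernel⟩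

theorem c_pm_202_a : CertB 0 536870912 0 536870912 536870912 50465866 3 eng mog cd2q2a cd0q2 pd0 false true false .pp 2 0 2
    ndB2q2a ndB0q2 pcB0 cut_pm_202_a Ext.none :=
  certB0 (fam := false) (s1 := true) (s2 := false) (a := 2) (b := 0) (c := 2) (cn := .pp) (n1 := ndB2q2a) (n2 := ndB0q2) (pc := pcB0) (cut := cut_pm_202_a) (xt := Ext.none) (P1 := 0) (W1 := 536870912) (P2 := 0) (W2 := 536870912) (P3 := 536870912) (W3 := 50465866) (N0 := 3) (En := eng) (mo := mog) (C1 := cd2q2a) (C2 := cd0q2) (C3 := pd0)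
    rfl k0_pm_202_a

noncomputable def cut_pm_202_b : Cut := Cut.of [[⟨0, 1, 0, 67108864⟩, ⟨1, 0, 0, 67108864⟩, ⟨2, 1, 0, 67108864⟩]]

noncomputable def f_pm_202_b : ℕ → ℕ → ℕ → ℕ → Bool := onCell 1239849684 370763052 0 536870912 536870912 50465866
    (rowB 3 eng mog cd2q2b cd0q2 pd0 0 false true false .pp 2 0 2 (qsf 1239849684 370763052 0 536870912 0) ndB2q2b ndB0q2 pcB0 cut_pm_202_b Ext.none)

def k0_pm_202_b : ∃ t, chk3 f_pm_202_b t 1 1 1 = true :=
  ⟨(l 3), by decide +kernel⟩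

theorem c_pm_202_b : CertB 1239849684 370763052 0 536870912 536870912 50465866 3 eng mog cd2q2b cd0q2 pd0 false true false .pp 2 0 2
    ndB2q2b ndB0q2 pcB0 cut_pm_202_b Ext.none :=
  certB0 (fam := false) (s1 := true) (s2 := false) (a := 2) (b := 0) (c := 2) (cn := .pp) (n1 := ndB2q2b) (n2 := ndB0q2) (pc := pcB0) (cut := cut_pm_202_b) (xt := Ext.none) (P1 := 1239849684) (W1 := 370763052) (P2 := 0) (W2 := 536870912) (P3 := 536870912) (W3 := 50465866) (N0 := 3) (En := eng) (mo := mog) (C1 := cd2q2b) (C2 := cd0q2) (C3 := pd0)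
    rfl k0_pm_202_b

noncomputable def f_mm_001 : ℕ → ℕ → ℕ → ℕ → Bool := onCell 0 536870912 536870912 536870912 536870912 50465866
    (rowB 3 eng mog cd2q0 cd0q1 pd0 0 false false false .up 0 0 1 (qsf 0 536870912 536870912 536870912 0) ndB2q0 ndB0q1 pcB0 Cut.none Ext.none)

def k0_mm_001 : ∃ t, chk3 f_mm_001 t 1 1 1 = true :=
  ⟨(l 5), by decide +kernel⟩

theorem c_mm_001 : CertB 0 536870912 536870912 536870912 536870912 50465866 3 eng mog cd2q0 cd0q1 pd0 false false false .up 0 0 1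
    ndB2q0 ndB0q1 pcB0 Cut.none Ext.none :=
  certB0 (fam := false) (s1 := false) (s2 := false) (a := 0) (b := 0) (c := 1) (cn := .up) (n1 := ndB2q0) (n2 := ndB0q1) (pc := pcB0) (cut := Cut.none) (xt := Ext.none) (P1 := 0) (W1 := 536870912) (P2 := 536870912) (W2 := 536870912) (P3 := 536870912) (W3 := 50465866) (N0 := 3) (En := eng) (mo := mog) (C1 := cd2q0) (C2 := cd0q1) (C3 := pd0)
    rfl k0_mm_001

noncomputable def f_mm_011 : ℕ → ℕ → ℕ → ℕ → Bool := onCell 0 536870912 536870912 536870912 536870912 50465866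
    (rowB 3 eng mog cd2q0 cd0q1 pd1 0 false false false .pnn 0 1 1 (qsf 0 536870912 536870912 536870912 1) ndB2q0 ndB0q1 pcB1 Cut.none Ext.none)

def k0_mm_011 : ∃ t, chk3 f_mm_011 t 1 1 1 = true :=
  ⟨(l 5), by decide +kernel⟩

theorem c_mm_011 : CertB 0 536870912 536870912 536870912 536870912 50465866 3 eng mog cd2q0 cd0q1 pd1 false false false .pnn 0 1 1
    ndB2q0 ndB0q1 pcB1 Cut.none Ext.none :=
  certB0 (fam := false) (s1 := false) (s2 := false) (a := 0) (b := 1) (c := 1) (cn := .pnn) (n1 := ndB2q0) (n2 := ndB0q1) (pc := pcB1) (cut := Cut.none) (xt := Ext.none) (P1 := 0) (W1 := 536870912) (P2 := 536870912) (W2 := 536870912) (P3 := 536870912) (W3 := 50465866) (N0 := 3) (En := eng) (mo := mog) (C1 := cd2q0) (C2 := cd0q1) (C3 := pd1)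
    rfl k0_mm_011

noncomputable def f_mm_012 : ℕ → ℕ → ℕ → ℕ → Bool := onCell 0 536870912 0 536870912 536870912 50465866
    (rowB 3 eng mog cd2q0 cd0q2 pd1 0 false false false .pnp 0 1 2 (qsf 0 536870912 0 536870912 1) ndB2q0 ndB0q2 pcB1 Cut.none Ext.none)

def k0_mm_012 : ∃ t, chk3 f_mm_012 t 1 1 1 = true :=
  ⟨(l 5), by decide +kernel⟩

theorem c_mm_012 : CertB 0 536870912 0 536870912 536870912 50465866 3 eng mog cd2q0 cd0q2 pd1 false false false .pnp 0 1 2
    ndB2q0 ndB0q2 pcB1 Cut.none Ext.none :=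
  certB0 (fam := false) (s1 := false) (s2 := false) (a := 0) (b := 1) (c := 2) (cn := .pnp) (n1 := ndB2q0) (n2 := ndB0q2) (pc := pcB1) (cut := Cut.none) (xt := Ext.none) (P1 := 0) (W1 := 536870912) (P2 := 0) (W2 := 536870912) (P3 := 536870912) (W3 := 50465866) (N0 := 3) (En := eng) (mo := mog) (C1 := cd2q0) (C2 := cd0q2) (C3 := pd1)
    rfl k0_mm_012

noncomputable def f_mm_022 : ℕ → ℕ → ℕ → ℕ → Bool := onCell 0 536870912 0 536870912 536870912 50465866
    (rowB 3 eng mog cd2q0 cd0q2 pd2 0 false false false .pp 0 2 2 (qsf 0 536870912 0 536870912 2) ndB2q0 ndB0q2 pcB2 Cut.none Ext.none)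

def k0_mm_022 : ∃ t, chk3 f_mm_022 t 1 1 1 = true :=
  ⟨(l 5), by decide +kernel⟩

theorem c_mm_022 : CertB 0 536870912 0 536870912 536870912 50465866 3 eng mog cd2q0 cd0q2 pd2 false false false .pp 0 2 2
    ndB2q0 ndB0q2 pcB2 Cut.none Ext.none :=
  certB0 (fam := false) (s1 := false) (s2 := false) (a := 0) (b := 2) (c := 2) (cn := .pp) (n1 := ndB2q0) (n2 := ndB0q2) (pc := pcB2) (cut := Cut.none) (xt := Ext.none) (P1 := 0) (W1 := 536870912) (P2 := 0) (W2 := 536870912) (P3 := 536870912) (W3 := 50465866) (N0 := 3) (En := eng) (mo := mog) (C1 := cd2q0) (C2 := cd0q2) (C3 := pd2)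
    rfl k0_mm_022

noncomputable def f_mm_101 : ℕ → ℕ → ℕ → ℕ → Bool := onCell 536870912 536870912 536870912 536870912 536870912 50465866
    (rowB 3 eng mog cd2q1 cd0q1 pd0 0 false false false .npn 1 0 1 (qsf 536870912 536870912 536870912 536870912 0) ndB2q1 ndB0q1 pcB0 Cut.none Ext.none)

def k0_mm_101 : ∃ t, chk3 f_mm_101 t 1 1 1 = true :=
  ⟨(l 3), by decide +kernel⟩

theorem c_mm_101 : CertB 536870912 536870912 536870912 536870912 536870912 50465866 3 eng mog cd2q1 cd0q1 pd0 false false false .npn 1 0 1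
    ndB2q1 ndB0q1 pcB0 Cut.none Ext.none :=
  certB0 (fam := false) (s1 := false) (s2 := false) (a := 1) (b := 0) (c := 1) (cn := .npn) (n1 := ndB2q1) (n2 := ndB0q1) (pc := pcB0) (cut := Cut.none) (xt := Ext.none) (P1 := 536870912) (W1 := 536870912) (P2 := 536870912) (W2 := 536870912) (P3 := 536870912) (W3 := 50465866) (N0 := 3) (En := eng) (mo := mog) (C1 := cd2q1) (C2 := cd0q1) (C3 := pd0)
    rfl k0_mm_101

noncomputable def f_mm_102 : ℕ → ℕ → ℕ → ℕ → Bool := onCell 536870912 536870912 0 536870912 536870912 50465866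
    (rowB 3 eng mog cd2q1 cd0q2 pd0 0 false false false .npp 1 0 2 (qsf 536870912 536870912 0 536870912 0) ndB2q1 ndB0q2 pcB0 Cut.none Ext.none)

def k0_mm_102 : ∃ t, chk3 f_mm_102 t 1 1 1 = true :=
  ⟨(l 5), by decide +kernel⟩

theorem c_mm_102 : CertB 536870912 536870912 0 536870912 536870912 50465866 3 eng mog cd2q1 cd0q2 pd0 false false false .npp 1 0 2
    ndB2q1 ndB0q2 pcB0 Cut.none Ext.none :=
  certB0 (fam := false) (s1 := false) (s2 := false) (a := 1) (b := 0) (c := 2) (cn := .npp) (n1 := ndB2q1) (n2 := ndB0q2) (pc := pcB0) (cut := Cut.none) (xt := Ext.none) (P1 := 536870912) (W1 := 536870912) (P2 := 0) (W2 := 536870912) (P3 := 536870912) (W3 := 50465866) (N0 := 3) (En := eng) (mo := mog) (C1 := cd2q1) (C2 := cd0q2) (C3 := pd0)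
    rfl k0_mm_102

noncomputable def f_mm_112 : ℕ → ℕ → ℕ → ℕ → Bool := onCell 536870912 536870912 0 536870912 536870912 50465866
    (rowB 3 eng mog cd2q1 cd0q2 pd1 0 false false false .dn 1 1 2 (qsf 536870912 536870912 0 536870912 1) ndB2q1 ndB0q2 pcB1 Cut.none Ext.none)

def k0_mm_112 : ∃ t, chk3 f_mm_112 t 1 1 1 = true :=
  ⟨(l 5), by decide +kernel⟩

theorem c_mm_112 : CertB 536870912 536870912 0 536870912 536870912 50465866 3 eng mog cd2q1 cd0q2 pd1 false false false .dn 1 1 2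
    ndB2q1 ndB0q2 pcB1 Cut.none Ext.none :=
  certB0 (fam := false) (s1 := false) (s2 := false) (a := 1) (b := 1) (c := 2) (cn := .dn) (n1 := ndB2q1) (n2 := ndB0q2) (pc := pcB1) (cut := Cut.none) (xt := Ext.none) (P1 := 536870912) (W1 := 536870912) (P2 := 0) (W2 := 536870912) (P3 := 536870912) (W3 := 50465866) (N0 := 3) (En := eng) (mo := mog) (C1 := cd2q1) (C2 := cd0q2) (C3 := pd1)
    rfl k0_mm_112

noncomputable def f_mm_202_a : ℕ → ℕ → ℕ → ℕ → Bool := onCell 0 536870912 0 536870912 536870912 50465866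
    (rowB 3 eng mog cd2q2a cd0q2 pd0 0 false false false .pp 2 0 2 (qsf 0 536870912 0 536870912 0) ndB2q2a ndB0q2 pcB0 Cut.none Ext.none)

def k0_mm_202_a : ∃ t, chk3 f_mm_202_a t 1 1 1 = true :=
  ⟨(l 3), by decide +kernel⟩

theorem c_mm_202_a : CertB 0 536870912 0 536870912 536870912 50465866 3 eng mog cd2q2a cd0q2 pd0 false false false .pp 2 0 2
    ndB2q2a ndB0q2 pcB0 Cut.none Ext.none :=
  certB0 (fam := false) (s1 := false) (s2 := false) (a := 2) (b := 0) (c := 2) (cn := .pp) (n1 := ndB2q2a) (n2 := ndB0q2) (pc := pcB0) (cut := Cut.none) (xt := Ext.none) (P1 := 0) (W1 := 536870912) (P2 := 0) (W2 := 536870912) (P3 := 536870912) (W3 := 50465866) (N0 := 3) (En := eng) (mo := mog) (C1 := cd2q2a) (C2 := cd0q2) (C3 := pd0)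
    rfl k0_mm_202_a

noncomputable def f_mm_202_b : ℕ → ℕ → ℕ → ℕ → Bool := onCell 1239849684 370763052 0 536870912 536870912 50465866
    (rowB 3 eng mog cd2q2b cd0q2 pd0 0 false false false .pp 2 0 2 (qsf 1239849684 370763052 0 536870912 0) ndB2q2b ndB0q2 pcB0 Cut.none Ext.none)

def k0_mm_202_b : ∃ t, chk3 f_mm_202_b t 1 1 1 = true :=
  ⟨(l 3), by decide +kernel⟩

theorem c_mm_202_b : CertB 1239849684 370763052 0 536870912 536870912 50465866 3 eng mog cd2q2b cd0q2 pd0 false false false .pp 2 0 2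
    ndB2q2b ndB0q2 pcB0 Cut.none Ext.none :=
  certB0 (fam := false) (s1 := false) (s2 := false) (a := 2) (b := 0) (c := 2) (cn := .pp) (n1 := ndB2q2b) (n2 := ndB0q2) (pc := pcB0) (cut := Cut.none) (xt := Ext.none) (P1 := 1239849684) (W1 := 370763052) (P2 := 0) (W2 := 536870912) (P3 := 536870912) (W3 := 50465866) (N0 := 3) (En := eng) (mo := mog) (C1 := cd2q2b) (C2 := cd0q2) (C3 := pd0)
    rfl k0_mm_202_b

end Pool.Agent.Strip051.G.I5000_5470.Tab.C.BB20

namespace Pool.Agent.Strip051.G.I5000_5470.Tab.C.BB21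

open Pool.Agent.Strip051.PB Pool.Agent.Strip051.PB.T
open Pool.Agent.Strip051.G.I5000_5470.Tab

noncomputable def f_pp_001 : ℕ → ℕ → ℕ → ℕ → Bool := onCell 0 536870912 0 536870912 536870912 50465866
    (rowB 3 eng mog cd2q0 cd1q1 pd0 1 false true true .up 0 0 1 (qsf 0 536870912 536870912 536870912 0) ndB2q0 ndB1q1 pcB0 Cut.none Ext.none)

def k0_pp_001 : ∃ t, chk3 f_pp_001 t 1 1 1 = true :=
  ⟨(l 3), by decide +kernel⟩

theorem c_pp_001 : CertB 0 536870912 536870912 536870912 536870912 50465866 3 eng mog cd2q0 cd1q1 pd0 false true true .up 0 0 1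
    ndB2q0 ndB1q1 pcB0 Cut.none Ext.none :=
  certB1 (fam := false) (s1 := true) (s2 := true) (a := 0) (b := 0) (c := 1) (cn := .up) (n1 := ndB2q0) (n2 := ndB1q1) (pc := pcB0) (cut := Cut.none) (xt := Ext.none) (P1 := 0) (W1 := 536870912) (P2 := 536870912) (W2 := 536870912) (P3 := 536870912) (W3 := 50465866) (N0 := 3) (En := eng) (mo := mog) (C1 := cd2q0) (C2 := cd1q1) (C3 := pd0)
    rfl (fun _ => rfl) k0_pp_001

noncomputable def f_pp_011 : ℕ → ℕ → ℕ → ℕ → Bool := onCell 0 536870912 536870912 536870912 536870912 50465866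
    (rowB 3 eng mog cd2q0 cd1q1 pd1 0 false true true .pnn 0 1 1 (qsf 0 536870912 536870912 536870912 1) ndB2q0 ndB1q1 pcB1 Cut.none Ext.none)

def k0_pp_011 : ∃ t, chk3 f_pp_011 t 1 1 1 = true :=
  ⟨(a (b (l 3) (l 3)) (l 3)), by decide +kernel⟩

theorem c_pp_011 : CertB 0 536870912 536870912 536870912 536870912 50465866 3 eng mog cd2q0 cd1q1 pd1 false true true .pnn 0 1 1
    ndB2q0 ndB1q1 pcB1 Cut.none Ext.none :=
  certB0 (fam := false) (s1 := true) (s2 := true) (a := 0) (b := 1) (c := 1) (cn := .pnn) (n1 := ndB2q0) (n2 := ndB1q1) (pc := pcB1) (cut := Cut.none) (xt := Ext.none) (P1 := 0) (W1 := 536870912) (P2 := 536870912) (W2 := 536870912) (P3 := 536870912) (W3 := 50465866) (N0 := 3) (En := eng) (mo := mog) (C1 := cd2q0) (C2 := cd1q1) (C3 := pd1)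
    rfl k0_pp_011

noncomputable def cut_pp_012_a : Cut := Cut.of [[⟨0, 0, 0, 53687091⟩, ⟨1, 1, 0, 53687091⟩, ⟨2, 1, 0, 53687091⟩]]

noncomputable def f_pp_012_a : ℕ → ℕ → ℕ → ℕ → Bool := onCell 536870912 536870912 0 536870912 536870912 50465866
    (rowB 3 eng mog cd2q0 cd1q2a pd1 2 false true true .pnp 0 1 2 (qsf 0 536870912 0 536870912 1) ndB2q0 ndB1q2a pcB1 cut_pp_012_a Ext.none)

def k0_pp_012_a : ∃ t, chk3 f_pp_012_a t 2 1 1 = true :=
  ⟨(a (b (a (l 2) (b (l 2) (b (l 2) (a (l 2) (b (l 2) (l 171966403975)))))) (l 3)) (b (a (b (a (l 16766312) (l 16764792)) (b (b (a (l 16719464) (l 16753048)) (a (l 16689832) (l 16727640))) (b (a (l 16708136) (l 16702192)) (a (a (l 135459158727) (l 16733592)) (l 16721864))))) (b (l 16837744) (b (a (l 16761584) (l 16766904)) (a (b (l 16734464) (l 16716000)) (b (l 16758824) (l 16733968)))))) (b (a (b (b (a (l 177335142151) (a (l 128480025079) (l 109152674151))) (l 3)) (l 3)) (b (a (b (a (l 16741656) (l 16736776))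 (a (l 165524004135) (l 109152704887))) (b (l 16735384) (l 84456704871))) (a (l 3) (b (l 159618471527) (l 3))))) (l 3)))), by decide +kernel⟩

def k1_pp_012_a : ∃ t, chk3 f_pp_012_a t 6 1 1 = true :=
  ⟨(b (a (b (b (l 16708112) (l 16736336)) (b (l 16757800) (a (l 16766816) (l 16767136)))) (b (b (l 16655472) (l 16687400)) (b (l 16716616) (a (l 16752800) (l 16730544))))) (b (a (b (a (l 16873216) (b (l 16765144) (l 16757064))) (b (a (l 113447527063) (l 16827352)) (a (l 3) (b (l 164987069783) (l 248202204071))))) (a (b (l 16876080) (a (l 96804745687) (l 16839560))) (b (l 16761280) (b (l 16765528) (l 16815856))))) (a (l 3) (b (b (a (a (l 239612320599) (l 214916232951)) (a (a (l 190757107783) (l 186999002407)) (l 74792976775))) (a (l 3) (a (l 3) (l 187535823479)))) (l 3))))), by decide +kernel⟩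

def k2_pp_012_a : ∃ t, chk3 f_pp_012_a t 7 1 1 = true :=
  ⟨(b (b (a (b (l 16600568) (l 16630816)) (a (l 16573560) (l 16629664))) (b (a (l 16681696) (a (l 16614832) (l 16584472))) (a (a (l 16703832) (l 16674184)) (a (l 16643312) (a (l 16620392) (l 16605712)))))) (a (b (a (b (l 16738008) (b (l 16765256) (l 16768648))) (b (l 16709048) (b (l 16739752) (l 16759720)))) (b (b (a (a (l 16782752) (l 16772128)) (a (l 16767536) (l 16770272))) (a (b (a (l 16846728) (l 16790528)) (a (l 193978259191) (l 168208491927))) (a (b (l 16778464) (l 16812392)) (l 16816040)))) (a (l 3) (b (b (a (b (l 176798391063) (l 3)) (a (l 171966535159) (l 16810512))) (a (l 3) (b (l 172503388071) (l 3)))) (l 3))))) (b (b (a (l 16699080) (a (l 16655088) (l 16640240))) (a (a (l 16769360) (l 16732560)) (a (l 16695736) (b (l 16669592) (l 16690088))))) (b (a (b (a (l 16758288) (l 16742944)) (a (l 16772784) (l 16762856))) (b (a (b (l 16721616) (l 16731960)) (b (l 16705584) (l 16715944)))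 (a (b (l 16741992) (l 16752160)) (a (l 16735064) (l 16727144))))) (a (b (a (b (l 16801640) (b (a (l 125258749815) (l 16787344)) (a (l 171966511815) (l 168208401799)))) (b (l 16772976) (a (l 117742547255) (l 16778360)))) (a (l 3) (b (b (a (l 168208402743) (b (l 16786240) (l 126332476663))) (a (l 3) (l 168745273991))) (l 3)))) (b (a (b (l 16762520) (a (l 16774288) (l 16769112))) (b (a (l 16750520) (l 6)) (l 6))) (a (b (b (a (l 16781264) (l 6)) (l 6)) (l 6)) (l 6)))))))), by decide +kernel⟩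

theorem s3_pp_012_a : ∃ t, chk3 f_pp_012_a t 3 1 1 = true := ex3_a k1_pp_012_a k2_pp_012_a

theorem s4_pp_012_a : ∃ t, chk3 f_pp_012_a t 1 1 1 = true := ex3_a k0_pp_012_a s3_pp_012_a

theorem c_pp_012_a : CertB 0 536870912 0 536870912 536870912 50465866 3 eng mog cd2q0 cd1q2a pd1 false true true .pnp 0 1 2
    ndB2q0 ndB1q2a pcB1 cut_pp_012_a Ext.none :=
  certB2 (fam := false) (s1 := true) (s2 := true) (a := 0) (b := 1) (c := 2) (cn := .pnp) (n1 := ndB2q0) (n2 := ndB1q2a) (pc := pcB1) (cut := cut_pp_012_a) (xt := Ext.none) (P1 := 0) (W1 := 536870912) (P2 := 0) (W2 := 536870912) (P3 := 536870912) (W3 := 50465866) (N0 := 3) (En := eng) (mo := mog) (C1 := cd2q0) (C2 := cd1q2a) (C3 := pd1)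
    rfl (fun _ => rfl) s4_pp_012_a

noncomputable def cut_pp_012_b : Cut := Cut.of [[⟨0, 0, 0, 53687091⟩, ⟨1, 1, 0, 53687091⟩, ⟨2, 1, 0, 53687091⟩]]

noncomputable def f_pp_012_b : ℕ → ℕ → ℕ → ℕ → Bool := onCell 536870912 536870912 1239849684 370763052 536870912 50465866
    (rowB 3 eng mog cd2q0 cd1q2b pd1 2 false true true .pnp 0 1 2 (qsf 0 536870912 1239849684 370763052 1) ndB2q0 ndB1q2b pcB1 cut_pp_012_b Ext.none)

def k0_pp_012_b : ∃ t, chk3 f_pp_012_b t 1 1 1 = true :=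
  ⟨(a (a (l 2) (b (a (b (l 16761144) (l 2)) (b (l 16731928) (l 16760008))) (l 2))) (a (b (a (b (l 16688168) (l 16709448)) (b (b (l 16632048) (l 16623632)) (l 16636248))) (a (l 2) (l 16749536))) (b (b (a (b (l 16569096) (l 16544168)) (a (l 16503992) (l 16472080))) (a (l 16541864) (a (l 16461656) (l 16409632)))) (b (a (l 16594680) (l 16465728)) (l 16643112))))), by decide +kernel⟩

theorem c_pp_012_b : CertB 0 536870912 1239849684 370763052 536870912 50465866 3 eng mog cd2q0 cd1q2b pd1 false true true .pnp 0 1 2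
    ndB2q0 ndB1q2b pcB1 cut_pp_012_b Ext.none :=
  certB2 (fam := false) (s1 := true) (s2 := true) (a := 0) (b := 1) (c := 2) (cn := .pnp) (n1 := ndB2q0) (n2 := ndB1q2b) (pc := pcB1) (cut := cut_pp_012_b) (xt := Ext.none) (P1 := 0) (W1 := 536870912) (P2 := 1239849684) (W2 := 370763052) (P3 := 536870912) (W3 := 50465866) (N0 := 3) (En := eng) (mo := mog) (C1 := cd2q0) (C2 := cd1q2b) (C3 := pd1)
    rfl (fun _ => rfl) k0_pp_012_b

noncomputable def cut_pp_022_a : Cut := Cut.of [[⟨0, 0, 0, 67108864⟩, ⟨1, 1, 0, 67108864⟩, ⟨2, 1, 0, 67108864⟩]]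

noncomputable def f_pp_022_a : ℕ → ℕ → ℕ → ℕ → Bool := onCell 0 536870912 0 536870912 536870912 50465866
    (rowB 3 eng mog cd2q0 cd1q2a pd2 0 false true true .pp 0 2 2 (qsf 0 536870912 0 536870912 2) ndB2q0 ndB1q2a pcB2 cut_pp_022_a Ext.none)

def k0_pp_022_a : ∃ t, chk3 f_pp_022_a t 1 1 1 = true :=
  ⟨(a (b (b (a (a (a (b (l 16462520) (l 16557720)) (b (l 16480688) (l 16494784))) (a (l 16488904) (l 16580776))) (a (a (l 16549120) (l 16641120)) (l 1))) (a (a (b (a (a (l 16531648) (l 16499152)) (l 16516528)) (a (b (a (a (l 16531864) (l 16515168)) (l 16521328)) (a (c (l 16595216) (l 16531760)) (l 16541520))) (l 16640720))) (b (a (l 16537032) (l 16554544)) (a (l 16569200) (l 16672816)))) (a (a (b (l 16569288) (b (l 16595640) (l 16615960))) (l 1)) (l 1)))) (a (b (a (a (b (b (a (a (l 16550200) (l 16555344)) (l 16562720)) (a (b (l 16568560) (l 16600776)) (l 16585088))) (b (a (a (b (l 16588568) (l 16600880)) (b (l 16594592) (l 16607176))) (l 16630680))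 (a (a (b (l 16613904) (l 16627736)) (a (l 16688816) (l 16629168))) (l 16658024)))) (b (a (l 16625592) (l 16594848)) (b (l 16671576) (a (l 16650296) (l 16684320))))) (b (a (b (l 16600064) (l 16624936)) (b (l 16620640) (l 105796930455))) (a (b (a (l 16646272) (l 16657432)) (a (l 16696280) (l 237867258711))) (b (l 288333097047) (l 1))))) (a (a (b (b (b (a (a (a (l 16640536) (l 16644152)) (l 16649440)) (l 16659504)) (a (a (b (l 16653848) (l 6)) (l 16665208)) (l 16699544))) (l 6)) (l 6)) (a (b (b (b (l 16673560) (b (l 16685648) (l 6))) (l 6)) (l 6)) (b (b (b (l 16686376) (l 16723352)) (a (l 6) (a (l 6) (l 1)))) (l 1)))) (b (a (b (a (b (l 16698104) (l 289943773079)) (l 1)) (l 1)) (l 1)) (l 1)))) (b (l 1) (l 1)))) (l 1)), by decide +kernel⟩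

theorem c_pp_022_a : CertB 0 536870912 0 536870912 536870912 50465866 3 eng mog cd2q0 cd1q2a pd2 false true true .pp 0 2 2
    ndB2q0 ndB1q2a pcB2 cut_pp_022_a Ext.none :=
  certB0 (fam := false) (s1 := true) (s2 := true) (a := 0) (b := 2) (c := 2) (cn := .pp) (n1 := ndB2q0) (n2 := ndB1q2a) (pc := pcB2) (cut := cut_pp_022_a) (xt := Ext.none) (P1 := 0) (W1 := 536870912) (P2 := 0) (W2 := 536870912) (P3 := 536870912) (W3 := 50465866) (N0 := 3) (En := eng) (mo := mog) (C1 := cd2q0) (C2 := cd1q2a) (C3 := pd2)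
    rfl k0_pp_022_a

noncomputable def cut_pp_022_b : Cut := Cut.of [[⟨0, 0, 0, 67108864⟩, ⟨1, 1, 0, 67108864⟩, ⟨2, 1, 0, 67108864⟩]]

noncomputable def f_pp_022_b : ℕ → ℕ → ℕ → ℕ → Bool := onCell 0 536870912 1073741824 536870912 536870912 50465866
    (rowB 3 eng mog cd2q0 cd1q2b pd2 1 false true true .pp 0 2 2 (qsf 0 536870912 1239849684 370763052 2) ndB2q0 ndB1q2b pcB2 cut_pp_022_b Ext.none)

def k0_pp_022_b : ∃ t, chk3 f_pp_022_b t 1 1 1 = true :=
  ⟨(a (b (b (a (a (b (l 1) (a (a (l 1) (l 184716908183)) (l 16629240))) (b (a (l 16635480) (l 16544760)) (l 96669768279))) (b (a (l 16501536) (l 16393576)) (a (l 16366552) (l 16317792)))) (a (b (a (a (b (l 16540736) (l 16518568)) (b (l 16414240) (l 16351080))) (b (l 16357648) (l 16301352))) (a (a (a (l 16491680) (l 16317824)) (l 16274584)) (l 16193704))) (b (a (l 16421704) (l 16243760)) (l 16157712)))) (b (a (a (b (a (l 16273472) (l 16226824)) (l 16215680)) (l 16178424)) (b (l 16029728) (l 15977264)))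 (b (a (a (l 16191944) (l 16121776)) (l 16248960)) (a (a (l 16186624) (l 16214480)) (l 2))))) (b (b (a (a (l 16321768) (l 16337872)) (l 16444456)) (a (b (l 16255320) (l 16204088)) (l 16502208))) (b (a (l 16347984) (l 2)) (l 2)))), by decide +kernel⟩

theorem c_pp_022_b : CertB 0 536870912 1239849684 370763052 536870912 50465866 3 eng mog cd2q0 cd1q2b pd2 false true true .pp 0 2 2
    ndB2q0 ndB1q2b pcB2 cut_pp_022_b Ext.none :=
  certB1 (fam := false) (s1 := true) (s2 := true) (a := 0) (b := 2) (c := 2) (cn := .pp) (n1 := ndB2q0) (n2 := ndB1q2b) (pc := pcB2) (cut := cut_pp_022_b) (xt := Ext.none) (P1 := 0) (W1 := 536870912) (P2 := 1239849684) (W2 := 370763052) (P3 := 536870912) (W3 := 50465866) (N0 := 3) (En := eng) (mo := mog) (C1 := cd2q0) (C2 := cd1q2b) (C3 := pd2)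
    rfl (fun _ => rfl) k0_pp_022_b

noncomputable def f_pp_023 : ℕ → ℕ → ℕ → ℕ → Bool := onCell 0 536870912 1073741824 536870912 536870912 50465866
    (rowB 3 eng mog cd2q0 cd1q3 pd2 1 false true true .up 0 2 3 (qsf 0 536870912 1610612736 536870912 2) ndB2q0 ndB1q3 pcB2 Cut.none Ext.none)

def k0_pp_023 : ∃ t, chk3 f_pp_023 t 1 1 1 = true :=
  ⟨(a (b (b (l 1) (a (l 1) (l 258267636727))) (b (a (l 516502350647) (l 345240438871)) (b (a (l 572336682407) (l 16243088)) (a (l 506838890119) (l 16422944))))) (b (b (a (l 229277029031) (l 16454456)) (a (l 289406403383) (l 16511144))) (b (a (l 16349872) (l 16635808)) (a (l 16585808) (l 16707840))))), by decide +kernel⟩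

theorem c_pp_023 : CertB 0 536870912 1610612736 536870912 536870912 50465866 3 eng mog cd2q0 cd1q3 pd2 false true true .up 0 2 3
    ndB2q0 ndB1q3 pcB2 Cut.none Ext.none :=
  certB1 (fam := false) (s1 := true) (s2 := true) (a := 0) (b := 2) (c := 3) (cn := .up) (n1 := ndB2q0) (n2 := ndB1q3) (pc := pcB2) (cut := Cut.none) (xt := Ext.none) (P1 := 0) (W1 := 536870912) (P2 := 1610612736) (W2 := 536870912) (P3 := 536870912) (W3 := 50465866) (N0 := 3) (En := eng) (mo := mog) (C1 := cd2q0) (C2 := cd1q3) (C3 := pd2)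
    rfl (fun _ => rfl) k0_pp_023

noncomputable def f_pp_033 : ℕ → ℕ → ℕ → ℕ → Bool := onCell 0 536870912 1610612736 536870912 536870912 50465866
    (rowB 3 eng mog cd2q0 cd1q3 pd3 1 false true true .pnn 0 3 3 (qsf 0 536870912 1610612736 536870912 3) ndB2q0 ndB1q3 pcB3 Cut.none Ext.none)

def k0_pp_033 : ∃ t, chk3 f_pp_033 t 1 1 1 = true :=
  ⟨(a (b (b (b (a (l 16360792) (l 16546984)) (a (a (l 16456184) (l 16530520)) (l 16627856))) (b (a (l 16760344) (l 4)) (l 4))) (b (l 4) (a (l 4) (a (b (l 4) (l 2)) (l 2))))) (b (b (b (l 16759168) (l 16743112)) (a (l 4) (a (b (l 4) (l 2)) (l 2)))) (a (b (a (b (l 4) (l 2)) (l 2)) (l 2)) (l 2)))), by decide +kernel⟩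

theorem c_pp_033 : CertB 0 536870912 1610612736 536870912 536870912 50465866 3 eng mog cd2q0 cd1q3 pd3 false true true .pnn 0 3 3
    ndB2q0 ndB1q3 pcB3 Cut.none Ext.none :=
  certB1 (fam := false) (s1 := true) (s2 := true) (a := 0) (b := 3) (c := 3) (cn := .pnn) (n1 := ndB2q0) (n2 := ndB1q3) (pc := pcB3) (cut := Cut.none) (xt := Ext.none) (P1 := 0) (W1 := 536870912) (P2 := 1610612736) (W2 := 536870912) (P3 := 536870912) (W3 := 50465866) (N0 := 3) (En := eng) (mo := mog) (C1 := cd2q0) (C2 := cd1q3) (C3 := pd3)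
    rfl (fun _ => rfl) k0_pp_033

noncomputable def f_pp_101 : ℕ → ℕ → ℕ → ℕ → Bool := onCell 536870912 536870912 536870912 536870912 536870912 50465866
    (rowB 3 eng mog cd2q1 cd1q1 pd0 0 false true true .npn 1 0 1 (qsf 536870912 536870912 536870912 536870912 0) ndB2q1 ndB1q1 pcB0 Cut.none Ext.none)

def k0_pp_101 : ∃ t, chk3 f_pp_101 t 1 1 1 = true :=
  ⟨(l 3), by decide +kernel⟩

theorem c_pp_101 : CertB 536870912 536870912 536870912 536870912 536870912 50465866 3 eng mog cd2q1 cd1q1 pd0 false true true .npn 1 0 1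
    ndB2q1 ndB1q1 pcB0 Cut.none Ext.none :=
  certB0 (fam := false) (s1 := true) (s2 := true) (a := 1) (b := 0) (c := 1) (cn := .npn) (n1 := ndB2q1) (n2 := ndB1q1) (pc := pcB0) (cut := Cut.none) (xt := Ext.none) (P1 := 536870912) (W1 := 536870912) (P2 := 536870912) (W2 := 536870912) (P3 := 536870912) (W3 := 50465866) (N0 := 3) (En := eng) (mo := mog) (C1 := cd2q1) (C2 := cd1q1) (C3 := pd0)
    rfl k0_pp_101

noncomputable def f_pp_102_a : ℕ → ℕ → ℕ → ℕ → Bool := onCell 0 536870912 0 536870912 536870912 50465866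
    (rowB 3 eng mog cd2q1 cd1q2a pd0 2 false true true .npp 1 0 2 (qsf 536870912 536870912 0 536870912 0) ndB2q1 ndB1q2a pcB0 Cut.none Ext.none)

def k0_pp_102_a : ∃ t, chk3 f_pp_102_a t 1 1 1 = true :=
  ⟨(a (a (b (l 3) (l 3)) (l 3)) (a (b (a (l 3) (b (b (a (b (b (l 176261017223) (l 3)) (l 3)) (b (a (l 163912999271) (l 157470554599)) (a (l 3) (l 179482231991)))) (l 3)) (l 3))) (l 3)) (b (a (b (b (a (b (a (l 16598272) (l 16612192)) (a (l 165523601767) (l 158007413559))) (b (l 16631664) (a (l 16595120) (l 16609304)))) (a (l 3) (b (a (l 172502910007) (l 166060483047)) (l 3)))) (l 3)) (b (b (a (b (l 16654344) (l 16629144)) (b (l 16675952) (l 16648952))) (a (a (b (l 141901289367) (l 177871611575)) (b (l 16604464) (l 171966057655))) (b (a (l 16616688) (l 16623504)) (a (b (l 16593688) (l 175724166887)) (l 16593720))))) (b (a (l 3) (b (a (l 3) (l 220284422199)) (l 3))) (l 3)))) (l 3)))), by decide +kernel⟩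

theorem c_pp_102_a : CertB 536870912 536870912 0 536870912 536870912 50465866 3 eng mog cd2q1 cd1q2a pd0 false true true .npp 1 0 2
    ndB2q1 ndB1q2a pcB0 Cut.none Ext.none :=
  certB2 (fam := false) (s1 := true) (s2 := true) (a := 1) (b := 0) (c := 2) (cn := .npp) (n1 := ndB2q1) (n2 := ndB1q2a) (pc := pcB0) (cut := Cut.none) (xt := Ext.none) (P1 := 536870912) (W1 := 536870912) (P2 := 0) (W2 := 536870912) (P3 := 536870912) (W3 := 50465866) (N0 := 3) (En := eng) (mo := mog) (C1 := cd2q1) (C2 := cd1q2a) (C3 := pd0)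
    rfl (fun _ => rfl) k0_pp_102_a

noncomputable def f_pp_102_b : ℕ → ℕ → ℕ → ℕ → Bool := onCell 536870912 536870912 0 536870912 536870912 50465866
    (rowB 3 eng mog cd2q1 cd1q2b pd0 1 false true true .npp 1 0 2 (qsf 536870912 536870912 1239849684 370763052 0) ndB2q1 ndB1q2b pcB0 Cut.none Ext.none)

def k0_pp_102_b : ∃ t, chk3 f_pp_102_b t 1 1 1 = true :=
  ⟨(a (b (l 1) (b (l 1) (a (l 1) (b (a (l 1) (b (l 142841025351) (l 16654784))) (a (a (l 16694784) (l 16685096)) (l 16659664)))))) (b (a (l 1) (l 3)) (b (a (a (b (l 1) (a (b (l 1) (l 245383291159)) (b (l 239477762407) (l 16591624)))) (b (b (l 3) (l 3)) (b (a (a (b (l 224445224679) (l 16575168)) (l 443622718631)) (l 3)) (a (l 16599632) (l 330879839079))))) (l 3)) (a (b (a (b (l 16603496) (l 16605320)) (b (l 84992984807) (l 16541688))) (a (l 16616552) (b (l 16557472) (l 16578936)))) (a (b (a (l 150491206055) (l 3)) (b (l 134385006871) (l 16534008))) (l 3)))))), by decide +kernel⟩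

theorem c_pp_102_b : CertB 536870912 536870912 1239849684 370763052 536870912 50465866 3 eng mog cd2q1 cd1q2b pd0 false true true .npp 1 0 2
    ndB2q1 ndB1q2b pcB0 Cut.none Ext.none :=
  certB1 (fam := false) (s1 := true) (s2 := true) (a := 1) (b := 0) (c := 2) (cn := .npp) (n1 := ndB2q1) (n2 := ndB1q2b) (pc := pcB0) (cut := Cut.none) (xt := Ext.none) (P1 := 536870912) (W1 := 536870912) (P2 := 1239849684) (W2 := 370763052) (P3 := 536870912) (W3 := 50465866) (N0 := 3) (En := eng) (mo := mog) (C1 := cd2q1) (C2 := cd1q2b) (C3 := pd0)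
    rfl (fun _ => rfl) k0_pp_102_b

noncomputable def f_pp_112_a : ℕ → ℕ → ℕ → ℕ → Bool := onCell 536870912 536870912 0 536870912 536870912 50465866
    (rowB 3 eng mog cd2q1 cd1q2a pd1 2 false true true .dn 1 1 2 (qsf 536870912 536870912 0 536870912 1) ndB2q1 ndB1q2a pcB1 Cut.none Ext.none)

def k0_pp_112_a : ∃ t, chk3 f_pp_112_a t 1 1 1 = true :=
  ⟨(a (a (b (a (b (b (l 16711080) (a (b (l 16657192) (l 16617304)) (b (l 16682496) (l 16642664)))) (b (a (b (b (l 161765614647) (l 203641501655)) (l 190756467639)) (b (l 16589248) (l 160154966935))) (l 3))) (b (b (l 16756048) (b (l 16730776) (a (l 16677304) (l 16717560)))) (b (a (b (l 16624600) (l 16633512)) (b (l 16675976) (l 16663984))) (a (b (l 160155062471) (l 3)) (b (a (l 16662984) (l 16693416)) (l 159618311623)))))) (l 3)) (b (a (a (b (l 16764536) (b (b (l 16720832) (l 16681144)) (b (l 16698600) (b (l 692596885895) (l 1))))) (b (l 1189202646183) (l 1))) (l 1)) (b (l 1) (l 1)))) (l 1)), by decide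 +kernel⟩

theorem c_pp_112_a : CertB 536870912 536870912 0 536870912 536870912 50465866 3 eng mog cd2q1 cd1q2a pd1 false true true .dn 1 1 2
    ndB2q1 ndB1q2a pcB1 Cut.none Ext.none :=
  certB2 (fam := false) (s1 := true) (s2 := true) (a := 1) (b := 1) (c := 2) (cn := .dn) (n1 := ndB2q1) (n2 := ndB1q2a) (pc := pcB1) (cut := Cut.none) (xt := Ext.none) (P1 := 536870912) (W1 := 536870912) (P2 := 0) (W2 := 536870912) (P3 := 536870912) (W3 := 50465866) (N0 := 3) (En := eng) (mo := mog) (C1 := cd2q1) (C2 := cd1q2a) (C3 := pd1)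
    rfl (fun _ => rfl) k0_pp_112_a

noncomputable def f_pp_112_b : ℕ → ℕ → ℕ → ℕ → Bool := onCell 536870912 536870912 1239849684 370763052 536870912 50465866
    (rowB 3 eng mog cd2q1 cd1q2b pd1 2 false true true .dn 1 1 2 (qsf 536870912 536870912 1239849684 370763052 1) ndB2q1 ndB1q2b pcB1 Cut.none Ext.none)

def k0_pp_112_b : ∃ t, chk3 f_pp_112_b t 1 1 1 = true :=
  ⟨(a (a (b (a (b (a (l 16705768) (l 16732496)) (a (l 16675832) (l 16720120))) (b (l 16785216) (l 16780040))) (a (b (a (b (l 16645920) (l 16619296)) (l 16696144)) (a (a (a (l 140827500647) (l 133848199143)) (l 124184530471)) (b (l 16680760) (l 16660840)))) (b (l 16809584) (a (l 16771216) (l 16876928))))) (b (a (b (l 16807672) (l 16819104)) (b (l 16733792) (l 16789136))) (a (b (l 16915712) (l 17043176)) (b (l 16931632) (l 17144432))))) (a (a (b (l 253973836343) (b (l 16860816) (l 17134728))) (b (l 279743092311) (b (l 16732184) (l 17010480)))) (b (l 1) (b (l 236256792759) (l 16686952))))),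 by decide +kernel⟩

theorem c_pp_112_b : CertB 536870912 536870912 1239849684 370763052 536870912 50465866 3 eng mog cd2q1 cd1q2b pd1 false true true .dn 1 1 2
    ndB2q1 ndB1q2b pcB1 Cut.none Ext.none :=
  certB2 (fam := false) (s1 := true) (s2 := true) (a := 1) (b := 1) (c := 2) (cn := .dn) (n1 := ndB2q1) (n2 := ndB1q2b) (pc := pcB1) (cut := Cut.none) (xt := Ext.none) (P1 := 536870912) (W1 := 536870912) (P2 := 1239849684) (W2 := 370763052) (P3 := 536870912) (W3 := 50465866) (N0 := 3) (En := eng) (mo := mog) (C1 := cd2q1) (C2 := cd1q2b) (C3 := pd1)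
    rfl (fun _ => rfl) k0_pp_112_b

noncomputable def f_pp_113 : ℕ → ℕ → ℕ → ℕ → Bool := onCell 536870912 536870912 536870912 536870912 536870912 50465866
    (rowB 3 eng mog cd2q1 cd1q3 pd1 1 false true true .nn 1 1 3 (qsf 536870912 536870912 1610612736 536870912 1) ndB2q1 ndB1q3 pcB1 Cut.none Ext.none)

def k0_pp_113 : ∃ t, chk3 f_pp_113 t 1 1 1 = true :=
  ⟨(b (a (b (l 1) (a (l 1) (b (l 1) (l 17013656)))) (b (b (a (l 1) (a (l 270079402807) (b (a (l 16551520) (l 3)) (l 132774481111)))) (a (a (l 1) (l 16827056)) (b (a (l 16761416) (l 146196567095)) (a (l 16852800) (l 16802376))))) (a (b (l 17058488) (l 17209440)) (b (a (l 16969784) (a (l 16924424) (l 16894816))) (b (l 16816104) (l 17041432)))))) (a (b (a (l 176664072599) (l 17169256)) (a (l 16863952) (l 17165336))) (b (a (l 17281904) (l 17055752)) (a (l 17121688) (l 16978296))))), by decide +kernel⟩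

theorem c_pp_113 : CertB 536870912 536870912 1610612736 536870912 536870912 50465866 3 eng mog cd2q1 cd1q3 pd1 false true true .nn 1 1 3
    ndB2q1 ndB1q3 pcB1 Cut.none Ext.none :=
  certB1 (fam := false) (s1 := true) (s2 := true) (a := 1) (b := 1) (c := 3) (cn := .nn) (n1 := ndB2q1) (n2 := ndB1q3) (pc := pcB1) (cut := Cut.none) (xt := Ext.none) (P1 := 536870912) (W1 := 536870912) (P2 := 1610612736) (W2 := 536870912) (P3 := 536870912) (W3 := 50465866) (N0 := 3) (En := eng) (mo := mog) (C1 := cd2q1) (C2 := cd1q3) (C3 := pd1)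
    rfl (fun _ => rfl) k0_pp_113

noncomputable def f_pp_123 : ℕ → ℕ → ℕ → ℕ → Bool := onCell 1073741824 536870912 1610612736 536870912 536870912 50465866
    (rowB 3 eng mog cd2q1 cd1q3 pd2 2 false true true .npn 1 2 3 (qsf 536870912 536870912 1610612736 536870912 2) ndB2q1 ndB1q3 pcB2 Cut.none Ext.none)

def k0_pp_123 : ∃ t, chk3 f_pp_123 t 1 1 1 = true :=
  ⟨(a (b (a (b (l 16613744) (l 17096064)) (b (l 313565930247) (l 16657368))) (a (b (l 16970864) (l 16841552)) (b (l 68216833031) (l 16769488)))) (a (b (b (l 1) (l 16553904)) (b (l 16724136) (l 16754808))) (b (l 1) (l 447784265383)))), by decide +kernel⟩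

theorem c_pp_123 : CertB 536870912 536870912 1610612736 536870912 536870912 50465866 3 eng mog cd2q1 cd1q3 pd2 false true true .npn 1 2 3
    ndB2q1 ndB1q3 pcB2 Cut.none Ext.none :=
  certB2 (fam := false) (s1 := true) (s2 := true) (a := 1) (b := 2) (c := 3) (cn := .npn) (n1 := ndB2q1) (n2 := ndB1q3) (pc := pcB2) (cut := Cut.none) (xt := Ext.none) (P1 := 536870912) (W1 := 536870912) (P2 := 1610612736) (W2 := 536870912) (P3 := 536870912) (W3 := 50465866) (N0 := 3) (En := eng) (mo := mog) (C1 := cd2q1) (C2 := cd1q3) (C3 := pd2)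
    rfl (fun _ => rfl) k0_pp_123

noncomputable def f_pp_133 : ℕ → ℕ → ℕ → ℕ → Bool := onCell 1610612736 536870912 1610612736 536870912 536870912 50465866
    (rowB 3 eng mog cd2q1 cd1q3 pd3 2 false true true .dn 1 3 3 (qsf 536870912 536870912 1610612736 536870912 3) ndB2q1 ndB1q3 pcB3 Cut.none Ext.none)

def k0_pp_133 : ∃ t, chk3 f_pp_133 t 1 1 1 = true :=
  ⟨(a (b (l 1) (a (a (l 446173647415) (l 1)) (l 1))) (l 1)), by decide +kernel⟩

theorem c_pp_133 : CertB 536870912 536870912 1610612736 536870912 536870912 50465866 3 eng mog cd2q1 cd1q3 pd3 false true true .dn 1 3 3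
    ndB2q1 ndB1q3 pcB3 Cut.none Ext.none :=
  certB2 (fam := false) (s1 := true) (s2 := true) (a := 1) (b := 3) (c := 3) (cn := .dn) (n1 := ndB2q1) (n2 := ndB1q3) (pc := pcB3) (cut := Cut.none) (xt := Ext.none) (P1 := 536870912) (W1 := 536870912) (P2 := 1610612736) (W2 := 536870912) (P3 := 536870912) (W3 := 50465866) (N0 := 3) (En := eng) (mo := mog) (C1 := cd2q1) (C2 := cd1q3) (C3 := pd3)
    rfl (fun _ => rfl) k0_pp_133

noncomputable def f_pp_202_aa : ℕ → ℕ → ℕ → ℕ → Bool := onCell 0 536870912 0 536870912 536870912 50465866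
    (rowB 3 eng mog cd2q2a cd1q2a pd0 0 false true true .pp 2 0 2 (qsf 0 536870912 0 536870912 0) ndB2q2a ndB1q2a pcB0 Cut.none Ext.none)

def k0_pp_202_aa : ∃ t, chk3 f_pp_202_aa t 1 1 1 = true :=
  ⟨(l 3), by decide +kernel⟩

theorem c_pp_202_aa : CertB 0 536870912 0 536870912 536870912 50465866 3 eng mog cd2q2a cd1q2a pd0 false true true .pp 2 0 2
    ndB2q2a ndB1q2a pcB0 Cut.none Ext.none :=
  certB0 (fam := false) (s1 := true) (s2 := true) (a := 2) (b := 0) (c := 2) (cn := .pp) (n1 := ndB2q2a) (n2 := ndB1q2a) (pc := pcB0) (cut := Cut.none) (xt := Ext.none) (P1 := 0) (W1 := 536870912) (P2 := 0) (W2 := 536870912) (P3 := 536870912) (W3 := 50465866) (N0 := 3) (En := eng) (mo := mog) (C1 := cd2q2a) (C2 := cd1q2a) (C3 := pd0)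
    rfl k0_pp_202_aa

noncomputable def f_pp_202_ab : ℕ → ℕ → ℕ → ℕ → Bool := onCell 0 536870912 1239849684 370763052 536870912 50465866
    (rowB 3 eng mog cd2q2a cd1q2b pd0 0 false true true .pp 2 0 2 (qsf 0 536870912 1239849684 370763052 0) ndB2q2a ndB1q2b pcB0 Cut.none Ext.none)

def k0_pp_202_ab : ∃ t, chk3 f_pp_202_ab t 1 1 1 = true :=
  ⟨(l 3), by decide +kernel⟩

theorem c_pp_202_ab : CertB 0 536870912 1239849684 370763052 536870912 50465866 3 eng mog cd2q2a cd1q2b pd0 false true true .pp 2 0 2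
    ndB2q2a ndB1q2b pcB0 Cut.none Ext.none :=
  certB0 (fam := false) (s1 := true) (s2 := true) (a := 2) (b := 0) (c := 2) (cn := .pp) (n1 := ndB2q2a) (n2 := ndB1q2b) (pc := pcB0) (cut := Cut.none) (xt := Ext.none) (P1 := 0) (W1 := 536870912) (P2 := 1239849684) (W2 := 370763052) (P3 := 536870912) (W3 := 50465866) (N0 := 3) (En := eng) (mo := mog) (C1 := cd2q2a) (C2 := cd1q2b) (C3 := pd0)
    rfl k0_pp_202_ab

noncomputable def f_pp_202_ba : ℕ → ℕ → ℕ → ℕ → Bool := onCell 1239849684 370763052 0 536870912 536870912 50465866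
    (rowB 3 eng mog cd2q2b cd1q2a pd0 0 false true true .pp 2 0 2 (qsf 1239849684 370763052 0 536870912 0) ndB2q2b ndB1q2a pcB0 Cut.none Ext.none)

def k0_pp_202_ba : ∃ t, chk3 f_pp_202_ba t 1 1 1 = true :=
  ⟨(l 3), by decide +kernel⟩

theorem c_pp_202_ba : CertB 1239849684 370763052 0 536870912 536870912 50465866 3 eng mog cd2q2b cd1q2a pd0 false true true .pp 2 0 2
    ndB2q2b ndB1q2a pcB0 Cut.none Ext.none :=
  certB0 (fam := false) (s1 := true) (s2 := true) (a := 2) (b := 0) (c := 2) (cn := .pp) (n1 := ndB2q2b) (n2 := ndB1q2a) (pc := pcB0) (cut := Cut.none) (xt := Ext.none) (P1 := 1239849684) (W1 := 370763052) (P2 := 0) (W2 := 536870912) (P3 := 536870912) (W3 := 50465866) (N0 := 3) (En := eng) (mo := mog) (C1 := cd2q2b) (C2 := cd1q2a) (C3 := pd0)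
    rfl k0_pp_202_ba

noncomputable def f_pp_202_bb : ℕ → ℕ → ℕ → ℕ → Bool := onCell 1239849684 370763052 1239849684 370763052 536870912 50465866
    (rowB 3 eng mog cd2q2b cd1q2b pd0 0 false true true .pp 2 0 2 (qsf 1239849684 370763052 1239849684 370763052 0) ndB2q2b ndB1q2b pcB0 Cut.none Ext.none)

def k0_pp_202_bb : ∃ t, chk3 f_pp_202_bb t 1 1 1 = true :=
  ⟨(l 3), by decide +kernel⟩

theorem c_pp_202_bb : CertB 1239849684 370763052 1239849684 370763052 536870912 50465866 3 eng mog cd2q2b cd1q2b pd0 false true true .pp 2 0 2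
    ndB2q2b ndB1q2b pcB0 Cut.none Ext.none :=
  certB0 (fam := false) (s1 := true) (s2 := true) (a := 2) (b := 0) (c := 2) (cn := .pp) (n1 := ndB2q2b) (n2 := ndB1q2b) (pc := pcB0) (cut := Cut.none) (xt := Ext.none) (P1 := 1239849684) (W1 := 370763052) (P2 := 1239849684) (W2 := 370763052) (P3 := 536870912) (W3 := 50465866) (N0 := 3) (En := eng) (mo := mog) (C1 := cd2q2b) (C2 := cd1q2b) (C3 := pd0)
    rfl k0_pp_202_bb

noncomputable def f_pp_203_a : ℕ → ℕ → ℕ → ℕ → Bool := onCell 0 536870912 0 536870912 536870912 50465866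
    (rowB 3 eng mog cd2q2a cd1q3 pd0 1 false true true .up 2 0 3 (qsf 0 536870912 1610612736 536870912 0) ndB2q2a ndB1q3 pcB0 Cut.none Ext.none)

def k0_pp_203_a : ∃ t, chk3 f_pp_203_a t 1 1 1 = true :=
  ⟨(l 3), by decide +kernel⟩

theorem c_pp_203_a : CertB 0 536870912 1610612736 536870912 536870912 50465866 3 eng mog cd2q2a cd1q3 pd0 false true true .up 2 0 3
    ndB2q2a ndB1q3 pcB0 Cut.none Ext.none :=
  certB1 (fam := false) (s1 := true) (s2 := true) (a := 2) (b := 0) (c := 3) (cn := .up) (n1 := ndB2q2a) (n2 := ndB1q3) (pc := pcB0) (cut := Cut.none) (xt := Ext.none) (P1 := 0) (W1 := 536870912) (P2 := 1610612736) (W2 := 536870912) (P3 := 536870912) (W3 := 50465866) (N0 := 3) (En := eng) (mo := mog) (C1 := cd2q2a) (C2 := cd1q3) (C3 := pd0)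
    rfl (fun _ => rfl) k0_pp_203_a

noncomputable def f_pp_203_b : ℕ → ℕ → ℕ → ℕ → Bool := onCell 1239849684 370763052 1610612736 536870912 536870912 50465866
    (rowB 3 eng mog cd2q2b cd1q3 pd0 0 false true true .up 2 0 3 (qsf 1239849684 370763052 1610612736 536870912 0) ndB2q2b ndB1q3 pcB0 Cut.none Ext.none)

def k0_pp_203_b : ∃ t, chk3 f_pp_203_b t 1 1 1 = true :=
  ⟨(l 3), by decide +kernel⟩

theorem c_pp_203_b : CertB 1239849684 370763052 1610612736 536870912 536870912 50465866 3 eng mog cd2q2b cd1q3 pd0 false true true .up 2 0 3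
    ndB2q2b ndB1q3 pcB0 Cut.none Ext.none :=
  certB0 (fam := false) (s1 := true) (s2 := true) (a := 2) (b := 0) (c := 3) (cn := .up) (n1 := ndB2q2b) (n2 := ndB1q3) (pc := pcB0) (cut := Cut.none) (xt := Ext.none) (P1 := 1239849684) (W1 := 370763052) (P2 := 1610612736) (W2 := 536870912) (P3 := 536870912) (W3 := 50465866) (N0 := 3) (En := eng) (mo := mog) (C1 := cd2q2b) (C2 := cd1q3) (C3 := pd0)
    rfl k0_pp_203_b

noncomputable def cut_pp_213_a : Cut := Cut.of [[⟨0, 1, 0, 67108864⟩, ⟨1, 1, 0, 67108864⟩, ⟨2, 2, 0, 16777216⟩]]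

noncomputable def f_pp_213_a : ℕ → ℕ → ℕ → ℕ → Bool := onCell 0 536870912 1610612736 536870912 536870912 50465866
    (rowB 3 eng mog cd2q2a cd1q3 pd1 0 false true true .pnn 2 1 3 (qsf 0 536870912 1610612736 536870912 1) ndB2q2a ndB1q3 pcB1 cut_pp_213_a Ext.none)

def k0_pp_213_a : ∃ t, chk3 f_pp_213_a t 1 1 1 = true :=
  ⟨(b (l 3) (a (l 3) (b (l 3) (a (l 3) (b (l 3) (a (l 3) (b (l 3) (b (l 3) (b (l 3) (l 6)))))))))), by decide +kernel⟩

theorem c_pp_213_a : CertB 0 536870912 1610612736 536870912 536870912 50465866 3 eng mog cd2q2a cd1q3 pd1 false true true .pnn 2 1 3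
    ndB2q2a ndB1q3 pcB1 cut_pp_213_a Ext.none :=
  certB0 (fam := false) (s1 := true) (s2 := true) (a := 2) (b := 1) (c := 3) (cn := .pnn) (n1 := ndB2q2a) (n2 := ndB1q3) (pc := pcB1) (cut := cut_pp_213_a) (xt := Ext.none) (P1 := 0) (W1 := 536870912) (P2 := 1610612736) (W2 := 536870912) (P3 := 536870912) (W3 := 50465866) (N0 := 3) (En := eng) (mo := mog) (C1 := cd2q2a) (C2 := cd1q3) (C3 := pd1)
    rfl k0_pp_213_a

noncomputable def cut_pp_213_b : Cut := Cut.of [[⟨0, 1, 0, 67108864⟩, ⟨1, 1, 0, 67108864⟩, ⟨2, 2, 0, 16777216⟩]]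

noncomputable def f_pp_213_b : ℕ → ℕ → ℕ → ℕ → Bool := onCell 1239849684 370763052 1610612736 536870912 536870912 50465866
    (rowB 3 eng mog cd2q2b cd1q3 pd1 0 false true true .pnn 2 1 3 (qsf 1239849684 370763052 1610612736 536870912 1) ndB2q2b ndB1q3 pcB1 cut_pp_213_b Ext.none)

def k0_pp_213_b : ∃ t, chk3 f_pp_213_b t 1 1 1 = true :=
  ⟨(l 3), by decide +kernel⟩

theorem c_pp_213_b : CertB 1239849684 370763052 1610612736 536870912 536870912 50465866 3 eng mog cd2q2b cd1q3 pd1 false true true .pnn 2 1 3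
    ndB2q2b ndB1q3 pcB1 cut_pp_213_b Ext.none :=
  certB0 (fam := false) (s1 := true) (s2 := true) (a := 2) (b := 1) (c := 3) (cn := .pnn) (n1 := ndB2q2b) (n2 := ndB1q3) (pc := pcB1) (cut := cut_pp_213_b) (xt := Ext.none) (P1 := 1239849684) (W1 := 370763052) (P2 := 1610612736) (W2 := 536870912) (P3 := 536870912) (W3 := 50465866) (N0 := 3) (En := eng) (mo := mog) (C1 := cd2q2b) (C2 := cd1q3) (C3 := pd1)
    rfl k0_pp_213_b

noncomputable def f_pp_303 : ℕ → ℕ → ℕ → ℕ → Bool := onCell 1610612736 536870912 1610612736 536870912 536870912 50465866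
    (rowB 3 eng mog cd2q3 cd1q3 pd0 0 false true true .npn 3 0 3 (qsf 1610612736 536870912 1610612736 536870912 0) ndB2q3 ndB1q3 pcB0 Cut.none Ext.none)

def k0_pp_303 : ∃ t, chk3 f_pp_303 t 1 1 1 = true :=
  ⟨(l 3), by decide +kernel⟩

theorem c_pp_303 : CertB 1610612736 536870912 1610612736 536870912 536870912 50465866 3 eng mog cd2q3 cd1q3 pd0 false true true .npn 3 0 3
    ndB2q3 ndB1q3 pcB0 Cut.none Ext.none :=
  certB0 (fam := false) (s1 := true) (s2 := true) (a := 3) (b := 0) (c := 3) (cn := .npn) (n1 := ndB2q3) (n2 := ndB1q3) (pc := pcB0) (cut := Cut.none) (xt := Ext.none) (P1 := 1610612736) (W1 := 536870912) (P2 := 1610612736) (W2 := 536870912) (P3 := 536870912) (W3 := 50465866) (N0 := 3) (En := eng) (mo := mog) (C1 := cd2q3) (C2 := cd1q3) (C3 := pd0)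
    rfl k0_pp_303

noncomputable def f_pp_313 : ℕ → ℕ → ℕ → ℕ → Bool := onCell 1610612736 536870912 1610612736 536870912 536870912 50465866
    (rowB 3 eng mog cd2q3 cd1q3 pd1 0 false true true .dn 3 1 3 (qsf 1610612736 536870912 1610612736 536870912 1) ndB2q3 ndB1q3 pcB1 Cut.none Ext.none)

def k0_pp_313 : ∃ t, chk3 f_pp_313 t 1 1 1 = true :=
  ⟨(l 3), by decide +kernel⟩

theorem c_pp_313 : CertB 1610612736 536870912 1610612736 536870912 536870912 50465866 3 eng mog cd2q3 cd1q3 pd1 false true true .dn 3 1 3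
    ndB2q3 ndB1q3 pcB1 Cut.none Ext.none :=
  certB0 (fam := false) (s1 := true) (s2 := true) (a := 3) (b := 1) (c := 3) (cn := .dn) (n1 := ndB2q3) (n2 := ndB1q3) (pc := pcB1) (cut := Cut.none) (xt := Ext.none) (P1 := 1610612736) (W1 := 536870912) (P2 := 1610612736) (W2 := 536870912) (P3 := 536870912) (W3 := 50465866) (N0 := 3) (En := eng) (mo := mog) (C1 := cd2q3) (C2 := cd1q3) (C3 := pd1)
    rfl k0_pp_313

noncomputable def f_pm_001 : ℕ → ℕ → ℕ → ℕ → Bool := onCell 0 536870912 536870912 536870912 536870912 50465866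
    (rowB 3 eng mog cd2q0 cd1q1 pd0 0 false true false .up 0 0 1 (qsf 0 536870912 536870912 536870912 0) ndB2q0 ndB1q1 pcB0 Cut.none Ext.none)

def k0_pm_001 : ∃ t, chk3 f_pm_001 t 1 1 1 = true :=
  ⟨(a (l 4) (l 4)), by decide +kernel⟩

theorem c_pm_001 : CertB 0 536870912 536870912 536870912 536870912 50465866 3 eng mog cd2q0 cd1q1 pd0 false true false .up 0 0 1
    ndB2q0 ndB1q1 pcB0 Cut.none Ext.none :=
  certB0 (fam := false) (s1 := true) (s2 := false) (a := 0) (b := 0) (c := 1) (cn := .up) (n1 := ndB2q0) (n2 := ndB1q1) (pc := pcB0) (cut := Cut.none) (xt := Ext.none) (P1 := 0) (W1 := 536870912) (P2 := 536870912) (W2 := 536870912) (P3 := 536870912) (W3 := 50465866) (N0 := 3) (En := eng) (mo := mog) (C1 := cd2q0) (C2 := cd1q1) (C3 := pd0)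
    rfl k0_pm_001

noncomputable def f_pm_011 : ℕ → ℕ → ℕ → ℕ → Bool := onCell 0 536870912 536870912 536870912 536870912 50465866
    (rowB 3 eng mog cd2q0 cd1q1 pd1 0 false true false .pnn 0 1 1 (qsf 0 536870912 536870912 536870912 1) ndB2q0 ndB1q1 pcB1 Cut.none Ext.none)

def k0_pm_011 : ∃ t, chk3 f_pm_011 t 1 1 1 = true :=
  ⟨(a (l 4) (l 4)), by decide +kernel⟩

theorem c_pm_011 : CertB 0 536870912 536870912 536870912 536870912 50465866 3 eng mog cd2q0 cd1q1 pd1 false true false .pnn 0 1 1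
    ndB2q0 ndB1q1 pcB1 Cut.none Ext.none :=
  certB0 (fam := false) (s1 := true) (s2 := false) (a := 0) (b := 1) (c := 1) (cn := .pnn) (n1 := ndB2q0) (n2 := ndB1q1) (pc := pcB1) (cut := Cut.none) (xt := Ext.none) (P1 := 0) (W1 := 536870912) (P2 := 536870912) (W2 := 536870912) (P3 := 536870912) (W3 := 50465866) (N0 := 3) (En := eng) (mo := mog) (C1 := cd2q0) (C2 := cd1q1) (C3 := pd1)
    rfl k0_pm_011

noncomputable def cut_pm_012_a : Cut := Cut.of [[⟨0, 0, 0, 67108864⟩, ⟨1, 1, 0, 67108864⟩, ⟨2, 1, 0, 67108864⟩]]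

noncomputable def f_pm_012_a : ℕ → ℕ → ℕ → ℕ → Bool := onCell 536870912 536870912 0 536870912 536870912 50465866
    (rowB 3 eng mog cd2q0 cd1q2a pd1 2 false true false .pnp 0 1 2 (qsf 0 536870912 0 536870912 1) ndB2q0 ndB1q2a pcB1 cut_pm_012_a Ext.none)

def k0_pm_012_a : ∃ t, chk3 f_pm_012_a t 2 1 1 = true :=
  ⟨(a (b (b (l 2) (a (l 2) (b (l 2) (l 16611944)))) (a (b (l 2) (b (a (l 2) (l 16461192)) (a (l 16419360) (l 16435544)))) (b (l 16608984) (b (l 16475800) (b (l 16460688) (l 16456832)))))) (b (a (b (a (l 16682392) (l 16665264)) (a (l 16614960) (l 16602864))) (b (l 16640224) (l 16580984))) (b (a (a (l 16546736) (l 16544624)) (l 16532784)) (a (b (a (l 16490160) (l 16498864)) (b (l 16488656) (l 16491448))) (b (l 16628448) (b (l 16509088) (l 16607264))))))), by decide +kernel⟩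

def k1_pm_012_a : ∃ t, chk3 f_pm_012_a t 3 1 1 = true :=
  ⟨(b (a (b (a (l 16599560) (l 16552304)) (a (l 16546936) (b (l 16517312) (l 16509552)))) (b (a (l 16512704) (a (l 16486440) (l 16470448))) (a (b (l 16489496) (l 16490656)) (a (b (l 16472208) (l 16479696)) (b (l 16462736) (l 16474776)))))) (a (b (a (b (l 16523096) (l 16508648)) (b (l 16506936) (l 16510152))) (a (b (b (l 16508248) (l 16518528)) (b (a (l 16529656) (l 16546624)) (l 16711592))) (a (b (l 16591824) (b (l 16564112) (a (l 16592640) (l 16603784)))) (b (l 16582200) (b (l 16581872) (b (l 16610080) (l 16631584))))))) (b (a (b (l 16499464) (a (l 16515608) (l 16521120))) (a (b (l 16497232) (l 16528712)) (b (l 16540312) (a (l 16535816) (l 16541240))))) (b (a (a (b (l 16539592) (l 16566496)) (b (l 16552184) (l 16583512))) (a (b (l 16567000) (l 16644720)) (a (b (l 16579472) (l 16618600)) (b (l 16588496) (a (l 16626984) (l 16632760)))))) (a (b (a (l 16622296) (a (l 16617472) (l 16628776)))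 (a (b (l 16633080) (l 16656928)) (b (a (l 16651552) (l 16727424)) (a (l 16677048) (l 16732880))))) (b (a (a (l 16703456) (b (l 16640624) (l 16665120))) (a (b (l 16652936) (l 6)) (l 6))) (a (a (b (b (l 16671200) (l 16684504)) (b (l 16698360) (l 16712776))) (a (b (l 16751144) (l 6)) (l 6))) (l 6)))))))), by decide +kernel⟩

theorem s2_pm_012_a : ∃ t, chk3 f_pm_012_a t 1 1 1 = true := ex3_a k0_pm_012_a k1_pm_012_a

theorem c_pm_012_a : CertB 0 536870912 0 536870912 536870912 50465866 3 eng mog cd2q0 cd1q2a pd1 false true false .pnp 0 1 2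
    ndB2q0 ndB1q2a pcB1 cut_pm_012_a Ext.none :=
  certB2 (fam := false) (s1 := true) (s2 := false) (a := 0) (b := 1) (c := 2) (cn := .pnp) (n1 := ndB2q0) (n2 := ndB1q2a) (pc := pcB1) (cut := cut_pm_012_a) (xt := Ext.none) (P1 := 0) (W1 := 536870912) (P2 := 0) (W2 := 536870912) (P3 := 536870912) (W3 := 50465866) (N0 := 3) (En := eng) (mo := mog) (C1 := cd2q0) (C2 := cd1q2a) (C3 := pd1)
    rfl (fun _ => rfl) s2_pm_012_a

noncomputable def cut_pm_012_b : Cut := Cut.of [[⟨0, 0, 0, 67108864⟩, ⟨1, 1, 0, 67108864⟩, ⟨2, 1, 0, 67108864⟩]]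

noncomputable def f_pm_012_b : ℕ → ℕ → ℕ → ℕ → Bool := onCell 536870912 536870912 1239849684 370763052 536870912 50465866
    (rowB 3 eng mog cd2q0 cd1q2b pd1 2 false true false .pnp 0 1 2 (qsf 0 536870912 1239849684 370763052 1) ndB2q0 ndB1q2b pcB1 cut_pm_012_b Ext.none)

def k0_pm_012_b : ∃ t, chk3 f_pm_012_b t 1 1 1 = true :=
  ⟨(a (a (l 2) (b (a (b (l 16822128) (l 2)) (b (l 16678576) (l 16722704))) (l 2))) (b (a (b (a (l 16630520) (l 16611600)) (a (l 16666952) (l 16592488))) (a (b (b (l 16516664) (l 16494064)) (l 16499616)) (b (a (l 16458168) (l 16430376)) (a (l 16421672) (l 16371208))))) (a (b (l 16716720) (l 2)) (b (a (l 16569904) (l 16441456)) (l 16642168))))), by decide +kernel⟩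

theorem c_pm_012_b : CertB 0 536870912 1239849684 370763052 536870912 50465866 3 eng mog cd2q0 cd1q2b pd1 false true false .pnp 0 1 2
    ndB2q0 ndB1q2b pcB1 cut_pm_012_b Ext.none :=
  certB2 (fam := false) (s1 := true) (s2 := false) (a := 0) (b := 1) (c := 2) (cn := .pnp) (n1 := ndB2q0) (n2 := ndB1q2b) (pc := pcB1) (cut := cut_pm_012_b) (xt := Ext.none) (P1 := 0) (W1 := 536870912) (P2 := 1239849684) (W2 := 370763052) (P3 := 536870912) (W3 := 50465866) (N0 := 3) (En := eng) (mo := mog) (C1 := cd2q0) (C2 := cd1q2b) (C3 := pd1)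
    rfl (fun _ => rfl) k0_pm_012_b

noncomputable def cut_pm_022_a : Cut := Cut.of [[⟨0, 0, 0, 67108864⟩, ⟨1, 1, 0, 67108864⟩, ⟨2, 1, 0, 67108864⟩]]

noncomputable def f_pm_022_a : ℕ → ℕ → ℕ → ℕ → Bool := onCell 0 536870912 0 536870912 536870912 50465866
    (rowB 3 eng mog cd2q0 cd1q2a pd2 0 false true false .pp 0 2 2 (qsf 0 536870912 0 536870912 2) ndB2q0 ndB1q2a pcB2 cut_pm_022_a Ext.none)

def k0_pm_022_a : ∃ t, chk3 f_pm_022_a t 1 1 1 = true :=
  ⟨(a (b (a (b (a (b (a (l 16458792) (l 16466744)) (a (a (l 16527384) (l 16466728)) (l 16469624))) (b (l 16471800) (b (l 16468504) (l 16468696)))) (a (b (a (l 16545176) (l 16482480)) (a (a (a (l 16553408) (l 16531520)) (l 16509544)) (b (l 16498400) (l 16511952)))) (b (a (l 16478088) (l 16469360)) (a (l 16495240) (l 16480496))))) (a (b (b (l 16466424) (l 16475560)) (b (l 16449112) (a (l 16461456) (l 1)))) (l 1))) (a (b (a (a (b (a (b (l 16569568) (a (l 16581960) (l 16557784))) (b (l 16534680) (l 16553832)))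 (a (a (b (b (l 16579400) (l 16592528)) (a (b (l 16607616) (l 16621952)) (l 16612048))) (b (l 16581008) (l 16607688))) (b (l 16575656) (l 16600376)))) (b (b (l 16526920) (l 16543432)) (b (a (l 16567144) (l 16557144)) (a (l 16589744) (l 16577560))))) (b (a (b (l 16511912) (l 16524680)) (b (l 16491960) (l 16500752))) (a (b (l 16539480) (a (l 16563872) (l 16548736))) (b (l 16511200) (l 1))))) (a (a (b (b (a (a (b (a (l 16636936) (l 16634016)) (b (l 16647104) (l 6))) (b (l 16629456) (l 16644888))) (l 16670096)) (l 6)) (l 6)) (a (b (b (l 16636160) (l 6)) (l 6)) (b (b (l 16600600) (b (l 16619480) (l 16632840))) (l 1)))) (b (a (b (a (l 16584448) (l 1)) (l 1)) (l 1)) (l 1)))) (b (l 1) (l 1)))) (l 1)), by decide +kernel⟩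

theorem c_pm_022_a : CertB 0 536870912 0 536870912 536870912 50465866 3 eng mog cd2q0 cd1q2a pd2 false true false .pp 0 2 2
    ndB2q0 ndB1q2a pcB2 cut_pm_022_a Ext.none :=
  certB0 (fam := false) (s1 := true) (s2 := false) (a := 0) (b := 2) (c := 2) (cn := .pp) (n1 := ndB2q0) (n2 := ndB1q2a) (pc := pcB2) (cut := cut_pm_022_a) (xt := Ext.none) (P1 := 0) (W1 := 536870912) (P2 := 0) (W2 := 536870912) (P3 := 536870912) (W3 := 50465866) (N0 := 3) (En := eng) (mo := mog) (C1 := cd2q0) (C2 := cd1q2a) (C3 := pd2)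
    rfl k0_pm_022_a

noncomputable def cut_pm_022_b : Cut := Cut.of [[⟨0, 0, 0, 67108864⟩, ⟨1, 1, 0, 67108864⟩, ⟨2, 1, 0, 67108864⟩]]

noncomputable def f_pm_022_b : ℕ → ℕ → ℕ → ℕ → Bool := onCell 0 536870912 1073741824 536870912 536870912 50465866
    (rowB 3 eng mog cd2q0 cd1q2b pd2 1 false true false .pp 0 2 2 (qsf 0 536870912 1239849684 370763052 2) ndB2q0 ndB1q2b pcB2 cut_pm_022_b Ext.none)

def k0_pm_022_b : ∃ t, chk3 f_pm_022_b t 1 1 1 = true :=
  ⟨(a (b (b (a (a (b (l 1) (b (l 320008166791) (l 178811246359))) (b (b (l 16610880) (l 16541216)) (l 16568656))) (a (b (l 16428624) (l 16346568)) (l 16392416))) (a (b (a (b (a (l 16517880) (l 16408160)) (a (l 16496640) (l 16350712))) (b (l 16348136) (l 16340744))) (a (a (l 16416544) (l 16243032)) (b (l 16239728) (l 16173352)))) (b (a (l 16331688) (l 16241304)) (l 16362832)))) (b (a (b (a (a (b (l 16252864) (l 16219752)) (l 16173520)) (l 16066416)) (a (l 16276536) (l 16030792))) (b (l 16076176) (l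 15957512))) (a (b (a (l 16108008) (l 16002904)) (a (l 16068008) (l 16122296))) (b (l 16195888) (l 2))))) (b (b (a (a (l 16301240) (l 16326912)) (l 16454288)) (a (b (l 16264184) (l 16231160)) (l 16516624))) (b (a (l 16335352) (l 2)) (l 2)))), by decide +kernel⟩

theorem c_pm_022_b : CertB 0 536870912 1239849684 370763052 536870912 50465866 3 eng mog cd2q0 cd1q2b pd2 false true false .pp 0 2 2
    ndB2q0 ndB1q2b pcB2 cut_pm_022_b Ext.none :=
  certB1 (fam := false) (s1 := true) (s2 := false) (a := 0) (b := 2) (c := 2) (cn := .pp) (n1 := ndB2q0) (n2 := ndB1q2b) (pc := pcB2) (cut := cut_pm_022_b) (xt := Ext.none) (P1 := 0) (W1 := 536870912) (P2 := 1239849684) (W2 := 370763052) (P3 := 536870912) (W3 := 50465866) (N0 := 3) (En := eng) (mo := mog) (C1 := cd2q0) (C2 := cd1q2b) (C3 := pd2)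
    rfl (fun _ => rfl) k0_pm_022_b

noncomputable def f_pm_023 : ℕ → ℕ → ℕ → ℕ → Bool := onCell 1073741824 536870912 1610612736 536870912 536870912 50465866
    (rowB 3 eng mog cd2q0 cd1q3 pd2 2 false true false .up 0 2 3 (qsf 0 536870912 1610612736 536870912 2) ndB2q0 ndB1q3 pcB2 Cut.none Ext.none)

def k0_pm_023 : ∃ t, chk3 f_pm_023 t 1 1 1 = true :=
  ⟨(a (b (a (b (l 16580200) (l 16757976)) (b (a (l 16381608) (l 16266736)) (l 16643304))) (a (l 2) (b (l 235787400647) (l 2)))) (a (b (b (a (l 16138656) (l 16069360)) (l 16498232)) (a (l 16726808) (l 16721192))) (b (b (a (l 16088160) (l 16137208)) (a (l 16467976) (l 16460712))) (a (l 16712544) (l 16702536))))), by decide +kernel⟩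

theorem c_pm_023 : CertB 0 536870912 1610612736 536870912 536870912 50465866 3 eng mog cd2q0 cd1q3 pd2 false true false .up 0 2 3
    ndB2q0 ndB1q3 pcB2 Cut.none Ext.none :=
  certB2 (fam := false) (s1 := true) (s2 := false) (a := 0) (b := 2) (c := 3) (cn := .up) (n1 := ndB2q0) (n2 := ndB1q3) (pc := pcB2) (cut := Cut.none) (xt := Ext.none) (P1 := 0) (W1 := 536870912) (P2 := 1610612736) (W2 := 536870912) (P3 := 536870912) (W3 := 50465866) (N0 := 3) (En := eng) (mo := mog) (C1 := cd2q0) (C2 := cd1q3) (C3 := pd2)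
    rfl (fun _ => rfl) k0_pm_023

noncomputable def f_pm_033 : ℕ → ℕ → ℕ → ℕ → Bool := onCell 0 536870912 1610612736 536870912 536870912 50465866
    (rowB 3 eng mog cd2q0 cd1q3 pd3 1 false true false .pnn 0 3 3 (qsf 0 536870912 1610612736 536870912 3) ndB2q0 ndB1q3 pcB3 Cut.none Ext.none)

def k0_pm_033 : ∃ t, chk3 f_pm_033 t 1 1 1 = true :=
  ⟨(a (b (b (b (a (l 16287448) (l 16524528)) (a (b (l 16425392) (l 16509952)) (l 4))) (l 4)) (b (l 4) (a (l 4) (a (b (l 4) (l 2)) (l 2))))) (b (b (b (l 16716168) (l 16743088)) (a (l 4) (a (b (l 4) (l 2)) (l 2)))) (a (b (a (b (l 4) (l 2)) (l 2)) (l 2)) (l 2)))), by decide +kernel⟩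

theorem c_pm_033 : CertB 0 536870912 1610612736 536870912 536870912 50465866 3 eng mog cd2q0 cd1q3 pd3 false true false .pnn 0 3 3
    ndB2q0 ndB1q3 pcB3 Cut.none Ext.none :=
  certB1 (fam := false) (s1 := true) (s2 := false) (a := 0) (b := 3) (c := 3) (cn := .pnn) (n1 := ndB2q0) (n2 := ndB1q3) (pc := pcB3) (cut := Cut.none) (xt := Ext.none) (P1 := 0) (W1 := 536870912) (P2 := 1610612736) (W2 := 536870912) (P3 := 536870912) (W3 := 50465866) (N0 := 3) (En := eng) (mo := mog) (C1 := cd2q0) (C2 := cd1q3) (C3 := pd3)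
    rfl (fun _ => rfl) k0_pm_033

noncomputable def f_pm_101 : ℕ → ℕ → ℕ → ℕ → Bool := onCell 0 536870912 536870912 536870912 536870912 50465866
    (rowB 3 eng mog cd2q1 cd1q1 pd0 2 false true false .npn 1 0 1 (qsf 536870912 536870912 536870912 536870912 0) ndB2q1 ndB1q1 pcB0 Cut.none Ext.none)

def k0_pm_101 : ∃ t, chk3 f_pm_101 t 1 1 1 = true :=
  ⟨(a (b (l 4) (a (b (l 4) (a (b (b (a (l 16665424) (l 16657648)) (l 16660072)) (b (a (b (l 16664568) (l 16665920)) (l 16646072)) (b (a (b (l 16665976) (l 16667960)) (l 16639664)) (a (l 16660328) (l 16627768))))) (b (b (l 16634464) (l 16784904)) (b (l 16600416) (l 16741576))))) (b (l 4) (b (a (a (l 16586960) (l 4)) (l 4)) (a (b (l 16664832) (l 16499864)) (b (l 16459048) (l 16478752))))))) (b (l 4) (b (l 4) (b (l 4) (a (a (a (b (l 16454264) (l 16468848)) (b (l 4) (l 16463600))) (b (l 4) (b (l 4) (l 16452616)))) (a (l 4) (l 4))))))), by decide +kernel⟩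

theorem c_pm_101 : CertB 536870912 536870912 536870912 536870912 536870912 50465866 3 eng mog cd2q1 cd1q1 pd0 false true false .npn 1 0 1
    ndB2q1 ndB1q1 pcB0 Cut.none Ext.none :=
  certB2 (fam := false) (s1 := true) (s2 := false) (a := 1) (b := 0) (c := 1) (cn := .npn) (n1 := ndB2q1) (n2 := ndB1q1) (pc := pcB0) (cut := Cut.none) (xt := Ext.none) (P1 := 536870912) (W1 := 536870912) (P2 := 536870912) (W2 := 536870912) (P3 := 536870912) (W3 := 50465866) (N0 := 3) (En := eng) (mo := mog) (C1 := cd2q1) (C2 := cd1q1) (C3 := pd0)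
    rfl (fun _ => rfl) k0_pm_101

noncomputable def f_pm_102_a : ℕ → ℕ → ℕ → ℕ → Bool := onCell 536870912 536870912 0 536870912 536870912 50465866
    (rowB 3 eng mog cd2q1 cd1q2a pd0 0 false true false .npp 1 0 2 (qsf 536870912 536870912 0 536870912 0) ndB2q1 ndB1q2a pcB0 Cut.none Ext.none)

def k0_pm_102_a : ∃ t, chk3 f_pm_102_a t 2 1 1 = true :=
  ⟨(b (a (b (l 2) (a (l 2) (b (l 2) (l 16681736)))) (b (a (l 16759912) (l 16749912)) (a (b (l 16745904) (l 16830016)) (b (l 16755832) (l 16808904))))) (a (b (a (l 2) (b (a (l 2) (l 16654736)) (a (l 16569184) (l 16616736)))) (b (a (a (l 2) (a (l 16524496) (l 16487848))) (b (a (l 16516864) (l 16542808)) (a (l 16484536) (l 16509968)))) (a (b (a (l 16433416) (l 16440104)) (a (l 16411728) (l 16414528))) (b (a (l 16455256) (l 16479288)) (a (l 16427536) (l 16448704)))))) (b (b (a (a (l 16680456) (l 16700832)) (l 16720872)) (a (a (l 16729240) (l 16774856)) (l 16672744))) (b (a (a (b (l 16572272) (l 16538672))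 (l 16581120)) (b (l 16620616) (l 16581048))) (a (a (l 16487240) (l 16506456)) (b (a (l 16533240) (l 16542584)) (a (l 16485960) (l 16495232)))))))), by decide +kernel⟩

def k1_pm_102_a : ∃ t, chk3 f_pm_102_a t 3 2 1 = true :=
  ⟨(a (b (a (b (l 16708160) (l 16733968)) (b (a (l 16669632) (l 16703584)) (a (l 16700600) (l 16672904)))) (a (b (l 16748784) (l 16753736)) (b (a (l 16724176) (l 16701560)) (a (l 16742832) (l 16727904))))) (b (a (b (a (l 16613592) (b (a (l 16583544) (b (l 16565600) (l 16573120))) (l 16591624))) (b (a (l 16637160) (l 16608424)) (l 16640776))) (b (a (b (a (b (l 16553512) (l 16559504)) (b (a (l 16543936) (l 16537608)) (l 16547024))) (a (l 16570344) (b (l 16553168) (l 16560104)))) (b (b (a (a (l 16531912) (l 16527368)) (l 3)) (a (a (l 16537376) (l 16531152)) (a (l 16525960) (l 16522080)))) (a (b (a (l 16543456) (l 16537608)) (a (l 16550080) (l 16543624))) (a (b (l 16531112) (l 16537120)) (b (l 16525304) (l 16531448)))))) (b (a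 (l 16579624) (l 16550528)) (a (l 16594912) (a (l 16572072) (l 16557832)))))) (a (b (a (l 16677744) (l 16650648)) (l 16697240)) (a (b (l 16620992) (b (l 16646152) (l 16665400))) (b (b (l 16580488) (l 16597056)) (b (l 16613496) (l 16632144))))))), by decide +kernel⟩

def k2_pm_102_a : ∃ t, chk3 f_pm_102_a t 3 3 1 = true :=
  ⟨(a (b (b (a (l 16744168) (a (l 16749984) (l 16745128))) (a (a (l 16699600) (l 16779992)) (l 16734272))) (b (a (b (l 16848200) (l 16618848)) (b (l 16700504) (l 16666536))) (a (b (l 16573984) (l 16524184)) (b (l 16623792) (a (l 16557384) (l 16582240)))))) (b (a (b (l 16726624) (b (l 16737872) (l 16736912))) (b (a (l 16692584) (l 16659512)) (a (b (l 16713920) (l 16723120)) (b (l 16683800) (l 16697288))))) (a (b (b (l 16727392) (a (l 16698760) (l 16715320))) (b (a (l 16663088) (l 16688456)) (a (l 16610104) (l 16641288)))) (b (a (l 16725840) (b (l 16707168) (l 16712520))) (b (a (l 16708624) (a (l 16714032) (l 16707960))) (a (b (l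 16685608) (l 16659248)) (a (b (l 16703208) (l 16686464)) (b (l 16703568) (l 16701072))))))))), by decide +kernel⟩

theorem s3_pm_102_a : ∃ t, chk3 f_pm_102_a t 3 1 1 = true := ex3_b k1_pm_102_a k2_pm_102_a

theorem s4_pm_102_a : ∃ t, chk3 f_pm_102_a t 1 1 1 = true := ex3_a k0_pm_102_a s3_pm_102_a

theorem c_pm_102_a : CertB 536870912 536870912 0 536870912 536870912 50465866 3 eng mog cd2q1 cd1q2a pd0 false true false .npp 1 0 2
    ndB2q1 ndB1q2a pcB0 Cut.none Ext.none :=
  certB0 (fam := false) (s1 := true) (s2 := false) (a := 1) (b := 0) (c := 2) (cn := .npp) (n1 := ndB2q1) (n2 := ndB1q2a) (pc := pcB0) (cut := Cut.none) (xt := Ext.none) (P1 := 536870912) (W1 := 536870912) (P2 := 0) (W2 := 536870912) (P3 := 536870912) (W3 := 50465866) (N0 := 3) (En := eng) (mo := mog) (C1 := cd2q1) (C2 := cd1q2a) (C3 := pd0)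
    rfl s4_pm_102_a

noncomputable def f_pm_102_b : ℕ → ℕ → ℕ → ℕ → Bool := onCell 536870912 536870912 0 536870912 536870912 50465866
    (rowB 3 eng mog cd2q1 cd1q2b pd0 1 false true false .npp 1 0 2 (qsf 536870912 536870912 1239849684 370763052 0) ndB2q1 ndB1q2b pcB0 Cut.none Ext.none)

def k0_pm_102_b : ∃ t, chk3 f_pm_102_b t 1 1 1 = true :=
  ⟨(a (b (l 1) (b (l 1) (a (l 1) (a (b (l 1) (l 16753984)) (b (l 16735064) (l 16731144)))))) (b (b (l 1) (a (l 1) (b (a (l 1) (a (a (l 1) (a (l 1) (b (l 1) (l 16618848)))) (l 3))) (a (a (l 16669088) (b (l 16609456) (l 16566872))) (a (b (a (l 16556576) (b (l 16535888) (l 16519424))) (a (l 16525040) (l 16497072))) (a (b (a (l 16547920) (l 3)) (l 156396700007)) (l 3))))))) (b (a (b (a (l 1) (b (l 16669216) (l 16645608))) (a (l 16786352) (l 16624536))) (b (a (a (l 16583344) (b (l 16540752) (l 16520096))) (a (b (l 16486184) (l 16466544)) (b (a (l 16445480) (l 198809366631)) (a (l 16425560) (l 150490968375)))))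 (a (l 16528728) (a (b (l 16452624) (l 16446600)) (b (l 16417464) (l 16387768)))))) (a (b (a (l 16687576) (l 16618424)) (l 16669208)) (b (a (l 16531208) (a (l 16453120) (l 16395816))) (a (l 16563648) (a (l 16492576) (l 16444416)))))))), by decide +kernel⟩

theorem c_pm_102_b : CertB 536870912 536870912 1239849684 370763052 536870912 50465866 3 eng mog cd2q1 cd1q2b pd0 false true false .npp 1 0 2
    ndB2q1 ndB1q2b pcB0 Cut.none Ext.none :=
  certB1 (fam := false) (s1 := true) (s2 := false) (a := 1) (b := 0) (c := 2) (cn := .npp) (n1 := ndB2q1) (n2 := ndB1q2b) (pc := pcB0) (cut := Cut.none) (xt := Ext.none) (P1 := 536870912) (W1 := 536870912) (P2 := 1239849684) (W2 := 370763052) (P3 := 536870912) (W3 := 50465866) (N0 := 3) (En := eng) (mo := mog) (C1 := cd2q1) (C2 := cd1q2b) (C3 := pd0)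
    rfl (fun _ => rfl) k0_pm_102_b

noncomputable def f_pm_112_a : ℕ → ℕ → ℕ → ℕ → Bool := onCell 536870912 536870912 0 536870912 536870912 50465866
    (rowB 3 eng mog cd2q1 cd1q2a pd1 2 false true false .dn 1 1 2 (qsf 536870912 536870912 0 536870912 1) ndB2q1 ndB1q2a pcB1 Cut.none Ext.none)

def k0_pm_112_a : ∃ t, chk3 f_pm_112_a t 1 1 1 = true :=
  ⟨(a (a (b (b (a (l 16757184) (l 16723936)) (a (b (l 16722936) (l 16682904)) (l 16734032))) (a (b (a (l 16601560) (l 16577640)) (b (a (l 16486376) (l 16475424)) (a (l 16432800) (l 16439832)))) (b (l 16597216) (b (l 16478920) (l 1))))) (b (a (b (l 178275002215) (a (l 16619808) (l 1))) (l 1)) (b (l 1) (l 1)))) (l 1)), by decide +kernel⟩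

theorem c_pm_112_a : CertB 536870912 536870912 0 536870912 536870912 50465866 3 eng mog cd2q1 cd1q2a pd1 false true false .dn 1 1 2
    ndB2q1 ndB1q2a pcB1 Cut.none Ext.none :=
  certB2 (fam := false) (s1 := true) (s2 := false) (a := 1) (b := 1) (c := 2) (cn := .dn) (n1 := ndB2q1) (n2 := ndB1q2a) (pc := pcB1) (cut := Cut.none) (xt := Ext.none) (P1 := 536870912) (W1 := 536870912) (P2 := 0) (W2 := 536870912) (P3 := 536870912) (W3 := 50465866) (N0 := 3) (En := eng) (mo := mog) (C1 := cd2q1) (C2 := cd1q2a) (C3 := pd1)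
    rfl (fun _ => rfl) k0_pm_112_a

noncomputable def f_pm_112_b : ℕ → ℕ → ℕ → ℕ → Bool := onCell 536870912 536870912 1239849684 370763052 536870912 50465866
    (rowB 3 eng mog cd2q1 cd1q2b pd1 2 false true false .dn 1 1 2 (qsf 536870912 536870912 1239849684 370763052 1) ndB2q1 ndB1q2b pcB1 Cut.none Ext.none)

def k0_pm_112_b : ∃ t, chk3 f_pm_112_b t 1 1 1 = true :=
  ⟨(a (a (b (b (a (b (l 16762056) (l 16759872)) (l 16767608)) (a (l 16753736) (l 16813992))) (a (b (l 16731040) (a (b (l 16642416) (l 16582312)) (l 16731536))) (b (l 16868616) (l 16916352)))) (b (a (b (l 132640994391) (l 16817480)) (b (l 16681352) (l 16759928))) (a (b (l 16952576) (l 17122464)) (b (l 16937304) (l 17189104))))) (b (a (b (l 1) (l 209413431911)) (l 1)) (a (b (l 16778696) (a (l 17153896) (l 17013840))) (b (l 254510354695) (l 16685832))))), by decide +kernel⟩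

theorem c_pm_112_b : CertB 536870912 536870912 1239849684 370763052 536870912 50465866 3 eng mog cd2q1 cd1q2b pd1 false true false .dn 1 1 2
    ndB2q1 ndB1q2b pcB1 Cut.none Ext.none :=
  certB2 (fam := false) (s1 := true) (s2 := false) (a := 1) (b := 1) (c := 2) (cn := .dn) (n1 := ndB2q1) (n2 := ndB1q2b) (pc := pcB1) (cut := Cut.none) (xt := Ext.none) (P1 := 536870912) (W1 := 536870912) (P2 := 1239849684) (W2 := 370763052) (P3 := 536870912) (W3 := 50465866) (N0 := 3) (En := eng) (mo := mog) (C1 := cd2q1) (C2 := cd1q2b) (C3 := pd1)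
    rfl (fun _ => rfl) k0_pm_112_b

noncomputable def f_pm_113 : ℕ → ℕ → ℕ → ℕ → Bool := onCell 536870912 536870912 536870912 536870912 536870912 50465866
    (rowB 3 eng mog cd2q1 cd1q3 pd1 1 false true false .nn 1 1 3 (qsf 536870912 536870912 1610612736 536870912 1) ndB2q1 ndB1q3 pcB1 Cut.none Ext.none)

def k0_pm_113 : ∃ t, chk3 f_pm_113 t 1 1 1 = true :=
  ⟨(b (a (b (l 1) (a (l 1) (b (l 1) (l 17035544)))) (b (a (l 222298074119) (b (a (l 16694928) (b (l 16585568) (l 16682056))) (l 16879416))) (a (b (l 17152816) (l 17363960)) (b (l 17044424) (l 17109160))))) (a (a (b (l 16793968) (l 16851600)) (b (l 17277392) (l 17156752))) (b (a (l 17317000) (l 17099544)) (a (l 17114360) (l 16981192))))), by decide +kernel⟩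

theorem c_pm_113 : CertB 536870912 536870912 1610612736 536870912 536870912 50465866 3 eng mog cd2q1 cd1q3 pd1 false true false .nn 1 1 3
    ndB2q1 ndB1q3 pcB1 Cut.none Ext.none :=
  certB1 (fam := false) (s1 := true) (s2 := false) (a := 1) (b := 1) (c := 3) (cn := .nn) (n1 := ndB2q1) (n2 := ndB1q3) (pc := pcB1) (cut := Cut.none) (xt := Ext.none) (P1 := 536870912) (W1 := 536870912) (P2 := 1610612736) (W2 := 536870912) (P3 := 536870912) (W3 := 50465866) (N0 := 3) (En := eng) (mo := mog) (C1 := cd2q1) (C2 := cd1q3) (C3 := pd1)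
    rfl (fun _ => rfl) k0_pm_113

noncomputable def f_pm_123 : ℕ → ℕ → ℕ → ℕ → Bool := onCell 1073741824 536870912 1610612736 536870912 536870912 50465866
    (rowB 3 eng mog cd2q1 cd1q3 pd2 2 false true false .npn 1 2 3 (qsf 536870912 536870912 1610612736 536870912 2) ndB2q1 ndB1q3 pcB2 Cut.none Ext.none)

def k0_pm_123 : ∃ t, chk3 f_pm_123 t 1 1 1 = true :=
  ⟨(a (b (a (b (l 320008394007) (b (l 16883472) (l 16973568))) (b (l 341483213495) (a (l 16709816) (l 16614912)))) (a (b (l 16970688) (l 16840856)) (b (l 16810768) (l 16936384)))) (a (b (b (l 1) (l 16548656)) (b (l 16724408) (l 16755280))) (b (l 1) (l 456911110839)))), by decide +kernel⟩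

theorem c_pm_123 : CertB 536870912 536870912 1610612736 536870912 536870912 50465866 3 eng mog cd2q1 cd1q3 pd2 false true false .npn 1 2 3
    ndB2q1 ndB1q3 pcB2 Cut.none Ext.none :=
  certB2 (fam := false) (s1 := true) (s2 := false) (a := 1) (b := 2) (c := 3) (cn := .npn) (n1 := ndB2q1) (n2 := ndB1q3) (pc := pcB2) (cut := Cut.none) (xt := Ext.none) (P1 := 536870912) (W1 := 536870912) (P2 := 1610612736) (W2 := 536870912) (P3 := 536870912) (W3 := 50465866) (N0 := 3) (En := eng) (mo := mog) (C1 := cd2q1) (C2 := cd1q3) (C3 := pd2)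
    rfl (fun _ => rfl) k0_pm_123

noncomputable def f_pm_133 : ℕ → ℕ → ℕ → ℕ → Bool := onCell 1610612736 536870912 1610612736 536870912 536870912 50465866
    (rowB 3 eng mog cd2q1 cd1q3 pd3 2 false true false .dn 1 3 3 (qsf 536870912 536870912 1610612736 536870912 3) ndB2q1 ndB1q3 pcB3 Cut.none Ext.none)

def k0_pm_133 : ∃ t, chk3 f_pm_133 t 1 1 1 = true :=
  ⟨(a (b (l 1) (a (a (l 487512703431) (l 1)) (l 1))) (l 1)), by decide +kernel⟩

theorem c_pm_133 : CertB 536870912 536870912 1610612736 536870912 536870912 50465866 3 eng mog cd2q1 cd1q3 pd3 false true false .dn 1 3 3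
    ndB2q1 ndB1q3 pcB3 Cut.none Ext.none :=
  certB2 (fam := false) (s1 := true) (s2 := false) (a := 1) (b := 3) (c := 3) (cn := .dn) (n1 := ndB2q1) (n2 := ndB1q3) (pc := pcB3) (cut := Cut.none) (xt := Ext.none) (P1 := 536870912) (W1 := 536870912) (P2 := 1610612736) (W2 := 536870912) (P3 := 536870912) (W3 := 50465866) (N0 := 3) (En := eng) (mo := mog) (C1 := cd2q1) (C2 := cd1q3) (C3 := pd3)
    rfl (fun _ => rfl) k0_pm_133

noncomputable def cut_pm_202_aa : Cut := Cut.of [[⟨0, 1, 0, 67108864⟩, ⟨1, 0, 0, 67108864⟩, ⟨2, 1, 0, 67108864⟩]]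

noncomputable def f_pm_202_aa : ℕ → ℕ → ℕ → ℕ → Bool := onCell 0 536870912 0 536870912 536870912 50465866
    (rowB 3 eng mog cd2q2a cd1q2a pd0 0 false true false .pp 2 0 2 (qsf 0 536870912 0 536870912 0) ndB2q2a ndB1q2a pcB0 cut_pm_202_aa Ext.none)

def k0_pm_202_aa : ∃ t, chk3 f_pm_202_aa t 1 1 1 = true :=
  ⟨(a (l 3) (b (l 3) (a (l 3) (b (l 3) (b (l 3) (a (l 3) (l 6))))))), by decide +kernel⟩

theorem c_pm_202_aa : CertB 0 536870912 0 536870912 536870912 50465866 3 eng mog cd2q2a cd1q2a pd0 false true false .pp 2 0 2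
    ndB2q2a ndB1q2a pcB0 cut_pm_202_aa Ext.none :=
  certB0 (fam := false) (s1 := true) (s2 := false) (a := 2) (b := 0) (c := 2) (cn := .pp) (n1 := ndB2q2a) (n2 := ndB1q2a) (pc := pcB0) (cut := cut_pm_202_aa) (xt := Ext.none) (P1 := 0) (W1 := 536870912) (P2 := 0) (W2 := 536870912) (P3 := 536870912) (W3 := 50465866) (N0 := 3) (En := eng) (mo := mog) (C1 := cd2q2a) (C2 := cd1q2a) (C3 := pd0)
    rfl k0_pm_202_aa

noncomputable def cut_pm_202_ab : Cut := Cut.of [[⟨0, 1, 0, 67108864⟩, ⟨1, 0, 0, 67108864⟩, ⟨2, 1, 0, 67108864⟩]]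

noncomputable def f_pm_202_ab : ℕ → ℕ → ℕ → ℕ → Bool := onCell 0 536870912 1239849684 370763052 536870912 50465866
    (rowB 3 eng mog cd2q2a cd1q2b pd0 0 false true false .pp 2 0 2 (qsf 0 536870912 1239849684 370763052 0) ndB2q2a ndB1q2b pcB0 cut_pm_202_ab Ext.none)

def k0_pm_202_ab : ∃ t, chk3 f_pm_202_ab t 1 1 1 = true :=
  ⟨(l 3), by decide +kernel⟩

theorem c_pm_202_ab : CertB 0 536870912 1239849684 370763052 536870912 50465866 3 eng mog cd2q2a cd1q2b pd0 false true false .pp 2 0 2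
    ndB2q2a ndB1q2b pcB0 cut_pm_202_ab Ext.none :=
  certB0 (fam := false) (s1 := true) (s2 := false) (a := 2) (b := 0) (c := 2) (cn := .pp) (n1 := ndB2q2a) (n2 := ndB1q2b) (pc := pcB0) (cut := cut_pm_202_ab) (xt := Ext.none) (P1 := 0) (W1 := 536870912) (P2 := 1239849684) (W2 := 370763052) (P3 := 536870912) (W3 := 50465866) (N0 := 3) (En := eng) (mo := mog) (C1 := cd2q2a) (C2 := cd1q2b) (C3 := pd0)
    rfl k0_pm_202_ab

noncomputable def cut_pm_202_ba : Cut := Cut.of [[⟨0, 1, 0, 67108864⟩, ⟨1, 0, 0, 67108864⟩, ⟨2, 1, 0, 67108864⟩]]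

noncomputable def f_pm_202_ba : ℕ → ℕ → ℕ → ℕ → Bool := onCell 1239849684 370763052 0 536870912 536870912 50465866
    (rowB 3 eng mog cd2q2b cd1q2a pd0 0 false true false .pp 2 0 2 (qsf 1239849684 370763052 0 536870912 0) ndB2q2b ndB1q2a pcB0 cut_pm_202_ba Ext.none)

def k0_pm_202_ba : ∃ t, chk3 f_pm_202_ba t 1 1 1 = true :=
  ⟨(l 3), by decide +kernel⟩

theorem c_pm_202_ba : CertB 1239849684 370763052 0 536870912 536870912 50465866 3 eng mog cd2q2b cd1q2a pd0 false true false .pp 2 0 2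
    ndB2q2b ndB1q2a pcB0 cut_pm_202_ba Ext.none :=
  certB0 (fam := false) (s1 := true) (s2 := false) (a := 2) (b := 0) (c := 2) (cn := .pp) (n1 := ndB2q2b) (n2 := ndB1q2a) (pc := pcB0) (cut := cut_pm_202_ba) (xt := Ext.none) (P1 := 1239849684) (W1 := 370763052) (P2 := 0) (W2 := 536870912) (P3 := 536870912) (W3 := 50465866) (N0 := 3) (En := eng) (mo := mog) (C1 := cd2q2b) (C2 := cd1q2a) (C3 := pd0)
    rfl k0_pm_202_ba

noncomputable def cut_pm_202_bb : Cut := Cut.of [[⟨0, 1, 0, 67108864⟩, ⟨1, 0, 0, 67108864⟩, ⟨2, 1, 0, 67108864⟩]]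

noncomputable def f_pm_202_bb : ℕ → ℕ → ℕ → ℕ → Bool := onCell 1239849684 370763052 1239849684 370763052 536870912 50465866
    (rowB 3 eng mog cd2q2b cd1q2b pd0 0 false true false .pp 2 0 2 (qsf 1239849684 370763052 1239849684 370763052 0) ndB2q2b ndB1q2b pcB0 cut_pm_202_bb Ext.none)

def k0_pm_202_bb : ∃ t, chk3 f_pm_202_bb t 1 1 1 = true :=
  ⟨(l 3), by decide +kernel⟩

theorem c_pm_202_bb : CertB 1239849684 370763052 1239849684 370763052 536870912 50465866 3 eng mog cd2q2b cd1q2b pd0 false true false .pp 2 0 2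
    ndB2q2b ndB1q2b pcB0 cut_pm_202_bb Ext.none :=
  certB0 (fam := false) (s1 := true) (s2 := false) (a := 2) (b := 0) (c := 2) (cn := .pp) (n1 := ndB2q2b) (n2 := ndB1q2b) (pc := pcB0) (cut := cut_pm_202_bb) (xt := Ext.none) (P1 := 1239849684) (W1 := 370763052) (P2 := 1239849684) (W2 := 370763052) (P3 := 536870912) (W3 := 50465866) (N0 := 3) (En := eng) (mo := mog) (C1 := cd2q2b) (C2 := cd1q2b) (C3 := pd0)
    rfl k0_pm_202_bb

noncomputable def f_pm_203_a : ℕ → ℕ → ℕ → ℕ → Bool := onCell 0 536870912 0 536870912 536870912 50465866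
    (rowB 3 eng mog cd2q2a cd1q3 pd0 1 false true false .up 2 0 3 (qsf 0 536870912 1610612736 536870912 0) ndB2q2a ndB1q3 pcB0 Cut.none Ext.none)

def k0_pm_203_a : ∃ t, chk3 f_pm_203_a t 1 1 1 = true :=
  ⟨(l 3), by decide +kernel⟩

theorem c_pm_203_a : CertB 0 536870912 1610612736 536870912 536870912 50465866 3 eng mog cd2q2a cd1q3 pd0 false true false .up 2 0 3
    ndB2q2a ndB1q3 pcB0 Cut.none Ext.none :=
  certB1 (fam := false) (s1 := true) (s2 := false) (a := 2) (b := 0) (c := 3) (cn := .up) (n1 := ndB2q2a) (n2 := ndB1q3) (pc := pcB0) (cut := Cut.none) (xt := Ext.none) (P1 := 0) (W1 := 536870912) (P2 := 1610612736) (W2 := 536870912) (P3 := 536870912) (W3 := 50465866) (N0 := 3) (En := eng) (mo := mog) (C1 := cd2q2a) (C2 := cd1q3) (C3 := pd0)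
    rfl (fun _ => rfl) k0_pm_203_a

noncomputable def f_pm_203_b : ℕ → ℕ → ℕ → ℕ → Bool := onCell 1239849684 370763052 1610612736 536870912 536870912 50465866
    (rowB 3 eng mog cd2q2b cd1q3 pd0 0 false true false .up 2 0 3 (qsf 1239849684 370763052 1610612736 536870912 0) ndB2q2b ndB1q3 pcB0 Cut.none Ext.none)

def k0_pm_203_b : ∃ t, chk3 f_pm_203_b t 1 1 1 = true :=
  ⟨(l 3), by decide +kernel⟩

theorem c_pm_203_b : CertB 1239849684 370763052 1610612736 536870912 536870912 50465866 3 eng mog cd2q2b cd1q3 pd0 false true false .up 2 0 3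
    ndB2q2b ndB1q3 pcB0 Cut.none Ext.none :=
  certB0 (fam := false) (s1 := true) (s2 := false) (a := 2) (b := 0) (c := 3) (cn := .up) (n1 := ndB2q2b) (n2 := ndB1q3) (pc := pcB0) (cut := Cut.none) (xt := Ext.none) (P1 := 1239849684) (W1 := 370763052) (P2 := 1610612736) (W2 := 536870912) (P3 := 536870912) (W3 := 50465866) (N0 := 3) (En := eng) (mo := mog) (C1 := cd2q2b) (C2 := cd1q3) (C3 := pd0)
    rfl k0_pm_203_b

noncomputable def cut_pm_213_a : Cut := Cut.of [[⟨0, 1, 0, 67108864⟩, ⟨1, 1, 0, 67108864⟩, ⟨2, 2, 0, 16777216⟩]]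

noncomputable def f_pm_213_a : ℕ → ℕ → ℕ → ℕ → Bool := onCell 0 536870912 1610612736 536870912 536870912 50465866
    (rowB 3 eng mog cd2q2a cd1q3 pd1 0 false true false .pnn 2 1 3 (qsf 0 536870912 1610612736 536870912 1) ndB2q2a ndB1q3 pcB1 cut_pm_213_a Ext.none)

def k0_pm_213_a : ∃ t, chk3 f_pm_213_a t 1 1 1 = true :=
  ⟨(b (l 3) (a (l 3) (b (l 3) (a (l 3) (b (l 3) (a (l 3) (b (l 3) (b (l 3) (b (l 3) (l 6)))))))))), by decide +kernel⟩

theorem c_pm_213_a : CertB 0 536870912 1610612736 536870912 536870912 50465866 3 eng mog cd2q2a cd1q3 pd1 false true false .pnn 2 1 3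
    ndB2q2a ndB1q3 pcB1 cut_pm_213_a Ext.none :=
  certB0 (fam := false) (s1 := true) (s2 := false) (a := 2) (b := 1) (c := 3) (cn := .pnn) (n1 := ndB2q2a) (n2 := ndB1q3) (pc := pcB1) (cut := cut_pm_213_a) (xt := Ext.none) (P1 := 0) (W1 := 536870912) (P2 := 1610612736) (W2 := 536870912) (P3 := 536870912) (W3 := 50465866) (N0 := 3) (En := eng) (mo := mog) (C1 := cd2q2a) (C2 := cd1q3) (C3 := pd1)
    rfl k0_pm_213_a

noncomputable def cut_pm_213_b : Cut := Cut.of [[⟨0, 1, 0, 67108864⟩, ⟨1, 1, 0, 67108864⟩, ⟨2, 2, 0, 16777216⟩]]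

noncomputable def f_pm_213_b : ℕ → ℕ → ℕ → ℕ → Bool := onCell 1239849684 370763052 1610612736 536870912 536870912 50465866
    (rowB 3 eng mog cd2q2b cd1q3 pd1 0 false true false .pnn 2 1 3 (qsf 1239849684 370763052 1610612736 536870912 1) ndB2q2b ndB1q3 pcB1 cut_pm_213_b Ext.none)

def k0_pm_213_b : ∃ t, chk3 f_pm_213_b t 1 1 1 = true :=
  ⟨(l 3), by decide +kernel⟩

theorem c_pm_213_b : CertB 1239849684 370763052 1610612736 536870912 536870912 50465866 3 eng mog cd2q2b cd1q3 pd1 false true false .pnn 2 1 3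
    ndB2q2b ndB1q3 pcB1 cut_pm_213_b Ext.none :=
  certB0 (fam := false) (s1 := true) (s2 := false) (a := 2) (b := 1) (c := 3) (cn := .pnn) (n1 := ndB2q2b) (n2 := ndB1q3) (pc := pcB1) (cut := cut_pm_213_b) (xt := Ext.none) (P1 := 1239849684) (W1 := 370763052) (P2 := 1610612736) (W2 := 536870912) (P3 := 536870912) (W3 := 50465866) (N0 := 3) (En := eng) (mo := mog) (C1 := cd2q2b) (C2 := cd1q3) (C3 := pd1)
    rfl k0_pm_213_b

noncomputable def f_pm_303 : ℕ → ℕ → ℕ → ℕ → Bool := onCell 1610612736 536870912 1610612736 536870912 536870912 50465866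
    (rowB 3 eng mog cd2q3 cd1q3 pd0 0 false true false .npn 3 0 3 (qsf 1610612736 536870912 1610612736 536870912 0) ndB2q3 ndB1q3 pcB0 Cut.none Ext.none)

def k0_pm_303 : ∃ t, chk3 f_pm_303 t 1 1 1 = true :=
  ⟨(l 3), by decide +kernel⟩

theorem c_pm_303 : CertB 1610612736 536870912 1610612736 536870912 536870912 50465866 3 eng mog cd2q3 cd1q3 pd0 false true false .npn 3 0 3
    ndB2q3 ndB1q3 pcB0 Cut.none Ext.none :=
  certB0 (fam := false) (s1 := true) (s2 := false) (a := 3) (b := 0) (c := 3) (cn := .npn) (n1 := ndB2q3) (n2 := ndB1q3) (pc := pcB0) (cut := Cut.none) (xt := Ext.none) (P1 := 1610612736) (W1 := 536870912) (P2 := 1610612736) (W2 := 536870912) (P3 := 536870912) (W3 := 50465866) (N0 := 3) (En := eng) (mo := mog) (C1 := cd2q3) (C2 := cd1q3) (C3 := pd0)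
    rfl k0_pm_303

noncomputable def f_pm_313 : ℕ → ℕ → ℕ → ℕ → Bool := onCell 1610612736 536870912 1610612736 536870912 536870912 50465866
    (rowB 3 eng mog cd2q3 cd1q3 pd1 0 false true false .dn 3 1 3 (qsf 1610612736 536870912 1610612736 536870912 1) ndB2q3 ndB1q3 pcB1 Cut.none Ext.none)

def k0_pm_313 : ∃ t, chk3 f_pm_313 t 1 1 1 = true :=
  ⟨(l 3), by decide +kernel⟩

theorem c_pm_313 : CertB 1610612736 536870912 1610612736 536870912 536870912 50465866 3 eng mog cd2q3 cd1q3 pd1 false true false .dn 3 1 3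
    ndB2q3 ndB1q3 pcB1 Cut.none Ext.none :=
  certB0 (fam := false) (s1 := true) (s2 := false) (a := 3) (b := 1) (c := 3) (cn := .dn) (n1 := ndB2q3) (n2 := ndB1q3) (pc := pcB1) (cut := Cut.none) (xt := Ext.none) (P1 := 1610612736) (W1 := 536870912) (P2 := 1610612736) (W2 := 536870912) (P3 := 536870912) (W3 := 50465866) (N0 := 3) (En := eng) (mo := mog) (C1 := cd2q3) (C2 := cd1q3) (C3 := pd1)
    rfl k0_pm_313

noncomputable def f_mm_001 : ℕ → ℕ → ℕ → ℕ → Bool := onCell 0 536870912 536870912 536870912 536870912 50465866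
    (rowB 3 eng mog cd2q0 cd1q1 pd0 0 false false false .up 0 0 1 (qsf 0 536870912 536870912 536870912 0) ndB2q0 ndB1q1 pcB0 Cut.none Ext.none)

def k0_mm_001 : ∃ t, chk3 f_mm_001 t 1 1 1 = true :=
  ⟨(l 5), by decide +kernel⟩

theorem c_mm_001 : CertB 0 536870912 536870912 536870912 536870912 50465866 3 eng mog cd2q0 cd1q1 pd0 false false false .up 0 0 1
    ndB2q0 ndB1q1 pcB0 Cut.none Ext.none :=
  certB0 (fam := false) (s1 := false) (s2 := false) (a := 0) (b := 0) (c := 1) (cn := .up) (n1 := ndB2q0) (n2 := ndB1q1) (pc := pcB0) (cut := Cut.none) (xt := Ext.none) (P1 := 0) (W1 := 536870912) (P2 := 536870912) (W2 := 536870912) (P3 := 536870912) (W3 := 50465866) (N0 := 3) (En := eng) (mo := mog) (C1 := cd2q0) (C2 := cd1q1) (C3 := pd0)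
    rfl k0_mm_001

noncomputable def f_mm_011 : ℕ → ℕ → ℕ → ℕ → Bool := onCell 0 536870912 536870912 536870912 536870912 50465866
    (rowB 3 eng mog cd2q0 cd1q1 pd1 0 false false false .pnn 0 1 1 (qsf 0 536870912 536870912 536870912 1) ndB2q0 ndB1q1 pcB1 Cut.none Ext.none)

def k0_mm_011 : ∃ t, chk3 f_mm_011 t 1 1 1 = true :=
  ⟨(l 5), by decide +kernel⟩

theorem c_mm_011 : CertB 0 536870912 536870912 536870912 536870912 50465866 3 eng mog cd2q0 cd1q1 pd1 false false false .pnn 0 1 1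
    ndB2q0 ndB1q1 pcB1 Cut.none Ext.none :=
  certB0 (fam := false) (s1 := false) (s2 := false) (a := 0) (b := 1) (c := 1) (cn := .pnn) (n1 := ndB2q0) (n2 := ndB1q1) (pc := pcB1) (cut := Cut.none) (xt := Ext.none) (P1 := 0) (W1 := 536870912) (P2 := 536870912) (W2 := 536870912) (P3 := 536870912) (W3 := 50465866) (N0 := 3) (En := eng) (mo := mog) (C1 := cd2q0) (C2 := cd1q1) (C3 := pd1)
    rfl k0_mm_011

noncomputable def f_mm_012_a : ℕ → ℕ → ℕ → ℕ → Bool := onCell 0 536870912 0 536870912 536870912 50465866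
    (rowB 3 eng mog cd2q0 cd1q2a pd1 0 false false false .pnp 0 1 2 (qsf 0 536870912 0 536870912 1) ndB2q0 ndB1q2a pcB1 Cut.none Ext.none)

def k0_mm_012_a : ∃ t, chk3 f_mm_012_a t 1 1 1 = true :=
  ⟨(l 5), by decide +kernel⟩

theorem c_mm_012_a : CertB 0 536870912 0 536870912 536870912 50465866 3 eng mog cd2q0 cd1q2a pd1 false false false .pnp 0 1 2
    ndB2q0 ndB1q2a pcB1 Cut.none Ext.none :=
  certB0 (fam := false) (s1 := false) (s2 := false) (a := 0) (b := 1) (c := 2) (cn := .pnp) (n1 := ndB2q0) (n2 := ndB1q2a) (pc := pcB1) (cut := Cut.none) (xt := Ext.none) (P1 := 0) (W1 := 536870912) (P2 := 0) (W2 := 536870912) (P3 := 536870912) (W3 := 50465866) (N0 := 3) (En := eng) (mo := mog) (C1 := cd2q0) (C2 := cd1q2a) (C3 := pd1)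
    rfl k0_mm_012_a

noncomputable def f_mm_012_b : ℕ → ℕ → ℕ → ℕ → Bool := onCell 0 536870912 1239849684 370763052 536870912 50465866
    (rowB 3 eng mog cd2q0 cd1q2b pd1 0 false false false .pnp 0 1 2 (qsf 0 536870912 1239849684 370763052 1) ndB2q0 ndB1q2b pcB1 Cut.none Ext.none)

def k0_mm_012_b : ∃ t, chk3 f_mm_012_b t 1 1 1 = true :=
  ⟨(l 5), by decide +kernel⟩

theorem c_mm_012_b : CertB 0 536870912 1239849684 370763052 536870912 50465866 3 eng mog cd2q0 cd1q2b pd1 false false false .pnp 0 1 2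
    ndB2q0 ndB1q2b pcB1 Cut.none Ext.none :=
  certB0 (fam := false) (s1 := false) (s2 := false) (a := 0) (b := 1) (c := 2) (cn := .pnp) (n1 := ndB2q0) (n2 := ndB1q2b) (pc := pcB1) (cut := Cut.none) (xt := Ext.none) (P1 := 0) (W1 := 536870912) (P2 := 1239849684) (W2 := 370763052) (P3 := 536870912) (W3 := 50465866) (N0 := 3) (En := eng) (mo := mog) (C1 := cd2q0) (C2 := cd1q2b) (C3 := pd1)
    rfl k0_mm_012_b

noncomputable def f_mm_022_a : ℕ → ℕ → ℕ → ℕ → Bool := onCell 0 536870912 0 536870912 536870912 50465866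
    (rowB 3 eng mog cd2q0 cd1q2a pd2 0 false false false .pp 0 2 2 (qsf 0 536870912 0 536870912 2) ndB2q0 ndB1q2a pcB2 Cut.none Ext.none)

def k0_mm_022_a : ∃ t, chk3 f_mm_022_a t 1 1 1 = true :=
  ⟨(l 5), by decide +kernel⟩

theorem c_mm_022_a : CertB 0 536870912 0 536870912 536870912 50465866 3 eng mog cd2q0 cd1q2a pd2 false false false .pp 0 2 2
    ndB2q0 ndB1q2a pcB2 Cut.none Ext.none :=
  certB0 (fam := false) (s1 := false) (s2 := false) (a := 0) (b := 2) (c := 2) (cn := .pp) (n1 := ndB2q0) (n2 := ndB1q2a) (pc := pcB2) (cut := Cut.none) (xt := Ext.none) (P1 := 0) (W1 := 536870912) (P2 := 0) (W2 := 536870912) (P3 := 536870912) (W3 := 50465866) (N0 := 3) (En := eng) (mo := mog) (C1 := cd2q0) (C2 := cd1q2a) (C3 := pd2)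
    rfl k0_mm_022_a

noncomputable def f_mm_022_b : ℕ → ℕ → ℕ → ℕ → Bool := onCell 0 536870912 1239849684 370763052 536870912 50465866
    (rowB 3 eng mog cd2q0 cd1q2b pd2 0 false false false .pp 0 2 2 (qsf 0 536870912 1239849684 370763052 2) ndB2q0 ndB1q2b pcB2 Cut.none Ext.none)

def k0_mm_022_b : ∃ t, chk3 f_mm_022_b t 1 1 1 = true :=
  ⟨(l 5), by decide +kernel⟩

theorem c_mm_022_b : CertB 0 536870912 1239849684 370763052 536870912 50465866 3 eng mog cd2q0 cd1q2b pd2 false false false .pp 0 2 2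
    ndB2q0 ndB1q2b pcB2 Cut.none Ext.none :=
  certB0 (fam := false) (s1 := false) (s2 := false) (a := 0) (b := 2) (c := 2) (cn := .pp) (n1 := ndB2q0) (n2 := ndB1q2b) (pc := pcB2) (cut := Cut.none) (xt := Ext.none) (P1 := 0) (W1 := 536870912) (P2 := 1239849684) (W2 := 370763052) (P3 := 536870912) (W3 := 50465866) (N0 := 3) (En := eng) (mo := mog) (C1 := cd2q0) (C2 := cd1q2b) (C3 := pd2)
    rfl k0_mm_022_b

noncomputable def f_mm_023 : ℕ → ℕ → ℕ → ℕ → Bool := onCell 0 536870912 1610612736 536870912 536870912 50465866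
    (rowB 3 eng mog cd2q0 cd1q3 pd2 0 false false false .up 0 2 3 (qsf 0 536870912 1610612736 536870912 2) ndB2q0 ndB1q3 pcB2 Cut.none Ext.none)

def k0_mm_023 : ∃ t, chk3 f_mm_023 t 1 1 1 = true :=
  ⟨(l 5), by decide +kernel⟩

theorem c_mm_023 : CertB 0 536870912 1610612736 536870912 536870912 50465866 3 eng mog cd2q0 cd1q3 pd2 false false false .up 0 2 3
    ndB2q0 ndB1q3 pcB2 Cut.none Ext.none :=
  certB0 (fam := false) (s1 := false) (s2 := false) (a := 0) (b := 2) (c := 3) (cn := .up) (n1 := ndB2q0) (n2 := ndB1q3) (pc := pcB2) (cut := Cut.none) (xt := Ext.none) (P1 := 0) (W1 := 536870912) (P2 := 1610612736) (W2 := 536870912) (P3 := 536870912) (W3 := 50465866) (N0 := 3) (En := eng) (mo := mog) (C1 := cd2q0) (C2 := cd1q3) (C3 := pd2)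
    rfl k0_mm_023

noncomputable def f_mm_033 : ℕ → ℕ → ℕ → ℕ → Bool := onCell 0 536870912 1610612736 536870912 536870912 50465866
    (rowB 3 eng mog cd2q0 cd1q3 pd3 0 false false false .pnn 0 3 3 (qsf 0 536870912 1610612736 536870912 3) ndB2q0 ndB1q3 pcB3 Cut.none Ext.none)

def k0_mm_033 : ∃ t, chk3 f_mm_033 t 1 1 1 = true :=
  ⟨(l 5), by decide +kernel⟩

theorem c_mm_033 : CertB 0 536870912 1610612736 536870912 536870912 50465866 3 eng mog cd2q0 cd1q3 pd3 false false false .pnn 0 3 3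
    ndB2q0 ndB1q3 pcB3 Cut.none Ext.none :=
  certB0 (fam := false) (s1 := false) (s2 := false) (a := 0) (b := 3) (c := 3) (cn := .pnn) (n1 := ndB2q0) (n2 := ndB1q3) (pc := pcB3) (cut := Cut.none) (xt := Ext.none) (P1 := 0) (W1 := 536870912) (P2 := 1610612736) (W2 := 536870912) (P3 := 536870912) (W3 := 50465866) (N0 := 3) (En := eng) (mo := mog) (C1 := cd2q0) (C2 := cd1q3) (C3 := pd3)
    rfl k0_mm_033

noncomputable def f_mm_101 : ℕ → ℕ → ℕ → ℕ → Bool := onCell 536870912 536870912 536870912 536870912 536870912 50465866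
    (rowB 3 eng mog cd2q1 cd1q1 pd0 0 false false false .npn 1 0 1 (qsf 536870912 536870912 536870912 536870912 0) ndB2q1 ndB1q1 pcB0 Cut.none Ext.none)

def k0_mm_101 : ∃ t, chk3 f_mm_101 t 1 1 1 = true :=
  ⟨(l 3), by decide +kernel⟩

theorem c_mm_101 : CertB 536870912 536870912 536870912 536870912 536870912 50465866 3 eng mog cd2q1 cd1q1 pd0 false false false .npn 1 0 1
    ndB2q1 ndB1q1 pcB0 Cut.none Ext.none :=
  certB0 (fam := false) (s1 := false) (s2 := false) (a := 1) (b := 0) (c := 1) (cn := .npn) (n1 := ndB2q1) (n2 := ndB1q1) (pc := pcB0) (cut := Cut.none) (xt := Ext.none) (P1 := 536870912) (W1 := 536870912) (P2 := 536870912) (W2 := 536870912) (P3 := 536870912) (W3 := 50465866) (N0 := 3) (En := eng) (mo := mog) (C1 := cd2q1) (C2 := cd1q1) (C3 := pd0)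
    rfl k0_mm_101

noncomputable def f_mm_102_a : ℕ → ℕ → ℕ → ℕ → Bool := onCell 536870912 536870912 0 536870912 536870912 50465866
    (rowB 3 eng mog cd2q1 cd1q2a pd0 0 false false false .npp 1 0 2 (qsf 536870912 536870912 0 536870912 0) ndB2q1 ndB1q2a pcB0 Cut.none Ext.none)

def k0_mm_102_a : ∃ t, chk3 f_mm_102_a t 1 1 1 = true :=
  ⟨(l 5), by decide +kernel⟩

theorem c_mm_102_a : CertB 536870912 536870912 0 536870912 536870912 50465866 3 eng mog cd2q1 cd1q2a pd0 false false false .npp 1 0 2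
    ndB2q1 ndB1q2a pcB0 Cut.none Ext.none :=
  certB0 (fam := false) (s1 := false) (s2 := false) (a := 1) (b := 0) (c := 2) (cn := .npp) (n1 := ndB2q1) (n2 := ndB1q2a) (pc := pcB0) (cut := Cut.none) (xt := Ext.none) (P1 := 536870912) (W1 := 536870912) (P2 := 0) (W2 := 536870912) (P3 := 536870912) (W3 := 50465866) (N0 := 3) (En := eng) (mo := mog) (C1 := cd2q1) (C2 := cd1q2a) (C3 := pd0)
    rfl k0_mm_102_a

noncomputable def f_mm_102_b : ℕ → ℕ → ℕ → ℕ → Bool := onCell 536870912 536870912 1239849684 370763052 536870912 50465866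
    (rowB 3 eng mog cd2q1 cd1q2b pd0 0 false false false .npp 1 0 2 (qsf 536870912 536870912 1239849684 370763052 0) ndB2q1 ndB1q2b pcB0 Cut.none Ext.none)

def k0_mm_102_b : ∃ t, chk3 f_mm_102_b t 1 1 1 = true :=
  ⟨(l 5), by decide +kernel⟩

theorem c_mm_102_b : CertB 536870912 536870912 1239849684 370763052 536870912 50465866 3 eng mog cd2q1 cd1q2b pd0 false false false .npp 1 0 2
    ndB2q1 ndB1q2b pcB0 Cut.none Ext.none :=
  certB0 (fam := false) (s1 := false) (s2 := false) (a := 1) (b := 0) (c := 2) (cn := .npp) (n1 := ndB2q1) (n2 := ndB1q2b) (pc := pcB0) (cut := Cut.none) (xt := Ext.none) (P1 := 536870912) (W1 := 536870912) (P2 := 1239849684) (W2 := 370763052) (P3 := 536870912) (W3 := 50465866) (N0 := 3) (En := eng) (mo := mog) (C1 := cd2q1) (C2 := cd1q2b) (C3 := pd0)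
    rfl k0_mm_102_b

noncomputable def f_mm_112_a : ℕ → ℕ → ℕ → ℕ → Bool := onCell 536870912 536870912 0 536870912 536870912 50465866
    (rowB 3 eng mog cd2q1 cd1q2a pd1 0 false false false .dn 1 1 2 (qsf 536870912 536870912 0 536870912 1) ndB2q1 ndB1q2a pcB1 Cut.none Ext.none)

def k0_mm_112_a : ∃ t, chk3 f_mm_112_a t 1 1 1 = true :=
  ⟨(l 5), by decide +kernel⟩

theorem c_mm_112_a : CertB 536870912 536870912 0 536870912 536870912 50465866 3 eng mog cd2q1 cd1q2a pd1 false false false .dn 1 1 2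
    ndB2q1 ndB1q2a pcB1 Cut.none Ext.none :=
  certB0 (fam := false) (s1 := false) (s2 := false) (a := 1) (b := 1) (c := 2) (cn := .dn) (n1 := ndB2q1) (n2 := ndB1q2a) (pc := pcB1) (cut := Cut.none) (xt := Ext.none) (P1 := 536870912) (W1 := 536870912) (P2 := 0) (W2 := 536870912) (P3 := 536870912) (W3 := 50465866) (N0 := 3) (En := eng) (mo := mog) (C1 := cd2q1) (C2 := cd1q2a) (C3 := pd1)
    rfl k0_mm_112_a

noncomputable def f_mm_112_b : ℕ → ℕ → ℕ → ℕ → Bool := onCell 536870912 536870912 1239849684 370763052 536870912 50465866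
    (rowB 3 eng mog cd2q1 cd1q2b pd1 0 false false false .dn 1 1 2 (qsf 536870912 536870912 1239849684 370763052 1) ndB2q1 ndB1q2b pcB1 Cut.none Ext.none)

def k0_mm_112_b : ∃ t, chk3 f_mm_112_b t 1 1 1 = true :=
  ⟨(l 5), by decide +kernel⟩

theorem c_mm_112_b : CertB 536870912 536870912 1239849684 370763052 536870912 50465866 3 eng mog cd2q1 cd1q2b pd1 false false false .dn 1 1 2
    ndB2q1 ndB1q2b pcB1 Cut.none Ext.none :=
  certB0 (fam := false) (s1 := false) (s2 := false) (a := 1) (b := 1) (c := 2) (cn := .dn) (n1 := ndB2q1) (n2 := ndB1q2b) (pc := pcB1) (cut := Cut.none) (xt := Ext.none) (P1 := 536870912) (W1 := 536870912) (P2 := 1239849684) (W2 := 370763052) (P3 := 536870912) (W3 := 50465866) (N0 := 3) (En := eng) (mo := mog) (C1 := cd2q1) (C2 := cd1q2b) (C3 := pd1)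
    rfl k0_mm_112_b

noncomputable def f_mm_113 : ℕ → ℕ → ℕ → ℕ → Bool := onCell 536870912 536870912 1610612736 536870912 536870912 50465866
    (rowB 3 eng mog cd2q1 cd1q3 pd1 0 false false false .nn 1 1 3 (qsf 536870912 536870912 1610612736 536870912 1) ndB2q1 ndB1q3 pcB1 Cut.none Ext.none)

def k0_mm_113 : ∃ t, chk3 f_mm_113 t 1 1 1 = true :=
  ⟨(l 5), by decide +kernel⟩

theorem c_mm_113 : CertB 536870912 536870912 1610612736 536870912 536870912 50465866 3 eng mog cd2q1 cd1q3 pd1 false false false .nn 1 1 3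
    ndB2q1 ndB1q3 pcB1 Cut.none Ext.none :=
  certB0 (fam := false) (s1 := false) (s2 := false) (a := 1) (b := 1) (c := 3) (cn := .nn) (n1 := ndB2q1) (n2 := ndB1q3) (pc := pcB1) (cut := Cut.none) (xt := Ext.none) (P1 := 536870912) (W1 := 536870912) (P2 := 1610612736) (W2 := 536870912) (P3 := 536870912) (W3 := 50465866) (N0 := 3) (En := eng) (mo := mog) (C1 := cd2q1) (C2 := cd1q3) (C3 := pd1)
    rfl k0_mm_113

noncomputable def f_mm_123 : ℕ → ℕ → ℕ → ℕ → Bool := onCell 536870912 536870912 1610612736 536870912 536870912 50465866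
    (rowB 3 eng mog cd2q1 cd1q3 pd2 0 false false false .npn 1 2 3 (qsf 536870912 536870912 1610612736 536870912 2) ndB2q1 ndB1q3 pcB2 Cut.none Ext.none)

def k0_mm_123 : ∃ t, chk3 f_mm_123 t 1 1 1 = true :=
  ⟨(l 5), by decide +kernel⟩

theorem c_mm_123 : CertB 536870912 536870912 1610612736 536870912 536870912 50465866 3 eng mog cd2q1 cd1q3 pd2 false false false .npn 1 2 3
    ndB2q1 ndB1q3 pcB2 Cut.none Ext.none :=
  certB0 (fam := false) (s1 := false) (s2 := false) (a := 1) (b := 2) (c := 3) (cn := .npn) (n1 := ndB2q1) (n2 := ndB1q3) (pc := pcB2) (cut := Cut.none) (xt := Ext.none) (P1 := 536870912) (W1 := 536870912) (P2 := 1610612736) (W2 := 536870912) (P3 := 536870912) (W3 := 50465866) (N0 := 3) (En := eng) (mo := mog) (C1 := cd2q1) (C2 := cd1q3) (C3 := pd2)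
    rfl k0_mm_123

noncomputable def f_mm_133 : ℕ → ℕ → ℕ → ℕ → Bool := onCell 536870912 536870912 1610612736 536870912 536870912 50465866
    (rowB 3 eng mog cd2q1 cd1q3 pd3 0 false false false .dn 1 3 3 (qsf 536870912 536870912 1610612736 536870912 3) ndB2q1 ndB1q3 pcB3 Cut.none Ext.none)

def k0_mm_133 : ∃ t, chk3 f_mm_133 t 1 1 1 = true :=
  ⟨(l 5), by decide +kernel⟩

theorem c_mm_133 : CertB 536870912 536870912 1610612736 536870912 536870912 50465866 3 eng mog cd2q1 cd1q3 pd3 false false false .dn 1 3 3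
    ndB2q1 ndB1q3 pcB3 Cut.none Ext.none :=
  certB0 (fam := false) (s1 := false) (s2 := false) (a := 1) (b := 3) (c := 3) (cn := .dn) (n1 := ndB2q1) (n2 := ndB1q3) (pc := pcB3) (cut := Cut.none) (xt := Ext.none) (P1 := 536870912) (W1 := 536870912) (P2 := 1610612736) (W2 := 536870912) (P3 := 536870912) (W3 := 50465866) (N0 := 3) (En := eng) (mo := mog) (C1 := cd2q1) (C2 := cd1q3) (C3 := pd3)
    rfl k0_mm_133

noncomputable def f_mm_202_aa : ℕ → ℕ → ℕ → ℕ → Bool := onCell 0 536870912 0 536870912 536870912 50465866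
    (rowB 3 eng mog cd2q2a cd1q2a pd0 0 false false false .pp 2 0 2 (qsf 0 536870912 0 536870912 0) ndB2q2a ndB1q2a pcB0 Cut.none Ext.none)

def k0_mm_202_aa : ∃ t, chk3 f_mm_202_aa t 1 1 1 = true :=
  ⟨(l 3), by decide +kernel⟩

theorem c_mm_202_aa : CertB 0 536870912 0 536870912 536870912 50465866 3 eng mog cd2q2a cd1q2a pd0 false false false .pp 2 0 2
    ndB2q2a ndB1q2a pcB0 Cut.none Ext.none :=
  certB0 (fam := false) (s1 := false) (s2 := false) (a := 2) (b := 0) (c := 2) (cn := .pp) (n1 := ndB2q2a) (n2 := ndB1q2a) (pc := pcB0) (cut := Cut.none) (xt := Ext.none) (P1 := 0) (W1 := 536870912) (P2 := 0) (W2 := 536870912) (P3 := 536870912) (W3 := 50465866) (N0 := 3) (En := eng) (mo := mog) (C1 := cd2q2a) (C2 := cd1q2a) (C3 := pd0)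
    rfl k0_mm_202_aa

noncomputable def f_mm_202_ab : ℕ → ℕ → ℕ → ℕ → Bool := onCell 0 536870912 1239849684 370763052 536870912 50465866
    (rowB 3 eng mog cd2q2a cd1q2b pd0 0 false false false .pp 2 0 2 (qsf 0 536870912 1239849684 370763052 0) ndB2q2a ndB1q2b pcB0 Cut.none Ext.none)

def k0_mm_202_ab : ∃ t, chk3 f_mm_202_ab t 1 1 1 = true :=
  ⟨(l 3), by decide +kernel⟩

theorem c_mm_202_ab : CertB 0 536870912 1239849684 370763052 536870912 50465866 3 eng mog cd2q2a cd1q2b pd0 false false false .pp 2 0 2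
    ndB2q2a ndB1q2b pcB0 Cut.none Ext.none :=
  certB0 (fam := false) (s1 := false) (s2 := false) (a := 2) (b := 0) (c := 2) (cn := .pp) (n1 := ndB2q2a) (n2 := ndB1q2b) (pc := pcB0) (cut := Cut.none) (xt := Ext.none) (P1 := 0) (W1 := 536870912) (P2 := 1239849684) (W2 := 370763052) (P3 := 536870912) (W3 := 50465866) (N0 := 3) (En := eng) (mo := mog) (C1 := cd2q2a) (C2 := cd1q2b) (C3 := pd0)
    rfl k0_mm_202_ab

noncomputable def f_mm_202_ba : ℕ → ℕ → ℕ → ℕ → Bool := onCell 1239849684 370763052 0 536870912 536870912 50465866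
    (rowB 3 eng mog cd2q2b cd1q2a pd0 0 false false false .pp 2 0 2 (qsf 1239849684 370763052 0 536870912 0) ndB2q2b ndB1q2a pcB0 Cut.none Ext.none)

def k0_mm_202_ba : ∃ t, chk3 f_mm_202_ba t 1 1 1 = true :=
  ⟨(l 3), by decide +kernel⟩

theorem c_mm_202_ba : CertB 1239849684 370763052 0 536870912 536870912 50465866 3 eng mog cd2q2b cd1q2a pd0 false false false .pp 2 0 2
    ndB2q2b ndB1q2a pcB0 Cut.none Ext.none :=
  certB0 (fam := false) (s1 := false) (s2 := false) (a := 2) (b := 0) (c := 2) (cn := .pp) (n1 := ndB2q2b) (n2 := ndB1q2a) (pc := pcB0) (cut := Cut.none) (xt := Ext.none) (P1 := 1239849684) (W1 := 370763052) (P2 := 0) (W2 := 536870912) (P3 := 536870912) (W3 := 50465866) (N0 := 3) (En := eng) (mo := mog) (C1 := cd2q2b) (C2 := cd1q2a) (C3 := pd0)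
    rfl k0_mm_202_ba

noncomputable def f_mm_202_bb : ℕ → ℕ → ℕ → ℕ → Bool := onCell 1239849684 370763052 1239849684 370763052 536870912 50465866
    (rowB 3 eng mog cd2q2b cd1q2b pd0 0 false false false .pp 2 0 2 (qsf 1239849684 370763052 1239849684 370763052 0) ndB2q2b ndB1q2b pcB0 Cut.none Ext.none)

def k0_mm_202_bb : ∃ t, chk3 f_mm_202_bb t 1 1 1 = true :=
  ⟨(l 3), by decide +kernel⟩

theorem c_mm_202_bb : CertB 1239849684 370763052 1239849684 370763052 536870912 50465866 3 eng mog cd2q2b cd1q2b pd0 false false false .pp 2 0 2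
    ndB2q2b ndB1q2b pcB0 Cut.none Ext.none :=
  certB0 (fam := false) (s1 := false) (s2 := false) (a := 2) (b := 0) (c := 2) (cn := .pp) (n1 := ndB2q2b) (n2 := ndB1q2b) (pc := pcB0) (cut := Cut.none) (xt := Ext.none) (P1 := 1239849684) (W1 := 370763052) (P2 := 1239849684) (W2 := 370763052) (P3 := 536870912) (W3 := 50465866) (N0 := 3) (En := eng) (mo := mog) (C1 := cd2q2b) (C2 := cd1q2b) (C3 := pd0)
    rfl k0_mm_202_bb

noncomputable def f_mm_203_a : ℕ → ℕ → ℕ → ℕ → Bool := onCell 0 536870912 1610612736 536870912 536870912 50465866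
    (rowB 3 eng mog cd2q2a cd1q3 pd0 0 false false false .up 2 0 3 (qsf 0 536870912 1610612736 536870912 0) ndB2q2a ndB1q3 pcB0 Cut.none Ext.none)

def k0_mm_203_a : ∃ t, chk3 f_mm_203_a t 1 1 1 = true :=
  ⟨(l 5), by decide +kernel⟩

theorem c_mm_203_a : CertB 0 536870912 1610612736 536870912 536870912 50465866 3 eng mog cd2q2a cd1q3 pd0 false false false .up 2 0 3
    ndB2q2a ndB1q3 pcB0 Cut.none Ext.none :=
  certB0 (fam := false) (s1 := false) (s2 := false) (a := 2) (b := 0) (c := 3) (cn := .up) (n1 := ndB2q2a) (n2 := ndB1q3) (pc := pcB0) (cut := Cut.none) (xt := Ext.none) (P1 := 0) (W1 := 536870912) (P2 := 1610612736) (W2 := 536870912) (P3 := 536870912) (W3 := 50465866) (N0 := 3) (En := eng) (mo := mog) (C1 := cd2q2a) (C2 := cd1q3) (C3 := pd0)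
    rfl k0_mm_203_a

noncomputable def f_mm_203_b : ℕ → ℕ → ℕ → ℕ → Bool := onCell 1239849684 370763052 1610612736 536870912 536870912 50465866
    (rowB 3 eng mog cd2q2b cd1q3 pd0 0 false false false .up 2 0 3 (qsf 1239849684 370763052 1610612736 536870912 0) ndB2q2b ndB1q3 pcB0 Cut.none Ext.none)

def k0_mm_203_b : ∃ t, chk3 f_mm_203_b t 1 1 1 = true :=
  ⟨(l 3), by decide +kernel⟩

theorem c_mm_203_b : CertB 1239849684 370763052 1610612736 536870912 536870912 50465866 3 eng mog cd2q2b cd1q3 pd0 false false false .up 2 0 3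
    ndB2q2b ndB1q3 pcB0 Cut.none Ext.none :=
  certB0 (fam := false) (s1 := false) (s2 := false) (a := 2) (b := 0) (c := 3) (cn := .up) (n1 := ndB2q2b) (n2 := ndB1q3) (pc := pcB0) (cut := Cut.none) (xt := Ext.none) (P1 := 1239849684) (W1 := 370763052) (P2 := 1610612736) (W2 := 536870912) (P3 := 536870912) (W3 := 50465866) (N0 := 3) (En := eng) (mo := mog) (C1 := cd2q2b) (C2 := cd1q3) (C3 := pd0)
    rfl k0_mm_203_b

noncomputable def f_mm_213_a : ℕ → ℕ → ℕ → ℕ → Bool := onCell 0 536870912 1610612736 536870912 536870912 50465866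
    (rowB 3 eng mog cd2q2a cd1q3 pd1 0 false false false .pnn 2 1 3 (qsf 0 536870912 1610612736 536870912 1) ndB2q2a ndB1q3 pcB1 Cut.none Ext.none)

def k0_mm_213_a : ∃ t, chk3 f_mm_213_a t 1 1 1 = true :=
  ⟨(l 5), by decide +kernel⟩

theorem c_mm_213_a : CertB 0 536870912 1610612736 536870912 536870912 50465866 3 eng mog cd2q2a cd1q3 pd1 false false false .pnn 2 1 3
    ndB2q2a ndB1q3 pcB1 Cut.none Ext.none :=
  certB0 (fam := false) (s1 := false) (s2 := false) (a := 2) (b := 1) (c := 3) (cn := .pnn) (n1 := ndB2q2a) (n2 := ndB1q3) (pc := pcB1) (cut := Cut.none) (xt := Ext.none) (P1 := 0) (W1 := 536870912) (P2 := 1610612736) (W2 := 536870912) (P3 := 536870912) (W3 := 50465866) (N0 := 3) (En := eng) (mo := mog) (C1 := cd2q2a) (C2 := cd1q3) (C3 := pd1)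
    rfl k0_mm_213_a

noncomputable def f_mm_213_b : ℕ → ℕ → ℕ → ℕ → Bool := onCell 1239849684 370763052 1610612736 536870912 536870912 50465866
    (rowB 3 eng mog cd2q2b cd1q3 pd1 0 false false false .pnn 2 1 3 (qsf 1239849684 370763052 1610612736 536870912 1) ndB2q2b ndB1q3 pcB1 Cut.none Ext.none)

def k0_mm_213_b : ∃ t, chk3 f_mm_213_b t 1 1 1 = true :=
  ⟨(l 3), by decide +kernel⟩

theorem c_mm_213_b : CertB 1239849684 370763052 1610612736 536870912 536870912 50465866 3 eng mog cd2q2b cd1q3 pd1 false false false .pnn 2 1 3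
    ndB2q2b ndB1q3 pcB1 Cut.none Ext.none :=
  certB0 (fam := false) (s1 := false) (s2 := false) (a := 2) (b := 1) (c := 3) (cn := .pnn) (n1 := ndB2q2b) (n2 := ndB1q3) (pc := pcB1) (cut := Cut.none) (xt := Ext.none) (P1 := 1239849684) (W1 := 370763052) (P2 := 1610612736) (W2 := 536870912) (P3 := 536870912) (W3 := 50465866) (N0 := 3) (En := eng) (mo := mog) (C1 := cd2q2b) (C2 := cd1q3) (C3 := pd1)
    rfl k0_mm_213_b

noncomputable def f_mm_303 : ℕ → ℕ → ℕ → ℕ → Bool := onCell 1610612736 536870912 1610612736 536870912 536870912 50465866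
    (rowB 3 eng mog cd2q3 cd1q3 pd0 0 false false false .npn 3 0 3 (qsf 1610612736 536870912 1610612736 536870912 0) ndB2q3 ndB1q3 pcB0 Cut.none Ext.none)

def k0_mm_303 : ∃ t, chk3 f_mm_303 t 1 1 1 = true :=
  ⟨(l 3), by decide +kernel⟩

theorem c_mm_303 : CertB 1610612736 536870912 1610612736 536870912 536870912 50465866 3 eng mog cd2q3 cd1q3 pd0 false false false .npn 3 0 3
    ndB2q3 ndB1q3 pcB0 Cut.none Ext.none :=
  certB0 (fam := false) (s1 := false) (s2 := false) (a := 3) (b := 0) (c := 3) (cn := .npn) (n1 := ndB2q3) (n2 := ndB1q3) (pc := pcB0) (cut := Cut.none) (xt := Ext.none) (P1 := 1610612736) (W1 := 536870912) (P2 := 1610612736) (W2 := 536870912) (P3 := 536870912) (W3 := 50465866) (N0 := 3) (En := eng) (mo := mog) (C1 := cd2q3) (C2 := cd1q3) (C3 := pd0)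
    rfl k0_mm_303

noncomputable def f_mm_313 : ℕ → ℕ → ℕ → ℕ → Bool := onCell 1610612736 536870912 1610612736 536870912 536870912 50465866
    (rowB 3 eng mog cd2q3 cd1q3 pd1 0 false false false .dn 3 1 3 (qsf 1610612736 536870912 1610612736 536870912 1) ndB2q3 ndB1q3 pcB1 Cut.none Ext.none)

def k0_mm_313 : ∃ t, chk3 f_mm_313 t 1 1 1 = true :=
  ⟨(l 3), by decide +kernel⟩

theorem c_mm_313 : CertB 1610612736 536870912 1610612736 536870912 536870912 50465866 3 eng mog cd2q3 cd1q3 pd1 false false false .dn 3 1 3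
    ndB2q3 ndB1q3 pcB1 Cut.none Ext.none :=
  certB0 (fam := false) (s1 := false) (s2 := false) (a := 3) (b := 1) (c := 3) (cn := .dn) (n1 := ndB2q3) (n2 := ndB1q3) (pc := pcB1) (cut := Cut.none) (xt := Ext.none) (P1 := 1610612736) (W1 := 536870912) (P2 := 1610612736) (W2 := 536870912) (P3 := 536870912) (W3 := 50465866) (N0 := 3) (En := eng) (mo := mog) (C1 := cd2q3) (C2 := cd1q3) (C3 := pd1)
    rfl k0_mm_313

end Pool.Agent.Strip051.G.I5000_5470.Tab.C.BB21

namespace Pool.Agent.Strip051.G.I5000_5470.Tab.C.BB22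

open Pool.Agent.Strip051.PB Pool.Agent.Strip051.PB.T
open Pool.Agent.Strip051.G.I5000_5470.Tab

noncomputable def f_pp_001 : ℕ → ℕ → ℕ → ℕ → Bool := onCell 0 536870912 536870912 536870912 536870912 50465866
    (rowB 3 eng mog cd2q0 cd2q1 pd0 0 false true true .up 0 0 1 (qsf 0 536870912 536870912 536870912 0) ndB2q0 ndB2q1 pcB0 Cut.none Ext.none)

def k0_pp_001 : ∃ t, chk3 f_pp_001 t 1 1 1 = true :=
  ⟨(l 3), by decide +kernel⟩

theorem c_pp_001 : CertB 0 536870912 536870912 536870912 536870912 50465866 3 eng mog cd2q0 cd2q1 pd0 false true true .up 0 0 1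
    ndB2q0 ndB2q1 pcB0 Cut.none Ext.none :=
  certB0 (fam := false) (s1 := true) (s2 := true) (a := 0) (b := 0) (c := 1) (cn := .up) (n1 := ndB2q0) (n2 := ndB2q1) (pc := pcB0) (cut := Cut.none) (xt := Ext.none) (P1 := 0) (W1 := 536870912) (P2 := 536870912) (W2 := 536870912) (P3 := 536870912) (W3 := 50465866) (N0 := 3) (En := eng) (mo := mog) (C1 := cd2q0) (C2 := cd2q1) (C3 := pd0)
    rfl k0_pp_001

noncomputable def f_pp_011 : ℕ → ℕ → ℕ → ℕ → Bool := onCell 0 536870912 536870912 536870912 536870912 50465866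
    (rowB 3 eng mog cd2q0 cd2q1 pd1 0 false true true .pnn 0 1 1 (qsf 0 536870912 536870912 536870912 1) ndB2q0 ndB2q1 pcB1 Cut.none Ext.none)

def k0_pp_011 : ∃ t, chk3 f_pp_011 t 1 1 1 = true :=
  ⟨(l 3), by decide +kernel⟩

theorem c_pp_011 : CertB 0 536870912 536870912 536870912 536870912 50465866 3 eng mog cd2q0 cd2q1 pd1 false true true .pnn 0 1 1
    ndB2q0 ndB2q1 pcB1 Cut.none Ext.none :=
  certB0 (fam := false) (s1 := true) (s2 := true) (a := 0) (b := 1) (c := 1) (cn := .pnn) (n1 := ndB2q0) (n2 := ndB2q1) (pc := pcB1) (cut := Cut.none) (xt := Ext.none) (P1 := 0) (W1 := 536870912) (P2 := 536870912) (W2 := 536870912) (P3 := 536870912) (W3 := 50465866) (N0 := 3) (En := eng) (mo := mog) (C1 := cd2q0) (C2 := cd2q1) (C3 := pd1)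
    rfl k0_pp_011

noncomputable def cut_pp_012_a : Cut := Cut.of [[⟨0, 0, 0, 67108864⟩, ⟨1, 1, 0, 67108864⟩, ⟨2, 1, 0, 67108864⟩]]

noncomputable def f_pp_012_a : ℕ → ℕ → ℕ → ℕ → Bool := onCell 536870912 536870912 0 536870912 536870912 50465866
    (rowB 3 eng mog cd2q0 cd2q2a pd1 2 false true true .pnp 0 1 2 (qsf 0 536870912 0 536870912 1) ndB2q0 ndB2q2a pcB1 cut_pp_012_a Ext.none)

def k0_pp_012_a : ∃ t, chk3 f_pp_012_a t 2 1 1 = true :=
  ⟨(a (b (b (l 2) (l 3)) (l 3)) (b (a (b (a (b (l 16685048) (l 16693584)) (b (l 16735784) (l 16699144))) (b (a (l 165523896967) (l 97878121767)) (l 3))) (a (b (b (l 16760080) (l 16740576)) (b (l 16820592) (l 143512497431))) (b (b (l 16767992) (l 16762672)) (b (l 16740224) (l 16840752))))) (b (l 3) (l 3)))), by decide +kernel⟩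

def k1_pp_012_a : ∃ t, chk3 f_pp_012_a t 3 1 1 = true :=
  ⟨(a (b (a (b (b (l 16760344) (a (l 16769352) (l 16762336))) (b (a (l 16765920) (l 16769408)) (a (l 16740704) (l 16761384)))) (b (a (l 16737056) (l 16709168)) (b (a (l 16755112) (l 16730144)) (a (l 16770504) (l 16753816))))) (b (a (b (a (l 153176165239) (b (l 16759912) (l 152102216599))) (l 3)) (b (a (l 16802368) (l 16772008)) (a (b (l 16808896) (l 236391154711)) (a (l 156397384295) (l 16833144))))) (a (l 3) (b (b (a (l 3) (l 247665334151)) (l 3)) (l 3))))) (b (a (b (a (l 16679536) (l 16647600)) (b (a (l 16701296) (l 16669472)) (a (l 16727168) (l 16695688)))) (b (a (l 16635320) (b (l 16574432) (l 16587424))) (a (b (l 16636456) (l 16662392)) (b (l 16603920) (l 16629544))))) (a (b (b (a (l 16755672) (l 16747456)) (a (b (l 16771656) (l 16828904)) (b (l 16750512) (l 16765696)))) (b (b (a (a (l 16811480) (l 16777272)) (a (l 16768528) (l 16772104))) (a (b (l 229411724503) (l 3)) (a (l 205252566151)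 (l 81235372151)))) (a (l 3) (a (l 3) (b (l 232096056903) (l 3)))))) (b (a (b (l 16735312) (a (l 16735760) (l 16761272))) (b (a (l 16668384) (l 16652152)) (a (b (l 16693696) (l 16711504)) (b (l 16677312) (l 16695184))))) (b (a (b (a (l 16761800) (l 16746320)) (a (l 16792392) (l 16764664))) (a (b (l 16729808) (a (l 16752832) (l 16744624))) (b (l 16734392) (a (l 16736432) (l 16728352))))) (a (b (a (b (l 116668826487) (l 225116721303)) (b (l 16772640) (a (l 202568156391) (l 16800064)))) (a (l 3) (a (l 3) (l 6)))) (b (a (b (l 16763440) (l 6)) (l 6)) (l 6)))))))), by decide +kernel⟩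

theorem s2_pp_012_a : ∃ t, chk3 f_pp_012_a t 1 1 1 = true := ex3_a k0_pp_012_a k1_pp_012_a

theorem c_pp_012_a : CertB 0 536870912 0 536870912 536870912 50465866 3 eng mog cd2q0 cd2q2a pd1 false true true .pnp 0 1 2
    ndB2q0 ndB2q2a pcB1 cut_pp_012_a Ext.none :=
  certB2 (fam := false) (s1 := true) (s2 := true) (a := 0) (b := 1) (c := 2) (cn := .pnp) (n1 := ndB2q0) (n2 := ndB2q2a) (pc := pcB1) (cut := cut_pp_012_a) (xt := Ext.none) (P1 := 0) (W1 := 536870912) (P2 := 0) (W2 := 536870912) (P3 := 536870912) (W3 := 50465866) (N0 := 3) (En := eng) (mo := mog) (C1 := cd2q0) (C2 := cd2q2a) (C3 := pd1)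
    rfl (fun _ => rfl) s2_pp_012_a

noncomputable def cut_pp_012_b : Cut := Cut.of [[⟨0, 0, 0, 67108864⟩, ⟨1, 1, 0, 67108864⟩, ⟨2, 1, 0, 67108864⟩]]

noncomputable def f_pp_012_b : ℕ → ℕ → ℕ → ℕ → Bool := onCell 536870912 536870912 1239849684 370763052 536870912 50465866
    (rowB 3 eng mog cd2q0 cd2q2b pd1 2 false true true .pnp 0 1 2 (qsf 0 536870912 1239849684 370763052 1) ndB2q0 ndB2q2b pcB1 cut_pp_012_b Ext.none)

def k0_pp_012_b : ∃ t, chk3 f_pp_012_b t 1 1 1 = true :=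
  ⟨(a (a (l 2) (b (a (b (a (l 16749584) (b (l 16761816) (l 2))) (l 2)) (b (b (l 16770000) (l 16775048)) (l 16791736))) (l 2))) (a (b (b (a (l 16809096) (b (l 16698064) (l 16684368))) (a (l 16753544) (l 16685176))) (b (l 16766800) (l 2))) (b (a (b (b (a (l 16646360) (l 16612144)) (l 16601816)) (l 16590032)) (b (b (a (l 16577624) (l 16543160)) (l 16518528)) (b (l 16488248) (l 16476048)))) (a (l 16723184) (b (l 16494088) (l 16572952)))))), by decide +kernel⟩

theorem c_pp_012_b : CertB 0 536870912 1239849684 370763052 536870912 50465866 3 eng mog cd2q0 cd2q2b pd1 false true true .pnp 0 1 2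
    ndB2q0 ndB2q2b pcB1 cut_pp_012_b Ext.none :=
  certB2 (fam := false) (s1 := true) (s2 := true) (a := 0) (b := 1) (c := 2) (cn := .pnp) (n1 := ndB2q0) (n2 := ndB2q2b) (pc := pcB1) (cut := cut_pp_012_b) (xt := Ext.none) (P1 := 0) (W1 := 536870912) (P2 := 1239849684) (W2 := 370763052) (P3 := 536870912) (W3 := 50465866) (N0 := 3) (En := eng) (mo := mog) (C1 := cd2q0) (C2 := cd2q2b) (C3 := pd1)
    rfl (fun _ => rfl) k0_pp_012_b

noncomputable def cut_pp_022_a : Cut := Cut.of [[⟨0, 0, 0, 67108864⟩, ⟨1, 1, 0, 67108864⟩, ⟨2, 1, 0, 67108864⟩]]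

noncomputable def f_pp_022_a : ℕ → ℕ → ℕ → ℕ → Bool := onCell 0 536870912 0 536870912 536870912 50465866
    (rowB 3 eng mog cd2q0 cd2q2a pd2 0 false true true .pp 0 2 2 (qsf 0 536870912 0 536870912 2) ndB2q0 ndB2q2a pcB2 cut_pp_022_a Ext.none)

def k0_pp_022_a : ∃ t, chk3 f_pp_022_a t 4 1 1 = true :=
  ⟨(b (a (b (b (a (a (b (l 16459952) (a (l 16461416) (l 16465240))) (l 16471760)) (l 16490888)) (a (a (b (a (l 16468776) (l 16472832)) (l 16607704)) (l 16526504)) (l 16562904))) (a (c (a (b (b (l 16557296) (l 16508728)) (b (l 16523736) (l 16540216))) (b (l 16509992) (l 16520576))) (b (a (b (l 16494224) (l 16506696)) (b (l 16503968) (l 16517072))) (a (b (l 16520496) (l 16536232)) (l 16560960)))) (b (l 16586200) (a (l 16550648) (l 16559256))))) (b (b (a (l 16513824) (l 16533840)) (a (l 16525112) (l 16547120))) (b (a (l 16544808) (l 16568176)) (a (l 16577656) (l 16611944))))) (b (a (a (a (b (b (a (l 16553672) (l 16559608)) (a (b (l 16568408) (l 16579080))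 (l 16580144))) (b (a (b (l 16590400) (l 16602400)) (l 16603216)) (b (a (a (l 16613328) (l 16616952)) (l 16622248)) (a (a (l 16626824) (l 16630560)) (l 16636000))))) (b (a (b (l 16565320) (l 16586240)) (l 16581632)) (b (a (l 16609704) (l 16615896)) (a (l 16636048) (l 16642616))))) (b (a (l 16610624) (l 16600152)) (b (a (l 16624648) (l 16638200)) (a (l 16652504) (l 16666552))))) (b (a (b (l 16608472) (l 16632088)) (b (l 16632024) (l 113313148199))) (a (b (a (l 16651512) (l 16663712)) (a (l 66068523191) (l 265784553127))) (b (l 290480612663) (l 1))))) (a (b (a (b (b (a (a (a (c (l 16642912) (l 16639016)) (l 16644984)) (l 16650592)) (l 16682216)) (b (a (a (a (l 16652424) (l 16656344)) (l 16662080)) (l 16672944)) (l 6))) (l 6)) (b (a (b (l 16675416) (l 16691416)) (b (l 16688992) (l 66605456247))) (a (l 6) (a (l 6) (a (l 6) (l 1)))))) (a (l 6) (a (l 6) (l 1)))) (b (a (b (a (b (l 16701360) (l 316250451639)) (l 1)) (l 1)) (l 1)) (l 1))))), by decide +kernel⟩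

def k1_pp_022_a : ∃ t, chk3 f_pp_022_a t 5 1 1 = true :=
  ⟨(b (a (a (b (b (l 16551104) (l 16566336)) (b (l 16588392) (l 255583901431))) (b (b (l 1) (l 1)) (l 1))) (l 1)) (b (l 1) (l 1))), by decide +kernel⟩

def k2_pp_022_a : ∃ t, chk3 f_pp_022_a t 3 1 1 = true :=
  ⟨(l 1), by decide +kernel⟩

theorem s3_pp_022_a : ∃ t, chk3 f_pp_022_a t 2 1 1 = true := ex3_a k0_pp_022_a k1_pp_022_a

theorem s4_pp_022_a : ∃ t, chk3 f_pp_022_a t 1 1 1 = true := ex3_a s3_pp_022_a k2_pp_022_a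

theorem c_pp_022_a : CertB 0 536870912 0 536870912 536870912 50465866 3 eng mog cd2q0 cd2q2a pd2 false true true .pp 0 2 2
    ndB2q0 ndB2q2a pcB2 cut_pp_022_a Ext.none :=
  certB0 (fam := false) (s1 := true) (s2 := true) (a := 0) (b := 2) (c := 2) (cn := .pp) (n1 := ndB2q0) (n2 := ndB2q2a) (pc := pcB2) (cut := cut_pp_022_a) (xt := Ext.none) (P1 := 0) (W1 := 536870912) (P2 := 0) (W2 := 536870912) (P3 := 536870912) (W3 := 50465866) (N0 := 3) (En := eng) (mo := mog) (C1 := cd2q0) (C2 := cd2q2a) (C3 := pd2)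
    rfl s4_pp_022_a

noncomputable def cut_pp_022_b : Cut := Cut.of [[⟨0, 0, 0, 67108864⟩, ⟨1, 1, 0, 67108864⟩, ⟨2, 1, 0, 67108864⟩]]

noncomputable def f_pp_022_b : ℕ → ℕ → ℕ → ℕ → Bool := onCell 0 536870912 1073741824 536870912 536870912 50465866
    (rowB 3 eng mog cd2q0 cd2q2b pd2 1 false true true .pp 0 2 2 (qsf 0 536870912 1239849684 370763052 2) ndB2q0 ndB2q2b pcB2 cut_pp_022_b Ext.none)

def k0_pp_022_b : ∃ t, chk3 f_pp_022_b t 1 1 1 = true :=
  ⟨(a (b (b (a (b (a (l 1) (b (a (l 1) (l 176663860343)) (l 176126769527))) (a (b (a (l 1) (l 167536946183)) (a (l 205654838903) (l 16547704))) (b (l 165389283735) (l 16448728)))) (b (a (b (l 16585792) (l 16469496)) (l 16452864)) (a (l 16535952) (l 16338144)))) (a (b (a (a (b (a (l 16556032) (l 16470928)) (b (l 16477392) (l 16394240))) (b (l 16421112) (l 16395144))) (b (l 16367896) (l 16323288))) (a (a (b (l 16494944) (l 16342904)) (l 16315144)) (l 16246536))) (b (b (l 16286984) (l 16233656)) (l 16173128))))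 (b (a (a (b (a (l 16359488) (l 16288856)) (a (l 16301632) (l 16279984))) (b (l 16238416) (l 16241192))) (a (l 16162456) (l 16062360))) (b (a (a (l 16290760) (l 16249520)) (l 16316808)) (a (a (b (l 16300944) (l 16318264)) (l 16322304)) (l 2))))) (b (b (a (b (a (l 16385320) (l 16381360)) (l 16310336)) (l 16434416)) (a (b (l 16243256) (l 16166792)) (l 16489600))) (b (a (l 16369472) (l 2)) (l 2)))), by decide +kernel⟩

theorem c_pp_022_b : CertB 0 536870912 1239849684 370763052 536870912 50465866 3 eng mog cd2q0 cd2q2b pd2 false true true .pp 0 2 2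
    ndB2q0 ndB2q2b pcB2 cut_pp_022_b Ext.none :=
  certB1 (fam := false) (s1 := true) (s2 := true) (a := 0) (b := 2) (c := 2) (cn := .pp) (n1 := ndB2q0) (n2 := ndB2q2b) (pc := pcB2) (cut := cut_pp_022_b) (xt := Ext.none) (P1 := 0) (W1 := 536870912) (P2 := 1239849684) (W2 := 370763052) (P3 := 536870912) (W3 := 50465866) (N0 := 3) (En := eng) (mo := mog) (C1 := cd2q0) (C2 := cd2q2b) (C3 := pd2)
    rfl (fun _ => rfl) k0_pp_022_b

noncomputable def f_pp_023 : ℕ → ℕ → ℕ → ℕ → Bool := onCell 1073741824 536870912 1610612736 536870912 536870912 50465866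
    (rowB 3 eng mog cd2q0 cd2q3 pd2 2 false true true .up 0 2 3 (qsf 0 536870912 1610612736 536870912 2) ndB2q0 ndB2q3 pcB2 Cut.none Ext.none)

def k0_pp_023 : ∃ t, chk3 f_pp_023 t 1 1 1 = true :=
  ⟨(a (b (a (b (l 16596744) (l 16760184)) (b (a (l 16388824) (l 16257440)) (l 16645056))) (a (l 2) (a (l 2) (l 16726336)))) (a (b (b (a (l 16169312) (l 16167712)) (l 16535192)) (b (l 16697320) (l 16730552))) (b (a (b (l 16212536) (l 16503584)) (b (b (l 16309920) (l 16347024)) (l 16513208))) (a (l 16714200) (l 16706256))))), by decide +kernel⟩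

theorem c_pp_023 : CertB 0 536870912 1610612736 536870912 536870912 50465866 3 eng mog cd2q0 cd2q3 pd2 false true true .up 0 2 3
    ndB2q0 ndB2q3 pcB2 Cut.none Ext.none :=
  certB2 (fam := false) (s1 := true) (s2 := true) (a := 0) (b := 2) (c := 3) (cn := .up) (n1 := ndB2q0) (n2 := ndB2q3) (pc := pcB2) (cut := Cut.none) (xt := Ext.none) (P1 := 0) (W1 := 536870912) (P2 := 1610612736) (W2 := 536870912) (P3 := 536870912) (W3 := 50465866) (N0 := 3) (En := eng) (mo := mog) (C1 := cd2q0) (C2 := cd2q3) (C3 := pd2)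
    rfl (fun _ => rfl) k0_pp_023

noncomputable def f_pp_033 : ℕ → ℕ → ℕ → ℕ → Bool := onCell 0 536870912 1610612736 536870912 536870912 50465866
    (rowB 3 eng mog cd2q0 cd2q3 pd3 1 false true true .pnn 0 3 3 (qsf 0 536870912 1610612736 536870912 3) ndB2q0 ndB2q3 pcB3 Cut.none Ext.none)

def k0_pp_033 : ∃ t, chk3 f_pp_033 t 1 1 1 = true :=
  ⟨(a (b (b (a (b (b (l 16408584) (l 16510344)) (a (l 16514080) (l 16562984))) (b (l 16583680) (l 16639736))) (b (a (a (l 16607832) (l 16643936)) (l 16695128)) (a (b (l 16677480) (l 16700408)) (l 4)))) (b (l 4) (a (l 4) (a (b (l 4) (l 2)) (l 2))))) (b (b (b (a (l 16681560) (l 16741088)) (a (l 16710840) (l 16762800))) (a (b (l 4) (l 4)) (a (b (l 4) (l 2)) (l 2)))) (a (b (a (b (l 4) (l 2)) (l 2)) (l 2)) (l 2)))), by decide +kernel⟩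

theorem c_pp_033 : CertB 0 536870912 1610612736 536870912 536870912 50465866 3 eng mog cd2q0 cd2q3 pd3 false true true .pnn 0 3 3
    ndB2q0 ndB2q3 pcB3 Cut.none Ext.none :=
  certB1 (fam := false) (s1 := true) (s2 := true) (a := 0) (b := 3) (c := 3) (cn := .pnn) (n1 := ndB2q0) (n2 := ndB2q3) (pc := pcB3) (cut := Cut.none) (xt := Ext.none) (P1 := 0) (W1 := 536870912) (P2 := 1610612736) (W2 := 536870912) (P3 := 536870912) (W3 := 50465866) (N0 := 3) (En := eng) (mo := mog) (C1 := cd2q0) (C2 := cd2q3) (C3 := pd3)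
    rfl (fun _ => rfl) k0_pp_033

noncomputable def f_pp_101 : ℕ → ℕ → ℕ → ℕ → Bool := onCell 536870912 536870912 536870912 536870912 536870912 50465866
    (rowB 3 eng mog cd2q1 cd2q1 pd0 0 false true true .npn 1 0 1 (qsf 536870912 536870912 536870912 536870912 0) ndB2q1 ndB2q1 pcB0 Cut.none Ext.none)

def k0_pp_101 : ∃ t, chk3 f_pp_101 t 1 1 1 = true :=
  ⟨(l 3), by decide +kernel⟩

theorem c_pp_101 : CertB 536870912 536870912 536870912 536870912 536870912 50465866 3 eng mog cd2q1 cd2q1 pd0 false true true .npn 1 0 1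
    ndB2q1 ndB2q1 pcB0 Cut.none Ext.none :=
  certB0 (fam := false) (s1 := true) (s2 := true) (a := 1) (b := 0) (c := 1) (cn := .npn) (n1 := ndB2q1) (n2 := ndB2q1) (pc := pcB0) (cut := Cut.none) (xt := Ext.none) (P1 := 536870912) (W1 := 536870912) (P2 := 536870912) (W2 := 536870912) (P3 := 536870912) (W3 := 50465866) (N0 := 3) (En := eng) (mo := mog) (C1 := cd2q1) (C2 := cd2q1) (C3 := pd0)
    rfl k0_pp_101

noncomputable def f_pp_102_a : ℕ → ℕ → ℕ → ℕ → Bool := onCell 0 536870912 0 536870912 536870912 50465866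
    (rowB 3 eng mog cd2q1 cd2q2a pd0 2 false true true .npp 1 0 2 (qsf 536870912 536870912 0 536870912 0) ndB2q1 ndB2q2a pcB0 Cut.none Ext.none)

def k0_pp_102_a : ∃ t, chk3 f_pp_102_a t 1 1 1 = true :=
  ⟨(b (a (l 3) (l 3)) (l 3)), by decide +kernel⟩

theorem c_pp_102_a : CertB 536870912 536870912 0 536870912 536870912 50465866 3 eng mog cd2q1 cd2q2a pd0 false true true .npp 1 0 2
    ndB2q1 ndB2q2a pcB0 Cut.none Ext.none :=
  certB2 (fam := false) (s1 := true) (s2 := true) (a := 1) (b := 0) (c := 2) (cn := .npp) (n1 := ndB2q1) (n2 := ndB2q2a) (pc := pcB0) (cut := Cut.none) (xt := Ext.none) (P1 := 536870912) (W1 := 536870912) (P2 := 0) (W2 := 536870912) (P3 := 536870912) (W3 := 50465866) (N0 := 3) (En := eng) (mo := mog) (C1 := cd2q1) (C2 := cd2q2a) (C3 := pd0)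
    rfl (fun _ => rfl) k0_pp_102_a

noncomputable def f_pp_102_b : ℕ → ℕ → ℕ → ℕ → Bool := onCell 536870912 536870912 0 536870912 536870912 50465866
    (rowB 3 eng mog cd2q1 cd2q2b pd0 1 false true true .npp 1 0 2 (qsf 536870912 536870912 1239849684 370763052 0) ndB2q1 ndB2q2b pcB0 Cut.none Ext.none)

def k0_pp_102_b : ∃ t, chk3 f_pp_102_b t 1 1 1 = true :=
  ⟨(a (a (l 1) (a (l 3) (l 3))) (l 3)), by decide +kernel⟩

theorem c_pp_102_b : CertB 536870912 536870912 1239849684 370763052 536870912 50465866 3 eng mog cd2q1 cd2q2b pd0 false true true .npp 1 0 2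
    ndB2q1 ndB2q2b pcB0 Cut.none Ext.none :=
  certB1 (fam := false) (s1 := true) (s2 := true) (a := 1) (b := 0) (c := 2) (cn := .npp) (n1 := ndB2q1) (n2 := ndB2q2b) (pc := pcB0) (cut := Cut.none) (xt := Ext.none) (P1 := 536870912) (W1 := 536870912) (P2 := 1239849684) (W2 := 370763052) (P3 := 536870912) (W3 := 50465866) (N0 := 3) (En := eng) (mo := mog) (C1 := cd2q1) (C2 := cd2q2b) (C3 := pd0)
    rfl (fun _ => rfl) k0_pp_102_b

noncomputable def f_pp_112_a : ℕ → ℕ → ℕ → ℕ → Bool := onCell 536870912 536870912 0 536870912 536870912 50465866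
    (rowB 3 eng mog cd2q1 cd2q2a pd1 0 false true true .dn 1 1 2 (qsf 536870912 536870912 0 536870912 1) ndB2q1 ndB2q2a pcB1 Cut.none Ext.none)

def k0_pp_112_a : ∃ t, chk3 f_pp_112_a t 1 1 1 = true :=
  ⟨(a (b (a (a (b (a (b (l 16684040) (l 93046584711)) (b (l 16642088) (l 117742214503))) (a (b (l 148880850567) (l 3)) (l 3))) (b (a (b (l 112373499399) (l 192904071319)) (b (l 199883380215) (l 3))) (l 3))) (a (b (a (l 3) (l 3)) (l 3)) (l 1))) (l 3)) (l 1)), by decide +kernel⟩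

theorem c_pp_112_a : CertB 536870912 536870912 0 536870912 536870912 50465866 3 eng mog cd2q1 cd2q2a pd1 false true true .dn 1 1 2
    ndB2q1 ndB2q2a pcB1 Cut.none Ext.none :=
  certB0 (fam := false) (s1 := true) (s2 := true) (a := 1) (b := 1) (c := 2) (cn := .dn) (n1 := ndB2q1) (n2 := ndB2q2a) (pc := pcB1) (cut := Cut.none) (xt := Ext.none) (P1 := 536870912) (W1 := 536870912) (P2 := 0) (W2 := 536870912) (P3 := 536870912) (W3 := 50465866) (N0 := 3) (En := eng) (mo := mog) (C1 := cd2q1) (C2 := cd2q2a) (C3 := pd1)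
    rfl k0_pp_112_a

noncomputable def f_pp_112_b : ℕ → ℕ → ℕ → ℕ → Bool := onCell 536870912 536870912 1239849684 370763052 536870912 50465866
    (rowB 3 eng mog cd2q1 cd2q2b pd1 2 false true true .dn 1 1 2 (qsf 536870912 536870912 1239849684 370763052 1) ndB2q1 ndB2q2b pcB1 Cut.none Ext.none)

def k0_pp_112_b : ∃ t, chk3 f_pp_112_b t 1 1 1 = true :=
  ⟨(a (a (b (a (b (a (b (l 3) (l 3)) (b (a (l 16608976) (l 16623472)) (l 148880989463))) (a (l 3) (l 190219973863))) (b (a (b (l 16651216) (l 16674136)) (b (l 16694136) (l 16715656))) (a (b (a (l 16670064) (l 16692176)) (l 16687760)) (b (l 16725552) (l 16736648))))) (a (l 3) (b (a (b (l 162302752679) (l 197199251671)) (b (l 16751216) (l 190757039143))) (a (l 3) (b (l 191830793815) (l 187535761095)))))) (b (a (b (a (l 16743624) (b (l 16760088) (l 16773520))) (a (l 16814744) (l 16801824))) (b (l 267932342439) (l 16808024))) (a (a (b (l 16821048) (b (l 16870232) (l 16874056))) (b (l 16874760) (l 16982328)))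 (b (l 16911472) (a (l 17057352) (l 17099224)))))) (b (a (b (l 1) (a (l 16761560) (l 16690112))) (l 1)) (a (b (a (l 16873888) (l 16758880)) (a (l 17107456) (l 17006016))) (b (l 236256849783) (l 16689696))))), by decide +kernel⟩

theorem c_pp_112_b : CertB 536870912 536870912 1239849684 370763052 536870912 50465866 3 eng mog cd2q1 cd2q2b pd1 false true true .dn 1 1 2
    ndB2q1 ndB2q2b pcB1 Cut.none Ext.none :=
  certB2 (fam := false) (s1 := true) (s2 := true) (a := 1) (b := 1) (c := 2) (cn := .dn) (n1 := ndB2q1) (n2 := ndB2q2b) (pc := pcB1) (cut := Cut.none) (xt := Ext.none) (P1 := 536870912) (W1 := 536870912) (P2 := 1239849684) (W2 := 370763052) (P3 := 536870912) (W3 := 50465866) (N0 := 3) (En := eng) (mo := mog) (C1 := cd2q1) (C2 := cd2q2b) (C3 := pd1)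
    rfl (fun _ => rfl) k0_pp_112_b

noncomputable def f_pp_113 : ℕ → ℕ → ℕ → ℕ → Bool := onCell 536870912 536870912 536870912 536870912 536870912 50465866
    (rowB 3 eng mog cd2q1 cd2q3 pd1 1 false true true .nn 1 1 3 (qsf 536870912 536870912 1610612736 536870912 1) ndB2q1 ndB2q3 pcB1 Cut.none Ext.none)

def k0_pp_113 : ∃ t, chk3 f_pp_113 t 1 1 1 = true :=
  ⟨(b (b (a (l 1) (a (a (l 1) (a (l 1) (a (l 1) (l 3)))) (l 3))) (a (b (l 1) (a (l 1) (l 288333543991))) (b (a (b (a (l 1) (l 16845112)) (l 16942264)) (b (a (l 279340797847) (l 3)) (a (l 16887160) (l 301352600935)))) (a (b (l 17023360) (l 17070832)) (b (a (l 16949752) (l 16907536)) (a (l 16991304) (l 16942400))))))) (b (a (a (l 230351184775) (l 166463888791)) (b (a (l 17133016) (b (l 16964848) (l 16953248))) (l 17298880))) (a (a (l 175590087591) (a (l 17161112) (l 17186792))) (a (l 17129160) (l 16963624))))), by decide +kernel⟩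

theorem c_pp_113 : CertB 536870912 536870912 1610612736 536870912 536870912 50465866 3 eng mog cd2q1 cd2q3 pd1 false true true .nn 1 1 3
    ndB2q1 ndB2q3 pcB1 Cut.none Ext.none :=
  certB1 (fam := false) (s1 := true) (s2 := true) (a := 1) (b := 1) (c := 3) (cn := .nn) (n1 := ndB2q1) (n2 := ndB2q3) (pc := pcB1) (cut := Cut.none) (xt := Ext.none) (P1 := 536870912) (W1 := 536870912) (P2 := 1610612736) (W2 := 536870912) (P3 := 536870912) (W3 := 50465866) (N0 := 3) (En := eng) (mo := mog) (C1 := cd2q1) (C2 := cd2q3) (C3 := pd1)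
    rfl (fun _ => rfl) k0_pp_113

noncomputable def f_pp_123 : ℕ → ℕ → ℕ → ℕ → Bool := onCell 1073741824 536870912 1610612736 536870912 536870912 50465866
    (rowB 3 eng mog cd2q1 cd2q3 pd2 2 false true true .npn 1 2 3 (qsf 536870912 536870912 1610612736 536870912 2) ndB2q1 ndB2q3 pcB2 Cut.none Ext.none)

def k0_pp_123 : ∃ t, chk3 f_pp_123 t 1 1 1 = true :=
  ⟨(a (b (a (b (l 16623312) (b (l 16888704) (l 16976040))) (b (l 281890552727) (a (l 16710336) (l 16618112)))) (a (b (l 16971400) (l 16842408)) (b (l 16808008) (l 16811344)))) (a (b (b (l 1) (l 16561256)) (b (l 16702648) (l 16754224))) (b (l 1) (b (l 16761120) (l 16733480))))), by decide +kernel⟩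

theorem c_pp_123 : CertB 536870912 536870912 1610612736 536870912 536870912 50465866 3 eng mog cd2q1 cd2q3 pd2 false true true .npn 1 2 3
    ndB2q1 ndB2q3 pcB2 Cut.none Ext.none :=
  certB2 (fam := false) (s1 := true) (s2 := true) (a := 1) (b := 2) (c := 3) (cn := .npn) (n1 := ndB2q1) (n2 := ndB2q3) (pc := pcB2) (cut := Cut.none) (xt := Ext.none) (P1 := 536870912) (W1 := 536870912) (P2 := 1610612736) (W2 := 536870912) (P3 := 536870912) (W3 := 50465866) (N0 := 3) (En := eng) (mo := mog) (C1 := cd2q1) (C2 := cd2q3) (C3 := pd2)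
    rfl (fun _ => rfl) k0_pp_123

noncomputable def f_pp_133 : ℕ → ℕ → ℕ → ℕ → Bool := onCell 1610612736 536870912 1610612736 536870912 536870912 50465866
    (rowB 3 eng mog cd2q1 cd2q3 pd3 2 false true true .dn 1 3 3 (qsf 536870912 536870912 1610612736 536870912 3) ndB2q1 ndB2q3 pcB3 Cut.none Ext.none)

def k0_pp_133 : ∃ t, chk3 f_pp_133 t 1 1 1 = true :=
  ⟨(a (b (l 1) (a (a (l 16711544) (l 1)) (l 1))) (l 1)), by decide +kernel⟩

theorem c_pp_133 : CertB 536870912 536870912 1610612736 536870912 536870912 50465866 3 eng mog cd2q1 cd2q3 pd3 false true true .dn 1 3 3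
    ndB2q1 ndB2q3 pcB3 Cut.none Ext.none :=
  certB2 (fam := false) (s1 := true) (s2 := true) (a := 1) (b := 3) (c := 3) (cn := .dn) (n1 := ndB2q1) (n2 := ndB2q3) (pc := pcB3) (cut := Cut.none) (xt := Ext.none) (P1 := 536870912) (W1 := 536870912) (P2 := 1610612736) (W2 := 536870912) (P3 := 536870912) (W3 := 50465866) (N0 := 3) (En := eng) (mo := mog) (C1 := cd2q1) (C2 := cd2q3) (C3 := pd3)
    rfl (fun _ => rfl) k0_pp_133

noncomputable def f_pp_202_aa : ℕ → ℕ → ℕ → ℕ → Bool := onCell 0 536870912 0 536870912 536870912 50465866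
    (rowB 3 eng mog cd2q2a cd2q2a pd0 0 false true true .pp 2 0 2 (qsf 0 536870912 0 536870912 0) ndB2q2a ndB2q2a pcB0 Cut.none Ext.none)

def k0_pp_202_aa : ∃ t, chk3 f_pp_202_aa t 1 1 1 = true :=
  ⟨(l 3), by decide +kernel⟩

theorem c_pp_202_aa : CertB 0 536870912 0 536870912 536870912 50465866 3 eng mog cd2q2a cd2q2a pd0 false true true .pp 2 0 2
    ndB2q2a ndB2q2a pcB0 Cut.none Ext.none :=
  certB0 (fam := false) (s1 := true) (s2 := true) (a := 2) (b := 0) (c := 2) (cn := .pp) (n1 := ndB2q2a) (n2 := ndB2q2a) (pc := pcB0) (cut := Cut.none) (xt := Ext.none) (P1 := 0) (W1 := 536870912) (P2 := 0) (W2 := 536870912) (P3 := 536870912) (W3 := 50465866) (N0 := 3) (En := eng) (mo := mog) (C1 := cd2q2a) (C2 := cd2q2a) (C3 := pd0)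
    rfl k0_pp_202_aa

noncomputable def f_pp_202_ab : ℕ → ℕ → ℕ → ℕ → Bool := onCell 0 536870912 1239849684 370763052 536870912 50465866
    (rowB 3 eng mog cd2q2a cd2q2b pd0 0 false true true .pp 2 0 2 (qsf 0 536870912 1239849684 370763052 0) ndB2q2a ndB2q2b pcB0 Cut.none Ext.none)

def k0_pp_202_ab : ∃ t, chk3 f_pp_202_ab t 1 1 1 = true :=
  ⟨(l 3), by decide +kernel⟩

theorem c_pp_202_ab : CertB 0 536870912 1239849684 370763052 536870912 50465866 3 eng mog cd2q2a cd2q2b pd0 false true true .pp 2 0 2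
    ndB2q2a ndB2q2b pcB0 Cut.none Ext.none :=
  certB0 (fam := false) (s1 := true) (s2 := true) (a := 2) (b := 0) (c := 2) (cn := .pp) (n1 := ndB2q2a) (n2 := ndB2q2b) (pc := pcB0) (cut := Cut.none) (xt := Ext.none) (P1 := 0) (W1 := 536870912) (P2 := 1239849684) (W2 := 370763052) (P3 := 536870912) (W3 := 50465866) (N0 := 3) (En := eng) (mo := mog) (C1 := cd2q2a) (C2 := cd2q2b) (C3 := pd0)
    rfl k0_pp_202_ab

noncomputable def f_pp_202_ba : ℕ → ℕ → ℕ → ℕ → Bool := onCell 1239849684 370763052 0 536870912 536870912 50465866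
    (rowB 3 eng mog cd2q2b cd2q2a pd0 0 false true true .pp 2 0 2 (qsf 1239849684 370763052 0 536870912 0) ndB2q2b ndB2q2a pcB0 Cut.none Ext.none)

def k0_pp_202_ba : ∃ t, chk3 f_pp_202_ba t 1 1 1 = true :=
  ⟨(l 3), by decide +kernel⟩

theorem c_pp_202_ba : CertB 1239849684 370763052 0 536870912 536870912 50465866 3 eng mog cd2q2b cd2q2a pd0 false true true .pp 2 0 2
    ndB2q2b ndB2q2a pcB0 Cut.none Ext.none :=
  certB0 (fam := false) (s1 := true) (s2 := true) (a := 2) (b := 0) (c := 2) (cn := .pp) (n1 := ndB2q2b) (n2 := ndB2q2a) (pc := pcB0) (cut := Cut.none) (xt := Ext.none) (P1 := 1239849684) (W1 := 370763052) (P2 := 0) (W2 := 536870912) (P3 := 536870912) (W3 := 50465866) (N0 := 3) (En := eng) (mo := mog) (C1 := cd2q2b) (C2 := cd2q2a) (C3 := pd0)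
    rfl k0_pp_202_ba

noncomputable def f_pp_202_bb : ℕ → ℕ → ℕ → ℕ → Bool := onCell 1239849684 370763052 1239849684 370763052 536870912 50465866
    (rowB 3 eng mog cd2q2b cd2q2b pd0 0 false true true .pp 2 0 2 (qsf 1239849684 370763052 1239849684 370763052 0) ndB2q2b ndB2q2b pcB0 Cut.none Ext.none)

def k0_pp_202_bb : ∃ t, chk3 f_pp_202_bb t 1 1 1 = true :=
  ⟨(l 3), by decide +kernel⟩

theorem c_pp_202_bb : CertB 1239849684 370763052 1239849684 370763052 536870912 50465866 3 eng mog cd2q2b cd2q2b pd0 false true true .pp 2 0 2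
    ndB2q2b ndB2q2b pcB0 Cut.none Ext.none :=
  certB0 (fam := false) (s1 := true) (s2 := true) (a := 2) (b := 0) (c := 2) (cn := .pp) (n1 := ndB2q2b) (n2 := ndB2q2b) (pc := pcB0) (cut := Cut.none) (xt := Ext.none) (P1 := 1239849684) (W1 := 370763052) (P2 := 1239849684) (W2 := 370763052) (P3 := 536870912) (W3 := 50465866) (N0 := 3) (En := eng) (mo := mog) (C1 := cd2q2b) (C2 := cd2q2b) (C3 := pd0)
    rfl k0_pp_202_bb

noncomputable def f_pp_203_a : ℕ → ℕ → ℕ → ℕ → Bool := onCell 0 536870912 0 536870912 536870912 50465866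
    (rowB 3 eng mog cd2q2a cd2q3 pd0 1 false true true .up 2 0 3 (qsf 0 536870912 1610612736 536870912 0) ndB2q2a ndB2q3 pcB0 Cut.none Ext.none)

def k0_pp_203_a : ∃ t, chk3 f_pp_203_a t 1 1 1 = true :=
  ⟨(l 3), by decide +kernel⟩

theorem c_pp_203_a : CertB 0 536870912 1610612736 536870912 536870912 50465866 3 eng mog cd2q2a cd2q3 pd0 false true true .up 2 0 3
    ndB2q2a ndB2q3 pcB0 Cut.none Ext.none :=
  certB1 (fam := false) (s1 := true) (s2 := true) (a := 2) (b := 0) (c := 3) (cn := .up) (n1 := ndB2q2a) (n2 := ndB2q3) (pc := pcB0) (cut := Cut.none) (xt := Ext.none) (P1 := 0) (W1 := 536870912) (P2 := 1610612736) (W2 := 536870912) (P3 := 536870912) (W3 := 50465866) (N0 := 3) (En := eng) (mo := mog) (C1 := cd2q2a) (C2 := cd2q3) (C3 := pd0)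
    rfl (fun _ => rfl) k0_pp_203_a

noncomputable def f_pp_203_b : ℕ → ℕ → ℕ → ℕ → Bool := onCell 1239849684 370763052 1610612736 536870912 536870912 50465866
    (rowB 3 eng mog cd2q2b cd2q3 pd0 0 false true true .up 2 0 3 (qsf 1239849684 370763052 1610612736 536870912 0) ndB2q2b ndB2q3 pcB0 Cut.none Ext.none)

def k0_pp_203_b : ∃ t, chk3 f_pp_203_b t 1 1 1 = true :=
  ⟨(l 3), by decide +kernel⟩

theorem c_pp_203_b : CertB 1239849684 370763052 1610612736 536870912 536870912 50465866 3 eng mog cd2q2b cd2q3 pd0 false true true .up 2 0 3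
    ndB2q2b ndB2q3 pcB0 Cut.none Ext.none :=
  certB0 (fam := false) (s1 := true) (s2 := true) (a := 2) (b := 0) (c := 3) (cn := .up) (n1 := ndB2q2b) (n2 := ndB2q3) (pc := pcB0) (cut := Cut.none) (xt := Ext.none) (P1 := 1239849684) (W1 := 370763052) (P2 := 1610612736) (W2 := 536870912) (P3 := 536870912) (W3 := 50465866) (N0 := 3) (En := eng) (mo := mog) (C1 := cd2q2b) (C2 := cd2q3) (C3 := pd0)
    rfl k0_pp_203_b

noncomputable def cut_pp_213_a : Cut := Cut.of [[⟨0, 1, 0, 67108864⟩, ⟨1, 1, 0, 67108864⟩, ⟨2, 2, 0, 16777216⟩]]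

noncomputable def f_pp_213_a : ℕ → ℕ → ℕ → ℕ → Bool := onCell 0 536870912 1610612736 536870912 536870912 50465866
    (rowB 3 eng mog cd2q2a cd2q3 pd1 0 false true true .pnn 2 1 3 (qsf 0 536870912 1610612736 536870912 1) ndB2q2a ndB2q3 pcB1 cut_pp_213_a Ext.none)

def k0_pp_213_a : ∃ t, chk3 f_pp_213_a t 1 1 1 = true :=
  ⟨(b (l 3) (a (l 3) (b (l 3) (a (l 3) (b (l 3) (a (l 3) (b (l 3) (b (l 3) (b (l 3) (l 6)))))))))), by decide +kernel⟩

theorem c_pp_213_a : CertB 0 536870912 1610612736 536870912 536870912 50465866 3 eng mog cd2q2a cd2q3 pd1 false true true .pnn 2 1 3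
    ndB2q2a ndB2q3 pcB1 cut_pp_213_a Ext.none :=
  certB0 (fam := false) (s1 := true) (s2 := true) (a := 2) (b := 1) (c := 3) (cn := .pnn) (n1 := ndB2q2a) (n2 := ndB2q3) (pc := pcB1) (cut := cut_pp_213_a) (xt := Ext.none) (P1 := 0) (W1 := 536870912) (P2 := 1610612736) (W2 := 536870912) (P3 := 536870912) (W3 := 50465866) (N0 := 3) (En := eng) (mo := mog) (C1 := cd2q2a) (C2 := cd2q3) (C3 := pd1)
    rfl k0_pp_213_a

noncomputable def cut_pp_213_b : Cut := Cut.of [[⟨0, 1, 0, 67108864⟩, ⟨1, 1, 0, 67108864⟩, ⟨2, 2, 0, 16777216⟩]]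

noncomputable def f_pp_213_b : ℕ → ℕ → ℕ → ℕ → Bool := onCell 1239849684 370763052 1610612736 536870912 536870912 50465866
    (rowB 3 eng mog cd2q2b cd2q3 pd1 0 false true true .pnn 2 1 3 (qsf 1239849684 370763052 1610612736 536870912 1) ndB2q2b ndB2q3 pcB1 cut_pp_213_b Ext.none)

def k0_pp_213_b : ∃ t, chk3 f_pp_213_b t 1 1 1 = true :=
  ⟨(l 3), by decide +kernel⟩

theorem c_pp_213_b : CertB 1239849684 370763052 1610612736 536870912 536870912 50465866 3 eng mog cd2q2b cd2q3 pd1 false true true .pnn 2 1 3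
    ndB2q2b ndB2q3 pcB1 cut_pp_213_b Ext.none :=
  certB0 (fam := false) (s1 := true) (s2 := true) (a := 2) (b := 1) (c := 3) (cn := .pnn) (n1 := ndB2q2b) (n2 := ndB2q3) (pc := pcB1) (cut := cut_pp_213_b) (xt := Ext.none) (P1 := 1239849684) (W1 := 370763052) (P2 := 1610612736) (W2 := 536870912) (P3 := 536870912) (W3 := 50465866) (N0 := 3) (En := eng) (mo := mog) (C1 := cd2q2b) (C2 := cd2q3) (C3 := pd1)
    rfl k0_pp_213_b

noncomputable def f_pp_303 : ℕ → ℕ → ℕ → ℕ → Bool := onCell 1610612736 536870912 1610612736 536870912 536870912 50465866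
    (rowB 3 eng mog cd2q3 cd2q3 pd0 0 false true true .npn 3 0 3 (qsf 1610612736 536870912 1610612736 536870912 0) ndB2q3 ndB2q3 pcB0 Cut.none Ext.none)

def k0_pp_303 : ∃ t, chk3 f_pp_303 t 1 1 1 = true :=
  ⟨(l 3), by decide +kernel⟩

theorem c_pp_303 : CertB 1610612736 536870912 1610612736 536870912 536870912 50465866 3 eng mog cd2q3 cd2q3 pd0 false true true .npn 3 0 3
    ndB2q3 ndB2q3 pcB0 Cut.none Ext.none :=
  certB0 (fam := false) (s1 := true) (s2 := true) (a := 3) (b := 0) (c := 3) (cn := .npn) (n1 := ndB2q3) (n2 := ndB2q3) (pc := pcB0) (cut := Cut.none) (xt := Ext.none) (P1 := 1610612736) (W1 := 536870912) (P2 := 1610612736) (W2 := 536870912) (P3 := 536870912) (W3 := 50465866) (N0 := 3) (En := eng) (mo := mog) (C1 := cd2q3) (C2 := cd2q3) (C3 := pd0)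
    rfl k0_pp_303

noncomputable def f_pp_313 : ℕ → ℕ → ℕ → ℕ → Bool := onCell 1610612736 536870912 1610612736 536870912 536870912 50465866
    (rowB 3 eng mog cd2q3 cd2q3 pd1 0 false true true .dn 3 1 3 (qsf 1610612736 536870912 1610612736 536870912 1) ndB2q3 ndB2q3 pcB1 Cut.none Ext.none)

def k0_pp_313 : ∃ t, chk3 f_pp_313 t 1 1 1 = true :=
  ⟨(l 3), by decide +kernel⟩

theorem c_pp_313 : CertB 1610612736 536870912 1610612736 536870912 536870912 50465866 3 eng mog cd2q3 cd2q3 pd1 false true true .dn 3 1 3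
    ndB2q3 ndB2q3 pcB1 Cut.none Ext.none :=
  certB0 (fam := false) (s1 := true) (s2 := true) (a := 3) (b := 1) (c := 3) (cn := .dn) (n1 := ndB2q3) (n2 := ndB2q3) (pc := pcB1) (cut := Cut.none) (xt := Ext.none) (P1 := 1610612736) (W1 := 536870912) (P2 := 1610612736) (W2 := 536870912) (P3 := 536870912) (W3 := 50465866) (N0 := 3) (En := eng) (mo := mog) (C1 := cd2q3) (C2 := cd2q3) (C3 := pd1)
    rfl k0_pp_313

noncomputable def f_pm_001 : ℕ → ℕ → ℕ → ℕ → Bool := onCell 0 536870912 536870912 536870912 536870912 50465866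
    (rowB 3 eng mog cd2q0 cd2q1 pd0 0 false true false .up 0 0 1 (qsf 0 536870912 536870912 536870912 0) ndB2q0 ndB2q1 pcB0 Cut.none Ext.none)

def k0_pm_001 : ∃ t, chk3 f_pm_001 t 1 1 1 = true :=
  ⟨(l 4), by decide +kernel⟩

theorem c_pm_001 : CertB 0 536870912 536870912 536870912 536870912 50465866 3 eng mog cd2q0 cd2q1 pd0 false true false .up 0 0 1
    ndB2q0 ndB2q1 pcB0 Cut.none Ext.none :=
  certB0 (fam := false) (s1 := true) (s2 := false) (a := 0) (b := 0) (c := 1) (cn := .up) (n1 := ndB2q0) (n2 := ndB2q1) (pc := pcB0) (cut := Cut.none) (xt := Ext.none) (P1 := 0) (W1 := 536870912) (P2 := 536870912) (W2 := 536870912) (P3 := 536870912) (W3 := 50465866) (N0 := 3) (En := eng) (mo := mog) (C1 := cd2q0) (C2 := cd2q1) (C3 := pd0)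
    rfl k0_pm_001

noncomputable def f_pm_011 : ℕ → ℕ → ℕ → ℕ → Bool := onCell 0 536870912 536870912 536870912 536870912 50465866
    (rowB 3 eng mog cd2q0 cd2q1 pd1 0 false true false .pnn 0 1 1 (qsf 0 536870912 536870912 536870912 1) ndB2q0 ndB2q1 pcB1 Cut.none Ext.none)

def k0_pm_011 : ∃ t, chk3 f_pm_011 t 1 1 1 = true :=
  ⟨(l 4), by decide +kernel⟩

theorem c_pm_011 : CertB 0 536870912 536870912 536870912 536870912 50465866 3 eng mog cd2q0 cd2q1 pd1 false true false .pnn 0 1 1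
    ndB2q0 ndB2q1 pcB1 Cut.none Ext.none :=
  certB0 (fam := false) (s1 := true) (s2 := false) (a := 0) (b := 1) (c := 1) (cn := .pnn) (n1 := ndB2q0) (n2 := ndB2q1) (pc := pcB1) (cut := Cut.none) (xt := Ext.none) (P1 := 0) (W1 := 536870912) (P2 := 536870912) (W2 := 536870912) (P3 := 536870912) (W3 := 50465866) (N0 := 3) (En := eng) (mo := mog) (C1 := cd2q0) (C2 := cd2q1) (C3 := pd1)
    rfl k0_pm_011

noncomputable def cut_pm_012_a : Cut := Cut.of [[⟨0, 0, 0, 67108864⟩, ⟨1, 1, 0, 67108864⟩, ⟨2, 1, 0, 67108864⟩]]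

noncomputable def f_pm_012_a : ℕ → ℕ → ℕ → ℕ → Bool := onCell 536870912 536870912 0 536870912 536870912 50465866
    (rowB 3 eng mog cd2q0 cd2q2a pd1 2 false true false .pnp 0 1 2 (qsf 0 536870912 0 536870912 1) ndB2q0 ndB2q2a pcB1 cut_pm_012_a Ext.none)

def k0_pm_012_a : ∃ t, chk3 f_pm_012_a t 1 1 1 = true :=
  ⟨(a (a (b (a (l 2) (b (l 2) (l 16590184))) (a (b (l 2) (b (l 16538072) (a (l 16419048) (l 16434840)))) (b (b (l 16539384) (l 16502560)) (b (l 16471752) (l 16457848))))) (b (a (b (l 16607336) (l 16571936)) (b (l 16575072) (l 16545872))) (b (a (b (l 16532280) (l 16505848)) (l 16613544)) (a (b (l 16487840) (a (l 16480816) (l 16495376))) (b (l 16495872) (b (l 16506464) (l 16522880))))))) (b (a (b (a (l 16536936) (l 16495304)) (a (l 16514744) (b (l 16489432) (l 16483544)))) (b (a (l 16464072) (b (l 16439760) (l 16437776))) (a (b (l 16464976) (l 16468280)) (a (l 16495784) (b (l 16440936) (l 16455640)))))) (a (b (a (b (l 16496344) (l 16494136))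 (b (l 16484336) (a (l 16496448) (l 16500112)))) (b (a (a (l 16503352) (l 16513344)) (a (l 16545416) (l 16536384))) (a (b (l 16536240) (l 16585680)) (b (a (l 16562888) (l 16580872)) (a (l 16597888) (l 16620536)))))) (b (a (b (l 16480744) (a (l 16505112) (l 16511560))) (a (b (l 16481120) (l 16540896)) (b (l 16483744) (a (l 16527472) (l 16533112))))) (b (a (a (l 16675384) (b (l 16547944) (l 16581272))) (a (b (l 16562768) (a (l 16595400) (l 16605456))) (a (b (l 16575120) (l 16616000)) (b (l 16584016) (a (l 16624256) (l 16629936)))))) (a (b (a (b (l 16590440) (l 16610520)) (b (l 16610856) (l 16633176))) (a (b (l 16632712) (l 16656808)) (b (l 16657512) (a (l 16676920) (l 16690912))))) (b (a (a (b (l 16627432) (l 16672344)) (b (l 16639096) (a (l 16660864) (l 16667456)))) (a (b (l 16651320) (l 6)) (l 6))) (a (b (a (l 16677360) (a (l 16687728) (l 6))) (a (l 16747360) (l 6))) (l 6))))))))), by decide +kernel⟩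

theorem c_pm_012_a : CertB 0 536870912 0 536870912 536870912 50465866 3 eng mog cd2q0 cd2q2a pd1 false true false .pnp 0 1 2
    ndB2q0 ndB2q2a pcB1 cut_pm_012_a Ext.none :=
  certB2 (fam := false) (s1 := true) (s2 := false) (a := 0) (b := 1) (c := 2) (cn := .pnp) (n1 := ndB2q0) (n2 := ndB2q2a) (pc := pcB1) (cut := cut_pm_012_a) (xt := Ext.none) (P1 := 0) (W1 := 536870912) (P2 := 0) (W2 := 536870912) (P3 := 536870912) (W3 := 50465866) (N0 := 3) (En := eng) (mo := mog) (C1 := cd2q0) (C2 := cd2q2a) (C3 := pd1)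
    rfl (fun _ => rfl) k0_pm_012_a

noncomputable def cut_pm_012_b : Cut := Cut.of [[⟨0, 0, 0, 67108864⟩, ⟨1, 1, 0, 67108864⟩, ⟨2, 1, 0, 67108864⟩]]

noncomputable def f_pm_012_b : ℕ → ℕ → ℕ → ℕ → Bool := onCell 536870912 536870912 1239849684 370763052 536870912 50465866
    (rowB 3 eng mog cd2q0 cd2q2b pd1 2 false true false .pnp 0 1 2 (qsf 0 536870912 1239849684 370763052 1) ndB2q0 ndB2q2b pcB1 cut_pm_012_b Ext.none)

def k0_pm_012_b : ∃ t, chk3 f_pm_012_b t 1 1 1 = true :=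
  ⟨(a (b (a (l 2) (a (b (l 16649808) (l 2)) (b (l 16608296) (l 16674512)))) (l 2)) (b (a (b (a (l 16560088) (l 16502624)) (a (l 16616152) (l 16541632))) (a (b (b (l 16455328) (l 16435912)) (l 16450952)) (b (a (l 16404832) (l 16423768)) (a (l 16375600) (l 16326880))))) (a (b (l 16688232) (l 2)) (b (a (l 16540784) (l 16412872)) (l 16639232))))), by decide +kernel⟩

theorem c_pm_012_b : CertB 0 536870912 1239849684 370763052 536870912 50465866 3 eng mog cd2q0 cd2q2b pd1 false true false .pnp 0 1 2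
    ndB2q0 ndB2q2b pcB1 cut_pm_012_b Ext.none :=
  certB2 (fam := false) (s1 := true) (s2 := false) (a := 0) (b := 1) (c := 2) (cn := .pnp) (n1 := ndB2q0) (n2 := ndB2q2b) (pc := pcB1) (cut := cut_pm_012_b) (xt := Ext.none) (P1 := 0) (W1 := 536870912) (P2 := 1239849684) (W2 := 370763052) (P3 := 536870912) (W3 := 50465866) (N0 := 3) (En := eng) (mo := mog) (C1 := cd2q0) (C2 := cd2q2b) (C3 := pd1)
    rfl (fun _ => rfl) k0_pm_012_b

noncomputable def cut_pm_022_a : Cut := Cut.of [[⟨0, 0, 0, 67108864⟩, ⟨1, 1, 0, 67108864⟩, ⟨2, 1, 0, 67108864⟩]]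

noncomputable def f_pm_022_a : ℕ → ℕ → ℕ → ℕ → Bool := onCell 0 536870912 0 536870912 536870912 50465866
    (rowB 3 eng mog cd2q0 cd2q2a pd2 0 false true false .pp 0 2 2 (qsf 0 536870912 0 536870912 2) ndB2q0 ndB2q2a pcB2 cut_pm_022_a Ext.none)

def k0_pm_022_a : ∃ t, chk3 f_pm_022_a t 1 1 1 = true :=
  ⟨(a (b (a (a (b (a (b (l 16455280) (l 16497160)) (b (l 16456520) (l 16464184))) (a (b (a (l 16491272) (l 16547768)) (b (l 16503808) (l 16529232))) (b (l 16522392) (b (l 16495320) (l 16507736))))) (b (b (l 16449496) (l 16473504)) (b (a (l 16469944) (l 16454664)) (a (l 16486344) (l 16465968))))) (a (a (b (l 16432152) (b (l 16435024) (l 16440984))) (b (l 16414936) (l 1))) (l 1))) (a (b (a (a (b (a (b (l 16538608) (l 16559432)) (b (l 16533264) (l 16552560))) (a (b (l 16625032) (a (l 16633112) (l 16607280))) (b (l 16574536) (b (l 16592720) (l 16605832))))) (b (b (l 16522360) (l 16539304)) (b (l 16579648) (a (l 16587240) (l 16573568))))) (b (a (l 16572648)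 (l 16566984)) (a (b (l 16532208) (a (l 16558352) (l 16541656))) (b (l 16500096) (l 1))))) (a (a (b (b (a (a (b (l 16634544) (l 16668784)) (l 16657480)) (l 16637504)) (l 6)) (l 6)) (a (b (b (l 16633840) (l 6)) (l 6)) (b (b (l 16618048) (b (l 16616304) (l 16629976))) (l 1)))) (b (a (b (a (l 16600672) (l 1)) (l 1)) (l 1)) (l 1)))) (b (l 1) (l 1)))) (l 1)), by decide +kernel⟩

theorem c_pm_022_a : CertB 0 536870912 0 536870912 536870912 50465866 3 eng mog cd2q0 cd2q2a pd2 false true false .pp 0 2 2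
    ndB2q0 ndB2q2a pcB2 cut_pm_022_a Ext.none :=
  certB0 (fam := false) (s1 := true) (s2 := false) (a := 0) (b := 2) (c := 2) (cn := .pp) (n1 := ndB2q0) (n2 := ndB2q2a) (pc := pcB2) (cut := cut_pm_022_a) (xt := Ext.none) (P1 := 0) (W1 := 536870912) (P2 := 0) (W2 := 536870912) (P3 := 536870912) (W3 := 50465866) (N0 := 3) (En := eng) (mo := mog) (C1 := cd2q0) (C2 := cd2q2a) (C3 := pd2)
    rfl k0_pm_022_a

noncomputable def cut_pm_022_b : Cut := Cut.of [[⟨0, 0, 0, 67108864⟩, ⟨1, 1, 0, 67108864⟩, ⟨2, 1, 0, 67108864⟩]]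

noncomputable def f_pm_022_b : ℕ → ℕ → ℕ → ℕ → Bool := onCell 0 536870912 1073741824 536870912 536870912 50465866
    (rowB 3 eng mog cd2q0 cd2q2b pd2 1 false true false .pp 0 2 2 (qsf 0 536870912 1239849684 370763052 2) ndB2q0 ndB2q2b pcB2 cut_pm_022_b Ext.none)

def k0_pm_022_b : ∃ t, chk3 f_pm_022_b t 1 1 1 = true :=
  ⟨(a (b (b (a (a (b (l 1) (a (b (l 1) (l 453688948775)) (b (l 218002831559) (l 16453592)))) (b (b (a (l 1) (l 16512704)) (l 135861428343)) (b (l 16488280) (l 16379936)))) (b (a (b (l 16409672) (l 16373808)) (l 16321232)) (a (l 16323288) (l 16277744)))) (a (b (a (a (b (l 57478336199) (l 16475096)) (b (l 16421136) (l 16409672))) (b (l 16336128) (l 16292192))) (a (a (l 16417456) (l 16253912)) (l 16384304))) (b (a (l 16364048) (l 16235896)) (l 16353784)))) (b (a (b (a (a (l 16257104) (l 16114616)) (l 16102120)) (a (a (l 16176096) (l 16038408)) (l 15968336))) (b (l 16115256) (l 16028712))) (a (b (a (l 16154000) (l 15860696)) (a (b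 (l 15954680) (l 15931448)) (l 16036976))) (b (l 16142448) (l 2))))) (b (b (a (b (a (l 16287768) (l 16313232)) (l 16283888)) (a (l 16402024) (l 16532664))) (a (b (l 16271152) (l 16255184)) (b (l 16498336) (l 2)))) (b (a (b (l 16238408) (l 2)) (l 2)) (l 2)))), by decide +kernel⟩

theorem c_pm_022_b : CertB 0 536870912 1239849684 370763052 536870912 50465866 3 eng mog cd2q0 cd2q2b pd2 false true false .pp 0 2 2
    ndB2q0 ndB2q2b pcB2 cut_pm_022_b Ext.none :=
  certB1 (fam := false) (s1 := true) (s2 := false) (a := 0) (b := 2) (c := 2) (cn := .pp) (n1 := ndB2q0) (n2 := ndB2q2b) (pc := pcB2) (cut := cut_pm_022_b) (xt := Ext.none) (P1 := 0) (W1 := 536870912) (P2 := 1239849684) (W2 := 370763052) (P3 := 536870912) (W3 := 50465866) (N0 := 3) (En := eng) (mo := mog) (C1 := cd2q0) (C2 := cd2q2b) (C3 := pd2)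
    rfl (fun _ => rfl) k0_pm_022_b

noncomputable def f_pm_023 : ℕ → ℕ → ℕ → ℕ → Bool := onCell 0 536870912 1073741824 536870912 536870912 50465866
    (rowB 3 eng mog cd2q0 cd2q3 pd2 1 false true false .up 0 2 3 (qsf 0 536870912 1610612736 536870912 2) ndB2q0 ndB2q3 pcB2 Cut.none Ext.none)

def k0_pm_023 : ∃ t, chk3 f_pm_023 t 1 1 1 = true :=
  ⟨(a (b (b (l 1) (a (l 1) (b (l 1) (l 307123036023)))) (b (a (b (l 1) (l 422549809479)) (b (l 16096568) (l 15988216))) (a (b (l 437581825911) (l 464425744071)) (b (l 16156152) (l 4))))) (b (b (a (l 243235623799) (l 280816745943)) (b (a (l 16337480) (l 16460960)) (a (l 16222800) (l 16540432)))) (b (a (b (l 16222992) (l 16395368)) (l 16632512)) (b (l 16734480) (a (l 16608312) (l 16716792)))))), by decide +kernel⟩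

theorem c_pm_023 : CertB 0 536870912 1610612736 536870912 536870912 50465866 3 eng mog cd2q0 cd2q3 pd2 false true false .up 0 2 3
    ndB2q0 ndB2q3 pcB2 Cut.none Ext.none :=
  certB1 (fam := false) (s1 := true) (s2 := false) (a := 0) (b := 2) (c := 3) (cn := .up) (n1 := ndB2q0) (n2 := ndB2q3) (pc := pcB2) (cut := Cut.none) (xt := Ext.none) (P1 := 0) (W1 := 536870912) (P2 := 1610612736) (W2 := 536870912) (P3 := 536870912) (W3 := 50465866) (N0 := 3) (En := eng) (mo := mog) (C1 := cd2q0) (C2 := cd2q3) (C3 := pd2)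
    rfl (fun _ => rfl) k0_pm_023

noncomputable def f_pm_033 : ℕ → ℕ → ℕ → ℕ → Bool := onCell 0 536870912 1610612736 536870912 536870912 50465866
    (rowB 3 eng mog cd2q0 cd2q3 pd3 1 false true false .pnn 0 3 3 (qsf 0 536870912 1610612736 536870912 3) ndB2q0 ndB2q3 pcB3 Cut.none Ext.none)

def k0_pm_033 : ∃ t, chk3 f_pm_033 t 1 1 1 = true :=
  ⟨(a (b (b (l 4) (l 4)) (b (l 4) (a (l 4) (a (b (l 4) (l 2)) (l 2))))) (b (b (b (l 619247423831) (l 16765584)) (a (l 4) (a (b (l 4) (l 2)) (l 2)))) (a (b (a (b (l 4) (l 2)) (l 2)) (l 2)) (l 2)))), by decide +kernel⟩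

theorem c_pm_033 : CertB 0 536870912 1610612736 536870912 536870912 50465866 3 eng mog cd2q0 cd2q3 pd3 false true false .pnn 0 3 3
    ndB2q0 ndB2q3 pcB3 Cut.none Ext.none :=
  certB1 (fam := false) (s1 := true) (s2 := false) (a := 0) (b := 3) (c := 3) (cn := .pnn) (n1 := ndB2q0) (n2 := ndB2q3) (pc := pcB3) (cut := Cut.none) (xt := Ext.none) (P1 := 0) (W1 := 536870912) (P2 := 1610612736) (W2 := 536870912) (P3 := 536870912) (W3 := 50465866) (N0 := 3) (En := eng) (mo := mog) (C1 := cd2q0) (C2 := cd2q3) (C3 := pd3)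
    rfl (fun _ => rfl) k0_pm_033

noncomputable def f_pm_101 : ℕ → ℕ → ℕ → ℕ → Bool := onCell 536870912 536870912 536870912 536870912 536870912 50465866
    (rowB 3 eng mog cd2q1 cd2q1 pd0 0 false true false .npn 1 0 1 (qsf 536870912 536870912 536870912 536870912 0) ndB2q1 ndB2q1 pcB0 Cut.none Ext.none)

def k0_pm_101 : ∃ t, chk3 f_pm_101 t 1 1 1 = true :=
  ⟨(l 4), by decide +kernel⟩

theorem c_pm_101 : CertB 536870912 536870912 536870912 536870912 536870912 50465866 3 eng mog cd2q1 cd2q1 pd0 false true false .npn 1 0 1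
    ndB2q1 ndB2q1 pcB0 Cut.none Ext.none :=
  certB0 (fam := false) (s1 := true) (s2 := false) (a := 1) (b := 0) (c := 1) (cn := .npn) (n1 := ndB2q1) (n2 := ndB2q1) (pc := pcB0) (cut := Cut.none) (xt := Ext.none) (P1 := 536870912) (W1 := 536870912) (P2 := 536870912) (W2 := 536870912) (P3 := 536870912) (W3 := 50465866) (N0 := 3) (En := eng) (mo := mog) (C1 := cd2q1) (C2 := cd2q1) (C3 := pd0)
    rfl k0_pm_101

noncomputable def f_pm_102_a : ℕ → ℕ → ℕ → ℕ → Bool := onCell 536870912 536870912 0 536870912 536870912 50465866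
    (rowB 3 eng mog cd2q1 cd2q2a pd0 0 false true false .npp 1 0 2 (qsf 536870912 536870912 0 536870912 0) ndB2q1 ndB2q2a pcB0 Cut.none Ext.none)

def k0_pm_102_a : ∃ t, chk3 f_pm_102_a t 1 1 1 = true :=
  ⟨(a (b (a (b (l 2) (a (l 2) (b (l 2) (l 16645960)))) (b (a (b (l 16745944) (l 16734952)) (l 16944400)) (a (b (l 16721440) (l 16927344)) (a (l 16729960) (l 16740592))))) (a (b (a (l 2) (a (b (l 2) (l 16551184)) (b (l 16622792) (l 16681272)))) (b (a (b (l 16590448) (l 16523424)) (a (l 16601808) (b (l 16535344) (l 16507240)))) (a (b (l 16478608) (a (l 16411648) (l 16414960))) (b (a (l 16455376) (l 16478840)) (l 16627856))))) (b (a (b (a (l 16650536) (l 16674152)) (a (l 16667816) (l 16672320))) (b (l 16697632) (l 16655088))) (a (b (a (l 16549512) (l 16574472)) (a (l 16487120) (l 16506064))) (b (b (l 16611472) (l 16576816)) (b (l 16683584) (a (l 16486280) (l 16495648)))))))) (b (a (b (a (l 16941888) (b (a (l 16725960) (l 16699512)) (l 16852928)))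 (a (l 16751440) (b (l 16780504) (l 16747712)))) (b (a (b (l 16660080) (l 16677832)) (b (a (l 16613616) (l 16580160)) (a (l 16632008) (l 16597880)))) (a (b (l 16698776) (l 16721096)) (a (l 16671832) (b (l 16621920) (l 16649656)))))) (a (b (a (b (l 16728920) (a (l 16683520) (l 16703032))) (b (l 16745640) (l 16724992))) (b (a (a (l 16642488) (l 16643816)) (l 16676896)) (a (b (l 16572344) (l 16524280)) (b (l 16621080) (a (l 16557168) (l 16581848)))))) (b (a (b (l 16735712) (b (l 16737944) (l 16733080))) (b (a (l 16707672) (l 16675816)) (a (l 16722904) (l 16885880)))) (a (b (a (l 16705680) (l 16719224)) (b (a (l 16660008) (l 16685384)) (a (l 16609560) (l 16640560)))) (b (a (l 16723472) (b (l 16708472) (l 16711752))) (a (b (l 16705992) (b (l 16684168) (l 16658736))) (b (a (l 16712176) (l 16706744)) (a (b (l 16701904) (l 16686016)) (b (l 16702552) (l 16700640))))))))))), by decide +kernel⟩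

theorem c_pm_102_a : CertB 536870912 536870912 0 536870912 536870912 50465866 3 eng mog cd2q1 cd2q2a pd0 false true false .npp 1 0 2
    ndB2q1 ndB2q2a pcB0 Cut.none Ext.none :=
  certB0 (fam := false) (s1 := true) (s2 := false) (a := 1) (b := 0) (c := 2) (cn := .npp) (n1 := ndB2q1) (n2 := ndB2q2a) (pc := pcB0) (cut := Cut.none) (xt := Ext.none) (P1 := 536870912) (W1 := 536870912) (P2 := 0) (W2 := 536870912) (P3 := 536870912) (W3 := 50465866) (N0 := 3) (En := eng) (mo := mog) (C1 := cd2q1) (C2 := cd2q2a) (C3 := pd0)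
    rfl k0_pm_102_a

noncomputable def f_pm_102_b : ℕ → ℕ → ℕ → ℕ → Bool := onCell 536870912 536870912 1239849684 370763052 536870912 50465866
    (rowB 3 eng mog cd2q1 cd2q2b pd0 0 false true false .npp 1 0 2 (qsf 536870912 536870912 1239849684 370763052 0) ndB2q1 ndB2q2b pcB0 Cut.none Ext.none)

def k0_pm_102_b : ∃ t, chk3 f_pm_102_b t 1 1 1 = true :=
  ⟨(a (b (a (l 2) (b (a (l 16767992) (l 16768016)) (a (l 2) (l 16809744)))) (l 2)) (b (a (b (a (l 16746472) (b (l 16782424) (l 16691576))) (a (l 16774640) (l 16705200))) (b (a (b (a (l 16647416) (l 16614640)) (a (l 16626504) (l 16580808))) (a (b (l 16580944) (l 16539128)) (b (l 16545936) (l 16499952)))) (a (l 16705752) (a (b (l 16512808) (l 16509648)) (b (l 16462600) (l 16445480)))))) (a (b (a (l 2) (l 16768280)) (l 2)) (a (b (l 16646264) (l 16747368)) (b (a (l 16532384) (l 16457488)) (l 16570456)))))), by decide +kernel⟩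

theorem c_pm_102_b : CertB 536870912 536870912 1239849684 370763052 536870912 50465866 3 eng mog cd2q1 cd2q2b pd0 false true false .npp 1 0 2
    ndB2q1 ndB2q2b pcB0 Cut.none Ext.none :=
  certB0 (fam := false) (s1 := true) (s2 := false) (a := 1) (b := 0) (c := 2) (cn := .npp) (n1 := ndB2q1) (n2 := ndB2q2b) (pc := pcB0) (cut := Cut.none) (xt := Ext.none) (P1 := 536870912) (W1 := 536870912) (P2 := 1239849684) (W2 := 370763052) (P3 := 536870912) (W3 := 50465866) (N0 := 3) (En := eng) (mo := mog) (C1 := cd2q1) (C2 := cd2q2b) (C3 := pd0)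
    rfl k0_pm_102_b

noncomputable def f_pm_112_a : ℕ → ℕ → ℕ → ℕ → Bool := onCell 536870912 536870912 0 536870912 536870912 50465866
    (rowB 3 eng mog cd2q1 cd2q2a pd1 2 false true false .dn 1 1 2 (qsf 536870912 536870912 0 536870912 1) ndB2q1 ndB2q2a pcB1 Cut.none Ext.none)

def k0_pm_112_a : ∃ t, chk3 f_pm_112_a t 1 1 1 = true :=
  ⟨(a (a (b (b (a (l 16720480) (l 16663336)) (a (l 16666144) (l 16612184))) (a (b (a (l 16577176) (l 16553760)) (b (l 16559456) (a (l 16432192) (l 16439048)))) (b (b (l 16552088) (l 16508752)) (b (l 16474704) (l 1))))) (b (a (b (l 16612696) (l 16574856)) (l 1)) (b (l 1) (l 1)))) (l 1)), by decide +kernel⟩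

theorem c_pm_112_a : CertB 536870912 536870912 0 536870912 536870912 50465866 3 eng mog cd2q1 cd2q2a pd1 false true false .dn 1 1 2
    ndB2q1 ndB2q2a pcB1 Cut.none Ext.none :=
  certB2 (fam := false) (s1 := true) (s2 := false) (a := 1) (b := 1) (c := 2) (cn := .dn) (n1 := ndB2q1) (n2 := ndB2q2a) (pc := pcB1) (cut := Cut.none) (xt := Ext.none) (P1 := 536870912) (W1 := 536870912) (P2 := 0) (W2 := 536870912) (P3 := 536870912) (W3 := 50465866) (N0 := 3) (En := eng) (mo := mog) (C1 := cd2q1) (C2 := cd2q2a) (C3 := pd1)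
    rfl (fun _ => rfl) k0_pm_112_a

noncomputable def f_pm_112_b : ℕ → ℕ → ℕ → ℕ → Bool := onCell 536870912 536870912 1239849684 370763052 536870912 50465866
    (rowB 3 eng mog cd2q1 cd2q2b pd1 2 false true false .dn 1 1 2 (qsf 536870912 536870912 1239849684 370763052 1) ndB2q1 ndB2q2b pcB1 Cut.none Ext.none)

def k0_pm_112_b : ∃ t, chk3 f_pm_112_b t 1 1 1 = true :=
  ⟨(a (b (a (b (a (l 16768680) (l 16734528)) (a (l 16799224) (l 16830760))) (a (b (l 16669128) (l 16798448)) (b (l 16611792) (l 16718512)))) (a (b (l 16865840) (a (l 16741208) (l 17004520))) (a (b (l 16979152) (l 17199984)) (b (l 16934824) (l 17232952))))) (b (a (b (l 1) (l 208339588199)) (l 1)) (a (b (l 16752520) (a (l 17171000) (l 17015416))) (b (l 228203622311) (l 16682752))))), by decide +kernel⟩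

theorem c_pm_112_b : CertB 536870912 536870912 1239849684 370763052 536870912 50465866 3 eng mog cd2q1 cd2q2b pd1 false true false .dn 1 1 2
    ndB2q1 ndB2q2b pcB1 Cut.none Ext.none :=
  certB2 (fam := false) (s1 := true) (s2 := false) (a := 1) (b := 1) (c := 2) (cn := .dn) (n1 := ndB2q1) (n2 := ndB2q2b) (pc := pcB1) (cut := Cut.none) (xt := Ext.none) (P1 := 536870912) (W1 := 536870912) (P2 := 1239849684) (W2 := 370763052) (P3 := 536870912) (W3 := 50465866) (N0 := 3) (En := eng) (mo := mog) (C1 := cd2q1) (C2 := cd2q2b) (C3 := pd1)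
    rfl (fun _ => rfl) k0_pm_112_b

noncomputable def f_pm_113 : ℕ → ℕ → ℕ → ℕ → Bool := onCell 536870912 536870912 536870912 536870912 536870912 50465866
    (rowB 3 eng mog cd2q1 cd2q3 pd1 1 false true false .nn 1 1 3 (qsf 536870912 536870912 1610612736 536870912 1) ndB2q1 ndB2q3 pcB1 Cut.none Ext.none)

def k0_pm_113 : ∃ t, chk3 f_pm_113 t 1 1 1 = true :=
  ⟨(a (b (b (l 1) (a (l 1) (l 224982820519))) (a (b (l 263637329159) (l 16835280)) (b (l 17240096) (l 17125544)))) (b (b (a (l 16860200) (a (l 16898632) (l 16860320))) (a (l 240553536759) (b (l 17174992) (l 17203552)))) (b (a (l 17274704) (l 17146912)) (a (l 17106952) (l 16975904))))), by decide +kernel⟩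

theorem c_pm_113 : CertB 536870912 536870912 1610612736 536870912 536870912 50465866 3 eng mog cd2q1 cd2q3 pd1 false true false .nn 1 1 3
    ndB2q1 ndB2q3 pcB1 Cut.none Ext.none :=
  certB1 (fam := false) (s1 := true) (s2 := false) (a := 1) (b := 1) (c := 3) (cn := .nn) (n1 := ndB2q1) (n2 := ndB2q3) (pc := pcB1) (cut := Cut.none) (xt := Ext.none) (P1 := 536870912) (W1 := 536870912) (P2 := 1610612736) (W2 := 536870912) (P3 := 536870912) (W3 := 50465866) (N0 := 3) (En := eng) (mo := mog) (C1 := cd2q1) (C2 := cd2q3) (C3 := pd1)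
    rfl (fun _ => rfl) k0_pm_113

noncomputable def f_pm_123 : ℕ → ℕ → ℕ → ℕ → Bool := onCell 1073741824 536870912 1610612736 536870912 536870912 50465866
    (rowB 3 eng mog cd2q1 cd2q3 pd2 2 false true false .npn 1 2 3 (qsf 536870912 536870912 1610612736 536870912 2) ndB2q1 ndB2q3 pcB2 Cut.none Ext.none)

def k0_pm_123 : ∃ t, chk3 f_pm_123 t 1 1 1 = true :=
  ⟨(a (b (a (b (b (l 16499792) (l 16705728)) (a (l 16994656) (l 16855928))) (a (a (l 364031498295) (l 367789734679)) (l 378527447623))) (a (b (l 17053760) (l 16840064)) (b (l 17001760) (b (l 16810720) (l 16765400))))) (a (b (b (l 1) (l 401075993271)) (b (a (l 16724216) (l 16689304)) (l 16776752))) (b (l 1) (a (l 399465888855) (l 438120578855))))), by decide +kernel⟩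

theorem c_pm_123 : CertB 536870912 536870912 1610612736 536870912 536870912 50465866 3 eng mog cd2q1 cd2q3 pd2 false true false .npn 1 2 3
    ndB2q1 ndB2q3 pcB2 Cut.none Ext.none :=
  certB2 (fam := false) (s1 := true) (s2 := false) (a := 1) (b := 2) (c := 3) (cn := .npn) (n1 := ndB2q1) (n2 := ndB2q3) (pc := pcB2) (cut := Cut.none) (xt := Ext.none) (P1 := 536870912) (W1 := 536870912) (P2 := 1610612736) (W2 := 536870912) (P3 := 536870912) (W3 := 50465866) (N0 := 3) (En := eng) (mo := mog) (C1 := cd2q1) (C2 := cd2q3) (C3 := pd2)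
    rfl (fun _ => rfl) k0_pm_123

noncomputable def f_pm_133 : ℕ → ℕ → ℕ → ℕ → Bool := onCell 1610612736 536870912 1610612736 536870912 536870912 50465866
    (rowB 3 eng mog cd2q1 cd2q3 pd3 2 false true false .dn 1 3 3 (qsf 536870912 536870912 1610612736 536870912 3) ndB2q1 ndB2q3 pcB3 Cut.none Ext.none)

def k0_pm_133 : ∃ t, chk3 f_pm_133 t 1 1 1 = true :=
  ⟨(a (b (l 1) (a (a (l 563211501543) (l 1)) (l 1))) (l 1)), by decide +kernel⟩

theorem c_pm_133 : CertB 536870912 536870912 1610612736 536870912 536870912 50465866 3 eng mog cd2q1 cd2q3 pd3 false true false .dn 1 3 3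
    ndB2q1 ndB2q3 pcB3 Cut.none Ext.none :=
  certB2 (fam := false) (s1 := true) (s2 := false) (a := 1) (b := 3) (c := 3) (cn := .dn) (n1 := ndB2q1) (n2 := ndB2q3) (pc := pcB3) (cut := Cut.none) (xt := Ext.none) (P1 := 536870912) (W1 := 536870912) (P2 := 1610612736) (W2 := 536870912) (P3 := 536870912) (W3 := 50465866) (N0 := 3) (En := eng) (mo := mog) (C1 := cd2q1) (C2 := cd2q3) (C3 := pd3)
    rfl (fun _ => rfl) k0_pm_133

noncomputable def cut_pm_202_aa : Cut := Cut.of [[⟨0, 1, 0, 67108864⟩, ⟨1, 0, 0, 67108864⟩, ⟨2, 1, 0, 67108864⟩]]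

noncomputable def f_pm_202_aa : ℕ → ℕ → ℕ → ℕ → Bool := onCell 0 536870912 0 536870912 536870912 50465866
    (rowB 3 eng mog cd2q2a cd2q2a pd0 0 false true false .pp 2 0 2 (qsf 0 536870912 0 536870912 0) ndB2q2a ndB2q2a pcB0 cut_pm_202_aa Ext.none)

def k0_pm_202_aa : ∃ t, chk3 f_pm_202_aa t 1 1 1 = true :=
  ⟨(a (l 3) (b (l 3) (a (l 3) (b (l 3) (a (l 3) (b (l 3) (l 6))))))), by decide +kernel⟩

theorem c_pm_202_aa : CertB 0 536870912 0 536870912 536870912 50465866 3 eng mog cd2q2a cd2q2a pd0 false true false .pp 2 0 2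
    ndB2q2a ndB2q2a pcB0 cut_pm_202_aa Ext.none :=
  certB0 (fam := false) (s1 := true) (s2 := false) (a := 2) (b := 0) (c := 2) (cn := .pp) (n1 := ndB2q2a) (n2 := ndB2q2a) (pc := pcB0) (cut := cut_pm_202_aa) (xt := Ext.none) (P1 := 0) (W1 := 536870912) (P2 := 0) (W2 := 536870912) (P3 := 536870912) (W3 := 50465866) (N0 := 3) (En := eng) (mo := mog) (C1 := cd2q2a) (C2 := cd2q2a) (C3 := pd0)
    rfl k0_pm_202_aa

noncomputable def cut_pm_202_ab : Cut := Cut.of [[⟨0, 1, 0, 67108864⟩, ⟨1, 0, 0, 67108864⟩, ⟨2, 1, 0, 67108864⟩]]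

noncomputable def f_pm_202_ab : ℕ → ℕ → ℕ → ℕ → Bool := onCell 0 536870912 1239849684 370763052 536870912 50465866
    (rowB 3 eng mog cd2q2a cd2q2b pd0 0 false true false .pp 2 0 2 (qsf 0 536870912 1239849684 370763052 0) ndB2q2a ndB2q2b pcB0 cut_pm_202_ab Ext.none)

def k0_pm_202_ab : ∃ t, chk3 f_pm_202_ab t 1 1 1 = true :=
  ⟨(l 3), by decide +kernel⟩

theorem c_pm_202_ab : CertB 0 536870912 1239849684 370763052 536870912 50465866 3 eng mog cd2q2a cd2q2b pd0 false true false .pp 2 0 2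
    ndB2q2a ndB2q2b pcB0 cut_pm_202_ab Ext.none :=
  certB0 (fam := false) (s1 := true) (s2 := false) (a := 2) (b := 0) (c := 2) (cn := .pp) (n1 := ndB2q2a) (n2 := ndB2q2b) (pc := pcB0) (cut := cut_pm_202_ab) (xt := Ext.none) (P1 := 0) (W1 := 536870912) (P2 := 1239849684) (W2 := 370763052) (P3 := 536870912) (W3 := 50465866) (N0 := 3) (En := eng) (mo := mog) (C1 := cd2q2a) (C2 := cd2q2b) (C3 := pd0)
    rfl k0_pm_202_ab

noncomputable def cut_pm_202_ba : Cut := Cut.of [[⟨0, 1, 0, 67108864⟩, ⟨1, 0, 0, 67108864⟩, ⟨2, 1, 0, 67108864⟩]]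

noncomputable def f_pm_202_ba : ℕ → ℕ → ℕ → ℕ → Bool := onCell 1239849684 370763052 0 536870912 536870912 50465866
    (rowB 3 eng mog cd2q2b cd2q2a pd0 0 false true false .pp 2 0 2 (qsf 1239849684 370763052 0 536870912 0) ndB2q2b ndB2q2a pcB0 cut_pm_202_ba Ext.none)

def k0_pm_202_ba : ∃ t, chk3 f_pm_202_ba t 1 1 1 = true :=
  ⟨(l 3), by decide +kernel⟩

theorem c_pm_202_ba : CertB 1239849684 370763052 0 536870912 536870912 50465866 3 eng mog cd2q2b cd2q2a pd0 false true false .pp 2 0 2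
    ndB2q2b ndB2q2a pcB0 cut_pm_202_ba Ext.none :=
  certB0 (fam := false) (s1 := true) (s2 := false) (a := 2) (b := 0) (c := 2) (cn := .pp) (n1 := ndB2q2b) (n2 := ndB2q2a) (pc := pcB0) (cut := cut_pm_202_ba) (xt := Ext.none) (P1 := 1239849684) (W1 := 370763052) (P2 := 0) (W2 := 536870912) (P3 := 536870912) (W3 := 50465866) (N0 := 3) (En := eng) (mo := mog) (C1 := cd2q2b) (C2 := cd2q2a) (C3 := pd0)
    rfl k0_pm_202_ba

noncomputable def cut_pm_202_bb : Cut := Cut.of [[⟨0, 1, 0, 67108864⟩, ⟨1, 0, 0, 67108864⟩, ⟨2, 1, 0, 67108864⟩]]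

noncomputable def f_pm_202_bb : ℕ → ℕ → ℕ → ℕ → Bool := onCell 1239849684 370763052 1239849684 370763052 536870912 50465866
    (rowB 3 eng mog cd2q2b cd2q2b pd0 0 false true false .pp 2 0 2 (qsf 1239849684 370763052 1239849684 370763052 0) ndB2q2b ndB2q2b pcB0 cut_pm_202_bb Ext.none)

def k0_pm_202_bb : ∃ t, chk3 f_pm_202_bb t 1 1 1 = true :=
  ⟨(l 3), by decide +kernel⟩

theorem c_pm_202_bb : CertB 1239849684 370763052 1239849684 370763052 536870912 50465866 3 eng mog cd2q2b cd2q2b pd0 false true false .pp 2 0 2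
    ndB2q2b ndB2q2b pcB0 cut_pm_202_bb Ext.none :=
  certB0 (fam := false) (s1 := true) (s2 := false) (a := 2) (b := 0) (c := 2) (cn := .pp) (n1 := ndB2q2b) (n2 := ndB2q2b) (pc := pcB0) (cut := cut_pm_202_bb) (xt := Ext.none) (P1 := 1239849684) (W1 := 370763052) (P2 := 1239849684) (W2 := 370763052) (P3 := 536870912) (W3 := 50465866) (N0 := 3) (En := eng) (mo := mog) (C1 := cd2q2b) (C2 := cd2q2b) (C3 := pd0)
    rfl k0_pm_202_bb

noncomputable def f_pm_203_a : ℕ → ℕ → ℕ → ℕ → Bool := onCell 0 536870912 0 536870912 536870912 50465866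
    (rowB 3 eng mog cd2q2a cd2q3 pd0 1 false true false .up 2 0 3 (qsf 0 536870912 1610612736 536870912 0) ndB2q2a ndB2q3 pcB0 Cut.none Ext.none)

def k0_pm_203_a : ∃ t, chk3 f_pm_203_a t 1 1 1 = true :=
  ⟨(l 3), by decide +kernel⟩

theorem c_pm_203_a : CertB 0 536870912 1610612736 536870912 536870912 50465866 3 eng mog cd2q2a cd2q3 pd0 false true false .up 2 0 3
    ndB2q2a ndB2q3 pcB0 Cut.none Ext.none :=
  certB1 (fam := false) (s1 := true) (s2 := false) (a := 2) (b := 0) (c := 3) (cn := .up) (n1 := ndB2q2a) (n2 := ndB2q3) (pc := pcB0) (cut := Cut.none) (xt := Ext.none) (P1 := 0) (W1 := 536870912) (P2 := 1610612736) (W2 := 536870912) (P3 := 536870912) (W3 := 50465866) (N0 := 3) (En := eng) (mo := mog) (C1 := cd2q2a) (C2 := cd2q3) (C3 := pd0)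
    rfl (fun _ => rfl) k0_pm_203_a

noncomputable def f_pm_203_b : ℕ → ℕ → ℕ → ℕ → Bool := onCell 1239849684 370763052 1610612736 536870912 536870912 50465866
    (rowB 3 eng mog cd2q2b cd2q3 pd0 0 false true false .up 2 0 3 (qsf 1239849684 370763052 1610612736 536870912 0) ndB2q2b ndB2q3 pcB0 Cut.none Ext.none)

def k0_pm_203_b : ∃ t, chk3 f_pm_203_b t 1 1 1 = true :=
  ⟨(l 3), by decide +kernel⟩

theorem c_pm_203_b : CertB 1239849684 370763052 1610612736 536870912 536870912 50465866 3 eng mog cd2q2b cd2q3 pd0 false true false .up 2 0 3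
    ndB2q2b ndB2q3 pcB0 Cut.none Ext.none :=
  certB0 (fam := false) (s1 := true) (s2 := false) (a := 2) (b := 0) (c := 3) (cn := .up) (n1 := ndB2q2b) (n2 := ndB2q3) (pc := pcB0) (cut := Cut.none) (xt := Ext.none) (P1 := 1239849684) (W1 := 370763052) (P2 := 1610612736) (W2 := 536870912) (P3 := 536870912) (W3 := 50465866) (N0 := 3) (En := eng) (mo := mog) (C1 := cd2q2b) (C2 := cd2q3) (C3 := pd0)
    rfl k0_pm_203_b

noncomputable def cut_pm_213_a : Cut := Cut.of [[⟨0, 1, 0, 67108864⟩, ⟨1, 1, 0, 67108864⟩, ⟨2, 2, 0, 16777216⟩]]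

noncomputable def f_pm_213_a : ℕ → ℕ → ℕ → ℕ → Bool := onCell 0 536870912 1610612736 536870912 536870912 50465866
    (rowB 3 eng mog cd2q2a cd2q3 pd1 0 false true false .pnn 2 1 3 (qsf 0 536870912 1610612736 536870912 1) ndB2q2a ndB2q3 pcB1 cut_pm_213_a Ext.none)

def k0_pm_213_a : ∃ t, chk3 f_pm_213_a t 1 1 1 = true :=
  ⟨(b (l 3) (a (l 3) (b (l 3) (a (l 3) (b (l 3) (a (l 3) (a (l 3) (b (l 3) (b (l 3) (b (l 3) (l 6))))))))))), by decide +kernel⟩

theorem c_pm_213_a : CertB 0 536870912 1610612736 536870912 536870912 50465866 3 eng mog cd2q2a cd2q3 pd1 false true false .pnn 2 1 3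
    ndB2q2a ndB2q3 pcB1 cut_pm_213_a Ext.none :=
  certB0 (fam := false) (s1 := true) (s2 := false) (a := 2) (b := 1) (c := 3) (cn := .pnn) (n1 := ndB2q2a) (n2 := ndB2q3) (pc := pcB1) (cut := cut_pm_213_a) (xt := Ext.none) (P1 := 0) (W1 := 536870912) (P2 := 1610612736) (W2 := 536870912) (P3 := 536870912) (W3 := 50465866) (N0 := 3) (En := eng) (mo := mog) (C1 := cd2q2a) (C2 := cd2q3) (C3 := pd1)
    rfl k0_pm_213_a

noncomputable def cut_pm_213_b : Cut := Cut.of [[⟨0, 1, 0, 67108864⟩, ⟨1, 1, 0, 67108864⟩, ⟨2, 2, 0, 16777216⟩]]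

noncomputable def f_pm_213_b : ℕ → ℕ → ℕ → ℕ → Bool := onCell 1239849684 370763052 1610612736 536870912 536870912 50465866
    (rowB 3 eng mog cd2q2b cd2q3 pd1 0 false true false .pnn 2 1 3 (qsf 1239849684 370763052 1610612736 536870912 1) ndB2q2b ndB2q3 pcB1 cut_pm_213_b Ext.none)

def k0_pm_213_b : ∃ t, chk3 f_pm_213_b t 1 1 1 = true :=
  ⟨(l 3), by decide +kernel⟩

theorem c_pm_213_b : CertB 1239849684 370763052 1610612736 536870912 536870912 50465866 3 eng mog cd2q2b cd2q3 pd1 false true false .pnn 2 1 3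
    ndB2q2b ndB2q3 pcB1 cut_pm_213_b Ext.none :=
  certB0 (fam := false) (s1 := true) (s2 := false) (a := 2) (b := 1) (c := 3) (cn := .pnn) (n1 := ndB2q2b) (n2 := ndB2q3) (pc := pcB1) (cut := cut_pm_213_b) (xt := Ext.none) (P1 := 1239849684) (W1 := 370763052) (P2 := 1610612736) (W2 := 536870912) (P3 := 536870912) (W3 := 50465866) (N0 := 3) (En := eng) (mo := mog) (C1 := cd2q2b) (C2 := cd2q3) (C3 := pd1)
    rfl k0_pm_213_b

noncomputable def f_pm_303 : ℕ → ℕ → ℕ → ℕ → Bool := onCell 1610612736 536870912 1610612736 536870912 536870912 50465866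
    (rowB 3 eng mog cd2q3 cd2q3 pd0 0 false true false .npn 3 0 3 (qsf 1610612736 536870912 1610612736 536870912 0) ndB2q3 ndB2q3 pcB0 Cut.none Ext.none)

def k0_pm_303 : ∃ t, chk3 f_pm_303 t 1 1 1 = true :=
  ⟨(l 3), by decide +kernel⟩

theorem c_pm_303 : CertB 1610612736 536870912 1610612736 536870912 536870912 50465866 3 eng mog cd2q3 cd2q3 pd0 false true false .npn 3 0 3
    ndB2q3 ndB2q3 pcB0 Cut.none Ext.none :=
  certB0 (fam := false) (s1 := true) (s2 := false) (a := 3) (b := 0) (c := 3) (cn := .npn) (n1 := ndB2q3) (n2 := ndB2q3) (pc := pcB0) (cut := Cut.none) (xt := Ext.none) (P1 := 1610612736) (W1 := 536870912) (P2 := 1610612736) (W2 := 536870912) (P3 := 536870912) (W3 := 50465866) (N0 := 3) (En := eng) (mo := mog) (C1 := cd2q3) (C2 := cd2q3) (C3 := pd0)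
    rfl k0_pm_303

noncomputable def f_pm_313 : ℕ → ℕ → ℕ → ℕ → Bool := onCell 1610612736 536870912 1610612736 536870912 536870912 50465866
    (rowB 3 eng mog cd2q3 cd2q3 pd1 0 false true false .dn 3 1 3 (qsf 1610612736 536870912 1610612736 536870912 1) ndB2q3 ndB2q3 pcB1 Cut.none Ext.none)

def k0_pm_313 : ∃ t, chk3 f_pm_313 t 1 1 1 = true :=
  ⟨(l 3), by decide +kernel⟩

theorem c_pm_313 : CertB 1610612736 536870912 1610612736 536870912 536870912 50465866 3 eng mog cd2q3 cd2q3 pd1 false true false .dn 3 1 3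
    ndB2q3 ndB2q3 pcB1 Cut.none Ext.none :=
  certB0 (fam := false) (s1 := true) (s2 := false) (a := 3) (b := 1) (c := 3) (cn := .dn) (n1 := ndB2q3) (n2 := ndB2q3) (pc := pcB1) (cut := Cut.none) (xt := Ext.none) (P1 := 1610612736) (W1 := 536870912) (P2 := 1610612736) (W2 := 536870912) (P3 := 536870912) (W3 := 50465866) (N0 := 3) (En := eng) (mo := mog) (C1 := cd2q3) (C2 := cd2q3) (C3 := pd1)
    rfl k0_pm_313

noncomputable def f_mm_001 : ℕ → ℕ → ℕ → ℕ → Bool := onCell 0 536870912 536870912 536870912 536870912 50465866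
    (rowB 3 eng mog cd2q0 cd2q1 pd0 0 false false false .up 0 0 1 (qsf 0 536870912 536870912 536870912 0) ndB2q0 ndB2q1 pcB0 Cut.none Ext.none)

def k0_mm_001 : ∃ t, chk3 f_mm_001 t 1 1 1 = true :=
  ⟨(l 3), by decide +kernel⟩

theorem c_mm_001 : CertB 0 536870912 536870912 536870912 536870912 50465866 3 eng mog cd2q0 cd2q1 pd0 false false false .up 0 0 1
    ndB2q0 ndB2q1 pcB0 Cut.none Ext.none :=
  certB0 (fam := false) (s1 := false) (s2 := false) (a := 0) (b := 0) (c := 1) (cn := .up) (n1 := ndB2q0) (n2 := ndB2q1) (pc := pcB0) (cut := Cut.none) (xt := Ext.none) (P1 := 0) (W1 := 536870912) (P2 := 536870912) (W2 := 536870912) (P3 := 536870912) (W3 := 50465866) (N0 := 3) (En := eng) (mo := mog) (C1 := cd2q0) (C2 := cd2q1) (C3 := pd0)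
    rfl k0_mm_001

noncomputable def f_mm_011 : ℕ → ℕ → ℕ → ℕ → Bool := onCell 0 536870912 536870912 536870912 536870912 50465866
    (rowB 3 eng mog cd2q0 cd2q1 pd1 0 false false false .pnn 0 1 1 (qsf 0 536870912 536870912 536870912 1) ndB2q0 ndB2q1 pcB1 Cut.none Ext.none)

def k0_mm_011 : ∃ t, chk3 f_mm_011 t 1 1 1 = true :=
  ⟨(l 3), by decide +kernel⟩

theorem c_mm_011 : CertB 0 536870912 536870912 536870912 536870912 50465866 3 eng mog cd2q0 cd2q1 pd1 false false false .pnn 0 1 1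
    ndB2q0 ndB2q1 pcB1 Cut.none Ext.none :=
  certB0 (fam := false) (s1 := false) (s2 := false) (a := 0) (b := 1) (c := 1) (cn := .pnn) (n1 := ndB2q0) (n2 := ndB2q1) (pc := pcB1) (cut := Cut.none) (xt := Ext.none) (P1 := 0) (W1 := 536870912) (P2 := 536870912) (W2 := 536870912) (P3 := 536870912) (W3 := 50465866) (N0 := 3) (En := eng) (mo := mog) (C1 := cd2q0) (C2 := cd2q1) (C3 := pd1)
    rfl k0_mm_011

noncomputable def f_mm_012_a : ℕ → ℕ → ℕ → ℕ → Bool := onCell 0 536870912 0 536870912 536870912 50465866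
    (rowB 3 eng mog cd2q0 cd2q2a pd1 0 false false false .pnp 0 1 2 (qsf 0 536870912 0 536870912 1) ndB2q0 ndB2q2a pcB1 Cut.none Ext.none)

def k0_mm_012_a : ∃ t, chk3 f_mm_012_a t 1 1 1 = true :=
  ⟨(l 5), by decide +kernel⟩

theorem c_mm_012_a : CertB 0 536870912 0 536870912 536870912 50465866 3 eng mog cd2q0 cd2q2a pd1 false false false .pnp 0 1 2
    ndB2q0 ndB2q2a pcB1 Cut.none Ext.none :=
  certB0 (fam := false) (s1 := false) (s2 := false) (a := 0) (b := 1) (c := 2) (cn := .pnp) (n1 := ndB2q0) (n2 := ndB2q2a) (pc := pcB1) (cut := Cut.none) (xt := Ext.none) (P1 := 0) (W1 := 536870912) (P2 := 0) (W2 := 536870912) (P3 := 536870912) (W3 := 50465866) (N0 := 3) (En := eng) (mo := mog) (C1 := cd2q0) (C2 := cd2q2a) (C3 := pd1)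
    rfl k0_mm_012_a

noncomputable def f_mm_012_b : ℕ → ℕ → ℕ → ℕ → Bool := onCell 0 536870912 1239849684 370763052 536870912 50465866
    (rowB 3 eng mog cd2q0 cd2q2b pd1 0 false false false .pnp 0 1 2 (qsf 0 536870912 1239849684 370763052 1) ndB2q0 ndB2q2b pcB1 Cut.none Ext.none)

def k0_mm_012_b : ∃ t, chk3 f_mm_012_b t 1 1 1 = true :=
  ⟨(l 5), by decide +kernel⟩

theorem c_mm_012_b : CertB 0 536870912 1239849684 370763052 536870912 50465866 3 eng mog cd2q0 cd2q2b pd1 false false false .pnp 0 1 2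
    ndB2q0 ndB2q2b pcB1 Cut.none Ext.none :=
  certB0 (fam := false) (s1 := false) (s2 := false) (a := 0) (b := 1) (c := 2) (cn := .pnp) (n1 := ndB2q0) (n2 := ndB2q2b) (pc := pcB1) (cut := Cut.none) (xt := Ext.none) (P1 := 0) (W1 := 536870912) (P2 := 1239849684) (W2 := 370763052) (P3 := 536870912) (W3 := 50465866) (N0 := 3) (En := eng) (mo := mog) (C1 := cd2q0) (C2 := cd2q2b) (C3 := pd1)
    rfl k0_mm_012_b

noncomputable def f_mm_022_a : ℕ → ℕ → ℕ → ℕ → Bool := onCell 0 536870912 0 536870912 536870912 50465866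
    (rowB 3 eng mog cd2q0 cd2q2a pd2 0 false false false .pp 0 2 2 (qsf 0 536870912 0 536870912 2) ndB2q0 ndB2q2a pcB2 Cut.none Ext.none)

def k0_mm_022_a : ∃ t, chk3 f_mm_022_a t 1 1 1 = true :=
  ⟨(l 5), by decide +kernel⟩

theorem c_mm_022_a : CertB 0 536870912 0 536870912 536870912 50465866 3 eng mog cd2q0 cd2q2a pd2 false false false .pp 0 2 2
    ndB2q0 ndB2q2a pcB2 Cut.none Ext.none :=
  certB0 (fam := false) (s1 := false) (s2 := false) (a := 0) (b := 2) (c := 2) (cn := .pp) (n1 := ndB2q0) (n2 := ndB2q2a) (pc := pcB2) (cut := Cut.none) (xt := Ext.none) (P1 := 0) (W1 := 536870912) (P2 := 0) (W2 := 536870912) (P3 := 536870912) (W3 := 50465866) (N0 := 3) (En := eng) (mo := mog) (C1 := cd2q0) (C2 := cd2q2a) (C3 := pd2)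
    rfl k0_mm_022_a

noncomputable def f_mm_022_b : ℕ → ℕ → ℕ → ℕ → Bool := onCell 0 536870912 1239849684 370763052 536870912 50465866
    (rowB 3 eng mog cd2q0 cd2q2b pd2 0 false false false .pp 0 2 2 (qsf 0 536870912 1239849684 370763052 2) ndB2q0 ndB2q2b pcB2 Cut.none Ext.none)

def k0_mm_022_b : ∃ t, chk3 f_mm_022_b t 1 1 1 = true :=
  ⟨(l 5), by decide +kernel⟩

theorem c_mm_022_b : CertB 0 536870912 1239849684 370763052 536870912 50465866 3 eng mog cd2q0 cd2q2b pd2 false false false .pp 0 2 2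
    ndB2q0 ndB2q2b pcB2 Cut.none Ext.none :=
  certB0 (fam := false) (s1 := false) (s2 := false) (a := 0) (b := 2) (c := 2) (cn := .pp) (n1 := ndB2q0) (n2 := ndB2q2b) (pc := pcB2) (cut := Cut.none) (xt := Ext.none) (P1 := 0) (W1 := 536870912) (P2 := 1239849684) (W2 := 370763052) (P3 := 536870912) (W3 := 50465866) (N0 := 3) (En := eng) (mo := mog) (C1 := cd2q0) (C2 := cd2q2b) (C3 := pd2)
    rfl k0_mm_022_b

noncomputable def f_mm_023 : ℕ → ℕ → ℕ → ℕ → Bool := onCell 0 536870912 1610612736 536870912 536870912 50465866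
    (rowB 3 eng mog cd2q0 cd2q3 pd2 0 false false false .up 0 2 3 (qsf 0 536870912 1610612736 536870912 2) ndB2q0 ndB2q3 pcB2 Cut.none Ext.none)

def k0_mm_023 : ∃ t, chk3 f_mm_023 t 1 1 1 = true :=
  ⟨(l 5), by decide +kernel⟩

theorem c_mm_023 : CertB 0 536870912 1610612736 536870912 536870912 50465866 3 eng mog cd2q0 cd2q3 pd2 false false false .up 0 2 3
    ndB2q0 ndB2q3 pcB2 Cut.none Ext.none :=
  certB0 (fam := false) (s1 := false) (s2 := false) (a := 0) (b := 2) (c := 3) (cn := .up) (n1 := ndB2q0) (n2 := ndB2q3) (pc := pcB2) (cut := Cut.none) (xt := Ext.none) (P1 := 0) (W1 := 536870912) (P2 := 1610612736) (W2 := 536870912) (P3 := 536870912) (W3 := 50465866) (N0 := 3) (En := eng) (mo := mog) (C1 := cd2q0) (C2 := cd2q3) (C3 := pd2)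
    rfl k0_mm_023

noncomputable def f_mm_033 : ℕ → ℕ → ℕ → ℕ → Bool := onCell 0 536870912 1610612736 536870912 536870912 50465866
    (rowB 3 eng mog cd2q0 cd2q3 pd3 0 false false false .pnn 0 3 3 (qsf 0 536870912 1610612736 536870912 3) ndB2q0 ndB2q3 pcB3 Cut.none Ext.none)

def k0_mm_033 : ∃ t, chk3 f_mm_033 t 1 1 1 = true :=
  ⟨(l 5), by decide +kernel⟩

theorem c_mm_033 : CertB 0 536870912 1610612736 536870912 536870912 50465866 3 eng mog cd2q0 cd2q3 pd3 false false false .pnn 0 3 3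
    ndB2q0 ndB2q3 pcB3 Cut.none Ext.none :=
  certB0 (fam := false) (s1 := false) (s2 := false) (a := 0) (b := 3) (c := 3) (cn := .pnn) (n1 := ndB2q0) (n2 := ndB2q3) (pc := pcB3) (cut := Cut.none) (xt := Ext.none) (P1 := 0) (W1 := 536870912) (P2 := 1610612736) (W2 := 536870912) (P3 := 536870912) (W3 := 50465866) (N0 := 3) (En := eng) (mo := mog) (C1 := cd2q0) (C2 := cd2q3) (C3 := pd3)
    rfl k0_mm_033

noncomputable def f_mm_101 : ℕ → ℕ → ℕ → ℕ → Bool := onCell 536870912 536870912 536870912 536870912 536870912 50465866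
    (rowB 3 eng mog cd2q1 cd2q1 pd0 0 false false false .npn 1 0 1 (qsf 536870912 536870912 536870912 536870912 0) ndB2q1 ndB2q1 pcB0 Cut.none Ext.none)

def k0_mm_101 : ∃ t, chk3 f_mm_101 t 1 1 1 = true :=
  ⟨(l 3), by decide +kernel⟩

theorem c_mm_101 : CertB 536870912 536870912 536870912 536870912 536870912 50465866 3 eng mog cd2q1 cd2q1 pd0 false false false .npn 1 0 1
    ndB2q1 ndB2q1 pcB0 Cut.none Ext.none :=
  certB0 (fam := false) (s1 := false) (s2 := false) (a := 1) (b := 0) (c := 1) (cn := .npn) (n1 := ndB2q1) (n2 := ndB2q1) (pc := pcB0) (cut := Cut.none) (xt := Ext.none) (P1 := 536870912) (W1 := 536870912) (P2 := 536870912) (W2 := 536870912) (P3 := 536870912) (W3 := 50465866) (N0 := 3) (En := eng) (mo := mog) (C1 := cd2q1) (C2 := cd2q1) (C3 := pd0)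
    rfl k0_mm_101

noncomputable def f_mm_102_a : ℕ → ℕ → ℕ → ℕ → Bool := onCell 536870912 536870912 0 536870912 536870912 50465866
    (rowB 3 eng mog cd2q1 cd2q2a pd0 0 false false false .npp 1 0 2 (qsf 536870912 536870912 0 536870912 0) ndB2q1 ndB2q2a pcB0 Cut.none Ext.none)

def k0_mm_102_a : ∃ t, chk3 f_mm_102_a t 1 1 1 = true :=
  ⟨(l 5), by decide +kernel⟩

theorem c_mm_102_a : CertB 536870912 536870912 0 536870912 536870912 50465866 3 eng mog cd2q1 cd2q2a pd0 false false false .npp 1 0 2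
    ndB2q1 ndB2q2a pcB0 Cut.none Ext.none :=
  certB0 (fam := false) (s1 := false) (s2 := false) (a := 1) (b := 0) (c := 2) (cn := .npp) (n1 := ndB2q1) (n2 := ndB2q2a) (pc := pcB0) (cut := Cut.none) (xt := Ext.none) (P1 := 536870912) (W1 := 536870912) (P2 := 0) (W2 := 536870912) (P3 := 536870912) (W3 := 50465866) (N0 := 3) (En := eng) (mo := mog) (C1 := cd2q1) (C2 := cd2q2a) (C3 := pd0)
    rfl k0_mm_102_a

noncomputable def f_mm_102_b : ℕ → ℕ → ℕ → ℕ → Bool := onCell 536870912 536870912 1239849684 370763052 536870912 50465866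
    (rowB 3 eng mog cd2q1 cd2q2b pd0 0 false false false .npp 1 0 2 (qsf 536870912 536870912 1239849684 370763052 0) ndB2q1 ndB2q2b pcB0 Cut.none Ext.none)

def k0_mm_102_b : ∃ t, chk3 f_mm_102_b t 1 1 1 = true :=
  ⟨(l 5), by decide +kernel⟩

theorem c_mm_102_b : CertB 536870912 536870912 1239849684 370763052 536870912 50465866 3 eng mog cd2q1 cd2q2b pd0 false false false .npp 1 0 2
    ndB2q1 ndB2q2b pcB0 Cut.none Ext.none :=
  certB0 (fam := false) (s1 := false) (s2 := false) (a := 1) (b := 0) (c := 2) (cn := .npp) (n1 := ndB2q1) (n2 := ndB2q2b) (pc := pcB0) (cut := Cut.none) (xt := Ext.none) (P1 := 536870912) (W1 := 536870912) (P2 := 1239849684) (W2 := 370763052) (P3 := 536870912) (W3 := 50465866) (N0 := 3) (En := eng) (mo := mog) (C1 := cd2q1) (C2 := cd2q2b) (C3 := pd0)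
    rfl k0_mm_102_b

noncomputable def f_mm_112_a : ℕ → ℕ → ℕ → ℕ → Bool := onCell 536870912 536870912 0 536870912 536870912 50465866
    (rowB 3 eng mog cd2q1 cd2q2a pd1 0 false false false .dn 1 1 2 (qsf 536870912 536870912 0 536870912 1) ndB2q1 ndB2q2a pcB1 Cut.none Ext.none)

def k0_mm_112_a : ∃ t, chk3 f_mm_112_a t 1 1 1 = true :=
  ⟨(l 5), by decide +kernel⟩

theorem c_mm_112_a : CertB 536870912 536870912 0 536870912 536870912 50465866 3 eng mog cd2q1 cd2q2a pd1 false false false .dn 1 1 2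
    ndB2q1 ndB2q2a pcB1 Cut.none Ext.none :=
  certB0 (fam := false) (s1 := false) (s2 := false) (a := 1) (b := 1) (c := 2) (cn := .dn) (n1 := ndB2q1) (n2 := ndB2q2a) (pc := pcB1) (cut := Cut.none) (xt := Ext.none) (P1 := 536870912) (W1 := 536870912) (P2 := 0) (W2 := 536870912) (P3 := 536870912) (W3 := 50465866) (N0 := 3) (En := eng) (mo := mog) (C1 := cd2q1) (C2 := cd2q2a) (C3 := pd1)
    rfl k0_mm_112_a

noncomputable def f_mm_112_b : ℕ → ℕ → ℕ → ℕ → Bool := onCell 536870912 536870912 1239849684 370763052 536870912 50465866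
    (rowB 3 eng mog cd2q1 cd2q2b pd1 0 false false false .dn 1 1 2 (qsf 536870912 536870912 1239849684 370763052 1) ndB2q1 ndB2q2b pcB1 Cut.none Ext.none)

def k0_mm_112_b : ∃ t, chk3 f_mm_112_b t 1 1 1 = true :=
  ⟨(l 5), by decide +kernel⟩

theorem c_mm_112_b : CertB 536870912 536870912 1239849684 370763052 536870912 50465866 3 eng mog cd2q1 cd2q2b pd1 false false false .dn 1 1 2
    ndB2q1 ndB2q2b pcB1 Cut.none Ext.none :=
  certB0 (fam := false) (s1 := false) (s2 := false) (a := 1) (b := 1) (c := 2) (cn := .dn) (n1 := ndB2q1) (n2 := ndB2q2b) (pc := pcB1) (cut := Cut.none) (xt := Ext.none) (P1 := 536870912) (W1 := 536870912) (P2 := 1239849684) (W2 := 370763052) (P3 := 536870912) (W3 := 50465866) (N0 := 3) (En := eng) (mo := mog) (C1 := cd2q1) (C2 := cd2q2b) (C3 := pd1)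
    rfl k0_mm_112_b

noncomputable def f_mm_113 : ℕ → ℕ → ℕ → ℕ → Bool := onCell 536870912 536870912 1610612736 536870912 536870912 50465866
    (rowB 3 eng mog cd2q1 cd2q3 pd1 0 false false false .nn 1 1 3 (qsf 536870912 536870912 1610612736 536870912 1) ndB2q1 ndB2q3 pcB1 Cut.none Ext.none)

def k0_mm_113 : ∃ t, chk3 f_mm_113 t 1 1 1 = true :=
  ⟨(l 5), by decide +kernel⟩

theorem c_mm_113 : CertB 536870912 536870912 1610612736 536870912 536870912 50465866 3 eng mog cd2q1 cd2q3 pd1 false false false .nn 1 1 3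
    ndB2q1 ndB2q3 pcB1 Cut.none Ext.none :=
  certB0 (fam := false) (s1 := false) (s2 := false) (a := 1) (b := 1) (c := 3) (cn := .nn) (n1 := ndB2q1) (n2 := ndB2q3) (pc := pcB1) (cut := Cut.none) (xt := Ext.none) (P1 := 536870912) (W1 := 536870912) (P2 := 1610612736) (W2 := 536870912) (P3 := 536870912) (W3 := 50465866) (N0 := 3) (En := eng) (mo := mog) (C1 := cd2q1) (C2 := cd2q3) (C3 := pd1)
    rfl k0_mm_113

noncomputable def f_mm_123 : ℕ → ℕ → ℕ → ℕ → Bool := onCell 536870912 536870912 1610612736 536870912 536870912 50465866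
    (rowB 3 eng mog cd2q1 cd2q3 pd2 0 false false false .npn 1 2 3 (qsf 536870912 536870912 1610612736 536870912 2) ndB2q1 ndB2q3 pcB2 Cut.none Ext.none)

def k0_mm_123 : ∃ t, chk3 f_mm_123 t 1 1 1 = true :=
  ⟨(l 5), by decide +kernel⟩

theorem c_mm_123 : CertB 536870912 536870912 1610612736 536870912 536870912 50465866 3 eng mog cd2q1 cd2q3 pd2 false false false .npn 1 2 3
    ndB2q1 ndB2q3 pcB2 Cut.none Ext.none :=
  certB0 (fam := false) (s1 := false) (s2 := false) (a := 1) (b := 2) (c := 3) (cn := .npn) (n1 := ndB2q1) (n2 := ndB2q3) (pc := pcB2) (cut := Cut.none) (xt := Ext.none) (P1 := 536870912) (W1 := 536870912) (P2 := 1610612736) (W2 := 536870912) (P3 := 536870912) (W3 := 50465866) (N0 := 3) (En := eng) (mo := mog) (C1 := cd2q1) (C2 := cd2q3) (C3 := pd2)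
    rfl k0_mm_123

noncomputable def f_mm_133 : ℕ → ℕ → ℕ → ℕ → Bool := onCell 536870912 536870912 1610612736 536870912 536870912 50465866
    (rowB 3 eng mog cd2q1 cd2q3 pd3 0 false false false .dn 1 3 3 (qsf 536870912 536870912 1610612736 536870912 3) ndB2q1 ndB2q3 pcB3 Cut.none Ext.none)

def k0_mm_133 : ∃ t, chk3 f_mm_133 t 1 1 1 = true :=
  ⟨(l 5), by decide +kernel⟩

theorem c_mm_133 : CertB 536870912 536870912 1610612736 536870912 536870912 50465866 3 eng mog cd2q1 cd2q3 pd3 false false false .dn 1 3 3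
    ndB2q1 ndB2q3 pcB3 Cut.none Ext.none :=
  certB0 (fam := false) (s1 := false) (s2 := false) (a := 1) (b := 3) (c := 3) (cn := .dn) (n1 := ndB2q1) (n2 := ndB2q3) (pc := pcB3) (cut := Cut.none) (xt := Ext.none) (P1 := 536870912) (W1 := 536870912) (P2 := 1610612736) (W2 := 536870912) (P3 := 536870912) (W3 := 50465866) (N0 := 3) (En := eng) (mo := mog) (C1 := cd2q1) (C2 := cd2q3) (C3 := pd3)
    rfl k0_mm_133

noncomputable def f_mm_202_aa : ℕ → ℕ → ℕ → ℕ → Bool := onCell 0 536870912 0 536870912 536870912 50465866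
    (rowB 3 eng mog cd2q2a cd2q2a pd0 0 false false false .pp 2 0 2 (qsf 0 536870912 0 536870912 0) ndB2q2a ndB2q2a pcB0 Cut.none Ext.none)

def k0_mm_202_aa : ∃ t, chk3 f_mm_202_aa t 1 1 1 = true :=
  ⟨(l 3), by decide +kernel⟩

theorem c_mm_202_aa : CertB 0 536870912 0 536870912 536870912 50465866 3 eng mog cd2q2a cd2q2a pd0 false false false .pp 2 0 2
    ndB2q2a ndB2q2a pcB0 Cut.none Ext.none :=
  certB0 (fam := false) (s1 := false) (s2 := false) (a := 2) (b := 0) (c := 2) (cn := .pp) (n1 := ndB2q2a) (n2 := ndB2q2a) (pc := pcB0) (cut := Cut.none) (xt := Ext.none) (P1 := 0) (W1 := 536870912) (P2 := 0) (W2 := 536870912) (P3 := 536870912) (W3 := 50465866) (N0 := 3) (En := eng) (mo := mog) (C1 := cd2q2a) (C2 := cd2q2a) (C3 := pd0)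
    rfl k0_mm_202_aa

noncomputable def f_mm_202_ab : ℕ → ℕ → ℕ → ℕ → Bool := onCell 0 536870912 1239849684 370763052 536870912 50465866
    (rowB 3 eng mog cd2q2a cd2q2b pd0 0 false false false .pp 2 0 2 (qsf 0 536870912 1239849684 370763052 0) ndB2q2a ndB2q2b pcB0 Cut.none Ext.none)

def k0_mm_202_ab : ∃ t, chk3 f_mm_202_ab t 1 1 1 = true :=
  ⟨(l 3), by decide +kernel⟩

theorem c_mm_202_ab : CertB 0 536870912 1239849684 370763052 536870912 50465866 3 eng mog cd2q2a cd2q2b pd0 false false false .pp 2 0 2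
    ndB2q2a ndB2q2b pcB0 Cut.none Ext.none :=
  certB0 (fam := false) (s1 := false) (s2 := false) (a := 2) (b := 0) (c := 2) (cn := .pp) (n1 := ndB2q2a) (n2 := ndB2q2b) (pc := pcB0) (cut := Cut.none) (xt := Ext.none) (P1 := 0) (W1 := 536870912) (P2 := 1239849684) (W2 := 370763052) (P3 := 536870912) (W3 := 50465866) (N0 := 3) (En := eng) (mo := mog) (C1 := cd2q2a) (C2 := cd2q2b) (C3 := pd0)
    rfl k0_mm_202_ab

noncomputable def f_mm_202_ba : ℕ → ℕ → ℕ → ℕ → Bool := onCell 1239849684 370763052 0 536870912 536870912 50465866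
    (rowB 3 eng mog cd2q2b cd2q2a pd0 0 false false false .pp 2 0 2 (qsf 1239849684 370763052 0 536870912 0) ndB2q2b ndB2q2a pcB0 Cut.none Ext.none)

def k0_mm_202_ba : ∃ t, chk3 f_mm_202_ba t 1 1 1 = true :=
  ⟨(l 3), by decide +kernel⟩

theorem c_mm_202_ba : CertB 1239849684 370763052 0 536870912 536870912 50465866 3 eng mog cd2q2b cd2q2a pd0 false false false .pp 2 0 2
    ndB2q2b ndB2q2a pcB0 Cut.none Ext.none :=
  certB0 (fam := false) (s1 := false) (s2 := false) (a := 2) (b := 0) (c := 2) (cn := .pp) (n1 := ndB2q2b) (n2 := ndB2q2a) (pc := pcB0) (cut := Cut.none) (xt := Ext.none) (P1 := 1239849684) (W1 := 370763052) (P2 := 0) (W2 := 536870912) (P3 := 536870912) (W3 := 50465866) (N0 := 3) (En := eng) (mo := mog) (C1 := cd2q2b) (C2 := cd2q2a) (C3 := pd0)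
    rfl k0_mm_202_ba

noncomputable def f_mm_202_bb : ℕ → ℕ → ℕ → ℕ → Bool := onCell 1239849684 370763052 1239849684 370763052 536870912 50465866
    (rowB 3 eng mog cd2q2b cd2q2b pd0 0 false false false .pp 2 0 2 (qsf 1239849684 370763052 1239849684 370763052 0) ndB2q2b ndB2q2b pcB0 Cut.none Ext.none)

def k0_mm_202_bb : ∃ t, chk3 f_mm_202_bb t 1 1 1 = true :=
  ⟨(l 3), by decide +kernel⟩

theorem c_mm_202_bb : CertB 1239849684 370763052 1239849684 370763052 536870912 50465866 3 eng mog cd2q2b cd2q2b pd0 false false false .pp 2 0 2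
    ndB2q2b ndB2q2b pcB0 Cut.none Ext.none :=
  certB0 (fam := false) (s1 := false) (s2 := false) (a := 2) (b := 0) (c := 2) (cn := .pp) (n1 := ndB2q2b) (n2 := ndB2q2b) (pc := pcB0) (cut := Cut.none) (xt := Ext.none) (P1 := 1239849684) (W1 := 370763052) (P2 := 1239849684) (W2 := 370763052) (P3 := 536870912) (W3 := 50465866) (N0 := 3) (En := eng) (mo := mog) (C1 := cd2q2b) (C2 := cd2q2b) (C3 := pd0)
    rfl k0_mm_202_bb

noncomputable def f_mm_203_a : ℕ → ℕ → ℕ → ℕ → Bool := onCell 0 536870912 0 536870912 536870912 50465866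
    (rowB 3 eng mog cd2q2a cd2q3 pd0 1 false false false .up 2 0 3 (qsf 0 536870912 1610612736 536870912 0) ndB2q2a ndB2q3 pcB0 Cut.none Ext.none)

def k0_mm_203_a : ∃ t, chk3 f_mm_203_a t 1 1 1 = true :=
  ⟨(l 3), by decide +kernel⟩

theorem c_mm_203_a : CertB 0 536870912 1610612736 536870912 536870912 50465866 3 eng mog cd2q2a cd2q3 pd0 false false false .up 2 0 3
    ndB2q2a ndB2q3 pcB0 Cut.none Ext.none :=
  certB1 (fam := false) (s1 := false) (s2 := false) (a := 2) (b := 0) (c := 3) (cn := .up) (n1 := ndB2q2a) (n2 := ndB2q3) (pc := pcB0) (cut := Cut.none) (xt := Ext.none) (P1 := 0) (W1 := 536870912) (P2 := 1610612736) (W2 := 536870912) (P3 := 536870912) (W3 := 50465866) (N0 := 3) (En := eng) (mo := mog) (C1 := cd2q2a) (C2 := cd2q3) (C3 := pd0)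
    rfl (fun _ => rfl) k0_mm_203_a

noncomputable def f_mm_203_b : ℕ → ℕ → ℕ → ℕ → Bool := onCell 1239849684 370763052 1610612736 536870912 536870912 50465866
    (rowB 3 eng mog cd2q2b cd2q3 pd0 0 false false false .up 2 0 3 (qsf 1239849684 370763052 1610612736 536870912 0) ndB2q2b ndB2q3 pcB0 Cut.none Ext.none)

def k0_mm_203_b : ∃ t, chk3 f_mm_203_b t 1 1 1 = true :=
  ⟨(l 3), by decide +kernel⟩

theorem c_mm_203_b : CertB 1239849684 370763052 1610612736 536870912 536870912 50465866 3 eng mog cd2q2b cd2q3 pd0 false false false .up 2 0 3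
    ndB2q2b ndB2q3 pcB0 Cut.none Ext.none :=
  certB0 (fam := false) (s1 := false) (s2 := false) (a := 2) (b := 0) (c := 3) (cn := .up) (n1 := ndB2q2b) (n2 := ndB2q3) (pc := pcB0) (cut := Cut.none) (xt := Ext.none) (P1 := 1239849684) (W1 := 370763052) (P2 := 1610612736) (W2 := 536870912) (P3 := 536870912) (W3 := 50465866) (N0 := 3) (En := eng) (mo := mog) (C1 := cd2q2b) (C2 := cd2q3) (C3 := pd0)
    rfl k0_mm_203_b

noncomputable def f_mm_213_a : ℕ → ℕ → ℕ → ℕ → Bool := onCell 0 536870912 1610612736 536870912 536870912 50465866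
    (rowB 3 eng mog cd2q2a cd2q3 pd1 0 false false false .pnn 2 1 3 (qsf 0 536870912 1610612736 536870912 1) ndB2q2a ndB2q3 pcB1 Cut.none Ext.none)

def k0_mm_213_a : ∃ t, chk3 f_mm_213_a t 1 1 1 = true :=
  ⟨(b (l 3) (l 5)), by decide +kernel⟩

theorem c_mm_213_a : CertB 0 536870912 1610612736 536870912 536870912 50465866 3 eng mog cd2q2a cd2q3 pd1 false false false .pnn 2 1 3
    ndB2q2a ndB2q3 pcB1 Cut.none Ext.none :=
  certB0 (fam := false) (s1 := false) (s2 := false) (a := 2) (b := 1) (c := 3) (cn := .pnn) (n1 := ndB2q2a) (n2 := ndB2q3) (pc := pcB1) (cut := Cut.none) (xt := Ext.none) (P1 := 0) (W1 := 536870912) (P2 := 1610612736) (W2 := 536870912) (P3 := 536870912) (W3 := 50465866) (N0 := 3) (En := eng) (mo := mog) (C1 := cd2q2a) (C2 := cd2q3) (C3 := pd1)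
    rfl k0_mm_213_a

noncomputable def f_mm_213_b : ℕ → ℕ → ℕ → ℕ → Bool := onCell 1239849684 370763052 1610612736 536870912 536870912 50465866
    (rowB 3 eng mog cd2q2b cd2q3 pd1 0 false false false .pnn 2 1 3 (qsf 1239849684 370763052 1610612736 536870912 1) ndB2q2b ndB2q3 pcB1 Cut.none Ext.none)

def k0_mm_213_b : ∃ t, chk3 f_mm_213_b t 1 1 1 = true :=
  ⟨(l 3), by decide +kernel⟩

theorem c_mm_213_b : CertB 1239849684 370763052 1610612736 536870912 536870912 50465866 3 eng mog cd2q2b cd2q3 pd1 false false false .pnn 2 1 3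
    ndB2q2b ndB2q3 pcB1 Cut.none Ext.none :=
  certB0 (fam := false) (s1 := false) (s2 := false) (a := 2) (b := 1) (c := 3) (cn := .pnn) (n1 := ndB2q2b) (n2 := ndB2q3) (pc := pcB1) (cut := Cut.none) (xt := Ext.none) (P1 := 1239849684) (W1 := 370763052) (P2 := 1610612736) (W2 := 536870912) (P3 := 536870912) (W3 := 50465866) (N0 := 3) (En := eng) (mo := mog) (C1 := cd2q2b) (C2 := cd2q3) (C3 := pd1)
    rfl k0_mm_213_b

noncomputable def f_mm_303 : ℕ → ℕ → ℕ → ℕ → Bool := onCell 1610612736 536870912 1610612736 536870912 536870912 50465866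
    (rowB 3 eng mog cd2q3 cd2q3 pd0 0 false false false .npn 3 0 3 (qsf 1610612736 536870912 1610612736 536870912 0) ndB2q3 ndB2q3 pcB0 Cut.none Ext.none)

def k0_mm_303 : ∃ t, chk3 f_mm_303 t 1 1 1 = true :=
  ⟨(l 3), by decide +kernel⟩

theorem c_mm_303 : CertB 1610612736 536870912 1610612736 536870912 536870912 50465866 3 eng mog cd2q3 cd2q3 pd0 false false false .npn 3 0 3
    ndB2q3 ndB2q3 pcB0 Cut.none Ext.none :=
  certB0 (fam := false) (s1 := false) (s2 := false) (a := 3) (b := 0) (c := 3) (cn := .npn) (n1 := ndB2q3) (n2 := ndB2q3) (pc := pcB0) (cut := Cut.none) (xt := Ext.none) (P1 := 1610612736) (W1 := 536870912) (P2 := 1610612736) (W2 := 536870912) (P3 := 536870912) (W3 := 50465866) (N0 := 3) (En := eng) (mo := mog) (C1 := cd2q3) (C2 := cd2q3) (C3 := pd0)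
    rfl k0_mm_303

noncomputable def f_mm_313 : ℕ → ℕ → ℕ → ℕ → Bool := onCell 1610612736 536870912 1610612736 536870912 536870912 50465866
    (rowB 3 eng mog cd2q3 cd2q3 pd1 0 false false false .dn 3 1 3 (qsf 1610612736 536870912 1610612736 536870912 1) ndB2q3 ndB2q3 pcB1 Cut.none Ext.none)

def k0_mm_313 : ∃ t, chk3 f_mm_313 t 1 1 1 = true :=
  ⟨(l 3), by decide +kernel⟩

theorem c_mm_313 : CertB 1610612736 536870912 1610612736 536870912 536870912 50465866 3 eng mog cd2q3 cd2q3 pd1 false false false .dn 3 1 3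
    ndB2q3 ndB2q3 pcB1 Cut.none Ext.none :=
  certB0 (fam := false) (s1 := false) (s2 := false) (a := 3) (b := 1) (c := 3) (cn := .dn) (n1 := ndB2q3) (n2 := ndB2q3) (pc := pcB1) (cut := Cut.none) (xt := Ext.none) (P1 := 1610612736) (W1 := 536870912) (P2 := 1610612736) (W2 := 536870912) (P3 := 536870912) (W3 := 50465866) (N0 := 3) (En := eng) (mo := mog) (C1 := cd2q3) (C2 := cd2q3) (C3 := pd1)
    rfl k0_mm_313

end Pool.Agent.Strip051.G.I5000_5470.Tab.C.BB22

namespace Pool.Agent.Strip051.G.I5000_5470.Tab.C.BB23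

open Pool.Agent.Strip051.PB Pool.Agent.Strip051.PB.T
open Pool.Agent.Strip051.G.I5000_5470.Tab

noncomputable def f_pp_001 : ℕ → ℕ → ℕ → ℕ → Bool := onCell 0 536870912 536870912 536870912 536870912 50465866
    (rowB 3 eng mog cd2q0 cd3q1 pd0 0 false true true .up 0 0 1 (qsf 0 536870912 536870912 536870912 0) ndB2q0 ndB3q1 pcB0 Cut.none Ext.none)

def k0_pp_001 : ∃ t, chk3 f_pp_001 t 1 1 1 = true :=
  ⟨(l 3), by decide +kernel⟩

theorem c_pp_001 : CertB 0 536870912 536870912 536870912 536870912 50465866 3 eng mog cd2q0 cd3q1 pd0 false true true .up 0 0 1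
    ndB2q0 ndB3q1 pcB0 Cut.none Ext.none :=
  certB0 (fam := false) (s1 := true) (s2 := true) (a := 0) (b := 0) (c := 1) (cn := .up) (n1 := ndB2q0) (n2 := ndB3q1) (pc := pcB0) (cut := Cut.none) (xt := Ext.none) (P1 := 0) (W1 := 536870912) (P2 := 536870912) (W2 := 536870912) (P3 := 536870912) (W3 := 50465866) (N0 := 3) (En := eng) (mo := mog) (C1 := cd2q0) (C2 := cd3q1) (C3 := pd0)
    rfl k0_pp_001

noncomputable def f_pp_011 : ℕ → ℕ → ℕ → ℕ → Bool := onCell 0 536870912 536870912 536870912 536870912 50465866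
    (rowB 3 eng mog cd2q0 cd3q1 pd1 0 false true true .pnn 0 1 1 (qsf 0 536870912 536870912 536870912 1) ndB2q0 ndB3q1 pcB1 Cut.none Ext.none)

def k0_pp_011 : ∃ t, chk3 f_pp_011 t 1 1 1 = true :=
  ⟨(l 3), by decide +kernel⟩

theorem c_pp_011 : CertB 0 536870912 536870912 536870912 536870912 50465866 3 eng mog cd2q0 cd3q1 pd1 false true true .pnn 0 1 1
    ndB2q0 ndB3q1 pcB1 Cut.none Ext.none :=
  certB0 (fam := false) (s1 := true) (s2 := true) (a := 0) (b := 1) (c := 1) (cn := .pnn) (n1 := ndB2q0) (n2 := ndB3q1) (pc := pcB1) (cut := Cut.none) (xt := Ext.none) (P1 := 0) (W1 := 536870912) (P2 := 536870912) (W2 := 536870912) (P3 := 536870912) (W3 := 50465866) (N0 := 3) (En := eng) (mo := mog) (C1 := cd2q0) (C2 := cd3q1) (C3 := pd1)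
    rfl k0_pp_011

noncomputable def cut_pp_012_a : Cut := Cut.of [[⟨0, 0, 0, 67108864⟩, ⟨1, 1, 0, 67108864⟩, ⟨2, 1, 0, 67108864⟩]]

noncomputable def f_pp_012_a : ℕ → ℕ → ℕ → ℕ → Bool := onCell 536870912 536870912 0 536870912 536870912 50465866
    (rowB 3 eng mog cd2q0 cd3q2a pd1 2 false true true .pnp 0 1 2 (qsf 0 536870912 0 536870912 1) ndB2q0 ndB3q2a pcB1 cut_pp_012_a Ext.none)

def k0_pp_012_a : ∃ t, chk3 f_pp_012_a t 1 1 1 = true :=
  ⟨(a (l 3) (a (b (a (b (l 3) (l 3)) (b (a (l 16773752) (l 16756256)) (a (l 3) (b (l 16771240) (l 16769440))))) (l 3)) (b (a (b (a (l 16725680) (l 16690640)) (a (b (l 16747688) (l 16762440)) (b (l 16714008) (l 16732112)))) (b (a (l 16653784) (l 16617344)) (a (b (l 16676480) (l 16695216)) (b (l 16638528) (l 16657232))))) (a (b (a (b (l 16771784) (l 3)) (b (l 16772440) (a (l 16771296) (l 16764328)))) (b (a (l 3) (b (l 242833599463) (l 3))) (l 3))) (b (a (b (l 16716672) (a (l 16749584) (l 16732200))) (b (a (l 16688424)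 (l 16669832)) (a (l 16713912) (b (l 16688512) (l 16702488))))) (b (a (b (a (l 16767880) (l 16753112)) (a (l 16812224) (b (l 16764272) (l 16771320)))) (a (b (l 16735640) (l 16751960)) (b (l 16717768) (a (l 16738920) (l 16730248))))) (a (b (a (l 3) (b (l 16814696) (l 3))) (l 3)) (b (a (b (a (l 16769040) (l 6)) (l 6)) (l 6)) (l 6))))))))), by decide +kernel⟩

theorem c_pp_012_a : CertB 0 536870912 0 536870912 536870912 50465866 3 eng mog cd2q0 cd3q2a pd1 false true true .pnp 0 1 2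
    ndB2q0 ndB3q2a pcB1 cut_pp_012_a Ext.none :=
  certB2 (fam := false) (s1 := true) (s2 := true) (a := 0) (b := 1) (c := 2) (cn := .pnp) (n1 := ndB2q0) (n2 := ndB3q2a) (pc := pcB1) (cut := cut_pp_012_a) (xt := Ext.none) (P1 := 0) (W1 := 536870912) (P2 := 0) (W2 := 536870912) (P3 := 536870912) (W3 := 50465866) (N0 := 3) (En := eng) (mo := mog) (C1 := cd2q0) (C2 := cd3q2a) (C3 := pd1)
    rfl (fun _ => rfl) k0_pp_012_a

noncomputable def cut_pp_012_b : Cut := Cut.of [[⟨0, 0, 0, 67108864⟩, ⟨1, 1, 0, 67108864⟩, ⟨2, 1, 0, 67108864⟩]]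

noncomputable def f_pp_012_b : ℕ → ℕ → ℕ → ℕ → Bool := onCell 536870912 536870912 1239849684 370763052 536870912 50465866
    (rowB 3 eng mog cd2q0 cd3q2b pd1 2 false true true .pnp 0 1 2 (qsf 0 536870912 1239849684 370763052 1) ndB2q0 ndB3q2b pcB1 cut_pp_012_b Ext.none)

def k0_pp_012_b : ∃ t, chk3 f_pp_012_b t 1 1 1 = true :=
  ⟨(a (a (l 2) (l 3)) (a (b (a (a (l 3) (b (l 16796416) (l 16782760))) (b (a (l 16758160) (b (l 16733120) (l 16719680))) (a (l 16755488) (l 16716368)))) (a (l 2) (b (l 16766840) (l 2)))) (b (a (b (a (b (l 16696160) (l 16675728)) (b (l 16658736) (l 16629552))) (a (l 16668544) (l 16613928))) (b (b (a (l 16621224) (l 16584320)) (l 16712024)) (b (l 16537680) (l 16522488)))) (a (b (l 16728696) (l 16794088)) (b (l 16534976) (l 16659200)))))), by decide +kernel⟩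

theorem c_pp_012_b : CertB 0 536870912 1239849684 370763052 536870912 50465866 3 eng mog cd2q0 cd3q2b pd1 false true true .pnp 0 1 2
    ndB2q0 ndB3q2b pcB1 cut_pp_012_b Ext.none :=
  certB2 (fam := false) (s1 := true) (s2 := true) (a := 0) (b := 1) (c := 2) (cn := .pnp) (n1 := ndB2q0) (n2 := ndB3q2b) (pc := pcB1) (cut := cut_pp_012_b) (xt := Ext.none) (P1 := 0) (W1 := 536870912) (P2 := 1239849684) (W2 := 370763052) (P3 := 536870912) (W3 := 50465866) (N0 := 3) (En := eng) (mo := mog) (C1 := cd2q0) (C2 := cd3q2b) (C3 := pd1)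
    rfl (fun _ => rfl) k0_pp_012_b

noncomputable def cut_pp_022_a : Cut := Cut.of [[⟨0, 0, 0, 67108864⟩, ⟨1, 1, 0, 67108864⟩, ⟨2, 1, 0, 67108864⟩]]

noncomputable def f_pp_022_a : ℕ → ℕ → ℕ → ℕ → Bool := onCell 0 536870912 0 536870912 536870912 50465866
    (rowB 3 eng mog cd2q0 cd3q2a pd2 0 false true true .pp 0 2 2 (qsf 0 536870912 0 536870912 2) ndB2q0 ndB3q2a pcB2 cut_pp_022_a Ext.none)

def k0_pp_022_a : ∃ t, chk3 f_pp_022_a t 4 2 1 = true :=
  ⟨(a (b (a (a (b (a (a (b (a (a (a (a (a (b (c (l 16498344) (b (l 16485792) (l 16485528))) (l 16492160)) (b (l 16492384) (l 16492184))) (l 16492416)) (l 16492552)) (l 16492936)) (l 16493816)) (a (l 16493384) (l 16494536))) (l 16496272)) (l 16500240)) (a (a (b (l 16496488) (l 16500904)) (l 16501672)) (l 16505928))) (b (l 16508080) (l 16514208))) (a (l 16542712) (l 16530912))) (a (a (b (a (b (l 16508920) (l 16517528)) (l 16519520)) (a (b (a (l 16526672) (l 16529992)) (a (l 16539816) (l 16543280))) (b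 (l 16534880) (l 16548368)))) (b (l 16528384) (b (l 16544256) (l 16558104)))) (a (b (l 16539280) (l 16563056)) (l 16624928)))) (a (b (l 16543024) (b (l 16562008) (l 16592936))) (b (l 16562776) (b (l 16592040) (a (l 16615440) (l 16628952)))))), by decide +kernel⟩

def k1_pp_022_a : ∃ t, chk3 f_pp_022_a t 4 3 1 = true :=
  ⟨(b (a (b (b (a (a (a (b (l 16553048) (l 16561632)) (l 16564456)) (l 16574576)) (l 16634704)) (a (a (a (a (b (l 16569032) (l 16579048)) (l 16577840)) (l 16583352)) (a (l 16590416) (l 16597160))) (l 16675552))) (a (a (a (a (b (b (l 16589864) (l 16601456)) (b (l 16613888) (c (l 16629296) (l 16624688)))) (b (l 16599600) (b (l 16617920) (l 16631304)))) (b (l 16605328) (b (l 16623792) (l 16637272)))) (a (b (l 16612656) (l 16659112)) (b (l 16619632) (l 16645360)))) (a (b (l 16629456) (l 16677528)) (b (l 16645152) (b (l 16664976) (l 16678872)))))) (b (a (b (l 16621688) (a (l 16636088) (l 16650544))) (b (l 16649528) (l 168073990135))) (a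 (b (a (l 16660120) (l 16673824)) (a (b (l 16679280) (l 16692712)) (l 303365519575))) (b (l 342557101543) (l 1))))) (a (b (a (b (b (a (a (a (c (l 16643248) (l 16639168)) (l 16645576)) (a (l 16649640) (l 16653624))) (l 16705112)) (b (a (a (a (l 16652632) (l 16656848)) (a (l 16660968) (l 16664992))) (l 16695608)) (l 6))) (l 6)) (b (a (a (l 16682616) (b (l 16682424) (l 16697736))) (b (l 16693280) (a (l 16704784) (l 16711504)))) (a (l 6) (a (l 6) (a (l 6) (l 1)))))) (a (l 6) (a (l 6) (l 1)))) (b (a (b (a (b (l 161094743895) (l 339335899767)) (l 1)) (l 1)) (l 1)) (l 1)))), by decide +kernel⟩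

def k2_pp_022_a : ∃ t, chk3 f_pp_022_a t 5 1 1 = true :=
  ⟨(b (a (b (a (l 16589616) (l 16612920)) (a (b (l 16618272) (l 334503962871)) (l 1))) (l 1)) (b (l 1) (l 1))), by decide +kernel⟩

def k3_pp_022_a : ∃ t, chk3 f_pp_022_a t 3 1 1 = true :=
  ⟨(l 1), by decide +kernel⟩

theorem s4_pp_022_a : ∃ t, chk3 f_pp_022_a t 4 1 1 = true := ex3_b k0_pp_022_a k1_pp_022_a

theorem s5_pp_022_a : ∃ t, chk3 f_pp_022_a t 2 1 1 = true := ex3_a s4_pp_022_a k2_pp_022_a

theorem s6_pp_022_a : ∃ t, chk3 f_pp_022_a t 1 1 1 = true := ex3_a s5_pp_022_a k3_pp_022_a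

theorem c_pp_022_a : CertB 0 536870912 0 536870912 536870912 50465866 3 eng mog cd2q0 cd3q2a pd2 false true true .pp 0 2 2
    ndB2q0 ndB3q2a pcB2 cut_pp_022_a Ext.none :=
  certB0 (fam := false) (s1 := true) (s2 := true) (a := 0) (b := 2) (c := 2) (cn := .pp) (n1 := ndB2q0) (n2 := ndB3q2a) (pc := pcB2) (cut := cut_pp_022_a) (xt := Ext.none) (P1 := 0) (W1 := 536870912) (P2 := 0) (W2 := 536870912) (P3 := 536870912) (W3 := 50465866) (N0 := 3) (En := eng) (mo := mog) (C1 := cd2q0) (C2 := cd3q2a) (C3 := pd2)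
    rfl s6_pp_022_a

noncomputable def cut_pp_022_b : Cut := Cut.of [[⟨0, 0, 0, 67108864⟩, ⟨1, 1, 0, 67108864⟩, ⟨2, 1, 0, 67108864⟩]]

noncomputable def f_pp_022_b : ℕ → ℕ → ℕ → ℕ → Bool := onCell 0 536870912 1073741824 536870912 536870912 50465866
    (rowB 3 eng mog cd2q0 cd3q2b pd2 1 false true true .pp 0 2 2 (qsf 0 536870912 1239849684 370763052 2) ndB2q0 ndB3q2b pcB2 cut_pp_022_b Ext.none)

def k0_pp_022_b : ∃ t, chk3 f_pp_022_b t 2 2 1 = true :=
  ⟨(b (a (b (a (l 1) (b (a (l 1) (l 16652064)) (l 205654876503))) (a (a (b (l 1) (a (l 1) (l 321618904103))) (b (l 384969604231) (a (l 72510769479) (l 16510480)))) (b (l 85395603223) (a (l 16482824) (l 16441344))))) (b (a (b (l 16578328) (l 16497896)) (b (l 16497440) (l 16442744))) (a (l 16529840) (l 16356024)))) (a (b (a (b (a (b (a (l 375305805703) (l 16504936)) (b (a (l 382285117031) (l 16486696)) (a (b (l 389801278727) (a (b (l 16491040) (c (l 16494120) (a (b (a (b (b (l 16485280) (l 16485136))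 (l 16484560)) (l 16483504)) (l 16482688)) (l 16480536)))) (b (l 16484416) (l 16482000)))) (b (l 16477936) (l 16473088))))) (b (l 16481344) (b (l 16463200) (a (l 16503088) (l 16444568))))) (a (a (b (a (b (c (l 16486984) (l 16474592)) (l 16471736)) (l 16470056)) (a (l 16458816) (l 16453032))) (l 16451528)) (l 16429752))) (b (b (l 16425288) (b (l 16406984) (a (l 16458968) (l 16375016)))) (l 16461416))) (a (a (a (b (a (a (b (l 16444600) (l 16430992)) (l 16435168)) (l 16431472)) (a (b (a (l 16419392) (l 16417440)) (l 16450888)) (l 16409640))) (b (l 16423592) (l 16403592))) (l 16502176)) (a (l 16373600) (l 16346040)))) (b (b (a (b (l 16331240) (l 16309680)) (l 16456568)) (a (l 16289456) (l 16213536))) (a (l 16286336) (l 16157144))))), by decide +kernel⟩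

def k1_pp_022_b : ∃ t, chk3 f_pp_022_b t 2 3 1 = true :=
  ⟨(b (a (a (b (a (a (b (a (b (l 16401456) (l 16396736)) (l 16396528)) (b (l 16394520) (l 16395288))) (l 16464720)) (l 16384248)) (a (b (a (l 16429656) (l 16396984)) (a (l 16402632) (l 16397400))) (l 16403944))) (b (a (l 16369240) (l 16343704)) (l 16343512))) (a (b (l 16282016) (l 16265600)) (l 16156816))) (b (a (a (a (a (b (a (l 16400712) (l 16394896)) (l 16384264)) (l 16378120)) (l 16359272)) (l 16313440)) (l 16343632)) (a (b (a (a (l 16366184) (l 16338880)) (l 16293848)) (a (a (b (l 16359392) (l 16390616)) (l 16346256)) (l 2))) (l 2)))), by decide +kernel⟩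

def k2_pp_022_b : ∃ t, chk3 f_pp_022_b t 3 1 1 = true :=
  ⟨(b (b (a (b (a (l 16486112) (l 16421328)) (a (l 16328744) (l 16370832))) (b (l 16537304) (l 16526672))) (b (a (b (b (l 16312376) (l 16312168)) (l 16284712)) (l 16539224)) (a (l 16242704) (l 2)))) (b (a (b (l 16339632) (l 2)) (l 2)) (l 2))), by decide +kernel⟩

theorem s3_pp_022_b : ∃ t, chk3 f_pp_022_b t 2 1 1 = true := ex3_b k0_pp_022_b k1_pp_022_b

theorem s4_pp_022_b : ∃ t, chk3 f_pp_022_b t 1 1 1 = true := ex3_a s3_pp_022_b k2_pp_022_b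

theorem c_pp_022_b : CertB 0 536870912 1239849684 370763052 536870912 50465866 3 eng mog cd2q0 cd3q2b pd2 false true true .pp 0 2 2
    ndB2q0 ndB3q2b pcB2 cut_pp_022_b Ext.none :=
  certB1 (fam := false) (s1 := true) (s2 := true) (a := 0) (b := 2) (c := 2) (cn := .pp) (n1 := ndB2q0) (n2 := ndB3q2b) (pc := pcB2) (cut := cut_pp_022_b) (xt := Ext.none) (P1 := 0) (W1 := 536870912) (P2 := 1239849684) (W2 := 370763052) (P3 := 536870912) (W3 := 50465866) (N0 := 3) (En := eng) (mo := mog) (C1 := cd2q0) (C2 := cd3q2b) (C3 := pd2)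
    rfl (fun _ => rfl) s4_pp_022_b

noncomputable def f_pp_023 : ℕ → ℕ → ℕ → ℕ → Bool := onCell 1073741824 536870912 1610612736 536870912 536870912 50465866
    (rowB 3 eng mog cd2q0 cd3q3 pd2 2 false true true .up 0 2 3 (qsf 0 536870912 1610612736 536870912 2) ndB2q0 ndB3q3 pcB2 Cut.none Ext.none)

def k0_pp_023 : ∃ t, chk3 f_pp_023 t 1 1 1 = true :=
  ⟨(a (a (b (b (a (l 16684568) (l 16541088)) (l 156329570951)) (l 2)) (b (b (a (l 16398568) (l 16273216)) (a (l 16678000) (l 16619288))) (b (a (l 2) (l 16720216)) (l 2)))) (a (b (b (a (l 16232168) (l 16256952)) (l 16552160)) (b (l 16698920) (l 323834233655))) (b (a (b (l 16314848) (l 16537088)) (b (a (l 16368256) (b (a (l 16380464) (l 16425904)) (l 16454408))) (a (l 16547016) (l 16560824)))) (a (l 16902544) (b (l 16672784) (l 16731256)))))), by decide +kernel⟩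

theorem c_pp_023 : CertB 0 536870912 1610612736 536870912 536870912 50465866 3 eng mog cd2q0 cd3q3 pd2 false true true .up 0 2 3
    ndB2q0 ndB3q3 pcB2 Cut.none Ext.none :=
  certB2 (fam := false) (s1 := true) (s2 := true) (a := 0) (b := 2) (c := 3) (cn := .up) (n1 := ndB2q0) (n2 := ndB3q3) (pc := pcB2) (cut := Cut.none) (xt := Ext.none) (P1 := 0) (W1 := 536870912) (P2 := 1610612736) (W2 := 536870912) (P3 := 536870912) (W3 := 50465866) (N0 := 3) (En := eng) (mo := mog) (C1 := cd2q0) (C2 := cd3q3) (C3 := pd2)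
    rfl (fun _ => rfl) k0_pp_023

noncomputable def f_pp_033 : ℕ → ℕ → ℕ → ℕ → Bool := onCell 0 536870912 1610612736 536870912 536870912 50465866
    (rowB 3 eng mog cd2q0 cd3q3 pd3 1 false true true .pnn 0 3 3 (qsf 0 536870912 1610612736 536870912 3) ndB2q0 ndB3q3 pcB3 Cut.none Ext.none)

def k0_pp_033 : ∃ t, chk3 f_pp_033 t 1 1 1 = true :=
  ⟨(a (a (b (b (b (b (a (a (l 16415992) (l 16452808)) (l 16506424)) (a (l 16440152) (l 16566216))) (a (b (l 16569384) (l 16592928)) (l 16610432))) (b (a (b (l 16620384) (l 16655280)) (l 16665296)) (b (l 16691952) (l 16710136)))) (b (b (l 16723416) (l 4)) (l 4))) (b (b (b (a (l 16593520) (l 16638744)) (a (l 16646576) (l 16679072))) (b (l 16700400) (l 16719384))) (b (l 4) (a (b (l 4) (l 2)) (l 2))))) (b (a (b (b (a (l 16678440) (l 16707240)) (l 16717200)) (b (l 16732864) (l 4))) (b (b (l 16744392) (l 16764392)) (a (b (l 4) (l 2)) (l 2)))) (a (b (a (b (l 4) (l 2)) (l 2)) (l 2)) (l 2)))), by decide +kernel⟩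

theorem c_pp_033 : CertB 0 536870912 1610612736 536870912 536870912 50465866 3 eng mog cd2q0 cd3q3 pd3 false true true .pnn 0 3 3
    ndB2q0 ndB3q3 pcB3 Cut.none Ext.none :=
  certB1 (fam := false) (s1 := true) (s2 := true) (a := 0) (b := 3) (c := 3) (cn := .pnn) (n1 := ndB2q0) (n2 := ndB3q3) (pc := pcB3) (cut := Cut.none) (xt := Ext.none) (P1 := 0) (W1 := 536870912) (P2 := 1610612736) (W2 := 536870912) (P3 := 536870912) (W3 := 50465866) (N0 := 3) (En := eng) (mo := mog) (C1 := cd2q0) (C2 := cd3q3) (C3 := pd3)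
    rfl (fun _ => rfl) k0_pp_033

noncomputable def f_pp_101 : ℕ → ℕ → ℕ → ℕ → Bool := onCell 536870912 536870912 536870912 536870912 536870912 50465866
    (rowB 3 eng mog cd2q1 cd3q1 pd0 0 false true true .npn 1 0 1 (qsf 536870912 536870912 536870912 536870912 0) ndB2q1 ndB3q1 pcB0 Cut.none Ext.none)

def k0_pp_101 : ∃ t, chk3 f_pp_101 t 1 1 1 = true :=
  ⟨(l 3), by decide +kernel⟩

theorem c_pp_101 : CertB 536870912 536870912 536870912 536870912 536870912 50465866 3 eng mog cd2q1 cd3q1 pd0 false true true .npn 1 0 1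
    ndB2q1 ndB3q1 pcB0 Cut.none Ext.none :=
  certB0 (fam := false) (s1 := true) (s2 := true) (a := 1) (b := 0) (c := 1) (cn := .npn) (n1 := ndB2q1) (n2 := ndB3q1) (pc := pcB0) (cut := Cut.none) (xt := Ext.none) (P1 := 536870912) (W1 := 536870912) (P2 := 536870912) (W2 := 536870912) (P3 := 536870912) (W3 := 50465866) (N0 := 3) (En := eng) (mo := mog) (C1 := cd2q1) (C2 := cd3q1) (C3 := pd0)
    rfl k0_pp_101

noncomputable def f_pp_102_a : ℕ → ℕ → ℕ → ℕ → Bool := onCell 536870912 536870912 0 536870912 536870912 50465866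
    (rowB 3 eng mog cd2q1 cd3q2a pd0 0 false true true .npp 1 0 2 (qsf 536870912 536870912 0 536870912 0) ndB2q1 ndB3q2a pcB0 Cut.none Ext.none)

def k0_pp_102_a : ∃ t, chk3 f_pp_102_a t 1 1 1 = true :=
  ⟨(l 3), by decide +kernel⟩

theorem c_pp_102_a : CertB 536870912 536870912 0 536870912 536870912 50465866 3 eng mog cd2q1 cd3q2a pd0 false true true .npp 1 0 2
    ndB2q1 ndB3q2a pcB0 Cut.none Ext.none :=
  certB0 (fam := false) (s1 := true) (s2 := true) (a := 1) (b := 0) (c := 2) (cn := .npp) (n1 := ndB2q1) (n2 := ndB3q2a) (pc := pcB0) (cut := Cut.none) (xt := Ext.none) (P1 := 536870912) (W1 := 536870912) (P2 := 0) (W2 := 536870912) (P3 := 536870912) (W3 := 50465866) (N0 := 3) (En := eng) (mo := mog) (C1 := cd2q1) (C2 := cd3q2a) (C3 := pd0)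
    rfl k0_pp_102_a

noncomputable def f_pp_102_b : ℕ → ℕ → ℕ → ℕ → Bool := onCell 536870912 536870912 0 536870912 536870912 50465866
    (rowB 3 eng mog cd2q1 cd3q2b pd0 1 false true true .npp 1 0 2 (qsf 536870912 536870912 1239849684 370763052 0) ndB2q1 ndB3q2b pcB0 Cut.none Ext.none)

def k0_pp_102_b : ∃ t, chk3 f_pp_102_b t 1 1 1 = true :=
  ⟨(l 3), by decide +kernel⟩

theorem c_pp_102_b : CertB 536870912 536870912 1239849684 370763052 536870912 50465866 3 eng mog cd2q1 cd3q2b pd0 false true true .npp 1 0 2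
    ndB2q1 ndB3q2b pcB0 Cut.none Ext.none :=
  certB1 (fam := false) (s1 := true) (s2 := true) (a := 1) (b := 0) (c := 2) (cn := .npp) (n1 := ndB2q1) (n2 := ndB3q2b) (pc := pcB0) (cut := Cut.none) (xt := Ext.none) (P1 := 536870912) (W1 := 536870912) (P2 := 1239849684) (W2 := 370763052) (P3 := 536870912) (W3 := 50465866) (N0 := 3) (En := eng) (mo := mog) (C1 := cd2q1) (C2 := cd3q2b) (C3 := pd0)
    rfl (fun _ => rfl) k0_pp_102_b

noncomputable def f_pp_112_a : ℕ → ℕ → ℕ → ℕ → Bool := onCell 536870912 536870912 0 536870912 536870912 50465866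
    (rowB 3 eng mog cd2q1 cd3q2a pd1 0 false true true .dn 1 1 2 (qsf 536870912 536870912 0 536870912 1) ndB2q1 ndB3q2a pcB1 Cut.none Ext.none)

def k0_pp_112_a : ∃ t, chk3 f_pp_112_a t 1 1 1 = true :=
  ⟨(l 3), by decide +kernel⟩

theorem c_pp_112_a : CertB 536870912 536870912 0 536870912 536870912 50465866 3 eng mog cd2q1 cd3q2a pd1 false true true .dn 1 1 2
    ndB2q1 ndB3q2a pcB1 Cut.none Ext.none :=
  certB0 (fam := false) (s1 := true) (s2 := true) (a := 1) (b := 1) (c := 2) (cn := .dn) (n1 := ndB2q1) (n2 := ndB3q2a) (pc := pcB1) (cut := Cut.none) (xt := Ext.none) (P1 := 536870912) (W1 := 536870912) (P2 := 0) (W2 := 536870912) (P3 := 536870912) (W3 := 50465866) (N0 := 3) (En := eng) (mo := mog) (C1 := cd2q1) (C2 := cd3q2a) (C3 := pd1)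
    rfl k0_pp_112_a

noncomputable def f_pp_112_b : ℕ → ℕ → ℕ → ℕ → Bool := onCell 536870912 536870912 1239849684 370763052 536870912 50465866
    (rowB 3 eng mog cd2q1 cd3q2b pd1 2 false true true .dn 1 1 2 (qsf 536870912 536870912 1239849684 370763052 1) ndB2q1 ndB3q2b pcB1 Cut.none Ext.none)

def k0_pp_112_b : ∃ t, chk3 f_pp_112_b t 1 1 1 = true :=
  ⟨(a (a (l 3) (l 3)) (a (b (b (l 1) (a (a (l 3) (l 16786248)) (l 106334427127))) (a (b (a (l 3) (l 16865752)) (a (l 208473850967) (l 16874176))) (b (l 17026944) (a (l 17059144) (l 17008496))))) (b (l 1) (a (b (l 16734392) (l 16876368)) (b (l 1) (l 16675344)))))), by decide +kernel⟩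

theorem c_pp_112_b : CertB 536870912 536870912 1239849684 370763052 536870912 50465866 3 eng mog cd2q1 cd3q2b pd1 false true true .dn 1 1 2
    ndB2q1 ndB3q2b pcB1 Cut.none Ext.none :=
  certB2 (fam := false) (s1 := true) (s2 := true) (a := 1) (b := 1) (c := 2) (cn := .dn) (n1 := ndB2q1) (n2 := ndB3q2b) (pc := pcB1) (cut := Cut.none) (xt := Ext.none) (P1 := 536870912) (W1 := 536870912) (P2 := 1239849684) (W2 := 370763052) (P3 := 536870912) (W3 := 50465866) (N0 := 3) (En := eng) (mo := mog) (C1 := cd2q1) (C2 := cd3q2b) (C3 := pd1)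
    rfl (fun _ => rfl) k0_pp_112_b

noncomputable def f_pp_113 : ℕ → ℕ → ℕ → ℕ → Bool := onCell 536870912 536870912 536870912 536870912 536870912 50465866
    (rowB 3 eng mog cd2q1 cd3q3 pd1 1 false true true .nn 1 1 3 (qsf 536870912 536870912 1610612736 536870912 1) ndB2q1 ndB3q3 pcB1 Cut.none Ext.none)

def k0_pp_113 : ∃ t, chk3 f_pp_113 t 1 1 1 = true :=
  ⟨(b (b (l 3) (a (l 3) (l 3))) (b (a (a (b (l 1) (l 230351127623)) (b (a (l 364032433639) (l 190757129575)) (a (l 17210936) (l 17137512)))) (b (b (a (l 245518134903) (l 290615554215)) (a (a (l 17010440) (l 16978080)) (a (l 16947976) (l 16918872)))) (a (b (l 17034952) (l 17068232)) (b (l 16951336) (l 16960112))))) (a (b (a (a (l 16783824) (l 17038408)) (l 17102648)) (a (l 16892928) (l 17153528))) (a (b (l 17106744) (l 17084960)) (b (l 16956480) (l 16918736)))))), by decide +kernel⟩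

theorem c_pp_113 : CertB 536870912 536870912 1610612736 536870912 536870912 50465866 3 eng mog cd2q1 cd3q3 pd1 false true true .nn 1 1 3
    ndB2q1 ndB3q3 pcB1 Cut.none Ext.none :=
  certB1 (fam := false) (s1 := true) (s2 := true) (a := 1) (b := 1) (c := 3) (cn := .nn) (n1 := ndB2q1) (n2 := ndB3q3) (pc := pcB1) (cut := Cut.none) (xt := Ext.none) (P1 := 536870912) (W1 := 536870912) (P2 := 1610612736) (W2 := 536870912) (P3 := 536870912) (W3 := 50465866) (N0 := 3) (En := eng) (mo := mog) (C1 := cd2q1) (C2 := cd3q3) (C3 := pd1)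
    rfl (fun _ => rfl) k0_pp_113

noncomputable def f_pp_123 : ℕ → ℕ → ℕ → ℕ → Bool := onCell 1073741824 536870912 1610612736 536870912 536870912 50465866
    (rowB 3 eng mog cd2q1 cd3q3 pd2 2 false true true .npn 1 2 3 (qsf 536870912 536870912 1610612736 536870912 2) ndB2q1 ndB3q3 pcB2 Cut.none Ext.none)

def k0_pp_123 : ∃ t, chk3 f_pp_123 t 1 1 1 = true :=
  ⟨(a (b (a (b (a (l 16751672) (l 16550224)) (b (l 16896608) (l 16980768))) (b (a (l 16439480) (l 1)) (a (l 16713368) (l 16623576)))) (a (b (a (l 17007640) (l 16938392)) (l 16843664)) (b (a (l 16851216) (l 16775976)) (b (l 16808368) (l 16765864))))) (a (b (b (l 1) (l 16575280)) (b (l 16703872) (l 16837360))) (b (l 1) (a (l 478922786551) (l 447784270695))))), by decide +kernel⟩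

theorem c_pp_123 : CertB 536870912 536870912 1610612736 536870912 536870912 50465866 3 eng mog cd2q1 cd3q3 pd2 false true true .npn 1 2 3
    ndB2q1 ndB3q3 pcB2 Cut.none Ext.none :=
  certB2 (fam := false) (s1 := true) (s2 := true) (a := 1) (b := 2) (c := 3) (cn := .npn) (n1 := ndB2q1) (n2 := ndB3q3) (pc := pcB2) (cut := Cut.none) (xt := Ext.none) (P1 := 536870912) (W1 := 536870912) (P2 := 1610612736) (W2 := 536870912) (P3 := 536870912) (W3 := 50465866) (N0 := 3) (En := eng) (mo := mog) (C1 := cd2q1) (C2 := cd3q3) (C3 := pd2)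
    rfl (fun _ => rfl) k0_pp_123

noncomputable def f_pp_133 : ℕ → ℕ → ℕ → ℕ → Bool := onCell 1610612736 536870912 1610612736 536870912 536870912 50465866
    (rowB 3 eng mog cd2q1 cd3q3 pd3 2 false true true .dn 1 3 3 (qsf 536870912 536870912 1610612736 536870912 3) ndB2q1 ndB3q3 pcB3 Cut.none Ext.none)

def k0_pp_133 : ∃ t, chk3 f_pp_133 t 1 1 1 = true :=
  ⟨(a (a (b (l 1) (b (l 1) (l 556769107575))) (l 1)) (l 1)), by decide +kernel⟩

theorem c_pp_133 : CertB 536870912 536870912 1610612736 536870912 536870912 50465866 3 eng mog cd2q1 cd3q3 pd3 false true true .dn 1 3 3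
    ndB2q1 ndB3q3 pcB3 Cut.none Ext.none :=
  certB2 (fam := false) (s1 := true) (s2 := true) (a := 1) (b := 3) (c := 3) (cn := .dn) (n1 := ndB2q1) (n2 := ndB3q3) (pc := pcB3) (cut := Cut.none) (xt := Ext.none) (P1 := 536870912) (W1 := 536870912) (P2 := 1610612736) (W2 := 536870912) (P3 := 536870912) (W3 := 50465866) (N0 := 3) (En := eng) (mo := mog) (C1 := cd2q1) (C2 := cd3q3) (C3 := pd3)
    rfl (fun _ => rfl) k0_pp_133

noncomputable def f_pp_202_aa : ℕ → ℕ → ℕ → ℕ → Bool := onCell 0 536870912 0 536870912 536870912 50465866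
    (rowB 3 eng mog cd2q2a cd3q2a pd0 0 false true true .pp 2 0 2 (qsf 0 536870912 0 536870912 0) ndB2q2a ndB3q2a pcB0 Cut.none Ext.none)

def k0_pp_202_aa : ∃ t, chk3 f_pp_202_aa t 1 1 1 = true :=
  ⟨(l 3), by decide +kernel⟩

theorem c_pp_202_aa : CertB 0 536870912 0 536870912 536870912 50465866 3 eng mog cd2q2a cd3q2a pd0 false true true .pp 2 0 2
    ndB2q2a ndB3q2a pcB0 Cut.none Ext.none :=
  certB0 (fam := false) (s1 := true) (s2 := true) (a := 2) (b := 0) (c := 2) (cn := .pp) (n1 := ndB2q2a) (n2 := ndB3q2a) (pc := pcB0) (cut := Cut.none) (xt := Ext.none) (P1 := 0) (W1 := 536870912) (P2 := 0) (W2 := 536870912) (P3 := 536870912) (W3 := 50465866) (N0 := 3) (En := eng) (mo := mog) (C1 := cd2q2a) (C2 := cd3q2a) (C3 := pd0)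
    rfl k0_pp_202_aa

noncomputable def f_pp_202_ab : ℕ → ℕ → ℕ → ℕ → Bool := onCell 0 536870912 1239849684 370763052 536870912 50465866
    (rowB 3 eng mog cd2q2a cd3q2b pd0 0 false true true .pp 2 0 2 (qsf 0 536870912 1239849684 370763052 0) ndB2q2a ndB3q2b pcB0 Cut.none Ext.none)

def k0_pp_202_ab : ∃ t, chk3 f_pp_202_ab t 1 1 1 = true :=
  ⟨(l 3), by decide +kernel⟩

theorem c_pp_202_ab : CertB 0 536870912 1239849684 370763052 536870912 50465866 3 eng mog cd2q2a cd3q2b pd0 false true true .pp 2 0 2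
    ndB2q2a ndB3q2b pcB0 Cut.none Ext.none :=
  certB0 (fam := false) (s1 := true) (s2 := true) (a := 2) (b := 0) (c := 2) (cn := .pp) (n1 := ndB2q2a) (n2 := ndB3q2b) (pc := pcB0) (cut := Cut.none) (xt := Ext.none) (P1 := 0) (W1 := 536870912) (P2 := 1239849684) (W2 := 370763052) (P3 := 536870912) (W3 := 50465866) (N0 := 3) (En := eng) (mo := mog) (C1 := cd2q2a) (C2 := cd3q2b) (C3 := pd0)
    rfl k0_pp_202_ab

noncomputable def f_pp_202_ba : ℕ → ℕ → ℕ → ℕ → Bool := onCell 1239849684 370763052 0 536870912 536870912 50465866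
    (rowB 3 eng mog cd2q2b cd3q2a pd0 0 false true true .pp 2 0 2 (qsf 1239849684 370763052 0 536870912 0) ndB2q2b ndB3q2a pcB0 Cut.none Ext.none)

def k0_pp_202_ba : ∃ t, chk3 f_pp_202_ba t 1 1 1 = true :=
  ⟨(l 3), by decide +kernel⟩

theorem c_pp_202_ba : CertB 1239849684 370763052 0 536870912 536870912 50465866 3 eng mog cd2q2b cd3q2a pd0 false true true .pp 2 0 2
    ndB2q2b ndB3q2a pcB0 Cut.none Ext.none :=
  certB0 (fam := false) (s1 := true) (s2 := true) (a := 2) (b := 0) (c := 2) (cn := .pp) (n1 := ndB2q2b) (n2 := ndB3q2a) (pc := pcB0) (cut := Cut.none) (xt := Ext.none) (P1 := 1239849684) (W1 := 370763052) (P2 := 0) (W2 := 536870912) (P3 := 536870912) (W3 := 50465866) (N0 := 3) (En := eng) (mo := mog) (C1 := cd2q2b) (C2 := cd3q2a) (C3 := pd0)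
    rfl k0_pp_202_ba

noncomputable def f_pp_202_bb : ℕ → ℕ → ℕ → ℕ → Bool := onCell 1239849684 370763052 1239849684 370763052 536870912 50465866
    (rowB 3 eng mog cd2q2b cd3q2b pd0 0 false true true .pp 2 0 2 (qsf 1239849684 370763052 1239849684 370763052 0) ndB2q2b ndB3q2b pcB0 Cut.none Ext.none)

def k0_pp_202_bb : ∃ t, chk3 f_pp_202_bb t 1 1 1 = true :=
  ⟨(l 3), by decide +kernel⟩

theorem c_pp_202_bb : CertB 1239849684 370763052 1239849684 370763052 536870912 50465866 3 eng mog cd2q2b cd3q2b pd0 false true true .pp 2 0 2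
    ndB2q2b ndB3q2b pcB0 Cut.none Ext.none :=
  certB0 (fam := false) (s1 := true) (s2 := true) (a := 2) (b := 0) (c := 2) (cn := .pp) (n1 := ndB2q2b) (n2 := ndB3q2b) (pc := pcB0) (cut := Cut.none) (xt := Ext.none) (P1 := 1239849684) (W1 := 370763052) (P2 := 1239849684) (W2 := 370763052) (P3 := 536870912) (W3 := 50465866) (N0 := 3) (En := eng) (mo := mog) (C1 := cd2q2b) (C2 := cd3q2b) (C3 := pd0)
    rfl k0_pp_202_bb

noncomputable def f_pp_203_a : ℕ → ℕ → ℕ → ℕ → Bool := onCell 0 536870912 0 536870912 536870912 50465866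
    (rowB 3 eng mog cd2q2a cd3q3 pd0 1 false true true .up 2 0 3 (qsf 0 536870912 1610612736 536870912 0) ndB2q2a ndB3q3 pcB0 Cut.none Ext.none)

def k0_pp_203_a : ∃ t, chk3 f_pp_203_a t 1 1 1 = true :=
  ⟨(l 3), by decide +kernel⟩

theorem c_pp_203_a : CertB 0 536870912 1610612736 536870912 536870912 50465866 3 eng mog cd2q2a cd3q3 pd0 false true true .up 2 0 3
    ndB2q2a ndB3q3 pcB0 Cut.none Ext.none :=
  certB1 (fam := false) (s1 := true) (s2 := true) (a := 2) (b := 0) (c := 3) (cn := .up) (n1 := ndB2q2a) (n2 := ndB3q3) (pc := pcB0) (cut := Cut.none) (xt := Ext.none) (P1 := 0) (W1 := 536870912) (P2 := 1610612736) (W2 := 536870912) (P3 := 536870912) (W3 := 50465866) (N0 := 3) (En := eng) (mo := mog) (C1 := cd2q2a) (C2 := cd3q3) (C3 := pd0)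
    rfl (fun _ => rfl) k0_pp_203_a

noncomputable def f_pp_203_b : ℕ → ℕ → ℕ → ℕ → Bool := onCell 1239849684 370763052 1610612736 536870912 536870912 50465866
    (rowB 3 eng mog cd2q2b cd3q3 pd0 0 false true true .up 2 0 3 (qsf 1239849684 370763052 1610612736 536870912 0) ndB2q2b ndB3q3 pcB0 Cut.none Ext.none)

def k0_pp_203_b : ∃ t, chk3 f_pp_203_b t 1 1 1 = true :=
  ⟨(l 3), by decide +kernel⟩

theorem c_pp_203_b : CertB 1239849684 370763052 1610612736 536870912 536870912 50465866 3 eng mog cd2q2b cd3q3 pd0 false true true .up 2 0 3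
    ndB2q2b ndB3q3 pcB0 Cut.none Ext.none :=
  certB0 (fam := false) (s1 := true) (s2 := true) (a := 2) (b := 0) (c := 3) (cn := .up) (n1 := ndB2q2b) (n2 := ndB3q3) (pc := pcB0) (cut := Cut.none) (xt := Ext.none) (P1 := 1239849684) (W1 := 370763052) (P2 := 1610612736) (W2 := 536870912) (P3 := 536870912) (W3 := 50465866) (N0 := 3) (En := eng) (mo := mog) (C1 := cd2q2b) (C2 := cd3q3) (C3 := pd0)
    rfl k0_pp_203_b

noncomputable def cut_pp_213_a : Cut := Cut.of [[⟨0, 1, 0, 67108864⟩, ⟨1, 1, 0, 67108864⟩, ⟨2, 2, 0, 16777216⟩]]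

noncomputable def f_pp_213_a : ℕ → ℕ → ℕ → ℕ → Bool := onCell 0 536870912 1610612736 536870912 536870912 50465866
    (rowB 3 eng mog cd2q2a cd3q3 pd1 0 false true true .pnn 2 1 3 (qsf 0 536870912 1610612736 536870912 1) ndB2q2a ndB3q3 pcB1 cut_pp_213_a Ext.none)

def k0_pp_213_a : ∃ t, chk3 f_pp_213_a t 1 1 1 = true :=
  ⟨(b (l 3) (a (l 3) (b (l 3) (a (l 3) (b (l 3) (a (l 3) (b (l 3) (b (l 3) (b (l 3) (l 6)))))))))), by decide +kernel⟩

theorem c_pp_213_a : CertB 0 536870912 1610612736 536870912 536870912 50465866 3 eng mog cd2q2a cd3q3 pd1 false true true .pnn 2 1 3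
    ndB2q2a ndB3q3 pcB1 cut_pp_213_a Ext.none :=
  certB0 (fam := false) (s1 := true) (s2 := true) (a := 2) (b := 1) (c := 3) (cn := .pnn) (n1 := ndB2q2a) (n2 := ndB3q3) (pc := pcB1) (cut := cut_pp_213_a) (xt := Ext.none) (P1 := 0) (W1 := 536870912) (P2 := 1610612736) (W2 := 536870912) (P3 := 536870912) (W3 := 50465866) (N0 := 3) (En := eng) (mo := mog) (C1 := cd2q2a) (C2 := cd3q3) (C3 := pd1)
    rfl k0_pp_213_a

noncomputable def cut_pp_213_b : Cut := Cut.of [[⟨0, 1, 0, 67108864⟩, ⟨1, 1, 0, 67108864⟩, ⟨2, 2, 0, 16777216⟩]]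

noncomputable def f_pp_213_b : ℕ → ℕ → ℕ → ℕ → Bool := onCell 1239849684 370763052 1610612736 536870912 536870912 50465866
    (rowB 3 eng mog cd2q2b cd3q3 pd1 0 false true true .pnn 2 1 3 (qsf 1239849684 370763052 1610612736 536870912 1) ndB2q2b ndB3q3 pcB1 cut_pp_213_b Ext.none)

def k0_pp_213_b : ∃ t, chk3 f_pp_213_b t 1 1 1 = true :=
  ⟨(l 3), by decide +kernel⟩

theorem c_pp_213_b : CertB 1239849684 370763052 1610612736 536870912 536870912 50465866 3 eng mog cd2q2b cd3q3 pd1 false true true .pnn 2 1 3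
    ndB2q2b ndB3q3 pcB1 cut_pp_213_b Ext.none :=
  certB0 (fam := false) (s1 := true) (s2 := true) (a := 2) (b := 1) (c := 3) (cn := .pnn) (n1 := ndB2q2b) (n2 := ndB3q3) (pc := pcB1) (cut := cut_pp_213_b) (xt := Ext.none) (P1 := 1239849684) (W1 := 370763052) (P2 := 1610612736) (W2 := 536870912) (P3 := 536870912) (W3 := 50465866) (N0 := 3) (En := eng) (mo := mog) (C1 := cd2q2b) (C2 := cd3q3) (C3 := pd1)
    rfl k0_pp_213_b

noncomputable def f_pp_303 : ℕ → ℕ → ℕ → ℕ → Bool := onCell 1610612736 536870912 1610612736 536870912 536870912 50465866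
    (rowB 3 eng mog cd2q3 cd3q3 pd0 0 false true true .npn 3 0 3 (qsf 1610612736 536870912 1610612736 536870912 0) ndB2q3 ndB3q3 pcB0 Cut.none Ext.none)

def k0_pp_303 : ∃ t, chk3 f_pp_303 t 1 1 1 = true :=
  ⟨(l 3), by decide +kernel⟩

theorem c_pp_303 : CertB 1610612736 536870912 1610612736 536870912 536870912 50465866 3 eng mog cd2q3 cd3q3 pd0 false true true .npn 3 0 3
    ndB2q3 ndB3q3 pcB0 Cut.none Ext.none :=
  certB0 (fam := false) (s1 := true) (s2 := true) (a := 3) (b := 0) (c := 3) (cn := .npn) (n1 := ndB2q3) (n2 := ndB3q3) (pc := pcB0) (cut := Cut.none) (xt := Ext.none) (P1 := 1610612736) (W1 := 536870912) (P2 := 1610612736) (W2 := 536870912) (P3 := 536870912) (W3 := 50465866) (N0 := 3) (En := eng) (mo := mog) (C1 := cd2q3) (C2 := cd3q3) (C3 := pd0)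
    rfl k0_pp_303

noncomputable def f_pp_313 : ℕ → ℕ → ℕ → ℕ → Bool := onCell 1610612736 536870912 1610612736 536870912 536870912 50465866
    (rowB 3 eng mog cd2q3 cd3q3 pd1 0 false true true .dn 3 1 3 (qsf 1610612736 536870912 1610612736 536870912 1) ndB2q3 ndB3q3 pcB1 Cut.none Ext.none)

def k0_pp_313 : ∃ t, chk3 f_pp_313 t 1 1 1 = true :=
  ⟨(l 3), by decide +kernel⟩

theorem c_pp_313 : CertB 1610612736 536870912 1610612736 536870912 536870912 50465866 3 eng mog cd2q3 cd3q3 pd1 false true true .dn 3 1 3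
    ndB2q3 ndB3q3 pcB1 Cut.none Ext.none :=
  certB0 (fam := false) (s1 := true) (s2 := true) (a := 3) (b := 1) (c := 3) (cn := .dn) (n1 := ndB2q3) (n2 := ndB3q3) (pc := pcB1) (cut := Cut.none) (xt := Ext.none) (P1 := 1610612736) (W1 := 536870912) (P2 := 1610612736) (W2 := 536870912) (P3 := 536870912) (W3 := 50465866) (N0 := 3) (En := eng) (mo := mog) (C1 := cd2q3) (C2 := cd3q3) (C3 := pd1)
    rfl k0_pp_313

noncomputable def f_pm_001 : ℕ → ℕ → ℕ → ℕ → Bool := onCell 0 536870912 536870912 536870912 536870912 50465866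
    (rowB 3 eng mog cd2q0 cd3q1 pd0 0 false true false .up 0 0 1 (qsf 0 536870912 536870912 536870912 0) ndB2q0 ndB3q1 pcB0 Cut.none Ext.none)

def k0_pm_001 : ∃ t, chk3 f_pm_001 t 1 1 1 = true :=
  ⟨(l 4), by decide +kernel⟩

theorem c_pm_001 : CertB 0 536870912 536870912 536870912 536870912 50465866 3 eng mog cd2q0 cd3q1 pd0 false true false .up 0 0 1
    ndB2q0 ndB3q1 pcB0 Cut.none Ext.none :=
  certB0 (fam := false) (s1 := true) (s2 := false) (a := 0) (b := 0) (c := 1) (cn := .up) (n1 := ndB2q0) (n2 := ndB3q1) (pc := pcB0) (cut := Cut.none) (xt := Ext.none) (P1 := 0) (W1 := 536870912) (P2 := 536870912) (W2 := 536870912) (P3 := 536870912) (W3 := 50465866) (N0 := 3) (En := eng) (mo := mog) (C1 := cd2q0) (C2 := cd3q1) (C3 := pd0)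
    rfl k0_pm_001

noncomputable def f_pm_011 : ℕ → ℕ → ℕ → ℕ → Bool := onCell 0 536870912 536870912 536870912 536870912 50465866
    (rowB 3 eng mog cd2q0 cd3q1 pd1 0 false true false .pnn 0 1 1 (qsf 0 536870912 536870912 536870912 1) ndB2q0 ndB3q1 pcB1 Cut.none Ext.none)

def k0_pm_011 : ∃ t, chk3 f_pm_011 t 1 1 1 = true :=
  ⟨(l 4), by decide +kernel⟩

theorem c_pm_011 : CertB 0 536870912 536870912 536870912 536870912 50465866 3 eng mog cd2q0 cd3q1 pd1 false true false .pnn 0 1 1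
    ndB2q0 ndB3q1 pcB1 Cut.none Ext.none :=
  certB0 (fam := false) (s1 := true) (s2 := false) (a := 0) (b := 1) (c := 1) (cn := .pnn) (n1 := ndB2q0) (n2 := ndB3q1) (pc := pcB1) (cut := Cut.none) (xt := Ext.none) (P1 := 0) (W1 := 536870912) (P2 := 536870912) (W2 := 536870912) (P3 := 536870912) (W3 := 50465866) (N0 := 3) (En := eng) (mo := mog) (C1 := cd2q0) (C2 := cd3q1) (C3 := pd1)
    rfl k0_pm_011

noncomputable def cut_pm_012_a : Cut := Cut.of [[⟨0, 0, 0, 67108864⟩, ⟨1, 1, 0, 67108864⟩, ⟨2, 1, 0, 67108864⟩]]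

noncomputable def f_pm_012_a : ℕ → ℕ → ℕ → ℕ → Bool := onCell 536870912 536870912 0 536870912 536870912 50465866
    (rowB 3 eng mog cd2q0 cd3q2a pd1 2 false true false .pnp 0 1 2 (qsf 0 536870912 0 536870912 1) ndB2q0 ndB3q2a pcB1 cut_pm_012_a Ext.none)

def k0_pm_012_a : ∃ t, chk3 f_pm_012_a t 1 1 1 = true :=
  ⟨(a (a (a (b (l 2) (b (l 2) (b (l 16433176) (l 16418936)))) (b (l 16544112) (b (l 16472952) (b (l 16450648) (l 16449960))))) (b (a (b (l 16543296) (l 16503248)) (l 16498528)) (b (a (l 16471728) (b (l 16464464) (l 16463392))) (a (b (l 16465520) (l 16480160)) (b (l 16475312) (a (l 16499992) (l 16516176))))))) (b (a (a (b (l 16480608) (l 16456160)) (b (l 16445224) (a (l 16437880) (l 16429752)))) (a (b (l 16419048) (a (l 16424424) (l 16566448))) (b (a (l 16402256) (l 16391760)) (a (b (l 16406696) (l 16423992)) (b (l 16401464) (a (l 16423560) (l 16423920))))))) (a (b (a (b (l 16451136) (l 16462736)) (b (l 16446464) (l 16515096))) (a (b (l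 16534504) (a (l 16535648) (l 16555904))) (b (a (l 16511664) (l 16525048)) (a (l 16660272) (b (l 16575832) (l 16619056)))))) (b (a (a (b (l 16448496) (l 16484152)) (b (l 16451136) (l 16493048))) (a (b (l 16455272) (l 329873292439)) (b (a (l 16459504) (l 16463088)) (l 4)))) (b (a (a (l 16581504) (a (l 16551568) (l 4))) (l 4)) (a (a (b (l 16596144) (l 16727312)) (l 4)) (b (l 4) (a (l 4) (l 6))))))))), by decide +kernel⟩

theorem c_pm_012_a : CertB 0 536870912 0 536870912 536870912 50465866 3 eng mog cd2q0 cd3q2a pd1 false true false .pnp 0 1 2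
    ndB2q0 ndB3q2a pcB1 cut_pm_012_a Ext.none :=
  certB2 (fam := false) (s1 := true) (s2 := false) (a := 0) (b := 1) (c := 2) (cn := .pnp) (n1 := ndB2q0) (n2 := ndB3q2a) (pc := pcB1) (cut := cut_pm_012_a) (xt := Ext.none) (P1 := 0) (W1 := 536870912) (P2 := 0) (W2 := 536870912) (P3 := 536870912) (W3 := 50465866) (N0 := 3) (En := eng) (mo := mog) (C1 := cd2q0) (C2 := cd3q2a) (C3 := pd1)
    rfl (fun _ => rfl) k0_pm_012_a

noncomputable def cut_pm_012_b : Cut := Cut.of [[⟨0, 0, 0, 67108864⟩, ⟨1, 1, 0, 67108864⟩, ⟨2, 1, 0, 67108864⟩]]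

noncomputable def f_pm_012_b : ℕ → ℕ → ℕ → ℕ → Bool := onCell 536870912 536870912 1239849684 370763052 536870912 50465866
    (rowB 3 eng mog cd2q0 cd3q2b pd1 2 false true false .pnp 0 1 2 (qsf 0 536870912 1239849684 370763052 1) ndB2q0 ndB3q2b pcB1 cut_pm_012_b Ext.none)

def k0_pm_012_b : ∃ t, chk3 f_pm_012_b t 1 1 1 = true :=
  ⟨(a (a (l 2) (b (a (b (l 16587152) (l 2)) (b (l 16546608) (l 16619664))) (l 2))) (b (a (b (a (l 16500120) (l 16446464)) (a (l 16558888) (l 16484072))) (a (b (b (l 16406160) (l 16381568)) (l 16395056)) (b (a (l 16543248) (b (l 16360152) (l 16306952))) (b (l 16295992) (l 16302832))))) (a (b (l 16643648) (l 2)) (b (a (l 16493680) (l 16365400)) (l 16547688))))), by decide +kernel⟩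

theorem c_pm_012_b : CertB 0 536870912 1239849684 370763052 536870912 50465866 3 eng mog cd2q0 cd3q2b pd1 false true false .pnp 0 1 2
    ndB2q0 ndB3q2b pcB1 cut_pm_012_b Ext.none :=
  certB2 (fam := false) (s1 := true) (s2 := false) (a := 0) (b := 1) (c := 2) (cn := .pnp) (n1 := ndB2q0) (n2 := ndB3q2b) (pc := pcB1) (cut := cut_pm_012_b) (xt := Ext.none) (P1 := 0) (W1 := 536870912) (P2 := 1239849684) (W2 := 370763052) (P3 := 536870912) (W3 := 50465866) (N0 := 3) (En := eng) (mo := mog) (C1 := cd2q0) (C2 := cd3q2b) (C3 := pd1)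
    rfl (fun _ => rfl) k0_pm_012_b

noncomputable def cut_pm_022_a : Cut := Cut.of [[⟨0, 0, 0, 67108864⟩, ⟨1, 1, 0, 67108864⟩, ⟨2, 1, 0, 67108864⟩]]

noncomputable def f_pm_022_a : ℕ → ℕ → ℕ → ℕ → Bool := onCell 0 536870912 0 536870912 536870912 50465866
    (rowB 3 eng mog cd2q0 cd3q2a pd2 0 false true false .pp 0 2 2 (qsf 0 536870912 0 536870912 2) ndB2q0 ndB3q2a pcB2 cut_pm_022_a Ext.none)

def k0_pm_022_a : ∃ t, chk3 f_pm_022_a t 1 1 1 = true :=
  ⟨(a (b (a (a (b (a (b (a (l 16465696) (l 16463128)) (a (l 16471680) (l 16468416))) (b (l 16456056) (l 16460192))) (b (a (a (l 16486808) (l 16482392)) (l 16472384)) (l 4))) (b (a (l 16442960) (l 16421944)) (b (a (l 16453336) (l 16428584)) (a (l 16470672) (l 16442128))))) (a (a (b (l 16396176) (b (l 16398760) (l 16408200))) (b (l 16366624) (l 1))) (l 1))) (a (b (a (l 4) (b (a (l 4) (b (l 16456800) (l 4))) (l 4))) (b (l 4) (a (a (l 6) (l 4)) (l 1)))) (b (l 1) (l 1)))) (l 1)), by decide +kernel⟩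

theorem c_pm_022_a : CertB 0 536870912 0 536870912 536870912 50465866 3 eng mog cd2q0 cd3q2a pd2 false true false .pp 0 2 2
    ndB2q0 ndB3q2a pcB2 cut_pm_022_a Ext.none :=
  certB0 (fam := false) (s1 := true) (s2 := false) (a := 0) (b := 2) (c := 2) (cn := .pp) (n1 := ndB2q0) (n2 := ndB3q2a) (pc := pcB2) (cut := cut_pm_022_a) (xt := Ext.none) (P1 := 0) (W1 := 536870912) (P2 := 0) (W2 := 536870912) (P3 := 536870912) (W3 := 50465866) (N0 := 3) (En := eng) (mo := mog) (C1 := cd2q0) (C2 := cd3q2a) (C3 := pd2)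
    rfl k0_pm_022_a

noncomputable def cut_pm_022_b : Cut := Cut.of [[⟨0, 0, 0, 67108864⟩, ⟨1, 1, 0, 67108864⟩, ⟨2, 1, 0, 67108864⟩]]

noncomputable def f_pm_022_b : ℕ → ℕ → ℕ → ℕ → Bool := onCell 1073741824 536870912 1239849684 370763052 536870912 50465866
    (rowB 3 eng mog cd2q0 cd3q2b pd2 2 false true false .pp 0 2 2 (qsf 0 536870912 1239849684 370763052 2) ndB2q0 ndB3q2b pcB2 cut_pm_022_b Ext.none)

def k0_pm_022_b : ∃ t, chk3 f_pm_022_b t 1 1 1 = true :=
  ⟨(a (a (b (b (b (a (a (l 16362936) (l 16384856)) (a (l 16402968) (l 16479272))) (a (l 16332600) (l 16487816))) (a (b (l 16268016) (l 16248048)) (b (l 16288488) (l 16256240)))) (b (a (l 16335136) (b (l 16243128) (l 16246520))) (a (l 16349872) (l 16275392)))) (b (b (a (b (a (b (a (l 16442592) (l 16444816)) (l 16404680)) (b (a (a (l 16445200) (l 308733763687)) (l 352757075191)) (a (l 16405720) (l 16403816)))) (a (l 16352048) (a (l 16352280) (l 16349968)))) (b (a (b (l 1) (a (l 288332517239)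 (l 1))) (l 1)) (b (a (l 16370040) (l 606696822183)) (l 4)))) (a (a (l 4) (l 4)) (l 4))) (a (b (l 4) (l 16215536)) (l 4)))) (b (a (b (l 1) (a (l 4) (b (l 1) (l 4)))) (l 1)) (a (l 4) (b (a (l 4) (l 1)) (l 4))))), by decide +kernel⟩

theorem c_pm_022_b : CertB 0 536870912 1239849684 370763052 536870912 50465866 3 eng mog cd2q0 cd3q2b pd2 false true false .pp 0 2 2
    ndB2q0 ndB3q2b pcB2 cut_pm_022_b Ext.none :=
  certB2 (fam := false) (s1 := true) (s2 := false) (a := 0) (b := 2) (c := 2) (cn := .pp) (n1 := ndB2q0) (n2 := ndB3q2b) (pc := pcB2) (cut := cut_pm_022_b) (xt := Ext.none) (P1 := 0) (W1 := 536870912) (P2 := 1239849684) (W2 := 370763052) (P3 := 536870912) (W3 := 50465866) (N0 := 3) (En := eng) (mo := mog) (C1 := cd2q0) (C2 := cd3q2b) (C3 := pd2)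
    rfl (fun _ => rfl) k0_pm_022_b

noncomputable def f_pm_023 : ℕ → ℕ → ℕ → ℕ → Bool := onCell 0 536870912 1073741824 536870912 536870912 50465866
    (rowB 3 eng mog cd2q0 cd3q3 pd2 1 false true false .up 0 2 3 (qsf 0 536870912 1610612736 536870912 2) ndB2q0 ndB3q3 pcB2 Cut.none Ext.none)

def k0_pm_023 : ∃ t, chk3 f_pm_023 t 1 1 1 = true :=
  ⟨(a (b (b (l 1) (a (l 1) (l 4))) (l 4)) (b (b (a (b (l 1) (l 253435899431)) (l 314639665831)) (b (a (l 243235508679) (l 16449024)) (a (l 4) (l 16534440)))) (b (a (l 4) (b (l 16603240) (l 16655968))) (a (l 4) (l 16706336))))), by decide +kernel⟩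

theorem c_pm_023 : CertB 0 536870912 1610612736 536870912 536870912 50465866 3 eng mog cd2q0 cd3q3 pd2 false true false .up 0 2 3
    ndB2q0 ndB3q3 pcB2 Cut.none Ext.none :=
  certB1 (fam := false) (s1 := true) (s2 := false) (a := 0) (b := 2) (c := 3) (cn := .up) (n1 := ndB2q0) (n2 := ndB3q3) (pc := pcB2) (cut := Cut.none) (xt := Ext.none) (P1 := 0) (W1 := 536870912) (P2 := 1610612736) (W2 := 536870912) (P3 := 536870912) (W3 := 50465866) (N0 := 3) (En := eng) (mo := mog) (C1 := cd2q0) (C2 := cd3q3) (C3 := pd2)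
    rfl (fun _ => rfl) k0_pm_023

noncomputable def f_pm_033 : ℕ → ℕ → ℕ → ℕ → Bool := onCell 0 536870912 1610612736 536870912 536870912 50465866
    (rowB 3 eng mog cd2q0 cd3q3 pd3 0 false true false .pnn 0 3 3 (qsf 0 536870912 1610612736 536870912 3) ndB2q0 ndB3q3 pcB3 Cut.none Ext.none)

def k0_pm_033 : ∃ t, chk3 f_pm_033 t 1 1 1 = true :=
  ⟨(a (b (l 4) (l 4)) (a (b (b (l 1) (l 4)) (l 4)) (b (l 1) (b (a (l 4) (l 1)) (a (l 4) (b (l 16846304) (l 16922384))))))), by decide +kernel⟩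

theorem c_pm_033 : CertB 0 536870912 1610612736 536870912 536870912 50465866 3 eng mog cd2q0 cd3q3 pd3 false true false .pnn 0 3 3
    ndB2q0 ndB3q3 pcB3 Cut.none Ext.none :=
  certB0 (fam := false) (s1 := true) (s2 := false) (a := 0) (b := 3) (c := 3) (cn := .pnn) (n1 := ndB2q0) (n2 := ndB3q3) (pc := pcB3) (cut := Cut.none) (xt := Ext.none) (P1 := 0) (W1 := 536870912) (P2 := 1610612736) (W2 := 536870912) (P3 := 536870912) (W3 := 50465866) (N0 := 3) (En := eng) (mo := mog) (C1 := cd2q0) (C2 := cd3q3) (C3 := pd3)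
    rfl k0_pm_033

noncomputable def f_pm_101 : ℕ → ℕ → ℕ → ℕ → Bool := onCell 536870912 536870912 536870912 536870912 536870912 50465866
    (rowB 3 eng mog cd2q1 cd3q1 pd0 0 false true false .npn 1 0 1 (qsf 536870912 536870912 536870912 536870912 0) ndB2q1 ndB3q1 pcB0 Cut.none Ext.none)

def k0_pm_101 : ∃ t, chk3 f_pm_101 t 1 1 1 = true :=
  ⟨(l 4), by decide +kernel⟩

theorem c_pm_101 : CertB 536870912 536870912 536870912 536870912 536870912 50465866 3 eng mog cd2q1 cd3q1 pd0 false true false .npn 1 0 1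
    ndB2q1 ndB3q1 pcB0 Cut.none Ext.none :=
  certB0 (fam := false) (s1 := true) (s2 := false) (a := 1) (b := 0) (c := 1) (cn := .npn) (n1 := ndB2q1) (n2 := ndB3q1) (pc := pcB0) (cut := Cut.none) (xt := Ext.none) (P1 := 536870912) (W1 := 536870912) (P2 := 536870912) (W2 := 536870912) (P3 := 536870912) (W3 := 50465866) (N0 := 3) (En := eng) (mo := mog) (C1 := cd2q1) (C2 := cd3q1) (C3 := pd0)
    rfl k0_pm_101

noncomputable def f_pm_102_a : ℕ → ℕ → ℕ → ℕ → Bool := onCell 0 536870912 0 536870912 536870912 50465866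
    (rowB 3 eng mog cd2q1 cd3q2a pd0 2 false true false .npp 1 0 2 (qsf 536870912 536870912 0 536870912 0) ndB2q1 ndB3q2a pcB0 Cut.none Ext.none)

def k0_pm_102_a : ∃ t, chk3 f_pm_102_a t 1 1 1 = true :=
  ⟨(a (a (b (a (l 2) (b (l 2) (a (l 2) (l 16626360)))) (b (a (l 2) (a (b (l 2) (l 16682560)) (b (l 16682176) (l 16715496)))) (b (a (a (l 2) (b (a (l 2) (l 16685120)) (a (l 16692976) (l 16704944)))) (a (l 16714712) (l 16718216))) (a (b (a (a (l 2) (l 16695664)) (a (l 16705712) (l 16708880))) (a (b (a (l 16695376) (l 16700992)) (a (l 16698504) (l 16690720))) (b (l 16694200) (l 16663920)))) (b (a (l 16700112) (l 16677512)) (a (l 16649128) (l 16617016))))))) (b (a (b (l 16642632) (a (l 16672184) (l 16706928))) (b (l 16710264) (l 16738416))) (b (a (b (l 16726800) (l 16730944)) (l 16729920)) (a (b (a (l 16706936) (l 16688576)) (b (l 16637648) (a (l 16588224) (l 16562520)))) (b (l 16655144) (b (l 16586296) (l 16528696))))))) (a (b (a (b (l 16746592) (l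 16749976)) (b (l 16753880) (l 16730984))) (a (b (a (l 16710784) (l 16692856)) (b (l 16608256) (a (l 16525248) (l 16507584)))) (b (l 16660056) (b (l 16571408) (b (l 16517368) (l 16476512)))))) (b (a (b (l 16735536) (l 16697376)) (b (l 16706264) (l 16867376))) (b (a (a (l 16630616) (l 16610256)) (a (l 16585312) (l 16555728))) (a (b (l 16554832) (l 16671144)) (b (l 16482000) (a (l 16428912) (l 16419688)))))))), by decide +kernel⟩

theorem c_pm_102_a : CertB 536870912 536870912 0 536870912 536870912 50465866 3 eng mog cd2q1 cd3q2a pd0 false true false .npp 1 0 2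
    ndB2q1 ndB3q2a pcB0 Cut.none Ext.none :=
  certB2 (fam := false) (s1 := true) (s2 := false) (a := 1) (b := 0) (c := 2) (cn := .npp) (n1 := ndB2q1) (n2 := ndB3q2a) (pc := pcB0) (cut := Cut.none) (xt := Ext.none) (P1 := 536870912) (W1 := 536870912) (P2 := 0) (W2 := 536870912) (P3 := 536870912) (W3 := 50465866) (N0 := 3) (En := eng) (mo := mog) (C1 := cd2q1) (C2 := cd3q2a) (C3 := pd0)
    rfl (fun _ => rfl) k0_pm_102_a

noncomputable def f_pm_102_b : ℕ → ℕ → ℕ → ℕ → Bool := onCell 536870912 536870912 0 536870912 536870912 50465866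
    (rowB 3 eng mog cd2q1 cd3q2b pd0 1 false true false .npp 1 0 2 (qsf 536870912 536870912 1239849684 370763052 0) ndB2q1 ndB3q2b pcB0 Cut.none Ext.none)

def k0_pm_102_b : ∃ t, chk3 f_pm_102_b t 1 1 1 = true :=
  ⟨(a (a (l 1) (b (l 1) (b (l 1) (b (a (l 1) (l 337188865111)) (b (a (l 16671840) (l 16744992)) (l 16730952)))))) (b (b (l 1) (a (l 1) (b (a (l 1) (b (l 226593415767) (l 16674016))) (a (l 300681675527) (l 16639032))))) (b (a (b (a (l 1) (b (l 16744864) (l 16749688))) (a (l 309271272215) (l 16756720))) (b (a (l 16706504) (l 16589168)) (a (l 16705312) (l 16577088)))) (b (a (b (l 16773624) (l 16789848)) (a (l 16732176) (l 16620976))) (a (l 16928624) (b (l 16742608) (l 16802976))))))), by decide +kernel⟩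

theorem c_pm_102_b : CertB 536870912 536870912 1239849684 370763052 536870912 50465866 3 eng mog cd2q1 cd3q2b pd0 false true false .npp 1 0 2
    ndB2q1 ndB3q2b pcB0 Cut.none Ext.none :=
  certB1 (fam := false) (s1 := true) (s2 := false) (a := 1) (b := 0) (c := 2) (cn := .npp) (n1 := ndB2q1) (n2 := ndB3q2b) (pc := pcB0) (cut := Cut.none) (xt := Ext.none) (P1 := 536870912) (W1 := 536870912) (P2 := 1239849684) (W2 := 370763052) (P3 := 536870912) (W3 := 50465866) (N0 := 3) (En := eng) (mo := mog) (C1 := cd2q1) (C2 := cd3q2b) (C3 := pd0)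
    rfl (fun _ => rfl) k0_pm_102_b

noncomputable def f_pm_112_a : ℕ → ℕ → ℕ → ℕ → Bool := onCell 536870912 536870912 0 536870912 536870912 50465866
    (rowB 3 eng mog cd2q1 cd3q2a pd1 2 false true false .dn 1 1 2 (qsf 536870912 536870912 0 536870912 1) ndB2q1 ndB3q2a pcB1 Cut.none Ext.none)

def k0_pm_112_a : ∃ t, chk3 f_pm_112_a t 1 1 1 = true :=
  ⟨(a (a (b (a (b (l 16656744) (l 16599800)) (l 16570512)) (a (b (l 16516816) (b (l 16454088) (l 16426328))) (b (l 16482216) (l 258268319831)))) (b (a (l 271690241031) (l 1)) (b (l 1) (l 1)))) (l 1)), by decide +kernel⟩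

theorem c_pm_112_a : CertB 536870912 536870912 0 536870912 536870912 50465866 3 eng mog cd2q1 cd3q2a pd1 false true false .dn 1 1 2
    ndB2q1 ndB3q2a pcB1 Cut.none Ext.none :=
  certB2 (fam := false) (s1 := true) (s2 := false) (a := 1) (b := 1) (c := 2) (cn := .dn) (n1 := ndB2q1) (n2 := ndB3q2a) (pc := pcB1) (cut := Cut.none) (xt := Ext.none) (P1 := 536870912) (W1 := 536870912) (P2 := 0) (W2 := 536870912) (P3 := 536870912) (W3 := 50465866) (N0 := 3) (En := eng) (mo := mog) (C1 := cd2q1) (C2 := cd3q2a) (C3 := pd1)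
    rfl (fun _ => rfl) k0_pm_112_a

noncomputable def f_pm_112_b : ℕ → ℕ → ℕ → ℕ → Bool := onCell 536870912 536870912 1239849684 370763052 536870912 50465866
    (rowB 3 eng mog cd2q1 cd3q2b pd1 2 false true false .dn 1 1 2 (qsf 536870912 536870912 1239849684 370763052 1) ndB2q1 ndB3q2b pcB1 Cut.none Ext.none)

def k0_pm_112_b : ∃ t, chk3 f_pm_112_b t 1 1 1 = true :=
  ⟨(a (a (b (a (b (l 16734344) (l 16846880)) (b (l 16679664) (l 16829000))) (a (b (l 16912656) (l 16929240)) (b (l 16993720) (l 17176656)))) (a (b (b (l 16609392) (l 16765032)) (b (l 16994808) (l 17295680))) (b (l 210486942183) (b (l 16919272) (l 17258744))))) (b (a (b (l 1) (l 226056213159)) (l 1)) (a (b (l 16710552) (l 17038936)) (b (l 299607359079) (l 16591952))))), by decide +kernel⟩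

theorem c_pm_112_b : CertB 536870912 536870912 1239849684 370763052 536870912 50465866 3 eng mog cd2q1 cd3q2b pd1 false true false .dn 1 1 2
    ndB2q1 ndB3q2b pcB1 Cut.none Ext.none :=
  certB2 (fam := false) (s1 := true) (s2 := false) (a := 1) (b := 1) (c := 2) (cn := .dn) (n1 := ndB2q1) (n2 := ndB3q2b) (pc := pcB1) (cut := Cut.none) (xt := Ext.none) (P1 := 536870912) (W1 := 536870912) (P2 := 1239849684) (W2 := 370763052) (P3 := 536870912) (W3 := 50465866) (N0 := 3) (En := eng) (mo := mog) (C1 := cd2q1) (C2 := cd3q2b) (C3 := pd1)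
    rfl (fun _ => rfl) k0_pm_112_b

noncomputable def f_pm_113 : ℕ → ℕ → ℕ → ℕ → Bool := onCell 536870912 536870912 536870912 536870912 536870912 50465866
    (rowB 3 eng mog cd2q1 cd3q3 pd1 1 false true false .nn 1 1 3 (qsf 536870912 536870912 1610612736 536870912 1) ndB2q1 ndB3q3 pcB1 Cut.none Ext.none)

def k0_pm_113 : ∃ t, chk3 f_pm_113 t 1 1 1 = true :=
  ⟨(a (b (b (l 1) (a (l 1) (l 262563887319))) (a (b (l 16745024) (l 16803112)) (b (l 269006205607) (a (l 17106672) (l 17143400))))) (b (b (b (a (l 1) (a (l 16905160) (l 16887312))) (a (l 17057136) (l 17209352))) (a (b (l 17341224) (l 17323216)) (b (l 17384200) (l 17338232)))) (b (a (l 17224752) (l 17172432)) (a (l 17093600) (l 16969200))))), by decide +kernel⟩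

theorem c_pm_113 : CertB 536870912 536870912 1610612736 536870912 536870912 50465866 3 eng mog cd2q1 cd3q3 pd1 false true false .nn 1 1 3
    ndB2q1 ndB3q3 pcB1 Cut.none Ext.none :=
  certB1 (fam := false) (s1 := true) (s2 := false) (a := 1) (b := 1) (c := 3) (cn := .nn) (n1 := ndB2q1) (n2 := ndB3q3) (pc := pcB1) (cut := Cut.none) (xt := Ext.none) (P1 := 536870912) (W1 := 536870912) (P2 := 1610612736) (W2 := 536870912) (P3 := 536870912) (W3 := 50465866) (N0 := 3) (En := eng) (mo := mog) (C1 := cd2q1) (C2 := cd3q3) (C3 := pd1)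
    rfl (fun _ => rfl) k0_pm_113

noncomputable def f_pm_123 : ℕ → ℕ → ℕ → ℕ → Bool := onCell 1073741824 536870912 1610612736 536870912 536870912 50465866
    (rowB 3 eng mog cd2q1 cd3q3 pd2 2 false true false .npn 1 2 3 (qsf 536870912 536870912 1610612736 536870912 2) ndB2q1 ndB3q3 pcB2 Cut.none Ext.none)

def k0_pm_123 : ∃ t, chk3 f_pm_123 t 1 1 1 = true :=
  ⟨(a (b (a (a (b (l 16682640) (l 17092088)) (b (l 16487088) (l 16851264))) (b (a (l 16402288) (l 1)) (a (l 16708176) (l 16610952)))) (a (b (a (l 17000664) (l 16935792)) (a (l 16856088) (l 16820184))) (b (a (l 16858040) (l 16785256)) (a (l 16795960) (l 16783456))))) (a (b (b (l 1) (a (l 16554440) (l 1))) (a (b (l 16725792) (l 16768144)) (b (l 16690224) (l 16750616)))) (b (l 1) (a (l 16970344) (l 16711912))))), by decide +kernel⟩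

theorem c_pm_123 : CertB 536870912 536870912 1610612736 536870912 536870912 50465866 3 eng mog cd2q1 cd3q3 pd2 false true false .npn 1 2 3
    ndB2q1 ndB3q3 pcB2 Cut.none Ext.none :=
  certB2 (fam := false) (s1 := true) (s2 := false) (a := 1) (b := 2) (c := 3) (cn := .npn) (n1 := ndB2q1) (n2 := ndB3q3) (pc := pcB2) (cut := Cut.none) (xt := Ext.none) (P1 := 536870912) (W1 := 536870912) (P2 := 1610612736) (W2 := 536870912) (P3 := 536870912) (W3 := 50465866) (N0 := 3) (En := eng) (mo := mog) (C1 := cd2q1) (C2 := cd3q3) (C3 := pd2)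
    rfl (fun _ => rfl) k0_pm_123

noncomputable def f_pm_133 : ℕ → ℕ → ℕ → ℕ → Bool := onCell 1610612736 536870912 1610612736 536870912 536870912 50465866
    (rowB 3 eng mog cd2q1 cd3q3 pd3 2 false true false .dn 1 3 3 (qsf 536870912 536870912 1610612736 536870912 3) ndB2q1 ndB3q3 pcB3 Cut.none Ext.none)

def k0_pm_133 : ∃ t, chk3 f_pm_133 t 1 1 1 = true :=
  ⟨(a (b (l 1) (a (a (l 556232195543) (l 1)) (l 1))) (l 1)), by decide +kernel⟩

theorem c_pm_133 : CertB 536870912 536870912 1610612736 536870912 536870912 50465866 3 eng mog cd2q1 cd3q3 pd3 false true false .dn 1 3 3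
    ndB2q1 ndB3q3 pcB3 Cut.none Ext.none :=
  certB2 (fam := false) (s1 := true) (s2 := false) (a := 1) (b := 3) (c := 3) (cn := .dn) (n1 := ndB2q1) (n2 := ndB3q3) (pc := pcB3) (cut := Cut.none) (xt := Ext.none) (P1 := 536870912) (W1 := 536870912) (P2 := 1610612736) (W2 := 536870912) (P3 := 536870912) (W3 := 50465866) (N0 := 3) (En := eng) (mo := mog) (C1 := cd2q1) (C2 := cd3q3) (C3 := pd3)
    rfl (fun _ => rfl) k0_pm_133

noncomputable def cut_pm_202_aa : Cut := Cut.of [[⟨0, 1, 0, 67108864⟩, ⟨1, 0, 0, 67108864⟩, ⟨2, 1, 0, 67108864⟩]]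

noncomputable def f_pm_202_aa : ℕ → ℕ → ℕ → ℕ → Bool := onCell 0 536870912 0 536870912 536870912 50465866
    (rowB 3 eng mog cd2q2a cd3q2a pd0 0 false true false .pp 2 0 2 (qsf 0 536870912 0 536870912 0) ndB2q2a ndB3q2a pcB0 cut_pm_202_aa Ext.none)

def k0_pm_202_aa : ∃ t, chk3 f_pm_202_aa t 1 1 1 = true :=
  ⟨(a (l 3) (b (l 3) (a (l 3) (b (l 3) (a (l 3) (b (l 3) (l 6))))))), by decide +kernel⟩

theorem c_pm_202_aa : CertB 0 536870912 0 536870912 536870912 50465866 3 eng mog cd2q2a cd3q2a pd0 false true false .pp 2 0 2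
    ndB2q2a ndB3q2a pcB0 cut_pm_202_aa Ext.none :=
  certB0 (fam := false) (s1 := true) (s2 := false) (a := 2) (b := 0) (c := 2) (cn := .pp) (n1 := ndB2q2a) (n2 := ndB3q2a) (pc := pcB0) (cut := cut_pm_202_aa) (xt := Ext.none) (P1 := 0) (W1 := 536870912) (P2 := 0) (W2 := 536870912) (P3 := 536870912) (W3 := 50465866) (N0 := 3) (En := eng) (mo := mog) (C1 := cd2q2a) (C2 := cd3q2a) (C3 := pd0)
    rfl k0_pm_202_aa

noncomputable def cut_pm_202_ab : Cut := Cut.of [[⟨0, 1, 0, 67108864⟩, ⟨1, 0, 0, 67108864⟩, ⟨2, 1, 0, 67108864⟩]]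

noncomputable def f_pm_202_ab : ℕ → ℕ → ℕ → ℕ → Bool := onCell 0 536870912 1239849684 370763052 536870912 50465866
    (rowB 3 eng mog cd2q2a cd3q2b pd0 0 false true false .pp 2 0 2 (qsf 0 536870912 1239849684 370763052 0) ndB2q2a ndB3q2b pcB0 cut_pm_202_ab Ext.none)

def k0_pm_202_ab : ∃ t, chk3 f_pm_202_ab t 1 1 1 = true :=
  ⟨(l 3), by decide +kernel⟩

theorem c_pm_202_ab : CertB 0 536870912 1239849684 370763052 536870912 50465866 3 eng mog cd2q2a cd3q2b pd0 false true false .pp 2 0 2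
    ndB2q2a ndB3q2b pcB0 cut_pm_202_ab Ext.none :=
  certB0 (fam := false) (s1 := true) (s2 := false) (a := 2) (b := 0) (c := 2) (cn := .pp) (n1 := ndB2q2a) (n2 := ndB3q2b) (pc := pcB0) (cut := cut_pm_202_ab) (xt := Ext.none) (P1 := 0) (W1 := 536870912) (P2 := 1239849684) (W2 := 370763052) (P3 := 536870912) (W3 := 50465866) (N0 := 3) (En := eng) (mo := mog) (C1 := cd2q2a) (C2 := cd3q2b) (C3 := pd0)
    rfl k0_pm_202_ab

noncomputable def cut_pm_202_ba : Cut := Cut.of [[⟨0, 1, 0, 67108864⟩, ⟨1, 0, 0, 67108864⟩, ⟨2, 1, 0, 67108864⟩]]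

noncomputable def f_pm_202_ba : ℕ → ℕ → ℕ → ℕ → Bool := onCell 1239849684 370763052 0 536870912 536870912 50465866
    (rowB 3 eng mog cd2q2b cd3q2a pd0 0 false true false .pp 2 0 2 (qsf 1239849684 370763052 0 536870912 0) ndB2q2b ndB3q2a pcB0 cut_pm_202_ba Ext.none)

def k0_pm_202_ba : ∃ t, chk3 f_pm_202_ba t 1 1 1 = true :=
  ⟨(l 3), by decide +kernel⟩

theorem c_pm_202_ba : CertB 1239849684 370763052 0 536870912 536870912 50465866 3 eng mog cd2q2b cd3q2a pd0 false true false .pp 2 0 2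
    ndB2q2b ndB3q2a pcB0 cut_pm_202_ba Ext.none :=
  certB0 (fam := false) (s1 := true) (s2 := false) (a := 2) (b := 0) (c := 2) (cn := .pp) (n1 := ndB2q2b) (n2 := ndB3q2a) (pc := pcB0) (cut := cut_pm_202_ba) (xt := Ext.none) (P1 := 1239849684) (W1 := 370763052) (P2 := 0) (W2 := 536870912) (P3 := 536870912) (W3 := 50465866) (N0 := 3) (En := eng) (mo := mog) (C1 := cd2q2b) (C2 := cd3q2a) (C3 := pd0)
    rfl k0_pm_202_ba

noncomputable def cut_pm_202_bb : Cut := Cut.of [[⟨0, 1, 0, 67108864⟩, ⟨1, 0, 0, 67108864⟩, ⟨2, 1, 0, 67108864⟩]]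

noncomputable def f_pm_202_bb : ℕ → ℕ → ℕ → ℕ → Bool := onCell 1239849684 370763052 1239849684 370763052 536870912 50465866
    (rowB 3 eng mog cd2q2b cd3q2b pd0 0 false true false .pp 2 0 2 (qsf 1239849684 370763052 1239849684 370763052 0) ndB2q2b ndB3q2b pcB0 cut_pm_202_bb Ext.none)

def k0_pm_202_bb : ∃ t, chk3 f_pm_202_bb t 1 1 1 = true :=
  ⟨(l 3), by decide +kernel⟩

theorem c_pm_202_bb : CertB 1239849684 370763052 1239849684 370763052 536870912 50465866 3 eng mog cd2q2b cd3q2b pd0 false true false .pp 2 0 2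
    ndB2q2b ndB3q2b pcB0 cut_pm_202_bb Ext.none :=
  certB0 (fam := false) (s1 := true) (s2 := false) (a := 2) (b := 0) (c := 2) (cn := .pp) (n1 := ndB2q2b) (n2 := ndB3q2b) (pc := pcB0) (cut := cut_pm_202_bb) (xt := Ext.none) (P1 := 1239849684) (W1 := 370763052) (P2 := 1239849684) (W2 := 370763052) (P3 := 536870912) (W3 := 50465866) (N0 := 3) (En := eng) (mo := mog) (C1 := cd2q2b) (C2 := cd3q2b) (C3 := pd0)
    rfl k0_pm_202_bb

noncomputable def f_pm_203_a : ℕ → ℕ → ℕ → ℕ → Bool := onCell 0 536870912 0 536870912 536870912 50465866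
    (rowB 3 eng mog cd2q2a cd3q3 pd0 1 false true false .up 2 0 3 (qsf 0 536870912 1610612736 536870912 0) ndB2q2a ndB3q3 pcB0 Cut.none Ext.none)

def k0_pm_203_a : ∃ t, chk3 f_pm_203_a t 1 1 1 = true :=
  ⟨(l 3), by decide +kernel⟩

theorem c_pm_203_a : CertB 0 536870912 1610612736 536870912 536870912 50465866 3 eng mog cd2q2a cd3q3 pd0 false true false .up 2 0 3
    ndB2q2a ndB3q3 pcB0 Cut.none Ext.none :=
  certB1 (fam := false) (s1 := true) (s2 := false) (a := 2) (b := 0) (c := 3) (cn := .up) (n1 := ndB2q2a) (n2 := ndB3q3) (pc := pcB0) (cut := Cut.none) (xt := Ext.none) (P1 := 0) (W1 := 536870912) (P2 := 1610612736) (W2 := 536870912) (P3 := 536870912) (W3 := 50465866) (N0 := 3) (En := eng) (mo := mog) (C1 := cd2q2a) (C2 := cd3q3) (C3 := pd0)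
    rfl (fun _ => rfl) k0_pm_203_a

noncomputable def f_pm_203_b : ℕ → ℕ → ℕ → ℕ → Bool := onCell 1239849684 370763052 1610612736 536870912 536870912 50465866
    (rowB 3 eng mog cd2q2b cd3q3 pd0 0 false true false .up 2 0 3 (qsf 1239849684 370763052 1610612736 536870912 0) ndB2q2b ndB3q3 pcB0 Cut.none Ext.none)

def k0_pm_203_b : ∃ t, chk3 f_pm_203_b t 1 1 1 = true :=
  ⟨(l 3), by decide +kernel⟩

theorem c_pm_203_b : CertB 1239849684 370763052 1610612736 536870912 536870912 50465866 3 eng mog cd2q2b cd3q3 pd0 false true false .up 2 0 3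
    ndB2q2b ndB3q3 pcB0 Cut.none Ext.none :=
  certB0 (fam := false) (s1 := true) (s2 := false) (a := 2) (b := 0) (c := 3) (cn := .up) (n1 := ndB2q2b) (n2 := ndB3q3) (pc := pcB0) (cut := Cut.none) (xt := Ext.none) (P1 := 1239849684) (W1 := 370763052) (P2 := 1610612736) (W2 := 536870912) (P3 := 536870912) (W3 := 50465866) (N0 := 3) (En := eng) (mo := mog) (C1 := cd2q2b) (C2 := cd3q3) (C3 := pd0)
    rfl k0_pm_203_b

noncomputable def cut_pm_213_a : Cut := Cut.of [[⟨0, 1, 0, 67108864⟩, ⟨1, 1, 0, 67108864⟩, ⟨2, 2, 0, 16777216⟩]]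

noncomputable def f_pm_213_a : ℕ → ℕ → ℕ → ℕ → Bool := onCell 0 536870912 1610612736 536870912 536870912 50465866
    (rowB 3 eng mog cd2q2a cd3q3 pd1 0 false true false .pnn 2 1 3 (qsf 0 536870912 1610612736 536870912 1) ndB2q2a ndB3q3 pcB1 cut_pm_213_a Ext.none)

def k0_pm_213_a : ∃ t, chk3 f_pm_213_a t 1 1 1 = true :=
  ⟨(a (l 3) (b (l 3) (b (l 3) (a (l 3) (b (l 3) (a (l 3) (a (l 3) (b (l 3) (b (l 3) (b (l 3) (l 6))))))))))), by decide +kernel⟩

theorem c_pm_213_a : CertB 0 536870912 1610612736 536870912 536870912 50465866 3 eng mog cd2q2a cd3q3 pd1 false true false .pnn 2 1 3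
    ndB2q2a ndB3q3 pcB1 cut_pm_213_a Ext.none :=
  certB0 (fam := false) (s1 := true) (s2 := false) (a := 2) (b := 1) (c := 3) (cn := .pnn) (n1 := ndB2q2a) (n2 := ndB3q3) (pc := pcB1) (cut := cut_pm_213_a) (xt := Ext.none) (P1 := 0) (W1 := 536870912) (P2 := 1610612736) (W2 := 536870912) (P3 := 536870912) (W3 := 50465866) (N0 := 3) (En := eng) (mo := mog) (C1 := cd2q2a) (C2 := cd3q3) (C3 := pd1)
    rfl k0_pm_213_a

noncomputable def cut_pm_213_b : Cut := Cut.of [[⟨0, 1, 0, 67108864⟩, ⟨1, 1, 0, 67108864⟩, ⟨2, 2, 0, 16777216⟩]]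

noncomputable def f_pm_213_b : ℕ → ℕ → ℕ → ℕ → Bool := onCell 1239849684 370763052 1610612736 536870912 536870912 50465866
    (rowB 3 eng mog cd2q2b cd3q3 pd1 0 false true false .pnn 2 1 3 (qsf 1239849684 370763052 1610612736 536870912 1) ndB2q2b ndB3q3 pcB1 cut_pm_213_b Ext.none)

def k0_pm_213_b : ∃ t, chk3 f_pm_213_b t 1 1 1 = true :=
  ⟨(l 3), by decide +kernel⟩

theorem c_pm_213_b : CertB 1239849684 370763052 1610612736 536870912 536870912 50465866 3 eng mog cd2q2b cd3q3 pd1 false true false .pnn 2 1 3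
    ndB2q2b ndB3q3 pcB1 cut_pm_213_b Ext.none :=
  certB0 (fam := false) (s1 := true) (s2 := false) (a := 2) (b := 1) (c := 3) (cn := .pnn) (n1 := ndB2q2b) (n2 := ndB3q3) (pc := pcB1) (cut := cut_pm_213_b) (xt := Ext.none) (P1 := 1239849684) (W1 := 370763052) (P2 := 1610612736) (W2 := 536870912) (P3 := 536870912) (W3 := 50465866) (N0 := 3) (En := eng) (mo := mog) (C1 := cd2q2b) (C2 := cd3q3) (C3 := pd1)
    rfl k0_pm_213_b

noncomputable def f_pm_303 : ℕ → ℕ → ℕ → ℕ → Bool := onCell 1610612736 536870912 1610612736 536870912 536870912 50465866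
    (rowB 3 eng mog cd2q3 cd3q3 pd0 0 false true false .npn 3 0 3 (qsf 1610612736 536870912 1610612736 536870912 0) ndB2q3 ndB3q3 pcB0 Cut.none Ext.none)

def k0_pm_303 : ∃ t, chk3 f_pm_303 t 1 1 1 = true :=
  ⟨(l 3), by decide +kernel⟩

theorem c_pm_303 : CertB 1610612736 536870912 1610612736 536870912 536870912 50465866 3 eng mog cd2q3 cd3q3 pd0 false true false .npn 3 0 3
    ndB2q3 ndB3q3 pcB0 Cut.none Ext.none :=
  certB0 (fam := false) (s1 := true) (s2 := false) (a := 3) (b := 0) (c := 3) (cn := .npn) (n1 := ndB2q3) (n2 := ndB3q3) (pc := pcB0) (cut := Cut.none) (xt := Ext.none) (P1 := 1610612736) (W1 := 536870912) (P2 := 1610612736) (W2 := 536870912) (P3 := 536870912) (W3 := 50465866) (N0 := 3) (En := eng) (mo := mog) (C1 := cd2q3) (C2 := cd3q3) (C3 := pd0)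
    rfl k0_pm_303

noncomputable def f_pm_313 : ℕ → ℕ → ℕ → ℕ → Bool := onCell 1610612736 536870912 1610612736 536870912 536870912 50465866
    (rowB 3 eng mog cd2q3 cd3q3 pd1 0 false true false .dn 3 1 3 (qsf 1610612736 536870912 1610612736 536870912 1) ndB2q3 ndB3q3 pcB1 Cut.none Ext.none)

def k0_pm_313 : ∃ t, chk3 f_pm_313 t 1 1 1 = true :=
  ⟨(l 3), by decide +kernel⟩

theorem c_pm_313 : CertB 1610612736 536870912 1610612736 536870912 536870912 50465866 3 eng mog cd2q3 cd3q3 pd1 false true false .dn 3 1 3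
    ndB2q3 ndB3q3 pcB1 Cut.none Ext.none :=
  certB0 (fam := false) (s1 := true) (s2 := false) (a := 3) (b := 1) (c := 3) (cn := .dn) (n1 := ndB2q3) (n2 := ndB3q3) (pc := pcB1) (cut := Cut.none) (xt := Ext.none) (P1 := 1610612736) (W1 := 536870912) (P2 := 1610612736) (W2 := 536870912) (P3 := 536870912) (W3 := 50465866) (N0 := 3) (En := eng) (mo := mog) (C1 := cd2q3) (C2 := cd3q3) (C3 := pd1)
    rfl k0_pm_313

noncomputable def f_mm_001 : ℕ → ℕ → ℕ → ℕ → Bool := onCell 0 536870912 536870912 536870912 536870912 50465866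
    (rowB 3 eng mog cd2q0 cd3q1 pd0 0 false false false .up 0 0 1 (qsf 0 536870912 536870912 536870912 0) ndB2q0 ndB3q1 pcB0 Cut.none Ext.none)

def k0_mm_001 : ∃ t, chk3 f_mm_001 t 1 1 1 = true :=
  ⟨(l 3), by decide +kernel⟩

theorem c_mm_001 : CertB 0 536870912 536870912 536870912 536870912 50465866 3 eng mog cd2q0 cd3q1 pd0 false false false .up 0 0 1
    ndB2q0 ndB3q1 pcB0 Cut.none Ext.none :=
  certB0 (fam := false) (s1 := false) (s2 := false) (a := 0) (b := 0) (c := 1) (cn := .up) (n1 := ndB2q0) (n2 := ndB3q1) (pc := pcB0) (cut := Cut.none) (xt := Ext.none) (P1 := 0) (W1 := 536870912) (P2 := 536870912) (W2 := 536870912) (P3 := 536870912) (W3 := 50465866) (N0 := 3) (En := eng) (mo := mog) (C1 := cd2q0) (C2 := cd3q1) (C3 := pd0)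
    rfl k0_mm_001

noncomputable def f_mm_011 : ℕ → ℕ → ℕ → ℕ → Bool := onCell 0 536870912 536870912 536870912 536870912 50465866
    (rowB 3 eng mog cd2q0 cd3q1 pd1 0 false false false .pnn 0 1 1 (qsf 0 536870912 536870912 536870912 1) ndB2q0 ndB3q1 pcB1 Cut.none Ext.none)

def k0_mm_011 : ∃ t, chk3 f_mm_011 t 1 1 1 = true :=
  ⟨(l 3), by decide +kernel⟩

theorem c_mm_011 : CertB 0 536870912 536870912 536870912 536870912 50465866 3 eng mog cd2q0 cd3q1 pd1 false false false .pnn 0 1 1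
    ndB2q0 ndB3q1 pcB1 Cut.none Ext.none :=
  certB0 (fam := false) (s1 := false) (s2 := false) (a := 0) (b := 1) (c := 1) (cn := .pnn) (n1 := ndB2q0) (n2 := ndB3q1) (pc := pcB1) (cut := Cut.none) (xt := Ext.none) (P1 := 0) (W1 := 536870912) (P2 := 536870912) (W2 := 536870912) (P3 := 536870912) (W3 := 50465866) (N0 := 3) (En := eng) (mo := mog) (C1 := cd2q0) (C2 := cd3q1) (C3 := pd1)
    rfl k0_mm_011

noncomputable def f_mm_012_a : ℕ → ℕ → ℕ → ℕ → Bool := onCell 0 536870912 0 536870912 536870912 50465866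
    (rowB 3 eng mog cd2q0 cd3q2a pd1 0 false false false .pnp 0 1 2 (qsf 0 536870912 0 536870912 1) ndB2q0 ndB3q2a pcB1 Cut.none Ext.none)

def k0_mm_012_a : ∃ t, chk3 f_mm_012_a t 1 1 1 = true :=
  ⟨(l 5), by decide +kernel⟩

theorem c_mm_012_a : CertB 0 536870912 0 536870912 536870912 50465866 3 eng mog cd2q0 cd3q2a pd1 false false false .pnp 0 1 2
    ndB2q0 ndB3q2a pcB1 Cut.none Ext.none :=
  certB0 (fam := false) (s1 := false) (s2 := false) (a := 0) (b := 1) (c := 2) (cn := .pnp) (n1 := ndB2q0) (n2 := ndB3q2a) (pc := pcB1) (cut := Cut.none) (xt := Ext.none) (P1 := 0) (W1 := 536870912) (P2 := 0) (W2 := 536870912) (P3 := 536870912) (W3 := 50465866) (N0 := 3) (En := eng) (mo := mog) (C1 := cd2q0) (C2 := cd3q2a) (C3 := pd1)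
    rfl k0_mm_012_a

noncomputable def f_mm_012_b : ℕ → ℕ → ℕ → ℕ → Bool := onCell 0 536870912 1239849684 370763052 536870912 50465866
    (rowB 3 eng mog cd2q0 cd3q2b pd1 0 false false false .pnp 0 1 2 (qsf 0 536870912 1239849684 370763052 1) ndB2q0 ndB3q2b pcB1 Cut.none Ext.none)

def k0_mm_012_b : ∃ t, chk3 f_mm_012_b t 1 1 1 = true :=
  ⟨(l 5), by decide +kernel⟩

theorem c_mm_012_b : CertB 0 536870912 1239849684 370763052 536870912 50465866 3 eng mog cd2q0 cd3q2b pd1 false false false .pnp 0 1 2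
    ndB2q0 ndB3q2b pcB1 Cut.none Ext.none :=
  certB0 (fam := false) (s1 := false) (s2 := false) (a := 0) (b := 1) (c := 2) (cn := .pnp) (n1 := ndB2q0) (n2 := ndB3q2b) (pc := pcB1) (cut := Cut.none) (xt := Ext.none) (P1 := 0) (W1 := 536870912) (P2 := 1239849684) (W2 := 370763052) (P3 := 536870912) (W3 := 50465866) (N0 := 3) (En := eng) (mo := mog) (C1 := cd2q0) (C2 := cd3q2b) (C3 := pd1)
    rfl k0_mm_012_b

noncomputable def f_mm_022_a : ℕ → ℕ → ℕ → ℕ → Bool := onCell 0 536870912 0 536870912 536870912 50465866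
    (rowB 3 eng mog cd2q0 cd3q2a pd2 0 false false false .pp 0 2 2 (qsf 0 536870912 0 536870912 2) ndB2q0 ndB3q2a pcB2 Cut.none Ext.none)

def k0_mm_022_a : ∃ t, chk3 f_mm_022_a t 1 1 1 = true :=
  ⟨(l 5), by decide +kernel⟩

theorem c_mm_022_a : CertB 0 536870912 0 536870912 536870912 50465866 3 eng mog cd2q0 cd3q2a pd2 false false false .pp 0 2 2
    ndB2q0 ndB3q2a pcB2 Cut.none Ext.none :=
  certB0 (fam := false) (s1 := false) (s2 := false) (a := 0) (b := 2) (c := 2) (cn := .pp) (n1 := ndB2q0) (n2 := ndB3q2a) (pc := pcB2) (cut := Cut.none) (xt := Ext.none) (P1 := 0) (W1 := 536870912) (P2 := 0) (W2 := 536870912) (P3 := 536870912) (W3 := 50465866) (N0 := 3) (En := eng) (mo := mog) (C1 := cd2q0) (C2 := cd3q2a) (C3 := pd2)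
    rfl k0_mm_022_a

noncomputable def f_mm_022_b : ℕ → ℕ → ℕ → ℕ → Bool := onCell 0 536870912 1239849684 370763052 536870912 50465866
    (rowB 3 eng mog cd2q0 cd3q2b pd2 0 false false false .pp 0 2 2 (qsf 0 536870912 1239849684 370763052 2) ndB2q0 ndB3q2b pcB2 Cut.none Ext.none)

def k0_mm_022_b : ∃ t, chk3 f_mm_022_b t 1 1 1 = true :=
  ⟨(l 5), by decide +kernel⟩

theorem c_mm_022_b : CertB 0 536870912 1239849684 370763052 536870912 50465866 3 eng mog cd2q0 cd3q2b pd2 false false false .pp 0 2 2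
    ndB2q0 ndB3q2b pcB2 Cut.none Ext.none :=
  certB0 (fam := false) (s1 := false) (s2 := false) (a := 0) (b := 2) (c := 2) (cn := .pp) (n1 := ndB2q0) (n2 := ndB3q2b) (pc := pcB2) (cut := Cut.none) (xt := Ext.none) (P1 := 0) (W1 := 536870912) (P2 := 1239849684) (W2 := 370763052) (P3 := 536870912) (W3 := 50465866) (N0 := 3) (En := eng) (mo := mog) (C1 := cd2q0) (C2 := cd3q2b) (C3 := pd2)
    rfl k0_mm_022_b

noncomputable def f_mm_023 : ℕ → ℕ → ℕ → ℕ → Bool := onCell 0 536870912 1610612736 536870912 536870912 50465866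
    (rowB 3 eng mog cd2q0 cd3q3 pd2 0 false false false .up 0 2 3 (qsf 0 536870912 1610612736 536870912 2) ndB2q0 ndB3q3 pcB2 Cut.none Ext.none)

def k0_mm_023 : ∃ t, chk3 f_mm_023 t 1 1 1 = true :=
  ⟨(l 5), by decide +kernel⟩

theorem c_mm_023 : CertB 0 536870912 1610612736 536870912 536870912 50465866 3 eng mog cd2q0 cd3q3 pd2 false false false .up 0 2 3
    ndB2q0 ndB3q3 pcB2 Cut.none Ext.none :=
  certB0 (fam := false) (s1 := false) (s2 := false) (a := 0) (b := 2) (c := 3) (cn := .up) (n1 := ndB2q0) (n2 := ndB3q3) (pc := pcB2) (cut := Cut.none) (xt := Ext.none) (P1 := 0) (W1 := 536870912) (P2 := 1610612736) (W2 := 536870912) (P3 := 536870912) (W3 := 50465866) (N0 := 3) (En := eng) (mo := mog) (C1 := cd2q0) (C2 := cd3q3) (C3 := pd2)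
    rfl k0_mm_023

noncomputable def f_mm_033 : ℕ → ℕ → ℕ → ℕ → Bool := onCell 0 536870912 1610612736 536870912 536870912 50465866
    (rowB 3 eng mog cd2q0 cd3q3 pd3 0 false false false .pnn 0 3 3 (qsf 0 536870912 1610612736 536870912 3) ndB2q0 ndB3q3 pcB3 Cut.none Ext.none)

def k0_mm_033 : ∃ t, chk3 f_mm_033 t 1 1 1 = true :=
  ⟨(l 5), by decide +kernel⟩

theorem c_mm_033 : CertB 0 536870912 1610612736 536870912 536870912 50465866 3 eng mog cd2q0 cd3q3 pd3 false false false .pnn 0 3 3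
    ndB2q0 ndB3q3 pcB3 Cut.none Ext.none :=
  certB0 (fam := false) (s1 := false) (s2 := false) (a := 0) (b := 3) (c := 3) (cn := .pnn) (n1 := ndB2q0) (n2 := ndB3q3) (pc := pcB3) (cut := Cut.none) (xt := Ext.none) (P1 := 0) (W1 := 536870912) (P2 := 1610612736) (W2 := 536870912) (P3 := 536870912) (W3 := 50465866) (N0 := 3) (En := eng) (mo := mog) (C1 := cd2q0) (C2 := cd3q3) (C3 := pd3)
    rfl k0_mm_033

noncomputable def f_mm_101 : ℕ → ℕ → ℕ → ℕ → Bool := onCell 536870912 536870912 536870912 536870912 536870912 50465866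
    (rowB 3 eng mog cd2q1 cd3q1 pd0 0 false false false .npn 1 0 1 (qsf 536870912 536870912 536870912 536870912 0) ndB2q1 ndB3q1 pcB0 Cut.none Ext.none)

def k0_mm_101 : ∃ t, chk3 f_mm_101 t 1 1 1 = true :=
  ⟨(l 3), by decide +kernel⟩

theorem c_mm_101 : CertB 536870912 536870912 536870912 536870912 536870912 50465866 3 eng mog cd2q1 cd3q1 pd0 false false false .npn 1 0 1
    ndB2q1 ndB3q1 pcB0 Cut.none Ext.none :=
  certB0 (fam := false) (s1 := false) (s2 := false) (a := 1) (b := 0) (c := 1) (cn := .npn) (n1 := ndB2q1) (n2 := ndB3q1) (pc := pcB0) (cut := Cut.none) (xt := Ext.none) (P1 := 536870912) (W1 := 536870912) (P2 := 536870912) (W2 := 536870912) (P3 := 536870912) (W3 := 50465866) (N0 := 3) (En := eng) (mo := mog) (C1 := cd2q1) (C2 := cd3q1) (C3 := pd0)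
    rfl k0_mm_101

noncomputable def f_mm_102_a : ℕ → ℕ → ℕ → ℕ → Bool := onCell 536870912 536870912 0 536870912 536870912 50465866
    (rowB 3 eng mog cd2q1 cd3q2a pd0 0 false false false .npp 1 0 2 (qsf 536870912 536870912 0 536870912 0) ndB2q1 ndB3q2a pcB0 Cut.none Ext.none)

def k0_mm_102_a : ∃ t, chk3 f_mm_102_a t 1 1 1 = true :=
  ⟨(l 3), by decide +kernel⟩

theorem c_mm_102_a : CertB 536870912 536870912 0 536870912 536870912 50465866 3 eng mog cd2q1 cd3q2a pd0 false false false .npp 1 0 2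
    ndB2q1 ndB3q2a pcB0 Cut.none Ext.none :=
  certB0 (fam := false) (s1 := false) (s2 := false) (a := 1) (b := 0) (c := 2) (cn := .npp) (n1 := ndB2q1) (n2 := ndB3q2a) (pc := pcB0) (cut := Cut.none) (xt := Ext.none) (P1 := 536870912) (W1 := 536870912) (P2 := 0) (W2 := 536870912) (P3 := 536870912) (W3 := 50465866) (N0 := 3) (En := eng) (mo := mog) (C1 := cd2q1) (C2 := cd3q2a) (C3 := pd0)
    rfl k0_mm_102_a

noncomputable def f_mm_102_b : ℕ → ℕ → ℕ → ℕ → Bool := onCell 536870912 536870912 1239849684 370763052 536870912 50465866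
    (rowB 3 eng mog cd2q1 cd3q2b pd0 0 false false false .npp 1 0 2 (qsf 536870912 536870912 1239849684 370763052 0) ndB2q1 ndB3q2b pcB0 Cut.none Ext.none)

def k0_mm_102_b : ∃ t, chk3 f_mm_102_b t 1 1 1 = true :=
  ⟨(l 5), by decide +kernel⟩

theorem c_mm_102_b : CertB 536870912 536870912 1239849684 370763052 536870912 50465866 3 eng mog cd2q1 cd3q2b pd0 false false false .npp 1 0 2
    ndB2q1 ndB3q2b pcB0 Cut.none Ext.none :=
  certB0 (fam := false) (s1 := false) (s2 := false) (a := 1) (b := 0) (c := 2) (cn := .npp) (n1 := ndB2q1) (n2 := ndB3q2b) (pc := pcB0) (cut := Cut.none) (xt := Ext.none) (P1 := 536870912) (W1 := 536870912) (P2 := 1239849684) (W2 := 370763052) (P3 := 536870912) (W3 := 50465866) (N0 := 3) (En := eng) (mo := mog) (C1 := cd2q1) (C2 := cd3q2b) (C3 := pd0)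
    rfl k0_mm_102_b

noncomputable def f_mm_112_a : ℕ → ℕ → ℕ → ℕ → Bool := onCell 536870912 536870912 0 536870912 536870912 50465866
    (rowB 3 eng mog cd2q1 cd3q2a pd1 0 false false false .dn 1 1 2 (qsf 536870912 536870912 0 536870912 1) ndB2q1 ndB3q2a pcB1 Cut.none Ext.none)

def k0_mm_112_a : ∃ t, chk3 f_mm_112_a t 1 1 1 = true :=
  ⟨(l 3), by decide +kernel⟩

theorem c_mm_112_a : CertB 536870912 536870912 0 536870912 536870912 50465866 3 eng mog cd2q1 cd3q2a pd1 false false false .dn 1 1 2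
    ndB2q1 ndB3q2a pcB1 Cut.none Ext.none :=
  certB0 (fam := false) (s1 := false) (s2 := false) (a := 1) (b := 1) (c := 2) (cn := .dn) (n1 := ndB2q1) (n2 := ndB3q2a) (pc := pcB1) (cut := Cut.none) (xt := Ext.none) (P1 := 536870912) (W1 := 536870912) (P2 := 0) (W2 := 536870912) (P3 := 536870912) (W3 := 50465866) (N0 := 3) (En := eng) (mo := mog) (C1 := cd2q1) (C2 := cd3q2a) (C3 := pd1)
    rfl k0_mm_112_a

noncomputable def f_mm_112_b : ℕ → ℕ → ℕ → ℕ → Bool := onCell 536870912 536870912 1239849684 370763052 536870912 50465866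
    (rowB 3 eng mog cd2q1 cd3q2b pd1 0 false false false .dn 1 1 2 (qsf 536870912 536870912 1239849684 370763052 1) ndB2q1 ndB3q2b pcB1 Cut.none Ext.none)

def k0_mm_112_b : ∃ t, chk3 f_mm_112_b t 1 1 1 = true :=
  ⟨(l 5), by decide +kernel⟩

theorem c_mm_112_b : CertB 536870912 536870912 1239849684 370763052 536870912 50465866 3 eng mog cd2q1 cd3q2b pd1 false false false .dn 1 1 2
    ndB2q1 ndB3q2b pcB1 Cut.none Ext.none :=
  certB0 (fam := false) (s1 := false) (s2 := false) (a := 1) (b := 1) (c := 2) (cn := .dn) (n1 := ndB2q1) (n2 := ndB3q2b) (pc := pcB1) (cut := Cut.none) (xt := Ext.none) (P1 := 536870912) (W1 := 536870912) (P2 := 1239849684) (W2 := 370763052) (P3 := 536870912) (W3 := 50465866) (N0 := 3) (En := eng) (mo := mog) (C1 := cd2q1) (C2 := cd3q2b) (C3 := pd1)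
    rfl k0_mm_112_b

noncomputable def f_mm_113 : ℕ → ℕ → ℕ → ℕ → Bool := onCell 536870912 536870912 1610612736 536870912 536870912 50465866
    (rowB 3 eng mog cd2q1 cd3q3 pd1 0 false false false .nn 1 1 3 (qsf 536870912 536870912 1610612736 536870912 1) ndB2q1 ndB3q3 pcB1 Cut.none Ext.none)

def k0_mm_113 : ∃ t, chk3 f_mm_113 t 1 1 1 = true :=
  ⟨(l 5), by decide +kernel⟩

theorem c_mm_113 : CertB 536870912 536870912 1610612736 536870912 536870912 50465866 3 eng mog cd2q1 cd3q3 pd1 false false false .nn 1 1 3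
    ndB2q1 ndB3q3 pcB1 Cut.none Ext.none :=
  certB0 (fam := false) (s1 := false) (s2 := false) (a := 1) (b := 1) (c := 3) (cn := .nn) (n1 := ndB2q1) (n2 := ndB3q3) (pc := pcB1) (cut := Cut.none) (xt := Ext.none) (P1 := 536870912) (W1 := 536870912) (P2 := 1610612736) (W2 := 536870912) (P3 := 536870912) (W3 := 50465866) (N0 := 3) (En := eng) (mo := mog) (C1 := cd2q1) (C2 := cd3q3) (C3 := pd1)
    rfl k0_mm_113

noncomputable def f_mm_123 : ℕ → ℕ → ℕ → ℕ → Bool := onCell 536870912 536870912 1610612736 536870912 536870912 50465866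
    (rowB 3 eng mog cd2q1 cd3q3 pd2 0 false false false .npn 1 2 3 (qsf 536870912 536870912 1610612736 536870912 2) ndB2q1 ndB3q3 pcB2 Cut.none Ext.none)

def k0_mm_123 : ∃ t, chk3 f_mm_123 t 1 1 1 = true :=
  ⟨(l 5), by decide +kernel⟩

theorem c_mm_123 : CertB 536870912 536870912 1610612736 536870912 536870912 50465866 3 eng mog cd2q1 cd3q3 pd2 false false false .npn 1 2 3
    ndB2q1 ndB3q3 pcB2 Cut.none Ext.none :=
  certB0 (fam := false) (s1 := false) (s2 := false) (a := 1) (b := 2) (c := 3) (cn := .npn) (n1 := ndB2q1) (n2 := ndB3q3) (pc := pcB2) (cut := Cut.none) (xt := Ext.none) (P1 := 536870912) (W1 := 536870912) (P2 := 1610612736) (W2 := 536870912) (P3 := 536870912) (W3 := 50465866) (N0 := 3) (En := eng) (mo := mog) (C1 := cd2q1) (C2 := cd3q3) (C3 := pd2)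
    rfl k0_mm_123

noncomputable def f_mm_133 : ℕ → ℕ → ℕ → ℕ → Bool := onCell 536870912 536870912 1610612736 536870912 536870912 50465866
    (rowB 3 eng mog cd2q1 cd3q3 pd3 0 false false false .dn 1 3 3 (qsf 536870912 536870912 1610612736 536870912 3) ndB2q1 ndB3q3 pcB3 Cut.none Ext.none)

def k0_mm_133 : ∃ t, chk3 f_mm_133 t 1 1 1 = true :=
  ⟨(l 5), by decide +kernel⟩

theorem c_mm_133 : CertB 536870912 536870912 1610612736 536870912 536870912 50465866 3 eng mog cd2q1 cd3q3 pd3 false false false .dn 1 3 3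
    ndB2q1 ndB3q3 pcB3 Cut.none Ext.none :=
  certB0 (fam := false) (s1 := false) (s2 := false) (a := 1) (b := 3) (c := 3) (cn := .dn) (n1 := ndB2q1) (n2 := ndB3q3) (pc := pcB3) (cut := Cut.none) (xt := Ext.none) (P1 := 536870912) (W1 := 536870912) (P2 := 1610612736) (W2 := 536870912) (P3 := 536870912) (W3 := 50465866) (N0 := 3) (En := eng) (mo := mog) (C1 := cd2q1) (C2 := cd3q3) (C3 := pd3)
    rfl k0_mm_133

noncomputable def f_mm_202_aa : ℕ → ℕ → ℕ → ℕ → Bool := onCell 0 536870912 0 536870912 536870912 50465866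
    (rowB 3 eng mog cd2q2a cd3q2a pd0 0 false false false .pp 2 0 2 (qsf 0 536870912 0 536870912 0) ndB2q2a ndB3q2a pcB0 Cut.none Ext.none)

def k0_mm_202_aa : ∃ t, chk3 f_mm_202_aa t 1 1 1 = true :=
  ⟨(l 3), by decide +kernel⟩

theorem c_mm_202_aa : CertB 0 536870912 0 536870912 536870912 50465866 3 eng mog cd2q2a cd3q2a pd0 false false false .pp 2 0 2
    ndB2q2a ndB3q2a pcB0 Cut.none Ext.none :=
  certB0 (fam := false) (s1 := false) (s2 := false) (a := 2) (b := 0) (c := 2) (cn := .pp) (n1 := ndB2q2a) (n2 := ndB3q2a) (pc := pcB0) (cut := Cut.none) (xt := Ext.none) (P1 := 0) (W1 := 536870912) (P2 := 0) (W2 := 536870912) (P3 := 536870912) (W3 := 50465866) (N0 := 3) (En := eng) (mo := mog) (C1 := cd2q2a) (C2 := cd3q2a) (C3 := pd0)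
    rfl k0_mm_202_aa

noncomputable def f_mm_202_ab : ℕ → ℕ → ℕ → ℕ → Bool := onCell 0 536870912 1239849684 370763052 536870912 50465866
    (rowB 3 eng mog cd2q2a cd3q2b pd0 0 false false false .pp 2 0 2 (qsf 0 536870912 1239849684 370763052 0) ndB2q2a ndB3q2b pcB0 Cut.none Ext.none)

def k0_mm_202_ab : ∃ t, chk3 f_mm_202_ab t 1 1 1 = true :=
  ⟨(l 3), by decide +kernel⟩

theorem c_mm_202_ab : CertB 0 536870912 1239849684 370763052 536870912 50465866 3 eng mog cd2q2a cd3q2b pd0 false false false .pp 2 0 2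
    ndB2q2a ndB3q2b pcB0 Cut.none Ext.none :=
  certB0 (fam := false) (s1 := false) (s2 := false) (a := 2) (b := 0) (c := 2) (cn := .pp) (n1 := ndB2q2a) (n2 := ndB3q2b) (pc := pcB0) (cut := Cut.none) (xt := Ext.none) (P1 := 0) (W1 := 536870912) (P2 := 1239849684) (W2 := 370763052) (P3 := 536870912) (W3 := 50465866) (N0 := 3) (En := eng) (mo := mog) (C1 := cd2q2a) (C2 := cd3q2b) (C3 := pd0)
    rfl k0_mm_202_ab

noncomputable def f_mm_202_ba : ℕ → ℕ → ℕ → ℕ → Bool := onCell 1239849684 370763052 0 536870912 536870912 50465866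
    (rowB 3 eng mog cd2q2b cd3q2a pd0 0 false false false .pp 2 0 2 (qsf 1239849684 370763052 0 536870912 0) ndB2q2b ndB3q2a pcB0 Cut.none Ext.none)

def k0_mm_202_ba : ∃ t, chk3 f_mm_202_ba t 1 1 1 = true :=
  ⟨(l 3), by decide +kernel⟩

theorem c_mm_202_ba : CertB 1239849684 370763052 0 536870912 536870912 50465866 3 eng mog cd2q2b cd3q2a pd0 false false false .pp 2 0 2
    ndB2q2b ndB3q2a pcB0 Cut.none Ext.none :=
  certB0 (fam := false) (s1 := false) (s2 := false) (a := 2) (b := 0) (c := 2) (cn := .pp) (n1 := ndB2q2b) (n2 := ndB3q2a) (pc := pcB0) (cut := Cut.none) (xt := Ext.none) (P1 := 1239849684) (W1 := 370763052) (P2 := 0) (W2 := 536870912) (P3 := 536870912) (W3 := 50465866) (N0 := 3) (En := eng) (mo := mog) (C1 := cd2q2b) (C2 := cd3q2a) (C3 := pd0)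
    rfl k0_mm_202_ba

noncomputable def f_mm_202_bb : ℕ → ℕ → ℕ → ℕ → Bool := onCell 1239849684 370763052 1239849684 370763052 536870912 50465866
    (rowB 3 eng mog cd2q2b cd3q2b pd0 0 false false false .pp 2 0 2 (qsf 1239849684 370763052 1239849684 370763052 0) ndB2q2b ndB3q2b pcB0 Cut.none Ext.none)

def k0_mm_202_bb : ∃ t, chk3 f_mm_202_bb t 1 1 1 = true :=
  ⟨(l 3), by decide +kernel⟩

theorem c_mm_202_bb : CertB 1239849684 370763052 1239849684 370763052 536870912 50465866 3 eng mog cd2q2b cd3q2b pd0 false false false .pp 2 0 2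
    ndB2q2b ndB3q2b pcB0 Cut.none Ext.none :=
  certB0 (fam := false) (s1 := false) (s2 := false) (a := 2) (b := 0) (c := 2) (cn := .pp) (n1 := ndB2q2b) (n2 := ndB3q2b) (pc := pcB0) (cut := Cut.none) (xt := Ext.none) (P1 := 1239849684) (W1 := 370763052) (P2 := 1239849684) (W2 := 370763052) (P3 := 536870912) (W3 := 50465866) (N0 := 3) (En := eng) (mo := mog) (C1 := cd2q2b) (C2 := cd3q2b) (C3 := pd0)
    rfl k0_mm_202_bb

noncomputable def f_mm_203_a : ℕ → ℕ → ℕ → ℕ → Bool := onCell 0 536870912 0 536870912 536870912 50465866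
    (rowB 3 eng mog cd2q2a cd3q3 pd0 1 false false false .up 2 0 3 (qsf 0 536870912 1610612736 536870912 0) ndB2q2a ndB3q3 pcB0 Cut.none Ext.none)

def k0_mm_203_a : ∃ t, chk3 f_mm_203_a t 1 1 1 = true :=
  ⟨(l 3), by decide +kernel⟩

theorem c_mm_203_a : CertB 0 536870912 1610612736 536870912 536870912 50465866 3 eng mog cd2q2a cd3q3 pd0 false false false .up 2 0 3
    ndB2q2a ndB3q3 pcB0 Cut.none Ext.none :=
  certB1 (fam := false) (s1 := false) (s2 := false) (a := 2) (b := 0) (c := 3) (cn := .up) (n1 := ndB2q2a) (n2 := ndB3q3) (pc := pcB0) (cut := Cut.none) (xt := Ext.none) (P1 := 0) (W1 := 536870912) (P2 := 1610612736) (W2 := 536870912) (P3 := 536870912) (W3 := 50465866) (N0 := 3) (En := eng) (mo := mog) (C1 := cd2q2a) (C2 := cd3q3) (C3 := pd0)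
    rfl (fun _ => rfl) k0_mm_203_a

noncomputable def f_mm_203_b : ℕ → ℕ → ℕ → ℕ → Bool := onCell 1239849684 370763052 1610612736 536870912 536870912 50465866
    (rowB 3 eng mog cd2q2b cd3q3 pd0 0 false false false .up 2 0 3 (qsf 1239849684 370763052 1610612736 536870912 0) ndB2q2b ndB3q3 pcB0 Cut.none Ext.none)

def k0_mm_203_b : ∃ t, chk3 f_mm_203_b t 1 1 1 = true :=
  ⟨(l 3), by decide +kernel⟩

theorem c_mm_203_b : CertB 1239849684 370763052 1610612736 536870912 536870912 50465866 3 eng mog cd2q2b cd3q3 pd0 false false false .up 2 0 3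
    ndB2q2b ndB3q3 pcB0 Cut.none Ext.none :=
  certB0 (fam := false) (s1 := false) (s2 := false) (a := 2) (b := 0) (c := 3) (cn := .up) (n1 := ndB2q2b) (n2 := ndB3q3) (pc := pcB0) (cut := Cut.none) (xt := Ext.none) (P1 := 1239849684) (W1 := 370763052) (P2 := 1610612736) (W2 := 536870912) (P3 := 536870912) (W3 := 50465866) (N0 := 3) (En := eng) (mo := mog) (C1 := cd2q2b) (C2 := cd3q3) (C3 := pd0)
    rfl k0_mm_203_b

noncomputable def f_mm_213_a : ℕ → ℕ → ℕ → ℕ → Bool := onCell 0 536870912 1610612736 536870912 536870912 50465866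
    (rowB 3 eng mog cd2q2a cd3q3 pd1 0 false false false .pnn 2 1 3 (qsf 0 536870912 1610612736 536870912 1) ndB2q2a ndB3q3 pcB1 Cut.none Ext.none)

def k0_mm_213_a : ∃ t, chk3 f_mm_213_a t 1 1 1 = true :=
  ⟨(b (l 3) (l 5)), by decide +kernel⟩

theorem c_mm_213_a : CertB 0 536870912 1610612736 536870912 536870912 50465866 3 eng mog cd2q2a cd3q3 pd1 false false false .pnn 2 1 3
    ndB2q2a ndB3q3 pcB1 Cut.none Ext.none :=
  certB0 (fam := false) (s1 := false) (s2 := false) (a := 2) (b := 1) (c := 3) (cn := .pnn) (n1 := ndB2q2a) (n2 := ndB3q3) (pc := pcB1) (cut := Cut.none) (xt := Ext.none) (P1 := 0) (W1 := 536870912) (P2 := 1610612736) (W2 := 536870912) (P3 := 536870912) (W3 := 50465866) (N0 := 3) (En := eng) (mo := mog) (C1 := cd2q2a) (C2 := cd3q3) (C3 := pd1)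
    rfl k0_mm_213_a

noncomputable def f_mm_213_b : ℕ → ℕ → ℕ → ℕ → Bool := onCell 1239849684 370763052 1610612736 536870912 536870912 50465866
    (rowB 3 eng mog cd2q2b cd3q3 pd1 0 false false false .pnn 2 1 3 (qsf 1239849684 370763052 1610612736 536870912 1) ndB2q2b ndB3q3 pcB1 Cut.none Ext.none)

def k0_mm_213_b : ∃ t, chk3 f_mm_213_b t 1 1 1 = true :=
  ⟨(l 3), by decide +kernel⟩

theorem c_mm_213_b : CertB 1239849684 370763052 1610612736 536870912 536870912 50465866 3 eng mog cd2q2b cd3q3 pd1 false false false .pnn 2 1 3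
    ndB2q2b ndB3q3 pcB1 Cut.none Ext.none :=
  certB0 (fam := false) (s1 := false) (s2 := false) (a := 2) (b := 1) (c := 3) (cn := .pnn) (n1 := ndB2q2b) (n2 := ndB3q3) (pc := pcB1) (cut := Cut.none) (xt := Ext.none) (P1 := 1239849684) (W1 := 370763052) (P2 := 1610612736) (W2 := 536870912) (P3 := 536870912) (W3 := 50465866) (N0 := 3) (En := eng) (mo := mog) (C1 := cd2q2b) (C2 := cd3q3) (C3 := pd1)
    rfl k0_mm_213_b

noncomputable def f_mm_303 : ℕ → ℕ → ℕ → ℕ → Bool := onCell 1610612736 536870912 1610612736 536870912 536870912 50465866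
    (rowB 3 eng mog cd2q3 cd3q3 pd0 0 false false false .npn 3 0 3 (qsf 1610612736 536870912 1610612736 536870912 0) ndB2q3 ndB3q3 pcB0 Cut.none Ext.none)

def k0_mm_303 : ∃ t, chk3 f_mm_303 t 1 1 1 = true :=
  ⟨(l 3), by decide +kernel⟩

theorem c_mm_303 : CertB 1610612736 536870912 1610612736 536870912 536870912 50465866 3 eng mog cd2q3 cd3q3 pd0 false false false .npn 3 0 3
    ndB2q3 ndB3q3 pcB0 Cut.none Ext.none :=
  certB0 (fam := false) (s1 := false) (s2 := false) (a := 3) (b := 0) (c := 3) (cn := .npn) (n1 := ndB2q3) (n2 := ndB3q3) (pc := pcB0) (cut := Cut.none) (xt := Ext.none) (P1 := 1610612736) (W1 := 536870912) (P2 := 1610612736) (W2 := 536870912) (P3 := 536870912) (W3 := 50465866) (N0 := 3) (En := eng) (mo := mog) (C1 := cd2q3) (C2 := cd3q3) (C3 := pd0)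
    rfl k0_mm_303

noncomputable def f_mm_313 : ℕ → ℕ → ℕ → ℕ → Bool := onCell 1610612736 536870912 1610612736 536870912 536870912 50465866
    (rowB 3 eng mog cd2q3 cd3q3 pd1 0 false false false .dn 3 1 3 (qsf 1610612736 536870912 1610612736 536870912 1) ndB2q3 ndB3q3 pcB1 Cut.none Ext.none)

def k0_mm_313 : ∃ t, chk3 f_mm_313 t 1 1 1 = true :=
  ⟨(l 3), by decide +kernel⟩

theorem c_mm_313 : CertB 1610612736 536870912 1610612736 536870912 536870912 50465866 3 eng mog cd2q3 cd3q3 pd1 false false false .dn 3 1 3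
    ndB2q3 ndB3q3 pcB1 Cut.none Ext.none :=
  certB0 (fam := false) (s1 := false) (s2 := false) (a := 3) (b := 1) (c := 3) (cn := .dn) (n1 := ndB2q3) (n2 := ndB3q3) (pc := pcB1) (cut := Cut.none) (xt := Ext.none) (P1 := 1610612736) (W1 := 536870912) (P2 := 1610612736) (W2 := 536870912) (P3 := 536870912) (W3 := 50465866) (N0 := 3) (En := eng) (mo := mog) (C1 := cd2q3) (C2 := cd3q3) (C3 := pd1)
    rfl k0_mm_313

end Pool.Agent.Strip051.G.I5000_5470.Tab.C.BB23

namespace Pool.Agent.Strip051.G.I5000_5470.Tab.C.BB24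

open Pool.Agent.Strip051.PB Pool.Agent.Strip051.PB.T
open Pool.Agent.Strip051.G.I5000_5470.Tab

noncomputable def f_pp_001 : ℕ → ℕ → ℕ → ℕ → Bool := onCell 0 536870912 0 536870912 536870912 50465866
    (rowB 3 eng mog cd2q0 cd4q1 pd0 1 false true true .up 0 0 1 (qsf 0 536870912 536870912 536870912 0) ndB2q0 ndB4q1 pcB0 Cut.none Ext.none)

def k0_pp_001 : ∃ t, chk3 f_pp_001 t 1 1 1 = true :=
  ⟨(l 3), by decide +kernel⟩

theorem c_pp_001 : CertB 0 536870912 536870912 536870912 536870912 50465866 3 eng mog cd2q0 cd4q1 pd0 false true true .up 0 0 1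
    ndB2q0 ndB4q1 pcB0 Cut.none Ext.none :=
  certB1 (fam := false) (s1 := true) (s2 := true) (a := 0) (b := 0) (c := 1) (cn := .up) (n1 := ndB2q0) (n2 := ndB4q1) (pc := pcB0) (cut := Cut.none) (xt := Ext.none) (P1 := 0) (W1 := 536870912) (P2 := 536870912) (W2 := 536870912) (P3 := 536870912) (W3 := 50465866) (N0 := 3) (En := eng) (mo := mog) (C1 := cd2q0) (C2 := cd4q1) (C3 := pd0)
    rfl (fun _ => rfl) k0_pp_001

noncomputable def cut_pp_011 : Cut := Cut.of [[⟨0, 0, 0, 67108864⟩, ⟨1, 1, 0, 67108864⟩, ⟨2, 1, 0, 67108864⟩]]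

noncomputable def f_pp_011 : ℕ → ℕ → ℕ → ℕ → Bool := onCell 0 536870912 536870912 536870912 536870912 50465866
    (rowB 3 eng mog cd2q0 cd4q1 pd1 1 false true true .pnn 0 1 1 (qsf 0 536870912 536870912 536870912 1) ndB2q0 ndB4q1 pcB1 cut_pp_011 Ext.none)

def k0_pp_011 : ∃ t, chk3 f_pp_011 t 1 1 1 = true :=
  ⟨(a (b (l 3) (b (l 3) (b (l 3) (a (a (b (l 3) (a (l 6) (l 3))) (l 3)) (l 2))))) (l 3)), by decide +kernel⟩

theorem c_pp_011 : CertB 0 536870912 536870912 536870912 536870912 50465866 3 eng mog cd2q0 cd4q1 pd1 false true true .pnn 0 1 1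
    ndB2q0 ndB4q1 pcB1 cut_pp_011 Ext.none :=
  certB1 (fam := false) (s1 := true) (s2 := true) (a := 0) (b := 1) (c := 1) (cn := .pnn) (n1 := ndB2q0) (n2 := ndB4q1) (pc := pcB1) (cut := cut_pp_011) (xt := Ext.none) (P1 := 0) (W1 := 536870912) (P2 := 536870912) (W2 := 536870912) (P3 := 536870912) (W3 := 50465866) (N0 := 3) (En := eng) (mo := mog) (C1 := cd2q0) (C2 := cd4q1) (C3 := pd1)
    rfl (fun _ => rfl) k0_pp_011

noncomputable def f_pp_012 : ℕ → ℕ → ℕ → ℕ → Bool := onCell 0 536870912 536870912 536870912 536870912 50465866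
    (rowB 3 eng mog cd2q0 cd4q2 pd1 1 false true true .pnp 0 1 2 (qsf 0 536870912 1073741824 536870912 1) ndB2q0 ndB4q2 pcB1 Cut.none Ext.none)

def k0_pp_012 : ∃ t, chk3 f_pp_012 t 1 1 1 = true :=
  ⟨(a (l 3) (b (l 3) (l 3))), by decide +kernel⟩

theorem c_pp_012 : CertB 0 536870912 1073741824 536870912 536870912 50465866 3 eng mog cd2q0 cd4q2 pd1 false true true .pnp 0 1 2
    ndB2q0 ndB4q2 pcB1 Cut.none Ext.none :=
  certB1 (fam := false) (s1 := true) (s2 := true) (a := 0) (b := 1) (c := 2) (cn := .pnp) (n1 := ndB2q0) (n2 := ndB4q2) (pc := pcB1) (cut := Cut.none) (xt := Ext.none) (P1 := 0) (W1 := 536870912) (P2 := 1073741824) (W2 := 536870912) (P3 := 536870912) (W3 := 50465866) (N0 := 3) (En := eng) (mo := mog) (C1 := cd2q0) (C2 := cd4q2) (C3 := pd1)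
    rfl (fun _ => rfl) k0_pp_012

noncomputable def f_pp_022 : ℕ → ℕ → ℕ → ℕ → Bool := onCell 1073741824 536870912 1073741824 536870912 536870912 50465866
    (rowB 3 eng mog cd2q0 cd4q2 pd2 2 false true true .pp 0 2 2 (qsf 0 536870912 1073741824 536870912 2) ndB2q0 ndB4q2 pcB2 Cut.none Ext.none)

def k0_pp_022 : ∃ t, chk3 f_pp_022 t 4 2 1 = true :=
  ⟨(a (l 3) (b (a (l 3) (b (l 1) (b (l 3) (a (l 3) (l 3))))) (a (b (l 3) (a (l 3) (b (l 3) (l 16566288)))) (b (b (a (l 3) (a (b (l 3) (l 16537736)) (b (a (l 16524168) (l 16518048)) (l 16579152)))) (a (c (l 393157175079) (l 381345805207)) (a (b (l 16517528) (l 16533928)) (b (c (l 16611888) (l 16517464)) (l 16517416))))) (a (b (l 16627384) (l 16536312)) (b (a (l 16525352) (l 16508840)) (l 16503760))))))), by decide +kernel⟩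

def k1_pp_022 : ∃ t, chk3 f_pp_022 t 5 2 1 = true :=
  ⟨(b (a (b (l 1) (a (a (b (l 1) (a (b (l 1) (a (l 328061166039) (l 1))) (l 1))) (l 1)) (l 1))) (l 1)) (a (a (a (a (b (b (a (b (l 16512072) (l 16509056)) (b (l 290480267959) (l 16500560))) (b (a (l 16509704) (l 16501104)) (l 16500360))) (l 16505552)) (a (b (b (b (l 273837238423) (l 16492088)) (l 16489744)) (l 16481048)) (b (b (b (l 324303056295) (l 16486680)) (l 16480464)) (l 16478752)))) (a (a (b (b (b (l 342556629895) (l 16544152)) (l 16496376)) (l 16475224)) (b (b (b (l 1) (l 296385788295)) (l 16532144)) (l 16469024))) (b (a (b (b (l 1) (b (l 16574608) (l 16507808))) (a (l 16505912) (l 16533752))) (b (b (l 1) (b (l 1) (a (l 140693346615) (b (l 1) (l 178811160391))))) (a (b (l 16541336) (l 16458192)) (b (c (l 16473432) (l 16542144)) (l 16457800))))) (a (l 16484920) (a (l 16493696) (b (l 16461296) (l 16466560))))))) (b (b (b (l 1) (a (l 249141024519) (l 1))) (b (a (a (l 197601445223) (l 203507176423))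 (l 192232870679)) (a (c (l 16444656) (l 16447224)) (l 16423624)))) (b (a (l 16452080) (l 16431936)) (l 16452016)))) (b (a (b (l 1) (b (l 1) (l 193843174519))) (l 1)) (a (b (b (a (l 16406400) (l 16382408)) (a (l 16414000) (l 243772153767))) (b (l 16411840) (l 16420600))) (b (a (l 218539186983) (l 1)) (b (l 230350335671) (l 279742481207))))))), by decide +kernel⟩

def k2_pp_022 : ∃ t, chk3 f_pp_022 t 2 3 1 = true :=
  ⟨(a (b (a (a (l 3) (b (l 3) (l 362555675607))) (a (b (a (l 16574408) (l 16630504)) (a (l 16553216) (l 16546224))) (b (a (l 16516264) (l 16482488)) (l 16563016)))) (a (b (a (l 3) (l 16619392)) (b (l 16691544) (b (l 16712456) (l 16689808)))) (b (a (l 16550752) (l 16480688)) (b (l 16546608) (a (l 16591840) (l 16516744)))))) (b (a (a (a (b (l 16593032) (l 16439704)) (a (b (l 16468328) (l 16449992)) (a (b (l 16466160) (l 16456808)) (b (a (l 16468840) (l 16474320)) (a (l 16465256) (l 16475176)))))) (b (l 16466448) (l 16476176))) (b (b (a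 (l 16433648) (b (l 16393576) (l 16405840))) (l 16437792)) (b (l 16454640) (l 16465000)))) (b (a (a (a (l 16422320) (a (l 16401016) (a (l 16415856) (a (l 16425984) (l 16434864))))) (l 16448512)) (l 16463864)) (a (a (a (l 16446776) (b (l 16392392) (l 16403856))) (l 16375776)) (b (l 16437112) (l 16426848)))))), by decide +kernel⟩

def k3_pp_022 : ∃ t, chk3 f_pp_022 t 3 1 1 = true :=
  ⟨(b (a (b (l 1) (a (b (l 1) (a (b (l 1) (a (l 240550850743) (l 1))) (l 1))) (l 1))) (l 1)) (a (b (a (b (b (a (b (l 253435777079) (l 297459251271)) (b (l 1) (l 270615598791))) (a (b (l 16384944) (l 16400248)) (b (l 292627345127) (l 312491691175)))) (b (a (l 16420272) (l 16394112)) (l 16431864))) (b (a (b (l 1) (l 292090419767)) (l 1)) (b (a (l 312491600071) (l 320007728119)) (a (l 16399664) (l 308196652135))))) (b (a (l 16456472) (a (l 16442744) (b (l 16413656) (l 16445368)))) (b (a (l 16458424) (l 16462072)) (a (l 16466752) (l 16484576))))) (b (a (b (l 1) (a (b (l 1)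 (a (l 376916083815) (l 1))) (l 1))) (l 1)) (b (a (a (b (a (l 297996008871) (l 315175976055)) (a (l 16434128) (l 16415256))) (b (l 417181388903) (b (l 320544687031) (l 326450155655)))) (a (b (l 1) (a (l 443488087271) (l 1))) (l 1))) (a (b (a (l 16447400) (l 16415992)) (b (l 16447224) (l 16489064))) (b (a (b (l 340945779159) (l 345240775671)) (a (l 472479116407) (l 1))) (a (b (b (l 16399664) (l 16410464)) (l 16457584)) (b (a (l 373694853783) (l 467647309255)) (a (l 16441584) (l 351683155607)))))))))), by decide +kernel⟩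

theorem s4_pp_022 : ∃ t, chk3 f_pp_022 t 2 2 1 = true := ex3_a k0_pp_022 k1_pp_022

theorem s5_pp_022 : ∃ t, chk3 f_pp_022 t 2 1 1 = true := ex3_b s4_pp_022 k2_pp_022

theorem s6_pp_022 : ∃ t, chk3 f_pp_022 t 1 1 1 = true := ex3_a s5_pp_022 k3_pp_022

theorem c_pp_022 : CertB 0 536870912 1073741824 536870912 536870912 50465866 3 eng mog cd2q0 cd4q2 pd2 false true true .pp 0 2 2
    ndB2q0 ndB4q2 pcB2 Cut.none Ext.none :=
  certB2 (fam := false) (s1 := true) (s2 := true) (a := 0) (b := 2) (c := 2) (cn := .pp) (n1 := ndB2q0) (n2 := ndB4q2) (pc := pcB2) (cut := Cut.none) (xt := Ext.none) (P1 := 0) (W1 := 536870912) (P2 := 1073741824) (W2 := 536870912) (P3 := 536870912) (W3 := 50465866) (N0 := 3) (En := eng) (mo := mog) (C1 := cd2q0) (C2 := cd4q2) (C3 := pd2)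
    rfl (fun _ => rfl) s6_pp_022

noncomputable def f_pp_023 : ℕ → ℕ → ℕ → ℕ → Bool := onCell 1073741824 536870912 0 1230186008 536870912 50465866
    (rowB 3 eng mog cd2q0 cd4q3 pd2 2 false true true .up 0 2 3 (qsf 0 536870912 0 1230186008 2) ndB2q0 ndB4q3 pcB2 Cut.none Ext.none)

def k0_pp_023 : ∃ t, chk3 f_pp_023 t 1 1 1 = true :=
  ⟨(b (a (l 2) (a (l 2) (a (l 16738832) (a (l 16741008) (l 16742168))))) (b (a (a (l 2) (a (l 2) (b (l 2) (l 16719600)))) (a (b (l 16723072) (l 16691272)) (a (l 16724200) (b (l 16721128) (a (l 16683704) (l 16690832)))))) (a (a (b (l 2) (a (b (l 2) (b (l 16752128) (l 129553680375))) (b (l 16679928) (b (l 16601904) (l 16619464))))) (b (a (a (l 16725280) (l 16692776)) (l 16649216)) (b (a (l 16569680) (l 16488696)) (a (b (l 16453480) (l 16560536)) (b (l 16366688) (l 16354384)))))) (b (a (a (l 16608184) (l 16598152)) (a (l 16606816) (a (l 16617688) (l 16636944)))) (a (b (l 16482296) (b (l 16483008) (l 16595696))) (b (a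 (l 16537512) (a (l 16555944) (l 16578824))) (a (b (l 16512312) (l 16451976)) (b (a (l 16499784) (l 16507312)) (a (l 16421032) (b (l 16433160) (a (l 16379448) (l 16376704)))))))))))), by decide +kernel⟩

theorem c_pp_023 : CertB 0 536870912 0 1230186008 536870912 50465866 3 eng mog cd2q0 cd4q3 pd2 false true true .up 0 2 3
    ndB2q0 ndB4q3 pcB2 Cut.none Ext.none :=
  certB2 (fam := false) (s1 := true) (s2 := true) (a := 0) (b := 2) (c := 3) (cn := .up) (n1 := ndB2q0) (n2 := ndB4q3) (pc := pcB2) (cut := Cut.none) (xt := Ext.none) (P1 := 0) (W1 := 536870912) (P2 := 0) (W2 := 1230186008) (P3 := 536870912) (W3 := 50465866) (N0 := 3) (En := eng) (mo := mog) (C1 := cd2q0) (C2 := cd4q3) (C3 := pd2)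
    rfl (fun _ => rfl) k0_pp_023

noncomputable def f_pp_033 : ℕ → ℕ → ℕ → ℕ → Bool := onCell 1610612736 536870912 0 1230186008 536870912 50465866
    (rowB 3 eng mog cd2q0 cd4q3 pd3 2 false true true .pnn 0 3 3 (qsf 0 536870912 0 1230186008 3) ndB2q0 ndB4q3 pcB3 Cut.none Ext.none)

def k0_pp_033 : ∃ t, chk3 f_pp_033 t 1 1 1 = true :=
  ⟨(b (b (a (a (l 16743024) (l 155927863975)) (l 4)) (a (a (a (l 16738976) (b (l 16736512) (l 16732800))) (a (l 16732856) (l 16732384))) (a (a (l 16730184) (l 4)) (l 4)))) (b (a (a (a (b (l 16726032) (l 16739848)) (b (l 16724024) (l 16709296))) (a (b (l 16724096) (l 16708072)) (b (l 16729928) (b (l 16721432) (l 16711720))))) (a (a (b (l 16738000) (b (l 16736080) (l 690449641367))) (b (a (l 16747696) (l 16754816)) (a (l 729641085159) (l 1)))) (b (b (l 4) (l 1)) (l 1)))) (a (b (a (a (a (l 16633536) (l 16793376)) (b (l 16695360) (a (l 16681240) (l 16680360)))) (a (b (l 16691304) (b (l 352220745479) (l 361347475655)))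 (b (a (l 16694976) (l 675953848279)) (l 1)))) (a (b (a (a (l 16590280) (b (l 16637288) (l 16623624))) (b (a (l 16662456) (l 336114364983)) (a (b (l 16651896) (l 339335705351)) (l 510597537847)))) (a (b (a (b (l 16558896) (l 16505936)) (b (a (l 16587552) (l 344704176215)) (a (l 372621246535) (l 423624246007)))) (a (b (l 371010582903) (a (l 430603244551) (l 448856854887))) (b (l 464426261351) (l 1)))) (b (a (b (a (l 358663006183) (l 1)) (l 1)) (l 1)) (l 1)))) (b (a (b (l 526166826359) (l 1)) (l 1)) (l 1)))) (l 1)))), by decide +kernel⟩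

theorem c_pp_033 : CertB 0 536870912 0 1230186008 536870912 50465866 3 eng mog cd2q0 cd4q3 pd3 false true true .pnn 0 3 3
    ndB2q0 ndB4q3 pcB3 Cut.none Ext.none :=
  certB2 (fam := false) (s1 := true) (s2 := true) (a := 0) (b := 3) (c := 3) (cn := .pnn) (n1 := ndB2q0) (n2 := ndB4q3) (pc := pcB3) (cut := Cut.none) (xt := Ext.none) (P1 := 0) (W1 := 536870912) (P2 := 0) (W2 := 1230186008) (P3 := 536870912) (W3 := 50465866) (N0 := 3) (En := eng) (mo := mog) (C1 := cd2q0) (C2 := cd4q3) (C3 := pd3)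
    rfl (fun _ => rfl) k0_pp_033

noncomputable def f_pp_101 : ℕ → ℕ → ℕ → ℕ → Bool := onCell 536870912 536870912 536870912 536870912 536870912 50465866
    (rowB 3 eng mog cd2q1 cd4q1 pd0 0 false true true .npn 1 0 1 (qsf 536870912 536870912 536870912 536870912 0) ndB2q1 ndB4q1 pcB0 Cut.none Ext.none)

def k0_pp_101 : ∃ t, chk3 f_pp_101 t 1 1 1 = true :=
  ⟨(l 3), by decide +kernel⟩

theorem c_pp_101 : CertB 536870912 536870912 536870912 536870912 536870912 50465866 3 eng mog cd2q1 cd4q1 pd0 false true true .npn 1 0 1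
    ndB2q1 ndB4q1 pcB0 Cut.none Ext.none :=
  certB0 (fam := false) (s1 := true) (s2 := true) (a := 1) (b := 0) (c := 1) (cn := .npn) (n1 := ndB2q1) (n2 := ndB4q1) (pc := pcB0) (cut := Cut.none) (xt := Ext.none) (P1 := 536870912) (W1 := 536870912) (P2 := 536870912) (W2 := 536870912) (P3 := 536870912) (W3 := 50465866) (N0 := 3) (En := eng) (mo := mog) (C1 := cd2q1) (C2 := cd4q1) (C3 := pd0)
    rfl k0_pp_101

noncomputable def f_pp_102 : ℕ → ℕ → ℕ → ℕ → Bool := onCell 536870912 536870912 0 536870912 536870912 50465866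
    (rowB 3 eng mog cd2q1 cd4q2 pd0 1 false true true .npp 1 0 2 (qsf 536870912 536870912 1073741824 536870912 0) ndB2q1 ndB4q2 pcB0 Cut.none Ext.none)

def k0_pp_102 : ∃ t, chk3 f_pp_102 t 1 1 1 = true :=
  ⟨(l 3), by decide +kernel⟩

theorem c_pp_102 : CertB 536870912 536870912 1073741824 536870912 536870912 50465866 3 eng mog cd2q1 cd4q2 pd0 false true true .npp 1 0 2
    ndB2q1 ndB4q2 pcB0 Cut.none Ext.none :=
  certB1 (fam := false) (s1 := true) (s2 := true) (a := 1) (b := 0) (c := 2) (cn := .npp) (n1 := ndB2q1) (n2 := ndB4q2) (pc := pcB0) (cut := Cut.none) (xt := Ext.none) (P1 := 536870912) (W1 := 536870912) (P2 := 1073741824) (W2 := 536870912) (P3 := 536870912) (W3 := 50465866) (N0 := 3) (En := eng) (mo := mog) (C1 := cd2q1) (C2 := cd4q2) (C3 := pd0)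
    rfl (fun _ => rfl) k0_pp_102

noncomputable def f_pp_112 : ℕ → ℕ → ℕ → ℕ → Bool := onCell 536870912 536870912 1073741824 536870912 536870912 50465866
    (rowB 3 eng mog cd2q1 cd4q2 pd1 2 false true true .dn 1 1 2 (qsf 536870912 536870912 1073741824 536870912 1) ndB2q1 ndB4q2 pcB1 Cut.none Ext.none)

def k0_pp_112 : ∃ t, chk3 f_pp_112 t 1 1 1 = true :=
  ⟨(a (l 3) (b (l 3) (l 3))), by decide +kernel⟩

theorem c_pp_112 : CertB 536870912 536870912 1073741824 536870912 536870912 50465866 3 eng mog cd2q1 cd4q2 pd1 false true true .dn 1 1 2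
    ndB2q1 ndB4q2 pcB1 Cut.none Ext.none :=
  certB2 (fam := false) (s1 := true) (s2 := true) (a := 1) (b := 1) (c := 2) (cn := .dn) (n1 := ndB2q1) (n2 := ndB4q2) (pc := pcB1) (cut := Cut.none) (xt := Ext.none) (P1 := 536870912) (W1 := 536870912) (P2 := 1073741824) (W2 := 536870912) (P3 := 536870912) (W3 := 50465866) (N0 := 3) (En := eng) (mo := mog) (C1 := cd2q1) (C2 := cd4q2) (C3 := pd1)
    rfl (fun _ => rfl) k0_pp_112

noncomputable def f_pp_113 : ℕ → ℕ → ℕ → ℕ → Bool := onCell 536870912 536870912 0 1230186008 536870912 50465866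
    (rowB 3 eng mog cd2q1 cd4q3 pd1 2 false true true .nn 1 1 3 (qsf 536870912 536870912 0 1230186008 1) ndB2q1 ndB4q3 pcB1 Cut.none Ext.none)

def k0_pp_113 : ∃ t, chk3 f_pp_113 t 1 1 1 = true :=
  ⟨(b (a (l 2) (a (l 2) (b (a (l 2) (l 16789360)) (a (b (l 1099612328471) (a (l 16857560) (l 16859384))) (l 16936144))))) (b (a (l 3) (a (l 3) (a (b (a (l 386178676951) (l 16898144)) (a (l 3) (l 278267720471))) (b (l 16921920) (a (l 16816776) (l 16995560)))))) (a (l 3) (a (l 3) (a (b (l 3) (l 3)) (b (b (l 17025832) (l 233170903559)) (b (a (l 3) (l 17084584)) (b (l 124722179703) (l 3))))))))), by decide +kernel⟩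

theorem c_pp_113 : CertB 536870912 536870912 0 1230186008 536870912 50465866 3 eng mog cd2q1 cd4q3 pd1 false true true .nn 1 1 3
    ndB2q1 ndB4q3 pcB1 Cut.none Ext.none :=
  certB2 (fam := false) (s1 := true) (s2 := true) (a := 1) (b := 1) (c := 3) (cn := .nn) (n1 := ndB2q1) (n2 := ndB4q3) (pc := pcB1) (cut := Cut.none) (xt := Ext.none) (P1 := 536870912) (W1 := 536870912) (P2 := 0) (W2 := 1230186008) (P3 := 536870912) (W3 := 50465866) (N0 := 3) (En := eng) (mo := mog) (C1 := cd2q1) (C2 := cd4q3) (C3 := pd1)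
    rfl (fun _ => rfl) k0_pp_113

noncomputable def f_pp_123 : ℕ → ℕ → ℕ → ℕ → Bool := onCell 1073741824 536870912 0 1230186008 536870912 50465866
    (rowB 3 eng mog cd2q1 cd4q3 pd2 2 false true true .npn 1 2 3 (qsf 536870912 536870912 0 1230186008 2) ndB2q1 ndB4q3 pcB2 Cut.none Ext.none)

def k0_pp_123 : ∃ t, chk3 f_pp_123 t 1 1 1 = true :=
  ⟨(b (b (a (a (l 16773304) (l 16754520)) (a (l 16756880) (a (l 16750952) (l 16744608)))) (a (a (a (l 16870496) (l 16832256)) (a (l 17048592) (l 16779768))) (a (l 16753984) (a (l 16741784) (l 16736728))))) (b (a (a (a (l 17181272) (b (l 16920168) (l 16975856))) (a (b (l 16858456) (l 17004576)) (b (l 16796976) (l 16757392)))) (a (a (l 16895616) (l 376380428583)) (a (l 16727192) (l 1)))) (a (a (b (a (b (l 17098112) (l 17049840)) (l 16899824)) (a (b (l 16912880) (b (a (l 16867352) (l 16749728)) (a (l 16850664) (l 16743944)))) (b (l 16707496) (b (l 16611152) (l 1))))) (b (a (a (l 16776592) (l 16713760)) (l 16653000))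 (b (a (l 16577256) (l 1)) (l 1)))) (l 1)))), by decide +kernel⟩

theorem c_pp_123 : CertB 536870912 536870912 0 1230186008 536870912 50465866 3 eng mog cd2q1 cd4q3 pd2 false true true .npn 1 2 3
    ndB2q1 ndB4q3 pcB2 Cut.none Ext.none :=
  certB2 (fam := false) (s1 := true) (s2 := true) (a := 1) (b := 2) (c := 3) (cn := .npn) (n1 := ndB2q1) (n2 := ndB4q3) (pc := pcB2) (cut := Cut.none) (xt := Ext.none) (P1 := 536870912) (W1 := 536870912) (P2 := 0) (W2 := 1230186008) (P3 := 536870912) (W3 := 50465866) (N0 := 3) (En := eng) (mo := mog) (C1 := cd2q1) (C2 := cd4q3) (C3 := pd2)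
    rfl (fun _ => rfl) k0_pp_123

noncomputable def f_pp_133 : ℕ → ℕ → ℕ → ℕ → Bool := onCell 1610612736 536870912 0 1230186008 536870912 50465866
    (rowB 3 eng mog cd2q1 cd4q3 pd3 2 false true true .dn 1 3 3 (qsf 536870912 536870912 0 1230186008 3) ndB2q1 ndB4q3 pcB3 Cut.none Ext.none)

def k0_pp_133 : ∃ t, chk3 f_pp_133 t 1 1 1 = true :=
  ⟨(b (b (a (a (l 16743560) (l 1)) (l 1)) (l 1)) (l 1)), by decide +kernel⟩

theorem c_pp_133 : CertB 536870912 536870912 0 1230186008 536870912 50465866 3 eng mog cd2q1 cd4q3 pd3 false true true .dn 1 3 3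
    ndB2q1 ndB4q3 pcB3 Cut.none Ext.none :=
  certB2 (fam := false) (s1 := true) (s2 := true) (a := 1) (b := 3) (c := 3) (cn := .dn) (n1 := ndB2q1) (n2 := ndB4q3) (pc := pcB3) (cut := Cut.none) (xt := Ext.none) (P1 := 536870912) (W1 := 536870912) (P2 := 0) (W2 := 1230186008) (P3 := 536870912) (W3 := 50465866) (N0 := 3) (En := eng) (mo := mog) (C1 := cd2q1) (C2 := cd4q3) (C3 := pd3)
    rfl (fun _ => rfl) k0_pp_133

noncomputable def f_pp_202_a : ℕ → ℕ → ℕ → ℕ → Bool := onCell 0 536870912 1073741824 536870912 536870912 50465866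
    (rowB 3 eng mog cd2q2a cd4q2 pd0 0 false true true .pp 2 0 2 (qsf 0 536870912 1073741824 536870912 0) ndB2q2a ndB4q2 pcB0 Cut.none Ext.none)

def k0_pp_202_a : ∃ t, chk3 f_pp_202_a t 1 1 1 = true :=
  ⟨(l 3), by decide +kernel⟩

theorem c_pp_202_a : CertB 0 536870912 1073741824 536870912 536870912 50465866 3 eng mog cd2q2a cd4q2 pd0 false true true .pp 2 0 2
    ndB2q2a ndB4q2 pcB0 Cut.none Ext.none :=
  certB0 (fam := false) (s1 := true) (s2 := true) (a := 2) (b := 0) (c := 2) (cn := .pp) (n1 := ndB2q2a) (n2 := ndB4q2) (pc := pcB0) (cut := Cut.none) (xt := Ext.none) (P1 := 0) (W1 := 536870912) (P2 := 1073741824) (W2 := 536870912) (P3 := 536870912) (W3 := 50465866) (N0 := 3) (En := eng) (mo := mog) (C1 := cd2q2a) (C2 := cd4q2) (C3 := pd0)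
    rfl k0_pp_202_a

noncomputable def f_pp_202_b : ℕ → ℕ → ℕ → ℕ → Bool := onCell 1239849684 370763052 1073741824 536870912 536870912 50465866
    (rowB 3 eng mog cd2q2b cd4q2 pd0 0 false true true .pp 2 0 2 (qsf 1239849684 370763052 1073741824 536870912 0) ndB2q2b ndB4q2 pcB0 Cut.none Ext.none)

def k0_pp_202_b : ∃ t, chk3 f_pp_202_b t 1 1 1 = true :=
  ⟨(l 3), by decide +kernel⟩

theorem c_pp_202_b : CertB 1239849684 370763052 1073741824 536870912 536870912 50465866 3 eng mog cd2q2b cd4q2 pd0 false true true .pp 2 0 2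
    ndB2q2b ndB4q2 pcB0 Cut.none Ext.none :=
  certB0 (fam := false) (s1 := true) (s2 := true) (a := 2) (b := 0) (c := 2) (cn := .pp) (n1 := ndB2q2b) (n2 := ndB4q2) (pc := pcB0) (cut := Cut.none) (xt := Ext.none) (P1 := 1239849684) (W1 := 370763052) (P2 := 1073741824) (W2 := 536870912) (P3 := 536870912) (W3 := 50465866) (N0 := 3) (En := eng) (mo := mog) (C1 := cd2q2b) (C2 := cd4q2) (C3 := pd0)
    rfl k0_pp_202_b

noncomputable def f_pp_203_a : ℕ → ℕ → ℕ → ℕ → Bool := onCell 0 536870912 0 1230186008 536870912 50465866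
    (rowB 3 eng mog cd2q2a cd4q3 pd0 0 false true true .up 2 0 3 (qsf 0 536870912 0 1230186008 0) ndB2q2a ndB4q3 pcB0 Cut.none Ext.none)

def k0_pp_203_a : ∃ t, chk3 f_pp_203_a t 1 1 1 = true :=
  ⟨(b (l 2) (l 3)), by decide +kernel⟩

theorem c_pp_203_a : CertB 0 536870912 0 1230186008 536870912 50465866 3 eng mog cd2q2a cd4q3 pd0 false true true .up 2 0 3
    ndB2q2a ndB4q3 pcB0 Cut.none Ext.none :=
  certB0 (fam := false) (s1 := true) (s2 := true) (a := 2) (b := 0) (c := 3) (cn := .up) (n1 := ndB2q2a) (n2 := ndB4q3) (pc := pcB0) (cut := Cut.none) (xt := Ext.none) (P1 := 0) (W1 := 536870912) (P2 := 0) (W2 := 1230186008) (P3 := 536870912) (W3 := 50465866) (N0 := 3) (En := eng) (mo := mog) (C1 := cd2q2a) (C2 := cd4q3) (C3 := pd0)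
    rfl k0_pp_203_a

noncomputable def f_pp_203_b : ℕ → ℕ → ℕ → ℕ → Bool := onCell 1239849684 370763052 0 1230186008 536870912 50465866
    (rowB 3 eng mog cd2q2b cd4q3 pd0 0 false true true .up 2 0 3 (qsf 1239849684 370763052 0 1230186008 0) ndB2q2b ndB4q3 pcB0 Cut.none Ext.none)

def k0_pp_203_b : ∃ t, chk3 f_pp_203_b t 1 1 1 = true :=
  ⟨(b (l 3) (l 3)), by decide +kernel⟩

theorem c_pp_203_b : CertB 1239849684 370763052 0 1230186008 536870912 50465866 3 eng mog cd2q2b cd4q3 pd0 false true true .up 2 0 3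
    ndB2q2b ndB4q3 pcB0 Cut.none Ext.none :=
  certB0 (fam := false) (s1 := true) (s2 := true) (a := 2) (b := 0) (c := 3) (cn := .up) (n1 := ndB2q2b) (n2 := ndB4q3) (pc := pcB0) (cut := Cut.none) (xt := Ext.none) (P1 := 1239849684) (W1 := 370763052) (P2 := 0) (W2 := 1230186008) (P3 := 536870912) (W3 := 50465866) (N0 := 3) (En := eng) (mo := mog) (C1 := cd2q2b) (C2 := cd4q3) (C3 := pd0)
    rfl k0_pp_203_b

noncomputable def cut_pp_213_a : Cut := Cut.of [[⟨0, 1, 0, 67108864⟩, ⟨1, 1, 0, 67108864⟩, ⟨2, 2, 0, 16777216⟩]]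

noncomputable def f_pp_213_a : ℕ → ℕ → ℕ → ℕ → Bool := onCell 0 536870912 0 1230186008 536870912 50465866
    (rowB 3 eng mog cd2q2a cd4q3 pd1 0 false true true .pnn 2 1 3 (qsf 0 536870912 0 1230186008 1) ndB2q2a ndB4q3 pcB1 cut_pp_213_a Ext.none)

def k0_pp_213_a : ∃ t, chk3 f_pp_213_a t 1 1 1 = true :=
  ⟨(b (a (l 3) (b (a (l 3) (a (l 3) (b (l 6) (l 3)))) (l 3))) (l 3)), by decide +kernel⟩

theorem c_pp_213_a : CertB 0 536870912 0 1230186008 536870912 50465866 3 eng mog cd2q2a cd4q3 pd1 false true true .pnn 2 1 3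
    ndB2q2a ndB4q3 pcB1 cut_pp_213_a Ext.none :=
  certB0 (fam := false) (s1 := true) (s2 := true) (a := 2) (b := 1) (c := 3) (cn := .pnn) (n1 := ndB2q2a) (n2 := ndB4q3) (pc := pcB1) (cut := cut_pp_213_a) (xt := Ext.none) (P1 := 0) (W1 := 536870912) (P2 := 0) (W2 := 1230186008) (P3 := 536870912) (W3 := 50465866) (N0 := 3) (En := eng) (mo := mog) (C1 := cd2q2a) (C2 := cd4q3) (C3 := pd1)
    rfl k0_pp_213_a

noncomputable def cut_pp_213_b : Cut := Cut.of [[⟨0, 1, 0, 67108864⟩, ⟨1, 1, 0, 67108864⟩, ⟨2, 2, 0, 16777216⟩]]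

noncomputable def f_pp_213_b : ℕ → ℕ → ℕ → ℕ → Bool := onCell 1239849684 370763052 0 1230186008 536870912 50465866
    (rowB 3 eng mog cd2q2b cd4q3 pd1 0 false true true .pnn 2 1 3 (qsf 1239849684 370763052 0 1230186008 1) ndB2q2b ndB4q3 pcB1 cut_pp_213_b Ext.none)

def k0_pp_213_b : ∃ t, chk3 f_pp_213_b t 1 1 1 = true :=
  ⟨(b (l 3) (l 3)), by decide +kernel⟩

theorem c_pp_213_b : CertB 1239849684 370763052 0 1230186008 536870912 50465866 3 eng mog cd2q2b cd4q3 pd1 false true true .pnn 2 1 3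
    ndB2q2b ndB4q3 pcB1 cut_pp_213_b Ext.none :=
  certB0 (fam := false) (s1 := true) (s2 := true) (a := 2) (b := 1) (c := 3) (cn := .pnn) (n1 := ndB2q2b) (n2 := ndB4q3) (pc := pcB1) (cut := cut_pp_213_b) (xt := Ext.none) (P1 := 1239849684) (W1 := 370763052) (P2 := 0) (W2 := 1230186008) (P3 := 536870912) (W3 := 50465866) (N0 := 3) (En := eng) (mo := mog) (C1 := cd2q2b) (C2 := cd4q3) (C3 := pd1)
    rfl k0_pp_213_b

noncomputable def f_pp_303 : ℕ → ℕ → ℕ → ℕ → Bool := onCell 1610612736 536870912 0 1230186008 536870912 50465866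
    (rowB 3 eng mog cd2q3 cd4q3 pd0 0 false true true .npn 3 0 3 (qsf 1610612736 536870912 0 1230186008 0) ndB2q3 ndB4q3 pcB0 Cut.none Ext.none)

def k0_pp_303 : ∃ t, chk3 f_pp_303 t 1 1 1 = true :=
  ⟨(b (l 3) (l 3)), by decide +kernel⟩

theorem c_pp_303 : CertB 1610612736 536870912 0 1230186008 536870912 50465866 3 eng mog cd2q3 cd4q3 pd0 false true true .npn 3 0 3
    ndB2q3 ndB4q3 pcB0 Cut.none Ext.none :=
  certB0 (fam := false) (s1 := true) (s2 := true) (a := 3) (b := 0) (c := 3) (cn := .npn) (n1 := ndB2q3) (n2 := ndB4q3) (pc := pcB0) (cut := Cut.none) (xt := Ext.none) (P1 := 1610612736) (W1 := 536870912) (P2 := 0) (W2 := 1230186008) (P3 := 536870912) (W3 := 50465866) (N0 := 3) (En := eng) (mo := mog) (C1 := cd2q3) (C2 := cd4q3) (C3 := pd0)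
    rfl k0_pp_303

noncomputable def f_pp_313 : ℕ → ℕ → ℕ → ℕ → Bool := onCell 1610612736 536870912 0 1230186008 536870912 50465866
    (rowB 3 eng mog cd2q3 cd4q3 pd1 0 false true true .dn 3 1 3 (qsf 1610612736 536870912 0 1230186008 1) ndB2q3 ndB4q3 pcB1 Cut.none Ext.none)

def k0_pp_313 : ∃ t, chk3 f_pp_313 t 1 1 1 = true :=
  ⟨(b (l 3) (l 1)), by decide +kernel⟩

theorem c_pp_313 : CertB 1610612736 536870912 0 1230186008 536870912 50465866 3 eng mog cd2q3 cd4q3 pd1 false true true .dn 3 1 3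
    ndB2q3 ndB4q3 pcB1 Cut.none Ext.none :=
  certB0 (fam := false) (s1 := true) (s2 := true) (a := 3) (b := 1) (c := 3) (cn := .dn) (n1 := ndB2q3) (n2 := ndB4q3) (pc := pcB1) (cut := Cut.none) (xt := Ext.none) (P1 := 1610612736) (W1 := 536870912) (P2 := 0) (W2 := 1230186008) (P3 := 536870912) (W3 := 50465866) (N0 := 3) (En := eng) (mo := mog) (C1 := cd2q3) (C2 := cd4q3) (C3 := pd1)
    rfl k0_pp_313

noncomputable def f_pm_001 : ℕ → ℕ → ℕ → ℕ → Bool := onCell 0 536870912 536870912 536870912 536870912 50465866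
    (rowB 3 eng mog cd2q0 cd4q1 pd0 0 false true false .up 0 0 1 (qsf 0 536870912 536870912 536870912 0) ndB2q0 ndB4q1 pcB0 Cut.none Ext.none)

def k0_pm_001 : ∃ t, chk3 f_pm_001 t 1 1 1 = true :=
  ⟨(l 4), by decide +kernel⟩

theorem c_pm_001 : CertB 0 536870912 536870912 536870912 536870912 50465866 3 eng mog cd2q0 cd4q1 pd0 false true false .up 0 0 1
    ndB2q0 ndB4q1 pcB0 Cut.none Ext.none :=
  certB0 (fam := false) (s1 := true) (s2 := false) (a := 0) (b := 0) (c := 1) (cn := .up) (n1 := ndB2q0) (n2 := ndB4q1) (pc := pcB0) (cut := Cut.none) (xt := Ext.none) (P1 := 0) (W1 := 536870912) (P2 := 536870912) (W2 := 536870912) (P3 := 536870912) (W3 := 50465866) (N0 := 3) (En := eng) (mo := mog) (C1 := cd2q0) (C2 := cd4q1) (C3 := pd0)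
    rfl k0_pm_001

noncomputable def f_pm_011 : ℕ → ℕ → ℕ → ℕ → Bool := onCell 0 536870912 536870912 536870912 536870912 50465866
    (rowB 3 eng mog cd2q0 cd4q1 pd1 0 false true false .pnn 0 1 1 (qsf 0 536870912 536870912 536870912 1) ndB2q0 ndB4q1 pcB1 Cut.none Ext.none)

def k0_pm_011 : ∃ t, chk3 f_pm_011 t 1 1 1 = true :=
  ⟨(l 4), by decide +kernel⟩

theorem c_pm_011 : CertB 0 536870912 536870912 536870912 536870912 50465866 3 eng mog cd2q0 cd4q1 pd1 false true false .pnn 0 1 1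
    ndB2q0 ndB4q1 pcB1 Cut.none Ext.none :=
  certB0 (fam := false) (s1 := true) (s2 := false) (a := 0) (b := 1) (c := 1) (cn := .pnn) (n1 := ndB2q0) (n2 := ndB4q1) (pc := pcB1) (cut := Cut.none) (xt := Ext.none) (P1 := 0) (W1 := 536870912) (P2 := 536870912) (W2 := 536870912) (P3 := 536870912) (W3 := 50465866) (N0 := 3) (En := eng) (mo := mog) (C1 := cd2q0) (C2 := cd4q1) (C3 := pd1)
    rfl k0_pm_011

noncomputable def f_pm_012 : ℕ → ℕ → ℕ → ℕ → Bool := onCell 0 536870912 1073741824 536870912 536870912 50465866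
    (rowB 3 eng mog cd2q0 cd4q2 pd1 0 false true false .pnp 0 1 2 (qsf 0 536870912 1073741824 536870912 1) ndB2q0 ndB4q2 pcB1 Cut.none Ext.none)

def k0_pm_012 : ∃ t, chk3 f_pm_012 t 1 1 1 = true :=
  ⟨(l 4), by decide +kernel⟩

theorem c_pm_012 : CertB 0 536870912 1073741824 536870912 536870912 50465866 3 eng mog cd2q0 cd4q2 pd1 false true false .pnp 0 1 2
    ndB2q0 ndB4q2 pcB1 Cut.none Ext.none :=
  certB0 (fam := false) (s1 := true) (s2 := false) (a := 0) (b := 1) (c := 2) (cn := .pnp) (n1 := ndB2q0) (n2 := ndB4q2) (pc := pcB1) (cut := Cut.none) (xt := Ext.none) (P1 := 0) (W1 := 536870912) (P2 := 1073741824) (W2 := 536870912) (P3 := 536870912) (W3 := 50465866) (N0 := 3) (En := eng) (mo := mog) (C1 := cd2q0) (C2 := cd4q2) (C3 := pd1)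
    rfl k0_pm_012

noncomputable def f_pm_022 : ℕ → ℕ → ℕ → ℕ → Bool := onCell 0 536870912 1073741824 536870912 536870912 50465866
    (rowB 3 eng mog cd2q0 cd4q2 pd2 0 false true false .pp 0 2 2 (qsf 0 536870912 1073741824 536870912 2) ndB2q0 ndB4q2 pcB2 Cut.none Ext.none)

def k0_pm_022 : ∃ t, chk3 f_pm_022 t 1 1 1 = true :=
  ⟨(l 4), by decide +kernel⟩

theorem c_pm_022 : CertB 0 536870912 1073741824 536870912 536870912 50465866 3 eng mog cd2q0 cd4q2 pd2 false true false .pp 0 2 2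
    ndB2q0 ndB4q2 pcB2 Cut.none Ext.none :=
  certB0 (fam := false) (s1 := true) (s2 := false) (a := 0) (b := 2) (c := 2) (cn := .pp) (n1 := ndB2q0) (n2 := ndB4q2) (pc := pcB2) (cut := Cut.none) (xt := Ext.none) (P1 := 0) (W1 := 536870912) (P2 := 1073741824) (W2 := 536870912) (P3 := 536870912) (W3 := 50465866) (N0 := 3) (En := eng) (mo := mog) (C1 := cd2q0) (C2 := cd4q2) (C3 := pd2)
    rfl k0_pm_022

noncomputable def f_pm_023 : ℕ → ℕ → ℕ → ℕ → Bool := onCell 0 536870912 0 1230186008 536870912 50465866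
    (rowB 3 eng mog cd2q0 cd4q3 pd2 0 false true false .up 0 2 3 (qsf 0 536870912 0 1230186008 2) ndB2q0 ndB4q3 pcB2 Cut.none Ext.none)

def k0_pm_023 : ∃ t, chk3 f_pm_023 t 1 1 1 = true :=
  ⟨(a (b (l 2) (l 4)) (b (a (l 2) (b (l 16867376) (l 4))) (l 4))), by decide +kernel⟩

theorem c_pm_023 : CertB 0 536870912 0 1230186008 536870912 50465866 3 eng mog cd2q0 cd4q3 pd2 false true false .up 0 2 3
    ndB2q0 ndB4q3 pcB2 Cut.none Ext.none :=
  certB0 (fam := false) (s1 := true) (s2 := false) (a := 0) (b := 2) (c := 3) (cn := .up) (n1 := ndB2q0) (n2 := ndB4q3) (pc := pcB2) (cut := Cut.none) (xt := Ext.none) (P1 := 0) (W1 := 536870912) (P2 := 0) (W2 := 1230186008) (P3 := 536870912) (W3 := 50465866) (N0 := 3) (En := eng) (mo := mog) (C1 := cd2q0) (C2 := cd4q3) (C3 := pd2)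
    rfl k0_pm_023

noncomputable def f_pm_033 : ℕ → ℕ → ℕ → ℕ → Bool := onCell 0 536870912 0 1230186008 536870912 50465866
    (rowB 3 eng mog cd2q0 cd4q3 pd3 0 false true false .pnn 0 3 3 (qsf 0 536870912 0 1230186008 3) ndB2q0 ndB4q3 pcB3 Cut.none Ext.none)

def k0_pm_033 : ∃ t, chk3 f_pm_033 t 1 1 1 = true :=
  ⟨(b (a (l 4) (a (l 4) (b (a (l 4) (l 16738400)) (l 4)))) (b (l 4) (l 4))), by decide +kernel⟩

theorem c_pm_033 : CertB 0 536870912 0 1230186008 536870912 50465866 3 eng mog cd2q0 cd4q3 pd3 false true false .pnn 0 3 3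
    ndB2q0 ndB4q3 pcB3 Cut.none Ext.none :=
  certB0 (fam := false) (s1 := true) (s2 := false) (a := 0) (b := 3) (c := 3) (cn := .pnn) (n1 := ndB2q0) (n2 := ndB4q3) (pc := pcB3) (cut := Cut.none) (xt := Ext.none) (P1 := 0) (W1 := 536870912) (P2 := 0) (W2 := 1230186008) (P3 := 536870912) (W3 := 50465866) (N0 := 3) (En := eng) (mo := mog) (C1 := cd2q0) (C2 := cd4q3) (C3 := pd3)
    rfl k0_pm_033

noncomputable def f_pm_101 : ℕ → ℕ → ℕ → ℕ → Bool := onCell 536870912 536870912 536870912 536870912 536870912 50465866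
    (rowB 3 eng mog cd2q1 cd4q1 pd0 0 false true false .npn 1 0 1 (qsf 536870912 536870912 536870912 536870912 0) ndB2q1 ndB4q1 pcB0 Cut.none Ext.none)

def k0_pm_101 : ∃ t, chk3 f_pm_101 t 1 1 1 = true :=
  ⟨(l 4), by decide +kernel⟩

theorem c_pm_101 : CertB 536870912 536870912 536870912 536870912 536870912 50465866 3 eng mog cd2q1 cd4q1 pd0 false true false .npn 1 0 1
    ndB2q1 ndB4q1 pcB0 Cut.none Ext.none :=
  certB0 (fam := false) (s1 := true) (s2 := false) (a := 1) (b := 0) (c := 1) (cn := .npn) (n1 := ndB2q1) (n2 := ndB4q1) (pc := pcB0) (cut := Cut.none) (xt := Ext.none) (P1 := 536870912) (W1 := 536870912) (P2 := 536870912) (W2 := 536870912) (P3 := 536870912) (W3 := 50465866) (N0 := 3) (En := eng) (mo := mog) (C1 := cd2q1) (C2 := cd4q1) (C3 := pd0)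
    rfl k0_pm_101

noncomputable def f_pm_102 : ℕ → ℕ → ℕ → ℕ → Bool := onCell 536870912 536870912 0 536870912 536870912 50465866
    (rowB 3 eng mog cd2q1 cd4q2 pd0 1 false true false .npp 1 0 2 (qsf 536870912 536870912 1073741824 536870912 0) ndB2q1 ndB4q2 pcB0 Cut.none Ext.none)

def k0_pm_102 : ∃ t, chk3 f_pm_102 t 1 1 1 = true :=
  ⟨(a (l 4) (a (b (l 4) (b (l 4) (b (l 4) (l 16856568)))) (b (b (a (l 4) (b (b (l 282427318391) (l 16617768)) (l 16686176))) (b (a (l 4) (l 16785712)) (a (l 16696224) (l 16888528)))) (b (b (a (l 16807248) (l 16975976)) (a (l 16925144) (l 17066688))) (b (a (l 17048520) (l 17189128)) (a (l 17188328) (a (l 17327776) (l 17378704)))))))), by decide +kernel⟩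

theorem c_pm_102 : CertB 536870912 536870912 1073741824 536870912 536870912 50465866 3 eng mog cd2q1 cd4q2 pd0 false true false .npp 1 0 2
    ndB2q1 ndB4q2 pcB0 Cut.none Ext.none :=
  certB1 (fam := false) (s1 := true) (s2 := false) (a := 1) (b := 0) (c := 2) (cn := .npp) (n1 := ndB2q1) (n2 := ndB4q2) (pc := pcB0) (cut := Cut.none) (xt := Ext.none) (P1 := 536870912) (W1 := 536870912) (P2 := 1073741824) (W2 := 536870912) (P3 := 536870912) (W3 := 50465866) (N0 := 3) (En := eng) (mo := mog) (C1 := cd2q1) (C2 := cd4q2) (C3 := pd0)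
    rfl (fun _ => rfl) k0_pm_102

noncomputable def f_pm_112 : ℕ → ℕ → ℕ → ℕ → Bool := onCell 536870912 536870912 1073741824 536870912 536870912 50465866
    (rowB 3 eng mog cd2q1 cd4q2 pd1 2 false true false .dn 1 1 2 (qsf 536870912 536870912 1073741824 536870912 1) ndB2q1 ndB4q2 pcB1 Cut.none Ext.none)

def k0_pm_112 : ∃ t, chk3 f_pm_112 t 1 1 1 = true :=
  ⟨(a (b (l 4) (b (a (l 103851125223) (l 4)) (a (b (l 17160768) (a (l 17351472) (l 17247960))) (b (l 4) (l 17126704))))) (l 4)), by decide +kernel⟩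

theorem c_pm_112 : CertB 536870912 536870912 1073741824 536870912 536870912 50465866 3 eng mog cd2q1 cd4q2 pd1 false true false .dn 1 1 2
    ndB2q1 ndB4q2 pcB1 Cut.none Ext.none :=
  certB2 (fam := false) (s1 := true) (s2 := false) (a := 1) (b := 1) (c := 2) (cn := .dn) (n1 := ndB2q1) (n2 := ndB4q2) (pc := pcB1) (cut := Cut.none) (xt := Ext.none) (P1 := 536870912) (W1 := 536870912) (P2 := 1073741824) (W2 := 536870912) (P3 := 536870912) (W3 := 50465866) (N0 := 3) (En := eng) (mo := mog) (C1 := cd2q1) (C2 := cd4q2) (C3 := pd1)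
    rfl (fun _ => rfl) k0_pm_112

noncomputable def f_pm_113 : ℕ → ℕ → ℕ → ℕ → Bool := onCell 536870912 536870912 0 1230186008 536870912 50465866
    (rowB 3 eng mog cd2q1 cd4q3 pd1 0 false true false .nn 1 1 3 (qsf 536870912 536870912 0 1230186008 1) ndB2q1 ndB4q3 pcB1 Cut.none Ext.none)

def k0_pm_113 : ∃ t, chk3 f_pm_113 t 1 1 1 = true :=
  ⟨(b (a (l 2) (a (l 2) (b (l 16796448) (l 16873552)))) (b (a (a (l 2) (b (l 2) (a (l 2) (l 17052552)))) (a (b (a (l 2) (l 16983608)) (l 17102320)) (b (l 16965216) (l 17045784)))) (a (b (a (l 2) (a (l 4) (l 17083688))) (l 4)) (b (a (b (l 17184952) (l 17117240)) (b (l 17111128) (l 17173136))) (a (b (l 17160736) (l 17169176)) (b (l 17261624) (a (l 17258352) (b (l 17403720) (l 17389224))))))))), by decide +kernel⟩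

theorem c_pm_113 : CertB 536870912 536870912 0 1230186008 536870912 50465866 3 eng mog cd2q1 cd4q3 pd1 false true false .nn 1 1 3
    ndB2q1 ndB4q3 pcB1 Cut.none Ext.none :=
  certB0 (fam := false) (s1 := true) (s2 := false) (a := 1) (b := 1) (c := 3) (cn := .nn) (n1 := ndB2q1) (n2 := ndB4q3) (pc := pcB1) (cut := Cut.none) (xt := Ext.none) (P1 := 536870912) (W1 := 536870912) (P2 := 0) (W2 := 1230186008) (P3 := 536870912) (W3 := 50465866) (N0 := 3) (En := eng) (mo := mog) (C1 := cd2q1) (C2 := cd4q3) (C3 := pd1)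
    rfl k0_pm_113

noncomputable def f_pm_123 : ℕ → ℕ → ℕ → ℕ → Bool := onCell 1073741824 536870912 0 1230186008 536870912 50465866
    (rowB 3 eng mog cd2q1 cd4q3 pd2 2 false true false .npn 1 2 3 (qsf 536870912 536870912 0 1230186008 2) ndB2q1 ndB4q3 pcB2 Cut.none Ext.none)

def k0_pm_123 : ∃ t, chk3 f_pm_123 t 1 1 1 = true :=
  ⟨(b (b (a (a (l 16768152) (b (l 16754624) (l 16760248))) (a (l 16757112) (l 16746808))) (a (a (b (l 16812416) (l 16869272)) (b (l 16781440) (l 16813592))) (a (l 16834144) (l 16743552)))) (b (a (a (a (l 16992264) (l 17018888)) (a (l 99019813207) (l 120494520215))) (a (l 143579814503) (l 4))) (b (a (a (a (l 16979824) (l 4)) (l 4)) (l 1)) (l 4)))), by decide +kernel⟩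

theorem c_pm_123 : CertB 536870912 536870912 0 1230186008 536870912 50465866 3 eng mog cd2q1 cd4q3 pd2 false true false .npn 1 2 3
    ndB2q1 ndB4q3 pcB2 Cut.none Ext.none :=
  certB2 (fam := false) (s1 := true) (s2 := false) (a := 1) (b := 2) (c := 3) (cn := .npn) (n1 := ndB2q1) (n2 := ndB4q3) (pc := pcB2) (cut := Cut.none) (xt := Ext.none) (P1 := 536870912) (W1 := 536870912) (P2 := 0) (W2 := 1230186008) (P3 := 536870912) (W3 := 50465866) (N0 := 3) (En := eng) (mo := mog) (C1 := cd2q1) (C2 := cd4q3) (C3 := pd2)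
    rfl (fun _ => rfl) k0_pm_123

noncomputable def f_pm_133 : ℕ → ℕ → ℕ → ℕ → Bool := onCell 1610612736 536870912 0 1230186008 536870912 50465866
    (rowB 3 eng mog cd2q1 cd4q3 pd3 2 false true false .dn 1 3 3 (qsf 536870912 536870912 0 1230186008 3) ndB2q1 ndB4q3 pcB3 Cut.none Ext.none)

def k0_pm_133 : ∃ t, chk3 f_pm_133 t 1 1 1 = true :=
  ⟨(b (a (a (a (l 16740376) (l 1)) (l 1)) (l 1)) (l 1)), by decide +kernel⟩

theorem c_pm_133 : CertB 536870912 536870912 0 1230186008 536870912 50465866 3 eng mog cd2q1 cd4q3 pd3 false true false .dn 1 3 3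
    ndB2q1 ndB4q3 pcB3 Cut.none Ext.none :=
  certB2 (fam := false) (s1 := true) (s2 := false) (a := 1) (b := 3) (c := 3) (cn := .dn) (n1 := ndB2q1) (n2 := ndB4q3) (pc := pcB3) (cut := Cut.none) (xt := Ext.none) (P1 := 536870912) (W1 := 536870912) (P2 := 0) (W2 := 1230186008) (P3 := 536870912) (W3 := 50465866) (N0 := 3) (En := eng) (mo := mog) (C1 := cd2q1) (C2 := cd4q3) (C3 := pd3)
    rfl (fun _ => rfl) k0_pm_133

noncomputable def f_pm_202_a : ℕ → ℕ → ℕ → ℕ → Bool := onCell 0 536870912 1073741824 536870912 536870912 50465866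
    (rowB 3 eng mog cd2q2a cd4q2 pd0 0 false true false .pp 2 0 2 (qsf 0 536870912 1073741824 536870912 0) ndB2q2a ndB4q2 pcB0 Cut.none Ext.none)

def k0_pm_202_a : ∃ t, chk3 f_pm_202_a t 2 2 1 = true :=
  ⟨(a (b (l 1) (b (a (a (l 3) (b (b (l 1) (b (l 1) (l 136532553751))) (b (l 144048739031) (l 3)))) (b (a (b (l 1) (a (l 16527472) (l 16471024))) (l 16489552)) (a (b (b (l 16590936) (a (l 16523096) (l 16461216))) (a (l 132237520951) (a (l 16504704) (l 16484680)))) (b (l 16575312) (l 16601888))))) (a (l 3) (b (a (b (a (l 16571352) (a (l 16466712) (l 16467032))) (l 141901312263)) (a (b (b (l 16466968) (l 16468880)) (l 16556200)) (b (l 16469360) (l 16473344)))) (b (a (l 202030685863) (a (l 16540432) (l 16520424))) (a (l 3) (a (l 16483472) (l 16484080)))))))) (b (b (l 1) (b (l 1) (a (l 1) (b (l 1) (l 16566776))))) (b (a (a (b (l 16486112) (b (l 16492088) (l 16516688))) (b (l 16526704) (b (l 16513944) (l 16493592)))) (b (a (l 16547312) (l 16568056))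 (l 16501200))) (a (b (a (b (l 16556312) (l 16538624)) (b (l 16526728) (l 16475488))) (a (b (l 16479904) (l 16569472)) (b (l 16478512) (l 16482088)))) (b (a (b (l 16523952) (l 16499296)) (b (l 16536544) (l 16523896))) (a (l 16665688) (l 16508656))))))), by decide +kernel⟩

def k1_pm_202_a : ∃ t, chk3 f_pm_202_a t 2 3 1 = true :=
  ⟨(b (a (b (a (l 3) (a (l 3) (b (b (l 148343692503) (l 152101807255)) (a (l 3) (l 173039779095))))) (l 3)) (b (a (b (a (b (a (l 16490744) (l 16491072)) (a (l 16496536) (l 16496664))) (l 16489104)) (a (a (l 16505792) (b (l 16502088) (l 16507920))) (a (l 16627720) (l 16495832)))) (b (a (l 16480152) (l 16481120)) (a (l 16487352) (l 16472104)))) (a (b (a (a (l 16536352) (l 16514416)) (a (l 16508784) (l 16502792))) (b (a (l 16517312) (l 16507656)) (l 157470631047))) (a (b (l 16598696) (l 16576176)) (l 16471880))))) (a (l 3) (b (a (b (a (l 16517880) (l 16506392)) (a (l 3) (l 16503304))) (b (a (l 16486680) (l 16461712)) (a (l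 16480752) (l 16449960)))) (b (a (a (l 3) (l 16500432)) (a (l 16474576) (l 16436280))) (a (l 3) (a (b (l 16472736) (l 16503648)) (l 16573688))))))), by decide +kernel⟩

def k2_pm_202_a : ∃ t, chk3 f_pm_202_a t 3 1 1 = true :=
  ⟨(b (b (a (b (l 1) (a (b (l 1) (l 16690704)) (b (a (l 16639552) (l 16655552)) (l 16642128)))) (b (a (b (l 1) (a (b (l 1) (l 16673736)) (b (b (l 16689288) (l 16688896)) (l 16687416)))) (a (b (b (l 1) (a (l 16693360) (l 16701464))) (b (l 16701280) (l 16700016))) (b (a (l 16709128) (l 16717960)) (l 16715672)))) (a (b (b (l 16678680) (l 16676592)) (l 16674880)) (b (a (l 16699496) (l 16719720)) (l 16713632))))) (a (b (a (b (l 16599032) (l 16589392)) (b (l 16637768) (l 16633024))) (a (b (b (l 16575816) (l 16563776)) (a (l 16537992) (l 16669472))) (b (l 16621096) (b (l 16607896) (l 16596824))))) (b (a (b (l 16675352) (l 16675904)) (b (l 16722072) (l 16727736))) (a (b (l 16667560) (l 16649608)) (l 16711760))))) (a (b (b (a (b (l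 16527704) (a (l 16486312) (l 16515704))) (b (l 16581072) (l 16555320))) (a (b (l 16484392) (l 16474144)) (b (l 16535032) (l 16526208)))) (b (a (l 16471536) (b (l 16529704) (l 16538920))) (b (a (a (l 16460752) (l 16496840)) (l 16551992)) (a (a (l 16508912) (l 16484792)) (l 16544672))))) (b (b (a (b (l 16624608) (l 16602520)) (b (l 16674936) (l 16759776))) (a (b (l 16586280) (l 16585232)) (b (l 16649176) (l 16665152)))) (b (a (l 16604680) (l 16699688)) (b (a (l 16634624) (l 16736472)) (a (l 16632432) (l 16737944))))))), by decide +kernel⟩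

theorem s3_pm_202_a : ∃ t, chk3 f_pm_202_a t 2 1 1 = true := ex3_b k0_pm_202_a k1_pm_202_a

theorem s4_pm_202_a : ∃ t, chk3 f_pm_202_a t 1 1 1 = true := ex3_a s3_pm_202_a k2_pm_202_a

theorem c_pm_202_a : CertB 0 536870912 1073741824 536870912 536870912 50465866 3 eng mog cd2q2a cd4q2 pd0 false true false .pp 2 0 2
    ndB2q2a ndB4q2 pcB0 Cut.none Ext.none :=
  certB0 (fam := false) (s1 := true) (s2 := false) (a := 2) (b := 0) (c := 2) (cn := .pp) (n1 := ndB2q2a) (n2 := ndB4q2) (pc := pcB0) (cut := Cut.none) (xt := Ext.none) (P1 := 0) (W1 := 536870912) (P2 := 1073741824) (W2 := 536870912) (P3 := 536870912) (W3 := 50465866) (N0 := 3) (En := eng) (mo := mog) (C1 := cd2q2a) (C2 := cd4q2) (C3 := pd0)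
    rfl s4_pm_202_a

noncomputable def f_pm_202_b : ℕ → ℕ → ℕ → ℕ → Bool := onCell 1239849684 370763052 1073741824 536870912 536870912 50465866
    (rowB 3 eng mog cd2q2b cd4q2 pd0 0 false true false .pp 2 0 2 (qsf 1239849684 370763052 1073741824 536870912 0) ndB2q2b ndB4q2 pcB0 Cut.none Ext.none)

def k0_pm_202_b : ∃ t, chk3 f_pm_202_b t 1 1 1 = true :=
  ⟨(b (a (b (l 1) (l 3)) (l 1)) (l 3)), by decide +kernel⟩

theorem c_pm_202_b : CertB 1239849684 370763052 1073741824 536870912 536870912 50465866 3 eng mog cd2q2b cd4q2 pd0 false true false .pp 2 0 2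
    ndB2q2b ndB4q2 pcB0 Cut.none Ext.none :=
  certB0 (fam := false) (s1 := true) (s2 := false) (a := 2) (b := 0) (c := 2) (cn := .pp) (n1 := ndB2q2b) (n2 := ndB4q2) (pc := pcB0) (cut := Cut.none) (xt := Ext.none) (P1 := 1239849684) (W1 := 370763052) (P2 := 1073741824) (W2 := 536870912) (P3 := 536870912) (W3 := 50465866) (N0 := 3) (En := eng) (mo := mog) (C1 := cd2q2b) (C2 := cd4q2) (C3 := pd0)
    rfl k0_pm_202_b

noncomputable def f_pm_203_a : ℕ → ℕ → ℕ → ℕ → Bool := onCell 0 536870912 0 1230186008 536870912 50465866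
    (rowB 3 eng mog cd2q2a cd4q3 pd0 0 false true false .up 2 0 3 (qsf 0 536870912 0 1230186008 0) ndB2q2a ndB4q3 pcB0 Cut.none Ext.none)

def k0_pm_203_a : ∃ t, chk3 f_pm_203_a t 1 1 1 = true :=
  ⟨(b (l 2) (b (l 2) (b (a (l 3) (l 2)) (a (a (l 3) (a (l 3) (b (a (l 3) (b (l 3) (l 148343867463))) (b (b (l 153712433079) (l 176797682295)) (a (l 192903947047) (b (l 16429416) (l 16461264))))))) (b (a (a (a (b (l 16624544) (l 16550880)) (b (l 16631432) (l 16563432))) (a (b (l 2) (l 16579128)) (l 16612080))) (a (l 16685824) (l 2))) (a (b (a (a (l 16485488) (l 16507976)) (b (l 16554632) (l 16551920))) (a (a (l 16488224) (l 16526544)) (l 16590392))) (b (a (l 16645416) (l 16760976)) (a (l 16682944) (l 16805720))))))))), by decide +kernel⟩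

theorem c_pm_203_a : CertB 0 536870912 0 1230186008 536870912 50465866 3 eng mog cd2q2a cd4q3 pd0 false true false .up 2 0 3
    ndB2q2a ndB4q3 pcB0 Cut.none Ext.none :=
  certB0 (fam := false) (s1 := true) (s2 := false) (a := 2) (b := 0) (c := 3) (cn := .up) (n1 := ndB2q2a) (n2 := ndB4q3) (pc := pcB0) (cut := Cut.none) (xt := Ext.none) (P1 := 0) (W1 := 536870912) (P2 := 0) (W2 := 1230186008) (P3 := 536870912) (W3 := 50465866) (N0 := 3) (En := eng) (mo := mog) (C1 := cd2q2a) (C2 := cd4q3) (C3 := pd0)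
    rfl k0_pm_203_a

noncomputable def f_pm_203_b : ℕ → ℕ → ℕ → ℕ → Bool := onCell 1239849684 370763052 0 1230186008 536870912 50465866
    (rowB 3 eng mog cd2q2b cd4q3 pd0 0 false true false .up 2 0 3 (qsf 1239849684 370763052 0 1230186008 0) ndB2q2b ndB4q3 pcB0 Cut.none Ext.none)

def k0_pm_203_b : ∃ t, chk3 f_pm_203_b t 1 1 1 = true :=
  ⟨(b (l 3) (b (l 3) (l 3))), by decide +kernel⟩

theorem c_pm_203_b : CertB 1239849684 370763052 0 1230186008 536870912 50465866 3 eng mog cd2q2b cd4q3 pd0 false true false .up 2 0 3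
    ndB2q2b ndB4q3 pcB0 Cut.none Ext.none :=
  certB0 (fam := false) (s1 := true) (s2 := false) (a := 2) (b := 0) (c := 3) (cn := .up) (n1 := ndB2q2b) (n2 := ndB4q3) (pc := pcB0) (cut := Cut.none) (xt := Ext.none) (P1 := 1239849684) (W1 := 370763052) (P2 := 0) (W2 := 1230186008) (P3 := 536870912) (W3 := 50465866) (N0 := 3) (En := eng) (mo := mog) (C1 := cd2q2b) (C2 := cd4q3) (C3 := pd0)
    rfl k0_pm_203_b

noncomputable def cut_pm_213_a : Cut := Cut.of [[⟨0, 1, 0, 67108864⟩, ⟨1, 1, 0, 67108864⟩, ⟨2, 2, 0, 16777216⟩]]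

noncomputable def f_pm_213_a : ℕ → ℕ → ℕ → ℕ → Bool := onCell 0 536870912 0 1230186008 536870912 50465866
    (rowB 3 eng mog cd2q2a cd4q3 pd1 0 false true false .pnn 2 1 3 (qsf 0 536870912 0 1230186008 1) ndB2q2a ndB4q3 pcB1 cut_pm_213_a Ext.none)

def k0_pm_213_a : ∃ t, chk3 f_pm_213_a t 1 2 1 = true :=
  ⟨(a (l 3) (b (a (l 3) (a (b (l 3) (l 3)) (b (l 6) (a (b (a (l 3) (l 6)) (a (l 342691445767) (l 208473762807))) (b (a (l 6) (l 6)) (l 16839816)))))) (a (b (l 3) (l 3)) (b (a (a (l 3) (b (l 322827235335) (b (l 242833478919) (l 228337975655)))) (a (b (a (l 16815520) (l 16807760)) (l 16820808)) (b (l 16811400) (l 16828000)))) (a (b (a (l 307794893959) (a (l 196662703511) (l 16785592))) (a (b (l 164987308679) (l 16824536)) (b (l 16834288) (l 16841936)))) (a (b (l 16836848) (l 16855112)) (b (l 16847296) (l 16870008)))))))), by decide +kernel⟩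

def k1_pm_213_a : ∃ t, chk3 f_pm_213_a t 1 3 1 = true :=
  ⟨(b (a (l 3) (b (a (a (l 3) (a (l 3) (b (l 200420890247) (b (l 16831056) (l 16839008))))) (a (b (a (b (l 16831224) (l 16838896)) (l 16771376)) (a (l 16938656) (l 16835856))) (b (a (l 16876264) (l 16896152)) (a (l 16902576) (l 16928112))))) (a (b (a (l 3) (a (b (l 16827672) (l 16827752)) (b (l 16846384) (l 16852488)))) (a (a (l 3) (l 145660034775)) (a (b (l 16824840) (l 16819280)) (b (l 16855824) (l 16853696))))) (a (b (a (l 16855448) (l 16884408)) (a (l 16893688) (l 16930120))) (b (a (l 16933280) (l 16964480)) (l 16987512)))))) (b (a (l 3) (a (b (a (b (l 147270647335) (a (l 3) (l 16768320))) (b (l 16808064) (l 16794552))) (a (b (l 127406286903) (a (l 16682400) (l 16703120))) (b (l 16750560) (l 16732320)))) (a (b (b (l 16977536) (l 16821000)) (b (l 16885288) (l 16850752))) (b (a (l 16994192) (l 17044928)) (l 17004552))))) (a (a (l 1) (b (b (l 3) (l 1)) (l 1))) (b (a (a (a (b (l 16629264)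 (l 1)) (b (l 16652920) (l 16589880))) (a (b (l 16683880) (l 16620568)) (l 16688216))) (a (l 16766912) (l 16912984))) (a (l 1) (b (a (l 16687656) (l 16836264)) (a (l 1) (l 16832800)))))))), by decide +kernel⟩

theorem s2_pm_213_a : ∃ t, chk3 f_pm_213_a t 1 1 1 = true := ex3_b k0_pm_213_a k1_pm_213_a

theorem c_pm_213_a : CertB 0 536870912 0 1230186008 536870912 50465866 3 eng mog cd2q2a cd4q3 pd1 false true false .pnn 2 1 3
    ndB2q2a ndB4q3 pcB1 cut_pm_213_a Ext.none :=
  certB0 (fam := false) (s1 := true) (s2 := false) (a := 2) (b := 1) (c := 3) (cn := .pnn) (n1 := ndB2q2a) (n2 := ndB4q3) (pc := pcB1) (cut := cut_pm_213_a) (xt := Ext.none) (P1 := 0) (W1 := 536870912) (P2 := 0) (W2 := 1230186008) (P3 := 536870912) (W3 := 50465866) (N0 := 3) (En := eng) (mo := mog) (C1 := cd2q2a) (C2 := cd4q3) (C3 := pd1)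
    rfl s2_pm_213_a

noncomputable def cut_pm_213_b : Cut := Cut.of [[⟨0, 1, 0, 67108864⟩, ⟨1, 1, 0, 67108864⟩, ⟨2, 2, 0, 16777216⟩]]

noncomputable def f_pm_213_b : ℕ → ℕ → ℕ → ℕ → Bool := onCell 1239849684 370763052 0 1230186008 536870912 50465866
    (rowB 3 eng mog cd2q2b cd4q3 pd1 0 false true false .pnn 2 1 3 (qsf 1239849684 370763052 0 1230186008 1) ndB2q2b ndB4q3 pcB1 cut_pm_213_b Ext.none)

def k0_pm_213_b : ∃ t, chk3 f_pm_213_b t 1 1 1 = true :=
  ⟨(b (l 3) (b (l 3) (l 3))), by decide +kernel⟩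

theorem c_pm_213_b : CertB 1239849684 370763052 0 1230186008 536870912 50465866 3 eng mog cd2q2b cd4q3 pd1 false true false .pnn 2 1 3
    ndB2q2b ndB4q3 pcB1 cut_pm_213_b Ext.none :=
  certB0 (fam := false) (s1 := true) (s2 := false) (a := 2) (b := 1) (c := 3) (cn := .pnn) (n1 := ndB2q2b) (n2 := ndB4q3) (pc := pcB1) (cut := cut_pm_213_b) (xt := Ext.none) (P1 := 1239849684) (W1 := 370763052) (P2 := 0) (W2 := 1230186008) (P3 := 536870912) (W3 := 50465866) (N0 := 3) (En := eng) (mo := mog) (C1 := cd2q2b) (C2 := cd4q3) (C3 := pd1)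
    rfl k0_pm_213_b

noncomputable def f_pm_303 : ℕ → ℕ → ℕ → ℕ → Bool := onCell 1610612736 536870912 0 1230186008 536870912 50465866
    (rowB 3 eng mog cd2q3 cd4q3 pd0 0 false true false .npn 3 0 3 (qsf 1610612736 536870912 0 1230186008 0) ndB2q3 ndB4q3 pcB0 Cut.none Ext.none)

def k0_pm_303 : ∃ t, chk3 f_pm_303 t 1 1 1 = true :=
  ⟨(b (l 3) (l 3)), by decide +kernel⟩

theorem c_pm_303 : CertB 1610612736 536870912 0 1230186008 536870912 50465866 3 eng mog cd2q3 cd4q3 pd0 false true false .npn 3 0 3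
    ndB2q3 ndB4q3 pcB0 Cut.none Ext.none :=
  certB0 (fam := false) (s1 := true) (s2 := false) (a := 3) (b := 0) (c := 3) (cn := .npn) (n1 := ndB2q3) (n2 := ndB4q3) (pc := pcB0) (cut := Cut.none) (xt := Ext.none) (P1 := 1610612736) (W1 := 536870912) (P2 := 0) (W2 := 1230186008) (P3 := 536870912) (W3 := 50465866) (N0 := 3) (En := eng) (mo := mog) (C1 := cd2q3) (C2 := cd4q3) (C3 := pd0)
    rfl k0_pm_303

noncomputable def f_pm_313 : ℕ → ℕ → ℕ → ℕ → Bool := onCell 1610612736 536870912 0 1230186008 536870912 50465866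
    (rowB 3 eng mog cd2q3 cd4q3 pd1 0 false true false .dn 3 1 3 (qsf 1610612736 536870912 0 1230186008 1) ndB2q3 ndB4q3 pcB1 Cut.none Ext.none)

def k0_pm_313 : ∃ t, chk3 f_pm_313 t 1 1 1 = true :=
  ⟨(b (l 3) (l 1)), by decide +kernel⟩

theorem c_pm_313 : CertB 1610612736 536870912 0 1230186008 536870912 50465866 3 eng mog cd2q3 cd4q3 pd1 false true false .dn 3 1 3
    ndB2q3 ndB4q3 pcB1 Cut.none Ext.none :=
  certB0 (fam := false) (s1 := true) (s2 := false) (a := 3) (b := 1) (c := 3) (cn := .dn) (n1 := ndB2q3) (n2 := ndB4q3) (pc := pcB1) (cut := Cut.none) (xt := Ext.none) (P1 := 1610612736) (W1 := 536870912) (P2 := 0) (W2 := 1230186008) (P3 := 536870912) (W3 := 50465866) (N0 := 3) (En := eng) (mo := mog) (C1 := cd2q3) (C2 := cd4q3) (C3 := pd1)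
    rfl k0_pm_313

noncomputable def f_mm_001 : ℕ → ℕ → ℕ → ℕ → Bool := onCell 0 536870912 0 536870912 536870912 50465866
    (rowB 3 eng mog cd2q0 cd4q1 pd0 1 false false false .up 0 0 1 (qsf 0 536870912 536870912 536870912 0) ndB2q0 ndB4q1 pcB0 Cut.none Ext.none)

def k0_mm_001 : ∃ t, chk3 f_mm_001 t 1 1 1 = true :=
  ⟨(l 3), by decide +kernel⟩

theorem c_mm_001 : CertB 0 536870912 536870912 536870912 536870912 50465866 3 eng mog cd2q0 cd4q1 pd0 false false false .up 0 0 1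
    ndB2q0 ndB4q1 pcB0 Cut.none Ext.none :=
  certB1 (fam := false) (s1 := false) (s2 := false) (a := 0) (b := 0) (c := 1) (cn := .up) (n1 := ndB2q0) (n2 := ndB4q1) (pc := pcB0) (cut := Cut.none) (xt := Ext.none) (P1 := 0) (W1 := 536870912) (P2 := 536870912) (W2 := 536870912) (P3 := 536870912) (W3 := 50465866) (N0 := 3) (En := eng) (mo := mog) (C1 := cd2q0) (C2 := cd4q1) (C3 := pd0)
    rfl (fun _ => rfl) k0_mm_001

noncomputable def f_mm_011 : ℕ → ℕ → ℕ → ℕ → Bool := onCell 0 536870912 536870912 536870912 536870912 50465866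
    (rowB 3 eng mog cd2q0 cd4q1 pd1 1 false false false .pnn 0 1 1 (qsf 0 536870912 536870912 536870912 1) ndB2q0 ndB4q1 pcB1 Cut.none Ext.none)

def k0_mm_011 : ∃ t, chk3 f_mm_011 t 1 1 1 = true :=
  ⟨(l 5), by decide +kernel⟩

theorem c_mm_011 : CertB 0 536870912 536870912 536870912 536870912 50465866 3 eng mog cd2q0 cd4q1 pd1 false false false .pnn 0 1 1
    ndB2q0 ndB4q1 pcB1 Cut.none Ext.none :=
  certB1 (fam := false) (s1 := false) (s2 := false) (a := 0) (b := 1) (c := 1) (cn := .pnn) (n1 := ndB2q0) (n2 := ndB4q1) (pc := pcB1) (cut := Cut.none) (xt := Ext.none) (P1 := 0) (W1 := 536870912) (P2 := 536870912) (W2 := 536870912) (P3 := 536870912) (W3 := 50465866) (N0 := 3) (En := eng) (mo := mog) (C1 := cd2q0) (C2 := cd4q1) (C3 := pd1)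
    rfl (fun _ => rfl) k0_mm_011

noncomputable def f_mm_012 : ℕ → ℕ → ℕ → ℕ → Bool := onCell 0 536870912 1073741824 536870912 536870912 50465866
    (rowB 3 eng mog cd2q0 cd4q2 pd1 0 false false false .pnp 0 1 2 (qsf 0 536870912 1073741824 536870912 1) ndB2q0 ndB4q2 pcB1 Cut.none Ext.none)

def k0_mm_012 : ∃ t, chk3 f_mm_012 t 1 1 1 = true :=
  ⟨(l 5), by decide +kernel⟩

theorem c_mm_012 : CertB 0 536870912 1073741824 536870912 536870912 50465866 3 eng mog cd2q0 cd4q2 pd1 false false false .pnp 0 1 2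
    ndB2q0 ndB4q2 pcB1 Cut.none Ext.none :=
  certB0 (fam := false) (s1 := false) (s2 := false) (a := 0) (b := 1) (c := 2) (cn := .pnp) (n1 := ndB2q0) (n2 := ndB4q2) (pc := pcB1) (cut := Cut.none) (xt := Ext.none) (P1 := 0) (W1 := 536870912) (P2 := 1073741824) (W2 := 536870912) (P3 := 536870912) (W3 := 50465866) (N0 := 3) (En := eng) (mo := mog) (C1 := cd2q0) (C2 := cd4q2) (C3 := pd1)
    rfl k0_mm_012

noncomputable def f_mm_022 : ℕ → ℕ → ℕ → ℕ → Bool := onCell 0 536870912 1073741824 536870912 536870912 50465866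
    (rowB 3 eng mog cd2q0 cd4q2 pd2 0 false false false .pp 0 2 2 (qsf 0 536870912 1073741824 536870912 2) ndB2q0 ndB4q2 pcB2 Cut.none Ext.none)

def k0_mm_022 : ∃ t, chk3 f_mm_022 t 1 1 1 = true :=
  ⟨(l 5), by decide +kernel⟩

theorem c_mm_022 : CertB 0 536870912 1073741824 536870912 536870912 50465866 3 eng mog cd2q0 cd4q2 pd2 false false false .pp 0 2 2
    ndB2q0 ndB4q2 pcB2 Cut.none Ext.none :=
  certB0 (fam := false) (s1 := false) (s2 := false) (a := 0) (b := 2) (c := 2) (cn := .pp) (n1 := ndB2q0) (n2 := ndB4q2) (pc := pcB2) (cut := Cut.none) (xt := Ext.none) (P1 := 0) (W1 := 536870912) (P2 := 1073741824) (W2 := 536870912) (P3 := 536870912) (W3 := 50465866) (N0 := 3) (En := eng) (mo := mog) (C1 := cd2q0) (C2 := cd4q2) (C3 := pd2)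
    rfl k0_mm_022

noncomputable def f_mm_023 : ℕ → ℕ → ℕ → ℕ → Bool := onCell 0 536870912 0 1230186008 536870912 50465866
    (rowB 3 eng mog cd2q0 cd4q3 pd2 0 false false false .up 0 2 3 (qsf 0 536870912 0 1230186008 2) ndB2q0 ndB4q3 pcB2 Cut.none Ext.none)

def k0_mm_023 : ∃ t, chk3 f_mm_023 t 1 1 1 = true :=
  ⟨(l 5), by decide +kernel⟩

theorem c_mm_023 : CertB 0 536870912 0 1230186008 536870912 50465866 3 eng mog cd2q0 cd4q3 pd2 false false false .up 0 2 3
    ndB2q0 ndB4q3 pcB2 Cut.none Ext.none :=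
  certB0 (fam := false) (s1 := false) (s2 := false) (a := 0) (b := 2) (c := 3) (cn := .up) (n1 := ndB2q0) (n2 := ndB4q3) (pc := pcB2) (cut := Cut.none) (xt := Ext.none) (P1 := 0) (W1 := 536870912) (P2 := 0) (W2 := 1230186008) (P3 := 536870912) (W3 := 50465866) (N0 := 3) (En := eng) (mo := mog) (C1 := cd2q0) (C2 := cd4q3) (C3 := pd2)
    rfl k0_mm_023

noncomputable def f_mm_033 : ℕ → ℕ → ℕ → ℕ → Bool := onCell 0 536870912 0 1230186008 536870912 50465866
    (rowB 3 eng mog cd2q0 cd4q3 pd3 0 false false false .pnn 0 3 3 (qsf 0 536870912 0 1230186008 3) ndB2q0 ndB4q3 pcB3 Cut.none Ext.none)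

def k0_mm_033 : ∃ t, chk3 f_mm_033 t 1 1 1 = true :=
  ⟨(l 5), by decide +kernel⟩

theorem c_mm_033 : CertB 0 536870912 0 1230186008 536870912 50465866 3 eng mog cd2q0 cd4q3 pd3 false false false .pnn 0 3 3
    ndB2q0 ndB4q3 pcB3 Cut.none Ext.none :=
  certB0 (fam := false) (s1 := false) (s2 := false) (a := 0) (b := 3) (c := 3) (cn := .pnn) (n1 := ndB2q0) (n2 := ndB4q3) (pc := pcB3) (cut := Cut.none) (xt := Ext.none) (P1 := 0) (W1 := 536870912) (P2 := 0) (W2 := 1230186008) (P3 := 536870912) (W3 := 50465866) (N0 := 3) (En := eng) (mo := mog) (C1 := cd2q0) (C2 := cd4q3) (C3 := pd3)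
    rfl k0_mm_033

noncomputable def f_mm_101 : ℕ → ℕ → ℕ → ℕ → Bool := onCell 536870912 536870912 536870912 536870912 536870912 50465866
    (rowB 3 eng mog cd2q1 cd4q1 pd0 0 false false false .npn 1 0 1 (qsf 536870912 536870912 536870912 536870912 0) ndB2q1 ndB4q1 pcB0 Cut.none Ext.none)

def k0_mm_101 : ∃ t, chk3 f_mm_101 t 1 1 1 = true :=
  ⟨(l 3), by decide +kernel⟩

theorem c_mm_101 : CertB 536870912 536870912 536870912 536870912 536870912 50465866 3 eng mog cd2q1 cd4q1 pd0 false false false .npn 1 0 1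
    ndB2q1 ndB4q1 pcB0 Cut.none Ext.none :=
  certB0 (fam := false) (s1 := false) (s2 := false) (a := 1) (b := 0) (c := 1) (cn := .npn) (n1 := ndB2q1) (n2 := ndB4q1) (pc := pcB0) (cut := Cut.none) (xt := Ext.none) (P1 := 536870912) (W1 := 536870912) (P2 := 536870912) (W2 := 536870912) (P3 := 536870912) (W3 := 50465866) (N0 := 3) (En := eng) (mo := mog) (C1 := cd2q1) (C2 := cd4q1) (C3 := pd0)
    rfl k0_mm_101

noncomputable def f_mm_102 : ℕ → ℕ → ℕ → ℕ → Bool := onCell 536870912 536870912 0 536870912 536870912 50465866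
    (rowB 3 eng mog cd2q1 cd4q2 pd0 1 false false false .npp 1 0 2 (qsf 536870912 536870912 1073741824 536870912 0) ndB2q1 ndB4q2 pcB0 Cut.none Ext.none)

def k0_mm_102 : ∃ t, chk3 f_mm_102 t 1 1 1 = true :=
  ⟨(l 3), by decide +kernel⟩

theorem c_mm_102 : CertB 536870912 536870912 1073741824 536870912 536870912 50465866 3 eng mog cd2q1 cd4q2 pd0 false false false .npp 1 0 2
    ndB2q1 ndB4q2 pcB0 Cut.none Ext.none :=
  certB1 (fam := false) (s1 := false) (s2 := false) (a := 1) (b := 0) (c := 2) (cn := .npp) (n1 := ndB2q1) (n2 := ndB4q2) (pc := pcB0) (cut := Cut.none) (xt := Ext.none) (P1 := 536870912) (W1 := 536870912) (P2 := 1073741824) (W2 := 536870912) (P3 := 536870912) (W3 := 50465866) (N0 := 3) (En := eng) (mo := mog) (C1 := cd2q1) (C2 := cd4q2) (C3 := pd0)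
    rfl (fun _ => rfl) k0_mm_102

noncomputable def f_mm_112 : ℕ → ℕ → ℕ → ℕ → Bool := onCell 536870912 536870912 536870912 536870912 536870912 50465866
    (rowB 3 eng mog cd2q1 cd4q2 pd1 1 false false false .dn 1 1 2 (qsf 536870912 536870912 1073741824 536870912 1) ndB2q1 ndB4q2 pcB1 Cut.none Ext.none)

def k0_mm_112 : ∃ t, chk3 f_mm_112 t 1 1 1 = true :=
  ⟨(l 5), by decide +kernel⟩

theorem c_mm_112 : CertB 536870912 536870912 1073741824 536870912 536870912 50465866 3 eng mog cd2q1 cd4q2 pd1 false false false .dn 1 1 2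
    ndB2q1 ndB4q2 pcB1 Cut.none Ext.none :=
  certB1 (fam := false) (s1 := false) (s2 := false) (a := 1) (b := 1) (c := 2) (cn := .dn) (n1 := ndB2q1) (n2 := ndB4q2) (pc := pcB1) (cut := Cut.none) (xt := Ext.none) (P1 := 536870912) (W1 := 536870912) (P2 := 1073741824) (W2 := 536870912) (P3 := 536870912) (W3 := 50465866) (N0 := 3) (En := eng) (mo := mog) (C1 := cd2q1) (C2 := cd4q2) (C3 := pd1)
    rfl (fun _ => rfl) k0_mm_112

noncomputable def f_mm_113 : ℕ → ℕ → ℕ → ℕ → Bool := onCell 536870912 536870912 0 1230186008 536870912 50465866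
    (rowB 3 eng mog cd2q1 cd4q3 pd1 0 false false false .nn 1 1 3 (qsf 536870912 536870912 0 1230186008 1) ndB2q1 ndB4q3 pcB1 Cut.none Ext.none)

def k0_mm_113 : ∃ t, chk3 f_mm_113 t 1 1 1 = true :=
  ⟨(l 5), by decide +kernel⟩

theorem c_mm_113 : CertB 536870912 536870912 0 1230186008 536870912 50465866 3 eng mog cd2q1 cd4q3 pd1 false false false .nn 1 1 3
    ndB2q1 ndB4q3 pcB1 Cut.none Ext.none :=
  certB0 (fam := false) (s1 := false) (s2 := false) (a := 1) (b := 1) (c := 3) (cn := .nn) (n1 := ndB2q1) (n2 := ndB4q3) (pc := pcB1) (cut := Cut.none) (xt := Ext.none) (P1 := 536870912) (W1 := 536870912) (P2 := 0) (W2 := 1230186008) (P3 := 536870912) (W3 := 50465866) (N0 := 3) (En := eng) (mo := mog) (C1 := cd2q1) (C2 := cd4q3) (C3 := pd1)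
    rfl k0_mm_113

noncomputable def f_mm_123 : ℕ → ℕ → ℕ → ℕ → Bool := onCell 536870912 536870912 0 1230186008 536870912 50465866
    (rowB 3 eng mog cd2q1 cd4q3 pd2 0 false false false .npn 1 2 3 (qsf 536870912 536870912 0 1230186008 2) ndB2q1 ndB4q3 pcB2 Cut.none Ext.none)

def k0_mm_123 : ∃ t, chk3 f_mm_123 t 1 1 1 = true :=
  ⟨(l 5), by decide +kernel⟩

theorem c_mm_123 : CertB 536870912 536870912 0 1230186008 536870912 50465866 3 eng mog cd2q1 cd4q3 pd2 false false false .npn 1 2 3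
    ndB2q1 ndB4q3 pcB2 Cut.none Ext.none :=
  certB0 (fam := false) (s1 := false) (s2 := false) (a := 1) (b := 2) (c := 3) (cn := .npn) (n1 := ndB2q1) (n2 := ndB4q3) (pc := pcB2) (cut := Cut.none) (xt := Ext.none) (P1 := 536870912) (W1 := 536870912) (P2 := 0) (W2 := 1230186008) (P3 := 536870912) (W3 := 50465866) (N0 := 3) (En := eng) (mo := mog) (C1 := cd2q1) (C2 := cd4q3) (C3 := pd2)
    rfl k0_mm_123

noncomputable def f_mm_133 : ℕ → ℕ → ℕ → ℕ → Bool := onCell 536870912 536870912 0 1230186008 536870912 50465866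
    (rowB 3 eng mog cd2q1 cd4q3 pd3 0 false false false .dn 1 3 3 (qsf 536870912 536870912 0 1230186008 3) ndB2q1 ndB4q3 pcB3 Cut.none Ext.none)

def k0_mm_133 : ∃ t, chk3 f_mm_133 t 1 1 1 = true :=
  ⟨(l 5), by decide +kernel⟩

theorem c_mm_133 : CertB 536870912 536870912 0 1230186008 536870912 50465866 3 eng mog cd2q1 cd4q3 pd3 false false false .dn 1 3 3
    ndB2q1 ndB4q3 pcB3 Cut.none Ext.none :=
  certB0 (fam := false) (s1 := false) (s2 := false) (a := 1) (b := 3) (c := 3) (cn := .dn) (n1 := ndB2q1) (n2 := ndB4q3) (pc := pcB3) (cut := Cut.none) (xt := Ext.none) (P1 := 536870912) (W1 := 536870912) (P2 := 0) (W2 := 1230186008) (P3 := 536870912) (W3 := 50465866) (N0 := 3) (En := eng) (mo := mog) (C1 := cd2q1) (C2 := cd4q3) (C3 := pd3)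
    rfl k0_mm_133

noncomputable def f_mm_202_a : ℕ → ℕ → ℕ → ℕ → Bool := onCell 0 536870912 1073741824 536870912 536870912 50465866
    (rowB 3 eng mog cd2q2a cd4q2 pd0 0 false false false .pp 2 0 2 (qsf 0 536870912 1073741824 536870912 0) ndB2q2a ndB4q2 pcB0 Cut.none Ext.none)

def k0_mm_202_a : ∃ t, chk3 f_mm_202_a t 1 1 1 = true :=
  ⟨(l 3), by decide +kernel⟩

theorem c_mm_202_a : CertB 0 536870912 1073741824 536870912 536870912 50465866 3 eng mog cd2q2a cd4q2 pd0 false false false .pp 2 0 2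
    ndB2q2a ndB4q2 pcB0 Cut.none Ext.none :=
  certB0 (fam := false) (s1 := false) (s2 := false) (a := 2) (b := 0) (c := 2) (cn := .pp) (n1 := ndB2q2a) (n2 := ndB4q2) (pc := pcB0) (cut := Cut.none) (xt := Ext.none) (P1 := 0) (W1 := 536870912) (P2 := 1073741824) (W2 := 536870912) (P3 := 536870912) (W3 := 50465866) (N0 := 3) (En := eng) (mo := mog) (C1 := cd2q2a) (C2 := cd4q2) (C3 := pd0)
    rfl k0_mm_202_a

noncomputable def f_mm_202_b : ℕ → ℕ → ℕ → ℕ → Bool := onCell 1239849684 370763052 1073741824 536870912 536870912 50465866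
    (rowB 3 eng mog cd2q2b cd4q2 pd0 0 false false false .pp 2 0 2 (qsf 1239849684 370763052 1073741824 536870912 0) ndB2q2b ndB4q2 pcB0 Cut.none Ext.none)

def k0_mm_202_b : ∃ t, chk3 f_mm_202_b t 1 1 1 = true :=
  ⟨(l 3), by decide +kernel⟩

theorem c_mm_202_b : CertB 1239849684 370763052 1073741824 536870912 536870912 50465866 3 eng mog cd2q2b cd4q2 pd0 false false false .pp 2 0 2
    ndB2q2b ndB4q2 pcB0 Cut.none Ext.none :=
  certB0 (fam := false) (s1 := false) (s2 := false) (a := 2) (b := 0) (c := 2) (cn := .pp) (n1 := ndB2q2b) (n2 := ndB4q2) (pc := pcB0) (cut := Cut.none) (xt := Ext.none) (P1 := 1239849684) (W1 := 370763052) (P2 := 1073741824) (W2 := 536870912) (P3 := 536870912) (W3 := 50465866) (N0 := 3) (En := eng) (mo := mog) (C1 := cd2q2b) (C2 := cd4q2) (C3 := pd0)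
    rfl k0_mm_202_b

noncomputable def f_mm_203_a : ℕ → ℕ → ℕ → ℕ → Bool := onCell 0 536870912 0 1230186008 536870912 50465866
    (rowB 3 eng mog cd2q2a cd4q3 pd0 0 false false false .up 2 0 3 (qsf 0 536870912 0 1230186008 0) ndB2q2a ndB4q3 pcB0 Cut.none Ext.none)

def k0_mm_203_a : ∃ t, chk3 f_mm_203_a t 1 1 1 = true :=
  ⟨(b (l 2) (l 3)), by decide +kernel⟩

theorem c_mm_203_a : CertB 0 536870912 0 1230186008 536870912 50465866 3 eng mog cd2q2a cd4q3 pd0 false false false .up 2 0 3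
    ndB2q2a ndB4q3 pcB0 Cut.none Ext.none :=
  certB0 (fam := false) (s1 := false) (s2 := false) (a := 2) (b := 0) (c := 3) (cn := .up) (n1 := ndB2q2a) (n2 := ndB4q3) (pc := pcB0) (cut := Cut.none) (xt := Ext.none) (P1 := 0) (W1 := 536870912) (P2 := 0) (W2 := 1230186008) (P3 := 536870912) (W3 := 50465866) (N0 := 3) (En := eng) (mo := mog) (C1 := cd2q2a) (C2 := cd4q3) (C3 := pd0)
    rfl k0_mm_203_a

noncomputable def f_mm_203_b : ℕ → ℕ → ℕ → ℕ → Bool := onCell 1239849684 370763052 0 1230186008 536870912 50465866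
    (rowB 3 eng mog cd2q2b cd4q3 pd0 0 false false false .up 2 0 3 (qsf 1239849684 370763052 0 1230186008 0) ndB2q2b ndB4q3 pcB0 Cut.none Ext.none)

def k0_mm_203_b : ∃ t, chk3 f_mm_203_b t 1 1 1 = true :=
  ⟨(b (l 3) (l 3)), by decide +kernel⟩

theorem c_mm_203_b : CertB 1239849684 370763052 0 1230186008 536870912 50465866 3 eng mog cd2q2b cd4q3 pd0 false false false .up 2 0 3
    ndB2q2b ndB4q3 pcB0 Cut.none Ext.none :=
  certB0 (fam := false) (s1 := false) (s2 := false) (a := 2) (b := 0) (c := 3) (cn := .up) (n1 := ndB2q2b) (n2 := ndB4q3) (pc := pcB0) (cut := Cut.none) (xt := Ext.none) (P1 := 1239849684) (W1 := 370763052) (P2 := 0) (W2 := 1230186008) (P3 := 536870912) (W3 := 50465866) (N0 := 3) (En := eng) (mo := mog) (C1 := cd2q2b) (C2 := cd4q3) (C3 := pd0)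
    rfl k0_mm_203_b

noncomputable def f_mm_213_a : ℕ → ℕ → ℕ → ℕ → Bool := onCell 0 536870912 0 1230186008 536870912 50465866
    (rowB 3 eng mog cd2q2a cd4q3 pd1 0 false false false .pnn 2 1 3 (qsf 0 536870912 0 1230186008 1) ndB2q2a ndB4q3 pcB1 Cut.none Ext.none)

def k0_mm_213_a : ∃ t, chk3 f_mm_213_a t 1 1 1 = true :=
  ⟨(b (l 5) (l 3)), by decide +kernel⟩

theorem c_mm_213_a : CertB 0 536870912 0 1230186008 536870912 50465866 3 eng mog cd2q2a cd4q3 pd1 false false false .pnn 2 1 3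
    ndB2q2a ndB4q3 pcB1 Cut.none Ext.none :=
  certB0 (fam := false) (s1 := false) (s2 := false) (a := 2) (b := 1) (c := 3) (cn := .pnn) (n1 := ndB2q2a) (n2 := ndB4q3) (pc := pcB1) (cut := Cut.none) (xt := Ext.none) (P1 := 0) (W1 := 536870912) (P2 := 0) (W2 := 1230186008) (P3 := 536870912) (W3 := 50465866) (N0 := 3) (En := eng) (mo := mog) (C1 := cd2q2a) (C2 := cd4q3) (C3 := pd1)
    rfl k0_mm_213_a

noncomputable def f_mm_213_b : ℕ → ℕ → ℕ → ℕ → Bool := onCell 1239849684 370763052 0 1230186008 536870912 50465866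
    (rowB 3 eng mog cd2q2b cd4q3 pd1 0 false false false .pnn 2 1 3 (qsf 1239849684 370763052 0 1230186008 1) ndB2q2b ndB4q3 pcB1 Cut.none Ext.none)

def k0_mm_213_b : ∃ t, chk3 f_mm_213_b t 1 1 1 = true :=
  ⟨(b (l 3) (l 3)), by decide +kernel⟩

theorem c_mm_213_b : CertB 1239849684 370763052 0 1230186008 536870912 50465866 3 eng mog cd2q2b cd4q3 pd1 false false false .pnn 2 1 3
    ndB2q2b ndB4q3 pcB1 Cut.none Ext.none :=
  certB0 (fam := false) (s1 := false) (s2 := false) (a := 2) (b := 1) (c := 3) (cn := .pnn) (n1 := ndB2q2b) (n2 := ndB4q3) (pc := pcB1) (cut := Cut.none) (xt := Ext.none) (P1 := 1239849684) (W1 := 370763052) (P2 := 0) (W2 := 1230186008) (P3 := 536870912) (W3 := 50465866) (N0 := 3) (En := eng) (mo := mog) (C1 := cd2q2b) (C2 := cd4q3) (C3 := pd1)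
    rfl k0_mm_213_b

noncomputable def f_mm_303 : ℕ → ℕ → ℕ → ℕ → Bool := onCell 1610612736 536870912 0 1230186008 536870912 50465866
    (rowB 3 eng mog cd2q3 cd4q3 pd0 0 false false false .npn 3 0 3 (qsf 1610612736 536870912 0 1230186008 0) ndB2q3 ndB4q3 pcB0 Cut.none Ext.none)

def k0_mm_303 : ∃ t, chk3 f_mm_303 t 1 1 1 = true :=
  ⟨(b (l 3) (l 3)), by decide +kernel⟩

theorem c_mm_303 : CertB 1610612736 536870912 0 1230186008 536870912 50465866 3 eng mog cd2q3 cd4q3 pd0 false false false .npn 3 0 3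
    ndB2q3 ndB4q3 pcB0 Cut.none Ext.none :=
  certB0 (fam := false) (s1 := false) (s2 := false) (a := 3) (b := 0) (c := 3) (cn := .npn) (n1 := ndB2q3) (n2 := ndB4q3) (pc := pcB0) (cut := Cut.none) (xt := Ext.none) (P1 := 1610612736) (W1 := 536870912) (P2 := 0) (W2 := 1230186008) (P3 := 536870912) (W3 := 50465866) (N0 := 3) (En := eng) (mo := mog) (C1 := cd2q3) (C2 := cd4q3) (C3 := pd0)
    rfl k0_mm_303

noncomputable def f_mm_313 : ℕ → ℕ → ℕ → ℕ → Bool := onCell 1610612736 536870912 0 1230186008 536870912 50465866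
    (rowB 3 eng mog cd2q3 cd4q3 pd1 0 false false false .dn 3 1 3 (qsf 1610612736 536870912 0 1230186008 1) ndB2q3 ndB4q3 pcB1 Cut.none Ext.none)

def k0_mm_313 : ∃ t, chk3 f_mm_313 t 1 1 1 = true :=
  ⟨(b (l 3) (l 1)), by decide +kernel⟩

theorem c_mm_313 : CertB 1610612736 536870912 0 1230186008 536870912 50465866 3 eng mog cd2q3 cd4q3 pd1 false false false .dn 3 1 3
    ndB2q3 ndB4q3 pcB1 Cut.none Ext.none :=
  certB0 (fam := false) (s1 := false) (s2 := false) (a := 3) (b := 1) (c := 3) (cn := .dn) (n1 := ndB2q3) (n2 := ndB4q3) (pc := pcB1) (cut := Cut.none) (xt := Ext.none) (P1 := 1610612736) (W1 := 536870912) (P2 := 0) (W2 := 1230186008) (P3 := 536870912) (W3 := 50465866) (N0 := 3) (En := eng) (mo := mog) (C1 := cd2q3) (C2 := cd4q3) (C3 := pd1)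
    rfl k0_mm_313

end Pool.Agent.Strip051.G.I5000_5470.Tab.C.BB24

namespace Pool.Agent.Strip051.G.I5000_5470.Tab.C.BB25

open Pool.Agent.Strip051.PB Pool.Agent.Strip051.PB.T
open Pool.Agent.Strip051.G.I5000_5470.Tab

noncomputable def f_pp_001 : ℕ → ℕ → ℕ → ℕ → Bool := onCell 0 536870912 0 536870912 536870912 50465866
    (rowB 3 eng mog cd2q0 cd5q1 pd0 1 false true true .up 0 0 1 (qsf 0 536870912 536870912 536870912 0) ndB2q0 ndB5q1 pcB0 Cut.none Ext.none)

def k0_pp_001 : ∃ t, chk3 f_pp_001 t 1 1 1 = true :=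
  ⟨(l 3), by decide +kernel⟩

theorem c_pp_001 : CertB 0 536870912 536870912 536870912 536870912 50465866 3 eng mog cd2q0 cd5q1 pd0 false true true .up 0 0 1
    ndB2q0 ndB5q1 pcB0 Cut.none Ext.none :=
  certB1 (fam := false) (s1 := true) (s2 := true) (a := 0) (b := 0) (c := 1) (cn := .up) (n1 := ndB2q0) (n2 := ndB5q1) (pc := pcB0) (cut := Cut.none) (xt := Ext.none) (P1 := 0) (W1 := 536870912) (P2 := 536870912) (W2 := 536870912) (P3 := 536870912) (W3 := 50465866) (N0 := 3) (En := eng) (mo := mog) (C1 := cd2q0) (C2 := cd5q1) (C3 := pd0)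
    rfl (fun _ => rfl) k0_pp_001

noncomputable def cut_pp_011 : Cut := Cut.of [[⟨0, 0, 0, 67108864⟩, ⟨1, 1, 0, 67108864⟩, ⟨2, 1, 0, 67108864⟩]]

noncomputable def f_pp_011 : ℕ → ℕ → ℕ → ℕ → Bool := onCell 0 536870912 536870912 536870912 536870912 50465866
    (rowB 3 eng mog cd2q0 cd5q1 pd1 1 false true true .pnn 0 1 1 (qsf 0 536870912 536870912 536870912 1) ndB2q0 ndB5q1 pcB1 cut_pp_011 Ext.none)

def k0_pp_011 : ∃ t, chk3 f_pp_011 t 1 1 1 = true :=
  ⟨(b (l 3) (b (l 3) (a (b (l 3) (a (a (b (l 3) (a (l 6) (l 3))) (l 3)) (l 2))) (l 2)))), by decide +kernel⟩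

theorem c_pp_011 : CertB 0 536870912 536870912 536870912 536870912 50465866 3 eng mog cd2q0 cd5q1 pd1 false true true .pnn 0 1 1
    ndB2q0 ndB5q1 pcB1 cut_pp_011 Ext.none :=
  certB1 (fam := false) (s1 := true) (s2 := true) (a := 0) (b := 1) (c := 1) (cn := .pnn) (n1 := ndB2q0) (n2 := ndB5q1) (pc := pcB1) (cut := cut_pp_011) (xt := Ext.none) (P1 := 0) (W1 := 536870912) (P2 := 536870912) (W2 := 536870912) (P3 := 536870912) (W3 := 50465866) (N0 := 3) (En := eng) (mo := mog) (C1 := cd2q0) (C2 := cd5q1) (C3 := pd1)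
    rfl (fun _ => rfl) k0_pp_011

noncomputable def f_pp_012 : ℕ → ℕ → ℕ → ℕ → Bool := onCell 0 536870912 536870912 536870912 536870912 50465866
    (rowB 3 eng mog cd2q0 cd5q2 pd1 1 false true true .pnp 0 1 2 (qsf 0 536870912 1073741824 536870912 1) ndB2q0 ndB5q2 pcB1 Cut.none Ext.none)

def k0_pp_012 : ∃ t, chk3 f_pp_012 t 1 1 1 = true :=
  ⟨(l 3), by decide +kernel⟩

theorem c_pp_012 : CertB 0 536870912 1073741824 536870912 536870912 50465866 3 eng mog cd2q0 cd5q2 pd1 false true true .pnp 0 1 2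
    ndB2q0 ndB5q2 pcB1 Cut.none Ext.none :=
  certB1 (fam := false) (s1 := true) (s2 := true) (a := 0) (b := 1) (c := 2) (cn := .pnp) (n1 := ndB2q0) (n2 := ndB5q2) (pc := pcB1) (cut := Cut.none) (xt := Ext.none) (P1 := 0) (W1 := 536870912) (P2 := 1073741824) (W2 := 536870912) (P3 := 536870912) (W3 := 50465866) (N0 := 3) (En := eng) (mo := mog) (C1 := cd2q0) (C2 := cd5q2) (C3 := pd1)
    rfl (fun _ => rfl) k0_pp_012

noncomputable def f_pp_022 : ℕ → ℕ → ℕ → ℕ → Bool := onCell 0 536870912 1073741824 536870912 536870912 50465866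
    (rowB 3 eng mog cd2q0 cd5q2 pd2 1 false true true .pp 0 2 2 (qsf 0 536870912 1073741824 536870912 2) ndB2q0 ndB5q2 pcB2 Cut.none Ext.none)

def k0_pp_022 : ∃ t, chk3 f_pp_022 t 1 1 1 = true :=
  ⟨(a (b (b (l 3) (b (b (b (a (l 3) (l 3)) (b (a (a (b (a (a (l 16482912) (l 3)) (l 3)) (a (a (l 16474240) (l 16487384)) (l 16498832))) (l 3)) (l 3)) (a (b (a (a (a (a (l 16527256) (l 16522856)) (b (l 16481160) (l 16477080))) (b (l 16491752) (l 16487216))) (l 72644917479)) (a (b (a (a (l 16461872) (b (l 16474048) (l 16471840))) (c (l 16511872) (l 16501200))) (a (a (l 16457904) (l 16468248)) (a (l 16474752) (l 16522576)))) (b (l 16571656) (a (l 16488448) (l 16497216))))) (b (a (l 3) (l 16541120)) (a (b (l 16514280) (l 16509040)) (b (l 16533328) (l 16528240))))))) (a (a (a (a (l 16490984) (l 16429728)) (l 16442792)) (l 16506792)) (a (l 16482416) (l 16483152)))) (a (a (a (b (l 16375088) (l 16331416)) (l 16398120)) (a (l 16399896) (l 16419872))) (a (l 16443328)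 (l 16459768))))) (b (b (a (a (a (b (l 16294616) (l 16265136)) (l 16313776)) (l 16382968)) (a (l 16416128) (l 16457344))) (a (a (a (l 16235056) (l 16280720)) (l 16345464)) (l 16519456))) (a (a (b (l 16254496) (l 16290616)) (b (l 16364888) (l 16433904))) (b (a (l 16456888) (l 2)) (l 2))))) (a (b (b (l 3) (b (b (b (a (l 3) (l 16653144)) (b (a (l 16576496) (l 16630160)) (b (a (l 16562368) (l 16618432)) (b (l 16583408) (l 16579008))))) (a (l 16507816) (l 16573360))) (a (l 16458840) (l 16527128)))) (b (b (l 16533832) (l 2)) (l 2))) (b (b (b (l 3) (b (l 3) (b (l 16803080) (l 16780320)))) (b (b (b (l 16862424) (l 2)) (l 2)) (l 2))) (l 2)))), by decide +kernel⟩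

theorem c_pp_022 : CertB 0 536870912 1073741824 536870912 536870912 50465866 3 eng mog cd2q0 cd5q2 pd2 false true true .pp 0 2 2
    ndB2q0 ndB5q2 pcB2 Cut.none Ext.none :=
  certB1 (fam := false) (s1 := true) (s2 := true) (a := 0) (b := 2) (c := 2) (cn := .pp) (n1 := ndB2q0) (n2 := ndB5q2) (pc := pcB2) (cut := Cut.none) (xt := Ext.none) (P1 := 0) (W1 := 536870912) (P2 := 1073741824) (W2 := 536870912) (P3 := 536870912) (W3 := 50465866) (N0 := 3) (En := eng) (mo := mog) (C1 := cd2q0) (C2 := cd5q2) (C3 := pd2)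
    rfl (fun _ => rfl) k0_pp_022

noncomputable def f_pp_023 : ℕ → ℕ → ℕ → ℕ → Bool := onCell 1073741824 536870912 0 1230186008 536870912 50465866
    (rowB 3 eng mog cd2q0 cd5q3 pd2 2 false true true .up 0 2 3 (qsf 0 536870912 0 1230186008 2) ndB2q0 ndB5q3 pcB2 Cut.none Ext.none)

def k0_pp_023 : ∃ t, chk3 f_pp_023 t 1 1 1 = true :=
  ⟨(b (a (l 2) (a (l 2) (a (b (l 2) (l 16755688)) (b (l 16746936) (l 16760224))))) (b (a (a (l 2) (a (l 2) (l 16735880))) (a (l 16961480) (a (l 16737888) (b (l 16756464) (l 16724856))))) (b (a (a (l 2) (a (a (a (l 16798552) (a (l 16785680) (l 16882584))) (l 16755200)) (l 16705608))) (a (l 16749080) (a (l 16667432) (b (l 16681960) (l 16622560))))) (a (a (a (l 3) (a (l 3) (b (l 16834496) (l 454360431767)))) (a (a (a (b (l 16777648) (l 16679680)) (a (b (l 16749144) (l 16645096)) (a (l 16682672) (a (l 16674208) (l 16668736))))) (l 16622248)) (b (l 16603864) (l 16491584)))) (a (b (l 16545288) (l 16507184)) (b (l 16539800)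 (a (l 16462088) (l 16413512)))))))), by decide +kernel⟩

theorem c_pp_023 : CertB 0 536870912 0 1230186008 536870912 50465866 3 eng mog cd2q0 cd5q3 pd2 false true true .up 0 2 3
    ndB2q0 ndB5q3 pcB2 Cut.none Ext.none :=
  certB2 (fam := false) (s1 := true) (s2 := true) (a := 0) (b := 2) (c := 3) (cn := .up) (n1 := ndB2q0) (n2 := ndB5q3) (pc := pcB2) (cut := Cut.none) (xt := Ext.none) (P1 := 0) (W1 := 536870912) (P2 := 0) (W2 := 1230186008) (P3 := 536870912) (W3 := 50465866) (N0 := 3) (En := eng) (mo := mog) (C1 := cd2q0) (C2 := cd5q3) (C3 := pd2)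
    rfl (fun _ => rfl) k0_pp_023

noncomputable def f_pp_033 : ℕ → ℕ → ℕ → ℕ → Bool := onCell 1610612736 536870912 0 1230186008 536870912 50465866
    (rowB 3 eng mog cd2q0 cd5q3 pd3 2 false true true .pnn 0 3 3 (qsf 0 536870912 0 1230186008 3) ndB2q0 ndB5q3 pcB3 Cut.none Ext.none)

def k0_pp_033 : ∃ t, chk3 f_pp_033 t 1 1 1 = true :=
  ⟨(b (b (a (a (a (l 16751000) (l 16743760)) (a (l 16739664) (l 16734472))) (l 4)) (a (a (a (l 16753304) (l 16751768)) (a (l 16958280) (l 16745832))) (a (a (l 16742048) (a (l 16740288) (l 16738672))) (a (a (l 16736384) (l 16733128)) (l 4))))) (b (a (a (a (b (l 16906152) (l 16732448)) (b (l 16764520) (l 16741264))) (a (b (l 16755344) (l 16733952)) (b (l 16750336) (l 16729544)))) (a (a (b (l 16751224) (b (l 16740936) (l 16722768))) (b (a (l 16758168) (l 711387989751)) (b (l 465501003943) (l 1)))) (b (a (a (l 767759436711) (l 1)) (l 1)) (l 1)))) (a (b (a (a (b (l 16693224) (l 16630512)) (b (l 16695088) (l 16625592)))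 (b (a (l 16690736) (l 16688960)) (a (l 16619848) (l 1)))) (a (b (a (l 16518520) (l 16506920)) (b (l 219075983991) (l 288869099511))) (b (a (l 307660172375) (l 1)) (l 1)))) (l 1)))), by decide +kernel⟩

theorem c_pp_033 : CertB 0 536870912 0 1230186008 536870912 50465866 3 eng mog cd2q0 cd5q3 pd3 false true true .pnn 0 3 3
    ndB2q0 ndB5q3 pcB3 Cut.none Ext.none :=
  certB2 (fam := false) (s1 := true) (s2 := true) (a := 0) (b := 3) (c := 3) (cn := .pnn) (n1 := ndB2q0) (n2 := ndB5q3) (pc := pcB3) (cut := Cut.none) (xt := Ext.none) (P1 := 0) (W1 := 536870912) (P2 := 0) (W2 := 1230186008) (P3 := 536870912) (W3 := 50465866) (N0 := 3) (En := eng) (mo := mog) (C1 := cd2q0) (C2 := cd5q3) (C3 := pd3)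
    rfl (fun _ => rfl) k0_pp_033

noncomputable def f_pp_101 : ℕ → ℕ → ℕ → ℕ → Bool := onCell 536870912 536870912 536870912 536870912 536870912 50465866
    (rowB 3 eng mog cd2q1 cd5q1 pd0 0 false true true .npn 1 0 1 (qsf 536870912 536870912 536870912 536870912 0) ndB2q1 ndB5q1 pcB0 Cut.none Ext.none)

def k0_pp_101 : ∃ t, chk3 f_pp_101 t 1 1 1 = true :=
  ⟨(l 3), by decide +kernel⟩

theorem c_pp_101 : CertB 536870912 536870912 536870912 536870912 536870912 50465866 3 eng mog cd2q1 cd5q1 pd0 false true true .npn 1 0 1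
    ndB2q1 ndB5q1 pcB0 Cut.none Ext.none :=
  certB0 (fam := false) (s1 := true) (s2 := true) (a := 1) (b := 0) (c := 1) (cn := .npn) (n1 := ndB2q1) (n2 := ndB5q1) (pc := pcB0) (cut := Cut.none) (xt := Ext.none) (P1 := 536870912) (W1 := 536870912) (P2 := 536870912) (W2 := 536870912) (P3 := 536870912) (W3 := 50465866) (N0 := 3) (En := eng) (mo := mog) (C1 := cd2q1) (C2 := cd5q1) (C3 := pd0)
    rfl k0_pp_101

noncomputable def f_pp_102 : ℕ → ℕ → ℕ → ℕ → Bool := onCell 536870912 536870912 1073741824 536870912 536870912 50465866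
    (rowB 3 eng mog cd2q1 cd5q2 pd0 0 false true true .npp 1 0 2 (qsf 536870912 536870912 1073741824 536870912 0) ndB2q1 ndB5q2 pcB0 Cut.none Ext.none)

def k0_pp_102 : ∃ t, chk3 f_pp_102 t 1 1 1 = true :=
  ⟨(l 3), by decide +kernel⟩

theorem c_pp_102 : CertB 536870912 536870912 1073741824 536870912 536870912 50465866 3 eng mog cd2q1 cd5q2 pd0 false true true .npp 1 0 2
    ndB2q1 ndB5q2 pcB0 Cut.none Ext.none :=
  certB0 (fam := false) (s1 := true) (s2 := true) (a := 1) (b := 0) (c := 2) (cn := .npp) (n1 := ndB2q1) (n2 := ndB5q2) (pc := pcB0) (cut := Cut.none) (xt := Ext.none) (P1 := 536870912) (W1 := 536870912) (P2 := 1073741824) (W2 := 536870912) (P3 := 536870912) (W3 := 50465866) (N0 := 3) (En := eng) (mo := mog) (C1 := cd2q1) (C2 := cd5q2) (C3 := pd0)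
    rfl k0_pp_102

noncomputable def f_pp_112 : ℕ → ℕ → ℕ → ℕ → Bool := onCell 536870912 536870912 1073741824 536870912 536870912 50465866
    (rowB 3 eng mog cd2q1 cd5q2 pd1 0 false true true .dn 1 1 2 (qsf 536870912 536870912 1073741824 536870912 1) ndB2q1 ndB5q2 pcB1 Cut.none Ext.none)

def k0_pp_112 : ∃ t, chk3 f_pp_112 t 1 1 1 = true :=
  ⟨(l 3), by decide +kernel⟩

theorem c_pp_112 : CertB 536870912 536870912 1073741824 536870912 536870912 50465866 3 eng mog cd2q1 cd5q2 pd1 false true true .dn 1 1 2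
    ndB2q1 ndB5q2 pcB1 Cut.none Ext.none :=
  certB0 (fam := false) (s1 := true) (s2 := true) (a := 1) (b := 1) (c := 2) (cn := .dn) (n1 := ndB2q1) (n2 := ndB5q2) (pc := pcB1) (cut := Cut.none) (xt := Ext.none) (P1 := 536870912) (W1 := 536870912) (P2 := 1073741824) (W2 := 536870912) (P3 := 536870912) (W3 := 50465866) (N0 := 3) (En := eng) (mo := mog) (C1 := cd2q1) (C2 := cd5q2) (C3 := pd1)
    rfl k0_pp_112

noncomputable def f_pp_113 : ℕ → ℕ → ℕ → ℕ → Bool := onCell 536870912 536870912 0 1230186008 536870912 50465866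
    (rowB 3 eng mog cd2q1 cd5q3 pd1 2 false true true .nn 1 1 3 (qsf 536870912 536870912 0 1230186008 1) ndB2q1 ndB5q3 pcB1 Cut.none Ext.none)

def k0_pp_113 : ∃ t, chk3 f_pp_113 t 1 1 1 = true :=
  ⟨(b (a (l 2) (a (l 2) (b (a (l 2) (l 16915224)) (a (b (a (l 2) (l 16844064)) (l 3)) (b (l 16815392) (l 388862416199)))))) (b (a (l 3) (a (l 3) (a (l 3) (b (l 406579139623) (l 3))))) (a (l 3) (l 3)))), by decide +kernel⟩

theorem c_pp_113 : CertB 536870912 536870912 0 1230186008 536870912 50465866 3 eng mog cd2q1 cd5q3 pd1 false true true .nn 1 1 3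
    ndB2q1 ndB5q3 pcB1 Cut.none Ext.none :=
  certB2 (fam := false) (s1 := true) (s2 := true) (a := 1) (b := 1) (c := 3) (cn := .nn) (n1 := ndB2q1) (n2 := ndB5q3) (pc := pcB1) (cut := Cut.none) (xt := Ext.none) (P1 := 536870912) (W1 := 536870912) (P2 := 0) (W2 := 1230186008) (P3 := 536870912) (W3 := 50465866) (N0 := 3) (En := eng) (mo := mog) (C1 := cd2q1) (C2 := cd5q3) (C3 := pd1)
    rfl (fun _ => rfl) k0_pp_113

end Pool.Agent.Strip051.G.I5000_5470.Tab.C.BB25

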