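import Pool.Agent.Strip051.G.I5000_5470.Tab

/-! # Certificates B24 (generated) -/

set_option linter.all false
set_option maxRecDepth 100000

namespace Pool.Agent.Strip051.G.I5000_5470.Tab.C.BB25

open Pool.Agent.Strip051.PB Pool.Agent.Strip051.PB.T
open Pool.Agent.Strip051.G.I5000_5470.Tab

noncomputable def f_pp_123 : ℕ → ℕ → ℕ → ℕ → Bool := onCell 1073741824 536870912 0 1230186008 536870912 50465866
    (rowB 3 eng mog cd2q1 cd5q3 pd2 2 false true true .npn 1 2 3 (qsf 536870912 536870912 0 1230186008 2) ndB2q1 ndB5q3 pcB2 Cut.none Ext.none)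

def k0_pp_123 : ∃ t, chk3 f_pp_123 t 1 1 1 = true :=
  ⟨(b (b (a (a (a (l 16787592) (l 16765168)) (l 16755744)) (a (b (l 16761160) (l 16767600)) (a (l 16753608) (l 16749952)))) (a (a (a (b (l 16819288) (l 16847840)) (l 16861360)) (a (a (l 16954008) (l 16790616)) (l 16777416))) (a (l 17012296) (a (l 16759312) (l 16760816))))) (b (a (b (a (a (a (l 16879192) (l 16877864)) (l 16875472)) (a (l 17036440) (l 16800720))) (a (a (a (l 16884696) (l 16891176)) (a (l 16894664) (l 16898952))) (a (a (a (l 16910624) (a (l 16923744) (l 16920584))) (l 16866736)) (l 16773408)))) (a (b (l 16745240) (l 16721512)) (a (l 16781928) (l 1)))) (a (a (a (b (l 3) (l 3)) (a (b (l 17108520) (l 3)) (b (l 17029520) (b (l 16854488) (l 1))))) (a (b (a (a (l 16873656) (a (l 16841752) (l 212098159767))) (l 16779000)) (a (a (l 311955952135) (l 1)) (l 1))) (b (l 16709168) (l 1)))) (l 1)))), by decide +kernel⟩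

theorem c_pp_123 : CertB 536870912 536870912 0 1230186008 536870912 50465866 3 eng mog cd2q1 cd5q3 pd2 false true true .npn 1 2 3
    ndB2q1 ndB5q3 pcB2 Cut.none Ext.none :=
  certB2 (fam := false) (s1 := true) (s2 := true) (a := 1) (b := 2) (c := 3) (cn := .npn) (n1 := ndB2q1) (n2 := ndB5q3) (pc := pcB2) (cut := Cut.none) (xt := Ext.none) (P1 := 536870912) (W1 := 536870912) (P2 := 0) (W2 := 1230186008) (P3 := 536870912) (W3 := 50465866) (N0 := 3) (En := eng) (mo := mog) (C1 := cd2q1) (C2 := cd5q3) (C3 := pd2)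
    rfl (fun _ => rfl) k0_pp_123

noncomputable def f_pp_133 : ℕ → ℕ → ℕ → ℕ → Bool := onCell 1610612736 536870912 0 1230186008 536870912 50465866
    (rowB 3 eng mog cd2q1 cd5q3 pd3 2 false true true .dn 1 3 3 (qsf 536870912 536870912 0 1230186008 3) ndB2q1 ndB5q3 pcB3 Cut.none Ext.none)

def k0_pp_133 : ∃ t, chk3 f_pp_133 t 1 1 1 = true :=
  ⟨(a (b (a (a (l 902514076791) (l 1)) (l 1)) (l 1)) (l 1)), by decide +kernel⟩

theorem c_pp_133 : CertB 536870912 536870912 0 1230186008 536870912 50465866 3 eng mog cd2q1 cd5q3 pd3 false true true .dn 1 3 3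
    ndB2q1 ndB5q3 pcB3 Cut.none Ext.none :=
  certB2 (fam := false) (s1 := true) (s2 := true) (a := 1) (b := 3) (c := 3) (cn := .dn) (n1 := ndB2q1) (n2 := ndB5q3) (pc := pcB3) (cut := Cut.none) (xt := Ext.none) (P1 := 536870912) (W1 := 536870912) (P2 := 0) (W2 := 1230186008) (P3 := 536870912) (W3 := 50465866) (N0 := 3) (En := eng) (mo := mog) (C1 := cd2q1) (C2 := cd5q3) (C3 := pd3)
    rfl (fun _ => rfl) k0_pp_133

noncomputable def f_pp_202_a : ℕ → ℕ → ℕ → ℕ → Bool := onCell 0 536870912 1073741824 536870912 536870912 50465866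
    (rowB 3 eng mog cd2q2a cd5q2 pd0 0 false true true .pp 2 0 2 (qsf 0 536870912 1073741824 536870912 0) ndB2q2a ndB5q2 pcB0 Cut.none Ext.none)

def k0_pp_202_a : ∃ t, chk3 f_pp_202_a t 1 1 1 = true :=
  ⟨(l 5), by decide +kernel⟩

theorem c_pp_202_a : CertB 0 536870912 1073741824 536870912 536870912 50465866 3 eng mog cd2q2a cd5q2 pd0 false true true .pp 2 0 2
    ndB2q2a ndB5q2 pcB0 Cut.none Ext.none :=
  certB0 (fam := false) (s1 := true) (s2 := true) (a := 2) (b := 0) (c := 2) (cn := .pp) (n1 := ndB2q2a) (n2 := ndB5q2) (pc := pcB0) (cut := Cut.none) (xt := Ext.none) (P1 := 0) (W1 := 536870912) (P2 := 1073741824) (W2 := 536870912) (P3 := 536870912) (W3 := 50465866) (N0 := 3) (En := eng) (mo := mog) (C1 := cd2q2a) (C2 := cd5q2) (C3 := pd0)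
    rfl k0_pp_202_a

noncomputable def f_pp_202_b : ℕ → ℕ → ℕ → ℕ → Bool := onCell 1239849684 370763052 1073741824 536870912 536870912 50465866
    (rowB 3 eng mog cd2q2b cd5q2 pd0 0 false true true .pp 2 0 2 (qsf 1239849684 370763052 1073741824 536870912 0) ndB2q2b ndB5q2 pcB0 Cut.none Ext.none)

def k0_pp_202_b : ∃ t, chk3 f_pp_202_b t 1 1 1 = true :=
  ⟨(l 5), by decide +kernel⟩

theorem c_pp_202_b : CertB 1239849684 370763052 1073741824 536870912 536870912 50465866 3 eng mog cd2q2b cd5q2 pd0 false true true .pp 2 0 2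
    ndB2q2b ndB5q2 pcB0 Cut.none Ext.none :=
  certB0 (fam := false) (s1 := true) (s2 := true) (a := 2) (b := 0) (c := 2) (cn := .pp) (n1 := ndB2q2b) (n2 := ndB5q2) (pc := pcB0) (cut := Cut.none) (xt := Ext.none) (P1 := 1239849684) (W1 := 370763052) (P2 := 1073741824) (W2 := 536870912) (P3 := 536870912) (W3 := 50465866) (N0 := 3) (En := eng) (mo := mog) (C1 := cd2q2b) (C2 := cd5q2) (C3 := pd0)
    rfl k0_pp_202_b

noncomputable def f_pp_203_a : ℕ → ℕ → ℕ → ℕ → Bool := onCell 0 536870912 0 1230186008 536870912 50465866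
    (rowB 3 eng mog cd2q2a cd5q3 pd0 0 false true true .up 2 0 3 (qsf 0 536870912 0 1230186008 0) ndB2q2a ndB5q3 pcB0 Cut.none Ext.none)

def k0_pp_203_a : ∃ t, chk3 f_pp_203_a t 1 1 1 = true :=
  ⟨(b (l 2) (l 3)), by decide +kernel⟩

theorem c_pp_203_a : CertB 0 536870912 0 1230186008 536870912 50465866 3 eng mog cd2q2a cd5q3 pd0 false true true .up 2 0 3
    ndB2q2a ndB5q3 pcB0 Cut.none Ext.none :=
  certB0 (fam := false) (s1 := true) (s2 := true) (a := 2) (b := 0) (c := 3) (cn := .up) (n1 := ndB2q2a) (n2 := ndB5q3) (pc := pcB0) (cut := Cut.none) (xt := Ext.none) (P1 := 0) (W1 := 536870912) (P2 := 0) (W2 := 1230186008) (P3 := 536870912) (W3 := 50465866) (N0 := 3) (En := eng) (mo := mog) (C1 := cd2q2a) (C2 := cd5q3) (C3 := pd0)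
    rfl k0_pp_203_a

noncomputable def f_pp_203_b : ℕ → ℕ → ℕ → ℕ → Bool := onCell 1239849684 370763052 0 1230186008 536870912 50465866
    (rowB 3 eng mog cd2q2b cd5q3 pd0 0 false true true .up 2 0 3 (qsf 1239849684 370763052 0 1230186008 0) ndB2q2b ndB5q3 pcB0 Cut.none Ext.none)

def k0_pp_203_b : ∃ t, chk3 f_pp_203_b t 1 1 1 = true :=
  ⟨(b (l 3) (l 3)), by decide +kernel⟩

theorem c_pp_203_b : CertB 1239849684 370763052 0 1230186008 536870912 50465866 3 eng mog cd2q2b cd5q3 pd0 false true true .up 2 0 3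
    ndB2q2b ndB5q3 pcB0 Cut.none Ext.none :=
  certB0 (fam := false) (s1 := true) (s2 := true) (a := 2) (b := 0) (c := 3) (cn := .up) (n1 := ndB2q2b) (n2 := ndB5q3) (pc := pcB0) (cut := Cut.none) (xt := Ext.none) (P1 := 1239849684) (W1 := 370763052) (P2 := 0) (W2 := 1230186008) (P3 := 536870912) (W3 := 50465866) (N0 := 3) (En := eng) (mo := mog) (C1 := cd2q2b) (C2 := cd5q3) (C3 := pd0)
    rfl k0_pp_203_b

noncomputable def cut_pp_213_a : Cut := Cut.of [[⟨0, 1, 0, 67108864⟩, ⟨1, 1, 0, 67108864⟩, ⟨2, 2, 0, 16777216⟩]]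

noncomputable def f_pp_213_a : ℕ → ℕ → ℕ → ℕ → Bool := onCell 0 536870912 0 1230186008 536870912 50465866
    (rowB 3 eng mog cd2q2a cd5q3 pd1 0 false true true .pnn 2 1 3 (qsf 0 536870912 0 1230186008 1) ndB2q2a ndB5q3 pcB1 cut_pp_213_a Ext.none)

def k0_pp_213_a : ∃ t, chk3 f_pp_213_a t 1 1 1 = true :=
  ⟨(b (a (l 3) (b (a (l 3) (b (a (l 3) (l 6)) (l 3))) (l 3))) (l 3)), by decide +kernel⟩

theorem c_pp_213_a : CertB 0 536870912 0 1230186008 536870912 50465866 3 eng mog cd2q2a cd5q3 pd1 false true true .pnn 2 1 3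
    ndB2q2a ndB5q3 pcB1 cut_pp_213_a Ext.none :=
  certB0 (fam := false) (s1 := true) (s2 := true) (a := 2) (b := 1) (c := 3) (cn := .pnn) (n1 := ndB2q2a) (n2 := ndB5q3) (pc := pcB1) (cut := cut_pp_213_a) (xt := Ext.none) (P1 := 0) (W1 := 536870912) (P2 := 0) (W2 := 1230186008) (P3 := 536870912) (W3 := 50465866) (N0 := 3) (En := eng) (mo := mog) (C1 := cd2q2a) (C2 := cd5q3) (C3 := pd1)
    rfl k0_pp_213_a

noncomputable def cut_pp_213_b : Cut := Cut.of [[⟨0, 1, 0, 67108864⟩, ⟨1, 1, 0, 67108864⟩, ⟨2, 2, 0, 16777216⟩]]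

noncomputable def f_pp_213_b : ℕ → ℕ → ℕ → ℕ → Bool := onCell 1239849684 370763052 0 1230186008 536870912 50465866
    (rowB 3 eng mog cd2q2b cd5q3 pd1 0 false true true .pnn 2 1 3 (qsf 1239849684 370763052 0 1230186008 1) ndB2q2b ndB5q3 pcB1 cut_pp_213_b Ext.none)

def k0_pp_213_b : ∃ t, chk3 f_pp_213_b t 1 1 1 = true :=
  ⟨(b (l 3) (l 3)), by decide +kernel⟩

theorem c_pp_213_b : CertB 1239849684 370763052 0 1230186008 536870912 50465866 3 eng mog cd2q2b cd5q3 pd1 false true true .pnn 2 1 3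
    ndB2q2b ndB5q3 pcB1 cut_pp_213_b Ext.none :=
  certB0 (fam := false) (s1 := true) (s2 := true) (a := 2) (b := 1) (c := 3) (cn := .pnn) (n1 := ndB2q2b) (n2 := ndB5q3) (pc := pcB1) (cut := cut_pp_213_b) (xt := Ext.none) (P1 := 1239849684) (W1 := 370763052) (P2 := 0) (W2 := 1230186008) (P3 := 536870912) (W3 := 50465866) (N0 := 3) (En := eng) (mo := mog) (C1 := cd2q2b) (C2 := cd5q3) (C3 := pd1)
    rfl k0_pp_213_b

noncomputable def f_pp_303 : ℕ → ℕ → ℕ → ℕ → Bool := onCell 1610612736 536870912 0 1230186008 536870912 50465866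
    (rowB 3 eng mog cd2q3 cd5q3 pd0 0 false true true .npn 3 0 3 (qsf 1610612736 536870912 0 1230186008 0) ndB2q3 ndB5q3 pcB0 Cut.none Ext.none)

def k0_pp_303 : ∃ t, chk3 f_pp_303 t 1 1 1 = true :=
  ⟨(b (l 3) (l 5)), by decide +kernel⟩

theorem c_pp_303 : CertB 1610612736 536870912 0 1230186008 536870912 50465866 3 eng mog cd2q3 cd5q3 pd0 false true true .npn 3 0 3
    ndB2q3 ndB5q3 pcB0 Cut.none Ext.none :=
  certB0 (fam := false) (s1 := true) (s2 := true) (a := 3) (b := 0) (c := 3) (cn := .npn) (n1 := ndB2q3) (n2 := ndB5q3) (pc := pcB0) (cut := Cut.none) (xt := Ext.none) (P1 := 1610612736) (W1 := 536870912) (P2 := 0) (W2 := 1230186008) (P3 := 536870912) (W3 := 50465866) (N0 := 3) (En := eng) (mo := mog) (C1 := cd2q3) (C2 := cd5q3) (C3 := pd0)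
    rfl k0_pp_303

noncomputable def f_pp_313 : ℕ → ℕ → ℕ → ℕ → Bool := onCell 1610612736 536870912 0 1230186008 536870912 50465866
    (rowB 3 eng mog cd2q3 cd5q3 pd1 0 false true true .dn 3 1 3 (qsf 1610612736 536870912 0 1230186008 1) ndB2q3 ndB5q3 pcB1 Cut.none Ext.none)

def k0_pp_313 : ∃ t, chk3 f_pp_313 t 1 1 1 = true :=
  ⟨(b (l 3) (l 1)), by decide +kernel⟩

theorem c_pp_313 : CertB 1610612736 536870912 0 1230186008 536870912 50465866 3 eng mog cd2q3 cd5q3 pd1 false true true .dn 3 1 3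
    ndB2q3 ndB5q3 pcB1 Cut.none Ext.none :=
  certB0 (fam := false) (s1 := true) (s2 := true) (a := 3) (b := 1) (c := 3) (cn := .dn) (n1 := ndB2q3) (n2 := ndB5q3) (pc := pcB1) (cut := Cut.none) (xt := Ext.none) (P1 := 1610612736) (W1 := 536870912) (P2 := 0) (W2 := 1230186008) (P3 := 536870912) (W3 := 50465866) (N0 := 3) (En := eng) (mo := mog) (C1 := cd2q3) (C2 := cd5q3) (C3 := pd1)
    rfl k0_pp_313

noncomputable def f_pm_001 : ℕ → ℕ → ℕ → ℕ → Bool := onCell 0 536870912 536870912 536870912 536870912 50465866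
    (rowB 3 eng mog cd2q0 cd5q1 pd0 0 false true false .up 0 0 1 (qsf 0 536870912 536870912 536870912 0) ndB2q0 ndB5q1 pcB0 Cut.none Ext.none)

def k0_pm_001 : ∃ t, chk3 f_pm_001 t 1 1 1 = true :=
  ⟨(l 4), by decide +kernel⟩

theorem c_pm_001 : CertB 0 536870912 536870912 536870912 536870912 50465866 3 eng mog cd2q0 cd5q1 pd0 false true false .up 0 0 1
    ndB2q0 ndB5q1 pcB0 Cut.none Ext.none :=
  certB0 (fam := false) (s1 := true) (s2 := false) (a := 0) (b := 0) (c := 1) (cn := .up) (n1 := ndB2q0) (n2 := ndB5q1) (pc := pcB0) (cut := Cut.none) (xt := Ext.none) (P1 := 0) (W1 := 536870912) (P2 := 536870912) (W2 := 536870912) (P3 := 536870912) (W3 := 50465866) (N0 := 3) (En := eng) (mo := mog) (C1 := cd2q0) (C2 := cd5q1) (C3 := pd0)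
    rfl k0_pm_001

noncomputable def f_pm_011 : ℕ → ℕ → ℕ → ℕ → Bool := onCell 0 536870912 536870912 536870912 536870912 50465866
    (rowB 3 eng mog cd2q0 cd5q1 pd1 0 false true false .pnn 0 1 1 (qsf 0 536870912 536870912 536870912 1) ndB2q0 ndB5q1 pcB1 Cut.none Ext.none)

def k0_pm_011 : ∃ t, chk3 f_pm_011 t 1 1 1 = true :=
  ⟨(l 4), by decide +kernel⟩

theorem c_pm_011 : CertB 0 536870912 536870912 536870912 536870912 50465866 3 eng mog cd2q0 cd5q1 pd1 false true false .pnn 0 1 1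
    ndB2q0 ndB5q1 pcB1 Cut.none Ext.none :=
  certB0 (fam := false) (s1 := true) (s2 := false) (a := 0) (b := 1) (c := 1) (cn := .pnn) (n1 := ndB2q0) (n2 := ndB5q1) (pc := pcB1) (cut := Cut.none) (xt := Ext.none) (P1 := 0) (W1 := 536870912) (P2 := 536870912) (W2 := 536870912) (P3 := 536870912) (W3 := 50465866) (N0 := 3) (En := eng) (mo := mog) (C1 := cd2q0) (C2 := cd5q1) (C3 := pd1)
    rfl k0_pm_011

noncomputable def f_pm_012 : ℕ → ℕ → ℕ → ℕ → Bool := onCell 0 536870912 1073741824 536870912 536870912 50465866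
    (rowB 3 eng mog cd2q0 cd5q2 pd1 0 false true false .pnp 0 1 2 (qsf 0 536870912 1073741824 536870912 1) ndB2q0 ndB5q2 pcB1 Cut.none Ext.none)

def k0_pm_012 : ∃ t, chk3 f_pm_012 t 1 1 1 = true :=
  ⟨(l 4), by decide +kernel⟩

theorem c_pm_012 : CertB 0 536870912 1073741824 536870912 536870912 50465866 3 eng mog cd2q0 cd5q2 pd1 false true false .pnp 0 1 2
    ndB2q0 ndB5q2 pcB1 Cut.none Ext.none :=
  certB0 (fam := false) (s1 := true) (s2 := false) (a := 0) (b := 1) (c := 2) (cn := .pnp) (n1 := ndB2q0) (n2 := ndB5q2) (pc := pcB1) (cut := Cut.none) (xt := Ext.none) (P1 := 0) (W1 := 536870912) (P2 := 1073741824) (W2 := 536870912) (P3 := 536870912) (W3 := 50465866) (N0 := 3) (En := eng) (mo := mog) (C1 := cd2q0) (C2 := cd5q2) (C3 := pd1)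
    rfl k0_pm_012

noncomputable def f_pm_022 : ℕ → ℕ → ℕ → ℕ → Bool := onCell 0 536870912 1073741824 536870912 536870912 50465866
    (rowB 3 eng mog cd2q0 cd5q2 pd2 0 false true false .pp 0 2 2 (qsf 0 536870912 1073741824 536870912 2) ndB2q0 ndB5q2 pcB2 Cut.none Ext.none)

def k0_pm_022 : ∃ t, chk3 f_pm_022 t 1 1 1 = true :=
  ⟨(l 4), by decide +kernel⟩

theorem c_pm_022 : CertB 0 536870912 1073741824 536870912 536870912 50465866 3 eng mog cd2q0 cd5q2 pd2 false true false .pp 0 2 2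
    ndB2q0 ndB5q2 pcB2 Cut.none Ext.none :=
  certB0 (fam := false) (s1 := true) (s2 := false) (a := 0) (b := 2) (c := 2) (cn := .pp) (n1 := ndB2q0) (n2 := ndB5q2) (pc := pcB2) (cut := Cut.none) (xt := Ext.none) (P1 := 0) (W1 := 536870912) (P2 := 1073741824) (W2 := 536870912) (P3 := 536870912) (W3 := 50465866) (N0 := 3) (En := eng) (mo := mog) (C1 := cd2q0) (C2 := cd5q2) (C3 := pd2)
    rfl k0_pm_022

noncomputable def f_pm_023 : ℕ → ℕ → ℕ → ℕ → Bool := onCell 0 536870912 0 1230186008 536870912 50465866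
    (rowB 3 eng mog cd2q0 cd5q3 pd2 0 false true false .up 0 2 3 (qsf 0 536870912 0 1230186008 2) ndB2q0 ndB5q3 pcB2 Cut.none Ext.none)

def k0_pm_023 : ∃ t, chk3 f_pm_023 t 1 1 1 = true :=
  ⟨(b (b (a (l 2) (a (l 2) (l 16869488))) (l 4)) (l 4)), by decide +kernel⟩

theorem c_pm_023 : CertB 0 536870912 0 1230186008 536870912 50465866 3 eng mog cd2q0 cd5q3 pd2 false true false .up 0 2 3
    ndB2q0 ndB5q3 pcB2 Cut.none Ext.none :=
  certB0 (fam := false) (s1 := true) (s2 := false) (a := 0) (b := 2) (c := 3) (cn := .up) (n1 := ndB2q0) (n2 := ndB5q3) (pc := pcB2) (cut := Cut.none) (xt := Ext.none) (P1 := 0) (W1 := 536870912) (P2 := 0) (W2 := 1230186008) (P3 := 536870912) (W3 := 50465866) (N0 := 3) (En := eng) (mo := mog) (C1 := cd2q0) (C2 := cd5q3) (C3 := pd2)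
    rfl k0_pm_023

noncomputable def f_pm_033 : ℕ → ℕ → ℕ → ℕ → Bool := onCell 0 536870912 0 1230186008 536870912 50465866
    (rowB 3 eng mog cd2q0 cd5q3 pd3 0 false true false .pnn 0 3 3 (qsf 0 536870912 0 1230186008 3) ndB2q0 ndB5q3 pcB3 Cut.none Ext.none)

def k0_pm_033 : ∃ t, chk3 f_pm_033 t 1 1 1 = true :=
  ⟨(b (a (l 4) (a (l 4) (b (a (l 4) (l 16747112)) (l 4)))) (l 4)), by decide +kernel⟩

theorem c_pm_033 : CertB 0 536870912 0 1230186008 536870912 50465866 3 eng mog cd2q0 cd5q3 pd3 false true false .pnn 0 3 3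
    ndB2q0 ndB5q3 pcB3 Cut.none Ext.none :=
  certB0 (fam := false) (s1 := true) (s2 := false) (a := 0) (b := 3) (c := 3) (cn := .pnn) (n1 := ndB2q0) (n2 := ndB5q3) (pc := pcB3) (cut := Cut.none) (xt := Ext.none) (P1 := 0) (W1 := 536870912) (P2 := 0) (W2 := 1230186008) (P3 := 536870912) (W3 := 50465866) (N0 := 3) (En := eng) (mo := mog) (C1 := cd2q0) (C2 := cd5q3) (C3 := pd3)
    rfl k0_pm_033

noncomputable def f_pm_101 : ℕ → ℕ → ℕ → ℕ → Bool := onCell 536870912 536870912 536870912 536870912 536870912 50465866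
    (rowB 3 eng mog cd2q1 cd5q1 pd0 0 false true false .npn 1 0 1 (qsf 536870912 536870912 536870912 536870912 0) ndB2q1 ndB5q1 pcB0 Cut.none Ext.none)

def k0_pm_101 : ∃ t, chk3 f_pm_101 t 1 1 1 = true :=
  ⟨(l 4), by decide +kernel⟩

theorem c_pm_101 : CertB 536870912 536870912 536870912 536870912 536870912 50465866 3 eng mog cd2q1 cd5q1 pd0 false true false .npn 1 0 1
    ndB2q1 ndB5q1 pcB0 Cut.none Ext.none :=
  certB0 (fam := false) (s1 := true) (s2 := false) (a := 1) (b := 0) (c := 1) (cn := .npn) (n1 := ndB2q1) (n2 := ndB5q1) (pc := pcB0) (cut := Cut.none) (xt := Ext.none) (P1 := 536870912) (W1 := 536870912) (P2 := 536870912) (W2 := 536870912) (P3 := 536870912) (W3 := 50465866) (N0 := 3) (En := eng) (mo := mog) (C1 := cd2q1) (C2 := cd5q1) (C3 := pd0)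
    rfl k0_pm_101

noncomputable def f_pm_102 : ℕ → ℕ → ℕ → ℕ → Bool := onCell 536870912 536870912 1073741824 536870912 536870912 50465866
    (rowB 3 eng mog cd2q1 cd5q2 pd0 0 false true false .npp 1 0 2 (qsf 536870912 536870912 1073741824 536870912 0) ndB2q1 ndB5q2 pcB0 Cut.none Ext.none)

def k0_pm_102 : ∃ t, chk3 f_pm_102 t 1 1 1 = true :=
  ⟨(l 4), by decide +kernel⟩

theorem c_pm_102 : CertB 536870912 536870912 1073741824 536870912 536870912 50465866 3 eng mog cd2q1 cd5q2 pd0 false true false .npp 1 0 2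
    ndB2q1 ndB5q2 pcB0 Cut.none Ext.none :=
  certB0 (fam := false) (s1 := true) (s2 := false) (a := 1) (b := 0) (c := 2) (cn := .npp) (n1 := ndB2q1) (n2 := ndB5q2) (pc := pcB0) (cut := Cut.none) (xt := Ext.none) (P1 := 536870912) (W1 := 536870912) (P2 := 1073741824) (W2 := 536870912) (P3 := 536870912) (W3 := 50465866) (N0 := 3) (En := eng) (mo := mog) (C1 := cd2q1) (C2 := cd5q2) (C3 := pd0)
    rfl k0_pm_102

noncomputable def f_pm_112 : ℕ → ℕ → ℕ → ℕ → Bool := onCell 536870912 536870912 1073741824 536870912 536870912 50465866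
    (rowB 3 eng mog cd2q1 cd5q2 pd1 0 false true false .dn 1 1 2 (qsf 536870912 536870912 1073741824 536870912 1) ndB2q1 ndB5q2 pcB1 Cut.none Ext.none)

def k0_pm_112 : ∃ t, chk3 f_pm_112 t 1 1 1 = true :=
  ⟨(l 4), by decide +kernel⟩

theorem c_pm_112 : CertB 536870912 536870912 1073741824 536870912 536870912 50465866 3 eng mog cd2q1 cd5q2 pd1 false true false .dn 1 1 2
    ndB2q1 ndB5q2 pcB1 Cut.none Ext.none :=
  certB0 (fam := false) (s1 := true) (s2 := false) (a := 1) (b := 1) (c := 2) (cn := .dn) (n1 := ndB2q1) (n2 := ndB5q2) (pc := pcB1) (cut := Cut.none) (xt := Ext.none) (P1 := 536870912) (W1 := 536870912) (P2 := 1073741824) (W2 := 536870912) (P3 := 536870912) (W3 := 50465866) (N0 := 3) (En := eng) (mo := mog) (C1 := cd2q1) (C2 := cd5q2) (C3 := pd1)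
    rfl k0_pm_112

noncomputable def f_pm_113 : ℕ → ℕ → ℕ → ℕ → Bool := onCell 536870912 536870912 0 1230186008 536870912 50465866
    (rowB 3 eng mog cd2q1 cd5q3 pd1 0 false true false .nn 1 1 3 (qsf 536870912 536870912 0 1230186008 1) ndB2q1 ndB5q3 pcB1 Cut.none Ext.none)

def k0_pm_113 : ∃ t, chk3 f_pm_113 t 1 1 1 = true :=
  ⟨(b (a (l 2) (a (l 2) (b (l 16798904) (l 16866392)))) (b (a (l 4) (a (b (a (l 2) (l 16978776)) (l 4)) (b (l 16935832) (l 16999200)))) (a (l 4) (b (a (l 4) (l 17069816)) (l 4))))), by decide +kernel⟩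

theorem c_pm_113 : CertB 536870912 536870912 0 1230186008 536870912 50465866 3 eng mog cd2q1 cd5q3 pd1 false true false .nn 1 1 3
    ndB2q1 ndB5q3 pcB1 Cut.none Ext.none :=
  certB0 (fam := false) (s1 := true) (s2 := false) (a := 1) (b := 1) (c := 3) (cn := .nn) (n1 := ndB2q1) (n2 := ndB5q3) (pc := pcB1) (cut := Cut.none) (xt := Ext.none) (P1 := 536870912) (W1 := 536870912) (P2 := 0) (W2 := 1230186008) (P3 := 536870912) (W3 := 50465866) (N0 := 3) (En := eng) (mo := mog) (C1 := cd2q1) (C2 := cd5q3) (C3 := pd1)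
    rfl k0_pm_113

noncomputable def f_pm_123 : ℕ → ℕ → ℕ → ℕ → Bool := onCell 1073741824 536870912 0 1230186008 536870912 50465866
    (rowB 3 eng mog cd2q1 cd5q3 pd2 2 false true false .npn 1 2 3 (qsf 536870912 536870912 0 1230186008 2) ndB2q1 ndB5q3 pcB2 Cut.none Ext.none)

def k0_pm_123 : ∃ t, chk3 f_pm_123 t 1 1 1 = true :=
  ⟨(b (b (a (a (b (l 16757008) (l 16772440)) (b (l 16754184) (l 16762784))) (a (l 16848208) (l 16750336))) (a (a (b (l 16810064) (l 16871464)) (a (l 16818928) (l 16814912))) (a (l 16791088) (l 4)))) (a (b (a (a (l 17005896) (l 16951000)) (l 4)) (l 4)) (l 4))), by decide +kernel⟩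

theorem c_pm_123 : CertB 536870912 536870912 0 1230186008 536870912 50465866 3 eng mog cd2q1 cd5q3 pd2 false true false .npn 1 2 3
    ndB2q1 ndB5q3 pcB2 Cut.none Ext.none :=
  certB2 (fam := false) (s1 := true) (s2 := false) (a := 1) (b := 2) (c := 3) (cn := .npn) (n1 := ndB2q1) (n2 := ndB5q3) (pc := pcB2) (cut := Cut.none) (xt := Ext.none) (P1 := 536870912) (W1 := 536870912) (P2 := 0) (W2 := 1230186008) (P3 := 536870912) (W3 := 50465866) (N0 := 3) (En := eng) (mo := mog) (C1 := cd2q1) (C2 := cd5q3) (C3 := pd2)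
    rfl (fun _ => rfl) k0_pm_123

noncomputable def f_pm_133 : ℕ → ℕ → ℕ → ℕ → Bool := onCell 1610612736 536870912 0 1230186008 536870912 50465866
    (rowB 3 eng mog cd2q1 cd5q3 pd3 2 false true false .dn 1 3 3 (qsf 536870912 536870912 0 1230186008 3) ndB2q1 ndB5q3 pcB3 Cut.none Ext.none)

def k0_pm_133 : ∃ t, chk3 f_pm_133 t 1 1 1 = true :=
  ⟨(b (a (a (a (l 16746664) (l 1)) (l 1)) (l 1)) (l 1)), by decide +kernel⟩

theorem c_pm_133 : CertB 536870912 536870912 0 1230186008 536870912 50465866 3 eng mog cd2q1 cd5q3 pd3 false true false .dn 1 3 3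
    ndB2q1 ndB5q3 pcB3 Cut.none Ext.none :=
  certB2 (fam := false) (s1 := true) (s2 := false) (a := 1) (b := 3) (c := 3) (cn := .dn) (n1 := ndB2q1) (n2 := ndB5q3) (pc := pcB3) (cut := Cut.none) (xt := Ext.none) (P1 := 536870912) (W1 := 536870912) (P2 := 0) (W2 := 1230186008) (P3 := 536870912) (W3 := 50465866) (N0 := 3) (En := eng) (mo := mog) (C1 := cd2q1) (C2 := cd5q3) (C3 := pd3)
    rfl (fun _ => rfl) k0_pm_133

noncomputable def f_pm_202_a : ℕ → ℕ → ℕ → ℕ → Bool := onCell 0 536870912 0 536870912 536870912 50465866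
    (rowB 3 eng mog cd2q2a cd5q2 pd0 1 false true false .pp 2 0 2 (qsf 0 536870912 1073741824 536870912 0) ndB2q2a ndB5q2 pcB0 Cut.none Ext.none)

def k0_pm_202_a : ∃ t, chk3 f_pm_202_a t 1 1 1 = true :=
  ⟨(a (b (b (b (a (b (l 16642664) (l 16653680)) (b (a (l 16658224) (l 16664000)) (l 16676304))) (a (b (l 16659640) (l 16667992)) (b (l 16691936) (l 16705992)))) (b (a (b (l 16675704) (l 16666112)) (b (l 16715232) (l 16721240))) (a (b (l 16651184) (l 16608320)) (a (l 16698752) (l 16739952))))) (b (b (a (b (l 16590616) (l 16595040)) (b (l 16700248) (l 16667616))) (a (b (l 16618576) (l 16652208)) (a (l 16685232) (l 16729272)))) (b (a (l 2) (l 928350987191)) (l 2)))) (b (b (a (b (b (a (l 16664696) (l 16659544)) (a (l 16680408) (l 16677568))) (a (l 16711200) (b (l 16700560) (l 16728240)))) (b (a (b (b (a (l 16649712) (l 16643184)) (l 16654920)) (l 16672344)) (b (a (b (b (l 16633952) (l 16638856)) (l 16647784)) (b (a (b (a (l 16629816) (l 16627640))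 (l 16634584)) (a (b (b (l 16624408) (l 16627768)) (l 16634376)) (b (a (b (l 16620824) (l 16627632)) (b (l 16623832) (l 16629328))) (l 16637816)))) (a (l 16647624) (a (l 16652312) (l 16646400))))) (a (l 16673176) (a (l 16682680) (l 16629752))))) (a (b (l 16702864) (a (l 16734904) (l 16744848))) (a (l 16740432) (b (l 16705128) (l 16726760)))))) (a (b (b (l 16749432) (l 16770872)) (b (l 16787832) (l 16795160))) (b (a (b (l 16778248) (l 16816400)) (b (a (l 16796840) (l 16749208)) (a (l 16827864) (l 16775272)))) (a (l 16864960) (b (l 16834392) (l 16868296)))))) (b (b (a (b (l 16801688) (l 16810864)) (a (l 16908808) (b (l 16909232) (l 16957432)))) (a (a (l 16802256) (l 16880048)) (a (l 16969128) (l 16993088)))) (b (a (a (l 16838368) (l 16927528)) (b (l 17041688) (l 17049208))) (a (l 2) (b (l 17063448) (l 17109936))))))), by decide +kernel⟩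

theorem c_pm_202_a : CertB 0 536870912 1073741824 536870912 536870912 50465866 3 eng mog cd2q2a cd5q2 pd0 false true false .pp 2 0 2
    ndB2q2a ndB5q2 pcB0 Cut.none Ext.none :=
  certB1 (fam := false) (s1 := true) (s2 := false) (a := 2) (b := 0) (c := 2) (cn := .pp) (n1 := ndB2q2a) (n2 := ndB5q2) (pc := pcB0) (cut := Cut.none) (xt := Ext.none) (P1 := 0) (W1 := 536870912) (P2 := 1073741824) (W2 := 536870912) (P3 := 536870912) (W3 := 50465866) (N0 := 3) (En := eng) (mo := mog) (C1 := cd2q2a) (C2 := cd5q2) (C3 := pd0)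
    rfl (fun _ => rfl) k0_pm_202_a

noncomputable def f_pm_202_b : ℕ → ℕ → ℕ → ℕ → Bool := onCell 0 536870912 1073741824 536870912 536870912 50465866
    (rowB 3 eng mog cd2q2b cd5q2 pd0 2 false true false .pp 2 0 2 (qsf 1239849684 370763052 1073741824 536870912 0) ndB2q2b ndB5q2 pcB0 Cut.none Ext.none)

def k0_pm_202_b : ∃ t, chk3 f_pm_202_b t 1 1 1 = true :=
  ⟨(a (b (a (b (l 1) (a (b (a (b (l 408592125063) (l 16629104)) (l 437046263975)) (a (l 16584392) (l 16621280))) (b (l 1) (a (l 504692328375) (l 532609339815))))) (l 1)) (a (b (a (b (a (l 16474176) (l 16526032)) (l 16336592)) (b (a (l 16577480) (l 16623472)) (l 16460056))) (a (l 16256128) (b (l 16303504) (l 16339248)))) (b (b (a (l 473016892551) (l 1)) (a (l 326987944087) (l 471942686695))) (a (b (a (l 16351104) (l 16414576)) (l 16387968)) (b (l 16510392) (l 16414960)))))) (a (b (l 1) (b (l 1) (a (b (a (l 16604152) (l 441878232663)) (l 16484224)) (b (l 1) (l 411813363959))))) (l 1))), by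 decide +kernel⟩

theorem c_pm_202_b : CertB 1239849684 370763052 1073741824 536870912 536870912 50465866 3 eng mog cd2q2b cd5q2 pd0 false true false .pp 2 0 2
    ndB2q2b ndB5q2 pcB0 Cut.none Ext.none :=
  certB2 (fam := false) (s1 := true) (s2 := false) (a := 2) (b := 0) (c := 2) (cn := .pp) (n1 := ndB2q2b) (n2 := ndB5q2) (pc := pcB0) (cut := Cut.none) (xt := Ext.none) (P1 := 1239849684) (W1 := 370763052) (P2 := 1073741824) (W2 := 536870912) (P3 := 536870912) (W3 := 50465866) (N0 := 3) (En := eng) (mo := mog) (C1 := cd2q2b) (C2 := cd5q2) (C3 := pd0)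
    rfl (fun _ => rfl) k0_pm_202_b

noncomputable def f_pm_203_a : ℕ → ℕ → ℕ → ℕ → Bool := onCell 0 536870912 0 1230186008 536870912 50465866
    (rowB 3 eng mog cd2q2a cd5q3 pd0 0 false true false .up 2 0 3 (qsf 0 536870912 0 1230186008 0) ndB2q2a ndB5q3 pcB0 Cut.none Ext.none)

def k0_pm_203_a : ∃ t, chk3 f_pm_203_a t 1 1 1 = true :=
  ⟨(b (l 2) (b (l 2) (a (b (b (l 2) (a (b (l 2) (l 16730504)) (a (l 16776392) (l 16815480)))) (b (a (a (l 16696848) (l 16730152)) (a (l 16770312) (l 16841144))) (a (b (l 16658544) (l 16567208)) (b (l 16757064) (l 16711120))))) (b (l 2) (a (b (l 16979008) (b (a (l 16859800) (l 16964496)) (l 16865040))) (b (a (l 17138680) (l 2)) (a (l 17096240) (l 17167512)))))))), by decide +kernel⟩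

theorem c_pm_203_a : CertB 0 536870912 0 1230186008 536870912 50465866 3 eng mog cd2q2a cd5q3 pd0 false true false .up 2 0 3
    ndB2q2a ndB5q3 pcB0 Cut.none Ext.none :=
  certB0 (fam := false) (s1 := true) (s2 := false) (a := 2) (b := 0) (c := 3) (cn := .up) (n1 := ndB2q2a) (n2 := ndB5q3) (pc := pcB0) (cut := Cut.none) (xt := Ext.none) (P1 := 0) (W1 := 536870912) (P2 := 0) (W2 := 1230186008) (P3 := 536870912) (W3 := 50465866) (N0 := 3) (En := eng) (mo := mog) (C1 := cd2q2a) (C2 := cd5q3) (C3 := pd0)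
    rfl k0_pm_203_a

noncomputable def f_pm_203_b : ℕ → ℕ → ℕ → ℕ → Bool := onCell 0 536870912 0 1230186008 536870912 50465866
    (rowB 3 eng mog cd2q2b cd5q3 pd0 2 false true false .up 2 0 3 (qsf 1239849684 370763052 0 1230186008 0) ndB2q2b ndB5q3 pcB0 Cut.none Ext.none)

def k0_pm_203_b : ∃ t, chk3 f_pm_203_b t 1 1 1 = true :=
  ⟨(b (l 3) (b (a (l 3) (l 3)) (a (a (b (l 2) (b (a (l 2) (l 143511826567)) (a (l 264777535351) (b (l 16450704) (l 16434944))))) (b (b (l 3) (a (l 3) (l 153176257911))) (b (a (l 16557056) (l 16596560)) (a (l 16625936) (l 16506360))))) (a (b (b (l 3) (a (l 163913160791) (a (l 16652352) (l 16650864)))) (b (a (l 16554880) (b (l 16586728) (l 16548080))) (a (l 16514632) (l 16493576)))) (b (a (b (a (l 3) (l 182166882471)) (a (l 16651312) (l 16656880))) (b (a (l 178408789655) (l 16684136)) (a (l 16649304) (b (l 16690784) (l 16701664))))) (a (b (a (l 16597328) (l 16645056)) (l 320008544535)) (b (l 16880088) (l 1)))))))), by decide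 +kernel⟩

theorem c_pm_203_b : CertB 1239849684 370763052 0 1230186008 536870912 50465866 3 eng mog cd2q2b cd5q3 pd0 false true false .up 2 0 3
    ndB2q2b ndB5q3 pcB0 Cut.none Ext.none :=
  certB2 (fam := false) (s1 := true) (s2 := false) (a := 2) (b := 0) (c := 3) (cn := .up) (n1 := ndB2q2b) (n2 := ndB5q3) (pc := pcB0) (cut := Cut.none) (xt := Ext.none) (P1 := 1239849684) (W1 := 370763052) (P2 := 0) (W2 := 1230186008) (P3 := 536870912) (W3 := 50465866) (N0 := 3) (En := eng) (mo := mog) (C1 := cd2q2b) (C2 := cd5q3) (C3 := pd0)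
    rfl (fun _ => rfl) k0_pm_203_b

noncomputable def cut_pm_213_a : Cut := Cut.of [[⟨0, 1, 0, 67108864⟩, ⟨1, 1, 0, 67108864⟩, ⟨2, 2, 0, 16777216⟩]]

noncomputable def f_pm_213_a : ℕ → ℕ → ℕ → ℕ → Bool := onCell 0 536870912 0 1230186008 536870912 50465866
    (rowB 3 eng mog cd2q2a cd5q3 pd1 0 false true false .pnn 2 1 3 (qsf 0 536870912 0 1230186008 1) ndB2q2a ndB5q3 pcB1 cut_pm_213_a Ext.none)

def k0_pm_213_a : ∃ t, chk3 f_pm_213_a t 1 2 1 = true :=
  ⟨(a (b (l 3) (b (l 3) (a (l 3) (a (l 3) (b (a (l 3) (l 356650067239)) (l 212768882343)))))) (b (a (b (l 3) (a (l 3) (b (l 3) (a (l 3) (l 323364067991))))) (b (a (a (l 3) (l 6)) (l 6)) (a (b (a (l 337322706503) (b (l 233169775015) (l 207400000487))) (a (l 231022379255) (l 16788944))) (b (a (b (l 6) (l 16785400)) (l 16849272)) (a (l 16792120) (l 16794552)))))) (a (b (a (b (l 3) (a (l 3) (l 305110464423))) (b (a (l 313163524231) (l 238538581687)) (a (l 16834688) (l 16802632)))) (a (b (a (l 279340711543)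 (l 16797808)) (a (l 16806104) (l 16820744))) (b (a (l 16809880) (l 16818816)) (l 16960488)))) (b (a (b (a (l 16796720) (l 16799640)) (a (l 16808960) (l 16811480))) (b (a (l 16802104) (l 16804664)) (l 16815064))) (a (b (a (l 16821656) (l 16823880)) (l 16836128)) (l 16837744)))))), by decide +kernel⟩

def k1_pm_213_a : ∃ t, chk3 f_pm_213_a t 1 3 1 = true :=
  ⟨(b (a (b (a (b (l 3) (a (l 3) (b (l 286856838167) (l 269140124807)))) (b (a (a (l 271824465767) (l 16790856)) (a (l 16801648) (l 16815472))) (b (a (l 215990020183) (l 16828328)) (a (l 16805144) (l 16847344))))) (a (b (a (b (l 3) (l 309405408247)) (b (l 236390854519) (l 16788824))) (a (b (l 269140277095) (l 16773096)) (b (l 16795896) (l 16798056)))) (b (a (b (l 16817576) (l 16826640)) (l 16944480)) (a (l 16931048) (l 16898400))))) (a (b (a (b (l 16857528) (l 16924352)) (l 16851272)) (b (l 16905672) (a (l 16892608) (l 16884256)))) (b (a (l 16861080) (l 16871728)) (a (a (l 16885352) (l 16893184))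 (l 16902792))))) (a (b (a (b (a (b (l 16769480) (l 16759752)) (l 16778832)) (a (b (l 16748072) (l 16747584)) (l 16774200))) (b (l 16856824) (a (l 16814640) (l 16868848)))) (b (a (l 1) (a (l 1) (l 16825880))) (l 1))) (b (a (b (l 17101872) (b (l 17019912) (l 17008864))) (b (a (l 16922432) (l 16921680)) (a (l 16996752) (l 16958152)))) (a (b (l 16965120) (l 1)) (b (a (l 17133640) (l 17043016)) (a (l 17187608) (l 17193984))))))), by decide +kernel⟩

theorem s2_pm_213_a : ∃ t, chk3 f_pm_213_a t 1 1 1 = true := ex3_b k0_pm_213_a k1_pm_213_a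

theorem c_pm_213_a : CertB 0 536870912 0 1230186008 536870912 50465866 3 eng mog cd2q2a cd5q3 pd1 false true false .pnn 2 1 3
    ndB2q2a ndB5q3 pcB1 cut_pm_213_a Ext.none :=
  certB0 (fam := false) (s1 := true) (s2 := false) (a := 2) (b := 1) (c := 3) (cn := .pnn) (n1 := ndB2q2a) (n2 := ndB5q3) (pc := pcB1) (cut := cut_pm_213_a) (xt := Ext.none) (P1 := 0) (W1 := 536870912) (P2 := 0) (W2 := 1230186008) (P3 := 536870912) (W3 := 50465866) (N0 := 3) (En := eng) (mo := mog) (C1 := cd2q2a) (C2 := cd5q3) (C3 := pd1)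
    rfl s2_pm_213_a

noncomputable def cut_pm_213_b : Cut := Cut.of [[⟨0, 1, 0, 67108864⟩, ⟨1, 1, 0, 67108864⟩, ⟨2, 2, 0, 16777216⟩]]

noncomputable def f_pm_213_b : ℕ → ℕ → ℕ → ℕ → Bool := onCell 1239849684 370763052 0 1230186008 536870912 50465866
    (rowB 3 eng mog cd2q2b cd5q3 pd1 0 false true false .pnn 2 1 3 (qsf 1239849684 370763052 0 1230186008 1) ndB2q2b ndB5q3 pcB1 cut_pm_213_b Ext.none)

def k0_pm_213_b : ∃ t, chk3 f_pm_213_b t 1 1 1 = true :=
  ⟨(b (l 3) (b (a (b (l 3) (a (b (l 3) (a (b (l 3) (a (l 16755064) (l 16740368))) (l 3))) (l 3))) (l 3)) (a (b (a (b (a (b (a (l 16748328) (l 16729816)) (l 16726992)) (b (l 191294111991) (l 16844928))) (a (b (l 16719856) (l 16708824)) (l 1))) (l 1)) (l 1)) (l 1)))), by decide +kernel⟩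

theorem c_pm_213_b : CertB 1239849684 370763052 0 1230186008 536870912 50465866 3 eng mog cd2q2b cd5q3 pd1 false true false .pnn 2 1 3
    ndB2q2b ndB5q3 pcB1 cut_pm_213_b Ext.none :=
  certB0 (fam := false) (s1 := true) (s2 := false) (a := 2) (b := 1) (c := 3) (cn := .pnn) (n1 := ndB2q2b) (n2 := ndB5q3) (pc := pcB1) (cut := cut_pm_213_b) (xt := Ext.none) (P1 := 1239849684) (W1 := 370763052) (P2 := 0) (W2 := 1230186008) (P3 := 536870912) (W3 := 50465866) (N0 := 3) (En := eng) (mo := mog) (C1 := cd2q2b) (C2 := cd5q3) (C3 := pd1)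
    rfl k0_pm_213_b

noncomputable def f_pm_303 : ℕ → ℕ → ℕ → ℕ → Bool := onCell 0 536870912 0 1230186008 536870912 50465866
    (rowB 3 eng mog cd2q3 cd5q3 pd0 2 false true false .npn 3 0 3 (qsf 1610612736 536870912 0 1230186008 0) ndB2q3 ndB5q3 pcB0 Cut.none Ext.none)

def k0_pm_303 : ∃ t, chk3 f_pm_303 t 1 1 1 = true :=
  ⟨(b (l 3) (b (a (l 3) (l 3)) (a (a (b (l 3) (b (a (a (l 111836893479) (l 16516848)) (l 16505808)) (a (l 16355104) (b (l 16424456) (l 1))))) (b (b (l 3) (a (l 3) (l 1))) (b (a (l 16543192) (l 1)) (l 1)))) (l 1)))), by decide +kernel⟩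

theorem c_pm_303 : CertB 1610612736 536870912 0 1230186008 536870912 50465866 3 eng mog cd2q3 cd5q3 pd0 false true false .npn 3 0 3
    ndB2q3 ndB5q3 pcB0 Cut.none Ext.none :=
  certB2 (fam := false) (s1 := true) (s2 := false) (a := 3) (b := 0) (c := 3) (cn := .npn) (n1 := ndB2q3) (n2 := ndB5q3) (pc := pcB0) (cut := Cut.none) (xt := Ext.none) (P1 := 1610612736) (W1 := 536870912) (P2 := 0) (W2 := 1230186008) (P3 := 536870912) (W3 := 50465866) (N0 := 3) (En := eng) (mo := mog) (C1 := cd2q3) (C2 := cd5q3) (C3 := pd0)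
    rfl (fun _ => rfl) k0_pm_303

noncomputable def f_pm_313 : ℕ → ℕ → ℕ → ℕ → Bool := onCell 1610612736 536870912 0 1230186008 536870912 50465866
    (rowB 3 eng mog cd2q3 cd5q3 pd1 0 false true false .dn 3 1 3 (qsf 1610612736 536870912 0 1230186008 1) ndB2q3 ndB5q3 pcB1 Cut.none Ext.none)

def k0_pm_313 : ∃ t, chk3 f_pm_313 t 1 1 1 = true :=
  ⟨(b (l 3) (l 1)), by decide +kernel⟩

theorem c_pm_313 : CertB 1610612736 536870912 0 1230186008 536870912 50465866 3 eng mog cd2q3 cd5q3 pd1 false true false .dn 3 1 3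
    ndB2q3 ndB5q3 pcB1 Cut.none Ext.none :=
  certB0 (fam := false) (s1 := true) (s2 := false) (a := 3) (b := 1) (c := 3) (cn := .dn) (n1 := ndB2q3) (n2 := ndB5q3) (pc := pcB1) (cut := Cut.none) (xt := Ext.none) (P1 := 1610612736) (W1 := 536870912) (P2 := 0) (W2 := 1230186008) (P3 := 536870912) (W3 := 50465866) (N0 := 3) (En := eng) (mo := mog) (C1 := cd2q3) (C2 := cd5q3) (C3 := pd1)
    rfl k0_pm_313

noncomputable def f_mm_001 : ℕ → ℕ → ℕ → ℕ → Bool := onCell 0 536870912 0 536870912 536870912 50465866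
    (rowB 3 eng mog cd2q0 cd5q1 pd0 1 false false false .up 0 0 1 (qsf 0 536870912 536870912 536870912 0) ndB2q0 ndB5q1 pcB0 Cut.none Ext.none)

def k0_mm_001 : ∃ t, chk3 f_mm_001 t 1 1 1 = true :=
  ⟨(l 3), by decide +kernel⟩

theorem c_mm_001 : CertB 0 536870912 536870912 536870912 536870912 50465866 3 eng mog cd2q0 cd5q1 pd0 false false false .up 0 0 1
    ndB2q0 ndB5q1 pcB0 Cut.none Ext.none :=
  certB1 (fam := false) (s1 := false) (s2 := false) (a := 0) (b := 0) (c := 1) (cn := .up) (n1 := ndB2q0) (n2 := ndB5q1) (pc := pcB0) (cut := Cut.none) (xt := Ext.none) (P1 := 0) (W1 := 536870912) (P2 := 536870912) (W2 := 536870912) (P3 := 536870912) (W3 := 50465866) (N0 := 3) (En := eng) (mo := mog) (C1 := cd2q0) (C2 := cd5q1) (C3 := pd0)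
    rfl (fun _ => rfl) k0_mm_001

noncomputable def f_mm_011 : ℕ → ℕ → ℕ → ℕ → Bool := onCell 0 536870912 536870912 536870912 536870912 50465866
    (rowB 3 eng mog cd2q0 cd5q1 pd1 1 false false false .pnn 0 1 1 (qsf 0 536870912 536870912 536870912 1) ndB2q0 ndB5q1 pcB1 Cut.none Ext.none)

def k0_mm_011 : ∃ t, chk3 f_mm_011 t 1 1 1 = true :=
  ⟨(l 5), by decide +kernel⟩

theorem c_mm_011 : CertB 0 536870912 536870912 536870912 536870912 50465866 3 eng mog cd2q0 cd5q1 pd1 false false false .pnn 0 1 1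
    ndB2q0 ndB5q1 pcB1 Cut.none Ext.none :=
  certB1 (fam := false) (s1 := false) (s2 := false) (a := 0) (b := 1) (c := 1) (cn := .pnn) (n1 := ndB2q0) (n2 := ndB5q1) (pc := pcB1) (cut := Cut.none) (xt := Ext.none) (P1 := 0) (W1 := 536870912) (P2 := 536870912) (W2 := 536870912) (P3 := 536870912) (W3 := 50465866) (N0 := 3) (En := eng) (mo := mog) (C1 := cd2q0) (C2 := cd5q1) (C3 := pd1)
    rfl (fun _ => rfl) k0_mm_011

noncomputable def f_mm_012 : ℕ → ℕ → ℕ → ℕ → Bool := onCell 0 536870912 1073741824 536870912 536870912 50465866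
    (rowB 3 eng mog cd2q0 cd5q2 pd1 0 false false false .pnp 0 1 2 (qsf 0 536870912 1073741824 536870912 1) ndB2q0 ndB5q2 pcB1 Cut.none Ext.none)

def k0_mm_012 : ∃ t, chk3 f_mm_012 t 1 1 1 = true :=
  ⟨(l 5), by decide +kernel⟩

theorem c_mm_012 : CertB 0 536870912 1073741824 536870912 536870912 50465866 3 eng mog cd2q0 cd5q2 pd1 false false false .pnp 0 1 2
    ndB2q0 ndB5q2 pcB1 Cut.none Ext.none :=
  certB0 (fam := false) (s1 := false) (s2 := false) (a := 0) (b := 1) (c := 2) (cn := .pnp) (n1 := ndB2q0) (n2 := ndB5q2) (pc := pcB1) (cut := Cut.none) (xt := Ext.none) (P1 := 0) (W1 := 536870912) (P2 := 1073741824) (W2 := 536870912) (P3 := 536870912) (W3 := 50465866) (N0 := 3) (En := eng) (mo := mog) (C1 := cd2q0) (C2 := cd5q2) (C3 := pd1)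
    rfl k0_mm_012

noncomputable def f_mm_022 : ℕ → ℕ → ℕ → ℕ → Bool := onCell 0 536870912 1073741824 536870912 536870912 50465866
    (rowB 3 eng mog cd2q0 cd5q2 pd2 0 false false false .pp 0 2 2 (qsf 0 536870912 1073741824 536870912 2) ndB2q0 ndB5q2 pcB2 Cut.none Ext.none)

def k0_mm_022 : ∃ t, chk3 f_mm_022 t 1 1 1 = true :=
  ⟨(l 5), by decide +kernel⟩

theorem c_mm_022 : CertB 0 536870912 1073741824 536870912 536870912 50465866 3 eng mog cd2q0 cd5q2 pd2 false false false .pp 0 2 2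
    ndB2q0 ndB5q2 pcB2 Cut.none Ext.none :=
  certB0 (fam := false) (s1 := false) (s2 := false) (a := 0) (b := 2) (c := 2) (cn := .pp) (n1 := ndB2q0) (n2 := ndB5q2) (pc := pcB2) (cut := Cut.none) (xt := Ext.none) (P1 := 0) (W1 := 536870912) (P2 := 1073741824) (W2 := 536870912) (P3 := 536870912) (W3 := 50465866) (N0 := 3) (En := eng) (mo := mog) (C1 := cd2q0) (C2 := cd5q2) (C3 := pd2)
    rfl k0_mm_022

noncomputable def f_mm_023 : ℕ → ℕ → ℕ → ℕ → Bool := onCell 0 536870912 0 1230186008 536870912 50465866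
    (rowB 3 eng mog cd2q0 cd5q3 pd2 0 false false false .up 0 2 3 (qsf 0 536870912 0 1230186008 2) ndB2q0 ndB5q3 pcB2 Cut.none Ext.none)

def k0_mm_023 : ∃ t, chk3 f_mm_023 t 1 1 1 = true :=
  ⟨(l 5), by decide +kernel⟩

theorem c_mm_023 : CertB 0 536870912 0 1230186008 536870912 50465866 3 eng mog cd2q0 cd5q3 pd2 false false false .up 0 2 3
    ndB2q0 ndB5q3 pcB2 Cut.none Ext.none :=
  certB0 (fam := false) (s1 := false) (s2 := false) (a := 0) (b := 2) (c := 3) (cn := .up) (n1 := ndB2q0) (n2 := ndB5q3) (pc := pcB2) (cut := Cut.none) (xt := Ext.none) (P1 := 0) (W1 := 536870912) (P2 := 0) (W2 := 1230186008) (P3 := 536870912) (W3 := 50465866) (N0 := 3) (En := eng) (mo := mog) (C1 := cd2q0) (C2 := cd5q3) (C3 := pd2)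
    rfl k0_mm_023

noncomputable def f_mm_033 : ℕ → ℕ → ℕ → ℕ → Bool := onCell 0 536870912 0 1230186008 536870912 50465866
    (rowB 3 eng mog cd2q0 cd5q3 pd3 0 false false false .pnn 0 3 3 (qsf 0 536870912 0 1230186008 3) ndB2q0 ndB5q3 pcB3 Cut.none Ext.none)

def k0_mm_033 : ∃ t, chk3 f_mm_033 t 1 1 1 = true :=
  ⟨(l 5), by decide +kernel⟩

theorem c_mm_033 : CertB 0 536870912 0 1230186008 536870912 50465866 3 eng mog cd2q0 cd5q3 pd3 false false false .pnn 0 3 3
    ndB2q0 ndB5q3 pcB3 Cut.none Ext.none :=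
  certB0 (fam := false) (s1 := false) (s2 := false) (a := 0) (b := 3) (c := 3) (cn := .pnn) (n1 := ndB2q0) (n2 := ndB5q3) (pc := pcB3) (cut := Cut.none) (xt := Ext.none) (P1 := 0) (W1 := 536870912) (P2 := 0) (W2 := 1230186008) (P3 := 536870912) (W3 := 50465866) (N0 := 3) (En := eng) (mo := mog) (C1 := cd2q0) (C2 := cd5q3) (C3 := pd3)
    rfl k0_mm_033

noncomputable def f_mm_101 : ℕ → ℕ → ℕ → ℕ → Bool := onCell 536870912 536870912 536870912 536870912 536870912 50465866
    (rowB 3 eng mog cd2q1 cd5q1 pd0 0 false false false .npn 1 0 1 (qsf 536870912 536870912 536870912 536870912 0) ndB2q1 ndB5q1 pcB0 Cut.none Ext.none)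

def k0_mm_101 : ∃ t, chk3 f_mm_101 t 1 1 1 = true :=
  ⟨(l 3), by decide +kernel⟩

theorem c_mm_101 : CertB 536870912 536870912 536870912 536870912 536870912 50465866 3 eng mog cd2q1 cd5q1 pd0 false false false .npn 1 0 1
    ndB2q1 ndB5q1 pcB0 Cut.none Ext.none :=
  certB0 (fam := false) (s1 := false) (s2 := false) (a := 1) (b := 0) (c := 1) (cn := .npn) (n1 := ndB2q1) (n2 := ndB5q1) (pc := pcB0) (cut := Cut.none) (xt := Ext.none) (P1 := 536870912) (W1 := 536870912) (P2 := 536870912) (W2 := 536870912) (P3 := 536870912) (W3 := 50465866) (N0 := 3) (En := eng) (mo := mog) (C1 := cd2q1) (C2 := cd5q1) (C3 := pd0)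
    rfl k0_mm_101

noncomputable def f_mm_102 : ℕ → ℕ → ℕ → ℕ → Bool := onCell 536870912 536870912 1073741824 536870912 536870912 50465866
    (rowB 3 eng mog cd2q1 cd5q2 pd0 0 false false false .npp 1 0 2 (qsf 536870912 536870912 1073741824 536870912 0) ndB2q1 ndB5q2 pcB0 Cut.none Ext.none)

def k0_mm_102 : ∃ t, chk3 f_mm_102 t 1 1 1 = true :=
  ⟨(l 3), by decide +kernel⟩

theorem c_mm_102 : CertB 536870912 536870912 1073741824 536870912 536870912 50465866 3 eng mog cd2q1 cd5q2 pd0 false false false .npp 1 0 2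
    ndB2q1 ndB5q2 pcB0 Cut.none Ext.none :=
  certB0 (fam := false) (s1 := false) (s2 := false) (a := 1) (b := 0) (c := 2) (cn := .npp) (n1 := ndB2q1) (n2 := ndB5q2) (pc := pcB0) (cut := Cut.none) (xt := Ext.none) (P1 := 536870912) (W1 := 536870912) (P2 := 1073741824) (W2 := 536870912) (P3 := 536870912) (W3 := 50465866) (N0 := 3) (En := eng) (mo := mog) (C1 := cd2q1) (C2 := cd5q2) (C3 := pd0)
    rfl k0_mm_102

noncomputable def f_mm_112 : ℕ → ℕ → ℕ → ℕ → Bool := onCell 536870912 536870912 1073741824 536870912 536870912 50465866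
    (rowB 3 eng mog cd2q1 cd5q2 pd1 0 false false false .dn 1 1 2 (qsf 536870912 536870912 1073741824 536870912 1) ndB2q1 ndB5q2 pcB1 Cut.none Ext.none)

def k0_mm_112 : ∃ t, chk3 f_mm_112 t 1 1 1 = true :=
  ⟨(l 3), by decide +kernel⟩

theorem c_mm_112 : CertB 536870912 536870912 1073741824 536870912 536870912 50465866 3 eng mog cd2q1 cd5q2 pd1 false false false .dn 1 1 2
    ndB2q1 ndB5q2 pcB1 Cut.none Ext.none :=
  certB0 (fam := false) (s1 := false) (s2 := false) (a := 1) (b := 1) (c := 2) (cn := .dn) (n1 := ndB2q1) (n2 := ndB5q2) (pc := pcB1) (cut := Cut.none) (xt := Ext.none) (P1 := 536870912) (W1 := 536870912) (P2 := 1073741824) (W2 := 536870912) (P3 := 536870912) (W3 := 50465866) (N0 := 3) (En := eng) (mo := mog) (C1 := cd2q1) (C2 := cd5q2) (C3 := pd1)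
    rfl k0_mm_112

noncomputable def f_mm_113 : ℕ → ℕ → ℕ → ℕ → Bool := onCell 536870912 536870912 0 1230186008 536870912 50465866
    (rowB 3 eng mog cd2q1 cd5q3 pd1 0 false false false .nn 1 1 3 (qsf 536870912 536870912 0 1230186008 1) ndB2q1 ndB5q3 pcB1 Cut.none Ext.none)

def k0_mm_113 : ∃ t, chk3 f_mm_113 t 1 1 1 = true :=
  ⟨(l 5), by decide +kernel⟩

theorem c_mm_113 : CertB 536870912 536870912 0 1230186008 536870912 50465866 3 eng mog cd2q1 cd5q3 pd1 false false false .nn 1 1 3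
    ndB2q1 ndB5q3 pcB1 Cut.none Ext.none :=
  certB0 (fam := false) (s1 := false) (s2 := false) (a := 1) (b := 1) (c := 3) (cn := .nn) (n1 := ndB2q1) (n2 := ndB5q3) (pc := pcB1) (cut := Cut.none) (xt := Ext.none) (P1 := 536870912) (W1 := 536870912) (P2 := 0) (W2 := 1230186008) (P3 := 536870912) (W3 := 50465866) (N0 := 3) (En := eng) (mo := mog) (C1 := cd2q1) (C2 := cd5q3) (C3 := pd1)
    rfl k0_mm_113

noncomputable def f_mm_123 : ℕ → ℕ → ℕ → ℕ → Bool := onCell 536870912 536870912 0 1230186008 536870912 50465866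
    (rowB 3 eng mog cd2q1 cd5q3 pd2 0 false false false .npn 1 2 3 (qsf 536870912 536870912 0 1230186008 2) ndB2q1 ndB5q3 pcB2 Cut.none Ext.none)

def k0_mm_123 : ∃ t, chk3 f_mm_123 t 1 1 1 = true :=
  ⟨(l 5), by decide +kernel⟩

theorem c_mm_123 : CertB 536870912 536870912 0 1230186008 536870912 50465866 3 eng mog cd2q1 cd5q3 pd2 false false false .npn 1 2 3
    ndB2q1 ndB5q3 pcB2 Cut.none Ext.none :=
  certB0 (fam := false) (s1 := false) (s2 := false) (a := 1) (b := 2) (c := 3) (cn := .npn) (n1 := ndB2q1) (n2 := ndB5q3) (pc := pcB2) (cut := Cut.none) (xt := Ext.none) (P1 := 536870912) (W1 := 536870912) (P2 := 0) (W2 := 1230186008) (P3 := 536870912) (W3 := 50465866) (N0 := 3) (En := eng) (mo := mog) (C1 := cd2q1) (C2 := cd5q3) (C3 := pd2)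
    rfl k0_mm_123

noncomputable def f_mm_133 : ℕ → ℕ → ℕ → ℕ → Bool := onCell 536870912 536870912 0 1230186008 536870912 50465866
    (rowB 3 eng mog cd2q1 cd5q3 pd3 0 false false false .dn 1 3 3 (qsf 536870912 536870912 0 1230186008 3) ndB2q1 ndB5q3 pcB3 Cut.none Ext.none)

def k0_mm_133 : ∃ t, chk3 f_mm_133 t 1 1 1 = true :=
  ⟨(l 5), by decide +kernel⟩

theorem c_mm_133 : CertB 536870912 536870912 0 1230186008 536870912 50465866 3 eng mog cd2q1 cd5q3 pd3 false false false .dn 1 3 3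
    ndB2q1 ndB5q3 pcB3 Cut.none Ext.none :=
  certB0 (fam := false) (s1 := false) (s2 := false) (a := 1) (b := 3) (c := 3) (cn := .dn) (n1 := ndB2q1) (n2 := ndB5q3) (pc := pcB3) (cut := Cut.none) (xt := Ext.none) (P1 := 536870912) (W1 := 536870912) (P2 := 0) (W2 := 1230186008) (P3 := 536870912) (W3 := 50465866) (N0 := 3) (En := eng) (mo := mog) (C1 := cd2q1) (C2 := cd5q3) (C3 := pd3)
    rfl k0_mm_133

noncomputable def f_mm_202_a : ℕ → ℕ → ℕ → ℕ → Bool := onCell 0 536870912 0 536870912 536870912 50465866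
    (rowB 3 eng mog cd2q2a cd5q2 pd0 1 false false false .pp 2 0 2 (qsf 0 536870912 1073741824 536870912 0) ndB2q2a ndB5q2 pcB0 Cut.none Ext.none)

def k0_mm_202_a : ∃ t, chk3 f_mm_202_a t 1 1 1 = true :=
  ⟨(l 3), by decide +kernel⟩

theorem c_mm_202_a : CertB 0 536870912 1073741824 536870912 536870912 50465866 3 eng mog cd2q2a cd5q2 pd0 false false false .pp 2 0 2
    ndB2q2a ndB5q2 pcB0 Cut.none Ext.none :=
  certB1 (fam := false) (s1 := false) (s2 := false) (a := 2) (b := 0) (c := 2) (cn := .pp) (n1 := ndB2q2a) (n2 := ndB5q2) (pc := pcB0) (cut := Cut.none) (xt := Ext.none) (P1 := 0) (W1 := 536870912) (P2 := 1073741824) (W2 := 536870912) (P3 := 536870912) (W3 := 50465866) (N0 := 3) (En := eng) (mo := mog) (C1 := cd2q2a) (C2 := cd5q2) (C3 := pd0)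
    rfl (fun _ => rfl) k0_mm_202_a

noncomputable def f_mm_202_b : ℕ → ℕ → ℕ → ℕ → Bool := onCell 1239849684 370763052 1073741824 536870912 536870912 50465866
    (rowB 3 eng mog cd2q2b cd5q2 pd0 0 false false false .pp 2 0 2 (qsf 1239849684 370763052 1073741824 536870912 0) ndB2q2b ndB5q2 pcB0 Cut.none Ext.none)

def k0_mm_202_b : ∃ t, chk3 f_mm_202_b t 1 1 1 = true :=
  ⟨(b (a (b (l 1) (l 3)) (l 1)) (l 3)), by decide +kernel⟩

theorem c_mm_202_b : CertB 1239849684 370763052 1073741824 536870912 536870912 50465866 3 eng mog cd2q2b cd5q2 pd0 false false false .pp 2 0 2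
    ndB2q2b ndB5q2 pcB0 Cut.none Ext.none :=
  certB0 (fam := false) (s1 := false) (s2 := false) (a := 2) (b := 0) (c := 2) (cn := .pp) (n1 := ndB2q2b) (n2 := ndB5q2) (pc := pcB0) (cut := Cut.none) (xt := Ext.none) (P1 := 1239849684) (W1 := 370763052) (P2 := 1073741824) (W2 := 536870912) (P3 := 536870912) (W3 := 50465866) (N0 := 3) (En := eng) (mo := mog) (C1 := cd2q2b) (C2 := cd5q2) (C3 := pd0)
    rfl k0_mm_202_b

noncomputable def f_mm_203_a : ℕ → ℕ → ℕ → ℕ → Bool := onCell 0 536870912 0 1230186008 536870912 50465866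
    (rowB 3 eng mog cd2q2a cd5q3 pd0 0 false false false .up 2 0 3 (qsf 0 536870912 0 1230186008 0) ndB2q2a ndB5q3 pcB0 Cut.none Ext.none)

def k0_mm_203_a : ∃ t, chk3 f_mm_203_a t 1 1 1 = true :=
  ⟨(b (l 2) (l 3)), by decide +kernel⟩

theorem c_mm_203_a : CertB 0 536870912 0 1230186008 536870912 50465866 3 eng mog cd2q2a cd5q3 pd0 false false false .up 2 0 3
    ndB2q2a ndB5q3 pcB0 Cut.none Ext.none :=
  certB0 (fam := false) (s1 := false) (s2 := false) (a := 2) (b := 0) (c := 3) (cn := .up) (n1 := ndB2q2a) (n2 := ndB5q3) (pc := pcB0) (cut := Cut.none) (xt := Ext.none) (P1 := 0) (W1 := 536870912) (P2 := 0) (W2 := 1230186008) (P3 := 536870912) (W3 := 50465866) (N0 := 3) (En := eng) (mo := mog) (C1 := cd2q2a) (C2 := cd5q3) (C3 := pd0)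
    rfl k0_mm_203_a

noncomputable def f_mm_203_b : ℕ → ℕ → ℕ → ℕ → Bool := onCell 1239849684 370763052 0 1230186008 536870912 50465866
    (rowB 3 eng mog cd2q2b cd5q3 pd0 0 false false false .up 2 0 3 (qsf 1239849684 370763052 0 1230186008 0) ndB2q2b ndB5q3 pcB0 Cut.none Ext.none)

def k0_mm_203_b : ∃ t, chk3 f_mm_203_b t 1 1 1 = true :=
  ⟨(b (l 3) (l 3)), by decide +kernel⟩

theorem c_mm_203_b : CertB 1239849684 370763052 0 1230186008 536870912 50465866 3 eng mog cd2q2b cd5q3 pd0 false false false .up 2 0 3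
    ndB2q2b ndB5q3 pcB0 Cut.none Ext.none :=
  certB0 (fam := false) (s1 := false) (s2 := false) (a := 2) (b := 0) (c := 3) (cn := .up) (n1 := ndB2q2b) (n2 := ndB5q3) (pc := pcB0) (cut := Cut.none) (xt := Ext.none) (P1 := 1239849684) (W1 := 370763052) (P2 := 0) (W2 := 1230186008) (P3 := 536870912) (W3 := 50465866) (N0 := 3) (En := eng) (mo := mog) (C1 := cd2q2b) (C2 := cd5q3) (C3 := pd0)
    rfl k0_mm_203_b

noncomputable def f_mm_213_a : ℕ → ℕ → ℕ → ℕ → Bool := onCell 0 536870912 0 1230186008 536870912 50465866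
    (rowB 3 eng mog cd2q2a cd5q3 pd1 0 false false false .pnn 2 1 3 (qsf 0 536870912 0 1230186008 1) ndB2q2a ndB5q3 pcB1 Cut.none Ext.none)

def k0_mm_213_a : ∃ t, chk3 f_mm_213_a t 1 1 1 = true :=
  ⟨(b (a (l 3) (l 5)) (l 3)), by decide +kernel⟩

theorem c_mm_213_a : CertB 0 536870912 0 1230186008 536870912 50465866 3 eng mog cd2q2a cd5q3 pd1 false false false .pnn 2 1 3
    ndB2q2a ndB5q3 pcB1 Cut.none Ext.none :=
  certB0 (fam := false) (s1 := false) (s2 := false) (a := 2) (b := 1) (c := 3) (cn := .pnn) (n1 := ndB2q2a) (n2 := ndB5q3) (pc := pcB1) (cut := Cut.none) (xt := Ext.none) (P1 := 0) (W1 := 536870912) (P2 := 0) (W2 := 1230186008) (P3 := 536870912) (W3 := 50465866) (N0 := 3) (En := eng) (mo := mog) (C1 := cd2q2a) (C2 := cd5q3) (C3 := pd1)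
    rfl k0_mm_213_a

noncomputable def f_mm_213_b : ℕ → ℕ → ℕ → ℕ → Bool := onCell 1239849684 370763052 0 1230186008 536870912 50465866
    (rowB 3 eng mog cd2q2b cd5q3 pd1 0 false false false .pnn 2 1 3 (qsf 1239849684 370763052 0 1230186008 1) ndB2q2b ndB5q3 pcB1 Cut.none Ext.none)

def k0_mm_213_b : ∃ t, chk3 f_mm_213_b t 1 1 1 = true :=
  ⟨(b (l 3) (l 3)), by decide +kernel⟩

theorem c_mm_213_b : CertB 1239849684 370763052 0 1230186008 536870912 50465866 3 eng mog cd2q2b cd5q3 pd1 false false false .pnn 2 1 3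
    ndB2q2b ndB5q3 pcB1 Cut.none Ext.none :=
  certB0 (fam := false) (s1 := false) (s2 := false) (a := 2) (b := 1) (c := 3) (cn := .pnn) (n1 := ndB2q2b) (n2 := ndB5q3) (pc := pcB1) (cut := Cut.none) (xt := Ext.none) (P1 := 1239849684) (W1 := 370763052) (P2 := 0) (W2 := 1230186008) (P3 := 536870912) (W3 := 50465866) (N0 := 3) (En := eng) (mo := mog) (C1 := cd2q2b) (C2 := cd5q3) (C3 := pd1)
    rfl k0_mm_213_b

noncomputable def f_mm_303 : ℕ → ℕ → ℕ → ℕ → Bool := onCell 0 536870912 0 1230186008 536870912 50465866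
    (rowB 3 eng mog cd2q3 cd5q3 pd0 2 false false false .npn 3 0 3 (qsf 1610612736 536870912 0 1230186008 0) ndB2q3 ndB5q3 pcB0 Cut.none Ext.none)

def k0_mm_303 : ∃ t, chk3 f_mm_303 t 1 1 1 = true :=
  ⟨(b (l 3) (l 3)), by decide +kernel⟩

theorem c_mm_303 : CertB 1610612736 536870912 0 1230186008 536870912 50465866 3 eng mog cd2q3 cd5q3 pd0 false false false .npn 3 0 3
    ndB2q3 ndB5q3 pcB0 Cut.none Ext.none :=
  certB2 (fam := false) (s1 := false) (s2 := false) (a := 3) (b := 0) (c := 3) (cn := .npn) (n1 := ndB2q3) (n2 := ndB5q3) (pc := pcB0) (cut := Cut.none) (xt := Ext.none) (P1 := 1610612736) (W1 := 536870912) (P2 := 0) (W2 := 1230186008) (P3 := 536870912) (W3 := 50465866) (N0 := 3) (En := eng) (mo := mog) (C1 := cd2q3) (C2 := cd5q3) (C3 := pd0)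
    rfl (fun _ => rfl) k0_mm_303

noncomputable def f_mm_313 : ℕ → ℕ → ℕ → ℕ → Bool := onCell 1610612736 536870912 0 1230186008 536870912 50465866
    (rowB 3 eng mog cd2q3 cd5q3 pd1 0 false false false .dn 3 1 3 (qsf 1610612736 536870912 0 1230186008 1) ndB2q3 ndB5q3 pcB1 Cut.none Ext.none)

def k0_mm_313 : ∃ t, chk3 f_mm_313 t 1 1 1 = true :=
  ⟨(b (l 3) (l 1)), by decide +kernel⟩

theorem c_mm_313 : CertB 1610612736 536870912 0 1230186008 536870912 50465866 3 eng mog cd2q3 cd5q3 pd1 false false false .dn 3 1 3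
    ndB2q3 ndB5q3 pcB1 Cut.none Ext.none :=
  certB0 (fam := false) (s1 := false) (s2 := false) (a := 3) (b := 1) (c := 3) (cn := .dn) (n1 := ndB2q3) (n2 := ndB5q3) (pc := pcB1) (cut := Cut.none) (xt := Ext.none) (P1 := 1610612736) (W1 := 536870912) (P2 := 0) (W2 := 1230186008) (P3 := 536870912) (W3 := 50465866) (N0 := 3) (En := eng) (mo := mog) (C1 := cd2q3) (C2 := cd5q3) (C3 := pd1)
    rfl k0_mm_313

end Pool.Agent.Strip051.G.I5000_5470.Tab.C.BB25

namespace Pool.Agent.Strip051.G.I5000_5470.Tab.C.BB26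

open Pool.Agent.Strip051.PB Pool.Agent.Strip051.PB.T
open Pool.Agent.Strip051.G.I5000_5470.Tab

noncomputable def f_pp_001 : ℕ → ℕ → ℕ → ℕ → Bool := onCell 0 536870912 0 536870912 536870912 50465866
    (rowB 3 eng mog cd2q0 cd6q1 pd0 1 false true true .up 0 0 1 (qsf 0 536870912 536870912 536870912 0) ndB2q0 ndB6q1 pcB0 Cut.none Ext.none)

def k0_pp_001 : ∃ t, chk3 f_pp_001 t 1 1 1 = true :=
  ⟨(l 3), by decide +kernel⟩

theorem c_pp_001 : CertB 0 536870912 536870912 536870912 536870912 50465866 3 eng mog cd2q0 cd6q1 pd0 false true true .up 0 0 1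
    ndB2q0 ndB6q1 pcB0 Cut.none Ext.none :=
  certB1 (fam := false) (s1 := true) (s2 := true) (a := 0) (b := 0) (c := 1) (cn := .up) (n1 := ndB2q0) (n2 := ndB6q1) (pc := pcB0) (cut := Cut.none) (xt := Ext.none) (P1 := 0) (W1 := 536870912) (P2 := 536870912) (W2 := 536870912) (P3 := 536870912) (W3 := 50465866) (N0 := 3) (En := eng) (mo := mog) (C1 := cd2q0) (C2 := cd6q1) (C3 := pd0)
    rfl (fun _ => rfl) k0_pp_001

noncomputable def cut_pp_011 : Cut := Cut.of [[⟨0, 0, 0, 67108864⟩, ⟨1, 1, 0, 67108864⟩, ⟨2, 1, 0, 67108864⟩]]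

noncomputable def f_pp_011 : ℕ → ℕ → ℕ → ℕ → Bool := onCell 0 536870912 536870912 536870912 536870912 50465866
    (rowB 3 eng mog cd2q0 cd6q1 pd1 1 false true true .pnn 0 1 1 (qsf 0 536870912 536870912 536870912 1) ndB2q0 ndB6q1 pcB1 cut_pp_011 Ext.none)

def k0_pp_011 : ∃ t, chk3 f_pp_011 t 1 1 1 = true :=
  ⟨(b (l 3) (b (l 3) (a (b (l 3) (a (a (b (l 3) (a (l 6) (l 3))) (l 3)) (l 2))) (l 2)))), by decide +kernel⟩

theorem c_pp_011 : CertB 0 536870912 536870912 536870912 536870912 50465866 3 eng mog cd2q0 cd6q1 pd1 false true true .pnn 0 1 1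
    ndB2q0 ndB6q1 pcB1 cut_pp_011 Ext.none :=
  certB1 (fam := false) (s1 := true) (s2 := true) (a := 0) (b := 1) (c := 1) (cn := .pnn) (n1 := ndB2q0) (n2 := ndB6q1) (pc := pcB1) (cut := cut_pp_011) (xt := Ext.none) (P1 := 0) (W1 := 536870912) (P2 := 536870912) (W2 := 536870912) (P3 := 536870912) (W3 := 50465866) (N0 := 3) (En := eng) (mo := mog) (C1 := cd2q0) (C2 := cd6q1) (C3 := pd1)
    rfl (fun _ => rfl) k0_pp_011

noncomputable def cut_pp_012 : Cut := Cut.of [[⟨0, 0, 0, 67108864⟩, ⟨1, 1, 0, 67108864⟩, ⟨2, 1, 0, 67108864⟩]]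

noncomputable def f_pp_012 : ℕ → ℕ → ℕ → ℕ → Bool := onCell 0 536870912 536870912 536870912 536870912 50465866
    (rowB 3 eng mog cd2q0 cd6q2 pd1 1 false true true .pnp 0 1 2 (qsf 0 536870912 1073741824 536870912 1) ndB2q0 ndB6q2 pcB1 cut_pp_012 Ext.none)

def k0_pp_012 : ∃ t, chk3 f_pp_012 t 1 1 1 = true :=
  ⟨(b (l 3) (a (b (l 3) (b (l 3) (a (a (a (b (l 3) (l 6)) (l 3)) (l 3)) (l 3)))) (l 3))), by decide +kernel⟩

theorem c_pp_012 : CertB 0 536870912 1073741824 536870912 536870912 50465866 3 eng mog cd2q0 cd6q2 pd1 false true true .pnp 0 1 2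
    ndB2q0 ndB6q2 pcB1 cut_pp_012 Ext.none :=
  certB1 (fam := false) (s1 := true) (s2 := true) (a := 0) (b := 1) (c := 2) (cn := .pnp) (n1 := ndB2q0) (n2 := ndB6q2) (pc := pcB1) (cut := cut_pp_012) (xt := Ext.none) (P1 := 0) (W1 := 536870912) (P2 := 1073741824) (W2 := 536870912) (P3 := 536870912) (W3 := 50465866) (N0 := 3) (En := eng) (mo := mog) (C1 := cd2q0) (C2 := cd6q2) (C3 := pd1)
    rfl (fun _ => rfl) k0_pp_012

noncomputable def cut_pp_022 : Cut := Cut.of [[⟨0, 0, 0, 67108864⟩, ⟨1, 1, 0, 67108864⟩, ⟨2, 1, 0, 67108864⟩]]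

noncomputable def f_pp_022 : ℕ → ℕ → ℕ → ℕ → Bool := onCell 0 536870912 1073741824 536870912 536870912 50465866
    (rowB 3 eng mog cd2q0 cd6q2 pd2 1 false true true .pp 0 2 2 (qsf 0 536870912 1073741824 536870912 2) ndB2q0 ndB6q2 pcB2 cut_pp_022 Ext.none)

def k0_pp_022 : ∃ t, chk3 f_pp_022 t 2 8 1 = true :=
  ⟨(a (a (b (a (b (l 6) (a (l 6) (a (l 6) (a (l 6) (b (l 3) (l 116131855351)))))) (b (l 3) (a (b (l 3) (b (l 3) (l 164987098999))) (l 3)))) (a (b (a (a (l 6) (b (l 6) (l 16699296))) (a (b (a (l 6) (l 16725640)) (b (l 16711448) (l 16703344))) (b (b (a (l 16744240) (l 16737736)) (a (l 16725624) (l 16750672))) (l 16715528)))) (b (a (a (l 16695808) (l 16682984)) (b (l 16678368) (l 16691256))) (a (a (l 16658464) (l 16666680)) (l 16673896)))) (b (a (a (b (b (l 16743696) (l 16735696)) (b (a (l 16725680) (l 16729720)) (l 16735400))) (b (l 16747592) (b (l 16735752) (l 16727784)))) (b (l 3) (l 16743704))) (a (b (a (l 16707600) (a (l 16734728) (l 16717856)))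 (l 16695696)) (b (a (l 16723960) (l 16732048)) (a (b (l 16712040) (l 16704072)) (l 16737240))))))) (b (l 3) (b (l 3) (a (b (l 3) (a (l 16728400) (l 3))) (l 3))))) (l 3)), by decide +kernel⟩

def k1_pp_022 : ∃ t, chk3 f_pp_022 t 2 9 1 = true :=
  ⟨(a (b (a (a (a (b (a (l 16654816) (l 16642312)) (a (l 16601336) (l 16610000))) (b (c (l 16655944) (l 16654032)) (b (l 16630960) (l 16615008)))) (b (b (a (l 16679776) (a (l 16692200) (l 16721408))) (a (l 16663912) (l 16680576))) (a (b (l 16648064) (l 16632256)) (b (l 16664864) (l 16649184))))) (b (a (a (b (l 16733680) (l 16717952)) (l 16741784)) (b (l 3) (l 3))) (b (a (a (l 16702232) (l 16697344)) (l 16720128)) (a (a (l 16665664) (l 16681616)) (l 16725432))))) (a (a (b (a (l 16573624) (b (l 16599096) (l 16583248))) (a (l 16542096) (l 16580688))) (b (a (l 16608568) (l 16625608)) (a (l 16577088) (l 16594064)))) (b (a (a (l 16642144) (l 16658064)) (b (l 16688648) (l 16672600))) (a (a (l 16610496) (l 16626256))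 (b (l 16656496) (l 16640048)))))) (b (a (l 3) (l 3)) (a (b (a (b (l 16715640) (l 16699416)) (l 3)) (b (a (l 16682592) (l 16705768)) (a (l 16665504) (l 16688168)))) (b (l 3) (a (l 16780120) (l 3)))))), by decide +kernel⟩

def k2_pp_022 : ∃ t, chk3 f_pp_022 t 2 5 1 = true :=
  ⟨(b (b (b (a (a (a (a (b (l 16518912) (l 16503864)) (l 16549832)) (a (l 16545928) (l 16562552))) (a (b (l 16594432) (l 16578240)) (b (l 16623392) (l 16606544)))) (a (a (b (l 16647952) (l 16630080)) (b (l 16669936) (l 16651200))) (b (l 16700560) (l 16661384)))) (a (b (a (a (a (a (l 16485008) (l 16493568)) (l 16506200)) (a (l 16522664) (l 16538648))) (a (l 16561488) (l 16630456))) (a (b (a (a (l 16500016) (l 16495560)) (l 16519232)) (b (a (a (c (l 16498040) (l 16493040)) (l 16491320)) (l 16514408)) (a (a (b (b (b (l 16473320) (b (l 16473232) (l 16473312))) (l 16472712)) (l 16471296)) (a (b (b (b (l 16486424) (l 16486808)) (l 16486352)) (l 16484888)) (l 16514120))) (a (l 16504568)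 (l 16519280))))) (b (a (l 16548664) (l 16574544)) (b (a (l 16543064) (l 16568136)) (a (l 16540216) (l 16564768)))))) (b (a (a (l 16611656) (l 16632512)) (l 16663392)) (b (a (l 16607472) (l 16648976)) (a (b (l 16599776) (l 16595576)) (b (l 16641576) (l 16636672))))))) (a (a (a (b (a (a (l 16450544) (l 16459848)) (l 16471920)) (a (l 16445312) (l 16439536))) (a (l 16470408) (l 16484224))) (a (b (l 16521256) (l 16485192)) (l 16525616))) (a (l 16616768) (l 16597792)))) (a (a (a (b (a (b (l 16392344) (l 16358936)) (l 16410024)) (a (l 16306272) (l 16316424))) (b (l 16386152) (l 16330232))) (a (b (l 16428112) (l 16351672)) (l 16491824))) (a (a (l 16502048) (l 16461416)) (b (l 16517376) (l 16456496))))), by decide +kernel⟩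

def k3_pp_022 : ∃ t, chk3 f_pp_022 t 2 3 1 = true :=
  ⟨(a (b (a (b (a (a (l 16318008) (l 16300168)) (l 16394496)) (a (b (l 16144160) (l 16108456)) (b (l 16190448) (l 16156280)))) (b (a (l 16351216) (l 16344720)) (a (l 16215912) (l 16255928)))) (b (a (a (b (l 16078632) (l 16053536)) (b (l 16127128) (l 16101272))) (a (l 16163256) (l 16222992))) (a (a (l 16147216) (l 16092216)) (a (l 16211160) (l 2))))) (b (b (a (a (l 16356512) (l 16379304)) (l 16619432)) (a (a (l 16291128) (l 16333528)) (l 16417264))) (a (b (l 16480192) (l 2)) (l 2)))), by decide +kernel⟩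

def k4_pp_022 : ∃ t, chk3 f_pp_022 t 3 1 1 = true :=
  ⟨(a (b (b (l 3) (b (b (b (a (b (l 3) (l 16723176)) (l 3)) (b (a (l 16707024) (l 3)) (b (a (l 16694544) (l 16762248)) (a (b (l 16688288) (l 16684088)) (b (l 16757424) (l 16754224)))))) (a (l 16649000) (l 16723024))) (a (b (l 16578440) (l 16492672)) (b (l 16658552) (l 2))))) (b (b (a (b (l 16478528) (l 2)) (l 2)) (l 2)) (l 2))) (b (b (l 3) (b (b (b (l 3) (l 2)) (l 2)) (l 2))) (l 2))), by decide +kernel⟩

theorem s5_pp_022 : ∃ t, chk3 f_pp_022 t 2 4 1 = true := ex3_b k0_pp_022 k1_pp_022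

theorem s6_pp_022 : ∃ t, chk3 f_pp_022 t 2 2 1 = true := ex3_b s5_pp_022 k2_pp_022

theorem s7_pp_022 : ∃ t, chk3 f_pp_022 t 2 1 1 = true := ex3_b s6_pp_022 k3_pp_022

theorem s8_pp_022 : ∃ t, chk3 f_pp_022 t 1 1 1 = true := ex3_a s7_pp_022 k4_pp_022

theorem c_pp_022 : CertB 0 536870912 1073741824 536870912 536870912 50465866 3 eng mog cd2q0 cd6q2 pd2 false true true .pp 0 2 2
    ndB2q0 ndB6q2 pcB2 cut_pp_022 Ext.none :=
  certB1 (fam := false) (s1 := true) (s2 := true) (a := 0) (b := 2) (c := 2) (cn := .pp) (n1 := ndB2q0) (n2 := ndB6q2) (pc := pcB2) (cut := cut_pp_022) (xt := Ext.none) (P1 := 0) (W1 := 536870912) (P2 := 1073741824) (W2 := 536870912) (P3 := 536870912) (W3 := 50465866) (N0 := 3) (En := eng) (mo := mog) (C1 := cd2q0) (C2 := cd6q2) (C3 := pd2)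
    rfl (fun _ => rfl) s8_pp_022

noncomputable def f_pp_023 : ℕ → ℕ → ℕ → ℕ → Bool := onCell 1073741824 536870912 0 1230186008 536870912 50465866
    (rowB 3 eng mog cd2q0 cd6q3 pd2 2 false true true .up 0 2 3 (qsf 0 536870912 0 1230186008 2) ndB2q0 ndB6q3 pcB2 Cut.none Ext.none)

def k0_pp_023 : ∃ t, chk3 f_pp_023 t 1 1 1 = true :=
  ⟨(b (a (l 2) (a (l 2) (a (b (l 2) (l 16788360)) (b (l 16753128) (b (l 16783936) (l 16796208)))))) (b (a (a (l 2) (a (l 2) (b (l 2) (l 16725896)))) (a (b (l 16778992) (l 16754128)) (a (b (l 16797088) (l 16767376)) (b (l 16791384) (l 16777792))))) (a (b (a (l 2) (a (b (a (l 2) (l 16783496)) (a (a (l 16879600) (a (l 16855200) (a (l 16842216) (a (l 16836432) (l 16832248))))) (l 16798920))) (l 16731368))) (a (l 3) (a (a (a (l 3) (a (l 2814982576423) (b (a (l 16838624) (a (l 16832848) (l 16828952))) (a (l 3) (a (l 16793592) (l 16789128)))))) (b (l 16792880) (l 16746360))) (b (l 16674824) (l 16567304))))) (b (a (b (l 16706672)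 (l 16650696)) (b (l 16708800) (l 16628872))) (a (b (l 16551072) (b (l 16422936) (l 16380328))) (b (l 16474064) (b (l 16275760) (l 16245744)))))))), by decide +kernel⟩

theorem c_pp_023 : CertB 0 536870912 0 1230186008 536870912 50465866 3 eng mog cd2q0 cd6q3 pd2 false true true .up 0 2 3
    ndB2q0 ndB6q3 pcB2 Cut.none Ext.none :=
  certB2 (fam := false) (s1 := true) (s2 := true) (a := 0) (b := 2) (c := 3) (cn := .up) (n1 := ndB2q0) (n2 := ndB6q3) (pc := pcB2) (cut := Cut.none) (xt := Ext.none) (P1 := 0) (W1 := 536870912) (P2 := 0) (W2 := 1230186008) (P3 := 536870912) (W3 := 50465866) (N0 := 3) (En := eng) (mo := mog) (C1 := cd2q0) (C2 := cd6q3) (C3 := pd2)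
    rfl (fun _ => rfl) k0_pp_023

noncomputable def f_pp_033 : ℕ → ℕ → ℕ → ℕ → Bool := onCell 1610612736 536870912 0 1230186008 536870912 50465866
    (rowB 3 eng mog cd2q0 cd6q3 pd3 2 false true true .pnn 0 3 3 (qsf 0 536870912 0 1230186008 3) ndB2q0 ndB6q3 pcB3 Cut.none Ext.none)

def k0_pp_033 : ∃ t, chk3 f_pp_033 t 1 1 1 = true :=
  ⟨(b (b (a (a (a (l 16756096) (l 16752504)) (a (l 16743776) (l 16738400))) (a (a (l 16732136) (l 4)) (l 4))) (b (a (a (a (l 16783240) (l 16769408)) (a (l 16760536) (l 16755312))) (a (a (l 16749152) (l 16743152)) (a (l 16733256) (l 4)))) (a (a (a (l 16793064) (l 16788904)) (a (l 16774168) (l 16764752))) (a (a (l 16758936) (a (l 16757536) (l 16756584))) (a (a (l 16754080) (l 16753480)) (a (l 16747464) (l 1))))))) (b (a (a (b (a (l 16791240) (l 16789896)) (a (l 16757480) (l 16752512))) (b (a (l 16777704) (l 16767816)) (b (l 16753504) (l 16724144)))) (a (b (a (l 16762688) (l 16763456)) (b (l 16744040) (a (l 16715064)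 (l 1)))) (a (a (b (l 16869656) (l 1)) (l 1)) (l 1)))) (a (b (a (b (l 16686064) (l 16591736)) (b (l 16668200) (a (l 16568512) (l 1)))) (a (a (b (l 16423368) (l 206190810151)) (b (l 16392728) (l 542271759207))) (b (a (l 664679265559) (l 1)) (l 1)))) (l 1)))), by decide +kernel⟩

theorem c_pp_033 : CertB 0 536870912 0 1230186008 536870912 50465866 3 eng mog cd2q0 cd6q3 pd3 false true true .pnn 0 3 3
    ndB2q0 ndB6q3 pcB3 Cut.none Ext.none :=
  certB2 (fam := false) (s1 := true) (s2 := true) (a := 0) (b := 3) (c := 3) (cn := .pnn) (n1 := ndB2q0) (n2 := ndB6q3) (pc := pcB3) (cut := Cut.none) (xt := Ext.none) (P1 := 0) (W1 := 536870912) (P2 := 0) (W2 := 1230186008) (P3 := 536870912) (W3 := 50465866) (N0 := 3) (En := eng) (mo := mog) (C1 := cd2q0) (C2 := cd6q3) (C3 := pd3)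
    rfl (fun _ => rfl) k0_pp_033

noncomputable def f_pp_101 : ℕ → ℕ → ℕ → ℕ → Bool := onCell 536870912 536870912 536870912 536870912 536870912 50465866
    (rowB 3 eng mog cd2q1 cd6q1 pd0 0 false true true .npn 1 0 1 (qsf 536870912 536870912 536870912 536870912 0) ndB2q1 ndB6q1 pcB0 Cut.none Ext.none)

def k0_pp_101 : ∃ t, chk3 f_pp_101 t 1 1 1 = true :=
  ⟨(l 3), by decide +kernel⟩

theorem c_pp_101 : CertB 536870912 536870912 536870912 536870912 536870912 50465866 3 eng mog cd2q1 cd6q1 pd0 false true true .npn 1 0 1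
    ndB2q1 ndB6q1 pcB0 Cut.none Ext.none :=
  certB0 (fam := false) (s1 := true) (s2 := true) (a := 1) (b := 0) (c := 1) (cn := .npn) (n1 := ndB2q1) (n2 := ndB6q1) (pc := pcB0) (cut := Cut.none) (xt := Ext.none) (P1 := 536870912) (W1 := 536870912) (P2 := 536870912) (W2 := 536870912) (P3 := 536870912) (W3 := 50465866) (N0 := 3) (En := eng) (mo := mog) (C1 := cd2q1) (C2 := cd6q1) (C3 := pd0)
    rfl k0_pp_101

noncomputable def f_pp_102 : ℕ → ℕ → ℕ → ℕ → Bool := onCell 536870912 536870912 1073741824 536870912 536870912 50465866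
    (rowB 3 eng mog cd2q1 cd6q2 pd0 0 false true true .npp 1 0 2 (qsf 536870912 536870912 1073741824 536870912 0) ndB2q1 ndB6q2 pcB0 Cut.none Ext.none)

def k0_pp_102 : ∃ t, chk3 f_pp_102 t 1 1 1 = true :=
  ⟨(l 3), by decide +kernel⟩

theorem c_pp_102 : CertB 536870912 536870912 1073741824 536870912 536870912 50465866 3 eng mog cd2q1 cd6q2 pd0 false true true .npp 1 0 2
    ndB2q1 ndB6q2 pcB0 Cut.none Ext.none :=
  certB0 (fam := false) (s1 := true) (s2 := true) (a := 1) (b := 0) (c := 2) (cn := .npp) (n1 := ndB2q1) (n2 := ndB6q2) (pc := pcB0) (cut := Cut.none) (xt := Ext.none) (P1 := 536870912) (W1 := 536870912) (P2 := 1073741824) (W2 := 536870912) (P3 := 536870912) (W3 := 50465866) (N0 := 3) (En := eng) (mo := mog) (C1 := cd2q1) (C2 := cd6q2) (C3 := pd0)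
    rfl k0_pp_102

noncomputable def f_pp_112 : ℕ → ℕ → ℕ → ℕ → Bool := onCell 536870912 536870912 1073741824 536870912 536870912 50465866
    (rowB 3 eng mog cd2q1 cd6q2 pd1 0 false true true .dn 1 1 2 (qsf 536870912 536870912 1073741824 536870912 1) ndB2q1 ndB6q2 pcB1 Cut.none Ext.none)

def k0_pp_112 : ∃ t, chk3 f_pp_112 t 1 1 1 = true :=
  ⟨(l 3), by decide +kernel⟩

theorem c_pp_112 : CertB 536870912 536870912 1073741824 536870912 536870912 50465866 3 eng mog cd2q1 cd6q2 pd1 false true true .dn 1 1 2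
    ndB2q1 ndB6q2 pcB1 Cut.none Ext.none :=
  certB0 (fam := false) (s1 := true) (s2 := true) (a := 1) (b := 1) (c := 2) (cn := .dn) (n1 := ndB2q1) (n2 := ndB6q2) (pc := pcB1) (cut := Cut.none) (xt := Ext.none) (P1 := 536870912) (W1 := 536870912) (P2 := 1073741824) (W2 := 536870912) (P3 := 536870912) (W3 := 50465866) (N0 := 3) (En := eng) (mo := mog) (C1 := cd2q1) (C2 := cd6q2) (C3 := pd1)
    rfl k0_pp_112

noncomputable def f_pp_113 : ℕ → ℕ → ℕ → ℕ → Bool := onCell 536870912 536870912 0 1230186008 536870912 50465866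
    (rowB 3 eng mog cd2q1 cd6q3 pd1 2 false true true .nn 1 1 3 (qsf 536870912 536870912 0 1230186008 1) ndB2q1 ndB6q3 pcB1 Cut.none Ext.none)

def k0_pp_113 : ∃ t, chk3 f_pp_113 t 1 1 1 = true :=
  ⟨(b (a (l 2) (a (l 2) (b (a (l 2) (b (l 16779448) (l 864463130983))) (a (b (l 3) (l 3)) (b (a (l 363092945959) (l 16804912)) (l 420000901351)))))) (a (b (l 3) (l 3)) (b (l 3) (l 3)))), by decide +kernel⟩

theorem c_pp_113 : CertB 536870912 536870912 0 1230186008 536870912 50465866 3 eng mog cd2q1 cd6q3 pd1 false true true .nn 1 1 3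
    ndB2q1 ndB6q3 pcB1 Cut.none Ext.none :=
  certB2 (fam := false) (s1 := true) (s2 := true) (a := 1) (b := 1) (c := 3) (cn := .nn) (n1 := ndB2q1) (n2 := ndB6q3) (pc := pcB1) (cut := Cut.none) (xt := Ext.none) (P1 := 536870912) (W1 := 536870912) (P2 := 0) (W2 := 1230186008) (P3 := 536870912) (W3 := 50465866) (N0 := 3) (En := eng) (mo := mog) (C1 := cd2q1) (C2 := cd6q3) (C3 := pd1)
    rfl (fun _ => rfl) k0_pp_113

noncomputable def f_pp_123 : ℕ → ℕ → ℕ → ℕ → Bool := onCell 1073741824 536870912 0 1230186008 536870912 50465866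
    (rowB 3 eng mog cd2q1 cd6q3 pd2 2 false true true .npn 1 2 3 (qsf 536870912 536870912 0 1230186008 2) ndB2q1 ndB6q3 pcB2 Cut.none Ext.none)

def k0_pp_123 : ∃ t, chk3 f_pp_123 t 1 1 1 = true :=
  ⟨(b (b (a (a (a (l 16933688) (l 16764648)) (a (b (l 16758944) (l 16765512)) (l 16763800))) (a (b (l 16760136) (l 16790752)) (a (l 16760280) (l 16756552)))) (a (a (a (b (l 16802816) (a (l 16818848) (l 16813384))) (b (l 16802136) (a (l 16802048) (l 16796408)))) (a (b (l 16775928) (l 16891272)) (b (l 16774088) (l 16782088)))) (a (b (l 16805864) (l 16794888)) (a (l 16795472) (l 679712688791))))) (b (a (a (a (b (a (l 3) (l 363092538535)) (l 3)) (b (a (l 16803176) (l 16791456)) (a (l 417853870887) (b (l 16782072) (l 16848768))))) (a (b (a (a (l 16778536) (a (l 16773240) (l 16955848))) (l 16762800)) (a (a (b (l 16778400) (l 16799784)) (a (l 16795384) (b (l 16777984) (l 16820736)))) (l 16807016))) (b (l 16779880) (l 16777936)))) (a (b (l 16786216) (l 16754672))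 (a (b (l 16798096) (l 1)) (l 1)))) (a (a (a (l 3) (b (a (l 3) (b (l 16802504) (l 3))) (l 3))) (a (a (a (b (b (l 16831928) (l 16868152)) (l 3)) (b (a (b (l 16862080) (l 16894304)) (a (l 301755253719) (a (l 16896432) (l 321082565159)))) (l 1))) (b (l 353294820263) (l 1))) (b (l 16840024) (l 1)))) (l 1)))), by decide +kernel⟩

theorem c_pp_123 : CertB 536870912 536870912 0 1230186008 536870912 50465866 3 eng mog cd2q1 cd6q3 pd2 false true true .npn 1 2 3
    ndB2q1 ndB6q3 pcB2 Cut.none Ext.none :=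
  certB2 (fam := false) (s1 := true) (s2 := true) (a := 1) (b := 2) (c := 3) (cn := .npn) (n1 := ndB2q1) (n2 := ndB6q3) (pc := pcB2) (cut := Cut.none) (xt := Ext.none) (P1 := 536870912) (W1 := 536870912) (P2 := 0) (W2 := 1230186008) (P3 := 536870912) (W3 := 50465866) (N0 := 3) (En := eng) (mo := mog) (C1 := cd2q1) (C2 := cd6q3) (C3 := pd2)
    rfl (fun _ => rfl) k0_pp_123

noncomputable def f_pp_133 : ℕ → ℕ → ℕ → ℕ → Bool := onCell 1610612736 536870912 0 1230186008 536870912 50465866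
    (rowB 3 eng mog cd2q1 cd6q3 pd3 2 false true true .dn 1 3 3 (qsf 536870912 536870912 0 1230186008 3) ndB2q1 ndB6q3 pcB3 Cut.none Ext.none)

def k0_pp_133 : ∃ t, chk3 f_pp_133 t 1 1 1 = true :=
  ⟨(b (b (a (a (a (l 16756352) (l 1)) (l 1)) (l 1)) (l 1)) (l 1)), by decide +kernel⟩

theorem c_pp_133 : CertB 536870912 536870912 0 1230186008 536870912 50465866 3 eng mog cd2q1 cd6q3 pd3 false true true .dn 1 3 3
    ndB2q1 ndB6q3 pcB3 Cut.none Ext.none :=
  certB2 (fam := false) (s1 := true) (s2 := true) (a := 1) (b := 3) (c := 3) (cn := .dn) (n1 := ndB2q1) (n2 := ndB6q3) (pc := pcB3) (cut := Cut.none) (xt := Ext.none) (P1 := 536870912) (W1 := 536870912) (P2 := 0) (W2 := 1230186008) (P3 := 536870912) (W3 := 50465866) (N0 := 3) (En := eng) (mo := mog) (C1 := cd2q1) (C2 := cd6q3) (C3 := pd3)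
    rfl (fun _ => rfl) k0_pp_133

noncomputable def f_pp_202_a : ℕ → ℕ → ℕ → ℕ → Bool := onCell 0 536870912 1073741824 536870912 536870912 50465866
    (rowB 3 eng mog cd2q2a cd6q2 pd0 0 false true true .pp 2 0 2 (qsf 0 536870912 1073741824 536870912 0) ndB2q2a ndB6q2 pcB0 Cut.none Ext.none)

def k0_pp_202_a : ∃ t, chk3 f_pp_202_a t 1 1 1 = true :=
  ⟨(l 5), by decide +kernel⟩

theorem c_pp_202_a : CertB 0 536870912 1073741824 536870912 536870912 50465866 3 eng mog cd2q2a cd6q2 pd0 false true true .pp 2 0 2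
    ndB2q2a ndB6q2 pcB0 Cut.none Ext.none :=
  certB0 (fam := false) (s1 := true) (s2 := true) (a := 2) (b := 0) (c := 2) (cn := .pp) (n1 := ndB2q2a) (n2 := ndB6q2) (pc := pcB0) (cut := Cut.none) (xt := Ext.none) (P1 := 0) (W1 := 536870912) (P2 := 1073741824) (W2 := 536870912) (P3 := 536870912) (W3 := 50465866) (N0 := 3) (En := eng) (mo := mog) (C1 := cd2q2a) (C2 := cd6q2) (C3 := pd0)
    rfl k0_pp_202_a

noncomputable def f_pp_202_b : ℕ → ℕ → ℕ → ℕ → Bool := onCell 1239849684 370763052 1073741824 536870912 536870912 50465866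
    (rowB 3 eng mog cd2q2b cd6q2 pd0 0 false true true .pp 2 0 2 (qsf 1239849684 370763052 1073741824 536870912 0) ndB2q2b ndB6q2 pcB0 Cut.none Ext.none)

def k0_pp_202_b : ∃ t, chk3 f_pp_202_b t 1 1 1 = true :=
  ⟨(l 5), by decide +kernel⟩

theorem c_pp_202_b : CertB 1239849684 370763052 1073741824 536870912 536870912 50465866 3 eng mog cd2q2b cd6q2 pd0 false true true .pp 2 0 2
    ndB2q2b ndB6q2 pcB0 Cut.none Ext.none :=
  certB0 (fam := false) (s1 := true) (s2 := true) (a := 2) (b := 0) (c := 2) (cn := .pp) (n1 := ndB2q2b) (n2 := ndB6q2) (pc := pcB0) (cut := Cut.none) (xt := Ext.none) (P1 := 1239849684) (W1 := 370763052) (P2 := 1073741824) (W2 := 536870912) (P3 := 536870912) (W3 := 50465866) (N0 := 3) (En := eng) (mo := mog) (C1 := cd2q2b) (C2 := cd6q2) (C3 := pd0)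
    rfl k0_pp_202_b

noncomputable def f_pp_203_a : ℕ → ℕ → ℕ → ℕ → Bool := onCell 0 536870912 0 1230186008 536870912 50465866
    (rowB 3 eng mog cd2q2a cd6q3 pd0 0 false true true .up 2 0 3 (qsf 0 536870912 0 1230186008 0) ndB2q2a ndB6q3 pcB0 Cut.none Ext.none)

def k0_pp_203_a : ∃ t, chk3 f_pp_203_a t 1 1 1 = true :=
  ⟨(b (l 2) (b (l 2) (a (l 5) (l 3)))), by decide +kernel⟩

theorem c_pp_203_a : CertB 0 536870912 0 1230186008 536870912 50465866 3 eng mog cd2q2a cd6q3 pd0 false true true .up 2 0 3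
    ndB2q2a ndB6q3 pcB0 Cut.none Ext.none :=
  certB0 (fam := false) (s1 := true) (s2 := true) (a := 2) (b := 0) (c := 3) (cn := .up) (n1 := ndB2q2a) (n2 := ndB6q3) (pc := pcB0) (cut := Cut.none) (xt := Ext.none) (P1 := 0) (W1 := 536870912) (P2 := 0) (W2 := 1230186008) (P3 := 536870912) (W3 := 50465866) (N0 := 3) (En := eng) (mo := mog) (C1 := cd2q2a) (C2 := cd6q3) (C3 := pd0)
    rfl k0_pp_203_a

noncomputable def f_pp_203_b : ℕ → ℕ → ℕ → ℕ → Bool := onCell 1239849684 370763052 0 1230186008 536870912 50465866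
    (rowB 3 eng mog cd2q2b cd6q3 pd0 0 false true true .up 2 0 3 (qsf 1239849684 370763052 0 1230186008 0) ndB2q2b ndB6q3 pcB0 Cut.none Ext.none)

def k0_pp_203_b : ∃ t, chk3 f_pp_203_b t 1 1 1 = true :=
  ⟨(b (l 3) (l 5)), by decide +kernel⟩

theorem c_pp_203_b : CertB 1239849684 370763052 0 1230186008 536870912 50465866 3 eng mog cd2q2b cd6q3 pd0 false true true .up 2 0 3
    ndB2q2b ndB6q3 pcB0 Cut.none Ext.none :=
  certB0 (fam := false) (s1 := true) (s2 := true) (a := 2) (b := 0) (c := 3) (cn := .up) (n1 := ndB2q2b) (n2 := ndB6q3) (pc := pcB0) (cut := Cut.none) (xt := Ext.none) (P1 := 1239849684) (W1 := 370763052) (P2 := 0) (W2 := 1230186008) (P3 := 536870912) (W3 := 50465866) (N0 := 3) (En := eng) (mo := mog) (C1 := cd2q2b) (C2 := cd6q3) (C3 := pd0)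
    rfl k0_pp_203_b

noncomputable def cut_pp_213_a : Cut := Cut.of [[⟨0, 1, 0, 67108864⟩, ⟨1, 1, 0, 67108864⟩, ⟨2, 2, 0, 16777216⟩]]

noncomputable def f_pp_213_a : ℕ → ℕ → ℕ → ℕ → Bool := onCell 0 536870912 0 1230186008 536870912 50465866
    (rowB 3 eng mog cd2q2a cd6q3 pd1 0 false true true .pnn 2 1 3 (qsf 0 536870912 0 1230186008 1) ndB2q2a ndB6q3 pcB1 cut_pp_213_a Ext.none)

def k0_pp_213_a : ∃ t, chk3 f_pp_213_a t 1 1 1 = true :=
  ⟨(b (a (l 3) (b (a (l 3) (b (a (l 3) (l 6)) (l 3))) (l 3))) (b (l 3) (a (l 5) (l 3)))), by decide +kernel⟩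

theorem c_pp_213_a : CertB 0 536870912 0 1230186008 536870912 50465866 3 eng mog cd2q2a cd6q3 pd1 false true true .pnn 2 1 3
    ndB2q2a ndB6q3 pcB1 cut_pp_213_a Ext.none :=
  certB0 (fam := false) (s1 := true) (s2 := true) (a := 2) (b := 1) (c := 3) (cn := .pnn) (n1 := ndB2q2a) (n2 := ndB6q3) (pc := pcB1) (cut := cut_pp_213_a) (xt := Ext.none) (P1 := 0) (W1 := 536870912) (P2 := 0) (W2 := 1230186008) (P3 := 536870912) (W3 := 50465866) (N0 := 3) (En := eng) (mo := mog) (C1 := cd2q2a) (C2 := cd6q3) (C3 := pd1)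
    rfl k0_pp_213_a

noncomputable def cut_pp_213_b : Cut := Cut.of [[⟨0, 1, 0, 67108864⟩, ⟨1, 1, 0, 67108864⟩, ⟨2, 2, 0, 16777216⟩]]

noncomputable def f_pp_213_b : ℕ → ℕ → ℕ → ℕ → Bool := onCell 1239849684 370763052 0 1230186008 536870912 50465866
    (rowB 3 eng mog cd2q2b cd6q3 pd1 0 false true true .pnn 2 1 3 (qsf 1239849684 370763052 0 1230186008 1) ndB2q2b ndB6q3 pcB1 cut_pp_213_b Ext.none)

def k0_pp_213_b : ∃ t, chk3 f_pp_213_b t 1 1 1 = true :=
  ⟨(b (l 3) (l 5)), by decide +kernel⟩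

theorem c_pp_213_b : CertB 1239849684 370763052 0 1230186008 536870912 50465866 3 eng mog cd2q2b cd6q3 pd1 false true true .pnn 2 1 3
    ndB2q2b ndB6q3 pcB1 cut_pp_213_b Ext.none :=
  certB0 (fam := false) (s1 := true) (s2 := true) (a := 2) (b := 1) (c := 3) (cn := .pnn) (n1 := ndB2q2b) (n2 := ndB6q3) (pc := pcB1) (cut := cut_pp_213_b) (xt := Ext.none) (P1 := 1239849684) (W1 := 370763052) (P2 := 0) (W2 := 1230186008) (P3 := 536870912) (W3 := 50465866) (N0 := 3) (En := eng) (mo := mog) (C1 := cd2q2b) (C2 := cd6q3) (C3 := pd1)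
    rfl k0_pp_213_b

noncomputable def f_pp_303 : ℕ → ℕ → ℕ → ℕ → Bool := onCell 1610612736 536870912 0 1230186008 536870912 50465866
    (rowB 3 eng mog cd2q3 cd6q3 pd0 0 false true true .npn 3 0 3 (qsf 1610612736 536870912 0 1230186008 0) ndB2q3 ndB6q3 pcB0 Cut.none Ext.none)

def k0_pp_303 : ∃ t, chk3 f_pp_303 t 1 1 1 = true :=
  ⟨(b (l 3) (l 5)), by decide +kernel⟩

theorem c_pp_303 : CertB 1610612736 536870912 0 1230186008 536870912 50465866 3 eng mog cd2q3 cd6q3 pd0 false true true .npn 3 0 3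
    ndB2q3 ndB6q3 pcB0 Cut.none Ext.none :=
  certB0 (fam := false) (s1 := true) (s2 := true) (a := 3) (b := 0) (c := 3) (cn := .npn) (n1 := ndB2q3) (n2 := ndB6q3) (pc := pcB0) (cut := Cut.none) (xt := Ext.none) (P1 := 1610612736) (W1 := 536870912) (P2 := 0) (W2 := 1230186008) (P3 := 536870912) (W3 := 50465866) (N0 := 3) (En := eng) (mo := mog) (C1 := cd2q3) (C2 := cd6q3) (C3 := pd0)
    rfl k0_pp_303

noncomputable def f_pp_313 : ℕ → ℕ → ℕ → ℕ → Bool := onCell 1610612736 536870912 0 1230186008 536870912 50465866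
    (rowB 3 eng mog cd2q3 cd6q3 pd1 0 false true true .dn 3 1 3 (qsf 1610612736 536870912 0 1230186008 1) ndB2q3 ndB6q3 pcB1 Cut.none Ext.none)

def k0_pp_313 : ∃ t, chk3 f_pp_313 t 1 1 1 = true :=
  ⟨(b (l 3) (l 1)), by decide +kernel⟩

theorem c_pp_313 : CertB 1610612736 536870912 0 1230186008 536870912 50465866 3 eng mog cd2q3 cd6q3 pd1 false true true .dn 3 1 3
    ndB2q3 ndB6q3 pcB1 Cut.none Ext.none :=
  certB0 (fam := false) (s1 := true) (s2 := true) (a := 3) (b := 1) (c := 3) (cn := .dn) (n1 := ndB2q3) (n2 := ndB6q3) (pc := pcB1) (cut := Cut.none) (xt := Ext.none) (P1 := 1610612736) (W1 := 536870912) (P2 := 0) (W2 := 1230186008) (P3 := 536870912) (W3 := 50465866) (N0 := 3) (En := eng) (mo := mog) (C1 := cd2q3) (C2 := cd6q3) (C3 := pd1)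
    rfl k0_pp_313

noncomputable def f_pm_001 : ℕ → ℕ → ℕ → ℕ → Bool := onCell 0 536870912 536870912 536870912 536870912 50465866
    (rowB 3 eng mog cd2q0 cd6q1 pd0 0 false true false .up 0 0 1 (qsf 0 536870912 536870912 536870912 0) ndB2q0 ndB6q1 pcB0 Cut.none Ext.none)

def k0_pm_001 : ∃ t, chk3 f_pm_001 t 1 1 1 = true :=
  ⟨(l 4), by decide +kernel⟩

theorem c_pm_001 : CertB 0 536870912 536870912 536870912 536870912 50465866 3 eng mog cd2q0 cd6q1 pd0 false true false .up 0 0 1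
    ndB2q0 ndB6q1 pcB0 Cut.none Ext.none :=
  certB0 (fam := false) (s1 := true) (s2 := false) (a := 0) (b := 0) (c := 1) (cn := .up) (n1 := ndB2q0) (n2 := ndB6q1) (pc := pcB0) (cut := Cut.none) (xt := Ext.none) (P1 := 0) (W1 := 536870912) (P2 := 536870912) (W2 := 536870912) (P3 := 536870912) (W3 := 50465866) (N0 := 3) (En := eng) (mo := mog) (C1 := cd2q0) (C2 := cd6q1) (C3 := pd0)
    rfl k0_pm_001

noncomputable def f_pm_011 : ℕ → ℕ → ℕ → ℕ → Bool := onCell 0 536870912 536870912 536870912 536870912 50465866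
    (rowB 3 eng mog cd2q0 cd6q1 pd1 0 false true false .pnn 0 1 1 (qsf 0 536870912 536870912 536870912 1) ndB2q0 ndB6q1 pcB1 Cut.none Ext.none)

def k0_pm_011 : ∃ t, chk3 f_pm_011 t 1 1 1 = true :=
  ⟨(l 4), by decide +kernel⟩

theorem c_pm_011 : CertB 0 536870912 536870912 536870912 536870912 50465866 3 eng mog cd2q0 cd6q1 pd1 false true false .pnn 0 1 1
    ndB2q0 ndB6q1 pcB1 Cut.none Ext.none :=
  certB0 (fam := false) (s1 := true) (s2 := false) (a := 0) (b := 1) (c := 1) (cn := .pnn) (n1 := ndB2q0) (n2 := ndB6q1) (pc := pcB1) (cut := Cut.none) (xt := Ext.none) (P1 := 0) (W1 := 536870912) (P2 := 536870912) (W2 := 536870912) (P3 := 536870912) (W3 := 50465866) (N0 := 3) (En := eng) (mo := mog) (C1 := cd2q0) (C2 := cd6q1) (C3 := pd1)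
    rfl k0_pm_011

noncomputable def f_pm_012 : ℕ → ℕ → ℕ → ℕ → Bool := onCell 0 536870912 1073741824 536870912 536870912 50465866
    (rowB 3 eng mog cd2q0 cd6q2 pd1 0 false true false .pnp 0 1 2 (qsf 0 536870912 1073741824 536870912 1) ndB2q0 ndB6q2 pcB1 Cut.none Ext.none)

def k0_pm_012 : ∃ t, chk3 f_pm_012 t 1 1 1 = true :=
  ⟨(l 4), by decide +kernel⟩

theorem c_pm_012 : CertB 0 536870912 1073741824 536870912 536870912 50465866 3 eng mog cd2q0 cd6q2 pd1 false true false .pnp 0 1 2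
    ndB2q0 ndB6q2 pcB1 Cut.none Ext.none :=
  certB0 (fam := false) (s1 := true) (s2 := false) (a := 0) (b := 1) (c := 2) (cn := .pnp) (n1 := ndB2q0) (n2 := ndB6q2) (pc := pcB1) (cut := Cut.none) (xt := Ext.none) (P1 := 0) (W1 := 536870912) (P2 := 1073741824) (W2 := 536870912) (P3 := 536870912) (W3 := 50465866) (N0 := 3) (En := eng) (mo := mog) (C1 := cd2q0) (C2 := cd6q2) (C3 := pd1)
    rfl k0_pm_012

noncomputable def f_pm_022 : ℕ → ℕ → ℕ → ℕ → Bool := onCell 0 536870912 1073741824 536870912 536870912 50465866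
    (rowB 3 eng mog cd2q0 cd6q2 pd2 0 false true false .pp 0 2 2 (qsf 0 536870912 1073741824 536870912 2) ndB2q0 ndB6q2 pcB2 Cut.none Ext.none)

def k0_pm_022 : ∃ t, chk3 f_pm_022 t 1 1 1 = true :=
  ⟨(l 4), by decide +kernel⟩

theorem c_pm_022 : CertB 0 536870912 1073741824 536870912 536870912 50465866 3 eng mog cd2q0 cd6q2 pd2 false true false .pp 0 2 2
    ndB2q0 ndB6q2 pcB2 Cut.none Ext.none :=
  certB0 (fam := false) (s1 := true) (s2 := false) (a := 0) (b := 2) (c := 2) (cn := .pp) (n1 := ndB2q0) (n2 := ndB6q2) (pc := pcB2) (cut := Cut.none) (xt := Ext.none) (P1 := 0) (W1 := 536870912) (P2 := 1073741824) (W2 := 536870912) (P3 := 536870912) (W3 := 50465866) (N0 := 3) (En := eng) (mo := mog) (C1 := cd2q0) (C2 := cd6q2) (C3 := pd2)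
    rfl k0_pm_022

noncomputable def f_pm_023 : ℕ → ℕ → ℕ → ℕ → Bool := onCell 0 536870912 0 1230186008 536870912 50465866
    (rowB 3 eng mog cd2q0 cd6q3 pd2 0 false true false .up 0 2 3 (qsf 0 536870912 0 1230186008 2) ndB2q0 ndB6q3 pcB2 Cut.none Ext.none)

def k0_pm_023 : ∃ t, chk3 f_pm_023 t 1 1 1 = true :=
  ⟨(b (b (a (l 2) (a (l 2) (a (l 2) (l 16748776)))) (l 4)) (l 4)), by decide +kernel⟩

theorem c_pm_023 : CertB 0 536870912 0 1230186008 536870912 50465866 3 eng mog cd2q0 cd6q3 pd2 false true false .up 0 2 3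
    ndB2q0 ndB6q3 pcB2 Cut.none Ext.none :=
  certB0 (fam := false) (s1 := true) (s2 := false) (a := 0) (b := 2) (c := 3) (cn := .up) (n1 := ndB2q0) (n2 := ndB6q3) (pc := pcB2) (cut := Cut.none) (xt := Ext.none) (P1 := 0) (W1 := 536870912) (P2 := 0) (W2 := 1230186008) (P3 := 536870912) (W3 := 50465866) (N0 := 3) (En := eng) (mo := mog) (C1 := cd2q0) (C2 := cd6q3) (C3 := pd2)
    rfl k0_pm_023

noncomputable def f_pm_033 : ℕ → ℕ → ℕ → ℕ → Bool := onCell 0 536870912 0 1230186008 536870912 50465866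
    (rowB 3 eng mog cd2q0 cd6q3 pd3 0 false true false .pnn 0 3 3 (qsf 0 536870912 0 1230186008 3) ndB2q0 ndB6q3 pcB3 Cut.none Ext.none)

def k0_pm_033 : ∃ t, chk3 f_pm_033 t 1 1 1 = true :=
  ⟨(b (a (l 4) (a (l 4) (b (a (l 4) (l 16751472)) (l 4)))) (l 4)), by decide +kernel⟩

theorem c_pm_033 : CertB 0 536870912 0 1230186008 536870912 50465866 3 eng mog cd2q0 cd6q3 pd3 false true false .pnn 0 3 3
    ndB2q0 ndB6q3 pcB3 Cut.none Ext.none :=
  certB0 (fam := false) (s1 := true) (s2 := false) (a := 0) (b := 3) (c := 3) (cn := .pnn) (n1 := ndB2q0) (n2 := ndB6q3) (pc := pcB3) (cut := Cut.none) (xt := Ext.none) (P1 := 0) (W1 := 536870912) (P2 := 0) (W2 := 1230186008) (P3 := 536870912) (W3 := 50465866) (N0 := 3) (En := eng) (mo := mog) (C1 := cd2q0) (C2 := cd6q3) (C3 := pd3)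
    rfl k0_pm_033

noncomputable def f_pm_101 : ℕ → ℕ → ℕ → ℕ → Bool := onCell 536870912 536870912 536870912 536870912 536870912 50465866
    (rowB 3 eng mog cd2q1 cd6q1 pd0 0 false true false .npn 1 0 1 (qsf 536870912 536870912 536870912 536870912 0) ndB2q1 ndB6q1 pcB0 Cut.none Ext.none)

def k0_pm_101 : ∃ t, chk3 f_pm_101 t 1 1 1 = true :=
  ⟨(l 4), by decide +kernel⟩

theorem c_pm_101 : CertB 536870912 536870912 536870912 536870912 536870912 50465866 3 eng mog cd2q1 cd6q1 pd0 false true false .npn 1 0 1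
    ndB2q1 ndB6q1 pcB0 Cut.none Ext.none :=
  certB0 (fam := false) (s1 := true) (s2 := false) (a := 1) (b := 0) (c := 1) (cn := .npn) (n1 := ndB2q1) (n2 := ndB6q1) (pc := pcB0) (cut := Cut.none) (xt := Ext.none) (P1 := 536870912) (W1 := 536870912) (P2 := 536870912) (W2 := 536870912) (P3 := 536870912) (W3 := 50465866) (N0 := 3) (En := eng) (mo := mog) (C1 := cd2q1) (C2 := cd6q1) (C3 := pd0)
    rfl k0_pm_101

noncomputable def f_pm_102 : ℕ → ℕ → ℕ → ℕ → Bool := onCell 536870912 536870912 1073741824 536870912 536870912 50465866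
    (rowB 3 eng mog cd2q1 cd6q2 pd0 0 false true false .npp 1 0 2 (qsf 536870912 536870912 1073741824 536870912 0) ndB2q1 ndB6q2 pcB0 Cut.none Ext.none)

def k0_pm_102 : ∃ t, chk3 f_pm_102 t 1 1 1 = true :=
  ⟨(l 4), by decide +kernel⟩

theorem c_pm_102 : CertB 536870912 536870912 1073741824 536870912 536870912 50465866 3 eng mog cd2q1 cd6q2 pd0 false true false .npp 1 0 2
    ndB2q1 ndB6q2 pcB0 Cut.none Ext.none :=
  certB0 (fam := false) (s1 := true) (s2 := false) (a := 1) (b := 0) (c := 2) (cn := .npp) (n1 := ndB2q1) (n2 := ndB6q2) (pc := pcB0) (cut := Cut.none) (xt := Ext.none) (P1 := 536870912) (W1 := 536870912) (P2 := 1073741824) (W2 := 536870912) (P3 := 536870912) (W3 := 50465866) (N0 := 3) (En := eng) (mo := mog) (C1 := cd2q1) (C2 := cd6q2) (C3 := pd0)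
    rfl k0_pm_102

noncomputable def f_pm_112 : ℕ → ℕ → ℕ → ℕ → Bool := onCell 536870912 536870912 1073741824 536870912 536870912 50465866
    (rowB 3 eng mog cd2q1 cd6q2 pd1 0 false true false .dn 1 1 2 (qsf 536870912 536870912 1073741824 536870912 1) ndB2q1 ndB6q2 pcB1 Cut.none Ext.none)

def k0_pm_112 : ∃ t, chk3 f_pm_112 t 1 1 1 = true :=
  ⟨(l 4), by decide +kernel⟩

theorem c_pm_112 : CertB 536870912 536870912 1073741824 536870912 536870912 50465866 3 eng mog cd2q1 cd6q2 pd1 false true false .dn 1 1 2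
    ndB2q1 ndB6q2 pcB1 Cut.none Ext.none :=
  certB0 (fam := false) (s1 := true) (s2 := false) (a := 1) (b := 1) (c := 2) (cn := .dn) (n1 := ndB2q1) (n2 := ndB6q2) (pc := pcB1) (cut := Cut.none) (xt := Ext.none) (P1 := 536870912) (W1 := 536870912) (P2 := 1073741824) (W2 := 536870912) (P3 := 536870912) (W3 := 50465866) (N0 := 3) (En := eng) (mo := mog) (C1 := cd2q1) (C2 := cd6q2) (C3 := pd1)
    rfl k0_pm_112

noncomputable def f_pm_113 : ℕ → ℕ → ℕ → ℕ → Bool := onCell 536870912 536870912 0 1230186008 536870912 50465866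
    (rowB 3 eng mog cd2q1 cd6q3 pd1 0 false true false .nn 1 1 3 (qsf 536870912 536870912 0 1230186008 1) ndB2q1 ndB6q3 pcB1 Cut.none Ext.none)

def k0_pm_113 : ∃ t, chk3 f_pm_113 t 1 1 1 = true :=
  ⟨(b (a (l 2) (a (l 2) (a (b (l 2) (l 16886632)) (b (l 16790656) (l 16850120))))) (b (a (l 4) (b (a (l 4) (l 16932992)) (l 4))) (l 4))), by decide +kernel⟩

theorem c_pm_113 : CertB 536870912 536870912 0 1230186008 536870912 50465866 3 eng mog cd2q1 cd6q3 pd1 false true false .nn 1 1 3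
    ndB2q1 ndB6q3 pcB1 Cut.none Ext.none :=
  certB0 (fam := false) (s1 := true) (s2 := false) (a := 1) (b := 1) (c := 3) (cn := .nn) (n1 := ndB2q1) (n2 := ndB6q3) (pc := pcB1) (cut := Cut.none) (xt := Ext.none) (P1 := 536870912) (W1 := 536870912) (P2 := 0) (W2 := 1230186008) (P3 := 536870912) (W3 := 50465866) (N0 := 3) (En := eng) (mo := mog) (C1 := cd2q1) (C2 := cd6q3) (C3 := pd1)
    rfl k0_pm_113

noncomputable def f_pm_123 : ℕ → ℕ → ℕ → ℕ → Bool := onCell 1073741824 536870912 0 1230186008 536870912 50465866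
    (rowB 3 eng mog cd2q1 cd6q3 pd2 2 false true false .npn 1 2 3 (qsf 536870912 536870912 0 1230186008 2) ndB2q1 ndB6q3 pcB2 Cut.none Ext.none)

def k0_pm_123 : ∃ t, chk3 f_pm_123 t 1 1 1 = true :=
  ⟨(b (b (a (a (b (l 16757008) (a (l 16783552) (l 16773880))) (a (l 16757872) (l 16763832))) (a (l 17024320) (l 16755768))) (a (a (b (l 16811208) (l 16888032)) (a (l 16842520) (l 16841872))) (a (l 17006744) (l 4)))) (a (b (l 4) (l 4)) (l 4))), by decide +kernel⟩

theorem c_pm_123 : CertB 536870912 536870912 0 1230186008 536870912 50465866 3 eng mog cd2q1 cd6q3 pd2 false true false .npn 1 2 3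
    ndB2q1 ndB6q3 pcB2 Cut.none Ext.none :=
  certB2 (fam := false) (s1 := true) (s2 := false) (a := 1) (b := 2) (c := 3) (cn := .npn) (n1 := ndB2q1) (n2 := ndB6q3) (pc := pcB2) (cut := Cut.none) (xt := Ext.none) (P1 := 536870912) (W1 := 536870912) (P2 := 0) (W2 := 1230186008) (P3 := 536870912) (W3 := 50465866) (N0 := 3) (En := eng) (mo := mog) (C1 := cd2q1) (C2 := cd6q3) (C3 := pd2)
    rfl (fun _ => rfl) k0_pm_123

noncomputable def f_pm_133 : ℕ → ℕ → ℕ → ℕ → Bool := onCell 1610612736 536870912 0 1230186008 536870912 50465866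
    (rowB 3 eng mog cd2q1 cd6q3 pd3 2 false true false .dn 1 3 3 (qsf 536870912 536870912 0 1230186008 3) ndB2q1 ndB6q3 pcB3 Cut.none Ext.none)

def k0_pm_133 : ∃ t, chk3 f_pm_133 t 1 1 1 = true :=
  ⟨(b (a (a (b (l 16749008) (l 1)) (l 1)) (l 1)) (l 1)), by decide +kernel⟩

theorem c_pm_133 : CertB 536870912 536870912 0 1230186008 536870912 50465866 3 eng mog cd2q1 cd6q3 pd3 false true false .dn 1 3 3
    ndB2q1 ndB6q3 pcB3 Cut.none Ext.none :=
  certB2 (fam := false) (s1 := true) (s2 := false) (a := 1) (b := 3) (c := 3) (cn := .dn) (n1 := ndB2q1) (n2 := ndB6q3) (pc := pcB3) (cut := Cut.none) (xt := Ext.none) (P1 := 536870912) (W1 := 536870912) (P2 := 0) (W2 := 1230186008) (P3 := 536870912) (W3 := 50465866) (N0 := 3) (En := eng) (mo := mog) (C1 := cd2q1) (C2 := cd6q3) (C3 := pd3)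
    rfl (fun _ => rfl) k0_pm_133

noncomputable def f_pm_202_a : ℕ → ℕ → ℕ → ℕ → Bool := onCell 0 536870912 1073741824 536870912 536870912 50465866
    (rowB 3 eng mog cd2q2a cd6q2 pd0 0 false true false .pp 2 0 2 (qsf 0 536870912 1073741824 536870912 0) ndB2q2a ndB6q2 pcB0 Cut.none Ext.none)

def k0_pm_202_a : ∃ t, chk3 f_pm_202_a t 1 1 1 = true :=
  ⟨(a (b (a (b (l 1) (b (b (l 16621384) (l 16662056)) (l 16690288))) (a (b (l 1) (b (l 16639568) (l 16687064))) (b (l 4) (b (l 16642672) (l 16686376))))) (b (b (a (l 16883272) (l 16741944)) (a (b (l 16771632) (l 16793272)) (l 16802504))) (b (a (l 16816672) (b (l 16844992) (l 16870952))) (a (b (l 16837200) (l 16862704)) (a (l 16888752) (l 16913328)))))) (b (b (l 4) (a (b (l 4) (a (l 16696488) (l 4))) (l 4))) (a (b (b (a (l 16766328) (l 16780312)) (a (l 16828592) (l 16810704))) (b (a (l 16871624) (l 16845688)) (b (l 16850208) (l 16852232)))) (b (b (l 4) (a (l 16805712) (l 4))) (b (a (l 16832896) (l 16832288))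 (a (l 16921920) (l 17028240))))))), by decide +kernel⟩

theorem c_pm_202_a : CertB 0 536870912 1073741824 536870912 536870912 50465866 3 eng mog cd2q2a cd6q2 pd0 false true false .pp 2 0 2
    ndB2q2a ndB6q2 pcB0 Cut.none Ext.none :=
  certB0 (fam := false) (s1 := true) (s2 := false) (a := 2) (b := 0) (c := 2) (cn := .pp) (n1 := ndB2q2a) (n2 := ndB6q2) (pc := pcB0) (cut := Cut.none) (xt := Ext.none) (P1 := 0) (W1 := 536870912) (P2 := 1073741824) (W2 := 536870912) (P3 := 536870912) (W3 := 50465866) (N0 := 3) (En := eng) (mo := mog) (C1 := cd2q2a) (C2 := cd6q2) (C3 := pd0)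
    rfl k0_pm_202_a

noncomputable def f_pm_202_b : ℕ → ℕ → ℕ → ℕ → Bool := onCell 0 536870912 1073741824 536870912 536870912 50465866
    (rowB 3 eng mog cd2q2b cd6q2 pd0 2 false true false .pp 2 0 2 (qsf 1239849684 370763052 1073741824 536870912 0) ndB2q2b ndB6q2 pcB0 Cut.none Ext.none)

def k0_pm_202_b : ∃ t, chk3 f_pm_202_b t 1 1 1 = true :=
  ⟨(a (b (a (b (l 1) (b (a (l 577706929719) (l 1)) (a (l 16676272) (l 508450329399)))) (l 1)) (b (a (b (a (l 16674864) (l 16713720)) (a (l 16642664) (l 16697152))) (b (a (l 570190393991) (l 1)) (a (l 16747552) (l 16810112)))) (a (a (l 16477832) (b (l 16636192) (l 16489648))) (b (a (l 16706880) (l 16767576)) (a (l 16600456) (l 16692104)))))) (a (b (l 1) (b (l 1) (b (a (l 418256626455) (l 1)) (a (l 16769672) (l 16886016))))) (l 1))), by decide +kernel⟩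

theorem c_pm_202_b : CertB 1239849684 370763052 1073741824 536870912 536870912 50465866 3 eng mog cd2q2b cd6q2 pd0 false true false .pp 2 0 2
    ndB2q2b ndB6q2 pcB0 Cut.none Ext.none :=
  certB2 (fam := false) (s1 := true) (s2 := false) (a := 2) (b := 0) (c := 2) (cn := .pp) (n1 := ndB2q2b) (n2 := ndB6q2) (pc := pcB0) (cut := Cut.none) (xt := Ext.none) (P1 := 1239849684) (W1 := 370763052) (P2 := 1073741824) (W2 := 536870912) (P3 := 536870912) (W3 := 50465866) (N0 := 3) (En := eng) (mo := mog) (C1 := cd2q2b) (C2 := cd6q2) (C3 := pd0)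
    rfl (fun _ => rfl) k0_pm_202_b

noncomputable def f_pm_203_a : ℕ → ℕ → ℕ → ℕ → Bool := onCell 0 536870912 0 1230186008 536870912 50465866
    (rowB 3 eng mog cd2q2a cd6q3 pd0 0 false true false .up 2 0 3 (qsf 0 536870912 0 1230186008 0) ndB2q2a ndB6q3 pcB0 Cut.none Ext.none)

def k0_pm_203_a : ∃ t, chk3 f_pm_203_a t 1 1 1 = true :=
  ⟨(b (l 2) (b (l 2) (a (b (b (l 2) (a (l 16926464) (l 16940360))) (b (a (l 16982048) (b (l 16934672) (l 16924256))) (a (l 16878440) (b (l 16921656) (l 16919784))))) (b (l 2) (a (b (a (l 16894472) (b (l 2) (l 16882424))) (b (a (l 16890480) (l 16883576)) (a (l 16887856) (l 16875968)))) (b (a (b (l 2) (l 16877376)) (l 2)) (a (b (l 16878600) (l 16870936)) (b (l 16937872) (l 16873472))))))))), by decide +kernel⟩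

theorem c_pm_203_a : CertB 0 536870912 0 1230186008 536870912 50465866 3 eng mog cd2q2a cd6q3 pd0 false true false .up 2 0 3
    ndB2q2a ndB6q3 pcB0 Cut.none Ext.none :=
  certB0 (fam := false) (s1 := true) (s2 := false) (a := 2) (b := 0) (c := 3) (cn := .up) (n1 := ndB2q2a) (n2 := ndB6q3) (pc := pcB0) (cut := Cut.none) (xt := Ext.none) (P1 := 0) (W1 := 536870912) (P2 := 0) (W2 := 1230186008) (P3 := 536870912) (W3 := 50465866) (N0 := 3) (En := eng) (mo := mog) (C1 := cd2q2a) (C2 := cd6q3) (C3 := pd0)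
    rfl k0_pm_203_a

noncomputable def f_pm_203_b : ℕ → ℕ → ℕ → ℕ → Bool := onCell 0 536870912 0 1230186008 536870912 50465866
    (rowB 3 eng mog cd2q2b cd6q3 pd0 2 false true false .up 2 0 3 (qsf 1239849684 370763052 0 1230186008 0) ndB2q2b ndB6q3 pcB0 Cut.none Ext.none)

def k0_pm_203_b : ∃ t, chk3 f_pm_203_b t 1 1 1 = true :=
  ⟨(b (l 3) (b (a (a (l 2) (b (l 2) (a (l 2) (b (l 2) (l 505833534071))))) (a (b (l 3) (a (b (l 3) (l 16932520)) (b (l 16800576) (l 16762904)))) (a (b (l 3) (b (l 16798168) (l 16754496))) (b (l 3) (b (l 16789344) (a (l 16745688) (l 16740352))))))) (a (b (a (l 2) (b (b (a (l 2) (l 16726288)) (l 16946616)) (a (l 16694168) (l 16633664)))) (a (b (l 16473712) (l 16211728)) (b (a (l 16493160) (l 16502016)) (l 16438280)))) (a (b (b (a (l 16712840) (l 16709608)) (l 16636872)) (b (a (l 16531464) (l 16618392)) (a (l 16623592) (l 16781448)))) (b (b (l 16711712) (l 16736760)) (a (b (l 16796248) (l 483217852039)) (b (l 16946632) (l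 1)))))))), by decide +kernel⟩

theorem c_pm_203_b : CertB 1239849684 370763052 0 1230186008 536870912 50465866 3 eng mog cd2q2b cd6q3 pd0 false true false .up 2 0 3
    ndB2q2b ndB6q3 pcB0 Cut.none Ext.none :=
  certB2 (fam := false) (s1 := true) (s2 := false) (a := 2) (b := 0) (c := 3) (cn := .up) (n1 := ndB2q2b) (n2 := ndB6q3) (pc := pcB0) (cut := Cut.none) (xt := Ext.none) (P1 := 1239849684) (W1 := 370763052) (P2 := 0) (W2 := 1230186008) (P3 := 536870912) (W3 := 50465866) (N0 := 3) (En := eng) (mo := mog) (C1 := cd2q2b) (C2 := cd6q3) (C3 := pd0)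
    rfl (fun _ => rfl) k0_pm_203_b

noncomputable def cut_pm_213_a : Cut := Cut.of [[⟨0, 1, 0, 67108864⟩, ⟨1, 1, 0, 67108864⟩, ⟨2, 2, 0, 16777216⟩]]

noncomputable def f_pm_213_a : ℕ → ℕ → ℕ → ℕ → Bool := onCell 0 536870912 0 1230186008 536870912 50465866
    (rowB 3 eng mog cd2q2a cd6q3 pd1 0 false true false .pnn 2 1 3 (qsf 0 536870912 0 1230186008 1) ndB2q2a ndB6q3 pcB1 cut_pm_213_a Ext.none)

def k0_pm_213_a : ∃ t, chk3 f_pm_213_a t 1 2 1 = true :=
  ⟨(a (b (l 3) (b (a (l 3) (b (a (l 3) (b (l 3) (l 303499822647))) (a (b (l 3) (l 303499819863)) (b (l 261624041303) (l 16774440))))) (a (b (a (l 3) (b (l 345912624967) (l 320142826855))) (a (b (l 347523244359) (l 315310995575)) (b (l 268603333879) (l 16777416)))) (b (a (b (l 262697771591) (l 16775432)) (b (l 16774352) (l 16773496))) (a (b (l 16773360) (l 16772224)) (l 16776624)))))) (b (a (b (l 3) (a (b (l 3) (b (l 3) (l 314237243255))) (b (a (l 3) (l 314774182007)) (a (b (l 309405408743) (l 16775024))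 (b (l 16775824) (l 16778504)))))) (b (a (b (l 3) (a (l 335175257751) (l 6))) (l 6)) (a (b (a (b (l 248739000343) (l 16776976)) (l 16800064)) (a (l 16780984) (l 16784096))) (b (a (l 16824040) (l 16784400)) (a (l 16786720) (l 16790376)))))) (a (b (b (a (a (l 277193217175) (l 231022399415)) (a (l 16778216) (l 16781792))) (a (b (l 16776848) (l 16776848)) (a (l 16781128) (l 16784528)))) (b (a (l 16863968) (l 16785448)) (l 16784184))) (b (a (b (a (l 16785440) (l 16788504)) (l 16791128)) (l 16800464)) (a (l 16800536) (l 16817896)))))), by decide +kernel⟩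

def k1_pm_213_a : ∃ t, chk3 f_pm_213_a t 1 3 1 = true :=
  ⟨(b (a (b (a (b (a (b (l 16817696) (l 16783424)) (b (l 16776992) (l 16777960))) (a (b (l 16784240) (l 16788848)) (l 16778448))) (b (a (l 16774120) (l 16774376)) (l 16774264))) (a (b (l 16791288) (l 16820320)) (b (a (l 16774904) (l 16777520)) (l 16804664)))) (b (a (b (l 16787616) (l 16792296)) (b (l 16823264) (l 16828568))) (a (b (l 16792208) (l 16803296)) (b (l 16833224) (l 16835696))))) (a (b (b (a (a (l 16902824) (l 16884464)) (l 16855856)) (a (l 16924592) (a (l 16953952) (l 16924992)))) (b (a (l 1) (b (l 16976504) (l 1))) (l 1))) (b (a (b (l 16837704) (b (l 16882640) (l 16892528))) (b (b (l 16840960) (l 16852944)) (l 16870448))) (a (b (b (l 16891280) (b (l 16880656) (l 16870920))) (l 1)) (b (a (b (l 16878176) (l 16878088)) (l 16881808)) (a (b (l 16869960) (l 1)) (b (l 16871048) (l 16870176)))))))), by decide +kernel⟩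

theorem s2_pm_213_a : ∃ t, chk3 f_pm_213_a t 1 1 1 = true := ex3_b k0_pm_213_a k1_pm_213_a

theorem c_pm_213_a : CertB 0 536870912 0 1230186008 536870912 50465866 3 eng mog cd2q2a cd6q3 pd1 false true false .pnn 2 1 3
    ndB2q2a ndB6q3 pcB1 cut_pm_213_a Ext.none :=
  certB0 (fam := false) (s1 := true) (s2 := false) (a := 2) (b := 1) (c := 3) (cn := .pnn) (n1 := ndB2q2a) (n2 := ndB6q3) (pc := pcB1) (cut := cut_pm_213_a) (xt := Ext.none) (P1 := 0) (W1 := 536870912) (P2 := 0) (W2 := 1230186008) (P3 := 536870912) (W3 := 50465866) (N0 := 3) (En := eng) (mo := mog) (C1 := cd2q2a) (C2 := cd6q3) (C3 := pd1)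
    rfl s2_pm_213_a

noncomputable def cut_pm_213_b : Cut := Cut.of [[⟨0, 1, 0, 67108864⟩, ⟨1, 1, 0, 67108864⟩, ⟨2, 2, 0, 16777216⟩]]

noncomputable def f_pm_213_b : ℕ → ℕ → ℕ → ℕ → Bool := onCell 1239849684 370763052 0 1230186008 536870912 50465866
    (rowB 3 eng mog cd2q2b cd6q3 pd1 0 false true false .pnn 2 1 3 (qsf 1239849684 370763052 0 1230186008 1) ndB2q2b ndB6q3 pcB1 cut_pm_213_b Ext.none)

def k0_pm_213_b : ∃ t, chk3 f_pm_213_b t 1 1 1 = true :=
  ⟨(b (a (b (l 3) (a (b (l 3) (b (l 3) (l 3))) (l 3))) (l 3)) (b (a (b (a (b (a (b (a (l 256792100439) (l 299205033399)) (a (l 16776416) (l 16777496))) (b (l 3) (l 276656366471))) (a (b (l 16773136) (l 16777760)) (b (l 16780464) (l 16776264)))) (b (l 3) (a (b (l 16790224) (l 16787216)) (b (l 3) (l 16803552))))) (a (b (a (b (l 16790008) (l 16806592)) (l 16760192)) (l 16774720)) (a (b (l 16770320) (l 16742424)) (b (l 16910808) (l 1))))) (b (a (b (l 3) (l 3)) (l 1)) (l 1))) (a (b (a (b (l 16775072)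 (l 16768808)) (l 1)) (l 1)) (l 1)))), by decide +kernel⟩

theorem c_pm_213_b : CertB 1239849684 370763052 0 1230186008 536870912 50465866 3 eng mog cd2q2b cd6q3 pd1 false true false .pnn 2 1 3
    ndB2q2b ndB6q3 pcB1 cut_pm_213_b Ext.none :=
  certB0 (fam := false) (s1 := true) (s2 := false) (a := 2) (b := 1) (c := 3) (cn := .pnn) (n1 := ndB2q2b) (n2 := ndB6q3) (pc := pcB1) (cut := cut_pm_213_b) (xt := Ext.none) (P1 := 1239849684) (W1 := 370763052) (P2 := 0) (W2 := 1230186008) (P3 := 536870912) (W3 := 50465866) (N0 := 3) (En := eng) (mo := mog) (C1 := cd2q2b) (C2 := cd6q3) (C3 := pd1)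
    rfl k0_pm_213_b

noncomputable def f_pm_303 : ℕ → ℕ → ℕ → ℕ → Bool := onCell 0 536870912 0 1230186008 536870912 50465866
    (rowB 3 eng mog cd2q3 cd6q3 pd0 2 false true false .npn 3 0 3 (qsf 1610612736 536870912 0 1230186008 0) ndB2q3 ndB6q3 pcB0 Cut.none Ext.none)

def k0_pm_303 : ∃ t, chk3 f_pm_303 t 1 1 1 = true :=
  ⟨(b (l 3) (b (b (a (l 3) (a (l 3) (a (l 3) (l 1)))) (a (b (l 3) (a (l 133849025319) (a (l 16733408) (l 16827760)))) (a (a (b (l 3) (l 16836216)) (b (l 16770000) (l 1))) (l 1)))) (a (b (a (b (a (b (l 16685280) (l 16652472)) (b (l 16691320) (l 16745672))) (a (l 16586488) (l 16595608))) (b (b (a (l 16699632) (l 16709392)) (l 16822576)) (a (l 16610184) (l 1)))) (a (b (l 16439504) (l 16184816)) (b (a (l 16481568) (l 1)) (l 1)))) (l 1)))), by decide +kernel⟩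

theorem c_pm_303 : CertB 1610612736 536870912 0 1230186008 536870912 50465866 3 eng mog cd2q3 cd6q3 pd0 false true false .npn 3 0 3
    ndB2q3 ndB6q3 pcB0 Cut.none Ext.none :=
  certB2 (fam := false) (s1 := true) (s2 := false) (a := 3) (b := 0) (c := 3) (cn := .npn) (n1 := ndB2q3) (n2 := ndB6q3) (pc := pcB0) (cut := Cut.none) (xt := Ext.none) (P1 := 1610612736) (W1 := 536870912) (P2 := 0) (W2 := 1230186008) (P3 := 536870912) (W3 := 50465866) (N0 := 3) (En := eng) (mo := mog) (C1 := cd2q3) (C2 := cd6q3) (C3 := pd0)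
    rfl (fun _ => rfl) k0_pm_303

noncomputable def f_pm_313 : ℕ → ℕ → ℕ → ℕ → Bool := onCell 1610612736 536870912 0 1230186008 536870912 50465866
    (rowB 3 eng mog cd2q3 cd6q3 pd1 0 false true false .dn 3 1 3 (qsf 1610612736 536870912 0 1230186008 1) ndB2q3 ndB6q3 pcB1 Cut.none Ext.none)

def k0_pm_313 : ∃ t, chk3 f_pm_313 t 1 1 1 = true :=
  ⟨(b (l 3) (l 1)), by decide +kernel⟩

theorem c_pm_313 : CertB 1610612736 536870912 0 1230186008 536870912 50465866 3 eng mog cd2q3 cd6q3 pd1 false true false .dn 3 1 3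
    ndB2q3 ndB6q3 pcB1 Cut.none Ext.none :=
  certB0 (fam := false) (s1 := true) (s2 := false) (a := 3) (b := 1) (c := 3) (cn := .dn) (n1 := ndB2q3) (n2 := ndB6q3) (pc := pcB1) (cut := Cut.none) (xt := Ext.none) (P1 := 1610612736) (W1 := 536870912) (P2 := 0) (W2 := 1230186008) (P3 := 536870912) (W3 := 50465866) (N0 := 3) (En := eng) (mo := mog) (C1 := cd2q3) (C2 := cd6q3) (C3 := pd1)
    rfl k0_pm_313

noncomputable def f_mm_001 : ℕ → ℕ → ℕ → ℕ → Bool := onCell 0 536870912 0 536870912 536870912 50465866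
    (rowB 3 eng mog cd2q0 cd6q1 pd0 1 false false false .up 0 0 1 (qsf 0 536870912 536870912 536870912 0) ndB2q0 ndB6q1 pcB0 Cut.none Ext.none)

def k0_mm_001 : ∃ t, chk3 f_mm_001 t 1 1 1 = true :=
  ⟨(l 3), by decide +kernel⟩

theorem c_mm_001 : CertB 0 536870912 536870912 536870912 536870912 50465866 3 eng mog cd2q0 cd6q1 pd0 false false false .up 0 0 1
    ndB2q0 ndB6q1 pcB0 Cut.none Ext.none :=
  certB1 (fam := false) (s1 := false) (s2 := false) (a := 0) (b := 0) (c := 1) (cn := .up) (n1 := ndB2q0) (n2 := ndB6q1) (pc := pcB0) (cut := Cut.none) (xt := Ext.none) (P1 := 0) (W1 := 536870912) (P2 := 536870912) (W2 := 536870912) (P3 := 536870912) (W3 := 50465866) (N0 := 3) (En := eng) (mo := mog) (C1 := cd2q0) (C2 := cd6q1) (C3 := pd0)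
    rfl (fun _ => rfl) k0_mm_001

noncomputable def f_mm_011 : ℕ → ℕ → ℕ → ℕ → Bool := onCell 0 536870912 536870912 536870912 536870912 50465866
    (rowB 3 eng mog cd2q0 cd6q1 pd1 1 false false false .pnn 0 1 1 (qsf 0 536870912 536870912 536870912 1) ndB2q0 ndB6q1 pcB1 Cut.none Ext.none)

def k0_mm_011 : ∃ t, chk3 f_mm_011 t 1 1 1 = true :=
  ⟨(l 5), by decide +kernel⟩

theorem c_mm_011 : CertB 0 536870912 536870912 536870912 536870912 50465866 3 eng mog cd2q0 cd6q1 pd1 false false false .pnn 0 1 1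
    ndB2q0 ndB6q1 pcB1 Cut.none Ext.none :=
  certB1 (fam := false) (s1 := false) (s2 := false) (a := 0) (b := 1) (c := 1) (cn := .pnn) (n1 := ndB2q0) (n2 := ndB6q1) (pc := pcB1) (cut := Cut.none) (xt := Ext.none) (P1 := 0) (W1 := 536870912) (P2 := 536870912) (W2 := 536870912) (P3 := 536870912) (W3 := 50465866) (N0 := 3) (En := eng) (mo := mog) (C1 := cd2q0) (C2 := cd6q1) (C3 := pd1)
    rfl (fun _ => rfl) k0_mm_011

noncomputable def f_mm_012 : ℕ → ℕ → ℕ → ℕ → Bool := onCell 0 536870912 1073741824 536870912 536870912 50465866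
    (rowB 3 eng mog cd2q0 cd6q2 pd1 0 false false false .pnp 0 1 2 (qsf 0 536870912 1073741824 536870912 1) ndB2q0 ndB6q2 pcB1 Cut.none Ext.none)

def k0_mm_012 : ∃ t, chk3 f_mm_012 t 1 1 1 = true :=
  ⟨(l 5), by decide +kernel⟩

theorem c_mm_012 : CertB 0 536870912 1073741824 536870912 536870912 50465866 3 eng mog cd2q0 cd6q2 pd1 false false false .pnp 0 1 2
    ndB2q0 ndB6q2 pcB1 Cut.none Ext.none :=
  certB0 (fam := false) (s1 := false) (s2 := false) (a := 0) (b := 1) (c := 2) (cn := .pnp) (n1 := ndB2q0) (n2 := ndB6q2) (pc := pcB1) (cut := Cut.none) (xt := Ext.none) (P1 := 0) (W1 := 536870912) (P2 := 1073741824) (W2 := 536870912) (P3 := 536870912) (W3 := 50465866) (N0 := 3) (En := eng) (mo := mog) (C1 := cd2q0) (C2 := cd6q2) (C3 := pd1)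
    rfl k0_mm_012

noncomputable def f_mm_022 : ℕ → ℕ → ℕ → ℕ → Bool := onCell 0 536870912 1073741824 536870912 536870912 50465866
    (rowB 3 eng mog cd2q0 cd6q2 pd2 0 false false false .pp 0 2 2 (qsf 0 536870912 1073741824 536870912 2) ndB2q0 ndB6q2 pcB2 Cut.none Ext.none)

def k0_mm_022 : ∃ t, chk3 f_mm_022 t 1 1 1 = true :=
  ⟨(l 5), by decide +kernel⟩

theorem c_mm_022 : CertB 0 536870912 1073741824 536870912 536870912 50465866 3 eng mog cd2q0 cd6q2 pd2 false false false .pp 0 2 2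
    ndB2q0 ndB6q2 pcB2 Cut.none Ext.none :=
  certB0 (fam := false) (s1 := false) (s2 := false) (a := 0) (b := 2) (c := 2) (cn := .pp) (n1 := ndB2q0) (n2 := ndB6q2) (pc := pcB2) (cut := Cut.none) (xt := Ext.none) (P1 := 0) (W1 := 536870912) (P2 := 1073741824) (W2 := 536870912) (P3 := 536870912) (W3 := 50465866) (N0 := 3) (En := eng) (mo := mog) (C1 := cd2q0) (C2 := cd6q2) (C3 := pd2)
    rfl k0_mm_022

noncomputable def f_mm_023 : ℕ → ℕ → ℕ → ℕ → Bool := onCell 0 536870912 0 1230186008 536870912 50465866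
    (rowB 3 eng mog cd2q0 cd6q3 pd2 0 false false false .up 0 2 3 (qsf 0 536870912 0 1230186008 2) ndB2q0 ndB6q3 pcB2 Cut.none Ext.none)

def k0_mm_023 : ∃ t, chk3 f_mm_023 t 1 1 1 = true :=
  ⟨(l 5), by decide +kernel⟩

theorem c_mm_023 : CertB 0 536870912 0 1230186008 536870912 50465866 3 eng mog cd2q0 cd6q3 pd2 false false false .up 0 2 3
    ndB2q0 ndB6q3 pcB2 Cut.none Ext.none :=
  certB0 (fam := false) (s1 := false) (s2 := false) (a := 0) (b := 2) (c := 3) (cn := .up) (n1 := ndB2q0) (n2 := ndB6q3) (pc := pcB2) (cut := Cut.none) (xt := Ext.none) (P1 := 0) (W1 := 536870912) (P2 := 0) (W2 := 1230186008) (P3 := 536870912) (W3 := 50465866) (N0 := 3) (En := eng) (mo := mog) (C1 := cd2q0) (C2 := cd6q3) (C3 := pd2)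
    rfl k0_mm_023

noncomputable def f_mm_033 : ℕ → ℕ → ℕ → ℕ → Bool := onCell 0 536870912 0 1230186008 536870912 50465866
    (rowB 3 eng mog cd2q0 cd6q3 pd3 0 false false false .pnn 0 3 3 (qsf 0 536870912 0 1230186008 3) ndB2q0 ndB6q3 pcB3 Cut.none Ext.none)

def k0_mm_033 : ∃ t, chk3 f_mm_033 t 1 1 1 = true :=
  ⟨(l 5), by decide +kernel⟩

theorem c_mm_033 : CertB 0 536870912 0 1230186008 536870912 50465866 3 eng mog cd2q0 cd6q3 pd3 false false false .pnn 0 3 3
    ndB2q0 ndB6q3 pcB3 Cut.none Ext.none :=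
  certB0 (fam := false) (s1 := false) (s2 := false) (a := 0) (b := 3) (c := 3) (cn := .pnn) (n1 := ndB2q0) (n2 := ndB6q3) (pc := pcB3) (cut := Cut.none) (xt := Ext.none) (P1 := 0) (W1 := 536870912) (P2 := 0) (W2 := 1230186008) (P3 := 536870912) (W3 := 50465866) (N0 := 3) (En := eng) (mo := mog) (C1 := cd2q0) (C2 := cd6q3) (C3 := pd3)
    rfl k0_mm_033

noncomputable def f_mm_101 : ℕ → ℕ → ℕ → ℕ → Bool := onCell 536870912 536870912 536870912 536870912 536870912 50465866
    (rowB 3 eng mog cd2q1 cd6q1 pd0 0 false false false .npn 1 0 1 (qsf 536870912 536870912 536870912 536870912 0) ndB2q1 ndB6q1 pcB0 Cut.none Ext.none)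

def k0_mm_101 : ∃ t, chk3 f_mm_101 t 1 1 1 = true :=
  ⟨(l 3), by decide +kernel⟩

theorem c_mm_101 : CertB 536870912 536870912 536870912 536870912 536870912 50465866 3 eng mog cd2q1 cd6q1 pd0 false false false .npn 1 0 1
    ndB2q1 ndB6q1 pcB0 Cut.none Ext.none :=
  certB0 (fam := false) (s1 := false) (s2 := false) (a := 1) (b := 0) (c := 1) (cn := .npn) (n1 := ndB2q1) (n2 := ndB6q1) (pc := pcB0) (cut := Cut.none) (xt := Ext.none) (P1 := 536870912) (W1 := 536870912) (P2 := 536870912) (W2 := 536870912) (P3 := 536870912) (W3 := 50465866) (N0 := 3) (En := eng) (mo := mog) (C1 := cd2q1) (C2 := cd6q1) (C3 := pd0)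
    rfl k0_mm_101

noncomputable def f_mm_102 : ℕ → ℕ → ℕ → ℕ → Bool := onCell 536870912 536870912 1073741824 536870912 536870912 50465866
    (rowB 3 eng mog cd2q1 cd6q2 pd0 0 false false false .npp 1 0 2 (qsf 536870912 536870912 1073741824 536870912 0) ndB2q1 ndB6q2 pcB0 Cut.none Ext.none)

def k0_mm_102 : ∃ t, chk3 f_mm_102 t 1 1 1 = true :=
  ⟨(l 3), by decide +kernel⟩

theorem c_mm_102 : CertB 536870912 536870912 1073741824 536870912 536870912 50465866 3 eng mog cd2q1 cd6q2 pd0 false false false .npp 1 0 2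
    ndB2q1 ndB6q2 pcB0 Cut.none Ext.none :=
  certB0 (fam := false) (s1 := false) (s2 := false) (a := 1) (b := 0) (c := 2) (cn := .npp) (n1 := ndB2q1) (n2 := ndB6q2) (pc := pcB0) (cut := Cut.none) (xt := Ext.none) (P1 := 536870912) (W1 := 536870912) (P2 := 1073741824) (W2 := 536870912) (P3 := 536870912) (W3 := 50465866) (N0 := 3) (En := eng) (mo := mog) (C1 := cd2q1) (C2 := cd6q2) (C3 := pd0)
    rfl k0_mm_102

noncomputable def f_mm_112 : ℕ → ℕ → ℕ → ℕ → Bool := onCell 536870912 536870912 1073741824 536870912 536870912 50465866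
    (rowB 3 eng mog cd2q1 cd6q2 pd1 0 false false false .dn 1 1 2 (qsf 536870912 536870912 1073741824 536870912 1) ndB2q1 ndB6q2 pcB1 Cut.none Ext.none)

def k0_mm_112 : ∃ t, chk3 f_mm_112 t 1 1 1 = true :=
  ⟨(l 3), by decide +kernel⟩

theorem c_mm_112 : CertB 536870912 536870912 1073741824 536870912 536870912 50465866 3 eng mog cd2q1 cd6q2 pd1 false false false .dn 1 1 2
    ndB2q1 ndB6q2 pcB1 Cut.none Ext.none :=
  certB0 (fam := false) (s1 := false) (s2 := false) (a := 1) (b := 1) (c := 2) (cn := .dn) (n1 := ndB2q1) (n2 := ndB6q2) (pc := pcB1) (cut := Cut.none) (xt := Ext.none) (P1 := 536870912) (W1 := 536870912) (P2 := 1073741824) (W2 := 536870912) (P3 := 536870912) (W3 := 50465866) (N0 := 3) (En := eng) (mo := mog) (C1 := cd2q1) (C2 := cd6q2) (C3 := pd1)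
    rfl k0_mm_112

noncomputable def f_mm_113 : ℕ → ℕ → ℕ → ℕ → Bool := onCell 536870912 536870912 0 1230186008 536870912 50465866
    (rowB 3 eng mog cd2q1 cd6q3 pd1 0 false false false .nn 1 1 3 (qsf 536870912 536870912 0 1230186008 1) ndB2q1 ndB6q3 pcB1 Cut.none Ext.none)

def k0_mm_113 : ∃ t, chk3 f_mm_113 t 1 1 1 = true :=
  ⟨(l 5), by decide +kernel⟩

theorem c_mm_113 : CertB 536870912 536870912 0 1230186008 536870912 50465866 3 eng mog cd2q1 cd6q3 pd1 false false false .nn 1 1 3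
    ndB2q1 ndB6q3 pcB1 Cut.none Ext.none :=
  certB0 (fam := false) (s1 := false) (s2 := false) (a := 1) (b := 1) (c := 3) (cn := .nn) (n1 := ndB2q1) (n2 := ndB6q3) (pc := pcB1) (cut := Cut.none) (xt := Ext.none) (P1 := 536870912) (W1 := 536870912) (P2 := 0) (W2 := 1230186008) (P3 := 536870912) (W3 := 50465866) (N0 := 3) (En := eng) (mo := mog) (C1 := cd2q1) (C2 := cd6q3) (C3 := pd1)
    rfl k0_mm_113

noncomputable def f_mm_123 : ℕ → ℕ → ℕ → ℕ → Bool := onCell 536870912 536870912 0 1230186008 536870912 50465866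
    (rowB 3 eng mog cd2q1 cd6q3 pd2 0 false false false .npn 1 2 3 (qsf 536870912 536870912 0 1230186008 2) ndB2q1 ndB6q3 pcB2 Cut.none Ext.none)

def k0_mm_123 : ∃ t, chk3 f_mm_123 t 1 1 1 = true :=
  ⟨(l 5), by decide +kernel⟩

theorem c_mm_123 : CertB 536870912 536870912 0 1230186008 536870912 50465866 3 eng mog cd2q1 cd6q3 pd2 false false false .npn 1 2 3
    ndB2q1 ndB6q3 pcB2 Cut.none Ext.none :=
  certB0 (fam := false) (s1 := false) (s2 := false) (a := 1) (b := 2) (c := 3) (cn := .npn) (n1 := ndB2q1) (n2 := ndB6q3) (pc := pcB2) (cut := Cut.none) (xt := Ext.none) (P1 := 536870912) (W1 := 536870912) (P2 := 0) (W2 := 1230186008) (P3 := 536870912) (W3 := 50465866) (N0 := 3) (En := eng) (mo := mog) (C1 := cd2q1) (C2 := cd6q3) (C3 := pd2)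
    rfl k0_mm_123

noncomputable def f_mm_133 : ℕ → ℕ → ℕ → ℕ → Bool := onCell 536870912 536870912 0 1230186008 536870912 50465866
    (rowB 3 eng mog cd2q1 cd6q3 pd3 0 false false false .dn 1 3 3 (qsf 536870912 536870912 0 1230186008 3) ndB2q1 ndB6q3 pcB3 Cut.none Ext.none)

def k0_mm_133 : ∃ t, chk3 f_mm_133 t 1 1 1 = true :=
  ⟨(l 5), by decide +kernel⟩

theorem c_mm_133 : CertB 536870912 536870912 0 1230186008 536870912 50465866 3 eng mog cd2q1 cd6q3 pd3 false false false .dn 1 3 3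
    ndB2q1 ndB6q3 pcB3 Cut.none Ext.none :=
  certB0 (fam := false) (s1 := false) (s2 := false) (a := 1) (b := 3) (c := 3) (cn := .dn) (n1 := ndB2q1) (n2 := ndB6q3) (pc := pcB3) (cut := Cut.none) (xt := Ext.none) (P1 := 536870912) (W1 := 536870912) (P2 := 0) (W2 := 1230186008) (P3 := 536870912) (W3 := 50465866) (N0 := 3) (En := eng) (mo := mog) (C1 := cd2q1) (C2 := cd6q3) (C3 := pd3)
    rfl k0_mm_133

noncomputable def cut_mm_202_a : Cut := Cut.of [[⟨0, 1, 0, 67108864⟩, ⟨1, 0, 0, 67108864⟩, ⟨2, 1, 0, 67108864⟩]]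

noncomputable def f_mm_202_a : ℕ → ℕ → ℕ → ℕ → Bool := onCell 0 536870912 0 536870912 536870912 50465866
    (rowB 3 eng mog cd2q2a cd6q2 pd0 1 false false false .pp 2 0 2 (qsf 0 536870912 1073741824 536870912 0) ndB2q2a ndB6q2 pcB0 cut_mm_202_a Ext.none)

def k0_mm_202_a : ∃ t, chk3 f_mm_202_a t 2 2 1 = true :=
  ⟨(b (b (a (b (l 16577224) (l 16591688)) (b (a (l 16569544) (l 16618048)) (a (l 16582104) (b (l 16586184) (a (l 16728680) (b (l 16672816) (l 16597808))))))) (a (b (a (l 16607664) (b (l 16591528) (l 16584424))) (a (b (l 16611640) (l 16665448)) (b (a (l 16596904) (l 16597536)) (l 16602608)))) (b (a (b (a (l 16587384) (l 16729200)) (a (l 16591984) (l 16596256))) (a (b (l 16783776) (b (l 16601656) (l 16605056))) (b (l 16605392) (b (l 16612160) (l 16617896))))) (a (b (a (l 16598328) (l 16601408)) (a (l 16601416) (l 16610088))) (b (a (l 16611984) (l 16622392)) (a (l 16617208) (a (l 16625696) (l 16649616)))))))) (b (a (a (b (b (l 16618416)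 (l 16616848)) (b (l 16601584) (l 16614824))) (b (b (l 16593200) (a (l 16603704) (l 16607200))) (b (l 16611096) (l 16612408)))) (a (b (b (a (l 16608512) (l 16613904)) (a (l 16611064) (l 16655096))) (a (b (l 16616304) (l 16688472)) (b (a (l 16621696) (l 16627896)) (a (l 16629016) (l 16641440))))) (b (a (b (b (l 16622416) (l 16624984)) (a (l 16627024) (l 16634376))) (b (a (l 16633712) (l 16641872)) (a (l 16639880) (l 169281930423)))) (a (b (a (l 16632168) (l 16644728)) (a (l 16695384) (l 210621009095))) (b (a (l 209547223623) (l 223505857751)) (l 3)))))) (a (a (b (a (l 16624616) (l 16616680)) (b (l 16635904) (l 16677808))) (b (b (a (l 16615384) (l 16670704)) (a (l 16639064) (l 16647872))) (b (a (l 16657920) (l 16667856)) (a (l 16676064) (l 164450160695))))) (a (b (a (b (l 16658168) (l 154249572071)) (b (b (l 16672448) (l 185388079367)) (a (l 151565226199) (l 206326009143)))) (a (b (a (l 16695528) (l 205789113767)) (l 206862905815)) (l 3))) (b (a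 (b (l 217600294087) (l 3)) (l 3)) (l 3)))))), by decide +kernel⟩

def k1_mm_202_a : ∃ t, chk3 f_mm_202_a t 2 3 1 = true :=
  ⟨(b (a (b (a (b (a (b (l 16663944) (l 16679200)) (b (l 16681152) (l 16696824))) (b (a (l 16693656) (l 176261378567)) (a (l 16709120) (l 229948421431)))) (b (a (b (l 16692928) (l 203104911015)) (b (l 204178588823) (l 3))) (a (b (l 225653446071) (l 3)) (l 3)))) (b (a (a (b (l 206326171703) (l 262160703159)) (l 3)) (l 3)) (l 3))) (l 3)) (l 3)), by decide +kernel⟩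

def k2_mm_202_a : ∃ t, chk3 f_mm_202_a t 6 8 1 = true :=
  ⟨(b (a (b (l 16589992) (l 16598624)) (b (a (l 16612512) (l 16633072)) (b (a (l 16619856) (l 16631960)) (b (a (l 16623240) (a (l 16638576) (l 16651408))) (a (l 16686552) (a (l 16642024) (l 16654896))))))) (a (b (b (a (l 16597432) (l 16712904)) (a (l 16702104) (a (l 16611304) (l 16620680)))) (a (b (l 16605720) (l 16610984)) (b (l 16622224) (a (l 16623168) (l 16633288))))) (b (a (b (a (l 16706928) (l 16635408)) (a (l 16630728) (l 16641584))) (b (a (l 16647240) (b (l 16658464) (l 16662224))) (a (l 16654352) (l 16667744)))) (a (b (a (l 16637096) (l 16649144)) (l 16649888)) (b (a (l 16661080) (l 16736064)) (b (a (l 16665944) (l 16679152)) (a (l 16668952) (l 16703624)))))))), by decide +kernel⟩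

def k3_mm_202_a : ∃ t, chk3 f_mm_202_a t 7 8 1 = true :=
  ⟨(a (b (b (a (b (l 16655104) (l 16661320)) (b (a (l 16676896) (l 6)) (b (a (l 16681952) (l 6)) (a (l 16684912) (a (l 16739664) (l 6)))))) (a (b (b (a (l 16658632) (l 16693560)) (a (a (l 16657992) (l 16665288)) (l 16676616))) (b (a (l 16665288) (l 16742696)) (a (l 16668888) (l 16705312)))) (a (a (b (b (l 16684816) (l 16688512)) (b (l 16692520) (l 16696224))) (b (b (l 16693048) (l 16696920)) (l 16723664))) (a (b (b (l 16701280) (l 16705600)) (b (l 16709384) (l 16733880))) (b (b (l 6) (l 16714376)) (b (l 16738992) (a (l 16740808) (l 16724328)))))))) (a (b (a (b (b (l 16672848) (l 16676400)) (l 16681736)) (b (l 16710736) (a (l 16734328) (b (l 16699056) (l 16702704))))) (a (b (b (a (l 16683152) (l 16690584)) (l 16711400)) (a (l 16691536) (l 16699008))) (b (a (l 16700016) (l 16728912)) (a (l 104320625527) (l 97341320487))))) (b (a (a (b (c (l 16743728) (l 16742776)) (b (l 16707304) (l 16710800)))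 (b (b (l 16729224) (a (l 16709928) (l 16714128))) (b (l 16715632) (l 16729832)))) (b (a (b (l 16717000) (l 16720640)) (b (l 16725832) (l 111836844535))) (a (b (l 16734928) (l 153175892791)) (l 3)))) (a (b (a (l 98951935783) (l 213842291575)) (l 3)) (l 3))))) (b (a (b (l 6) (a (b (l 6) (b (a (b (l 16726400) (l 16728344)) (l 6)) (a (l 16741688) (b (l 16748888) (l 83919573831))))) (l 6))) (l 6)) (a (b (a (b (a (b (l 105394406103) (l 3)) (l 3)) (l 3)) (l 3)) (l 3)) (l 3)))), by decide +kernel⟩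

def k4_mm_202_a : ∃ t, chk3 f_mm_202_a t 3 9 1 = true :=
  ⟨(a (a (b (a (b (b (l 16616048) (l 16622488)) (l 16629952)) (b (b (l 16635112) (l 16639880)) (a (l 16639504) (b (l 16649512) (l 16654504))))) (b (a (a (l 16632840) (l 16701584)) (a (b (l 16648536) (l 16653032)) (b (l 16659200) (l 16664112)))) (a (b (a (l 16637808) (l 16647640)) (l 16648408)) (a (l 16681744) (l 140290939111))))) (b (a (a (b (a (l 16649832) (l 16716168)) (b (l 16660656) (l 16665752))) (b (b (l 16722520) (l 16688008)) (b (l 16672536) (l 16678256)))) (b (a (b (a (l 16670280) (l 16677128)) (l 16679648)) (b (l 16687208) (l 100025644887))) (a (b (l 16706808) (l 101636253943)) (b (l 95730690391) (l 3))))) (a (b (a (b (l 16671024) (l 16698216)) (b (l 108078686519) (l 3))) (l 3)) (l 3)))) (a (b (a (b (a (b (a (l 16719152) (l 99488786391)) (l 197199262855)) (l 3)) (l 3)) (l 3)) (l 3)) (l 3))), by decide +kernel⟩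

def k5_mm_202_a : ∃ t, chk3 f_mm_202_a t 3 5 1 = true :=
  ⟨(a (b (a (b (a (b (a (l 16670472) (l 169818808743)) (a (l 231022036967) (l 3))) (b (a (l 240685733143) (l 3)) (l 3))) (l 3)) (l 3)) (l 3)) (l 3)), by decide +kernel⟩

def k6_mm_202_a : ∃ t, chk3 f_mm_202_a t 3 3 1 = true :=
  ⟨(l 3), by decide +kernel⟩

theorem s7_mm_202_a : ∃ t, chk3 f_mm_202_a t 3 8 1 = true := ex3_a k2_mm_202_a k3_mm_202_a

theorem s8_mm_202_a : ∃ t, chk3 f_mm_202_a t 3 4 1 = true := ex3_b s7_mm_202_a k4_mm_202_a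

theorem s9_mm_202_a : ∃ t, chk3 f_mm_202_a t 3 2 1 = true := ex3_b s8_mm_202_a k5_mm_202_a

theorem s10_mm_202_a : ∃ t, chk3 f_mm_202_a t 3 1 1 = true := ex3_b s9_mm_202_a k6_mm_202_a

theorem s11_mm_202_a : ∃ t, chk3 f_mm_202_a t 2 1 1 = true := ex3_b k0_mm_202_a k1_mm_202_a

theorem s12_mm_202_a : ∃ t, chk3 f_mm_202_a t 1 1 1 = true := ex3_a s11_mm_202_a s10_mm_202_a

theorem c_mm_202_a : CertB 0 536870912 1073741824 536870912 536870912 50465866 3 eng mog cd2q2a cd6q2 pd0 false false false .pp 2 0 2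
    ndB2q2a ndB6q2 pcB0 cut_mm_202_a Ext.none :=
  certB1 (fam := false) (s1 := false) (s2 := false) (a := 2) (b := 0) (c := 2) (cn := .pp) (n1 := ndB2q2a) (n2 := ndB6q2) (pc := pcB0) (cut := cut_mm_202_a) (xt := Ext.none) (P1 := 0) (W1 := 536870912) (P2 := 1073741824) (W2 := 536870912) (P3 := 536870912) (W3 := 50465866) (N0 := 3) (En := eng) (mo := mog) (C1 := cd2q2a) (C2 := cd6q2) (C3 := pd0)
    rfl (fun _ => rfl) s12_mm_202_a

noncomputable def cut_mm_202_b : Cut := Cut.of [[⟨0, 1, 0, 67108864⟩, ⟨1, 0, 0, 67108864⟩, ⟨2, 1, 0, 67108864⟩]]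

noncomputable def f_mm_202_b : ℕ → ℕ → ℕ → ℕ → Bool := onCell 0 536870912 1073741824 536870912 536870912 50465866
    (rowB 3 eng mog cd2q2b cd6q2 pd0 2 false false false .pp 2 0 2 (qsf 1239849684 370763052 1073741824 536870912 0) ndB2q2b ndB6q2 pcB0 cut_mm_202_b Ext.none)

def k0_mm_202_b : ∃ t, chk3 f_mm_202_b t 1 1 1 = true :=
  ⟨(a (b (a (b (l 1) (a (b (a (l 16840040) (l 16669432)) (a (l 16515080) (l 16576808))) (b (l 1) (b (l 16701328) (l 16649432))))) (l 1)) (b (a (a (b (b (l 16451976) (l 16372184)) (l 16221464)) (b (b (l 16584576) (a (l 16466960) (l 16500536))) (a (l 16459008) (b (l 16438992) (l 16355384))))) (a (b (a (b (l 16692728) (l 16687208)) (l 170221259303)) (b (l 16577144) (a (l 16434224) (l 16522728)))) (b (l 1) (b (l 235182858375) (l 16692264))))) (a (a (b (a (l 16074656) (b (l 16167656) (l 16139656))) (a (b (l 16036040) (l 16017800)) (b (l 16176696) (l 16093864)))) (b (a (b (l 16246744) (l 16218680)) (b (l 16327200) (l 16296480)))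 (b (a (l 16191664) (l 16269160)) (l 16353760)))) (a (b (b (a (l 16404248) (l 16480976)) (a (l 16374592) (l 16449896))) (b (a (l 16345008) (l 16460656)) (a (l 16318336) (l 16411224)))) (b (b (l 16589280) (b (l 16566832) (l 16571896))) (a (b (a (l 16473664) (l 16509032)) (l 86603561175)) (b (l 16560592) (l 73181683735)))))))) (a (b (l 1) (b (l 1) (a (b (b (l 271690243111) (a (l 16658832) (l 187938350551))) (a (b (l 16626080) (l 16593816)) (b (l 16750760) (b (l 16665920) (l 16650184))))) (b (l 1) (a (b (a (l 16755976) (l 1)) (b (l 100428381719) (b (l 16756640) (l 108078792487)))) (b (l 1) (a (b (l 1) (b (l 1) (b (l 1) (l 105797128535)))) (l 1)))))))) (l 1))), by decide +kernel⟩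

theorem c_mm_202_b : CertB 1239849684 370763052 1073741824 536870912 536870912 50465866 3 eng mog cd2q2b cd6q2 pd0 false false false .pp 2 0 2
    ndB2q2b ndB6q2 pcB0 cut_mm_202_b Ext.none :=
  certB2 (fam := false) (s1 := false) (s2 := false) (a := 2) (b := 0) (c := 2) (cn := .pp) (n1 := ndB2q2b) (n2 := ndB6q2) (pc := pcB0) (cut := cut_mm_202_b) (xt := Ext.none) (P1 := 1239849684) (W1 := 370763052) (P2 := 1073741824) (W2 := 536870912) (P3 := 536870912) (W3 := 50465866) (N0 := 3) (En := eng) (mo := mog) (C1 := cd2q2b) (C2 := cd6q2) (C3 := pd0)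
    rfl (fun _ => rfl) k0_mm_202_b

noncomputable def f_mm_203_a : ℕ → ℕ → ℕ → ℕ → Bool := onCell 0 536870912 0 1230186008 536870912 50465866
    (rowB 3 eng mog cd2q2a cd6q3 pd0 0 false false false .up 2 0 3 (qsf 0 536870912 0 1230186008 0) ndB2q2a ndB6q3 pcB0 Cut.none Ext.none)

def k0_mm_203_a : ∃ t, chk3 f_mm_203_a t 1 1 1 = true :=
  ⟨(b (l 2) (b (l 2) (a (b (l 3) (b (l 3) (l 3))) (l 3)))), by decide +kernel⟩

theorem c_mm_203_a : CertB 0 536870912 0 1230186008 536870912 50465866 3 eng mog cd2q2a cd6q3 pd0 false false false .up 2 0 3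
    ndB2q2a ndB6q3 pcB0 Cut.none Ext.none :=
  certB0 (fam := false) (s1 := false) (s2 := false) (a := 2) (b := 0) (c := 3) (cn := .up) (n1 := ndB2q2a) (n2 := ndB6q3) (pc := pcB0) (cut := Cut.none) (xt := Ext.none) (P1 := 0) (W1 := 536870912) (P2 := 0) (W2 := 1230186008) (P3 := 536870912) (W3 := 50465866) (N0 := 3) (En := eng) (mo := mog) (C1 := cd2q2a) (C2 := cd6q3) (C3 := pd0)
    rfl k0_mm_203_a

noncomputable def f_mm_203_b : ℕ → ℕ → ℕ → ℕ → Bool := onCell 1239849684 370763052 0 1230186008 536870912 50465866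
    (rowB 3 eng mog cd2q2b cd6q3 pd0 0 false false false .up 2 0 3 (qsf 1239849684 370763052 0 1230186008 0) ndB2q2b ndB6q3 pcB0 Cut.none Ext.none)

def k0_mm_203_b : ∃ t, chk3 f_mm_203_b t 1 1 1 = true :=
  ⟨(b (l 3) (b (l 3) (b (l 3) (a (a (b (l 3) (l 3)) (l 3)) (l 3))))), by decide +kernel⟩

theorem c_mm_203_b : CertB 1239849684 370763052 0 1230186008 536870912 50465866 3 eng mog cd2q2b cd6q3 pd0 false false false .up 2 0 3
    ndB2q2b ndB6q3 pcB0 Cut.none Ext.none :=
  certB0 (fam := false) (s1 := false) (s2 := false) (a := 2) (b := 0) (c := 3) (cn := .up) (n1 := ndB2q2b) (n2 := ndB6q3) (pc := pcB0) (cut := Cut.none) (xt := Ext.none) (P1 := 1239849684) (W1 := 370763052) (P2 := 0) (W2 := 1230186008) (P3 := 536870912) (W3 := 50465866) (N0 := 3) (En := eng) (mo := mog) (C1 := cd2q2b) (C2 := cd6q3) (C3 := pd0)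
    rfl k0_mm_203_b

noncomputable def f_mm_213_a : ℕ → ℕ → ℕ → ℕ → Bool := onCell 0 536870912 0 1230186008 536870912 50465866
    (rowB 3 eng mog cd2q2a cd6q3 pd1 0 false false false .pnn 2 1 3 (qsf 0 536870912 0 1230186008 1) ndB2q2a ndB6q3 pcB1 Cut.none Ext.none)

def k0_mm_213_a : ∃ t, chk3 f_mm_213_a t 1 1 1 = true :=
  ⟨(b (b (l 5) (l 3)) (b (l 3) (a (b (l 3) (b (l 3) (l 1))) (l 3)))), by decide +kernel⟩

theorem c_mm_213_a : CertB 0 536870912 0 1230186008 536870912 50465866 3 eng mog cd2q2a cd6q3 pd1 false false false .pnn 2 1 3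
    ndB2q2a ndB6q3 pcB1 Cut.none Ext.none :=
  certB0 (fam := false) (s1 := false) (s2 := false) (a := 2) (b := 1) (c := 3) (cn := .pnn) (n1 := ndB2q2a) (n2 := ndB6q3) (pc := pcB1) (cut := Cut.none) (xt := Ext.none) (P1 := 0) (W1 := 536870912) (P2 := 0) (W2 := 1230186008) (P3 := 536870912) (W3 := 50465866) (N0 := 3) (En := eng) (mo := mog) (C1 := cd2q2a) (C2 := cd6q3) (C3 := pd1)
    rfl k0_mm_213_a

noncomputable def f_mm_213_b : ℕ → ℕ → ℕ → ℕ → Bool := onCell 1239849684 370763052 0 1230186008 536870912 50465866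
    (rowB 3 eng mog cd2q2b cd6q3 pd1 0 false false false .pnn 2 1 3 (qsf 1239849684 370763052 0 1230186008 1) ndB2q2b ndB6q3 pcB1 Cut.none Ext.none)

def k0_mm_213_b : ∃ t, chk3 f_mm_213_b t 1 1 1 = true :=
  ⟨(b (l 3) (b (l 3) (b (l 3) (l 1)))), by decide +kernel⟩

theorem c_mm_213_b : CertB 1239849684 370763052 0 1230186008 536870912 50465866 3 eng mog cd2q2b cd6q3 pd1 false false false .pnn 2 1 3
    ndB2q2b ndB6q3 pcB1 Cut.none Ext.none :=
  certB0 (fam := false) (s1 := false) (s2 := false) (a := 2) (b := 1) (c := 3) (cn := .pnn) (n1 := ndB2q2b) (n2 := ndB6q3) (pc := pcB1) (cut := Cut.none) (xt := Ext.none) (P1 := 1239849684) (W1 := 370763052) (P2 := 0) (W2 := 1230186008) (P3 := 536870912) (W3 := 50465866) (N0 := 3) (En := eng) (mo := mog) (C1 := cd2q2b) (C2 := cd6q3) (C3 := pd1)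
    rfl k0_mm_213_b

noncomputable def f_mm_303 : ℕ → ℕ → ℕ → ℕ → Bool := onCell 0 536870912 0 1230186008 536870912 50465866
    (rowB 3 eng mog cd2q3 cd6q3 pd0 2 false false false .npn 3 0 3 (qsf 1610612736 536870912 0 1230186008 0) ndB2q3 ndB6q3 pcB0 Cut.none Ext.none)

def k0_mm_303 : ∃ t, chk3 f_mm_303 t 1 1 1 = true :=
  ⟨(b (l 3) (b (l 3) (a (a (l 3) (l 3)) (l 1)))), by decide +kernel⟩

theorem c_mm_303 : CertB 1610612736 536870912 0 1230186008 536870912 50465866 3 eng mog cd2q3 cd6q3 pd0 false false false .npn 3 0 3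
    ndB2q3 ndB6q3 pcB0 Cut.none Ext.none :=
  certB2 (fam := false) (s1 := false) (s2 := false) (a := 3) (b := 0) (c := 3) (cn := .npn) (n1 := ndB2q3) (n2 := ndB6q3) (pc := pcB0) (cut := Cut.none) (xt := Ext.none) (P1 := 1610612736) (W1 := 536870912) (P2 := 0) (W2 := 1230186008) (P3 := 536870912) (W3 := 50465866) (N0 := 3) (En := eng) (mo := mog) (C1 := cd2q3) (C2 := cd6q3) (C3 := pd0)
    rfl (fun _ => rfl) k0_mm_303

noncomputable def f_mm_313 : ℕ → ℕ → ℕ → ℕ → Bool := onCell 1610612736 536870912 0 1230186008 536870912 50465866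
    (rowB 3 eng mog cd2q3 cd6q3 pd1 0 false false false .dn 3 1 3 (qsf 1610612736 536870912 0 1230186008 1) ndB2q3 ndB6q3 pcB1 Cut.none Ext.none)

def k0_mm_313 : ∃ t, chk3 f_mm_313 t 1 1 1 = true :=
  ⟨(b (l 3) (l 1)), by decide +kernel⟩

theorem c_mm_313 : CertB 1610612736 536870912 0 1230186008 536870912 50465866 3 eng mog cd2q3 cd6q3 pd1 false false false .dn 3 1 3
    ndB2q3 ndB6q3 pcB1 Cut.none Ext.none :=
  certB0 (fam := false) (s1 := false) (s2 := false) (a := 3) (b := 1) (c := 3) (cn := .dn) (n1 := ndB2q3) (n2 := ndB6q3) (pc := pcB1) (cut := Cut.none) (xt := Ext.none) (P1 := 1610612736) (W1 := 536870912) (P2 := 0) (W2 := 1230186008) (P3 := 536870912) (W3 := 50465866) (N0 := 3) (En := eng) (mo := mog) (C1 := cd2q3) (C2 := cd6q3) (C3 := pd1)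
    rfl k0_mm_313

end Pool.Agent.Strip051.G.I5000_5470.Tab.C.BB26

namespace Pool.Agent.Strip051.G.I5000_5470.Tab.C.BB30

open Pool.Agent.Strip051.PB Pool.Agent.Strip051.PB.T
open Pool.Agent.Strip051.G.I5000_5470.Tab

noncomputable def f_pp_001 : ℕ → ℕ → ℕ → ℕ → Bool := onCell 0 536870912 0 536870912 536870912 50465866
    (rowB 3 eng mog cd3q0 cd0q1 pd0 1 false true true .up 0 0 1 (qsf 0 536870912 536870912 536870912 0) ndB3q0 ndB0q1 pcB0 Cut.none Ext.none)

def k0_pp_001 : ∃ t, chk3 f_pp_001 t 1 1 1 = true :=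
  ⟨(a (l 3) (l 3)), by decide +kernel⟩

theorem c_pp_001 : CertB 0 536870912 536870912 536870912 536870912 50465866 3 eng mog cd3q0 cd0q1 pd0 false true true .up 0 0 1
    ndB3q0 ndB0q1 pcB0 Cut.none Ext.none :=
  certB1 (fam := false) (s1 := true) (s2 := true) (a := 0) (b := 0) (c := 1) (cn := .up) (n1 := ndB3q0) (n2 := ndB0q1) (pc := pcB0) (cut := Cut.none) (xt := Ext.none) (P1 := 0) (W1 := 536870912) (P2 := 536870912) (W2 := 536870912) (P3 := 536870912) (W3 := 50465866) (N0 := 3) (En := eng) (mo := mog) (C1 := cd3q0) (C2 := cd0q1) (C3 := pd0)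
    rfl (fun _ => rfl) k0_pp_001

noncomputable def cut_pp_011 : Cut := Cut.of [[⟨0, 0, 0, 67108864⟩, ⟨1, 1, 0, 67108864⟩, ⟨2, 1, 0, 67108864⟩]]

noncomputable def f_pp_011 : ℕ → ℕ → ℕ → ℕ → Bool := onCell 0 536870912 536870912 536870912 536870912 50465866
    (rowB 3 eng mog cd3q0 cd0q1 pd1 0 false true true .pnn 0 1 1 (qsf 0 536870912 536870912 536870912 1) ndB3q0 ndB0q1 pcB1 cut_pp_011 Ext.none)

def k0_pp_011 : ∃ t, chk3 f_pp_011 t 1 1 1 = true :=
  ⟨(b (l 3) (a (b (l 3) (a (b (l 3) (a (b (l 3) (b (l 3) (a (l 6) (l 3)))) (l 3))) (l 3))) (l 3))), by decide +kernel⟩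

theorem c_pp_011 : CertB 0 536870912 536870912 536870912 536870912 50465866 3 eng mog cd3q0 cd0q1 pd1 false true true .pnn 0 1 1
    ndB3q0 ndB0q1 pcB1 cut_pp_011 Ext.none :=
  certB0 (fam := false) (s1 := true) (s2 := true) (a := 0) (b := 1) (c := 1) (cn := .pnn) (n1 := ndB3q0) (n2 := ndB0q1) (pc := pcB1) (cut := cut_pp_011) (xt := Ext.none) (P1 := 0) (W1 := 536870912) (P2 := 536870912) (W2 := 536870912) (P3 := 536870912) (W3 := 50465866) (N0 := 3) (En := eng) (mo := mog) (C1 := cd3q0) (C2 := cd0q1) (C3 := pd1)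
    rfl k0_pp_011

noncomputable def cut_pp_012 : Cut := Cut.of [[⟨0, 0, 0, 44739242⟩, ⟨1, 1, 0, 44739242⟩, ⟨2, 1, 0, 44739242⟩]]

noncomputable def f_pp_012 : ℕ → ℕ → ℕ → ℕ → Bool := onCell 536870912 536870912 0 536870912 536870912 50465866
    (rowB 3 eng mog cd3q0 cd0q2 pd1 2 false true true .pnp 0 1 2 (qsf 0 536870912 0 536870912 1) ndB3q0 ndB0q2 pcB1 cut_pp_012 Ext.none)

def k0_pp_012 : ∃ t, chk3 f_pp_012 t 2 1 1 = true :=
  ⟨(a (b (b (l 2) (a (l 2) (b (l 2) (l 16697008)))) (a (b (l 2) (a (b (l 2) (l 3)) (b (a (b (l 2) (b (l 2) (l 3))) (b (l 16637544) (b (l 16691432) (l 241759577623)))) (l 3)))) (b (b (l 16611704) (b (l 16552928) (l 16620464))) (b (b (a (l 16650664) (l 16669856)) (a (a (b (l 16701488) (l 195051792631)) (b (l 16711840) (a (l 194514984151) (l 198809964775)))) (b (l 16728232) (a (a (l 202568074215) (l 200957485111)) (l 197199431639))))) (l 3))))) (b (b (a (b (l 16736440) (l 16748552)) (l 16727080)) (a (b (l 16749704) (a (l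 16729080) (l 16741600))) (b (l 16750160) (l 16752200)))) (b (a (b (a (l 16671736) (l 16701560)) (b (l 16680216) (a (l 16628560) (l 16646888)))) (b (l 16729608) (b (l 16655984) (l 16686040)))) (a (b (b (a (l 16691064) (l 16771648)) (a (b (l 16750520) (a (l 149954833095) (l 16799504))) (a (l 16785824) (l 16792920)))) (b (b (a (a (l 291688778455) (l 186462104983)) (a (l 175187916007) (l 147807537799))) (l 3)) (l 3))) (b (b (a (l 16726976) (l 16754288)) (a (a (l 16799632) (l 16809152)) (a (l 16819880) (l 16827824)))) (b (a (b (a (l 16886776) (l 16873376)) (l 3)) (a (b (l 16880448) (l 190757379111)) (l 116132343495))) (l 3))))))), by decide +kernel⟩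

def k1_pp_012 : ∃ t, chk3 f_pp_012 t 3 2 1 = true :=
  ⟨(a (b (a (b (l 16682920) (l 16710904)) (b (l 16630280) (l 16663184))) (a (b (l 16736024) (l 16753072)) (b (l 16697304) (a (l 16734968) (l 16716832))))) (b (a (b (l 16581224) (l 16613656)) (b (l 16534056) (l 16562280))) (a (b (l 16649792) (l 16767272)) (b (a (l 16609456) (l 16580320)) (a (l 16642832) (b (l 16603944) (l 16619832))))))), by decide +kernel⟩

def k2_pp_012 : ∃ t, chk3 f_pp_012 t 3 3 1 = true :=
  ⟨(a (b (b (a (l 16967488) (a (l 16758768) (l 16747936))) (a (b (l 16714968) (l 16790000)) (l 16815912))) (a (b (b (a (l 16770312) (l 16764768)) (a (l 16823616) (l 16809160))) (b (a (b (l 16864336) (l 178409310615)) (b (l 16846784) (l 137607082999))) (a (l 3) (b (l 3) (l 3))))) (b (b (l 16877136) (a (l 16793400) (l 16777376))) (b (a (a (l 16844728) (l 16833480)) (a (l 16821776) (l 16852200))) (b (a (a (l 178946063255) (l 176261668327)) (a (l 162839868727) (a (l 156397393015) (l 148881182759))))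 (l 3)))))) (b (a (b (a (l 16730408) (l 16707208)) (a (l 16760848) (l 16745568))) (b (a (l 16679120) (b (l 16636680) (l 16654992))) (a (b (l 16708536) (l 16728640)) (b (l 16674728) (l 16695264))))) (a (b (a (b (l 16747736) (l 16869184)) (b (l 16764464) (l 16779744))) (b (a (a (b (l 16790872) (l 16810640)) (l 16794032)) (b (l 16776448) (l 16792872))) (a (b (a (b (l 16826880) (l 146196817847)) (a (l 159081692519) (l 16821520))) (b (a (l 3) (l 3)) (l 3))) (b (a (b (l 16810360) (l 16819848)) (b (l 16802120) (l 16810960))) (b (a (b (l 146733656551) (l 3)) (a (l 156397315767) (l 155860436039))) (l 3)))))) (b (a (b (l 16748128) (b (l 16761752) (l 16768456))) (b (a (l 16724504) (l 16707584)) (a (l 16745376) (b (l 16723576) (l 16734416))))) (b (a (a (l 16774488) (l 16789776)) (a (b (l 16760776) (l 16770720)) (a (l 16775472) (b (l 16741096) (l 6))))) (a (b (a (l 16797584) (l 16787896)) (b (a (a (l 154786685719) (l 16817952)) (a (l 16802160) (l 16796624)))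 (b (b (a (a (l 3) (l 3)) (a (l 16807128) (l 16801344))) (a (l 3) (a (l 3) (l 134385561879)))) (l 3)))) (b (a (b (l 16774168) (l 16780712)) (l 6)) (l 6)))))))), by decide +kernel⟩

theorem s3_pp_012 : ∃ t, chk3 f_pp_012 t 3 1 1 = true := ex3_b k1_pp_012 k2_pp_012

theorem s4_pp_012 : ∃ t, chk3 f_pp_012 t 1 1 1 = true := ex3_a k0_pp_012 s3_pp_012

theorem c_pp_012 : CertB 0 536870912 0 536870912 536870912 50465866 3 eng mog cd3q0 cd0q2 pd1 false true true .pnp 0 1 2
    ndB3q0 ndB0q2 pcB1 cut_pp_012 Ext.none :=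
  certB2 (fam := false) (s1 := true) (s2 := true) (a := 0) (b := 1) (c := 2) (cn := .pnp) (n1 := ndB3q0) (n2 := ndB0q2) (pc := pcB1) (cut := cut_pp_012) (xt := Ext.none) (P1 := 0) (W1 := 536870912) (P2 := 0) (W2 := 536870912) (P3 := 536870912) (W3 := 50465866) (N0 := 3) (En := eng) (mo := mog) (C1 := cd3q0) (C2 := cd0q2) (C3 := pd1)
    rfl (fun _ => rfl) s4_pp_012

noncomputable def cut_pp_022 : Cut := Cut.of [[⟨0, 0, 0, 67108864⟩, ⟨1, 1, 0, 67108864⟩, ⟨2, 1, 0, 67108864⟩]]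

noncomputable def f_pp_022 : ℕ → ℕ → ℕ → ℕ → Bool := onCell 0 536870912 0 536870912 536870912 50465866
    (rowB 3 eng mog cd3q0 cd0q2 pd2 0 false true true .pp 0 2 2 (qsf 0 536870912 0 536870912 2) ndB3q0 ndB0q2 pcB2 cut_pp_022 Ext.none)

def k0_pp_022 : ∃ t, chk3 f_pp_022 t 1 1 1 = true :=
  ⟨(a (b (b (a (a (b (a (a (l 16500416) (l 16469480)) (l 16483600)) (a (a (l 16510664) (l 16481160)) (l 16497504))) (b (l 16502464) (l 16521016))) (a (b (l 16507392) (l 16532952)) (l 1))) (a (a (a (b (a (l 16572544) (l 16502216)) (b (a (l 16530512) (l 16522360)) (a (b (l 16523272) (l 16575320)) (l 16538840)))) (b (l 16520256) (l 16571016))) (b (a (l 16539552) (l 16553624)) (a (l 16571104) (l 16586888)))) (a (a (b (l 16563280) (l 187401360119)) (l 1)) (l 1)))) (b (a (a (b (a (c (a (a (b (l 16568400) (b (l 16564408) (l 16576096))) (l 16604720)) (l 16634184)) (a (b (a (l 16546776) (l 16551616)) (a (l 16568464) (l 16574000))) (l 16632952))) (b (l 16578768) (l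 16602008))) (b (a (a (a (b (l 16587352) (l 16599880)) (l 16599112)) (l 16607680)) (l 16628120)) (a (a (a (b (a (l 16611520) (l 16614608)) (a (l 16625432) (l 16628704))) (l 16626280)) (l 16636616)) (a (l 16650272) (l 16662240))))) (b (a (b (l 16600720) (l 16624152)) (b (l 16617424) (l 16641408))) (a (b (l 16649952) (a (l 16672800) (l 16682256))) (b (l 16667440) (l 1))))) (l 1)) (a (b (a (a (b (a (a (a (b (l 16640200) (b (l 16651800) (l 6))) (b (l 16643648) (l 16659456))) (l 16698648)) (b (l 16659592) (l 16675656))) (l 6)) (b (a (l 16680744) (l 16692168)) (a (l 6) (b (l 16715704) (l 309808033239))))) (a (b (a (l 224982402567) (l 1)) (l 1)) (l 1))) (a (a (l 6) (a (l 6) (l 1))) (l 1))) (l 1)))) (l 1)), by decide +kernel⟩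

theorem c_pp_022 : CertB 0 536870912 0 536870912 536870912 50465866 3 eng mog cd3q0 cd0q2 pd2 false true true .pp 0 2 2
    ndB3q0 ndB0q2 pcB2 cut_pp_022 Ext.none :=
  certB0 (fam := false) (s1 := true) (s2 := true) (a := 0) (b := 2) (c := 2) (cn := .pp) (n1 := ndB3q0) (n2 := ndB0q2) (pc := pcB2) (cut := cut_pp_022) (xt := Ext.none) (P1 := 0) (W1 := 536870912) (P2 := 0) (W2 := 536870912) (P3 := 536870912) (W3 := 50465866) (N0 := 3) (En := eng) (mo := mog) (C1 := cd3q0) (C2 := cd0q2) (C3 := pd2)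
    rfl k0_pp_022

noncomputable def f_pp_101 : ℕ → ℕ → ℕ → ℕ → Bool := onCell 536870912 536870912 536870912 536870912 536870912 50465866
    (rowB 3 eng mog cd3q1 cd0q1 pd0 0 false true true .npn 1 0 1 (qsf 536870912 536870912 536870912 536870912 0) ndB3q1 ndB0q1 pcB0 Cut.none Ext.none)

def k0_pp_101 : ∃ t, chk3 f_pp_101 t 1 1 1 = true :=
  ⟨(l 3), by decide +kernel⟩

theorem c_pp_101 : CertB 536870912 536870912 536870912 536870912 536870912 50465866 3 eng mog cd3q1 cd0q1 pd0 false true true .npn 1 0 1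
    ndB3q1 ndB0q1 pcB0 Cut.none Ext.none :=
  certB0 (fam := false) (s1 := true) (s2 := true) (a := 1) (b := 0) (c := 1) (cn := .npn) (n1 := ndB3q1) (n2 := ndB0q1) (pc := pcB0) (cut := Cut.none) (xt := Ext.none) (P1 := 536870912) (W1 := 536870912) (P2 := 536870912) (W2 := 536870912) (P3 := 536870912) (W3 := 50465866) (N0 := 3) (En := eng) (mo := mog) (C1 := cd3q1) (C2 := cd0q1) (C3 := pd0)
    rfl k0_pp_101

noncomputable def f_pp_102 : ℕ → ℕ → ℕ → ℕ → Bool := onCell 0 536870912 0 536870912 536870912 50465866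
    (rowB 3 eng mog cd3q1 cd0q2 pd0 2 false true true .npp 1 0 2 (qsf 536870912 536870912 0 536870912 0) ndB3q1 ndB0q2 pcB0 Cut.none Ext.none)

def k0_pp_102 : ∃ t, chk3 f_pp_102 t 2 1 1 = true :=
  ⟨(b (a (b (l 2) (b (l 2) (a (l 2) (a (l 2) (b (l 2) (b (l 16480848) (l 16529304))))))) (b (a (b (l 16513880) (a (l 16482440) (l 16502776))) (b (l 16559888) (a (l 16519800) (l 16534456)))) (a (b (a (b (l 16475448) (l 16475728)) (l 16488400)) (b (a (l 16479936) (l 16487848)) (a (a (l 16485712) (l 16487528)) (l 16491064)))) (b (l 16696064) (b (l 16501120) (l 16563912)))))) (a (b (a (l 2) (a (b (l 2) (l 3)) (b (b (a (l 16499384) (l 16497584)) (b (a (b (l 16509528) (l 16513960)) (b (l 16505968) (l 16530584))) (a (b (a (b (l 16518720) (l 16521168)) (l 16517016)) (a (l 3) (l 210083801575))) (b (l 16513152) (a (l 16527592) (l 16515448)))))) (b (a (l 3) (b (a (l 3) (l 171429142215)) (l 3))) (l 3))))) (l 3)) (b (a (b (b (a (a (l 16496680) (l 16496344)) (l 16497064))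 (a (a (b (l 16504880) (l 16510480)) (b (l 16503032) (b (l 16506256) (l 16507840)))) (b (l 16501216) (a (l 16504576) (l 16502352))))) (b (a (b (a (a (l 104857148119) (l 98414689527)) (l 86066653623)) (l 3)) (a (b (l 16506160) (l 155859870375)) (b (l 16502976) (l 98951530023)))) (l 3))) (b (b (l 16501656) (a (b (l 16500496) (l 16499968)) (l 16500680))) (b (a (b (a (l 16500632) (l 16498768)) (a (l 16500216) (l 16497296))) (b (l 16496704) (l 16514976))) (b (a (l 127405702983) (a (l 16503840) (l 16490048))) (l 3))))) (l 3)))), by decide +kernel⟩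

def k1_pp_102 : ∃ t, chk3 f_pp_102 t 3 1 1 = true :=
  ⟨(a (b (b (a (b (l 16597136) (a (l 16549112) (l 16565720))) (b (l 16642352) (l 16605440))) (b (a (l 16532208) (l 16574176)) (a (a (l 16515160) (l 16526128)) (l 16552144)))) (b (b (a (a (l 16506832) (l 16512560)) (b (l 16535232) (l 16519392))) (a (a (b (b (l 16496096) (l 16491336)) (b (l 102172715415) (l 129016239735))) (b (l 16536024) (b (l 16481544) (a (l 16475912) (l 16471448))))) (a (b (l 16495432) (b (l 16477840) (a (l 16467056) (l 16463456)))) (b (l 16499184) (a (l 16469112) (l 16468416)))))) (a (l 3) (b (b (b (a (b (l 149417347319) (l 3)) (a (l 138142960087) (l 137606075463))) (l 3)) (l 3)) (l 3))))) (b (b (a (b (l 16679080) (l 16647784)) (b (l 16705664) (l 16679832))) (b (a (l 16614648) (l 16646872)) (a (l 16584984) (a (l 16605776) (l 16617104))))) (b (b (a (b (l 16560272) (l 16537656)) (b (l 16574888) (l 16639112))) (a (b (a (l 16504744) (a (l 16509008) (l 16504992))) (a (b (l 16478768)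 (a (l 16458440) (l 16457912))) (a (b (l 16476640) (l 16445520)) (l 16441736)))) (b (l 16539008) (a (l 16501016) (l 16456936))))) (b (a (b (a (b (a (b (l 16443080) (l 142974779079)) (b (a (l 16442496) (l 16436480)) (a (c (l 16436152) (l 16423336)) (l 16417640)))) (a (l 3) (a (l 3) (l 384029784487)))) (a (b (l 16425872) (l 156933503799)) (a (l 151564854615) (l 153712372439)))) (l 3)) (b (b (a (l 16458864) (l 16517704)) (a (a (l 211694218951) (l 16501584)) (a (l 16537488) (l 16574976)))) (a (l 3) (a (l 214378900247) (a (l 213842082583) (l 212768377271)))))) (l 3))))), by decide +kernel⟩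

theorem s2_pp_102 : ∃ t, chk3 f_pp_102 t 1 1 1 = true := ex3_a k0_pp_102 k1_pp_102

theorem c_pp_102 : CertB 536870912 536870912 0 536870912 536870912 50465866 3 eng mog cd3q1 cd0q2 pd0 false true true .npp 1 0 2
    ndB3q1 ndB0q2 pcB0 Cut.none Ext.none :=
  certB2 (fam := false) (s1 := true) (s2 := true) (a := 1) (b := 0) (c := 2) (cn := .npp) (n1 := ndB3q1) (n2 := ndB0q2) (pc := pcB0) (cut := Cut.none) (xt := Ext.none) (P1 := 536870912) (W1 := 536870912) (P2 := 0) (W2 := 536870912) (P3 := 536870912) (W3 := 50465866) (N0 := 3) (En := eng) (mo := mog) (C1 := cd3q1) (C2 := cd0q2) (C3 := pd0)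
    rfl (fun _ => rfl) s2_pp_102

noncomputable def f_pp_112 : ℕ → ℕ → ℕ → ℕ → Bool := onCell 536870912 536870912 0 536870912 536870912 50465866
    (rowB 3 eng mog cd3q1 cd0q2 pd1 2 false true true .dn 1 1 2 (qsf 536870912 536870912 0 536870912 1) ndB3q1 ndB0q2 pcB1 Cut.none Ext.none)

def k0_pp_112 : ∃ t, chk3 f_pp_112 t 1 1 1 = true :=
  ⟨(a (a (b (b (a (b (l 16734944) (l 16715968)) (l 16751200)) (b (a (l 16685976) (l 16731264)) (a (l 16646136) (l 16696840)))) (b (b (a (l 16564776) (l 16604952)) (a (b (l 16437456) (a (l 16492064) (l 16566992))) (b (l 16591592) (l 16657448)))) (a (b (b (a (b (l 16567056) (l 16616744)) (l 16659744)) (b (a (a (l 215989618071) (a (l 216526544343) (l 216526581367))) (b (l 16724336) (a (l 221895283383) (l 179482544071)))) (a (l 3) (a (l 3) (a (l 204178749159) (l 1)))))) (l 3)) (b (b (a (l 16718064) (l 1)) (l 1)) (l 1))))) (b (a (b (l 216392967591) (b (l 16752920) (l 490733590903))) (l 1)) (b (l 1) (l 1)))) (l 1)),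 by decide +kernel⟩

theorem c_pp_112 : CertB 536870912 536870912 0 536870912 536870912 50465866 3 eng mog cd3q1 cd0q2 pd1 false true true .dn 1 1 2
    ndB3q1 ndB0q2 pcB1 Cut.none Ext.none :=
  certB2 (fam := false) (s1 := true) (s2 := true) (a := 1) (b := 1) (c := 2) (cn := .dn) (n1 := ndB3q1) (n2 := ndB0q2) (pc := pcB1) (cut := Cut.none) (xt := Ext.none) (P1 := 536870912) (W1 := 536870912) (P2 := 0) (W2 := 536870912) (P3 := 536870912) (W3 := 50465866) (N0 := 3) (En := eng) (mo := mog) (C1 := cd3q1) (C2 := cd0q2) (C3 := pd1)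
    rfl (fun _ => rfl) k0_pp_112

noncomputable def f_pp_202_a : ℕ → ℕ → ℕ → ℕ → Bool := onCell 0 536870912 0 536870912 536870912 50465866
    (rowB 3 eng mog cd3q2a cd0q2 pd0 0 false true true .pp 2 0 2 (qsf 0 536870912 0 536870912 0) ndB3q2a ndB0q2 pcB0 Cut.none Ext.none)

def k0_pp_202_a : ∃ t, chk3 f_pp_202_a t 1 1 1 = true :=
  ⟨(l 3), by decide +kernel⟩

theorem c_pp_202_a : CertB 0 536870912 0 536870912 536870912 50465866 3 eng mog cd3q2a cd0q2 pd0 false true true .pp 2 0 2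
    ndB3q2a ndB0q2 pcB0 Cut.none Ext.none :=
  certB0 (fam := false) (s1 := true) (s2 := true) (a := 2) (b := 0) (c := 2) (cn := .pp) (n1 := ndB3q2a) (n2 := ndB0q2) (pc := pcB0) (cut := Cut.none) (xt := Ext.none) (P1 := 0) (W1 := 536870912) (P2 := 0) (W2 := 536870912) (P3 := 536870912) (W3 := 50465866) (N0 := 3) (En := eng) (mo := mog) (C1 := cd3q2a) (C2 := cd0q2) (C3 := pd0)
    rfl k0_pp_202_a

noncomputable def f_pp_202_b : ℕ → ℕ → ℕ → ℕ → Bool := onCell 1239849684 370763052 0 536870912 536870912 50465866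
    (rowB 3 eng mog cd3q2b cd0q2 pd0 0 false true true .pp 2 0 2 (qsf 1239849684 370763052 0 536870912 0) ndB3q2b ndB0q2 pcB0 Cut.none Ext.none)

def k0_pp_202_b : ∃ t, chk3 f_pp_202_b t 1 1 1 = true :=
  ⟨(l 3), by decide +kernel⟩

theorem c_pp_202_b : CertB 1239849684 370763052 0 536870912 536870912 50465866 3 eng mog cd3q2b cd0q2 pd0 false true true .pp 2 0 2
    ndB3q2b ndB0q2 pcB0 Cut.none Ext.none :=
  certB0 (fam := false) (s1 := true) (s2 := true) (a := 2) (b := 0) (c := 2) (cn := .pp) (n1 := ndB3q2b) (n2 := ndB0q2) (pc := pcB0) (cut := Cut.none) (xt := Ext.none) (P1 := 1239849684) (W1 := 370763052) (P2 := 0) (W2 := 536870912) (P3 := 536870912) (W3 := 50465866) (N0 := 3) (En := eng) (mo := mog) (C1 := cd3q2b) (C2 := cd0q2) (C3 := pd0)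
    rfl k0_pp_202_b

noncomputable def f_pm_001 : ℕ → ℕ → ℕ → ℕ → Bool := onCell 0 536870912 0 536870912 536870912 50465866
    (rowB 3 eng mog cd3q0 cd0q1 pd0 1 false true false .up 0 0 1 (qsf 0 536870912 536870912 536870912 0) ndB3q0 ndB0q1 pcB0 Cut.none Ext.none)

def k0_pm_001 : ∃ t, chk3 f_pm_001 t 1 1 1 = true :=
  ⟨(a (l 4) (l 4)), by decide +kernel⟩

theorem c_pm_001 : CertB 0 536870912 536870912 536870912 536870912 50465866 3 eng mog cd3q0 cd0q1 pd0 false true false .up 0 0 1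
    ndB3q0 ndB0q1 pcB0 Cut.none Ext.none :=
  certB1 (fam := false) (s1 := true) (s2 := false) (a := 0) (b := 0) (c := 1) (cn := .up) (n1 := ndB3q0) (n2 := ndB0q1) (pc := pcB0) (cut := Cut.none) (xt := Ext.none) (P1 := 0) (W1 := 536870912) (P2 := 536870912) (W2 := 536870912) (P3 := 536870912) (W3 := 50465866) (N0 := 3) (En := eng) (mo := mog) (C1 := cd3q0) (C2 := cd0q1) (C3 := pd0)
    rfl (fun _ => rfl) k0_pm_001

noncomputable def cut_pm_011 : Cut := Cut.of [[⟨0, 0, 0, 67108864⟩, ⟨1, 1, 0, 67108864⟩, ⟨2, 1, 0, 67108864⟩]]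

noncomputable def f_pm_011 : ℕ → ℕ → ℕ → ℕ → Bool := onCell 0 536870912 536870912 536870912 536870912 50465866
    (rowB 3 eng mog cd3q0 cd0q1 pd1 0 false true false .pnn 0 1 1 (qsf 0 536870912 536870912 536870912 1) ndB3q0 ndB0q1 pcB1 cut_pm_011 Ext.none)

def k0_pm_011 : ∃ t, chk3 f_pm_011 t 1 1 1 = true :=
  ⟨(a (b (l 4) (a (b (l 4) (b (l 4) (a (b (l 4) (a (b (l 4) (l 6)) (l 4))) (l 4)))) (l 4))) (l 4)), by decide +kernel⟩

theorem c_pm_011 : CertB 0 536870912 536870912 536870912 536870912 50465866 3 eng mog cd3q0 cd0q1 pd1 false true false .pnn 0 1 1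
    ndB3q0 ndB0q1 pcB1 cut_pm_011 Ext.none :=
  certB0 (fam := false) (s1 := true) (s2 := false) (a := 0) (b := 1) (c := 1) (cn := .pnn) (n1 := ndB3q0) (n2 := ndB0q1) (pc := pcB1) (cut := cut_pm_011) (xt := Ext.none) (P1 := 0) (W1 := 536870912) (P2 := 536870912) (W2 := 536870912) (P3 := 536870912) (W3 := 50465866) (N0 := 3) (En := eng) (mo := mog) (C1 := cd3q0) (C2 := cd0q1) (C3 := pd1)
    rfl k0_pm_011

noncomputable def cut_pm_012 : Cut := Cut.of [[⟨0, 0, 0, 67108864⟩, ⟨1, 1, 0, 67108864⟩, ⟨2, 1, 0, 67108864⟩]]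

noncomputable def f_pm_012 : ℕ → ℕ → ℕ → ℕ → Bool := onCell 536870912 536870912 0 536870912 536870912 50465866
    (rowB 3 eng mog cd3q0 cd0q2 pd1 2 false true false .pnp 0 1 2 (qsf 0 536870912 0 536870912 1) ndB3q0 ndB0q2 pcB1 cut_pm_012 Ext.none)

def k0_pm_012 : ∃ t, chk3 f_pm_012 t 1 1 1 = true :=
  ⟨(a (a (b (a (l 2) (b (l 2) (l 16678896))) (b (a (l 2) (b (l 16626464) (l 16585272))) (l 4))) (b (b (a (b (l 16717960) (l 16693120)) (l 16676552)) (a (l 16651592) (l 16620856))) (b (a (b (l 16604184) (l 16568472)) (b (l 16578232) (l 16549160))) (a (l 4) (l 4))))) (b (a (b (a (b (l 16654456) (l 16623256)) (b (l 16600528) (l 16570944))) (a (l 16582560) (l 16730320))) (b (a (b (l 16554488) (l 16531048)) (b (l 16512344) (l 16495976))) (a (b (l 16513384) (l 16509824)) (b (l 16486928) (a (l 16496240) (l 16486496)))))) (a (b (a (b (l 16547288) (a (l 16533536) (l 16528080))) (b (l 16525752) (a (l 16528576) (l 16529784)))) (b (a (l 51774502295) (l 50700756343))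 (l 4))) (b (a (b (l 16516072) (a (l 16531944) (l 16534552))) (a (b (l 16509864) (l 16536624)) (b (l 16504696) (a (l 16538864) (l 16541688))))) (a (b (a (b (l 16554920) (l 4)) (b (l 16667800) (l 16591304))) (l 4)) (b (a (b (a (l 16568776) (l 16573704)) (a (l 16601168) (l 16629840))) (a (b (l 16579768) (l 16659528)) (b (l 16587048) (l 16648816)))) (b (a (a (l 4) (l 16715872)) (a (a (l 16724464) (l 6)) (l 6))) (a (l 4) (l 6))))))))), by decide +kernel⟩

theorem c_pm_012 : CertB 0 536870912 0 536870912 536870912 50465866 3 eng mog cd3q0 cd0q2 pd1 false true false .pnp 0 1 2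
    ndB3q0 ndB0q2 pcB1 cut_pm_012 Ext.none :=
  certB2 (fam := false) (s1 := true) (s2 := false) (a := 0) (b := 1) (c := 2) (cn := .pnp) (n1 := ndB3q0) (n2 := ndB0q2) (pc := pcB1) (cut := cut_pm_012) (xt := Ext.none) (P1 := 0) (W1 := 536870912) (P2 := 0) (W2 := 536870912) (P3 := 536870912) (W3 := 50465866) (N0 := 3) (En := eng) (mo := mog) (C1 := cd3q0) (C2 := cd0q2) (C3 := pd1)
    rfl (fun _ => rfl) k0_pm_012

noncomputable def cut_pm_022 : Cut := Cut.of [[⟨0, 0, 0, 67108864⟩, ⟨1, 1, 0, 67108864⟩, ⟨2, 1, 0, 67108864⟩]]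

noncomputable def f_pm_022 : ℕ → ℕ → ℕ → ℕ → Bool := onCell 0 536870912 0 536870912 536870912 50465866
    (rowB 3 eng mog cd3q0 cd0q2 pd2 0 false true false .pp 0 2 2 (qsf 0 536870912 0 536870912 2) ndB3q0 ndB0q2 pcB2 cut_pm_022 Ext.none)

def k0_pm_022 : ∃ t, chk3 f_pm_022 t 1 1 1 = true :=
  ⟨(a (b (b (a (a (b (a (a (l 16500144) (l 16467384)) (l 16478680)) (a (a (l 16466048) (l 16473248)) (l 16481184))) (b (l 16491696) (a (l 16486352) (l 16485856)))) (a (b (a (l 16492264) (l 1)) (l 16472912)) (l 1))) (a (a (a (b (a (a (l 16527336) (l 16483568)) (l 16487016)) (a (b (l 16502960) (l 16560920)) (l 16512520))) (b (l 16491208) (l 16522200))) (b (l 16488264) (a (l 16504192) (l 16489656)))) (a (b (l 16460608) (a (l 16468656) (l 1))) (l 1)))) (a (b (a (a (b (b (a (b (l 16553920) (l 16590192)) (l 16536976)) (a (a (b (l 16597896) (a (a (l 16569544) (l 16568328)) (l 16566448))) (l 16558608)) (l 16556104))) (a (a (a (b (b (a (l 16592536) (l 16580784))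 (b (l 16591160) (l 16608352))) (a (b (b (l 16605384) (l 16617632)) (a (b (l 16619856) (l 16627128)) (l 16622824))) (b (l 16607560) (l 16621792)))) (b (b (l 16578840) (l 16591864)) (b (l 16605496) (l 16619664)))) (b (l 16581712) (l 16639664))) (b (l 16577472) (l 16601616)))) (b (b (l 16531768) (l 16547560)) (b (l 16565240) (a (l 16591296) (l 16578672))))) (b (a (l 16544528) (l 16499776)) (a (b (l 16541352) (l 16555520)) (b (l 16509328) (l 1))))) (a (a (b (b (a (a (a (a (b (b (c (l 16635752) (l 16632656)) (l 16641768)) (b (l 16649512) (l 6))) (b (l 16636584) (l 16652040))) (b (l 16634408) (l 16649816))) (a (l 16639104) (l 16635912))) (l 16628864)) (l 6)) (l 6)) (a (b (b (l 16615544) (l 6)) (l 6)) (b (b (l 16599792) (b (l 16616992) (l 16629112))) (l 1)))) (b (a (b (a (l 16581680) (l 1)) (l 1)) (l 1)) (l 1)))) (b (l 1) (l 1)))) (l 1)), by decide +kernel⟩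

theorem c_pm_022 : CertB 0 536870912 0 536870912 536870912 50465866 3 eng mog cd3q0 cd0q2 pd2 false true false .pp 0 2 2
    ndB3q0 ndB0q2 pcB2 cut_pm_022 Ext.none :=
  certB0 (fam := false) (s1 := true) (s2 := false) (a := 0) (b := 2) (c := 2) (cn := .pp) (n1 := ndB3q0) (n2 := ndB0q2) (pc := pcB2) (cut := cut_pm_022) (xt := Ext.none) (P1 := 0) (W1 := 536870912) (P2 := 0) (W2 := 536870912) (P3 := 536870912) (W3 := 50465866) (N0 := 3) (En := eng) (mo := mog) (C1 := cd3q0) (C2 := cd0q2) (C3 := pd2)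
    rfl k0_pm_022

noncomputable def f_pm_101 : ℕ → ℕ → ℕ → ℕ → Bool := onCell 536870912 536870912 536870912 536870912 536870912 50465866
    (rowB 3 eng mog cd3q1 cd0q1 pd0 0 false true false .npn 1 0 1 (qsf 536870912 536870912 536870912 536870912 0) ndB3q1 ndB0q1 pcB0 Cut.none Ext.none)

def k0_pm_101 : ∃ t, chk3 f_pm_101 t 1 1 1 = true :=
  ⟨(l 4), by decide +kernel⟩

theorem c_pm_101 : CertB 536870912 536870912 536870912 536870912 536870912 50465866 3 eng mog cd3q1 cd0q1 pd0 false true false .npn 1 0 1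
    ndB3q1 ndB0q1 pcB0 Cut.none Ext.none :=
  certB0 (fam := false) (s1 := true) (s2 := false) (a := 1) (b := 0) (c := 1) (cn := .npn) (n1 := ndB3q1) (n2 := ndB0q1) (pc := pcB0) (cut := Cut.none) (xt := Ext.none) (P1 := 536870912) (W1 := 536870912) (P2 := 536870912) (W2 := 536870912) (P3 := 536870912) (W3 := 50465866) (N0 := 3) (En := eng) (mo := mog) (C1 := cd3q1) (C2 := cd0q1) (C3 := pd0)
    rfl k0_pm_101

noncomputable def f_pm_102 : ℕ → ℕ → ℕ → ℕ → Bool := onCell 0 536870912 0 536870912 536870912 50465866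
    (rowB 3 eng mog cd3q1 cd0q2 pd0 2 false true false .npp 1 0 2 (qsf 536870912 536870912 0 536870912 0) ndB3q1 ndB0q2 pcB0 Cut.none Ext.none)

def k0_pm_102 : ∃ t, chk3 f_pm_102 t 1 1 1 = true :=
  ⟨(a (b (a (b (l 2) (a (l 2) (b (l 2) (a (l 2) (l 16627480))))) (b (a (b (a (l 16529360) (l 16559816)) (l 16585024)) (b (l 16596544) (l 16634328))) (a (b (a (l 16615136) (l 16643232)) (a (l 16655576) (l 16676536))) (b (l 16673784) (l 16697376))))) (a (b (a (l 2) (b (a (l 2) (l 16665392)) (a (l 16670984) (l 16681928)))) (a (b (a (l 2) (l 136465750151)) (a (b (l 16639888) (l 4)) (l 4))) (b (a (l 16662928) (l 16661032)) (l 4)))) (b (b (a (a (l 16683104) (l 16694288)) (l 16703280)) (a (l 16687488) (l 16685120))) (b (a (a (l 16657536) (l 16652976)) (l 16644808)) (l 4))))) (a (b (b (a (b (l 16634664) (l 16670856)) (b (l 16676456) (l 16704152))) (a (b (l 16700992) (l 16713144)) (l 16720560))) (b (b (a (l 16706936) (l 16702112)) (a (l 16677336) (l 16665736)))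 (b (a (l 16884032) (l 16620032)) (l 4)))) (b (a (b (b (l 16705744) (l 16722808)) (b (l 16727144) (l 16716512))) (b (a (l 16726752) (l 16733000)) (b (a (l 16727544) (l 16727488)) (l 16711288)))) (b (a (b (l 16693008) (l 16653768)) (b (l 16682272) (l 16636624))) (l 4))))), by decide +kernel⟩

theorem c_pm_102 : CertB 536870912 536870912 0 536870912 536870912 50465866 3 eng mog cd3q1 cd0q2 pd0 false true false .npp 1 0 2
    ndB3q1 ndB0q2 pcB0 Cut.none Ext.none :=
  certB2 (fam := false) (s1 := true) (s2 := false) (a := 1) (b := 0) (c := 2) (cn := .npp) (n1 := ndB3q1) (n2 := ndB0q2) (pc := pcB0) (cut := Cut.none) (xt := Ext.none) (P1 := 536870912) (W1 := 536870912) (P2 := 0) (W2 := 536870912) (P3 := 536870912) (W3 := 50465866) (N0 := 3) (En := eng) (mo := mog) (C1 := cd3q1) (C2 := cd0q2) (C3 := pd0)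
    rfl (fun _ => rfl) k0_pm_102

noncomputable def f_pm_112 : ℕ → ℕ → ℕ → ℕ → Bool := onCell 536870912 536870912 0 536870912 536870912 50465866
    (rowB 3 eng mog cd3q1 cd0q2 pd1 2 false true false .dn 1 1 2 (qsf 536870912 536870912 0 536870912 1) ndB3q1 ndB0q2 pcB1 Cut.none Ext.none)

def k0_pm_112 : ∃ t, chk3 f_pm_112 t 1 1 1 = true :=
  ⟨(a (a (b (a (b (l 16743392) (b (l 16720432) (l 16693920))) (b (l 16735648) (l 16681200))) (b (a (b (l 16657440) (l 16607440)) (b (l 16623312) (l 16576296))) (l 4))) (b (a (b (l 240552074823) (l 16642728)) (l 1)) (b (l 1) (l 1)))) (l 1)), by decide +kernel⟩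

theorem c_pm_112 : CertB 536870912 536870912 0 536870912 536870912 50465866 3 eng mog cd3q1 cd0q2 pd1 false true false .dn 1 1 2
    ndB3q1 ndB0q2 pcB1 Cut.none Ext.none :=
  certB2 (fam := false) (s1 := true) (s2 := false) (a := 1) (b := 1) (c := 2) (cn := .dn) (n1 := ndB3q1) (n2 := ndB0q2) (pc := pcB1) (cut := Cut.none) (xt := Ext.none) (P1 := 536870912) (W1 := 536870912) (P2 := 0) (W2 := 536870912) (P3 := 536870912) (W3 := 50465866) (N0 := 3) (En := eng) (mo := mog) (C1 := cd3q1) (C2 := cd0q2) (C3 := pd1)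
    rfl (fun _ => rfl) k0_pm_112

noncomputable def cut_pm_202_a : Cut := Cut.of [[⟨0, 1, 0, 67108864⟩, ⟨1, 0, 0, 67108864⟩, ⟨2, 1, 0, 67108864⟩]]

noncomputable def f_pm_202_a : ℕ → ℕ → ℕ → ℕ → Bool := onCell 0 536870912 0 536870912 536870912 50465866
    (rowB 3 eng mog cd3q2a cd0q2 pd0 0 false true false .pp 2 0 2 (qsf 0 536870912 0 536870912 0) ndB3q2a ndB0q2 pcB0 cut_pm_202_a Ext.none)

def k0_pm_202_a : ∃ t, chk3 f_pm_202_a t 1 1 1 = true :=
  ⟨(a (l 3) (b (l 3) (b (l 3) (a (l 3) (b (l 3) (a (l 3) (l 6))))))), by decide +kernel⟩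

theorem c_pm_202_a : CertB 0 536870912 0 536870912 536870912 50465866 3 eng mog cd3q2a cd0q2 pd0 false true false .pp 2 0 2
    ndB3q2a ndB0q2 pcB0 cut_pm_202_a Ext.none :=
  certB0 (fam := false) (s1 := true) (s2 := false) (a := 2) (b := 0) (c := 2) (cn := .pp) (n1 := ndB3q2a) (n2 := ndB0q2) (pc := pcB0) (cut := cut_pm_202_a) (xt := Ext.none) (P1 := 0) (W1 := 536870912) (P2 := 0) (W2 := 536870912) (P3 := 536870912) (W3 := 50465866) (N0 := 3) (En := eng) (mo := mog) (C1 := cd3q2a) (C2 := cd0q2) (C3 := pd0)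
    rfl k0_pm_202_a

noncomputable def cut_pm_202_b : Cut := Cut.of [[⟨0, 1, 0, 67108864⟩, ⟨1, 0, 0, 67108864⟩, ⟨2, 1, 0, 67108864⟩]]

noncomputable def f_pm_202_b : ℕ → ℕ → ℕ → ℕ → Bool := onCell 1239849684 370763052 0 536870912 536870912 50465866
    (rowB 3 eng mog cd3q2b cd0q2 pd0 0 false true false .pp 2 0 2 (qsf 1239849684 370763052 0 536870912 0) ndB3q2b ndB0q2 pcB0 cut_pm_202_b Ext.none)

def k0_pm_202_b : ∃ t, chk3 f_pm_202_b t 1 1 1 = true :=
  ⟨(l 3), by decide +kernel⟩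

theorem c_pm_202_b : CertB 1239849684 370763052 0 536870912 536870912 50465866 3 eng mog cd3q2b cd0q2 pd0 false true false .pp 2 0 2
    ndB3q2b ndB0q2 pcB0 cut_pm_202_b Ext.none :=
  certB0 (fam := false) (s1 := true) (s2 := false) (a := 2) (b := 0) (c := 2) (cn := .pp) (n1 := ndB3q2b) (n2 := ndB0q2) (pc := pcB0) (cut := cut_pm_202_b) (xt := Ext.none) (P1 := 1239849684) (W1 := 370763052) (P2 := 0) (W2 := 536870912) (P3 := 536870912) (W3 := 50465866) (N0 := 3) (En := eng) (mo := mog) (C1 := cd3q2b) (C2 := cd0q2) (C3 := pd0)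
    rfl k0_pm_202_b

noncomputable def f_mm_001 : ℕ → ℕ → ℕ → ℕ → Bool := onCell 0 536870912 536870912 536870912 536870912 50465866
    (rowB 3 eng mog cd3q0 cd0q1 pd0 0 false false false .up 0 0 1 (qsf 0 536870912 536870912 536870912 0) ndB3q0 ndB0q1 pcB0 Cut.none Ext.none)

def k0_mm_001 : ∃ t, chk3 f_mm_001 t 1 1 1 = true :=
  ⟨(l 5), by decide +kernel⟩

theorem c_mm_001 : CertB 0 536870912 536870912 536870912 536870912 50465866 3 eng mog cd3q0 cd0q1 pd0 false false false .up 0 0 1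
    ndB3q0 ndB0q1 pcB0 Cut.none Ext.none :=
  certB0 (fam := false) (s1 := false) (s2 := false) (a := 0) (b := 0) (c := 1) (cn := .up) (n1 := ndB3q0) (n2 := ndB0q1) (pc := pcB0) (cut := Cut.none) (xt := Ext.none) (P1 := 0) (W1 := 536870912) (P2 := 536870912) (W2 := 536870912) (P3 := 536870912) (W3 := 50465866) (N0 := 3) (En := eng) (mo := mog) (C1 := cd3q0) (C2 := cd0q1) (C3 := pd0)
    rfl k0_mm_001

noncomputable def f_mm_011 : ℕ → ℕ → ℕ → ℕ → Bool := onCell 0 536870912 536870912 536870912 536870912 50465866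
    (rowB 3 eng mog cd3q0 cd0q1 pd1 0 false false false .pnn 0 1 1 (qsf 0 536870912 536870912 536870912 1) ndB3q0 ndB0q1 pcB1 Cut.none Ext.none)

def k0_mm_011 : ∃ t, chk3 f_mm_011 t 1 1 1 = true :=
  ⟨(l 5), by decide +kernel⟩

theorem c_mm_011 : CertB 0 536870912 536870912 536870912 536870912 50465866 3 eng mog cd3q0 cd0q1 pd1 false false false .pnn 0 1 1
    ndB3q0 ndB0q1 pcB1 Cut.none Ext.none :=
  certB0 (fam := false) (s1 := false) (s2 := false) (a := 0) (b := 1) (c := 1) (cn := .pnn) (n1 := ndB3q0) (n2 := ndB0q1) (pc := pcB1) (cut := Cut.none) (xt := Ext.none) (P1 := 0) (W1 := 536870912) (P2 := 536870912) (W2 := 536870912) (P3 := 536870912) (W3 := 50465866) (N0 := 3) (En := eng) (mo := mog) (C1 := cd3q0) (C2 := cd0q1) (C3 := pd1)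
    rfl k0_mm_011

noncomputable def f_mm_012 : ℕ → ℕ → ℕ → ℕ → Bool := onCell 0 536870912 0 536870912 536870912 50465866
    (rowB 3 eng mog cd3q0 cd0q2 pd1 0 false false false .pnp 0 1 2 (qsf 0 536870912 0 536870912 1) ndB3q0 ndB0q2 pcB1 Cut.none Ext.none)

def k0_mm_012 : ∃ t, chk3 f_mm_012 t 1 1 1 = true :=
  ⟨(l 5), by decide +kernel⟩

theorem c_mm_012 : CertB 0 536870912 0 536870912 536870912 50465866 3 eng mog cd3q0 cd0q2 pd1 false false false .pnp 0 1 2
    ndB3q0 ndB0q2 pcB1 Cut.none Ext.none :=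
  certB0 (fam := false) (s1 := false) (s2 := false) (a := 0) (b := 1) (c := 2) (cn := .pnp) (n1 := ndB3q0) (n2 := ndB0q2) (pc := pcB1) (cut := Cut.none) (xt := Ext.none) (P1 := 0) (W1 := 536870912) (P2 := 0) (W2 := 536870912) (P3 := 536870912) (W3 := 50465866) (N0 := 3) (En := eng) (mo := mog) (C1 := cd3q0) (C2 := cd0q2) (C3 := pd1)
    rfl k0_mm_012

noncomputable def f_mm_022 : ℕ → ℕ → ℕ → ℕ → Bool := onCell 0 536870912 0 536870912 536870912 50465866
    (rowB 3 eng mog cd3q0 cd0q2 pd2 0 false false false .pp 0 2 2 (qsf 0 536870912 0 536870912 2) ndB3q0 ndB0q2 pcB2 Cut.none Ext.none)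

def k0_mm_022 : ∃ t, chk3 f_mm_022 t 1 1 1 = true :=
  ⟨(l 5), by decide +kernel⟩

theorem c_mm_022 : CertB 0 536870912 0 536870912 536870912 50465866 3 eng mog cd3q0 cd0q2 pd2 false false false .pp 0 2 2
    ndB3q0 ndB0q2 pcB2 Cut.none Ext.none :=
  certB0 (fam := false) (s1 := false) (s2 := false) (a := 0) (b := 2) (c := 2) (cn := .pp) (n1 := ndB3q0) (n2 := ndB0q2) (pc := pcB2) (cut := Cut.none) (xt := Ext.none) (P1 := 0) (W1 := 536870912) (P2 := 0) (W2 := 536870912) (P3 := 536870912) (W3 := 50465866) (N0 := 3) (En := eng) (mo := mog) (C1 := cd3q0) (C2 := cd0q2) (C3 := pd2)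
    rfl k0_mm_022

noncomputable def f_mm_101 : ℕ → ℕ → ℕ → ℕ → Bool := onCell 536870912 536870912 536870912 536870912 536870912 50465866
    (rowB 3 eng mog cd3q1 cd0q1 pd0 0 false false false .npn 1 0 1 (qsf 536870912 536870912 536870912 536870912 0) ndB3q1 ndB0q1 pcB0 Cut.none Ext.none)

def k0_mm_101 : ∃ t, chk3 f_mm_101 t 1 1 1 = true :=
  ⟨(l 3), by decide +kernel⟩

theorem c_mm_101 : CertB 536870912 536870912 536870912 536870912 536870912 50465866 3 eng mog cd3q1 cd0q1 pd0 false false false .npn 1 0 1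
    ndB3q1 ndB0q1 pcB0 Cut.none Ext.none :=
  certB0 (fam := false) (s1 := false) (s2 := false) (a := 1) (b := 0) (c := 1) (cn := .npn) (n1 := ndB3q1) (n2 := ndB0q1) (pc := pcB0) (cut := Cut.none) (xt := Ext.none) (P1 := 536870912) (W1 := 536870912) (P2 := 536870912) (W2 := 536870912) (P3 := 536870912) (W3 := 50465866) (N0 := 3) (En := eng) (mo := mog) (C1 := cd3q1) (C2 := cd0q1) (C3 := pd0)
    rfl k0_mm_101

noncomputable def f_mm_102 : ℕ → ℕ → ℕ → ℕ → Bool := onCell 536870912 536870912 0 536870912 536870912 50465866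
    (rowB 3 eng mog cd3q1 cd0q2 pd0 0 false false false .npp 1 0 2 (qsf 536870912 536870912 0 536870912 0) ndB3q1 ndB0q2 pcB0 Cut.none Ext.none)

def k0_mm_102 : ∃ t, chk3 f_mm_102 t 1 1 1 = true :=
  ⟨(l 5), by decide +kernel⟩

theorem c_mm_102 : CertB 536870912 536870912 0 536870912 536870912 50465866 3 eng mog cd3q1 cd0q2 pd0 false false false .npp 1 0 2
    ndB3q1 ndB0q2 pcB0 Cut.none Ext.none :=
  certB0 (fam := false) (s1 := false) (s2 := false) (a := 1) (b := 0) (c := 2) (cn := .npp) (n1 := ndB3q1) (n2 := ndB0q2) (pc := pcB0) (cut := Cut.none) (xt := Ext.none) (P1 := 536870912) (W1 := 536870912) (P2 := 0) (W2 := 536870912) (P3 := 536870912) (W3 := 50465866) (N0 := 3) (En := eng) (mo := mog) (C1 := cd3q1) (C2 := cd0q2) (C3 := pd0)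
    rfl k0_mm_102

noncomputable def f_mm_112 : ℕ → ℕ → ℕ → ℕ → Bool := onCell 536870912 536870912 0 536870912 536870912 50465866
    (rowB 3 eng mog cd3q1 cd0q2 pd1 0 false false false .dn 1 1 2 (qsf 536870912 536870912 0 536870912 1) ndB3q1 ndB0q2 pcB1 Cut.none Ext.none)

def k0_mm_112 : ∃ t, chk3 f_mm_112 t 1 1 1 = true :=
  ⟨(l 5), by decide +kernel⟩

theorem c_mm_112 : CertB 536870912 536870912 0 536870912 536870912 50465866 3 eng mog cd3q1 cd0q2 pd1 false false false .dn 1 1 2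
    ndB3q1 ndB0q2 pcB1 Cut.none Ext.none :=
  certB0 (fam := false) (s1 := false) (s2 := false) (a := 1) (b := 1) (c := 2) (cn := .dn) (n1 := ndB3q1) (n2 := ndB0q2) (pc := pcB1) (cut := Cut.none) (xt := Ext.none) (P1 := 536870912) (W1 := 536870912) (P2 := 0) (W2 := 536870912) (P3 := 536870912) (W3 := 50465866) (N0 := 3) (En := eng) (mo := mog) (C1 := cd3q1) (C2 := cd0q2) (C3 := pd1)
    rfl k0_mm_112

noncomputable def f_mm_202_a : ℕ → ℕ → ℕ → ℕ → Bool := onCell 0 536870912 0 536870912 536870912 50465866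
    (rowB 3 eng mog cd3q2a cd0q2 pd0 0 false false false .pp 2 0 2 (qsf 0 536870912 0 536870912 0) ndB3q2a ndB0q2 pcB0 Cut.none Ext.none)

def k0_mm_202_a : ∃ t, chk3 f_mm_202_a t 1 1 1 = true :=
  ⟨(l 3), by decide +kernel⟩

theorem c_mm_202_a : CertB 0 536870912 0 536870912 536870912 50465866 3 eng mog cd3q2a cd0q2 pd0 false false false .pp 2 0 2
    ndB3q2a ndB0q2 pcB0 Cut.none Ext.none :=
  certB0 (fam := false) (s1 := false) (s2 := false) (a := 2) (b := 0) (c := 2) (cn := .pp) (n1 := ndB3q2a) (n2 := ndB0q2) (pc := pcB0) (cut := Cut.none) (xt := Ext.none) (P1 := 0) (W1 := 536870912) (P2 := 0) (W2 := 536870912) (P3 := 536870912) (W3 := 50465866) (N0 := 3) (En := eng) (mo := mog) (C1 := cd3q2a) (C2 := cd0q2) (C3 := pd0)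
    rfl k0_mm_202_a

noncomputable def f_mm_202_b : ℕ → ℕ → ℕ → ℕ → Bool := onCell 1239849684 370763052 0 536870912 536870912 50465866
    (rowB 3 eng mog cd3q2b cd0q2 pd0 0 false false false .pp 2 0 2 (qsf 1239849684 370763052 0 536870912 0) ndB3q2b ndB0q2 pcB0 Cut.none Ext.none)

def k0_mm_202_b : ∃ t, chk3 f_mm_202_b t 1 1 1 = true :=
  ⟨(l 3), by decide +kernel⟩

theorem c_mm_202_b : CertB 1239849684 370763052 0 536870912 536870912 50465866 3 eng mog cd3q2b cd0q2 pd0 false false false .pp 2 0 2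
    ndB3q2b ndB0q2 pcB0 Cut.none Ext.none :=
  certB0 (fam := false) (s1 := false) (s2 := false) (a := 2) (b := 0) (c := 2) (cn := .pp) (n1 := ndB3q2b) (n2 := ndB0q2) (pc := pcB0) (cut := Cut.none) (xt := Ext.none) (P1 := 1239849684) (W1 := 370763052) (P2 := 0) (W2 := 536870912) (P3 := 536870912) (W3 := 50465866) (N0 := 3) (En := eng) (mo := mog) (C1 := cd3q2b) (C2 := cd0q2) (C3 := pd0)
    rfl k0_mm_202_b

end Pool.Agent.Strip051.G.I5000_5470.Tab.C.BB30

namespace Pool.Agent.Strip051.G.I5000_5470.Tab.C.BB31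

open Pool.Agent.Strip051.PB Pool.Agent.Strip051.PB.T
open Pool.Agent.Strip051.G.I5000_5470.Tab

noncomputable def f_pp_001 : ℕ → ℕ → ℕ → ℕ → Bool := onCell 0 536870912 0 536870912 536870912 50465866
    (rowB 3 eng mog cd3q0 cd1q1 pd0 1 false true true .up 0 0 1 (qsf 0 536870912 536870912 536870912 0) ndB3q0 ndB1q1 pcB0 Cut.none Ext.none)

def k0_pp_001 : ∃ t, chk3 f_pp_001 t 1 1 1 = true :=
  ⟨(l 3), by decide +kernel⟩

theorem c_pp_001 : CertB 0 536870912 536870912 536870912 536870912 50465866 3 eng mog cd3q0 cd1q1 pd0 false true true .up 0 0 1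
    ndB3q0 ndB1q1 pcB0 Cut.none Ext.none :=
  certB1 (fam := false) (s1 := true) (s2 := true) (a := 0) (b := 0) (c := 1) (cn := .up) (n1 := ndB3q0) (n2 := ndB1q1) (pc := pcB0) (cut := Cut.none) (xt := Ext.none) (P1 := 0) (W1 := 536870912) (P2 := 536870912) (W2 := 536870912) (P3 := 536870912) (W3 := 50465866) (N0 := 3) (En := eng) (mo := mog) (C1 := cd3q0) (C2 := cd1q1) (C3 := pd0)
    rfl (fun _ => rfl) k0_pp_001

noncomputable def f_pp_011 : ℕ → ℕ → ℕ → ℕ → Bool := onCell 0 536870912 536870912 536870912 536870912 50465866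
    (rowB 3 eng mog cd3q0 cd1q1 pd1 0 false true true .pnn 0 1 1 (qsf 0 536870912 536870912 536870912 1) ndB3q0 ndB1q1 pcB1 Cut.none Ext.none)

def k0_pp_011 : ∃ t, chk3 f_pp_011 t 1 1 1 = true :=
  ⟨(a (b (l 3) (l 3)) (l 3)), by decide +kernel⟩

theorem c_pp_011 : CertB 0 536870912 536870912 536870912 536870912 50465866 3 eng mog cd3q0 cd1q1 pd1 false true true .pnn 0 1 1
    ndB3q0 ndB1q1 pcB1 Cut.none Ext.none :=
  certB0 (fam := false) (s1 := true) (s2 := true) (a := 0) (b := 1) (c := 1) (cn := .pnn) (n1 := ndB3q0) (n2 := ndB1q1) (pc := pcB1) (cut := Cut.none) (xt := Ext.none) (P1 := 0) (W1 := 536870912) (P2 := 536870912) (W2 := 536870912) (P3 := 536870912) (W3 := 50465866) (N0 := 3) (En := eng) (mo := mog) (C1 := cd3q0) (C2 := cd1q1) (C3 := pd1)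
    rfl k0_pp_011

noncomputable def cut_pp_012_a : Cut := Cut.of [[⟨0, 0, 0, 44739242⟩, ⟨1, 1, 0, 44739242⟩, ⟨2, 1, 0, 44739242⟩]]

noncomputable def f_pp_012_a : ℕ → ℕ → ℕ → ℕ → Bool := onCell 536870912 536870912 0 536870912 536870912 50465866
    (rowB 3 eng mog cd3q0 cd1q2a pd1 2 false true true .pnp 0 1 2 (qsf 0 536870912 0 536870912 1) ndB3q0 ndB1q2a pcB1 cut_pp_012_a Ext.none)

def k0_pp_012_a : ∃ t, chk3 f_pp_012_a t 2 1 1 = true :=
  ⟨(b (a (b (l 2) (a (l 2) (b (l 2) (l 16673040)))) (b (a (l 16793144) (l 16741792)) (a (b (l 16808200) (l 16725016)) (b (l 16754088) (l 16749576))))) (a (b (a (l 2) (b (l 16575552) (b (l 16564968) (a (l 16599904) (l 16618960))))) (b (a (a (l 2) (b (l 93515973975) (a (l 203641693047) (l 203104843287)))) (b (a (l 16661056) (l 16681536)) (a (b (a (l 205252296295) (l 16720608)) (l 3)) (a (a (l 204715528439) (l 206863025271)) (a (l 202568071143) (l 197736338311)))))) (l 3))) (b (a (b (a (l 16645384) (l 16681968))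 (a (l 16619280) (l 16869784))) (b (l 16717176) (b (l 16662392) (l 16823440)))) (a (b (b (a (l 16703912) (l 16721880)) (a (b (l 16760464) (a (l 198273227191) (l 16807048))) (a (l 16794888) (l 16801960)))) (a (l 3) (b (a (l 318532407815) (l 186462181543)) (l 3)))) (b (a (b (l 16738856) (a (l 16808592) (l 16817384))) (b (l 16763224) (a (l 16827216) (l 16834536)))) (b (a (a (l 182704122871) (l 169282345415)) (b (a (l 16885080) (l 16882928)) (l 176798791751))) (l 3))))))), by decide +kernel⟩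

def k1_pp_012_a : ∃ t, chk3 f_pp_012_a t 6 1 1 = true :=
  ⟨(b (b (a (l 16718432) (l 16671488)) (a (b (l 16746824) (l 16757656)) (b (l 16712144) (l 16735680)))) (b (a (b (l 16754776) (b (l 16713200) (l 16755808))) (b (l 16758544) (l 16746488))) (a (b (a (b (l 16777704) (l 16829688)) (b (l 16771032) (l 16814536))) (b (a (b (l 16868592) (l 186999238727)) (b (l 16850576) (l 176798662679))) (l 3))) (b (b (l 16965320) (a (l 16797792) (l 16780528))) (a (a (b (l 16847504) (l 3)) (b (l 16835968) (l 198810210839))) (b (b (l 16807816) (a (l 16834160) (l 16821480))) (b (a (l 176261637271) (a (l 168208551975) (l 159081729383))) (l 3)))))))), by decide +kernel⟩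

def k2_pp_012_a : ∃ t, chk3 f_pp_012_a t 7 1 1 = true :=
  ⟨(b (b (a (l 16620232) (a (l 16580552) (l 16552896))) (a (b (l 16664144) (l 16692536)) (a (b (l 16622096) (l 16650896)) (b (l 16591488) (l 16618808))))) (b (a (b (l 16746160) (a (l 16762728) (l 16748584))) (a (b (l 16684248) (b (l 16712280) (l 16731104))) (b (l 16650568) (b (l 16677928) (l 16697392))))) (a (b (a (b (l 16748656) (l 16766136)) (b (l 16764936) (l 16759544))) (b (a (a (b (l 16792392) (l 16811720)) (l 16795016)) (b (l 16777208) (l 16793424))) (a (b (a (a (l 159081709575) (l 162839796647)) (a (l 167671627495) (l 172503456215))) (l 3)) (b (a (b (l 16810784) (l 16841128)) (b (l 16802456) (l 16811192))) (b (a (l 175187794919) (a (l 170355958215) (l 167134724535))) (l 3)))))) (b (a (b (l 16749856) (a (l 16767944) (l 16761088))) (b (a (l 16726064) (l 16709000)) (a (l 16746200) (b (l 16724520) (l 16734912))))) (b (a (a (l 16774944) (l 16768992)) (a (b (l 16761160) (l 16770912)) (a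 (l 16775720) (b (l 16741376) (l 6))))) (a (b (a (l 16797808) (l 16788080)) (b (a (a (l 166060979895) (l 162839755271)) (a (l 16802248) (l 16796696))) (a (l 3) (a (l 171966530375) (a (l 171429650551) (l 6)))))) (b (a (b (l 16774304) (l 16780816)) (l 6)) (l 6)))))))), by decide +kernel⟩

theorem s3_pp_012_a : ∃ t, chk3 f_pp_012_a t 3 1 1 = true := ex3_a k1_pp_012_a k2_pp_012_a

theorem s4_pp_012_a : ∃ t, chk3 f_pp_012_a t 1 1 1 = true := ex3_a k0_pp_012_a s3_pp_012_a

theorem c_pp_012_a : CertB 0 536870912 0 536870912 536870912 50465866 3 eng mog cd3q0 cd1q2a pd1 false true true .pnp 0 1 2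
    ndB3q0 ndB1q2a pcB1 cut_pp_012_a Ext.none :=
  certB2 (fam := false) (s1 := true) (s2 := true) (a := 0) (b := 1) (c := 2) (cn := .pnp) (n1 := ndB3q0) (n2 := ndB1q2a) (pc := pcB1) (cut := cut_pp_012_a) (xt := Ext.none) (P1 := 0) (W1 := 536870912) (P2 := 0) (W2 := 536870912) (P3 := 536870912) (W3 := 50465866) (N0 := 3) (En := eng) (mo := mog) (C1 := cd3q0) (C2 := cd1q2a) (C3 := pd1)
    rfl (fun _ => rfl) s4_pp_012_a

noncomputable def cut_pp_012_b : Cut := Cut.of [[⟨0, 0, 0, 44739242⟩, ⟨1, 1, 0, 44739242⟩, ⟨2, 1, 0, 44739242⟩]]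

noncomputable def f_pp_012_b : ℕ → ℕ → ℕ → ℕ → Bool := onCell 536870912 536870912 1239849684 370763052 536870912 50465866
    (rowB 3 eng mog cd3q0 cd1q2b pd1 2 false true true .pnp 0 1 2 (qsf 0 536870912 1239849684 370763052 1) ndB3q0 ndB1q2b pcB1 cut_pp_012_b Ext.none)

def k0_pp_012_b : ∃ t, chk3 f_pp_012_b t 1 1 1 = true :=
  ⟨(a (a (l 2) (b (b (a (l 16756912) (l 16734368)) (a (l 2) (l 16794248))) (l 2))) (b (a (b (a (l 16697224) (l 16866640)) (l 16717424)) (b (a (b (l 16572960) (l 16550304)) (a (l 16508240) (l 16477488))) (a (l 16570288) (b (l 16444016) (l 16449376))))) (a (b (l 16837824) (l 2)) (b (a (l 16681424) (l 16525264)) (l 16811896))))), by decide +kernel⟩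

theorem c_pp_012_b : CertB 0 536870912 1239849684 370763052 536870912 50465866 3 eng mog cd3q0 cd1q2b pd1 false true true .pnp 0 1 2
    ndB3q0 ndB1q2b pcB1 cut_pp_012_b Ext.none :=
  certB2 (fam := false) (s1 := true) (s2 := true) (a := 0) (b := 1) (c := 2) (cn := .pnp) (n1 := ndB3q0) (n2 := ndB1q2b) (pc := pcB1) (cut := cut_pp_012_b) (xt := Ext.none) (P1 := 0) (W1 := 536870912) (P2 := 1239849684) (W2 := 370763052) (P3 := 536870912) (W3 := 50465866) (N0 := 3) (En := eng) (mo := mog) (C1 := cd3q0) (C2 := cd1q2b) (C3 := pd1)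
    rfl (fun _ => rfl) k0_pp_012_b

noncomputable def cut_pp_022_a : Cut := Cut.of [[⟨0, 0, 0, 67108864⟩, ⟨1, 1, 0, 67108864⟩, ⟨2, 1, 0, 67108864⟩]]

noncomputable def f_pp_022_a : ℕ → ℕ → ℕ → ℕ → Bool := onCell 0 536870912 0 536870912 536870912 50465866
    (rowB 3 eng mog cd3q0 cd1q2a pd2 0 false true true .pp 0 2 2 (qsf 0 536870912 0 536870912 2) ndB3q0 ndB1q2a pcB2 cut_pp_022_a Ext.none)

def k0_pp_022_a : ∃ t, chk3 f_pp_022_a t 1 1 1 = true :=
  ⟨(a (b (a (b (a (a (a (a (l 16567544) (l 16531128)) (l 16519944)) (l 16505984)) (a (l 16514032) (l 16527272))) (a (a (b (a (l 16551808) (l 16502880)) (b (a (a (l 16573392) (l 16513872)) (l 16522120)) (a (a (b (l 16587536) (l 16597592)) (l 16533536)) (l 16538696)))) (b (l 16522840) (l 16572560))) (a (b (l 16544712) (l 16574840)) (b (l 16561368) (l 16592720))))) (a (a (b (l 16535808) (a (l 16671408) (l 163779092103))) (b (l 16536912) (l 1))) (l 1))) (b (a (a (b (a (a (b (a (b (l 16544744) (l 16554872))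 (l 16554288)) (a (a (l 16569800) (l 16572400)) (l 16576168))) (l 16655864)) (a (l 16584992) (l 16598312))) (a (a (a (b (b (l 16588360) (l 16600712)) (b (l 16613768) (l 16638128))) (b (l 16600288) (l 16627120))) (a (l 16682448) (l 16647456))) (b (l 16629432) (a (l 16651104) (l 16663488))))) (b (a (b (l 16603696) (l 16626944)) (l 16717824)) (a (b (l 16652240) (l 20971424695)) (b (l 16670528) (l 1))))) (l 1)) (a (b (a (a (b (a (a (a (b (l 16640512) (b (l 16651968) (l 6))) (b (l 16644056) (l 16659680))) (l 16699088)) (b (l 16659984) (l 16676088))) (l 6)) (b (a (b (l 16673584) (l 16689272)) (l 16693200)) (a (l 6) (b (l 16716536) (l 315176743559))))) (a (b (a (l 249678473623) (l 1)) (l 1)) (l 1))) (a (a (l 6) (a (l 6) (l 1))) (l 1))) (l 1)))) (l 1)), by decide +kernel⟩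

theorem c_pp_022_a : CertB 0 536870912 0 536870912 536870912 50465866 3 eng mog cd3q0 cd1q2a pd2 false true true .pp 0 2 2
    ndB3q0 ndB1q2a pcB2 cut_pp_022_a Ext.none :=
  certB0 (fam := false) (s1 := true) (s2 := true) (a := 0) (b := 2) (c := 2) (cn := .pp) (n1 := ndB3q0) (n2 := ndB1q2a) (pc := pcB2) (cut := cut_pp_022_a) (xt := Ext.none) (P1 := 0) (W1 := 536870912) (P2 := 0) (W2 := 536870912) (P3 := 536870912) (W3 := 50465866) (N0 := 3) (En := eng) (mo := mog) (C1 := cd3q0) (C2 := cd1q2a) (C3 := pd2)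
    rfl k0_pp_022_a

noncomputable def cut_pp_022_b : Cut := Cut.of [[⟨0, 0, 0, 67108864⟩, ⟨1, 1, 0, 67108864⟩, ⟨2, 1, 0, 67108864⟩]]

noncomputable def f_pp_022_b : ℕ → ℕ → ℕ → ℕ → Bool := onCell 0 536870912 1239849684 370763052 536870912 50465866
    (rowB 3 eng mog cd3q0 cd1q2b pd2 0 false true true .pp 0 2 2 (qsf 0 536870912 1239849684 370763052 2) ndB3q0 ndB1q2b pcB2 cut_pp_022_b Ext.none)

def k0_pp_022_b : ∃ t, chk3 f_pp_022_b t 1 1 1 = true :=
  ⟨(a (b (a (a (b (a (b (b (a (l 16538944) (l 16447856)) (a (l 16479352) (l 16403880))) (a (l 16435648) (l 16359856))) (b (l 16444928) (b (l 16384320) (l 16338504)))) (a (b (l 16466088) (l 16262056)) (l 16348000))) (b (b (l 16472352) (b (l 16422280) (l 16388984))) (b (a (l 16316024) (l 16353112)) (l 16254264)))) (b (a (b (l 16488224) (l 16435568)) (l 16458240)) (a (b (l 16383840) (l 16332136)) (l 16370752)))) (a (b (a (a (l 16222360) (l 16184464)) (l 16164592)) (a (b (l 16179512) (l 16298768)) (l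 16077952))) (b (a (b (l 16276056) (l 16209776)) (l 16474600)) (a (l 16088456) (l 16188656))))) (b (a (a (b (l 1) (l 16378464)) (l 297996760567)) (l 1)) (a (b (a (l 16309512) (l 16386224)) (a (l 16242792) (l 16348160))) (b (l 16577312) (l 16566688))))), by decide +kernel⟩

theorem c_pp_022_b : CertB 0 536870912 1239849684 370763052 536870912 50465866 3 eng mog cd3q0 cd1q2b pd2 false true true .pp 0 2 2
    ndB3q0 ndB1q2b pcB2 cut_pp_022_b Ext.none :=
  certB0 (fam := false) (s1 := true) (s2 := true) (a := 0) (b := 2) (c := 2) (cn := .pp) (n1 := ndB3q0) (n2 := ndB1q2b) (pc := pcB2) (cut := cut_pp_022_b) (xt := Ext.none) (P1 := 0) (W1 := 536870912) (P2 := 1239849684) (W2 := 370763052) (P3 := 536870912) (W3 := 50465866) (N0 := 3) (En := eng) (mo := mog) (C1 := cd3q0) (C2 := cd1q2b) (C3 := pd2)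
    rfl k0_pp_022_b

noncomputable def f_pp_023 : ℕ → ℕ → ℕ → ℕ → Bool := onCell 1073741824 536870912 1610612736 536870912 536870912 50465866
    (rowB 3 eng mog cd3q0 cd1q3 pd2 2 false true true .up 0 2 3 (qsf 0 536870912 1610612736 536870912 2) ndB3q0 ndB1q3 pcB2 Cut.none Ext.none)

def k0_pp_023 : ∃ t, chk3 f_pp_023 t 1 1 1 = true :=
  ⟨(a (b (a (b (l 16771968) (l 16895168)) (b (a (l 16488752) (l 16332560)) (l 16738336))) (a (l 2) (l 16963544))) (a (b (b (a (l 16190512) (l 16079584)) (a (l 16585272) (l 16505152))) (b (l 16646528) (l 16738128))) (b (b (a (l 16108952) (b (l 16105224) (l 16252424))) (a (l 16467576) (l 16462224))) (a (l 16725848) (l 16710472))))), by decide +kernel⟩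

theorem c_pp_023 : CertB 0 536870912 1610612736 536870912 536870912 50465866 3 eng mog cd3q0 cd1q3 pd2 false true true .up 0 2 3
    ndB3q0 ndB1q3 pcB2 Cut.none Ext.none :=
  certB2 (fam := false) (s1 := true) (s2 := true) (a := 0) (b := 2) (c := 3) (cn := .up) (n1 := ndB3q0) (n2 := ndB1q3) (pc := pcB2) (cut := Cut.none) (xt := Ext.none) (P1 := 0) (W1 := 536870912) (P2 := 1610612736) (W2 := 536870912) (P3 := 536870912) (W3 := 50465866) (N0 := 3) (En := eng) (mo := mog) (C1 := cd3q0) (C2 := cd1q3) (C3 := pd2)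
    rfl (fun _ => rfl) k0_pp_023

noncomputable def f_pp_033 : ℕ → ℕ → ℕ → ℕ → Bool := onCell 0 536870912 1610612736 536870912 536870912 50465866
    (rowB 3 eng mog cd3q0 cd1q3 pd3 1 false true true .pnn 0 3 3 (qsf 0 536870912 1610612736 536870912 3) ndB3q0 ndB1q3 pcB3 Cut.none Ext.none)

def k0_pp_033 : ∃ t, chk3 f_pp_033 t 1 1 1 = true :=
  ⟨(a (b (b (a (b (a (l 16292744) (l 16379760)) (a (l 16449240) (l 16525544))) (b (l 16534168) (l 4))) (b (a (a (l 16590368) (l 4)) (l 4)) (l 4))) (b (l 4) (a (l 4) (a (b (l 4) (l 2)) (l 2))))) (b (b (l 4) (a (l 4) (a (b (l 4) (l 2)) (l 2)))) (a (b (a (b (l 4) (l 2)) (l 2)) (l 2)) (l 2)))), by decide +kernel⟩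

theorem c_pp_033 : CertB 0 536870912 1610612736 536870912 536870912 50465866 3 eng mog cd3q0 cd1q3 pd3 false true true .pnn 0 3 3
    ndB3q0 ndB1q3 pcB3 Cut.none Ext.none :=
  certB1 (fam := false) (s1 := true) (s2 := true) (a := 0) (b := 3) (c := 3) (cn := .pnn) (n1 := ndB3q0) (n2 := ndB1q3) (pc := pcB3) (cut := Cut.none) (xt := Ext.none) (P1 := 0) (W1 := 536870912) (P2 := 1610612736) (W2 := 536870912) (P3 := 536870912) (W3 := 50465866) (N0 := 3) (En := eng) (mo := mog) (C1 := cd3q0) (C2 := cd1q3) (C3 := pd3)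
    rfl (fun _ => rfl) k0_pp_033

noncomputable def f_pp_101 : ℕ → ℕ → ℕ → ℕ → Bool := onCell 536870912 536870912 536870912 536870912 536870912 50465866
    (rowB 3 eng mog cd3q1 cd1q1 pd0 0 false true true .npn 1 0 1 (qsf 536870912 536870912 536870912 536870912 0) ndB3q1 ndB1q1 pcB0 Cut.none Ext.none)

def k0_pp_101 : ∃ t, chk3 f_pp_101 t 1 1 1 = true :=
  ⟨(l 3), by decide +kernel⟩

theorem c_pp_101 : CertB 536870912 536870912 536870912 536870912 536870912 50465866 3 eng mog cd3q1 cd1q1 pd0 false true true .npn 1 0 1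
    ndB3q1 ndB1q1 pcB0 Cut.none Ext.none :=
  certB0 (fam := false) (s1 := true) (s2 := true) (a := 1) (b := 0) (c := 1) (cn := .npn) (n1 := ndB3q1) (n2 := ndB1q1) (pc := pcB0) (cut := Cut.none) (xt := Ext.none) (P1 := 536870912) (W1 := 536870912) (P2 := 536870912) (W2 := 536870912) (P3 := 536870912) (W3 := 50465866) (N0 := 3) (En := eng) (mo := mog) (C1 := cd3q1) (C2 := cd1q1) (C3 := pd0)
    rfl k0_pp_101

noncomputable def f_pp_102_a : ℕ → ℕ → ℕ → ℕ → Bool := onCell 0 536870912 0 536870912 536870912 50465866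
    (rowB 3 eng mog cd3q1 cd1q2a pd0 2 false true true .npp 1 0 2 (qsf 536870912 536870912 0 536870912 0) ndB3q1 ndB1q2a pcB0 Cut.none Ext.none)

def k0_pp_102_a : ∃ t, chk3 f_pp_102_a t 2 1 1 = true :=
  ⟨(b (a (a (l 2) (b (l 2) (b (l 2) (b (l 2) (a (l 2) (a (l 2) (l 16479112))))))) (b (b (a (l 16487184) (l 16525192)) (a (b (l 16472456) (a (l 16458672) (l 16473328))) (l 16561704))) (a (a (b (a (l 16459312) (l 16464344)) (b (a (l 16468472) (l 16470816)) (a (l 16479296) (l 16480056)))) (b (l 16471488) (b (l 16475416) (l 16482384)))) (b (l 16487528) (b (l 16487448) (l 16490152)))))) (a (b (b (a (l 2) (a (l 2) (b (a (a (l 2) (b (l 2) (l 138679947047))) (b (b (l 16487472) (l 16511944)) (b (l 16494424) (a (l 16499072) (l 16497104))))) (a (l 3) (b (a (l 224042400151) (l 91972189687)) (l 3)))))) (l 3)) (l 3)) (b (a (b (b (a (a (b (l 16487856) (l 16514600)) (b (l 16487536) (l 16491928))) (b (l 16487864) (a (l 16490736) (l 16490080)))) (a (a (b (a (l 87140336119)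 (l 16498304)) (l 3)) (b (l 16516656) (l 135995587927))) (a (b (l 16493336) (l 51169975655)) (b (l 16491960) (l 16493600))))) (l 3)) (b (a (b (b (l 16490008) (l 16490224)) (b (l 16512160) (a (l 16491872) (l 16490880)))) (b (l 16493312) (b (l 16490776) (l 16489912)))) (b (a (b (a (l 16493784) (l 16491312)) (l 3)) (b (l 118815720071) (l 154249192279))) (l 3)))) (l 3)))), by decide +kernel⟩

def k1_pp_102_a : ∃ t, chk3 f_pp_102_a t 3 1 1 = true :=
  ⟨(a (b (b (a (b (l 16598552) (l 16528552)) (l 16676864)) (a (b (l 16512416) (a (l 16502408) (l 16512408))) (b (l 16550856) (l 16535608)))) (b (a (b (b (l 16502024) (a (l 16492280) (l 16495168))) (b (a (b (l 16487560) (l 127405660727)) (b (l 16487008) (l 16480728))) (b (a (l 129016260887) (l 143511785607)) (l 3)))) (b (b (l 16520584) (a (l 16500000) (l 16507424))) (a (b (l 16483000) (b (l 99488348247) (l 145659213271))) (b (l 16506192) (b (l 16463312) (a (l 144585429879) (l 145659162903))))))) (l 3))) (b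 (b (a (b (l 16650056) (l 16618936)) (l 16669088)) (a (b (l 16589656) (l 16566008)) (b (l 16621184) (a (l 16585392) (l 16594016))))) (b (a (a (b (l 16527320) (b (l 16489240) (b (l 16463208) (a (l 16445192) (a (l 16444792) (l 16443520)))))) (b (l 16536576) (a (b (l 16492032) (b (l 16460144) (l 16535216))) (b (l 16486336) (l 16423752))))) (b (b (l 16637592) (l 16718488)) (b (a (l 16461488) (l 16405152)) (a (l 16480520) (l 16459056))))) (b (b (b (a (a (a (l 3) (b (a (l 147806617831) (l 103246267463)) (l 3))) (a (l 109688753543) (l 16428536))) (a (a (l 16423640) (l 16460464)) (l 16516840))) (a (l 3) (a (l 219747470375) (a (l 213305130039) (l 225653151735))))) (l 3)) (l 3))))), by decide +kernel⟩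

theorem s2_pp_102_a : ∃ t, chk3 f_pp_102_a t 1 1 1 = true := ex3_a k0_pp_102_a k1_pp_102_a

theorem c_pp_102_a : CertB 536870912 536870912 0 536870912 536870912 50465866 3 eng mog cd3q1 cd1q2a pd0 false true true .npp 1 0 2
    ndB3q1 ndB1q2a pcB0 Cut.none Ext.none :=
  certB2 (fam := false) (s1 := true) (s2 := true) (a := 1) (b := 0) (c := 2) (cn := .npp) (n1 := ndB3q1) (n2 := ndB1q2a) (pc := pcB0) (cut := Cut.none) (xt := Ext.none) (P1 := 536870912) (W1 := 536870912) (P2 := 0) (W2 := 536870912) (P3 := 536870912) (W3 := 50465866) (N0 := 3) (En := eng) (mo := mog) (C1 := cd3q1) (C2 := cd1q2a) (C3 := pd0)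
    rfl (fun _ => rfl) s2_pp_102_a

noncomputable def f_pp_102_b : ℕ → ℕ → ℕ → ℕ → Bool := onCell 536870912 536870912 0 536870912 536870912 50465866
    (rowB 3 eng mog cd3q1 cd1q2b pd0 1 false true true .npp 1 0 2 (qsf 536870912 536870912 1239849684 370763052 0) ndB3q1 ndB1q2b pcB0 Cut.none Ext.none)

def k0_pp_102_b : ∃ t, chk3 f_pp_102_b t 1 1 1 = true :=
  ⟨(a (b (l 1) (b (l 1) (a (l 1) (b (a (l 1) (l 16680672)) (l 104723724887))))) (b (b (l 1) (a (l 1) (a (b (l 1) (l 16592760)) (b (l 185790958471) (l 16481304))))) (b (b (a (b (l 16673232) (l 16770568)) (b (l 16488864) (l 16462896))) (a (l 16622632) (l 16468848))) (b (a (l 16625856) (l 16531288)) (a (l 16671560) (l 16646896)))))), by decide +kernel⟩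

theorem c_pp_102_b : CertB 536870912 536870912 1239849684 370763052 536870912 50465866 3 eng mog cd3q1 cd1q2b pd0 false true true .npp 1 0 2
    ndB3q1 ndB1q2b pcB0 Cut.none Ext.none :=
  certB1 (fam := false) (s1 := true) (s2 := true) (a := 1) (b := 0) (c := 2) (cn := .npp) (n1 := ndB3q1) (n2 := ndB1q2b) (pc := pcB0) (cut := Cut.none) (xt := Ext.none) (P1 := 536870912) (W1 := 536870912) (P2 := 1239849684) (W2 := 370763052) (P3 := 536870912) (W3 := 50465866) (N0 := 3) (En := eng) (mo := mog) (C1 := cd3q1) (C2 := cd1q2b) (C3 := pd0)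
    rfl (fun _ => rfl) k0_pp_102_b

noncomputable def f_pp_112_a : ℕ → ℕ → ℕ → ℕ → Bool := onCell 536870912 536870912 0 536870912 536870912 50465866
    (rowB 3 eng mog cd3q1 cd1q2a pd1 2 false true true .dn 1 1 2 (qsf 536870912 536870912 0 536870912 1) ndB3q1 ndB1q2a pcB1 Cut.none Ext.none)

def k0_pp_112_a : ∃ t, chk3 f_pp_112_a t 1 1 1 = true :=
  ⟨(a (b (a (b (a (l 16707264) (l 16745232)) (b (a (l 16661768) (l 16713512)) (a (l 16622208) (l 16673392)))) (a (b (l 16815240) (b (l 16749288) (l 16729160))) (l 1))) (a (b (a (b (l 16534664) (b (l 16447792) (a (l 16503528) (l 16576000)))) (b (l 16564936) (b (l 16605264) (a (l 16646264) (l 1))))) (b (a (b (a (a (l 209010258487) (l 177871778823)) (b (l 16644528) (l 16694000))) (a (a (l 3) (l 214379121511)) (b (a (l 211694804311) (l 213305488311)) (l 3)))) (b (a (l 16729080) (l 1)) (l 1))) (l 3))) (b (l 1) (l 1)))) (l 1)), by decide +kernel⟩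

theorem c_pp_112_a : CertB 536870912 536870912 0 536870912 536870912 50465866 3 eng mog cd3q1 cd1q2a pd1 false true true .dn 1 1 2
    ndB3q1 ndB1q2a pcB1 Cut.none Ext.none :=
  certB2 (fam := false) (s1 := true) (s2 := true) (a := 1) (b := 1) (c := 2) (cn := .dn) (n1 := ndB3q1) (n2 := ndB1q2a) (pc := pcB1) (cut := Cut.none) (xt := Ext.none) (P1 := 536870912) (W1 := 536870912) (P2 := 0) (W2 := 536870912) (P3 := 536870912) (W3 := 50465866) (N0 := 3) (En := eng) (mo := mog) (C1 := cd3q1) (C2 := cd1q2a) (C3 := pd1)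
    rfl (fun _ => rfl) k0_pp_112_a

noncomputable def f_pp_112_b : ℕ → ℕ → ℕ → ℕ → Bool := onCell 536870912 536870912 1239849684 370763052 536870912 50465866
    (rowB 3 eng mog cd3q1 cd1q2b pd1 2 false true true .dn 1 1 2 (qsf 536870912 536870912 1239849684 370763052 1) ndB3q1 ndB1q2b pcB1 Cut.none Ext.none)

def k0_pp_112_b : ∃ t, chk3 f_pp_112_b t 1 1 1 = true :=
  ⟨(a (a (b (b (a (l 16724656) (l 16761848)) (a (l 16739032) (l 16818456))) (l 16903664)) (a (b (b (l 16758288) (l 16851312)) (l 17160600)) (b (b (l 16726536) (l 16813928)) (l 17179864)))) (b (a (b (l 1) (l 16691048)) (l 1)) (a (b (l 16876080) (l 17278584)) (b (l 16555456) (l 16795776))))), by decide +kernel⟩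

theorem c_pp_112_b : CertB 536870912 536870912 1239849684 370763052 536870912 50465866 3 eng mog cd3q1 cd1q2b pd1 false true true .dn 1 1 2
    ndB3q1 ndB1q2b pcB1 Cut.none Ext.none :=
  certB2 (fam := false) (s1 := true) (s2 := true) (a := 1) (b := 1) (c := 2) (cn := .dn) (n1 := ndB3q1) (n2 := ndB1q2b) (pc := pcB1) (cut := Cut.none) (xt := Ext.none) (P1 := 536870912) (W1 := 536870912) (P2 := 1239849684) (W2 := 370763052) (P3 := 536870912) (W3 := 50465866) (N0 := 3) (En := eng) (mo := mog) (C1 := cd3q1) (C2 := cd1q2b) (C3 := pd1)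
    rfl (fun _ => rfl) k0_pp_112_b

noncomputable def f_pp_113 : ℕ → ℕ → ℕ → ℕ → Bool := onCell 536870912 536870912 536870912 536870912 536870912 50465866
    (rowB 3 eng mog cd3q1 cd1q3 pd1 1 false true true .nn 1 1 3 (qsf 536870912 536870912 1610612736 536870912 1) ndB3q1 ndB1q3 pcB1 Cut.none Ext.none)

def k0_pp_113 : ∃ t, chk3 f_pp_113 t 1 1 1 = true :=
  ⟨(a (b (b (l 1) (a (l 1) (l 377991657479))) (a (b (l 16889216) (l 17069672)) (b (l 17597048) (l 17463352)))) (b (b (l 209413100855) (l 330211191895)) (b (l 17419528) (l 17212104)))), by decide +kernel⟩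

theorem c_pp_113 : CertB 536870912 536870912 1610612736 536870912 536870912 50465866 3 eng mog cd3q1 cd1q3 pd1 false true true .nn 1 1 3
    ndB3q1 ndB1q3 pcB1 Cut.none Ext.none :=
  certB1 (fam := false) (s1 := true) (s2 := true) (a := 1) (b := 1) (c := 3) (cn := .nn) (n1 := ndB3q1) (n2 := ndB1q3) (pc := pcB1) (cut := Cut.none) (xt := Ext.none) (P1 := 536870912) (W1 := 536870912) (P2 := 1610612736) (W2 := 536870912) (P3 := 536870912) (W3 := 50465866) (N0 := 3) (En := eng) (mo := mog) (C1 := cd3q1) (C2 := cd1q3) (C3 := pd1)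
    rfl (fun _ => rfl) k0_pp_113

noncomputable def f_pp_123 : ℕ → ℕ → ℕ → ℕ → Bool := onCell 1073741824 536870912 1610612736 536870912 536870912 50465866
    (rowB 3 eng mog cd3q1 cd1q3 pd2 2 false true true .npn 1 2 3 (qsf 536870912 536870912 1610612736 536870912 2) ndB3q1 ndB1q3 pcB2 Cut.none Ext.none)

def k0_pp_123 : ∃ t, chk3 f_pp_123 t 1 1 1 = true :=
  ⟨(a (b (a (b (l 16715904) (l 17130928)) (b (l 537441089607) (a (l 16790376) (l 16641848)))) (a (b (l 17120960) (l 16895184)) (b (l 16901032) (l 16825928)))) (a (b (b (l 1) (l 16537200)) (b (l 16863648) (l 16963200))) (b (l 1) (b (l 552472929639) (l 4))))), by decide +kernel⟩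

theorem c_pp_123 : CertB 536870912 536870912 1610612736 536870912 536870912 50465866 3 eng mog cd3q1 cd1q3 pd2 false true true .npn 1 2 3
    ndB3q1 ndB1q3 pcB2 Cut.none Ext.none :=
  certB2 (fam := false) (s1 := true) (s2 := true) (a := 1) (b := 2) (c := 3) (cn := .npn) (n1 := ndB3q1) (n2 := ndB1q3) (pc := pcB2) (cut := Cut.none) (xt := Ext.none) (P1 := 536870912) (W1 := 536870912) (P2 := 1610612736) (W2 := 536870912) (P3 := 536870912) (W3 := 50465866) (N0 := 3) (En := eng) (mo := mog) (C1 := cd3q1) (C2 := cd1q3) (C3 := pd2)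
    rfl (fun _ => rfl) k0_pp_123

noncomputable def f_pp_133 : ℕ → ℕ → ℕ → ℕ → Bool := onCell 1610612736 536870912 1610612736 536870912 536870912 50465866
    (rowB 3 eng mog cd3q1 cd1q3 pd3 2 false true true .dn 1 3 3 (qsf 536870912 536870912 1610612736 536870912 3) ndB3q1 ndB1q3 pcB3 Cut.none Ext.none)

def k0_pp_133 : ∃ t, chk3 f_pp_133 t 1 1 1 = true :=
  ⟨(a (b (l 1) (b (l 1) (l 4))) (l 1)), by decide +kernel⟩

theorem c_pp_133 : CertB 536870912 536870912 1610612736 536870912 536870912 50465866 3 eng mog cd3q1 cd1q3 pd3 false true true .dn 1 3 3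
    ndB3q1 ndB1q3 pcB3 Cut.none Ext.none :=
  certB2 (fam := false) (s1 := true) (s2 := true) (a := 1) (b := 3) (c := 3) (cn := .dn) (n1 := ndB3q1) (n2 := ndB1q3) (pc := pcB3) (cut := Cut.none) (xt := Ext.none) (P1 := 536870912) (W1 := 536870912) (P2 := 1610612736) (W2 := 536870912) (P3 := 536870912) (W3 := 50465866) (N0 := 3) (En := eng) (mo := mog) (C1 := cd3q1) (C2 := cd1q3) (C3 := pd3)
    rfl (fun _ => rfl) k0_pp_133

noncomputable def f_pp_202_aa : ℕ → ℕ → ℕ → ℕ → Bool := onCell 0 536870912 0 536870912 536870912 50465866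
    (rowB 3 eng mog cd3q2a cd1q2a pd0 0 false true true .pp 2 0 2 (qsf 0 536870912 0 536870912 0) ndB3q2a ndB1q2a pcB0 Cut.none Ext.none)

def k0_pp_202_aa : ∃ t, chk3 f_pp_202_aa t 1 1 1 = true :=
  ⟨(l 3), by decide +kernel⟩

theorem c_pp_202_aa : CertB 0 536870912 0 536870912 536870912 50465866 3 eng mog cd3q2a cd1q2a pd0 false true true .pp 2 0 2
    ndB3q2a ndB1q2a pcB0 Cut.none Ext.none :=
  certB0 (fam := false) (s1 := true) (s2 := true) (a := 2) (b := 0) (c := 2) (cn := .pp) (n1 := ndB3q2a) (n2 := ndB1q2a) (pc := pcB0) (cut := Cut.none) (xt := Ext.none) (P1 := 0) (W1 := 536870912) (P2 := 0) (W2 := 536870912) (P3 := 536870912) (W3 := 50465866) (N0 := 3) (En := eng) (mo := mog) (C1 := cd3q2a) (C2 := cd1q2a) (C3 := pd0)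
    rfl k0_pp_202_aa

noncomputable def f_pp_202_ab : ℕ → ℕ → ℕ → ℕ → Bool := onCell 0 536870912 1239849684 370763052 536870912 50465866
    (rowB 3 eng mog cd3q2a cd1q2b pd0 0 false true true .pp 2 0 2 (qsf 0 536870912 1239849684 370763052 0) ndB3q2a ndB1q2b pcB0 Cut.none Ext.none)

def k0_pp_202_ab : ∃ t, chk3 f_pp_202_ab t 1 1 1 = true :=
  ⟨(l 3), by decide +kernel⟩

theorem c_pp_202_ab : CertB 0 536870912 1239849684 370763052 536870912 50465866 3 eng mog cd3q2a cd1q2b pd0 false true true .pp 2 0 2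
    ndB3q2a ndB1q2b pcB0 Cut.none Ext.none :=
  certB0 (fam := false) (s1 := true) (s2 := true) (a := 2) (b := 0) (c := 2) (cn := .pp) (n1 := ndB3q2a) (n2 := ndB1q2b) (pc := pcB0) (cut := Cut.none) (xt := Ext.none) (P1 := 0) (W1 := 536870912) (P2 := 1239849684) (W2 := 370763052) (P3 := 536870912) (W3 := 50465866) (N0 := 3) (En := eng) (mo := mog) (C1 := cd3q2a) (C2 := cd1q2b) (C3 := pd0)
    rfl k0_pp_202_ab

noncomputable def f_pp_202_ba : ℕ → ℕ → ℕ → ℕ → Bool := onCell 1239849684 370763052 0 536870912 536870912 50465866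
    (rowB 3 eng mog cd3q2b cd1q2a pd0 0 false true true .pp 2 0 2 (qsf 1239849684 370763052 0 536870912 0) ndB3q2b ndB1q2a pcB0 Cut.none Ext.none)

def k0_pp_202_ba : ∃ t, chk3 f_pp_202_ba t 1 1 1 = true :=
  ⟨(l 3), by decide +kernel⟩

theorem c_pp_202_ba : CertB 1239849684 370763052 0 536870912 536870912 50465866 3 eng mog cd3q2b cd1q2a pd0 false true true .pp 2 0 2
    ndB3q2b ndB1q2a pcB0 Cut.none Ext.none :=
  certB0 (fam := false) (s1 := true) (s2 := true) (a := 2) (b := 0) (c := 2) (cn := .pp) (n1 := ndB3q2b) (n2 := ndB1q2a) (pc := pcB0) (cut := Cut.none) (xt := Ext.none) (P1 := 1239849684) (W1 := 370763052) (P2 := 0) (W2 := 536870912) (P3 := 536870912) (W3 := 50465866) (N0 := 3) (En := eng) (mo := mog) (C1 := cd3q2b) (C2 := cd1q2a) (C3 := pd0)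
    rfl k0_pp_202_ba

noncomputable def f_pp_202_bb : ℕ → ℕ → ℕ → ℕ → Bool := onCell 1239849684 370763052 1239849684 370763052 536870912 50465866
    (rowB 3 eng mog cd3q2b cd1q2b pd0 0 false true true .pp 2 0 2 (qsf 1239849684 370763052 1239849684 370763052 0) ndB3q2b ndB1q2b pcB0 Cut.none Ext.none)

def k0_pp_202_bb : ∃ t, chk3 f_pp_202_bb t 1 1 1 = true :=
  ⟨(l 3), by decide +kernel⟩

theorem c_pp_202_bb : CertB 1239849684 370763052 1239849684 370763052 536870912 50465866 3 eng mog cd3q2b cd1q2b pd0 false true true .pp 2 0 2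
    ndB3q2b ndB1q2b pcB0 Cut.none Ext.none :=
  certB0 (fam := false) (s1 := true) (s2 := true) (a := 2) (b := 0) (c := 2) (cn := .pp) (n1 := ndB3q2b) (n2 := ndB1q2b) (pc := pcB0) (cut := Cut.none) (xt := Ext.none) (P1 := 1239849684) (W1 := 370763052) (P2 := 1239849684) (W2 := 370763052) (P3 := 536870912) (W3 := 50465866) (N0 := 3) (En := eng) (mo := mog) (C1 := cd3q2b) (C2 := cd1q2b) (C3 := pd0)
    rfl k0_pp_202_bb

noncomputable def f_pp_203_a : ℕ → ℕ → ℕ → ℕ → Bool := onCell 0 536870912 0 536870912 536870912 50465866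
    (rowB 3 eng mog cd3q2a cd1q3 pd0 1 false true true .up 2 0 3 (qsf 0 536870912 1610612736 536870912 0) ndB3q2a ndB1q3 pcB0 Cut.none Ext.none)

def k0_pp_203_a : ∃ t, chk3 f_pp_203_a t 1 1 1 = true :=
  ⟨(l 3), by decide +kernel⟩

theorem c_pp_203_a : CertB 0 536870912 1610612736 536870912 536870912 50465866 3 eng mog cd3q2a cd1q3 pd0 false true true .up 2 0 3
    ndB3q2a ndB1q3 pcB0 Cut.none Ext.none :=
  certB1 (fam := false) (s1 := true) (s2 := true) (a := 2) (b := 0) (c := 3) (cn := .up) (n1 := ndB3q2a) (n2 := ndB1q3) (pc := pcB0) (cut := Cut.none) (xt := Ext.none) (P1 := 0) (W1 := 536870912) (P2 := 1610612736) (W2 := 536870912) (P3 := 536870912) (W3 := 50465866) (N0 := 3) (En := eng) (mo := mog) (C1 := cd3q2a) (C2 := cd1q3) (C3 := pd0)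
    rfl (fun _ => rfl) k0_pp_203_a

noncomputable def f_pp_203_b : ℕ → ℕ → ℕ → ℕ → Bool := onCell 1239849684 370763052 1610612736 536870912 536870912 50465866
    (rowB 3 eng mog cd3q2b cd1q3 pd0 0 false true true .up 2 0 3 (qsf 1239849684 370763052 1610612736 536870912 0) ndB3q2b ndB1q3 pcB0 Cut.none Ext.none)

def k0_pp_203_b : ∃ t, chk3 f_pp_203_b t 1 1 1 = true :=
  ⟨(l 3), by decide +kernel⟩

theorem c_pp_203_b : CertB 1239849684 370763052 1610612736 536870912 536870912 50465866 3 eng mog cd3q2b cd1q3 pd0 false true true .up 2 0 3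
    ndB3q2b ndB1q3 pcB0 Cut.none Ext.none :=
  certB0 (fam := false) (s1 := true) (s2 := true) (a := 2) (b := 0) (c := 3) (cn := .up) (n1 := ndB3q2b) (n2 := ndB1q3) (pc := pcB0) (cut := Cut.none) (xt := Ext.none) (P1 := 1239849684) (W1 := 370763052) (P2 := 1610612736) (W2 := 536870912) (P3 := 536870912) (W3 := 50465866) (N0 := 3) (En := eng) (mo := mog) (C1 := cd3q2b) (C2 := cd1q3) (C3 := pd0)
    rfl k0_pp_203_b

noncomputable def cut_pp_213_a : Cut := Cut.of [[⟨0, 1, 0, 67108864⟩, ⟨1, 1, 0, 67108864⟩, ⟨2, 2, 0, 16777216⟩]]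

noncomputable def f_pp_213_a : ℕ → ℕ → ℕ → ℕ → Bool := onCell 0 536870912 1610612736 536870912 536870912 50465866
    (rowB 3 eng mog cd3q2a cd1q3 pd1 0 false true true .pnn 2 1 3 (qsf 0 536870912 1610612736 536870912 1) ndB3q2a ndB1q3 pcB1 cut_pp_213_a Ext.none)

def k0_pp_213_a : ∃ t, chk3 f_pp_213_a t 1 1 1 = true :=
  ⟨(b (l 3) (a (l 3) (b (l 3) (a (l 3) (b (l 3) (a (l 3) (b (l 3) (b (l 3) (b (l 3) (l 6)))))))))), by decide +kernel⟩

theorem c_pp_213_a : CertB 0 536870912 1610612736 536870912 536870912 50465866 3 eng mog cd3q2a cd1q3 pd1 false true true .pnn 2 1 3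
    ndB3q2a ndB1q3 pcB1 cut_pp_213_a Ext.none :=
  certB0 (fam := false) (s1 := true) (s2 := true) (a := 2) (b := 1) (c := 3) (cn := .pnn) (n1 := ndB3q2a) (n2 := ndB1q3) (pc := pcB1) (cut := cut_pp_213_a) (xt := Ext.none) (P1 := 0) (W1 := 536870912) (P2 := 1610612736) (W2 := 536870912) (P3 := 536870912) (W3 := 50465866) (N0 := 3) (En := eng) (mo := mog) (C1 := cd3q2a) (C2 := cd1q3) (C3 := pd1)
    rfl k0_pp_213_a

noncomputable def cut_pp_213_b : Cut := Cut.of [[⟨0, 1, 0, 67108864⟩, ⟨1, 1, 0, 67108864⟩, ⟨2, 2, 0, 16777216⟩]]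

noncomputable def f_pp_213_b : ℕ → ℕ → ℕ → ℕ → Bool := onCell 1239849684 370763052 1610612736 536870912 536870912 50465866
    (rowB 3 eng mog cd3q2b cd1q3 pd1 0 false true true .pnn 2 1 3 (qsf 1239849684 370763052 1610612736 536870912 1) ndB3q2b ndB1q3 pcB1 cut_pp_213_b Ext.none)

def k0_pp_213_b : ∃ t, chk3 f_pp_213_b t 1 1 1 = true :=
  ⟨(l 3), by decide +kernel⟩

theorem c_pp_213_b : CertB 1239849684 370763052 1610612736 536870912 536870912 50465866 3 eng mog cd3q2b cd1q3 pd1 false true true .pnn 2 1 3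
    ndB3q2b ndB1q3 pcB1 cut_pp_213_b Ext.none :=
  certB0 (fam := false) (s1 := true) (s2 := true) (a := 2) (b := 1) (c := 3) (cn := .pnn) (n1 := ndB3q2b) (n2 := ndB1q3) (pc := pcB1) (cut := cut_pp_213_b) (xt := Ext.none) (P1 := 1239849684) (W1 := 370763052) (P2 := 1610612736) (W2 := 536870912) (P3 := 536870912) (W3 := 50465866) (N0 := 3) (En := eng) (mo := mog) (C1 := cd3q2b) (C2 := cd1q3) (C3 := pd1)
    rfl k0_pp_213_b

noncomputable def f_pp_303 : ℕ → ℕ → ℕ → ℕ → Bool := onCell 1610612736 536870912 1610612736 536870912 536870912 50465866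
    (rowB 3 eng mog cd3q3 cd1q3 pd0 0 false true true .npn 3 0 3 (qsf 1610612736 536870912 1610612736 536870912 0) ndB3q3 ndB1q3 pcB0 Cut.none Ext.none)

def k0_pp_303 : ∃ t, chk3 f_pp_303 t 1 1 1 = true :=
  ⟨(l 3), by decide +kernel⟩

theorem c_pp_303 : CertB 1610612736 536870912 1610612736 536870912 536870912 50465866 3 eng mog cd3q3 cd1q3 pd0 false true true .npn 3 0 3
    ndB3q3 ndB1q3 pcB0 Cut.none Ext.none :=
  certB0 (fam := false) (s1 := true) (s2 := true) (a := 3) (b := 0) (c := 3) (cn := .npn) (n1 := ndB3q3) (n2 := ndB1q3) (pc := pcB0) (cut := Cut.none) (xt := Ext.none) (P1 := 1610612736) (W1 := 536870912) (P2 := 1610612736) (W2 := 536870912) (P3 := 536870912) (W3 := 50465866) (N0 := 3) (En := eng) (mo := mog) (C1 := cd3q3) (C2 := cd1q3) (C3 := pd0)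
    rfl k0_pp_303

noncomputable def f_pp_313 : ℕ → ℕ → ℕ → ℕ → Bool := onCell 1610612736 536870912 1610612736 536870912 536870912 50465866
    (rowB 3 eng mog cd3q3 cd1q3 pd1 0 false true true .dn 3 1 3 (qsf 1610612736 536870912 1610612736 536870912 1) ndB3q3 ndB1q3 pcB1 Cut.none Ext.none)

def k0_pp_313 : ∃ t, chk3 f_pp_313 t 1 1 1 = true :=
  ⟨(l 3), by decide +kernel⟩

theorem c_pp_313 : CertB 1610612736 536870912 1610612736 536870912 536870912 50465866 3 eng mog cd3q3 cd1q3 pd1 false true true .dn 3 1 3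
    ndB3q3 ndB1q3 pcB1 Cut.none Ext.none :=
  certB0 (fam := false) (s1 := true) (s2 := true) (a := 3) (b := 1) (c := 3) (cn := .dn) (n1 := ndB3q3) (n2 := ndB1q3) (pc := pcB1) (cut := Cut.none) (xt := Ext.none) (P1 := 1610612736) (W1 := 536870912) (P2 := 1610612736) (W2 := 536870912) (P3 := 536870912) (W3 := 50465866) (N0 := 3) (En := eng) (mo := mog) (C1 := cd3q3) (C2 := cd1q3) (C3 := pd1)
    rfl k0_pp_313

noncomputable def f_pm_001 : ℕ → ℕ → ℕ → ℕ → Bool := onCell 0 536870912 0 536870912 536870912 50465866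
    (rowB 3 eng mog cd3q0 cd1q1 pd0 1 false true false .up 0 0 1 (qsf 0 536870912 536870912 536870912 0) ndB3q0 ndB1q1 pcB0 Cut.none Ext.none)

def k0_pm_001 : ∃ t, chk3 f_pm_001 t 1 1 1 = true :=
  ⟨(l 4), by decide +kernel⟩

theorem c_pm_001 : CertB 0 536870912 536870912 536870912 536870912 50465866 3 eng mog cd3q0 cd1q1 pd0 false true false .up 0 0 1
    ndB3q0 ndB1q1 pcB0 Cut.none Ext.none :=
  certB1 (fam := false) (s1 := true) (s2 := false) (a := 0) (b := 0) (c := 1) (cn := .up) (n1 := ndB3q0) (n2 := ndB1q1) (pc := pcB0) (cut := Cut.none) (xt := Ext.none) (P1 := 0) (W1 := 536870912) (P2 := 536870912) (W2 := 536870912) (P3 := 536870912) (W3 := 50465866) (N0 := 3) (En := eng) (mo := mog) (C1 := cd3q0) (C2 := cd1q1) (C3 := pd0)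
    rfl (fun _ => rfl) k0_pm_001

noncomputable def f_pm_011 : ℕ → ℕ → ℕ → ℕ → Bool := onCell 0 536870912 536870912 536870912 536870912 50465866
    (rowB 3 eng mog cd3q0 cd1q1 pd1 0 false true false .pnn 0 1 1 (qsf 0 536870912 536870912 536870912 1) ndB3q0 ndB1q1 pcB1 Cut.none Ext.none)

def k0_pm_011 : ∃ t, chk3 f_pm_011 t 1 1 1 = true :=
  ⟨(a (l 4) (l 4)), by decide +kernel⟩

theorem c_pm_011 : CertB 0 536870912 536870912 536870912 536870912 50465866 3 eng mog cd3q0 cd1q1 pd1 false true false .pnn 0 1 1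
    ndB3q0 ndB1q1 pcB1 Cut.none Ext.none :=
  certB0 (fam := false) (s1 := true) (s2 := false) (a := 0) (b := 1) (c := 1) (cn := .pnn) (n1 := ndB3q0) (n2 := ndB1q1) (pc := pcB1) (cut := Cut.none) (xt := Ext.none) (P1 := 0) (W1 := 536870912) (P2 := 536870912) (W2 := 536870912) (P3 := 536870912) (W3 := 50465866) (N0 := 3) (En := eng) (mo := mog) (C1 := cd3q0) (C2 := cd1q1) (C3 := pd1)
    rfl k0_pm_011

noncomputable def cut_pm_012_a : Cut := Cut.of [[⟨0, 0, 0, 67108864⟩, ⟨1, 1, 0, 67108864⟩, ⟨2, 1, 0, 67108864⟩]]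

noncomputable def f_pm_012_a : ℕ → ℕ → ℕ → ℕ → Bool := onCell 536870912 536870912 0 536870912 536870912 50465866
    (rowB 3 eng mog cd3q0 cd1q2a pd1 2 false true false .pnp 0 1 2 (qsf 0 536870912 0 536870912 1) ndB3q0 ndB1q2a pcB1 cut_pm_012_a Ext.none)

def k0_pm_012_a : ∃ t, chk3 f_pm_012_a t 1 1 1 = true :=
  ⟨(a (a (b (a (l 2) (b (l 2) (l 16661192))) (b (a (l 2) (l 16599672)) (l 4))) (b (b (a (l 16685472) (l 16653672)) (a (l 16633944) (l 16602144))) (b (a (l 30836757223) (l 30836585911)) (l 4)))) (b (a (b (a (l 16613040) (l 16560136)) (a (l 16563208) (l 16523504))) (b (a (l 16520048) (a (l 16494328) (l 16477640))) (a (l 16499024) (a (l 16483856) (b (l 16468744) (l 16478312)))))) (a (b (a (b (l 16560120) (l 16526400)) (b (l 16707384) (l 16713432))) (a (l 4) (b (l 4) (l 4)))) (b (a (b (l 16509832) (a (l 16528192) (l 16677920))) (a (b (l 16504224) (b (l 16523840) (l 16543200))) (b (l 16499312) (a (l 16535672) (l 16538488))))) (a (b (a (l 16586008)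 (b (l 16560984) (l 4))) (l 4)) (a (b (b (l 16653224) (l 52311254199)) (l 4)) (b (b (a (l 16577848) (l 16585128)) (a (l 16679504) (a (l 16623952) (l 16629392)))) (b (a (a (l 16661088) (l 6)) (l 6)) (l 6))))))))), by decide +kernel⟩

theorem c_pm_012_a : CertB 0 536870912 0 536870912 536870912 50465866 3 eng mog cd3q0 cd1q2a pd1 false true false .pnp 0 1 2
    ndB3q0 ndB1q2a pcB1 cut_pm_012_a Ext.none :=
  certB2 (fam := false) (s1 := true) (s2 := false) (a := 0) (b := 1) (c := 2) (cn := .pnp) (n1 := ndB3q0) (n2 := ndB1q2a) (pc := pcB1) (cut := cut_pm_012_a) (xt := Ext.none) (P1 := 0) (W1 := 536870912) (P2 := 0) (W2 := 536870912) (P3 := 536870912) (W3 := 50465866) (N0 := 3) (En := eng) (mo := mog) (C1 := cd3q0) (C2 := cd1q2a) (C3 := pd1)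
    rfl (fun _ => rfl) k0_pm_012_a

noncomputable def cut_pm_012_b : Cut := Cut.of [[⟨0, 0, 0, 67108864⟩, ⟨1, 1, 0, 67108864⟩, ⟨2, 1, 0, 67108864⟩]]

noncomputable def f_pm_012_b : ℕ → ℕ → ℕ → ℕ → Bool := onCell 536870912 536870912 1239849684 370763052 536870912 50465866
    (rowB 3 eng mog cd3q0 cd1q2b pd1 2 false true false .pnp 0 1 2 (qsf 0 536870912 1239849684 370763052 1) ndB3q0 ndB1q2b pcB1 cut_pm_012_b Ext.none)

def k0_pm_012_b : ∃ t, chk3 f_pm_012_b t 1 1 1 = true :=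
  ⟨(a (a (l 2) (b (b (a (l 16726752) (l 16693032)) (l 16996696)) (l 2))) (b (a (b (a (l 16647816) (l 16750632)) (a (l 16714216) (l 16636240))) (a (b (b (l 16521712) (l 16501056)) (l 16528688)) (b (a (l 16462632) (l 16435808)) (b (l 16402576) (l 16412824))))) (a (b (l 16818008) (l 2)) (b (a (l 16656720) (l 16500416)) (l 16809760))))), by decide +kernel⟩

theorem c_pm_012_b : CertB 0 536870912 1239849684 370763052 536870912 50465866 3 eng mog cd3q0 cd1q2b pd1 false true false .pnp 0 1 2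
    ndB3q0 ndB1q2b pcB1 cut_pm_012_b Ext.none :=
  certB2 (fam := false) (s1 := true) (s2 := false) (a := 0) (b := 1) (c := 2) (cn := .pnp) (n1 := ndB3q0) (n2 := ndB1q2b) (pc := pcB1) (cut := cut_pm_012_b) (xt := Ext.none) (P1 := 0) (W1 := 536870912) (P2 := 1239849684) (W2 := 370763052) (P3 := 536870912) (W3 := 50465866) (N0 := 3) (En := eng) (mo := mog) (C1 := cd3q0) (C2 := cd1q2b) (C3 := pd1)
    rfl (fun _ => rfl) k0_pm_012_b

noncomputable def cut_pm_022_a : Cut := Cut.of [[⟨0, 0, 0, 67108864⟩, ⟨1, 1, 0, 67108864⟩, ⟨2, 1, 0, 67108864⟩]]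

noncomputable def f_pm_022_a : ℕ → ℕ → ℕ → ℕ → Bool := onCell 0 536870912 0 536870912 536870912 50465866
    (rowB 3 eng mog cd3q0 cd1q2a pd2 0 false true false .pp 0 2 2 (qsf 0 536870912 0 536870912 2) ndB3q0 ndB1q2a pcB2 cut_pm_022_a Ext.none)

def k0_pm_022_a : ∃ t, chk3 f_pm_022_a t 1 1 1 = true :=
  ⟨(a (b (a (a (b (b (a (l 16482696) (l 16474272)) (a (a (l 16561904) (l 16470600)) (l 16476680))) (a (a (b (l 16503696) (b (l 16503192) (l 16541232))) (b (l 16486352) (l 16512560))) (b (l 16488696) (b (l 16503648) (l 16516400))))) (b (b (a (l 16480720) (l 16481592)) (l 16478032)) (b (l 16481696) (a (l 16500360) (l 16483456))))) (a (b (a (l 16471704) (l 16455440)) (b (l 16447936) (a (l 16460008) (l 1)))) (l 1))) (a (b (a (a (b (a (a (b (l 16560192) (a (l 16562072) (l 16560072))) (l 16580472)) (l 16546640)) (a (a (b (a (b (l 16580568) (l 16593760)) (l 16584408)) (a (b (l 16607552) (l 16621904)) (l 16611848))) (b (l 16581952) (l 16607944))) (b (l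 16577168) (l 16601288)))) (b (b (l 16530496) (l 16546040)) (b (l 16563816) (l 16604976)))) (b (a (l 16520360) (l 16494696)) (a (b (l 16538400) (l 16552968)) (b (l 16504832) (l 1))))) (a (a (b (b (a (a (a (b (l 16636904) (a (l 16674280) (l 16651816))) (b (l 16633896) (l 16670480))) (l 16637112)) (l 16628376)) (l 6)) (l 6)) (a (b (b (l 16614544) (l 6)) (l 6)) (b (b (l 16598288) (b (l 16615632) (l 16627888))) (l 1)))) (b (a (b (a (l 16579664) (l 1)) (l 1)) (l 1)) (l 1)))) (b (l 1) (l 1)))) (l 1)), by decide +kernel⟩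

theorem c_pm_022_a : CertB 0 536870912 0 536870912 536870912 50465866 3 eng mog cd3q0 cd1q2a pd2 false true false .pp 0 2 2
    ndB3q0 ndB1q2a pcB2 cut_pm_022_a Ext.none :=
  certB0 (fam := false) (s1 := true) (s2 := false) (a := 0) (b := 2) (c := 2) (cn := .pp) (n1 := ndB3q0) (n2 := ndB1q2a) (pc := pcB2) (cut := cut_pm_022_a) (xt := Ext.none) (P1 := 0) (W1 := 536870912) (P2 := 0) (W2 := 536870912) (P3 := 536870912) (W3 := 50465866) (N0 := 3) (En := eng) (mo := mog) (C1 := cd3q0) (C2 := cd1q2a) (C3 := pd2)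
    rfl k0_pm_022_a

noncomputable def cut_pm_022_b : Cut := Cut.of [[⟨0, 0, 0, 67108864⟩, ⟨1, 1, 0, 67108864⟩, ⟨2, 1, 0, 67108864⟩]]

noncomputable def f_pm_022_b : ℕ → ℕ → ℕ → ℕ → Bool := onCell 0 536870912 1239849684 370763052 536870912 50465866
    (rowB 3 eng mog cd3q0 cd1q2b pd2 0 false true false .pp 0 2 2 (qsf 0 536870912 1239849684 370763052 2) ndB3q0 ndB1q2b pcB2 cut_pm_022_b Ext.none)

def k0_pm_022_b : ∃ t, chk3 f_pm_022_b t 1 1 1 = true :=
  ⟨(a (b (a (b (a (a (a (b (b (l 16497592) (l 16429216)) (l 16357960)) (b (l 16476248) (l 16331312))) (b (l 16437416) (b (l 16381296) (l 16340184)))) (b (l 16475112) (a (l 16384576) (l 16399744)))) (a (a (b (l 16438192) (l 16368848)) (b (l 16269136) (l 16178808))) (b (a (l 16315360) (l 16344000)) (l 16260528)))) (a (b (b (l 16455088) (l 16409304)) (b (l 16365200) (l 16321720))) (b (l 16412824) (l 16344632)))) (a (b (a (b (a (l 16180368) (l 16136304)) (l 16334968)) (b (l 16178576) (l 16086248)))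 (a (a (l 16329784) (l 16056160)) (b (l 15981496) (l 15957128)))) (b (a (b (l 16275504) (l 16222584)) (b (l 16295984) (l 16263072))) (a (l 16129472) (l 16206704))))) (b (a (b (l 1) (a (l 16340000) (l 16377040))) (l 1)) (a (b (a (l 16294800) (l 16363064)) (a (l 16312960) (l 16348672))) (b (l 386043775527) (l 16563152))))), by decide +kernel⟩

theorem c_pm_022_b : CertB 0 536870912 1239849684 370763052 536870912 50465866 3 eng mog cd3q0 cd1q2b pd2 false true false .pp 0 2 2
    ndB3q0 ndB1q2b pcB2 cut_pm_022_b Ext.none :=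
  certB0 (fam := false) (s1 := true) (s2 := false) (a := 0) (b := 2) (c := 2) (cn := .pp) (n1 := ndB3q0) (n2 := ndB1q2b) (pc := pcB2) (cut := cut_pm_022_b) (xt := Ext.none) (P1 := 0) (W1 := 536870912) (P2 := 1239849684) (W2 := 370763052) (P3 := 536870912) (W3 := 50465866) (N0 := 3) (En := eng) (mo := mog) (C1 := cd3q0) (C2 := cd1q2b) (C3 := pd2)
    rfl k0_pm_022_b

noncomputable def f_pm_023 : ℕ → ℕ → ℕ → ℕ → Bool := onCell 1073741824 536870912 1610612736 536870912 536870912 50465866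
    (rowB 3 eng mog cd3q0 cd1q3 pd2 2 false true false .up 0 2 3 (qsf 0 536870912 1610612736 536870912 2) ndB3q0 ndB1q3 pcB2 Cut.none Ext.none)

def k0_pm_023 : ∃ t, chk3 f_pm_023 t 1 1 1 = true :=
  ⟨(a (a (b (b (l 16764560) (l 16893616)) (l 2)) (b (b (a (l 16484600) (l 16332576)) (l 16739096)) (l 16922576))) (a (b (b (a (l 16201616) (l 16063880)) (a (l 16583616) (l 16499664))) (b (a (l 16749752) (l 4)) (l 16738872))) (b (b (a (l 16056816) (b (l 16005688) (l 16201856))) (a (l 16458648) (l 16451440))) (l 4)))), by decide +kernel⟩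

theorem c_pm_023 : CertB 0 536870912 1610612736 536870912 536870912 50465866 3 eng mog cd3q0 cd1q3 pd2 false true false .up 0 2 3
    ndB3q0 ndB1q3 pcB2 Cut.none Ext.none :=
  certB2 (fam := false) (s1 := true) (s2 := false) (a := 0) (b := 2) (c := 3) (cn := .up) (n1 := ndB3q0) (n2 := ndB1q3) (pc := pcB2) (cut := Cut.none) (xt := Ext.none) (P1 := 0) (W1 := 536870912) (P2 := 1610612736) (W2 := 536870912) (P3 := 536870912) (W3 := 50465866) (N0 := 3) (En := eng) (mo := mog) (C1 := cd3q0) (C2 := cd1q3) (C3 := pd2)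
    rfl (fun _ => rfl) k0_pm_023

noncomputable def f_pm_033 : ℕ → ℕ → ℕ → ℕ → Bool := onCell 0 536870912 1610612736 536870912 536870912 50465866
    (rowB 3 eng mog cd3q0 cd1q3 pd3 1 false true false .pnn 0 3 3 (qsf 0 536870912 1610612736 536870912 3) ndB3q0 ndB1q3 pcB3 Cut.none Ext.none)

def k0_pm_033 : ∃ t, chk3 f_pm_033 t 1 1 1 = true :=
  ⟨(a (b (b (a (b (a (l 16203056) (l 16340328)) (b (l 16425832) (l 16511832))) (l 4)) (l 4)) (b (l 4) (a (l 4) (a (b (l 4) (l 2)) (l 2))))) (b (b (l 4) (a (l 4) (a (b (l 4) (l 2)) (l 2)))) (a (b (a (b (l 4) (l 2)) (l 2)) (l 2)) (l 2)))), by decide +kernel⟩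

theorem c_pm_033 : CertB 0 536870912 1610612736 536870912 536870912 50465866 3 eng mog cd3q0 cd1q3 pd3 false true false .pnn 0 3 3
    ndB3q0 ndB1q3 pcB3 Cut.none Ext.none :=
  certB1 (fam := false) (s1 := true) (s2 := false) (a := 0) (b := 3) (c := 3) (cn := .pnn) (n1 := ndB3q0) (n2 := ndB1q3) (pc := pcB3) (cut := Cut.none) (xt := Ext.none) (P1 := 0) (W1 := 536870912) (P2 := 1610612736) (W2 := 536870912) (P3 := 536870912) (W3 := 50465866) (N0 := 3) (En := eng) (mo := mog) (C1 := cd3q0) (C2 := cd1q3) (C3 := pd3)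
    rfl (fun _ => rfl) k0_pm_033

noncomputable def f_pm_101 : ℕ → ℕ → ℕ → ℕ → Bool := onCell 536870912 536870912 536870912 536870912 536870912 50465866
    (rowB 3 eng mog cd3q1 cd1q1 pd0 0 false true false .npn 1 0 1 (qsf 536870912 536870912 536870912 536870912 0) ndB3q1 ndB1q1 pcB0 Cut.none Ext.none)

def k0_pm_101 : ∃ t, chk3 f_pm_101 t 1 1 1 = true :=
  ⟨(l 4), by decide +kernel⟩

theorem c_pm_101 : CertB 536870912 536870912 536870912 536870912 536870912 50465866 3 eng mog cd3q1 cd1q1 pd0 false true false .npn 1 0 1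
    ndB3q1 ndB1q1 pcB0 Cut.none Ext.none :=
  certB0 (fam := false) (s1 := true) (s2 := false) (a := 1) (b := 0) (c := 1) (cn := .npn) (n1 := ndB3q1) (n2 := ndB1q1) (pc := pcB0) (cut := Cut.none) (xt := Ext.none) (P1 := 536870912) (W1 := 536870912) (P2 := 536870912) (W2 := 536870912) (P3 := 536870912) (W3 := 50465866) (N0 := 3) (En := eng) (mo := mog) (C1 := cd3q1) (C2 := cd1q1) (C3 := pd0)
    rfl k0_pm_101

noncomputable def f_pm_102_a : ℕ → ℕ → ℕ → ℕ → Bool := onCell 536870912 536870912 0 536870912 536870912 50465866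
    (rowB 3 eng mog cd3q1 cd1q2a pd0 0 false true false .npp 1 0 2 (qsf 536870912 536870912 0 536870912 0) ndB3q1 ndB1q2a pcB0 Cut.none Ext.none)

def k0_pm_102_a : ∃ t, chk3 f_pm_102_a t 1 1 1 = true :=
  ⟨(a (b (a (a (l 2) (b (l 2) (b (l 2) (l 16915672)))) (a (b (b (l 16737696) (a (l 16732776) (l 16732360))) (b (a (l 16719144) (l 16722496)) (a (l 16700664) (l 16706072)))) (b (b (l 16727224) (l 16731112)) (b (l 16725440) (l 16774584))))) (b (a (a (l 2) (b (l 16658312) (l 16622168))) (a (b (l 16679136) (a (l 16640480) (l 16648312))) (b (l 16689928) (l 16657232)))) (l 4))) (b (a (a (b (b (l 16711512) (l 16723016)) (b (l 16724856) (l 16716976))) (b (b (l 16681176) (l 16702864)) (b (l 16714656) (l 16715080)))) (b (a (b (l 16643056) (l 16673552)) (a (l 16627864) (l 16602936))) (a (b (l 16694208) (l 16703360)) (b (l 16659504) (b (l 16673848) (l 16680352)))))) (a (b (a (b (l 16699712) (l 6140874439)) (b (l 16704424) (l 16679656))) (b (a (l 4) (l 16644576))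 (l 4))) (b (a (b (l 16701688) (l 16685896)) (b (l 16687392) (l 16684096))) (b (a (b (l 16663560) (l 4)) (b (l 16669352) (l 18488541687))) (l 4)))))), by decide +kernel⟩

theorem c_pm_102_a : CertB 536870912 536870912 0 536870912 536870912 50465866 3 eng mog cd3q1 cd1q2a pd0 false true false .npp 1 0 2
    ndB3q1 ndB1q2a pcB0 Cut.none Ext.none :=
  certB0 (fam := false) (s1 := true) (s2 := false) (a := 1) (b := 0) (c := 2) (cn := .npp) (n1 := ndB3q1) (n2 := ndB1q2a) (pc := pcB0) (cut := Cut.none) (xt := Ext.none) (P1 := 536870912) (W1 := 536870912) (P2 := 0) (W2 := 536870912) (P3 := 536870912) (W3 := 50465866) (N0 := 3) (En := eng) (mo := mog) (C1 := cd3q1) (C2 := cd1q2a) (C3 := pd0)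
    rfl k0_pm_102_a

noncomputable def f_pm_102_b : ℕ → ℕ → ℕ → ℕ → Bool := onCell 0 536870912 1239849684 370763052 536870912 50465866
    (rowB 3 eng mog cd3q1 cd1q2b pd0 2 false true false .npp 1 0 2 (qsf 536870912 536870912 1239849684 370763052 0) ndB3q1 ndB1q2b pcB0 Cut.none Ext.none)

def k0_pm_102_b : ∃ t, chk3 f_pm_102_b t 1 1 1 = true :=
  ⟨(a (a (l 2) (b (b (a (b (a (l 16496240) (l 16530752)) (l 2)) (b (l 16576136) (l 16499240))) (a (l 2) (l 16360368))) (l 2))) (a (b (a (b (l 16596032) (l 16454864)) (b (l 16660592) (l 16578208))) (a (l 2) (b (l 16448080) (l 2)))) (a (b (b (l 16707392) (l 16682016)) (a (l 16523584) (l 16630056))) (b (b (l 16736600) (l 16755256)) (l 16763592))))), by decide +kernel⟩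

theorem c_pm_102_b : CertB 536870912 536870912 1239849684 370763052 536870912 50465866 3 eng mog cd3q1 cd1q2b pd0 false true false .npp 1 0 2
    ndB3q1 ndB1q2b pcB0 Cut.none Ext.none :=
  certB2 (fam := false) (s1 := true) (s2 := false) (a := 1) (b := 0) (c := 2) (cn := .npp) (n1 := ndB3q1) (n2 := ndB1q2b) (pc := pcB0) (cut := Cut.none) (xt := Ext.none) (P1 := 536870912) (W1 := 536870912) (P2 := 1239849684) (W2 := 370763052) (P3 := 536870912) (W3 := 50465866) (N0 := 3) (En := eng) (mo := mog) (C1 := cd3q1) (C2 := cd1q2b) (C3 := pd0)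
    rfl (fun _ => rfl) k0_pm_102_b

noncomputable def f_pm_112_a : ℕ → ℕ → ℕ → ℕ → Bool := onCell 536870912 536870912 0 536870912 536870912 50465866
    (rowB 3 eng mog cd3q1 cd1q2a pd1 2 false true false .dn 1 1 2 (qsf 536870912 536870912 0 536870912 1) ndB3q1 ndB1q2a pcB1 Cut.none Ext.none)

def k0_pm_112_a : ∃ t, chk3 f_pm_112_a t 1 1 1 = true :=
  ⟨(a (a (b (a (b (b (l 16741968) (l 16729576)) (b (l 16709496) (l 16683888))) (b (l 16719128) (l 16705944))) (b (a (b (l 16649288) (l 16601656)) (l 16613832)) (l 4))) (b (a (b (l 16679848) (l 16623768)) (l 1)) (b (l 1) (l 1)))) (l 1)), by decide +kernel⟩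

theorem c_pm_112_a : CertB 536870912 536870912 0 536870912 536870912 50465866 3 eng mog cd3q1 cd1q2a pd1 false true false .dn 1 1 2
    ndB3q1 ndB1q2a pcB1 Cut.none Ext.none :=
  certB2 (fam := false) (s1 := true) (s2 := false) (a := 1) (b := 1) (c := 2) (cn := .dn) (n1 := ndB3q1) (n2 := ndB1q2a) (pc := pcB1) (cut := Cut.none) (xt := Ext.none) (P1 := 536870912) (W1 := 536870912) (P2 := 0) (W2 := 536870912) (P3 := 536870912) (W3 := 50465866) (N0 := 3) (En := eng) (mo := mog) (C1 := cd3q1) (C2 := cd1q2a) (C3 := pd1)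
    rfl (fun _ => rfl) k0_pm_112_a

noncomputable def f_pm_112_b : ℕ → ℕ → ℕ → ℕ → Bool := onCell 536870912 536870912 536870912 536870912 536870912 50465866
    (rowB 3 eng mog cd3q1 cd1q2b pd1 1 false true false .dn 1 1 2 (qsf 536870912 536870912 1239849684 370763052 1) ndB3q1 ndB1q2b pcB1 Cut.none Ext.none)

def k0_pm_112_b : ∃ t, chk3 f_pm_112_b t 1 1 1 = true :=
  ⟨(a (b (b (a (b (a (l 1) (l 16739984)) (l 16738928)) (b (l 16766304) (l 16846704))) (a (b (l 16750440) (l 16785032)) (l 17079064))) (a (b (l 16875640) (l 17069848)) (b (l 17627256) (l 17460624)))) (b (b (b (l 16912240) (l 17227464)) (a (l 17640432) (l 17471904))) (b (l 17487776) (l 2)))), by decide +kernel⟩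

theorem c_pm_112_b : CertB 536870912 536870912 1239849684 370763052 536870912 50465866 3 eng mog cd3q1 cd1q2b pd1 false true false .dn 1 1 2
    ndB3q1 ndB1q2b pcB1 Cut.none Ext.none :=
  certB1 (fam := false) (s1 := true) (s2 := false) (a := 1) (b := 1) (c := 2) (cn := .dn) (n1 := ndB3q1) (n2 := ndB1q2b) (pc := pcB1) (cut := Cut.none) (xt := Ext.none) (P1 := 536870912) (W1 := 536870912) (P2 := 1239849684) (W2 := 370763052) (P3 := 536870912) (W3 := 50465866) (N0 := 3) (En := eng) (mo := mog) (C1 := cd3q1) (C2 := cd1q2b) (C3 := pd1)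
    rfl (fun _ => rfl) k0_pm_112_b

noncomputable def f_pm_113 : ℕ → ℕ → ℕ → ℕ → Bool := onCell 536870912 536870912 536870912 536870912 536870912 50465866
    (rowB 3 eng mog cd3q1 cd1q3 pd1 1 false true false .nn 1 1 3 (qsf 536870912 536870912 1610612736 536870912 1) ndB3q1 ndB1q3 pcB1 Cut.none Ext.none)

def k0_pm_113 : ∃ t, chk3 f_pm_113 t 1 1 1 = true :=
  ⟨(a (b (b (l 1) (a (l 1) (l 17079200))) (a (l 379064360775) (l 375845249623))) (b (b (b (l 16912248) (l 17233176)) (a (l 17644080) (l 17482936))) (b (l 17494992) (l 17204888)))), by decide +kernel⟩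

theorem c_pm_113 : CertB 536870912 536870912 1610612736 536870912 536870912 50465866 3 eng mog cd3q1 cd1q3 pd1 false true false .nn 1 1 3
    ndB3q1 ndB1q3 pcB1 Cut.none Ext.none :=
  certB1 (fam := false) (s1 := true) (s2 := false) (a := 1) (b := 1) (c := 3) (cn := .nn) (n1 := ndB3q1) (n2 := ndB1q3) (pc := pcB1) (cut := Cut.none) (xt := Ext.none) (P1 := 536870912) (W1 := 536870912) (P2 := 1610612736) (W2 := 536870912) (P3 := 536870912) (W3 := 50465866) (N0 := 3) (En := eng) (mo := mog) (C1 := cd3q1) (C2 := cd1q3) (C3 := pd1)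
    rfl (fun _ => rfl) k0_pm_113

noncomputable def f_pm_123 : ℕ → ℕ → ℕ → ℕ → Bool := onCell 1073741824 536870912 1610612736 536870912 536870912 50465866
    (rowB 3 eng mog cd3q1 cd1q3 pd2 2 false true false .npn 1 2 3 (qsf 536870912 536870912 1610612736 536870912 2) ndB3q1 ndB1q3 pcB2 Cut.none Ext.none)

def k0_pm_123 : ∃ t, chk3 f_pm_123 t 1 1 1 = true :=
  ⟨(a (b (a (b (l 16708552) (l 17107208)) (b (l 559452539975) (l 617971787687))) (a (b (l 17119280) (l 16893920)) (b (l 16902560) (l 16825656)))) (b (a (b (l 1) (l 586833393911)) (l 1)) (a (b (l 770980571575) (l 16859840)) (l 4)))), by decide +kernel⟩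

theorem c_pm_123 : CertB 536870912 536870912 1610612736 536870912 536870912 50465866 3 eng mog cd3q1 cd1q3 pd2 false true false .npn 1 2 3
    ndB3q1 ndB1q3 pcB2 Cut.none Ext.none :=
  certB2 (fam := false) (s1 := true) (s2 := false) (a := 1) (b := 2) (c := 3) (cn := .npn) (n1 := ndB3q1) (n2 := ndB1q3) (pc := pcB2) (cut := Cut.none) (xt := Ext.none) (P1 := 536870912) (W1 := 536870912) (P2 := 1610612736) (W2 := 536870912) (P3 := 536870912) (W3 := 50465866) (N0 := 3) (En := eng) (mo := mog) (C1 := cd3q1) (C2 := cd1q3) (C3 := pd2)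
    rfl (fun _ => rfl) k0_pm_123

noncomputable def f_pm_133 : ℕ → ℕ → ℕ → ℕ → Bool := onCell 1610612736 536870912 1610612736 536870912 536870912 50465866
    (rowB 3 eng mog cd3q1 cd1q3 pd3 2 false true false .dn 1 3 3 (qsf 536870912 536870912 1610612736 536870912 3) ndB3q1 ndB1q3 pcB3 Cut.none Ext.none)

def k0_pm_133 : ∃ t, chk3 f_pm_133 t 1 1 1 = true :=
  ⟨(a (b (l 1) (l 4)) (l 1)), by decide +kernel⟩

theorem c_pm_133 : CertB 536870912 536870912 1610612736 536870912 536870912 50465866 3 eng mog cd3q1 cd1q3 pd3 false true false .dn 1 3 3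
    ndB3q1 ndB1q3 pcB3 Cut.none Ext.none :=
  certB2 (fam := false) (s1 := true) (s2 := false) (a := 1) (b := 3) (c := 3) (cn := .dn) (n1 := ndB3q1) (n2 := ndB1q3) (pc := pcB3) (cut := Cut.none) (xt := Ext.none) (P1 := 536870912) (W1 := 536870912) (P2 := 1610612736) (W2 := 536870912) (P3 := 536870912) (W3 := 50465866) (N0 := 3) (En := eng) (mo := mog) (C1 := cd3q1) (C2 := cd1q3) (C3 := pd3)
    rfl (fun _ => rfl) k0_pm_133

noncomputable def cut_pm_202_aa : Cut := Cut.of [[⟨0, 1, 0, 67108864⟩, ⟨1, 0, 0, 67108864⟩, ⟨2, 1, 0, 67108864⟩]]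

noncomputable def f_pm_202_aa : ℕ → ℕ → ℕ → ℕ → Bool := onCell 0 536870912 0 536870912 536870912 50465866
    (rowB 3 eng mog cd3q2a cd1q2a pd0 0 false true false .pp 2 0 2 (qsf 0 536870912 0 536870912 0) ndB3q2a ndB1q2a pcB0 cut_pm_202_aa Ext.none)

def k0_pm_202_aa : ∃ t, chk3 f_pm_202_aa t 1 1 1 = true :=
  ⟨(a (l 3) (b (l 3) (b (l 3) (a (l 3) (b (l 3) (a (l 3) (l 6))))))), by decide +kernel⟩

theorem c_pm_202_aa : CertB 0 536870912 0 536870912 536870912 50465866 3 eng mog cd3q2a cd1q2a pd0 false true false .pp 2 0 2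
    ndB3q2a ndB1q2a pcB0 cut_pm_202_aa Ext.none :=
  certB0 (fam := false) (s1 := true) (s2 := false) (a := 2) (b := 0) (c := 2) (cn := .pp) (n1 := ndB3q2a) (n2 := ndB1q2a) (pc := pcB0) (cut := cut_pm_202_aa) (xt := Ext.none) (P1 := 0) (W1 := 536870912) (P2 := 0) (W2 := 536870912) (P3 := 536870912) (W3 := 50465866) (N0 := 3) (En := eng) (mo := mog) (C1 := cd3q2a) (C2 := cd1q2a) (C3 := pd0)
    rfl k0_pm_202_aa

noncomputable def cut_pm_202_ab : Cut := Cut.of [[⟨0, 1, 0, 67108864⟩, ⟨1, 0, 0, 67108864⟩, ⟨2, 1, 0, 67108864⟩]]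

noncomputable def f_pm_202_ab : ℕ → ℕ → ℕ → ℕ → Bool := onCell 0 536870912 1239849684 370763052 536870912 50465866
    (rowB 3 eng mog cd3q2a cd1q2b pd0 0 false true false .pp 2 0 2 (qsf 0 536870912 1239849684 370763052 0) ndB3q2a ndB1q2b pcB0 cut_pm_202_ab Ext.none)

def k0_pm_202_ab : ∃ t, chk3 f_pm_202_ab t 1 1 1 = true :=
  ⟨(l 3), by decide +kernel⟩

theorem c_pm_202_ab : CertB 0 536870912 1239849684 370763052 536870912 50465866 3 eng mog cd3q2a cd1q2b pd0 false true false .pp 2 0 2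
    ndB3q2a ndB1q2b pcB0 cut_pm_202_ab Ext.none :=
  certB0 (fam := false) (s1 := true) (s2 := false) (a := 2) (b := 0) (c := 2) (cn := .pp) (n1 := ndB3q2a) (n2 := ndB1q2b) (pc := pcB0) (cut := cut_pm_202_ab) (xt := Ext.none) (P1 := 0) (W1 := 536870912) (P2 := 1239849684) (W2 := 370763052) (P3 := 536870912) (W3 := 50465866) (N0 := 3) (En := eng) (mo := mog) (C1 := cd3q2a) (C2 := cd1q2b) (C3 := pd0)
    rfl k0_pm_202_ab

noncomputable def cut_pm_202_ba : Cut := Cut.of [[⟨0, 1, 0, 67108864⟩, ⟨1, 0, 0, 67108864⟩, ⟨2, 1, 0, 67108864⟩]]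

noncomputable def f_pm_202_ba : ℕ → ℕ → ℕ → ℕ → Bool := onCell 1239849684 370763052 0 536870912 536870912 50465866
    (rowB 3 eng mog cd3q2b cd1q2a pd0 0 false true false .pp 2 0 2 (qsf 1239849684 370763052 0 536870912 0) ndB3q2b ndB1q2a pcB0 cut_pm_202_ba Ext.none)

def k0_pm_202_ba : ∃ t, chk3 f_pm_202_ba t 1 1 1 = true :=
  ⟨(l 3), by decide +kernel⟩

theorem c_pm_202_ba : CertB 1239849684 370763052 0 536870912 536870912 50465866 3 eng mog cd3q2b cd1q2a pd0 false true false .pp 2 0 2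
    ndB3q2b ndB1q2a pcB0 cut_pm_202_ba Ext.none :=
  certB0 (fam := false) (s1 := true) (s2 := false) (a := 2) (b := 0) (c := 2) (cn := .pp) (n1 := ndB3q2b) (n2 := ndB1q2a) (pc := pcB0) (cut := cut_pm_202_ba) (xt := Ext.none) (P1 := 1239849684) (W1 := 370763052) (P2 := 0) (W2 := 536870912) (P3 := 536870912) (W3 := 50465866) (N0 := 3) (En := eng) (mo := mog) (C1 := cd3q2b) (C2 := cd1q2a) (C3 := pd0)
    rfl k0_pm_202_ba

noncomputable def cut_pm_202_bb : Cut := Cut.of [[⟨0, 1, 0, 67108864⟩, ⟨1, 0, 0, 67108864⟩, ⟨2, 1, 0, 67108864⟩]]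

noncomputable def f_pm_202_bb : ℕ → ℕ → ℕ → ℕ → Bool := onCell 1239849684 370763052 1239849684 370763052 536870912 50465866
    (rowB 3 eng mog cd3q2b cd1q2b pd0 0 false true false .pp 2 0 2 (qsf 1239849684 370763052 1239849684 370763052 0) ndB3q2b ndB1q2b pcB0 cut_pm_202_bb Ext.none)

def k0_pm_202_bb : ∃ t, chk3 f_pm_202_bb t 1 1 1 = true :=
  ⟨(l 3), by decide +kernel⟩

theorem c_pm_202_bb : CertB 1239849684 370763052 1239849684 370763052 536870912 50465866 3 eng mog cd3q2b cd1q2b pd0 false true false .pp 2 0 2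
    ndB3q2b ndB1q2b pcB0 cut_pm_202_bb Ext.none :=
  certB0 (fam := false) (s1 := true) (s2 := false) (a := 2) (b := 0) (c := 2) (cn := .pp) (n1 := ndB3q2b) (n2 := ndB1q2b) (pc := pcB0) (cut := cut_pm_202_bb) (xt := Ext.none) (P1 := 1239849684) (W1 := 370763052) (P2 := 1239849684) (W2 := 370763052) (P3 := 536870912) (W3 := 50465866) (N0 := 3) (En := eng) (mo := mog) (C1 := cd3q2b) (C2 := cd1q2b) (C3 := pd0)
    rfl k0_pm_202_bb

noncomputable def f_pm_203_a : ℕ → ℕ → ℕ → ℕ → Bool := onCell 0 536870912 0 536870912 536870912 50465866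
    (rowB 3 eng mog cd3q2a cd1q3 pd0 1 false true false .up 2 0 3 (qsf 0 536870912 1610612736 536870912 0) ndB3q2a ndB1q3 pcB0 Cut.none Ext.none)

def k0_pm_203_a : ∃ t, chk3 f_pm_203_a t 1 1 1 = true :=
  ⟨(l 3), by decide +kernel⟩

theorem c_pm_203_a : CertB 0 536870912 1610612736 536870912 536870912 50465866 3 eng mog cd3q2a cd1q3 pd0 false true false .up 2 0 3
    ndB3q2a ndB1q3 pcB0 Cut.none Ext.none :=
  certB1 (fam := false) (s1 := true) (s2 := false) (a := 2) (b := 0) (c := 3) (cn := .up) (n1 := ndB3q2a) (n2 := ndB1q3) (pc := pcB0) (cut := Cut.none) (xt := Ext.none) (P1 := 0) (W1 := 536870912) (P2 := 1610612736) (W2 := 536870912) (P3 := 536870912) (W3 := 50465866) (N0 := 3) (En := eng) (mo := mog) (C1 := cd3q2a) (C2 := cd1q3) (C3 := pd0)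
    rfl (fun _ => rfl) k0_pm_203_a

noncomputable def f_pm_203_b : ℕ → ℕ → ℕ → ℕ → Bool := onCell 1239849684 370763052 1610612736 536870912 536870912 50465866
    (rowB 3 eng mog cd3q2b cd1q3 pd0 0 false true false .up 2 0 3 (qsf 1239849684 370763052 1610612736 536870912 0) ndB3q2b ndB1q3 pcB0 Cut.none Ext.none)

def k0_pm_203_b : ∃ t, chk3 f_pm_203_b t 1 1 1 = true :=
  ⟨(l 3), by decide +kernel⟩

theorem c_pm_203_b : CertB 1239849684 370763052 1610612736 536870912 536870912 50465866 3 eng mog cd3q2b cd1q3 pd0 false true false .up 2 0 3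
    ndB3q2b ndB1q3 pcB0 Cut.none Ext.none :=
  certB0 (fam := false) (s1 := true) (s2 := false) (a := 2) (b := 0) (c := 3) (cn := .up) (n1 := ndB3q2b) (n2 := ndB1q3) (pc := pcB0) (cut := Cut.none) (xt := Ext.none) (P1 := 1239849684) (W1 := 370763052) (P2 := 1610612736) (W2 := 536870912) (P3 := 536870912) (W3 := 50465866) (N0 := 3) (En := eng) (mo := mog) (C1 := cd3q2b) (C2 := cd1q3) (C3 := pd0)
    rfl k0_pm_203_b

noncomputable def cut_pm_213_a : Cut := Cut.of [[⟨0, 1, 0, 67108864⟩, ⟨1, 1, 0, 67108864⟩, ⟨2, 2, 0, 16777216⟩]]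

noncomputable def f_pm_213_a : ℕ → ℕ → ℕ → ℕ → Bool := onCell 0 536870912 1610612736 536870912 536870912 50465866
    (rowB 3 eng mog cd3q2a cd1q3 pd1 0 false true false .pnn 2 1 3 (qsf 0 536870912 1610612736 536870912 1) ndB3q2a ndB1q3 pcB1 cut_pm_213_a Ext.none)

def k0_pm_213_a : ∃ t, chk3 f_pm_213_a t 1 1 1 = true :=
  ⟨(b (l 3) (a (l 3) (b (l 3) (a (l 3) (b (l 3) (a (l 3) (b (l 3) (b (l 3) (b (l 3) (l 6)))))))))), by decide +kernel⟩

theorem c_pm_213_a : CertB 0 536870912 1610612736 536870912 536870912 50465866 3 eng mog cd3q2a cd1q3 pd1 false true false .pnn 2 1 3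
    ndB3q2a ndB1q3 pcB1 cut_pm_213_a Ext.none :=
  certB0 (fam := false) (s1 := true) (s2 := false) (a := 2) (b := 1) (c := 3) (cn := .pnn) (n1 := ndB3q2a) (n2 := ndB1q3) (pc := pcB1) (cut := cut_pm_213_a) (xt := Ext.none) (P1 := 0) (W1 := 536870912) (P2 := 1610612736) (W2 := 536870912) (P3 := 536870912) (W3 := 50465866) (N0 := 3) (En := eng) (mo := mog) (C1 := cd3q2a) (C2 := cd1q3) (C3 := pd1)
    rfl k0_pm_213_a

noncomputable def cut_pm_213_b : Cut := Cut.of [[⟨0, 1, 0, 67108864⟩, ⟨1, 1, 0, 67108864⟩, ⟨2, 2, 0, 16777216⟩]]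

noncomputable def f_pm_213_b : ℕ → ℕ → ℕ → ℕ → Bool := onCell 1239849684 370763052 1610612736 536870912 536870912 50465866
    (rowB 3 eng mog cd3q2b cd1q3 pd1 0 false true false .pnn 2 1 3 (qsf 1239849684 370763052 1610612736 536870912 1) ndB3q2b ndB1q3 pcB1 cut_pm_213_b Ext.none)

def k0_pm_213_b : ∃ t, chk3 f_pm_213_b t 1 1 1 = true :=
  ⟨(l 3), by decide +kernel⟩

theorem c_pm_213_b : CertB 1239849684 370763052 1610612736 536870912 536870912 50465866 3 eng mog cd3q2b cd1q3 pd1 false true false .pnn 2 1 3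
    ndB3q2b ndB1q3 pcB1 cut_pm_213_b Ext.none :=
  certB0 (fam := false) (s1 := true) (s2 := false) (a := 2) (b := 1) (c := 3) (cn := .pnn) (n1 := ndB3q2b) (n2 := ndB1q3) (pc := pcB1) (cut := cut_pm_213_b) (xt := Ext.none) (P1 := 1239849684) (W1 := 370763052) (P2 := 1610612736) (W2 := 536870912) (P3 := 536870912) (W3 := 50465866) (N0 := 3) (En := eng) (mo := mog) (C1 := cd3q2b) (C2 := cd1q3) (C3 := pd1)
    rfl k0_pm_213_b

noncomputable def f_pm_303 : ℕ → ℕ → ℕ → ℕ → Bool := onCell 1610612736 536870912 1610612736 536870912 536870912 50465866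
    (rowB 3 eng mog cd3q3 cd1q3 pd0 0 false true false .npn 3 0 3 (qsf 1610612736 536870912 1610612736 536870912 0) ndB3q3 ndB1q3 pcB0 Cut.none Ext.none)

def k0_pm_303 : ∃ t, chk3 f_pm_303 t 1 1 1 = true :=
  ⟨(l 3), by decide +kernel⟩

theorem c_pm_303 : CertB 1610612736 536870912 1610612736 536870912 536870912 50465866 3 eng mog cd3q3 cd1q3 pd0 false true false .npn 3 0 3
    ndB3q3 ndB1q3 pcB0 Cut.none Ext.none :=
  certB0 (fam := false) (s1 := true) (s2 := false) (a := 3) (b := 0) (c := 3) (cn := .npn) (n1 := ndB3q3) (n2 := ndB1q3) (pc := pcB0) (cut := Cut.none) (xt := Ext.none) (P1 := 1610612736) (W1 := 536870912) (P2 := 1610612736) (W2 := 536870912) (P3 := 536870912) (W3 := 50465866) (N0 := 3) (En := eng) (mo := mog) (C1 := cd3q3) (C2 := cd1q3) (C3 := pd0)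
    rfl k0_pm_303

noncomputable def f_pm_313 : ℕ → ℕ → ℕ → ℕ → Bool := onCell 1610612736 536870912 1610612736 536870912 536870912 50465866
    (rowB 3 eng mog cd3q3 cd1q3 pd1 0 false true false .dn 3 1 3 (qsf 1610612736 536870912 1610612736 536870912 1) ndB3q3 ndB1q3 pcB1 Cut.none Ext.none)

def k0_pm_313 : ∃ t, chk3 f_pm_313 t 1 1 1 = true :=
  ⟨(l 3), by decide +kernel⟩

theorem c_pm_313 : CertB 1610612736 536870912 1610612736 536870912 536870912 50465866 3 eng mog cd3q3 cd1q3 pd1 false true false .dn 3 1 3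
    ndB3q3 ndB1q3 pcB1 Cut.none Ext.none :=
  certB0 (fam := false) (s1 := true) (s2 := false) (a := 3) (b := 1) (c := 3) (cn := .dn) (n1 := ndB3q3) (n2 := ndB1q3) (pc := pcB1) (cut := Cut.none) (xt := Ext.none) (P1 := 1610612736) (W1 := 536870912) (P2 := 1610612736) (W2 := 536870912) (P3 := 536870912) (W3 := 50465866) (N0 := 3) (En := eng) (mo := mog) (C1 := cd3q3) (C2 := cd1q3) (C3 := pd1)
    rfl k0_pm_313

noncomputable def f_mm_001 : ℕ → ℕ → ℕ → ℕ → Bool := onCell 0 536870912 536870912 536870912 536870912 50465866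
    (rowB 3 eng mog cd3q0 cd1q1 pd0 0 false false false .up 0 0 1 (qsf 0 536870912 536870912 536870912 0) ndB3q0 ndB1q1 pcB0 Cut.none Ext.none)

def k0_mm_001 : ∃ t, chk3 f_mm_001 t 1 1 1 = true :=
  ⟨(l 5), by decide +kernel⟩

theorem c_mm_001 : CertB 0 536870912 536870912 536870912 536870912 50465866 3 eng mog cd3q0 cd1q1 pd0 false false false .up 0 0 1
    ndB3q0 ndB1q1 pcB0 Cut.none Ext.none :=
  certB0 (fam := false) (s1 := false) (s2 := false) (a := 0) (b := 0) (c := 1) (cn := .up) (n1 := ndB3q0) (n2 := ndB1q1) (pc := pcB0) (cut := Cut.none) (xt := Ext.none) (P1 := 0) (W1 := 536870912) (P2 := 536870912) (W2 := 536870912) (P3 := 536870912) (W3 := 50465866) (N0 := 3) (En := eng) (mo := mog) (C1 := cd3q0) (C2 := cd1q1) (C3 := pd0)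
    rfl k0_mm_001

noncomputable def f_mm_011 : ℕ → ℕ → ℕ → ℕ → Bool := onCell 0 536870912 536870912 536870912 536870912 50465866
    (rowB 3 eng mog cd3q0 cd1q1 pd1 0 false false false .pnn 0 1 1 (qsf 0 536870912 536870912 536870912 1) ndB3q0 ndB1q1 pcB1 Cut.none Ext.none)

def k0_mm_011 : ∃ t, chk3 f_mm_011 t 1 1 1 = true :=
  ⟨(l 5), by decide +kernel⟩

theorem c_mm_011 : CertB 0 536870912 536870912 536870912 536870912 50465866 3 eng mog cd3q0 cd1q1 pd1 false false false .pnn 0 1 1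
    ndB3q0 ndB1q1 pcB1 Cut.none Ext.none :=
  certB0 (fam := false) (s1 := false) (s2 := false) (a := 0) (b := 1) (c := 1) (cn := .pnn) (n1 := ndB3q0) (n2 := ndB1q1) (pc := pcB1) (cut := Cut.none) (xt := Ext.none) (P1 := 0) (W1 := 536870912) (P2 := 536870912) (W2 := 536870912) (P3 := 536870912) (W3 := 50465866) (N0 := 3) (En := eng) (mo := mog) (C1 := cd3q0) (C2 := cd1q1) (C3 := pd1)
    rfl k0_mm_011

noncomputable def f_mm_012_a : ℕ → ℕ → ℕ → ℕ → Bool := onCell 0 536870912 0 536870912 536870912 50465866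
    (rowB 3 eng mog cd3q0 cd1q2a pd1 0 false false false .pnp 0 1 2 (qsf 0 536870912 0 536870912 1) ndB3q0 ndB1q2a pcB1 Cut.none Ext.none)

def k0_mm_012_a : ∃ t, chk3 f_mm_012_a t 1 1 1 = true :=
  ⟨(l 5), by decide +kernel⟩

theorem c_mm_012_a : CertB 0 536870912 0 536870912 536870912 50465866 3 eng mog cd3q0 cd1q2a pd1 false false false .pnp 0 1 2
    ndB3q0 ndB1q2a pcB1 Cut.none Ext.none :=
  certB0 (fam := false) (s1 := false) (s2 := false) (a := 0) (b := 1) (c := 2) (cn := .pnp) (n1 := ndB3q0) (n2 := ndB1q2a) (pc := pcB1) (cut := Cut.none) (xt := Ext.none) (P1 := 0) (W1 := 536870912) (P2 := 0) (W2 := 536870912) (P3 := 536870912) (W3 := 50465866) (N0 := 3) (En := eng) (mo := mog) (C1 := cd3q0) (C2 := cd1q2a) (C3 := pd1)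
    rfl k0_mm_012_a

noncomputable def f_mm_012_b : ℕ → ℕ → ℕ → ℕ → Bool := onCell 0 536870912 1239849684 370763052 536870912 50465866
    (rowB 3 eng mog cd3q0 cd1q2b pd1 0 false false false .pnp 0 1 2 (qsf 0 536870912 1239849684 370763052 1) ndB3q0 ndB1q2b pcB1 Cut.none Ext.none)

def k0_mm_012_b : ∃ t, chk3 f_mm_012_b t 1 1 1 = true :=
  ⟨(l 5), by decide +kernel⟩

theorem c_mm_012_b : CertB 0 536870912 1239849684 370763052 536870912 50465866 3 eng mog cd3q0 cd1q2b pd1 false false false .pnp 0 1 2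
    ndB3q0 ndB1q2b pcB1 Cut.none Ext.none :=
  certB0 (fam := false) (s1 := false) (s2 := false) (a := 0) (b := 1) (c := 2) (cn := .pnp) (n1 := ndB3q0) (n2 := ndB1q2b) (pc := pcB1) (cut := Cut.none) (xt := Ext.none) (P1 := 0) (W1 := 536870912) (P2 := 1239849684) (W2 := 370763052) (P3 := 536870912) (W3 := 50465866) (N0 := 3) (En := eng) (mo := mog) (C1 := cd3q0) (C2 := cd1q2b) (C3 := pd1)
    rfl k0_mm_012_b

noncomputable def f_mm_022_a : ℕ → ℕ → ℕ → ℕ → Bool := onCell 0 536870912 0 536870912 536870912 50465866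
    (rowB 3 eng mog cd3q0 cd1q2a pd2 0 false false false .pp 0 2 2 (qsf 0 536870912 0 536870912 2) ndB3q0 ndB1q2a pcB2 Cut.none Ext.none)

def k0_mm_022_a : ∃ t, chk3 f_mm_022_a t 1 1 1 = true :=
  ⟨(l 5), by decide +kernel⟩

theorem c_mm_022_a : CertB 0 536870912 0 536870912 536870912 50465866 3 eng mog cd3q0 cd1q2a pd2 false false false .pp 0 2 2
    ndB3q0 ndB1q2a pcB2 Cut.none Ext.none :=
  certB0 (fam := false) (s1 := false) (s2 := false) (a := 0) (b := 2) (c := 2) (cn := .pp) (n1 := ndB3q0) (n2 := ndB1q2a) (pc := pcB2) (cut := Cut.none) (xt := Ext.none) (P1 := 0) (W1 := 536870912) (P2 := 0) (W2 := 536870912) (P3 := 536870912) (W3 := 50465866) (N0 := 3) (En := eng) (mo := mog) (C1 := cd3q0) (C2 := cd1q2a) (C3 := pd2)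
    rfl k0_mm_022_a

noncomputable def f_mm_022_b : ℕ → ℕ → ℕ → ℕ → Bool := onCell 0 536870912 1239849684 370763052 536870912 50465866
    (rowB 3 eng mog cd3q0 cd1q2b pd2 0 false false false .pp 0 2 2 (qsf 0 536870912 1239849684 370763052 2) ndB3q0 ndB1q2b pcB2 Cut.none Ext.none)

def k0_mm_022_b : ∃ t, chk3 f_mm_022_b t 1 1 1 = true :=
  ⟨(l 5), by decide +kernel⟩

theorem c_mm_022_b : CertB 0 536870912 1239849684 370763052 536870912 50465866 3 eng mog cd3q0 cd1q2b pd2 false false false .pp 0 2 2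
    ndB3q0 ndB1q2b pcB2 Cut.none Ext.none :=
  certB0 (fam := false) (s1 := false) (s2 := false) (a := 0) (b := 2) (c := 2) (cn := .pp) (n1 := ndB3q0) (n2 := ndB1q2b) (pc := pcB2) (cut := Cut.none) (xt := Ext.none) (P1 := 0) (W1 := 536870912) (P2 := 1239849684) (W2 := 370763052) (P3 := 536870912) (W3 := 50465866) (N0 := 3) (En := eng) (mo := mog) (C1 := cd3q0) (C2 := cd1q2b) (C3 := pd2)
    rfl k0_mm_022_b

noncomputable def f_mm_023 : ℕ → ℕ → ℕ → ℕ → Bool := onCell 0 536870912 1610612736 536870912 536870912 50465866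
    (rowB 3 eng mog cd3q0 cd1q3 pd2 0 false false false .up 0 2 3 (qsf 0 536870912 1610612736 536870912 2) ndB3q0 ndB1q3 pcB2 Cut.none Ext.none)

def k0_mm_023 : ∃ t, chk3 f_mm_023 t 1 1 1 = true :=
  ⟨(l 5), by decide +kernel⟩

theorem c_mm_023 : CertB 0 536870912 1610612736 536870912 536870912 50465866 3 eng mog cd3q0 cd1q3 pd2 false false false .up 0 2 3
    ndB3q0 ndB1q3 pcB2 Cut.none Ext.none :=
  certB0 (fam := false) (s1 := false) (s2 := false) (a := 0) (b := 2) (c := 3) (cn := .up) (n1 := ndB3q0) (n2 := ndB1q3) (pc := pcB2) (cut := Cut.none) (xt := Ext.none) (P1 := 0) (W1 := 536870912) (P2 := 1610612736) (W2 := 536870912) (P3 := 536870912) (W3 := 50465866) (N0 := 3) (En := eng) (mo := mog) (C1 := cd3q0) (C2 := cd1q3) (C3 := pd2)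
    rfl k0_mm_023

noncomputable def f_mm_033 : ℕ → ℕ → ℕ → ℕ → Bool := onCell 0 536870912 1610612736 536870912 536870912 50465866
    (rowB 3 eng mog cd3q0 cd1q3 pd3 0 false false false .pnn 0 3 3 (qsf 0 536870912 1610612736 536870912 3) ndB3q0 ndB1q3 pcB3 Cut.none Ext.none)

def k0_mm_033 : ∃ t, chk3 f_mm_033 t 1 1 1 = true :=
  ⟨(l 5), by decide +kernel⟩

theorem c_mm_033 : CertB 0 536870912 1610612736 536870912 536870912 50465866 3 eng mog cd3q0 cd1q3 pd3 false false false .pnn 0 3 3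
    ndB3q0 ndB1q3 pcB3 Cut.none Ext.none :=
  certB0 (fam := false) (s1 := false) (s2 := false) (a := 0) (b := 3) (c := 3) (cn := .pnn) (n1 := ndB3q0) (n2 := ndB1q3) (pc := pcB3) (cut := Cut.none) (xt := Ext.none) (P1 := 0) (W1 := 536870912) (P2 := 1610612736) (W2 := 536870912) (P3 := 536870912) (W3 := 50465866) (N0 := 3) (En := eng) (mo := mog) (C1 := cd3q0) (C2 := cd1q3) (C3 := pd3)
    rfl k0_mm_033

noncomputable def f_mm_101 : ℕ → ℕ → ℕ → ℕ → Bool := onCell 536870912 536870912 536870912 536870912 536870912 50465866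
    (rowB 3 eng mog cd3q1 cd1q1 pd0 0 false false false .npn 1 0 1 (qsf 536870912 536870912 536870912 536870912 0) ndB3q1 ndB1q1 pcB0 Cut.none Ext.none)

def k0_mm_101 : ∃ t, chk3 f_mm_101 t 1 1 1 = true :=
  ⟨(l 3), by decide +kernel⟩

theorem c_mm_101 : CertB 536870912 536870912 536870912 536870912 536870912 50465866 3 eng mog cd3q1 cd1q1 pd0 false false false .npn 1 0 1
    ndB3q1 ndB1q1 pcB0 Cut.none Ext.none :=
  certB0 (fam := false) (s1 := false) (s2 := false) (a := 1) (b := 0) (c := 1) (cn := .npn) (n1 := ndB3q1) (n2 := ndB1q1) (pc := pcB0) (cut := Cut.none) (xt := Ext.none) (P1 := 536870912) (W1 := 536870912) (P2 := 536870912) (W2 := 536870912) (P3 := 536870912) (W3 := 50465866) (N0 := 3) (En := eng) (mo := mog) (C1 := cd3q1) (C2 := cd1q1) (C3 := pd0)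
    rfl k0_mm_101

noncomputable def f_mm_102_a : ℕ → ℕ → ℕ → ℕ → Bool := onCell 536870912 536870912 0 536870912 536870912 50465866
    (rowB 3 eng mog cd3q1 cd1q2a pd0 0 false false false .npp 1 0 2 (qsf 536870912 536870912 0 536870912 0) ndB3q1 ndB1q2a pcB0 Cut.none Ext.none)

def k0_mm_102_a : ∃ t, chk3 f_mm_102_a t 1 1 1 = true :=
  ⟨(l 5), by decide +kernel⟩

theorem c_mm_102_a : CertB 536870912 536870912 0 536870912 536870912 50465866 3 eng mog cd3q1 cd1q2a pd0 false false false .npp 1 0 2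
    ndB3q1 ndB1q2a pcB0 Cut.none Ext.none :=
  certB0 (fam := false) (s1 := false) (s2 := false) (a := 1) (b := 0) (c := 2) (cn := .npp) (n1 := ndB3q1) (n2 := ndB1q2a) (pc := pcB0) (cut := Cut.none) (xt := Ext.none) (P1 := 536870912) (W1 := 536870912) (P2 := 0) (W2 := 536870912) (P3 := 536870912) (W3 := 50465866) (N0 := 3) (En := eng) (mo := mog) (C1 := cd3q1) (C2 := cd1q2a) (C3 := pd0)
    rfl k0_mm_102_a

noncomputable def f_mm_102_b : ℕ → ℕ → ℕ → ℕ → Bool := onCell 536870912 536870912 1239849684 370763052 536870912 50465866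
    (rowB 3 eng mog cd3q1 cd1q2b pd0 0 false false false .npp 1 0 2 (qsf 536870912 536870912 1239849684 370763052 0) ndB3q1 ndB1q2b pcB0 Cut.none Ext.none)

def k0_mm_102_b : ∃ t, chk3 f_mm_102_b t 1 1 1 = true :=
  ⟨(l 5), by decide +kernel⟩

theorem c_mm_102_b : CertB 536870912 536870912 1239849684 370763052 536870912 50465866 3 eng mog cd3q1 cd1q2b pd0 false false false .npp 1 0 2
    ndB3q1 ndB1q2b pcB0 Cut.none Ext.none :=
  certB0 (fam := false) (s1 := false) (s2 := false) (a := 1) (b := 0) (c := 2) (cn := .npp) (n1 := ndB3q1) (n2 := ndB1q2b) (pc := pcB0) (cut := Cut.none) (xt := Ext.none) (P1 := 536870912) (W1 := 536870912) (P2 := 1239849684) (W2 := 370763052) (P3 := 536870912) (W3 := 50465866) (N0 := 3) (En := eng) (mo := mog) (C1 := cd3q1) (C2 := cd1q2b) (C3 := pd0)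
    rfl k0_mm_102_b

noncomputable def f_mm_112_a : ℕ → ℕ → ℕ → ℕ → Bool := onCell 536870912 536870912 0 536870912 536870912 50465866
    (rowB 3 eng mog cd3q1 cd1q2a pd1 0 false false false .dn 1 1 2 (qsf 536870912 536870912 0 536870912 1) ndB3q1 ndB1q2a pcB1 Cut.none Ext.none)

def k0_mm_112_a : ∃ t, chk3 f_mm_112_a t 1 1 1 = true :=
  ⟨(l 5), by decide +kernel⟩

theorem c_mm_112_a : CertB 536870912 536870912 0 536870912 536870912 50465866 3 eng mog cd3q1 cd1q2a pd1 false false false .dn 1 1 2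
    ndB3q1 ndB1q2a pcB1 Cut.none Ext.none :=
  certB0 (fam := false) (s1 := false) (s2 := false) (a := 1) (b := 1) (c := 2) (cn := .dn) (n1 := ndB3q1) (n2 := ndB1q2a) (pc := pcB1) (cut := Cut.none) (xt := Ext.none) (P1 := 536870912) (W1 := 536870912) (P2 := 0) (W2 := 536870912) (P3 := 536870912) (W3 := 50465866) (N0 := 3) (En := eng) (mo := mog) (C1 := cd3q1) (C2 := cd1q2a) (C3 := pd1)
    rfl k0_mm_112_a

noncomputable def f_mm_112_b : ℕ → ℕ → ℕ → ℕ → Bool := onCell 536870912 536870912 1239849684 370763052 536870912 50465866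
    (rowB 3 eng mog cd3q1 cd1q2b pd1 0 false false false .dn 1 1 2 (qsf 536870912 536870912 1239849684 370763052 1) ndB3q1 ndB1q2b pcB1 Cut.none Ext.none)

def k0_mm_112_b : ∃ t, chk3 f_mm_112_b t 1 1 1 = true :=
  ⟨(l 5), by decide +kernel⟩

theorem c_mm_112_b : CertB 536870912 536870912 1239849684 370763052 536870912 50465866 3 eng mog cd3q1 cd1q2b pd1 false false false .dn 1 1 2
    ndB3q1 ndB1q2b pcB1 Cut.none Ext.none :=
  certB0 (fam := false) (s1 := false) (s2 := false) (a := 1) (b := 1) (c := 2) (cn := .dn) (n1 := ndB3q1) (n2 := ndB1q2b) (pc := pcB1) (cut := Cut.none) (xt := Ext.none) (P1 := 536870912) (W1 := 536870912) (P2 := 1239849684) (W2 := 370763052) (P3 := 536870912) (W3 := 50465866) (N0 := 3) (En := eng) (mo := mog) (C1 := cd3q1) (C2 := cd1q2b) (C3 := pd1)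
    rfl k0_mm_112_b

noncomputable def f_mm_113 : ℕ → ℕ → ℕ → ℕ → Bool := onCell 536870912 536870912 1610612736 536870912 536870912 50465866
    (rowB 3 eng mog cd3q1 cd1q3 pd1 0 false false false .nn 1 1 3 (qsf 536870912 536870912 1610612736 536870912 1) ndB3q1 ndB1q3 pcB1 Cut.none Ext.none)

def k0_mm_113 : ∃ t, chk3 f_mm_113 t 1 1 1 = true :=
  ⟨(l 5), by decide +kernel⟩

theorem c_mm_113 : CertB 536870912 536870912 1610612736 536870912 536870912 50465866 3 eng mog cd3q1 cd1q3 pd1 false false false .nn 1 1 3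
    ndB3q1 ndB1q3 pcB1 Cut.none Ext.none :=
  certB0 (fam := false) (s1 := false) (s2 := false) (a := 1) (b := 1) (c := 3) (cn := .nn) (n1 := ndB3q1) (n2 := ndB1q3) (pc := pcB1) (cut := Cut.none) (xt := Ext.none) (P1 := 536870912) (W1 := 536870912) (P2 := 1610612736) (W2 := 536870912) (P3 := 536870912) (W3 := 50465866) (N0 := 3) (En := eng) (mo := mog) (C1 := cd3q1) (C2 := cd1q3) (C3 := pd1)
    rfl k0_mm_113

noncomputable def f_mm_123 : ℕ → ℕ → ℕ → ℕ → Bool := onCell 536870912 536870912 1610612736 536870912 536870912 50465866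
    (rowB 3 eng mog cd3q1 cd1q3 pd2 0 false false false .npn 1 2 3 (qsf 536870912 536870912 1610612736 536870912 2) ndB3q1 ndB1q3 pcB2 Cut.none Ext.none)

def k0_mm_123 : ∃ t, chk3 f_mm_123 t 1 1 1 = true :=
  ⟨(l 5), by decide +kernel⟩

theorem c_mm_123 : CertB 536870912 536870912 1610612736 536870912 536870912 50465866 3 eng mog cd3q1 cd1q3 pd2 false false false .npn 1 2 3
    ndB3q1 ndB1q3 pcB2 Cut.none Ext.none :=
  certB0 (fam := false) (s1 := false) (s2 := false) (a := 1) (b := 2) (c := 3) (cn := .npn) (n1 := ndB3q1) (n2 := ndB1q3) (pc := pcB2) (cut := Cut.none) (xt := Ext.none) (P1 := 536870912) (W1 := 536870912) (P2 := 1610612736) (W2 := 536870912) (P3 := 536870912) (W3 := 50465866) (N0 := 3) (En := eng) (mo := mog) (C1 := cd3q1) (C2 := cd1q3) (C3 := pd2)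
    rfl k0_mm_123

noncomputable def f_mm_133 : ℕ → ℕ → ℕ → ℕ → Bool := onCell 536870912 536870912 1610612736 536870912 536870912 50465866
    (rowB 3 eng mog cd3q1 cd1q3 pd3 0 false false false .dn 1 3 3 (qsf 536870912 536870912 1610612736 536870912 3) ndB3q1 ndB1q3 pcB3 Cut.none Ext.none)

def k0_mm_133 : ∃ t, chk3 f_mm_133 t 1 1 1 = true :=
  ⟨(l 5), by decide +kernel⟩

theorem c_mm_133 : CertB 536870912 536870912 1610612736 536870912 536870912 50465866 3 eng mog cd3q1 cd1q3 pd3 false false false .dn 1 3 3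
    ndB3q1 ndB1q3 pcB3 Cut.none Ext.none :=
  certB0 (fam := false) (s1 := false) (s2 := false) (a := 1) (b := 3) (c := 3) (cn := .dn) (n1 := ndB3q1) (n2 := ndB1q3) (pc := pcB3) (cut := Cut.none) (xt := Ext.none) (P1 := 536870912) (W1 := 536870912) (P2 := 1610612736) (W2 := 536870912) (P3 := 536870912) (W3 := 50465866) (N0 := 3) (En := eng) (mo := mog) (C1 := cd3q1) (C2 := cd1q3) (C3 := pd3)
    rfl k0_mm_133

noncomputable def f_mm_202_aa : ℕ → ℕ → ℕ → ℕ → Bool := onCell 0 536870912 0 536870912 536870912 50465866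
    (rowB 3 eng mog cd3q2a cd1q2a pd0 0 false false false .pp 2 0 2 (qsf 0 536870912 0 536870912 0) ndB3q2a ndB1q2a pcB0 Cut.none Ext.none)

def k0_mm_202_aa : ∃ t, chk3 f_mm_202_aa t 1 1 1 = true :=
  ⟨(l 3), by decide +kernel⟩

theorem c_mm_202_aa : CertB 0 536870912 0 536870912 536870912 50465866 3 eng mog cd3q2a cd1q2a pd0 false false false .pp 2 0 2
    ndB3q2a ndB1q2a pcB0 Cut.none Ext.none :=
  certB0 (fam := false) (s1 := false) (s2 := false) (a := 2) (b := 0) (c := 2) (cn := .pp) (n1 := ndB3q2a) (n2 := ndB1q2a) (pc := pcB0) (cut := Cut.none) (xt := Ext.none) (P1 := 0) (W1 := 536870912) (P2 := 0) (W2 := 536870912) (P3 := 536870912) (W3 := 50465866) (N0 := 3) (En := eng) (mo := mog) (C1 := cd3q2a) (C2 := cd1q2a) (C3 := pd0)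
    rfl k0_mm_202_aa

noncomputable def f_mm_202_ab : ℕ → ℕ → ℕ → ℕ → Bool := onCell 0 536870912 1239849684 370763052 536870912 50465866
    (rowB 3 eng mog cd3q2a cd1q2b pd0 0 false false false .pp 2 0 2 (qsf 0 536870912 1239849684 370763052 0) ndB3q2a ndB1q2b pcB0 Cut.none Ext.none)

def k0_mm_202_ab : ∃ t, chk3 f_mm_202_ab t 1 1 1 = true :=
  ⟨(l 3), by decide +kernel⟩

theorem c_mm_202_ab : CertB 0 536870912 1239849684 370763052 536870912 50465866 3 eng mog cd3q2a cd1q2b pd0 false false false .pp 2 0 2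
    ndB3q2a ndB1q2b pcB0 Cut.none Ext.none :=
  certB0 (fam := false) (s1 := false) (s2 := false) (a := 2) (b := 0) (c := 2) (cn := .pp) (n1 := ndB3q2a) (n2 := ndB1q2b) (pc := pcB0) (cut := Cut.none) (xt := Ext.none) (P1 := 0) (W1 := 536870912) (P2 := 1239849684) (W2 := 370763052) (P3 := 536870912) (W3 := 50465866) (N0 := 3) (En := eng) (mo := mog) (C1 := cd3q2a) (C2 := cd1q2b) (C3 := pd0)
    rfl k0_mm_202_ab

noncomputable def f_mm_202_ba : ℕ → ℕ → ℕ → ℕ → Bool := onCell 1239849684 370763052 0 536870912 536870912 50465866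
    (rowB 3 eng mog cd3q2b cd1q2a pd0 0 false false false .pp 2 0 2 (qsf 1239849684 370763052 0 536870912 0) ndB3q2b ndB1q2a pcB0 Cut.none Ext.none)

def k0_mm_202_ba : ∃ t, chk3 f_mm_202_ba t 1 1 1 = true :=
  ⟨(l 3), by decide +kernel⟩

theorem c_mm_202_ba : CertB 1239849684 370763052 0 536870912 536870912 50465866 3 eng mog cd3q2b cd1q2a pd0 false false false .pp 2 0 2
    ndB3q2b ndB1q2a pcB0 Cut.none Ext.none :=
  certB0 (fam := false) (s1 := false) (s2 := false) (a := 2) (b := 0) (c := 2) (cn := .pp) (n1 := ndB3q2b) (n2 := ndB1q2a) (pc := pcB0) (cut := Cut.none) (xt := Ext.none) (P1 := 1239849684) (W1 := 370763052) (P2 := 0) (W2 := 536870912) (P3 := 536870912) (W3 := 50465866) (N0 := 3) (En := eng) (mo := mog) (C1 := cd3q2b) (C2 := cd1q2a) (C3 := pd0)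
    rfl k0_mm_202_ba

noncomputable def f_mm_202_bb : ℕ → ℕ → ℕ → ℕ → Bool := onCell 1239849684 370763052 1239849684 370763052 536870912 50465866
    (rowB 3 eng mog cd3q2b cd1q2b pd0 0 false false false .pp 2 0 2 (qsf 1239849684 370763052 1239849684 370763052 0) ndB3q2b ndB1q2b pcB0 Cut.none Ext.none)

def k0_mm_202_bb : ∃ t, chk3 f_mm_202_bb t 1 1 1 = true :=
  ⟨(l 3), by decide +kernel⟩

theorem c_mm_202_bb : CertB 1239849684 370763052 1239849684 370763052 536870912 50465866 3 eng mog cd3q2b cd1q2b pd0 false false false .pp 2 0 2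
    ndB3q2b ndB1q2b pcB0 Cut.none Ext.none :=
  certB0 (fam := false) (s1 := false) (s2 := false) (a := 2) (b := 0) (c := 2) (cn := .pp) (n1 := ndB3q2b) (n2 := ndB1q2b) (pc := pcB0) (cut := Cut.none) (xt := Ext.none) (P1 := 1239849684) (W1 := 370763052) (P2 := 1239849684) (W2 := 370763052) (P3 := 536870912) (W3 := 50465866) (N0 := 3) (En := eng) (mo := mog) (C1 := cd3q2b) (C2 := cd1q2b) (C3 := pd0)
    rfl k0_mm_202_bb

noncomputable def f_mm_203_a : ℕ → ℕ → ℕ → ℕ → Bool := onCell 0 536870912 1610612736 536870912 536870912 50465866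
    (rowB 3 eng mog cd3q2a cd1q3 pd0 0 false false false .up 2 0 3 (qsf 0 536870912 1610612736 536870912 0) ndB3q2a ndB1q3 pcB0 Cut.none Ext.none)

def k0_mm_203_a : ∃ t, chk3 f_mm_203_a t 1 1 1 = true :=
  ⟨(l 5), by decide +kernel⟩

theorem c_mm_203_a : CertB 0 536870912 1610612736 536870912 536870912 50465866 3 eng mog cd3q2a cd1q3 pd0 false false false .up 2 0 3
    ndB3q2a ndB1q3 pcB0 Cut.none Ext.none :=
  certB0 (fam := false) (s1 := false) (s2 := false) (a := 2) (b := 0) (c := 3) (cn := .up) (n1 := ndB3q2a) (n2 := ndB1q3) (pc := pcB0) (cut := Cut.none) (xt := Ext.none) (P1 := 0) (W1 := 536870912) (P2 := 1610612736) (W2 := 536870912) (P3 := 536870912) (W3 := 50465866) (N0 := 3) (En := eng) (mo := mog) (C1 := cd3q2a) (C2 := cd1q3) (C3 := pd0)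
    rfl k0_mm_203_a

noncomputable def f_mm_203_b : ℕ → ℕ → ℕ → ℕ → Bool := onCell 1239849684 370763052 1610612736 536870912 536870912 50465866
    (rowB 3 eng mog cd3q2b cd1q3 pd0 0 false false false .up 2 0 3 (qsf 1239849684 370763052 1610612736 536870912 0) ndB3q2b ndB1q3 pcB0 Cut.none Ext.none)

def k0_mm_203_b : ∃ t, chk3 f_mm_203_b t 1 1 1 = true :=
  ⟨(l 3), by decide +kernel⟩

theorem c_mm_203_b : CertB 1239849684 370763052 1610612736 536870912 536870912 50465866 3 eng mog cd3q2b cd1q3 pd0 false false false .up 2 0 3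
    ndB3q2b ndB1q3 pcB0 Cut.none Ext.none :=
  certB0 (fam := false) (s1 := false) (s2 := false) (a := 2) (b := 0) (c := 3) (cn := .up) (n1 := ndB3q2b) (n2 := ndB1q3) (pc := pcB0) (cut := Cut.none) (xt := Ext.none) (P1 := 1239849684) (W1 := 370763052) (P2 := 1610612736) (W2 := 536870912) (P3 := 536870912) (W3 := 50465866) (N0 := 3) (En := eng) (mo := mog) (C1 := cd3q2b) (C2 := cd1q3) (C3 := pd0)
    rfl k0_mm_203_b

noncomputable def f_mm_213_a : ℕ → ℕ → ℕ → ℕ → Bool := onCell 0 536870912 1610612736 536870912 536870912 50465866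
    (rowB 3 eng mog cd3q2a cd1q3 pd1 0 false false false .pnn 2 1 3 (qsf 0 536870912 1610612736 536870912 1) ndB3q2a ndB1q3 pcB1 Cut.none Ext.none)

def k0_mm_213_a : ∃ t, chk3 f_mm_213_a t 1 1 1 = true :=
  ⟨(l 5), by decide +kernel⟩

theorem c_mm_213_a : CertB 0 536870912 1610612736 536870912 536870912 50465866 3 eng mog cd3q2a cd1q3 pd1 false false false .pnn 2 1 3
    ndB3q2a ndB1q3 pcB1 Cut.none Ext.none :=
  certB0 (fam := false) (s1 := false) (s2 := false) (a := 2) (b := 1) (c := 3) (cn := .pnn) (n1 := ndB3q2a) (n2 := ndB1q3) (pc := pcB1) (cut := Cut.none) (xt := Ext.none) (P1 := 0) (W1 := 536870912) (P2 := 1610612736) (W2 := 536870912) (P3 := 536870912) (W3 := 50465866) (N0 := 3) (En := eng) (mo := mog) (C1 := cd3q2a) (C2 := cd1q3) (C3 := pd1)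
    rfl k0_mm_213_a

noncomputable def f_mm_213_b : ℕ → ℕ → ℕ → ℕ → Bool := onCell 1239849684 370763052 1610612736 536870912 536870912 50465866
    (rowB 3 eng mog cd3q2b cd1q3 pd1 0 false false false .pnn 2 1 3 (qsf 1239849684 370763052 1610612736 536870912 1) ndB3q2b ndB1q3 pcB1 Cut.none Ext.none)

def k0_mm_213_b : ∃ t, chk3 f_mm_213_b t 1 1 1 = true :=
  ⟨(l 3), by decide +kernel⟩

theorem c_mm_213_b : CertB 1239849684 370763052 1610612736 536870912 536870912 50465866 3 eng mog cd3q2b cd1q3 pd1 false false false .pnn 2 1 3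
    ndB3q2b ndB1q3 pcB1 Cut.none Ext.none :=
  certB0 (fam := false) (s1 := false) (s2 := false) (a := 2) (b := 1) (c := 3) (cn := .pnn) (n1 := ndB3q2b) (n2 := ndB1q3) (pc := pcB1) (cut := Cut.none) (xt := Ext.none) (P1 := 1239849684) (W1 := 370763052) (P2 := 1610612736) (W2 := 536870912) (P3 := 536870912) (W3 := 50465866) (N0 := 3) (En := eng) (mo := mog) (C1 := cd3q2b) (C2 := cd1q3) (C3 := pd1)
    rfl k0_mm_213_b

noncomputable def f_mm_303 : ℕ → ℕ → ℕ → ℕ → Bool := onCell 1610612736 536870912 1610612736 536870912 536870912 50465866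
    (rowB 3 eng mog cd3q3 cd1q3 pd0 0 false false false .npn 3 0 3 (qsf 1610612736 536870912 1610612736 536870912 0) ndB3q3 ndB1q3 pcB0 Cut.none Ext.none)

def k0_mm_303 : ∃ t, chk3 f_mm_303 t 1 1 1 = true :=
  ⟨(l 3), by decide +kernel⟩

theorem c_mm_303 : CertB 1610612736 536870912 1610612736 536870912 536870912 50465866 3 eng mog cd3q3 cd1q3 pd0 false false false .npn 3 0 3
    ndB3q3 ndB1q3 pcB0 Cut.none Ext.none :=
  certB0 (fam := false) (s1 := false) (s2 := false) (a := 3) (b := 0) (c := 3) (cn := .npn) (n1 := ndB3q3) (n2 := ndB1q3) (pc := pcB0) (cut := Cut.none) (xt := Ext.none) (P1 := 1610612736) (W1 := 536870912) (P2 := 1610612736) (W2 := 536870912) (P3 := 536870912) (W3 := 50465866) (N0 := 3) (En := eng) (mo := mog) (C1 := cd3q3) (C2 := cd1q3) (C3 := pd0)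
    rfl k0_mm_303

noncomputable def f_mm_313 : ℕ → ℕ → ℕ → ℕ → Bool := onCell 1610612736 536870912 1610612736 536870912 536870912 50465866
    (rowB 3 eng mog cd3q3 cd1q3 pd1 0 false false false .dn 3 1 3 (qsf 1610612736 536870912 1610612736 536870912 1) ndB3q3 ndB1q3 pcB1 Cut.none Ext.none)

def k0_mm_313 : ∃ t, chk3 f_mm_313 t 1 1 1 = true :=
  ⟨(l 3), by decide +kernel⟩

theorem c_mm_313 : CertB 1610612736 536870912 1610612736 536870912 536870912 50465866 3 eng mog cd3q3 cd1q3 pd1 false false false .dn 3 1 3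
    ndB3q3 ndB1q3 pcB1 Cut.none Ext.none :=
  certB0 (fam := false) (s1 := false) (s2 := false) (a := 3) (b := 1) (c := 3) (cn := .dn) (n1 := ndB3q3) (n2 := ndB1q3) (pc := pcB1) (cut := Cut.none) (xt := Ext.none) (P1 := 1610612736) (W1 := 536870912) (P2 := 1610612736) (W2 := 536870912) (P3 := 536870912) (W3 := 50465866) (N0 := 3) (En := eng) (mo := mog) (C1 := cd3q3) (C2 := cd1q3) (C3 := pd1)
    rfl k0_mm_313

end Pool.Agent.Strip051.G.I5000_5470.Tab.C.BB31

namespace Pool.Agent.Strip051.G.I5000_5470.Tab.C.BB32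

open Pool.Agent.Strip051.PB Pool.Agent.Strip051.PB.T
open Pool.Agent.Strip051.G.I5000_5470.Tab

noncomputable def f_pp_001 : ℕ → ℕ → ℕ → ℕ → Bool := onCell 0 536870912 536870912 536870912 536870912 50465866
    (rowB 3 eng mog cd3q0 cd2q1 pd0 0 false true true .up 0 0 1 (qsf 0 536870912 536870912 536870912 0) ndB3q0 ndB2q1 pcB0 Cut.none Ext.none)

def k0_pp_001 : ∃ t, chk3 f_pp_001 t 1 1 1 = true :=
  ⟨(l 3), by decide +kernel⟩

theorem c_pp_001 : CertB 0 536870912 536870912 536870912 536870912 50465866 3 eng mog cd3q0 cd2q1 pd0 false true true .up 0 0 1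
    ndB3q0 ndB2q1 pcB0 Cut.none Ext.none :=
  certB0 (fam := false) (s1 := true) (s2 := true) (a := 0) (b := 0) (c := 1) (cn := .up) (n1 := ndB3q0) (n2 := ndB2q1) (pc := pcB0) (cut := Cut.none) (xt := Ext.none) (P1 := 0) (W1 := 536870912) (P2 := 536870912) (W2 := 536870912) (P3 := 536870912) (W3 := 50465866) (N0 := 3) (En := eng) (mo := mog) (C1 := cd3q0) (C2 := cd2q1) (C3 := pd0)
    rfl k0_pp_001

noncomputable def f_pp_011 : ℕ → ℕ → ℕ → ℕ → Bool := onCell 0 536870912 536870912 536870912 536870912 50465866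
    (rowB 3 eng mog cd3q0 cd2q1 pd1 0 false true true .pnn 0 1 1 (qsf 0 536870912 536870912 536870912 1) ndB3q0 ndB2q1 pcB1 Cut.none Ext.none)

def k0_pp_011 : ∃ t, chk3 f_pp_011 t 1 1 1 = true :=
  ⟨(l 3), by decide +kernel⟩

theorem c_pp_011 : CertB 0 536870912 536870912 536870912 536870912 50465866 3 eng mog cd3q0 cd2q1 pd1 false true true .pnn 0 1 1
    ndB3q0 ndB2q1 pcB1 Cut.none Ext.none :=
  certB0 (fam := false) (s1 := true) (s2 := true) (a := 0) (b := 1) (c := 1) (cn := .pnn) (n1 := ndB3q0) (n2 := ndB2q1) (pc := pcB1) (cut := Cut.none) (xt := Ext.none) (P1 := 0) (W1 := 536870912) (P2 := 536870912) (W2 := 536870912) (P3 := 536870912) (W3 := 50465866) (N0 := 3) (En := eng) (mo := mog) (C1 := cd3q0) (C2 := cd2q1) (C3 := pd1)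
    rfl k0_pp_011

noncomputable def cut_pp_012_a : Cut := Cut.of [[⟨0, 0, 0, 53687091⟩, ⟨1, 1, 0, 53687091⟩, ⟨2, 1, 0, 53687091⟩]]

noncomputable def f_pp_012_a : ℕ → ℕ → ℕ → ℕ → Bool := onCell 536870912 536870912 0 536870912 536870912 50465866
    (rowB 3 eng mog cd3q0 cd2q2a pd1 2 false true true .pnp 0 1 2 (qsf 0 536870912 0 536870912 1) ndB3q0 ndB2q2a pcB1 cut_pp_012_a Ext.none)

def k0_pp_012_a : ∃ t, chk3 f_pp_012_a t 2 1 1 = true :=
  ⟨(a (b (b (l 2) (a (l 2) (l 16621104))) (b (a (l 2) (b (l 16551136) (a (l 16606152) (l 16627264)))) (b (a (a (l 2) (l 238001389783)) (b (a (l 238538240343) (b (l 16693360) (l 231559096999))) (l 3))) (l 3)))) (b (b (a (a (l 16734264) (l 16747264)) (l 16756624)) (a (a (l 16681744) (l 16711752)) (l 16802632))) (b (a (b (a (l 16587488) (l 16611672)) (a (l 16649920) (l 16710088))) (b (l 16656752) (a (l 16686912) (l 16713088)))) (a (b (b (a (l 16773944) (l 16749616)) (a (l 279340678455) (l 198273449623))) (l 3))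 (b (a (b (l 16764896) (a (l 16848400) (l 16835696))) (b (l 16785328) (a (l 16844144) (l 16850280)))) (b (a (l 3) (b (l 212769117975) (l 3))) (l 3))))))), by decide +kernel⟩

def k1_pp_012_a : ∃ t, chk3 f_pp_012_a t 3 1 1 = true :=
  ⟨(a (b (b (a (l 16753352) (a (l 16730168) (l 16705176))) (a (l 16887112) (b (l 16736800) (l 16754472)))) (b (a (b (l 16724728) (a (l 16734928) (l 16784200))) (b (l 16764848) (a (l 16739712) (l 16744256)))) (a (b (a (b (l 16797432) (l 16864976)) (l 16870504)) (b (a (l 226727709767) (l 217600869031)) (l 3))) (b (b (l 16850272) (a (l 16808216) (l 16787744))) (a (b (b (l 16837576) (l 195589071415)) (l 3)) (a (b (l 16870640) (l 3)) (b (b (l 16806912) (l 16824704)) (b (l 189683408487) (l 3))))))))) (b (b (a (l 16666448) (a (l 16621392) (l 16589104))) (a (b (l 16688792) (l 16713744)) (a (l 16700160) (b (l 16611496) (l 16635352))))) (a (b (b (l 16740992) (a (l 16764744) (l 16756160))) (b (a (b (l 16751632) (l 16770160)) (b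 (l 16764400) (l 16761144))) (b (a (a (b (l 16795944) (l 16814224)) (l 16797288)) (b (l 16778960) (l 16815656))) (a (b (a (l 180556567591) (l 186999010023)) (l 3)) (b (a (l 193441448247) (b (l 16803208) (l 16832696))) (b (a (l 3) (l 206863195543)) (l 3))))))) (b (a (b (l 16699040) (l 16729928)) (b (l 16663128) (a (l 16703728) (l 16685592)))) (b (a (b (l 16753704) (l 16767448)) (b (a (l 16729664) (l 16712264)) (a (l 16747856) (a (l 16735352) (l 16727072))))) (b (a (b (l 16767496) (l 16820672)) (a (b (l 16762048) (l 16771328)) (b (l 16746048) (l 6)))) (a (b (a (l 16798312) (l 16788472)) (b (a (a (l 182703989319) (l 188609565975)) (a (l 16823432) (l 6))) (a (l 3) (a (l 3) (l 6))))) (b (a (b (l 16774608) (l 6)) (l 6)) (l 6))))))))), by decide +kernel⟩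

theorem s2_pp_012_a : ∃ t, chk3 f_pp_012_a t 1 1 1 = true := ex3_a k0_pp_012_a k1_pp_012_a

theorem c_pp_012_a : CertB 0 536870912 0 536870912 536870912 50465866 3 eng mog cd3q0 cd2q2a pd1 false true true .pnp 0 1 2
    ndB3q0 ndB2q2a pcB1 cut_pp_012_a Ext.none :=
  certB2 (fam := false) (s1 := true) (s2 := true) (a := 0) (b := 1) (c := 2) (cn := .pnp) (n1 := ndB3q0) (n2 := ndB2q2a) (pc := pcB1) (cut := cut_pp_012_a) (xt := Ext.none) (P1 := 0) (W1 := 536870912) (P2 := 0) (W2 := 536870912) (P3 := 536870912) (W3 := 50465866) (N0 := 3) (En := eng) (mo := mog) (C1 := cd3q0) (C2 := cd2q2a) (C3 := pd1)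
    rfl (fun _ => rfl) s2_pp_012_a

noncomputable def cut_pp_012_b : Cut := Cut.of [[⟨0, 0, 0, 53687091⟩, ⟨1, 1, 0, 53687091⟩, ⟨2, 1, 0, 53687091⟩]]

noncomputable def f_pp_012_b : ℕ → ℕ → ℕ → ℕ → Bool := onCell 536870912 536870912 1239849684 370763052 536870912 50465866
    (rowB 3 eng mog cd3q0 cd2q2b pd1 2 false true true .pnp 0 1 2 (qsf 0 536870912 1239849684 370763052 1) ndB3q0 ndB2q2b pcB1 cut_pp_012_b Ext.none)

def k0_pp_012_b : ∃ t, chk3 f_pp_012_b t 1 1 1 = true :=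
  ⟨(a (a (l 2) (b (a (b (l 16809632) (l 2)) (b (l 16766616) (l 16817504))) (l 2))) (b (a (b (a (l 16745688) (b (l 16697632) (l 16694304))) (a (l 16785928) (l 16721448))) (b (a (b (l 16631944) (l 16606968)) (a (l 16561232) (l 16525992))) (a (l 16617832) (b (l 16491752) (l 16491488))))) (a (b (l 16858984) (l 2)) (b (a (l 16709712) (l 16554016)) (l 16814976))))), by decide +kernel⟩

theorem c_pp_012_b : CertB 0 536870912 1239849684 370763052 536870912 50465866 3 eng mog cd3q0 cd2q2b pd1 false true true .pnp 0 1 2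
    ndB3q0 ndB2q2b pcB1 cut_pp_012_b Ext.none :=
  certB2 (fam := false) (s1 := true) (s2 := true) (a := 0) (b := 1) (c := 2) (cn := .pnp) (n1 := ndB3q0) (n2 := ndB2q2b) (pc := pcB1) (cut := cut_pp_012_b) (xt := Ext.none) (P1 := 0) (W1 := 536870912) (P2 := 1239849684) (W2 := 370763052) (P3 := 536870912) (W3 := 50465866) (N0 := 3) (En := eng) (mo := mog) (C1 := cd3q0) (C2 := cd2q2b) (C3 := pd1)
    rfl (fun _ => rfl) k0_pp_012_b

noncomputable def cut_pp_022_a : Cut := Cut.of [[⟨0, 0, 0, 67108864⟩, ⟨1, 1, 0, 67108864⟩, ⟨2, 1, 0, 67108864⟩]]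

noncomputable def f_pp_022_a : ℕ → ℕ → ℕ → ℕ → Bool := onCell 0 536870912 0 536870912 536870912 50465866
    (rowB 3 eng mog cd3q0 cd2q2a pd2 0 false true true .pp 0 2 2 (qsf 0 536870912 0 536870912 2) ndB3q0 ndB2q2a pcB2 cut_pp_022_a Ext.none)

def k0_pp_022_a : ∃ t, chk3 f_pp_022_a t 1 1 1 = true :=
  ⟨(a (a (b (a (b (b (b (a (l 16550760) (l 16496744)) (a (a (a (l 16481944) (l 16464792)) (l 16477152)) (l 16499936))) (a (a (a (b (l 16468184) (l 16583936)) (l 16497688)) (l 16504424)) (l 16507504))) (b (a (a (a (b (a (l 16491152) (l 16555800)) (l 16505256)) (l 16649248)) (l 16528352)) (l 16566704)) (a (a (a (b (l 16519472) (l 16535400)) (b (l 16523696) (l 16540096))) (l 16580216)) (l 16576152)))) (b (a (b (l 16523752) (l 16534584)) (l 16550464)) (a (b (l 16553064) (l 16583552)) (b (l 16575696) (l 16606128))))) (b (a (a (a (b (a (b (l 16553344) (a (l 16572032) (l 16575000))) (b (l 16558560) (l 16579296))) (a (b (b (l 16590192) (l 16623208)) (a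 (b (l 16613264) (l 16626784)) (l 16644584))) (b (a (l 16601032) (l 16604088)) (a (l 16627056) (l 16630384))))) (b (l 16650136) (a (l 16684928) (l 16628016)))) (b (a (l 16588416) (l 16603680)) (b (l 16632904) (a (l 16653352) (l 16666712))))) (b (a (b (l 16612144) (l 16634088)) (l 16644736)) (a (b (l 16658016) (l 43519992551)) (b (l 16678224) (l 1))))) (b (a (a (b (b (a (a (a (a (l 16640160) (l 16642072)) (l 16644888)) (l 16650328)) (l 16660992)) (a (a (a (b (l 16652416) (l 6)) (l 16660264)) (l 16665912)) (l 16677040))) (l 6)) (b (a (b (l 16675464) (l 16690928)) (l 16695640)) (a (l 6) (b (l 16718456) (l 329135392887))))) (a (b (a (l 16727528) (l 1)) (l 1)) (l 1))) (a (a (l 6) (a (l 6) (l 1))) (l 1))))) (b (a (a (b (l 16566800) (a (l 16647752) (l 72511178583))) (b (l 16576096) (l 1))) (l 1)) (b (l 1) (l 1)))) (l 1)), by decide +kernel⟩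

theorem c_pp_022_a : CertB 0 536870912 0 536870912 536870912 50465866 3 eng mog cd3q0 cd2q2a pd2 false true true .pp 0 2 2
    ndB3q0 ndB2q2a pcB2 cut_pp_022_a Ext.none :=
  certB0 (fam := false) (s1 := true) (s2 := true) (a := 0) (b := 2) (c := 2) (cn := .pp) (n1 := ndB3q0) (n2 := ndB2q2a) (pc := pcB2) (cut := cut_pp_022_a) (xt := Ext.none) (P1 := 0) (W1 := 536870912) (P2 := 0) (W2 := 536870912) (P3 := 536870912) (W3 := 50465866) (N0 := 3) (En := eng) (mo := mog) (C1 := cd3q0) (C2 := cd2q2a) (C3 := pd2)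
    rfl k0_pp_022_a

noncomputable def cut_pp_022_b : Cut := Cut.of [[⟨0, 0, 0, 67108864⟩, ⟨1, 1, 0, 67108864⟩, ⟨2, 1, 0, 67108864⟩]]

noncomputable def f_pp_022_b : ℕ → ℕ → ℕ → ℕ → Bool := onCell 0 536870912 1239849684 370763052 536870912 50465866
    (rowB 3 eng mog cd3q0 cd2q2b pd2 0 false true true .pp 0 2 2 (qsf 0 536870912 1239849684 370763052 2) ndB3q0 ndB2q2b pcB2 cut_pp_022_b Ext.none)

def k0_pp_022_b : ∃ t, chk3 f_pp_022_b t 1 1 1 = true :=
  ⟨(a (b (a (b (a (a (b (b (a (a (l 16542360) (l 16438808)) (l 16451760)) (a (a (l 16469304) (l 16403464)) (l 16466888))) (a (a (l 16370928) (l 16367200)) (l 16381248))) (b (b (l 16474672) (l 16432536)) (a (l 16474840) (l 16395144)))) (b (a (l 16481520) (l 16504176)) (a (l 16382688) (l 16434304)))) (a (a (b (a (l 16335456) (l 16324760)) (l 16309584)) (l 16436968)) (b (a (l 16314312) (l 16362264)) (l 16367760)))) (b (a (b (a (l 16522040) (l 16530936)) (l 16465936)) (b (l 322692736199) (l 16482608)))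 (a (b (l 16404928) (l 16342696)) (l 16400384)))) (b (a (a (a (b (l 16297720) (l 16291832)) (l 16262248)) (l 16217048)) (a (l 16399248) (l 16333352))) (a (a (a (b (l 16294048) (b (l 16300944) (l 16312088))) (l 16260856)) (l 16196560)) (a (l 16062520) (l 16161272))))) (b (a (b (l 1) (a (l 16421264) (l 16484952))) (l 1)) (a (b (a (l 16325944) (l 16411656)) (a (l 16232472) (l 16347768))) (b (l 16613360) (l 16571120))))), by decide +kernel⟩

theorem c_pp_022_b : CertB 0 536870912 1239849684 370763052 536870912 50465866 3 eng mog cd3q0 cd2q2b pd2 false true true .pp 0 2 2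
    ndB3q0 ndB2q2b pcB2 cut_pp_022_b Ext.none :=
  certB0 (fam := false) (s1 := true) (s2 := true) (a := 0) (b := 2) (c := 2) (cn := .pp) (n1 := ndB3q0) (n2 := ndB2q2b) (pc := pcB2) (cut := cut_pp_022_b) (xt := Ext.none) (P1 := 0) (W1 := 536870912) (P2 := 1239849684) (W2 := 370763052) (P3 := 536870912) (W3 := 50465866) (N0 := 3) (En := eng) (mo := mog) (C1 := cd3q0) (C2 := cd2q2b) (C3 := pd2)
    rfl k0_pp_022_b

noncomputable def f_pp_023 : ℕ → ℕ → ℕ → ℕ → Bool := onCell 0 536870912 1073741824 536870912 536870912 50465866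
    (rowB 3 eng mog cd3q0 cd2q3 pd2 1 false true true .up 0 2 3 (qsf 0 536870912 1610612736 536870912 2) ndB3q0 ndB2q3 pcB2 Cut.none Ext.none)

def k0_pp_023 : ∃ t, chk3 f_pp_023 t 1 1 1 = true :=
  ⟨(a (b (b (l 1) (a (l 1) (l 417718578135))) (b (a (l 836477389943) (l 475163341687)) (a (b (l 859026062407) (a (b (l 16255472) (l 16258104)) (l 16249720))) (b (l 16263208) (l 16434664))))) (b (b (a (l 343630599111) (l 16588008)) (a (l 402686294151) (l 16603176))) (b (a (b (l 16274856) (l 16428720)) (l 16667504)) (b (a (l 16541240) (l 16705744)) (l 16694176))))), by decide +kernel⟩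

theorem c_pp_023 : CertB 0 536870912 1610612736 536870912 536870912 50465866 3 eng mog cd3q0 cd2q3 pd2 false true true .up 0 2 3
    ndB3q0 ndB2q3 pcB2 Cut.none Ext.none :=
  certB1 (fam := false) (s1 := true) (s2 := true) (a := 0) (b := 2) (c := 3) (cn := .up) (n1 := ndB3q0) (n2 := ndB2q3) (pc := pcB2) (cut := Cut.none) (xt := Ext.none) (P1 := 0) (W1 := 536870912) (P2 := 1610612736) (W2 := 536870912) (P3 := 536870912) (W3 := 50465866) (N0 := 3) (En := eng) (mo := mog) (C1 := cd3q0) (C2 := cd2q3) (C3 := pd2)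
    rfl (fun _ => rfl) k0_pp_023

noncomputable def f_pp_033 : ℕ → ℕ → ℕ → ℕ → Bool := onCell 0 536870912 1610612736 536870912 536870912 50465866
    (rowB 3 eng mog cd3q0 cd2q3 pd3 1 false true true .pnn 0 3 3 (qsf 0 536870912 1610612736 536870912 3) ndB3q0 ndB2q3 pcB3 Cut.none Ext.none)

def k0_pp_033 : ∃ t, chk3 f_pp_033 t 1 1 1 = true :=
  ⟨(a (b (b (b (a (a (a (l 16371968) (l 16407048)) (l 16450056)) (l 16554448)) (a (a (a (l 16495800) (l 16510384)) (l 16550144)) (l 16650224))) (b (a (a (l 16605920) (l 16644256)) (l 16699112)) (a (a (l 16688392) (l 4)) (l 4)))) (b (b (l 4) (l 4)) (a (l 4) (a (b (l 4) (l 2)) (l 2))))) (b (b (a (b (l 16675864) (l 4)) (l 4)) (a (l 4) (a (b (l 4) (l 2)) (l 2)))) (a (b (a (b (l 4) (l 2)) (l 2)) (l 2)) (l 2)))), by decide +kernel⟩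

theorem c_pp_033 : CertB 0 536870912 1610612736 536870912 536870912 50465866 3 eng mog cd3q0 cd2q3 pd3 false true true .pnn 0 3 3
    ndB3q0 ndB2q3 pcB3 Cut.none Ext.none :=
  certB1 (fam := false) (s1 := true) (s2 := true) (a := 0) (b := 3) (c := 3) (cn := .pnn) (n1 := ndB3q0) (n2 := ndB2q3) (pc := pcB3) (cut := Cut.none) (xt := Ext.none) (P1 := 0) (W1 := 536870912) (P2 := 1610612736) (W2 := 536870912) (P3 := 536870912) (W3 := 50465866) (N0 := 3) (En := eng) (mo := mog) (C1 := cd3q0) (C2 := cd2q3) (C3 := pd3)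
    rfl (fun _ => rfl) k0_pp_033

noncomputable def f_pp_101 : ℕ → ℕ → ℕ → ℕ → Bool := onCell 536870912 536870912 536870912 536870912 536870912 50465866
    (rowB 3 eng mog cd3q1 cd2q1 pd0 0 false true true .npn 1 0 1 (qsf 536870912 536870912 536870912 536870912 0) ndB3q1 ndB2q1 pcB0 Cut.none Ext.none)

def k0_pp_101 : ∃ t, chk3 f_pp_101 t 1 1 1 = true :=
  ⟨(l 3), by decide +kernel⟩

theorem c_pp_101 : CertB 536870912 536870912 536870912 536870912 536870912 50465866 3 eng mog cd3q1 cd2q1 pd0 false true true .npn 1 0 1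
    ndB3q1 ndB2q1 pcB0 Cut.none Ext.none :=
  certB0 (fam := false) (s1 := true) (s2 := true) (a := 1) (b := 0) (c := 1) (cn := .npn) (n1 := ndB3q1) (n2 := ndB2q1) (pc := pcB0) (cut := Cut.none) (xt := Ext.none) (P1 := 536870912) (W1 := 536870912) (P2 := 536870912) (W2 := 536870912) (P3 := 536870912) (W3 := 50465866) (N0 := 3) (En := eng) (mo := mog) (C1 := cd3q1) (C2 := cd2q1) (C3 := pd0)
    rfl k0_pp_101

noncomputable def f_pp_102_a : ℕ → ℕ → ℕ → ℕ → Bool := onCell 0 536870912 0 536870912 536870912 50465866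
    (rowB 3 eng mog cd3q1 cd2q2a pd0 2 false true true .npp 1 0 2 (qsf 536870912 536870912 0 536870912 0) ndB3q1 ndB2q2a pcB0 Cut.none Ext.none)

def k0_pp_102_a : ∃ t, chk3 f_pp_102_a t 2 1 1 = true :=
  ⟨(b (a (b (l 2) (b (l 2) (l 3))) (b (a (b (a (l 16446496) (l 16436048)) (a (b (l 16424880) (l 16429056)) (l 16434864))) (b (l 16475144) (a (l 16444712) (l 16456088)))) (a (b (a (b (b (a (l 2) (l 16435080)) (a (l 16436720) (l 16438664))) (a (b (l 16440328) (a (l 2) (b (l 16443336) (l 16445584)))) (b (l 16441760) (l 16444792)))) (b (a (l 16439936) (l 16443488)) (a (b (l 16444248) (l 16446320)) (l 16448040)))) (a (a (l 3) (b (a (l 194514393127) (l 96267063079)) (l 3))) (b (a (a (l 95193323303) (l 94119578423)) (l 96267064551)) (l 3)))) (b (a (b (l 16449600) (a (l 16450768) (l 16453848))) (b (l 16459256) (l 16459760))) (a (b (a (l 16453984) (l 16456480)) (a (l 170892149735) (l 107541374727))) (b (l 16460992) (a (l 16461720) (l 16463608)))))))) (a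 (l 3) (b (a (l 3) (b (a (l 3) (b (l 184313950423) (l 3))) (l 3))) (l 3)))), by decide +kernel⟩

def k1_pp_102_a : ∃ t, chk3 f_pp_102_a t 3 1 1 = true :=
  ⟨(a (b (b (a (b (l 16482664) (l 16475752)) (b (l 16523992) (l 16511480))) (b (a (a (l 16470760) (l 16482616)) (l 16505280)) (a (b (a (l 16468200) (l 16476528)) (a (l 16467136) (l 16472264))) (b (l 16492728) (a (l 16478944) (l 16487360)))))) (b (a (b (a (b (l 122573813911) (l 3)) (b (l 16467976) (l 156933537431))) (l 3)) (b (a (b (l 16469528) (l 147806736759)) (b (l 16473656) (l 16458696))) (b (a (l 3) (l 157470351895)) (l 3)))) (l 3))) (b (b (a (l 16559264) (b (l 16602096) (l 16582560))) (a (b (l 16537224) (a (l 16504216) (l 16516320))) (b (l 16565000) (a (l 16526320) (l 16525608))))) (b (a (b (a (b (l 16480640) (l 16460984)) (b (l 16490000) (a (l 16466248) (l 16468664)))) (b (a (l 163375931783) (b (a (l 16448280) (l 16444800)) (a (l 215452461783) (l 16422496)))) (l 3))) (a (b (b (l 16490296)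 (l 16476568)) (b (l 89287663415) (l 226726795591))) (b (l 16445296) (a (l 191293395687) (l 198809644455))))) (l 3)))), by decide +kernel⟩

theorem s2_pp_102_a : ∃ t, chk3 f_pp_102_a t 1 1 1 = true := ex3_a k0_pp_102_a k1_pp_102_a

theorem c_pp_102_a : CertB 536870912 536870912 0 536870912 536870912 50465866 3 eng mog cd3q1 cd2q2a pd0 false true true .npp 1 0 2
    ndB3q1 ndB2q2a pcB0 Cut.none Ext.none :=
  certB2 (fam := false) (s1 := true) (s2 := true) (a := 1) (b := 0) (c := 2) (cn := .npp) (n1 := ndB3q1) (n2 := ndB2q2a) (pc := pcB0) (cut := Cut.none) (xt := Ext.none) (P1 := 536870912) (W1 := 536870912) (P2 := 0) (W2 := 536870912) (P3 := 536870912) (W3 := 50465866) (N0 := 3) (En := eng) (mo := mog) (C1 := cd3q1) (C2 := cd2q2a) (C3 := pd0)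
    rfl (fun _ => rfl) s2_pp_102_a

noncomputable def f_pp_102_b : ℕ → ℕ → ℕ → ℕ → Bool := onCell 536870912 536870912 0 536870912 536870912 50465866
    (rowB 3 eng mog cd3q1 cd2q2b pd0 1 false true true .npp 1 0 2 (qsf 536870912 536870912 1239849684 370763052 0) ndB3q1 ndB2q2b pcB0 Cut.none Ext.none)

def k0_pp_102_b : ∃ t, chk3 f_pp_102_b t 1 1 1 = true :=
  ⟨(a (b (l 1) (b (l 1) (a (l 1) (a (b (l 1) (l 16642168)) (b (l 16594240) (l 16609936)))))) (b (b (l 1) (a (l 1) (b (a (l 1) (b (a (l 1) (l 16491664)) (l 16469520))) (a (l 16530624) (l 16426800))))) (b (a (b (a (l 1) (l 16654296)) (a (l 16560928) (l 16505736))) (b (a (l 16448376) (l 16395936)) (l 16485784))) (a (b (l 16545160) (l 16590160)) (b (l 16455400) (l 16557992)))))), by decide +kernel⟩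

theorem c_pp_102_b : CertB 536870912 536870912 1239849684 370763052 536870912 50465866 3 eng mog cd3q1 cd2q2b pd0 false true true .npp 1 0 2
    ndB3q1 ndB2q2b pcB0 Cut.none Ext.none :=
  certB1 (fam := false) (s1 := true) (s2 := true) (a := 1) (b := 0) (c := 2) (cn := .npp) (n1 := ndB3q1) (n2 := ndB2q2b) (pc := pcB0) (cut := Cut.none) (xt := Ext.none) (P1 := 536870912) (W1 := 536870912) (P2 := 1239849684) (W2 := 370763052) (P3 := 536870912) (W3 := 50465866) (N0 := 3) (En := eng) (mo := mog) (C1 := cd3q1) (C2 := cd2q2b) (C3 := pd0)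
    rfl (fun _ => rfl) k0_pp_102_b

noncomputable def f_pp_112_a : ℕ → ℕ → ℕ → ℕ → Bool := onCell 536870912 536870912 0 536870912 536870912 50465866
    (rowB 3 eng mog cd3q1 cd2q2a pd1 2 false true true .dn 1 1 2 (qsf 536870912 536870912 0 536870912 1) ndB3q1 ndB2q2a pcB1 Cut.none Ext.none)

def k0_pp_112_a : ∃ t, chk3 f_pp_112_a t 1 1 1 = true :=
  ⟨(a (a (b (b (a (l 16639104) (l 16697144)) (a (b (l 16604184) (l 16547376)) (l 16645776))) (b (a (b (a (l 16444168) (l 16444488)) (a (b (l 16440104) (l 222968870487)) (b (l 16526312) (l 16601840)))) (b (l 16569336) (a (l 16643616) (l 16688480)))) (b (a (b (a (l 3) (l 249812559303)) (l 3)) (b (a (l 256791940631) (l 1)) (l 1))) (l 3)))) (b (a (b (l 30635635271) (b (l 16722080) (l 16668208))) (l 1)) (b (l 1) (l 1)))) (l 1)), by decide +kernel⟩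

theorem c_pp_112_a : CertB 536870912 536870912 0 536870912 536870912 50465866 3 eng mog cd3q1 cd2q2a pd1 false true true .dn 1 1 2
    ndB3q1 ndB2q2a pcB1 Cut.none Ext.none :=
  certB2 (fam := false) (s1 := true) (s2 := true) (a := 1) (b := 1) (c := 2) (cn := .dn) (n1 := ndB3q1) (n2 := ndB2q2a) (pc := pcB1) (cut := Cut.none) (xt := Ext.none) (P1 := 536870912) (W1 := 536870912) (P2 := 0) (W2 := 536870912) (P3 := 536870912) (W3 := 50465866) (N0 := 3) (En := eng) (mo := mog) (C1 := cd3q1) (C2 := cd2q2a) (C3 := pd1)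
    rfl (fun _ => rfl) k0_pp_112_a

noncomputable def f_pp_112_b : ℕ → ℕ → ℕ → ℕ → Bool := onCell 536870912 536870912 1239849684 370763052 536870912 50465866
    (rowB 3 eng mog cd3q1 cd2q2b pd1 2 false true true .dn 1 1 2 (qsf 536870912 536870912 1239849684 370763052 1) ndB3q1 ndB2q2b pcB1 Cut.none Ext.none)

def k0_pp_112_b : ∃ t, chk3 f_pp_112_b t 1 1 1 = true :=
  ⟨(a (a (b (b (a (l 16747936) (l 16727816)) (a (l 16676768) (l 16770024))) (a (l 16727768) (l 16926680))) (b (a (b (l 16829680) (l 16834872)) (b (l 16764152) (l 16830568))) (a (b (l 16984728) (l 17232064)) (l 17141504)))) (b (a (b (l 1) (l 339336390167)) (l 1)) (a (b (l 16894280) (l 17259712)) (b (l 16584376) (l 16798888))))), by decide +kernel⟩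

theorem c_pp_112_b : CertB 536870912 536870912 1239849684 370763052 536870912 50465866 3 eng mog cd3q1 cd2q2b pd1 false true true .dn 1 1 2
    ndB3q1 ndB2q2b pcB1 Cut.none Ext.none :=
  certB2 (fam := false) (s1 := true) (s2 := true) (a := 1) (b := 1) (c := 2) (cn := .dn) (n1 := ndB3q1) (n2 := ndB2q2b) (pc := pcB1) (cut := Cut.none) (xt := Ext.none) (P1 := 536870912) (W1 := 536870912) (P2 := 1239849684) (W2 := 370763052) (P3 := 536870912) (W3 := 50465866) (N0 := 3) (En := eng) (mo := mog) (C1 := cd3q1) (C2 := cd2q2b) (C3 := pd1)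
    rfl (fun _ => rfl) k0_pp_112_b

noncomputable def f_pp_113 : ℕ → ℕ → ℕ → ℕ → Bool := onCell 536870912 536870912 536870912 536870912 536870912 50465866
    (rowB 3 eng mog cd3q1 cd2q3 pd1 1 false true true .nn 1 1 3 (qsf 536870912 536870912 1610612736 536870912 1) ndB3q1 ndB2q3 pcB1 Cut.none Ext.none)

def k0_pp_113 : ∃ t, chk3 f_pp_113 t 1 1 1 = true :=
  ⟨(a (b (b (l 1) (a (l 1) (l 416646374535))) (a (b (l 16900968) (l 17082992)) (b (l 17560496) (l 17478472)))) (b (b (a (l 16801328) (l 16893544)) (b (l 253975021383) (l 17359056))) (b (l 17333880) (l 17212696)))), by decide +kernel⟩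

theorem c_pp_113 : CertB 536870912 536870912 1610612736 536870912 536870912 50465866 3 eng mog cd3q1 cd2q3 pd1 false true true .nn 1 1 3
    ndB3q1 ndB2q3 pcB1 Cut.none Ext.none :=
  certB1 (fam := false) (s1 := true) (s2 := true) (a := 1) (b := 1) (c := 3) (cn := .nn) (n1 := ndB3q1) (n2 := ndB2q3) (pc := pcB1) (cut := Cut.none) (xt := Ext.none) (P1 := 536870912) (W1 := 536870912) (P2 := 1610612736) (W2 := 536870912) (P3 := 536870912) (W3 := 50465866) (N0 := 3) (En := eng) (mo := mog) (C1 := cd3q1) (C2 := cd2q3) (C3 := pd1)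
    rfl (fun _ => rfl) k0_pp_113

noncomputable def f_pp_123 : ℕ → ℕ → ℕ → ℕ → Bool := onCell 1073741824 536870912 1610612736 536870912 536870912 50465866
    (rowB 3 eng mog cd3q1 cd2q3 pd2 2 false true true .npn 1 2 3 (qsf 536870912 536870912 1610612736 536870912 2) ndB3q1 ndB2q3 pcB2 Cut.none Ext.none)

def k0_pp_123 : ∃ t, chk3 f_pp_123 t 1 1 1 = true :=
  ⟨(a (b (a (b (l 16725792) (b (l 17068824) (l 17173072))) (b (l 488585844663) (a (l 16789984) (l 16642488)))) (a (b (l 17123456) (l 16896720)) (b (l 16899536) (l 16826304)))) (a (b (b (l 1) (l 16543104)) (b (l 16715544) (a (l 16795896) (l 16763120)))) (b (l 1) (a (l 780644248375) (l 16773208))))), by decide +kernel⟩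

theorem c_pp_123 : CertB 536870912 536870912 1610612736 536870912 536870912 50465866 3 eng mog cd3q1 cd2q3 pd2 false true true .npn 1 2 3
    ndB3q1 ndB2q3 pcB2 Cut.none Ext.none :=
  certB2 (fam := false) (s1 := true) (s2 := true) (a := 1) (b := 2) (c := 3) (cn := .npn) (n1 := ndB3q1) (n2 := ndB2q3) (pc := pcB2) (cut := Cut.none) (xt := Ext.none) (P1 := 536870912) (W1 := 536870912) (P2 := 1610612736) (W2 := 536870912) (P3 := 536870912) (W3 := 50465866) (N0 := 3) (En := eng) (mo := mog) (C1 := cd3q1) (C2 := cd2q3) (C3 := pd2)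
    rfl (fun _ => rfl) k0_pp_123

noncomputable def f_pp_133 : ℕ → ℕ → ℕ → ℕ → Bool := onCell 1610612736 536870912 1610612736 536870912 536870912 50465866
    (rowB 3 eng mog cd3q1 cd2q3 pd3 2 false true true .dn 1 3 3 (qsf 536870912 536870912 1610612736 536870912 3) ndB3q1 ndB2q3 pcB3 Cut.none Ext.none)

def k0_pp_133 : ∃ t, chk3 f_pp_133 t 1 1 1 = true :=
  ⟨(a (b (l 1) (b (l 1) (l 4))) (l 1)), by decide +kernel⟩

theorem c_pp_133 : CertB 536870912 536870912 1610612736 536870912 536870912 50465866 3 eng mog cd3q1 cd2q3 pd3 false true true .dn 1 3 3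
    ndB3q1 ndB2q3 pcB3 Cut.none Ext.none :=
  certB2 (fam := false) (s1 := true) (s2 := true) (a := 1) (b := 3) (c := 3) (cn := .dn) (n1 := ndB3q1) (n2 := ndB2q3) (pc := pcB3) (cut := Cut.none) (xt := Ext.none) (P1 := 536870912) (W1 := 536870912) (P2 := 1610612736) (W2 := 536870912) (P3 := 536870912) (W3 := 50465866) (N0 := 3) (En := eng) (mo := mog) (C1 := cd3q1) (C2 := cd2q3) (C3 := pd3)
    rfl (fun _ => rfl) k0_pp_133

noncomputable def f_pp_202_aa : ℕ → ℕ → ℕ → ℕ → Bool := onCell 0 536870912 0 536870912 536870912 50465866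
    (rowB 3 eng mog cd3q2a cd2q2a pd0 0 false true true .pp 2 0 2 (qsf 0 536870912 0 536870912 0) ndB3q2a ndB2q2a pcB0 Cut.none Ext.none)

def k0_pp_202_aa : ∃ t, chk3 f_pp_202_aa t 1 1 1 = true :=
  ⟨(l 3), by decide +kernel⟩

theorem c_pp_202_aa : CertB 0 536870912 0 536870912 536870912 50465866 3 eng mog cd3q2a cd2q2a pd0 false true true .pp 2 0 2
    ndB3q2a ndB2q2a pcB0 Cut.none Ext.none :=
  certB0 (fam := false) (s1 := true) (s2 := true) (a := 2) (b := 0) (c := 2) (cn := .pp) (n1 := ndB3q2a) (n2 := ndB2q2a) (pc := pcB0) (cut := Cut.none) (xt := Ext.none) (P1 := 0) (W1 := 536870912) (P2 := 0) (W2 := 536870912) (P3 := 536870912) (W3 := 50465866) (N0 := 3) (En := eng) (mo := mog) (C1 := cd3q2a) (C2 := cd2q2a) (C3 := pd0)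
    rfl k0_pp_202_aa

noncomputable def f_pp_202_ab : ℕ → ℕ → ℕ → ℕ → Bool := onCell 0 536870912 1239849684 370763052 536870912 50465866
    (rowB 3 eng mog cd3q2a cd2q2b pd0 0 false true true .pp 2 0 2 (qsf 0 536870912 1239849684 370763052 0) ndB3q2a ndB2q2b pcB0 Cut.none Ext.none)

def k0_pp_202_ab : ∃ t, chk3 f_pp_202_ab t 1 1 1 = true :=
  ⟨(l 3), by decide +kernel⟩

theorem c_pp_202_ab : CertB 0 536870912 1239849684 370763052 536870912 50465866 3 eng mog cd3q2a cd2q2b pd0 false true true .pp 2 0 2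
    ndB3q2a ndB2q2b pcB0 Cut.none Ext.none :=
  certB0 (fam := false) (s1 := true) (s2 := true) (a := 2) (b := 0) (c := 2) (cn := .pp) (n1 := ndB3q2a) (n2 := ndB2q2b) (pc := pcB0) (cut := Cut.none) (xt := Ext.none) (P1 := 0) (W1 := 536870912) (P2 := 1239849684) (W2 := 370763052) (P3 := 536870912) (W3 := 50465866) (N0 := 3) (En := eng) (mo := mog) (C1 := cd3q2a) (C2 := cd2q2b) (C3 := pd0)
    rfl k0_pp_202_ab

noncomputable def f_pp_202_ba : ℕ → ℕ → ℕ → ℕ → Bool := onCell 1239849684 370763052 0 536870912 536870912 50465866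
    (rowB 3 eng mog cd3q2b cd2q2a pd0 0 false true true .pp 2 0 2 (qsf 1239849684 370763052 0 536870912 0) ndB3q2b ndB2q2a pcB0 Cut.none Ext.none)

def k0_pp_202_ba : ∃ t, chk3 f_pp_202_ba t 1 1 1 = true :=
  ⟨(l 3), by decide +kernel⟩

theorem c_pp_202_ba : CertB 1239849684 370763052 0 536870912 536870912 50465866 3 eng mog cd3q2b cd2q2a pd0 false true true .pp 2 0 2
    ndB3q2b ndB2q2a pcB0 Cut.none Ext.none :=
  certB0 (fam := false) (s1 := true) (s2 := true) (a := 2) (b := 0) (c := 2) (cn := .pp) (n1 := ndB3q2b) (n2 := ndB2q2a) (pc := pcB0) (cut := Cut.none) (xt := Ext.none) (P1 := 1239849684) (W1 := 370763052) (P2 := 0) (W2 := 536870912) (P3 := 536870912) (W3 := 50465866) (N0 := 3) (En := eng) (mo := mog) (C1 := cd3q2b) (C2 := cd2q2a) (C3 := pd0)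
    rfl k0_pp_202_ba

noncomputable def f_pp_202_bb : ℕ → ℕ → ℕ → ℕ → Bool := onCell 1239849684 370763052 1239849684 370763052 536870912 50465866
    (rowB 3 eng mog cd3q2b cd2q2b pd0 0 false true true .pp 2 0 2 (qsf 1239849684 370763052 1239849684 370763052 0) ndB3q2b ndB2q2b pcB0 Cut.none Ext.none)

def k0_pp_202_bb : ∃ t, chk3 f_pp_202_bb t 1 1 1 = true :=
  ⟨(l 3), by decide +kernel⟩

theorem c_pp_202_bb : CertB 1239849684 370763052 1239849684 370763052 536870912 50465866 3 eng mog cd3q2b cd2q2b pd0 false true true .pp 2 0 2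
    ndB3q2b ndB2q2b pcB0 Cut.none Ext.none :=
  certB0 (fam := false) (s1 := true) (s2 := true) (a := 2) (b := 0) (c := 2) (cn := .pp) (n1 := ndB3q2b) (n2 := ndB2q2b) (pc := pcB0) (cut := Cut.none) (xt := Ext.none) (P1 := 1239849684) (W1 := 370763052) (P2 := 1239849684) (W2 := 370763052) (P3 := 536870912) (W3 := 50465866) (N0 := 3) (En := eng) (mo := mog) (C1 := cd3q2b) (C2 := cd2q2b) (C3 := pd0)
    rfl k0_pp_202_bb

noncomputable def f_pp_203_a : ℕ → ℕ → ℕ → ℕ → Bool := onCell 0 536870912 0 536870912 536870912 50465866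
    (rowB 3 eng mog cd3q2a cd2q3 pd0 1 false true true .up 2 0 3 (qsf 0 536870912 1610612736 536870912 0) ndB3q2a ndB2q3 pcB0 Cut.none Ext.none)

def k0_pp_203_a : ∃ t, chk3 f_pp_203_a t 1 1 1 = true :=
  ⟨(l 3), by decide +kernel⟩

theorem c_pp_203_a : CertB 0 536870912 1610612736 536870912 536870912 50465866 3 eng mog cd3q2a cd2q3 pd0 false true true .up 2 0 3
    ndB3q2a ndB2q3 pcB0 Cut.none Ext.none :=
  certB1 (fam := false) (s1 := true) (s2 := true) (a := 2) (b := 0) (c := 3) (cn := .up) (n1 := ndB3q2a) (n2 := ndB2q3) (pc := pcB0) (cut := Cut.none) (xt := Ext.none) (P1 := 0) (W1 := 536870912) (P2 := 1610612736) (W2 := 536870912) (P3 := 536870912) (W3 := 50465866) (N0 := 3) (En := eng) (mo := mog) (C1 := cd3q2a) (C2 := cd2q3) (C3 := pd0)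
    rfl (fun _ => rfl) k0_pp_203_a

noncomputable def f_pp_203_b : ℕ → ℕ → ℕ → ℕ → Bool := onCell 1239849684 370763052 1610612736 536870912 536870912 50465866
    (rowB 3 eng mog cd3q2b cd2q3 pd0 0 false true true .up 2 0 3 (qsf 1239849684 370763052 1610612736 536870912 0) ndB3q2b ndB2q3 pcB0 Cut.none Ext.none)

def k0_pp_203_b : ∃ t, chk3 f_pp_203_b t 1 1 1 = true :=
  ⟨(l 3), by decide +kernel⟩

theorem c_pp_203_b : CertB 1239849684 370763052 1610612736 536870912 536870912 50465866 3 eng mog cd3q2b cd2q3 pd0 false true true .up 2 0 3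
    ndB3q2b ndB2q3 pcB0 Cut.none Ext.none :=
  certB0 (fam := false) (s1 := true) (s2 := true) (a := 2) (b := 0) (c := 3) (cn := .up) (n1 := ndB3q2b) (n2 := ndB2q3) (pc := pcB0) (cut := Cut.none) (xt := Ext.none) (P1 := 1239849684) (W1 := 370763052) (P2 := 1610612736) (W2 := 536870912) (P3 := 536870912) (W3 := 50465866) (N0 := 3) (En := eng) (mo := mog) (C1 := cd3q2b) (C2 := cd2q3) (C3 := pd0)
    rfl k0_pp_203_b

noncomputable def cut_pp_213_a : Cut := Cut.of [[⟨0, 1, 0, 67108864⟩, ⟨1, 1, 0, 67108864⟩, ⟨2, 2, 0, 16777216⟩]]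

noncomputable def f_pp_213_a : ℕ → ℕ → ℕ → ℕ → Bool := onCell 0 536870912 1610612736 536870912 536870912 50465866
    (rowB 3 eng mog cd3q2a cd2q3 pd1 0 false true true .pnn 2 1 3 (qsf 0 536870912 1610612736 536870912 1) ndB3q2a ndB2q3 pcB1 cut_pp_213_a Ext.none)

def k0_pp_213_a : ∃ t, chk3 f_pp_213_a t 1 1 1 = true :=
  ⟨(b (l 3) (a (l 3) (b (l 3) (a (l 3) (b (l 3) (a (l 3) (b (l 3) (b (l 3) (b (l 3) (l 6)))))))))), by decide +kernel⟩

theorem c_pp_213_a : CertB 0 536870912 1610612736 536870912 536870912 50465866 3 eng mog cd3q2a cd2q3 pd1 false true true .pnn 2 1 3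
    ndB3q2a ndB2q3 pcB1 cut_pp_213_a Ext.none :=
  certB0 (fam := false) (s1 := true) (s2 := true) (a := 2) (b := 1) (c := 3) (cn := .pnn) (n1 := ndB3q2a) (n2 := ndB2q3) (pc := pcB1) (cut := cut_pp_213_a) (xt := Ext.none) (P1 := 0) (W1 := 536870912) (P2 := 1610612736) (W2 := 536870912) (P3 := 536870912) (W3 := 50465866) (N0 := 3) (En := eng) (mo := mog) (C1 := cd3q2a) (C2 := cd2q3) (C3 := pd1)
    rfl k0_pp_213_a

noncomputable def cut_pp_213_b : Cut := Cut.of [[⟨0, 1, 0, 67108864⟩, ⟨1, 1, 0, 67108864⟩, ⟨2, 2, 0, 16777216⟩]]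

noncomputable def f_pp_213_b : ℕ → ℕ → ℕ → ℕ → Bool := onCell 1239849684 370763052 1610612736 536870912 536870912 50465866
    (rowB 3 eng mog cd3q2b cd2q3 pd1 0 false true true .pnn 2 1 3 (qsf 1239849684 370763052 1610612736 536870912 1) ndB3q2b ndB2q3 pcB1 cut_pp_213_b Ext.none)

def k0_pp_213_b : ∃ t, chk3 f_pp_213_b t 1 1 1 = true :=
  ⟨(l 3), by decide +kernel⟩

theorem c_pp_213_b : CertB 1239849684 370763052 1610612736 536870912 536870912 50465866 3 eng mog cd3q2b cd2q3 pd1 false true true .pnn 2 1 3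
    ndB3q2b ndB2q3 pcB1 cut_pp_213_b Ext.none :=
  certB0 (fam := false) (s1 := true) (s2 := true) (a := 2) (b := 1) (c := 3) (cn := .pnn) (n1 := ndB3q2b) (n2 := ndB2q3) (pc := pcB1) (cut := cut_pp_213_b) (xt := Ext.none) (P1 := 1239849684) (W1 := 370763052) (P2 := 1610612736) (W2 := 536870912) (P3 := 536870912) (W3 := 50465866) (N0 := 3) (En := eng) (mo := mog) (C1 := cd3q2b) (C2 := cd2q3) (C3 := pd1)
    rfl k0_pp_213_b

noncomputable def f_pp_303 : ℕ → ℕ → ℕ → ℕ → Bool := onCell 1610612736 536870912 1610612736 536870912 536870912 50465866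
    (rowB 3 eng mog cd3q3 cd2q3 pd0 0 false true true .npn 3 0 3 (qsf 1610612736 536870912 1610612736 536870912 0) ndB3q3 ndB2q3 pcB0 Cut.none Ext.none)

def k0_pp_303 : ∃ t, chk3 f_pp_303 t 1 1 1 = true :=
  ⟨(l 3), by decide +kernel⟩

theorem c_pp_303 : CertB 1610612736 536870912 1610612736 536870912 536870912 50465866 3 eng mog cd3q3 cd2q3 pd0 false true true .npn 3 0 3
    ndB3q3 ndB2q3 pcB0 Cut.none Ext.none :=
  certB0 (fam := false) (s1 := true) (s2 := true) (a := 3) (b := 0) (c := 3) (cn := .npn) (n1 := ndB3q3) (n2 := ndB2q3) (pc := pcB0) (cut := Cut.none) (xt := Ext.none) (P1 := 1610612736) (W1 := 536870912) (P2 := 1610612736) (W2 := 536870912) (P3 := 536870912) (W3 := 50465866) (N0 := 3) (En := eng) (mo := mog) (C1 := cd3q3) (C2 := cd2q3) (C3 := pd0)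
    rfl k0_pp_303

noncomputable def f_pp_313 : ℕ → ℕ → ℕ → ℕ → Bool := onCell 1610612736 536870912 1610612736 536870912 536870912 50465866
    (rowB 3 eng mog cd3q3 cd2q3 pd1 0 false true true .dn 3 1 3 (qsf 1610612736 536870912 1610612736 536870912 1) ndB3q3 ndB2q3 pcB1 Cut.none Ext.none)

def k0_pp_313 : ∃ t, chk3 f_pp_313 t 1 1 1 = true :=
  ⟨(l 3), by decide +kernel⟩

theorem c_pp_313 : CertB 1610612736 536870912 1610612736 536870912 536870912 50465866 3 eng mog cd3q3 cd2q3 pd1 false true true .dn 3 1 3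
    ndB3q3 ndB2q3 pcB1 Cut.none Ext.none :=
  certB0 (fam := false) (s1 := true) (s2 := true) (a := 3) (b := 1) (c := 3) (cn := .dn) (n1 := ndB3q3) (n2 := ndB2q3) (pc := pcB1) (cut := Cut.none) (xt := Ext.none) (P1 := 1610612736) (W1 := 536870912) (P2 := 1610612736) (W2 := 536870912) (P3 := 536870912) (W3 := 50465866) (N0 := 3) (En := eng) (mo := mog) (C1 := cd3q3) (C2 := cd2q3) (C3 := pd1)
    rfl k0_pp_313

noncomputable def f_pm_001 : ℕ → ℕ → ℕ → ℕ → Bool := onCell 0 536870912 536870912 536870912 536870912 50465866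
    (rowB 3 eng mog cd3q0 cd2q1 pd0 0 false true false .up 0 0 1 (qsf 0 536870912 536870912 536870912 0) ndB3q0 ndB2q1 pcB0 Cut.none Ext.none)

def k0_pm_001 : ∃ t, chk3 f_pm_001 t 1 1 1 = true :=
  ⟨(l 4), by decide +kernel⟩

theorem c_pm_001 : CertB 0 536870912 536870912 536870912 536870912 50465866 3 eng mog cd3q0 cd2q1 pd0 false true false .up 0 0 1
    ndB3q0 ndB2q1 pcB0 Cut.none Ext.none :=
  certB0 (fam := false) (s1 := true) (s2 := false) (a := 0) (b := 0) (c := 1) (cn := .up) (n1 := ndB3q0) (n2 := ndB2q1) (pc := pcB0) (cut := Cut.none) (xt := Ext.none) (P1 := 0) (W1 := 536870912) (P2 := 536870912) (W2 := 536870912) (P3 := 536870912) (W3 := 50465866) (N0 := 3) (En := eng) (mo := mog) (C1 := cd3q0) (C2 := cd2q1) (C3 := pd0)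
    rfl k0_pm_001

noncomputable def f_pm_011 : ℕ → ℕ → ℕ → ℕ → Bool := onCell 0 536870912 536870912 536870912 536870912 50465866
    (rowB 3 eng mog cd3q0 cd2q1 pd1 0 false true false .pnn 0 1 1 (qsf 0 536870912 536870912 536870912 1) ndB3q0 ndB2q1 pcB1 Cut.none Ext.none)

def k0_pm_011 : ∃ t, chk3 f_pm_011 t 1 1 1 = true :=
  ⟨(l 4), by decide +kernel⟩

theorem c_pm_011 : CertB 0 536870912 536870912 536870912 536870912 50465866 3 eng mog cd3q0 cd2q1 pd1 false true false .pnn 0 1 1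
    ndB3q0 ndB2q1 pcB1 Cut.none Ext.none :=
  certB0 (fam := false) (s1 := true) (s2 := false) (a := 0) (b := 1) (c := 1) (cn := .pnn) (n1 := ndB3q0) (n2 := ndB2q1) (pc := pcB1) (cut := Cut.none) (xt := Ext.none) (P1 := 0) (W1 := 536870912) (P2 := 536870912) (W2 := 536870912) (P3 := 536870912) (W3 := 50465866) (N0 := 3) (En := eng) (mo := mog) (C1 := cd3q0) (C2 := cd2q1) (C3 := pd1)
    rfl k0_pm_011

noncomputable def cut_pm_012_a : Cut := Cut.of [[⟨0, 0, 0, 67108864⟩, ⟨1, 1, 0, 67108864⟩, ⟨2, 1, 0, 67108864⟩]]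

noncomputable def f_pm_012_a : ℕ → ℕ → ℕ → ℕ → Bool := onCell 536870912 536870912 0 536870912 536870912 50465866
    (rowB 3 eng mog cd3q0 cd2q2a pd1 2 false true false .pnp 0 1 2 (qsf 0 536870912 0 536870912 1) ndB3q0 ndB2q2a pcB1 cut_pm_012_a Ext.none)

def k0_pm_012_a : ∃ t, chk3 f_pm_012_a t 1 1 1 = true :=
  ⟨(a (a (b (a (l 2) (b (l 2) (l 16630792))) (b (a (l 2) (l 16575768)) (l 4))) (b (b (a (l 16635112) (l 16599344)) (a (l 16603432) (l 16570904))) (b (a (l 16556000) (l 16533552)) (l 4)))) (b (a (b (a (l 16555688) (l 16504808)) (a (l 16553160) (b (l 16497896) (l 16493024)))) (a (b (l 16471456) (b (l 16472368) (l 16476856))) (b (a (l 16451824) (l 16439480)) (a (l 16481856) (b (l 16445728) (l 16458960)))))) (a (b (b (a (l 16512720) (l 16495576)) (l 4)) (l 4)) (b (a (b (a (l 16491848) (l 16489928)) (l 4)) (a (b (l 16487928) (l 16650768)) (b (l 16484536) (a (l 16527672) (l 16551464))))) (a (l 4) (a (l 4) (a (l 4) (b (b (l 16581128) (l 4)) (l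 6))))))))), by decide +kernel⟩

theorem c_pm_012_a : CertB 0 536870912 0 536870912 536870912 50465866 3 eng mog cd3q0 cd2q2a pd1 false true false .pnp 0 1 2
    ndB3q0 ndB2q2a pcB1 cut_pm_012_a Ext.none :=
  certB2 (fam := false) (s1 := true) (s2 := false) (a := 0) (b := 1) (c := 2) (cn := .pnp) (n1 := ndB3q0) (n2 := ndB2q2a) (pc := pcB1) (cut := cut_pm_012_a) (xt := Ext.none) (P1 := 0) (W1 := 536870912) (P2 := 0) (W2 := 536870912) (P3 := 536870912) (W3 := 50465866) (N0 := 3) (En := eng) (mo := mog) (C1 := cd3q0) (C2 := cd2q2a) (C3 := pd1)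
    rfl (fun _ => rfl) k0_pm_012_a

noncomputable def cut_pm_012_b : Cut := Cut.of [[⟨0, 0, 0, 67108864⟩, ⟨1, 1, 0, 67108864⟩, ⟨2, 1, 0, 67108864⟩]]

noncomputable def f_pm_012_b : ℕ → ℕ → ℕ → ℕ → Bool := onCell 0 536870912 536870912 536870912 536870912 50465866
    (rowB 3 eng mog cd3q0 cd2q2b pd1 1 false true false .pnp 0 1 2 (qsf 0 536870912 1239849684 370763052 1) ndB3q0 ndB2q2b pcB1 cut_pm_012_b Ext.none)

def k0_pm_012_b : ∃ t, chk3 f_pm_012_b t 1 1 1 = true :=
  ⟨(a (b (l 1) (a (l 1) (b (l 1) (a (b (l 1) (a (l 16544760) (l 16472872))) (b (l 16515208) (l 16408376)))))) (b (b (l 1) (a (l 1) (b (l 295849558903) (l 16615816)))) (a (b (a (b (l 1) (l 16535032)) (l 16544856)) (a (b (l 16450400) (l 16351720)) (l 16412664))) (b (l 104186642167) (l 16561616))))), by decide +kernel⟩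

theorem c_pm_012_b : CertB 0 536870912 1239849684 370763052 536870912 50465866 3 eng mog cd3q0 cd2q2b pd1 false true false .pnp 0 1 2
    ndB3q0 ndB2q2b pcB1 cut_pm_012_b Ext.none :=
  certB1 (fam := false) (s1 := true) (s2 := false) (a := 0) (b := 1) (c := 2) (cn := .pnp) (n1 := ndB3q0) (n2 := ndB2q2b) (pc := pcB1) (cut := cut_pm_012_b) (xt := Ext.none) (P1 := 0) (W1 := 536870912) (P2 := 1239849684) (W2 := 370763052) (P3 := 536870912) (W3 := 50465866) (N0 := 3) (En := eng) (mo := mog) (C1 := cd3q0) (C2 := cd2q2b) (C3 := pd1)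
    rfl (fun _ => rfl) k0_pm_012_b

noncomputable def cut_pm_022_a : Cut := Cut.of [[⟨0, 0, 0, 67108864⟩, ⟨1, 1, 0, 67108864⟩, ⟨2, 1, 0, 67108864⟩]]

noncomputable def f_pm_022_a : ℕ → ℕ → ℕ → ℕ → Bool := onCell 0 536870912 0 536870912 536870912 50465866
    (rowB 3 eng mog cd3q0 cd2q2a pd2 0 false true false .pp 0 2 2 (qsf 0 536870912 0 536870912 2) ndB3q0 ndB2q2a pcB2 cut_pm_022_a Ext.none)

def k0_pm_022_a : ∃ t, chk3 f_pm_022_a t 1 1 1 = true :=
  ⟨(a (a (b (a (b (a (a (b (l 16455552) (l 16466512)) (l 16486440)) (b (l 16463800) (l 16470920))) (a (b (b (l 16482392) (l 16493400)) (a (a (l 16534960) (l 16555656)) (l 16512360))) (b (l 16486224) (l 16506256)))) (b (b (l 16459488) (l 16461424)) (b (a (l 16476992) (l 16460800)) (a (l 16491200) (l 16468808))))) (b (a (a (a (b (b (l 16539536) (l 16581200)) (a (b (l 16585288) (a (l 16634608) (l 16611256))) (b (l 16582000) (l 16607904)))) (b (b (l 16535632) (l 16554504)) (b (l 16575976) (l 16600176))))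 (b (a (l 16538216) (l 16529088)) (b (l 16560064) (l 16601672)))) (b (a (l 16511552) (l 16481288)) (a (b (l 16531088) (l 16609760)) (b (l 16493960) (l 1))))) (a (a (b (b (a (a (a (b (l 16636112) (l 16652032)) (l 16641096)) (l 16636816)) (l 16648160)) (l 6)) (l 6)) (b (b (a (l 16612184) (l 16594872)) (a (l 6) (b (l 16613168) (l 4)))) (l 4))) (a (b (b (a (l 16575608) (l 1)) (l 1)) (l 1)) (l 1))))) (b (a (b (a (l 16438896) (l 16413336)) (b (l 16485944) (a (l 16439664) (l 1)))) (l 1)) (b (l 1) (l 1)))) (l 1)), by decide +kernel⟩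

theorem c_pm_022_a : CertB 0 536870912 0 536870912 536870912 50465866 3 eng mog cd3q0 cd2q2a pd2 false true false .pp 0 2 2
    ndB3q0 ndB2q2a pcB2 cut_pm_022_a Ext.none :=
  certB0 (fam := false) (s1 := true) (s2 := false) (a := 0) (b := 2) (c := 2) (cn := .pp) (n1 := ndB3q0) (n2 := ndB2q2a) (pc := pcB2) (cut := cut_pm_022_a) (xt := Ext.none) (P1 := 0) (W1 := 536870912) (P2 := 0) (W2 := 536870912) (P3 := 536870912) (W3 := 50465866) (N0 := 3) (En := eng) (mo := mog) (C1 := cd3q0) (C2 := cd2q2a) (C3 := pd2)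
    rfl k0_pm_022_a

noncomputable def cut_pm_022_b : Cut := Cut.of [[⟨0, 0, 0, 67108864⟩, ⟨1, 1, 0, 67108864⟩, ⟨2, 1, 0, 67108864⟩]]

noncomputable def f_pm_022_b : ℕ → ℕ → ℕ → ℕ → Bool := onCell 0 536870912 1073741824 536870912 536870912 50465866
    (rowB 3 eng mog cd3q0 cd2q2b pd2 1 false true false .pp 0 2 2 (qsf 0 536870912 1239849684 370763052 2) ndB3q0 ndB2q2b pcB2 cut_pm_022_b Ext.none)

def k0_pm_022_b : ∃ t, chk3 f_pm_022_b t 1 1 1 = true :=
  ⟨(a (b (b (a (a (b (l 1) (a (a (l 1) (l 537977916247)) (l 113312944327))) (b (b (a (l 1) (l 16494464)) (l 16585368)) (a (l 16439064) (l 16399752)))) (a (b (l 16615104) (l 16353696)) (b (l 16331224) (l 16300304)))) (a (a (c (b (a (b (l 61236449191) (l 16481208)) (b (l 16415768) (l 16365384))) (a (l 16439472) (l 16276920))) (b (a (b (l 59088962407) (l 16476208)) (b (l 16403992) (l 16351800))) (a (l 16415880) (l 16265192)))) (b (b (l 16359288) (l 16319896)) (l 16317208))) (b (a (l 16303624) (l 16268872))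 (a (l 16249376) (l 16233848))))) (b (a (a (b (a (l 16315376) (l 16139840)) (a (l 16233320) (l 16018216))) (b (l 16155440) (l 16037536))) (b (a (l 16185016) (l 16189056)) (l 16111576))) (a (b (a (a (l 16096344) (l 15952464)) (l 15893456)) (a (a (l 16030288) (l 15907360)) (l 4))) (l 4)))) (b (b (a (b (a (l 16289592) (l 16336920)) (l 16305208)) (l 16578616)) (a (b (l 16301112) (l 16293432)) (b (l 16614704) (l 2)))) (b (l 4) (l 2)))), by decide +kernel⟩

theorem c_pm_022_b : CertB 0 536870912 1239849684 370763052 536870912 50465866 3 eng mog cd3q0 cd2q2b pd2 false true false .pp 0 2 2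
    ndB3q0 ndB2q2b pcB2 cut_pm_022_b Ext.none :=
  certB1 (fam := false) (s1 := true) (s2 := false) (a := 0) (b := 2) (c := 2) (cn := .pp) (n1 := ndB3q0) (n2 := ndB2q2b) (pc := pcB2) (cut := cut_pm_022_b) (xt := Ext.none) (P1 := 0) (W1 := 536870912) (P2 := 1239849684) (W2 := 370763052) (P3 := 536870912) (W3 := 50465866) (N0 := 3) (En := eng) (mo := mog) (C1 := cd3q0) (C2 := cd2q2b) (C3 := pd2)
    rfl (fun _ => rfl) k0_pm_022_b

noncomputable def f_pm_023 : ℕ → ℕ → ℕ → ℕ → Bool := onCell 0 536870912 1610612736 536870912 536870912 50465866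
    (rowB 3 eng mog cd3q0 cd2q3 pd2 0 false true false .up 0 2 3 (qsf 0 536870912 1610612736 536870912 2) ndB3q0 ndB2q3 pcB2 Cut.none Ext.none)

def k0_pm_023 : ∃ t, chk3 f_pm_023 t 1 1 1 = true :=
  ⟨(a (b (a (l 4) (b (l 4) (l 4))) (l 4)) (b (b (a (b (a (l 4) (l 16321968)) (l 4)) (b (l 16554720) (a (l 16484456) (l 16664944)))) (a (l 4) (a (l 4) (l 4)))) (l 4))), by decide +kernel⟩

theorem c_pm_023 : CertB 0 536870912 1610612736 536870912 536870912 50465866 3 eng mog cd3q0 cd2q3 pd2 false true false .up 0 2 3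
    ndB3q0 ndB2q3 pcB2 Cut.none Ext.none :=
  certB0 (fam := false) (s1 := true) (s2 := false) (a := 0) (b := 2) (c := 3) (cn := .up) (n1 := ndB3q0) (n2 := ndB2q3) (pc := pcB2) (cut := Cut.none) (xt := Ext.none) (P1 := 0) (W1 := 536870912) (P2 := 1610612736) (W2 := 536870912) (P3 := 536870912) (W3 := 50465866) (N0 := 3) (En := eng) (mo := mog) (C1 := cd3q0) (C2 := cd2q3) (C3 := pd2)
    rfl k0_pm_023

noncomputable def f_pm_033 : ℕ → ℕ → ℕ → ℕ → Bool := onCell 0 536870912 1610612736 536870912 536870912 50465866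
    (rowB 3 eng mog cd3q0 cd2q3 pd3 0 false true false .pnn 0 3 3 (qsf 0 536870912 1610612736 536870912 3) ndB3q0 ndB2q3 pcB3 Cut.none Ext.none)

def k0_pm_033 : ∃ t, chk3 f_pm_033 t 1 1 1 = true :=
  ⟨(a (b (a (l 4) (b (l 4) (l 4))) (l 4)) (b (a (b (l 1) (l 4)) (l 1)) (l 4))), by decide +kernel⟩

theorem c_pm_033 : CertB 0 536870912 1610612736 536870912 536870912 50465866 3 eng mog cd3q0 cd2q3 pd3 false true false .pnn 0 3 3
    ndB3q0 ndB2q3 pcB3 Cut.none Ext.none :=
  certB0 (fam := false) (s1 := true) (s2 := false) (a := 0) (b := 3) (c := 3) (cn := .pnn) (n1 := ndB3q0) (n2 := ndB2q3) (pc := pcB3) (cut := Cut.none) (xt := Ext.none) (P1 := 0) (W1 := 536870912) (P2 := 1610612736) (W2 := 536870912) (P3 := 536870912) (W3 := 50465866) (N0 := 3) (En := eng) (mo := mog) (C1 := cd3q0) (C2 := cd2q3) (C3 := pd3)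
    rfl k0_pm_033

noncomputable def f_pm_101 : ℕ → ℕ → ℕ → ℕ → Bool := onCell 536870912 536870912 536870912 536870912 536870912 50465866
    (rowB 3 eng mog cd3q1 cd2q1 pd0 0 false true false .npn 1 0 1 (qsf 536870912 536870912 536870912 536870912 0) ndB3q1 ndB2q1 pcB0 Cut.none Ext.none)

def k0_pm_101 : ∃ t, chk3 f_pm_101 t 1 1 1 = true :=
  ⟨(l 4), by decide +kernel⟩

theorem c_pm_101 : CertB 536870912 536870912 536870912 536870912 536870912 50465866 3 eng mog cd3q1 cd2q1 pd0 false true false .npn 1 0 1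
    ndB3q1 ndB2q1 pcB0 Cut.none Ext.none :=
  certB0 (fam := false) (s1 := true) (s2 := false) (a := 1) (b := 0) (c := 1) (cn := .npn) (n1 := ndB3q1) (n2 := ndB2q1) (pc := pcB0) (cut := Cut.none) (xt := Ext.none) (P1 := 536870912) (W1 := 536870912) (P2 := 536870912) (W2 := 536870912) (P3 := 536870912) (W3 := 50465866) (N0 := 3) (En := eng) (mo := mog) (C1 := cd3q1) (C2 := cd2q1) (C3 := pd0)
    rfl k0_pm_101

noncomputable def f_pm_102_a : ℕ → ℕ → ℕ → ℕ → Bool := onCell 0 536870912 0 536870912 536870912 50465866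
    (rowB 3 eng mog cd3q1 cd2q2a pd0 2 false true false .npp 1 0 2 (qsf 536870912 536870912 0 536870912 0) ndB3q1 ndB2q2a pcB0 Cut.none Ext.none)

def k0_pm_102_a : ∃ t, chk3 f_pm_102_a t 1 1 1 = true :=
  ⟨(a (a (b (b (l 2) (a (l 2) (a (l 2) (l 16661032)))) (b (a (l 2) (b (l 16684816) (l 16685000))) (b (a (a (l 2) (l 16663304)) (l 16660536)) (l 4)))) (b (b (a (b (l 16642376) (l 16663672)) (l 16696176)) (a (l 123044298583) (l 16712736))) (b (a (b (l 16700912) (l 16684560)) (l 16690720)) (l 4)))) (a (b (b (a (l 16718048) (l 16729736)) (a (l 16719384) (l 16716832))) (b (a (a (l 16684024) (l 16678496)) (l 16669104)) (l 4))) (b (a (b (l 16730224) (l 16708200)) (b (a (l 16726592) (l 16722320)) (l 16696600))) (b (a (l 16844664) (a (l 16643568) (l 16630648))) (l 4))))), by decide +kernel⟩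

theorem c_pm_102_a : CertB 536870912 536870912 0 536870912 536870912 50465866 3 eng mog cd3q1 cd2q2a pd0 false true false .npp 1 0 2
    ndB3q1 ndB2q2a pcB0 Cut.none Ext.none :=
  certB2 (fam := false) (s1 := true) (s2 := false) (a := 1) (b := 0) (c := 2) (cn := .npp) (n1 := ndB3q1) (n2 := ndB2q2a) (pc := pcB0) (cut := Cut.none) (xt := Ext.none) (P1 := 536870912) (W1 := 536870912) (P2 := 0) (W2 := 536870912) (P3 := 536870912) (W3 := 50465866) (N0 := 3) (En := eng) (mo := mog) (C1 := cd3q1) (C2 := cd2q2a) (C3 := pd0)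
    rfl (fun _ => rfl) k0_pm_102_a

noncomputable def f_pm_102_b : ℕ → ℕ → ℕ → ℕ → Bool := onCell 536870912 536870912 0 536870912 536870912 50465866
    (rowB 3 eng mog cd3q1 cd2q2b pd0 1 false true false .npp 1 0 2 (qsf 536870912 536870912 1239849684 370763052 0) ndB3q1 ndB2q2b pcB0 Cut.none Ext.none)

def k0_pm_102_b : ∃ t, chk3 f_pm_102_b t 1 1 1 = true :=
  ⟨(a (a (l 1) (b (l 1) (b (l 1) (b (a (l 1) (l 16717912)) (a (l 445636787335) (l 16754832)))))) (b (b (l 1) (a (l 1) (b (a (l 1) (l 471943043527)) (a (l 494491563863) (l 16651928))))) (b (a (b (l 483217364615) (l 328061912455)) (b (a (l 16695192) (l 16643608)) (l 16709344))) (b (a (l 16763992) (l 16792416)) (a (l 16831728) (l 16930896)))))), by decide +kernel⟩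

theorem c_pm_102_b : CertB 536870912 536870912 1239849684 370763052 536870912 50465866 3 eng mog cd3q1 cd2q2b pd0 false true false .npp 1 0 2
    ndB3q1 ndB2q2b pcB0 Cut.none Ext.none :=
  certB1 (fam := false) (s1 := true) (s2 := false) (a := 1) (b := 0) (c := 2) (cn := .npp) (n1 := ndB3q1) (n2 := ndB2q2b) (pc := pcB0) (cut := Cut.none) (xt := Ext.none) (P1 := 536870912) (W1 := 536870912) (P2 := 1239849684) (W2 := 370763052) (P3 := 536870912) (W3 := 50465866) (N0 := 3) (En := eng) (mo := mog) (C1 := cd3q1) (C2 := cd2q2b) (C3 := pd0)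
    rfl (fun _ => rfl) k0_pm_102_b

noncomputable def f_pm_112_a : ℕ → ℕ → ℕ → ℕ → Bool := onCell 536870912 536870912 0 536870912 536870912 50465866
    (rowB 3 eng mog cd3q1 cd2q2a pd1 2 false true false .dn 1 1 2 (qsf 536870912 536870912 0 536870912 1) ndB3q1 ndB2q2a pcB1 Cut.none Ext.none)

def k0_pm_112_a : ∃ t, chk3 f_pm_112_a t 1 1 1 = true :=
  ⟨(a (a (b (a (b (l 16707096) (l 16674128)) (b (l 16673824) (l 16634312))) (b (a (l 16606496) (l 16567968)) (l 4))) (b (a (b (l 16626656) (l 16591472)) (l 1)) (b (l 1) (l 1)))) (l 1)), by decide +kernel⟩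

theorem c_pm_112_a : CertB 536870912 536870912 0 536870912 536870912 50465866 3 eng mog cd3q1 cd2q2a pd1 false true false .dn 1 1 2
    ndB3q1 ndB2q2a pcB1 Cut.none Ext.none :=
  certB2 (fam := false) (s1 := true) (s2 := false) (a := 1) (b := 1) (c := 2) (cn := .dn) (n1 := ndB3q1) (n2 := ndB2q2a) (pc := pcB1) (cut := Cut.none) (xt := Ext.none) (P1 := 536870912) (W1 := 536870912) (P2 := 0) (W2 := 536870912) (P3 := 536870912) (W3 := 50465866) (N0 := 3) (En := eng) (mo := mog) (C1 := cd3q1) (C2 := cd2q2a) (C3 := pd1)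
    rfl (fun _ => rfl) k0_pm_112_a

noncomputable def f_pm_112_b : ℕ → ℕ → ℕ → ℕ → Bool := onCell 536870912 536870912 1239849684 370763052 536870912 50465866
    (rowB 3 eng mog cd3q1 cd2q2b pd1 2 false true false .dn 1 1 2 (qsf 536870912 536870912 1239849684 370763052 1) ndB3q1 ndB2q2b pcB1 Cut.none Ext.none)

def k0_pm_112_b : ∃ t, chk3 f_pm_112_b t 1 1 1 = true :=
  ⟨(a (a (b (a (b (l 16759896) (l 16866296)) (b (l 16736504) (l 16871392))) (a (l 17090840) (l 17188208))) (b (a (b (l 16683832) (l 16840744)) (l 270079576407)) (b (l 17067752) (l 17455072)))) (b (a (b (l 1) (l 16601552)) (l 1)) (a (b (l 16835296) (l 17305296)) (l 423624860935)))), by decide +kernel⟩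

theorem c_pm_112_b : CertB 536870912 536870912 1239849684 370763052 536870912 50465866 3 eng mog cd3q1 cd2q2b pd1 false true false .dn 1 1 2
    ndB3q1 ndB2q2b pcB1 Cut.none Ext.none :=
  certB2 (fam := false) (s1 := true) (s2 := false) (a := 1) (b := 1) (c := 2) (cn := .dn) (n1 := ndB3q1) (n2 := ndB2q2b) (pc := pcB1) (cut := Cut.none) (xt := Ext.none) (P1 := 536870912) (W1 := 536870912) (P2 := 1239849684) (W2 := 370763052) (P3 := 536870912) (W3 := 50465866) (N0 := 3) (En := eng) (mo := mog) (C1 := cd3q1) (C2 := cd2q2b) (C3 := pd1)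
    rfl (fun _ => rfl) k0_pm_112_b

noncomputable def f_pm_113 : ℕ → ℕ → ℕ → ℕ → Bool := onCell 536870912 536870912 536870912 536870912 536870912 50465866
    (rowB 3 eng mog cd3q1 cd2q3 pd1 1 false true false .nn 1 1 3 (qsf 536870912 536870912 1610612736 536870912 1) ndB3q1 ndB2q3 pcB1 Cut.none Ext.none)

def k0_pm_113 : ∃ t, chk3 f_pm_113 t 1 1 1 = true :=
  ⟨(a (b (b (l 1) (a (l 1) (l 17096320))) (a (l 413960979399) (l 339337966023))) (b (b (b (a (l 1) (l 17227952)) (l 17395328)) (l 379066890887)) (b (l 17489448) (l 17195672)))), by decide +kernel⟩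

theorem c_pm_113 : CertB 536870912 536870912 1610612736 536870912 536870912 50465866 3 eng mog cd3q1 cd2q3 pd1 false true false .nn 1 1 3
    ndB3q1 ndB2q3 pcB1 Cut.none Ext.none :=
  certB1 (fam := false) (s1 := true) (s2 := false) (a := 1) (b := 1) (c := 3) (cn := .nn) (n1 := ndB3q1) (n2 := ndB2q3) (pc := pcB1) (cut := Cut.none) (xt := Ext.none) (P1 := 536870912) (W1 := 536870912) (P2 := 1610612736) (W2 := 536870912) (P3 := 536870912) (W3 := 50465866) (N0 := 3) (En := eng) (mo := mog) (C1 := cd3q1) (C2 := cd2q3) (C3 := pd1)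
    rfl (fun _ => rfl) k0_pm_113

noncomputable def f_pm_123 : ℕ → ℕ → ℕ → ℕ → Bool := onCell 1073741824 536870912 1610612736 536870912 536870912 50465866
    (rowB 3 eng mog cd3q1 cd2q3 pd2 2 false true false .npn 1 2 3 (qsf 536870912 536870912 1610612736 536870912 2) ndB3q1 ndB2q3 pcB2 Cut.none Ext.none)

def k0_pm_123 : ∃ t, chk3 f_pm_123 t 1 1 1 = true :=
  ⟨(a (b (a (b (l 16698240) (l 17313344)) (a (a (l 16653672) (l 584148673799)) (l 565894936903))) (a (b (l 17117384) (l 16892496)) (b (l 17011344) (l 16826920)))) (b (b (l 1) (l 4)) (a (b (l 4) (l 640722385783)) (l 4)))), by decide +kernel⟩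

theorem c_pm_123 : CertB 536870912 536870912 1610612736 536870912 536870912 50465866 3 eng mog cd3q1 cd2q3 pd2 false true false .npn 1 2 3
    ndB3q1 ndB2q3 pcB2 Cut.none Ext.none :=
  certB2 (fam := false) (s1 := true) (s2 := false) (a := 1) (b := 2) (c := 3) (cn := .npn) (n1 := ndB3q1) (n2 := ndB2q3) (pc := pcB2) (cut := Cut.none) (xt := Ext.none) (P1 := 536870912) (W1 := 536870912) (P2 := 1610612736) (W2 := 536870912) (P3 := 536870912) (W3 := 50465866) (N0 := 3) (En := eng) (mo := mog) (C1 := cd3q1) (C2 := cd2q3) (C3 := pd2)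
    rfl (fun _ => rfl) k0_pm_123

noncomputable def f_pm_133 : ℕ → ℕ → ℕ → ℕ → Bool := onCell 1610612736 536870912 1610612736 536870912 536870912 50465866
    (rowB 3 eng mog cd3q1 cd2q3 pd3 2 false true false .dn 1 3 3 (qsf 536870912 536870912 1610612736 536870912 3) ndB3q1 ndB2q3 pcB3 Cut.none Ext.none)

def k0_pm_133 : ∃ t, chk3 f_pm_133 t 1 1 1 = true :=
  ⟨(a (b (l 1) (l 4)) (l 1)), by decide +kernel⟩

theorem c_pm_133 : CertB 536870912 536870912 1610612736 536870912 536870912 50465866 3 eng mog cd3q1 cd2q3 pd3 false true false .dn 1 3 3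
    ndB3q1 ndB2q3 pcB3 Cut.none Ext.none :=
  certB2 (fam := false) (s1 := true) (s2 := false) (a := 1) (b := 3) (c := 3) (cn := .dn) (n1 := ndB3q1) (n2 := ndB2q3) (pc := pcB3) (cut := Cut.none) (xt := Ext.none) (P1 := 536870912) (W1 := 536870912) (P2 := 1610612736) (W2 := 536870912) (P3 := 536870912) (W3 := 50465866) (N0 := 3) (En := eng) (mo := mog) (C1 := cd3q1) (C2 := cd2q3) (C3 := pd3)
    rfl (fun _ => rfl) k0_pm_133

noncomputable def cut_pm_202_aa : Cut := Cut.of [[⟨0, 1, 0, 67108864⟩, ⟨1, 0, 0, 67108864⟩, ⟨2, 1, 0, 67108864⟩]]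

noncomputable def f_pm_202_aa : ℕ → ℕ → ℕ → ℕ → Bool := onCell 0 536870912 0 536870912 536870912 50465866
    (rowB 3 eng mog cd3q2a cd2q2a pd0 0 false true false .pp 2 0 2 (qsf 0 536870912 0 536870912 0) ndB3q2a ndB2q2a pcB0 cut_pm_202_aa Ext.none)

def k0_pm_202_aa : ∃ t, chk3 f_pm_202_aa t 1 1 1 = true :=
  ⟨(a (l 3) (b (l 3) (b (l 3) (a (l 3) (b (l 3) (a (l 3) (l 6))))))), by decide +kernel⟩

theorem c_pm_202_aa : CertB 0 536870912 0 536870912 536870912 50465866 3 eng mog cd3q2a cd2q2a pd0 false true false .pp 2 0 2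
    ndB3q2a ndB2q2a pcB0 cut_pm_202_aa Ext.none :=
  certB0 (fam := false) (s1 := true) (s2 := false) (a := 2) (b := 0) (c := 2) (cn := .pp) (n1 := ndB3q2a) (n2 := ndB2q2a) (pc := pcB0) (cut := cut_pm_202_aa) (xt := Ext.none) (P1 := 0) (W1 := 536870912) (P2 := 0) (W2 := 536870912) (P3 := 536870912) (W3 := 50465866) (N0 := 3) (En := eng) (mo := mog) (C1 := cd3q2a) (C2 := cd2q2a) (C3 := pd0)
    rfl k0_pm_202_aa

noncomputable def cut_pm_202_ab : Cut := Cut.of [[⟨0, 1, 0, 67108864⟩, ⟨1, 0, 0, 67108864⟩, ⟨2, 1, 0, 67108864⟩]]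

noncomputable def f_pm_202_ab : ℕ → ℕ → ℕ → ℕ → Bool := onCell 0 536870912 1239849684 370763052 536870912 50465866
    (rowB 3 eng mog cd3q2a cd2q2b pd0 0 false true false .pp 2 0 2 (qsf 0 536870912 1239849684 370763052 0) ndB3q2a ndB2q2b pcB0 cut_pm_202_ab Ext.none)

def k0_pm_202_ab : ∃ t, chk3 f_pm_202_ab t 1 1 1 = true :=
  ⟨(l 3), by decide +kernel⟩

theorem c_pm_202_ab : CertB 0 536870912 1239849684 370763052 536870912 50465866 3 eng mog cd3q2a cd2q2b pd0 false true false .pp 2 0 2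
    ndB3q2a ndB2q2b pcB0 cut_pm_202_ab Ext.none :=
  certB0 (fam := false) (s1 := true) (s2 := false) (a := 2) (b := 0) (c := 2) (cn := .pp) (n1 := ndB3q2a) (n2 := ndB2q2b) (pc := pcB0) (cut := cut_pm_202_ab) (xt := Ext.none) (P1 := 0) (W1 := 536870912) (P2 := 1239849684) (W2 := 370763052) (P3 := 536870912) (W3 := 50465866) (N0 := 3) (En := eng) (mo := mog) (C1 := cd3q2a) (C2 := cd2q2b) (C3 := pd0)
    rfl k0_pm_202_ab

noncomputable def cut_pm_202_ba : Cut := Cut.of [[⟨0, 1, 0, 67108864⟩, ⟨1, 0, 0, 67108864⟩, ⟨2, 1, 0, 67108864⟩]]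

noncomputable def f_pm_202_ba : ℕ → ℕ → ℕ → ℕ → Bool := onCell 1239849684 370763052 0 536870912 536870912 50465866
    (rowB 3 eng mog cd3q2b cd2q2a pd0 0 false true false .pp 2 0 2 (qsf 1239849684 370763052 0 536870912 0) ndB3q2b ndB2q2a pcB0 cut_pm_202_ba Ext.none)

def k0_pm_202_ba : ∃ t, chk3 f_pm_202_ba t 1 1 1 = true :=
  ⟨(l 3), by decide +kernel⟩

theorem c_pm_202_ba : CertB 1239849684 370763052 0 536870912 536870912 50465866 3 eng mog cd3q2b cd2q2a pd0 false true false .pp 2 0 2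
    ndB3q2b ndB2q2a pcB0 cut_pm_202_ba Ext.none :=
  certB0 (fam := false) (s1 := true) (s2 := false) (a := 2) (b := 0) (c := 2) (cn := .pp) (n1 := ndB3q2b) (n2 := ndB2q2a) (pc := pcB0) (cut := cut_pm_202_ba) (xt := Ext.none) (P1 := 1239849684) (W1 := 370763052) (P2 := 0) (W2 := 536870912) (P3 := 536870912) (W3 := 50465866) (N0 := 3) (En := eng) (mo := mog) (C1 := cd3q2b) (C2 := cd2q2a) (C3 := pd0)
    rfl k0_pm_202_ba

noncomputable def cut_pm_202_bb : Cut := Cut.of [[⟨0, 1, 0, 67108864⟩, ⟨1, 0, 0, 67108864⟩, ⟨2, 1, 0, 67108864⟩]]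

noncomputable def f_pm_202_bb : ℕ → ℕ → ℕ → ℕ → Bool := onCell 1239849684 370763052 1239849684 370763052 536870912 50465866
    (rowB 3 eng mog cd3q2b cd2q2b pd0 0 false true false .pp 2 0 2 (qsf 1239849684 370763052 1239849684 370763052 0) ndB3q2b ndB2q2b pcB0 cut_pm_202_bb Ext.none)

def k0_pm_202_bb : ∃ t, chk3 f_pm_202_bb t 1 1 1 = true :=
  ⟨(l 3), by decide +kernel⟩

theorem c_pm_202_bb : CertB 1239849684 370763052 1239849684 370763052 536870912 50465866 3 eng mog cd3q2b cd2q2b pd0 false true false .pp 2 0 2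
    ndB3q2b ndB2q2b pcB0 cut_pm_202_bb Ext.none :=
  certB0 (fam := false) (s1 := true) (s2 := false) (a := 2) (b := 0) (c := 2) (cn := .pp) (n1 := ndB3q2b) (n2 := ndB2q2b) (pc := pcB0) (cut := cut_pm_202_bb) (xt := Ext.none) (P1 := 1239849684) (W1 := 370763052) (P2 := 1239849684) (W2 := 370763052) (P3 := 536870912) (W3 := 50465866) (N0 := 3) (En := eng) (mo := mog) (C1 := cd3q2b) (C2 := cd2q2b) (C3 := pd0)
    rfl k0_pm_202_bb

noncomputable def f_pm_203_a : ℕ → ℕ → ℕ → ℕ → Bool := onCell 0 536870912 0 536870912 536870912 50465866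
    (rowB 3 eng mog cd3q2a cd2q3 pd0 1 false true false .up 2 0 3 (qsf 0 536870912 1610612736 536870912 0) ndB3q2a ndB2q3 pcB0 Cut.none Ext.none)

def k0_pm_203_a : ∃ t, chk3 f_pm_203_a t 1 1 1 = true :=
  ⟨(l 3), by decide +kernel⟩

theorem c_pm_203_a : CertB 0 536870912 1610612736 536870912 536870912 50465866 3 eng mog cd3q2a cd2q3 pd0 false true false .up 2 0 3
    ndB3q2a ndB2q3 pcB0 Cut.none Ext.none :=
  certB1 (fam := false) (s1 := true) (s2 := false) (a := 2) (b := 0) (c := 3) (cn := .up) (n1 := ndB3q2a) (n2 := ndB2q3) (pc := pcB0) (cut := Cut.none) (xt := Ext.none) (P1 := 0) (W1 := 536870912) (P2 := 1610612736) (W2 := 536870912) (P3 := 536870912) (W3 := 50465866) (N0 := 3) (En := eng) (mo := mog) (C1 := cd3q2a) (C2 := cd2q3) (C3 := pd0)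
    rfl (fun _ => rfl) k0_pm_203_a

noncomputable def f_pm_203_b : ℕ → ℕ → ℕ → ℕ → Bool := onCell 1239849684 370763052 1610612736 536870912 536870912 50465866
    (rowB 3 eng mog cd3q2b cd2q3 pd0 0 false true false .up 2 0 3 (qsf 1239849684 370763052 1610612736 536870912 0) ndB3q2b ndB2q3 pcB0 Cut.none Ext.none)

def k0_pm_203_b : ∃ t, chk3 f_pm_203_b t 1 1 1 = true :=
  ⟨(l 3), by decide +kernel⟩

theorem c_pm_203_b : CertB 1239849684 370763052 1610612736 536870912 536870912 50465866 3 eng mog cd3q2b cd2q3 pd0 false true false .up 2 0 3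
    ndB3q2b ndB2q3 pcB0 Cut.none Ext.none :=
  certB0 (fam := false) (s1 := true) (s2 := false) (a := 2) (b := 0) (c := 3) (cn := .up) (n1 := ndB3q2b) (n2 := ndB2q3) (pc := pcB0) (cut := Cut.none) (xt := Ext.none) (P1 := 1239849684) (W1 := 370763052) (P2 := 1610612736) (W2 := 536870912) (P3 := 536870912) (W3 := 50465866) (N0 := 3) (En := eng) (mo := mog) (C1 := cd3q2b) (C2 := cd2q3) (C3 := pd0)
    rfl k0_pm_203_b

noncomputable def cut_pm_213_a : Cut := Cut.of [[⟨0, 1, 0, 67108864⟩, ⟨1, 1, 0, 67108864⟩, ⟨2, 2, 0, 16777216⟩]]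

noncomputable def f_pm_213_a : ℕ → ℕ → ℕ → ℕ → Bool := onCell 0 536870912 1610612736 536870912 536870912 50465866
    (rowB 3 eng mog cd3q2a cd2q3 pd1 0 false true false .pnn 2 1 3 (qsf 0 536870912 1610612736 536870912 1) ndB3q2a ndB2q3 pcB1 cut_pm_213_a Ext.none)

def k0_pm_213_a : ∃ t, chk3 f_pm_213_a t 1 1 1 = true :=
  ⟨(b (l 3) (a (l 3) (b (l 3) (a (l 3) (b (l 3) (a (l 3) (a (l 3) (b (l 3) (b (l 3) (b (l 3) (l 6))))))))))), by decide +kernel⟩

theorem c_pm_213_a : CertB 0 536870912 1610612736 536870912 536870912 50465866 3 eng mog cd3q2a cd2q3 pd1 false true false .pnn 2 1 3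
    ndB3q2a ndB2q3 pcB1 cut_pm_213_a Ext.none :=
  certB0 (fam := false) (s1 := true) (s2 := false) (a := 2) (b := 1) (c := 3) (cn := .pnn) (n1 := ndB3q2a) (n2 := ndB2q3) (pc := pcB1) (cut := cut_pm_213_a) (xt := Ext.none) (P1 := 0) (W1 := 536870912) (P2 := 1610612736) (W2 := 536870912) (P3 := 536870912) (W3 := 50465866) (N0 := 3) (En := eng) (mo := mog) (C1 := cd3q2a) (C2 := cd2q3) (C3 := pd1)
    rfl k0_pm_213_a

noncomputable def cut_pm_213_b : Cut := Cut.of [[⟨0, 1, 0, 67108864⟩, ⟨1, 1, 0, 67108864⟩, ⟨2, 2, 0, 16777216⟩]]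

noncomputable def f_pm_213_b : ℕ → ℕ → ℕ → ℕ → Bool := onCell 1239849684 370763052 1610612736 536870912 536870912 50465866
    (rowB 3 eng mog cd3q2b cd2q3 pd1 0 false true false .pnn 2 1 3 (qsf 1239849684 370763052 1610612736 536870912 1) ndB3q2b ndB2q3 pcB1 cut_pm_213_b Ext.none)

def k0_pm_213_b : ∃ t, chk3 f_pm_213_b t 1 1 1 = true :=
  ⟨(l 3), by decide +kernel⟩

theorem c_pm_213_b : CertB 1239849684 370763052 1610612736 536870912 536870912 50465866 3 eng mog cd3q2b cd2q3 pd1 false true false .pnn 2 1 3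
    ndB3q2b ndB2q3 pcB1 cut_pm_213_b Ext.none :=
  certB0 (fam := false) (s1 := true) (s2 := false) (a := 2) (b := 1) (c := 3) (cn := .pnn) (n1 := ndB3q2b) (n2 := ndB2q3) (pc := pcB1) (cut := cut_pm_213_b) (xt := Ext.none) (P1 := 1239849684) (W1 := 370763052) (P2 := 1610612736) (W2 := 536870912) (P3 := 536870912) (W3 := 50465866) (N0 := 3) (En := eng) (mo := mog) (C1 := cd3q2b) (C2 := cd2q3) (C3 := pd1)
    rfl k0_pm_213_b

noncomputable def f_pm_303 : ℕ → ℕ → ℕ → ℕ → Bool := onCell 1610612736 536870912 1610612736 536870912 536870912 50465866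
    (rowB 3 eng mog cd3q3 cd2q3 pd0 0 false true false .npn 3 0 3 (qsf 1610612736 536870912 1610612736 536870912 0) ndB3q3 ndB2q3 pcB0 Cut.none Ext.none)

def k0_pm_303 : ∃ t, chk3 f_pm_303 t 1 1 1 = true :=
  ⟨(l 3), by decide +kernel⟩

theorem c_pm_303 : CertB 1610612736 536870912 1610612736 536870912 536870912 50465866 3 eng mog cd3q3 cd2q3 pd0 false true false .npn 3 0 3
    ndB3q3 ndB2q3 pcB0 Cut.none Ext.none :=
  certB0 (fam := false) (s1 := true) (s2 := false) (a := 3) (b := 0) (c := 3) (cn := .npn) (n1 := ndB3q3) (n2 := ndB2q3) (pc := pcB0) (cut := Cut.none) (xt := Ext.none) (P1 := 1610612736) (W1 := 536870912) (P2 := 1610612736) (W2 := 536870912) (P3 := 536870912) (W3 := 50465866) (N0 := 3) (En := eng) (mo := mog) (C1 := cd3q3) (C2 := cd2q3) (C3 := pd0)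
    rfl k0_pm_303

noncomputable def f_pm_313 : ℕ → ℕ → ℕ → ℕ → Bool := onCell 1610612736 536870912 1610612736 536870912 536870912 50465866
    (rowB 3 eng mog cd3q3 cd2q3 pd1 0 false true false .dn 3 1 3 (qsf 1610612736 536870912 1610612736 536870912 1) ndB3q3 ndB2q3 pcB1 Cut.none Ext.none)

def k0_pm_313 : ∃ t, chk3 f_pm_313 t 1 1 1 = true :=
  ⟨(l 3), by decide +kernel⟩

theorem c_pm_313 : CertB 1610612736 536870912 1610612736 536870912 536870912 50465866 3 eng mog cd3q3 cd2q3 pd1 false true false .dn 3 1 3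
    ndB3q3 ndB2q3 pcB1 Cut.none Ext.none :=
  certB0 (fam := false) (s1 := true) (s2 := false) (a := 3) (b := 1) (c := 3) (cn := .dn) (n1 := ndB3q3) (n2 := ndB2q3) (pc := pcB1) (cut := Cut.none) (xt := Ext.none) (P1 := 1610612736) (W1 := 536870912) (P2 := 1610612736) (W2 := 536870912) (P3 := 536870912) (W3 := 50465866) (N0 := 3) (En := eng) (mo := mog) (C1 := cd3q3) (C2 := cd2q3) (C3 := pd1)
    rfl k0_pm_313

noncomputable def f_mm_001 : ℕ → ℕ → ℕ → ℕ → Bool := onCell 0 536870912 536870912 536870912 536870912 50465866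
    (rowB 3 eng mog cd3q0 cd2q1 pd0 0 false false false .up 0 0 1 (qsf 0 536870912 536870912 536870912 0) ndB3q0 ndB2q1 pcB0 Cut.none Ext.none)

def k0_mm_001 : ∃ t, chk3 f_mm_001 t 1 1 1 = true :=
  ⟨(l 3), by decide +kernel⟩

theorem c_mm_001 : CertB 0 536870912 536870912 536870912 536870912 50465866 3 eng mog cd3q0 cd2q1 pd0 false false false .up 0 0 1
    ndB3q0 ndB2q1 pcB0 Cut.none Ext.none :=
  certB0 (fam := false) (s1 := false) (s2 := false) (a := 0) (b := 0) (c := 1) (cn := .up) (n1 := ndB3q0) (n2 := ndB2q1) (pc := pcB0) (cut := Cut.none) (xt := Ext.none) (P1 := 0) (W1 := 536870912) (P2 := 536870912) (W2 := 536870912) (P3 := 536870912) (W3 := 50465866) (N0 := 3) (En := eng) (mo := mog) (C1 := cd3q0) (C2 := cd2q1) (C3 := pd0)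
    rfl k0_mm_001

noncomputable def f_mm_011 : ℕ → ℕ → ℕ → ℕ → Bool := onCell 0 536870912 536870912 536870912 536870912 50465866
    (rowB 3 eng mog cd3q0 cd2q1 pd1 0 false false false .pnn 0 1 1 (qsf 0 536870912 536870912 536870912 1) ndB3q0 ndB2q1 pcB1 Cut.none Ext.none)

def k0_mm_011 : ∃ t, chk3 f_mm_011 t 1 1 1 = true :=
  ⟨(l 3), by decide +kernel⟩

theorem c_mm_011 : CertB 0 536870912 536870912 536870912 536870912 50465866 3 eng mog cd3q0 cd2q1 pd1 false false false .pnn 0 1 1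
    ndB3q0 ndB2q1 pcB1 Cut.none Ext.none :=
  certB0 (fam := false) (s1 := false) (s2 := false) (a := 0) (b := 1) (c := 1) (cn := .pnn) (n1 := ndB3q0) (n2 := ndB2q1) (pc := pcB1) (cut := Cut.none) (xt := Ext.none) (P1 := 0) (W1 := 536870912) (P2 := 536870912) (W2 := 536870912) (P3 := 536870912) (W3 := 50465866) (N0 := 3) (En := eng) (mo := mog) (C1 := cd3q0) (C2 := cd2q1) (C3 := pd1)
    rfl k0_mm_011

noncomputable def f_mm_012_a : ℕ → ℕ → ℕ → ℕ → Bool := onCell 0 536870912 0 536870912 536870912 50465866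
    (rowB 3 eng mog cd3q0 cd2q2a pd1 0 false false false .pnp 0 1 2 (qsf 0 536870912 0 536870912 1) ndB3q0 ndB2q2a pcB1 Cut.none Ext.none)

def k0_mm_012_a : ∃ t, chk3 f_mm_012_a t 1 1 1 = true :=
  ⟨(l 5), by decide +kernel⟩

theorem c_mm_012_a : CertB 0 536870912 0 536870912 536870912 50465866 3 eng mog cd3q0 cd2q2a pd1 false false false .pnp 0 1 2
    ndB3q0 ndB2q2a pcB1 Cut.none Ext.none :=
  certB0 (fam := false) (s1 := false) (s2 := false) (a := 0) (b := 1) (c := 2) (cn := .pnp) (n1 := ndB3q0) (n2 := ndB2q2a) (pc := pcB1) (cut := Cut.none) (xt := Ext.none) (P1 := 0) (W1 := 536870912) (P2 := 0) (W2 := 536870912) (P3 := 536870912) (W3 := 50465866) (N0 := 3) (En := eng) (mo := mog) (C1 := cd3q0) (C2 := cd2q2a) (C3 := pd1)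
    rfl k0_mm_012_a

noncomputable def f_mm_012_b : ℕ → ℕ → ℕ → ℕ → Bool := onCell 0 536870912 1239849684 370763052 536870912 50465866
    (rowB 3 eng mog cd3q0 cd2q2b pd1 0 false false false .pnp 0 1 2 (qsf 0 536870912 1239849684 370763052 1) ndB3q0 ndB2q2b pcB1 Cut.none Ext.none)

def k0_mm_012_b : ∃ t, chk3 f_mm_012_b t 1 1 1 = true :=
  ⟨(l 5), by decide +kernel⟩

theorem c_mm_012_b : CertB 0 536870912 1239849684 370763052 536870912 50465866 3 eng mog cd3q0 cd2q2b pd1 false false false .pnp 0 1 2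
    ndB3q0 ndB2q2b pcB1 Cut.none Ext.none :=
  certB0 (fam := false) (s1 := false) (s2 := false) (a := 0) (b := 1) (c := 2) (cn := .pnp) (n1 := ndB3q0) (n2 := ndB2q2b) (pc := pcB1) (cut := Cut.none) (xt := Ext.none) (P1 := 0) (W1 := 536870912) (P2 := 1239849684) (W2 := 370763052) (P3 := 536870912) (W3 := 50465866) (N0 := 3) (En := eng) (mo := mog) (C1 := cd3q0) (C2 := cd2q2b) (C3 := pd1)
    rfl k0_mm_012_b

noncomputable def f_mm_022_a : ℕ → ℕ → ℕ → ℕ → Bool := onCell 0 536870912 0 536870912 536870912 50465866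
    (rowB 3 eng mog cd3q0 cd2q2a pd2 0 false false false .pp 0 2 2 (qsf 0 536870912 0 536870912 2) ndB3q0 ndB2q2a pcB2 Cut.none Ext.none)

def k0_mm_022_a : ∃ t, chk3 f_mm_022_a t 1 1 1 = true :=
  ⟨(l 5), by decide +kernel⟩

theorem c_mm_022_a : CertB 0 536870912 0 536870912 536870912 50465866 3 eng mog cd3q0 cd2q2a pd2 false false false .pp 0 2 2
    ndB3q0 ndB2q2a pcB2 Cut.none Ext.none :=
  certB0 (fam := false) (s1 := false) (s2 := false) (a := 0) (b := 2) (c := 2) (cn := .pp) (n1 := ndB3q0) (n2 := ndB2q2a) (pc := pcB2) (cut := Cut.none) (xt := Ext.none) (P1 := 0) (W1 := 536870912) (P2 := 0) (W2 := 536870912) (P3 := 536870912) (W3 := 50465866) (N0 := 3) (En := eng) (mo := mog) (C1 := cd3q0) (C2 := cd2q2a) (C3 := pd2)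
    rfl k0_mm_022_a

noncomputable def f_mm_022_b : ℕ → ℕ → ℕ → ℕ → Bool := onCell 0 536870912 1239849684 370763052 536870912 50465866
    (rowB 3 eng mog cd3q0 cd2q2b pd2 0 false false false .pp 0 2 2 (qsf 0 536870912 1239849684 370763052 2) ndB3q0 ndB2q2b pcB2 Cut.none Ext.none)

def k0_mm_022_b : ∃ t, chk3 f_mm_022_b t 1 1 1 = true :=
  ⟨(l 5), by decide +kernel⟩

theorem c_mm_022_b : CertB 0 536870912 1239849684 370763052 536870912 50465866 3 eng mog cd3q0 cd2q2b pd2 false false false .pp 0 2 2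
    ndB3q0 ndB2q2b pcB2 Cut.none Ext.none :=
  certB0 (fam := false) (s1 := false) (s2 := false) (a := 0) (b := 2) (c := 2) (cn := .pp) (n1 := ndB3q0) (n2 := ndB2q2b) (pc := pcB2) (cut := Cut.none) (xt := Ext.none) (P1 := 0) (W1 := 536870912) (P2 := 1239849684) (W2 := 370763052) (P3 := 536870912) (W3 := 50465866) (N0 := 3) (En := eng) (mo := mog) (C1 := cd3q0) (C2 := cd2q2b) (C3 := pd2)
    rfl k0_mm_022_b

noncomputable def f_mm_023 : ℕ → ℕ → ℕ → ℕ → Bool := onCell 0 536870912 1610612736 536870912 536870912 50465866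
    (rowB 3 eng mog cd3q0 cd2q3 pd2 0 false false false .up 0 2 3 (qsf 0 536870912 1610612736 536870912 2) ndB3q0 ndB2q3 pcB2 Cut.none Ext.none)

def k0_mm_023 : ∃ t, chk3 f_mm_023 t 1 1 1 = true :=
  ⟨(l 5), by decide +kernel⟩

theorem c_mm_023 : CertB 0 536870912 1610612736 536870912 536870912 50465866 3 eng mog cd3q0 cd2q3 pd2 false false false .up 0 2 3
    ndB3q0 ndB2q3 pcB2 Cut.none Ext.none :=
  certB0 (fam := false) (s1 := false) (s2 := false) (a := 0) (b := 2) (c := 3) (cn := .up) (n1 := ndB3q0) (n2 := ndB2q3) (pc := pcB2) (cut := Cut.none) (xt := Ext.none) (P1 := 0) (W1 := 536870912) (P2 := 1610612736) (W2 := 536870912) (P3 := 536870912) (W3 := 50465866) (N0 := 3) (En := eng) (mo := mog) (C1 := cd3q0) (C2 := cd2q3) (C3 := pd2)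
    rfl k0_mm_023

noncomputable def f_mm_033 : ℕ → ℕ → ℕ → ℕ → Bool := onCell 0 536870912 1610612736 536870912 536870912 50465866
    (rowB 3 eng mog cd3q0 cd2q3 pd3 0 false false false .pnn 0 3 3 (qsf 0 536870912 1610612736 536870912 3) ndB3q0 ndB2q3 pcB3 Cut.none Ext.none)

def k0_mm_033 : ∃ t, chk3 f_mm_033 t 1 1 1 = true :=
  ⟨(l 5), by decide +kernel⟩

theorem c_mm_033 : CertB 0 536870912 1610612736 536870912 536870912 50465866 3 eng mog cd3q0 cd2q3 pd3 false false false .pnn 0 3 3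
    ndB3q0 ndB2q3 pcB3 Cut.none Ext.none :=
  certB0 (fam := false) (s1 := false) (s2 := false) (a := 0) (b := 3) (c := 3) (cn := .pnn) (n1 := ndB3q0) (n2 := ndB2q3) (pc := pcB3) (cut := Cut.none) (xt := Ext.none) (P1 := 0) (W1 := 536870912) (P2 := 1610612736) (W2 := 536870912) (P3 := 536870912) (W3 := 50465866) (N0 := 3) (En := eng) (mo := mog) (C1 := cd3q0) (C2 := cd2q3) (C3 := pd3)
    rfl k0_mm_033

noncomputable def f_mm_101 : ℕ → ℕ → ℕ → ℕ → Bool := onCell 536870912 536870912 536870912 536870912 536870912 50465866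
    (rowB 3 eng mog cd3q1 cd2q1 pd0 0 false false false .npn 1 0 1 (qsf 536870912 536870912 536870912 536870912 0) ndB3q1 ndB2q1 pcB0 Cut.none Ext.none)

def k0_mm_101 : ∃ t, chk3 f_mm_101 t 1 1 1 = true :=
  ⟨(l 3), by decide +kernel⟩

theorem c_mm_101 : CertB 536870912 536870912 536870912 536870912 536870912 50465866 3 eng mog cd3q1 cd2q1 pd0 false false false .npn 1 0 1
    ndB3q1 ndB2q1 pcB0 Cut.none Ext.none :=
  certB0 (fam := false) (s1 := false) (s2 := false) (a := 1) (b := 0) (c := 1) (cn := .npn) (n1 := ndB3q1) (n2 := ndB2q1) (pc := pcB0) (cut := Cut.none) (xt := Ext.none) (P1 := 536870912) (W1 := 536870912) (P2 := 536870912) (W2 := 536870912) (P3 := 536870912) (W3 := 50465866) (N0 := 3) (En := eng) (mo := mog) (C1 := cd3q1) (C2 := cd2q1) (C3 := pd0)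
    rfl k0_mm_101

noncomputable def f_mm_102_a : ℕ → ℕ → ℕ → ℕ → Bool := onCell 536870912 536870912 0 536870912 536870912 50465866
    (rowB 3 eng mog cd3q1 cd2q2a pd0 0 false false false .npp 1 0 2 (qsf 536870912 536870912 0 536870912 0) ndB3q1 ndB2q2a pcB0 Cut.none Ext.none)

def k0_mm_102_a : ∃ t, chk3 f_mm_102_a t 1 1 1 = true :=
  ⟨(l 5), by decide +kernel⟩

theorem c_mm_102_a : CertB 536870912 536870912 0 536870912 536870912 50465866 3 eng mog cd3q1 cd2q2a pd0 false false false .npp 1 0 2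
    ndB3q1 ndB2q2a pcB0 Cut.none Ext.none :=
  certB0 (fam := false) (s1 := false) (s2 := false) (a := 1) (b := 0) (c := 2) (cn := .npp) (n1 := ndB3q1) (n2 := ndB2q2a) (pc := pcB0) (cut := Cut.none) (xt := Ext.none) (P1 := 536870912) (W1 := 536870912) (P2 := 0) (W2 := 536870912) (P3 := 536870912) (W3 := 50465866) (N0 := 3) (En := eng) (mo := mog) (C1 := cd3q1) (C2 := cd2q2a) (C3 := pd0)
    rfl k0_mm_102_a

noncomputable def f_mm_102_b : ℕ → ℕ → ℕ → ℕ → Bool := onCell 536870912 536870912 1239849684 370763052 536870912 50465866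
    (rowB 3 eng mog cd3q1 cd2q2b pd0 0 false false false .npp 1 0 2 (qsf 536870912 536870912 1239849684 370763052 0) ndB3q1 ndB2q2b pcB0 Cut.none Ext.none)

def k0_mm_102_b : ∃ t, chk3 f_mm_102_b t 1 1 1 = true :=
  ⟨(l 5), by decide +kernel⟩

theorem c_mm_102_b : CertB 536870912 536870912 1239849684 370763052 536870912 50465866 3 eng mog cd3q1 cd2q2b pd0 false false false .npp 1 0 2
    ndB3q1 ndB2q2b pcB0 Cut.none Ext.none :=
  certB0 (fam := false) (s1 := false) (s2 := false) (a := 1) (b := 0) (c := 2) (cn := .npp) (n1 := ndB3q1) (n2 := ndB2q2b) (pc := pcB0) (cut := Cut.none) (xt := Ext.none) (P1 := 536870912) (W1 := 536870912) (P2 := 1239849684) (W2 := 370763052) (P3 := 536870912) (W3 := 50465866) (N0 := 3) (En := eng) (mo := mog) (C1 := cd3q1) (C2 := cd2q2b) (C3 := pd0)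
    rfl k0_mm_102_b

noncomputable def f_mm_112_a : ℕ → ℕ → ℕ → ℕ → Bool := onCell 536870912 536870912 0 536870912 536870912 50465866
    (rowB 3 eng mog cd3q1 cd2q2a pd1 0 false false false .dn 1 1 2 (qsf 536870912 536870912 0 536870912 1) ndB3q1 ndB2q2a pcB1 Cut.none Ext.none)

def k0_mm_112_a : ∃ t, chk3 f_mm_112_a t 1 1 1 = true :=
  ⟨(l 5), by decide +kernel⟩

theorem c_mm_112_a : CertB 536870912 536870912 0 536870912 536870912 50465866 3 eng mog cd3q1 cd2q2a pd1 false false false .dn 1 1 2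
    ndB3q1 ndB2q2a pcB1 Cut.none Ext.none :=
  certB0 (fam := false) (s1 := false) (s2 := false) (a := 1) (b := 1) (c := 2) (cn := .dn) (n1 := ndB3q1) (n2 := ndB2q2a) (pc := pcB1) (cut := Cut.none) (xt := Ext.none) (P1 := 536870912) (W1 := 536870912) (P2 := 0) (W2 := 536870912) (P3 := 536870912) (W3 := 50465866) (N0 := 3) (En := eng) (mo := mog) (C1 := cd3q1) (C2 := cd2q2a) (C3 := pd1)
    rfl k0_mm_112_a

noncomputable def f_mm_112_b : ℕ → ℕ → ℕ → ℕ → Bool := onCell 536870912 536870912 1239849684 370763052 536870912 50465866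
    (rowB 3 eng mog cd3q1 cd2q2b pd1 0 false false false .dn 1 1 2 (qsf 536870912 536870912 1239849684 370763052 1) ndB3q1 ndB2q2b pcB1 Cut.none Ext.none)

def k0_mm_112_b : ∃ t, chk3 f_mm_112_b t 1 1 1 = true :=
  ⟨(l 5), by decide +kernel⟩

theorem c_mm_112_b : CertB 536870912 536870912 1239849684 370763052 536870912 50465866 3 eng mog cd3q1 cd2q2b pd1 false false false .dn 1 1 2
    ndB3q1 ndB2q2b pcB1 Cut.none Ext.none :=
  certB0 (fam := false) (s1 := false) (s2 := false) (a := 1) (b := 1) (c := 2) (cn := .dn) (n1 := ndB3q1) (n2 := ndB2q2b) (pc := pcB1) (cut := Cut.none) (xt := Ext.none) (P1 := 536870912) (W1 := 536870912) (P2 := 1239849684) (W2 := 370763052) (P3 := 536870912) (W3 := 50465866) (N0 := 3) (En := eng) (mo := mog) (C1 := cd3q1) (C2 := cd2q2b) (C3 := pd1)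
    rfl k0_mm_112_b

noncomputable def f_mm_113 : ℕ → ℕ → ℕ → ℕ → Bool := onCell 536870912 536870912 1610612736 536870912 536870912 50465866
    (rowB 3 eng mog cd3q1 cd2q3 pd1 0 false false false .nn 1 1 3 (qsf 536870912 536870912 1610612736 536870912 1) ndB3q1 ndB2q3 pcB1 Cut.none Ext.none)

def k0_mm_113 : ∃ t, chk3 f_mm_113 t 1 1 1 = true :=
  ⟨(l 5), by decide +kernel⟩

theorem c_mm_113 : CertB 536870912 536870912 1610612736 536870912 536870912 50465866 3 eng mog cd3q1 cd2q3 pd1 false false false .nn 1 1 3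
    ndB3q1 ndB2q3 pcB1 Cut.none Ext.none :=
  certB0 (fam := false) (s1 := false) (s2 := false) (a := 1) (b := 1) (c := 3) (cn := .nn) (n1 := ndB3q1) (n2 := ndB2q3) (pc := pcB1) (cut := Cut.none) (xt := Ext.none) (P1 := 536870912) (W1 := 536870912) (P2 := 1610612736) (W2 := 536870912) (P3 := 536870912) (W3 := 50465866) (N0 := 3) (En := eng) (mo := mog) (C1 := cd3q1) (C2 := cd2q3) (C3 := pd1)
    rfl k0_mm_113

noncomputable def f_mm_123 : ℕ → ℕ → ℕ → ℕ → Bool := onCell 536870912 536870912 1610612736 536870912 536870912 50465866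
    (rowB 3 eng mog cd3q1 cd2q3 pd2 0 false false false .npn 1 2 3 (qsf 536870912 536870912 1610612736 536870912 2) ndB3q1 ndB2q3 pcB2 Cut.none Ext.none)

def k0_mm_123 : ∃ t, chk3 f_mm_123 t 1 1 1 = true :=
  ⟨(l 5), by decide +kernel⟩

theorem c_mm_123 : CertB 536870912 536870912 1610612736 536870912 536870912 50465866 3 eng mog cd3q1 cd2q3 pd2 false false false .npn 1 2 3
    ndB3q1 ndB2q3 pcB2 Cut.none Ext.none :=
  certB0 (fam := false) (s1 := false) (s2 := false) (a := 1) (b := 2) (c := 3) (cn := .npn) (n1 := ndB3q1) (n2 := ndB2q3) (pc := pcB2) (cut := Cut.none) (xt := Ext.none) (P1 := 536870912) (W1 := 536870912) (P2 := 1610612736) (W2 := 536870912) (P3 := 536870912) (W3 := 50465866) (N0 := 3) (En := eng) (mo := mog) (C1 := cd3q1) (C2 := cd2q3) (C3 := pd2)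
    rfl k0_mm_123

noncomputable def f_mm_133 : ℕ → ℕ → ℕ → ℕ → Bool := onCell 536870912 536870912 1610612736 536870912 536870912 50465866
    (rowB 3 eng mog cd3q1 cd2q3 pd3 0 false false false .dn 1 3 3 (qsf 536870912 536870912 1610612736 536870912 3) ndB3q1 ndB2q3 pcB3 Cut.none Ext.none)

def k0_mm_133 : ∃ t, chk3 f_mm_133 t 1 1 1 = true :=
  ⟨(l 5), by decide +kernel⟩

theorem c_mm_133 : CertB 536870912 536870912 1610612736 536870912 536870912 50465866 3 eng mog cd3q1 cd2q3 pd3 false false false .dn 1 3 3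
    ndB3q1 ndB2q3 pcB3 Cut.none Ext.none :=
  certB0 (fam := false) (s1 := false) (s2 := false) (a := 1) (b := 3) (c := 3) (cn := .dn) (n1 := ndB3q1) (n2 := ndB2q3) (pc := pcB3) (cut := Cut.none) (xt := Ext.none) (P1 := 536870912) (W1 := 536870912) (P2 := 1610612736) (W2 := 536870912) (P3 := 536870912) (W3 := 50465866) (N0 := 3) (En := eng) (mo := mog) (C1 := cd3q1) (C2 := cd2q3) (C3 := pd3)
    rfl k0_mm_133

noncomputable def f_mm_202_aa : ℕ → ℕ → ℕ → ℕ → Bool := onCell 0 536870912 0 536870912 536870912 50465866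
    (rowB 3 eng mog cd3q2a cd2q2a pd0 0 false false false .pp 2 0 2 (qsf 0 536870912 0 536870912 0) ndB3q2a ndB2q2a pcB0 Cut.none Ext.none)

def k0_mm_202_aa : ∃ t, chk3 f_mm_202_aa t 1 1 1 = true :=
  ⟨(l 3), by decide +kernel⟩

theorem c_mm_202_aa : CertB 0 536870912 0 536870912 536870912 50465866 3 eng mog cd3q2a cd2q2a pd0 false false false .pp 2 0 2
    ndB3q2a ndB2q2a pcB0 Cut.none Ext.none :=
  certB0 (fam := false) (s1 := false) (s2 := false) (a := 2) (b := 0) (c := 2) (cn := .pp) (n1 := ndB3q2a) (n2 := ndB2q2a) (pc := pcB0) (cut := Cut.none) (xt := Ext.none) (P1 := 0) (W1 := 536870912) (P2 := 0) (W2 := 536870912) (P3 := 536870912) (W3 := 50465866) (N0 := 3) (En := eng) (mo := mog) (C1 := cd3q2a) (C2 := cd2q2a) (C3 := pd0)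
    rfl k0_mm_202_aa

noncomputable def f_mm_202_ab : ℕ → ℕ → ℕ → ℕ → Bool := onCell 0 536870912 1239849684 370763052 536870912 50465866
    (rowB 3 eng mog cd3q2a cd2q2b pd0 0 false false false .pp 2 0 2 (qsf 0 536870912 1239849684 370763052 0) ndB3q2a ndB2q2b pcB0 Cut.none Ext.none)

def k0_mm_202_ab : ∃ t, chk3 f_mm_202_ab t 1 1 1 = true :=
  ⟨(l 3), by decide +kernel⟩

theorem c_mm_202_ab : CertB 0 536870912 1239849684 370763052 536870912 50465866 3 eng mog cd3q2a cd2q2b pd0 false false false .pp 2 0 2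
    ndB3q2a ndB2q2b pcB0 Cut.none Ext.none :=
  certB0 (fam := false) (s1 := false) (s2 := false) (a := 2) (b := 0) (c := 2) (cn := .pp) (n1 := ndB3q2a) (n2 := ndB2q2b) (pc := pcB0) (cut := Cut.none) (xt := Ext.none) (P1 := 0) (W1 := 536870912) (P2 := 1239849684) (W2 := 370763052) (P3 := 536870912) (W3 := 50465866) (N0 := 3) (En := eng) (mo := mog) (C1 := cd3q2a) (C2 := cd2q2b) (C3 := pd0)
    rfl k0_mm_202_ab

noncomputable def f_mm_202_ba : ℕ → ℕ → ℕ → ℕ → Bool := onCell 1239849684 370763052 0 536870912 536870912 50465866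
    (rowB 3 eng mog cd3q2b cd2q2a pd0 0 false false false .pp 2 0 2 (qsf 1239849684 370763052 0 536870912 0) ndB3q2b ndB2q2a pcB0 Cut.none Ext.none)

def k0_mm_202_ba : ∃ t, chk3 f_mm_202_ba t 1 1 1 = true :=
  ⟨(l 3), by decide +kernel⟩

theorem c_mm_202_ba : CertB 1239849684 370763052 0 536870912 536870912 50465866 3 eng mog cd3q2b cd2q2a pd0 false false false .pp 2 0 2
    ndB3q2b ndB2q2a pcB0 Cut.none Ext.none :=
  certB0 (fam := false) (s1 := false) (s2 := false) (a := 2) (b := 0) (c := 2) (cn := .pp) (n1 := ndB3q2b) (n2 := ndB2q2a) (pc := pcB0) (cut := Cut.none) (xt := Ext.none) (P1 := 1239849684) (W1 := 370763052) (P2 := 0) (W2 := 536870912) (P3 := 536870912) (W3 := 50465866) (N0 := 3) (En := eng) (mo := mog) (C1 := cd3q2b) (C2 := cd2q2a) (C3 := pd0)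
    rfl k0_mm_202_ba

noncomputable def f_mm_202_bb : ℕ → ℕ → ℕ → ℕ → Bool := onCell 1239849684 370763052 1239849684 370763052 536870912 50465866
    (rowB 3 eng mog cd3q2b cd2q2b pd0 0 false false false .pp 2 0 2 (qsf 1239849684 370763052 1239849684 370763052 0) ndB3q2b ndB2q2b pcB0 Cut.none Ext.none)

def k0_mm_202_bb : ∃ t, chk3 f_mm_202_bb t 1 1 1 = true :=
  ⟨(l 3), by decide +kernel⟩

theorem c_mm_202_bb : CertB 1239849684 370763052 1239849684 370763052 536870912 50465866 3 eng mog cd3q2b cd2q2b pd0 false false false .pp 2 0 2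
    ndB3q2b ndB2q2b pcB0 Cut.none Ext.none :=
  certB0 (fam := false) (s1 := false) (s2 := false) (a := 2) (b := 0) (c := 2) (cn := .pp) (n1 := ndB3q2b) (n2 := ndB2q2b) (pc := pcB0) (cut := Cut.none) (xt := Ext.none) (P1 := 1239849684) (W1 := 370763052) (P2 := 1239849684) (W2 := 370763052) (P3 := 536870912) (W3 := 50465866) (N0 := 3) (En := eng) (mo := mog) (C1 := cd3q2b) (C2 := cd2q2b) (C3 := pd0)
    rfl k0_mm_202_bb

noncomputable def f_mm_203_a : ℕ → ℕ → ℕ → ℕ → Bool := onCell 0 536870912 1610612736 536870912 536870912 50465866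
    (rowB 3 eng mog cd3q2a cd2q3 pd0 0 false false false .up 2 0 3 (qsf 0 536870912 1610612736 536870912 0) ndB3q2a ndB2q3 pcB0 Cut.none Ext.none)

def k0_mm_203_a : ∃ t, chk3 f_mm_203_a t 1 1 1 = true :=
  ⟨(l 5), by decide +kernel⟩

theorem c_mm_203_a : CertB 0 536870912 1610612736 536870912 536870912 50465866 3 eng mog cd3q2a cd2q3 pd0 false false false .up 2 0 3
    ndB3q2a ndB2q3 pcB0 Cut.none Ext.none :=
  certB0 (fam := false) (s1 := false) (s2 := false) (a := 2) (b := 0) (c := 3) (cn := .up) (n1 := ndB3q2a) (n2 := ndB2q3) (pc := pcB0) (cut := Cut.none) (xt := Ext.none) (P1 := 0) (W1 := 536870912) (P2 := 1610612736) (W2 := 536870912) (P3 := 536870912) (W3 := 50465866) (N0 := 3) (En := eng) (mo := mog) (C1 := cd3q2a) (C2 := cd2q3) (C3 := pd0)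
    rfl k0_mm_203_a

noncomputable def f_mm_203_b : ℕ → ℕ → ℕ → ℕ → Bool := onCell 1239849684 370763052 1610612736 536870912 536870912 50465866
    (rowB 3 eng mog cd3q2b cd2q3 pd0 0 false false false .up 2 0 3 (qsf 1239849684 370763052 1610612736 536870912 0) ndB3q2b ndB2q3 pcB0 Cut.none Ext.none)

def k0_mm_203_b : ∃ t, chk3 f_mm_203_b t 1 1 1 = true :=
  ⟨(l 3), by decide +kernel⟩

theorem c_mm_203_b : CertB 1239849684 370763052 1610612736 536870912 536870912 50465866 3 eng mog cd3q2b cd2q3 pd0 false false false .up 2 0 3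
    ndB3q2b ndB2q3 pcB0 Cut.none Ext.none :=
  certB0 (fam := false) (s1 := false) (s2 := false) (a := 2) (b := 0) (c := 3) (cn := .up) (n1 := ndB3q2b) (n2 := ndB2q3) (pc := pcB0) (cut := Cut.none) (xt := Ext.none) (P1 := 1239849684) (W1 := 370763052) (P2 := 1610612736) (W2 := 536870912) (P3 := 536870912) (W3 := 50465866) (N0 := 3) (En := eng) (mo := mog) (C1 := cd3q2b) (C2 := cd2q3) (C3 := pd0)
    rfl k0_mm_203_b

noncomputable def f_mm_213_a : ℕ → ℕ → ℕ → ℕ → Bool := onCell 0 536870912 1610612736 536870912 536870912 50465866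
    (rowB 3 eng mog cd3q2a cd2q3 pd1 0 false false false .pnn 2 1 3 (qsf 0 536870912 1610612736 536870912 1) ndB3q2a ndB2q3 pcB1 Cut.none Ext.none)

def k0_mm_213_a : ∃ t, chk3 f_mm_213_a t 1 1 1 = true :=
  ⟨(l 5), by decide +kernel⟩

theorem c_mm_213_a : CertB 0 536870912 1610612736 536870912 536870912 50465866 3 eng mog cd3q2a cd2q3 pd1 false false false .pnn 2 1 3
    ndB3q2a ndB2q3 pcB1 Cut.none Ext.none :=
  certB0 (fam := false) (s1 := false) (s2 := false) (a := 2) (b := 1) (c := 3) (cn := .pnn) (n1 := ndB3q2a) (n2 := ndB2q3) (pc := pcB1) (cut := Cut.none) (xt := Ext.none) (P1 := 0) (W1 := 536870912) (P2 := 1610612736) (W2 := 536870912) (P3 := 536870912) (W3 := 50465866) (N0 := 3) (En := eng) (mo := mog) (C1 := cd3q2a) (C2 := cd2q3) (C3 := pd1)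
    rfl k0_mm_213_a

noncomputable def f_mm_213_b : ℕ → ℕ → ℕ → ℕ → Bool := onCell 1239849684 370763052 1610612736 536870912 536870912 50465866
    (rowB 3 eng mog cd3q2b cd2q3 pd1 0 false false false .pnn 2 1 3 (qsf 1239849684 370763052 1610612736 536870912 1) ndB3q2b ndB2q3 pcB1 Cut.none Ext.none)

def k0_mm_213_b : ∃ t, chk3 f_mm_213_b t 1 1 1 = true :=
  ⟨(l 3), by decide +kernel⟩

theorem c_mm_213_b : CertB 1239849684 370763052 1610612736 536870912 536870912 50465866 3 eng mog cd3q2b cd2q3 pd1 false false false .pnn 2 1 3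
    ndB3q2b ndB2q3 pcB1 Cut.none Ext.none :=
  certB0 (fam := false) (s1 := false) (s2 := false) (a := 2) (b := 1) (c := 3) (cn := .pnn) (n1 := ndB3q2b) (n2 := ndB2q3) (pc := pcB1) (cut := Cut.none) (xt := Ext.none) (P1 := 1239849684) (W1 := 370763052) (P2 := 1610612736) (W2 := 536870912) (P3 := 536870912) (W3 := 50465866) (N0 := 3) (En := eng) (mo := mog) (C1 := cd3q2b) (C2 := cd2q3) (C3 := pd1)
    rfl k0_mm_213_b

noncomputable def f_mm_303 : ℕ → ℕ → ℕ → ℕ → Bool := onCell 1610612736 536870912 1610612736 536870912 536870912 50465866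
    (rowB 3 eng mog cd3q3 cd2q3 pd0 0 false false false .npn 3 0 3 (qsf 1610612736 536870912 1610612736 536870912 0) ndB3q3 ndB2q3 pcB0 Cut.none Ext.none)

def k0_mm_303 : ∃ t, chk3 f_mm_303 t 1 1 1 = true :=
  ⟨(l 3), by decide +kernel⟩

theorem c_mm_303 : CertB 1610612736 536870912 1610612736 536870912 536870912 50465866 3 eng mog cd3q3 cd2q3 pd0 false false false .npn 3 0 3
    ndB3q3 ndB2q3 pcB0 Cut.none Ext.none :=
  certB0 (fam := false) (s1 := false) (s2 := false) (a := 3) (b := 0) (c := 3) (cn := .npn) (n1 := ndB3q3) (n2 := ndB2q3) (pc := pcB0) (cut := Cut.none) (xt := Ext.none) (P1 := 1610612736) (W1 := 536870912) (P2 := 1610612736) (W2 := 536870912) (P3 := 536870912) (W3 := 50465866) (N0 := 3) (En := eng) (mo := mog) (C1 := cd3q3) (C2 := cd2q3) (C3 := pd0)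
    rfl k0_mm_303

noncomputable def f_mm_313 : ℕ → ℕ → ℕ → ℕ → Bool := onCell 1610612736 536870912 1610612736 536870912 536870912 50465866
    (rowB 3 eng mog cd3q3 cd2q3 pd1 0 false false false .dn 3 1 3 (qsf 1610612736 536870912 1610612736 536870912 1) ndB3q3 ndB2q3 pcB1 Cut.none Ext.none)

def k0_mm_313 : ∃ t, chk3 f_mm_313 t 1 1 1 = true :=
  ⟨(l 3), by decide +kernel⟩

theorem c_mm_313 : CertB 1610612736 536870912 1610612736 536870912 536870912 50465866 3 eng mog cd3q3 cd2q3 pd1 false false false .dn 3 1 3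
    ndB3q3 ndB2q3 pcB1 Cut.none Ext.none :=
  certB0 (fam := false) (s1 := false) (s2 := false) (a := 3) (b := 1) (c := 3) (cn := .dn) (n1 := ndB3q3) (n2 := ndB2q3) (pc := pcB1) (cut := Cut.none) (xt := Ext.none) (P1 := 1610612736) (W1 := 536870912) (P2 := 1610612736) (W2 := 536870912) (P3 := 536870912) (W3 := 50465866) (N0 := 3) (En := eng) (mo := mog) (C1 := cd3q3) (C2 := cd2q3) (C3 := pd1)
    rfl k0_mm_313

end Pool.Agent.Strip051.G.I5000_5470.Tab.C.BB32

namespace Pool.Agent.Strip051.G.I5000_5470.Tab.C.BB33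

open Pool.Agent.Strip051.PB Pool.Agent.Strip051.PB.T
open Pool.Agent.Strip051.G.I5000_5470.Tab

noncomputable def f_pp_001 : ℕ → ℕ → ℕ → ℕ → Bool := onCell 0 536870912 536870912 536870912 536870912 50465866
    (rowB 3 eng mog cd3q0 cd3q1 pd0 0 false true true .up 0 0 1 (qsf 0 536870912 536870912 536870912 0) ndB3q0 ndB3q1 pcB0 Cut.none Ext.none)

def k0_pp_001 : ∃ t, chk3 f_pp_001 t 1 1 1 = true :=
  ⟨(l 3), by decide +kernel⟩

theorem c_pp_001 : CertB 0 536870912 536870912 536870912 536870912 50465866 3 eng mog cd3q0 cd3q1 pd0 false true true .up 0 0 1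
    ndB3q0 ndB3q1 pcB0 Cut.none Ext.none :=
  certB0 (fam := false) (s1 := true) (s2 := true) (a := 0) (b := 0) (c := 1) (cn := .up) (n1 := ndB3q0) (n2 := ndB3q1) (pc := pcB0) (cut := Cut.none) (xt := Ext.none) (P1 := 0) (W1 := 536870912) (P2 := 536870912) (W2 := 536870912) (P3 := 536870912) (W3 := 50465866) (N0 := 3) (En := eng) (mo := mog) (C1 := cd3q0) (C2 := cd3q1) (C3 := pd0)
    rfl k0_pp_001

noncomputable def f_pp_011 : ℕ → ℕ → ℕ → ℕ → Bool := onCell 0 536870912 536870912 536870912 536870912 50465866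
    (rowB 3 eng mog cd3q0 cd3q1 pd1 0 false true true .pnn 0 1 1 (qsf 0 536870912 536870912 536870912 1) ndB3q0 ndB3q1 pcB1 Cut.none Ext.none)

def k0_pp_011 : ∃ t, chk3 f_pp_011 t 1 1 1 = true :=
  ⟨(l 3), by decide +kernel⟩

theorem c_pp_011 : CertB 0 536870912 536870912 536870912 536870912 50465866 3 eng mog cd3q0 cd3q1 pd1 false true true .pnn 0 1 1
    ndB3q0 ndB3q1 pcB1 Cut.none Ext.none :=
  certB0 (fam := false) (s1 := true) (s2 := true) (a := 0) (b := 1) (c := 1) (cn := .pnn) (n1 := ndB3q0) (n2 := ndB3q1) (pc := pcB1) (cut := Cut.none) (xt := Ext.none) (P1 := 0) (W1 := 536870912) (P2 := 536870912) (W2 := 536870912) (P3 := 536870912) (W3 := 50465866) (N0 := 3) (En := eng) (mo := mog) (C1 := cd3q0) (C2 := cd3q1) (C3 := pd1)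
    rfl k0_pp_011

noncomputable def cut_pp_012_a : Cut := Cut.of [[⟨0, 0, 0, 67108864⟩, ⟨1, 1, 0, 67108864⟩, ⟨2, 1, 0, 67108864⟩]]

noncomputable def f_pp_012_a : ℕ → ℕ → ℕ → ℕ → Bool := onCell 536870912 536870912 0 536870912 536870912 50465866
    (rowB 3 eng mog cd3q0 cd3q2a pd1 2 false true true .pnp 0 1 2 (qsf 0 536870912 0 536870912 1) ndB3q0 ndB3q2a pcB1 cut_pp_012_a Ext.none)

def k0_pp_012_a : ∃ t, chk3 f_pp_012_a t 1 1 1 = true :=
  ⟨(a (a (b (a (l 2) (b (l 2) (l 123043745351))) (b (a (l 2) (b (l 299741405687) (l 3))) (l 3))) (b (a (b (l 16630344) (a (l 16588648) (l 16614440))) (b (l 16711448) (a (l 16640640) (l 16669984)))) (b (b (a (a (l 16633768) (l 16654408)) (l 16767376)) (a (a (l 297057401767) (l 16734608)) (a (l 16752624) (l 16750176)))) (a (l 3) (b (a (l 3) (b (l 16812608) (l 3))) (l 3)))))) (a (b (a (b (l 16759624) (a (l 16698856) (l 16735752))) (b (l 16759416) (a (l 16763600) (l 16766616)))) (b (a (b (a (l 16715408) (l 16730960))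 (a (l 16767544) (l 16770112))) (b (l 16866840) (a (l 16758112) (l 16747416)))) (a (b (a (b (l 16823408) (l 3)) (l 16931760)) (l 3)) (b (a (b (l 16792184) (l 16821768)) (b (l 16771664) (l 16797064))) (b (a (l 291688997367) (a (l 16834000) (l 292762629447))) (l 3)))))) (b (a (b (l 16710784) (a (l 16751888) (l 16726072))) (b (l 16643816) (a (l 16693144) (l 16675616)))) (a (b (b (a (l 16766272) (l 16751456)) (a (l 16750872) (l 16764360))) (b (a (b (l 16755536) (l 16795936)) (b (l 16756040) (l 16762728))) (b (a (a (l 274508986071) (l 257329123015)) (a (l 16791928) (l 16784360))) (a (l 3) (b (a (l 239075495463) (l 248202285111)) (l 3)))))) (b (a (b (l 16721928) (a (l 16750320) (l 16734408))) (b (l 16682752) (a (l 16715672) (l 16695984)))) (b (a (b (l 16759232) (l 16768008)) (a (b (l 16735424) (l 16750856)) (b (l 16716944) (a (l 16737784) (l 16728960))))) (a (a (b (l 16776728) (b (l 76403570391) (l 299741816727))) (b (l 16790576) (b (l 16809576) (l 6))))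 (b (a (b (l 16763536) (l 6)) (l 6)) (l 6))))))))), by decide +kernel⟩

theorem c_pp_012_a : CertB 0 536870912 0 536870912 536870912 50465866 3 eng mog cd3q0 cd3q2a pd1 false true true .pnp 0 1 2
    ndB3q0 ndB3q2a pcB1 cut_pp_012_a Ext.none :=
  certB2 (fam := false) (s1 := true) (s2 := true) (a := 0) (b := 1) (c := 2) (cn := .pnp) (n1 := ndB3q0) (n2 := ndB3q2a) (pc := pcB1) (cut := cut_pp_012_a) (xt := Ext.none) (P1 := 0) (W1 := 536870912) (P2 := 0) (W2 := 536870912) (P3 := 536870912) (W3 := 50465866) (N0 := 3) (En := eng) (mo := mog) (C1 := cd3q0) (C2 := cd3q2a) (C3 := pd1)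
    rfl (fun _ => rfl) k0_pp_012_a

noncomputable def cut_pp_012_b : Cut := Cut.of [[⟨0, 0, 0, 67108864⟩, ⟨1, 1, 0, 67108864⟩, ⟨2, 1, 0, 67108864⟩]]

noncomputable def f_pp_012_b : ℕ → ℕ → ℕ → ℕ → Bool := onCell 536870912 536870912 1239849684 370763052 536870912 50465866
    (rowB 3 eng mog cd3q0 cd3q2b pd1 2 false true true .pnp 0 1 2 (qsf 0 536870912 1239849684 370763052 1) ndB3q0 ndB3q2b pcB1 cut_pp_012_b Ext.none)

def k0_pp_012_b : ∃ t, chk3 f_pp_012_b t 1 1 1 = true :=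
  ⟨(a (a (l 2) (b (a (b (b (l 16694456) (l 2)) (l 2)) (b (l 16762160) (l 16819760))) (l 2))) (a (b (b (a (l 16774744) (b (l 16745704) (l 16744072))) (a (l 16814896) (l 16767888))) (b (l 16884600) (l 2))) (b (b (a (b (l 16681176) (l 16659776)) (b (l 16610648) (l 16570128))) (a (l 16670160) (b (l 16543088) (l 16540216)))) (b (a (l 16751648) (l 16597440)) (l 16897336))))), by decide +kernel⟩

theorem c_pp_012_b : CertB 0 536870912 1239849684 370763052 536870912 50465866 3 eng mog cd3q0 cd3q2b pd1 false true true .pnp 0 1 2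
    ndB3q0 ndB3q2b pcB1 cut_pp_012_b Ext.none :=
  certB2 (fam := false) (s1 := true) (s2 := true) (a := 0) (b := 1) (c := 2) (cn := .pnp) (n1 := ndB3q0) (n2 := ndB3q2b) (pc := pcB1) (cut := cut_pp_012_b) (xt := Ext.none) (P1 := 0) (W1 := 536870912) (P2 := 1239849684) (W2 := 370763052) (P3 := 536870912) (W3 := 50465866) (N0 := 3) (En := eng) (mo := mog) (C1 := cd3q0) (C2 := cd3q2b) (C3 := pd1)
    rfl (fun _ => rfl) k0_pp_012_b

noncomputable def cut_pp_022_a : Cut := Cut.of [[⟨0, 0, 0, 67108864⟩, ⟨1, 1, 0, 67108864⟩, ⟨2, 1, 0, 67108864⟩]]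

noncomputable def f_pp_022_a : ℕ → ℕ → ℕ → ℕ → Bool := onCell 0 536870912 0 536870912 536870912 50465866
    (rowB 3 eng mog cd3q0 cd3q2a pd2 0 false true true .pp 0 2 2 (qsf 0 536870912 0 536870912 2) ndB3q0 ndB3q2a pcB2 cut_pp_022_a Ext.none)

def k0_pp_022_a : ∃ t, chk3 f_pp_022_a t 4 1 1 = true :=
  ⟨(b (a (a (b (a (a (a (b (a (a (a (a (a (b (b (c (l 16498328) (b (l 16485784) (l 16485520))) (l 16492144)) (l 16492752)) (b (b (l 16492352) (l 16492152)) (l 16492792))) (b (l 16492352) (l 16492864))) (b (l 16492424) (l 16493016))) (b (l 16492688) (l 16493344))) (l 16493856)) (b (l 16496176) (l 16500608))) (b (l 16495288) (l 16500752))) (b (l 16498264) (l 16504072))) (b (l 16504056) (l 16510384))) (a (b (a (b (l 16508368) (l 16537992)) (l 16517888)) (a (a (b (l 16526448) (l 16539624)) (l 16567608)) (l 16540464))) (b (l 16524976) (l 16674368)))) (b (l 16622976) (a (l 16588064) (l 16558024)))) (b (l 16642640) (a (l 16584832) (l 16613896)))) (b (a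 (b (c (a (a (a (b (l 16560304) (l 16599496)) (l 16596112)) (l 16582768)) (l 16605776)) (a (a (a (b (l 16574192) (a (l 16570344) (l 16574360))) (l 16570544)) (l 16602168)) (l 16602360))) (a (a (a (b (a (c (l 16598208) (l 16602968)) (l 16599312)) (a (b (a (l 16612840) (l 16614808)) (a (l 16626152) (l 16628176))) (l 16624456))) (b (l 16604696) (a (l 16628272) (l 16631968)))) (a (l 16666448) (l 16631232))) (b (l 16638920) (a (l 16657392) (l 16672112))))) (b (a (b (l 16625264) (l 16645408)) (l 16660976)) (a (b (l 16667336) (l 76269119319)) (b (l 16690712) (l 1))))) (b (b (a (b (a (a (a (a (c (l 16643160) (l 16639208)) (l 16645480)) (l 16651384)) (l 16663000)) (a (l 16678672) (l 16692368))) (a (a (a (a (c (l 16658040) (l 16665136)) (l 16660736)) (l 16666792)) (l 16678728)) (a (l 16693592) (l 16706592)))) (a (a (l 300144332071) (l 1)) (l 1))) (a (a (l 6) (a (l 6) (b (l 16721344) (l 346852130919)))) (l 1))) (a (a (l 6) (a (l 6) (l 1))) (l 1))))), by decide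 +kernel⟩

def k1_pp_022_a : ∃ t, chk3 f_pp_022_a t 5 1 1 = true :=
  ⟨(b (a (b (l 16692272) (a (l 321619172983) (l 1))) (l 1)) (b (l 1) (l 1))), by decide +kernel⟩

def k2_pp_022_a : ∃ t, chk3 f_pp_022_a t 3 1 1 = true :=
  ⟨(l 1), by decide +kernel⟩

theorem s3_pp_022_a : ∃ t, chk3 f_pp_022_a t 2 1 1 = true := ex3_a k0_pp_022_a k1_pp_022_a

theorem s4_pp_022_a : ∃ t, chk3 f_pp_022_a t 1 1 1 = true := ex3_a s3_pp_022_a k2_pp_022_a

theorem c_pp_022_a : CertB 0 536870912 0 536870912 536870912 50465866 3 eng mog cd3q0 cd3q2a pd2 false true true .pp 0 2 2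
    ndB3q0 ndB3q2a pcB2 cut_pp_022_a Ext.none :=
  certB0 (fam := false) (s1 := true) (s2 := true) (a := 0) (b := 2) (c := 2) (cn := .pp) (n1 := ndB3q0) (n2 := ndB3q2a) (pc := pcB2) (cut := cut_pp_022_a) (xt := Ext.none) (P1 := 0) (W1 := 536870912) (P2 := 0) (W2 := 536870912) (P3 := 536870912) (W3 := 50465866) (N0 := 3) (En := eng) (mo := mog) (C1 := cd3q0) (C2 := cd3q2a) (C3 := pd2)
    rfl s4_pp_022_a

noncomputable def cut_pp_022_b : Cut := Cut.of [[⟨0, 0, 0, 67108864⟩, ⟨1, 1, 0, 67108864⟩, ⟨2, 1, 0, 67108864⟩]]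

noncomputable def f_pp_022_b : ℕ → ℕ → ℕ → ℕ → Bool := onCell 0 536870912 1073741824 536870912 536870912 50465866
    (rowB 3 eng mog cd3q0 cd3q2b pd2 1 false true true .pp 0 2 2 (qsf 0 536870912 1239849684 370763052 2) ndB3q0 ndB3q2b pcB2 cut_pp_022_b Ext.none)

def k0_pp_022_b : ∃ t, chk3 f_pp_022_b t 2 1 1 = true :=
  ⟨(b (b (a (a (b (l 1) (a (a (l 1) (b (l 1) (l 552473343143))) (b (l 477848397911) (l 82174352519)))) (b (b (l 283501193607) (l 226055972903)) (a (l 16621384) (l 16473696)))) (b (a (a (l 16622680) (l 16530016)) (l 16483824)) (a (l 16437848) (l 16387728)))) (a (b (a (a (b (b (l 609918375639) (b (a (l 629245737943) (l 16481936)) (b (a (l 639446253639) (l 16472824)) (a (a (b (l 16490344) (a (c (l 16495400) (b (b (a (b (l 16485152) (l 145524994727)) (l 16483520)) (l 16483592)) (l 16482432))) (l 16485856))) (l 16502192)) (l 16467656))))) (a (a (b (b (b (l 16483240) (l 16477856)) (l 16470944)) (a (l 16459792) (l 16456088))) (l 16458616))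 (l 16445528))) (b (b (l 16470136) (b (l 16450672) (l 16523176))) (l 16414848))) (b (b (l 16406648) (l 16542144)) (l 16333648))) (a (a (a (b (a (a (b (l 16444144) (l 16430504)) (l 16433704)) (l 16428424)) (a (a (b (l 16418872) (l 16409232)) (l 16410872)) (l 16406280))) (l 16405640)) (l 16381376)) (l 16360176))) (b (a (b (b (l 16377936) (l 16350832)) (l 16305456)) (l 16296048)) (a (l 16198040) (l 16205488))))) (b (a (a (a (a (b (b (a (b (l 16421280) (l 16395552)) (l 16392920)) (b (l 16392048) (l 16392736))) (b (a (l 16397024) (l 16393896)) (a (l 16402040) (l 16397968)))) (b (l 16383592) (l 16387392))) (b (l 16367584) (l 16365312))) (b (l 16505752) (l 16303360))) (a (l 16184480) (l 16064704))) (b (a (a (a (a (a (b (l 16399216) (l 16385696)) (l 16382720)) (l 16369360)) (l 16338416)) (l 16268992)) (l 16306848)) (a (a (a (b (l 16359184) (b (l 16352088) (l 16381784))) (b (l 16317296) (l 16321696))) (l 16478368)) (l 2))))), by decide +kernel⟩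

def k1_pp_022_b : ∃ t, chk3 f_pp_022_b t 3 1 1 = true :=
  ⟨(b (b (a (a (b (l 16429248) (l 16347800)) (l 16432544)) (l 16650648)) (a (b (l 16378776) (l 16301320)) (l 16720752))) (b (a (a (l 16287208) (l 2)) (l 2)) (l 2))), by decide +kernel⟩

theorem s2_pp_022_b : ∃ t, chk3 f_pp_022_b t 1 1 1 = true := ex3_a k0_pp_022_b k1_pp_022_b

theorem c_pp_022_b : CertB 0 536870912 1239849684 370763052 536870912 50465866 3 eng mog cd3q0 cd3q2b pd2 false true true .pp 0 2 2
    ndB3q0 ndB3q2b pcB2 cut_pp_022_b Ext.none :=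
  certB1 (fam := false) (s1 := true) (s2 := true) (a := 0) (b := 2) (c := 2) (cn := .pp) (n1 := ndB3q0) (n2 := ndB3q2b) (pc := pcB2) (cut := cut_pp_022_b) (xt := Ext.none) (P1 := 0) (W1 := 536870912) (P2 := 1239849684) (W2 := 370763052) (P3 := 536870912) (W3 := 50465866) (N0 := 3) (En := eng) (mo := mog) (C1 := cd3q0) (C2 := cd3q2b) (C3 := pd2)
    rfl (fun _ => rfl) s2_pp_022_b

noncomputable def f_pp_023 : ℕ → ℕ → ℕ → ℕ → Bool := onCell 1073741824 536870912 1610612736 536870912 536870912 50465866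
    (rowB 3 eng mog cd3q0 cd3q3 pd2 2 false true true .up 0 2 3 (qsf 0 536870912 1610612736 536870912 2) ndB3q0 ndB3q3 pcB2 Cut.none Ext.none)

def k0_pp_023 : ∃ t, chk3 f_pp_023 t 1 1 1 = true :=
  ⟨(a (b (b (a (l 16801424) (a (l 16508928) (l 16334888))) (a (l 16903064) (l 16740416))) (a (l 2) (b (l 188541857911) (l 2)))) (a (b (b (a (l 16199320) (l 16205072)) (a (l 16594392) (l 16529464))) (b (l 16727696) (l 16737264))) (a (b (b (l 16268344) (l 16511512)) (l 16726768)) (b (b (b (a (l 16327104) (b (a (l 16371136) (l 16422584)) (l 16373144))) (l 16401560)) (b (l 16486568) (l 16564944))) (l 16967096))))), by decide +kernel⟩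

theorem c_pp_023 : CertB 0 536870912 1610612736 536870912 536870912 50465866 3 eng mog cd3q0 cd3q3 pd2 false true true .up 0 2 3
    ndB3q0 ndB3q3 pcB2 Cut.none Ext.none :=
  certB2 (fam := false) (s1 := true) (s2 := true) (a := 0) (b := 2) (c := 3) (cn := .up) (n1 := ndB3q0) (n2 := ndB3q3) (pc := pcB2) (cut := Cut.none) (xt := Ext.none) (P1 := 0) (W1 := 536870912) (P2 := 1610612736) (W2 := 536870912) (P3 := 536870912) (W3 := 50465866) (N0 := 3) (En := eng) (mo := mog) (C1 := cd3q0) (C2 := cd3q3) (C3 := pd2)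
    rfl (fun _ => rfl) k0_pp_023

end Pool.Agent.Strip051.G.I5000_5470.Tab.C.BB33

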