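import Pool.Agent.Strip051.G.I5000_5470.Tab
import Pool.Agent.Strip051.PB.ExtD2

/-! # Certificates B25 (generated) -/

set_option linter.all false
set_option maxRecDepth 100000

namespace Pool.Agent.Strip051.G.I5000_5470.Tab.C.BB33

open Pool.Agent.Strip051.PB Pool.Agent.Strip051.PB.T
open Pool.Agent.Strip051.G.I5000_5470.Tab

noncomputable def f_pp_033 : ℕ → ℕ → ℕ → ℕ → Bool := onCell 0 536870912 1610612736 536870912 536870912 50465866
    (rowB 3 eng mog cd3q0 cd3q3 pd3 1 false true true .pnn 0 3 3 (qsf 0 536870912 1610612736 536870912 3) ndB3q0 ndB3q3 pcB3 Cut.none Ext.none)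

def k0_pp_033 : ∃ t, chk3 f_pp_033 t 1 1 1 = true :=
  ⟨(a (a (b (b (b (a (a (b (l 16411504) (l 16508808)) (l 16485976)) (l 16520744)) (a (b (l 16559352) (l 16583600)) (l 16599712))) (b (a (a (l 16631224) (l 16642808)) (l 16661976)) (b (l 16693688) (l 16711872)))) (b (b (l 16788080) (l 4)) (l 4))) (b (b (b (a (l 16574776) (l 16622392)) (l 16656000)) (b (l 16704352) (l 4))) (b (l 4) (a (b (l 4) (l 2)) (l 2))))) (b (a (b (a (l 16689432) (l 16721888)) (l 4)) (b (b (l 16753320) (l 4)) (a (b (l 4) (l 2)) (l 2)))) (a (b (a (b (l 4) (l 2)) (l 2)) (l 2)) (l 2)))), by decide +kernel⟩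

theorem c_pp_033 : CertB 0 536870912 1610612736 536870912 536870912 50465866 3 eng mog cd3q0 cd3q3 pd3 false true true .pnn 0 3 3
    ndB3q0 ndB3q3 pcB3 Cut.none Ext.none :=
  certB1 (fam := false) (s1 := true) (s2 := true) (a := 0) (b := 3) (c := 3) (cn := .pnn) (n1 := ndB3q0) (n2 := ndB3q3) (pc := pcB3) (cut := Cut.none) (xt := Ext.none) (P1 := 0) (W1 := 536870912) (P2 := 1610612736) (W2 := 536870912) (P3 := 536870912) (W3 := 50465866) (N0 := 3) (En := eng) (mo := mog) (C1 := cd3q0) (C2 := cd3q3) (C3 := pd3)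
    rfl (fun _ => rfl) k0_pp_033

noncomputable def f_pp_101 : ℕ → ℕ → ℕ → ℕ → Bool := onCell 536870912 536870912 536870912 536870912 536870912 50465866
    (rowB 3 eng mog cd3q1 cd3q1 pd0 0 false true true .npn 1 0 1 (qsf 536870912 536870912 536870912 536870912 0) ndB3q1 ndB3q1 pcB0 Cut.none Ext.none)

def k0_pp_101 : ∃ t, chk3 f_pp_101 t 1 1 1 = true :=
  ⟨(l 3), by decide +kernel⟩

theorem c_pp_101 : CertB 536870912 536870912 536870912 536870912 536870912 50465866 3 eng mog cd3q1 cd3q1 pd0 false true true .npn 1 0 1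
    ndB3q1 ndB3q1 pcB0 Cut.none Ext.none :=
  certB0 (fam := false) (s1 := true) (s2 := true) (a := 1) (b := 0) (c := 1) (cn := .npn) (n1 := ndB3q1) (n2 := ndB3q1) (pc := pcB0) (cut := Cut.none) (xt := Ext.none) (P1 := 536870912) (W1 := 536870912) (P2 := 536870912) (W2 := 536870912) (P3 := 536870912) (W3 := 50465866) (N0 := 3) (En := eng) (mo := mog) (C1 := cd3q1) (C2 := cd3q1) (C3 := pd0)
    rfl k0_pp_101

noncomputable def f_pp_102_a : ℕ → ℕ → ℕ → ℕ → Bool := onCell 0 536870912 0 536870912 536870912 50465866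
    (rowB 3 eng mog cd3q1 cd3q2a pd0 2 false true true .npp 1 0 2 (qsf 536870912 536870912 0 536870912 0) ndB3q1 ndB3q2a pcB0 Cut.none Ext.none)

def k0_pp_102_a : ∃ t, chk3 f_pp_102_a t 1 1 1 = true :=
  ⟨(b (a (l 3) (a (l 3) (a (b (a (l 183240213287) (l 173039696295)) (l 3)) (b (a (l 178945299335) (b (l 16504928) (l 16542912))) (a (l 3) (b (l 397988790967) (l 3))))))) (a (l 3) (l 3))), by decide +kernel⟩

theorem c_pp_102_a : CertB 536870912 536870912 0 536870912 536870912 50465866 3 eng mog cd3q1 cd3q2a pd0 false true true .npp 1 0 2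
    ndB3q1 ndB3q2a pcB0 Cut.none Ext.none :=
  certB2 (fam := false) (s1 := true) (s2 := true) (a := 1) (b := 0) (c := 2) (cn := .npp) (n1 := ndB3q1) (n2 := ndB3q2a) (pc := pcB0) (cut := Cut.none) (xt := Ext.none) (P1 := 536870912) (W1 := 536870912) (P2 := 0) (W2 := 536870912) (P3 := 536870912) (W3 := 50465866) (N0 := 3) (En := eng) (mo := mog) (C1 := cd3q1) (C2 := cd3q2a) (C3 := pd0)
    rfl (fun _ => rfl) k0_pp_102_a

noncomputable def f_pp_102_b : ℕ → ℕ → ℕ → ℕ → Bool := onCell 536870912 536870912 0 536870912 536870912 50465866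
    (rowB 3 eng mog cd3q1 cd3q2b pd0 1 false true true .npp 1 0 2 (qsf 536870912 536870912 1239849684 370763052 0) ndB3q1 ndB3q2b pcB0 Cut.none Ext.none)

def k0_pp_102_b : ∃ t, chk3 f_pp_102_b t 1 1 1 = true :=
  ⟨(a (b (l 1) (b (l 1) (a (l 1) (b (a (l 1) (b (l 201359556791) (l 120829047927))) (a (a (b (l 1) (l 16497608)) (b (l 234108824423) (l 16517008))) (b (l 16497152) (l 16513144))))))) (b (l 3) (b (b (l 3) (b (l 3) (a (a (l 3) (l 3)) (b (l 3) (a (l 178945120455) (l 1191483467623)))))) (b (a (a (b (l 159081123623) (l 16463064)) (b (a (l 16427480) (l 16404104)) (l 16430248))) (b (a (a (l 16379536) (l 16354088)) (a (l 16326168) (b (b (l 16285192) (l 16290208)) (l 16297592)))) (a (l 16393240) (a (l 16356120) (l 16313360))))) (a (b (a (l 16478776) (l 16455792)) (a (l 16499352) (l 16488080))) (a (b (l 16427184) (l 16457560)) (b (l 16360632) (l 16387160)))))))), by decide +kernel⟩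

theorem c_pp_102_b : CertB 536870912 536870912 1239849684 370763052 536870912 50465866 3 eng mog cd3q1 cd3q2b pd0 false true true .npp 1 0 2
    ndB3q1 ndB3q2b pcB0 Cut.none Ext.none :=
  certB1 (fam := false) (s1 := true) (s2 := true) (a := 1) (b := 0) (c := 2) (cn := .npp) (n1 := ndB3q1) (n2 := ndB3q2b) (pc := pcB0) (cut := Cut.none) (xt := Ext.none) (P1 := 536870912) (W1 := 536870912) (P2 := 1239849684) (W2 := 370763052) (P3 := 536870912) (W3 := 50465866) (N0 := 3) (En := eng) (mo := mog) (C1 := cd3q1) (C2 := cd3q2b) (C3 := pd0)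
    rfl (fun _ => rfl) k0_pp_102_b

noncomputable def f_pp_112_a : ℕ → ℕ → ℕ → ℕ → Bool := onCell 536870912 536870912 0 536870912 536870912 50465866
    (rowB 3 eng mog cd3q1 cd3q2a pd1 2 false true true .dn 1 1 2 (qsf 536870912 536870912 0 536870912 1) ndB3q1 ndB3q2a pcB1 Cut.none Ext.none)

def k0_pp_112_a : ∃ t, chk3 f_pp_112_a t 1 1 1 = true :=
  ⟨(a (a (b (a (b (a (l 16508688) (l 16516680)) (a (b (l 16446032) (l 16381496)) (l 16434744))) (b (l 16544600) (a (l 16485856) (l 16565656)))) (b (a (l 3) (b (l 302962725239) (l 3))) (l 3))) (b (a (b (l 16622376) (a (l 16617888) (l 1))) (l 1)) (b (l 1) (l 1)))) (l 1)), by decide +kernel⟩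

theorem c_pp_112_a : CertB 536870912 536870912 0 536870912 536870912 50465866 3 eng mog cd3q1 cd3q2a pd1 false true true .dn 1 1 2
    ndB3q1 ndB3q2a pcB1 Cut.none Ext.none :=
  certB2 (fam := false) (s1 := true) (s2 := true) (a := 1) (b := 1) (c := 2) (cn := .dn) (n1 := ndB3q1) (n2 := ndB3q2a) (pc := pcB1) (cut := Cut.none) (xt := Ext.none) (P1 := 536870912) (W1 := 536870912) (P2 := 0) (W2 := 536870912) (P3 := 536870912) (W3 := 50465866) (N0 := 3) (En := eng) (mo := mog) (C1 := cd3q1) (C2 := cd3q2a) (C3 := pd1)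
    rfl (fun _ => rfl) k0_pp_112_a

noncomputable def f_pp_112_b : ℕ → ℕ → ℕ → ℕ → Bool := onCell 536870912 536870912 1239849684 370763052 536870912 50465866
    (rowB 3 eng mog cd3q1 cd3q2b pd1 2 false true true .dn 1 1 2 (qsf 536870912 536870912 1239849684 370763052 1) ndB3q1 ndB3q2b pcB1 Cut.none Ext.none)

def k0_pp_112_b : ∃ t, chk3 f_pp_112_b t 1 1 1 = true :=
  ⟨(a (a (b (a (b (b (a (l 16549456) (l 16572504)) (a (l 16554384) (l 16586768))) (l 16579880)) (b (b (l 16618192) (l 16645816)) (b (l 16663360) (l 16689712)))) (a (b (b (l 16598584) (l 16601728)) (l 16566536)) (b (l 16742960) (l 16791320)))) (b (a (b (b (l 16694864) (l 16728080)) (a (l 16749400) (l 16791752))) (b (l 16765728) (l 16822808))) (b (a (l 16879512) (l 16959360)) (a (l 17012424) (l 17161072))))) (a (b (b (l 1) (a (l 16807744) (l 16742552))) (b (a (l 16954520) (l 16852936)) (a (l 17257504) (l 17214456)))) (b (l 1) (b (l 248604991479) (l 16881856))))), by decide +kernel⟩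

theorem c_pp_112_b : CertB 536870912 536870912 1239849684 370763052 536870912 50465866 3 eng mog cd3q1 cd3q2b pd1 false true true .dn 1 1 2
    ndB3q1 ndB3q2b pcB1 Cut.none Ext.none :=
  certB2 (fam := false) (s1 := true) (s2 := true) (a := 1) (b := 1) (c := 2) (cn := .dn) (n1 := ndB3q1) (n2 := ndB3q2b) (pc := pcB1) (cut := Cut.none) (xt := Ext.none) (P1 := 536870912) (W1 := 536870912) (P2 := 1239849684) (W2 := 370763052) (P3 := 536870912) (W3 := 50465866) (N0 := 3) (En := eng) (mo := mog) (C1 := cd3q1) (C2 := cd3q2b) (C3 := pd1)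
    rfl (fun _ => rfl) k0_pp_112_b

noncomputable def f_pp_113 : ℕ → ℕ → ℕ → ℕ → Bool := onCell 536870912 536870912 536870912 536870912 536870912 50465866
    (rowB 3 eng mog cd3q1 cd3q3 pd1 1 false true true .nn 1 1 3 (qsf 536870912 536870912 1610612736 536870912 1) ndB3q1 ndB3q3 pcB1 Cut.none Ext.none)

def k0_pp_113 : ∃ t, chk3 f_pp_113 t 1 1 1 = true :=
  ⟨(a (b (b (l 1) (a (l 1) (b (l 1) (l 17049392)))) (a (b (l 318934968983) (l 305513259655)) (b (l 339336890727) (l 17488760)))) (b (b (b (a (l 1) (l 95596342295)) (a (l 16785144) (l 16843496))) (b (a (l 17049104) (l 17055184)) (a (l 17183264) (l 17144864)))) (b (a (l 17256720) (l 17146464)) (a (l 17265088) (l 17044944))))), by decide +kernel⟩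

theorem c_pp_113 : CertB 536870912 536870912 1610612736 536870912 536870912 50465866 3 eng mog cd3q1 cd3q3 pd1 false true true .nn 1 1 3
    ndB3q1 ndB3q3 pcB1 Cut.none Ext.none :=
  certB1 (fam := false) (s1 := true) (s2 := true) (a := 1) (b := 1) (c := 3) (cn := .nn) (n1 := ndB3q1) (n2 := ndB3q3) (pc := pcB1) (cut := Cut.none) (xt := Ext.none) (P1 := 536870912) (W1 := 536870912) (P2 := 1610612736) (W2 := 536870912) (P3 := 536870912) (W3 := 50465866) (N0 := 3) (En := eng) (mo := mog) (C1 := cd3q1) (C2 := cd3q3) (C3 := pd1)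
    rfl (fun _ => rfl) k0_pp_113

noncomputable def f_pp_123 : ℕ → ℕ → ℕ → ℕ → Bool := onCell 536870912 536870912 1610612736 536870912 536870912 50465866
    (rowB 3 eng mog cd3q1 cd3q3 pd2 0 false true true .npn 1 2 3 (qsf 536870912 536870912 1610612736 536870912 2) ndB3q1 ndB3q3 pcB2 Cut.none Ext.none)

def k0_pp_123 : ∃ t, chk3 f_pp_123 t 1 1 1 = true :=
  ⟨(a (b (b (a (l 17077544) (l 542275290023)) (a (l 17153080) (l 17364328))) (a (b (b (l 16811120) (l 16773584)) (b (l 16751480) (l 16755024))) (b (b (l 17135128) (l 16992816)) (b (l 16871024) (l 16783352))))) (a (b (l 661997224279) (b (l 17184960) (b (l 16945720) (l 16799704)))) (b (l 1) (b (l 17174960) (l 694745318871))))), by decide +kernel⟩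

theorem c_pp_123 : CertB 536870912 536870912 1610612736 536870912 536870912 50465866 3 eng mog cd3q1 cd3q3 pd2 false true true .npn 1 2 3
    ndB3q1 ndB3q3 pcB2 Cut.none Ext.none :=
  certB0 (fam := false) (s1 := true) (s2 := true) (a := 1) (b := 2) (c := 3) (cn := .npn) (n1 := ndB3q1) (n2 := ndB3q3) (pc := pcB2) (cut := Cut.none) (xt := Ext.none) (P1 := 536870912) (W1 := 536870912) (P2 := 1610612736) (W2 := 536870912) (P3 := 536870912) (W3 := 50465866) (N0 := 3) (En := eng) (mo := mog) (C1 := cd3q1) (C2 := cd3q3) (C3 := pd2)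
    rfl k0_pp_123

noncomputable def f_pp_133 : ℕ → ℕ → ℕ → ℕ → Bool := onCell 1610612736 536870912 1610612736 536870912 536870912 50465866
    (rowB 3 eng mog cd3q1 cd3q3 pd3 2 false true true .dn 1 3 3 (qsf 536870912 536870912 1610612736 536870912 3) ndB3q1 ndB3q3 pcB3 Cut.none Ext.none)

def k0_pp_133 : ∃ t, chk3 f_pp_133 t 1 1 1 = true :=
  ⟨(a (b (l 1) (a (a (l 787623559847) (l 1)) (l 1))) (l 1)), by decide +kernel⟩

theorem c_pp_133 : CertB 536870912 536870912 1610612736 536870912 536870912 50465866 3 eng mog cd3q1 cd3q3 pd3 false true true .dn 1 3 3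
    ndB3q1 ndB3q3 pcB3 Cut.none Ext.none :=
  certB2 (fam := false) (s1 := true) (s2 := true) (a := 1) (b := 3) (c := 3) (cn := .dn) (n1 := ndB3q1) (n2 := ndB3q3) (pc := pcB3) (cut := Cut.none) (xt := Ext.none) (P1 := 536870912) (W1 := 536870912) (P2 := 1610612736) (W2 := 536870912) (P3 := 536870912) (W3 := 50465866) (N0 := 3) (En := eng) (mo := mog) (C1 := cd3q1) (C2 := cd3q3) (C3 := pd3)
    rfl (fun _ => rfl) k0_pp_133

noncomputable def f_pp_202_aa : ℕ → ℕ → ℕ → ℕ → Bool := onCell 0 536870912 0 536870912 536870912 50465866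
    (rowB 3 eng mog cd3q2a cd3q2a pd0 0 false true true .pp 2 0 2 (qsf 0 536870912 0 536870912 0) ndB3q2a ndB3q2a pcB0 Cut.none Ext.none)

def k0_pp_202_aa : ∃ t, chk3 f_pp_202_aa t 1 1 1 = true :=
  ⟨(l 3), by decide +kernel⟩

theorem c_pp_202_aa : CertB 0 536870912 0 536870912 536870912 50465866 3 eng mog cd3q2a cd3q2a pd0 false true true .pp 2 0 2
    ndB3q2a ndB3q2a pcB0 Cut.none Ext.none :=
  certB0 (fam := false) (s1 := true) (s2 := true) (a := 2) (b := 0) (c := 2) (cn := .pp) (n1 := ndB3q2a) (n2 := ndB3q2a) (pc := pcB0) (cut := Cut.none) (xt := Ext.none) (P1 := 0) (W1 := 536870912) (P2 := 0) (W2 := 536870912) (P3 := 536870912) (W3 := 50465866) (N0 := 3) (En := eng) (mo := mog) (C1 := cd3q2a) (C2 := cd3q2a) (C3 := pd0)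
    rfl k0_pp_202_aa

noncomputable def f_pp_202_ab : ℕ → ℕ → ℕ → ℕ → Bool := onCell 0 536870912 1239849684 370763052 536870912 50465866
    (rowB 3 eng mog cd3q2a cd3q2b pd0 0 false true true .pp 2 0 2 (qsf 0 536870912 1239849684 370763052 0) ndB3q2a ndB3q2b pcB0 Cut.none Ext.none)

def k0_pp_202_ab : ∃ t, chk3 f_pp_202_ab t 1 1 1 = true :=
  ⟨(l 3), by decide +kernel⟩

theorem c_pp_202_ab : CertB 0 536870912 1239849684 370763052 536870912 50465866 3 eng mog cd3q2a cd3q2b pd0 false true true .pp 2 0 2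
    ndB3q2a ndB3q2b pcB0 Cut.none Ext.none :=
  certB0 (fam := false) (s1 := true) (s2 := true) (a := 2) (b := 0) (c := 2) (cn := .pp) (n1 := ndB3q2a) (n2 := ndB3q2b) (pc := pcB0) (cut := Cut.none) (xt := Ext.none) (P1 := 0) (W1 := 536870912) (P2 := 1239849684) (W2 := 370763052) (P3 := 536870912) (W3 := 50465866) (N0 := 3) (En := eng) (mo := mog) (C1 := cd3q2a) (C2 := cd3q2b) (C3 := pd0)
    rfl k0_pp_202_ab

noncomputable def f_pp_202_ba : ℕ → ℕ → ℕ → ℕ → Bool := onCell 1239849684 370763052 0 536870912 536870912 50465866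
    (rowB 3 eng mog cd3q2b cd3q2a pd0 0 false true true .pp 2 0 2 (qsf 1239849684 370763052 0 536870912 0) ndB3q2b ndB3q2a pcB0 Cut.none Ext.none)

def k0_pp_202_ba : ∃ t, chk3 f_pp_202_ba t 1 1 1 = true :=
  ⟨(l 3), by decide +kernel⟩

theorem c_pp_202_ba : CertB 1239849684 370763052 0 536870912 536870912 50465866 3 eng mog cd3q2b cd3q2a pd0 false true true .pp 2 0 2
    ndB3q2b ndB3q2a pcB0 Cut.none Ext.none :=
  certB0 (fam := false) (s1 := true) (s2 := true) (a := 2) (b := 0) (c := 2) (cn := .pp) (n1 := ndB3q2b) (n2 := ndB3q2a) (pc := pcB0) (cut := Cut.none) (xt := Ext.none) (P1 := 1239849684) (W1 := 370763052) (P2 := 0) (W2 := 536870912) (P3 := 536870912) (W3 := 50465866) (N0 := 3) (En := eng) (mo := mog) (C1 := cd3q2b) (C2 := cd3q2a) (C3 := pd0)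
    rfl k0_pp_202_ba

noncomputable def f_pp_202_bb : ℕ → ℕ → ℕ → ℕ → Bool := onCell 1239849684 370763052 1239849684 370763052 536870912 50465866
    (rowB 3 eng mog cd3q2b cd3q2b pd0 0 false true true .pp 2 0 2 (qsf 1239849684 370763052 1239849684 370763052 0) ndB3q2b ndB3q2b pcB0 Cut.none Ext.none)

def k0_pp_202_bb : ∃ t, chk3 f_pp_202_bb t 1 1 1 = true :=
  ⟨(l 3), by decide +kernel⟩

theorem c_pp_202_bb : CertB 1239849684 370763052 1239849684 370763052 536870912 50465866 3 eng mog cd3q2b cd3q2b pd0 false true true .pp 2 0 2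
    ndB3q2b ndB3q2b pcB0 Cut.none Ext.none :=
  certB0 (fam := false) (s1 := true) (s2 := true) (a := 2) (b := 0) (c := 2) (cn := .pp) (n1 := ndB3q2b) (n2 := ndB3q2b) (pc := pcB0) (cut := Cut.none) (xt := Ext.none) (P1 := 1239849684) (W1 := 370763052) (P2 := 1239849684) (W2 := 370763052) (P3 := 536870912) (W3 := 50465866) (N0 := 3) (En := eng) (mo := mog) (C1 := cd3q2b) (C2 := cd3q2b) (C3 := pd0)
    rfl k0_pp_202_bb

noncomputable def f_pp_203_a : ℕ → ℕ → ℕ → ℕ → Bool := onCell 0 536870912 0 536870912 536870912 50465866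
    (rowB 3 eng mog cd3q2a cd3q3 pd0 1 false true true .up 2 0 3 (qsf 0 536870912 1610612736 536870912 0) ndB3q2a ndB3q3 pcB0 Cut.none Ext.none)

def k0_pp_203_a : ∃ t, chk3 f_pp_203_a t 1 1 1 = true :=
  ⟨(l 3), by decide +kernel⟩

theorem c_pp_203_a : CertB 0 536870912 1610612736 536870912 536870912 50465866 3 eng mog cd3q2a cd3q3 pd0 false true true .up 2 0 3
    ndB3q2a ndB3q3 pcB0 Cut.none Ext.none :=
  certB1 (fam := false) (s1 := true) (s2 := true) (a := 2) (b := 0) (c := 3) (cn := .up) (n1 := ndB3q2a) (n2 := ndB3q3) (pc := pcB0) (cut := Cut.none) (xt := Ext.none) (P1 := 0) (W1 := 536870912) (P2 := 1610612736) (W2 := 536870912) (P3 := 536870912) (W3 := 50465866) (N0 := 3) (En := eng) (mo := mog) (C1 := cd3q2a) (C2 := cd3q3) (C3 := pd0)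
    rfl (fun _ => rfl) k0_pp_203_a

noncomputable def f_pp_203_b : ℕ → ℕ → ℕ → ℕ → Bool := onCell 1239849684 370763052 1610612736 536870912 536870912 50465866
    (rowB 3 eng mog cd3q2b cd3q3 pd0 0 false true true .up 2 0 3 (qsf 1239849684 370763052 1610612736 536870912 0) ndB3q2b ndB3q3 pcB0 Cut.none Ext.none)

def k0_pp_203_b : ∃ t, chk3 f_pp_203_b t 1 1 1 = true :=
  ⟨(l 3), by decide +kernel⟩

theorem c_pp_203_b : CertB 1239849684 370763052 1610612736 536870912 536870912 50465866 3 eng mog cd3q2b cd3q3 pd0 false true true .up 2 0 3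
    ndB3q2b ndB3q3 pcB0 Cut.none Ext.none :=
  certB0 (fam := false) (s1 := true) (s2 := true) (a := 2) (b := 0) (c := 3) (cn := .up) (n1 := ndB3q2b) (n2 := ndB3q3) (pc := pcB0) (cut := Cut.none) (xt := Ext.none) (P1 := 1239849684) (W1 := 370763052) (P2 := 1610612736) (W2 := 536870912) (P3 := 536870912) (W3 := 50465866) (N0 := 3) (En := eng) (mo := mog) (C1 := cd3q2b) (C2 := cd3q3) (C3 := pd0)
    rfl k0_pp_203_b

noncomputable def cut_pp_213_a : Cut := Cut.of [[⟨0, 1, 0, 67108864⟩, ⟨1, 1, 0, 67108864⟩, ⟨2, 2, 0, 16777216⟩]]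

noncomputable def f_pp_213_a : ℕ → ℕ → ℕ → ℕ → Bool := onCell 0 536870912 1610612736 536870912 536870912 50465866
    (rowB 3 eng mog cd3q2a cd3q3 pd1 0 false true true .pnn 2 1 3 (qsf 0 536870912 1610612736 536870912 1) ndB3q2a ndB3q3 pcB1 cut_pp_213_a Ext.none)

def k0_pp_213_a : ∃ t, chk3 f_pp_213_a t 1 1 1 = true :=
  ⟨(b (l 3) (a (l 3) (b (l 3) (a (l 3) (b (l 3) (a (l 3) (b (l 3) (b (l 3) (b (l 3) (l 6)))))))))), by decide +kernel⟩

theorem c_pp_213_a : CertB 0 536870912 1610612736 536870912 536870912 50465866 3 eng mog cd3q2a cd3q3 pd1 false true true .pnn 2 1 3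
    ndB3q2a ndB3q3 pcB1 cut_pp_213_a Ext.none :=
  certB0 (fam := false) (s1 := true) (s2 := true) (a := 2) (b := 1) (c := 3) (cn := .pnn) (n1 := ndB3q2a) (n2 := ndB3q3) (pc := pcB1) (cut := cut_pp_213_a) (xt := Ext.none) (P1 := 0) (W1 := 536870912) (P2 := 1610612736) (W2 := 536870912) (P3 := 536870912) (W3 := 50465866) (N0 := 3) (En := eng) (mo := mog) (C1 := cd3q2a) (C2 := cd3q3) (C3 := pd1)
    rfl k0_pp_213_a

noncomputable def cut_pp_213_b : Cut := Cut.of [[⟨0, 1, 0, 67108864⟩, ⟨1, 1, 0, 67108864⟩, ⟨2, 2, 0, 16777216⟩]]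

noncomputable def f_pp_213_b : ℕ → ℕ → ℕ → ℕ → Bool := onCell 1239849684 370763052 1610612736 536870912 536870912 50465866
    (rowB 3 eng mog cd3q2b cd3q3 pd1 0 false true true .pnn 2 1 3 (qsf 1239849684 370763052 1610612736 536870912 1) ndB3q2b ndB3q3 pcB1 cut_pp_213_b Ext.none)

def k0_pp_213_b : ∃ t, chk3 f_pp_213_b t 1 1 1 = true :=
  ⟨(l 3), by decide +kernel⟩

theorem c_pp_213_b : CertB 1239849684 370763052 1610612736 536870912 536870912 50465866 3 eng mog cd3q2b cd3q3 pd1 false true true .pnn 2 1 3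
    ndB3q2b ndB3q3 pcB1 cut_pp_213_b Ext.none :=
  certB0 (fam := false) (s1 := true) (s2 := true) (a := 2) (b := 1) (c := 3) (cn := .pnn) (n1 := ndB3q2b) (n2 := ndB3q3) (pc := pcB1) (cut := cut_pp_213_b) (xt := Ext.none) (P1 := 1239849684) (W1 := 370763052) (P2 := 1610612736) (W2 := 536870912) (P3 := 536870912) (W3 := 50465866) (N0 := 3) (En := eng) (mo := mog) (C1 := cd3q2b) (C2 := cd3q3) (C3 := pd1)
    rfl k0_pp_213_b

noncomputable def f_pp_303 : ℕ → ℕ → ℕ → ℕ → Bool := onCell 1610612736 536870912 1610612736 536870912 536870912 50465866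
    (rowB 3 eng mog cd3q3 cd3q3 pd0 0 false true true .npn 3 0 3 (qsf 1610612736 536870912 1610612736 536870912 0) ndB3q3 ndB3q3 pcB0 Cut.none Ext.none)

def k0_pp_303 : ∃ t, chk3 f_pp_303 t 1 1 1 = true :=
  ⟨(l 3), by decide +kernel⟩

theorem c_pp_303 : CertB 1610612736 536870912 1610612736 536870912 536870912 50465866 3 eng mog cd3q3 cd3q3 pd0 false true true .npn 3 0 3
    ndB3q3 ndB3q3 pcB0 Cut.none Ext.none :=
  certB0 (fam := false) (s1 := true) (s2 := true) (a := 3) (b := 0) (c := 3) (cn := .npn) (n1 := ndB3q3) (n2 := ndB3q3) (pc := pcB0) (cut := Cut.none) (xt := Ext.none) (P1 := 1610612736) (W1 := 536870912) (P2 := 1610612736) (W2 := 536870912) (P3 := 536870912) (W3 := 50465866) (N0 := 3) (En := eng) (mo := mog) (C1 := cd3q3) (C2 := cd3q3) (C3 := pd0)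
    rfl k0_pp_303

noncomputable def f_pp_313 : ℕ → ℕ → ℕ → ℕ → Bool := onCell 1610612736 536870912 1610612736 536870912 536870912 50465866
    (rowB 3 eng mog cd3q3 cd3q3 pd1 0 false true true .dn 3 1 3 (qsf 1610612736 536870912 1610612736 536870912 1) ndB3q3 ndB3q3 pcB1 Cut.none Ext.none)

def k0_pp_313 : ∃ t, chk3 f_pp_313 t 1 1 1 = true :=
  ⟨(l 3), by decide +kernel⟩

theorem c_pp_313 : CertB 1610612736 536870912 1610612736 536870912 536870912 50465866 3 eng mog cd3q3 cd3q3 pd1 false true true .dn 3 1 3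
    ndB3q3 ndB3q3 pcB1 Cut.none Ext.none :=
  certB0 (fam := false) (s1 := true) (s2 := true) (a := 3) (b := 1) (c := 3) (cn := .dn) (n1 := ndB3q3) (n2 := ndB3q3) (pc := pcB1) (cut := Cut.none) (xt := Ext.none) (P1 := 1610612736) (W1 := 536870912) (P2 := 1610612736) (W2 := 536870912) (P3 := 536870912) (W3 := 50465866) (N0 := 3) (En := eng) (mo := mog) (C1 := cd3q3) (C2 := cd3q3) (C3 := pd1)
    rfl k0_pp_313

noncomputable def f_pm_001 : ℕ → ℕ → ℕ → ℕ → Bool := onCell 0 536870912 536870912 536870912 536870912 50465866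
    (rowB 3 eng mog cd3q0 cd3q1 pd0 0 false true false .up 0 0 1 (qsf 0 536870912 536870912 536870912 0) ndB3q0 ndB3q1 pcB0 Cut.none Ext.none)

def k0_pm_001 : ∃ t, chk3 f_pm_001 t 1 1 1 = true :=
  ⟨(l 4), by decide +kernel⟩

theorem c_pm_001 : CertB 0 536870912 536870912 536870912 536870912 50465866 3 eng mog cd3q0 cd3q1 pd0 false true false .up 0 0 1
    ndB3q0 ndB3q1 pcB0 Cut.none Ext.none :=
  certB0 (fam := false) (s1 := true) (s2 := false) (a := 0) (b := 0) (c := 1) (cn := .up) (n1 := ndB3q0) (n2 := ndB3q1) (pc := pcB0) (cut := Cut.none) (xt := Ext.none) (P1 := 0) (W1 := 536870912) (P2 := 536870912) (W2 := 536870912) (P3 := 536870912) (W3 := 50465866) (N0 := 3) (En := eng) (mo := mog) (C1 := cd3q0) (C2 := cd3q1) (C3 := pd0)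
    rfl k0_pm_001

noncomputable def f_pm_011 : ℕ → ℕ → ℕ → ℕ → Bool := onCell 0 536870912 536870912 536870912 536870912 50465866
    (rowB 3 eng mog cd3q0 cd3q1 pd1 0 false true false .pnn 0 1 1 (qsf 0 536870912 536870912 536870912 1) ndB3q0 ndB3q1 pcB1 Cut.none Ext.none)

def k0_pm_011 : ∃ t, chk3 f_pm_011 t 1 1 1 = true :=
  ⟨(l 4), by decide +kernel⟩

theorem c_pm_011 : CertB 0 536870912 536870912 536870912 536870912 50465866 3 eng mog cd3q0 cd3q1 pd1 false true false .pnn 0 1 1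
    ndB3q0 ndB3q1 pcB1 Cut.none Ext.none :=
  certB0 (fam := false) (s1 := true) (s2 := false) (a := 0) (b := 1) (c := 1) (cn := .pnn) (n1 := ndB3q0) (n2 := ndB3q1) (pc := pcB1) (cut := Cut.none) (xt := Ext.none) (P1 := 0) (W1 := 536870912) (P2 := 536870912) (W2 := 536870912) (P3 := 536870912) (W3 := 50465866) (N0 := 3) (En := eng) (mo := mog) (C1 := cd3q0) (C2 := cd3q1) (C3 := pd1)
    rfl k0_pm_011

noncomputable def cut_pm_012_a : Cut := Cut.of [[⟨0, 0, 0, 67108864⟩, ⟨1, 1, 0, 67108864⟩, ⟨2, 1, 0, 67108864⟩]]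

noncomputable def f_pm_012_a : ℕ → ℕ → ℕ → ℕ → Bool := onCell 0 536870912 0 536870912 536870912 50465866
    (rowB 3 eng mog cd3q0 cd3q2a pd1 0 false true false .pnp 0 1 2 (qsf 0 536870912 0 536870912 1) ndB3q0 ndB3q2a pcB1 cut_pm_012_a Ext.none)

def k0_pm_012_a : ∃ t, chk3 f_pm_012_a t 1 1 1 = true :=
  ⟨(a (a (a (b (l 2) (a (b (l 2) (b (l 2) (l 6))) (l 4))) (b (l 4) (l 4))) (l 4)) (l 4)), by decide +kernel⟩

theorem c_pm_012_a : CertB 0 536870912 0 536870912 536870912 50465866 3 eng mog cd3q0 cd3q2a pd1 false true false .pnp 0 1 2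
    ndB3q0 ndB3q2a pcB1 cut_pm_012_a Ext.none :=
  certB0 (fam := false) (s1 := true) (s2 := false) (a := 0) (b := 1) (c := 2) (cn := .pnp) (n1 := ndB3q0) (n2 := ndB3q2a) (pc := pcB1) (cut := cut_pm_012_a) (xt := Ext.none) (P1 := 0) (W1 := 536870912) (P2 := 0) (W2 := 536870912) (P3 := 536870912) (W3 := 50465866) (N0 := 3) (En := eng) (mo := mog) (C1 := cd3q0) (C2 := cd3q2a) (C3 := pd1)
    rfl k0_pm_012_a

noncomputable def cut_pm_012_b : Cut := Cut.of [[⟨0, 0, 0, 67108864⟩, ⟨1, 1, 0, 67108864⟩, ⟨2, 1, 0, 67108864⟩]]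

noncomputable def f_pm_012_b : ℕ → ℕ → ℕ → ℕ → Bool := onCell 0 536870912 1239849684 370763052 536870912 50465866
    (rowB 3 eng mog cd3q0 cd3q2b pd1 0 false true false .pnp 0 1 2 (qsf 0 536870912 1239849684 370763052 1) ndB3q0 ndB3q2b pcB1 cut_pm_012_b Ext.none)

def k0_pm_012_b : ∃ t, chk3 f_pm_012_b t 1 1 1 = true :=
  ⟨(a (a (l 2) (l 4)) (l 4)), by decide +kernel⟩

theorem c_pm_012_b : CertB 0 536870912 1239849684 370763052 536870912 50465866 3 eng mog cd3q0 cd3q2b pd1 false true false .pnp 0 1 2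
    ndB3q0 ndB3q2b pcB1 cut_pm_012_b Ext.none :=
  certB0 (fam := false) (s1 := true) (s2 := false) (a := 0) (b := 1) (c := 2) (cn := .pnp) (n1 := ndB3q0) (n2 := ndB3q2b) (pc := pcB1) (cut := cut_pm_012_b) (xt := Ext.none) (P1 := 0) (W1 := 536870912) (P2 := 1239849684) (W2 := 370763052) (P3 := 536870912) (W3 := 50465866) (N0 := 3) (En := eng) (mo := mog) (C1 := cd3q0) (C2 := cd3q2b) (C3 := pd1)
    rfl k0_pm_012_b

noncomputable def cut_pm_022_a : Cut := Cut.of [[⟨0, 0, 0, 67108864⟩, ⟨1, 1, 0, 67108864⟩, ⟨2, 1, 0, 67108864⟩]]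

noncomputable def f_pm_022_a : ℕ → ℕ → ℕ → ℕ → Bool := onCell 0 536870912 0 536870912 536870912 50465866
    (rowB 3 eng mog cd3q0 cd3q2a pd2 0 false true false .pp 0 2 2 (qsf 0 536870912 0 536870912 2) ndB3q0 ndB3q2a pcB2 cut_pm_022_a Ext.none)

def k0_pm_022_a : ∃ t, chk3 f_pm_022_a t 1 1 1 = true :=
  ⟨(a (a (b (a (a (b (b (a (l 16466944) (l 16466512)) (a (a (l 16472696) (l 16472512)) (l 16471064))) (a (b (l 16487368) (l 4)) (l 4))) (b (b (l 16461800) (l 4)) (l 4))) (l 4)) (a (b (l 4) (a (b (l 4) (l 6)) (l 4))) (l 4))) (l 4)) (l 1)), by decide +kernel⟩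

theorem c_pm_022_a : CertB 0 536870912 0 536870912 536870912 50465866 3 eng mog cd3q0 cd3q2a pd2 false true false .pp 0 2 2
    ndB3q0 ndB3q2a pcB2 cut_pm_022_a Ext.none :=
  certB0 (fam := false) (s1 := true) (s2 := false) (a := 0) (b := 2) (c := 2) (cn := .pp) (n1 := ndB3q0) (n2 := ndB3q2a) (pc := pcB2) (cut := cut_pm_022_a) (xt := Ext.none) (P1 := 0) (W1 := 536870912) (P2 := 0) (W2 := 536870912) (P3 := 536870912) (W3 := 50465866) (N0 := 3) (En := eng) (mo := mog) (C1 := cd3q0) (C2 := cd3q2a) (C3 := pd2)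
    rfl k0_pm_022_a

noncomputable def cut_pm_022_b : Cut := Cut.of [[⟨0, 0, 0, 67108864⟩, ⟨1, 1, 0, 67108864⟩, ⟨2, 1, 0, 67108864⟩]]

noncomputable def f_pm_022_b : ℕ → ℕ → ℕ → ℕ → Bool := onCell 0 536870912 1239849684 370763052 536870912 50465866
    (rowB 3 eng mog cd3q0 cd3q2b pd2 0 false true false .pp 0 2 2 (qsf 0 536870912 1239849684 370763052 2) ndB3q0 ndB3q2b pcB2 cut_pm_022_b Ext.none)

def k0_pm_022_b : ∃ t, chk3 f_pm_022_b t 1 1 1 = true :=
  ⟨(a (b (a (b (a (b (b (a (a (a (b (l 16456136) (l 16435368)) (l 16447040)) (l 16447792)) (l 16445544)) (a (a (a (l 16424552) (l 16490176)) (b (l 16418952) (l 4))) (l 4))) (l 4)) (l 4)) (l 4)) (l 4)) (l 4)) (l 4)), by decide +kernel⟩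

theorem c_pm_022_b : CertB 0 536870912 1239849684 370763052 536870912 50465866 3 eng mog cd3q0 cd3q2b pd2 false true false .pp 0 2 2
    ndB3q0 ndB3q2b pcB2 cut_pm_022_b Ext.none :=
  certB0 (fam := false) (s1 := true) (s2 := false) (a := 0) (b := 2) (c := 2) (cn := .pp) (n1 := ndB3q0) (n2 := ndB3q2b) (pc := pcB2) (cut := cut_pm_022_b) (xt := Ext.none) (P1 := 0) (W1 := 536870912) (P2 := 1239849684) (W2 := 370763052) (P3 := 536870912) (W3 := 50465866) (N0 := 3) (En := eng) (mo := mog) (C1 := cd3q0) (C2 := cd3q2b) (C3 := pd2)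
    rfl k0_pm_022_b

noncomputable def f_pm_023 : ℕ → ℕ → ℕ → ℕ → Bool := onCell 0 536870912 1610612736 536870912 536870912 50465866
    (rowB 3 eng mog cd3q0 cd3q3 pd2 0 false true false .up 0 2 3 (qsf 0 536870912 1610612736 536870912 2) ndB3q0 ndB3q3 pcB2 Cut.none Ext.none)

def k0_pm_023 : ∃ t, chk3 f_pm_023 t 1 1 1 = true :=
  ⟨(a (l 4) (l 4)), by decide +kernel⟩

theorem c_pm_023 : CertB 0 536870912 1610612736 536870912 536870912 50465866 3 eng mog cd3q0 cd3q3 pd2 false true false .up 0 2 3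
    ndB3q0 ndB3q3 pcB2 Cut.none Ext.none :=
  certB0 (fam := false) (s1 := true) (s2 := false) (a := 0) (b := 2) (c := 3) (cn := .up) (n1 := ndB3q0) (n2 := ndB3q3) (pc := pcB2) (cut := Cut.none) (xt := Ext.none) (P1 := 0) (W1 := 536870912) (P2 := 1610612736) (W2 := 536870912) (P3 := 536870912) (W3 := 50465866) (N0 := 3) (En := eng) (mo := mog) (C1 := cd3q0) (C2 := cd3q3) (C3 := pd2)
    rfl k0_pm_023

noncomputable def f_pm_033 : ℕ → ℕ → ℕ → ℕ → Bool := onCell 0 536870912 1610612736 536870912 536870912 50465866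
    (rowB 3 eng mog cd3q0 cd3q3 pd3 0 false true false .pnn 0 3 3 (qsf 0 536870912 1610612736 536870912 3) ndB3q0 ndB3q3 pcB3 Cut.none Ext.none)

def k0_pm_033 : ∃ t, chk3 f_pm_033 t 1 1 1 = true :=
  ⟨(a (l 4) (l 4)), by decide +kernel⟩

theorem c_pm_033 : CertB 0 536870912 1610612736 536870912 536870912 50465866 3 eng mog cd3q0 cd3q3 pd3 false true false .pnn 0 3 3
    ndB3q0 ndB3q3 pcB3 Cut.none Ext.none :=
  certB0 (fam := false) (s1 := true) (s2 := false) (a := 0) (b := 3) (c := 3) (cn := .pnn) (n1 := ndB3q0) (n2 := ndB3q3) (pc := pcB3) (cut := Cut.none) (xt := Ext.none) (P1 := 0) (W1 := 536870912) (P2 := 1610612736) (W2 := 536870912) (P3 := 536870912) (W3 := 50465866) (N0 := 3) (En := eng) (mo := mog) (C1 := cd3q0) (C2 := cd3q3) (C3 := pd3)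
    rfl k0_pm_033

noncomputable def f_pm_101 : ℕ → ℕ → ℕ → ℕ → Bool := onCell 536870912 536870912 536870912 536870912 536870912 50465866
    (rowB 3 eng mog cd3q1 cd3q1 pd0 0 false true false .npn 1 0 1 (qsf 536870912 536870912 536870912 536870912 0) ndB3q1 ndB3q1 pcB0 Cut.none Ext.none)

def k0_pm_101 : ∃ t, chk3 f_pm_101 t 1 1 1 = true :=
  ⟨(l 4), by decide +kernel⟩

theorem c_pm_101 : CertB 536870912 536870912 536870912 536870912 536870912 50465866 3 eng mog cd3q1 cd3q1 pd0 false true false .npn 1 0 1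
    ndB3q1 ndB3q1 pcB0 Cut.none Ext.none :=
  certB0 (fam := false) (s1 := true) (s2 := false) (a := 1) (b := 0) (c := 1) (cn := .npn) (n1 := ndB3q1) (n2 := ndB3q1) (pc := pcB0) (cut := Cut.none) (xt := Ext.none) (P1 := 536870912) (W1 := 536870912) (P2 := 536870912) (W2 := 536870912) (P3 := 536870912) (W3 := 50465866) (N0 := 3) (En := eng) (mo := mog) (C1 := cd3q1) (C2 := cd3q1) (C3 := pd0)
    rfl k0_pm_101

noncomputable def f_pm_102_a : ℕ → ℕ → ℕ → ℕ → Bool := onCell 536870912 536870912 0 536870912 536870912 50465866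
    (rowB 3 eng mog cd3q1 cd3q2a pd0 0 false true false .npp 1 0 2 (qsf 536870912 536870912 0 536870912 0) ndB3q1 ndB3q2a pcB0 Cut.none Ext.none)

def k0_pm_102_a : ∃ t, chk3 f_pm_102_a t 1 1 1 = true :=
  ⟨(a (l 4) (b (a (l 4) (a (b (l 16738776) (l 4)) (b (l 16735080) (l 16729608)))) (l 4))), by decide +kernel⟩

theorem c_pm_102_a : CertB 536870912 536870912 0 536870912 536870912 50465866 3 eng mog cd3q1 cd3q2a pd0 false true false .npp 1 0 2
    ndB3q1 ndB3q2a pcB0 Cut.none Ext.none :=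
  certB0 (fam := false) (s1 := true) (s2 := false) (a := 1) (b := 0) (c := 2) (cn := .npp) (n1 := ndB3q1) (n2 := ndB3q2a) (pc := pcB0) (cut := Cut.none) (xt := Ext.none) (P1 := 536870912) (W1 := 536870912) (P2 := 0) (W2 := 536870912) (P3 := 536870912) (W3 := 50465866) (N0 := 3) (En := eng) (mo := mog) (C1 := cd3q1) (C2 := cd3q2a) (C3 := pd0)
    rfl k0_pm_102_a

noncomputable def f_pm_102_b : ℕ → ℕ → ℕ → ℕ → Bool := onCell 536870912 536870912 1239849684 370763052 536870912 50465866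
    (rowB 3 eng mog cd3q1 cd3q2b pd0 0 false true false .npp 1 0 2 (qsf 536870912 536870912 1239849684 370763052 0) ndB3q1 ndB3q2b pcB0 Cut.none Ext.none)

def k0_pm_102_b : ∃ t, chk3 f_pm_102_b t 1 1 1 = true :=
  ⟨(a (l 4) (b (a (b (l 4) (l 4)) (b (a (b (l 16757920) (l 16802768)) (l 16764888)) (a (l 16893592) (l 16859144)))) (a (b (l 4) (l 2)) (b (a (l 17084408) (l 17023504)) (a (l 17464680) (l 17367688)))))), by decide +kernel⟩

theorem c_pm_102_b : CertB 536870912 536870912 1239849684 370763052 536870912 50465866 3 eng mog cd3q1 cd3q2b pd0 false true false .npp 1 0 2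
    ndB3q1 ndB3q2b pcB0 Cut.none Ext.none :=
  certB0 (fam := false) (s1 := true) (s2 := false) (a := 1) (b := 0) (c := 2) (cn := .npp) (n1 := ndB3q1) (n2 := ndB3q2b) (pc := pcB0) (cut := Cut.none) (xt := Ext.none) (P1 := 536870912) (W1 := 536870912) (P2 := 1239849684) (W2 := 370763052) (P3 := 536870912) (W3 := 50465866) (N0 := 3) (En := eng) (mo := mog) (C1 := cd3q1) (C2 := cd3q2b) (C3 := pd0)
    rfl k0_pm_102_b

noncomputable def f_pm_112_a : ℕ → ℕ → ℕ → ℕ → Bool := onCell 536870912 536870912 0 536870912 536870912 50465866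
    (rowB 3 eng mog cd3q1 cd3q2a pd1 0 false true false .dn 1 1 2 (qsf 536870912 536870912 0 536870912 1) ndB3q1 ndB3q2a pcB1 Cut.none Ext.none)

def k0_pm_112_a : ∃ t, chk3 f_pm_112_a t 1 1 1 = true :=
  ⟨(a (l 4) (l 1)), by decide +kernel⟩

theorem c_pm_112_a : CertB 536870912 536870912 0 536870912 536870912 50465866 3 eng mog cd3q1 cd3q2a pd1 false true false .dn 1 1 2
    ndB3q1 ndB3q2a pcB1 Cut.none Ext.none :=
  certB0 (fam := false) (s1 := true) (s2 := false) (a := 1) (b := 1) (c := 2) (cn := .dn) (n1 := ndB3q1) (n2 := ndB3q2a) (pc := pcB1) (cut := Cut.none) (xt := Ext.none) (P1 := 536870912) (W1 := 536870912) (P2 := 0) (W2 := 536870912) (P3 := 536870912) (W3 := 50465866) (N0 := 3) (En := eng) (mo := mog) (C1 := cd3q1) (C2 := cd3q2a) (C3 := pd1)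
    rfl k0_pm_112_a

noncomputable def f_pm_112_b : ℕ → ℕ → ℕ → ℕ → Bool := onCell 536870912 536870912 1239849684 370763052 536870912 50465866
    (rowB 3 eng mog cd3q1 cd3q2b pd1 2 false true false .dn 1 1 2 (qsf 536870912 536870912 1239849684 370763052 1) ndB3q1 ndB3q2b pcB1 Cut.none Ext.none)

def k0_pm_112_b : ∃ t, chk3 f_pm_112_b t 1 1 1 = true :=
  ⟨(a (b (l 4) (a (l 17258176) (l 584888748375))) (b (l 4) (l 4))), by decide +kernel⟩

theorem c_pm_112_b : CertB 536870912 536870912 1239849684 370763052 536870912 50465866 3 eng mog cd3q1 cd3q2b pd1 false true false .dn 1 1 2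
    ndB3q1 ndB3q2b pcB1 Cut.none Ext.none :=
  certB2 (fam := false) (s1 := true) (s2 := false) (a := 1) (b := 1) (c := 2) (cn := .dn) (n1 := ndB3q1) (n2 := ndB3q2b) (pc := pcB1) (cut := Cut.none) (xt := Ext.none) (P1 := 536870912) (W1 := 536870912) (P2 := 1239849684) (W2 := 370763052) (P3 := 536870912) (W3 := 50465866) (N0 := 3) (En := eng) (mo := mog) (C1 := cd3q1) (C2 := cd3q2b) (C3 := pd1)
    rfl (fun _ => rfl) k0_pm_112_b

noncomputable def f_pm_113 : ℕ → ℕ → ℕ → ℕ → Bool := onCell 536870912 536870912 536870912 536870912 536870912 50465866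
    (rowB 3 eng mog cd3q1 cd3q3 pd1 1 false true false .nn 1 1 3 (qsf 536870912 536870912 1610612736 536870912 1) ndB3q1 ndB3q3 pcB1 Cut.none Ext.none)

def k0_pm_113 : ∃ t, chk3 f_pm_113 t 1 1 1 = true :=
  ⟨(a (b (l 4) (l 4)) (b (b (b (l 17193872) (l 17499816)) (a (l 17779080) (l 17695752))) (b (l 203710877991) (a (l 17289808) (l 17068232))))), by decide +kernel⟩

theorem c_pm_113 : CertB 536870912 536870912 1610612736 536870912 536870912 50465866 3 eng mog cd3q1 cd3q3 pd1 false true false .nn 1 1 3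
    ndB3q1 ndB3q3 pcB1 Cut.none Ext.none :=
  certB1 (fam := false) (s1 := true) (s2 := false) (a := 1) (b := 1) (c := 3) (cn := .nn) (n1 := ndB3q1) (n2 := ndB3q3) (pc := pcB1) (cut := Cut.none) (xt := Ext.none) (P1 := 536870912) (W1 := 536870912) (P2 := 1610612736) (W2 := 536870912) (P3 := 536870912) (W3 := 50465866) (N0 := 3) (En := eng) (mo := mog) (C1 := cd3q1) (C2 := cd3q3) (C3 := pd1)
    rfl (fun _ => rfl) k0_pm_113

noncomputable def f_pm_123 : ℕ → ℕ → ℕ → ℕ → Bool := onCell 1073741824 536870912 1610612736 536870912 536870912 50465866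
    (rowB 3 eng mog cd3q1 cd3q3 pd2 2 false true false .npn 1 2 3 (qsf 536870912 536870912 1610612736 536870912 2) ndB3q1 ndB3q3 pcB2 Cut.none Ext.none)

def k0_pm_123 : ∃ t, chk3 f_pm_123 t 1 1 1 = true :=
  ⟨(a (b (l 4) (a (b (l 17120224) (l 16891176)) (b (l 4) (a (l 16855192) (l 16837520))))) (b (l 4) (a (b (l 4) (l 233774243559)) (l 4)))), by decide +kernel⟩

theorem c_pm_123 : CertB 536870912 536870912 1610612736 536870912 536870912 50465866 3 eng mog cd3q1 cd3q3 pd2 false true false .npn 1 2 3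
    ndB3q1 ndB3q3 pcB2 Cut.none Ext.none :=
  certB2 (fam := false) (s1 := true) (s2 := false) (a := 1) (b := 2) (c := 3) (cn := .npn) (n1 := ndB3q1) (n2 := ndB3q3) (pc := pcB2) (cut := Cut.none) (xt := Ext.none) (P1 := 536870912) (W1 := 536870912) (P2 := 1610612736) (W2 := 536870912) (P3 := 536870912) (W3 := 50465866) (N0 := 3) (En := eng) (mo := mog) (C1 := cd3q1) (C2 := cd3q3) (C3 := pd2)
    rfl (fun _ => rfl) k0_pm_123

noncomputable def f_pm_133 : ℕ → ℕ → ℕ → ℕ → Bool := onCell 536870912 536870912 1610612736 536870912 536870912 50465866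
    (rowB 3 eng mog cd3q1 cd3q3 pd3 0 false true false .dn 1 3 3 (qsf 536870912 536870912 1610612736 536870912 3) ndB3q1 ndB3q3 pcB3 Cut.none Ext.none)

def k0_pm_133 : ∃ t, chk3 f_pm_133 t 1 1 1 = true :=
  ⟨(a (a (l 4) (l 1)) (l 1)), by decide +kernel⟩

theorem c_pm_133 : CertB 536870912 536870912 1610612736 536870912 536870912 50465866 3 eng mog cd3q1 cd3q3 pd3 false true false .dn 1 3 3
    ndB3q1 ndB3q3 pcB3 Cut.none Ext.none :=
  certB0 (fam := false) (s1 := true) (s2 := false) (a := 1) (b := 3) (c := 3) (cn := .dn) (n1 := ndB3q1) (n2 := ndB3q3) (pc := pcB3) (cut := Cut.none) (xt := Ext.none) (P1 := 536870912) (W1 := 536870912) (P2 := 1610612736) (W2 := 536870912) (P3 := 536870912) (W3 := 50465866) (N0 := 3) (En := eng) (mo := mog) (C1 := cd3q1) (C2 := cd3q3) (C3 := pd3)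
    rfl k0_pm_133

noncomputable def cut_pm_202_aa : Cut := Cut.of [[⟨0, 1, 0, 67108864⟩, ⟨1, 0, 0, 67108864⟩, ⟨2, 1, 0, 67108864⟩]]

noncomputable def f_pm_202_aa : ℕ → ℕ → ℕ → ℕ → Bool := onCell 0 536870912 0 536870912 536870912 50465866
    (rowB 3 eng mog cd3q2a cd3q2a pd0 0 false true false .pp 2 0 2 (qsf 0 536870912 0 536870912 0) ndB3q2a ndB3q2a pcB0 cut_pm_202_aa Ext.none)

def k0_pm_202_aa : ∃ t, chk3 f_pm_202_aa t 1 1 1 = true :=
  ⟨(a (l 3) (b (l 3) (b (l 3) (a (l 3) (a (l 3) (b (l 3) (l 6))))))), by decide +kernel⟩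

theorem c_pm_202_aa : CertB 0 536870912 0 536870912 536870912 50465866 3 eng mog cd3q2a cd3q2a pd0 false true false .pp 2 0 2
    ndB3q2a ndB3q2a pcB0 cut_pm_202_aa Ext.none :=
  certB0 (fam := false) (s1 := true) (s2 := false) (a := 2) (b := 0) (c := 2) (cn := .pp) (n1 := ndB3q2a) (n2 := ndB3q2a) (pc := pcB0) (cut := cut_pm_202_aa) (xt := Ext.none) (P1 := 0) (W1 := 536870912) (P2 := 0) (W2 := 536870912) (P3 := 536870912) (W3 := 50465866) (N0 := 3) (En := eng) (mo := mog) (C1 := cd3q2a) (C2 := cd3q2a) (C3 := pd0)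
    rfl k0_pm_202_aa

noncomputable def cut_pm_202_ab : Cut := Cut.of [[⟨0, 1, 0, 67108864⟩, ⟨1, 0, 0, 67108864⟩, ⟨2, 1, 0, 67108864⟩]]

noncomputable def f_pm_202_ab : ℕ → ℕ → ℕ → ℕ → Bool := onCell 0 536870912 1239849684 370763052 536870912 50465866
    (rowB 3 eng mog cd3q2a cd3q2b pd0 0 false true false .pp 2 0 2 (qsf 0 536870912 1239849684 370763052 0) ndB3q2a ndB3q2b pcB0 cut_pm_202_ab Ext.none)

def k0_pm_202_ab : ∃ t, chk3 f_pm_202_ab t 1 1 1 = true :=
  ⟨(l 3), by decide +kernel⟩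

theorem c_pm_202_ab : CertB 0 536870912 1239849684 370763052 536870912 50465866 3 eng mog cd3q2a cd3q2b pd0 false true false .pp 2 0 2
    ndB3q2a ndB3q2b pcB0 cut_pm_202_ab Ext.none :=
  certB0 (fam := false) (s1 := true) (s2 := false) (a := 2) (b := 0) (c := 2) (cn := .pp) (n1 := ndB3q2a) (n2 := ndB3q2b) (pc := pcB0) (cut := cut_pm_202_ab) (xt := Ext.none) (P1 := 0) (W1 := 536870912) (P2 := 1239849684) (W2 := 370763052) (P3 := 536870912) (W3 := 50465866) (N0 := 3) (En := eng) (mo := mog) (C1 := cd3q2a) (C2 := cd3q2b) (C3 := pd0)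
    rfl k0_pm_202_ab

noncomputable def cut_pm_202_ba : Cut := Cut.of [[⟨0, 1, 0, 67108864⟩, ⟨1, 0, 0, 67108864⟩, ⟨2, 1, 0, 67108864⟩]]

noncomputable def f_pm_202_ba : ℕ → ℕ → ℕ → ℕ → Bool := onCell 1239849684 370763052 0 536870912 536870912 50465866
    (rowB 3 eng mog cd3q2b cd3q2a pd0 0 false true false .pp 2 0 2 (qsf 1239849684 370763052 0 536870912 0) ndB3q2b ndB3q2a pcB0 cut_pm_202_ba Ext.none)

def k0_pm_202_ba : ∃ t, chk3 f_pm_202_ba t 1 1 1 = true :=
  ⟨(l 3), by decide +kernel⟩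

theorem c_pm_202_ba : CertB 1239849684 370763052 0 536870912 536870912 50465866 3 eng mog cd3q2b cd3q2a pd0 false true false .pp 2 0 2
    ndB3q2b ndB3q2a pcB0 cut_pm_202_ba Ext.none :=
  certB0 (fam := false) (s1 := true) (s2 := false) (a := 2) (b := 0) (c := 2) (cn := .pp) (n1 := ndB3q2b) (n2 := ndB3q2a) (pc := pcB0) (cut := cut_pm_202_ba) (xt := Ext.none) (P1 := 1239849684) (W1 := 370763052) (P2 := 0) (W2 := 536870912) (P3 := 536870912) (W3 := 50465866) (N0 := 3) (En := eng) (mo := mog) (C1 := cd3q2b) (C2 := cd3q2a) (C3 := pd0)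
    rfl k0_pm_202_ba

noncomputable def cut_pm_202_bb : Cut := Cut.of [[⟨0, 1, 0, 67108864⟩, ⟨1, 0, 0, 67108864⟩, ⟨2, 1, 0, 67108864⟩]]

noncomputable def f_pm_202_bb : ℕ → ℕ → ℕ → ℕ → Bool := onCell 1239849684 370763052 1239849684 370763052 536870912 50465866
    (rowB 3 eng mog cd3q2b cd3q2b pd0 0 false true false .pp 2 0 2 (qsf 1239849684 370763052 1239849684 370763052 0) ndB3q2b ndB3q2b pcB0 cut_pm_202_bb Ext.none)

def k0_pm_202_bb : ∃ t, chk3 f_pm_202_bb t 1 1 1 = true :=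
  ⟨(l 3), by decide +kernel⟩

theorem c_pm_202_bb : CertB 1239849684 370763052 1239849684 370763052 536870912 50465866 3 eng mog cd3q2b cd3q2b pd0 false true false .pp 2 0 2
    ndB3q2b ndB3q2b pcB0 cut_pm_202_bb Ext.none :=
  certB0 (fam := false) (s1 := true) (s2 := false) (a := 2) (b := 0) (c := 2) (cn := .pp) (n1 := ndB3q2b) (n2 := ndB3q2b) (pc := pcB0) (cut := cut_pm_202_bb) (xt := Ext.none) (P1 := 1239849684) (W1 := 370763052) (P2 := 1239849684) (W2 := 370763052) (P3 := 536870912) (W3 := 50465866) (N0 := 3) (En := eng) (mo := mog) (C1 := cd3q2b) (C2 := cd3q2b) (C3 := pd0)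
    rfl k0_pm_202_bb

noncomputable def f_pm_203_a : ℕ → ℕ → ℕ → ℕ → Bool := onCell 0 536870912 0 536870912 536870912 50465866
    (rowB 3 eng mog cd3q2a cd3q3 pd0 1 false true false .up 2 0 3 (qsf 0 536870912 1610612736 536870912 0) ndB3q2a ndB3q3 pcB0 Cut.none Ext.none)

def k0_pm_203_a : ∃ t, chk3 f_pm_203_a t 1 1 1 = true :=
  ⟨(l 3), by decide +kernel⟩

theorem c_pm_203_a : CertB 0 536870912 1610612736 536870912 536870912 50465866 3 eng mog cd3q2a cd3q3 pd0 false true false .up 2 0 3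
    ndB3q2a ndB3q3 pcB0 Cut.none Ext.none :=
  certB1 (fam := false) (s1 := true) (s2 := false) (a := 2) (b := 0) (c := 3) (cn := .up) (n1 := ndB3q2a) (n2 := ndB3q3) (pc := pcB0) (cut := Cut.none) (xt := Ext.none) (P1 := 0) (W1 := 536870912) (P2 := 1610612736) (W2 := 536870912) (P3 := 536870912) (W3 := 50465866) (N0 := 3) (En := eng) (mo := mog) (C1 := cd3q2a) (C2 := cd3q3) (C3 := pd0)
    rfl (fun _ => rfl) k0_pm_203_a

noncomputable def f_pm_203_b : ℕ → ℕ → ℕ → ℕ → Bool := onCell 1239849684 370763052 1610612736 536870912 536870912 50465866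
    (rowB 3 eng mog cd3q2b cd3q3 pd0 0 false true false .up 2 0 3 (qsf 1239849684 370763052 1610612736 536870912 0) ndB3q2b ndB3q3 pcB0 Cut.none Ext.none)

def k0_pm_203_b : ∃ t, chk3 f_pm_203_b t 1 1 1 = true :=
  ⟨(l 3), by decide +kernel⟩

theorem c_pm_203_b : CertB 1239849684 370763052 1610612736 536870912 536870912 50465866 3 eng mog cd3q2b cd3q3 pd0 false true false .up 2 0 3
    ndB3q2b ndB3q3 pcB0 Cut.none Ext.none :=
  certB0 (fam := false) (s1 := true) (s2 := false) (a := 2) (b := 0) (c := 3) (cn := .up) (n1 := ndB3q2b) (n2 := ndB3q3) (pc := pcB0) (cut := Cut.none) (xt := Ext.none) (P1 := 1239849684) (W1 := 370763052) (P2 := 1610612736) (W2 := 536870912) (P3 := 536870912) (W3 := 50465866) (N0 := 3) (En := eng) (mo := mog) (C1 := cd3q2b) (C2 := cd3q3) (C3 := pd0)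
    rfl k0_pm_203_b

noncomputable def cut_pm_213_a : Cut := Cut.of [[⟨0, 1, 0, 67108864⟩, ⟨1, 1, 0, 67108864⟩, ⟨2, 2, 0, 16777216⟩]]

noncomputable def f_pm_213_a : ℕ → ℕ → ℕ → ℕ → Bool := onCell 0 536870912 1610612736 536870912 536870912 50465866
    (rowB 3 eng mog cd3q2a cd3q3 pd1 0 false true false .pnn 2 1 3 (qsf 0 536870912 1610612736 536870912 1) ndB3q2a ndB3q3 pcB1 cut_pm_213_a Ext.none)

def k0_pm_213_a : ∃ t, chk3 f_pm_213_a t 1 1 1 = true :=
  ⟨(b (l 3) (a (l 3) (b (l 3) (a (l 3) (b (l 3) (a (l 3) (b (l 3) (b (l 3) (b (l 3) (l 6)))))))))), by decide +kernel⟩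

theorem c_pm_213_a : CertB 0 536870912 1610612736 536870912 536870912 50465866 3 eng mog cd3q2a cd3q3 pd1 false true false .pnn 2 1 3
    ndB3q2a ndB3q3 pcB1 cut_pm_213_a Ext.none :=
  certB0 (fam := false) (s1 := true) (s2 := false) (a := 2) (b := 1) (c := 3) (cn := .pnn) (n1 := ndB3q2a) (n2 := ndB3q3) (pc := pcB1) (cut := cut_pm_213_a) (xt := Ext.none) (P1 := 0) (W1 := 536870912) (P2 := 1610612736) (W2 := 536870912) (P3 := 536870912) (W3 := 50465866) (N0 := 3) (En := eng) (mo := mog) (C1 := cd3q2a) (C2 := cd3q3) (C3 := pd1)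
    rfl k0_pm_213_a

noncomputable def cut_pm_213_b : Cut := Cut.of [[⟨0, 1, 0, 67108864⟩, ⟨1, 1, 0, 67108864⟩, ⟨2, 2, 0, 16777216⟩]]

noncomputable def f_pm_213_b : ℕ → ℕ → ℕ → ℕ → Bool := onCell 1239849684 370763052 1610612736 536870912 536870912 50465866
    (rowB 3 eng mog cd3q2b cd3q3 pd1 0 false true false .pnn 2 1 3 (qsf 1239849684 370763052 1610612736 536870912 1) ndB3q2b ndB3q3 pcB1 cut_pm_213_b Ext.none)

def k0_pm_213_b : ∃ t, chk3 f_pm_213_b t 1 1 1 = true :=
  ⟨(l 3), by decide +kernel⟩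

theorem c_pm_213_b : CertB 1239849684 370763052 1610612736 536870912 536870912 50465866 3 eng mog cd3q2b cd3q3 pd1 false true false .pnn 2 1 3
    ndB3q2b ndB3q3 pcB1 cut_pm_213_b Ext.none :=
  certB0 (fam := false) (s1 := true) (s2 := false) (a := 2) (b := 1) (c := 3) (cn := .pnn) (n1 := ndB3q2b) (n2 := ndB3q3) (pc := pcB1) (cut := cut_pm_213_b) (xt := Ext.none) (P1 := 1239849684) (W1 := 370763052) (P2 := 1610612736) (W2 := 536870912) (P3 := 536870912) (W3 := 50465866) (N0 := 3) (En := eng) (mo := mog) (C1 := cd3q2b) (C2 := cd3q3) (C3 := pd1)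
    rfl k0_pm_213_b

noncomputable def f_pm_303 : ℕ → ℕ → ℕ → ℕ → Bool := onCell 1610612736 536870912 1610612736 536870912 536870912 50465866
    (rowB 3 eng mog cd3q3 cd3q3 pd0 0 false true false .npn 3 0 3 (qsf 1610612736 536870912 1610612736 536870912 0) ndB3q3 ndB3q3 pcB0 Cut.none Ext.none)

def k0_pm_303 : ∃ t, chk3 f_pm_303 t 1 1 1 = true :=
  ⟨(l 3), by decide +kernel⟩

theorem c_pm_303 : CertB 1610612736 536870912 1610612736 536870912 536870912 50465866 3 eng mog cd3q3 cd3q3 pd0 false true false .npn 3 0 3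
    ndB3q3 ndB3q3 pcB0 Cut.none Ext.none :=
  certB0 (fam := false) (s1 := true) (s2 := false) (a := 3) (b := 0) (c := 3) (cn := .npn) (n1 := ndB3q3) (n2 := ndB3q3) (pc := pcB0) (cut := Cut.none) (xt := Ext.none) (P1 := 1610612736) (W1 := 536870912) (P2 := 1610612736) (W2 := 536870912) (P3 := 536870912) (W3 := 50465866) (N0 := 3) (En := eng) (mo := mog) (C1 := cd3q3) (C2 := cd3q3) (C3 := pd0)
    rfl k0_pm_303

noncomputable def f_pm_313 : ℕ → ℕ → ℕ → ℕ → Bool := onCell 1610612736 536870912 1610612736 536870912 536870912 50465866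
    (rowB 3 eng mog cd3q3 cd3q3 pd1 0 false true false .dn 3 1 3 (qsf 1610612736 536870912 1610612736 536870912 1) ndB3q3 ndB3q3 pcB1 Cut.none Ext.none)

def k0_pm_313 : ∃ t, chk3 f_pm_313 t 1 1 1 = true :=
  ⟨(l 3), by decide +kernel⟩

theorem c_pm_313 : CertB 1610612736 536870912 1610612736 536870912 536870912 50465866 3 eng mog cd3q3 cd3q3 pd1 false true false .dn 3 1 3
    ndB3q3 ndB3q3 pcB1 Cut.none Ext.none :=
  certB0 (fam := false) (s1 := true) (s2 := false) (a := 3) (b := 1) (c := 3) (cn := .dn) (n1 := ndB3q3) (n2 := ndB3q3) (pc := pcB1) (cut := Cut.none) (xt := Ext.none) (P1 := 1610612736) (W1 := 536870912) (P2 := 1610612736) (W2 := 536870912) (P3 := 536870912) (W3 := 50465866) (N0 := 3) (En := eng) (mo := mog) (C1 := cd3q3) (C2 := cd3q3) (C3 := pd1)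
    rfl k0_pm_313

noncomputable def f_mm_001 : ℕ → ℕ → ℕ → ℕ → Bool := onCell 0 536870912 536870912 536870912 536870912 50465866
    (rowB 3 eng mog cd3q0 cd3q1 pd0 0 false false false .up 0 0 1 (qsf 0 536870912 536870912 536870912 0) ndB3q0 ndB3q1 pcB0 Cut.none Ext.none)

def k0_mm_001 : ∃ t, chk3 f_mm_001 t 1 1 1 = true :=
  ⟨(l 3), by decide +kernel⟩

theorem c_mm_001 : CertB 0 536870912 536870912 536870912 536870912 50465866 3 eng mog cd3q0 cd3q1 pd0 false false false .up 0 0 1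
    ndB3q0 ndB3q1 pcB0 Cut.none Ext.none :=
  certB0 (fam := false) (s1 := false) (s2 := false) (a := 0) (b := 0) (c := 1) (cn := .up) (n1 := ndB3q0) (n2 := ndB3q1) (pc := pcB0) (cut := Cut.none) (xt := Ext.none) (P1 := 0) (W1 := 536870912) (P2 := 536870912) (W2 := 536870912) (P3 := 536870912) (W3 := 50465866) (N0 := 3) (En := eng) (mo := mog) (C1 := cd3q0) (C2 := cd3q1) (C3 := pd0)
    rfl k0_mm_001

noncomputable def f_mm_011 : ℕ → ℕ → ℕ → ℕ → Bool := onCell 0 536870912 536870912 536870912 536870912 50465866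
    (rowB 3 eng mog cd3q0 cd3q1 pd1 0 false false false .pnn 0 1 1 (qsf 0 536870912 536870912 536870912 1) ndB3q0 ndB3q1 pcB1 Cut.none Ext.none)

def k0_mm_011 : ∃ t, chk3 f_mm_011 t 1 1 1 = true :=
  ⟨(l 3), by decide +kernel⟩

theorem c_mm_011 : CertB 0 536870912 536870912 536870912 536870912 50465866 3 eng mog cd3q0 cd3q1 pd1 false false false .pnn 0 1 1
    ndB3q0 ndB3q1 pcB1 Cut.none Ext.none :=
  certB0 (fam := false) (s1 := false) (s2 := false) (a := 0) (b := 1) (c := 1) (cn := .pnn) (n1 := ndB3q0) (n2 := ndB3q1) (pc := pcB1) (cut := Cut.none) (xt := Ext.none) (P1 := 0) (W1 := 536870912) (P2 := 536870912) (W2 := 536870912) (P3 := 536870912) (W3 := 50465866) (N0 := 3) (En := eng) (mo := mog) (C1 := cd3q0) (C2 := cd3q1) (C3 := pd1)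
    rfl k0_mm_011

noncomputable def f_mm_012_a : ℕ → ℕ → ℕ → ℕ → Bool := onCell 0 536870912 0 536870912 536870912 50465866
    (rowB 3 eng mog cd3q0 cd3q2a pd1 0 false false false .pnp 0 1 2 (qsf 0 536870912 0 536870912 1) ndB3q0 ndB3q2a pcB1 Cut.none Ext.none)

def k0_mm_012_a : ∃ t, chk3 f_mm_012_a t 1 1 1 = true :=
  ⟨(l 5), by decide +kernel⟩

theorem c_mm_012_a : CertB 0 536870912 0 536870912 536870912 50465866 3 eng mog cd3q0 cd3q2a pd1 false false false .pnp 0 1 2
    ndB3q0 ndB3q2a pcB1 Cut.none Ext.none :=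
  certB0 (fam := false) (s1 := false) (s2 := false) (a := 0) (b := 1) (c := 2) (cn := .pnp) (n1 := ndB3q0) (n2 := ndB3q2a) (pc := pcB1) (cut := Cut.none) (xt := Ext.none) (P1 := 0) (W1 := 536870912) (P2 := 0) (W2 := 536870912) (P3 := 536870912) (W3 := 50465866) (N0 := 3) (En := eng) (mo := mog) (C1 := cd3q0) (C2 := cd3q2a) (C3 := pd1)
    rfl k0_mm_012_a

noncomputable def f_mm_012_b : ℕ → ℕ → ℕ → ℕ → Bool := onCell 0 536870912 1239849684 370763052 536870912 50465866
    (rowB 3 eng mog cd3q0 cd3q2b pd1 0 false false false .pnp 0 1 2 (qsf 0 536870912 1239849684 370763052 1) ndB3q0 ndB3q2b pcB1 Cut.none Ext.none)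

def k0_mm_012_b : ∃ t, chk3 f_mm_012_b t 1 1 1 = true :=
  ⟨(l 5), by decide +kernel⟩

theorem c_mm_012_b : CertB 0 536870912 1239849684 370763052 536870912 50465866 3 eng mog cd3q0 cd3q2b pd1 false false false .pnp 0 1 2
    ndB3q0 ndB3q2b pcB1 Cut.none Ext.none :=
  certB0 (fam := false) (s1 := false) (s2 := false) (a := 0) (b := 1) (c := 2) (cn := .pnp) (n1 := ndB3q0) (n2 := ndB3q2b) (pc := pcB1) (cut := Cut.none) (xt := Ext.none) (P1 := 0) (W1 := 536870912) (P2 := 1239849684) (W2 := 370763052) (P3 := 536870912) (W3 := 50465866) (N0 := 3) (En := eng) (mo := mog) (C1 := cd3q0) (C2 := cd3q2b) (C3 := pd1)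
    rfl k0_mm_012_b

noncomputable def f_mm_022_a : ℕ → ℕ → ℕ → ℕ → Bool := onCell 0 536870912 0 536870912 536870912 50465866
    (rowB 3 eng mog cd3q0 cd3q2a pd2 0 false false false .pp 0 2 2 (qsf 0 536870912 0 536870912 2) ndB3q0 ndB3q2a pcB2 Cut.none Ext.none)

def k0_mm_022_a : ∃ t, chk3 f_mm_022_a t 1 1 1 = true :=
  ⟨(l 5), by decide +kernel⟩

theorem c_mm_022_a : CertB 0 536870912 0 536870912 536870912 50465866 3 eng mog cd3q0 cd3q2a pd2 false false false .pp 0 2 2
    ndB3q0 ndB3q2a pcB2 Cut.none Ext.none :=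
  certB0 (fam := false) (s1 := false) (s2 := false) (a := 0) (b := 2) (c := 2) (cn := .pp) (n1 := ndB3q0) (n2 := ndB3q2a) (pc := pcB2) (cut := Cut.none) (xt := Ext.none) (P1 := 0) (W1 := 536870912) (P2 := 0) (W2 := 536870912) (P3 := 536870912) (W3 := 50465866) (N0 := 3) (En := eng) (mo := mog) (C1 := cd3q0) (C2 := cd3q2a) (C3 := pd2)
    rfl k0_mm_022_a

noncomputable def f_mm_022_b : ℕ → ℕ → ℕ → ℕ → Bool := onCell 0 536870912 1239849684 370763052 536870912 50465866
    (rowB 3 eng mog cd3q0 cd3q2b pd2 0 false false false .pp 0 2 2 (qsf 0 536870912 1239849684 370763052 2) ndB3q0 ndB3q2b pcB2 Cut.none Ext.none)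

def k0_mm_022_b : ∃ t, chk3 f_mm_022_b t 1 1 1 = true :=
  ⟨(l 5), by decide +kernel⟩

theorem c_mm_022_b : CertB 0 536870912 1239849684 370763052 536870912 50465866 3 eng mog cd3q0 cd3q2b pd2 false false false .pp 0 2 2
    ndB3q0 ndB3q2b pcB2 Cut.none Ext.none :=
  certB0 (fam := false) (s1 := false) (s2 := false) (a := 0) (b := 2) (c := 2) (cn := .pp) (n1 := ndB3q0) (n2 := ndB3q2b) (pc := pcB2) (cut := Cut.none) (xt := Ext.none) (P1 := 0) (W1 := 536870912) (P2 := 1239849684) (W2 := 370763052) (P3 := 536870912) (W3 := 50465866) (N0 := 3) (En := eng) (mo := mog) (C1 := cd3q0) (C2 := cd3q2b) (C3 := pd2)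
    rfl k0_mm_022_b

noncomputable def f_mm_023 : ℕ → ℕ → ℕ → ℕ → Bool := onCell 0 536870912 1610612736 536870912 536870912 50465866
    (rowB 3 eng mog cd3q0 cd3q3 pd2 0 false false false .up 0 2 3 (qsf 0 536870912 1610612736 536870912 2) ndB3q0 ndB3q3 pcB2 Cut.none Ext.none)

def k0_mm_023 : ∃ t, chk3 f_mm_023 t 1 1 1 = true :=
  ⟨(l 5), by decide +kernel⟩

theorem c_mm_023 : CertB 0 536870912 1610612736 536870912 536870912 50465866 3 eng mog cd3q0 cd3q3 pd2 false false false .up 0 2 3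
    ndB3q0 ndB3q3 pcB2 Cut.none Ext.none :=
  certB0 (fam := false) (s1 := false) (s2 := false) (a := 0) (b := 2) (c := 3) (cn := .up) (n1 := ndB3q0) (n2 := ndB3q3) (pc := pcB2) (cut := Cut.none) (xt := Ext.none) (P1 := 0) (W1 := 536870912) (P2 := 1610612736) (W2 := 536870912) (P3 := 536870912) (W3 := 50465866) (N0 := 3) (En := eng) (mo := mog) (C1 := cd3q0) (C2 := cd3q3) (C3 := pd2)
    rfl k0_mm_023

noncomputable def f_mm_033 : ℕ → ℕ → ℕ → ℕ → Bool := onCell 0 536870912 1610612736 536870912 536870912 50465866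
    (rowB 3 eng mog cd3q0 cd3q3 pd3 0 false false false .pnn 0 3 3 (qsf 0 536870912 1610612736 536870912 3) ndB3q0 ndB3q3 pcB3 Cut.none Ext.none)

def k0_mm_033 : ∃ t, chk3 f_mm_033 t 1 1 1 = true :=
  ⟨(l 5), by decide +kernel⟩

theorem c_mm_033 : CertB 0 536870912 1610612736 536870912 536870912 50465866 3 eng mog cd3q0 cd3q3 pd3 false false false .pnn 0 3 3
    ndB3q0 ndB3q3 pcB3 Cut.none Ext.none :=
  certB0 (fam := false) (s1 := false) (s2 := false) (a := 0) (b := 3) (c := 3) (cn := .pnn) (n1 := ndB3q0) (n2 := ndB3q3) (pc := pcB3) (cut := Cut.none) (xt := Ext.none) (P1 := 0) (W1 := 536870912) (P2 := 1610612736) (W2 := 536870912) (P3 := 536870912) (W3 := 50465866) (N0 := 3) (En := eng) (mo := mog) (C1 := cd3q0) (C2 := cd3q3) (C3 := pd3)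
    rfl k0_mm_033

noncomputable def f_mm_101 : ℕ → ℕ → ℕ → ℕ → Bool := onCell 536870912 536870912 536870912 536870912 536870912 50465866
    (rowB 3 eng mog cd3q1 cd3q1 pd0 0 false false false .npn 1 0 1 (qsf 536870912 536870912 536870912 536870912 0) ndB3q1 ndB3q1 pcB0 Cut.none Ext.none)

def k0_mm_101 : ∃ t, chk3 f_mm_101 t 1 1 1 = true :=
  ⟨(l 3), by decide +kernel⟩

theorem c_mm_101 : CertB 536870912 536870912 536870912 536870912 536870912 50465866 3 eng mog cd3q1 cd3q1 pd0 false false false .npn 1 0 1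
    ndB3q1 ndB3q1 pcB0 Cut.none Ext.none :=
  certB0 (fam := false) (s1 := false) (s2 := false) (a := 1) (b := 0) (c := 1) (cn := .npn) (n1 := ndB3q1) (n2 := ndB3q1) (pc := pcB0) (cut := Cut.none) (xt := Ext.none) (P1 := 536870912) (W1 := 536870912) (P2 := 536870912) (W2 := 536870912) (P3 := 536870912) (W3 := 50465866) (N0 := 3) (En := eng) (mo := mog) (C1 := cd3q1) (C2 := cd3q1) (C3 := pd0)
    rfl k0_mm_101

noncomputable def f_mm_102_a : ℕ → ℕ → ℕ → ℕ → Bool := onCell 536870912 536870912 0 536870912 536870912 50465866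
    (rowB 3 eng mog cd3q1 cd3q2a pd0 0 false false false .npp 1 0 2 (qsf 536870912 536870912 0 536870912 0) ndB3q1 ndB3q2a pcB0 Cut.none Ext.none)

def k0_mm_102_a : ∃ t, chk3 f_mm_102_a t 1 1 1 = true :=
  ⟨(l 5), by decide +kernel⟩

theorem c_mm_102_a : CertB 536870912 536870912 0 536870912 536870912 50465866 3 eng mog cd3q1 cd3q2a pd0 false false false .npp 1 0 2
    ndB3q1 ndB3q2a pcB0 Cut.none Ext.none :=
  certB0 (fam := false) (s1 := false) (s2 := false) (a := 1) (b := 0) (c := 2) (cn := .npp) (n1 := ndB3q1) (n2 := ndB3q2a) (pc := pcB0) (cut := Cut.none) (xt := Ext.none) (P1 := 536870912) (W1 := 536870912) (P2 := 0) (W2 := 536870912) (P3 := 536870912) (W3 := 50465866) (N0 := 3) (En := eng) (mo := mog) (C1 := cd3q1) (C2 := cd3q2a) (C3 := pd0)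
    rfl k0_mm_102_a

noncomputable def f_mm_102_b : ℕ → ℕ → ℕ → ℕ → Bool := onCell 536870912 536870912 1239849684 370763052 536870912 50465866
    (rowB 3 eng mog cd3q1 cd3q2b pd0 0 false false false .npp 1 0 2 (qsf 536870912 536870912 1239849684 370763052 0) ndB3q1 ndB3q2b pcB0 Cut.none Ext.none)

def k0_mm_102_b : ∃ t, chk3 f_mm_102_b t 1 1 1 = true :=
  ⟨(l 5), by decide +kernel⟩

theorem c_mm_102_b : CertB 536870912 536870912 1239849684 370763052 536870912 50465866 3 eng mog cd3q1 cd3q2b pd0 false false false .npp 1 0 2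
    ndB3q1 ndB3q2b pcB0 Cut.none Ext.none :=
  certB0 (fam := false) (s1 := false) (s2 := false) (a := 1) (b := 0) (c := 2) (cn := .npp) (n1 := ndB3q1) (n2 := ndB3q2b) (pc := pcB0) (cut := Cut.none) (xt := Ext.none) (P1 := 536870912) (W1 := 536870912) (P2 := 1239849684) (W2 := 370763052) (P3 := 536870912) (W3 := 50465866) (N0 := 3) (En := eng) (mo := mog) (C1 := cd3q1) (C2 := cd3q2b) (C3 := pd0)
    rfl k0_mm_102_b

noncomputable def f_mm_112_a : ℕ → ℕ → ℕ → ℕ → Bool := onCell 536870912 536870912 0 536870912 536870912 50465866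
    (rowB 3 eng mog cd3q1 cd3q2a pd1 0 false false false .dn 1 1 2 (qsf 536870912 536870912 0 536870912 1) ndB3q1 ndB3q2a pcB1 Cut.none Ext.none)

def k0_mm_112_a : ∃ t, chk3 f_mm_112_a t 1 1 1 = true :=
  ⟨(l 5), by decide +kernel⟩

theorem c_mm_112_a : CertB 536870912 536870912 0 536870912 536870912 50465866 3 eng mog cd3q1 cd3q2a pd1 false false false .dn 1 1 2
    ndB3q1 ndB3q2a pcB1 Cut.none Ext.none :=
  certB0 (fam := false) (s1 := false) (s2 := false) (a := 1) (b := 1) (c := 2) (cn := .dn) (n1 := ndB3q1) (n2 := ndB3q2a) (pc := pcB1) (cut := Cut.none) (xt := Ext.none) (P1 := 536870912) (W1 := 536870912) (P2 := 0) (W2 := 536870912) (P3 := 536870912) (W3 := 50465866) (N0 := 3) (En := eng) (mo := mog) (C1 := cd3q1) (C2 := cd3q2a) (C3 := pd1)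
    rfl k0_mm_112_a

noncomputable def f_mm_112_b : ℕ → ℕ → ℕ → ℕ → Bool := onCell 536870912 536870912 1239849684 370763052 536870912 50465866
    (rowB 3 eng mog cd3q1 cd3q2b pd1 0 false false false .dn 1 1 2 (qsf 536870912 536870912 1239849684 370763052 1) ndB3q1 ndB3q2b pcB1 Cut.none Ext.none)

def k0_mm_112_b : ∃ t, chk3 f_mm_112_b t 1 1 1 = true :=
  ⟨(l 5), by decide +kernel⟩

theorem c_mm_112_b : CertB 536870912 536870912 1239849684 370763052 536870912 50465866 3 eng mog cd3q1 cd3q2b pd1 false false false .dn 1 1 2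
    ndB3q1 ndB3q2b pcB1 Cut.none Ext.none :=
  certB0 (fam := false) (s1 := false) (s2 := false) (a := 1) (b := 1) (c := 2) (cn := .dn) (n1 := ndB3q1) (n2 := ndB3q2b) (pc := pcB1) (cut := Cut.none) (xt := Ext.none) (P1 := 536870912) (W1 := 536870912) (P2 := 1239849684) (W2 := 370763052) (P3 := 536870912) (W3 := 50465866) (N0 := 3) (En := eng) (mo := mog) (C1 := cd3q1) (C2 := cd3q2b) (C3 := pd1)
    rfl k0_mm_112_b

noncomputable def f_mm_113 : ℕ → ℕ → ℕ → ℕ → Bool := onCell 536870912 536870912 1610612736 536870912 536870912 50465866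
    (rowB 3 eng mog cd3q1 cd3q3 pd1 0 false false false .nn 1 1 3 (qsf 536870912 536870912 1610612736 536870912 1) ndB3q1 ndB3q3 pcB1 Cut.none Ext.none)

def k0_mm_113 : ∃ t, chk3 f_mm_113 t 1 1 1 = true :=
  ⟨(l 5), by decide +kernel⟩

theorem c_mm_113 : CertB 536870912 536870912 1610612736 536870912 536870912 50465866 3 eng mog cd3q1 cd3q3 pd1 false false false .nn 1 1 3
    ndB3q1 ndB3q3 pcB1 Cut.none Ext.none :=
  certB0 (fam := false) (s1 := false) (s2 := false) (a := 1) (b := 1) (c := 3) (cn := .nn) (n1 := ndB3q1) (n2 := ndB3q3) (pc := pcB1) (cut := Cut.none) (xt := Ext.none) (P1 := 536870912) (W1 := 536870912) (P2 := 1610612736) (W2 := 536870912) (P3 := 536870912) (W3 := 50465866) (N0 := 3) (En := eng) (mo := mog) (C1 := cd3q1) (C2 := cd3q3) (C3 := pd1)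
    rfl k0_mm_113

noncomputable def f_mm_123 : ℕ → ℕ → ℕ → ℕ → Bool := onCell 536870912 536870912 1610612736 536870912 536870912 50465866
    (rowB 3 eng mog cd3q1 cd3q3 pd2 0 false false false .npn 1 2 3 (qsf 536870912 536870912 1610612736 536870912 2) ndB3q1 ndB3q3 pcB2 Cut.none Ext.none)

def k0_mm_123 : ∃ t, chk3 f_mm_123 t 1 1 1 = true :=
  ⟨(l 5), by decide +kernel⟩

theorem c_mm_123 : CertB 536870912 536870912 1610612736 536870912 536870912 50465866 3 eng mog cd3q1 cd3q3 pd2 false false false .npn 1 2 3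
    ndB3q1 ndB3q3 pcB2 Cut.none Ext.none :=
  certB0 (fam := false) (s1 := false) (s2 := false) (a := 1) (b := 2) (c := 3) (cn := .npn) (n1 := ndB3q1) (n2 := ndB3q3) (pc := pcB2) (cut := Cut.none) (xt := Ext.none) (P1 := 536870912) (W1 := 536870912) (P2 := 1610612736) (W2 := 536870912) (P3 := 536870912) (W3 := 50465866) (N0 := 3) (En := eng) (mo := mog) (C1 := cd3q1) (C2 := cd3q3) (C3 := pd2)
    rfl k0_mm_123

noncomputable def f_mm_133 : ℕ → ℕ → ℕ → ℕ → Bool := onCell 536870912 536870912 1610612736 536870912 536870912 50465866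
    (rowB 3 eng mog cd3q1 cd3q3 pd3 0 false false false .dn 1 3 3 (qsf 536870912 536870912 1610612736 536870912 3) ndB3q1 ndB3q3 pcB3 Cut.none Ext.none)

def k0_mm_133 : ∃ t, chk3 f_mm_133 t 1 1 1 = true :=
  ⟨(l 5), by decide +kernel⟩

theorem c_mm_133 : CertB 536870912 536870912 1610612736 536870912 536870912 50465866 3 eng mog cd3q1 cd3q3 pd3 false false false .dn 1 3 3
    ndB3q1 ndB3q3 pcB3 Cut.none Ext.none :=
  certB0 (fam := false) (s1 := false) (s2 := false) (a := 1) (b := 3) (c := 3) (cn := .dn) (n1 := ndB3q1) (n2 := ndB3q3) (pc := pcB3) (cut := Cut.none) (xt := Ext.none) (P1 := 536870912) (W1 := 536870912) (P2 := 1610612736) (W2 := 536870912) (P3 := 536870912) (W3 := 50465866) (N0 := 3) (En := eng) (mo := mog) (C1 := cd3q1) (C2 := cd3q3) (C3 := pd3)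
    rfl k0_mm_133

noncomputable def f_mm_202_aa : ℕ → ℕ → ℕ → ℕ → Bool := onCell 0 536870912 0 536870912 536870912 50465866
    (rowB 3 eng mog cd3q2a cd3q2a pd0 0 false false false .pp 2 0 2 (qsf 0 536870912 0 536870912 0) ndB3q2a ndB3q2a pcB0 Cut.none Ext.none)

def k0_mm_202_aa : ∃ t, chk3 f_mm_202_aa t 1 1 1 = true :=
  ⟨(l 3), by decide +kernel⟩

theorem c_mm_202_aa : CertB 0 536870912 0 536870912 536870912 50465866 3 eng mog cd3q2a cd3q2a pd0 false false false .pp 2 0 2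
    ndB3q2a ndB3q2a pcB0 Cut.none Ext.none :=
  certB0 (fam := false) (s1 := false) (s2 := false) (a := 2) (b := 0) (c := 2) (cn := .pp) (n1 := ndB3q2a) (n2 := ndB3q2a) (pc := pcB0) (cut := Cut.none) (xt := Ext.none) (P1 := 0) (W1 := 536870912) (P2 := 0) (W2 := 536870912) (P3 := 536870912) (W3 := 50465866) (N0 := 3) (En := eng) (mo := mog) (C1 := cd3q2a) (C2 := cd3q2a) (C3 := pd0)
    rfl k0_mm_202_aa

noncomputable def f_mm_202_ab : ℕ → ℕ → ℕ → ℕ → Bool := onCell 0 536870912 1239849684 370763052 536870912 50465866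
    (rowB 3 eng mog cd3q2a cd3q2b pd0 0 false false false .pp 2 0 2 (qsf 0 536870912 1239849684 370763052 0) ndB3q2a ndB3q2b pcB0 Cut.none Ext.none)

def k0_mm_202_ab : ∃ t, chk3 f_mm_202_ab t 1 1 1 = true :=
  ⟨(l 3), by decide +kernel⟩

theorem c_mm_202_ab : CertB 0 536870912 1239849684 370763052 536870912 50465866 3 eng mog cd3q2a cd3q2b pd0 false false false .pp 2 0 2
    ndB3q2a ndB3q2b pcB0 Cut.none Ext.none :=
  certB0 (fam := false) (s1 := false) (s2 := false) (a := 2) (b := 0) (c := 2) (cn := .pp) (n1 := ndB3q2a) (n2 := ndB3q2b) (pc := pcB0) (cut := Cut.none) (xt := Ext.none) (P1 := 0) (W1 := 536870912) (P2 := 1239849684) (W2 := 370763052) (P3 := 536870912) (W3 := 50465866) (N0 := 3) (En := eng) (mo := mog) (C1 := cd3q2a) (C2 := cd3q2b) (C3 := pd0)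
    rfl k0_mm_202_ab

noncomputable def f_mm_202_ba : ℕ → ℕ → ℕ → ℕ → Bool := onCell 1239849684 370763052 0 536870912 536870912 50465866
    (rowB 3 eng mog cd3q2b cd3q2a pd0 0 false false false .pp 2 0 2 (qsf 1239849684 370763052 0 536870912 0) ndB3q2b ndB3q2a pcB0 Cut.none Ext.none)

def k0_mm_202_ba : ∃ t, chk3 f_mm_202_ba t 1 1 1 = true :=
  ⟨(l 3), by decide +kernel⟩

theorem c_mm_202_ba : CertB 1239849684 370763052 0 536870912 536870912 50465866 3 eng mog cd3q2b cd3q2a pd0 false false false .pp 2 0 2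
    ndB3q2b ndB3q2a pcB0 Cut.none Ext.none :=
  certB0 (fam := false) (s1 := false) (s2 := false) (a := 2) (b := 0) (c := 2) (cn := .pp) (n1 := ndB3q2b) (n2 := ndB3q2a) (pc := pcB0) (cut := Cut.none) (xt := Ext.none) (P1 := 1239849684) (W1 := 370763052) (P2 := 0) (W2 := 536870912) (P3 := 536870912) (W3 := 50465866) (N0 := 3) (En := eng) (mo := mog) (C1 := cd3q2b) (C2 := cd3q2a) (C3 := pd0)
    rfl k0_mm_202_ba

noncomputable def f_mm_202_bb : ℕ → ℕ → ℕ → ℕ → Bool := onCell 1239849684 370763052 1239849684 370763052 536870912 50465866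
    (rowB 3 eng mog cd3q2b cd3q2b pd0 0 false false false .pp 2 0 2 (qsf 1239849684 370763052 1239849684 370763052 0) ndB3q2b ndB3q2b pcB0 Cut.none Ext.none)

def k0_mm_202_bb : ∃ t, chk3 f_mm_202_bb t 1 1 1 = true :=
  ⟨(l 3), by decide +kernel⟩

theorem c_mm_202_bb : CertB 1239849684 370763052 1239849684 370763052 536870912 50465866 3 eng mog cd3q2b cd3q2b pd0 false false false .pp 2 0 2
    ndB3q2b ndB3q2b pcB0 Cut.none Ext.none :=
  certB0 (fam := false) (s1 := false) (s2 := false) (a := 2) (b := 0) (c := 2) (cn := .pp) (n1 := ndB3q2b) (n2 := ndB3q2b) (pc := pcB0) (cut := Cut.none) (xt := Ext.none) (P1 := 1239849684) (W1 := 370763052) (P2 := 1239849684) (W2 := 370763052) (P3 := 536870912) (W3 := 50465866) (N0 := 3) (En := eng) (mo := mog) (C1 := cd3q2b) (C2 := cd3q2b) (C3 := pd0)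
    rfl k0_mm_202_bb

noncomputable def f_mm_203_a : ℕ → ℕ → ℕ → ℕ → Bool := onCell 0 536870912 1610612736 536870912 536870912 50465866
    (rowB 3 eng mog cd3q2a cd3q3 pd0 0 false false false .up 2 0 3 (qsf 0 536870912 1610612736 536870912 0) ndB3q2a ndB3q3 pcB0 Cut.none Ext.none)

def k0_mm_203_a : ∃ t, chk3 f_mm_203_a t 1 1 1 = true :=
  ⟨(l 5), by decide +kernel⟩

theorem c_mm_203_a : CertB 0 536870912 1610612736 536870912 536870912 50465866 3 eng mog cd3q2a cd3q3 pd0 false false false .up 2 0 3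
    ndB3q2a ndB3q3 pcB0 Cut.none Ext.none :=
  certB0 (fam := false) (s1 := false) (s2 := false) (a := 2) (b := 0) (c := 3) (cn := .up) (n1 := ndB3q2a) (n2 := ndB3q3) (pc := pcB0) (cut := Cut.none) (xt := Ext.none) (P1 := 0) (W1 := 536870912) (P2 := 1610612736) (W2 := 536870912) (P3 := 536870912) (W3 := 50465866) (N0 := 3) (En := eng) (mo := mog) (C1 := cd3q2a) (C2 := cd3q3) (C3 := pd0)
    rfl k0_mm_203_a

noncomputable def f_mm_203_b : ℕ → ℕ → ℕ → ℕ → Bool := onCell 1239849684 370763052 1610612736 536870912 536870912 50465866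
    (rowB 3 eng mog cd3q2b cd3q3 pd0 0 false false false .up 2 0 3 (qsf 1239849684 370763052 1610612736 536870912 0) ndB3q2b ndB3q3 pcB0 Cut.none Ext.none)

def k0_mm_203_b : ∃ t, chk3 f_mm_203_b t 1 1 1 = true :=
  ⟨(l 3), by decide +kernel⟩

theorem c_mm_203_b : CertB 1239849684 370763052 1610612736 536870912 536870912 50465866 3 eng mog cd3q2b cd3q3 pd0 false false false .up 2 0 3
    ndB3q2b ndB3q3 pcB0 Cut.none Ext.none :=
  certB0 (fam := false) (s1 := false) (s2 := false) (a := 2) (b := 0) (c := 3) (cn := .up) (n1 := ndB3q2b) (n2 := ndB3q3) (pc := pcB0) (cut := Cut.none) (xt := Ext.none) (P1 := 1239849684) (W1 := 370763052) (P2 := 1610612736) (W2 := 536870912) (P3 := 536870912) (W3 := 50465866) (N0 := 3) (En := eng) (mo := mog) (C1 := cd3q2b) (C2 := cd3q3) (C3 := pd0)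
    rfl k0_mm_203_b

noncomputable def f_mm_213_a : ℕ → ℕ → ℕ → ℕ → Bool := onCell 0 536870912 1610612736 536870912 536870912 50465866
    (rowB 3 eng mog cd3q2a cd3q3 pd1 0 false false false .pnn 2 1 3 (qsf 0 536870912 1610612736 536870912 1) ndB3q2a ndB3q3 pcB1 Cut.none Ext.none)

def k0_mm_213_a : ∃ t, chk3 f_mm_213_a t 1 1 1 = true :=
  ⟨(l 5), by decide +kernel⟩

theorem c_mm_213_a : CertB 0 536870912 1610612736 536870912 536870912 50465866 3 eng mog cd3q2a cd3q3 pd1 false false false .pnn 2 1 3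
    ndB3q2a ndB3q3 pcB1 Cut.none Ext.none :=
  certB0 (fam := false) (s1 := false) (s2 := false) (a := 2) (b := 1) (c := 3) (cn := .pnn) (n1 := ndB3q2a) (n2 := ndB3q3) (pc := pcB1) (cut := Cut.none) (xt := Ext.none) (P1 := 0) (W1 := 536870912) (P2 := 1610612736) (W2 := 536870912) (P3 := 536870912) (W3 := 50465866) (N0 := 3) (En := eng) (mo := mog) (C1 := cd3q2a) (C2 := cd3q3) (C3 := pd1)
    rfl k0_mm_213_a

noncomputable def f_mm_213_b : ℕ → ℕ → ℕ → ℕ → Bool := onCell 1239849684 370763052 1610612736 536870912 536870912 50465866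
    (rowB 3 eng mog cd3q2b cd3q3 pd1 0 false false false .pnn 2 1 3 (qsf 1239849684 370763052 1610612736 536870912 1) ndB3q2b ndB3q3 pcB1 Cut.none Ext.none)

def k0_mm_213_b : ∃ t, chk3 f_mm_213_b t 1 1 1 = true :=
  ⟨(l 3), by decide +kernel⟩

theorem c_mm_213_b : CertB 1239849684 370763052 1610612736 536870912 536870912 50465866 3 eng mog cd3q2b cd3q3 pd1 false false false .pnn 2 1 3
    ndB3q2b ndB3q3 pcB1 Cut.none Ext.none :=
  certB0 (fam := false) (s1 := false) (s2 := false) (a := 2) (b := 1) (c := 3) (cn := .pnn) (n1 := ndB3q2b) (n2 := ndB3q3) (pc := pcB1) (cut := Cut.none) (xt := Ext.none) (P1 := 1239849684) (W1 := 370763052) (P2 := 1610612736) (W2 := 536870912) (P3 := 536870912) (W3 := 50465866) (N0 := 3) (En := eng) (mo := mog) (C1 := cd3q2b) (C2 := cd3q3) (C3 := pd1)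
    rfl k0_mm_213_b

noncomputable def f_mm_303 : ℕ → ℕ → ℕ → ℕ → Bool := onCell 1610612736 536870912 1610612736 536870912 536870912 50465866
    (rowB 3 eng mog cd3q3 cd3q3 pd0 0 false false false .npn 3 0 3 (qsf 1610612736 536870912 1610612736 536870912 0) ndB3q3 ndB3q3 pcB0 Cut.none Ext.none)

def k0_mm_303 : ∃ t, chk3 f_mm_303 t 1 1 1 = true :=
  ⟨(l 3), by decide +kernel⟩

theorem c_mm_303 : CertB 1610612736 536870912 1610612736 536870912 536870912 50465866 3 eng mog cd3q3 cd3q3 pd0 false false false .npn 3 0 3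
    ndB3q3 ndB3q3 pcB0 Cut.none Ext.none :=
  certB0 (fam := false) (s1 := false) (s2 := false) (a := 3) (b := 0) (c := 3) (cn := .npn) (n1 := ndB3q3) (n2 := ndB3q3) (pc := pcB0) (cut := Cut.none) (xt := Ext.none) (P1 := 1610612736) (W1 := 536870912) (P2 := 1610612736) (W2 := 536870912) (P3 := 536870912) (W3 := 50465866) (N0 := 3) (En := eng) (mo := mog) (C1 := cd3q3) (C2 := cd3q3) (C3 := pd0)
    rfl k0_mm_303

noncomputable def f_mm_313 : ℕ → ℕ → ℕ → ℕ → Bool := onCell 1610612736 536870912 1610612736 536870912 536870912 50465866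
    (rowB 3 eng mog cd3q3 cd3q3 pd1 0 false false false .dn 3 1 3 (qsf 1610612736 536870912 1610612736 536870912 1) ndB3q3 ndB3q3 pcB1 Cut.none Ext.none)

def k0_mm_313 : ∃ t, chk3 f_mm_313 t 1 1 1 = true :=
  ⟨(l 3), by decide +kernel⟩

theorem c_mm_313 : CertB 1610612736 536870912 1610612736 536870912 536870912 50465866 3 eng mog cd3q3 cd3q3 pd1 false false false .dn 3 1 3
    ndB3q3 ndB3q3 pcB1 Cut.none Ext.none :=
  certB0 (fam := false) (s1 := false) (s2 := false) (a := 3) (b := 1) (c := 3) (cn := .dn) (n1 := ndB3q3) (n2 := ndB3q3) (pc := pcB1) (cut := Cut.none) (xt := Ext.none) (P1 := 1610612736) (W1 := 536870912) (P2 := 1610612736) (W2 := 536870912) (P3 := 536870912) (W3 := 50465866) (N0 := 3) (En := eng) (mo := mog) (C1 := cd3q3) (C2 := cd3q3) (C3 := pd1)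
    rfl k0_mm_313

end Pool.Agent.Strip051.G.I5000_5470.Tab.C.BB33

namespace Pool.Agent.Strip051.G.I5000_5470.Tab.C.BB34

open Pool.Agent.Strip051.PB Pool.Agent.Strip051.PB.T
open Pool.Agent.Strip051.G.I5000_5470.Tab

noncomputable def f_pp_001 : ℕ → ℕ → ℕ → ℕ → Bool := onCell 0 536870912 0 536870912 536870912 50465866
    (rowB 3 eng mog cd3q0 cd4q1 pd0 1 false true true .up 0 0 1 (qsf 0 536870912 536870912 536870912 0) ndB3q0 ndB4q1 pcB0 Cut.none Ext.none)

def k0_pp_001 : ∃ t, chk3 f_pp_001 t 1 1 1 = true :=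
  ⟨(l 3), by decide +kernel⟩

theorem c_pp_001 : CertB 0 536870912 536870912 536870912 536870912 50465866 3 eng mog cd3q0 cd4q1 pd0 false true true .up 0 0 1
    ndB3q0 ndB4q1 pcB0 Cut.none Ext.none :=
  certB1 (fam := false) (s1 := true) (s2 := true) (a := 0) (b := 0) (c := 1) (cn := .up) (n1 := ndB3q0) (n2 := ndB4q1) (pc := pcB0) (cut := Cut.none) (xt := Ext.none) (P1 := 0) (W1 := 536870912) (P2 := 536870912) (W2 := 536870912) (P3 := 536870912) (W3 := 50465866) (N0 := 3) (En := eng) (mo := mog) (C1 := cd3q0) (C2 := cd4q1) (C3 := pd0)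
    rfl (fun _ => rfl) k0_pp_001

noncomputable def cut_pp_011 : Cut := Cut.of [[⟨0, 0, 0, 67108864⟩, ⟨1, 1, 0, 67108864⟩, ⟨2, 1, 0, 67108864⟩]]

noncomputable def f_pp_011 : ℕ → ℕ → ℕ → ℕ → Bool := onCell 0 536870912 536870912 536870912 536870912 50465866
    (rowB 3 eng mog cd3q0 cd4q1 pd1 1 false true true .pnn 0 1 1 (qsf 0 536870912 536870912 536870912 1) ndB3q0 ndB4q1 pcB1 cut_pp_011 Ext.none)

def k0_pp_011 : ∃ t, chk3 f_pp_011 t 1 1 1 = true :=
  ⟨(a (b (l 3) (b (l 3) (b (l 3) (a (a (b (l 3) (a (l 6) (l 3))) (l 3)) (l 2))))) (l 3)), by decide +kernel⟩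

theorem c_pp_011 : CertB 0 536870912 536870912 536870912 536870912 50465866 3 eng mog cd3q0 cd4q1 pd1 false true true .pnn 0 1 1
    ndB3q0 ndB4q1 pcB1 cut_pp_011 Ext.none :=
  certB1 (fam := false) (s1 := true) (s2 := true) (a := 0) (b := 1) (c := 1) (cn := .pnn) (n1 := ndB3q0) (n2 := ndB4q1) (pc := pcB1) (cut := cut_pp_011) (xt := Ext.none) (P1 := 0) (W1 := 536870912) (P2 := 536870912) (W2 := 536870912) (P3 := 536870912) (W3 := 50465866) (N0 := 3) (En := eng) (mo := mog) (C1 := cd3q0) (C2 := cd4q1) (C3 := pd1)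
    rfl (fun _ => rfl) k0_pp_011

noncomputable def f_pp_012 : ℕ → ℕ → ℕ → ℕ → Bool := onCell 0 536870912 536870912 536870912 536870912 50465866
    (rowB 3 eng mog cd3q0 cd4q2 pd1 1 false true true .pnp 0 1 2 (qsf 0 536870912 1073741824 536870912 1) ndB3q0 ndB4q2 pcB1 Cut.none Ext.none)

def k0_pp_012 : ∃ t, chk3 f_pp_012 t 1 1 1 = true :=
  ⟨(b (l 3) (a (l 3) (b (l 3) (a (b (l 3) (a (b (l 3) (l 16728536)) (b (l 16800440) (l 16745952)))) (b (a (l 367388170487) (l 234244247943)) (a (l 16909160) (b (l 16962240) (a (l 16918200) (l 16980064))))))))), by decide +kernel⟩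

theorem c_pp_012 : CertB 0 536870912 1073741824 536870912 536870912 50465866 3 eng mog cd3q0 cd4q2 pd1 false true true .pnp 0 1 2
    ndB3q0 ndB4q2 pcB1 Cut.none Ext.none :=
  certB1 (fam := false) (s1 := true) (s2 := true) (a := 0) (b := 1) (c := 2) (cn := .pnp) (n1 := ndB3q0) (n2 := ndB4q2) (pc := pcB1) (cut := Cut.none) (xt := Ext.none) (P1 := 0) (W1 := 536870912) (P2 := 1073741824) (W2 := 536870912) (P3 := 536870912) (W3 := 50465866) (N0 := 3) (En := eng) (mo := mog) (C1 := cd3q0) (C2 := cd4q2) (C3 := pd1)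
    rfl (fun _ => rfl) k0_pp_012

noncomputable def f_pp_022 : ℕ → ℕ → ℕ → ℕ → Bool := onCell 0 536870912 1073741824 536870912 536870912 50465866
    (rowB 3 eng mog cd3q0 cd4q2 pd2 1 false true true .pp 0 2 2 (qsf 0 536870912 1073741824 536870912 2) ndB3q0 ndB4q2 pcB2 Cut.none Ext.none)

def k0_pp_022 : ∃ t, chk3 f_pp_022 t 4 2 1 = true :=
  ⟨(b (b (l 3) (b (a (l 3) (a (b (l 3) (a (l 3) (l 16600680))) (b (l 16627136) (l 16598896)))) (a (a (b (l 3) (b (a (l 3) (l 16539536)) (a (a (b (l 3) (l 16520832)) (l 16542024)) (l 16587072)))) (b (a (l 140290636823) (b (l 16576976) (l 16562416))) (b (a (l 16543856) (l 16546184)) (a (c (l 16619056) (l 16522848)) (l 16528272))))) (b (a (b (l 16578152) (l 16561960)) (l 16568392)) (a (b (l 16544912) (l 16526848)) (l 16534952)))))) (b (b (b (a (a (a (b (a (b (l 16512800) (l 16504896)) (l 16547424)) (b (l 16578144) (l 16487192))) (b (b (l 16513120) (l 16504824)) (l 16491368))) (b (l 16510128) (l 16490096))) (a (l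 16577240) (l 16498328))) (a (b (a (a (b (l 16563688) (l 16555544)) (l 16556224)) (l 16470104)) (b (a (a (a (l 16600968) (l 16461144)) (l 16459776)) (l 16456824)) (a (a (b (a (l 16542088) (l 16456384)) (a (a (l 16582472) (l 16455440)) (l 16455520))) (b (l 16456096) (l 16455944))) (b (l 16454984) (l 16456400))))) (b (l 16468056) (b (l 16451728) (b (l 16448744) (l 16454064)))))) (a (b (a (a (a (l 16570000) (l 16445040)) (l 16446552)) (l 16449144)) (a (a (l 16425760) (l 16429976)) (l 16435800))) (l 16445984))) (a (a (a (b (a (l 16400608) (l 16404304)) (l 16380416)) (l 16399376)) (l 16412400)) (a (l 16426304) (l 16426296))))), by decide +kernel⟩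

def k1_pp_022 : ∃ t, chk3 f_pp_022 t 5 2 1 = true :=
  ⟨(b (b (a (b (l 3) (a (l 295983879735) (l 16696872))) (b (l 290615091991) (b (l 16646488) (l 16618040)))) (b (a (b (l 113447502439) (a (l 16596784) (l 16586248))) (l 16575968)) (a (b (l 16561976) (l 16529920)) (l 16517456)))) (b (b (a (b (l 16495064) (b (l 16466640) (b (l 16451288) (b (l 16442936) (l 16436904))))) (l 16516264)) (a (l 16403936) (l 16387304))) (a (l 16387424) (b (l 16310896) (a (l 16324448) (l 16283040)))))), by decide +kernel⟩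

def k2_pp_022 : ∃ t, chk3 f_pp_022 t 2 3 1 = true :=
  ⟨(a (b (a (a (a (b (b (l 16368472) (l 16367376)) (b (l 16372928) (l 16383848))) (b (l 16381712) (l 16394672))) (b (l 16400808) (l 16411912))) (b (l 16581296) (a (l 16419432) (b (l 16413600) (l 16429160))))) (b (a (a (a (b (l 16395328) (l 16392368)) (l 16406280)) (b (l 16419928) (a (l 16407872) (l 16425736)))) (a (b (l 16433904) (l 16474424)) (b (l 16475688) (l 16557744)))) (a (b (a (a (a (l 16384568) (b (l 16390232) (l 16390048))) (b (l 16397424) (l 16417832))) (a (l 16447696) (l 16497376))) (a (a (b (a (b (l 16385608) (l 16402536)) (l 16420816)) (a (c (l 16499064) (l 16413264)) (l 16491584))) (b (l 16469080) (l 16539896))) (a (l 16562024) (l 2)))) (b (a (l 16569120) (l 2)) (l 2))))) (b (a (b (a (l 16393336) (b (l 16365712) (l 16382600))) (a (b (l 16411712) (l 16461360)) (b (l 16435008) (l 16518984)))) (b (b (a (l 16340600) (l 16343912)) (a (l 16396672) (l 16438736))) (b (l 16506568) (l 2))))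 (b (a (a (b (l 16544680) (l 2)) (l 2)) (l 2)) (l 2)))), by decide +kernel⟩

def k3_pp_022 : ∃ t, chk3 f_pp_022 t 3 1 1 = true :=
  ⟨(b (a (b (b (a (b (l 16659008) (l 16602520)) (l 16661672)) (a (l 16522928) (b (l 16593568) (a (l 16527024) (l 16566368))))) (b (a (b (l 16440280) (a (l 16381056) (l 16372872))) (b (a (l 16471456) (l 16485648)) (a (l 16378528) (l 16357352)))) (a (b (a (l 16300768) (l 16255400)) (a (l 16273904) (l 16300488))) (b (l 16280664) (l 2))))) (b (b (a (b (l 16779104) (a (l 16706704) (l 16754336))) (b (a (l 16865832) (l 16890552)) (b (l 16803528) (l 16734112)))) (a (b (b (l 16681744) (l 16644576)) (a (l 16580592) (l 16560992))) (b (b (l 16674472) (l 2)) (l 2)))) (b (a (b (a (l 16464968) (l 2)) (l 2)) (l 2)) (l 2)))) (a (b (a (b (a (l 16426520) (l 2)) (l 2)) (l 2)) (l 2)) (l 2))), by decide +kernel⟩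

theorem s4_pp_022 : ∃ t, chk3 f_pp_022 t 2 2 1 = true := ex3_a k0_pp_022 k1_pp_022

theorem s5_pp_022 : ∃ t, chk3 f_pp_022 t 2 1 1 = true := ex3_b s4_pp_022 k2_pp_022

theorem s6_pp_022 : ∃ t, chk3 f_pp_022 t 1 1 1 = true := ex3_a s5_pp_022 k3_pp_022

theorem c_pp_022 : CertB 0 536870912 1073741824 536870912 536870912 50465866 3 eng mog cd3q0 cd4q2 pd2 false true true .pp 0 2 2
    ndB3q0 ndB4q2 pcB2 Cut.none Ext.none :=
  certB1 (fam := false) (s1 := true) (s2 := true) (a := 0) (b := 2) (c := 2) (cn := .pp) (n1 := ndB3q0) (n2 := ndB4q2) (pc := pcB2) (cut := Cut.none) (xt := Ext.none) (P1 := 0) (W1 := 536870912) (P2 := 1073741824) (W2 := 536870912) (P3 := 536870912) (W3 := 50465866) (N0 := 3) (En := eng) (mo := mog) (C1 := cd3q0) (C2 := cd4q2) (C3 := pd2)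
    rfl (fun _ => rfl) s6_pp_022

noncomputable def f_pp_023 : ℕ → ℕ → ℕ → ℕ → Bool := onCell 1073741824 536870912 0 1230186008 536870912 50465866
    (rowB 3 eng mog cd3q0 cd4q3 pd2 2 false true true .up 0 2 3 (qsf 0 536870912 0 1230186008 2) ndB3q0 ndB4q3 pcB2 Cut.none Ext.none)

def k0_pp_023 : ∃ t, chk3 f_pp_023 t 1 1 1 = true :=
  ⟨(b (a (l 2) (a (l 2) (a (l 16745000) (l 16746424)))) (b (a (a (l 2) (l 163309931191)) (a (b (l 16739096) (l 16712560)) (a (l 16692408) (b (l 16711944) (l 16666568))))) (a (b (a (l 2) (a (l 16816616) (l 16714152))) (a (b (l 16919416) (b (l 16860064) (l 16829160))) (b (a (l 16661568) (l 16499024)) (a (b (l 16552256) (l 16530320)) (l 16330776))))) (b (a (a (l 16620688) (l 16572888)) (a (l 16573040) (a (l 16589992) (l 16614736)))) (a (b (l 16423968) (b (l 16352104) (l 16337264))) (b (a (l 16488944) (a (l 16527544) (l 16564592))) (a (b (l 16455224) (l 16408168)) (b (a (l 16469272) (l 16494688)) (a (l 16400624) (b (l 16423856)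 (a (l 16370496) (l 16373968)))))))))))), by decide +kernel⟩

theorem c_pp_023 : CertB 0 536870912 0 1230186008 536870912 50465866 3 eng mog cd3q0 cd4q3 pd2 false true true .up 0 2 3
    ndB3q0 ndB4q3 pcB2 Cut.none Ext.none :=
  certB2 (fam := false) (s1 := true) (s2 := true) (a := 0) (b := 2) (c := 3) (cn := .up) (n1 := ndB3q0) (n2 := ndB4q3) (pc := pcB2) (cut := Cut.none) (xt := Ext.none) (P1 := 0) (W1 := 536870912) (P2 := 0) (W2 := 1230186008) (P3 := 536870912) (W3 := 50465866) (N0 := 3) (En := eng) (mo := mog) (C1 := cd3q0) (C2 := cd4q3) (C3 := pd2)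
    rfl (fun _ => rfl) k0_pp_023

noncomputable def f_pp_033 : ℕ → ℕ → ℕ → ℕ → Bool := onCell 1610612736 536870912 0 1230186008 536870912 50465866
    (rowB 3 eng mog cd3q0 cd4q3 pd3 2 false true true .pnn 0 3 3 (qsf 0 536870912 0 1230186008 3) ndB3q0 ndB4q3 pcB3 Cut.none Ext.none)

def k0_pp_033 : ∃ t, chk3 f_pp_033 t 1 1 1 = true :=
  ⟨(b (b (a (l 4) (l 4)) (a (a (a (l 16740224) (l 16736560)) (a (l 16735304) (l 16735736))) (a (a (l 4) (l 4)) (l 4)))) (b (a (a (a (b (l 16715336) (l 16683632)) (b (l 16714592) (l 16693872))) (a (b (l 16722264) (b (l 16708976) (l 16697584))) (b (l 16732512) (b (l 16722608) (l 16711768))))) (b (a (a (l 16740224) (a (l 16748344) (l 1198866759735))) (a (a (l 1234837113367) (l 1)) (l 1))) (a (a (b (l 736083934455) (l 1009350774807)) (b (a (l 1240742326999) (l 1)) (l 1))) (l 1)))) (a (b (a (a (b (l 16648880) (a (l 16601960) (l 16648536))) (b (l 16680616) (a (l 16676448) (l 16676744)))) (a (b (l 16686344) (b (a (l 16682200)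 (l 657700199207)) (l 649110285543))) (b (a (l 1007203329431) (l 975527853239)) (l 1)))) (a (b (a (a (l 16573048) (b (l 16631672) (l 16619472))) (a (b (l 16662136) (a (l 626561542631) (l 784401699911))) (b (l 621729842055) (l 794602252727)))) (a (b (a (b (l 16546192) (l 16476048)) (b (a (l 16583784) (l 639446465655)) (a (l 655552446007) (l 708702702967)))) (a (b (a (l 16432432) (l 661994732359)) (a (l 715144827223) (l 735545931767))) (b (a (l 745746631863) (l 1)) (l 1)))) (b (a (b (a (l 639983365095) (l 1)) (l 1)) (l 1)) (l 1)))) (b (a (b (a (l 805876570231) (l 1)) (l 1)) (l 1)) (l 1)))) (l 1)))), by decide +kernel⟩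

theorem c_pp_033 : CertB 0 536870912 0 1230186008 536870912 50465866 3 eng mog cd3q0 cd4q3 pd3 false true true .pnn 0 3 3
    ndB3q0 ndB4q3 pcB3 Cut.none Ext.none :=
  certB2 (fam := false) (s1 := true) (s2 := true) (a := 0) (b := 3) (c := 3) (cn := .pnn) (n1 := ndB3q0) (n2 := ndB4q3) (pc := pcB3) (cut := Cut.none) (xt := Ext.none) (P1 := 0) (W1 := 536870912) (P2 := 0) (W2 := 1230186008) (P3 := 536870912) (W3 := 50465866) (N0 := 3) (En := eng) (mo := mog) (C1 := cd3q0) (C2 := cd4q3) (C3 := pd3)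
    rfl (fun _ => rfl) k0_pp_033

noncomputable def f_pp_101 : ℕ → ℕ → ℕ → ℕ → Bool := onCell 536870912 536870912 536870912 536870912 536870912 50465866
    (rowB 3 eng mog cd3q1 cd4q1 pd0 0 false true true .npn 1 0 1 (qsf 536870912 536870912 536870912 536870912 0) ndB3q1 ndB4q1 pcB0 Cut.none Ext.none)

def k0_pp_101 : ∃ t, chk3 f_pp_101 t 1 1 1 = true :=
  ⟨(l 3), by decide +kernel⟩

theorem c_pp_101 : CertB 536870912 536870912 536870912 536870912 536870912 50465866 3 eng mog cd3q1 cd4q1 pd0 false true true .npn 1 0 1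
    ndB3q1 ndB4q1 pcB0 Cut.none Ext.none :=
  certB0 (fam := false) (s1 := true) (s2 := true) (a := 1) (b := 0) (c := 1) (cn := .npn) (n1 := ndB3q1) (n2 := ndB4q1) (pc := pcB0) (cut := Cut.none) (xt := Ext.none) (P1 := 536870912) (W1 := 536870912) (P2 := 536870912) (W2 := 536870912) (P3 := 536870912) (W3 := 50465866) (N0 := 3) (En := eng) (mo := mog) (C1 := cd3q1) (C2 := cd4q1) (C3 := pd0)
    rfl k0_pp_101

noncomputable def f_pp_102 : ℕ → ℕ → ℕ → ℕ → Bool := onCell 536870912 536870912 0 536870912 536870912 50465866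
    (rowB 3 eng mog cd3q1 cd4q2 pd0 1 false true true .npp 1 0 2 (qsf 536870912 536870912 1073741824 536870912 0) ndB3q1 ndB4q2 pcB0 Cut.none Ext.none)

def k0_pp_102 : ∃ t, chk3 f_pp_102 t 1 1 1 = true :=
  ⟨(l 3), by decide +kernel⟩

theorem c_pp_102 : CertB 536870912 536870912 1073741824 536870912 536870912 50465866 3 eng mog cd3q1 cd4q2 pd0 false true true .npp 1 0 2
    ndB3q1 ndB4q2 pcB0 Cut.none Ext.none :=
  certB1 (fam := false) (s1 := true) (s2 := true) (a := 1) (b := 0) (c := 2) (cn := .npp) (n1 := ndB3q1) (n2 := ndB4q2) (pc := pcB0) (cut := Cut.none) (xt := Ext.none) (P1 := 536870912) (W1 := 536870912) (P2 := 1073741824) (W2 := 536870912) (P3 := 536870912) (W3 := 50465866) (N0 := 3) (En := eng) (mo := mog) (C1 := cd3q1) (C2 := cd4q2) (C3 := pd0)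
    rfl (fun _ => rfl) k0_pp_102

noncomputable def f_pp_112 : ℕ → ℕ → ℕ → ℕ → Bool := onCell 536870912 536870912 1073741824 536870912 536870912 50465866
    (rowB 3 eng mog cd3q1 cd4q2 pd1 0 false true true .dn 1 1 2 (qsf 536870912 536870912 1073741824 536870912 1) ndB3q1 ndB4q2 pcB1 Cut.none Ext.none)

def k0_pp_112 : ∃ t, chk3 f_pp_112 t 1 1 1 = true :=
  ⟨(a (b (l 3) (b (l 3) (a (b (a (b (l 319069950519) (l 215990897255)) (l 457045576295)) (a (b (l 17081208) (l 17093248)) (b (l 266456660247) (a (l 17166112) (l 17038480))))) (b (l 3) (a (b (l 415168725063) (a (l 16946288) (l 16885552))) (l 3)))))) (l 3)), by decide +kernel⟩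

theorem c_pp_112 : CertB 536870912 536870912 1073741824 536870912 536870912 50465866 3 eng mog cd3q1 cd4q2 pd1 false true true .dn 1 1 2
    ndB3q1 ndB4q2 pcB1 Cut.none Ext.none :=
  certB0 (fam := false) (s1 := true) (s2 := true) (a := 1) (b := 1) (c := 2) (cn := .dn) (n1 := ndB3q1) (n2 := ndB4q2) (pc := pcB1) (cut := Cut.none) (xt := Ext.none) (P1 := 536870912) (W1 := 536870912) (P2 := 1073741824) (W2 := 536870912) (P3 := 536870912) (W3 := 50465866) (N0 := 3) (En := eng) (mo := mog) (C1 := cd3q1) (C2 := cd4q2) (C3 := pd1)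
    rfl k0_pp_112

noncomputable def f_pp_113 : ℕ → ℕ → ℕ → ℕ → Bool := onCell 536870912 536870912 0 1230186008 536870912 50465866
    (rowB 3 eng mog cd3q1 cd4q3 pd1 2 false true true .nn 1 1 3 (qsf 536870912 536870912 0 1230186008 1) ndB3q1 ndB4q3 pcB1 Cut.none Ext.none)

def k0_pp_113 : ∃ t, chk3 f_pp_113 t 1 1 1 = true :=
  ⟨(b (a (l 2) (a (l 2) (a (l 16864824) (l 16865944)))) (b (a (a (l 2) (b (l 2) (a (l 2) (a (l 2) (l 17065232))))) (a (b (a (l 2) (l 16977216)) (a (l 16974112) (l 17000136))) (b (l 16983216) (l 17039408)))) (a (b (a (l 2) (a (a (b (l 2) (l 3)) (b (l 574015840487) (l 319069130295))) (a (b (l 16880872) (l 16859408)) (b (l 16921384) (l 16902280))))) (a (l 3) (b (a (l 3) (a (l 308331881063) (l 16887296))) (l 3)))) (b (a (a (a (l 17151760) (l 16984440)) (b (l 17006040) (l 16994320))) (b (l 17074048) (l 17102256))) (a (b (a (a (l 16921072) (l 16953840)) (l 16999448)) (a (b (l 17054840) (l 348597594727)) (b (l 16984168) (l 16795736))))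 (b (a (l 17074000) (l 17254448)) (a (b (l 17099072) (l 17096776)) (l 17274336)))))))), by decide +kernel⟩

theorem c_pp_113 : CertB 536870912 536870912 0 1230186008 536870912 50465866 3 eng mog cd3q1 cd4q3 pd1 false true true .nn 1 1 3
    ndB3q1 ndB4q3 pcB1 Cut.none Ext.none :=
  certB2 (fam := false) (s1 := true) (s2 := true) (a := 1) (b := 1) (c := 3) (cn := .nn) (n1 := ndB3q1) (n2 := ndB4q3) (pc := pcB1) (cut := Cut.none) (xt := Ext.none) (P1 := 536870912) (W1 := 536870912) (P2 := 0) (W2 := 1230186008) (P3 := 536870912) (W3 := 50465866) (N0 := 3) (En := eng) (mo := mog) (C1 := cd3q1) (C2 := cd4q3) (C3 := pd1)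
    rfl (fun _ => rfl) k0_pp_113

noncomputable def f_pp_123 : ℕ → ℕ → ℕ → ℕ → Bool := onCell 1073741824 536870912 0 1230186008 536870912 50465866
    (rowB 3 eng mog cd3q1 cd4q3 pd2 2 false true true .npn 1 2 3 (qsf 536870912 536870912 0 1230186008 2) ndB3q1 ndB4q3 pcB2 Cut.none Ext.none)

def k0_pp_123 : ∃ t, chk3 f_pp_123 t 1 1 1 = true :=
  ⟨(b (b (a (a (l 16784664) (l 16763200)) (a (l 16763696) (l 16755528))) (a (a (l 16912872) (l 16844048)) (a (a (l 16793464) (l 16756760)) (l 16736152)))) (b (a (a (b (l 17051048) (l 17158736)) (b (l 16923064) (l 16893736))) (a (b (l 16746176) (l 16691784)) (a (l 16684824) (l 1)))) (a (b (a (a (l 17270872) (l 17064624)) (a (l 136399352455) (l 16668736))) (a (b (l 16944704) (b (l 16791616) (l 16748952))) (b (a (l 16590264) (l 1)) (l 1)))) (l 1)))), by decide +kernel⟩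

theorem c_pp_123 : CertB 536870912 536870912 0 1230186008 536870912 50465866 3 eng mog cd3q1 cd4q3 pd2 false true true .npn 1 2 3
    ndB3q1 ndB4q3 pcB2 Cut.none Ext.none :=
  certB2 (fam := false) (s1 := true) (s2 := true) (a := 1) (b := 2) (c := 3) (cn := .npn) (n1 := ndB3q1) (n2 := ndB4q3) (pc := pcB2) (cut := Cut.none) (xt := Ext.none) (P1 := 536870912) (W1 := 536870912) (P2 := 0) (W2 := 1230186008) (P3 := 536870912) (W3 := 50465866) (N0 := 3) (En := eng) (mo := mog) (C1 := cd3q1) (C2 := cd4q3) (C3 := pd2)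
    rfl (fun _ => rfl) k0_pp_123

noncomputable def f_pp_133 : ℕ → ℕ → ℕ → ℕ → Bool := onCell 1610612736 536870912 0 1230186008 536870912 50465866
    (rowB 3 eng mog cd3q1 cd4q3 pd3 2 false true true .dn 1 3 3 (qsf 536870912 536870912 0 1230186008 3) ndB3q1 ndB4q3 pcB3 Cut.none Ext.none)

def k0_pp_133 : ∃ t, chk3 f_pp_133 t 1 1 1 = true :=
  ⟨(b (b (a (l 4) (l 1)) (l 1)) (l 1)), by decide +kernel⟩

theorem c_pp_133 : CertB 536870912 536870912 0 1230186008 536870912 50465866 3 eng mog cd3q1 cd4q3 pd3 false true true .dn 1 3 3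
    ndB3q1 ndB4q3 pcB3 Cut.none Ext.none :=
  certB2 (fam := false) (s1 := true) (s2 := true) (a := 1) (b := 3) (c := 3) (cn := .dn) (n1 := ndB3q1) (n2 := ndB4q3) (pc := pcB3) (cut := Cut.none) (xt := Ext.none) (P1 := 536870912) (W1 := 536870912) (P2 := 0) (W2 := 1230186008) (P3 := 536870912) (W3 := 50465866) (N0 := 3) (En := eng) (mo := mog) (C1 := cd3q1) (C2 := cd4q3) (C3 := pd3)
    rfl (fun _ => rfl) k0_pp_133

noncomputable def f_pp_202_a : ℕ → ℕ → ℕ → ℕ → Bool := onCell 0 536870912 1073741824 536870912 536870912 50465866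
    (rowB 3 eng mog cd3q2a cd4q2 pd0 0 false true true .pp 2 0 2 (qsf 0 536870912 1073741824 536870912 0) ndB3q2a ndB4q2 pcB0 Cut.none Ext.none)

def k0_pp_202_a : ∃ t, chk3 f_pp_202_a t 1 1 1 = true :=
  ⟨(l 3), by decide +kernel⟩

theorem c_pp_202_a : CertB 0 536870912 1073741824 536870912 536870912 50465866 3 eng mog cd3q2a cd4q2 pd0 false true true .pp 2 0 2
    ndB3q2a ndB4q2 pcB0 Cut.none Ext.none :=
  certB0 (fam := false) (s1 := true) (s2 := true) (a := 2) (b := 0) (c := 2) (cn := .pp) (n1 := ndB3q2a) (n2 := ndB4q2) (pc := pcB0) (cut := Cut.none) (xt := Ext.none) (P1 := 0) (W1 := 536870912) (P2 := 1073741824) (W2 := 536870912) (P3 := 536870912) (W3 := 50465866) (N0 := 3) (En := eng) (mo := mog) (C1 := cd3q2a) (C2 := cd4q2) (C3 := pd0)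
    rfl k0_pp_202_a

noncomputable def f_pp_202_b : ℕ → ℕ → ℕ → ℕ → Bool := onCell 1239849684 370763052 1073741824 536870912 536870912 50465866
    (rowB 3 eng mog cd3q2b cd4q2 pd0 0 false true true .pp 2 0 2 (qsf 1239849684 370763052 1073741824 536870912 0) ndB3q2b ndB4q2 pcB0 Cut.none Ext.none)

def k0_pp_202_b : ∃ t, chk3 f_pp_202_b t 1 1 1 = true :=
  ⟨(l 3), by decide +kernel⟩

theorem c_pp_202_b : CertB 1239849684 370763052 1073741824 536870912 536870912 50465866 3 eng mog cd3q2b cd4q2 pd0 false true true .pp 2 0 2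
    ndB3q2b ndB4q2 pcB0 Cut.none Ext.none :=
  certB0 (fam := false) (s1 := true) (s2 := true) (a := 2) (b := 0) (c := 2) (cn := .pp) (n1 := ndB3q2b) (n2 := ndB4q2) (pc := pcB0) (cut := Cut.none) (xt := Ext.none) (P1 := 1239849684) (W1 := 370763052) (P2 := 1073741824) (W2 := 536870912) (P3 := 536870912) (W3 := 50465866) (N0 := 3) (En := eng) (mo := mog) (C1 := cd3q2b) (C2 := cd4q2) (C3 := pd0)
    rfl k0_pp_202_b

noncomputable def f_pp_203_a : ℕ → ℕ → ℕ → ℕ → Bool := onCell 0 536870912 0 1230186008 536870912 50465866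
    (rowB 3 eng mog cd3q2a cd4q3 pd0 0 false true true .up 2 0 3 (qsf 0 536870912 0 1230186008 0) ndB3q2a ndB4q3 pcB0 Cut.none Ext.none)

def k0_pp_203_a : ∃ t, chk3 f_pp_203_a t 1 1 1 = true :=
  ⟨(b (l 2) (l 3)), by decide +kernel⟩

theorem c_pp_203_a : CertB 0 536870912 0 1230186008 536870912 50465866 3 eng mog cd3q2a cd4q3 pd0 false true true .up 2 0 3
    ndB3q2a ndB4q3 pcB0 Cut.none Ext.none :=
  certB0 (fam := false) (s1 := true) (s2 := true) (a := 2) (b := 0) (c := 3) (cn := .up) (n1 := ndB3q2a) (n2 := ndB4q3) (pc := pcB0) (cut := Cut.none) (xt := Ext.none) (P1 := 0) (W1 := 536870912) (P2 := 0) (W2 := 1230186008) (P3 := 536870912) (W3 := 50465866) (N0 := 3) (En := eng) (mo := mog) (C1 := cd3q2a) (C2 := cd4q3) (C3 := pd0)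
    rfl k0_pp_203_a

noncomputable def f_pp_203_b : ℕ → ℕ → ℕ → ℕ → Bool := onCell 1239849684 370763052 0 1230186008 536870912 50465866
    (rowB 3 eng mog cd3q2b cd4q3 pd0 0 false true true .up 2 0 3 (qsf 1239849684 370763052 0 1230186008 0) ndB3q2b ndB4q3 pcB0 Cut.none Ext.none)

def k0_pp_203_b : ∃ t, chk3 f_pp_203_b t 1 1 1 = true :=
  ⟨(b (l 3) (l 3)), by decide +kernel⟩

theorem c_pp_203_b : CertB 1239849684 370763052 0 1230186008 536870912 50465866 3 eng mog cd3q2b cd4q3 pd0 false true true .up 2 0 3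
    ndB3q2b ndB4q3 pcB0 Cut.none Ext.none :=
  certB0 (fam := false) (s1 := true) (s2 := true) (a := 2) (b := 0) (c := 3) (cn := .up) (n1 := ndB3q2b) (n2 := ndB4q3) (pc := pcB0) (cut := Cut.none) (xt := Ext.none) (P1 := 1239849684) (W1 := 370763052) (P2 := 0) (W2 := 1230186008) (P3 := 536870912) (W3 := 50465866) (N0 := 3) (En := eng) (mo := mog) (C1 := cd3q2b) (C2 := cd4q3) (C3 := pd0)
    rfl k0_pp_203_b

noncomputable def cut_pp_213_a : Cut := Cut.of [[⟨0, 1, 0, 67108864⟩, ⟨1, 1, 0, 67108864⟩, ⟨2, 2, 0, 16777216⟩]]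

noncomputable def f_pp_213_a : ℕ → ℕ → ℕ → ℕ → Bool := onCell 0 536870912 0 1230186008 536870912 50465866
    (rowB 3 eng mog cd3q2a cd4q3 pd1 0 false true true .pnn 2 1 3 (qsf 0 536870912 0 1230186008 1) ndB3q2a ndB4q3 pcB1 cut_pp_213_a Ext.none)

def k0_pp_213_a : ∃ t, chk3 f_pp_213_a t 1 1 1 = true :=
  ⟨(b (a (l 3) (b (a (l 3) (b (a (l 3) (l 6)) (l 3))) (l 3))) (l 3)), by decide +kernel⟩

theorem c_pp_213_a : CertB 0 536870912 0 1230186008 536870912 50465866 3 eng mog cd3q2a cd4q3 pd1 false true true .pnn 2 1 3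
    ndB3q2a ndB4q3 pcB1 cut_pp_213_a Ext.none :=
  certB0 (fam := false) (s1 := true) (s2 := true) (a := 2) (b := 1) (c := 3) (cn := .pnn) (n1 := ndB3q2a) (n2 := ndB4q3) (pc := pcB1) (cut := cut_pp_213_a) (xt := Ext.none) (P1 := 0) (W1 := 536870912) (P2 := 0) (W2 := 1230186008) (P3 := 536870912) (W3 := 50465866) (N0 := 3) (En := eng) (mo := mog) (C1 := cd3q2a) (C2 := cd4q3) (C3 := pd1)
    rfl k0_pp_213_a

noncomputable def cut_pp_213_b : Cut := Cut.of [[⟨0, 1, 0, 67108864⟩, ⟨1, 1, 0, 67108864⟩, ⟨2, 2, 0, 16777216⟩]]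

noncomputable def f_pp_213_b : ℕ → ℕ → ℕ → ℕ → Bool := onCell 1239849684 370763052 0 1230186008 536870912 50465866
    (rowB 3 eng mog cd3q2b cd4q3 pd1 0 false true true .pnn 2 1 3 (qsf 1239849684 370763052 0 1230186008 1) ndB3q2b ndB4q3 pcB1 cut_pp_213_b Ext.none)

def k0_pp_213_b : ∃ t, chk3 f_pp_213_b t 1 1 1 = true :=
  ⟨(b (l 3) (l 3)), by decide +kernel⟩

theorem c_pp_213_b : CertB 1239849684 370763052 0 1230186008 536870912 50465866 3 eng mog cd3q2b cd4q3 pd1 false true true .pnn 2 1 3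
    ndB3q2b ndB4q3 pcB1 cut_pp_213_b Ext.none :=
  certB0 (fam := false) (s1 := true) (s2 := true) (a := 2) (b := 1) (c := 3) (cn := .pnn) (n1 := ndB3q2b) (n2 := ndB4q3) (pc := pcB1) (cut := cut_pp_213_b) (xt := Ext.none) (P1 := 1239849684) (W1 := 370763052) (P2 := 0) (W2 := 1230186008) (P3 := 536870912) (W3 := 50465866) (N0 := 3) (En := eng) (mo := mog) (C1 := cd3q2b) (C2 := cd4q3) (C3 := pd1)
    rfl k0_pp_213_b

noncomputable def f_pp_303 : ℕ → ℕ → ℕ → ℕ → Bool := onCell 1610612736 536870912 0 1230186008 536870912 50465866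
    (rowB 3 eng mog cd3q3 cd4q3 pd0 0 false true true .npn 3 0 3 (qsf 1610612736 536870912 0 1230186008 0) ndB3q3 ndB4q3 pcB0 Cut.none Ext.none)

def k0_pp_303 : ∃ t, chk3 f_pp_303 t 1 1 1 = true :=
  ⟨(b (l 3) (l 3)), by decide +kernel⟩

theorem c_pp_303 : CertB 1610612736 536870912 0 1230186008 536870912 50465866 3 eng mog cd3q3 cd4q3 pd0 false true true .npn 3 0 3
    ndB3q3 ndB4q3 pcB0 Cut.none Ext.none :=
  certB0 (fam := false) (s1 := true) (s2 := true) (a := 3) (b := 0) (c := 3) (cn := .npn) (n1 := ndB3q3) (n2 := ndB4q3) (pc := pcB0) (cut := Cut.none) (xt := Ext.none) (P1 := 1610612736) (W1 := 536870912) (P2 := 0) (W2 := 1230186008) (P3 := 536870912) (W3 := 50465866) (N0 := 3) (En := eng) (mo := mog) (C1 := cd3q3) (C2 := cd4q3) (C3 := pd0)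
    rfl k0_pp_303

noncomputable def f_pp_313 : ℕ → ℕ → ℕ → ℕ → Bool := onCell 1610612736 536870912 0 1230186008 536870912 50465866
    (rowB 3 eng mog cd3q3 cd4q3 pd1 0 false true true .dn 3 1 3 (qsf 1610612736 536870912 0 1230186008 1) ndB3q3 ndB4q3 pcB1 Cut.none Ext.none)

def k0_pp_313 : ∃ t, chk3 f_pp_313 t 1 1 1 = true :=
  ⟨(b (l 3) (l 1)), by decide +kernel⟩

theorem c_pp_313 : CertB 1610612736 536870912 0 1230186008 536870912 50465866 3 eng mog cd3q3 cd4q3 pd1 false true true .dn 3 1 3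
    ndB3q3 ndB4q3 pcB1 Cut.none Ext.none :=
  certB0 (fam := false) (s1 := true) (s2 := true) (a := 3) (b := 1) (c := 3) (cn := .dn) (n1 := ndB3q3) (n2 := ndB4q3) (pc := pcB1) (cut := Cut.none) (xt := Ext.none) (P1 := 1610612736) (W1 := 536870912) (P2 := 0) (W2 := 1230186008) (P3 := 536870912) (W3 := 50465866) (N0 := 3) (En := eng) (mo := mog) (C1 := cd3q3) (C2 := cd4q3) (C3 := pd1)
    rfl k0_pp_313

noncomputable def f_pm_001 : ℕ → ℕ → ℕ → ℕ → Bool := onCell 0 536870912 536870912 536870912 536870912 50465866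
    (rowB 3 eng mog cd3q0 cd4q1 pd0 0 false true false .up 0 0 1 (qsf 0 536870912 536870912 536870912 0) ndB3q0 ndB4q1 pcB0 Cut.none Ext.none)

def k0_pm_001 : ∃ t, chk3 f_pm_001 t 1 1 1 = true :=
  ⟨(l 4), by decide +kernel⟩

theorem c_pm_001 : CertB 0 536870912 536870912 536870912 536870912 50465866 3 eng mog cd3q0 cd4q1 pd0 false true false .up 0 0 1
    ndB3q0 ndB4q1 pcB0 Cut.none Ext.none :=
  certB0 (fam := false) (s1 := true) (s2 := false) (a := 0) (b := 0) (c := 1) (cn := .up) (n1 := ndB3q0) (n2 := ndB4q1) (pc := pcB0) (cut := Cut.none) (xt := Ext.none) (P1 := 0) (W1 := 536870912) (P2 := 536870912) (W2 := 536870912) (P3 := 536870912) (W3 := 50465866) (N0 := 3) (En := eng) (mo := mog) (C1 := cd3q0) (C2 := cd4q1) (C3 := pd0)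
    rfl k0_pm_001

noncomputable def f_pm_011 : ℕ → ℕ → ℕ → ℕ → Bool := onCell 0 536870912 536870912 536870912 536870912 50465866
    (rowB 3 eng mog cd3q0 cd4q1 pd1 0 false true false .pnn 0 1 1 (qsf 0 536870912 536870912 536870912 1) ndB3q0 ndB4q1 pcB1 Cut.none Ext.none)

def k0_pm_011 : ∃ t, chk3 f_pm_011 t 1 1 1 = true :=
  ⟨(l 4), by decide +kernel⟩

theorem c_pm_011 : CertB 0 536870912 536870912 536870912 536870912 50465866 3 eng mog cd3q0 cd4q1 pd1 false true false .pnn 0 1 1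
    ndB3q0 ndB4q1 pcB1 Cut.none Ext.none :=
  certB0 (fam := false) (s1 := true) (s2 := false) (a := 0) (b := 1) (c := 1) (cn := .pnn) (n1 := ndB3q0) (n2 := ndB4q1) (pc := pcB1) (cut := Cut.none) (xt := Ext.none) (P1 := 0) (W1 := 536870912) (P2 := 536870912) (W2 := 536870912) (P3 := 536870912) (W3 := 50465866) (N0 := 3) (En := eng) (mo := mog) (C1 := cd3q0) (C2 := cd4q1) (C3 := pd1)
    rfl k0_pm_011

noncomputable def f_pm_012 : ℕ → ℕ → ℕ → ℕ → Bool := onCell 0 536870912 1073741824 536870912 536870912 50465866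
    (rowB 3 eng mog cd3q0 cd4q2 pd1 0 false true false .pnp 0 1 2 (qsf 0 536870912 1073741824 536870912 1) ndB3q0 ndB4q2 pcB1 Cut.none Ext.none)

def k0_pm_012 : ∃ t, chk3 f_pm_012 t 1 1 1 = true :=
  ⟨(l 4), by decide +kernel⟩

theorem c_pm_012 : CertB 0 536870912 1073741824 536870912 536870912 50465866 3 eng mog cd3q0 cd4q2 pd1 false true false .pnp 0 1 2
    ndB3q0 ndB4q2 pcB1 Cut.none Ext.none :=
  certB0 (fam := false) (s1 := true) (s2 := false) (a := 0) (b := 1) (c := 2) (cn := .pnp) (n1 := ndB3q0) (n2 := ndB4q2) (pc := pcB1) (cut := Cut.none) (xt := Ext.none) (P1 := 0) (W1 := 536870912) (P2 := 1073741824) (W2 := 536870912) (P3 := 536870912) (W3 := 50465866) (N0 := 3) (En := eng) (mo := mog) (C1 := cd3q0) (C2 := cd4q2) (C3 := pd1)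
    rfl k0_pm_012

noncomputable def f_pm_022 : ℕ → ℕ → ℕ → ℕ → Bool := onCell 0 536870912 1073741824 536870912 536870912 50465866
    (rowB 3 eng mog cd3q0 cd4q2 pd2 0 false true false .pp 0 2 2 (qsf 0 536870912 1073741824 536870912 2) ndB3q0 ndB4q2 pcB2 Cut.none Ext.none)

def k0_pm_022 : ∃ t, chk3 f_pm_022 t 1 1 1 = true :=
  ⟨(l 4), by decide +kernel⟩

theorem c_pm_022 : CertB 0 536870912 1073741824 536870912 536870912 50465866 3 eng mog cd3q0 cd4q2 pd2 false true false .pp 0 2 2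
    ndB3q0 ndB4q2 pcB2 Cut.none Ext.none :=
  certB0 (fam := false) (s1 := true) (s2 := false) (a := 0) (b := 2) (c := 2) (cn := .pp) (n1 := ndB3q0) (n2 := ndB4q2) (pc := pcB2) (cut := Cut.none) (xt := Ext.none) (P1 := 0) (W1 := 536870912) (P2 := 1073741824) (W2 := 536870912) (P3 := 536870912) (W3 := 50465866) (N0 := 3) (En := eng) (mo := mog) (C1 := cd3q0) (C2 := cd4q2) (C3 := pd2)
    rfl k0_pm_022

noncomputable def f_pm_023 : ℕ → ℕ → ℕ → ℕ → Bool := onCell 0 536870912 0 1230186008 536870912 50465866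
    (rowB 3 eng mog cd3q0 cd4q3 pd2 0 false true false .up 0 2 3 (qsf 0 536870912 0 1230186008 2) ndB3q0 ndB4q3 pcB2 Cut.none Ext.none)

def k0_pm_023 : ∃ t, chk3 f_pm_023 t 1 1 1 = true :=
  ⟨(b (l 4) (l 4)), by decide +kernel⟩

theorem c_pm_023 : CertB 0 536870912 0 1230186008 536870912 50465866 3 eng mog cd3q0 cd4q3 pd2 false true false .up 0 2 3
    ndB3q0 ndB4q3 pcB2 Cut.none Ext.none :=
  certB0 (fam := false) (s1 := true) (s2 := false) (a := 0) (b := 2) (c := 3) (cn := .up) (n1 := ndB3q0) (n2 := ndB4q3) (pc := pcB2) (cut := Cut.none) (xt := Ext.none) (P1 := 0) (W1 := 536870912) (P2 := 0) (W2 := 1230186008) (P3 := 536870912) (W3 := 50465866) (N0 := 3) (En := eng) (mo := mog) (C1 := cd3q0) (C2 := cd4q3) (C3 := pd2)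
    rfl k0_pm_023

noncomputable def f_pm_033 : ℕ → ℕ → ℕ → ℕ → Bool := onCell 0 536870912 0 1230186008 536870912 50465866
    (rowB 3 eng mog cd3q0 cd4q3 pd3 0 false true false .pnn 0 3 3 (qsf 0 536870912 0 1230186008 3) ndB3q0 ndB4q3 pcB3 Cut.none Ext.none)

def k0_pm_033 : ∃ t, chk3 f_pm_033 t 1 1 1 = true :=
  ⟨(b (l 4) (l 4)), by decide +kernel⟩

theorem c_pm_033 : CertB 0 536870912 0 1230186008 536870912 50465866 3 eng mog cd3q0 cd4q3 pd3 false true false .pnn 0 3 3
    ndB3q0 ndB4q3 pcB3 Cut.none Ext.none :=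
  certB0 (fam := false) (s1 := true) (s2 := false) (a := 0) (b := 3) (c := 3) (cn := .pnn) (n1 := ndB3q0) (n2 := ndB4q3) (pc := pcB3) (cut := Cut.none) (xt := Ext.none) (P1 := 0) (W1 := 536870912) (P2 := 0) (W2 := 1230186008) (P3 := 536870912) (W3 := 50465866) (N0 := 3) (En := eng) (mo := mog) (C1 := cd3q0) (C2 := cd4q3) (C3 := pd3)
    rfl k0_pm_033

noncomputable def f_pm_101 : ℕ → ℕ → ℕ → ℕ → Bool := onCell 536870912 536870912 536870912 536870912 536870912 50465866
    (rowB 3 eng mog cd3q1 cd4q1 pd0 0 false true false .npn 1 0 1 (qsf 536870912 536870912 536870912 536870912 0) ndB3q1 ndB4q1 pcB0 Cut.none Ext.none)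

def k0_pm_101 : ∃ t, chk3 f_pm_101 t 1 1 1 = true :=
  ⟨(l 4), by decide +kernel⟩

theorem c_pm_101 : CertB 536870912 536870912 536870912 536870912 536870912 50465866 3 eng mog cd3q1 cd4q1 pd0 false true false .npn 1 0 1
    ndB3q1 ndB4q1 pcB0 Cut.none Ext.none :=
  certB0 (fam := false) (s1 := true) (s2 := false) (a := 1) (b := 0) (c := 1) (cn := .npn) (n1 := ndB3q1) (n2 := ndB4q1) (pc := pcB0) (cut := Cut.none) (xt := Ext.none) (P1 := 536870912) (W1 := 536870912) (P2 := 536870912) (W2 := 536870912) (P3 := 536870912) (W3 := 50465866) (N0 := 3) (En := eng) (mo := mog) (C1 := cd3q1) (C2 := cd4q1) (C3 := pd0)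
    rfl k0_pm_101

noncomputable def f_pm_102 : ℕ → ℕ → ℕ → ℕ → Bool := onCell 536870912 536870912 1073741824 536870912 536870912 50465866
    (rowB 3 eng mog cd3q1 cd4q2 pd0 0 false true false .npp 1 0 2 (qsf 536870912 536870912 1073741824 536870912 0) ndB3q1 ndB4q2 pcB0 Cut.none Ext.none)

def k0_pm_102 : ∃ t, chk3 f_pm_102 t 1 1 1 = true :=
  ⟨(l 4), by decide +kernel⟩

theorem c_pm_102 : CertB 536870912 536870912 1073741824 536870912 536870912 50465866 3 eng mog cd3q1 cd4q2 pd0 false true false .npp 1 0 2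
    ndB3q1 ndB4q2 pcB0 Cut.none Ext.none :=
  certB0 (fam := false) (s1 := true) (s2 := false) (a := 1) (b := 0) (c := 2) (cn := .npp) (n1 := ndB3q1) (n2 := ndB4q2) (pc := pcB0) (cut := Cut.none) (xt := Ext.none) (P1 := 536870912) (W1 := 536870912) (P2 := 1073741824) (W2 := 536870912) (P3 := 536870912) (W3 := 50465866) (N0 := 3) (En := eng) (mo := mog) (C1 := cd3q1) (C2 := cd4q2) (C3 := pd0)
    rfl k0_pm_102

noncomputable def f_pm_112 : ℕ → ℕ → ℕ → ℕ → Bool := onCell 536870912 536870912 1073741824 536870912 536870912 50465866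
    (rowB 3 eng mog cd3q1 cd4q2 pd1 0 false true false .dn 1 1 2 (qsf 536870912 536870912 1073741824 536870912 1) ndB3q1 ndB4q2 pcB1 Cut.none Ext.none)

def k0_pm_112 : ∃ t, chk3 f_pm_112 t 1 1 1 = true :=
  ⟨(l 4), by decide +kernel⟩

theorem c_pm_112 : CertB 536870912 536870912 1073741824 536870912 536870912 50465866 3 eng mog cd3q1 cd4q2 pd1 false true false .dn 1 1 2
    ndB3q1 ndB4q2 pcB1 Cut.none Ext.none :=
  certB0 (fam := false) (s1 := true) (s2 := false) (a := 1) (b := 1) (c := 2) (cn := .dn) (n1 := ndB3q1) (n2 := ndB4q2) (pc := pcB1) (cut := Cut.none) (xt := Ext.none) (P1 := 536870912) (W1 := 536870912) (P2 := 1073741824) (W2 := 536870912) (P3 := 536870912) (W3 := 50465866) (N0 := 3) (En := eng) (mo := mog) (C1 := cd3q1) (C2 := cd4q2) (C3 := pd1)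
    rfl k0_pm_112

noncomputable def f_pm_113 : ℕ → ℕ → ℕ → ℕ → Bool := onCell 536870912 536870912 0 1230186008 536870912 50465866
    (rowB 3 eng mog cd3q1 cd4q3 pd1 0 false true false .nn 1 1 3 (qsf 536870912 536870912 0 1230186008 1) ndB3q1 ndB4q3 pcB1 Cut.none Ext.none)

def k0_pm_113 : ∃ t, chk3 f_pm_113 t 1 1 1 = true :=
  ⟨(b (a (l 2) (b (l 105864849143) (a (l 2) (l 16926976)))) (b (a (l 4) (a (l 4) (l 4))) (l 4))), by decide +kernel⟩

theorem c_pm_113 : CertB 536870912 536870912 0 1230186008 536870912 50465866 3 eng mog cd3q1 cd4q3 pd1 false true false .nn 1 1 3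
    ndB3q1 ndB4q3 pcB1 Cut.none Ext.none :=
  certB0 (fam := false) (s1 := true) (s2 := false) (a := 1) (b := 1) (c := 3) (cn := .nn) (n1 := ndB3q1) (n2 := ndB4q3) (pc := pcB1) (cut := Cut.none) (xt := Ext.none) (P1 := 536870912) (W1 := 536870912) (P2 := 0) (W2 := 1230186008) (P3 := 536870912) (W3 := 50465866) (N0 := 3) (En := eng) (mo := mog) (C1 := cd3q1) (C2 := cd4q3) (C3 := pd1)
    rfl k0_pm_113

noncomputable def f_pm_123 : ℕ → ℕ → ℕ → ℕ → Bool := onCell 1073741824 536870912 0 1230186008 536870912 50465866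
    (rowB 3 eng mog cd3q1 cd4q3 pd2 2 false true false .npn 1 2 3 (qsf 536870912 536870912 0 1230186008 2) ndB3q1 ndB4q3 pcB2 Cut.none Ext.none)

def k0_pm_123 : ∃ t, chk3 f_pm_123 t 1 1 1 = true :=
  ⟨(b (a (a (l 16868432) (b (l 16770032) (l 16905504))) (a (b (l 16773128) (l 4)) (l 4))) (b (l 4) (l 4))), by decide +kernel⟩

theorem c_pm_123 : CertB 536870912 536870912 0 1230186008 536870912 50465866 3 eng mog cd3q1 cd4q3 pd2 false true false .npn 1 2 3
    ndB3q1 ndB4q3 pcB2 Cut.none Ext.none :=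
  certB2 (fam := false) (s1 := true) (s2 := false) (a := 1) (b := 2) (c := 3) (cn := .npn) (n1 := ndB3q1) (n2 := ndB4q3) (pc := pcB2) (cut := Cut.none) (xt := Ext.none) (P1 := 536870912) (W1 := 536870912) (P2 := 0) (W2 := 1230186008) (P3 := 536870912) (W3 := 50465866) (N0 := 3) (En := eng) (mo := mog) (C1 := cd3q1) (C2 := cd4q3) (C3 := pd2)
    rfl (fun _ => rfl) k0_pm_123

noncomputable def f_pm_133 : ℕ → ℕ → ℕ → ℕ → Bool := onCell 1610612736 536870912 0 1230186008 536870912 50465866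
    (rowB 3 eng mog cd3q1 cd4q3 pd3 2 false true false .dn 1 3 3 (qsf 536870912 536870912 0 1230186008 3) ndB3q1 ndB4q3 pcB3 Cut.none Ext.none)

def k0_pm_133 : ∃ t, chk3 f_pm_133 t 1 1 1 = true :=
  ⟨(b (b (l 4) (l 1)) (l 1)), by decide +kernel⟩

theorem c_pm_133 : CertB 536870912 536870912 0 1230186008 536870912 50465866 3 eng mog cd3q1 cd4q3 pd3 false true false .dn 1 3 3
    ndB3q1 ndB4q3 pcB3 Cut.none Ext.none :=
  certB2 (fam := false) (s1 := true) (s2 := false) (a := 1) (b := 3) (c := 3) (cn := .dn) (n1 := ndB3q1) (n2 := ndB4q3) (pc := pcB3) (cut := Cut.none) (xt := Ext.none) (P1 := 536870912) (W1 := 536870912) (P2 := 0) (W2 := 1230186008) (P3 := 536870912) (W3 := 50465866) (N0 := 3) (En := eng) (mo := mog) (C1 := cd3q1) (C2 := cd4q3) (C3 := pd3)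
    rfl (fun _ => rfl) k0_pm_133

noncomputable def f_pm_202_a : ℕ → ℕ → ℕ → ℕ → Bool := onCell 0 536870912 1073741824 536870912 536870912 50465866
    (rowB 3 eng mog cd3q2a cd4q2 pd0 0 false true false .pp 2 0 2 (qsf 0 536870912 1073741824 536870912 0) ndB3q2a ndB4q2 pcB0 Cut.none Ext.none)

def k0_pm_202_a : ∃ t, chk3 f_pm_202_a t 1 1 1 = true :=
  ⟨(a (b (b (b (l 1) (a (l 1) (a (l 1) (b (l 1) (l 16607640))))) (b (a (b (l 16604352) (l 16551552)) (b (a (l 16583880) (l 16603776)) (l 16587840))) (a (l 16520432) (b (l 16573824) (l 16555184))))) (b (b (a (b (l 16539880) (l 16444984)) (b (l 16531736) (l 16495408))) (a (b (l 16441576) (l 16444200)) (l 16451848))) (b (a (l 16440184) (b (l 16429040) (l 16424136))) (b (a (l 16431712) (l 16438816)) (a (l 16439664) (l 16433688)))))) (b (b (a (b (l 1) (a (b (l 1) (l 16754640)) (b (b (l 16656440) (l 16655296)) (l 16652264)))) (b (a (b (l 1) (a (b (l 1) (l 16674856)) (b (b (l 16687384) (l 16687592)) (l 16686808))))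 (a (b (b (l 1) (a (l 16689808) (l 16698872))) (b (l 16699424) (l 16698712))) (b (a (l 16707360) (l 16717368)) (l 16714992)))) (a (b (a (l 16672960) (l 16684616)) (l 16678000)) (b (a (l 16698744) (l 16719440)) (l 16714024))))) (a (b (b (a (l 16625864) (l 16650432)) (l 16636600)) (b (l 16628704) (l 16636088))) (b (a (b (l 16679920) (l 16682904)) (b (l 16723368) (l 16730016))) (a (l 16860248) (l 16715856))))) (a (b (b (b (l 16592552) (l 16556632)) (a (l 16502792) (l 16541008))) (b (a (l 16490016) (l 16545712)) (b (l 16544272) (l 16548568)))) (b (b (a (l 16874680) (b (l 16682200) (l 16781144))) (a (l 16673504) (l 16721968))) (b (l 16806824) (b (l 16696360) (b (l 16712864) (l 16684768)))))))), by decide +kernel⟩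

theorem c_pm_202_a : CertB 0 536870912 1073741824 536870912 536870912 50465866 3 eng mog cd3q2a cd4q2 pd0 false true false .pp 2 0 2
    ndB3q2a ndB4q2 pcB0 Cut.none Ext.none :=
  certB0 (fam := false) (s1 := true) (s2 := false) (a := 2) (b := 0) (c := 2) (cn := .pp) (n1 := ndB3q2a) (n2 := ndB4q2) (pc := pcB0) (cut := Cut.none) (xt := Ext.none) (P1 := 0) (W1 := 536870912) (P2 := 1073741824) (W2 := 536870912) (P3 := 536870912) (W3 := 50465866) (N0 := 3) (En := eng) (mo := mog) (C1 := cd3q2a) (C2 := cd4q2) (C3 := pd0)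
    rfl k0_pm_202_a

noncomputable def f_pm_202_b : ℕ → ℕ → ℕ → ℕ → Bool := onCell 0 536870912 1073741824 536870912 536870912 50465866
    (rowB 3 eng mog cd3q2b cd4q2 pd0 2 false true false .pp 2 0 2 (qsf 1239849684 370763052 1073741824 536870912 0) ndB3q2b ndB4q2 pcB0 Cut.none Ext.none)

def k0_pm_202_b : ∃ t, chk3 f_pm_202_b t 1 1 1 = true :=
  ⟨(a (b (a (b (l 1) (b (a (b (l 252899748967) (a (l 16535816) (l 16578512))) (l 1)) (a (l 16447176) (l 355978578919)))) (l 1)) (b (a (a (b (l 16383352) (a (l 16378376) (l 16442312))) (b (a (l 16422720) (l 5939056135)) (a (b (l 16420808) (l 16424872)) (b (l 16441864) (l 16443048))))) (a (b (a (l 16470144) (l 16523496)) (l 16462752)) (b (l 1) (l 151967895607)))) (a (b (a (a (b (l 16397288) (a (b (l 16394200) (a (l 16389744) (l 16400640))) (b (l 16415696) (l 16416768)))) (b (l 16420728) (a (l 16433472) (l 16446440)))) (a (b (l 16436568) (l 16456952)) (b (l 16451368) (l 16467656)))) (b (a (a (a (l 356112434487)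 (l 139216552807)) (a (l 140290355863) (l 142437925207))) (a (b (l 16473808) (l 16482912)) (l 16489856))) (a (l 3) (a (b (l 298130579543) (l 3)) (b (l 156933663927) (l 278266513815)))))) (b (a (b (l 16469896) (l 16481288)) (l 16482128)) (a (b (a (l 16496032) (l 16500152)) (a (b (l 16516072) (l 16558360)) (b (l 16518232) (l 16555992)))) (b (l 16502928) (a (l 16661192) (l 16532392)))))))) (b (l 1) (b (l 1) (a (b (a (l 16447520) (l 1)) (a (b (l 16483528) (b (l 16501888) (l 16537576))) (b (l 16485680) (l 16458872)))) (l 1))))), by decide +kernel⟩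

theorem c_pm_202_b : CertB 1239849684 370763052 1073741824 536870912 536870912 50465866 3 eng mog cd3q2b cd4q2 pd0 false true false .pp 2 0 2
    ndB3q2b ndB4q2 pcB0 Cut.none Ext.none :=
  certB2 (fam := false) (s1 := true) (s2 := false) (a := 2) (b := 0) (c := 2) (cn := .pp) (n1 := ndB3q2b) (n2 := ndB4q2) (pc := pcB0) (cut := Cut.none) (xt := Ext.none) (P1 := 1239849684) (W1 := 370763052) (P2 := 1073741824) (W2 := 536870912) (P3 := 536870912) (W3 := 50465866) (N0 := 3) (En := eng) (mo := mog) (C1 := cd3q2b) (C2 := cd4q2) (C3 := pd0)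
    rfl (fun _ => rfl) k0_pm_202_b

noncomputable def f_pm_203_a : ℕ → ℕ → ℕ → ℕ → Bool := onCell 0 536870912 0 1230186008 536870912 50465866
    (rowB 3 eng mog cd3q2a cd4q3 pd0 0 false true false .up 2 0 3 (qsf 0 536870912 0 1230186008 0) ndB3q2a ndB4q3 pcB0 Cut.none Ext.none)

def k0_pm_203_a : ∃ t, chk3 f_pm_203_a t 1 1 1 = true :=
  ⟨(b (l 2) (b (l 2) (b (a (b (l 2) (a (b (l 2) (l 16631632)) (b (l 2) (l 16640336)))) (l 2)) (a (b (a (b (l 16579832) (l 16517168)) (a (l 16556680) (l 16576808))) (b (a (b (l 16465152) (l 16437472)) (l 16476848)) (a (l 16412736) (l 16487792)))) (b (a (l 16631008) (l 16744400)) (a (b (l 16562640) (l 16597968)) (b (l 16727216) (l 16761472)))))))), by decide +kernel⟩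

theorem c_pm_203_a : CertB 0 536870912 0 1230186008 536870912 50465866 3 eng mog cd3q2a cd4q3 pd0 false true false .up 2 0 3
    ndB3q2a ndB4q3 pcB0 Cut.none Ext.none :=
  certB0 (fam := false) (s1 := true) (s2 := false) (a := 2) (b := 0) (c := 3) (cn := .up) (n1 := ndB3q2a) (n2 := ndB4q3) (pc := pcB0) (cut := Cut.none) (xt := Ext.none) (P1 := 0) (W1 := 536870912) (P2 := 0) (W2 := 1230186008) (P3 := 536870912) (W3 := 50465866) (N0 := 3) (En := eng) (mo := mog) (C1 := cd3q2a) (C2 := cd4q3) (C3 := pd0)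
    rfl k0_pm_203_a

noncomputable def f_pm_203_b : ℕ → ℕ → ℕ → ℕ → Bool := onCell 1239849684 370763052 0 1230186008 536870912 50465866
    (rowB 3 eng mog cd3q2b cd4q3 pd0 0 false true false .up 2 0 3 (qsf 1239849684 370763052 0 1230186008 0) ndB3q2b ndB4q3 pcB0 Cut.none Ext.none)

def k0_pm_203_b : ∃ t, chk3 f_pm_203_b t 1 1 1 = true :=
  ⟨(b (l 3) (b (a (b (l 3) (l 3)) (l 3)) (b (a (a (b (a (l 3) (l 3)) (a (b (l 16660808) (l 16618512)) (b (l 3) (l 3)))) (l 3)) (l 3)) (a (b (a (a (b (l 16567312) (l 16534648)) (b (l 16574856) (l 16580408))) (a (b (l 3) (l 16606216)) (l 3))) (a (b (a (l 16523136) (b (l 16574528) (l 16552248))) (a (l 16476280) (l 16535736))) (b (a (b (l 16596344) (l 16572168)) (b (l 3) (l 16588032))) (a (b (l 16546232) (l 16515592)) (b (l 16558152) (l 16523288)))))) (b (l 3) (a (b (l 3) (a (b (l 3) (l 258402315767)) (l 3))) (l 3))))))), by decide +kernel⟩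

theorem c_pm_203_b : CertB 1239849684 370763052 0 1230186008 536870912 50465866 3 eng mog cd3q2b cd4q3 pd0 false true false .up 2 0 3
    ndB3q2b ndB4q3 pcB0 Cut.none Ext.none :=
  certB0 (fam := false) (s1 := true) (s2 := false) (a := 2) (b := 0) (c := 3) (cn := .up) (n1 := ndB3q2b) (n2 := ndB4q3) (pc := pcB0) (cut := Cut.none) (xt := Ext.none) (P1 := 1239849684) (W1 := 370763052) (P2 := 0) (W2 := 1230186008) (P3 := 536870912) (W3 := 50465866) (N0 := 3) (En := eng) (mo := mog) (C1 := cd3q2b) (C2 := cd4q3) (C3 := pd0)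
    rfl k0_pm_203_b

noncomputable def cut_pm_213_a : Cut := Cut.of [[⟨0, 1, 0, 67108864⟩, ⟨1, 1, 0, 67108864⟩, ⟨2, 2, 0, 16777216⟩]]

noncomputable def f_pm_213_a : ℕ → ℕ → ℕ → ℕ → Bool := onCell 0 536870912 0 1230186008 536870912 50465866
    (rowB 3 eng mog cd3q2a cd4q3 pd1 0 false true false .pnn 2 1 3 (qsf 0 536870912 0 1230186008 1) ndB3q2a ndB4q3 pcB1 cut_pm_213_a Ext.none)

def k0_pm_213_a : ∃ t, chk3 f_pm_213_a t 1 1 1 = true :=
  ⟨(b (a (b (l 3) (l 3)) (b (a (l 3) (a (b (l 3) (b (l 3) (l 368998191383))) (b (l 6) (b (a (b (l 6) (l 16786520)) (l 16808456)) (a (l 16794000) (l 16797728)))))) (a (b (a (l 3) (b (l 3) (l 358260849799))) (b (a (l 3) (l 116132334007)) (a (l 16796360) (l 16979664)))) (b (a (b (a (l 330343248727) (l 16800320)) (a (l 16740744) (l 16812736))) (b (a (l 16806184) (l 16811344)) (l 16824816))) (a (b (a (l 16815240) (l 16827064)) (l 16837104)) (b (a (l 16837912) (l 16847640)) (l 16948640))))))) (b (a (b (a (l 3) (b (l 3)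 (l 145659899879))) (b (a (l 3) (a (l 16782480) (l 16798832))) (a (l 155860717911) (a (l 16769624) (l 16791408))))) (b (b (a (a (l 16806784) (l 16721792)) (a (l 16856256) (l 16889608))) (a (a (l 16818600) (l 16846312)) (a (l 16881016) (l 16919664)))) (a (b (a (l 16744584) (l 16783856)) (a (l 16827664) (l 16876792))) (a (b (l 16908312) (l 16937736)) (l 16975904))))) (b (a (b (a (l 16748152) (a (l 16742888) (l 16768240))) (a (b (l 16683912) (l 16644336)) (a (l 16683320) (l 16705160)))) (a (b (a (l 16806536) (l 16864640)) (a (l 16744496) (l 16808440))) (a (b (l 16944456) (l 16898464)) (b (l 17029904) (l 17016824))))) (a (a (l 1) (b (a (l 1) (l 16606760)) (l 1))) (b (a (l 16669296) (b (l 16889480) (l 16820680))) (a (l 1) (b (b (l 16773152) (l 16774832)) (a (l 1) (l 16837040))))))))), by decide +kernel⟩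

theorem c_pm_213_a : CertB 0 536870912 0 1230186008 536870912 50465866 3 eng mog cd3q2a cd4q3 pd1 false true false .pnn 2 1 3
    ndB3q2a ndB4q3 pcB1 cut_pm_213_a Ext.none :=
  certB0 (fam := false) (s1 := true) (s2 := false) (a := 2) (b := 1) (c := 3) (cn := .pnn) (n1 := ndB3q2a) (n2 := ndB4q3) (pc := pcB1) (cut := cut_pm_213_a) (xt := Ext.none) (P1 := 0) (W1 := 536870912) (P2 := 0) (W2 := 1230186008) (P3 := 536870912) (W3 := 50465866) (N0 := 3) (En := eng) (mo := mog) (C1 := cd3q2a) (C2 := cd4q3) (C3 := pd1)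
    rfl k0_pm_213_a

noncomputable def cut_pm_213_b : Cut := Cut.of [[⟨0, 1, 0, 67108864⟩, ⟨1, 1, 0, 67108864⟩, ⟨2, 2, 0, 16777216⟩]]

noncomputable def f_pm_213_b : ℕ → ℕ → ℕ → ℕ → Bool := onCell 1239849684 370763052 0 1230186008 536870912 50465866
    (rowB 3 eng mog cd3q2b cd4q3 pd1 0 false true false .pnn 2 1 3 (qsf 1239849684 370763052 0 1230186008 1) ndB3q2b ndB4q3 pcB1 cut_pm_213_b Ext.none)

def k0_pm_213_b : ∃ t, chk3 f_pm_213_b t 1 1 1 = true :=
  ⟨(b (l 3) (b (a (b (l 3) (l 3)) (l 3)) (a (b (a (b (a (l 3) (l 3)) (a (b (l 16661048) (l 16578472)) (l 1))) (l 1)) (l 1)) (l 1)))), by decide +kernel⟩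

theorem c_pm_213_b : CertB 1239849684 370763052 0 1230186008 536870912 50465866 3 eng mog cd3q2b cd4q3 pd1 false true false .pnn 2 1 3
    ndB3q2b ndB4q3 pcB1 cut_pm_213_b Ext.none :=
  certB0 (fam := false) (s1 := true) (s2 := false) (a := 2) (b := 1) (c := 3) (cn := .pnn) (n1 := ndB3q2b) (n2 := ndB4q3) (pc := pcB1) (cut := cut_pm_213_b) (xt := Ext.none) (P1 := 1239849684) (W1 := 370763052) (P2 := 0) (W2 := 1230186008) (P3 := 536870912) (W3 := 50465866) (N0 := 3) (En := eng) (mo := mog) (C1 := cd3q2b) (C2 := cd4q3) (C3 := pd1)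
    rfl k0_pm_213_b

noncomputable def f_pm_303 : ℕ → ℕ → ℕ → ℕ → Bool := onCell 1610612736 536870912 0 1230186008 536870912 50465866
    (rowB 3 eng mog cd3q3 cd4q3 pd0 0 false true false .npn 3 0 3 (qsf 1610612736 536870912 0 1230186008 0) ndB3q3 ndB4q3 pcB0 Cut.none Ext.none)

def k0_pm_303 : ∃ t, chk3 f_pm_303 t 1 1 1 = true :=
  ⟨(b (l 3) (b (l 3) (a (l 3) (l 1)))), by decide +kernel⟩

theorem c_pm_303 : CertB 1610612736 536870912 0 1230186008 536870912 50465866 3 eng mog cd3q3 cd4q3 pd0 false true false .npn 3 0 3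
    ndB3q3 ndB4q3 pcB0 Cut.none Ext.none :=
  certB0 (fam := false) (s1 := true) (s2 := false) (a := 3) (b := 0) (c := 3) (cn := .npn) (n1 := ndB3q3) (n2 := ndB4q3) (pc := pcB0) (cut := Cut.none) (xt := Ext.none) (P1 := 1610612736) (W1 := 536870912) (P2 := 0) (W2 := 1230186008) (P3 := 536870912) (W3 := 50465866) (N0 := 3) (En := eng) (mo := mog) (C1 := cd3q3) (C2 := cd4q3) (C3 := pd0)
    rfl k0_pm_303

noncomputable def f_pm_313 : ℕ → ℕ → ℕ → ℕ → Bool := onCell 1610612736 536870912 0 1230186008 536870912 50465866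
    (rowB 3 eng mog cd3q3 cd4q3 pd1 0 false true false .dn 3 1 3 (qsf 1610612736 536870912 0 1230186008 1) ndB3q3 ndB4q3 pcB1 Cut.none Ext.none)

def k0_pm_313 : ∃ t, chk3 f_pm_313 t 1 1 1 = true :=
  ⟨(b (l 3) (l 1)), by decide +kernel⟩

theorem c_pm_313 : CertB 1610612736 536870912 0 1230186008 536870912 50465866 3 eng mog cd3q3 cd4q3 pd1 false true false .dn 3 1 3
    ndB3q3 ndB4q3 pcB1 Cut.none Ext.none :=
  certB0 (fam := false) (s1 := true) (s2 := false) (a := 3) (b := 1) (c := 3) (cn := .dn) (n1 := ndB3q3) (n2 := ndB4q3) (pc := pcB1) (cut := Cut.none) (xt := Ext.none) (P1 := 1610612736) (W1 := 536870912) (P2 := 0) (W2 := 1230186008) (P3 := 536870912) (W3 := 50465866) (N0 := 3) (En := eng) (mo := mog) (C1 := cd3q3) (C2 := cd4q3) (C3 := pd1)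
    rfl k0_pm_313

noncomputable def f_mm_001 : ℕ → ℕ → ℕ → ℕ → Bool := onCell 0 536870912 0 536870912 536870912 50465866
    (rowB 3 eng mog cd3q0 cd4q1 pd0 1 false false false .up 0 0 1 (qsf 0 536870912 536870912 536870912 0) ndB3q0 ndB4q1 pcB0 Cut.none Ext.none)

def k0_mm_001 : ∃ t, chk3 f_mm_001 t 1 1 1 = true :=
  ⟨(l 3), by decide +kernel⟩

theorem c_mm_001 : CertB 0 536870912 536870912 536870912 536870912 50465866 3 eng mog cd3q0 cd4q1 pd0 false false false .up 0 0 1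
    ndB3q0 ndB4q1 pcB0 Cut.none Ext.none :=
  certB1 (fam := false) (s1 := false) (s2 := false) (a := 0) (b := 0) (c := 1) (cn := .up) (n1 := ndB3q0) (n2 := ndB4q1) (pc := pcB0) (cut := Cut.none) (xt := Ext.none) (P1 := 0) (W1 := 536870912) (P2 := 536870912) (W2 := 536870912) (P3 := 536870912) (W3 := 50465866) (N0 := 3) (En := eng) (mo := mog) (C1 := cd3q0) (C2 := cd4q1) (C3 := pd0)
    rfl (fun _ => rfl) k0_mm_001

noncomputable def f_mm_011 : ℕ → ℕ → ℕ → ℕ → Bool := onCell 0 536870912 536870912 536870912 536870912 50465866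
    (rowB 3 eng mog cd3q0 cd4q1 pd1 1 false false false .pnn 0 1 1 (qsf 0 536870912 536870912 536870912 1) ndB3q0 ndB4q1 pcB1 Cut.none Ext.none)

def k0_mm_011 : ∃ t, chk3 f_mm_011 t 1 1 1 = true :=
  ⟨(l 5), by decide +kernel⟩

theorem c_mm_011 : CertB 0 536870912 536870912 536870912 536870912 50465866 3 eng mog cd3q0 cd4q1 pd1 false false false .pnn 0 1 1
    ndB3q0 ndB4q1 pcB1 Cut.none Ext.none :=
  certB1 (fam := false) (s1 := false) (s2 := false) (a := 0) (b := 1) (c := 1) (cn := .pnn) (n1 := ndB3q0) (n2 := ndB4q1) (pc := pcB1) (cut := Cut.none) (xt := Ext.none) (P1 := 0) (W1 := 536870912) (P2 := 536870912) (W2 := 536870912) (P3 := 536870912) (W3 := 50465866) (N0 := 3) (En := eng) (mo := mog) (C1 := cd3q0) (C2 := cd4q1) (C3 := pd1)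
    rfl (fun _ => rfl) k0_mm_011

noncomputable def f_mm_012 : ℕ → ℕ → ℕ → ℕ → Bool := onCell 0 536870912 1073741824 536870912 536870912 50465866
    (rowB 3 eng mog cd3q0 cd4q2 pd1 0 false false false .pnp 0 1 2 (qsf 0 536870912 1073741824 536870912 1) ndB3q0 ndB4q2 pcB1 Cut.none Ext.none)

def k0_mm_012 : ∃ t, chk3 f_mm_012 t 1 1 1 = true :=
  ⟨(l 5), by decide +kernel⟩

theorem c_mm_012 : CertB 0 536870912 1073741824 536870912 536870912 50465866 3 eng mog cd3q0 cd4q2 pd1 false false false .pnp 0 1 2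
    ndB3q0 ndB4q2 pcB1 Cut.none Ext.none :=
  certB0 (fam := false) (s1 := false) (s2 := false) (a := 0) (b := 1) (c := 2) (cn := .pnp) (n1 := ndB3q0) (n2 := ndB4q2) (pc := pcB1) (cut := Cut.none) (xt := Ext.none) (P1 := 0) (W1 := 536870912) (P2 := 1073741824) (W2 := 536870912) (P3 := 536870912) (W3 := 50465866) (N0 := 3) (En := eng) (mo := mog) (C1 := cd3q0) (C2 := cd4q2) (C3 := pd1)
    rfl k0_mm_012

noncomputable def f_mm_022 : ℕ → ℕ → ℕ → ℕ → Bool := onCell 0 536870912 1073741824 536870912 536870912 50465866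
    (rowB 3 eng mog cd3q0 cd4q2 pd2 0 false false false .pp 0 2 2 (qsf 0 536870912 1073741824 536870912 2) ndB3q0 ndB4q2 pcB2 Cut.none Ext.none)

def k0_mm_022 : ∃ t, chk3 f_mm_022 t 1 1 1 = true :=
  ⟨(l 5), by decide +kernel⟩

theorem c_mm_022 : CertB 0 536870912 1073741824 536870912 536870912 50465866 3 eng mog cd3q0 cd4q2 pd2 false false false .pp 0 2 2
    ndB3q0 ndB4q2 pcB2 Cut.none Ext.none :=
  certB0 (fam := false) (s1 := false) (s2 := false) (a := 0) (b := 2) (c := 2) (cn := .pp) (n1 := ndB3q0) (n2 := ndB4q2) (pc := pcB2) (cut := Cut.none) (xt := Ext.none) (P1 := 0) (W1 := 536870912) (P2 := 1073741824) (W2 := 536870912) (P3 := 536870912) (W3 := 50465866) (N0 := 3) (En := eng) (mo := mog) (C1 := cd3q0) (C2 := cd4q2) (C3 := pd2)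
    rfl k0_mm_022

noncomputable def f_mm_023 : ℕ → ℕ → ℕ → ℕ → Bool := onCell 0 536870912 0 1230186008 536870912 50465866
    (rowB 3 eng mog cd3q0 cd4q3 pd2 0 false false false .up 0 2 3 (qsf 0 536870912 0 1230186008 2) ndB3q0 ndB4q3 pcB2 Cut.none Ext.none)

def k0_mm_023 : ∃ t, chk3 f_mm_023 t 1 1 1 = true :=
  ⟨(l 5), by decide +kernel⟩

theorem c_mm_023 : CertB 0 536870912 0 1230186008 536870912 50465866 3 eng mog cd3q0 cd4q3 pd2 false false false .up 0 2 3
    ndB3q0 ndB4q3 pcB2 Cut.none Ext.none :=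
  certB0 (fam := false) (s1 := false) (s2 := false) (a := 0) (b := 2) (c := 3) (cn := .up) (n1 := ndB3q0) (n2 := ndB4q3) (pc := pcB2) (cut := Cut.none) (xt := Ext.none) (P1 := 0) (W1 := 536870912) (P2 := 0) (W2 := 1230186008) (P3 := 536870912) (W3 := 50465866) (N0 := 3) (En := eng) (mo := mog) (C1 := cd3q0) (C2 := cd4q3) (C3 := pd2)
    rfl k0_mm_023

noncomputable def f_mm_033 : ℕ → ℕ → ℕ → ℕ → Bool := onCell 0 536870912 0 1230186008 536870912 50465866
    (rowB 3 eng mog cd3q0 cd4q3 pd3 0 false false false .pnn 0 3 3 (qsf 0 536870912 0 1230186008 3) ndB3q0 ndB4q3 pcB3 Cut.none Ext.none)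

def k0_mm_033 : ∃ t, chk3 f_mm_033 t 1 1 1 = true :=
  ⟨(l 5), by decide +kernel⟩

theorem c_mm_033 : CertB 0 536870912 0 1230186008 536870912 50465866 3 eng mog cd3q0 cd4q3 pd3 false false false .pnn 0 3 3
    ndB3q0 ndB4q3 pcB3 Cut.none Ext.none :=
  certB0 (fam := false) (s1 := false) (s2 := false) (a := 0) (b := 3) (c := 3) (cn := .pnn) (n1 := ndB3q0) (n2 := ndB4q3) (pc := pcB3) (cut := Cut.none) (xt := Ext.none) (P1 := 0) (W1 := 536870912) (P2 := 0) (W2 := 1230186008) (P3 := 536870912) (W3 := 50465866) (N0 := 3) (En := eng) (mo := mog) (C1 := cd3q0) (C2 := cd4q3) (C3 := pd3)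
    rfl k0_mm_033

noncomputable def f_mm_101 : ℕ → ℕ → ℕ → ℕ → Bool := onCell 536870912 536870912 536870912 536870912 536870912 50465866
    (rowB 3 eng mog cd3q1 cd4q1 pd0 0 false false false .npn 1 0 1 (qsf 536870912 536870912 536870912 536870912 0) ndB3q1 ndB4q1 pcB0 Cut.none Ext.none)

def k0_mm_101 : ∃ t, chk3 f_mm_101 t 1 1 1 = true :=
  ⟨(l 3), by decide +kernel⟩

theorem c_mm_101 : CertB 536870912 536870912 536870912 536870912 536870912 50465866 3 eng mog cd3q1 cd4q1 pd0 false false false .npn 1 0 1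
    ndB3q1 ndB4q1 pcB0 Cut.none Ext.none :=
  certB0 (fam := false) (s1 := false) (s2 := false) (a := 1) (b := 0) (c := 1) (cn := .npn) (n1 := ndB3q1) (n2 := ndB4q1) (pc := pcB0) (cut := Cut.none) (xt := Ext.none) (P1 := 536870912) (W1 := 536870912) (P2 := 536870912) (W2 := 536870912) (P3 := 536870912) (W3 := 50465866) (N0 := 3) (En := eng) (mo := mog) (C1 := cd3q1) (C2 := cd4q1) (C3 := pd0)
    rfl k0_mm_101

noncomputable def f_mm_102 : ℕ → ℕ → ℕ → ℕ → Bool := onCell 536870912 536870912 1073741824 536870912 536870912 50465866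
    (rowB 3 eng mog cd3q1 cd4q2 pd0 0 false false false .npp 1 0 2 (qsf 536870912 536870912 1073741824 536870912 0) ndB3q1 ndB4q2 pcB0 Cut.none Ext.none)

def k0_mm_102 : ∃ t, chk3 f_mm_102 t 1 1 1 = true :=
  ⟨(l 5), by decide +kernel⟩

theorem c_mm_102 : CertB 536870912 536870912 1073741824 536870912 536870912 50465866 3 eng mog cd3q1 cd4q2 pd0 false false false .npp 1 0 2
    ndB3q1 ndB4q2 pcB0 Cut.none Ext.none :=
  certB0 (fam := false) (s1 := false) (s2 := false) (a := 1) (b := 0) (c := 2) (cn := .npp) (n1 := ndB3q1) (n2 := ndB4q2) (pc := pcB0) (cut := Cut.none) (xt := Ext.none) (P1 := 536870912) (W1 := 536870912) (P2 := 1073741824) (W2 := 536870912) (P3 := 536870912) (W3 := 50465866) (N0 := 3) (En := eng) (mo := mog) (C1 := cd3q1) (C2 := cd4q2) (C3 := pd0)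
    rfl k0_mm_102

noncomputable def f_mm_112 : ℕ → ℕ → ℕ → ℕ → Bool := onCell 536870912 536870912 1073741824 536870912 536870912 50465866
    (rowB 3 eng mog cd3q1 cd4q2 pd1 0 false false false .dn 1 1 2 (qsf 536870912 536870912 1073741824 536870912 1) ndB3q1 ndB4q2 pcB1 Cut.none Ext.none)

def k0_mm_112 : ∃ t, chk3 f_mm_112 t 1 1 1 = true :=
  ⟨(l 5), by decide +kernel⟩

theorem c_mm_112 : CertB 536870912 536870912 1073741824 536870912 536870912 50465866 3 eng mog cd3q1 cd4q2 pd1 false false false .dn 1 1 2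
    ndB3q1 ndB4q2 pcB1 Cut.none Ext.none :=
  certB0 (fam := false) (s1 := false) (s2 := false) (a := 1) (b := 1) (c := 2) (cn := .dn) (n1 := ndB3q1) (n2 := ndB4q2) (pc := pcB1) (cut := Cut.none) (xt := Ext.none) (P1 := 536870912) (W1 := 536870912) (P2 := 1073741824) (W2 := 536870912) (P3 := 536870912) (W3 := 50465866) (N0 := 3) (En := eng) (mo := mog) (C1 := cd3q1) (C2 := cd4q2) (C3 := pd1)
    rfl k0_mm_112

noncomputable def f_mm_113 : ℕ → ℕ → ℕ → ℕ → Bool := onCell 536870912 536870912 0 1230186008 536870912 50465866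
    (rowB 3 eng mog cd3q1 cd4q3 pd1 0 false false false .nn 1 1 3 (qsf 536870912 536870912 0 1230186008 1) ndB3q1 ndB4q3 pcB1 Cut.none Ext.none)

def k0_mm_113 : ∃ t, chk3 f_mm_113 t 1 1 1 = true :=
  ⟨(l 5), by decide +kernel⟩

theorem c_mm_113 : CertB 536870912 536870912 0 1230186008 536870912 50465866 3 eng mog cd3q1 cd4q3 pd1 false false false .nn 1 1 3
    ndB3q1 ndB4q3 pcB1 Cut.none Ext.none :=
  certB0 (fam := false) (s1 := false) (s2 := false) (a := 1) (b := 1) (c := 3) (cn := .nn) (n1 := ndB3q1) (n2 := ndB4q3) (pc := pcB1) (cut := Cut.none) (xt := Ext.none) (P1 := 536870912) (W1 := 536870912) (P2 := 0) (W2 := 1230186008) (P3 := 536870912) (W3 := 50465866) (N0 := 3) (En := eng) (mo := mog) (C1 := cd3q1) (C2 := cd4q3) (C3 := pd1)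
    rfl k0_mm_113

noncomputable def f_mm_123 : ℕ → ℕ → ℕ → ℕ → Bool := onCell 536870912 536870912 0 1230186008 536870912 50465866
    (rowB 3 eng mog cd3q1 cd4q3 pd2 0 false false false .npn 1 2 3 (qsf 536870912 536870912 0 1230186008 2) ndB3q1 ndB4q3 pcB2 Cut.none Ext.none)

def k0_mm_123 : ∃ t, chk3 f_mm_123 t 1 1 1 = true :=
  ⟨(l 5), by decide +kernel⟩

theorem c_mm_123 : CertB 536870912 536870912 0 1230186008 536870912 50465866 3 eng mog cd3q1 cd4q3 pd2 false false false .npn 1 2 3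
    ndB3q1 ndB4q3 pcB2 Cut.none Ext.none :=
  certB0 (fam := false) (s1 := false) (s2 := false) (a := 1) (b := 2) (c := 3) (cn := .npn) (n1 := ndB3q1) (n2 := ndB4q3) (pc := pcB2) (cut := Cut.none) (xt := Ext.none) (P1 := 536870912) (W1 := 536870912) (P2 := 0) (W2 := 1230186008) (P3 := 536870912) (W3 := 50465866) (N0 := 3) (En := eng) (mo := mog) (C1 := cd3q1) (C2 := cd4q3) (C3 := pd2)
    rfl k0_mm_123

noncomputable def f_mm_133 : ℕ → ℕ → ℕ → ℕ → Bool := onCell 536870912 536870912 0 1230186008 536870912 50465866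
    (rowB 3 eng mog cd3q1 cd4q3 pd3 0 false false false .dn 1 3 3 (qsf 536870912 536870912 0 1230186008 3) ndB3q1 ndB4q3 pcB3 Cut.none Ext.none)

def k0_mm_133 : ∃ t, chk3 f_mm_133 t 1 1 1 = true :=
  ⟨(l 5), by decide +kernel⟩

theorem c_mm_133 : CertB 536870912 536870912 0 1230186008 536870912 50465866 3 eng mog cd3q1 cd4q3 pd3 false false false .dn 1 3 3
    ndB3q1 ndB4q3 pcB3 Cut.none Ext.none :=
  certB0 (fam := false) (s1 := false) (s2 := false) (a := 1) (b := 3) (c := 3) (cn := .dn) (n1 := ndB3q1) (n2 := ndB4q3) (pc := pcB3) (cut := Cut.none) (xt := Ext.none) (P1 := 536870912) (W1 := 536870912) (P2 := 0) (W2 := 1230186008) (P3 := 536870912) (W3 := 50465866) (N0 := 3) (En := eng) (mo := mog) (C1 := cd3q1) (C2 := cd4q3) (C3 := pd3)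
    rfl k0_mm_133

noncomputable def f_mm_202_a : ℕ → ℕ → ℕ → ℕ → Bool := onCell 0 536870912 1073741824 536870912 536870912 50465866
    (rowB 3 eng mog cd3q2a cd4q2 pd0 0 false false false .pp 2 0 2 (qsf 0 536870912 1073741824 536870912 0) ndB3q2a ndB4q2 pcB0 Cut.none Ext.none)

def k0_mm_202_a : ∃ t, chk3 f_mm_202_a t 1 1 1 = true :=
  ⟨(l 3), by decide +kernel⟩

theorem c_mm_202_a : CertB 0 536870912 1073741824 536870912 536870912 50465866 3 eng mog cd3q2a cd4q2 pd0 false false false .pp 2 0 2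
    ndB3q2a ndB4q2 pcB0 Cut.none Ext.none :=
  certB0 (fam := false) (s1 := false) (s2 := false) (a := 2) (b := 0) (c := 2) (cn := .pp) (n1 := ndB3q2a) (n2 := ndB4q2) (pc := pcB0) (cut := Cut.none) (xt := Ext.none) (P1 := 0) (W1 := 536870912) (P2 := 1073741824) (W2 := 536870912) (P3 := 536870912) (W3 := 50465866) (N0 := 3) (En := eng) (mo := mog) (C1 := cd3q2a) (C2 := cd4q2) (C3 := pd0)
    rfl k0_mm_202_a

noncomputable def f_mm_202_b : ℕ → ℕ → ℕ → ℕ → Bool := onCell 1239849684 370763052 1073741824 536870912 536870912 50465866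
    (rowB 3 eng mog cd3q2b cd4q2 pd0 0 false false false .pp 2 0 2 (qsf 1239849684 370763052 1073741824 536870912 0) ndB3q2b ndB4q2 pcB0 Cut.none Ext.none)

def k0_mm_202_b : ∃ t, chk3 f_mm_202_b t 1 1 1 = true :=
  ⟨(l 3), by decide +kernel⟩

theorem c_mm_202_b : CertB 1239849684 370763052 1073741824 536870912 536870912 50465866 3 eng mog cd3q2b cd4q2 pd0 false false false .pp 2 0 2
    ndB3q2b ndB4q2 pcB0 Cut.none Ext.none :=
  certB0 (fam := false) (s1 := false) (s2 := false) (a := 2) (b := 0) (c := 2) (cn := .pp) (n1 := ndB3q2b) (n2 := ndB4q2) (pc := pcB0) (cut := Cut.none) (xt := Ext.none) (P1 := 1239849684) (W1 := 370763052) (P2 := 1073741824) (W2 := 536870912) (P3 := 536870912) (W3 := 50465866) (N0 := 3) (En := eng) (mo := mog) (C1 := cd3q2b) (C2 := cd4q2) (C3 := pd0)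
    rfl k0_mm_202_b

noncomputable def f_mm_203_a : ℕ → ℕ → ℕ → ℕ → Bool := onCell 0 536870912 0 1230186008 536870912 50465866
    (rowB 3 eng mog cd3q2a cd4q3 pd0 0 false false false .up 2 0 3 (qsf 0 536870912 0 1230186008 0) ndB3q2a ndB4q3 pcB0 Cut.none Ext.none)

def k0_mm_203_a : ∃ t, chk3 f_mm_203_a t 1 1 1 = true :=
  ⟨(b (l 2) (l 3)), by decide +kernel⟩

theorem c_mm_203_a : CertB 0 536870912 0 1230186008 536870912 50465866 3 eng mog cd3q2a cd4q3 pd0 false false false .up 2 0 3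
    ndB3q2a ndB4q3 pcB0 Cut.none Ext.none :=
  certB0 (fam := false) (s1 := false) (s2 := false) (a := 2) (b := 0) (c := 3) (cn := .up) (n1 := ndB3q2a) (n2 := ndB4q3) (pc := pcB0) (cut := Cut.none) (xt := Ext.none) (P1 := 0) (W1 := 536870912) (P2 := 0) (W2 := 1230186008) (P3 := 536870912) (W3 := 50465866) (N0 := 3) (En := eng) (mo := mog) (C1 := cd3q2a) (C2 := cd4q3) (C3 := pd0)
    rfl k0_mm_203_a

noncomputable def f_mm_203_b : ℕ → ℕ → ℕ → ℕ → Bool := onCell 1239849684 370763052 0 1230186008 536870912 50465866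
    (rowB 3 eng mog cd3q2b cd4q3 pd0 0 false false false .up 2 0 3 (qsf 1239849684 370763052 0 1230186008 0) ndB3q2b ndB4q3 pcB0 Cut.none Ext.none)

def k0_mm_203_b : ∃ t, chk3 f_mm_203_b t 1 1 1 = true :=
  ⟨(b (l 3) (l 3)), by decide +kernel⟩

theorem c_mm_203_b : CertB 1239849684 370763052 0 1230186008 536870912 50465866 3 eng mog cd3q2b cd4q3 pd0 false false false .up 2 0 3
    ndB3q2b ndB4q3 pcB0 Cut.none Ext.none :=
  certB0 (fam := false) (s1 := false) (s2 := false) (a := 2) (b := 0) (c := 3) (cn := .up) (n1 := ndB3q2b) (n2 := ndB4q3) (pc := pcB0) (cut := Cut.none) (xt := Ext.none) (P1 := 1239849684) (W1 := 370763052) (P2 := 0) (W2 := 1230186008) (P3 := 536870912) (W3 := 50465866) (N0 := 3) (En := eng) (mo := mog) (C1 := cd3q2b) (C2 := cd4q3) (C3 := pd0)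
    rfl k0_mm_203_b

noncomputable def f_mm_213_a : ℕ → ℕ → ℕ → ℕ → Bool := onCell 0 536870912 0 1230186008 536870912 50465866
    (rowB 3 eng mog cd3q2a cd4q3 pd1 0 false false false .pnn 2 1 3 (qsf 0 536870912 0 1230186008 1) ndB3q2a ndB4q3 pcB1 Cut.none Ext.none)

def k0_mm_213_a : ∃ t, chk3 f_mm_213_a t 1 1 1 = true :=
  ⟨(b (l 5) (l 3)), by decide +kernel⟩

theorem c_mm_213_a : CertB 0 536870912 0 1230186008 536870912 50465866 3 eng mog cd3q2a cd4q3 pd1 false false false .pnn 2 1 3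
    ndB3q2a ndB4q3 pcB1 Cut.none Ext.none :=
  certB0 (fam := false) (s1 := false) (s2 := false) (a := 2) (b := 1) (c := 3) (cn := .pnn) (n1 := ndB3q2a) (n2 := ndB4q3) (pc := pcB1) (cut := Cut.none) (xt := Ext.none) (P1 := 0) (W1 := 536870912) (P2 := 0) (W2 := 1230186008) (P3 := 536870912) (W3 := 50465866) (N0 := 3) (En := eng) (mo := mog) (C1 := cd3q2a) (C2 := cd4q3) (C3 := pd1)
    rfl k0_mm_213_a

noncomputable def f_mm_213_b : ℕ → ℕ → ℕ → ℕ → Bool := onCell 1239849684 370763052 0 1230186008 536870912 50465866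
    (rowB 3 eng mog cd3q2b cd4q3 pd1 0 false false false .pnn 2 1 3 (qsf 1239849684 370763052 0 1230186008 1) ndB3q2b ndB4q3 pcB1 Cut.none Ext.none)

def k0_mm_213_b : ∃ t, chk3 f_mm_213_b t 1 1 1 = true :=
  ⟨(b (l 3) (l 3)), by decide +kernel⟩

theorem c_mm_213_b : CertB 1239849684 370763052 0 1230186008 536870912 50465866 3 eng mog cd3q2b cd4q3 pd1 false false false .pnn 2 1 3
    ndB3q2b ndB4q3 pcB1 Cut.none Ext.none :=
  certB0 (fam := false) (s1 := false) (s2 := false) (a := 2) (b := 1) (c := 3) (cn := .pnn) (n1 := ndB3q2b) (n2 := ndB4q3) (pc := pcB1) (cut := Cut.none) (xt := Ext.none) (P1 := 1239849684) (W1 := 370763052) (P2 := 0) (W2 := 1230186008) (P3 := 536870912) (W3 := 50465866) (N0 := 3) (En := eng) (mo := mog) (C1 := cd3q2b) (C2 := cd4q3) (C3 := pd1)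
    rfl k0_mm_213_b

noncomputable def f_mm_303 : ℕ → ℕ → ℕ → ℕ → Bool := onCell 1610612736 536870912 0 1230186008 536870912 50465866
    (rowB 3 eng mog cd3q3 cd4q3 pd0 0 false false false .npn 3 0 3 (qsf 1610612736 536870912 0 1230186008 0) ndB3q3 ndB4q3 pcB0 Cut.none Ext.none)

def k0_mm_303 : ∃ t, chk3 f_mm_303 t 1 1 1 = true :=
  ⟨(b (l 3) (l 3)), by decide +kernel⟩

theorem c_mm_303 : CertB 1610612736 536870912 0 1230186008 536870912 50465866 3 eng mog cd3q3 cd4q3 pd0 false false false .npn 3 0 3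
    ndB3q3 ndB4q3 pcB0 Cut.none Ext.none :=
  certB0 (fam := false) (s1 := false) (s2 := false) (a := 3) (b := 0) (c := 3) (cn := .npn) (n1 := ndB3q3) (n2 := ndB4q3) (pc := pcB0) (cut := Cut.none) (xt := Ext.none) (P1 := 1610612736) (W1 := 536870912) (P2 := 0) (W2 := 1230186008) (P3 := 536870912) (W3 := 50465866) (N0 := 3) (En := eng) (mo := mog) (C1 := cd3q3) (C2 := cd4q3) (C3 := pd0)
    rfl k0_mm_303

noncomputable def f_mm_313 : ℕ → ℕ → ℕ → ℕ → Bool := onCell 1610612736 536870912 0 1230186008 536870912 50465866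
    (rowB 3 eng mog cd3q3 cd4q3 pd1 0 false false false .dn 3 1 3 (qsf 1610612736 536870912 0 1230186008 1) ndB3q3 ndB4q3 pcB1 Cut.none Ext.none)

def k0_mm_313 : ∃ t, chk3 f_mm_313 t 1 1 1 = true :=
  ⟨(b (l 3) (l 1)), by decide +kernel⟩

theorem c_mm_313 : CertB 1610612736 536870912 0 1230186008 536870912 50465866 3 eng mog cd3q3 cd4q3 pd1 false false false .dn 3 1 3
    ndB3q3 ndB4q3 pcB1 Cut.none Ext.none :=
  certB0 (fam := false) (s1 := false) (s2 := false) (a := 3) (b := 1) (c := 3) (cn := .dn) (n1 := ndB3q3) (n2 := ndB4q3) (pc := pcB1) (cut := Cut.none) (xt := Ext.none) (P1 := 1610612736) (W1 := 536870912) (P2 := 0) (W2 := 1230186008) (P3 := 536870912) (W3 := 50465866) (N0 := 3) (En := eng) (mo := mog) (C1 := cd3q3) (C2 := cd4q3) (C3 := pd1)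
    rfl k0_mm_313

end Pool.Agent.Strip051.G.I5000_5470.Tab.C.BB34

namespace Pool.Agent.Strip051.G.I5000_5470.Tab.C.BB35

open Pool.Agent.Strip051.PB Pool.Agent.Strip051.PB.T
open Pool.Agent.Strip051.G.I5000_5470.Tab

noncomputable def f_pp_001 : ℕ → ℕ → ℕ → ℕ → Bool := onCell 0 536870912 0 536870912 536870912 50465866
    (rowB 3 eng mog cd3q0 cd5q1 pd0 1 false true true .up 0 0 1 (qsf 0 536870912 536870912 536870912 0) ndB3q0 ndB5q1 pcB0 Cut.none Ext.none)

def k0_pp_001 : ∃ t, chk3 f_pp_001 t 1 1 1 = true :=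
  ⟨(l 3), by decide +kernel⟩

theorem c_pp_001 : CertB 0 536870912 536870912 536870912 536870912 50465866 3 eng mog cd3q0 cd5q1 pd0 false true true .up 0 0 1
    ndB3q0 ndB5q1 pcB0 Cut.none Ext.none :=
  certB1 (fam := false) (s1 := true) (s2 := true) (a := 0) (b := 0) (c := 1) (cn := .up) (n1 := ndB3q0) (n2 := ndB5q1) (pc := pcB0) (cut := Cut.none) (xt := Ext.none) (P1 := 0) (W1 := 536870912) (P2 := 536870912) (W2 := 536870912) (P3 := 536870912) (W3 := 50465866) (N0 := 3) (En := eng) (mo := mog) (C1 := cd3q0) (C2 := cd5q1) (C3 := pd0)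
    rfl (fun _ => rfl) k0_pp_001

noncomputable def cut_pp_011 : Cut := Cut.of [[⟨0, 0, 0, 67108864⟩, ⟨1, 1, 0, 67108864⟩, ⟨2, 1, 0, 67108864⟩]]

noncomputable def f_pp_011 : ℕ → ℕ → ℕ → ℕ → Bool := onCell 0 536870912 536870912 536870912 536870912 50465866
    (rowB 3 eng mog cd3q0 cd5q1 pd1 1 false true true .pnn 0 1 1 (qsf 0 536870912 536870912 536870912 1) ndB3q0 ndB5q1 pcB1 cut_pp_011 Ext.none)

def k0_pp_011 : ∃ t, chk3 f_pp_011 t 1 1 1 = true :=
  ⟨(b (l 3) (b (l 3) (a (b (l 3) (a (a (b (l 3) (a (l 6) (l 3))) (l 3)) (l 2))) (l 2)))), by decide +kernel⟩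

theorem c_pp_011 : CertB 0 536870912 536870912 536870912 536870912 50465866 3 eng mog cd3q0 cd5q1 pd1 false true true .pnn 0 1 1
    ndB3q0 ndB5q1 pcB1 cut_pp_011 Ext.none :=
  certB1 (fam := false) (s1 := true) (s2 := true) (a := 0) (b := 1) (c := 1) (cn := .pnn) (n1 := ndB3q0) (n2 := ndB5q1) (pc := pcB1) (cut := cut_pp_011) (xt := Ext.none) (P1 := 0) (W1 := 536870912) (P2 := 536870912) (W2 := 536870912) (P3 := 536870912) (W3 := 50465866) (N0 := 3) (En := eng) (mo := mog) (C1 := cd3q0) (C2 := cd5q1) (C3 := pd1)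
    rfl (fun _ => rfl) k0_pp_011

noncomputable def f_pp_012 : ℕ → ℕ → ℕ → ℕ → Bool := onCell 0 536870912 536870912 536870912 536870912 50465866
    (rowB 3 eng mog cd3q0 cd5q2 pd1 1 false true true .pnp 0 1 2 (qsf 0 536870912 1073741824 536870912 1) ndB3q0 ndB5q2 pcB1 Cut.none Ext.none)

def k0_pp_012 : ∃ t, chk3 f_pp_012 t 1 1 1 = true :=
  ⟨(b (l 3) (l 3)), by decide +kernel⟩

theorem c_pp_012 : CertB 0 536870912 1073741824 536870912 536870912 50465866 3 eng mog cd3q0 cd5q2 pd1 false true true .pnp 0 1 2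
    ndB3q0 ndB5q2 pcB1 Cut.none Ext.none :=
  certB1 (fam := false) (s1 := true) (s2 := true) (a := 0) (b := 1) (c := 2) (cn := .pnp) (n1 := ndB3q0) (n2 := ndB5q2) (pc := pcB1) (cut := Cut.none) (xt := Ext.none) (P1 := 0) (W1 := 536870912) (P2 := 1073741824) (W2 := 536870912) (P3 := 536870912) (W3 := 50465866) (N0 := 3) (En := eng) (mo := mog) (C1 := cd3q0) (C2 := cd5q2) (C3 := pd1)
    rfl (fun _ => rfl) k0_pp_012

noncomputable def f_pp_022 : ℕ → ℕ → ℕ → ℕ → Bool := onCell 0 536870912 1073741824 536870912 536870912 50465866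
    (rowB 3 eng mog cd3q0 cd5q2 pd2 1 false true true .pp 0 2 2 (qsf 0 536870912 1073741824 536870912 2) ndB3q0 ndB5q2 pcB2 Cut.none Ext.none)

def k0_pp_022 : ∃ t, chk3 f_pp_022 t 1 1 1 = true :=
  ⟨(a (b (b (b (l 3) (l 3)) (b (b (b (a (l 3) (a (l 3) (l 16681240))) (b (a (a (a (a (b (l 16483608) (l 16475768)) (b (l 3) (l 16492208))) (l 3)) (l 3)) (a (l 16629008) (l 16594960))) (a (b (a (a (a (a (l 16537600) (l 16514720)) (b (l 16486176) (l 16482064))) (b (l 16503232) (l 16498824))) (l 3)) (a (b (b (a (a (l 16464304) (l 16479024)) (l 16495512)) (a (a (l 16462456) (l 16476864)) (l 16493240))) (a (a (l 16459480) (l 16473368)) (a (a (l 16481488) (l 16486944)) (l 16495208)))) (b (a (l 16516648) (l 16539760)) (a (l 16512096) (l 16535360))))) (b (a (l 16637632) (l 16583048)) (a (b (l 16568536) (l 16564408)) (l 16574920)))))) (a (a (a (a (b (l 16461376) (l 16406016)) (l 16433328)) (l 16449424)) (l 16468560)) (a (l 16527744) (l 16536576)))) (a (a (a (b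 (l 16425136) (l 16350024)) (l 16388680)) (a (l 16380144) (l 16385992))) (a (l 16409352) (l 16417064))))) (b (a (a (a (b (a (l 16268952) (l 16284408)) (l 16233640)) (b (l 16306080) (l 16275912))) (b (l 16342800) (l 16334496))) (a (b (l 16377048) (l 16401592)) (l 16409608))) (a (b (a (l 16253992) (l 16359720)) (a (a (l 16256160) (l 16326416)) (l 16427480))) (b (l 16581488) (l 2))))) (b (b (b (a (l 3) (l 564420111895)) (a (b (l 3) (a (b (l 3) (l 16652392)) (l 16728160))) (b (l 16934944) (l 16888984)))) (b (b (b (a (a (l 16622496) (l 16692328)) (l 16860544)) (a (b (a (l 16599680) (l 16674040)) (a (b (l 16587952) (l 16580008)) (l 16662464))) (l 2))) (a (a (l 16542048) (l 16631352)) (l 2))) (a (a (l 16423936) (l 16546832)) (l 2)))) (b (a (a (l 16492160) (l 2)) (l 2)) (l 2)))), by decide +kernel⟩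

theorem c_pp_022 : CertB 0 536870912 1073741824 536870912 536870912 50465866 3 eng mog cd3q0 cd5q2 pd2 false true true .pp 0 2 2
    ndB3q0 ndB5q2 pcB2 Cut.none Ext.none :=
  certB1 (fam := false) (s1 := true) (s2 := true) (a := 0) (b := 2) (c := 2) (cn := .pp) (n1 := ndB3q0) (n2 := ndB5q2) (pc := pcB2) (cut := Cut.none) (xt := Ext.none) (P1 := 0) (W1 := 536870912) (P2 := 1073741824) (W2 := 536870912) (P3 := 536870912) (W3 := 50465866) (N0 := 3) (En := eng) (mo := mog) (C1 := cd3q0) (C2 := cd5q2) (C3 := pd2)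
    rfl (fun _ => rfl) k0_pp_022

noncomputable def f_pp_023 : ℕ → ℕ → ℕ → ℕ → Bool := onCell 1073741824 536870912 0 1230186008 536870912 50465866
    (rowB 3 eng mog cd3q0 cd5q3 pd2 2 false true true .up 0 2 3 (qsf 0 536870912 0 1230186008 2) ndB3q0 ndB5q3 pcB2 Cut.none Ext.none)

def k0_pp_023 : ∃ t, chk3 f_pp_023 t 1 1 1 = true :=
  ⟨(b (a (l 2) (a (l 2) (a (l 16752912) (b (l 16755432) (l 16752912))))) (b (a (a (l 2) (b (l 2) (l 232566345127))) (a (l 16799880) (a (l 16763880) (b (l 16740080) (l 16708904))))) (b (a (a (l 2) (a (l 16901864) (l 16778064))) (a (l 16644864) (a (l 16630728) (b (l 16662400) (l 16604896))))) (a (a (a (l 17166088) (a (l 17030224) (l 16912400))) (a (a (a (l 16836760) (a (l 16800848) (b (l 16849024) (l 16704816)))) (l 16716904)) (b (l 16641192) (l 16446984)))) (a (b (l 16524016) (a (l 16462736) (l 16475536))) (a (b (l 16528200) (l 16451288)) (b (l 16513352) (b (l 16429920) (l 16391936))))))))), by decide +kernel⟩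

theorem c_pp_023 : CertB 0 536870912 0 1230186008 536870912 50465866 3 eng mog cd3q0 cd5q3 pd2 false true true .up 0 2 3
    ndB3q0 ndB5q3 pcB2 Cut.none Ext.none :=
  certB2 (fam := false) (s1 := true) (s2 := true) (a := 0) (b := 2) (c := 3) (cn := .up) (n1 := ndB3q0) (n2 := ndB5q3) (pc := pcB2) (cut := Cut.none) (xt := Ext.none) (P1 := 0) (W1 := 536870912) (P2 := 0) (W2 := 1230186008) (P3 := 536870912) (W3 := 50465866) (N0 := 3) (En := eng) (mo := mog) (C1 := cd3q0) (C2 := cd5q3) (C3 := pd2)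
    rfl (fun _ => rfl) k0_pp_023

noncomputable def f_pp_033 : ℕ → ℕ → ℕ → ℕ → Bool := onCell 1610612736 536870912 0 1230186008 536870912 50465866
    (rowB 3 eng mog cd3q0 cd5q3 pd3 2 false true true .pnn 0 3 3 (qsf 0 536870912 0 1230186008 3) ndB3q0 ndB5q3 pcB3 Cut.none Ext.none)

def k0_pp_033 : ∃ t, chk3 f_pp_033 t 1 1 1 = true :=
  ⟨(b (b (a (a (l 16754192) (l 4)) (l 4)) (a (a (a (l 16757264) (l 16754144)) (a (l 16750640) (l 16749432))) (b (a (l 436174490967) (l 4)) (a (a (l 16750456) (l 16748616)) (a (l 599181972615) (l 4)))))) (b (a (a (a (b (l 16747400) (a (l 16710256) (l 16729376))) (b (l 16751328) (l 16739184))) (a (b (l 16751104) (l 16734360)) (b (l 16751592) (b (l 16739936) (l 16719824))))) (b (a (a (b (l 16754024) (l 16752360)) (a (l 672196403687) (l 1034584278087))) (a (a (l 1088808239559) (l 1)) (l 1))) (a (a (b (l 16741728) (l 707092692471)) (b (l 761853322135) (l 1))) (l 1)))) (a (b (a (a (b (l 16682120) (l 16624656)) (b (l 16697368)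 (l 16627432))) (b (a (l 16691096) (l 651795022183)) (a (l 513818945639) (l 1)))) (a (a (b (a (l 16521744) (l 16515728)) (l 464425951255)) (b (l 484290777239) (b (l 562136602279) (l 1)))) (b (a (b (l 564284389671) (l 1)) (l 1)) (l 1)))) (l 1)))), by decide +kernel⟩

theorem c_pp_033 : CertB 0 536870912 0 1230186008 536870912 50465866 3 eng mog cd3q0 cd5q3 pd3 false true true .pnn 0 3 3
    ndB3q0 ndB5q3 pcB3 Cut.none Ext.none :=
  certB2 (fam := false) (s1 := true) (s2 := true) (a := 0) (b := 3) (c := 3) (cn := .pnn) (n1 := ndB3q0) (n2 := ndB5q3) (pc := pcB3) (cut := Cut.none) (xt := Ext.none) (P1 := 0) (W1 := 536870912) (P2 := 0) (W2 := 1230186008) (P3 := 536870912) (W3 := 50465866) (N0 := 3) (En := eng) (mo := mog) (C1 := cd3q0) (C2 := cd5q3) (C3 := pd3)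
    rfl (fun _ => rfl) k0_pp_033

noncomputable def f_pp_101 : ℕ → ℕ → ℕ → ℕ → Bool := onCell 536870912 536870912 536870912 536870912 536870912 50465866
    (rowB 3 eng mog cd3q1 cd5q1 pd0 0 false true true .npn 1 0 1 (qsf 536870912 536870912 536870912 536870912 0) ndB3q1 ndB5q1 pcB0 Cut.none Ext.none)

def k0_pp_101 : ∃ t, chk3 f_pp_101 t 1 1 1 = true :=
  ⟨(l 3), by decide +kernel⟩

theorem c_pp_101 : CertB 536870912 536870912 536870912 536870912 536870912 50465866 3 eng mog cd3q1 cd5q1 pd0 false true true .npn 1 0 1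
    ndB3q1 ndB5q1 pcB0 Cut.none Ext.none :=
  certB0 (fam := false) (s1 := true) (s2 := true) (a := 1) (b := 0) (c := 1) (cn := .npn) (n1 := ndB3q1) (n2 := ndB5q1) (pc := pcB0) (cut := Cut.none) (xt := Ext.none) (P1 := 536870912) (W1 := 536870912) (P2 := 536870912) (W2 := 536870912) (P3 := 536870912) (W3 := 50465866) (N0 := 3) (En := eng) (mo := mog) (C1 := cd3q1) (C2 := cd5q1) (C3 := pd0)
    rfl k0_pp_101

noncomputable def f_pp_102 : ℕ → ℕ → ℕ → ℕ → Bool := onCell 536870912 536870912 1073741824 536870912 536870912 50465866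
    (rowB 3 eng mog cd3q1 cd5q2 pd0 0 false true true .npp 1 0 2 (qsf 536870912 536870912 1073741824 536870912 0) ndB3q1 ndB5q2 pcB0 Cut.none Ext.none)

def k0_pp_102 : ∃ t, chk3 f_pp_102 t 1 1 1 = true :=
  ⟨(l 3), by decide +kernel⟩

theorem c_pp_102 : CertB 536870912 536870912 1073741824 536870912 536870912 50465866 3 eng mog cd3q1 cd5q2 pd0 false true true .npp 1 0 2
    ndB3q1 ndB5q2 pcB0 Cut.none Ext.none :=
  certB0 (fam := false) (s1 := true) (s2 := true) (a := 1) (b := 0) (c := 2) (cn := .npp) (n1 := ndB3q1) (n2 := ndB5q2) (pc := pcB0) (cut := Cut.none) (xt := Ext.none) (P1 := 536870912) (W1 := 536870912) (P2 := 1073741824) (W2 := 536870912) (P3 := 536870912) (W3 := 50465866) (N0 := 3) (En := eng) (mo := mog) (C1 := cd3q1) (C2 := cd5q2) (C3 := pd0)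
    rfl k0_pp_102

noncomputable def f_pp_112 : ℕ → ℕ → ℕ → ℕ → Bool := onCell 536870912 536870912 1073741824 536870912 536870912 50465866
    (rowB 3 eng mog cd3q1 cd5q2 pd1 0 false true true .dn 1 1 2 (qsf 536870912 536870912 1073741824 536870912 1) ndB3q1 ndB5q2 pcB1 Cut.none Ext.none)

def k0_pp_112 : ∃ t, chk3 f_pp_112 t 1 1 1 = true :=
  ⟨(l 3), by decide +kernel⟩

theorem c_pp_112 : CertB 536870912 536870912 1073741824 536870912 536870912 50465866 3 eng mog cd3q1 cd5q2 pd1 false true true .dn 1 1 2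
    ndB3q1 ndB5q2 pcB1 Cut.none Ext.none :=
  certB0 (fam := false) (s1 := true) (s2 := true) (a := 1) (b := 1) (c := 2) (cn := .dn) (n1 := ndB3q1) (n2 := ndB5q2) (pc := pcB1) (cut := Cut.none) (xt := Ext.none) (P1 := 536870912) (W1 := 536870912) (P2 := 1073741824) (W2 := 536870912) (P3 := 536870912) (W3 := 50465866) (N0 := 3) (En := eng) (mo := mog) (C1 := cd3q1) (C2 := cd5q2) (C3 := pd1)
    rfl k0_pp_112

noncomputable def f_pp_113 : ℕ → ℕ → ℕ → ℕ → Bool := onCell 536870912 536870912 0 1230186008 536870912 50465866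
    (rowB 3 eng mog cd3q1 cd5q3 pd1 2 false true true .nn 1 1 3 (qsf 536870912 536870912 0 1230186008 1) ndB3q1 ndB5q3 pcB1 Cut.none Ext.none)

def k0_pp_113 : ∃ t, chk3 f_pp_113 t 1 1 1 = true :=
  ⟨(a (b (l 2) (b (b (l 2) (l 3)) (l 3))) (b (a (l 2) (b (l 16805544) (l 16873008))) (b (a (a (b (l 2) (a (l 3) (l 333565315543))) (b (a (l 16911480) (l 16911032)) (l 210085025015))) (b (a (l 17017312) (l 16912744)) (a (a (l 16903656) (l 16913048)) (l 16929768)))) (b (a (l 3) (a (a (l 16877448) (l 16894856)) (b (l 16920512) (l 220821490167)))) (a (l 3) (a (l 3) (b (l 16918632) (l 3)))))))), by decide +kernel⟩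

theorem c_pp_113 : CertB 536870912 536870912 0 1230186008 536870912 50465866 3 eng mog cd3q1 cd5q3 pd1 false true true .nn 1 1 3
    ndB3q1 ndB5q3 pcB1 Cut.none Ext.none :=
  certB2 (fam := false) (s1 := true) (s2 := true) (a := 1) (b := 1) (c := 3) (cn := .nn) (n1 := ndB3q1) (n2 := ndB5q3) (pc := pcB1) (cut := Cut.none) (xt := Ext.none) (P1 := 536870912) (W1 := 536870912) (P2 := 0) (W2 := 1230186008) (P3 := 536870912) (W3 := 50465866) (N0 := 3) (En := eng) (mo := mog) (C1 := cd3q1) (C2 := cd5q3) (C3 := pd1)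
    rfl (fun _ => rfl) k0_pp_113

noncomputable def f_pp_123 : ℕ → ℕ → ℕ → ℕ → Bool := onCell 1073741824 536870912 0 1230186008 536870912 50465866
    (rowB 3 eng mog cd3q1 cd5q3 pd2 2 false true true .npn 1 2 3 (qsf 536870912 536870912 0 1230186008 2) ndB3q1 ndB5q3 pcB2 Cut.none Ext.none)

def k0_pp_123 : ∃ t, chk3 f_pp_123 t 1 1 1 = true :=
  ⟨(b (b (a (a (l 16783160) (l 16765376)) (a (l 16768824) (l 16757720))) (a (a (l 16869792) (b (l 16808752) (l 16891968))) (a (b (l 16767728) (l 16765984)) (a (l 16746952) (l 16747760))))) (b (a (a (b (l 16923848) (a (l 16941608) (l 16967936))) (b (a (l 16966088) (l 16895032)) (a (l 17040120) (l 16837336)))) (a (b (l 16746824) (l 16603016)) (a (l 16717168) (l 1)))) (a (a (a (b (l 17046832) (b (l 17081200) (l 17110968))) (b (l 17104600) (a (l 16974120) (l 16844560)))) (b (a (l 16904480) (l 16727464)) (a (a (a (l 16771624) (l 1)) (l 1)) (l 1)))) (l 1)))), by decide +kernel⟩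

theorem c_pp_123 : CertB 536870912 536870912 0 1230186008 536870912 50465866 3 eng mog cd3q1 cd5q3 pd2 false true true .npn 1 2 3
    ndB3q1 ndB5q3 pcB2 Cut.none Ext.none :=
  certB2 (fam := false) (s1 := true) (s2 := true) (a := 1) (b := 2) (c := 3) (cn := .npn) (n1 := ndB3q1) (n2 := ndB5q3) (pc := pcB2) (cut := Cut.none) (xt := Ext.none) (P1 := 536870912) (W1 := 536870912) (P2 := 0) (W2 := 1230186008) (P3 := 536870912) (W3 := 50465866) (N0 := 3) (En := eng) (mo := mog) (C1 := cd3q1) (C2 := cd5q3) (C3 := pd2)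
    rfl (fun _ => rfl) k0_pp_123

noncomputable def f_pp_133 : ℕ → ℕ → ℕ → ℕ → Bool := onCell 1610612736 536870912 0 1230186008 536870912 50465866
    (rowB 3 eng mog cd3q1 cd5q3 pd3 2 false true true .dn 1 3 3 (qsf 536870912 536870912 0 1230186008 3) ndB3q1 ndB5q3 pcB3 Cut.none Ext.none)

def k0_pp_133 : ∃ t, chk3 f_pp_133 t 1 1 1 = true :=
  ⟨(b (b (a (a (l 16748528) (l 1)) (l 1)) (l 1)) (l 1)), by decide +kernel⟩

theorem c_pp_133 : CertB 536870912 536870912 0 1230186008 536870912 50465866 3 eng mog cd3q1 cd5q3 pd3 false true true .dn 1 3 3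
    ndB3q1 ndB5q3 pcB3 Cut.none Ext.none :=
  certB2 (fam := false) (s1 := true) (s2 := true) (a := 1) (b := 3) (c := 3) (cn := .dn) (n1 := ndB3q1) (n2 := ndB5q3) (pc := pcB3) (cut := Cut.none) (xt := Ext.none) (P1 := 536870912) (W1 := 536870912) (P2 := 0) (W2 := 1230186008) (P3 := 536870912) (W3 := 50465866) (N0 := 3) (En := eng) (mo := mog) (C1 := cd3q1) (C2 := cd5q3) (C3 := pd3)
    rfl (fun _ => rfl) k0_pp_133

noncomputable def f_pp_202_a : ℕ → ℕ → ℕ → ℕ → Bool := onCell 0 536870912 1073741824 536870912 536870912 50465866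
    (rowB 3 eng mog cd3q2a cd5q2 pd0 0 false true true .pp 2 0 2 (qsf 0 536870912 1073741824 536870912 0) ndB3q2a ndB5q2 pcB0 Cut.none Ext.none)

def k0_pp_202_a : ∃ t, chk3 f_pp_202_a t 1 1 1 = true :=
  ⟨(l 3), by decide +kernel⟩

theorem c_pp_202_a : CertB 0 536870912 1073741824 536870912 536870912 50465866 3 eng mog cd3q2a cd5q2 pd0 false true true .pp 2 0 2
    ndB3q2a ndB5q2 pcB0 Cut.none Ext.none :=
  certB0 (fam := false) (s1 := true) (s2 := true) (a := 2) (b := 0) (c := 2) (cn := .pp) (n1 := ndB3q2a) (n2 := ndB5q2) (pc := pcB0) (cut := Cut.none) (xt := Ext.none) (P1 := 0) (W1 := 536870912) (P2 := 1073741824) (W2 := 536870912) (P3 := 536870912) (W3 := 50465866) (N0 := 3) (En := eng) (mo := mog) (C1 := cd3q2a) (C2 := cd5q2) (C3 := pd0)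
    rfl k0_pp_202_a

noncomputable def f_pp_202_b : ℕ → ℕ → ℕ → ℕ → Bool := onCell 1239849684 370763052 1073741824 536870912 536870912 50465866
    (rowB 3 eng mog cd3q2b cd5q2 pd0 0 false true true .pp 2 0 2 (qsf 1239849684 370763052 1073741824 536870912 0) ndB3q2b ndB5q2 pcB0 Cut.none Ext.none)

def k0_pp_202_b : ∃ t, chk3 f_pp_202_b t 1 1 1 = true :=
  ⟨(l 5), by decide +kernel⟩

theorem c_pp_202_b : CertB 1239849684 370763052 1073741824 536870912 536870912 50465866 3 eng mog cd3q2b cd5q2 pd0 false true true .pp 2 0 2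
    ndB3q2b ndB5q2 pcB0 Cut.none Ext.none :=
  certB0 (fam := false) (s1 := true) (s2 := true) (a := 2) (b := 0) (c := 2) (cn := .pp) (n1 := ndB3q2b) (n2 := ndB5q2) (pc := pcB0) (cut := Cut.none) (xt := Ext.none) (P1 := 1239849684) (W1 := 370763052) (P2 := 1073741824) (W2 := 536870912) (P3 := 536870912) (W3 := 50465866) (N0 := 3) (En := eng) (mo := mog) (C1 := cd3q2b) (C2 := cd5q2) (C3 := pd0)
    rfl k0_pp_202_b

noncomputable def f_pp_203_a : ℕ → ℕ → ℕ → ℕ → Bool := onCell 0 536870912 0 1230186008 536870912 50465866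
    (rowB 3 eng mog cd3q2a cd5q3 pd0 0 false true true .up 2 0 3 (qsf 0 536870912 0 1230186008 0) ndB3q2a ndB5q3 pcB0 Cut.none Ext.none)

def k0_pp_203_a : ∃ t, chk3 f_pp_203_a t 1 1 1 = true :=
  ⟨(b (l 2) (l 3)), by decide +kernel⟩

theorem c_pp_203_a : CertB 0 536870912 0 1230186008 536870912 50465866 3 eng mog cd3q2a cd5q3 pd0 false true true .up 2 0 3
    ndB3q2a ndB5q3 pcB0 Cut.none Ext.none :=
  certB0 (fam := false) (s1 := true) (s2 := true) (a := 2) (b := 0) (c := 3) (cn := .up) (n1 := ndB3q2a) (n2 := ndB5q3) (pc := pcB0) (cut := Cut.none) (xt := Ext.none) (P1 := 0) (W1 := 536870912) (P2 := 0) (W2 := 1230186008) (P3 := 536870912) (W3 := 50465866) (N0 := 3) (En := eng) (mo := mog) (C1 := cd3q2a) (C2 := cd5q3) (C3 := pd0)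
    rfl k0_pp_203_a

noncomputable def f_pp_203_b : ℕ → ℕ → ℕ → ℕ → Bool := onCell 1239849684 370763052 0 1230186008 536870912 50465866
    (rowB 3 eng mog cd3q2b cd5q3 pd0 0 false true true .up 2 0 3 (qsf 1239849684 370763052 0 1230186008 0) ndB3q2b ndB5q3 pcB0 Cut.none Ext.none)

def k0_pp_203_b : ∃ t, chk3 f_pp_203_b t 1 1 1 = true :=
  ⟨(b (l 3) (l 3)), by decide +kernel⟩

theorem c_pp_203_b : CertB 1239849684 370763052 0 1230186008 536870912 50465866 3 eng mog cd3q2b cd5q3 pd0 false true true .up 2 0 3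
    ndB3q2b ndB5q3 pcB0 Cut.none Ext.none :=
  certB0 (fam := false) (s1 := true) (s2 := true) (a := 2) (b := 0) (c := 3) (cn := .up) (n1 := ndB3q2b) (n2 := ndB5q3) (pc := pcB0) (cut := Cut.none) (xt := Ext.none) (P1 := 1239849684) (W1 := 370763052) (P2 := 0) (W2 := 1230186008) (P3 := 536870912) (W3 := 50465866) (N0 := 3) (En := eng) (mo := mog) (C1 := cd3q2b) (C2 := cd5q3) (C3 := pd0)
    rfl k0_pp_203_b

noncomputable def cut_pp_213_a : Cut := Cut.of [[⟨0, 1, 0, 67108864⟩, ⟨1, 1, 0, 67108864⟩, ⟨2, 2, 0, 16777216⟩]]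

noncomputable def f_pp_213_a : ℕ → ℕ → ℕ → ℕ → Bool := onCell 0 536870912 0 1230186008 536870912 50465866
    (rowB 3 eng mog cd3q2a cd5q3 pd1 0 false true true .pnn 2 1 3 (qsf 0 536870912 0 1230186008 1) ndB3q2a ndB5q3 pcB1 cut_pp_213_a Ext.none)

def k0_pp_213_a : ∃ t, chk3 f_pp_213_a t 1 1 1 = true :=
  ⟨(b (a (l 3) (b (a (l 3) (b (a (l 3) (l 6)) (l 3))) (l 3))) (l 3)), by decide +kernel⟩

theorem c_pp_213_a : CertB 0 536870912 0 1230186008 536870912 50465866 3 eng mog cd3q2a cd5q3 pd1 false true true .pnn 2 1 3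
    ndB3q2a ndB5q3 pcB1 cut_pp_213_a Ext.none :=
  certB0 (fam := false) (s1 := true) (s2 := true) (a := 2) (b := 1) (c := 3) (cn := .pnn) (n1 := ndB3q2a) (n2 := ndB5q3) (pc := pcB1) (cut := cut_pp_213_a) (xt := Ext.none) (P1 := 0) (W1 := 536870912) (P2 := 0) (W2 := 1230186008) (P3 := 536870912) (W3 := 50465866) (N0 := 3) (En := eng) (mo := mog) (C1 := cd3q2a) (C2 := cd5q3) (C3 := pd1)
    rfl k0_pp_213_a

noncomputable def cut_pp_213_b : Cut := Cut.of [[⟨0, 1, 0, 67108864⟩, ⟨1, 1, 0, 67108864⟩, ⟨2, 2, 0, 16777216⟩]]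

noncomputable def f_pp_213_b : ℕ → ℕ → ℕ → ℕ → Bool := onCell 1239849684 370763052 0 1230186008 536870912 50465866
    (rowB 3 eng mog cd3q2b cd5q3 pd1 0 false true true .pnn 2 1 3 (qsf 1239849684 370763052 0 1230186008 1) ndB3q2b ndB5q3 pcB1 cut_pp_213_b Ext.none)

def k0_pp_213_b : ∃ t, chk3 f_pp_213_b t 1 1 1 = true :=
  ⟨(b (l 3) (l 3)), by decide +kernel⟩

theorem c_pp_213_b : CertB 1239849684 370763052 0 1230186008 536870912 50465866 3 eng mog cd3q2b cd5q3 pd1 false true true .pnn 2 1 3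
    ndB3q2b ndB5q3 pcB1 cut_pp_213_b Ext.none :=
  certB0 (fam := false) (s1 := true) (s2 := true) (a := 2) (b := 1) (c := 3) (cn := .pnn) (n1 := ndB3q2b) (n2 := ndB5q3) (pc := pcB1) (cut := cut_pp_213_b) (xt := Ext.none) (P1 := 1239849684) (W1 := 370763052) (P2 := 0) (W2 := 1230186008) (P3 := 536870912) (W3 := 50465866) (N0 := 3) (En := eng) (mo := mog) (C1 := cd3q2b) (C2 := cd5q3) (C3 := pd1)
    rfl k0_pp_213_b

noncomputable def f_pp_303 : ℕ → ℕ → ℕ → ℕ → Bool := onCell 0 536870912 0 1230186008 536870912 50465866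
    (rowB 3 eng mog cd3q3 cd5q3 pd0 2 false true true .npn 3 0 3 (qsf 1610612736 536870912 0 1230186008 0) ndB3q3 ndB5q3 pcB0 Cut.none Ext.none)

def k0_pp_303 : ∃ t, chk3 f_pp_303 t 1 1 1 = true :=
  ⟨(b (l 3) (l 3)), by decide +kernel⟩

theorem c_pp_303 : CertB 1610612736 536870912 0 1230186008 536870912 50465866 3 eng mog cd3q3 cd5q3 pd0 false true true .npn 3 0 3
    ndB3q3 ndB5q3 pcB0 Cut.none Ext.none :=
  certB2 (fam := false) (s1 := true) (s2 := true) (a := 3) (b := 0) (c := 3) (cn := .npn) (n1 := ndB3q3) (n2 := ndB5q3) (pc := pcB0) (cut := Cut.none) (xt := Ext.none) (P1 := 1610612736) (W1 := 536870912) (P2 := 0) (W2 := 1230186008) (P3 := 536870912) (W3 := 50465866) (N0 := 3) (En := eng) (mo := mog) (C1 := cd3q3) (C2 := cd5q3) (C3 := pd0)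
    rfl (fun _ => rfl) k0_pp_303

noncomputable def f_pp_313 : ℕ → ℕ → ℕ → ℕ → Bool := onCell 1610612736 536870912 0 1230186008 536870912 50465866
    (rowB 3 eng mog cd3q3 cd5q3 pd1 0 false true true .dn 3 1 3 (qsf 1610612736 536870912 0 1230186008 1) ndB3q3 ndB5q3 pcB1 Cut.none Ext.none)

def k0_pp_313 : ∃ t, chk3 f_pp_313 t 1 1 1 = true :=
  ⟨(b (l 3) (l 1)), by decide +kernel⟩

theorem c_pp_313 : CertB 1610612736 536870912 0 1230186008 536870912 50465866 3 eng mog cd3q3 cd5q3 pd1 false true true .dn 3 1 3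
    ndB3q3 ndB5q3 pcB1 Cut.none Ext.none :=
  certB0 (fam := false) (s1 := true) (s2 := true) (a := 3) (b := 1) (c := 3) (cn := .dn) (n1 := ndB3q3) (n2 := ndB5q3) (pc := pcB1) (cut := Cut.none) (xt := Ext.none) (P1 := 1610612736) (W1 := 536870912) (P2 := 0) (W2 := 1230186008) (P3 := 536870912) (W3 := 50465866) (N0 := 3) (En := eng) (mo := mog) (C1 := cd3q3) (C2 := cd5q3) (C3 := pd1)
    rfl k0_pp_313

noncomputable def f_pm_001 : ℕ → ℕ → ℕ → ℕ → Bool := onCell 0 536870912 536870912 536870912 536870912 50465866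
    (rowB 3 eng mog cd3q0 cd5q1 pd0 0 false true false .up 0 0 1 (qsf 0 536870912 536870912 536870912 0) ndB3q0 ndB5q1 pcB0 Cut.none Ext.none)

def k0_pm_001 : ∃ t, chk3 f_pm_001 t 1 1 1 = true :=
  ⟨(l 4), by decide +kernel⟩

theorem c_pm_001 : CertB 0 536870912 536870912 536870912 536870912 50465866 3 eng mog cd3q0 cd5q1 pd0 false true false .up 0 0 1
    ndB3q0 ndB5q1 pcB0 Cut.none Ext.none :=
  certB0 (fam := false) (s1 := true) (s2 := false) (a := 0) (b := 0) (c := 1) (cn := .up) (n1 := ndB3q0) (n2 := ndB5q1) (pc := pcB0) (cut := Cut.none) (xt := Ext.none) (P1 := 0) (W1 := 536870912) (P2 := 536870912) (W2 := 536870912) (P3 := 536870912) (W3 := 50465866) (N0 := 3) (En := eng) (mo := mog) (C1 := cd3q0) (C2 := cd5q1) (C3 := pd0)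
    rfl k0_pm_001

noncomputable def f_pm_011 : ℕ → ℕ → ℕ → ℕ → Bool := onCell 0 536870912 536870912 536870912 536870912 50465866
    (rowB 3 eng mog cd3q0 cd5q1 pd1 0 false true false .pnn 0 1 1 (qsf 0 536870912 536870912 536870912 1) ndB3q0 ndB5q1 pcB1 Cut.none Ext.none)

def k0_pm_011 : ∃ t, chk3 f_pm_011 t 1 1 1 = true :=
  ⟨(l 4), by decide +kernel⟩

theorem c_pm_011 : CertB 0 536870912 536870912 536870912 536870912 50465866 3 eng mog cd3q0 cd5q1 pd1 false true false .pnn 0 1 1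
    ndB3q0 ndB5q1 pcB1 Cut.none Ext.none :=
  certB0 (fam := false) (s1 := true) (s2 := false) (a := 0) (b := 1) (c := 1) (cn := .pnn) (n1 := ndB3q0) (n2 := ndB5q1) (pc := pcB1) (cut := Cut.none) (xt := Ext.none) (P1 := 0) (W1 := 536870912) (P2 := 536870912) (W2 := 536870912) (P3 := 536870912) (W3 := 50465866) (N0 := 3) (En := eng) (mo := mog) (C1 := cd3q0) (C2 := cd5q1) (C3 := pd1)
    rfl k0_pm_011

noncomputable def f_pm_012 : ℕ → ℕ → ℕ → ℕ → Bool := onCell 0 536870912 1073741824 536870912 536870912 50465866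
    (rowB 3 eng mog cd3q0 cd5q2 pd1 0 false true false .pnp 0 1 2 (qsf 0 536870912 1073741824 536870912 1) ndB3q0 ndB5q2 pcB1 Cut.none Ext.none)

def k0_pm_012 : ∃ t, chk3 f_pm_012 t 1 1 1 = true :=
  ⟨(l 4), by decide +kernel⟩

theorem c_pm_012 : CertB 0 536870912 1073741824 536870912 536870912 50465866 3 eng mog cd3q0 cd5q2 pd1 false true false .pnp 0 1 2
    ndB3q0 ndB5q2 pcB1 Cut.none Ext.none :=
  certB0 (fam := false) (s1 := true) (s2 := false) (a := 0) (b := 1) (c := 2) (cn := .pnp) (n1 := ndB3q0) (n2 := ndB5q2) (pc := pcB1) (cut := Cut.none) (xt := Ext.none) (P1 := 0) (W1 := 536870912) (P2 := 1073741824) (W2 := 536870912) (P3 := 536870912) (W3 := 50465866) (N0 := 3) (En := eng) (mo := mog) (C1 := cd3q0) (C2 := cd5q2) (C3 := pd1)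
    rfl k0_pm_012

noncomputable def f_pm_022 : ℕ → ℕ → ℕ → ℕ → Bool := onCell 0 536870912 1073741824 536870912 536870912 50465866
    (rowB 3 eng mog cd3q0 cd5q2 pd2 0 false true false .pp 0 2 2 (qsf 0 536870912 1073741824 536870912 2) ndB3q0 ndB5q2 pcB2 Cut.none Ext.none)

def k0_pm_022 : ∃ t, chk3 f_pm_022 t 1 1 1 = true :=
  ⟨(l 4), by decide +kernel⟩

theorem c_pm_022 : CertB 0 536870912 1073741824 536870912 536870912 50465866 3 eng mog cd3q0 cd5q2 pd2 false true false .pp 0 2 2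
    ndB3q0 ndB5q2 pcB2 Cut.none Ext.none :=
  certB0 (fam := false) (s1 := true) (s2 := false) (a := 0) (b := 2) (c := 2) (cn := .pp) (n1 := ndB3q0) (n2 := ndB5q2) (pc := pcB2) (cut := Cut.none) (xt := Ext.none) (P1 := 0) (W1 := 536870912) (P2 := 1073741824) (W2 := 536870912) (P3 := 536870912) (W3 := 50465866) (N0 := 3) (En := eng) (mo := mog) (C1 := cd3q0) (C2 := cd5q2) (C3 := pd2)
    rfl k0_pm_022

noncomputable def f_pm_023 : ℕ → ℕ → ℕ → ℕ → Bool := onCell 0 536870912 0 1230186008 536870912 50465866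
    (rowB 3 eng mog cd3q0 cd5q3 pd2 0 false true false .up 0 2 3 (qsf 0 536870912 0 1230186008 2) ndB3q0 ndB5q3 pcB2 Cut.none Ext.none)

def k0_pm_023 : ∃ t, chk3 f_pm_023 t 1 1 1 = true :=
  ⟨(b (l 4) (l 4)), by decide +kernel⟩

theorem c_pm_023 : CertB 0 536870912 0 1230186008 536870912 50465866 3 eng mog cd3q0 cd5q3 pd2 false true false .up 0 2 3
    ndB3q0 ndB5q3 pcB2 Cut.none Ext.none :=
  certB0 (fam := false) (s1 := true) (s2 := false) (a := 0) (b := 2) (c := 3) (cn := .up) (n1 := ndB3q0) (n2 := ndB5q3) (pc := pcB2) (cut := Cut.none) (xt := Ext.none) (P1 := 0) (W1 := 536870912) (P2 := 0) (W2 := 1230186008) (P3 := 536870912) (W3 := 50465866) (N0 := 3) (En := eng) (mo := mog) (C1 := cd3q0) (C2 := cd5q3) (C3 := pd2)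
    rfl k0_pm_023

noncomputable def f_pm_033 : ℕ → ℕ → ℕ → ℕ → Bool := onCell 0 536870912 0 1230186008 536870912 50465866
    (rowB 3 eng mog cd3q0 cd5q3 pd3 0 false true false .pnn 0 3 3 (qsf 0 536870912 0 1230186008 3) ndB3q0 ndB5q3 pcB3 Cut.none Ext.none)

def k0_pm_033 : ∃ t, chk3 f_pm_033 t 1 1 1 = true :=
  ⟨(b (l 4) (l 4)), by decide +kernel⟩

theorem c_pm_033 : CertB 0 536870912 0 1230186008 536870912 50465866 3 eng mog cd3q0 cd5q3 pd3 false true false .pnn 0 3 3
    ndB3q0 ndB5q3 pcB3 Cut.none Ext.none :=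
  certB0 (fam := false) (s1 := true) (s2 := false) (a := 0) (b := 3) (c := 3) (cn := .pnn) (n1 := ndB3q0) (n2 := ndB5q3) (pc := pcB3) (cut := Cut.none) (xt := Ext.none) (P1 := 0) (W1 := 536870912) (P2 := 0) (W2 := 1230186008) (P3 := 536870912) (W3 := 50465866) (N0 := 3) (En := eng) (mo := mog) (C1 := cd3q0) (C2 := cd5q3) (C3 := pd3)
    rfl k0_pm_033

noncomputable def f_pm_101 : ℕ → ℕ → ℕ → ℕ → Bool := onCell 536870912 536870912 536870912 536870912 536870912 50465866
    (rowB 3 eng mog cd3q1 cd5q1 pd0 0 false true false .npn 1 0 1 (qsf 536870912 536870912 536870912 536870912 0) ndB3q1 ndB5q1 pcB0 Cut.none Ext.none)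

def k0_pm_101 : ∃ t, chk3 f_pm_101 t 1 1 1 = true :=
  ⟨(l 4), by decide +kernel⟩

theorem c_pm_101 : CertB 536870912 536870912 536870912 536870912 536870912 50465866 3 eng mog cd3q1 cd5q1 pd0 false true false .npn 1 0 1
    ndB3q1 ndB5q1 pcB0 Cut.none Ext.none :=
  certB0 (fam := false) (s1 := true) (s2 := false) (a := 1) (b := 0) (c := 1) (cn := .npn) (n1 := ndB3q1) (n2 := ndB5q1) (pc := pcB0) (cut := Cut.none) (xt := Ext.none) (P1 := 536870912) (W1 := 536870912) (P2 := 536870912) (W2 := 536870912) (P3 := 536870912) (W3 := 50465866) (N0 := 3) (En := eng) (mo := mog) (C1 := cd3q1) (C2 := cd5q1) (C3 := pd0)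
    rfl k0_pm_101

noncomputable def f_pm_102 : ℕ → ℕ → ℕ → ℕ → Bool := onCell 536870912 536870912 1073741824 536870912 536870912 50465866
    (rowB 3 eng mog cd3q1 cd5q2 pd0 0 false true false .npp 1 0 2 (qsf 536870912 536870912 1073741824 536870912 0) ndB3q1 ndB5q2 pcB0 Cut.none Ext.none)

def k0_pm_102 : ∃ t, chk3 f_pm_102 t 1 1 1 = true :=
  ⟨(l 4), by decide +kernel⟩

theorem c_pm_102 : CertB 536870912 536870912 1073741824 536870912 536870912 50465866 3 eng mog cd3q1 cd5q2 pd0 false true false .npp 1 0 2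
    ndB3q1 ndB5q2 pcB0 Cut.none Ext.none :=
  certB0 (fam := false) (s1 := true) (s2 := false) (a := 1) (b := 0) (c := 2) (cn := .npp) (n1 := ndB3q1) (n2 := ndB5q2) (pc := pcB0) (cut := Cut.none) (xt := Ext.none) (P1 := 536870912) (W1 := 536870912) (P2 := 1073741824) (W2 := 536870912) (P3 := 536870912) (W3 := 50465866) (N0 := 3) (En := eng) (mo := mog) (C1 := cd3q1) (C2 := cd5q2) (C3 := pd0)
    rfl k0_pm_102

noncomputable def f_pm_112 : ℕ → ℕ → ℕ → ℕ → Bool := onCell 536870912 536870912 1073741824 536870912 536870912 50465866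
    (rowB 3 eng mog cd3q1 cd5q2 pd1 0 false true false .dn 1 1 2 (qsf 536870912 536870912 1073741824 536870912 1) ndB3q1 ndB5q2 pcB1 Cut.none Ext.none)

def k0_pm_112 : ∃ t, chk3 f_pm_112 t 1 1 1 = true :=
  ⟨(l 4), by decide +kernel⟩

theorem c_pm_112 : CertB 536870912 536870912 1073741824 536870912 536870912 50465866 3 eng mog cd3q1 cd5q2 pd1 false true false .dn 1 1 2
    ndB3q1 ndB5q2 pcB1 Cut.none Ext.none :=
  certB0 (fam := false) (s1 := true) (s2 := false) (a := 1) (b := 1) (c := 2) (cn := .dn) (n1 := ndB3q1) (n2 := ndB5q2) (pc := pcB1) (cut := Cut.none) (xt := Ext.none) (P1 := 536870912) (W1 := 536870912) (P2 := 1073741824) (W2 := 536870912) (P3 := 536870912) (W3 := 50465866) (N0 := 3) (En := eng) (mo := mog) (C1 := cd3q1) (C2 := cd5q2) (C3 := pd1)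
    rfl k0_pm_112

noncomputable def f_pm_113 : ℕ → ℕ → ℕ → ℕ → Bool := onCell 536870912 536870912 0 1230186008 536870912 50465866
    (rowB 3 eng mog cd3q1 cd5q3 pd1 0 false true false .nn 1 1 3 (qsf 536870912 536870912 0 1230186008 1) ndB3q1 ndB5q3 pcB1 Cut.none Ext.none)

def k0_pm_113 : ∃ t, chk3 f_pm_113 t 1 1 1 = true :=
  ⟨(b (a (l 2) (b (a (l 2) (l 16808136)) (l 16960496))) (l 4)), by decide +kernel⟩

theorem c_pm_113 : CertB 536870912 536870912 0 1230186008 536870912 50465866 3 eng mog cd3q1 cd5q3 pd1 false true false .nn 1 1 3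
    ndB3q1 ndB5q3 pcB1 Cut.none Ext.none :=
  certB0 (fam := false) (s1 := true) (s2 := false) (a := 1) (b := 1) (c := 3) (cn := .nn) (n1 := ndB3q1) (n2 := ndB5q3) (pc := pcB1) (cut := Cut.none) (xt := Ext.none) (P1 := 536870912) (W1 := 536870912) (P2 := 0) (W2 := 1230186008) (P3 := 536870912) (W3 := 50465866) (N0 := 3) (En := eng) (mo := mog) (C1 := cd3q1) (C2 := cd5q3) (C3 := pd1)
    rfl k0_pm_113

noncomputable def f_pm_123 : ℕ → ℕ → ℕ → ℕ → Bool := onCell 1073741824 536870912 0 1230186008 536870912 50465866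
    (rowB 3 eng mog cd3q1 cd5q3 pd2 2 false true false .npn 1 2 3 (qsf 536870912 536870912 0 1230186008 2) ndB3q1 ndB5q3 pcB2 Cut.none Ext.none)

def k0_pm_123 : ∃ t, chk3 f_pm_123 t 1 1 1 = true :=
  ⟨(b (a (a (l 16882904) (b (l 16796752) (l 4))) (a (b (l 16817808) (l 4)) (l 4))) (l 4)), by decide +kernel⟩

theorem c_pm_123 : CertB 536870912 536870912 0 1230186008 536870912 50465866 3 eng mog cd3q1 cd5q3 pd2 false true false .npn 1 2 3
    ndB3q1 ndB5q3 pcB2 Cut.none Ext.none :=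
  certB2 (fam := false) (s1 := true) (s2 := false) (a := 1) (b := 2) (c := 3) (cn := .npn) (n1 := ndB3q1) (n2 := ndB5q3) (pc := pcB2) (cut := Cut.none) (xt := Ext.none) (P1 := 536870912) (W1 := 536870912) (P2 := 0) (W2 := 1230186008) (P3 := 536870912) (W3 := 50465866) (N0 := 3) (En := eng) (mo := mog) (C1 := cd3q1) (C2 := cd5q3) (C3 := pd2)
    rfl (fun _ => rfl) k0_pm_123

noncomputable def f_pm_133 : ℕ → ℕ → ℕ → ℕ → Bool := onCell 1610612736 536870912 0 1230186008 536870912 50465866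
    (rowB 3 eng mog cd3q1 cd5q3 pd3 2 false true false .dn 1 3 3 (qsf 536870912 536870912 0 1230186008 3) ndB3q1 ndB5q3 pcB3 Cut.none Ext.none)

def k0_pm_133 : ∃ t, chk3 f_pm_133 t 1 1 1 = true :=
  ⟨(b (b (l 4) (l 1)) (l 1)), by decide +kernel⟩

theorem c_pm_133 : CertB 536870912 536870912 0 1230186008 536870912 50465866 3 eng mog cd3q1 cd5q3 pd3 false true false .dn 1 3 3
    ndB3q1 ndB5q3 pcB3 Cut.none Ext.none :=
  certB2 (fam := false) (s1 := true) (s2 := false) (a := 1) (b := 3) (c := 3) (cn := .dn) (n1 := ndB3q1) (n2 := ndB5q3) (pc := pcB3) (cut := Cut.none) (xt := Ext.none) (P1 := 536870912) (W1 := 536870912) (P2 := 0) (W2 := 1230186008) (P3 := 536870912) (W3 := 50465866) (N0 := 3) (En := eng) (mo := mog) (C1 := cd3q1) (C2 := cd5q3) (C3 := pd3)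
    rfl (fun _ => rfl) k0_pm_133

noncomputable def f_pm_202_a : ℕ → ℕ → ℕ → ℕ → Bool := onCell 0 536870912 0 536870912 536870912 50465866
    (rowB 3 eng mog cd3q2a cd5q2 pd0 1 false true false .pp 2 0 2 (qsf 0 536870912 1073741824 536870912 0) ndB3q2a ndB5q2 pcB0 Cut.none Ext.none)

def k0_pm_202_a : ∃ t, chk3 f_pm_202_a t 1 1 1 = true :=
  ⟨(a (b (b (b (a (b (l 16666384) (l 16682672)) (b (l 16662720) (l 16678784))) (a (l 16707856) (l 16709248))) (b (l 16743392) (l 16759728))) (b (b (b (l 16758840) (l 16762592)) (l 16787024)) (b (l 16808472) (l 2)))) (b (b (a (b (b (a (l 16657152) (l 16650392)) (l 16671256)) (a (l 16708528) (l 16709528))) (b (a (b (b (l 16638000) (l 16647904)) (l 16666104)) (b (a (b (a (l 16633448) (l 16630656)) (l 16643856)) (b (a (b (a (l 16627288) (l 16625800)) (l 16632448)) (a (b (b (l 16623288) (l 16626664)) (l 16633312)) (b (c (l 16704240) (a (l 16546872) (b (l 16545136) (l 16551464)))) (l 16637456)))) (a (l 16645680) (a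 (l 16651400) (l 16646072))))) (a (l 16670008) (a (l 16681296) (l 16671144))))) (a (b (l 16698488) (l 16737392)) (a (l 16739448) (b (l 16704256) (l 16726176)))))) (a (b (b (l 16752360) (l 16780816)) (l 16816632)) (b (a (b (l 16779424) (l 16820064)) (b (a (l 16794440) (l 16748864)) (l 16799776))) (a (l 16877312) (b (l 16833592) (l 16869864)))))) (b (b (a (l 16844720) (a (l 16931176) (l 16804832))) (a (l 16896792) (l 17052744))) (b (a (l 16955152) (b (l 17070600) (l 17079768))) (a (l 2) (b (l 17064552) (l 17104448))))))), by decide +kernel⟩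

theorem c_pm_202_a : CertB 0 536870912 1073741824 536870912 536870912 50465866 3 eng mog cd3q2a cd5q2 pd0 false true false .pp 2 0 2
    ndB3q2a ndB5q2 pcB0 Cut.none Ext.none :=
  certB1 (fam := false) (s1 := true) (s2 := false) (a := 2) (b := 0) (c := 2) (cn := .pp) (n1 := ndB3q2a) (n2 := ndB5q2) (pc := pcB0) (cut := Cut.none) (xt := Ext.none) (P1 := 0) (W1 := 536870912) (P2 := 1073741824) (W2 := 536870912) (P3 := 536870912) (W3 := 50465866) (N0 := 3) (En := eng) (mo := mog) (C1 := cd3q2a) (C2 := cd5q2) (C3 := pd0)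
    rfl (fun _ => rfl) k0_pm_202_a

noncomputable def f_pm_202_b : ℕ → ℕ → ℕ → ℕ → Bool := onCell 0 536870912 1073741824 536870912 536870912 50465866
    (rowB 3 eng mog cd3q2b cd5q2 pd0 2 false true false .pp 2 0 2 (qsf 1239849684 370763052 1073741824 536870912 0) ndB3q2b ndB5q2 pcB0 Cut.none Ext.none)

def k0_pm_202_b : ∃ t, chk3 f_pm_202_b t 1 1 1 = true :=
  ⟨(a (b (a (b (l 1) (b (a (a (l 480533303191) (l 490733881991)) (l 1)) (a (l 16672152) (l 681859944375)))) (l 1)) (a (b (b (a (l 16647496) (l 16695984)) (a (l 16574304) (l 16646928))) (a (l 16256328) (l 16409208))) (a (b (a (l 16717384) (l 575559455527)) (l 16551616)) (b (l 582538961831) (l 328061072711))))) (a (b (l 1) (b (l 1) (a (b (l 16771080) (l 16656248)) (l 504155994647)))) (l 1))), by decide +kernel⟩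

theorem c_pm_202_b : CertB 1239849684 370763052 1073741824 536870912 536870912 50465866 3 eng mog cd3q2b cd5q2 pd0 false true false .pp 2 0 2
    ndB3q2b ndB5q2 pcB0 Cut.none Ext.none :=
  certB2 (fam := false) (s1 := true) (s2 := false) (a := 2) (b := 0) (c := 2) (cn := .pp) (n1 := ndB3q2b) (n2 := ndB5q2) (pc := pcB0) (cut := Cut.none) (xt := Ext.none) (P1 := 1239849684) (W1 := 370763052) (P2 := 1073741824) (W2 := 536870912) (P3 := 536870912) (W3 := 50465866) (N0 := 3) (En := eng) (mo := mog) (C1 := cd3q2b) (C2 := cd5q2) (C3 := pd0)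
    rfl (fun _ => rfl) k0_pm_202_b

noncomputable def f_pm_203_a : ℕ → ℕ → ℕ → ℕ → Bool := onCell 0 536870912 0 1230186008 536870912 50465866
    (rowB 3 eng mog cd3q2a cd5q3 pd0 0 false true false .up 2 0 3 (qsf 0 536870912 0 1230186008 0) ndB3q2a ndB5q3 pcB0 Cut.none Ext.none)

def k0_pm_203_a : ∃ t, chk3 f_pm_203_a t 1 1 1 = true :=
  ⟨(b (l 2) (b (l 2) (a (b (b (l 2) (l 16859592)) (b (b (l 16879680) (l 16854048)) (a (l 16747576) (l 16929552)))) (b (l 2) (b (a (l 17048008) (b (l 2) (l 17157880))) (a (b (l 16986616) (l 16941904)) (a (l 17165232) (l 17101808)))))))), by decide +kernel⟩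

theorem c_pm_203_a : CertB 0 536870912 0 1230186008 536870912 50465866 3 eng mog cd3q2a cd5q3 pd0 false true false .up 2 0 3
    ndB3q2a ndB5q3 pcB0 Cut.none Ext.none :=
  certB0 (fam := false) (s1 := true) (s2 := false) (a := 2) (b := 0) (c := 3) (cn := .up) (n1 := ndB3q2a) (n2 := ndB5q3) (pc := pcB0) (cut := Cut.none) (xt := Ext.none) (P1 := 0) (W1 := 536870912) (P2 := 0) (W2 := 1230186008) (P3 := 536870912) (W3 := 50465866) (N0 := 3) (En := eng) (mo := mog) (C1 := cd3q2a) (C2 := cd5q3) (C3 := pd0)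
    rfl k0_pm_203_a

noncomputable def f_pm_203_b : ℕ → ℕ → ℕ → ℕ → Bool := onCell 0 536870912 0 1230186008 536870912 50465866
    (rowB 3 eng mog cd3q2b cd5q3 pd0 2 false true false .up 2 0 3 (qsf 1239849684 370763052 0 1230186008 0) ndB3q2b ndB5q3 pcB0 Cut.none Ext.none)

def k0_pm_203_b : ∃ t, chk3 f_pm_203_b t 1 1 1 = true :=
  ⟨(b (a (l 2) (l 3)) (b (a (a (l 2) (b (l 2) (a (l 2) (b (l 2) (l 552004348647))))) (a (b (l 3) (a (b (l 3) (l 169282519783)) (b (l 202031707063) (a (l 16737320) (l 16741672))))) (a (b (l 3) (b (l 181093195175) (l 16737024))) (b (l 168208914471) (b (l 16780576) (l 16724344)))))) (a (a (b (l 2) (b (l 527307557383) (l 16340240))) (b (b (a (l 487042876183) (l 16852400)) (b (l 16614016) (l 16599840))) (b (a (l 16514712) (l 16530576)) (l 16425032)))) (a (b (b (a (l 16697608) (l 16703312)) (a (l 16634688) (l 16634568))) (a (b (l 16530952) (l 16417472)) (l 16544888))) (b (b (l 16696808) (l 16698864)) (a (l 16776368) (l 17123496))))))),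 by decide +kernel⟩

theorem c_pm_203_b : CertB 1239849684 370763052 0 1230186008 536870912 50465866 3 eng mog cd3q2b cd5q3 pd0 false true false .up 2 0 3
    ndB3q2b ndB5q3 pcB0 Cut.none Ext.none :=
  certB2 (fam := false) (s1 := true) (s2 := false) (a := 2) (b := 0) (c := 3) (cn := .up) (n1 := ndB3q2b) (n2 := ndB5q3) (pc := pcB0) (cut := Cut.none) (xt := Ext.none) (P1 := 1239849684) (W1 := 370763052) (P2 := 0) (W2 := 1230186008) (P3 := 536870912) (W3 := 50465866) (N0 := 3) (En := eng) (mo := mog) (C1 := cd3q2b) (C2 := cd5q3) (C3 := pd0)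
    rfl (fun _ => rfl) k0_pm_203_b

noncomputable def cut_pm_213_a : Cut := Cut.of [[⟨0, 1, 0, 67108864⟩, ⟨1, 1, 0, 67108864⟩, ⟨2, 2, 0, 16777216⟩]]

noncomputable def f_pm_213_a : ℕ → ℕ → ℕ → ℕ → Bool := onCell 0 536870912 0 1230186008 536870912 50465866
    (rowB 3 eng mog cd3q2a cd5q3 pd1 0 false true false .pnn 2 1 3 (qsf 0 536870912 0 1230186008 1) ndB3q2a ndB5q3 pcB1 cut_pm_213_a Ext.none)

def k0_pm_213_a : ∃ t, chk3 f_pm_213_a t 1 1 1 = true :=
  ⟨(b (a (b (b (l 3) (l 3)) (b (a (b (l 3) (l 16805272)) (b (l 302963379383) (l 16882944))) (a (l 218674726807) (b (l 16791448) (l 16808232))))) (b (a (b (l 3) (b (a (l 3) (l 301352589431)) (a (l 303499909463) (l 16840880)))) (b (a (b (l 3) (b (l 335175218023) (l 151565459607))) (l 6)) (a (b (b (l 16819672) (l 16780864)) (l 16786888)) (b (a (l 16784408) (l 16786792)) (a (l 16793896) (l 16794888)))))) (a (a (b (b (l 16776848) (l 16788960)) (l 16965368)) (b (b (l 16787056) (l 16803296)) (l 16831200)))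 (b (a (b (l 16800424) (l 16814088)) (l 16810840)) (a (l 16833880) (l 16839504)))))) (b (a (b (a (b (l 16814880) (l 16832688)) (l 16845000)) (b (l 16863504) (l 16923536))) (b (a (l 16856592) (a (l 16865440) (l 16874832))) (a (b (l 16873672) (l 16924624)) (b (l 16894840) (l 16905080))))) (a (b (b (l 16900592) (l 16873488)) (b (b (l 16831656) (l 1)) (l 1))) (b (a (l 17059320) (b (a (l 16931760) (l 16925352)) (l 17066464))) (b (a (b (l 17028016) (l 16977016)) (a (l 17143272) (l 17050224))) (a (l 1) (a (l 17154704) (l 17104944)))))))), by decide +kernel⟩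

theorem c_pm_213_a : CertB 0 536870912 0 1230186008 536870912 50465866 3 eng mog cd3q2a cd5q3 pd1 false true false .pnn 2 1 3
    ndB3q2a ndB5q3 pcB1 cut_pm_213_a Ext.none :=
  certB0 (fam := false) (s1 := true) (s2 := false) (a := 2) (b := 1) (c := 3) (cn := .pnn) (n1 := ndB3q2a) (n2 := ndB5q3) (pc := pcB1) (cut := cut_pm_213_a) (xt := Ext.none) (P1 := 0) (W1 := 536870912) (P2 := 0) (W2 := 1230186008) (P3 := 536870912) (W3 := 50465866) (N0 := 3) (En := eng) (mo := mog) (C1 := cd3q2a) (C2 := cd5q3) (C3 := pd1)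
    rfl k0_pm_213_a

noncomputable def cut_pm_213_b : Cut := Cut.of [[⟨0, 1, 0, 67108864⟩, ⟨1, 1, 0, 67108864⟩, ⟨2, 2, 0, 16777216⟩]]

noncomputable def f_pm_213_b : ℕ → ℕ → ℕ → ℕ → Bool := onCell 1239849684 370763052 0 1230186008 536870912 50465866
    (rowB 3 eng mog cd3q2b cd5q3 pd1 0 false true false .pnn 2 1 3 (qsf 1239849684 370763052 0 1230186008 1) ndB3q2b ndB5q3 pcB1 cut_pm_213_b Ext.none)

def k0_pm_213_b : ∃ t, chk3 f_pm_213_b t 1 1 1 = true :=
  ⟨(b (a (b (l 3) (b (l 3) (a (a (a (l 16970432) (l 17005808)) (b (l 3) (l 16799464))) (a (l 232633395927) (l 3))))) (l 3)) (b (a (b (a (b (a (l 16893232) (l 16767304)) (a (l 16796088) (l 16782248))) (b (a (l 16777880) (l 16859360)) (a (l 16762328) (l 16943656)))) (a (b (l 16783496) (l 16778216)) (b (a (l 16744936) (l 16752984)) (l 16727080)))) (a (b (b (l 3) (a (l 151565702695) (l 1))) (l 1)) (l 1))) (a (b (b (a (l 16754624) (l 1)) (l 16926192)) (l 1)) (l 1)))), by decide +kernel⟩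

theorem c_pm_213_b : CertB 1239849684 370763052 0 1230186008 536870912 50465866 3 eng mog cd3q2b cd5q3 pd1 false true false .pnn 2 1 3
    ndB3q2b ndB5q3 pcB1 cut_pm_213_b Ext.none :=
  certB0 (fam := false) (s1 := true) (s2 := false) (a := 2) (b := 1) (c := 3) (cn := .pnn) (n1 := ndB3q2b) (n2 := ndB5q3) (pc := pcB1) (cut := cut_pm_213_b) (xt := Ext.none) (P1 := 1239849684) (W1 := 370763052) (P2 := 0) (W2 := 1230186008) (P3 := 536870912) (W3 := 50465866) (N0 := 3) (En := eng) (mo := mog) (C1 := cd3q2b) (C2 := cd5q3) (C3 := pd1)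
    rfl k0_pm_213_b

noncomputable def f_pm_303 : ℕ → ℕ → ℕ → ℕ → Bool := onCell 0 536870912 0 1230186008 536870912 50465866
    (rowB 3 eng mog cd3q3 cd5q3 pd0 2 false true false .npn 3 0 3 (qsf 1610612736 536870912 0 1230186008 0) ndB3q3 ndB5q3 pcB0 Cut.none Ext.none)

def k0_pm_303 : ∃ t, chk3 f_pm_303 t 1 1 1 = true :=
  ⟨(b (a (l 3) (l 3)) (b (a (a (l 3) (b (l 3) (a (l 168745178711) (b (l 3) (l 164450697191))))) (a (b (l 3) (a (b (l 3) (l 170893161447)) (b (l 207400439207) (l 1)))) (a (b (l 3) (l 1)) (l 1)))) (a (a (b (b (a (l 159618772743) (l 138143937415)) (a (b (b (l 121500919111) (l 16635064)) (l 16601296)) (b (l 16732544) (l 16606024)))) (b (l 16521456) (l 16383936))) (b (b (a (l 144049523591) (l 16787808)) (b (l 16635808) (l 16619968))) (a (l 16476616) (l 1)))) (l 1)))), by decide +kernel⟩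

theorem c_pm_303 : CertB 1610612736 536870912 0 1230186008 536870912 50465866 3 eng mog cd3q3 cd5q3 pd0 false true false .npn 3 0 3
    ndB3q3 ndB5q3 pcB0 Cut.none Ext.none :=
  certB2 (fam := false) (s1 := true) (s2 := false) (a := 3) (b := 0) (c := 3) (cn := .npn) (n1 := ndB3q3) (n2 := ndB5q3) (pc := pcB0) (cut := Cut.none) (xt := Ext.none) (P1 := 1610612736) (W1 := 536870912) (P2 := 0) (W2 := 1230186008) (P3 := 536870912) (W3 := 50465866) (N0 := 3) (En := eng) (mo := mog) (C1 := cd3q3) (C2 := cd5q3) (C3 := pd0)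
    rfl (fun _ => rfl) k0_pm_303

noncomputable def f_pm_313 : ℕ → ℕ → ℕ → ℕ → Bool := onCell 1610612736 536870912 0 1230186008 536870912 50465866
    (rowB 3 eng mog cd3q3 cd5q3 pd1 0 false true false .dn 3 1 3 (qsf 1610612736 536870912 0 1230186008 1) ndB3q3 ndB5q3 pcB1 Cut.none Ext.none)

def k0_pm_313 : ∃ t, chk3 f_pm_313 t 1 1 1 = true :=
  ⟨(b (l 3) (l 1)), by decide +kernel⟩

theorem c_pm_313 : CertB 1610612736 536870912 0 1230186008 536870912 50465866 3 eng mog cd3q3 cd5q3 pd1 false true false .dn 3 1 3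
    ndB3q3 ndB5q3 pcB1 Cut.none Ext.none :=
  certB0 (fam := false) (s1 := true) (s2 := false) (a := 3) (b := 1) (c := 3) (cn := .dn) (n1 := ndB3q3) (n2 := ndB5q3) (pc := pcB1) (cut := Cut.none) (xt := Ext.none) (P1 := 1610612736) (W1 := 536870912) (P2 := 0) (W2 := 1230186008) (P3 := 536870912) (W3 := 50465866) (N0 := 3) (En := eng) (mo := mog) (C1 := cd3q3) (C2 := cd5q3) (C3 := pd1)
    rfl k0_pm_313

noncomputable def f_mm_001 : ℕ → ℕ → ℕ → ℕ → Bool := onCell 0 536870912 0 536870912 536870912 50465866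
    (rowB 3 eng mog cd3q0 cd5q1 pd0 1 false false false .up 0 0 1 (qsf 0 536870912 536870912 536870912 0) ndB3q0 ndB5q1 pcB0 Cut.none Ext.none)

def k0_mm_001 : ∃ t, chk3 f_mm_001 t 1 1 1 = true :=
  ⟨(l 3), by decide +kernel⟩

theorem c_mm_001 : CertB 0 536870912 536870912 536870912 536870912 50465866 3 eng mog cd3q0 cd5q1 pd0 false false false .up 0 0 1
    ndB3q0 ndB5q1 pcB0 Cut.none Ext.none :=
  certB1 (fam := false) (s1 := false) (s2 := false) (a := 0) (b := 0) (c := 1) (cn := .up) (n1 := ndB3q0) (n2 := ndB5q1) (pc := pcB0) (cut := Cut.none) (xt := Ext.none) (P1 := 0) (W1 := 536870912) (P2 := 536870912) (W2 := 536870912) (P3 := 536870912) (W3 := 50465866) (N0 := 3) (En := eng) (mo := mog) (C1 := cd3q0) (C2 := cd5q1) (C3 := pd0)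
    rfl (fun _ => rfl) k0_mm_001

noncomputable def f_mm_011 : ℕ → ℕ → ℕ → ℕ → Bool := onCell 0 536870912 536870912 536870912 536870912 50465866
    (rowB 3 eng mog cd3q0 cd5q1 pd1 1 false false false .pnn 0 1 1 (qsf 0 536870912 536870912 536870912 1) ndB3q0 ndB5q1 pcB1 Cut.none Ext.none)

def k0_mm_011 : ∃ t, chk3 f_mm_011 t 1 1 1 = true :=
  ⟨(l 5), by decide +kernel⟩

theorem c_mm_011 : CertB 0 536870912 536870912 536870912 536870912 50465866 3 eng mog cd3q0 cd5q1 pd1 false false false .pnn 0 1 1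
    ndB3q0 ndB5q1 pcB1 Cut.none Ext.none :=
  certB1 (fam := false) (s1 := false) (s2 := false) (a := 0) (b := 1) (c := 1) (cn := .pnn) (n1 := ndB3q0) (n2 := ndB5q1) (pc := pcB1) (cut := Cut.none) (xt := Ext.none) (P1 := 0) (W1 := 536870912) (P2 := 536870912) (W2 := 536870912) (P3 := 536870912) (W3 := 50465866) (N0 := 3) (En := eng) (mo := mog) (C1 := cd3q0) (C2 := cd5q1) (C3 := pd1)
    rfl (fun _ => rfl) k0_mm_011

noncomputable def f_mm_012 : ℕ → ℕ → ℕ → ℕ → Bool := onCell 0 536870912 1073741824 536870912 536870912 50465866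
    (rowB 3 eng mog cd3q0 cd5q2 pd1 0 false false false .pnp 0 1 2 (qsf 0 536870912 1073741824 536870912 1) ndB3q0 ndB5q2 pcB1 Cut.none Ext.none)

def k0_mm_012 : ∃ t, chk3 f_mm_012 t 1 1 1 = true :=
  ⟨(l 5), by decide +kernel⟩

theorem c_mm_012 : CertB 0 536870912 1073741824 536870912 536870912 50465866 3 eng mog cd3q0 cd5q2 pd1 false false false .pnp 0 1 2
    ndB3q0 ndB5q2 pcB1 Cut.none Ext.none :=
  certB0 (fam := false) (s1 := false) (s2 := false) (a := 0) (b := 1) (c := 2) (cn := .pnp) (n1 := ndB3q0) (n2 := ndB5q2) (pc := pcB1) (cut := Cut.none) (xt := Ext.none) (P1 := 0) (W1 := 536870912) (P2 := 1073741824) (W2 := 536870912) (P3 := 536870912) (W3 := 50465866) (N0 := 3) (En := eng) (mo := mog) (C1 := cd3q0) (C2 := cd5q2) (C3 := pd1)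
    rfl k0_mm_012

noncomputable def f_mm_022 : ℕ → ℕ → ℕ → ℕ → Bool := onCell 0 536870912 1073741824 536870912 536870912 50465866
    (rowB 3 eng mog cd3q0 cd5q2 pd2 0 false false false .pp 0 2 2 (qsf 0 536870912 1073741824 536870912 2) ndB3q0 ndB5q2 pcB2 Cut.none Ext.none)

def k0_mm_022 : ∃ t, chk3 f_mm_022 t 1 1 1 = true :=
  ⟨(l 5), by decide +kernel⟩

theorem c_mm_022 : CertB 0 536870912 1073741824 536870912 536870912 50465866 3 eng mog cd3q0 cd5q2 pd2 false false false .pp 0 2 2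
    ndB3q0 ndB5q2 pcB2 Cut.none Ext.none :=
  certB0 (fam := false) (s1 := false) (s2 := false) (a := 0) (b := 2) (c := 2) (cn := .pp) (n1 := ndB3q0) (n2 := ndB5q2) (pc := pcB2) (cut := Cut.none) (xt := Ext.none) (P1 := 0) (W1 := 536870912) (P2 := 1073741824) (W2 := 536870912) (P3 := 536870912) (W3 := 50465866) (N0 := 3) (En := eng) (mo := mog) (C1 := cd3q0) (C2 := cd5q2) (C3 := pd2)
    rfl k0_mm_022

noncomputable def f_mm_023 : ℕ → ℕ → ℕ → ℕ → Bool := onCell 0 536870912 0 1230186008 536870912 50465866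
    (rowB 3 eng mog cd3q0 cd5q3 pd2 0 false false false .up 0 2 3 (qsf 0 536870912 0 1230186008 2) ndB3q0 ndB5q3 pcB2 Cut.none Ext.none)

def k0_mm_023 : ∃ t, chk3 f_mm_023 t 1 1 1 = true :=
  ⟨(l 5), by decide +kernel⟩

theorem c_mm_023 : CertB 0 536870912 0 1230186008 536870912 50465866 3 eng mog cd3q0 cd5q3 pd2 false false false .up 0 2 3
    ndB3q0 ndB5q3 pcB2 Cut.none Ext.none :=
  certB0 (fam := false) (s1 := false) (s2 := false) (a := 0) (b := 2) (c := 3) (cn := .up) (n1 := ndB3q0) (n2 := ndB5q3) (pc := pcB2) (cut := Cut.none) (xt := Ext.none) (P1 := 0) (W1 := 536870912) (P2 := 0) (W2 := 1230186008) (P3 := 536870912) (W3 := 50465866) (N0 := 3) (En := eng) (mo := mog) (C1 := cd3q0) (C2 := cd5q3) (C3 := pd2)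
    rfl k0_mm_023

noncomputable def f_mm_033 : ℕ → ℕ → ℕ → ℕ → Bool := onCell 0 536870912 0 1230186008 536870912 50465866
    (rowB 3 eng mog cd3q0 cd5q3 pd3 0 false false false .pnn 0 3 3 (qsf 0 536870912 0 1230186008 3) ndB3q0 ndB5q3 pcB3 Cut.none Ext.none)

def k0_mm_033 : ∃ t, chk3 f_mm_033 t 1 1 1 = true :=
  ⟨(l 5), by decide +kernel⟩

theorem c_mm_033 : CertB 0 536870912 0 1230186008 536870912 50465866 3 eng mog cd3q0 cd5q3 pd3 false false false .pnn 0 3 3
    ndB3q0 ndB5q3 pcB3 Cut.none Ext.none :=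
  certB0 (fam := false) (s1 := false) (s2 := false) (a := 0) (b := 3) (c := 3) (cn := .pnn) (n1 := ndB3q0) (n2 := ndB5q3) (pc := pcB3) (cut := Cut.none) (xt := Ext.none) (P1 := 0) (W1 := 536870912) (P2 := 0) (W2 := 1230186008) (P3 := 536870912) (W3 := 50465866) (N0 := 3) (En := eng) (mo := mog) (C1 := cd3q0) (C2 := cd5q3) (C3 := pd3)
    rfl k0_mm_033

noncomputable def f_mm_101 : ℕ → ℕ → ℕ → ℕ → Bool := onCell 536870912 536870912 536870912 536870912 536870912 50465866
    (rowB 3 eng mog cd3q1 cd5q1 pd0 0 false false false .npn 1 0 1 (qsf 536870912 536870912 536870912 536870912 0) ndB3q1 ndB5q1 pcB0 Cut.none Ext.none)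

def k0_mm_101 : ∃ t, chk3 f_mm_101 t 1 1 1 = true :=
  ⟨(l 3), by decide +kernel⟩

theorem c_mm_101 : CertB 536870912 536870912 536870912 536870912 536870912 50465866 3 eng mog cd3q1 cd5q1 pd0 false false false .npn 1 0 1
    ndB3q1 ndB5q1 pcB0 Cut.none Ext.none :=
  certB0 (fam := false) (s1 := false) (s2 := false) (a := 1) (b := 0) (c := 1) (cn := .npn) (n1 := ndB3q1) (n2 := ndB5q1) (pc := pcB0) (cut := Cut.none) (xt := Ext.none) (P1 := 536870912) (W1 := 536870912) (P2 := 536870912) (W2 := 536870912) (P3 := 536870912) (W3 := 50465866) (N0 := 3) (En := eng) (mo := mog) (C1 := cd3q1) (C2 := cd5q1) (C3 := pd0)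
    rfl k0_mm_101

noncomputable def f_mm_102 : ℕ → ℕ → ℕ → ℕ → Bool := onCell 536870912 536870912 1073741824 536870912 536870912 50465866
    (rowB 3 eng mog cd3q1 cd5q2 pd0 0 false false false .npp 1 0 2 (qsf 536870912 536870912 1073741824 536870912 0) ndB3q1 ndB5q2 pcB0 Cut.none Ext.none)

def k0_mm_102 : ∃ t, chk3 f_mm_102 t 1 1 1 = true :=
  ⟨(l 3), by decide +kernel⟩

theorem c_mm_102 : CertB 536870912 536870912 1073741824 536870912 536870912 50465866 3 eng mog cd3q1 cd5q2 pd0 false false false .npp 1 0 2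
    ndB3q1 ndB5q2 pcB0 Cut.none Ext.none :=
  certB0 (fam := false) (s1 := false) (s2 := false) (a := 1) (b := 0) (c := 2) (cn := .npp) (n1 := ndB3q1) (n2 := ndB5q2) (pc := pcB0) (cut := Cut.none) (xt := Ext.none) (P1 := 536870912) (W1 := 536870912) (P2 := 1073741824) (W2 := 536870912) (P3 := 536870912) (W3 := 50465866) (N0 := 3) (En := eng) (mo := mog) (C1 := cd3q1) (C2 := cd5q2) (C3 := pd0)
    rfl k0_mm_102

noncomputable def f_mm_112 : ℕ → ℕ → ℕ → ℕ → Bool := onCell 536870912 536870912 1073741824 536870912 536870912 50465866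
    (rowB 3 eng mog cd3q1 cd5q2 pd1 0 false false false .dn 1 1 2 (qsf 536870912 536870912 1073741824 536870912 1) ndB3q1 ndB5q2 pcB1 Cut.none Ext.none)

def k0_mm_112 : ∃ t, chk3 f_mm_112 t 1 1 1 = true :=
  ⟨(l 3), by decide +kernel⟩

theorem c_mm_112 : CertB 536870912 536870912 1073741824 536870912 536870912 50465866 3 eng mog cd3q1 cd5q2 pd1 false false false .dn 1 1 2
    ndB3q1 ndB5q2 pcB1 Cut.none Ext.none :=
  certB0 (fam := false) (s1 := false) (s2 := false) (a := 1) (b := 1) (c := 2) (cn := .dn) (n1 := ndB3q1) (n2 := ndB5q2) (pc := pcB1) (cut := Cut.none) (xt := Ext.none) (P1 := 536870912) (W1 := 536870912) (P2 := 1073741824) (W2 := 536870912) (P3 := 536870912) (W3 := 50465866) (N0 := 3) (En := eng) (mo := mog) (C1 := cd3q1) (C2 := cd5q2) (C3 := pd1)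
    rfl k0_mm_112

noncomputable def f_mm_113 : ℕ → ℕ → ℕ → ℕ → Bool := onCell 536870912 536870912 0 1230186008 536870912 50465866
    (rowB 3 eng mog cd3q1 cd5q3 pd1 0 false false false .nn 1 1 3 (qsf 536870912 536870912 0 1230186008 1) ndB3q1 ndB5q3 pcB1 Cut.none Ext.none)

def k0_mm_113 : ∃ t, chk3 f_mm_113 t 1 1 1 = true :=
  ⟨(l 5), by decide +kernel⟩

theorem c_mm_113 : CertB 536870912 536870912 0 1230186008 536870912 50465866 3 eng mog cd3q1 cd5q3 pd1 false false false .nn 1 1 3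
    ndB3q1 ndB5q3 pcB1 Cut.none Ext.none :=
  certB0 (fam := false) (s1 := false) (s2 := false) (a := 1) (b := 1) (c := 3) (cn := .nn) (n1 := ndB3q1) (n2 := ndB5q3) (pc := pcB1) (cut := Cut.none) (xt := Ext.none) (P1 := 536870912) (W1 := 536870912) (P2 := 0) (W2 := 1230186008) (P3 := 536870912) (W3 := 50465866) (N0 := 3) (En := eng) (mo := mog) (C1 := cd3q1) (C2 := cd5q3) (C3 := pd1)
    rfl k0_mm_113

noncomputable def f_mm_123 : ℕ → ℕ → ℕ → ℕ → Bool := onCell 536870912 536870912 0 1230186008 536870912 50465866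
    (rowB 3 eng mog cd3q1 cd5q3 pd2 0 false false false .npn 1 2 3 (qsf 536870912 536870912 0 1230186008 2) ndB3q1 ndB5q3 pcB2 Cut.none Ext.none)

def k0_mm_123 : ∃ t, chk3 f_mm_123 t 1 1 1 = true :=
  ⟨(l 5), by decide +kernel⟩

theorem c_mm_123 : CertB 536870912 536870912 0 1230186008 536870912 50465866 3 eng mog cd3q1 cd5q3 pd2 false false false .npn 1 2 3
    ndB3q1 ndB5q3 pcB2 Cut.none Ext.none :=
  certB0 (fam := false) (s1 := false) (s2 := false) (a := 1) (b := 2) (c := 3) (cn := .npn) (n1 := ndB3q1) (n2 := ndB5q3) (pc := pcB2) (cut := Cut.none) (xt := Ext.none) (P1 := 536870912) (W1 := 536870912) (P2 := 0) (W2 := 1230186008) (P3 := 536870912) (W3 := 50465866) (N0 := 3) (En := eng) (mo := mog) (C1 := cd3q1) (C2 := cd5q3) (C3 := pd2)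
    rfl k0_mm_123

noncomputable def f_mm_133 : ℕ → ℕ → ℕ → ℕ → Bool := onCell 536870912 536870912 0 1230186008 536870912 50465866
    (rowB 3 eng mog cd3q1 cd5q3 pd3 0 false false false .dn 1 3 3 (qsf 536870912 536870912 0 1230186008 3) ndB3q1 ndB5q3 pcB3 Cut.none Ext.none)

def k0_mm_133 : ∃ t, chk3 f_mm_133 t 1 1 1 = true :=
  ⟨(l 5), by decide +kernel⟩

theorem c_mm_133 : CertB 536870912 536870912 0 1230186008 536870912 50465866 3 eng mog cd3q1 cd5q3 pd3 false false false .dn 1 3 3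
    ndB3q1 ndB5q3 pcB3 Cut.none Ext.none :=
  certB0 (fam := false) (s1 := false) (s2 := false) (a := 1) (b := 3) (c := 3) (cn := .dn) (n1 := ndB3q1) (n2 := ndB5q3) (pc := pcB3) (cut := Cut.none) (xt := Ext.none) (P1 := 536870912) (W1 := 536870912) (P2 := 0) (W2 := 1230186008) (P3 := 536870912) (W3 := 50465866) (N0 := 3) (En := eng) (mo := mog) (C1 := cd3q1) (C2 := cd5q3) (C3 := pd3)
    rfl k0_mm_133

noncomputable def f_mm_202_a : ℕ → ℕ → ℕ → ℕ → Bool := onCell 0 536870912 1073741824 536870912 536870912 50465866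
    (rowB 3 eng mog cd3q2a cd5q2 pd0 0 false false false .pp 2 0 2 (qsf 0 536870912 1073741824 536870912 0) ndB3q2a ndB5q2 pcB0 Cut.none Ext.none)

def k0_mm_202_a : ∃ t, chk3 f_mm_202_a t 1 1 1 = true :=
  ⟨(l 3), by decide +kernel⟩

theorem c_mm_202_a : CertB 0 536870912 1073741824 536870912 536870912 50465866 3 eng mog cd3q2a cd5q2 pd0 false false false .pp 2 0 2
    ndB3q2a ndB5q2 pcB0 Cut.none Ext.none :=
  certB0 (fam := false) (s1 := false) (s2 := false) (a := 2) (b := 0) (c := 2) (cn := .pp) (n1 := ndB3q2a) (n2 := ndB5q2) (pc := pcB0) (cut := Cut.none) (xt := Ext.none) (P1 := 0) (W1 := 536870912) (P2 := 1073741824) (W2 := 536870912) (P3 := 536870912) (W3 := 50465866) (N0 := 3) (En := eng) (mo := mog) (C1 := cd3q2a) (C2 := cd5q2) (C3 := pd0)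
    rfl k0_mm_202_a

noncomputable def f_mm_202_b : ℕ → ℕ → ℕ → ℕ → Bool := onCell 1239849684 370763052 1073741824 536870912 536870912 50465866
    (rowB 3 eng mog cd3q2b cd5q2 pd0 0 false false false .pp 2 0 2 (qsf 1239849684 370763052 1073741824 536870912 0) ndB3q2b ndB5q2 pcB0 Cut.none Ext.none)

def k0_mm_202_b : ∃ t, chk3 f_mm_202_b t 1 1 1 = true :=
  ⟨(b (l 3) (l 3)), by decide +kernel⟩

theorem c_mm_202_b : CertB 1239849684 370763052 1073741824 536870912 536870912 50465866 3 eng mog cd3q2b cd5q2 pd0 false false false .pp 2 0 2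
    ndB3q2b ndB5q2 pcB0 Cut.none Ext.none :=
  certB0 (fam := false) (s1 := false) (s2 := false) (a := 2) (b := 0) (c := 2) (cn := .pp) (n1 := ndB3q2b) (n2 := ndB5q2) (pc := pcB0) (cut := Cut.none) (xt := Ext.none) (P1 := 1239849684) (W1 := 370763052) (P2 := 1073741824) (W2 := 536870912) (P3 := 536870912) (W3 := 50465866) (N0 := 3) (En := eng) (mo := mog) (C1 := cd3q2b) (C2 := cd5q2) (C3 := pd0)
    rfl k0_mm_202_b

noncomputable def f_mm_203_a : ℕ → ℕ → ℕ → ℕ → Bool := onCell 0 536870912 0 1230186008 536870912 50465866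
    (rowB 3 eng mog cd3q2a cd5q3 pd0 0 false false false .up 2 0 3 (qsf 0 536870912 0 1230186008 0) ndB3q2a ndB5q3 pcB0 Cut.none Ext.none)

def k0_mm_203_a : ∃ t, chk3 f_mm_203_a t 1 1 1 = true :=
  ⟨(b (l 2) (l 3)), by decide +kernel⟩

theorem c_mm_203_a : CertB 0 536870912 0 1230186008 536870912 50465866 3 eng mog cd3q2a cd5q3 pd0 false false false .up 2 0 3
    ndB3q2a ndB5q3 pcB0 Cut.none Ext.none :=
  certB0 (fam := false) (s1 := false) (s2 := false) (a := 2) (b := 0) (c := 3) (cn := .up) (n1 := ndB3q2a) (n2 := ndB5q3) (pc := pcB0) (cut := Cut.none) (xt := Ext.none) (P1 := 0) (W1 := 536870912) (P2 := 0) (W2 := 1230186008) (P3 := 536870912) (W3 := 50465866) (N0 := 3) (En := eng) (mo := mog) (C1 := cd3q2a) (C2 := cd5q3) (C3 := pd0)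
    rfl k0_mm_203_a

noncomputable def f_mm_203_b : ℕ → ℕ → ℕ → ℕ → Bool := onCell 1239849684 370763052 0 1230186008 536870912 50465866
    (rowB 3 eng mog cd3q2b cd5q3 pd0 0 false false false .up 2 0 3 (qsf 1239849684 370763052 0 1230186008 0) ndB3q2b ndB5q3 pcB0 Cut.none Ext.none)

def k0_mm_203_b : ∃ t, chk3 f_mm_203_b t 1 1 1 = true :=
  ⟨(b (l 3) (l 3)), by decide +kernel⟩

theorem c_mm_203_b : CertB 1239849684 370763052 0 1230186008 536870912 50465866 3 eng mog cd3q2b cd5q3 pd0 false false false .up 2 0 3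
    ndB3q2b ndB5q3 pcB0 Cut.none Ext.none :=
  certB0 (fam := false) (s1 := false) (s2 := false) (a := 2) (b := 0) (c := 3) (cn := .up) (n1 := ndB3q2b) (n2 := ndB5q3) (pc := pcB0) (cut := Cut.none) (xt := Ext.none) (P1 := 1239849684) (W1 := 370763052) (P2 := 0) (W2 := 1230186008) (P3 := 536870912) (W3 := 50465866) (N0 := 3) (En := eng) (mo := mog) (C1 := cd3q2b) (C2 := cd5q3) (C3 := pd0)
    rfl k0_mm_203_b

noncomputable def f_mm_213_a : ℕ → ℕ → ℕ → ℕ → Bool := onCell 0 536870912 0 1230186008 536870912 50465866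
    (rowB 3 eng mog cd3q2a cd5q3 pd1 0 false false false .pnn 2 1 3 (qsf 0 536870912 0 1230186008 1) ndB3q2a ndB5q3 pcB1 Cut.none Ext.none)

def k0_mm_213_a : ∃ t, chk3 f_mm_213_a t 1 1 1 = true :=
  ⟨(b (l 5) (l 3)), by decide +kernel⟩

theorem c_mm_213_a : CertB 0 536870912 0 1230186008 536870912 50465866 3 eng mog cd3q2a cd5q3 pd1 false false false .pnn 2 1 3
    ndB3q2a ndB5q3 pcB1 Cut.none Ext.none :=
  certB0 (fam := false) (s1 := false) (s2 := false) (a := 2) (b := 1) (c := 3) (cn := .pnn) (n1 := ndB3q2a) (n2 := ndB5q3) (pc := pcB1) (cut := Cut.none) (xt := Ext.none) (P1 := 0) (W1 := 536870912) (P2 := 0) (W2 := 1230186008) (P3 := 536870912) (W3 := 50465866) (N0 := 3) (En := eng) (mo := mog) (C1 := cd3q2a) (C2 := cd5q3) (C3 := pd1)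
    rfl k0_mm_213_a

noncomputable def f_mm_213_b : ℕ → ℕ → ℕ → ℕ → Bool := onCell 1239849684 370763052 0 1230186008 536870912 50465866
    (rowB 3 eng mog cd3q2b cd5q3 pd1 0 false false false .pnn 2 1 3 (qsf 1239849684 370763052 0 1230186008 1) ndB3q2b ndB5q3 pcB1 Cut.none Ext.none)

def k0_mm_213_b : ∃ t, chk3 f_mm_213_b t 1 1 1 = true :=
  ⟨(b (l 3) (l 3)), by decide +kernel⟩

theorem c_mm_213_b : CertB 1239849684 370763052 0 1230186008 536870912 50465866 3 eng mog cd3q2b cd5q3 pd1 false false false .pnn 2 1 3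
    ndB3q2b ndB5q3 pcB1 Cut.none Ext.none :=
  certB0 (fam := false) (s1 := false) (s2 := false) (a := 2) (b := 1) (c := 3) (cn := .pnn) (n1 := ndB3q2b) (n2 := ndB5q3) (pc := pcB1) (cut := Cut.none) (xt := Ext.none) (P1 := 1239849684) (W1 := 370763052) (P2 := 0) (W2 := 1230186008) (P3 := 536870912) (W3 := 50465866) (N0 := 3) (En := eng) (mo := mog) (C1 := cd3q2b) (C2 := cd5q3) (C3 := pd1)
    rfl k0_mm_213_b

noncomputable def f_mm_303 : ℕ → ℕ → ℕ → ℕ → Bool := onCell 0 536870912 0 1230186008 536870912 50465866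
    (rowB 3 eng mog cd3q3 cd5q3 pd0 2 false false false .npn 3 0 3 (qsf 1610612736 536870912 0 1230186008 0) ndB3q3 ndB5q3 pcB0 Cut.none Ext.none)

def k0_mm_303 : ∃ t, chk3 f_mm_303 t 1 1 1 = true :=
  ⟨(b (l 3) (l 3)), by decide +kernel⟩

theorem c_mm_303 : CertB 1610612736 536870912 0 1230186008 536870912 50465866 3 eng mog cd3q3 cd5q3 pd0 false false false .npn 3 0 3
    ndB3q3 ndB5q3 pcB0 Cut.none Ext.none :=
  certB2 (fam := false) (s1 := false) (s2 := false) (a := 3) (b := 0) (c := 3) (cn := .npn) (n1 := ndB3q3) (n2 := ndB5q3) (pc := pcB0) (cut := Cut.none) (xt := Ext.none) (P1 := 1610612736) (W1 := 536870912) (P2 := 0) (W2 := 1230186008) (P3 := 536870912) (W3 := 50465866) (N0 := 3) (En := eng) (mo := mog) (C1 := cd3q3) (C2 := cd5q3) (C3 := pd0)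
    rfl (fun _ => rfl) k0_mm_303

noncomputable def f_mm_313 : ℕ → ℕ → ℕ → ℕ → Bool := onCell 1610612736 536870912 0 1230186008 536870912 50465866
    (rowB 3 eng mog cd3q3 cd5q3 pd1 0 false false false .dn 3 1 3 (qsf 1610612736 536870912 0 1230186008 1) ndB3q3 ndB5q3 pcB1 Cut.none Ext.none)

def k0_mm_313 : ∃ t, chk3 f_mm_313 t 1 1 1 = true :=
  ⟨(b (l 3) (l 1)), by decide +kernel⟩

theorem c_mm_313 : CertB 1610612736 536870912 0 1230186008 536870912 50465866 3 eng mog cd3q3 cd5q3 pd1 false false false .dn 3 1 3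
    ndB3q3 ndB5q3 pcB1 Cut.none Ext.none :=
  certB0 (fam := false) (s1 := false) (s2 := false) (a := 3) (b := 1) (c := 3) (cn := .dn) (n1 := ndB3q3) (n2 := ndB5q3) (pc := pcB1) (cut := Cut.none) (xt := Ext.none) (P1 := 1610612736) (W1 := 536870912) (P2 := 0) (W2 := 1230186008) (P3 := 536870912) (W3 := 50465866) (N0 := 3) (En := eng) (mo := mog) (C1 := cd3q3) (C2 := cd5q3) (C3 := pd1)
    rfl k0_mm_313

end Pool.Agent.Strip051.G.I5000_5470.Tab.C.BB35

namespace Pool.Agent.Strip051.G.I5000_5470.Tab.C.BB36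

open Pool.Agent.Strip051.PB Pool.Agent.Strip051.PB.T
open Pool.Agent.Strip051.G.I5000_5470.Tab

noncomputable def f_pp_001 : ℕ → ℕ → ℕ → ℕ → Bool := onCell 0 536870912 0 536870912 536870912 50465866
    (rowB 3 eng mog cd3q0 cd6q1 pd0 1 false true true .up 0 0 1 (qsf 0 536870912 536870912 536870912 0) ndB3q0 ndB6q1 pcB0 Cut.none Ext.none)

def k0_pp_001 : ∃ t, chk3 f_pp_001 t 1 1 1 = true :=
  ⟨(l 3), by decide +kernel⟩

theorem c_pp_001 : CertB 0 536870912 536870912 536870912 536870912 50465866 3 eng mog cd3q0 cd6q1 pd0 false true true .up 0 0 1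
    ndB3q0 ndB6q1 pcB0 Cut.none Ext.none :=
  certB1 (fam := false) (s1 := true) (s2 := true) (a := 0) (b := 0) (c := 1) (cn := .up) (n1 := ndB3q0) (n2 := ndB6q1) (pc := pcB0) (cut := Cut.none) (xt := Ext.none) (P1 := 0) (W1 := 536870912) (P2 := 536870912) (W2 := 536870912) (P3 := 536870912) (W3 := 50465866) (N0 := 3) (En := eng) (mo := mog) (C1 := cd3q0) (C2 := cd6q1) (C3 := pd0)
    rfl (fun _ => rfl) k0_pp_001

noncomputable def cut_pp_011 : Cut := Cut.of [[⟨0, 0, 0, 67108864⟩, ⟨1, 1, 0, 67108864⟩, ⟨2, 1, 0, 67108864⟩]]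

noncomputable def f_pp_011 : ℕ → ℕ → ℕ → ℕ → Bool := onCell 0 536870912 536870912 536870912 536870912 50465866
    (rowB 3 eng mog cd3q0 cd6q1 pd1 1 false true true .pnn 0 1 1 (qsf 0 536870912 536870912 536870912 1) ndB3q0 ndB6q1 pcB1 cut_pp_011 Ext.none)

def k0_pp_011 : ∃ t, chk3 f_pp_011 t 1 1 1 = true :=
  ⟨(a (b (l 3) (b (l 3) (b (l 3) (a (a (b (l 3) (a (l 6) (l 3))) (l 3)) (l 2))))) (l 3)), by decide +kernel⟩

theorem c_pp_011 : CertB 0 536870912 536870912 536870912 536870912 50465866 3 eng mog cd3q0 cd6q1 pd1 false true true .pnn 0 1 1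
    ndB3q0 ndB6q1 pcB1 cut_pp_011 Ext.none :=
  certB1 (fam := false) (s1 := true) (s2 := true) (a := 0) (b := 1) (c := 1) (cn := .pnn) (n1 := ndB3q0) (n2 := ndB6q1) (pc := pcB1) (cut := cut_pp_011) (xt := Ext.none) (P1 := 0) (W1 := 536870912) (P2 := 536870912) (W2 := 536870912) (P3 := 536870912) (W3 := 50465866) (N0 := 3) (En := eng) (mo := mog) (C1 := cd3q0) (C2 := cd6q1) (C3 := pd1)
    rfl (fun _ => rfl) k0_pp_011

noncomputable def cut_pp_012 : Cut := Cut.of [[⟨0, 0, 0, 67108864⟩, ⟨1, 1, 0, 67108864⟩, ⟨2, 1, 0, 67108864⟩]]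

noncomputable def f_pp_012 : ℕ → ℕ → ℕ → ℕ → Bool := onCell 0 536870912 536870912 536870912 536870912 50465866
    (rowB 3 eng mog cd3q0 cd6q2 pd1 1 false true true .pnp 0 1 2 (qsf 0 536870912 1073741824 536870912 1) ndB3q0 ndB6q2 pcB1 cut_pp_012 Ext.none)

def k0_pp_012 : ∃ t, chk3 f_pp_012 t 1 1 1 = true :=
  ⟨(b (l 3) (a (b (l 3) (a (a (a (b (l 1) (b (l 3) (l 6))) (l 3)) (l 3)) (l 3))) (l 3))), by decide +kernel⟩

theorem c_pp_012 : CertB 0 536870912 1073741824 536870912 536870912 50465866 3 eng mog cd3q0 cd6q2 pd1 false true true .pnp 0 1 2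
    ndB3q0 ndB6q2 pcB1 cut_pp_012 Ext.none :=
  certB1 (fam := false) (s1 := true) (s2 := true) (a := 0) (b := 1) (c := 2) (cn := .pnp) (n1 := ndB3q0) (n2 := ndB6q2) (pc := pcB1) (cut := cut_pp_012) (xt := Ext.none) (P1 := 0) (W1 := 536870912) (P2 := 1073741824) (W2 := 536870912) (P3 := 536870912) (W3 := 50465866) (N0 := 3) (En := eng) (mo := mog) (C1 := cd3q0) (C2 := cd6q2) (C3 := pd1)
    rfl (fun _ => rfl) k0_pp_012

noncomputable def cut_pp_022 : Cut := Cut.of [[⟨0, 0, 0, 67108864⟩, ⟨1, 1, 0, 67108864⟩, ⟨2, 1, 0, 67108864⟩]]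

noncomputable def f_pp_022 : ℕ → ℕ → ℕ → ℕ → Bool := onCell 0 536870912 1073741824 536870912 536870912 50465866
    (rowB 3 eng mog cd3q0 cd6q2 pd2 1 false true true .pp 0 2 2 (qsf 0 536870912 1073741824 536870912 2) ndB3q0 ndB6q2 pcB2 cut_pp_022 Ext.none)

def k0_pp_022 : ∃ t, chk3 f_pp_022 t 2 4 1 = true :=
  ⟨(b (a (a (b (a (a (l 6) (a (l 6) (l 3))) (l 3)) (a (b (a (a (l 6) (b (l 6) (a (l 6) (l 16701488)))) (b (a (a (l 6) (b (l 6) (l 16721792))) (l 16731784)) (a (a (l 16705640) (l 16730800)) (a (l 16713984) (l 16718160))))) (a (a (a (c (l 16685808) (l 16685544)) (l 16689776)) (b (l 16683272) (l 16667128))) (a (b (l 16691736) (l 16675784)) (b (l 16715992) (l 16684464))))) (a (b (b (l 3) (l 16728448)) (a (b (a (l 16706680) (l 16710960)) (l 16693216)) (l 16751632))) (l 3)))) (l 3)) (l 3)) (a (b (a (a (a (b (a (a (l 16631832) (l 16636280)) (l 16643000)) (b (l 16614344) (l 16598328))) (b (a (b (l 16659896) (l 16644072)) (l 16660968)) (a (l 16620416)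 (l 16629824)))) (b (a (a (b (l 16677632) (l 16662224)) (b (l 16686624) (l 16671280))) (b (l 16700064) (l 16685056))) (a (b (l 16651504) (l 16636296)) (b (l 16670024) (l 16655056))))) (b (l 3) (a (a (l 16681112) (l 16698976)) (l 3)))) (a (a (a (b (a (l 16569616) (l 16579312)) (l 16543128)) (b (l 16593976) (l 16563072))) (b (a (l 16613488) (l 16632776)) (a (l 16583080) (l 16602912)))) (b (a (a (l 16651800) (l 16670432)) (l 16696888)) (a (a (l 16622376) (l 16641368)) (l 16689832))))) (b (l 3) (a (b (l 3) (a (l 16701840) (l 3))) (l 3))))), by decide +kernel⟩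

def k1_pp_022 : ∃ t, chk3 f_pp_022 t 2 5 1 = true :=
  ⟨(b (b (b (a (a (a (a (b (l 16520048) (l 16505048)) (l 16532664)) (b (l 16570432) (l 16555376))) (a (b (l 16609704) (l 16594712)) (b (l 16646976) (l 16631952)))) (a (a (l 16778856) (l 16695032)) (l 3))) (a (a (b (a (a (a (l 16485584) (l 16495376)) (l 16510120)) (l 16623776)) (b (a (a (a (l 16475392) (l 16485104)) (l 16499320)) (l 16528208)) (a (b (a (a (l 16470896) (l 16481048)) (l 16494944)) (a (b (b (b (l 16474768) (a (l 16469536) (l 16501312))) (l 16474392)) (l 16472976)) (c (l 16496904) (l 16509728)))) (b (l 16523184) (l 16541656))))) (b (a (l 16579072) (l 16616648)) (b (a (l 16566752) (l 16604528)) (b (a (l 16561048) (l 16598272)) (a (l 16558000) (l 16594624)))))) (b (a (l 16852176) (l 16692416)) (b (a (l 16693288) (l 16681016)) (a (a (l 16778960) (l 16653760)) (b (l 16675328) (l 16671520))))))) (a (a (a (a (a (b (l 16472488) (l 16421064)) (a (l 16548896) (l 16448656))) (l 16459888)) (a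 (l 16478032) (l 16496288))) (a (l 16523608) (l 16559904))) (a (l 16607688) (l 16640088)))) (a (a (a (a (b (b (l 16393704) (l 16360408)) (l 16307960)) (b (l 16393984) (l 16322360))) (b (l 16503184) (l 16345008))) (a (l 16445632) (l 16451896))) (a (a (l 16491912) (l 16517000)) (l 16543264)))), by decide +kernel⟩

def k2_pp_022 : ∃ t, chk3 f_pp_022 t 2 3 1 = true :=
  ⟨(b (a (a (b (a (b (l 16258744) (l 16183808)) (l 16346632)) (a (b (l 16142896) (l 16107464)) (l 16186960))) (b (a (l 16274560) (l 16296864)) (a (l 16205624) (l 16237072)))) (b (a (l 16499592) (l 16385584)) (a (l 16281856) (l 16411416)))) (a (a (b (a (b (l 16077448) (l 16052328)) (l 16153352)) (a (b (l 16028184) (l 16017488)) (l 16096072))) (b (a (l 16160152) (l 16217720)) (l 16305552))) (b (a (l 16361656) (l 2)) (l 2)))), by decide +kernel⟩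

def k3_pp_022 : ∃ t, chk3 f_pp_022 t 3 1 1 = true :=
  ⟨(b (b (b (l 3) (a (l 3) (b (l 3) (a (l 3) (l 2))))) (b (b (b (a (l 3) (a (l 16891200) (l 2))) (a (b (a (l 3) (l 16792224)) (b (a (l 3) (l 16784928)) (a (b (l 16702120) (l 16698704)) (b (l 16781112) (l 16778520))))) (l 2))) (a (a (l 16669920) (l 16754504)) (l 2))) (a (a (l 16576216) (l 16696688)) (l 2)))) (a (b (b (a (l 16476016) (l 2)) (l 2)) (l 2)) (l 2))), by decide +kernel⟩

theorem s4_pp_022 : ∃ t, chk3 f_pp_022 t 2 2 1 = true := ex3_b k0_pp_022 k1_pp_022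

theorem s5_pp_022 : ∃ t, chk3 f_pp_022 t 2 1 1 = true := ex3_b s4_pp_022 k2_pp_022

theorem s6_pp_022 : ∃ t, chk3 f_pp_022 t 1 1 1 = true := ex3_a s5_pp_022 k3_pp_022

theorem c_pp_022 : CertB 0 536870912 1073741824 536870912 536870912 50465866 3 eng mog cd3q0 cd6q2 pd2 false true true .pp 0 2 2
    ndB3q0 ndB6q2 pcB2 cut_pp_022 Ext.none :=
  certB1 (fam := false) (s1 := true) (s2 := true) (a := 0) (b := 2) (c := 2) (cn := .pp) (n1 := ndB3q0) (n2 := ndB6q2) (pc := pcB2) (cut := cut_pp_022) (xt := Ext.none) (P1 := 0) (W1 := 536870912) (P2 := 1073741824) (W2 := 536870912) (P3 := 536870912) (W3 := 50465866) (N0 := 3) (En := eng) (mo := mog) (C1 := cd3q0) (C2 := cd6q2) (C3 := pd2)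
    rfl (fun _ => rfl) s6_pp_022

noncomputable def f_pp_023 : ℕ → ℕ → ℕ → ℕ → Bool := onCell 1073741824 536870912 0 1230186008 536870912 50465866
    (rowB 3 eng mog cd3q0 cd6q3 pd2 2 false true true .up 0 2 3 (qsf 0 536870912 0 1230186008 2) ndB3q0 ndB6q3 pcB2 Cut.none Ext.none)

def k0_pp_023 : ∃ t, chk3 f_pp_023 t 1 1 1 = true :=
  ⟨(b (a (l 2) (a (l 2) (b (l 16758552) (a (l 16763432) (l 16773048))))) (b (a (a (l 2) (b (l 2) (l 226660799783))) (a (b (l 16747944) (l 16738392)) (a (b (l 16764032) (l 16736712)) (b (l 16776512) (l 16737760))))) (a (b (a (l 2) (a (a (a (l 16993048) (a (l 16986464) (l 16977344))) (l 16953008)) (l 16829136))) (a (a (l 3) (a (l 3) (b (l 16916320) (l 3)))) (a (a (a (b (l 16965720) (l 16885560)) (a (b (l 16936880) (l 16857280)) (b (l 16917144) (a (l 16842704) (a (l 16835296) (l 16830312)))))) (b (l 16868760) (l 16785944))) (b (l 16739344) (l 16639272))))) (a (b (b (l 16705952) (l 16647304)) (b (l 16541776) (a (l 16404168)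 (l 16319384)))) (b (a (l 16664784) (b (l 16684776) (l 16622584))) (b (a (l 16493176) (l 16466128)) (a (l 16251880) (b (l 16250368) (l 16097872))))))))), by decide +kernel⟩

theorem c_pp_023 : CertB 0 536870912 0 1230186008 536870912 50465866 3 eng mog cd3q0 cd6q3 pd2 false true true .up 0 2 3
    ndB3q0 ndB6q3 pcB2 Cut.none Ext.none :=
  certB2 (fam := false) (s1 := true) (s2 := true) (a := 0) (b := 2) (c := 3) (cn := .up) (n1 := ndB3q0) (n2 := ndB6q3) (pc := pcB2) (cut := Cut.none) (xt := Ext.none) (P1 := 0) (W1 := 536870912) (P2 := 0) (W2 := 1230186008) (P3 := 536870912) (W3 := 50465866) (N0 := 3) (En := eng) (mo := mog) (C1 := cd3q0) (C2 := cd6q3) (C3 := pd2)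
    rfl (fun _ => rfl) k0_pp_023

noncomputable def f_pp_033 : ℕ → ℕ → ℕ → ℕ → Bool := onCell 1610612736 536870912 0 1230186008 536870912 50465866
    (rowB 3 eng mog cd3q0 cd6q3 pd3 2 false true true .pnn 0 3 3 (qsf 0 536870912 0 1230186008 3) ndB3q0 ndB6q3 pcB3 Cut.none Ext.none)

def k0_pp_033 : ∃ t, chk3 f_pp_033 t 1 1 1 = true :=
  ⟨(b (b (a (a (l 16759344) (l 333632155671)) (l 4)) (a (a (a (l 16778880) (l 16774184)) (a (l 16768920) (b (l 16757704) (l 16767136)))) (b (a (a (l 16754384) (l 16747288)) (l 4)) (a (a (l 16764392) (a (l 16761040) (l 16758432))) (a (a (l 16754656) (l 16750808)) (a (l 1090955691863) (l 1))))))) (b (a (a (a (b (l 16779864) (l 16727192)) (b (l 16786320) (l 16755896))) (b (a (l 16778488) (l 16771536)) (b (l 16755728) (l 439194362407)))) (b (a (a (l 16766224) (l 537978685559)) (a (a (l 740379015927) (l 1)) (l 1))) (a (a (b (l 16745832) (l 640520823063)) (b (l 685618138567) (l 1))) (l 1)))) (a (b (a (b (a (l 16692096) (l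 16686240)) (a (l 16601936) (l 16586216))) (b (l 444026086295) (a (l 16568616) (l 1)))) (a (a (b (l 16425400) (b (l 16195016) (l 570189122199))) (b (l 502007466855) (b (l 852583290087) (l 1)))) (b (a (b (l 725345555959) (l 1)) (l 1)) (l 1)))) (l 1)))), by decide +kernel⟩

theorem c_pp_033 : CertB 0 536870912 0 1230186008 536870912 50465866 3 eng mog cd3q0 cd6q3 pd3 false true true .pnn 0 3 3
    ndB3q0 ndB6q3 pcB3 Cut.none Ext.none :=
  certB2 (fam := false) (s1 := true) (s2 := true) (a := 0) (b := 3) (c := 3) (cn := .pnn) (n1 := ndB3q0) (n2 := ndB6q3) (pc := pcB3) (cut := Cut.none) (xt := Ext.none) (P1 := 0) (W1 := 536870912) (P2 := 0) (W2 := 1230186008) (P3 := 536870912) (W3 := 50465866) (N0 := 3) (En := eng) (mo := mog) (C1 := cd3q0) (C2 := cd6q3) (C3 := pd3)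
    rfl (fun _ => rfl) k0_pp_033

noncomputable def f_pp_101 : ℕ → ℕ → ℕ → ℕ → Bool := onCell 536870912 536870912 536870912 536870912 536870912 50465866
    (rowB 3 eng mog cd3q1 cd6q1 pd0 0 false true true .npn 1 0 1 (qsf 536870912 536870912 536870912 536870912 0) ndB3q1 ndB6q1 pcB0 Cut.none Ext.none)

def k0_pp_101 : ∃ t, chk3 f_pp_101 t 1 1 1 = true :=
  ⟨(l 3), by decide +kernel⟩

theorem c_pp_101 : CertB 536870912 536870912 536870912 536870912 536870912 50465866 3 eng mog cd3q1 cd6q1 pd0 false true true .npn 1 0 1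
    ndB3q1 ndB6q1 pcB0 Cut.none Ext.none :=
  certB0 (fam := false) (s1 := true) (s2 := true) (a := 1) (b := 0) (c := 1) (cn := .npn) (n1 := ndB3q1) (n2 := ndB6q1) (pc := pcB0) (cut := Cut.none) (xt := Ext.none) (P1 := 536870912) (W1 := 536870912) (P2 := 536870912) (W2 := 536870912) (P3 := 536870912) (W3 := 50465866) (N0 := 3) (En := eng) (mo := mog) (C1 := cd3q1) (C2 := cd6q1) (C3 := pd0)
    rfl k0_pp_101

noncomputable def f_pp_102 : ℕ → ℕ → ℕ → ℕ → Bool := onCell 536870912 536870912 1073741824 536870912 536870912 50465866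
    (rowB 3 eng mog cd3q1 cd6q2 pd0 0 false true true .npp 1 0 2 (qsf 536870912 536870912 1073741824 536870912 0) ndB3q1 ndB6q2 pcB0 Cut.none Ext.none)

def k0_pp_102 : ∃ t, chk3 f_pp_102 t 1 1 1 = true :=
  ⟨(l 3), by decide +kernel⟩

theorem c_pp_102 : CertB 536870912 536870912 1073741824 536870912 536870912 50465866 3 eng mog cd3q1 cd6q2 pd0 false true true .npp 1 0 2
    ndB3q1 ndB6q2 pcB0 Cut.none Ext.none :=
  certB0 (fam := false) (s1 := true) (s2 := true) (a := 1) (b := 0) (c := 2) (cn := .npp) (n1 := ndB3q1) (n2 := ndB6q2) (pc := pcB0) (cut := Cut.none) (xt := Ext.none) (P1 := 536870912) (W1 := 536870912) (P2 := 1073741824) (W2 := 536870912) (P3 := 536870912) (W3 := 50465866) (N0 := 3) (En := eng) (mo := mog) (C1 := cd3q1) (C2 := cd6q2) (C3 := pd0)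
    rfl k0_pp_102

noncomputable def f_pp_112 : ℕ → ℕ → ℕ → ℕ → Bool := onCell 536870912 536870912 1073741824 536870912 536870912 50465866
    (rowB 3 eng mog cd3q1 cd6q2 pd1 0 false true true .dn 1 1 2 (qsf 536870912 536870912 1073741824 536870912 1) ndB3q1 ndB6q2 pcB1 Cut.none Ext.none)

def k0_pp_112 : ∃ t, chk3 f_pp_112 t 1 1 1 = true :=
  ⟨(l 3), by decide +kernel⟩

theorem c_pp_112 : CertB 536870912 536870912 1073741824 536870912 536870912 50465866 3 eng mog cd3q1 cd6q2 pd1 false true true .dn 1 1 2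
    ndB3q1 ndB6q2 pcB1 Cut.none Ext.none :=
  certB0 (fam := false) (s1 := true) (s2 := true) (a := 1) (b := 1) (c := 2) (cn := .dn) (n1 := ndB3q1) (n2 := ndB6q2) (pc := pcB1) (cut := Cut.none) (xt := Ext.none) (P1 := 536870912) (W1 := 536870912) (P2 := 1073741824) (W2 := 536870912) (P3 := 536870912) (W3 := 50465866) (N0 := 3) (En := eng) (mo := mog) (C1 := cd3q1) (C2 := cd6q2) (C3 := pd1)
    rfl k0_pp_112

noncomputable def f_pp_113 : ℕ → ℕ → ℕ → ℕ → Bool := onCell 536870912 536870912 0 1230186008 536870912 50465866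
    (rowB 3 eng mog cd3q1 cd6q3 pd1 2 false true true .nn 1 1 3 (qsf 536870912 536870912 0 1230186008 1) ndB3q1 ndB6q3 pcB1 Cut.none Ext.none)

def k0_pp_113 : ∃ t, chk3 f_pp_113 t 1 1 1 = true :=
  ⟨(a (b (l 2) (b (l 3) (l 3))) (b (a (l 2) (b (l 16805872) (a (b (l 16859192) (l 16978752)) (l 16848568)))) (b (a (b (a (l 2) (l 362019478039)) (l 3)) (b (a (l 240686676807) (l 16866520)) (a (l 357187574327) (l 242834084023)))) (l 3)))), by decide +kernel⟩

theorem c_pp_113 : CertB 536870912 536870912 0 1230186008 536870912 50465866 3 eng mog cd3q1 cd6q3 pd1 false true true .nn 1 1 3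
    ndB3q1 ndB6q3 pcB1 Cut.none Ext.none :=
  certB2 (fam := false) (s1 := true) (s2 := true) (a := 1) (b := 1) (c := 3) (cn := .nn) (n1 := ndB3q1) (n2 := ndB6q3) (pc := pcB1) (cut := Cut.none) (xt := Ext.none) (P1 := 536870912) (W1 := 536870912) (P2 := 0) (W2 := 1230186008) (P3 := 536870912) (W3 := 50465866) (N0 := 3) (En := eng) (mo := mog) (C1 := cd3q1) (C2 := cd6q3) (C3 := pd1)
    rfl (fun _ => rfl) k0_pp_113

noncomputable def f_pp_123 : ℕ → ℕ → ℕ → ℕ → Bool := onCell 1073741824 536870912 0 1230186008 536870912 50465866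
    (rowB 3 eng mog cd3q1 cd6q3 pd2 2 false true true .npn 1 2 3 (qsf 536870912 536870912 0 1230186008 2) ndB3q1 ndB6q3 pcB2 Cut.none Ext.none)

def k0_pp_123 : ∃ t, chk3 f_pp_123 t 1 1 1 = true :=
  ⟨(b (b (a (a (l 16968888) (l 16762272)) (a (l 16775112) (l 16762680))) (a (a (b (l 16815592) (l 16839064)) (b (l 16805624) (a (l 16841032) (l 16799656)))) (a (b (l 16781864) (l 16766256)) (a (l 16763416) (l 16787208))))) (b (a (b (a (l 16848048) (a (l 16838504) (l 16854600))) (a (a (l 17046344) (l 16834072)) (a (l 16935944) (l 16863144)))) (a (b (l 16751464) (l 16726528)) (a (l 438657521863) (l 1)))) (a (a (a (b (b (l 17046928) (l 16837816)) (l 3)) (b (a (l 16907528) (l 16897240)) (a (l 3) (l 461206634647)))) (a (b (a (a (l 16935440) (a (l 16953824) (l 16963696))) (l 16924704)) (a (a (l 454226897767) (l 1)) (l 1))) (b (l 16767168) (l 1)))) (l 1)))), by decide +kernel⟩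

theorem c_pp_123 : CertB 536870912 536870912 0 1230186008 536870912 50465866 3 eng mog cd3q1 cd6q3 pd2 false true true .npn 1 2 3
    ndB3q1 ndB6q3 pcB2 Cut.none Ext.none :=
  certB2 (fam := false) (s1 := true) (s2 := true) (a := 1) (b := 2) (c := 3) (cn := .npn) (n1 := ndB3q1) (n2 := ndB6q3) (pc := pcB2) (cut := Cut.none) (xt := Ext.none) (P1 := 536870912) (W1 := 536870912) (P2 := 0) (W2 := 1230186008) (P3 := 536870912) (W3 := 50465866) (N0 := 3) (En := eng) (mo := mog) (C1 := cd3q1) (C2 := cd6q3) (C3 := pd2)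
    rfl (fun _ => rfl) k0_pp_123

noncomputable def f_pp_133 : ℕ → ℕ → ℕ → ℕ → Bool := onCell 1610612736 536870912 0 1230186008 536870912 50465866
    (rowB 3 eng mog cd3q1 cd6q3 pd3 2 false true true .dn 1 3 3 (qsf 536870912 536870912 0 1230186008 3) ndB3q1 ndB6q3 pcB3 Cut.none Ext.none)

def k0_pp_133 : ∃ t, chk3 f_pp_133 t 1 1 1 = true :=
  ⟨(b (b (a (a (l 16753104) (l 1)) (l 1)) (l 1)) (l 1)), by decide +kernel⟩

theorem c_pp_133 : CertB 536870912 536870912 0 1230186008 536870912 50465866 3 eng mog cd3q1 cd6q3 pd3 false true true .dn 1 3 3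
    ndB3q1 ndB6q3 pcB3 Cut.none Ext.none :=
  certB2 (fam := false) (s1 := true) (s2 := true) (a := 1) (b := 3) (c := 3) (cn := .dn) (n1 := ndB3q1) (n2 := ndB6q3) (pc := pcB3) (cut := Cut.none) (xt := Ext.none) (P1 := 536870912) (W1 := 536870912) (P2 := 0) (W2 := 1230186008) (P3 := 536870912) (W3 := 50465866) (N0 := 3) (En := eng) (mo := mog) (C1 := cd3q1) (C2 := cd6q3) (C3 := pd3)
    rfl (fun _ => rfl) k0_pp_133

noncomputable def f_pp_202_a : ℕ → ℕ → ℕ → ℕ → Bool := onCell 0 536870912 1073741824 536870912 536870912 50465866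
    (rowB 3 eng mog cd3q2a cd6q2 pd0 0 false true true .pp 2 0 2 (qsf 0 536870912 1073741824 536870912 0) ndB3q2a ndB6q2 pcB0 Cut.none Ext.none)

def k0_pp_202_a : ∃ t, chk3 f_pp_202_a t 1 1 1 = true :=
  ⟨(l 5), by decide +kernel⟩

theorem c_pp_202_a : CertB 0 536870912 1073741824 536870912 536870912 50465866 3 eng mog cd3q2a cd6q2 pd0 false true true .pp 2 0 2
    ndB3q2a ndB6q2 pcB0 Cut.none Ext.none :=
  certB0 (fam := false) (s1 := true) (s2 := true) (a := 2) (b := 0) (c := 2) (cn := .pp) (n1 := ndB3q2a) (n2 := ndB6q2) (pc := pcB0) (cut := Cut.none) (xt := Ext.none) (P1 := 0) (W1 := 536870912) (P2 := 1073741824) (W2 := 536870912) (P3 := 536870912) (W3 := 50465866) (N0 := 3) (En := eng) (mo := mog) (C1 := cd3q2a) (C2 := cd6q2) (C3 := pd0)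
    rfl k0_pp_202_a

noncomputable def f_pp_202_b : ℕ → ℕ → ℕ → ℕ → Bool := onCell 1239849684 370763052 1073741824 536870912 536870912 50465866
    (rowB 3 eng mog cd3q2b cd6q2 pd0 0 false true true .pp 2 0 2 (qsf 1239849684 370763052 1073741824 536870912 0) ndB3q2b ndB6q2 pcB0 Cut.none Ext.none)

def k0_pp_202_b : ∃ t, chk3 f_pp_202_b t 1 1 1 = true :=
  ⟨(l 5), by decide +kernel⟩

theorem c_pp_202_b : CertB 1239849684 370763052 1073741824 536870912 536870912 50465866 3 eng mog cd3q2b cd6q2 pd0 false true true .pp 2 0 2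
    ndB3q2b ndB6q2 pcB0 Cut.none Ext.none :=
  certB0 (fam := false) (s1 := true) (s2 := true) (a := 2) (b := 0) (c := 2) (cn := .pp) (n1 := ndB3q2b) (n2 := ndB6q2) (pc := pcB0) (cut := Cut.none) (xt := Ext.none) (P1 := 1239849684) (W1 := 370763052) (P2 := 1073741824) (W2 := 536870912) (P3 := 536870912) (W3 := 50465866) (N0 := 3) (En := eng) (mo := mog) (C1 := cd3q2b) (C2 := cd6q2) (C3 := pd0)
    rfl k0_pp_202_b

noncomputable def f_pp_203_a : ℕ → ℕ → ℕ → ℕ → Bool := onCell 0 536870912 0 1230186008 536870912 50465866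
    (rowB 3 eng mog cd3q2a cd6q3 pd0 0 false true true .up 2 0 3 (qsf 0 536870912 0 1230186008 0) ndB3q2a ndB6q3 pcB0 Cut.none Ext.none)

def k0_pp_203_a : ∃ t, chk3 f_pp_203_a t 1 1 1 = true :=
  ⟨(b (l 2) (l 3)), by decide +kernel⟩

theorem c_pp_203_a : CertB 0 536870912 0 1230186008 536870912 50465866 3 eng mog cd3q2a cd6q3 pd0 false true true .up 2 0 3
    ndB3q2a ndB6q3 pcB0 Cut.none Ext.none :=
  certB0 (fam := false) (s1 := true) (s2 := true) (a := 2) (b := 0) (c := 3) (cn := .up) (n1 := ndB3q2a) (n2 := ndB6q3) (pc := pcB0) (cut := Cut.none) (xt := Ext.none) (P1 := 0) (W1 := 536870912) (P2 := 0) (W2 := 1230186008) (P3 := 536870912) (W3 := 50465866) (N0 := 3) (En := eng) (mo := mog) (C1 := cd3q2a) (C2 := cd6q3) (C3 := pd0)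
    rfl k0_pp_203_a

noncomputable def f_pp_203_b : ℕ → ℕ → ℕ → ℕ → Bool := onCell 1239849684 370763052 0 1230186008 536870912 50465866
    (rowB 3 eng mog cd3q2b cd6q3 pd0 0 false true true .up 2 0 3 (qsf 1239849684 370763052 0 1230186008 0) ndB3q2b ndB6q3 pcB0 Cut.none Ext.none)

def k0_pp_203_b : ∃ t, chk3 f_pp_203_b t 1 1 1 = true :=
  ⟨(b (l 3) (l 3)), by decide +kernel⟩

theorem c_pp_203_b : CertB 1239849684 370763052 0 1230186008 536870912 50465866 3 eng mog cd3q2b cd6q3 pd0 false true true .up 2 0 3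
    ndB3q2b ndB6q3 pcB0 Cut.none Ext.none :=
  certB0 (fam := false) (s1 := true) (s2 := true) (a := 2) (b := 0) (c := 3) (cn := .up) (n1 := ndB3q2b) (n2 := ndB6q3) (pc := pcB0) (cut := Cut.none) (xt := Ext.none) (P1 := 1239849684) (W1 := 370763052) (P2 := 0) (W2 := 1230186008) (P3 := 536870912) (W3 := 50465866) (N0 := 3) (En := eng) (mo := mog) (C1 := cd3q2b) (C2 := cd6q3) (C3 := pd0)
    rfl k0_pp_203_b

noncomputable def cut_pp_213_a : Cut := Cut.of [[⟨0, 1, 0, 67108864⟩, ⟨1, 1, 0, 67108864⟩, ⟨2, 2, 0, 16777216⟩]]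

noncomputable def f_pp_213_a : ℕ → ℕ → ℕ → ℕ → Bool := onCell 0 536870912 0 1230186008 536870912 50465866
    (rowB 3 eng mog cd3q2a cd6q3 pd1 0 false true true .pnn 2 1 3 (qsf 0 536870912 0 1230186008 1) ndB3q2a ndB6q3 pcB1 cut_pp_213_a Ext.none)

def k0_pp_213_a : ∃ t, chk3 f_pp_213_a t 1 1 1 = true :=
  ⟨(b (a (l 3) (b (a (l 3) (b (a (l 3) (l 6)) (l 3))) (l 3))) (l 3)), by decide +kernel⟩

theorem c_pp_213_a : CertB 0 536870912 0 1230186008 536870912 50465866 3 eng mog cd3q2a cd6q3 pd1 false true true .pnn 2 1 3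
    ndB3q2a ndB6q3 pcB1 cut_pp_213_a Ext.none :=
  certB0 (fam := false) (s1 := true) (s2 := true) (a := 2) (b := 1) (c := 3) (cn := .pnn) (n1 := ndB3q2a) (n2 := ndB6q3) (pc := pcB1) (cut := cut_pp_213_a) (xt := Ext.none) (P1 := 0) (W1 := 536870912) (P2 := 0) (W2 := 1230186008) (P3 := 536870912) (W3 := 50465866) (N0 := 3) (En := eng) (mo := mog) (C1 := cd3q2a) (C2 := cd6q3) (C3 := pd1)
    rfl k0_pp_213_a

noncomputable def cut_pp_213_b : Cut := Cut.of [[⟨0, 1, 0, 67108864⟩, ⟨1, 1, 0, 67108864⟩, ⟨2, 2, 0, 16777216⟩]]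

noncomputable def f_pp_213_b : ℕ → ℕ → ℕ → ℕ → Bool := onCell 1239849684 370763052 0 1230186008 536870912 50465866
    (rowB 3 eng mog cd3q2b cd6q3 pd1 0 false true true .pnn 2 1 3 (qsf 1239849684 370763052 0 1230186008 1) ndB3q2b ndB6q3 pcB1 cut_pp_213_b Ext.none)

def k0_pp_213_b : ∃ t, chk3 f_pp_213_b t 1 1 1 = true :=
  ⟨(b (l 3) (l 3)), by decide +kernel⟩

theorem c_pp_213_b : CertB 1239849684 370763052 0 1230186008 536870912 50465866 3 eng mog cd3q2b cd6q3 pd1 false true true .pnn 2 1 3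
    ndB3q2b ndB6q3 pcB1 cut_pp_213_b Ext.none :=
  certB0 (fam := false) (s1 := true) (s2 := true) (a := 2) (b := 1) (c := 3) (cn := .pnn) (n1 := ndB3q2b) (n2 := ndB6q3) (pc := pcB1) (cut := cut_pp_213_b) (xt := Ext.none) (P1 := 1239849684) (W1 := 370763052) (P2 := 0) (W2 := 1230186008) (P3 := 536870912) (W3 := 50465866) (N0 := 3) (En := eng) (mo := mog) (C1 := cd3q2b) (C2 := cd6q3) (C3 := pd1)
    rfl k0_pp_213_b

noncomputable def f_pp_303 : ℕ → ℕ → ℕ → ℕ → Bool := onCell 1610612736 536870912 0 1230186008 536870912 50465866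
    (rowB 3 eng mog cd3q3 cd6q3 pd0 0 false true true .npn 3 0 3 (qsf 1610612736 536870912 0 1230186008 0) ndB3q3 ndB6q3 pcB0 Cut.none Ext.none)

def k0_pp_303 : ∃ t, chk3 f_pp_303 t 1 1 1 = true :=
  ⟨(b (l 3) (l 5)), by decide +kernel⟩

theorem c_pp_303 : CertB 1610612736 536870912 0 1230186008 536870912 50465866 3 eng mog cd3q3 cd6q3 pd0 false true true .npn 3 0 3
    ndB3q3 ndB6q3 pcB0 Cut.none Ext.none :=
  certB0 (fam := false) (s1 := true) (s2 := true) (a := 3) (b := 0) (c := 3) (cn := .npn) (n1 := ndB3q3) (n2 := ndB6q3) (pc := pcB0) (cut := Cut.none) (xt := Ext.none) (P1 := 1610612736) (W1 := 536870912) (P2 := 0) (W2 := 1230186008) (P3 := 536870912) (W3 := 50465866) (N0 := 3) (En := eng) (mo := mog) (C1 := cd3q3) (C2 := cd6q3) (C3 := pd0)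
    rfl k0_pp_303

noncomputable def f_pp_313 : ℕ → ℕ → ℕ → ℕ → Bool := onCell 1610612736 536870912 0 1230186008 536870912 50465866
    (rowB 3 eng mog cd3q3 cd6q3 pd1 0 false true true .dn 3 1 3 (qsf 1610612736 536870912 0 1230186008 1) ndB3q3 ndB6q3 pcB1 Cut.none Ext.none)

def k0_pp_313 : ∃ t, chk3 f_pp_313 t 1 1 1 = true :=
  ⟨(b (l 3) (l 1)), by decide +kernel⟩

theorem c_pp_313 : CertB 1610612736 536870912 0 1230186008 536870912 50465866 3 eng mog cd3q3 cd6q3 pd1 false true true .dn 3 1 3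
    ndB3q3 ndB6q3 pcB1 Cut.none Ext.none :=
  certB0 (fam := false) (s1 := true) (s2 := true) (a := 3) (b := 1) (c := 3) (cn := .dn) (n1 := ndB3q3) (n2 := ndB6q3) (pc := pcB1) (cut := Cut.none) (xt := Ext.none) (P1 := 1610612736) (W1 := 536870912) (P2 := 0) (W2 := 1230186008) (P3 := 536870912) (W3 := 50465866) (N0 := 3) (En := eng) (mo := mog) (C1 := cd3q3) (C2 := cd6q3) (C3 := pd1)
    rfl k0_pp_313

noncomputable def f_pm_001 : ℕ → ℕ → ℕ → ℕ → Bool := onCell 0 536870912 536870912 536870912 536870912 50465866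
    (rowB 3 eng mog cd3q0 cd6q1 pd0 0 false true false .up 0 0 1 (qsf 0 536870912 536870912 536870912 0) ndB3q0 ndB6q1 pcB0 Cut.none Ext.none)

def k0_pm_001 : ∃ t, chk3 f_pm_001 t 1 1 1 = true :=
  ⟨(l 4), by decide +kernel⟩

theorem c_pm_001 : CertB 0 536870912 536870912 536870912 536870912 50465866 3 eng mog cd3q0 cd6q1 pd0 false true false .up 0 0 1
    ndB3q0 ndB6q1 pcB0 Cut.none Ext.none :=
  certB0 (fam := false) (s1 := true) (s2 := false) (a := 0) (b := 0) (c := 1) (cn := .up) (n1 := ndB3q0) (n2 := ndB6q1) (pc := pcB0) (cut := Cut.none) (xt := Ext.none) (P1 := 0) (W1 := 536870912) (P2 := 536870912) (W2 := 536870912) (P3 := 536870912) (W3 := 50465866) (N0 := 3) (En := eng) (mo := mog) (C1 := cd3q0) (C2 := cd6q1) (C3 := pd0)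
    rfl k0_pm_001

noncomputable def f_pm_011 : ℕ → ℕ → ℕ → ℕ → Bool := onCell 0 536870912 536870912 536870912 536870912 50465866
    (rowB 3 eng mog cd3q0 cd6q1 pd1 0 false true false .pnn 0 1 1 (qsf 0 536870912 536870912 536870912 1) ndB3q0 ndB6q1 pcB1 Cut.none Ext.none)

def k0_pm_011 : ∃ t, chk3 f_pm_011 t 1 1 1 = true :=
  ⟨(l 4), by decide +kernel⟩

theorem c_pm_011 : CertB 0 536870912 536870912 536870912 536870912 50465866 3 eng mog cd3q0 cd6q1 pd1 false true false .pnn 0 1 1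
    ndB3q0 ndB6q1 pcB1 Cut.none Ext.none :=
  certB0 (fam := false) (s1 := true) (s2 := false) (a := 0) (b := 1) (c := 1) (cn := .pnn) (n1 := ndB3q0) (n2 := ndB6q1) (pc := pcB1) (cut := Cut.none) (xt := Ext.none) (P1 := 0) (W1 := 536870912) (P2 := 536870912) (W2 := 536870912) (P3 := 536870912) (W3 := 50465866) (N0 := 3) (En := eng) (mo := mog) (C1 := cd3q0) (C2 := cd6q1) (C3 := pd1)
    rfl k0_pm_011

noncomputable def f_pm_012 : ℕ → ℕ → ℕ → ℕ → Bool := onCell 0 536870912 1073741824 536870912 536870912 50465866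
    (rowB 3 eng mog cd3q0 cd6q2 pd1 0 false true false .pnp 0 1 2 (qsf 0 536870912 1073741824 536870912 1) ndB3q0 ndB6q2 pcB1 Cut.none Ext.none)

def k0_pm_012 : ∃ t, chk3 f_pm_012 t 1 1 1 = true :=
  ⟨(l 4), by decide +kernel⟩

theorem c_pm_012 : CertB 0 536870912 1073741824 536870912 536870912 50465866 3 eng mog cd3q0 cd6q2 pd1 false true false .pnp 0 1 2
    ndB3q0 ndB6q2 pcB1 Cut.none Ext.none :=
  certB0 (fam := false) (s1 := true) (s2 := false) (a := 0) (b := 1) (c := 2) (cn := .pnp) (n1 := ndB3q0) (n2 := ndB6q2) (pc := pcB1) (cut := Cut.none) (xt := Ext.none) (P1 := 0) (W1 := 536870912) (P2 := 1073741824) (W2 := 536870912) (P3 := 536870912) (W3 := 50465866) (N0 := 3) (En := eng) (mo := mog) (C1 := cd3q0) (C2 := cd6q2) (C3 := pd1)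
    rfl k0_pm_012

noncomputable def f_pm_022 : ℕ → ℕ → ℕ → ℕ → Bool := onCell 0 536870912 1073741824 536870912 536870912 50465866
    (rowB 3 eng mog cd3q0 cd6q2 pd2 0 false true false .pp 0 2 2 (qsf 0 536870912 1073741824 536870912 2) ndB3q0 ndB6q2 pcB2 Cut.none Ext.none)

def k0_pm_022 : ∃ t, chk3 f_pm_022 t 1 1 1 = true :=
  ⟨(l 4), by decide +kernel⟩

theorem c_pm_022 : CertB 0 536870912 1073741824 536870912 536870912 50465866 3 eng mog cd3q0 cd6q2 pd2 false true false .pp 0 2 2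
    ndB3q0 ndB6q2 pcB2 Cut.none Ext.none :=
  certB0 (fam := false) (s1 := true) (s2 := false) (a := 0) (b := 2) (c := 2) (cn := .pp) (n1 := ndB3q0) (n2 := ndB6q2) (pc := pcB2) (cut := Cut.none) (xt := Ext.none) (P1 := 0) (W1 := 536870912) (P2 := 1073741824) (W2 := 536870912) (P3 := 536870912) (W3 := 50465866) (N0 := 3) (En := eng) (mo := mog) (C1 := cd3q0) (C2 := cd6q2) (C3 := pd2)
    rfl k0_pm_022

noncomputable def f_pm_023 : ℕ → ℕ → ℕ → ℕ → Bool := onCell 0 536870912 0 1230186008 536870912 50465866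
    (rowB 3 eng mog cd3q0 cd6q3 pd2 0 false true false .up 0 2 3 (qsf 0 536870912 0 1230186008 2) ndB3q0 ndB6q3 pcB2 Cut.none Ext.none)

def k0_pm_023 : ∃ t, chk3 f_pm_023 t 1 1 1 = true :=
  ⟨(b (l 4) (l 4)), by decide +kernel⟩

theorem c_pm_023 : CertB 0 536870912 0 1230186008 536870912 50465866 3 eng mog cd3q0 cd6q3 pd2 false true false .up 0 2 3
    ndB3q0 ndB6q3 pcB2 Cut.none Ext.none :=
  certB0 (fam := false) (s1 := true) (s2 := false) (a := 0) (b := 2) (c := 3) (cn := .up) (n1 := ndB3q0) (n2 := ndB6q3) (pc := pcB2) (cut := Cut.none) (xt := Ext.none) (P1 := 0) (W1 := 536870912) (P2 := 0) (W2 := 1230186008) (P3 := 536870912) (W3 := 50465866) (N0 := 3) (En := eng) (mo := mog) (C1 := cd3q0) (C2 := cd6q3) (C3 := pd2)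
    rfl k0_pm_023

noncomputable def f_pm_033 : ℕ → ℕ → ℕ → ℕ → Bool := onCell 0 536870912 0 1230186008 536870912 50465866
    (rowB 3 eng mog cd3q0 cd6q3 pd3 0 false true false .pnn 0 3 3 (qsf 0 536870912 0 1230186008 3) ndB3q0 ndB6q3 pcB3 Cut.none Ext.none)

def k0_pm_033 : ∃ t, chk3 f_pm_033 t 1 1 1 = true :=
  ⟨(b (l 4) (l 4)), by decide +kernel⟩

theorem c_pm_033 : CertB 0 536870912 0 1230186008 536870912 50465866 3 eng mog cd3q0 cd6q3 pd3 false true false .pnn 0 3 3
    ndB3q0 ndB6q3 pcB3 Cut.none Ext.none :=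
  certB0 (fam := false) (s1 := true) (s2 := false) (a := 0) (b := 3) (c := 3) (cn := .pnn) (n1 := ndB3q0) (n2 := ndB6q3) (pc := pcB3) (cut := Cut.none) (xt := Ext.none) (P1 := 0) (W1 := 536870912) (P2 := 0) (W2 := 1230186008) (P3 := 536870912) (W3 := 50465866) (N0 := 3) (En := eng) (mo := mog) (C1 := cd3q0) (C2 := cd6q3) (C3 := pd3)
    rfl k0_pm_033

noncomputable def f_pm_101 : ℕ → ℕ → ℕ → ℕ → Bool := onCell 536870912 536870912 536870912 536870912 536870912 50465866
    (rowB 3 eng mog cd3q1 cd6q1 pd0 0 false true false .npn 1 0 1 (qsf 536870912 536870912 536870912 536870912 0) ndB3q1 ndB6q1 pcB0 Cut.none Ext.none)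

def k0_pm_101 : ∃ t, chk3 f_pm_101 t 1 1 1 = true :=
  ⟨(l 4), by decide +kernel⟩

theorem c_pm_101 : CertB 536870912 536870912 536870912 536870912 536870912 50465866 3 eng mog cd3q1 cd6q1 pd0 false true false .npn 1 0 1
    ndB3q1 ndB6q1 pcB0 Cut.none Ext.none :=
  certB0 (fam := false) (s1 := true) (s2 := false) (a := 1) (b := 0) (c := 1) (cn := .npn) (n1 := ndB3q1) (n2 := ndB6q1) (pc := pcB0) (cut := Cut.none) (xt := Ext.none) (P1 := 536870912) (W1 := 536870912) (P2 := 536870912) (W2 := 536870912) (P3 := 536870912) (W3 := 50465866) (N0 := 3) (En := eng) (mo := mog) (C1 := cd3q1) (C2 := cd6q1) (C3 := pd0)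
    rfl k0_pm_101

noncomputable def f_pm_102 : ℕ → ℕ → ℕ → ℕ → Bool := onCell 536870912 536870912 1073741824 536870912 536870912 50465866
    (rowB 3 eng mog cd3q1 cd6q2 pd0 0 false true false .npp 1 0 2 (qsf 536870912 536870912 1073741824 536870912 0) ndB3q1 ndB6q2 pcB0 Cut.none Ext.none)

def k0_pm_102 : ∃ t, chk3 f_pm_102 t 1 1 1 = true :=
  ⟨(l 4), by decide +kernel⟩

theorem c_pm_102 : CertB 536870912 536870912 1073741824 536870912 536870912 50465866 3 eng mog cd3q1 cd6q2 pd0 false true false .npp 1 0 2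
    ndB3q1 ndB6q2 pcB0 Cut.none Ext.none :=
  certB0 (fam := false) (s1 := true) (s2 := false) (a := 1) (b := 0) (c := 2) (cn := .npp) (n1 := ndB3q1) (n2 := ndB6q2) (pc := pcB0) (cut := Cut.none) (xt := Ext.none) (P1 := 536870912) (W1 := 536870912) (P2 := 1073741824) (W2 := 536870912) (P3 := 536870912) (W3 := 50465866) (N0 := 3) (En := eng) (mo := mog) (C1 := cd3q1) (C2 := cd6q2) (C3 := pd0)
    rfl k0_pm_102

noncomputable def f_pm_112 : ℕ → ℕ → ℕ → ℕ → Bool := onCell 536870912 536870912 1073741824 536870912 536870912 50465866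
    (rowB 3 eng mog cd3q1 cd6q2 pd1 0 false true false .dn 1 1 2 (qsf 536870912 536870912 1073741824 536870912 1) ndB3q1 ndB6q2 pcB1 Cut.none Ext.none)

def k0_pm_112 : ∃ t, chk3 f_pm_112 t 1 1 1 = true :=
  ⟨(l 4), by decide +kernel⟩

theorem c_pm_112 : CertB 536870912 536870912 1073741824 536870912 536870912 50465866 3 eng mog cd3q1 cd6q2 pd1 false true false .dn 1 1 2
    ndB3q1 ndB6q2 pcB1 Cut.none Ext.none :=
  certB0 (fam := false) (s1 := true) (s2 := false) (a := 1) (b := 1) (c := 2) (cn := .dn) (n1 := ndB3q1) (n2 := ndB6q2) (pc := pcB1) (cut := Cut.none) (xt := Ext.none) (P1 := 536870912) (W1 := 536870912) (P2 := 1073741824) (W2 := 536870912) (P3 := 536870912) (W3 := 50465866) (N0 := 3) (En := eng) (mo := mog) (C1 := cd3q1) (C2 := cd6q2) (C3 := pd1)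
    rfl k0_pm_112

noncomputable def f_pm_113 : ℕ → ℕ → ℕ → ℕ → Bool := onCell 536870912 536870912 0 1230186008 536870912 50465866
    (rowB 3 eng mog cd3q1 cd6q3 pd1 0 false true false .nn 1 1 3 (qsf 536870912 536870912 0 1230186008 1) ndB3q1 ndB6q3 pcB1 Cut.none Ext.none)

def k0_pm_113 : ∃ t, chk3 f_pm_113 t 1 1 1 = true :=
  ⟨(b (a (l 2) (b (a (l 2) (l 16811280)) (l 4))) (l 4)), by decide +kernel⟩

theorem c_pm_113 : CertB 536870912 536870912 0 1230186008 536870912 50465866 3 eng mog cd3q1 cd6q3 pd1 false true false .nn 1 1 3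
    ndB3q1 ndB6q3 pcB1 Cut.none Ext.none :=
  certB0 (fam := false) (s1 := true) (s2 := false) (a := 1) (b := 1) (c := 3) (cn := .nn) (n1 := ndB3q1) (n2 := ndB6q3) (pc := pcB1) (cut := Cut.none) (xt := Ext.none) (P1 := 536870912) (W1 := 536870912) (P2 := 0) (W2 := 1230186008) (P3 := 536870912) (W3 := 50465866) (N0 := 3) (En := eng) (mo := mog) (C1 := cd3q1) (C2 := cd6q3) (C3 := pd1)
    rfl k0_pm_113

noncomputable def f_pm_123 : ℕ → ℕ → ℕ → ℕ → Bool := onCell 536870912 536870912 0 1230186008 536870912 50465866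
    (rowB 3 eng mog cd3q1 cd6q3 pd2 0 false true false .npn 1 2 3 (qsf 536870912 536870912 0 1230186008 2) ndB3q1 ndB6q3 pcB2 Cut.none Ext.none)

def k0_pm_123 : ∃ t, chk3 f_pm_123 t 1 1 1 = true :=
  ⟨(b (b (a (a (l 4) (l 16816896)) (a (l 16811192) (l 16803712))) (l 4)) (l 4)), by decide +kernel⟩

theorem c_pm_123 : CertB 536870912 536870912 0 1230186008 536870912 50465866 3 eng mog cd3q1 cd6q3 pd2 false true false .npn 1 2 3
    ndB3q1 ndB6q3 pcB2 Cut.none Ext.none :=
  certB0 (fam := false) (s1 := true) (s2 := false) (a := 1) (b := 2) (c := 3) (cn := .npn) (n1 := ndB3q1) (n2 := ndB6q3) (pc := pcB2) (cut := Cut.none) (xt := Ext.none) (P1 := 536870912) (W1 := 536870912) (P2 := 0) (W2 := 1230186008) (P3 := 536870912) (W3 := 50465866) (N0 := 3) (En := eng) (mo := mog) (C1 := cd3q1) (C2 := cd6q3) (C3 := pd2)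
    rfl k0_pm_123

noncomputable def f_pm_133 : ℕ → ℕ → ℕ → ℕ → Bool := onCell 1610612736 536870912 0 1230186008 536870912 50465866
    (rowB 3 eng mog cd3q1 cd6q3 pd3 2 false true false .dn 1 3 3 (qsf 536870912 536870912 0 1230186008 3) ndB3q1 ndB6q3 pcB3 Cut.none Ext.none)

def k0_pm_133 : ∃ t, chk3 f_pm_133 t 1 1 1 = true :=
  ⟨(b (b (l 4) (l 1)) (l 1)), by decide +kernel⟩

theorem c_pm_133 : CertB 536870912 536870912 0 1230186008 536870912 50465866 3 eng mog cd3q1 cd6q3 pd3 false true false .dn 1 3 3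
    ndB3q1 ndB6q3 pcB3 Cut.none Ext.none :=
  certB2 (fam := false) (s1 := true) (s2 := false) (a := 1) (b := 3) (c := 3) (cn := .dn) (n1 := ndB3q1) (n2 := ndB6q3) (pc := pcB3) (cut := Cut.none) (xt := Ext.none) (P1 := 536870912) (W1 := 536870912) (P2 := 0) (W2 := 1230186008) (P3 := 536870912) (W3 := 50465866) (N0 := 3) (En := eng) (mo := mog) (C1 := cd3q1) (C2 := cd6q3) (C3 := pd3)
    rfl (fun _ => rfl) k0_pm_133

noncomputable def f_pm_202_a : ℕ → ℕ → ℕ → ℕ → Bool := onCell 0 536870912 1073741824 536870912 536870912 50465866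
    (rowB 3 eng mog cd3q2a cd6q2 pd0 0 false true false .pp 2 0 2 (qsf 0 536870912 1073741824 536870912 0) ndB3q2a ndB6q2 pcB0 Cut.none Ext.none)

def k0_pm_202_a : ∃ t, chk3 f_pm_202_a t 1 1 1 = true :=
  ⟨(a (b (l 4) (b (b (a (l 16709680) (l 16727328)) (l 16779088)) (b (l 16846464) (a (l 16888376) (l 16883272))))) (b (l 4) (a (b (b (l 4) (l 85597163319)) (b (b (l 16834520) (l 16848248)) (l 16866168))) (b (l 4) (b (a (l 16839184) (l 16836680)) (a (l 16861320) (l 16858544))))))), by decide +kernel⟩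

theorem c_pm_202_a : CertB 0 536870912 1073741824 536870912 536870912 50465866 3 eng mog cd3q2a cd6q2 pd0 false true false .pp 2 0 2
    ndB3q2a ndB6q2 pcB0 Cut.none Ext.none :=
  certB0 (fam := false) (s1 := true) (s2 := false) (a := 2) (b := 0) (c := 2) (cn := .pp) (n1 := ndB3q2a) (n2 := ndB6q2) (pc := pcB0) (cut := Cut.none) (xt := Ext.none) (P1 := 0) (W1 := 536870912) (P2 := 1073741824) (W2 := 536870912) (P3 := 536870912) (W3 := 50465866) (N0 := 3) (En := eng) (mo := mog) (C1 := cd3q2a) (C2 := cd6q2) (C3 := pd0)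
    rfl k0_pm_202_a

noncomputable def f_pm_202_b : ℕ → ℕ → ℕ → ℕ → Bool := onCell 0 536870912 1073741824 536870912 536870912 50465866
    (rowB 3 eng mog cd3q2b cd6q2 pd0 2 false true false .pp 2 0 2 (qsf 1239849684 370763052 1073741824 536870912 0) ndB3q2b ndB6q2 pcB0 Cut.none Ext.none)

def k0_pm_202_b : ∃ t, chk3 f_pm_202_b t 1 1 1 = true :=
  ⟨(a (b (a (b (l 1) (a (b (l 4) (l 4)) (l 4))) (l 1)) (b (a (b (l 416645705591) (l 16711440)) (a (l 515966918375) (l 582002129031))) (a (b (l 16713616) (l 16670368)) (b (l 16765640) (l 16764904))))) (a (b (l 1) (b (l 1) (b (l 614751337799) (l 438657786423)))) (l 1))), by decide +kernel⟩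

theorem c_pm_202_b : CertB 1239849684 370763052 1073741824 536870912 536870912 50465866 3 eng mog cd3q2b cd6q2 pd0 false true false .pp 2 0 2
    ndB3q2b ndB6q2 pcB0 Cut.none Ext.none :=
  certB2 (fam := false) (s1 := true) (s2 := false) (a := 2) (b := 0) (c := 2) (cn := .pp) (n1 := ndB3q2b) (n2 := ndB6q2) (pc := pcB0) (cut := Cut.none) (xt := Ext.none) (P1 := 1239849684) (W1 := 370763052) (P2 := 1073741824) (W2 := 536870912) (P3 := 536870912) (W3 := 50465866) (N0 := 3) (En := eng) (mo := mog) (C1 := cd3q2b) (C2 := cd6q2) (C3 := pd0)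
    rfl (fun _ => rfl) k0_pm_202_b

noncomputable def f_pm_203_a : ℕ → ℕ → ℕ → ℕ → Bool := onCell 0 536870912 0 1230186008 536870912 50465866
    (rowB 3 eng mog cd3q2a cd6q3 pd0 0 false true false .up 2 0 3 (qsf 0 536870912 0 1230186008 0) ndB3q2a ndB6q3 pcB0 Cut.none Ext.none)

def k0_pm_203_a : ∃ t, chk3 f_pm_203_a t 1 1 1 = true :=
  ⟨(b (l 2) (b (l 2) (a (b (b (l 2) (a (l 16899400) (l 16903344))) (b (b (a (l 16893048) (l 16898224)) (a (l 16890912) (l 16905424))) (a (l 16886336) (b (l 16891472) (l 16884560))))) (b (l 2) (a (b (b (l 16887152) (l 16890232)) (b (l 16888248) (l 16878544))) (b (b (l 2) (a (l 16889424) (l 2))) (b (a (l 16885072) (l 16886424)) (a (l 16880136) (l 16875392))))))))), by decide +kernel⟩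

theorem c_pm_203_a : CertB 0 536870912 0 1230186008 536870912 50465866 3 eng mog cd3q2a cd6q3 pd0 false true false .up 2 0 3
    ndB3q2a ndB6q3 pcB0 Cut.none Ext.none :=
  certB0 (fam := false) (s1 := true) (s2 := false) (a := 2) (b := 0) (c := 3) (cn := .up) (n1 := ndB3q2a) (n2 := ndB6q3) (pc := pcB0) (cut := Cut.none) (xt := Ext.none) (P1 := 0) (W1 := 536870912) (P2 := 0) (W2 := 1230186008) (P3 := 536870912) (W3 := 50465866) (N0 := 3) (En := eng) (mo := mog) (C1 := cd3q2a) (C2 := cd6q3) (C3 := pd0)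
    rfl k0_pm_203_a

noncomputable def f_pm_203_b : ℕ → ℕ → ℕ → ℕ → Bool := onCell 0 536870912 0 1230186008 536870912 50465866
    (rowB 3 eng mog cd3q2b cd6q3 pd0 2 false true false .up 2 0 3 (qsf 1239849684 370763052 0 1230186008 0) ndB3q2b ndB6q3 pcB0 Cut.none Ext.none)

def k0_pm_203_b : ∃ t, chk3 f_pm_203_b t 1 1 1 = true :=
  ⟨(b (a (l 2) (a (l 2) (b (l 3) (b (l 3) (a (l 3) (l 206326720855)))))) (b (a (a (l 2) (b (l 2) (a (l 2) (b (l 2) (l 16718928))))) (a (b (a (l 2) (l 175724784855)) (b (a (l 16760280) (l 16772520)) (l 16738424))) (b (a (l 16980664) (l 17057424)) (b (l 16778928) (l 16739120))))) (a (b (a (l 2) (b (l 97811067479) (l 16607968))) (a (b (l 16416864) (l 16515456)) (b (l 16520856) (l 16706176)))) (a (b (b (l 16692632) (l 16646568)) (b (l 16748312) (l 16834248))) (b (a (l 16720800) (l 16870472)) (a (b (l 16900104) (l 16863064)) (b (l 16866296) (l 1)))))))), by decide +kernel⟩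

theorem c_pm_203_b : CertB 1239849684 370763052 0 1230186008 536870912 50465866 3 eng mog cd3q2b cd6q3 pd0 false true false .up 2 0 3
    ndB3q2b ndB6q3 pcB0 Cut.none Ext.none :=
  certB2 (fam := false) (s1 := true) (s2 := false) (a := 2) (b := 0) (c := 3) (cn := .up) (n1 := ndB3q2b) (n2 := ndB6q3) (pc := pcB0) (cut := Cut.none) (xt := Ext.none) (P1 := 1239849684) (W1 := 370763052) (P2 := 0) (W2 := 1230186008) (P3 := 536870912) (W3 := 50465866) (N0 := 3) (En := eng) (mo := mog) (C1 := cd3q2b) (C2 := cd6q3) (C3 := pd0)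
    rfl (fun _ => rfl) k0_pm_203_b

noncomputable def cut_pm_213_a : Cut := Cut.of [[⟨0, 1, 0, 67108864⟩, ⟨1, 1, 0, 67108864⟩, ⟨2, 2, 0, 16777216⟩]]

noncomputable def f_pm_213_a : ℕ → ℕ → ℕ → ℕ → Bool := onCell 0 536870912 0 1230186008 536870912 50465866
    (rowB 3 eng mog cd3q2a cd6q3 pd1 0 false true false .pnn 2 1 3 (qsf 0 536870912 0 1230186008 1) ndB3q2a ndB6q3 pcB1 cut_pm_213_a Ext.none)

def k0_pm_213_a : ∃ t, chk3 f_pm_213_a t 1 1 1 = true :=
  ⟨(b (a (b (b (l 3) (a (b (l 3) (l 337322872999)) (a (l 301889312023) (b (l 330343371527) (l 16772720))))) (a (b (b (l 16824464) (l 16769656)) (l 16767528)) (b (a (l 16980976) (l 17028776)) (l 16773496)))) (b (a (b (b (l 3) (a (l 3) (b (l 3) (l 301889258071)))) (b (a (b (l 302426222663) (l 16773248)) (b (l 16774072) (l 16775264))) (a (l 16774944) (l 16901640)))) (b (a (a (b (l 3) (l 283635659095)) (l 6)) (l 6)) (a (b (a (l 16775984) (l 16778216)) (l 16909336)) (b (a (l 16783240) (l 16784680)) (l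 16788888))))) (a (b (b (a (l 16776776) (l 16783920)) (l 16782872)) (l 16787288)) (b (a (l 16791744) (l 16801392)) (a (l 16804872) (l 16819648)))))) (b (a (b (b (l 16766384) (l 16894544)) (b (l 16776032) (l 16810416))) (b (a (l 16846816) (l 16830296)) (a (b (l 16801392) (l 16815248)) (a (l 16828616) (l 16850528))))) (a (b (b (l 16872184) (a (l 16907536) (l 16902192))) (b (a (l 1) (b (l 16875472) (l 1))) (l 1))) (b (a (b (l 16856624) (l 16931152)) (b (l 16854984) (l 16877040))) (a (b (b (l 16882208) (l 16875664)) (l 1)) (b (b (l 16884256) (a (l 16884048) (l 16883616))) (a (b (l 16878968) (l 1)) (b (l 16878664) (l 16872704))))))))), by decide +kernel⟩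

theorem c_pm_213_a : CertB 0 536870912 0 1230186008 536870912 50465866 3 eng mog cd3q2a cd6q3 pd1 false true false .pnn 2 1 3
    ndB3q2a ndB6q3 pcB1 cut_pm_213_a Ext.none :=
  certB0 (fam := false) (s1 := true) (s2 := false) (a := 2) (b := 1) (c := 3) (cn := .pnn) (n1 := ndB3q2a) (n2 := ndB6q3) (pc := pcB1) (cut := cut_pm_213_a) (xt := Ext.none) (P1 := 0) (W1 := 536870912) (P2 := 0) (W2 := 1230186008) (P3 := 536870912) (W3 := 50465866) (N0 := 3) (En := eng) (mo := mog) (C1 := cd3q2a) (C2 := cd6q3) (C3 := pd1)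
    rfl k0_pm_213_a

noncomputable def cut_pm_213_b : Cut := Cut.of [[⟨0, 1, 0, 67108864⟩, ⟨1, 1, 0, 67108864⟩, ⟨2, 2, 0, 16777216⟩]]

noncomputable def f_pm_213_b : ℕ → ℕ → ℕ → ℕ → Bool := onCell 536870912 536870912 0 1230186008 536870912 50465866
    (rowB 3 eng mog cd3q2b cd6q3 pd1 2 false true false .pnn 2 1 3 (qsf 1239849684 370763052 0 1230186008 1) ndB3q2b ndB6q3 pcB1 cut_pm_213_b Ext.none)

def k0_pm_213_b : ∃ t, chk3 f_pm_213_b t 1 1 1 = true :=
  ⟨(b (a (b (l 3) (a (b (l 3) (a (l 185925716759) (b (l 16790608) (l 16790344)))) (b (a (l 191831145543) (l 176261867271)) (a (b (l 16759136) (l 16765208)) (b (l 16751568) (l 16773504)))))) (a (b (b (l 3) (a (l 3) (a (l 3) (l 1)))) (b (a (b (l 241760002919) (l 16868600)) (b (a (l 16807120) (l 1)) (l 1))) (a (b (l 16794272) (l 16762848)) (l 1)))) (l 1))) (b (a (a (b (b (a (l 16822656) (l 16784264)) (l 16785992)) (b (l 16772048) (l 16862488))) (b (a (b (l 16774888) (l 16757680)) (l 16758640)) (a (l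 16770120) (l 1)))) (l 1)) (a (a (b (a (l 16899336) (l 16959584)) (l 1)) (l 1)) (l 1)))), by decide +kernel⟩

theorem c_pm_213_b : CertB 1239849684 370763052 0 1230186008 536870912 50465866 3 eng mog cd3q2b cd6q3 pd1 false true false .pnn 2 1 3
    ndB3q2b ndB6q3 pcB1 cut_pm_213_b Ext.none :=
  certB2 (fam := false) (s1 := true) (s2 := false) (a := 2) (b := 1) (c := 3) (cn := .pnn) (n1 := ndB3q2b) (n2 := ndB6q3) (pc := pcB1) (cut := cut_pm_213_b) (xt := Ext.none) (P1 := 1239849684) (W1 := 370763052) (P2 := 0) (W2 := 1230186008) (P3 := 536870912) (W3 := 50465866) (N0 := 3) (En := eng) (mo := mog) (C1 := cd3q2b) (C2 := cd6q3) (C3 := pd1)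
    rfl (fun _ => rfl) k0_pm_213_b

noncomputable def f_pm_303 : ℕ → ℕ → ℕ → ℕ → Bool := onCell 0 536870912 0 1230186008 536870912 50465866
    (rowB 3 eng mog cd3q3 cd6q3 pd0 2 false true false .npn 3 0 3 (qsf 1610612736 536870912 0 1230186008 0) ndB3q3 ndB6q3 pcB0 Cut.none Ext.none)

def k0_pm_303 : ∃ t, chk3 f_pm_303 t 1 1 1 = true :=
  ⟨(b (a (l 3) (a (l 3) (b (l 3) (b (l 3) (a (l 3) (l 209011074247)))))) (b (a (a (b (l 3) (b (a (l 16748992) (l 16752600)) (a (b (l 16749952) (l 16717120)) (b (l 16735248) (l 16721408))))) (b (a (l 183778133063) (l 182167542647)) (a (b (l 16758128) (b (l 16741360) (l 16728360))) (b (b (l 16771168) (l 16761888)) (l 16738080))))) (a (b (a (l 181629726823) (l 173040506439)) (a (b (l 16775952) (l 16746400)) (l 16770968))) (b (a (l 16867824) (l 1)) (l 1)))) (a (b (a (b (l 16688448) (l 16587952)) (b (l 16693784) (l 16625944))) (a (b (l 16454400) (l 16504440)) (b (l 16535552) (l 1)))) (l 1)))), by decide +kernel⟩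

theorem c_pm_303 : CertB 1610612736 536870912 0 1230186008 536870912 50465866 3 eng mog cd3q3 cd6q3 pd0 false true false .npn 3 0 3
    ndB3q3 ndB6q3 pcB0 Cut.none Ext.none :=
  certB2 (fam := false) (s1 := true) (s2 := false) (a := 3) (b := 0) (c := 3) (cn := .npn) (n1 := ndB3q3) (n2 := ndB6q3) (pc := pcB0) (cut := Cut.none) (xt := Ext.none) (P1 := 1610612736) (W1 := 536870912) (P2 := 0) (W2 := 1230186008) (P3 := 536870912) (W3 := 50465866) (N0 := 3) (En := eng) (mo := mog) (C1 := cd3q3) (C2 := cd6q3) (C3 := pd0)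
    rfl (fun _ => rfl) k0_pm_303

noncomputable def f_pm_313 : ℕ → ℕ → ℕ → ℕ → Bool := onCell 1610612736 536870912 0 1230186008 536870912 50465866
    (rowB 3 eng mog cd3q3 cd6q3 pd1 0 false true false .dn 3 1 3 (qsf 1610612736 536870912 0 1230186008 1) ndB3q3 ndB6q3 pcB1 Cut.none Ext.none)

def k0_pm_313 : ∃ t, chk3 f_pm_313 t 1 1 1 = true :=
  ⟨(b (b (l 3) (l 1)) (l 1)), by decide +kernel⟩

theorem c_pm_313 : CertB 1610612736 536870912 0 1230186008 536870912 50465866 3 eng mog cd3q3 cd6q3 pd1 false true false .dn 3 1 3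
    ndB3q3 ndB6q3 pcB1 Cut.none Ext.none :=
  certB0 (fam := false) (s1 := true) (s2 := false) (a := 3) (b := 1) (c := 3) (cn := .dn) (n1 := ndB3q3) (n2 := ndB6q3) (pc := pcB1) (cut := Cut.none) (xt := Ext.none) (P1 := 1610612736) (W1 := 536870912) (P2 := 0) (W2 := 1230186008) (P3 := 536870912) (W3 := 50465866) (N0 := 3) (En := eng) (mo := mog) (C1 := cd3q3) (C2 := cd6q3) (C3 := pd1)
    rfl k0_pm_313

noncomputable def f_mm_001 : ℕ → ℕ → ℕ → ℕ → Bool := onCell 0 536870912 0 536870912 536870912 50465866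
    (rowB 3 eng mog cd3q0 cd6q1 pd0 1 false false false .up 0 0 1 (qsf 0 536870912 536870912 536870912 0) ndB3q0 ndB6q1 pcB0 Cut.none Ext.none)

def k0_mm_001 : ∃ t, chk3 f_mm_001 t 1 1 1 = true :=
  ⟨(l 3), by decide +kernel⟩

theorem c_mm_001 : CertB 0 536870912 536870912 536870912 536870912 50465866 3 eng mog cd3q0 cd6q1 pd0 false false false .up 0 0 1
    ndB3q0 ndB6q1 pcB0 Cut.none Ext.none :=
  certB1 (fam := false) (s1 := false) (s2 := false) (a := 0) (b := 0) (c := 1) (cn := .up) (n1 := ndB3q0) (n2 := ndB6q1) (pc := pcB0) (cut := Cut.none) (xt := Ext.none) (P1 := 0) (W1 := 536870912) (P2 := 536870912) (W2 := 536870912) (P3 := 536870912) (W3 := 50465866) (N0 := 3) (En := eng) (mo := mog) (C1 := cd3q0) (C2 := cd6q1) (C3 := pd0)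
    rfl (fun _ => rfl) k0_mm_001

noncomputable def f_mm_011 : ℕ → ℕ → ℕ → ℕ → Bool := onCell 0 536870912 536870912 536870912 536870912 50465866
    (rowB 3 eng mog cd3q0 cd6q1 pd1 1 false false false .pnn 0 1 1 (qsf 0 536870912 536870912 536870912 1) ndB3q0 ndB6q1 pcB1 Cut.none Ext.none)

def k0_mm_011 : ∃ t, chk3 f_mm_011 t 1 1 1 = true :=
  ⟨(l 5), by decide +kernel⟩

theorem c_mm_011 : CertB 0 536870912 536870912 536870912 536870912 50465866 3 eng mog cd3q0 cd6q1 pd1 false false false .pnn 0 1 1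
    ndB3q0 ndB6q1 pcB1 Cut.none Ext.none :=
  certB1 (fam := false) (s1 := false) (s2 := false) (a := 0) (b := 1) (c := 1) (cn := .pnn) (n1 := ndB3q0) (n2 := ndB6q1) (pc := pcB1) (cut := Cut.none) (xt := Ext.none) (P1 := 0) (W1 := 536870912) (P2 := 536870912) (W2 := 536870912) (P3 := 536870912) (W3 := 50465866) (N0 := 3) (En := eng) (mo := mog) (C1 := cd3q0) (C2 := cd6q1) (C3 := pd1)
    rfl (fun _ => rfl) k0_mm_011

noncomputable def f_mm_012 : ℕ → ℕ → ℕ → ℕ → Bool := onCell 0 536870912 1073741824 536870912 536870912 50465866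
    (rowB 3 eng mog cd3q0 cd6q2 pd1 0 false false false .pnp 0 1 2 (qsf 0 536870912 1073741824 536870912 1) ndB3q0 ndB6q2 pcB1 Cut.none Ext.none)

def k0_mm_012 : ∃ t, chk3 f_mm_012 t 1 1 1 = true :=
  ⟨(l 5), by decide +kernel⟩

theorem c_mm_012 : CertB 0 536870912 1073741824 536870912 536870912 50465866 3 eng mog cd3q0 cd6q2 pd1 false false false .pnp 0 1 2
    ndB3q0 ndB6q2 pcB1 Cut.none Ext.none :=
  certB0 (fam := false) (s1 := false) (s2 := false) (a := 0) (b := 1) (c := 2) (cn := .pnp) (n1 := ndB3q0) (n2 := ndB6q2) (pc := pcB1) (cut := Cut.none) (xt := Ext.none) (P1 := 0) (W1 := 536870912) (P2 := 1073741824) (W2 := 536870912) (P3 := 536870912) (W3 := 50465866) (N0 := 3) (En := eng) (mo := mog) (C1 := cd3q0) (C2 := cd6q2) (C3 := pd1)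
    rfl k0_mm_012

noncomputable def f_mm_022 : ℕ → ℕ → ℕ → ℕ → Bool := onCell 0 536870912 1073741824 536870912 536870912 50465866
    (rowB 3 eng mog cd3q0 cd6q2 pd2 0 false false false .pp 0 2 2 (qsf 0 536870912 1073741824 536870912 2) ndB3q0 ndB6q2 pcB2 Cut.none Ext.none)

def k0_mm_022 : ∃ t, chk3 f_mm_022 t 1 1 1 = true :=
  ⟨(l 5), by decide +kernel⟩

theorem c_mm_022 : CertB 0 536870912 1073741824 536870912 536870912 50465866 3 eng mog cd3q0 cd6q2 pd2 false false false .pp 0 2 2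
    ndB3q0 ndB6q2 pcB2 Cut.none Ext.none :=
  certB0 (fam := false) (s1 := false) (s2 := false) (a := 0) (b := 2) (c := 2) (cn := .pp) (n1 := ndB3q0) (n2 := ndB6q2) (pc := pcB2) (cut := Cut.none) (xt := Ext.none) (P1 := 0) (W1 := 536870912) (P2 := 1073741824) (W2 := 536870912) (P3 := 536870912) (W3 := 50465866) (N0 := 3) (En := eng) (mo := mog) (C1 := cd3q0) (C2 := cd6q2) (C3 := pd2)
    rfl k0_mm_022

noncomputable def f_mm_023 : ℕ → ℕ → ℕ → ℕ → Bool := onCell 0 536870912 0 1230186008 536870912 50465866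
    (rowB 3 eng mog cd3q0 cd6q3 pd2 0 false false false .up 0 2 3 (qsf 0 536870912 0 1230186008 2) ndB3q0 ndB6q3 pcB2 Cut.none Ext.none)

def k0_mm_023 : ∃ t, chk3 f_mm_023 t 1 1 1 = true :=
  ⟨(l 5), by decide +kernel⟩

theorem c_mm_023 : CertB 0 536870912 0 1230186008 536870912 50465866 3 eng mog cd3q0 cd6q3 pd2 false false false .up 0 2 3
    ndB3q0 ndB6q3 pcB2 Cut.none Ext.none :=
  certB0 (fam := false) (s1 := false) (s2 := false) (a := 0) (b := 2) (c := 3) (cn := .up) (n1 := ndB3q0) (n2 := ndB6q3) (pc := pcB2) (cut := Cut.none) (xt := Ext.none) (P1 := 0) (W1 := 536870912) (P2 := 0) (W2 := 1230186008) (P3 := 536870912) (W3 := 50465866) (N0 := 3) (En := eng) (mo := mog) (C1 := cd3q0) (C2 := cd6q3) (C3 := pd2)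
    rfl k0_mm_023

noncomputable def f_mm_033 : ℕ → ℕ → ℕ → ℕ → Bool := onCell 0 536870912 0 1230186008 536870912 50465866
    (rowB 3 eng mog cd3q0 cd6q3 pd3 0 false false false .pnn 0 3 3 (qsf 0 536870912 0 1230186008 3) ndB3q0 ndB6q3 pcB3 Cut.none Ext.none)

def k0_mm_033 : ∃ t, chk3 f_mm_033 t 1 1 1 = true :=
  ⟨(l 5), by decide +kernel⟩

theorem c_mm_033 : CertB 0 536870912 0 1230186008 536870912 50465866 3 eng mog cd3q0 cd6q3 pd3 false false false .pnn 0 3 3
    ndB3q0 ndB6q3 pcB3 Cut.none Ext.none :=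
  certB0 (fam := false) (s1 := false) (s2 := false) (a := 0) (b := 3) (c := 3) (cn := .pnn) (n1 := ndB3q0) (n2 := ndB6q3) (pc := pcB3) (cut := Cut.none) (xt := Ext.none) (P1 := 0) (W1 := 536870912) (P2 := 0) (W2 := 1230186008) (P3 := 536870912) (W3 := 50465866) (N0 := 3) (En := eng) (mo := mog) (C1 := cd3q0) (C2 := cd6q3) (C3 := pd3)
    rfl k0_mm_033

noncomputable def f_mm_101 : ℕ → ℕ → ℕ → ℕ → Bool := onCell 536870912 536870912 536870912 536870912 536870912 50465866
    (rowB 3 eng mog cd3q1 cd6q1 pd0 0 false false false .npn 1 0 1 (qsf 536870912 536870912 536870912 536870912 0) ndB3q1 ndB6q1 pcB0 Cut.none Ext.none)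

def k0_mm_101 : ∃ t, chk3 f_mm_101 t 1 1 1 = true :=
  ⟨(l 3), by decide +kernel⟩

theorem c_mm_101 : CertB 536870912 536870912 536870912 536870912 536870912 50465866 3 eng mog cd3q1 cd6q1 pd0 false false false .npn 1 0 1
    ndB3q1 ndB6q1 pcB0 Cut.none Ext.none :=
  certB0 (fam := false) (s1 := false) (s2 := false) (a := 1) (b := 0) (c := 1) (cn := .npn) (n1 := ndB3q1) (n2 := ndB6q1) (pc := pcB0) (cut := Cut.none) (xt := Ext.none) (P1 := 536870912) (W1 := 536870912) (P2 := 536870912) (W2 := 536870912) (P3 := 536870912) (W3 := 50465866) (N0 := 3) (En := eng) (mo := mog) (C1 := cd3q1) (C2 := cd6q1) (C3 := pd0)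
    rfl k0_mm_101

noncomputable def f_mm_102 : ℕ → ℕ → ℕ → ℕ → Bool := onCell 536870912 536870912 1073741824 536870912 536870912 50465866
    (rowB 3 eng mog cd3q1 cd6q2 pd0 0 false false false .npp 1 0 2 (qsf 536870912 536870912 1073741824 536870912 0) ndB3q1 ndB6q2 pcB0 Cut.none Ext.none)

def k0_mm_102 : ∃ t, chk3 f_mm_102 t 1 1 1 = true :=
  ⟨(l 3), by decide +kernel⟩

theorem c_mm_102 : CertB 536870912 536870912 1073741824 536870912 536870912 50465866 3 eng mog cd3q1 cd6q2 pd0 false false false .npp 1 0 2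
    ndB3q1 ndB6q2 pcB0 Cut.none Ext.none :=
  certB0 (fam := false) (s1 := false) (s2 := false) (a := 1) (b := 0) (c := 2) (cn := .npp) (n1 := ndB3q1) (n2 := ndB6q2) (pc := pcB0) (cut := Cut.none) (xt := Ext.none) (P1 := 536870912) (W1 := 536870912) (P2 := 1073741824) (W2 := 536870912) (P3 := 536870912) (W3 := 50465866) (N0 := 3) (En := eng) (mo := mog) (C1 := cd3q1) (C2 := cd6q2) (C3 := pd0)
    rfl k0_mm_102

noncomputable def f_mm_112 : ℕ → ℕ → ℕ → ℕ → Bool := onCell 536870912 536870912 1073741824 536870912 536870912 50465866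
    (rowB 3 eng mog cd3q1 cd6q2 pd1 0 false false false .dn 1 1 2 (qsf 536870912 536870912 1073741824 536870912 1) ndB3q1 ndB6q2 pcB1 Cut.none Ext.none)

def k0_mm_112 : ∃ t, chk3 f_mm_112 t 1 1 1 = true :=
  ⟨(l 3), by decide +kernel⟩

theorem c_mm_112 : CertB 536870912 536870912 1073741824 536870912 536870912 50465866 3 eng mog cd3q1 cd6q2 pd1 false false false .dn 1 1 2
    ndB3q1 ndB6q2 pcB1 Cut.none Ext.none :=
  certB0 (fam := false) (s1 := false) (s2 := false) (a := 1) (b := 1) (c := 2) (cn := .dn) (n1 := ndB3q1) (n2 := ndB6q2) (pc := pcB1) (cut := Cut.none) (xt := Ext.none) (P1 := 536870912) (W1 := 536870912) (P2 := 1073741824) (W2 := 536870912) (P3 := 536870912) (W3 := 50465866) (N0 := 3) (En := eng) (mo := mog) (C1 := cd3q1) (C2 := cd6q2) (C3 := pd1)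
    rfl k0_mm_112

noncomputable def f_mm_113 : ℕ → ℕ → ℕ → ℕ → Bool := onCell 536870912 536870912 0 1230186008 536870912 50465866
    (rowB 3 eng mog cd3q1 cd6q3 pd1 0 false false false .nn 1 1 3 (qsf 536870912 536870912 0 1230186008 1) ndB3q1 ndB6q3 pcB1 Cut.none Ext.none)

def k0_mm_113 : ∃ t, chk3 f_mm_113 t 1 1 1 = true :=
  ⟨(l 5), by decide +kernel⟩

theorem c_mm_113 : CertB 536870912 536870912 0 1230186008 536870912 50465866 3 eng mog cd3q1 cd6q3 pd1 false false false .nn 1 1 3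
    ndB3q1 ndB6q3 pcB1 Cut.none Ext.none :=
  certB0 (fam := false) (s1 := false) (s2 := false) (a := 1) (b := 1) (c := 3) (cn := .nn) (n1 := ndB3q1) (n2 := ndB6q3) (pc := pcB1) (cut := Cut.none) (xt := Ext.none) (P1 := 536870912) (W1 := 536870912) (P2 := 0) (W2 := 1230186008) (P3 := 536870912) (W3 := 50465866) (N0 := 3) (En := eng) (mo := mog) (C1 := cd3q1) (C2 := cd6q3) (C3 := pd1)
    rfl k0_mm_113

noncomputable def f_mm_123 : ℕ → ℕ → ℕ → ℕ → Bool := onCell 536870912 536870912 0 1230186008 536870912 50465866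
    (rowB 3 eng mog cd3q1 cd6q3 pd2 0 false false false .npn 1 2 3 (qsf 536870912 536870912 0 1230186008 2) ndB3q1 ndB6q3 pcB2 Cut.none Ext.none)

def k0_mm_123 : ∃ t, chk3 f_mm_123 t 1 1 1 = true :=
  ⟨(l 5), by decide +kernel⟩

theorem c_mm_123 : CertB 536870912 536870912 0 1230186008 536870912 50465866 3 eng mog cd3q1 cd6q3 pd2 false false false .npn 1 2 3
    ndB3q1 ndB6q3 pcB2 Cut.none Ext.none :=
  certB0 (fam := false) (s1 := false) (s2 := false) (a := 1) (b := 2) (c := 3) (cn := .npn) (n1 := ndB3q1) (n2 := ndB6q3) (pc := pcB2) (cut := Cut.none) (xt := Ext.none) (P1 := 536870912) (W1 := 536870912) (P2 := 0) (W2 := 1230186008) (P3 := 536870912) (W3 := 50465866) (N0 := 3) (En := eng) (mo := mog) (C1 := cd3q1) (C2 := cd6q3) (C3 := pd2)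
    rfl k0_mm_123

noncomputable def f_mm_133 : ℕ → ℕ → ℕ → ℕ → Bool := onCell 536870912 536870912 0 1230186008 536870912 50465866
    (rowB 3 eng mog cd3q1 cd6q3 pd3 0 false false false .dn 1 3 3 (qsf 536870912 536870912 0 1230186008 3) ndB3q1 ndB6q3 pcB3 Cut.none Ext.none)

def k0_mm_133 : ∃ t, chk3 f_mm_133 t 1 1 1 = true :=
  ⟨(l 5), by decide +kernel⟩

theorem c_mm_133 : CertB 536870912 536870912 0 1230186008 536870912 50465866 3 eng mog cd3q1 cd6q3 pd3 false false false .dn 1 3 3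
    ndB3q1 ndB6q3 pcB3 Cut.none Ext.none :=
  certB0 (fam := false) (s1 := false) (s2 := false) (a := 1) (b := 3) (c := 3) (cn := .dn) (n1 := ndB3q1) (n2 := ndB6q3) (pc := pcB3) (cut := Cut.none) (xt := Ext.none) (P1 := 536870912) (W1 := 536870912) (P2 := 0) (W2 := 1230186008) (P3 := 536870912) (W3 := 50465866) (N0 := 3) (En := eng) (mo := mog) (C1 := cd3q1) (C2 := cd6q3) (C3 := pd3)
    rfl k0_mm_133

noncomputable def cut_mm_202_a : Cut := Cut.of [[⟨0, 1, 0, 67108864⟩, ⟨1, 0, 0, 67108864⟩, ⟨2, 1, 0, 67108864⟩]]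

noncomputable def f_mm_202_a : ℕ → ℕ → ℕ → ℕ → Bool := onCell 0 536870912 0 536870912 536870912 50465866
    (rowB 3 eng mog cd3q2a cd6q2 pd0 1 false false false .pp 2 0 2 (qsf 0 536870912 1073741824 536870912 0) ndB3q2a ndB6q2 pcB0 cut_mm_202_a Ext.none)

def k0_mm_202_a : ∃ t, chk3 f_mm_202_a t 1 1 1 = true :=
  ⟨(a (b (b (b (b (a (b (b (a (l 16497408) (a (l 16556904) (l 16542128))) (a (a (a (l 16541136) (l 16520208)) (a (l 16500208) (l 16540952))) (a (l 16544968) (l 16487968)))) (a (b (b (a (l 16486272) (l 16484288)) (l 82845449527)) (a (b (l 16489648) (l 16492552)) (l 16493512))) (l 83382329335))) (b (a (a (b (l 16508912) (l 3)) (l 3)) (l 3)) (l 3))) (a (b (a (a (l 101635916695) (l 3)) (l 3)) (l 3)) (l 3))) (l 3)) (l 3)) (l 3)) (b (b (b (a (l 3) (b (a (l 3) (b (l 6) (l 3))) (l 3))) (l 3)) (l 3)) (l 3))), by decide +kernel⟩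

theorem c_mm_202_a : CertB 0 536870912 1073741824 536870912 536870912 50465866 3 eng mog cd3q2a cd6q2 pd0 false false false .pp 2 0 2
    ndB3q2a ndB6q2 pcB0 cut_mm_202_a Ext.none :=
  certB1 (fam := false) (s1 := false) (s2 := false) (a := 2) (b := 0) (c := 2) (cn := .pp) (n1 := ndB3q2a) (n2 := ndB6q2) (pc := pcB0) (cut := cut_mm_202_a) (xt := Ext.none) (P1 := 0) (W1 := 536870912) (P2 := 1073741824) (W2 := 536870912) (P3 := 536870912) (W3 := 50465866) (N0 := 3) (En := eng) (mo := mog) (C1 := cd3q2a) (C2 := cd6q2) (C3 := pd0)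
    rfl (fun _ => rfl) k0_mm_202_a

noncomputable def cut_mm_202_b : Cut := Cut.of [[⟨0, 1, 0, 67108864⟩, ⟨1, 0, 0, 67108864⟩, ⟨2, 1, 0, 67108864⟩]]

noncomputable def f_mm_202_b : ℕ → ℕ → ℕ → ℕ → Bool := onCell 1239849684 370763052 0 536870912 536870912 50465866
    (rowB 3 eng mog cd3q2b cd6q2 pd0 1 false false false .pp 2 0 2 (qsf 1239849684 370763052 1073741824 536870912 0) ndB3q2b ndB6q2 pcB0 cut_mm_202_b Ext.none)

def k0_mm_202_b : ∃ t, chk3 f_mm_202_b t 1 1 1 = true :=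
  ⟨(b (a (b (b (a (b (a (b (a (b (l 16455552) (b (a (l 16468592) (l 16445200)) (a (l 16470464) (l 16468664)))) (a (b (l 16478736) (l 16445584)) (l 91435284487))) (a (b (a (a (l 16525000) (l 16467880)) (l 16453184)) (a (b (l 16478968) (l 16481784)) (l 16460024))) (l 156933510631))) (l 3)) (a (b (a (a (l 101099020823) (l 3)) (l 3)) (l 3)) (l 3))) (l 3)) (l 3)) (l 3)) (l 3)) (a (l 3) (l 2))), by decide +kernel⟩

theorem c_mm_202_b : CertB 1239849684 370763052 1073741824 536870912 536870912 50465866 3 eng mog cd3q2b cd6q2 pd0 false false false .pp 2 0 2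
    ndB3q2b ndB6q2 pcB0 cut_mm_202_b Ext.none :=
  certB1 (fam := false) (s1 := false) (s2 := false) (a := 2) (b := 0) (c := 2) (cn := .pp) (n1 := ndB3q2b) (n2 := ndB6q2) (pc := pcB0) (cut := cut_mm_202_b) (xt := Ext.none) (P1 := 1239849684) (W1 := 370763052) (P2 := 1073741824) (W2 := 536870912) (P3 := 536870912) (W3 := 50465866) (N0 := 3) (En := eng) (mo := mog) (C1 := cd3q2b) (C2 := cd6q2) (C3 := pd0)
    rfl (fun _ => rfl) k0_mm_202_b

noncomputable def f_mm_203_a : ℕ → ℕ → ℕ → ℕ → Bool := onCell 0 536870912 0 1230186008 536870912 50465866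
    (rowB 3 eng mog cd3q2a cd6q3 pd0 0 false false false .up 2 0 3 (qsf 0 536870912 0 1230186008 0) ndB3q2a ndB6q3 pcB0 Cut.none Ext.none)

def k0_mm_203_a : ∃ t, chk3 f_mm_203_a t 1 1 1 = true :=
  ⟨(b (l 2) (l 3)), by decide +kernel⟩

theorem c_mm_203_a : CertB 0 536870912 0 1230186008 536870912 50465866 3 eng mog cd3q2a cd6q3 pd0 false false false .up 2 0 3
    ndB3q2a ndB6q3 pcB0 Cut.none Ext.none :=
  certB0 (fam := false) (s1 := false) (s2 := false) (a := 2) (b := 0) (c := 3) (cn := .up) (n1 := ndB3q2a) (n2 := ndB6q3) (pc := pcB0) (cut := Cut.none) (xt := Ext.none) (P1 := 0) (W1 := 536870912) (P2 := 0) (W2 := 1230186008) (P3 := 536870912) (W3 := 50465866) (N0 := 3) (En := eng) (mo := mog) (C1 := cd3q2a) (C2 := cd6q3) (C3 := pd0)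
    rfl k0_mm_203_a

noncomputable def f_mm_203_b : ℕ → ℕ → ℕ → ℕ → Bool := onCell 1239849684 370763052 0 1230186008 536870912 50465866
    (rowB 3 eng mog cd3q2b cd6q3 pd0 0 false false false .up 2 0 3 (qsf 1239849684 370763052 0 1230186008 0) ndB3q2b ndB6q3 pcB0 Cut.none Ext.none)

def k0_mm_203_b : ∃ t, chk3 f_mm_203_b t 1 1 1 = true :=
  ⟨(b (l 3) (l 3)), by decide +kernel⟩

theorem c_mm_203_b : CertB 1239849684 370763052 0 1230186008 536870912 50465866 3 eng mog cd3q2b cd6q3 pd0 false false false .up 2 0 3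
    ndB3q2b ndB6q3 pcB0 Cut.none Ext.none :=
  certB0 (fam := false) (s1 := false) (s2 := false) (a := 2) (b := 0) (c := 3) (cn := .up) (n1 := ndB3q2b) (n2 := ndB6q3) (pc := pcB0) (cut := Cut.none) (xt := Ext.none) (P1 := 1239849684) (W1 := 370763052) (P2 := 0) (W2 := 1230186008) (P3 := 536870912) (W3 := 50465866) (N0 := 3) (En := eng) (mo := mog) (C1 := cd3q2b) (C2 := cd6q3) (C3 := pd0)
    rfl k0_mm_203_b

noncomputable def f_mm_213_a : ℕ → ℕ → ℕ → ℕ → Bool := onCell 0 536870912 0 1230186008 536870912 50465866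
    (rowB 3 eng mog cd3q2a cd6q3 pd1 0 false false false .pnn 2 1 3 (qsf 0 536870912 0 1230186008 1) ndB3q2a ndB6q3 pcB1 Cut.none Ext.none)

def k0_mm_213_a : ∃ t, chk3 f_mm_213_a t 1 1 1 = true :=
  ⟨(b (l 5) (l 3)), by decide +kernel⟩

theorem c_mm_213_a : CertB 0 536870912 0 1230186008 536870912 50465866 3 eng mog cd3q2a cd6q3 pd1 false false false .pnn 2 1 3
    ndB3q2a ndB6q3 pcB1 Cut.none Ext.none :=
  certB0 (fam := false) (s1 := false) (s2 := false) (a := 2) (b := 1) (c := 3) (cn := .pnn) (n1 := ndB3q2a) (n2 := ndB6q3) (pc := pcB1) (cut := Cut.none) (xt := Ext.none) (P1 := 0) (W1 := 536870912) (P2 := 0) (W2 := 1230186008) (P3 := 536870912) (W3 := 50465866) (N0 := 3) (En := eng) (mo := mog) (C1 := cd3q2a) (C2 := cd6q3) (C3 := pd1)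
    rfl k0_mm_213_a

noncomputable def f_mm_213_b : ℕ → ℕ → ℕ → ℕ → Bool := onCell 1239849684 370763052 0 1230186008 536870912 50465866
    (rowB 3 eng mog cd3q2b cd6q3 pd1 0 false false false .pnn 2 1 3 (qsf 1239849684 370763052 0 1230186008 1) ndB3q2b ndB6q3 pcB1 Cut.none Ext.none)

def k0_mm_213_b : ∃ t, chk3 f_mm_213_b t 1 1 1 = true :=
  ⟨(b (l 3) (l 3)), by decide +kernel⟩

theorem c_mm_213_b : CertB 1239849684 370763052 0 1230186008 536870912 50465866 3 eng mog cd3q2b cd6q3 pd1 false false false .pnn 2 1 3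
    ndB3q2b ndB6q3 pcB1 Cut.none Ext.none :=
  certB0 (fam := false) (s1 := false) (s2 := false) (a := 2) (b := 1) (c := 3) (cn := .pnn) (n1 := ndB3q2b) (n2 := ndB6q3) (pc := pcB1) (cut := Cut.none) (xt := Ext.none) (P1 := 1239849684) (W1 := 370763052) (P2 := 0) (W2 := 1230186008) (P3 := 536870912) (W3 := 50465866) (N0 := 3) (En := eng) (mo := mog) (C1 := cd3q2b) (C2 := cd6q3) (C3 := pd1)
    rfl k0_mm_213_b

noncomputable def f_mm_303 : ℕ → ℕ → ℕ → ℕ → Bool := onCell 0 536870912 0 1230186008 536870912 50465866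
    (rowB 3 eng mog cd3q3 cd6q3 pd0 2 false false false .npn 3 0 3 (qsf 1610612736 536870912 0 1230186008 0) ndB3q3 ndB6q3 pcB0 Cut.none Ext.none)

def k0_mm_303 : ∃ t, chk3 f_mm_303 t 1 1 1 = true :=
  ⟨(b (l 3) (a (l 3) (l 3))), by decide +kernel⟩

theorem c_mm_303 : CertB 1610612736 536870912 0 1230186008 536870912 50465866 3 eng mog cd3q3 cd6q3 pd0 false false false .npn 3 0 3
    ndB3q3 ndB6q3 pcB0 Cut.none Ext.none :=
  certB2 (fam := false) (s1 := false) (s2 := false) (a := 3) (b := 0) (c := 3) (cn := .npn) (n1 := ndB3q3) (n2 := ndB6q3) (pc := pcB0) (cut := Cut.none) (xt := Ext.none) (P1 := 1610612736) (W1 := 536870912) (P2 := 0) (W2 := 1230186008) (P3 := 536870912) (W3 := 50465866) (N0 := 3) (En := eng) (mo := mog) (C1 := cd3q3) (C2 := cd6q3) (C3 := pd0)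
    rfl (fun _ => rfl) k0_mm_303

noncomputable def f_mm_313 : ℕ → ℕ → ℕ → ℕ → Bool := onCell 1610612736 536870912 0 1230186008 536870912 50465866
    (rowB 3 eng mog cd3q3 cd6q3 pd1 0 false false false .dn 3 1 3 (qsf 1610612736 536870912 0 1230186008 1) ndB3q3 ndB6q3 pcB1 Cut.none Ext.none)

def k0_mm_313 : ∃ t, chk3 f_mm_313 t 1 1 1 = true :=
  ⟨(b (l 3) (l 1)), by decide +kernel⟩

theorem c_mm_313 : CertB 1610612736 536870912 0 1230186008 536870912 50465866 3 eng mog cd3q3 cd6q3 pd1 false false false .dn 3 1 3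
    ndB3q3 ndB6q3 pcB1 Cut.none Ext.none :=
  certB0 (fam := false) (s1 := false) (s2 := false) (a := 3) (b := 1) (c := 3) (cn := .dn) (n1 := ndB3q3) (n2 := ndB6q3) (pc := pcB1) (cut := Cut.none) (xt := Ext.none) (P1 := 1610612736) (W1 := 536870912) (P2 := 0) (W2 := 1230186008) (P3 := 536870912) (W3 := 50465866) (N0 := 3) (En := eng) (mo := mog) (C1 := cd3q3) (C2 := cd6q3) (C3 := pd1)
    rfl k0_mm_313

end Pool.Agent.Strip051.G.I5000_5470.Tab.C.BB36

namespace Pool.Agent.Strip051.G.I5000_5470.Tab.C.BB40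

open Pool.Agent.Strip051.PB Pool.Agent.Strip051.PB.T
open Pool.Agent.Strip051.G.I5000_5470.Tab

noncomputable def xt_pp_001 : Ext := extD2 3 ⟨7, 3, 3, 10, 1741, 1000, 23, 25, 19, 50, 3, 16⟩ eng cd4q0 cd0q1 pd0 false true true .up 0 0 1 rfl ndB4q0 ndB0q1 pcB0

noncomputable def f_pp_001 : ℕ → ℕ → ℕ → ℕ → Bool := onCell 0 536870912 536870912 536870912 536870912 50465866
    (rowB 3 eng mog cd4q0 cd0q1 pd0 0 false true true .up 0 0 1 (qsf 0 536870912 536870912 536870912 0) ndB4q0 ndB0q1 pcB0 Cut.none xt_pp_001)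

def k0_pp_001 : ∃ t, chk3 f_pp_001 t 1 2 1 = true :=
  ⟨(l 3), by decide +kernel⟩

def k1_pp_001 : ∃ t, chk3 f_pp_001 t 1 6 1 = true :=
  ⟨(a (l 3) (l 3)), by decide +kernel⟩

def k2_pp_001 : ∃ t, chk3 f_pp_001 t 2 7 1 = true :=
  ⟨(l 2), by decide +kernel⟩

def k3_pp_001 : ∃ t, chk3 f_pp_001 t 3 14 1 = true :=
  ⟨(a (b (l 3) (l 2)) (l 3)), by decide +kernel⟩

def k4_pp_001 : ∃ t, chk3 f_pp_001 t 3 15 1 = true :=
  ⟨(a (l 2) (a (b (b (b (b (l 3) (l 2)) (l 2)) (l 2)) (l 2)) (b (b (b (l 3) (b (a (a (b (l 3) (a (l 2) (b (l 3) (a (l 2749097313945865860206772287) (a (l 2700740281161253686465527871) (c (l 2604026215592633932972703807) (l 2710411687718302111503188031))))))) (a (a (c (l 2700740281161731355617116223) (l 2710411687718336333799899199)) (l 3)) (l 3))) (l 3)) (a (a (a (l 2) (a (l 142282679821729855) (b (c (l 142678710171942975) (l 142247083122032703)) (l 142384247234756671)))) (a (b (a (c (l 2700740281161724414916493375) (l 2516983556579896228785406015))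 (c (l 2545997776250964675535962175) (l 2797454346730496450794373183))) (l 142142079780814911)) (a (b (c (l 2652383248376883817626697791) (l 2758768720502832715253628991)) (l 142257872087154751)) (b (c (l 2633040435263067686619021375) (l 2739425907389084410363510847)) (l 142234301302243391))))) (a (a (b (a (c (l 2613697622149230527451152447) (l 2720083094275272196358553663)) (c (l 2623369028706141444820123711) (l 2691068874604518553541869631))) (a (c (l 142400190149935167) (l 142157816487510079)) (c (l 142356140981338175) (l 142161596055306303)))) (a (b (c (l 3048910917210467824577855551) (l 2700740281161407205790761023)) (c (b (l 2633040435263023156421525567) (l 142303020796297279)) (l 2826468566401161308021538879))) (b (l 3) (c (b (l 2584683402478435584255655999) (l 142304738778808383)) (l 2787782940173651504101294143))))) (b (l 3) (c (a (a (b (l 2565340589364593614713225279) (l 2604026215592215225210929215)) (b (l 3) (l 2594354809035293244006383679)))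 (a (b (l 3) (l 2565340589364532110762573887)) (l 2526654963136861159671857215))) (a (a (l 2758768720502889408786972735) (l 2729754500832118723537649727)) (a (l 2700740281161342403289825343) (l 2671726061490567526150963263))))))))) (b (b (a (a (a (l 2) (l 142108475966308415)) (a (l 142194993761517631) (l 142096518732398655))) (a (a (c (l 142234851062808639) (l 141996463132540991)) (b (a (l 142135894984376383) (l 142133077481439295)) (l 142246808201920575))) (a (b (c (l 142213479293157439) (l 142035770664255551)) (l 142193069561069631)) (a (c (l 142147027584434239) (l 141967944525594687)) (b (c (l 2052756041847840142790885439) (l 142009244934193215)) (l 141992065077297215)))))) (a (a (l 2) (l 141974953961832511)) (a (a (l 141846998273884223) (l 142031097741410367)) (a (l 142022920112373823) (l 142187434527621183))))) (a (a (l 2) (l 16581752)) (a (b (l 16568600) (l 16555320)) (a (l 16551816) (l 16544816)))))) (b (a (a (l 2) (l 16558536)) (a (l 16525360)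 (l 16505984))) (a (l 2) (l 16459056)))))), by decide +kernel⟩

theorem s5_pp_001 : ∃ t, chk3 f_pp_001 t 3 7 1 = true := ex3_b k3_pp_001 k4_pp_001

theorem s6_pp_001 : ∃ t, chk3 f_pp_001 t 1 7 1 = true := ex3_a k2_pp_001 s5_pp_001

theorem s7_pp_001 : ∃ t, chk3 f_pp_001 t 1 3 1 = true := ex3_b k1_pp_001 s6_pp_001

theorem s8_pp_001 : ∃ t, chk3 f_pp_001 t 1 1 1 = true := ex3_b k0_pp_001 s7_pp_001

theorem c_pp_001 : CertB 0 536870912 536870912 536870912 536870912 50465866 3 eng mog cd4q0 cd0q1 pd0 false true true .up 0 0 1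
    ndB4q0 ndB0q1 pcB0 Cut.none xt_pp_001 :=
  certB0 (fam := false) (s1 := true) (s2 := true) (a := 0) (b := 0) (c := 1) (cn := .up) (n1 := ndB4q0) (n2 := ndB0q1) (pc := pcB0) (cut := Cut.none) (xt := xt_pp_001) (P1 := 0) (W1 := 536870912) (P2 := 536870912) (W2 := 536870912) (P3 := 536870912) (W3 := 50465866) (N0 := 3) (En := eng) (mo := mog) (C1 := cd4q0) (C2 := cd0q1) (C3 := pd0)
    rfl s8_pp_001

noncomputable def xt_pp_011 : Ext := extD2 3 ⟨7, 3, 3, 10, 1741, 1000, 23, 25, 19, 50, 3, 16⟩ eng cd4q0 cd0q1 pd1 false true true .pnn 0 1 1 rfl ndB4q0 ndB0q1 pcB1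

noncomputable def f_pp_011 : ℕ → ℕ → ℕ → ℕ → Bool := onCell 536870912 536870912 536870912 536870912 536870912 50465866
    (rowB 3 eng mog cd4q0 cd0q1 pd1 2 false true true .pnn 0 1 1 (qsf 0 536870912 536870912 536870912 1) ndB4q0 ndB0q1 pcB1 Cut.none xt_pp_011)

def k0_pp_011 : ∃ t, chk3 f_pp_011 t 2 2 1 = true :=
  ⟨(a (l 3) (b (a (b (l 1) (l 3)) (l 1)) (l 3))), by decide +kernel⟩

def k1_pp_011 : ∃ t, chk3 f_pp_011 t 2 6 1 = true :=
  ⟨(l 3), by decide +kernel⟩

def k2_pp_011 : ∃ t, chk3 f_pp_011 t 2 14 1 = true :=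
  ⟨(b (l 3) (b (a (l 3) (l 3)) (b (a (l 3) (a (l 3) (a (a (l 3) (c (l 97341618855) (l 128480175959))) (a (a (l 66740044583) (l 62445072327)) (a (l 58150103447) (l 54392005447)))))) (a (a (l 3) (a (l 3) (a (l 3) (a (l 3) (b (l 3) (c (l 111300229543) (a (l 117205782199) (l 112373956567)))))))) (a (b (a (l 3) (a (a (l 255181683463) (c (l 78014321559) (l 79624917767))) (a (a (l 70498127911) (l 64592545079)) (l 55465748423)))) (a (a (b (a (l 3) (a (l 3) (a (l 3) (l 119353340119)))) (a (a (c (l 94657240871) (l 96267841191)) (c (l 16875488) (l 87141049831))) (a (c (l 16880024) (l 77477386535)) (c (l 16884376) (l 16878976))))) (a (b (b (l 3) (a (c (l 16894320) (l 97341643095)) (a (a (a (l 81235527303) (l 73182463943)) (l 16894536)) (l 16893512)))) (a (c (l 16888560) (l 16884440)) (a (c (l 16891424) (l 16888200)) (c (l 16891872) (l 16888728))))) (c (c (l 51170772455) (l 51707636231)) (c (l 52244503223) (l 52781372615))))) (a (a (a (l 16884560) (l 16881840))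 (l 16877784)) (c (l 16875968) (l 16865544))))) (a (a (a (c (l 16874896) (l 16862472)) (c (l 16871800) (l 16857736))) (c (l 16868152) (l 16851736))) (a (c (l 16864616) (l 16845280)) (l 16893008)))))))), by decide +kernel⟩

def k3_pp_011 : ∃ t, chk3 f_pp_011 t 8 15 1 = true :=
  ⟨(b (a (b (b (l 3) (a (b (a (b (l 3) (c (a (l 2178484327088339645268721727) (l 2710411687718818126238679103)) (a (l 2381583864783010688351043647) (l 2758768720502812649148284991)))) (a (b (l 3) (c (c (l 2662054654934383111312228415) (l 2613697622149592679223902271)) (l 2662054654933677980593602623))) (b (a (l 3) (c (b (l 3) (l 2913511225414208662357934143)) (l 2604026215592705401213894719))) (a (c (b (l 142905141030092863) (l 142882463550488639)) (l 142469940393312319)) (b (c (l 142923970162933823) (l 142503750417236031)) (l 142688812013748287)))))) (a (b (a (l 142527733472477247) (l 142567796979957823)) (l 142311885579092031)) (c (l 142816217991446591) (l 142191214194638911))))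 (a (a (b (b (c (l 2420269491011499882461347903) (l 2362241051669595947944575039)) (a (b (l 142745986718367807) (l 142712588957040703)) (l 142761448557346879))) (b (a (l 142667577685131327) (l 142693484932415551)) (l 142621810496208959))) (b (b (c (l 2304212612328555748666818623) (l 2265526986100496326320554047)) (l 142810514270781503)) (b (l 142741519853764671) (l 142672594199068735)))) (b (a (c (b (l 2217169953316364089455132735) (l 143073778605326399)) (l 2023741822177677831216234559)) (b (l 2062427448405571089841537087) (l 142943692593725503))) (l 142804673058226239))))) (b (a (a (b (l 142225711364702271) (l 16578792)) (l 142249075944357951)) (a (a (l 142483478138896447) (b (l 142577005377208383) (l 16615264))) (b (a (l 142630744018255935) (l 16645128)) (l 16623056)))) (a (l 596333802424603254235199) (b (l 596158270156931737231423) (l 16576216))))) (b (b (b (l 3) (c (a (a (l 3899994694220153781580447935) (l 2275198392658287677711564991)) (a (l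 2120455887747778764447711423) (l 1946370569723318411521736895))) (a (a (l 3774266408979901050800963647) (l 2246184172987228920377901119)) (a (l 2130127294304413773039140927) (l 1956041976279966957851115711))))) (a (b (a (c (l 1946370569722813254546636991) (l 1849656504153278226292981823)) (l 143214172500459583)) (a (l 142935858560303167) (l 143066356868120639))) (a (b (l 143347557026480191) (l 16672152)) (l 143401639257899199)))) (a (b (a (l 142714650506018879) (l 16654016)) (a (l 16603776) (l 16614584))) (b (l 143023132292235327) (l 16631112))))) (a (b (a (l 16484264) (l 16518456)) (l 16476168)) (b (a (l 16524376) (b (l 16589952) (l 16546400))) (c (l 16477168) (l 16422616))))), by decide +kernel⟩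

def k4_pp_011 : ∃ t, chk3 f_pp_011 t 9 15 1 = true :=
  ⟨(b (b (a (b (a (b (a (l 3) (l 2845811379516917115291172991)) (a (b (l 1965713382837192610451767487) (l 143728675316367551)) (l 143905353122414719))) (b (a (l 2120455887748255265380221055) (c (l 107005152119) (l 103247013271))) (a (l 144040867952869503) (l 16783688)))) (a (a (l 143529869823623359) (l 143660093254205567)) (b (l 143936414322049151) (l 16741648)))) (b (a (a (b (c (l 97878375543) (a (l 101636423207) (l 96267731847))) (l 16794424)) (b (b (a (l 107542031559) (l 98415241191)) (l 16818816)) (l 16805232))) (a (b (b (a (l 89288449687) (l 16841120)) (l 16829544)) (l 16816040)) (b (c (l 16852008) (l 16838528)) (l 16826728)))) (a (b (l 16781544) (l 16763032)) (l 16794208)))) (a (a (b (l 16691952) (l 16652968)) (l 16694064)) (a (l 16736360) (l 16738184)))) (a (b (a (l 16589784) (l 16610968)) (a (l 16497760) (l 16518600))) (b (a (l 16632328) (l 16656808)) (l 16553640)))), by decide +kernel⟩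

def k5_pp_011 : ∃ t, chk3 f_pp_011 t 5 15 1 = true :=
  ⟨(a (b (a (a (b (c (b (a (l 16853104) (l 16861992)) (l 16824744)) (b (b (a (l 16850296) (l 16861680)) (l 16836584)) (l 16807352))) (l 16802128)) (b (a (b (b (a (l 16872400) (a (l 16875920) (l 16899064))) (l 16857032)) (l 16830320)) (b (a (b (b (l 16882304) (l 16875896)) (l 16863880)) (b (l 16877112) (l 16865712))) (l 16860608))) (l 16843584))) (b (a (b (c (l 16912104) (l 16861752)) (a (b (l 16851552) (l 16838000)) (l 16841752))) (b (c (l 16861720) (l 16849696)) (l 16834400))) (b (a (a (l 16813008) (l 16817616)) (l 16813096)) (a (l 16781232) (l 16789144))))) (a (b (a (l 16680424) (l 16744536)) (l 16602424)) (b (a (b (l 16743656) (l 16703888)) (b (l 16759576) (l 16723616))) (a (l 16635360) (l 16658192))))) (b (b (a (a (c (b (l 16854744) (l 16835528)) (l 16870568)) (c (l 16841520) (l 16821776))) (a (b (l 16836872) (l 16818832)) (c (l 16838984) (l 16814000)))) (a (a (l 16814920) (l 16790864))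 (a (l 16790368) (l 16790488)))) (b (a (a (b (l 16759136) (l 16732904)) (l 16809384)) (b (l 16760208) (l 16738176))) (a (a (l 16679368) (l 16693320)) (l 16700944))))), by decide +kernel⟩

def k6_pp_011 : ∃ t, chk3 f_pp_011 t 3 1 1 = true :=
  ⟨(b (a (b (l 1) (a (b (l 1) (l 3)) (l 1))) (l 1)) (a (b (l 3) (b (b (l 3) (a (a (b (l 3) (a (b (a (l 50633907127) (l 47412679639)) (l 16848936)) (b (a (l 44728323767) (l 42043966279)) (l 16847368)))) (b (a (l 3) (l 546165750439)) (a (b (a (c (l 16873624) (l 16849416)) (l 16861784)) (a (l 16846136) (l 16845664))) (a (l 16854504) (l 16855408))))) (b (a (a (l 133312021447) (l 161229308951)) (a (l 126869566487) (l 124722074695))) (a (a (l 16856104) (l 16855744)) (a (l 16854224) (l 16851848)))))) (a (b (a (b (a (l 16845928) (l 16824296)) (l 16854280)) (b (a (l 16823480) (b (l 16830864) (l 16815384))) (l 16834312))) (b (a (l 16754320) (l 16758272)) (l 16734248))) (b (a (b (a (l 16824688) (l 16826056)) (a (l 16793224)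 (l 16795392))) (b (l 16826280) (l 16798880))) (a (b (l 16761880) (l 16724056)) (l 16898408)))))) (b (a (b (l 1) (l 3)) (l 1)) (a (b (b (l 3) (a (b (b (l 3) (a (l 16867544) (l 118816429495))) (a (l 16848824) (l 16845344))) (b (b (l 3) (a (l 37614686951) (l 356515999975))) (a (l 16841568) (l 16837704))))) (b (b (a (l 16823968) (l 16819144)) (a (l 16800856) (l 16799208))) (a (l 16759504) (l 16763688)))) (b (b (l 1) (a (b (l 1) (l 333430604167)) (l 1))) (b (b (a (l 16814768) (l 1)) (a (l 16795592) (l 16788176))) (a (l 16762904) (l 16760216)))))))), by decide +kernel⟩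

theorem s7_pp_011 : ∃ t, chk3 f_pp_011 t 4 15 1 = true := ex3_a k3_pp_011 k4_pp_011

theorem s8_pp_011 : ∃ t, chk3 f_pp_011 t 2 15 1 = true := ex3_a s7_pp_011 k5_pp_011

theorem s9_pp_011 : ∃ t, chk3 f_pp_011 t 2 7 1 = true := ex3_b k2_pp_011 s8_pp_011

theorem s10_pp_011 : ∃ t, chk3 f_pp_011 t 2 3 1 = true := ex3_b k1_pp_011 s9_pp_011

theorem s11_pp_011 : ∃ t, chk3 f_pp_011 t 2 1 1 = true := ex3_b k0_pp_011 s10_pp_011

theorem s12_pp_011 : ∃ t, chk3 f_pp_011 t 1 1 1 = true := ex3_a s11_pp_011 k6_pp_011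

theorem c_pp_011 : CertB 0 536870912 536870912 536870912 536870912 50465866 3 eng mog cd4q0 cd0q1 pd1 false true true .pnn 0 1 1
    ndB4q0 ndB0q1 pcB1 Cut.none xt_pp_011 :=
  certB2 (fam := false) (s1 := true) (s2 := true) (a := 0) (b := 1) (c := 1) (cn := .pnn) (n1 := ndB4q0) (n2 := ndB0q1) (pc := pcB1) (cut := Cut.none) (xt := xt_pp_011) (P1 := 0) (W1 := 536870912) (P2 := 536870912) (W2 := 536870912) (P3 := 536870912) (W3 := 50465866) (N0 := 3) (En := eng) (mo := mog) (C1 := cd4q0) (C2 := cd0q1) (C3 := pd1)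
    rfl (fun _ => rfl) s12_pp_011

noncomputable def f_pp_012 : ℕ → ℕ → ℕ → ℕ → Bool := onCell 536870912 536870912 0 536870912 536870912 50465866
    (rowB 3 eng mog cd4q0 cd0q2 pd1 2 false true true .pnp 0 1 2 (qsf 0 536870912 0 536870912 1) ndB4q0 ndB0q2 pcB1 Cut.none Ext.none)

def k0_pp_012 : ∃ t, chk3 f_pp_012 t 2 1 1 = true :=
  ⟨(b (a (a (l 2) (b (l 2) (b (l 2) (l 16695656)))) (b (a (b (l 16725584) (l 16730248)) (b (l 16713120) (l 16724720))) (a (b (a (l 16726552) (l 16728432)) (a (l 16715296) (l 16721752))) (a (b (l 16729872) (l 16726720)) (l 16730760))))) (a (a (b (l 2) (b (a (l 2) (b (l 16503488) (l 16432368))) (a (b (l 16352984) (l 16372304)) (b (l 16329272) (b (l 16329920) (l 16380024)))))) (b (b (a (l 2) (l 16675824)) (a (l 16596504) (l 16618832))) (b (a (b (l 16518120) (l 16442976)) (b (l 16543336) (l 16469216))) (b (a (l 16313536) (l 16377624)) (a (l 16388608) (l 16453704)))))) (b (a (b (a (l 16692488) (l 16704344)) (a (l 16641976)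 (a (l 16657992) (l 16665464)))) (b (l 16717504) (l 16682048))) (a (b (b (a (l 16572464) (l 16598848)) (l 16514376)) (a (b (l 16419240) (l 16500736)) (b (l 16463848) (b (l 16522672) (l 16571376))))) (b (b (l 16620832) (l 16543816)) (b (a (l 16526008) (l 16583056)) (a (l 16854264) (l 16704384)))))))), by decide +kernel⟩

def k1_pp_012 : ∃ t, chk3 f_pp_012 t 3 1 1 = true :=
  ⟨(b (a (b (b (l 16679608) (a (l 16712408) (l 16684344))) (a (l 16729336) (b (l 16706304) (l 16722584)))) (b (b (a (l 16619744) (l 16573104)) (a (l 16646536) (l 16598320))) (a (b (l 16673424) (l 16696072)) (b (l 16625232) (a (l 16663912) (l 16634168)))))) (a (b (a (b (l 16732928) (l 16774960)) (b (l 16734656) (l 16732328))) (b (a (a (l 16700248) (l 16644656)) (b (l 16705208) (l 16660752))) (a (b (l 16620312) (l 16662072)) (b (l 16652800) (a (l 16678864) (l 16689800)))))) (b (a (b (l 16717416) (l 16733120)) (b (a (l 16689448) (l 16660056)) (a (l 16714456) (l 16687536)))) (b (a (b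 (l 16732192) (l 16717848)) (a (l 16732312) (a (l 16720344) (l 16705408)))) (a (b (a (l 16677736) (l 16697600)) (a (l 16702472) (l 16713912))) (b (a (l 16729328) (l 16727128)) (a (b (l 16717288) (l 16729152)) (a (l 16744560) (l 16735768))))))))), by decide +kernel⟩

theorem s2_pp_012 : ∃ t, chk3 f_pp_012 t 1 1 1 = true := ex3_a k0_pp_012 k1_pp_012

theorem c_pp_012 : CertB 0 536870912 0 536870912 536870912 50465866 3 eng mog cd4q0 cd0q2 pd1 false true true .pnp 0 1 2
    ndB4q0 ndB0q2 pcB1 Cut.none Ext.none :=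
  certB2 (fam := false) (s1 := true) (s2 := true) (a := 0) (b := 1) (c := 2) (cn := .pnp) (n1 := ndB4q0) (n2 := ndB0q2) (pc := pcB1) (cut := Cut.none) (xt := Ext.none) (P1 := 0) (W1 := 536870912) (P2 := 0) (W2 := 536870912) (P3 := 536870912) (W3 := 50465866) (N0 := 3) (En := eng) (mo := mog) (C1 := cd4q0) (C2 := cd0q2) (C3 := pd1)
    rfl (fun _ => rfl) s2_pp_012

noncomputable def f_pp_022 : ℕ → ℕ → ℕ → ℕ → Bool := onCell 1073741824 536870912 0 536870912 536870912 50465866
    (rowB 3 eng mog cd4q0 cd0q2 pd2 2 false true true .pp 0 2 2 (qsf 0 536870912 0 536870912 2) ndB4q0 ndB0q2 pcB2 Cut.none Ext.none)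

def k0_pp_022 : ∃ t, chk3 f_pp_022 t 1 1 1 = true :=
  ⟨(a (b (a (b (b (a (l 16551792) (l 16570472)) (a (l 16570632) (l 16581328))) (a (b (a (l 16590744) (l 16592040)) (l 16612120)) (b (l 16595256) (l 16611152)))) (a (b (b (a (l 16580032) (l 1)) (a (l 16586048) (l 1))) (a (b (l 16595288) (l 16606584)) (l 1))) (l 1))) (a (b (a (b (a (l 16636992) (l 16633496)) (a (l 16663120) (l 16657352))) (b (a (l 16630992) (l 16626840)) (a (l 16651968) (l 16643704)))) (a (b (a (b (l 16682696) (l 16696288)) (b (l 16675632) (a (l 16690424) (l 16685976)))) (a (b (a (l 16713192) (l 16707344)) (a (l 16727072) (l 167000404119))) (b (a (l 16701272) (l 1)) (l 1)))) (b (a (b (l 16667320) (l 1)) (l 1)) (l 1)))) (b (l 1) (l 1)))) (l 1)), by decide +kernel⟩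

theorem c_pp_022 : CertB 0 536870912 0 536870912 536870912 50465866 3 eng mog cd4q0 cd0q2 pd2 false true true .pp 0 2 2
    ndB4q0 ndB0q2 pcB2 Cut.none Ext.none :=
  certB2 (fam := false) (s1 := true) (s2 := true) (a := 0) (b := 2) (c := 2) (cn := .pp) (n1 := ndB4q0) (n2 := ndB0q2) (pc := pcB2) (cut := Cut.none) (xt := Ext.none) (P1 := 0) (W1 := 536870912) (P2 := 0) (W2 := 536870912) (P3 := 536870912) (W3 := 50465866) (N0 := 3) (En := eng) (mo := mog) (C1 := cd4q0) (C2 := cd0q2) (C3 := pd2)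
    rfl (fun _ => rfl) k0_pp_022

noncomputable def cut_pp_101 : Cut := Cut.of [[⟨0, 1, 0, 67108864⟩, ⟨1, 0, 0, 67108864⟩, ⟨2, 1, 0, 67108864⟩]]

noncomputable def xt_pp_101 : Ext := extD2 3 ⟨7, 3, 3, 10, 1741, 1000, 23, 25, 19, 50, 3, 16⟩ eng cd4q1 cd0q1 pd0 false true true .npn 1 0 1 rfl ndB4q1 ndB0q1 pcB0

noncomputable def f_pp_101 : ℕ → ℕ → ℕ → ℕ → Bool := onCell 0 536870912 536870912 536870912 536870912 50465866
    (rowB 3 eng mog cd4q1 cd0q1 pd0 2 false true true .npn 1 0 1 (qsf 536870912 536870912 536870912 536870912 0) ndB4q1 ndB0q1 pcB0 cut_pp_101 xt_pp_101)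

def k0_pp_101 : ∃ t, chk3 f_pp_101 t 1 2 1 = true :=
  ⟨(l 3), by decide +kernel⟩

def k1_pp_101 : ∃ t, chk3 f_pp_101 t 1 6 1 = true :=
  ⟨(l 3), by decide +kernel⟩

def k2_pp_101 : ∃ t, chk3 f_pp_101 t 2 14 1 = true :=
  ⟨(l 3), by decide +kernel⟩

def k3_pp_101 : ∃ t, chk3 f_pp_101 t 2 30 1 = true :=
  ⟨(l 3), by decide +kernel⟩

def k4_pp_101 : ∃ t, chk3 f_pp_101 t 2 62 1 = true :=
  ⟨(a (l 3) (b (a (l 3) (a (l 3) (a (a (l 320679331367) (l 153712456695)) (l 158007434295)))) (a (a (a (l 3) (b (l 3) (b (l 3) (a (l 141364621175) (l 158007603671))))) (a (b (l 3) (b (a (l 138143364231) (l 152638864839)) (a (l 165523777463) (l 16637752)))) (a (b (l 3) (b (l 169281843511) (l 16628544))) (b (l 255718030871) (l 16626616))))) (a (a (a (b (l 150491329671) (l 16611568)) (b (b (l 218137042247) (l 16608152)) (l 16601568))) (a (c (l 133848327207) (l 16627184)) (l 16619504))) (a (l 16611824) (l 16575672)))))), by decide +kernel⟩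

def k5_pp_101 : ∃ t, chk3 f_pp_101 t 2 63 1 = true :=
  ⟨(b (a (a (l 3) (b (a (l 3) (b (l 3) (a (a (l 3) (l 259476259527)) (a (c (l 176261255815) (l 152638954871)) (l 168208201271))))) (a (a (b (l 3) (b (l 3) (a (l 3) (a (c (l 204715476839) (l 222432212023)) (c (l 190219954551) (l 187535607351)))))) (b (a (l 3) (c (b (l 3) (l 228874641527)) (l 206862930263))) (a (c (b (a (l 206326078295) (l 183777492375)) (l 193441185447)) (b (l 238001452855) (l 198809889159))) (c (b (l 187535594871) (l 16703368)) (l 183240622679))))) (a (a (b (c (b (l 239075177543) (l 181630003591)) (l 169818843943)) (l 16695280)) (c (l 177871898423) (l 163376377703))) (a (b (l 16683752) (l 16679456)) (l 16673432)))))) (a (a (a (b (b (a (l 148343967479) (l 164450080423)) (a (l 16671768) (l 16663312))) (l 16681816)) (b (a (b (l 149954549511) (l 16654656)) (l 16648328)) (l 16664456))) (a (b (l 16671880) (l 16625880)) (l 16654256))) (a (b (l 16624744) (l 16580104)) (l 16574456))))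 (a (a (a (l 6) (a (l 6) (a (b (b (b (l 3) (l 6)) (l 6)) (l 6)) (b (a (b (b (l 3) (c (a (l 182166923223) (l 191293724839)) (l 192904335575))) (c (l 16729016) (l 16727256))) (b (c (b (l 188609368487) (c (l 188609375927) (l 195051824839))) (b (l 205789233463) (l 184851275735))) (l 16724184))) (l 16730528))))) (a (b (a (a (b (c (b (a (c (l 180019427303) (l 195051810647)) (l 196662416759)) (a (l 16724384) (l 16720464))) (b (a (l 199883645511) (l 192904328215)) (l 16730768))) (l 16718248)) (b (a (c (l 198273032983) (l 16715360)) (l 16712584)) (l 16710368))) (b (a (l 16706704) (l 16698864)) (l 16698568))) (a (b (l 16710168) (l 16706072)) (l 16692312))) (a (b (l 16684992) (l 16676600)) (b (l 16668928) (l 16660408))))) (a (a (a (l 16689472) (l 16629904)) (l 16646032)) (b (l 16645224) (l 16630656))))), by decide +kernel⟩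

def k6_pp_101 : ∃ t, chk3 f_pp_101 t 3 14 1 = true :=
  ⟨(l 3), by decide +kernel⟩

def k7_pp_101 : ∃ t, chk3 f_pp_101 t 3 60 1 = true :=
  ⟨(a (l 3) (a (l 3) (a (a (l 3) (a (a (a (a (l 3) (l 1)) (l 1)) (l 1)) (l 1))) (l 1)))), by decide +kernel⟩

def k8_pp_101 : ∃ t, chk3 f_pp_101 t 6 61 1 = true :=
  ⟨(a (a (l 3) (b (l 3) (b (l 3) (a (a (l 3) (l 3)) (c (l 127942573159) (l 131163806391)))))) (a (b (l 3) (b (a (l 3) (a (l 173576559095) (a (l 169281593079) (l 167670981335)))) (a (b (l 168744710983) (l 16503864)) (a (l 16506568) (l 16506576))))) (b (a (l 3) (a (l 3) (l 3))) (b (b (a (a (l 3) (c (l 3155296389335757564768419903) (l 167134113543))) (a (c (l 3010225290982103287597793343) (a (l 168207857031) (l 2391255271339564745296904255))) (c (l 141698838974922815) (c (l 141599058279743551) (l 141550336160170047))))) (c (a (a (l 2884497005742259025378672703) (l 141927056333750335)) (a (l 141585589256994879) (l 16524624))) (a (a (l 16514616) (l 16514920))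 (l 16515472)))) (a (c (l 16509080) (l 16504368)) (l 16507904)))))), by decide +kernel⟩

def k9_pp_101 : ∃ t, chk3 f_pp_101 t 7 61 1 = true :=
  ⟨(a (a (b (b (l 3) (a (a (c (l 2836139972957804219316338751) (l 2971539664754435703768154175)) (b (l 3) (c (l 2798050167916821700020134463) (l 2845811379514523546724024383)))) (b (c (a (l 2914107263349172252270240319) (l 2652979482885577539393266239)) (a (l 2913511225412969718556524607) (l 2826468566400740950831415359))) (c (a (l 594916573361668766196287) (l 594909367601371621024319)) (a (l 141661455576465471) (l 141656713931554879)))))) (b (a (a (b (c (l 141720142016069695) (l 141576793165103167)) (l 16520992)) (c (l 141681590382788671) (l 141530751107711039))) (b (c (l 141735672621924415) (l 141567859632242751)) (l 16521456))) (a (l 16508776) (l 16508624)))) (b (a (a (b (l 3) (c (l 2411194388137888448382231103) (b (l 2768440127059240468431470655) (l 141646543447031871)))) (b (c (l 2701337103083656727964475967)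 (l 2836139972957767798006579263)) (c (l 595053482824563137012287) (l 141679528801239103)))) (a (b (c (l 2565937482479742885227340351) (b (l 3) (l 2710411687717798191438512191))) (c (l 594974795913731775357503) (l 141660562221842495))) (a (b (b (l 3) (l 2652978291629166822547989055)) (l 141738490123731007)) (b (b (c (l 3465378252209003881475088959) (l 3851637661434065100849561663)) (c (l 595576621080148938105407) (l 141781164922044479))) (b (l 594530344594334826308159) (l 16533072)))))) (a (b (a (l 16545944) (l 16523936)) (l 16507256)) (b (l 16542752) (l 16504832))))) (a (b (a (a (b (b (c (a (l 2440209052548174890634404415) (l 596038366244929845830207)) (a (l 2556264055139447477187453503) (l 2517578523451349661977158207))) (c (l 595565668320426326336063) (l 594462322217797710324287))) (a (c (l 594813675095598529634879) (l 141622972659318847)) (l 594267766654315512832575))) (a (b (c (l 2362837832662891881824690751) (l 2420865550563557171920888383))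 (l 594296301459630381031999)) (b (c (l 596626356167268060209727) (l 595654154869845555257919)) (l 594335789021163159478847)))) (a (a (b (a (l 596583121491960584774207) (l 595486404913245938901567)) (l 594386805799734871106111)) (b (l 424161090855) (l 16542192))) (l 420939841543))) (a (b (a (l 16518768) (l 16514352)) (l 16501000)) (a (l 16501640) (l 16496040)))) (b (l 1) (a (l 401612536423) (l 1))))), by decide +kernel⟩

def k10_pp_101 : ∃ t, chk3 f_pp_101 t 3 31 1 = true :=
  ⟨(a (a (b (a (b (a (l 139753801479) (a (l 137069425991) (a (l 136532540119) (l 135995662487)))) (l 16560208)) (a (b (a (b (l 138143140487) (l 16521416)) (b (a (l 126331972455) (l 16532104)) (l 16534376))) (l 16534184)) (b (b (l 16528080) (l 16514376)) (l 16557336)))) (a (b (l 16526672) (l 16519384)) (b (a (l 16507048) (l 16492952)) (l 16473816)))) (b (b (a (a (l 16540096) (l 16527776)) (a (l 16484688) (l 16484248))) (a (l 16502288) (l 16454320))) (a (b (l 16457376) (l 16440440))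 (l 16473408)))) (a (b (a (b (l 16504536) (l 16450120)) (b (l 16480528) (l 16446464))) (b (l 16497808) (l 16382992))) (b (a (a (b (l 16476992) (l 16444664)) (b (l 16471224) (l 16442632))) (a (l 16491272) (l 16463200))) (a (a (l 16395520) (l 16416200)) (a (l 16393336) (l 16388896)))))), by decide +kernel⟩

theorem s11_pp_101 : ∃ t, chk3 f_pp_101 t 3 61 1 = true := ex3_a k8_pp_101 k9_pp_101

theorem s12_pp_101 : ∃ t, chk3 f_pp_101 t 3 30 1 = true := ex3_b k7_pp_101 s11_pp_101

theorem s13_pp_101 : ∃ t, chk3 f_pp_101 t 3 15 1 = true := ex3_b s12_pp_101 k10_pp_101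

theorem s14_pp_101 : ∃ t, chk3 f_pp_101 t 3 7 1 = true := ex3_b k6_pp_101 s13_pp_101

theorem s15_pp_101 : ∃ t, chk3 f_pp_101 t 2 31 1 = true := ex3_b k4_pp_101 k5_pp_101

theorem s16_pp_101 : ∃ t, chk3 f_pp_101 t 2 15 1 = true := ex3_b k3_pp_101 s15_pp_101

theorem s17_pp_101 : ∃ t, chk3 f_pp_101 t 2 7 1 = true := ex3_b k2_pp_101 s16_pp_101

theorem s18_pp_101 : ∃ t, chk3 f_pp_101 t 1 7 1 = true := ex3_a s17_pp_101 s14_pp_101

theorem s19_pp_101 : ∃ t, chk3 f_pp_101 t 1 3 1 = true := ex3_b k1_pp_101 s18_pp_101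

theorem s20_pp_101 : ∃ t, chk3 f_pp_101 t 1 1 1 = true := ex3_b k0_pp_101 s19_pp_101

theorem c_pp_101 : CertB 536870912 536870912 536870912 536870912 536870912 50465866 3 eng mog cd4q1 cd0q1 pd0 false true true .npn 1 0 1
    ndB4q1 ndB0q1 pcB0 cut_pp_101 xt_pp_101 :=
  certB2 (fam := false) (s1 := true) (s2 := true) (a := 1) (b := 0) (c := 1) (cn := .npn) (n1 := ndB4q1) (n2 := ndB0q1) (pc := pcB0) (cut := cut_pp_101) (xt := xt_pp_101) (P1 := 536870912) (W1 := 536870912) (P2 := 536870912) (W2 := 536870912) (P3 := 536870912) (W3 := 50465866) (N0 := 3) (En := eng) (mo := mog) (C1 := cd4q1) (C2 := cd0q1) (C3 := pd0)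
    rfl (fun _ => rfl) s20_pp_101

noncomputable def cut_pp_102 : Cut := Cut.of [[⟨0, 1, 0, 67108864⟩, ⟨1, 0, 0, 67108864⟩, ⟨2, 1, 0, 67108864⟩]]

noncomputable def f_pp_102 : ℕ → ℕ → ℕ → ℕ → Bool := onCell 536870912 536870912 0 536870912 536870912 50465866
    (rowB 3 eng mog cd4q1 cd0q2 pd0 0 false true true .npp 1 0 2 (qsf 536870912 536870912 0 536870912 0) ndB4q1 ndB0q2 pcB0 cut_pp_102 Ext.none)

def k0_pp_102 : ∃ t, chk3 f_pp_102 t 2 1 1 = true :=
  ⟨(b (a (b (l 2) (a (l 2) (b (l 2) (l 16660328)))) (b (a (b (l 16715032) (l 16697800)) (b (l 16696792) (l 16674128))) (a (b (l 16668536) (l 16635120)) (b (l 16642256) (l 16608584))))) (a (b (a (l 2) (b (l 16617968) (l 16553704))) (a (b (a (l 2) (l 16452552)) (a (b (l 16324968) (l 16309856)) (l 16408392))) (b (b (l 16492144) (l 16452144)) (b (l 16410608) (l 16426032))))) (b (a (b (l 16598256) (l 16548928)) (b (l 16575904) (l 16537832))) (b (a (b (l 16507672) (l 16486192)) (b (l 16512112) (b (l 16503936)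 (l 16500688)))) (a (b (a (l 16453864) (l 16478992)) (a (l 16429896) (b (l 16470584) (l 16465768)))) (b (a (l 16493128) (l 16505648)) (a (b (l 16491408) (l 16491824)) (l 16491136)))))))), by decide +kernel⟩

def k1_pp_102 : ∃ t, chk3 f_pp_102 t 3 1 1 = true :=
  ⟨(b (a (b (b (a (l 16674872) (l 16643312)) (a (l 16647856) (l 16610280))) (a (l 16599680) (b (l 16576160) (l 16550960)))) (a (b (b (l 16611064) (l 16575960)) (b (l 16549488) (l 16532592))) (b (b (l 16573560) (l 16541760)) (b (a (l 16526888) (l 16507784)) (a (l 16516368) (l 16501864)))))) (a (b (a (b (b (l 16554640) (l 16541816)) (b (l 16529800) (l 16520456))) (b (a (l 16532792) (l 16530600)) (b (l 16526976) (l 16527368)))) (b (a (b (l 16768432) (a (l 16514056) (l 16526808))) (b (l 16534536) (a (l 16540712) (l 16555608)))) (a (b (a (l 16522064) (l 16540264)) (b (l 16605072) (l 16592824))) (a (b (l 16559848) (b (l 16578032) (l 16591984))) (b (b (l 16573256) (l 16587104)) (b (l 16602912) (l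 16662016))))))) (b (a (b (l 16527440) (a (l 16637552) (a (l 16535816) (l 16559024)))) (b (a (l 16520248) (l 16511232)) (a (b (l 16533008) (l 16548360)) (b (l 16530592) (l 16552192))))) (b (a (b (a (l 16550536) (l 16719256)) (a (l 16613944) (l 16609296))) (a (b (a (l 16569032) (l 16574184)) (a (l 16600552) (b (l 16599104) (l 16618872)))) (b (l 16603296) (a (b (l 16606880) (l 16670000)) (l 16625824))))) (a (b (a (b (l 16697680) (l 16736032)) (b (l 16614104) (a (l 16628216) (l 16661384)))) (b (a (l 16628968) (a (l 16649640) (l 16684744))) (a (b (l 16644304) (l 16698456)) (b (l 16695928) (a (l 16680560) (l 16717432)))))) (b (a (b (a (l 16630128) (l 16640912)) (a (l 16673760) (l 16665296))) (a (b (a (l 16649032) (l 6)) (l 6)) (l 6))) (a (a (b (b (l 16671408) (l 16684464)) (b (l 16698136) (b (l 16708760) (l 16737208)))) (b (b (l 16726976) (l 6)) (l 6))) (l 6)))))))), by decide +kernel⟩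

theorem s2_pp_102 : ∃ t, chk3 f_pp_102 t 1 1 1 = true := ex3_a k0_pp_102 k1_pp_102

theorem c_pp_102 : CertB 536870912 536870912 0 536870912 536870912 50465866 3 eng mog cd4q1 cd0q2 pd0 false true true .npp 1 0 2
    ndB4q1 ndB0q2 pcB0 cut_pp_102 Ext.none :=
  certB0 (fam := false) (s1 := true) (s2 := true) (a := 1) (b := 0) (c := 2) (cn := .npp) (n1 := ndB4q1) (n2 := ndB0q2) (pc := pcB0) (cut := cut_pp_102) (xt := Ext.none) (P1 := 536870912) (W1 := 536870912) (P2 := 0) (W2 := 536870912) (P3 := 536870912) (W3 := 50465866) (N0 := 3) (En := eng) (mo := mog) (C1 := cd4q1) (C2 := cd0q2) (C3 := pd0)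
    rfl s2_pp_102

noncomputable def f_pp_112 : ℕ → ℕ → ℕ → ℕ → Bool := onCell 536870912 536870912 0 536870912 536870912 50465866
    (rowB 3 eng mog cd4q1 cd0q2 pd1 0 false true true .dn 1 1 2 (qsf 536870912 536870912 0 536870912 1) ndB4q1 ndB0q2 pcB1 Cut.none Ext.none)

def k0_pp_112 : ∃ t, chk3 f_pp_112 t 1 1 1 = true :=
  ⟨(a (b (a (b (a (l 16730656) (l 16724320)) (a (b (l 16719064) (l 16696400)) (b (l 16695496) (l 16662776)))) (a (b (b (l 16715368) (l 16698120)) (b (l 16666160) (l 16627200))) (l 1))) (a (b (a (b (l 16655464) (a (l 16591232) (l 16571800))) (b (l 16617928) (l 16552376))) (a (b (a (l 16539976) (l 16468928)) (a (b (l 16367920) (l 16301520)) (l 559452233511))) (b (l 766685120391) (l 1)))) (b (l 1) (l 1)))) (l 1)), by decide +kernel⟩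

theorem c_pp_112 : CertB 536870912 536870912 0 536870912 536870912 50465866 3 eng mog cd4q1 cd0q2 pd1 false true true .dn 1 1 2
    ndB4q1 ndB0q2 pcB1 Cut.none Ext.none :=
  certB0 (fam := false) (s1 := true) (s2 := true) (a := 1) (b := 1) (c := 2) (cn := .dn) (n1 := ndB4q1) (n2 := ndB0q2) (pc := pcB1) (cut := Cut.none) (xt := Ext.none) (P1 := 536870912) (W1 := 536870912) (P2 := 0) (W2 := 536870912) (P3 := 536870912) (W3 := 50465866) (N0 := 3) (En := eng) (mo := mog) (C1 := cd4q1) (C2 := cd0q2) (C3 := pd1)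
    rfl k0_pp_112

noncomputable def f_pp_202 : ℕ → ℕ → ℕ → ℕ → Bool := onCell 1073741824 536870912 0 536870912 536870912 50465866
    (rowB 3 eng mog cd4q2 cd0q2 pd0 0 false true true .pp 2 0 2 (qsf 1073741824 536870912 0 536870912 0) ndB4q2 ndB0q2 pcB0 Cut.none Ext.none)

def k0_pp_202 : ∃ t, chk3 f_pp_202 t 1 1 1 = true :=
  ⟨(l 3), by decide +kernel⟩

theorem c_pp_202 : CertB 1073741824 536870912 0 536870912 536870912 50465866 3 eng mog cd4q2 cd0q2 pd0 false true true .pp 2 0 2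
    ndB4q2 ndB0q2 pcB0 Cut.none Ext.none :=
  certB0 (fam := false) (s1 := true) (s2 := true) (a := 2) (b := 0) (c := 2) (cn := .pp) (n1 := ndB4q2) (n2 := ndB0q2) (pc := pcB0) (cut := Cut.none) (xt := Ext.none) (P1 := 1073741824) (W1 := 536870912) (P2 := 0) (W2 := 536870912) (P3 := 536870912) (W3 := 50465866) (N0 := 3) (En := eng) (mo := mog) (C1 := cd4q2) (C2 := cd0q2) (C3 := pd0)
    rfl k0_pp_202

noncomputable def f_pm_001 : ℕ → ℕ → ℕ → ℕ → Bool := onCell 0 536870912 536870912 536870912 536870912 50465866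
    (rowB 3 eng mog cd4q0 cd0q1 pd0 0 false true false .up 0 0 1 (qsf 0 536870912 536870912 536870912 0) ndB4q0 ndB0q1 pcB0 Cut.none Ext.none)

def k0_pm_001 : ∃ t, chk3 f_pm_001 t 1 1 1 = true :=
  ⟨(l 4), by decide +kernel⟩

theorem c_pm_001 : CertB 0 536870912 536870912 536870912 536870912 50465866 3 eng mog cd4q0 cd0q1 pd0 false true false .up 0 0 1
    ndB4q0 ndB0q1 pcB0 Cut.none Ext.none :=
  certB0 (fam := false) (s1 := true) (s2 := false) (a := 0) (b := 0) (c := 1) (cn := .up) (n1 := ndB4q0) (n2 := ndB0q1) (pc := pcB0) (cut := Cut.none) (xt := Ext.none) (P1 := 0) (W1 := 536870912) (P2 := 536870912) (W2 := 536870912) (P3 := 536870912) (W3 := 50465866) (N0 := 3) (En := eng) (mo := mog) (C1 := cd4q0) (C2 := cd0q1) (C3 := pd0)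
    rfl k0_pm_001

noncomputable def f_pm_011 : ℕ → ℕ → ℕ → ℕ → Bool := onCell 0 536870912 536870912 536870912 536870912 50465866
    (rowB 3 eng mog cd4q0 cd0q1 pd1 0 false true false .pnn 0 1 1 (qsf 0 536870912 536870912 536870912 1) ndB4q0 ndB0q1 pcB1 Cut.none Ext.none)

def k0_pm_011 : ∃ t, chk3 f_pm_011 t 1 1 1 = true :=
  ⟨(l 4), by decide +kernel⟩

theorem c_pm_011 : CertB 0 536870912 536870912 536870912 536870912 50465866 3 eng mog cd4q0 cd0q1 pd1 false true false .pnn 0 1 1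
    ndB4q0 ndB0q1 pcB1 Cut.none Ext.none :=
  certB0 (fam := false) (s1 := true) (s2 := false) (a := 0) (b := 1) (c := 1) (cn := .pnn) (n1 := ndB4q0) (n2 := ndB0q1) (pc := pcB1) (cut := Cut.none) (xt := Ext.none) (P1 := 0) (W1 := 536870912) (P2 := 536870912) (W2 := 536870912) (P3 := 536870912) (W3 := 50465866) (N0 := 3) (En := eng) (mo := mog) (C1 := cd4q0) (C2 := cd0q1) (C3 := pd1)
    rfl k0_pm_011

noncomputable def f_pm_012 : ℕ → ℕ → ℕ → ℕ → Bool := onCell 536870912 536870912 0 536870912 536870912 50465866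
    (rowB 3 eng mog cd4q0 cd0q2 pd1 2 false true false .pnp 0 1 2 (qsf 0 536870912 0 536870912 1) ndB4q0 ndB0q2 pcB1 Cut.none Ext.none)

def k0_pm_012 : ∃ t, chk3 f_pm_012 t 1 1 1 = true :=
  ⟨(a (b (a (b (l 2) (b (l 2) (l 4))) (b (a (b (l 16714696) (l 16697144)) (b (l 16696952) (l 16675464))) (b (a (l 16675720) (l 16652424)) (l 4)))) (l 4)) (b (a (b (a (l 16660352) (b (l 16635656) (l 16609416))) (a (l 16617224) (l 16583840))) (b (a (l 16582888) (b (l 16550664) (l 16531448))) (a (l 16555296) (b (l 16518992) (l 4))))) (l 4))), by decide +kernel⟩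

theorem c_pm_012 : CertB 0 536870912 0 536870912 536870912 50465866 3 eng mog cd4q0 cd0q2 pd1 false true false .pnp 0 1 2
    ndB4q0 ndB0q2 pcB1 Cut.none Ext.none :=
  certB2 (fam := false) (s1 := true) (s2 := false) (a := 0) (b := 1) (c := 2) (cn := .pnp) (n1 := ndB4q0) (n2 := ndB0q2) (pc := pcB1) (cut := Cut.none) (xt := Ext.none) (P1 := 0) (W1 := 536870912) (P2 := 0) (W2 := 536870912) (P3 := 536870912) (W3 := 50465866) (N0 := 3) (En := eng) (mo := mog) (C1 := cd4q0) (C2 := cd0q2) (C3 := pd1)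
    rfl (fun _ => rfl) k0_pm_012

noncomputable def f_pm_022 : ℕ → ℕ → ℕ → ℕ → Bool := onCell 0 536870912 0 536870912 536870912 50465866
    (rowB 3 eng mog cd4q0 cd0q2 pd2 0 false true false .pp 0 2 2 (qsf 0 536870912 0 536870912 2) ndB4q0 ndB0q2 pcB2 Cut.none Ext.none)

def k0_pm_022 : ∃ t, chk3 f_pm_022 t 1 1 1 = true :=
  ⟨(a (b (a (b (a (b (l 16573928) (l 16574416)) (b (l 16550336) (l 16541776))) (a (b (l 16578616) (l 16587544)) (b (l 16535216) (l 4)))) (a (b (b (l 16519512) (l 16499608)) (b (l 16480248) (l 4))) (l 1))) (a (l 4) (l 4))) (l 1)), by decide +kernel⟩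

theorem c_pm_022 : CertB 0 536870912 0 536870912 536870912 50465866 3 eng mog cd4q0 cd0q2 pd2 false true false .pp 0 2 2
    ndB4q0 ndB0q2 pcB2 Cut.none Ext.none :=
  certB0 (fam := false) (s1 := true) (s2 := false) (a := 0) (b := 2) (c := 2) (cn := .pp) (n1 := ndB4q0) (n2 := ndB0q2) (pc := pcB2) (cut := Cut.none) (xt := Ext.none) (P1 := 0) (W1 := 536870912) (P2 := 0) (W2 := 536870912) (P3 := 536870912) (W3 := 50465866) (N0 := 3) (En := eng) (mo := mog) (C1 := cd4q0) (C2 := cd0q2) (C3 := pd2)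
    rfl k0_pm_022

noncomputable def f_pm_101 : ℕ → ℕ → ℕ → ℕ → Bool := onCell 536870912 536870912 536870912 536870912 536870912 50465866
    (rowB 3 eng mog cd4q1 cd0q1 pd0 0 false true false .npn 1 0 1 (qsf 536870912 536870912 536870912 536870912 0) ndB4q1 ndB0q1 pcB0 Cut.none Ext.none)

def k0_pm_101 : ∃ t, chk3 f_pm_101 t 1 1 1 = true :=
  ⟨(l 4), by decide +kernel⟩

theorem c_pm_101 : CertB 536870912 536870912 536870912 536870912 536870912 50465866 3 eng mog cd4q1 cd0q1 pd0 false true false .npn 1 0 1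
    ndB4q1 ndB0q1 pcB0 Cut.none Ext.none :=
  certB0 (fam := false) (s1 := true) (s2 := false) (a := 1) (b := 0) (c := 1) (cn := .npn) (n1 := ndB4q1) (n2 := ndB0q1) (pc := pcB0) (cut := Cut.none) (xt := Ext.none) (P1 := 536870912) (W1 := 536870912) (P2 := 536870912) (W2 := 536870912) (P3 := 536870912) (W3 := 50465866) (N0 := 3) (En := eng) (mo := mog) (C1 := cd4q1) (C2 := cd0q1) (C3 := pd0)
    rfl k0_pm_101

noncomputable def f_pm_102 : ℕ → ℕ → ℕ → ℕ → Bool := onCell 536870912 536870912 0 536870912 536870912 50465866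
    (rowB 3 eng mog cd4q1 cd0q2 pd0 0 false true false .npp 1 0 2 (qsf 536870912 536870912 0 536870912 0) ndB4q1 ndB0q2 pcB0 Cut.none Ext.none)

def k0_pm_102 : ∃ t, chk3 f_pm_102 t 1 1 1 = true :=
  ⟨(a (b (a (b (l 2) (a (l 2) (l 16699536))) (b (a (b (l 16721536) (l 16719472)) (b (l 16710208) (l 16714560))) (a (l 16809504) (l 16705592)))) (l 4)) (b (a (b (b (l 16767840) (a (l 16705704) (l 16689256))) (a (l 16892320) (b (l 16698816) (l 16694592)))) (b (b (a (l 16642120) (l 16607256)) (a (l 16667808) (l 16637520))) (a (b (l 16685544) (l 16687992)) (b (l 16664064) (l 16675976))))) (l 4))), by decide +kernel⟩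

theorem c_pm_102 : CertB 536870912 536870912 0 536870912 536870912 50465866 3 eng mog cd4q1 cd0q2 pd0 false true false .npp 1 0 2
    ndB4q1 ndB0q2 pcB0 Cut.none Ext.none :=
  certB0 (fam := false) (s1 := true) (s2 := false) (a := 1) (b := 0) (c := 2) (cn := .npp) (n1 := ndB4q1) (n2 := ndB0q2) (pc := pcB0) (cut := Cut.none) (xt := Ext.none) (P1 := 536870912) (W1 := 536870912) (P2 := 0) (W2 := 536870912) (P3 := 536870912) (W3 := 50465866) (N0 := 3) (En := eng) (mo := mog) (C1 := cd4q1) (C2 := cd0q2) (C3 := pd0)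
    rfl k0_pm_102

noncomputable def f_pm_112 : ℕ → ℕ → ℕ → ℕ → Bool := onCell 536870912 536870912 0 536870912 536870912 50465866
    (rowB 3 eng mog cd4q1 cd0q2 pd1 0 false true false .dn 1 1 2 (qsf 536870912 536870912 0 536870912 1) ndB4q1 ndB0q2 pcB1 Cut.none Ext.none)

def k0_pm_112 : ∃ t, chk3 f_pm_112 t 1 1 1 = true :=
  ⟨(a (b (a (b (a (l 16904536) (l 16723928)) (a (l 16685160) (l 16698304))) (a (b (b (l 16721200) (l 16718968)) (l 16704360)) (l 1))) (l 4)) (l 1)), by decide +kernel⟩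

theorem c_pm_112 : CertB 536870912 536870912 0 536870912 536870912 50465866 3 eng mog cd4q1 cd0q2 pd1 false true false .dn 1 1 2
    ndB4q1 ndB0q2 pcB1 Cut.none Ext.none :=
  certB0 (fam := false) (s1 := true) (s2 := false) (a := 1) (b := 1) (c := 2) (cn := .dn) (n1 := ndB4q1) (n2 := ndB0q2) (pc := pcB1) (cut := Cut.none) (xt := Ext.none) (P1 := 536870912) (W1 := 536870912) (P2 := 0) (W2 := 536870912) (P3 := 536870912) (W3 := 50465866) (N0 := 3) (En := eng) (mo := mog) (C1 := cd4q1) (C2 := cd0q2) (C3 := pd1)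
    rfl k0_pm_112

noncomputable def f_pm_202 : ℕ → ℕ → ℕ → ℕ → Bool := onCell 0 536870912 0 536870912 536870912 50465866
    (rowB 3 eng mog cd4q2 cd0q2 pd0 2 false true false .pp 2 0 2 (qsf 1073741824 536870912 0 536870912 0) ndB4q2 ndB0q2 pcB0 Cut.none Ext.none)

def k0_pm_202 : ∃ t, chk3 f_pm_202 t 1 1 1 = true :=
  ⟨(a (b (a (b (l 3) (b (l 3) (a (b (a (b (l 3) (l 247664850983)) (l 124721469559)) (a (b (a (a (a (l 135995793415) (l 125258282743)) (a (l 123647685783) (l 16569304))) (b (l 16594368) (b (l 16617960) (l 16635296)))) (a (l 16597232) (b (l 16583144) (l 16587912)))) (b (b (l 16620504) (a (l 16544480) (l 16554872))) (a (b (l 16591224) (l 16557216)) (b (l 16561672) (l 16567552)))))) (b (b (a (l 137069509879) (a (l 129553276647) (b (l 16568320) (l 16572152)))) (a (a (l 16604488) (l 16603344)) (b (l 16614192) (l 16598800)))) (b (a (b (l 16615104) (l 16570280)) (l 16586688)) (a (a (l 16575120) (l 16627000)) (l 16661816))))))) (b (l 3) (a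 (a (b (b (l 3) (l 3)) (b (a (b (b (l 16577568) (l 16582200)) (l 165389398135)) (l 1)) (l 199749207591))) (l 1)) (l 1)))) (a (b (a (b (b (a (a (l 16561856) (a (l 16566624) (l 16568456))) (a (b (a (l 16563824) (l 16695416)) (l 16583752)) (b (l 16578080) (a (l 16589056) (l 16593616))))) (a (l 16597896) (l 16611016))) (a (b (l 16627352) (l 16652992)) (l 16652704))) (b (b (a (a (b (l 16587712) (l 16601128)) (l 16603784)) (b (a (l 16606080) (l 16614888)) (l 16623120))) (a (a (b (l 16614152) (l 16628992)) (b (l 16623000) (l 16636448))) (a (l 16680064) (l 1)))) (a (b (l 16653000) (l 16677960)) (a (l 16677080) (l 1))))) (a (b (a (b (l 16674856) (a (l 16691176) (l 16696056))) (b (l 16686304) (a (l 16702448) (l 16710552)))) (a (b (a (l 16705632) (b (l 16708392) (l 16716584))) (a (l 16718896) (l 262026569495))) (b (a (b (l 16716584) (l 1)) (l 1)) (l 1)))) (b (a (b (l 16701280) (l 1)) (l 1)) (l 1)))) (b (l 1) (l 1)))) (l 1)), by decide +kernel⟩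

theorem c_pm_202 : CertB 1073741824 536870912 0 536870912 536870912 50465866 3 eng mog cd4q2 cd0q2 pd0 false true false .pp 2 0 2
    ndB4q2 ndB0q2 pcB0 Cut.none Ext.none :=
  certB2 (fam := false) (s1 := true) (s2 := false) (a := 2) (b := 0) (c := 2) (cn := .pp) (n1 := ndB4q2) (n2 := ndB0q2) (pc := pcB0) (cut := Cut.none) (xt := Ext.none) (P1 := 1073741824) (W1 := 536870912) (P2 := 0) (W2 := 536870912) (P3 := 536870912) (W3 := 50465866) (N0 := 3) (En := eng) (mo := mog) (C1 := cd4q2) (C2 := cd0q2) (C3 := pd0)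
    rfl (fun _ => rfl) k0_pm_202

noncomputable def f_mm_001 : ℕ → ℕ → ℕ → ℕ → Bool := onCell 0 536870912 536870912 536870912 536870912 50465866
    (rowB 3 eng mog cd4q0 cd0q1 pd0 0 false false false .up 0 0 1 (qsf 0 536870912 536870912 536870912 0) ndB4q0 ndB0q1 pcB0 Cut.none Ext.none)

def k0_mm_001 : ∃ t, chk3 f_mm_001 t 1 1 1 = true :=
  ⟨(l 5), by decide +kernel⟩

theorem c_mm_001 : CertB 0 536870912 536870912 536870912 536870912 50465866 3 eng mog cd4q0 cd0q1 pd0 false false false .up 0 0 1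
    ndB4q0 ndB0q1 pcB0 Cut.none Ext.none :=
  certB0 (fam := false) (s1 := false) (s2 := false) (a := 0) (b := 0) (c := 1) (cn := .up) (n1 := ndB4q0) (n2 := ndB0q1) (pc := pcB0) (cut := Cut.none) (xt := Ext.none) (P1 := 0) (W1 := 536870912) (P2 := 536870912) (W2 := 536870912) (P3 := 536870912) (W3 := 50465866) (N0 := 3) (En := eng) (mo := mog) (C1 := cd4q0) (C2 := cd0q1) (C3 := pd0)
    rfl k0_mm_001

noncomputable def f_mm_011 : ℕ → ℕ → ℕ → ℕ → Bool := onCell 0 536870912 536870912 536870912 536870912 50465866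
    (rowB 3 eng mog cd4q0 cd0q1 pd1 0 false false false .pnn 0 1 1 (qsf 0 536870912 536870912 536870912 1) ndB4q0 ndB0q1 pcB1 Cut.none Ext.none)

def k0_mm_011 : ∃ t, chk3 f_mm_011 t 1 1 1 = true :=
  ⟨(l 5), by decide +kernel⟩

theorem c_mm_011 : CertB 0 536870912 536870912 536870912 536870912 50465866 3 eng mog cd4q0 cd0q1 pd1 false false false .pnn 0 1 1
    ndB4q0 ndB0q1 pcB1 Cut.none Ext.none :=
  certB0 (fam := false) (s1 := false) (s2 := false) (a := 0) (b := 1) (c := 1) (cn := .pnn) (n1 := ndB4q0) (n2 := ndB0q1) (pc := pcB1) (cut := Cut.none) (xt := Ext.none) (P1 := 0) (W1 := 536870912) (P2 := 536870912) (W2 := 536870912) (P3 := 536870912) (W3 := 50465866) (N0 := 3) (En := eng) (mo := mog) (C1 := cd4q0) (C2 := cd0q1) (C3 := pd1)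
    rfl k0_mm_011

noncomputable def f_mm_012 : ℕ → ℕ → ℕ → ℕ → Bool := onCell 0 536870912 0 536870912 536870912 50465866
    (rowB 3 eng mog cd4q0 cd0q2 pd1 0 false false false .pnp 0 1 2 (qsf 0 536870912 0 536870912 1) ndB4q0 ndB0q2 pcB1 Cut.none Ext.none)

def k0_mm_012 : ∃ t, chk3 f_mm_012 t 1 1 1 = true :=
  ⟨(l 5), by decide +kernel⟩

theorem c_mm_012 : CertB 0 536870912 0 536870912 536870912 50465866 3 eng mog cd4q0 cd0q2 pd1 false false false .pnp 0 1 2
    ndB4q0 ndB0q2 pcB1 Cut.none Ext.none :=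
  certB0 (fam := false) (s1 := false) (s2 := false) (a := 0) (b := 1) (c := 2) (cn := .pnp) (n1 := ndB4q0) (n2 := ndB0q2) (pc := pcB1) (cut := Cut.none) (xt := Ext.none) (P1 := 0) (W1 := 536870912) (P2 := 0) (W2 := 536870912) (P3 := 536870912) (W3 := 50465866) (N0 := 3) (En := eng) (mo := mog) (C1 := cd4q0) (C2 := cd0q2) (C3 := pd1)
    rfl k0_mm_012

noncomputable def f_mm_022 : ℕ → ℕ → ℕ → ℕ → Bool := onCell 0 536870912 0 536870912 536870912 50465866
    (rowB 3 eng mog cd4q0 cd0q2 pd2 0 false false false .pp 0 2 2 (qsf 0 536870912 0 536870912 2) ndB4q0 ndB0q2 pcB2 Cut.none Ext.none)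

def k0_mm_022 : ∃ t, chk3 f_mm_022 t 1 1 1 = true :=
  ⟨(l 5), by decide +kernel⟩

theorem c_mm_022 : CertB 0 536870912 0 536870912 536870912 50465866 3 eng mog cd4q0 cd0q2 pd2 false false false .pp 0 2 2
    ndB4q0 ndB0q2 pcB2 Cut.none Ext.none :=
  certB0 (fam := false) (s1 := false) (s2 := false) (a := 0) (b := 2) (c := 2) (cn := .pp) (n1 := ndB4q0) (n2 := ndB0q2) (pc := pcB2) (cut := Cut.none) (xt := Ext.none) (P1 := 0) (W1 := 536870912) (P2 := 0) (W2 := 536870912) (P3 := 536870912) (W3 := 50465866) (N0 := 3) (En := eng) (mo := mog) (C1 := cd4q0) (C2 := cd0q2) (C3 := pd2)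
    rfl k0_mm_022

noncomputable def f_mm_101 : ℕ → ℕ → ℕ → ℕ → Bool := onCell 536870912 536870912 536870912 536870912 536870912 50465866
    (rowB 3 eng mog cd4q1 cd0q1 pd0 0 false false false .npn 1 0 1 (qsf 536870912 536870912 536870912 536870912 0) ndB4q1 ndB0q1 pcB0 Cut.none Ext.none)

def k0_mm_101 : ∃ t, chk3 f_mm_101 t 1 1 1 = true :=
  ⟨(b (l 3) (l 5)), by decide +kernel⟩

theorem c_mm_101 : CertB 536870912 536870912 536870912 536870912 536870912 50465866 3 eng mog cd4q1 cd0q1 pd0 false false false .npn 1 0 1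
    ndB4q1 ndB0q1 pcB0 Cut.none Ext.none :=
  certB0 (fam := false) (s1 := false) (s2 := false) (a := 1) (b := 0) (c := 1) (cn := .npn) (n1 := ndB4q1) (n2 := ndB0q1) (pc := pcB0) (cut := Cut.none) (xt := Ext.none) (P1 := 536870912) (W1 := 536870912) (P2 := 536870912) (W2 := 536870912) (P3 := 536870912) (W3 := 50465866) (N0 := 3) (En := eng) (mo := mog) (C1 := cd4q1) (C2 := cd0q1) (C3 := pd0)
    rfl k0_mm_101

noncomputable def f_mm_102 : ℕ → ℕ → ℕ → ℕ → Bool := onCell 536870912 536870912 0 536870912 536870912 50465866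
    (rowB 3 eng mog cd4q1 cd0q2 pd0 0 false false false .npp 1 0 2 (qsf 536870912 536870912 0 536870912 0) ndB4q1 ndB0q2 pcB0 Cut.none Ext.none)

def k0_mm_102 : ∃ t, chk3 f_mm_102 t 1 1 1 = true :=
  ⟨(l 5), by decide +kernel⟩

theorem c_mm_102 : CertB 536870912 536870912 0 536870912 536870912 50465866 3 eng mog cd4q1 cd0q2 pd0 false false false .npp 1 0 2
    ndB4q1 ndB0q2 pcB0 Cut.none Ext.none :=
  certB0 (fam := false) (s1 := false) (s2 := false) (a := 1) (b := 0) (c := 2) (cn := .npp) (n1 := ndB4q1) (n2 := ndB0q2) (pc := pcB0) (cut := Cut.none) (xt := Ext.none) (P1 := 536870912) (W1 := 536870912) (P2 := 0) (W2 := 536870912) (P3 := 536870912) (W3 := 50465866) (N0 := 3) (En := eng) (mo := mog) (C1 := cd4q1) (C2 := cd0q2) (C3 := pd0)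
    rfl k0_mm_102

noncomputable def f_mm_112 : ℕ → ℕ → ℕ → ℕ → Bool := onCell 536870912 536870912 0 536870912 536870912 50465866
    (rowB 3 eng mog cd4q1 cd0q2 pd1 0 false false false .dn 1 1 2 (qsf 536870912 536870912 0 536870912 1) ndB4q1 ndB0q2 pcB1 Cut.none Ext.none)

def k0_mm_112 : ∃ t, chk3 f_mm_112 t 1 1 1 = true :=
  ⟨(l 5), by decide +kernel⟩

theorem c_mm_112 : CertB 536870912 536870912 0 536870912 536870912 50465866 3 eng mog cd4q1 cd0q2 pd1 false false false .dn 1 1 2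
    ndB4q1 ndB0q2 pcB1 Cut.none Ext.none :=
  certB0 (fam := false) (s1 := false) (s2 := false) (a := 1) (b := 1) (c := 2) (cn := .dn) (n1 := ndB4q1) (n2 := ndB0q2) (pc := pcB1) (cut := Cut.none) (xt := Ext.none) (P1 := 536870912) (W1 := 536870912) (P2 := 0) (W2 := 536870912) (P3 := 536870912) (W3 := 50465866) (N0 := 3) (En := eng) (mo := mog) (C1 := cd4q1) (C2 := cd0q2) (C3 := pd1)
    rfl k0_mm_112

noncomputable def f_mm_202 : ℕ → ℕ → ℕ → ℕ → Bool := onCell 1073741824 536870912 0 536870912 536870912 50465866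
    (rowB 3 eng mog cd4q2 cd0q2 pd0 0 false false false .pp 2 0 2 (qsf 1073741824 536870912 0 536870912 0) ndB4q2 ndB0q2 pcB0 Cut.none Ext.none)

def k0_mm_202 : ∃ t, chk3 f_mm_202 t 1 1 1 = true :=
  ⟨(l 3), by decide +kernel⟩

theorem c_mm_202 : CertB 1073741824 536870912 0 536870912 536870912 50465866 3 eng mog cd4q2 cd0q2 pd0 false false false .pp 2 0 2
    ndB4q2 ndB0q2 pcB0 Cut.none Ext.none :=
  certB0 (fam := false) (s1 := false) (s2 := false) (a := 2) (b := 0) (c := 2) (cn := .pp) (n1 := ndB4q2) (n2 := ndB0q2) (pc := pcB0) (cut := Cut.none) (xt := Ext.none) (P1 := 1073741824) (W1 := 536870912) (P2 := 0) (W2 := 536870912) (P3 := 536870912) (W3 := 50465866) (N0 := 3) (En := eng) (mo := mog) (C1 := cd4q2) (C2 := cd0q2) (C3 := pd0)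
    rfl k0_mm_202

end Pool.Agent.Strip051.G.I5000_5470.Tab.C.BB40

namespace Pool.Agent.Strip051.G.I5000_5470.Tab.C.BB41

open Pool.Agent.Strip051.PB Pool.Agent.Strip051.PB.T
open Pool.Agent.Strip051.G.I5000_5470.Tab

noncomputable def f_pp_001 : ℕ → ℕ → ℕ → ℕ → Bool := onCell 0 536870912 0 536870912 536870912 50465866
    (rowB 3 eng mog cd4q0 cd1q1 pd0 1 false true true .up 0 0 1 (qsf 0 536870912 536870912 536870912 0) ndB4q0 ndB1q1 pcB0 Cut.none Ext.none)

def k0_pp_001 : ∃ t, chk3 f_pp_001 t 1 1 1 = true :=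
  ⟨(a (l 3) (b (l 3) (l 3))), by decide +kernel⟩

theorem c_pp_001 : CertB 0 536870912 536870912 536870912 536870912 50465866 3 eng mog cd4q0 cd1q1 pd0 false true true .up 0 0 1
    ndB4q0 ndB1q1 pcB0 Cut.none Ext.none :=
  certB1 (fam := false) (s1 := true) (s2 := true) (a := 0) (b := 0) (c := 1) (cn := .up) (n1 := ndB4q0) (n2 := ndB1q1) (pc := pcB0) (cut := Cut.none) (xt := Ext.none) (P1 := 0) (W1 := 536870912) (P2 := 536870912) (W2 := 536870912) (P3 := 536870912) (W3 := 50465866) (N0 := 3) (En := eng) (mo := mog) (C1 := cd4q0) (C2 := cd1q1) (C3 := pd0)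
    rfl (fun _ => rfl) k0_pp_001

noncomputable def f_pp_011 : ℕ → ℕ → ℕ → ℕ → Bool := onCell 0 536870912 536870912 536870912 536870912 50465866
    (rowB 3 eng mog cd4q0 cd1q1 pd1 0 false true true .pnn 0 1 1 (qsf 0 536870912 536870912 536870912 1) ndB4q0 ndB1q1 pcB1 Cut.none Ext.none)

def k0_pp_011 : ∃ t, chk3 f_pp_011 t 1 1 1 = true :=
  ⟨(a (b (l 3) (b (l 3) (b (l 3) (b (b (a (l 3) (l 3)) (a (a (a (l 16797832) (l 58686994423)) (a (l 16814984) (l 3))) (l 3))) (a (a (b (a (l 16777032) (l 16784160)) (a (l 16756280) (l 16762664))) (b (a (l 16810536) (l 16794528)) (a (l 16765296) (l 16766144)))) (a (a (b (l 16944944) (l 16767040)) (b (l 16866256) (l 16771656))) (b (a (l 16805288) (l 3)) (a (l 16816800) (l 16775560))))))))) (b (l 3) (b (l 3) (a (b (l 3) (b (l 3) (b (l 3) (a (a (l 16863008) (a (l 16847320) (l 16768624))) (a (l 284709444887) (l 3)))))) (l 3))))), by decide +kernel⟩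

theorem c_pp_011 : CertB 0 536870912 536870912 536870912 536870912 50465866 3 eng mog cd4q0 cd1q1 pd1 false true true .pnn 0 1 1
    ndB4q0 ndB1q1 pcB1 Cut.none Ext.none :=
  certB0 (fam := false) (s1 := true) (s2 := true) (a := 0) (b := 1) (c := 1) (cn := .pnn) (n1 := ndB4q0) (n2 := ndB1q1) (pc := pcB1) (cut := Cut.none) (xt := Ext.none) (P1 := 0) (W1 := 536870912) (P2 := 536870912) (W2 := 536870912) (P3 := 536870912) (W3 := 50465866) (N0 := 3) (En := eng) (mo := mog) (C1 := cd4q0) (C2 := cd1q1) (C3 := pd1)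
    rfl k0_pp_011

noncomputable def f_pp_012_a : ℕ → ℕ → ℕ → ℕ → Bool := onCell 0 536870912 0 536870912 536870912 50465866
    (rowB 3 eng mog cd4q0 cd1q2a pd1 0 false true true .pnp 0 1 2 (qsf 0 536870912 0 536870912 1) ndB4q0 ndB1q2a pcB1 Cut.none Ext.none)

def k0_pp_012_a : ∃ t, chk3 f_pp_012_a t 1 1 1 = true :=
  ⟨(a (b (a (a (l 2) (a (l 2) (a (l 2) (b (l 2) (l 16592352))))) (b (a (a (l 16558904) (l 16593208)) (l 16634168)) (a (a (b (l 16602936) (l 16639976)) (l 16654608)) (l 16690096)))) (a (b (b (a (l 2) (a (l 2) (l 16647824))) (a (l 2) (a (a (l 16653536) (l 16674048)) (l 16700232)))) (b (a (a (l 2) (b (l 16571368) (l 16703240))) (a (b (l 16708232) (l 16730888)) (l 16734504))) (a (b (a (b (l 16698200) (l 16713056)) (a (l 16726904) (l 16735392))) (a (b (l 16727424) (l 16740912)) (l 16725112))) (b (a (l 16727656) (l 16696616)) (a (l 16717112) (l 16706912)))))) (b (a (b (l 16695576) (a (l 16722896) (l 16733936))) (b (l 16728216) (l 16735480)))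 (b (a (b (l 16732184) (l 16704008)) (l 16738576)) (a (b (l 16669160) (a (l 16693752) (l 16683000))) (b (l 16637840) (l 16666640))))))) (b (a (b (a (l 16674984) (l 16709040)) (a (l 16783056) (l 16734344))) (a (b (l 16725664) (l 16732288)) (b (a (l 16730232) (l 16731800)) (a (l 16725632) (l 16719144))))) (a (b (a (b (l 16738424) (l 16760608)) (b (l 16728216) (l 16686184))) (b (a (l 16802552) (b (l 16611376) (l 16527816))) (a (a (l 16628808) (b (l 16586376) (l 16623792))) (b (b (l 16491480) (l 16694768)) (a (b (l 16552792) (l 16581296)) (l 16517048)))))) (b (a (b (a (l 16713728) (l 16703728)) (a (l 16663256) (b (l 16666504) (l 16624336)))) (b (a (l 16691960) (l 16675120)) (a (l 16624216) (l 16599544)))) (a (b (a (l 16548768) (l 16520512)) (a (b (l 16421552) (l 16471048)) (b (l 16379152) (l 16425792)))) (b (a (l 16490440) (l 16467864)) (a (l 16415424) (l 16424856)))))))), by decide +kernel⟩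

theorem c_pp_012_a : CertB 0 536870912 0 536870912 536870912 50465866 3 eng mog cd4q0 cd1q2a pd1 false true true .pnp 0 1 2
    ndB4q0 ndB1q2a pcB1 Cut.none Ext.none :=
  certB0 (fam := false) (s1 := true) (s2 := true) (a := 0) (b := 1) (c := 2) (cn := .pnp) (n1 := ndB4q0) (n2 := ndB1q2a) (pc := pcB1) (cut := Cut.none) (xt := Ext.none) (P1 := 0) (W1 := 536870912) (P2 := 0) (W2 := 536870912) (P3 := 536870912) (W3 := 50465866) (N0 := 3) (En := eng) (mo := mog) (C1 := cd4q0) (C2 := cd1q2a) (C3 := pd1)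
    rfl k0_pp_012_a

noncomputable def f_pp_012_b : ℕ → ℕ → ℕ → ℕ → Bool := onCell 0 536870912 1239849684 370763052 536870912 50465866
    (rowB 3 eng mog cd4q0 cd1q2b pd1 0 false true true .pnp 0 1 2 (qsf 0 536870912 1239849684 370763052 1) ndB4q0 ndB1q2b pcB1 Cut.none Ext.none)

def k0_pp_012_b : ∃ t, chk3 f_pp_012_b t 1 1 1 = true :=
  ⟨(a (a (l 2) (b (b (a (b (a (l 16493776) (l 16530208)) (l 2)) (b (l 16578080) (l 16507880))) (a (l 2) (l 16392104))) (l 2))) (a (b (a (b (l 16605088) (l 16489216)) (b (l 16670752) (l 16618240))) (a (l 2) (b (l 16549504) (l 2)))) (a (b (b (l 16714936) (l 16719552)) (l 16729504)) (b (b (l 16741144) (l 16789624)) (l 16908128))))), by decide +kernel⟩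

theorem c_pp_012_b : CertB 0 536870912 1239849684 370763052 536870912 50465866 3 eng mog cd4q0 cd1q2b pd1 false true true .pnp 0 1 2
    ndB4q0 ndB1q2b pcB1 Cut.none Ext.none :=
  certB0 (fam := false) (s1 := true) (s2 := true) (a := 0) (b := 1) (c := 2) (cn := .pnp) (n1 := ndB4q0) (n2 := ndB1q2b) (pc := pcB1) (cut := Cut.none) (xt := Ext.none) (P1 := 0) (W1 := 536870912) (P2 := 1239849684) (W2 := 370763052) (P3 := 536870912) (W3 := 50465866) (N0 := 3) (En := eng) (mo := mog) (C1 := cd4q0) (C2 := cd1q2b) (C3 := pd1)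
    rfl k0_pp_012_b

noncomputable def f_pp_022_a : ℕ → ℕ → ℕ → ℕ → Bool := onCell 0 536870912 0 536870912 536870912 50465866
    (rowB 3 eng mog cd4q0 cd1q2a pd2 0 false true true .pp 0 2 2 (qsf 0 536870912 0 536870912 2) ndB4q0 ndB1q2a pcB2 Cut.none Ext.none)

def k0_pp_022_a : ∃ t, chk3 f_pp_022_a t 1 1 1 = true :=
  ⟨(a (b (b (a (a (b (l 16579912) (l 16586928)) (b (l 16570368) (l 16582992))) (a (b (l 16557880) (l 16642400)) (l 1))) (a (a (b (l 16597704) (l 16612528)) (b (l 16598488) (l 16616896))) (a (b (l 16602392) (l 226056176439)) (l 1)))) (a (b (b (a (l 16632424) (a (l 16638272) (l 16645000))) (a (a (l 16654608) (l 16660360)) (a (l 16668248) (l 218003182919)))) (a (b (a (b (l 16676152) (l 16692736)) (b (l 16683800) (a (l 16699640) (l 16706608)))) (a (b (a (l 16708280) (l 16714256)) (a (l 147673064855) (b (l 16729808) (l 1)))) (b (a (l 286185768807) (l 1)) (l 1)))) (b (a (b (l 16696808) (l 1)) (l 1)) (l 1)))) (b (l 1) (l 1)))) (l 1)), by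 decide +kernel⟩

theorem c_pp_022_a : CertB 0 536870912 0 536870912 536870912 50465866 3 eng mog cd4q0 cd1q2a pd2 false true true .pp 0 2 2
    ndB4q0 ndB1q2a pcB2 Cut.none Ext.none :=
  certB0 (fam := false) (s1 := true) (s2 := true) (a := 0) (b := 2) (c := 2) (cn := .pp) (n1 := ndB4q0) (n2 := ndB1q2a) (pc := pcB2) (cut := Cut.none) (xt := Ext.none) (P1 := 0) (W1 := 536870912) (P2 := 0) (W2 := 536870912) (P3 := 536870912) (W3 := 50465866) (N0 := 3) (En := eng) (mo := mog) (C1 := cd4q0) (C2 := cd1q2a) (C3 := pd2)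
    rfl k0_pp_022_a

noncomputable def f_pp_022_b : ℕ → ℕ → ℕ → ℕ → Bool := onCell 0 536870912 1073741824 536870912 536870912 50465866
    (rowB 3 eng mog cd4q0 cd1q2b pd2 1 false true true .pp 0 2 2 (qsf 0 536870912 1239849684 370763052 2) ndB4q0 ndB1q2b pcB2 Cut.none Ext.none)

def k0_pp_022_b : ∃ t, chk3 f_pp_022_b t 1 1 1 = true :=
  ⟨(a (b (b (a (a (b (l 1) (l 287796518935)) (b (l 285111907127) (l 16543832))) (b (a (l 16532496) (l 16495528)) (l 16487088))) (a (b (a (l 318398051879) (l 16503568)) (a (l 16486848) (l 16459920))) (b (l 16463672) (l 16440104)))) (b (a (b (l 16406496) (l 16325176)) (b (l 16411728) (l 16373248))) (a (b (l 16221816) (l 16091464)) (l 4)))) (a (b (b (a (l 16477800) (l 16568560)) (b (l 16511864) (l 16512056))) (b (b (l 16513224) (l 2)) (l 2))) (b (b (a (l 16729984) (l 16970576)) (a (l 16747304) (l 2))) (l 2)))), by decide +kernel⟩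

theorem c_pp_022_b : CertB 0 536870912 1239849684 370763052 536870912 50465866 3 eng mog cd4q0 cd1q2b pd2 false true true .pp 0 2 2
    ndB4q0 ndB1q2b pcB2 Cut.none Ext.none :=
  certB1 (fam := false) (s1 := true) (s2 := true) (a := 0) (b := 2) (c := 2) (cn := .pp) (n1 := ndB4q0) (n2 := ndB1q2b) (pc := pcB2) (cut := Cut.none) (xt := Ext.none) (P1 := 0) (W1 := 536870912) (P2 := 1239849684) (W2 := 370763052) (P3 := 536870912) (W3 := 50465866) (N0 := 3) (En := eng) (mo := mog) (C1 := cd4q0) (C2 := cd1q2b) (C3 := pd2)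
    rfl (fun _ => rfl) k0_pp_022_b

noncomputable def f_pp_023 : ℕ → ℕ → ℕ → ℕ → Bool := onCell 0 536870912 1610612736 536870912 536870912 50465866
    (rowB 3 eng mog cd4q0 cd1q3 pd2 0 false true true .up 0 2 3 (qsf 0 536870912 1610612736 536870912 2) ndB4q0 ndB1q3 pcB2 Cut.none Ext.none)

def k0_pp_023 : ∃ t, chk3 f_pp_023 t 1 1 1 = true :=
  ⟨(b (a (b (a (l 4) (b (a (l 4) (l 16407784)) (l 4))) (l 4)) (a (b (b (a (l 16455048) (l 16581840)) (l 4)) (l 4)) (b (a (b (l 16745032) (l 16756944)) (l 16982384)) (l 4)))) (l 4)), by decide +kernel⟩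

theorem c_pp_023 : CertB 0 536870912 1610612736 536870912 536870912 50465866 3 eng mog cd4q0 cd1q3 pd2 false true true .up 0 2 3
    ndB4q0 ndB1q3 pcB2 Cut.none Ext.none :=
  certB0 (fam := false) (s1 := true) (s2 := true) (a := 0) (b := 2) (c := 3) (cn := .up) (n1 := ndB4q0) (n2 := ndB1q3) (pc := pcB2) (cut := Cut.none) (xt := Ext.none) (P1 := 0) (W1 := 536870912) (P2 := 1610612736) (W2 := 536870912) (P3 := 536870912) (W3 := 50465866) (N0 := 3) (En := eng) (mo := mog) (C1 := cd4q0) (C2 := cd1q3) (C3 := pd2)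
    rfl k0_pp_023

noncomputable def f_pp_033 : ℕ → ℕ → ℕ → ℕ → Bool := onCell 0 536870912 1610612736 536870912 536870912 50465866
    (rowB 3 eng mog cd4q0 cd1q3 pd3 0 false true true .pnn 0 3 3 (qsf 0 536870912 1610612736 536870912 3) ndB4q0 ndB1q3 pcB3 Cut.none Ext.none)

def k0_pp_033 : ∃ t, chk3 f_pp_033 t 1 1 1 = true :=
  ⟨(b (a (a (l 4) (b (b (l 1) (l 4)) (l 4))) (a (b (l 1) (l 4)) (l 1))) (l 4)), by decide +kernel⟩

theorem c_pp_033 : CertB 0 536870912 1610612736 536870912 536870912 50465866 3 eng mog cd4q0 cd1q3 pd3 false true true .pnn 0 3 3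
    ndB4q0 ndB1q3 pcB3 Cut.none Ext.none :=
  certB0 (fam := false) (s1 := true) (s2 := true) (a := 0) (b := 3) (c := 3) (cn := .pnn) (n1 := ndB4q0) (n2 := ndB1q3) (pc := pcB3) (cut := Cut.none) (xt := Ext.none) (P1 := 0) (W1 := 536870912) (P2 := 1610612736) (W2 := 536870912) (P3 := 536870912) (W3 := 50465866) (N0 := 3) (En := eng) (mo := mog) (C1 := cd4q0) (C2 := cd1q3) (C3 := pd3)
    rfl k0_pp_033

noncomputable def f_pp_101 : ℕ → ℕ → ℕ → ℕ → Bool := onCell 536870912 536870912 536870912 536870912 536870912 50465866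
    (rowB 3 eng mog cd4q1 cd1q1 pd0 0 false true true .npn 1 0 1 (qsf 536870912 536870912 536870912 536870912 0) ndB4q1 ndB1q1 pcB0 Cut.none Ext.none)

def k0_pp_101 : ∃ t, chk3 f_pp_101 t 1 1 1 = true :=
  ⟨(a (b (l 3) (l 3)) (l 3)), by decide +kernel⟩

theorem c_pp_101 : CertB 536870912 536870912 536870912 536870912 536870912 50465866 3 eng mog cd4q1 cd1q1 pd0 false true true .npn 1 0 1
    ndB4q1 ndB1q1 pcB0 Cut.none Ext.none :=
  certB0 (fam := false) (s1 := true) (s2 := true) (a := 1) (b := 0) (c := 1) (cn := .npn) (n1 := ndB4q1) (n2 := ndB1q1) (pc := pcB0) (cut := Cut.none) (xt := Ext.none) (P1 := 536870912) (W1 := 536870912) (P2 := 536870912) (W2 := 536870912) (P3 := 536870912) (W3 := 50465866) (N0 := 3) (En := eng) (mo := mog) (C1 := cd4q1) (C2 := cd1q1) (C3 := pd0)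
    rfl k0_pp_101

noncomputable def cut_pp_102_a : Cut := Cut.of [[⟨0, 1, 0, 67108864⟩, ⟨1, 0, 0, 67108864⟩, ⟨2, 1, 0, 67108864⟩]]

noncomputable def f_pp_102_a : ℕ → ℕ → ℕ → ℕ → Bool := onCell 0 536870912 0 536870912 536870912 50465866
    (rowB 3 eng mog cd4q1 cd1q2a pd0 2 false true true .npp 1 0 2 (qsf 536870912 536870912 0 536870912 0) ndB4q1 ndB1q2a pcB0 cut_pp_102_a Ext.none)

def k0_pp_102_a : ∃ t, chk3 f_pp_102_a t 2 1 1 = true :=
  ⟨(b (a (b (l 2) (b (l 2) (a (l 2) (a (l 2) (l 16472360))))) (b (a (a (l 16495304) (l 16519440)) (l 16654752)) (a (a (l 16507312) (l 16501248)) (l 16518808)))) (a (b (a (l 2) (b (a (l 2) (l 16499912)) (a (b (l 16524712) (l 16551808)) (b (l 16526256) (a (l 16548088) (l 16545104)))))) (b (a (a (l 2) (b (a (l 2) (l 16589368)) (a (l 6) (b (l 16616168) (a (l 6) (l 16632200)))))) (a (b (a (l 16583824) (l 16577784)) (a (b (l 16607984) (l 16625064)) (l 16607968))) (b (a (l 16572176) (l 16566832)) (l 16615736)))) (a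 (a (l 6) (a (l 6) (a (l 6) (b (l 16660024) (b (l 16708840) (b (l 16701760) (l 16711096))))))) (b (a (b (a (l 16642248) (l 16631160)) (a (l 16722544) (l 16668016))) (b (a (l 16620008) (l 16609000)) (a (l 16634536) (l 16621896)))) (b (a (a (a (l 16680752) (l 16673608)) (l 16662904)) (l 16641576)) (b (a (l 16703352) (l 16651320)) (a (a (l 16720064) (l 16683176)) (l 16680240)))))))) (b (a (b (a (l 16509040) (l 16513976)) (a (b (l 16526928) (l 16562560)) (l 16593400))) (b (a (l 16515360) (l 16517240)) (a (l 16525648) (l 16520720)))) (b (a (b (a (l 16558376) (l 16546576)) (a (l 16682208) (l 16560416))) (b (l 16529992) (a (l 16545040) (l 16530640)))) (a (a (b (b (l 16635056) (l 16603792)) (b (l 16614504) (l 16624512))) (b (l 16577216) (l 16613792))) (b (a (l 16556544) (l 16536752)) (a (l 16566416) (l 16541072)))))))), by decide +kernel⟩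

def k1_pp_102_a : ∃ t, chk3 f_pp_102_a t 3 1 1 = true :=
  ⟨(b (a (b (a (l 16835120) (l 16623616)) (a (a (l 16532728) (l 16542696)) (b (l 16579712) (l 16558744)))) (a (b (a (l 16648472) (l 16661848)) (l 16644104)) (b (l 16680816) (l 16694272)))) (a (b (a (b (a (l 16520304) (l 16524720)) (a (l 16517456) (l 16515480))) (b (l 16544440) (l 16524264))) (b (a (b (l 16699568) (a (l 16517024) (l 16504632))) (b (l 16505032) (l 16494312))) (a (b (l 16656848) (a (l 16518208) (l 16496808))) (b (a (l 16489320) (l 16473128)) (a (b (l 16480184) (l 16469776)) (l 16441256)))))) (b (a (b (l 16569880) (l 16535536)) (b (l 16590792) (l 16539928))) (a (b (b (l 16499408) (l 16471128)) (b (l 16433360) (l 16397072))) (b (b (l 16482040) (l 16433304)) (a (l 16346808) (b (l 16351320) (l 16417816)))))))), by decide +kernel⟩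

theorem s2_pp_102_a : ∃ t, chk3 f_pp_102_a t 1 1 1 = true := ex3_a k0_pp_102_a k1_pp_102_a

theorem c_pp_102_a : CertB 536870912 536870912 0 536870912 536870912 50465866 3 eng mog cd4q1 cd1q2a pd0 false true true .npp 1 0 2
    ndB4q1 ndB1q2a pcB0 cut_pp_102_a Ext.none :=
  certB2 (fam := false) (s1 := true) (s2 := true) (a := 1) (b := 0) (c := 2) (cn := .npp) (n1 := ndB4q1) (n2 := ndB1q2a) (pc := pcB0) (cut := cut_pp_102_a) (xt := Ext.none) (P1 := 536870912) (W1 := 536870912) (P2 := 0) (W2 := 536870912) (P3 := 536870912) (W3 := 50465866) (N0 := 3) (En := eng) (mo := mog) (C1 := cd4q1) (C2 := cd1q2a) (C3 := pd0)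
    rfl (fun _ => rfl) s2_pp_102_a

noncomputable def cut_pp_102_b : Cut := Cut.of [[⟨0, 1, 0, 67108864⟩, ⟨1, 0, 0, 67108864⟩, ⟨2, 1, 0, 67108864⟩]]

noncomputable def f_pp_102_b : ℕ → ℕ → ℕ → ℕ → Bool := onCell 0 536870912 1239849684 370763052 536870912 50465866
    (rowB 3 eng mog cd4q1 cd1q2b pd0 2 false true true .npp 1 0 2 (qsf 536870912 536870912 1239849684 370763052 0) ndB4q1 ndB1q2b pcB0 cut_pp_102_b Ext.none)

def k0_pp_102_b : ∃ t, chk3 f_pp_102_b t 1 1 1 = true :=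
  ⟨(a (a (l 2) (b (a (b (b (l 16499832) (l 2)) (l 2)) (b (l 16524032) (l 16393128))) (l 2))) (a (a (b (b (l 16572184) (l 16473560)) (l 2)) (b (l 16608128) (l 16490376))) (a (b (l 16676344) (l 16695456)) (b (l 16726632) (l 16864184))))), by decide +kernel⟩

theorem c_pp_102_b : CertB 536870912 536870912 1239849684 370763052 536870912 50465866 3 eng mog cd4q1 cd1q2b pd0 false true true .npp 1 0 2
    ndB4q1 ndB1q2b pcB0 cut_pp_102_b Ext.none :=
  certB2 (fam := false) (s1 := true) (s2 := true) (a := 1) (b := 0) (c := 2) (cn := .npp) (n1 := ndB4q1) (n2 := ndB1q2b) (pc := pcB0) (cut := cut_pp_102_b) (xt := Ext.none) (P1 := 536870912) (W1 := 536870912) (P2 := 1239849684) (W2 := 370763052) (P3 := 536870912) (W3 := 50465866) (N0 := 3) (En := eng) (mo := mog) (C1 := cd4q1) (C2 := cd1q2b) (C3 := pd0)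
    rfl (fun _ => rfl) k0_pp_102_b

noncomputable def f_pp_112_a : ℕ → ℕ → ℕ → ℕ → Bool := onCell 536870912 536870912 0 536870912 536870912 50465866
    (rowB 3 eng mog cd4q1 cd1q2a pd1 0 false true true .dn 1 1 2 (qsf 536870912 536870912 0 536870912 1) ndB4q1 ndB1q2a pcB1 Cut.none Ext.none)

def k0_pp_112_a : ∃ t, chk3 f_pp_112_a t 1 1 1 = true :=
  ⟨(a (b (a (a (b (l 16730440) (a (l 16706432) (l 16692408))) (b (l 16716120) (b (l 16679776) (l 16648608)))) (a (b (l 16922368) (b (l 16642088) (l 16610840))) (l 1))) (a (b (a (b (l 16644224) (l 16820560)) (b (l 16605304) (l 16541200))) (a (b (a (l 16466608) (l 16459576)) (a (b (l 16360920) (l 16277680)) (l 16367680))) (b (l 706018693271) (l 1)))) (b (l 1) (l 1)))) (l 1)), by decide +kernel⟩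

theorem c_pp_112_a : CertB 536870912 536870912 0 536870912 536870912 50465866 3 eng mog cd4q1 cd1q2a pd1 false true true .dn 1 1 2
    ndB4q1 ndB1q2a pcB1 Cut.none Ext.none :=
  certB0 (fam := false) (s1 := true) (s2 := true) (a := 1) (b := 1) (c := 2) (cn := .dn) (n1 := ndB4q1) (n2 := ndB1q2a) (pc := pcB1) (cut := Cut.none) (xt := Ext.none) (P1 := 536870912) (W1 := 536870912) (P2 := 0) (W2 := 536870912) (P3 := 536870912) (W3 := 50465866) (N0 := 3) (En := eng) (mo := mog) (C1 := cd4q1) (C2 := cd1q2a) (C3 := pd1)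
    rfl k0_pp_112_a

noncomputable def f_pp_112_b : ℕ → ℕ → ℕ → ℕ → Bool := onCell 536870912 536870912 536870912 536870912 536870912 50465866
    (rowB 3 eng mog cd4q1 cd1q2b pd1 1 false true true .dn 1 1 2 (qsf 536870912 536870912 1239849684 370763052 1) ndB4q1 ndB1q2b pcB1 Cut.none Ext.none)

def k0_pp_112_b : ∃ t, chk3 f_pp_112_b t 1 1 1 = true :=
  ⟨(a (b (a (b (a (b (l 1) (l 16721144)) (b (l 16713832) (l 16749256))) (a (l 16773864) (l 16866448))) (b (b (l 16751536) (l 16851088)) (l 17124296))) (a (a (l 17064160) (l 17403216)) (l 17745736))) (b (b (b (l 17013560) (l 17359672)) (l 17700056)) (b (l 17577128) (l 2)))), by decide +kernel⟩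

theorem c_pp_112_b : CertB 536870912 536870912 1239849684 370763052 536870912 50465866 3 eng mog cd4q1 cd1q2b pd1 false true true .dn 1 1 2
    ndB4q1 ndB1q2b pcB1 Cut.none Ext.none :=
  certB1 (fam := false) (s1 := true) (s2 := true) (a := 1) (b := 1) (c := 2) (cn := .dn) (n1 := ndB4q1) (n2 := ndB1q2b) (pc := pcB1) (cut := Cut.none) (xt := Ext.none) (P1 := 536870912) (W1 := 536870912) (P2 := 1239849684) (W2 := 370763052) (P3 := 536870912) (W3 := 50465866) (N0 := 3) (En := eng) (mo := mog) (C1 := cd4q1) (C2 := cd1q2b) (C3 := pd1)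
    rfl (fun _ => rfl) k0_pp_112_b

noncomputable def f_pp_113 : ℕ → ℕ → ℕ → ℕ → Bool := onCell 536870912 536870912 536870912 536870912 536870912 50465866
    (rowB 3 eng mog cd4q1 cd1q3 pd1 1 false true true .nn 1 1 3 (qsf 536870912 536870912 1610612736 536870912 1) ndB4q1 ndB1q3 pcB1 Cut.none Ext.none)

def k0_pp_113 : ∃ t, chk3 f_pp_113 t 1 1 1 = true :=
  ⟨(a (b (a (l 1) (b (l 1) (l 17124416))) (a (a (l 17064168) (l 17408496)) (l 17759224))) (b (b (b (l 17013552) (l 17354072)) (l 17687008)) (b (l 17570176) (l 17308360)))), by decide +kernel⟩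

theorem c_pp_113 : CertB 536870912 536870912 1610612736 536870912 536870912 50465866 3 eng mog cd4q1 cd1q3 pd1 false true true .nn 1 1 3
    ndB4q1 ndB1q3 pcB1 Cut.none Ext.none :=
  certB1 (fam := false) (s1 := true) (s2 := true) (a := 1) (b := 1) (c := 3) (cn := .nn) (n1 := ndB4q1) (n2 := ndB1q3) (pc := pcB1) (cut := Cut.none) (xt := Ext.none) (P1 := 536870912) (W1 := 536870912) (P2 := 1610612736) (W2 := 536870912) (P3 := 536870912) (W3 := 50465866) (N0 := 3) (En := eng) (mo := mog) (C1 := cd4q1) (C2 := cd1q3) (C3 := pd1)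
    rfl (fun _ => rfl) k0_pp_113

noncomputable def f_pp_123 : ℕ → ℕ → ℕ → ℕ → Bool := onCell 1073741824 536870912 1610612736 536870912 536870912 50465866
    (rowB 3 eng mog cd4q1 cd1q3 pd2 2 false true true .npn 1 2 3 (qsf 536870912 536870912 1610612736 536870912 2) ndB4q1 ndB1q3 pcB2 Cut.none Ext.none)

def k0_pp_123 : ∃ t, chk3 f_pp_123 t 1 1 1 = true :=
  ⟨(a (b (a (b (a (b (l 17227144) (l 17375736)) (b (l 16920168) (l 17179904))) (a (l 17406368) (b (l 17234824) (l 17257824)))) (b (a (b (l 1) (l 16923880)) (l 1)) (l 4))) (a (b (l 17211880) (l 16941944)) (l 4))) (b (b (l 1) (l 4)) (l 4))), by decide +kernel⟩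

theorem c_pp_123 : CertB 536870912 536870912 1610612736 536870912 536870912 50465866 3 eng mog cd4q1 cd1q3 pd2 false true true .npn 1 2 3
    ndB4q1 ndB1q3 pcB2 Cut.none Ext.none :=
  certB2 (fam := false) (s1 := true) (s2 := true) (a := 1) (b := 2) (c := 3) (cn := .npn) (n1 := ndB4q1) (n2 := ndB1q3) (pc := pcB2) (cut := Cut.none) (xt := Ext.none) (P1 := 536870912) (W1 := 536870912) (P2 := 1610612736) (W2 := 536870912) (P3 := 536870912) (W3 := 50465866) (N0 := 3) (En := eng) (mo := mog) (C1 := cd4q1) (C2 := cd1q3) (C3 := pd2)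
    rfl (fun _ => rfl) k0_pp_123

noncomputable def f_pp_133 : ℕ → ℕ → ℕ → ℕ → Bool := onCell 1610612736 536870912 1610612736 536870912 536870912 50465866
    (rowB 3 eng mog cd4q1 cd1q3 pd3 2 false true true .dn 1 3 3 (qsf 536870912 536870912 1610612736 536870912 3) ndB4q1 ndB1q3 pcB3 Cut.none Ext.none)

def k0_pp_133 : ∃ t, chk3 f_pp_133 t 1 1 1 = true :=
  ⟨(a (b (l 1) (l 4)) (l 1)), by decide +kernel⟩

theorem c_pp_133 : CertB 536870912 536870912 1610612736 536870912 536870912 50465866 3 eng mog cd4q1 cd1q3 pd3 false true true .dn 1 3 3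
    ndB4q1 ndB1q3 pcB3 Cut.none Ext.none :=
  certB2 (fam := false) (s1 := true) (s2 := true) (a := 1) (b := 3) (c := 3) (cn := .dn) (n1 := ndB4q1) (n2 := ndB1q3) (pc := pcB3) (cut := Cut.none) (xt := Ext.none) (P1 := 536870912) (W1 := 536870912) (P2 := 1610612736) (W2 := 536870912) (P3 := 536870912) (W3 := 50465866) (N0 := 3) (En := eng) (mo := mog) (C1 := cd4q1) (C2 := cd1q3) (C3 := pd3)
    rfl (fun _ => rfl) k0_pp_133

noncomputable def f_pp_202_a : ℕ → ℕ → ℕ → ℕ → Bool := onCell 1073741824 536870912 0 536870912 536870912 50465866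
    (rowB 3 eng mog cd4q2 cd1q2a pd0 0 false true true .pp 2 0 2 (qsf 1073741824 536870912 0 536870912 0) ndB4q2 ndB1q2a pcB0 Cut.none Ext.none)

def k0_pp_202_a : ∃ t, chk3 f_pp_202_a t 1 1 1 = true :=
  ⟨(l 3), by decide +kernel⟩

theorem c_pp_202_a : CertB 1073741824 536870912 0 536870912 536870912 50465866 3 eng mog cd4q2 cd1q2a pd0 false true true .pp 2 0 2
    ndB4q2 ndB1q2a pcB0 Cut.none Ext.none :=
  certB0 (fam := false) (s1 := true) (s2 := true) (a := 2) (b := 0) (c := 2) (cn := .pp) (n1 := ndB4q2) (n2 := ndB1q2a) (pc := pcB0) (cut := Cut.none) (xt := Ext.none) (P1 := 1073741824) (W1 := 536870912) (P2 := 0) (W2 := 536870912) (P3 := 536870912) (W3 := 50465866) (N0 := 3) (En := eng) (mo := mog) (C1 := cd4q2) (C2 := cd1q2a) (C3 := pd0)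
    rfl k0_pp_202_a

noncomputable def f_pp_202_b : ℕ → ℕ → ℕ → ℕ → Bool := onCell 1073741824 536870912 1239849684 370763052 536870912 50465866
    (rowB 3 eng mog cd4q2 cd1q2b pd0 0 false true true .pp 2 0 2 (qsf 1073741824 536870912 1239849684 370763052 0) ndB4q2 ndB1q2b pcB0 Cut.none Ext.none)

def k0_pp_202_b : ∃ t, chk3 f_pp_202_b t 1 1 1 = true :=
  ⟨(l 3), by decide +kernel⟩

theorem c_pp_202_b : CertB 1073741824 536870912 1239849684 370763052 536870912 50465866 3 eng mog cd4q2 cd1q2b pd0 false true true .pp 2 0 2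
    ndB4q2 ndB1q2b pcB0 Cut.none Ext.none :=
  certB0 (fam := false) (s1 := true) (s2 := true) (a := 2) (b := 0) (c := 2) (cn := .pp) (n1 := ndB4q2) (n2 := ndB1q2b) (pc := pcB0) (cut := Cut.none) (xt := Ext.none) (P1 := 1073741824) (W1 := 536870912) (P2 := 1239849684) (W2 := 370763052) (P3 := 536870912) (W3 := 50465866) (N0 := 3) (En := eng) (mo := mog) (C1 := cd4q2) (C2 := cd1q2b) (C3 := pd0)
    rfl k0_pp_202_b

noncomputable def f_pp_203 : ℕ → ℕ → ℕ → ℕ → Bool := onCell 1073741824 536870912 0 536870912 536870912 50465866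
    (rowB 3 eng mog cd4q2 cd1q3 pd0 1 false true true .up 2 0 3 (qsf 1073741824 536870912 1610612736 536870912 0) ndB4q2 ndB1q3 pcB0 Cut.none Ext.none)

def k0_pp_203 : ∃ t, chk3 f_pp_203 t 1 1 1 = true :=
  ⟨(l 3), by decide +kernel⟩

theorem c_pp_203 : CertB 1073741824 536870912 1610612736 536870912 536870912 50465866 3 eng mog cd4q2 cd1q3 pd0 false true true .up 2 0 3
    ndB4q2 ndB1q3 pcB0 Cut.none Ext.none :=
  certB1 (fam := false) (s1 := true) (s2 := true) (a := 2) (b := 0) (c := 3) (cn := .up) (n1 := ndB4q2) (n2 := ndB1q3) (pc := pcB0) (cut := Cut.none) (xt := Ext.none) (P1 := 1073741824) (W1 := 536870912) (P2 := 1610612736) (W2 := 536870912) (P3 := 536870912) (W3 := 50465866) (N0 := 3) (En := eng) (mo := mog) (C1 := cd4q2) (C2 := cd1q3) (C3 := pd0)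
    rfl (fun _ => rfl) k0_pp_203

noncomputable def f_pp_213 : ℕ → ℕ → ℕ → ℕ → Bool := onCell 536870912 536870912 1610612736 536870912 536870912 50465866
    (rowB 3 eng mog cd4q2 cd1q3 pd1 2 false true true .pnn 2 1 3 (qsf 1073741824 536870912 1610612736 536870912 1) ndB4q2 ndB1q3 pcB1 Cut.none Ext.none)

def k0_pp_213 : ∃ t, chk3 f_pp_213 t 1 1 1 = true :=
  ⟨(a (a (l 3) (a (l 3) (a (b (l 3) (l 3)) (b (b (l 1) (l 224983284919)) (b (l 16831312) (l 3)))))) (a (b (a (b (l 1) (b (l 1) (l 233573351991))) (l 1)) (a (b (a (l 16866608) (l 16906040)) (b (l 16809112) (l 16797144))) (b (l 17025360) (l 16919800)))) (b (l 1) (a (l 244310626903) (l 284039116407))))), by decide +kernel⟩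

theorem c_pp_213 : CertB 1073741824 536870912 1610612736 536870912 536870912 50465866 3 eng mog cd4q2 cd1q3 pd1 false true true .pnn 2 1 3
    ndB4q2 ndB1q3 pcB1 Cut.none Ext.none :=
  certB2 (fam := false) (s1 := true) (s2 := true) (a := 2) (b := 1) (c := 3) (cn := .pnn) (n1 := ndB4q2) (n2 := ndB1q3) (pc := pcB1) (cut := Cut.none) (xt := Ext.none) (P1 := 1073741824) (W1 := 536870912) (P2 := 1610612736) (W2 := 536870912) (P3 := 536870912) (W3 := 50465866) (N0 := 3) (En := eng) (mo := mog) (C1 := cd4q2) (C2 := cd1q3) (C3 := pd1)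
    rfl (fun _ => rfl) k0_pp_213

noncomputable def f_pp_303 : ℕ → ℕ → ℕ → ℕ → Bool := onCell 0 1230186008 1610612736 536870912 536870912 50465866
    (rowB 3 eng mog cd4q3 cd1q3 pd0 0 false true true .npn 3 0 3 (qsf 0 1230186008 1610612736 536870912 0) ndB4q3 ndB1q3 pcB0 Cut.none Ext.none)

def k0_pp_303 : ∃ t, chk3 f_pp_303 t 1 1 1 = true :=
  ⟨(a (l 3) (l 3)), by decide +kernel⟩

theorem c_pp_303 : CertB 0 1230186008 1610612736 536870912 536870912 50465866 3 eng mog cd4q3 cd1q3 pd0 false true true .npn 3 0 3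
    ndB4q3 ndB1q3 pcB0 Cut.none Ext.none :=
  certB0 (fam := false) (s1 := true) (s2 := true) (a := 3) (b := 0) (c := 3) (cn := .npn) (n1 := ndB4q3) (n2 := ndB1q3) (pc := pcB0) (cut := Cut.none) (xt := Ext.none) (P1 := 0) (W1 := 1230186008) (P2 := 1610612736) (W2 := 536870912) (P3 := 536870912) (W3 := 50465866) (N0 := 3) (En := eng) (mo := mog) (C1 := cd4q3) (C2 := cd1q3) (C3 := pd0)
    rfl k0_pp_303

noncomputable def f_pp_313 : ℕ → ℕ → ℕ → ℕ → Bool := onCell 0 1230186008 1610612736 536870912 536870912 50465866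
    (rowB 3 eng mog cd4q3 cd1q3 pd1 0 false true true .dn 3 1 3 (qsf 0 1230186008 1610612736 536870912 1) ndB4q3 ndB1q3 pcB1 Cut.none Ext.none)

def k0_pp_313 : ∃ t, chk3 f_pp_313 t 1 1 1 = true :=
  ⟨(a (l 1) (l 3)), by decide +kernel⟩

theorem c_pp_313 : CertB 0 1230186008 1610612736 536870912 536870912 50465866 3 eng mog cd4q3 cd1q3 pd1 false true true .dn 3 1 3
    ndB4q3 ndB1q3 pcB1 Cut.none Ext.none :=
  certB0 (fam := false) (s1 := true) (s2 := true) (a := 3) (b := 1) (c := 3) (cn := .dn) (n1 := ndB4q3) (n2 := ndB1q3) (pc := pcB1) (cut := Cut.none) (xt := Ext.none) (P1 := 0) (W1 := 1230186008) (P2 := 1610612736) (W2 := 536870912) (P3 := 536870912) (W3 := 50465866) (N0 := 3) (En := eng) (mo := mog) (C1 := cd4q3) (C2 := cd1q3) (C3 := pd1)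
    rfl k0_pp_313

noncomputable def f_pm_001 : ℕ → ℕ → ℕ → ℕ → Bool := onCell 0 536870912 536870912 536870912 536870912 50465866
    (rowB 3 eng mog cd4q0 cd1q1 pd0 0 false true false .up 0 0 1 (qsf 0 536870912 536870912 536870912 0) ndB4q0 ndB1q1 pcB0 Cut.none Ext.none)

def k0_pm_001 : ∃ t, chk3 f_pm_001 t 1 1 1 = true :=
  ⟨(l 4), by decide +kernel⟩

theorem c_pm_001 : CertB 0 536870912 536870912 536870912 536870912 50465866 3 eng mog cd4q0 cd1q1 pd0 false true false .up 0 0 1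
    ndB4q0 ndB1q1 pcB0 Cut.none Ext.none :=
  certB0 (fam := false) (s1 := true) (s2 := false) (a := 0) (b := 0) (c := 1) (cn := .up) (n1 := ndB4q0) (n2 := ndB1q1) (pc := pcB0) (cut := Cut.none) (xt := Ext.none) (P1 := 0) (W1 := 536870912) (P2 := 536870912) (W2 := 536870912) (P3 := 536870912) (W3 := 50465866) (N0 := 3) (En := eng) (mo := mog) (C1 := cd4q0) (C2 := cd1q1) (C3 := pd0)
    rfl k0_pm_001

noncomputable def f_pm_011 : ℕ → ℕ → ℕ → ℕ → Bool := onCell 0 536870912 536870912 536870912 536870912 50465866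
    (rowB 3 eng mog cd4q0 cd1q1 pd1 0 false true false .pnn 0 1 1 (qsf 0 536870912 536870912 536870912 1) ndB4q0 ndB1q1 pcB1 Cut.none Ext.none)

def k0_pm_011 : ∃ t, chk3 f_pm_011 t 1 1 1 = true :=
  ⟨(l 4), by decide +kernel⟩

theorem c_pm_011 : CertB 0 536870912 536870912 536870912 536870912 50465866 3 eng mog cd4q0 cd1q1 pd1 false true false .pnn 0 1 1
    ndB4q0 ndB1q1 pcB1 Cut.none Ext.none :=
  certB0 (fam := false) (s1 := true) (s2 := false) (a := 0) (b := 1) (c := 1) (cn := .pnn) (n1 := ndB4q0) (n2 := ndB1q1) (pc := pcB1) (cut := Cut.none) (xt := Ext.none) (P1 := 0) (W1 := 536870912) (P2 := 536870912) (W2 := 536870912) (P3 := 536870912) (W3 := 50465866) (N0 := 3) (En := eng) (mo := mog) (C1 := cd4q0) (C2 := cd1q1) (C3 := pd1)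
    rfl k0_pm_011

noncomputable def f_pm_012_a : ℕ → ℕ → ℕ → ℕ → Bool := onCell 536870912 536870912 0 536870912 536870912 50465866
    (rowB 3 eng mog cd4q0 cd1q2a pd1 2 false true false .pnp 0 1 2 (qsf 0 536870912 0 536870912 1) ndB4q0 ndB1q2a pcB1 Cut.none Ext.none)

def k0_pm_012_a : ∃ t, chk3 f_pm_012_a t 1 1 1 = true :=
  ⟨(a (b (a (a (l 2) (b (l 2) (l 4))) (b (a (l 16694088) (l 16670744)) (l 4))) (l 4)) (b (a (b (a (l 16642984) (l 16602152)) (l 4)) (b (a (l 16563240) (l 16522768)) (l 4))) (l 4))), by decide +kernel⟩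

theorem c_pm_012_a : CertB 0 536870912 0 536870912 536870912 50465866 3 eng mog cd4q0 cd1q2a pd1 false true false .pnp 0 1 2
    ndB4q0 ndB1q2a pcB1 Cut.none Ext.none :=
  certB2 (fam := false) (s1 := true) (s2 := false) (a := 0) (b := 1) (c := 2) (cn := .pnp) (n1 := ndB4q0) (n2 := ndB1q2a) (pc := pcB1) (cut := Cut.none) (xt := Ext.none) (P1 := 0) (W1 := 536870912) (P2 := 0) (W2 := 536870912) (P3 := 536870912) (W3 := 50465866) (N0 := 3) (En := eng) (mo := mog) (C1 := cd4q0) (C2 := cd1q2a) (C3 := pd1)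
    rfl (fun _ => rfl) k0_pm_012_a

noncomputable def f_pm_012_b : ℕ → ℕ → ℕ → ℕ → Bool := onCell 0 536870912 536870912 536870912 536870912 50465866
    (rowB 3 eng mog cd4q0 cd1q2b pd1 1 false true false .pnp 0 1 2 (qsf 0 536870912 1239849684 370763052 1) ndB4q0 ndB1q2b pcB1 Cut.none Ext.none)

def k0_pm_012_b : ∃ t, chk3 f_pm_012_b t 1 1 1 = true :=
  ⟨(a (b (l 1) (a (l 1) (b (l 1) (a (b (l 1) (l 273837627175)) (l 109555253399))))) (b (a (l 1) (b (l 1) (a (b (l 1) (l 16682352)) (l 189012467543)))) (a (b (a (l 328598824375) (l 16647216)) (a (l 16533320) (l 16578344))) (a (b (l 16676424) (l 16692536)) (b (l 16756040) (l 16883744)))))), by decide +kernel⟩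

theorem c_pm_012_b : CertB 0 536870912 1239849684 370763052 536870912 50465866 3 eng mog cd4q0 cd1q2b pd1 false true false .pnp 0 1 2
    ndB4q0 ndB1q2b pcB1 Cut.none Ext.none :=
  certB1 (fam := false) (s1 := true) (s2 := false) (a := 0) (b := 1) (c := 2) (cn := .pnp) (n1 := ndB4q0) (n2 := ndB1q2b) (pc := pcB1) (cut := Cut.none) (xt := Ext.none) (P1 := 0) (W1 := 536870912) (P2 := 1239849684) (W2 := 370763052) (P3 := 536870912) (W3 := 50465866) (N0 := 3) (En := eng) (mo := mog) (C1 := cd4q0) (C2 := cd1q2b) (C3 := pd1)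
    rfl (fun _ => rfl) k0_pm_012_b

noncomputable def f_pm_022_a : ℕ → ℕ → ℕ → ℕ → Bool := onCell 0 536870912 0 536870912 536870912 50465866
    (rowB 3 eng mog cd4q0 cd1q2a pd2 0 false true false .pp 0 2 2 (qsf 0 536870912 0 536870912 2) ndB4q0 ndB1q2a pcB2 Cut.none Ext.none)

def k0_pm_022_a : ∃ t, chk3 f_pm_022_a t 1 1 1 = true :=
  ⟨(a (b (a (b (a (l 16571704) (l 16537264)) (b (a (l 16576824) (l 16530120)) (l 4))) (a (b (l 16618480) (l 4)) (l 1))) (l 4)) (l 1)), by decide +kernel⟩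

theorem c_pm_022_a : CertB 0 536870912 0 536870912 536870912 50465866 3 eng mog cd4q0 cd1q2a pd2 false true false .pp 0 2 2
    ndB4q0 ndB1q2a pcB2 Cut.none Ext.none :=
  certB0 (fam := false) (s1 := true) (s2 := false) (a := 0) (b := 2) (c := 2) (cn := .pp) (n1 := ndB4q0) (n2 := ndB1q2a) (pc := pcB2) (cut := Cut.none) (xt := Ext.none) (P1 := 0) (W1 := 536870912) (P2 := 0) (W2 := 536870912) (P3 := 536870912) (W3 := 50465866) (N0 := 3) (En := eng) (mo := mog) (C1 := cd4q0) (C2 := cd1q2a) (C3 := pd2)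
    rfl k0_pm_022_a

noncomputable def f_pm_022_b : ℕ → ℕ → ℕ → ℕ → Bool := onCell 0 536870912 1073741824 536870912 536870912 50465866
    (rowB 3 eng mog cd4q0 cd1q2b pd2 1 false true false .pp 0 2 2 (qsf 0 536870912 1239849684 370763052 2) ndB4q0 ndB1q2b pcB2 Cut.none Ext.none)

def k0_pm_022_b : ∃ t, chk3 f_pm_022_b t 1 1 1 = true :=
  ⟨(b (b (a (a (b (a (l 1) (l 16561928)) (a (l 266858457751) (l 16527048))) (b (a (l 16500768) (l 16461120)) (l 16465136))) (a (b (l 16494088) (l 16505192)) (l 4))) (a (a (b (a (l 16690696) (l 16492360)) (a (l 16486496) (l 16455280))) (b (l 16536056) (l 16437448))) (l 4))) (a (b (a (b (a (l 16418816) (l 16409728)) (l 16337160)) (l 4)) (l 4)) (l 4))), by decide +kernel⟩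

theorem c_pm_022_b : CertB 0 536870912 1239849684 370763052 536870912 50465866 3 eng mog cd4q0 cd1q2b pd2 false true false .pp 0 2 2
    ndB4q0 ndB1q2b pcB2 Cut.none Ext.none :=
  certB1 (fam := false) (s1 := true) (s2 := false) (a := 0) (b := 2) (c := 2) (cn := .pp) (n1 := ndB4q0) (n2 := ndB1q2b) (pc := pcB2) (cut := Cut.none) (xt := Ext.none) (P1 := 0) (W1 := 536870912) (P2 := 1239849684) (W2 := 370763052) (P3 := 536870912) (W3 := 50465866) (N0 := 3) (En := eng) (mo := mog) (C1 := cd4q0) (C2 := cd1q2b) (C3 := pd2)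
    rfl (fun _ => rfl) k0_pm_022_b

noncomputable def f_pm_023 : ℕ → ℕ → ℕ → ℕ → Bool := onCell 0 536870912 1610612736 536870912 536870912 50465866
    (rowB 3 eng mog cd4q0 cd1q3 pd2 0 false true false .up 0 2 3 (qsf 0 536870912 1610612736 536870912 2) ndB4q0 ndB1q3 pcB2 Cut.none Ext.none)

def k0_pm_023 : ∃ t, chk3 f_pm_023 t 1 1 1 = true :=
  ⟨(a (l 4) (b (l 4) (l 4))), by decide +kernel⟩

theorem c_pm_023 : CertB 0 536870912 1610612736 536870912 536870912 50465866 3 eng mog cd4q0 cd1q3 pd2 false true false .up 0 2 3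
    ndB4q0 ndB1q3 pcB2 Cut.none Ext.none :=
  certB0 (fam := false) (s1 := true) (s2 := false) (a := 0) (b := 2) (c := 3) (cn := .up) (n1 := ndB4q0) (n2 := ndB1q3) (pc := pcB2) (cut := Cut.none) (xt := Ext.none) (P1 := 0) (W1 := 536870912) (P2 := 1610612736) (W2 := 536870912) (P3 := 536870912) (W3 := 50465866) (N0 := 3) (En := eng) (mo := mog) (C1 := cd4q0) (C2 := cd1q3) (C3 := pd2)
    rfl k0_pm_023

noncomputable def f_pm_033 : ℕ → ℕ → ℕ → ℕ → Bool := onCell 0 536870912 1610612736 536870912 536870912 50465866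
    (rowB 3 eng mog cd4q0 cd1q3 pd3 0 false true false .pnn 0 3 3 (qsf 0 536870912 1610612736 536870912 3) ndB4q0 ndB1q3 pcB3 Cut.none Ext.none)

def k0_pm_033 : ∃ t, chk3 f_pm_033 t 1 1 1 = true :=
  ⟨(a (l 4) (b (l 4) (l 4))), by decide +kernel⟩

theorem c_pm_033 : CertB 0 536870912 1610612736 536870912 536870912 50465866 3 eng mog cd4q0 cd1q3 pd3 false true false .pnn 0 3 3
    ndB4q0 ndB1q3 pcB3 Cut.none Ext.none :=
  certB0 (fam := false) (s1 := true) (s2 := false) (a := 0) (b := 3) (c := 3) (cn := .pnn) (n1 := ndB4q0) (n2 := ndB1q3) (pc := pcB3) (cut := Cut.none) (xt := Ext.none) (P1 := 0) (W1 := 536870912) (P2 := 1610612736) (W2 := 536870912) (P3 := 536870912) (W3 := 50465866) (N0 := 3) (En := eng) (mo := mog) (C1 := cd4q0) (C2 := cd1q3) (C3 := pd3)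
    rfl k0_pm_033

noncomputable def f_pm_101 : ℕ → ℕ → ℕ → ℕ → Bool := onCell 536870912 536870912 536870912 536870912 536870912 50465866
    (rowB 3 eng mog cd4q1 cd1q1 pd0 0 false true false .npn 1 0 1 (qsf 536870912 536870912 536870912 536870912 0) ndB4q1 ndB1q1 pcB0 Cut.none Ext.none)

def k0_pm_101 : ∃ t, chk3 f_pm_101 t 1 1 1 = true :=
  ⟨(l 4), by decide +kernel⟩

theorem c_pm_101 : CertB 536870912 536870912 536870912 536870912 536870912 50465866 3 eng mog cd4q1 cd1q1 pd0 false true false .npn 1 0 1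
    ndB4q1 ndB1q1 pcB0 Cut.none Ext.none :=
  certB0 (fam := false) (s1 := true) (s2 := false) (a := 1) (b := 0) (c := 1) (cn := .npn) (n1 := ndB4q1) (n2 := ndB1q1) (pc := pcB0) (cut := Cut.none) (xt := Ext.none) (P1 := 536870912) (W1 := 536870912) (P2 := 536870912) (W2 := 536870912) (P3 := 536870912) (W3 := 50465866) (N0 := 3) (En := eng) (mo := mog) (C1 := cd4q1) (C2 := cd1q1) (C3 := pd0)
    rfl k0_pm_101

noncomputable def f_pm_102_a : ℕ → ℕ → ℕ → ℕ → Bool := onCell 536870912 536870912 0 536870912 536870912 50465866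
    (rowB 3 eng mog cd4q1 cd1q2a pd0 0 false true false .npp 1 0 2 (qsf 536870912 536870912 0 536870912 0) ndB4q1 ndB1q2a pcB0 Cut.none Ext.none)

def k0_pm_102_a : ∃ t, chk3 f_pm_102_a t 1 1 1 = true :=
  ⟨(b (a (a (b (l 2) (l 4)) (b (a (b (l 16722400) (l 16715784)) (l 16716872)) (a (l 16701568) (l 16704888)))) (a (b (a (l 16709376) (l 16695288)) (a (l 16704992) (b (l 16703136) (l 4)))) (b (a (l 16675288) (l 16646640)) (a (l 16881312) (b (l 16678664) (l 16681104)))))) (l 4)), by decide +kernel⟩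

theorem c_pm_102_a : CertB 536870912 536870912 0 536870912 536870912 50465866 3 eng mog cd4q1 cd1q2a pd0 false true false .npp 1 0 2
    ndB4q1 ndB1q2a pcB0 Cut.none Ext.none :=
  certB0 (fam := false) (s1 := true) (s2 := false) (a := 1) (b := 0) (c := 2) (cn := .npp) (n1 := ndB4q1) (n2 := ndB1q2a) (pc := pcB0) (cut := Cut.none) (xt := Ext.none) (P1 := 536870912) (W1 := 536870912) (P2 := 0) (W2 := 536870912) (P3 := 536870912) (W3 := 50465866) (N0 := 3) (En := eng) (mo := mog) (C1 := cd4q1) (C2 := cd1q2a) (C3 := pd0)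
    rfl k0_pm_102_a

noncomputable def f_pm_102_b : ℕ → ℕ → ℕ → ℕ → Bool := onCell 536870912 536870912 0 536870912 536870912 50465866
    (rowB 3 eng mog cd4q1 cd1q2b pd0 1 false true false .npp 1 0 2 (qsf 536870912 536870912 1239849684 370763052 0) ndB4q1 ndB1q2b pcB0 Cut.none Ext.none)

def k0_pm_102_b : ∃ t, chk3 f_pm_102_b t 1 1 1 = true :=
  ⟨(a (b (l 1) (b (l 1) (a (l 1) (b (l 16696072) (l 16720616))))) (b (b (l 1) (a (l 1) (b (a (l 1) (l 404297200311)) (l 207802600199)))) (b (b (a (l 447247155063) (l 16646160)) (l 250215743831)) (b (l 262027051207) (l 16896704))))), by decide +kernel⟩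

theorem c_pm_102_b : CertB 536870912 536870912 1239849684 370763052 536870912 50465866 3 eng mog cd4q1 cd1q2b pd0 false true false .npp 1 0 2
    ndB4q1 ndB1q2b pcB0 Cut.none Ext.none :=
  certB1 (fam := false) (s1 := true) (s2 := false) (a := 1) (b := 0) (c := 2) (cn := .npp) (n1 := ndB4q1) (n2 := ndB1q2b) (pc := pcB0) (cut := Cut.none) (xt := Ext.none) (P1 := 536870912) (W1 := 536870912) (P2 := 1239849684) (W2 := 370763052) (P3 := 536870912) (W3 := 50465866) (N0 := 3) (En := eng) (mo := mog) (C1 := cd4q1) (C2 := cd1q2b) (C3 := pd0)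
    rfl (fun _ => rfl) k0_pm_102_b

noncomputable def f_pm_112_a : ℕ → ℕ → ℕ → ℕ → Bool := onCell 536870912 536870912 0 536870912 536870912 50465866
    (rowB 3 eng mog cd4q1 cd1q2a pd1 0 false true false .dn 1 1 2 (qsf 536870912 536870912 0 536870912 1) ndB4q1 ndB1q2a pcB1 Cut.none Ext.none)

def k0_pm_112_a : ∃ t, chk3 f_pm_112_a t 1 1 1 = true :=
  ⟨(a (b (a (b (a (l 16705456) (l 16717688)) (l 4)) (a (b (b (l 16721920) (l 16715616)) (l 16701264)) (l 1))) (l 4)) (l 1)), by decide +kernel⟩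

theorem c_pm_112_a : CertB 536870912 536870912 0 536870912 536870912 50465866 3 eng mog cd4q1 cd1q2a pd1 false true false .dn 1 1 2
    ndB4q1 ndB1q2a pcB1 Cut.none Ext.none :=
  certB0 (fam := false) (s1 := true) (s2 := false) (a := 1) (b := 1) (c := 2) (cn := .dn) (n1 := ndB4q1) (n2 := ndB1q2a) (pc := pcB1) (cut := Cut.none) (xt := Ext.none) (P1 := 536870912) (W1 := 536870912) (P2 := 0) (W2 := 536870912) (P3 := 536870912) (W3 := 50465866) (N0 := 3) (En := eng) (mo := mog) (C1 := cd4q1) (C2 := cd1q2a) (C3 := pd1)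
    rfl k0_pm_112_a

noncomputable def f_pm_112_b : ℕ → ℕ → ℕ → ℕ → Bool := onCell 536870912 536870912 536870912 536870912 536870912 50465866
    (rowB 3 eng mog cd4q1 cd1q2b pd1 1 false true false .dn 1 1 2 (qsf 536870912 536870912 1239849684 370763052 1) ndB4q1 ndB1q2b pcB1 Cut.none Ext.none)

def k0_pm_112_b : ∃ t, chk3 f_pm_112_b t 1 1 1 = true :=
  ⟨(a (b (b (a (a (b (l 1) (l 16707832)) (l 313029696567)) (b (l 16775920) (l 16875720))) (a (a (l 16756080) (l 16860256)) (l 17142440))) (a (b (a (l 16919440) (l 17169512)) (a (l 17231592) (l 17563616))) (b (l 17806064) (l 17618056)))) (b (b (b (l 17122496) (l 17466992)) (l 17797368)) (b (l 17648472) (l 2)))), by decide +kernel⟩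

theorem c_pm_112_b : CertB 536870912 536870912 1239849684 370763052 536870912 50465866 3 eng mog cd4q1 cd1q2b pd1 false true false .dn 1 1 2
    ndB4q1 ndB1q2b pcB1 Cut.none Ext.none :=
  certB1 (fam := false) (s1 := true) (s2 := false) (a := 1) (b := 1) (c := 2) (cn := .dn) (n1 := ndB4q1) (n2 := ndB1q2b) (pc := pcB1) (cut := Cut.none) (xt := Ext.none) (P1 := 536870912) (W1 := 536870912) (P2 := 1239849684) (W2 := 370763052) (P3 := 536870912) (W3 := 50465866) (N0 := 3) (En := eng) (mo := mog) (C1 := cd4q1) (C2 := cd1q2b) (C3 := pd1)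
    rfl (fun _ => rfl) k0_pm_112_b

noncomputable def f_pm_113 : ℕ → ℕ → ℕ → ℕ → Bool := onCell 536870912 536870912 1610612736 536870912 536870912 50465866
    (rowB 3 eng mog cd4q1 cd1q3 pd1 2 false true false .nn 1 1 3 (qsf 536870912 536870912 1610612736 536870912 1) ndB4q1 ndB1q3 pcB1 Cut.none Ext.none)

def k0_pm_113 : ∃ t, chk3 f_pm_113 t 1 1 1 = true :=
  ⟨(b (a (a (a (l 17357856) (l 17472800)) (l 17641728)) (a (l 17766904) (a (l 17613184) (l 4)))) (a (a (l 2) (l 17168112)) (a (l 17118520) (l 17153672)))), by decide +kernel⟩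

theorem c_pm_113 : CertB 536870912 536870912 1610612736 536870912 536870912 50465866 3 eng mog cd4q1 cd1q3 pd1 false true false .nn 1 1 3
    ndB4q1 ndB1q3 pcB1 Cut.none Ext.none :=
  certB2 (fam := false) (s1 := true) (s2 := false) (a := 1) (b := 1) (c := 3) (cn := .nn) (n1 := ndB4q1) (n2 := ndB1q3) (pc := pcB1) (cut := Cut.none) (xt := Ext.none) (P1 := 536870912) (W1 := 536870912) (P2 := 1610612736) (W2 := 536870912) (P3 := 536870912) (W3 := 50465866) (N0 := 3) (En := eng) (mo := mog) (C1 := cd4q1) (C2 := cd1q3) (C3 := pd1)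
    rfl (fun _ => rfl) k0_pm_113

noncomputable def f_pm_123 : ℕ → ℕ → ℕ → ℕ → Bool := onCell 1073741824 536870912 1610612736 536870912 536870912 50465866
    (rowB 3 eng mog cd4q1 cd1q3 pd2 2 false true false .npn 1 2 3 (qsf 536870912 536870912 1610612736 536870912 2) ndB4q1 ndB1q3 pcB2 Cut.none Ext.none)

def k0_pm_123 : ∃ t, chk3 f_pm_123 t 1 1 1 = true :=
  ⟨(a (a (b (l 4) (l 17339040)) (l 4)) (b (l 4) (l 4))), by decide +kernel⟩

theorem c_pm_123 : CertB 536870912 536870912 1610612736 536870912 536870912 50465866 3 eng mog cd4q1 cd1q3 pd2 false true false .npn 1 2 3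
    ndB4q1 ndB1q3 pcB2 Cut.none Ext.none :=
  certB2 (fam := false) (s1 := true) (s2 := false) (a := 1) (b := 2) (c := 3) (cn := .npn) (n1 := ndB4q1) (n2 := ndB1q3) (pc := pcB2) (cut := Cut.none) (xt := Ext.none) (P1 := 536870912) (W1 := 536870912) (P2 := 1610612736) (W2 := 536870912) (P3 := 536870912) (W3 := 50465866) (N0 := 3) (En := eng) (mo := mog) (C1 := cd4q1) (C2 := cd1q3) (C3 := pd2)
    rfl (fun _ => rfl) k0_pm_123

noncomputable def f_pm_133 : ℕ → ℕ → ℕ → ℕ → Bool := onCell 536870912 536870912 1610612736 536870912 536870912 50465866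
    (rowB 3 eng mog cd4q1 cd1q3 pd3 0 false true false .dn 1 3 3 (qsf 536870912 536870912 1610612736 536870912 3) ndB4q1 ndB1q3 pcB3 Cut.none Ext.none)

def k0_pm_133 : ∃ t, chk3 f_pm_133 t 1 1 1 = true :=
  ⟨(a (b (l 1) (l 4)) (l 1)), by decide +kernel⟩

theorem c_pm_133 : CertB 536870912 536870912 1610612736 536870912 536870912 50465866 3 eng mog cd4q1 cd1q3 pd3 false true false .dn 1 3 3
    ndB4q1 ndB1q3 pcB3 Cut.none Ext.none :=
  certB0 (fam := false) (s1 := true) (s2 := false) (a := 1) (b := 3) (c := 3) (cn := .dn) (n1 := ndB4q1) (n2 := ndB1q3) (pc := pcB3) (cut := Cut.none) (xt := Ext.none) (P1 := 536870912) (W1 := 536870912) (P2 := 1610612736) (W2 := 536870912) (P3 := 536870912) (W3 := 50465866) (N0 := 3) (En := eng) (mo := mog) (C1 := cd4q1) (C2 := cd1q3) (C3 := pd3)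
    rfl k0_pm_133

noncomputable def f_pm_202_a : ℕ → ℕ → ℕ → ℕ → Bool := onCell 0 536870912 0 536870912 536870912 50465866
    (rowB 3 eng mog cd4q2 cd1q2a pd0 2 false true false .pp 2 0 2 (qsf 1073741824 536870912 0 536870912 0) ndB4q2 ndB1q2a pcB0 Cut.none Ext.none)

def k0_pm_202_a : ∃ t, chk3 f_pm_202_a t 1 1 1 = true :=
  ⟨(a (b (a (b (l 3) (b (a (b (l 3) (b (l 3) (a (l 177871604743) (b (l 16575752) (l 16599232))))) (a (b (l 3) (b (l 139216973623) (b (l 16560656) (l 16605984)))) (b (b (l 3) (a (l 3) (l 155859918311))) (a (l 129553364775) (b (l 16579952) (l 16567088)))))) (a (b (a (a (b (a (l 137069531383) (b (l 16550640) (l 16511584))) (l 16517120)) (b (b (l 16536368) (l 16602448)) (l 16600424))) (a (b (b (l 16524248) (l 16528752)) (b (l 16553088) (l 16539776))) (b (l 16536440) (l 16598408)))) (a (a (l 16542312) (l 16568056)) (a (b (l 16598320) (l 16563552)) (b (l 16559616) (a (l 16569024) (l 16574120)))))) (b (a (b (l 16552328) (a (l 16558608)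 (l 16568952))) (l 16562512)) (a (b (l 16575056) (l 16586624)) (b (l 16677344) (l 16604728))))))) (a (a (b (l 3) (b (b (b (l 3) (a (l 16561096) (l 126734671431))) (b (a (l 16568552) (l 1)) (a (l 16577680) (l 1)))) (a (b (l 16592144) (l 16611864)) (l 1)))) (b (l 3) (l 1))) (l 1))) (a (b (a (b (a (b (l 16576568) (l 16605736)) (l 16604560)) (a (l 16644440) (l 16655576))) (b (a (b (a (b (l 16593608) (l 16607896)) (l 16651272)) (l 16631688)) (b (a (l 16618344) (l 16626256)) (a (l 16642416) (l 1)))) (a (l 16668664) (l 197065159911)))) (a (b (a (b (l 16675712) (a (l 16691136) (l 16696000))) (b (l 16686968) (a (l 16702376) (l 16710640)))) (a (b (a (l 16705104) (l 115460888807)) (a (l 16718608) (l 278669563991))) (b (a (b (l 16716336) (l 1)) (l 1)) (l 1)))) (b (a (b (l 16702208) (l 1)) (l 1)) (l 1)))) (b (l 1) (l 1)))) (l 1)), by decide +kernel⟩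

theorem c_pm_202_a : CertB 1073741824 536870912 0 536870912 536870912 50465866 3 eng mog cd4q2 cd1q2a pd0 false true false .pp 2 0 2
    ndB4q2 ndB1q2a pcB0 Cut.none Ext.none :=
  certB2 (fam := false) (s1 := true) (s2 := false) (a := 2) (b := 0) (c := 2) (cn := .pp) (n1 := ndB4q2) (n2 := ndB1q2a) (pc := pcB0) (cut := Cut.none) (xt := Ext.none) (P1 := 1073741824) (W1 := 536870912) (P2 := 0) (W2 := 536870912) (P3 := 536870912) (W3 := 50465866) (N0 := 3) (En := eng) (mo := mog) (C1 := cd4q2) (C2 := cd1q2a) (C3 := pd0)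
    rfl (fun _ => rfl) k0_pm_202_a

noncomputable def f_pm_202_b : ℕ → ℕ → ℕ → ℕ → Bool := onCell 1073741824 536870912 0 536870912 536870912 50465866
    (rowB 3 eng mog cd4q2 cd1q2b pd0 1 false true false .pp 2 0 2 (qsf 1073741824 536870912 1239849684 370763052 0) ndB4q2 ndB1q2b pcB0 Cut.none Ext.none)

def k0_pm_202_b : ∃ t, chk3 f_pm_202_b t 1 1 1 = true :=
  ⟨(l 3), by decide +kernel⟩

theorem c_pm_202_b : CertB 1073741824 536870912 1239849684 370763052 536870912 50465866 3 eng mog cd4q2 cd1q2b pd0 false true false .pp 2 0 2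
    ndB4q2 ndB1q2b pcB0 Cut.none Ext.none :=
  certB1 (fam := false) (s1 := true) (s2 := false) (a := 2) (b := 0) (c := 2) (cn := .pp) (n1 := ndB4q2) (n2 := ndB1q2b) (pc := pcB0) (cut := Cut.none) (xt := Ext.none) (P1 := 1073741824) (W1 := 536870912) (P2 := 1239849684) (W2 := 370763052) (P3 := 536870912) (W3 := 50465866) (N0 := 3) (En := eng) (mo := mog) (C1 := cd4q2) (C2 := cd1q2b) (C3 := pd0)
    rfl (fun _ => rfl) k0_pm_202_b

noncomputable def f_pm_203 : ℕ → ℕ → ℕ → ℕ → Bool := onCell 1073741824 536870912 0 536870912 536870912 50465866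
    (rowB 3 eng mog cd4q2 cd1q3 pd0 1 false true false .up 2 0 3 (qsf 1073741824 536870912 1610612736 536870912 0) ndB4q2 ndB1q3 pcB0 Cut.none Ext.none)

def k0_pm_203 : ∃ t, chk3 f_pm_203 t 1 1 1 = true :=
  ⟨(l 3), by decide +kernel⟩

theorem c_pm_203 : CertB 1073741824 536870912 1610612736 536870912 536870912 50465866 3 eng mog cd4q2 cd1q3 pd0 false true false .up 2 0 3
    ndB4q2 ndB1q3 pcB0 Cut.none Ext.none :=
  certB1 (fam := false) (s1 := true) (s2 := false) (a := 2) (b := 0) (c := 3) (cn := .up) (n1 := ndB4q2) (n2 := ndB1q3) (pc := pcB0) (cut := Cut.none) (xt := Ext.none) (P1 := 1073741824) (W1 := 536870912) (P2 := 1610612736) (W2 := 536870912) (P3 := 536870912) (W3 := 50465866) (N0 := 3) (En := eng) (mo := mog) (C1 := cd4q2) (C2 := cd1q3) (C3 := pd0)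
    rfl (fun _ => rfl) k0_pm_203

noncomputable def f_pm_213 : ℕ → ℕ → ℕ → ℕ → Bool := onCell 1073741824 536870912 536870912 536870912 536870912 50465866
    (rowB 3 eng mog cd4q2 cd1q3 pd1 1 false true false .pnn 2 1 3 (qsf 1073741824 536870912 1610612736 536870912 1) ndB4q2 ndB1q3 pcB1 Cut.none Ext.none)

def k0_pm_213 : ∃ t, chk3 f_pm_213 t 1 1 1 = true :=
  ⟨(a (b (b (a (b (l 3) (b (l 3) (l 16752136))) (l 3)) (b (a (b (l 16790600) (l 16824880)) (l 3)) (a (l 16923632) (a (l 16776888) (l 16757024))))) (b (b (a (l 16864856) (a (l 16767112) (l 16743928))) (a (l 16882016) (a (l 16713680) (l 16660368)))) (a (l 16756672) (a (b (l 16652416) (l 2)) (l 2))))) (b (a (l 3) (b (l 3) (a (b (l 3) (l 2)) (l 2)))) (a (b (a (b (l 16731192) (l 2)) (l 2)) (l 2)) (l 2)))), by decide +kernel⟩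

theorem c_pm_213 : CertB 1073741824 536870912 1610612736 536870912 536870912 50465866 3 eng mog cd4q2 cd1q3 pd1 false true false .pnn 2 1 3
    ndB4q2 ndB1q3 pcB1 Cut.none Ext.none :=
  certB1 (fam := false) (s1 := true) (s2 := false) (a := 2) (b := 1) (c := 3) (cn := .pnn) (n1 := ndB4q2) (n2 := ndB1q3) (pc := pcB1) (cut := Cut.none) (xt := Ext.none) (P1 := 1073741824) (W1 := 536870912) (P2 := 1610612736) (W2 := 536870912) (P3 := 536870912) (W3 := 50465866) (N0 := 3) (En := eng) (mo := mog) (C1 := cd4q2) (C2 := cd1q3) (C3 := pd1)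
    rfl (fun _ => rfl) k0_pm_213

noncomputable def f_pm_303 : ℕ → ℕ → ℕ → ℕ → Bool := onCell 0 1230186008 1610612736 536870912 536870912 50465866
    (rowB 3 eng mog cd4q3 cd1q3 pd0 0 false true false .npn 3 0 3 (qsf 0 1230186008 1610612736 536870912 0) ndB4q3 ndB1q3 pcB0 Cut.none Ext.none)

def k0_pm_303 : ∃ t, chk3 f_pm_303 t 1 1 1 = true :=
  ⟨(a (l 3) (l 3)), by decide +kernel⟩

theorem c_pm_303 : CertB 0 1230186008 1610612736 536870912 536870912 50465866 3 eng mog cd4q3 cd1q3 pd0 false true false .npn 3 0 3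
    ndB4q3 ndB1q3 pcB0 Cut.none Ext.none :=
  certB0 (fam := false) (s1 := true) (s2 := false) (a := 3) (b := 0) (c := 3) (cn := .npn) (n1 := ndB4q3) (n2 := ndB1q3) (pc := pcB0) (cut := Cut.none) (xt := Ext.none) (P1 := 0) (W1 := 1230186008) (P2 := 1610612736) (W2 := 536870912) (P3 := 536870912) (W3 := 50465866) (N0 := 3) (En := eng) (mo := mog) (C1 := cd4q3) (C2 := cd1q3) (C3 := pd0)
    rfl k0_pm_303

noncomputable def f_pm_313 : ℕ → ℕ → ℕ → ℕ → Bool := onCell 0 1230186008 1610612736 536870912 536870912 50465866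
    (rowB 3 eng mog cd4q3 cd1q3 pd1 0 false true false .dn 3 1 3 (qsf 0 1230186008 1610612736 536870912 1) ndB4q3 ndB1q3 pcB1 Cut.none Ext.none)

def k0_pm_313 : ∃ t, chk3 f_pm_313 t 1 1 1 = true :=
  ⟨(a (l 1) (l 3)), by decide +kernel⟩

theorem c_pm_313 : CertB 0 1230186008 1610612736 536870912 536870912 50465866 3 eng mog cd4q3 cd1q3 pd1 false true false .dn 3 1 3
    ndB4q3 ndB1q3 pcB1 Cut.none Ext.none :=
  certB0 (fam := false) (s1 := true) (s2 := false) (a := 3) (b := 1) (c := 3) (cn := .dn) (n1 := ndB4q3) (n2 := ndB1q3) (pc := pcB1) (cut := Cut.none) (xt := Ext.none) (P1 := 0) (W1 := 1230186008) (P2 := 1610612736) (W2 := 536870912) (P3 := 536870912) (W3 := 50465866) (N0 := 3) (En := eng) (mo := mog) (C1 := cd4q3) (C2 := cd1q3) (C3 := pd1)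
    rfl k0_pm_313

noncomputable def f_mm_001 : ℕ → ℕ → ℕ → ℕ → Bool := onCell 0 536870912 536870912 536870912 536870912 50465866
    (rowB 3 eng mog cd4q0 cd1q1 pd0 0 false false false .up 0 0 1 (qsf 0 536870912 536870912 536870912 0) ndB4q0 ndB1q1 pcB0 Cut.none Ext.none)

def k0_mm_001 : ∃ t, chk3 f_mm_001 t 1 1 1 = true :=
  ⟨(l 5), by decide +kernel⟩

theorem c_mm_001 : CertB 0 536870912 536870912 536870912 536870912 50465866 3 eng mog cd4q0 cd1q1 pd0 false false false .up 0 0 1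
    ndB4q0 ndB1q1 pcB0 Cut.none Ext.none :=
  certB0 (fam := false) (s1 := false) (s2 := false) (a := 0) (b := 0) (c := 1) (cn := .up) (n1 := ndB4q0) (n2 := ndB1q1) (pc := pcB0) (cut := Cut.none) (xt := Ext.none) (P1 := 0) (W1 := 536870912) (P2 := 536870912) (W2 := 536870912) (P3 := 536870912) (W3 := 50465866) (N0 := 3) (En := eng) (mo := mog) (C1 := cd4q0) (C2 := cd1q1) (C3 := pd0)
    rfl k0_mm_001

noncomputable def f_mm_011 : ℕ → ℕ → ℕ → ℕ → Bool := onCell 0 536870912 536870912 536870912 536870912 50465866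
    (rowB 3 eng mog cd4q0 cd1q1 pd1 0 false false false .pnn 0 1 1 (qsf 0 536870912 536870912 536870912 1) ndB4q0 ndB1q1 pcB1 Cut.none Ext.none)

def k0_mm_011 : ∃ t, chk3 f_mm_011 t 1 1 1 = true :=
  ⟨(l 5), by decide +kernel⟩

theorem c_mm_011 : CertB 0 536870912 536870912 536870912 536870912 50465866 3 eng mog cd4q0 cd1q1 pd1 false false false .pnn 0 1 1
    ndB4q0 ndB1q1 pcB1 Cut.none Ext.none :=
  certB0 (fam := false) (s1 := false) (s2 := false) (a := 0) (b := 1) (c := 1) (cn := .pnn) (n1 := ndB4q0) (n2 := ndB1q1) (pc := pcB1) (cut := Cut.none) (xt := Ext.none) (P1 := 0) (W1 := 536870912) (P2 := 536870912) (W2 := 536870912) (P3 := 536870912) (W3 := 50465866) (N0 := 3) (En := eng) (mo := mog) (C1 := cd4q0) (C2 := cd1q1) (C3 := pd1)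
    rfl k0_mm_011

noncomputable def f_mm_012_a : ℕ → ℕ → ℕ → ℕ → Bool := onCell 0 536870912 0 536870912 536870912 50465866
    (rowB 3 eng mog cd4q0 cd1q2a pd1 0 false false false .pnp 0 1 2 (qsf 0 536870912 0 536870912 1) ndB4q0 ndB1q2a pcB1 Cut.none Ext.none)

def k0_mm_012_a : ∃ t, chk3 f_mm_012_a t 1 1 1 = true :=
  ⟨(l 5), by decide +kernel⟩

theorem c_mm_012_a : CertB 0 536870912 0 536870912 536870912 50465866 3 eng mog cd4q0 cd1q2a pd1 false false false .pnp 0 1 2
    ndB4q0 ndB1q2a pcB1 Cut.none Ext.none :=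
  certB0 (fam := false) (s1 := false) (s2 := false) (a := 0) (b := 1) (c := 2) (cn := .pnp) (n1 := ndB4q0) (n2 := ndB1q2a) (pc := pcB1) (cut := Cut.none) (xt := Ext.none) (P1 := 0) (W1 := 536870912) (P2 := 0) (W2 := 536870912) (P3 := 536870912) (W3 := 50465866) (N0 := 3) (En := eng) (mo := mog) (C1 := cd4q0) (C2 := cd1q2a) (C3 := pd1)
    rfl k0_mm_012_a

noncomputable def f_mm_012_b : ℕ → ℕ → ℕ → ℕ → Bool := onCell 0 536870912 1239849684 370763052 536870912 50465866
    (rowB 3 eng mog cd4q0 cd1q2b pd1 0 false false false .pnp 0 1 2 (qsf 0 536870912 1239849684 370763052 1) ndB4q0 ndB1q2b pcB1 Cut.none Ext.none)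

def k0_mm_012_b : ∃ t, chk3 f_mm_012_b t 1 1 1 = true :=
  ⟨(l 5), by decide +kernel⟩

theorem c_mm_012_b : CertB 0 536870912 1239849684 370763052 536870912 50465866 3 eng mog cd4q0 cd1q2b pd1 false false false .pnp 0 1 2
    ndB4q0 ndB1q2b pcB1 Cut.none Ext.none :=
  certB0 (fam := false) (s1 := false) (s2 := false) (a := 0) (b := 1) (c := 2) (cn := .pnp) (n1 := ndB4q0) (n2 := ndB1q2b) (pc := pcB1) (cut := Cut.none) (xt := Ext.none) (P1 := 0) (W1 := 536870912) (P2 := 1239849684) (W2 := 370763052) (P3 := 536870912) (W3 := 50465866) (N0 := 3) (En := eng) (mo := mog) (C1 := cd4q0) (C2 := cd1q2b) (C3 := pd1)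
    rfl k0_mm_012_b

noncomputable def f_mm_022_a : ℕ → ℕ → ℕ → ℕ → Bool := onCell 0 536870912 0 536870912 536870912 50465866
    (rowB 3 eng mog cd4q0 cd1q2a pd2 0 false false false .pp 0 2 2 (qsf 0 536870912 0 536870912 2) ndB4q0 ndB1q2a pcB2 Cut.none Ext.none)

def k0_mm_022_a : ∃ t, chk3 f_mm_022_a t 1 1 1 = true :=
  ⟨(l 5), by decide +kernel⟩

theorem c_mm_022_a : CertB 0 536870912 0 536870912 536870912 50465866 3 eng mog cd4q0 cd1q2a pd2 false false false .pp 0 2 2
    ndB4q0 ndB1q2a pcB2 Cut.none Ext.none :=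
  certB0 (fam := false) (s1 := false) (s2 := false) (a := 0) (b := 2) (c := 2) (cn := .pp) (n1 := ndB4q0) (n2 := ndB1q2a) (pc := pcB2) (cut := Cut.none) (xt := Ext.none) (P1 := 0) (W1 := 536870912) (P2 := 0) (W2 := 536870912) (P3 := 536870912) (W3 := 50465866) (N0 := 3) (En := eng) (mo := mog) (C1 := cd4q0) (C2 := cd1q2a) (C3 := pd2)
    rfl k0_mm_022_a

noncomputable def f_mm_022_b : ℕ → ℕ → ℕ → ℕ → Bool := onCell 0 536870912 1239849684 370763052 536870912 50465866
    (rowB 3 eng mog cd4q0 cd1q2b pd2 0 false false false .pp 0 2 2 (qsf 0 536870912 1239849684 370763052 2) ndB4q0 ndB1q2b pcB2 Cut.none Ext.none)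

def k0_mm_022_b : ∃ t, chk3 f_mm_022_b t 1 1 1 = true :=
  ⟨(l 5), by decide +kernel⟩

theorem c_mm_022_b : CertB 0 536870912 1239849684 370763052 536870912 50465866 3 eng mog cd4q0 cd1q2b pd2 false false false .pp 0 2 2
    ndB4q0 ndB1q2b pcB2 Cut.none Ext.none :=
  certB0 (fam := false) (s1 := false) (s2 := false) (a := 0) (b := 2) (c := 2) (cn := .pp) (n1 := ndB4q0) (n2 := ndB1q2b) (pc := pcB2) (cut := Cut.none) (xt := Ext.none) (P1 := 0) (W1 := 536870912) (P2 := 1239849684) (W2 := 370763052) (P3 := 536870912) (W3 := 50465866) (N0 := 3) (En := eng) (mo := mog) (C1 := cd4q0) (C2 := cd1q2b) (C3 := pd2)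
    rfl k0_mm_022_b

noncomputable def f_mm_023 : ℕ → ℕ → ℕ → ℕ → Bool := onCell 0 536870912 1610612736 536870912 536870912 50465866
    (rowB 3 eng mog cd4q0 cd1q3 pd2 0 false false false .up 0 2 3 (qsf 0 536870912 1610612736 536870912 2) ndB4q0 ndB1q3 pcB2 Cut.none Ext.none)

def k0_mm_023 : ∃ t, chk3 f_mm_023 t 1 1 1 = true :=
  ⟨(l 5), by decide +kernel⟩

theorem c_mm_023 : CertB 0 536870912 1610612736 536870912 536870912 50465866 3 eng mog cd4q0 cd1q3 pd2 false false false .up 0 2 3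
    ndB4q0 ndB1q3 pcB2 Cut.none Ext.none :=
  certB0 (fam := false) (s1 := false) (s2 := false) (a := 0) (b := 2) (c := 3) (cn := .up) (n1 := ndB4q0) (n2 := ndB1q3) (pc := pcB2) (cut := Cut.none) (xt := Ext.none) (P1 := 0) (W1 := 536870912) (P2 := 1610612736) (W2 := 536870912) (P3 := 536870912) (W3 := 50465866) (N0 := 3) (En := eng) (mo := mog) (C1 := cd4q0) (C2 := cd1q3) (C3 := pd2)
    rfl k0_mm_023

noncomputable def f_mm_033 : ℕ → ℕ → ℕ → ℕ → Bool := onCell 0 536870912 1610612736 536870912 536870912 50465866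
    (rowB 3 eng mog cd4q0 cd1q3 pd3 0 false false false .pnn 0 3 3 (qsf 0 536870912 1610612736 536870912 3) ndB4q0 ndB1q3 pcB3 Cut.none Ext.none)

def k0_mm_033 : ∃ t, chk3 f_mm_033 t 1 1 1 = true :=
  ⟨(l 5), by decide +kernel⟩

theorem c_mm_033 : CertB 0 536870912 1610612736 536870912 536870912 50465866 3 eng mog cd4q0 cd1q3 pd3 false false false .pnn 0 3 3
    ndB4q0 ndB1q3 pcB3 Cut.none Ext.none :=
  certB0 (fam := false) (s1 := false) (s2 := false) (a := 0) (b := 3) (c := 3) (cn := .pnn) (n1 := ndB4q0) (n2 := ndB1q3) (pc := pcB3) (cut := Cut.none) (xt := Ext.none) (P1 := 0) (W1 := 536870912) (P2 := 1610612736) (W2 := 536870912) (P3 := 536870912) (W3 := 50465866) (N0 := 3) (En := eng) (mo := mog) (C1 := cd4q0) (C2 := cd1q3) (C3 := pd3)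
    rfl k0_mm_033

noncomputable def f_mm_101 : ℕ → ℕ → ℕ → ℕ → Bool := onCell 536870912 536870912 536870912 536870912 536870912 50465866
    (rowB 3 eng mog cd4q1 cd1q1 pd0 0 false false false .npn 1 0 1 (qsf 536870912 536870912 536870912 536870912 0) ndB4q1 ndB1q1 pcB0 Cut.none Ext.none)

def k0_mm_101 : ∃ t, chk3 f_mm_101 t 1 1 1 = true :=
  ⟨(b (l 3) (l 5)), by decide +kernel⟩

theorem c_mm_101 : CertB 536870912 536870912 536870912 536870912 536870912 50465866 3 eng mog cd4q1 cd1q1 pd0 false false false .npn 1 0 1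
    ndB4q1 ndB1q1 pcB0 Cut.none Ext.none :=
  certB0 (fam := false) (s1 := false) (s2 := false) (a := 1) (b := 0) (c := 1) (cn := .npn) (n1 := ndB4q1) (n2 := ndB1q1) (pc := pcB0) (cut := Cut.none) (xt := Ext.none) (P1 := 536870912) (W1 := 536870912) (P2 := 536870912) (W2 := 536870912) (P3 := 536870912) (W3 := 50465866) (N0 := 3) (En := eng) (mo := mog) (C1 := cd4q1) (C2 := cd1q1) (C3 := pd0)
    rfl k0_mm_101

noncomputable def f_mm_102_a : ℕ → ℕ → ℕ → ℕ → Bool := onCell 536870912 536870912 0 536870912 536870912 50465866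
    (rowB 3 eng mog cd4q1 cd1q2a pd0 0 false false false .npp 1 0 2 (qsf 536870912 536870912 0 536870912 0) ndB4q1 ndB1q2a pcB0 Cut.none Ext.none)

def k0_mm_102_a : ∃ t, chk3 f_mm_102_a t 1 1 1 = true :=
  ⟨(l 5), by decide +kernel⟩

theorem c_mm_102_a : CertB 536870912 536870912 0 536870912 536870912 50465866 3 eng mog cd4q1 cd1q2a pd0 false false false .npp 1 0 2
    ndB4q1 ndB1q2a pcB0 Cut.none Ext.none :=
  certB0 (fam := false) (s1 := false) (s2 := false) (a := 1) (b := 0) (c := 2) (cn := .npp) (n1 := ndB4q1) (n2 := ndB1q2a) (pc := pcB0) (cut := Cut.none) (xt := Ext.none) (P1 := 536870912) (W1 := 536870912) (P2 := 0) (W2 := 536870912) (P3 := 536870912) (W3 := 50465866) (N0 := 3) (En := eng) (mo := mog) (C1 := cd4q1) (C2 := cd1q2a) (C3 := pd0)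
    rfl k0_mm_102_a

noncomputable def f_mm_102_b : ℕ → ℕ → ℕ → ℕ → Bool := onCell 536870912 536870912 1239849684 370763052 536870912 50465866
    (rowB 3 eng mog cd4q1 cd1q2b pd0 0 false false false .npp 1 0 2 (qsf 536870912 536870912 1239849684 370763052 0) ndB4q1 ndB1q2b pcB0 Cut.none Ext.none)

def k0_mm_102_b : ∃ t, chk3 f_mm_102_b t 1 1 1 = true :=
  ⟨(l 5), by decide +kernel⟩

theorem c_mm_102_b : CertB 536870912 536870912 1239849684 370763052 536870912 50465866 3 eng mog cd4q1 cd1q2b pd0 false false false .npp 1 0 2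
    ndB4q1 ndB1q2b pcB0 Cut.none Ext.none :=
  certB0 (fam := false) (s1 := false) (s2 := false) (a := 1) (b := 0) (c := 2) (cn := .npp) (n1 := ndB4q1) (n2 := ndB1q2b) (pc := pcB0) (cut := Cut.none) (xt := Ext.none) (P1 := 536870912) (W1 := 536870912) (P2 := 1239849684) (W2 := 370763052) (P3 := 536870912) (W3 := 50465866) (N0 := 3) (En := eng) (mo := mog) (C1 := cd4q1) (C2 := cd1q2b) (C3 := pd0)
    rfl k0_mm_102_b

noncomputable def f_mm_112_a : ℕ → ℕ → ℕ → ℕ → Bool := onCell 536870912 536870912 0 536870912 536870912 50465866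
    (rowB 3 eng mog cd4q1 cd1q2a pd1 0 false false false .dn 1 1 2 (qsf 536870912 536870912 0 536870912 1) ndB4q1 ndB1q2a pcB1 Cut.none Ext.none)

def k0_mm_112_a : ∃ t, chk3 f_mm_112_a t 1 1 1 = true :=
  ⟨(l 5), by decide +kernel⟩

theorem c_mm_112_a : CertB 536870912 536870912 0 536870912 536870912 50465866 3 eng mog cd4q1 cd1q2a pd1 false false false .dn 1 1 2
    ndB4q1 ndB1q2a pcB1 Cut.none Ext.none :=
  certB0 (fam := false) (s1 := false) (s2 := false) (a := 1) (b := 1) (c := 2) (cn := .dn) (n1 := ndB4q1) (n2 := ndB1q2a) (pc := pcB1) (cut := Cut.none) (xt := Ext.none) (P1 := 536870912) (W1 := 536870912) (P2 := 0) (W2 := 536870912) (P3 := 536870912) (W3 := 50465866) (N0 := 3) (En := eng) (mo := mog) (C1 := cd4q1) (C2 := cd1q2a) (C3 := pd1)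
    rfl k0_mm_112_a

noncomputable def f_mm_112_b : ℕ → ℕ → ℕ → ℕ → Bool := onCell 536870912 536870912 1239849684 370763052 536870912 50465866
    (rowB 3 eng mog cd4q1 cd1q2b pd1 0 false false false .dn 1 1 2 (qsf 536870912 536870912 1239849684 370763052 1) ndB4q1 ndB1q2b pcB1 Cut.none Ext.none)

def k0_mm_112_b : ∃ t, chk3 f_mm_112_b t 1 1 1 = true :=
  ⟨(l 5), by decide +kernel⟩

theorem c_mm_112_b : CertB 536870912 536870912 1239849684 370763052 536870912 50465866 3 eng mog cd4q1 cd1q2b pd1 false false false .dn 1 1 2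
    ndB4q1 ndB1q2b pcB1 Cut.none Ext.none :=
  certB0 (fam := false) (s1 := false) (s2 := false) (a := 1) (b := 1) (c := 2) (cn := .dn) (n1 := ndB4q1) (n2 := ndB1q2b) (pc := pcB1) (cut := Cut.none) (xt := Ext.none) (P1 := 536870912) (W1 := 536870912) (P2 := 1239849684) (W2 := 370763052) (P3 := 536870912) (W3 := 50465866) (N0 := 3) (En := eng) (mo := mog) (C1 := cd4q1) (C2 := cd1q2b) (C3 := pd1)
    rfl k0_mm_112_b

noncomputable def f_mm_113 : ℕ → ℕ → ℕ → ℕ → Bool := onCell 536870912 536870912 1610612736 536870912 536870912 50465866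
    (rowB 3 eng mog cd4q1 cd1q3 pd1 0 false false false .nn 1 1 3 (qsf 536870912 536870912 1610612736 536870912 1) ndB4q1 ndB1q3 pcB1 Cut.none Ext.none)

def k0_mm_113 : ∃ t, chk3 f_mm_113 t 1 1 1 = true :=
  ⟨(l 5), by decide +kernel⟩

theorem c_mm_113 : CertB 536870912 536870912 1610612736 536870912 536870912 50465866 3 eng mog cd4q1 cd1q3 pd1 false false false .nn 1 1 3
    ndB4q1 ndB1q3 pcB1 Cut.none Ext.none :=
  certB0 (fam := false) (s1 := false) (s2 := false) (a := 1) (b := 1) (c := 3) (cn := .nn) (n1 := ndB4q1) (n2 := ndB1q3) (pc := pcB1) (cut := Cut.none) (xt := Ext.none) (P1 := 536870912) (W1 := 536870912) (P2 := 1610612736) (W2 := 536870912) (P3 := 536870912) (W3 := 50465866) (N0 := 3) (En := eng) (mo := mog) (C1 := cd4q1) (C2 := cd1q3) (C3 := pd1)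
    rfl k0_mm_113

noncomputable def f_mm_123 : ℕ → ℕ → ℕ → ℕ → Bool := onCell 536870912 536870912 1610612736 536870912 536870912 50465866
    (rowB 3 eng mog cd4q1 cd1q3 pd2 0 false false false .npn 1 2 3 (qsf 536870912 536870912 1610612736 536870912 2) ndB4q1 ndB1q3 pcB2 Cut.none Ext.none)

def k0_mm_123 : ∃ t, chk3 f_mm_123 t 1 1 1 = true :=
  ⟨(l 5), by decide +kernel⟩

theorem c_mm_123 : CertB 536870912 536870912 1610612736 536870912 536870912 50465866 3 eng mog cd4q1 cd1q3 pd2 false false false .npn 1 2 3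
    ndB4q1 ndB1q3 pcB2 Cut.none Ext.none :=
  certB0 (fam := false) (s1 := false) (s2 := false) (a := 1) (b := 2) (c := 3) (cn := .npn) (n1 := ndB4q1) (n2 := ndB1q3) (pc := pcB2) (cut := Cut.none) (xt := Ext.none) (P1 := 536870912) (W1 := 536870912) (P2 := 1610612736) (W2 := 536870912) (P3 := 536870912) (W3 := 50465866) (N0 := 3) (En := eng) (mo := mog) (C1 := cd4q1) (C2 := cd1q3) (C3 := pd2)
    rfl k0_mm_123

noncomputable def f_mm_133 : ℕ → ℕ → ℕ → ℕ → Bool := onCell 536870912 536870912 1610612736 536870912 536870912 50465866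
    (rowB 3 eng mog cd4q1 cd1q3 pd3 0 false false false .dn 1 3 3 (qsf 536870912 536870912 1610612736 536870912 3) ndB4q1 ndB1q3 pcB3 Cut.none Ext.none)

def k0_mm_133 : ∃ t, chk3 f_mm_133 t 1 1 1 = true :=
  ⟨(l 5), by decide +kernel⟩

theorem c_mm_133 : CertB 536870912 536870912 1610612736 536870912 536870912 50465866 3 eng mog cd4q1 cd1q3 pd3 false false false .dn 1 3 3
    ndB4q1 ndB1q3 pcB3 Cut.none Ext.none :=
  certB0 (fam := false) (s1 := false) (s2 := false) (a := 1) (b := 3) (c := 3) (cn := .dn) (n1 := ndB4q1) (n2 := ndB1q3) (pc := pcB3) (cut := Cut.none) (xt := Ext.none) (P1 := 536870912) (W1 := 536870912) (P2 := 1610612736) (W2 := 536870912) (P3 := 536870912) (W3 := 50465866) (N0 := 3) (En := eng) (mo := mog) (C1 := cd4q1) (C2 := cd1q3) (C3 := pd3)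
    rfl k0_mm_133

noncomputable def f_mm_202_a : ℕ → ℕ → ℕ → ℕ → Bool := onCell 1073741824 536870912 0 536870912 536870912 50465866
    (rowB 3 eng mog cd4q2 cd1q2a pd0 0 false false false .pp 2 0 2 (qsf 1073741824 536870912 0 536870912 0) ndB4q2 ndB1q2a pcB0 Cut.none Ext.none)

def k0_mm_202_a : ∃ t, chk3 f_mm_202_a t 1 1 1 = true :=
  ⟨(l 3), by decide +kernel⟩

theorem c_mm_202_a : CertB 1073741824 536870912 0 536870912 536870912 50465866 3 eng mog cd4q2 cd1q2a pd0 false false false .pp 2 0 2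
    ndB4q2 ndB1q2a pcB0 Cut.none Ext.none :=
  certB0 (fam := false) (s1 := false) (s2 := false) (a := 2) (b := 0) (c := 2) (cn := .pp) (n1 := ndB4q2) (n2 := ndB1q2a) (pc := pcB0) (cut := Cut.none) (xt := Ext.none) (P1 := 1073741824) (W1 := 536870912) (P2 := 0) (W2 := 536870912) (P3 := 536870912) (W3 := 50465866) (N0 := 3) (En := eng) (mo := mog) (C1 := cd4q2) (C2 := cd1q2a) (C3 := pd0)
    rfl k0_mm_202_a

noncomputable def f_mm_202_b : ℕ → ℕ → ℕ → ℕ → Bool := onCell 1073741824 536870912 1239849684 370763052 536870912 50465866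
    (rowB 3 eng mog cd4q2 cd1q2b pd0 0 false false false .pp 2 0 2 (qsf 1073741824 536870912 1239849684 370763052 0) ndB4q2 ndB1q2b pcB0 Cut.none Ext.none)

def k0_mm_202_b : ∃ t, chk3 f_mm_202_b t 1 1 1 = true :=
  ⟨(l 3), by decide +kernel⟩

theorem c_mm_202_b : CertB 1073741824 536870912 1239849684 370763052 536870912 50465866 3 eng mog cd4q2 cd1q2b pd0 false false false .pp 2 0 2
    ndB4q2 ndB1q2b pcB0 Cut.none Ext.none :=
  certB0 (fam := false) (s1 := false) (s2 := false) (a := 2) (b := 0) (c := 2) (cn := .pp) (n1 := ndB4q2) (n2 := ndB1q2b) (pc := pcB0) (cut := Cut.none) (xt := Ext.none) (P1 := 1073741824) (W1 := 536870912) (P2 := 1239849684) (W2 := 370763052) (P3 := 536870912) (W3 := 50465866) (N0 := 3) (En := eng) (mo := mog) (C1 := cd4q2) (C2 := cd1q2b) (C3 := pd0)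
    rfl k0_mm_202_b

noncomputable def f_mm_203 : ℕ → ℕ → ℕ → ℕ → Bool := onCell 1073741824 536870912 1610612736 536870912 536870912 50465866
    (rowB 3 eng mog cd4q2 cd1q3 pd0 0 false false false .up 2 0 3 (qsf 1073741824 536870912 1610612736 536870912 0) ndB4q2 ndB1q3 pcB0 Cut.none Ext.none)

def k0_mm_203 : ∃ t, chk3 f_mm_203 t 1 1 1 = true :=
  ⟨(l 5), by decide +kernel⟩

theorem c_mm_203 : CertB 1073741824 536870912 1610612736 536870912 536870912 50465866 3 eng mog cd4q2 cd1q3 pd0 false false false .up 2 0 3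
    ndB4q2 ndB1q3 pcB0 Cut.none Ext.none :=
  certB0 (fam := false) (s1 := false) (s2 := false) (a := 2) (b := 0) (c := 3) (cn := .up) (n1 := ndB4q2) (n2 := ndB1q3) (pc := pcB0) (cut := Cut.none) (xt := Ext.none) (P1 := 1073741824) (W1 := 536870912) (P2 := 1610612736) (W2 := 536870912) (P3 := 536870912) (W3 := 50465866) (N0 := 3) (En := eng) (mo := mog) (C1 := cd4q2) (C2 := cd1q3) (C3 := pd0)
    rfl k0_mm_203

noncomputable def f_mm_213 : ℕ → ℕ → ℕ → ℕ → Bool := onCell 1073741824 536870912 1610612736 536870912 536870912 50465866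
    (rowB 3 eng mog cd4q2 cd1q3 pd1 0 false false false .pnn 2 1 3 (qsf 1073741824 536870912 1610612736 536870912 1) ndB4q2 ndB1q3 pcB1 Cut.none Ext.none)

def k0_mm_213 : ∃ t, chk3 f_mm_213 t 1 1 1 = true :=
  ⟨(l 5), by decide +kernel⟩

theorem c_mm_213 : CertB 1073741824 536870912 1610612736 536870912 536870912 50465866 3 eng mog cd4q2 cd1q3 pd1 false false false .pnn 2 1 3
    ndB4q2 ndB1q3 pcB1 Cut.none Ext.none :=
  certB0 (fam := false) (s1 := false) (s2 := false) (a := 2) (b := 1) (c := 3) (cn := .pnn) (n1 := ndB4q2) (n2 := ndB1q3) (pc := pcB1) (cut := Cut.none) (xt := Ext.none) (P1 := 1073741824) (W1 := 536870912) (P2 := 1610612736) (W2 := 536870912) (P3 := 536870912) (W3 := 50465866) (N0 := 3) (En := eng) (mo := mog) (C1 := cd4q2) (C2 := cd1q3) (C3 := pd1)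
    rfl k0_mm_213

noncomputable def f_mm_303 : ℕ → ℕ → ℕ → ℕ → Bool := onCell 0 1230186008 1610612736 536870912 536870912 50465866
    (rowB 3 eng mog cd4q3 cd1q3 pd0 0 false false false .npn 3 0 3 (qsf 0 1230186008 1610612736 536870912 0) ndB4q3 ndB1q3 pcB0 Cut.none Ext.none)

def k0_mm_303 : ∃ t, chk3 f_mm_303 t 1 1 1 = true :=
  ⟨(a (l 3) (l 3)), by decide +kernel⟩

theorem c_mm_303 : CertB 0 1230186008 1610612736 536870912 536870912 50465866 3 eng mog cd4q3 cd1q3 pd0 false false false .npn 3 0 3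
    ndB4q3 ndB1q3 pcB0 Cut.none Ext.none :=
  certB0 (fam := false) (s1 := false) (s2 := false) (a := 3) (b := 0) (c := 3) (cn := .npn) (n1 := ndB4q3) (n2 := ndB1q3) (pc := pcB0) (cut := Cut.none) (xt := Ext.none) (P1 := 0) (W1 := 1230186008) (P2 := 1610612736) (W2 := 536870912) (P3 := 536870912) (W3 := 50465866) (N0 := 3) (En := eng) (mo := mog) (C1 := cd4q3) (C2 := cd1q3) (C3 := pd0)
    rfl k0_mm_303

noncomputable def f_mm_313 : ℕ → ℕ → ℕ → ℕ → Bool := onCell 0 1230186008 1610612736 536870912 536870912 50465866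
    (rowB 3 eng mog cd4q3 cd1q3 pd1 0 false false false .dn 3 1 3 (qsf 0 1230186008 1610612736 536870912 1) ndB4q3 ndB1q3 pcB1 Cut.none Ext.none)

def k0_mm_313 : ∃ t, chk3 f_mm_313 t 1 1 1 = true :=
  ⟨(a (l 1) (l 3)), by decide +kernel⟩

theorem c_mm_313 : CertB 0 1230186008 1610612736 536870912 536870912 50465866 3 eng mog cd4q3 cd1q3 pd1 false false false .dn 3 1 3
    ndB4q3 ndB1q3 pcB1 Cut.none Ext.none :=
  certB0 (fam := false) (s1 := false) (s2 := false) (a := 3) (b := 1) (c := 3) (cn := .dn) (n1 := ndB4q3) (n2 := ndB1q3) (pc := pcB1) (cut := Cut.none) (xt := Ext.none) (P1 := 0) (W1 := 1230186008) (P2 := 1610612736) (W2 := 536870912) (P3 := 536870912) (W3 := 50465866) (N0 := 3) (En := eng) (mo := mog) (C1 := cd4q3) (C2 := cd1q3) (C3 := pd1)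
    rfl k0_mm_313

end Pool.Agent.Strip051.G.I5000_5470.Tab.C.BB41

namespace Pool.Agent.Strip051.G.I5000_5470.Tab.C.BB42

open Pool.Agent.Strip051.PB Pool.Agent.Strip051.PB.T
open Pool.Agent.Strip051.G.I5000_5470.Tab

noncomputable def f_pp_001 : ℕ → ℕ → ℕ → ℕ → Bool := onCell 0 536870912 0 536870912 536870912 50465866
    (rowB 3 eng mog cd4q0 cd2q1 pd0 1 false true true .up 0 0 1 (qsf 0 536870912 536870912 536870912 0) ndB4q0 ndB2q1 pcB0 Cut.none Ext.none)

def k0_pp_001 : ∃ t, chk3 f_pp_001 t 1 1 1 = true :=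
  ⟨(l 3), by decide +kernel⟩

theorem c_pp_001 : CertB 0 536870912 536870912 536870912 536870912 50465866 3 eng mog cd4q0 cd2q1 pd0 false true true .up 0 0 1
    ndB4q0 ndB2q1 pcB0 Cut.none Ext.none :=
  certB1 (fam := false) (s1 := true) (s2 := true) (a := 0) (b := 0) (c := 1) (cn := .up) (n1 := ndB4q0) (n2 := ndB2q1) (pc := pcB0) (cut := Cut.none) (xt := Ext.none) (P1 := 0) (W1 := 536870912) (P2 := 536870912) (W2 := 536870912) (P3 := 536870912) (W3 := 50465866) (N0 := 3) (En := eng) (mo := mog) (C1 := cd4q0) (C2 := cd2q1) (C3 := pd0)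
    rfl (fun _ => rfl) k0_pp_001

noncomputable def f_pp_011 : ℕ → ℕ → ℕ → ℕ → Bool := onCell 0 536870912 536870912 536870912 536870912 50465866
    (rowB 3 eng mog cd4q0 cd2q1 pd1 0 false true true .pnn 0 1 1 (qsf 0 536870912 536870912 536870912 1) ndB4q0 ndB2q1 pcB1 Cut.none Ext.none)

def k0_pp_011 : ∃ t, chk3 f_pp_011 t 1 1 1 = true :=
  ⟨(a (l 3) (l 3)), by decide +kernel⟩

theorem c_pp_011 : CertB 0 536870912 536870912 536870912 536870912 50465866 3 eng mog cd4q0 cd2q1 pd1 false true true .pnn 0 1 1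
    ndB4q0 ndB2q1 pcB1 Cut.none Ext.none :=
  certB0 (fam := false) (s1 := true) (s2 := true) (a := 0) (b := 1) (c := 1) (cn := .pnn) (n1 := ndB4q0) (n2 := ndB2q1) (pc := pcB1) (cut := Cut.none) (xt := Ext.none) (P1 := 0) (W1 := 536870912) (P2 := 536870912) (W2 := 536870912) (P3 := 536870912) (W3 := 50465866) (N0 := 3) (En := eng) (mo := mog) (C1 := cd4q0) (C2 := cd2q1) (C3 := pd1)
    rfl k0_pp_011

noncomputable def f_pp_012_a : ℕ → ℕ → ℕ → ℕ → Bool := onCell 0 536870912 0 536870912 536870912 50465866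
    (rowB 3 eng mog cd4q0 cd2q2a pd1 0 false true true .pnp 0 1 2 (qsf 0 536870912 0 536870912 1) ndB4q0 ndB2q2a pcB1 Cut.none Ext.none)

def k0_pp_012_a : ∃ t, chk3 f_pp_012_a t 1 1 1 = true :=
  ⟨(a (b (a (b (l 2) (a (l 2) (a (l 2) (b (l 2) (l 16615872))))) (b (a (a (l 16591480) (l 16629112)) (l 16672784)) (a (a (l 16641240) (l 16674632)) (l 16709936)))) (a (b (a (l 2) (a (b (l 2) (a (l 16659584) (l 16680592))) (b (l 16660072) (l 16707136)))) (b (a (a (l 2) (b (l 16616544) (l 16705128))) (a (b (l 16711576) (l 16732656)) (l 16736040))) (a (b (a (l 16706768) (a (l 16727824) (l 16736096))) (a (b (l 16727768) (l 16740976)) (l 16725496))) (b (a (l 16726936) (l 16697688)) (l 16734472))))) (b (a (b (l 16708712) (l 16734872)) (b (l 16737888) (l 16734072))) (b (a (b (l 16731520) (l 16698656)) (l 16662744)) (a (b (l 16672064) (a (l 16695120) (l 16684744))) (b (l 16643144) (l 16668992))))))) (b (a (b (a (l 16712416) (l 16737152)) (a (l 16736320) (l 16741648)))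 (a (b (l 16741104) (l 16729752)) (b (a (l 16736128) (l 16730272)) (a (l 16716008) (l 16702944))))) (a (b (a (b (l 16740160) (l 16707048)) (b (l 16718736) (l 16665640))) (a (b (l 16701296) (a (l 16634344) (b (l 16594992) (l 16627376)))) (b (l 16776456) (b (b (l 16503440) (l 16725528)) (a (b (l 16559000) (l 16583600)) (l 16521760)))))) (b (a (b (a (l 16696936) (l 16682768)) (a (l 16638368) (l 16701992))) (b (a (l 16665368) (l 16641584)) (a (l 16590784) (l 16562432)))) (a (b (a (l 16519296) (l 16489096)) (a (l 16494624) (b (l 16390248) (l 16429792)))) (b (a (l 16457312) (l 16435472)) (a (l 16380704) (l 16368544)))))))), by decide +kernel⟩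

theorem c_pp_012_a : CertB 0 536870912 0 536870912 536870912 50465866 3 eng mog cd4q0 cd2q2a pd1 false true true .pnp 0 1 2
    ndB4q0 ndB2q2a pcB1 Cut.none Ext.none :=
  certB0 (fam := false) (s1 := true) (s2 := true) (a := 0) (b := 1) (c := 2) (cn := .pnp) (n1 := ndB4q0) (n2 := ndB2q2a) (pc := pcB1) (cut := Cut.none) (xt := Ext.none) (P1 := 0) (W1 := 536870912) (P2 := 0) (W2 := 536870912) (P3 := 536870912) (W3 := 50465866) (N0 := 3) (En := eng) (mo := mog) (C1 := cd4q0) (C2 := cd2q2a) (C3 := pd1)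
    rfl k0_pp_012_a

noncomputable def f_pp_012_b : ℕ → ℕ → ℕ → ℕ → Bool := onCell 0 536870912 536870912 536870912 536870912 50465866
    (rowB 3 eng mog cd4q0 cd2q2b pd1 1 false true true .pnp 0 1 2 (qsf 0 536870912 1239849684 370763052 1) ndB4q0 ndB2q2b pcB1 Cut.none Ext.none)

def k0_pp_012_b : ∃ t, chk3 f_pp_012_b t 1 1 1 = true :=
  ⟨(a (b (l 1) (a (l 1) (b (l 1) (a (b (l 1) (l 377453902199)) (b (l 406981739271) (l 16609712)))))) (b (a (l 1) (b (l 1) (a (b (l 1) (l 453152966727)) (b (l 360811195239) (l 16756792))))) (a (b (a (b (l 1) (l 400002593463)) (l 306587169623)) (a (b (l 16668880) (l 16587808)) (l 16666640))) (a (b (l 322156561351) (l 16759088)) (b (l 16819272) (l 16918704)))))), by decide +kernel⟩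

theorem c_pp_012_b : CertB 0 536870912 1239849684 370763052 536870912 50465866 3 eng mog cd4q0 cd2q2b pd1 false true true .pnp 0 1 2
    ndB4q0 ndB2q2b pcB1 Cut.none Ext.none :=
  certB1 (fam := false) (s1 := true) (s2 := true) (a := 0) (b := 1) (c := 2) (cn := .pnp) (n1 := ndB4q0) (n2 := ndB2q2b) (pc := pcB1) (cut := Cut.none) (xt := Ext.none) (P1 := 0) (W1 := 536870912) (P2 := 1239849684) (W2 := 370763052) (P3 := 536870912) (W3 := 50465866) (N0 := 3) (En := eng) (mo := mog) (C1 := cd4q0) (C2 := cd2q2b) (C3 := pd1)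
    rfl (fun _ => rfl) k0_pp_012_b

noncomputable def f_pp_022_a : ℕ → ℕ → ℕ → ℕ → Bool := onCell 1073741824 536870912 0 536870912 536870912 50465866
    (rowB 3 eng mog cd4q0 cd2q2a pd2 2 false true true .pp 0 2 2 (qsf 0 536870912 0 536870912 2) ndB4q0 ndB2q2a pcB2 Cut.none Ext.none)

def k0_pp_022_a : ∃ t, chk3 f_pp_022_a t 1 1 1 = true :=
  ⟨(a (b (a (b (a (l 16640712) (l 16592392)) (a (b (l 16613704) (l 16628792)) (b (l 16603896) (l 16616408)))) (a (b (a (l 16585952) (l 16576960)) (a (l 16598936) (l 1))) (l 1))) (a (a (b (a (l 16682072) (l 16652360)) (b (a (b (l 16686744) (l 16698528)) (a (l 16726424) (l 167537322263))) (a (a (b (l 16714120) (l 16727224)) (b (l 16707880) (l 183643399223))) (b (a (l 16701472) (l 1)) (l 1))))) (b (b (l 16631160) (a (l 16652968) (l 16641320))) (b (a (b (l 16666992) (l 1)) (l 1)) (l 1)))) (b (l 1) (l 1)))) (l 1)), by decide +kernel⟩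

theorem c_pp_022_a : CertB 0 536870912 0 536870912 536870912 50465866 3 eng mog cd4q0 cd2q2a pd2 false true true .pp 0 2 2
    ndB4q0 ndB2q2a pcB2 Cut.none Ext.none :=
  certB2 (fam := false) (s1 := true) (s2 := true) (a := 0) (b := 2) (c := 2) (cn := .pp) (n1 := ndB4q0) (n2 := ndB2q2a) (pc := pcB2) (cut := Cut.none) (xt := Ext.none) (P1 := 0) (W1 := 536870912) (P2 := 0) (W2 := 536870912) (P3 := 536870912) (W3 := 50465866) (N0 := 3) (En := eng) (mo := mog) (C1 := cd4q0) (C2 := cd2q2a) (C3 := pd2)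
    rfl (fun _ => rfl) k0_pp_022_a

noncomputable def f_pp_022_b : ℕ → ℕ → ℕ → ℕ → Bool := onCell 0 536870912 1239849684 370763052 536870912 50465866
    (rowB 3 eng mog cd4q0 cd2q2b pd2 0 false true true .pp 0 2 2 (qsf 0 536870912 1239849684 370763052 2) ndB4q0 ndB2q2b pcB2 Cut.none Ext.none)

def k0_pp_022_b : ∃ t, chk3 f_pp_022_b t 1 1 1 = true :=
  ⟨(a (b (a (b (a (b (a (l 16561728) (l 16567096)) (a (l 16513352) (l 16528272))) (b (l 16571768) (l 16539520))) (a (b (l 16469704) (l 16406312)) (b (l 16506832) (l 16470608)))) (b (b (a (l 16576912) (l 16586040)) (l 16655176)) (a (l 16654904) (l 16515352)))) (a (b (a (l 16286128) (l 16402144)) (a (l 16107776) (l 16280128))) (b (a (l 16454920) (l 16470400)) (a (l 16386416) (l 16427248))))) (a (b (b (l 1) (a (l 16535912) (l 16638136))) (b (l 16541152) (a (l 16460112) (l 16573928)))) (b (l 1) (a (l 521335651335) (l 550327119975))))), by decide +kernel⟩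

theorem c_pp_022_b : CertB 0 536870912 1239849684 370763052 536870912 50465866 3 eng mog cd4q0 cd2q2b pd2 false true true .pp 0 2 2
    ndB4q0 ndB2q2b pcB2 Cut.none Ext.none :=
  certB0 (fam := false) (s1 := true) (s2 := true) (a := 0) (b := 2) (c := 2) (cn := .pp) (n1 := ndB4q0) (n2 := ndB2q2b) (pc := pcB2) (cut := Cut.none) (xt := Ext.none) (P1 := 0) (W1 := 536870912) (P2 := 1239849684) (W2 := 370763052) (P3 := 536870912) (W3 := 50465866) (N0 := 3) (En := eng) (mo := mog) (C1 := cd4q0) (C2 := cd2q2b) (C3 := pd2)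
    rfl k0_pp_022_b

noncomputable def f_pp_023 : ℕ → ℕ → ℕ → ℕ → Bool := onCell 0 536870912 1073741824 536870912 536870912 50465866
    (rowB 3 eng mog cd4q0 cd2q3 pd2 1 false true true .up 0 2 3 (qsf 0 536870912 1610612736 536870912 2) ndB4q0 ndB2q3 pcB2 Cut.none Ext.none)

def k0_pp_023 : ∃ t, chk3 f_pp_023 t 1 1 1 = true :=
  ⟨(a (b (b (l 1) (a (l 1) (l 520798116407))) (b (a (l 476237680231) (l 461205407495)) (a (b (l 16185584) (l 16065072)) (b (l 16323744) (l 16443512))))) (b (a (b (l 16678408) (l 528851403159)) (b (a (l 16751768) (l 16993848)) (a (l 16760376) (l 16931744)))) (a (b (b (l 16522808) (l 16537160)) (l 16648848)) (b (a (l 16753960) (l 16827192)) (l 4))))), by decide +kernel⟩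

theorem c_pp_023 : CertB 0 536870912 1610612736 536870912 536870912 50465866 3 eng mog cd4q0 cd2q3 pd2 false true true .up 0 2 3
    ndB4q0 ndB2q3 pcB2 Cut.none Ext.none :=
  certB1 (fam := false) (s1 := true) (s2 := true) (a := 0) (b := 2) (c := 3) (cn := .up) (n1 := ndB4q0) (n2 := ndB2q3) (pc := pcB2) (cut := Cut.none) (xt := Ext.none) (P1 := 0) (W1 := 536870912) (P2 := 1610612736) (W2 := 536870912) (P3 := 536870912) (W3 := 50465866) (N0 := 3) (En := eng) (mo := mog) (C1 := cd4q0) (C2 := cd2q3) (C3 := pd2)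
    rfl (fun _ => rfl) k0_pp_023

noncomputable def f_pp_033 : ℕ → ℕ → ℕ → ℕ → Bool := onCell 0 536870912 1610612736 536870912 536870912 50465866
    (rowB 3 eng mog cd4q0 cd2q3 pd3 0 false true true .pnn 0 3 3 (qsf 0 536870912 1610612736 536870912 3) ndB4q0 ndB2q3 pcB3 Cut.none Ext.none)

def k0_pp_033 : ∃ t, chk3 f_pp_033 t 1 1 1 = true :=
  ⟨(a (b (a (b (b (a (l 16096880) (l 16162672)) (a (b (l 16272120) (l 4)) (l 16274648))) (l 4)) (b (b (l 1) (a (l 16270176) (l 1))) (a (l 4) (b (l 4) (l 4))))) (l 4)) (b (a (b (l 1) (b (l 1) (l 4))) (l 1)) (a (l 4) (l 4)))), by decide +kernel⟩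

theorem c_pp_033 : CertB 0 536870912 1610612736 536870912 536870912 50465866 3 eng mog cd4q0 cd2q3 pd3 false true true .pnn 0 3 3
    ndB4q0 ndB2q3 pcB3 Cut.none Ext.none :=
  certB0 (fam := false) (s1 := true) (s2 := true) (a := 0) (b := 3) (c := 3) (cn := .pnn) (n1 := ndB4q0) (n2 := ndB2q3) (pc := pcB3) (cut := Cut.none) (xt := Ext.none) (P1 := 0) (W1 := 536870912) (P2 := 1610612736) (W2 := 536870912) (P3 := 536870912) (W3 := 50465866) (N0 := 3) (En := eng) (mo := mog) (C1 := cd4q0) (C2 := cd2q3) (C3 := pd3)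
    rfl k0_pp_033

noncomputable def f_pp_101 : ℕ → ℕ → ℕ → ℕ → Bool := onCell 536870912 536870912 536870912 536870912 536870912 50465866
    (rowB 3 eng mog cd4q1 cd2q1 pd0 0 false true true .npn 1 0 1 (qsf 536870912 536870912 536870912 536870912 0) ndB4q1 ndB2q1 pcB0 Cut.none Ext.none)

def k0_pp_101 : ∃ t, chk3 f_pp_101 t 1 1 1 = true :=
  ⟨(l 3), by decide +kernel⟩

theorem c_pp_101 : CertB 536870912 536870912 536870912 536870912 536870912 50465866 3 eng mog cd4q1 cd2q1 pd0 false true true .npn 1 0 1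
    ndB4q1 ndB2q1 pcB0 Cut.none Ext.none :=
  certB0 (fam := false) (s1 := true) (s2 := true) (a := 1) (b := 0) (c := 1) (cn := .npn) (n1 := ndB4q1) (n2 := ndB2q1) (pc := pcB0) (cut := Cut.none) (xt := Ext.none) (P1 := 536870912) (W1 := 536870912) (P2 := 536870912) (W2 := 536870912) (P3 := 536870912) (W3 := 50465866) (N0 := 3) (En := eng) (mo := mog) (C1 := cd4q1) (C2 := cd2q1) (C3 := pd0)
    rfl k0_pp_101

noncomputable def cut_pp_102_a : Cut := Cut.of [[⟨0, 1, 0, 67108864⟩, ⟨1, 0, 0, 67108864⟩, ⟨2, 1, 0, 67108864⟩]]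

noncomputable def f_pp_102_a : ℕ → ℕ → ℕ → ℕ → Bool := onCell 536870912 536870912 0 536870912 536870912 50465866
    (rowB 3 eng mog cd4q1 cd2q2a pd0 0 false true true .npp 1 0 2 (qsf 536870912 536870912 0 536870912 0) ndB4q1 ndB2q2a pcB0 cut_pp_102_a Ext.none)

def k0_pp_102_a : ∃ t, chk3 f_pp_102_a t 2 1 1 = true :=
  ⟨(b (a (a (l 2) (b (l 2) (l 16616616))) (b (a (l 16633624) (l 16600688)) (a (l 16591432) (l 16562608)))) (a (b (a (l 2) (b (l 16554936) (l 16500672))) (a (b (a (l 2) (l 16408880)) (a (l 16379144) (l 16304896))) (b (l 16438808) (b (l 16390392) (l 16376208))))) (b (a (b (l 16542896) (l 16631704)) (b (l 16525296) (l 16543632))) (b (a (b (l 16478872) (l 16464616)) (b (l 16489232) (l 16486824))) (a (b (a (l 16438872) (l 16466832)) (a (l 16424352) (a (l 16454776) (l 16472848)))) (b (a (l 16482912) (l 16496896)) (a (l 16614040) (l 16508936)))))))), by decide +kernel⟩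

def k1_pp_102_a : ∃ t, chk3 f_pp_102_a t 3 1 1 = true :=
  ⟨(b (a (b (a (l 16562184) (l 16667040)) (a (l 16528904) (b (l 16583760) (l 16491184)))) (a (b (l 16493008) (b (l 16478608) (a (l 16480632) (l 16474608)))) (b (l 16466776) (b (l 16524136) (a (l 16470040) (l 16463360)))))) (a (b (a (b (l 16503728) (a (l 16495632) (l 16579024))) (b (l 16532776) (a (l 16498880) (l 16504088)))) (b (a (a (l 16498152) (l 16530376)) (b (a (l 16513608) (l 16524336)) (l 16621904))) (a (b (l 16607144) (a (l 16531472) (l 16556176))) (b (a (l 16553192) (l 16574352)) (b (l 16608104) (a (l 16590776) (l 16640080))))))) (b (a (b (a (l 16488440) (l 16487888)) (a (l 16509752) (b (l 16507160) (l 16525760)))) (a (b (b (l 16481304) (l 16494696)) (b (l 16511680) (l 16534448))) (b (a (l 16485968) (l 16484880)) (b (a (l 16514240) (l 16515752)) (a (l 16540736) (l 16545064)))))) (a (a (b (b (l 16536096) (b (l 16555456) (l 16570440))) (b (l 16638552) (b (l 16626512) (b (l 16643032)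 (l 16677520))))) (b (b (l 16612744) (b (l 16572232) (l 16590320))) (b (b (l 16609704) (l 16652312)) (b (l 16676032) (b (l 16674160) (b (l 16684592) (l 16713248))))))) (b (a (b (l 16647576) (a (l 16637512) (l 16605440))) (a (b (l 16574184) (b (l 16604008) (l 16626480))) (a (b (l 16579464) (l 16622552)) (b (l 16583032) (l 16648416))))) (b (a (a (b (l 16627368) (l 16651080)) (b (l 16660056) (a (l 16660960) (l 16667568)))) (a (b (l 16671888) (l 6)) (l 6))) (a (a (b (l 16697952) (b (l 16697728) (b (l 16708568) (l 16716200)))) (b (b (l 16684456) (l 6)) (l 6))) (l 6)))))))), by decide +kernel⟩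

theorem s2_pp_102_a : ∃ t, chk3 f_pp_102_a t 1 1 1 = true := ex3_a k0_pp_102_a k1_pp_102_a

theorem c_pp_102_a : CertB 536870912 536870912 0 536870912 536870912 50465866 3 eng mog cd4q1 cd2q2a pd0 false true true .npp 1 0 2
    ndB4q1 ndB2q2a pcB0 cut_pp_102_a Ext.none :=
  certB0 (fam := false) (s1 := true) (s2 := true) (a := 1) (b := 0) (c := 2) (cn := .npp) (n1 := ndB4q1) (n2 := ndB2q2a) (pc := pcB0) (cut := cut_pp_102_a) (xt := Ext.none) (P1 := 536870912) (W1 := 536870912) (P2 := 0) (W2 := 536870912) (P3 := 536870912) (W3 := 50465866) (N0 := 3) (En := eng) (mo := mog) (C1 := cd4q1) (C2 := cd2q2a) (C3 := pd0)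
    rfl s2_pp_102_a

end Pool.Agent.Strip051.G.I5000_5470.Tab.C.BB42

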