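import Pool.Agent.Strip051.G.I5000_5470.Tab

/-! # Certificates B26 (generated) -/

set_option linter.all false
set_option maxRecDepth 100000

namespace Pool.Agent.Strip051.G.I5000_5470.Tab.C.BB42

open Pool.Agent.Strip051.PB Pool.Agent.Strip051.PB.T
open Pool.Agent.Strip051.G.I5000_5470.Tab

noncomputable def cut_pp_102_b : Cut := Cut.of [[⟨0, 1, 0, 67108864⟩, ⟨1, 0, 0, 67108864⟩, ⟨2, 1, 0, 67108864⟩]]

noncomputable def f_pp_102_b : ℕ → ℕ → ℕ → ℕ → Bool := onCell 0 536870912 1239849684 370763052 536870912 50465866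
    (rowB 3 eng mog cd4q1 cd2q2b pd0 2 false true true .npp 1 0 2 (qsf 536870912 536870912 1239849684 370763052 0) ndB4q1 ndB2q2b pcB0 cut_pp_102_b Ext.none)

def k0_pp_102_b : ∃ t, chk3 f_pp_102_b t 1 1 1 = true :=
  ⟨(a (a (l 2) (b (a (b (b (l 16418680) (l 2)) (l 2)) (b (l 16426064) (l 16265584))) (l 2))) (a (a (b (b (l 16470856) (l 16343376)) (l 2)) (b (l 16558448) (l 16310760))) (b (a (l 16575848) (l 16639768)) (a (l 16517560) (l 16693440))))), by decide +kernel⟩

theorem c_pp_102_b : CertB 536870912 536870912 1239849684 370763052 536870912 50465866 3 eng mog cd4q1 cd2q2b pd0 false true true .npp 1 0 2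
    ndB4q1 ndB2q2b pcB0 cut_pp_102_b Ext.none :=
  certB2 (fam := false) (s1 := true) (s2 := true) (a := 1) (b := 0) (c := 2) (cn := .npp) (n1 := ndB4q1) (n2 := ndB2q2b) (pc := pcB0) (cut := cut_pp_102_b) (xt := Ext.none) (P1 := 536870912) (W1 := 536870912) (P2 := 1239849684) (W2 := 370763052) (P3 := 536870912) (W3 := 50465866) (N0 := 3) (En := eng) (mo := mog) (C1 := cd4q1) (C2 := cd2q2b) (C3 := pd0)
    rfl (fun _ => rfl) k0_pp_102_b

noncomputable def f_pp_112_a : ℕ → ℕ → ℕ → ℕ → Bool := onCell 536870912 536870912 0 536870912 536870912 50465866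
    (rowB 3 eng mog cd4q1 cd2q2a pd1 0 false true true .dn 1 1 2 (qsf 536870912 536870912 0 536870912 1) ndB4q1 ndB2q2a pcB1 Cut.none Ext.none)

def k0_pp_112_a : ∃ t, chk3 f_pp_112_a t 1 1 1 = true :=
  ⟨(a (b (a (b (a (l 16712072) (l 16673664)) (a (a (l 16682536) (l 16661384)) (l 16626488))) (a (b (l 50499728759) (l 16585064)) (l 1))) (a (b (a (b (l 16604064) (l 16741128)) (b (l 16562376) (l 16507136))) (a (b (a (l 16438488) (l 16433736)) (a (l 16402728) (l 16339232))) (b (l 16491816) (l 1)))) (b (l 1) (l 1)))) (l 1)), by decide +kernel⟩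

theorem c_pp_112_a : CertB 536870912 536870912 0 536870912 536870912 50465866 3 eng mog cd4q1 cd2q2a pd1 false true true .dn 1 1 2
    ndB4q1 ndB2q2a pcB1 Cut.none Ext.none :=
  certB0 (fam := false) (s1 := true) (s2 := true) (a := 1) (b := 1) (c := 2) (cn := .dn) (n1 := ndB4q1) (n2 := ndB2q2a) (pc := pcB1) (cut := Cut.none) (xt := Ext.none) (P1 := 536870912) (W1 := 536870912) (P2 := 0) (W2 := 536870912) (P3 := 536870912) (W3 := 50465866) (N0 := 3) (En := eng) (mo := mog) (C1 := cd4q1) (C2 := cd2q2a) (C3 := pd1)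
    rfl k0_pp_112_a

noncomputable def f_pp_112_b : ℕ → ℕ → ℕ → ℕ → Bool := onCell 536870912 536870912 536870912 536870912 536870912 50465866
    (rowB 3 eng mog cd4q1 cd2q2b pd1 1 false true true .dn 1 1 2 (qsf 536870912 536870912 1239849684 370763052 1) ndB4q1 ndB2q2b pcB1 Cut.none Ext.none)

def k0_pp_112_b : ∃ t, chk3 f_pp_112_b t 1 1 1 = true :=
  ⟨(a (b (a (b (a (a (l 349536357943) (l 16680288)) (b (l 16666320) (l 16724064))) (a (b (l 16751240) (l 16817032)) (l 16864288))) (b (b (l 16682592) (l 16799872)) (l 17095968))) (a (a (b (l 16953520) (l 17225984)) (b (l 17166008) (l 17542328))) (b (l 17727872) (l 17599888)))) (b (b (b (l 16833112) (l 17208576)) (a (l 17686336) (l 17503704))) (b (l 17500624) (l 2)))), by decide +kernel⟩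

theorem c_pp_112_b : CertB 536870912 536870912 1239849684 370763052 536870912 50465866 3 eng mog cd4q1 cd2q2b pd1 false true true .dn 1 1 2
    ndB4q1 ndB2q2b pcB1 Cut.none Ext.none :=
  certB1 (fam := false) (s1 := true) (s2 := true) (a := 1) (b := 1) (c := 2) (cn := .dn) (n1 := ndB4q1) (n2 := ndB2q2b) (pc := pcB1) (cut := Cut.none) (xt := Ext.none) (P1 := 536870912) (W1 := 536870912) (P2 := 1239849684) (W2 := 370763052) (P3 := 536870912) (W3 := 50465866) (N0 := 3) (En := eng) (mo := mog) (C1 := cd4q1) (C2 := cd2q2b) (C3 := pd1)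
    rfl (fun _ => rfl) k0_pp_112_b

noncomputable def f_pp_113 : ℕ → ℕ → ℕ → ℕ → Bool := onCell 536870912 536870912 536870912 536870912 536870912 50465866
    (rowB 3 eng mog cd4q1 cd2q3 pd1 1 false true true .nn 1 1 3 (qsf 536870912 536870912 1610612736 536870912 1) ndB4q1 ndB2q3 pcB1 Cut.none Ext.none)

def k0_pp_113 : ∃ t, chk3 f_pp_113 t 1 1 1 = true :=
  ⟨(a (b (a (l 1) (b (l 1) (l 17097336))) (a (a (l 459595871655) (l 17407768)) (l 518653406375))) (b (b (b (l 16832584) (l 17188008)) (l 410204994967)) (b (l 17479352) (l 17306416)))), by decide +kernel⟩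

theorem c_pp_113 : CertB 536870912 536870912 1610612736 536870912 536870912 50465866 3 eng mog cd4q1 cd2q3 pd1 false true true .nn 1 1 3
    ndB4q1 ndB2q3 pcB1 Cut.none Ext.none :=
  certB1 (fam := false) (s1 := true) (s2 := true) (a := 1) (b := 1) (c := 3) (cn := .nn) (n1 := ndB4q1) (n2 := ndB2q3) (pc := pcB1) (cut := Cut.none) (xt := Ext.none) (P1 := 536870912) (W1 := 536870912) (P2 := 1610612736) (W2 := 536870912) (P3 := 536870912) (W3 := 50465866) (N0 := 3) (En := eng) (mo := mog) (C1 := cd4q1) (C2 := cd2q3) (C3 := pd1)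
    rfl (fun _ => rfl) k0_pp_113

noncomputable def f_pp_123 : ℕ → ℕ → ℕ → ℕ → Bool := onCell 536870912 536870912 1610612736 536870912 536870912 50465866
    (rowB 3 eng mog cd4q1 cd2q3 pd2 0 false true true .npn 1 2 3 (qsf 536870912 536870912 1610612736 536870912 2) ndB4q1 ndB2q3 pcB2 Cut.none Ext.none)

def k0_pp_123 : ∃ t, chk3 f_pp_123 t 1 1 1 = true :=
  ⟨(a (b (a (b (a (l 17343552) (l 17568416)) (a (l 17086624) (l 17250664))) (b (l 17883024) (l 17489328))) (b (a (a (l 16902632) (l 16991616)) (b (l 17224576) (l 17066976))) (l 4))) (b (a (b (l 1) (l 17643392)) (l 1)) (b (a (l 17274792) (l 17337464)) (a (b (l 17002512) (l 4)) (b (l 17058096) (l 16867840)))))), by decide +kernel⟩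

theorem c_pp_123 : CertB 536870912 536870912 1610612736 536870912 536870912 50465866 3 eng mog cd4q1 cd2q3 pd2 false true true .npn 1 2 3
    ndB4q1 ndB2q3 pcB2 Cut.none Ext.none :=
  certB0 (fam := false) (s1 := true) (s2 := true) (a := 1) (b := 2) (c := 3) (cn := .npn) (n1 := ndB4q1) (n2 := ndB2q3) (pc := pcB2) (cut := Cut.none) (xt := Ext.none) (P1 := 536870912) (W1 := 536870912) (P2 := 1610612736) (W2 := 536870912) (P3 := 536870912) (W3 := 50465866) (N0 := 3) (En := eng) (mo := mog) (C1 := cd4q1) (C2 := cd2q3) (C3 := pd2)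
    rfl k0_pp_123

noncomputable def f_pp_133 : ℕ → ℕ → ℕ → ℕ → Bool := onCell 1610612736 536870912 1610612736 536870912 536870912 50465866
    (rowB 3 eng mog cd4q1 cd2q3 pd3 2 false true true .dn 1 3 3 (qsf 536870912 536870912 1610612736 536870912 3) ndB4q1 ndB2q3 pcB3 Cut.none Ext.none)

def k0_pp_133 : ∃ t, chk3 f_pp_133 t 1 1 1 = true :=
  ⟨(a (b (l 1) (l 4)) (l 1)), by decide +kernel⟩

theorem c_pp_133 : CertB 536870912 536870912 1610612736 536870912 536870912 50465866 3 eng mog cd4q1 cd2q3 pd3 false true true .dn 1 3 3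
    ndB4q1 ndB2q3 pcB3 Cut.none Ext.none :=
  certB2 (fam := false) (s1 := true) (s2 := true) (a := 1) (b := 3) (c := 3) (cn := .dn) (n1 := ndB4q1) (n2 := ndB2q3) (pc := pcB3) (cut := Cut.none) (xt := Ext.none) (P1 := 536870912) (W1 := 536870912) (P2 := 1610612736) (W2 := 536870912) (P3 := 536870912) (W3 := 50465866) (N0 := 3) (En := eng) (mo := mog) (C1 := cd4q1) (C2 := cd2q3) (C3 := pd3)
    rfl (fun _ => rfl) k0_pp_133

noncomputable def f_pp_202_a : ℕ → ℕ → ℕ → ℕ → Bool := onCell 1073741824 536870912 0 536870912 536870912 50465866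
    (rowB 3 eng mog cd4q2 cd2q2a pd0 0 false true true .pp 2 0 2 (qsf 1073741824 536870912 0 536870912 0) ndB4q2 ndB2q2a pcB0 Cut.none Ext.none)

def k0_pp_202_a : ∃ t, chk3 f_pp_202_a t 1 1 1 = true :=
  ⟨(l 3), by decide +kernel⟩

theorem c_pp_202_a : CertB 1073741824 536870912 0 536870912 536870912 50465866 3 eng mog cd4q2 cd2q2a pd0 false true true .pp 2 0 2
    ndB4q2 ndB2q2a pcB0 Cut.none Ext.none :=
  certB0 (fam := false) (s1 := true) (s2 := true) (a := 2) (b := 0) (c := 2) (cn := .pp) (n1 := ndB4q2) (n2 := ndB2q2a) (pc := pcB0) (cut := Cut.none) (xt := Ext.none) (P1 := 1073741824) (W1 := 536870912) (P2 := 0) (W2 := 536870912) (P3 := 536870912) (W3 := 50465866) (N0 := 3) (En := eng) (mo := mog) (C1 := cd4q2) (C2 := cd2q2a) (C3 := pd0)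
    rfl k0_pp_202_a

noncomputable def f_pp_202_b : ℕ → ℕ → ℕ → ℕ → Bool := onCell 1073741824 536870912 1239849684 370763052 536870912 50465866
    (rowB 3 eng mog cd4q2 cd2q2b pd0 0 false true true .pp 2 0 2 (qsf 1073741824 536870912 1239849684 370763052 0) ndB4q2 ndB2q2b pcB0 Cut.none Ext.none)

def k0_pp_202_b : ∃ t, chk3 f_pp_202_b t 1 1 1 = true :=
  ⟨(l 3), by decide +kernel⟩

theorem c_pp_202_b : CertB 1073741824 536870912 1239849684 370763052 536870912 50465866 3 eng mog cd4q2 cd2q2b pd0 false true true .pp 2 0 2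
    ndB4q2 ndB2q2b pcB0 Cut.none Ext.none :=
  certB0 (fam := false) (s1 := true) (s2 := true) (a := 2) (b := 0) (c := 2) (cn := .pp) (n1 := ndB4q2) (n2 := ndB2q2b) (pc := pcB0) (cut := Cut.none) (xt := Ext.none) (P1 := 1073741824) (W1 := 536870912) (P2 := 1239849684) (W2 := 370763052) (P3 := 536870912) (W3 := 50465866) (N0 := 3) (En := eng) (mo := mog) (C1 := cd4q2) (C2 := cd2q2b) (C3 := pd0)
    rfl k0_pp_202_b

noncomputable def f_pp_203 : ℕ → ℕ → ℕ → ℕ → Bool := onCell 1073741824 536870912 0 536870912 536870912 50465866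
    (rowB 3 eng mog cd4q2 cd2q3 pd0 1 false true true .up 2 0 3 (qsf 1073741824 536870912 1610612736 536870912 0) ndB4q2 ndB2q3 pcB0 Cut.none Ext.none)

def k0_pp_203 : ∃ t, chk3 f_pp_203 t 1 1 1 = true :=
  ⟨(l 3), by decide +kernel⟩

theorem c_pp_203 : CertB 1073741824 536870912 1610612736 536870912 536870912 50465866 3 eng mog cd4q2 cd2q3 pd0 false true true .up 2 0 3
    ndB4q2 ndB2q3 pcB0 Cut.none Ext.none :=
  certB1 (fam := false) (s1 := true) (s2 := true) (a := 2) (b := 0) (c := 3) (cn := .up) (n1 := ndB4q2) (n2 := ndB2q3) (pc := pcB0) (cut := Cut.none) (xt := Ext.none) (P1 := 1073741824) (W1 := 536870912) (P2 := 1610612736) (W2 := 536870912) (P3 := 536870912) (W3 := 50465866) (N0 := 3) (En := eng) (mo := mog) (C1 := cd4q2) (C2 := cd2q3) (C3 := pd0)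
    rfl (fun _ => rfl) k0_pp_203

noncomputable def f_pp_213 : ℕ → ℕ → ℕ → ℕ → Bool := onCell 536870912 536870912 1610612736 536870912 536870912 50465866
    (rowB 3 eng mog cd4q2 cd2q3 pd1 2 false true true .pnn 2 1 3 (qsf 1073741824 536870912 1610612736 536870912 1) ndB4q2 ndB2q3 pcB1 Cut.none Ext.none)

def k0_pp_213 : ∃ t, chk3 f_pp_213 t 1 1 1 = true :=
  ⟨(a (l 3) (a (b (a (l 3) (l 1)) (a (b (b (l 1181821398279) (l 17005592)) (a (l 1324091918039) (b (l 16792504) (l 16755608)))) (b (a (l 290481509271) (l 17147448)) (a (l 16889784) (l 16802120))))) (b (l 1) (a (a (a (l 318398613415) (l 313030075767)) (l 330746848887)) (l 351684847735))))), by decide +kernel⟩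

theorem c_pp_213 : CertB 1073741824 536870912 1610612736 536870912 536870912 50465866 3 eng mog cd4q2 cd2q3 pd1 false true true .pnn 2 1 3
    ndB4q2 ndB2q3 pcB1 Cut.none Ext.none :=
  certB2 (fam := false) (s1 := true) (s2 := true) (a := 2) (b := 1) (c := 3) (cn := .pnn) (n1 := ndB4q2) (n2 := ndB2q3) (pc := pcB1) (cut := Cut.none) (xt := Ext.none) (P1 := 1073741824) (W1 := 536870912) (P2 := 1610612736) (W2 := 536870912) (P3 := 536870912) (W3 := 50465866) (N0 := 3) (En := eng) (mo := mog) (C1 := cd4q2) (C2 := cd2q3) (C3 := pd1)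
    rfl (fun _ => rfl) k0_pp_213

noncomputable def f_pp_303 : ℕ → ℕ → ℕ → ℕ → Bool := onCell 0 1230186008 1610612736 536870912 536870912 50465866
    (rowB 3 eng mog cd4q3 cd2q3 pd0 0 false true true .npn 3 0 3 (qsf 0 1230186008 1610612736 536870912 0) ndB4q3 ndB2q3 pcB0 Cut.none Ext.none)

def k0_pp_303 : ∃ t, chk3 f_pp_303 t 1 1 1 = true :=
  ⟨(a (l 3) (l 3)), by decide +kernel⟩

theorem c_pp_303 : CertB 0 1230186008 1610612736 536870912 536870912 50465866 3 eng mog cd4q3 cd2q3 pd0 false true true .npn 3 0 3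
    ndB4q3 ndB2q3 pcB0 Cut.none Ext.none :=
  certB0 (fam := false) (s1 := true) (s2 := true) (a := 3) (b := 0) (c := 3) (cn := .npn) (n1 := ndB4q3) (n2 := ndB2q3) (pc := pcB0) (cut := Cut.none) (xt := Ext.none) (P1 := 0) (W1 := 1230186008) (P2 := 1610612736) (W2 := 536870912) (P3 := 536870912) (W3 := 50465866) (N0 := 3) (En := eng) (mo := mog) (C1 := cd4q3) (C2 := cd2q3) (C3 := pd0)
    rfl k0_pp_303

noncomputable def f_pp_313 : ℕ → ℕ → ℕ → ℕ → Bool := onCell 0 1230186008 1610612736 536870912 536870912 50465866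
    (rowB 3 eng mog cd4q3 cd2q3 pd1 0 false true true .dn 3 1 3 (qsf 0 1230186008 1610612736 536870912 1) ndB4q3 ndB2q3 pcB1 Cut.none Ext.none)

def k0_pp_313 : ∃ t, chk3 f_pp_313 t 1 1 1 = true :=
  ⟨(a (l 1) (l 3)), by decide +kernel⟩

theorem c_pp_313 : CertB 0 1230186008 1610612736 536870912 536870912 50465866 3 eng mog cd4q3 cd2q3 pd1 false true true .dn 3 1 3
    ndB4q3 ndB2q3 pcB1 Cut.none Ext.none :=
  certB0 (fam := false) (s1 := true) (s2 := true) (a := 3) (b := 1) (c := 3) (cn := .dn) (n1 := ndB4q3) (n2 := ndB2q3) (pc := pcB1) (cut := Cut.none) (xt := Ext.none) (P1 := 0) (W1 := 1230186008) (P2 := 1610612736) (W2 := 536870912) (P3 := 536870912) (W3 := 50465866) (N0 := 3) (En := eng) (mo := mog) (C1 := cd4q3) (C2 := cd2q3) (C3 := pd1)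
    rfl k0_pp_313

noncomputable def f_pm_001 : ℕ → ℕ → ℕ → ℕ → Bool := onCell 0 536870912 536870912 536870912 536870912 50465866
    (rowB 3 eng mog cd4q0 cd2q1 pd0 0 false true false .up 0 0 1 (qsf 0 536870912 536870912 536870912 0) ndB4q0 ndB2q1 pcB0 Cut.none Ext.none)

def k0_pm_001 : ∃ t, chk3 f_pm_001 t 1 1 1 = true :=
  ⟨(l 4), by decide +kernel⟩

theorem c_pm_001 : CertB 0 536870912 536870912 536870912 536870912 50465866 3 eng mog cd4q0 cd2q1 pd0 false true false .up 0 0 1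
    ndB4q0 ndB2q1 pcB0 Cut.none Ext.none :=
  certB0 (fam := false) (s1 := true) (s2 := false) (a := 0) (b := 0) (c := 1) (cn := .up) (n1 := ndB4q0) (n2 := ndB2q1) (pc := pcB0) (cut := Cut.none) (xt := Ext.none) (P1 := 0) (W1 := 536870912) (P2 := 536870912) (W2 := 536870912) (P3 := 536870912) (W3 := 50465866) (N0 := 3) (En := eng) (mo := mog) (C1 := cd4q0) (C2 := cd2q1) (C3 := pd0)
    rfl k0_pm_001

noncomputable def f_pm_011 : ℕ → ℕ → ℕ → ℕ → Bool := onCell 0 536870912 536870912 536870912 536870912 50465866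
    (rowB 3 eng mog cd4q0 cd2q1 pd1 0 false true false .pnn 0 1 1 (qsf 0 536870912 536870912 536870912 1) ndB4q0 ndB2q1 pcB1 Cut.none Ext.none)

def k0_pm_011 : ∃ t, chk3 f_pm_011 t 1 1 1 = true :=
  ⟨(l 4), by decide +kernel⟩

theorem c_pm_011 : CertB 0 536870912 536870912 536870912 536870912 50465866 3 eng mog cd4q0 cd2q1 pd1 false true false .pnn 0 1 1
    ndB4q0 ndB2q1 pcB1 Cut.none Ext.none :=
  certB0 (fam := false) (s1 := true) (s2 := false) (a := 0) (b := 1) (c := 1) (cn := .pnn) (n1 := ndB4q0) (n2 := ndB2q1) (pc := pcB1) (cut := Cut.none) (xt := Ext.none) (P1 := 0) (W1 := 536870912) (P2 := 536870912) (W2 := 536870912) (P3 := 536870912) (W3 := 50465866) (N0 := 3) (En := eng) (mo := mog) (C1 := cd4q0) (C2 := cd2q1) (C3 := pd1)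
    rfl k0_pm_011

noncomputable def f_pm_012_a : ℕ → ℕ → ℕ → ℕ → Bool := onCell 536870912 536870912 0 536870912 536870912 50465866
    (rowB 3 eng mog cd4q0 cd2q2a pd1 2 false true false .pnp 0 1 2 (qsf 0 536870912 0 536870912 1) ndB4q0 ndB2q2a pcB1 Cut.none Ext.none)

def k0_pm_012_a : ∃ t, chk3 f_pm_012_a t 1 1 1 = true :=
  ⟨(b (a (l 4) (l 4)) (l 4)), by decide +kernel⟩

theorem c_pm_012_a : CertB 0 536870912 0 536870912 536870912 50465866 3 eng mog cd4q0 cd2q2a pd1 false true false .pnp 0 1 2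
    ndB4q0 ndB2q2a pcB1 Cut.none Ext.none :=
  certB2 (fam := false) (s1 := true) (s2 := false) (a := 0) (b := 1) (c := 2) (cn := .pnp) (n1 := ndB4q0) (n2 := ndB2q2a) (pc := pcB1) (cut := Cut.none) (xt := Ext.none) (P1 := 0) (W1 := 536870912) (P2 := 0) (W2 := 536870912) (P3 := 536870912) (W3 := 50465866) (N0 := 3) (En := eng) (mo := mog) (C1 := cd4q0) (C2 := cd2q2a) (C3 := pd1)
    rfl (fun _ => rfl) k0_pm_012_a

noncomputable def f_pm_012_b : ℕ → ℕ → ℕ → ℕ → Bool := onCell 0 536870912 1239849684 370763052 536870912 50465866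
    (rowB 3 eng mog cd4q0 cd2q2b pd1 0 false true false .pnp 0 1 2 (qsf 0 536870912 1239849684 370763052 1) ndB4q0 ndB2q2b pcB1 Cut.none Ext.none)

def k0_pm_012_b : ∃ t, chk3 f_pm_012_b t 1 1 1 = true :=
  ⟨(a (a (l 2) (l 4)) (l 4)), by decide +kernel⟩

theorem c_pm_012_b : CertB 0 536870912 1239849684 370763052 536870912 50465866 3 eng mog cd4q0 cd2q2b pd1 false true false .pnp 0 1 2
    ndB4q0 ndB2q2b pcB1 Cut.none Ext.none :=
  certB0 (fam := false) (s1 := true) (s2 := false) (a := 0) (b := 1) (c := 2) (cn := .pnp) (n1 := ndB4q0) (n2 := ndB2q2b) (pc := pcB1) (cut := Cut.none) (xt := Ext.none) (P1 := 0) (W1 := 536870912) (P2 := 1239849684) (W2 := 370763052) (P3 := 536870912) (W3 := 50465866) (N0 := 3) (En := eng) (mo := mog) (C1 := cd4q0) (C2 := cd2q2b) (C3 := pd1)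
    rfl k0_pm_012_b

noncomputable def f_pm_022_a : ℕ → ℕ → ℕ → ℕ → Bool := onCell 0 536870912 0 536870912 536870912 50465866
    (rowB 3 eng mog cd4q0 cd2q2a pd2 0 false true false .pp 0 2 2 (qsf 0 536870912 0 536870912 2) ndB4q0 ndB2q2a pcB2 Cut.none Ext.none)

def k0_pm_022_a : ∃ t, chk3 f_pm_022_a t 1 1 1 = true :=
  ⟨(a (b (a (a (b (l 16586968) (l 4)) (l 4)) (l 4)) (l 4)) (l 1)), by decide +kernel⟩

theorem c_pm_022_a : CertB 0 536870912 0 536870912 536870912 50465866 3 eng mog cd4q0 cd2q2a pd2 false true false .pp 0 2 2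
    ndB4q0 ndB2q2a pcB2 Cut.none Ext.none :=
  certB0 (fam := false) (s1 := true) (s2 := false) (a := 0) (b := 2) (c := 2) (cn := .pp) (n1 := ndB4q0) (n2 := ndB2q2a) (pc := pcB2) (cut := Cut.none) (xt := Ext.none) (P1 := 0) (W1 := 536870912) (P2 := 0) (W2 := 536870912) (P3 := 536870912) (W3 := 50465866) (N0 := 3) (En := eng) (mo := mog) (C1 := cd4q0) (C2 := cd2q2a) (C3 := pd2)
    rfl k0_pm_022_a

noncomputable def f_pm_022_b : ℕ → ℕ → ℕ → ℕ → Bool := onCell 0 536870912 1239849684 370763052 536870912 50465866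
    (rowB 3 eng mog cd4q0 cd2q2b pd2 0 false true false .pp 0 2 2 (qsf 0 536870912 1239849684 370763052 2) ndB4q0 ndB2q2b pcB2 Cut.none Ext.none)

def k0_pm_022_b : ∃ t, chk3 f_pm_022_b t 1 1 1 = true :=
  ⟨(a (b (a (b (a (l 4) (l 4)) (l 4)) (l 4)) (l 4)) (l 4)), by decide +kernel⟩

theorem c_pm_022_b : CertB 0 536870912 1239849684 370763052 536870912 50465866 3 eng mog cd4q0 cd2q2b pd2 false true false .pp 0 2 2
    ndB4q0 ndB2q2b pcB2 Cut.none Ext.none :=
  certB0 (fam := false) (s1 := true) (s2 := false) (a := 0) (b := 2) (c := 2) (cn := .pp) (n1 := ndB4q0) (n2 := ndB2q2b) (pc := pcB2) (cut := Cut.none) (xt := Ext.none) (P1 := 0) (W1 := 536870912) (P2 := 1239849684) (W2 := 370763052) (P3 := 536870912) (W3 := 50465866) (N0 := 3) (En := eng) (mo := mog) (C1 := cd4q0) (C2 := cd2q2b) (C3 := pd2)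
    rfl k0_pm_022_b

noncomputable def f_pm_023 : ℕ → ℕ → ℕ → ℕ → Bool := onCell 0 536870912 1610612736 536870912 536870912 50465866
    (rowB 3 eng mog cd4q0 cd2q3 pd2 0 false true false .up 0 2 3 (qsf 0 536870912 1610612736 536870912 2) ndB4q0 ndB2q3 pcB2 Cut.none Ext.none)

def k0_pm_023 : ∃ t, chk3 f_pm_023 t 1 1 1 = true :=
  ⟨(l 4), by decide +kernel⟩

theorem c_pm_023 : CertB 0 536870912 1610612736 536870912 536870912 50465866 3 eng mog cd4q0 cd2q3 pd2 false true false .up 0 2 3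
    ndB4q0 ndB2q3 pcB2 Cut.none Ext.none :=
  certB0 (fam := false) (s1 := true) (s2 := false) (a := 0) (b := 2) (c := 3) (cn := .up) (n1 := ndB4q0) (n2 := ndB2q3) (pc := pcB2) (cut := Cut.none) (xt := Ext.none) (P1 := 0) (W1 := 536870912) (P2 := 1610612736) (W2 := 536870912) (P3 := 536870912) (W3 := 50465866) (N0 := 3) (En := eng) (mo := mog) (C1 := cd4q0) (C2 := cd2q3) (C3 := pd2)
    rfl k0_pm_023

noncomputable def f_pm_033 : ℕ → ℕ → ℕ → ℕ → Bool := onCell 0 536870912 1610612736 536870912 536870912 50465866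
    (rowB 3 eng mog cd4q0 cd2q3 pd3 0 false true false .pnn 0 3 3 (qsf 0 536870912 1610612736 536870912 3) ndB4q0 ndB2q3 pcB3 Cut.none Ext.none)

def k0_pm_033 : ∃ t, chk3 f_pm_033 t 1 1 1 = true :=
  ⟨(l 4), by decide +kernel⟩

theorem c_pm_033 : CertB 0 536870912 1610612736 536870912 536870912 50465866 3 eng mog cd4q0 cd2q3 pd3 false true false .pnn 0 3 3
    ndB4q0 ndB2q3 pcB3 Cut.none Ext.none :=
  certB0 (fam := false) (s1 := true) (s2 := false) (a := 0) (b := 3) (c := 3) (cn := .pnn) (n1 := ndB4q0) (n2 := ndB2q3) (pc := pcB3) (cut := Cut.none) (xt := Ext.none) (P1 := 0) (W1 := 536870912) (P2 := 1610612736) (W2 := 536870912) (P3 := 536870912) (W3 := 50465866) (N0 := 3) (En := eng) (mo := mog) (C1 := cd4q0) (C2 := cd2q3) (C3 := pd3)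
    rfl k0_pm_033

noncomputable def f_pm_101 : ℕ → ℕ → ℕ → ℕ → Bool := onCell 536870912 536870912 536870912 536870912 536870912 50465866
    (rowB 3 eng mog cd4q1 cd2q1 pd0 0 false true false .npn 1 0 1 (qsf 536870912 536870912 536870912 536870912 0) ndB4q1 ndB2q1 pcB0 Cut.none Ext.none)

def k0_pm_101 : ∃ t, chk3 f_pm_101 t 1 1 1 = true :=
  ⟨(l 4), by decide +kernel⟩

theorem c_pm_101 : CertB 536870912 536870912 536870912 536870912 536870912 50465866 3 eng mog cd4q1 cd2q1 pd0 false true false .npn 1 0 1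
    ndB4q1 ndB2q1 pcB0 Cut.none Ext.none :=
  certB0 (fam := false) (s1 := true) (s2 := false) (a := 1) (b := 0) (c := 1) (cn := .npn) (n1 := ndB4q1) (n2 := ndB2q1) (pc := pcB0) (cut := Cut.none) (xt := Ext.none) (P1 := 536870912) (W1 := 536870912) (P2 := 536870912) (W2 := 536870912) (P3 := 536870912) (W3 := 50465866) (N0 := 3) (En := eng) (mo := mog) (C1 := cd4q1) (C2 := cd2q1) (C3 := pd0)
    rfl k0_pm_101

noncomputable def f_pm_102_a : ℕ → ℕ → ℕ → ℕ → Bool := onCell 536870912 536870912 0 536870912 536870912 50465866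
    (rowB 3 eng mog cd4q1 cd2q2a pd0 0 false true false .npp 1 0 2 (qsf 536870912 536870912 0 536870912 0) ndB4q1 ndB2q2a pcB0 Cut.none Ext.none)

def k0_pm_102_a : ∃ t, chk3 f_pm_102_a t 1 1 1 = true :=
  ⟨(b (b (a (l 4) (a (a (l 4) (l 16714512)) (a (l 16707632) (l 16694928)))) (l 4)) (l 4)), by decide +kernel⟩

theorem c_pm_102_a : CertB 536870912 536870912 0 536870912 536870912 50465866 3 eng mog cd4q1 cd2q2a pd0 false true false .npp 1 0 2
    ndB4q1 ndB2q2a pcB0 Cut.none Ext.none :=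
  certB0 (fam := false) (s1 := true) (s2 := false) (a := 1) (b := 0) (c := 2) (cn := .npp) (n1 := ndB4q1) (n2 := ndB2q2a) (pc := pcB0) (cut := Cut.none) (xt := Ext.none) (P1 := 536870912) (W1 := 536870912) (P2 := 0) (W2 := 536870912) (P3 := 536870912) (W3 := 50465866) (N0 := 3) (En := eng) (mo := mog) (C1 := cd4q1) (C2 := cd2q2a) (C3 := pd0)
    rfl k0_pm_102_a

noncomputable def f_pm_102_b : ℕ → ℕ → ℕ → ℕ → Bool := onCell 536870912 536870912 0 536870912 536870912 50465866
    (rowB 3 eng mog cd4q1 cd2q2b pd0 1 false true false .npp 1 0 2 (qsf 536870912 536870912 1239849684 370763052 0) ndB4q1 ndB2q2b pcB0 Cut.none Ext.none)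

def k0_pm_102_b : ∃ t, chk3 f_pm_102_b t 1 1 1 = true :=
  ⟨(a (b (l 1) (a (l 1) (b (l 1) (l 4)))) (b (b (l 1) (a (l 1) (b (l 547104788727) (l 343094014935)))) (b (a (b (l 541736605351) (l 16718352)) (b (l 16747432) (l 16828224))) (b (l 707294536679) (l 657902684919))))), by decide +kernel⟩

theorem c_pm_102_b : CertB 536870912 536870912 1239849684 370763052 536870912 50465866 3 eng mog cd4q1 cd2q2b pd0 false true false .npp 1 0 2
    ndB4q1 ndB2q2b pcB0 Cut.none Ext.none :=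
  certB1 (fam := false) (s1 := true) (s2 := false) (a := 1) (b := 0) (c := 2) (cn := .npp) (n1 := ndB4q1) (n2 := ndB2q2b) (pc := pcB0) (cut := Cut.none) (xt := Ext.none) (P1 := 536870912) (W1 := 536870912) (P2 := 1239849684) (W2 := 370763052) (P3 := 536870912) (W3 := 50465866) (N0 := 3) (En := eng) (mo := mog) (C1 := cd4q1) (C2 := cd2q2b) (C3 := pd0)
    rfl (fun _ => rfl) k0_pm_102_b

noncomputable def f_pm_112_a : ℕ → ℕ → ℕ → ℕ → Bool := onCell 536870912 536870912 0 536870912 536870912 50465866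
    (rowB 3 eng mog cd4q1 cd2q2a pd1 0 false true false .dn 1 1 2 (qsf 536870912 536870912 0 536870912 1) ndB4q1 ndB2q2a pcB1 Cut.none Ext.none)

def k0_pm_112_a : ∃ t, chk3 f_pm_112_a t 1 1 1 = true :=
  ⟨(a (b (l 4) (l 4)) (l 1)), by decide +kernel⟩

theorem c_pm_112_a : CertB 536870912 536870912 0 536870912 536870912 50465866 3 eng mog cd4q1 cd2q2a pd1 false true false .dn 1 1 2
    ndB4q1 ndB2q2a pcB1 Cut.none Ext.none :=
  certB0 (fam := false) (s1 := true) (s2 := false) (a := 1) (b := 1) (c := 2) (cn := .dn) (n1 := ndB4q1) (n2 := ndB2q2a) (pc := pcB1) (cut := Cut.none) (xt := Ext.none) (P1 := 536870912) (W1 := 536870912) (P2 := 0) (W2 := 536870912) (P3 := 536870912) (W3 := 50465866) (N0 := 3) (En := eng) (mo := mog) (C1 := cd4q1) (C2 := cd2q2a) (C3 := pd1)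
    rfl k0_pm_112_a

noncomputable def f_pm_112_b : ℕ → ℕ → ℕ → ℕ → Bool := onCell 536870912 536870912 1239849684 370763052 536870912 50465866
    (rowB 3 eng mog cd4q1 cd2q2b pd1 2 false true false .dn 1 1 2 (qsf 536870912 536870912 1239849684 370763052 1) ndB4q1 ndB2q2b pcB1 Cut.none Ext.none)

def k0_pm_112_b : ∃ t, chk3 f_pm_112_b t 1 1 1 = true :=
  ⟨(a (a (b (l 4) (l 17241480)) (l 4)) (b (l 4) (l 4))), by decide +kernel⟩

theorem c_pm_112_b : CertB 536870912 536870912 1239849684 370763052 536870912 50465866 3 eng mog cd4q1 cd2q2b pd1 false true false .dn 1 1 2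
    ndB4q1 ndB2q2b pcB1 Cut.none Ext.none :=
  certB2 (fam := false) (s1 := true) (s2 := false) (a := 1) (b := 1) (c := 2) (cn := .dn) (n1 := ndB4q1) (n2 := ndB2q2b) (pc := pcB1) (cut := Cut.none) (xt := Ext.none) (P1 := 536870912) (W1 := 536870912) (P2 := 1239849684) (W2 := 370763052) (P3 := 536870912) (W3 := 50465866) (N0 := 3) (En := eng) (mo := mog) (C1 := cd4q1) (C2 := cd2q2b) (C3 := pd1)
    rfl (fun _ => rfl) k0_pm_112_b

noncomputable def f_pm_113 : ℕ → ℕ → ℕ → ℕ → Bool := onCell 536870912 536870912 536870912 536870912 536870912 50465866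
    (rowB 3 eng mog cd4q1 cd2q3 pd1 1 false true false .nn 1 1 3 (qsf 536870912 536870912 1610612736 536870912 1) ndB4q1 ndB2q3 pcB1 Cut.none Ext.none)

def k0_pm_113 : ∃ t, chk3 f_pm_113 t 1 1 1 = true :=
  ⟨(b (a (l 4) (b (l 17339232) (l 17853592))) (a (l 4) (b (l 17674896) (l 17308872)))), by decide +kernel⟩

theorem c_pm_113 : CertB 536870912 536870912 1610612736 536870912 536870912 50465866 3 eng mog cd4q1 cd2q3 pd1 false true false .nn 1 1 3
    ndB4q1 ndB2q3 pcB1 Cut.none Ext.none :=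
  certB1 (fam := false) (s1 := true) (s2 := false) (a := 1) (b := 1) (c := 3) (cn := .nn) (n1 := ndB4q1) (n2 := ndB2q3) (pc := pcB1) (cut := Cut.none) (xt := Ext.none) (P1 := 536870912) (W1 := 536870912) (P2 := 1610612736) (W2 := 536870912) (P3 := 536870912) (W3 := 50465866) (N0 := 3) (En := eng) (mo := mog) (C1 := cd4q1) (C2 := cd2q3) (C3 := pd1)
    rfl (fun _ => rfl) k0_pm_113

noncomputable def f_pm_123 : ℕ → ℕ → ℕ → ℕ → Bool := onCell 1073741824 536870912 1610612736 536870912 536870912 50465866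
    (rowB 3 eng mog cd4q1 cd2q3 pd2 2 false true false .npn 1 2 3 (qsf 536870912 536870912 1610612736 536870912 2) ndB4q1 ndB2q3 pcB2 Cut.none Ext.none)

def k0_pm_123 : ∃ t, chk3 f_pm_123 t 1 1 1 = true :=
  ⟨(a (b (l 4) (a (l 429732744999) (l 4))) (l 4)), by decide +kernel⟩

theorem c_pm_123 : CertB 536870912 536870912 1610612736 536870912 536870912 50465866 3 eng mog cd4q1 cd2q3 pd2 false true false .npn 1 2 3
    ndB4q1 ndB2q3 pcB2 Cut.none Ext.none :=
  certB2 (fam := false) (s1 := true) (s2 := false) (a := 1) (b := 2) (c := 3) (cn := .npn) (n1 := ndB4q1) (n2 := ndB2q3) (pc := pcB2) (cut := Cut.none) (xt := Ext.none) (P1 := 536870912) (W1 := 536870912) (P2 := 1610612736) (W2 := 536870912) (P3 := 536870912) (W3 := 50465866) (N0 := 3) (En := eng) (mo := mog) (C1 := cd4q1) (C2 := cd2q3) (C3 := pd2)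
    rfl (fun _ => rfl) k0_pm_123

noncomputable def f_pm_133 : ℕ → ℕ → ℕ → ℕ → Bool := onCell 536870912 536870912 1610612736 536870912 536870912 50465866
    (rowB 3 eng mog cd4q1 cd2q3 pd3 0 false true false .dn 1 3 3 (qsf 536870912 536870912 1610612736 536870912 3) ndB4q1 ndB2q3 pcB3 Cut.none Ext.none)

def k0_pm_133 : ∃ t, chk3 f_pm_133 t 1 1 1 = true :=
  ⟨(a (l 4) (l 1)), by decide +kernel⟩

theorem c_pm_133 : CertB 536870912 536870912 1610612736 536870912 536870912 50465866 3 eng mog cd4q1 cd2q3 pd3 false true false .dn 1 3 3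
    ndB4q1 ndB2q3 pcB3 Cut.none Ext.none :=
  certB0 (fam := false) (s1 := true) (s2 := false) (a := 1) (b := 3) (c := 3) (cn := .dn) (n1 := ndB4q1) (n2 := ndB2q3) (pc := pcB3) (cut := Cut.none) (xt := Ext.none) (P1 := 536870912) (W1 := 536870912) (P2 := 1610612736) (W2 := 536870912) (P3 := 536870912) (W3 := 50465866) (N0 := 3) (En := eng) (mo := mog) (C1 := cd4q1) (C2 := cd2q3) (C3 := pd3)
    rfl k0_pm_133

noncomputable def f_pm_202_a : ℕ → ℕ → ℕ → ℕ → Bool := onCell 0 536870912 0 536870912 536870912 50465866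
    (rowB 3 eng mog cd4q2 cd2q2a pd0 2 false true false .pp 2 0 2 (qsf 1073741824 536870912 0 536870912 0) ndB4q2 ndB2q2a pcB0 Cut.none Ext.none)

def k0_pm_202_a : ∃ t, chk3 f_pm_202_a t 1 1 1 = true :=
  ⟨(a (b (a (b (a (b (b (a (l 3) (l 3)) (a (a (b (l 3) (l 137069452039)) (l 140827553207)) (b (l 16529096) (l 16571336)))) (a (b (a (b (l 16550824) (l 16470464)) (a (l 16579664) (l 16596208))) (b (l 16566504) (l 16495632))) (b (a (b (l 16530344) (l 16490520)) (b (l 16499224) (l 16504688))) (a (l 16566080) (b (l 16510920) (l 16517672)))))) (b (b (a (l 152101875223) (a (l 16540424) (l 132774437927))) (a (b (l 16572224) (l 16551024)) (b (l 16548784) (l 16532648)))) (a (b (l 16551640) (a (l 16525592) (l 16535752))) (b (l 16540360) (l 16551352))))) (a (b (a (l 16522616) (b (a (l 16521288) (l 16547248)) (l 16546632))) (a (l 16568184) (l 16580184))) (b (a (b (a (l 16539984) (l 16549768)) (a (l 16554000) (l 16566344))) (b (l 16564864) (l 16581240))) (a (l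 16594160) (b (l 16661128) (l 16618920)))))) (a (a (b (b (b (a (l 35600942631) (b (l 16548768) (l 16552624))) (b (l 16550632) (l 16554936))) (b (l 16561232) (l 16675952))) (b (a (l 16586664) (l 16595192)) (a (l 16621016) (l 1)))) (b (b (l 1) (l 1)) (l 1))) (l 1))) (a (b (b (a (l 16680328) (a (l 16635360) (l 16649536))) (a (a (l 16651592) (l 16661848)) (a (l 16674888) (l 16690808)))) (a (b (a (b (l 16677680) (l 16693144)) (b (l 16688384) (a (l 16702176) (l 16710888)))) (a (b (a (l 16703928) (l 16711432)) (a (l 16717936) (l 307123721815))) (b (a (l 263100311399) (l 1)) (l 1)))) (b (a (b (l 16704576) (l 1)) (l 1)) (l 1)))) (b (l 1) (l 1)))) (l 1)), by decide +kernel⟩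

theorem c_pm_202_a : CertB 1073741824 536870912 0 536870912 536870912 50465866 3 eng mog cd4q2 cd2q2a pd0 false true false .pp 2 0 2
    ndB4q2 ndB2q2a pcB0 Cut.none Ext.none :=
  certB2 (fam := false) (s1 := true) (s2 := false) (a := 2) (b := 0) (c := 2) (cn := .pp) (n1 := ndB4q2) (n2 := ndB2q2a) (pc := pcB0) (cut := Cut.none) (xt := Ext.none) (P1 := 1073741824) (W1 := 536870912) (P2 := 0) (W2 := 536870912) (P3 := 536870912) (W3 := 50465866) (N0 := 3) (En := eng) (mo := mog) (C1 := cd4q2) (C2 := cd2q2a) (C3 := pd0)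
    rfl (fun _ => rfl) k0_pm_202_a

noncomputable def f_pm_202_b : ℕ → ℕ → ℕ → ℕ → Bool := onCell 1073741824 536870912 0 536870912 536870912 50465866
    (rowB 3 eng mog cd4q2 cd2q2b pd0 1 false true false .pp 2 0 2 (qsf 1073741824 536870912 1239849684 370763052 0) ndB4q2 ndB2q2b pcB0 Cut.none Ext.none)

def k0_pm_202_b : ∃ t, chk3 f_pm_202_b t 1 1 1 = true :=
  ⟨(a (b (a (a (a (b (a (l 1) (a (l 1) (l 3))) (b (b (a (l 16574920) (l 16522552)) (l 16521088)) (b (l 16489160) (l 16441536)))) (b (l 3) (b (b (l 3) (l 16440808)) (b (l 16454656) (l 16390928))))) (b (l 3) (l 3))) (l 3)) (b (a (b (a (b (a (l 16419304) (l 16372944)) (l 16378368)) (b (l 229947832935) (l 83918933879))) (a (b (l 16362968) (l 16353408)) (b (l 16283128) (l 16274384)))) (l 3)) (a (b (a (l 16398320) (l 16367080)) (a (l 16395688) (l 16395792))) (b (a (l 701320303063) (l 2)) (l 2))))) (l 3)), by decide +kernel⟩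

theorem c_pm_202_b : CertB 1073741824 536870912 1239849684 370763052 536870912 50465866 3 eng mog cd4q2 cd2q2b pd0 false true false .pp 2 0 2
    ndB4q2 ndB2q2b pcB0 Cut.none Ext.none :=
  certB1 (fam := false) (s1 := true) (s2 := false) (a := 2) (b := 0) (c := 2) (cn := .pp) (n1 := ndB4q2) (n2 := ndB2q2b) (pc := pcB0) (cut := Cut.none) (xt := Ext.none) (P1 := 1073741824) (W1 := 536870912) (P2 := 1239849684) (W2 := 370763052) (P3 := 536870912) (W3 := 50465866) (N0 := 3) (En := eng) (mo := mog) (C1 := cd4q2) (C2 := cd2q2b) (C3 := pd0)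
    rfl (fun _ => rfl) k0_pm_202_b

noncomputable def f_pm_203 : ℕ → ℕ → ℕ → ℕ → Bool := onCell 1073741824 536870912 0 536870912 536870912 50465866
    (rowB 3 eng mog cd4q2 cd2q3 pd0 1 false true false .up 2 0 3 (qsf 1073741824 536870912 1610612736 536870912 0) ndB4q2 ndB2q3 pcB0 Cut.none Ext.none)

def k0_pm_203 : ∃ t, chk3 f_pm_203 t 1 1 1 = true :=
  ⟨(a (a (b (l 1) (b (b (l 1) (a (l 1) (l 169147230743))) (b (a (l 16473896) (l 16401696)) (a (l 16433344) (l 16436232))))) (b (l 3) (a (b (l 3) (b (l 905331315863) (l 16639608))) (l 3)))) (l 3)), by decide +kernel⟩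

theorem c_pm_203 : CertB 1073741824 536870912 1610612736 536870912 536870912 50465866 3 eng mog cd4q2 cd2q3 pd0 false true false .up 2 0 3
    ndB4q2 ndB2q3 pcB0 Cut.none Ext.none :=
  certB1 (fam := false) (s1 := true) (s2 := false) (a := 2) (b := 0) (c := 3) (cn := .up) (n1 := ndB4q2) (n2 := ndB2q3) (pc := pcB0) (cut := Cut.none) (xt := Ext.none) (P1 := 1073741824) (W1 := 536870912) (P2 := 1610612736) (W2 := 536870912) (P3 := 536870912) (W3 := 50465866) (N0 := 3) (En := eng) (mo := mog) (C1 := cd4q2) (C2 := cd2q3) (C3 := pd0)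
    rfl (fun _ => rfl) k0_pm_203

noncomputable def f_pm_213 : ℕ → ℕ → ℕ → ℕ → Bool := onCell 1073741824 536870912 536870912 536870912 536870912 50465866
    (rowB 3 eng mog cd4q2 cd2q3 pd1 1 false true false .pnn 2 1 3 (qsf 1073741824 536870912 1610612736 536870912 1) ndB4q2 ndB2q3 pcB1 Cut.none Ext.none)

def k0_pm_213 : ∃ t, chk3 f_pm_213 t 1 1 1 = true :=
  ⟨(a (b (b (a (b (a (l 16630032) (l 16633520)) (a (l 16793992) (l 16751544))) (b (a (l 16648104) (l 3)) (a (l 16726184) (l 16728168)))) (a (b (a (l 16899880) (l 16824304)) (b (l 16892976) (l 16893440))) (b (a (l 16769960) (l 16751584)) (l 16769408)))) (b (b (a (l 16876616) (a (l 16769296) (l 16743936))) (a (l 16845384) (a (l 16713936) (l 16665736)))) (a (b (l 16791016) (l 16718408)) (a (b (l 16886936) (l 2)) (l 2))))) (b (b (l 3) (a (l 3) (a (b (l 3) (l 2)) (l 2)))) (a (b (a (b (l 3) (l 2)) (l 2)) (l 2)) (l 2)))), by decide +kernel⟩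

theorem c_pm_213 : CertB 1073741824 536870912 1610612736 536870912 536870912 50465866 3 eng mog cd4q2 cd2q3 pd1 false true false .pnn 2 1 3
    ndB4q2 ndB2q3 pcB1 Cut.none Ext.none :=
  certB1 (fam := false) (s1 := true) (s2 := false) (a := 2) (b := 1) (c := 3) (cn := .pnn) (n1 := ndB4q2) (n2 := ndB2q3) (pc := pcB1) (cut := Cut.none) (xt := Ext.none) (P1 := 1073741824) (W1 := 536870912) (P2 := 1610612736) (W2 := 536870912) (P3 := 536870912) (W3 := 50465866) (N0 := 3) (En := eng) (mo := mog) (C1 := cd4q2) (C2 := cd2q3) (C3 := pd1)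
    rfl (fun _ => rfl) k0_pm_213

noncomputable def f_pm_303 : ℕ → ℕ → ℕ → ℕ → Bool := onCell 0 1230186008 1610612736 536870912 536870912 50465866
    (rowB 3 eng mog cd4q3 cd2q3 pd0 0 false true false .npn 3 0 3 (qsf 0 1230186008 1610612736 536870912 0) ndB4q3 ndB2q3 pcB0 Cut.none Ext.none)

def k0_pm_303 : ∃ t, chk3 f_pm_303 t 1 1 1 = true :=
  ⟨(a (l 3) (l 3)), by decide +kernel⟩

theorem c_pm_303 : CertB 0 1230186008 1610612736 536870912 536870912 50465866 3 eng mog cd4q3 cd2q3 pd0 false true false .npn 3 0 3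
    ndB4q3 ndB2q3 pcB0 Cut.none Ext.none :=
  certB0 (fam := false) (s1 := true) (s2 := false) (a := 3) (b := 0) (c := 3) (cn := .npn) (n1 := ndB4q3) (n2 := ndB2q3) (pc := pcB0) (cut := Cut.none) (xt := Ext.none) (P1 := 0) (W1 := 1230186008) (P2 := 1610612736) (W2 := 536870912) (P3 := 536870912) (W3 := 50465866) (N0 := 3) (En := eng) (mo := mog) (C1 := cd4q3) (C2 := cd2q3) (C3 := pd0)
    rfl k0_pm_303

noncomputable def f_pm_313 : ℕ → ℕ → ℕ → ℕ → Bool := onCell 0 1230186008 1610612736 536870912 536870912 50465866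
    (rowB 3 eng mog cd4q3 cd2q3 pd1 0 false true false .dn 3 1 3 (qsf 0 1230186008 1610612736 536870912 1) ndB4q3 ndB2q3 pcB1 Cut.none Ext.none)

def k0_pm_313 : ∃ t, chk3 f_pm_313 t 1 1 1 = true :=
  ⟨(a (l 1) (l 3)), by decide +kernel⟩

theorem c_pm_313 : CertB 0 1230186008 1610612736 536870912 536870912 50465866 3 eng mog cd4q3 cd2q3 pd1 false true false .dn 3 1 3
    ndB4q3 ndB2q3 pcB1 Cut.none Ext.none :=
  certB0 (fam := false) (s1 := true) (s2 := false) (a := 3) (b := 1) (c := 3) (cn := .dn) (n1 := ndB4q3) (n2 := ndB2q3) (pc := pcB1) (cut := Cut.none) (xt := Ext.none) (P1 := 0) (W1 := 1230186008) (P2 := 1610612736) (W2 := 536870912) (P3 := 536870912) (W3 := 50465866) (N0 := 3) (En := eng) (mo := mog) (C1 := cd4q3) (C2 := cd2q3) (C3 := pd1)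
    rfl k0_pm_313

noncomputable def f_mm_001 : ℕ → ℕ → ℕ → ℕ → Bool := onCell 0 536870912 536870912 536870912 536870912 50465866
    (rowB 3 eng mog cd4q0 cd2q1 pd0 0 false false false .up 0 0 1 (qsf 0 536870912 536870912 536870912 0) ndB4q0 ndB2q1 pcB0 Cut.none Ext.none)

def k0_mm_001 : ∃ t, chk3 f_mm_001 t 1 1 1 = true :=
  ⟨(l 5), by decide +kernel⟩

theorem c_mm_001 : CertB 0 536870912 536870912 536870912 536870912 50465866 3 eng mog cd4q0 cd2q1 pd0 false false false .up 0 0 1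
    ndB4q0 ndB2q1 pcB0 Cut.none Ext.none :=
  certB0 (fam := false) (s1 := false) (s2 := false) (a := 0) (b := 0) (c := 1) (cn := .up) (n1 := ndB4q0) (n2 := ndB2q1) (pc := pcB0) (cut := Cut.none) (xt := Ext.none) (P1 := 0) (W1 := 536870912) (P2 := 536870912) (W2 := 536870912) (P3 := 536870912) (W3 := 50465866) (N0 := 3) (En := eng) (mo := mog) (C1 := cd4q0) (C2 := cd2q1) (C3 := pd0)
    rfl k0_mm_001

noncomputable def f_mm_011 : ℕ → ℕ → ℕ → ℕ → Bool := onCell 0 536870912 536870912 536870912 536870912 50465866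
    (rowB 3 eng mog cd4q0 cd2q1 pd1 0 false false false .pnn 0 1 1 (qsf 0 536870912 536870912 536870912 1) ndB4q0 ndB2q1 pcB1 Cut.none Ext.none)

def k0_mm_011 : ∃ t, chk3 f_mm_011 t 1 1 1 = true :=
  ⟨(l 5), by decide +kernel⟩

theorem c_mm_011 : CertB 0 536870912 536870912 536870912 536870912 50465866 3 eng mog cd4q0 cd2q1 pd1 false false false .pnn 0 1 1
    ndB4q0 ndB2q1 pcB1 Cut.none Ext.none :=
  certB0 (fam := false) (s1 := false) (s2 := false) (a := 0) (b := 1) (c := 1) (cn := .pnn) (n1 := ndB4q0) (n2 := ndB2q1) (pc := pcB1) (cut := Cut.none) (xt := Ext.none) (P1 := 0) (W1 := 536870912) (P2 := 536870912) (W2 := 536870912) (P3 := 536870912) (W3 := 50465866) (N0 := 3) (En := eng) (mo := mog) (C1 := cd4q0) (C2 := cd2q1) (C3 := pd1)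
    rfl k0_mm_011

noncomputable def f_mm_012_a : ℕ → ℕ → ℕ → ℕ → Bool := onCell 0 536870912 0 536870912 536870912 50465866
    (rowB 3 eng mog cd4q0 cd2q2a pd1 0 false false false .pnp 0 1 2 (qsf 0 536870912 0 536870912 1) ndB4q0 ndB2q2a pcB1 Cut.none Ext.none)

def k0_mm_012_a : ∃ t, chk3 f_mm_012_a t 1 1 1 = true :=
  ⟨(l 5), by decide +kernel⟩

theorem c_mm_012_a : CertB 0 536870912 0 536870912 536870912 50465866 3 eng mog cd4q0 cd2q2a pd1 false false false .pnp 0 1 2
    ndB4q0 ndB2q2a pcB1 Cut.none Ext.none :=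
  certB0 (fam := false) (s1 := false) (s2 := false) (a := 0) (b := 1) (c := 2) (cn := .pnp) (n1 := ndB4q0) (n2 := ndB2q2a) (pc := pcB1) (cut := Cut.none) (xt := Ext.none) (P1 := 0) (W1 := 536870912) (P2 := 0) (W2 := 536870912) (P3 := 536870912) (W3 := 50465866) (N0 := 3) (En := eng) (mo := mog) (C1 := cd4q0) (C2 := cd2q2a) (C3 := pd1)
    rfl k0_mm_012_a

noncomputable def f_mm_012_b : ℕ → ℕ → ℕ → ℕ → Bool := onCell 0 536870912 1239849684 370763052 536870912 50465866
    (rowB 3 eng mog cd4q0 cd2q2b pd1 0 false false false .pnp 0 1 2 (qsf 0 536870912 1239849684 370763052 1) ndB4q0 ndB2q2b pcB1 Cut.none Ext.none)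

def k0_mm_012_b : ∃ t, chk3 f_mm_012_b t 1 1 1 = true :=
  ⟨(l 5), by decide +kernel⟩

theorem c_mm_012_b : CertB 0 536870912 1239849684 370763052 536870912 50465866 3 eng mog cd4q0 cd2q2b pd1 false false false .pnp 0 1 2
    ndB4q0 ndB2q2b pcB1 Cut.none Ext.none :=
  certB0 (fam := false) (s1 := false) (s2 := false) (a := 0) (b := 1) (c := 2) (cn := .pnp) (n1 := ndB4q0) (n2 := ndB2q2b) (pc := pcB1) (cut := Cut.none) (xt := Ext.none) (P1 := 0) (W1 := 536870912) (P2 := 1239849684) (W2 := 370763052) (P3 := 536870912) (W3 := 50465866) (N0 := 3) (En := eng) (mo := mog) (C1 := cd4q0) (C2 := cd2q2b) (C3 := pd1)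
    rfl k0_mm_012_b

noncomputable def f_mm_022_a : ℕ → ℕ → ℕ → ℕ → Bool := onCell 0 536870912 0 536870912 536870912 50465866
    (rowB 3 eng mog cd4q0 cd2q2a pd2 0 false false false .pp 0 2 2 (qsf 0 536870912 0 536870912 2) ndB4q0 ndB2q2a pcB2 Cut.none Ext.none)

def k0_mm_022_a : ∃ t, chk3 f_mm_022_a t 1 1 1 = true :=
  ⟨(l 5), by decide +kernel⟩

theorem c_mm_022_a : CertB 0 536870912 0 536870912 536870912 50465866 3 eng mog cd4q0 cd2q2a pd2 false false false .pp 0 2 2
    ndB4q0 ndB2q2a pcB2 Cut.none Ext.none :=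
  certB0 (fam := false) (s1 := false) (s2 := false) (a := 0) (b := 2) (c := 2) (cn := .pp) (n1 := ndB4q0) (n2 := ndB2q2a) (pc := pcB2) (cut := Cut.none) (xt := Ext.none) (P1 := 0) (W1 := 536870912) (P2 := 0) (W2 := 536870912) (P3 := 536870912) (W3 := 50465866) (N0 := 3) (En := eng) (mo := mog) (C1 := cd4q0) (C2 := cd2q2a) (C3 := pd2)
    rfl k0_mm_022_a

noncomputable def f_mm_022_b : ℕ → ℕ → ℕ → ℕ → Bool := onCell 0 536870912 1239849684 370763052 536870912 50465866
    (rowB 3 eng mog cd4q0 cd2q2b pd2 0 false false false .pp 0 2 2 (qsf 0 536870912 1239849684 370763052 2) ndB4q0 ndB2q2b pcB2 Cut.none Ext.none)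

def k0_mm_022_b : ∃ t, chk3 f_mm_022_b t 1 1 1 = true :=
  ⟨(l 5), by decide +kernel⟩

theorem c_mm_022_b : CertB 0 536870912 1239849684 370763052 536870912 50465866 3 eng mog cd4q0 cd2q2b pd2 false false false .pp 0 2 2
    ndB4q0 ndB2q2b pcB2 Cut.none Ext.none :=
  certB0 (fam := false) (s1 := false) (s2 := false) (a := 0) (b := 2) (c := 2) (cn := .pp) (n1 := ndB4q0) (n2 := ndB2q2b) (pc := pcB2) (cut := Cut.none) (xt := Ext.none) (P1 := 0) (W1 := 536870912) (P2 := 1239849684) (W2 := 370763052) (P3 := 536870912) (W3 := 50465866) (N0 := 3) (En := eng) (mo := mog) (C1 := cd4q0) (C2 := cd2q2b) (C3 := pd2)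
    rfl k0_mm_022_b

noncomputable def f_mm_023 : ℕ → ℕ → ℕ → ℕ → Bool := onCell 0 536870912 1610612736 536870912 536870912 50465866
    (rowB 3 eng mog cd4q0 cd2q3 pd2 0 false false false .up 0 2 3 (qsf 0 536870912 1610612736 536870912 2) ndB4q0 ndB2q3 pcB2 Cut.none Ext.none)

def k0_mm_023 : ∃ t, chk3 f_mm_023 t 1 1 1 = true :=
  ⟨(l 5), by decide +kernel⟩

theorem c_mm_023 : CertB 0 536870912 1610612736 536870912 536870912 50465866 3 eng mog cd4q0 cd2q3 pd2 false false false .up 0 2 3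
    ndB4q0 ndB2q3 pcB2 Cut.none Ext.none :=
  certB0 (fam := false) (s1 := false) (s2 := false) (a := 0) (b := 2) (c := 3) (cn := .up) (n1 := ndB4q0) (n2 := ndB2q3) (pc := pcB2) (cut := Cut.none) (xt := Ext.none) (P1 := 0) (W1 := 536870912) (P2 := 1610612736) (W2 := 536870912) (P3 := 536870912) (W3 := 50465866) (N0 := 3) (En := eng) (mo := mog) (C1 := cd4q0) (C2 := cd2q3) (C3 := pd2)
    rfl k0_mm_023

noncomputable def f_mm_033 : ℕ → ℕ → ℕ → ℕ → Bool := onCell 0 536870912 1610612736 536870912 536870912 50465866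
    (rowB 3 eng mog cd4q0 cd2q3 pd3 0 false false false .pnn 0 3 3 (qsf 0 536870912 1610612736 536870912 3) ndB4q0 ndB2q3 pcB3 Cut.none Ext.none)

def k0_mm_033 : ∃ t, chk3 f_mm_033 t 1 1 1 = true :=
  ⟨(l 5), by decide +kernel⟩

theorem c_mm_033 : CertB 0 536870912 1610612736 536870912 536870912 50465866 3 eng mog cd4q0 cd2q3 pd3 false false false .pnn 0 3 3
    ndB4q0 ndB2q3 pcB3 Cut.none Ext.none :=
  certB0 (fam := false) (s1 := false) (s2 := false) (a := 0) (b := 3) (c := 3) (cn := .pnn) (n1 := ndB4q0) (n2 := ndB2q3) (pc := pcB3) (cut := Cut.none) (xt := Ext.none) (P1 := 0) (W1 := 536870912) (P2 := 1610612736) (W2 := 536870912) (P3 := 536870912) (W3 := 50465866) (N0 := 3) (En := eng) (mo := mog) (C1 := cd4q0) (C2 := cd2q3) (C3 := pd3)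
    rfl k0_mm_033

noncomputable def f_mm_101 : ℕ → ℕ → ℕ → ℕ → Bool := onCell 536870912 536870912 536870912 536870912 536870912 50465866
    (rowB 3 eng mog cd4q1 cd2q1 pd0 0 false false false .npn 1 0 1 (qsf 536870912 536870912 536870912 536870912 0) ndB4q1 ndB2q1 pcB0 Cut.none Ext.none)

def k0_mm_101 : ∃ t, chk3 f_mm_101 t 1 1 1 = true :=
  ⟨(l 3), by decide +kernel⟩

theorem c_mm_101 : CertB 536870912 536870912 536870912 536870912 536870912 50465866 3 eng mog cd4q1 cd2q1 pd0 false false false .npn 1 0 1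
    ndB4q1 ndB2q1 pcB0 Cut.none Ext.none :=
  certB0 (fam := false) (s1 := false) (s2 := false) (a := 1) (b := 0) (c := 1) (cn := .npn) (n1 := ndB4q1) (n2 := ndB2q1) (pc := pcB0) (cut := Cut.none) (xt := Ext.none) (P1 := 536870912) (W1 := 536870912) (P2 := 536870912) (W2 := 536870912) (P3 := 536870912) (W3 := 50465866) (N0 := 3) (En := eng) (mo := mog) (C1 := cd4q1) (C2 := cd2q1) (C3 := pd0)
    rfl k0_mm_101

noncomputable def f_mm_102_a : ℕ → ℕ → ℕ → ℕ → Bool := onCell 536870912 536870912 0 536870912 536870912 50465866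
    (rowB 3 eng mog cd4q1 cd2q2a pd0 0 false false false .npp 1 0 2 (qsf 536870912 536870912 0 536870912 0) ndB4q1 ndB2q2a pcB0 Cut.none Ext.none)

def k0_mm_102_a : ∃ t, chk3 f_mm_102_a t 1 1 1 = true :=
  ⟨(l 5), by decide +kernel⟩

theorem c_mm_102_a : CertB 536870912 536870912 0 536870912 536870912 50465866 3 eng mog cd4q1 cd2q2a pd0 false false false .npp 1 0 2
    ndB4q1 ndB2q2a pcB0 Cut.none Ext.none :=
  certB0 (fam := false) (s1 := false) (s2 := false) (a := 1) (b := 0) (c := 2) (cn := .npp) (n1 := ndB4q1) (n2 := ndB2q2a) (pc := pcB0) (cut := Cut.none) (xt := Ext.none) (P1 := 536870912) (W1 := 536870912) (P2 := 0) (W2 := 536870912) (P3 := 536870912) (W3 := 50465866) (N0 := 3) (En := eng) (mo := mog) (C1 := cd4q1) (C2 := cd2q2a) (C3 := pd0)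
    rfl k0_mm_102_a

noncomputable def f_mm_102_b : ℕ → ℕ → ℕ → ℕ → Bool := onCell 536870912 536870912 1239849684 370763052 536870912 50465866
    (rowB 3 eng mog cd4q1 cd2q2b pd0 0 false false false .npp 1 0 2 (qsf 536870912 536870912 1239849684 370763052 0) ndB4q1 ndB2q2b pcB0 Cut.none Ext.none)

def k0_mm_102_b : ∃ t, chk3 f_mm_102_b t 1 1 1 = true :=
  ⟨(l 5), by decide +kernel⟩

theorem c_mm_102_b : CertB 536870912 536870912 1239849684 370763052 536870912 50465866 3 eng mog cd4q1 cd2q2b pd0 false false false .npp 1 0 2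
    ndB4q1 ndB2q2b pcB0 Cut.none Ext.none :=
  certB0 (fam := false) (s1 := false) (s2 := false) (a := 1) (b := 0) (c := 2) (cn := .npp) (n1 := ndB4q1) (n2 := ndB2q2b) (pc := pcB0) (cut := Cut.none) (xt := Ext.none) (P1 := 536870912) (W1 := 536870912) (P2 := 1239849684) (W2 := 370763052) (P3 := 536870912) (W3 := 50465866) (N0 := 3) (En := eng) (mo := mog) (C1 := cd4q1) (C2 := cd2q2b) (C3 := pd0)
    rfl k0_mm_102_b

noncomputable def f_mm_112_a : ℕ → ℕ → ℕ → ℕ → Bool := onCell 536870912 536870912 0 536870912 536870912 50465866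
    (rowB 3 eng mog cd4q1 cd2q2a pd1 0 false false false .dn 1 1 2 (qsf 536870912 536870912 0 536870912 1) ndB4q1 ndB2q2a pcB1 Cut.none Ext.none)

def k0_mm_112_a : ∃ t, chk3 f_mm_112_a t 1 1 1 = true :=
  ⟨(l 5), by decide +kernel⟩

theorem c_mm_112_a : CertB 536870912 536870912 0 536870912 536870912 50465866 3 eng mog cd4q1 cd2q2a pd1 false false false .dn 1 1 2
    ndB4q1 ndB2q2a pcB1 Cut.none Ext.none :=
  certB0 (fam := false) (s1 := false) (s2 := false) (a := 1) (b := 1) (c := 2) (cn := .dn) (n1 := ndB4q1) (n2 := ndB2q2a) (pc := pcB1) (cut := Cut.none) (xt := Ext.none) (P1 := 536870912) (W1 := 536870912) (P2 := 0) (W2 := 536870912) (P3 := 536870912) (W3 := 50465866) (N0 := 3) (En := eng) (mo := mog) (C1 := cd4q1) (C2 := cd2q2a) (C3 := pd1)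
    rfl k0_mm_112_a

noncomputable def f_mm_112_b : ℕ → ℕ → ℕ → ℕ → Bool := onCell 536870912 536870912 1239849684 370763052 536870912 50465866
    (rowB 3 eng mog cd4q1 cd2q2b pd1 0 false false false .dn 1 1 2 (qsf 536870912 536870912 1239849684 370763052 1) ndB4q1 ndB2q2b pcB1 Cut.none Ext.none)

def k0_mm_112_b : ∃ t, chk3 f_mm_112_b t 1 1 1 = true :=
  ⟨(l 5), by decide +kernel⟩

theorem c_mm_112_b : CertB 536870912 536870912 1239849684 370763052 536870912 50465866 3 eng mog cd4q1 cd2q2b pd1 false false false .dn 1 1 2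
    ndB4q1 ndB2q2b pcB1 Cut.none Ext.none :=
  certB0 (fam := false) (s1 := false) (s2 := false) (a := 1) (b := 1) (c := 2) (cn := .dn) (n1 := ndB4q1) (n2 := ndB2q2b) (pc := pcB1) (cut := Cut.none) (xt := Ext.none) (P1 := 536870912) (W1 := 536870912) (P2 := 1239849684) (W2 := 370763052) (P3 := 536870912) (W3 := 50465866) (N0 := 3) (En := eng) (mo := mog) (C1 := cd4q1) (C2 := cd2q2b) (C3 := pd1)
    rfl k0_mm_112_b

noncomputable def f_mm_113 : ℕ → ℕ → ℕ → ℕ → Bool := onCell 536870912 536870912 1610612736 536870912 536870912 50465866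
    (rowB 3 eng mog cd4q1 cd2q3 pd1 0 false false false .nn 1 1 3 (qsf 536870912 536870912 1610612736 536870912 1) ndB4q1 ndB2q3 pcB1 Cut.none Ext.none)

def k0_mm_113 : ∃ t, chk3 f_mm_113 t 1 1 1 = true :=
  ⟨(l 5), by decide +kernel⟩

theorem c_mm_113 : CertB 536870912 536870912 1610612736 536870912 536870912 50465866 3 eng mog cd4q1 cd2q3 pd1 false false false .nn 1 1 3
    ndB4q1 ndB2q3 pcB1 Cut.none Ext.none :=
  certB0 (fam := false) (s1 := false) (s2 := false) (a := 1) (b := 1) (c := 3) (cn := .nn) (n1 := ndB4q1) (n2 := ndB2q3) (pc := pcB1) (cut := Cut.none) (xt := Ext.none) (P1 := 536870912) (W1 := 536870912) (P2 := 1610612736) (W2 := 536870912) (P3 := 536870912) (W3 := 50465866) (N0 := 3) (En := eng) (mo := mog) (C1 := cd4q1) (C2 := cd2q3) (C3 := pd1)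
    rfl k0_mm_113

noncomputable def f_mm_123 : ℕ → ℕ → ℕ → ℕ → Bool := onCell 536870912 536870912 1610612736 536870912 536870912 50465866
    (rowB 3 eng mog cd4q1 cd2q3 pd2 0 false false false .npn 1 2 3 (qsf 536870912 536870912 1610612736 536870912 2) ndB4q1 ndB2q3 pcB2 Cut.none Ext.none)

def k0_mm_123 : ∃ t, chk3 f_mm_123 t 1 1 1 = true :=
  ⟨(l 5), by decide +kernel⟩

theorem c_mm_123 : CertB 536870912 536870912 1610612736 536870912 536870912 50465866 3 eng mog cd4q1 cd2q3 pd2 false false false .npn 1 2 3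
    ndB4q1 ndB2q3 pcB2 Cut.none Ext.none :=
  certB0 (fam := false) (s1 := false) (s2 := false) (a := 1) (b := 2) (c := 3) (cn := .npn) (n1 := ndB4q1) (n2 := ndB2q3) (pc := pcB2) (cut := Cut.none) (xt := Ext.none) (P1 := 536870912) (W1 := 536870912) (P2 := 1610612736) (W2 := 536870912) (P3 := 536870912) (W3 := 50465866) (N0 := 3) (En := eng) (mo := mog) (C1 := cd4q1) (C2 := cd2q3) (C3 := pd2)
    rfl k0_mm_123

noncomputable def f_mm_133 : ℕ → ℕ → ℕ → ℕ → Bool := onCell 536870912 536870912 1610612736 536870912 536870912 50465866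
    (rowB 3 eng mog cd4q1 cd2q3 pd3 0 false false false .dn 1 3 3 (qsf 536870912 536870912 1610612736 536870912 3) ndB4q1 ndB2q3 pcB3 Cut.none Ext.none)

def k0_mm_133 : ∃ t, chk3 f_mm_133 t 1 1 1 = true :=
  ⟨(l 5), by decide +kernel⟩

theorem c_mm_133 : CertB 536870912 536870912 1610612736 536870912 536870912 50465866 3 eng mog cd4q1 cd2q3 pd3 false false false .dn 1 3 3
    ndB4q1 ndB2q3 pcB3 Cut.none Ext.none :=
  certB0 (fam := false) (s1 := false) (s2 := false) (a := 1) (b := 3) (c := 3) (cn := .dn) (n1 := ndB4q1) (n2 := ndB2q3) (pc := pcB3) (cut := Cut.none) (xt := Ext.none) (P1 := 536870912) (W1 := 536870912) (P2 := 1610612736) (W2 := 536870912) (P3 := 536870912) (W3 := 50465866) (N0 := 3) (En := eng) (mo := mog) (C1 := cd4q1) (C2 := cd2q3) (C3 := pd3)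
    rfl k0_mm_133

noncomputable def f_mm_202_a : ℕ → ℕ → ℕ → ℕ → Bool := onCell 1073741824 536870912 0 536870912 536870912 50465866
    (rowB 3 eng mog cd4q2 cd2q2a pd0 0 false false false .pp 2 0 2 (qsf 1073741824 536870912 0 536870912 0) ndB4q2 ndB2q2a pcB0 Cut.none Ext.none)

def k0_mm_202_a : ∃ t, chk3 f_mm_202_a t 1 1 1 = true :=
  ⟨(l 3), by decide +kernel⟩

theorem c_mm_202_a : CertB 1073741824 536870912 0 536870912 536870912 50465866 3 eng mog cd4q2 cd2q2a pd0 false false false .pp 2 0 2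
    ndB4q2 ndB2q2a pcB0 Cut.none Ext.none :=
  certB0 (fam := false) (s1 := false) (s2 := false) (a := 2) (b := 0) (c := 2) (cn := .pp) (n1 := ndB4q2) (n2 := ndB2q2a) (pc := pcB0) (cut := Cut.none) (xt := Ext.none) (P1 := 1073741824) (W1 := 536870912) (P2 := 0) (W2 := 536870912) (P3 := 536870912) (W3 := 50465866) (N0 := 3) (En := eng) (mo := mog) (C1 := cd4q2) (C2 := cd2q2a) (C3 := pd0)
    rfl k0_mm_202_a

noncomputable def f_mm_202_b : ℕ → ℕ → ℕ → ℕ → Bool := onCell 1073741824 536870912 1239849684 370763052 536870912 50465866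
    (rowB 3 eng mog cd4q2 cd2q2b pd0 0 false false false .pp 2 0 2 (qsf 1073741824 536870912 1239849684 370763052 0) ndB4q2 ndB2q2b pcB0 Cut.none Ext.none)

def k0_mm_202_b : ∃ t, chk3 f_mm_202_b t 1 1 1 = true :=
  ⟨(l 3), by decide +kernel⟩

theorem c_mm_202_b : CertB 1073741824 536870912 1239849684 370763052 536870912 50465866 3 eng mog cd4q2 cd2q2b pd0 false false false .pp 2 0 2
    ndB4q2 ndB2q2b pcB0 Cut.none Ext.none :=
  certB0 (fam := false) (s1 := false) (s2 := false) (a := 2) (b := 0) (c := 2) (cn := .pp) (n1 := ndB4q2) (n2 := ndB2q2b) (pc := pcB0) (cut := Cut.none) (xt := Ext.none) (P1 := 1073741824) (W1 := 536870912) (P2 := 1239849684) (W2 := 370763052) (P3 := 536870912) (W3 := 50465866) (N0 := 3) (En := eng) (mo := mog) (C1 := cd4q2) (C2 := cd2q2b) (C3 := pd0)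
    rfl k0_mm_202_b

noncomputable def f_mm_203 : ℕ → ℕ → ℕ → ℕ → Bool := onCell 1073741824 536870912 1610612736 536870912 536870912 50465866
    (rowB 3 eng mog cd4q2 cd2q3 pd0 0 false false false .up 2 0 3 (qsf 1073741824 536870912 1610612736 536870912 0) ndB4q2 ndB2q3 pcB0 Cut.none Ext.none)

def k0_mm_203 : ∃ t, chk3 f_mm_203 t 1 1 1 = true :=
  ⟨(l 5), by decide +kernel⟩

theorem c_mm_203 : CertB 1073741824 536870912 1610612736 536870912 536870912 50465866 3 eng mog cd4q2 cd2q3 pd0 false false false .up 2 0 3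
    ndB4q2 ndB2q3 pcB0 Cut.none Ext.none :=
  certB0 (fam := false) (s1 := false) (s2 := false) (a := 2) (b := 0) (c := 3) (cn := .up) (n1 := ndB4q2) (n2 := ndB2q3) (pc := pcB0) (cut := Cut.none) (xt := Ext.none) (P1 := 1073741824) (W1 := 536870912) (P2 := 1610612736) (W2 := 536870912) (P3 := 536870912) (W3 := 50465866) (N0 := 3) (En := eng) (mo := mog) (C1 := cd4q2) (C2 := cd2q3) (C3 := pd0)
    rfl k0_mm_203

noncomputable def f_mm_213 : ℕ → ℕ → ℕ → ℕ → Bool := onCell 1073741824 536870912 1610612736 536870912 536870912 50465866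
    (rowB 3 eng mog cd4q2 cd2q3 pd1 0 false false false .pnn 2 1 3 (qsf 1073741824 536870912 1610612736 536870912 1) ndB4q2 ndB2q3 pcB1 Cut.none Ext.none)

def k0_mm_213 : ∃ t, chk3 f_mm_213 t 1 1 1 = true :=
  ⟨(l 5), by decide +kernel⟩

theorem c_mm_213 : CertB 1073741824 536870912 1610612736 536870912 536870912 50465866 3 eng mog cd4q2 cd2q3 pd1 false false false .pnn 2 1 3
    ndB4q2 ndB2q3 pcB1 Cut.none Ext.none :=
  certB0 (fam := false) (s1 := false) (s2 := false) (a := 2) (b := 1) (c := 3) (cn := .pnn) (n1 := ndB4q2) (n2 := ndB2q3) (pc := pcB1) (cut := Cut.none) (xt := Ext.none) (P1 := 1073741824) (W1 := 536870912) (P2 := 1610612736) (W2 := 536870912) (P3 := 536870912) (W3 := 50465866) (N0 := 3) (En := eng) (mo := mog) (C1 := cd4q2) (C2 := cd2q3) (C3 := pd1)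
    rfl k0_mm_213

noncomputable def f_mm_303 : ℕ → ℕ → ℕ → ℕ → Bool := onCell 0 1230186008 1610612736 536870912 536870912 50465866
    (rowB 3 eng mog cd4q3 cd2q3 pd0 0 false false false .npn 3 0 3 (qsf 0 1230186008 1610612736 536870912 0) ndB4q3 ndB2q3 pcB0 Cut.none Ext.none)

def k0_mm_303 : ∃ t, chk3 f_mm_303 t 1 1 1 = true :=
  ⟨(a (l 3) (l 3)), by decide +kernel⟩

theorem c_mm_303 : CertB 0 1230186008 1610612736 536870912 536870912 50465866 3 eng mog cd4q3 cd2q3 pd0 false false false .npn 3 0 3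
    ndB4q3 ndB2q3 pcB0 Cut.none Ext.none :=
  certB0 (fam := false) (s1 := false) (s2 := false) (a := 3) (b := 0) (c := 3) (cn := .npn) (n1 := ndB4q3) (n2 := ndB2q3) (pc := pcB0) (cut := Cut.none) (xt := Ext.none) (P1 := 0) (W1 := 1230186008) (P2 := 1610612736) (W2 := 536870912) (P3 := 536870912) (W3 := 50465866) (N0 := 3) (En := eng) (mo := mog) (C1 := cd4q3) (C2 := cd2q3) (C3 := pd0)
    rfl k0_mm_303

noncomputable def f_mm_313 : ℕ → ℕ → ℕ → ℕ → Bool := onCell 0 1230186008 1610612736 536870912 536870912 50465866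
    (rowB 3 eng mog cd4q3 cd2q3 pd1 0 false false false .dn 3 1 3 (qsf 0 1230186008 1610612736 536870912 1) ndB4q3 ndB2q3 pcB1 Cut.none Ext.none)

def k0_mm_313 : ∃ t, chk3 f_mm_313 t 1 1 1 = true :=
  ⟨(a (l 1) (l 3)), by decide +kernel⟩

theorem c_mm_313 : CertB 0 1230186008 1610612736 536870912 536870912 50465866 3 eng mog cd4q3 cd2q3 pd1 false false false .dn 3 1 3
    ndB4q3 ndB2q3 pcB1 Cut.none Ext.none :=
  certB0 (fam := false) (s1 := false) (s2 := false) (a := 3) (b := 1) (c := 3) (cn := .dn) (n1 := ndB4q3) (n2 := ndB2q3) (pc := pcB1) (cut := Cut.none) (xt := Ext.none) (P1 := 0) (W1 := 1230186008) (P2 := 1610612736) (W2 := 536870912) (P3 := 536870912) (W3 := 50465866) (N0 := 3) (En := eng) (mo := mog) (C1 := cd4q3) (C2 := cd2q3) (C3 := pd1)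
    rfl k0_mm_313

end Pool.Agent.Strip051.G.I5000_5470.Tab.C.BB42

namespace Pool.Agent.Strip051.G.I5000_5470.Tab.C.BB43

open Pool.Agent.Strip051.PB Pool.Agent.Strip051.PB.T
open Pool.Agent.Strip051.G.I5000_5470.Tab

noncomputable def f_pp_001 : ℕ → ℕ → ℕ → ℕ → Bool := onCell 0 536870912 536870912 536870912 536870912 50465866
    (rowB 3 eng mog cd4q0 cd3q1 pd0 0 false true true .up 0 0 1 (qsf 0 536870912 536870912 536870912 0) ndB4q0 ndB3q1 pcB0 Cut.none Ext.none)

def k0_pp_001 : ∃ t, chk3 f_pp_001 t 1 1 1 = true :=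
  ⟨(l 3), by decide +kernel⟩

theorem c_pp_001 : CertB 0 536870912 536870912 536870912 536870912 50465866 3 eng mog cd4q0 cd3q1 pd0 false true true .up 0 0 1
    ndB4q0 ndB3q1 pcB0 Cut.none Ext.none :=
  certB0 (fam := false) (s1 := true) (s2 := true) (a := 0) (b := 0) (c := 1) (cn := .up) (n1 := ndB4q0) (n2 := ndB3q1) (pc := pcB0) (cut := Cut.none) (xt := Ext.none) (P1 := 0) (W1 := 536870912) (P2 := 536870912) (W2 := 536870912) (P3 := 536870912) (W3 := 50465866) (N0 := 3) (En := eng) (mo := mog) (C1 := cd4q0) (C2 := cd3q1) (C3 := pd0)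
    rfl k0_pp_001

noncomputable def f_pp_011 : ℕ → ℕ → ℕ → ℕ → Bool := onCell 0 536870912 536870912 536870912 536870912 50465866
    (rowB 3 eng mog cd4q0 cd3q1 pd1 0 false true true .pnn 0 1 1 (qsf 0 536870912 536870912 536870912 1) ndB4q0 ndB3q1 pcB1 Cut.none Ext.none)

def k0_pp_011 : ∃ t, chk3 f_pp_011 t 1 1 1 = true :=
  ⟨(l 3), by decide +kernel⟩

theorem c_pp_011 : CertB 0 536870912 536870912 536870912 536870912 50465866 3 eng mog cd4q0 cd3q1 pd1 false true true .pnn 0 1 1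
    ndB4q0 ndB3q1 pcB1 Cut.none Ext.none :=
  certB0 (fam := false) (s1 := true) (s2 := true) (a := 0) (b := 1) (c := 1) (cn := .pnn) (n1 := ndB4q0) (n2 := ndB3q1) (pc := pcB1) (cut := Cut.none) (xt := Ext.none) (P1 := 0) (W1 := 536870912) (P2 := 536870912) (W2 := 536870912) (P3 := 536870912) (W3 := 50465866) (N0 := 3) (En := eng) (mo := mog) (C1 := cd4q0) (C2 := cd3q1) (C3 := pd1)
    rfl k0_pp_011

noncomputable def f_pp_012_a : ℕ → ℕ → ℕ → ℕ → Bool := onCell 0 536870912 0 536870912 536870912 50465866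
    (rowB 3 eng mog cd4q0 cd3q2a pd1 0 false true true .pnp 0 1 2 (qsf 0 536870912 0 536870912 1) ndB4q0 ndB3q2a pcB1 Cut.none Ext.none)

def k0_pp_012_a : ∃ t, chk3 f_pp_012_a t 1 1 1 = true :=
  ⟨(a (a (b (a (l 2) (a (l 2) (b (l 2) (l 16626280)))) (b (a (l 2) (b (a (l 2) (l 16678224)) (a (l 16556640) (l 16717552)))) (b (a (a (l 2) (a (l 16689904) (l 16703184))) (a (b (l 16716960) (l 16734904)) (l 16737024))) (a (b (a (l 16708016) (l 16729992)) (a (b (l 16728000) (l 16740936)) (l 16725800))) (b (l 16938616) (l 16714496)))))) (b (a (b (l 16648624) (a (l 16671520) (l 16706136))) (b (l 16712192) (l 16738408))) (b (a (b (l 16727064) (l 16740752)) (b (l 16746216) (l 16723488))) (b (a (a (l 16722720) (l 16692976)) (l 16648264)) (a (a (l 16770808) (l 16675928)) (b (l 16650080) (l 16672112))))))) (a (b (a (b (l 16746120) (l 16751872)) (b (l 16753296) (l 16733096))) (b (a (b (l 16728200) (l 16670952)) (l 16649736)) (a (b (l 16606888) (a (l 16641768) (b (l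 16606688) (l 16632248)))) (b (l 16642960) (a (b (l 16550576) (b (l 16567504) (l 16586760))) (b (l 16496056) (l 16528248))))))) (b (a (b (l 16735376) (l 16697072)) (b (a (l 16714768) (l 16697528)) (a (l 16667072) (l 16640648)))) (b (a (a (l 16612216) (l 16774344)) (a (l 16616776) (l 16519872))) (a (b (a (l 16448808) (l 16415200)) (a (l 16464304) (b (l 16405296) (l 16435248)))) (b (a (l 16382104) (l 16362680)) (a (l 16369480) (l 16314448)))))))), by decide +kernel⟩

theorem c_pp_012_a : CertB 0 536870912 0 536870912 536870912 50465866 3 eng mog cd4q0 cd3q2a pd1 false true true .pnp 0 1 2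
    ndB4q0 ndB3q2a pcB1 Cut.none Ext.none :=
  certB0 (fam := false) (s1 := true) (s2 := true) (a := 0) (b := 1) (c := 2) (cn := .pnp) (n1 := ndB4q0) (n2 := ndB3q2a) (pc := pcB1) (cut := Cut.none) (xt := Ext.none) (P1 := 0) (W1 := 536870912) (P2 := 0) (W2 := 536870912) (P3 := 536870912) (W3 := 50465866) (N0 := 3) (En := eng) (mo := mog) (C1 := cd4q0) (C2 := cd3q2a) (C3 := pd1)
    rfl k0_pp_012_a

noncomputable def f_pp_012_b : ℕ → ℕ → ℕ → ℕ → Bool := onCell 0 536870912 1239849684 370763052 536870912 50465866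
    (rowB 3 eng mog cd4q0 cd3q2b pd1 0 false true true .pnp 0 1 2 (qsf 0 536870912 1239849684 370763052 1) ndB4q0 ndB3q2b pcB1 Cut.none Ext.none)

def k0_pp_012_b : ∃ t, chk3 f_pp_012_b t 1 1 1 = true :=
  ⟨(a (b (a (l 2) (b (a (b (l 16596376) (l 2)) (l 16639336)) (a (l 2) (l 16482208)))) (l 2)) (a (b (b (a (l 16705064) (l 16757720)) (a (l 16584440) (l 16714288))) (a (l 2) (b (l 16624408) (l 2)))) (b (a (b (l 16774120) (l 16803632)) (b (a (l 16769208) (l 16760224)) (l 16848232))) (a (b (l 16798752) (l 16831312)) (a (l 16944904) (l 17020896)))))), by decide +kernel⟩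

theorem c_pp_012_b : CertB 0 536870912 1239849684 370763052 536870912 50465866 3 eng mog cd4q0 cd3q2b pd1 false true true .pnp 0 1 2
    ndB4q0 ndB3q2b pcB1 Cut.none Ext.none :=
  certB0 (fam := false) (s1 := true) (s2 := true) (a := 0) (b := 1) (c := 2) (cn := .pnp) (n1 := ndB4q0) (n2 := ndB3q2b) (pc := pcB1) (cut := Cut.none) (xt := Ext.none) (P1 := 0) (W1 := 536870912) (P2 := 1239849684) (W2 := 370763052) (P3 := 536870912) (W3 := 50465866) (N0 := 3) (En := eng) (mo := mog) (C1 := cd4q0) (C2 := cd3q2b) (C3 := pd1)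
    rfl k0_pp_012_b

noncomputable def f_pp_022_a : ℕ → ℕ → ℕ → ℕ → Bool := onCell 0 536870912 0 536870912 536870912 50465866
    (rowB 3 eng mog cd4q0 cd3q2a pd2 0 false true true .pp 0 2 2 (qsf 0 536870912 0 536870912 2) ndB4q0 ndB3q2a pcB2 Cut.none Ext.none)

def k0_pp_022_a : ∃ t, chk3 f_pp_022_a t 1 1 1 = true :=
  ⟨(a (b (a (b (a (l 16594544) (l 16617096)) (a (b (l 16607384) (l 16621696)) (l 16639336))) (a (a (l 109555429687) (l 273301135847)) (l 1))) (a (a (b (a (l 16646208) (l 16658040)) (b (a (b (l 16678640) (l 16694432)) (b (l 16690432) (l 150357408375))) (a (b (a (l 16708712) (l 16715440)) (a (l 129956319431) (b (l 16730360) (l 1)))) (b (a (l 333430379031) (l 1)) (l 1))))) (b (b (l 16666928) (a (l 16684088) (l 16726704))) (b (a (b (l 16708848) (l 1)) (l 1)) (l 1)))) (b (l 1) (l 1)))) (l 1)), by decide +kernel⟩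

theorem c_pp_022_a : CertB 0 536870912 0 536870912 536870912 50465866 3 eng mog cd4q0 cd3q2a pd2 false true true .pp 0 2 2
    ndB4q0 ndB3q2a pcB2 Cut.none Ext.none :=
  certB0 (fam := false) (s1 := true) (s2 := true) (a := 0) (b := 2) (c := 2) (cn := .pp) (n1 := ndB4q0) (n2 := ndB3q2a) (pc := pcB2) (cut := Cut.none) (xt := Ext.none) (P1 := 0) (W1 := 536870912) (P2 := 0) (W2 := 536870912) (P3 := 536870912) (W3 := 50465866) (N0 := 3) (En := eng) (mo := mog) (C1 := cd4q0) (C2 := cd3q2a) (C3 := pd2)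
    rfl k0_pp_022_a

noncomputable def f_pp_022_b : ℕ → ℕ → ℕ → ℕ → Bool := onCell 0 536870912 1239849684 370763052 536870912 50465866
    (rowB 3 eng mog cd4q0 cd3q2b pd2 0 false true true .pp 0 2 2 (qsf 0 536870912 1239849684 370763052 2) ndB4q0 ndB3q2b pcB2 Cut.none Ext.none)

def k0_pp_022_b : ∃ t, chk3 f_pp_022_b t 1 1 1 = true :=
  ⟨(a (b (a (b (a (b (a (l 16559040) (l 16574408)) (a (l 16502176) (l 16530168))) (b (l 16592128) (l 16555200))) (a (l 16415704) (b (l 16517136) (l 16471632)))) (b (a (l 16617416) (b (l 16643000) (l 16602800))) (a (l 16530280) (l 16550592)))) (b (a (l 16564256) (a (l 16461720) (l 16490144))) (a (a (b (l 16205848) (l 16177616)) (l 16261776)) (l 16432680)))) (a (b (b (l 1) (a (l 16585704) (l 16706040))) (b (l 16576168) (l 16565080))) (b (l 1) (a (l 16809448) (l 513819763399))))), by decide +kernel⟩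

theorem c_pp_022_b : CertB 0 536870912 1239849684 370763052 536870912 50465866 3 eng mog cd4q0 cd3q2b pd2 false true true .pp 0 2 2
    ndB4q0 ndB3q2b pcB2 Cut.none Ext.none :=
  certB0 (fam := false) (s1 := true) (s2 := true) (a := 0) (b := 2) (c := 2) (cn := .pp) (n1 := ndB4q0) (n2 := ndB3q2b) (pc := pcB2) (cut := Cut.none) (xt := Ext.none) (P1 := 0) (W1 := 536870912) (P2 := 1239849684) (W2 := 370763052) (P3 := 536870912) (W3 := 50465866) (N0 := 3) (En := eng) (mo := mog) (C1 := cd4q0) (C2 := cd3q2b) (C3 := pd2)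
    rfl k0_pp_022_b

noncomputable def f_pp_023 : ℕ → ℕ → ℕ → ℕ → Bool := onCell 0 536870912 1073741824 536870912 536870912 50465866
    (rowB 3 eng mog cd4q0 cd3q3 pd2 1 false true true .up 0 2 3 (qsf 0 536870912 1610612736 536870912 2) ndB4q0 ndB3q3 pcB2 Cut.none Ext.none)

def k0_pp_023 : ∃ t, chk3 f_pp_023 t 1 1 1 = true :=
  ⟨(a (b (a (l 1) (b (l 1) (l 488049091319))) (b (a (l 502544249559) (b (l 16409232) (l 16357360))) (b (a (l 16162456) (l 16317824)) (a (l 16172080) (l 16476816))))) (b (a (b (l 16558816) (l 579854171079)) (b (a (l 16778464) (l 17014760)) (a (l 16770952) (l 16937736)))) (a (b (b (l 16528976) (l 16544832)) (l 16647000)) (b (a (l 16750720) (l 16828232)) (a (l 16749800) (l 4)))))), by decide +kernel⟩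

theorem c_pp_023 : CertB 0 536870912 1610612736 536870912 536870912 50465866 3 eng mog cd4q0 cd3q3 pd2 false true true .up 0 2 3
    ndB4q0 ndB3q3 pcB2 Cut.none Ext.none :=
  certB1 (fam := false) (s1 := true) (s2 := true) (a := 0) (b := 2) (c := 3) (cn := .up) (n1 := ndB4q0) (n2 := ndB3q3) (pc := pcB2) (cut := Cut.none) (xt := Ext.none) (P1 := 0) (W1 := 536870912) (P2 := 1610612736) (W2 := 536870912) (P3 := 536870912) (W3 := 50465866) (N0 := 3) (En := eng) (mo := mog) (C1 := cd4q0) (C2 := cd3q3) (C3 := pd2)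
    rfl (fun _ => rfl) k0_pp_023

noncomputable def f_pp_033 : ℕ → ℕ → ℕ → ℕ → Bool := onCell 0 536870912 1610612736 536870912 536870912 50465866
    (rowB 3 eng mog cd4q0 cd3q3 pd3 1 false true true .pnn 0 3 3 (qsf 0 536870912 1610612736 536870912 3) ndB4q0 ndB3q3 pcB3 Cut.none Ext.none)

def k0_pp_033 : ∃ t, chk3 f_pp_033 t 1 1 1 = true :=
  ⟨(a (b (b (b (a (a (l 16358016) (l 16433400)) (l 16603984)) (l 16834544)) (b (l 16699736) (l 16735912))) (b (l 4) (a (l 4) (a (b (l 4) (l 2)) (l 2))))) (b (a (b (l 4) (l 4)) (b (l 4) (a (b (l 4) (l 2)) (l 2)))) (a (b (a (b (l 4) (l 2)) (l 2)) (l 2)) (l 2)))), by decide +kernel⟩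

theorem c_pp_033 : CertB 0 536870912 1610612736 536870912 536870912 50465866 3 eng mog cd4q0 cd3q3 pd3 false true true .pnn 0 3 3
    ndB4q0 ndB3q3 pcB3 Cut.none Ext.none :=
  certB1 (fam := false) (s1 := true) (s2 := true) (a := 0) (b := 3) (c := 3) (cn := .pnn) (n1 := ndB4q0) (n2 := ndB3q3) (pc := pcB3) (cut := Cut.none) (xt := Ext.none) (P1 := 0) (W1 := 536870912) (P2 := 1610612736) (W2 := 536870912) (P3 := 536870912) (W3 := 50465866) (N0 := 3) (En := eng) (mo := mog) (C1 := cd4q0) (C2 := cd3q3) (C3 := pd3)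
    rfl (fun _ => rfl) k0_pp_033

noncomputable def f_pp_101 : ℕ → ℕ → ℕ → ℕ → Bool := onCell 536870912 536870912 536870912 536870912 536870912 50465866
    (rowB 3 eng mog cd4q1 cd3q1 pd0 0 false true true .npn 1 0 1 (qsf 536870912 536870912 536870912 536870912 0) ndB4q1 ndB3q1 pcB0 Cut.none Ext.none)

def k0_pp_101 : ∃ t, chk3 f_pp_101 t 1 1 1 = true :=
  ⟨(l 3), by decide +kernel⟩

theorem c_pp_101 : CertB 536870912 536870912 536870912 536870912 536870912 50465866 3 eng mog cd4q1 cd3q1 pd0 false true true .npn 1 0 1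
    ndB4q1 ndB3q1 pcB0 Cut.none Ext.none :=
  certB0 (fam := false) (s1 := true) (s2 := true) (a := 1) (b := 0) (c := 1) (cn := .npn) (n1 := ndB4q1) (n2 := ndB3q1) (pc := pcB0) (cut := Cut.none) (xt := Ext.none) (P1 := 536870912) (W1 := 536870912) (P2 := 536870912) (W2 := 536870912) (P3 := 536870912) (W3 := 50465866) (N0 := 3) (En := eng) (mo := mog) (C1 := cd4q1) (C2 := cd3q1) (C3 := pd0)
    rfl k0_pp_101

noncomputable def cut_pp_102_a : Cut := Cut.of [[⟨0, 1, 0, 67108864⟩, ⟨1, 0, 0, 67108864⟩, ⟨2, 1, 0, 67108864⟩]]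

noncomputable def f_pp_102_a : ℕ → ℕ → ℕ → ℕ → Bool := onCell 536870912 536870912 0 536870912 536870912 50465866
    (rowB 3 eng mog cd4q1 cd3q2a pd0 0 false true true .npp 1 0 2 (qsf 536870912 536870912 0 536870912 0) ndB4q1 ndB3q2a pcB0 cut_pp_102_a Ext.none)

def k0_pp_102_a : ∃ t, chk3 f_pp_102_a t 2 1 1 = true :=
  ⟨(a (b (a (l 2) (b (l 2) (l 16508192))) (a (b (l 2) (a (b (l 2) (l 16327056)) (b (l 16339120) (l 16288928)))) (b (l 16521152) (b (l 16382584) (b (l 16357736) (l 16343128)))))) (b (b (a (l 16543760) (l 16514776)) (a (l 16495472) (l 16476096))) (b (a (b (l 16459136) (l 16440352)) (b (l 16453352) (l 16448024))) (b (a (a (l 16419472) (l 16440656)) (b (l 16451760) (l 16459840))) (a (a (l 16414904) (b (l 16446128) (a (l 16447184) (l 16466040)))) (b (a (l 16465008) (l 16481144)) (a (l 16545016) (l 16503400)))))))), by decide +kernel⟩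

def k1_pp_102_a : ∃ t, chk3 f_pp_102_a t 3 1 1 = true :=
  ⟨(b (a (a (b (l 16481312) (l 16452872)) (b (a (l 16453760) (l 16437080)) (a (l 16436200) (l 16533952)))) (a (b (l 16420176) (b (l 16416504) (l 16426048))) (b (a (l 16403728) (b (l 16393120) (l 16392608))) (a (b (l 16406872) (l 16424184)) (b (l 16465000) (a (l 16423768) (l 16423912))))))) (a (b (a (b (l 16443984) (l 16515624)) (b (l 16442240) (l 16570928))) (b (a (a (l 16471296) (l 16484672)) (b (l 16494672) (l 16615224))) (a (b (l 16572376) (a (l 16526344) (l 16551576))) (b (a (l 16541720) (l 16564688)) (a (l 16578768) (l 16669128)))))) (b (a (b (a (l 16445760) (l 16449704)) (a (l 16479800) (l 16490744))) (a (b (l 16454744) (b (l 16488448) (l 16517656))) (b (a (l 16459352) (l 16462864)) (a (l 16576280) (b (l 16503488) (l 16537688)))))) (b (a (a (b (l 16517256) (l 16549800)) (b (l 16534112) (l 16591936))) (a (b (a (l 16547768) (l 16557528)) (a (l 16588088) (l 16600048))) (a (b (l 16567600)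 (b (l 16600096) (l 16623928))) (b (a (l 16575184) (l 16580232)) (a (l 16620976) (b (l 16614448) (l 6))))))) (a (b (a (l 16588712) (a (l 16607888) (l 16663408))) (b (a (l 16622528) (l 16673344)) (a (l 16722112) (b (l 16673008) (l 16709344))))) (b (a (a (b (l 16622624) (l 16648104)) (b (l 16636056) (l 16683432))) (a (b (l 16670416) (l 6)) (l 6))) (a (a (b (l 16675416) (b (l 16697024) (l 16712280))) (b (l 16701168) (l 6))) (l 6)))))))), by decide +kernel⟩

theorem s2_pp_102_a : ∃ t, chk3 f_pp_102_a t 1 1 1 = true := ex3_a k0_pp_102_a k1_pp_102_a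

theorem c_pp_102_a : CertB 536870912 536870912 0 536870912 536870912 50465866 3 eng mog cd4q1 cd3q2a pd0 false true true .npp 1 0 2
    ndB4q1 ndB3q2a pcB0 cut_pp_102_a Ext.none :=
  certB0 (fam := false) (s1 := true) (s2 := true) (a := 1) (b := 0) (c := 2) (cn := .npp) (n1 := ndB4q1) (n2 := ndB3q2a) (pc := pcB0) (cut := cut_pp_102_a) (xt := Ext.none) (P1 := 536870912) (W1 := 536870912) (P2 := 0) (W2 := 536870912) (P3 := 536870912) (W3 := 50465866) (N0 := 3) (En := eng) (mo := mog) (C1 := cd4q1) (C2 := cd3q2a) (C3 := pd0)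
    rfl s2_pp_102_a

noncomputable def cut_pp_102_b : Cut := Cut.of [[⟨0, 1, 0, 67108864⟩, ⟨1, 0, 0, 67108864⟩, ⟨2, 1, 0, 67108864⟩]]

noncomputable def f_pp_102_b : ℕ → ℕ → ℕ → ℕ → Bool := onCell 0 536870912 1239849684 370763052 536870912 50465866
    (rowB 3 eng mog cd4q1 cd3q2b pd0 2 false true true .npp 1 0 2 (qsf 536870912 536870912 1239849684 370763052 0) ndB4q1 ndB3q2b pcB0 cut_pp_102_b Ext.none)

def k0_pp_102_b : ∃ t, chk3 f_pp_102_b t 1 1 1 = true :=
  ⟨(b (a (a (l 2) (a (b (b (a (l 16332504) (l 16350216)) (l 2)) (l 2)) (b (a (b (l 16367944) (l 16278512)) (l 16347120)) (a (l 2) (l 16175840))))) (a (a (b (a (l 16369808) (l 16392816)) (a (l 16218128) (l 16261488))) (b (l 16438624) (l 16343032))) (b (a (l 16495688) (l 16544608)) (a (l 16444520) (l 16530912))))) (a (l 2) (b (a (a (l 2) (l 16232176)) (a (l 16389304) (l 16525272))) (a (l 2) (l 281957335271))))), by decide +kernel⟩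

theorem c_pp_102_b : CertB 536870912 536870912 1239849684 370763052 536870912 50465866 3 eng mog cd4q1 cd3q2b pd0 false true true .npp 1 0 2
    ndB4q1 ndB3q2b pcB0 cut_pp_102_b Ext.none :=
  certB2 (fam := false) (s1 := true) (s2 := true) (a := 1) (b := 0) (c := 2) (cn := .npp) (n1 := ndB4q1) (n2 := ndB3q2b) (pc := pcB0) (cut := cut_pp_102_b) (xt := Ext.none) (P1 := 536870912) (W1 := 536870912) (P2 := 1239849684) (W2 := 370763052) (P3 := 536870912) (W3 := 50465866) (N0 := 3) (En := eng) (mo := mog) (C1 := cd4q1) (C2 := cd3q2b) (C3 := pd0)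
    rfl (fun _ => rfl) k0_pp_102_b

noncomputable def f_pp_112_a : ℕ → ℕ → ℕ → ℕ → Bool := onCell 536870912 536870912 0 536870912 536870912 50465866
    (rowB 3 eng mog cd4q1 cd3q2a pd1 0 false true true .dn 1 1 2 (qsf 536870912 536870912 0 536870912 1) ndB4q1 ndB3q2a pcB1 Cut.none Ext.none)

def k0_pp_112_a : ∃ t, chk3 f_pp_112_a t 1 1 1 = true :=
  ⟨(a (a (b (a (b (l 16656744) (l 16592232)) (b (l 16598152) (l 16535416))) (a (a (b (l 16496352) (b (l 16375560) (l 16364384))) (b (l 16472328) (l 336114022263))) (b (l 16518424) (b (l 16466192) (l 1))))) (b (b (l 180959064055) (a (l 16501584) (l 1))) (b (l 1) (l 1)))) (l 1)), by decide +kernel⟩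

theorem c_pp_112_a : CertB 536870912 536870912 0 536870912 536870912 50465866 3 eng mog cd4q1 cd3q2a pd1 false true true .dn 1 1 2
    ndB4q1 ndB3q2a pcB1 Cut.none Ext.none :=
  certB0 (fam := false) (s1 := true) (s2 := true) (a := 1) (b := 1) (c := 2) (cn := .dn) (n1 := ndB4q1) (n2 := ndB3q2a) (pc := pcB1) (cut := Cut.none) (xt := Ext.none) (P1 := 536870912) (W1 := 536870912) (P2 := 0) (W2 := 536870912) (P3 := 536870912) (W3 := 50465866) (N0 := 3) (En := eng) (mo := mog) (C1 := cd4q1) (C2 := cd3q2a) (C3 := pd1)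
    rfl k0_pp_112_a

noncomputable def f_pp_112_b : ℕ → ℕ → ℕ → ℕ → Bool := onCell 536870912 536870912 1239849684 370763052 536870912 50465866
    (rowB 3 eng mog cd4q1 cd3q2b pd1 0 false true true .dn 1 1 2 (qsf 536870912 536870912 1239849684 370763052 1) ndB4q1 ndB3q2b pcB1 Cut.none Ext.none)

def k0_pp_112_b : ∃ t, chk3 f_pp_112_b t 1 1 1 = true :=
  ⟨(a (a (b (a (b (b (l 16769160) (l 16766024)) (l 16862392)) (b (l 16682608) (l 16840472))) (a (l 17126608) (l 17190208))) (b (b (a (l 16613256) (l 16552736)) (a (l 16778600) (l 16680192))) (b (a (l 17036456) (l 16960584)) (l 17397072)))) (b (a (b (l 1) (l 304439374487)) (l 1)) (a (b (l 16737808) (a (l 17252280) (l 17036976))) (b (l 352220712519) (l 16631632))))), by decide +kernel⟩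

theorem c_pp_112_b : CertB 536870912 536870912 1239849684 370763052 536870912 50465866 3 eng mog cd4q1 cd3q2b pd1 false true true .dn 1 1 2
    ndB4q1 ndB3q2b pcB1 Cut.none Ext.none :=
  certB0 (fam := false) (s1 := true) (s2 := true) (a := 1) (b := 1) (c := 2) (cn := .dn) (n1 := ndB4q1) (n2 := ndB3q2b) (pc := pcB1) (cut := Cut.none) (xt := Ext.none) (P1 := 536870912) (W1 := 536870912) (P2 := 1239849684) (W2 := 370763052) (P3 := 536870912) (W3 := 50465866) (N0 := 3) (En := eng) (mo := mog) (C1 := cd4q1) (C2 := cd3q2b) (C3 := pd1)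
    rfl k0_pp_112_b

noncomputable def f_pp_113 : ℕ → ℕ → ℕ → ℕ → Bool := onCell 536870912 536870912 1610612736 536870912 536870912 50465866
    (rowB 3 eng mog cd4q1 cd3q3 pd1 2 false true true .nn 1 1 3 (qsf 536870912 536870912 1610612736 536870912 1) ndB4q1 ndB3q3 pcB1 Cut.none Ext.none)

def k0_pp_113 : ∃ t, chk3 f_pp_113 t 1 1 1 = true :=
  ⟨(a (a (b (b (l 16898720) (l 644883420167)) (l 2)) (b (b (l 17335152) (l 17271272)) (b (l 17184480) (l 2)))) (b (a (l 17426416) (b (b (a (l 17744272) (l 17539472)) (l 17664472)) (l 17489328))) (a (l 17082960) (l 17090840)))), by decide +kernel⟩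

theorem c_pp_113 : CertB 536870912 536870912 1610612736 536870912 536870912 50465866 3 eng mog cd4q1 cd3q3 pd1 false true true .nn 1 1 3
    ndB4q1 ndB3q3 pcB1 Cut.none Ext.none :=
  certB2 (fam := false) (s1 := true) (s2 := true) (a := 1) (b := 1) (c := 3) (cn := .nn) (n1 := ndB4q1) (n2 := ndB3q3) (pc := pcB1) (cut := Cut.none) (xt := Ext.none) (P1 := 536870912) (W1 := 536870912) (P2 := 1610612736) (W2 := 536870912) (P3 := 536870912) (W3 := 50465866) (N0 := 3) (En := eng) (mo := mog) (C1 := cd4q1) (C2 := cd3q3) (C3 := pd1)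
    rfl (fun _ => rfl) k0_pp_113

noncomputable def f_pp_123 : ℕ → ℕ → ℕ → ℕ → Bool := onCell 536870912 536870912 1610612736 536870912 536870912 50465866
    (rowB 3 eng mog cd4q1 cd3q3 pd2 0 false true true .npn 1 2 3 (qsf 536870912 536870912 1610612736 536870912 2) ndB4q1 ndB3q3 pcB2 Cut.none Ext.none)

def k0_pp_123 : ∃ t, chk3 f_pp_123 t 1 1 1 = true :=
  ⟨(a (b (a (b (a (l 17369400) (l 17585448)) (a (l 17094448) (l 17262608))) (b (l 17926264) (l 17498672))) (a (b (a (l 16894064) (l 16985824)) (l 4)) (b (b (l 17231696) (l 17064056)) (b (l 16927872) (l 4))))) (b (b (l 1) (a (l 17616576) (l 1))) (b (a (l 17277304) (l 17272488)) (a (b (l 17001528) (l 16843328)) (b (l 17049976) (l 16868664)))))), by decide +kernel⟩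

theorem c_pp_123 : CertB 536870912 536870912 1610612736 536870912 536870912 50465866 3 eng mog cd4q1 cd3q3 pd2 false true true .npn 1 2 3
    ndB4q1 ndB3q3 pcB2 Cut.none Ext.none :=
  certB0 (fam := false) (s1 := true) (s2 := true) (a := 1) (b := 2) (c := 3) (cn := .npn) (n1 := ndB4q1) (n2 := ndB3q3) (pc := pcB2) (cut := Cut.none) (xt := Ext.none) (P1 := 536870912) (W1 := 536870912) (P2 := 1610612736) (W2 := 536870912) (P3 := 536870912) (W3 := 50465866) (N0 := 3) (En := eng) (mo := mog) (C1 := cd4q1) (C2 := cd3q3) (C3 := pd2)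
    rfl k0_pp_123

noncomputable def f_pp_133 : ℕ → ℕ → ℕ → ℕ → Bool := onCell 1610612736 536870912 1610612736 536870912 536870912 50465866
    (rowB 3 eng mog cd4q1 cd3q3 pd3 2 false true true .dn 1 3 3 (qsf 536870912 536870912 1610612736 536870912 3) ndB4q1 ndB3q3 pcB3 Cut.none Ext.none)

def k0_pp_133 : ∃ t, chk3 f_pp_133 t 1 1 1 = true :=
  ⟨(a (b (l 1) (b (l 1) (l 4))) (l 1)), by decide +kernel⟩

theorem c_pp_133 : CertB 536870912 536870912 1610612736 536870912 536870912 50465866 3 eng mog cd4q1 cd3q3 pd3 false true true .dn 1 3 3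
    ndB4q1 ndB3q3 pcB3 Cut.none Ext.none :=
  certB2 (fam := false) (s1 := true) (s2 := true) (a := 1) (b := 3) (c := 3) (cn := .dn) (n1 := ndB4q1) (n2 := ndB3q3) (pc := pcB3) (cut := Cut.none) (xt := Ext.none) (P1 := 536870912) (W1 := 536870912) (P2 := 1610612736) (W2 := 536870912) (P3 := 536870912) (W3 := 50465866) (N0 := 3) (En := eng) (mo := mog) (C1 := cd4q1) (C2 := cd3q3) (C3 := pd3)
    rfl (fun _ => rfl) k0_pp_133

noncomputable def f_pp_202_a : ℕ → ℕ → ℕ → ℕ → Bool := onCell 1073741824 536870912 0 536870912 536870912 50465866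
    (rowB 3 eng mog cd4q2 cd3q2a pd0 0 false true true .pp 2 0 2 (qsf 1073741824 536870912 0 536870912 0) ndB4q2 ndB3q2a pcB0 Cut.none Ext.none)

def k0_pp_202_a : ∃ t, chk3 f_pp_202_a t 1 1 1 = true :=
  ⟨(l 3), by decide +kernel⟩

theorem c_pp_202_a : CertB 1073741824 536870912 0 536870912 536870912 50465866 3 eng mog cd4q2 cd3q2a pd0 false true true .pp 2 0 2
    ndB4q2 ndB3q2a pcB0 Cut.none Ext.none :=
  certB0 (fam := false) (s1 := true) (s2 := true) (a := 2) (b := 0) (c := 2) (cn := .pp) (n1 := ndB4q2) (n2 := ndB3q2a) (pc := pcB0) (cut := Cut.none) (xt := Ext.none) (P1 := 1073741824) (W1 := 536870912) (P2 := 0) (W2 := 536870912) (P3 := 536870912) (W3 := 50465866) (N0 := 3) (En := eng) (mo := mog) (C1 := cd4q2) (C2 := cd3q2a) (C3 := pd0)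
    rfl k0_pp_202_a

noncomputable def f_pp_202_b : ℕ → ℕ → ℕ → ℕ → Bool := onCell 1073741824 536870912 1239849684 370763052 536870912 50465866
    (rowB 3 eng mog cd4q2 cd3q2b pd0 0 false true true .pp 2 0 2 (qsf 1073741824 536870912 1239849684 370763052 0) ndB4q2 ndB3q2b pcB0 Cut.none Ext.none)

def k0_pp_202_b : ∃ t, chk3 f_pp_202_b t 1 1 1 = true :=
  ⟨(l 3), by decide +kernel⟩

theorem c_pp_202_b : CertB 1073741824 536870912 1239849684 370763052 536870912 50465866 3 eng mog cd4q2 cd3q2b pd0 false true true .pp 2 0 2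
    ndB4q2 ndB3q2b pcB0 Cut.none Ext.none :=
  certB0 (fam := false) (s1 := true) (s2 := true) (a := 2) (b := 0) (c := 2) (cn := .pp) (n1 := ndB4q2) (n2 := ndB3q2b) (pc := pcB0) (cut := Cut.none) (xt := Ext.none) (P1 := 1073741824) (W1 := 536870912) (P2 := 1239849684) (W2 := 370763052) (P3 := 536870912) (W3 := 50465866) (N0 := 3) (En := eng) (mo := mog) (C1 := cd4q2) (C2 := cd3q2b) (C3 := pd0)
    rfl k0_pp_202_b

noncomputable def f_pp_203 : ℕ → ℕ → ℕ → ℕ → Bool := onCell 1073741824 536870912 0 536870912 536870912 50465866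
    (rowB 3 eng mog cd4q2 cd3q3 pd0 1 false true true .up 2 0 3 (qsf 1073741824 536870912 1610612736 536870912 0) ndB4q2 ndB3q3 pcB0 Cut.none Ext.none)

def k0_pp_203 : ∃ t, chk3 f_pp_203 t 1 1 1 = true :=
  ⟨(l 3), by decide +kernel⟩

theorem c_pp_203 : CertB 1073741824 536870912 1610612736 536870912 536870912 50465866 3 eng mog cd4q2 cd3q3 pd0 false true true .up 2 0 3
    ndB4q2 ndB3q3 pcB0 Cut.none Ext.none :=
  certB1 (fam := false) (s1 := true) (s2 := true) (a := 2) (b := 0) (c := 3) (cn := .up) (n1 := ndB4q2) (n2 := ndB3q3) (pc := pcB0) (cut := Cut.none) (xt := Ext.none) (P1 := 1073741824) (W1 := 536870912) (P2 := 1610612736) (W2 := 536870912) (P3 := 536870912) (W3 := 50465866) (N0 := 3) (En := eng) (mo := mog) (C1 := cd4q2) (C2 := cd3q3) (C3 := pd0)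
    rfl (fun _ => rfl) k0_pp_203

noncomputable def f_pp_213 : ℕ → ℕ → ℕ → ℕ → Bool := onCell 536870912 536870912 1610612736 536870912 536870912 50465866
    (rowB 3 eng mog cd4q2 cd3q3 pd1 2 false true true .pnn 2 1 3 (qsf 1073741824 536870912 1610612736 536870912 1) ndB4q2 ndB3q3 pcB1 Cut.none Ext.none)

def k0_pp_213 : ∃ t, chk3 f_pp_213 t 1 1 1 = true :=
  ⟨(a (b (l 3) (l 3)) (a (b (l 3) (b (a (l 3) (b (l 3) (a (l 3) (l 16902656)))) (a (b (l 3) (l 87677887447)) (b (a (l 16808152) (l 16833216)) (a (l 16760368) (l 16769992)))))) (b (l 1) (a (b (b (l 1) (a (l 16933424) (l 1))) (a (b (l 16858704) (l 16781744)) (l 16860824))) (b (l 1) (l 491271194167)))))), by decide +kernel⟩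

theorem c_pp_213 : CertB 1073741824 536870912 1610612736 536870912 536870912 50465866 3 eng mog cd4q2 cd3q3 pd1 false true true .pnn 2 1 3
    ndB4q2 ndB3q3 pcB1 Cut.none Ext.none :=
  certB2 (fam := false) (s1 := true) (s2 := true) (a := 2) (b := 1) (c := 3) (cn := .pnn) (n1 := ndB4q2) (n2 := ndB3q3) (pc := pcB1) (cut := Cut.none) (xt := Ext.none) (P1 := 1073741824) (W1 := 536870912) (P2 := 1610612736) (W2 := 536870912) (P3 := 536870912) (W3 := 50465866) (N0 := 3) (En := eng) (mo := mog) (C1 := cd4q2) (C2 := cd3q3) (C3 := pd1)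
    rfl (fun _ => rfl) k0_pp_213

noncomputable def f_pp_303 : ℕ → ℕ → ℕ → ℕ → Bool := onCell 0 1230186008 1610612736 536870912 536870912 50465866
    (rowB 3 eng mog cd4q3 cd3q3 pd0 0 false true true .npn 3 0 3 (qsf 0 1230186008 1610612736 536870912 0) ndB4q3 ndB3q3 pcB0 Cut.none Ext.none)

def k0_pp_303 : ∃ t, chk3 f_pp_303 t 1 1 1 = true :=
  ⟨(a (l 3) (l 3)), by decide +kernel⟩

theorem c_pp_303 : CertB 0 1230186008 1610612736 536870912 536870912 50465866 3 eng mog cd4q3 cd3q3 pd0 false true true .npn 3 0 3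
    ndB4q3 ndB3q3 pcB0 Cut.none Ext.none :=
  certB0 (fam := false) (s1 := true) (s2 := true) (a := 3) (b := 0) (c := 3) (cn := .npn) (n1 := ndB4q3) (n2 := ndB3q3) (pc := pcB0) (cut := Cut.none) (xt := Ext.none) (P1 := 0) (W1 := 1230186008) (P2 := 1610612736) (W2 := 536870912) (P3 := 536870912) (W3 := 50465866) (N0 := 3) (En := eng) (mo := mog) (C1 := cd4q3) (C2 := cd3q3) (C3 := pd0)
    rfl k0_pp_303

noncomputable def f_pp_313 : ℕ → ℕ → ℕ → ℕ → Bool := onCell 0 1230186008 1610612736 536870912 536870912 50465866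
    (rowB 3 eng mog cd4q3 cd3q3 pd1 0 false true true .dn 3 1 3 (qsf 0 1230186008 1610612736 536870912 1) ndB4q3 ndB3q3 pcB1 Cut.none Ext.none)

def k0_pp_313 : ∃ t, chk3 f_pp_313 t 1 1 1 = true :=
  ⟨(a (l 1) (l 3)), by decide +kernel⟩

theorem c_pp_313 : CertB 0 1230186008 1610612736 536870912 536870912 50465866 3 eng mog cd4q3 cd3q3 pd1 false true true .dn 3 1 3
    ndB4q3 ndB3q3 pcB1 Cut.none Ext.none :=
  certB0 (fam := false) (s1 := true) (s2 := true) (a := 3) (b := 1) (c := 3) (cn := .dn) (n1 := ndB4q3) (n2 := ndB3q3) (pc := pcB1) (cut := Cut.none) (xt := Ext.none) (P1 := 0) (W1 := 1230186008) (P2 := 1610612736) (W2 := 536870912) (P3 := 536870912) (W3 := 50465866) (N0 := 3) (En := eng) (mo := mog) (C1 := cd4q3) (C2 := cd3q3) (C3 := pd1)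
    rfl k0_pp_313

noncomputable def f_pm_001 : ℕ → ℕ → ℕ → ℕ → Bool := onCell 0 536870912 536870912 536870912 536870912 50465866
    (rowB 3 eng mog cd4q0 cd3q1 pd0 0 false true false .up 0 0 1 (qsf 0 536870912 536870912 536870912 0) ndB4q0 ndB3q1 pcB0 Cut.none Ext.none)

def k0_pm_001 : ∃ t, chk3 f_pm_001 t 1 1 1 = true :=
  ⟨(l 4), by decide +kernel⟩

theorem c_pm_001 : CertB 0 536870912 536870912 536870912 536870912 50465866 3 eng mog cd4q0 cd3q1 pd0 false true false .up 0 0 1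
    ndB4q0 ndB3q1 pcB0 Cut.none Ext.none :=
  certB0 (fam := false) (s1 := true) (s2 := false) (a := 0) (b := 0) (c := 1) (cn := .up) (n1 := ndB4q0) (n2 := ndB3q1) (pc := pcB0) (cut := Cut.none) (xt := Ext.none) (P1 := 0) (W1 := 536870912) (P2 := 536870912) (W2 := 536870912) (P3 := 536870912) (W3 := 50465866) (N0 := 3) (En := eng) (mo := mog) (C1 := cd4q0) (C2 := cd3q1) (C3 := pd0)
    rfl k0_pm_001

noncomputable def f_pm_011 : ℕ → ℕ → ℕ → ℕ → Bool := onCell 0 536870912 536870912 536870912 536870912 50465866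
    (rowB 3 eng mog cd4q0 cd3q1 pd1 0 false true false .pnn 0 1 1 (qsf 0 536870912 536870912 536870912 1) ndB4q0 ndB3q1 pcB1 Cut.none Ext.none)

def k0_pm_011 : ∃ t, chk3 f_pm_011 t 1 1 1 = true :=
  ⟨(l 4), by decide +kernel⟩

theorem c_pm_011 : CertB 0 536870912 536870912 536870912 536870912 50465866 3 eng mog cd4q0 cd3q1 pd1 false true false .pnn 0 1 1
    ndB4q0 ndB3q1 pcB1 Cut.none Ext.none :=
  certB0 (fam := false) (s1 := true) (s2 := false) (a := 0) (b := 1) (c := 1) (cn := .pnn) (n1 := ndB4q0) (n2 := ndB3q1) (pc := pcB1) (cut := Cut.none) (xt := Ext.none) (P1 := 0) (W1 := 536870912) (P2 := 536870912) (W2 := 536870912) (P3 := 536870912) (W3 := 50465866) (N0 := 3) (En := eng) (mo := mog) (C1 := cd4q0) (C2 := cd3q1) (C3 := pd1)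
    rfl k0_pm_011

noncomputable def f_pm_012_a : ℕ → ℕ → ℕ → ℕ → Bool := onCell 0 536870912 0 536870912 536870912 50465866
    (rowB 3 eng mog cd4q0 cd3q2a pd1 0 false true false .pnp 0 1 2 (qsf 0 536870912 0 536870912 1) ndB4q0 ndB3q2a pcB1 Cut.none Ext.none)

def k0_pm_012_a : ∃ t, chk3 f_pm_012_a t 1 1 1 = true :=
  ⟨(l 4), by decide +kernel⟩

theorem c_pm_012_a : CertB 0 536870912 0 536870912 536870912 50465866 3 eng mog cd4q0 cd3q2a pd1 false true false .pnp 0 1 2
    ndB4q0 ndB3q2a pcB1 Cut.none Ext.none :=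
  certB0 (fam := false) (s1 := true) (s2 := false) (a := 0) (b := 1) (c := 2) (cn := .pnp) (n1 := ndB4q0) (n2 := ndB3q2a) (pc := pcB1) (cut := Cut.none) (xt := Ext.none) (P1 := 0) (W1 := 536870912) (P2 := 0) (W2 := 536870912) (P3 := 536870912) (W3 := 50465866) (N0 := 3) (En := eng) (mo := mog) (C1 := cd4q0) (C2 := cd3q2a) (C3 := pd1)
    rfl k0_pm_012_a

noncomputable def f_pm_012_b : ℕ → ℕ → ℕ → ℕ → Bool := onCell 0 536870912 1239849684 370763052 536870912 50465866
    (rowB 3 eng mog cd4q0 cd3q2b pd1 0 false true false .pnp 0 1 2 (qsf 0 536870912 1239849684 370763052 1) ndB4q0 ndB3q2b pcB1 Cut.none Ext.none)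

def k0_pm_012_b : ∃ t, chk3 f_pm_012_b t 1 1 1 = true :=
  ⟨(l 4), by decide +kernel⟩

theorem c_pm_012_b : CertB 0 536870912 1239849684 370763052 536870912 50465866 3 eng mog cd4q0 cd3q2b pd1 false true false .pnp 0 1 2
    ndB4q0 ndB3q2b pcB1 Cut.none Ext.none :=
  certB0 (fam := false) (s1 := true) (s2 := false) (a := 0) (b := 1) (c := 2) (cn := .pnp) (n1 := ndB4q0) (n2 := ndB3q2b) (pc := pcB1) (cut := Cut.none) (xt := Ext.none) (P1 := 0) (W1 := 536870912) (P2 := 1239849684) (W2 := 370763052) (P3 := 536870912) (W3 := 50465866) (N0 := 3) (En := eng) (mo := mog) (C1 := cd4q0) (C2 := cd3q2b) (C3 := pd1)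
    rfl k0_pm_012_b

noncomputable def f_pm_022_a : ℕ → ℕ → ℕ → ℕ → Bool := onCell 0 536870912 0 536870912 536870912 50465866
    (rowB 3 eng mog cd4q0 cd3q2a pd2 0 false true false .pp 0 2 2 (qsf 0 536870912 0 536870912 2) ndB4q0 ndB3q2a pcB2 Cut.none Ext.none)

def k0_pm_022_a : ∃ t, chk3 f_pm_022_a t 1 1 1 = true :=
  ⟨(l 4), by decide +kernel⟩

theorem c_pm_022_a : CertB 0 536870912 0 536870912 536870912 50465866 3 eng mog cd4q0 cd3q2a pd2 false true false .pp 0 2 2
    ndB4q0 ndB3q2a pcB2 Cut.none Ext.none :=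
  certB0 (fam := false) (s1 := true) (s2 := false) (a := 0) (b := 2) (c := 2) (cn := .pp) (n1 := ndB4q0) (n2 := ndB3q2a) (pc := pcB2) (cut := Cut.none) (xt := Ext.none) (P1 := 0) (W1 := 536870912) (P2 := 0) (W2 := 536870912) (P3 := 536870912) (W3 := 50465866) (N0 := 3) (En := eng) (mo := mog) (C1 := cd4q0) (C2 := cd3q2a) (C3 := pd2)
    rfl k0_pm_022_a

noncomputable def f_pm_022_b : ℕ → ℕ → ℕ → ℕ → Bool := onCell 0 536870912 1239849684 370763052 536870912 50465866
    (rowB 3 eng mog cd4q0 cd3q2b pd2 0 false true false .pp 0 2 2 (qsf 0 536870912 1239849684 370763052 2) ndB4q0 ndB3q2b pcB2 Cut.none Ext.none)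

def k0_pm_022_b : ∃ t, chk3 f_pm_022_b t 1 1 1 = true :=
  ⟨(l 4), by decide +kernel⟩

theorem c_pm_022_b : CertB 0 536870912 1239849684 370763052 536870912 50465866 3 eng mog cd4q0 cd3q2b pd2 false true false .pp 0 2 2
    ndB4q0 ndB3q2b pcB2 Cut.none Ext.none :=
  certB0 (fam := false) (s1 := true) (s2 := false) (a := 0) (b := 2) (c := 2) (cn := .pp) (n1 := ndB4q0) (n2 := ndB3q2b) (pc := pcB2) (cut := Cut.none) (xt := Ext.none) (P1 := 0) (W1 := 536870912) (P2 := 1239849684) (W2 := 370763052) (P3 := 536870912) (W3 := 50465866) (N0 := 3) (En := eng) (mo := mog) (C1 := cd4q0) (C2 := cd3q2b) (C3 := pd2)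
    rfl k0_pm_022_b

noncomputable def f_pm_023 : ℕ → ℕ → ℕ → ℕ → Bool := onCell 0 536870912 1610612736 536870912 536870912 50465866
    (rowB 3 eng mog cd4q0 cd3q3 pd2 0 false true false .up 0 2 3 (qsf 0 536870912 1610612736 536870912 2) ndB4q0 ndB3q3 pcB2 Cut.none Ext.none)

def k0_pm_023 : ∃ t, chk3 f_pm_023 t 1 1 1 = true :=
  ⟨(l 4), by decide +kernel⟩

theorem c_pm_023 : CertB 0 536870912 1610612736 536870912 536870912 50465866 3 eng mog cd4q0 cd3q3 pd2 false true false .up 0 2 3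
    ndB4q0 ndB3q3 pcB2 Cut.none Ext.none :=
  certB0 (fam := false) (s1 := true) (s2 := false) (a := 0) (b := 2) (c := 3) (cn := .up) (n1 := ndB4q0) (n2 := ndB3q3) (pc := pcB2) (cut := Cut.none) (xt := Ext.none) (P1 := 0) (W1 := 536870912) (P2 := 1610612736) (W2 := 536870912) (P3 := 536870912) (W3 := 50465866) (N0 := 3) (En := eng) (mo := mog) (C1 := cd4q0) (C2 := cd3q3) (C3 := pd2)
    rfl k0_pm_023

noncomputable def f_pm_033 : ℕ → ℕ → ℕ → ℕ → Bool := onCell 0 536870912 1610612736 536870912 536870912 50465866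
    (rowB 3 eng mog cd4q0 cd3q3 pd3 0 false true false .pnn 0 3 3 (qsf 0 536870912 1610612736 536870912 3) ndB4q0 ndB3q3 pcB3 Cut.none Ext.none)

def k0_pm_033 : ∃ t, chk3 f_pm_033 t 1 1 1 = true :=
  ⟨(l 4), by decide +kernel⟩

theorem c_pm_033 : CertB 0 536870912 1610612736 536870912 536870912 50465866 3 eng mog cd4q0 cd3q3 pd3 false true false .pnn 0 3 3
    ndB4q0 ndB3q3 pcB3 Cut.none Ext.none :=
  certB0 (fam := false) (s1 := true) (s2 := false) (a := 0) (b := 3) (c := 3) (cn := .pnn) (n1 := ndB4q0) (n2 := ndB3q3) (pc := pcB3) (cut := Cut.none) (xt := Ext.none) (P1 := 0) (W1 := 536870912) (P2 := 1610612736) (W2 := 536870912) (P3 := 536870912) (W3 := 50465866) (N0 := 3) (En := eng) (mo := mog) (C1 := cd4q0) (C2 := cd3q3) (C3 := pd3)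
    rfl k0_pm_033

noncomputable def f_pm_101 : ℕ → ℕ → ℕ → ℕ → Bool := onCell 536870912 536870912 536870912 536870912 536870912 50465866
    (rowB 3 eng mog cd4q1 cd3q1 pd0 0 false true false .npn 1 0 1 (qsf 536870912 536870912 536870912 536870912 0) ndB4q1 ndB3q1 pcB0 Cut.none Ext.none)

def k0_pm_101 : ∃ t, chk3 f_pm_101 t 1 1 1 = true :=
  ⟨(l 4), by decide +kernel⟩

theorem c_pm_101 : CertB 536870912 536870912 536870912 536870912 536870912 50465866 3 eng mog cd4q1 cd3q1 pd0 false true false .npn 1 0 1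
    ndB4q1 ndB3q1 pcB0 Cut.none Ext.none :=
  certB0 (fam := false) (s1 := true) (s2 := false) (a := 1) (b := 0) (c := 1) (cn := .npn) (n1 := ndB4q1) (n2 := ndB3q1) (pc := pcB0) (cut := Cut.none) (xt := Ext.none) (P1 := 536870912) (W1 := 536870912) (P2 := 536870912) (W2 := 536870912) (P3 := 536870912) (W3 := 50465866) (N0 := 3) (En := eng) (mo := mog) (C1 := cd4q1) (C2 := cd3q1) (C3 := pd0)
    rfl k0_pm_101

noncomputable def f_pm_102_a : ℕ → ℕ → ℕ → ℕ → Bool := onCell 536870912 536870912 0 536870912 536870912 50465866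
    (rowB 3 eng mog cd4q1 cd3q2a pd0 0 false true false .npp 1 0 2 (qsf 536870912 536870912 0 536870912 0) ndB4q1 ndB3q2a pcB0 Cut.none Ext.none)

def k0_pm_102_a : ∃ t, chk3 f_pm_102_a t 1 1 1 = true :=
  ⟨(l 4), by decide +kernel⟩

theorem c_pm_102_a : CertB 536870912 536870912 0 536870912 536870912 50465866 3 eng mog cd4q1 cd3q2a pd0 false true false .npp 1 0 2
    ndB4q1 ndB3q2a pcB0 Cut.none Ext.none :=
  certB0 (fam := false) (s1 := true) (s2 := false) (a := 1) (b := 0) (c := 2) (cn := .npp) (n1 := ndB4q1) (n2 := ndB3q2a) (pc := pcB0) (cut := Cut.none) (xt := Ext.none) (P1 := 536870912) (W1 := 536870912) (P2 := 0) (W2 := 536870912) (P3 := 536870912) (W3 := 50465866) (N0 := 3) (En := eng) (mo := mog) (C1 := cd4q1) (C2 := cd3q2a) (C3 := pd0)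
    rfl k0_pm_102_a

noncomputable def f_pm_102_b : ℕ → ℕ → ℕ → ℕ → Bool := onCell 536870912 536870912 1239849684 370763052 536870912 50465866
    (rowB 3 eng mog cd4q1 cd3q2b pd0 0 false true false .npp 1 0 2 (qsf 536870912 536870912 1239849684 370763052 0) ndB4q1 ndB3q2b pcB0 Cut.none Ext.none)

def k0_pm_102_b : ∃ t, chk3 f_pm_102_b t 1 1 1 = true :=
  ⟨(l 4), by decide +kernel⟩

theorem c_pm_102_b : CertB 536870912 536870912 1239849684 370763052 536870912 50465866 3 eng mog cd4q1 cd3q2b pd0 false true false .npp 1 0 2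
    ndB4q1 ndB3q2b pcB0 Cut.none Ext.none :=
  certB0 (fam := false) (s1 := true) (s2 := false) (a := 1) (b := 0) (c := 2) (cn := .npp) (n1 := ndB4q1) (n2 := ndB3q2b) (pc := pcB0) (cut := Cut.none) (xt := Ext.none) (P1 := 536870912) (W1 := 536870912) (P2 := 1239849684) (W2 := 370763052) (P3 := 536870912) (W3 := 50465866) (N0 := 3) (En := eng) (mo := mog) (C1 := cd4q1) (C2 := cd3q2b) (C3 := pd0)
    rfl k0_pm_102_b

noncomputable def f_pm_112_a : ℕ → ℕ → ℕ → ℕ → Bool := onCell 536870912 536870912 0 536870912 536870912 50465866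
    (rowB 3 eng mog cd4q1 cd3q2a pd1 0 false true false .dn 1 1 2 (qsf 536870912 536870912 0 536870912 1) ndB4q1 ndB3q2a pcB1 Cut.none Ext.none)

def k0_pm_112_a : ∃ t, chk3 f_pm_112_a t 1 1 1 = true :=
  ⟨(l 4), by decide +kernel⟩

theorem c_pm_112_a : CertB 536870912 536870912 0 536870912 536870912 50465866 3 eng mog cd4q1 cd3q2a pd1 false true false .dn 1 1 2
    ndB4q1 ndB3q2a pcB1 Cut.none Ext.none :=
  certB0 (fam := false) (s1 := true) (s2 := false) (a := 1) (b := 1) (c := 2) (cn := .dn) (n1 := ndB4q1) (n2 := ndB3q2a) (pc := pcB1) (cut := Cut.none) (xt := Ext.none) (P1 := 536870912) (W1 := 536870912) (P2 := 0) (W2 := 536870912) (P3 := 536870912) (W3 := 50465866) (N0 := 3) (En := eng) (mo := mog) (C1 := cd4q1) (C2 := cd3q2a) (C3 := pd1)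
    rfl k0_pm_112_a

noncomputable def f_pm_112_b : ℕ → ℕ → ℕ → ℕ → Bool := onCell 536870912 536870912 1239849684 370763052 536870912 50465866
    (rowB 3 eng mog cd4q1 cd3q2b pd1 0 false true false .dn 1 1 2 (qsf 536870912 536870912 1239849684 370763052 1) ndB4q1 ndB3q2b pcB1 Cut.none Ext.none)

def k0_pm_112_b : ∃ t, chk3 f_pm_112_b t 1 1 1 = true :=
  ⟨(l 4), by decide +kernel⟩

theorem c_pm_112_b : CertB 536870912 536870912 1239849684 370763052 536870912 50465866 3 eng mog cd4q1 cd3q2b pd1 false true false .dn 1 1 2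
    ndB4q1 ndB3q2b pcB1 Cut.none Ext.none :=
  certB0 (fam := false) (s1 := true) (s2 := false) (a := 1) (b := 1) (c := 2) (cn := .dn) (n1 := ndB4q1) (n2 := ndB3q2b) (pc := pcB1) (cut := Cut.none) (xt := Ext.none) (P1 := 536870912) (W1 := 536870912) (P2 := 1239849684) (W2 := 370763052) (P3 := 536870912) (W3 := 50465866) (N0 := 3) (En := eng) (mo := mog) (C1 := cd4q1) (C2 := cd3q2b) (C3 := pd1)
    rfl k0_pm_112_b

noncomputable def f_pm_113 : ℕ → ℕ → ℕ → ℕ → Bool := onCell 536870912 536870912 536870912 536870912 536870912 50465866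
    (rowB 3 eng mog cd4q1 cd3q3 pd1 1 false true false .nn 1 1 3 (qsf 536870912 536870912 1610612736 536870912 1) ndB4q1 ndB3q3 pcB1 Cut.none Ext.none)

def k0_pm_113 : ∃ t, chk3 f_pm_113 t 1 1 1 = true :=
  ⟨(a (l 4) (b (l 4) (b (l 4) (l 17318888)))), by decide +kernel⟩

theorem c_pm_113 : CertB 536870912 536870912 1610612736 536870912 536870912 50465866 3 eng mog cd4q1 cd3q3 pd1 false true false .nn 1 1 3
    ndB4q1 ndB3q3 pcB1 Cut.none Ext.none :=
  certB1 (fam := false) (s1 := true) (s2 := false) (a := 1) (b := 1) (c := 3) (cn := .nn) (n1 := ndB4q1) (n2 := ndB3q3) (pc := pcB1) (cut := Cut.none) (xt := Ext.none) (P1 := 536870912) (W1 := 536870912) (P2 := 1610612736) (W2 := 536870912) (P3 := 536870912) (W3 := 50465866) (N0 := 3) (En := eng) (mo := mog) (C1 := cd4q1) (C2 := cd3q3) (C3 := pd1)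
    rfl (fun _ => rfl) k0_pm_113

noncomputable def f_pm_123 : ℕ → ℕ → ℕ → ℕ → Bool := onCell 1073741824 536870912 1610612736 536870912 536870912 50465866
    (rowB 3 eng mog cd4q1 cd3q3 pd2 2 false true false .npn 1 2 3 (qsf 536870912 536870912 1610612736 536870912 2) ndB4q1 ndB3q3 pcB2 Cut.none Ext.none)

def k0_pm_123 : ∃ t, chk3 f_pm_123 t 1 1 1 = true :=
  ⟨(a (b (l 4) (a (l 172571599687) (l 4))) (l 4)), by decide +kernel⟩

theorem c_pm_123 : CertB 536870912 536870912 1610612736 536870912 536870912 50465866 3 eng mog cd4q1 cd3q3 pd2 false true false .npn 1 2 3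
    ndB4q1 ndB3q3 pcB2 Cut.none Ext.none :=
  certB2 (fam := false) (s1 := true) (s2 := false) (a := 1) (b := 2) (c := 3) (cn := .npn) (n1 := ndB4q1) (n2 := ndB3q3) (pc := pcB2) (cut := Cut.none) (xt := Ext.none) (P1 := 536870912) (W1 := 536870912) (P2 := 1610612736) (W2 := 536870912) (P3 := 536870912) (W3 := 50465866) (N0 := 3) (En := eng) (mo := mog) (C1 := cd4q1) (C2 := cd3q3) (C3 := pd2)
    rfl (fun _ => rfl) k0_pm_123

noncomputable def f_pm_133 : ℕ → ℕ → ℕ → ℕ → Bool := onCell 536870912 536870912 1610612736 536870912 536870912 50465866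
    (rowB 3 eng mog cd4q1 cd3q3 pd3 0 false true false .dn 1 3 3 (qsf 536870912 536870912 1610612736 536870912 3) ndB4q1 ndB3q3 pcB3 Cut.none Ext.none)

def k0_pm_133 : ∃ t, chk3 f_pm_133 t 1 1 1 = true :=
  ⟨(a (l 4) (l 1)), by decide +kernel⟩

theorem c_pm_133 : CertB 536870912 536870912 1610612736 536870912 536870912 50465866 3 eng mog cd4q1 cd3q3 pd3 false true false .dn 1 3 3
    ndB4q1 ndB3q3 pcB3 Cut.none Ext.none :=
  certB0 (fam := false) (s1 := true) (s2 := false) (a := 1) (b := 3) (c := 3) (cn := .dn) (n1 := ndB4q1) (n2 := ndB3q3) (pc := pcB3) (cut := Cut.none) (xt := Ext.none) (P1 := 536870912) (W1 := 536870912) (P2 := 1610612736) (W2 := 536870912) (P3 := 536870912) (W3 := 50465866) (N0 := 3) (En := eng) (mo := mog) (C1 := cd4q1) (C2 := cd3q3) (C3 := pd3)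
    rfl k0_pm_133

noncomputable def f_pm_202_a : ℕ → ℕ → ℕ → ℕ → Bool := onCell 0 536870912 0 536870912 536870912 50465866
    (rowB 3 eng mog cd4q2 cd3q2a pd0 2 false true false .pp 2 0 2 (qsf 1073741824 536870912 0 536870912 0) ndB4q2 ndB3q2a pcB0 Cut.none Ext.none)

def k0_pm_202_a : ∃ t, chk3 f_pm_202_a t 1 1 1 = true :=
  ⟨(a (a (b (a (b (l 16568592) (l 16711040)) (b (l 16592304) (l 16628368))) (b (b (a (l 16870376) (l 16664128)) (a (a (l 16659704) (l 16669568)) (a (l 16684320) (l 16705152)))) (a (b (a (b (l 16679128) (l 16692040)) (b (l 16690072) (l 205655113447))) (a (b (a (l 16701576) (l 16709592)) (a (l 16716776) (l 342557197287))) (b (a (l 326451039975) (l 1)) (l 1)))) (b (a (b (l 16709600) (l 1)) (l 1)) (l 1))))) (a (b (b (l 16620256) (l 213171576727)) (b (l 1) (l 1))) (b (l 1) (l 1)))) (l 1)), by decide +kernel⟩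

theorem c_pm_202_a : CertB 1073741824 536870912 0 536870912 536870912 50465866 3 eng mog cd4q2 cd3q2a pd0 false true false .pp 2 0 2
    ndB4q2 ndB3q2a pcB0 Cut.none Ext.none :=
  certB2 (fam := false) (s1 := true) (s2 := false) (a := 2) (b := 0) (c := 2) (cn := .pp) (n1 := ndB4q2) (n2 := ndB3q2a) (pc := pcB0) (cut := Cut.none) (xt := Ext.none) (P1 := 1073741824) (W1 := 536870912) (P2 := 0) (W2 := 536870912) (P3 := 536870912) (W3 := 50465866) (N0 := 3) (En := eng) (mo := mog) (C1 := cd4q2) (C2 := cd3q2a) (C3 := pd0)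
    rfl (fun _ => rfl) k0_pm_202_a

noncomputable def f_pm_202_b : ℕ → ℕ → ℕ → ℕ → Bool := onCell 0 536870912 1239849684 370763052 536870912 50465866
    (rowB 3 eng mog cd4q2 cd3q2b pd0 2 false true false .pp 2 0 2 (qsf 1073741824 536870912 1239849684 370763052 0) ndB4q2 ndB3q2b pcB0 Cut.none Ext.none)

def k0_pm_202_b : ∃ t, chk3 f_pm_202_b t 1 1 1 = true :=
  ⟨(a (b (a (b (a (b (a (l 16512056) (l 16525864)) (l 16427632)) (b (l 16546736) (l 16474304))) (a (b (l 16343432) (l 16342664)) (b (l 16383744) (a (l 16309344) (l 16280400))))) (b (a (a (l 16536872) (l 16548440)) (b (l 242699349047) (l 16531976))) (a (a (l 16493368) (l 16401896)) (l 16492824)))) (a (b (a (b (l 16357488) (a (l 16378168) (l 16367160))) (b (a (l 16328664) (l 16296800)) (a (l 16350752) (l 16323136)))) (a (b (a (b (a (a (l 16382960) (l 16379624)) (l 16375440)) (a (b (l 140290226647) (l 346985496487)) (l 139753404471))) (b (l 16366752) (l 16368544))) (a (b (l 338932541415) (l 3))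 (l 138679733239))) (b (a (l 16354144) (l 16334280)) (a (l 16361400) (l 16342752))))) (b (a (b (l 16235232) (l 16257768)) (l 16331048)) (a (b (l 16280064) (l 16386216)) (l 16356696))))) (a (b (b (l 1) (a (l 84322178199) (l 259342244935))) (b (a (l 16317928) (l 16432816)) (a (b (l 16262696) (l 16212480)) (l 16361944)))) (b (l 1) (b (a (l 16541152) (l 1)) (l 10234162279))))), by decide +kernel⟩

theorem c_pm_202_b : CertB 1073741824 536870912 1239849684 370763052 536870912 50465866 3 eng mog cd4q2 cd3q2b pd0 false true false .pp 2 0 2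
    ndB4q2 ndB3q2b pcB0 Cut.none Ext.none :=
  certB2 (fam := false) (s1 := true) (s2 := false) (a := 2) (b := 0) (c := 2) (cn := .pp) (n1 := ndB4q2) (n2 := ndB3q2b) (pc := pcB0) (cut := Cut.none) (xt := Ext.none) (P1 := 1073741824) (W1 := 536870912) (P2 := 1239849684) (W2 := 370763052) (P3 := 536870912) (W3 := 50465866) (N0 := 3) (En := eng) (mo := mog) (C1 := cd4q2) (C2 := cd3q2b) (C3 := pd0)
    rfl (fun _ => rfl) k0_pm_202_b

noncomputable def f_pm_203 : ℕ → ℕ → ℕ → ℕ → Bool := onCell 0 536870912 1610612736 536870912 536870912 50465866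
    (rowB 3 eng mog cd4q2 cd3q3 pd0 2 false true false .up 2 0 3 (qsf 1073741824 536870912 1610612736 536870912 0) ndB4q2 ndB3q3 pcB0 Cut.none Ext.none)

def k0_pm_203 : ∃ t, chk3 f_pm_203 t 1 1 1 = true :=
  ⟨(a (b (a (b (a (l 3) (b (b (l 307257284391) (l 3)) (l 3))) (l 3)) (b (a (b (a (l 16427000) (l 16355560)) (a (l 3) (l 16463952))) (b (a (l 16316080) (l 16259968)) (a (l 16431368) (l 16405912)))) (l 3))) (a (l 2) (l 3))) (b (a (b (a (b (l 16124808) (a (l 16377976) (l 16359272))) (b (l 16255632) (l 16354856))) (a (b (l 16681320) (l 3)) (b (a (l 16515504) (l 16508872)) (l 16682400)))) (b (a (l 16633104) (l 16530216)) (a (b (l 16516008) (l 16611752)) (b (l 16570360) (l 16622016))))) (a (l 3) (b (a (b (l 16678432) (l 3)) (l 56002799495)) (l 3))))), by decide +kernel⟩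

theorem c_pm_203 : CertB 1073741824 536870912 1610612736 536870912 536870912 50465866 3 eng mog cd4q2 cd3q3 pd0 false true false .up 2 0 3
    ndB4q2 ndB3q3 pcB0 Cut.none Ext.none :=
  certB2 (fam := false) (s1 := true) (s2 := false) (a := 2) (b := 0) (c := 3) (cn := .up) (n1 := ndB4q2) (n2 := ndB3q3) (pc := pcB0) (cut := Cut.none) (xt := Ext.none) (P1 := 1073741824) (W1 := 536870912) (P2 := 1610612736) (W2 := 536870912) (P3 := 536870912) (W3 := 50465866) (N0 := 3) (En := eng) (mo := mog) (C1 := cd4q2) (C2 := cd3q3) (C3 := pd0)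
    rfl (fun _ => rfl) k0_pm_203

noncomputable def f_pm_213 : ℕ → ℕ → ℕ → ℕ → Bool := onCell 1073741824 536870912 536870912 536870912 536870912 50465866
    (rowB 3 eng mog cd4q2 cd3q3 pd1 1 false true false .pnn 2 1 3 (qsf 1073741824 536870912 1610612736 536870912 1) ndB4q2 ndB3q3 pcB1 Cut.none Ext.none)

def k0_pm_213 : ∃ t, chk3 f_pm_213 t 1 1 1 = true :=
  ⟨(a (b (b (a (b (l 16726768) (l 16869200)) (a (l 16727416) (b (l 16685928) (l 16737264)))) (a (b (l 16952824) (l 16951104)) (b (l 16773712) (b (l 16777056) (l 16770576))))) (a (b (l 16926816) (a (l 16809248) (b (l 16742040) (l 542340579511)))) (b (b (a (l 16917528) (l 278737105207)) (a (l 16714168) (l 472546875671))) (a (b (l 587437714023) (l 2)) (l 2))))) (b (a (b (b (l 16722776) (l 16746200)) (b (l 127406636087) (a (l 16752272) (l 3)))) (b (l 3) (a (b (l 3) (l 2)) (l 2)))) (a (b (a (b (l 3) (l 2)) (l 2)) (l 2)) (l 2)))), by decide +kernel⟩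

theorem c_pm_213 : CertB 1073741824 536870912 1610612736 536870912 536870912 50465866 3 eng mog cd4q2 cd3q3 pd1 false true false .pnn 2 1 3
    ndB4q2 ndB3q3 pcB1 Cut.none Ext.none :=
  certB1 (fam := false) (s1 := true) (s2 := false) (a := 2) (b := 1) (c := 3) (cn := .pnn) (n1 := ndB4q2) (n2 := ndB3q3) (pc := pcB1) (cut := Cut.none) (xt := Ext.none) (P1 := 1073741824) (W1 := 536870912) (P2 := 1610612736) (W2 := 536870912) (P3 := 536870912) (W3 := 50465866) (N0 := 3) (En := eng) (mo := mog) (C1 := cd4q2) (C2 := cd3q3) (C3 := pd1)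
    rfl (fun _ => rfl) k0_pm_213

noncomputable def f_pm_303 : ℕ → ℕ → ℕ → ℕ → Bool := onCell 0 1230186008 1610612736 536870912 536870912 50465866
    (rowB 3 eng mog cd4q3 cd3q3 pd0 0 false true false .npn 3 0 3 (qsf 0 1230186008 1610612736 536870912 0) ndB4q3 ndB3q3 pcB0 Cut.none Ext.none)

def k0_pm_303 : ∃ t, chk3 f_pm_303 t 1 1 1 = true :=
  ⟨(a (l 3) (a (l 3) (b (l 3) (l 3)))), by decide +kernel⟩

theorem c_pm_303 : CertB 0 1230186008 1610612736 536870912 536870912 50465866 3 eng mog cd4q3 cd3q3 pd0 false true false .npn 3 0 3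
    ndB4q3 ndB3q3 pcB0 Cut.none Ext.none :=
  certB0 (fam := false) (s1 := true) (s2 := false) (a := 3) (b := 0) (c := 3) (cn := .npn) (n1 := ndB4q3) (n2 := ndB3q3) (pc := pcB0) (cut := Cut.none) (xt := Ext.none) (P1 := 0) (W1 := 1230186008) (P2 := 1610612736) (W2 := 536870912) (P3 := 536870912) (W3 := 50465866) (N0 := 3) (En := eng) (mo := mog) (C1 := cd4q3) (C2 := cd3q3) (C3 := pd0)
    rfl k0_pm_303

noncomputable def f_pm_313 : ℕ → ℕ → ℕ → ℕ → Bool := onCell 0 1230186008 1610612736 536870912 536870912 50465866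
    (rowB 3 eng mog cd4q3 cd3q3 pd1 0 false true false .dn 3 1 3 (qsf 0 1230186008 1610612736 536870912 1) ndB4q3 ndB3q3 pcB1 Cut.none Ext.none)

def k0_pm_313 : ∃ t, chk3 f_pm_313 t 1 1 1 = true :=
  ⟨(a (l 1) (b (l 1) (l 3))), by decide +kernel⟩

theorem c_pm_313 : CertB 0 1230186008 1610612736 536870912 536870912 50465866 3 eng mog cd4q3 cd3q3 pd1 false true false .dn 3 1 3
    ndB4q3 ndB3q3 pcB1 Cut.none Ext.none :=
  certB0 (fam := false) (s1 := true) (s2 := false) (a := 3) (b := 1) (c := 3) (cn := .dn) (n1 := ndB4q3) (n2 := ndB3q3) (pc := pcB1) (cut := Cut.none) (xt := Ext.none) (P1 := 0) (W1 := 1230186008) (P2 := 1610612736) (W2 := 536870912) (P3 := 536870912) (W3 := 50465866) (N0 := 3) (En := eng) (mo := mog) (C1 := cd4q3) (C2 := cd3q3) (C3 := pd1)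
    rfl k0_pm_313

noncomputable def f_mm_001 : ℕ → ℕ → ℕ → ℕ → Bool := onCell 0 536870912 536870912 536870912 536870912 50465866
    (rowB 3 eng mog cd4q0 cd3q1 pd0 0 false false false .up 0 0 1 (qsf 0 536870912 536870912 536870912 0) ndB4q0 ndB3q1 pcB0 Cut.none Ext.none)

def k0_mm_001 : ∃ t, chk3 f_mm_001 t 1 1 1 = true :=
  ⟨(l 3), by decide +kernel⟩

theorem c_mm_001 : CertB 0 536870912 536870912 536870912 536870912 50465866 3 eng mog cd4q0 cd3q1 pd0 false false false .up 0 0 1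
    ndB4q0 ndB3q1 pcB0 Cut.none Ext.none :=
  certB0 (fam := false) (s1 := false) (s2 := false) (a := 0) (b := 0) (c := 1) (cn := .up) (n1 := ndB4q0) (n2 := ndB3q1) (pc := pcB0) (cut := Cut.none) (xt := Ext.none) (P1 := 0) (W1 := 536870912) (P2 := 536870912) (W2 := 536870912) (P3 := 536870912) (W3 := 50465866) (N0 := 3) (En := eng) (mo := mog) (C1 := cd4q0) (C2 := cd3q1) (C3 := pd0)
    rfl k0_mm_001

noncomputable def f_mm_011 : ℕ → ℕ → ℕ → ℕ → Bool := onCell 0 536870912 536870912 536870912 536870912 50465866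
    (rowB 3 eng mog cd4q0 cd3q1 pd1 0 false false false .pnn 0 1 1 (qsf 0 536870912 536870912 536870912 1) ndB4q0 ndB3q1 pcB1 Cut.none Ext.none)

def k0_mm_011 : ∃ t, chk3 f_mm_011 t 1 1 1 = true :=
  ⟨(l 3), by decide +kernel⟩

theorem c_mm_011 : CertB 0 536870912 536870912 536870912 536870912 50465866 3 eng mog cd4q0 cd3q1 pd1 false false false .pnn 0 1 1
    ndB4q0 ndB3q1 pcB1 Cut.none Ext.none :=
  certB0 (fam := false) (s1 := false) (s2 := false) (a := 0) (b := 1) (c := 1) (cn := .pnn) (n1 := ndB4q0) (n2 := ndB3q1) (pc := pcB1) (cut := Cut.none) (xt := Ext.none) (P1 := 0) (W1 := 536870912) (P2 := 536870912) (W2 := 536870912) (P3 := 536870912) (W3 := 50465866) (N0 := 3) (En := eng) (mo := mog) (C1 := cd4q0) (C2 := cd3q1) (C3 := pd1)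
    rfl k0_mm_011

noncomputable def f_mm_012_a : ℕ → ℕ → ℕ → ℕ → Bool := onCell 0 536870912 0 536870912 536870912 50465866
    (rowB 3 eng mog cd4q0 cd3q2a pd1 0 false false false .pnp 0 1 2 (qsf 0 536870912 0 536870912 1) ndB4q0 ndB3q2a pcB1 Cut.none Ext.none)

def k0_mm_012_a : ∃ t, chk3 f_mm_012_a t 1 1 1 = true :=
  ⟨(l 5), by decide +kernel⟩

theorem c_mm_012_a : CertB 0 536870912 0 536870912 536870912 50465866 3 eng mog cd4q0 cd3q2a pd1 false false false .pnp 0 1 2
    ndB4q0 ndB3q2a pcB1 Cut.none Ext.none :=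
  certB0 (fam := false) (s1 := false) (s2 := false) (a := 0) (b := 1) (c := 2) (cn := .pnp) (n1 := ndB4q0) (n2 := ndB3q2a) (pc := pcB1) (cut := Cut.none) (xt := Ext.none) (P1 := 0) (W1 := 536870912) (P2 := 0) (W2 := 536870912) (P3 := 536870912) (W3 := 50465866) (N0 := 3) (En := eng) (mo := mog) (C1 := cd4q0) (C2 := cd3q2a) (C3 := pd1)
    rfl k0_mm_012_a

noncomputable def f_mm_012_b : ℕ → ℕ → ℕ → ℕ → Bool := onCell 0 536870912 1239849684 370763052 536870912 50465866
    (rowB 3 eng mog cd4q0 cd3q2b pd1 0 false false false .pnp 0 1 2 (qsf 0 536870912 1239849684 370763052 1) ndB4q0 ndB3q2b pcB1 Cut.none Ext.none)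

def k0_mm_012_b : ∃ t, chk3 f_mm_012_b t 1 1 1 = true :=
  ⟨(l 5), by decide +kernel⟩

theorem c_mm_012_b : CertB 0 536870912 1239849684 370763052 536870912 50465866 3 eng mog cd4q0 cd3q2b pd1 false false false .pnp 0 1 2
    ndB4q0 ndB3q2b pcB1 Cut.none Ext.none :=
  certB0 (fam := false) (s1 := false) (s2 := false) (a := 0) (b := 1) (c := 2) (cn := .pnp) (n1 := ndB4q0) (n2 := ndB3q2b) (pc := pcB1) (cut := Cut.none) (xt := Ext.none) (P1 := 0) (W1 := 536870912) (P2 := 1239849684) (W2 := 370763052) (P3 := 536870912) (W3 := 50465866) (N0 := 3) (En := eng) (mo := mog) (C1 := cd4q0) (C2 := cd3q2b) (C3 := pd1)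
    rfl k0_mm_012_b

noncomputable def f_mm_022_a : ℕ → ℕ → ℕ → ℕ → Bool := onCell 0 536870912 0 536870912 536870912 50465866
    (rowB 3 eng mog cd4q0 cd3q2a pd2 0 false false false .pp 0 2 2 (qsf 0 536870912 0 536870912 2) ndB4q0 ndB3q2a pcB2 Cut.none Ext.none)

def k0_mm_022_a : ∃ t, chk3 f_mm_022_a t 1 1 1 = true :=
  ⟨(l 5), by decide +kernel⟩

theorem c_mm_022_a : CertB 0 536870912 0 536870912 536870912 50465866 3 eng mog cd4q0 cd3q2a pd2 false false false .pp 0 2 2
    ndB4q0 ndB3q2a pcB2 Cut.none Ext.none :=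
  certB0 (fam := false) (s1 := false) (s2 := false) (a := 0) (b := 2) (c := 2) (cn := .pp) (n1 := ndB4q0) (n2 := ndB3q2a) (pc := pcB2) (cut := Cut.none) (xt := Ext.none) (P1 := 0) (W1 := 536870912) (P2 := 0) (W2 := 536870912) (P3 := 536870912) (W3 := 50465866) (N0 := 3) (En := eng) (mo := mog) (C1 := cd4q0) (C2 := cd3q2a) (C3 := pd2)
    rfl k0_mm_022_a

noncomputable def f_mm_022_b : ℕ → ℕ → ℕ → ℕ → Bool := onCell 0 536870912 1239849684 370763052 536870912 50465866
    (rowB 3 eng mog cd4q0 cd3q2b pd2 0 false false false .pp 0 2 2 (qsf 0 536870912 1239849684 370763052 2) ndB4q0 ndB3q2b pcB2 Cut.none Ext.none)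

def k0_mm_022_b : ∃ t, chk3 f_mm_022_b t 1 1 1 = true :=
  ⟨(l 5), by decide +kernel⟩

theorem c_mm_022_b : CertB 0 536870912 1239849684 370763052 536870912 50465866 3 eng mog cd4q0 cd3q2b pd2 false false false .pp 0 2 2
    ndB4q0 ndB3q2b pcB2 Cut.none Ext.none :=
  certB0 (fam := false) (s1 := false) (s2 := false) (a := 0) (b := 2) (c := 2) (cn := .pp) (n1 := ndB4q0) (n2 := ndB3q2b) (pc := pcB2) (cut := Cut.none) (xt := Ext.none) (P1 := 0) (W1 := 536870912) (P2 := 1239849684) (W2 := 370763052) (P3 := 536870912) (W3 := 50465866) (N0 := 3) (En := eng) (mo := mog) (C1 := cd4q0) (C2 := cd3q2b) (C3 := pd2)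
    rfl k0_mm_022_b

noncomputable def f_mm_023 : ℕ → ℕ → ℕ → ℕ → Bool := onCell 0 536870912 1610612736 536870912 536870912 50465866
    (rowB 3 eng mog cd4q0 cd3q3 pd2 0 false false false .up 0 2 3 (qsf 0 536870912 1610612736 536870912 2) ndB4q0 ndB3q3 pcB2 Cut.none Ext.none)

def k0_mm_023 : ∃ t, chk3 f_mm_023 t 1 1 1 = true :=
  ⟨(l 5), by decide +kernel⟩

theorem c_mm_023 : CertB 0 536870912 1610612736 536870912 536870912 50465866 3 eng mog cd4q0 cd3q3 pd2 false false false .up 0 2 3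
    ndB4q0 ndB3q3 pcB2 Cut.none Ext.none :=
  certB0 (fam := false) (s1 := false) (s2 := false) (a := 0) (b := 2) (c := 3) (cn := .up) (n1 := ndB4q0) (n2 := ndB3q3) (pc := pcB2) (cut := Cut.none) (xt := Ext.none) (P1 := 0) (W1 := 536870912) (P2 := 1610612736) (W2 := 536870912) (P3 := 536870912) (W3 := 50465866) (N0 := 3) (En := eng) (mo := mog) (C1 := cd4q0) (C2 := cd3q3) (C3 := pd2)
    rfl k0_mm_023

noncomputable def f_mm_033 : ℕ → ℕ → ℕ → ℕ → Bool := onCell 0 536870912 1610612736 536870912 536870912 50465866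
    (rowB 3 eng mog cd4q0 cd3q3 pd3 0 false false false .pnn 0 3 3 (qsf 0 536870912 1610612736 536870912 3) ndB4q0 ndB3q3 pcB3 Cut.none Ext.none)

def k0_mm_033 : ∃ t, chk3 f_mm_033 t 1 1 1 = true :=
  ⟨(l 5), by decide +kernel⟩

theorem c_mm_033 : CertB 0 536870912 1610612736 536870912 536870912 50465866 3 eng mog cd4q0 cd3q3 pd3 false false false .pnn 0 3 3
    ndB4q0 ndB3q3 pcB3 Cut.none Ext.none :=
  certB0 (fam := false) (s1 := false) (s2 := false) (a := 0) (b := 3) (c := 3) (cn := .pnn) (n1 := ndB4q0) (n2 := ndB3q3) (pc := pcB3) (cut := Cut.none) (xt := Ext.none) (P1 := 0) (W1 := 536870912) (P2 := 1610612736) (W2 := 536870912) (P3 := 536870912) (W3 := 50465866) (N0 := 3) (En := eng) (mo := mog) (C1 := cd4q0) (C2 := cd3q3) (C3 := pd3)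
    rfl k0_mm_033

noncomputable def f_mm_101 : ℕ → ℕ → ℕ → ℕ → Bool := onCell 536870912 536870912 536870912 536870912 536870912 50465866
    (rowB 3 eng mog cd4q1 cd3q1 pd0 0 false false false .npn 1 0 1 (qsf 536870912 536870912 536870912 536870912 0) ndB4q1 ndB3q1 pcB0 Cut.none Ext.none)

def k0_mm_101 : ∃ t, chk3 f_mm_101 t 1 1 1 = true :=
  ⟨(l 3), by decide +kernel⟩

theorem c_mm_101 : CertB 536870912 536870912 536870912 536870912 536870912 50465866 3 eng mog cd4q1 cd3q1 pd0 false false false .npn 1 0 1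
    ndB4q1 ndB3q1 pcB0 Cut.none Ext.none :=
  certB0 (fam := false) (s1 := false) (s2 := false) (a := 1) (b := 0) (c := 1) (cn := .npn) (n1 := ndB4q1) (n2 := ndB3q1) (pc := pcB0) (cut := Cut.none) (xt := Ext.none) (P1 := 536870912) (W1 := 536870912) (P2 := 536870912) (W2 := 536870912) (P3 := 536870912) (W3 := 50465866) (N0 := 3) (En := eng) (mo := mog) (C1 := cd4q1) (C2 := cd3q1) (C3 := pd0)
    rfl k0_mm_101

noncomputable def f_mm_102_a : ℕ → ℕ → ℕ → ℕ → Bool := onCell 536870912 536870912 0 536870912 536870912 50465866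
    (rowB 3 eng mog cd4q1 cd3q2a pd0 0 false false false .npp 1 0 2 (qsf 536870912 536870912 0 536870912 0) ndB4q1 ndB3q2a pcB0 Cut.none Ext.none)

def k0_mm_102_a : ∃ t, chk3 f_mm_102_a t 1 1 1 = true :=
  ⟨(l 5), by decide +kernel⟩

theorem c_mm_102_a : CertB 536870912 536870912 0 536870912 536870912 50465866 3 eng mog cd4q1 cd3q2a pd0 false false false .npp 1 0 2
    ndB4q1 ndB3q2a pcB0 Cut.none Ext.none :=
  certB0 (fam := false) (s1 := false) (s2 := false) (a := 1) (b := 0) (c := 2) (cn := .npp) (n1 := ndB4q1) (n2 := ndB3q2a) (pc := pcB0) (cut := Cut.none) (xt := Ext.none) (P1 := 536870912) (W1 := 536870912) (P2 := 0) (W2 := 536870912) (P3 := 536870912) (W3 := 50465866) (N0 := 3) (En := eng) (mo := mog) (C1 := cd4q1) (C2 := cd3q2a) (C3 := pd0)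
    rfl k0_mm_102_a

noncomputable def f_mm_102_b : ℕ → ℕ → ℕ → ℕ → Bool := onCell 536870912 536870912 1239849684 370763052 536870912 50465866
    (rowB 3 eng mog cd4q1 cd3q2b pd0 0 false false false .npp 1 0 2 (qsf 536870912 536870912 1239849684 370763052 0) ndB4q1 ndB3q2b pcB0 Cut.none Ext.none)

def k0_mm_102_b : ∃ t, chk3 f_mm_102_b t 1 1 1 = true :=
  ⟨(l 5), by decide +kernel⟩

theorem c_mm_102_b : CertB 536870912 536870912 1239849684 370763052 536870912 50465866 3 eng mog cd4q1 cd3q2b pd0 false false false .npp 1 0 2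
    ndB4q1 ndB3q2b pcB0 Cut.none Ext.none :=
  certB0 (fam := false) (s1 := false) (s2 := false) (a := 1) (b := 0) (c := 2) (cn := .npp) (n1 := ndB4q1) (n2 := ndB3q2b) (pc := pcB0) (cut := Cut.none) (xt := Ext.none) (P1 := 536870912) (W1 := 536870912) (P2 := 1239849684) (W2 := 370763052) (P3 := 536870912) (W3 := 50465866) (N0 := 3) (En := eng) (mo := mog) (C1 := cd4q1) (C2 := cd3q2b) (C3 := pd0)
    rfl k0_mm_102_b

noncomputable def f_mm_112_a : ℕ → ℕ → ℕ → ℕ → Bool := onCell 536870912 536870912 0 536870912 536870912 50465866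
    (rowB 3 eng mog cd4q1 cd3q2a pd1 0 false false false .dn 1 1 2 (qsf 536870912 536870912 0 536870912 1) ndB4q1 ndB3q2a pcB1 Cut.none Ext.none)

def k0_mm_112_a : ∃ t, chk3 f_mm_112_a t 1 1 1 = true :=
  ⟨(l 5), by decide +kernel⟩

theorem c_mm_112_a : CertB 536870912 536870912 0 536870912 536870912 50465866 3 eng mog cd4q1 cd3q2a pd1 false false false .dn 1 1 2
    ndB4q1 ndB3q2a pcB1 Cut.none Ext.none :=
  certB0 (fam := false) (s1 := false) (s2 := false) (a := 1) (b := 1) (c := 2) (cn := .dn) (n1 := ndB4q1) (n2 := ndB3q2a) (pc := pcB1) (cut := Cut.none) (xt := Ext.none) (P1 := 536870912) (W1 := 536870912) (P2 := 0) (W2 := 536870912) (P3 := 536870912) (W3 := 50465866) (N0 := 3) (En := eng) (mo := mog) (C1 := cd4q1) (C2 := cd3q2a) (C3 := pd1)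
    rfl k0_mm_112_a

noncomputable def f_mm_112_b : ℕ → ℕ → ℕ → ℕ → Bool := onCell 536870912 536870912 1239849684 370763052 536870912 50465866
    (rowB 3 eng mog cd4q1 cd3q2b pd1 0 false false false .dn 1 1 2 (qsf 536870912 536870912 1239849684 370763052 1) ndB4q1 ndB3q2b pcB1 Cut.none Ext.none)

def k0_mm_112_b : ∃ t, chk3 f_mm_112_b t 1 1 1 = true :=
  ⟨(l 5), by decide +kernel⟩

theorem c_mm_112_b : CertB 536870912 536870912 1239849684 370763052 536870912 50465866 3 eng mog cd4q1 cd3q2b pd1 false false false .dn 1 1 2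
    ndB4q1 ndB3q2b pcB1 Cut.none Ext.none :=
  certB0 (fam := false) (s1 := false) (s2 := false) (a := 1) (b := 1) (c := 2) (cn := .dn) (n1 := ndB4q1) (n2 := ndB3q2b) (pc := pcB1) (cut := Cut.none) (xt := Ext.none) (P1 := 536870912) (W1 := 536870912) (P2 := 1239849684) (W2 := 370763052) (P3 := 536870912) (W3 := 50465866) (N0 := 3) (En := eng) (mo := mog) (C1 := cd4q1) (C2 := cd3q2b) (C3 := pd1)
    rfl k0_mm_112_b

noncomputable def f_mm_113 : ℕ → ℕ → ℕ → ℕ → Bool := onCell 536870912 536870912 1610612736 536870912 536870912 50465866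
    (rowB 3 eng mog cd4q1 cd3q3 pd1 0 false false false .nn 1 1 3 (qsf 536870912 536870912 1610612736 536870912 1) ndB4q1 ndB3q3 pcB1 Cut.none Ext.none)

def k0_mm_113 : ∃ t, chk3 f_mm_113 t 1 1 1 = true :=
  ⟨(l 5), by decide +kernel⟩

theorem c_mm_113 : CertB 536870912 536870912 1610612736 536870912 536870912 50465866 3 eng mog cd4q1 cd3q3 pd1 false false false .nn 1 1 3
    ndB4q1 ndB3q3 pcB1 Cut.none Ext.none :=
  certB0 (fam := false) (s1 := false) (s2 := false) (a := 1) (b := 1) (c := 3) (cn := .nn) (n1 := ndB4q1) (n2 := ndB3q3) (pc := pcB1) (cut := Cut.none) (xt := Ext.none) (P1 := 536870912) (W1 := 536870912) (P2 := 1610612736) (W2 := 536870912) (P3 := 536870912) (W3 := 50465866) (N0 := 3) (En := eng) (mo := mog) (C1 := cd4q1) (C2 := cd3q3) (C3 := pd1)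
    rfl k0_mm_113

noncomputable def f_mm_123 : ℕ → ℕ → ℕ → ℕ → Bool := onCell 536870912 536870912 1610612736 536870912 536870912 50465866
    (rowB 3 eng mog cd4q1 cd3q3 pd2 0 false false false .npn 1 2 3 (qsf 536870912 536870912 1610612736 536870912 2) ndB4q1 ndB3q3 pcB2 Cut.none Ext.none)

def k0_mm_123 : ∃ t, chk3 f_mm_123 t 1 1 1 = true :=
  ⟨(l 5), by decide +kernel⟩

theorem c_mm_123 : CertB 536870912 536870912 1610612736 536870912 536870912 50465866 3 eng mog cd4q1 cd3q3 pd2 false false false .npn 1 2 3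
    ndB4q1 ndB3q3 pcB2 Cut.none Ext.none :=
  certB0 (fam := false) (s1 := false) (s2 := false) (a := 1) (b := 2) (c := 3) (cn := .npn) (n1 := ndB4q1) (n2 := ndB3q3) (pc := pcB2) (cut := Cut.none) (xt := Ext.none) (P1 := 536870912) (W1 := 536870912) (P2 := 1610612736) (W2 := 536870912) (P3 := 536870912) (W3 := 50465866) (N0 := 3) (En := eng) (mo := mog) (C1 := cd4q1) (C2 := cd3q3) (C3 := pd2)
    rfl k0_mm_123

noncomputable def f_mm_133 : ℕ → ℕ → ℕ → ℕ → Bool := onCell 536870912 536870912 1610612736 536870912 536870912 50465866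
    (rowB 3 eng mog cd4q1 cd3q3 pd3 0 false false false .dn 1 3 3 (qsf 536870912 536870912 1610612736 536870912 3) ndB4q1 ndB3q3 pcB3 Cut.none Ext.none)

def k0_mm_133 : ∃ t, chk3 f_mm_133 t 1 1 1 = true :=
  ⟨(l 5), by decide +kernel⟩

theorem c_mm_133 : CertB 536870912 536870912 1610612736 536870912 536870912 50465866 3 eng mog cd4q1 cd3q3 pd3 false false false .dn 1 3 3
    ndB4q1 ndB3q3 pcB3 Cut.none Ext.none :=
  certB0 (fam := false) (s1 := false) (s2 := false) (a := 1) (b := 3) (c := 3) (cn := .dn) (n1 := ndB4q1) (n2 := ndB3q3) (pc := pcB3) (cut := Cut.none) (xt := Ext.none) (P1 := 536870912) (W1 := 536870912) (P2 := 1610612736) (W2 := 536870912) (P3 := 536870912) (W3 := 50465866) (N0 := 3) (En := eng) (mo := mog) (C1 := cd4q1) (C2 := cd3q3) (C3 := pd3)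
    rfl k0_mm_133

noncomputable def f_mm_202_a : ℕ → ℕ → ℕ → ℕ → Bool := onCell 1073741824 536870912 0 536870912 536870912 50465866
    (rowB 3 eng mog cd4q2 cd3q2a pd0 0 false false false .pp 2 0 2 (qsf 1073741824 536870912 0 536870912 0) ndB4q2 ndB3q2a pcB0 Cut.none Ext.none)

def k0_mm_202_a : ∃ t, chk3 f_mm_202_a t 1 1 1 = true :=
  ⟨(l 3), by decide +kernel⟩

theorem c_mm_202_a : CertB 1073741824 536870912 0 536870912 536870912 50465866 3 eng mog cd4q2 cd3q2a pd0 false false false .pp 2 0 2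
    ndB4q2 ndB3q2a pcB0 Cut.none Ext.none :=
  certB0 (fam := false) (s1 := false) (s2 := false) (a := 2) (b := 0) (c := 2) (cn := .pp) (n1 := ndB4q2) (n2 := ndB3q2a) (pc := pcB0) (cut := Cut.none) (xt := Ext.none) (P1 := 1073741824) (W1 := 536870912) (P2 := 0) (W2 := 536870912) (P3 := 536870912) (W3 := 50465866) (N0 := 3) (En := eng) (mo := mog) (C1 := cd4q2) (C2 := cd3q2a) (C3 := pd0)
    rfl k0_mm_202_a

noncomputable def f_mm_202_b : ℕ → ℕ → ℕ → ℕ → Bool := onCell 1073741824 536870912 1239849684 370763052 536870912 50465866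
    (rowB 3 eng mog cd4q2 cd3q2b pd0 0 false false false .pp 2 0 2 (qsf 1073741824 536870912 1239849684 370763052 0) ndB4q2 ndB3q2b pcB0 Cut.none Ext.none)

def k0_mm_202_b : ∃ t, chk3 f_mm_202_b t 1 1 1 = true :=
  ⟨(l 3), by decide +kernel⟩

theorem c_mm_202_b : CertB 1073741824 536870912 1239849684 370763052 536870912 50465866 3 eng mog cd4q2 cd3q2b pd0 false false false .pp 2 0 2
    ndB4q2 ndB3q2b pcB0 Cut.none Ext.none :=
  certB0 (fam := false) (s1 := false) (s2 := false) (a := 2) (b := 0) (c := 2) (cn := .pp) (n1 := ndB4q2) (n2 := ndB3q2b) (pc := pcB0) (cut := Cut.none) (xt := Ext.none) (P1 := 1073741824) (W1 := 536870912) (P2 := 1239849684) (W2 := 370763052) (P3 := 536870912) (W3 := 50465866) (N0 := 3) (En := eng) (mo := mog) (C1 := cd4q2) (C2 := cd3q2b) (C3 := pd0)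
    rfl k0_mm_202_b

noncomputable def f_mm_203 : ℕ → ℕ → ℕ → ℕ → Bool := onCell 1073741824 536870912 1610612736 536870912 536870912 50465866
    (rowB 3 eng mog cd4q2 cd3q3 pd0 0 false false false .up 2 0 3 (qsf 1073741824 536870912 1610612736 536870912 0) ndB4q2 ndB3q3 pcB0 Cut.none Ext.none)

def k0_mm_203 : ∃ t, chk3 f_mm_203 t 1 1 1 = true :=
  ⟨(l 5), by decide +kernel⟩

theorem c_mm_203 : CertB 1073741824 536870912 1610612736 536870912 536870912 50465866 3 eng mog cd4q2 cd3q3 pd0 false false false .up 2 0 3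
    ndB4q2 ndB3q3 pcB0 Cut.none Ext.none :=
  certB0 (fam := false) (s1 := false) (s2 := false) (a := 2) (b := 0) (c := 3) (cn := .up) (n1 := ndB4q2) (n2 := ndB3q3) (pc := pcB0) (cut := Cut.none) (xt := Ext.none) (P1 := 1073741824) (W1 := 536870912) (P2 := 1610612736) (W2 := 536870912) (P3 := 536870912) (W3 := 50465866) (N0 := 3) (En := eng) (mo := mog) (C1 := cd4q2) (C2 := cd3q3) (C3 := pd0)
    rfl k0_mm_203

noncomputable def f_mm_213 : ℕ → ℕ → ℕ → ℕ → Bool := onCell 1073741824 536870912 1610612736 536870912 536870912 50465866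
    (rowB 3 eng mog cd4q2 cd3q3 pd1 0 false false false .pnn 2 1 3 (qsf 1073741824 536870912 1610612736 536870912 1) ndB4q2 ndB3q3 pcB1 Cut.none Ext.none)

def k0_mm_213 : ∃ t, chk3 f_mm_213 t 1 1 1 = true :=
  ⟨(l 5), by decide +kernel⟩

theorem c_mm_213 : CertB 1073741824 536870912 1610612736 536870912 536870912 50465866 3 eng mog cd4q2 cd3q3 pd1 false false false .pnn 2 1 3
    ndB4q2 ndB3q3 pcB1 Cut.none Ext.none :=
  certB0 (fam := false) (s1 := false) (s2 := false) (a := 2) (b := 1) (c := 3) (cn := .pnn) (n1 := ndB4q2) (n2 := ndB3q3) (pc := pcB1) (cut := Cut.none) (xt := Ext.none) (P1 := 1073741824) (W1 := 536870912) (P2 := 1610612736) (W2 := 536870912) (P3 := 536870912) (W3 := 50465866) (N0 := 3) (En := eng) (mo := mog) (C1 := cd4q2) (C2 := cd3q3) (C3 := pd1)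
    rfl k0_mm_213

noncomputable def f_mm_303 : ℕ → ℕ → ℕ → ℕ → Bool := onCell 0 1230186008 1610612736 536870912 536870912 50465866
    (rowB 3 eng mog cd4q3 cd3q3 pd0 0 false false false .npn 3 0 3 (qsf 0 1230186008 1610612736 536870912 0) ndB4q3 ndB3q3 pcB0 Cut.none Ext.none)

def k0_mm_303 : ∃ t, chk3 f_mm_303 t 1 1 1 = true :=
  ⟨(a (l 3) (l 3)), by decide +kernel⟩

theorem c_mm_303 : CertB 0 1230186008 1610612736 536870912 536870912 50465866 3 eng mog cd4q3 cd3q3 pd0 false false false .npn 3 0 3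
    ndB4q3 ndB3q3 pcB0 Cut.none Ext.none :=
  certB0 (fam := false) (s1 := false) (s2 := false) (a := 3) (b := 0) (c := 3) (cn := .npn) (n1 := ndB4q3) (n2 := ndB3q3) (pc := pcB0) (cut := Cut.none) (xt := Ext.none) (P1 := 0) (W1 := 1230186008) (P2 := 1610612736) (W2 := 536870912) (P3 := 536870912) (W3 := 50465866) (N0 := 3) (En := eng) (mo := mog) (C1 := cd4q3) (C2 := cd3q3) (C3 := pd0)
    rfl k0_mm_303

noncomputable def f_mm_313 : ℕ → ℕ → ℕ → ℕ → Bool := onCell 0 1230186008 1610612736 536870912 536870912 50465866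
    (rowB 3 eng mog cd4q3 cd3q3 pd1 0 false false false .dn 3 1 3 (qsf 0 1230186008 1610612736 536870912 1) ndB4q3 ndB3q3 pcB1 Cut.none Ext.none)

def k0_mm_313 : ∃ t, chk3 f_mm_313 t 1 1 1 = true :=
  ⟨(a (l 1) (l 3)), by decide +kernel⟩

theorem c_mm_313 : CertB 0 1230186008 1610612736 536870912 536870912 50465866 3 eng mog cd4q3 cd3q3 pd1 false false false .dn 3 1 3
    ndB4q3 ndB3q3 pcB1 Cut.none Ext.none :=
  certB0 (fam := false) (s1 := false) (s2 := false) (a := 3) (b := 1) (c := 3) (cn := .dn) (n1 := ndB4q3) (n2 := ndB3q3) (pc := pcB1) (cut := Cut.none) (xt := Ext.none) (P1 := 0) (W1 := 1230186008) (P2 := 1610612736) (W2 := 536870912) (P3 := 536870912) (W3 := 50465866) (N0 := 3) (En := eng) (mo := mog) (C1 := cd4q3) (C2 := cd3q3) (C3 := pd1)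
    rfl k0_mm_313

end Pool.Agent.Strip051.G.I5000_5470.Tab.C.BB43

namespace Pool.Agent.Strip051.G.I5000_5470.Tab.C.BB44

open Pool.Agent.Strip051.PB Pool.Agent.Strip051.PB.T
open Pool.Agent.Strip051.G.I5000_5470.Tab

noncomputable def f_pp_001 : ℕ → ℕ → ℕ → ℕ → Bool := onCell 0 536870912 536870912 536870912 536870912 50465866
    (rowB 3 eng mog cd4q0 cd4q1 pd0 0 false true true .up 0 0 1 (qsf 0 536870912 536870912 536870912 0) ndB4q0 ndB4q1 pcB0 Cut.none Ext.none)

def k0_pp_001 : ∃ t, chk3 f_pp_001 t 1 1 1 = true :=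
  ⟨(l 3), by decide +kernel⟩

theorem c_pp_001 : CertB 0 536870912 536870912 536870912 536870912 50465866 3 eng mog cd4q0 cd4q1 pd0 false true true .up 0 0 1
    ndB4q0 ndB4q1 pcB0 Cut.none Ext.none :=
  certB0 (fam := false) (s1 := true) (s2 := true) (a := 0) (b := 0) (c := 1) (cn := .up) (n1 := ndB4q0) (n2 := ndB4q1) (pc := pcB0) (cut := Cut.none) (xt := Ext.none) (P1 := 0) (W1 := 536870912) (P2 := 536870912) (W2 := 536870912) (P3 := 536870912) (W3 := 50465866) (N0 := 3) (En := eng) (mo := mog) (C1 := cd4q0) (C2 := cd4q1) (C3 := pd0)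
    rfl k0_pp_001

noncomputable def f_pp_011 : ℕ → ℕ → ℕ → ℕ → Bool := onCell 0 536870912 536870912 536870912 536870912 50465866
    (rowB 3 eng mog cd4q0 cd4q1 pd1 0 false true true .pnn 0 1 1 (qsf 0 536870912 536870912 536870912 1) ndB4q0 ndB4q1 pcB1 Cut.none Ext.none)

def k0_pp_011 : ∃ t, chk3 f_pp_011 t 1 1 1 = true :=
  ⟨(l 3), by decide +kernel⟩

theorem c_pp_011 : CertB 0 536870912 536870912 536870912 536870912 50465866 3 eng mog cd4q0 cd4q1 pd1 false true true .pnn 0 1 1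
    ndB4q0 ndB4q1 pcB1 Cut.none Ext.none :=
  certB0 (fam := false) (s1 := true) (s2 := true) (a := 0) (b := 1) (c := 1) (cn := .pnn) (n1 := ndB4q0) (n2 := ndB4q1) (pc := pcB1) (cut := Cut.none) (xt := Ext.none) (P1 := 0) (W1 := 536870912) (P2 := 536870912) (W2 := 536870912) (P3 := 536870912) (W3 := 50465866) (N0 := 3) (En := eng) (mo := mog) (C1 := cd4q0) (C2 := cd4q1) (C3 := pd1)
    rfl k0_pp_011

noncomputable def f_pp_012 : ℕ → ℕ → ℕ → ℕ → Bool := onCell 0 536870912 536870912 536870912 536870912 50465866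
    (rowB 3 eng mog cd4q0 cd4q2 pd1 1 false true true .pnp 0 1 2 (qsf 0 536870912 1073741824 536870912 1) ndB4q0 ndB4q2 pcB1 Cut.none Ext.none)

def k0_pp_012 : ∃ t, chk3 f_pp_012 t 1 1 1 = true :=
  ⟨(a (b (l 3) (b (l 3) (a (b (l 3) (a (l 3) (b (l 3) (a (l 104320721735) (l 16757064))))) (b (a (b (l 3) (l 245518122679)) (b (l 16809368) (a (l 16715440) (l 16744872)))) (a (b (a (l 16735888) (l 16770904)) (a (l 16774920) (l 16795536))) (b (l 16809896) (l 16814976))))))) (b (l 3) (a (b (b (l 3) (a (b (l 3) (l 333028025671)) (b (l 329806260871) (l 16700968)))) (b (a (b (a (l 16700176) (l 16732368)) (l 16818312)) (b (l 16808224) (l 16885064))) (a (b (l 16846032) (l 16829456)) (l 16907792)))) (b (a (b (b (l 3) (l 415168805495)) (b (l 16691624) (l 16796984))) (b (b (l 358260431543) (l 16686176)) (b (l 16792440) (l 16917400)))) (a (b (b (l 16914224) (l 16974256)) (l 17026960)) (b (l 17071728) (a (l 17157128) (l 17270688)))))))), by decide +kernel⟩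

theorem c_pp_012 : CertB 0 536870912 1073741824 536870912 536870912 50465866 3 eng mog cd4q0 cd4q2 pd1 false true true .pnp 0 1 2
    ndB4q0 ndB4q2 pcB1 Cut.none Ext.none :=
  certB1 (fam := false) (s1 := true) (s2 := true) (a := 0) (b := 1) (c := 2) (cn := .pnp) (n1 := ndB4q0) (n2 := ndB4q2) (pc := pcB1) (cut := Cut.none) (xt := Ext.none) (P1 := 0) (W1 := 536870912) (P2 := 1073741824) (W2 := 536870912) (P3 := 536870912) (W3 := 50465866) (N0 := 3) (En := eng) (mo := mog) (C1 := cd4q0) (C2 := cd4q2) (C3 := pd1)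
    rfl (fun _ => rfl) k0_pp_012

noncomputable def f_pp_022 : ℕ → ℕ → ℕ → ℕ → Bool := onCell 1073741824 536870912 1073741824 536870912 536870912 50465866
    (rowB 3 eng mog cd4q0 cd4q2 pd2 2 false true true .pp 0 2 2 (qsf 0 536870912 1073741824 536870912 2) ndB4q0 ndB4q2 pcB2 Cut.none Ext.none)

def k0_pp_022 : ∃ t, chk3 f_pp_022 t 1 1 1 = true :=
  ⟨(a (b (a (a (b (a (b (b (l 3) (b (l 3) (l 16712360))) (b (l 16712624) (l 16720512))) (b (a (b (l 3) (b (a (l 3) (l 16693128)) (l 16693256))) (b (l 1) (b (b (l 1) (l 16682048)) (l 16680264)))) (b (l 16726176) (l 16685152)))) (b (b (l 16733208) (l 16726200)) (l 16737744))) (b (a (b (b (l 1) (a (b (l 1) (l 16665472)) (l 1))) (b (b (l 16656560) (l 16656712)) (l 16657320))) (b (l 1) (b (b (l 1) (l 16621040)) (l 16624368)))) (b (b (l 16646656) (l 16653040)) (l 16660368)))) (b (a (b (l 1) (a (a (b (l 1) (l 16593272)) (l 1)) (l 1))) (l 1)) (a (b (a (a (l 16607072) (a (l 16591664) (a (l 16583240) (l 16639872))))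 (b (l 16540024) (l 16556256))) (a (a (l 16619568) (l 16601872)) (l 16571200))) (b (b (l 1) (l 370474001271)) (b (l 16479592) (l 16494064)))))) (a (b (a (b (l 16747304) (l 16790888)) (b (l 16665280) (l 16669608))) (b (a (b (l 16873048) (l 16938864)) (l 16717608)) (a (b (l 17030824) (l 17117144)) (b (l 16797608) (l 16846688))))) (b (a (b (a (l 16619288) (l 16584688)) (l 16794056)) (b (l 16512816) (l 16534104))) (b (a (l 16737392) (l 16548664)) (a (b (l 16638312) (l 16672408)) (l 16554640)))))) (b (a (b (l 1) (a (b (l 1) (l 520797955191)) (l 1))) (l 1)) (a (b (a (b (l 16357424) (l 16400296)) (b (l 613676525047) (l 16292864))) (b (l 16361328) (b (l 16403024) (l 16409064)))) (b (a (b (l 1) (l 665752534311)) (l 1)) (b (a (l 16283216) (l 732861497847)) (a (l 16277920) (b (l 16294720) (l 16332488)))))))), by decide +kernel⟩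

theorem c_pp_022 : CertB 0 536870912 1073741824 536870912 536870912 50465866 3 eng mog cd4q0 cd4q2 pd2 false true true .pp 0 2 2
    ndB4q0 ndB4q2 pcB2 Cut.none Ext.none :=
  certB2 (fam := false) (s1 := true) (s2 := true) (a := 0) (b := 2) (c := 2) (cn := .pp) (n1 := ndB4q0) (n2 := ndB4q2) (pc := pcB2) (cut := Cut.none) (xt := Ext.none) (P1 := 0) (W1 := 536870912) (P2 := 1073741824) (W2 := 536870912) (P3 := 536870912) (W3 := 50465866) (N0 := 3) (En := eng) (mo := mog) (C1 := cd4q0) (C2 := cd4q2) (C3 := pd2)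
    rfl (fun _ => rfl) k0_pp_022

noncomputable def f_pp_023 : ℕ → ℕ → ℕ → ℕ → Bool := onCell 0 536870912 0 1230186008 536870912 50465866
    (rowB 3 eng mog cd4q0 cd4q3 pd2 0 false true true .up 0 2 3 (qsf 0 536870912 0 1230186008 2) ndB4q0 ndB4q3 pcB2 Cut.none Ext.none)

def k0_pp_023 : ∃ t, chk3 f_pp_023 t 1 1 1 = true :=
  ⟨(b (b (l 4) (a (l 2) (a (l 2) (a (l 16758384) (l 16762576))))) (b (a (b (l 2) (a (l 2) (a (l 2) (l 16903256)))) (a (a (b (l 2) (l 16671208)) (b (l 16725592) (l 16690344))) (b (a (l 16736448) (l 16768336)) (a (l 16746296) (l 16828456))))) (a (b (a (l 2) (b (a (l 16623752) (l 16605856)) (a (l 16460680) (l 16536000)))) (a (b (a (l 2) (b (l 16567136) (l 16499832))) (a (b (a (l 2) (l 16485496)) (a (l 16386808) (l 16304536))) (b (l 16376584) (l 16239280)))) (b (a (l 16455328) (l 16430384)) (l 16365904)))) (b (a (b (a (l 16605336) (l 16663744)) (l 16583264)) (a (l 16788080) (l 16945840))) (a (b (l 16548824) (a (l 16532080) (l 16686392)))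 (b (a (l 16804528) (l 17022632)) (a (l 16862696) (l 17122296)))))))), by decide +kernel⟩

theorem c_pp_023 : CertB 0 536870912 0 1230186008 536870912 50465866 3 eng mog cd4q0 cd4q3 pd2 false true true .up 0 2 3
    ndB4q0 ndB4q3 pcB2 Cut.none Ext.none :=
  certB0 (fam := false) (s1 := true) (s2 := true) (a := 0) (b := 2) (c := 3) (cn := .up) (n1 := ndB4q0) (n2 := ndB4q3) (pc := pcB2) (cut := Cut.none) (xt := Ext.none) (P1 := 0) (W1 := 536870912) (P2 := 0) (W2 := 1230186008) (P3 := 536870912) (W3 := 50465866) (N0 := 3) (En := eng) (mo := mog) (C1 := cd4q0) (C2 := cd4q3) (C3 := pd2)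
    rfl k0_pp_023

noncomputable def f_pp_033 : ℕ → ℕ → ℕ → ℕ → Bool := onCell 1610612736 536870912 0 1230186008 536870912 50465866
    (rowB 3 eng mog cd4q0 cd4q3 pd3 2 false true true .pnn 0 3 3 (qsf 0 536870912 0 1230186008 3) ndB4q0 ndB4q3 pcB3 Cut.none Ext.none)

def k0_pp_033 : ∃ t, chk3 f_pp_033 t 1 1 1 = true :=
  ⟨(b (b (l 4) (a (l 4) (l 4))) (b (b (a (a (l 16728024) (l 16747728)) (a (l 4) (a (l 4) (l 1)))) (a (a (l 16677304) (a (l 16707416) (l 16735016))) (a (a (l 16762016) (l 1184371317959)) (l 1)))) (a (b (a (a (l 16604672) (b (l 16639920) (l 16616552))) (a (l 16882968) (l 934726167591))) (a (b (a (l 16542176) (l 16613560)) (a (b (l 16475136) (l 16339864)) (b (l 16587328) (l 1)))) (b (a (l 963180227879) (l 1)) (l 1)))) (l 1)))), by decide +kernel⟩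

theorem c_pp_033 : CertB 0 536870912 0 1230186008 536870912 50465866 3 eng mog cd4q0 cd4q3 pd3 false true true .pnn 0 3 3
    ndB4q0 ndB4q3 pcB3 Cut.none Ext.none :=
  certB2 (fam := false) (s1 := true) (s2 := true) (a := 0) (b := 3) (c := 3) (cn := .pnn) (n1 := ndB4q0) (n2 := ndB4q3) (pc := pcB3) (cut := Cut.none) (xt := Ext.none) (P1 := 0) (W1 := 536870912) (P2 := 0) (W2 := 1230186008) (P3 := 536870912) (W3 := 50465866) (N0 := 3) (En := eng) (mo := mog) (C1 := cd4q0) (C2 := cd4q3) (C3 := pd3)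
    rfl (fun _ => rfl) k0_pp_033

noncomputable def f_pp_101 : ℕ → ℕ → ℕ → ℕ → Bool := onCell 536870912 536870912 536870912 536870912 536870912 50465866
    (rowB 3 eng mog cd4q1 cd4q1 pd0 0 false true true .npn 1 0 1 (qsf 536870912 536870912 536870912 536870912 0) ndB4q1 ndB4q1 pcB0 Cut.none Ext.none)

def k0_pp_101 : ∃ t, chk3 f_pp_101 t 1 1 1 = true :=
  ⟨(l 3), by decide +kernel⟩

theorem c_pp_101 : CertB 536870912 536870912 536870912 536870912 536870912 50465866 3 eng mog cd4q1 cd4q1 pd0 false true true .npn 1 0 1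
    ndB4q1 ndB4q1 pcB0 Cut.none Ext.none :=
  certB0 (fam := false) (s1 := true) (s2 := true) (a := 1) (b := 0) (c := 1) (cn := .npn) (n1 := ndB4q1) (n2 := ndB4q1) (pc := pcB0) (cut := Cut.none) (xt := Ext.none) (P1 := 536870912) (W1 := 536870912) (P2 := 536870912) (W2 := 536870912) (P3 := 536870912) (W3 := 50465866) (N0 := 3) (En := eng) (mo := mog) (C1 := cd4q1) (C2 := cd4q1) (C3 := pd0)
    rfl k0_pp_101

noncomputable def f_pp_102 : ℕ → ℕ → ℕ → ℕ → Bool := onCell 0 536870912 1073741824 536870912 536870912 50465866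
    (rowB 3 eng mog cd4q1 cd4q2 pd0 2 false true true .npp 1 0 2 (qsf 536870912 536870912 1073741824 536870912 0) ndB4q1 ndB4q2 pcB0 Cut.none Ext.none)

def k0_pp_102 : ∃ t, chk3 f_pp_102 t 1 1 1 = true :=
  ⟨(l 3), by decide +kernel⟩

theorem c_pp_102 : CertB 536870912 536870912 1073741824 536870912 536870912 50465866 3 eng mog cd4q1 cd4q2 pd0 false true true .npp 1 0 2
    ndB4q1 ndB4q2 pcB0 Cut.none Ext.none :=
  certB2 (fam := false) (s1 := true) (s2 := true) (a := 1) (b := 0) (c := 2) (cn := .npp) (n1 := ndB4q1) (n2 := ndB4q2) (pc := pcB0) (cut := Cut.none) (xt := Ext.none) (P1 := 536870912) (W1 := 536870912) (P2 := 1073741824) (W2 := 536870912) (P3 := 536870912) (W3 := 50465866) (N0 := 3) (En := eng) (mo := mog) (C1 := cd4q1) (C2 := cd4q2) (C3 := pd0)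
    rfl (fun _ => rfl) k0_pp_102

noncomputable def f_pp_112 : ℕ → ℕ → ℕ → ℕ → Bool := onCell 536870912 536870912 1073741824 536870912 536870912 50465866
    (rowB 3 eng mog cd4q1 cd4q2 pd1 2 false true true .dn 1 1 2 (qsf 536870912 536870912 1073741824 536870912 1) ndB4q1 ndB4q2 pcB1 Cut.none Ext.none)

def k0_pp_112 : ∃ t, chk3 f_pp_112 t 1 1 1 = true :=
  ⟨(a (b (l 3) (a (b (l 3) (b (a (l 3) (l 315847172887)) (a (b (l 3) (a (l 3) (l 313162493351))) (b (l 16481136) (a (l 16491120) (l 16601120)))))) (b (a (b (l 3) (l 16509864)) (b (a (l 16537912) (b (l 16580032) (l 16623072))) (l 16663696))) (b (a (l 16603656) (l 16761040)) (a (b (l 16676728) (l 16741792)) (b (l 16827280) (l 16881392))))))) (b (a (a (a (a (a (l 3) (l 1)) (l 1)) (l 1)) (l 1)) (l 1)) (b (a (a (b (a (b (l 16632240) (l 16679480)) (b (l 16680784) (l 16731848))) (a (l 16754816) (l 16811424))) (b (a (l 362421738247) (l 1)) (a (l 16870272) (l 16931760)))) (a (b (l 1) (b (l 1) (l 17058992)))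 (l 1))) (a (b (a (l 16873648) (a (l 16963656) (l 17029152))) (b (l 16986800) (l 17028888))) (b (a (a (l 17102968) (l 17187672)) (l 470870623927)) (a (b (l 17189472) (l 17219456)) (a (l 17353672) (l 17364768)))))))), by decide +kernel⟩

theorem c_pp_112 : CertB 536870912 536870912 1073741824 536870912 536870912 50465866 3 eng mog cd4q1 cd4q2 pd1 false true true .dn 1 1 2
    ndB4q1 ndB4q2 pcB1 Cut.none Ext.none :=
  certB2 (fam := false) (s1 := true) (s2 := true) (a := 1) (b := 1) (c := 2) (cn := .dn) (n1 := ndB4q1) (n2 := ndB4q2) (pc := pcB1) (cut := Cut.none) (xt := Ext.none) (P1 := 536870912) (W1 := 536870912) (P2 := 1073741824) (W2 := 536870912) (P3 := 536870912) (W3 := 50465866) (N0 := 3) (En := eng) (mo := mog) (C1 := cd4q1) (C2 := cd4q2) (C3 := pd1)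
    rfl (fun _ => rfl) k0_pp_112

noncomputable def f_pp_113 : ℕ → ℕ → ℕ → ℕ → Bool := onCell 536870912 536870912 0 1230186008 536870912 50465866
    (rowB 3 eng mog cd4q1 cd4q3 pd1 2 false true true .nn 1 1 3 (qsf 536870912 536870912 0 1230186008 1) ndB4q1 ndB4q3 pcB1 Cut.none Ext.none)

def k0_pp_113 : ∃ t, chk3 f_pp_113 t 1 1 1 = true :=
  ⟨(b (a (l 2) (a (l 2) (l 16880008))) (b (a (a (l 2) (a (l 2) (b (l 2) (l 17070184)))) (a (l 17062232) (l 17083112))) (a (b (a (l 2) (a (l 17064704) (l 17045584))) (a (b (a (l 2) (a (l 16674760) (l 16777352))) (a (a (b (l 2) (a (l 3) (b (l 345307435927) (l 16247784)))) (b (b (l 16518808) (l 16464728)) (b (l 16407912) (l 16344336)))) (b (a (l 16613440) (l 16720176)) (a (l 16508216) (l 16621632))))) (b (a (l 16906920) (l 17016504)) (a (b (l 16847784) (l 16761760)) (l 16939616))))) (b (a (l 17098416) (l 17188544)) (b (a (l 17105728) (l 17261784)) (a (b (l 17086832) (l 17034904)) (a (l 17210592) (b (l 17392120) (l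 17374656))))))))), by decide +kernel⟩

theorem c_pp_113 : CertB 536870912 536870912 0 1230186008 536870912 50465866 3 eng mog cd4q1 cd4q3 pd1 false true true .nn 1 1 3
    ndB4q1 ndB4q3 pcB1 Cut.none Ext.none :=
  certB2 (fam := false) (s1 := true) (s2 := true) (a := 1) (b := 1) (c := 3) (cn := .nn) (n1 := ndB4q1) (n2 := ndB4q3) (pc := pcB1) (cut := Cut.none) (xt := Ext.none) (P1 := 536870912) (W1 := 536870912) (P2 := 0) (W2 := 1230186008) (P3 := 536870912) (W3 := 50465866) (N0 := 3) (En := eng) (mo := mog) (C1 := cd4q1) (C2 := cd4q3) (C3 := pd1)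
    rfl (fun _ => rfl) k0_pp_113

noncomputable def f_pp_123 : ℕ → ℕ → ℕ → ℕ → Bool := onCell 536870912 536870912 0 1230186008 536870912 50465866
    (rowB 3 eng mog cd4q1 cd4q3 pd2 0 false true true .npn 1 2 3 (qsf 536870912 536870912 0 1230186008 2) ndB4q1 ndB4q3 pcB2 Cut.none Ext.none)

def k0_pp_123 : ∃ t, chk3 f_pp_123 t 1 1 1 = true :=
  ⟨(b (b (a (l 4) (a (l 16935080) (l 16803488))) (a (a (a (l 16783192) (l 16818920)) (b (l 16819520) (l 16901464))) (a (b (l 16862384) (l 16989616)) (b (l 16884880) (l 16972208))))) (b (a (a (b (l 16872560) (a (l 16958744) (l 17078664))) (b (l 17053168) (l 17254048))) (b (a (l 17078568) (l 17091992)) (a (l 17175728) (l 1)))) (a (b (a (a (l 17156392) (l 17332032)) (l 17288528)) (a (b (l 17580776) (a (l 17550104) (l 17365712))) (b (l 17304936) (l 1)))) (l 1)))), by decide +kernel⟩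

theorem c_pp_123 : CertB 536870912 536870912 0 1230186008 536870912 50465866 3 eng mog cd4q1 cd4q3 pd2 false true true .npn 1 2 3
    ndB4q1 ndB4q3 pcB2 Cut.none Ext.none :=
  certB0 (fam := false) (s1 := true) (s2 := true) (a := 1) (b := 2) (c := 3) (cn := .npn) (n1 := ndB4q1) (n2 := ndB4q3) (pc := pcB2) (cut := Cut.none) (xt := Ext.none) (P1 := 536870912) (W1 := 536870912) (P2 := 0) (W2 := 1230186008) (P3 := 536870912) (W3 := 50465866) (N0 := 3) (En := eng) (mo := mog) (C1 := cd4q1) (C2 := cd4q3) (C3 := pd2)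
    rfl k0_pp_123

noncomputable def f_pp_133 : ℕ → ℕ → ℕ → ℕ → Bool := onCell 1610612736 536870912 0 1230186008 536870912 50465866
    (rowB 3 eng mog cd4q1 cd4q3 pd3 2 false true true .dn 1 3 3 (qsf 536870912 536870912 0 1230186008 3) ndB4q1 ndB4q3 pcB3 Cut.none Ext.none)

def k0_pp_133 : ∃ t, chk3 f_pp_133 t 1 1 1 = true :=
  ⟨(b (b (l 4) (l 1)) (l 1)), by decide +kernel⟩

theorem c_pp_133 : CertB 536870912 536870912 0 1230186008 536870912 50465866 3 eng mog cd4q1 cd4q3 pd3 false true true .dn 1 3 3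
    ndB4q1 ndB4q3 pcB3 Cut.none Ext.none :=
  certB2 (fam := false) (s1 := true) (s2 := true) (a := 1) (b := 3) (c := 3) (cn := .dn) (n1 := ndB4q1) (n2 := ndB4q3) (pc := pcB3) (cut := Cut.none) (xt := Ext.none) (P1 := 536870912) (W1 := 536870912) (P2 := 0) (W2 := 1230186008) (P3 := 536870912) (W3 := 50465866) (N0 := 3) (En := eng) (mo := mog) (C1 := cd4q1) (C2 := cd4q3) (C3 := pd3)
    rfl (fun _ => rfl) k0_pp_133

noncomputable def f_pp_202 : ℕ → ℕ → ℕ → ℕ → Bool := onCell 1073741824 536870912 1073741824 536870912 536870912 50465866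
    (rowB 3 eng mog cd4q2 cd4q2 pd0 0 false true true .pp 2 0 2 (qsf 1073741824 536870912 1073741824 536870912 0) ndB4q2 ndB4q2 pcB0 Cut.none Ext.none)

def k0_pp_202 : ∃ t, chk3 f_pp_202 t 1 1 1 = true :=
  ⟨(l 3), by decide +kernel⟩

theorem c_pp_202 : CertB 1073741824 536870912 1073741824 536870912 536870912 50465866 3 eng mog cd4q2 cd4q2 pd0 false true true .pp 2 0 2
    ndB4q2 ndB4q2 pcB0 Cut.none Ext.none :=
  certB0 (fam := false) (s1 := true) (s2 := true) (a := 2) (b := 0) (c := 2) (cn := .pp) (n1 := ndB4q2) (n2 := ndB4q2) (pc := pcB0) (cut := Cut.none) (xt := Ext.none) (P1 := 1073741824) (W1 := 536870912) (P2 := 1073741824) (W2 := 536870912) (P3 := 536870912) (W3 := 50465866) (N0 := 3) (En := eng) (mo := mog) (C1 := cd4q2) (C2 := cd4q2) (C3 := pd0)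
    rfl k0_pp_202

noncomputable def f_pp_203 : ℕ → ℕ → ℕ → ℕ → Bool := onCell 0 536870912 0 1230186008 536870912 50465866
    (rowB 3 eng mog cd4q2 cd4q3 pd0 2 false true true .up 2 0 3 (qsf 1073741824 536870912 0 1230186008 0) ndB4q2 ndB4q3 pcB0 Cut.none Ext.none)

def k0_pp_203 : ∃ t, chk3 f_pp_203 t 1 1 1 = true :=
  ⟨(b (b (l 3) (l 3)) (l 3)), by decide +kernel⟩

theorem c_pp_203 : CertB 1073741824 536870912 0 1230186008 536870912 50465866 3 eng mog cd4q2 cd4q3 pd0 false true true .up 2 0 3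
    ndB4q2 ndB4q3 pcB0 Cut.none Ext.none :=
  certB2 (fam := false) (s1 := true) (s2 := true) (a := 2) (b := 0) (c := 3) (cn := .up) (n1 := ndB4q2) (n2 := ndB4q3) (pc := pcB0) (cut := Cut.none) (xt := Ext.none) (P1 := 1073741824) (W1 := 536870912) (P2 := 0) (W2 := 1230186008) (P3 := 536870912) (W3 := 50465866) (N0 := 3) (En := eng) (mo := mog) (C1 := cd4q2) (C2 := cd4q3) (C3 := pd0)
    rfl (fun _ => rfl) k0_pp_203

noncomputable def f_pp_213 : ℕ → ℕ → ℕ → ℕ → Bool := onCell 536870912 536870912 0 1230186008 536870912 50465866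
    (rowB 3 eng mog cd4q2 cd4q3 pd1 2 false true true .pnn 2 1 3 (qsf 1073741824 536870912 0 1230186008 1) ndB4q2 ndB4q3 pcB1 Cut.none Ext.none)

def k0_pp_213 : ∃ t, chk3 f_pp_213 t 1 1 1 = true :=
  ⟨(b (b (a (l 3) (a (a (l 370608878135) (a (l 16899624) (a (l 16755448) (l 16758120)))) (a (a (l 16762584) (l 16770200)) (l 16784848)))) (a (l 3) (a (a (l 3) (a (l 3) (l 428054435655))) (a (a (b (l 16792992) (l 3)) (b (l 16807512) (l 445234328455))) (a (l 811246036823) (l 765612134119)))))) (b (a (l 3) (a (l 3) (a (l 3) (l 1)))) (l 3))), by decide +kernel⟩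

theorem c_pp_213 : CertB 1073741824 536870912 0 1230186008 536870912 50465866 3 eng mog cd4q2 cd4q3 pd1 false true true .pnn 2 1 3
    ndB4q2 ndB4q3 pcB1 Cut.none Ext.none :=
  certB2 (fam := false) (s1 := true) (s2 := true) (a := 2) (b := 1) (c := 3) (cn := .pnn) (n1 := ndB4q2) (n2 := ndB4q3) (pc := pcB1) (cut := Cut.none) (xt := Ext.none) (P1 := 1073741824) (W1 := 536870912) (P2 := 0) (W2 := 1230186008) (P3 := 536870912) (W3 := 50465866) (N0 := 3) (En := eng) (mo := mog) (C1 := cd4q2) (C2 := cd4q3) (C3 := pd1)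
    rfl (fun _ => rfl) k0_pp_213

noncomputable def f_pp_303 : ℕ → ℕ → ℕ → ℕ → Bool := onCell 0 1230186008 0 1230186008 536870912 50465866
    (rowB 3 eng mog cd4q3 cd4q3 pd0 0 false true true .npn 3 0 3 (qsf 0 1230186008 0 1230186008 0) ndB4q3 ndB4q3 pcB0 Cut.none Ext.none)

def k0_pp_303 : ∃ t, chk3 f_pp_303 t 1 1 1 = true :=
  ⟨(a (b (l 3) (l 3)) (b (l 3) (l 3))), by decide +kernel⟩

theorem c_pp_303 : CertB 0 1230186008 0 1230186008 536870912 50465866 3 eng mog cd4q3 cd4q3 pd0 false true true .npn 3 0 3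
    ndB4q3 ndB4q3 pcB0 Cut.none Ext.none :=
  certB0 (fam := false) (s1 := true) (s2 := true) (a := 3) (b := 0) (c := 3) (cn := .npn) (n1 := ndB4q3) (n2 := ndB4q3) (pc := pcB0) (cut := Cut.none) (xt := Ext.none) (P1 := 0) (W1 := 1230186008) (P2 := 0) (W2 := 1230186008) (P3 := 536870912) (W3 := 50465866) (N0 := 3) (En := eng) (mo := mog) (C1 := cd4q3) (C2 := cd4q3) (C3 := pd0)
    rfl k0_pp_303

noncomputable def f_pp_313 : ℕ → ℕ → ℕ → ℕ → Bool := onCell 0 1230186008 0 1230186008 536870912 50465866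
    (rowB 3 eng mog cd4q3 cd4q3 pd1 0 false true true .dn 3 1 3 (qsf 0 1230186008 0 1230186008 1) ndB4q3 ndB4q3 pcB1 Cut.none Ext.none)

def k0_pp_313 : ∃ t, chk3 f_pp_313 t 1 1 1 = true :=
  ⟨(a (l 1) (b (l 3) (l 1))), by decide +kernel⟩

theorem c_pp_313 : CertB 0 1230186008 0 1230186008 536870912 50465866 3 eng mog cd4q3 cd4q3 pd1 false true true .dn 3 1 3
    ndB4q3 ndB4q3 pcB1 Cut.none Ext.none :=
  certB0 (fam := false) (s1 := true) (s2 := true) (a := 3) (b := 1) (c := 3) (cn := .dn) (n1 := ndB4q3) (n2 := ndB4q3) (pc := pcB1) (cut := Cut.none) (xt := Ext.none) (P1 := 0) (W1 := 1230186008) (P2 := 0) (W2 := 1230186008) (P3 := 536870912) (W3 := 50465866) (N0 := 3) (En := eng) (mo := mog) (C1 := cd4q3) (C2 := cd4q3) (C3 := pd1)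
    rfl k0_pp_313

noncomputable def f_pm_001 : ℕ → ℕ → ℕ → ℕ → Bool := onCell 0 536870912 536870912 536870912 536870912 50465866
    (rowB 3 eng mog cd4q0 cd4q1 pd0 0 false true false .up 0 0 1 (qsf 0 536870912 536870912 536870912 0) ndB4q0 ndB4q1 pcB0 Cut.none Ext.none)

def k0_pm_001 : ∃ t, chk3 f_pm_001 t 1 1 1 = true :=
  ⟨(l 4), by decide +kernel⟩

theorem c_pm_001 : CertB 0 536870912 536870912 536870912 536870912 50465866 3 eng mog cd4q0 cd4q1 pd0 false true false .up 0 0 1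
    ndB4q0 ndB4q1 pcB0 Cut.none Ext.none :=
  certB0 (fam := false) (s1 := true) (s2 := false) (a := 0) (b := 0) (c := 1) (cn := .up) (n1 := ndB4q0) (n2 := ndB4q1) (pc := pcB0) (cut := Cut.none) (xt := Ext.none) (P1 := 0) (W1 := 536870912) (P2 := 536870912) (W2 := 536870912) (P3 := 536870912) (W3 := 50465866) (N0 := 3) (En := eng) (mo := mog) (C1 := cd4q0) (C2 := cd4q1) (C3 := pd0)
    rfl k0_pm_001

noncomputable def f_pm_011 : ℕ → ℕ → ℕ → ℕ → Bool := onCell 0 536870912 536870912 536870912 536870912 50465866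
    (rowB 3 eng mog cd4q0 cd4q1 pd1 0 false true false .pnn 0 1 1 (qsf 0 536870912 536870912 536870912 1) ndB4q0 ndB4q1 pcB1 Cut.none Ext.none)

def k0_pm_011 : ∃ t, chk3 f_pm_011 t 1 1 1 = true :=
  ⟨(l 4), by decide +kernel⟩

theorem c_pm_011 : CertB 0 536870912 536870912 536870912 536870912 50465866 3 eng mog cd4q0 cd4q1 pd1 false true false .pnn 0 1 1
    ndB4q0 ndB4q1 pcB1 Cut.none Ext.none :=
  certB0 (fam := false) (s1 := true) (s2 := false) (a := 0) (b := 1) (c := 1) (cn := .pnn) (n1 := ndB4q0) (n2 := ndB4q1) (pc := pcB1) (cut := Cut.none) (xt := Ext.none) (P1 := 0) (W1 := 536870912) (P2 := 536870912) (W2 := 536870912) (P3 := 536870912) (W3 := 50465866) (N0 := 3) (En := eng) (mo := mog) (C1 := cd4q0) (C2 := cd4q1) (C3 := pd1)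
    rfl k0_pm_011

noncomputable def f_pm_012 : ℕ → ℕ → ℕ → ℕ → Bool := onCell 0 536870912 1073741824 536870912 536870912 50465866
    (rowB 3 eng mog cd4q0 cd4q2 pd1 0 false true false .pnp 0 1 2 (qsf 0 536870912 1073741824 536870912 1) ndB4q0 ndB4q2 pcB1 Cut.none Ext.none)

def k0_pm_012 : ∃ t, chk3 f_pm_012 t 1 1 1 = true :=
  ⟨(l 4), by decide +kernel⟩

theorem c_pm_012 : CertB 0 536870912 1073741824 536870912 536870912 50465866 3 eng mog cd4q0 cd4q2 pd1 false true false .pnp 0 1 2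
    ndB4q0 ndB4q2 pcB1 Cut.none Ext.none :=
  certB0 (fam := false) (s1 := true) (s2 := false) (a := 0) (b := 1) (c := 2) (cn := .pnp) (n1 := ndB4q0) (n2 := ndB4q2) (pc := pcB1) (cut := Cut.none) (xt := Ext.none) (P1 := 0) (W1 := 536870912) (P2 := 1073741824) (W2 := 536870912) (P3 := 536870912) (W3 := 50465866) (N0 := 3) (En := eng) (mo := mog) (C1 := cd4q0) (C2 := cd4q2) (C3 := pd1)
    rfl k0_pm_012

noncomputable def f_pm_022 : ℕ → ℕ → ℕ → ℕ → Bool := onCell 0 536870912 1073741824 536870912 536870912 50465866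
    (rowB 3 eng mog cd4q0 cd4q2 pd2 0 false true false .pp 0 2 2 (qsf 0 536870912 1073741824 536870912 2) ndB4q0 ndB4q2 pcB2 Cut.none Ext.none)

def k0_pm_022 : ∃ t, chk3 f_pm_022 t 1 1 1 = true :=
  ⟨(l 4), by decide +kernel⟩

theorem c_pm_022 : CertB 0 536870912 1073741824 536870912 536870912 50465866 3 eng mog cd4q0 cd4q2 pd2 false true false .pp 0 2 2
    ndB4q0 ndB4q2 pcB2 Cut.none Ext.none :=
  certB0 (fam := false) (s1 := true) (s2 := false) (a := 0) (b := 2) (c := 2) (cn := .pp) (n1 := ndB4q0) (n2 := ndB4q2) (pc := pcB2) (cut := Cut.none) (xt := Ext.none) (P1 := 0) (W1 := 536870912) (P2 := 1073741824) (W2 := 536870912) (P3 := 536870912) (W3 := 50465866) (N0 := 3) (En := eng) (mo := mog) (C1 := cd4q0) (C2 := cd4q2) (C3 := pd2)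
    rfl k0_pm_022

noncomputable def f_pm_023 : ℕ → ℕ → ℕ → ℕ → Bool := onCell 0 536870912 0 1230186008 536870912 50465866
    (rowB 3 eng mog cd4q0 cd4q3 pd2 0 false true false .up 0 2 3 (qsf 0 536870912 0 1230186008 2) ndB4q0 ndB4q3 pcB2 Cut.none Ext.none)

def k0_pm_023 : ∃ t, chk3 f_pm_023 t 1 1 1 = true :=
  ⟨(b (l 4) (l 4)), by decide +kernel⟩

theorem c_pm_023 : CertB 0 536870912 0 1230186008 536870912 50465866 3 eng mog cd4q0 cd4q3 pd2 false true false .up 0 2 3
    ndB4q0 ndB4q3 pcB2 Cut.none Ext.none :=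
  certB0 (fam := false) (s1 := true) (s2 := false) (a := 0) (b := 2) (c := 3) (cn := .up) (n1 := ndB4q0) (n2 := ndB4q3) (pc := pcB2) (cut := Cut.none) (xt := Ext.none) (P1 := 0) (W1 := 536870912) (P2 := 0) (W2 := 1230186008) (P3 := 536870912) (W3 := 50465866) (N0 := 3) (En := eng) (mo := mog) (C1 := cd4q0) (C2 := cd4q3) (C3 := pd2)
    rfl k0_pm_023

noncomputable def f_pm_033 : ℕ → ℕ → ℕ → ℕ → Bool := onCell 0 536870912 0 1230186008 536870912 50465866
    (rowB 3 eng mog cd4q0 cd4q3 pd3 0 false true false .pnn 0 3 3 (qsf 0 536870912 0 1230186008 3) ndB4q0 ndB4q3 pcB3 Cut.none Ext.none)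

def k0_pm_033 : ∃ t, chk3 f_pm_033 t 1 1 1 = true :=
  ⟨(b (l 4) (l 4)), by decide +kernel⟩

theorem c_pm_033 : CertB 0 536870912 0 1230186008 536870912 50465866 3 eng mog cd4q0 cd4q3 pd3 false true false .pnn 0 3 3
    ndB4q0 ndB4q3 pcB3 Cut.none Ext.none :=
  certB0 (fam := false) (s1 := true) (s2 := false) (a := 0) (b := 3) (c := 3) (cn := .pnn) (n1 := ndB4q0) (n2 := ndB4q3) (pc := pcB3) (cut := Cut.none) (xt := Ext.none) (P1 := 0) (W1 := 536870912) (P2 := 0) (W2 := 1230186008) (P3 := 536870912) (W3 := 50465866) (N0 := 3) (En := eng) (mo := mog) (C1 := cd4q0) (C2 := cd4q3) (C3 := pd3)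
    rfl k0_pm_033

noncomputable def f_pm_101 : ℕ → ℕ → ℕ → ℕ → Bool := onCell 536870912 536870912 536870912 536870912 536870912 50465866
    (rowB 3 eng mog cd4q1 cd4q1 pd0 0 false true false .npn 1 0 1 (qsf 536870912 536870912 536870912 536870912 0) ndB4q1 ndB4q1 pcB0 Cut.none Ext.none)

def k0_pm_101 : ∃ t, chk3 f_pm_101 t 1 1 1 = true :=
  ⟨(l 4), by decide +kernel⟩

theorem c_pm_101 : CertB 536870912 536870912 536870912 536870912 536870912 50465866 3 eng mog cd4q1 cd4q1 pd0 false true false .npn 1 0 1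
    ndB4q1 ndB4q1 pcB0 Cut.none Ext.none :=
  certB0 (fam := false) (s1 := true) (s2 := false) (a := 1) (b := 0) (c := 1) (cn := .npn) (n1 := ndB4q1) (n2 := ndB4q1) (pc := pcB0) (cut := Cut.none) (xt := Ext.none) (P1 := 536870912) (W1 := 536870912) (P2 := 536870912) (W2 := 536870912) (P3 := 536870912) (W3 := 50465866) (N0 := 3) (En := eng) (mo := mog) (C1 := cd4q1) (C2 := cd4q1) (C3 := pd0)
    rfl k0_pm_101

noncomputable def f_pm_102 : ℕ → ℕ → ℕ → ℕ → Bool := onCell 536870912 536870912 1073741824 536870912 536870912 50465866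
    (rowB 3 eng mog cd4q1 cd4q2 pd0 0 false true false .npp 1 0 2 (qsf 536870912 536870912 1073741824 536870912 0) ndB4q1 ndB4q2 pcB0 Cut.none Ext.none)

def k0_pm_102 : ∃ t, chk3 f_pm_102 t 1 1 1 = true :=
  ⟨(l 4), by decide +kernel⟩

theorem c_pm_102 : CertB 536870912 536870912 1073741824 536870912 536870912 50465866 3 eng mog cd4q1 cd4q2 pd0 false true false .npp 1 0 2
    ndB4q1 ndB4q2 pcB0 Cut.none Ext.none :=
  certB0 (fam := false) (s1 := true) (s2 := false) (a := 1) (b := 0) (c := 2) (cn := .npp) (n1 := ndB4q1) (n2 := ndB4q2) (pc := pcB0) (cut := Cut.none) (xt := Ext.none) (P1 := 536870912) (W1 := 536870912) (P2 := 1073741824) (W2 := 536870912) (P3 := 536870912) (W3 := 50465866) (N0 := 3) (En := eng) (mo := mog) (C1 := cd4q1) (C2 := cd4q2) (C3 := pd0)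
    rfl k0_pm_102

noncomputable def f_pm_112 : ℕ → ℕ → ℕ → ℕ → Bool := onCell 536870912 536870912 1073741824 536870912 536870912 50465866
    (rowB 3 eng mog cd4q1 cd4q2 pd1 0 false true false .dn 1 1 2 (qsf 536870912 536870912 1073741824 536870912 1) ndB4q1 ndB4q2 pcB1 Cut.none Ext.none)

def k0_pm_112 : ∃ t, chk3 f_pm_112 t 1 1 1 = true :=
  ⟨(l 4), by decide +kernel⟩

theorem c_pm_112 : CertB 536870912 536870912 1073741824 536870912 536870912 50465866 3 eng mog cd4q1 cd4q2 pd1 false true false .dn 1 1 2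
    ndB4q1 ndB4q2 pcB1 Cut.none Ext.none :=
  certB0 (fam := false) (s1 := true) (s2 := false) (a := 1) (b := 1) (c := 2) (cn := .dn) (n1 := ndB4q1) (n2 := ndB4q2) (pc := pcB1) (cut := Cut.none) (xt := Ext.none) (P1 := 536870912) (W1 := 536870912) (P2 := 1073741824) (W2 := 536870912) (P3 := 536870912) (W3 := 50465866) (N0 := 3) (En := eng) (mo := mog) (C1 := cd4q1) (C2 := cd4q2) (C3 := pd1)
    rfl k0_pm_112

noncomputable def f_pm_113 : ℕ → ℕ → ℕ → ℕ → Bool := onCell 536870912 536870912 0 1230186008 536870912 50465866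
    (rowB 3 eng mog cd4q1 cd4q3 pd1 0 false true false .nn 1 1 3 (qsf 536870912 536870912 0 1230186008 1) ndB4q1 ndB4q3 pcB1 Cut.none Ext.none)

def k0_pm_113 : ∃ t, chk3 f_pm_113 t 1 1 1 = true :=
  ⟨(b (b (a (l 2) (l 16830752)) (l 4)) (l 4)), by decide +kernel⟩

theorem c_pm_113 : CertB 536870912 536870912 0 1230186008 536870912 50465866 3 eng mog cd4q1 cd4q3 pd1 false true false .nn 1 1 3
    ndB4q1 ndB4q3 pcB1 Cut.none Ext.none :=
  certB0 (fam := false) (s1 := true) (s2 := false) (a := 1) (b := 1) (c := 3) (cn := .nn) (n1 := ndB4q1) (n2 := ndB4q3) (pc := pcB1) (cut := Cut.none) (xt := Ext.none) (P1 := 536870912) (W1 := 536870912) (P2 := 0) (W2 := 1230186008) (P3 := 536870912) (W3 := 50465866) (N0 := 3) (En := eng) (mo := mog) (C1 := cd4q1) (C2 := cd4q3) (C3 := pd1)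
    rfl k0_pm_113

noncomputable def f_pm_123 : ℕ → ℕ → ℕ → ℕ → Bool := onCell 1073741824 536870912 0 1230186008 536870912 50465866
    (rowB 3 eng mog cd4q1 cd4q3 pd2 2 false true false .npn 1 2 3 (qsf 536870912 536870912 0 1230186008 2) ndB4q1 ndB4q3 pcB2 Cut.none Ext.none)

def k0_pm_123 : ∃ t, chk3 f_pm_123 t 1 1 1 = true :=
  ⟨(b (a (a (l 16850768) (l 4)) (l 4)) (l 4)), by decide +kernel⟩

theorem c_pm_123 : CertB 536870912 536870912 0 1230186008 536870912 50465866 3 eng mog cd4q1 cd4q3 pd2 false true false .npn 1 2 3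
    ndB4q1 ndB4q3 pcB2 Cut.none Ext.none :=
  certB2 (fam := false) (s1 := true) (s2 := false) (a := 1) (b := 2) (c := 3) (cn := .npn) (n1 := ndB4q1) (n2 := ndB4q3) (pc := pcB2) (cut := Cut.none) (xt := Ext.none) (P1 := 536870912) (W1 := 536870912) (P2 := 0) (W2 := 1230186008) (P3 := 536870912) (W3 := 50465866) (N0 := 3) (En := eng) (mo := mog) (C1 := cd4q1) (C2 := cd4q3) (C3 := pd2)
    rfl (fun _ => rfl) k0_pm_123

noncomputable def f_pm_133 : ℕ → ℕ → ℕ → ℕ → Bool := onCell 1610612736 536870912 0 1230186008 536870912 50465866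
    (rowB 3 eng mog cd4q1 cd4q3 pd3 2 false true false .dn 1 3 3 (qsf 536870912 536870912 0 1230186008 3) ndB4q1 ndB4q3 pcB3 Cut.none Ext.none)

def k0_pm_133 : ∃ t, chk3 f_pm_133 t 1 1 1 = true :=
  ⟨(b (l 4) (l 1)), by decide +kernel⟩

theorem c_pm_133 : CertB 536870912 536870912 0 1230186008 536870912 50465866 3 eng mog cd4q1 cd4q3 pd3 false true false .dn 1 3 3
    ndB4q1 ndB4q3 pcB3 Cut.none Ext.none :=
  certB2 (fam := false) (s1 := true) (s2 := false) (a := 1) (b := 3) (c := 3) (cn := .dn) (n1 := ndB4q1) (n2 := ndB4q3) (pc := pcB3) (cut := Cut.none) (xt := Ext.none) (P1 := 536870912) (W1 := 536870912) (P2 := 0) (W2 := 1230186008) (P3 := 536870912) (W3 := 50465866) (N0 := 3) (En := eng) (mo := mog) (C1 := cd4q1) (C2 := cd4q3) (C3 := pd3)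
    rfl (fun _ => rfl) k0_pm_133

noncomputable def f_pm_202 : ℕ → ℕ → ℕ → ℕ → Bool := onCell 0 536870912 1073741824 536870912 536870912 50465866
    (rowB 3 eng mog cd4q2 cd4q2 pd0 2 false true false .pp 2 0 2 (qsf 1073741824 536870912 1073741824 536870912 0) ndB4q2 ndB4q2 pcB0 Cut.none Ext.none)

def k0_pm_202 : ∃ t, chk3 f_pm_202 t 1 1 1 = true :=
  ⟨(a (b (a (b (a (b (a (b (l 326451214711) (l 16649952)) (b (l 458521724519) (l 16936744))) (b (a (l 16655944) (l 16676528)) (l 16659072))) (b (b (l 1) (a (l 456374317079) (l 1))) (b (a (l 317324696727) (l 451005689559)) (l 16736648)))) (b (a (b (l 16656480) (l 16655424)) (l 16740296)) (a (l 16656888) (l 16678544)))) (b (b (l 1) (a (a (b (l 1) (l 16904336)) (l 1)) (l 1))) (b (a (b (l 16881544) (l 16807352)) (b (l 1) (l 17074000))) (a (l 16742024) (l 16890648))))) (a (b (b (a (l 16638944) (l 16659744)) (l 16599320)) (b (l 16474952) (a (b (l 16235240) (a (l 16315160) (l 16286344))) (l 16272944)))) (b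 (b (l 16727272) (l 16674200)) (b (l 16608720) (b (l 16522160) (l 16436112)))))) (b (a (b (l 1) (b (l 1) (a (l 17159432) (l 1)))) (l 1)) (a (b (a (l 175054091111) (l 476776014119)) (b (a (l 16683056) (l 16824584)) (a (l 16581976) (l 16715920)))) (b (a (l 514894464375) (l 1)) (b (a (l 17063656) (l 17457848)) (a (l 16898560) (l 17195208))))))), by decide +kernel⟩

theorem c_pm_202 : CertB 1073741824 536870912 1073741824 536870912 536870912 50465866 3 eng mog cd4q2 cd4q2 pd0 false true false .pp 2 0 2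
    ndB4q2 ndB4q2 pcB0 Cut.none Ext.none :=
  certB2 (fam := false) (s1 := true) (s2 := false) (a := 2) (b := 0) (c := 2) (cn := .pp) (n1 := ndB4q2) (n2 := ndB4q2) (pc := pcB0) (cut := Cut.none) (xt := Ext.none) (P1 := 1073741824) (W1 := 536870912) (P2 := 1073741824) (W2 := 536870912) (P3 := 536870912) (W3 := 50465866) (N0 := 3) (En := eng) (mo := mog) (C1 := cd4q2) (C2 := cd4q2) (C3 := pd0)
    rfl (fun _ => rfl) k0_pm_202

noncomputable def f_pm_203 : ℕ → ℕ → ℕ → ℕ → Bool := onCell 1073741824 536870912 0 1230186008 536870912 50465866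
    (rowB 3 eng mog cd4q2 cd4q3 pd0 0 false true false .up 2 0 3 (qsf 1073741824 536870912 0 1230186008 0) ndB4q2 ndB4q3 pcB0 Cut.none Ext.none)

def k0_pm_203 : ∃ t, chk3 f_pm_203 t 1 1 1 = true :=
  ⟨(b (a (l 2) (a (l 2) (b (l 3) (a (b (a (l 2) (l 3)) (l 16747256)) (b (l 3) (a (l 16748712) (l 3))))))) (b (a (a (l 2) (b (l 2) (l 105326802647))) (a (b (b (l 16726576) (l 16718472)) (a (l 16632392) (b (l 16699936) (l 16669160)))) (a (b (l 16727232) (l 16686896)) (a (b (l 16921624) (b (l 16705152) (l 16675240))) (b (b (l 16744272) (l 16733120)) (b (l 16714728) (l 16689088))))))) (a (b (a (l 2) (b (l 16756336) (a (l 16779840) (l 16658888)))) (a (b (a (l 2) (l 16923464)) (a (b (l 17186960) (l 17169440)) (b (l 16885128) (l 16877288)))) (b (a (l 16724048) (b (l 16577256) (l 16516128))) (a (b (l 16681224) (l 16691192)) (l 16531752))))) (b (a (b (l 16630440) (b (l 16568016) (l 16492280))) (a (b (l 16617960) (l 16550536)) (b (a (l 16630016) (l 16650920)) (b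 (l 16605864) (l 16577704))))) (a (b (l 16426480) (b (l 16303792) (l 16375520))) (b (a (l 16465744) (l 16528216)) (a (l 16287816) (b (l 16426872) (l 16309336))))))))), by decide +kernel⟩

theorem c_pm_203 : CertB 1073741824 536870912 0 1230186008 536870912 50465866 3 eng mog cd4q2 cd4q3 pd0 false true false .up 2 0 3
    ndB4q2 ndB4q3 pcB0 Cut.none Ext.none :=
  certB0 (fam := false) (s1 := true) (s2 := false) (a := 2) (b := 0) (c := 3) (cn := .up) (n1 := ndB4q2) (n2 := ndB4q3) (pc := pcB0) (cut := Cut.none) (xt := Ext.none) (P1 := 1073741824) (W1 := 536870912) (P2 := 0) (W2 := 1230186008) (P3 := 536870912) (W3 := 50465866) (N0 := 3) (En := eng) (mo := mog) (C1 := cd4q2) (C2 := cd4q3) (C3 := pd0)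
    rfl k0_pm_203

noncomputable def f_pm_213 : ℕ → ℕ → ℕ → ℕ → Bool := onCell 536870912 536870912 0 1230186008 536870912 50465866
    (rowB 3 eng mog cd4q2 cd4q3 pd1 2 false true false .pnn 2 1 3 (qsf 1073741824 536870912 0 1230186008 1) ndB4q2 ndB4q3 pcB1 Cut.none Ext.none)

def k0_pm_213 : ∃ t, chk3 f_pm_213 t 1 1 1 = true :=
  ⟨(b (b (a (a (l 3) (a (l 16948352) (l 16761056))) (a (a (l 16754832) (l 16796864)) (a (l 16766168) (l 16789168)))) (a (a (a (l 145123375287) (l 114521730455)) (a (b (l 16776872) (l 16737384)) (b (l 16925632) (l 16786688)))) (a (b (l 16776168) (a (l 16823896) (l 16877856))) (a (l 16874712) (l 16865392))))) (b (a (a (b (a (b (l 16732784) (l 16726688)) (l 16755136)) (a (l 16724672) (l 16830992))) (b (a (l 16821000) (l 16891928)) (a (l 17006152) (l 17106136)))) (a (b (l 16992312) (l 336115784215)) (b (l 446711049351) (l 1)))) (a (b (a (a (l 17040096) (l 17046592)) (a (l 17206224) (l 17120416))) (a (b (l 69828019591) (a (l 17347912)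 (l 17317360))) (b (l 433826571687) (l 1)))) (l 1)))), by decide +kernel⟩

theorem c_pm_213 : CertB 1073741824 536870912 0 1230186008 536870912 50465866 3 eng mog cd4q2 cd4q3 pd1 false true false .pnn 2 1 3
    ndB4q2 ndB4q3 pcB1 Cut.none Ext.none :=
  certB2 (fam := false) (s1 := true) (s2 := false) (a := 2) (b := 1) (c := 3) (cn := .pnn) (n1 := ndB4q2) (n2 := ndB4q3) (pc := pcB1) (cut := Cut.none) (xt := Ext.none) (P1 := 1073741824) (W1 := 536870912) (P2 := 0) (W2 := 1230186008) (P3 := 536870912) (W3 := 50465866) (N0 := 3) (En := eng) (mo := mog) (C1 := cd4q2) (C2 := cd4q3) (C3 := pd1)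
    rfl (fun _ => rfl) k0_pm_213

noncomputable def f_pm_303 : ℕ → ℕ → ℕ → ℕ → Bool := onCell 0 1230186008 0 1230186008 536870912 50465866
    (rowB 3 eng mog cd4q3 cd4q3 pd0 0 false true false .npn 3 0 3 (qsf 0 1230186008 0 1230186008 0) ndB4q3 ndB4q3 pcB0 Cut.none Ext.none)

def k0_pm_303 : ∃ t, chk3 f_pm_303 t 1 1 1 = true :=
  ⟨(a (b (l 3) (b (l 3) (l 1))) (b (a (l 3) (a (l 3) (l 3))) (a (b (l 3) (a (l 1) (b (l 3) (l 1)))) (b (a (b (l 3) (l 3)) (a (b (l 3) (b (l 249276367655) (a (l 16721672) (l 16725096)))) (b (a (l 3) (b (l 3) (l 16731024))) (a (b (l 16733272) (l 16713480)) (b (l 16712584) (l 16685224)))))) (a (b (a (b (l 3) (b (b (l 3) (l 1)) (l 1))) (b (a (l 243370531303) (b (l 16704768) (a (l 16693904) (l 16735800)))) (b (a (b (a (l 16687784) (l 16686504)) (l 16683288)) (b (l 16686600) (l 16682376))) (l 16679736)))) (a (l 1) (b (b (l 16673488) (l 1)) (l 1)))) (b (a (b (b (a (l 16705512) (l 16706248)) (a (b (l 16695760) (l 16692240)) (l 16697392)))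 (b (b (l 16856272) (l 16850912)) (l 16717536))) (b (a (b (l 16694296) (l 16678968)) (l 16670936)) (a (b (l 16667152) (l 16649904)) (b (l 16618192) (l 16591416))))) (b (a (b (l 16666808) (l 16655256)) (l 16629056)) (a (b (l 16599608) (l 1)) (b (l 16502552) (a (l 16394648) (l 16299160))))))))))), by decide +kernel⟩

theorem c_pm_303 : CertB 0 1230186008 0 1230186008 536870912 50465866 3 eng mog cd4q3 cd4q3 pd0 false true false .npn 3 0 3
    ndB4q3 ndB4q3 pcB0 Cut.none Ext.none :=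
  certB0 (fam := false) (s1 := true) (s2 := false) (a := 3) (b := 0) (c := 3) (cn := .npn) (n1 := ndB4q3) (n2 := ndB4q3) (pc := pcB0) (cut := Cut.none) (xt := Ext.none) (P1 := 0) (W1 := 1230186008) (P2 := 0) (W2 := 1230186008) (P3 := 536870912) (W3 := 50465866) (N0 := 3) (En := eng) (mo := mog) (C1 := cd4q3) (C2 := cd4q3) (C3 := pd0)
    rfl k0_pm_303

noncomputable def f_pm_313 : ℕ → ℕ → ℕ → ℕ → Bool := onCell 0 1230186008 0 1230186008 536870912 50465866
    (rowB 3 eng mog cd4q3 cd4q3 pd1 0 false true false .dn 3 1 3 (qsf 0 1230186008 0 1230186008 1) ndB4q3 ndB4q3 pcB1 Cut.none Ext.none)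

def k0_pm_313 : ∃ t, chk3 f_pm_313 t 1 1 1 = true :=
  ⟨(a (l 1) (b (b (l 3) (l 1)) (l 1))), by decide +kernel⟩

theorem c_pm_313 : CertB 0 1230186008 0 1230186008 536870912 50465866 3 eng mog cd4q3 cd4q3 pd1 false true false .dn 3 1 3
    ndB4q3 ndB4q3 pcB1 Cut.none Ext.none :=
  certB0 (fam := false) (s1 := true) (s2 := false) (a := 3) (b := 1) (c := 3) (cn := .dn) (n1 := ndB4q3) (n2 := ndB4q3) (pc := pcB1) (cut := Cut.none) (xt := Ext.none) (P1 := 0) (W1 := 1230186008) (P2 := 0) (W2 := 1230186008) (P3 := 536870912) (W3 := 50465866) (N0 := 3) (En := eng) (mo := mog) (C1 := cd4q3) (C2 := cd4q3) (C3 := pd1)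
    rfl k0_pm_313

noncomputable def f_mm_001 : ℕ → ℕ → ℕ → ℕ → Bool := onCell 0 536870912 536870912 536870912 536870912 50465866
    (rowB 3 eng mog cd4q0 cd4q1 pd0 0 false false false .up 0 0 1 (qsf 0 536870912 536870912 536870912 0) ndB4q0 ndB4q1 pcB0 Cut.none Ext.none)

def k0_mm_001 : ∃ t, chk3 f_mm_001 t 1 1 1 = true :=
  ⟨(l 3), by decide +kernel⟩

theorem c_mm_001 : CertB 0 536870912 536870912 536870912 536870912 50465866 3 eng mog cd4q0 cd4q1 pd0 false false false .up 0 0 1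
    ndB4q0 ndB4q1 pcB0 Cut.none Ext.none :=
  certB0 (fam := false) (s1 := false) (s2 := false) (a := 0) (b := 0) (c := 1) (cn := .up) (n1 := ndB4q0) (n2 := ndB4q1) (pc := pcB0) (cut := Cut.none) (xt := Ext.none) (P1 := 0) (W1 := 536870912) (P2 := 536870912) (W2 := 536870912) (P3 := 536870912) (W3 := 50465866) (N0 := 3) (En := eng) (mo := mog) (C1 := cd4q0) (C2 := cd4q1) (C3 := pd0)
    rfl k0_mm_001

noncomputable def f_mm_011 : ℕ → ℕ → ℕ → ℕ → Bool := onCell 0 536870912 536870912 536870912 536870912 50465866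
    (rowB 3 eng mog cd4q0 cd4q1 pd1 0 false false false .pnn 0 1 1 (qsf 0 536870912 536870912 536870912 1) ndB4q0 ndB4q1 pcB1 Cut.none Ext.none)

def k0_mm_011 : ∃ t, chk3 f_mm_011 t 1 1 1 = true :=
  ⟨(l 3), by decide +kernel⟩

theorem c_mm_011 : CertB 0 536870912 536870912 536870912 536870912 50465866 3 eng mog cd4q0 cd4q1 pd1 false false false .pnn 0 1 1
    ndB4q0 ndB4q1 pcB1 Cut.none Ext.none :=
  certB0 (fam := false) (s1 := false) (s2 := false) (a := 0) (b := 1) (c := 1) (cn := .pnn) (n1 := ndB4q0) (n2 := ndB4q1) (pc := pcB1) (cut := Cut.none) (xt := Ext.none) (P1 := 0) (W1 := 536870912) (P2 := 536870912) (W2 := 536870912) (P3 := 536870912) (W3 := 50465866) (N0 := 3) (En := eng) (mo := mog) (C1 := cd4q0) (C2 := cd4q1) (C3 := pd1)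
    rfl k0_mm_011

noncomputable def f_mm_012 : ℕ → ℕ → ℕ → ℕ → Bool := onCell 0 536870912 1073741824 536870912 536870912 50465866
    (rowB 3 eng mog cd4q0 cd4q2 pd1 0 false false false .pnp 0 1 2 (qsf 0 536870912 1073741824 536870912 1) ndB4q0 ndB4q2 pcB1 Cut.none Ext.none)

def k0_mm_012 : ∃ t, chk3 f_mm_012 t 1 1 1 = true :=
  ⟨(l 5), by decide +kernel⟩

theorem c_mm_012 : CertB 0 536870912 1073741824 536870912 536870912 50465866 3 eng mog cd4q0 cd4q2 pd1 false false false .pnp 0 1 2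
    ndB4q0 ndB4q2 pcB1 Cut.none Ext.none :=
  certB0 (fam := false) (s1 := false) (s2 := false) (a := 0) (b := 1) (c := 2) (cn := .pnp) (n1 := ndB4q0) (n2 := ndB4q2) (pc := pcB1) (cut := Cut.none) (xt := Ext.none) (P1 := 0) (W1 := 536870912) (P2 := 1073741824) (W2 := 536870912) (P3 := 536870912) (W3 := 50465866) (N0 := 3) (En := eng) (mo := mog) (C1 := cd4q0) (C2 := cd4q2) (C3 := pd1)
    rfl k0_mm_012

noncomputable def f_mm_022 : ℕ → ℕ → ℕ → ℕ → Bool := onCell 0 536870912 1073741824 536870912 536870912 50465866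
    (rowB 3 eng mog cd4q0 cd4q2 pd2 0 false false false .pp 0 2 2 (qsf 0 536870912 1073741824 536870912 2) ndB4q0 ndB4q2 pcB2 Cut.none Ext.none)

def k0_mm_022 : ∃ t, chk3 f_mm_022 t 1 1 1 = true :=
  ⟨(l 5), by decide +kernel⟩

theorem c_mm_022 : CertB 0 536870912 1073741824 536870912 536870912 50465866 3 eng mog cd4q0 cd4q2 pd2 false false false .pp 0 2 2
    ndB4q0 ndB4q2 pcB2 Cut.none Ext.none :=
  certB0 (fam := false) (s1 := false) (s2 := false) (a := 0) (b := 2) (c := 2) (cn := .pp) (n1 := ndB4q0) (n2 := ndB4q2) (pc := pcB2) (cut := Cut.none) (xt := Ext.none) (P1 := 0) (W1 := 536870912) (P2 := 1073741824) (W2 := 536870912) (P3 := 536870912) (W3 := 50465866) (N0 := 3) (En := eng) (mo := mog) (C1 := cd4q0) (C2 := cd4q2) (C3 := pd2)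
    rfl k0_mm_022

noncomputable def f_mm_023 : ℕ → ℕ → ℕ → ℕ → Bool := onCell 0 536870912 0 1230186008 536870912 50465866
    (rowB 3 eng mog cd4q0 cd4q3 pd2 0 false false false .up 0 2 3 (qsf 0 536870912 0 1230186008 2) ndB4q0 ndB4q3 pcB2 Cut.none Ext.none)

def k0_mm_023 : ∃ t, chk3 f_mm_023 t 1 1 1 = true :=
  ⟨(l 5), by decide +kernel⟩

theorem c_mm_023 : CertB 0 536870912 0 1230186008 536870912 50465866 3 eng mog cd4q0 cd4q3 pd2 false false false .up 0 2 3
    ndB4q0 ndB4q3 pcB2 Cut.none Ext.none :=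
  certB0 (fam := false) (s1 := false) (s2 := false) (a := 0) (b := 2) (c := 3) (cn := .up) (n1 := ndB4q0) (n2 := ndB4q3) (pc := pcB2) (cut := Cut.none) (xt := Ext.none) (P1 := 0) (W1 := 536870912) (P2 := 0) (W2 := 1230186008) (P3 := 536870912) (W3 := 50465866) (N0 := 3) (En := eng) (mo := mog) (C1 := cd4q0) (C2 := cd4q3) (C3 := pd2)
    rfl k0_mm_023

noncomputable def f_mm_033 : ℕ → ℕ → ℕ → ℕ → Bool := onCell 0 536870912 0 1230186008 536870912 50465866
    (rowB 3 eng mog cd4q0 cd4q3 pd3 0 false false false .pnn 0 3 3 (qsf 0 536870912 0 1230186008 3) ndB4q0 ndB4q3 pcB3 Cut.none Ext.none)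

def k0_mm_033 : ∃ t, chk3 f_mm_033 t 1 1 1 = true :=
  ⟨(l 5), by decide +kernel⟩

theorem c_mm_033 : CertB 0 536870912 0 1230186008 536870912 50465866 3 eng mog cd4q0 cd4q3 pd3 false false false .pnn 0 3 3
    ndB4q0 ndB4q3 pcB3 Cut.none Ext.none :=
  certB0 (fam := false) (s1 := false) (s2 := false) (a := 0) (b := 3) (c := 3) (cn := .pnn) (n1 := ndB4q0) (n2 := ndB4q3) (pc := pcB3) (cut := Cut.none) (xt := Ext.none) (P1 := 0) (W1 := 536870912) (P2 := 0) (W2 := 1230186008) (P3 := 536870912) (W3 := 50465866) (N0 := 3) (En := eng) (mo := mog) (C1 := cd4q0) (C2 := cd4q3) (C3 := pd3)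
    rfl k0_mm_033

noncomputable def f_mm_101 : ℕ → ℕ → ℕ → ℕ → Bool := onCell 536870912 536870912 536870912 536870912 536870912 50465866
    (rowB 3 eng mog cd4q1 cd4q1 pd0 0 false false false .npn 1 0 1 (qsf 536870912 536870912 536870912 536870912 0) ndB4q1 ndB4q1 pcB0 Cut.none Ext.none)

def k0_mm_101 : ∃ t, chk3 f_mm_101 t 1 1 1 = true :=
  ⟨(l 3), by decide +kernel⟩

theorem c_mm_101 : CertB 536870912 536870912 536870912 536870912 536870912 50465866 3 eng mog cd4q1 cd4q1 pd0 false false false .npn 1 0 1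
    ndB4q1 ndB4q1 pcB0 Cut.none Ext.none :=
  certB0 (fam := false) (s1 := false) (s2 := false) (a := 1) (b := 0) (c := 1) (cn := .npn) (n1 := ndB4q1) (n2 := ndB4q1) (pc := pcB0) (cut := Cut.none) (xt := Ext.none) (P1 := 536870912) (W1 := 536870912) (P2 := 536870912) (W2 := 536870912) (P3 := 536870912) (W3 := 50465866) (N0 := 3) (En := eng) (mo := mog) (C1 := cd4q1) (C2 := cd4q1) (C3 := pd0)
    rfl k0_mm_101

noncomputable def f_mm_102 : ℕ → ℕ → ℕ → ℕ → Bool := onCell 536870912 536870912 1073741824 536870912 536870912 50465866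
    (rowB 3 eng mog cd4q1 cd4q2 pd0 0 false false false .npp 1 0 2 (qsf 536870912 536870912 1073741824 536870912 0) ndB4q1 ndB4q2 pcB0 Cut.none Ext.none)

def k0_mm_102 : ∃ t, chk3 f_mm_102 t 1 1 1 = true :=
  ⟨(l 5), by decide +kernel⟩

theorem c_mm_102 : CertB 536870912 536870912 1073741824 536870912 536870912 50465866 3 eng mog cd4q1 cd4q2 pd0 false false false .npp 1 0 2
    ndB4q1 ndB4q2 pcB0 Cut.none Ext.none :=
  certB0 (fam := false) (s1 := false) (s2 := false) (a := 1) (b := 0) (c := 2) (cn := .npp) (n1 := ndB4q1) (n2 := ndB4q2) (pc := pcB0) (cut := Cut.none) (xt := Ext.none) (P1 := 536870912) (W1 := 536870912) (P2 := 1073741824) (W2 := 536870912) (P3 := 536870912) (W3 := 50465866) (N0 := 3) (En := eng) (mo := mog) (C1 := cd4q1) (C2 := cd4q2) (C3 := pd0)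
    rfl k0_mm_102

noncomputable def f_mm_112 : ℕ → ℕ → ℕ → ℕ → Bool := onCell 536870912 536870912 1073741824 536870912 536870912 50465866
    (rowB 3 eng mog cd4q1 cd4q2 pd1 0 false false false .dn 1 1 2 (qsf 536870912 536870912 1073741824 536870912 1) ndB4q1 ndB4q2 pcB1 Cut.none Ext.none)

def k0_mm_112 : ∃ t, chk3 f_mm_112 t 1 1 1 = true :=
  ⟨(l 5), by decide +kernel⟩

theorem c_mm_112 : CertB 536870912 536870912 1073741824 536870912 536870912 50465866 3 eng mog cd4q1 cd4q2 pd1 false false false .dn 1 1 2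
    ndB4q1 ndB4q2 pcB1 Cut.none Ext.none :=
  certB0 (fam := false) (s1 := false) (s2 := false) (a := 1) (b := 1) (c := 2) (cn := .dn) (n1 := ndB4q1) (n2 := ndB4q2) (pc := pcB1) (cut := Cut.none) (xt := Ext.none) (P1 := 536870912) (W1 := 536870912) (P2 := 1073741824) (W2 := 536870912) (P3 := 536870912) (W3 := 50465866) (N0 := 3) (En := eng) (mo := mog) (C1 := cd4q1) (C2 := cd4q2) (C3 := pd1)
    rfl k0_mm_112

noncomputable def f_mm_113 : ℕ → ℕ → ℕ → ℕ → Bool := onCell 536870912 536870912 0 1230186008 536870912 50465866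
    (rowB 3 eng mog cd4q1 cd4q3 pd1 0 false false false .nn 1 1 3 (qsf 536870912 536870912 0 1230186008 1) ndB4q1 ndB4q3 pcB1 Cut.none Ext.none)

def k0_mm_113 : ∃ t, chk3 f_mm_113 t 1 1 1 = true :=
  ⟨(l 5), by decide +kernel⟩

theorem c_mm_113 : CertB 536870912 536870912 0 1230186008 536870912 50465866 3 eng mog cd4q1 cd4q3 pd1 false false false .nn 1 1 3
    ndB4q1 ndB4q3 pcB1 Cut.none Ext.none :=
  certB0 (fam := false) (s1 := false) (s2 := false) (a := 1) (b := 1) (c := 3) (cn := .nn) (n1 := ndB4q1) (n2 := ndB4q3) (pc := pcB1) (cut := Cut.none) (xt := Ext.none) (P1 := 536870912) (W1 := 536870912) (P2 := 0) (W2 := 1230186008) (P3 := 536870912) (W3 := 50465866) (N0 := 3) (En := eng) (mo := mog) (C1 := cd4q1) (C2 := cd4q3) (C3 := pd1)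
    rfl k0_mm_113

noncomputable def f_mm_123 : ℕ → ℕ → ℕ → ℕ → Bool := onCell 536870912 536870912 0 1230186008 536870912 50465866
    (rowB 3 eng mog cd4q1 cd4q3 pd2 0 false false false .npn 1 2 3 (qsf 536870912 536870912 0 1230186008 2) ndB4q1 ndB4q3 pcB2 Cut.none Ext.none)

def k0_mm_123 : ∃ t, chk3 f_mm_123 t 1 1 1 = true :=
  ⟨(l 5), by decide +kernel⟩

theorem c_mm_123 : CertB 536870912 536870912 0 1230186008 536870912 50465866 3 eng mog cd4q1 cd4q3 pd2 false false false .npn 1 2 3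
    ndB4q1 ndB4q3 pcB2 Cut.none Ext.none :=
  certB0 (fam := false) (s1 := false) (s2 := false) (a := 1) (b := 2) (c := 3) (cn := .npn) (n1 := ndB4q1) (n2 := ndB4q3) (pc := pcB2) (cut := Cut.none) (xt := Ext.none) (P1 := 536870912) (W1 := 536870912) (P2 := 0) (W2 := 1230186008) (P3 := 536870912) (W3 := 50465866) (N0 := 3) (En := eng) (mo := mog) (C1 := cd4q1) (C2 := cd4q3) (C3 := pd2)
    rfl k0_mm_123

noncomputable def f_mm_133 : ℕ → ℕ → ℕ → ℕ → Bool := onCell 536870912 536870912 0 1230186008 536870912 50465866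
    (rowB 3 eng mog cd4q1 cd4q3 pd3 0 false false false .dn 1 3 3 (qsf 536870912 536870912 0 1230186008 3) ndB4q1 ndB4q3 pcB3 Cut.none Ext.none)

def k0_mm_133 : ∃ t, chk3 f_mm_133 t 1 1 1 = true :=
  ⟨(l 5), by decide +kernel⟩

theorem c_mm_133 : CertB 536870912 536870912 0 1230186008 536870912 50465866 3 eng mog cd4q1 cd4q3 pd3 false false false .dn 1 3 3
    ndB4q1 ndB4q3 pcB3 Cut.none Ext.none :=
  certB0 (fam := false) (s1 := false) (s2 := false) (a := 1) (b := 3) (c := 3) (cn := .dn) (n1 := ndB4q1) (n2 := ndB4q3) (pc := pcB3) (cut := Cut.none) (xt := Ext.none) (P1 := 536870912) (W1 := 536870912) (P2 := 0) (W2 := 1230186008) (P3 := 536870912) (W3 := 50465866) (N0 := 3) (En := eng) (mo := mog) (C1 := cd4q1) (C2 := cd4q3) (C3 := pd3)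
    rfl k0_mm_133

noncomputable def f_mm_202 : ℕ → ℕ → ℕ → ℕ → Bool := onCell 1073741824 536870912 1073741824 536870912 536870912 50465866
    (rowB 3 eng mog cd4q2 cd4q2 pd0 0 false false false .pp 2 0 2 (qsf 1073741824 536870912 1073741824 536870912 0) ndB4q2 ndB4q2 pcB0 Cut.none Ext.none)

def k0_mm_202 : ∃ t, chk3 f_mm_202 t 1 1 1 = true :=
  ⟨(l 3), by decide +kernel⟩

theorem c_mm_202 : CertB 1073741824 536870912 1073741824 536870912 536870912 50465866 3 eng mog cd4q2 cd4q2 pd0 false false false .pp 2 0 2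
    ndB4q2 ndB4q2 pcB0 Cut.none Ext.none :=
  certB0 (fam := false) (s1 := false) (s2 := false) (a := 2) (b := 0) (c := 2) (cn := .pp) (n1 := ndB4q2) (n2 := ndB4q2) (pc := pcB0) (cut := Cut.none) (xt := Ext.none) (P1 := 1073741824) (W1 := 536870912) (P2 := 1073741824) (W2 := 536870912) (P3 := 536870912) (W3 := 50465866) (N0 := 3) (En := eng) (mo := mog) (C1 := cd4q2) (C2 := cd4q2) (C3 := pd0)
    rfl k0_mm_202

noncomputable def f_mm_203 : ℕ → ℕ → ℕ → ℕ → Bool := onCell 1073741824 536870912 0 1230186008 536870912 50465866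
    (rowB 3 eng mog cd4q2 cd4q3 pd0 0 false false false .up 2 0 3 (qsf 1073741824 536870912 0 1230186008 0) ndB4q2 ndB4q3 pcB0 Cut.none Ext.none)

def k0_mm_203 : ∃ t, chk3 f_mm_203 t 1 1 1 = true :=
  ⟨(b (l 5) (b (l 3) (l 3))), by decide +kernel⟩

theorem c_mm_203 : CertB 1073741824 536870912 0 1230186008 536870912 50465866 3 eng mog cd4q2 cd4q3 pd0 false false false .up 2 0 3
    ndB4q2 ndB4q3 pcB0 Cut.none Ext.none :=
  certB0 (fam := false) (s1 := false) (s2 := false) (a := 2) (b := 0) (c := 3) (cn := .up) (n1 := ndB4q2) (n2 := ndB4q3) (pc := pcB0) (cut := Cut.none) (xt := Ext.none) (P1 := 1073741824) (W1 := 536870912) (P2 := 0) (W2 := 1230186008) (P3 := 536870912) (W3 := 50465866) (N0 := 3) (En := eng) (mo := mog) (C1 := cd4q2) (C2 := cd4q3) (C3 := pd0)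
    rfl k0_mm_203

noncomputable def f_mm_213 : ℕ → ℕ → ℕ → ℕ → Bool := onCell 536870912 536870912 0 1230186008 536870912 50465866
    (rowB 3 eng mog cd4q2 cd4q3 pd1 2 false false false .pnn 2 1 3 (qsf 1073741824 536870912 0 1230186008 1) ndB4q2 ndB4q3 pcB1 Cut.none Ext.none)

def k0_mm_213 : ∃ t, chk3 f_mm_213 t 1 1 1 = true :=
  ⟨(b (l 5) (l 5)), by decide +kernel⟩

theorem c_mm_213 : CertB 1073741824 536870912 0 1230186008 536870912 50465866 3 eng mog cd4q2 cd4q3 pd1 false false false .pnn 2 1 3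
    ndB4q2 ndB4q3 pcB1 Cut.none Ext.none :=
  certB2 (fam := false) (s1 := false) (s2 := false) (a := 2) (b := 1) (c := 3) (cn := .pnn) (n1 := ndB4q2) (n2 := ndB4q3) (pc := pcB1) (cut := Cut.none) (xt := Ext.none) (P1 := 1073741824) (W1 := 536870912) (P2 := 0) (W2 := 1230186008) (P3 := 536870912) (W3 := 50465866) (N0 := 3) (En := eng) (mo := mog) (C1 := cd4q2) (C2 := cd4q3) (C3 := pd1)
    rfl (fun _ => rfl) k0_mm_213

noncomputable def f_mm_303 : ℕ → ℕ → ℕ → ℕ → Bool := onCell 0 1230186008 0 1230186008 536870912 50465866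
    (rowB 3 eng mog cd4q3 cd4q3 pd0 0 false false false .npn 3 0 3 (qsf 0 1230186008 0 1230186008 0) ndB4q3 ndB4q3 pcB0 Cut.none Ext.none)

def k0_mm_303 : ∃ t, chk3 f_mm_303 t 1 1 1 = true :=
  ⟨(a (b (l 3) (l 3)) (b (l 3) (l 3))), by decide +kernel⟩

theorem c_mm_303 : CertB 0 1230186008 0 1230186008 536870912 50465866 3 eng mog cd4q3 cd4q3 pd0 false false false .npn 3 0 3
    ndB4q3 ndB4q3 pcB0 Cut.none Ext.none :=
  certB0 (fam := false) (s1 := false) (s2 := false) (a := 3) (b := 0) (c := 3) (cn := .npn) (n1 := ndB4q3) (n2 := ndB4q3) (pc := pcB0) (cut := Cut.none) (xt := Ext.none) (P1 := 0) (W1 := 1230186008) (P2 := 0) (W2 := 1230186008) (P3 := 536870912) (W3 := 50465866) (N0 := 3) (En := eng) (mo := mog) (C1 := cd4q3) (C2 := cd4q3) (C3 := pd0)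
    rfl k0_mm_303

noncomputable def f_mm_313 : ℕ → ℕ → ℕ → ℕ → Bool := onCell 0 1230186008 0 1230186008 536870912 50465866
    (rowB 3 eng mog cd4q3 cd4q3 pd1 0 false false false .dn 3 1 3 (qsf 0 1230186008 0 1230186008 1) ndB4q3 ndB4q3 pcB1 Cut.none Ext.none)

def k0_mm_313 : ∃ t, chk3 f_mm_313 t 1 1 1 = true :=
  ⟨(a (l 1) (b (l 3) (l 1))), by decide +kernel⟩

theorem c_mm_313 : CertB 0 1230186008 0 1230186008 536870912 50465866 3 eng mog cd4q3 cd4q3 pd1 false false false .dn 3 1 3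
    ndB4q3 ndB4q3 pcB1 Cut.none Ext.none :=
  certB0 (fam := false) (s1 := false) (s2 := false) (a := 3) (b := 1) (c := 3) (cn := .dn) (n1 := ndB4q3) (n2 := ndB4q3) (pc := pcB1) (cut := Cut.none) (xt := Ext.none) (P1 := 0) (W1 := 1230186008) (P2 := 0) (W2 := 1230186008) (P3 := 536870912) (W3 := 50465866) (N0 := 3) (En := eng) (mo := mog) (C1 := cd4q3) (C2 := cd4q3) (C3 := pd1)
    rfl k0_mm_313

end Pool.Agent.Strip051.G.I5000_5470.Tab.C.BB44

namespace Pool.Agent.Strip051.G.I5000_5470.Tab.C.BB45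

open Pool.Agent.Strip051.PB Pool.Agent.Strip051.PB.T
open Pool.Agent.Strip051.G.I5000_5470.Tab

noncomputable def f_pp_001 : ℕ → ℕ → ℕ → ℕ → Bool := onCell 0 536870912 536870912 536870912 536870912 50465866
    (rowB 3 eng mog cd4q0 cd5q1 pd0 0 false true true .up 0 0 1 (qsf 0 536870912 536870912 536870912 0) ndB4q0 ndB5q1 pcB0 Cut.none Ext.none)

def k0_pp_001 : ∃ t, chk3 f_pp_001 t 1 1 1 = true :=
  ⟨(l 3), by decide +kernel⟩

theorem c_pp_001 : CertB 0 536870912 536870912 536870912 536870912 50465866 3 eng mog cd4q0 cd5q1 pd0 false true true .up 0 0 1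
    ndB4q0 ndB5q1 pcB0 Cut.none Ext.none :=
  certB0 (fam := false) (s1 := true) (s2 := true) (a := 0) (b := 0) (c := 1) (cn := .up) (n1 := ndB4q0) (n2 := ndB5q1) (pc := pcB0) (cut := Cut.none) (xt := Ext.none) (P1 := 0) (W1 := 536870912) (P2 := 536870912) (W2 := 536870912) (P3 := 536870912) (W3 := 50465866) (N0 := 3) (En := eng) (mo := mog) (C1 := cd4q0) (C2 := cd5q1) (C3 := pd0)
    rfl k0_pp_001

noncomputable def f_pp_011 : ℕ → ℕ → ℕ → ℕ → Bool := onCell 0 536870912 536870912 536870912 536870912 50465866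
    (rowB 3 eng mog cd4q0 cd5q1 pd1 0 false true true .pnn 0 1 1 (qsf 0 536870912 536870912 536870912 1) ndB4q0 ndB5q1 pcB1 Cut.none Ext.none)

def k0_pp_011 : ∃ t, chk3 f_pp_011 t 1 1 1 = true :=
  ⟨(l 3), by decide +kernel⟩

theorem c_pp_011 : CertB 0 536870912 536870912 536870912 536870912 50465866 3 eng mog cd4q0 cd5q1 pd1 false true true .pnn 0 1 1
    ndB4q0 ndB5q1 pcB1 Cut.none Ext.none :=
  certB0 (fam := false) (s1 := true) (s2 := true) (a := 0) (b := 1) (c := 1) (cn := .pnn) (n1 := ndB4q0) (n2 := ndB5q1) (pc := pcB1) (cut := Cut.none) (xt := Ext.none) (P1 := 0) (W1 := 536870912) (P2 := 536870912) (W2 := 536870912) (P3 := 536870912) (W3 := 50465866) (N0 := 3) (En := eng) (mo := mog) (C1 := cd4q0) (C2 := cd5q1) (C3 := pd1)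
    rfl k0_pp_011

noncomputable def f_pp_012 : ℕ → ℕ → ℕ → ℕ → Bool := onCell 0 536870912 536870912 536870912 536870912 50465866
    (rowB 3 eng mog cd4q0 cd5q2 pd1 1 false true true .pnp 0 1 2 (qsf 0 536870912 1073741824 536870912 1) ndB4q0 ndB5q2 pcB1 Cut.none Ext.none)

def k0_pp_012 : ∃ t, chk3 f_pp_012 t 1 1 1 = true :=
  ⟨(a (l 3) (b (l 3) (a (l 3) (b (l 3) (a (l 3) (b (l 3) (l 234780142423))))))), by decide +kernel⟩

theorem c_pp_012 : CertB 0 536870912 1073741824 536870912 536870912 50465866 3 eng mog cd4q0 cd5q2 pd1 false true true .pnp 0 1 2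
    ndB4q0 ndB5q2 pcB1 Cut.none Ext.none :=
  certB1 (fam := false) (s1 := true) (s2 := true) (a := 0) (b := 1) (c := 2) (cn := .pnp) (n1 := ndB4q0) (n2 := ndB5q2) (pc := pcB1) (cut := Cut.none) (xt := Ext.none) (P1 := 0) (W1 := 536870912) (P2 := 1073741824) (W2 := 536870912) (P3 := 536870912) (W3 := 50465866) (N0 := 3) (En := eng) (mo := mog) (C1 := cd4q0) (C2 := cd5q2) (C3 := pd1)
    rfl (fun _ => rfl) k0_pp_012

noncomputable def f_pp_022 : ℕ → ℕ → ℕ → ℕ → Bool := onCell 0 536870912 1073741824 536870912 536870912 50465866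
    (rowB 3 eng mog cd4q0 cd5q2 pd2 1 false true true .pp 0 2 2 (qsf 0 536870912 1073741824 536870912 2) ndB4q0 ndB5q2 pcB2 Cut.none Ext.none)

def k0_pp_022 : ∃ t, chk3 f_pp_022 t 1 1 1 = true :=
  ⟨(a (b (b (b (l 3) (a (b (l 3) (a (l 3) (b (l 3) (l 435033279943)))) (b (a (l 3) (l 16789400)) (a (b (l 16733752) (l 16721480)) (l 176261896855))))) (b (b (b (a (a (a (l 3) (l 378661762327)) (a (l 16766272) (l 16681744))) (a (a (l 16700992) (l 16716760)) (l 16737416))) (b (a (a (a (l 16604512) (l 16628904)) (l 16661328)) (a (l 16699336) (l 16727768))) (a (a (a (b (l 16598960) (b (l 16596104) (l 16594200))) (b (l 16623360) (l 16619616))) (b (l 16656376) (b (l 16653608) (l 16651928)))) (a (b (l 16694200) (l 16691696)) (b (l 16722992) (l 16720488)))))) (a (a (a (l 16576744) (l 16601872)) (l 16636616)) (a (l 16677128) (l 16705280)))) (a (a (a (l 16519624) (l 16546504)) (l 16585400)) (a (l 16630824) (l 16659144))))) (b (a (a (b (l 16432968) (l 16287536)) (l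 16431576)) (b (l 16568384) (l 16464544))) (b (a (l 16260968) (l 16470192)) (a (a (l 16234432) (l 16367904)) (l 2))))) (b (b (a (b (a (l 522543939271) (l 294910617815)) (b (a (l 16829320) (l 16923344)) (l 16876584))) (b (a (l 17068056) (l 17099056)) (a (l 17030096) (l 17205912)))) (a (b (b (b (l 16811088) (a (b (l 16759088) (l 16752080)) (l 16842616))) (l 16776808)) (l 16739088)) (a (b (l 16950800) (l 2)) (l 2)))) (b (a (a (l 16591856) (l 2)) (l 2)) (l 2)))), by decide +kernel⟩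

theorem c_pp_022 : CertB 0 536870912 1073741824 536870912 536870912 50465866 3 eng mog cd4q0 cd5q2 pd2 false true true .pp 0 2 2
    ndB4q0 ndB5q2 pcB2 Cut.none Ext.none :=
  certB1 (fam := false) (s1 := true) (s2 := true) (a := 0) (b := 2) (c := 2) (cn := .pp) (n1 := ndB4q0) (n2 := ndB5q2) (pc := pcB2) (cut := Cut.none) (xt := Ext.none) (P1 := 0) (W1 := 536870912) (P2 := 1073741824) (W2 := 536870912) (P3 := 536870912) (W3 := 50465866) (N0 := 3) (En := eng) (mo := mog) (C1 := cd4q0) (C2 := cd5q2) (C3 := pd2)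
    rfl (fun _ => rfl) k0_pp_022

noncomputable def f_pp_023 : ℕ → ℕ → ℕ → ℕ → Bool := onCell 0 536870912 0 1230186008 536870912 50465866
    (rowB 3 eng mog cd4q0 cd5q3 pd2 0 false true true .up 0 2 3 (qsf 0 536870912 0 1230186008 2) ndB4q0 ndB5q3 pcB2 Cut.none Ext.none)

def k0_pp_023 : ∃ t, chk3 f_pp_023 t 1 1 1 = true :=
  ⟨(b (b (l 4) (a (l 2) (a (l 2) (a (l 16767800) (l 16764368))))) (b (a (b (l 2) (a (l 2) (b (l 2) (a (l 2) (l 16723240))))) (a (a (b (l 2) (b (l 16718992) (l 16688656))) (b (l 16737904) (b (l 16717040) (l 16701544)))) (b (a (l 16742664) (l 16763200)) (l 16794272)))) (a (b (a (l 2) (b (a (l 16746744) (l 16670528)) (a (l 16629976) (l 16585080)))) (a (b (a (l 2) (l 16506448)) (a (b (l 16367344) (l 16301880)) (b (l 16369768) (l 16344064)))) (b (a (l 16484568) (l 16498672)) (l 16422424)))) (b (a (b (a (l 16645448) (l 16692960)) (l 16642704)) (a (l 16846936) (l 17013904))) (a (b (l 16677176) (l 16928152)) (a (b (l 16911480) (a (l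 16915224) (l 17016600))) (b (l 17127272) (l 17165840)))))))), by decide +kernel⟩

theorem c_pp_023 : CertB 0 536870912 0 1230186008 536870912 50465866 3 eng mog cd4q0 cd5q3 pd2 false true true .up 0 2 3
    ndB4q0 ndB5q3 pcB2 Cut.none Ext.none :=
  certB0 (fam := false) (s1 := true) (s2 := true) (a := 0) (b := 2) (c := 3) (cn := .up) (n1 := ndB4q0) (n2 := ndB5q3) (pc := pcB2) (cut := Cut.none) (xt := Ext.none) (P1 := 0) (W1 := 536870912) (P2 := 0) (W2 := 1230186008) (P3 := 536870912) (W3 := 50465866) (N0 := 3) (En := eng) (mo := mog) (C1 := cd4q0) (C2 := cd5q3) (C3 := pd2)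
    rfl k0_pp_023

noncomputable def f_pp_033 : ℕ → ℕ → ℕ → ℕ → Bool := onCell 1610612736 536870912 0 1230186008 536870912 50465866
    (rowB 3 eng mog cd4q0 cd5q3 pd3 2 false true true .pnn 0 3 3 (qsf 0 536870912 0 1230186008 3) ndB4q0 ndB5q3 pcB3 Cut.none Ext.none)

def k0_pp_033 : ∃ t, chk3 f_pp_033 t 1 1 1 = true :=
  ⟨(b (b (l 4) (a (a (a (b (l 16766704) (l 16754600)) (l 16769920)) (a (l 16770048) (l 16771520))) (a (l 4) (l 4)))) (b (a (a (a (b (l 16745712) (l 16712448)) (b (l 16747008) (l 16693632))) (a (l 16748256) (l 16762768))) (a (a (l 1016866930311) (b (l 16791704) (a (l 16783512) (l 1)))) (b (a (l 1223026025015) (l 1)) (l 1)))) (a (b (a (a (l 16638824) (l 16669672)) (a (l 16769280) (l 707629715367))) (a (a (b (l 16499344) (l 16345832)) (b (l 16525400) (l 16349624))) (b (a (l 16522248) (l 1)) (l 1)))) (l 1)))), by decide +kernel⟩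

theorem c_pp_033 : CertB 0 536870912 0 1230186008 536870912 50465866 3 eng mog cd4q0 cd5q3 pd3 false true true .pnn 0 3 3
    ndB4q0 ndB5q3 pcB3 Cut.none Ext.none :=
  certB2 (fam := false) (s1 := true) (s2 := true) (a := 0) (b := 3) (c := 3) (cn := .pnn) (n1 := ndB4q0) (n2 := ndB5q3) (pc := pcB3) (cut := Cut.none) (xt := Ext.none) (P1 := 0) (W1 := 536870912) (P2 := 0) (W2 := 1230186008) (P3 := 536870912) (W3 := 50465866) (N0 := 3) (En := eng) (mo := mog) (C1 := cd4q0) (C2 := cd5q3) (C3 := pd3)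
    rfl (fun _ => rfl) k0_pp_033

noncomputable def f_pp_101 : ℕ → ℕ → ℕ → ℕ → Bool := onCell 536870912 536870912 536870912 536870912 536870912 50465866
    (rowB 3 eng mog cd4q1 cd5q1 pd0 0 false true true .npn 1 0 1 (qsf 536870912 536870912 536870912 536870912 0) ndB4q1 ndB5q1 pcB0 Cut.none Ext.none)

def k0_pp_101 : ∃ t, chk3 f_pp_101 t 1 1 1 = true :=
  ⟨(l 3), by decide +kernel⟩

theorem c_pp_101 : CertB 536870912 536870912 536870912 536870912 536870912 50465866 3 eng mog cd4q1 cd5q1 pd0 false true true .npn 1 0 1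
    ndB4q1 ndB5q1 pcB0 Cut.none Ext.none :=
  certB0 (fam := false) (s1 := true) (s2 := true) (a := 1) (b := 0) (c := 1) (cn := .npn) (n1 := ndB4q1) (n2 := ndB5q1) (pc := pcB0) (cut := Cut.none) (xt := Ext.none) (P1 := 536870912) (W1 := 536870912) (P2 := 536870912) (W2 := 536870912) (P3 := 536870912) (W3 := 50465866) (N0 := 3) (En := eng) (mo := mog) (C1 := cd4q1) (C2 := cd5q1) (C3 := pd0)
    rfl k0_pp_101

noncomputable def f_pp_102 : ℕ → ℕ → ℕ → ℕ → Bool := onCell 536870912 536870912 0 536870912 536870912 50465866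
    (rowB 3 eng mog cd4q1 cd5q2 pd0 1 false true true .npp 1 0 2 (qsf 536870912 536870912 1073741824 536870912 0) ndB4q1 ndB5q2 pcB0 Cut.none Ext.none)

def k0_pp_102 : ∃ t, chk3 f_pp_102 t 1 1 1 = true :=
  ⟨(l 3), by decide +kernel⟩

theorem c_pp_102 : CertB 536870912 536870912 1073741824 536870912 536870912 50465866 3 eng mog cd4q1 cd5q2 pd0 false true true .npp 1 0 2
    ndB4q1 ndB5q2 pcB0 Cut.none Ext.none :=
  certB1 (fam := false) (s1 := true) (s2 := true) (a := 1) (b := 0) (c := 2) (cn := .npp) (n1 := ndB4q1) (n2 := ndB5q2) (pc := pcB0) (cut := Cut.none) (xt := Ext.none) (P1 := 536870912) (W1 := 536870912) (P2 := 1073741824) (W2 := 536870912) (P3 := 536870912) (W3 := 50465866) (N0 := 3) (En := eng) (mo := mog) (C1 := cd4q1) (C2 := cd5q2) (C3 := pd0)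
    rfl (fun _ => rfl) k0_pp_102

noncomputable def f_pp_112 : ℕ → ℕ → ℕ → ℕ → Bool := onCell 536870912 536870912 1073741824 536870912 536870912 50465866
    (rowB 3 eng mog cd4q1 cd5q2 pd1 0 false true true .dn 1 1 2 (qsf 536870912 536870912 1073741824 536870912 1) ndB4q1 ndB5q2 pcB1 Cut.none Ext.none)

def k0_pp_112 : ∃ t, chk3 f_pp_112 t 1 1 1 = true :=
  ⟨(a (b (l 3) (a (b (l 3) (b (l 3) (a (l 316922328615) (l 3)))) (l 3))) (l 3)), by decide +kernel⟩

theorem c_pp_112 : CertB 536870912 536870912 1073741824 536870912 536870912 50465866 3 eng mog cd4q1 cd5q2 pd1 false true true .dn 1 1 2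
    ndB4q1 ndB5q2 pcB1 Cut.none Ext.none :=
  certB0 (fam := false) (s1 := true) (s2 := true) (a := 1) (b := 1) (c := 2) (cn := .dn) (n1 := ndB4q1) (n2 := ndB5q2) (pc := pcB1) (cut := Cut.none) (xt := Ext.none) (P1 := 536870912) (W1 := 536870912) (P2 := 1073741824) (W2 := 536870912) (P3 := 536870912) (W3 := 50465866) (N0 := 3) (En := eng) (mo := mog) (C1 := cd4q1) (C2 := cd5q2) (C3 := pd1)
    rfl k0_pp_112

noncomputable def f_pp_113 : ℕ → ℕ → ℕ → ℕ → Bool := onCell 536870912 536870912 0 1230186008 536870912 50465866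
    (rowB 3 eng mog cd4q1 cd5q3 pd1 2 false true true .nn 1 1 3 (qsf 536870912 536870912 0 1230186008 1) ndB4q1 ndB5q3 pcB1 Cut.none Ext.none)

def k0_pp_113 : ∃ t, chk3 f_pp_113 t 1 1 1 = true :=
  ⟨(b (a (l 2) (a (l 2) (l 17020360))) (b (b (a (l 2) (a (l 539656839175) (l 16949456))) (a (a (l 2) (a (l 2) (a (l 2) (l 16916568)))) (a (a (l 16934152) (l 16955400)) (l 16969864)))) (a (a (l 3) (b (a (a (l 3) (b (l 457045286023) (l 3))) (b (l 131164908039) (l 423759458935))) (l 3))) (a (a (b (a (l 16852928) (l 16879152)) (l 368998608855)) (b (l 16906416) (b (l 16854744) (l 3)))) (a (b (l 16945176) (b (l 16910296) (l 16895336))) (b (l 16982264) (b (l 16979800) (a (l 16963568) (l 17004496))))))))), by decide +kernel⟩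

theorem c_pp_113 : CertB 536870912 536870912 0 1230186008 536870912 50465866 3 eng mog cd4q1 cd5q3 pd1 false true true .nn 1 1 3
    ndB4q1 ndB5q3 pcB1 Cut.none Ext.none :=
  certB2 (fam := false) (s1 := true) (s2 := true) (a := 1) (b := 1) (c := 3) (cn := .nn) (n1 := ndB4q1) (n2 := ndB5q3) (pc := pcB1) (cut := Cut.none) (xt := Ext.none) (P1 := 536870912) (W1 := 536870912) (P2 := 0) (W2 := 1230186008) (P3 := 536870912) (W3 := 50465866) (N0 := 3) (En := eng) (mo := mog) (C1 := cd4q1) (C2 := cd5q3) (C3 := pd1)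
    rfl (fun _ => rfl) k0_pp_113

noncomputable def f_pp_123 : ℕ → ℕ → ℕ → ℕ → Bool := onCell 536870912 536870912 0 1230186008 536870912 50465866
    (rowB 3 eng mog cd4q1 cd5q3 pd2 0 false true true .npn 1 2 3 (qsf 536870912 536870912 0 1230186008 2) ndB4q1 ndB5q3 pcB2 Cut.none Ext.none)

def k0_pp_123 : ∃ t, chk3 f_pp_123 t 1 1 1 = true :=
  ⟨(b (b (a (a (l 4) (l 16762352)) (a (l 16751784) (l 16777032))) (a (a (a (l 16767624) (l 16802216)) (b (l 16809400) (l 16898648))) (a (b (l 16850360) (l 16906248)) (b (l 16848848) (l 16930584))))) (b (a (a (b (l 16879808) (a (l 17009984) (l 17125992))) (b (l 16974816) (l 17022496))) (b (a (l 16968560) (l 1661113194503)) (a (l 1175781913799) (l 1)))) (a (b (a (a (b (l 17200880) (l 17190120)) (b (l 17139088) (l 17082968))) (b (l 17017840) (l 17017600))) (a (b (a (l 17110416) (l 17043232)) (a (b (l 17069160) (l 17050800)) (l 733399251143))) (a (l 758096350695) (l 1)))) (l 1)))), by decide +kernel⟩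

theorem c_pp_123 : CertB 536870912 536870912 0 1230186008 536870912 50465866 3 eng mog cd4q1 cd5q3 pd2 false true true .npn 1 2 3
    ndB4q1 ndB5q3 pcB2 Cut.none Ext.none :=
  certB0 (fam := false) (s1 := true) (s2 := true) (a := 1) (b := 2) (c := 3) (cn := .npn) (n1 := ndB4q1) (n2 := ndB5q3) (pc := pcB2) (cut := Cut.none) (xt := Ext.none) (P1 := 536870912) (W1 := 536870912) (P2 := 0) (W2 := 1230186008) (P3 := 536870912) (W3 := 50465866) (N0 := 3) (En := eng) (mo := mog) (C1 := cd4q1) (C2 := cd5q3) (C3 := pd2)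
    rfl k0_pp_123

noncomputable def f_pp_133 : ℕ → ℕ → ℕ → ℕ → Bool := onCell 1610612736 536870912 0 1230186008 536870912 50465866
    (rowB 3 eng mog cd4q1 cd5q3 pd3 2 false true true .dn 1 3 3 (qsf 536870912 536870912 0 1230186008 3) ndB4q1 ndB5q3 pcB3 Cut.none Ext.none)

def k0_pp_133 : ∃ t, chk3 f_pp_133 t 1 1 1 = true :=
  ⟨(b (b (l 4) (l 1)) (l 1)), by decide +kernel⟩

theorem c_pp_133 : CertB 536870912 536870912 0 1230186008 536870912 50465866 3 eng mog cd4q1 cd5q3 pd3 false true true .dn 1 3 3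
    ndB4q1 ndB5q3 pcB3 Cut.none Ext.none :=
  certB2 (fam := false) (s1 := true) (s2 := true) (a := 1) (b := 3) (c := 3) (cn := .dn) (n1 := ndB4q1) (n2 := ndB5q3) (pc := pcB3) (cut := Cut.none) (xt := Ext.none) (P1 := 536870912) (W1 := 536870912) (P2 := 0) (W2 := 1230186008) (P3 := 536870912) (W3 := 50465866) (N0 := 3) (En := eng) (mo := mog) (C1 := cd4q1) (C2 := cd5q3) (C3 := pd3)
    rfl (fun _ => rfl) k0_pp_133

noncomputable def f_pp_202 : ℕ → ℕ → ℕ → ℕ → Bool := onCell 1073741824 536870912 1073741824 536870912 536870912 50465866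
    (rowB 3 eng mog cd4q2 cd5q2 pd0 0 false true true .pp 2 0 2 (qsf 1073741824 536870912 1073741824 536870912 0) ndB4q2 ndB5q2 pcB0 Cut.none Ext.none)

def k0_pp_202 : ∃ t, chk3 f_pp_202 t 1 1 1 = true :=
  ⟨(l 3), by decide +kernel⟩

theorem c_pp_202 : CertB 1073741824 536870912 1073741824 536870912 536870912 50465866 3 eng mog cd4q2 cd5q2 pd0 false true true .pp 2 0 2
    ndB4q2 ndB5q2 pcB0 Cut.none Ext.none :=
  certB0 (fam := false) (s1 := true) (s2 := true) (a := 2) (b := 0) (c := 2) (cn := .pp) (n1 := ndB4q2) (n2 := ndB5q2) (pc := pcB0) (cut := Cut.none) (xt := Ext.none) (P1 := 1073741824) (W1 := 536870912) (P2 := 1073741824) (W2 := 536870912) (P3 := 536870912) (W3 := 50465866) (N0 := 3) (En := eng) (mo := mog) (C1 := cd4q2) (C2 := cd5q2) (C3 := pd0)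
    rfl k0_pp_202

noncomputable def f_pp_203 : ℕ → ℕ → ℕ → ℕ → Bool := onCell 0 536870912 0 1230186008 536870912 50465866
    (rowB 3 eng mog cd4q2 cd5q3 pd0 2 false true true .up 2 0 3 (qsf 1073741824 536870912 0 1230186008 0) ndB4q2 ndB5q3 pcB0 Cut.none Ext.none)

def k0_pp_203 : ∃ t, chk3 f_pp_203 t 1 1 1 = true :=
  ⟨(b (b (l 3) (l 3)) (l 3)), by decide +kernel⟩

theorem c_pp_203 : CertB 1073741824 536870912 0 1230186008 536870912 50465866 3 eng mog cd4q2 cd5q3 pd0 false true true .up 2 0 3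
    ndB4q2 ndB5q3 pcB0 Cut.none Ext.none :=
  certB2 (fam := false) (s1 := true) (s2 := true) (a := 2) (b := 0) (c := 3) (cn := .up) (n1 := ndB4q2) (n2 := ndB5q3) (pc := pcB0) (cut := Cut.none) (xt := Ext.none) (P1 := 1073741824) (W1 := 536870912) (P2 := 0) (W2 := 1230186008) (P3 := 536870912) (W3 := 50465866) (N0 := 3) (En := eng) (mo := mog) (C1 := cd4q2) (C2 := cd5q3) (C3 := pd0)
    rfl (fun _ => rfl) k0_pp_203

noncomputable def f_pp_213 : ℕ → ℕ → ℕ → ℕ → Bool := onCell 536870912 536870912 0 1230186008 536870912 50465866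
    (rowB 3 eng mog cd4q2 cd5q3 pd1 2 false true true .pnn 2 1 3 (qsf 1073741824 536870912 0 1230186008 1) ndB4q2 ndB5q3 pcB1 Cut.none Ext.none)

def k0_pp_213 : ∃ t, chk3 f_pp_213 t 1 1 1 = true :=
  ⟨(b (b (a (l 3) (a (a (l 347523442503) (a (l 293836618471) (b (l 16754608) (l 16761432)))) (a (b (l 16761784) (l 237465144471)) (b (l 16773288) (l 16913232))))) (a (l 3) (a (l 3) (b (a (l 3) (a (l 418927440855) (l 1442605748823))) (l 3))))) (l 3)), by decide +kernel⟩

theorem c_pp_213 : CertB 1073741824 536870912 0 1230186008 536870912 50465866 3 eng mog cd4q2 cd5q3 pd1 false true true .pnn 2 1 3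
    ndB4q2 ndB5q3 pcB1 Cut.none Ext.none :=
  certB2 (fam := false) (s1 := true) (s2 := true) (a := 2) (b := 1) (c := 3) (cn := .pnn) (n1 := ndB4q2) (n2 := ndB5q3) (pc := pcB1) (cut := Cut.none) (xt := Ext.none) (P1 := 1073741824) (W1 := 536870912) (P2 := 0) (W2 := 1230186008) (P3 := 536870912) (W3 := 50465866) (N0 := 3) (En := eng) (mo := mog) (C1 := cd4q2) (C2 := cd5q3) (C3 := pd1)
    rfl (fun _ => rfl) k0_pp_213

noncomputable def f_pp_303 : ℕ → ℕ → ℕ → ℕ → Bool := onCell 0 1230186008 0 1230186008 536870912 50465866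
    (rowB 3 eng mog cd4q3 cd5q3 pd0 0 false true true .npn 3 0 3 (qsf 0 1230186008 0 1230186008 0) ndB4q3 ndB5q3 pcB0 Cut.none Ext.none)

def k0_pp_303 : ∃ t, chk3 f_pp_303 t 1 1 1 = true :=
  ⟨(a (b (l 3) (l 5)) (b (l 3) (l 3))), by decide +kernel⟩

theorem c_pp_303 : CertB 0 1230186008 0 1230186008 536870912 50465866 3 eng mog cd4q3 cd5q3 pd0 false true true .npn 3 0 3
    ndB4q3 ndB5q3 pcB0 Cut.none Ext.none :=
  certB0 (fam := false) (s1 := true) (s2 := true) (a := 3) (b := 0) (c := 3) (cn := .npn) (n1 := ndB4q3) (n2 := ndB5q3) (pc := pcB0) (cut := Cut.none) (xt := Ext.none) (P1 := 0) (W1 := 1230186008) (P2 := 0) (W2 := 1230186008) (P3 := 536870912) (W3 := 50465866) (N0 := 3) (En := eng) (mo := mog) (C1 := cd4q3) (C2 := cd5q3) (C3 := pd0)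
    rfl k0_pp_303

noncomputable def f_pp_313 : ℕ → ℕ → ℕ → ℕ → Bool := onCell 0 1230186008 0 1230186008 536870912 50465866
    (rowB 3 eng mog cd4q3 cd5q3 pd1 0 false true true .dn 3 1 3 (qsf 0 1230186008 0 1230186008 1) ndB4q3 ndB5q3 pcB1 Cut.none Ext.none)

def k0_pp_313 : ∃ t, chk3 f_pp_313 t 1 1 1 = true :=
  ⟨(a (l 1) (b (l 3) (l 1))), by decide +kernel⟩

theorem c_pp_313 : CertB 0 1230186008 0 1230186008 536870912 50465866 3 eng mog cd4q3 cd5q3 pd1 false true true .dn 3 1 3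
    ndB4q3 ndB5q3 pcB1 Cut.none Ext.none :=
  certB0 (fam := false) (s1 := true) (s2 := true) (a := 3) (b := 1) (c := 3) (cn := .dn) (n1 := ndB4q3) (n2 := ndB5q3) (pc := pcB1) (cut := Cut.none) (xt := Ext.none) (P1 := 0) (W1 := 1230186008) (P2 := 0) (W2 := 1230186008) (P3 := 536870912) (W3 := 50465866) (N0 := 3) (En := eng) (mo := mog) (C1 := cd4q3) (C2 := cd5q3) (C3 := pd1)
    rfl k0_pp_313

noncomputable def f_pm_001 : ℕ → ℕ → ℕ → ℕ → Bool := onCell 0 536870912 536870912 536870912 536870912 50465866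
    (rowB 3 eng mog cd4q0 cd5q1 pd0 0 false true false .up 0 0 1 (qsf 0 536870912 536870912 536870912 0) ndB4q0 ndB5q1 pcB0 Cut.none Ext.none)

def k0_pm_001 : ∃ t, chk3 f_pm_001 t 1 1 1 = true :=
  ⟨(l 4), by decide +kernel⟩

theorem c_pm_001 : CertB 0 536870912 536870912 536870912 536870912 50465866 3 eng mog cd4q0 cd5q1 pd0 false true false .up 0 0 1
    ndB4q0 ndB5q1 pcB0 Cut.none Ext.none :=
  certB0 (fam := false) (s1 := true) (s2 := false) (a := 0) (b := 0) (c := 1) (cn := .up) (n1 := ndB4q0) (n2 := ndB5q1) (pc := pcB0) (cut := Cut.none) (xt := Ext.none) (P1 := 0) (W1 := 536870912) (P2 := 536870912) (W2 := 536870912) (P3 := 536870912) (W3 := 50465866) (N0 := 3) (En := eng) (mo := mog) (C1 := cd4q0) (C2 := cd5q1) (C3 := pd0)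
    rfl k0_pm_001

noncomputable def f_pm_011 : ℕ → ℕ → ℕ → ℕ → Bool := onCell 0 536870912 536870912 536870912 536870912 50465866
    (rowB 3 eng mog cd4q0 cd5q1 pd1 0 false true false .pnn 0 1 1 (qsf 0 536870912 536870912 536870912 1) ndB4q0 ndB5q1 pcB1 Cut.none Ext.none)

def k0_pm_011 : ∃ t, chk3 f_pm_011 t 1 1 1 = true :=
  ⟨(l 4), by decide +kernel⟩

theorem c_pm_011 : CertB 0 536870912 536870912 536870912 536870912 50465866 3 eng mog cd4q0 cd5q1 pd1 false true false .pnn 0 1 1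
    ndB4q0 ndB5q1 pcB1 Cut.none Ext.none :=
  certB0 (fam := false) (s1 := true) (s2 := false) (a := 0) (b := 1) (c := 1) (cn := .pnn) (n1 := ndB4q0) (n2 := ndB5q1) (pc := pcB1) (cut := Cut.none) (xt := Ext.none) (P1 := 0) (W1 := 536870912) (P2 := 536870912) (W2 := 536870912) (P3 := 536870912) (W3 := 50465866) (N0 := 3) (En := eng) (mo := mog) (C1 := cd4q0) (C2 := cd5q1) (C3 := pd1)
    rfl k0_pm_011

noncomputable def f_pm_012 : ℕ → ℕ → ℕ → ℕ → Bool := onCell 0 536870912 1073741824 536870912 536870912 50465866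
    (rowB 3 eng mog cd4q0 cd5q2 pd1 0 false true false .pnp 0 1 2 (qsf 0 536870912 1073741824 536870912 1) ndB4q0 ndB5q2 pcB1 Cut.none Ext.none)

def k0_pm_012 : ∃ t, chk3 f_pm_012 t 1 1 1 = true :=
  ⟨(l 4), by decide +kernel⟩

theorem c_pm_012 : CertB 0 536870912 1073741824 536870912 536870912 50465866 3 eng mog cd4q0 cd5q2 pd1 false true false .pnp 0 1 2
    ndB4q0 ndB5q2 pcB1 Cut.none Ext.none :=
  certB0 (fam := false) (s1 := true) (s2 := false) (a := 0) (b := 1) (c := 2) (cn := .pnp) (n1 := ndB4q0) (n2 := ndB5q2) (pc := pcB1) (cut := Cut.none) (xt := Ext.none) (P1 := 0) (W1 := 536870912) (P2 := 1073741824) (W2 := 536870912) (P3 := 536870912) (W3 := 50465866) (N0 := 3) (En := eng) (mo := mog) (C1 := cd4q0) (C2 := cd5q2) (C3 := pd1)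
    rfl k0_pm_012

noncomputable def f_pm_022 : ℕ → ℕ → ℕ → ℕ → Bool := onCell 0 536870912 1073741824 536870912 536870912 50465866
    (rowB 3 eng mog cd4q0 cd5q2 pd2 0 false true false .pp 0 2 2 (qsf 0 536870912 1073741824 536870912 2) ndB4q0 ndB5q2 pcB2 Cut.none Ext.none)

def k0_pm_022 : ∃ t, chk3 f_pm_022 t 1 1 1 = true :=
  ⟨(l 4), by decide +kernel⟩

theorem c_pm_022 : CertB 0 536870912 1073741824 536870912 536870912 50465866 3 eng mog cd4q0 cd5q2 pd2 false true false .pp 0 2 2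
    ndB4q0 ndB5q2 pcB2 Cut.none Ext.none :=
  certB0 (fam := false) (s1 := true) (s2 := false) (a := 0) (b := 2) (c := 2) (cn := .pp) (n1 := ndB4q0) (n2 := ndB5q2) (pc := pcB2) (cut := Cut.none) (xt := Ext.none) (P1 := 0) (W1 := 536870912) (P2 := 1073741824) (W2 := 536870912) (P3 := 536870912) (W3 := 50465866) (N0 := 3) (En := eng) (mo := mog) (C1 := cd4q0) (C2 := cd5q2) (C3 := pd2)
    rfl k0_pm_022

noncomputable def f_pm_023 : ℕ → ℕ → ℕ → ℕ → Bool := onCell 0 536870912 0 1230186008 536870912 50465866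
    (rowB 3 eng mog cd4q0 cd5q3 pd2 0 false true false .up 0 2 3 (qsf 0 536870912 0 1230186008 2) ndB4q0 ndB5q3 pcB2 Cut.none Ext.none)

def k0_pm_023 : ∃ t, chk3 f_pm_023 t 1 1 1 = true :=
  ⟨(b (l 4) (l 4)), by decide +kernel⟩

theorem c_pm_023 : CertB 0 536870912 0 1230186008 536870912 50465866 3 eng mog cd4q0 cd5q3 pd2 false true false .up 0 2 3
    ndB4q0 ndB5q3 pcB2 Cut.none Ext.none :=
  certB0 (fam := false) (s1 := true) (s2 := false) (a := 0) (b := 2) (c := 3) (cn := .up) (n1 := ndB4q0) (n2 := ndB5q3) (pc := pcB2) (cut := Cut.none) (xt := Ext.none) (P1 := 0) (W1 := 536870912) (P2 := 0) (W2 := 1230186008) (P3 := 536870912) (W3 := 50465866) (N0 := 3) (En := eng) (mo := mog) (C1 := cd4q0) (C2 := cd5q3) (C3 := pd2)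
    rfl k0_pm_023

noncomputable def f_pm_033 : ℕ → ℕ → ℕ → ℕ → Bool := onCell 0 536870912 0 1230186008 536870912 50465866
    (rowB 3 eng mog cd4q0 cd5q3 pd3 0 false true false .pnn 0 3 3 (qsf 0 536870912 0 1230186008 3) ndB4q0 ndB5q3 pcB3 Cut.none Ext.none)

def k0_pm_033 : ∃ t, chk3 f_pm_033 t 1 1 1 = true :=
  ⟨(b (l 4) (l 4)), by decide +kernel⟩

theorem c_pm_033 : CertB 0 536870912 0 1230186008 536870912 50465866 3 eng mog cd4q0 cd5q3 pd3 false true false .pnn 0 3 3
    ndB4q0 ndB5q3 pcB3 Cut.none Ext.none :=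
  certB0 (fam := false) (s1 := true) (s2 := false) (a := 0) (b := 3) (c := 3) (cn := .pnn) (n1 := ndB4q0) (n2 := ndB5q3) (pc := pcB3) (cut := Cut.none) (xt := Ext.none) (P1 := 0) (W1 := 536870912) (P2 := 0) (W2 := 1230186008) (P3 := 536870912) (W3 := 50465866) (N0 := 3) (En := eng) (mo := mog) (C1 := cd4q0) (C2 := cd5q3) (C3 := pd3)
    rfl k0_pm_033

noncomputable def f_pm_101 : ℕ → ℕ → ℕ → ℕ → Bool := onCell 536870912 536870912 536870912 536870912 536870912 50465866
    (rowB 3 eng mog cd4q1 cd5q1 pd0 0 false true false .npn 1 0 1 (qsf 536870912 536870912 536870912 536870912 0) ndB4q1 ndB5q1 pcB0 Cut.none Ext.none)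

def k0_pm_101 : ∃ t, chk3 f_pm_101 t 1 1 1 = true :=
  ⟨(l 4), by decide +kernel⟩

theorem c_pm_101 : CertB 536870912 536870912 536870912 536870912 536870912 50465866 3 eng mog cd4q1 cd5q1 pd0 false true false .npn 1 0 1
    ndB4q1 ndB5q1 pcB0 Cut.none Ext.none :=
  certB0 (fam := false) (s1 := true) (s2 := false) (a := 1) (b := 0) (c := 1) (cn := .npn) (n1 := ndB4q1) (n2 := ndB5q1) (pc := pcB0) (cut := Cut.none) (xt := Ext.none) (P1 := 536870912) (W1 := 536870912) (P2 := 536870912) (W2 := 536870912) (P3 := 536870912) (W3 := 50465866) (N0 := 3) (En := eng) (mo := mog) (C1 := cd4q1) (C2 := cd5q1) (C3 := pd0)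
    rfl k0_pm_101

noncomputable def f_pm_102 : ℕ → ℕ → ℕ → ℕ → Bool := onCell 536870912 536870912 1073741824 536870912 536870912 50465866
    (rowB 3 eng mog cd4q1 cd5q2 pd0 0 false true false .npp 1 0 2 (qsf 536870912 536870912 1073741824 536870912 0) ndB4q1 ndB5q2 pcB0 Cut.none Ext.none)

def k0_pm_102 : ∃ t, chk3 f_pm_102 t 1 1 1 = true :=
  ⟨(l 4), by decide +kernel⟩

theorem c_pm_102 : CertB 536870912 536870912 1073741824 536870912 536870912 50465866 3 eng mog cd4q1 cd5q2 pd0 false true false .npp 1 0 2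
    ndB4q1 ndB5q2 pcB0 Cut.none Ext.none :=
  certB0 (fam := false) (s1 := true) (s2 := false) (a := 1) (b := 0) (c := 2) (cn := .npp) (n1 := ndB4q1) (n2 := ndB5q2) (pc := pcB0) (cut := Cut.none) (xt := Ext.none) (P1 := 536870912) (W1 := 536870912) (P2 := 1073741824) (W2 := 536870912) (P3 := 536870912) (W3 := 50465866) (N0 := 3) (En := eng) (mo := mog) (C1 := cd4q1) (C2 := cd5q2) (C3 := pd0)
    rfl k0_pm_102

noncomputable def f_pm_112 : ℕ → ℕ → ℕ → ℕ → Bool := onCell 536870912 536870912 1073741824 536870912 536870912 50465866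
    (rowB 3 eng mog cd4q1 cd5q2 pd1 0 false true false .dn 1 1 2 (qsf 536870912 536870912 1073741824 536870912 1) ndB4q1 ndB5q2 pcB1 Cut.none Ext.none)

def k0_pm_112 : ∃ t, chk3 f_pm_112 t 1 1 1 = true :=
  ⟨(l 4), by decide +kernel⟩

theorem c_pm_112 : CertB 536870912 536870912 1073741824 536870912 536870912 50465866 3 eng mog cd4q1 cd5q2 pd1 false true false .dn 1 1 2
    ndB4q1 ndB5q2 pcB1 Cut.none Ext.none :=
  certB0 (fam := false) (s1 := true) (s2 := false) (a := 1) (b := 1) (c := 2) (cn := .dn) (n1 := ndB4q1) (n2 := ndB5q2) (pc := pcB1) (cut := Cut.none) (xt := Ext.none) (P1 := 536870912) (W1 := 536870912) (P2 := 1073741824) (W2 := 536870912) (P3 := 536870912) (W3 := 50465866) (N0 := 3) (En := eng) (mo := mog) (C1 := cd4q1) (C2 := cd5q2) (C3 := pd1)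
    rfl k0_pm_112

noncomputable def f_pm_113 : ℕ → ℕ → ℕ → ℕ → Bool := onCell 536870912 536870912 0 1230186008 536870912 50465866
    (rowB 3 eng mog cd4q1 cd5q3 pd1 0 false true false .nn 1 1 3 (qsf 536870912 536870912 0 1230186008 1) ndB4q1 ndB5q3 pcB1 Cut.none Ext.none)

def k0_pm_113 : ∃ t, chk3 f_pm_113 t 1 1 1 = true :=
  ⟨(b (b (a (l 2) (l 16835728)) (l 4)) (l 4)), by decide +kernel⟩

theorem c_pm_113 : CertB 536870912 536870912 0 1230186008 536870912 50465866 3 eng mog cd4q1 cd5q3 pd1 false true false .nn 1 1 3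
    ndB4q1 ndB5q3 pcB1 Cut.none Ext.none :=
  certB0 (fam := false) (s1 := true) (s2 := false) (a := 1) (b := 1) (c := 3) (cn := .nn) (n1 := ndB4q1) (n2 := ndB5q3) (pc := pcB1) (cut := Cut.none) (xt := Ext.none) (P1 := 536870912) (W1 := 536870912) (P2 := 0) (W2 := 1230186008) (P3 := 536870912) (W3 := 50465866) (N0 := 3) (En := eng) (mo := mog) (C1 := cd4q1) (C2 := cd5q3) (C3 := pd1)
    rfl k0_pm_113

noncomputable def f_pm_123 : ℕ → ℕ → ℕ → ℕ → Bool := onCell 1073741824 536870912 0 1230186008 536870912 50465866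
    (rowB 3 eng mog cd4q1 cd5q3 pd2 2 false true false .npn 1 2 3 (qsf 536870912 536870912 0 1230186008 2) ndB4q1 ndB5q3 pcB2 Cut.none Ext.none)

def k0_pm_123 : ∃ t, chk3 f_pm_123 t 1 1 1 = true :=
  ⟨(b (a (a (l 16845616) (l 4)) (l 4)) (l 4)), by decide +kernel⟩

theorem c_pm_123 : CertB 536870912 536870912 0 1230186008 536870912 50465866 3 eng mog cd4q1 cd5q3 pd2 false true false .npn 1 2 3
    ndB4q1 ndB5q3 pcB2 Cut.none Ext.none :=
  certB2 (fam := false) (s1 := true) (s2 := false) (a := 1) (b := 2) (c := 3) (cn := .npn) (n1 := ndB4q1) (n2 := ndB5q3) (pc := pcB2) (cut := Cut.none) (xt := Ext.none) (P1 := 536870912) (W1 := 536870912) (P2 := 0) (W2 := 1230186008) (P3 := 536870912) (W3 := 50465866) (N0 := 3) (En := eng) (mo := mog) (C1 := cd4q1) (C2 := cd5q3) (C3 := pd2)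
    rfl (fun _ => rfl) k0_pm_123

noncomputable def f_pm_133 : ℕ → ℕ → ℕ → ℕ → Bool := onCell 1610612736 536870912 0 1230186008 536870912 50465866
    (rowB 3 eng mog cd4q1 cd5q3 pd3 2 false true false .dn 1 3 3 (qsf 536870912 536870912 0 1230186008 3) ndB4q1 ndB5q3 pcB3 Cut.none Ext.none)

def k0_pm_133 : ∃ t, chk3 f_pm_133 t 1 1 1 = true :=
  ⟨(b (l 4) (l 1)), by decide +kernel⟩

theorem c_pm_133 : CertB 536870912 536870912 0 1230186008 536870912 50465866 3 eng mog cd4q1 cd5q3 pd3 false true false .dn 1 3 3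
    ndB4q1 ndB5q3 pcB3 Cut.none Ext.none :=
  certB2 (fam := false) (s1 := true) (s2 := false) (a := 1) (b := 3) (c := 3) (cn := .dn) (n1 := ndB4q1) (n2 := ndB5q3) (pc := pcB3) (cut := Cut.none) (xt := Ext.none) (P1 := 536870912) (W1 := 536870912) (P2 := 0) (W2 := 1230186008) (P3 := 536870912) (W3 := 50465866) (N0 := 3) (En := eng) (mo := mog) (C1 := cd4q1) (C2 := cd5q3) (C3 := pd3)
    rfl (fun _ => rfl) k0_pm_133

noncomputable def f_pm_202 : ℕ → ℕ → ℕ → ℕ → Bool := onCell 0 536870912 1073741824 536870912 536870912 50465866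
    (rowB 3 eng mog cd4q2 cd5q2 pd0 2 false true false .pp 2 0 2 (qsf 1073741824 536870912 1073741824 536870912 0) ndB4q2 ndB5q2 pcB0 Cut.none Ext.none)

def k0_pm_202 : ∃ t, chk3 f_pm_202 t 1 1 1 = true :=
  ⟨(b (l 4) (b (a (a (b (l 4) (l 16697168)) (l 4)) (l 4)) (a (a (b (l 16717376) (a (l 16698952) (l 16725632))) (l 157538526727)) (a (a (l 16877896) (l 17059536)) (l 210152726743))))), by decide +kernel⟩

theorem c_pm_202 : CertB 1073741824 536870912 1073741824 536870912 536870912 50465866 3 eng mog cd4q2 cd5q2 pd0 false true false .pp 2 0 2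
    ndB4q2 ndB5q2 pcB0 Cut.none Ext.none :=
  certB2 (fam := false) (s1 := true) (s2 := false) (a := 2) (b := 0) (c := 2) (cn := .pp) (n1 := ndB4q2) (n2 := ndB5q2) (pc := pcB0) (cut := Cut.none) (xt := Ext.none) (P1 := 1073741824) (W1 := 536870912) (P2 := 1073741824) (W2 := 536870912) (P3 := 536870912) (W3 := 50465866) (N0 := 3) (En := eng) (mo := mog) (C1 := cd4q2) (C2 := cd5q2) (C3 := pd0)
    rfl (fun _ => rfl) k0_pm_202

noncomputable def f_pm_203 : ℕ → ℕ → ℕ → ℕ → Bool := onCell 1073741824 536870912 0 1230186008 536870912 50465866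
    (rowB 3 eng mog cd4q2 cd5q3 pd0 0 false true false .up 2 0 3 (qsf 1073741824 536870912 0 1230186008 0) ndB4q2 ndB5q3 pcB0 Cut.none Ext.none)

def k0_pm_203 : ∃ t, chk3 f_pm_203 t 1 1 1 = true :=
  ⟨(b (a (l 2) (a (l 2) (b (a (l 2) (l 3)) (a (b (l 1110887057351) (l 16780672)) (b (l 159618924327) (b (l 17018768) (l 16765640))))))) (b (a (b (l 2) (a (l 2) (b (l 2) (a (l 2) (l 16924616))))) (a (b (l 16735496) (b (l 16759608) (a (l 16805960) (l 16720632)))) (b (a (l 16761720) (l 16752008)) (a (b (l 16714896) (l 16688816)) (l 16770752))))) (a (b (a (l 2) (b (a (b (l 2) (l 17255304)) (l 17036464)) (a (l 17433216) (l 17041120)))) (b (a (a (l 2) (l 17399736)) (a (l 69358301319) (b (l 16957072) (l 16924064)))) (a (a (l 17171632) (l 17218608)) (a (l 17034144) (l 16874408))))) (b (a (a (b (l 16850416) (b (l 16849248) (l 16842848))) (b (l 16716384) (l 16708200))) (a (b (l 16653912) (l 16608160)) (b (l 16655920) (l 16594000)))) (a (b (l 16802800) (l 16765120))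 (a (l 16699664) (b (l 16527560) (l 16622088)))))))), by decide +kernel⟩

theorem c_pm_203 : CertB 1073741824 536870912 0 1230186008 536870912 50465866 3 eng mog cd4q2 cd5q3 pd0 false true false .up 2 0 3
    ndB4q2 ndB5q3 pcB0 Cut.none Ext.none :=
  certB0 (fam := false) (s1 := true) (s2 := false) (a := 2) (b := 0) (c := 3) (cn := .up) (n1 := ndB4q2) (n2 := ndB5q3) (pc := pcB0) (cut := Cut.none) (xt := Ext.none) (P1 := 1073741824) (W1 := 536870912) (P2 := 0) (W2 := 1230186008) (P3 := 536870912) (W3 := 50465866) (N0 := 3) (En := eng) (mo := mog) (C1 := cd4q2) (C2 := cd5q3) (C3 := pd0)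
    rfl k0_pm_203

noncomputable def f_pm_213 : ℕ → ℕ → ℕ → ℕ → Bool := onCell 536870912 536870912 0 1230186008 536870912 50465866
    (rowB 3 eng mog cd4q2 cd5q3 pd1 2 false true false .pnn 2 1 3 (qsf 1073741824 536870912 0 1230186008 1) ndB4q2 ndB5q3 pcB1 Cut.none Ext.none)

def k0_pm_213 : ∃ t, chk3 f_pm_213 t 1 1 1 = true :=
  ⟨(b (b (a (a (a (a (l 3) (l 16763680)) (l 228338351191)) (a (l 214916621159) (l 16826968))) (a (a (l 16757520) (b (l 16756048) (l 16762704))) (a (l 16767960) (l 16789456)))) (a (a (b (a (l 16770176) (l 16767568)) (a (l 16759784) (l 16756528))) (b (a (l 16763440) (l 16766336)) (a (l 16773256) (l 16822312)))) (a (b (l 16804600) (l 16880512)) (b (l 16822200) (l 16879336))))) (b (a (a (b (l 16752744) (a (l 16821032) (l 16992848))) (b (a (l 16924672) (l 16937584)) (a (l 17017616) (l 16967760)))) (a (b (l 16920248) (l 450469245799)) (b (l 561601459991) (l 1)))) (a (a (a (b (l 17209304) (l 17172664)) (b (l 17119440) (l 17105480)))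 (b (a (l 17038016) (l 17024024)) (a (l 17080032) (l 1)))) (l 1)))), by decide +kernel⟩

theorem c_pm_213 : CertB 1073741824 536870912 0 1230186008 536870912 50465866 3 eng mog cd4q2 cd5q3 pd1 false true false .pnn 2 1 3
    ndB4q2 ndB5q3 pcB1 Cut.none Ext.none :=
  certB2 (fam := false) (s1 := true) (s2 := false) (a := 2) (b := 1) (c := 3) (cn := .pnn) (n1 := ndB4q2) (n2 := ndB5q3) (pc := pcB1) (cut := Cut.none) (xt := Ext.none) (P1 := 1073741824) (W1 := 536870912) (P2 := 0) (W2 := 1230186008) (P3 := 536870912) (W3 := 50465866) (N0 := 3) (En := eng) (mo := mog) (C1 := cd4q2) (C2 := cd5q3) (C3 := pd1)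
    rfl (fun _ => rfl) k0_pm_213

noncomputable def f_pm_303 : ℕ → ℕ → ℕ → ℕ → Bool := onCell 0 1230186008 0 1230186008 536870912 50465866
    (rowB 3 eng mog cd4q3 cd5q3 pd0 0 false true false .npn 3 0 3 (qsf 0 1230186008 0 1230186008 0) ndB4q3 ndB5q3 pcB0 Cut.none Ext.none)

def k0_pm_303 : ∃ t, chk3 f_pm_303 t 1 1 1 = true :=
  ⟨(a (b (l 3) (b (l 3) (l 1))) (b (b (l 3) (a (l 3) (a (b (l 3) (a (l 3) (l 251960709271))) (a (b (l 3) (a (l 16770288) (l 101100004711))) (b (l 238001869255) (a (l 95194421383) (l 16994928))))))) (a (b (b (a (l 3) (a (l 3) (b (l 3) (l 16751032)))) (b (a (l 3) (a (l 197736706023) (b (l 16932104) (l 16797928)))) (a (l 1) (a (l 514893184407) (l 16730784))))) (a (l 1) (a (l 1) (b (b (b (l 16720280) (l 1)) (l 1)) (l 1))))) (b (a (b (a (b (l 16755888) (l 17002128)) (b (l 16909376) (b (l 16757592) (l 16755872)))) (b (a (b (a (l 16739224) (l 16742688)) (l 16735936)) (b (l 16746056) (l 16740728))) (a (l 16726376) (l 16729592))))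 (a (b (b (l 16769416) (l 16765856)) (b (l 16752432) (l 16734944))) (b (a (l 16768080) (l 16752544)) (a (l 16818808) (l 16709904))))) (a (b (b (a (l 16705792) (l 16704664)) (a (l 16648128) (l 16642112))) (a (l 1) (b (l 16532048) (l 1)))) (b (a (b (l 16708016) (l 16643136)) (b (l 16676080) (l 16604920))) (a (b (l 16534424) (l 16338168)) (b (l 16487728) (l 16480696))))))))), by decide +kernel⟩

theorem c_pm_303 : CertB 0 1230186008 0 1230186008 536870912 50465866 3 eng mog cd4q3 cd5q3 pd0 false true false .npn 3 0 3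
    ndB4q3 ndB5q3 pcB0 Cut.none Ext.none :=
  certB0 (fam := false) (s1 := true) (s2 := false) (a := 3) (b := 0) (c := 3) (cn := .npn) (n1 := ndB4q3) (n2 := ndB5q3) (pc := pcB0) (cut := Cut.none) (xt := Ext.none) (P1 := 0) (W1 := 1230186008) (P2 := 0) (W2 := 1230186008) (P3 := 536870912) (W3 := 50465866) (N0 := 3) (En := eng) (mo := mog) (C1 := cd4q3) (C2 := cd5q3) (C3 := pd0)
    rfl k0_pm_303

noncomputable def f_pm_313 : ℕ → ℕ → ℕ → ℕ → Bool := onCell 0 1230186008 0 1230186008 536870912 50465866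
    (rowB 3 eng mog cd4q3 cd5q3 pd1 0 false true false .dn 3 1 3 (qsf 0 1230186008 0 1230186008 1) ndB4q3 ndB5q3 pcB1 Cut.none Ext.none)

def k0_pm_313 : ∃ t, chk3 f_pm_313 t 1 1 1 = true :=
  ⟨(a (l 1) (b (b (l 3) (l 1)) (l 1))), by decide +kernel⟩

theorem c_pm_313 : CertB 0 1230186008 0 1230186008 536870912 50465866 3 eng mog cd4q3 cd5q3 pd1 false true false .dn 3 1 3
    ndB4q3 ndB5q3 pcB1 Cut.none Ext.none :=
  certB0 (fam := false) (s1 := true) (s2 := false) (a := 3) (b := 1) (c := 3) (cn := .dn) (n1 := ndB4q3) (n2 := ndB5q3) (pc := pcB1) (cut := Cut.none) (xt := Ext.none) (P1 := 0) (W1 := 1230186008) (P2 := 0) (W2 := 1230186008) (P3 := 536870912) (W3 := 50465866) (N0 := 3) (En := eng) (mo := mog) (C1 := cd4q3) (C2 := cd5q3) (C3 := pd1)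
    rfl k0_pm_313

noncomputable def f_mm_001 : ℕ → ℕ → ℕ → ℕ → Bool := onCell 0 536870912 536870912 536870912 536870912 50465866
    (rowB 3 eng mog cd4q0 cd5q1 pd0 0 false false false .up 0 0 1 (qsf 0 536870912 536870912 536870912 0) ndB4q0 ndB5q1 pcB0 Cut.none Ext.none)

def k0_mm_001 : ∃ t, chk3 f_mm_001 t 1 1 1 = true :=
  ⟨(l 3), by decide +kernel⟩

theorem c_mm_001 : CertB 0 536870912 536870912 536870912 536870912 50465866 3 eng mog cd4q0 cd5q1 pd0 false false false .up 0 0 1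
    ndB4q0 ndB5q1 pcB0 Cut.none Ext.none :=
  certB0 (fam := false) (s1 := false) (s2 := false) (a := 0) (b := 0) (c := 1) (cn := .up) (n1 := ndB4q0) (n2 := ndB5q1) (pc := pcB0) (cut := Cut.none) (xt := Ext.none) (P1 := 0) (W1 := 536870912) (P2 := 536870912) (W2 := 536870912) (P3 := 536870912) (W3 := 50465866) (N0 := 3) (En := eng) (mo := mog) (C1 := cd4q0) (C2 := cd5q1) (C3 := pd0)
    rfl k0_mm_001

noncomputable def f_mm_011 : ℕ → ℕ → ℕ → ℕ → Bool := onCell 0 536870912 536870912 536870912 536870912 50465866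
    (rowB 3 eng mog cd4q0 cd5q1 pd1 0 false false false .pnn 0 1 1 (qsf 0 536870912 536870912 536870912 1) ndB4q0 ndB5q1 pcB1 Cut.none Ext.none)

def k0_mm_011 : ∃ t, chk3 f_mm_011 t 1 1 1 = true :=
  ⟨(l 3), by decide +kernel⟩

theorem c_mm_011 : CertB 0 536870912 536870912 536870912 536870912 50465866 3 eng mog cd4q0 cd5q1 pd1 false false false .pnn 0 1 1
    ndB4q0 ndB5q1 pcB1 Cut.none Ext.none :=
  certB0 (fam := false) (s1 := false) (s2 := false) (a := 0) (b := 1) (c := 1) (cn := .pnn) (n1 := ndB4q0) (n2 := ndB5q1) (pc := pcB1) (cut := Cut.none) (xt := Ext.none) (P1 := 0) (W1 := 536870912) (P2 := 536870912) (W2 := 536870912) (P3 := 536870912) (W3 := 50465866) (N0 := 3) (En := eng) (mo := mog) (C1 := cd4q0) (C2 := cd5q1) (C3 := pd1)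
    rfl k0_mm_011

noncomputable def f_mm_012 : ℕ → ℕ → ℕ → ℕ → Bool := onCell 0 536870912 1073741824 536870912 536870912 50465866
    (rowB 3 eng mog cd4q0 cd5q2 pd1 0 false false false .pnp 0 1 2 (qsf 0 536870912 1073741824 536870912 1) ndB4q0 ndB5q2 pcB1 Cut.none Ext.none)

def k0_mm_012 : ∃ t, chk3 f_mm_012 t 1 1 1 = true :=
  ⟨(l 5), by decide +kernel⟩

theorem c_mm_012 : CertB 0 536870912 1073741824 536870912 536870912 50465866 3 eng mog cd4q0 cd5q2 pd1 false false false .pnp 0 1 2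
    ndB4q0 ndB5q2 pcB1 Cut.none Ext.none :=
  certB0 (fam := false) (s1 := false) (s2 := false) (a := 0) (b := 1) (c := 2) (cn := .pnp) (n1 := ndB4q0) (n2 := ndB5q2) (pc := pcB1) (cut := Cut.none) (xt := Ext.none) (P1 := 0) (W1 := 536870912) (P2 := 1073741824) (W2 := 536870912) (P3 := 536870912) (W3 := 50465866) (N0 := 3) (En := eng) (mo := mog) (C1 := cd4q0) (C2 := cd5q2) (C3 := pd1)
    rfl k0_mm_012

noncomputable def f_mm_022 : ℕ → ℕ → ℕ → ℕ → Bool := onCell 0 536870912 1073741824 536870912 536870912 50465866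
    (rowB 3 eng mog cd4q0 cd5q2 pd2 0 false false false .pp 0 2 2 (qsf 0 536870912 1073741824 536870912 2) ndB4q0 ndB5q2 pcB2 Cut.none Ext.none)

def k0_mm_022 : ∃ t, chk3 f_mm_022 t 1 1 1 = true :=
  ⟨(l 5), by decide +kernel⟩

theorem c_mm_022 : CertB 0 536870912 1073741824 536870912 536870912 50465866 3 eng mog cd4q0 cd5q2 pd2 false false false .pp 0 2 2
    ndB4q0 ndB5q2 pcB2 Cut.none Ext.none :=
  certB0 (fam := false) (s1 := false) (s2 := false) (a := 0) (b := 2) (c := 2) (cn := .pp) (n1 := ndB4q0) (n2 := ndB5q2) (pc := pcB2) (cut := Cut.none) (xt := Ext.none) (P1 := 0) (W1 := 536870912) (P2 := 1073741824) (W2 := 536870912) (P3 := 536870912) (W3 := 50465866) (N0 := 3) (En := eng) (mo := mog) (C1 := cd4q0) (C2 := cd5q2) (C3 := pd2)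
    rfl k0_mm_022

noncomputable def f_mm_023 : ℕ → ℕ → ℕ → ℕ → Bool := onCell 0 536870912 0 1230186008 536870912 50465866
    (rowB 3 eng mog cd4q0 cd5q3 pd2 0 false false false .up 0 2 3 (qsf 0 536870912 0 1230186008 2) ndB4q0 ndB5q3 pcB2 Cut.none Ext.none)

def k0_mm_023 : ∃ t, chk3 f_mm_023 t 1 1 1 = true :=
  ⟨(l 5), by decide +kernel⟩

theorem c_mm_023 : CertB 0 536870912 0 1230186008 536870912 50465866 3 eng mog cd4q0 cd5q3 pd2 false false false .up 0 2 3
    ndB4q0 ndB5q3 pcB2 Cut.none Ext.none :=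
  certB0 (fam := false) (s1 := false) (s2 := false) (a := 0) (b := 2) (c := 3) (cn := .up) (n1 := ndB4q0) (n2 := ndB5q3) (pc := pcB2) (cut := Cut.none) (xt := Ext.none) (P1 := 0) (W1 := 536870912) (P2 := 0) (W2 := 1230186008) (P3 := 536870912) (W3 := 50465866) (N0 := 3) (En := eng) (mo := mog) (C1 := cd4q0) (C2 := cd5q3) (C3 := pd2)
    rfl k0_mm_023

noncomputable def f_mm_033 : ℕ → ℕ → ℕ → ℕ → Bool := onCell 0 536870912 0 1230186008 536870912 50465866
    (rowB 3 eng mog cd4q0 cd5q3 pd3 0 false false false .pnn 0 3 3 (qsf 0 536870912 0 1230186008 3) ndB4q0 ndB5q3 pcB3 Cut.none Ext.none)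

def k0_mm_033 : ∃ t, chk3 f_mm_033 t 1 1 1 = true :=
  ⟨(l 5), by decide +kernel⟩

theorem c_mm_033 : CertB 0 536870912 0 1230186008 536870912 50465866 3 eng mog cd4q0 cd5q3 pd3 false false false .pnn 0 3 3
    ndB4q0 ndB5q3 pcB3 Cut.none Ext.none :=
  certB0 (fam := false) (s1 := false) (s2 := false) (a := 0) (b := 3) (c := 3) (cn := .pnn) (n1 := ndB4q0) (n2 := ndB5q3) (pc := pcB3) (cut := Cut.none) (xt := Ext.none) (P1 := 0) (W1 := 536870912) (P2 := 0) (W2 := 1230186008) (P3 := 536870912) (W3 := 50465866) (N0 := 3) (En := eng) (mo := mog) (C1 := cd4q0) (C2 := cd5q3) (C3 := pd3)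
    rfl k0_mm_033

noncomputable def f_mm_101 : ℕ → ℕ → ℕ → ℕ → Bool := onCell 536870912 536870912 536870912 536870912 536870912 50465866
    (rowB 3 eng mog cd4q1 cd5q1 pd0 0 false false false .npn 1 0 1 (qsf 536870912 536870912 536870912 536870912 0) ndB4q1 ndB5q1 pcB0 Cut.none Ext.none)

def k0_mm_101 : ∃ t, chk3 f_mm_101 t 1 1 1 = true :=
  ⟨(l 3), by decide +kernel⟩

theorem c_mm_101 : CertB 536870912 536870912 536870912 536870912 536870912 50465866 3 eng mog cd4q1 cd5q1 pd0 false false false .npn 1 0 1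
    ndB4q1 ndB5q1 pcB0 Cut.none Ext.none :=
  certB0 (fam := false) (s1 := false) (s2 := false) (a := 1) (b := 0) (c := 1) (cn := .npn) (n1 := ndB4q1) (n2 := ndB5q1) (pc := pcB0) (cut := Cut.none) (xt := Ext.none) (P1 := 536870912) (W1 := 536870912) (P2 := 536870912) (W2 := 536870912) (P3 := 536870912) (W3 := 50465866) (N0 := 3) (En := eng) (mo := mog) (C1 := cd4q1) (C2 := cd5q1) (C3 := pd0)
    rfl k0_mm_101

noncomputable def f_mm_102 : ℕ → ℕ → ℕ → ℕ → Bool := onCell 536870912 536870912 1073741824 536870912 536870912 50465866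
    (rowB 3 eng mog cd4q1 cd5q2 pd0 0 false false false .npp 1 0 2 (qsf 536870912 536870912 1073741824 536870912 0) ndB4q1 ndB5q2 pcB0 Cut.none Ext.none)

def k0_mm_102 : ∃ t, chk3 f_mm_102 t 1 1 1 = true :=
  ⟨(l 5), by decide +kernel⟩

theorem c_mm_102 : CertB 536870912 536870912 1073741824 536870912 536870912 50465866 3 eng mog cd4q1 cd5q2 pd0 false false false .npp 1 0 2
    ndB4q1 ndB5q2 pcB0 Cut.none Ext.none :=
  certB0 (fam := false) (s1 := false) (s2 := false) (a := 1) (b := 0) (c := 2) (cn := .npp) (n1 := ndB4q1) (n2 := ndB5q2) (pc := pcB0) (cut := Cut.none) (xt := Ext.none) (P1 := 536870912) (W1 := 536870912) (P2 := 1073741824) (W2 := 536870912) (P3 := 536870912) (W3 := 50465866) (N0 := 3) (En := eng) (mo := mog) (C1 := cd4q1) (C2 := cd5q2) (C3 := pd0)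
    rfl k0_mm_102

noncomputable def f_mm_112 : ℕ → ℕ → ℕ → ℕ → Bool := onCell 536870912 536870912 1073741824 536870912 536870912 50465866
    (rowB 3 eng mog cd4q1 cd5q2 pd1 0 false false false .dn 1 1 2 (qsf 536870912 536870912 1073741824 536870912 1) ndB4q1 ndB5q2 pcB1 Cut.none Ext.none)

def k0_mm_112 : ∃ t, chk3 f_mm_112 t 1 1 1 = true :=
  ⟨(l 5), by decide +kernel⟩

theorem c_mm_112 : CertB 536870912 536870912 1073741824 536870912 536870912 50465866 3 eng mog cd4q1 cd5q2 pd1 false false false .dn 1 1 2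
    ndB4q1 ndB5q2 pcB1 Cut.none Ext.none :=
  certB0 (fam := false) (s1 := false) (s2 := false) (a := 1) (b := 1) (c := 2) (cn := .dn) (n1 := ndB4q1) (n2 := ndB5q2) (pc := pcB1) (cut := Cut.none) (xt := Ext.none) (P1 := 536870912) (W1 := 536870912) (P2 := 1073741824) (W2 := 536870912) (P3 := 536870912) (W3 := 50465866) (N0 := 3) (En := eng) (mo := mog) (C1 := cd4q1) (C2 := cd5q2) (C3 := pd1)
    rfl k0_mm_112

noncomputable def f_mm_113 : ℕ → ℕ → ℕ → ℕ → Bool := onCell 536870912 536870912 0 1230186008 536870912 50465866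
    (rowB 3 eng mog cd4q1 cd5q3 pd1 0 false false false .nn 1 1 3 (qsf 536870912 536870912 0 1230186008 1) ndB4q1 ndB5q3 pcB1 Cut.none Ext.none)

def k0_mm_113 : ∃ t, chk3 f_mm_113 t 1 1 1 = true :=
  ⟨(l 5), by decide +kernel⟩

theorem c_mm_113 : CertB 536870912 536870912 0 1230186008 536870912 50465866 3 eng mog cd4q1 cd5q3 pd1 false false false .nn 1 1 3
    ndB4q1 ndB5q3 pcB1 Cut.none Ext.none :=
  certB0 (fam := false) (s1 := false) (s2 := false) (a := 1) (b := 1) (c := 3) (cn := .nn) (n1 := ndB4q1) (n2 := ndB5q3) (pc := pcB1) (cut := Cut.none) (xt := Ext.none) (P1 := 536870912) (W1 := 536870912) (P2 := 0) (W2 := 1230186008) (P3 := 536870912) (W3 := 50465866) (N0 := 3) (En := eng) (mo := mog) (C1 := cd4q1) (C2 := cd5q3) (C3 := pd1)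
    rfl k0_mm_113

noncomputable def f_mm_123 : ℕ → ℕ → ℕ → ℕ → Bool := onCell 536870912 536870912 0 1230186008 536870912 50465866
    (rowB 3 eng mog cd4q1 cd5q3 pd2 0 false false false .npn 1 2 3 (qsf 536870912 536870912 0 1230186008 2) ndB4q1 ndB5q3 pcB2 Cut.none Ext.none)

def k0_mm_123 : ∃ t, chk3 f_mm_123 t 1 1 1 = true :=
  ⟨(l 5), by decide +kernel⟩

theorem c_mm_123 : CertB 536870912 536870912 0 1230186008 536870912 50465866 3 eng mog cd4q1 cd5q3 pd2 false false false .npn 1 2 3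
    ndB4q1 ndB5q3 pcB2 Cut.none Ext.none :=
  certB0 (fam := false) (s1 := false) (s2 := false) (a := 1) (b := 2) (c := 3) (cn := .npn) (n1 := ndB4q1) (n2 := ndB5q3) (pc := pcB2) (cut := Cut.none) (xt := Ext.none) (P1 := 536870912) (W1 := 536870912) (P2 := 0) (W2 := 1230186008) (P3 := 536870912) (W3 := 50465866) (N0 := 3) (En := eng) (mo := mog) (C1 := cd4q1) (C2 := cd5q3) (C3 := pd2)
    rfl k0_mm_123

noncomputable def f_mm_133 : ℕ → ℕ → ℕ → ℕ → Bool := onCell 536870912 536870912 0 1230186008 536870912 50465866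
    (rowB 3 eng mog cd4q1 cd5q3 pd3 0 false false false .dn 1 3 3 (qsf 536870912 536870912 0 1230186008 3) ndB4q1 ndB5q3 pcB3 Cut.none Ext.none)

def k0_mm_133 : ∃ t, chk3 f_mm_133 t 1 1 1 = true :=
  ⟨(l 5), by decide +kernel⟩

theorem c_mm_133 : CertB 536870912 536870912 0 1230186008 536870912 50465866 3 eng mog cd4q1 cd5q3 pd3 false false false .dn 1 3 3
    ndB4q1 ndB5q3 pcB3 Cut.none Ext.none :=
  certB0 (fam := false) (s1 := false) (s2 := false) (a := 1) (b := 3) (c := 3) (cn := .dn) (n1 := ndB4q1) (n2 := ndB5q3) (pc := pcB3) (cut := Cut.none) (xt := Ext.none) (P1 := 536870912) (W1 := 536870912) (P2 := 0) (W2 := 1230186008) (P3 := 536870912) (W3 := 50465866) (N0 := 3) (En := eng) (mo := mog) (C1 := cd4q1) (C2 := cd5q3) (C3 := pd3)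
    rfl k0_mm_133

noncomputable def f_mm_202 : ℕ → ℕ → ℕ → ℕ → Bool := onCell 1073741824 536870912 1073741824 536870912 536870912 50465866
    (rowB 3 eng mog cd4q2 cd5q2 pd0 0 false false false .pp 2 0 2 (qsf 1073741824 536870912 1073741824 536870912 0) ndB4q2 ndB5q2 pcB0 Cut.none Ext.none)

def k0_mm_202 : ∃ t, chk3 f_mm_202 t 1 1 1 = true :=
  ⟨(l 3), by decide +kernel⟩

theorem c_mm_202 : CertB 1073741824 536870912 1073741824 536870912 536870912 50465866 3 eng mog cd4q2 cd5q2 pd0 false false false .pp 2 0 2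
    ndB4q2 ndB5q2 pcB0 Cut.none Ext.none :=
  certB0 (fam := false) (s1 := false) (s2 := false) (a := 2) (b := 0) (c := 2) (cn := .pp) (n1 := ndB4q2) (n2 := ndB5q2) (pc := pcB0) (cut := Cut.none) (xt := Ext.none) (P1 := 1073741824) (W1 := 536870912) (P2 := 1073741824) (W2 := 536870912) (P3 := 536870912) (W3 := 50465866) (N0 := 3) (En := eng) (mo := mog) (C1 := cd4q2) (C2 := cd5q2) (C3 := pd0)
    rfl k0_mm_202

noncomputable def f_mm_203 : ℕ → ℕ → ℕ → ℕ → Bool := onCell 1073741824 536870912 0 1230186008 536870912 50465866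
    (rowB 3 eng mog cd4q2 cd5q3 pd0 0 false false false .up 2 0 3 (qsf 1073741824 536870912 0 1230186008 0) ndB4q2 ndB5q3 pcB0 Cut.none Ext.none)

def k0_mm_203 : ∃ t, chk3 f_mm_203 t 1 1 1 = true :=
  ⟨(b (l 5) (l 3)), by decide +kernel⟩

theorem c_mm_203 : CertB 1073741824 536870912 0 1230186008 536870912 50465866 3 eng mog cd4q2 cd5q3 pd0 false false false .up 2 0 3
    ndB4q2 ndB5q3 pcB0 Cut.none Ext.none :=
  certB0 (fam := false) (s1 := false) (s2 := false) (a := 2) (b := 0) (c := 3) (cn := .up) (n1 := ndB4q2) (n2 := ndB5q3) (pc := pcB0) (cut := Cut.none) (xt := Ext.none) (P1 := 1073741824) (W1 := 536870912) (P2 := 0) (W2 := 1230186008) (P3 := 536870912) (W3 := 50465866) (N0 := 3) (En := eng) (mo := mog) (C1 := cd4q2) (C2 := cd5q3) (C3 := pd0)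
    rfl k0_mm_203

noncomputable def f_mm_213 : ℕ → ℕ → ℕ → ℕ → Bool := onCell 1073741824 536870912 0 1230186008 536870912 50465866
    (rowB 3 eng mog cd4q2 cd5q3 pd1 0 false false false .pnn 2 1 3 (qsf 1073741824 536870912 0 1230186008 1) ndB4q2 ndB5q3 pcB1 Cut.none Ext.none)

def k0_mm_213 : ∃ t, chk3 f_mm_213 t 1 1 1 = true :=
  ⟨(b (l 5) (l 3)), by decide +kernel⟩

theorem c_mm_213 : CertB 1073741824 536870912 0 1230186008 536870912 50465866 3 eng mog cd4q2 cd5q3 pd1 false false false .pnn 2 1 3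
    ndB4q2 ndB5q3 pcB1 Cut.none Ext.none :=
  certB0 (fam := false) (s1 := false) (s2 := false) (a := 2) (b := 1) (c := 3) (cn := .pnn) (n1 := ndB4q2) (n2 := ndB5q3) (pc := pcB1) (cut := Cut.none) (xt := Ext.none) (P1 := 1073741824) (W1 := 536870912) (P2 := 0) (W2 := 1230186008) (P3 := 536870912) (W3 := 50465866) (N0 := 3) (En := eng) (mo := mog) (C1 := cd4q2) (C2 := cd5q3) (C3 := pd1)
    rfl k0_mm_213

noncomputable def f_mm_303 : ℕ → ℕ → ℕ → ℕ → Bool := onCell 0 1230186008 0 1230186008 536870912 50465866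
    (rowB 3 eng mog cd4q3 cd5q3 pd0 0 false false false .npn 3 0 3 (qsf 0 1230186008 0 1230186008 0) ndB4q3 ndB5q3 pcB0 Cut.none Ext.none)

def k0_mm_303 : ∃ t, chk3 f_mm_303 t 1 1 1 = true :=
  ⟨(a (b (l 3) (a (l 1) (l 3))) (b (l 3) (l 3))), by decide +kernel⟩

theorem c_mm_303 : CertB 0 1230186008 0 1230186008 536870912 50465866 3 eng mog cd4q3 cd5q3 pd0 false false false .npn 3 0 3
    ndB4q3 ndB5q3 pcB0 Cut.none Ext.none :=
  certB0 (fam := false) (s1 := false) (s2 := false) (a := 3) (b := 0) (c := 3) (cn := .npn) (n1 := ndB4q3) (n2 := ndB5q3) (pc := pcB0) (cut := Cut.none) (xt := Ext.none) (P1 := 0) (W1 := 1230186008) (P2 := 0) (W2 := 1230186008) (P3 := 536870912) (W3 := 50465866) (N0 := 3) (En := eng) (mo := mog) (C1 := cd4q3) (C2 := cd5q3) (C3 := pd0)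
    rfl k0_mm_303

noncomputable def f_mm_313 : ℕ → ℕ → ℕ → ℕ → Bool := onCell 0 1230186008 0 1230186008 536870912 50465866
    (rowB 3 eng mog cd4q3 cd5q3 pd1 0 false false false .dn 3 1 3 (qsf 0 1230186008 0 1230186008 1) ndB4q3 ndB5q3 pcB1 Cut.none Ext.none)

def k0_mm_313 : ∃ t, chk3 f_mm_313 t 1 1 1 = true :=
  ⟨(a (l 1) (b (l 3) (l 1))), by decide +kernel⟩

theorem c_mm_313 : CertB 0 1230186008 0 1230186008 536870912 50465866 3 eng mog cd4q3 cd5q3 pd1 false false false .dn 3 1 3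
    ndB4q3 ndB5q3 pcB1 Cut.none Ext.none :=
  certB0 (fam := false) (s1 := false) (s2 := false) (a := 3) (b := 1) (c := 3) (cn := .dn) (n1 := ndB4q3) (n2 := ndB5q3) (pc := pcB1) (cut := Cut.none) (xt := Ext.none) (P1 := 0) (W1 := 1230186008) (P2 := 0) (W2 := 1230186008) (P3 := 536870912) (W3 := 50465866) (N0 := 3) (En := eng) (mo := mog) (C1 := cd4q3) (C2 := cd5q3) (C3 := pd1)
    rfl k0_mm_313

end Pool.Agent.Strip051.G.I5000_5470.Tab.C.BB45

namespace Pool.Agent.Strip051.G.I5000_5470.Tab.C.BB46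

open Pool.Agent.Strip051.PB Pool.Agent.Strip051.PB.T
open Pool.Agent.Strip051.G.I5000_5470.Tab

noncomputable def f_pp_001 : ℕ → ℕ → ℕ → ℕ → Bool := onCell 0 536870912 536870912 536870912 536870912 50465866
    (rowB 3 eng mog cd4q0 cd6q1 pd0 0 false true true .up 0 0 1 (qsf 0 536870912 536870912 536870912 0) ndB4q0 ndB6q1 pcB0 Cut.none Ext.none)

def k0_pp_001 : ∃ t, chk3 f_pp_001 t 1 1 1 = true :=
  ⟨(l 3), by decide +kernel⟩

theorem c_pp_001 : CertB 0 536870912 536870912 536870912 536870912 50465866 3 eng mog cd4q0 cd6q1 pd0 false true true .up 0 0 1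
    ndB4q0 ndB6q1 pcB0 Cut.none Ext.none :=
  certB0 (fam := false) (s1 := true) (s2 := true) (a := 0) (b := 0) (c := 1) (cn := .up) (n1 := ndB4q0) (n2 := ndB6q1) (pc := pcB0) (cut := Cut.none) (xt := Ext.none) (P1 := 0) (W1 := 536870912) (P2 := 536870912) (W2 := 536870912) (P3 := 536870912) (W3 := 50465866) (N0 := 3) (En := eng) (mo := mog) (C1 := cd4q0) (C2 := cd6q1) (C3 := pd0)
    rfl k0_pp_001

noncomputable def f_pp_011 : ℕ → ℕ → ℕ → ℕ → Bool := onCell 0 536870912 536870912 536870912 536870912 50465866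
    (rowB 3 eng mog cd4q0 cd6q1 pd1 0 false true true .pnn 0 1 1 (qsf 0 536870912 536870912 536870912 1) ndB4q0 ndB6q1 pcB1 Cut.none Ext.none)

def k0_pp_011 : ∃ t, chk3 f_pp_011 t 1 1 1 = true :=
  ⟨(l 3), by decide +kernel⟩

theorem c_pp_011 : CertB 0 536870912 536870912 536870912 536870912 50465866 3 eng mog cd4q0 cd6q1 pd1 false true true .pnn 0 1 1
    ndB4q0 ndB6q1 pcB1 Cut.none Ext.none :=
  certB0 (fam := false) (s1 := true) (s2 := true) (a := 0) (b := 1) (c := 1) (cn := .pnn) (n1 := ndB4q0) (n2 := ndB6q1) (pc := pcB1) (cut := Cut.none) (xt := Ext.none) (P1 := 0) (W1 := 536870912) (P2 := 536870912) (W2 := 536870912) (P3 := 536870912) (W3 := 50465866) (N0 := 3) (En := eng) (mo := mog) (C1 := cd4q0) (C2 := cd6q1) (C3 := pd1)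
    rfl k0_pp_011

noncomputable def f_pp_012 : ℕ → ℕ → ℕ → ℕ → Bool := onCell 0 536870912 536870912 536870912 536870912 50465866
    (rowB 3 eng mog cd4q0 cd6q2 pd1 1 false true true .pnp 0 1 2 (qsf 0 536870912 1073741824 536870912 1) ndB4q0 ndB6q2 pcB1 Cut.none Ext.none)

def k0_pp_012 : ∃ t, chk3 f_pp_012 t 1 1 1 = true :=
  ⟨(a (l 3) (l 3)), by decide +kernel⟩

theorem c_pp_012 : CertB 0 536870912 1073741824 536870912 536870912 50465866 3 eng mog cd4q0 cd6q2 pd1 false true true .pnp 0 1 2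
    ndB4q0 ndB6q2 pcB1 Cut.none Ext.none :=
  certB1 (fam := false) (s1 := true) (s2 := true) (a := 0) (b := 1) (c := 2) (cn := .pnp) (n1 := ndB4q0) (n2 := ndB6q2) (pc := pcB1) (cut := Cut.none) (xt := Ext.none) (P1 := 0) (W1 := 536870912) (P2 := 1073741824) (W2 := 536870912) (P3 := 536870912) (W3 := 50465866) (N0 := 3) (En := eng) (mo := mog) (C1 := cd4q0) (C2 := cd6q2) (C3 := pd1)
    rfl (fun _ => rfl) k0_pp_012

noncomputable def f_pp_022 : ℕ → ℕ → ℕ → ℕ → Bool := onCell 0 536870912 1073741824 536870912 536870912 50465866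
    (rowB 3 eng mog cd4q0 cd6q2 pd2 1 false true true .pp 0 2 2 (qsf 0 536870912 1073741824 536870912 2) ndB4q0 ndB6q2 pcB2 Cut.none Ext.none)

def k0_pp_022 : ∃ t, chk3 f_pp_022 t 1 1 1 = true :=
  ⟨(a (b (b (b (l 3) (a (b (l 3) (l 3)) (l 3))) (b (b (b (a (a (a (l 16621848) (l 3)) (l 3)) (a (l 3) (l 3))) (b (a (a (l 16671184) (l 3)) (a (l 3) (l 16778648))) (a (b (a (l 16623664) (l 16688952)) (a (b (l 16620840) (l 16618952)) (b (l 16686464) (l 16684872)))) (b (a (l 16737480) (l 16774272)) (a (b (l 16735472) (l 16734056)) (b (l 16772168) (l 16770704))))))) (a (a (l 16602664) (l 16670680)) (a (l 16721720) (l 16759104)))) (a (a (a (l 16533592) (l 16572592)) (a (l 16608672) (l 16641624))) (a (l 16683616) (l 16724512))))) (b (a (b (a (a (l 16455824) (l 16493800)) (l 16594984)) (a (l 16376008) (l 16459720))) (b (a (l 16642784) (l 16668528)) (a (l 16538480) (l 16580800)))) (a (b (a (l 16244808) (l 16329848)) (a (l 16088752) (l 16341480))) (b (a (l 16407440)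 (l 2)) (l 2))))) (b (b (a (b (l 3) (b (l 3) (a (l 3) (l 16915520)))) (b (a (l 3) (b (l 3) (l 16856000))) (a (b (l 16864264) (l 16896088)) (b (l 16884416) (l 2))))) (a (b (b (b (a (l 16829104) (l 16904536)) (b (a (l 16819856) (l 16893800)) (a (b (l 16815496) (l 16812504)) (l 16887768)))) (a (l 16800336) (l 16870832))) (a (l 16767200) (l 16840408))) (b (a (b (b (l 16916208) (l 2)) (l 2)) (l 2)) (l 2)))) (a (b (b (a (l 16711032) (l 2)) (l 2)) (l 2)) (l 2)))), by decide +kernel⟩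

theorem c_pp_022 : CertB 0 536870912 1073741824 536870912 536870912 50465866 3 eng mog cd4q0 cd6q2 pd2 false true true .pp 0 2 2
    ndB4q0 ndB6q2 pcB2 Cut.none Ext.none :=
  certB1 (fam := false) (s1 := true) (s2 := true) (a := 0) (b := 2) (c := 2) (cn := .pp) (n1 := ndB4q0) (n2 := ndB6q2) (pc := pcB2) (cut := Cut.none) (xt := Ext.none) (P1 := 0) (W1 := 536870912) (P2 := 1073741824) (W2 := 536870912) (P3 := 536870912) (W3 := 50465866) (N0 := 3) (En := eng) (mo := mog) (C1 := cd4q0) (C2 := cd6q2) (C3 := pd2)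
    rfl (fun _ => rfl) k0_pp_022

noncomputable def f_pp_023 : ℕ → ℕ → ℕ → ℕ → Bool := onCell 1073741824 536870912 0 1230186008 536870912 50465866
    (rowB 3 eng mog cd4q0 cd6q3 pd2 2 false true true .up 0 2 3 (qsf 0 536870912 0 1230186008 2) ndB4q0 ndB6q3 pcB2 Cut.none Ext.none)

def k0_pp_023 : ∃ t, chk3 f_pp_023 t 1 1 1 = true :=
  ⟨(b (a (l 2) (a (l 2) (b (a (l 2) (l 16762976)) (b (a (l 16803808) (l 16792320)) (a (l 16772048) (l 16780288)))))) (b (a (b (l 2) (a (l 2) (a (l 2) (b (l 2) (l 16915904))))) (a (b (a (l 2) (l 16805112)) (a (b (l 16914072) (l 16913976)) (b (l 16805312) (l 16796440)))) (b (a (l 16758648) (b (l 16770400) (l 16758816))) (a (b (l 16744720) (l 16723872)) (l 16730720))))) (a (b (a (l 2) (a (b (l 16906528) (l 16990072)) (b (l 16948208) (l 16933744)))) (a (a (b (l 2) (b (l 16851088) (l 3))) (b (a (l 16885072) (l 16892728)) (a (l 612201315479) (b (l 16892992) (l 16894528))))) (a (b (a (a (l 16902344) (b (l 16897120) (l 16894856)))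 (l 16913768)) (a (a (l 16918440) (l 17031728)) (l 16891144))) (b (b (l 16888496) (l 16861088)) (l 16812768))))) (b (a (a (b (l 16876776) (l 16823944)) (l 16728592)) (a (l 16661008) (l 16645512))) (a (b (l 16706104) (l 16650656)) (b (a (l 16523552) (l 16470696)) (l 16245200))))))), by decide +kernel⟩

theorem c_pp_023 : CertB 0 536870912 0 1230186008 536870912 50465866 3 eng mog cd4q0 cd6q3 pd2 false true true .up 0 2 3
    ndB4q0 ndB6q3 pcB2 Cut.none Ext.none :=
  certB2 (fam := false) (s1 := true) (s2 := true) (a := 0) (b := 2) (c := 3) (cn := .up) (n1 := ndB4q0) (n2 := ndB6q3) (pc := pcB2) (cut := Cut.none) (xt := Ext.none) (P1 := 0) (W1 := 536870912) (P2 := 0) (W2 := 1230186008) (P3 := 536870912) (W3 := 50465866) (N0 := 3) (En := eng) (mo := mog) (C1 := cd4q0) (C2 := cd6q3) (C3 := pd2)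
    rfl (fun _ => rfl) k0_pp_023

noncomputable def f_pp_033 : ℕ → ℕ → ℕ → ℕ → Bool := onCell 1610612736 536870912 0 1230186008 536870912 50465866
    (rowB 3 eng mog cd4q0 cd6q3 pd3 2 false true true .pnn 0 3 3 (qsf 0 536870912 0 1230186008 3) ndB4q0 ndB6q3 pcB3 Cut.none Ext.none)

def k0_pp_033 : ∃ t, chk3 f_pp_033 t 1 1 1 = true :=
  ⟨(b (b (a (l 4) (l 4)) (b (a (a (a (l 16789968) (l 16799264)) (l 16788176)) (l 4)) (a (a (a (l 16789840) (l 16787512)) (l 16790656)) (a (l 307325574551) (l 4))))) (b (a (a (a (b (l 16779136) (l 16741752)) (b (l 16773464) (l 16762384))) (b (a (l 16781304) (l 16790808)) (l 16780160))) (b (a (a (l 16795224) (l 16801664)) (a (l 956738066023) (l 1))) (a (a (l 16765592) (l 754337676823)) (l 1)))) (a (b (a (a (l 16654888) (l 16665680)) (b (l 16696648) (l 16722240))) (a (b (a (l 16448720) (l 16422016)) (l 389800826055)) (b (a (l 16396096) (l 1)) (l 1)))) (l 1)))), by decide +kernel⟩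

theorem c_pp_033 : CertB 0 536870912 0 1230186008 536870912 50465866 3 eng mog cd4q0 cd6q3 pd3 false true true .pnn 0 3 3
    ndB4q0 ndB6q3 pcB3 Cut.none Ext.none :=
  certB2 (fam := false) (s1 := true) (s2 := true) (a := 0) (b := 3) (c := 3) (cn := .pnn) (n1 := ndB4q0) (n2 := ndB6q3) (pc := pcB3) (cut := Cut.none) (xt := Ext.none) (P1 := 0) (W1 := 536870912) (P2 := 0) (W2 := 1230186008) (P3 := 536870912) (W3 := 50465866) (N0 := 3) (En := eng) (mo := mog) (C1 := cd4q0) (C2 := cd6q3) (C3 := pd3)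
    rfl (fun _ => rfl) k0_pp_033

noncomputable def f_pp_101 : ℕ → ℕ → ℕ → ℕ → Bool := onCell 536870912 536870912 536870912 536870912 536870912 50465866
    (rowB 3 eng mog cd4q1 cd6q1 pd0 0 false true true .npn 1 0 1 (qsf 536870912 536870912 536870912 536870912 0) ndB4q1 ndB6q1 pcB0 Cut.none Ext.none)

def k0_pp_101 : ∃ t, chk3 f_pp_101 t 1 1 1 = true :=
  ⟨(l 3), by decide +kernel⟩

theorem c_pp_101 : CertB 536870912 536870912 536870912 536870912 536870912 50465866 3 eng mog cd4q1 cd6q1 pd0 false true true .npn 1 0 1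
    ndB4q1 ndB6q1 pcB0 Cut.none Ext.none :=
  certB0 (fam := false) (s1 := true) (s2 := true) (a := 1) (b := 0) (c := 1) (cn := .npn) (n1 := ndB4q1) (n2 := ndB6q1) (pc := pcB0) (cut := Cut.none) (xt := Ext.none) (P1 := 536870912) (W1 := 536870912) (P2 := 536870912) (W2 := 536870912) (P3 := 536870912) (W3 := 50465866) (N0 := 3) (En := eng) (mo := mog) (C1 := cd4q1) (C2 := cd6q1) (C3 := pd0)
    rfl k0_pp_101

noncomputable def f_pp_102 : ℕ → ℕ → ℕ → ℕ → Bool := onCell 536870912 536870912 1073741824 536870912 536870912 50465866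
    (rowB 3 eng mog cd4q1 cd6q2 pd0 0 false true true .npp 1 0 2 (qsf 536870912 536870912 1073741824 536870912 0) ndB4q1 ndB6q2 pcB0 Cut.none Ext.none)

def k0_pp_102 : ∃ t, chk3 f_pp_102 t 1 1 1 = true :=
  ⟨(l 3), by decide +kernel⟩

theorem c_pp_102 : CertB 536870912 536870912 1073741824 536870912 536870912 50465866 3 eng mog cd4q1 cd6q2 pd0 false true true .npp 1 0 2
    ndB4q1 ndB6q2 pcB0 Cut.none Ext.none :=
  certB0 (fam := false) (s1 := true) (s2 := true) (a := 1) (b := 0) (c := 2) (cn := .npp) (n1 := ndB4q1) (n2 := ndB6q2) (pc := pcB0) (cut := Cut.none) (xt := Ext.none) (P1 := 536870912) (W1 := 536870912) (P2 := 1073741824) (W2 := 536870912) (P3 := 536870912) (W3 := 50465866) (N0 := 3) (En := eng) (mo := mog) (C1 := cd4q1) (C2 := cd6q2) (C3 := pd0)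
    rfl k0_pp_102

noncomputable def f_pp_112 : ℕ → ℕ → ℕ → ℕ → Bool := onCell 536870912 536870912 1073741824 536870912 536870912 50465866
    (rowB 3 eng mog cd4q1 cd6q2 pd1 0 false true true .dn 1 1 2 (qsf 536870912 536870912 1073741824 536870912 1) ndB4q1 ndB6q2 pcB1 Cut.none Ext.none)

def k0_pp_112 : ∃ t, chk3 f_pp_112 t 1 1 1 = true :=
  ⟨(l 3), by decide +kernel⟩

theorem c_pp_112 : CertB 536870912 536870912 1073741824 536870912 536870912 50465866 3 eng mog cd4q1 cd6q2 pd1 false true true .dn 1 1 2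
    ndB4q1 ndB6q2 pcB1 Cut.none Ext.none :=
  certB0 (fam := false) (s1 := true) (s2 := true) (a := 1) (b := 1) (c := 2) (cn := .dn) (n1 := ndB4q1) (n2 := ndB6q2) (pc := pcB1) (cut := Cut.none) (xt := Ext.none) (P1 := 536870912) (W1 := 536870912) (P2 := 1073741824) (W2 := 536870912) (P3 := 536870912) (W3 := 50465866) (N0 := 3) (En := eng) (mo := mog) (C1 := cd4q1) (C2 := cd6q2) (C3 := pd1)
    rfl k0_pp_112

noncomputable def f_pp_113 : ℕ → ℕ → ℕ → ℕ → Bool := onCell 536870912 536870912 0 1230186008 536870912 50465866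
    (rowB 3 eng mog cd4q1 cd6q3 pd1 2 false true true .nn 1 1 3 (qsf 536870912 536870912 0 1230186008 1) ndB4q1 ndB6q3 pcB1 Cut.none Ext.none)

def k0_pp_113 : ∃ t, chk3 f_pp_113 t 1 1 1 = true :=
  ⟨(a (b (l 2) (b (b (l 2) (b (l 2) (l 3))) (l 3))) (b (b (l 364099791863) (a (l 2) (l 16877600))) (b (a (b (a (l 2) (l 16923168)) (a (b (l 16883112) (l 17015552)) (l 202568813223))) (b (l 16901432) (a (l 16886376) (l 16894880)))) (b (a (a (l 3) (l 419464530759)) (a (l 258403318679) (l 212769334183))) (a (l 3) (b (a (l 3) (l 16831168)) (l 3))))))), by decide +kernel⟩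

theorem c_pp_113 : CertB 536870912 536870912 0 1230186008 536870912 50465866 3 eng mog cd4q1 cd6q3 pd1 false true true .nn 1 1 3
    ndB4q1 ndB6q3 pcB1 Cut.none Ext.none :=
  certB2 (fam := false) (s1 := true) (s2 := true) (a := 1) (b := 1) (c := 3) (cn := .nn) (n1 := ndB4q1) (n2 := ndB6q3) (pc := pcB1) (cut := Cut.none) (xt := Ext.none) (P1 := 536870912) (W1 := 536870912) (P2 := 0) (W2 := 1230186008) (P3 := 536870912) (W3 := 50465866) (N0 := 3) (En := eng) (mo := mog) (C1 := cd4q1) (C2 := cd6q3) (C3 := pd1)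
    rfl (fun _ => rfl) k0_pp_113

noncomputable def f_pp_123 : ℕ → ℕ → ℕ → ℕ → Bool := onCell 536870912 536870912 0 1230186008 536870912 50465866
    (rowB 3 eng mog cd4q1 cd6q3 pd2 0 false true true .npn 1 2 3 (qsf 536870912 536870912 0 1230186008 2) ndB4q1 ndB6q3 pcB2 Cut.none Ext.none)

def k0_pp_123 : ∃ t, chk3 f_pp_123 t 1 1 1 = true :=
  ⟨(b (b (a (a (l 16906440) (l 16760480)) (a (l 16754080) (l 16779688))) (a (a (a (l 16796040) (l 16774160)) (b (l 16776040) (l 16819752))) (b (a (l 16810448) (l 16832192)) (a (l 16847520) (l 16906936))))) (b (a (a (b (l 16870128) (a (l 16923440) (l 16982248))) (b (l 16865200) (a (b (l 16904416) (l 16884368)) (l 16890600)))) (b (a (b (l 16874976) (l 16924856)) (l 1709431549751)) (a (a (l 16911856) (l 1002372612343)) (l 1)))) (a (a (b (a (b (l 16920392) (l 16899072)) (b (l 16892224) (b (l 16893752) (l 16887720)))) (b (a (b (a (l 16882120) (l 16887184)) (a (l 16879184) (l 16871816))) (l 385641783847)) (a (b (a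 (l 16853392) (l 3)) (l 3)) (l 3)))) (b (b (a (l 16887392) (l 16906312)) (a (b (l 16889328) (l 16893656)) (l 1))) (b (a (l 16896360) (l 1)) (l 1)))) (l 1)))), by decide +kernel⟩

theorem c_pp_123 : CertB 536870912 536870912 0 1230186008 536870912 50465866 3 eng mog cd4q1 cd6q3 pd2 false true true .npn 1 2 3
    ndB4q1 ndB6q3 pcB2 Cut.none Ext.none :=
  certB0 (fam := false) (s1 := true) (s2 := true) (a := 1) (b := 2) (c := 3) (cn := .npn) (n1 := ndB4q1) (n2 := ndB6q3) (pc := pcB2) (cut := Cut.none) (xt := Ext.none) (P1 := 536870912) (W1 := 536870912) (P2 := 0) (W2 := 1230186008) (P3 := 536870912) (W3 := 50465866) (N0 := 3) (En := eng) (mo := mog) (C1 := cd4q1) (C2 := cd6q3) (C3 := pd2)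
    rfl k0_pp_123

noncomputable def f_pp_133 : ℕ → ℕ → ℕ → ℕ → Bool := onCell 1610612736 536870912 0 1230186008 536870912 50465866
    (rowB 3 eng mog cd4q1 cd6q3 pd3 2 false true true .dn 1 3 3 (qsf 536870912 536870912 0 1230186008 3) ndB4q1 ndB6q3 pcB3 Cut.none Ext.none)

def k0_pp_133 : ∃ t, chk3 f_pp_133 t 1 1 1 = true :=
  ⟨(b (b (a (l 4) (l 1)) (l 1)) (l 1)), by decide +kernel⟩

theorem c_pp_133 : CertB 536870912 536870912 0 1230186008 536870912 50465866 3 eng mog cd4q1 cd6q3 pd3 false true true .dn 1 3 3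
    ndB4q1 ndB6q3 pcB3 Cut.none Ext.none :=
  certB2 (fam := false) (s1 := true) (s2 := true) (a := 1) (b := 3) (c := 3) (cn := .dn) (n1 := ndB4q1) (n2 := ndB6q3) (pc := pcB3) (cut := Cut.none) (xt := Ext.none) (P1 := 536870912) (W1 := 536870912) (P2 := 0) (W2 := 1230186008) (P3 := 536870912) (W3 := 50465866) (N0 := 3) (En := eng) (mo := mog) (C1 := cd4q1) (C2 := cd6q3) (C3 := pd3)
    rfl (fun _ => rfl) k0_pp_133

noncomputable def f_pp_202 : ℕ → ℕ → ℕ → ℕ → Bool := onCell 0 536870912 1073741824 536870912 536870912 50465866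
    (rowB 3 eng mog cd4q2 cd6q2 pd0 2 false true true .pp 2 0 2 (qsf 1073741824 536870912 1073741824 536870912 0) ndB4q2 ndB6q2 pcB0 Cut.none Ext.none)

def k0_pp_202 : ∃ t, chk3 f_pp_202 t 1 1 1 = true :=
  ⟨(l 3), by decide +kernel⟩

theorem c_pp_202 : CertB 1073741824 536870912 1073741824 536870912 536870912 50465866 3 eng mog cd4q2 cd6q2 pd0 false true true .pp 2 0 2
    ndB4q2 ndB6q2 pcB0 Cut.none Ext.none :=
  certB2 (fam := false) (s1 := true) (s2 := true) (a := 2) (b := 0) (c := 2) (cn := .pp) (n1 := ndB4q2) (n2 := ndB6q2) (pc := pcB0) (cut := Cut.none) (xt := Ext.none) (P1 := 1073741824) (W1 := 536870912) (P2 := 1073741824) (W2 := 536870912) (P3 := 536870912) (W3 := 50465866) (N0 := 3) (En := eng) (mo := mog) (C1 := cd4q2) (C2 := cd6q2) (C3 := pd0)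
    rfl (fun _ => rfl) k0_pp_202

noncomputable def f_pp_203 : ℕ → ℕ → ℕ → ℕ → Bool := onCell 0 536870912 0 1230186008 536870912 50465866
    (rowB 3 eng mog cd4q2 cd6q3 pd0 2 false true true .up 2 0 3 (qsf 1073741824 536870912 0 1230186008 0) ndB4q2 ndB6q3 pcB0 Cut.none Ext.none)

def k0_pp_203 : ∃ t, chk3 f_pp_203 t 1 1 1 = true :=
  ⟨(b (b (l 3) (l 3)) (l 3)), by decide +kernel⟩

theorem c_pp_203 : CertB 1073741824 536870912 0 1230186008 536870912 50465866 3 eng mog cd4q2 cd6q3 pd0 false true true .up 2 0 3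
    ndB4q2 ndB6q3 pcB0 Cut.none Ext.none :=
  certB2 (fam := false) (s1 := true) (s2 := true) (a := 2) (b := 0) (c := 3) (cn := .up) (n1 := ndB4q2) (n2 := ndB6q3) (pc := pcB0) (cut := Cut.none) (xt := Ext.none) (P1 := 1073741824) (W1 := 536870912) (P2 := 0) (W2 := 1230186008) (P3 := 536870912) (W3 := 50465866) (N0 := 3) (En := eng) (mo := mog) (C1 := cd4q2) (C2 := cd6q3) (C3 := pd0)
    rfl (fun _ => rfl) k0_pp_203

noncomputable def f_pp_213 : ℕ → ℕ → ℕ → ℕ → Bool := onCell 1073741824 536870912 0 1230186008 536870912 50465866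
    (rowB 3 eng mog cd4q2 cd6q3 pd1 0 false true true .pnn 2 1 3 (qsf 1073741824 536870912 0 1230186008 1) ndB4q2 ndB6q3 pcB1 Cut.none Ext.none)

def k0_pp_213 : ∃ t, chk3 f_pp_213 t 1 1 1 = true :=
  ⟨(b (b (a (a (a (b (l 16772160) (a (l 301889744631) (l 347523249495))) (b (a (l 16764536) (l 16759352)) (b (l 309942772055) (l 3)))) (b (a (a (l 16754768) (l 16752544)) (l 268066819399)) (l 3))) (l 3)) (a (a (l 3) (l 3)) (l 3))) (l 3)), by decide +kernel⟩

theorem c_pp_213 : CertB 1073741824 536870912 0 1230186008 536870912 50465866 3 eng mog cd4q2 cd6q3 pd1 false true true .pnn 2 1 3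
    ndB4q2 ndB6q3 pcB1 Cut.none Ext.none :=
  certB0 (fam := false) (s1 := true) (s2 := true) (a := 2) (b := 1) (c := 3) (cn := .pnn) (n1 := ndB4q2) (n2 := ndB6q3) (pc := pcB1) (cut := Cut.none) (xt := Ext.none) (P1 := 1073741824) (W1 := 536870912) (P2 := 0) (W2 := 1230186008) (P3 := 536870912) (W3 := 50465866) (N0 := 3) (En := eng) (mo := mog) (C1 := cd4q2) (C2 := cd6q3) (C3 := pd1)
    rfl k0_pp_213

noncomputable def f_pp_303 : ℕ → ℕ → ℕ → ℕ → Bool := onCell 0 1230186008 0 1230186008 536870912 50465866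
    (rowB 3 eng mog cd4q3 cd6q3 pd0 0 false true true .npn 3 0 3 (qsf 0 1230186008 0 1230186008 0) ndB4q3 ndB6q3 pcB0 Cut.none Ext.none)

def k0_pp_303 : ∃ t, chk3 f_pp_303 t 1 1 1 = true :=
  ⟨(a (b (l 3) (l 5)) (b (l 3) (a (l 3) (l 3)))), by decide +kernel⟩

theorem c_pp_303 : CertB 0 1230186008 0 1230186008 536870912 50465866 3 eng mog cd4q3 cd6q3 pd0 false true true .npn 3 0 3
    ndB4q3 ndB6q3 pcB0 Cut.none Ext.none :=
  certB0 (fam := false) (s1 := true) (s2 := true) (a := 3) (b := 0) (c := 3) (cn := .npn) (n1 := ndB4q3) (n2 := ndB6q3) (pc := pcB0) (cut := Cut.none) (xt := Ext.none) (P1 := 0) (W1 := 1230186008) (P2 := 0) (W2 := 1230186008) (P3 := 536870912) (W3 := 50465866) (N0 := 3) (En := eng) (mo := mog) (C1 := cd4q3) (C2 := cd6q3) (C3 := pd0)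
    rfl k0_pp_303

noncomputable def f_pp_313 : ℕ → ℕ → ℕ → ℕ → Bool := onCell 0 1230186008 0 1230186008 536870912 50465866
    (rowB 3 eng mog cd4q3 cd6q3 pd1 0 false true true .dn 3 1 3 (qsf 0 1230186008 0 1230186008 1) ndB4q3 ndB6q3 pcB1 Cut.none Ext.none)

def k0_pp_313 : ∃ t, chk3 f_pp_313 t 1 1 1 = true :=
  ⟨(a (l 1) (b (l 3) (l 1))), by decide +kernel⟩

theorem c_pp_313 : CertB 0 1230186008 0 1230186008 536870912 50465866 3 eng mog cd4q3 cd6q3 pd1 false true true .dn 3 1 3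
    ndB4q3 ndB6q3 pcB1 Cut.none Ext.none :=
  certB0 (fam := false) (s1 := true) (s2 := true) (a := 3) (b := 1) (c := 3) (cn := .dn) (n1 := ndB4q3) (n2 := ndB6q3) (pc := pcB1) (cut := Cut.none) (xt := Ext.none) (P1 := 0) (W1 := 1230186008) (P2 := 0) (W2 := 1230186008) (P3 := 536870912) (W3 := 50465866) (N0 := 3) (En := eng) (mo := mog) (C1 := cd4q3) (C2 := cd6q3) (C3 := pd1)
    rfl k0_pp_313

noncomputable def f_pm_001 : ℕ → ℕ → ℕ → ℕ → Bool := onCell 0 536870912 536870912 536870912 536870912 50465866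
    (rowB 3 eng mog cd4q0 cd6q1 pd0 0 false true false .up 0 0 1 (qsf 0 536870912 536870912 536870912 0) ndB4q0 ndB6q1 pcB0 Cut.none Ext.none)

def k0_pm_001 : ∃ t, chk3 f_pm_001 t 1 1 1 = true :=
  ⟨(l 4), by decide +kernel⟩

theorem c_pm_001 : CertB 0 536870912 536870912 536870912 536870912 50465866 3 eng mog cd4q0 cd6q1 pd0 false true false .up 0 0 1
    ndB4q0 ndB6q1 pcB0 Cut.none Ext.none :=
  certB0 (fam := false) (s1 := true) (s2 := false) (a := 0) (b := 0) (c := 1) (cn := .up) (n1 := ndB4q0) (n2 := ndB6q1) (pc := pcB0) (cut := Cut.none) (xt := Ext.none) (P1 := 0) (W1 := 536870912) (P2 := 536870912) (W2 := 536870912) (P3 := 536870912) (W3 := 50465866) (N0 := 3) (En := eng) (mo := mog) (C1 := cd4q0) (C2 := cd6q1) (C3 := pd0)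
    rfl k0_pm_001

noncomputable def f_pm_011 : ℕ → ℕ → ℕ → ℕ → Bool := onCell 0 536870912 536870912 536870912 536870912 50465866
    (rowB 3 eng mog cd4q0 cd6q1 pd1 0 false true false .pnn 0 1 1 (qsf 0 536870912 536870912 536870912 1) ndB4q0 ndB6q1 pcB1 Cut.none Ext.none)

def k0_pm_011 : ∃ t, chk3 f_pm_011 t 1 1 1 = true :=
  ⟨(l 4), by decide +kernel⟩

theorem c_pm_011 : CertB 0 536870912 536870912 536870912 536870912 50465866 3 eng mog cd4q0 cd6q1 pd1 false true false .pnn 0 1 1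
    ndB4q0 ndB6q1 pcB1 Cut.none Ext.none :=
  certB0 (fam := false) (s1 := true) (s2 := false) (a := 0) (b := 1) (c := 1) (cn := .pnn) (n1 := ndB4q0) (n2 := ndB6q1) (pc := pcB1) (cut := Cut.none) (xt := Ext.none) (P1 := 0) (W1 := 536870912) (P2 := 536870912) (W2 := 536870912) (P3 := 536870912) (W3 := 50465866) (N0 := 3) (En := eng) (mo := mog) (C1 := cd4q0) (C2 := cd6q1) (C3 := pd1)
    rfl k0_pm_011

noncomputable def f_pm_012 : ℕ → ℕ → ℕ → ℕ → Bool := onCell 0 536870912 1073741824 536870912 536870912 50465866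
    (rowB 3 eng mog cd4q0 cd6q2 pd1 0 false true false .pnp 0 1 2 (qsf 0 536870912 1073741824 536870912 1) ndB4q0 ndB6q2 pcB1 Cut.none Ext.none)

def k0_pm_012 : ∃ t, chk3 f_pm_012 t 1 1 1 = true :=
  ⟨(l 4), by decide +kernel⟩

theorem c_pm_012 : CertB 0 536870912 1073741824 536870912 536870912 50465866 3 eng mog cd4q0 cd6q2 pd1 false true false .pnp 0 1 2
    ndB4q0 ndB6q2 pcB1 Cut.none Ext.none :=
  certB0 (fam := false) (s1 := true) (s2 := false) (a := 0) (b := 1) (c := 2) (cn := .pnp) (n1 := ndB4q0) (n2 := ndB6q2) (pc := pcB1) (cut := Cut.none) (xt := Ext.none) (P1 := 0) (W1 := 536870912) (P2 := 1073741824) (W2 := 536870912) (P3 := 536870912) (W3 := 50465866) (N0 := 3) (En := eng) (mo := mog) (C1 := cd4q0) (C2 := cd6q2) (C3 := pd1)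
    rfl k0_pm_012

noncomputable def f_pm_022 : ℕ → ℕ → ℕ → ℕ → Bool := onCell 0 536870912 1073741824 536870912 536870912 50465866
    (rowB 3 eng mog cd4q0 cd6q2 pd2 0 false true false .pp 0 2 2 (qsf 0 536870912 1073741824 536870912 2) ndB4q0 ndB6q2 pcB2 Cut.none Ext.none)

def k0_pm_022 : ∃ t, chk3 f_pm_022 t 1 1 1 = true :=
  ⟨(l 4), by decide +kernel⟩

theorem c_pm_022 : CertB 0 536870912 1073741824 536870912 536870912 50465866 3 eng mog cd4q0 cd6q2 pd2 false true false .pp 0 2 2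
    ndB4q0 ndB6q2 pcB2 Cut.none Ext.none :=
  certB0 (fam := false) (s1 := true) (s2 := false) (a := 0) (b := 2) (c := 2) (cn := .pp) (n1 := ndB4q0) (n2 := ndB6q2) (pc := pcB2) (cut := Cut.none) (xt := Ext.none) (P1 := 0) (W1 := 536870912) (P2 := 1073741824) (W2 := 536870912) (P3 := 536870912) (W3 := 50465866) (N0 := 3) (En := eng) (mo := mog) (C1 := cd4q0) (C2 := cd6q2) (C3 := pd2)
    rfl k0_pm_022

noncomputable def f_pm_023 : ℕ → ℕ → ℕ → ℕ → Bool := onCell 0 536870912 0 1230186008 536870912 50465866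
    (rowB 3 eng mog cd4q0 cd6q3 pd2 0 false true false .up 0 2 3 (qsf 0 536870912 0 1230186008 2) ndB4q0 ndB6q3 pcB2 Cut.none Ext.none)

def k0_pm_023 : ∃ t, chk3 f_pm_023 t 1 1 1 = true :=
  ⟨(l 4), by decide +kernel⟩

theorem c_pm_023 : CertB 0 536870912 0 1230186008 536870912 50465866 3 eng mog cd4q0 cd6q3 pd2 false true false .up 0 2 3
    ndB4q0 ndB6q3 pcB2 Cut.none Ext.none :=
  certB0 (fam := false) (s1 := true) (s2 := false) (a := 0) (b := 2) (c := 3) (cn := .up) (n1 := ndB4q0) (n2 := ndB6q3) (pc := pcB2) (cut := Cut.none) (xt := Ext.none) (P1 := 0) (W1 := 536870912) (P2 := 0) (W2 := 1230186008) (P3 := 536870912) (W3 := 50465866) (N0 := 3) (En := eng) (mo := mog) (C1 := cd4q0) (C2 := cd6q3) (C3 := pd2)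
    rfl k0_pm_023

noncomputable def f_pm_033 : ℕ → ℕ → ℕ → ℕ → Bool := onCell 0 536870912 0 1230186008 536870912 50465866
    (rowB 3 eng mog cd4q0 cd6q3 pd3 0 false true false .pnn 0 3 3 (qsf 0 536870912 0 1230186008 3) ndB4q0 ndB6q3 pcB3 Cut.none Ext.none)

def k0_pm_033 : ∃ t, chk3 f_pm_033 t 1 1 1 = true :=
  ⟨(l 4), by decide +kernel⟩

theorem c_pm_033 : CertB 0 536870912 0 1230186008 536870912 50465866 3 eng mog cd4q0 cd6q3 pd3 false true false .pnn 0 3 3
    ndB4q0 ndB6q3 pcB3 Cut.none Ext.none :=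
  certB0 (fam := false) (s1 := true) (s2 := false) (a := 0) (b := 3) (c := 3) (cn := .pnn) (n1 := ndB4q0) (n2 := ndB6q3) (pc := pcB3) (cut := Cut.none) (xt := Ext.none) (P1 := 0) (W1 := 536870912) (P2 := 0) (W2 := 1230186008) (P3 := 536870912) (W3 := 50465866) (N0 := 3) (En := eng) (mo := mog) (C1 := cd4q0) (C2 := cd6q3) (C3 := pd3)
    rfl k0_pm_033

noncomputable def f_pm_101 : ℕ → ℕ → ℕ → ℕ → Bool := onCell 536870912 536870912 536870912 536870912 536870912 50465866
    (rowB 3 eng mog cd4q1 cd6q1 pd0 0 false true false .npn 1 0 1 (qsf 536870912 536870912 536870912 536870912 0) ndB4q1 ndB6q1 pcB0 Cut.none Ext.none)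

def k0_pm_101 : ∃ t, chk3 f_pm_101 t 1 1 1 = true :=
  ⟨(l 4), by decide +kernel⟩

theorem c_pm_101 : CertB 536870912 536870912 536870912 536870912 536870912 50465866 3 eng mog cd4q1 cd6q1 pd0 false true false .npn 1 0 1
    ndB4q1 ndB6q1 pcB0 Cut.none Ext.none :=
  certB0 (fam := false) (s1 := true) (s2 := false) (a := 1) (b := 0) (c := 1) (cn := .npn) (n1 := ndB4q1) (n2 := ndB6q1) (pc := pcB0) (cut := Cut.none) (xt := Ext.none) (P1 := 536870912) (W1 := 536870912) (P2 := 536870912) (W2 := 536870912) (P3 := 536870912) (W3 := 50465866) (N0 := 3) (En := eng) (mo := mog) (C1 := cd4q1) (C2 := cd6q1) (C3 := pd0)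
    rfl k0_pm_101

noncomputable def f_pm_102 : ℕ → ℕ → ℕ → ℕ → Bool := onCell 536870912 536870912 1073741824 536870912 536870912 50465866
    (rowB 3 eng mog cd4q1 cd6q2 pd0 0 false true false .npp 1 0 2 (qsf 536870912 536870912 1073741824 536870912 0) ndB4q1 ndB6q2 pcB0 Cut.none Ext.none)

def k0_pm_102 : ∃ t, chk3 f_pm_102 t 1 1 1 = true :=
  ⟨(l 4), by decide +kernel⟩

theorem c_pm_102 : CertB 536870912 536870912 1073741824 536870912 536870912 50465866 3 eng mog cd4q1 cd6q2 pd0 false true false .npp 1 0 2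
    ndB4q1 ndB6q2 pcB0 Cut.none Ext.none :=
  certB0 (fam := false) (s1 := true) (s2 := false) (a := 1) (b := 0) (c := 2) (cn := .npp) (n1 := ndB4q1) (n2 := ndB6q2) (pc := pcB0) (cut := Cut.none) (xt := Ext.none) (P1 := 536870912) (W1 := 536870912) (P2 := 1073741824) (W2 := 536870912) (P3 := 536870912) (W3 := 50465866) (N0 := 3) (En := eng) (mo := mog) (C1 := cd4q1) (C2 := cd6q2) (C3 := pd0)
    rfl k0_pm_102

noncomputable def f_pm_112 : ℕ → ℕ → ℕ → ℕ → Bool := onCell 536870912 536870912 1073741824 536870912 536870912 50465866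
    (rowB 3 eng mog cd4q1 cd6q2 pd1 0 false true false .dn 1 1 2 (qsf 536870912 536870912 1073741824 536870912 1) ndB4q1 ndB6q2 pcB1 Cut.none Ext.none)

def k0_pm_112 : ∃ t, chk3 f_pm_112 t 1 1 1 = true :=
  ⟨(l 4), by decide +kernel⟩

theorem c_pm_112 : CertB 536870912 536870912 1073741824 536870912 536870912 50465866 3 eng mog cd4q1 cd6q2 pd1 false true false .dn 1 1 2
    ndB4q1 ndB6q2 pcB1 Cut.none Ext.none :=
  certB0 (fam := false) (s1 := true) (s2 := false) (a := 1) (b := 1) (c := 2) (cn := .dn) (n1 := ndB4q1) (n2 := ndB6q2) (pc := pcB1) (cut := Cut.none) (xt := Ext.none) (P1 := 536870912) (W1 := 536870912) (P2 := 1073741824) (W2 := 536870912) (P3 := 536870912) (W3 := 50465866) (N0 := 3) (En := eng) (mo := mog) (C1 := cd4q1) (C2 := cd6q2) (C3 := pd1)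
    rfl k0_pm_112

noncomputable def f_pm_113 : ℕ → ℕ → ℕ → ℕ → Bool := onCell 536870912 536870912 0 1230186008 536870912 50465866
    (rowB 3 eng mog cd4q1 cd6q3 pd1 0 false true false .nn 1 1 3 (qsf 536870912 536870912 0 1230186008 1) ndB4q1 ndB6q3 pcB1 Cut.none Ext.none)

def k0_pm_113 : ∃ t, chk3 f_pm_113 t 1 1 1 = true :=
  ⟨(b (b (a (l 2) (l 16839440)) (l 4)) (l 4)), by decide +kernel⟩

theorem c_pm_113 : CertB 536870912 536870912 0 1230186008 536870912 50465866 3 eng mog cd4q1 cd6q3 pd1 false true false .nn 1 1 3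
    ndB4q1 ndB6q3 pcB1 Cut.none Ext.none :=
  certB0 (fam := false) (s1 := true) (s2 := false) (a := 1) (b := 1) (c := 3) (cn := .nn) (n1 := ndB4q1) (n2 := ndB6q3) (pc := pcB1) (cut := Cut.none) (xt := Ext.none) (P1 := 536870912) (W1 := 536870912) (P2 := 0) (W2 := 1230186008) (P3 := 536870912) (W3 := 50465866) (N0 := 3) (En := eng) (mo := mog) (C1 := cd4q1) (C2 := cd6q3) (C3 := pd1)
    rfl k0_pm_113

noncomputable def f_pm_123 : ℕ → ℕ → ℕ → ℕ → Bool := onCell 536870912 536870912 0 1230186008 536870912 50465866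
    (rowB 3 eng mog cd4q1 cd6q3 pd2 0 false true false .npn 1 2 3 (qsf 536870912 536870912 0 1230186008 2) ndB4q1 ndB6q3 pcB2 Cut.none Ext.none)

def k0_pm_123 : ∃ t, chk3 f_pm_123 t 1 1 1 = true :=
  ⟨(b (b (a (l 4) (a (l 4) (l 16764304))) (l 4)) (l 4)), by decide +kernel⟩

theorem c_pm_123 : CertB 536870912 536870912 0 1230186008 536870912 50465866 3 eng mog cd4q1 cd6q3 pd2 false true false .npn 1 2 3
    ndB4q1 ndB6q3 pcB2 Cut.none Ext.none :=
  certB0 (fam := false) (s1 := true) (s2 := false) (a := 1) (b := 2) (c := 3) (cn := .npn) (n1 := ndB4q1) (n2 := ndB6q3) (pc := pcB2) (cut := Cut.none) (xt := Ext.none) (P1 := 536870912) (W1 := 536870912) (P2 := 0) (W2 := 1230186008) (P3 := 536870912) (W3 := 50465866) (N0 := 3) (En := eng) (mo := mog) (C1 := cd4q1) (C2 := cd6q3) (C3 := pd2)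
    rfl k0_pm_123

noncomputable def f_pm_133 : ℕ → ℕ → ℕ → ℕ → Bool := onCell 1610612736 536870912 0 1230186008 536870912 50465866
    (rowB 3 eng mog cd4q1 cd6q3 pd3 2 false true false .dn 1 3 3 (qsf 536870912 536870912 0 1230186008 3) ndB4q1 ndB6q3 pcB3 Cut.none Ext.none)

def k0_pm_133 : ∃ t, chk3 f_pm_133 t 1 1 1 = true :=
  ⟨(b (l 4) (l 1)), by decide +kernel⟩

theorem c_pm_133 : CertB 536870912 536870912 0 1230186008 536870912 50465866 3 eng mog cd4q1 cd6q3 pd3 false true false .dn 1 3 3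
    ndB4q1 ndB6q3 pcB3 Cut.none Ext.none :=
  certB2 (fam := false) (s1 := true) (s2 := false) (a := 1) (b := 3) (c := 3) (cn := .dn) (n1 := ndB4q1) (n2 := ndB6q3) (pc := pcB3) (cut := Cut.none) (xt := Ext.none) (P1 := 536870912) (W1 := 536870912) (P2 := 0) (W2 := 1230186008) (P3 := 536870912) (W3 := 50465866) (N0 := 3) (En := eng) (mo := mog) (C1 := cd4q1) (C2 := cd6q3) (C3 := pd3)
    rfl (fun _ => rfl) k0_pm_133

noncomputable def f_pm_202 : ℕ → ℕ → ℕ → ℕ → Bool := onCell 1073741824 536870912 1073741824 536870912 536870912 50465866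
    (rowB 3 eng mog cd4q2 cd6q2 pd0 0 false true false .pp 2 0 2 (qsf 1073741824 536870912 1073741824 536870912 0) ndB4q2 ndB6q2 pcB0 Cut.none Ext.none)

def k0_pm_202 : ∃ t, chk3 f_pm_202 t 1 1 1 = true :=
  ⟨(a (l 4) (l 4)), by decide +kernel⟩

theorem c_pm_202 : CertB 1073741824 536870912 1073741824 536870912 536870912 50465866 3 eng mog cd4q2 cd6q2 pd0 false true false .pp 2 0 2
    ndB4q2 ndB6q2 pcB0 Cut.none Ext.none :=
  certB0 (fam := false) (s1 := true) (s2 := false) (a := 2) (b := 0) (c := 2) (cn := .pp) (n1 := ndB4q2) (n2 := ndB6q2) (pc := pcB0) (cut := Cut.none) (xt := Ext.none) (P1 := 1073741824) (W1 := 536870912) (P2 := 1073741824) (W2 := 536870912) (P3 := 536870912) (W3 := 50465866) (N0 := 3) (En := eng) (mo := mog) (C1 := cd4q2) (C2 := cd6q2) (C3 := pd0)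
    rfl k0_pm_202

noncomputable def f_pm_203 : ℕ → ℕ → ℕ → ℕ → Bool := onCell 1073741824 536870912 0 1230186008 536870912 50465866
    (rowB 3 eng mog cd4q2 cd6q3 pd0 0 false true false .up 2 0 3 (qsf 1073741824 536870912 0 1230186008 0) ndB4q2 ndB6q3 pcB0 Cut.none Ext.none)

def k0_pm_203 : ∃ t, chk3 f_pm_203 t 1 1 1 = true :=
  ⟨(b (a (l 2) (a (l 2) (b (a (l 2) (b (l 3) (l 16777384))) (a (b (l 16971944) (l 16780712)) (b (l 16789576) (l 16792560)))))) (b (a (b (l 2) (a (l 2) (a (l 2) (b (l 2) (l 16939168))))) (a (b (b (l 16751416) (a (l 2) (l 16756688))) (a (b (l 16908320) (l 16888032)) (b (l 16794128) (l 16848288)))) (b (a (b (l 16770928) (l 16754816)) (b (l 16786360) (l 16769424))) (a (b (l 16742160) (l 16747224)) (b (l 16745944) (l 16718520)))))) (a (b (a (l 2) (b (l 17008000) (l 17080352))) (l 4)) (b (a (b (a (l 16902992) (l 16828976)) (l 16837176)) (a (l 16782592) (l 16845448))) (a (b (l 16817848) (l 4)) (a (l 16756528) (l 16739856))))))),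 by decide +kernel⟩

theorem c_pm_203 : CertB 1073741824 536870912 0 1230186008 536870912 50465866 3 eng mog cd4q2 cd6q3 pd0 false true false .up 2 0 3
    ndB4q2 ndB6q3 pcB0 Cut.none Ext.none :=
  certB0 (fam := false) (s1 := true) (s2 := false) (a := 2) (b := 0) (c := 3) (cn := .up) (n1 := ndB4q2) (n2 := ndB6q3) (pc := pcB0) (cut := Cut.none) (xt := Ext.none) (P1 := 1073741824) (W1 := 536870912) (P2 := 0) (W2 := 1230186008) (P3 := 536870912) (W3 := 50465866) (N0 := 3) (En := eng) (mo := mog) (C1 := cd4q2) (C2 := cd6q3) (C3 := pd0)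
    rfl k0_pm_203

noncomputable def f_pm_213 : ℕ → ℕ → ℕ → ℕ → Bool := onCell 536870912 536870912 0 1230186008 536870912 50465866
    (rowB 3 eng mog cd4q2 cd6q3 pd1 2 false true false .pnn 2 1 3 (qsf 1073741824 536870912 0 1230186008 1) ndB4q2 ndB6q3 pcB1 Cut.none Ext.none)

def k0_pm_213 : ∃ t, chk3 f_pm_213 t 1 1 1 = true :=
  ⟨(b (b (a (a (a (a (l 221359082151) (l 219748347287)) (l 211158541255)) (a (l 212232390199) (l 180556889527))) (a (b (a (l 16760664) (l 16757568)) (l 16767176)) (b (l 16951880) (l 16790088)))) (a (a (b (a (l 16794072) (l 16804152)) (l 16919056)) (b (a (l 16801136) (l 16773784)) (a (l 16794728) (l 16814592)))) (a (b (l 16786664) (l 16825272)) (b (l 16810176) (l 377454509799))))) (b (a (a (b (a (l 16754632) (l 16825760)) (a (l 16951552) (l 16980304))) (b (a (l 16851712) (l 16861096)) (a (l 16933504) (l 16919256)))) (a (b (a (l 16863736) (l 16911312)) (a (l 16933160) (l 17319416))) (b (b (l 16973240) (l 1)) (l 1)))) (a (b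 (a (l 17028896) (l 17004256)) (l 4)) (l 1)))), by decide +kernel⟩

theorem c_pm_213 : CertB 1073741824 536870912 0 1230186008 536870912 50465866 3 eng mog cd4q2 cd6q3 pd1 false true false .pnn 2 1 3
    ndB4q2 ndB6q3 pcB1 Cut.none Ext.none :=
  certB2 (fam := false) (s1 := true) (s2 := false) (a := 2) (b := 1) (c := 3) (cn := .pnn) (n1 := ndB4q2) (n2 := ndB6q3) (pc := pcB1) (cut := Cut.none) (xt := Ext.none) (P1 := 1073741824) (W1 := 536870912) (P2 := 0) (W2 := 1230186008) (P3 := 536870912) (W3 := 50465866) (N0 := 3) (En := eng) (mo := mog) (C1 := cd4q2) (C2 := cd6q3) (C3 := pd1)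
    rfl (fun _ => rfl) k0_pm_213

noncomputable def f_pm_303 : ℕ → ℕ → ℕ → ℕ → Bool := onCell 0 1230186008 0 1230186008 536870912 50465866
    (rowB 3 eng mog cd4q3 cd6q3 pd0 0 false true false .npn 3 0 3 (qsf 0 1230186008 0 1230186008 0) ndB4q3 ndB6q3 pcB0 Cut.none Ext.none)

def k0_pm_303 : ∃ t, chk3 f_pm_303 t 1 1 1 = true :=
  ⟨(a (b (l 3) (a (l 1) (b (b (l 3) (l 1)) (l 1)))) (b (a (b (l 3) (a (l 3) (b (l 3) (a (l 3) (l 200421123863))))) (a (b (l 3) (b (a (l 3) (l 256792570855)) (a (b (l 16767848) (l 16768880)) (b (l 16777880) (l 17030224))))) (b (a (l 3) (a (l 3) (l 208473918599))) (a (b (l 132775248039) (b (l 16977040) (l 16793448))) (b (l 130091061527) (l 16794672)))))) (a (b (a (b (b (l 16765104) (b (l 164450748503) (l 482680981383))) (a (l 1) (b (l 16769168) (l 1)))) (b (b (a (l 16784184) (b (l 16763552) (l 16763200))) (a (l 16864472) (l 16765472))) (b (l 16765200) (l 586296657047)))) (a (l 1) (b (b (l 16730936) (l 1)) (l 1)))) (b (a (b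 (b (a (l 16770944) (l 16777920)) (l 16773552)) (b (l 16957016) (l 16748208))) (a (b (b (l 16793568) (l 16785632)) (l 16938600)) (b (b (l 16788624) (l 16776392)) (b (l 16757992) (l 16729528))))) (a (b (b (l 16711584) (l 16628240)) (a (l 1) (b (l 16538232) (l 1)))) (b (a (l 16877976) (b (l 16691912) (l 16651536))) (a (l 16678736) (l 16714736)))))))), by decide +kernel⟩

theorem c_pm_303 : CertB 0 1230186008 0 1230186008 536870912 50465866 3 eng mog cd4q3 cd6q3 pd0 false true false .npn 3 0 3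
    ndB4q3 ndB6q3 pcB0 Cut.none Ext.none :=
  certB0 (fam := false) (s1 := true) (s2 := false) (a := 3) (b := 0) (c := 3) (cn := .npn) (n1 := ndB4q3) (n2 := ndB6q3) (pc := pcB0) (cut := Cut.none) (xt := Ext.none) (P1 := 0) (W1 := 1230186008) (P2 := 0) (W2 := 1230186008) (P3 := 536870912) (W3 := 50465866) (N0 := 3) (En := eng) (mo := mog) (C1 := cd4q3) (C2 := cd6q3) (C3 := pd0)
    rfl k0_pm_303

noncomputable def f_pm_313 : ℕ → ℕ → ℕ → ℕ → Bool := onCell 0 1230186008 0 1230186008 536870912 50465866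
    (rowB 3 eng mog cd4q3 cd6q3 pd1 0 false true false .dn 3 1 3 (qsf 0 1230186008 0 1230186008 1) ndB4q3 ndB6q3 pcB1 Cut.none Ext.none)

def k0_pm_313 : ∃ t, chk3 f_pm_313 t 1 1 1 = true :=
  ⟨(a (l 1) (b (b (b (l 3) (l 1)) (l 1)) (l 1))), by decide +kernel⟩

theorem c_pm_313 : CertB 0 1230186008 0 1230186008 536870912 50465866 3 eng mog cd4q3 cd6q3 pd1 false true false .dn 3 1 3
    ndB4q3 ndB6q3 pcB1 Cut.none Ext.none :=
  certB0 (fam := false) (s1 := true) (s2 := false) (a := 3) (b := 1) (c := 3) (cn := .dn) (n1 := ndB4q3) (n2 := ndB6q3) (pc := pcB1) (cut := Cut.none) (xt := Ext.none) (P1 := 0) (W1 := 1230186008) (P2 := 0) (W2 := 1230186008) (P3 := 536870912) (W3 := 50465866) (N0 := 3) (En := eng) (mo := mog) (C1 := cd4q3) (C2 := cd6q3) (C3 := pd1)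
    rfl k0_pm_313

noncomputable def f_mm_001 : ℕ → ℕ → ℕ → ℕ → Bool := onCell 0 536870912 536870912 536870912 536870912 50465866
    (rowB 3 eng mog cd4q0 cd6q1 pd0 0 false false false .up 0 0 1 (qsf 0 536870912 536870912 536870912 0) ndB4q0 ndB6q1 pcB0 Cut.none Ext.none)

def k0_mm_001 : ∃ t, chk3 f_mm_001 t 1 1 1 = true :=
  ⟨(l 3), by decide +kernel⟩

theorem c_mm_001 : CertB 0 536870912 536870912 536870912 536870912 50465866 3 eng mog cd4q0 cd6q1 pd0 false false false .up 0 0 1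
    ndB4q0 ndB6q1 pcB0 Cut.none Ext.none :=
  certB0 (fam := false) (s1 := false) (s2 := false) (a := 0) (b := 0) (c := 1) (cn := .up) (n1 := ndB4q0) (n2 := ndB6q1) (pc := pcB0) (cut := Cut.none) (xt := Ext.none) (P1 := 0) (W1 := 536870912) (P2 := 536870912) (W2 := 536870912) (P3 := 536870912) (W3 := 50465866) (N0 := 3) (En := eng) (mo := mog) (C1 := cd4q0) (C2 := cd6q1) (C3 := pd0)
    rfl k0_mm_001

noncomputable def f_mm_011 : ℕ → ℕ → ℕ → ℕ → Bool := onCell 0 536870912 536870912 536870912 536870912 50465866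
    (rowB 3 eng mog cd4q0 cd6q1 pd1 0 false false false .pnn 0 1 1 (qsf 0 536870912 536870912 536870912 1) ndB4q0 ndB6q1 pcB1 Cut.none Ext.none)

def k0_mm_011 : ∃ t, chk3 f_mm_011 t 1 1 1 = true :=
  ⟨(l 3), by decide +kernel⟩

theorem c_mm_011 : CertB 0 536870912 536870912 536870912 536870912 50465866 3 eng mog cd4q0 cd6q1 pd1 false false false .pnn 0 1 1
    ndB4q0 ndB6q1 pcB1 Cut.none Ext.none :=
  certB0 (fam := false) (s1 := false) (s2 := false) (a := 0) (b := 1) (c := 1) (cn := .pnn) (n1 := ndB4q0) (n2 := ndB6q1) (pc := pcB1) (cut := Cut.none) (xt := Ext.none) (P1 := 0) (W1 := 536870912) (P2 := 536870912) (W2 := 536870912) (P3 := 536870912) (W3 := 50465866) (N0 := 3) (En := eng) (mo := mog) (C1 := cd4q0) (C2 := cd6q1) (C3 := pd1)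
    rfl k0_mm_011

noncomputable def f_mm_012 : ℕ → ℕ → ℕ → ℕ → Bool := onCell 0 536870912 1073741824 536870912 536870912 50465866
    (rowB 3 eng mog cd4q0 cd6q2 pd1 0 false false false .pnp 0 1 2 (qsf 0 536870912 1073741824 536870912 1) ndB4q0 ndB6q2 pcB1 Cut.none Ext.none)

def k0_mm_012 : ∃ t, chk3 f_mm_012 t 1 1 1 = true :=
  ⟨(l 5), by decide +kernel⟩

theorem c_mm_012 : CertB 0 536870912 1073741824 536870912 536870912 50465866 3 eng mog cd4q0 cd6q2 pd1 false false false .pnp 0 1 2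
    ndB4q0 ndB6q2 pcB1 Cut.none Ext.none :=
  certB0 (fam := false) (s1 := false) (s2 := false) (a := 0) (b := 1) (c := 2) (cn := .pnp) (n1 := ndB4q0) (n2 := ndB6q2) (pc := pcB1) (cut := Cut.none) (xt := Ext.none) (P1 := 0) (W1 := 536870912) (P2 := 1073741824) (W2 := 536870912) (P3 := 536870912) (W3 := 50465866) (N0 := 3) (En := eng) (mo := mog) (C1 := cd4q0) (C2 := cd6q2) (C3 := pd1)
    rfl k0_mm_012

noncomputable def f_mm_022 : ℕ → ℕ → ℕ → ℕ → Bool := onCell 0 536870912 1073741824 536870912 536870912 50465866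
    (rowB 3 eng mog cd4q0 cd6q2 pd2 0 false false false .pp 0 2 2 (qsf 0 536870912 1073741824 536870912 2) ndB4q0 ndB6q2 pcB2 Cut.none Ext.none)

def k0_mm_022 : ∃ t, chk3 f_mm_022 t 1 1 1 = true :=
  ⟨(l 5), by decide +kernel⟩

theorem c_mm_022 : CertB 0 536870912 1073741824 536870912 536870912 50465866 3 eng mog cd4q0 cd6q2 pd2 false false false .pp 0 2 2
    ndB4q0 ndB6q2 pcB2 Cut.none Ext.none :=
  certB0 (fam := false) (s1 := false) (s2 := false) (a := 0) (b := 2) (c := 2) (cn := .pp) (n1 := ndB4q0) (n2 := ndB6q2) (pc := pcB2) (cut := Cut.none) (xt := Ext.none) (P1 := 0) (W1 := 536870912) (P2 := 1073741824) (W2 := 536870912) (P3 := 536870912) (W3 := 50465866) (N0 := 3) (En := eng) (mo := mog) (C1 := cd4q0) (C2 := cd6q2) (C3 := pd2)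
    rfl k0_mm_022

noncomputable def f_mm_023 : ℕ → ℕ → ℕ → ℕ → Bool := onCell 0 536870912 0 1230186008 536870912 50465866
    (rowB 3 eng mog cd4q0 cd6q3 pd2 0 false false false .up 0 2 3 (qsf 0 536870912 0 1230186008 2) ndB4q0 ndB6q3 pcB2 Cut.none Ext.none)

def k0_mm_023 : ∃ t, chk3 f_mm_023 t 1 1 1 = true :=
  ⟨(l 5), by decide +kernel⟩

theorem c_mm_023 : CertB 0 536870912 0 1230186008 536870912 50465866 3 eng mog cd4q0 cd6q3 pd2 false false false .up 0 2 3
    ndB4q0 ndB6q3 pcB2 Cut.none Ext.none :=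
  certB0 (fam := false) (s1 := false) (s2 := false) (a := 0) (b := 2) (c := 3) (cn := .up) (n1 := ndB4q0) (n2 := ndB6q3) (pc := pcB2) (cut := Cut.none) (xt := Ext.none) (P1 := 0) (W1 := 536870912) (P2 := 0) (W2 := 1230186008) (P3 := 536870912) (W3 := 50465866) (N0 := 3) (En := eng) (mo := mog) (C1 := cd4q0) (C2 := cd6q3) (C3 := pd2)
    rfl k0_mm_023

noncomputable def f_mm_033 : ℕ → ℕ → ℕ → ℕ → Bool := onCell 0 536870912 0 1230186008 536870912 50465866
    (rowB 3 eng mog cd4q0 cd6q3 pd3 0 false false false .pnn 0 3 3 (qsf 0 536870912 0 1230186008 3) ndB4q0 ndB6q3 pcB3 Cut.none Ext.none)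

def k0_mm_033 : ∃ t, chk3 f_mm_033 t 1 1 1 = true :=
  ⟨(l 5), by decide +kernel⟩

theorem c_mm_033 : CertB 0 536870912 0 1230186008 536870912 50465866 3 eng mog cd4q0 cd6q3 pd3 false false false .pnn 0 3 3
    ndB4q0 ndB6q3 pcB3 Cut.none Ext.none :=
  certB0 (fam := false) (s1 := false) (s2 := false) (a := 0) (b := 3) (c := 3) (cn := .pnn) (n1 := ndB4q0) (n2 := ndB6q3) (pc := pcB3) (cut := Cut.none) (xt := Ext.none) (P1 := 0) (W1 := 536870912) (P2 := 0) (W2 := 1230186008) (P3 := 536870912) (W3 := 50465866) (N0 := 3) (En := eng) (mo := mog) (C1 := cd4q0) (C2 := cd6q3) (C3 := pd3)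
    rfl k0_mm_033

noncomputable def f_mm_101 : ℕ → ℕ → ℕ → ℕ → Bool := onCell 536870912 536870912 536870912 536870912 536870912 50465866
    (rowB 3 eng mog cd4q1 cd6q1 pd0 0 false false false .npn 1 0 1 (qsf 536870912 536870912 536870912 536870912 0) ndB4q1 ndB6q1 pcB0 Cut.none Ext.none)

def k0_mm_101 : ∃ t, chk3 f_mm_101 t 1 1 1 = true :=
  ⟨(l 3), by decide +kernel⟩

theorem c_mm_101 : CertB 536870912 536870912 536870912 536870912 536870912 50465866 3 eng mog cd4q1 cd6q1 pd0 false false false .npn 1 0 1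
    ndB4q1 ndB6q1 pcB0 Cut.none Ext.none :=
  certB0 (fam := false) (s1 := false) (s2 := false) (a := 1) (b := 0) (c := 1) (cn := .npn) (n1 := ndB4q1) (n2 := ndB6q1) (pc := pcB0) (cut := Cut.none) (xt := Ext.none) (P1 := 536870912) (W1 := 536870912) (P2 := 536870912) (W2 := 536870912) (P3 := 536870912) (W3 := 50465866) (N0 := 3) (En := eng) (mo := mog) (C1 := cd4q1) (C2 := cd6q1) (C3 := pd0)
    rfl k0_mm_101

noncomputable def f_mm_102 : ℕ → ℕ → ℕ → ℕ → Bool := onCell 536870912 536870912 1073741824 536870912 536870912 50465866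
    (rowB 3 eng mog cd4q1 cd6q2 pd0 0 false false false .npp 1 0 2 (qsf 536870912 536870912 1073741824 536870912 0) ndB4q1 ndB6q2 pcB0 Cut.none Ext.none)

def k0_mm_102 : ∃ t, chk3 f_mm_102 t 1 1 1 = true :=
  ⟨(l 3), by decide +kernel⟩

theorem c_mm_102 : CertB 536870912 536870912 1073741824 536870912 536870912 50465866 3 eng mog cd4q1 cd6q2 pd0 false false false .npp 1 0 2
    ndB4q1 ndB6q2 pcB0 Cut.none Ext.none :=
  certB0 (fam := false) (s1 := false) (s2 := false) (a := 1) (b := 0) (c := 2) (cn := .npp) (n1 := ndB4q1) (n2 := ndB6q2) (pc := pcB0) (cut := Cut.none) (xt := Ext.none) (P1 := 536870912) (W1 := 536870912) (P2 := 1073741824) (W2 := 536870912) (P3 := 536870912) (W3 := 50465866) (N0 := 3) (En := eng) (mo := mog) (C1 := cd4q1) (C2 := cd6q2) (C3 := pd0)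
    rfl k0_mm_102

noncomputable def f_mm_112 : ℕ → ℕ → ℕ → ℕ → Bool := onCell 536870912 536870912 1073741824 536870912 536870912 50465866
    (rowB 3 eng mog cd4q1 cd6q2 pd1 0 false false false .dn 1 1 2 (qsf 536870912 536870912 1073741824 536870912 1) ndB4q1 ndB6q2 pcB1 Cut.none Ext.none)

def k0_mm_112 : ∃ t, chk3 f_mm_112 t 1 1 1 = true :=
  ⟨(l 3), by decide +kernel⟩

theorem c_mm_112 : CertB 536870912 536870912 1073741824 536870912 536870912 50465866 3 eng mog cd4q1 cd6q2 pd1 false false false .dn 1 1 2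
    ndB4q1 ndB6q2 pcB1 Cut.none Ext.none :=
  certB0 (fam := false) (s1 := false) (s2 := false) (a := 1) (b := 1) (c := 2) (cn := .dn) (n1 := ndB4q1) (n2 := ndB6q2) (pc := pcB1) (cut := Cut.none) (xt := Ext.none) (P1 := 536870912) (W1 := 536870912) (P2 := 1073741824) (W2 := 536870912) (P3 := 536870912) (W3 := 50465866) (N0 := 3) (En := eng) (mo := mog) (C1 := cd4q1) (C2 := cd6q2) (C3 := pd1)
    rfl k0_mm_112

noncomputable def f_mm_113 : ℕ → ℕ → ℕ → ℕ → Bool := onCell 536870912 536870912 0 1230186008 536870912 50465866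
    (rowB 3 eng mog cd4q1 cd6q3 pd1 0 false false false .nn 1 1 3 (qsf 536870912 536870912 0 1230186008 1) ndB4q1 ndB6q3 pcB1 Cut.none Ext.none)

def k0_mm_113 : ∃ t, chk3 f_mm_113 t 1 1 1 = true :=
  ⟨(l 5), by decide +kernel⟩

theorem c_mm_113 : CertB 536870912 536870912 0 1230186008 536870912 50465866 3 eng mog cd4q1 cd6q3 pd1 false false false .nn 1 1 3
    ndB4q1 ndB6q3 pcB1 Cut.none Ext.none :=
  certB0 (fam := false) (s1 := false) (s2 := false) (a := 1) (b := 1) (c := 3) (cn := .nn) (n1 := ndB4q1) (n2 := ndB6q3) (pc := pcB1) (cut := Cut.none) (xt := Ext.none) (P1 := 536870912) (W1 := 536870912) (P2 := 0) (W2 := 1230186008) (P3 := 536870912) (W3 := 50465866) (N0 := 3) (En := eng) (mo := mog) (C1 := cd4q1) (C2 := cd6q3) (C3 := pd1)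
    rfl k0_mm_113

noncomputable def f_mm_123 : ℕ → ℕ → ℕ → ℕ → Bool := onCell 536870912 536870912 0 1230186008 536870912 50465866
    (rowB 3 eng mog cd4q1 cd6q3 pd2 0 false false false .npn 1 2 3 (qsf 536870912 536870912 0 1230186008 2) ndB4q1 ndB6q3 pcB2 Cut.none Ext.none)

def k0_mm_123 : ∃ t, chk3 f_mm_123 t 1 1 1 = true :=
  ⟨(l 5), by decide +kernel⟩

theorem c_mm_123 : CertB 536870912 536870912 0 1230186008 536870912 50465866 3 eng mog cd4q1 cd6q3 pd2 false false false .npn 1 2 3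
    ndB4q1 ndB6q3 pcB2 Cut.none Ext.none :=
  certB0 (fam := false) (s1 := false) (s2 := false) (a := 1) (b := 2) (c := 3) (cn := .npn) (n1 := ndB4q1) (n2 := ndB6q3) (pc := pcB2) (cut := Cut.none) (xt := Ext.none) (P1 := 536870912) (W1 := 536870912) (P2 := 0) (W2 := 1230186008) (P3 := 536870912) (W3 := 50465866) (N0 := 3) (En := eng) (mo := mog) (C1 := cd4q1) (C2 := cd6q3) (C3 := pd2)
    rfl k0_mm_123

noncomputable def f_mm_133 : ℕ → ℕ → ℕ → ℕ → Bool := onCell 536870912 536870912 0 1230186008 536870912 50465866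
    (rowB 3 eng mog cd4q1 cd6q3 pd3 0 false false false .dn 1 3 3 (qsf 536870912 536870912 0 1230186008 3) ndB4q1 ndB6q3 pcB3 Cut.none Ext.none)

def k0_mm_133 : ∃ t, chk3 f_mm_133 t 1 1 1 = true :=
  ⟨(l 5), by decide +kernel⟩

theorem c_mm_133 : CertB 536870912 536870912 0 1230186008 536870912 50465866 3 eng mog cd4q1 cd6q3 pd3 false false false .dn 1 3 3
    ndB4q1 ndB6q3 pcB3 Cut.none Ext.none :=
  certB0 (fam := false) (s1 := false) (s2 := false) (a := 1) (b := 3) (c := 3) (cn := .dn) (n1 := ndB4q1) (n2 := ndB6q3) (pc := pcB3) (cut := Cut.none) (xt := Ext.none) (P1 := 536870912) (W1 := 536870912) (P2 := 0) (W2 := 1230186008) (P3 := 536870912) (W3 := 50465866) (N0 := 3) (En := eng) (mo := mog) (C1 := cd4q1) (C2 := cd6q3) (C3 := pd3)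
    rfl k0_mm_133

noncomputable def f_mm_202 : ℕ → ℕ → ℕ → ℕ → Bool := onCell 0 536870912 1073741824 536870912 536870912 50465866
    (rowB 3 eng mog cd4q2 cd6q2 pd0 2 false false false .pp 2 0 2 (qsf 1073741824 536870912 1073741824 536870912 0) ndB4q2 ndB6q2 pcB0 Cut.none Ext.none)

def k0_mm_202 : ∃ t, chk3 f_mm_202 t 1 1 1 = true :=
  ⟨(l 3), by decide +kernel⟩

theorem c_mm_202 : CertB 1073741824 536870912 1073741824 536870912 536870912 50465866 3 eng mog cd4q2 cd6q2 pd0 false false false .pp 2 0 2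
    ndB4q2 ndB6q2 pcB0 Cut.none Ext.none :=
  certB2 (fam := false) (s1 := false) (s2 := false) (a := 2) (b := 0) (c := 2) (cn := .pp) (n1 := ndB4q2) (n2 := ndB6q2) (pc := pcB0) (cut := Cut.none) (xt := Ext.none) (P1 := 1073741824) (W1 := 536870912) (P2 := 1073741824) (W2 := 536870912) (P3 := 536870912) (W3 := 50465866) (N0 := 3) (En := eng) (mo := mog) (C1 := cd4q2) (C2 := cd6q2) (C3 := pd0)
    rfl (fun _ => rfl) k0_mm_202

noncomputable def f_mm_203 : ℕ → ℕ → ℕ → ℕ → Bool := onCell 1073741824 536870912 0 1230186008 536870912 50465866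
    (rowB 3 eng mog cd4q2 cd6q3 pd0 0 false false false .up 2 0 3 (qsf 1073741824 536870912 0 1230186008 0) ndB4q2 ndB6q3 pcB0 Cut.none Ext.none)

def k0_mm_203 : ∃ t, chk3 f_mm_203 t 1 1 1 = true :=
  ⟨(b (l 5) (l 3)), by decide +kernel⟩

theorem c_mm_203 : CertB 1073741824 536870912 0 1230186008 536870912 50465866 3 eng mog cd4q2 cd6q3 pd0 false false false .up 2 0 3
    ndB4q2 ndB6q3 pcB0 Cut.none Ext.none :=
  certB0 (fam := false) (s1 := false) (s2 := false) (a := 2) (b := 0) (c := 3) (cn := .up) (n1 := ndB4q2) (n2 := ndB6q3) (pc := pcB0) (cut := Cut.none) (xt := Ext.none) (P1 := 1073741824) (W1 := 536870912) (P2 := 0) (W2 := 1230186008) (P3 := 536870912) (W3 := 50465866) (N0 := 3) (En := eng) (mo := mog) (C1 := cd4q2) (C2 := cd6q3) (C3 := pd0)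
    rfl k0_mm_203

noncomputable def f_mm_213 : ℕ → ℕ → ℕ → ℕ → Bool := onCell 1073741824 536870912 0 1230186008 536870912 50465866
    (rowB 3 eng mog cd4q2 cd6q3 pd1 0 false false false .pnn 2 1 3 (qsf 1073741824 536870912 0 1230186008 1) ndB4q2 ndB6q3 pcB1 Cut.none Ext.none)

def k0_mm_213 : ∃ t, chk3 f_mm_213 t 1 1 1 = true :=
  ⟨(b (l 5) (l 3)), by decide +kernel⟩

theorem c_mm_213 : CertB 1073741824 536870912 0 1230186008 536870912 50465866 3 eng mog cd4q2 cd6q3 pd1 false false false .pnn 2 1 3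
    ndB4q2 ndB6q3 pcB1 Cut.none Ext.none :=
  certB0 (fam := false) (s1 := false) (s2 := false) (a := 2) (b := 1) (c := 3) (cn := .pnn) (n1 := ndB4q2) (n2 := ndB6q3) (pc := pcB1) (cut := Cut.none) (xt := Ext.none) (P1 := 1073741824) (W1 := 536870912) (P2 := 0) (W2 := 1230186008) (P3 := 536870912) (W3 := 50465866) (N0 := 3) (En := eng) (mo := mog) (C1 := cd4q2) (C2 := cd6q3) (C3 := pd1)
    rfl k0_mm_213

noncomputable def f_mm_303 : ℕ → ℕ → ℕ → ℕ → Bool := onCell 0 1230186008 0 1230186008 536870912 50465866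
    (rowB 3 eng mog cd4q3 cd6q3 pd0 0 false false false .npn 3 0 3 (qsf 0 1230186008 0 1230186008 0) ndB4q3 ndB6q3 pcB0 Cut.none Ext.none)

def k0_mm_303 : ∃ t, chk3 f_mm_303 t 1 1 1 = true :=
  ⟨(a (b (l 3) (b (l 3) (l 1))) (b (l 3) (a (l 3) (l 3)))), by decide +kernel⟩

theorem c_mm_303 : CertB 0 1230186008 0 1230186008 536870912 50465866 3 eng mog cd4q3 cd6q3 pd0 false false false .npn 3 0 3
    ndB4q3 ndB6q3 pcB0 Cut.none Ext.none :=
  certB0 (fam := false) (s1 := false) (s2 := false) (a := 3) (b := 0) (c := 3) (cn := .npn) (n1 := ndB4q3) (n2 := ndB6q3) (pc := pcB0) (cut := Cut.none) (xt := Ext.none) (P1 := 0) (W1 := 1230186008) (P2 := 0) (W2 := 1230186008) (P3 := 536870912) (W3 := 50465866) (N0 := 3) (En := eng) (mo := mog) (C1 := cd4q3) (C2 := cd6q3) (C3 := pd0)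
    rfl k0_mm_303

noncomputable def f_mm_313 : ℕ → ℕ → ℕ → ℕ → Bool := onCell 0 1230186008 0 1230186008 536870912 50465866
    (rowB 3 eng mog cd4q3 cd6q3 pd1 0 false false false .dn 3 1 3 (qsf 0 1230186008 0 1230186008 1) ndB4q3 ndB6q3 pcB1 Cut.none Ext.none)

def k0_mm_313 : ∃ t, chk3 f_mm_313 t 1 1 1 = true :=
  ⟨(a (l 1) (b (l 3) (l 1))), by decide +kernel⟩

theorem c_mm_313 : CertB 0 1230186008 0 1230186008 536870912 50465866 3 eng mog cd4q3 cd6q3 pd1 false false false .dn 3 1 3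
    ndB4q3 ndB6q3 pcB1 Cut.none Ext.none :=
  certB0 (fam := false) (s1 := false) (s2 := false) (a := 3) (b := 1) (c := 3) (cn := .dn) (n1 := ndB4q3) (n2 := ndB6q3) (pc := pcB1) (cut := Cut.none) (xt := Ext.none) (P1 := 0) (W1 := 1230186008) (P2 := 0) (W2 := 1230186008) (P3 := 536870912) (W3 := 50465866) (N0 := 3) (En := eng) (mo := mog) (C1 := cd4q3) (C2 := cd6q3) (C3 := pd1)
    rfl k0_mm_313

end Pool.Agent.Strip051.G.I5000_5470.Tab.C.BB46

namespace Pool.Agent.Strip051.G.I5000_5470.Tab.C.BB50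

open Pool.Agent.Strip051.PB Pool.Agent.Strip051.PB.T
open Pool.Agent.Strip051.G.I5000_5470.Tab

noncomputable def f_pp_001 : ℕ → ℕ → ℕ → ℕ → Bool := onCell 0 536870912 536870912 536870912 536870912 50465866
    (rowB 3 eng mog cd5q0 cd0q1 pd0 2 false true true .up 0 0 1 (qsf 0 536870912 536870912 536870912 0) ndB5q0 ndB0q1 pcB0 Cut.none Ext.none)

def k0_pp_001 : ∃ t, chk3 f_pp_001 t 1 1 1 = true :=
  ⟨(a (b (l 3) (b (l 3) (l 2))) (b (l 3) (a (b (l 3) (b (a (l 2) (b (a (l 2) (b (b (b (l 3) (l 2)) (l 2)) (l 2))) (l 2))) (l 2))) (b (b (l 3) (a (b (l 3) (a (b (l 3) (b (l 3) (a (l 170892544887) (l 120963623799)))) (b (a (l 3) (l 178408781623)) (a (b (a (l 151028352663) (l 121500430775)) (a (l 16679944) (l 16675384))) (b (l 116668586999) (l 16660168)))))) (a (b (l 3) (b (a (l 124721680871) (l 121500470855)) (a (l 16662760) (l 16662304)))) (b (b (l 3) (a (l 192367495255) (l 140291003751))) (b (a (l 16686520) (l 16714448)) (l 16670824)))))) (b (a (b (a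 (b (a (b (a (l 101099370119) (l 16665672)) (l 16644552)) (l 16705304)) (a (l 16629880) (l 16587640))) (b (a (l 16631320) (l 16619792)) (l 16563480))) (a (b (l 90831576183) (l 2)) (b (l 16525112) (l 16450392)))) (b (a (b (l 16614000) (l 16557280)) (b (l 16628728) (l 16581024))) (a (b (l 16488120) (l 16411696)) (l 16485608)))) (b (a (l 89757777559) (l 16429440)) (a (l 2) (l 16371008)))))))), by decide +kernel⟩

theorem c_pp_001 : CertB 0 536870912 536870912 536870912 536870912 50465866 3 eng mog cd5q0 cd0q1 pd0 false true true .up 0 0 1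
    ndB5q0 ndB0q1 pcB0 Cut.none Ext.none :=
  certB2 (fam := false) (s1 := true) (s2 := true) (a := 0) (b := 0) (c := 1) (cn := .up) (n1 := ndB5q0) (n2 := ndB0q1) (pc := pcB0) (cut := Cut.none) (xt := Ext.none) (P1 := 0) (W1 := 536870912) (P2 := 536870912) (W2 := 536870912) (P3 := 536870912) (W3 := 50465866) (N0 := 3) (En := eng) (mo := mog) (C1 := cd5q0) (C2 := cd0q1) (C3 := pd0)
    rfl (fun _ => rfl) k0_pp_001

noncomputable def f_pp_011 : ℕ → ℕ → ℕ → ℕ → Bool := onCell 0 536870912 536870912 536870912 536870912 50465866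
    (rowB 3 eng mog cd5q0 cd0q1 pd1 0 false true true .pnn 0 1 1 (qsf 0 536870912 536870912 536870912 1) ndB5q0 ndB0q1 pcB1 Cut.none Ext.none)

def k0_pp_011 : ∃ t, chk3 f_pp_011 t 2 2 1 = true :=
  ⟨(a (b (l 3) (b (l 3) (l 3))) (l 3)), by decide +kernel⟩

def k1_pp_011 : ∃ t, chk3 f_pp_011 t 4 6 1 = true :=
  ⟨(b (a (b (b (b (a (a (l 16841504) (l 3)) (l 3)) (a (a (l 16833096) (l 16832320)) (a (l 78014180663) (l 130090673847)))) (a (a (l 16820768) (l 16819600)) (a (l 16819000) (b (l 16823832) (l 16814656))))) (a (b (l 16805152) (l 16791520)) (b (a (l 16803160) (l 16802200)) (l 16788376)))) (b (b (l 3) (b (a (a (a (l 16824776) (l 16846512)) (l 146196865607)) (l 3)) (a (a (l 16815464) (a (l 16816888) (l 16818160))) (a (a (l 16819624) (l 85530424439)) (l 162302880439))))) (a (b (a (l 16801784) (b (l 16807208) (l 16797760))) (a (l 16786200) (l 16785192))) (b (a (b (l 16809816) (l 16799272)) (b (a (l 16812536) (l 16856544)) (l 16802320))) (a (b (l 16789560)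 (l 16780672)) (b (l 16791720) (l 16781600))))))) (b (a (b (a (l 16778736) (l 16796104)) (a (l 16766240) (l 16762416))) (b (a (a (l 16772192) (l 16770424)) (a (l 16768736) (b (l 16772184) (l 16763496)))) (a (l 16778968) (b (a (l 16757688) (l 16755496)) (l 16812328))))) (a (a (b (l 16754448) (l 16743240)) (b (l 16750112) (l 16738272))) (a (b (l 16744528) (l 16731616)) (b (l 16738248) (l 16744768)))))), by decide +kernel⟩

def k2_pp_011 : ∃ t, chk3 f_pp_011 t 5 6 1 = true :=
  ⟨(b (a (b (l 3) (a (b (b (a (b (l 162302894775) (a (l 16814096) (l 71571751287))) (a (a (l 105931449111) (l 180556486919)) (l 3))) (a (c (l 16818760) (l 16794408)) (a (c (l 16821528) (l 16798864)) (b (a (l 65129290375) (l 79624803879)) (l 16808960))))) (a (b (l 16795056) (l 16784264)) (b (c (l 16853768) (l 16786656)) (l 16808608)))) (b (b (l 3) (a (a (b (l 97878420887) (l 16809640)) (a (l 89825362519) (l 97878424455))) (l 113447605847))) (a (b (c (l 16812488) (l 16789392)) (l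 16789016)) (b (a (l 16801864) (l 16802640)) (l 16790136)))))) (b (l 3) (b (l 3) (a (a (b (b (l 105394617735) (l 16801224)) (l 16791848)) (b (l 111300201511) (l 16815592))) (b (l 3) (a (l 16798168) (l 166061023975))))))) (a (b (a (b (a (b (l 16773896) (l 16763800)) (c (l 16829792) (l 16754808))) (a (b (l 16754320) (a (l 16746120) (l 16744968))) (b (l 16755312) (c (l 16807744) (l 16724176))))) (b (a (l 16834808) (l 16793424)) (a (l 16749832) (l 16749624)))) (a (b (a (l 16733456) (a (l 16752192) (b (l 16734784) (l 16725080)))) (a (l 16717592) (c (l 16739984) (l 16686944)))) (b (a (b (l 16775544) (l 16722576)) (a (b (l 16795584) (l 16721160)) (b (l 16732296) (l 16720536)))) (a (b (l 16733328) (l 16702760)) (c (l 16728648) (l 16678504)))))) (a (b (b (a (l 16773592) (l 16775376)) (a (l 16749888) (l 16750752))) (b (b (l 16732096) (a (l 16720272) (l 16719848))) (a (b (a (l 16707568) (l 16707064)) (a (l 16695176) (l 16693920))) (l 16699992)))) (b (b (a (l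 16820520) (l 49023195191)) (a (l 16752328) (l 16755528))) (b (a (l 16726448) (l 16728128)) (b (l 16707440) (l 16693032))))))), by decide +kernel⟩

def k3_pp_011 : ∃ t, chk3 f_pp_011 t 4 7 1 = true :=
  ⟨(b (a (b (a (b (l 16732576) (l 16722432)) (b (l 16726840) (l 16715776))) (a (b (l 16712912) (a (l 16705208) (l 16702056))) (b (l 16705056) (l 16694496)))) (b (a (b (l 16718864) (a (l 16708760) (l 16703408))) (b (c (l 16740688) (l 16678296)) (c (l 16729056) (l 16660424)))) (a (b (a (l 16696584) (l 16690056)) (l 16701320)) (b (c (l 16716880) (l 16642144)) (a (l 16667680) (l 16658672)))))) (a (c (b (b (a (l 16740256) (l 16728032)) (a (l 16734424) (l 16718680))) (b (a (b (l 16729160) (a (l 16728896) (l 16720560))) (l 16706336)) (a (b (a (b (l 16726320) (a (l 16726256) (l 16721984))) (l 16714624)) (a (b (a (l 16662840) (l 16719064)) (l 16716320)) (l 16704144))) (b (l 16692312) (l 16676352))))) (b (b (a (a (l 16651936) (l 16648288)) (l 16639344)) (a (a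 (l 16641320) (l 16636400)) (b (l 16628696) (l 16620712)))) (b (a (a (b (l 16632984) (l 16627624)) (l 16623216)) (l 16606960)) (a (b (a (a (b (l 16624320) (l 16621664)) (l 16619296)) (l 16610832)) (a (b (a (b (l 16619400) (a (l 16618704) (l 16616568))) (l 16613168)) (a (b (b (l 16595160) (l 16614608)) (l 16612296)) (l 16606488))) (l 16597336))) (b (l 16588560) (l 16572160)))))) (b (b (a (l 16666344) (a (l 16650904) (l 16639912))) (a (b (l 16654520) (l 16645496)) (b (l 16630344) (l 16618808)))) (b (a (l 16628848) (l 16597632)) (a (l 16595800) (l 16569080)))))), by decide +kernel⟩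

def k4_pp_011 : ∃ t, chk3 f_pp_011 t 5 7 1 = true :=
  ⟨(b (a (b (a (b (c (a (l 16732072) (l 16726000)) (l 16669000)) (c (a (l 16718728) (l 16732400)) (l 16648688))) (b (a (l 16730832) (c (l 16731472) (l 16653240))) (c (a (l 16702552) (l 16693056)) (l 16633408)))) (a (b (c (a (l 16704584) (l 16695896)) (l 16627632)) (a (l 16649304) (c (l 16678800) (l 16600632)))) (a (b (l 16691712) (l 16627984)) (b (l 16639224) (l 16615744))))) (b (a (a (b (l 16675832) (l 16672960)) (b (b (l 16700032) (l 16665056)) (l 16644560))) (a (b (l 16670560) (a (l 16640232) (l 16638328))) (b (l 16670472) (l 16637160)))) (b (a (b (l 16629432) (l 16616720)) (a (l 16608480) (l 16664616))) (a (l 16596816) (l 16572120))))) (b (a (a (b (a (l 16628616) (l 16637896)) (b (l 16604184) (a (l 16597272) (l 16582656)))) (b (l 16701296) (l 16566456))) (a (b (l 16567400) (l 16532936)) (b (l 16537600) (l 16498472)))) (a (a (b (a (l 16573080) (l 16640400)) (l 16570624)) (b (b (l 16539288)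 (l 16517368)) (l 16531488))) (b (a (l 16490384) (l 16450776)) (l 16526104))))), by decide +kernel⟩

def k5_pp_011 : ∃ t, chk3 f_pp_011 t 3 1 1 = true :=
  ⟨(b (l 3) (b (a (b (a (l 3) (l 3)) (a (b (a (b (b (a (l 119890126167) (l 177872189127)) (a (l 16782336) (l 16789976))) (a (l 16760560) (l 16767136))) (b (b (l 3) (a (l 123111385463) (l 147807322919))) (a (l 16775560) (b (l 105931489943) (l 16769776))))) (b (a (l 16733912) (a (l 16743776) (l 16745112))) (a (b (l 16710760) (l 16696064)) (a (l 16710656) (l 16711680))))) (b (b (l 3) (a (a (b (l 121500702727) (l 16757568)) (b (l 132774966199) (l 16768184))) (a (l 309808012311) (l 1)))) (a (b (a (l 16732248) (l 16720264)) (l 16692560)) (b (a (l 206728829463) (l 271690102871)) (a (l 16673832) (l 16662936))))))) (b (l 1) (a (b (l 1) (b (l 1) (a (l 247530860551) (l 1)))) (l 1)))) (a (b (a (a (b (a (l 16654448) (l 16655712)) (a (b (l 16598832) (l 16557728)) (l 16640224))) (b (a (l 16658680) (l 16700160))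 (a (l 16578296) (l 16574776)))) (b (b (a (l 16657880) (l 16630736)) (b (l 16615592) (l 16594920))) (a (l 16552632) (l 16523496)))) (a (b (a (b (a (l 16516256) (l 16505736)) (l 16464256)) (b (l 16499800) (l 16439248))) (b (a (l 16432000) (a (l 16419680) (l 16413832))) (l 16576480))) (b (a (l 16442152) (l 16408592)) (b (l 16402176) (a (b (l 16448296) (l 16470576)) (l 16442376)))))) (b (a (b (b (a (l 177200837911) (l 1)) (a (l 16565024) (l 348462312295))) (a (l 16494424) (l 16443568))) (b (l 1) (b (l 1) (l 480532355319)))) (b (a (l 16339376) (l 360273255447)) (a (l 16645728) (l 16518512))))))), by decide +kernel⟩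

theorem s6_pp_011 : ∃ t, chk3 f_pp_011 t 2 7 1 = true := ex3_a k3_pp_011 k4_pp_011

theorem s7_pp_011 : ∃ t, chk3 f_pp_011 t 2 6 1 = true := ex3_a k1_pp_011 k2_pp_011

theorem s8_pp_011 : ∃ t, chk3 f_pp_011 t 2 3 1 = true := ex3_b s7_pp_011 s6_pp_011

theorem s9_pp_011 : ∃ t, chk3 f_pp_011 t 2 1 1 = true := ex3_b k0_pp_011 s8_pp_011

theorem s10_pp_011 : ∃ t, chk3 f_pp_011 t 1 1 1 = true := ex3_a s9_pp_011 k5_pp_011

theorem c_pp_011 : CertB 0 536870912 536870912 536870912 536870912 50465866 3 eng mog cd5q0 cd0q1 pd1 false true true .pnn 0 1 1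
    ndB5q0 ndB0q1 pcB1 Cut.none Ext.none :=
  certB0 (fam := false) (s1 := true) (s2 := true) (a := 0) (b := 1) (c := 1) (cn := .pnn) (n1 := ndB5q0) (n2 := ndB0q1) (pc := pcB1) (cut := Cut.none) (xt := Ext.none) (P1 := 0) (W1 := 536870912) (P2 := 536870912) (W2 := 536870912) (P3 := 536870912) (W3 := 50465866) (N0 := 3) (En := eng) (mo := mog) (C1 := cd5q0) (C2 := cd0q1) (C3 := pd1)
    rfl s10_pp_011

noncomputable def f_pp_012 : ℕ → ℕ → ℕ → ℕ → Bool := onCell 536870912 536870912 0 536870912 536870912 50465866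
    (rowB 3 eng mog cd5q0 cd0q2 pd1 2 false true true .pnp 0 1 2 (qsf 0 536870912 0 536870912 1) ndB5q0 ndB0q2 pcB1 Cut.none Ext.none)

def k0_pp_012 : ∃ t, chk3 f_pp_012 t 1 1 1 = true :=
  ⟨(a (a (b (b (l 2) (a (l 2) (l 16704000))) (b (a (l 2) (b (l 16667136) (l 16625208))) (b (a (l 16526088) (l 16565640)) (a (b (l 16472424) (l 16424688)) (b (l 16509496) (l 16460496)))))) (b (b (a (l 16719256) (l 16712416)) (a (l 16711328) (l 16714112))) (b (a (b (l 16687168) (l 16654504)) (b (l 16697984) (l 16672216))) (a (b (a (l 16595296) (l 16611392)) (a (l 16520808) (a (l 16536624) (l 16542376)))) (b (l 16627248) (a (l 16548000) (l 16559552))))))) (b (a (b (b (l 16685024) (l 16699296)) (a (l 16713776) (b (l 16703072) (l 16709824)))) (b (a (b (l 16648344) (l 16666600)) (b (l 16616096) (l 16633768))) (a (b (l 16684784) (l 16696536)) (b (l 16654392) (l 16669960))))) (b (a (b (a (l 16707808) (l 16710280)) (a (l 16689256) (l 16699552))) (a (b (l 16703336) (l 16702320))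 (b (a (l 16689504) (l 16673312)) (a (l 16695504) (l 16682736))))) (a (b (a (l 16650168) (l 16670824)) (a (b (l 16603736) (l 16558440)) (b (l 16633392) (a (l 16584568) (l 16602696))))) (b (a (b (l 16692832) (l 16680704)) (a (l 16691328) (b (l 16685200) (l 16684048)))) (a (b (l 16661824) (a (l 16621376) (l 16640136))) (b (a (l 16678064) (a (l 16681360) (l 16678464))) (a (b (l 16664480) (l 16649848)) (b (a (l 16673768) (l 16674144)) (a (l 16664200) (c (l 16725904) (b (l 16618600) (l 16617928))))))))))))), by decide +kernel⟩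

theorem c_pp_012 : CertB 0 536870912 0 536870912 536870912 50465866 3 eng mog cd5q0 cd0q2 pd1 false true true .pnp 0 1 2
    ndB5q0 ndB0q2 pcB1 Cut.none Ext.none :=
  certB2 (fam := false) (s1 := true) (s2 := true) (a := 0) (b := 1) (c := 2) (cn := .pnp) (n1 := ndB5q0) (n2 := ndB0q2) (pc := pcB1) (cut := Cut.none) (xt := Ext.none) (P1 := 0) (W1 := 536870912) (P2 := 0) (W2 := 536870912) (P3 := 536870912) (W3 := 50465866) (N0 := 3) (En := eng) (mo := mog) (C1 := cd5q0) (C2 := cd0q2) (C3 := pd1)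
    rfl (fun _ => rfl) k0_pp_012

noncomputable def f_pp_022 : ℕ → ℕ → ℕ → ℕ → Bool := onCell 1073741824 536870912 0 536870912 536870912 50465866
    (rowB 3 eng mog cd5q0 cd0q2 pd2 2 false true true .pp 0 2 2 (qsf 0 536870912 0 536870912 2) ndB5q0 ndB0q2 pcB2 Cut.none Ext.none)

def k0_pp_022 : ∃ t, chk3 f_pp_022 t 1 1 1 = true :=
  ⟨(a (b (a (b (a (b (l 16601016) (l 16611768)) (b (l 4) (l 16629616))) (a (b (l 16626016) (l 16637848)) (b (l 16636424) (l 16644456)))) (a (a (b (l 16652040) (l 815540609047)) (b (l 2086314205239) (l 1))) (l 1))) (a (b (b (a (a (l 16652368) (l 16646024)) (a (l 16648960) (l 16656496))) (a (b (a (l 16659144) (l 16651456)) (a (l 16661824) (l 16654248))) (a (b (l 16654832) (l 16657240)) (b (l 16659616) (l 1))))) (a (b (a (b (l 16662928) (a (l 16667528) (l 16660624))) (b (l 16657032) (a (l 16659832) (l 16659608)))) (a (b (a (b (l 16666752) (a (l 16668720) (l 16664704))) (b (l 16662256) (a (l 16663896) (l 16663424)))) (b (a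 (a (a (l 16669192) (l 16666712)) (b (l 16665360) (a (l 16666200) (l 16665880)))) (a (b (l 16664880) (l 1)) (l 1))) (b (a (a (c (l 16722040) (a (a (l 16613616) (l 16612544)) (b (l 16612016) (l 16611088)))) (c (l 16716240) (a (l 16588128) (l 1)))) (l 1)) (a (a (c (l 16720768) (a (a (b (l 16613568) (l 16613288)) (l 92374935319)) (a (l 90227457671) (l 1)))) (l 1)) (l 1))))) (b (a (b (l 16661728) (l 1)) (l 1)) (l 1)))) (b (a (b (l 16658128) (l 1)) (l 1)) (l 1)))) (b (l 1) (l 1)))) (l 1)), by decide +kernel⟩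

theorem c_pp_022 : CertB 0 536870912 0 536870912 536870912 50465866 3 eng mog cd5q0 cd0q2 pd2 false true true .pp 0 2 2
    ndB5q0 ndB0q2 pcB2 Cut.none Ext.none :=
  certB2 (fam := false) (s1 := true) (s2 := true) (a := 0) (b := 2) (c := 2) (cn := .pp) (n1 := ndB5q0) (n2 := ndB0q2) (pc := pcB2) (cut := Cut.none) (xt := Ext.none) (P1 := 0) (W1 := 536870912) (P2 := 0) (W2 := 536870912) (P3 := 536870912) (W3 := 50465866) (N0 := 3) (En := eng) (mo := mog) (C1 := cd5q0) (C2 := cd0q2) (C3 := pd2)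
    rfl (fun _ => rfl) k0_pp_022

noncomputable def cut_pp_101 : Cut := Cut.of [[⟨0, 1, 0, 67108864⟩, ⟨1, 0, 0, 67108864⟩, ⟨2, 1, 0, 67108864⟩]]

noncomputable def f_pp_101 : ℕ → ℕ → ℕ → ℕ → Bool := onCell 0 536870912 536870912 536870912 536870912 50465866
    (rowB 3 eng mog cd5q1 cd0q1 pd0 2 false true true .npn 1 0 1 (qsf 536870912 536870912 536870912 536870912 0) ndB5q1 ndB0q1 pcB0 cut_pp_101 Ext.none)

def k0_pp_101 : ∃ t, chk3 f_pp_101 t 1 2 1 = true :=
  ⟨(l 3), by decide +kernel⟩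

def k1_pp_101 : ∃ t, chk3 f_pp_101 t 2 6 1 = true :=
  ⟨(l 3), by decide +kernel⟩

def k2_pp_101 : ∃ t, chk3 f_pp_101 t 4 14 1 = true :=
  ⟨(l 3), by decide +kernel⟩

def k3_pp_101 : ∃ t, chk3 f_pp_101 t 8 15 1 = true :=
  ⟨(b (l 3) (a (b (l 3) (l 6)) (b (b (l 3) (a (l 3) (b (l 3) (a (b (l 3) (a (l 3) (a (b (l 3) (a (l 178408873159) (l 182166967511))) (b (l 173040162887) (l 181093231431))))) (b (b (a (l 3) (a (l 168208320327) (l 164987100295))) (a (a (l 3) (l 183240706023)) (a (l 175187647735) (l 16749504)))) (a (b (a (l 185925065943) (l 16756880)) (l 16750616)) (l 16747448))))))) (b (b (b (b (a (l 3) (a (a (a (c (l 177872006279) (l 190756906455)) (c (l 192904390359) (l 180556361575))) (a (l 16753792) (l 16751704))) (l 16756944))) (a (l 6) (a (a (a (c (l 189683169495) (l 16760744)) (l 16753832)) (l 16750696)) (l 16744400)))) (a (l 6) (a (a (c (l 16752096) (l 16751504)) (l 16747632)) (l 16741328)))) (a (l 6) (a (c (l 16764624) (l 16764520)) (l 16756208))))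 (a (l 6) (b (l 16752648) (l 16723928))))))), by decide +kernel⟩

def k4_pp_101 : ∃ t, chk3 f_pp_101 t 9 15 1 = true :=
  ⟨(b (a (l 3) (b (l 3) (b (l 3) (a (b (l 3) (a (b (l 3) (l 209547352839)) (b (l 196125570919) (a (l 167671425671) (l 16729152))))) (a (a (b (l 175187603767) (b (l 147807195111) (l 16724624))) (b (l 176261337095) (l 16722088))) (a (b (l 173040108055) (l 16717320)) (b (a (l 152639019047) (l 16730424)) (l 16712448)))))))) (b (b (b (b (a (l 3) (a (a (a (l 199883673079) (l 161765845927)) (l 16727176)) (l 16744744))) (a (a (l 3) (a (l 3) (a (l 204715520103) (l 171429532327)))) (a (a (a (l 16734024) (l 16729616)) (l 16722952)) (l 16709024)))) (a (a (a (l 3) (b (l 3) (a (l 3) (l 185388176359)))) (a (b (a (l 3) (l 204178649687)) (a (c (l 201494296743) (l 180019473111)) (l 16738632))) (b (a (l 181093208151) (l 16734168)) (l 16732120)))) (a (a (l 16746448) (l 16716648)) (l 16702664)))) (a (a (b (a (b (a (l 3) (l 178945733895)) (b (a (l 3)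 (a (l 163913353959) (l 179482606279))) (a (a (l 178408863463) (l 169818934615)) (l 16746280)))) (b (a (a (l 186998791527) (l 197736205655)) (c (l 177871990519) (l 179482600903))) (a (l 16743072) (l 16738800)))) (a (b (a (a (l 183240706727) (l 16746320)) (l 16743144)) (l 16762080)) (b (l 16736760) (l 16732600)))) (b (a (b (l 16747048) (l 16732360)) (l 16746768)) (a (l 16726096) (l 16717424)))) (a (b (l 16712696) (l 16704352)) (l 16712784)))) (a (b (a (b (b (l 16753704) (l 16749544)) (l 16743840)) (l 16741624)) (a (l 16711736) (l 16695944))) (b (l 16738808) (l 16672968))))), by decide +kernel⟩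

def k5_pp_101 : ∃ t, chk3 f_pp_101 t 5 14 1 = true :=
  ⟨(a (l 3) (b (l 3) (a (b (l 3) (b (l 3) (a (a (l 3) (b (l 3) (b (l 3) (l 105931180791)))) (a (b (l 184314297879) (b (l 80698236871) (l 16690168))) (b (b (l 176261204983) (l 71571414903)) (l 16659264)))))) (b (a (l 3) (b (l 3) (b (l 3) (a (l 3) (c (b (l 3) (a (l 3) (l 140290828951))) (l 204715325239)))))) (b (a (b (l 3) (a (l 196125426775) (c (l 134922149063) (l 16667824)))) (b (a (b (l 197736033783) (l 65128918071)) (c (c (l 52780871719) (l 16661464)) (l 16659768))) (c (l 16652880) (l 16658096)))) (a (a (c (l 16671616) (l 16673024)) (l 16662856)) (c (l 16652440) (l 16628712)))))))), by decide +kernel⟩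

def k6_pp_101 : ∃ t, chk3 f_pp_101 t 5 15 1 = true :=
  ⟨(a (b (a (b (a (l 3) (a (l 3) (b (l 3) (b (l 3) (a (l 155323339527) (l 169818845175)))))) (b (a (b (a (l 3) (b (l 3) (l 161765801351))) (a (b (l 157470843175) (a (l 139754115799) (l 16728464))) (b (a (l 148880912615) (l 16713216)) (l 16710904)))) (b (a (b (l 167134501111) (c (l 85530147863) (l 16730976))) (c (b (l 16727016) (l 16701056)) (l 16723576))) (c (l 16727576) (l 16729792)))) (a (a (a (b (l 16716272) (l 16707472)) (l 16733032)) (l 16730784)) (l 16716944)))) (b (b (a (l 3) (b (a (l 3) (l 175187528231)) (a (b (l 3) (l 186998689783)) (b (a (l 153712698439) (l 16688320)) (l 16707512))))) (a (b (a (l 155860203223) (b (l 173040057847) (a (l 158007684311) (l 16696496)))) (a (b (a (l 149417761335) (l 16702280)) (l 16700096)) (l 16712904))) (a (b (c (b (l 90361953879) (l 16688496)) (l 16711192)) (l 16681056)) (l 16706120)))) (b (a (b (l 16719056) (l 16678024)) (l 16684328)) (a (l 16669344)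 (l 16653696))))) (b (a (b (a (l 16710712) (l 16716424)) (a (l 16676912) (l 16662584))) (a (l 16666096) (l 16658920))) (a (b (l 16657264) (l 16644608)) (l 16665440)))) (b (a (b (a (b (a (b (a (l 156933901639) (l 111836771287)) (l 16698200)) (a (b (l 16698456) (l 16668360)) (l 16687960))) (l 16699512)) (a (b (l 16679064) (l 16645384)) (l 16673792))) (b (a (l 16647528) (l 16631776)) (l 16692760))) (b (a (b (l 16656360) (l 16625312)) (l 16655320)) (b (l 16650064) (l 16599552)))) (b (a (l 16657584) (l 16586880)) (a (l 16596056) (l 16569616))))), by decide +kernel⟩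

def k7_pp_101 : ∃ t, chk3 f_pp_101 t 6 6 1 = true :=
  ⟨(l 3), by decide +kernel⟩

def k8_pp_101 : ∃ t, chk3 f_pp_101 t 6 14 1 = true :=
  ⟨(a (b (a (l 3) (b (l 3) (b (l 3) (a (a (l 3) (c (l 151565092903) (l 160691895783))) (b (a (l 3) (c (l 142975150263) (l 144585778951))) (a (c (l 131163996519) (l 138680190183)) (c (l 16624528) (l 16622456)))))))) (a (a (b (b (l 3) (a (b (l 3) (c (a (b (l 263771117735) (l 94656794215)) (l 112373524423)) (l 129553400711))) (c (b (b (l 190219790039) (l 116668487303)) (l 16635280)) (l 116668504247)))) (b (c (a (b (l 16648264) (l 16627744)) (l 16640648)) (l 16641352)) (l 16645288))) (b (b (b (l 3) (a (c (b (l 3) (l 156933788535)) (l 168744954759)) (c (c (l 114521003767) (l 117205359879)) (l 120426589319)))) (c (a (c (l 16638904) (l 16641304)) (l 16633208)) (a (l 16642592) (l 16613880)))) (b (l 16621136) (l 16593872)))) (b (b (a (b (a (c (l 152638818535) (l 145122640199)) (c (l 115057870983) (l 16624248))) (c (l 105931065559)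 (l 16638672))) (c (l 16641936) (l 16641216))) (a (c (l 16622376) (l 16623760)) (l 16609576))) (a (l 16614752) (l 16577336))))) (b (a (b (a (l 3) (b (l 3) (b (l 3) (a (l 3) (l 152101979863))))) (a (b (a (c (l 153712588919) (l 157470677831)) (c (l 139753938327) (l 144048896935))) (a (c (l 109152308791) (l 130627117959)) (c (l 16619712) (l 16616656)))) (a (b (c (l 133311479607) (l 124721571383)) (l 16612680)) (b (c (l 111299810183) (l 16628200)) (l 16606928))))) (b (a (b (l 3) (b (a (l 3) (l 146196406039)) (a (l 119352881111) (l 16638856)))) (b (b (l 3) (a (l 147807032279) (l 130627187239))) (a (b (l 121500368871) (l 16633552)) (l 16634472)))) (b (a (c (l 16625496) (l 16619936)) (l 16611000)) (a (l 16597632) (l 16584320))))) (b (a (a (b (l 16619248) (l 16575464)) (l 16615808)) (a (l 16559504) (l 16543912))) (a (c (l 16593760) (l 16597408)) (l 16563072))))), by decide +kernel⟩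

def k9_pp_101 : ∃ t, chk3 f_pp_101 t 6 15 1 = true :=
  ⟨(a (b (b (a (b (a (l 16604088) (l 16586984)) (l 16589104)) (a (l 16563536) (l 16541664))) (a (l 16575272) (l 16523624))) (b (a (l 16560184) (l 16534096)) (l 16637832))) (b (b (a (l 16509200) (l 16467856)) (l 16501368)) (a (l 16587128) (l 16476904)))), by decide +kernel⟩

def k10_pp_101 : ∃ t, chk3 f_pp_101 t 7 3 1 = true :=
  ⟨(b (a (a (a (a (b (l 1) (l 3)) (l 1)) (l 1)) (l 1)) (l 1)) (b (a (b (a (b (a (a (b (b (l 140827716951) (l 16648344)) (l 16628256)) (l 212097386983)) (l 210486774135)) (b (l 16610648) (l 16561288))) (l 221761060343)) (a (b (b (l 16532672) (l 16503312)) (l 16464008)) (b (l 16503736) (l 16424800)))) (b (l 1) (a (l 16487384) (l 1)))) (a (b (l 16504320) (a (l 16450888) (l 16425776))) (b (l 16365136) (l 16389856))))), by decide +kernel⟩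

theorem s11_pp_101 : ∃ t, chk3 f_pp_101 t 6 7 1 = true := ex3_b k8_pp_101 k9_pp_101

theorem s12_pp_101 : ∃ t, chk3 f_pp_101 t 6 3 1 = true := ex3_b k7_pp_101 s11_pp_101

theorem s13_pp_101 : ∃ t, chk3 f_pp_101 t 3 3 1 = true := ex3_a s12_pp_101 k10_pp_101

theorem s14_pp_101 : ∃ t, chk3 f_pp_101 t 5 7 1 = true := ex3_b k5_pp_101 k6_pp_101

theorem s15_pp_101 : ∃ t, chk3 f_pp_101 t 4 15 1 = true := ex3_a k3_pp_101 k4_pp_101

theorem s16_pp_101 : ∃ t, chk3 f_pp_101 t 4 7 1 = true := ex3_b k2_pp_101 s15_pp_101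

theorem s17_pp_101 : ∃ t, chk3 f_pp_101 t 2 7 1 = true := ex3_a s16_pp_101 s14_pp_101

theorem s18_pp_101 : ∃ t, chk3 f_pp_101 t 2 3 1 = true := ex3_b k1_pp_101 s17_pp_101

theorem s19_pp_101 : ∃ t, chk3 f_pp_101 t 1 3 1 = true := ex3_a s18_pp_101 s13_pp_101

theorem s20_pp_101 : ∃ t, chk3 f_pp_101 t 1 1 1 = true := ex3_b k0_pp_101 s19_pp_101

theorem c_pp_101 : CertB 536870912 536870912 536870912 536870912 536870912 50465866 3 eng mog cd5q1 cd0q1 pd0 false true true .npn 1 0 1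
    ndB5q1 ndB0q1 pcB0 cut_pp_101 Ext.none :=
  certB2 (fam := false) (s1 := true) (s2 := true) (a := 1) (b := 0) (c := 1) (cn := .npn) (n1 := ndB5q1) (n2 := ndB0q1) (pc := pcB0) (cut := cut_pp_101) (xt := Ext.none) (P1 := 536870912) (W1 := 536870912) (P2 := 536870912) (W2 := 536870912) (P3 := 536870912) (W3 := 50465866) (N0 := 3) (En := eng) (mo := mog) (C1 := cd5q1) (C2 := cd0q1) (C3 := pd0)
    rfl (fun _ => rfl) s20_pp_101

noncomputable def cut_pp_102 : Cut := Cut.of [[⟨0, 1, 0, 67108864⟩, ⟨1, 0, 0, 67108864⟩, ⟨2, 1, 0, 67108864⟩]]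

noncomputable def f_pp_102 : ℕ → ℕ → ℕ → ℕ → Bool := onCell 0 536870912 0 536870912 536870912 50465866
    (rowB 3 eng mog cd5q1 cd0q2 pd0 2 false true true .npp 1 0 2 (qsf 536870912 536870912 0 536870912 0) ndB5q1 ndB0q2 pcB0 cut_pp_102 Ext.none)

def k0_pp_102 : ∃ t, chk3 f_pp_102 t 2 1 1 = true :=
  ⟨(b (a (b (l 2) (a (l 2) (a (l 2) (b (l 2) (l 16481392))))) (b (a (b (l 16550752) (l 16524088)) (l 16645256)) (a (b (a (l 16496712) (l 16518440)) (l 16509448)) (b (l 16544720) (l 16534888))))) (a (b (b (a (l 2) (a (l 2) (l 16505952))) (c (a (l 2) (a (b (l 16547232) (l 16569368)) (l 16559328))) (a (l 2) (a (b (l 16507784) (l 16538056)) (l 16522752))))) (b (a (a (l 2) (a (b (l 2) (l 6)) (b (l 16589944) (l 16646592)))) (a (b (a (l 16584816) (l 16579736)) (a (b (l 16608736) (l 16625280)) (l 16671696))) (b (l 16676856) (a (l 16601080) (l 16593632))))) (a (a (l 6) (a (l 6) (a (l 6) (a (l 6) (b (l 16658520) (b (l 16686152) (l 16704840))))))) (b (a (a (b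 (l 16642528) (l 16660000)) (l 16640280)) (l 16666320)) (a (b (a (l 16698632) (l 16664392)) (a (l 16695488) (l 16680728))) (b (l 16687160) (l 16680296))))))) (b (a (a (b (l 16517376) (l 16541040)) (b (l 16525032) (l 16538192))) (b (l 16533112) (b (l 16532952) (l 16534304)))) (b (a (b (a (l 16584424) (l 16554280)) (a (l 16582944) (l 16568784))) (a (l 16550000) (l 16539352))) (a (b (a (l 16604488) (l 16585736)) (a (b (l 16642104) (l 16632616)) (b (l 16598952) (l 16607856)))) (b (l 16559256) (a (l 16580976) (l 16558512)))))))), by decide +kernel⟩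

def k1_pp_102 : ∃ t, chk3 f_pp_102 t 3 1 1 = true :=
  ⟨(a (b (b (a (b (l 16630880) (l 16599736)) (l 16650176)) (a (b (l 16573280) (l 16555768)) (l 16601976))) (b (a (b (l 16542600) (a (l 16529632) (l 16528608))) (b (l 16564880) (l 16540952))) (b (a (a (l 16529096) (l 16520120)) (l 16519552)) (a (b (l 16714992) (a (l 16537168) (l 16517256))) (b (l 16506736) (l 16621048)))))) (b (a (b (b (l 16688624) (l 16666920)) (l 16632688)) (b (b (l 16705040) (l 16689104)) (l 16657752))) (b (b (a (l 16590248) (l 16612936)) (l 16732928)) (b (a (l 16520600) (l 16520056)) (a (b (l 16490152) (l 16462960)) (l 16537176)))))), by decide +kernel⟩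

theorem s2_pp_102 : ∃ t, chk3 f_pp_102 t 1 1 1 = true := ex3_a k0_pp_102 k1_pp_102

theorem c_pp_102 : CertB 536870912 536870912 0 536870912 536870912 50465866 3 eng mog cd5q1 cd0q2 pd0 false true true .npp 1 0 2
    ndB5q1 ndB0q2 pcB0 cut_pp_102 Ext.none :=
  certB2 (fam := false) (s1 := true) (s2 := true) (a := 1) (b := 0) (c := 2) (cn := .npp) (n1 := ndB5q1) (n2 := ndB0q2) (pc := pcB0) (cut := cut_pp_102) (xt := Ext.none) (P1 := 536870912) (W1 := 536870912) (P2 := 0) (W2 := 536870912) (P3 := 536870912) (W3 := 50465866) (N0 := 3) (En := eng) (mo := mog) (C1 := cd5q1) (C2 := cd0q2) (C3 := pd0)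
    rfl (fun _ => rfl) s2_pp_102

noncomputable def f_pp_112 : ℕ → ℕ → ℕ → ℕ → Bool := onCell 536870912 536870912 0 536870912 536870912 50465866
    (rowB 3 eng mog cd5q1 cd0q2 pd1 2 false true true .dn 1 1 2 (qsf 536870912 536870912 0 536870912 1) ndB5q1 ndB0q2 pcB1 Cut.none Ext.none)

def k0_pp_112 : ∃ t, chk3 f_pp_112 t 1 1 1 = true :=
  ⟨(a (a (b (a (b (b (l 16716792) (l 16707584)) (l 16681344)) (b (l 16719968) (l 16701056))) (b (a (b (l 16634512) (l 16589688)) (l 16645016)) (b (l 27950884919) (a (l 16455760) (l 1))))) (b (a (b (l 16718832) (l 16710488)) (l 1)) (b (l 1) (l 1)))) (l 1)), by decide +kernel⟩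

theorem c_pp_112 : CertB 536870912 536870912 0 536870912 536870912 50465866 3 eng mog cd5q1 cd0q2 pd1 false true true .dn 1 1 2
    ndB5q1 ndB0q2 pcB1 Cut.none Ext.none :=
  certB2 (fam := false) (s1 := true) (s2 := true) (a := 1) (b := 1) (c := 2) (cn := .dn) (n1 := ndB5q1) (n2 := ndB0q2) (pc := pcB1) (cut := Cut.none) (xt := Ext.none) (P1 := 536870912) (W1 := 536870912) (P2 := 0) (W2 := 536870912) (P3 := 536870912) (W3 := 50465866) (N0 := 3) (En := eng) (mo := mog) (C1 := cd5q1) (C2 := cd0q2) (C3 := pd1)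
    rfl (fun _ => rfl) k0_pp_112

noncomputable def f_pp_202 : ℕ → ℕ → ℕ → ℕ → Bool := onCell 1073741824 536870912 0 536870912 536870912 50465866
    (rowB 3 eng mog cd5q2 cd0q2 pd0 0 false true true .pp 2 0 2 (qsf 1073741824 536870912 0 536870912 0) ndB5q2 ndB0q2 pcB0 Cut.none Ext.none)

def k0_pp_202 : ∃ t, chk3 f_pp_202 t 1 1 1 = true :=
  ⟨(a (b (a (b (a (b (a (b (l 16505856) (l 16491760)) (l 16506664)) (b (a (l 16483168) (l 16508888)) (a (l 16475328) (l 16481056)))) (b (b (l 16522952) (l 16508432)) (a (b (a (b (l 16494136) (l 16487560)) (l 16493280)) (b (l 16652696) (l 16482032))) (b (l 16496512) (a (b (l 16482016) (b (l 16482152) (l 16480848))) (b (l 16487168) (l 16479600))))))) (b (a (a (b (l 16472176) (b (l 16472168) (a (b (l 16471664) (l 16472736)) (b (l 16474104) (l 16475736))))) (b (b (l 16477680) (l 16477120)) (b (l 16496800) (a (l 16468240) (l 16481296))))) (b (a (b (l 16479992) (l 16479120)) (b (a (l 16477672) (b (l 16479640) (l 16476928)))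 (l 117742061303))) (b (a (a (l 16479344) (b (l 16479616) (l 16482048))) (l 177871624343)) (a (l 151564910807) (l 3))))) (a (b (a (a (b (b (l 16474176) (l 16476064)) (b (l 163375963559) (l 3))) (b (b (l 16477312) (l 163376013735)) (l 3))) (a (l 183240179095) (l 3))) (l 3)) (l 3)))) (a (b (b (a (l 16524504) (l 1)) (a (b (l 16501400) (l 16487456)) (l 1))) (b (b (a (a (b (b (l 16476656) (l 16517376)) (b (l 16542440) (l 16484432))) (b (l 210486517703) (b (l 309404902039) (l 3)))) (l 1)) (l 3)) (l 3))) (l 1))) (l 3)) (l 1)), by decide +kernel⟩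

theorem c_pp_202 : CertB 1073741824 536870912 0 536870912 536870912 50465866 3 eng mog cd5q2 cd0q2 pd0 false true true .pp 2 0 2
    ndB5q2 ndB0q2 pcB0 Cut.none Ext.none :=
  certB0 (fam := false) (s1 := true) (s2 := true) (a := 2) (b := 0) (c := 2) (cn := .pp) (n1 := ndB5q2) (n2 := ndB0q2) (pc := pcB0) (cut := Cut.none) (xt := Ext.none) (P1 := 1073741824) (W1 := 536870912) (P2 := 0) (W2 := 536870912) (P3 := 536870912) (W3 := 50465866) (N0 := 3) (En := eng) (mo := mog) (C1 := cd5q2) (C2 := cd0q2) (C3 := pd0)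
    rfl k0_pp_202

noncomputable def f_pm_001 : ℕ → ℕ → ℕ → ℕ → Bool := onCell 0 536870912 536870912 536870912 536870912 50465866
    (rowB 3 eng mog cd5q0 cd0q1 pd0 0 false true false .up 0 0 1 (qsf 0 536870912 536870912 536870912 0) ndB5q0 ndB0q1 pcB0 Cut.none Ext.none)

def k0_pm_001 : ∃ t, chk3 f_pm_001 t 1 1 1 = true :=
  ⟨(l 4), by decide +kernel⟩

theorem c_pm_001 : CertB 0 536870912 536870912 536870912 536870912 50465866 3 eng mog cd5q0 cd0q1 pd0 false true false .up 0 0 1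
    ndB5q0 ndB0q1 pcB0 Cut.none Ext.none :=
  certB0 (fam := false) (s1 := true) (s2 := false) (a := 0) (b := 0) (c := 1) (cn := .up) (n1 := ndB5q0) (n2 := ndB0q1) (pc := pcB0) (cut := Cut.none) (xt := Ext.none) (P1 := 0) (W1 := 536870912) (P2 := 536870912) (W2 := 536870912) (P3 := 536870912) (W3 := 50465866) (N0 := 3) (En := eng) (mo := mog) (C1 := cd5q0) (C2 := cd0q1) (C3 := pd0)
    rfl k0_pm_001

noncomputable def f_pm_011 : ℕ → ℕ → ℕ → ℕ → Bool := onCell 0 536870912 536870912 536870912 536870912 50465866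
    (rowB 3 eng mog cd5q0 cd0q1 pd1 0 false true false .pnn 0 1 1 (qsf 0 536870912 536870912 536870912 1) ndB5q0 ndB0q1 pcB1 Cut.none Ext.none)

def k0_pm_011 : ∃ t, chk3 f_pm_011 t 1 1 1 = true :=
  ⟨(l 4), by decide +kernel⟩

theorem c_pm_011 : CertB 0 536870912 536870912 536870912 536870912 50465866 3 eng mog cd5q0 cd0q1 pd1 false true false .pnn 0 1 1
    ndB5q0 ndB0q1 pcB1 Cut.none Ext.none :=
  certB0 (fam := false) (s1 := true) (s2 := false) (a := 0) (b := 1) (c := 1) (cn := .pnn) (n1 := ndB5q0) (n2 := ndB0q1) (pc := pcB1) (cut := Cut.none) (xt := Ext.none) (P1 := 0) (W1 := 536870912) (P2 := 536870912) (W2 := 536870912) (P3 := 536870912) (W3 := 50465866) (N0 := 3) (En := eng) (mo := mog) (C1 := cd5q0) (C2 := cd0q1) (C3 := pd1)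
    rfl k0_pm_011

noncomputable def f_pm_012 : ℕ → ℕ → ℕ → ℕ → Bool := onCell 0 536870912 0 536870912 536870912 50465866
    (rowB 3 eng mog cd5q0 cd0q2 pd1 0 false true false .pnp 0 1 2 (qsf 0 536870912 0 536870912 1) ndB5q0 ndB0q2 pcB1 Cut.none Ext.none)

def k0_pm_012 : ∃ t, chk3 f_pm_012 t 1 1 1 = true :=
  ⟨(b (a (l 4) (b (a (l 219815464215) (l 16922840)) (l 4))) (l 4)), by decide +kernel⟩

theorem c_pm_012 : CertB 0 536870912 0 536870912 536870912 50465866 3 eng mog cd5q0 cd0q2 pd1 false true false .pnp 0 1 2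
    ndB5q0 ndB0q2 pcB1 Cut.none Ext.none :=
  certB0 (fam := false) (s1 := true) (s2 := false) (a := 0) (b := 1) (c := 2) (cn := .pnp) (n1 := ndB5q0) (n2 := ndB0q2) (pc := pcB1) (cut := Cut.none) (xt := Ext.none) (P1 := 0) (W1 := 536870912) (P2 := 0) (W2 := 536870912) (P3 := 536870912) (W3 := 50465866) (N0 := 3) (En := eng) (mo := mog) (C1 := cd5q0) (C2 := cd0q2) (C3 := pd1)
    rfl k0_pm_012

noncomputable def f_pm_022 : ℕ → ℕ → ℕ → ℕ → Bool := onCell 0 536870912 0 536870912 536870912 50465866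
    (rowB 3 eng mog cd5q0 cd0q2 pd2 0 false true false .pp 0 2 2 (qsf 0 536870912 0 536870912 2) ndB5q0 ndB0q2 pcB2 Cut.none Ext.none)

def k0_pm_022 : ∃ t, chk3 f_pm_022 t 1 1 1 = true :=
  ⟨(a (b (l 4) (l 4)) (l 1)), by decide +kernel⟩

theorem c_pm_022 : CertB 0 536870912 0 536870912 536870912 50465866 3 eng mog cd5q0 cd0q2 pd2 false true false .pp 0 2 2
    ndB5q0 ndB0q2 pcB2 Cut.none Ext.none :=
  certB0 (fam := false) (s1 := true) (s2 := false) (a := 0) (b := 2) (c := 2) (cn := .pp) (n1 := ndB5q0) (n2 := ndB0q2) (pc := pcB2) (cut := Cut.none) (xt := Ext.none) (P1 := 0) (W1 := 536870912) (P2 := 0) (W2 := 536870912) (P3 := 536870912) (W3 := 50465866) (N0 := 3) (En := eng) (mo := mog) (C1 := cd5q0) (C2 := cd0q2) (C3 := pd2)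
    rfl k0_pm_022

noncomputable def f_pm_101 : ℕ → ℕ → ℕ → ℕ → Bool := onCell 536870912 536870912 536870912 536870912 536870912 50465866
    (rowB 3 eng mog cd5q1 cd0q1 pd0 0 false true false .npn 1 0 1 (qsf 536870912 536870912 536870912 536870912 0) ndB5q1 ndB0q1 pcB0 Cut.none Ext.none)

def k0_pm_101 : ∃ t, chk3 f_pm_101 t 1 1 1 = true :=
  ⟨(l 4), by decide +kernel⟩

theorem c_pm_101 : CertB 536870912 536870912 536870912 536870912 536870912 50465866 3 eng mog cd5q1 cd0q1 pd0 false true false .npn 1 0 1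
    ndB5q1 ndB0q1 pcB0 Cut.none Ext.none :=
  certB0 (fam := false) (s1 := true) (s2 := false) (a := 1) (b := 0) (c := 1) (cn := .npn) (n1 := ndB5q1) (n2 := ndB0q1) (pc := pcB0) (cut := Cut.none) (xt := Ext.none) (P1 := 536870912) (W1 := 536870912) (P2 := 536870912) (W2 := 536870912) (P3 := 536870912) (W3 := 50465866) (N0 := 3) (En := eng) (mo := mog) (C1 := cd5q1) (C2 := cd0q1) (C3 := pd0)
    rfl k0_pm_101

noncomputable def f_pm_102 : ℕ → ℕ → ℕ → ℕ → Bool := onCell 536870912 536870912 0 536870912 536870912 50465866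
    (rowB 3 eng mog cd5q1 cd0q2 pd0 0 false true false .npp 1 0 2 (qsf 536870912 536870912 0 536870912 0) ndB5q1 ndB0q2 pcB0 Cut.none Ext.none)

def k0_pm_102 : ∃ t, chk3 f_pm_102 t 1 1 1 = true :=
  ⟨(a (b (a (b (l 2) (l 4)) (b (a (b (l 16716208) (l 16714584)) (b (l 16707960) (l 16710448))) (a (l 4) (l 16703160)))) (l 4)) (b (a (b (b (a (l 16694296) (l 16671720)) (a (l 16703408) (l 16689432))) (a (l 16700456) (b (l 16696504) (l 4)))) (b (b (a (l 16645048) (l 16608752)) (a (l 16669448) (l 16638384))) (a (b (l 16685320) (l 16686024)) (b (l 16664616) (l 16675360))))) (l 4))), by decide +kernel⟩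

theorem c_pm_102 : CertB 536870912 536870912 0 536870912 536870912 50465866 3 eng mog cd5q1 cd0q2 pd0 false true false .npp 1 0 2
    ndB5q1 ndB0q2 pcB0 Cut.none Ext.none :=
  certB0 (fam := false) (s1 := true) (s2 := false) (a := 1) (b := 0) (c := 2) (cn := .npp) (n1 := ndB5q1) (n2 := ndB0q2) (pc := pcB0) (cut := Cut.none) (xt := Ext.none) (P1 := 536870912) (W1 := 536870912) (P2 := 0) (W2 := 536870912) (P3 := 536870912) (W3 := 50465866) (N0 := 3) (En := eng) (mo := mog) (C1 := cd5q1) (C2 := cd0q2) (C3 := pd0)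
    rfl k0_pm_102

noncomputable def f_pm_112 : ℕ → ℕ → ℕ → ℕ → Bool := onCell 536870912 536870912 0 536870912 536870912 50465866
    (rowB 3 eng mog cd5q1 cd0q2 pd1 2 false true false .dn 1 1 2 (qsf 536870912 536870912 0 536870912 1) ndB5q1 ndB0q2 pcB1 Cut.none Ext.none)

def k0_pm_112 : ∃ t, chk3 f_pm_112 t 1 1 1 = true :=
  ⟨(b (b (a (a (a (l 16969792) (l 16715344)) (l 16698328)) (l 1)) (l 4)) (l 4)), by decide +kernel⟩

theorem c_pm_112 : CertB 536870912 536870912 0 536870912 536870912 50465866 3 eng mog cd5q1 cd0q2 pd1 false true false .dn 1 1 2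
    ndB5q1 ndB0q2 pcB1 Cut.none Ext.none :=
  certB2 (fam := false) (s1 := true) (s2 := false) (a := 1) (b := 1) (c := 2) (cn := .dn) (n1 := ndB5q1) (n2 := ndB0q2) (pc := pcB1) (cut := Cut.none) (xt := Ext.none) (P1 := 536870912) (W1 := 536870912) (P2 := 0) (W2 := 536870912) (P3 := 536870912) (W3 := 50465866) (N0 := 3) (En := eng) (mo := mog) (C1 := cd5q1) (C2 := cd0q2) (C3 := pd1)
    rfl (fun _ => rfl) k0_pm_112

noncomputable def f_pm_202 : ℕ → ℕ → ℕ → ℕ → Bool := onCell 0 536870912 0 536870912 536870912 50465866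
    (rowB 3 eng mog cd5q2 cd0q2 pd0 2 false true false .pp 2 0 2 (qsf 1073741824 536870912 0 536870912 0) ndB5q2 ndB0q2 pcB0 Cut.none Ext.none)

def k0_pm_202 : ∃ t, chk3 f_pm_202 t 1 1 1 = true :=
  ⟨(a (b (a (b (b (a (l 16552856) (l 16538816)) (a (a (b (l 16580960) (l 16595464)) (l 16581080)) (a (l 16574064) (l 16566600)))) (a (b (l 16614392) (a (l 16641392) (l 16632696))) (b (a (l 16602320) (l 16596272)) (a (l 16627224) (l 16626224))))) (a (b (b (l 16543248) (l 16556200)) (a (b (l 16593760) (l 16630680)) (l 1))) (l 1))) (a (b (b (a (a (l 16653784) (l 16647264)) (a (l 16647000) (l 85932691063))) (a (b (a (l 16655824) (l 16652824)) (a (l 16653816) (l 16654848))) (a (b (l 16661048) (l 16673072)) (b (l 257194479847) (l 1))))) (a (b (a (b (l 16649600) (l 16622880)) (b (l 16657576) (a (l 16656128) (l 16676040)))) (b (a (a (b (l 16638256) (l 16633976)) (b (l 16644160) (a (l 16641344) (l 16652816)))) (a (b (l 16664424) (l 1)) (l 1))) (a (b (a (a (l 16626216)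 (l 164315585495)) (a (l 335040551015) (l 1))) (a (a (a (l 178274177271) (l 366715863959)) (a (l 369400241447) (l 1))) (l 1))) (l 1)))) (b (a (b (l 16690112) (l 1)) (l 1)) (l 1)))) (b (l 1) (l 1)))) (l 1)), by decide +kernel⟩

theorem c_pm_202 : CertB 1073741824 536870912 0 536870912 536870912 50465866 3 eng mog cd5q2 cd0q2 pd0 false true false .pp 2 0 2
    ndB5q2 ndB0q2 pcB0 Cut.none Ext.none :=
  certB2 (fam := false) (s1 := true) (s2 := false) (a := 2) (b := 0) (c := 2) (cn := .pp) (n1 := ndB5q2) (n2 := ndB0q2) (pc := pcB0) (cut := Cut.none) (xt := Ext.none) (P1 := 1073741824) (W1 := 536870912) (P2 := 0) (W2 := 536870912) (P3 := 536870912) (W3 := 50465866) (N0 := 3) (En := eng) (mo := mog) (C1 := cd5q2) (C2 := cd0q2) (C3 := pd0)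
    rfl (fun _ => rfl) k0_pm_202

noncomputable def f_mm_001 : ℕ → ℕ → ℕ → ℕ → Bool := onCell 0 536870912 536870912 536870912 536870912 50465866
    (rowB 3 eng mog cd5q0 cd0q1 pd0 0 false false false .up 0 0 1 (qsf 0 536870912 536870912 536870912 0) ndB5q0 ndB0q1 pcB0 Cut.none Ext.none)

def k0_mm_001 : ∃ t, chk3 f_mm_001 t 1 1 1 = true :=
  ⟨(l 5), by decide +kernel⟩

theorem c_mm_001 : CertB 0 536870912 536870912 536870912 536870912 50465866 3 eng mog cd5q0 cd0q1 pd0 false false false .up 0 0 1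
    ndB5q0 ndB0q1 pcB0 Cut.none Ext.none :=
  certB0 (fam := false) (s1 := false) (s2 := false) (a := 0) (b := 0) (c := 1) (cn := .up) (n1 := ndB5q0) (n2 := ndB0q1) (pc := pcB0) (cut := Cut.none) (xt := Ext.none) (P1 := 0) (W1 := 536870912) (P2 := 536870912) (W2 := 536870912) (P3 := 536870912) (W3 := 50465866) (N0 := 3) (En := eng) (mo := mog) (C1 := cd5q0) (C2 := cd0q1) (C3 := pd0)
    rfl k0_mm_001

noncomputable def f_mm_011 : ℕ → ℕ → ℕ → ℕ → Bool := onCell 0 536870912 536870912 536870912 536870912 50465866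
    (rowB 3 eng mog cd5q0 cd0q1 pd1 0 false false false .pnn 0 1 1 (qsf 0 536870912 536870912 536870912 1) ndB5q0 ndB0q1 pcB1 Cut.none Ext.none)

def k0_mm_011 : ∃ t, chk3 f_mm_011 t 1 1 1 = true :=
  ⟨(l 5), by decide +kernel⟩

theorem c_mm_011 : CertB 0 536870912 536870912 536870912 536870912 50465866 3 eng mog cd5q0 cd0q1 pd1 false false false .pnn 0 1 1
    ndB5q0 ndB0q1 pcB1 Cut.none Ext.none :=
  certB0 (fam := false) (s1 := false) (s2 := false) (a := 0) (b := 1) (c := 1) (cn := .pnn) (n1 := ndB5q0) (n2 := ndB0q1) (pc := pcB1) (cut := Cut.none) (xt := Ext.none) (P1 := 0) (W1 := 536870912) (P2 := 536870912) (W2 := 536870912) (P3 := 536870912) (W3 := 50465866) (N0 := 3) (En := eng) (mo := mog) (C1 := cd5q0) (C2 := cd0q1) (C3 := pd1)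
    rfl k0_mm_011

noncomputable def f_mm_012 : ℕ → ℕ → ℕ → ℕ → Bool := onCell 0 536870912 0 536870912 536870912 50465866
    (rowB 3 eng mog cd5q0 cd0q2 pd1 0 false false false .pnp 0 1 2 (qsf 0 536870912 0 536870912 1) ndB5q0 ndB0q2 pcB1 Cut.none Ext.none)

def k0_mm_012 : ∃ t, chk3 f_mm_012 t 1 1 1 = true :=
  ⟨(l 5), by decide +kernel⟩

theorem c_mm_012 : CertB 0 536870912 0 536870912 536870912 50465866 3 eng mog cd5q0 cd0q2 pd1 false false false .pnp 0 1 2
    ndB5q0 ndB0q2 pcB1 Cut.none Ext.none :=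
  certB0 (fam := false) (s1 := false) (s2 := false) (a := 0) (b := 1) (c := 2) (cn := .pnp) (n1 := ndB5q0) (n2 := ndB0q2) (pc := pcB1) (cut := Cut.none) (xt := Ext.none) (P1 := 0) (W1 := 536870912) (P2 := 0) (W2 := 536870912) (P3 := 536870912) (W3 := 50465866) (N0 := 3) (En := eng) (mo := mog) (C1 := cd5q0) (C2 := cd0q2) (C3 := pd1)
    rfl k0_mm_012

noncomputable def f_mm_022 : ℕ → ℕ → ℕ → ℕ → Bool := onCell 0 536870912 0 536870912 536870912 50465866
    (rowB 3 eng mog cd5q0 cd0q2 pd2 0 false false false .pp 0 2 2 (qsf 0 536870912 0 536870912 2) ndB5q0 ndB0q2 pcB2 Cut.none Ext.none)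

def k0_mm_022 : ∃ t, chk3 f_mm_022 t 1 1 1 = true :=
  ⟨(l 5), by decide +kernel⟩

theorem c_mm_022 : CertB 0 536870912 0 536870912 536870912 50465866 3 eng mog cd5q0 cd0q2 pd2 false false false .pp 0 2 2
    ndB5q0 ndB0q2 pcB2 Cut.none Ext.none :=
  certB0 (fam := false) (s1 := false) (s2 := false) (a := 0) (b := 2) (c := 2) (cn := .pp) (n1 := ndB5q0) (n2 := ndB0q2) (pc := pcB2) (cut := Cut.none) (xt := Ext.none) (P1 := 0) (W1 := 536870912) (P2 := 0) (W2 := 536870912) (P3 := 536870912) (W3 := 50465866) (N0 := 3) (En := eng) (mo := mog) (C1 := cd5q0) (C2 := cd0q2) (C3 := pd2)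
    rfl k0_mm_022

noncomputable def f_mm_101 : ℕ → ℕ → ℕ → ℕ → Bool := onCell 0 536870912 536870912 536870912 536870912 50465866
    (rowB 3 eng mog cd5q1 cd0q1 pd0 2 false false false .npn 1 0 1 (qsf 536870912 536870912 536870912 536870912 0) ndB5q1 ndB0q1 pcB0 Cut.none Ext.none)

def k0_mm_101 : ∃ t, chk3 f_mm_101 t 1 1 1 = true :=
  ⟨(l 5), by decide +kernel⟩

theorem c_mm_101 : CertB 536870912 536870912 536870912 536870912 536870912 50465866 3 eng mog cd5q1 cd0q1 pd0 false false false .npn 1 0 1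
    ndB5q1 ndB0q1 pcB0 Cut.none Ext.none :=
  certB2 (fam := false) (s1 := false) (s2 := false) (a := 1) (b := 0) (c := 1) (cn := .npn) (n1 := ndB5q1) (n2 := ndB0q1) (pc := pcB0) (cut := Cut.none) (xt := Ext.none) (P1 := 536870912) (W1 := 536870912) (P2 := 536870912) (W2 := 536870912) (P3 := 536870912) (W3 := 50465866) (N0 := 3) (En := eng) (mo := mog) (C1 := cd5q1) (C2 := cd0q1) (C3 := pd0)
    rfl (fun _ => rfl) k0_mm_101

noncomputable def f_mm_102 : ℕ → ℕ → ℕ → ℕ → Bool := onCell 536870912 536870912 0 536870912 536870912 50465866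
    (rowB 3 eng mog cd5q1 cd0q2 pd0 0 false false false .npp 1 0 2 (qsf 536870912 536870912 0 536870912 0) ndB5q1 ndB0q2 pcB0 Cut.none Ext.none)

def k0_mm_102 : ∃ t, chk3 f_mm_102 t 1 1 1 = true :=
  ⟨(l 5), by decide +kernel⟩

theorem c_mm_102 : CertB 536870912 536870912 0 536870912 536870912 50465866 3 eng mog cd5q1 cd0q2 pd0 false false false .npp 1 0 2
    ndB5q1 ndB0q2 pcB0 Cut.none Ext.none :=
  certB0 (fam := false) (s1 := false) (s2 := false) (a := 1) (b := 0) (c := 2) (cn := .npp) (n1 := ndB5q1) (n2 := ndB0q2) (pc := pcB0) (cut := Cut.none) (xt := Ext.none) (P1 := 536870912) (W1 := 536870912) (P2 := 0) (W2 := 536870912) (P3 := 536870912) (W3 := 50465866) (N0 := 3) (En := eng) (mo := mog) (C1 := cd5q1) (C2 := cd0q2) (C3 := pd0)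
    rfl k0_mm_102

noncomputable def f_mm_112 : ℕ → ℕ → ℕ → ℕ → Bool := onCell 536870912 536870912 0 536870912 536870912 50465866
    (rowB 3 eng mog cd5q1 cd0q2 pd1 0 false false false .dn 1 1 2 (qsf 536870912 536870912 0 536870912 1) ndB5q1 ndB0q2 pcB1 Cut.none Ext.none)

def k0_mm_112 : ∃ t, chk3 f_mm_112 t 1 1 1 = true :=
  ⟨(l 5), by decide +kernel⟩

theorem c_mm_112 : CertB 536870912 536870912 0 536870912 536870912 50465866 3 eng mog cd5q1 cd0q2 pd1 false false false .dn 1 1 2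
    ndB5q1 ndB0q2 pcB1 Cut.none Ext.none :=
  certB0 (fam := false) (s1 := false) (s2 := false) (a := 1) (b := 1) (c := 2) (cn := .dn) (n1 := ndB5q1) (n2 := ndB0q2) (pc := pcB1) (cut := Cut.none) (xt := Ext.none) (P1 := 536870912) (W1 := 536870912) (P2 := 0) (W2 := 536870912) (P3 := 536870912) (W3 := 50465866) (N0 := 3) (En := eng) (mo := mog) (C1 := cd5q1) (C2 := cd0q2) (C3 := pd1)
    rfl k0_mm_112

noncomputable def f_mm_202 : ℕ → ℕ → ℕ → ℕ → Bool := onCell 1073741824 536870912 0 536870912 536870912 50465866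
    (rowB 3 eng mog cd5q2 cd0q2 pd0 0 false false false .pp 2 0 2 (qsf 1073741824 536870912 0 536870912 0) ndB5q2 ndB0q2 pcB0 Cut.none Ext.none)

def k0_mm_202 : ∃ t, chk3 f_mm_202 t 1 1 1 = true :=
  ⟨(l 5), by decide +kernel⟩

theorem c_mm_202 : CertB 1073741824 536870912 0 536870912 536870912 50465866 3 eng mog cd5q2 cd0q2 pd0 false false false .pp 2 0 2
    ndB5q2 ndB0q2 pcB0 Cut.none Ext.none :=
  certB0 (fam := false) (s1 := false) (s2 := false) (a := 2) (b := 0) (c := 2) (cn := .pp) (n1 := ndB5q2) (n2 := ndB0q2) (pc := pcB0) (cut := Cut.none) (xt := Ext.none) (P1 := 1073741824) (W1 := 536870912) (P2 := 0) (W2 := 536870912) (P3 := 536870912) (W3 := 50465866) (N0 := 3) (En := eng) (mo := mog) (C1 := cd5q2) (C2 := cd0q2) (C3 := pd0)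
    rfl k0_mm_202

end Pool.Agent.Strip051.G.I5000_5470.Tab.C.BB50

namespace Pool.Agent.Strip051.G.I5000_5470.Tab.C.BB51

open Pool.Agent.Strip051.PB Pool.Agent.Strip051.PB.T
open Pool.Agent.Strip051.G.I5000_5470.Tab

noncomputable def f_pp_001 : ℕ → ℕ → ℕ → ℕ → Bool := onCell 0 536870912 0 536870912 536870912 50465866
    (rowB 3 eng mog cd5q0 cd1q1 pd0 1 false true true .up 0 0 1 (qsf 0 536870912 536870912 536870912 0) ndB5q0 ndB1q1 pcB0 Cut.none Ext.none)

def k0_pp_001 : ∃ t, chk3 f_pp_001 t 1 1 1 = true :=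
  ⟨(b (l 3) (b (l 3) (a (l 3) (a (l 3) (b (l 3) (a (b (l 3) (b (l 3) (a (l 3) (l 147269890343)))) (b (a (l 3) (b (l 3) (a (l 163912680295) (l 160154554007)))) (a (b (a (l 3) (l 161228332823)) (a (l 154785922567) (l 156933322311))) (b (a (l 153175277607) (l 16322496)) (b (l 16297016) (l 16286640))))))))))), by decide +kernel⟩

theorem c_pp_001 : CertB 0 536870912 536870912 536870912 536870912 50465866 3 eng mog cd5q0 cd1q1 pd0 false true true .up 0 0 1
    ndB5q0 ndB1q1 pcB0 Cut.none Ext.none :=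
  certB1 (fam := false) (s1 := true) (s2 := true) (a := 0) (b := 0) (c := 1) (cn := .up) (n1 := ndB5q0) (n2 := ndB1q1) (pc := pcB0) (cut := Cut.none) (xt := Ext.none) (P1 := 0) (W1 := 536870912) (P2 := 536870912) (W2 := 536870912) (P3 := 536870912) (W3 := 50465866) (N0 := 3) (En := eng) (mo := mog) (C1 := cd5q0) (C2 := cd1q1) (C3 := pd0)
    rfl (fun _ => rfl) k0_pp_001

noncomputable def f_pp_011 : ℕ → ℕ → ℕ → ℕ → Bool := onCell 536870912 536870912 536870912 536870912 536870912 50465866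
    (rowB 3 eng mog cd5q0 cd1q1 pd1 2 false true true .pnn 0 1 1 (qsf 0 536870912 536870912 536870912 1) ndB5q0 ndB1q1 pcB1 Cut.none Ext.none)

def k0_pp_011 : ∃ t, chk3 f_pp_011 t 2 1 1 = true :=
  ⟨(b (a (l 3) (b (a (b (l 1) (l 3)) (l 1)) (l 3))) (a (b (l 3) (a (b (b (l 3) (a (a (l 141901157703) (l 134384996775)) (b (l 219210742071) (l 16523720)))) (b (a (a (b (l 16416520) (l 16331944)) (l 16393824)) (l 16420928)) (a (l 16272744) (l 16246064)))) (b (b (a (a (l 3) (l 308868531959)) (a (l 91972706231) (l 16699144))) (a (b (l 127405910823) (l 16559088)) (l 16620056))) (b (a (l 16456608) (l 16495112)) (b (l 16354176) (l 16253264)))))) (b (b (l 3) (a (b (l 3) (a (l 3) (l 125258907095))) (b (a (l 3) (l 126869532071)) (a (a (l 95194106375) (l 16807144)) (a (l 16744936) (l 16745704)))))) (b (a (b (a (l 16697616) (l 16696912)) (a (l 16634464) (l 16634440))) (b (a (l 16699272) (l 16707376)) (a (l 16639752) (l 16655256)))) (a (b (a (l 16533312) (l 16718224))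 (b (l 16685912) (l 16339088))) (b (l 16569808) (l 16456032))))))), by decide +kernel⟩

def k1_pp_011 : ∃ t, chk3 f_pp_011 t 3 1 1 = true :=
  ⟨(b (a (b (l 1) (a (b (l 1) (l 3)) (l 1))) (l 1)) (a (a (b (b (a (l 3) (l 3)) (b (a (l 59760678343) (l 16775032)) (a (l 16747792) (l 16750672)))) (b (b (a (l 16715104) (l 16721808)) (a (l 16670704) (l 16683352))) (b (l 16614280) (l 16516512)))) (b (b (b (l 1) (a (l 140157010375) (l 1))) (b (a (l 16776520) (l 16781760)) (a (l 16752176) (l 16755448)))) (b (b (a (l 16727648) (l 16731640)) (l 16699880)) (b (l 16654360) (l 16576144))))) (b (a (b (l 1) (b (l 1) (a (l 16764192) (l 1)))) (l 1)) (a (b (a (l 16727032) (b (l 16786280) (l 16748672))) (b (a (l 16679912) (l 16692768)) (l 16694072))) (b (b (l 1) (a (l 16768664) (l 1))) (b (a (l 16723440) (l 16747352)) (b (a (l 16680352) (l 16708176)) (a (l 16652664) (l 16677184))))))))), by decide +kernel⟩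

theorem s2_pp_011 : ∃ t, chk3 f_pp_011 t 1 1 1 = true := ex3_a k0_pp_011 k1_pp_011

theorem c_pp_011 : CertB 0 536870912 536870912 536870912 536870912 50465866 3 eng mog cd5q0 cd1q1 pd1 false true true .pnn 0 1 1
    ndB5q0 ndB1q1 pcB1 Cut.none Ext.none :=
  certB2 (fam := false) (s1 := true) (s2 := true) (a := 0) (b := 1) (c := 1) (cn := .pnn) (n1 := ndB5q0) (n2 := ndB1q1) (pc := pcB1) (cut := Cut.none) (xt := Ext.none) (P1 := 0) (W1 := 536870912) (P2 := 536870912) (W2 := 536870912) (P3 := 536870912) (W3 := 50465866) (N0 := 3) (En := eng) (mo := mog) (C1 := cd5q0) (C2 := cd1q1) (C3 := pd1)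
    rfl (fun _ => rfl) s2_pp_011

noncomputable def f_pp_012_a : ℕ → ℕ → ℕ → ℕ → Bool := onCell 536870912 536870912 0 536870912 536870912 50465866
    (rowB 3 eng mog cd5q0 cd1q2a pd1 2 false true true .pnp 0 1 2 (qsf 0 536870912 0 536870912 1) ndB5q0 ndB1q2a pcB1 Cut.none Ext.none)

def k0_pp_012_a : ∃ t, chk3 f_pp_012_a t 1 1 1 = true :=
  ⟨(a (a (b (b (l 2) (a (l 2) (l 16694800))) (b (a (l 2) (l 16640504)) (a (b (l 16519200) (l 16614440)) (b (l 16559632) (l 16672432))))) (b (b (a (l 16721944) (l 16719040)) (a (l 16708200) (l 16714672))) (b (a (b (l 16683264) (l 16649680)) (l 16684232)) (a (b (a (l 16590496) (l 16607432)) (a (l 16518192) (l 16620984))) (b (l 16623896) (a (l 16545760) (l 16557504))))))) (b (a (b (l 16809864) (a (l 16717816) (l 16713408))) (b (a (l 16673240) (l 16640600)) (a (l 16699528) (b (l 16665880) (l 16677616))))) (a (b (a (b (l 16708056) (l 16687672)) (b (l 16712328) (l 16699552))) (b (a (l 16647880) (l 16669776)) (a (b (l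 16601736) (l 16557488)) (b (l 16632216) (a (l 16583856) (l 16602136)))))) (b (a (b (l 16706832) (l 16703752)) (b (l 16686832) (a (l 16697760) (l 16685336)))) (a (b (b (l 16693152) (l 16680568)) (b (l 16661440) (a (l 16620992) (l 16639912)))) (b (a (l 16692160) (b (l 16686680) (l 16684920))) (b (a (l 16678208) (a (l 16681712) (l 16678920))) (a (b (l 16664440) (l 16649792)) (b (a (l 16673880) (l 16674320)) (a (l 16664208) (c (l 16725928) (b (l 16618720) (l 16617968))))))))))))), by decide +kernel⟩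

theorem c_pp_012_a : CertB 0 536870912 0 536870912 536870912 50465866 3 eng mog cd5q0 cd1q2a pd1 false true true .pnp 0 1 2
    ndB5q0 ndB1q2a pcB1 Cut.none Ext.none :=
  certB2 (fam := false) (s1 := true) (s2 := true) (a := 0) (b := 1) (c := 2) (cn := .pnp) (n1 := ndB5q0) (n2 := ndB1q2a) (pc := pcB1) (cut := Cut.none) (xt := Ext.none) (P1 := 0) (W1 := 536870912) (P2 := 0) (W2 := 536870912) (P3 := 536870912) (W3 := 50465866) (N0 := 3) (En := eng) (mo := mog) (C1 := cd5q0) (C2 := cd1q2a) (C3 := pd1)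
    rfl (fun _ => rfl) k0_pp_012_a

noncomputable def f_pp_012_b : ℕ → ℕ → ℕ → ℕ → Bool := onCell 536870912 536870912 1239849684 370763052 536870912 50465866
    (rowB 3 eng mog cd5q0 cd1q2b pd1 2 false true true .pnp 0 1 2 (qsf 0 536870912 1239849684 370763052 1) ndB5q0 ndB1q2b pcB1 Cut.none Ext.none)

def k0_pp_012_b : ∃ t, chk3 f_pp_012_b t 1 1 1 = true :=
  ⟨(a (a (l 2) (b (b (l 16752768) (l 16871120)) (l 2))) (b (a (b (a (l 16731720) (l 16705600)) (l 16836576)) (b (a (l 16669784) (l 16627288)) (a (l 16761464) (l 16690760)))) (a (l 17378824) (b (l 16929880) (l 17270024))))), by decide +kernel⟩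

theorem c_pp_012_b : CertB 0 536870912 1239849684 370763052 536870912 50465866 3 eng mog cd5q0 cd1q2b pd1 false true true .pnp 0 1 2
    ndB5q0 ndB1q2b pcB1 Cut.none Ext.none :=
  certB2 (fam := false) (s1 := true) (s2 := true) (a := 0) (b := 1) (c := 2) (cn := .pnp) (n1 := ndB5q0) (n2 := ndB1q2b) (pc := pcB1) (cut := Cut.none) (xt := Ext.none) (P1 := 0) (W1 := 536870912) (P2 := 1239849684) (W2 := 370763052) (P3 := 536870912) (W3 := 50465866) (N0 := 3) (En := eng) (mo := mog) (C1 := cd5q0) (C2 := cd1q2b) (C3 := pd1)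
    rfl (fun _ => rfl) k0_pp_012_b

noncomputable def f_pp_022_a : ℕ → ℕ → ℕ → ℕ → Bool := onCell 1073741824 536870912 0 536870912 536870912 50465866
    (rowB 3 eng mog cd5q0 cd1q2a pd2 2 false true true .pp 0 2 2 (qsf 0 536870912 0 536870912 2) ndB5q0 ndB1q2a pcB2 Cut.none Ext.none)

def k0_pp_022_a : ∃ t, chk3 f_pp_022_a t 1 1 1 = true :=
  ⟨(a (b (a (b (a (b (l 16609208) (l 16621840)) (l 16630240)) (a (b (l 16633344) (l 16642816)) (b (l 16638872) (l 16646176)))) (a (a (b (l 16650592) (l 16657256)) (b (l 16665416) (l 1))) (l 1))) (a (b (b (a (a (l 16656360) (l 16648552)) (a (l 16650456) (l 16657080))) (a (b (a (l 16661792) (l 16653016)) (a (l 16663592) (l 16655368))) (a (b (l 16655656) (l 16657872)) (l 16658832)))) (a (b (a (b (l 16664072) (a (l 16668328) (l 16661232))) (b (l 16657704) (a (l 16660304) (l 16659936)))) (a (b (a (a (l 16669664) (l 16664968)) (b (l 16662632) (a (l 16664144) (l 16663632)))) (b (a (a (a (l 16669376) (l 16666888)) (b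 (l 16665552) (a (l 16666328) (l 16666000)))) (a (b (l 16665040) (l 1)) (l 1))) (a (a (c (a (l 16722936) (l 16719952)) (a (a (b (l 16613736) (a (l 16592776) (l 16613184))) (b (l 16612664) (l 110628546071))) (a (a (l 111165420871) (l 110628553143)) (l 109017949271)))) (a (b (l 113849812455) (l 1)) (l 1))) (l 1)))) (b (a (b (l 16662000) (l 1)) (l 1)) (l 1)))) (b (a (b (l 16658392) (l 1)) (l 1)) (l 1)))) (b (l 1) (l 1)))) (l 1)), by decide +kernel⟩

theorem c_pp_022_a : CertB 0 536870912 0 536870912 536870912 50465866 3 eng mog cd5q0 cd1q2a pd2 false true true .pp 0 2 2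
    ndB5q0 ndB1q2a pcB2 Cut.none Ext.none :=
  certB2 (fam := false) (s1 := true) (s2 := true) (a := 0) (b := 2) (c := 2) (cn := .pp) (n1 := ndB5q0) (n2 := ndB1q2a) (pc := pcB2) (cut := Cut.none) (xt := Ext.none) (P1 := 0) (W1 := 536870912) (P2 := 0) (W2 := 536870912) (P3 := 536870912) (W3 := 50465866) (N0 := 3) (En := eng) (mo := mog) (C1 := cd5q0) (C2 := cd1q2a) (C3 := pd2)
    rfl (fun _ => rfl) k0_pp_022_a

noncomputable def f_pp_022_b : ℕ → ℕ → ℕ → ℕ → Bool := onCell 0 536870912 1073741824 536870912 536870912 50465866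
    (rowB 3 eng mog cd5q0 cd1q2b pd2 1 false true true .pp 0 2 2 (qsf 0 536870912 1239849684 370763052 2) ndB5q0 ndB1q2b pcB2 Cut.none Ext.none)

def k0_pp_022_b : ∃ t, chk3 f_pp_022_b t 1 1 1 = true :=
  ⟨(b (b (a (a (b (a (l 1) (l 616361276407)) (l 433825451351)) (b (l 493417898455) (l 4))) (l 4)) (l 4)) (l 4)), by decide +kernel⟩

theorem c_pp_022_b : CertB 0 536870912 1239849684 370763052 536870912 50465866 3 eng mog cd5q0 cd1q2b pd2 false true true .pp 0 2 2
    ndB5q0 ndB1q2b pcB2 Cut.none Ext.none :=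
  certB1 (fam := false) (s1 := true) (s2 := true) (a := 0) (b := 2) (c := 2) (cn := .pp) (n1 := ndB5q0) (n2 := ndB1q2b) (pc := pcB2) (cut := Cut.none) (xt := Ext.none) (P1 := 0) (W1 := 536870912) (P2 := 1239849684) (W2 := 370763052) (P3 := 536870912) (W3 := 50465866) (N0 := 3) (En := eng) (mo := mog) (C1 := cd5q0) (C2 := cd1q2b) (C3 := pd2)
    rfl (fun _ => rfl) k0_pp_022_b

noncomputable def f_pp_023 : ℕ → ℕ → ℕ → ℕ → Bool := onCell 0 536870912 1610612736 536870912 536870912 50465866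
    (rowB 3 eng mog cd5q0 cd1q3 pd2 0 false true true .up 0 2 3 (qsf 0 536870912 1610612736 536870912 2) ndB5q0 ndB1q3 pcB2 Cut.none Ext.none)

def k0_pp_023 : ∃ t, chk3 f_pp_023 t 1 1 1 = true :=
  ⟨(a (l 4) (b (l 4) (l 4))), by decide +kernel⟩

theorem c_pp_023 : CertB 0 536870912 1610612736 536870912 536870912 50465866 3 eng mog cd5q0 cd1q3 pd2 false true true .up 0 2 3
    ndB5q0 ndB1q3 pcB2 Cut.none Ext.none :=
  certB0 (fam := false) (s1 := true) (s2 := true) (a := 0) (b := 2) (c := 3) (cn := .up) (n1 := ndB5q0) (n2 := ndB1q3) (pc := pcB2) (cut := Cut.none) (xt := Ext.none) (P1 := 0) (W1 := 536870912) (P2 := 1610612736) (W2 := 536870912) (P3 := 536870912) (W3 := 50465866) (N0 := 3) (En := eng) (mo := mog) (C1 := cd5q0) (C2 := cd1q3) (C3 := pd2)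
    rfl k0_pp_023

noncomputable def f_pp_033 : ℕ → ℕ → ℕ → ℕ → Bool := onCell 0 536870912 1610612736 536870912 536870912 50465866
    (rowB 3 eng mog cd5q0 cd1q3 pd3 0 false true true .pnn 0 3 3 (qsf 0 536870912 1610612736 536870912 3) ndB5q0 ndB1q3 pcB3 Cut.none Ext.none)

def k0_pp_033 : ∃ t, chk3 f_pp_033 t 1 1 1 = true :=
  ⟨(a (l 4) (b (l 4) (l 4))), by decide +kernel⟩

theorem c_pp_033 : CertB 0 536870912 1610612736 536870912 536870912 50465866 3 eng mog cd5q0 cd1q3 pd3 false true true .pnn 0 3 3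
    ndB5q0 ndB1q3 pcB3 Cut.none Ext.none :=
  certB0 (fam := false) (s1 := true) (s2 := true) (a := 0) (b := 3) (c := 3) (cn := .pnn) (n1 := ndB5q0) (n2 := ndB1q3) (pc := pcB3) (cut := Cut.none) (xt := Ext.none) (P1 := 0) (W1 := 536870912) (P2 := 1610612736) (W2 := 536870912) (P3 := 536870912) (W3 := 50465866) (N0 := 3) (En := eng) (mo := mog) (C1 := cd5q0) (C2 := cd1q3) (C3 := pd3)
    rfl k0_pp_033

noncomputable def f_pp_101 : ℕ → ℕ → ℕ → ℕ → Bool := onCell 0 536870912 536870912 536870912 536870912 50465866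
    (rowB 3 eng mog cd5q1 cd1q1 pd0 2 false true true .npn 1 0 1 (qsf 536870912 536870912 536870912 536870912 0) ndB5q1 ndB1q1 pcB0 Cut.none Ext.none)

def k0_pp_101 : ∃ t, chk3 f_pp_101 t 1 1 1 = true :=
  ⟨(a (b (l 3) (l 3)) (b (l 3) (a (b (l 3) (a (l 3) (b (l 3) (b (l 3) (a (b (l 3) (a (l 176797612951) (l 141364217095))) (b (l 196661744375) (a (l 120426083639) (l 16381968)))))))) (b (l 3) (a (b (l 3) (b (b (l 3) (a (l 3) (b (l 176797527063) (l 118815553335)))) (b (a (l 144585373879) (l 100025040967)) (a (l 16370544) (l 16291088))))) (b (a (l 3) (l 1)) (b (a (a (b (l 3) (l 156933345095)) (b (l 167670685943) (l 16368136))) (l 345240710839)) (a (b (l 16308936) (l 16255208)) (a (l 16274472) (l 16235872)))))))))), by decide +kernel⟩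

theorem c_pp_101 : CertB 536870912 536870912 536870912 536870912 536870912 50465866 3 eng mog cd5q1 cd1q1 pd0 false true true .npn 1 0 1
    ndB5q1 ndB1q1 pcB0 Cut.none Ext.none :=
  certB2 (fam := false) (s1 := true) (s2 := true) (a := 1) (b := 0) (c := 1) (cn := .npn) (n1 := ndB5q1) (n2 := ndB1q1) (pc := pcB0) (cut := Cut.none) (xt := Ext.none) (P1 := 536870912) (W1 := 536870912) (P2 := 536870912) (W2 := 536870912) (P3 := 536870912) (W3 := 50465866) (N0 := 3) (En := eng) (mo := mog) (C1 := cd5q1) (C2 := cd1q1) (C3 := pd0)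
    rfl (fun _ => rfl) k0_pp_101

noncomputable def cut_pp_102_a : Cut := Cut.of [[⟨0, 1, 0, 67108864⟩, ⟨1, 0, 0, 67108864⟩, ⟨2, 1, 0, 67108864⟩]]

noncomputable def f_pp_102_a : ℕ → ℕ → ℕ → ℕ → Bool := onCell 0 536870912 0 536870912 536870912 50465866
    (rowB 3 eng mog cd5q1 cd1q2a pd0 2 false true true .npp 1 0 2 (qsf 536870912 536870912 0 536870912 0) ndB5q1 ndB1q2a pcB0 cut_pp_102_a Ext.none)

def k0_pp_102_a : ∃ t, chk3 f_pp_102_a t 1 1 1 = true :=
  ⟨(a (b (a (b (l 2) (a (l 2) (a (l 2) (b (l 2) (l 16472264))))) (b (a (a (l 16495080) (l 16520304)) (l 16551480)) (a (a (l 16485768) (l 16502208)) (l 16521720)))) (a (b (a (l 2) (a (b (l 2) (b (l 16524896) (l 16551800))) (b (l 16499912) (l 16537040)))) (b (b (a (a (l 2) (a (l 2) (l 16589592))) (a (a (l 16583720) (l 16577936)) (a (l 16572128) (l 16567144)))) (a (a (l 2) (a (l 6) (b (l 16616088) (l 16697272)))) (a (a (b (l 16607768) (l 16624744)) (l 16607856)) (l 16595592)))) (a (a (l 6) (a (l 6)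 (a (l 6) (b (l 16659696) (b (l 16687688) (l 16706648)))))) (b (a (a (l 16671920) (l 16639624)) (l 16686264)) (b (a (a (l 16698400) (l 16664064)) (l 16686712)) (a (a (l 16716328) (l 16680584)) (l 16680088))))))) (b (a (b (a (l 16509584) (l 16515728)) (b (l 16611448) (a (l 16542400) (l 16537176)))) (b (l 16521656) (a (l 16528296) (l 16525344)))) (b (a (a (b (l 16560488) (l 16580584)) (l 16558408)) (a (l 16546656) (l 16535808))) (a (b (a (l 16623936) (l 16583952)) (a (b (l 16620496) (l 16632360)) (l 16624104))) (b (l 16640856) (a (l 16580136) (l 16557584)))))))) (a (b (b (a (l 16690704) (l 16626512)) (a (l 16544328) (l 16579032))) (b (a (b (l 16632800) (a (l 16522568) (l 16520552))) (b (l 16550760) (l 16532144))) (b (a (a (l 16525336) (l 16516104)) (l 16514696)) (a (b (l 16733624) (a (l 16536232) (l 16516312))) (b (l 16503856) (l 16536112)))))) (b (a (b (l 16659048) (l 16611832)) (b (b (l 16692360) (l 16672552)) (l 16639208))) (b (b (a (l 16577712)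 (l 16600976)) (l 16660840)) (b (a (l 16514696) (l 16513120)) (a (b (l 16486464) (l 16461640)) (l 16471056))))))), by decide +kernel⟩

theorem c_pp_102_a : CertB 536870912 536870912 0 536870912 536870912 50465866 3 eng mog cd5q1 cd1q2a pd0 false true true .npp 1 0 2
    ndB5q1 ndB1q2a pcB0 cut_pp_102_a Ext.none :=
  certB2 (fam := false) (s1 := true) (s2 := true) (a := 1) (b := 0) (c := 2) (cn := .npp) (n1 := ndB5q1) (n2 := ndB1q2a) (pc := pcB0) (cut := cut_pp_102_a) (xt := Ext.none) (P1 := 536870912) (W1 := 536870912) (P2 := 0) (W2 := 536870912) (P3 := 536870912) (W3 := 50465866) (N0 := 3) (En := eng) (mo := mog) (C1 := cd5q1) (C2 := cd1q2a) (C3 := pd0)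
    rfl (fun _ => rfl) k0_pp_102_a

noncomputable def cut_pp_102_b : Cut := Cut.of [[⟨0, 1, 0, 67108864⟩, ⟨1, 0, 0, 67108864⟩, ⟨2, 1, 0, 67108864⟩]]

noncomputable def f_pp_102_b : ℕ → ℕ → ℕ → ℕ → Bool := onCell 0 536870912 1239849684 370763052 536870912 50465866
    (rowB 3 eng mog cd5q1 cd1q2b pd0 2 false true true .npp 1 0 2 (qsf 536870912 536870912 1239849684 370763052 0) ndB5q1 ndB1q2b pcB0 cut_pp_102_b Ext.none)

def k0_pp_102_b : ∃ t, chk3 f_pp_102_b t 1 1 1 = true :=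
  ⟨(a (a (l 2) (b (a (b (b (l 16498696) (l 2)) (l 2)) (b (l 16525664) (l 16382712))) (l 2))) (a (a (b (b (l 16578216) (l 16473104)) (l 2)) (b (l 16618176) (l 16476224))) (a (b (l 16687464) (l 16696128)) (b (l 16737640) (l 16879824))))), by decide +kernel⟩

theorem c_pp_102_b : CertB 536870912 536870912 1239849684 370763052 536870912 50465866 3 eng mog cd5q1 cd1q2b pd0 false true true .npp 1 0 2
    ndB5q1 ndB1q2b pcB0 cut_pp_102_b Ext.none :=
  certB2 (fam := false) (s1 := true) (s2 := true) (a := 1) (b := 0) (c := 2) (cn := .npp) (n1 := ndB5q1) (n2 := ndB1q2b) (pc := pcB0) (cut := cut_pp_102_b) (xt := Ext.none) (P1 := 536870912) (W1 := 536870912) (P2 := 1239849684) (W2 := 370763052) (P3 := 536870912) (W3 := 50465866) (N0 := 3) (En := eng) (mo := mog) (C1 := cd5q1) (C2 := cd1q2b) (C3 := pd0)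
    rfl (fun _ => rfl) k0_pp_102_b

noncomputable def f_pp_112_a : ℕ → ℕ → ℕ → ℕ → Bool := onCell 536870912 536870912 0 536870912 536870912 50465866
    (rowB 3 eng mog cd5q1 cd1q2a pd1 2 false true true .dn 1 1 2 (qsf 536870912 536870912 0 536870912 1) ndB5q1 ndB1q2a pcB1 Cut.none Ext.none)

def k0_pp_112_a : ∃ t, chk3 f_pp_112_a t 1 1 1 = true :=
  ⟨(a (a (b (a (b (b (l 16710816) (l 16696632)) (l 16665040)) (b (l 16717760) (l 16691792))) (b (a (b (l 16623280) (l 16580752)) (l 16639752)) (a (b (l 16523760) (l 16452664)) (l 451005125527)))) (b (b (l 85396420215) (a (l 16707280) (l 1))) (b (l 1) (l 1)))) (l 1)), by decide +kernel⟩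

theorem c_pp_112_a : CertB 536870912 536870912 0 536870912 536870912 50465866 3 eng mog cd5q1 cd1q2a pd1 false true true .dn 1 1 2
    ndB5q1 ndB1q2a pcB1 Cut.none Ext.none :=
  certB2 (fam := false) (s1 := true) (s2 := true) (a := 1) (b := 1) (c := 2) (cn := .dn) (n1 := ndB5q1) (n2 := ndB1q2a) (pc := pcB1) (cut := Cut.none) (xt := Ext.none) (P1 := 536870912) (W1 := 536870912) (P2 := 0) (W2 := 536870912) (P3 := 536870912) (W3 := 50465866) (N0 := 3) (En := eng) (mo := mog) (C1 := cd5q1) (C2 := cd1q2a) (C3 := pd1)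
    rfl (fun _ => rfl) k0_pp_112_a

noncomputable def f_pp_112_b : ℕ → ℕ → ℕ → ℕ → Bool := onCell 536870912 536870912 1239849684 370763052 536870912 50465866
    (rowB 3 eng mog cd5q1 cd1q2b pd1 2 false true true .dn 1 1 2 (qsf 536870912 536870912 1239849684 370763052 1) ndB5q1 ndB1q2b pcB1 Cut.none Ext.none)

def k0_pp_112_b : ∃ t, chk3 f_pp_112_b t 1 1 1 = true :=
  ⟨(a (a (a (b (l 16779368) (l 17061880)) (b (l 16802480) (l 17192112))) (b (l 16806952) (l 17302744))) (a (b (l 411814028407) (l 17259768)) (b (l 1) (l 17080176)))), by decide +kernel⟩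

theorem c_pp_112_b : CertB 536870912 536870912 1239849684 370763052 536870912 50465866 3 eng mog cd5q1 cd1q2b pd1 false true true .dn 1 1 2
    ndB5q1 ndB1q2b pcB1 Cut.none Ext.none :=
  certB2 (fam := false) (s1 := true) (s2 := true) (a := 1) (b := 1) (c := 2) (cn := .dn) (n1 := ndB5q1) (n2 := ndB1q2b) (pc := pcB1) (cut := Cut.none) (xt := Ext.none) (P1 := 536870912) (W1 := 536870912) (P2 := 1239849684) (W2 := 370763052) (P3 := 536870912) (W3 := 50465866) (N0 := 3) (En := eng) (mo := mog) (C1 := cd5q1) (C2 := cd1q2b) (C3 := pd1)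
    rfl (fun _ => rfl) k0_pp_112_b

noncomputable def f_pp_113 : ℕ → ℕ → ℕ → ℕ → Bool := onCell 536870912 536870912 536870912 536870912 536870912 50465866
    (rowB 3 eng mog cd5q1 cd1q3 pd1 1 false true true .nn 1 1 3 (qsf 536870912 536870912 1610612736 536870912 1) ndB5q1 ndB1q3 pcB1 Cut.none Ext.none)

def k0_pp_113 : ∃ t, chk3 f_pp_113 t 1 1 1 = true :=
  ⟨(a (b (b (l 1) (l 389802683111)) (b (l 459596207255) (l 17696976))) (b (b (b (l 17045320) (l 17390576)) (l 17717264)) (b (l 17593392) (l 17323552)))), by decide +kernel⟩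

theorem c_pp_113 : CertB 536870912 536870912 1610612736 536870912 536870912 50465866 3 eng mog cd5q1 cd1q3 pd1 false true true .nn 1 1 3
    ndB5q1 ndB1q3 pcB1 Cut.none Ext.none :=
  certB1 (fam := false) (s1 := true) (s2 := true) (a := 1) (b := 1) (c := 3) (cn := .nn) (n1 := ndB5q1) (n2 := ndB1q3) (pc := pcB1) (cut := Cut.none) (xt := Ext.none) (P1 := 536870912) (W1 := 536870912) (P2 := 1610612736) (W2 := 536870912) (P3 := 536870912) (W3 := 50465866) (N0 := 3) (En := eng) (mo := mog) (C1 := cd5q1) (C2 := cd1q3) (C3 := pd1)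
    rfl (fun _ => rfl) k0_pp_113

noncomputable def f_pp_123 : ℕ → ℕ → ℕ → ℕ → Bool := onCell 1073741824 536870912 1610612736 536870912 536870912 50465866
    (rowB 3 eng mog cd5q1 cd1q3 pd2 2 false true true .npn 1 2 3 (qsf 536870912 536870912 1610612736 536870912 2) ndB5q1 ndB1q3 pcB2 Cut.none Ext.none)

def k0_pp_123 : ∃ t, chk3 f_pp_123 t 1 1 1 = true :=
  ⟨(a (a (b (l 4) (l 17123328)) (l 4)) (l 4)), by decide +kernel⟩

theorem c_pp_123 : CertB 536870912 536870912 1610612736 536870912 536870912 50465866 3 eng mog cd5q1 cd1q3 pd2 false true true .npn 1 2 3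
    ndB5q1 ndB1q3 pcB2 Cut.none Ext.none :=
  certB2 (fam := false) (s1 := true) (s2 := true) (a := 1) (b := 2) (c := 3) (cn := .npn) (n1 := ndB5q1) (n2 := ndB1q3) (pc := pcB2) (cut := Cut.none) (xt := Ext.none) (P1 := 536870912) (W1 := 536870912) (P2 := 1610612736) (W2 := 536870912) (P3 := 536870912) (W3 := 50465866) (N0 := 3) (En := eng) (mo := mog) (C1 := cd5q1) (C2 := cd1q3) (C3 := pd2)
    rfl (fun _ => rfl) k0_pp_123

noncomputable def f_pp_133 : ℕ → ℕ → ℕ → ℕ → Bool := onCell 536870912 536870912 1610612736 536870912 536870912 50465866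
    (rowB 3 eng mog cd5q1 cd1q3 pd3 0 false true true .dn 1 3 3 (qsf 536870912 536870912 1610612736 536870912 3) ndB5q1 ndB1q3 pcB3 Cut.none Ext.none)

def k0_pp_133 : ∃ t, chk3 f_pp_133 t 1 1 1 = true :=
  ⟨(a (b (l 1) (l 4)) (l 1)), by decide +kernel⟩

theorem c_pp_133 : CertB 536870912 536870912 1610612736 536870912 536870912 50465866 3 eng mog cd5q1 cd1q3 pd3 false true true .dn 1 3 3
    ndB5q1 ndB1q3 pcB3 Cut.none Ext.none :=
  certB0 (fam := false) (s1 := true) (s2 := true) (a := 1) (b := 3) (c := 3) (cn := .dn) (n1 := ndB5q1) (n2 := ndB1q3) (pc := pcB3) (cut := Cut.none) (xt := Ext.none) (P1 := 536870912) (W1 := 536870912) (P2 := 1610612736) (W2 := 536870912) (P3 := 536870912) (W3 := 50465866) (N0 := 3) (En := eng) (mo := mog) (C1 := cd5q1) (C2 := cd1q3) (C3 := pd3)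
    rfl k0_pp_133

noncomputable def f_pp_202_a : ℕ → ℕ → ℕ → ℕ → Bool := onCell 1073741824 536870912 0 536870912 536870912 50465866
    (rowB 3 eng mog cd5q2 cd1q2a pd0 0 false true true .pp 2 0 2 (qsf 1073741824 536870912 0 536870912 0) ndB5q2 ndB1q2a pcB0 Cut.none Ext.none)

def k0_pp_202_a : ∃ t, chk3 f_pp_202_a t 1 1 1 = true :=
  ⟨(a (b (a (b (a (b (b (a (l 16480264) (l 16484632)) (a (l 16470320) (l 16475600))) (b (a (l 16462328) (l 16467768)) (a (l 16459152) (a (l 16462640) (l 16462776))))) (b (a (b (a (l 16487360) (l 16490280)) (b (l 16479624) (l 16475480))) (b (l 16493328) (a (b (l 16581936) (l 16475184)) (b (l 16482456) (l 16472120))))) (b (a (b (l 16472032) (l 16469184)) (b (a (l 16471208) (l 16450096)) (b (l 16492184) (l 16467808)))) (a (b (l 16466544) (a (l 16464264) (l 16466656))) (a (l 123110677671) (l 122573830551)))))) (b (a (b (a (b (b (l 16458848) (l 16479920)) (b (a (l 16458328) (l 16460576)) (a (l 16458784) (l 16461576)))) (b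 (a (l 16482816) (l 16465728)) (a (l 151028039895) (l 152101763607)))) (a (b (a (b (l 16459840) (l 16462064)) (b (l 16463864) (l 3))) (l 3)) (l 3))) (b (a (l 163912837031) (l 3)) (l 3))) (l 3))) (b (a (b (a (l 16490128) (l 1)) (a (b (a (b (l 16467944) (a (l 16464600) (l 16484712))) (b (l 16470728) (l 212633982135))) (a (l 119352628215) (l 293835555911))) (l 1))) (l 1)) (l 3))) (l 3)) (l 1)), by decide +kernel⟩

theorem c_pp_202_a : CertB 1073741824 536870912 0 536870912 536870912 50465866 3 eng mog cd5q2 cd1q2a pd0 false true true .pp 2 0 2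
    ndB5q2 ndB1q2a pcB0 Cut.none Ext.none :=
  certB0 (fam := false) (s1 := true) (s2 := true) (a := 2) (b := 0) (c := 2) (cn := .pp) (n1 := ndB5q2) (n2 := ndB1q2a) (pc := pcB0) (cut := Cut.none) (xt := Ext.none) (P1 := 1073741824) (W1 := 536870912) (P2 := 0) (W2 := 536870912) (P3 := 536870912) (W3 := 50465866) (N0 := 3) (En := eng) (mo := mog) (C1 := cd5q2) (C2 := cd1q2a) (C3 := pd0)
    rfl k0_pp_202_a

noncomputable def f_pp_202_b : ℕ → ℕ → ℕ → ℕ → Bool := onCell 0 536870912 1239849684 370763052 536870912 50465866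
    (rowB 3 eng mog cd5q2 cd1q2b pd0 2 false true true .pp 2 0 2 (qsf 1073741824 536870912 1239849684 370763052 0) ndB5q2 ndB1q2b pcB0 Cut.none Ext.none)

def k0_pp_202_b : ∃ t, chk3 f_pp_202_b t 1 1 1 = true :=
  ⟨(a (a (b (a (b (a (b (b (l 16485952) (l 16442416)) (l 16362472)) (b (l 16463304) (b (l 16402640) (l 16355344)))) (a (b (l 16390120) (a (l 16336520) (l 16364408))) (b (a (l 16255680) (l 16280144)) (l 16339368)))) (b (a (b (l 16461912) (a (l 16384984) (l 16390048))) (b (l 16459224) (l 16397520))) (b (a (b (l 16329592) (l 16283728)) (l 16328888)) (a (l 16201144) (l 16246592))))) (a (b (a (l 211694165063) (l 23789278487)) (l 3)) (b (a (l 16265056) (b (l 16146200) (l 16060048))) (a (l 16115928) (l 16106656))))) (b (a (b (a (l 16452888) (l 16425432)) (a (b (l 16342992) (l 16277192)) (l 16322592))) (b (l 16413856) (l 16333184))) (b (a (b (a (l 16199080) (l 16234240)) (l 16129024)) (b (l 16267304) (l 16223352))) (a (a (l 16042376) (l 16020136))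 (a (l 16089248) (l 16159336)))))) (a (b (b (l 1) (a (l 16341984) (l 16374512))) (a (b (l 16283664) (b (l 16241240) (l 16206128))) (b (l 16345464) (l 16309888)))) (b (l 1) (a (l 16422872) (l 16547904))))), by decide +kernel⟩

theorem c_pp_202_b : CertB 1073741824 536870912 1239849684 370763052 536870912 50465866 3 eng mog cd5q2 cd1q2b pd0 false true true .pp 2 0 2
    ndB5q2 ndB1q2b pcB0 Cut.none Ext.none :=
  certB2 (fam := false) (s1 := true) (s2 := true) (a := 2) (b := 0) (c := 2) (cn := .pp) (n1 := ndB5q2) (n2 := ndB1q2b) (pc := pcB0) (cut := Cut.none) (xt := Ext.none) (P1 := 1073741824) (W1 := 536870912) (P2 := 1239849684) (W2 := 370763052) (P3 := 536870912) (W3 := 50465866) (N0 := 3) (En := eng) (mo := mog) (C1 := cd5q2) (C2 := cd1q2b) (C3 := pd0)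
    rfl (fun _ => rfl) k0_pp_202_b

noncomputable def f_pp_203 : ℕ → ℕ → ℕ → ℕ → Bool := onCell 0 536870912 1610612736 536870912 536870912 50465866
    (rowB 3 eng mog cd5q2 cd1q3 pd0 2 false true true .up 2 0 3 (qsf 1073741824 536870912 1610612736 536870912 0) ndB5q2 ndB1q3 pcB0 Cut.none Ext.none)

def k0_pp_203 : ∃ t, chk3 f_pp_203 t 1 1 1 = true :=
  ⟨(a (a (b (a (l 3) (l 3)) (l 2)) (b (a (b (l 16206672) (l 3)) (b (a (l 16124456) (l 16087280)) (l 16559456))) (l 3))) (a (b (a (b (b (l 16133320) (l 16235176)) (a (l 16500848) (l 16499192))) (b (b (l 16265536) (l 16282080)) (b (l 16434072) (l 16553992)))) (a (l 3) (b (l 16666368) (l 3)))) (b (b (a (l 16377496) (l 16514832)) (a (l 16755016) (l 16602496))) (a (b (l 16670552) (l 16730304)) (b (l 16678296) (l 16732792)))))), by decide +kernel⟩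

theorem c_pp_203 : CertB 1073741824 536870912 1610612736 536870912 536870912 50465866 3 eng mog cd5q2 cd1q3 pd0 false true true .up 2 0 3
    ndB5q2 ndB1q3 pcB0 Cut.none Ext.none :=
  certB2 (fam := false) (s1 := true) (s2 := true) (a := 2) (b := 0) (c := 3) (cn := .up) (n1 := ndB5q2) (n2 := ndB1q3) (pc := pcB0) (cut := Cut.none) (xt := Ext.none) (P1 := 1073741824) (W1 := 536870912) (P2 := 1610612736) (W2 := 536870912) (P3 := 536870912) (W3 := 50465866) (N0 := 3) (En := eng) (mo := mog) (C1 := cd5q2) (C2 := cd1q3) (C3 := pd0)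
    rfl (fun _ => rfl) k0_pp_203

noncomputable def f_pp_213 : ℕ → ℕ → ℕ → ℕ → Bool := onCell 536870912 536870912 1610612736 536870912 536870912 50465866
    (rowB 3 eng mog cd5q2 cd1q3 pd1 2 false true true .pnn 2 1 3 (qsf 1073741824 536870912 1610612736 536870912 1) ndB5q2 ndB1q3 pcB1 Cut.none Ext.none)

def k0_pp_213 : ∃ t, chk3 f_pp_213 t 1 1 1 = true :=
  ⟨(a (a (b (b (l 16892464) (a (l 16712272) (l 16882408))) (b (a (l 16717160) (l 16780552)) (a (l 16735816) (l 16747040)))) (b (a (b (l 17395864) (l 17118464)) (l 17413528)) (a (b (l 16889696) (l 16770232)) (l 17020424)))) (b (a (l 391414505463) (l 1)) (a (b (l 17107176) (l 16827872)) (l 17056856)))), by decide +kernel⟩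

theorem c_pp_213 : CertB 1073741824 536870912 1610612736 536870912 536870912 50465866 3 eng mog cd5q2 cd1q3 pd1 false true true .pnn 2 1 3
    ndB5q2 ndB1q3 pcB1 Cut.none Ext.none :=
  certB2 (fam := false) (s1 := true) (s2 := true) (a := 2) (b := 1) (c := 3) (cn := .pnn) (n1 := ndB5q2) (n2 := ndB1q3) (pc := pcB1) (cut := Cut.none) (xt := Ext.none) (P1 := 1073741824) (W1 := 536870912) (P2 := 1610612736) (W2 := 536870912) (P3 := 536870912) (W3 := 50465866) (N0 := 3) (En := eng) (mo := mog) (C1 := cd5q2) (C2 := cd1q3) (C3 := pd1)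
    rfl (fun _ => rfl) k0_pp_213

noncomputable def f_pp_303 : ℕ → ℕ → ℕ → ℕ → Bool := onCell 0 1230186008 1610612736 536870912 536870912 50465866
    (rowB 3 eng mog cd5q3 cd1q3 pd0 0 false true true .npn 3 0 3 (qsf 0 1230186008 1610612736 536870912 0) ndB5q3 ndB1q3 pcB0 Cut.none Ext.none)

def k0_pp_303 : ∃ t, chk3 f_pp_303 t 1 1 1 = true :=
  ⟨(a (l 3) (a (l 3) (b (l 3) (a (l 3) (b (l 3) (a (l 3) (b (l 3) (l 519322394231)))))))), by decide +kernel⟩

theorem c_pp_303 : CertB 0 1230186008 1610612736 536870912 536870912 50465866 3 eng mog cd5q3 cd1q3 pd0 false true true .npn 3 0 3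
    ndB5q3 ndB1q3 pcB0 Cut.none Ext.none :=
  certB0 (fam := false) (s1 := true) (s2 := true) (a := 3) (b := 0) (c := 3) (cn := .npn) (n1 := ndB5q3) (n2 := ndB1q3) (pc := pcB0) (cut := Cut.none) (xt := Ext.none) (P1 := 0) (W1 := 1230186008) (P2 := 1610612736) (W2 := 536870912) (P3 := 536870912) (W3 := 50465866) (N0 := 3) (En := eng) (mo := mog) (C1 := cd5q3) (C2 := cd1q3) (C3 := pd0)
    rfl k0_pp_303

noncomputable def f_pp_313 : ℕ → ℕ → ℕ → ℕ → Bool := onCell 0 1230186008 1610612736 536870912 536870912 50465866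
    (rowB 3 eng mog cd5q3 cd1q3 pd1 0 false true true .dn 3 1 3 (qsf 0 1230186008 1610612736 536870912 1) ndB5q3 ndB1q3 pcB1 Cut.none Ext.none)

def k0_pp_313 : ∃ t, chk3 f_pp_313 t 1 1 1 = true :=
  ⟨(a (l 1) (a (l 1) (b (l 1) (a (l 1) (b (l 1) (a (l 1) (b (l 1) (l 550863542407)))))))), by decide +kernel⟩

theorem c_pp_313 : CertB 0 1230186008 1610612736 536870912 536870912 50465866 3 eng mog cd5q3 cd1q3 pd1 false true true .dn 3 1 3
    ndB5q3 ndB1q3 pcB1 Cut.none Ext.none :=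
  certB0 (fam := false) (s1 := true) (s2 := true) (a := 3) (b := 1) (c := 3) (cn := .dn) (n1 := ndB5q3) (n2 := ndB1q3) (pc := pcB1) (cut := Cut.none) (xt := Ext.none) (P1 := 0) (W1 := 1230186008) (P2 := 1610612736) (W2 := 536870912) (P3 := 536870912) (W3 := 50465866) (N0 := 3) (En := eng) (mo := mog) (C1 := cd5q3) (C2 := cd1q3) (C3 := pd1)
    rfl k0_pp_313

noncomputable def f_pm_001 : ℕ → ℕ → ℕ → ℕ → Bool := onCell 0 536870912 536870912 536870912 536870912 50465866
    (rowB 3 eng mog cd5q0 cd1q1 pd0 0 false true false .up 0 0 1 (qsf 0 536870912 536870912 536870912 0) ndB5q0 ndB1q1 pcB0 Cut.none Ext.none)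

def k0_pm_001 : ∃ t, chk3 f_pm_001 t 1 1 1 = true :=
  ⟨(l 4), by decide +kernel⟩

theorem c_pm_001 : CertB 0 536870912 536870912 536870912 536870912 50465866 3 eng mog cd5q0 cd1q1 pd0 false true false .up 0 0 1
    ndB5q0 ndB1q1 pcB0 Cut.none Ext.none :=
  certB0 (fam := false) (s1 := true) (s2 := false) (a := 0) (b := 0) (c := 1) (cn := .up) (n1 := ndB5q0) (n2 := ndB1q1) (pc := pcB0) (cut := Cut.none) (xt := Ext.none) (P1 := 0) (W1 := 536870912) (P2 := 536870912) (W2 := 536870912) (P3 := 536870912) (W3 := 50465866) (N0 := 3) (En := eng) (mo := mog) (C1 := cd5q0) (C2 := cd1q1) (C3 := pd0)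
    rfl k0_pm_001

noncomputable def f_pm_011 : ℕ → ℕ → ℕ → ℕ → Bool := onCell 0 536870912 536870912 536870912 536870912 50465866
    (rowB 3 eng mog cd5q0 cd1q1 pd1 0 false true false .pnn 0 1 1 (qsf 0 536870912 536870912 536870912 1) ndB5q0 ndB1q1 pcB1 Cut.none Ext.none)

def k0_pm_011 : ∃ t, chk3 f_pm_011 t 1 1 1 = true :=
  ⟨(l 4), by decide +kernel⟩

theorem c_pm_011 : CertB 0 536870912 536870912 536870912 536870912 50465866 3 eng mog cd5q0 cd1q1 pd1 false true false .pnn 0 1 1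
    ndB5q0 ndB1q1 pcB1 Cut.none Ext.none :=
  certB0 (fam := false) (s1 := true) (s2 := false) (a := 0) (b := 1) (c := 1) (cn := .pnn) (n1 := ndB5q0) (n2 := ndB1q1) (pc := pcB1) (cut := Cut.none) (xt := Ext.none) (P1 := 0) (W1 := 536870912) (P2 := 536870912) (W2 := 536870912) (P3 := 536870912) (W3 := 50465866) (N0 := 3) (En := eng) (mo := mog) (C1 := cd5q0) (C2 := cd1q1) (C3 := pd1)
    rfl k0_pm_011

noncomputable def f_pm_012_a : ℕ → ℕ → ℕ → ℕ → Bool := onCell 0 536870912 0 536870912 536870912 50465866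
    (rowB 3 eng mog cd5q0 cd1q2a pd1 0 false true false .pnp 0 1 2 (qsf 0 536870912 0 536870912 1) ndB5q0 ndB1q2a pcB1 Cut.none Ext.none)

def k0_pm_012_a : ∃ t, chk3 f_pm_012_a t 1 1 1 = true :=
  ⟨(a (l 4) (b (l 4) (l 4))), by decide +kernel⟩

theorem c_pm_012_a : CertB 0 536870912 0 536870912 536870912 50465866 3 eng mog cd5q0 cd1q2a pd1 false true false .pnp 0 1 2
    ndB5q0 ndB1q2a pcB1 Cut.none Ext.none :=
  certB0 (fam := false) (s1 := true) (s2 := false) (a := 0) (b := 1) (c := 2) (cn := .pnp) (n1 := ndB5q0) (n2 := ndB1q2a) (pc := pcB1) (cut := Cut.none) (xt := Ext.none) (P1 := 0) (W1 := 536870912) (P2 := 0) (W2 := 536870912) (P3 := 536870912) (W3 := 50465866) (N0 := 3) (En := eng) (mo := mog) (C1 := cd5q0) (C2 := cd1q2a) (C3 := pd1)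
    rfl k0_pm_012_a

noncomputable def f_pm_012_b : ℕ → ℕ → ℕ → ℕ → Bool := onCell 0 536870912 1239849684 370763052 536870912 50465866
    (rowB 3 eng mog cd5q0 cd1q2b pd1 0 false true false .pnp 0 1 2 (qsf 0 536870912 1239849684 370763052 1) ndB5q0 ndB1q2b pcB1 Cut.none Ext.none)

def k0_pm_012_b : ∃ t, chk3 f_pm_012_b t 1 1 1 = true :=
  ⟨(a (l 4) (b (l 4) (l 4))), by decide +kernel⟩

theorem c_pm_012_b : CertB 0 536870912 1239849684 370763052 536870912 50465866 3 eng mog cd5q0 cd1q2b pd1 false true false .pnp 0 1 2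
    ndB5q0 ndB1q2b pcB1 Cut.none Ext.none :=
  certB0 (fam := false) (s1 := true) (s2 := false) (a := 0) (b := 1) (c := 2) (cn := .pnp) (n1 := ndB5q0) (n2 := ndB1q2b) (pc := pcB1) (cut := Cut.none) (xt := Ext.none) (P1 := 0) (W1 := 536870912) (P2 := 1239849684) (W2 := 370763052) (P3 := 536870912) (W3 := 50465866) (N0 := 3) (En := eng) (mo := mog) (C1 := cd5q0) (C2 := cd1q2b) (C3 := pd1)
    rfl k0_pm_012_b

noncomputable def f_pm_022_a : ℕ → ℕ → ℕ → ℕ → Bool := onCell 0 536870912 0 536870912 536870912 50465866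
    (rowB 3 eng mog cd5q0 cd1q2a pd2 0 false true false .pp 0 2 2 (qsf 0 536870912 0 536870912 2) ndB5q0 ndB1q2a pcB2 Cut.none Ext.none)

def k0_pm_022_a : ∃ t, chk3 f_pm_022_a t 1 1 1 = true :=
  ⟨(a (l 4) (l 1)), by decide +kernel⟩

theorem c_pm_022_a : CertB 0 536870912 0 536870912 536870912 50465866 3 eng mog cd5q0 cd1q2a pd2 false true false .pp 0 2 2
    ndB5q0 ndB1q2a pcB2 Cut.none Ext.none :=
  certB0 (fam := false) (s1 := true) (s2 := false) (a := 0) (b := 2) (c := 2) (cn := .pp) (n1 := ndB5q0) (n2 := ndB1q2a) (pc := pcB2) (cut := Cut.none) (xt := Ext.none) (P1 := 0) (W1 := 536870912) (P2 := 0) (W2 := 536870912) (P3 := 536870912) (W3 := 50465866) (N0 := 3) (En := eng) (mo := mog) (C1 := cd5q0) (C2 := cd1q2a) (C3 := pd2)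
    rfl k0_pm_022_a

noncomputable def f_pm_022_b : ℕ → ℕ → ℕ → ℕ → Bool := onCell 0 536870912 1073741824 536870912 536870912 50465866
    (rowB 3 eng mog cd5q0 cd1q2b pd2 1 false true false .pp 0 2 2 (qsf 0 536870912 1239849684 370763052 2) ndB5q0 ndB1q2b pcB2 Cut.none Ext.none)

def k0_pm_022_b : ∃ t, chk3 f_pm_022_b t 1 1 1 = true :=
  ⟨(l 4), by decide +kernel⟩

theorem c_pm_022_b : CertB 0 536870912 1239849684 370763052 536870912 50465866 3 eng mog cd5q0 cd1q2b pd2 false true false .pp 0 2 2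
    ndB5q0 ndB1q2b pcB2 Cut.none Ext.none :=
  certB1 (fam := false) (s1 := true) (s2 := false) (a := 0) (b := 2) (c := 2) (cn := .pp) (n1 := ndB5q0) (n2 := ndB1q2b) (pc := pcB2) (cut := Cut.none) (xt := Ext.none) (P1 := 0) (W1 := 536870912) (P2 := 1239849684) (W2 := 370763052) (P3 := 536870912) (W3 := 50465866) (N0 := 3) (En := eng) (mo := mog) (C1 := cd5q0) (C2 := cd1q2b) (C3 := pd2)
    rfl (fun _ => rfl) k0_pm_022_b

noncomputable def f_pm_023 : ℕ → ℕ → ℕ → ℕ → Bool := onCell 0 536870912 1610612736 536870912 536870912 50465866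
    (rowB 3 eng mog cd5q0 cd1q3 pd2 0 false true false .up 0 2 3 (qsf 0 536870912 1610612736 536870912 2) ndB5q0 ndB1q3 pcB2 Cut.none Ext.none)

def k0_pm_023 : ∃ t, chk3 f_pm_023 t 1 1 1 = true :=
  ⟨(l 4), by decide +kernel⟩

theorem c_pm_023 : CertB 0 536870912 1610612736 536870912 536870912 50465866 3 eng mog cd5q0 cd1q3 pd2 false true false .up 0 2 3
    ndB5q0 ndB1q3 pcB2 Cut.none Ext.none :=
  certB0 (fam := false) (s1 := true) (s2 := false) (a := 0) (b := 2) (c := 3) (cn := .up) (n1 := ndB5q0) (n2 := ndB1q3) (pc := pcB2) (cut := Cut.none) (xt := Ext.none) (P1 := 0) (W1 := 536870912) (P2 := 1610612736) (W2 := 536870912) (P3 := 536870912) (W3 := 50465866) (N0 := 3) (En := eng) (mo := mog) (C1 := cd5q0) (C2 := cd1q3) (C3 := pd2)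
    rfl k0_pm_023

noncomputable def f_pm_033 : ℕ → ℕ → ℕ → ℕ → Bool := onCell 0 536870912 1610612736 536870912 536870912 50465866
    (rowB 3 eng mog cd5q0 cd1q3 pd3 0 false true false .pnn 0 3 3 (qsf 0 536870912 1610612736 536870912 3) ndB5q0 ndB1q3 pcB3 Cut.none Ext.none)

def k0_pm_033 : ∃ t, chk3 f_pm_033 t 1 1 1 = true :=
  ⟨(l 4), by decide +kernel⟩

theorem c_pm_033 : CertB 0 536870912 1610612736 536870912 536870912 50465866 3 eng mog cd5q0 cd1q3 pd3 false true false .pnn 0 3 3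
    ndB5q0 ndB1q3 pcB3 Cut.none Ext.none :=
  certB0 (fam := false) (s1 := true) (s2 := false) (a := 0) (b := 3) (c := 3) (cn := .pnn) (n1 := ndB5q0) (n2 := ndB1q3) (pc := pcB3) (cut := Cut.none) (xt := Ext.none) (P1 := 0) (W1 := 536870912) (P2 := 1610612736) (W2 := 536870912) (P3 := 536870912) (W3 := 50465866) (N0 := 3) (En := eng) (mo := mog) (C1 := cd5q0) (C2 := cd1q3) (C3 := pd3)
    rfl k0_pm_033

noncomputable def f_pm_101 : ℕ → ℕ → ℕ → ℕ → Bool := onCell 536870912 536870912 536870912 536870912 536870912 50465866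
    (rowB 3 eng mog cd5q1 cd1q1 pd0 0 false true false .npn 1 0 1 (qsf 536870912 536870912 536870912 536870912 0) ndB5q1 ndB1q1 pcB0 Cut.none Ext.none)

def k0_pm_101 : ∃ t, chk3 f_pm_101 t 1 1 1 = true :=
  ⟨(l 4), by decide +kernel⟩

theorem c_pm_101 : CertB 536870912 536870912 536870912 536870912 536870912 50465866 3 eng mog cd5q1 cd1q1 pd0 false true false .npn 1 0 1
    ndB5q1 ndB1q1 pcB0 Cut.none Ext.none :=
  certB0 (fam := false) (s1 := true) (s2 := false) (a := 1) (b := 0) (c := 1) (cn := .npn) (n1 := ndB5q1) (n2 := ndB1q1) (pc := pcB0) (cut := Cut.none) (xt := Ext.none) (P1 := 536870912) (W1 := 536870912) (P2 := 536870912) (W2 := 536870912) (P3 := 536870912) (W3 := 50465866) (N0 := 3) (En := eng) (mo := mog) (C1 := cd5q1) (C2 := cd1q1) (C3 := pd0)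
    rfl k0_pm_101

noncomputable def f_pm_102_a : ℕ → ℕ → ℕ → ℕ → Bool := onCell 536870912 536870912 0 536870912 536870912 50465866
    (rowB 3 eng mog cd5q1 cd1q2a pd0 0 false true false .npp 1 0 2 (qsf 536870912 536870912 0 536870912 0) ndB5q1 ndB1q2a pcB0 Cut.none Ext.none)

def k0_pm_102_a : ∃ t, chk3 f_pm_102_a t 1 1 1 = true :=
  ⟨(b (b (a (a (l 2) (a (l 16716008) (l 16713432))) (a (a (l 16706680) (b (l 16689248) (l 16700208))) (a (b (l 16667496) (l 16685936)) (l 16710232)))) (a (l 4) (a (a (l 4) (b (l 16700272) (l 4))) (a (b (l 16692896) (l 4)) (b (l 16678600) (l 16680256)))))) (l 4)), by decide +kernel⟩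

theorem c_pm_102_a : CertB 536870912 536870912 0 536870912 536870912 50465866 3 eng mog cd5q1 cd1q2a pd0 false true false .npp 1 0 2
    ndB5q1 ndB1q2a pcB0 Cut.none Ext.none :=
  certB0 (fam := false) (s1 := true) (s2 := false) (a := 1) (b := 0) (c := 2) (cn := .npp) (n1 := ndB5q1) (n2 := ndB1q2a) (pc := pcB0) (cut := Cut.none) (xt := Ext.none) (P1 := 536870912) (W1 := 536870912) (P2 := 0) (W2 := 536870912) (P3 := 536870912) (W3 := 50465866) (N0 := 3) (En := eng) (mo := mog) (C1 := cd5q1) (C2 := cd1q2a) (C3 := pd0)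
    rfl k0_pm_102_a

noncomputable def f_pm_102_b : ℕ → ℕ → ℕ → ℕ → Bool := onCell 0 536870912 1239849684 370763052 536870912 50465866
    (rowB 3 eng mog cd5q1 cd1q2b pd0 2 false true false .npp 1 0 2 (qsf 536870912 536870912 1239849684 370763052 0) ndB5q1 ndB1q2b pcB0 Cut.none Ext.none)

def k0_pm_102_b : ∃ t, chk3 f_pm_102_b t 1 1 1 = true :=
  ⟨(a (a (l 2) (b (b (a (a (l 16539624) (l 16567264)) (l 16615024)) (a (l 2) (l 16518808))) (l 2))) (a (a (b (a (l 16626176) (l 16655408)) (l 2)) (b (l 16708080) (l 16650880))) (a (b (l 16755272) (l 16860504)) (b (l 16785392) (l 17048608))))), by decide +kernel⟩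

theorem c_pm_102_b : CertB 536870912 536870912 1239849684 370763052 536870912 50465866 3 eng mog cd5q1 cd1q2b pd0 false true false .npp 1 0 2
    ndB5q1 ndB1q2b pcB0 Cut.none Ext.none :=
  certB2 (fam := false) (s1 := true) (s2 := false) (a := 1) (b := 0) (c := 2) (cn := .npp) (n1 := ndB5q1) (n2 := ndB1q2b) (pc := pcB0) (cut := Cut.none) (xt := Ext.none) (P1 := 536870912) (W1 := 536870912) (P2 := 1239849684) (W2 := 370763052) (P3 := 536870912) (W3 := 50465866) (N0 := 3) (En := eng) (mo := mog) (C1 := cd5q1) (C2 := cd1q2b) (C3 := pd0)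
    rfl (fun _ => rfl) k0_pm_102_b

noncomputable def f_pm_112_a : ℕ → ℕ → ℕ → ℕ → Bool := onCell 536870912 536870912 0 536870912 536870912 50465866
    (rowB 3 eng mog cd5q1 cd1q2a pd1 2 false true false .dn 1 1 2 (qsf 536870912 536870912 0 536870912 1) ndB5q1 ndB1q2a pcB1 Cut.none Ext.none)

def k0_pm_112_a : ∃ t, chk3 f_pm_112_a t 1 1 1 = true :=
  ⟨(a (b (a (l 16701392) (l 16674816)) (l 4)) (l 1)), by decide +kernel⟩

theorem c_pm_112_a : CertB 536870912 536870912 0 536870912 536870912 50465866 3 eng mog cd5q1 cd1q2a pd1 false true false .dn 1 1 2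
    ndB5q1 ndB1q2a pcB1 Cut.none Ext.none :=
  certB2 (fam := false) (s1 := true) (s2 := false) (a := 1) (b := 1) (c := 2) (cn := .dn) (n1 := ndB5q1) (n2 := ndB1q2a) (pc := pcB1) (cut := Cut.none) (xt := Ext.none) (P1 := 536870912) (W1 := 536870912) (P2 := 0) (W2 := 536870912) (P3 := 536870912) (W3 := 50465866) (N0 := 3) (En := eng) (mo := mog) (C1 := cd5q1) (C2 := cd1q2a) (C3 := pd1)
    rfl (fun _ => rfl) k0_pm_112_a

noncomputable def f_pm_112_b : ℕ → ℕ → ℕ → ℕ → Bool := onCell 536870912 536870912 1239849684 370763052 536870912 50465866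
    (rowB 3 eng mog cd5q1 cd1q2b pd1 2 false true false .dn 1 1 2 (qsf 536870912 536870912 1239849684 370763052 1) ndB5q1 ndB1q2b pcB1 Cut.none Ext.none)

def k0_pm_112_b : ∃ t, chk3 f_pm_112_b t 1 1 1 = true :=
  ⟨(b (a (a (l 16851880) (l 16796680)) (l 4)) (a (a (a (l 17173576) (l 17260576)) (l 17317848)) (l 4))), by decide +kernel⟩

theorem c_pm_112_b : CertB 536870912 536870912 1239849684 370763052 536870912 50465866 3 eng mog cd5q1 cd1q2b pd1 false true false .dn 1 1 2
    ndB5q1 ndB1q2b pcB1 Cut.none Ext.none :=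
  certB2 (fam := false) (s1 := true) (s2 := false) (a := 1) (b := 1) (c := 2) (cn := .dn) (n1 := ndB5q1) (n2 := ndB1q2b) (pc := pcB1) (cut := Cut.none) (xt := Ext.none) (P1 := 536870912) (W1 := 536870912) (P2 := 1239849684) (W2 := 370763052) (P3 := 536870912) (W3 := 50465866) (N0 := 3) (En := eng) (mo := mog) (C1 := cd5q1) (C2 := cd1q2b) (C3 := pd1)
    rfl (fun _ => rfl) k0_pm_112_b

noncomputable def f_pm_113 : ℕ → ℕ → ℕ → ℕ → Bool := onCell 536870912 536870912 536870912 536870912 536870912 50465866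
    (rowB 3 eng mog cd5q1 cd1q3 pd1 1 false true false .nn 1 1 3 (qsf 536870912 536870912 1610612736 536870912 1) ndB5q1 ndB1q3 pcB1 Cut.none Ext.none)

def k0_pm_113 : ∃ t, chk3 f_pm_113 t 1 1 1 = true :=
  ⟨(a (b (b (l 1) (l 408593170823)) (b (l 4) (l 4))) (b (b (b (l 17150752) (l 17497312)) (l 17813848)) (b (l 17649168) (l 17323920)))), by decide +kernel⟩

theorem c_pm_113 : CertB 536870912 536870912 1610612736 536870912 536870912 50465866 3 eng mog cd5q1 cd1q3 pd1 false true false .nn 1 1 3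
    ndB5q1 ndB1q3 pcB1 Cut.none Ext.none :=
  certB1 (fam := false) (s1 := true) (s2 := false) (a := 1) (b := 1) (c := 3) (cn := .nn) (n1 := ndB5q1) (n2 := ndB1q3) (pc := pcB1) (cut := Cut.none) (xt := Ext.none) (P1 := 536870912) (W1 := 536870912) (P2 := 1610612736) (W2 := 536870912) (P3 := 536870912) (W3 := 50465866) (N0 := 3) (En := eng) (mo := mog) (C1 := cd5q1) (C2 := cd1q3) (C3 := pd1)
    rfl (fun _ => rfl) k0_pm_113

noncomputable def f_pm_123 : ℕ → ℕ → ℕ → ℕ → Bool := onCell 1073741824 536870912 1610612736 536870912 536870912 50465866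
    (rowB 3 eng mog cd5q1 cd1q3 pd2 2 false true false .npn 1 2 3 (qsf 536870912 536870912 1610612736 536870912 2) ndB5q1 ndB1q3 pcB2 Cut.none Ext.none)

def k0_pm_123 : ∃ t, chk3 f_pm_123 t 1 1 1 = true :=
  ⟨(a (b (l 4) (a (l 17295792) (l 4))) (l 4)), by decide +kernel⟩

theorem c_pm_123 : CertB 536870912 536870912 1610612736 536870912 536870912 50465866 3 eng mog cd5q1 cd1q3 pd2 false true false .npn 1 2 3
    ndB5q1 ndB1q3 pcB2 Cut.none Ext.none :=
  certB2 (fam := false) (s1 := true) (s2 := false) (a := 1) (b := 2) (c := 3) (cn := .npn) (n1 := ndB5q1) (n2 := ndB1q3) (pc := pcB2) (cut := Cut.none) (xt := Ext.none) (P1 := 536870912) (W1 := 536870912) (P2 := 1610612736) (W2 := 536870912) (P3 := 536870912) (W3 := 50465866) (N0 := 3) (En := eng) (mo := mog) (C1 := cd5q1) (C2 := cd1q3) (C3 := pd2)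
    rfl (fun _ => rfl) k0_pm_123

noncomputable def f_pm_133 : ℕ → ℕ → ℕ → ℕ → Bool := onCell 536870912 536870912 1610612736 536870912 536870912 50465866
    (rowB 3 eng mog cd5q1 cd1q3 pd3 0 false true false .dn 1 3 3 (qsf 536870912 536870912 1610612736 536870912 3) ndB5q1 ndB1q3 pcB3 Cut.none Ext.none)

def k0_pm_133 : ∃ t, chk3 f_pm_133 t 1 1 1 = true :=
  ⟨(a (b (l 1) (l 4)) (l 1)), by decide +kernel⟩

theorem c_pm_133 : CertB 536870912 536870912 1610612736 536870912 536870912 50465866 3 eng mog cd5q1 cd1q3 pd3 false true false .dn 1 3 3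
    ndB5q1 ndB1q3 pcB3 Cut.none Ext.none :=
  certB0 (fam := false) (s1 := true) (s2 := false) (a := 1) (b := 3) (c := 3) (cn := .dn) (n1 := ndB5q1) (n2 := ndB1q3) (pc := pcB3) (cut := Cut.none) (xt := Ext.none) (P1 := 536870912) (W1 := 536870912) (P2 := 1610612736) (W2 := 536870912) (P3 := 536870912) (W3 := 50465866) (N0 := 3) (En := eng) (mo := mog) (C1 := cd5q1) (C2 := cd1q3) (C3 := pd3)
    rfl k0_pm_133

noncomputable def f_pm_202_a : ℕ → ℕ → ℕ → ℕ → Bool := onCell 0 536870912 0 536870912 536870912 50465866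
    (rowB 3 eng mog cd5q2 cd1q2a pd0 2 false true false .pp 2 0 2 (qsf 1073741824 536870912 0 536870912 0) ndB5q2 ndB1q2a pcB0 Cut.none Ext.none)

def k0_pm_202_a : ∃ t, chk3 f_pm_202_a t 1 1 1 = true :=
  ⟨(a (b (a (b (a (b (a (l 16580872) (l 16574008)) (l 16602088)) (b (l 16563152) (a (l 16589400) (l 16584184)))) (a (b (l 16625232) (l 16641976)) (b (l 16612816) (l 16634488)))) (a (b (b (l 16548840) (a (l 16581552) (l 1))) (a (b (l 16612856) (l 16644400)) (l 1))) (l 1))) (a (b (a (b (a (l 16654920) (l 16649328)) (b (a (l 16655256) (l 16653272)) (l 16651912))) (b (a (l 16650896) (l 16662528)) (a (b (l 16663576) (l 16675392)) (b (l 16688664) (l 1))))) (a (b (a (b (l 16648280) (l 16642656)) (b (l 16657376) (a (l 16655696) (l 16676520)))) (b (a (a (b (l 16637224) (l 16633184)) (b (l 16643416) (a (l 16640752) (l 16652464)))) (a (b (l 16664304) (l 1)) (l 1))) (a (b (a (a (l 16625680) (l 164852454247)) (a (l 370474030583) (l 1))) (a (a (a (l 178811047815)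 (l 389801312839)) (c (l 397317867319) (l 390875097239))) (l 1))) (l 1)))) (b (a (b (l 16692280) (l 1)) (l 1)) (l 1)))) (b (l 1) (l 1)))) (l 1)), by decide +kernel⟩

theorem c_pm_202_a : CertB 1073741824 536870912 0 536870912 536870912 50465866 3 eng mog cd5q2 cd1q2a pd0 false true false .pp 2 0 2
    ndB5q2 ndB1q2a pcB0 Cut.none Ext.none :=
  certB2 (fam := false) (s1 := true) (s2 := false) (a := 2) (b := 0) (c := 2) (cn := .pp) (n1 := ndB5q2) (n2 := ndB1q2a) (pc := pcB0) (cut := Cut.none) (xt := Ext.none) (P1 := 1073741824) (W1 := 536870912) (P2 := 0) (W2 := 536870912) (P3 := 536870912) (W3 := 50465866) (N0 := 3) (En := eng) (mo := mog) (C1 := cd5q2) (C2 := cd1q2a) (C3 := pd0)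
    rfl (fun _ => rfl) k0_pm_202_a

noncomputable def f_pm_202_b : ℕ → ℕ → ℕ → ℕ → Bool := onCell 0 536870912 1239849684 370763052 536870912 50465866
    (rowB 3 eng mog cd5q2 cd1q2b pd0 2 false true false .pp 2 0 2 (qsf 1073741824 536870912 1239849684 370763052 0) ndB5q2 ndB1q2b pcB0 Cut.none Ext.none)

def k0_pm_202_b : ∃ t, chk3 f_pm_202_b t 1 1 1 = true :=
  ⟨(a (a (b (b (a (b (l 16662600) (a (l 16467888) (l 16474552))) (b (l 16527544) (l 16477600))) (a (l 16326368) (b (l 16417792) (l 16339752)))) (a (b (l 16168408) (b (l 16215032) (a (l 16208936) (l 16173832)))) (b (a (l 16125024) (l 16171968)) (b (l 16089464) (l 16112144))))) (b (b (a (l 16538584) (l 16480744)) (a (a (l 16402608) (l 16403664)) (l 16399816))) (b (a (b (l 16308232) (l 16215432)) (l 16481704)) (a (l 16029336) (l 16164712))))) (a (b (a (b (l 1) (l 16399216)) (l 291017485879)) (a (b (l 16314096) (l 16234104)) (l 16618192))) (b (l 1) (a (l 16592008) (l 16644040))))), by decide +kernel⟩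

theorem c_pm_202_b : CertB 1073741824 536870912 1239849684 370763052 536870912 50465866 3 eng mog cd5q2 cd1q2b pd0 false true false .pp 2 0 2
    ndB5q2 ndB1q2b pcB0 Cut.none Ext.none :=
  certB2 (fam := false) (s1 := true) (s2 := false) (a := 2) (b := 0) (c := 2) (cn := .pp) (n1 := ndB5q2) (n2 := ndB1q2b) (pc := pcB0) (cut := Cut.none) (xt := Ext.none) (P1 := 1073741824) (W1 := 536870912) (P2 := 1239849684) (W2 := 370763052) (P3 := 536870912) (W3 := 50465866) (N0 := 3) (En := eng) (mo := mog) (C1 := cd5q2) (C2 := cd1q2b) (C3 := pd0)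
    rfl (fun _ => rfl) k0_pm_202_b

noncomputable def f_pm_203 : ℕ → ℕ → ℕ → ℕ → Bool := onCell 1073741824 536870912 0 536870912 536870912 50465866
    (rowB 3 eng mog cd5q2 cd1q3 pd0 1 false true false .up 2 0 3 (qsf 1073741824 536870912 1610612736 536870912 0) ndB5q2 ndB1q3 pcB0 Cut.none Ext.none)

def k0_pm_203 : ∃ t, chk3 f_pm_203 t 1 1 1 = true :=
  ⟨(a (b (b (l 1) (a (l 1) (b (l 1) (a (l 1) (l 16210288))))) (b (a (b (l 1) (l 16372024)) (b (l 230887240887) (l 16299456))) (a (l 16535632) (l 16537576)))) (b (b (a (b (l 1) (l 270615599511)) (b (a (l 316249808871) (a (l 330745115847) (l 3))) (a (l 16114976) (l 16246008)))) (b (a (a (l 16115920) (l 15992720)) (a (l 16168472) (l 16396616))) (a (l 16146728) (l 16440784)))) (b (a (b (l 16233192) (l 16442368)) (b (l 16555008) (l 16636320))) (a (l 16634864) (l 16603896))))), by decide +kernel⟩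

theorem c_pm_203 : CertB 1073741824 536870912 1610612736 536870912 536870912 50465866 3 eng mog cd5q2 cd1q3 pd0 false true false .up 2 0 3
    ndB5q2 ndB1q3 pcB0 Cut.none Ext.none :=
  certB1 (fam := false) (s1 := true) (s2 := false) (a := 2) (b := 0) (c := 3) (cn := .up) (n1 := ndB5q2) (n2 := ndB1q3) (pc := pcB0) (cut := Cut.none) (xt := Ext.none) (P1 := 1073741824) (W1 := 536870912) (P2 := 1610612736) (W2 := 536870912) (P3 := 536870912) (W3 := 50465866) (N0 := 3) (En := eng) (mo := mog) (C1 := cd5q2) (C2 := cd1q3) (C3 := pd0)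
    rfl (fun _ => rfl) k0_pm_203

noncomputable def f_pm_213 : ℕ → ℕ → ℕ → ℕ → Bool := onCell 536870912 536870912 1610612736 536870912 536870912 50465866
    (rowB 3 eng mog cd5q2 cd1q3 pd1 2 false true false .pnn 2 1 3 (qsf 1073741824 536870912 1610612736 536870912 1) ndB5q2 ndB1q3 pcB1 Cut.none Ext.none)

def k0_pm_213 : ∃ t, chk3 f_pm_213 t 1 1 1 = true :=
  ⟨(a (a (b (b (l 16981024) (l 16826624)) (b (a (l 16721496) (l 16790720)) (a (l 16735352) (l 16748712)))) (b (a (l 17428216) (l 17499816)) (b (l 17176016) (a (l 16771416) (l 16793672))))) (b (a (l 398930817655) (l 1)) (a (b (l 17131656) (l 16831888)) (l 229815392455)))), by decide +kernel⟩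

theorem c_pm_213 : CertB 1073741824 536870912 1610612736 536870912 536870912 50465866 3 eng mog cd5q2 cd1q3 pd1 false true false .pnn 2 1 3
    ndB5q2 ndB1q3 pcB1 Cut.none Ext.none :=
  certB2 (fam := false) (s1 := true) (s2 := false) (a := 2) (b := 1) (c := 3) (cn := .pnn) (n1 := ndB5q2) (n2 := ndB1q3) (pc := pcB1) (cut := Cut.none) (xt := Ext.none) (P1 := 1073741824) (W1 := 536870912) (P2 := 1610612736) (W2 := 536870912) (P3 := 536870912) (W3 := 50465866) (N0 := 3) (En := eng) (mo := mog) (C1 := cd5q2) (C2 := cd1q3) (C3 := pd1)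
    rfl (fun _ => rfl) k0_pm_213

noncomputable def f_pm_303 : ℕ → ℕ → ℕ → ℕ → Bool := onCell 0 1230186008 1610612736 536870912 536870912 50465866
    (rowB 3 eng mog cd5q3 cd1q3 pd0 0 false true false .npn 3 0 3 (qsf 0 1230186008 1610612736 536870912 0) ndB5q3 ndB1q3 pcB0 Cut.none Ext.none)

def k0_pm_303 : ∃ t, chk3 f_pm_303 t 1 1 1 = true :=
  ⟨(a (l 3) (a (l 3) (a (l 3) (b (l 3) (a (l 3) (a (l 3) (b (l 3) (l 1115248685111)))))))), by decide +kernel⟩

theorem c_pm_303 : CertB 0 1230186008 1610612736 536870912 536870912 50465866 3 eng mog cd5q3 cd1q3 pd0 false true false .npn 3 0 3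
    ndB5q3 ndB1q3 pcB0 Cut.none Ext.none :=
  certB0 (fam := false) (s1 := true) (s2 := false) (a := 3) (b := 0) (c := 3) (cn := .npn) (n1 := ndB5q3) (n2 := ndB1q3) (pc := pcB0) (cut := Cut.none) (xt := Ext.none) (P1 := 0) (W1 := 1230186008) (P2 := 1610612736) (W2 := 536870912) (P3 := 536870912) (W3 := 50465866) (N0 := 3) (En := eng) (mo := mog) (C1 := cd5q3) (C2 := cd1q3) (C3 := pd0)
    rfl k0_pm_303

noncomputable def f_pm_313 : ℕ → ℕ → ℕ → ℕ → Bool := onCell 0 1230186008 1610612736 536870912 536870912 50465866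
    (rowB 3 eng mog cd5q3 cd1q3 pd1 0 false true false .dn 3 1 3 (qsf 0 1230186008 1610612736 536870912 1) ndB5q3 ndB1q3 pcB1 Cut.none Ext.none)

def k0_pm_313 : ∃ t, chk3 f_pm_313 t 1 1 1 = true :=
  ⟨(a (l 1) (a (l 1) (b (l 1) (a (l 1) (b (l 1) (a (l 1) (b (l 1) (l 607234987911)))))))), by decide +kernel⟩

theorem c_pm_313 : CertB 0 1230186008 1610612736 536870912 536870912 50465866 3 eng mog cd5q3 cd1q3 pd1 false true false .dn 3 1 3
    ndB5q3 ndB1q3 pcB1 Cut.none Ext.none :=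
  certB0 (fam := false) (s1 := true) (s2 := false) (a := 3) (b := 1) (c := 3) (cn := .dn) (n1 := ndB5q3) (n2 := ndB1q3) (pc := pcB1) (cut := Cut.none) (xt := Ext.none) (P1 := 0) (W1 := 1230186008) (P2 := 1610612736) (W2 := 536870912) (P3 := 536870912) (W3 := 50465866) (N0 := 3) (En := eng) (mo := mog) (C1 := cd5q3) (C2 := cd1q3) (C3 := pd1)
    rfl k0_pm_313

noncomputable def f_mm_001 : ℕ → ℕ → ℕ → ℕ → Bool := onCell 0 536870912 536870912 536870912 536870912 50465866
    (rowB 3 eng mog cd5q0 cd1q1 pd0 0 false false false .up 0 0 1 (qsf 0 536870912 536870912 536870912 0) ndB5q0 ndB1q1 pcB0 Cut.none Ext.none)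

def k0_mm_001 : ∃ t, chk3 f_mm_001 t 1 1 1 = true :=
  ⟨(l 5), by decide +kernel⟩

theorem c_mm_001 : CertB 0 536870912 536870912 536870912 536870912 50465866 3 eng mog cd5q0 cd1q1 pd0 false false false .up 0 0 1
    ndB5q0 ndB1q1 pcB0 Cut.none Ext.none :=
  certB0 (fam := false) (s1 := false) (s2 := false) (a := 0) (b := 0) (c := 1) (cn := .up) (n1 := ndB5q0) (n2 := ndB1q1) (pc := pcB0) (cut := Cut.none) (xt := Ext.none) (P1 := 0) (W1 := 536870912) (P2 := 536870912) (W2 := 536870912) (P3 := 536870912) (W3 := 50465866) (N0 := 3) (En := eng) (mo := mog) (C1 := cd5q0) (C2 := cd1q1) (C3 := pd0)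
    rfl k0_mm_001

noncomputable def f_mm_011 : ℕ → ℕ → ℕ → ℕ → Bool := onCell 0 536870912 536870912 536870912 536870912 50465866
    (rowB 3 eng mog cd5q0 cd1q1 pd1 0 false false false .pnn 0 1 1 (qsf 0 536870912 536870912 536870912 1) ndB5q0 ndB1q1 pcB1 Cut.none Ext.none)

def k0_mm_011 : ∃ t, chk3 f_mm_011 t 1 1 1 = true :=
  ⟨(l 5), by decide +kernel⟩

theorem c_mm_011 : CertB 0 536870912 536870912 536870912 536870912 50465866 3 eng mog cd5q0 cd1q1 pd1 false false false .pnn 0 1 1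
    ndB5q0 ndB1q1 pcB1 Cut.none Ext.none :=
  certB0 (fam := false) (s1 := false) (s2 := false) (a := 0) (b := 1) (c := 1) (cn := .pnn) (n1 := ndB5q0) (n2 := ndB1q1) (pc := pcB1) (cut := Cut.none) (xt := Ext.none) (P1 := 0) (W1 := 536870912) (P2 := 536870912) (W2 := 536870912) (P3 := 536870912) (W3 := 50465866) (N0 := 3) (En := eng) (mo := mog) (C1 := cd5q0) (C2 := cd1q1) (C3 := pd1)
    rfl k0_mm_011

noncomputable def f_mm_012_a : ℕ → ℕ → ℕ → ℕ → Bool := onCell 0 536870912 0 536870912 536870912 50465866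
    (rowB 3 eng mog cd5q0 cd1q2a pd1 0 false false false .pnp 0 1 2 (qsf 0 536870912 0 536870912 1) ndB5q0 ndB1q2a pcB1 Cut.none Ext.none)

def k0_mm_012_a : ∃ t, chk3 f_mm_012_a t 1 1 1 = true :=
  ⟨(l 5), by decide +kernel⟩

theorem c_mm_012_a : CertB 0 536870912 0 536870912 536870912 50465866 3 eng mog cd5q0 cd1q2a pd1 false false false .pnp 0 1 2
    ndB5q0 ndB1q2a pcB1 Cut.none Ext.none :=
  certB0 (fam := false) (s1 := false) (s2 := false) (a := 0) (b := 1) (c := 2) (cn := .pnp) (n1 := ndB5q0) (n2 := ndB1q2a) (pc := pcB1) (cut := Cut.none) (xt := Ext.none) (P1 := 0) (W1 := 536870912) (P2 := 0) (W2 := 536870912) (P3 := 536870912) (W3 := 50465866) (N0 := 3) (En := eng) (mo := mog) (C1 := cd5q0) (C2 := cd1q2a) (C3 := pd1)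
    rfl k0_mm_012_a

noncomputable def f_mm_012_b : ℕ → ℕ → ℕ → ℕ → Bool := onCell 0 536870912 1239849684 370763052 536870912 50465866
    (rowB 3 eng mog cd5q0 cd1q2b pd1 0 false false false .pnp 0 1 2 (qsf 0 536870912 1239849684 370763052 1) ndB5q0 ndB1q2b pcB1 Cut.none Ext.none)

def k0_mm_012_b : ∃ t, chk3 f_mm_012_b t 1 1 1 = true :=
  ⟨(l 5), by decide +kernel⟩

theorem c_mm_012_b : CertB 0 536870912 1239849684 370763052 536870912 50465866 3 eng mog cd5q0 cd1q2b pd1 false false false .pnp 0 1 2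
    ndB5q0 ndB1q2b pcB1 Cut.none Ext.none :=
  certB0 (fam := false) (s1 := false) (s2 := false) (a := 0) (b := 1) (c := 2) (cn := .pnp) (n1 := ndB5q0) (n2 := ndB1q2b) (pc := pcB1) (cut := Cut.none) (xt := Ext.none) (P1 := 0) (W1 := 536870912) (P2 := 1239849684) (W2 := 370763052) (P3 := 536870912) (W3 := 50465866) (N0 := 3) (En := eng) (mo := mog) (C1 := cd5q0) (C2 := cd1q2b) (C3 := pd1)
    rfl k0_mm_012_b

noncomputable def f_mm_022_a : ℕ → ℕ → ℕ → ℕ → Bool := onCell 0 536870912 0 536870912 536870912 50465866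
    (rowB 3 eng mog cd5q0 cd1q2a pd2 0 false false false .pp 0 2 2 (qsf 0 536870912 0 536870912 2) ndB5q0 ndB1q2a pcB2 Cut.none Ext.none)

def k0_mm_022_a : ∃ t, chk3 f_mm_022_a t 1 1 1 = true :=
  ⟨(l 5), by decide +kernel⟩

theorem c_mm_022_a : CertB 0 536870912 0 536870912 536870912 50465866 3 eng mog cd5q0 cd1q2a pd2 false false false .pp 0 2 2
    ndB5q0 ndB1q2a pcB2 Cut.none Ext.none :=
  certB0 (fam := false) (s1 := false) (s2 := false) (a := 0) (b := 2) (c := 2) (cn := .pp) (n1 := ndB5q0) (n2 := ndB1q2a) (pc := pcB2) (cut := Cut.none) (xt := Ext.none) (P1 := 0) (W1 := 536870912) (P2 := 0) (W2 := 536870912) (P3 := 536870912) (W3 := 50465866) (N0 := 3) (En := eng) (mo := mog) (C1 := cd5q0) (C2 := cd1q2a) (C3 := pd2)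
    rfl k0_mm_022_a

noncomputable def f_mm_022_b : ℕ → ℕ → ℕ → ℕ → Bool := onCell 0 536870912 1239849684 370763052 536870912 50465866
    (rowB 3 eng mog cd5q0 cd1q2b pd2 0 false false false .pp 0 2 2 (qsf 0 536870912 1239849684 370763052 2) ndB5q0 ndB1q2b pcB2 Cut.none Ext.none)

def k0_mm_022_b : ∃ t, chk3 f_mm_022_b t 1 1 1 = true :=
  ⟨(l 5), by decide +kernel⟩

theorem c_mm_022_b : CertB 0 536870912 1239849684 370763052 536870912 50465866 3 eng mog cd5q0 cd1q2b pd2 false false false .pp 0 2 2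
    ndB5q0 ndB1q2b pcB2 Cut.none Ext.none :=
  certB0 (fam := false) (s1 := false) (s2 := false) (a := 0) (b := 2) (c := 2) (cn := .pp) (n1 := ndB5q0) (n2 := ndB1q2b) (pc := pcB2) (cut := Cut.none) (xt := Ext.none) (P1 := 0) (W1 := 536870912) (P2 := 1239849684) (W2 := 370763052) (P3 := 536870912) (W3 := 50465866) (N0 := 3) (En := eng) (mo := mog) (C1 := cd5q0) (C2 := cd1q2b) (C3 := pd2)
    rfl k0_mm_022_b

noncomputable def f_mm_023 : ℕ → ℕ → ℕ → ℕ → Bool := onCell 0 536870912 1610612736 536870912 536870912 50465866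
    (rowB 3 eng mog cd5q0 cd1q3 pd2 0 false false false .up 0 2 3 (qsf 0 536870912 1610612736 536870912 2) ndB5q0 ndB1q3 pcB2 Cut.none Ext.none)

def k0_mm_023 : ∃ t, chk3 f_mm_023 t 1 1 1 = true :=
  ⟨(l 5), by decide +kernel⟩

theorem c_mm_023 : CertB 0 536870912 1610612736 536870912 536870912 50465866 3 eng mog cd5q0 cd1q3 pd2 false false false .up 0 2 3
    ndB5q0 ndB1q3 pcB2 Cut.none Ext.none :=
  certB0 (fam := false) (s1 := false) (s2 := false) (a := 0) (b := 2) (c := 3) (cn := .up) (n1 := ndB5q0) (n2 := ndB1q3) (pc := pcB2) (cut := Cut.none) (xt := Ext.none) (P1 := 0) (W1 := 536870912) (P2 := 1610612736) (W2 := 536870912) (P3 := 536870912) (W3 := 50465866) (N0 := 3) (En := eng) (mo := mog) (C1 := cd5q0) (C2 := cd1q3) (C3 := pd2)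
    rfl k0_mm_023

noncomputable def f_mm_033 : ℕ → ℕ → ℕ → ℕ → Bool := onCell 0 536870912 1610612736 536870912 536870912 50465866
    (rowB 3 eng mog cd5q0 cd1q3 pd3 0 false false false .pnn 0 3 3 (qsf 0 536870912 1610612736 536870912 3) ndB5q0 ndB1q3 pcB3 Cut.none Ext.none)

def k0_mm_033 : ∃ t, chk3 f_mm_033 t 1 1 1 = true :=
  ⟨(l 5), by decide +kernel⟩

theorem c_mm_033 : CertB 0 536870912 1610612736 536870912 536870912 50465866 3 eng mog cd5q0 cd1q3 pd3 false false false .pnn 0 3 3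
    ndB5q0 ndB1q3 pcB3 Cut.none Ext.none :=
  certB0 (fam := false) (s1 := false) (s2 := false) (a := 0) (b := 3) (c := 3) (cn := .pnn) (n1 := ndB5q0) (n2 := ndB1q3) (pc := pcB3) (cut := Cut.none) (xt := Ext.none) (P1 := 0) (W1 := 536870912) (P2 := 1610612736) (W2 := 536870912) (P3 := 536870912) (W3 := 50465866) (N0 := 3) (En := eng) (mo := mog) (C1 := cd5q0) (C2 := cd1q3) (C3 := pd3)
    rfl k0_mm_033

noncomputable def f_mm_101 : ℕ → ℕ → ℕ → ℕ → Bool := onCell 0 536870912 536870912 536870912 536870912 50465866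
    (rowB 3 eng mog cd5q1 cd1q1 pd0 2 false false false .npn 1 0 1 (qsf 536870912 536870912 536870912 536870912 0) ndB5q1 ndB1q1 pcB0 Cut.none Ext.none)

def k0_mm_101 : ∃ t, chk3 f_mm_101 t 1 1 1 = true :=
  ⟨(l 5), by decide +kernel⟩

theorem c_mm_101 : CertB 536870912 536870912 536870912 536870912 536870912 50465866 3 eng mog cd5q1 cd1q1 pd0 false false false .npn 1 0 1
    ndB5q1 ndB1q1 pcB0 Cut.none Ext.none :=
  certB2 (fam := false) (s1 := false) (s2 := false) (a := 1) (b := 0) (c := 1) (cn := .npn) (n1 := ndB5q1) (n2 := ndB1q1) (pc := pcB0) (cut := Cut.none) (xt := Ext.none) (P1 := 536870912) (W1 := 536870912) (P2 := 536870912) (W2 := 536870912) (P3 := 536870912) (W3 := 50465866) (N0 := 3) (En := eng) (mo := mog) (C1 := cd5q1) (C2 := cd1q1) (C3 := pd0)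
    rfl (fun _ => rfl) k0_mm_101

noncomputable def f_mm_102_a : ℕ → ℕ → ℕ → ℕ → Bool := onCell 536870912 536870912 0 536870912 536870912 50465866
    (rowB 3 eng mog cd5q1 cd1q2a pd0 0 false false false .npp 1 0 2 (qsf 536870912 536870912 0 536870912 0) ndB5q1 ndB1q2a pcB0 Cut.none Ext.none)

def k0_mm_102_a : ∃ t, chk3 f_mm_102_a t 1 1 1 = true :=
  ⟨(l 5), by decide +kernel⟩

theorem c_mm_102_a : CertB 536870912 536870912 0 536870912 536870912 50465866 3 eng mog cd5q1 cd1q2a pd0 false false false .npp 1 0 2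
    ndB5q1 ndB1q2a pcB0 Cut.none Ext.none :=
  certB0 (fam := false) (s1 := false) (s2 := false) (a := 1) (b := 0) (c := 2) (cn := .npp) (n1 := ndB5q1) (n2 := ndB1q2a) (pc := pcB0) (cut := Cut.none) (xt := Ext.none) (P1 := 536870912) (W1 := 536870912) (P2 := 0) (W2 := 536870912) (P3 := 536870912) (W3 := 50465866) (N0 := 3) (En := eng) (mo := mog) (C1 := cd5q1) (C2 := cd1q2a) (C3 := pd0)
    rfl k0_mm_102_a

noncomputable def f_mm_102_b : ℕ → ℕ → ℕ → ℕ → Bool := onCell 536870912 536870912 1239849684 370763052 536870912 50465866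
    (rowB 3 eng mog cd5q1 cd1q2b pd0 0 false false false .npp 1 0 2 (qsf 536870912 536870912 1239849684 370763052 0) ndB5q1 ndB1q2b pcB0 Cut.none Ext.none)

def k0_mm_102_b : ∃ t, chk3 f_mm_102_b t 1 1 1 = true :=
  ⟨(l 5), by decide +kernel⟩

theorem c_mm_102_b : CertB 536870912 536870912 1239849684 370763052 536870912 50465866 3 eng mog cd5q1 cd1q2b pd0 false false false .npp 1 0 2
    ndB5q1 ndB1q2b pcB0 Cut.none Ext.none :=
  certB0 (fam := false) (s1 := false) (s2 := false) (a := 1) (b := 0) (c := 2) (cn := .npp) (n1 := ndB5q1) (n2 := ndB1q2b) (pc := pcB0) (cut := Cut.none) (xt := Ext.none) (P1 := 536870912) (W1 := 536870912) (P2 := 1239849684) (W2 := 370763052) (P3 := 536870912) (W3 := 50465866) (N0 := 3) (En := eng) (mo := mog) (C1 := cd5q1) (C2 := cd1q2b) (C3 := pd0)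
    rfl k0_mm_102_b

noncomputable def f_mm_112_a : ℕ → ℕ → ℕ → ℕ → Bool := onCell 536870912 536870912 0 536870912 536870912 50465866
    (rowB 3 eng mog cd5q1 cd1q2a pd1 0 false false false .dn 1 1 2 (qsf 536870912 536870912 0 536870912 1) ndB5q1 ndB1q2a pcB1 Cut.none Ext.none)

def k0_mm_112_a : ∃ t, chk3 f_mm_112_a t 1 1 1 = true :=
  ⟨(l 5), by decide +kernel⟩

theorem c_mm_112_a : CertB 536870912 536870912 0 536870912 536870912 50465866 3 eng mog cd5q1 cd1q2a pd1 false false false .dn 1 1 2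
    ndB5q1 ndB1q2a pcB1 Cut.none Ext.none :=
  certB0 (fam := false) (s1 := false) (s2 := false) (a := 1) (b := 1) (c := 2) (cn := .dn) (n1 := ndB5q1) (n2 := ndB1q2a) (pc := pcB1) (cut := Cut.none) (xt := Ext.none) (P1 := 536870912) (W1 := 536870912) (P2 := 0) (W2 := 536870912) (P3 := 536870912) (W3 := 50465866) (N0 := 3) (En := eng) (mo := mog) (C1 := cd5q1) (C2 := cd1q2a) (C3 := pd1)
    rfl k0_mm_112_a

noncomputable def f_mm_112_b : ℕ → ℕ → ℕ → ℕ → Bool := onCell 536870912 536870912 1239849684 370763052 536870912 50465866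
    (rowB 3 eng mog cd5q1 cd1q2b pd1 0 false false false .dn 1 1 2 (qsf 536870912 536870912 1239849684 370763052 1) ndB5q1 ndB1q2b pcB1 Cut.none Ext.none)

def k0_mm_112_b : ∃ t, chk3 f_mm_112_b t 1 1 1 = true :=
  ⟨(l 5), by decide +kernel⟩

theorem c_mm_112_b : CertB 536870912 536870912 1239849684 370763052 536870912 50465866 3 eng mog cd5q1 cd1q2b pd1 false false false .dn 1 1 2
    ndB5q1 ndB1q2b pcB1 Cut.none Ext.none :=
  certB0 (fam := false) (s1 := false) (s2 := false) (a := 1) (b := 1) (c := 2) (cn := .dn) (n1 := ndB5q1) (n2 := ndB1q2b) (pc := pcB1) (cut := Cut.none) (xt := Ext.none) (P1 := 536870912) (W1 := 536870912) (P2 := 1239849684) (W2 := 370763052) (P3 := 536870912) (W3 := 50465866) (N0 := 3) (En := eng) (mo := mog) (C1 := cd5q1) (C2 := cd1q2b) (C3 := pd1)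
    rfl k0_mm_112_b

noncomputable def f_mm_113 : ℕ → ℕ → ℕ → ℕ → Bool := onCell 536870912 536870912 1610612736 536870912 536870912 50465866
    (rowB 3 eng mog cd5q1 cd1q3 pd1 0 false false false .nn 1 1 3 (qsf 536870912 536870912 1610612736 536870912 1) ndB5q1 ndB1q3 pcB1 Cut.none Ext.none)

def k0_mm_113 : ∃ t, chk3 f_mm_113 t 1 1 1 = true :=
  ⟨(l 5), by decide +kernel⟩

theorem c_mm_113 : CertB 536870912 536870912 1610612736 536870912 536870912 50465866 3 eng mog cd5q1 cd1q3 pd1 false false false .nn 1 1 3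
    ndB5q1 ndB1q3 pcB1 Cut.none Ext.none :=
  certB0 (fam := false) (s1 := false) (s2 := false) (a := 1) (b := 1) (c := 3) (cn := .nn) (n1 := ndB5q1) (n2 := ndB1q3) (pc := pcB1) (cut := Cut.none) (xt := Ext.none) (P1 := 536870912) (W1 := 536870912) (P2 := 1610612736) (W2 := 536870912) (P3 := 536870912) (W3 := 50465866) (N0 := 3) (En := eng) (mo := mog) (C1 := cd5q1) (C2 := cd1q3) (C3 := pd1)
    rfl k0_mm_113

noncomputable def f_mm_123 : ℕ → ℕ → ℕ → ℕ → Bool := onCell 536870912 536870912 1610612736 536870912 536870912 50465866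
    (rowB 3 eng mog cd5q1 cd1q3 pd2 0 false false false .npn 1 2 3 (qsf 536870912 536870912 1610612736 536870912 2) ndB5q1 ndB1q3 pcB2 Cut.none Ext.none)

def k0_mm_123 : ∃ t, chk3 f_mm_123 t 1 1 1 = true :=
  ⟨(l 5), by decide +kernel⟩

theorem c_mm_123 : CertB 536870912 536870912 1610612736 536870912 536870912 50465866 3 eng mog cd5q1 cd1q3 pd2 false false false .npn 1 2 3
    ndB5q1 ndB1q3 pcB2 Cut.none Ext.none :=
  certB0 (fam := false) (s1 := false) (s2 := false) (a := 1) (b := 2) (c := 3) (cn := .npn) (n1 := ndB5q1) (n2 := ndB1q3) (pc := pcB2) (cut := Cut.none) (xt := Ext.none) (P1 := 536870912) (W1 := 536870912) (P2 := 1610612736) (W2 := 536870912) (P3 := 536870912) (W3 := 50465866) (N0 := 3) (En := eng) (mo := mog) (C1 := cd5q1) (C2 := cd1q3) (C3 := pd2)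
    rfl k0_mm_123

noncomputable def f_mm_133 : ℕ → ℕ → ℕ → ℕ → Bool := onCell 536870912 536870912 1610612736 536870912 536870912 50465866
    (rowB 3 eng mog cd5q1 cd1q3 pd3 0 false false false .dn 1 3 3 (qsf 536870912 536870912 1610612736 536870912 3) ndB5q1 ndB1q3 pcB3 Cut.none Ext.none)

def k0_mm_133 : ∃ t, chk3 f_mm_133 t 1 1 1 = true :=
  ⟨(l 5), by decide +kernel⟩

theorem c_mm_133 : CertB 536870912 536870912 1610612736 536870912 536870912 50465866 3 eng mog cd5q1 cd1q3 pd3 false false false .dn 1 3 3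
    ndB5q1 ndB1q3 pcB3 Cut.none Ext.none :=
  certB0 (fam := false) (s1 := false) (s2 := false) (a := 1) (b := 3) (c := 3) (cn := .dn) (n1 := ndB5q1) (n2 := ndB1q3) (pc := pcB3) (cut := Cut.none) (xt := Ext.none) (P1 := 536870912) (W1 := 536870912) (P2 := 1610612736) (W2 := 536870912) (P3 := 536870912) (W3 := 50465866) (N0 := 3) (En := eng) (mo := mog) (C1 := cd5q1) (C2 := cd1q3) (C3 := pd3)
    rfl k0_mm_133

noncomputable def f_mm_202_a : ℕ → ℕ → ℕ → ℕ → Bool := onCell 1073741824 536870912 0 536870912 536870912 50465866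
    (rowB 3 eng mog cd5q2 cd1q2a pd0 0 false false false .pp 2 0 2 (qsf 1073741824 536870912 0 536870912 0) ndB5q2 ndB1q2a pcB0 Cut.none Ext.none)

def k0_mm_202_a : ∃ t, chk3 f_mm_202_a t 1 1 1 = true :=
  ⟨(l 5), by decide +kernel⟩

theorem c_mm_202_a : CertB 1073741824 536870912 0 536870912 536870912 50465866 3 eng mog cd5q2 cd1q2a pd0 false false false .pp 2 0 2
    ndB5q2 ndB1q2a pcB0 Cut.none Ext.none :=
  certB0 (fam := false) (s1 := false) (s2 := false) (a := 2) (b := 0) (c := 2) (cn := .pp) (n1 := ndB5q2) (n2 := ndB1q2a) (pc := pcB0) (cut := Cut.none) (xt := Ext.none) (P1 := 1073741824) (W1 := 536870912) (P2 := 0) (W2 := 536870912) (P3 := 536870912) (W3 := 50465866) (N0 := 3) (En := eng) (mo := mog) (C1 := cd5q2) (C2 := cd1q2a) (C3 := pd0)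
    rfl k0_mm_202_a

noncomputable def f_mm_202_b : ℕ → ℕ → ℕ → ℕ → Bool := onCell 1073741824 536870912 1239849684 370763052 536870912 50465866
    (rowB 3 eng mog cd5q2 cd1q2b pd0 0 false false false .pp 2 0 2 (qsf 1073741824 536870912 1239849684 370763052 0) ndB5q2 ndB1q2b pcB0 Cut.none Ext.none)

def k0_mm_202_b : ∃ t, chk3 f_mm_202_b t 1 1 1 = true :=
  ⟨(l 5), by decide +kernel⟩

theorem c_mm_202_b : CertB 1073741824 536870912 1239849684 370763052 536870912 50465866 3 eng mog cd5q2 cd1q2b pd0 false false false .pp 2 0 2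
    ndB5q2 ndB1q2b pcB0 Cut.none Ext.none :=
  certB0 (fam := false) (s1 := false) (s2 := false) (a := 2) (b := 0) (c := 2) (cn := .pp) (n1 := ndB5q2) (n2 := ndB1q2b) (pc := pcB0) (cut := Cut.none) (xt := Ext.none) (P1 := 1073741824) (W1 := 536870912) (P2 := 1239849684) (W2 := 370763052) (P3 := 536870912) (W3 := 50465866) (N0 := 3) (En := eng) (mo := mog) (C1 := cd5q2) (C2 := cd1q2b) (C3 := pd0)
    rfl k0_mm_202_b

noncomputable def f_mm_203 : ℕ → ℕ → ℕ → ℕ → Bool := onCell 1073741824 536870912 1610612736 536870912 536870912 50465866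
    (rowB 3 eng mog cd5q2 cd1q3 pd0 0 false false false .up 2 0 3 (qsf 1073741824 536870912 1610612736 536870912 0) ndB5q2 ndB1q3 pcB0 Cut.none Ext.none)

def k0_mm_203 : ∃ t, chk3 f_mm_203 t 1 1 1 = true :=
  ⟨(l 5), by decide +kernel⟩

theorem c_mm_203 : CertB 1073741824 536870912 1610612736 536870912 536870912 50465866 3 eng mog cd5q2 cd1q3 pd0 false false false .up 2 0 3
    ndB5q2 ndB1q3 pcB0 Cut.none Ext.none :=
  certB0 (fam := false) (s1 := false) (s2 := false) (a := 2) (b := 0) (c := 3) (cn := .up) (n1 := ndB5q2) (n2 := ndB1q3) (pc := pcB0) (cut := Cut.none) (xt := Ext.none) (P1 := 1073741824) (W1 := 536870912) (P2 := 1610612736) (W2 := 536870912) (P3 := 536870912) (W3 := 50465866) (N0 := 3) (En := eng) (mo := mog) (C1 := cd5q2) (C2 := cd1q3) (C3 := pd0)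
    rfl k0_mm_203

noncomputable def f_mm_213 : ℕ → ℕ → ℕ → ℕ → Bool := onCell 1073741824 536870912 1610612736 536870912 536870912 50465866
    (rowB 3 eng mog cd5q2 cd1q3 pd1 0 false false false .pnn 2 1 3 (qsf 1073741824 536870912 1610612736 536870912 1) ndB5q2 ndB1q3 pcB1 Cut.none Ext.none)

def k0_mm_213 : ∃ t, chk3 f_mm_213 t 1 1 1 = true :=
  ⟨(l 5), by decide +kernel⟩

theorem c_mm_213 : CertB 1073741824 536870912 1610612736 536870912 536870912 50465866 3 eng mog cd5q2 cd1q3 pd1 false false false .pnn 2 1 3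
    ndB5q2 ndB1q3 pcB1 Cut.none Ext.none :=
  certB0 (fam := false) (s1 := false) (s2 := false) (a := 2) (b := 1) (c := 3) (cn := .pnn) (n1 := ndB5q2) (n2 := ndB1q3) (pc := pcB1) (cut := Cut.none) (xt := Ext.none) (P1 := 1073741824) (W1 := 536870912) (P2 := 1610612736) (W2 := 536870912) (P3 := 536870912) (W3 := 50465866) (N0 := 3) (En := eng) (mo := mog) (C1 := cd5q2) (C2 := cd1q3) (C3 := pd1)
    rfl k0_mm_213

noncomputable def f_mm_303 : ℕ → ℕ → ℕ → ℕ → Bool := onCell 0 1230186008 1610612736 536870912 536870912 50465866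
    (rowB 3 eng mog cd5q3 cd1q3 pd0 0 false false false .npn 3 0 3 (qsf 0 1230186008 1610612736 536870912 0) ndB5q3 ndB1q3 pcB0 Cut.none Ext.none)

def k0_mm_303 : ∃ t, chk3 f_mm_303 t 1 1 1 = true :=
  ⟨(a (l 3) (l 5)), by decide +kernel⟩

theorem c_mm_303 : CertB 0 1230186008 1610612736 536870912 536870912 50465866 3 eng mog cd5q3 cd1q3 pd0 false false false .npn 3 0 3
    ndB5q3 ndB1q3 pcB0 Cut.none Ext.none :=
  certB0 (fam := false) (s1 := false) (s2 := false) (a := 3) (b := 0) (c := 3) (cn := .npn) (n1 := ndB5q3) (n2 := ndB1q3) (pc := pcB0) (cut := Cut.none) (xt := Ext.none) (P1 := 0) (W1 := 1230186008) (P2 := 1610612736) (W2 := 536870912) (P3 := 536870912) (W3 := 50465866) (N0 := 3) (En := eng) (mo := mog) (C1 := cd5q3) (C2 := cd1q3) (C3 := pd0)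
    rfl k0_mm_303

noncomputable def f_mm_313 : ℕ → ℕ → ℕ → ℕ → Bool := onCell 0 1230186008 1610612736 536870912 536870912 50465866
    (rowB 3 eng mog cd5q3 cd1q3 pd1 0 false false false .dn 3 1 3 (qsf 0 1230186008 1610612736 536870912 1) ndB5q3 ndB1q3 pcB1 Cut.none Ext.none)

def k0_mm_313 : ∃ t, chk3 f_mm_313 t 1 1 1 = true :=
  ⟨(a (l 1) (l 5)), by decide +kernel⟩

theorem c_mm_313 : CertB 0 1230186008 1610612736 536870912 536870912 50465866 3 eng mog cd5q3 cd1q3 pd1 false false false .dn 3 1 3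
    ndB5q3 ndB1q3 pcB1 Cut.none Ext.none :=
  certB0 (fam := false) (s1 := false) (s2 := false) (a := 3) (b := 1) (c := 3) (cn := .dn) (n1 := ndB5q3) (n2 := ndB1q3) (pc := pcB1) (cut := Cut.none) (xt := Ext.none) (P1 := 0) (W1 := 1230186008) (P2 := 1610612736) (W2 := 536870912) (P3 := 536870912) (W3 := 50465866) (N0 := 3) (En := eng) (mo := mog) (C1 := cd5q3) (C2 := cd1q3) (C3 := pd1)
    rfl k0_mm_313

end Pool.Agent.Strip051.G.I5000_5470.Tab.C.BB51

namespace Pool.Agent.Strip051.G.I5000_5470.Tab.C.BB52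

open Pool.Agent.Strip051.PB Pool.Agent.Strip051.PB.T
open Pool.Agent.Strip051.G.I5000_5470.Tab

noncomputable def f_pp_001 : ℕ → ℕ → ℕ → ℕ → Bool := onCell 0 536870912 0 536870912 536870912 50465866
    (rowB 3 eng mog cd5q0 cd2q1 pd0 1 false true true .up 0 0 1 (qsf 0 536870912 536870912 536870912 0) ndB5q0 ndB2q1 pcB0 Cut.none Ext.none)

def k0_pp_001 : ∃ t, chk3 f_pp_001 t 1 1 1 = true :=
  ⟨(l 3), by decide +kernel⟩

theorem c_pp_001 : CertB 0 536870912 536870912 536870912 536870912 50465866 3 eng mog cd5q0 cd2q1 pd0 false true true .up 0 0 1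
    ndB5q0 ndB2q1 pcB0 Cut.none Ext.none :=
  certB1 (fam := false) (s1 := true) (s2 := true) (a := 0) (b := 0) (c := 1) (cn := .up) (n1 := ndB5q0) (n2 := ndB2q1) (pc := pcB0) (cut := Cut.none) (xt := Ext.none) (P1 := 0) (W1 := 536870912) (P2 := 536870912) (W2 := 536870912) (P3 := 536870912) (W3 := 50465866) (N0 := 3) (En := eng) (mo := mog) (C1 := cd5q0) (C2 := cd2q1) (C3 := pd0)
    rfl (fun _ => rfl) k0_pp_001

noncomputable def f_pp_011 : ℕ → ℕ → ℕ → ℕ → Bool := onCell 0 536870912 536870912 536870912 536870912 50465866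
    (rowB 3 eng mog cd5q0 cd2q1 pd1 0 false true true .pnn 0 1 1 (qsf 0 536870912 536870912 536870912 1) ndB5q0 ndB2q1 pcB1 Cut.none Ext.none)

def k0_pp_011 : ∃ t, chk3 f_pp_011 t 1 1 1 = true :=
  ⟨(a (b (l 3) (b (l 3) (b (l 3) (a (a (b (b (a (a (l 82308802487) (l 3)) (l 3)) (a (a (b (l 16693624) (l 16690320)) (b (l 16693616) (l 16689472))) (a (l 80161303143) (l 63518297591)))) (a (b (a (l 16690400) (l 16683144)) (l 16674072)) (b (a (l 16678808) (l 80161270679)) (a (l 16665048) (l 16657352))))) (b (l 3) (a (b (a (b (l 16672904) (l 16664336)) (l 71571323607)) (a (l 16649760) (l 16643024))) (b (l 3) (a (l 16637400) (l 16633392)))))) (a (b (l 3) (a (b (l 3) (l 83382581719)) (l 3))) (l 3)))))) (l 3)), by decide +kernel⟩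

theorem c_pp_011 : CertB 0 536870912 536870912 536870912 536870912 50465866 3 eng mog cd5q0 cd2q1 pd1 false true true .pnn 0 1 1
    ndB5q0 ndB2q1 pcB1 Cut.none Ext.none :=
  certB0 (fam := false) (s1 := true) (s2 := true) (a := 0) (b := 1) (c := 1) (cn := .pnn) (n1 := ndB5q0) (n2 := ndB2q1) (pc := pcB1) (cut := Cut.none) (xt := Ext.none) (P1 := 0) (W1 := 536870912) (P2 := 536870912) (W2 := 536870912) (P3 := 536870912) (W3 := 50465866) (N0 := 3) (En := eng) (mo := mog) (C1 := cd5q0) (C2 := cd2q1) (C3 := pd1)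
    rfl k0_pp_011

noncomputable def f_pp_012_a : ℕ → ℕ → ℕ → ℕ → Bool := onCell 536870912 536870912 0 536870912 536870912 50465866
    (rowB 3 eng mog cd5q0 cd2q2a pd1 2 false true true .pnp 0 1 2 (qsf 0 536870912 0 536870912 1) ndB5q0 ndB2q2a pcB1 Cut.none Ext.none)

def k0_pp_012_a : ∃ t, chk3 f_pp_012_a t 1 1 1 = true :=
  ⟨(a (a (b (a (l 2) (b (l 2) (l 16671232))) (b (a (l 2) (l 16614056)) (a (b (l 16500960) (l 16522960)) (b (l 16543512) (l 16518312))))) (b (a (b (l 16717952) (l 16698296)) (b (l 16726064) (l 16712424))) (b (a (a (l 16643416) (l 16658304)) (l 16673368)) (a (b (l 16650080) (a (l 16511904) (l 16531480))) (b (l 16614576) (a (l 16540376) (l 16552568))))))) (b (a (b (l 16769648) (a (l 16722280) (l 16724504))) (b (a (l 16707360) (l 16677968)) (a (l 16715432) (l 16691144)))) (a (b (a (l 16693576) (l 16707344)) (b (a (l 16641392) (l 16666616)) (a (b (l 16596720) (l 16555192)) (b (l 16629232) (a (l 16582144) (l 16600808)))))) (b (a (l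 16711216) (b (l 16698328) (l 16698608))) (b (a (l 16687224) (a (l 16693976) (l 16688432))) (a (b (l 16660400) (a (l 16620056) (l 16639376))) (b (a (l 16678488) (a (l 16682520) (l 16679960))) (a (b (l 16664320) (l 16649664)) (a (b (l 16674112) (l 16664224)) (b (l 16674712) (a (l 16631024) (l 16671704)))))))))))), by decide +kernel⟩

theorem c_pp_012_a : CertB 0 536870912 0 536870912 536870912 50465866 3 eng mog cd5q0 cd2q2a pd1 false true true .pnp 0 1 2
    ndB5q0 ndB2q2a pcB1 Cut.none Ext.none :=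
  certB2 (fam := false) (s1 := true) (s2 := true) (a := 0) (b := 1) (c := 2) (cn := .pnp) (n1 := ndB5q0) (n2 := ndB2q2a) (pc := pcB1) (cut := Cut.none) (xt := Ext.none) (P1 := 0) (W1 := 536870912) (P2 := 0) (W2 := 536870912) (P3 := 536870912) (W3 := 50465866) (N0 := 3) (En := eng) (mo := mog) (C1 := cd5q0) (C2 := cd2q2a) (C3 := pd1)
    rfl (fun _ => rfl) k0_pp_012_a

noncomputable def f_pp_012_b : ℕ → ℕ → ℕ → ℕ → Bool := onCell 536870912 536870912 1239849684 370763052 536870912 50465866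
    (rowB 3 eng mog cd5q0 cd2q2b pd1 2 false true true .pnp 0 1 2 (qsf 0 536870912 1239849684 370763052 1) ndB5q0 ndB2q2b pcB1 Cut.none Ext.none)

def k0_pp_012_b : ∃ t, chk3 f_pp_012_b t 1 1 1 = true :=
  ⟨(a (a (l 2) (b (b (a (l 16757656) (l 16762144)) (l 16872704)) (l 2))) (b (a (b (a (l 16758992) (l 16744424)) (l 16862880)) (b (a (l 16716544) (l 16676304)) (l 16775000))) (a (l 17187656) (b (l 16955104) (l 17270056))))), by decide +kernel⟩

theorem c_pp_012_b : CertB 0 536870912 1239849684 370763052 536870912 50465866 3 eng mog cd5q0 cd2q2b pd1 false true true .pnp 0 1 2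
    ndB5q0 ndB2q2b pcB1 Cut.none Ext.none :=
  certB2 (fam := false) (s1 := true) (s2 := true) (a := 0) (b := 1) (c := 2) (cn := .pnp) (n1 := ndB5q0) (n2 := ndB2q2b) (pc := pcB1) (cut := Cut.none) (xt := Ext.none) (P1 := 0) (W1 := 536870912) (P2 := 1239849684) (W2 := 370763052) (P3 := 536870912) (W3 := 50465866) (N0 := 3) (En := eng) (mo := mog) (C1 := cd5q0) (C2 := cd2q2b) (C3 := pd1)
    rfl (fun _ => rfl) k0_pp_012_b

end Pool.Agent.Strip051.G.I5000_5470.Tab.C.BB52

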