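import Pool.Agent.Strip051.G.I5000_5470.StH
import Pool.Agent.Strip051.G.I5000_5470.StF

/-! # Unit strips 16 (generated) -/

set_option linter.all false
set_option maxRecDepth 100000

namespace Pool.Agent.Strip051.G.I5000_5470.Tab.St.C

open Pool.Agent.Strip051.PB Pool.Agent.Strip051.PB.T Pool.Agent.StripNear Pool.Agent.Strip051.LC
open Pool.Agent.Strip051.G.I5000_5470.Tab Pool.Agent.Strip051.G.I5000_5470.Tab.St

noncomputable def cut_B06pp_123_s1 : Cut := Cut.of [[⟨4, 0, 0, 1449551462⟩], [⟨0, 1, 0, 67108864⟩, ⟨1, 1, 0, 67108864⟩, ⟨2, 2, 0, 16777216⟩]]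

noncomputable def xt_B06pp_123_s1 : Ext := strExt6 dd false true true .u0 .s2 .u2 .npn 1 2 3 rfl rfl gf2 vv ww ndB0q1 ndB6q3

noncomputable def f_B06pp_123_s1 : ℕ → ℕ → ℕ → ℕ → Bool := onCell 1073741824 536870912 0 1230186008 536870912 50465866
    (rowF 2 false true true .npn 1 2 3 (qsf 536870912 536870912 0 1230186008 2) ndB0q1 ndB6q3 pcB2 cut_B06pp_123_s1 xt_B06pp_123_s1)

def k0_B06pp_123_s1 : ∃ t, chk3 f_B06pp_123_s1 t 8 4 1 = true :=
  ⟨(b (a (l 14) (a (l 14) (a (l 14) (b (l 16774064) (a (b (l 14) (a (l 16796432) (l 16775200))) (l 16775104)))))) (a (l 3) (b (a (l 14) (b (a (a (l 14) (b (a (l 14) (a (l 14) (l 16776120))) (b (a (l 14) (b (l 16776632) (a (l 16776896) (l 16776736)))) (l 1072952463)))) (b (a (b (l 16775600) (l 16775912)) (l 16775240)) (a (b (a (b (l 16776328) (l 16776528)) (l 16776112)) (a (b (a (l 16776776) (l 16776632)) (l 1072981135)) (b (l 16776400) (l 16781840)))) (l 16775776)))) (a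 (l 1072806543) (b (a (b (a (l 1072948879) (b (a (l 16776864) (l 16776704)) (l 1072971407))) (l 1072922255)) (b (a (b (l 16776448) (a (l 16776728) (l 16776544))) (b (l 16776040) (l 16776256))) (a (l 1072921231) (b (l 16776456) (a (l 16776760) (l 16776552)))))) (l 1072834703))))) (l 3)))), by decide +kernel⟩

def k1_B06pp_123_s1 : ∃ t, chk3 f_B06pp_123_s1 t 9 4 1 = true :=
  ⟨(b (a (b (l 16771776) (a (l 16774888) (l 16775568))) (l 16769560)) (a (b (a (b (a (b (l 16816768) (a (l 16775088) (l 16774608))) (l 16774096)) (a (b (a (b (l 16775560) (a (b (l 16776040) (l 16776264)) (l 16775760))) (l 16775000)) (a (b (a (b (l 16781712) (l 16776688)) (b (l 16776072) (l 16776296))) (a (l 1072712847) (b (l 16781768) (l 16779384)))) (b (l 16775584) (a (b (l 16776112) (l 16776344)) (l 16775816))))) (b (a (l 16774408) (l 16774008)) (a (l 16774952) (l 16774264))))) (b (l 16773704) (a (b (l 16773592) (l 16773688)) (l 16773272))))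 (a (b (a (b (a (l 1072635023) (b (a (b (l 16776584) (l 1072661647)) (b (l 16776152) (l 16776392))) (l 1072622223))) (l 1072530575)) (b (a (b (a (l 16775832) (l 16775384)) (a (b (l 16776200) (l 16776440)) (l 16775856))) (l 16774928)) (a (b (a (l 1072569999) (b (l 16776232) (l 16776488))) (l 1072513167)) (b (a (l 16775880) (l 16775384)) (a (b (l 16776272) (l 16776528)) (l 16775896)))))) (a (l 3) (b (a (l 1072422031) (b (a (l 1072454287) (b (l 16776296) (l 16776568))) (l 1072391311))) (l 1072295055)))) (b (a (b (l 16773952) (a (l 16774944) (l 16774240))) (b (l 16773256) (l 16773464))) (a (b (a (b (a (b (l 16775768) (l 16776056)) (l 16775384)) (a (l 1072381071) (b (l 16775768) (l 16776056)))) (b (l 16774776) (a (l 16775416) (l 16774984)))) (a (l 1072273039) (b (a (b (l 16775768) (l 16776056)) (l 16775440)) (a (l 1072211599) (b (l 16775752) (l 16776072)))))) (b (l 16774000) (a (b (l 16774824) (a (l 16775464) (l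 16775040))) (l 16774352))))))) (b (a (l 16773904) (l 16775440)) (a (b (a (l 16772984) (l 16772864)) (a (b (l 16773152) (l 16773520)) (l 16772896))) (b (l 16772880) (l 16772480)))))), by decide +kernel⟩

def k2_B06pp_123_s1 : ∃ t, chk3 f_B06pp_123_s1 t 5 4 1 = true :=
  ⟨(a (b (a (a (l 16765824) (l 16764080)) (l 16761304)) (a (a (b (l 16778528) (l 16772936)) (b (l 16780616) (a (l 16773128) (a (l 16773304) (l 16772120))))) (l 16782984))) (b (l 6) (l 16795840))), by decide +kernel⟩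

def k3_B06pp_123_s1 : ∃ t, chk3 f_B06pp_123_s1 t 3 4 1 = true :=
  ⟨(a (l 6) (l 6)), by decide +kernel⟩

def k4_B06pp_123_s1 : ∃ t, chk3 f_B06pp_123_s1 t 4 5 1 = true :=
  ⟨(a (l 3) (a (b (a (l 3) (b (b (a (l 1072060447) (b (a (b (a (l 16781176) (l 16775488)) (a (l 1072146063) (l 16775984))) (b (l 16774896) (l 16785840))) (a (l 1072086671) (b (a (l 16776040) (l 16775536)) (l 1072159887))))) (a (l 3) (l 1071974031))) (l 3))) (l 3)) (b (a (b (b (a (a (b (l 16774424) (a (l 16780632) (l 16775000))) (l 16774200)) (l 16773432)) (a (b (a (a (l 1072160399) (b (l 16775560) (l 16776104))) (a (l 16780648) (l 16775040))) (a (l 1072095887) (a (l 1072160911) (b (l 16775560) (l 16776104))))) (a (b (l 16774520) (a (l 16780632) (l 16775032))) (l 16774256)))) (a (b (l 1072018975) (l 3)) (b (a (b (a (l 1072147599) (b (l 16775504) (l 16776048))) (l 1072093839)) (b (b (l 16774968) (l 16780520)) (a (l 1072101007) (b (l 16775368)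 (l 16775920))))) (l 1072024207)))) (b (b (a (l 16772832) (l 16772400)) (a (l 16773424) (l 16772712))) (a (b (a (b (l 16774408) (b (l 16774808) (l 16785560))) (l 16774040)) (a (b (a (l 1071977615) (b (l 16775096) (l 16775664))) (l 1071899279)) (b (a (l 16774832) (l 16774376)) (a (l 1071717519) (b (l 16774600) (l 16775184)))))) (b (l 16773408) (a (b (l 16774120) (a (l 16774392) (l 16774448))) (l 16774272)))))) (a (l 3) (b (a (b (l 1071727647) (l 3)) (b (a (b (a (l 16780552) (b (l 16774688) (l 16775112))) (l 1071497359)) (b (l 16774952) (a (b (l 16775264) (l 16775768)) (l 16775328)))) (a (l 1071449231) (l 1071968911)))) (a (l 3) (b (a (l 3) (l 1071861391)) (l 3)))))))), by decide +kernel⟩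

def k5_B06pp_123_s1 : ∃ t, chk3 f_B06pp_123_s1 t 5 5 1 = true :=
  ⟨(a (a (a (b (b (b (l 16771504) (l 16771504)) (b (a (l 16772336) (l 16771096)) (a (l 16773240) (l 16771368)))) (b (a (b (a (b (l 16774600) (l 16775128)) (l 16774176)) (a (b (a (l 16775688) (l 16775608)) (a (l 1072325775) (l 16776128))) (b (l 16775160) (a (l 16775880) (l 16775728))))) (b (l 16772160) (a (l 16774752) (l 16773472)))) (a (b (a (l 1072396431) (b (a (l 16776448) (l 16776152)) (l 1072733327))) (a (l 3) (b (l 1072734863) (l 1072695951)))) (b (a (b (l 16775920) (a (l 16776456) (l 16776304))) (b (l 16774808) (l 16775664))) (a (l 1072901263) (b (a (l 16776456) (l 16776256)) (a (l 16776744) (l 16776600)))))))) (a (b (b (l 16770088) (l 16771032)) (b (b (a (l 16770856) (l 16772288)) (a (l 16772192) (l 16772896))) (b (a (l 16773896) (l 16773856)) (a (a (b (l 16775552) (l 16776448)) (l 16775408)) (l 16774904))))) (a (b (b (l 16768360) (l 16770544))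 (b (b (l 16772672) (l 16773984)) (b (l 16774912) (l 16796040)))) (b (a (b (l 16766000) (l 16768448)) (b (l 16763208) (l 16764888))) (b (a (l 16772544) (l 16769648)) (a (b (l 16775336) (a (l 16775952) (l 16776104))) (a (a (a (l 16775320) (a (l 16858792) (l 16774272))) (l 16773800)) (l 16773696)))))))) (b (b (l 16763864) (l 16760776)) (b (l 16765704) (a (l 16772712) (l 16771576))))) (a (b (l 16932592) (b (l 16763864) (l 16772072))) (b (l 16770704) (l 16940688)))), by decide +kernel⟩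

def k6_B06pp_123_s1 : ∃ t, chk3 f_B06pp_123_s1 t 3 5 1 = true :=
  ⟨(a (a (b (l 16791496) (a (l 16781432) (l 16795056))) (l 6)) (l 6)), by decide +kernel⟩

def k7_B06pp_123_s1 : ∃ t, chk3 f_B06pp_123_s1 t 4 6 1 = true :=
  ⟨(l 3), by decide +kernel⟩

def k8_B06pp_123_s1 : ∃ t, chk3 f_B06pp_123_s1 t 40 6 1 = true :=
  ⟨(b (a (l 3) (b (b (a (l 1073701519) (a (l 1072864911) (l 1073064591))) (a (l 3) (b (l 1072714783) (l 3)))) (l 3))) (l 3)), by decide +kernel⟩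

def k9_B06pp_123_s1 : ∃ t, chk3 f_B06pp_123_s1 t 82 6 1 = true :=
  ⟨(b (b (a (b (b (a (l 16776744) (b (l 16776472) (l 16776704))) (a (l 1073213583) (l 16776816))) (a (b (l 1073077391) (l 1072914975)) (b (l 1073241231) (l 1073179279)))) (b (a (b (l 16776080) (l 16797688)) (l 16797024)) (a (b (l 16776920) (l 1073374351)) (b (l 16797808) (b (l 16776968) (l 16777008)))))) (a (b (a (l 3) (b (l 1073110671) (l 3))) (l 3)) (b (a (b (l 1073330319) (l 1073270303)) (b (l 1073456671) (l 1073428623))) (a (b (l 1073196063) (l 3)) (b (l 1073393295) (b (l 1073359503) (l 3))))))) (l 3)), by decide +kernel⟩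

def k10_B06pp_123_s1 : ∃ t, chk3 f_B06pp_123_s1 t 83 12 1 = true :=
  ⟨(a (b (b (a (l 16775720) (l 16775512)) (a (b (l 16776432) (l 16797840)) (l 16776024))) (b (a (a (b (l 16776984) (l 1073433743)) (b (l 16776952) (l 16777024))) (b (l 16797648) (a (l 16787432) (l 16776736)))) (a (b (a (l 1076103711) (a (l 1073431695) (l 16777072))) (a (b (l 1073407519) (a (l 1073396879) (l 1075547279))) (b (c (l 16777240) (l 1072959631)) (l 1076089487)))) (a (b (a (l 16777048) (l 16777016)) (b (l 16777080) (l 1073412751))) (b (l 16787416) (b (l 16777016) (l 16777064))))))) (b (b (a (b (l 16776000) (l 16817928)) (b (c (l 16819584) (l 16774944)) (l 16776312))) (a (a (l 16776000) (l 16776200)) (l 16818328))) (b (a (a (l 16776368) (a (l 16797368) (l 16776480))) (b (l 16818464) (l 16776656))) (b (a (a (l 16776760) (l 16797672)) (c (l 16798360) (l 16797192))) (a (a (b (l 16787384) (l 16787464)) (a (l 16776880) (l 16776904))) (a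 (a (a (l 16776912) (l 16797896)) (l 16776912)) (l 16776896))))))), by decide +kernel⟩

def k11_B06pp_123_s1 : ∃ t, chk3 f_B06pp_123_s1 t 166 13 1 = true :=
  ⟨(b (b (a (b (a (a (l 3) (l 1073360015)) (l 1073371279)) (l 3)) (b (a (l 1073391759) (l 1073412751)) (a (l 1073266831) (l 1075465359)))) (a (l 3) (b (a (l 3) (a (l 1073017999) (l 1073069199))) (l 3)))) (l 3)), by decide +kernel⟩

def k12_B06pp_123_s1 : ∃ t, chk3 f_B06pp_123_s1 t 334 13 1 = true :=
  ⟨(b (b (a (b (a (l 1073418383) (l 16782288)) (a (l 1073372815) (b (l 16777096) (l 16777120)))) (a (b (l 16787512) (l 1073399551)) (b (l 16787504) (a (l 16777048) (l 16777024))))) (a (b (a (l 1073137295) (b (l 1073297551) (l 1073137807))) (a (l 1075778191) (b (l 1072886303) (l 1075178015)))) (b (a (b (l 16777080) (l 1073070847)) (b (l 16777016) (l 1072958207))) (a (b (l 1072820479) (l 1072361215)) (b (l 1075901183) (l 1072382719)))))) (a (b (b (b (a (l 3) (a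 (l 3) (l 1072028191))) (l 3)) (l 3)) (l 3)) (b (b (a (b (a (l 1071910143) (l 1072155903)) (l 1072025855)) (b (l 1072184063) (l 1072070911))) (a (l 1071826175) (b (l 1071943423) (l 1071806719)))) (b (a (l 3) (b (l 1071659775) (l 3))) (l 3))))), by decide +kernel⟩

def k13_B06pp_123_s1 : ∃ t, chk3 f_B06pp_123_s1 t 2680 13 1 = true :=
  ⟨(b (b (b (l 16777000) (l 16787488)) (b (b (l 16776968) (l 16776936)) (b (l 16776920) (l 16776928)))) (b (b (b (l 1072223487) (l 1072115455)) (b (a (l 1071979263) (l 1072000767)) (a (l 1071846143) (l 1071869695)))) (b (b (a (l 1071702783) (l 1071728895)) (a (l 1071547135) (l 1071576319))) (l 3)))), by decide +kernel⟩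

def k14_B06pp_123_s1 : ∃ t, chk3 f_B06pp_123_s1 t 2681 13 1 = true :=
  ⟨(a (b (b (b (l 16776984) (l 16776976)) (b (b (l 16776936) (l 16776912)) (b (l 16776888) (l 16776896)))) (b (b (b (a (l 16776936) (l 16776928)) (a (l 16776992) (l 16776984))) (b (a (l 16777048) (a (l 16777040) (l 16777032))) (a (l 1071891711) (b (l 16777072) (l 1071879935))))) (b (b (a (l 1071753471) (a (l 1071769855) (b (l 16777112) (l 1071748863)))) (a (l 1071603967) (b (a (l 1071659263) (l 1071676159)) (a (l 1071581951) (a (l 1071594239) (l 1071604991)))))) (b (a (l 1071439103) (b (a (l 1071500543) (a (l 1071513855) (b (l 1071545087) (l 1071504127)))) (a (l 1071414015) (b (a (a (l 1071446783) (l 1071451903)) (l 18407335171649953503)) (a (b (l 1071416063) (a (l 1071390463) (l 1071396095))) (b (l 1071428863) (l 18407335171641564383))))))) (a (l 3) (b (a (l 3) (b (a (b (a (l 1071367423) (l 1071373055)) (a (l 3) (l 1071349503))) (b (b (l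 18407335171641564383) (l 1071377663)) (l 1071359567))) (a (l 3) (l 1071323727)))) (l 3))))))) (a (a (b (b (b (l 16776976) (l 16776952)) (b (l 16782144) (b (l 16776880) (l 16776888)))) (b (b (b (l 16776920) (l 16776976)) (b (l 16777024) (l 16777072))) (b (b (l 18411839183610962655) (b (l 16777144) (l 18409587108902592735))) (b (b (b (l 16777176) (l 16777184)) (b (l 18407335171649953503) (l 18407335171641564895))) (b (b (b (l 18407335171641564383) (l 1071395919)) (l 1071363663)) (l 1071303247)))))) (b (b (b (l 16776976) (l 16776952)) (b (l 73785621701676465471) (l 68639784735))) (b (b (l 18418594995394046175) (l 18416342920685675743)) (b (b (l 18411839183610962655) (b (l 16777144) (l 16777160))) (b (b (l 18409587108902592223) (b (l 16777184) (l 18407335171641564895))) (b (l 18405083371827879135) (l 1071376975))))))) (b (b (b (l 16776976) (l 16776960)) (b (l 16776896) (l 68639780127))) (b (b (l 18418594995394046175)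 (l 18416342920685675743)) (b (b (l 18411839183610962655) (b (l 16777128) (l 16777144))) (b (b (l 18409587108902592223) (l 18407335171641564895)) (b (l 18405083371827879135) (l 1071406639)))))))), by decide +kernel⟩

def k15_B06pp_123_s1 : ∃ t, chk3 f_B06pp_123_s1 t 1341 13 1 = true :=
  ⟨(a (a (b (b (b (l 16776976) (l 16776952)) (b (l 16776880) (l 68639780127))) (b (b (l 18418594995394046175) (l 18416342920685675743)) (b (b (l 16777072) (l 18409587246349934815)) (b (b (l 16777128) (l 16777144)) (l 18405083234388925663))))) (a (b (b (b (l 16776968) (l 16776936)) (b (l 16776864) (b (l 16776832) (l 16776840)))) (b (b (b (l 16776872) (l 16776920)) (b (l 16776968) (l 16777008))) (b (b (l 16777048) (l 16777080)) (b (b (l 16777104) (l 16777112)) (l 18405083234388925663))))) (a (b (b (b (l 16776968) (l 16776936)) (b (l 16776856) (b (l 16776824) (l 16776824)))) (b (b (b (l 16776864) (l 16776912)) (b (l 16776952) (l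 16776992))) (b (b (l 16777032) (l 16777064)) (b (b (l 16777088) (l 16777096)) (b (l 16777104) (l 16777112)))))) (b (b (b (l 16776960) (l 16776928)) (b (l 16776856) (b (l 16776816) (l 16776824)))) (b (b (b (l 16776856) (l 16776904)) (b (l 16776944) (l 16776992))) (b (b (l 16777024) (l 16777056)) (b (b (l 16777080) (l 16777088)) (b (l 16777096) (l 16777104))))))))) (b (b (b (l 16776960) (l 16776920)) (b (l 16776840) (b (l 16776800) (l 16776800)))) (b (b (b (l 16776832) (l 16776880)) (b (l 16776920) (l 16776960))) (b (b (l 16776992) (l 16777024)) (b (b (l 16777040) (l 16777048)) (b (l 16777056) (l 16777056))))))), by decide +kernel⟩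

def k16_B06pp_123_s1 : ∃ t, chk3 f_B06pp_123_s1 t 671 13 1 = true :=
  ⟨(b (b (b (l 16776920) (l 16776864)) (b (l 16776776) (b (l 16776728) (l 16776720)))) (b (b (l 16779368) (b (l 16776800) (l 16776824))) (b (b (l 16776848) (l 16776864)) (b (l 16776864) (b (l 16776864) (l 16776856)))))), by decide +kernel⟩

def k17_B06pp_123_s1 : ∃ t, chk3 f_B06pp_123_s1 t 21 6 1 = true :=
  ⟨(b (a (b (b (l 16817880) (l 16776368)) (b (l 16776608) (b (l 16776680) (l 16776632)))) (b (l 16776448) (b (l 16776952) (l 16776656)))) (a (b (a (b (b (l 16776672) (l 16776512)) (a (b (l 16776512) (l 16781640)) (l 16786488))) (b (l 16776160) (l 16775416))) (a (b (a (b (l 16776352) (l 16776312)) (l 16786088)) (a (b (l 16778864) (b (l 16776160) (l 16776080))) (b (l 16775272) (l 16774944)))) (b (l 16774592) (a (l 16774056) (l 16773024))))) (b (b (l 16775800) (l 16774432)) (b (l 16772760) (l 16770568))))), by decide +kernel⟩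

def k18_B06pp_123_s1 : ∃ t, chk3 f_B06pp_123_s1 t 11 6 1 = true :=
  ⟨(b (a (b (l 16819952) (l 16904176)) (b (l 16782792) (l 16782840))) (a (b (a (l 16816696) (l 16775016)) (b (l 16769832) (l 16786216))) (b (l 16776536) (b (l 16767608) (l 16759304))))), by decide +kernel⟩

def k19_B06pp_123_s1 : ∃ t, chk3 f_B06pp_123_s1 t 3 6 1 = true :=
  ⟨(a (b (a (a (b (l 16790880) (l 16790464)) (l 17055048)) (b (l 16830184) (l 16825096))) (a (b (a (l 16780936) (l 16788096)) (b (l 16767560) (l 16753784))) (b (l 16792072) (l 1)))) (l 6)), by decide +kernel⟩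

def k20_B06pp_123_s1 : ∃ t, chk3 f_B06pp_123_s1 t 4 7 1 = true :=
  ⟨(b (l 3) (l 3)), by decide +kernel⟩

def k21_B06pp_123_s1 : ∃ t, chk3 f_B06pp_123_s1 t 40 7 1 = true :=
  ⟨(b (l 3) (b (l 3) (l 1))), by decide +kernel⟩

def k22_B06pp_123_s1 : ∃ t, chk3 f_B06pp_123_s1 t 82 14 1 = true :=
  ⟨(l 3), by decide +kernel⟩

def k23_B06pp_123_s1 : ∃ t, chk3 f_B06pp_123_s1 t 166 14 1 = true :=
  ⟨(b (l 3) (b (a (l 3) (b (l 3) (a (l 3) (b (l 3) (l 1067949695))))) (b (a (l 3) (a (l 1068766335) (b (l 1066924671) (l 1065907839)))) (l 1)))), by decide +kernel⟩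

def k24_B06pp_123_s1 : ∃ t, chk3 f_B06pp_123_s1 t 334 14 1 = true :=
  ⟨(b (a (l 3) (b (l 3) (a (b (l 3) (l 1070447343)) (b (b (l 3) (l 1070686959)) (b (l 1070484719) (l 1070277871)))))) (b (b (a (a (l 3) (a (b (l 3) (l 1069645439)) (b (l 1070295167) (l 1071464575)))) (a (b (l 1070131439) (l 1069643503)) (b (a (l 1070086895) (l 1070049007)) (a (l 1069765359) (l 1069753071))))) (a (a (b (l 1068744831) (l 1067646591)) (b (l 1071677567) (l 1067293311))) (a (b (l 1069026031) (l 1067661039)) (b (a (l 1069011183) (l 1069079791)) (l 1069186799))))) (b (a (a (b (l 1066549887) (l 1065468031)) (b (l 1066131583) (l 1))) (b (a (l 1066503407) (l 1067066095)) (l 1))) (l 1)))), by decide +kernel⟩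

def k25_B06pp_123_s1 : ∃ t, chk3 f_B06pp_123_s1 t 2680 14 1 = true :=
  ⟨(b (b (a (l 3) (b (l 3) (b (l 3) (l 1070995695)))) (b (b (a (l 1070833391) (l 1070800111)) (a (l 1070635759) (l 1070603503))) (b (a (l 1070434031) (l 1070402799)) (a (l 1070227695) (l 1070197487))))) (b (b (b (b (l 16776744) (l 16776648)) (b (l 16776528) (l 16776384))) (b (l 16776088) (l 16775544))) (b (b (l 16774808) (l 1)) (l 1)))), by decide +kernel⟩

def k26_B06pp_123_s1 : ∃ t, chk3 f_B06pp_123_s1 t 5362 14 1 = true :=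
  ⟨(b (b (b (l 3) (b (a (b (l 3) (l 1071112431)) (b (a (l 3) (b (a (l 3) (l 1071187519)) (a (b (a (l 3) (l 1071160047)) (a (l 1071140591) (l 1071134959))) (b (l 1071149119) (b (l 1071130863) (l 18400579359858480847)))))) (a (l 1071089391) (b (a (b (a (l 1071115503) (l 1071109871)) (l 1071087855)) (b (l 18400579359858480335) (l 1071074543))) (a (a (l 1071053551) (l 1071047919)) (l 18400579359850091727)))))) (a (l 1070962927) (b (a (l 1070991599) (a (l 1070976751) (b (l 1070988527) (l 1070940399)))) (a (l 1070894319) (a (l 1070879983) (l 1070867695))))))) (b (b (a (l 1070768879) (b (a (l 1070797551) (l 1070777071)) (a (l 16777104) (l 1070680815)))) (a (l 1070572783) (b (a (l 16777064) (l 16777048)) (l 1070493935)))) (b (a (l 1070373615) (a (l 16776920) (l 16776904))) (a (l 16776800) (l 16776760))))) (b (a (b (b (l 16776608) (l 16776360)) (b (l 16775984) (l 16775440))) (b (b (l 16776568) (l 16776320)) (b (l 16775944)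 (l 16775392)))) (b (b (l 16774688) (l 1)) (l 1)))), by decide +kernel⟩

def k27_B06pp_123_s1 : ∃ t, chk3 f_B06pp_123_s1 t 5363 14 1 = true :=
  ⟨(a (a (b (b (b (b (l 1326388275214095578405546736134117679) (l 18405083096933193903)) (b (b (b (l 1071146047) (b (l 1071111231) (l 18400579359858480847))) (b (l 18400579359858480335) (l 18400579359850091727))) (b (b (l 16777176) (l 16777168)) (l 18398327422589063887)))) (b (b (b (l 16777120) (l 16777080)) (l 18391571610814369487)) (b (l 16776888) (l 16776736)))) (b (b (b (l 16776544) (l 16776288)) (b (l 16775912) (l 16775368))) (b (b (l 16774664) (l 1)) (l 1)))) (b (b (b (l 1326226015937266328146415210891040559) (b (b (b (l 1071078463) (l 18400579359858480847)) (b (l 16777184) (l 16777176))) (b (l 18398327422597453007) (l 16777136)))) (b (b (b (l 16777104) (l 16777064)) (l 18391571610814369487)) (l 18387067736292313295))) (b (b (l 18380311924500841167) (b (l 68421662991)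 (l 68371328271))) (b (b (l 16774648) (l 1)) (l 1))))) (b (b (b (l 1326226015937266328146415210891040559) (b (b (l 18402831159672166095) (l 18400579359850091727)) (b (l 16777144) (l 16777112)))) (b (b (l 18396075347889082575) (l 16776968)) (l 18387067736292313295))) (b (b (l 18380311924500841167) (b (l 16775856) (l 16775320))) (b (b (l 16774592) (l 1)) (l 1))))), by decide +kernel⟩

def k28_B06pp_123_s1 : ∃ t, chk3 f_B06pp_123_s1 t 1341 14 1 = true :=
  ⟨(a (a (b (b (b (l 1071218735) (b (b (l 18402831159672166095) (l 16777128)) (b (l 16777104) (l 16777072)))) (b (b (l 18396075347889082575) (l 16776928)) (l 18387067736292313295))) (b (b (l 18380311924500841167) (l 68396496143)) (b (l 68287438095) (l 1)))) (a (b (b (b (b (l 1071295023) (l 1071140911)) (b (b (l 16777104) (l 16777088)) (l 18398327422597452495))) (b (b (l 16776984) (l 16776888)) (b (l 16776760) (l 16776592)))) (b (b (b (l 16776392) (l 16776128))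 (b (l 16775744) (l 16775200))) (b (b (l 16774472) (l 1)) (l 1)))) (a (b (b (b (b (b (l 16777112) (l 16777112)) (b (l 16777112) (l 16777104))) (b (b (l 16777088) (l 16777072)) (b (l 16777048) (l 16777016)))) (b (b (l 16776960) (l 16776864)) (b (l 16776736) (l 16776568)))) (b (b (b (l 16776368) (l 16776104)) (b (l 16775720) (l 16775168))) (b (l 16779232) (l 1)))) (b (b (b (b (b (l 16777104) (l 16777104)) (b (l 16777096) (l 16777088))) (b (b (l 16777072) (l 16777056)) (l 16777016))) (b (b (l 16776944) (l 16776848)) (b (l 16776720) (l 16776552)))) (b (b (b (l 16776352) (l 16776088)) (b (l 16775696) (l 16775144))) (b (l 16779208) (l 1))))))) (b (b (b (b (l 1071304799) (l 1071115359)) (b (b (l 16777016) (l 16777000)) (l 16776960))) (b (b (l 16776880) (l 16776776)) (b (l 16776640) (l 16776472)))) (b (b (b (l 16776264) (l 16775992)) (b (l 16775600) (l 16775040))) (b (l 16779096) (l 1))))), by decide +kernel⟩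

def k29_B06pp_123_s1 : ∃ t, chk3 f_B06pp_123_s1 t 671 14 1 = true :=
  ⟨(b (b (b (l 1071212127) (b (b (l 16776768) (l 16776744)) (l 16776680))) (b (b (l 16776584) (l 16776456)) (b (l 16776296) (l 16776104)))) (b (b (b (l 16775872) (l 16775576)) (b (l 16775152) (l 16774560))) (b (l 16778576) (l 1)))), by decide +kernel⟩

def k30_B06pp_123_s1 : ∃ t, chk3 f_B06pp_123_s1 t 41 15 1 = true :=
  ⟨(l 1), by decide +kernel⟩

def k31_B06pp_123_s1 : ∃ t, chk3 f_B06pp_123_s1 t 21 7 1 = true :=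
  ⟨(b (b (a (a (a (b (b (l 1071216735) (b (l 16775752) (l 16775592))) (b (a (l 16775784) (l 16774800)) (a (l 16775352) (l 16774208)))) (b (b (l 16774528) (l 16774000)) (b (l 16773336) (l 16772512)))) (b (a (l 16777992) (l 16771240)) (a (l 16781320) (l 16768744)))) (b (a (l 16769008) (l 16766096)) (l 16784560))) (a (a (b (b (b (l 16778280) (l 16783040)) (b (l 16777176) (l 16771136))) (b (a (l 16776496) (l 1)) (l 1))) (b (b (l 16767616) (l 16765664)) (l 1))) (b (a (l 16761160) (l 16755688)) (l 1)))) (l 1)), by decide +kernel⟩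

def k32_B06pp_123_s1 : ∃ t, chk3 f_B06pp_123_s1 t 11 7 1 = true :=
  ⟨(b (b (a (b (l 16759128) (l 16772392)) (b (l 16748608) (l 1))) (l 1)) (l 1)), by decide +kernel⟩

def k33_B06pp_123_s1 : ∃ t, chk3 f_B06pp_123_s1 t 3 7 1 = true :=
  ⟨(l 1), by decide +kernel⟩

theorem t34_B06pp_123_s1 : ∃ t, chk3 f_B06pp_123_s1 t 2681 14 1 = true := ex3_a k26_B06pp_123_s1 k27_B06pp_123_s1

theorem t35_B06pp_123_s1 : ∃ t, chk3 f_B06pp_123_s1 t 1340 14 1 = true := ex3_a k25_B06pp_123_s1 t34_B06pp_123_s1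

theorem t36_B06pp_123_s1 : ∃ t, chk3 f_B06pp_123_s1 t 670 14 1 = true := ex3_a t35_B06pp_123_s1 k28_B06pp_123_s1

theorem t37_B06pp_123_s1 : ∃ t, chk3 f_B06pp_123_s1 t 335 14 1 = true := ex3_a t36_B06pp_123_s1 k29_B06pp_123_s1

theorem t38_B06pp_123_s1 : ∃ t, chk3 f_B06pp_123_s1 t 167 14 1 = true := ex3_a k24_B06pp_123_s1 t37_B06pp_123_s1

theorem t39_B06pp_123_s1 : ∃ t, chk3 f_B06pp_123_s1 t 83 14 1 = true := ex3_a k23_B06pp_123_s1 t38_B06pp_123_s1

theorem t40_B06pp_123_s1 : ∃ t, chk3 f_B06pp_123_s1 t 41 14 1 = true := ex3_a k22_B06pp_123_s1 t39_B06pp_123_s1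

theorem t41_B06pp_123_s1 : ∃ t, chk3 f_B06pp_123_s1 t 41 7 1 = true := ex3_b t40_B06pp_123_s1 k30_B06pp_123_s1

theorem t42_B06pp_123_s1 : ∃ t, chk3 f_B06pp_123_s1 t 20 7 1 = true := ex3_a k21_B06pp_123_s1 t41_B06pp_123_s1

theorem t43_B06pp_123_s1 : ∃ t, chk3 f_B06pp_123_s1 t 10 7 1 = true := ex3_a t42_B06pp_123_s1 k31_B06pp_123_s1

theorem t44_B06pp_123_s1 : ∃ t, chk3 f_B06pp_123_s1 t 5 7 1 = true := ex3_a t43_B06pp_123_s1 k32_B06pp_123_s1

theorem t45_B06pp_123_s1 : ∃ t, chk3 f_B06pp_123_s1 t 2 7 1 = true := ex3_a k20_B06pp_123_s1 t44_B06pp_123_s1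

theorem t46_B06pp_123_s1 : ∃ t, chk3 f_B06pp_123_s1 t 1 7 1 = true := ex3_a t45_B06pp_123_s1 k33_B06pp_123_s1

theorem t47_B06pp_123_s1 : ∃ t, chk3 f_B06pp_123_s1 t 1340 13 1 = true := ex3_a k13_B06pp_123_s1 k14_B06pp_123_s1

theorem t48_B06pp_123_s1 : ∃ t, chk3 f_B06pp_123_s1 t 670 13 1 = true := ex3_a t47_B06pp_123_s1 k15_B06pp_123_s1

theorem t49_B06pp_123_s1 : ∃ t, chk3 f_B06pp_123_s1 t 335 13 1 = true := ex3_a t48_B06pp_123_s1 k16_B06pp_123_s1

theorem t50_B06pp_123_s1 : ∃ t, chk3 f_B06pp_123_s1 t 167 13 1 = true := ex3_a k12_B06pp_123_s1 t49_B06pp_123_s1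

theorem t51_B06pp_123_s1 : ∃ t, chk3 f_B06pp_123_s1 t 83 13 1 = true := ex3_a k11_B06pp_123_s1 t50_B06pp_123_s1

theorem t52_B06pp_123_s1 : ∃ t, chk3 f_B06pp_123_s1 t 83 6 1 = true := ex3_b k10_B06pp_123_s1 t51_B06pp_123_s1

theorem t53_B06pp_123_s1 : ∃ t, chk3 f_B06pp_123_s1 t 41 6 1 = true := ex3_a k9_B06pp_123_s1 t52_B06pp_123_s1

theorem t54_B06pp_123_s1 : ∃ t, chk3 f_B06pp_123_s1 t 20 6 1 = true := ex3_a k8_B06pp_123_s1 t53_B06pp_123_s1

theorem t55_B06pp_123_s1 : ∃ t, chk3 f_B06pp_123_s1 t 10 6 1 = true := ex3_a t54_B06pp_123_s1 k17_B06pp_123_s1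

theorem t56_B06pp_123_s1 : ∃ t, chk3 f_B06pp_123_s1 t 5 6 1 = true := ex3_a t55_B06pp_123_s1 k18_B06pp_123_s1

theorem t57_B06pp_123_s1 : ∃ t, chk3 f_B06pp_123_s1 t 2 6 1 = true := ex3_a k7_B06pp_123_s1 t56_B06pp_123_s1

theorem t58_B06pp_123_s1 : ∃ t, chk3 f_B06pp_123_s1 t 1 6 1 = true := ex3_a t57_B06pp_123_s1 k19_B06pp_123_s1

theorem t59_B06pp_123_s1 : ∃ t, chk3 f_B06pp_123_s1 t 1 3 1 = true := ex3_b t58_B06pp_123_s1 t46_B06pp_123_s1

theorem t60_B06pp_123_s1 : ∃ t, chk3 f_B06pp_123_s1 t 2 5 1 = true := ex3_a k4_B06pp_123_s1 k5_B06pp_123_s1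

theorem t61_B06pp_123_s1 : ∃ t, chk3 f_B06pp_123_s1 t 1 5 1 = true := ex3_a t60_B06pp_123_s1 k6_B06pp_123_s1

theorem t62_B06pp_123_s1 : ∃ t, chk3 f_B06pp_123_s1 t 4 4 1 = true := ex3_a k0_B06pp_123_s1 k1_B06pp_123_s1

theorem t63_B06pp_123_s1 : ∃ t, chk3 f_B06pp_123_s1 t 2 4 1 = true := ex3_a t62_B06pp_123_s1 k2_B06pp_123_s1

theorem t64_B06pp_123_s1 : ∃ t, chk3 f_B06pp_123_s1 t 1 4 1 = true := ex3_a t63_B06pp_123_s1 k3_B06pp_123_s1

theorem t65_B06pp_123_s1 : ∃ t, chk3 f_B06pp_123_s1 t 1 2 1 = true := ex3_b t64_B06pp_123_s1 t61_B06pp_123_s1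

theorem t66_B06pp_123_s1 : ∃ t, chk3 f_B06pp_123_s1 t 1 1 1 = true := ex3_b t65_B06pp_123_s1 t59_B06pp_123_s1

theorem c_B06pp_123_s1 : CertF 536870912 536870912 0 1230186008 536870912 50465866 false true true .npn 1 2 3
    ndB0q1 ndB6q3 pcB2 cut_B06pp_123_s1 xt_B06pp_123_s1 :=
  certF2 (fam := false) (s1 := true) (s2 := true) (a := 1) (b := 2) (c := 3) (cn := .npn) (n1 := ndB0q1) (n2 := ndB6q3) (pc := pcB2) (cut := cut_B06pp_123_s1) (xt := xt_B06pp_123_s1) (P1 := 536870912) (W1 := 536870912) (P2 := 0) (W2 := 1230186008) (P3 := 536870912) (W3 := 50465866)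
    rfl (fun _ => rfl) t66_B06pp_123_s1

theorem s_B06pp_123_s1 {κ x : ℝ} (hκ : κ * h0 = ken x) (hx : ((536870912 : ℕ) : ℝ) / S ≤ x)
    (hx' : x ≤ (((536870912 : ℕ) : ℝ) + (50465866 : ℕ)) / S)
    (H : CutB (VFD κ) PP tK tL pcB (Cut.of [[⟨0, 1, 0, 67108864⟩, ⟨1, 1, 0, 67108864⟩, ⟨2, 2, 0, 16777216⟩]]) 1 2 3 0 6 (sgb true) (sgb true) x) :
    AltB (VFD κ) PP tK tL pcB [⟨3, 0, 0, 1449551462⟩] 1 2 3 0 6 (sgb true) (sgb true) x :=
  strip_altBD (m := 1449551462) true rfl hκ (SH.κ0 hκ (SH.hx1 hx).le (SH.hx2 hx').le) (SH.hx1 hx).le (SH.hx2 hx') (covB01).cov (covB63).cov hx hx' c_B06pp_123_s1 H ((okx6 hx hx').extB (T := tt) (okx hx hx') (sideB hx hx') hκ rfl rfl (.O 1 true) (.N 3 true) rfl)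

noncomputable def cut_B06pp_133_s1 : Cut := Cut.of [[⟨4, 0, 0, 1449551462⟩]]

noncomputable def f_B06pp_133_s1 : ℕ → ℕ → ℕ → ℕ → Bool := onCell 1610612736 536870912 0 1230186008 536870912 50465866
    (rowF 2 false true true .dn 1 3 3 (qsf 536870912 536870912 0 1230186008 3) ndB0q1 ndB6q3 pcB3 cut_B06pp_133_s1 Ext.none)

def k0_B06pp_133_s1 : ∃ t, chk3 f_B06pp_133_s1 t 1 1 1 = true :=
  ⟨(b (l 6) (l 1)), by decide +kernel⟩

theorem c_B06pp_133_s1 : CertF 536870912 536870912 0 1230186008 536870912 50465866 false true true .dn 1 3 3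
    ndB0q1 ndB6q3 pcB3 cut_B06pp_133_s1 Ext.none :=
  certF2 (fam := false) (s1 := true) (s2 := true) (a := 1) (b := 3) (c := 3) (cn := .dn) (n1 := ndB0q1) (n2 := ndB6q3) (pc := pcB3) (cut := cut_B06pp_133_s1) (xt := Ext.none) (P1 := 536870912) (W1 := 536870912) (P2 := 0) (W2 := 1230186008) (P3 := 536870912) (W3 := 50465866)
    rfl (fun _ => rfl) k0_B06pp_133_s1

theorem s_B06pp_133_s1 {κ x : ℝ} (hκ : κ * h0 = ken x) (hx : ((536870912 : ℕ) : ℝ) / S ≤ x)
    (hx' : x ≤ (((536870912 : ℕ) : ℝ) + (50465866 : ℕ)) / S) :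
    AltB (VFD κ) PP tK tL pcB [⟨3, 0, 0, 1449551462⟩] 1 3 3 0 6 (sgb true) (sgb true) x :=
  strip_altBD (m := 1449551462) true rfl hκ (SH.κ0 hκ (SH.hx1 hx).le (SH.hx2 hx').le) (SH.hx1 hx).le (SH.hx2 hx') (covB01).cov (covB63).cov hx hx' c_B06pp_133_s1 cutB_nil (noExt_B)

noncomputable def cut_B06pp_202_s1 : Cut := Cut.of [[⟨4, 0, 0, 1449551462⟩]]

noncomputable def f_B06pp_202_s1 : ℕ → ℕ → ℕ → ℕ → Bool := onCell 0 536870912 1073741824 536870912 536870912 50465866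
    (rowF 0 false true true .pp 2 0 2 (qsf 0 536870912 1073741824 536870912 0) ndB0q2 ndB6q2 pcB0 cut_B06pp_202_s1 Ext.none)

def k0_B06pp_202_s1 : ∃ t, chk3 f_B06pp_202_s1 t 1 1 1 = true :=
  ⟨(l 5), by decide +kernel⟩

theorem c_B06pp_202_s1 : CertF 0 536870912 1073741824 536870912 536870912 50465866 false true true .pp 2 0 2
    ndB0q2 ndB6q2 pcB0 cut_B06pp_202_s1 Ext.none :=
  certF0 (fam := false) (s1 := true) (s2 := true) (a := 2) (b := 0) (c := 2) (cn := .pp) (n1 := ndB0q2) (n2 := ndB6q2) (pc := pcB0) (cut := cut_B06pp_202_s1) (xt := Ext.none) (P1 := 0) (W1 := 536870912) (P2 := 1073741824) (W2 := 536870912) (P3 := 536870912) (W3 := 50465866)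
    rfl k0_B06pp_202_s1

theorem s_B06pp_202_s1 {κ x : ℝ} (hκ : κ * h0 = ken x) (hx : ((536870912 : ℕ) : ℝ) / S ≤ x)
    (hx' : x ≤ (((536870912 : ℕ) : ℝ) + (50465866 : ℕ)) / S) :
    AltB (VFD κ) PP tK tL pcB [⟨3, 0, 0, 1449551462⟩] 2 0 2 0 6 (sgb true) (sgb true) x :=
  strip_altBD (m := 1449551462) true rfl hκ (SH.κ0 hκ (SH.hx1 hx).le (SH.hx2 hx').le) (SH.hx1 hx).le (SH.hx2 hx') (covB02).cov (covB62).cov hx hx' c_B06pp_202_s1 cutB_nil (noExt_B)

noncomputable def cut_B06pp_203_s1 : Cut := Cut.of [[⟨4, 0, 0, 1449551462⟩]]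

noncomputable def f_B06pp_203_s1 : ℕ → ℕ → ℕ → ℕ → Bool := onCell 0 536870912 0 1230186008 536870912 50465866
    (rowF 0 false true true .up 2 0 3 (qsf 0 536870912 0 1230186008 0) ndB0q2 ndB6q3 pcB0 cut_B06pp_203_s1 Ext.none)

def k0_B06pp_203_s1 : ∃ t, chk3 f_B06pp_203_s1 t 1 1 1 = true :=
  ⟨(b (l 2) (b (l 2) (a (l 5) (l 3)))), by decide +kernel⟩

theorem c_B06pp_203_s1 : CertF 0 536870912 0 1230186008 536870912 50465866 false true true .up 2 0 3
    ndB0q2 ndB6q3 pcB0 cut_B06pp_203_s1 Ext.none :=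
  certF0 (fam := false) (s1 := true) (s2 := true) (a := 2) (b := 0) (c := 3) (cn := .up) (n1 := ndB0q2) (n2 := ndB6q3) (pc := pcB0) (cut := cut_B06pp_203_s1) (xt := Ext.none) (P1 := 0) (W1 := 536870912) (P2 := 0) (W2 := 1230186008) (P3 := 536870912) (W3 := 50465866)
    rfl k0_B06pp_203_s1

theorem s_B06pp_203_s1 {κ x : ℝ} (hκ : κ * h0 = ken x) (hx : ((536870912 : ℕ) : ℝ) / S ≤ x)
    (hx' : x ≤ (((536870912 : ℕ) : ℝ) + (50465866 : ℕ)) / S) :
    AltB (VFD κ) PP tK tL pcB [⟨3, 0, 0, 1449551462⟩] 2 0 3 0 6 (sgb true) (sgb true) x :=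
  strip_altBD (m := 1449551462) true rfl hκ (SH.κ0 hκ (SH.hx1 hx).le (SH.hx2 hx').le) (SH.hx1 hx).le (SH.hx2 hx') (covB02).cov (covB63).cov hx hx' c_B06pp_203_s1 cutB_nil (noExt_B)

noncomputable def cut_B06pp_213_s1 : Cut := Cut.of [[⟨4, 0, 0, 1449551462⟩], [⟨0, 1, 0, 67108864⟩, ⟨1, 1, 0, 67108864⟩, ⟨2, 2, 0, 16777216⟩]]

noncomputable def f_B06pp_213_s1 : ℕ → ℕ → ℕ → ℕ → Bool := onCell 0 536870912 0 1230186008 536870912 50465866
    (rowF 0 false true true .pnn 2 1 3 (qsf 0 536870912 0 1230186008 1) ndB0q2 ndB6q3 pcB1 cut_B06pp_213_s1 Ext.none)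

def k0_B06pp_213_s1 : ∃ t, chk3 f_B06pp_213_s1 t 1 1 1 = true :=
  ⟨(a (b (l 3) (l 5)) (b (b (a (l 3) (b (a (l 3) (l 14)) (l 3))) (l 3)) (b (l 3) (l 3)))), by decide +kernel⟩

theorem c_B06pp_213_s1 : CertF 0 536870912 0 1230186008 536870912 50465866 false true true .pnn 2 1 3
    ndB0q2 ndB6q3 pcB1 cut_B06pp_213_s1 Ext.none :=
  certF0 (fam := false) (s1 := true) (s2 := true) (a := 2) (b := 1) (c := 3) (cn := .pnn) (n1 := ndB0q2) (n2 := ndB6q3) (pc := pcB1) (cut := cut_B06pp_213_s1) (xt := Ext.none) (P1 := 0) (W1 := 536870912) (P2 := 0) (W2 := 1230186008) (P3 := 536870912) (W3 := 50465866)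
    rfl k0_B06pp_213_s1

theorem s_B06pp_213_s1 {κ x : ℝ} (hκ : κ * h0 = ken x) (hx : ((536870912 : ℕ) : ℝ) / S ≤ x)
    (hx' : x ≤ (((536870912 : ℕ) : ℝ) + (50465866 : ℕ)) / S)
    (H : CutB (VFD κ) PP tK tL pcB (Cut.of [[⟨0, 1, 0, 67108864⟩, ⟨1, 1, 0, 67108864⟩, ⟨2, 2, 0, 16777216⟩]]) 2 1 3 0 6 (sgb true) (sgb true) x) :
    AltB (VFD κ) PP tK tL pcB [⟨3, 0, 0, 1449551462⟩] 2 1 3 0 6 (sgb true) (sgb true) x :=
  strip_altBD (m := 1449551462) true rfl hκ (SH.κ0 hκ (SH.hx1 hx).le (SH.hx2 hx').le) (SH.hx1 hx).le (SH.hx2 hx') (covB02).cov (covB63).cov hx hx' c_B06pp_213_s1 H (noExt_B)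

noncomputable def cut_B06pm_001_s1 : Cut := Cut.of [[⟨4, 0, 0, 1449551462⟩]]

noncomputable def f_B06pm_001_s1 : ℕ → ℕ → ℕ → ℕ → Bool := onCell 0 536870912 536870912 536870912 536870912 50465866
    (rowF 0 false true false .up 0 0 1 (qsf 0 536870912 536870912 536870912 0) ndB0q0 ndB6q1 pcB0 cut_B06pm_001_s1 Ext.none)

def k0_B06pm_001_s1 : ∃ t, chk3 f_B06pm_001_s1 t 1 1 1 = true :=
  ⟨(l 4), by decide +kernel⟩

theorem c_B06pm_001_s1 : CertF 0 536870912 536870912 536870912 536870912 50465866 false true false .up 0 0 1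
    ndB0q0 ndB6q1 pcB0 cut_B06pm_001_s1 Ext.none :=
  certF0 (fam := false) (s1 := true) (s2 := false) (a := 0) (b := 0) (c := 1) (cn := .up) (n1 := ndB0q0) (n2 := ndB6q1) (pc := pcB0) (cut := cut_B06pm_001_s1) (xt := Ext.none) (P1 := 0) (W1 := 536870912) (P2 := 536870912) (W2 := 536870912) (P3 := 536870912) (W3 := 50465866)
    rfl k0_B06pm_001_s1

theorem s_B06pm_001_s1 {κ x : ℝ} (hκ : κ * h0 = ken x) (hx : ((536870912 : ℕ) : ℝ) / S ≤ x)
    (hx' : x ≤ (((536870912 : ℕ) : ℝ) + (50465866 : ℕ)) / S) :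
    AltB (VFD κ) PP tK tL pcB [⟨3, 0, 0, 1449551462⟩] 0 0 1 0 6 (sgb true) (sgb false) x :=
  strip_altBD (m := 1449551462) true rfl hκ (SH.κ0 hκ (SH.hx1 hx).le (SH.hx2 hx').le) (SH.hx1 hx).le (SH.hx2 hx') (covB00).cov (covB61).cov hx hx' c_B06pm_001_s1 cutB_nil (noExt_B)

noncomputable def cut_B06pm_011_s1 : Cut := Cut.of [[⟨4, 0, 0, 1449551462⟩]]

noncomputable def f_B06pm_011_s1 : ℕ → ℕ → ℕ → ℕ → Bool := onCell 0 536870912 536870912 536870912 536870912 50465866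
    (rowF 0 false true false .pnn 0 1 1 (qsf 0 536870912 536870912 536870912 1) ndB0q0 ndB6q1 pcB1 cut_B06pm_011_s1 Ext.none)

def k0_B06pm_011_s1 : ∃ t, chk3 f_B06pm_011_s1 t 1 1 1 = true :=
  ⟨(l 4), by decide +kernel⟩

theorem c_B06pm_011_s1 : CertF 0 536870912 536870912 536870912 536870912 50465866 false true false .pnn 0 1 1
    ndB0q0 ndB6q1 pcB1 cut_B06pm_011_s1 Ext.none :=
  certF0 (fam := false) (s1 := true) (s2 := false) (a := 0) (b := 1) (c := 1) (cn := .pnn) (n1 := ndB0q0) (n2 := ndB6q1) (pc := pcB1) (cut := cut_B06pm_011_s1) (xt := Ext.none) (P1 := 0) (W1 := 536870912) (P2 := 536870912) (W2 := 536870912) (P3 := 536870912) (W3 := 50465866)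
    rfl k0_B06pm_011_s1

theorem s_B06pm_011_s1 {κ x : ℝ} (hκ : κ * h0 = ken x) (hx : ((536870912 : ℕ) : ℝ) / S ≤ x)
    (hx' : x ≤ (((536870912 : ℕ) : ℝ) + (50465866 : ℕ)) / S) :
    AltB (VFD κ) PP tK tL pcB [⟨3, 0, 0, 1449551462⟩] 0 1 1 0 6 (sgb true) (sgb false) x :=
  strip_altBD (m := 1449551462) true rfl hκ (SH.κ0 hκ (SH.hx1 hx).le (SH.hx2 hx').le) (SH.hx1 hx).le (SH.hx2 hx') (covB00).cov (covB61).cov hx hx' c_B06pm_011_s1 cutB_nil (noExt_B)

noncomputable def cut_B06pm_012_s1 : Cut := Cut.of [[⟨4, 0, 0, 1449551462⟩]]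

noncomputable def f_B06pm_012_s1 : ℕ → ℕ → ℕ → ℕ → Bool := onCell 0 536870912 1073741824 536870912 536870912 50465866
    (rowF 0 false true false .pnp 0 1 2 (qsf 0 536870912 1073741824 536870912 1) ndB0q0 ndB6q2 pcB1 cut_B06pm_012_s1 Ext.none)

def k0_B06pm_012_s1 : ∃ t, chk3 f_B06pm_012_s1 t 1 1 1 = true :=
  ⟨(l 4), by decide +kernel⟩

theorem c_B06pm_012_s1 : CertF 0 536870912 1073741824 536870912 536870912 50465866 false true false .pnp 0 1 2
    ndB0q0 ndB6q2 pcB1 cut_B06pm_012_s1 Ext.none :=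
  certF0 (fam := false) (s1 := true) (s2 := false) (a := 0) (b := 1) (c := 2) (cn := .pnp) (n1 := ndB0q0) (n2 := ndB6q2) (pc := pcB1) (cut := cut_B06pm_012_s1) (xt := Ext.none) (P1 := 0) (W1 := 536870912) (P2 := 1073741824) (W2 := 536870912) (P3 := 536870912) (W3 := 50465866)
    rfl k0_B06pm_012_s1

theorem s_B06pm_012_s1 {κ x : ℝ} (hκ : κ * h0 = ken x) (hx : ((536870912 : ℕ) : ℝ) / S ≤ x)
    (hx' : x ≤ (((536870912 : ℕ) : ℝ) + (50465866 : ℕ)) / S) :
    AltB (VFD κ) PP tK tL pcB [⟨3, 0, 0, 1449551462⟩] 0 1 2 0 6 (sgb true) (sgb false) x :=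
  strip_altBD (m := 1449551462) true rfl hκ (SH.κ0 hκ (SH.hx1 hx).le (SH.hx2 hx').le) (SH.hx1 hx).le (SH.hx2 hx') (covB00).cov (covB62).cov hx hx' c_B06pm_012_s1 cutB_nil (noExt_B)

noncomputable def cut_B06pm_022_s1 : Cut := Cut.of [[⟨4, 0, 0, 1449551462⟩]]

noncomputable def f_B06pm_022_s1 : ℕ → ℕ → ℕ → ℕ → Bool := onCell 0 536870912 1073741824 536870912 536870912 50465866
    (rowF 0 false true false .pp 0 2 2 (qsf 0 536870912 1073741824 536870912 2) ndB0q0 ndB6q2 pcB2 cut_B06pm_022_s1 Ext.none)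

def k0_B06pm_022_s1 : ∃ t, chk3 f_B06pm_022_s1 t 1 1 1 = true :=
  ⟨(l 4), by decide +kernel⟩

theorem c_B06pm_022_s1 : CertF 0 536870912 1073741824 536870912 536870912 50465866 false true false .pp 0 2 2
    ndB0q0 ndB6q2 pcB2 cut_B06pm_022_s1 Ext.none :=
  certF0 (fam := false) (s1 := true) (s2 := false) (a := 0) (b := 2) (c := 2) (cn := .pp) (n1 := ndB0q0) (n2 := ndB6q2) (pc := pcB2) (cut := cut_B06pm_022_s1) (xt := Ext.none) (P1 := 0) (W1 := 536870912) (P2 := 1073741824) (W2 := 536870912) (P3 := 536870912) (W3 := 50465866)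
    rfl k0_B06pm_022_s1

theorem s_B06pm_022_s1 {κ x : ℝ} (hκ : κ * h0 = ken x) (hx : ((536870912 : ℕ) : ℝ) / S ≤ x)
    (hx' : x ≤ (((536870912 : ℕ) : ℝ) + (50465866 : ℕ)) / S) :
    AltB (VFD κ) PP tK tL pcB [⟨3, 0, 0, 1449551462⟩] 0 2 2 0 6 (sgb true) (sgb false) x :=
  strip_altBD (m := 1449551462) true rfl hκ (SH.κ0 hκ (SH.hx1 hx).le (SH.hx2 hx').le) (SH.hx1 hx).le (SH.hx2 hx') (covB00).cov (covB62).cov hx hx' c_B06pm_022_s1 cutB_nil (noExt_B)

noncomputable def cut_B06pm_023_s1 : Cut := Cut.of [[⟨4, 0, 0, 1449551462⟩]]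

noncomputable def f_B06pm_023_s1 : ℕ → ℕ → ℕ → ℕ → Bool := onCell 0 536870912 0 1230186008 536870912 50465866
    (rowF 0 false true false .up 0 2 3 (qsf 0 536870912 0 1230186008 2) ndB0q0 ndB6q3 pcB2 cut_B06pm_023_s1 Ext.none)

def k0_B06pm_023_s1 : ∃ t, chk3 f_B06pm_023_s1 t 1 1 1 = true :=
  ⟨(l 6), by decide +kernel⟩

theorem c_B06pm_023_s1 : CertF 0 536870912 0 1230186008 536870912 50465866 false true false .up 0 2 3
    ndB0q0 ndB6q3 pcB2 cut_B06pm_023_s1 Ext.none :=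
  certF0 (fam := false) (s1 := true) (s2 := false) (a := 0) (b := 2) (c := 3) (cn := .up) (n1 := ndB0q0) (n2 := ndB6q3) (pc := pcB2) (cut := cut_B06pm_023_s1) (xt := Ext.none) (P1 := 0) (W1 := 536870912) (P2 := 0) (W2 := 1230186008) (P3 := 536870912) (W3 := 50465866)
    rfl k0_B06pm_023_s1

theorem s_B06pm_023_s1 {κ x : ℝ} (hκ : κ * h0 = ken x) (hx : ((536870912 : ℕ) : ℝ) / S ≤ x)
    (hx' : x ≤ (((536870912 : ℕ) : ℝ) + (50465866 : ℕ)) / S) :
    AltB (VFD κ) PP tK tL pcB [⟨3, 0, 0, 1449551462⟩] 0 2 3 0 6 (sgb true) (sgb false) x :=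
  strip_altBD (m := 1449551462) true rfl hκ (SH.κ0 hκ (SH.hx1 hx).le (SH.hx2 hx').le) (SH.hx1 hx).le (SH.hx2 hx') (covB00).cov (covB63).cov hx hx' c_B06pm_023_s1 cutB_nil (noExt_B)

noncomputable def cut_B06pm_033_s1 : Cut := Cut.of [[⟨4, 0, 0, 1449551462⟩]]

noncomputable def f_B06pm_033_s1 : ℕ → ℕ → ℕ → ℕ → Bool := onCell 0 536870912 0 1230186008 536870912 50465866
    (rowF 0 false true false .pnn 0 3 3 (qsf 0 536870912 0 1230186008 3) ndB0q0 ndB6q3 pcB3 cut_B06pm_033_s1 Ext.none)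

def k0_B06pm_033_s1 : ∃ t, chk3 f_B06pm_033_s1 t 1 1 1 = true :=
  ⟨(l 6), by decide +kernel⟩

theorem c_B06pm_033_s1 : CertF 0 536870912 0 1230186008 536870912 50465866 false true false .pnn 0 3 3
    ndB0q0 ndB6q3 pcB3 cut_B06pm_033_s1 Ext.none :=
  certF0 (fam := false) (s1 := true) (s2 := false) (a := 0) (b := 3) (c := 3) (cn := .pnn) (n1 := ndB0q0) (n2 := ndB6q3) (pc := pcB3) (cut := cut_B06pm_033_s1) (xt := Ext.none) (P1 := 0) (W1 := 536870912) (P2 := 0) (W2 := 1230186008) (P3 := 536870912) (W3 := 50465866)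
    rfl k0_B06pm_033_s1

theorem s_B06pm_033_s1 {κ x : ℝ} (hκ : κ * h0 = ken x) (hx : ((536870912 : ℕ) : ℝ) / S ≤ x)
    (hx' : x ≤ (((536870912 : ℕ) : ℝ) + (50465866 : ℕ)) / S) :
    AltB (VFD κ) PP tK tL pcB [⟨3, 0, 0, 1449551462⟩] 0 3 3 0 6 (sgb true) (sgb false) x :=
  strip_altBD (m := 1449551462) true rfl hκ (SH.κ0 hκ (SH.hx1 hx).le (SH.hx2 hx').le) (SH.hx1 hx).le (SH.hx2 hx') (covB00).cov (covB63).cov hx hx' c_B06pm_033_s1 cutB_nil (noExt_B)

noncomputable def cut_B06pm_101_s1 : Cut := Cut.of [[⟨4, 0, 0, 1449551462⟩]]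

noncomputable def f_B06pm_101_s1 : ℕ → ℕ → ℕ → ℕ → Bool := onCell 536870912 536870912 536870912 536870912 536870912 50465866
    (rowF 0 false true false .npn 1 0 1 (qsf 536870912 536870912 536870912 536870912 0) ndB0q1 ndB6q1 pcB0 cut_B06pm_101_s1 Ext.none)

def k0_B06pm_101_s1 : ∃ t, chk3 f_B06pm_101_s1 t 1 1 1 = true :=
  ⟨(l 4), by decide +kernel⟩

theorem c_B06pm_101_s1 : CertF 536870912 536870912 536870912 536870912 536870912 50465866 false true false .npn 1 0 1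
    ndB0q1 ndB6q1 pcB0 cut_B06pm_101_s1 Ext.none :=
  certF0 (fam := false) (s1 := true) (s2 := false) (a := 1) (b := 0) (c := 1) (cn := .npn) (n1 := ndB0q1) (n2 := ndB6q1) (pc := pcB0) (cut := cut_B06pm_101_s1) (xt := Ext.none) (P1 := 536870912) (W1 := 536870912) (P2 := 536870912) (W2 := 536870912) (P3 := 536870912) (W3 := 50465866)
    rfl k0_B06pm_101_s1

theorem s_B06pm_101_s1 {κ x : ℝ} (hκ : κ * h0 = ken x) (hx : ((536870912 : ℕ) : ℝ) / S ≤ x)
    (hx' : x ≤ (((536870912 : ℕ) : ℝ) + (50465866 : ℕ)) / S) :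
    AltB (VFD κ) PP tK tL pcB [⟨3, 0, 0, 1449551462⟩] 1 0 1 0 6 (sgb true) (sgb false) x :=
  strip_altBD (m := 1449551462) true rfl hκ (SH.κ0 hκ (SH.hx1 hx).le (SH.hx2 hx').le) (SH.hx1 hx).le (SH.hx2 hx') (covB01).cov (covB61).cov hx hx' c_B06pm_101_s1 cutB_nil (noExt_B)

noncomputable def cut_B06pm_102_s1 : Cut := Cut.of [[⟨4, 0, 0, 1449551462⟩]]

noncomputable def f_B06pm_102_s1 : ℕ → ℕ → ℕ → ℕ → Bool := onCell 536870912 536870912 1073741824 536870912 536870912 50465866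
    (rowF 0 false true false .npp 1 0 2 (qsf 536870912 536870912 1073741824 536870912 0) ndB0q1 ndB6q2 pcB0 cut_B06pm_102_s1 Ext.none)

def k0_B06pm_102_s1 : ∃ t, chk3 f_B06pm_102_s1 t 1 1 1 = true :=
  ⟨(l 6), by decide +kernel⟩

theorem c_B06pm_102_s1 : CertF 536870912 536870912 1073741824 536870912 536870912 50465866 false true false .npp 1 0 2
    ndB0q1 ndB6q2 pcB0 cut_B06pm_102_s1 Ext.none :=
  certF0 (fam := false) (s1 := true) (s2 := false) (a := 1) (b := 0) (c := 2) (cn := .npp) (n1 := ndB0q1) (n2 := ndB6q2) (pc := pcB0) (cut := cut_B06pm_102_s1) (xt := Ext.none) (P1 := 536870912) (W1 := 536870912) (P2 := 1073741824) (W2 := 536870912) (P3 := 536870912) (W3 := 50465866)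
    rfl k0_B06pm_102_s1

theorem s_B06pm_102_s1 {κ x : ℝ} (hκ : κ * h0 = ken x) (hx : ((536870912 : ℕ) : ℝ) / S ≤ x)
    (hx' : x ≤ (((536870912 : ℕ) : ℝ) + (50465866 : ℕ)) / S) :
    AltB (VFD κ) PP tK tL pcB [⟨3, 0, 0, 1449551462⟩] 1 0 2 0 6 (sgb true) (sgb false) x :=
  strip_altBD (m := 1449551462) true rfl hκ (SH.κ0 hκ (SH.hx1 hx).le (SH.hx2 hx').le) (SH.hx1 hx).le (SH.hx2 hx') (covB01).cov (covB62).cov hx hx' c_B06pm_102_s1 cutB_nil (noExt_B)

noncomputable def cut_B06pm_112_s1 : Cut := Cut.of [[⟨4, 0, 0, 1449551462⟩]]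

noncomputable def f_B06pm_112_s1 : ℕ → ℕ → ℕ → ℕ → Bool := onCell 536870912 536870912 1073741824 536870912 536870912 50465866
    (rowF 0 false true false .dn 1 1 2 (qsf 536870912 536870912 1073741824 536870912 1) ndB0q1 ndB6q2 pcB1 cut_B06pm_112_s1 Ext.none)

def k0_B06pm_112_s1 : ∃ t, chk3 f_B06pm_112_s1 t 1 1 1 = true :=
  ⟨(l 6), by decide +kernel⟩

theorem c_B06pm_112_s1 : CertF 536870912 536870912 1073741824 536870912 536870912 50465866 false true false .dn 1 1 2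
    ndB0q1 ndB6q2 pcB1 cut_B06pm_112_s1 Ext.none :=
  certF0 (fam := false) (s1 := true) (s2 := false) (a := 1) (b := 1) (c := 2) (cn := .dn) (n1 := ndB0q1) (n2 := ndB6q2) (pc := pcB1) (cut := cut_B06pm_112_s1) (xt := Ext.none) (P1 := 536870912) (W1 := 536870912) (P2 := 1073741824) (W2 := 536870912) (P3 := 536870912) (W3 := 50465866)
    rfl k0_B06pm_112_s1

theorem s_B06pm_112_s1 {κ x : ℝ} (hκ : κ * h0 = ken x) (hx : ((536870912 : ℕ) : ℝ) / S ≤ x)
    (hx' : x ≤ (((536870912 : ℕ) : ℝ) + (50465866 : ℕ)) / S) :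
    AltB (VFD κ) PP tK tL pcB [⟨3, 0, 0, 1449551462⟩] 1 1 2 0 6 (sgb true) (sgb false) x :=
  strip_altBD (m := 1449551462) true rfl hκ (SH.κ0 hκ (SH.hx1 hx).le (SH.hx2 hx').le) (SH.hx1 hx).le (SH.hx2 hx') (covB01).cov (covB62).cov hx hx' c_B06pm_112_s1 cutB_nil (noExt_B)

noncomputable def cut_B06pm_113_s1 : Cut := Cut.of [[⟨4, 0, 0, 1449551462⟩], [⟨0, 1, 0, 67108864⟩, ⟨1, 1, 0, 67108864⟩, ⟨2, 2, 0, 16777216⟩]]

noncomputable def f_B06pm_113_s1 : ℕ → ℕ → ℕ → ℕ → Bool := onCell 536870912 536870912 0 1230186008 536870912 50465866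
    (rowF 0 false true false .nn 1 1 3 (qsf 536870912 536870912 0 1230186008 1) ndB0q1 ndB6q3 pcB1 cut_B06pm_113_s1 Ext.none)

def k0_B06pm_113_s1 : ∃ t, chk3 f_B06pm_113_s1 t 1 1 1 = true :=
  ⟨(b (a (l 2) (a (l 2) (a (b (l 2) (l 6)) (b (a (l 2) (b (l 14) (l 16790560))) (b (l 16812416) (l 6)))))) (b (l 6) (l 6))), by decide +kernel⟩

theorem c_B06pm_113_s1 : CertF 536870912 536870912 0 1230186008 536870912 50465866 false true false .nn 1 1 3
    ndB0q1 ndB6q3 pcB1 cut_B06pm_113_s1 Ext.none :=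
  certF0 (fam := false) (s1 := true) (s2 := false) (a := 1) (b := 1) (c := 3) (cn := .nn) (n1 := ndB0q1) (n2 := ndB6q3) (pc := pcB1) (cut := cut_B06pm_113_s1) (xt := Ext.none) (P1 := 536870912) (W1 := 536870912) (P2 := 0) (W2 := 1230186008) (P3 := 536870912) (W3 := 50465866)
    rfl k0_B06pm_113_s1

theorem s_B06pm_113_s1 {κ x : ℝ} (hκ : κ * h0 = ken x) (hx : ((536870912 : ℕ) : ℝ) / S ≤ x)
    (hx' : x ≤ (((536870912 : ℕ) : ℝ) + (50465866 : ℕ)) / S)
    (H : CutB (VFD κ) PP tK tL pcB (Cut.of [[⟨0, 1, 0, 67108864⟩, ⟨1, 1, 0, 67108864⟩, ⟨2, 2, 0, 16777216⟩]]) 1 1 3 0 6 (sgb true) (sgb false) x) :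
    AltB (VFD κ) PP tK tL pcB [⟨3, 0, 0, 1449551462⟩] 1 1 3 0 6 (sgb true) (sgb false) x :=
  strip_altBD (m := 1449551462) true rfl hκ (SH.κ0 hκ (SH.hx1 hx).le (SH.hx2 hx').le) (SH.hx1 hx).le (SH.hx2 hx') (covB01).cov (covB63).cov hx hx' c_B06pm_113_s1 H (noExt_B)

noncomputable def cut_B06pm_123_s1 : Cut := Cut.of [[⟨4, 0, 0, 1449551462⟩], [⟨0, 1, 0, 67108864⟩, ⟨1, 1, 0, 67108864⟩, ⟨2, 2, 0, 16777216⟩]]

noncomputable def f_B06pm_123_s1 : ℕ → ℕ → ℕ → ℕ → Bool := onCell 1073741824 536870912 0 1230186008 536870912 50465866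
    (rowF 2 false true false .npn 1 2 3 (qsf 536870912 536870912 0 1230186008 2) ndB0q1 ndB6q3 pcB2 cut_B06pm_123_s1 Ext.none)

def k0_B06pm_123_s1 : ∃ t, chk3 f_B06pm_123_s1 t 1 1 1 = true :=
  ⟨(b (a (a (b (a (b (a (l 14) (b (l 16772656) (l 16773960))) (b (l 16780200) (l 16788832))) (b (a (l 16768344) (l 16761904)) (l 6))) (b (l 6) (l 6))) (b (b (l 6) (l 6)) (l 6))) (l 6)) (l 6)), by decide +kernel⟩

theorem c_B06pm_123_s1 : CertF 536870912 536870912 0 1230186008 536870912 50465866 false true false .npn 1 2 3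
    ndB0q1 ndB6q3 pcB2 cut_B06pm_123_s1 Ext.none :=
  certF2 (fam := false) (s1 := true) (s2 := false) (a := 1) (b := 2) (c := 3) (cn := .npn) (n1 := ndB0q1) (n2 := ndB6q3) (pc := pcB2) (cut := cut_B06pm_123_s1) (xt := Ext.none) (P1 := 536870912) (W1 := 536870912) (P2 := 0) (W2 := 1230186008) (P3 := 536870912) (W3 := 50465866)
    rfl (fun _ => rfl) k0_B06pm_123_s1

theorem s_B06pm_123_s1 {κ x : ℝ} (hκ : κ * h0 = ken x) (hx : ((536870912 : ℕ) : ℝ) / S ≤ x)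
    (hx' : x ≤ (((536870912 : ℕ) : ℝ) + (50465866 : ℕ)) / S)
    (H : CutB (VFD κ) PP tK tL pcB (Cut.of [[⟨0, 1, 0, 67108864⟩, ⟨1, 1, 0, 67108864⟩, ⟨2, 2, 0, 16777216⟩]]) 1 2 3 0 6 (sgb true) (sgb false) x) :
    AltB (VFD κ) PP tK tL pcB [⟨3, 0, 0, 1449551462⟩] 1 2 3 0 6 (sgb true) (sgb false) x :=
  strip_altBD (m := 1449551462) true rfl hκ (SH.κ0 hκ (SH.hx1 hx).le (SH.hx2 hx').le) (SH.hx1 hx).le (SH.hx2 hx') (covB01).cov (covB63).cov hx hx' c_B06pm_123_s1 H (noExt_B)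

noncomputable def cut_B06pm_133_s1 : Cut := Cut.of [[⟨4, 0, 0, 1449551462⟩]]

noncomputable def f_B06pm_133_s1 : ℕ → ℕ → ℕ → ℕ → Bool := onCell 1610612736 536870912 0 1230186008 536870912 50465866
    (rowF 2 false true false .dn 1 3 3 (qsf 536870912 536870912 0 1230186008 3) ndB0q1 ndB6q3 pcB3 cut_B06pm_133_s1 Ext.none)

def k0_B06pm_133_s1 : ∃ t, chk3 f_B06pm_133_s1 t 1 1 1 = true :=
  ⟨(l 6), by decide +kernel⟩

theorem c_B06pm_133_s1 : CertF 536870912 536870912 0 1230186008 536870912 50465866 false true false .dn 1 3 3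
    ndB0q1 ndB6q3 pcB3 cut_B06pm_133_s1 Ext.none :=
  certF2 (fam := false) (s1 := true) (s2 := false) (a := 1) (b := 3) (c := 3) (cn := .dn) (n1 := ndB0q1) (n2 := ndB6q3) (pc := pcB3) (cut := cut_B06pm_133_s1) (xt := Ext.none) (P1 := 536870912) (W1 := 536870912) (P2 := 0) (W2 := 1230186008) (P3 := 536870912) (W3 := 50465866)
    rfl (fun _ => rfl) k0_B06pm_133_s1

theorem s_B06pm_133_s1 {κ x : ℝ} (hκ : κ * h0 = ken x) (hx : ((536870912 : ℕ) : ℝ) / S ≤ x)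
    (hx' : x ≤ (((536870912 : ℕ) : ℝ) + (50465866 : ℕ)) / S) :
    AltB (VFD κ) PP tK tL pcB [⟨3, 0, 0, 1449551462⟩] 1 3 3 0 6 (sgb true) (sgb false) x :=
  strip_altBD (m := 1449551462) true rfl hκ (SH.κ0 hκ (SH.hx1 hx).le (SH.hx2 hx').le) (SH.hx1 hx).le (SH.hx2 hx') (covB01).cov (covB63).cov hx hx' c_B06pm_133_s1 cutB_nil (noExt_B)

noncomputable def cut_B06pm_202_s1 : Cut := Cut.of [[⟨4, 0, 0, 1449551462⟩]]

noncomputable def f_B06pm_202_s1 : ℕ → ℕ → ℕ → ℕ → Bool := onCell 0 536870912 1073741824 536870912 536870912 50465866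
    (rowF 0 false true false .pp 2 0 2 (qsf 0 536870912 1073741824 536870912 0) ndB0q2 ndB6q2 pcB0 cut_B06pm_202_s1 Ext.none)

def k0_B06pm_202_s1 : ∃ t, chk3 f_B06pm_202_s1 t 1 1 1 = true :=
  ⟨(a (b (l 6) (b (l 6) (l 6))) (l 6)), by decide +kernel⟩

theorem c_B06pm_202_s1 : CertF 0 536870912 1073741824 536870912 536870912 50465866 false true false .pp 2 0 2
    ndB0q2 ndB6q2 pcB0 cut_B06pm_202_s1 Ext.none :=
  certF0 (fam := false) (s1 := true) (s2 := false) (a := 2) (b := 0) (c := 2) (cn := .pp) (n1 := ndB0q2) (n2 := ndB6q2) (pc := pcB0) (cut := cut_B06pm_202_s1) (xt := Ext.none) (P1 := 0) (W1 := 536870912) (P2 := 1073741824) (W2 := 536870912) (P3 := 536870912) (W3 := 50465866)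
    rfl k0_B06pm_202_s1

theorem s_B06pm_202_s1 {κ x : ℝ} (hκ : κ * h0 = ken x) (hx : ((536870912 : ℕ) : ℝ) / S ≤ x)
    (hx' : x ≤ (((536870912 : ℕ) : ℝ) + (50465866 : ℕ)) / S) :
    AltB (VFD κ) PP tK tL pcB [⟨3, 0, 0, 1449551462⟩] 2 0 2 0 6 (sgb true) (sgb false) x :=
  strip_altBD (m := 1449551462) true rfl hκ (SH.κ0 hκ (SH.hx1 hx).le (SH.hx2 hx').le) (SH.hx1 hx).le (SH.hx2 hx') (covB02).cov (covB62).cov hx hx' c_B06pm_202_s1 cutB_nil (noExt_B)

noncomputable def cut_B06pm_203_s1 : Cut := Cut.of [[⟨4, 0, 0, 1449551462⟩]]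

noncomputable def f_B06pm_203_s1 : ℕ → ℕ → ℕ → ℕ → Bool := onCell 0 536870912 0 1230186008 536870912 50465866
    (rowF 0 false true false .up 2 0 3 (qsf 0 536870912 0 1230186008 0) ndB0q2 ndB6q3 pcB0 cut_B06pm_203_s1 Ext.none)

def k0_B06pm_203_s1 : ∃ t, chk3 f_B06pm_203_s1 t 1 1 1 = true :=
  ⟨(b (l 2) (b (l 2) (a (b (b (l 2) (a (a (b (l 2) (l 16787888)) (l 16824984)) (a (l 16876632) (l 6)))) (a (b (a (b (l 16813504) (l 16821144)) (l 17004864)) (a (b (l 16809944) (l 16790000)) (l 6))) (l 6))) (l 6)))), by decide +kernel⟩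

theorem c_B06pm_203_s1 : CertF 0 536870912 0 1230186008 536870912 50465866 false true false .up 2 0 3
    ndB0q2 ndB6q3 pcB0 cut_B06pm_203_s1 Ext.none :=
  certF0 (fam := false) (s1 := true) (s2 := false) (a := 2) (b := 0) (c := 3) (cn := .up) (n1 := ndB0q2) (n2 := ndB6q3) (pc := pcB0) (cut := cut_B06pm_203_s1) (xt := Ext.none) (P1 := 0) (W1 := 536870912) (P2 := 0) (W2 := 1230186008) (P3 := 536870912) (W3 := 50465866)
    rfl k0_B06pm_203_s1

theorem s_B06pm_203_s1 {κ x : ℝ} (hκ : κ * h0 = ken x) (hx : ((536870912 : ℕ) : ℝ) / S ≤ x)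
    (hx' : x ≤ (((536870912 : ℕ) : ℝ) + (50465866 : ℕ)) / S) :
    AltB (VFD κ) PP tK tL pcB [⟨3, 0, 0, 1449551462⟩] 2 0 3 0 6 (sgb true) (sgb false) x :=
  strip_altBD (m := 1449551462) true rfl hκ (SH.κ0 hκ (SH.hx1 hx).le (SH.hx2 hx').le) (SH.hx1 hx).le (SH.hx2 hx') (covB02).cov (covB63).cov hx hx' c_B06pm_203_s1 cutB_nil (noExt_B)

noncomputable def cut_B06pm_213_s1 : Cut := Cut.of [[⟨4, 0, 0, 1449551462⟩], [⟨0, 1, 0, 67108864⟩, ⟨1, 1, 0, 67108864⟩, ⟨2, 2, 0, 16777216⟩]]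

noncomputable def xt_B06pm_213_s1 : Ext := strExt6 dd false true false .u2 .s2m .u0m .pnn 2 1 3 rfl rfl gf1 vv ww ndB0q2 ndB6q3

noncomputable def f_B06pm_213_s1 : ℕ → ℕ → ℕ → ℕ → Bool := onCell 0 536870912 0 1230186008 536870912 50465866
    (rowF 0 false true false .pnn 2 1 3 (qsf 0 536870912 0 1230186008 1) ndB0q2 ndB6q3 pcB1 cut_B06pm_213_s1 xt_B06pm_213_s1)

def k0_B06pm_213_s1 : ∃ t, chk3 f_B06pm_213_s1 t 1 2 1 = true :=
  ⟨(a (a (l 3) (b (l 3) (b (l 3) (a (b (l 3) (a (l 3) (l 1073660431))) (b (l 1073983503) (a (l 1073568783) (l 1073671695))))))) (b (a (a (l 3) (b (l 3) (a (l 3) (b (l 3) (l 1074627599))))) (b (a (a (l 3) (l 14)) (l 14)) (a (b (a (l 1074441231) (a (l 1074411535) (l 14))) (a (l 1074650127) (b (l 16783120) (l 16786528)))) (b (b (l 14) (a (l 16783632) (l 16785936))) (a (b (l 16786336) (l 16789080)) (l 16790600)))))) (a (b (a (b (a (l 3) (l 1074109967)) (a (l 1073709071) (l 1074043919)))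 (b (a (l 1074424847) (l 1074685967)) (a (b (l 1074378767) (l 16781992)) (b (l 16785656) (l 16787832))))) (a (b (a (l 1073666575) (b (l 16778768) (l 16779200))) (a (b (l 16777416) (l 16777928)) (b (l 16780728) (l 16781528)))) (b (a (b (l 16783152) (l 16785016)) (l 16790392)) (l 16791104)))) (b (a (b (a (b (l 16785624) (l 16788520)) (b (l 16789296) (l 16791600))) (a (l 16874672) (l 16795672))) (a (l 16797512) (l 16804384))) (a (b (l 16799456) (l 16806912)) (b (l 6) (l 6))))))), by decide +kernel⟩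

def k1_B06pm_213_s1 : ∃ t, chk3 f_B06pm_213_s1 t 1 3 1 = true :=
  ⟨(b (a (b (a (a (l 3) (b (l 3) (a (l 3) (b (l 1074105871) (l 1074443791))))) (a (b (a (l 1074062863) (l 1073884687)) (a (l 1074113551) (b (l 16778200) (l 16778904)))) (b (a (b (l 1073747983) (l 16777464)) (b (l 16692944) (l 16778128))) (a (b (l 16694056) (l 16778792)) (l 16777760))))) (a (a (b (a (l 3) (l 1074536975)) (a (b (l 1075198479) (l 1075866127)) (l 1075560463))) (b (a (l 1074692111) (b (l 1074655759) (l 16784064))) (a (b (l 1074958863) (l 16792640)) (b (l 16791320) (l 16802512))))) (b (a (a (b (l 16782080) (l 16788792)) (b (l 16783752) (l 16787408))) (l 16780568)) (a (l 16801928) (l 16794744))))) (a (b (a (b (a (l 16866328) (l 16783368)) (l 16782504)) (b (l 16795800) (l 16798808))) (b (a (l 16782304) (l 6)) (l 6))) (b (l 6) (l 6)))) (a (b (a (b (a (a (b (b (l 1076801551) (l 16770712)) (l 16799264)) (b (l 16799608) (l 16813560))) (b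 (l 16912824) (l 16844400))) (a (a (b (l 16804016) (l 16818160)) (l 16830152)) (l 16865568))) (a (b (l 16840192) (l 16918128)) (l 6))) (a (l 1) (l 6))) (l 6))), by decide +kernel⟩

theorem t2_B06pm_213_s1 : ∃ t, chk3 f_B06pm_213_s1 t 1 1 1 = true := ex3_b k0_B06pm_213_s1 k1_B06pm_213_s1

theorem c_B06pm_213_s1 : CertF 0 536870912 0 1230186008 536870912 50465866 false true false .pnn 2 1 3
    ndB0q2 ndB6q3 pcB1 cut_B06pm_213_s1 xt_B06pm_213_s1 :=
  certF0 (fam := false) (s1 := true) (s2 := false) (a := 2) (b := 1) (c := 3) (cn := .pnn) (n1 := ndB0q2) (n2 := ndB6q3) (pc := pcB1) (cut := cut_B06pm_213_s1) (xt := xt_B06pm_213_s1) (P1 := 0) (W1 := 536870912) (P2 := 0) (W2 := 1230186008) (P3 := 536870912) (W3 := 50465866)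
    rfl t2_B06pm_213_s1

theorem s_B06pm_213_s1 {κ x : ℝ} (hκ : κ * h0 = ken x) (hx : ((536870912 : ℕ) : ℝ) / S ≤ x)
    (hx' : x ≤ (((536870912 : ℕ) : ℝ) + (50465866 : ℕ)) / S)
    (H : CutB (VFD κ) PP tK tL pcB (Cut.of [[⟨0, 1, 0, 67108864⟩, ⟨1, 1, 0, 67108864⟩, ⟨2, 2, 0, 16777216⟩]]) 2 1 3 0 6 (sgb true) (sgb false) x) :
    AltB (VFD κ) PP tK tL pcB [⟨3, 0, 0, 1449551462⟩] 2 1 3 0 6 (sgb true) (sgb false) x :=
  strip_altBD (m := 1449551462) true rfl hκ (SH.κ0 hκ (SH.hx1 hx).le (SH.hx2 hx').le) (SH.hx1 hx).le (SH.hx2 hx') (covB02).cov (covB63).cov hx hx' c_B06pm_213_s1 H ((okx6 hx hx').extB (T := tt) (okx hx hx') (sideB hx hx') hκ rfl rfl (.O 2 true) (.N 3 false) (Or.inr rfl))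

noncomputable def cut_B06mm_001_s1 : Cut := Cut.of [[⟨4, 0, 0, 1449551462⟩]]

noncomputable def f_B06mm_001_s1 : ℕ → ℕ → ℕ → ℕ → Bool := onCell 0 536870912 0 536870912 536870912 50465866
    (rowF 1 false false false .up 0 0 1 (qsf 0 536870912 536870912 536870912 0) ndB0q0 ndB6q1 pcB0 cut_B06mm_001_s1 Ext.none)

def k0_B06mm_001_s1 : ∃ t, chk3 f_B06mm_001_s1 t 1 1 1 = true :=
  ⟨(l 3), by decide +kernel⟩

theorem c_B06mm_001_s1 : CertF 0 536870912 536870912 536870912 536870912 50465866 false false false .up 0 0 1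
    ndB0q0 ndB6q1 pcB0 cut_B06mm_001_s1 Ext.none :=
  certF1 (fam := false) (s1 := false) (s2 := false) (a := 0) (b := 0) (c := 1) (cn := .up) (n1 := ndB0q0) (n2 := ndB6q1) (pc := pcB0) (cut := cut_B06mm_001_s1) (xt := Ext.none) (P1 := 0) (W1 := 536870912) (P2 := 536870912) (W2 := 536870912) (P3 := 536870912) (W3 := 50465866)
    rfl (fun _ => rfl) k0_B06mm_001_s1

theorem s_B06mm_001_s1 {κ x : ℝ} (hκ : κ * h0 = ken x) (hx : ((536870912 : ℕ) : ℝ) / S ≤ x)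
    (hx' : x ≤ (((536870912 : ℕ) : ℝ) + (50465866 : ℕ)) / S) :
    AltB (VFD κ) PP tK tL pcB [⟨3, 0, 0, 1449551462⟩] 0 0 1 0 6 (sgb false) (sgb false) x :=
  strip_altBD (m := 1449551462) true rfl hκ (SH.κ0 hκ (SH.hx1 hx).le (SH.hx2 hx').le) (SH.hx1 hx).le (SH.hx2 hx') (covB00).cov (covB61).cov hx hx' c_B06mm_001_s1 cutB_nil (noExt_B)

noncomputable def cut_B06mm_011_s1 : Cut := Cut.of [[⟨4, 0, 0, 1449551462⟩]]

noncomputable def f_B06mm_011_s1 : ℕ → ℕ → ℕ → ℕ → Bool := onCell 0 536870912 536870912 536870912 536870912 50465866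
    (rowF 1 false false false .pnn 0 1 1 (qsf 0 536870912 536870912 536870912 1) ndB0q0 ndB6q1 pcB1 cut_B06mm_011_s1 Ext.none)

def k0_B06mm_011_s1 : ∃ t, chk3 f_B06mm_011_s1 t 1 1 1 = true :=
  ⟨(l 5), by decide +kernel⟩

theorem c_B06mm_011_s1 : CertF 0 536870912 536870912 536870912 536870912 50465866 false false false .pnn 0 1 1
    ndB0q0 ndB6q1 pcB1 cut_B06mm_011_s1 Ext.none :=
  certF1 (fam := false) (s1 := false) (s2 := false) (a := 0) (b := 1) (c := 1) (cn := .pnn) (n1 := ndB0q0) (n2 := ndB6q1) (pc := pcB1) (cut := cut_B06mm_011_s1) (xt := Ext.none) (P1 := 0) (W1 := 536870912) (P2 := 536870912) (W2 := 536870912) (P3 := 536870912) (W3 := 50465866)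
    rfl (fun _ => rfl) k0_B06mm_011_s1

theorem s_B06mm_011_s1 {κ x : ℝ} (hκ : κ * h0 = ken x) (hx : ((536870912 : ℕ) : ℝ) / S ≤ x)
    (hx' : x ≤ (((536870912 : ℕ) : ℝ) + (50465866 : ℕ)) / S) :
    AltB (VFD κ) PP tK tL pcB [⟨3, 0, 0, 1449551462⟩] 0 1 1 0 6 (sgb false) (sgb false) x :=
  strip_altBD (m := 1449551462) true rfl hκ (SH.κ0 hκ (SH.hx1 hx).le (SH.hx2 hx').le) (SH.hx1 hx).le (SH.hx2 hx') (covB00).cov (covB61).cov hx hx' c_B06mm_011_s1 cutB_nil (noExt_B)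

noncomputable def cut_B06mm_012_s1 : Cut := Cut.of [[⟨4, 0, 0, 1449551462⟩]]

noncomputable def f_B06mm_012_s1 : ℕ → ℕ → ℕ → ℕ → Bool := onCell 0 536870912 1073741824 536870912 536870912 50465866
    (rowF 0 false false false .pnp 0 1 2 (qsf 0 536870912 1073741824 536870912 1) ndB0q0 ndB6q2 pcB1 cut_B06mm_012_s1 Ext.none)

def k0_B06mm_012_s1 : ∃ t, chk3 f_B06mm_012_s1 t 1 1 1 = true :=
  ⟨(l 5), by decide +kernel⟩

theorem c_B06mm_012_s1 : CertF 0 536870912 1073741824 536870912 536870912 50465866 false false false .pnp 0 1 2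
    ndB0q0 ndB6q2 pcB1 cut_B06mm_012_s1 Ext.none :=
  certF0 (fam := false) (s1 := false) (s2 := false) (a := 0) (b := 1) (c := 2) (cn := .pnp) (n1 := ndB0q0) (n2 := ndB6q2) (pc := pcB1) (cut := cut_B06mm_012_s1) (xt := Ext.none) (P1 := 0) (W1 := 536870912) (P2 := 1073741824) (W2 := 536870912) (P3 := 536870912) (W3 := 50465866)
    rfl k0_B06mm_012_s1

theorem s_B06mm_012_s1 {κ x : ℝ} (hκ : κ * h0 = ken x) (hx : ((536870912 : ℕ) : ℝ) / S ≤ x)
    (hx' : x ≤ (((536870912 : ℕ) : ℝ) + (50465866 : ℕ)) / S) :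
    AltB (VFD κ) PP tK tL pcB [⟨3, 0, 0, 1449551462⟩] 0 1 2 0 6 (sgb false) (sgb false) x :=
  strip_altBD (m := 1449551462) true rfl hκ (SH.κ0 hκ (SH.hx1 hx).le (SH.hx2 hx').le) (SH.hx1 hx).le (SH.hx2 hx') (covB00).cov (covB62).cov hx hx' c_B06mm_012_s1 cutB_nil (noExt_B)

noncomputable def cut_B06mm_022_s1 : Cut := Cut.of [[⟨4, 0, 0, 1449551462⟩]]

noncomputable def f_B06mm_022_s1 : ℕ → ℕ → ℕ → ℕ → Bool := onCell 0 536870912 1073741824 536870912 536870912 50465866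
    (rowF 0 false false false .pp 0 2 2 (qsf 0 536870912 1073741824 536870912 2) ndB0q0 ndB6q2 pcB2 cut_B06mm_022_s1 Ext.none)

def k0_B06mm_022_s1 : ∃ t, chk3 f_B06mm_022_s1 t 1 1 1 = true :=
  ⟨(l 5), by decide +kernel⟩

theorem c_B06mm_022_s1 : CertF 0 536870912 1073741824 536870912 536870912 50465866 false false false .pp 0 2 2
    ndB0q0 ndB6q2 pcB2 cut_B06mm_022_s1 Ext.none :=
  certF0 (fam := false) (s1 := false) (s2 := false) (a := 0) (b := 2) (c := 2) (cn := .pp) (n1 := ndB0q0) (n2 := ndB6q2) (pc := pcB2) (cut := cut_B06mm_022_s1) (xt := Ext.none) (P1 := 0) (W1 := 536870912) (P2 := 1073741824) (W2 := 536870912) (P3 := 536870912) (W3 := 50465866)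
    rfl k0_B06mm_022_s1

theorem s_B06mm_022_s1 {κ x : ℝ} (hκ : κ * h0 = ken x) (hx : ((536870912 : ℕ) : ℝ) / S ≤ x)
    (hx' : x ≤ (((536870912 : ℕ) : ℝ) + (50465866 : ℕ)) / S) :
    AltB (VFD κ) PP tK tL pcB [⟨3, 0, 0, 1449551462⟩] 0 2 2 0 6 (sgb false) (sgb false) x :=
  strip_altBD (m := 1449551462) true rfl hκ (SH.κ0 hκ (SH.hx1 hx).le (SH.hx2 hx').le) (SH.hx1 hx).le (SH.hx2 hx') (covB00).cov (covB62).cov hx hx' c_B06mm_022_s1 cutB_nil (noExt_B)

noncomputable def cut_B06mm_023_s1 : Cut := Cut.of [[⟨4, 0, 0, 1449551462⟩]]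

noncomputable def f_B06mm_023_s1 : ℕ → ℕ → ℕ → ℕ → Bool := onCell 0 536870912 0 1230186008 536870912 50465866
    (rowF 0 false false false .up 0 2 3 (qsf 0 536870912 0 1230186008 2) ndB0q0 ndB6q3 pcB2 cut_B06mm_023_s1 Ext.none)

def k0_B06mm_023_s1 : ∃ t, chk3 f_B06mm_023_s1 t 1 1 1 = true :=
  ⟨(l 5), by decide +kernel⟩

theorem c_B06mm_023_s1 : CertF 0 536870912 0 1230186008 536870912 50465866 false false false .up 0 2 3
    ndB0q0 ndB6q3 pcB2 cut_B06mm_023_s1 Ext.none :=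
  certF0 (fam := false) (s1 := false) (s2 := false) (a := 0) (b := 2) (c := 3) (cn := .up) (n1 := ndB0q0) (n2 := ndB6q3) (pc := pcB2) (cut := cut_B06mm_023_s1) (xt := Ext.none) (P1 := 0) (W1 := 536870912) (P2 := 0) (W2 := 1230186008) (P3 := 536870912) (W3 := 50465866)
    rfl k0_B06mm_023_s1

theorem s_B06mm_023_s1 {κ x : ℝ} (hκ : κ * h0 = ken x) (hx : ((536870912 : ℕ) : ℝ) / S ≤ x)
    (hx' : x ≤ (((536870912 : ℕ) : ℝ) + (50465866 : ℕ)) / S) :
    AltB (VFD κ) PP tK tL pcB [⟨3, 0, 0, 1449551462⟩] 0 2 3 0 6 (sgb false) (sgb false) x :=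
  strip_altBD (m := 1449551462) true rfl hκ (SH.κ0 hκ (SH.hx1 hx).le (SH.hx2 hx').le) (SH.hx1 hx).le (SH.hx2 hx') (covB00).cov (covB63).cov hx hx' c_B06mm_023_s1 cutB_nil (noExt_B)

noncomputable def cut_B06mm_033_s1 : Cut := Cut.of [[⟨4, 0, 0, 1449551462⟩]]

noncomputable def f_B06mm_033_s1 : ℕ → ℕ → ℕ → ℕ → Bool := onCell 0 536870912 0 1230186008 536870912 50465866
    (rowF 0 false false false .pnn 0 3 3 (qsf 0 536870912 0 1230186008 3) ndB0q0 ndB6q3 pcB3 cut_B06mm_033_s1 Ext.none)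

def k0_B06mm_033_s1 : ∃ t, chk3 f_B06mm_033_s1 t 1 1 1 = true :=
  ⟨(l 5), by decide +kernel⟩

theorem c_B06mm_033_s1 : CertF 0 536870912 0 1230186008 536870912 50465866 false false false .pnn 0 3 3
    ndB0q0 ndB6q3 pcB3 cut_B06mm_033_s1 Ext.none :=
  certF0 (fam := false) (s1 := false) (s2 := false) (a := 0) (b := 3) (c := 3) (cn := .pnn) (n1 := ndB0q0) (n2 := ndB6q3) (pc := pcB3) (cut := cut_B06mm_033_s1) (xt := Ext.none) (P1 := 0) (W1 := 536870912) (P2 := 0) (W2 := 1230186008) (P3 := 536870912) (W3 := 50465866)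
    rfl k0_B06mm_033_s1

theorem s_B06mm_033_s1 {κ x : ℝ} (hκ : κ * h0 = ken x) (hx : ((536870912 : ℕ) : ℝ) / S ≤ x)
    (hx' : x ≤ (((536870912 : ℕ) : ℝ) + (50465866 : ℕ)) / S) :
    AltB (VFD κ) PP tK tL pcB [⟨3, 0, 0, 1449551462⟩] 0 3 3 0 6 (sgb false) (sgb false) x :=
  strip_altBD (m := 1449551462) true rfl hκ (SH.κ0 hκ (SH.hx1 hx).le (SH.hx2 hx').le) (SH.hx1 hx).le (SH.hx2 hx') (covB00).cov (covB63).cov hx hx' c_B06mm_033_s1 cutB_nil (noExt_B)

noncomputable def cut_B06mm_101_s1 : Cut := Cut.of [[⟨4, 0, 0, 1449551462⟩], [⟨0, 1, 0, 67108864⟩, ⟨1, 0, 0, 67108864⟩, ⟨2, 1, 0, 67108864⟩]]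

noncomputable def f_B06mm_101_s1 : ℕ → ℕ → ℕ → ℕ → Bool := onCell 536870912 536870912 0 536870912 536870912 50465866
    (rowF 1 false false false .npn 1 0 1 (qsf 536870912 536870912 536870912 536870912 0) ndB0q1 ndB6q1 pcB0 cut_B06mm_101_s1 Ext.none)

def k0_B06mm_101_s1 : ∃ t, chk3 f_B06mm_101_s1 t 1 1 1 = true :=
  ⟨(a (l 3) (b (a (l 3) (b (a (l 3) (b (a (l 3) (b (l 14) (l 3))) (l 3))) (l 3))) (l 3))), by decide +kernel⟩

theorem c_B06mm_101_s1 : CertF 536870912 536870912 536870912 536870912 536870912 50465866 false false false .npn 1 0 1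
    ndB0q1 ndB6q1 pcB0 cut_B06mm_101_s1 Ext.none :=
  certF1 (fam := false) (s1 := false) (s2 := false) (a := 1) (b := 0) (c := 1) (cn := .npn) (n1 := ndB0q1) (n2 := ndB6q1) (pc := pcB0) (cut := cut_B06mm_101_s1) (xt := Ext.none) (P1 := 536870912) (W1 := 536870912) (P2 := 536870912) (W2 := 536870912) (P3 := 536870912) (W3 := 50465866)
    rfl (fun _ => rfl) k0_B06mm_101_s1

theorem s_B06mm_101_s1 {κ x : ℝ} (hκ : κ * h0 = ken x) (hx : ((536870912 : ℕ) : ℝ) / S ≤ x)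
    (hx' : x ≤ (((536870912 : ℕ) : ℝ) + (50465866 : ℕ)) / S)
    (H : CutB (VFD κ) PP tK tL pcB (Cut.of [[⟨0, 1, 0, 67108864⟩, ⟨1, 0, 0, 67108864⟩, ⟨2, 1, 0, 67108864⟩]]) 1 0 1 0 6 (sgb false) (sgb false) x) :
    AltB (VFD κ) PP tK tL pcB [⟨3, 0, 0, 1449551462⟩] 1 0 1 0 6 (sgb false) (sgb false) x :=
  strip_altBD (m := 1449551462) true rfl hκ (SH.κ0 hκ (SH.hx1 hx).le (SH.hx2 hx').le) (SH.hx1 hx).le (SH.hx2 hx') (covB01).cov (covB61).cov hx hx' c_B06mm_101_s1 H (noExt_B)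

noncomputable def cut_B06mm_102_s1 : Cut := Cut.of [[⟨4, 0, 0, 1449551462⟩], [⟨0, 1, 0, 67108864⟩, ⟨1, 0, 0, 67108864⟩, ⟨2, 1, 0, 67108864⟩]]

noncomputable def f_B06mm_102_s1 : ℕ → ℕ → ℕ → ℕ → Bool := onCell 536870912 536870912 0 536870912 536870912 50465866
    (rowF 1 false false false .npp 1 0 2 (qsf 536870912 536870912 1073741824 536870912 0) ndB0q1 ndB6q2 pcB0 cut_B06mm_102_s1 Ext.none)

def k0_B06mm_102_s1 : ∃ t, chk3 f_B06mm_102_s1 t 1 1 1 = true :=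
  ⟨(a (l 3) (b (a (l 3) (b (a (l 3) (b (a (l 3) (b (l 14) (l 3))) (l 3))) (l 3))) (l 3))), by decide +kernel⟩

theorem c_B06mm_102_s1 : CertF 536870912 536870912 1073741824 536870912 536870912 50465866 false false false .npp 1 0 2
    ndB0q1 ndB6q2 pcB0 cut_B06mm_102_s1 Ext.none :=
  certF1 (fam := false) (s1 := false) (s2 := false) (a := 1) (b := 0) (c := 2) (cn := .npp) (n1 := ndB0q1) (n2 := ndB6q2) (pc := pcB0) (cut := cut_B06mm_102_s1) (xt := Ext.none) (P1 := 536870912) (W1 := 536870912) (P2 := 1073741824) (W2 := 536870912) (P3 := 536870912) (W3 := 50465866)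
    rfl (fun _ => rfl) k0_B06mm_102_s1

theorem s_B06mm_102_s1 {κ x : ℝ} (hκ : κ * h0 = ken x) (hx : ((536870912 : ℕ) : ℝ) / S ≤ x)
    (hx' : x ≤ (((536870912 : ℕ) : ℝ) + (50465866 : ℕ)) / S)
    (H : CutB (VFD κ) PP tK tL pcB (Cut.of [[⟨0, 1, 0, 67108864⟩, ⟨1, 0, 0, 67108864⟩, ⟨2, 1, 0, 67108864⟩]]) 1 0 2 0 6 (sgb false) (sgb false) x) :
    AltB (VFD κ) PP tK tL pcB [⟨3, 0, 0, 1449551462⟩] 1 0 2 0 6 (sgb false) (sgb false) x :=
  strip_altBD (m := 1449551462) true rfl hκ (SH.κ0 hκ (SH.hx1 hx).le (SH.hx2 hx').le) (SH.hx1 hx).le (SH.hx2 hx') (covB01).cov (covB62).cov hx hx' c_B06mm_102_s1 H (noExt_B)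

noncomputable def cut_B06mm_112_s1 : Cut := Cut.of [[⟨4, 0, 0, 1449551462⟩]]

noncomputable def f_B06mm_112_s1 : ℕ → ℕ → ℕ → ℕ → Bool := onCell 536870912 536870912 1073741824 536870912 536870912 50465866
    (rowF 2 false false false .dn 1 1 2 (qsf 536870912 536870912 1073741824 536870912 1) ndB0q1 ndB6q2 pcB1 cut_B06mm_112_s1 Ext.none)

def k0_B06mm_112_s1 : ∃ t, chk3 f_B06mm_112_s1 t 1 1 1 = true :=
  ⟨(a (l 3) (l 5)), by decide +kernel⟩

theorem c_B06mm_112_s1 : CertF 536870912 536870912 1073741824 536870912 536870912 50465866 false false false .dn 1 1 2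
    ndB0q1 ndB6q2 pcB1 cut_B06mm_112_s1 Ext.none :=
  certF2 (fam := false) (s1 := false) (s2 := false) (a := 1) (b := 1) (c := 2) (cn := .dn) (n1 := ndB0q1) (n2 := ndB6q2) (pc := pcB1) (cut := cut_B06mm_112_s1) (xt := Ext.none) (P1 := 536870912) (W1 := 536870912) (P2 := 1073741824) (W2 := 536870912) (P3 := 536870912) (W3 := 50465866)
    rfl (fun _ => rfl) k0_B06mm_112_s1

theorem s_B06mm_112_s1 {κ x : ℝ} (hκ : κ * h0 = ken x) (hx : ((536870912 : ℕ) : ℝ) / S ≤ x)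
    (hx' : x ≤ (((536870912 : ℕ) : ℝ) + (50465866 : ℕ)) / S) :
    AltB (VFD κ) PP tK tL pcB [⟨3, 0, 0, 1449551462⟩] 1 1 2 0 6 (sgb false) (sgb false) x :=
  strip_altBD (m := 1449551462) true rfl hκ (SH.κ0 hκ (SH.hx1 hx).le (SH.hx2 hx').le) (SH.hx1 hx).le (SH.hx2 hx') (covB01).cov (covB62).cov hx hx' c_B06mm_112_s1 cutB_nil (noExt_B)

noncomputable def cut_B06mm_113_s1 : Cut := Cut.of [[⟨4, 0, 0, 1449551462⟩]]

noncomputable def f_B06mm_113_s1 : ℕ → ℕ → ℕ → ℕ → Bool := onCell 536870912 536870912 0 1230186008 536870912 50465866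
    (rowF 0 false false false .nn 1 1 3 (qsf 536870912 536870912 0 1230186008 1) ndB0q1 ndB6q3 pcB1 cut_B06mm_113_s1 Ext.none)

def k0_B06mm_113_s1 : ∃ t, chk3 f_B06mm_113_s1 t 1 1 1 = true :=
  ⟨(b (l 5) (a (l 5) (b (a (l 5) (l 3)) (l 3)))), by decide +kernel⟩

theorem c_B06mm_113_s1 : CertF 536870912 536870912 0 1230186008 536870912 50465866 false false false .nn 1 1 3
    ndB0q1 ndB6q3 pcB1 cut_B06mm_113_s1 Ext.none :=
  certF0 (fam := false) (s1 := false) (s2 := false) (a := 1) (b := 1) (c := 3) (cn := .nn) (n1 := ndB0q1) (n2 := ndB6q3) (pc := pcB1) (cut := cut_B06mm_113_s1) (xt := Ext.none) (P1 := 536870912) (W1 := 536870912) (P2 := 0) (W2 := 1230186008) (P3 := 536870912) (W3 := 50465866)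
    rfl k0_B06mm_113_s1

theorem s_B06mm_113_s1 {κ x : ℝ} (hκ : κ * h0 = ken x) (hx : ((536870912 : ℕ) : ℝ) / S ≤ x)
    (hx' : x ≤ (((536870912 : ℕ) : ℝ) + (50465866 : ℕ)) / S) :
    AltB (VFD κ) PP tK tL pcB [⟨3, 0, 0, 1449551462⟩] 1 1 3 0 6 (sgb false) (sgb false) x :=
  strip_altBD (m := 1449551462) true rfl hκ (SH.κ0 hκ (SH.hx1 hx).le (SH.hx2 hx').le) (SH.hx1 hx).le (SH.hx2 hx') (covB01).cov (covB63).cov hx hx' c_B06mm_113_s1 cutB_nil (noExt_B)

noncomputable def cut_B06mm_123_s1 : Cut := Cut.of [[⟨4, 0, 0, 1449551462⟩]]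

noncomputable def f_B06mm_123_s1 : ℕ → ℕ → ℕ → ℕ → Bool := onCell 1073741824 536870912 0 1230186008 536870912 50465866
    (rowF 2 false false false .npn 1 2 3 (qsf 536870912 536870912 0 1230186008 2) ndB0q1 ndB6q3 pcB2 cut_B06mm_123_s1 Ext.none)

def k0_B06mm_123_s1 : ∃ t, chk3 f_B06mm_123_s1 t 1 1 1 = true :=
  ⟨(b (l 5) (l 5)), by decide +kernel⟩

theorem c_B06mm_123_s1 : CertF 536870912 536870912 0 1230186008 536870912 50465866 false false false .npn 1 2 3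
    ndB0q1 ndB6q3 pcB2 cut_B06mm_123_s1 Ext.none :=
  certF2 (fam := false) (s1 := false) (s2 := false) (a := 1) (b := 2) (c := 3) (cn := .npn) (n1 := ndB0q1) (n2 := ndB6q3) (pc := pcB2) (cut := cut_B06mm_123_s1) (xt := Ext.none) (P1 := 536870912) (W1 := 536870912) (P2 := 0) (W2 := 1230186008) (P3 := 536870912) (W3 := 50465866)
    rfl (fun _ => rfl) k0_B06mm_123_s1

theorem s_B06mm_123_s1 {κ x : ℝ} (hκ : κ * h0 = ken x) (hx : ((536870912 : ℕ) : ℝ) / S ≤ x)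
    (hx' : x ≤ (((536870912 : ℕ) : ℝ) + (50465866 : ℕ)) / S) :
    AltB (VFD κ) PP tK tL pcB [⟨3, 0, 0, 1449551462⟩] 1 2 3 0 6 (sgb false) (sgb false) x :=
  strip_altBD (m := 1449551462) true rfl hκ (SH.κ0 hκ (SH.hx1 hx).le (SH.hx2 hx').le) (SH.hx1 hx).le (SH.hx2 hx') (covB01).cov (covB63).cov hx hx' c_B06mm_123_s1 cutB_nil (noExt_B)

noncomputable def cut_B06mm_133_s1 : Cut := Cut.of [[⟨4, 0, 0, 1449551462⟩]]

noncomputable def f_B06mm_133_s1 : ℕ → ℕ → ℕ → ℕ → Bool := onCell 1610612736 536870912 0 1230186008 536870912 50465866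
    (rowF 2 false false false .dn 1 3 3 (qsf 536870912 536870912 0 1230186008 3) ndB0q1 ndB6q3 pcB3 cut_B06mm_133_s1 Ext.none)

def k0_B06mm_133_s1 : ∃ t, chk3 f_B06mm_133_s1 t 1 1 1 = true :=
  ⟨(l 5), by decide +kernel⟩

theorem c_B06mm_133_s1 : CertF 536870912 536870912 0 1230186008 536870912 50465866 false false false .dn 1 3 3
    ndB0q1 ndB6q3 pcB3 cut_B06mm_133_s1 Ext.none :=
  certF2 (fam := false) (s1 := false) (s2 := false) (a := 1) (b := 3) (c := 3) (cn := .dn) (n1 := ndB0q1) (n2 := ndB6q3) (pc := pcB3) (cut := cut_B06mm_133_s1) (xt := Ext.none) (P1 := 536870912) (W1 := 536870912) (P2 := 0) (W2 := 1230186008) (P3 := 536870912) (W3 := 50465866)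
    rfl (fun _ => rfl) k0_B06mm_133_s1

theorem s_B06mm_133_s1 {κ x : ℝ} (hκ : κ * h0 = ken x) (hx : ((536870912 : ℕ) : ℝ) / S ≤ x)
    (hx' : x ≤ (((536870912 : ℕ) : ℝ) + (50465866 : ℕ)) / S) :
    AltB (VFD κ) PP tK tL pcB [⟨3, 0, 0, 1449551462⟩] 1 3 3 0 6 (sgb false) (sgb false) x :=
  strip_altBD (m := 1449551462) true rfl hκ (SH.κ0 hκ (SH.hx1 hx).le (SH.hx2 hx').le) (SH.hx1 hx).le (SH.hx2 hx') (covB01).cov (covB63).cov hx hx' c_B06mm_133_s1 cutB_nil (noExt_B)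

noncomputable def cut_B06mm_202_s1 : Cut := Cut.of [[⟨4, 0, 0, 1449551462⟩], [⟨0, 1, 0, 67108864⟩, ⟨1, 0, 0, 67108864⟩, ⟨2, 1, 0, 67108864⟩]]

noncomputable def xt_B06mm_202_s1 : Ext := strExt6 dd false false false .u2 .s2m .u0m .pp 2 0 2 rfl rfl gf0 vv ww ndB0q2 ndB6q2

noncomputable def f_B06mm_202_s1 : ℕ → ℕ → ℕ → ℕ → Bool := onCell 0 536870912 0 536870912 536870912 50465866
    (rowF 1 false false false .pp 2 0 2 (qsf 0 536870912 1073741824 536870912 0) ndB0q2 ndB6q2 pcB0 cut_B06mm_202_s1 xt_B06mm_202_s1)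

def k0_B06mm_202_s1 : ∃ t, chk3 f_B06mm_202_s1 t 2 1 1 = true :=
  ⟨(b (b (a (l 6) (b (a (l 6) (b (l 6) (l 16639680))) (a (l 16668704) (b (l 16657296) (a (l 16670608) (b (l 16667984) (l 16672272))))))) (a (b (l 6) (a (l 6) (a (l 6) (b (l 16682352) (l 16681216))))) (b (a (b (b (l 16682848) (a (l 6) (l 16680976))) (a (l 16681208) (l 16684176))) (a (b (b (l 16675872) (l 16683896)) (l 16683744)) (b (b (l 16682336) (l 16686592)) (b (l 16689320) (l 16692048))))) (a (a (b (l 16681072) (l 16684328)) (b (l 16682360) (l 16690320))) (a (b (l 16688456) (l 16703160)) (b (l 16704400) (l 16714816))))))) (b (a (b (a (b (l 6) (l 16705592)) (b (l 16676936) (a (l 16705496) (l 16712360)))) (a (a (l 115528510599) (b (l 16738736) (l 16771440))) (a (l 148277374183) (l 16840952)))) (b (b (a (a (l 16697800) (l 16705328)) (a (l 16717176) (b (a (l 16723184) (l 16731720)) (l 16781608)))) (a (l 16807264) (a (b (l 16732936) (l 16789480))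 (a (b (l 16747368) (l 16759864)) (l 1067718159))))) (a (a (b (l 16747376) (b (l 16763080) (l 16772712))) (a (b (l 16750264) (l 230418378359)) (b (l 16756152) (l 1072385551)))) (a (b (a (b (l 16756832) (l 16765824)) (l 1070112783)) (l 1072091663)) (b (l 1069691407) (l 1071563791)))))) (a (l 2) (a (l 2) (a (l 2) (l 3)))))), by decide +kernel⟩

def k1_B06mm_202_s1 : ∃ t, chk3 f_B06mm_202_s1 t 6 4 1 = true :=
  ⟨(b (a (b (l 16709024) (l 16646928)) (b (a (l 16638536) (b (l 16646480) (l 16659400))) (a (l 16661256) (b (l 16671208) (a (b (l 16674800) (l 16679288)) (b (l 16683464) (l 16690112))))))) (a (a (b (l 16661224) (b (l 16916664) (l 16682104))) (b (b (l 16664248) (a (l 16668768) (l 16674856))) (b (l 16684032) (l 16692784)))) (b (a (b (b (l 16878656) (l 16678048)) (a (l 16683496) (l 16691752))) (a (b (l 16689744) (b (l 16698912) (l 16704816))) (b (l 16700328) (l 16797232)))) (a (b (a (l 16694344) (l 16702552))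 (l 16793784)) (b (a (l 16798344) (l 16725600)) (a (l 16725152) (l 16737216))))))), by decide +kernel⟩

def k2_B06mm_202_s1 : ∃ t, chk3 f_B06mm_202_s1 t 7 8 1 = true :=
  ⟨(a (b (a (b (l 16666136) (l 16679704)) (b (b (l 16688024) (l 16695552)) (a (l 16698816) (b (l 16710192) (a (l 16712416) (l 16804912)))))) (a (a (b (b (l 16683176) (l 16686744)) (b (l 16695272) (l 16702256))) (b (b (l 16695040) (a (l 16697752) (l 16705016))) (b (l 16708696) (l 16715768)))) (a (b (b (a (l 16703872) (l 16712592)) (l 16716192)) (b (a (l 16719896) (l 16727608)) (l 16815376))) (b (a (b (l 16720664) (l 16728088)) (b (l 16729048) (l 16778784))) (b (a (l 16736080) (l 16744376)) (a (l 16743288) (b (l 16749936) (l 16753536)))))))) (b (a (b (l 14) (a (b (l 14) (a (b (l 16728024) (l 16731912)) (b (l 14) (l 16740976)))) (l 14))) (l 14)) (a (a (b (a (b (a (l 16735472) (l 16781992)) (l 16745656)) (b (a (l 16786656) (l 16749328)) (a (l 16752384)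 (b (l 16755096) (l 16758904))))) (a (b (b (l 16751288) (l 16754984)) (b (l 16779648) (a (l 16760168) (l 16764656)))) (b (a (b (l 16758056) (l 16782824)) (b (l 16783712) (l 16766488))) (l 1065581071)))) (b (a (b (b (l 16754424) (a (l 16755936) (l 16760712))) (a (b (l 16759792) (l 16784640)) (b (a (l 16763392) (l 16776344)) (l 16778944)))) (a (b (b (l 14) (a (l 16785352) (l 16777360))) (l 1062305807)) (b (l 14) (l 1062161423)))) (a (a (l 1062693903) (l 1062553615)) (a (l 1064021519) (l 3))))) (b (b (l 14) (b (b (l 14) (b (l 14) (l 3))) (l 3))) (l 3))))), by decide +kernel⟩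

def k3_B06mm_202_s1 : ∃ t, chk3 f_B06mm_202_s1 t 7 9 1 = true :=
  ⟨(a (a (b (a (b (b (l 16709480) (l 16716216)) (l 16810800)) (b (a (l 16807296) (l 16814768)) (b (l 16736928) (a (l 16739688) (l 16746960))))) (a (b (l 16738376) (b (l 16788768) (a (l 16750296) (l 16757680)))) (b (a (b (l 16745768) (l 16793576)) (b (l 16795104) (l 16759552))) (a (b (l 16779264) (l 1064774671)) (l 1064428047))))) (b (a (b (b (l 16738392) (a (l 16741416) (l 16749176))) (a (b (l 16748016) (l 16775592)) (b (a (l 16795816) (l 16779160)) (l 16773240)))) (b (a (b (b (l 16748704) (l 16752192)) (a (l 16776240) (l 16780656))) (b (b (l 16778088) (l 16781832)) (l 1063509519))) (a (l 1063760911) (l 1063512591)))) (a (b (a (b (l 16761184) (l 1064016399)) (l 1063860239)) (l 1064066575)) (a (l 1063734799) (l 3))))) (a (b (a (a (b (a (l 1063324687) (l 1063194127)) (l 1066479119)) (b (l 1062976527) (l 3))) (l 3)) (l 3)) (l 3))), by decide +kernel⟩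

def k4_B06mm_202_s1 : ∃ t, chk3 f_B06mm_202_s1 t 3 5 1 = true :=
  ⟨(a (b (a (a (b (b (l 16688832) (l 16693432)) (b (l 16701232) (l 16708512))) (b (b (l 16700624) (l 16711192)) (l 16723552))) (b (a (a (l 16847416) (l 16814952)) (a (b (l 16737112) (a (l 16787352) (l 16794448))) (b (a (l 16788120) (b (l 16750008) (l 16756584))) (a (b (l 16756000) (l 16761448)) (l 1065914383))))) (a (a (b (l 16735488) (l 16786680)) (b (a (l 16743984) (l 16792856)) (a (l 16754800) (l 16781456)))) (a (b (a (l 16757264) (l 1066244623)) (l 1065937935)) (l 1065776655))))) (a (a (b (l 16718880) (b (a (l 16723696) (l 16733584)) (a (l 16731792) (l 16745224)))) (b (a (b (l 16730208) (l 16737480)) (b (l 16741272) (l 16771992))) (a (b (l 16768288) (l 1065280527)) (l 1065013263)))) (a (b (a (b (a (l 16751504) (l 16757288)) (l 1065391631)) (l 1065396751)) (l 1064423951)) (b (a (l 1065953295) (l 3)) (l 3))))) (b (a (a (b (a (b (a (b (l 16757128)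 (l 16784216)) (l 1065294863)) (l 1065570831)) (a (l 1066272783) (l 1067650063))) (a (l 1065335311) (l 3))) (l 3)) (l 3)) (l 3))), by decide +kernel⟩

def k5_B06mm_202_s1 : ∃ t, chk3 f_B06mm_202_s1 t 3 3 1 = true :=
  ⟨(b (a (a (b (a (b (a (b (l 16744472) (l 16778072)) (l 1065851919)) (l 1067240463)) (b (l 1065299471) (l 3))) (l 3)) (l 3)) (l 3)) (l 3)), by decide +kernel⟩

theorem t6_B06mm_202_s1 : ∃ t, chk3 f_B06mm_202_s1 t 7 4 1 = true := ex3_b k2_B06mm_202_s1 k3_B06mm_202_s1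

theorem t7_B06mm_202_s1 : ∃ t, chk3 f_B06mm_202_s1 t 3 4 1 = true := ex3_a k1_B06mm_202_s1 t6_B06mm_202_s1

theorem t8_B06mm_202_s1 : ∃ t, chk3 f_B06mm_202_s1 t 3 2 1 = true := ex3_b t7_B06mm_202_s1 k4_B06mm_202_s1

theorem t9_B06mm_202_s1 : ∃ t, chk3 f_B06mm_202_s1 t 3 1 1 = true := ex3_b t8_B06mm_202_s1 k5_B06mm_202_s1

theorem t10_B06mm_202_s1 : ∃ t, chk3 f_B06mm_202_s1 t 1 1 1 = true := ex3_a k0_B06mm_202_s1 t9_B06mm_202_s1

theorem c_B06mm_202_s1 : CertF 0 536870912 1073741824 536870912 536870912 50465866 false false false .pp 2 0 2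
    ndB0q2 ndB6q2 pcB0 cut_B06mm_202_s1 xt_B06mm_202_s1 :=
  certF1 (fam := false) (s1 := false) (s2 := false) (a := 2) (b := 0) (c := 2) (cn := .pp) (n1 := ndB0q2) (n2 := ndB6q2) (pc := pcB0) (cut := cut_B06mm_202_s1) (xt := xt_B06mm_202_s1) (P1 := 0) (W1 := 536870912) (P2 := 1073741824) (W2 := 536870912) (P3 := 536870912) (W3 := 50465866)
    rfl (fun _ => rfl) t10_B06mm_202_s1

theorem s_B06mm_202_s1 {κ x : ℝ} (hκ : κ * h0 = ken x) (hx : ((536870912 : ℕ) : ℝ) / S ≤ x)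
    (hx' : x ≤ (((536870912 : ℕ) : ℝ) + (50465866 : ℕ)) / S)
    (H : CutB (VFD κ) PP tK tL pcB (Cut.of [[⟨0, 1, 0, 67108864⟩, ⟨1, 0, 0, 67108864⟩, ⟨2, 1, 0, 67108864⟩]]) 2 0 2 0 6 (sgb false) (sgb false) x) :
    AltB (VFD κ) PP tK tL pcB [⟨3, 0, 0, 1449551462⟩] 2 0 2 0 6 (sgb false) (sgb false) x :=
  strip_altBD (m := 1449551462) true rfl hκ (SH.κ0 hκ (SH.hx1 hx).le (SH.hx2 hx').le) (SH.hx1 hx).le (SH.hx2 hx') (covB02).cov (covB62).cov hx hx' c_B06mm_202_s1 H ((okx6 hx hx').extB (T := tt) (okx hx hx') (sideB hx hx') hκ rfl rfl (.O 2 false) (.N 2 false) (Or.inl rfl))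

noncomputable def cut_B06mm_203_s1 : Cut := Cut.of [[⟨4, 0, 0, 1449551462⟩]]

noncomputable def xt_B06mm_203_s1 : Ext := strExt6 dd false false false .u2 .s2m .u0m .up 2 0 3 rfl rfl gf0 vv ww ndB0q2 ndB6q3

noncomputable def f_B06mm_203_s1 : ℕ → ℕ → ℕ → ℕ → Bool := onCell 0 536870912 0 1230186008 536870912 50465866
    (rowF 0 false false false .up 2 0 3 (qsf 0 536870912 0 1230186008 0) ndB0q2 ndB6q3 pcB0 cut_B06mm_203_s1 xt_B06mm_203_s1)

def k0_B06mm_203_s1 : ∃ t, chk3 f_B06mm_203_s1 t 1 1 1 = true :=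
  ⟨(b (l 2) (b (l 2) (a (b (b (l 2) (b (a (l 2) (l 2)) (a (a (a (l 16764800) (a (l 16767008) (l 1071602703))) (a (l 1071300111) (l 3))) (l 3)))) (a (b (a (a (l 16794648) (b (b (l 16770368) (l 16776848)) (l 16778912))) (a (b (b (l 1070182927) (l 16773120)) (b (l 16779168) (l 16781416))) (b (a (b (l 1071707663) (l 1072485903)) (l 1071794703)) (a (l 1073722383) (l 1073406479))))) (b (a (l 16794616) (a (l 16878064) (b (l 16781552) (l 16779816)))) (a (l 16777064) (a (l 16772312) (b (l 16775256) (l 16768472)))))) (a (b (b (l 3) (a (l 1073247247) (l 3))) (a (b (b (l 1073766927) (l 1073936399)) (a (b (l 16777968) (l 16770040)) (b (l 16776896) (l 16773904)))) (b (l 1074014735) (l 1073275407)))) (b (l 3) (b (l 3) (a (l 1074745359) (l 3))))))) (l 3)))), by decide +kernel⟩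

theorem c_B06mm_203_s1 : CertF 0 536870912 0 1230186008 536870912 50465866 false false false .up 2 0 3
    ndB0q2 ndB6q3 pcB0 cut_B06mm_203_s1 xt_B06mm_203_s1 :=
  certF0 (fam := false) (s1 := false) (s2 := false) (a := 2) (b := 0) (c := 3) (cn := .up) (n1 := ndB0q2) (n2 := ndB6q3) (pc := pcB0) (cut := cut_B06mm_203_s1) (xt := xt_B06mm_203_s1) (P1 := 0) (W1 := 536870912) (P2 := 0) (W2 := 1230186008) (P3 := 536870912) (W3 := 50465866)
    rfl k0_B06mm_203_s1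

theorem s_B06mm_203_s1 {κ x : ℝ} (hκ : κ * h0 = ken x) (hx : ((536870912 : ℕ) : ℝ) / S ≤ x)
    (hx' : x ≤ (((536870912 : ℕ) : ℝ) + (50465866 : ℕ)) / S) :
    AltB (VFD κ) PP tK tL pcB [⟨3, 0, 0, 1449551462⟩] 2 0 3 0 6 (sgb false) (sgb false) x :=
  strip_altBD (m := 1449551462) true rfl hκ (SH.κ0 hκ (SH.hx1 hx).le (SH.hx2 hx').le) (SH.hx1 hx).le (SH.hx2 hx') (covB02).cov (covB63).cov hx hx' c_B06mm_203_s1 cutB_nil ((okx6 hx hx').extB (T := tt) (okx hx hx') (sideB hx hx') hκ rfl rfl (.O 2 false) (.N 3 false) (Or.inl rfl))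

noncomputable def cut_B06mm_213_s1 : Cut := Cut.of [[⟨4, 0, 0, 1449551462⟩]]

noncomputable def xt_B06mm_213_s1 : Ext := strExt6 dd false false false .u2 .s2m .u0m .pnn 2 1 3 rfl rfl gf1 vv ww ndB0q2 ndB6q3

noncomputable def f_B06mm_213_s1 : ℕ → ℕ → ℕ → ℕ → Bool := onCell 0 536870912 0 1230186008 536870912 50465866
    (rowF 0 false false false .pnn 2 1 3 (qsf 0 536870912 0 1230186008 1) ndB0q2 ndB6q3 pcB1 cut_B06mm_213_s1 xt_B06mm_213_s1)

def k0_B06mm_213_s1 : ∃ t, chk3 f_B06mm_213_s1 t 1 1 1 = true :=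
  ⟨(b (a (l 3) (b (l 5) (l 3))) (b (b (l 3) (b (l 3) (a (l 3) (l 3)))) (a (b (a (a (b (a (b (l 1077039119) (l 1076259343)) (b (l 3) (l 1076075023))) (b (a (a (l 16796344) (l 16787848)) (l 1075727375)) (b (a (l 16802472) (l 1076154895)) (l 1)))) (b (l 3) (a (l 1076644879) (b (l 3) (l 3))))) (l 3)) (a (l 1) (b (a (l 1) (l 3)) (l 1)))) (l 3)))), by decide +kernel⟩

theorem c_B06mm_213_s1 : CertF 0 536870912 0 1230186008 536870912 50465866 false false false .pnn 2 1 3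
    ndB0q2 ndB6q3 pcB1 cut_B06mm_213_s1 xt_B06mm_213_s1 :=
  certF0 (fam := false) (s1 := false) (s2 := false) (a := 2) (b := 1) (c := 3) (cn := .pnn) (n1 := ndB0q2) (n2 := ndB6q3) (pc := pcB1) (cut := cut_B06mm_213_s1) (xt := xt_B06mm_213_s1) (P1 := 0) (W1 := 536870912) (P2 := 0) (W2 := 1230186008) (P3 := 536870912) (W3 := 50465866)
    rfl k0_B06mm_213_s1

theorem s_B06mm_213_s1 {κ x : ℝ} (hκ : κ * h0 = ken x) (hx : ((536870912 : ℕ) : ℝ) / S ≤ x)
    (hx' : x ≤ (((536870912 : ℕ) : ℝ) + (50465866 : ℕ)) / S) :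
    AltB (VFD κ) PP tK tL pcB [⟨3, 0, 0, 1449551462⟩] 2 1 3 0 6 (sgb false) (sgb false) x :=
  strip_altBD (m := 1449551462) true rfl hκ (SH.κ0 hκ (SH.hx1 hx).le (SH.hx2 hx').le) (SH.hx1 hx).le (SH.hx2 hx') (covB02).cov (covB63).cov hx hx' c_B06mm_213_s1 cutB_nil ((okx6 hx hx').extB (T := tt) (okx hx hx') (sideB hx hx') hκ rfl rfl (.O 2 false) (.N 3 false) (Or.inr rfl))

noncomputable def cut_B60pp_001_s1 : Cut := Cut.of [[⟨4, 0, 0, 1449551462⟩]]

noncomputable def xt_B60pp_001_s1 : Ext := strExt6 dd false true true .s0 .u0 .u0m .up 0 0 1 rfl rfl gf0 vv ww ndB6q0 ndB0q1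

noncomputable def f_B60pp_001_s1 : ℕ → ℕ → ℕ → ℕ → Bool := onCell 0 536870912 536870912 536870912 536870912 50465866
    (rowF 2 false true true .up 0 0 1 (qsf 0 536870912 536870912 536870912 0) ndB6q0 ndB0q1 pcB0 cut_B60pp_001_s1 xt_B60pp_001_s1)

def k0_B60pp_001_s1 : ∃ t, chk3 f_B60pp_001_s1 t 1 1 1 = true :=
  ⟨(a (b (l 3) (b (b (l 3) (l 2)) (l 2))) (a (b (l 3) (b (a (b (b (l 3) (a (l 3) (b (l 3) (l 1058287631)))) (b (a (l 2) (l 1057712143)) (l 2))) (b (b (a (l 3) (l 1060783631)) (a (l 1059567119) (l 1059875855))) (b (a (l 1058679823) (b (l 1060289551) (a (l 16690904) (l 16677872)))) (a (b (l 132170808551) (l 2)) (b (l 16656888) (l 16628680)))))) (b (a (l 2) (b (a (l 2) (l 16588600)) (l 2))) (l 2)))) (b (b (l 3) (a (b (l 3) (b (a (l 3) (a (l 3) (l 1066719759))) (a (l 1063823887) (a (l 1064949263) (l 1065725967))))) (b (b (a (l 3) (a (l 3) (l 1070649871))) (a (b (l 3) (l 1068363791)) (a (b (l 1069597199)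 (a (l 1069097999) (l 1069388815))) (b (l 1070196239) (l 1069859343))))) (a (b (l 1067794447) (a (l 1066549775) (l 1067327503))) (b (a (l 1068781583) (b (l 16785344) (l 16757232))) (a (l 1068065295) (l 16744248))))))) (b (b (a (b (a (l 1062610959) (a (l 1063952911) (l 1064715279))) (a (l 1060700687) (b (l 16791376) (l 16681872)))) (b (a (b (l 16775320) (l 16717904)) (b (l 16728384) (l 16714272))) (a (b (l 16699008) (l 16675392)) (l 16686144)))) (a (b (a (b (l 16767464) (l 16659328)) (l 16731960)) (a (l 16703288) (l 16598576))) (b (a (l 16629440) (l 16633040)) (l 16654712)))) (b (a (b (a (l 16565720) (l 16546096)) (l 16686552)) (b (l 16523984) (l 16572504))) (a (b (l 138612646999) (l 2)) (b (l 16557920) (l 6)))))))), by decide +kernel⟩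

theorem c_B60pp_001_s1 : CertF 0 536870912 536870912 536870912 536870912 50465866 false true true .up 0 0 1
    ndB6q0 ndB0q1 pcB0 cut_B60pp_001_s1 xt_B60pp_001_s1 :=
  certF2 (fam := false) (s1 := true) (s2 := true) (a := 0) (b := 0) (c := 1) (cn := .up) (n1 := ndB6q0) (n2 := ndB0q1) (pc := pcB0) (cut := cut_B60pp_001_s1) (xt := xt_B60pp_001_s1) (P1 := 0) (W1 := 536870912) (P2 := 536870912) (W2 := 536870912) (P3 := 536870912) (W3 := 50465866)
    rfl (fun _ => rfl) k0_B60pp_001_s1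

theorem s_B60pp_001_s1 {κ x : ℝ} (hκ : κ * h0 = ken x) (hx : ((536870912 : ℕ) : ℝ) / S ≤ x)
    (hx' : x ≤ (((536870912 : ℕ) : ℝ) + (50465866 : ℕ)) / S) :
    AltB (VFD κ) PP tK tL pcB [⟨3, 0, 0, 1449551462⟩] 0 0 1 6 0 (sgb true) (sgb true) x :=
  strip_altBD (m := 1449551462) true rfl hκ (SH.κ0 hκ (SH.hx1 hx).le (SH.hx2 hx').le) (SH.hx1 hx).le (SH.hx2 hx') (covB60).cov (covB01).cov hx hx' c_B60pp_001_s1 cutB_nil ((okx6 hx hx').extB (T := tt) (okx hx hx') (sideB hx hx') hκ rfl rfl (.N 0 true) (.O 1 true) (Or.inl rfl))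

noncomputable def cut_B60pp_011_s1 : Cut := Cut.of [[⟨4, 0, 0, 1449551462⟩]]

noncomputable def xt_B60pp_011_s1 : Ext := strExt6 dd false true true .s0 .u0 .u0m .pnn 0 1 1 rfl rfl gf1 vv ww ndB6q0 ndB0q1

noncomputable def f_B60pp_011_s1 : ℕ → ℕ → ℕ → ℕ → Bool := onCell 536870912 536870912 536870912 536870912 536870912 50465866
    (rowF 2 false true true .pnn 0 1 1 (qsf 0 536870912 536870912 536870912 1) ndB6q0 ndB0q1 pcB1 cut_B60pp_011_s1 xt_B60pp_011_s1)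

def k0_B60pp_011_s1 : ∃ t, chk3 f_B60pp_011_s1 t 2 1 1 = true :=
  ⟨(b (a (a (b (b (l 3) (a (b (l 3) (a (l 3) (l 1071210511))) (b (b (l 3) (l 1071443471)) (l 1071367183)))) (b (b (a (a (l 1070522383) (l 1070841359)) (a (l 1071075855) (l 1071219215))) (a (a (b (l 1070070287) (l 1069713935)) (l 1070309903)) (l 1070751247))) (a (b (b (l 1069643279) (l 16791480)) (a (l 16736160) (l 16734520))) (b (a (l 16750224) (l 16748208)) (l 16732584))))) (b (b (a (a (l 3) (l 1)) (l 1)) (a (b (a (b (l 1071572495) (l 1071475215)) (b (l 1071879695) (l 1071567887))) (l 1071465999)) (b (b (l 1) (l 1072110607)) (a (l 1071533071) (l 16766656))))) (b (a (b (a (l 1071326735) (l 16764168)) (l 16757064)) (b (a (l 16761576) (l 16759032)) (l 16836472))) (a (b (l 16745552) (l 16730032)) (b (l 16742152) (l 16728080)))))) (b (a (b (l 1) (a (b (l 1) (l 167000454199)) (l 1))) (l 1)) (a (b (a (b (b (l 16759352) (l 16754096)) (l 16831888)) (b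 (a (l 16843224) (l 1)) (a (l 16744552) (l 16745528)))) (b (a (l 16738672) (a (l 16735184) (l 16732664))) (a (l 16726272) (l 16807504)))) (b (a (b (l 1) (l 16754632)) (l 1)) (b (a (l 16734384) (l 16747736)) (a (l 16721104) (l 16724416))))))) (a (b (b (a (b (a (l 16711256) (l 16710056)) (a (l 16677472) (l 16679024))) (b (l 16709296) (l 16681920))) (a (b (l 16630368) (l 16559744)) (b (l 16641576) (l 16580936)))) (b (a (b (l 16509760) (l 16483992)) (b (l 6) (l 6))) (l 6))) (b (a (b (b (a (l 16709512) (l 16709312)) (a (l 16685952) (l 16688768))) (a (l 16626528) (l 6))) (b (b (a (l 16710184) (l 16709872)) (l 16696080)) (l 6))) (l 6)))), by decide +kernel⟩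

def k1_B60pp_011_s1 : ∃ t, chk3 f_B60pp_011_s1 t 3 1 1 = true :=
  ⟨(b (a (b (l 1) (a (b (l 1) (a (b (l 1) (l 16741280)) (l 1))) (l 1))) (l 1)) (b (a (b (l 6) (l 6)) (l 6)) (l 6))), by decide +kernel⟩

theorem t2_B60pp_011_s1 : ∃ t, chk3 f_B60pp_011_s1 t 1 1 1 = true := ex3_a k0_B60pp_011_s1 k1_B60pp_011_s1

theorem c_B60pp_011_s1 : CertF 0 536870912 536870912 536870912 536870912 50465866 false true true .pnn 0 1 1
    ndB6q0 ndB0q1 pcB1 cut_B60pp_011_s1 xt_B60pp_011_s1 :=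
  certF2 (fam := false) (s1 := true) (s2 := true) (a := 0) (b := 1) (c := 1) (cn := .pnn) (n1 := ndB6q0) (n2 := ndB0q1) (pc := pcB1) (cut := cut_B60pp_011_s1) (xt := xt_B60pp_011_s1) (P1 := 0) (W1 := 536870912) (P2 := 536870912) (W2 := 536870912) (P3 := 536870912) (W3 := 50465866)
    rfl (fun _ => rfl) t2_B60pp_011_s1

theorem s_B60pp_011_s1 {κ x : ℝ} (hκ : κ * h0 = ken x) (hx : ((536870912 : ℕ) : ℝ) / S ≤ x)
    (hx' : x ≤ (((536870912 : ℕ) : ℝ) + (50465866 : ℕ)) / S) :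
    AltB (VFD κ) PP tK tL pcB [⟨3, 0, 0, 1449551462⟩] 0 1 1 6 0 (sgb true) (sgb true) x :=
  strip_altBD (m := 1449551462) true rfl hκ (SH.κ0 hκ (SH.hx1 hx).le (SH.hx2 hx').le) (SH.hx1 hx).le (SH.hx2 hx') (covB60).cov (covB01).cov hx hx' c_B60pp_011_s1 cutB_nil ((okx6 hx hx').extB (T := tt) (okx hx hx') (sideB hx hx') hκ rfl rfl (.N 0 true) (.O 1 true) (Or.inr rfl))

noncomputable def cut_B60pp_012_s1 : Cut := Cut.of [[⟨4, 0, 0, 1449551462⟩]]

noncomputable def f_B60pp_012_s1 : ℕ → ℕ → ℕ → ℕ → Bool := onCell 0 536870912 0 536870912 536870912 50465866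
    (rowF 0 false true true .pnp 0 1 2 (qsf 0 536870912 0 536870912 1) ndB6q0 ndB0q2 pcB1 cut_B60pp_012_s1 Ext.none)

def k0_B60pp_012_s1 : ∃ t, chk3 f_B60pp_012_s1 t 1 1 1 = true :=
  ⟨(a (l 6) (l 6)), by decide +kernel⟩

theorem c_B60pp_012_s1 : CertF 0 536870912 0 536870912 536870912 50465866 false true true .pnp 0 1 2
    ndB6q0 ndB0q2 pcB1 cut_B60pp_012_s1 Ext.none :=
  certF0 (fam := false) (s1 := true) (s2 := true) (a := 0) (b := 1) (c := 2) (cn := .pnp) (n1 := ndB6q0) (n2 := ndB0q2) (pc := pcB1) (cut := cut_B60pp_012_s1) (xt := Ext.none) (P1 := 0) (W1 := 536870912) (P2 := 0) (W2 := 536870912) (P3 := 536870912) (W3 := 50465866)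
    rfl k0_B60pp_012_s1

theorem s_B60pp_012_s1 {κ x : ℝ} (hκ : κ * h0 = ken x) (hx : ((536870912 : ℕ) : ℝ) / S ≤ x)
    (hx' : x ≤ (((536870912 : ℕ) : ℝ) + (50465866 : ℕ)) / S) :
    AltB (VFD κ) PP tK tL pcB [⟨3, 0, 0, 1449551462⟩] 0 1 2 6 0 (sgb true) (sgb true) x :=
  strip_altBD (m := 1449551462) true rfl hκ (SH.κ0 hκ (SH.hx1 hx).le (SH.hx2 hx').le) (SH.hx1 hx).le (SH.hx2 hx') (covB60).cov (covB02).cov hx hx' c_B60pp_012_s1 cutB_nil (noExt_B)

noncomputable def cut_B60pp_022_s1 : Cut := Cut.of [[⟨4, 0, 0, 1449551462⟩]]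

noncomputable def f_B60pp_022_s1 : ℕ → ℕ → ℕ → ℕ → Bool := onCell 1073741824 536870912 0 536870912 536870912 50465866
    (rowF 2 false true true .pp 0 2 2 (qsf 0 536870912 0 536870912 2) ndB6q0 ndB0q2 pcB2 cut_B60pp_022_s1 Ext.none)

def k0_B60pp_022_s1 : ∃ t, chk3 f_B60pp_022_s1 t 1 1 1 = true :=
  ⟨(l 6), by decide +kernel⟩

theorem c_B60pp_022_s1 : CertF 0 536870912 0 536870912 536870912 50465866 false true true .pp 0 2 2
    ndB6q0 ndB0q2 pcB2 cut_B60pp_022_s1 Ext.none :=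
  certF2 (fam := false) (s1 := true) (s2 := true) (a := 0) (b := 2) (c := 2) (cn := .pp) (n1 := ndB6q0) (n2 := ndB0q2) (pc := pcB2) (cut := cut_B60pp_022_s1) (xt := Ext.none) (P1 := 0) (W1 := 536870912) (P2 := 0) (W2 := 536870912) (P3 := 536870912) (W3 := 50465866)
    rfl (fun _ => rfl) k0_B60pp_022_s1

theorem s_B60pp_022_s1 {κ x : ℝ} (hκ : κ * h0 = ken x) (hx : ((536870912 : ℕ) : ℝ) / S ≤ x)
    (hx' : x ≤ (((536870912 : ℕ) : ℝ) + (50465866 : ℕ)) / S) :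
    AltB (VFD κ) PP tK tL pcB [⟨3, 0, 0, 1449551462⟩] 0 2 2 6 0 (sgb true) (sgb true) x :=
  strip_altBD (m := 1449551462) true rfl hκ (SH.κ0 hκ (SH.hx1 hx).le (SH.hx2 hx').le) (SH.hx1 hx).le (SH.hx2 hx') (covB60).cov (covB02).cov hx hx' c_B60pp_022_s1 cutB_nil (noExt_B)

noncomputable def cut_B60pp_101_s1 : Cut := Cut.of [[⟨4, 0, 0, 1449551462⟩], [⟨0, 1, 0, 67108864⟩, ⟨1, 0, 0, 67108864⟩, ⟨2, 1, 0, 67108864⟩]]

noncomputable def xt_B60pp_101_s1 : Ext := strExt6 dd false true true .s0 .u0 .u0m .npn 1 0 1 rfl rfl gf0 vv ww ndB6q1 ndB0q1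

noncomputable def f_B60pp_101_s1 : ℕ → ℕ → ℕ → ℕ → Bool := onCell 0 536870912 536870912 536870912 536870912 50465866
    (rowF 2 false true true .npn 1 0 1 (qsf 536870912 536870912 536870912 536870912 0) ndB6q1 ndB0q1 pcB0 cut_B60pp_101_s1 xt_B60pp_101_s1)

def k0_B60pp_101_s1 : ∃ t, chk3 f_B60pp_101_s1 t 2 2 1 = true :=
  ⟨(l 3), by decide +kernel⟩

def k1_B60pp_101_s1 : ∃ t, chk3 f_B60pp_101_s1 t 2 6 1 = true :=
  ⟨(a (l 3) (a (l 3) (b (l 3) (b (l 3) (a (l 1056869903) (l 1056800783)))))), by decide +kernel⟩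

def k2_B60pp_101_s1 : ∃ t, chk3 f_B60pp_101_s1 t 4 7 1 = true :=
  ⟨(b (b (l 3) (a (l 3) (a (l 3) (a (l 3) (l 1059072015))))) (a (b (b (l 3) (a (l 3) (a (l 3) (a (l 3) (l 1060095503))))) (a (b (b (l 3) (l 14)) (l 14)) (b (a (a (b (l 3) (l 1060343311)) (a (l 1060289551) (b (l 1060337167) (a (l 1060587535) (b (l 1060578831) (l 16775248)))))) (b (a (l 1060406287) (l 1060539407)) (a (b (l 1060625423) (a (b (l 16763632) (l 16759696)) (l 16778528))) (b (a (l 16771744) (l 16778128)) (l 16772416))))) (b (a (a (l 14) (b (a (l 14) (l 16778840)) (l 14))) (a (b (l 16751744) (l 16743856)) (l 16739784))) (a (l 14) (b (l 16732000) (l 16724112))))))) (b (a (b (a (l 3) (l 1059869199)) (b (a (l 1060145679) (l 1060366351)) (a (l 1060423183) (b (l 1060601359) (a (l 16778440) (l 16770328)))))) (b (a (l 1060035599) (l 1060267535)) (a (b (a (l 1060525583) (b (l 16754832) (l 16747632))) (a (l 16776376) (l 16778776))) (b (b (l 16774272)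 (a (l 16739592) (l 16731872))) (l 16725312))))) (b (a (a (b (b (l 1060643343) (a (b (l 16760624) (l 16777784)) (l 16771552))) (b (a (l 16772024) (l 16743040)) (l 16739424))) (b (a (b (l 16771000) (l 16742568)) (l 16780240)) (l 16727512))) (a (b (l 16726568) (l 16712240)) (l 16704512))) (a (b (a (l 16769928) (l 16712688)) (a (l 16712672) (l 16697816))) (b (l 16690728) (l 16676624))))))), by decide +kernel⟩

def k3_B60pp_101_s1 : ∃ t, chk3 f_B60pp_101_s1 t 5 7 1 = true :=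
  ⟨(b (a (b (a (l 3) (a (l 1057911823) (l 1060115983))) (a (a (b (l 3) (l 1059823119)) (l 1059607055)) (b (l 1059443215) (a (b (l 1060074511) (l 16774288)) (b (l 16770720) (l 16715800)))))) (b (a (a (l 1057939471) (l 1057738767)) (b (l 1057422351) (a (b (l 16725712) (l 16711912)) (l 16783224)))) (a (b (a (b (l 16737264) (l 16766248)) (b (l 16802464) (l 16705904))) (a (l 16747152) (l 16688152))) (b (a (l 16692960) (l 16674416)) (l 16745720))))) (b (a (a (b (a (b (l 1060426767) (b (l 16782904) (l 16776016))) (b (b (l 16738520) (l 16773824)) (l 16763768))) (b (a (l 16765776) (l 16708800)) (l 16786976))) (b (a (b (l 16719184) (l 16706496)) (l 16697216)) (l 16764264))) (a (b (l 16673656) (l 16651432)) (l 16715672))) (a (b (a (l 16767136) (l 16655976)) (a (b (l 16663344) (l 16650136)) (l 16631624))) (b (l 16700272) (a (l 16607352) (l 16583488)))))), by decide +kernel⟩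

def k4_B60pp_101_s1 : ∃ t, chk3 f_B60pp_101_s1 t 3 1 1 = true :=
  ⟨(a (b (l 3) (b (a (b (b (l 3) (a (l 3) (b (l 3) (l 1058287631)))) (a (b (l 1057027087) (l 1057039887)) (b (l 1057712143) (b (l 1057507343) (a (l 16698136) (l 16679888)))))) (b (b (l 1) (a (l 1059567119) (l 1))) (b (a (l 1058679823) (b (l 1) (l 176127204903))) (a (b (a (l 16691640) (l 16676328)) (l 16654640)) (l 16725168))))) (b (a (b (a (b (a (l 16707840) (l 16688440)) (l 16733296)) (b (l 16701968) (l 16633744))) (a (l 16720424) (l 16601272))) (b (a (l 16613232) (l 16586824)) (a (l 16570720) (l 16545152)))) (a (b (a (l 16684752) (l 16569520)) (a (l 16651880) (l 16710064))) (b (a (l 16543736) (l 16522632)) (a (l 16522392) (l 16506560))))))) (b (l 1) (b (b (l 1) (a (b (l 1) (l 178274689927)) (l 1))) (b (a (b (l 16638144) (l 16515536)) (b (l 1) (l 16485808))) (b (a (l 16581152) (l 16471680)) (a (l 16487352) (l 6))))))), by decide +kernel⟩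

theorem t5_B60pp_101_s1 : ∃ t, chk3 f_B60pp_101_s1 t 2 7 1 = true := ex3_a k2_B60pp_101_s1 k3_B60pp_101_s1

theorem t6_B60pp_101_s1 : ∃ t, chk3 f_B60pp_101_s1 t 2 3 1 = true := ex3_b k1_B60pp_101_s1 t5_B60pp_101_s1

theorem t7_B60pp_101_s1 : ∃ t, chk3 f_B60pp_101_s1 t 2 1 1 = true := ex3_b k0_B60pp_101_s1 t6_B60pp_101_s1

theorem t8_B60pp_101_s1 : ∃ t, chk3 f_B60pp_101_s1 t 1 1 1 = true := ex3_a t7_B60pp_101_s1 k4_B60pp_101_s1

theorem c_B60pp_101_s1 : CertF 536870912 536870912 536870912 536870912 536870912 50465866 false true true .npn 1 0 1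
    ndB6q1 ndB0q1 pcB0 cut_B60pp_101_s1 xt_B60pp_101_s1 :=
  certF2 (fam := false) (s1 := true) (s2 := true) (a := 1) (b := 0) (c := 1) (cn := .npn) (n1 := ndB6q1) (n2 := ndB0q1) (pc := pcB0) (cut := cut_B60pp_101_s1) (xt := xt_B60pp_101_s1) (P1 := 536870912) (W1 := 536870912) (P2 := 536870912) (W2 := 536870912) (P3 := 536870912) (W3 := 50465866)
    rfl (fun _ => rfl) t8_B60pp_101_s1

theorem s_B60pp_101_s1 {κ x : ℝ} (hκ : κ * h0 = ken x) (hx : ((536870912 : ℕ) : ℝ) / S ≤ x)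
    (hx' : x ≤ (((536870912 : ℕ) : ℝ) + (50465866 : ℕ)) / S)
    (H : CutB (VFD κ) PP tK tL pcB (Cut.of [[⟨0, 1, 0, 67108864⟩, ⟨1, 0, 0, 67108864⟩, ⟨2, 1, 0, 67108864⟩]]) 1 0 1 6 0 (sgb true) (sgb true) x) :
    AltB (VFD κ) PP tK tL pcB [⟨3, 0, 0, 1449551462⟩] 1 0 1 6 0 (sgb true) (sgb true) x :=
  strip_altBD (m := 1449551462) true rfl hκ (SH.κ0 hκ (SH.hx1 hx).le (SH.hx2 hx').le) (SH.hx1 hx).le (SH.hx2 hx') (covB61).cov (covB01).cov hx hx' c_B60pp_101_s1 H ((okx6 hx hx').extB (T := tt) (okx hx hx') (sideB hx hx') hκ rfl rfl (.N 1 true) (.O 1 true) (Or.inl rfl))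

noncomputable def cut_B60pp_102_s1 : Cut := Cut.of [[⟨4, 0, 0, 1449551462⟩], [⟨0, 1, 0, 67108864⟩, ⟨1, 0, 0, 67108864⟩, ⟨2, 1, 0, 67108864⟩]]

noncomputable def f_B60pp_102_s1 : ℕ → ℕ → ℕ → ℕ → Bool := onCell 536870912 536870912 0 536870912 536870912 50465866
    (rowF 0 false true true .npp 1 0 2 (qsf 536870912 536870912 0 536870912 0) ndB6q1 ndB0q2 pcB0 cut_B60pp_102_s1 Ext.none)

def k0_B60pp_102_s1 : ∃ t, chk3 f_B60pp_102_s1 t 1 1 1 = true :=
  ⟨(b (l 6) (a (a (l 6) (b (l 6) (b (l 6) (a (l 16846872) (b (l 16694016) (a (l 16525208) (l 16542880))))))) (b (a (l 6) (b (l 6) (a (a (l 6) (l 16541208)) (a (l 16625400) (l 16541000))))) (a (b (a (b (l 6) (l 16536992)) (b (l 16543608) (l 16559504))) (a (b (l 16551888) (l 16656728)) (b (a (l 16574992) (l 16591416)) (a (l 16603088) (b (l 16615240) (l 16717392)))))) (b (a (b (a (l 16555912) (l 16564432)) (a (l 16578304) (l 16758944))) (a (b (l 16572688) (b (l 16595712)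 (l 16782096))) (b (l 16582080) (a (l 16617024) (l 16625528))))) (b (a (a (l 16692392) (b (l 16616704) (l 16636912))) (a (a (l 16725704) (b (l 16640584) (l 16664856))) (a (b (l 16735016) (l 14)) (l 14)))) (a (b (a (l 16636368) (l 16659440)) (a (l 16741688) (b (l 16677824) (l 16774752)))) (a (a (b (l 16678240) (b (l 16698504) (l 16796696))) (b (l 16775392) (l 14))) (l 14))))))))), by decide +kernel⟩

theorem c_B60pp_102_s1 : CertF 536870912 536870912 0 536870912 536870912 50465866 false true true .npp 1 0 2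
    ndB6q1 ndB0q2 pcB0 cut_B60pp_102_s1 Ext.none :=
  certF0 (fam := false) (s1 := true) (s2 := true) (a := 1) (b := 0) (c := 2) (cn := .npp) (n1 := ndB6q1) (n2 := ndB0q2) (pc := pcB0) (cut := cut_B60pp_102_s1) (xt := Ext.none) (P1 := 536870912) (W1 := 536870912) (P2 := 0) (W2 := 536870912) (P3 := 536870912) (W3 := 50465866)
    rfl k0_B60pp_102_s1

theorem s_B60pp_102_s1 {κ x : ℝ} (hκ : κ * h0 = ken x) (hx : ((536870912 : ℕ) : ℝ) / S ≤ x)
    (hx' : x ≤ (((536870912 : ℕ) : ℝ) + (50465866 : ℕ)) / S)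
    (H : CutB (VFD κ) PP tK tL pcB (Cut.of [[⟨0, 1, 0, 67108864⟩, ⟨1, 0, 0, 67108864⟩, ⟨2, 1, 0, 67108864⟩]]) 1 0 2 6 0 (sgb true) (sgb true) x) :
    AltB (VFD κ) PP tK tL pcB [⟨3, 0, 0, 1449551462⟩] 1 0 2 6 0 (sgb true) (sgb true) x :=
  strip_altBD (m := 1449551462) true rfl hκ (SH.κ0 hκ (SH.hx1 hx).le (SH.hx2 hx').le) (SH.hx1 hx).le (SH.hx2 hx') (covB61).cov (covB02).cov hx hx' c_B60pp_102_s1 H (noExt_B)

noncomputable def cut_B60pp_112_s1 : Cut := Cut.of [[⟨4, 0, 0, 1449551462⟩]]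

noncomputable def f_B60pp_112_s1 : ℕ → ℕ → ℕ → ℕ → Bool := onCell 536870912 536870912 0 536870912 536870912 50465866
    (rowF 2 false true true .dn 1 1 2 (qsf 536870912 536870912 0 536870912 1) ndB6q1 ndB0q2 pcB1 cut_B60pp_112_s1 Ext.none)

def k0_B60pp_112_s1 : ∃ t, chk3 f_B60pp_112_s1 t 1 1 1 = true :=
  ⟨(a (l 6) (l 1)), by decide +kernel⟩

theorem c_B60pp_112_s1 : CertF 536870912 536870912 0 536870912 536870912 50465866 false true true .dn 1 1 2
    ndB6q1 ndB0q2 pcB1 cut_B60pp_112_s1 Ext.none :=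
  certF2 (fam := false) (s1 := true) (s2 := true) (a := 1) (b := 1) (c := 2) (cn := .dn) (n1 := ndB6q1) (n2 := ndB0q2) (pc := pcB1) (cut := cut_B60pp_112_s1) (xt := Ext.none) (P1 := 536870912) (W1 := 536870912) (P2 := 0) (W2 := 536870912) (P3 := 536870912) (W3 := 50465866)
    rfl (fun _ => rfl) k0_B60pp_112_s1

theorem s_B60pp_112_s1 {κ x : ℝ} (hκ : κ * h0 = ken x) (hx : ((536870912 : ℕ) : ℝ) / S ≤ x)
    (hx' : x ≤ (((536870912 : ℕ) : ℝ) + (50465866 : ℕ)) / S) :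
    AltB (VFD κ) PP tK tL pcB [⟨3, 0, 0, 1449551462⟩] 1 1 2 6 0 (sgb true) (sgb true) x :=
  strip_altBD (m := 1449551462) true rfl hκ (SH.κ0 hκ (SH.hx1 hx).le (SH.hx2 hx').le) (SH.hx1 hx).le (SH.hx2 hx') (covB61).cov (covB02).cov hx hx' c_B60pp_112_s1 cutB_nil (noExt_B)

noncomputable def cut_B60pp_202_s1 : Cut := Cut.of [[⟨4, 0, 0, 1449551462⟩], [⟨0, 1, 0, 67108864⟩, ⟨1, 0, 0, 67108864⟩, ⟨2, 1, 0, 67108864⟩]]

noncomputable def f_B60pp_202_s1 : ℕ → ℕ → ℕ → ℕ → Bool := onCell 0 536870912 0 536870912 536870912 50465866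
    (rowF 2 false true true .pp 2 0 2 (qsf 1073741824 536870912 0 536870912 0) ndB6q2 ndB0q2 pcB0 cut_B60pp_202_s1 Ext.none)

def k0_B60pp_202_s1 : ∃ t, chk3 f_B60pp_202_s1 t 1 1 1 = true :=
  ⟨(a (b (a (l 6) (l 6)) (b (a (a (b (l 16753656) (a (l 16701400) (l 16584984))) (b (l 6) (a (l 16548216) (l 16506824)))) (l 1)) (a (a (b (a (b (l 16642768) (l 14)) (b (l 16607304) (a (l 14) (l 16619584)))) (a (l 14) (a (l 14) (l 1)))) (b (b (a (l 16566768) (l 1)) (l 1)) (l 1))) (l 1)))) (l 1)), by decide +kernel⟩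

theorem c_B60pp_202_s1 : CertF 1073741824 536870912 0 536870912 536870912 50465866 false true true .pp 2 0 2
    ndB6q2 ndB0q2 pcB0 cut_B60pp_202_s1 Ext.none :=
  certF2 (fam := false) (s1 := true) (s2 := true) (a := 2) (b := 0) (c := 2) (cn := .pp) (n1 := ndB6q2) (n2 := ndB0q2) (pc := pcB0) (cut := cut_B60pp_202_s1) (xt := Ext.none) (P1 := 1073741824) (W1 := 536870912) (P2 := 0) (W2 := 536870912) (P3 := 536870912) (W3 := 50465866)
    rfl (fun _ => rfl) k0_B60pp_202_s1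

theorem s_B60pp_202_s1 {κ x : ℝ} (hκ : κ * h0 = ken x) (hx : ((536870912 : ℕ) : ℝ) / S ≤ x)
    (hx' : x ≤ (((536870912 : ℕ) : ℝ) + (50465866 : ℕ)) / S)
    (H : CutB (VFD κ) PP tK tL pcB (Cut.of [[⟨0, 1, 0, 67108864⟩, ⟨1, 0, 0, 67108864⟩, ⟨2, 1, 0, 67108864⟩]]) 2 0 2 6 0 (sgb true) (sgb true) x) :
    AltB (VFD κ) PP tK tL pcB [⟨3, 0, 0, 1449551462⟩] 2 0 2 6 0 (sgb true) (sgb true) x :=
  strip_altBD (m := 1449551462) true rfl hκ (SH.κ0 hκ (SH.hx1 hx).le (SH.hx2 hx').le) (SH.hx1 hx).le (SH.hx2 hx') (covB62).cov (covB02).cov hx hx' c_B60pp_202_s1 H (noExt_B)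

noncomputable def cut_B60pm_001_s1 : Cut := Cut.of [[⟨4, 0, 0, 1449551462⟩]]

noncomputable def f_B60pm_001_s1 : ℕ → ℕ → ℕ → ℕ → Bool := onCell 0 536870912 536870912 536870912 536870912 50465866
    (rowF 0 false true false .up 0 0 1 (qsf 0 536870912 536870912 536870912 0) ndB6q0 ndB0q1 pcB0 cut_B60pm_001_s1 Ext.none)

def k0_B60pm_001_s1 : ∃ t, chk3 f_B60pm_001_s1 t 1 1 1 = true :=
  ⟨(l 4), by decide +kernel⟩

theorem c_B60pm_001_s1 : CertF 0 536870912 536870912 536870912 536870912 50465866 false true false .up 0 0 1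
    ndB6q0 ndB0q1 pcB0 cut_B60pm_001_s1 Ext.none :=
  certF0 (fam := false) (s1 := true) (s2 := false) (a := 0) (b := 0) (c := 1) (cn := .up) (n1 := ndB6q0) (n2 := ndB0q1) (pc := pcB0) (cut := cut_B60pm_001_s1) (xt := Ext.none) (P1 := 0) (W1 := 536870912) (P2 := 536870912) (W2 := 536870912) (P3 := 536870912) (W3 := 50465866)
    rfl k0_B60pm_001_s1

theorem s_B60pm_001_s1 {κ x : ℝ} (hκ : κ * h0 = ken x) (hx : ((536870912 : ℕ) : ℝ) / S ≤ x)
    (hx' : x ≤ (((536870912 : ℕ) : ℝ) + (50465866 : ℕ)) / S) :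
    AltB (VFD κ) PP tK tL pcB [⟨3, 0, 0, 1449551462⟩] 0 0 1 6 0 (sgb true) (sgb false) x :=
  strip_altBD (m := 1449551462) true rfl hκ (SH.κ0 hκ (SH.hx1 hx).le (SH.hx2 hx').le) (SH.hx1 hx).le (SH.hx2 hx') (covB60).cov (covB01).cov hx hx' c_B60pm_001_s1 cutB_nil (noExt_B)

noncomputable def cut_B60pm_011_s1 : Cut := Cut.of [[⟨4, 0, 0, 1449551462⟩]]

noncomputable def f_B60pm_011_s1 : ℕ → ℕ → ℕ → ℕ → Bool := onCell 0 536870912 536870912 536870912 536870912 50465866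
    (rowF 0 false true false .pnn 0 1 1 (qsf 0 536870912 536870912 536870912 1) ndB6q0 ndB0q1 pcB1 cut_B60pm_011_s1 Ext.none)

def k0_B60pm_011_s1 : ∃ t, chk3 f_B60pm_011_s1 t 1 1 1 = true :=
  ⟨(l 4), by decide +kernel⟩

theorem c_B60pm_011_s1 : CertF 0 536870912 536870912 536870912 536870912 50465866 false true false .pnn 0 1 1
    ndB6q0 ndB0q1 pcB1 cut_B60pm_011_s1 Ext.none :=
  certF0 (fam := false) (s1 := true) (s2 := false) (a := 0) (b := 1) (c := 1) (cn := .pnn) (n1 := ndB6q0) (n2 := ndB0q1) (pc := pcB1) (cut := cut_B60pm_011_s1) (xt := Ext.none) (P1 := 0) (W1 := 536870912) (P2 := 536870912) (W2 := 536870912) (P3 := 536870912) (W3 := 50465866)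
    rfl k0_B60pm_011_s1

theorem s_B60pm_011_s1 {κ x : ℝ} (hκ : κ * h0 = ken x) (hx : ((536870912 : ℕ) : ℝ) / S ≤ x)
    (hx' : x ≤ (((536870912 : ℕ) : ℝ) + (50465866 : ℕ)) / S) :
    AltB (VFD κ) PP tK tL pcB [⟨3, 0, 0, 1449551462⟩] 0 1 1 6 0 (sgb true) (sgb false) x :=
  strip_altBD (m := 1449551462) true rfl hκ (SH.κ0 hκ (SH.hx1 hx).le (SH.hx2 hx').le) (SH.hx1 hx).le (SH.hx2 hx') (covB60).cov (covB01).cov hx hx' c_B60pm_011_s1 cutB_nil (noExt_B)

noncomputable def cut_B60pm_012_s1 : Cut := Cut.of [[⟨4, 0, 0, 1449551462⟩]]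

noncomputable def f_B60pm_012_s1 : ℕ → ℕ → ℕ → ℕ → Bool := onCell 0 536870912 0 536870912 536870912 50465866
    (rowF 0 false true false .pnp 0 1 2 (qsf 0 536870912 0 536870912 1) ndB6q0 ndB0q2 pcB1 cut_B60pm_012_s1 Ext.none)

def k0_B60pm_012_s1 : ∃ t, chk3 f_B60pm_012_s1 t 1 1 1 = true :=
  ⟨(l 6), by decide +kernel⟩

theorem c_B60pm_012_s1 : CertF 0 536870912 0 536870912 536870912 50465866 false true false .pnp 0 1 2
    ndB6q0 ndB0q2 pcB1 cut_B60pm_012_s1 Ext.none :=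
  certF0 (fam := false) (s1 := true) (s2 := false) (a := 0) (b := 1) (c := 2) (cn := .pnp) (n1 := ndB6q0) (n2 := ndB0q2) (pc := pcB1) (cut := cut_B60pm_012_s1) (xt := Ext.none) (P1 := 0) (W1 := 536870912) (P2 := 0) (W2 := 536870912) (P3 := 536870912) (W3 := 50465866)
    rfl k0_B60pm_012_s1

theorem s_B60pm_012_s1 {κ x : ℝ} (hκ : κ * h0 = ken x) (hx : ((536870912 : ℕ) : ℝ) / S ≤ x)
    (hx' : x ≤ (((536870912 : ℕ) : ℝ) + (50465866 : ℕ)) / S) :
    AltB (VFD κ) PP tK tL pcB [⟨3, 0, 0, 1449551462⟩] 0 1 2 6 0 (sgb true) (sgb false) x :=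
  strip_altBD (m := 1449551462) true rfl hκ (SH.κ0 hκ (SH.hx1 hx).le (SH.hx2 hx').le) (SH.hx1 hx).le (SH.hx2 hx') (covB60).cov (covB02).cov hx hx' c_B60pm_012_s1 cutB_nil (noExt_B)

noncomputable def cut_B60pm_022_s1 : Cut := Cut.of [[⟨4, 0, 0, 1449551462⟩]]

noncomputable def f_B60pm_022_s1 : ℕ → ℕ → ℕ → ℕ → Bool := onCell 0 536870912 0 536870912 536870912 50465866
    (rowF 0 false true false .pp 0 2 2 (qsf 0 536870912 0 536870912 2) ndB6q0 ndB0q2 pcB2 cut_B60pm_022_s1 Ext.none)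

def k0_B60pm_022_s1 : ∃ t, chk3 f_B60pm_022_s1 t 1 1 1 = true :=
  ⟨(l 6), by decide +kernel⟩

theorem c_B60pm_022_s1 : CertF 0 536870912 0 536870912 536870912 50465866 false true false .pp 0 2 2
    ndB6q0 ndB0q2 pcB2 cut_B60pm_022_s1 Ext.none :=
  certF0 (fam := false) (s1 := true) (s2 := false) (a := 0) (b := 2) (c := 2) (cn := .pp) (n1 := ndB6q0) (n2 := ndB0q2) (pc := pcB2) (cut := cut_B60pm_022_s1) (xt := Ext.none) (P1 := 0) (W1 := 536870912) (P2 := 0) (W2 := 536870912) (P3 := 536870912) (W3 := 50465866)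
    rfl k0_B60pm_022_s1

theorem s_B60pm_022_s1 {κ x : ℝ} (hκ : κ * h0 = ken x) (hx : ((536870912 : ℕ) : ℝ) / S ≤ x)
    (hx' : x ≤ (((536870912 : ℕ) : ℝ) + (50465866 : ℕ)) / S) :
    AltB (VFD κ) PP tK tL pcB [⟨3, 0, 0, 1449551462⟩] 0 2 2 6 0 (sgb true) (sgb false) x :=
  strip_altBD (m := 1449551462) true rfl hκ (SH.κ0 hκ (SH.hx1 hx).le (SH.hx2 hx').le) (SH.hx1 hx).le (SH.hx2 hx') (covB60).cov (covB02).cov hx hx' c_B60pm_022_s1 cutB_nil (noExt_B)

noncomputable def cut_B60pm_101_s1 : Cut := Cut.of [[⟨4, 0, 0, 1449551462⟩]]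

noncomputable def f_B60pm_101_s1 : ℕ → ℕ → ℕ → ℕ → Bool := onCell 536870912 536870912 536870912 536870912 536870912 50465866
    (rowF 0 false true false .npn 1 0 1 (qsf 536870912 536870912 536870912 536870912 0) ndB6q1 ndB0q1 pcB0 cut_B60pm_101_s1 Ext.none)

def k0_B60pm_101_s1 : ∃ t, chk3 f_B60pm_101_s1 t 1 1 1 = true :=
  ⟨(l 4), by decide +kernel⟩

theorem c_B60pm_101_s1 : CertF 536870912 536870912 536870912 536870912 536870912 50465866 false true false .npn 1 0 1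
    ndB6q1 ndB0q1 pcB0 cut_B60pm_101_s1 Ext.none :=
  certF0 (fam := false) (s1 := true) (s2 := false) (a := 1) (b := 0) (c := 1) (cn := .npn) (n1 := ndB6q1) (n2 := ndB0q1) (pc := pcB0) (cut := cut_B60pm_101_s1) (xt := Ext.none) (P1 := 536870912) (W1 := 536870912) (P2 := 536870912) (W2 := 536870912) (P3 := 536870912) (W3 := 50465866)
    rfl k0_B60pm_101_s1

theorem s_B60pm_101_s1 {κ x : ℝ} (hκ : κ * h0 = ken x) (hx : ((536870912 : ℕ) : ℝ) / S ≤ x)
    (hx' : x ≤ (((536870912 : ℕ) : ℝ) + (50465866 : ℕ)) / S) :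
    AltB (VFD κ) PP tK tL pcB [⟨3, 0, 0, 1449551462⟩] 1 0 1 6 0 (sgb true) (sgb false) x :=
  strip_altBD (m := 1449551462) true rfl hκ (SH.κ0 hκ (SH.hx1 hx).le (SH.hx2 hx').le) (SH.hx1 hx).le (SH.hx2 hx') (covB61).cov (covB01).cov hx hx' c_B60pm_101_s1 cutB_nil (noExt_B)

noncomputable def cut_B60pm_102_s1 : Cut := Cut.of [[⟨4, 0, 0, 1449551462⟩]]

noncomputable def f_B60pm_102_s1 : ℕ → ℕ → ℕ → ℕ → Bool := onCell 536870912 536870912 0 536870912 536870912 50465866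
    (rowF 0 false true false .npp 1 0 2 (qsf 536870912 536870912 0 536870912 0) ndB6q1 ndB0q2 pcB0 cut_B60pm_102_s1 Ext.none)

def k0_B60pm_102_s1 : ∃ t, chk3 f_B60pm_102_s1 t 1 1 1 = true :=
  ⟨(l 6), by decide +kernel⟩

theorem c_B60pm_102_s1 : CertF 536870912 536870912 0 536870912 536870912 50465866 false true false .npp 1 0 2
    ndB6q1 ndB0q2 pcB0 cut_B60pm_102_s1 Ext.none :=
  certF0 (fam := false) (s1 := true) (s2 := false) (a := 1) (b := 0) (c := 2) (cn := .npp) (n1 := ndB6q1) (n2 := ndB0q2) (pc := pcB0) (cut := cut_B60pm_102_s1) (xt := Ext.none) (P1 := 536870912) (W1 := 536870912) (P2 := 0) (W2 := 536870912) (P3 := 536870912) (W3 := 50465866)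
    rfl k0_B60pm_102_s1

theorem s_B60pm_102_s1 {κ x : ℝ} (hκ : κ * h0 = ken x) (hx : ((536870912 : ℕ) : ℝ) / S ≤ x)
    (hx' : x ≤ (((536870912 : ℕ) : ℝ) + (50465866 : ℕ)) / S) :
    AltB (VFD κ) PP tK tL pcB [⟨3, 0, 0, 1449551462⟩] 1 0 2 6 0 (sgb true) (sgb false) x :=
  strip_altBD (m := 1449551462) true rfl hκ (SH.κ0 hκ (SH.hx1 hx).le (SH.hx2 hx').le) (SH.hx1 hx).le (SH.hx2 hx') (covB61).cov (covB02).cov hx hx' c_B60pm_102_s1 cutB_nil (noExt_B)

noncomputable def cut_B60pm_112_s1 : Cut := Cut.of [[⟨4, 0, 0, 1449551462⟩]]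

noncomputable def f_B60pm_112_s1 : ℕ → ℕ → ℕ → ℕ → Bool := onCell 536870912 536870912 0 536870912 536870912 50465866
    (rowF 0 false true false .dn 1 1 2 (qsf 536870912 536870912 0 536870912 1) ndB6q1 ndB0q2 pcB1 cut_B60pm_112_s1 Ext.none)

def k0_B60pm_112_s1 : ∃ t, chk3 f_B60pm_112_s1 t 1 1 1 = true :=
  ⟨(l 6), by decide +kernel⟩

theorem c_B60pm_112_s1 : CertF 536870912 536870912 0 536870912 536870912 50465866 false true false .dn 1 1 2
    ndB6q1 ndB0q2 pcB1 cut_B60pm_112_s1 Ext.none :=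
  certF0 (fam := false) (s1 := true) (s2 := false) (a := 1) (b := 1) (c := 2) (cn := .dn) (n1 := ndB6q1) (n2 := ndB0q2) (pc := pcB1) (cut := cut_B60pm_112_s1) (xt := Ext.none) (P1 := 536870912) (W1 := 536870912) (P2 := 0) (W2 := 536870912) (P3 := 536870912) (W3 := 50465866)
    rfl k0_B60pm_112_s1

theorem s_B60pm_112_s1 {κ x : ℝ} (hκ : κ * h0 = ken x) (hx : ((536870912 : ℕ) : ℝ) / S ≤ x)
    (hx' : x ≤ (((536870912 : ℕ) : ℝ) + (50465866 : ℕ)) / S) :
    AltB (VFD κ) PP tK tL pcB [⟨3, 0, 0, 1449551462⟩] 1 1 2 6 0 (sgb true) (sgb false) x :=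
  strip_altBD (m := 1449551462) true rfl hκ (SH.κ0 hκ (SH.hx1 hx).le (SH.hx2 hx').le) (SH.hx1 hx).le (SH.hx2 hx') (covB61).cov (covB02).cov hx hx' c_B60pm_112_s1 cutB_nil (noExt_B)

noncomputable def cut_B60pm_202_s1 : Cut := Cut.of [[⟨4, 0, 0, 1449551462⟩]]

noncomputable def f_B60pm_202_s1 : ℕ → ℕ → ℕ → ℕ → Bool := onCell 0 536870912 0 536870912 536870912 50465866
    (rowF 2 false true false .pp 2 0 2 (qsf 1073741824 536870912 0 536870912 0) ndB6q2 ndB0q2 pcB0 cut_B60pm_202_s1 Ext.none)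

def k0_B60pm_202_s1 : ∃ t, chk3 f_B60pm_202_s1 t 1 1 1 = true :=
  ⟨(l 6), by decide +kernel⟩

theorem c_B60pm_202_s1 : CertF 1073741824 536870912 0 536870912 536870912 50465866 false true false .pp 2 0 2
    ndB6q2 ndB0q2 pcB0 cut_B60pm_202_s1 Ext.none :=
  certF2 (fam := false) (s1 := true) (s2 := false) (a := 2) (b := 0) (c := 2) (cn := .pp) (n1 := ndB6q2) (n2 := ndB0q2) (pc := pcB0) (cut := cut_B60pm_202_s1) (xt := Ext.none) (P1 := 1073741824) (W1 := 536870912) (P2 := 0) (W2 := 536870912) (P3 := 536870912) (W3 := 50465866)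
    rfl (fun _ => rfl) k0_B60pm_202_s1

theorem s_B60pm_202_s1 {κ x : ℝ} (hκ : κ * h0 = ken x) (hx : ((536870912 : ℕ) : ℝ) / S ≤ x)
    (hx' : x ≤ (((536870912 : ℕ) : ℝ) + (50465866 : ℕ)) / S) :
    AltB (VFD κ) PP tK tL pcB [⟨3, 0, 0, 1449551462⟩] 2 0 2 6 0 (sgb true) (sgb false) x :=
  strip_altBD (m := 1449551462) true rfl hκ (SH.κ0 hκ (SH.hx1 hx).le (SH.hx2 hx').le) (SH.hx1 hx).le (SH.hx2 hx') (covB62).cov (covB02).cov hx hx' c_B60pm_202_s1 cutB_nil (noExt_B)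

noncomputable def cut_B60mm_001_s1 : Cut := Cut.of [[⟨4, 0, 0, 1449551462⟩]]

noncomputable def f_B60mm_001_s1 : ℕ → ℕ → ℕ → ℕ → Bool := onCell 0 536870912 536870912 536870912 536870912 50465866
    (rowF 0 false false false .up 0 0 1 (qsf 0 536870912 536870912 536870912 0) ndB6q0 ndB0q1 pcB0 cut_B60mm_001_s1 Ext.none)

def k0_B60mm_001_s1 : ∃ t, chk3 f_B60mm_001_s1 t 1 1 1 = true :=
  ⟨(l 5), by decide +kernel⟩

theorem c_B60mm_001_s1 : CertF 0 536870912 536870912 536870912 536870912 50465866 false false false .up 0 0 1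
    ndB6q0 ndB0q1 pcB0 cut_B60mm_001_s1 Ext.none :=
  certF0 (fam := false) (s1 := false) (s2 := false) (a := 0) (b := 0) (c := 1) (cn := .up) (n1 := ndB6q0) (n2 := ndB0q1) (pc := pcB0) (cut := cut_B60mm_001_s1) (xt := Ext.none) (P1 := 0) (W1 := 536870912) (P2 := 536870912) (W2 := 536870912) (P3 := 536870912) (W3 := 50465866)
    rfl k0_B60mm_001_s1

theorem s_B60mm_001_s1 {κ x : ℝ} (hκ : κ * h0 = ken x) (hx : ((536870912 : ℕ) : ℝ) / S ≤ x)
    (hx' : x ≤ (((536870912 : ℕ) : ℝ) + (50465866 : ℕ)) / S) :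
    AltB (VFD κ) PP tK tL pcB [⟨3, 0, 0, 1449551462⟩] 0 0 1 6 0 (sgb false) (sgb false) x :=
  strip_altBD (m := 1449551462) true rfl hκ (SH.κ0 hκ (SH.hx1 hx).le (SH.hx2 hx').le) (SH.hx1 hx).le (SH.hx2 hx') (covB60).cov (covB01).cov hx hx' c_B60mm_001_s1 cutB_nil (noExt_B)

noncomputable def cut_B60mm_011_s1 : Cut := Cut.of [[⟨4, 0, 0, 1449551462⟩]]

noncomputable def f_B60mm_011_s1 : ℕ → ℕ → ℕ → ℕ → Bool := onCell 0 536870912 536870912 536870912 536870912 50465866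
    (rowF 0 false false false .pnn 0 1 1 (qsf 0 536870912 536870912 536870912 1) ndB6q0 ndB0q1 pcB1 cut_B60mm_011_s1 Ext.none)

def k0_B60mm_011_s1 : ∃ t, chk3 f_B60mm_011_s1 t 1 1 1 = true :=
  ⟨(l 5), by decide +kernel⟩

theorem c_B60mm_011_s1 : CertF 0 536870912 536870912 536870912 536870912 50465866 false false false .pnn 0 1 1
    ndB6q0 ndB0q1 pcB1 cut_B60mm_011_s1 Ext.none :=
  certF0 (fam := false) (s1 := false) (s2 := false) (a := 0) (b := 1) (c := 1) (cn := .pnn) (n1 := ndB6q0) (n2 := ndB0q1) (pc := pcB1) (cut := cut_B60mm_011_s1) (xt := Ext.none) (P1 := 0) (W1 := 536870912) (P2 := 536870912) (W2 := 536870912) (P3 := 536870912) (W3 := 50465866)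
    rfl k0_B60mm_011_s1

theorem s_B60mm_011_s1 {κ x : ℝ} (hκ : κ * h0 = ken x) (hx : ((536870912 : ℕ) : ℝ) / S ≤ x)
    (hx' : x ≤ (((536870912 : ℕ) : ℝ) + (50465866 : ℕ)) / S) :
    AltB (VFD κ) PP tK tL pcB [⟨3, 0, 0, 1449551462⟩] 0 1 1 6 0 (sgb false) (sgb false) x :=
  strip_altBD (m := 1449551462) true rfl hκ (SH.κ0 hκ (SH.hx1 hx).le (SH.hx2 hx').le) (SH.hx1 hx).le (SH.hx2 hx') (covB60).cov (covB01).cov hx hx' c_B60mm_011_s1 cutB_nil (noExt_B)

noncomputable def cut_B60mm_012_s1 : Cut := Cut.of [[⟨4, 0, 0, 1449551462⟩]]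

noncomputable def f_B60mm_012_s1 : ℕ → ℕ → ℕ → ℕ → Bool := onCell 0 536870912 0 536870912 536870912 50465866
    (rowF 0 false false false .pnp 0 1 2 (qsf 0 536870912 0 536870912 1) ndB6q0 ndB0q2 pcB1 cut_B60mm_012_s1 Ext.none)

def k0_B60mm_012_s1 : ∃ t, chk3 f_B60mm_012_s1 t 1 1 1 = true :=
  ⟨(l 5), by decide +kernel⟩

theorem c_B60mm_012_s1 : CertF 0 536870912 0 536870912 536870912 50465866 false false false .pnp 0 1 2
    ndB6q0 ndB0q2 pcB1 cut_B60mm_012_s1 Ext.none :=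
  certF0 (fam := false) (s1 := false) (s2 := false) (a := 0) (b := 1) (c := 2) (cn := .pnp) (n1 := ndB6q0) (n2 := ndB0q2) (pc := pcB1) (cut := cut_B60mm_012_s1) (xt := Ext.none) (P1 := 0) (W1 := 536870912) (P2 := 0) (W2 := 536870912) (P3 := 536870912) (W3 := 50465866)
    rfl k0_B60mm_012_s1

theorem s_B60mm_012_s1 {κ x : ℝ} (hκ : κ * h0 = ken x) (hx : ((536870912 : ℕ) : ℝ) / S ≤ x)
    (hx' : x ≤ (((536870912 : ℕ) : ℝ) + (50465866 : ℕ)) / S) :
    AltB (VFD κ) PP tK tL pcB [⟨3, 0, 0, 1449551462⟩] 0 1 2 6 0 (sgb false) (sgb false) x :=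
  strip_altBD (m := 1449551462) true rfl hκ (SH.κ0 hκ (SH.hx1 hx).le (SH.hx2 hx').le) (SH.hx1 hx).le (SH.hx2 hx') (covB60).cov (covB02).cov hx hx' c_B60mm_012_s1 cutB_nil (noExt_B)

noncomputable def cut_B60mm_022_s1 : Cut := Cut.of [[⟨4, 0, 0, 1449551462⟩]]

noncomputable def f_B60mm_022_s1 : ℕ → ℕ → ℕ → ℕ → Bool := onCell 0 536870912 0 536870912 536870912 50465866
    (rowF 0 false false false .pp 0 2 2 (qsf 0 536870912 0 536870912 2) ndB6q0 ndB0q2 pcB2 cut_B60mm_022_s1 Ext.none)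

def k0_B60mm_022_s1 : ∃ t, chk3 f_B60mm_022_s1 t 1 1 1 = true :=
  ⟨(l 5), by decide +kernel⟩

theorem c_B60mm_022_s1 : CertF 0 536870912 0 536870912 536870912 50465866 false false false .pp 0 2 2
    ndB6q0 ndB0q2 pcB2 cut_B60mm_022_s1 Ext.none :=
  certF0 (fam := false) (s1 := false) (s2 := false) (a := 0) (b := 2) (c := 2) (cn := .pp) (n1 := ndB6q0) (n2 := ndB0q2) (pc := pcB2) (cut := cut_B60mm_022_s1) (xt := Ext.none) (P1 := 0) (W1 := 536870912) (P2 := 0) (W2 := 536870912) (P3 := 536870912) (W3 := 50465866)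
    rfl k0_B60mm_022_s1

theorem s_B60mm_022_s1 {κ x : ℝ} (hκ : κ * h0 = ken x) (hx : ((536870912 : ℕ) : ℝ) / S ≤ x)
    (hx' : x ≤ (((536870912 : ℕ) : ℝ) + (50465866 : ℕ)) / S) :
    AltB (VFD κ) PP tK tL pcB [⟨3, 0, 0, 1449551462⟩] 0 2 2 6 0 (sgb false) (sgb false) x :=
  strip_altBD (m := 1449551462) true rfl hκ (SH.κ0 hκ (SH.hx1 hx).le (SH.hx2 hx').le) (SH.hx1 hx).le (SH.hx2 hx') (covB60).cov (covB02).cov hx hx' c_B60mm_022_s1 cutB_nil (noExt_B)

noncomputable def cut_B60mm_101_s1 : Cut := Cut.of [[⟨4, 0, 0, 1449551462⟩]]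

noncomputable def f_B60mm_101_s1 : ℕ → ℕ → ℕ → ℕ → Bool := onCell 0 536870912 536870912 536870912 536870912 50465866
    (rowF 2 false false false .npn 1 0 1 (qsf 536870912 536870912 536870912 536870912 0) ndB6q1 ndB0q1 pcB0 cut_B60mm_101_s1 Ext.none)

def k0_B60mm_101_s1 : ∃ t, chk3 f_B60mm_101_s1 t 1 1 1 = true :=
  ⟨(l 5), by decide +kernel⟩

theorem c_B60mm_101_s1 : CertF 536870912 536870912 536870912 536870912 536870912 50465866 false false false .npn 1 0 1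
    ndB6q1 ndB0q1 pcB0 cut_B60mm_101_s1 Ext.none :=
  certF2 (fam := false) (s1 := false) (s2 := false) (a := 1) (b := 0) (c := 1) (cn := .npn) (n1 := ndB6q1) (n2 := ndB0q1) (pc := pcB0) (cut := cut_B60mm_101_s1) (xt := Ext.none) (P1 := 536870912) (W1 := 536870912) (P2 := 536870912) (W2 := 536870912) (P3 := 536870912) (W3 := 50465866)
    rfl (fun _ => rfl) k0_B60mm_101_s1

theorem s_B60mm_101_s1 {κ x : ℝ} (hκ : κ * h0 = ken x) (hx : ((536870912 : ℕ) : ℝ) / S ≤ x)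
    (hx' : x ≤ (((536870912 : ℕ) : ℝ) + (50465866 : ℕ)) / S) :
    AltB (VFD κ) PP tK tL pcB [⟨3, 0, 0, 1449551462⟩] 1 0 1 6 0 (sgb false) (sgb false) x :=
  strip_altBD (m := 1449551462) true rfl hκ (SH.κ0 hκ (SH.hx1 hx).le (SH.hx2 hx').le) (SH.hx1 hx).le (SH.hx2 hx') (covB61).cov (covB01).cov hx hx' c_B60mm_101_s1 cutB_nil (noExt_B)

noncomputable def cut_B60mm_102_s1 : Cut := Cut.of [[⟨4, 0, 0, 1449551462⟩]]

noncomputable def f_B60mm_102_s1 : ℕ → ℕ → ℕ → ℕ → Bool := onCell 536870912 536870912 0 536870912 536870912 50465866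
    (rowF 0 false false false .npp 1 0 2 (qsf 536870912 536870912 0 536870912 0) ndB6q1 ndB0q2 pcB0 cut_B60mm_102_s1 Ext.none)

def k0_B60mm_102_s1 : ∃ t, chk3 f_B60mm_102_s1 t 1 1 1 = true :=
  ⟨(l 5), by decide +kernel⟩

theorem c_B60mm_102_s1 : CertF 536870912 536870912 0 536870912 536870912 50465866 false false false .npp 1 0 2
    ndB6q1 ndB0q2 pcB0 cut_B60mm_102_s1 Ext.none :=
  certF0 (fam := false) (s1 := false) (s2 := false) (a := 1) (b := 0) (c := 2) (cn := .npp) (n1 := ndB6q1) (n2 := ndB0q2) (pc := pcB0) (cut := cut_B60mm_102_s1) (xt := Ext.none) (P1 := 536870912) (W1 := 536870912) (P2 := 0) (W2 := 536870912) (P3 := 536870912) (W3 := 50465866)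
    rfl k0_B60mm_102_s1

theorem s_B60mm_102_s1 {κ x : ℝ} (hκ : κ * h0 = ken x) (hx : ((536870912 : ℕ) : ℝ) / S ≤ x)
    (hx' : x ≤ (((536870912 : ℕ) : ℝ) + (50465866 : ℕ)) / S) :
    AltB (VFD κ) PP tK tL pcB [⟨3, 0, 0, 1449551462⟩] 1 0 2 6 0 (sgb false) (sgb false) x :=
  strip_altBD (m := 1449551462) true rfl hκ (SH.κ0 hκ (SH.hx1 hx).le (SH.hx2 hx').le) (SH.hx1 hx).le (SH.hx2 hx') (covB61).cov (covB02).cov hx hx' c_B60mm_102_s1 cutB_nil (noExt_B)

noncomputable def cut_B60mm_112_s1 : Cut := Cut.of [[⟨4, 0, 0, 1449551462⟩]]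

noncomputable def f_B60mm_112_s1 : ℕ → ℕ → ℕ → ℕ → Bool := onCell 536870912 536870912 0 536870912 536870912 50465866
    (rowF 0 false false false .dn 1 1 2 (qsf 536870912 536870912 0 536870912 1) ndB6q1 ndB0q2 pcB1 cut_B60mm_112_s1 Ext.none)

def k0_B60mm_112_s1 : ∃ t, chk3 f_B60mm_112_s1 t 1 1 1 = true :=
  ⟨(l 5), by decide +kernel⟩

theorem c_B60mm_112_s1 : CertF 536870912 536870912 0 536870912 536870912 50465866 false false false .dn 1 1 2
    ndB6q1 ndB0q2 pcB1 cut_B60mm_112_s1 Ext.none :=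
  certF0 (fam := false) (s1 := false) (s2 := false) (a := 1) (b := 1) (c := 2) (cn := .dn) (n1 := ndB6q1) (n2 := ndB0q2) (pc := pcB1) (cut := cut_B60mm_112_s1) (xt := Ext.none) (P1 := 536870912) (W1 := 536870912) (P2 := 0) (W2 := 536870912) (P3 := 536870912) (W3 := 50465866)
    rfl k0_B60mm_112_s1

theorem s_B60mm_112_s1 {κ x : ℝ} (hκ : κ * h0 = ken x) (hx : ((536870912 : ℕ) : ℝ) / S ≤ x)
    (hx' : x ≤ (((536870912 : ℕ) : ℝ) + (50465866 : ℕ)) / S) :
    AltB (VFD κ) PP tK tL pcB [⟨3, 0, 0, 1449551462⟩] 1 1 2 6 0 (sgb false) (sgb false) x :=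
  strip_altBD (m := 1449551462) true rfl hκ (SH.κ0 hκ (SH.hx1 hx).le (SH.hx2 hx').le) (SH.hx1 hx).le (SH.hx2 hx') (covB61).cov (covB02).cov hx hx' c_B60mm_112_s1 cutB_nil (noExt_B)

noncomputable def cut_B60mm_202_s1 : Cut := Cut.of [[⟨4, 0, 0, 1449551462⟩]]

noncomputable def f_B60mm_202_s1 : ℕ → ℕ → ℕ → ℕ → Bool := onCell 1073741824 536870912 0 536870912 536870912 50465866
    (rowF 0 false false false .pp 2 0 2 (qsf 1073741824 536870912 0 536870912 0) ndB6q2 ndB0q2 pcB0 cut_B60mm_202_s1 Ext.none)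

def k0_B60mm_202_s1 : ∃ t, chk3 f_B60mm_202_s1 t 1 1 1 = true :=
  ⟨(l 5), by decide +kernel⟩

theorem c_B60mm_202_s1 : CertF 1073741824 536870912 0 536870912 536870912 50465866 false false false .pp 2 0 2
    ndB6q2 ndB0q2 pcB0 cut_B60mm_202_s1 Ext.none :=
  certF0 (fam := false) (s1 := false) (s2 := false) (a := 2) (b := 0) (c := 2) (cn := .pp) (n1 := ndB6q2) (n2 := ndB0q2) (pc := pcB0) (cut := cut_B60mm_202_s1) (xt := Ext.none) (P1 := 1073741824) (W1 := 536870912) (P2 := 0) (W2 := 536870912) (P3 := 536870912) (W3 := 50465866)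
    rfl k0_B60mm_202_s1

theorem s_B60mm_202_s1 {κ x : ℝ} (hκ : κ * h0 = ken x) (hx : ((536870912 : ℕ) : ℝ) / S ≤ x)
    (hx' : x ≤ (((536870912 : ℕ) : ℝ) + (50465866 : ℕ)) / S) :
    AltB (VFD κ) PP tK tL pcB [⟨3, 0, 0, 1449551462⟩] 2 0 2 6 0 (sgb false) (sgb false) x :=
  strip_altBD (m := 1449551462) true rfl hκ (SH.κ0 hκ (SH.hx1 hx).le (SH.hx2 hx').le) (SH.hx1 hx).le (SH.hx2 hx') (covB62).cov (covB02).cov hx hx' c_B60mm_202_s1 cutB_nil (noExt_B)

end Pool.Agent.Strip051.G.I5000_5470.Tab.St.C
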