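import Pool.Agent.Strip051.G.I5000_5470.Tab
import Pool.Agent.Strip051.PB.StripB

/-! # Strips, near vertex: certificates 7 (generated) -/

set_option linter.all false
set_option maxRecDepth 100000

namespace Pool.Agent.Strip051.G.I5000_5470.Tab.CS.BB06

open Pool.Agent.Strip051.PB Pool.Agent.Strip051.PB.T
open Pool.Agent.Strip051.G.I5000_5470.Tab

noncomputable def cut_pp_123_s : Cut := Cut.of [[⟨4, 0, 0, 1449551462⟩], [⟨0, 1, 0, 67108864⟩, ⟨1, 1, 0, 67108864⟩, ⟨2, 2, 0, 16777216⟩]]

noncomputable def f_pp_123_s : ℕ → ℕ → ℕ → ℕ → Bool := onCell 1073741824 536870912 0 1230186008 536870912 50465866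
    (rowNE 3 eng mog cd0q1 cd6q3 pd2 2 false true true .npn 1 2 3 (qsf 536870912 536870912 0 1230186008 2) ndB0q1 ndB6q3 pcB2 cut_pp_123_s Ext.none)

def k0_pp_123_s : ∃ t, chk3 f_pp_123_s t 8 8 1 = true :=
  ⟨(a (l 14) (a (l 14) (a (l 14) (b (l 16774064) (a (b (l 14) (l 16806856)) (l 16775104)))))), by decide +kernel⟩

def k1_pp_123_s : ∃ t, chk3 f_pp_123_s t 16 9 1 = true :=
  ⟨(l 3), by decide +kernel⟩

def k2_pp_123_s : ∃ t, chk3 f_pp_123_s t 34 18 1 = true :=
  ⟨(l 14), by decide +kernel⟩

def k3_pp_123_s : ∃ t, chk3 f_pp_123_s t 70 36 1 = true :=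
  ⟨(a (l 14) (a (b (l 14) (b (l 14) (b (a (l 3) (a (l 14) (b (a (l 14) (c (l 16777144) (b (l 16777112) (c (l 16777168) (l 16777168))))) (b (a (l 394231021479) (a (b (a (l 335175221639) (l 312089772519)) (l 3)) (b (l 16777192) (a (l 355039444983) (l 320679707111))))) (l 3))))) (l 3)))) (b (a (l 14) (l 16776120)) (b (a (b (l 16776704) (l 16776896)) (l 16781896)) (b (a (a (b (c (l 16777096) (l 16777080)) (b (a (b (l 16777168) (a (l 294373032407) (l 16777184))) (l 16777136)) (a (b (c (l 324437803671) (a (l 348596994023) (l 309942288855))) (l 373829926871)) (c (l 293299290887) (a (b (l 16777184) (l 316921610727)) (l 16777256)))))) (b (l 16777000) (c (l 16777112) (c (l 16777096) (l 16777096))))) (l 16778248)) (a (b (b (a (a (l 3) (a (l 396915376071) (b (a (l 338396446711) (l 314237256167)) (l 3)))) (a (a (b (l 16777200) (a (l 360408154087) (l 323364061671))) (b (l 16777176) (l 294373032407))) (c (l 16777160) (l 16777152)))) (a (l 3) (a (c (l 372219314135) (c (l 375440539575) (b (l 366313734071)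 (l 3)))) (a (b (a (l 317458481559) (l 16777200)) (l 368998088679)) (b (l 16777184) (a (l 323900932583) (l 293299290503))))))) (c (l 402284085111) (c (l 404431568583) (l 404431568471)))) (b (a (b (l 16777096) (a (a (b (l 16777168) (l 16777192)) (l 16777160)) (l 16777128))) (l 16777040)) (b (a (a (a (b (a (l 341080801271) (l 315310997991)) (l 3)) (b (l 16777360) (a (l 363629379559) (l 324974674407)))) (b (l 16777168) (a (l 294909903319) (l 16777184)))) (c (l 16777128) (l 16777112))) (a (a (l 3) (b (a (c (l 352355090423) (l 353965703127)) (c (l 290078065207) (l 313163514327))) (l 379198635975))) (a (c (l 293836161959) (a (b (l 16777184) (l 320142836199)) (l 16777256))) (c (l 16777152) (l 16777144)))))))))))), by decide +kernel⟩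

def k4_pp_123_s : ∃ t, chk3 f_pp_123_s t 71 36 1 = true :=
  ⟨(b (a (b (l 16775600) (l 16775912)) (l 16775240)) (a (b (a (b (l 16776328) (l 16776528)) (l 16776112)) (a (b (l 16782272) (a (a (c (l 16777040) (l 16777000)) (l 16776936)) (l 16776824))) (b (l 16776400) (l 16776600)))) (l 16775776))), by decide +kernel⟩

def k5_pp_123_s : ∃ t, chk3 f_pp_123_s t 70 37 1 = true :=
  ⟨(b (a (l 3) (b (b (b (a (l 3) (a (l 3) (a (l 3) (a (a (l 403357826951) (b (b (a (l 342691414007) (l 315847868903)) (l 3)) (l 3))) (a (b (b (l 16777360) (a (l 365239992295) (l 325511545319))) (l 3)) (b (b (l 16777176) (l 295446774231)) (c (l 368461217767) (l 370608701367)))))))) (l 3)) (l 3)) (l 3))) (l 3)), by decide +kernel⟩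

def k6_pp_123_s : ∃ t, chk3 f_pp_123_s t 142 148 1 = true :=
  ⟨(b (a (a (a (b (b (c (l 16777144) (c (l 16777136) (l 16777296))) (a (a (b (a (l 316384739815) (l 16777200)) (l 372219314151)) (b (l 16777184) (a (l 325511545319) (l 310479159687)))) (c (l 16777176) (c (l 16777168) (l 16777264))))) (b (a (l 401747214247) (a (b (a (l 343228284919) (l 316384739815)) (l 3)) (b (l 16777360) (a (l 365239992295) (l 325511545319))))) (l 3))) (b (c (l 16777096) (l 16777072)) (b (a (b (l 16777168) (a (l 307794805207) (l 16777184))) (l 16777136)) (a (a (c (l 368461217767) (l 370608701367)) (b (a (l 316384739815) (l 16777200)) (l 371682443239))) (c (l 294909903783) (c (l 307257934599) (b (l 16777176) (l 311016030791)))))))) (a (b (l 16777008) (c (l 16777120) (c (l 16777096) (l 16777088)))) (l 16776976))) (a (l 16776864) (l 16776704))) (a (a (a (l 3) (a (l 3) (a (l 405505310503) (b (b (b (a (l 342691414007) (l 315847868903)) (l 3)) (l 3)) (l 3))))) (b (b (a (a (a (b (l 16777360) (a (l 364166250471) (l 328195899799)))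 (b (l 16777176) (l 306721063383))) (c (l 16777168) (l 16777152))) (l 16777096)) (a (a (c (l 374366797783) (c (l 377588023223) (l 378661765015))) (b (c (l 294909903511) (l 305110450839)) (a (l 370071830503) (a (l 324974674407) (l 308331676039))))) (a (a (b (l 16777168) (l 16777192)) (l 16777160)) (l 16777128)))) (b (a (l 401210343303) (a (a (b (a (l 340543930359) (l 315310997991)) (l 3)) (b (l 16777200) (a (l 361481895911) (l 323900932583)))) (b (l 16777168) (a (l 305110450647) (l 16777184))))) (a (l 3) (a (l 3) (b (a (c (l 350744477687) (l 352355090407)) (l 309942288983)) (l 376514281431))))))) (a (a (b (l 16777040) (a (b (l 16777136) (c (l 303499838215) (c (l 304573580039) (b (l 16777168) (l 308868547191))))) (c (l 16777136) (b (l 16777088) (l 16777144))))) (c (l 16777048) (l 16776992))) (l 16776896)))), by decide +kernel⟩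

def k7_pp_123_s : ∃ t, chk3 f_pp_123_s t 142 149 1 = true :=
  ⟨(a (l 3) (a (b (b (a (a (a (l 401747214231) (b (b (a (l 338396447127) (l 313700385255)) (l 3)) (l 3))) (a (b (b (l 16777192) (a (l 357723799543) (l 322827190759))) (l 3)) (b (b (l 16777176) (l 304036708823)) (a (l 394767892423) (b (l 333027738087) (l 3)))))) (b (c (l 16777152) (c (l 16777136) (l 16777128))) (a (a (b (l 308331676247) (l 363629379559)) (b (l 16777184) (a (l 321753448935) (l 304573579655)))) (c (l 16777176) (c (l 16777168) (l 16777160)))))) (b (a (l 3) (a (l 395841634231) (a (b (a (l 331953996263) (l 311552901607)) (l 3)) (b (l 16777192) (a (l 352891961335) (l 320679707111)))))) (l 3))) (l 3)) (b (a (b (c (l 16777104) (l 16777064)) (b (a (b (l 16777168) (a (l 301352354183) (l 16777176))) (l 16777136)) (a (a (a (l 390472925143) (b (l 330343383527) (l 3))) (b (l 306184192551) (l 359334412263))) (c (l 299741741831) (c (l 300815483559) (b (l 16777168) (l 305110450839))))))) (b (l 16777000) (a (c (l 16777136) (b (l 16777080)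 (l 16777136))) (l 16777080)))) (b (b (b (a (a (l 3) (a (l 380809248743) (c (l 320142836295) (l 319605965367)))) (a (a (l 16777192) (l 16777176)) (l 16777144))) (a (l 3) (a (a (a (l 346986381303) (l 317458481639)) (l 301352354247)) (l 16777168)))) (a (l 3) (a (a (l 3) (a (l 385104216023) (b (l 329269641703) (l 3)))) (a (b (l 305110450647) (l 355576315879)) (b (l 16777184) (l 311016030855)))))) (a (l 3) (a (l 3) (c (l 397452246967) (l 400136601415)))))))), by decide +kernel⟩

def k8_pp_123_s : ∃ t, chk3 f_pp_123_s t 143 74 1 = true :=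
  ⟨(b (a (b (l 16776448) (l 16776632)) (b (l 16776040) (l 16776256))) (a (b (c (l 16776888) (l 16776800)) (a (a (b (b (l 16777096) (a (a (b (l 16777160) (l 16777184)) (l 16777152)) (l 16777120))) (b (a (a (b (c (l 318532223591) (l 317458481719)) (l 398525988823)) (b (l 16777192) (a (l 341617672599) (l 315847868903)))) (a (b (l 16777168) (l 16777192)) (l 16777328))) (a (l 3) (b (a (c (l 337859575799) (l 337859575783)) (l 304573579735)) (a (l 3) (a (l 389399183335) (l 335175221735))))))) (b (l 16777032) (a (b (l 16777128) (a (b (l 16777176) (l 309405418023)) (b (l 16777160) (l 16777184)))) (c (l 16777128) (l 16777104))))) (c (l 16776984) (l 16776928)))) (b (l 16776456) (l 16781888)))), by decide +kernel⟩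

def k9_pp_123_s : ∃ t, chk3 f_pp_123_s t 142 75 1 = true :=
  ⟨(l 3), by decide +kernel⟩

def k10_pp_123_s : ∃ t, chk3 f_pp_123_s t 286 75 1 = true :=
  ⟨(b (a (a (l 3) (b (b (b (a (a (l 379198635975) (b (c (l 316921610807) (l 316384739815)) (l 387788570599))) (c (c (l 293299290887) (l 308331676503)) (b (l 16777176) (a (l 324437803495) (l 16777192))))) (a (l 3) (a (l 3) (a (l 371682443223) (b (l 320679707111) (l 3)))))) (l 3)) (l 3))) (b (b (a (a (a (b (l 16777160) (a (b (l 16777200) (l 375440539623)) (b (l 16777192) (l 329806512615)))) (b (l 16777136) (b (l 16777176) (a (l 309942288871) (l 16777200))))) (c (l 16777144) (c (l 16777128) (l 16777120)))) (c (l 16777080) (l 16777048))) (b (a (a (c (l 380809248727) (l 381882990503)) (a (b (l 313163514423) (l 375977410535)) (b (l 16777184) (a (l 327122158055) (l 310479159687))))) (a (a (b (l 16777160) (l 16777272)) (l 16777152)) (l 16777120))) (a (l 404431568775) (a (b (c (l 316921611047) (a (l 328732770791) (l 16777192))) (a (l 3) (a (l 362555637751)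 (l 324437803495)))) (c (l 298667999655) (a (b (l 16777168) (l 302962966903)) (l 16777160))))))) (b (a (l 3) (b (a (l 3) (b (a (l 349133864935) (a (l 313163514343) (l 16777200))) (l 375977410519))) (l 3))) (l 3)))) (l 3)), by decide +kernel⟩

def k11_pp_123_s : ∃ t, chk3 f_pp_123_s t 574 75 1 = true :=
  ⟨(b (b (a (b (l 16776968) (c (l 16777088) (l 16777072))) (l 16776928)) (a (b (b (a (c (l 294909903607) (b (l 16777168) (a (a (l 322827190679) (l 16777368)) (l 16777184)))) (c (l 16777144) (l 16777136))) (a (a (l 393694150599) (b (c (l 325511545319) (l 322827190759)) (l 3))) (a (c (l 317458481959) (b (l 16777192) (l 331417125351))) (b (l 16777168) (b (l 16777192) (l 294373032247)))))) (a (l 3) (a (l 3) (a (l 396378505127) (b (b (l 327659028967) (l 3)) (l 3)))))) (b (a (c (l 16777128) (b (l 16777080) (l 16777144))) (l 16777072)) (b (a (a (b (a (a (l 312089772391) (l 295446773991)) (l 16777192)) (l 354502574055)) (b (l 16777176) (b (l 16777200) (a (l 313700385255) (l 16777208))))) (c (l 16777160)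 (c (l 16777152) (l 16777152)))) (a (l 387788570551) (a (b (c (l 321216578023) (a (l 328732770631) (l 290078064903))) (l 393157279703)) (c (l 290078065351) (b (l 16777184) (a (l 342154543415) (l 313700385095)))))))))) (l 3)), by decide +kernel⟩

def k12_pp_123_s : ∃ t, chk3 f_pp_123_s t 575 75 1 = true :=
  ⟨(b (b (l 16776776) (a (b (l 16777000) (b (l 16777408) (a (b (l 16777152) (a (b (l 16777184) (l 297594257623)) (l 16777168))) (l 16777112)))) (l 16777608))) (b (b (a (b (c (a (b (l 321216578263) (l 361481895911)) (l 296520516135)) (a (a (a (l 376514281415) (b (l 323900932423) (l 3))) (c (b (l 16777192) (l 348060123111)) (b (l 289004323031) (l 345912639463)))) (a (b (l 16777168) (b (l 16777192) (l 285783097623))) (l 16777160)))) (a (l 3) (a (c (l 374903668711) (l 375977410487)) (b (c (l 287930581479) (a (a (l 326048416023) (l 286319968487)) (l 289541193943))) (l 376514281447))))) (a (c (b (l 16777128) (l 292225549047)) (b (l 16777120) (b (l 16777248) (a (b (l 287393710311) (a (l 372756185159)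 (l 315310997751))) (l 16777184))))) (c (l 16777112) (l 16777104)))) (a (l 3) (b (b (a (a (l 399062859735) (a (b (l 324974674167) (l 3)) (b (l 16777200) (l 313163514343)))) (c (l 16777184) (c (l 16777176) (l 290078064727)))) (a (l 3) (a (a (l 359871283191) (b (l 287393710311) (l 356650057879))) (c (l 16777200) (c (l 16777200) (l 287930581127)))))) (a (l 3) (a (l 3) (c (l 365776863207) (c (l 367387475911) (b (c (l 350744477671) (l 348060123095)) (l 3))))))))) (l 3))), by decide +kernel⟩

def k13_pp_123_s : ∃ t, chk3 f_pp_123_s t 17 19 1 = true :=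
  ⟨(l 3), by decide +kernel⟩

def k14_pp_123_s : ∃ t, chk3 f_pp_123_s t 18 8 1 = true :=
  ⟨(b (l 16771776) (a (b (l 16775144) (l 16774472)) (l 16775568))), by decide +kernel⟩

def k15_pp_123_s : ∃ t, chk3 f_pp_123_s t 36 36 1 = true :=
  ⟨(a (b (l 16774824) (a (l 16775088) (l 16774608))) (l 16774096)), by decide +kernel⟩

def k16_pp_123_s : ∃ t, chk3 f_pp_123_s t 72 74 1 = true :=
  ⟨(a (b (l 16775560) (a (b (l 16776040) (l 16776264)) (l 16775760))) (l 16775000)), by decide +kernel⟩

def k17_pp_123_s : ∃ t, chk3 f_pp_123_s t 144 150 1 = true :=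
  ⟨(a (b (l 16776464) (l 16776688)) (b (l 16776072) (l 16776296))), by decide +kernel⟩

def k18_pp_123_s : ∃ t, chk3 f_pp_123_s t 576 151 1 = true :=
  ⟨(b (a (b (l 16777024) (a (b (c (l 16777152) (l 16777144)) (a (c (c (l 330343383703) (l 330880254599)) (c (b (l 16777368) (l 365239992295)) (b (c (l 16777368) (l 283098742999)) (l 363629379543)))) (c (l 291688677911) (b (l 16777176) (a (b (l 16777208) (l 342691414247)) (l 289004322951)))))) (c (l 16777128) (c (l 16777288) (l 16777280))))) (c (l 16777648) (l 16776984))) (b (a (b (a (c (l 394231021527) (l 395841634199)) (a (b (c (l 323364061671) (c (l 321216578023) (a (l 330343383351) (l 281488130279)))) (l 402284085207)) (c (l 287393710711) (b (l 16777184) (b (a (l 323364061431) (l 16777200)) (l 351818219751)))))) (l 3)) (b (a (c (l 16777168) (c (l 16777160) (b (l 16777144) (l 285246226615)))) (l 16777112)) (c (a (b (l 323900932743) (l 364166250471)) (l 294373032439)) (a (a (b (a (l 363629379559) (b (l 284172484759) (l 360945025175))) (l 3))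 (b (c (l 16777200) (l 284709355655)) (a (l 388325441495) (b (l 315310997751) (l 315847867895))))) (a (c (l 287930581431) (c (l 285246226615) (l 283635613799))) (l 16777160)))))) (a (l 3) (b (a (l 3) (b (a (c (l 364166250487) (c (l 366313734119) (l 364166250455))) (c (l 286319968663) (b (l 287393710183) (a (l 346986381463) (l 284172484727))))) (c (l 389399183335) (l 390472925111)))) (l 3))))), by decide +kernel⟩

def k19_pp_123_s : ∃ t, chk3 f_pp_123_s t 577 151 1 = true :=
  ⟨(b (l 16776824) (a (b (c (l 16777072) (l 16777064)) (b (c (c (l 292762419911) (l 291688677927)) (a (a (c (l 286319968711) (b (l 16777176) (c (l 307257934471) (b (l 273971937511) (l 309942288983))))) (c (l 16777168) (l 16777168))) (l 16777128))) (b (a (a (l 402820956119) (c (l 329806512615) (c (l 331417125271) (c (l 330880254311) (b (l 276119421159) (l 351818219735)))))) (c (l 16777176) (c (l 16777176) (l 282561872039)))) (a (l 3) (a (c (l 337322705383) (b (a (l 345912639639) (l 283098742903)) (l 371682443239))) (c (l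 16777192) (c (l 16777192) (l 282025001095)))))))) (b (l 16776960) (a (c (l 16777112) (b (l 16777072) (l 16777136))) (l 16777056))))), by decide +kernel⟩

def k20_pp_123_s : ∃ t, chk3 f_pp_123_s t 289 151 1 = true :=
  ⟨(b (l 16776528) (c (l 16776760) (l 16776744))), by decide +kernel⟩

def k21_pp_123_s : ∃ t, chk3 f_pp_123_s t 145 75 1 = true :=
  ⟨(b (l 16775584) (a (l 16776232) (l 16775816))), by decide +kernel⟩

def k22_pp_123_s : ∃ t, chk3 f_pp_123_s t 73 37 1 = true :=
  ⟨(b (l 16795392) (a (l 16774952) (l 16774264))), by decide +kernel⟩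

def k23_pp_123_s : ∃ t, chk3 f_pp_123_s t 37 18 1 = true :=
  ⟨(b (l 16773704) (a (l 16773920) (l 16773272))), by decide +kernel⟩

def k24_pp_123_s : ∃ t, chk3 f_pp_123_s t 288 152 1 = true :=
  ⟨(a (l 3) (b (b (b (a (a (l 3) (a (l 3) (c (l 366313734119) (c (l 368461217735) (b (c (l 351818219495) (b (l 309405418071) (l 403894697943))) (l 3)))))) (a (b (c (l 290614935991) (c (l 282561872311) (c (l 283098742903) (l 279877517415)))) (a (c (l 363629379575) (c (l 365776863207) (c (l 366313734103) (l 363092508631)))) (c (l 282561872359) (c (l 284709355831) (c (l 280414388455) (l 276656292071)))))) (c (l 16777152) (c (l 16777152) (l 16777144))))) (a (l 3) (a (c (l 394231021527) (c (l 397452246951) (l 396378505095))) (a (b (c (l 324974674327) (c (l 311552901767) (c (l 305647321687) (b (l 16777200) (l 309405418039))))) (l 400673472471)) (c (l 285783097895) (c (l 283098743255) (b (l 16777184) (c (l 328195899703) (b (l 276119421079) (l 311016030919)))))))))) (l 3)) (l 3))), by decide +kernel⟩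

def k25_pp_123_s : ∃ t, chk3 f_pp_123_s t 578 152 1 = true :=
  ⟨(a (b (b (b (l 16777400) (a (c (l 16777160) (c (l 285783097479) (l 280414388359))) (l 16777104))) (b (c (a (b (l 312089772359) (l 362555637735)) (l 293299290439)) (a (c (b (l 310479159607) (l 364703121367)) (a (b (c (l 336785834327) (b (l 303499837927) (l 369534959591))) (l 3)) (b (l 275582550231) (c (l 348060123111) (l 345375768535))))) (a (c (l 286319968359) (c (l 280951259239) (l 276656291943))) (l 16777152)))) (a (l 3) (a (c (l 375440539623) (c (l 377588023239) (c (l 377051152311) (l 375977410471)))) (b (c (l 280951259623) (c (l 284172484887) (c (l 267529486807) (l 264308261335)))) (c (l 377051152375) (c (l 379735506903) (l 377588023255)))))))) (l 3)) (b (b (l 16777000) (a (a (b (l 16777128) (c (l 286856839623) (b (l 16777176) (c (l 311552901719) (c (b (l 16777200) (l 332490866919)) (l 313163514167)))))) (c (l 16777136) (c (l 16777296) (l 16777128)))) (c (l 16777096) (l 16777088)))) (b (b (a (a (c (l 402284085223) (l 404431568807))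 (b (c (l 329806512535) (c (l 330343383399) (c (b (l 268066357559) (l 312626643623)) (l 322290319671)))) (l 3))) (a (c (l 312089772343) (c (b (l 16777192) (l 336785834375)) (b (l 16777184) (c (b (l 305110450663) (l 315847867735)) (l 330880253927))))) (c (l 16777176) (c (l 282025001223) (l 276656292007))))) (a (l 3) (a (l 3) (c (l 362555637735) (c (l 364703121367) (b (c (b (l 329806512375) (l 391009796055)) (l 341617672151)) (l 3))))))) (l 3)))), by decide +kernel⟩

def k26_pp_123_s : ∃ t, chk3 f_pp_123_s t 579 152 1 = true :=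
  ⟨(b (c (l 16776904) (l 16776888)) (b (c (a (b (l 16777112) (a (a (a (l 336248963719) (l 323364061671)) (l 286856839607)) (l 16777144))) (l 16777032)) (a (a (b (l 16777136) (a (c (b (l 284172484743) (l 359334412263)) (b (l 270213841191) (c (l 356650057687) (l 354502574039)))) (b (l 16777168) (c (l 272361325015) (c (l 275045679335) (l 271824453767)))))) (c (l 16777112) (l 16777112))) (l 16777024))) (a (b (a (c (l 389399183319) (c (l 392083537831) (c (l 391546666903) (l 390472925063)))) (a (b (c (l 312089772647) (c (l 320679706935) (c (b (l 16777200) (l 326585286903)) (l 310479159527)))) (c (l 390472925175) (c (l 393157279703) (l 391546666951)))) (c (l 284709355991) (b (l 16777264) (c (l 327122157895) (c (b (l 275045679255) (l 311552901751)) (l 300815483527))))))) (l 3)) (b (a (c (l 16777160) (c (l 16777320) (l 16777152))) (l 16777104)) (a (a (b (c (l 334101479831) (c (l 335175221575) (b (l 312089772263) (l 355576316119)))) (l 3)) (b (c (l 16777192) (c (l 16777192) (l 16777192))) (c (l 342691414007)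 (c (l 343228284903) (c (b (l 323900932343) (l 379198636007)) (l 335175221223)))))) (c (l 16777328) (c (b (l 16777152) (l 280414388327)) (l 273435066519)))))))), by decide +kernel⟩

def k27_pp_123_s : ∃ t, chk3 f_pp_123_s t 144 153 1 = true :=
  ⟨(b (b (b (a (l 3) (a (l 3) (a (l 3) (a (l 3) (b (a (c (l 352891961335) (c (l 353965703143) (c (l 350744477671) (l 346986381271)))) (c (l 278803775959) (c (l 278266904791) (l 273435066503)))) (c (l 377051152359) (c (l 379198635975) (c (l 377588023223) (l 375440539575))))))))) (l 3)) (l 3)) (l 3)), by decide +kernel⟩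

def k28_pp_123_s : ∃ t, chk3 f_pp_123_s t 145 152 1 = true :=
  ⟨(a (a (a (b (l 16776744) (b (l 16776928) (c (l 16777056) (l 16777048)))) (l 16776760)) (l 16776600)) (b (l 16776152) (l 16776392))), by decide +kernel⟩

def k29_pp_123_s : ∃ t, chk3 f_pp_123_s t 145 306 1 = true :=
  ⟨(a (a (a (b (b (a (c (l 287930581335) (b (l 16777160) (a (c (l 277730033895) (c (l 262160777687) (l 265918873831))) (l 16777176)))) (c (l 16777120) (l 16777120))) (a (a (c (l 391546666983) (c (l 394231021511) (l 392083537831))) (b (c (l 323900932503) (a (c (l 335712092407) (l 328732770535)) (c (l 271824453943) (l 264845132087)))) (c (l 402284085239) (l 403894697927)))) (a (c (l 282561872343) (c (b (l 16777184) (c (l 331953996103) (l 327122157895))) (b (l 16777184) (a (l 342154543335) (l 271287582871))))) (c (l 16777176) (c (l 16777336) (l 16777168)))))) (a (l 3) (a (l 3) (b (b (c (l 334638350823) (c (l 336785834295) (a (l 357186928615) (l 303499837927)))) (l 3)) (l 3))))) (b (a (c (l 16777104) (l 16777096)) (l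 16777040)) (b (a (b (c (l 16777184) (c (l 277193163015) (l 16777296))) (a (c (l 346986381303) (c (l 345912639463) (c (l 343765155815) (l 340007059415)))) (c (l 16777360) (c (l 271824453975) (l 265382002983))))) (c (l 16777144) (l 16777136))) (a (a (l 3) (c (l 373293055975) (c (l 373829926855) (b (c (l 356113186775) (l 352891961303)) (l 3))))) (a (b (c (l 282025001271) (c (c (l 283098742935) (l 276119421079)) (l 270750711943))) (c (l 372219314167) (c (l 372756185063) (l 370071830487)))) (c (l 283098743239) (a (b (l 16777184) (c (l 326048415991) (l 320679706855))) (c (l 277730033767) (l 16777344))))))))) (a (b (l 16776960) (b (l 16777056) (a (c (l 16777152) (c (l 16777152) (l 16777144))) (l 16777096)))) (l 16776912))) (l 16776640)), by decide +kernel⟩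

def k30_pp_123_s : ∃ t, chk3 f_pp_123_s t 145 307 1 = true :=
  ⟨(b (a (a (a (l 3) (c (l 405505310631) (b (c (l 405505310583) (l 404968439623)) (l 3)))) (a (b (c (a (b (l 280951259607) (a (l 413021503479) (l 329806512615))) (l 285783097575)) (a (a (b (a (c (l 313163514503) (l 308868547207)) (c (l 276119421079) (l 260013293879))) (l 411410890695)) (c (b (l 16777184) (a (l 314237256407) (l 306184192487))) (b (l 16777184) (c (l 327122157847) (l 323364061463))))) (c (b (l 16777144) (l 277193162919)) (l 16777152)))) (a (l 3) (a (b (c (l 341080801271) (a (c (l 366313734119) (l 363092508647)) (c (l 326585286903) (l 321216577767)))) (l 3)) (b (c (l 16777192) (c (l 272898195671) (l 16777192))) (c (l 350207606775) (c (c (l 352355090407) (l 348596994023)) (l 345375768551))))))) (a (b (l 16777432) (c (c (l 285783097751) (l 279340646807)) (c (b (l 16777152) (c (l 278266904679) (l 273971937383))) (l 266455744743)))) (c (l 16777080) (l 16777072))))) (c (l 16778152) (l 16776800))) (a (a (l 3) (a (l 3) (b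 (b (a (a (c (l 362018766839) (c (l 360945024999) (l 357723799511))) (c (l 280951259447) (c (c (l 278266904807) (l 273435066519)) (l 267529486471)))) (c (l 16777160) (l 16777160))) (c (a (l 385641086951) (l 280951259591)) (a (c (l 386714828743) (l 385104215991)) (a (c (b (l 276656291895) (l 329269641463)) (l 310479159527)) (l 16777176))))) (a (l 3) (a (c (l 400673472487) (c (l 401747214263) (l 402284085159))) (b (c (l 324437803495) (c (b (l 266455744823) (l 313163513847)) (l 300815483527))) (l 3))))))) (a (a (b (c (l 16777096) (l 16777088)) (a (a (b (c (l 16777184) (c (l 16777184) (l 16777184))) (c (l 330880254439) (c (c (l 334638350663) (b (l 316384739479) (l 313700385479))) (l 325511544823)))) (c (l 16777176) (c (l 275045679271) (l 16777168)))) (c (l 16777136) (l 16777128)))) (l 16777016)) (l 16776840)))), by decide +kernel⟩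

def k31_pp_123_s : ∃ t, chk3 f_pp_123_s t 144 77 1 = true :=
  ⟨(l 3), by decide +kernel⟩

def k32_pp_123_s : ∃ t, chk3 f_pp_123_s t 290 154 1 = true :=
  ⟨(l 3), by decide +kernel⟩

def k33_pp_123_s : ∃ t, chk3 f_pp_123_s t 291 308 1 = true :=
  ⟨(a (a (b (a (a (l 3) (b (b (c (l 342154543095) (c (c (l 343765155815) (b (l 322827190519) (l 377588023271))) (l 334101479399))) (l 3)) (l 3))) (c (b (b (l 284709355703) (a (l 351818219511) (l 283635613927))) (l 384030474215)) (a (b (c (b (l 274508808327) (c (l 353428832231) (b (l 311016030775) (l 404968439783)))) (b (l 16777192) (l 344838897623))) (l 3)) (b (c (c (l 276656291943) (l 272361324647)) (l 263771390135)) (c (c (l 379735506903) (l 377051152327)) (l 374366797751)))))) (l 3)) (b (b (a (c (l 16777144) (l 16777136)) (l 16777080)) (a (a (b (c (l 280414388535) (c (c (l 276119421079) (l 272361324695)) (l 265382002823))) (c (l 377588023287) (c (l 377051152359) (l 374366797783)))) (c (c (l 277193163367) (l 273971937863)) (c (b (l 16777176) (c (l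 319069094119) (b (l 16777200) (l 327659028727)))) (l 257865810439)))) (c (c (l 16777152) (l 16777152)) (c (l 16777152) (l 16777144))))) (b (a (c (l 403357827031) (c (l 404431568807) (l 405505310599))) (a (b (c (l 328732770631) (c (c (l 307794804727) (b (l 263234519319) (l 311552901767))) (l 299204870791))) (l 3)) (b (c (l 16777184) (c (l 16777184) (l 16777184))) (c (l 334638350343) (c (c (l 332490866967) (b (l 314237255831) (l 313163514567))) (l 324437802999)))))) (l 3)))) (b (c (l 16777640) (l 16776960)) (a (b (a (c (c (l 16777160) (l 280414388359)) (c (b (l 16777144) (l 273971937447)) (l 16777152))) (l 16777104)) (a (a (b (c (l 342154543095) (c (c (l 340007059431) (b (l 320679706871) (l 375977410535))) (l 333027737575))) (l 3)) (b (c (l 16777200) (c (l 272898195591) (l 16777192))) (c (l 350744477687) (c (c (l 350207606759) (l 347523252199)) (l 343765155815))))) (c (c (l 285783097751) (b (l 16777152) (l 281488130151))) (c (b (l 16777152) (c (c (l 272361324903) (l 273971937383)) (l 270213840999)))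 (l 262697648359))))) (c (l 16777384) (l 16777040))))), by decide +kernel⟩

def k34_pp_123_s : ∃ t, chk3 f_pp_123_s t 291 309 1 = true :=
  ⟨(a (l 3) (b (b (a (a (l 3) (a (c (l 375977410535) (c (c (l 377051152343) (l 375440539591)) (l 372756185015))) (b (c (l 282025001191) (c (c (l 274508808343) (l 270213841047)) (l 264308260999))) (c (l 375440539639) (c (l 374366797799) (l 372219314135)))))) (a (a (b (c (l 16777176) (l 16777176)) (c (l 310479159911) (c (c (b (l 16777200) (l 327659028727)) (l 312089772263)) (l 308331675799)))) (c (l 16777168) (l 16777160))) (c (l 16777120) (l 16777112)))) (a (l 3) (a (a (c (l 399062859751) (c (l 399599730631) (l 398525988775))) (b (c (l 312089772727) (c (c (b (l 275582550087) (l 313163514455)) (l 302962967175)) (l 298667999879))) (l 3))) (c (b (l 16777336) (a (l 331417125271) (l 16777192))) (a (b (l 16777184) (c (c (b (l 273435066519) (l 314237256359)) (l 326048416023)) (c (l 322290319639) (l 323364061175)))) (c (l 271824453719) (l 16777168))))))) (a (l 3)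 (a (l 3) (a (l 3) (b (b (c (c (l 340543930359) (l 341080801271)) (c (c (b (l 320142835959) (l 371682443239)) (l 334101479399)) (c (l 331417124839) (l 331953995751)))) (l 3)) (l 3))))))), by decide +kernel⟩

def k35_pp_123_s : ∃ t, chk3 f_pp_123_s t 145 155 1 = true :=
  ⟨(l 3), by decide +kernel⟩

def k36_pp_123_s : ∃ t, chk3 f_pp_123_s t 73 76 1 = true :=
  ⟨(a (b (a (l 16775832) (l 16775384)) (a (b (l 16776200) (l 16776440)) (l 16775856))) (l 16774928)), by decide +kernel⟩

def k37_pp_123_s : ∃ t, chk3 f_pp_123_s t 146 154 1 = true :=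
  ⟨(a (b (l 16778008) (a (b (a (c (c (l 16777072) (l 16777072)) (l 16777056)) (l 16776944)) (b (a (c (a (a (b (l 283635613831) (l 348060123127)) (b (l 16777168) (l 282561872007))) (l 16777136)) (a (a (c (b (l 272361324663) (c (b (l 332490866855) (l 395304763367)) (l 343228284903))) (b (l 16777192) (l 341080801255))) (c (c (l 273971937383) (l 16777264)) (l 262697648295))) (l 16777128))) (l 16777048)) (a (a (a (l 3) (b (c (l 358260670455) (c (c (l 357186928615) (l 353965703143)) (l 352891961303))) (l 3))) (a (b (c (a (l 310479159783) (l 16777200)) (c (c (l 272898195607) (l 266992615559)) (l 263771390087))) (c (l 370608701431) (c (c (l 370071830503) (l 367387475943)) (l 366850605015)))) (c (c (l 286319968455) (b (l 16777176) (l 265918874087))) (c (b (l 16777168) (c (b (l 16777200) (l 322290319607)) (l 266992615575))) (l 264308260967))))) (c (c (l 16777120) (c (l 16777120) (l 16777120))) (l 16777352))))) (l 16776840))) (b (l 16776232) (l 16776488))), by decide +kernel⟩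

def k38_pp_123_s : ∃ t, chk3 f_pp_123_s t 584 310 1 = true :=
  ⟨(b (a (c (l 404968439735) (c (c (l 406579052375) (l 406042181431)) (l 406042181383))) (b (a (a (b (c (c (l 311552901735) (l 308331675607)) (c (c (b (l 273971937351) (l 311016030775)) (l 298131128887)) (l 297594257319))) (c (l 404431568887) (l 404968439767))) (b (c (l 16777184) (l 16777184)) (a (c (l 316384740055) (c (c (l 312089772679) (l 307257934503)) (l 337859575783))) (c (l 277193162999) (c (l 270213841047) (l 263234519191)))))) (c (c (l 16777160) (b (l 16777136) (l 16777256))) (c (l 16777152) (l 16777152)))) (a (l 3) (a (b (b (c (l 310479159783) (c (l 316384739495) (l 311552901271))) (c (l 363629379575) (c (l 360945024999) (l 358797541351)))) (l 3)) (b (c (l 283098742903) (l 268603228279)) (b (c (l 330880254199) (a (l 354502574231) (l 268603228231))) (c (l 382419861495) (l 379735506919)))))))) (l 3)), by decide +kernel⟩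

def k39_pp_123_s : ∃ t, chk3 f_pp_123_s t 585 310 1 = true :=
  ⟨(b (a (a (b (l 16777096) (c (c (l 289541193879) (b (l 16777144) (c (l 280414388487) (l 274508808455)))) (c (l 270213841047) (l 262160777431)))) (c (l 16777072) (l 16777056))) (l 16776976)) (a (b (a (a (b (c (l 352355090423) (a (l 393694150631) (b (l 300815483207) (l 405505310695)))) (l 3)) (b (c (c (l 286319968391) (l 278266904711)) (c (l 272361324599) (l 264845131831))) (c (l 363629379575) (c (c (l 362018766823) (l 358797541351)) (l 358797541335))))) (c (a (c (l 287930581111) (b (l 16777168) (c (l 280414388455) (l 276119421079)))) (l 16777160)) (c (c (c (l 273435066455) (l 269676970071)) (l 262160777623)) (l 262697648359)))) (a (l 3) (a (c (l 387788570599) (c (l 386714828743) (l 386177957815))) (b (a (c (a (l 314774127159) (l 319605965047)) (b (l 267529486407) (l 359871283303))) (c (l 280414388375) (l 266992615559))) (c (l 392620408823) (l 390472925143)))))) (b (c (l 16777088) (l 16777072)) (a (a (b (c (l 16777184) (l 16777176))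 (c (c (l 311552901783) (a (l 313700385383) (l 268066357559))) (a (b (l 307794804903) (l 316921609735)) (l 266455744663)))) (c (c (l 16777168) (l 16777168)) (l 16777160))) (c (l 16777128) (l 16777112)))))), by decide +kernel⟩

def k40_pp_123_s : ∃ t, chk3 f_pp_123_s t 292 311 1 = true :=
  ⟨(b (a (l 3) (a (l 3) (b (b (a (a (c (l 411947761655) (l 409800277959)) (b (c (c (l 320679706791) (l 315847868567)) (c (l 268603228311) (l 262697648279))) (c (l 352355090423) (c (l 311552901799) (l 347523252199))))) (c (c (l 16777176) (l 279340646487)) (l 16777336))) (a (l 3) (a (b (c (c (l 311552901623) (l 307257934311)) (c (l 317458481319) (l 314237255831))) (c (l 367924346871) (l 364166250471))) (c (c (l 16777192) (l 276119421127)) (l 266455744631))))) (a (l 3) (a (l 3) (b (b (c (c (l 333564608759) (l 329806512375)) (c (l 326048415911) (l 322290319591))) (c (l 387788570615) (l 385641086951))) (l 3))))))) (l 3)), by decide +kernel⟩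

def k41_pp_123_s : ∃ t, chk3 f_pp_123_s t 293 155 1 = true :=
  ⟨(a (b (b (l 16776800) (l 16778248)) (b (a (a (b (c (l 16777136) (l 16777120)) (b (c (c (l 289541193831) (c (l 277193163015) (l 273435066679))) (l 266455744695)) (a (c (c (l 356113186807) (c (l 356650057719) (l 353965703159))) (c (l 350744477671) (l 349133864919))) (c (c (l 285783097495) (c (l 283098742919) (l 275045679239))) (l 266455744647))))) (c (c (l 16777104) (l 16777104)) (l 16777096))) (l 16777008)) (a (b (b (c (a (c (l 378661765111) (c (l 379735506919) (l 378124894167))) (a (b (l 282561871959) (a (l 345375768743) (l 281488130119))) (l 16777176))) (a (c (l 375440539607) (l 374903668663)) (c (l 269140099191) (l 263771390055)))) (a (l 3) (a (c (a (l 3) (l 370071830519)) (l 375440539607)) (c (a (b (l 271824453879) (l 362555637927)) (b (l 16777192) (l 275045679271))) (c (l 310479159527) (l 309405417623)))))) (a (l 3) (c (l 402284085207) (l 402284085143)))) (b (a (c (c (l 16777152) (l 16777144)) (l 16777144)) (l 16777088))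 (c (a (a (b (c (l 311552901783) (c (l 311016030823) (b (l 266455744791) (l 312089772631)))) (l 3)) (c (b (l 16777184) (c (l 333564608519) (l 332490867015))) (b (l 16777184) (c (l 331953996103) (b (l 313163514007) (l 313700385447)))))) (c (l 286319968391) (b (l 16777136) (l 278266904663)))) (a (a (b (a (l 307257933815) (l 264308261015)) (l 3)) (a (b (l 16777192) (l 342691413991)) (l 265918873719))) (l 16777312))))))) (b (l 16776632) (b (l 16776832) (c (l 16777632) (l 16776952))))), by decide +kernel⟩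

def k42_pp_123_s : ∃ t, chk3 f_pp_123_s t 147 77 1 = true :=
  ⟨(b (a (l 16775880) (l 16775384)) (a (b (l 16776272) (l 16776528)) (l 16775896))), by decide +kernel⟩

def k43_pp_123_s : ∃ t, chk3 f_pp_123_s t 72 39 1 = true :=
  ⟨(l 3), by decide +kernel⟩

def k44_pp_123_s : ∃ t, chk3 f_pp_123_s t 292 78 1 = true :=
  ⟨(l 3), by decide +kernel⟩

def k45_pp_123_s : ∃ t, chk3 f_pp_123_s t 586 312 1 = true :=
  ⟨(b (b (a (l 3) (a (l 3) (a (b (a (c (c (l 364166250503) (l 361481895927)) (l 357186928615)) (c (b (l 280414388295) (l 352355090599)) (l 299204870631))) (l 3)) (b (c (c (l 16777192) (l 275045679303)) (l 16777352)) (a (c (l 377588023287) (l 374903668711)) (c (c (l 335712092407) (c (l 335175221495) (l 329806512375))) (l 324974674151))))))) (l 3)) (l 3)), by decide +kernel⟩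

def k46_pp_123_s : ∃ t, chk3 f_pp_123_s t 587 312 1 = true :=
  ⟨(a (b (b (a (c (a (c (l 289004322919) (c (l 276119421191) (l 272361324839))) (l 16777152)) (l 265382002999)) (l 16777104)) (b (a (a (b (c (c (l 316384739943) (c (l 316384739943) (l 311552901687))) (l 307257934471)) (l 3)) (c (c (l 285783097495) (c (l 278803775623) (l 273971937415))) (l 264845131911))) (c (l 16777152) (l 16777152))) (a (a (l 3) (c (c (l 365776863223) (c (l 366313734135) (l 363092508647))) (l 358797541351))) (a (c (c (l 272898195943) (c (l 277730033815) (l 273435066519))) (l 264845131927)) (c (l 16777176) (l 16777168)))))) (b (b (a (l 3) (a (c (c (l 377588023287) (l 375977410551)) (l 372219314135)) (c (c (l 321753448695) (a (c (l 328732770551) (l 322827190519)) (l 277730033719))) (c (l 294373032423) (l 308331675799))))) (c (c (l 402820956135) (l 402284085191)) (l 401210343303))) (l 3))) (b (c (l 16777048) (l 16777032)) (b (c (a (a (b (l 16777264) (c (l 310479159911) (b (l 276656291911) (a (l 315310998071) (l 304036708647)))))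 (c (l 16777168) (l 16777168))) (l 16777120)) (a (a (a (b (l 16777184) (l 328195899623)) (l 264308261063)) (l 16777160)) (l 16777112))) (b (a (a (c (l 407652794359) (l 408189665239)) (a (c (b (c (l 329806512295) (l 323900932263)) (l 3)) (l 339470188519)) (c (c (l 317458481399) (c (l 315847868583) (l 311552901271))) (l 305647321239)))) (c (c (l 16777176) (l 277730033751)) (l 16777168))) (a (l 3) (a (b (c (c (l 309942288871) (a (l 337859575975) (l 16777208))) (l 308331675895)) (c (c (l 365239992327) (l 362555637751)) (l 358260670439))) (c (c (l 16777192) (l 275045679303)) (l 16777192)))))))), by decide +kernel⟩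

def k47_pp_123_s : ∃ t, chk3 f_pp_123_s t 293 313 1 = true :=
  ⟨(a (l 3) (a (l 3) (a (l 3) (a (l 3) (b (b (b (c (c (l 343765155831) (a (l 372219314167) (c (l 328195899639) (l 324437803255)))) (a (l 368998088679) (l 320142835959))) (l 3)) (l 3)) (l 3)))))), by decide +kernel⟩

def k48_pp_123_s : ∃ t, chk3 f_pp_123_s t 293 157 1 = true :=
  ⟨(l 3), by decide +kernel⟩

def k49_pp_123_s : ∃ t, chk3 f_pp_123_s t 588 78 1 = true :=
  ⟨(b (b (a (b (l 16776920) (c (c (l 16777392) (l 16777064)) (l 16777048))) (l 16776864)) (a (b (a (a (b (c (c (b (l 283098743031) (l 351818219511)) (b (l 271824453879) (c (l 349670735863) (l 347523252215)))) (b (l 262160777511) (a (l 388862312423) (l 307257933815)))) (l 3)) (c (b (b (l 16777168) (c (l 286856839303) (c (l 270213841191) (l 265382002983)))) (c (l 375440539639) (c (l 374366797799) (l 373293055975)))) (b (l 263234519463) (c (l 370608701399) (b (l 355576315863) (l 3)))))) (a (c (b (l 16777152) (c (b (l 275582550487) (l 371682443255)) (b (c (l 276656291991)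 (l 271287582871)) (c (l 371145572343) (l 368998088679))))) (b (l 16777144) (b (l 264845131911) (l 365776863191)))) (b (l 16777120) (b (c (l 16777176) (l 16777168)) (c (c (l 307257934311) (c (b (l 16777200) (l 322290319607)) (l 307794804967))) (c (l 305110450327) (l 305110450327))))))) (a (l 3) (c (c (l 402284085223) (c (l 402284085191) (l 401747214247))) (l 400136601447)))) (b (c (b (l 16777040) (c (c (l 16777112) (l 16777112)) (l 16777112))) (l 16777064)) (b (c (a (a (c (b (l 308868547127) (l 399062859767)) (b (c (b (l 278803775543) (l 330880254199)) (l 313163514103)) (l 398525988839))) (c (b (l 16777184) (l 327659028775)) (b (l 16777176) (c (b (l 266992615735) (l 312626643559)) (l 301889225319))))) (c (b (l 16777136) (l 16777168)) (l 16777152))) (a (a (b (a (l 322290319607) (l 258939552007)) (l 396915376087)) (a (b (l 16777184) (l 333027737591)) (l 264308261063))) (l 16777144))) (a (l 3) (a (b (c (c (c (l 333027737607) (l 331953996103)) (c (b (l 313700384935) (l 314237256327)) (l 325511545079)))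 (a (l 344302026727) (l 308331675799))) (l 3)) (c (c (b (l 16777192) (l 338396446711)) (b (l 16777184) (c (b (l 317995352311) (l 368461217783)) (l 331417124855)))) (b (l 16777184) (a (l 357723799527) (l 314237255927)))))))))) (l 3)), by decide +kernel⟩

def k50_pp_123_s : ∃ t, chk3 f_pp_123_s t 589 78 1 = true :=
  ⟨(b (b (l 16776672) (b (l 16776880) (a (a (b (l 16777088) (c (c (b (l 16777144) (c (l 16777176) (l 283098742871))) (l 276119421063)) (l 265382002903))) (l 16777056)) (l 16776960)))) (b (b (a (a (b (a (b (c (c (l 345375768567) (c (b (l 326048415991) (l 385641086967)) (l 338933317623))) (a (l 374366797799) (l 323900932327))) (l 3)) (b (c (c (l 278803775783) (l 269676970231)) (l 261623906599)) (b (c (c (l 315310998071) (c (l 311016030775) (l 306721063479))) (l 307257934423)) (c (l 404968439799) (l 406042181607))))) (l 3)) (b (c (a (b (l 16777168) (c (l 283098742919) (l 274508808327))) (l 16777152)) (l 265382002919)) (a (b (c (c (l 362018766839) (c (l 360408154103) (l 356650057719)))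 (l 356113186791)) (l 3)) (b (c (a (c (l 307257934231) (l 313700384935)) (c (l 16777192) (l 16777192))) (l 264845131911)) (c (c (l 372756185079) (l 370071830519)) (l 367924346839)))))) (b (l 16777720) (a (b (c (l 16777320) (l 16777152)) (a (b (c (c (l 16777200) (l 16777200)) (l 16777200)) (c (c (l 327122157815) (l 320142835959)) (l 315847868663))) (c (l 16777176) (l 16777176)))) (l 16777104)))) (a (l 3) (b (b (a (a (c (c (l 385104216055) (l 383493603319)) (l 381346119639)) (a (c (c (l 333027737847) (l 326585286903)) (l 323900932327)) (c (c (l 282025001111) (l 275045679175)) (l 258939552007)))) (c (c (l 16777160) (l 16777160)) (l 16777160))) (a (c (c (l 402820956151) (l 402284085223)) (l 401210343351)) (a (b (c (c (l 272361324855) (l 263771390263)) (l 256255197495)) (c (c (l 315310998119) (l 310479159911)) (l 336248963063))) (c (c (l 16777184) (l 16777184)) (l 16777184))))) (a (l 3) (a (l 3) (b (a (c (c (l 350744477703) (l 311552901767)) (l 343765155815)) (c (c (l 315310997751) (l 312089772199))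 (l 308331675799))) (l 3))))))) (l 3))), by decide +kernel⟩

def k51_pp_123_s : ∃ t, chk3 f_pp_123_s t 295 156 1 = true :=
  ⟨(l 16779056), by decide +kernel⟩

def k52_pp_123_s : ∃ t, chk3 f_pp_123_s t 590 157 1 = true :=
  ⟨(b (b (l 16776912) (a (a (b (l 16777440) (a (b (c (c (l 16777272) (l 16777184)) (l 16777184)) (a (c (c (l 362555637767) (l 358797541367)) (l 356650057703)) (c (c (l 322290319607) (l 316384739575)) (l 313163514103)))) (c (c (b (l 16777152) (l 280951259335)) (l 16777176)) (l 266455744679)))) (c (l 16777088) (l 16777080))) (l 16776984))) (b (a (b (a (a (l 3) (a (c (c (l 388862312439) (l 387251699687)) (l 386177957831)) (b (c (c (l 329269641463) (l 324437803255)) (l 321753448695)) (l 3)))) (a (b (c (c (l 277193162999) (l 268603228407)) (l 262160777511)) (c (c (c (l 351281348615) (l 349670735863)) (c (l 347523252215) (l 344302026743))) (c (l 344838897639) (l 345375768551)))) (c (c (b (l 16777160) (c (l 289004322951) (l 272361324887))) (l 274508808295)) (l 263771390375)))) (a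 (l 3) (a (l 3) (b (c (c (c (l 359871283207) (l 358260670455)) (l 355576315895)) (l 353428832231)) (l 3))))) (a (b (c (l 16777128) (l 16777128)) (b (c (c (c (l 286319968375) (c (l 282025001079) (l 279877517431))) (l 274508808311)) (l 261623906743)) (a (c (c (l 367924346871) (l 365239992311)) (l 364166250471)) (c (c (c (l 305110450663) (b (l 16777200) (l 319069094135))) (l 294909903319)) (l 303499837591))))) (c (c (l 16777264) (l 16777104)) (l 16777096)))) (b (a (l 3) (a (c (c (l 393157279735) (l 392620408791)) (l 391546666919)) (a (b (c (c (c (l 320142835959) (b (l 16777280) (l 327122157815))) (l 309942288631)) (c (l 307794804967) (l 308868546711))) (c (c (l 391546666999) (l 390472925159)) (l 389936054231))) (b (c (l 16777176) (l 16777176)) (c (c (c (l 323364061479) (b (l 277730033815) (l 311016030775))) (l 299204870759)) (c (l 297057387063) (l 313163514087))))))) (c (c (l 409263407063) (l 409263406983)) (l 407652794119))))), by decide +kernel⟩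

def k53_pp_123_s : ∃ t, chk3 f_pp_123_s t 591 157 1 = true :=
  ⟨(b (l 16776720) (a (b (l 16777000) (b (c (c (c (l 16777280) (l 16777112)) (l 16777112)) (l 16777104)) (a (a (b (c (c (c (l 327659028807) (b (l 298131128647) (l 312626643559))) (l 320142835991)) (a (l 338396446711) (l 304036708503))) (l 3)) (c (c (b (l 16777184) (c (l 333564608519) (b (l 315847868583) (l 313700385463)))) (b (l 16777184) (l 326048416023))) (a (b (l 16777192) (l 349670735847)) (l 266992615543)))) (c (c (c (l 286856839287) (l 16777320)) (l 16777152)) (l 16777312))))) (l 16777600))), by decide +kernel⟩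

def k54_pp_123_s : ∃ t, chk3 f_pp_123_s t 73 79 1 = true :=
  ⟨(a (l 3) (a (l 3) (a (l 3) (b (b (b (a (b (a (l 3) (a (b (c (c (c (l 339470188535) (b (l 319605965047) (l 371682443255))) (l 331417124855)) (a (l 362555637735) (l 316384739575))) (l 3)) (b (c (c (l 278266904775) (l 16777192)) (l 16777352)) (c (c (c (l 345375768567) (b (l 327122157815) (l 387251699703))) (l 337859575799)) (a (l 377588023271) (l 324974674151)))))) (l 3)) (b (a (c (c (b (l 16777144) (c (l 280414388487) (l 276119421191))) (l 16777320)) (l 268603228375)) (l 16777088)) (a (a (b (c (c (c (l 352891961351) (l 350207606775)) (l 345912639479)) (c (l 346986381287) (l 348060123111))) (l 3)) (b (c (c (c (l 283635613831) (l 278266904711)) (l 271287582855)) (l 267529486471)) (c (c (c (l 360945025031) (l 358797541367)) (l 355039444983)) (l 355576315879)))) (a (c (c (b (l 16777168) (c (l 306721063143) (l 302962966759))) (l 272898195559)) (l 263234519463)) (l 16777312))))) (b (a (l 3) (a (l 3) (a (c (c (c (l 381882990583) (l 380809248759))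 (l 378124894183)) (l 379198635975)) (b (c (c (c (b (l 16777200) (l 320679706871)) (l 296520516071)) (l 291688677863)) (l 292762419671)) (c (c (l 378661765111) (l 376514281463)) (l 377051152343)))))) (l 3))) (l 3)) (l 3))))), by decide +kernel⟩

def k55_pp_123_s : ∃ t, chk3 f_pp_123_s t 37 38 1 = true :=
  ⟨(a (b (l 16773952) (a (l 16774944) (l 16774240))) (l 16773600)), by decide +kernel⟩

def k56_pp_123_s : ∃ t, chk3 f_pp_123_s t 74 78 1 = true :=
  ⟨(a (b (a (l 16775912) (l 16775384)) (a (l 16779088) (l 16775920))) (b (l 16774776) (a (l 16775416) (l 16774984)))), by decide +kernel⟩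

def k57_pp_123_s : ∃ t, chk3 f_pp_123_s t 296 158 1 = true :=
  ⟨(a (b (b (c (l 16776960) (l 16776952)) (a (b (a (a (b (l 16777168) (c (c (c (b (l 16777280) (l 309942288887)) (l 311552901367)) (l 307257934071)) (l 308331675879))) (c (l 16777160) (l 16777152))) (l 16777104)) (c (a (a (c (l 397452247031) (l 395841634279)) (b (c (c (b (l 280414388375) (l 311016030775)) (l 316384739575)) (l 296520516151)) (l 403894697975))) (a (c (b (l 16777176) (c (b (l 298131128647) (l 312089772647)) (l 318532223303))) (l 290614936263)) (l 16777160))) (a (a (l 396915376071) (b (a (l 328732770535) (l 258939552055)) (l 405505310679))) (a (a (b (l 16777184) (l 337859575799)) (l 268603228279)) (l 16777160))))) (l 16777040))) (b (b (a (a (l 3) (a (l 3) (b (a (c (c (l 350207606791) (l 346986381303)) (l 348060123111)) (b (l 275045679207) (c (l 335712092327) (l 334638350487)))) (l 3)))) (a (a (b (c (l 16777272) (l 16777184)) (b (c (c (l 316384739575) (l 311016030455)) (l 312089772279)) (c (l 364703121399) (l 364166250471))))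 (c (l 279340646567) (l 270213841047))) (l 16777120))) (a (l 3) (a (a (l 3) (b (a (c (l 372756185079) (l 372756185063)) (c (c (l 325511545079) (l 321216577783)) (l 321753448695))) (l 3))) (a (b (c (l 271824453927) (l 264308261143)) (a (l 386177957879) (b (a (l 319069094055) (l 16777288)) (l 321216577111)))) (c (l 273435066711) (l 269140099239)))))) (a (l 3) (a (l 3) (a (l 3) (b (a (l 406042181591) (b (b (l 317995352231) (l 3)) (l 3))) (l 3))))))) (b (l 16776760) (b (c (l 16777640) (l 16777632)) (b (a (a (a (b (c (l 273971937495) (l 268066357383)) (c (l 359871283191) (l 360408154087))) (a (c (l 275045679319) (l 269140099191)) (l 275045679351))) (l 16777128)) (l 16777024)) (a (a (c (c (l 387788570615) (l 387251699671)) (l 388325441463)) (a (b (c (l 304573579575) (l 305110450407)) (l 377588023271)) (a (b (l 16777184) (a (l 333027737847) (l 311552901367))) (l 272898195687)))) (l 16777472)))))), by decide +kernel⟩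

def k58_pp_123_s : ∃ t, chk3 f_pp_123_s t 297 158 1 = true :=
  ⟨(b (l 16776336) (l 16779256)), by decide +kernel⟩

def k59_pp_123_s : ∃ t, chk3 f_pp_123_s t 148 159 1 = true :=
  ⟨(a (a (l 3) (b (b (a (c (l 403357827015) (l 405505310535)) (b (a (a (b (c (l 298131128935) (c (l 298131128887) (l 315310997735))) (l 403894697959)) (b (l 16777176) (a (l 336785833975) (l 302426095847)))) (l 16777392)) (a (l 3) (a (b (a (l 345912639479) (l 295983645159)) (l 3)) (b (l 16777184) (a (l 356113186807) (l 313700385015))))))) (l 3)) (l 3))) (a (b (b (a (c (l 273971937751) (b (l 16777032) (l 272361324919))) (l 16776936)) (a (b (a (a (b (a (l 368461217783) (l 320142835959)) (l 3)) (b (l 272361324743) (a (l 381882990583) (l 323900932423)))) (c (l 277730034039) (l 271287582935))) (a (l 3) (a (b (c (l 346986381303) (l 349133864935)) (l 3)) (b (l 263234519511) (c (l 355039444983) (l 357186928615)))))) (a (c (l 280951259447) (c (l 269676970455) (l 270213841127))) (l 16777048)))) (b (a (l 3) (b (b (a (a (l 362018766823)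 (c (l 299741741367) (l 292225548759))) (l 16777152)) (a (l 380809248727) (c (l 286856839783) (c (l 270213841095) (l 269140099191))))) (a (l 3) (a (l 389936054231) (b (c (l 308331675975) (l 309405417783)) (l 392620408807)))))) (l 3))) (b (l 16776792) (b (a (a (a (b (l 16777112) (a (b (l 16777184) (a (l 311016030775) (l 321216577783))) (l 267529486775))) (l 16777448)) (l 16777064)) (l 16776952)) (a (a (a (l 3) (b (b (a (l 337859575799) (l 302962966759)) (l 3)) (l 3))) (a (b (b (l 16777184) (a (l 346449510391) (l 295983645159))) (l 3)) (b (l 16777328) (b (a (l 356113186807) (l 312089772327)) (l 3))))) (b (l 16777072) (a (a (b (l 16777312) (a (l 366313734135) (l 317995352359))) (l 275045679351)) (l 16777112)))))))), by decide +kernel⟩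

def k60_pp_123_s : ∃ t, chk3 f_pp_123_s t 149 79 1 = true :=
  ⟨(b (a (l 16775920) (l 16775440)) (a (b (l 16776352) (l 16777968)) (l 16775912))), by decide +kernel⟩

def k61_pp_123_s : ∃ t, chk3 f_pp_123_s t 75 39 1 = true :=
  ⟨(b (l 16774000) (a (b (l 16774824) (a (l 16775464) (l 16775040))) (l 16774352))), by decide +kernel⟩

def k62_pp_123_s : ∃ t, chk3 f_pp_123_s t 19 4 1 = true :=
  ⟨(b (l 16769560) (b (a (l 16773904) (l 16775440)) (a (b (l 16773192) (a (l 16794464) (l 16772896))) (b (l 16772880) (l 16772480))))), by decide +kernel⟩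

def k63_pp_123_s : ∃ t, chk3 f_pp_123_s t 5 4 1 = true :=
  ⟨(a (a (b (a (l 16765824) (l 16764080)) (b (a (l 16778528) (l 16780616)) (a (l 16772936) (a (l 16773128) (a (l 16773304) (l 16772120)))))) (b (l 16761304) (l 16782984))) (b (l 6) (l 16795840))), by decide +kernel⟩

def k64_pp_123_s : ∃ t, chk3 f_pp_123_s t 3 4 1 = true :=
  ⟨(a (l 6) (l 6)), by decide +kernel⟩

def k65_pp_123_s : ∃ t, chk3 f_pp_123_s t 8 5 1 = true :=
  ⟨(l 3), by decide +kernel⟩

def k66_pp_123_s : ∃ t, chk3 f_pp_123_s t 36 10 1 = true :=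
  ⟨(l 3), by decide +kernel⟩

def k67_pp_123_s : ∃ t, chk3 f_pp_123_s t 148 40 1 = true :=
  ⟨(b (b (b (b (a (l 3) (a (l 3) (a (l 3) (a (a (l 3) (a (l 396378505159) (b (b (l 325511545079) (l 3)) (l 3)))) (a (b (b (l 271824453847) (c (l 344838897655) (l 346449510375))) (l 3)) (b (l 273435066631) (b (l 350744477687) (l 3)))))))) (l 3)) (l 3)) (l 3)) (l 3)), by decide +kernel⟩

def k68_pp_123_s : ∃ t, chk3 f_pp_123_s t 298 40 1 = true :=
  ⟨(b (a (b (a (b (b (b (l 16777080) (a (a (b (l 262160777687) (l 357723799543)) (c (l 272361324887) (l 270750711991))) (l 16777128))) (a (c (l 391546666967) (l 393694150535)) (b (a (b (l 301889225015) (l 373829926887)) (c (l 286319968871) (l 268603228439))) (l 394231021511)))) (l 3)) (b (b (l 16776968) (b (l 16777096) (a (a (b (c (l 308331675975) (l 308331675975)) (l 393157279719)) (a (b (l 16777184) (l 307257934423)) (l 268066357687))) (l 16777136)))) (b (b (a (l 405505310663) (a (b (c (l 316921610567) (l 318532223255)) (l 3)) (a (b (l 16777192) (l 343765155831))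 (l 269676970343)))) (l 3)) (l 3)))) (l 3)) (a (b (b (l 16776904) (b (b (l 273971937799) (a (a (b (c (l 324974673911) (l 326585286647)) (l 3)) (b (l 16777184) (c (l 329806512119) (l 330880253927)))) (l 275045679463))) (b (a (l 3) (a (a (l 382956732391) (b (l 320142835959) (l 3))) (b (l 272898195655) (c (l 339470188535) (l 341080801255))))) (l 3)))) (l 3)) (b (b (l 16776752) (b (l 16776992) (a (b (l 275045679399) (a (b (l 344302026743) (l 3)) (b (l 270213841143) (l 349670735863)))) (c (l 279340646711) (l 272361324839))))) (b (b (b (a (l 3) (a (l 370071830503) (b (l 295983644983) (l 362018766839)))) (l 3)) (l 3)) (l 3))))) (l 3)), by decide +kernel⟩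

def k69_pp_123_s : ∃ t, chk3 f_pp_123_s t 299 40 1 = true :=
  ⟨(a (b (b (b (l 16776520) (l 16778152)) (b (b (a (b (c (l 277193163399) (c (l 268603228647) (l 266992615895))) (a (a (l 379735506919) (b (l 302426095927) (l 375977410535))) (c (l 272361324951) (l 270750712055)))) (l 16777008)) (a (a (l 3) (a (l 397452246967) (b (b (l 295983645287) (l 393694150631)) (l 3)))) (b (a (a (b (l 16777176) (l 297594258055)) (l 16777152)) (l 16777096)) (a (a (l 403894697943) (b (l 314237256055) (l 3))) (a (b (l 16777176) (l 317458481527)) (l 16777160)))))) (a (l 3) (a (l 3) (a (l 3) (b (b (b (l 321216577895) (l 3)) (l 3)) (l 3))))))) (l 3)) (b (b (l 16776392) (b (l 16777848) (a (b (b (a (a (b (l 16777184) (l 324974674279)) (l 16777160)) (l 16777104)) (a (a (l 3) (b (l 328732770295) (l 3))) (a (b (l 16777184) (l 333027737591)) (l 16777328)))) (a (l 3) (a (l 3) (a (l 394767892423) (b (l 348060123111) (l 3)))))) (b (l 16777032) (b (a (a (b (l 270750712055) (l 341080801271)) (l 271824453959)) (l 16777112))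 (a (c (l 371682443239) (l 373293055943)) (a (b (l 268066357543) (l 350207606775)) (l 269676970407)))))))) (a (l 3) (b (b (b (c (l 390472925143) (b (l 387788570519) (l 3))) (l 3)) (l 3)) (l 3))))), by decide +kernel⟩

def k70_pp_123_s : ∃ t, chk3 f_pp_123_s t 74 41 1 = true :=
  ⟨(l 3), by decide +kernel⟩

def k71_pp_123_s : ∃ t, chk3 f_pp_123_s t 75 40 1 = true :=
  ⟨(b (a (b (a (l 16775928) (l 16775488)) (a (a (a (b (l 16776640) (l 16777616)) (l 16776656)) (l 16776432)) (l 16775984))) (b (l 16774896) (l 16775352))) (b (a (a (a (b (a (b (b (a (a (b (l 294909903159) (l 360408154103)) (l 270213841239)) (l 16777120)) (a (l 382956732375) (b (l 268066357687) (a (l 371145572343) (l 302426095927))))) (c (l 397452246999) (l 399599730519))) (b (l 16777048) (b (a (b (l 267529486775) (a (l 382419861479) (l 307257934151))) (l 16777136)) (a (l 396378505159) (b (l 294909903303) (a (l 395304763367) (l 312089772359))))))) (c (l 405505310615) (l 407652794023))) (a (b (b (l 16776896) (l 16777384)) (b (b (a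 (a (b (l 314774126919) (l 3)) (l 299204870599)) (l 16777136)) (a (l 3) (a (a (l 364166250471) (l 331417124855)) (l 301889225175)))) (l 3))) (b (l 16776824) (b (l 272898195975) (b (a (b (l 303499837911) (l 346449510375)) (l 16777144)) (a (l 3) (a (l 349133864935) (l 307257934311)))))))) (a (b (l 16776600) (b (l 16776840) (c (l 271287583287) (l 271287583255)))) (l 16776464))) (a (l 16776040) (l 16775536))) (b (a (a (l 3) (a (a (b (b (a (a (l 353965703143) (l 295983644999)) (l 16777480)) (a (l 3) (a (l 358797541351) (l 312089772679)))) (l 3)) (b (l 274508808743) (b (a (a (l 363629379559) (l 314774127239)) (l 270750712279)) (a (l 3) (a (l 368461217767) (l 317458481799)))))) (b (l 16776848) (c (l 271824454471) (l 272361325015))))) (l 16776200)) (a (a (l 3) (a (l 3) (b (a (a (a (l 384030474183) (b (l 319605965447) (l 3))) (b (l 270213841367) (a (l 378124894183) (l 322290319351)))) (l 272361325271)) (a (l 3) (a (a (l 390472925127) (b (l 324437802983) (l 3))) (b (l 264845132503) (a (l 387788570599)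 (l 327122157543)))))))) (a (a (a (c (l 270750712743) (l 262697648983)) (l 16776864)) (l 16776640)) (l 16776216)))))), by decide +kernel⟩

def k72_pp_123_s : ∃ t, chk3 f_pp_123_s t 75 41 1 = true :=
  ⟨(a (l 3) (b (a (b (a (b (b (a (a (b (l 336785834615) (l 3)) (b (l 275045679639) (l 333027737575))) (l 265382003527)) (a (l 3) (a (l 349670735815) (a (l 312626643559) (l 290078065511))))) (l 3)) (b (c (l 260013294711) (l 261623907063)) (a (a (l 365239992199) (b (l 301889224695) (l 3))) (b (l 265918874535) (l 317995353319))))) (l 3)) (b (a (b (l 16776656) (l 260550166087)) (l 16776512)) (b (a (a (b (l 318532222919) (l 3)) (b (l 16777104) (l 319069093831))) (l 16778272)) (a (l 3) (a (l 336785833879) (l 291688677319)))))) (l 3))), by decide +kernel⟩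

def k73_pp_123_s : ∃ t, chk3 f_pp_123_s t 37 21 1 = true :=
  ⟨(l 3), by decide +kernel⟩

def k74_pp_123_s : ∃ t, chk3 f_pp_123_s t 18 11 1 = true :=
  ⟨(l 3), by decide +kernel⟩

def k75_pp_123_s : ∃ t, chk3 f_pp_123_s t 19 10 1 = true :=
  ⟨(a (b (a (b (a (b (l 16774424) (b (l 16774984) (l 16775384))) (l 16774200)) (a (b (a (b (l 16776096) (l 251960233063)) (l 16786288)) (b (a (a (b (c (l 307257936375) (l 308331678135)) (l 3)) (b (l 16776960) (l 306184191895))) (l 16779296)) (a (l 3) (a (a (l 349670735655) (l 315310997351)) (l 282561876871))))) (b (a (l 16775408) (l 16775040)) (a (l 16779016) (l 16775800))))) (b (l 16773432) (a (b (l 16774520) (a (l 16775392) (l 16775032))) (l 16774256)))) (a (b (a (l 3) (b (a (b (a (l 320142835511) (l 278803779767)) (l 3)) (b (l 16776648) (l 292225553447))) (a (l 3) (l 410337148247)))) (l 3)) (b (a (b (a (l 16776360) (l 16775752)) (a (b (l 287393709959) (l 401210342983)) (l 269676979239))) (b (a (l 16775320) (l 16774944)) (a (l 16776272) (l 16775624))))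 (a (b (a (l 3) (l 392083537255)) (l 3)) (a (b (b (l 277193168791) (l 373829926503)) (l 3)) (b (l 263234527191) (l 344302031367))))))) (b (a (b (l 16772832) (l 16773424)) (b (l 16772400) (l 16772712))) (a (b (a (b (l 16774408) (a (l 16775152) (l 16774752))) (l 16774040)) (a (b (a (l 16776104) (l 16775352)) (a (b (l 16779496) (l 322290319015)) (l 16781768))) (b (a (l 16774832) (l 16774376)) (a (l 16775776) (l 16774864))))) (b (l 16773408) (a (b (l 16774120) (l 16774504)) (l 16774272)))))), by decide +kernel⟩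

def k76_pp_123_s : ∃ t, chk3 f_pp_123_s t 19 11 1 = true :=
  ⟨(a (l 3) (b (a (b (a (b (a (l 3) (l 326585296567)) (l 3)) (b (a (l 271824466903) (l 16776176)) (a (l 389399182343) (b (l 280951268135) (l 357723798951))))) (l 3)) (b (a (b (a (l 16775312) (l 16774880)) (a (l 249275888327) (l 16775984))) (b (l 16774952) (l 16785888))) (a (b (a (b (l 327122157095) (l 3)) (b (l 16776800) (l 313700384519))) (l 3)) (b (l 252497110359) (a (l 311552911239) (l 263234530087)))))) (a (l 3) (b (a (l 3) (b (a (l 3) (l 344302025943)) (l 3))) (l 3))))), by decide +kernel⟩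

def k77_pp_123_s : ∃ t, chk3 f_pp_123_s t 5 5 1 = true :=
  ⟨(a (a (a (b (b (a (l 16772016) (l 16771240)) (a (b (l 16772336) (l 16773240)) (b (l 16771096) (l 16771368)))) (b (a (b (b (l 16774248) (a (l 16775128) (l 16774488))) (a (b (l 16775648) (l 16776344)) (b (l 16775160) (l 16775816)))) (b (l 16772160) (l 16774144))) (a (b (a (b (a (l 271824469447) (l 16776752)) (a (l 3) (l 297057386327))) (b (l 16786736) (a (l 16782168) (l 16776680)))) (a (l 3) (b (a (l 327659028023) (l 260013307527)) (a (l 3) (l 352891960631))))) (b (a (b (l 16775920) (l 16776320)) (l 16807232)) (a (b (l 16776728) (a (l 263771406391) (l 16776904))) (b (l 16776328) (l 16776640))))))) (b (a (b (l 16770088) (l 16771032)) (b (a (l 16768360) (a (l 16766000) (l 16763208))) (a (l 16770544) (b (l 16870016) (l 16919496))))) (a (a (b (l 16792504) (b (l 16773896) (b (l 16775216) (l 16776200)))) (b (l 16772768) (l 16816432))) (b (a (l 16794544) (a (l 16772544) (l 16769648))) (a (b (l 16774912) (l 16775072)) (b (a (l 16775336) (l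 16773440)) (a (l 16775928) (c (l 16840128) (l 16795176))))))))) (b (b (l 16763864) (l 16760776)) (b (l 16765704) (a (l 16772712) (l 16771576))))) (b (a (l 16785792) (l 16770704)) (a (a (l 16768112) (l 16769264)) (l 16772920)))), by decide +kernel⟩

def k78_pp_123_s : ∃ t, chk3 f_pp_123_s t 3 5 1 = true :=
  ⟨(a (a (b (l 16791496) (b (l 16783144) (l 16790456))) (l 6)) (l 6)), by decide +kernel⟩

def k79_pp_123_s : ∃ t, chk3 f_pp_123_s t 4 6 1 = true :=
  ⟨(l 3), by decide +kernel⟩

def k80_pp_123_s : ∃ t, chk3 f_pp_123_s t 20 6 1 = true :=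
  ⟨(a (b (b (a (l 3) (b (a (b (a (l 376514280567) (l 272898210455)) (l 3)) (b (a (l 16776968) (l 16776832)) (a (l 293836174695) (l 16777016)))) (a (l 3) (b (a (l 3) (l 299741753671)) (l 3))))) (l 3)) (l 3)) (b (a (b (a (a (b (l 16785304) (b (l 16777056) (l 281488144919))) (b (l 16776648) (b (l 16776952) (l 16777080)))) (b (b (l 16775864) (l 16808128)) (a (l 16797912) (l 16776896)))) (a (b (a (l 3) (l 300278632375)) (l 3)) (b (a (l 240685967495) (l 16787576)) (a (l 321216597447) (b (l 16787688) (l 265918895095)))))) (b (a (b (l 16796456) (a (l 16776664) (l 16776024))) (b (a (l 16776000) (b (l 16776264) (l 16776312))) (a (l 16797064) (l 16776384)))) (a (b (a (b (l 16776984) (l 16777040)) (l 16797624)) (a (a (l 238538482535) (l 16798088)) (b (l 16776968) (l 16777072)))) (b (a (b (l 16776280) (l 16776464)) (l 16776592)) (a (a (l 16776848) (b (l 16776696) (l 16776896))) (l 16808320)))))) (a (l 3) (b (a (b (a (b (l 275582572823) (l 3)) (b (l 16777136) (l 16787672))) (a (l 3) (a (l 3) (l 16787592))))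 (a (a (b (l 16777096) (l 16787624)) (b (b (l 16777024) (l 16777064)) (b (l 16777048) (l 16798024)))) (b (a (a (a (l 16777008) (l 16776976)) (l 16776952)) (l 16776896)) (a (a (a (l 16776912) (a (l 16776896) (l 16776872))) (l 16776824)) (l 16776736))))) (a (l 3) (a (a (b (l 16787624) (l 3)) (b (b (l 16798120) (l 16798200)) (c (l 287930619831) (l 286320005559)))) (a (a (a (b (l 16776992) (l 16777216)) (a (b (l 16776952) (l 16777184)) (b (l 16776928) (l 16777144)))) (b (l 16776880) (l 16777056))) (b (l 16776744) (l 16776848))))))))), by decide +kernel⟩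

def k81_pp_123_s : ∃ t, chk3 f_pp_123_s t 21 6 1 = true :=
  ⟨(b (b (a (b (l 16775936) (l 16776368)) (l 16776448)) (a (b (l 16776608) (l 16776680)) (l 16776872))) (b (a (b (l 16776368) (l 16786304)) (l 16775144)) (b (a (l 16775280) (l 16772760)) (a (l 16774616) (l 16770568))))), by decide +kernel⟩

def k82_pp_123_s : ∃ t, chk3 f_pp_123_s t 11 6 1 = true :=
  ⟨(b (a (b (l 16778008) (l 16841264)) (b (l 16782792) (l 16782840))) (a (b (b (l 16776104) (l 16773408)) (b (l 16769832) (l 16765248))) (b (l 16776536) (l 16784448)))), by decide +kernel⟩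

def k83_pp_123_s : ∃ t, chk3 f_pp_123_s t 3 6 1 = true :=
  ⟨(a (b (a (b (l 16880264) (l 16984280)) (b (l 16830184) (l 16825096))) (a (b (a (l 16780936) (l 16788096)) (a (l 16761064) (l 16760120))) (b (l 16792072) (l 1)))) (l 6)), by decide +kernel⟩

def k84_pp_123_s : ∃ t, chk3 f_pp_123_s t 1 7 1 = true :=
  ⟨(a (a (b (l 3) (l 3)) (b (a (a (a (l 3) (a (l 3) (b (a (l 3) (b (a (l 3) (a (a (a (l 16777240) (a (l 16777224) (l 16777184))) (l 16777064)) (l 16776776))) (a (a (l 3) (l 16798208)) (a (a (a (l 16777064) (a (l 16776976) (l 16776912))) (l 16776768)) (l 16776368))))) (b (a (a (l 3) (c (l 287393754983) (l 291151848295))) (a (a (l 16798168) (a (l 16776744) (l 16776464))) (a (a (a (l 16776240) (a (l 16776128) (l 16776048))) (l 16775856)) (l 16775336)))) (b (a (a (l 3) (l 16798256)) (a (a (l 16775736) (l 16774760)) (a (a (a (l 16774376) (a (l 16774256) (l 16774192))) (l 16773952)) (l 16773336)))) (l 1)))))) (b (a (b (l 16773544) (b (l 16772384) (l 16771400))) (b (l 16767584) (l 16763584)))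 (a (a (b (l 16793208) (l 16789320)) (b (l 16766680) (l 1))) (b (l 16779448) (l 1))))) (b (a (b (l 16759128) (l 16751416)) (b (l 16748608) (l 1))) (l 1))) (a (a (a (b (l 3) (l 1)) (l 1)) (l 1)) (l 1)))) (l 1)), by decide +kernel⟩

theorem s85_pp_123_s : ∃ t, chk3 f_pp_123_s t 10 6 1 = true := ex3_a k80_pp_123_s k81_pp_123_s

theorem s86_pp_123_s : ∃ t, chk3 f_pp_123_s t 5 6 1 = true := ex3_a s85_pp_123_s k82_pp_123_s

theorem s87_pp_123_s : ∃ t, chk3 f_pp_123_s t 2 6 1 = true := ex3_a k79_pp_123_s s86_pp_123_s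

theorem s88_pp_123_s : ∃ t, chk3 f_pp_123_s t 1 6 1 = true := ex3_a s87_pp_123_s k83_pp_123_s

theorem s89_pp_123_s : ∃ t, chk3 f_pp_123_s t 1 3 1 = true := ex3_b s88_pp_123_s k84_pp_123_s

theorem s90_pp_123_s : ∃ t, chk3 f_pp_123_s t 19 5 1 = true := ex3_b k75_pp_123_s k76_pp_123_s

theorem s91_pp_123_s : ∃ t, chk3 f_pp_123_s t 75 20 1 = true := ex3_b k71_pp_123_s k72_pp_123_s

theorem s92_pp_123_s : ∃ t, chk3 f_pp_123_s t 149 40 1 = true := ex3_a k68_pp_123_s k69_pp_123_s

theorem s93_pp_123_s : ∃ t, chk3 f_pp_123_s t 74 40 1 = true := ex3_a k67_pp_123_s s92_pp_123_s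

theorem s94_pp_123_s : ∃ t, chk3 f_pp_123_s t 74 20 1 = true := ex3_b s93_pp_123_s k70_pp_123_s

theorem s95_pp_123_s : ∃ t, chk3 f_pp_123_s t 37 20 1 = true := ex3_a s94_pp_123_s s91_pp_123_s

theorem s96_pp_123_s : ∃ t, chk3 f_pp_123_s t 37 10 1 = true := ex3_b s95_pp_123_s k73_pp_123_s

theorem s97_pp_123_s : ∃ t, chk3 f_pp_123_s t 18 10 1 = true := ex3_a k66_pp_123_s s96_pp_123_s

theorem s98_pp_123_s : ∃ t, chk3 f_pp_123_s t 18 5 1 = true := ex3_b s97_pp_123_s k74_pp_123_s

theorem s99_pp_123_s : ∃ t, chk3 f_pp_123_s t 9 5 1 = true := ex3_a s98_pp_123_s s90_pp_123_s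

theorem s100_pp_123_s : ∃ t, chk3 f_pp_123_s t 4 5 1 = true := ex3_a k65_pp_123_s s99_pp_123_s

theorem s101_pp_123_s : ∃ t, chk3 f_pp_123_s t 2 5 1 = true := ex3_a s100_pp_123_s k77_pp_123_s

theorem s102_pp_123_s : ∃ t, chk3 f_pp_123_s t 1 5 1 = true := ex3_a s101_pp_123_s k78_pp_123_s

theorem s103_pp_123_s : ∃ t, chk3 f_pp_123_s t 148 158 1 = true := ex3_a k57_pp_123_s k58_pp_123_s

theorem s104_pp_123_s : ∃ t, chk3 f_pp_123_s t 148 79 1 = true := ex3_b s103_pp_123_s k59_pp_123_s

theorem s105_pp_123_s : ∃ t, chk3 f_pp_123_s t 74 79 1 = true := ex3_a s104_pp_123_s k60_pp_123_s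

theorem s106_pp_123_s : ∃ t, chk3 f_pp_123_s t 74 39 1 = true := ex3_b k56_pp_123_s s105_pp_123_s

theorem s107_pp_123_s : ∃ t, chk3 f_pp_123_s t 37 39 1 = true := ex3_a s106_pp_123_s k61_pp_123_s

theorem s108_pp_123_s : ∃ t, chk3 f_pp_123_s t 37 19 1 = true := ex3_b k55_pp_123_s s107_pp_123_s

theorem s109_pp_123_s : ∃ t, chk3 f_pp_123_s t 295 157 1 = true := ex3_a k52_pp_123_s k53_pp_123_s

theorem s110_pp_123_s : ∃ t, chk3 f_pp_123_s t 295 78 1 = true := ex3_b k51_pp_123_s s109_pp_123_s

theorem s111_pp_123_s : ∃ t, chk3 f_pp_123_s t 294 78 1 = true := ex3_a k49_pp_123_s k50_pp_123_s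

theorem s112_pp_123_s : ∃ t, chk3 f_pp_123_s t 147 78 1 = true := ex3_a s111_pp_123_s s110_pp_123_s

theorem s113_pp_123_s : ∃ t, chk3 f_pp_123_s t 293 312 1 = true := ex3_a k45_pp_123_s k46_pp_123_s

theorem s114_pp_123_s : ∃ t, chk3 f_pp_123_s t 293 156 1 = true := ex3_b s113_pp_123_s k47_pp_123_s

theorem s115_pp_123_s : ∃ t, chk3 f_pp_123_s t 293 78 1 = true := ex3_b s114_pp_123_s k48_pp_123_s

theorem s116_pp_123_s : ∃ t, chk3 f_pp_123_s t 146 78 1 = true := ex3_a k44_pp_123_s s115_pp_123_s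

theorem s117_pp_123_s : ∃ t, chk3 f_pp_123_s t 73 78 1 = true := ex3_a s116_pp_123_s s112_pp_123_s

theorem s118_pp_123_s : ∃ t, chk3 f_pp_123_s t 73 39 1 = true := ex3_b s117_pp_123_s k54_pp_123_s

theorem s119_pp_123_s : ∃ t, chk3 f_pp_123_s t 36 39 1 = true := ex3_a k43_pp_123_s s118_pp_123_s

theorem s120_pp_123_s : ∃ t, chk3 f_pp_123_s t 292 310 1 = true := ex3_a k38_pp_123_s k39_pp_123_s

theorem s121_pp_123_s : ∃ t, chk3 f_pp_123_s t 292 155 1 = true := ex3_b s120_pp_123_s k40_pp_123_s

theorem s122_pp_123_s : ∃ t, chk3 f_pp_123_s t 146 155 1 = true := ex3_a s121_pp_123_s k41_pp_123_s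

theorem s123_pp_123_s : ∃ t, chk3 f_pp_123_s t 146 77 1 = true := ex3_b k37_pp_123_s s122_pp_123_s

theorem s124_pp_123_s : ∃ t, chk3 f_pp_123_s t 73 77 1 = true := ex3_a s123_pp_123_s k42_pp_123_s

theorem s125_pp_123_s : ∃ t, chk3 f_pp_123_s t 73 38 1 = true := ex3_b k36_pp_123_s s124_pp_123_s

theorem s126_pp_123_s : ∃ t, chk3 f_pp_123_s t 291 154 1 = true := ex3_b k33_pp_123_s k34_pp_123_s

theorem s127_pp_123_s : ∃ t, chk3 f_pp_123_s t 145 154 1 = true := ex3_a k32_pp_123_s s126_pp_123_s

theorem s128_pp_123_s : ∃ t, chk3 f_pp_123_s t 145 77 1 = true := ex3_b s127_pp_123_s k35_pp_123_s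

theorem s129_pp_123_s : ∃ t, chk3 f_pp_123_s t 72 77 1 = true := ex3_a k31_pp_123_s s128_pp_123_s

theorem s130_pp_123_s : ∃ t, chk3 f_pp_123_s t 145 153 1 = true := ex3_b k29_pp_123_s k30_pp_123_s

theorem s131_pp_123_s : ∃ t, chk3 f_pp_123_s t 145 76 1 = true := ex3_b k28_pp_123_s s130_pp_123_s

theorem s132_pp_123_s : ∃ t, chk3 f_pp_123_s t 289 152 1 = true := ex3_a k25_pp_123_s k26_pp_123_s

theorem s133_pp_123_s : ∃ t, chk3 f_pp_123_s t 144 152 1 = true := ex3_a k24_pp_123_s s132_pp_123_s

theorem s134_pp_123_s : ∃ t, chk3 f_pp_123_s t 144 76 1 = true := ex3_b s133_pp_123_s k27_pp_123_s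

theorem s135_pp_123_s : ∃ t, chk3 f_pp_123_s t 72 76 1 = true := ex3_a s134_pp_123_s s131_pp_123_s

theorem s136_pp_123_s : ∃ t, chk3 f_pp_123_s t 72 38 1 = true := ex3_b s135_pp_123_s s129_pp_123_s

theorem s137_pp_123_s : ∃ t, chk3 f_pp_123_s t 36 38 1 = true := ex3_a s136_pp_123_s s125_pp_123_s

theorem s138_pp_123_s : ∃ t, chk3 f_pp_123_s t 36 19 1 = true := ex3_b s137_pp_123_s s119_pp_123_s

theorem s139_pp_123_s : ∃ t, chk3 f_pp_123_s t 18 19 1 = true := ex3_a s138_pp_123_s s108_pp_123_s

theorem s140_pp_123_s : ∃ t, chk3 f_pp_123_s t 288 151 1 = true := ex3_a k18_pp_123_s k19_pp_123_s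

theorem s141_pp_123_s : ∃ t, chk3 f_pp_123_s t 144 151 1 = true := ex3_a s140_pp_123_s k20_pp_123_s

theorem s142_pp_123_s : ∃ t, chk3 f_pp_123_s t 144 75 1 = true := ex3_b k17_pp_123_s s141_pp_123_s

theorem s143_pp_123_s : ∃ t, chk3 f_pp_123_s t 72 75 1 = true := ex3_a s142_pp_123_s k21_pp_123_s

theorem s144_pp_123_s : ∃ t, chk3 f_pp_123_s t 72 37 1 = true := ex3_b k16_pp_123_s s143_pp_123_s

theorem s145_pp_123_s : ∃ t, chk3 f_pp_123_s t 36 37 1 = true := ex3_a s144_pp_123_s k22_pp_123_s

theorem s146_pp_123_s : ∃ t, chk3 f_pp_123_s t 36 18 1 = true := ex3_b k15_pp_123_s s145_pp_123_s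

theorem s147_pp_123_s : ∃ t, chk3 f_pp_123_s t 18 18 1 = true := ex3_a s146_pp_123_s k23_pp_123_s

theorem s148_pp_123_s : ∃ t, chk3 f_pp_123_s t 18 9 1 = true := ex3_b s147_pp_123_s s139_pp_123_s

theorem s149_pp_123_s : ∃ t, chk3 f_pp_123_s t 18 4 1 = true := ex3_b k14_pp_123_s s148_pp_123_s

theorem s150_pp_123_s : ∃ t, chk3 f_pp_123_s t 9 4 1 = true := ex3_a s149_pp_123_s k62_pp_123_s

theorem s151_pp_123_s : ∃ t, chk3 f_pp_123_s t 287 75 1 = true := ex3_a k11_pp_123_s k12_pp_123_s

theorem s152_pp_123_s : ∃ t, chk3 f_pp_123_s t 143 75 1 = true := ex3_a k10_pp_123_s s151_pp_123_s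

theorem s153_pp_123_s : ∃ t, chk3 f_pp_123_s t 71 75 1 = true := ex3_a k9_pp_123_s s152_pp_123_s

theorem s154_pp_123_s : ∃ t, chk3 f_pp_123_s t 142 74 1 = true := ex3_b k6_pp_123_s k7_pp_123_s

theorem s155_pp_123_s : ∃ t, chk3 f_pp_123_s t 71 74 1 = true := ex3_a s154_pp_123_s k8_pp_123_s

theorem s156_pp_123_s : ∃ t, chk3 f_pp_123_s t 71 37 1 = true := ex3_b s155_pp_123_s s153_pp_123_s

theorem s157_pp_123_s : ∃ t, chk3 f_pp_123_s t 35 37 1 = true := ex3_a k5_pp_123_s s156_pp_123_s

theorem s158_pp_123_s : ∃ t, chk3 f_pp_123_s t 35 36 1 = true := ex3_a k3_pp_123_s k4_pp_123_s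

theorem s159_pp_123_s : ∃ t, chk3 f_pp_123_s t 35 18 1 = true := ex3_b s158_pp_123_s s157_pp_123_s

theorem s160_pp_123_s : ∃ t, chk3 f_pp_123_s t 17 18 1 = true := ex3_a k2_pp_123_s s159_pp_123_s

theorem s161_pp_123_s : ∃ t, chk3 f_pp_123_s t 17 9 1 = true := ex3_b s160_pp_123_s k13_pp_123_s

theorem s162_pp_123_s : ∃ t, chk3 f_pp_123_s t 8 9 1 = true := ex3_a k1_pp_123_s s161_pp_123_s

theorem s163_pp_123_s : ∃ t, chk3 f_pp_123_s t 8 4 1 = true := ex3_b k0_pp_123_s s162_pp_123_s

theorem s164_pp_123_s : ∃ t, chk3 f_pp_123_s t 4 4 1 = true := ex3_a s163_pp_123_s s150_pp_123_s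

theorem s165_pp_123_s : ∃ t, chk3 f_pp_123_s t 2 4 1 = true := ex3_a s164_pp_123_s k63_pp_123_s

theorem s166_pp_123_s : ∃ t, chk3 f_pp_123_s t 1 4 1 = true := ex3_a s165_pp_123_s k64_pp_123_s

theorem s167_pp_123_s : ∃ t, chk3 f_pp_123_s t 1 2 1 = true := ex3_b s166_pp_123_s s102_pp_123_s

theorem s168_pp_123_s : ∃ t, chk3 f_pp_123_s t 1 1 1 = true := ex3_b s167_pp_123_s s89_pp_123_s

theorem c_pp_123_s : CertNE 536870912 536870912 0 1230186008 536870912 50465866 3 eng mog cd0q1 cd6q3 pd2 false true true .npn 1 2 3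
    ndB0q1 ndB6q3 pcB2 cut_pp_123_s Ext.none :=
  certNE2 (fam := false) (s1 := true) (s2 := true) (a := 1) (b := 2) (c := 3) (cn := .npn) (n1 := ndB0q1) (n2 := ndB6q3) (pc := pcB2) (cut := cut_pp_123_s) (xt := Ext.none) (P1 := 536870912) (W1 := 536870912) (P2 := 0) (W2 := 1230186008) (P3 := 536870912) (W3 := 50465866) (N0 := 3) (En := eng) (mo := mog) (C1 := cd0q1) (C2 := cd6q3) (C3 := pd2)
    rfl (fun _ => rfl) s168_pp_123_s

noncomputable def cut_pp_133_s : Cut := Cut.of [[⟨4, 0, 0, 1449551462⟩]]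

noncomputable def f_pp_133_s : ℕ → ℕ → ℕ → ℕ → Bool := onCell 1610612736 536870912 0 1230186008 536870912 50465866
    (rowNE 3 eng mog cd0q1 cd6q3 pd3 2 false true true .dn 1 3 3 (qsf 536870912 536870912 0 1230186008 3) ndB0q1 ndB6q3 pcB3 cut_pp_133_s Ext.none)

def k0_pp_133_s : ∃ t, chk3 f_pp_133_s t 1 1 1 = true :=
  ⟨(b (l 6) (l 1)), by decide +kernel⟩

theorem c_pp_133_s : CertNE 536870912 536870912 0 1230186008 536870912 50465866 3 eng mog cd0q1 cd6q3 pd3 false true true .dn 1 3 3
    ndB0q1 ndB6q3 pcB3 cut_pp_133_s Ext.none :=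
  certNE2 (fam := false) (s1 := true) (s2 := true) (a := 1) (b := 3) (c := 3) (cn := .dn) (n1 := ndB0q1) (n2 := ndB6q3) (pc := pcB3) (cut := cut_pp_133_s) (xt := Ext.none) (P1 := 536870912) (W1 := 536870912) (P2 := 0) (W2 := 1230186008) (P3 := 536870912) (W3 := 50465866) (N0 := 3) (En := eng) (mo := mog) (C1 := cd0q1) (C2 := cd6q3) (C3 := pd3)
    rfl (fun _ => rfl) k0_pp_133_s

noncomputable def cut_pp_202_s : Cut := Cut.of [[⟨4, 0, 0, 1449551462⟩]]

noncomputable def f_pp_202_s : ℕ → ℕ → ℕ → ℕ → Bool := onCell 0 536870912 1073741824 536870912 536870912 50465866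
    (rowNE 3 eng mog cd0q2 cd6q2 pd0 0 false true true .pp 2 0 2 (qsf 0 536870912 1073741824 536870912 0) ndB0q2 ndB6q2 pcB0 cut_pp_202_s Ext.none)

def k0_pp_202_s : ∃ t, chk3 f_pp_202_s t 1 1 1 = true :=
  ⟨(l 5), by decide +kernel⟩

theorem c_pp_202_s : CertNE 0 536870912 1073741824 536870912 536870912 50465866 3 eng mog cd0q2 cd6q2 pd0 false true true .pp 2 0 2
    ndB0q2 ndB6q2 pcB0 cut_pp_202_s Ext.none :=
  certNE0 (fam := false) (s1 := true) (s2 := true) (a := 2) (b := 0) (c := 2) (cn := .pp) (n1 := ndB0q2) (n2 := ndB6q2) (pc := pcB0) (cut := cut_pp_202_s) (xt := Ext.none) (P1 := 0) (W1 := 536870912) (P2 := 1073741824) (W2 := 536870912) (P3 := 536870912) (W3 := 50465866) (N0 := 3) (En := eng) (mo := mog) (C1 := cd0q2) (C2 := cd6q2) (C3 := pd0)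
    rfl k0_pp_202_s

noncomputable def cut_pp_203_s : Cut := Cut.of [[⟨4, 0, 0, 1449551462⟩]]

noncomputable def f_pp_203_s : ℕ → ℕ → ℕ → ℕ → Bool := onCell 0 536870912 0 1230186008 536870912 50465866
    (rowNE 3 eng mog cd0q2 cd6q3 pd0 0 false true true .up 2 0 3 (qsf 0 536870912 0 1230186008 0) ndB0q2 ndB6q3 pcB0 cut_pp_203_s Ext.none)

def k0_pp_203_s : ∃ t, chk3 f_pp_203_s t 1 1 1 = true :=
  ⟨(b (l 2) (b (l 2) (a (l 5) (l 3)))), by decide +kernel⟩

theorem c_pp_203_s : CertNE 0 536870912 0 1230186008 536870912 50465866 3 eng mog cd0q2 cd6q3 pd0 false true true .up 2 0 3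
    ndB0q2 ndB6q3 pcB0 cut_pp_203_s Ext.none :=
  certNE0 (fam := false) (s1 := true) (s2 := true) (a := 2) (b := 0) (c := 3) (cn := .up) (n1 := ndB0q2) (n2 := ndB6q3) (pc := pcB0) (cut := cut_pp_203_s) (xt := Ext.none) (P1 := 0) (W1 := 536870912) (P2 := 0) (W2 := 1230186008) (P3 := 536870912) (W3 := 50465866) (N0 := 3) (En := eng) (mo := mog) (C1 := cd0q2) (C2 := cd6q3) (C3 := pd0)
    rfl k0_pp_203_s

noncomputable def cut_pp_213_s : Cut := Cut.of [[⟨4, 0, 0, 1449551462⟩], [⟨0, 1, 0, 67108864⟩, ⟨1, 1, 0, 67108864⟩, ⟨2, 2, 0, 16777216⟩]]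

noncomputable def f_pp_213_s : ℕ → ℕ → ℕ → ℕ → Bool := onCell 0 536870912 0 1230186008 536870912 50465866
    (rowNE 3 eng mog cd0q2 cd6q3 pd1 0 false true true .pnn 2 1 3 (qsf 0 536870912 0 1230186008 1) ndB0q2 ndB6q3 pcB1 cut_pp_213_s Ext.none)

def k0_pp_213_s : ∃ t, chk3 f_pp_213_s t 1 1 1 = true :=
  ⟨(a (b (l 3) (l 5)) (b (b (a (l 3) (b (a (l 3) (l 14)) (l 3))) (l 3)) (b (l 3) (l 3)))), by decide +kernel⟩

theorem c_pp_213_s : CertNE 0 536870912 0 1230186008 536870912 50465866 3 eng mog cd0q2 cd6q3 pd1 false true true .pnn 2 1 3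
    ndB0q2 ndB6q3 pcB1 cut_pp_213_s Ext.none :=
  certNE0 (fam := false) (s1 := true) (s2 := true) (a := 2) (b := 1) (c := 3) (cn := .pnn) (n1 := ndB0q2) (n2 := ndB6q3) (pc := pcB1) (cut := cut_pp_213_s) (xt := Ext.none) (P1 := 0) (W1 := 536870912) (P2 := 0) (W2 := 1230186008) (P3 := 536870912) (W3 := 50465866) (N0 := 3) (En := eng) (mo := mog) (C1 := cd0q2) (C2 := cd6q3) (C3 := pd1)
    rfl k0_pp_213_s

noncomputable def cut_pm_001_s : Cut := Cut.of [[⟨4, 0, 0, 1449551462⟩]]

noncomputable def f_pm_001_s : ℕ → ℕ → ℕ → ℕ → Bool := onCell 0 536870912 536870912 536870912 536870912 50465866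
    (rowNE 3 eng mog cd0q0 cd6q1 pd0 0 false true false .up 0 0 1 (qsf 0 536870912 536870912 536870912 0) ndB0q0 ndB6q1 pcB0 cut_pm_001_s Ext.none)

def k0_pm_001_s : ∃ t, chk3 f_pm_001_s t 1 1 1 = true :=
  ⟨(l 4), by decide +kernel⟩

theorem c_pm_001_s : CertNE 0 536870912 536870912 536870912 536870912 50465866 3 eng mog cd0q0 cd6q1 pd0 false true false .up 0 0 1
    ndB0q0 ndB6q1 pcB0 cut_pm_001_s Ext.none :=
  certNE0 (fam := false) (s1 := true) (s2 := false) (a := 0) (b := 0) (c := 1) (cn := .up) (n1 := ndB0q0) (n2 := ndB6q1) (pc := pcB0) (cut := cut_pm_001_s) (xt := Ext.none) (P1 := 0) (W1 := 536870912) (P2 := 536870912) (W2 := 536870912) (P3 := 536870912) (W3 := 50465866) (N0 := 3) (En := eng) (mo := mog) (C1 := cd0q0) (C2 := cd6q1) (C3 := pd0)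
    rfl k0_pm_001_s

noncomputable def cut_pm_011_s : Cut := Cut.of [[⟨4, 0, 0, 1449551462⟩]]

noncomputable def f_pm_011_s : ℕ → ℕ → ℕ → ℕ → Bool := onCell 0 536870912 536870912 536870912 536870912 50465866
    (rowNE 3 eng mog cd0q0 cd6q1 pd1 0 false true false .pnn 0 1 1 (qsf 0 536870912 536870912 536870912 1) ndB0q0 ndB6q1 pcB1 cut_pm_011_s Ext.none)

def k0_pm_011_s : ∃ t, chk3 f_pm_011_s t 1 1 1 = true :=
  ⟨(l 4), by decide +kernel⟩

theorem c_pm_011_s : CertNE 0 536870912 536870912 536870912 536870912 50465866 3 eng mog cd0q0 cd6q1 pd1 false true false .pnn 0 1 1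
    ndB0q0 ndB6q1 pcB1 cut_pm_011_s Ext.none :=
  certNE0 (fam := false) (s1 := true) (s2 := false) (a := 0) (b := 1) (c := 1) (cn := .pnn) (n1 := ndB0q0) (n2 := ndB6q1) (pc := pcB1) (cut := cut_pm_011_s) (xt := Ext.none) (P1 := 0) (W1 := 536870912) (P2 := 536870912) (W2 := 536870912) (P3 := 536870912) (W3 := 50465866) (N0 := 3) (En := eng) (mo := mog) (C1 := cd0q0) (C2 := cd6q1) (C3 := pd1)
    rfl k0_pm_011_s

noncomputable def cut_pm_012_s : Cut := Cut.of [[⟨4, 0, 0, 1449551462⟩]]

noncomputable def f_pm_012_s : ℕ → ℕ → ℕ → ℕ → Bool := onCell 0 536870912 1073741824 536870912 536870912 50465866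
    (rowNE 3 eng mog cd0q0 cd6q2 pd1 0 false true false .pnp 0 1 2 (qsf 0 536870912 1073741824 536870912 1) ndB0q0 ndB6q2 pcB1 cut_pm_012_s Ext.none)

def k0_pm_012_s : ∃ t, chk3 f_pm_012_s t 1 1 1 = true :=
  ⟨(l 4), by decide +kernel⟩

theorem c_pm_012_s : CertNE 0 536870912 1073741824 536870912 536870912 50465866 3 eng mog cd0q0 cd6q2 pd1 false true false .pnp 0 1 2
    ndB0q0 ndB6q2 pcB1 cut_pm_012_s Ext.none :=
  certNE0 (fam := false) (s1 := true) (s2 := false) (a := 0) (b := 1) (c := 2) (cn := .pnp) (n1 := ndB0q0) (n2 := ndB6q2) (pc := pcB1) (cut := cut_pm_012_s) (xt := Ext.none) (P1 := 0) (W1 := 536870912) (P2 := 1073741824) (W2 := 536870912) (P3 := 536870912) (W3 := 50465866) (N0 := 3) (En := eng) (mo := mog) (C1 := cd0q0) (C2 := cd6q2) (C3 := pd1)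
    rfl k0_pm_012_s

noncomputable def cut_pm_022_s : Cut := Cut.of [[⟨4, 0, 0, 1449551462⟩]]

noncomputable def f_pm_022_s : ℕ → ℕ → ℕ → ℕ → Bool := onCell 0 536870912 1073741824 536870912 536870912 50465866
    (rowNE 3 eng mog cd0q0 cd6q2 pd2 0 false true false .pp 0 2 2 (qsf 0 536870912 1073741824 536870912 2) ndB0q0 ndB6q2 pcB2 cut_pm_022_s Ext.none)

def k0_pm_022_s : ∃ t, chk3 f_pm_022_s t 1 1 1 = true :=
  ⟨(l 4), by decide +kernel⟩

theorem c_pm_022_s : CertNE 0 536870912 1073741824 536870912 536870912 50465866 3 eng mog cd0q0 cd6q2 pd2 false true false .pp 0 2 2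
    ndB0q0 ndB6q2 pcB2 cut_pm_022_s Ext.none :=
  certNE0 (fam := false) (s1 := true) (s2 := false) (a := 0) (b := 2) (c := 2) (cn := .pp) (n1 := ndB0q0) (n2 := ndB6q2) (pc := pcB2) (cut := cut_pm_022_s) (xt := Ext.none) (P1 := 0) (W1 := 536870912) (P2 := 1073741824) (W2 := 536870912) (P3 := 536870912) (W3 := 50465866) (N0 := 3) (En := eng) (mo := mog) (C1 := cd0q0) (C2 := cd6q2) (C3 := pd2)
    rfl k0_pm_022_s

noncomputable def cut_pm_023_s : Cut := Cut.of [[⟨4, 0, 0, 1449551462⟩]]

noncomputable def f_pm_023_s : ℕ → ℕ → ℕ → ℕ → Bool := onCell 0 536870912 0 1230186008 536870912 50465866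
    (rowNE 3 eng mog cd0q0 cd6q3 pd2 0 false true false .up 0 2 3 (qsf 0 536870912 0 1230186008 2) ndB0q0 ndB6q3 pcB2 cut_pm_023_s Ext.none)

def k0_pm_023_s : ∃ t, chk3 f_pm_023_s t 1 1 1 = true :=
  ⟨(l 6), by decide +kernel⟩

theorem c_pm_023_s : CertNE 0 536870912 0 1230186008 536870912 50465866 3 eng mog cd0q0 cd6q3 pd2 false true false .up 0 2 3
    ndB0q0 ndB6q3 pcB2 cut_pm_023_s Ext.none :=
  certNE0 (fam := false) (s1 := true) (s2 := false) (a := 0) (b := 2) (c := 3) (cn := .up) (n1 := ndB0q0) (n2 := ndB6q3) (pc := pcB2) (cut := cut_pm_023_s) (xt := Ext.none) (P1 := 0) (W1 := 536870912) (P2 := 0) (W2 := 1230186008) (P3 := 536870912) (W3 := 50465866) (N0 := 3) (En := eng) (mo := mog) (C1 := cd0q0) (C2 := cd6q3) (C3 := pd2)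
    rfl k0_pm_023_s

noncomputable def cut_pm_033_s : Cut := Cut.of [[⟨4, 0, 0, 1449551462⟩]]

noncomputable def f_pm_033_s : ℕ → ℕ → ℕ → ℕ → Bool := onCell 0 536870912 0 1230186008 536870912 50465866
    (rowNE 3 eng mog cd0q0 cd6q3 pd3 0 false true false .pnn 0 3 3 (qsf 0 536870912 0 1230186008 3) ndB0q0 ndB6q3 pcB3 cut_pm_033_s Ext.none)

def k0_pm_033_s : ∃ t, chk3 f_pm_033_s t 1 1 1 = true :=
  ⟨(l 6), by decide +kernel⟩

theorem c_pm_033_s : CertNE 0 536870912 0 1230186008 536870912 50465866 3 eng mog cd0q0 cd6q3 pd3 false true false .pnn 0 3 3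
    ndB0q0 ndB6q3 pcB3 cut_pm_033_s Ext.none :=
  certNE0 (fam := false) (s1 := true) (s2 := false) (a := 0) (b := 3) (c := 3) (cn := .pnn) (n1 := ndB0q0) (n2 := ndB6q3) (pc := pcB3) (cut := cut_pm_033_s) (xt := Ext.none) (P1 := 0) (W1 := 536870912) (P2 := 0) (W2 := 1230186008) (P3 := 536870912) (W3 := 50465866) (N0 := 3) (En := eng) (mo := mog) (C1 := cd0q0) (C2 := cd6q3) (C3 := pd3)
    rfl k0_pm_033_s

noncomputable def cut_pm_101_s : Cut := Cut.of [[⟨4, 0, 0, 1449551462⟩]]

noncomputable def f_pm_101_s : ℕ → ℕ → ℕ → ℕ → Bool := onCell 536870912 536870912 536870912 536870912 536870912 50465866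
    (rowNE 3 eng mog cd0q1 cd6q1 pd0 0 false true false .npn 1 0 1 (qsf 536870912 536870912 536870912 536870912 0) ndB0q1 ndB6q1 pcB0 cut_pm_101_s Ext.none)

def k0_pm_101_s : ∃ t, chk3 f_pm_101_s t 1 1 1 = true :=
  ⟨(l 4), by decide +kernel⟩

theorem c_pm_101_s : CertNE 536870912 536870912 536870912 536870912 536870912 50465866 3 eng mog cd0q1 cd6q1 pd0 false true false .npn 1 0 1
    ndB0q1 ndB6q1 pcB0 cut_pm_101_s Ext.none :=
  certNE0 (fam := false) (s1 := true) (s2 := false) (a := 1) (b := 0) (c := 1) (cn := .npn) (n1 := ndB0q1) (n2 := ndB6q1) (pc := pcB0) (cut := cut_pm_101_s) (xt := Ext.none) (P1 := 536870912) (W1 := 536870912) (P2 := 536870912) (W2 := 536870912) (P3 := 536870912) (W3 := 50465866) (N0 := 3) (En := eng) (mo := mog) (C1 := cd0q1) (C2 := cd6q1) (C3 := pd0)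
    rfl k0_pm_101_s

noncomputable def cut_pm_102_s : Cut := Cut.of [[⟨4, 0, 0, 1449551462⟩]]

noncomputable def f_pm_102_s : ℕ → ℕ → ℕ → ℕ → Bool := onCell 536870912 536870912 1073741824 536870912 536870912 50465866
    (rowNE 3 eng mog cd0q1 cd6q2 pd0 0 false true false .npp 1 0 2 (qsf 536870912 536870912 1073741824 536870912 0) ndB0q1 ndB6q2 pcB0 cut_pm_102_s Ext.none)

def k0_pm_102_s : ∃ t, chk3 f_pm_102_s t 1 1 1 = true :=
  ⟨(l 6), by decide +kernel⟩

theorem c_pm_102_s : CertNE 536870912 536870912 1073741824 536870912 536870912 50465866 3 eng mog cd0q1 cd6q2 pd0 false true false .npp 1 0 2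
    ndB0q1 ndB6q2 pcB0 cut_pm_102_s Ext.none :=
  certNE0 (fam := false) (s1 := true) (s2 := false) (a := 1) (b := 0) (c := 2) (cn := .npp) (n1 := ndB0q1) (n2 := ndB6q2) (pc := pcB0) (cut := cut_pm_102_s) (xt := Ext.none) (P1 := 536870912) (W1 := 536870912) (P2 := 1073741824) (W2 := 536870912) (P3 := 536870912) (W3 := 50465866) (N0 := 3) (En := eng) (mo := mog) (C1 := cd0q1) (C2 := cd6q2) (C3 := pd0)
    rfl k0_pm_102_s

noncomputable def cut_pm_112_s : Cut := Cut.of [[⟨4, 0, 0, 1449551462⟩]]

noncomputable def f_pm_112_s : ℕ → ℕ → ℕ → ℕ → Bool := onCell 536870912 536870912 1073741824 536870912 536870912 50465866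
    (rowNE 3 eng mog cd0q1 cd6q2 pd1 0 false true false .dn 1 1 2 (qsf 536870912 536870912 1073741824 536870912 1) ndB0q1 ndB6q2 pcB1 cut_pm_112_s Ext.none)

def k0_pm_112_s : ∃ t, chk3 f_pm_112_s t 1 1 1 = true :=
  ⟨(l 6), by decide +kernel⟩

theorem c_pm_112_s : CertNE 536870912 536870912 1073741824 536870912 536870912 50465866 3 eng mog cd0q1 cd6q2 pd1 false true false .dn 1 1 2
    ndB0q1 ndB6q2 pcB1 cut_pm_112_s Ext.none :=
  certNE0 (fam := false) (s1 := true) (s2 := false) (a := 1) (b := 1) (c := 2) (cn := .dn) (n1 := ndB0q1) (n2 := ndB6q2) (pc := pcB1) (cut := cut_pm_112_s) (xt := Ext.none) (P1 := 536870912) (W1 := 536870912) (P2 := 1073741824) (W2 := 536870912) (P3 := 536870912) (W3 := 50465866) (N0 := 3) (En := eng) (mo := mog) (C1 := cd0q1) (C2 := cd6q2) (C3 := pd1)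
    rfl k0_pm_112_s

noncomputable def cut_pm_113_s : Cut := Cut.of [[⟨4, 0, 0, 1449551462⟩], [⟨0, 1, 0, 67108864⟩, ⟨1, 1, 0, 67108864⟩, ⟨2, 2, 0, 16777216⟩]]

noncomputable def f_pm_113_s : ℕ → ℕ → ℕ → ℕ → Bool := onCell 536870912 536870912 0 1230186008 536870912 50465866
    (rowNE 3 eng mog cd0q1 cd6q3 pd1 0 false true false .nn 1 1 3 (qsf 536870912 536870912 0 1230186008 1) ndB0q1 ndB6q3 pcB1 cut_pm_113_s Ext.none)

def k0_pm_113_s : ∃ t, chk3 f_pm_113_s t 1 1 1 = true :=
  ⟨(b (a (l 2) (a (l 2) (b (a (l 2) (a (l 2) (b (l 14) (l 16790560)))) (a (l 6) (b (a (l 6) (l 16808224)) (l 6)))))) (b (l 6) (l 6))), by decide +kernel⟩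

theorem c_pm_113_s : CertNE 536870912 536870912 0 1230186008 536870912 50465866 3 eng mog cd0q1 cd6q3 pd1 false true false .nn 1 1 3
    ndB0q1 ndB6q3 pcB1 cut_pm_113_s Ext.none :=
  certNE0 (fam := false) (s1 := true) (s2 := false) (a := 1) (b := 1) (c := 3) (cn := .nn) (n1 := ndB0q1) (n2 := ndB6q3) (pc := pcB1) (cut := cut_pm_113_s) (xt := Ext.none) (P1 := 536870912) (W1 := 536870912) (P2 := 0) (W2 := 1230186008) (P3 := 536870912) (W3 := 50465866) (N0 := 3) (En := eng) (mo := mog) (C1 := cd0q1) (C2 := cd6q3) (C3 := pd1)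
    rfl k0_pm_113_s

noncomputable def cut_pm_123_s : Cut := Cut.of [[⟨4, 0, 0, 1449551462⟩], [⟨0, 1, 0, 67108864⟩, ⟨1, 1, 0, 67108864⟩, ⟨2, 2, 0, 16777216⟩]]

noncomputable def f_pm_123_s : ℕ → ℕ → ℕ → ℕ → Bool := onCell 1073741824 536870912 0 1230186008 536870912 50465866
    (rowNE 3 eng mog cd0q1 cd6q3 pd2 2 false true false .npn 1 2 3 (qsf 536870912 536870912 0 1230186008 2) ndB0q1 ndB6q3 pcB2 cut_pm_123_s Ext.none)

def k0_pm_123_s : ∃ t, chk3 f_pm_123_s t 1 1 1 = true :=
  ⟨(b (a (b (b (a (a (a (l 14) (l 16815200)) (a (l 16768344) (l 16761904))) (l 6)) (a (a (a (l 16788056) (l 16782264)) (l 6)) (l 6))) (b (l 6) (l 6))) (l 6)) (l 6)), by decide +kernel⟩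

theorem c_pm_123_s : CertNE 536870912 536870912 0 1230186008 536870912 50465866 3 eng mog cd0q1 cd6q3 pd2 false true false .npn 1 2 3
    ndB0q1 ndB6q3 pcB2 cut_pm_123_s Ext.none :=
  certNE2 (fam := false) (s1 := true) (s2 := false) (a := 1) (b := 2) (c := 3) (cn := .npn) (n1 := ndB0q1) (n2 := ndB6q3) (pc := pcB2) (cut := cut_pm_123_s) (xt := Ext.none) (P1 := 536870912) (W1 := 536870912) (P2 := 0) (W2 := 1230186008) (P3 := 536870912) (W3 := 50465866) (N0 := 3) (En := eng) (mo := mog) (C1 := cd0q1) (C2 := cd6q3) (C3 := pd2)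
    rfl (fun _ => rfl) k0_pm_123_s

noncomputable def cut_pm_133_s : Cut := Cut.of [[⟨4, 0, 0, 1449551462⟩]]

noncomputable def f_pm_133_s : ℕ → ℕ → ℕ → ℕ → Bool := onCell 1610612736 536870912 0 1230186008 536870912 50465866
    (rowNE 3 eng mog cd0q1 cd6q3 pd3 2 false true false .dn 1 3 3 (qsf 536870912 536870912 0 1230186008 3) ndB0q1 ndB6q3 pcB3 cut_pm_133_s Ext.none)

def k0_pm_133_s : ∃ t, chk3 f_pm_133_s t 1 1 1 = true :=
  ⟨(l 6), by decide +kernel⟩

theorem c_pm_133_s : CertNE 536870912 536870912 0 1230186008 536870912 50465866 3 eng mog cd0q1 cd6q3 pd3 false true false .dn 1 3 3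
    ndB0q1 ndB6q3 pcB3 cut_pm_133_s Ext.none :=
  certNE2 (fam := false) (s1 := true) (s2 := false) (a := 1) (b := 3) (c := 3) (cn := .dn) (n1 := ndB0q1) (n2 := ndB6q3) (pc := pcB3) (cut := cut_pm_133_s) (xt := Ext.none) (P1 := 536870912) (W1 := 536870912) (P2 := 0) (W2 := 1230186008) (P3 := 536870912) (W3 := 50465866) (N0 := 3) (En := eng) (mo := mog) (C1 := cd0q1) (C2 := cd6q3) (C3 := pd3)
    rfl (fun _ => rfl) k0_pm_133_s

noncomputable def cut_pm_202_s : Cut := Cut.of [[⟨4, 0, 0, 1449551462⟩]]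

noncomputable def f_pm_202_s : ℕ → ℕ → ℕ → ℕ → Bool := onCell 0 536870912 1073741824 536870912 536870912 50465866
    (rowNE 3 eng mog cd0q2 cd6q2 pd0 0 false true false .pp 2 0 2 (qsf 0 536870912 1073741824 536870912 0) ndB0q2 ndB6q2 pcB0 cut_pm_202_s Ext.none)

def k0_pm_202_s : ∃ t, chk3 f_pm_202_s t 1 1 1 = true :=
  ⟨(a (b (l 6) (b (l 6) (l 6))) (l 6)), by decide +kernel⟩

theorem c_pm_202_s : CertNE 0 536870912 1073741824 536870912 536870912 50465866 3 eng mog cd0q2 cd6q2 pd0 false true false .pp 2 0 2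
    ndB0q2 ndB6q2 pcB0 cut_pm_202_s Ext.none :=
  certNE0 (fam := false) (s1 := true) (s2 := false) (a := 2) (b := 0) (c := 2) (cn := .pp) (n1 := ndB0q2) (n2 := ndB6q2) (pc := pcB0) (cut := cut_pm_202_s) (xt := Ext.none) (P1 := 0) (W1 := 536870912) (P2 := 1073741824) (W2 := 536870912) (P3 := 536870912) (W3 := 50465866) (N0 := 3) (En := eng) (mo := mog) (C1 := cd0q2) (C2 := cd6q2) (C3 := pd0)
    rfl k0_pm_202_s

noncomputable def cut_pm_203_s : Cut := Cut.of [[⟨4, 0, 0, 1449551462⟩]]

noncomputable def f_pm_203_s : ℕ → ℕ → ℕ → ℕ → Bool := onCell 0 536870912 0 1230186008 536870912 50465866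
    (rowNE 3 eng mog cd0q2 cd6q3 pd0 0 false true false .up 2 0 3 (qsf 0 536870912 0 1230186008 0) ndB0q2 ndB6q3 pcB0 cut_pm_203_s Ext.none)

def k0_pm_203_s : ∃ t, chk3 f_pm_203_s t 1 1 1 = true :=
  ⟨(b (l 2) (b (l 2) (a (b (b (l 2) (a (a (b (l 2) (l 16787888)) (l 16824984)) (a (l 16876632) (l 6)))) (a (b (a (b (l 16813504) (l 16821144)) (b (l 16852728) (l 6))) (a (b (l 16809944) (l 16790000)) (l 6))) (l 6))) (l 6)))), by decide +kernel⟩

theorem c_pm_203_s : CertNE 0 536870912 0 1230186008 536870912 50465866 3 eng mog cd0q2 cd6q3 pd0 false true false .up 2 0 3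
    ndB0q2 ndB6q3 pcB0 cut_pm_203_s Ext.none :=
  certNE0 (fam := false) (s1 := true) (s2 := false) (a := 2) (b := 0) (c := 3) (cn := .up) (n1 := ndB0q2) (n2 := ndB6q3) (pc := pcB0) (cut := cut_pm_203_s) (xt := Ext.none) (P1 := 0) (W1 := 536870912) (P2 := 0) (W2 := 1230186008) (P3 := 536870912) (W3 := 50465866) (N0 := 3) (En := eng) (mo := mog) (C1 := cd0q2) (C2 := cd6q3) (C3 := pd0)
    rfl k0_pm_203_s

noncomputable def cut_pm_213_s : Cut := Cut.of [[⟨4, 0, 0, 1449551462⟩], [⟨0, 1, 0, 67108864⟩, ⟨1, 1, 0, 67108864⟩, ⟨2, 2, 0, 16777216⟩]]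

noncomputable def f_pm_213_s : ℕ → ℕ → ℕ → ℕ → Bool := onCell 0 536870912 0 1230186008 536870912 50465866
    (rowNE 3 eng mog cd0q2 cd6q3 pd1 0 false true false .pnn 2 1 3 (qsf 0 536870912 0 1230186008 1) ndB0q2 ndB6q3 pcB1 cut_pm_213_s Ext.none)

def k0_pm_213_s : ∃ t, chk3 f_pm_213_s t 2 2 1 = true :=
  ⟨(b (l 3) (a (l 3) (b (l 3) (a (b (l 3) (a (l 3) (b (l 3) (a (l 3) (b (l 3) (l 305647315847)))))) (b (a (l 3) (b (a (l 3) (b (l 3) (a (l 3) (l 297057383431)))) (a (b (l 3) (a (l 3) (b (l 294909900615) (l 271287582599)))) (b (a (l 289541201927) (b (l 270213840775) (l 229948527527))) (a (b (l 254107713207) (l 16777032)) (l 16776936)))))) (a (b (a (l 3) (b (l 302426090503) (a (l 291688675063) (b (l 271824453447) (l 16777088))))) (a (b (a (l 3) (l 283098752583)) (a (b (l 285783096631) (l 240149075207)) (l 16777104))) (b (a (l 237464725383) (l 16776984)) (l 16776960)))) (b (a (b (a (b (l 285246225319) (l 249275874999)) (l 225653561719)) (l 16776936)) (l 16776840)) (l 16776792)))))))), by decide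 +kernel⟩

def k1_pm_213_s : ∃ t, chk3 f_pm_213_s t 6 8 1 = true :=
  ⟨(l 3), by decide +kernel⟩

def k2_pm_213_s : ∃ t, chk3 f_pm_213_s t 12 9 1 = true :=
  ⟨(l 3), by decide +kernel⟩

def k3_pm_213_s : ∃ t, chk3 f_pm_213_s t 13 18 1 = true :=
  ⟨(l 3), by decide +kernel⟩

def k4_pm_213_s : ∃ t, chk3 f_pm_213_s t 26 19 1 = true :=
  ⟨(l 3), by decide +kernel⟩

def k5_pm_213_s : ∃ t, chk3 f_pm_213_s t 27 38 1 = true :=
  ⟨(a (l 3) (b (l 3) (a (l 3) (b (a (l 3) (b (l 3) (a (l 3) (a (l 3) (b (l 3) (a (a (l 3) (b (l 3) (b (l 3) (l 307794804743)))) (b (l 324974673815) (a (b (l 312089772023) (l 283098742967)) (l 283098743079))))))))) (a (b (l 3) (a (l 3) (b (a (l 3) (a (l 3) (b (l 3) (b (l 319069093831) (a (l 309405417463) (l 282561872055)))))) (b (a (c (l 327659028327) (l 328732770103)) (a (a (b (l 328195899335) (l 279877517335)) (b (l 305647321095) (l 16777256))) (l 284172484919))) (a (a (c (l 319069093815) (l 320679706535)) (a (b (l 314774126567) (l 282561872055)) (l 282561872151))) (l 16777336))))))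 (b (a (b (l 3) (a (a (l 3) (b (l 3) (c (l 318532222903) (l 320142835623)))) (a (b (l 325511544727) (a (b (l 313700384743) (l 282025001095)) (l 282561872167))) (b (b (a (l 326585286599) (l 304573579271)) (l 282025001271)) (l 16777304))))) (a (b (a (b (l 3) (b (l 317995352007) (a (l 308331675639) (l 282561872023)))) (b (a (l 323364061111) (b (l 325511544791) (l 281488130327))) (l 283098743143))) (c (l 16777368) (l 16777352))) (a (b (b (c (l 279877517415) (l 279877517399)) (l 16777336)) (l 16777464)) (l 16777448)))) (a (a (b (b (a (a (l 323900932023) (b (l 327122157511) (l 279877517335))) (a (b (l 305110450183) (l 16777256)) (l 16777272))) (c (l 283098743175) (l 280951259431))) (l 16777432)) (l 16777480)) (l 16777680)))))))), by decide +kernel⟩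

def k6_pm_213_s : ∃ t, chk3 f_pm_213_s t 54 78 1 = true :=
  ⟨(l 3), by decide +kernel⟩

def k7_pm_213_s : ∃ t, chk3 f_pm_213_s t 108 79 1 = true :=
  ⟨(b (l 3) (a (l 3) (b (l 3) (a (l 3) (b (a (l 3) (a (l 3) (b (l 3) (a (l 313163513783) (b (l 313163513815) (l 279340646567)))))) (b (a (l 320679706407) (a (b (l 309405417431) (l 278266904631)) (l 278803775719))) (a (a (c (l 315310997415) (l 316384739223)) (a (b (l 312089771991) (l 278803775623)) (l 278803775735))) (l 16777336)))))))), by decide +kernel⟩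

def k8_pm_213_s : ∃ t, chk3 f_pm_213_s t 109 79 1 = true :=
  ⟨(b (a (b (l 3) (a (l 3) (a (l 3) (b (l 3) (b (l 322827190055) (a (c (l 316921610151) (l 318532222855)) (a (b (l 314237255639) (l 280414388359)) (l 279340646471)))))))) (b (a (a (l 3) (a (l 3) (b (l 3) (c (l 320679706455) (l 321753448247))))) (a (b (l 3) (a (b (l 323364061047) (a (b (l 315310997463) (l 280951259271)) (l 281488130327))) (b (c (l 304036709015) (a (l 309942288343) (l 279340646439))) (l 16777296)))) (b (a (b (l 3) (a (l 315310997431) (b (l 315310997463) (l 280951259271)))) (c (b (l 313163513799) (l 281488130247)) (b (c (l 314237255607) (l 314774126519)) (l 278803775591)))) (c (l 281488130375) (l 278803775799))))) (b (a (a (a (l 3) (b (l 3) (a (l 314774126519) (b (l 314774126551) (l 280414388359))))) (a (c (b (l 312626642887) (l 280951259367)) (b (c (l 313700384695) (l 314237255607)) (l 278266904679))) (b (a (b (l 306184191991) (l 16777256)) (l 280951259319)) (l 16777336)))) (l 16777464)) (a (a (b (a (c (l 304036709015)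 (a (l 309942288343) (l 278803775527))) (l 280951259399)) (l 16777336)) (l 16777424)) (l 16777632))))) (a (b (a (b (l 3) (a (c (l 320142835463) (b (l 3) (l 319605964615))) (b (a (l 321216577399) (b (l 309942288343) (a (l 301889224727) (l 16777256)))) (a (a (b (l 313700384727) (l 279877517479)) (l 279877517559)) (l 16777304))))) (a (b (a (b (l 3) (a (l 314237255607) (b (l 313700384727) (l 280414388391)))) (c (b (l 312089771975) (l 280414388423)) (b (c (l 313163513783) (l 313700384695)) (l 277193162855)))) (c (l 279877517623) (l 276119421239))) (a (b (b (a (b (l 305647321079) (l 16777256)) (l 280414388407)) (l 16777336)) (l 16777464)) (l 16777448)))) (a (a (b (c (b (a (l 311016030151) (l 279340646487)) (l 278803775719)) (b (c (a (l 312626642871) (l 277193162823)) (a (l 312626642871) (l 276119420999))) (l 276119421175))) (l 16777424)) (l 16777480)) (l 16777688))) (l 16777928))), by decide +kernel⟩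

def k9_pm_213_s : ∃ t, chk3 f_pm_213_s t 110 156 1 = true :=
  ⟨(a (l 3) (b (a (l 3) (a (l 3) (a (l 3) (b (l 3) (b (l 3) (c (l 319605964727) (l 321216577431))))))) (a (a (l 3) (b (l 3) (a (c (l 322827190119) (b (l 3) (l 321216577431))) (b (l 326048415623) (b (a (l 316384739287) (l 282025001207)) (l 282561872119)))))) (b (a (a (l 3) (b (l 3) (b (l 319605964727) (a (l 311016030199) (l 282025001127))))) (b (a (a (l 324974673831) (b (l 328732770231) (l 302962966535))) (a (b (l 306721062919) (l 16777256)) (l 283098742983))) (c (l 283098743143) (c (l 280951259383) (l 279340646647))))) (a (b (a (b (c (l 312089772007) (l 313700384727)) (c (l 280414388279) (l 279877517367))) (l 283098743047)) (l 16777336)) (l 16777432)))))), by decide +kernel⟩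

def k10_pm_213_s : ∃ t, chk3 f_pm_213_s t 110 157 1 = true :=
  ⟨(a (b (a (l 3) (b (l 3) (a (a (l 3) (c (l 322290319191) (b (l 3) (l 320679706519)))) (a (b (l 324974673783) (b (c (l 306184192007) (l 307257933815)) (l 283098743031))) (b (b (c (l 312089772007) (l 313700384727)) (c (l 280414388279) (l 279877517367))) (l 16777296)))))) (a (b (a (l 3) (a (l 3) (b (l 3) (a (l 316384739271) (b (l 316384739287) (l 282025001127)))))) (b (a (l 324974673719) (a (a (b (l 3) (l 303499837447)) (b (l 306721062903) (l 16777256))) (l 282561872087))) (a (a (c (l 318532222887) (l 320142835607)) (a (b (l 315847868375) (l 281488130215)) (l 282025001239))) (l 16777336)))) (a (b (a (a (b (l 323900931991) (l 282561872151)) (b (b (l 3) (l 303499837447)) (l 16777280))) (b (a (b (l 307257933815) (l 16777256)) (l 283635613927)) (l 16777336))) (l 16777432)) (l 16777648)))) (b (a (a (b (b (a (l 3) (a (l 324974673831) (b (l 3) (l 303499837447)))) (a (b (l 319605964727) (a (l 311552901095) (l 282025001127))) (c (l 282025001191)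 (l 279877517415)))) (c (l 283098743175) (l 280414388535))) (a (b (b (a (b (l 307257933815) (l 16777256)) (l 283635613927)) (l 16777336)) (l 16777464)) (l 16777448))) (l 16777616)) (l 16777824))), by decide +kernel⟩

def k11_pm_213_s : ∃ t, chk3 f_pm_213_s t 111 78 1 = true :=
  ⟨(b (a (b (a (a (b (l 3) (a (b (l 326048415623) (a (b (l 315847868391) (l 282561872055)) (l 282025001239))) (b (b (c (l 312089772007) (l 313163513815)) (c (l 279877517367) (l 279877517367))) (l 16777304)))) (b (b (a (l 3) (a (l 324974673831) (b (l 328732770247) (l 279877517335)))) (a (b (l 319605964743) (a (l 310479159287) (l 282561872055))) (c (l 282025001207) (l 281488130311)))) (c (l 284172485127) (l 280951259447)))) (a (a (b (b (a (b (l 306184192007) (l 16777256)) (l 283635613927)) (l 16777336)) (l 16777464)) (l 16777448)) (l 16777544))) (c (l 16777712) (l 16777648))) (l 16778064)) (l 16778496)), by decide +kernel⟩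

def k12_pm_213_s : ∃ t, chk3 f_pm_213_s t 55 79 1 = true :=
  ⟨(a (b (a (b (a (a (a (b (b (a (b (l 306184191991) (l 16777256)) (l 282561872103)) (l 16777336)) (l 16777464)) (l 16777448)) (l 16777552)) (l 16777760)) (l 16777968)) (l 16778360)) (l 16778792)) (l 16779616)), by decide +kernel⟩

def k13_pm_213_s : ∃ t, chk3 f_pm_213_s t 7 8 1 = true :=
  ⟨(a (a (l 3) (l 14)) (l 14)), by decide +kernel⟩

def k14_pm_213_s : ∃ t, chk3 f_pm_213_s t 28 36 1 = true :=
  ⟨(l 3), by decide +kernel⟩

def k15_pm_213_s : ∃ t, chk3 f_pm_213_s t 56 37 1 = true :=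
  ⟨(b (l 3) (a (l 3) (b (l 3) (a (l 3) (b (l 3) (a (l 3) (b (a (l 3) (b (l 329806511975) (a (l 319605964727) (l 279340647095)))) (a (a (a (l 323900931975) (b (l 3) (l 303499837447))) (b (l 313163514471) (l 282561872295))) (c (l 281488130263) (b (l 279340646535) (l 16777344))))))))))), by decide +kernel⟩

def k16_pm_213_s : ∃ t, chk3 f_pm_213_s t 57 74 1 = true :=
  ⟨(a (b (l 3) (a (l 3) (b (l 3) (a (l 3) (b (l 3) (c (l 331417124631) (a (l 3) (l 331417124631)))))))) (b (a (l 3) (a (b (l 3) (b (c (l 336785833751) (l 337322704535)) (a (a (l 3) (c (l 321753448359) (b (l 3) (l 316921610183)))) (a (b (l 322827190199) (a (l 297594258087) (l 285783097671))) (c (l 283098742871) (b (l 298131128983) (l 16777288))))))) (a (b (l 3) (b (a (b (l 3) (a (l 308331676279) (l 282025000983))) (b (a (l 316384739287) (l 300278612631)) (l 286856839527))) (l 16777344))) (b (b (l 3) (a (a (l 331953995655) (b (l 3) (l 305647321735))) (b (a (l 3) (l 313163513815)) (l 282561872599)))) (b (c (l 287930581703) (l 283635614215))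 (l 16777448)))))) (a (b (a (l 3) (a (b (l 3) (a (c (l 324974673815) (l 327122157415)) (b (l 327659028391) (a (l 300278612631) (l 284709355911))))) (a (b (l 3) (b (a (l 305647321735) (l 282025000999)) (l 16777288))) (b (b (l 3) (a (l 313163513831) (l 299204870807))) (l 16777312))))) (a (a (b (l 3) (a (b (l 333564608407) (a (l 302962967191) (l 283098743255))) (b (a (l 309405417447) (l 280414388247)) (l 16777280)))) (a (b (b (l 3) (a (l 317458481111) (l 301352354455))) (l 285783097943)) (b (b (a (l 329269641143) (l 307794805383)) (l 284709356023)) (l 16777360)))) (a (a (b (b (l 282025001671) (l 16777312)) (l 16777416)) (l 16777408)) (l 16777488)))) (b (b (a (a (b (a (a (l 322290319303) (l 304036708999)) (l 282561871943)) (l 286856839815)) (l 16777368)) (l 16777536)) (l 16777560)) (l 16777776))))), by decide +kernel⟩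

def k17_pm_213_s : ∃ t, chk3 f_pm_213_s t 57 75 1 = true :=
  ⟨(a (b (b (a (l 3) (a (b (l 3) (a (l 3) (a (l 330880253799) (b (l 3) (a (l 306721062903) (l 280414388263)))))) (a (a (b (l 3) (b (a (l 313700384727) (l 299741741063)) (l 16777280))) (b (a (l 328195899271) (b (l 3) (l 305110450167))) (l 284709356103))) (b (a (b (a (l 335712092071) (l 311552901095)) (l 280951259223)) (b (l 280414388919) (l 16777312))) (l 16777384))))) (a (a (l 3) (b (l 3) (a (l 334638350119) (a (b (l 3) (a (l 310479159271) (l 279877517335))) (b (a (l 317995352023) (l 302962966535)) (l 284709355879)))))) (a (a (a (b (b (l 3) (l 312626643559)) (l 284172485271)) (b (b (l 319605964727) (l 280414388295)) (l 16777352))) (b (c (l 280951259959) (b (c (l 280414388327) (l 279340646503)) (l 16777328))) (l 16777440))) (l 16777544)))) (a (b (a (b (a (l 3) (c (l 324974673783) (b (l 3) (l 322827190135)))) (b (a (l 3) (a (l 310479159927) (l 283098743367))) (a (a (l 3) (a (l 314237255639) (l 301352353799))) (l 284172485191)))) (b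 (a (a (b (l 323364061111) (l 279877517367)) (b (l 300278612647) (l 16777296))) (l 16777352)) (l 16777440))) (b (a (a (a (c (l 279877518055) (b (l 302426095623) (l 16777288))) (l 16777320)) (l 16777408)) (l 16777592)) (l 16777624))) (l 16777880))) (b (a (b (a (b (l 16777416) (l 16777560)) (l 16777720)) (l 16777904)) (l 16778224)) (l 16778608))), by decide +kernel⟩

def k18_pm_213_s : ∃ t, chk3 f_pm_213_s t 29 18 1 = true :=
  ⟨(a (a (b (b (l 3) (b (a (l 3) (a (l 3) (l 14))) (a (b (l 3) (a (a (l 3) (a (l 3) (b (l 3) (b (l 3) (a (l 319605964759) (l 301352354455)))))) (a (a (b (l 3) (b (a (l 332490866615) (l 307794805367)) (l 284709356087))) (b (c (l 325511544743) (l 328195899239)) (b (l 282025001671) (l 16777304)))) (b (a (b (l 329806512039) (a (l 299741741703) (l 285246226903))) (b (a (l 305110450823) (l 282561871911)) (l 16777280))) (l 16777352))))) (b (a (b (a (l 3) (a (a (l 337859575671) (l 14)) (l 14))) (b (a (a (l 3) (a (l 322827190215) (l 302426096263))) (a (l 283098742855) (l 14))) (a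 (a (a (l 312626642919) (l 297594258071)) (l 286319968711)) (l 16777336)))) (l 14)) (a (b (c (l 16777384) (a (l 16777320) (l 16777416))) (l 16777504)) (l 16777648)))))) (b (b (a (b (a (b (b (a (l 337322704743) (a (a (l 310479159271) (l 297057387159)) (l 286319968647))) (a (a (l 326048415671) (a (l 303499838087) (l 282025000999))) (l 16777304))) (a (a (c (l 283635613799) (b (l 281488130743) (l 16777296))) (l 16777320)) (l 16777400))) (l 16777496)) (l 16777656)) (l 16777952)) (l 16778304)) (l 16779256))) (b (l 14) (l 16779576))) (l 14)), by decide +kernel⟩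

def k19_pm_213_s : ∃ t, chk3 f_pm_213_s t 56 76 1 = true :=
  ⟨(a (b (l 3) (b (a (l 3) (a (l 3) (a (a (l 3) (b (l 3) (c (l 320679707175) (b (l 3) (l 315847869015))))) (a (b (l 3) (c (b (l 320679706567) (l 279340646471)) (b (l 322290319271) (l 279340646471)))) (b (l 330343382871) (a (b (l 304573579927) (l 16777296)) (l 283098743271))))))) (a (l 3) (a (a (b (l 3) (b (c (l 326585286535) (l 328195899223)) (a (c (l 316384739287) (c (l 317995352007) (l 318532222903))) (c (l 279340646471) (l 278803775559))))) (a (b (l 332490866503) (b (a (a (l 309405417463) (l 278803775511)) (l 281488130359)) (l 16777312))) (b (b (l 3) (b (l 313700384743) (l 279340646455))) (l 16777336)))) (b (a (b (a (a (l 318532222935) (a (l 308331675639) (l 278803775511))) (l 282025001319)) (l 284709356055)) (l 16777400)) (l 16777496)))))) (b (a (b (a (l 3) (a (l 3) (a (l 3) (b (l 3) (a (l 326585286535) (b (l 3) (l 306184192007))))))) (a (b (l 3) (a (l 3) (b (c (l 322827190167) (l 324437802871)) (a (c (l 312626642919) (l 313700384727))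 (l 279877517399))))) (a (a (b (l 328732770151) (c (l 279877517447) (b (l 278803775543) (l 16777312)))) (b (b (l 334638350215) (a (l 307257933815) (l 281488130471))) (l 16777344))) (b (a (b (a (l 313163513831) (l 279340646423)) (l 16777288)) (l 284709356135)) (l 16777432))))) (b (b (a (a (c (l 328732770135) (l 330880253719)) (a (b (l 330880253847) (a (l 304573579271) (l 282025001351))) (b (a (l 310479159271) (l 279340646439)) (l 16777288)))) (c (l 277193162343) (l 277193162375))) (a (a (a (b (a (l 331953995687) (l 311552901095)) (l 282561872343)) (b (l 279340647111) (l 16777320))) (l 16777376)) (l 16777560))) (l 16777672))) (a (b (a (b (a (a (b (l 3) (a (l 309405418119) (l 279340646455))) (b (a (l 315847868375) (l 303499838103)) (l 16777280))) (c (l 284709356199) (l 280951259543))) (l 16777432)) (l 16777608)) (l 16777808)) (l 16778160)))), by decide +kernel⟩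

def k20_pm_213_s : ∃ t, chk3 f_pm_213_s t 56 77 1 = true :=
  ⟨(a (b (a (b (a (a (l 3) (a (l 3) (b (l 3) (a (l 333564608343) (b (l 3) (b (l 3) (l 306721062919))))))) (a (a (b (l 3) (c (b (l 323900932023) (l 279340646455)) (b (l 325511544727) (c (l 279340646471) (l 279340646471))))) (b (l 333027737415) (b (a (b (l 321753448407) (l 282025001239)) (l 281488130407)) (l 16777312)))) (b (a (b (l 3) (b (l 315310997463) (a (l 305647321095) (l 16777248)))) (b (a (l 320679706567) (b (l 320679706583) (l 281488130295))) (l 283098743111))) (l 16777368)))) (a (a (a (b (l 333564608311) (b (b (a (l 324437802967) (l 303499837447)) (l 282025001271)) (l 16777304))) (b (b (l 3) (b (l 316921610199) (a (l 307257933831) (l 16777248)))) (l 16777328))) (b (a (b (a (l 321753448391) (b (l 323364061143) (l 281488130327))) (l 283098743111)) (c (l 280414388407) (b (l 279340646487) (l 16777328)))) (l 16777432))) (l 16777544))) (b (a (a (a (b (b (l 282025001383) (l 16777344)) (l 16777464)) (l 16777448)) (l 16777544)) (l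 16777744)) (l 16777944))) (a (l 16777920) (l 16778464))) (l 16778944)), by decide +kernel⟩

def k21_pm_213_s : ∃ t, chk3 f_pm_213_s t 57 38 1 = true :=
  ⟨(b (a (l 16778616) (l 16779648)) (l 16780600)), by decide +kernel⟩

def k22_pm_213_s : ∃ t, chk3 f_pm_213_s t 28 39 1 = true :=
  ⟨(a (l 16780680) (l 16783136)), by decide +kernel⟩

def k23_pm_213_s : ∃ t, chk3 f_pm_213_s t 29 19 1 = true :=
  ⟨(b (l 16783120) (l 16786528)), by decide +kernel⟩

def k24_pm_213_s : ∃ t, chk3 f_pm_213_s t 15 9 1 = true :=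
  ⟨(b (b (l 14) (a (l 16783632) (l 16785936))) (a (b (l 16786336) (l 16789080)) (l 16790600))), by decide +kernel⟩

def k25_pm_213_s : ∃ t, chk3 f_pm_213_s t 12 10 1 = true :=
  ⟨(b (a (l 3) (b (l 3) (a (l 3) (b (l 3) (a (l 3) (b (l 3) (a (l 3) (l 313163518279)))))))) (a (b (l 3) (a (l 3) (b (a (l 3) (l 311552908631)) (a (b (l 3) (c (l 286319967143) (l 285783096215))) (b (a (l 287393709271) (l 257328943735)) (a (l 241222815287) (l 16777320))))))) (b (a (b (l 3) (a (l 3) (b (l 315310995687) (a (l 289541193095) (l 263771394375))))) (b (a (b (l 3) (a (l 318532221511) (l 285246226327))) (b (a (l 291151806055) (l 253570843031)) (l 242296557639))) (a (b (a (l 274508808199) (l 16777512)) (l 16777648)) (l 16778120)))) (a (b (a (b (l 289004332327) (a (l 270213840759) (l 16777352))) (b (l 235317236295) (l 16777616))) (a (l 16777472) (l 16777888))) (l 16783896))))), by decide +kernel⟩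

def k26_pm_213_s : ∃ t, chk3 f_pm_213_s t 52 40 1 = true :=
  ⟨(l 3), by decide +kernel⟩

def k27_pm_213_s : ∃ t, chk3 f_pm_213_s t 53 80 1 = true :=
  ⟨(a (l 3) (b (l 3) (a (l 3) (b (a (l 3) (b (l 3) (a (c (l 316384739079) (l 316921609959)) (a (b (l 315847868279) (a (l 278266904599) (l 275582550231))) (b (a (l 304036708343) (l 276656291895)) (l 16777304)))))) (a (a (b (l 3) (a (l 313163514327) (b (l 314237255559) (l 276119420983)))) (a (b (l 319605964535) (b (a (l 302426095607) (l 275582550071)) (l 16777304))) (b (a (l 312626642791) (b (l 3) (l 277730033687))) (l 16777328)))) (b (a (b (a (l 306721063511) (l 275582550103)) (l 273971937623)) (l 16777392)) (l 16777480))))))), by decide +kernel⟩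

def k28_pm_213_s : ∃ t, chk3 f_pm_213_s t 53 81 1 = true :=
  ⟨(a (b (a (l 3) (b (l 3) (b (l 3) (a (l 3) (a (l 3) (a (l 310479159783) (b (l 311016030103) (l 274508808263)))))))) (a (b (l 3) (a (l 3) (a (b (l 3) (a (l 307257933671) (b (l 307257933735) (l 272361324871)))) (b (a (l 313163513607) (a (l 306721062791) (l 301352354407))) (c (l 270750712007) (l 268066357399)))))) (b (a (b (l 317458481959) (a (c (l 311016029975) (l 311552900855)) (b (a (l 308868546455) (l 275582550055)) (l 271824454007)))) (b (a (b (l 306721063463) (a (l 297594257415) (l 16777280))) (a (l 271287583143) (l 16777352))) (l 16777408))) (a (a (b (a (b (l 300278611959) (l 16777280)) (l 269140099447)) (l 16777408)) (l 16777456)) (l 16777624))))) (b (a (b (a (a (l 3) (a (l 3) (b (l 3) (l 311552901591)))) (a (b (l 319069093543) (a (b (l 312626642823) (l 275582550071)) (a (b (l 300815482887) (l 16777288)) (l 273435066711)))) (b (a (b (l 3) (l 300815483543)) (b (l 305110450135) (l 272898195703))) (l 16777360)))) (a (a (a (b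 (l 317458480887) (c (l 273971937399) (l 272361324631))) (b (b (l 3) (l 299204870151)) (l 16777328))) (b (a (b (l 303499837399) (l 16777272)) (l 272361324951)) (l 16777416))) (l 16777520))) (b (a (a (b (c (l 272898195783) (l 269676970311)) (l 16777480)) (l 16777528)) (l 16777720)) (l 16777896))) (a (l 16777848) (l 16778368)))), by decide +kernel⟩

def k29_pm_213_s : ∃ t, chk3 f_pm_213_s t 26 41 1 = true :=
  ⟨(a (b (a (b (l 3) (l 324437806023)) (b (a (l 3) (b (a (l 3) (b (l 3) (l 319069093495))) (a (b (l 3) (l 297594257191)) (b (a (l 297057386359) (l 277730033783)) (l 258402681607))))) (a (b (b (l 321753447639) (l 297594259655)) (a (l 291151806423) (l 256255198439))) (b (a (b (l 278803775607) (l 16777400)) (l 16777544)) (l 16777688))))) (a (b (a (l 317995350871) (b (a (l 317458480583) (l 285246226455)) (l 257865810231))) (a (b (l 280414388231) (l 16777456)) (l 16777704))) (b (a (l 16777640) (l 16778056)) (l 16778312)))) (b (a (b (a (b (a (a (b (l 321216577223) (l 280951259863)) (b (b (l 298667999143)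 (l 279340646487)) (l 16777352))) (b (c (l 262697648551) (l 259476423095)) (l 16777512))) (l 16777608)) (l 16777928)) (l 16778232)) (l 16779008)) (l 16779584))), by decide +kernel⟩

def k30_pm_213_s : ∃ t, chk3 f_pm_213_s t 27 20 1 = true :=
  ⟨(b (a (b (a (b (a (b (a (l 3) (a (l 3) (b (l 3) (c (l 317995351799) (l 319069094247))))) (a (b (l 3) (a (l 3) (b (l 318532222759) (a (l 312626642839) (b (l 301352353799) (l 276119421095)))))) (b (a (a (l 3) (b (l 3) (b (l 313163513783) (l 278266904599)))) (a (b (a (l 316921610135) (l 306184191975)) (l 277193163031)) (c (l 276656292023) (b (l 275582550087) (l 16777320))))) (b (a (a (a (l 305110450151) (l 277193162807)) (l 16777288)) (l 16777384)) (l 16777400))))) (b (a (a (b (l 3) (a (b (l 318532222839) (a (a (l 304036708343) (l 278266904615)) (l 277730033863))) (b (b (l 308331675607) (l 277730033719)) (l 16777304)))) (b (a (b (l 3) (a (l 312089771975) (a (l 304573579255) (l 278266904599)))) (b (b (l 321216577415) (l 306184191991)) (l 278266904855)))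 (c (l 276656292071) (l 273435066647)))) (a (a (b (b (c (l 278266904663) (l 276119420999)) (l 16777336)) (l 16777464)) (l 16777448)) (l 16777544))) (a (l 16777544) (l 16777816)))) (a (b (a (b (b (c (a (l 312089771911) (l 275582550183)) (a (l 313163514375) (l 273435066503))) (a (a (c (l 304036708343) (l 304036708327)) (l 275582550247)) (l 16777368))) (c (l 273435066743) (a (l 16777344) (l 16777456)))) (l 16777600)) (l 16777792)) (l 16778184))) (b (l 16778352) (l 16779056))) (l 16779488)) (l 16781368)) (a (l 16781608) (l 16784528))), by decide +kernel⟩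

def k31_pm_213_s : ∃ t, chk3 f_pm_213_s t 13 21 1 = true :=
  ⟨(a (b (a (b (l 16778536) (l 16779360)) (l 16781240)) (l 16781992)) (b (l 16785656) (l 16787832))), by decide +kernel⟩

def k32_pm_213_s : ∃ t, chk3 f_pm_213_s t 6 11 1 = true :=
  ⟨(a (b (a (b (a (b (a (l 3) (b (l 300278609879) (c (l 269676969943) (l 271824453431)))) (a (b (l 284709364807) (a (l 266992615191) (l 16777128))) (b (l 230485398663) (l 16777088)))) (a (b (b (c (l 255181455367) (l 256255196807)) (l 16777208)) (l 16777208)) (l 16780080))) (a (b (l 16777016) (l 16776936)) (l 16777464))) (b (l 16778768) (l 16779200))) (a (b (l 16777416) (l 16777928)) (b (l 16780728) (l 16781528)))) (b (a (b (l 16783152) (l 16785016)) (l 16790392)) (l 16791104))), by decide +kernel⟩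

def k33_pm_213_s : ∃ t, chk3 f_pm_213_s t 7 5 1 = true :=
  ⟨(b (a (b (a (b (l 16785624) (l 16788520)) (b (l 16789296) (l 16791600))) (a (b (l 16790888) (l 16792600)) (l 16795672))) (b (l 16795688) (l 16803176))) (a (l 16865088) (l 16818040))), by decide +kernel⟩

def k34_pm_213_s : ∃ t, chk3 f_pm_213_s t 1 6 1 = true :=
  ⟨(a (b (a (b (l 3) (a (l 3) (a (l 3) (b (a (l 3) (b (l 3) (a (l 3) (l 295983664087)))) (a (b (l 328195893767) (a (l 302962964471) (l 249812756519))) (b (a (l 282561892791) (l 230485401479)) (l 16778616))))))) (b (a (a (b (l 3) (a (l 3) (b (l 307794821143) (a (l 289004342887) (l 242833434999))))) (b (a (b (l 3) (a (l 313163509543) (l 282025021703))) (b (a (l 292762417447) (b (l 269676969623) (l 16777264))) (a (l 231559143095) (l 16777416)))) (a (b (a (b (l 282561871719) (l 16777336)) (l 16777504)) (l 16777776)) (l 16777864)))) (a (b (a (l 16782528) (l 16777176)) (l 16777464)) (b (l 16755856) (l 16778128)))) (a (a (b (a (b (a (l 311016026727) (l 275582570487)) (a (b (l 271287582247)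 (l 16777488)) (l 16777624))) (b (l 217063632967) (l 16777944))) (l 16789784)) (b (l 16778200) (l 16778904))) (a (b (l 16756968) (l 16778792)) (l 16777760))))) (a (b (a (a (l 3) (b (l 3) (a (l 3) (b (l 3) (l 286856870599))))) (a (b (a (b (l 3) (l 316384735623)) (b (l 298131152759) (a (l 270750732359) (l 16778536)))) (a (b (a (l 289541193447) (l 249275885687)) (l 16779240)) (l 16780848))) (b (a (b (l 233169759335) (l 16780240)) (l 16781224)) (l 16784064)))) (a (b (b (a (l 3) (a (l 302426094103) (l 248202152103))) (a (l 338396441911) (a (l 251423359911) (l 16781312)))) (a (a (b (l 3) (l 288467452215)) (b (l 273971957591) (l 16781592))) (b (l 16782960) (l 16788352)))) (a (b (l 16784576) (l 16792640)) (b (l 16791320) (l 16802512))))) (b (a (a (b (l 16782080) (l 16788792)) (b (l 16783752) (l 16787408))) (l 16780568)) (a (l 16801928) (l 16794744))))) (a (b (a (b (a (l 16803416) (l 16783368)) (l 16782504)) (b (l 16795800) (l 16798808))) (b (a (l 16782304) (l 6)) (l 6))) (b (l 6) (l 6)))), by decide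 +kernel⟩

def k35_pm_213_s : ∃ t, chk3 f_pm_213_s t 1 7 1 = true :=
  ⟨(a (a (b (b (b (a (a (b (a (l 237464735159) (l 16788072)) (l 16791680)) (l 16799608)) (l 16870880)) (a (a (l 16799264) (l 16813560)) (l 16844400))) (a (a (b (l 16804016) (l 16818160)) (l 16830152)) (l 16855080))) (l 1)) (b (a (b (l 16840192) (l 16918128)) (l 6)) (l 6))) (l 6)), by decide +kernel⟩

theorem s36_pm_213_s : ∃ t, chk3 f_pm_213_s t 1 3 1 = true := ex3_b k34_pm_213_s k35_pm_213_s

theorem s37_pm_213_s : ∃ t, chk3 f_pm_213_s t 53 40 1 = true := ex3_b k27_pm_213_s k28_pm_213_s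

theorem s38_pm_213_s : ∃ t, chk3 f_pm_213_s t 26 40 1 = true := ex3_a k26_pm_213_s s37_pm_213_s

theorem s39_pm_213_s : ∃ t, chk3 f_pm_213_s t 26 20 1 = true := ex3_b s38_pm_213_s k29_pm_213_s

theorem s40_pm_213_s : ∃ t, chk3 f_pm_213_s t 13 20 1 = true := ex3_a s39_pm_213_s k30_pm_213_s

theorem s41_pm_213_s : ∃ t, chk3 f_pm_213_s t 13 10 1 = true := ex3_b s40_pm_213_s k31_pm_213_s

theorem s42_pm_213_s : ∃ t, chk3 f_pm_213_s t 6 10 1 = true := ex3_a k25_pm_213_s s41_pm_213_s

theorem s43_pm_213_s : ∃ t, chk3 f_pm_213_s t 6 5 1 = true := ex3_b s42_pm_213_s k32_pm_213_s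

theorem s44_pm_213_s : ∃ t, chk3 f_pm_213_s t 3 5 1 = true := ex3_a s43_pm_213_s k33_pm_213_s

theorem s45_pm_213_s : ∃ t, chk3 f_pm_213_s t 56 38 1 = true := ex3_b k19_pm_213_s k20_pm_213_s

theorem s46_pm_213_s : ∃ t, chk3 f_pm_213_s t 28 38 1 = true := ex3_a s45_pm_213_s k21_pm_213_s

theorem s47_pm_213_s : ∃ t, chk3 f_pm_213_s t 28 19 1 = true := ex3_b s46_pm_213_s k22_pm_213_s

theorem s48_pm_213_s : ∃ t, chk3 f_pm_213_s t 14 19 1 = true := ex3_a s47_pm_213_s k23_pm_213_s

theorem s49_pm_213_s : ∃ t, chk3 f_pm_213_s t 57 37 1 = true := ex3_b k16_pm_213_s k17_pm_213_s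

theorem s50_pm_213_s : ∃ t, chk3 f_pm_213_s t 28 37 1 = true := ex3_a k15_pm_213_s s49_pm_213_s

theorem s51_pm_213_s : ∃ t, chk3 f_pm_213_s t 28 18 1 = true := ex3_b k14_pm_213_s s50_pm_213_s

theorem s52_pm_213_s : ∃ t, chk3 f_pm_213_s t 14 18 1 = true := ex3_a s51_pm_213_s k18_pm_213_s

theorem s53_pm_213_s : ∃ t, chk3 f_pm_213_s t 14 9 1 = true := ex3_b s52_pm_213_s s48_pm_213_s

theorem s54_pm_213_s : ∃ t, chk3 f_pm_213_s t 7 9 1 = true := ex3_a s53_pm_213_s k24_pm_213_s

theorem s55_pm_213_s : ∃ t, chk3 f_pm_213_s t 7 4 1 = true := ex3_b k13_pm_213_s s54_pm_213_s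

theorem s56_pm_213_s : ∃ t, chk3 f_pm_213_s t 110 78 1 = true := ex3_b k9_pm_213_s k10_pm_213_s

theorem s57_pm_213_s : ∃ t, chk3 f_pm_213_s t 55 78 1 = true := ex3_a s56_pm_213_s k11_pm_213_s

theorem s58_pm_213_s : ∃ t, chk3 f_pm_213_s t 55 39 1 = true := ex3_b s57_pm_213_s k12_pm_213_s

theorem s59_pm_213_s : ∃ t, chk3 f_pm_213_s t 54 79 1 = true := ex3_a k7_pm_213_s k8_pm_213_s

theorem s60_pm_213_s : ∃ t, chk3 f_pm_213_s t 54 39 1 = true := ex3_b k6_pm_213_s s59_pm_213_s

theorem s61_pm_213_s : ∃ t, chk3 f_pm_213_s t 27 39 1 = true := ex3_a s60_pm_213_s s58_pm_213_s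

theorem s62_pm_213_s : ∃ t, chk3 f_pm_213_s t 27 19 1 = true := ex3_b k5_pm_213_s s61_pm_213_s

theorem s63_pm_213_s : ∃ t, chk3 f_pm_213_s t 13 19 1 = true := ex3_a k4_pm_213_s s62_pm_213_s

theorem s64_pm_213_s : ∃ t, chk3 f_pm_213_s t 13 9 1 = true := ex3_b k3_pm_213_s s63_pm_213_s

theorem s65_pm_213_s : ∃ t, chk3 f_pm_213_s t 6 9 1 = true := ex3_a k2_pm_213_s s64_pm_213_s

theorem s66_pm_213_s : ∃ t, chk3 f_pm_213_s t 6 4 1 = true := ex3_b k1_pm_213_s s65_pm_213_s

theorem s67_pm_213_s : ∃ t, chk3 f_pm_213_s t 3 4 1 = true := ex3_a s66_pm_213_s s55_pm_213_s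

theorem s68_pm_213_s : ∃ t, chk3 f_pm_213_s t 3 2 1 = true := ex3_b s67_pm_213_s s44_pm_213_s

theorem s69_pm_213_s : ∃ t, chk3 f_pm_213_s t 1 2 1 = true := ex3_a k0_pm_213_s s68_pm_213_s

theorem s70_pm_213_s : ∃ t, chk3 f_pm_213_s t 1 1 1 = true := ex3_b s69_pm_213_s s36_pm_213_s

theorem c_pm_213_s : CertNE 0 536870912 0 1230186008 536870912 50465866 3 eng mog cd0q2 cd6q3 pd1 false true false .pnn 2 1 3
    ndB0q2 ndB6q3 pcB1 cut_pm_213_s Ext.none :=
  certNE0 (fam := false) (s1 := true) (s2 := false) (a := 2) (b := 1) (c := 3) (cn := .pnn) (n1 := ndB0q2) (n2 := ndB6q3) (pc := pcB1) (cut := cut_pm_213_s) (xt := Ext.none) (P1 := 0) (W1 := 536870912) (P2 := 0) (W2 := 1230186008) (P3 := 536870912) (W3 := 50465866) (N0 := 3) (En := eng) (mo := mog) (C1 := cd0q2) (C2 := cd6q3) (C3 := pd1)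
    rfl s70_pm_213_s

noncomputable def cut_mm_001_s : Cut := Cut.of [[⟨4, 0, 0, 1449551462⟩]]

noncomputable def f_mm_001_s : ℕ → ℕ → ℕ → ℕ → Bool := onCell 0 536870912 0 536870912 536870912 50465866
    (rowNE 3 eng mog cd0q0 cd6q1 pd0 1 false false false .up 0 0 1 (qsf 0 536870912 536870912 536870912 0) ndB0q0 ndB6q1 pcB0 cut_mm_001_s Ext.none)

def k0_mm_001_s : ∃ t, chk3 f_mm_001_s t 1 1 1 = true :=
  ⟨(l 3), by decide +kernel⟩

theorem c_mm_001_s : CertNE 0 536870912 536870912 536870912 536870912 50465866 3 eng mog cd0q0 cd6q1 pd0 false false false .up 0 0 1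
    ndB0q0 ndB6q1 pcB0 cut_mm_001_s Ext.none :=
  certNE1 (fam := false) (s1 := false) (s2 := false) (a := 0) (b := 0) (c := 1) (cn := .up) (n1 := ndB0q0) (n2 := ndB6q1) (pc := pcB0) (cut := cut_mm_001_s) (xt := Ext.none) (P1 := 0) (W1 := 536870912) (P2 := 536870912) (W2 := 536870912) (P3 := 536870912) (W3 := 50465866) (N0 := 3) (En := eng) (mo := mog) (C1 := cd0q0) (C2 := cd6q1) (C3 := pd0)
    rfl (fun _ => rfl) k0_mm_001_s

noncomputable def cut_mm_011_s : Cut := Cut.of [[⟨4, 0, 0, 1449551462⟩]]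

noncomputable def f_mm_011_s : ℕ → ℕ → ℕ → ℕ → Bool := onCell 0 536870912 536870912 536870912 536870912 50465866
    (rowNE 3 eng mog cd0q0 cd6q1 pd1 1 false false false .pnn 0 1 1 (qsf 0 536870912 536870912 536870912 1) ndB0q0 ndB6q1 pcB1 cut_mm_011_s Ext.none)

def k0_mm_011_s : ∃ t, chk3 f_mm_011_s t 1 1 1 = true :=
  ⟨(l 5), by decide +kernel⟩

theorem c_mm_011_s : CertNE 0 536870912 536870912 536870912 536870912 50465866 3 eng mog cd0q0 cd6q1 pd1 false false false .pnn 0 1 1
    ndB0q0 ndB6q1 pcB1 cut_mm_011_s Ext.none :=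
  certNE1 (fam := false) (s1 := false) (s2 := false) (a := 0) (b := 1) (c := 1) (cn := .pnn) (n1 := ndB0q0) (n2 := ndB6q1) (pc := pcB1) (cut := cut_mm_011_s) (xt := Ext.none) (P1 := 0) (W1 := 536870912) (P2 := 536870912) (W2 := 536870912) (P3 := 536870912) (W3 := 50465866) (N0 := 3) (En := eng) (mo := mog) (C1 := cd0q0) (C2 := cd6q1) (C3 := pd1)
    rfl (fun _ => rfl) k0_mm_011_s

noncomputable def cut_mm_012_s : Cut := Cut.of [[⟨4, 0, 0, 1449551462⟩]]

noncomputable def f_mm_012_s : ℕ → ℕ → ℕ → ℕ → Bool := onCell 0 536870912 1073741824 536870912 536870912 50465866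
    (rowNE 3 eng mog cd0q0 cd6q2 pd1 0 false false false .pnp 0 1 2 (qsf 0 536870912 1073741824 536870912 1) ndB0q0 ndB6q2 pcB1 cut_mm_012_s Ext.none)

def k0_mm_012_s : ∃ t, chk3 f_mm_012_s t 1 1 1 = true :=
  ⟨(l 5), by decide +kernel⟩

theorem c_mm_012_s : CertNE 0 536870912 1073741824 536870912 536870912 50465866 3 eng mog cd0q0 cd6q2 pd1 false false false .pnp 0 1 2
    ndB0q0 ndB6q2 pcB1 cut_mm_012_s Ext.none :=
  certNE0 (fam := false) (s1 := false) (s2 := false) (a := 0) (b := 1) (c := 2) (cn := .pnp) (n1 := ndB0q0) (n2 := ndB6q2) (pc := pcB1) (cut := cut_mm_012_s) (xt := Ext.none) (P1 := 0) (W1 := 536870912) (P2 := 1073741824) (W2 := 536870912) (P3 := 536870912) (W3 := 50465866) (N0 := 3) (En := eng) (mo := mog) (C1 := cd0q0) (C2 := cd6q2) (C3 := pd1)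
    rfl k0_mm_012_s

noncomputable def cut_mm_022_s : Cut := Cut.of [[⟨4, 0, 0, 1449551462⟩]]

noncomputable def f_mm_022_s : ℕ → ℕ → ℕ → ℕ → Bool := onCell 0 536870912 1073741824 536870912 536870912 50465866
    (rowNE 3 eng mog cd0q0 cd6q2 pd2 0 false false false .pp 0 2 2 (qsf 0 536870912 1073741824 536870912 2) ndB0q0 ndB6q2 pcB2 cut_mm_022_s Ext.none)

def k0_mm_022_s : ∃ t, chk3 f_mm_022_s t 1 1 1 = true :=
  ⟨(l 5), by decide +kernel⟩

theorem c_mm_022_s : CertNE 0 536870912 1073741824 536870912 536870912 50465866 3 eng mog cd0q0 cd6q2 pd2 false false false .pp 0 2 2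
    ndB0q0 ndB6q2 pcB2 cut_mm_022_s Ext.none :=
  certNE0 (fam := false) (s1 := false) (s2 := false) (a := 0) (b := 2) (c := 2) (cn := .pp) (n1 := ndB0q0) (n2 := ndB6q2) (pc := pcB2) (cut := cut_mm_022_s) (xt := Ext.none) (P1 := 0) (W1 := 536870912) (P2 := 1073741824) (W2 := 536870912) (P3 := 536870912) (W3 := 50465866) (N0 := 3) (En := eng) (mo := mog) (C1 := cd0q0) (C2 := cd6q2) (C3 := pd2)
    rfl k0_mm_022_s

noncomputable def cut_mm_023_s : Cut := Cut.of [[⟨4, 0, 0, 1449551462⟩]]

noncomputable def f_mm_023_s : ℕ → ℕ → ℕ → ℕ → Bool := onCell 0 536870912 0 1230186008 536870912 50465866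
    (rowNE 3 eng mog cd0q0 cd6q3 pd2 0 false false false .up 0 2 3 (qsf 0 536870912 0 1230186008 2) ndB0q0 ndB6q3 pcB2 cut_mm_023_s Ext.none)

def k0_mm_023_s : ∃ t, chk3 f_mm_023_s t 1 1 1 = true :=
  ⟨(l 5), by decide +kernel⟩

theorem c_mm_023_s : CertNE 0 536870912 0 1230186008 536870912 50465866 3 eng mog cd0q0 cd6q3 pd2 false false false .up 0 2 3
    ndB0q0 ndB6q3 pcB2 cut_mm_023_s Ext.none :=
  certNE0 (fam := false) (s1 := false) (s2 := false) (a := 0) (b := 2) (c := 3) (cn := .up) (n1 := ndB0q0) (n2 := ndB6q3) (pc := pcB2) (cut := cut_mm_023_s) (xt := Ext.none) (P1 := 0) (W1 := 536870912) (P2 := 0) (W2 := 1230186008) (P3 := 536870912) (W3 := 50465866) (N0 := 3) (En := eng) (mo := mog) (C1 := cd0q0) (C2 := cd6q3) (C3 := pd2)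
    rfl k0_mm_023_s

noncomputable def cut_mm_033_s : Cut := Cut.of [[⟨4, 0, 0, 1449551462⟩]]

noncomputable def f_mm_033_s : ℕ → ℕ → ℕ → ℕ → Bool := onCell 0 536870912 0 1230186008 536870912 50465866
    (rowNE 3 eng mog cd0q0 cd6q3 pd3 0 false false false .pnn 0 3 3 (qsf 0 536870912 0 1230186008 3) ndB0q0 ndB6q3 pcB3 cut_mm_033_s Ext.none)

def k0_mm_033_s : ∃ t, chk3 f_mm_033_s t 1 1 1 = true :=
  ⟨(l 5), by decide +kernel⟩

theorem c_mm_033_s : CertNE 0 536870912 0 1230186008 536870912 50465866 3 eng mog cd0q0 cd6q3 pd3 false false false .pnn 0 3 3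
    ndB0q0 ndB6q3 pcB3 cut_mm_033_s Ext.none :=
  certNE0 (fam := false) (s1 := false) (s2 := false) (a := 0) (b := 3) (c := 3) (cn := .pnn) (n1 := ndB0q0) (n2 := ndB6q3) (pc := pcB3) (cut := cut_mm_033_s) (xt := Ext.none) (P1 := 0) (W1 := 536870912) (P2 := 0) (W2 := 1230186008) (P3 := 536870912) (W3 := 50465866) (N0 := 3) (En := eng) (mo := mog) (C1 := cd0q0) (C2 := cd6q3) (C3 := pd3)
    rfl k0_mm_033_s

noncomputable def cut_mm_101_s : Cut := Cut.of [[⟨4, 0, 0, 1449551462⟩], [⟨0, 1, 0, 67108864⟩, ⟨1, 0, 0, 67108864⟩, ⟨2, 1, 0, 67108864⟩]]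

noncomputable def f_mm_101_s : ℕ → ℕ → ℕ → ℕ → Bool := onCell 536870912 536870912 0 536870912 536870912 50465866
    (rowNE 3 eng mog cd0q1 cd6q1 pd0 1 false false false .npn 1 0 1 (qsf 536870912 536870912 536870912 536870912 0) ndB0q1 ndB6q1 pcB0 cut_mm_101_s Ext.none)

def k0_mm_101_s : ∃ t, chk3 f_mm_101_s t 1 1 1 = true :=
  ⟨(a (l 3) (b (a (l 3) (b (b (a (l 3) (a (l 3) (b (l 14) (l 3)))) (l 3)) (l 3))) (l 3))), by decide +kernel⟩

theorem c_mm_101_s : CertNE 536870912 536870912 536870912 536870912 536870912 50465866 3 eng mog cd0q1 cd6q1 pd0 false false false .npn 1 0 1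
    ndB0q1 ndB6q1 pcB0 cut_mm_101_s Ext.none :=
  certNE1 (fam := false) (s1 := false) (s2 := false) (a := 1) (b := 0) (c := 1) (cn := .npn) (n1 := ndB0q1) (n2 := ndB6q1) (pc := pcB0) (cut := cut_mm_101_s) (xt := Ext.none) (P1 := 536870912) (W1 := 536870912) (P2 := 536870912) (W2 := 536870912) (P3 := 536870912) (W3 := 50465866) (N0 := 3) (En := eng) (mo := mog) (C1 := cd0q1) (C2 := cd6q1) (C3 := pd0)
    rfl (fun _ => rfl) k0_mm_101_s

noncomputable def cut_mm_102_s : Cut := Cut.of [[⟨4, 0, 0, 1449551462⟩], [⟨0, 1, 0, 67108864⟩, ⟨1, 0, 0, 67108864⟩, ⟨2, 1, 0, 67108864⟩]]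

noncomputable def f_mm_102_s : ℕ → ℕ → ℕ → ℕ → Bool := onCell 536870912 536870912 0 536870912 536870912 50465866
    (rowNE 3 eng mog cd0q1 cd6q2 pd0 1 false false false .npp 1 0 2 (qsf 536870912 536870912 1073741824 536870912 0) ndB0q1 ndB6q2 pcB0 cut_mm_102_s Ext.none)

def k0_mm_102_s : ∃ t, chk3 f_mm_102_s t 1 1 1 = true :=
  ⟨(a (l 3) (b (a (l 3) (b (b (a (l 3) (a (l 3) (b (l 14) (l 3)))) (l 3)) (l 3))) (l 3))), by decide +kernel⟩

theorem c_mm_102_s : CertNE 536870912 536870912 1073741824 536870912 536870912 50465866 3 eng mog cd0q1 cd6q2 pd0 false false false .npp 1 0 2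
    ndB0q1 ndB6q2 pcB0 cut_mm_102_s Ext.none :=
  certNE1 (fam := false) (s1 := false) (s2 := false) (a := 1) (b := 0) (c := 2) (cn := .npp) (n1 := ndB0q1) (n2 := ndB6q2) (pc := pcB0) (cut := cut_mm_102_s) (xt := Ext.none) (P1 := 536870912) (W1 := 536870912) (P2 := 1073741824) (W2 := 536870912) (P3 := 536870912) (W3 := 50465866) (N0 := 3) (En := eng) (mo := mog) (C1 := cd0q1) (C2 := cd6q2) (C3 := pd0)
    rfl (fun _ => rfl) k0_mm_102_s

noncomputable def cut_mm_112_s : Cut := Cut.of [[⟨4, 0, 0, 1449551462⟩]]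

noncomputable def f_mm_112_s : ℕ → ℕ → ℕ → ℕ → Bool := onCell 536870912 536870912 1073741824 536870912 536870912 50465866
    (rowNE 3 eng mog cd0q1 cd6q2 pd1 2 false false false .dn 1 1 2 (qsf 536870912 536870912 1073741824 536870912 1) ndB0q1 ndB6q2 pcB1 cut_mm_112_s Ext.none)

def k0_mm_112_s : ∃ t, chk3 f_mm_112_s t 1 1 1 = true :=
  ⟨(a (l 3) (l 5)), by decide +kernel⟩

theorem c_mm_112_s : CertNE 536870912 536870912 1073741824 536870912 536870912 50465866 3 eng mog cd0q1 cd6q2 pd1 false false false .dn 1 1 2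
    ndB0q1 ndB6q2 pcB1 cut_mm_112_s Ext.none :=
  certNE2 (fam := false) (s1 := false) (s2 := false) (a := 1) (b := 1) (c := 2) (cn := .dn) (n1 := ndB0q1) (n2 := ndB6q2) (pc := pcB1) (cut := cut_mm_112_s) (xt := Ext.none) (P1 := 536870912) (W1 := 536870912) (P2 := 1073741824) (W2 := 536870912) (P3 := 536870912) (W3 := 50465866) (N0 := 3) (En := eng) (mo := mog) (C1 := cd0q1) (C2 := cd6q2) (C3 := pd1)
    rfl (fun _ => rfl) k0_mm_112_s

noncomputable def cut_mm_113_s : Cut := Cut.of [[⟨4, 0, 0, 1449551462⟩]]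

noncomputable def f_mm_113_s : ℕ → ℕ → ℕ → ℕ → Bool := onCell 536870912 536870912 0 1230186008 536870912 50465866
    (rowNE 3 eng mog cd0q1 cd6q3 pd1 0 false false false .nn 1 1 3 (qsf 536870912 536870912 0 1230186008 1) ndB0q1 ndB6q3 pcB1 cut_mm_113_s Ext.none)

def k0_mm_113_s : ∃ t, chk3 f_mm_113_s t 1 1 1 = true :=
  ⟨(a (l 5) (b (l 5) (a (b (l 5) (l 3)) (l 3)))), by decide +kernel⟩

theorem c_mm_113_s : CertNE 536870912 536870912 0 1230186008 536870912 50465866 3 eng mog cd0q1 cd6q3 pd1 false false false .nn 1 1 3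
    ndB0q1 ndB6q3 pcB1 cut_mm_113_s Ext.none :=
  certNE0 (fam := false) (s1 := false) (s2 := false) (a := 1) (b := 1) (c := 3) (cn := .nn) (n1 := ndB0q1) (n2 := ndB6q3) (pc := pcB1) (cut := cut_mm_113_s) (xt := Ext.none) (P1 := 536870912) (W1 := 536870912) (P2 := 0) (W2 := 1230186008) (P3 := 536870912) (W3 := 50465866) (N0 := 3) (En := eng) (mo := mog) (C1 := cd0q1) (C2 := cd6q3) (C3 := pd1)
    rfl k0_mm_113_s

noncomputable def cut_mm_123_s : Cut := Cut.of [[⟨4, 0, 0, 1449551462⟩]]

noncomputable def f_mm_123_s : ℕ → ℕ → ℕ → ℕ → Bool := onCell 1073741824 536870912 0 1230186008 536870912 50465866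
    (rowNE 3 eng mog cd0q1 cd6q3 pd2 2 false false false .npn 1 2 3 (qsf 536870912 536870912 0 1230186008 2) ndB0q1 ndB6q3 pcB2 cut_mm_123_s Ext.none)

def k0_mm_123_s : ∃ t, chk3 f_mm_123_s t 1 1 1 = true :=
  ⟨(b (l 5) (l 5)), by decide +kernel⟩

theorem c_mm_123_s : CertNE 536870912 536870912 0 1230186008 536870912 50465866 3 eng mog cd0q1 cd6q3 pd2 false false false .npn 1 2 3
    ndB0q1 ndB6q3 pcB2 cut_mm_123_s Ext.none :=
  certNE2 (fam := false) (s1 := false) (s2 := false) (a := 1) (b := 2) (c := 3) (cn := .npn) (n1 := ndB0q1) (n2 := ndB6q3) (pc := pcB2) (cut := cut_mm_123_s) (xt := Ext.none) (P1 := 536870912) (W1 := 536870912) (P2 := 0) (W2 := 1230186008) (P3 := 536870912) (W3 := 50465866) (N0 := 3) (En := eng) (mo := mog) (C1 := cd0q1) (C2 := cd6q3) (C3 := pd2)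
    rfl (fun _ => rfl) k0_mm_123_s

noncomputable def cut_mm_133_s : Cut := Cut.of [[⟨4, 0, 0, 1449551462⟩]]

noncomputable def f_mm_133_s : ℕ → ℕ → ℕ → ℕ → Bool := onCell 1610612736 536870912 0 1230186008 536870912 50465866
    (rowNE 3 eng mog cd0q1 cd6q3 pd3 2 false false false .dn 1 3 3 (qsf 536870912 536870912 0 1230186008 3) ndB0q1 ndB6q3 pcB3 cut_mm_133_s Ext.none)

def k0_mm_133_s : ∃ t, chk3 f_mm_133_s t 1 1 1 = true :=
  ⟨(l 5), by decide +kernel⟩

theorem c_mm_133_s : CertNE 536870912 536870912 0 1230186008 536870912 50465866 3 eng mog cd0q1 cd6q3 pd3 false false false .dn 1 3 3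
    ndB0q1 ndB6q3 pcB3 cut_mm_133_s Ext.none :=
  certNE2 (fam := false) (s1 := false) (s2 := false) (a := 1) (b := 3) (c := 3) (cn := .dn) (n1 := ndB0q1) (n2 := ndB6q3) (pc := pcB3) (cut := cut_mm_133_s) (xt := Ext.none) (P1 := 536870912) (W1 := 536870912) (P2 := 0) (W2 := 1230186008) (P3 := 536870912) (W3 := 50465866) (N0 := 3) (En := eng) (mo := mog) (C1 := cd0q1) (C2 := cd6q3) (C3 := pd3)
    rfl (fun _ => rfl) k0_mm_133_s

noncomputable def cut_mm_202_s : Cut := Cut.of [[⟨4, 0, 0, 1449551462⟩], [⟨0, 1, 0, 67108864⟩, ⟨1, 0, 0, 67108864⟩, ⟨2, 1, 0, 67108864⟩]]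

noncomputable def f_mm_202_s : ℕ → ℕ → ℕ → ℕ → Bool := onCell 0 536870912 0 536870912 536870912 50465866
    (rowNE 3 eng mog cd0q2 cd6q2 pd0 1 false false false .pp 2 0 2 (qsf 0 536870912 1073741824 536870912 0) ndB0q2 ndB6q2 pcB0 cut_mm_202_s Ext.none)

def k0_mm_202_s : ∃ t, chk3 f_mm_202_s t 2 2 1 = true :=
  ⟨(b (a (l 6) (b (b (l 6) (a (l 6) (l 16639680))) (a (l 16668704) (b (l 16657296) (a (l 16670608) (b (l 16667984) (l 16672272))))))) (a (b (l 6) (a (l 6) (b (a (l 6) (l 16682352)) (l 16685600)))) (b (b (a (b (l 16682848) (a (l 6) (l 16680976))) (b (a (l 16675872) (l 16682336)) (a (l 16683896) (l 16686592)))) (a (a (l 16681208) (l 16684176)) (a (l 16683744) (b (l 16689320) (l 16692048))))) (a (b (a (l 16681072) (l 16682360)) (a (l 16684328) (l 16690320))) (b (a (l 16688456) (l 16704400)) (a (l 16703160) (l 16714816))))))), by decide +kernel⟩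

def k1_mm_202_s : ∃ t, chk3 f_mm_202_s t 2 3 1 = true :=
  ⟨(b (a (b (a (b (l 6) (l 16705592)) (b (a (l 16689392) (l 16690992)) (b (l 16701248) (l 16716384)))) (a (b (a (l 16743336) (l 16738736)) (l 16772752)) (b (l 16744640) (l 16767528)))) (b (a (b (a (l 16697800) (l 16705328)) (l 16723384)) (b (a (l 16717176) (b (a (l 16723184) (l 16731720)) (l 16760632))) (a (b (l 16732936) (l 16747536)) (b (a (l 16747368) (l 16757720)) (a (l 16759864) (a (l 16767008) (b (l 16769424) (b (l 16773312) (l 225116695207))))))))) (a (b (a (l 16747376) (b (l 16747024) (l 16759528))) (a (b (l 16763080) (l 16772712)) (b (l 16769920) (l 260483065399)))) (b (a (b (l 16781464) (a (l 16765824) (b (l 16769304) (l 16772832)))) (a (b (b (l 16767872) (l 195588793639)) (a (b (l 16774064) (a (l 234780373239) (l 292762421847))) (b (a (l 261087034935) (l 305647325799)) (l 3)))) (b (a (b (l 205252471415) (a (l 272898195703) (l 319605971591))) (b (b (l 290614936647) (l 329806520407)) (l 3))) (l 3)))) (a (b (a (l 16772952) (a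 (b (l 16774520) (l 255718347319)) (b (a (l 16781624) (l 282561872679)) (l 330880264935)))) (a (a (l 294842818087) (b (l 239075343399) (l 312626649719))) (a (b (l 316921618871) (l 3)) (l 3)))) (a (b (b (l 334101500183) (l 3)) (l 3)) (l 3))))))) (a (l 2) (a (l 2) (a (l 2) (l 3))))), by decide +kernel⟩

def k2_mm_202_s : ∃ t, chk3 f_mm_202_s t 6 4 1 = true :=
  ⟨(b (b (a (a (l 16622096) (l 16628440)) (b (a (l 16632152) (l 16646480)) (l 16651784))) (a (l 16646928) (a (l 16661256) (b (l 16671208) (b (a (l 16674800) (l 16683464)) (a (l 16679288) (l 16690112))))))) (a (b (a (l 16661224) (b (l 16664248) (a (l 16668768) (l 16674856)))) (a (b (l 16916664) (l 16682104)) (b (l 16684032) (l 16692784)))) (b (a (a (b (l 16876528) (l 16683496)) (b (b (l 16676040) (l 16682536)) (l 16691752))) (b (a (l 16689744) (l 16700328)) (a (b (l 16698912) (l 16704816)) (l 16755288)))) (a (b (a (l 16694344) (l 16702552)) (l 16772808)) (b (a (l 16735432) (l 16725600)) (a (l 16725152) (l 16737216))))))), by decide +kernel⟩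

def k3_mm_202_s : ∃ t, chk3 f_mm_202_s t 14 8 1 = true :=
  ⟨(b (a (b (l 16666136) (l 16679704)) (b (b (a (l 16680936) (l 14)) (l 16695552)) (a (l 16698816) (b (l 16710192) (b (l 16714824) (a (l 16714768) (l 16723224))))))) (b (a (b (l 16680512) (a (l 16686744) (b (l 16699472) (l 16703336)))) (a (b (b (a (l 16703392) (l 16710536)) (l 16710640)) (l 16716192)) (b (b (l 16722944) (l 16726744)) (a (l 16728088) (l 16778784))))) (a (a (b (l 16695272) (l 16702256)) (b (l 16708696) (l 16715768))) (a (b (a (l 16719896) (l 16727608)) (l 16773432)) (b (a (l 16736080) (l 16744376)) (a (l 16743288) (b (l 16749936) (l 16753536)))))))), by decide +kernel⟩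

def k4_mm_202_s : ∃ t, chk3 f_mm_202_s t 15 16 1 = true :=
  ⟨(a (b (l 14) (a (b (l 14) (b (a (l 16728024) (l 14)) (a (l 16731912) (l 16740976)))) (l 14))) (l 14)), by decide +kernel⟩

def k5_mm_202_s : ∃ t, chk3 f_mm_202_s t 30 34 1 = true :=
  ⟨(a (b (a (b (l 16735800) (l 16739808)) (a (l 16786656) (l 16770304))) (a (l 16745656) (a (l 16752384) (b (l 16755096) (l 16758904))))) (b (a (b (l 16754424) (a (l 16755936) (l 16760712))) (b (l 14) (a (a (l 16774864) (l 16777360)) (l 14)))) (a (a (b (l 16759792) (l 16780704)) (b (a (l 16784368) (l 16776344)) (l 16778944))) (a (b (l 16774744) (a (l 16777360) (b (l 16773624) (a (l 16774920) (a (l 16778472) (b (l 16775992) (a (l 16777784) (b (l 16776872) (l 232632878711))))))))) (b (a (c (l 16778576) (l 16778360)) (b (l 14) (b (a (l 16775584) (a (l 16777840) (l 14))) (b (a (l 16776312) (a (a (l 161229046759) (l 328732770695)) (l 3))) (a (a (l 16776480) (a (l 16776952) (l 210621171143))) (l 374903670407)))))) (a (a (b (l 16778112) (a (b (l 16777768)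 (b (a (l 180556399767) (l 349670736423)) (l 3))) (b (b (l 156934079687) (c (l 326048416279) (l 330880254471))) (l 3)))) (a (b (a (l 119353115863) (b (l 16776104) (b (l 16776824) (l 221358589463)))) (a (b (l 357186929639) (l 3)) (l 3))) (b (b (l 16777888) (b (a (l 170892723255) (l 338933318103)) (l 3))) (l 3)))) (a (b (b (a (b (l 149417886839) (a (l 216526751207) (l 374903669511))) (b (l 346449511143) (l 3))) (l 3)) (l 3)) (l 3)))))))), by decide +kernel⟩

def k6_mm_202_s : ∃ t, chk3 f_mm_202_s t 60 35 1 = true :=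
  ⟨(a (b (b (l 16751288) (l 16754984)) (a (b (l 16756456) (l 16760168)) (b (l 16781968) (l 16764656)))) (b (a (b (l 16758056) (l 16782824)) (b (l 16783712) (l 16766488))) (a (b (l 16765552) (l 16779720)) (b (l 16775456) (b (l 16778224) (b (l 16778296) (a (l 16774104) (a (l 16775872) (a (l 16778072) (a (l 189683206135) (l 327122158151))))))))))), by decide +kernel⟩

def k7_mm_202_s : ∃ t, chk3 f_mm_202_s t 122 35 1 = true :=
  ⟨(b (a (b (l 16777944) (l 16776464)) (b (b (l 16776560) (l 16778456)) (a (b (l 16773888) (b (l 16777920) (b (l 123111212343) (a (l 16778480) (a (l 16776768) (l 311016030519)))))) (b (a (l 16777672) (a (b (l 16776152) (a (l 152639112599) (b (l 16777016) (l 348060123671)))) (b (l 142975436151) (b (l 327122158071) (l 3))))) (a (a (b (l 147270403639) (a (l 341617672967) (l 3))) (b (b (l 201494365767) (l 360945025927)) (l 3))) (l 3)))))) (a (b (a (l 16778344) (b (c (l 16777904) (l 16777784)) (b (a (l 16776016) (a (l 158544693079) (b (l 221895460583) (l 3)))) (a (a (l 16777960)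 (b (l 16777840) (l 328732770839))) (l 366850606967))))) (b (b (b (a (l 16778464) (a (a (l 305110450407) (l 3)) (l 3))) (a (a (l 16775712) (l 160692176791)) (l 3))) (a (a (l 16777712) (a (a (l 181093271447) (l 319069094343)) (l 368998090103))) (l 3))) (a (a (b (a (l 170355853367) (c (l 331953996615) (l 336248963879))) (l 376514283591)) (l 3)) (l 3)))) (b (a (b (b (a (c (l 143512307367) (l 139217339991)) (a (b (l 212231784055) (l 370608702439)) (l 3))) (a (a (b (l 16777616) (l 319605965223)) (l 355039446183)) (l 3))) (l 3)) (l 3)) (l 3)))), by decide +kernel⟩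

def k8_mm_202_s : ∃ t, chk3 f_mm_202_s t 123 35 1 = true :=
  ⟨(b (a (b (a (b (l 16777600) (a (a (l 16777272) (b (l 16776096) (a (l 146196661559) (b (l 16776960) (l 336248963511))))) (a (b (l 136532985111) (a (b (l 214379267543) (l 3)) (l 375440540855))) (b (b (l 171429594503) (l 343765156551)) (l 3))))) (a (a (b (b (l 16776048) (a (l 142975435815) (b (l 16776912) (l 324974674263)))) (b (l 372756186567) (l 3))) (b (b (l 130627404983) (b (a (l 204178720071) (l 360408154759)) (l 3))) (l 3))) (b (b (a (b (l 163913401639) (l 335712092775)) (l 366850606455)) (l 3)) (l 3)))) (b (b (a (a (a (b (l 178945787367) (l 352355091239)) (l 376514283047)) (l 3)) (l 3)) (l 3)) (l 3))) (l 3)) (l 3)), by decide +kernel⟩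

def k9_mm_202_s : ∃ t, chk3 f_mm_202_s t 31 17 1 = true :=
  ⟨(a (b (a (b (l 14) (b (b (l 14) (b (l 14) (l 3))) (l 3))) (l 3)) (l 3)) (l 3)), by decide +kernel⟩

def k10_mm_202_s : ∃ t, chk3 f_mm_202_s t 14 18 1 = true :=
  ⟨(a (b (a (b (l 16709480) (l 16716216)) (b (l 16744408) (l 16730416))) (a (l 16768856) (b (l 16736928) (a (l 16739688) (l 16746960))))) (b (a (b (l 16738392) (a (l 16741416) (l 16749176))) (a (b (b (l 16748704) (l 16752192)) (a (l 16776240) (l 16780656))) (b (b (l 16778088) (l 16781832)) (b (l 16785280) (l 16778320))))) (a (b (a (l 16748016) (a (l 16774848) (l 16779160))) (a (l 16786072) (l 16762752))) (a (b (l 16774872) (a (l 16779584) (b (l 16776944) (a (l 16779296) (b (l 16778008) (a (l 162302790743) (a (b (l 16778280) (l 368461219095)) (l 346449511943)))))))) (b (b (a (l 16779616) (a (l 16772440) (b (l 16779032) (l 131164276935)))) (a (l 16777856) (a (b (l 16777688) (a (l 145122920759) (b (l 174113950247) (l 341080802535)))) (a (b (a (l 16778104) (b (l 16776584) (l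 316921610727))) (l 370071833255)) (b (a (b (l 186998851815) (l 3)) (l 360945026999)) (l 3)))))) (a (b (a (b (l 16774120) (c (l 145659791959) (l 143512308279))) (a (b (l 16775776) (b (l 184851368967) (l 356113188391))) (b (a (l 155323468151) (b (l 16776728) (l 336248963879))) (l 377588026327)))) (a (b (a (a (l 166597757623) (b (l 16776888) (l 356650058871))) (b (l 333564609543) (l 3))) (l 3)) (l 3))) (b (a (a (b (a (b (l 222432332487) (l 3)) (l 373829929191)) (l 3)) (l 3)) (l 3)) (l 3)))))))), by decide +kernel⟩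

def k11_mm_202_s : ∃ t, chk3 f_mm_202_s t 28 19 1 = true :=
  ⟨(b (a (l 16738376) (a (b (l 16745768) (l 16772608)) (b (l 16774136) (l 16759552)))) (b (a (l 16788768) (a (l 16779264) (l 16781968))) (a (b (l 16794320) (l 16797936)) (a (l 16775632) (a (l 16780184) (b (l 16778608) (a (a (l 16777744) (b (l 16775320) (b (l 16776528) (l 307794804919)))) (a (b (l 16778304) (c (l 344302028407) (l 346986382919))) (b (b (l 182703884695) (l 347523253415)) (l 3)))))))))), by decide +kernel⟩

def k12_mm_202_s : ∃ t, chk3 f_mm_202_s t 29 19 1 = true :=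
  ⟨(b (a (a (b (l 16761184) (l 16778232)) (b (b (l 16778288) (a (l 16769048) (l 16778560))) (a (b (l 16777664) (a (l 133311761271) (a (b (l 16775512) (b (l 16778128) (l 333564609447))) (b (l 167671499783) (l 364703123783))))) (b (a (a (l 16777736) (b (l 16775336) (b (l 16779256) (l 316384739863)))) (a (b (l 156934081175) (l 351818221511)) (b (b (l 188609465191) (l 359871284775)) (l 3)))) (a (a (b (b (l 295446773783) (l 378661767063)) (l 3)) (l 3)) (l 3)))))) (a (b (a (b (a (l 16773144) (b (l 16774456) (c (a (l 16775680) (l 170892725559)) (l 155860340263)))) (a (b (l 141364824519) (a (b (l 16776456) (l 300278612119)) (b (l 321216578215) (l 3)))) (b (a (b (l 176798304615) (l 342691415223)) (l 371145574999)) (l 3)))) (b (a (a (b (l 16778720) (b (l 305647321399) (l 3))) (b (b (l 16778080) (l 326585287495)) (l 3))) (a (b (l 359334414599) (l 3)) (l 3))) (l 3))) (a (b (a (b (l 382419865687) (l 3)) (l 3)) (l 3)) (l 3))) (l 3))) (a (a (b (a (b (l 16770696) (a (l 16773096) (b (l 16774328) (l 156934081831))))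 (b (a (l 16779120) (b (l 16780400) (a (l 16778480) (b (l 184314497527) (l 351818220855))))) (a (a (b (l 16775904) (b (l 222969203895) (l 371145574103))) (b (b (l 16776552) (l 309942288695)) (l 3))) (b (c (a (l 345912641287) (l 3)) (l 359871286119)) (l 3))))) (a (b (a (b (l 16778224) (a (l 176798305911) (b (l 308331675879) (l 3)))) (b (a (b (l 16778064) (l 328195900135)) (l 360408156311)) (l 3))) (a (b (l 379735510743) (l 3)) (l 3))) (l 3))) (b (a (b (a (b (a (b (l 16776344) (l 223506074967)) (a (b (l 196125657767) (l 3)) (l 364703123399))) (l 380809252711)) (l 3)) (l 3)) (l 3)) (l 3))) (l 3))), by decide +kernel⟩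

def k13_mm_202_s : ∃ t, chk3 f_mm_202_s t 30 18 1 = true :=
  ⟨(a (b (a (b (b (l 16776528) (a (l 16767384) (l 16777152))) (a (b (l 16776200) (a (l 16778624) (b (l 16774752) (a (l 16778584) (b (l 153175983927) (a (l 215453010567) (l 363092509959))))))) (b (a (b (l 16778704) (l 16777872)) (a (b (l 16775176) (b (l 16777832) (a (l 182703884567) (l 345375769591)))) (b (b (l 16775872) (l 160692177111)) (a (b (l 305110450487) (l 3)) (l 3))))) (a (a (b (b (l 16776016) (l 169282112135)) (a (b (l 321216578135) (l 3)) (l 3))) (b (b (a (l 16778192) (l 313163514311)) (l 361481897687)) (l 3))) (l 3))))) (b (a (b (a (l 16776976) (l 16777984)) (a (b (l 16774456) (a (l 16778304) (b (l 16777696) (a (l 169282111415) (l 329806512871))))) (a (a (b (l 16775904) (b (a (l 178408916743) (l 313163514231)) (l 3))) (b (l 145659791479) (l 370071832775))) (b (a (b (l 16776616) (l 321753449063)) (b (a (l 169818982023) (l 304036708599)) (l 3))) (l 3))))) (b (b (a (c (l 128479922183) (l 124184954839)) (a (a (b (l 16776488)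 (a (l 214379268231) (l 335712092855))) (b (l 176798304439) (l 3))) (a (b (l 341080802215) (l 3)) (l 3)))) (a (b (a (l 16776256) (a (l 183777626407) (l 348060124199))) (a (a (l 156934080103) (a (l 299204870327) (l 344838898487))) (l 3))) (l 3))) (a (a (b (b (l 362018768647) (l 3)) (l 3)) (l 3)) (l 3)))) (a (b (a (b (a (b (a (l 16778056) (a (l 187535722359) (l 322827190775))) (l 349133866439)) (l 375977413543)) (l 3)) (l 3)) (l 3)) (l 3)))) (a (b (a (b (b (b (a (l 16775592) (a (a (l 171966465911) (l 329806512871)) (l 3))) (a (a (l 16775912) (l 180556401575)) (l 380272381095))) (a (a (b (l 162302789879) (a (l 307794805063) (l 3))) (c (l 357186931095) (l 362018769239))) (l 3))) (l 3)) (l 3)) (l 3)) (l 3))) (l 3)), by decide +kernel⟩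

def k14_mm_202_s : ∃ t, chk3 f_mm_202_s t 31 18 1 = true :=
  ⟨(l 3), by decide +kernel⟩

def k15_mm_202_s : ∃ t, chk3 f_mm_202_s t 15 19 1 = true :=
  ⟨(l 3), by decide +kernel⟩

def k16_mm_202_s : ∃ t, chk3 f_mm_202_s t 12 10 1 = true :=
  ⟨(b (a (b (l 16688832) (l 16693432)) (b (l 16700624) (l 16732168))) (a (b (l 16701232) (l 16708512)) (l 16807440))), by decide +kernel⟩

def k17_mm_202_s : ∃ t, chk3 f_mm_202_s t 13 20 1 = true :=
  ⟨(a (b (l 16720584) (l 16730848)) (b (a (l 16737112) (b (l 16788312) (l 16795312))) (a (b (l 16766672) (l 16794152)) (b (l 16790768) (a (l 16761448) (l 16778560)))))), by decide +kernel⟩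

def k18_mm_202_s : ∃ t, chk3 f_mm_202_s t 13 21 1 = true :=
  ⟨(a (b (a (l 16735488) (b (l 16744480) (l 16771352))) (a (l 16786680) (b (l 16776312) (l 16759768)))) (a (b (b (l 16757648) (l 16783528)) (a (b (l 16764464) (l 16780264)) (b (a (l 16769432) (b (l 16771456) (l 161765920231))) (a (b (l 16778824) (a (b (l 16774832) (l 190756949559)) (a (b (l 16776176) (l 327122158631)) (b (a (l 198810012551) (l 302426095719)) (l 3))))) (b (a (a (l 178945789239) (b (l 16775936) (a (l 235317235399) (l 332490867703)))) (b (a (l 202568109591) (a (l 321753449095) (l 364703123351))) (l 386714832903))) (a (b (l 362555640967) (l 3)) (l 3))))))) (b (a (b (l 16766936) (a (l 16770728) (b (l 16772736) (a (l 16774672) (b (l 16775696) (a (l 193441303591) (b (l 241222814887) (l 381346121591)))))))) (b (a (l 16777872) (b (l 16779248) (a (a (l 16778152) (b (l 16775688) (b (l 16778088) (l 329806512743)))) (a (b (l 184314497671) (l 362555639831)) (b (b (l 206863076103) (l 368461219367)) (l 3)))))) (a (b (a (b (l 16774608)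 (l 175187692039)) (a (b (l 16775912) (b (l 200420624903) (l 353965704439))) (b (l 196125658551) (l 380809251463)))) (a (b (a (b (l 16776656) (l 316921610551)) (a (l 342691415191) (l 385641089383))) (l 3)) (l 3))) (b (a (a (b (b (l 311552901271) (l 3)) (l 3)) (l 3)) (l 3)) (l 3))))) (a (b (a (b (a (l 16774024) (b (l 16775048) (c (l 196125658775) (l 191293820535)))) (a (b (l 183240756151) (a (a (l 203104980039) (l 311552901431)) (l 360945027223))) (a (b (a (l 301889224711) (l 343228286167)) (l 3)) (l 388325446583)))) (b (a (a (b (l 16778992) (c (l 343228286455) (l 344302028247))) (b (a (l 206863076615) (l 322290319911)) (l 3))) (b (l 377588026919) (l 3))) (l 3))) (l 3)) (l 3))))), by decide +kernel⟩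

def k19_mm_202_s : ∃ t, chk3 f_mm_202_s t 12 11 1 = true :=
  ⟨(b (a (l 16718880) (b (a (l 16730208) (l 16741272)) (a (l 16737480) (b (l 16748464) (l 16753000))))) (a (b (a (l 16723696) (l 16733584)) (a (l 16731792) (l 16745224))) (a (b (l 16768288) (b (l 16755888) (l 16783472))) (b (a (l 16778664) (b (l 16762232) (l 16778992))) (a (b (l 16788296) (a (b (l 16770384) (l 16778968)) (b (l 177872048583) (b (a (l 16775848) (l 314237257015)) (l 333027740535))))) (b (a (b (l 16771536) (c (l 191830693255) (l 16780112))) (b (c (l 203104984199) (l 197199403943)) (a (b (l 231022269735) (l 368461221431)) (l 3)))) (a (b (a (b (l 205252464439) (l 336785836087)) (l 361481900791)) (l 3)) (l 3)))))))), by decide +kernel⟩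

def k20_mm_202_s : ∃ t, chk3 f_mm_202_s t 13 11 1 = true :=
  ⟨(b (a (b (a (b (l 16752088) (l 16756504)) (a (l 16785048) (b (l 16778816) (a (l 16779984) (b (l 174650823495) (a (b (l 16775816) (c (l 299741741303) (l 300278612183))) (b (c (l 316921611351) (l 317995353143)) (l 3)))))))) (a (b (l 16782776) (a (l 16763816) (a (l 16769440) (b (l 16771696) (l 184314501351))))) (a (b (a (l 16781360) (b (l 16773096) (a (l 16777888) (b (l 16779208) (l 327659030311))))) (a (b (a (l 16774576) (b (l 16775712) (l 294909902983))) (a (b (l 224042948055) (l 369534963079)) (l 380809255063))) (b (a (b (l 311016031159) (l 3)) (l 3)) (l 3)))) (b (a (b (a (l 195588790023) (b (l 278803775383) (l 373829930471))) (a (l 366313738871) (l 3))) (b (l 385641095847) (l 3))) (l 3))))) (b (a (a (b (a (a (l 16777992) (b (l 16773088) (a (l 16778216) (b (l 16775752) (l 297057386535))))) (b (a (l 16780136) (b (l 16778592) (a (l 224579817543) (l 345912641319)))) (a (b (a (l 16778840) (l 321216578439)) (l 380809252567)) (l 3))))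 (a (b (a (b (l 204178722935) (l 334101481431)) (b (l 352891964247) (l 3))) (l 3)) (l 3))) (b (a (a (b (a (b (l 302962966695) (l 3)) (l 378124898935)) (l 3)) (l 3)) (l 3)) (l 3))) (l 3)) (l 3))) (a (a (b (a (b (a (l 16767968) (l 16779736)) (a (b (l 16772800) (a (l 16779112) (b (l 16779000) (l 325511546711)))) (b (a (l 197736273607) (b (l 225653560711) (l 366850608535))) (a (l 361481900615) (l 3))))) (b (a (b (l 16779440) (a (l 214379273351) (b (l 308331676599) (l 3)))) (b (a (b (l 16778992) (l 323900933879)) (l 363092513319)) (l 3))) (a (b (l 378124902887) (l 3)) (l 3)))) (a (b (a (b (a (b (l 310479160375) (l 3)) (l 3)) (l 3)) (l 3)) (l 3)) (l 3))) (l 3)) (l 3))), by decide +kernel⟩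

def k21_mm_202_s : ∃ t, chk3 f_mm_202_s t 28 40 1 = true :=
  ⟨(a (a (b (l 16757128) (l 16763248)) (b (l 16764160) (a (l 16768552) (b (l 16770664) (l 16778944))))) (a (b (a (l 16780208) (b (l 16771952) (a (l 16774136) (a (l 154249727191) (b (l 16775760) (b (l 186998851975) (l 347523253367))))))) (a (b (a (l 16773448) (b (l 16774552) (l 167134628983))) (a (b (l 16778344) (a (l 186461982231) (b (l 310479159463) (l 3)))) (b (a (b (l 16778072) (l 329806512791)) (l 362018768951)) (l 3)))) (b (a (a (b (l 16775976) (b (l 199883754631) (l 370071832167))) (b (b (l 16776552) (l 308868546711)) (l 387788573687))) (a (a (b (l 336248964071) (l 3)) (l 385104220167)) (l 3))) (l 3)))) (b (a (b (a (l 16778792) (b (l 160155307191) (a (b (l 16778056) (l 326585287319)) (l 359871285303)))) (a (b (a (l 182167014871) (b (l 307794804887) (l 386177960007))) (l 380272381607)) (l 3))) (b (a (a (b (b (l 196662528983) (l 368461219447)) (l 3)) (l 3)) (l 3)) (l 3))) (l 3)))), by decide +kernel⟩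

def k22_mm_202_s : ∃ t, chk3 f_mm_202_s t 28 41 1 = true :=
  ⟨(a (a (b (a (l 16767456) (l 16781432)) (a (b (l 16771784) (a (l 16773768) (b (l 16774808) (c (l 180556401591) (l 176261434375))))) (b (a (l 16774416) (a (l 166060887287) (b (l 16775920) (b (l 197736270407) (l 359871284535))))) (a (a (b (l 16776136) (b (l 244980911271) (l 385641088887))) (b (b (l 16776672) (l 322290319719)) (l 3))) (b (c (a (l 356650059559) (l 3)) (l 368461220775)) (l 3)))))) (b (a (b (l 16778288) (a (l 154786598103) (b (l 171966467335) (a (b (l 16778128) (l 335712092919)) (l 367387478167))))) (b (a (a (l 16777928) (b (l 16775480) (b (l 16776600) (l 313163514071)))) (a (b (l 16778376) (c (l 350207608455) (l 351281350247))) (b (b (l 190756948423) (l 351818220711)) (l 3)))) (a (a (b (b (l 234243493047) (l 375977412295)) (l 3)) (l 3)) (l 3)))) (a (b (a (b (a (l 192904433143) (b (l 317458481431) (l 3))) (l 388325445463)) (l 3)) (l 3)) (l 3)))) (a (b (a (b (a (b (l 383493607127) (l 3)) (l 3)) (l 3)) (l 3)) (l 3)) (l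 3))), by decide +kernel⟩

def k23_mm_202_s : ∃ t, chk3 f_mm_202_s t 28 21 1 = true :=
  ⟨(a (b (a (b (a (b (a (b (l 16778536) (a (b (l 16776544) (l 306721062935)) (a (l 334638351191) (l 379735509047)))) (b (a (b (l 16778216) (l 344302027719)) (l 373829929319)) (l 3))) (a (b (l 389936058439) (l 3)) (l 3))) (l 3)) (l 3)) (l 3)) (l 3)) (l 3)), by decide +kernel⟩

def k24_mm_202_s : ∃ t, chk3 f_mm_202_s t 29 10 1 = true :=
  ⟨(l 3), by decide +kernel⟩

def k25_mm_202_s : ∃ t, chk3 f_mm_202_s t 15 10 1 = true :=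
  ⟨(l 3), by decide +kernel⟩

def k26_mm_202_s : ∃ t, chk3 f_mm_202_s t 7 11 1 = true :=
  ⟨(l 3), by decide +kernel⟩

def k27_mm_202_s : ∃ t, chk3 f_mm_202_s t 3 3 1 = true :=
  ⟨(b (a (b (a (b (a (a (b (l 16744472) (l 16778072)) (b (l 16778688) (a (b (l 16763952) (l 16780784)) (b (l 175724567335) (a (b (l 16773928) (l 277730033559)) (b (a (l 222969207111) (l 323364063895)) (l 355039453095))))))) (a (b (a (b (l 16765328) (b (l 16770264) (l 189146341271))) (b (a (l 16781464) (b (l 16773168) (a (l 16780768) (l 293299290471)))) (a (b (l 212768661559) (l 334638354839)) (b (l 350207612743) (l 3))))) (a (b (a (b (l 16780128) (a (l 236390981319) (l 342154547191))) (b (a (l 296520516391) (l 358260675943)) (l 3))) (l 3)) (l 3))) (b (a (a (b (b (b (l 211694917879) (l 312626644375)) (l 365776870663)) (l 3)) (l 3)) (l 3)) (l 3)))) (a (b (a (a (l 16787520) (b (l 16769768) (a (l 195051920535) (b (l 207399950743) (l 311552904007))))) (a (b (a (b (l 16773152) (l 215453015639)) (b (l 224579822439) (l 337322710343)))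 (b (l 337859584263) (l 3))) (b (a (l 352355100903) (l 3)) (l 3)))) (a (a (b (a (l 16773496) (b (l 16775024) (l 290078065175))) (a (b (l 279340646359) (l 337322711463)) (l 3))) (b (a (b (l 300815484551) (l 3)) (l 3)) (l 3))) (l 3))) (l 3))) (l 3)) (l 3)) (l 3)) (l 3)), by decide +kernel⟩

theorem s28_mm_202_s : ∃ t, chk3 f_mm_202_s t 28 20 1 = true := ex3_b k21_mm_202_s k22_mm_202_s

theorem s29_mm_202_s : ∃ t, chk3 f_mm_202_s t 28 10 1 = true := ex3_b s28_mm_202_s k23_mm_202_s

theorem s30_mm_202_s : ∃ t, chk3 f_mm_202_s t 14 10 1 = true := ex3_a s29_mm_202_s k24_mm_202_s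

theorem s31_mm_202_s : ∃ t, chk3 f_mm_202_s t 7 10 1 = true := ex3_a s30_mm_202_s k25_mm_202_s

theorem s32_mm_202_s : ∃ t, chk3 f_mm_202_s t 7 5 1 = true := ex3_b s31_mm_202_s k26_mm_202_s

theorem s33_mm_202_s : ∃ t, chk3 f_mm_202_s t 6 11 1 = true := ex3_a k19_mm_202_s k20_mm_202_s

theorem s34_mm_202_s : ∃ t, chk3 f_mm_202_s t 13 10 1 = true := ex3_b k17_mm_202_s k18_mm_202_s

theorem s35_mm_202_s : ∃ t, chk3 f_mm_202_s t 6 10 1 = true := ex3_a k16_mm_202_s s34_mm_202_s

theorem s36_mm_202_s : ∃ t, chk3 f_mm_202_s t 6 5 1 = true := ex3_b s35_mm_202_s s33_mm_202_s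

theorem s37_mm_202_s : ∃ t, chk3 f_mm_202_s t 3 5 1 = true := ex3_a s36_mm_202_s s32_mm_202_s

theorem s38_mm_202_s : ∃ t, chk3 f_mm_202_s t 15 18 1 = true := ex3_a k13_mm_202_s k14_mm_202_s

theorem s39_mm_202_s : ∃ t, chk3 f_mm_202_s t 15 9 1 = true := ex3_b s38_mm_202_s k15_mm_202_s

theorem s40_mm_202_s : ∃ t, chk3 f_mm_202_s t 14 19 1 = true := ex3_a k11_mm_202_s k12_mm_202_s

theorem s41_mm_202_s : ∃ t, chk3 f_mm_202_s t 14 9 1 = true := ex3_b k10_mm_202_s s40_mm_202_s

theorem s42_mm_202_s : ∃ t, chk3 f_mm_202_s t 7 9 1 = true := ex3_a s41_mm_202_s s39_mm_202_s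

theorem s43_mm_202_s : ∃ t, chk3 f_mm_202_s t 61 35 1 = true := ex3_a k7_mm_202_s k8_mm_202_s

theorem s44_mm_202_s : ∃ t, chk3 f_mm_202_s t 30 35 1 = true := ex3_a k6_mm_202_s s43_mm_202_s

theorem s45_mm_202_s : ∃ t, chk3 f_mm_202_s t 30 17 1 = true := ex3_b k5_mm_202_s s44_mm_202_s

theorem s46_mm_202_s : ∃ t, chk3 f_mm_202_s t 15 17 1 = true := ex3_a s45_mm_202_s k9_mm_202_s

theorem s47_mm_202_s : ∃ t, chk3 f_mm_202_s t 15 8 1 = true := ex3_b k4_mm_202_s s46_mm_202_s

theorem s48_mm_202_s : ∃ t, chk3 f_mm_202_s t 7 8 1 = true := ex3_a k3_mm_202_s s47_mm_202_s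

theorem s49_mm_202_s : ∃ t, chk3 f_mm_202_s t 7 4 1 = true := ex3_b s48_mm_202_s s42_mm_202_s

theorem s50_mm_202_s : ∃ t, chk3 f_mm_202_s t 3 4 1 = true := ex3_a k2_mm_202_s s49_mm_202_s

theorem s51_mm_202_s : ∃ t, chk3 f_mm_202_s t 3 2 1 = true := ex3_b s50_mm_202_s s37_mm_202_s

theorem s52_mm_202_s : ∃ t, chk3 f_mm_202_s t 3 1 1 = true := ex3_b s51_mm_202_s k27_mm_202_s

theorem s53_mm_202_s : ∃ t, chk3 f_mm_202_s t 2 1 1 = true := ex3_b k0_mm_202_s k1_mm_202_s

theorem s54_mm_202_s : ∃ t, chk3 f_mm_202_s t 1 1 1 = true := ex3_a s53_mm_202_s s52_mm_202_s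

theorem c_mm_202_s : CertNE 0 536870912 1073741824 536870912 536870912 50465866 3 eng mog cd0q2 cd6q2 pd0 false false false .pp 2 0 2
    ndB0q2 ndB6q2 pcB0 cut_mm_202_s Ext.none :=
  certNE1 (fam := false) (s1 := false) (s2 := false) (a := 2) (b := 0) (c := 2) (cn := .pp) (n1 := ndB0q2) (n2 := ndB6q2) (pc := pcB0) (cut := cut_mm_202_s) (xt := Ext.none) (P1 := 0) (W1 := 536870912) (P2 := 1073741824) (W2 := 536870912) (P3 := 536870912) (W3 := 50465866) (N0 := 3) (En := eng) (mo := mog) (C1 := cd0q2) (C2 := cd6q2) (C3 := pd0)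
    rfl (fun _ => rfl) s54_mm_202_s

noncomputable def cut_mm_203_s : Cut := Cut.of [[⟨4, 0, 0, 1449551462⟩]]

noncomputable def f_mm_203_s : ℕ → ℕ → ℕ → ℕ → Bool := onCell 0 536870912 0 1230186008 536870912 50465866
    (rowNE 3 eng mog cd0q2 cd6q3 pd0 0 false false false .up 2 0 3 (qsf 0 536870912 0 1230186008 0) ndB0q2 ndB6q3 pcB0 cut_mm_203_s Ext.none)

def k0_mm_203_s : ∃ t, chk3 f_mm_203_s t 1 1 1 = true :=
  ⟨(b (l 2) (b (l 2) (a (b (a (b (l 2) (b (l 2) (a (a (b (l 16762560) (l 16767592)) (b (l 16768040) (l 16767048))) (a (a (b (a (l 16774224) (l 257328959511)) (l 16771984)) (b (l 343765158343) (b (l 301352354487) (l 226727316599)))) (l 3))))) (l 3)) (a (b (a (a (l 16794648) (b (b (l 16770368) (l 16776848)) (b (l 16785632) (l 16790160)))) (b (a (b (a (l 16770664) (l 16773648)) (l 16773120)) (a (b (b (l 321753450583) (l 255718358439)) (b (l 217600504519) (l 16775056))) (b (l 3) (a (b (l 328195901591) (l 235854117319)) (l 345912644295))))) (a (b (l 16779168) (l 16781416)) (a (l 16797688)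 (b (b (l 239612219687) (l 16776376)) (l 16777096)))))) (a (b (l 16794616) (l 16777064)) (b (a (b (l 16783312) (l 16782792)) (b (l 16781552) (l 16779816))) (a (l 16772312) (b (l 16775256) (l 16768472)))))) (b (a (b (l 3) (a (a (b (a (b (l 363092513159) (l 293299290327)) (l 3)) (a (l 16787384) (b (l 302962968647) (l 16777200)))) (b (l 3) (a (b (l 3) (l 313163517111)) (l 3)))) (l 3))) (l 3)) (a (b (a (b (a (l 16777608) (b (a (l 235854118183) (l 322827194871)) (l 232096025271))) (a (l 16778432) (l 16777496))) (a (b (b (l 3) (l 352355101079)) (a (b (l 257328939639) (l 16777208)) (b (l 353965711383) (l 290614956455)))) (l 3))) (a (a (b (l 16777968) (l 16770040)) (b (l 16776896) (l 16773904))) (b (a (b (l 16782344) (l 16776584)) (a (b (a (l 260550164551) (l 320142840711)) (l 227264180775)) (b (l 3) (a (l 293836161575) (l 332490873703))))) (a (l 16774536) (a (l 16775672) (b (l 233169763191) (l 16775784))))))) (b (l 3) (a (b (l 3) (a (a (b (l 311552928903) (l 245517800007)) (b (l 3) (l 318532232055)))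 (l 3))) (l 3))))))) (l 3)))), by decide +kernel⟩

theorem c_mm_203_s : CertNE 0 536870912 0 1230186008 536870912 50465866 3 eng mog cd0q2 cd6q3 pd0 false false false .up 2 0 3
    ndB0q2 ndB6q3 pcB0 cut_mm_203_s Ext.none :=
  certNE0 (fam := false) (s1 := false) (s2 := false) (a := 2) (b := 0) (c := 3) (cn := .up) (n1 := ndB0q2) (n2 := ndB6q3) (pc := pcB0) (cut := cut_mm_203_s) (xt := Ext.none) (P1 := 0) (W1 := 536870912) (P2 := 0) (W2 := 1230186008) (P3 := 536870912) (W3 := 50465866) (N0 := 3) (En := eng) (mo := mog) (C1 := cd0q2) (C2 := cd6q3) (C3 := pd0)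
    rfl k0_mm_203_s

noncomputable def cut_mm_213_s : Cut := Cut.of [[⟨4, 0, 0, 1449551462⟩]]

noncomputable def f_mm_213_s : ℕ → ℕ → ℕ → ℕ → Bool := onCell 0 536870912 0 1230186008 536870912 50465866
    (rowNE 3 eng mog cd0q2 cd6q3 pd1 0 false false false .pnn 2 1 3 (qsf 0 536870912 0 1230186008 1) ndB0q2 ndB6q3 pcB1 cut_mm_213_s Ext.none)

def k0_mm_213_s : ∃ t, chk3 f_mm_213_s t 1 1 1 = true :=
  ⟨(b (a (l 3) (b (l 5) (l 3))) (b (a (b (l 3) (a (l 3) (l 3))) (l 3)) (a (b (a (b (a (a (b (a (b (l 306184191399) (l 237464720087)) (b (l 3) (l 324437801863))) (a (l 16786184) (b (l 246591521159) (l 16782112)))) (b (l 3) (a (b (l 352355089351) (l 281488130807)) (l 3)))) (l 3)) (b (a (a (b (l 16788944) (l 16795488)) (a (b (l 219211123591) (l 16784472)) (b (a (l 278803776087) (l 335712092423)) (l 225653581975)))) (a (a (b (l 3) (a (l 299741741911) (l 3))) (l 3)) (l 3))) (b (a (a (l 16802472) (l 16787368)) (a (a (a (l 16779840) (l 246054670471)) (l 334101481543)) (l 3))) (l 1)))) (l 3)) (a (l 1) (b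 (a (l 1) (l 3)) (l 1)))) (l 3)))), by decide +kernel⟩

theorem c_mm_213_s : CertNE 0 536870912 0 1230186008 536870912 50465866 3 eng mog cd0q2 cd6q3 pd1 false false false .pnn 2 1 3
    ndB0q2 ndB6q3 pcB1 cut_mm_213_s Ext.none :=
  certNE0 (fam := false) (s1 := false) (s2 := false) (a := 2) (b := 1) (c := 3) (cn := .pnn) (n1 := ndB0q2) (n2 := ndB6q3) (pc := pcB1) (cut := cut_mm_213_s) (xt := Ext.none) (P1 := 0) (W1 := 536870912) (P2 := 0) (W2 := 1230186008) (P3 := 536870912) (W3 := 50465866) (N0 := 3) (En := eng) (mo := mog) (C1 := cd0q2) (C2 := cd6q3) (C3 := pd1)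
    rfl k0_mm_213_s

end Pool.Agent.Strip051.G.I5000_5470.Tab.CS.BB06

namespace Pool.Agent.Strip051.G.I5000_5470.Tab.CS.BB60

open Pool.Agent.Strip051.PB Pool.Agent.Strip051.PB.T
open Pool.Agent.Strip051.G.I5000_5470.Tab

noncomputable def cut_pp_001_s : Cut := Cut.of [[⟨4, 0, 0, 1449551462⟩]]

noncomputable def f_pp_001_s : ℕ → ℕ → ℕ → ℕ → Bool := onCell 0 536870912 536870912 536870912 536870912 50465866
    (rowNE 3 eng mog cd6q0 cd0q1 pd0 2 false true true .up 0 0 1 (qsf 0 536870912 536870912 536870912 0) ndB6q0 ndB0q1 pcB0 cut_pp_001_s Ext.none)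

def k0_pp_001_s : ∃ t, chk3 f_pp_001_s t 2 1 1 = true :=
  ⟨(b (l 3) (b (b (l 3) (l 2)) (l 2))), by decide +kernel⟩

def k1_pp_001_s : ∃ t, chk3 f_pp_001_s t 6 2 1 = true :=
  ⟨(l 3), by decide +kernel⟩

def k2_pp_001_s : ∃ t, chk3 f_pp_001_s t 7 4 1 = true :=
  ⟨(l 3), by decide +kernel⟩

def k3_pp_001_s : ∃ t, chk3 f_pp_001_s t 14 10 1 = true :=
  ⟨(l 3), by decide +kernel⟩

def k4_pp_001_s : ∃ t, chk3 f_pp_001_s t 28 11 1 = true :=
  ⟨(b (l 3) (b (a (l 3) (b (l 3) (a (l 3) (b (l 3) (a (l 3) (b (l 3) (a (l 3) (b (l 433959469495) (a (l 362555637879) (l 16776768)))))))))) (a (b (l 3) (a (l 3) (b (a (l 3) (b (l 3) (a (l 3) (c (l 446307501287) (l 454897435303))))) (a (a (l 3) (b (l 3) (a (l 438254437143) (b (l 454897435175) (l 177872046503))))) (b (a (c (b (l 3) (a (l 3) (l 332490866775))) (l 411947762183)) (a (b (l 370608701655) (l 16776600)) (l 100025763607))) (a (a (b (l 211158043767) (l 16776232)) (l 16775952)) (l 16774824))))))) (b (a (b (l 3) (a (l 3) (b (a (l 3) (a (l 493552141079) (b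 (l 3) (l 257328941303)))) (a (a (l 432885727831) (b (l 439865049479) (l 151565371511))) (a (b (l 185925110663) (l 16776208)) (l 16775944)))))) (b (a (b (l 494089012567) (a (c (b (l 3) (l 418390213207)) (l 447381242343)) (b (a (l 423758922039) (l 166060886455)) (l 102173247303)))) (b (a (a (b (l 3) (l 200420625447)) (b (l 272361328311) (l 16776480))) (l 16775896)) (l 16777536))) (a (a (a (b (b (l 344838897751) (l 16776536)) (l 16775248)) (l 54391736007)) (l 16774400)) (l 16772400)))) (a (b (a (b (a (l 3) (a (b (l 3) (l 271287586311)) (b (l 360408154263) (l 16776576)))) (a (c (b (a (l 448454984311) (l 200957496183)) (l 129553664455)) (l 199346886439)) (l 16775592))) (a (c (l 61907929047) (l 16774768)) (l 16773656))) (a (l 16778800) (l 16770712))) (l 16773696)))))), by decide +kernel⟩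

def k5_pp_001_s : ∃ t, chk3 f_pp_001_s t 29 22 1 = true :=
  ⟨(b (l 3) (a (l 3) (b (a (l 3) (b (a (l 3) (b (l 3) (a (l 3) (l 492478398791)))) (a (a (l 3) (a (l 528448750151) (b (l 3) (b (l 3) (l 253570846695))))) (b (a (c (l 455434306055) (l 461339885623)) (a (b (l 411947761767) (l 16776888)) (l 16778656))) (a (a (b (l 285246231047) (l 16776712)) (l 16776512)) (l 16775776)))))) (a (b (a (l 3) (b (l 3) (a (l 3) (b (l 437180694759) (a (l 301889229607) (l 16776832)))))) (a (b (l 510195139383) (b (a (l 3) (a (l 447918112967) (l 164450274183))) (a (l 444160016679) (l 95193926119)))) (b (a (c (b (l 385641085895) (l 138680471015)) (b (l 389399183415) (l 16779448))) (l 16776144)) (l 16775384)))) (b (a (b (b (a (l 489794044199) (c (l 125258698007) (l 16776792))) (a (a (l 434496340119) (l 16778984)) (l 16776264))) (a (l 62981671415) (l 16775344))) (l 16774472)) (a (l 16773960) (l 16771992))))))), by decide +kernel⟩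

def k6_pp_001_s : ∃ t, chk3 f_pp_001_s t 29 23 1 = true :=
  ⟨(b (a (b (a (b (l 3) (a (l 3) (b (l 3) (l 509658268759)))) (b (a (l 3) (b (a (l 3) (c (b (l 3) (l 391009795079)) (l 432885727399))) (a (a (l 479593497015) (b (l 497847107895) (l 170355854247))) (a (b (l 205252464407) (l 16776504)) (l 16776272))))) (a (b (a (l 3) (a (l 428590760263) (b (l 417853341879) (l 16776840)))) (a (a (b (l 3) (l 207399947751)) (b (l 283098747079) (l 16776600))) (l 16776064))) (b (a (c (l 16778424) (l 16776168)) (l 16775168)) (l 16774312))))) (a (b (a (a (l 3) (a (l 3) (b (l 3) (b (l 3) (l 334638349063))))) (b (a (c (l 461876757383) (l 471540433255)) (a (b (l 454360564007) (l 139754211527)) (b (l 173577079719) (l 16776336)))) (a (a (b (l 373293056135) (l 16776688)) (l 16777752)) (l 16775520)))) (a (b (a (a (l 467245466151) (b (l 484962206087) (l 174650821319))) (a (b (l 207936818631) (l 16776416)) (l 16776168))) (a (c (l 82845894887) (l 16776040)) (l 16774920))) (l 16779072))) (a (b (l 16777080) (l 16771424))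 (l 16770632)))) (b (a (b (a (b (a (a (b (l 371145572455) (l 16776736)) (l 16776512)) (l 16775680)) (l 16774872)) (l 16773392)) (l 16776936)) (l 16779496)) (a (l 16767352) (l 16763376)))) (a (a (b (b (l 16777136) (l 16768584)) (l 16763368)) (b (l 16765496) (l 16758712))) (a (l 16757896) (l 16754104)))), by decide +kernel⟩

def k7_pp_001_s : ∃ t, chk3 f_pp_001_s t 15 20 1 = true :=
  ⟨(a (l 3) (b (l 3) (a (l 3) (b (l 3) (a (l 3) (b (a (l 3) (b (l 3) (b (l 3) (a (l 3) (a (l 561734745975) (a (b (l 568177196983) (a (a (l 316921612359) (l 286856840727)) (l 139754210359))) (b (b (l 401210342759) (l 158007821463)) (l 16777096)))))))) (b (a (l 3) (a (c (b (a (l 3) (l 533280587783)) (b (a (l 3) (a (l 467782336519) (l 154249725335))) (a (l 486035947527) (l 92509570359)))) (a (l 544018005655) (b (l 536501812999) (a (l 285783099639) (l 16777080))))) (b (a (a (b (l 512342622151) (b (l 233706620599) (l 16777152))) (a (b (a (l 319069095767) (l 254644585831)) (l 16777104)) (l 72645346215))) (l 16776976)) (l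 16776840)))) (a (a (l 3) (a (a (l 3) (b (l 3) (a (l 492478398407) (b (l 3) (l 204178720263))))) (a (b (l 3) (b (a (l 470466691047) (l 271824455447)) (l 16777120))) (b (a (l 539186167735) (b (l 3) (l 299741743031))) (l 16777064))))) (a (b (a (b (a (a (l 542944264151) (l 311552903415)) (l 114521277559)) (l 68887249911)) (l 16776920)) (l 16776784)) (l 16776464)))))))))), by decide +kernel⟩

def k8_pp_001_s : ∃ t, chk3 f_pp_001_s t 30 21 1 = true :=
  ⟨(b (l 3) (a (l 3) (b (a (l 3) (b (l 3) (a (l 3) (b (l 3) (a (l 3) (l 544554876919)))))) (a (b (l 3) (a (l 3) (b (l 3) (a (l 3) (a (l 511805751351) (b (l 522006298663) (l 176261435063))))))) (b (a (a (l 3) (a (l 3) (b (l 3) (b (l 3) (l 385641085671))))) (b (a (c (l 509658267927) (l 512342621943)) (a (b (l 482277851143) (l 140827954279)) (c (b (l 165524016535) (l 16776856)) (l 107005087207)))) (a (b (a (l 418390212615) (l 113447537175)) (l 16778448)) (l 16776320)))) (a (b (b (a (l 3) (c (a (l 353428832295) (l 16777000)) (l 177872049335))) (a (a (l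 562271617063) (l 273971940727)) (l 16776696))) (a (a (b (l 204715593831) (l 16776768)) (l 16776616)) (l 16776072))) (a (l 16775792) (l 16775104)))))))), by decide +kernel⟩

def k9_pp_001_s : ∃ t, chk3 f_pp_001_s t 62 42 1 = true :=
  ⟨(b (l 3) (a (l 3) (b (a (l 3) (b (a (l 3) (c (b (l 3) (a (l 3) (c (l 448991854679) (l 449528725511)))) (l 512342621831))) (a (a (l 3) (a (l 532743716775) (c (b (l 3) (l 332490865383)) (l 432885727095)))) (c (b (a (a (l 545628618807) (l 370608701463)) (l 106468215063)) (l 54928607175)) (b (a (l 420000825255) (l 16777016)) (l 16776800)))))) (a (b (b (l 3) (a (l 3) (a (l 3) (a (l 420000825319) (a (l 257328941943) (l 16778280)))))) (b (a (l 559587262375) (a (b (l 394231020247) (l 141901695223)) (l 16776920))) (a (a (l 517711331287) (b (l 307257938087) (l 16777744))) (l 16776728)))) (b (a (b (a (a (l 457581789159) (a (l 297057390103) (l 174650821015))) (l 16777648)) (l 16776816)) (l 16776416)) (a (l 16776320) (l 16775768))))))), by decide +kernel⟩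

def k10_pp_001_s : ∃ t, chk3 f_pp_001_s t 63 42 1 = true :=
  ⟨(b (a (a (a (b (l 3) (b (l 3) (c (b (l 3) (l 525227524183)) (l 549386714695)))) (b (l 3) (a (b (l 3) (b (l 525227524007) (a (b (l 457044918247) (l 16777152)) (l 97341408871)))) (b (l 566029713255) (b (a (b (l 510195138519) (l 168745240263)) (c (l 124184954839) (l 16777096))) (l 16776896)))))) (b (b (l 3) (a (l 3) (b (a (l 3) (a (l 487109689287) (b (l 469392949223) (l 135996114263)))) (a (a (c (l 456508047383) (l 458655530903)) (b (l 418927083495) (l 16777136))) (c (l 16777080) (l 16776960)))))) (b (a (a (b (l 3) (a (b (l 570861551575) (l 214379268327)) (b (l 276656294311) (l 16777080)))) (b (b (c (l 434496339991) (l 436106952615)) (a (l 299741743719) (l 16777104))) (l 16776960))) (c (l 16776872) (l 16776584))) (a (l 16776656) (l 16776160))))) (b (a (b (b (b (a (l 575693389671) (a (a (a (l 317458483591) (l 176261432647)) (l 16777104)) (l 16776928))) (a (a (l 3) (a (l 553144811463) (a (l 313700387063) (l 16777832)))) (l 16776920)))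 (a (a (a (l 520395685815) (b (l 519321944023) (l 180019529431))) (a (a (b (l 301352355767) (l 16777096)) (l 16777104)) (l 16777016))) (l 16776720))) (a (c (b (a (c (l 76940314199) (l 16777072)) (l 16776936)) (l 16776832)) (l 16777976)) (l 16776328))) (a (l 16776136) (l 16775704))) (a (c (l 16776184) (l 16775296)) (l 16774848)))) (a (b (a (b (a (a (b (c (l 475298529335) (l 477446012775)) (a (b (l 304036711047) (l 16777088)) (l 16777024))) (a (b (b (l 319069097079) (l 16777120)) (l 16776896)) (l 16777896))) (l 16776584)) (a (l 16776504) (l 16775976))) (l 16775528)) (c (l 16775472) (l 16774112))) (l 16778792))), by decide +kernel⟩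

def k11_pp_001_s : ∃ t, chk3 f_pp_001_s t 31 43 1 = true :=
  ⟨(a (b (a (b (a (l 3) (b (a (l 3) (a (b (l 3) (l 459192401895)) (b (l 488720302055) (a (l 189683207303) (l 16777024))))) (b (a (c (a (l 3) (l 432348856391)) (l 477982883655)) (c (a (l 114521279063) (l 16776872)) (l 16776824))) (a (a (a (l 506437042167) (l 298668003495)) (l 93583313159)) (l 16776544))))) (a (b (a (l 3) (a (b (l 3) (a (l 425906405367) (l 188609465383))) (b (a (l 466708594679) (l 263771393559)) (l 16776928)))) (a (a (b (l 553681682423) (a (l 294909907111) (l 16777088))) (b (a (l 384567345159) (l 153712855607)) (l 16776840))) (l 16776536))) (a (b (c (l 16776776) (l 16776488)) (l 16775888)) (l 16775640)))) (b (a (a (a (b (a (b (l 262697651735) (l 16776872)) (l 16778200)) (l 16776264)) (l 16776320)) (b (l 16776224) (l 16775528))) (l 16775032)) (a (l 16774744) (l 16773624)))) (a (a (b (a (l 16777352) (l 16775384)) (l 16774120)) (l 16773664)) (l 16771928))) (b (a (l 16783280) (l 16771016)) (l 16769048))), by decide +kernel⟩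

def k12_pp_001_s : ∃ t, chk3 f_pp_001_s t 30 11 1 = true :=
  ⟨(b (b (a (b (a (l 3) (b (l 3) (a (l 3) (b (l 534891200759) (a (l 495162753191) (a (b (l 478519754823) (l 141364824967)) (b (l 171429596503) (l 16776648)))))))) (a (b (l 3) (a (l 3) (b (a (l 3) (a (l 484962205863) (b (l 489257173111) (l 153175985063)))) (b (a (l 455434305687) (l 16778736)) (a (a (l 379735506999) (l 16776920)) (l 16776248)))))) (b (a (b (a (l 3) (c (b (l 3) (l 428590760151)) (l 465634852791))) (b (a (l 3) (a (l 286319973015) (l 16776856))) (a (a (l 526301266055) (l 255718330519)) (l 16776568)))) (b (a (a (b (l 408189665335) (l 16776920)) (l 16778056)) (l 16776136)) (l 16775568))) (a (b (a (c (b (l 125795569191) (l 16776576)) (l 16779176)) (l 16775808)) (l 16775208)) (l 16774056))))) (b (a (b (a (b (l 3) (a (l 3) (a (b (l 3) (l 352891961367)) (b (l 387251699735) (l 16776904))))) (b (b (a (l 485499076663) (c (l 98415152167) (l 16776824))) (a (a (l 421074567207) (l 16778336)) (l 16776464))) (a (l 46875543959) (l 16775800))))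 (a (b (a (a (b (l 554755424343) (l 200420626359)) (b (l 271287587383) (l 16776784))) (l 16776424)) (l 16775888)) (l 16774824))) (a (b (l 16775152) (l 16773376)) (l 16772896))) (a (a (b (l 16774464) (l 16772488)) (l 16771984)) (l 16769896)))) (a (b (a (b (a (b (a (l 531669975399) (a (b (l 3) (l 260013297847)) (b (l 290614940327) (l 16776760)))) (a (b (a (l 487109689495) (l 185388240407)) (l 110226312263)) (l 16776168))) (a (l 16778424) (l 16774912))) (a (l 16777560) (l 16773128))) (c (l 16772784) (l 16770624))) (a (l 16775712) (l 16767120))) (a (l 16776912) (l 16763760)))) (b (a (b (l 16784664) (l 16758240)) (l 16755472)) (a (l 16749280) (l 16744368)))), by decide +kernel⟩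

def k13_pp_001_s : ∃ t, chk3 f_pp_001_s t 31 11 1 = true :=
  ⟨(a (b (b (a (b (l 16770984) (l 16767408)) (l 16767024)) (l 16760424)) (l 16788376)) (b (b (l 16764376) (l 16757232)) (l 16744248))), by decide +kernel⟩

def k14_pp_001_s : ∃ t, chk3 f_pp_001_s t 12 6 1 = true :=
  ⟨(b (b (l 3) (a (l 3) (b (l 3) (a (l 3) (b (l 3) (a (b (l 3) (l 2)) (b (a (l 3) (b (l 403357832695) (a (l 366313736695) (l 192904434487)))) (b (a (a (l 2) (l 323900933303)) (l 130627407799)) (l 136465884103))))))))) (b (a (l 2) (b (a (l 2) (b (a (l 2) (l 99421789047)) (l 2))) (l 2))) (l 2))), by decide +kernel⟩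

def k15_pp_001_s : ∃ t, chk3 f_pp_001_s t 26 12 1 = true :=
  ⟨(b (l 3) (b (a (b (l 3) (a (l 3) (b (l 3) (a (l 3) (b (l 417316475207) (a (l 371682445319) (l 192367563655))))))) (b (a (b (l 3) (a (l 3) (b (l 3) (l 423758925511)))) (b (a (l 3) (b (l 413558377527) (c (a (l 362018768359) (l 174113951687)) (l 285783097223)))) (a (b (a (l 3) (c (l 324974673895) (l 268603235831))) (a (a (l 326048416199) (l 182703885815)) (l 16775016))) (b (c (l 120426859591) (l 16774568)) (l 16771856))))) (a (b (a (b (l 3) (a (l 3) (c (l 330343383991) (l 272361332471)))) (b (a (l 371145574055) (l 185925112519)) (l 124184956439))) (a (b (a (c (l 280951259159) (l 228874786887)) (l 16775120)) (l 16773360)) (l 16781024))) (a (l 16779640) (l 16785960))))) (a (b (a (b (a (l 3) (l 410874027015)) (a (b (l 3) (a (l 3) (l 328732771495))) (b (a (l 370071832887) (l 194515047335)) (l 130090536855)))) (b (a (b (a (l 3) (l 328732771367)) (a (c (l 286856839127) (l 231559141639)) (l 16775152))) (b (l 129016794759) (l 16771936)))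 (l 16777696))) (a (a (a (b (b (l 287930580983) (l 16774344)) (l 16769904)) (l 92509573479)) (l 16778040)) (l 16782240))) (b (a (l 16774760) (l 16756016)) (l 16770064))))), by decide +kernel⟩

def k16_pp_001_s : ∃ t, chk3 f_pp_001_s t 27 12 1 = true :=
  ⟨(b (b (a (l 3) (b (l 3) (a (b (l 3) (a (l 3) (a (l 3) (a (l 439865051063) (b (l 3) (b (l 431275115223) (l 180556400919))))))) (b (a (b (l 3) (a (l 3) (l 432348857671))) (b (a (l 3) (b (l 400136602279) (a (l 281488133783) (l 16776576)))) (a (c (b (l 346449509447) (l 149417888103)) (l 210084304711)) (l 16775392)))) (a (b (a (c (l 389936054807) (l 397989118727)) (a (b (l 365239992647) (l 16776520)) (l 16778160))) (c (a (b (l 171966466935) (l 16775776)) (l 16774720)) (l 16780304))) (l 16778200)))))) (a (b (a (l 3) (b (l 3) (a (l 3) (b (a (l 3) (c (l 374366799031) (l 381882991415))) (a (b (l 414632117383) (l 223506075943)) (l 135996115767)))))) (a (b (a (l 3) (b (l 3) (a (l 3) (l 393157281223)))) (a (a (l 3) (b (l 3) (a (l 363092509543) (l 212768657767))))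 (b (c (a (l 352355090823) (l 156934081927)) (l 270750711655)) (l 102710118983)))) (b (a (b (a (l 439865051079) (a (l 344302027239) (l 189683207847))) (a (b (l 288467453175) (l 16776024)) (l 16774664))) (c (l 16778664) (l 16772752))) (l 16777472)))) (b (a (b (a (b (l 3) (a (l 415705859511) (c (b (l 331953996055) (l 16779072)) (l 204715595031)))) (b (a (c (b (l 381882991447) (l 191293820279)) (l 266455751415)) (l 16778280)) (l 16779472))) (a (c (b (a (b (l 207399948151) (l 16775968)) (l 16774840)) (l 16773448)) (l 119353119607)) (l 16770592))) (b (l 16780608) (l 16765320))) (a (l 16775152) (l 16757568))))) (b (a (b (a (b (a (a (b (a (l 314237255831) (l 166597757911)) (l 16774200)) (l 16778728)) (l 16780856)) (l 16777520)) (l 16782600)) (l 16773736)) (b (l 16770904) (l 16739544))) (a (l 16781128) (l 16724296)))), by decide +kernel⟩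

def k17_pp_001_s : ∃ t, chk3 f_pp_001_s t 13 13 1 = true :=
  ⟨(b (a (b (a (b (l 16774544) (l 16740736)) (l 16752208)) (a (l 16741712) (l 16704904))) (b (a (l 16716568) (l 16702568)) (a (l 16690904) (l 16677872)))) (a (b (l 127338976903) (l 2)) (b (l 16662136) (l 16628680)))), by decide +kernel⟩

def k18_pp_001_s : ∃ t, chk3 f_pp_001_s t 6 7 1 = true :=
  ⟨(b (a (l 2) (b (a (l 2) (l 16588600)) (l 2))) (l 2)), by decide +kernel⟩

def k19_pp_001_s : ∃ t, chk3 f_pp_001_s t 7 3 1 = true :=
  ⟨(b (a (b (b (a (b (a (b (a (b (a (l 3) (b (l 3) (a (l 444160017575) (c (b (a (l 451676209927) (l 217063623863)) (l 145659791847)) (l 209010562887))))) (b (a (a (l 3) (c (b (l 3) (l 375977411143)) (l 409263407767))) (a (a (b (l 375977410871) (l 16776600)) (l 115058149431)) (l 16775112))) (a (a (a (l 431811986343) (b (l 457044918951) (l 186461981111))) (a (b (l 219747978439) (l 16776184)) (l 16775888))) (l 16773872)))) (b (a (b (a (c (b (l 403357827799) (a (l 335712092295) (l 16776688))) (l 329806512199))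 (c (l 95193925607) (l 16775776))) (l 16777384)) (l 16777936)) (l 16775464))) (a (a (a (b (c (l 87677733239) (l 16774512)) (l 16770448)) (l 16776240)) (l 16779064)) (l 16784904))) (a (b (l 16776848) (l 16758120)) (l 16777888))) (a (b (a (l 16761072) (l 16754864)) (l 16747808)) (l 16741536))) (a (b (l 16770640) (l 16732168)) (b (l 16741696) (l 16724904)))) (a (b (a (l 16730368) (l 16719488)) (l 16725320)) (b (l 16707488) (l 16681872)))) (b (a (b (l 16704552) (l 16659328)) (b (l 16658424) (l 16636024))) (a (b (l 16633280) (l 16605368)) (l 16598576)))) (b (b (a (a (l 16728048) (l 16724152)) (b (l 16728384) (l 16714272))) (a (b (l 16699008) (l 16675392)) (l 16686144))) (b (a (l 16629440) (l 16633040)) (a (l 16578632) (l 16558792))))) (b (a (b (a (l 16565720) (l 16546096)) (l 104253066743)) (b (l 16544952) (l 16551536))) (a (b (l 16730744) (l 2)) (b (l 16536944) (l 6))))), by decide +kernel⟩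

theorem s20_pp_001_s : ∃ t, chk3 f_pp_001_s t 13 12 1 = true := ex3_a k15_pp_001_s k16_pp_001_s

theorem s21_pp_001_s : ∃ t, chk3 f_pp_001_s t 13 6 1 = true := ex3_b s20_pp_001_s k17_pp_001_s

theorem s22_pp_001_s : ∃ t, chk3 f_pp_001_s t 6 6 1 = true := ex3_a k14_pp_001_s s21_pp_001_s

theorem s23_pp_001_s : ∃ t, chk3 f_pp_001_s t 6 3 1 = true := ex3_b s22_pp_001_s k18_pp_001_s

theorem s24_pp_001_s : ∃ t, chk3 f_pp_001_s t 3 3 1 = true := ex3_a s23_pp_001_s k19_pp_001_s

theorem s25_pp_001_s : ∃ t, chk3 f_pp_001_s t 15 11 1 = true := ex3_a k12_pp_001_s k13_pp_001_s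

theorem s26_pp_001_s : ∃ t, chk3 f_pp_001_s t 31 42 1 = true := ex3_a k9_pp_001_s k10_pp_001_s

theorem s27_pp_001_s : ∃ t, chk3 f_pp_001_s t 31 21 1 = true := ex3_b s26_pp_001_s k11_pp_001_s

theorem s28_pp_001_s : ∃ t, chk3 f_pp_001_s t 15 21 1 = true := ex3_a k8_pp_001_s s27_pp_001_s

theorem s29_pp_001_s : ∃ t, chk3 f_pp_001_s t 15 10 1 = true := ex3_b k7_pp_001_s s28_pp_001_s

theorem s30_pp_001_s : ∃ t, chk3 f_pp_001_s t 15 5 1 = true := ex3_b s29_pp_001_s s25_pp_001_s

theorem s31_pp_001_s : ∃ t, chk3 f_pp_001_s t 29 11 1 = true := ex3_b k5_pp_001_s k6_pp_001_s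

theorem s32_pp_001_s : ∃ t, chk3 f_pp_001_s t 14 11 1 = true := ex3_a k4_pp_001_s s31_pp_001_s

theorem s33_pp_001_s : ∃ t, chk3 f_pp_001_s t 14 5 1 = true := ex3_b k3_pp_001_s s32_pp_001_s

theorem s34_pp_001_s : ∃ t, chk3 f_pp_001_s t 7 5 1 = true := ex3_a s33_pp_001_s s30_pp_001_s

theorem s35_pp_001_s : ∃ t, chk3 f_pp_001_s t 7 2 1 = true := ex3_b k2_pp_001_s s34_pp_001_s

theorem s36_pp_001_s : ∃ t, chk3 f_pp_001_s t 3 2 1 = true := ex3_a k1_pp_001_s s35_pp_001_s

theorem s37_pp_001_s : ∃ t, chk3 f_pp_001_s t 3 1 1 = true := ex3_b s36_pp_001_s s24_pp_001_s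

theorem s38_pp_001_s : ∃ t, chk3 f_pp_001_s t 1 1 1 = true := ex3_a k0_pp_001_s s37_pp_001_s

theorem c_pp_001_s : CertNE 0 536870912 536870912 536870912 536870912 50465866 3 eng mog cd6q0 cd0q1 pd0 false true true .up 0 0 1
    ndB6q0 ndB0q1 pcB0 cut_pp_001_s Ext.none :=
  certNE2 (fam := false) (s1 := true) (s2 := true) (a := 0) (b := 0) (c := 1) (cn := .up) (n1 := ndB6q0) (n2 := ndB0q1) (pc := pcB0) (cut := cut_pp_001_s) (xt := Ext.none) (P1 := 0) (W1 := 536870912) (P2 := 536870912) (W2 := 536870912) (P3 := 536870912) (W3 := 50465866) (N0 := 3) (En := eng) (mo := mog) (C1 := cd6q0) (C2 := cd0q1) (C3 := pd0)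
    rfl (fun _ => rfl) s38_pp_001_s

noncomputable def cut_pp_011_s : Cut := Cut.of [[⟨4, 0, 0, 1449551462⟩]]

noncomputable def f_pp_011_s : ℕ → ℕ → ℕ → ℕ → Bool := onCell 536870912 536870912 536870912 536870912 536870912 50465866
    (rowNE 3 eng mog cd6q0 cd0q1 pd1 2 false true true .pnn 0 1 1 (qsf 0 536870912 536870912 536870912 1) ndB6q0 ndB0q1 pcB1 cut_pp_011_s Ext.none)

def k0_pp_011_s : ∃ t, chk3 f_pp_011_s t 8 8 1 = true :=
  ⟨(l 3), by decide +kernel⟩

def k1_pp_011_s : ∃ t, chk3 f_pp_011_s t 16 9 1 = true :=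
  ⟨(b (l 3) (a (l 3) (b (l 3) (b (l 3) (a (l 3) (b (l 3) (a (l 3) (b (b (l 3) (a (l 3) (a (l 3) (a (l 440401919911) (l 204178722135))))) (b (a (l 3) (a (a (l 420000825271) (l 186461981767)) (l 16777056))) (a (a (l 3) (a (l 399062859719) (l 167671499591))) (l 16776952))))))))))), by decide +kernel⟩

def k2_pp_011_s : ∃ t, chk3 f_pp_011_s t 17 18 1 = true :=
  ⟨(b (l 3) (a (l 3) (b (l 3) (a (l 3) (b (l 3) (a (l 3) (b (l 3) (a (l 3) (a (l 443086274375) (a (l 281488137591) (l 131164279447))))))))))), by decide +kernel⟩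

def k3_pp_011_s : ∃ t, chk3 f_pp_011_s t 34 19 1 = true :=
  ⟨(b (b (l 3) (a (l 3) (b (l 3) (a (l 3) (b (l 569787809095) (a (l 552607940167) (a (b (l 534354329399) (l 186461983143)) (b (l 196125659735) (l 16777016))))))))) (a (b (b (l 3) (a (l 3) (b (a (l 3) (c (l 509121396583) (l 517174459847))) (a (c (b (l 3) (l 467782336423)) (l 502142074343)) (a (b (l 433959468951) (l 16778432)) (a (l 78014057255) (l 16777000))))))) (b (a (a (a (l 3) (a (l 544018005559) (b (l 3) (b (l 3) (l 274508812135))))) (a (b (l 3) (b (a (l 501068332935) (l 292762423447)) (l 16777088))) (b (a (l 543481134855) (b (l 3) (l 302426100183))) (l 16777000)))) (a (b (a (b (l 406579052455) (l 16777104)) (l 43117447527)) (l 16776736)) (b (l 16776760) (l 16776392)))) (a (a (b (a (b (a (l 460803014567) (l 256255200935)) (l 16777064)) (l 16776984)) (l 16776688)) (b (l 16776712) (l 16776328))) (l 16775992)))) (b (b (a (b (l 551534198135) (a (l 525764394615) (a (b (l 486035947367) (l 144586051143)) (b (l 154786598647) (l 16776984)))))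 (a (b (a (b (l 510732009287) (l 165524017063)) (b (l 176261435479) (l 16777000))) (l 16776824)) (b (l 16776840) (l 16776488)))) (a (a (b (a (b (l 460266143607) (l 121500601399)) (b (l 133311761639) (l 16776968))) (l 16776784)) (b (l 16776800) (l 16776440))) (l 16776112))) (a (l 16775680) (l 16775000))))), by decide +kernel⟩

def k4_pp_011_s : ∃ t, chk3 f_pp_011_s t 35 19 1 = true :=
  ⟨(b (a (b (b (l 3) (a (l 3) (b (l 3) (a (l 3) (a (b (l 3) (l 294909908903)) (b (l 300815489095) (l 16777064))))))) (a (b (b (l 3) (a (l 577304002071) (a (b (l 578914615063) (l 257865815223)) (b (l 267529491735) (l 16777040))))) (a (b (a (b (l 557439778599) (l 238001591047)) (b (l 248202138551) (l 16777032))) (l 16776856)) (b (l 16776872) (l 16776520)))) (b (a (b (a (b (l 3) (l 276656297415)) (b (l 285783103159) (l 16777056))) (l 16776880)) (b (l 16776896) (l 16776552))) (l 16776200)))) (b (a (b (b (l 3) (a (l 3) (a (a (l 513416363799) (l 391546666903)) (b (l 301352360631) (l 16777080))))) (a (b (a (a (l 499994591015)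 (l 379735501607)) (b (l 302962972967) (l 16777072))) (l 16776904)) (b (l 16776912) (l 16776584)))) (b (a (b (a (l 433959474119) (a (l 270750718999) (l 122574344519))) (l 16776928)) (b (l 16776928) (l 16776600))) (l 16776264))) (a (b (l 16776240) (l 16775552)) (l 16775248)))) (a (b (a (b (l 16776160) (l 16775448)) (l 16775144)) (l 16774008)) (l 16773448))), by decide +kernel⟩

def k5_pp_011_s : ∃ t, chk3 f_pp_011_s t 9 4 1 = true :=
  ⟨(b (a (a (l 3) (l 1)) (l 1)) (a (b (a (b (a (l 3) (b (l 3) (a (l 3) (b (l 3) (b (l 3) (a (l 3) (a (l 482277850887) (a (l 299741749879) (l 169684768583))))))))) (a (b (a (l 3) (b (l 3) (a (l 3) (b (l 3) (a (l 472077303575) (a (l 304036716535) (l 155860342263))))))) (a (b (a (l 3) (b (l 3) (a (l 458655530791) (a (l 298668007255) (l 145659794503))))) (a (b (a (l 451139338039) (a (l 290078072343) (l 138680472391))) (l 16776936)) (b (l 16776944) (l 16776616)))) (b (a (b (a (l 465097981735) (a (l 299204878327) (l 151565374711))) (l 16776952)) (b (l 16776952) (l 16776632)))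 (l 16776304)))) (b (a (b (a (l 3) (a (l 532206848071) (b (l 3) (a (l 300278620631) (l 162839664359))))) (a (b (a (l 476909141783) (a (l 301352362295) (l 159081567815))) (l 16776960)) (b (l 16776960) (l 16776632)))) (b (a (b (a (l 481204109079) (a (l 298668008055) (l 190756951879))) (l 16776960)) (b (l 16776960) (l 16776640))) (l 16776312))) (a (b (l 16776312) (l 16775656)) (l 16775336))))) (b (b (l 1) (a (b (l 1) (a (b (l 1) (a (l 16776968) (l 1))) (l 1))) (l 1))) (a (b (a (b (l 16776320) (l 16775664)) (l 16775400)) (l 16774352)) (l 16773944)))) (a (b (a (b (a (b (l 16776288) (l 16775624)) (l 16775312)) (l 16774280)) (l 16773672)) (l 16771512)) (b (l 16771688) (l 16768912)))) (b (a (b (l 1) (l 115460804791)) (l 1)) (a (b (l 16769368) (l 16766192)) (l 16766656))))), by decide +kernel⟩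

def k6_pp_011_s : ∃ t, chk3 f_pp_011_s t 32 40 1 = true :=
  ⟨(b (l 3) (a (l 3) (b (l 3) (a (b (l 3) (a (l 3) (c (l 566029713335) (l 571935292807)))) (a (b (l 3) (b (a (l 3) (a (b (l 3) (a (l 408726536167) (a (l 212768654791) (l 16777184)))) (b (a (l 435033210855) (a (l 279340648199) (l 148344145063))) (l 16777120)))) (b (a (a (l 565492842407) (c (a (l 382419861511) (l 150491628887)) (l 264845134247))) (l 16777056)) (a (a (a (a (l 420537696231) (l 285783099143)) (l 126869308599)) (l 16777104)) (l 16776936))))) (a (b (b (l 3) (b (a (l 3) (a (l 486572818391) (l 283635615831))) (a (a (l 460803014615) (l 259476424535)) (l 16777136)))) (c (b (l 16777088) (l 16776944)) (l 16776784))) (b (a (b (a (l 532743716759) (b (l 3) (l 305647323383))) (l 29695673383)) (b (b (c (l 411410890743) (l 303499840983)) (l 16777808)) (l 16776984))) (l 16776688)))))))), by decide +kernel⟩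

def k7_pp_011_s : ∃ t, chk3 f_pp_011_s t 64 82 1 = true :=
  ⟨(b (a (l 3) (b (l 3) (a (l 3) (a (l 3) (b (l 3) (a (l 3) (b (l 3) (b (l 492478398423) (a (l 438791307255) (l 118816244487)))))))))) (a (b (l 3) (b (l 3) (a (l 3) (a (l 3) (a (a (l 3) (b (l 3) (b (l 3) (l 314774128071)))) (b (c (c (l 488183431191) (l 490330914791)) (l 490867785623)) (b (a (a (l 318532224359) (l 280414389207)) (l 16777176)) (l 16777136)))))))) (b (b (a (l 3) (a (a (l 3) (b (l 3) (c (b (c (l 436106952727) (l 438254436343)) (a (l 310479160775) (l 16777184))) (l 291688678759)))) (b (a (a (c (l 453823692807) (l 458655530935)) (b (l 417316470775) (l 16777512))) (c (l 16777488) (l 16777096))) (c (l 16777112) (l 16777000))))) (a (b (l 3) (a (l 3) (a (l 562271616951) (b (a (l 566566584279) (a (l 317995353287) (l 146733531799))) (a (a (l 313700385911) (l 120426856983)) (l 16777152)))))) (a (b (a (b (a (l 3) (c (l 293299291511) (l 16777208))) (a (a (a (l 314774127735) (l 319605965783)) (l 164450271959)) (l 16777160))) (l 16776984))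 (c (l 16777096) (l 16776976))) (l 16776864)))) (b (b (a (a (c (l 546702360567) (l 550997327671)) (a (b (a (l 511805751271) (a (l 287393711063) (l 16777192))) (a (a (l 260013294471) (l 16777184)) (l 16777136))) (l 16777080))) (l 16776784)) (a (c (a (a (l 510195138567) (b (a (l 468856078343) (l 143512306455)) (l 73182216951))) (l 16777080)) (a (a (l 514490105735) (l 178945787847)) (l 16776944))) (l 16776656))) (a (a (b (a (b (a (a (l 557976649703) (l 325511545975)) (l 102173246119)) (l 46338671207)) (l 16777064)) (c (l 16777064) (l 16776912))) (l 16776816)) (l 16776464)))))), by decide +kernel⟩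

def k8_pp_011_s : ∃ t, chk3 f_pp_011_s t 65 82 1 = true :=
  ⟨(b (a (b (b (a (l 3) (a (c (l 539723038695) (l 545091747559)) (b (a (l 515563847607) (a (b (l 490867785703) (l 16777528)) (l 101636375591))) (a (a (b (l 307257935607) (l 16777192)) (l 16777656)) (l 16777080))))) (b (a (l 3) (a (a (c (l 476372271095) (l 481204109207)) (a (b (l 309405419255) (l 16777184)) (l 16777152))) (l 16777016))) (a (c (a (l 3) (c (a (l 3) (l 455434305559)) (l 493552140231))) (l 531669974711)) (a (a (a (b (l 312089773591) (l 16777168)) (l 16777144)) (l 16777064)) (l 16776896))))) (b (a (a (a (l 3) (a (l 548849844119) (b (l 3) (b (l 554755424215) (l 196662527095))))) (b (a (a (l 3) (b (l 3) (l 272898196775))) (a (b (l 291688678775) (l 16777160)) (l 16777136))) (a (a (b (l 253570843847) (l 16777152)) (l 16777128)) (l 16777040)))) (c (a (l 16775968) (l 16776896)) (l 16776680))) (a (a (a (b (a (l 509658267607) (b (l 503215816679) (l 158007821239))) (c (c (l 50096767815) (l 16777152)) (l 16777104))) (a (a (b (b (l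 280414389207) (l 16777160)) (l 16777064)) (l 16777424)) (l 16776728))) (c (c (l 16775768) (l 16776968)) (l 16776808))) (l 16776576)))) (a (b (a (a (b (l 16777032) (l 16776792)) (l 16776800)) (l 16776640)) (l 16776256)) (l 16776072))) (a (b (b (a (a (a (l 16776944) (l 16776832)) (l 16776664)) (l 16776320)) (l 16776296)) (l 16775904)) (l 16775288))), by decide +kernel⟩

def k9_pp_011_s : ∃ t, chk3 f_pp_011_s t 32 83 1 = true :=
  ⟨(a (b (a (a (a (b (l 3) (a (b (b (l 3) (c (b (l 428590759943) (l 167134627159)) (l 285246229015))) (l 16777016)) (b (b (b (l 458655530983) (a (l 322827191831) (l 16777176))) (l 16777104)) (l 16776888)))) (b (b (l 3) (b (a (l 3) (a (l 509658267607) (b (l 499994591207) (l 151028499303)))) (a (a (l 478519754727) (b (l 313163515719) (l 16777184))) (c (l 16777152) (l 16777096))))) (c (b (l 16777056) (l 16776872)) (l 16776720)))) (b (a (b (b (a (l 3) (a (l 581062098887) (a (l 468319207399) (b (l 3) (l 16777528))))) (a (a (l 549923586007) (b (l 555829166055) (l 193978172519)))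 (a (b (l 252497101943) (l 16777144)) (l 16777120)))) (c (c (b (a (l 70497862535) (l 16777112)) (l 16777080)) (l 16777040)) (l 16776936))) (b (c (a (a (b (b (l 293836162375) (l 16777176)) (l 16777112)) (l 16777112)) (l 16777056)) (l 40969962951)) (l 16776760))) (l 16776472))) (a (a (b (l 16776656) (l 16776104)) (l 16776144)) (l 16775792))) (a (a (b (l 16776400) (l 16775824)) (l 16775616)) (l 16774904))) (a (l 16774552) (l 16773688))), by decide +kernel⟩

def k10_pp_011_s : ∃ t, chk3 f_pp_011_s t 66 20 1 = true :=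
  ⟨(b (b (b (l 3) (a (l 3) (a (b (l 3) (a (a (l 3) (b (l 3) (b (l 3) (l 285783100135)))) (a (b (l 3) (b (l 301889227639) (l 16777128))) (b (b (l 3) (l 306184195095)) (l 16777080))))) (a (b (c (b (l 3) (l 470466691031)) (l 508047654503)) (a (b (b (l 308868549735) (l 16777136)) (l 16776984)) (l 16776992))) (b (b (l 486035947367) (a (b (l 399062859735) (l 16777152)) (l 16777104))) (l 16776840)))))) (b (a (b (a (l 3) (a (a (l 538112425751) (b (l 3) (b (l 522006298551) (a (l 285783099479) (l 16777168))))) (a (b (l 547776102263) (a (b (l 305110452471) (l 16777120)) (l 16777128))) (b (b (l 567103455143) (l 252497103255)) (l 16777048))))) (a (a (b (l 3) (b (a (l 3) (l 448454983623)) (a (l 429664501719) (l 116131890615)))) (a (b (l 498920849303) (a (b (l 182167012935) (l 16777088)) (l 16777096))) (b (b (l 485499076535) (a (l 204178720519) (l 16777160))) (l 16777016)))) (b (a (a (a (b (l 263234521015) (l 16777104)) (l 16777112)) (l 16777032)) (l 16776880)) (l 16776760)))) (a (b (a (a (b (b (l 269140101671)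 (l 16777112)) (l 16776952)) (l 16776960)) (c (l 16776968) (l 16776648))) (l 16776464)) (l 16776296))) (a (b (a (c (b (a (c (l 16777800) (l 16777080)) (l 16776984)) (l 16776904)) (l 16776688)) (l 16776424)) (l 16776160)) (l 16775592)))) (b (a (l 16777576) (l 16774160)) (l 16772464))), by decide +kernel⟩

def k11_pp_011_s : ∃ t, chk3 f_pp_011_s t 67 20 1 = true :=
  ⟨(b (b (a (b (b (a (l 3) (a (l 542407392983) (b (l 563882229559) (a (c (l 353965703159) (l 311552905655)) (l 133311760839))))) (a (b (l 537575554791) (a (l 502142074711) (b (a (l 464024240071) (l 16777840)) (l 87677732615)))) (a (b (a (a (l 394231021527) (l 266992618711)) (l 115058149575)) (l 16776992)) (l 16776904)))) (b (a (a (b (a (b (l 431811985367) (l 16777168)) (l 16777776)) (l 16776960)) (l 16776872)) (l 16776592)) (l 16776360))) (b (b (a (b (a (a (l 378124894167) (l 148881017399)) (l 16777032)) (l 16776928)) (l 16776656)) (a (l 16776624) (l 16776264))) (l 16775832))) (a (l 16775272) (l 16774536))) (l 16777256)), by decide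 +kernel⟩

def k12_pp_011_s : ∃ t, chk3 f_pp_011_s t 16 21 1 = true :=
  ⟨(a (b (a (b (a (l 16774056) (l 16773104)) (l 16770936)) (l 16780992)) (a (l 16766456) (l 16764792))) (b (a (l 16768912) (l 16767456)) (l 16762600))), by decide +kernel⟩

def k13_pp_011_s : ∃ t, chk3 f_pp_011_s t 17 10 1 = true :=
  ⟨(b (b (a (b (a (b (l 16775560) (l 16774752)) (l 16773784)) (l 16772768)) (l 16770976)) (a (l 16769920) (l 16767336))) (b (a (l 16765448) (l 16762976)) (l 16758888))), by decide +kernel⟩

def k14_pp_011_s : ∃ t, chk3 f_pp_011_s t 8 11 1 = true :=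
  ⟨(a (b (a (b (l 16758768) (l 16750784)) (l 16752360)) (b (l 16740488) (l 16729912))) (b (a (l 16750224) (l 16748208)) (b (l 16737192) (l 16727472)))), by decide +kernel⟩

def k15_pp_011_s : ∃ t, chk3 f_pp_011_s t 9 5 1 = true :=
  ⟨(b (a (b (a (b (l 16768432) (l 16764864)) (l 16764168)) (a (l 16758192) (l 16755928))) (b (b (l 16761936) (l 16758656)) (b (l 16754744) (l 16750320)))) (a (b (l 16745552) (l 16730032)) (b (l 16742152) (l 16728080)))), by decide +kernel⟩

def k16_pp_011_s : ∃ t, chk3 f_pp_011_s t 5 2 1 = true :=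
  ⟨(b (a (b (l 1) (a (b (l 1) (l 135325056135)) (l 1))) (l 1)) (a (b (a (b (b (l 16759352) (l 16754096)) (l 16789944)) (b (a (l 141767529895) (l 1)) (a (l 16744552) (l 16745528)))) (b (a (l 16738672) (a (l 16735184) (l 16732664))) (a (l 16726272) (l 16723616)))) (b (b (l 1) (a (l 16754632) (l 1))) (b (a (l 16734384) (l 16747736)) (a (l 16721104) (l 16724416)))))), by decide +kernel⟩

def k17_pp_011_s : ∃ t, chk3 f_pp_011_s t 2 3 1 = true :=
  ⟨(a (b (a (b (b (a (l 16711256) (l 16710056)) (a (l 16677472) (l 16679024))) (b (l 16630368) (l 16559744))) (b (b (l 16709296) (l 16681920)) (b (l 16641576) (l 16580936)))) (b (a (b (l 16509760) (l 16483992)) (b (l 6) (l 6))) (l 6))) (b (a (b (b (a (l 16709512) (l 16709312)) (a (l 16685952) (l 16688768))) (a (l 16689448) (l 6))) (b (b (l 16710328) (l 16696080)) (l 6))) (l 6))), by decide +kernel⟩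

def k18_pp_011_s : ∃ t, chk3 f_pp_011_s t 3 1 1 = true :=
  ⟨(b (a (b (l 1) (b (l 1) (a (b (l 1) (l 223372029751)) (l 1)))) (l 1)) (b (a (b (l 6) (l 6)) (l 6)) (l 6))), by decide +kernel⟩

theorem s19_pp_011_s : ∃ t, chk3 f_pp_011_s t 33 20 1 = true := ex3_a k10_pp_011_s k11_pp_011_s

theorem s20_pp_011_s : ∃ t, chk3 f_pp_011_s t 32 82 1 = true := ex3_a k7_pp_011_s k8_pp_011_s

theorem s21_pp_011_s : ∃ t, chk3 f_pp_011_s t 32 41 1 = true := ex3_b s20_pp_011_s k9_pp_011_s

theorem s22_pp_011_s : ∃ t, chk3 f_pp_011_s t 32 20 1 = true := ex3_b k6_pp_011_s s21_pp_011_s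

theorem s23_pp_011_s : ∃ t, chk3 f_pp_011_s t 16 20 1 = true := ex3_a s22_pp_011_s s19_pp_011_s

theorem s24_pp_011_s : ∃ t, chk3 f_pp_011_s t 16 10 1 = true := ex3_b s23_pp_011_s k12_pp_011_s

theorem s25_pp_011_s : ∃ t, chk3 f_pp_011_s t 8 10 1 = true := ex3_a s24_pp_011_s k13_pp_011_s

theorem s26_pp_011_s : ∃ t, chk3 f_pp_011_s t 8 5 1 = true := ex3_b s25_pp_011_s k14_pp_011_s

theorem s27_pp_011_s : ∃ t, chk3 f_pp_011_s t 4 5 1 = true := ex3_a s26_pp_011_s k15_pp_011_s

theorem s28_pp_011_s : ∃ t, chk3 f_pp_011_s t 17 19 1 = true := ex3_a k3_pp_011_s k4_pp_011_s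

theorem s29_pp_011_s : ∃ t, chk3 f_pp_011_s t 17 9 1 = true := ex3_b k2_pp_011_s s28_pp_011_s

theorem s30_pp_011_s : ∃ t, chk3 f_pp_011_s t 8 9 1 = true := ex3_a k1_pp_011_s s29_pp_011_s

theorem s31_pp_011_s : ∃ t, chk3 f_pp_011_s t 8 4 1 = true := ex3_b k0_pp_011_s s30_pp_011_s

theorem s32_pp_011_s : ∃ t, chk3 f_pp_011_s t 4 4 1 = true := ex3_a s31_pp_011_s k5_pp_011_s

theorem s33_pp_011_s : ∃ t, chk3 f_pp_011_s t 4 2 1 = true := ex3_b s32_pp_011_s s27_pp_011_s

theorem s34_pp_011_s : ∃ t, chk3 f_pp_011_s t 2 2 1 = true := ex3_a s33_pp_011_s k16_pp_011_s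

theorem s35_pp_011_s : ∃ t, chk3 f_pp_011_s t 2 1 1 = true := ex3_b s34_pp_011_s k17_pp_011_s

theorem s36_pp_011_s : ∃ t, chk3 f_pp_011_s t 1 1 1 = true := ex3_a s35_pp_011_s k18_pp_011_s

theorem c_pp_011_s : CertNE 0 536870912 536870912 536870912 536870912 50465866 3 eng mog cd6q0 cd0q1 pd1 false true true .pnn 0 1 1
    ndB6q0 ndB0q1 pcB1 cut_pp_011_s Ext.none :=
  certNE2 (fam := false) (s1 := true) (s2 := true) (a := 0) (b := 1) (c := 1) (cn := .pnn) (n1 := ndB6q0) (n2 := ndB0q1) (pc := pcB1) (cut := cut_pp_011_s) (xt := Ext.none) (P1 := 0) (W1 := 536870912) (P2 := 536870912) (W2 := 536870912) (P3 := 536870912) (W3 := 50465866) (N0 := 3) (En := eng) (mo := mog) (C1 := cd6q0) (C2 := cd0q1) (C3 := pd1)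
    rfl (fun _ => rfl) s36_pp_011_s

noncomputable def cut_pp_012_s : Cut := Cut.of [[⟨4, 0, 0, 1449551462⟩]]

noncomputable def f_pp_012_s : ℕ → ℕ → ℕ → ℕ → Bool := onCell 0 536870912 0 536870912 536870912 50465866
    (rowNE 3 eng mog cd6q0 cd0q2 pd1 0 false true true .pnp 0 1 2 (qsf 0 536870912 0 536870912 1) ndB6q0 ndB0q2 pcB1 cut_pp_012_s Ext.none)

def k0_pp_012_s : ∃ t, chk3 f_pp_012_s t 1 1 1 = true :=
  ⟨(a (l 6) (l 6)), by decide +kernel⟩

theorem c_pp_012_s : CertNE 0 536870912 0 536870912 536870912 50465866 3 eng mog cd6q0 cd0q2 pd1 false true true .pnp 0 1 2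
    ndB6q0 ndB0q2 pcB1 cut_pp_012_s Ext.none :=
  certNE0 (fam := false) (s1 := true) (s2 := true) (a := 0) (b := 1) (c := 2) (cn := .pnp) (n1 := ndB6q0) (n2 := ndB0q2) (pc := pcB1) (cut := cut_pp_012_s) (xt := Ext.none) (P1 := 0) (W1 := 536870912) (P2 := 0) (W2 := 536870912) (P3 := 536870912) (W3 := 50465866) (N0 := 3) (En := eng) (mo := mog) (C1 := cd6q0) (C2 := cd0q2) (C3 := pd1)
    rfl k0_pp_012_s

noncomputable def cut_pp_022_s : Cut := Cut.of [[⟨4, 0, 0, 1449551462⟩]]

noncomputable def f_pp_022_s : ℕ → ℕ → ℕ → ℕ → Bool := onCell 1073741824 536870912 0 536870912 536870912 50465866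
    (rowNE 3 eng mog cd6q0 cd0q2 pd2 2 false true true .pp 0 2 2 (qsf 0 536870912 0 536870912 2) ndB6q0 ndB0q2 pcB2 cut_pp_022_s Ext.none)

def k0_pp_022_s : ∃ t, chk3 f_pp_022_s t 1 1 1 = true :=
  ⟨(l 6), by decide +kernel⟩

theorem c_pp_022_s : CertNE 0 536870912 0 536870912 536870912 50465866 3 eng mog cd6q0 cd0q2 pd2 false true true .pp 0 2 2
    ndB6q0 ndB0q2 pcB2 cut_pp_022_s Ext.none :=
  certNE2 (fam := false) (s1 := true) (s2 := true) (a := 0) (b := 2) (c := 2) (cn := .pp) (n1 := ndB6q0) (n2 := ndB0q2) (pc := pcB2) (cut := cut_pp_022_s) (xt := Ext.none) (P1 := 0) (W1 := 536870912) (P2 := 0) (W2 := 536870912) (P3 := 536870912) (W3 := 50465866) (N0 := 3) (En := eng) (mo := mog) (C1 := cd6q0) (C2 := cd0q2) (C3 := pd2)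
    rfl (fun _ => rfl) k0_pp_022_s

end Pool.Agent.Strip051.G.I5000_5470.Tab.CS.BB60

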