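import Pool.Agent.Strip051.G.I5000_5470.Tab
import Pool.Agent.Strip051.PB.StripB

/-! # Strips, near vertex: certificates 8 (generated) -/

set_option linter.all false
set_option maxRecDepth 100000

namespace Pool.Agent.Strip051.G.I5000_5470.Tab.CS.BB60

open Pool.Agent.Strip051.PB Pool.Agent.Strip051.PB.T
open Pool.Agent.Strip051.G.I5000_5470.Tab

noncomputable def cut_pp_101_s : Cut := Cut.of [[⟨4, 0, 0, 1449551462⟩], [⟨0, 1, 0, 67108864⟩, ⟨1, 0, 0, 67108864⟩, ⟨2, 1, 0, 67108864⟩]]

noncomputable def f_pp_101_s : ℕ → ℕ → ℕ → ℕ → Bool := onCell 0 536870912 536870912 536870912 536870912 50465866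
    (rowNE 3 eng mog cd6q1 cd0q1 pd0 2 false true true .npn 1 0 1 (qsf 536870912 536870912 536870912 536870912 0) ndB6q1 ndB0q1 pcB0 cut_pp_101_s Ext.none)

def k0_pp_101_s : ∃ t, chk3 f_pp_101_s t 2 2 1 = true :=
  ⟨(l 3), by decide +kernel⟩

def k1_pp_101_s : ∃ t, chk3 f_pp_101_s t 2 6 1 = true :=
  ⟨(a (l 3) (a (l 3) (b (l 3) (b (l 3) (a (b (l 3) (a (l 3) (b (l 3) (a (l 3) (b (l 3) (a (l 3) (b (a (l 3) (a (l 3) (a (l 420537699783) (l 346449512647)))) (b (a (l 419463957959) (a (l 180019531479) (l 16775904))) (a (a (a (l 367387477623) (l 299204870471)) (l 124721826135)) (l 16774664)))))))))) (b (a (l 3) (b (a (l 3) (a (l 3) (b (l 3) (c (l 416242740151) (l 422148320135))))) (a (b (l 3) (a (b (l 3) (l 424832672039)) (a (b (l 3) (l 221895467447)) (b (l 378124897431) (l 16775224))))) (b (a (b (l 3) (a (l 420537701831) (c (l 225653563047) (l 16781152)))) (a (b (c (l 359334415031) (l 270213850839)) (l 16778944)) (c (l 130090538167) (l 16774288)))) (a (a (c (l 129553667863) (l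 16779760)) (l 16777272)) (l 16778760)))))) (a (b (a (l 3) (b (a (l 3) (b (l 3) (a (l 3) (l 309942289495)))) (a (b (a (l 3) (l 394231025447)) (a (l 313700387415) (l 16780752))) (b (a (l 167671503271) (l 16774192)) (l 16771736))))) (a (b (a (a (l 3) (b (l 3) (b (l 419463957927) (l 195051918487)))) (b (a (l 398525992919) (c (l 168208374391) (l 166060890695))) (a (l 113984409783) (l 16773080)))) (a (b (a (a (b (l 409800280311) (l 16779144)) (l 131164278759)) (l 16774344)) (l 16777120)) (l 16779240))) (a (a (l 16779192) (l 16776680)) (l 16783416)))) (b (a (b (a (b (a (l 388325445143) (l 167134632071)) (l 16779376)) (l 16781440)) (l 16787048)) (l 16780720)) (l 16770928))))))))), by decide +kernel⟩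

def k2_pp_101_s : ∃ t, chk3 f_pp_101_s t 4 14 1 = true :=
  ⟨(a (l 3) (b (l 3) (a (l 3) (b (l 3) (a (l 3) (b (l 3) (a (b (l 3) (a (l 3) (b (l 3) (b (b (l 3) (a (l 3) (a (l 3) (a (l 3) (l 328195899719))))) (a (a (l 3) (a (l 3) (l 390472927031))) (b (c (a (l 365776864423) (l 135996114503)) (a (l 371145573511) (l 133848630903))) (a (a (l 207936817047) (l 16776664)) (l 16775864)))))))) (b (a (l 3) (b (a (l 3) (a (l 3) (b (l 3) (l 404968442503)))) (b (a (l 3) (b (a (l 3) (a (l 348060123719) (l 148344145431))) (a (a (l 374366798759) (l 204715591511)) (l 16776368)))) (a (b (b (l 397989120151) (a (l 3) (a (l 397989118775) (l 16777768)))) (a (a (l 3) (l 342691414535)) (l 126332438039))) (c (l 16778208) (l 16777808)))))) (b (a (a (a (l 3) (b (l 3) (b (l 3) (a (l 361481896695) (l 162302789319))))) (a (b (l 403357829623) (a (b (l 336248963495) (l 16776560)) (l 114521277895))) (b (b (l 380272379223) (a (a (l 338933318023) (l 199346882071)) (l 16778080))) (l 16775672)))) (b (b (a (a (a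 (l 168745240343) (l 16776600)) (l 16775800)) (l 16779440)) (l 16776984)) (l 16778256))) (a (b (a (a (b (a (l 386177958983) (a (l 245517780871) (l 161765918135))) (l 117742503239)) (l 16777312)) (l 16774400)) (l 16776280)) (l 16770320))))))))))), by decide +kernel⟩

def k3_pp_101_s : ∃ t, chk3 f_pp_101_s t 8 30 1 = true :=
  ⟨(a (l 3) (b (l 3) (a (l 3) (b (l 3) (a (l 3) (b (l 3) (a (l 3) (b (l 3) (b (a (l 3) (a (l 3) (b (c (l 393157281655) (l 400673474375)) (b (a (l 3) (a (l 335175221527) (l 155860337495))) (a (a (l 348060123495) (l 167134626807)) (l 16776760)))))) (a (a (l 3) (b (l 3) (b (a (l 3) (a (l 388325442151) (l 225116685463))) (a (a (l 3) (l 241759683735)) (l 130627404615))))) (a (b (b (a (l 3) (a (l 359871283655) (l 197199397895))) (a (a (l 375440540183) (l 209547428999)) (l 16777504))) (l 101636375415)) (l 16777624)))))))))))), by decide +kernel⟩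

def k4_pp_101_s : ∃ t, chk3 f_pp_101_s t 16 31 1 = true :=
  ⟨(b (b (l 3) (l 14)) (l 14)), by decide +kernel⟩

def k5_pp_101_s : ∃ t, chk3 f_pp_101_s t 34 124 1 = true :=
  ⟨(a (l 3) (b (l 3) (a (l 3) (a (l 3) (b (l 3) (b (l 3) (b (a (l 3) (b (a (l 3) (a (l 3) (c (l 341617672551) (l 346986381671)))) (a (a (l 3) (l 353428832679)) (b (a (l 249275876103) (l 16777040)) (l 16777584))))) (a (b (a (l 3) (a (l 3) (l 365776863719))) (b (a (l 3) (a (l 353965703463) (l 16777432))) (a (l 375440540215) (l 130627404407)))) (b (b (a (a (l 248202134551) (l 16777072)) (l 16776680)) (l 110763180631)) (l 16777640)))))))))), by decide +kernel⟩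

def k6_pp_101_s : ∃ t, chk3 f_pp_101_s t 70 248 1 = true :=
  ⟨(a (l 3) (b (l 3) (b (b (l 3) (b (l 3) (a (l 3) (a (l 3) (a (l 3) (a (l 390472925847) (c (l 231022265447) (l 233706620007)))))))) (a (b (l 3) (b (l 3) (a (l 3) (a (l 3) (a (l 3) (l 358797541831)))))) (b (b (a (l 3) (a (a (l 3) (l 327122157783)) (l 134922371927))) (b (a (l 3) (a (l 156397208487) (l 16776584))) (a (a (l 3) (l 337859576135)) (l 16777912)))) (a (b (a (c (l 357186929271) (l 364166251111)) (a (l 168745239559) (l 16776896))) (a (a (a (l 224042943351) (l 163913400967)) (l 16776936)) (l 16776536))) (l 16777304))))))), by decide +kernel⟩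

def k7_pp_101_s : ∃ t, chk3 f_pp_101_s t 70 249 1 = true :=
  ⟨(b (b (a (l 3) (a (b (a (a (l 3) (a (l 3) (l 388862313511))) (b (a (l 378661765895) (a (a (l 237464716231) (l 176261432023)) (l 16777624))) (b (a (a (l 366313734487) (l 16777456)) (l 16776736)) (l 120426857175)))) (a (a (b (l 394231022487) (a (c (l 324974674167) (l 330880254183)) (l 151565370151))) (b (a (a (l 345375768871) (l 210084299767)) (l 141901693655)) (l 16776688))) (l 16777456))) (l 16777520))) (a (a (l 3) (b (a (l 3) (a (b (l 3) (a (l 349133865335) (c (l 170892723143) (l 167134626743)))) (b (a (c (l 335712092471) (l 340543930679)) (l 160155304903)) (l 16776760)))) (a (a (b (l 3) (a (l 371145572871) (a (l 236390974407) (l 175724561111)))) (b (a (l 358260670919) (a (l 224042943351) (l 164450271879))) (l 16777496))) (l 93583311543)))) (a (a (l 16777536) (l 16777304)) (l 16778360)))) (a (b (a (b (a (l 3) (a (b (l 3) (b (l 385104216711) (a (l 385641087415) (l 170892722855)))) (b (b (l 375440540231) (a (l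 372756185447) (l 16777472))) (l 127406179095)))) (b (b (a (l 394767893687) (a (l 146733531991) (l 16776544))) (a (a (l 3) (a (l 3) (l 202568106727))) (l 16776560))) (a (a (a (l 3) (a (l 365776863655) (l 240685941719))) (a (a (l 179482657511) (l 16777376)) (l 16776848))) (l 16776192)))) (a (b (c (l 16777696) (l 101636375255)) (l 16778008)) (l 16774824))) (a (a (a (a (b (b (a (l 207399944999) (l 16777488)) (l 16776656)) (l 16775912)) (l 16777456)) (l 16777064)) (l 16774960)) (l 16778632))) (l 16774512))), by decide +kernel⟩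

def k8_pp_101_s : ∃ t, chk3 f_pp_101_s t 71 124 1 = true :=
  ⟨(b (a (b (b (a (l 3) (a (l 3) (b (l 3) (b (a (l 3) (l 371682443959)) (a (l 380272378631) (a (l 207936816263) (l 16776976))))))) (a (b (l 3) (b (l 3) (a (l 3) (a (l 3) (a (l 343765156183) (l 163913401319)))))) (b (a (a (l 396378506599) (b (l 389399184215) (a (l 239612200071) (l 16777544)))) (b (a (a (l 223506072711) (l 16777672)) (l 16776624)) (l 16776400))) (a (b (a (a (l 332490866951) (l 154249724743)) (l 16776704)) (l 16777792)) (l 16775680))))) (a (b (b (b (a (l 3) (a (a (l 355039445415) (l 174650819639)) (l 16776784))) (a (a (l 3) (a (l 368998089207) (l 203104978039))) (l 16777544))) (a (a (b (a (l 380272378439) (c (l 215453008999) (l 221895459847))) (l 126332437255)) (l 16777608)) (l 16775840))) (l 16777528)) (c (l 16776488) (l 16776328)))) (b (a (b (b (a (b (a (l 3) (a (l 3) (l 335175221527))) (a (l 359871283815) (l 149417886695))) (c (l 115058148343) (c (l 110763180999) (l 109152568231)))) (b (a (a (a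 (l 195588785239) (l 16776928)) (l 16776536)) (l 16775752)) (l 16777104))) (l 16777208)) (l 16776080)) (l 16775896))) (a (a (l 16773984) (l 16778464)) (l 16775360))), by decide +kernel⟩

def k9_pp_101_s : ∃ t, chk3 f_pp_101_s t 17 125 1 = true :=
  ⟨(a (a (b (b (l 3) (l 14)) (l 14)) (a (a (b (b (l 3) (b (b (b (l 3) (l 14)) (l 14)) (l 14))) (l 14)) (b (b (b (l 3) (b (a (l 3) (a (l 3) (b (l 3) (b (a (l 3) (l 249812747015)) (a (l 241222812663) (l 16777056)))))) (a (a (l 3) (b (l 3) (a (l 372756185639) (b (l 351281348903) (l 148881015335))))) (a (b (b (c (l 356650058215) (l 361481896407)) (a (l 345375768839) (l 16777416))) (l 118816244295)) (l 100025762471))))) (b (b (a (a (b (b (l 376514282071) (a (l 373829927287) (l 160155304551))) (c (l 133311759015) (c (l 128479920791) (l 125795566215)))) (c (l 112910664343) (c (l 110763180663) (l 108615696983)))) (l 16777152)) (l 16777344)) (l 16776512))) (l 16772192))) (a (b (b (a (a (b (l 3) (b (b (b (a (l 3) (l 232632877815)) (a (l 240149070615)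 (l 16777024))) (l 16777440)) (l 16776040))) (b (b (l 3) (b (l 3) (a (b (l 3) (l 220821717799)) (b (l 210084299607) (l 16776992))))) (l 89288344183))) (b (a (b (a (l 3) (l 394767893623)) (b (b (a (l 393694151143) (l 198810010327)) (a (l 203641848631) (l 16776960))) (l 16776720))) (b (b (l 386714829671) (a (b (l 383493603751) (l 175724561079)) (l 144049177319))) (l 16777752))) (l 16777848))) (l 16775400)) (l 16777320)) (b (b (b (b (a (a (b (b (a (l 370071830887) (l 156397208151)) (l 137069855495)) (l 16776656)) (l 16777688)) (l 16775592)) (l 16777752)) (l 16776272)) (l 16775936)) (l 16775248))))) (a (b (a (b (c (l 16776872) (l 16774648)) (l 16778048)) (l 16775864)) (a (a (l 16773176) (l 16781600)) (l 16778528))) (b (a (l 16771744) (l 16778128)) (l 16772416)))), by decide +kernel⟩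

def k10_pp_101_s : ∃ t, chk3 f_pp_101_s t 17 63 1 = true :=
  ⟨(b (a (a (l 14) (b (a (l 14) (l 16778840)) (l 14))) (b (a (l 16751744) (l 16743672)) (l 16760824))) (a (l 14) (b (l 16732000) (l 16724112)))), by decide +kernel⟩

def k11_pp_101_s : ∃ t, chk3 f_pp_101_s t 18 60 1 = true :=
  ⟨(a (l 3) (b (l 3) (a (l 3) (b (l 3) (a (b (l 3) (a (l 3) (b (a (l 3) (b (l 3) (l 383493604823))) (b (a (l 397452248775) (a (a (l 342691414487) (l 209010558551)) (l 16777808))) (a (a (c (l 330880254407) (l 335175221687)) (l 147270403479)) (l 16776160)))))) (b (b (b (l 3) (a (l 3) (a (l 3) (a (l 377588024327) (a (l 324437803255) (l 163913401751)))))) (b (a (l 3) (a (a (l 398525990151) (a (l 346986381831) (l 214379267671))) (l 118279374071))) (a (a (l 3) (a (l 3) (a (l 370071831303) (l 323364061415)))) (c (l 115058148919) (a (l 129553663463) (l 16778240)))))) (a (b (a (b (a (l 3) (l 355039445751)) (b (a (l 346986381751) (l 16776928)) (l 16778040))) (a (a (b (l 212231784023) (l 16776304)) (l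 115058148615)) (l 16776104))) (l 16777664)) (l 16776488)))))))), by decide +kernel⟩

def k12_pp_101_s : ∃ t, chk3 f_pp_101_s t 36 122 1 = true :=
  ⟨(a (l 3) (b (l 3) (a (b (l 3) (b (l 3) (b (l 3) (b (l 3) (a (l 3) (a (l 3) (a (l 3) (l 351281349127)))))))) (b (a (l 3) (a (l 3) (b (l 3) (b (l 3) (b (l 377588024375) (a (l 375977411255) (l 154786595911))))))) (b (b (a (l 3) (a (b (l 392620410135) (a (l 398525989767) (l 196125656359))) (a (l 141364823319) (l 16776360)))) (b (a (l 3) (a (a (l 206863074743) (l 16776704)) (l 16778536))) (a (a (l 3) (a (l 3) (l 222432331191))) (l 16777280)))) (a (b (b (a (l 3) (a (l 319069094071) (l 16776808))) (a (a (l 3) (l 329806512423)) (l 16777912))) (a (b (a (l 340543930775) (l 16777568)) (l 119889986487)) (l 16775896))) (l 16777416))))))), by decide +kernel⟩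

def k13_pp_101_s : ∃ t, chk3 f_pp_101_s t 72 123 1 = true :=
  ⟨(b (a (l 3) (b (l 3) (b (a (l 3) (a (b (l 3) (a (l 381882991719) (b (l 359334412871) (l 154249724983)))) (b (b (a (l 3) (l 337859576199)) (a (l 348596994535) (l 16777608))) (c (l 16777832) (l 113447535607))))) (a (b (a (l 3) (b (l 388862313719) (a (l 393157280615) (l 171429594439)))) (b (a (l 3) (a (a (l 247665263703) (l 16777728)) (l 16776680))) (a (a (l 3) (c (l 212231783815) (l 214379267447))) (l 16776464)))) (a (a (b (b (l 161765917927) (l 16776632)) (l 16775920)) (l 16775864)) (l 16775080)))))) (a (b (b (a (l 3) (b (b (l 3) (a (l 3) (a (l 3) (a (l 366850605543) (l 203641848871))))) (b (a (l 3) (a (c (l 327659028791) (l 332490866999)) (l 16777520))) (a (a (l 3) (a (l 395841634983) (l 236927845495))) (l 113984406359))))) (a (b (a (l 3) (a (l 3) (a (l 3) (l 365776864023)))) (a (a (l 3) (l 387251700935)) (b (a (l 371145573031) (l 152639112327)) (a (a (l 207399945335) (l 16776968)) (l 16776576))))) (a (b (a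 (b (l 348596994551) (l 146196661207)) (l 120426857431)) (l 16776032)) (l 16778080)))) (a (a (b (b (b (a (l 390472926039) (c (l 171429594359) (l 168745239783))) (a (a (l 240685941911) (l 16777712)) (l 16776664))) (l 16777520)) (l 16777392)) (l 16777632)) (l 16775744))) (a (b (b (b (b (a (a (a (l 353428832647) (l 170892723143)) (l 16776776)) (l 16778608)) (l 16777672)) (l 16777944)) (l 16776512)) (l 16776280)) (l 16776104)))), by decide +kernel⟩

def k14_pp_101_s : ∃ t, chk3 f_pp_101_s t 73 123 1 = true :=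
  ⟨(a (b (a (a (b (b (l 3) (b (l 3) (b (a (l 3) (a (l 363629380039) (l 198810010631))) (a (l 328195899671) (l 16776856))))) (c (l 16777664) (b (l 16777544) (l 16773968)))) (b (b (b (l 3) (l 397989119799)) (b (b (a (l 3) (l 207399945655)) (a (l 221895460279) (l 16776752))) (l 16777616))) (l 16776560))) (b (b (a (b (c (l 386714830471) (l 392620410471)) (b (a (l 387788571447) (l 168208368839)) (a (l 195051914615) (l 16776656)))) (b (a (b (l 363092509287) (l 157470950487)) (l 127406179415)) (l 16776104))) (l 16777832)) (l 16777624))) (l 16772992)) (b (b (c (l 16777048) (l 16777512)) (l 16779744)) (l 16774104))), by decide +kernel⟩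

def k15_pp_101_s : ∃ t, chk3 f_pp_101_s t 37 61 1 = true :=
  ⟨(b (a (b (a (a (l 3) (b (l 3) (b (l 3) (a (a (l 3) (l 399062861943)) (b (l 386177959447) (b (a (l 380272378599) (l 157470950503)) (l 139754210743))))))) (b (a (l 3) (b (l 3) (a (b (l 3) (b (l 397452248375) (a (l 3) (l 202568107351)))) (b (b (l 380272378967) (a (l 381346120407) (l 16777736))) (c (l 16777968) (l 124184954215)))))) (b (b (b (a (l 3) (c (l 126869309223) (a (l 155860338167) (l 16775920)))) (a (a (l 3) (a (l 3) (l 232632878567))) (l 16777312))) (a (b (a (l 3) (a (l 250349618647) (l 16776848))) (a (l 361481896823) (l 16777960))) (l 16775304))) (a (a (b (b (a (l 353428832759) (l 16777624)) (l 126332437543)) (l 16776064)) (l 16775480)) (l 16779152))))) (a (b (b (b (a (l 3) (a (a (b (l 3) (l 216526751111)) (c (l 150491628999) (l 147807274407))) (l 16776176))) (a (a (l 3) (a (c (l 346986382023) (l 352355091127)) (b (l 229411653111) (l 16776840)))) (l 16777072))) (a (a (b (a (l 365776864151) (b (l 337322705271)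 (l 16777608))) (l 115058148471)) (l 16777736)) (l 16774360))) (c (l 16777952) (l 16777744))) (b (l 16777400) (l 16778920)))) (b (a (b (b (a (a (b (l 3) (b (l 360945025895) (a (l 351818220023) (l 16776960)))) (b (a (l 350744478391) (c (l 162839660199) (l 160692176519))) (l 16777712))) (l 16777912)) (a (c (l 16778192) (l 94120183079)) (l 16778680))) (l 16776944)) (l 16774616)) (l 16769320))) (b (a (b (l 16777272) (l 16773544)) (l 16756696)) (a (l 16778440) (l 16770328)))), by decide +kernel⟩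

def k16_pp_101_s : ∃ t, chk3 f_pp_101_s t 38 120 1 = true :=
  ⟨(a (l 3) (b (a (l 3) (a (l 3) (b (l 3) (b (l 3) (a (l 401747216999) (b (l 386714830311) (a (l 320679706855) (l 16777488)))))))) (a (b (b (l 3) (b (l 3) (a (l 3) (a (l 3) (a (l 3) (l 329269641559)))))) (b (a (a (l 3) (a (l 3) (l 386177959687))) (b (c (a (l 363629380743) (l 16778016)) (a (l 368461218935) (l 134922372727))) (a (a (l 204715591543) (l 16776656)) (l 16775856)))) (a (a (b (l 397989119671) (a (l 334638350775) (l 142975436167))) (b (a (a (l 341617672631) (l 204715591239)) (l 16778104)) (l 16776144))) (l 16777632)))) (b (b (b (a (l 3) (a (a (l 343228285463) (l 148344145383)) (l 16776184))) (a (a (l 3) (a (l 365239993159) (l 196125656855))) (l 16777112))) (a (a (b (a (l 387788571751) (a (l 333564608855) (l 168745240039))) (l 122037470551)) (l 16777992)) (l 16774424))) (l 16777984))))), by decide +kernel⟩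

def k17_pp_101_s : ∃ t, chk3 f_pp_101_s t 38 121 1 = true :=
  ⟨(a (b (a (b (l 3) (a (a (l 3) (b (l 3) (b (l 400673474295) (a (l 338933318135) (l 149417887191))))) (b (b (a (l 3) (a (l 3) (l 358260671223))) (a (l 386714830327) (a (a (l 324437803255) (l 162302789015)) (l 16776712)))) (b (a (a (a (l 348596994567) (l 214916138583)) (l 16777824)) (l 16776048)) (l 16778280))))) (b (b (a (l 3) (a (b (l 3) (a (l 376514282471) (a (l 237464717111) (l 158544692599)))) (b (a (l 355576316631) (l 163376531111)) (l 16777736)))) (a (b (a (l 3) (a (l 398525990135) (a (l 346449510903) (l 211158042215)))) (a (a (l 3) (l 338396447207)) (l 130627405335))) (c (l 16778232) (l 94120183175)))) (b (b (a (a (a (l 167134627543) (l 16776576)) (l 16775776)) (l 16779440)) (l 16776952)) (l 16778200)))) (a (a (b (a (b (b (a (l 358260671239) (l 168745240295)) (l 16777760)) (l 16775064)) (l 16777552)) (l 16777016)) (l 16776752)) (l 16773608))) (a (b (a (b (l 16777656) (l 16770712)) (l 16775672)) (l 16774664))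 (l 16774112))), by decide +kernel⟩

def k18_pp_101_s : ∃ t, chk3 f_pp_101_s t 39 60 1 = true :=
  ⟨(b (b (a (a (b (a (l 3) (b (l 3) (b (a (l 3) (a (l 366850605911) (l 198273140503))) (a (a (l 391009797255) (a (l 337322705255) (l 197199398407))) (l 16777800))))) (b (b (a (a (l 3) (a (l 3) (l 332490867079))) (c (l 16778096) (l 105931343351))) (a (a (a (l 3) (l 354502574791)) (a (l 160155305607) (l 16776528))) (l 16775200))) (a (b (a (a (l 210621171623) (l 16776680)) (l 16775880)) (l 16778120)) (l 16773824)))) (b (a (b (b (a (l 403357828855) (a (a (l 349670736375) (l 211158042215)) (l 16777480))) (a (a (l 343228285463) (l 147807274471)) (l 16776176))) (l 16777968)) (l 16776744)) (l 16776800))) (a (l 16774392) (l 16775448))) (a (a (a (l 16776624) (l 16769280)) (l 16766136)) (l 16759928))) (a (l 16769208) (l 16770304))), by decide +kernel⟩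

def k19_pp_101_s : ∃ t, chk3 f_pp_101_s t 19 61 1 = true :=
  ⟨(a (b (a (b (l 16773616) (l 16755824)) (b (l 16754832) (l 16747632))) (a (a (l 16767920) (l 16763856)) (l 16757800))) (b (a (a (l 16766120) (l 16741208)) (l 16756304)) (l 16725312))), by decide +kernel⟩

def k20_pp_101_s : ∃ t, chk3 f_pp_101_s t 9 31 1 = true :=
  ⟨(a (b (a (b (b (a (a (b (l 16775576) (l 16766504)) (l 16774776)) (l 16779112)) (a (b (l 16760624) (l 16777784)) (l 16771552))) (b (a (l 16772024) (l 16743040)) (l 16760400))) (b (a (b (l 16771000) (l 16742568)) (l 16759272)) (l 16748480))) (b (a (l 16748952) (l 16712688)) (a (l 16712672) (l 16697816)))) (b (a (b (l 16726568) (l 16712240)) (l 16725488)) (b (l 16711704) (l 16718568)))), by decide +kernel⟩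

def k21_pp_101_s : ∃ t, chk3 f_pp_101_s t 20 28 1 = true :=
  ⟨(l 3), by decide +kernel⟩

def k22_pp_101_s : ∃ t, chk3 f_pp_101_s t 21 56 1 = true :=
  ⟨(l 3), by decide +kernel⟩

def k23_pp_101_s : ∃ t, chk3 f_pp_101_s t 42 57 1 = true :=
  ⟨(b (l 3) (a (l 3) (b (l 3) (a (a (l 3) (b (l 3) (b (l 3) (a (a (l 3) (b (l 3) (b (l 413558375351) (l 219211105719)))) (a (b (l 400673473687) (a (l 147807274279) (l 16776768))) (b (b (l 360945025495) (l 138143597479)) (l 16776344))))))) (b (b (a (l 3) (a (l 3) (b (l 3) (a (l 397452248167) (b (l 354502574503) (l 132238017383)))))) (a (b (l 3) (a (l 3) (a (l 3) (a (l 3) (l 367387476599))))) (b (b (a (l 414095246791) (a (l 157470950567) (l 16776544))) (a (a (l 3) (l 212768654791)) (l 16776376))) (b (a (a (c (l 328195899591) (l 239612200567)) (l 16776776)) (l 16775928)) (l 77477184439))))) (a (a (b (b (l 414095247255) (a (b (l 3) (l 333027737815)) (b (l 217063622071) (l 16776792)))) (l 75329700919)) (b (b (a (b (l 387251700423) (l 188072592583))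 (l 113984406455)) (l 16776168)) (l 16774832))) (l 16777968))))))), by decide +kernel⟩

def k24_pp_101_s : ∃ t, chk3 f_pp_101_s t 43 114 1 = true :=
  ⟨(a (b (l 3) (a (l 3) (b (l 3) (b (l 3) (b (l 3) (a (l 3) (a (l 3) (b (a (l 3) (a (l 386714829303) (l 198810010519))) (a (l 356113187255) (l 16777528)))))))))) (b (a (l 3) (b (l 3) (b (a (l 3) (a (l 3) (b (a (l 3) (l 401747215511)) (b (a (l 416242729943) (c (l 185388237895) (l 16777776))) (a (a (l 269676971383) (l 16777592)) (l 16776656)))))) (a (a (l 3) (a (l 3) (b (l 3) (b (l 403894698823) (c (l 200420623591) (l 199346881751)))))) (a (b (a (c (l 388325442567) (l 391009797127)) (b (c (l 337322705175) (l 248739006087)) (l 16777576))) (a (b (l 146733532167) (l 16776592)) (l 16776232))) (l 16777776)))))) (a (a (b (l 3) (b (b (b (l 3) (a (l 3) (a (l 3) (a (l 371682443671) (l 182167012167))))) (b (a (l 3) (a (c (l 345375768919) (l 256255198919)) (l 16776824))) (a (a (l 3) (l 377588023911)) (l 102173246311)))) (b (a (b (a (l 409263407991)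 (l 153712854039)) (a (a (l 252497102103) (l 16777712)) (l 16776624))) (l 16775984)) (l 16777624)))) (a (b (b (l 3) (b (l 3) (a (l 407652795623) (b (l 365776863751) (l 142975435703))))) (a (b (b (a (b (l 237464716535) (l 16776848)) (l 16777440)) (l 16776024)) (l 16779904)) (l 16777608))) (b (b (a (l 3) (b (l 3) (l 415168988551))) (b (a (a (l 411947762695) (b (l 3) (l 210084299735))) (b (c (l 214379267431) (l 212768654695)) (l 16776776))) (l 86603989799))) (l 16776744)))) (b (a (b (b (b (a (l 3) (a (a (l 380272378327) (l 190220075895)) (l 16776720))) (a (a (l 3) (a (l 414632116967) (l 232632878295))) (l 16777216))) (a (a (b (l 385104216743) (c (l 182703883319) (l 16777760))) (l 110226310007)) (l 16775872))) (l 16777712)) (l 16777600)) (l 16776464))))), by decide +kernel⟩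

def k25_pp_101_s : ∃ t, chk3 f_pp_101_s t 43 115 1 = true :=
  ⟨(a (b (a (b (l 3) (b (a (l 3) (a (a (l 3) (b (l 3) (b (l 403894698823) (c (l 202568107255) (l 202031236327))))) (b (b (a (l 3) (a (l 411410891399) (l 220821718151))) (a (l 373293056583) (l 16777600))) (a (a (l 134385501335) (l 16776696)) (l 16776264))))) (a (b (b (l 3) (a (l 3) (a (l 3) (l 349670736247)))) (a (l 414632118119) (a (b (l 379735507575) (l 154786595895)) (l 107541955431)))) (b (b (a (a (a (l 377588023751) (l 191830688631)) (l 16776736)) (l 16778496)) (l 73182217047)) (l 16777944))))) (b (b (b (a (l 3) (a (a (l 415168988551) (b (l 387251700423) (c (l 186998850631) (l 16777776)))) (c (l 95193924615) (l 16777776)))) (b (a (l 3) (a (a (a (l 266992616807) (l 16777752)) (l 16776664)) (l 16778424))) (a (a (l 3) (a (l 3) (a (l 400136602183) (l 210084299815)))) (l 16777568)))) (a (a (b (c (l 410874021655) (l 415168988935)) (a (b (l 414632117255) (c (l 224042943975) (l 222969202151))) (a (b (l 236390974711)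 (l 16776848)) (l 16777440)))) (a (b (b (l 365239992839) (l 142438564791)) (l 16776352)) (l 81772151687))) (l 16777424))) (b (a (a (l 16777824) (l 16779960)) (l 16778248)) (l 16777600)))) (a (a (b (a (b (b (a (b (l 3) (c (l 324974674071) (l 235317233239))) (a (b (l 254107714839) (l 16776896)) (l 16777496))) (l 16777680)) (l 16775024)) (l 16777408)) (l 16777032)) (l 16776552)) (l 16778400))) (a (b (b (l 16777496) (l 16779168)) (l 16784360)) (l 16770200))), by decide +kernel⟩

def k26_pp_101_s : ∃ t, chk3 f_pp_101_s t 40 58 1 = true :=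
  ⟨(l 3), by decide +kernel⟩

def k27_pp_101_s : ∃ t, chk3 f_pp_101_s t 41 58 1 = true :=
  ⟨(b (a (l 3) (b (l 3) (a (l 3) (b (l 3) (b (b (l 3) (a (l 3) (a (l 3) (a (l 387788571655) (c (l 206863075207) (l 206326204279)))))) (b (a (l 3) (a (a (l 3) (c (l 328195899687) (l 331953996055))) (l 106468214007))) (a (a (l 3) (a (l 3) (l 364703122151))) (a (a (l 155323467399) (l 16776512)) (l 16775688))))))))) (a (b (a (l 3) (a (l 3) (a (l 3) (b (l 3) (b (l 3) (b (l 3) (a (l 361481896647) (l 154249725559)))))))) (a (a (b (l 3) (b (l 3) (a (b (l 3) (a (l 3) (l 349133865511))) (b (a (l 409800279303) (l 229948524759)) (l 125258696199))))) (a (b (l 3) (b (a (l 391009797879) (b (l 3) (l 200420624167))) (l 16778040))) (b (b (l 3) (l 410874022455)) (b (a (b (l 343228285415) (l 16776600)) (l 111300052471)) (l 16774992))))) (b (b (a (b (l 3) (a (l 3) (a (l 3) (l 336248963463)))) (a (b (a (l 394767893607) (l 216526751799)) (l 113984406887)) (l 16777296))) (a (a (b (l 381882991943) (a (l 224579815559)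 (l 16776752))) (b (a (l 161765918423) (l 16776552)) (l 16775936))) (l 16777376))) (c (l 16778528) (l 16778320))))) (b (b (a (b (l 3) (a (l 3) (a (a (l 412484634775) (b (l 3) (c (l 317458481287) (l 320142835847)))) (b (a (l 375440540551) (l 198273140503)) (l 16777824))))) (a (b (b (a (l 406042183351) (a (l 220284848199) (l 16776720))) (a (a (l 342154543543) (l 135459243303)) (l 16776104))) (l 16777936)) (l 16776640))) (a (b (a (a (c (l 404431571351) (l 406042184055)) (b (a (l 3) (l 352355091015)) (a (l 207936817111) (l 16776648)))) (a (b (l 125258696215) (l 16775832)) (l 16775184))) (a (a (a (b (l 328732770567) (l 16776504)) (l 16778048)) (l 16775584)) (l 16773952))) (l 16776816))) (a (b (l 16777632) (l 16779352)) (l 16776800))))), by decide +kernel⟩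

def k28_pp_101_s : ∃ t, chk3 f_pp_101_s t 40 59 1 = true :=
  ⟨(b (a (b (l 3) (a (a (l 3) (a (l 3) (b (l 3) (b (l 3) (b (l 3) (a (l 382956733447) (l 207399946311))))))) (b (a (l 3) (b (l 3) (b (a (l 3) (a (l 3) (l 327659028775))) (a (l 371682444471) (a (l 154249725543) (l 16776504)))))) (b (a (a (l 3) (b (l 393157281303) (a (l 327122157847) (l 16777520)))) (b (a (a (l 209547429959) (l 16776688)) (l 16775880)) (l 16775520))) (a (a (b (a (l 355039445655) (l 153712854615)) (l 16776408)) (l 16775784)) (l 16774176)))))) (b (a (b (l 3) (a (l 3) (a (b (l 3) (b (l 393694152215) (a (l 327659028759) (l 16778168)))) (a (b (l 3) (b (l 209010559047) (l 16776320))) (b (a (l 407115925271) (l 373293057271)) (l 16776232)))))) (b (b (a (l 3) (a (l 409263409847) (b (l 389936055767) (a (l 322290319559) (l 16778136))))) (a (a (l 3) (a (l 396378507095) (b (l 3) (l 206326204471)))) (a (b (a (l 352355091047) (l 148881016359)) (l 16776384)) (l 16775752)))) (b (a (a (b (a (l 408189666663) (l 325511545079))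 (l 131164276375)) (l 94120183191)) (l 16774512)) (l 16776432)))) (a (b (a (a (b (b (l 3) (a (l 386177958935) (l 210084300871))) (l 96804537799)) (b (b (a (l 356113187495) (l 153712854631)) (l 16776416)) (l 16775072))) (l 16776976)) (l 16777104)) (l 16774616)))) (b (a (a (b (a (a (b (l 3) (b (l 388325443031) (a (l 321753448663) (l 16778144)))) (a (b (l 3) (b (l 204715591719) (l 16776296))) (b (b (l 3) (l 352355091063)) (l 16777520)))) (b (a (b (a (l 405505312087) (l 324974674183)) (c (l 131164276263) (l 128479921735))) (l 96804537767)) (l 16777496))) (c (l 16778592) (l 16777088))) (b (l 16777808) (l 16779488))) (l 16774936)) (a (a (l 16778376) (l 16774192)) (l 16757472)))), by decide +kernel⟩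

def k29_pp_101_s : ∃ t, chk3 f_pp_101_s t 41 59 1 = true :=
  ⟨(b (a (b (a (b (b (b (a (a (a (l 205789333351) (l 16776632)) (l 16775824)) (l 16779440)) (l 16777016)) (l 16778304)) (l 16770408)) (l 16778376)) (l 16773504)) (b (l 16771984) (l 16754616))) (a (l 16773632) (l 16744456))), by decide +kernel⟩

def k30_pp_101_s : ∃ t, chk3 f_pp_101_s t 21 29 1 = true :=
  ⟨(b (a (b (a (b (a (l 3) (b (a (l 3) (a (l 3) (b (l 3) (a (l 409800280071) (b (l 3) (b (l 360945025511) (l 16777680))))))) (b (b (a (l 3) (a (a (l 3) (b (l 411947762615) (l 218674234807))) (a (l 132774888791) (l 16776352)))) (b (a (l 3) (a (a (l 243370296999) (l 16776800)) (l 16775960))) (a (a (l 3) (l 381882991623)) (l 16777712)))) (a (b (a (l 414095247239) (a (a (l 356650058231) (l 210621171287)) (l 16777784))) (a (a (c (l 356650058391) (l 360945025671)) (c (l 150491628951) (l 148344145271))) (l 16776184))) (l 16777584))))) (a (b (b (a (l 3) (a (a (l 3) (b (l 3) (a (l 375977411271) (l 234243491527)))) (b (a (l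 395304764519) (a (l 330880254183) (l 155323467127))) (c (l 112373793991) (l 108615697623))))) (a (a (l 414095248039) (b (c (l 385104217479) (l 389936055671)) (a (a (l 349133865399) (l 204178720295)) (l 16778080)))) (b (b (a (a (l 238538458727) (l 16776776)) (l 16775944)) (l 16777368)) (l 16778008)))) (a (a (b (b (a (l 351281349191) (l 144586048919)) (l 16777680)) (l 16775032)) (l 16777440)) (l 16778416))) (b (a (c (l 16777856) (l 16777720)) (l 16777544)) (l 16780360)))) (b (a (b (b (b (a (a (l 3) (a (l 3) (l 381346120615))) (b (a (a (l 334101479655) (l 16776800)) (l 16775960)) (l 79087797223))) (a (a (l 414095247271) (a (b (l 389936054999) (l 191293818087)) (l 116668761047))) (l 16778024))) (a (b (a (a (a (l 407115924471) (l 346986381719)) (a (l 199883752967) (l 16777544))) (l 16776184)) (l 76403442711)) (l 16774064))) (l 16777760)) (b (l 16776848) (l 16778560))) (l 16777488))) (b (a (a (l 16774224) (l 16775120)) (l 16758120)) (a (l 16780840) (l 16751312)))) (b (a (b (l 16773632)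 (l 16756240)) (l 16771760)) (l 16762728))) (a (b (l 16771664) (l 16774288)) (b (l 16749744) (l 16715800)))), by decide +kernel⟩

def k31_pp_101_s : ∃ t, chk3 f_pp_101_s t 44 112 1 = true :=
  ⟨(l 3), by decide +kernel⟩

def k32_pp_101_s : ∃ t, chk3 f_pp_101_s t 88 113 1 = true :=
  ⟨(b (l 3) (a (b (l 3) (b (l 3) (b (l 3) (b (l 3) (a (l 3) (a (l 3) (a (l 3) (l 352891961767)))))))) (a (b (l 3) (b (b (l 3) (a (l 3) (a (c (l 386177958903) (l 388862313463)) (a (b (l 400136602199) (l 16777048)) (l 137606726807))))) (b (b (a (l 413021504919) (a (l 146196661191) (l 16776440))) (a (a (l 3) (l 197199398183)) (l 16776272))) (b (a (a (a (l 380272378327) (l 187535721319)) (l 16776704)) (l 16775816)) (l 72645346359))))) (b (b (l 3) (b (a (l 3) (b (l 418927085175) (a (l 3) (l 224042943991)))) (a (a (l 3) (l 396915377255)) (b (a (l 346986381671) (l 16776816)) (l 102173246455))))) (a (b (b (a (b (l 415705858999) (l 211694912887)) (c (l 129553663063) (l 16777512))) (l 16777544)) (l 16774848))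 (l 16777200)))))), by decide +kernel⟩

def k33_pp_101_s : ∃ t, chk3 f_pp_101_s t 89 113 1 = true :=
  ⟨(b (a (b (l 3) (b (a (l 3) (a (l 3) (b (l 3) (b (l 399599731975) (a (l 415168988103) (l 177335174247)))))) (a (a (l 3) (b (l 3) (l 418390214551))) (a (a (b (l 3) (b (l 370071831111) (l 166060884999))) (b (b (l 3) (l 336248963335)) (l 16777336))) (a (b (b (l 212231783863) (l 16776768)) (l 16776080)) (l 16777248)))))) (b (b (a (l 3) (a (b (l 3) (b (l 416242730407) (a (l 3) (l 196662527271)))) (b (a (l 385104217063) (a (l 219747976839) (l 145659790295))) (c (l 108078826439) (l 16777792))))) (a (b (a (l 3) (a (l 3) (l 379198636951))) (a (l 419463956551) (a (b (l 392083538679) (l 186998850775)) (l 117742502791)))) (a (b (a (a (l 211694913127) (l 16777752)) (l 16776472)) (l 16775856)) (l 16775104)))) (a (a (b (b (a (c (l 371145573191) (l 373829927751)) (b (l 222432331255) (l 16776808))) (l 96804537271)) (l 16775032)) (l 16777376)) (l 16778184)))) (a (b (a (b (b (a (l 3) (a (b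 (l 3) (l 235317233255)) (b (l 201494365511) (l 16776728)))) (a (a (l 406042182871) (b (l 359334412759) (l 139754210167))) (l 16777640))) (a (a (b (b (l 189146334439) (l 16776680)) (l 16775984)) (l 16778472)) (l 16774944))) (l 16777344)) (l 16776824)) (l 16776480))), by decide +kernel⟩

def k34_pp_101_s : ∃ t, chk3 f_pp_101_s t 45 56 1 = true :=
  ⟨(b (a (b (a (l 3) (b (l 3) (a (l 3) (b (c (a (l 3) (l 404968442023)) (l 418390216023)) (b (a (l 425369536359) (l 174113949735)) (a (a (l 351818220135) (l 16777592)) (l 16776008))))))) (a (a (b (l 3) (a (b (l 3) (b (a (l 3) (l 390472926263)) (a (a (l 377588024023) (l 223506073255)) (l 133848630455)))) (a (b (l 3) (a (b (l 226727298759) (l 16776376)) (l 108615697575))) (b (a (l 404968441543) (b (l 3) (l 229411653351))) (l 16777392))))) (a (b (l 3) (b (b (a (l 396915377255) (l 200957495159)) (l 122037470455)) (l 16775168))) (b (b (l 3) (b (l 421611439879) (a (l 344838898167) (l 16777872)))) (l 16777496)))) (b (a (b (b (a (l 3) (a (l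 416779601111) (l 210084300727))) (a (a (l 3) (l 348596994615)) (l 129016792407))) (a (a (b (l 205789333399) (l 16776280)) (l 16776128)) (l 16775216))) (l 16777912)) (l 16777072)))) (b (a (b (b (a (l 3) (a (l 408189667543) (b (l 341080801959) (l 16777976)))) (a (b (l 426443279463) (a (l 3) (a (l 357723800231) (l 16778272)))) (a (l 144049178935) (l 16775272)))) (a (a (b (b (l 338933318263) (l 16777952)) (l 16775248)) (l 16777576)) (l 16778352))) (a (c (l 16777816) (l 16777672)) (l 16780512))) (b (l 16778664) (l 16774960)))) (a (b (a (b (c (b (l 16777920) (l 16777408)) (l 16778176)) (l 16779792)) (l 16776768)) (l 16771832)) (l 16776200))), by decide +kernel⟩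

def k35_pp_101_s : ∃ t, chk3 f_pp_101_s t 22 57 1 = true :=
  ⟨(a (b (b (b (a (b (a (a (l 3) (a (b (c (l 416242731015) (l 421074569207)) (b (a (l 3) (a (l 269140100471) (l 16777752))) (a (a (l 406042182263) (l 211158041719)) (l 16776784)))) (b (a (b (l 387251700423) (l 182167012519)) (l 108615697415)) (l 16777432)))) (l 16777536)) (a (a (a (a (l 3) (b (l 3) (a (l 401747215287) (b (l 3) (l 191830688647))))) (b (a (l 413558375719) (b (l 371682443831) (l 148881015783))) (b (a (a (l 247128392935) (l 16777032)) (l 16776592)) (l 16777736)))) (c (c (l 71571604423) (l 16777984)) (l 16777928))) (l 16777016))) (l 16775992)) (a (a (a (a (b (a (b (b (l 355576316327) (l 133848630103)) (l 16776296)) (l 16777480)) (l 16774632)) (l 16776992)) (l 16777840)) (l 16779528)) (l 16761872))) (a (a (l 16773600) (l 16763648)) (l 16756520))) (a (l 16776408) (l 16746080))) (a (b (l 16771424) (l 16736520)) (l 16754712))), by decide +kernel⟩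

def k36_pp_101_s : ∃ t, chk3 f_pp_101_s t 23 28 1 = true :=
  ⟨(b (a (a (b (l 16775832) (l 16745288)) (l 16763584)) (l 16769640)) (a (l 16760832) (l 16720312))), by decide +kernel⟩

def k37_pp_101_s : ∃ t, chk3 f_pp_101_s t 11 29 1 = true :=
  ⟨(a (b (a (b (l 16758232) (l 16745272)) (b (l 16739544) (l 16705904))) (a (l 16747152) (l 16688152))) (b (a (l 16692960) (l 16674416)) (l 16703776))), by decide +kernel⟩

def k38_pp_101_s : ∃ t, chk3 f_pp_101_s t 5 15 1 = true :=
  ⟨(a (b (a (b (a (b (a (l 16776224) (l 16747144)) (b (l 16761936) (l 16755048))) (b (a (l 16739184) (l 16731232)) (l 16742800))) (b (a (l 16744808) (l 16708800)) (l 16724056))) (b (a (b (l 16719184) (l 16706496)) (l 16697216)) (l 16701352))) (a (b (a (l 16690240) (l 16676296)) (b (l 16663344) (l 16671104))) (b (l 16655976) (l 16652592)))) (b (a (b (l 16694624) (l 16651432)) (l 16747128)) (b (a (l 16629464) (l 16603168)) (a (l 16607352) (l 16583488))))), by decide +kernel⟩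

def k39_pp_101_s : ∃ t, chk3 f_pp_101_s t 3 2 1 = true :=
  ⟨(a (l 3) (l 1)), by decide +kernel⟩

def k40_pp_101_s : ∃ t, chk3 f_pp_101_s t 6 12 1 = true :=
  ⟨(a (b (l 3) (a (l 3) (b (l 3) (a (l 3) (b (l 3) (a (b (l 3) (a (l 3) (l 399062868775))) (b (a (l 3) (a (l 387788575703) (l 1))) (a (b (a (l 3) (l 323900933303)) (c (l 179482663431) (l 16780000))) (l 117205635319))))))))) (a (b (l 1) (b (l 1) (a (b (l 1) (a (l 184717158791) (l 1))) (l 1)))) (l 1))), by decide +kernel⟩

def k41_pp_101_s : ∃ t, chk3 f_pp_101_s t 12 13 1 = true :=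
  ⟨(b (a (b (l 3) (a (b (l 3) (a (l 3) (b (l 3) (a (l 410337158679) (b (l 351818222023) (l 158007826695)))))) (b (a (b (l 3) (a (l 3) (b (l 3) (l 368461222183)))) (b (a (l 3) (b (l 382419866887) (a (l 319069094711) (l 16775328)))) (a (b (a (l 388325445527) (l 202031241447)) (l 16779816)) (l 16781904)))) (a (b (a (b (l 410874027287) (a (l 364166253335) (l 16778848))) (a (l 171966471911) (l 16773032))) (l 95193929063)) (l 16773912))))) (b (a (b (a (l 3) (b (l 3) (a (l 3) (b (l 396378511847) (a (l 348596996423) (l 16779408)))))) (a (b (a (l 3) (l 400673481991)) (a (b (l 3) (a (l 403894702871) (l 223506078759))) (b (a (l 336248964791) (l 16775784)) (l 16773648)))) (b (a (b (a (l 400136607143) (l 307794805175)) (l 163376535543)) (l 16777696)) (l 16778712)))) (b (a (b (a (b (l 3) (a (l 3) (l 317458482119))) (b (a (l 357723802215) (l 179482661511)) (l 16779656))) (a (c (b (l 171966470199) (l 16772728)) (l 16780776)) (l 16769688))) (a (l 16778824) (l 16784928))) (a (l 16783232) (l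 16753232)))) (a (b (a (b (a (l 129016797207) (l 16768616)) (l 16785160)) (l 16779088)) (l 16769944)) (l 16763536)))) (a (b (a (b (a (b (a (l 3) (b (l 3) (a (l 396915380551) (l 205789338183)))) (c (a (b (l 371682447943) (l 178945793543)) (l 16778120)) (a (b (l 378124898871) (l 168208375207)) (l 16778000)))) (a (b (a (b (l 331953997207) (l 16774456)) (l 16779656)) (l 16778304)) (l 16776920))) (a (b (c (l 16778672) (l 16778432)) (l 16781736)) (l 16775400))) (b (a (l 16779976) (l 16749184)) (l 16760544))) (a (a (l 16763304) (l 16753320)) (l 16738480))) (b (a (l 16758888) (l 16708808)) (a (l 16698136) (l 16679888))))), by decide +kernel⟩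

def k42_pp_101_s : ∃ t, chk3 f_pp_101_s t 13 13 1 = true :=
  ⟨(b (a (a (a (b (l 16772088) (l 16724144)) (l 84322286439)) (l 171295333271)) (b (l 1) (l 215855501175))) (a (b (a (l 16691640) (l 16676328)) (l 16675608)) (b (l 16655880) (l 16627664)))), by decide +kernel⟩

def k43_pp_101_s : ∃ t, chk3 f_pp_101_s t 7 6 1 = true :=
  ⟨(a (b (l 1) (b (l 1) (a (l 16617752) (l 1)))) (l 1)), by decide +kernel⟩

def k44_pp_101_s : ∃ t, chk3 f_pp_101_s t 3 7 1 = true :=
  ⟨(a (b (a (b (a (b (a (l 16707840) (l 16688440)) (l 16701840)) (b (l 16701968) (l 16633744))) (a (l 16668000) (l 16601272))) (b (a (l 16613232) (l 16586824)) (l 16611368))) (a (b (a (l 16642816) (l 16569520)) (a (l 16609936) (l 16689096))) (b (a (l 16543736) (l 16522632)) (a (l 16522392) (l 16506560))))) (b (a (b (l 16541144) (l 16515536)) (b (l 1) (l 16485808))) (a (b (l 16560176) (l 16487352)) (b (l 16471680) (l 6))))), by decide +kernel⟩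

theorem s45_pp_101_s : ∃ t, chk3 f_pp_101_s t 6 13 1 = true := ex3_a k41_pp_101_s k42_pp_101_s

theorem s46_pp_101_s : ∃ t, chk3 f_pp_101_s t 6 6 1 = true := ex3_b k40_pp_101_s s45_pp_101_s

theorem s47_pp_101_s : ∃ t, chk3 f_pp_101_s t 3 6 1 = true := ex3_a s46_pp_101_s k43_pp_101_s

theorem s48_pp_101_s : ∃ t, chk3 f_pp_101_s t 3 3 1 = true := ex3_b s47_pp_101_s k44_pp_101_s

theorem s49_pp_101_s : ∃ t, chk3 f_pp_101_s t 3 1 1 = true := ex3_b k39_pp_101_s s48_pp_101_s

theorem s50_pp_101_s : ∃ t, chk3 f_pp_101_s t 44 113 1 = true := ex3_a k32_pp_101_s k33_pp_101_s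

theorem s51_pp_101_s : ∃ t, chk3 f_pp_101_s t 44 56 1 = true := ex3_b k31_pp_101_s s50_pp_101_s

theorem s52_pp_101_s : ∃ t, chk3 f_pp_101_s t 22 56 1 = true := ex3_a s51_pp_101_s k34_pp_101_s

theorem s53_pp_101_s : ∃ t, chk3 f_pp_101_s t 22 28 1 = true := ex3_b s52_pp_101_s k35_pp_101_s

theorem s54_pp_101_s : ∃ t, chk3 f_pp_101_s t 11 28 1 = true := ex3_a s53_pp_101_s k36_pp_101_s

theorem s55_pp_101_s : ∃ t, chk3 f_pp_101_s t 11 14 1 = true := ex3_b s54_pp_101_s k37_pp_101_s

theorem s56_pp_101_s : ∃ t, chk3 f_pp_101_s t 20 59 1 = true := ex3_a k28_pp_101_s k29_pp_101_s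

theorem s57_pp_101_s : ∃ t, chk3 f_pp_101_s t 20 58 1 = true := ex3_a k26_pp_101_s k27_pp_101_s

theorem s58_pp_101_s : ∃ t, chk3 f_pp_101_s t 20 29 1 = true := ex3_b s57_pp_101_s s56_pp_101_s

theorem s59_pp_101_s : ∃ t, chk3 f_pp_101_s t 10 29 1 = true := ex3_a s58_pp_101_s k30_pp_101_s

theorem s60_pp_101_s : ∃ t, chk3 f_pp_101_s t 43 57 1 = true := ex3_b k24_pp_101_s k25_pp_101_s

theorem s61_pp_101_s : ∃ t, chk3 f_pp_101_s t 21 57 1 = true := ex3_a k23_pp_101_s s60_pp_101_s

theorem s62_pp_101_s : ∃ t, chk3 f_pp_101_s t 21 28 1 = true := ex3_b k22_pp_101_s s61_pp_101_s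

theorem s63_pp_101_s : ∃ t, chk3 f_pp_101_s t 10 28 1 = true := ex3_a k21_pp_101_s s62_pp_101_s

theorem s64_pp_101_s : ∃ t, chk3 f_pp_101_s t 10 14 1 = true := ex3_b s63_pp_101_s s59_pp_101_s

theorem s65_pp_101_s : ∃ t, chk3 f_pp_101_s t 5 14 1 = true := ex3_a s64_pp_101_s s55_pp_101_s

theorem s66_pp_101_s : ∃ t, chk3 f_pp_101_s t 5 7 1 = true := ex3_b s65_pp_101_s k38_pp_101_s

theorem s67_pp_101_s : ∃ t, chk3 f_pp_101_s t 38 60 1 = true := ex3_b k16_pp_101_s k17_pp_101_s

theorem s68_pp_101_s : ∃ t, chk3 f_pp_101_s t 19 60 1 = true := ex3_a s67_pp_101_s k18_pp_101_s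

theorem s69_pp_101_s : ∃ t, chk3 f_pp_101_s t 19 30 1 = true := ex3_b s68_pp_101_s k19_pp_101_s

theorem s70_pp_101_s : ∃ t, chk3 f_pp_101_s t 36 123 1 = true := ex3_a k13_pp_101_s k14_pp_101_s

theorem s71_pp_101_s : ∃ t, chk3 f_pp_101_s t 36 61 1 = true := ex3_b k12_pp_101_s s70_pp_101_s

theorem s72_pp_101_s : ∃ t, chk3 f_pp_101_s t 18 61 1 = true := ex3_a s71_pp_101_s k15_pp_101_s

theorem s73_pp_101_s : ∃ t, chk3 f_pp_101_s t 18 30 1 = true := ex3_b k11_pp_101_s s72_pp_101_s

theorem s74_pp_101_s : ∃ t, chk3 f_pp_101_s t 9 30 1 = true := ex3_a s73_pp_101_s s69_pp_101_s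

theorem s75_pp_101_s : ∃ t, chk3 f_pp_101_s t 9 15 1 = true := ex3_b s74_pp_101_s k20_pp_101_s

theorem s76_pp_101_s : ∃ t, chk3 f_pp_101_s t 70 124 1 = true := ex3_b k6_pp_101_s k7_pp_101_s

theorem s77_pp_101_s : ∃ t, chk3 f_pp_101_s t 35 124 1 = true := ex3_a s76_pp_101_s k8_pp_101_s

theorem s78_pp_101_s : ∃ t, chk3 f_pp_101_s t 17 124 1 = true := ex3_a k5_pp_101_s s77_pp_101_s

theorem s79_pp_101_s : ∃ t, chk3 f_pp_101_s t 17 62 1 = true := ex3_b s78_pp_101_s k9_pp_101_s

theorem s80_pp_101_s : ∃ t, chk3 f_pp_101_s t 17 31 1 = true := ex3_b s79_pp_101_s k10_pp_101_s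

theorem s81_pp_101_s : ∃ t, chk3 f_pp_101_s t 8 31 1 = true := ex3_a k4_pp_101_s s80_pp_101_s

theorem s82_pp_101_s : ∃ t, chk3 f_pp_101_s t 8 15 1 = true := ex3_b k3_pp_101_s s81_pp_101_s

theorem s83_pp_101_s : ∃ t, chk3 f_pp_101_s t 4 15 1 = true := ex3_a s82_pp_101_s s75_pp_101_s

theorem s84_pp_101_s : ∃ t, chk3 f_pp_101_s t 4 7 1 = true := ex3_b k2_pp_101_s s83_pp_101_s

theorem s85_pp_101_s : ∃ t, chk3 f_pp_101_s t 2 7 1 = true := ex3_a s84_pp_101_s s66_pp_101_s

theorem s86_pp_101_s : ∃ t, chk3 f_pp_101_s t 2 3 1 = true := ex3_b k1_pp_101_s s85_pp_101_s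

theorem s87_pp_101_s : ∃ t, chk3 f_pp_101_s t 2 1 1 = true := ex3_b k0_pp_101_s s86_pp_101_s

theorem s88_pp_101_s : ∃ t, chk3 f_pp_101_s t 1 1 1 = true := ex3_a s87_pp_101_s s49_pp_101_s

theorem c_pp_101_s : CertNE 536870912 536870912 536870912 536870912 536870912 50465866 3 eng mog cd6q1 cd0q1 pd0 false true true .npn 1 0 1
    ndB6q1 ndB0q1 pcB0 cut_pp_101_s Ext.none :=
  certNE2 (fam := false) (s1 := true) (s2 := true) (a := 1) (b := 0) (c := 1) (cn := .npn) (n1 := ndB6q1) (n2 := ndB0q1) (pc := pcB0) (cut := cut_pp_101_s) (xt := Ext.none) (P1 := 536870912) (W1 := 536870912) (P2 := 536870912) (W2 := 536870912) (P3 := 536870912) (W3 := 50465866) (N0 := 3) (En := eng) (mo := mog) (C1 := cd6q1) (C2 := cd0q1) (C3 := pd0)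
    rfl (fun _ => rfl) s88_pp_101_s

noncomputable def cut_pp_102_s : Cut := Cut.of [[⟨4, 0, 0, 1449551462⟩], [⟨0, 1, 0, 67108864⟩, ⟨1, 0, 0, 67108864⟩, ⟨2, 1, 0, 67108864⟩]]

noncomputable def f_pp_102_s : ℕ → ℕ → ℕ → ℕ → Bool := onCell 536870912 536870912 0 536870912 536870912 50465866
    (rowNE 3 eng mog cd6q1 cd0q2 pd0 0 false true true .npp 1 0 2 (qsf 536870912 536870912 0 536870912 0) ndB6q1 ndB0q2 pcB0 cut_pp_102_s Ext.none)

def k0_pp_102_s : ∃ t, chk3 f_pp_102_s t 1 1 1 = true :=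
  ⟨(b (l 6) (a (a (l 6) (b (l 6) (b (l 6) (a (b (l 6) (l 16508032)) (b (l 16694016) (a (l 16525208) (l 16542880))))))) (a (b (l 6) (b (a (a (l 6) (l 16537000)) (b (l 16543608) (l 16559504))) (a (b (l 16551888) (a (l 16562816) (l 16582720))) (b (a (l 16574992) (l 16591416)) (a (l 16603088) (b (l 16615240) (l 16675456))))))) (b (b (l 6) (a (a (l 6) (l 16541208)) (a (b (l 6) (l 16549520)) (l 16645856)))) (b (b (a (a (l 16555912) (l 16564432)) (a (l 16572688) (l 16603056))) (a (a (l 16578304) (b (l 16583320) (l 16598824))) (a (a (l 16601160) (l 16650712)) (a (l 16617024) (l 16625528))))) (a (b (a (a (l 16604232) (l 16612896)) (b (l 16616704) (l 16636912))) (b (a (l 16636368) (l 16680408)) (a (l 16720712) (b (l 16677824) (a (l 16683824) (l 16698040)))))) (b (a (a (l 16683760) (b (l 16640584) (l 16664856))) (a (b (l 16714048) (l 14)) (l 14))) (a (a (b (l 16678240) (b (l 16698504) (l 16733776))) (b (l 16754416) (l 14))) (l 14))))))))), by decide +kernel⟩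

theorem c_pp_102_s : CertNE 536870912 536870912 0 536870912 536870912 50465866 3 eng mog cd6q1 cd0q2 pd0 false true true .npp 1 0 2
    ndB6q1 ndB0q2 pcB0 cut_pp_102_s Ext.none :=
  certNE0 (fam := false) (s1 := true) (s2 := true) (a := 1) (b := 0) (c := 2) (cn := .npp) (n1 := ndB6q1) (n2 := ndB0q2) (pc := pcB0) (cut := cut_pp_102_s) (xt := Ext.none) (P1 := 536870912) (W1 := 536870912) (P2 := 0) (W2 := 536870912) (P3 := 536870912) (W3 := 50465866) (N0 := 3) (En := eng) (mo := mog) (C1 := cd6q1) (C2 := cd0q2) (C3 := pd0)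
    rfl k0_pp_102_s

noncomputable def cut_pp_112_s : Cut := Cut.of [[⟨4, 0, 0, 1449551462⟩]]

noncomputable def f_pp_112_s : ℕ → ℕ → ℕ → ℕ → Bool := onCell 536870912 536870912 0 536870912 536870912 50465866
    (rowNE 3 eng mog cd6q1 cd0q2 pd1 2 false true true .dn 1 1 2 (qsf 536870912 536870912 0 536870912 1) ndB6q1 ndB0q2 pcB1 cut_pp_112_s Ext.none)

def k0_pp_112_s : ∃ t, chk3 f_pp_112_s t 1 1 1 = true :=
  ⟨(a (l 6) (l 1)), by decide +kernel⟩

theorem c_pp_112_s : CertNE 536870912 536870912 0 536870912 536870912 50465866 3 eng mog cd6q1 cd0q2 pd1 false true true .dn 1 1 2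
    ndB6q1 ndB0q2 pcB1 cut_pp_112_s Ext.none :=
  certNE2 (fam := false) (s1 := true) (s2 := true) (a := 1) (b := 1) (c := 2) (cn := .dn) (n1 := ndB6q1) (n2 := ndB0q2) (pc := pcB1) (cut := cut_pp_112_s) (xt := Ext.none) (P1 := 536870912) (W1 := 536870912) (P2 := 0) (W2 := 536870912) (P3 := 536870912) (W3 := 50465866) (N0 := 3) (En := eng) (mo := mog) (C1 := cd6q1) (C2 := cd0q2) (C3 := pd1)
    rfl (fun _ => rfl) k0_pp_112_s

noncomputable def cut_pp_202_s : Cut := Cut.of [[⟨4, 0, 0, 1449551462⟩], [⟨0, 1, 0, 67108864⟩, ⟨1, 0, 0, 67108864⟩, ⟨2, 1, 0, 67108864⟩]]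

noncomputable def f_pp_202_s : ℕ → ℕ → ℕ → ℕ → Bool := onCell 0 536870912 0 536870912 536870912 50465866
    (rowNE 3 eng mog cd6q2 cd0q2 pd0 2 false true true .pp 2 0 2 (qsf 1073741824 536870912 0 536870912 0) ndB6q2 ndB0q2 pcB0 cut_pp_202_s Ext.none)

def k0_pp_202_s : ∃ t, chk3 f_pp_202_s t 1 1 1 = true :=
  ⟨(a (b (a (l 6) (l 6)) (a (b (a (b (a (l 16599648) (l 16570920)) (a (l 16701400) (l 16584984))) (b (l 6) (a (l 16548216) (l 16506824)))) (a (b (a (b (l 16642768) (l 14)) (b (l 16607304) (a (l 14) (l 16619584)))) (a (l 14) (a (l 14) (l 1)))) (b (b (a (l 16566768) (l 1)) (l 1)) (l 1)))) (b (l 1) (l 1)))) (l 1)), by decide +kernel⟩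

theorem c_pp_202_s : CertNE 1073741824 536870912 0 536870912 536870912 50465866 3 eng mog cd6q2 cd0q2 pd0 false true true .pp 2 0 2
    ndB6q2 ndB0q2 pcB0 cut_pp_202_s Ext.none :=
  certNE2 (fam := false) (s1 := true) (s2 := true) (a := 2) (b := 0) (c := 2) (cn := .pp) (n1 := ndB6q2) (n2 := ndB0q2) (pc := pcB0) (cut := cut_pp_202_s) (xt := Ext.none) (P1 := 1073741824) (W1 := 536870912) (P2 := 0) (W2 := 536870912) (P3 := 536870912) (W3 := 50465866) (N0 := 3) (En := eng) (mo := mog) (C1 := cd6q2) (C2 := cd0q2) (C3 := pd0)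
    rfl (fun _ => rfl) k0_pp_202_s

noncomputable def cut_pm_001_s : Cut := Cut.of [[⟨4, 0, 0, 1449551462⟩]]

noncomputable def f_pm_001_s : ℕ → ℕ → ℕ → ℕ → Bool := onCell 0 536870912 536870912 536870912 536870912 50465866
    (rowNE 3 eng mog cd6q0 cd0q1 pd0 0 false true false .up 0 0 1 (qsf 0 536870912 536870912 536870912 0) ndB6q0 ndB0q1 pcB0 cut_pm_001_s Ext.none)

def k0_pm_001_s : ∃ t, chk3 f_pm_001_s t 1 1 1 = true :=
  ⟨(l 4), by decide +kernel⟩

theorem c_pm_001_s : CertNE 0 536870912 536870912 536870912 536870912 50465866 3 eng mog cd6q0 cd0q1 pd0 false true false .up 0 0 1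
    ndB6q0 ndB0q1 pcB0 cut_pm_001_s Ext.none :=
  certNE0 (fam := false) (s1 := true) (s2 := false) (a := 0) (b := 0) (c := 1) (cn := .up) (n1 := ndB6q0) (n2 := ndB0q1) (pc := pcB0) (cut := cut_pm_001_s) (xt := Ext.none) (P1 := 0) (W1 := 536870912) (P2 := 536870912) (W2 := 536870912) (P3 := 536870912) (W3 := 50465866) (N0 := 3) (En := eng) (mo := mog) (C1 := cd6q0) (C2 := cd0q1) (C3 := pd0)
    rfl k0_pm_001_s

noncomputable def cut_pm_011_s : Cut := Cut.of [[⟨4, 0, 0, 1449551462⟩]]

noncomputable def f_pm_011_s : ℕ → ℕ → ℕ → ℕ → Bool := onCell 0 536870912 536870912 536870912 536870912 50465866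
    (rowNE 3 eng mog cd6q0 cd0q1 pd1 0 false true false .pnn 0 1 1 (qsf 0 536870912 536870912 536870912 1) ndB6q0 ndB0q1 pcB1 cut_pm_011_s Ext.none)

def k0_pm_011_s : ∃ t, chk3 f_pm_011_s t 1 1 1 = true :=
  ⟨(l 4), by decide +kernel⟩

theorem c_pm_011_s : CertNE 0 536870912 536870912 536870912 536870912 50465866 3 eng mog cd6q0 cd0q1 pd1 false true false .pnn 0 1 1
    ndB6q0 ndB0q1 pcB1 cut_pm_011_s Ext.none :=
  certNE0 (fam := false) (s1 := true) (s2 := false) (a := 0) (b := 1) (c := 1) (cn := .pnn) (n1 := ndB6q0) (n2 := ndB0q1) (pc := pcB1) (cut := cut_pm_011_s) (xt := Ext.none) (P1 := 0) (W1 := 536870912) (P2 := 536870912) (W2 := 536870912) (P3 := 536870912) (W3 := 50465866) (N0 := 3) (En := eng) (mo := mog) (C1 := cd6q0) (C2 := cd0q1) (C3 := pd1)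
    rfl k0_pm_011_s

noncomputable def cut_pm_012_s : Cut := Cut.of [[⟨4, 0, 0, 1449551462⟩]]

noncomputable def f_pm_012_s : ℕ → ℕ → ℕ → ℕ → Bool := onCell 0 536870912 0 536870912 536870912 50465866
    (rowNE 3 eng mog cd6q0 cd0q2 pd1 0 false true false .pnp 0 1 2 (qsf 0 536870912 0 536870912 1) ndB6q0 ndB0q2 pcB1 cut_pm_012_s Ext.none)

def k0_pm_012_s : ∃ t, chk3 f_pm_012_s t 1 1 1 = true :=
  ⟨(l 6), by decide +kernel⟩

theorem c_pm_012_s : CertNE 0 536870912 0 536870912 536870912 50465866 3 eng mog cd6q0 cd0q2 pd1 false true false .pnp 0 1 2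
    ndB6q0 ndB0q2 pcB1 cut_pm_012_s Ext.none :=
  certNE0 (fam := false) (s1 := true) (s2 := false) (a := 0) (b := 1) (c := 2) (cn := .pnp) (n1 := ndB6q0) (n2 := ndB0q2) (pc := pcB1) (cut := cut_pm_012_s) (xt := Ext.none) (P1 := 0) (W1 := 536870912) (P2 := 0) (W2 := 536870912) (P3 := 536870912) (W3 := 50465866) (N0 := 3) (En := eng) (mo := mog) (C1 := cd6q0) (C2 := cd0q2) (C3 := pd1)
    rfl k0_pm_012_s

noncomputable def cut_pm_022_s : Cut := Cut.of [[⟨4, 0, 0, 1449551462⟩]]

noncomputable def f_pm_022_s : ℕ → ℕ → ℕ → ℕ → Bool := onCell 0 536870912 0 536870912 536870912 50465866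
    (rowNE 3 eng mog cd6q0 cd0q2 pd2 0 false true false .pp 0 2 2 (qsf 0 536870912 0 536870912 2) ndB6q0 ndB0q2 pcB2 cut_pm_022_s Ext.none)

def k0_pm_022_s : ∃ t, chk3 f_pm_022_s t 1 1 1 = true :=
  ⟨(l 6), by decide +kernel⟩

theorem c_pm_022_s : CertNE 0 536870912 0 536870912 536870912 50465866 3 eng mog cd6q0 cd0q2 pd2 false true false .pp 0 2 2
    ndB6q0 ndB0q2 pcB2 cut_pm_022_s Ext.none :=
  certNE0 (fam := false) (s1 := true) (s2 := false) (a := 0) (b := 2) (c := 2) (cn := .pp) (n1 := ndB6q0) (n2 := ndB0q2) (pc := pcB2) (cut := cut_pm_022_s) (xt := Ext.none) (P1 := 0) (W1 := 536870912) (P2 := 0) (W2 := 536870912) (P3 := 536870912) (W3 := 50465866) (N0 := 3) (En := eng) (mo := mog) (C1 := cd6q0) (C2 := cd0q2) (C3 := pd2)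
    rfl k0_pm_022_s

noncomputable def cut_pm_101_s : Cut := Cut.of [[⟨4, 0, 0, 1449551462⟩]]

noncomputable def f_pm_101_s : ℕ → ℕ → ℕ → ℕ → Bool := onCell 536870912 536870912 536870912 536870912 536870912 50465866
    (rowNE 3 eng mog cd6q1 cd0q1 pd0 0 false true false .npn 1 0 1 (qsf 536870912 536870912 536870912 536870912 0) ndB6q1 ndB0q1 pcB0 cut_pm_101_s Ext.none)

def k0_pm_101_s : ∃ t, chk3 f_pm_101_s t 1 1 1 = true :=
  ⟨(l 4), by decide +kernel⟩

theorem c_pm_101_s : CertNE 536870912 536870912 536870912 536870912 536870912 50465866 3 eng mog cd6q1 cd0q1 pd0 false true false .npn 1 0 1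
    ndB6q1 ndB0q1 pcB0 cut_pm_101_s Ext.none :=
  certNE0 (fam := false) (s1 := true) (s2 := false) (a := 1) (b := 0) (c := 1) (cn := .npn) (n1 := ndB6q1) (n2 := ndB0q1) (pc := pcB0) (cut := cut_pm_101_s) (xt := Ext.none) (P1 := 536870912) (W1 := 536870912) (P2 := 536870912) (W2 := 536870912) (P3 := 536870912) (W3 := 50465866) (N0 := 3) (En := eng) (mo := mog) (C1 := cd6q1) (C2 := cd0q1) (C3 := pd0)
    rfl k0_pm_101_s

noncomputable def cut_pm_102_s : Cut := Cut.of [[⟨4, 0, 0, 1449551462⟩]]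

noncomputable def f_pm_102_s : ℕ → ℕ → ℕ → ℕ → Bool := onCell 536870912 536870912 0 536870912 536870912 50465866
    (rowNE 3 eng mog cd6q1 cd0q2 pd0 0 false true false .npp 1 0 2 (qsf 536870912 536870912 0 536870912 0) ndB6q1 ndB0q2 pcB0 cut_pm_102_s Ext.none)

def k0_pm_102_s : ∃ t, chk3 f_pm_102_s t 1 1 1 = true :=
  ⟨(l 6), by decide +kernel⟩

theorem c_pm_102_s : CertNE 536870912 536870912 0 536870912 536870912 50465866 3 eng mog cd6q1 cd0q2 pd0 false true false .npp 1 0 2
    ndB6q1 ndB0q2 pcB0 cut_pm_102_s Ext.none :=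
  certNE0 (fam := false) (s1 := true) (s2 := false) (a := 1) (b := 0) (c := 2) (cn := .npp) (n1 := ndB6q1) (n2 := ndB0q2) (pc := pcB0) (cut := cut_pm_102_s) (xt := Ext.none) (P1 := 536870912) (W1 := 536870912) (P2 := 0) (W2 := 536870912) (P3 := 536870912) (W3 := 50465866) (N0 := 3) (En := eng) (mo := mog) (C1 := cd6q1) (C2 := cd0q2) (C3 := pd0)
    rfl k0_pm_102_s

noncomputable def cut_pm_112_s : Cut := Cut.of [[⟨4, 0, 0, 1449551462⟩]]

noncomputable def f_pm_112_s : ℕ → ℕ → ℕ → ℕ → Bool := onCell 536870912 536870912 0 536870912 536870912 50465866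
    (rowNE 3 eng mog cd6q1 cd0q2 pd1 0 false true false .dn 1 1 2 (qsf 536870912 536870912 0 536870912 1) ndB6q1 ndB0q2 pcB1 cut_pm_112_s Ext.none)

def k0_pm_112_s : ∃ t, chk3 f_pm_112_s t 1 1 1 = true :=
  ⟨(l 6), by decide +kernel⟩

theorem c_pm_112_s : CertNE 536870912 536870912 0 536870912 536870912 50465866 3 eng mog cd6q1 cd0q2 pd1 false true false .dn 1 1 2
    ndB6q1 ndB0q2 pcB1 cut_pm_112_s Ext.none :=
  certNE0 (fam := false) (s1 := true) (s2 := false) (a := 1) (b := 1) (c := 2) (cn := .dn) (n1 := ndB6q1) (n2 := ndB0q2) (pc := pcB1) (cut := cut_pm_112_s) (xt := Ext.none) (P1 := 536870912) (W1 := 536870912) (P2 := 0) (W2 := 536870912) (P3 := 536870912) (W3 := 50465866) (N0 := 3) (En := eng) (mo := mog) (C1 := cd6q1) (C2 := cd0q2) (C3 := pd1)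
    rfl k0_pm_112_s

noncomputable def cut_pm_202_s : Cut := Cut.of [[⟨4, 0, 0, 1449551462⟩]]

noncomputable def f_pm_202_s : ℕ → ℕ → ℕ → ℕ → Bool := onCell 0 536870912 0 536870912 536870912 50465866
    (rowNE 3 eng mog cd6q2 cd0q2 pd0 2 false true false .pp 2 0 2 (qsf 1073741824 536870912 0 536870912 0) ndB6q2 ndB0q2 pcB0 cut_pm_202_s Ext.none)

def k0_pm_202_s : ∃ t, chk3 f_pm_202_s t 1 1 1 = true :=
  ⟨(l 6), by decide +kernel⟩

theorem c_pm_202_s : CertNE 1073741824 536870912 0 536870912 536870912 50465866 3 eng mog cd6q2 cd0q2 pd0 false true false .pp 2 0 2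
    ndB6q2 ndB0q2 pcB0 cut_pm_202_s Ext.none :=
  certNE2 (fam := false) (s1 := true) (s2 := false) (a := 2) (b := 0) (c := 2) (cn := .pp) (n1 := ndB6q2) (n2 := ndB0q2) (pc := pcB0) (cut := cut_pm_202_s) (xt := Ext.none) (P1 := 1073741824) (W1 := 536870912) (P2 := 0) (W2 := 536870912) (P3 := 536870912) (W3 := 50465866) (N0 := 3) (En := eng) (mo := mog) (C1 := cd6q2) (C2 := cd0q2) (C3 := pd0)
    rfl (fun _ => rfl) k0_pm_202_s

noncomputable def cut_mm_001_s : Cut := Cut.of [[⟨4, 0, 0, 1449551462⟩]]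

noncomputable def f_mm_001_s : ℕ → ℕ → ℕ → ℕ → Bool := onCell 0 536870912 536870912 536870912 536870912 50465866
    (rowNE 3 eng mog cd6q0 cd0q1 pd0 0 false false false .up 0 0 1 (qsf 0 536870912 536870912 536870912 0) ndB6q0 ndB0q1 pcB0 cut_mm_001_s Ext.none)

def k0_mm_001_s : ∃ t, chk3 f_mm_001_s t 1 1 1 = true :=
  ⟨(l 5), by decide +kernel⟩

theorem c_mm_001_s : CertNE 0 536870912 536870912 536870912 536870912 50465866 3 eng mog cd6q0 cd0q1 pd0 false false false .up 0 0 1
    ndB6q0 ndB0q1 pcB0 cut_mm_001_s Ext.none :=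
  certNE0 (fam := false) (s1 := false) (s2 := false) (a := 0) (b := 0) (c := 1) (cn := .up) (n1 := ndB6q0) (n2 := ndB0q1) (pc := pcB0) (cut := cut_mm_001_s) (xt := Ext.none) (P1 := 0) (W1 := 536870912) (P2 := 536870912) (W2 := 536870912) (P3 := 536870912) (W3 := 50465866) (N0 := 3) (En := eng) (mo := mog) (C1 := cd6q0) (C2 := cd0q1) (C3 := pd0)
    rfl k0_mm_001_s

noncomputable def cut_mm_011_s : Cut := Cut.of [[⟨4, 0, 0, 1449551462⟩]]

noncomputable def f_mm_011_s : ℕ → ℕ → ℕ → ℕ → Bool := onCell 0 536870912 536870912 536870912 536870912 50465866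
    (rowNE 3 eng mog cd6q0 cd0q1 pd1 0 false false false .pnn 0 1 1 (qsf 0 536870912 536870912 536870912 1) ndB6q0 ndB0q1 pcB1 cut_mm_011_s Ext.none)

def k0_mm_011_s : ∃ t, chk3 f_mm_011_s t 1 1 1 = true :=
  ⟨(l 5), by decide +kernel⟩

theorem c_mm_011_s : CertNE 0 536870912 536870912 536870912 536870912 50465866 3 eng mog cd6q0 cd0q1 pd1 false false false .pnn 0 1 1
    ndB6q0 ndB0q1 pcB1 cut_mm_011_s Ext.none :=
  certNE0 (fam := false) (s1 := false) (s2 := false) (a := 0) (b := 1) (c := 1) (cn := .pnn) (n1 := ndB6q0) (n2 := ndB0q1) (pc := pcB1) (cut := cut_mm_011_s) (xt := Ext.none) (P1 := 0) (W1 := 536870912) (P2 := 536870912) (W2 := 536870912) (P3 := 536870912) (W3 := 50465866) (N0 := 3) (En := eng) (mo := mog) (C1 := cd6q0) (C2 := cd0q1) (C3 := pd1)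
    rfl k0_mm_011_s

noncomputable def cut_mm_012_s : Cut := Cut.of [[⟨4, 0, 0, 1449551462⟩]]

noncomputable def f_mm_012_s : ℕ → ℕ → ℕ → ℕ → Bool := onCell 0 536870912 0 536870912 536870912 50465866
    (rowNE 3 eng mog cd6q0 cd0q2 pd1 0 false false false .pnp 0 1 2 (qsf 0 536870912 0 536870912 1) ndB6q0 ndB0q2 pcB1 cut_mm_012_s Ext.none)

def k0_mm_012_s : ∃ t, chk3 f_mm_012_s t 1 1 1 = true :=
  ⟨(l 5), by decide +kernel⟩

theorem c_mm_012_s : CertNE 0 536870912 0 536870912 536870912 50465866 3 eng mog cd6q0 cd0q2 pd1 false false false .pnp 0 1 2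
    ndB6q0 ndB0q2 pcB1 cut_mm_012_s Ext.none :=
  certNE0 (fam := false) (s1 := false) (s2 := false) (a := 0) (b := 1) (c := 2) (cn := .pnp) (n1 := ndB6q0) (n2 := ndB0q2) (pc := pcB1) (cut := cut_mm_012_s) (xt := Ext.none) (P1 := 0) (W1 := 536870912) (P2 := 0) (W2 := 536870912) (P3 := 536870912) (W3 := 50465866) (N0 := 3) (En := eng) (mo := mog) (C1 := cd6q0) (C2 := cd0q2) (C3 := pd1)
    rfl k0_mm_012_s

noncomputable def cut_mm_022_s : Cut := Cut.of [[⟨4, 0, 0, 1449551462⟩]]

noncomputable def f_mm_022_s : ℕ → ℕ → ℕ → ℕ → Bool := onCell 0 536870912 0 536870912 536870912 50465866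
    (rowNE 3 eng mog cd6q0 cd0q2 pd2 0 false false false .pp 0 2 2 (qsf 0 536870912 0 536870912 2) ndB6q0 ndB0q2 pcB2 cut_mm_022_s Ext.none)

def k0_mm_022_s : ∃ t, chk3 f_mm_022_s t 1 1 1 = true :=
  ⟨(l 5), by decide +kernel⟩

theorem c_mm_022_s : CertNE 0 536870912 0 536870912 536870912 50465866 3 eng mog cd6q0 cd0q2 pd2 false false false .pp 0 2 2
    ndB6q0 ndB0q2 pcB2 cut_mm_022_s Ext.none :=
  certNE0 (fam := false) (s1 := false) (s2 := false) (a := 0) (b := 2) (c := 2) (cn := .pp) (n1 := ndB6q0) (n2 := ndB0q2) (pc := pcB2) (cut := cut_mm_022_s) (xt := Ext.none) (P1 := 0) (W1 := 536870912) (P2 := 0) (W2 := 536870912) (P3 := 536870912) (W3 := 50465866) (N0 := 3) (En := eng) (mo := mog) (C1 := cd6q0) (C2 := cd0q2) (C3 := pd2)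
    rfl k0_mm_022_s

noncomputable def cut_mm_101_s : Cut := Cut.of [[⟨4, 0, 0, 1449551462⟩]]

noncomputable def f_mm_101_s : ℕ → ℕ → ℕ → ℕ → Bool := onCell 0 536870912 536870912 536870912 536870912 50465866
    (rowNE 3 eng mog cd6q1 cd0q1 pd0 2 false false false .npn 1 0 1 (qsf 536870912 536870912 536870912 536870912 0) ndB6q1 ndB0q1 pcB0 cut_mm_101_s Ext.none)

def k0_mm_101_s : ∃ t, chk3 f_mm_101_s t 1 1 1 = true :=
  ⟨(l 5), by decide +kernel⟩

theorem c_mm_101_s : CertNE 536870912 536870912 536870912 536870912 536870912 50465866 3 eng mog cd6q1 cd0q1 pd0 false false false .npn 1 0 1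
    ndB6q1 ndB0q1 pcB0 cut_mm_101_s Ext.none :=
  certNE2 (fam := false) (s1 := false) (s2 := false) (a := 1) (b := 0) (c := 1) (cn := .npn) (n1 := ndB6q1) (n2 := ndB0q1) (pc := pcB0) (cut := cut_mm_101_s) (xt := Ext.none) (P1 := 536870912) (W1 := 536870912) (P2 := 536870912) (W2 := 536870912) (P3 := 536870912) (W3 := 50465866) (N0 := 3) (En := eng) (mo := mog) (C1 := cd6q1) (C2 := cd0q1) (C3 := pd0)
    rfl (fun _ => rfl) k0_mm_101_s

noncomputable def cut_mm_102_s : Cut := Cut.of [[⟨4, 0, 0, 1449551462⟩]]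

noncomputable def f_mm_102_s : ℕ → ℕ → ℕ → ℕ → Bool := onCell 536870912 536870912 0 536870912 536870912 50465866
    (rowNE 3 eng mog cd6q1 cd0q2 pd0 0 false false false .npp 1 0 2 (qsf 536870912 536870912 0 536870912 0) ndB6q1 ndB0q2 pcB0 cut_mm_102_s Ext.none)

def k0_mm_102_s : ∃ t, chk3 f_mm_102_s t 1 1 1 = true :=
  ⟨(l 5), by decide +kernel⟩

theorem c_mm_102_s : CertNE 536870912 536870912 0 536870912 536870912 50465866 3 eng mog cd6q1 cd0q2 pd0 false false false .npp 1 0 2
    ndB6q1 ndB0q2 pcB0 cut_mm_102_s Ext.none :=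
  certNE0 (fam := false) (s1 := false) (s2 := false) (a := 1) (b := 0) (c := 2) (cn := .npp) (n1 := ndB6q1) (n2 := ndB0q2) (pc := pcB0) (cut := cut_mm_102_s) (xt := Ext.none) (P1 := 536870912) (W1 := 536870912) (P2 := 0) (W2 := 536870912) (P3 := 536870912) (W3 := 50465866) (N0 := 3) (En := eng) (mo := mog) (C1 := cd6q1) (C2 := cd0q2) (C3 := pd0)
    rfl k0_mm_102_s

noncomputable def cut_mm_112_s : Cut := Cut.of [[⟨4, 0, 0, 1449551462⟩]]

noncomputable def f_mm_112_s : ℕ → ℕ → ℕ → ℕ → Bool := onCell 536870912 536870912 0 536870912 536870912 50465866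
    (rowNE 3 eng mog cd6q1 cd0q2 pd1 0 false false false .dn 1 1 2 (qsf 536870912 536870912 0 536870912 1) ndB6q1 ndB0q2 pcB1 cut_mm_112_s Ext.none)

def k0_mm_112_s : ∃ t, chk3 f_mm_112_s t 1 1 1 = true :=
  ⟨(l 5), by decide +kernel⟩

theorem c_mm_112_s : CertNE 536870912 536870912 0 536870912 536870912 50465866 3 eng mog cd6q1 cd0q2 pd1 false false false .dn 1 1 2
    ndB6q1 ndB0q2 pcB1 cut_mm_112_s Ext.none :=
  certNE0 (fam := false) (s1 := false) (s2 := false) (a := 1) (b := 1) (c := 2) (cn := .dn) (n1 := ndB6q1) (n2 := ndB0q2) (pc := pcB1) (cut := cut_mm_112_s) (xt := Ext.none) (P1 := 536870912) (W1 := 536870912) (P2 := 0) (W2 := 536870912) (P3 := 536870912) (W3 := 50465866) (N0 := 3) (En := eng) (mo := mog) (C1 := cd6q1) (C2 := cd0q2) (C3 := pd1)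
    rfl k0_mm_112_s

noncomputable def cut_mm_202_s : Cut := Cut.of [[⟨4, 0, 0, 1449551462⟩]]

noncomputable def f_mm_202_s : ℕ → ℕ → ℕ → ℕ → Bool := onCell 1073741824 536870912 0 536870912 536870912 50465866
    (rowNE 3 eng mog cd6q2 cd0q2 pd0 0 false false false .pp 2 0 2 (qsf 1073741824 536870912 0 536870912 0) ndB6q2 ndB0q2 pcB0 cut_mm_202_s Ext.none)

def k0_mm_202_s : ∃ t, chk3 f_mm_202_s t 1 1 1 = true :=
  ⟨(l 5), by decide +kernel⟩

theorem c_mm_202_s : CertNE 1073741824 536870912 0 536870912 536870912 50465866 3 eng mog cd6q2 cd0q2 pd0 false false false .pp 2 0 2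
    ndB6q2 ndB0q2 pcB0 cut_mm_202_s Ext.none :=
  certNE0 (fam := false) (s1 := false) (s2 := false) (a := 2) (b := 0) (c := 2) (cn := .pp) (n1 := ndB6q2) (n2 := ndB0q2) (pc := pcB0) (cut := cut_mm_202_s) (xt := Ext.none) (P1 := 1073741824) (W1 := 536870912) (P2 := 0) (W2 := 536870912) (P3 := 536870912) (W3 := 50465866) (N0 := 3) (En := eng) (mo := mog) (C1 := cd6q2) (C2 := cd0q2) (C3 := pd0)
    rfl k0_mm_202_s

end Pool.Agent.Strip051.G.I5000_5470.Tab.CS.BB60

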