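import Pool.Agent.Strip051.G.I5000_5470.Fact
import Pool.Agent.Strip051.PB.CFact
import Pool.Agent.Strip051.PB.CGood
import Pool.Agent.Strip051.LC.Box.Inst.I5000_5470F
import Pool.Agent.Strip051.LC.Box.Inst.I5000_5470N

/-! # The costs of the edges, I5000_5470 (generated) -/

set_option linter.all false

namespace Pool.Agent.Strip051.G.I5000_5470.Tab

open Pool.Agent.Strip051.PB Pool.Agent.StripNear Pool.Agent.StripSquare Pool.Agent.Strip051.Sweep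
open Pool.Agent.Strip051.LC
open Pool.Agent.Strip051.LC.Box (Aff cbv Certs)

/-- the costs, far vertices -/
def ccFC : List (List Aff) :=
  [[⟨.ofNat 1247, .negSucc 988, .negSucc 601⟩, ⟨.ofNat 1020, .negSucc 1155, .ofNat 90⟩, ⟨.ofNat 57, .negSucc 1334, .ofNat 916⟩, ⟨.negSucc 2795, .negSucc 1056, .ofNat 5127⟩],
   [⟨.ofNat 1155, .ofNat 1889, .negSucc 894⟩, ⟨.ofNat 949, .ofNat 829, .negSucc 468⟩, ⟨.ofNat 525, .ofNat 17, .negSucc 93⟩],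
   [⟨.ofNat 321, .ofNat 1557, .negSucc 1186⟩, ⟨.ofNat 1220, .ofNat 1705, .negSucc 1898⟩, ⟨.ofNat 553, .negSucc 1703, .ofNat 1993⟩, ⟨.ofNat 539, .negSucc 1325, .ofNat 1253⟩],
   [⟨.ofNat 1214, .ofNat 176, .ofNat 30⟩, ⟨.ofNat 601, .ofNat 483, .negSucc 548⟩, ⟨.ofNat 729, .negSucc 229, .ofNat 181⟩],
   [⟨.ofNat 433, .negSucc 69, .ofNat 312⟩, ⟨.ofNat 753, .ofNat 2826, .negSucc 2879⟩, ⟨.ofNat 2564, .ofNat 136, .ofNat 79⟩],
   [⟨.ofNat 48, .negSucc 467, .ofNat 567⟩, ⟨.ofNat 2424, .negSucc 150, .negSucc 2688⟩],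
   [⟨.ofNat 828, .ofNat 1105, .negSucc 1006⟩, ⟨.ofNat 620, .ofNat 84, .ofNat 7⟩]]

/-- the costs of unit edges, far vertices -/
def ccFU : List (List Aff) :=
  [[⟨.negSucc 171, .negSucc 1056, .ofNat 1026⟩, ⟨.negSucc 1395, .negSucc 1299, .ofNat 2060⟩],
   [⟨.ofNat 154, .ofNat 943, .negSucc 335⟩, ⟨.ofNat 2440, .ofNat 2866, .negSucc 3505⟩, ⟨.negSucc 44, .negSucc 769, .ofNat 1067⟩],
   [⟨.ofNat 696, .ofNat 901, .negSucc 772⟩, ⟨.ofNat 696, .negSucc 537, .ofNat 597⟩]]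

theorem ccFC_eq : ccFC = LC.Box.I5000_5470F.C := rfl

theorem ccFU_eq : ccFU = LC.Box.I5000_5470F.U := rfl

/-- the costs, near vertices -/
def ccNC : List (List Aff) :=
  [[⟨.ofNat 1256, .negSucc 1008, .negSucc 804⟩, ⟨.ofNat 1015, .negSucc 1151, .ofNat 99⟩, ⟨.negSucc 17, .negSucc 1238, .ofNat 847⟩, ⟨.negSucc 2803, .negSucc 1063, .ofNat 5120⟩],
   [⟨.ofNat 1271, .ofNat 2052, .negSucc 767⟩, ⟨.ofNat 1028, .ofNat 895, .negSucc 387⟩, ⟨.ofNat 126, .negSucc 1002, .ofNat 93⟩],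
   [⟨.ofNat 714, .ofNat 1303, .negSucc 1073⟩, ⟨.ofNat 1491, .ofNat 1893, .negSucc 1859⟩, ⟨.ofNat 605, .negSucc 1640, .ofNat 1962⟩, ⟨.ofNat 637, .negSucc 460, .ofNat 522⟩],
   [⟨.ofNat 1214, .ofNat 177, .ofNat 36⟩, ⟨.ofNat 522, .ofNat 401, .negSucc 632⟩, ⟨.ofNat 723, .negSucc 216, .ofNat 177⟩],
   [⟨.ofNat 284, .negSucc 136, .ofNat 288⟩, ⟨.ofNat 765, .ofNat 2643, .negSucc 3060⟩, ⟨.ofNat 2634, .ofNat 116, .ofNat 60⟩],
   [⟨.ofNat 146, .negSucc 847, .ofNat 662⟩, ⟨.ofNat 2496, .negSucc 1062, .negSucc 1775⟩],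
   [⟨.ofNat 406, .ofNat 190, .negSucc 85⟩, ⟨.ofNat 634, .ofNat 325, .negSucc 293⟩]]

/-- the costs of unit edges, near vertices -/
def ccNU : List (List Aff) :=
  [[⟨.ofNat 3090, .negSucc 1045, .negSucc 2369⟩],
   [⟨.negSucc 5380, .negSucc 1989, .ofNat 6145⟩, ⟨.ofNat 1880, .negSucc 51, .negSucc 1442⟩],
   [⟨.ofNat 3897, .ofNat 4021, .negSucc 5289⟩, ⟨.ofNat 1072, .ofNat 848, .negSucc 869⟩],
   [⟨.negSucc 2675, .negSucc 2131, .ofNat 3745⟩, ⟨.ofNat 1105, .ofNat 1435, .negSucc 1428⟩, ⟨.ofNat 664, .negSucc 2191, .ofNat 2241⟩],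
   [⟨.ofNat 725, .ofNat 2181, .negSucc 2204⟩, ⟨.ofNat 1256, .ofNat 2453, .negSucc 2439⟩]]

theorem ccNC_eq : ccNC = LC.Box.I5000_5470N.C := rfl

theorem ccNU_eq : ccNU = LC.Box.I5000_5470N.U := rfl

theorem x_lo {x : ℝ} (hx : ((536870912 : ℕ) : ℝ) / S ≤ x) : (536870912 / 1073741824 : ℝ) ≤ x := by
  refine le_trans (le_of_eq ?_) hx
  norm_num [S]

theorem x_hi {x : ℝ} (hx' : x ≤ (((536870912 : ℕ) : ℝ) + (50465866 : ℕ)) / S) : x ≤ (587336778 / 1073741824 : ℝ) := by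
  refine hx'.trans (le_of_eq ?_)
  norm_num [S]

theorem wallF {x : ℝ} (hx : ((536870912 : ℕ) : ℝ) / S ≤ x) (hx' : x ≤ (((536870912 : ℕ) : ℝ) + (50465866 : ℕ)) / S) :
    4096 * we (h0 * x) ≤ (632 : ℤ) := by
  have h1 := x_lo hx
  have h2 := x_hi hx'
  refine we_tan' (c := (8807 / 10000)) (by linarith) (by linarith) (by norm_num) ?_
  norm_num
  nlinarith [sq_nonneg (x - (293668389 / 536870912))]

theorem wallN {x : ℝ} (hx : ((536870912 : ℕ) : ℝ) / S ≤ x) (hx' : x ≤ (((536870912 : ℕ) : ℝ) + (50465866 : ℕ)) / S) :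
    4096 * (we (h0 * x) + mu 3 (h0 * x) * wq (h0 * x)) ≤ (710 : ℤ) := by
  have h1 := x_lo hx
  have h2 := x_hi hx'
  refine wn_tan' (c := (8807 / 10000)) (m := (23807 / 5000)) (by linarith) (by linarith) (by norm_num)
    (by norm_num) ?_
  norm_num
  nlinarith [sq_nonneg (x - (293668389 / 536870912))]

theorem mo_w (x : ℝ) : mog.v x = mun 3 x * (3 / 40) * esg.v x := by
  rw [mo_v]
  ring

theorem cstF0_0 : CertC 0 536870912 536870912 50465866 (CN.nd ndB0q0 zrG) (CN.nd ndB1q0 zrG) idf esF hfF zrF 0 ccFC :=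
  ⟨T.a (T.a (T.a (T.l 16) (T.a (T.c (T.l 16) (T.l 16)) (T.c (T.l 16) (T.l 16)))) (T.a (T.a (T.l 16)
    (T.l 16)) (T.l 16))) (T.a (T.l 48) (T.l 48)), by decide +kernel⟩

theorem cstF0_1 : CertC 0 536870912 536870912 50465866 (CN.nd ndB1q0 zrG) (CN.nd ndB2q0 zrG) idf esF hfF zrF 0 ccFC :=
  ⟨T.a (T.a (T.a (T.l 16) (T.l 16)) (T.l 16)) (T.l 48), by decide +kernel⟩

theorem cstF0_2 : CertC 0 536870912 536870912 50465866 (CN.nd ndB2q0 zrG) (CN.nd ndB3q0 zrG) idf esF hfF zrF 0 ccFC :=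
  ⟨T.a (T.a (T.a (T.l 16) (T.l 16)) (T.l 16)) (T.l 16), by decide +kernel⟩

theorem cstF0_3 : CertC 0 536870912 536870912 50465866 (CN.nd ndB3q0 zrG) (CN.nd ndB4q0 zrG) idf esF hfF zrF 0 ccFC :=
  ⟨T.a (T.a (T.a (T.l 16) (T.l 16)) (T.l 16)) (T.a (T.l 16) (T.l 48)), by decide +kernel⟩

theorem cstF0_4 : CertC 0 536870912 536870912 50465866 (CN.nd ndB4q0 zrG) (CN.nd ndB5q0 zrG) idf esF hfF zrF 0 ccFC :=
  ⟨T.a (T.l 24591) (T.a (T.l 48) (T.l 48)), by decide +kernel⟩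

theorem cstF0_5 : CertC 0 536870912 536870912 50465866 (CN.nd ndB5q0 zrG) (CN.nd ndB6q0 zrG) idf esF hfF zrF 0 ccFC :=
  ⟨T.a (T.l 48) (T.l 48), by decide +kernel⟩

theorem cstF1_0 : CertC 536870912 536870912 536870912 50465866 (CN.nd ndB0q1 zrG) (CN.nd ndB1q1 zrG) idf esF hfF zrF 1 ccFC :=
  ⟨T.a (T.a (T.a (T.l 48) (T.l 48)) (T.a (T.l 48) (T.a (T.l 48) (T.a (T.l 208) (T.l 208))))) (T.a
    (T.a (T.a (T.a (T.l 208) (T.l 208)) (T.a (T.l 208) (T.l 208))) (T.a (T.l 208) (T.l 208))) (T.a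
    (T.a (T.a (T.l 208) (T.c (T.l 208) (T.l 208))) (T.l 208)) (T.l 208))), by decide +kernel⟩

theorem cstF1_1 : CertC 536870912 536870912 536870912 50465866 (CN.nd ndB1q1 zrG) (CN.nd ndB2q1 zrG) idf esF hfF zrF 1 ccFC :=
  ⟨T.a (T.a (T.l 48) (T.l 208)) (T.a (T.a (T.l 208) (T.l 208)) (T.a (T.a (T.a (T.l 208) (T.c (T.l
    208) (T.l 208))) (T.l 208)) (T.l 208))), by decide +kernel⟩

theorem cstF1_2 : CertC 536870912 536870912 536870912 50465866 (CN.nd ndB2q1 zrG) (CN.nd ndB3q1 zrG) idf esF hfF zrF 1 ccFC :=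
  ⟨T.a (T.l 208) (T.a (T.l 208) (T.l 208)), by decide +kernel⟩

theorem cstF1_3 : CertC 536870912 536870912 536870912 50465866 (CN.nd ndB3q1 zrG) (CN.nd ndB4q1 zrG) idf esF hfF zrF 1 ccFC :=
  ⟨T.a (T.a (T.l 208) (T.l 48)) (T.l 208), by decide +kernel⟩

theorem cstF1_4 : CertC 536870912 536870912 536870912 50465866 (CN.nd ndB4q1 zrG) (CN.nd ndB5q1 zrG) idf esF hfF zrF 1 ccFC :=
  ⟨T.a (T.a (T.l 208) (T.l 48)) (T.l 208), by decide +kernel⟩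

theorem cstF1_5 : CertC 536870912 536870912 536870912 50465866 (CN.nd ndB5q1 zrG) (CN.nd ndB6q1 zrG) idf esF hfF zrF 1 ccFC :=
  ⟨T.a (T.l 208) (T.a (T.l 208) (T.l 208)), by decide +kernel⟩

theorem cstF2a_0 : CertC 0 536870912 536870912 50465866 (CN.nd ndB0q2 zrG) (CN.nd ndB1q2a zrG) yag esF hfF zrF 2 ccFC :=
  ⟨T.a (T.a (T.a (T.l 208) (T.l 208)) (T.a (T.a (T.l 208) (T.l 208)) (T.a (T.c (T.l 208) (T.l 208))
    (T.c (T.l 208) (T.l 208))))) (T.a (T.a (T.a (T.c (T.l 208) (T.l 208)) (T.l 208)) (T.l 208)) (T.a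
    (T.l 208) (T.l 208))), by decide +kernel⟩

theorem cstF2a_1 : CertC 0 536870912 536870912 50465866 (CN.nd ndB1q2a zrG) (CN.nd ndB2q2a zrG) yag esF hfF zrF 2 ccFC :=
  ⟨T.a (T.a (T.l 208) (T.a (T.l 208) (T.l 208))) (T.a (T.a (T.l 208) (T.l 208)) (T.l 208)), by decide +kernel⟩

theorem cstF2a_2 : CertC 0 536870912 536870912 50465866 (CN.nd ndB2q2a zrG) (CN.nd ndB3q2a zrG) yag esF hfF zrF 2 ccFC :=
  ⟨T.a (T.a (T.l 208) (T.l 208)) (T.a (T.l 208) (T.l 208)), by decide +kernel⟩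

theorem cstF2a_3 : CertC 0 536870912 536870912 50465866 (CN.nd ndB3q2a zrG) (CN.ndc ndB4q2 zrG yag) yag esF hfF zrF 2 ccFC :=
  ⟨T.a (T.l 208) (T.a (T.l 208) (T.a (T.l 208) (T.a (T.l 208) (T.l 208)))), by decide +kernel⟩

theorem cstF2a_4 : CertC 0 536870912 536870912 50465866 (CN.ndc ndB4q2 zrG yag) (CN.ndc ndB5q2 zrG yag) yag esF hfF zrF 2 ccFC :=
  ⟨T.a (T.l 208) (T.a (T.l 208) (T.a (T.l 208) (T.a (T.l 208) (T.l 208)))), by decide +kernel⟩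

theorem cstF2a_5 : CertC 0 536870912 536870912 50465866 (CN.ndc ndB5q2 zrG yag) (CN.ndc ndB6q2 zrG yag) yag esF hfF zrF 2 ccFC :=
  ⟨T.a (T.l 144) (T.a (T.l 208) (T.l 208)), by decide +kernel⟩

theorem cstF2b_0 : CertC 1239849684 370763052 536870912 50465866 CN.zr (CN.nd ndB1q2b zrG) idf esF hfF zrF 2 ccFC :=
  ⟨T.l 208, by decide +kernel⟩

theorem cstF2b_1 : CertC 1239849684 370763052 536870912 50465866 (CN.nd ndB1q2b zrG) (CN.nd ndB2q2b zrG) idf esF hfF zrF 2 ccFC :=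
  ⟨T.l 208, by decide +kernel⟩

theorem cstF2b_2 : CertC 1239849684 370763052 536870912 50465866 (CN.nd ndB2q2b zrG) (CN.nd ndB3q2b zrG) idf esF hfF zrF 2 ccFC :=
  ⟨T.a (T.l 208) (T.l 144), by decide +kernel⟩

theorem cstF2b_3 : CertC 1239849684 370763052 536870912 50465866 (CN.nd ndB3q2b zrG) (CN.nd ndB4q2 zrG) idf esF hfF zrF 2 ccFC :=
  ⟨T.a (T.a (T.l 208) (T.l 112)) (T.a (T.l 144) (T.l 144)), by decide +kernel⟩

theorem cstF2b_4 : CertC 1239849684 370763052 536870912 50465866 (CN.nd ndB4q2 zrG) (CN.nd ndB5q2 zrG) idf esF hfF zrF 2 ccFC :=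
  ⟨T.a (T.a (T.l 208) (T.l 112)) (T.a (T.l 48) (T.l 144)), by decide +kernel⟩

theorem cstF2b_5 : CertC 1239849684 370763052 536870912 50465866 (CN.nd ndB5q2 zrG) (CN.nd ndB6q2 zrG) idf esF hfF zrF 2 ccFC :=
  ⟨T.a (T.l 208) (T.l 112), by decide +kernel⟩

theorem cstF3_0 : CertC 0 1230186008 536870912 50465866 CN.zr (CN.ndc ndB1q3 zrG ycg) ycg esF hfF zrF 3 ccFC :=
  ⟨T.l 144, by decide +kernel⟩

theorem cstF3_1 : CertC 0 1230186008 536870912 50465866 (CN.ndc ndB1q3 zrG ycg) (CN.ndc ndB2q3 zrG ycg) ycg esF hfF zrF 3 ccFC :=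
  ⟨T.a (T.l 144) (T.l 144), by decide +kernel⟩

theorem cstF3_2 : CertC 0 1230186008 536870912 50465866 (CN.ndc ndB2q3 zrG ycg) (CN.ndc ndB3q3 zrG ycg) ycg esF hfF zrF 3 ccFC :=
  ⟨T.a (T.l 144) (T.a (T.l 144) (T.l 144)), by decide +kernel⟩

theorem cstF3_3 : CertC 0 1230186008 536870912 50465866 (CN.ndc ndB3q3 zrG ycg) (CN.nd ndB4q3 zrG) ycg esF hfF zrF 3 ccFC :=
  ⟨T.a (T.l 144) (T.a (T.l 144) (T.a (T.l 144) (T.a (T.l 144) (T.l 144)))), by decide +kernel⟩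

theorem cstF3_4 : CertC 0 1230186008 536870912 50465866 (CN.nd ndB4q3 zrG) (CN.nd ndB5q3 zrG) ycg esF hfF zrF 3 ccFC :=
  ⟨T.a (T.a (T.l 144) (T.l 144)) (T.a (T.a (T.l 208) (T.l 144)) (T.a (T.l 144) (T.a (T.l 144) (T.l
    144)))), by decide +kernel⟩

theorem cstF3_5 : CertC 0 1230186008 536870912 50465866 (CN.nd ndB5q3 zrG) (CN.nd ndB6q3 zrG) ycg esF hfF zrF 3 ccFC :=
  ⟨T.a (T.a (T.a (T.l 144) (T.l 144)) (T.a (T.l 208) (T.l 208))) (T.a (T.a (T.l 208) (T.l 144))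
    (T.a (T.l 112) (T.l 48))), by decide +kernel⟩

theorem cstFU0_0 : CertC 0 536870912 536870912 50465866 (CN.nd ndB0q0 zrG) (CN.nd ndB0q0 zrG) idf esF hfF zrF 0 ccFU :=
  ⟨T.a (T.a (T.a (T.l 16) (T.a (T.l 16) (T.l 16))) (T.a (T.a (T.c (T.l 16) (T.l 16)) (T.l 16)) (T.l
    16))) (T.a (T.a (T.l 16) (T.l 16)) (T.a (T.a (T.l 16) (T.l 16)) (T.a (T.l 16) (T.c (T.l 16) (T.l
    16))))), by decide +kernel⟩

theorem cstFU1_0 : CertC 536870912 536870912 536870912 50465866 (CN.nd ndB0q1 zrG) (CN.nd ndB0q1 zrG) idf esF hfF zrF 1 ccFU :=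
  ⟨T.a (T.a (T.a (T.a (T.l 80) (T.l 80)) (T.l 80)) (T.a (T.l 80) (T.a (T.l 80) (T.l 80)))) (T.a
    (T.a (T.a (T.l 80) (T.a (T.l 80) (T.l 80))) (T.a (T.l 80) (T.l 80))) (T.a (T.a (T.l 80) (T.l
    80)) (T.a (T.l 80) (T.l 80)))), by decide +kernel⟩

theorem cstFU2_0 : CertC 0 536870912 536870912 50465866 (CN.nd ndB0q2 zrG) (CN.nd ndB0q2 zrG) yag esF hfF zrF 2 ccFU :=
  ⟨T.a (T.a (T.a (T.l 80) (T.l 80)) (T.a (T.a (T.l 80) (T.l 80)) (T.a (T.c (T.l 80) (T.l 80)) (T.c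
    (T.l 80) (T.l 80))))) (T.a (T.a (T.a (T.l 80) (T.l 80)) (T.l 80)) (T.a (T.l 80) (T.l 80))), by decide +kernel⟩

theorem segF0_0 {x : ℝ} (hx : ((536870912 : ℕ) : ℝ) / S ≤ x) (hx' : x ≤ (((536870912 : ℕ) : ℝ) + (50465866 : ℕ)) / S) :
    SegR (crv PP) tK tL zrT (esn x) (1 / 2) 0 ccFC 0 (0 : Fin 6) x :=
  SegV.all (cstF0_0.seg (c := fun y => y) ⟨hx, hx'⟩ (fun y h hv => rng_0 h) (fun _ _ _ => rfl) rfl rfl
      (fun y h hv => ((atB00 ⟨h, fun _ => on_0 h⟩).toAt).atN)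
      (fun y h hv => ((atB10 ⟨h, fun e => absurd e (by decide)⟩).toAt).atN))

theorem segF0_1 {x : ℝ} (hx : ((536870912 : ℕ) : ℝ) / S ≤ x) (hx' : x ≤ (((536870912 : ℕ) : ℝ) + (50465866 : ℕ)) / S) :
    SegR (crv PP) tK tL zrT (esn x) (1 / 2) 0 ccFC 0 (1 : Fin 6) x :=
  SegV.all (cstF0_1.seg (c := fun y => y) ⟨hx, hx'⟩ (fun y h hv => rng_0 h) (fun _ _ _ => rfl) rfl rfl
      (fun y h hv => ((atB10 ⟨h, fun e => absurd e (by decide)⟩).toAt).atN)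
      (fun y h hv => ((atB20 ⟨h, fun e => absurd e (by decide)⟩).toAt).atN))

theorem segF0_2 {x : ℝ} (hx : ((536870912 : ℕ) : ℝ) / S ≤ x) (hx' : x ≤ (((536870912 : ℕ) : ℝ) + (50465866 : ℕ)) / S) :
    SegR (crv PP) tK tL zrT (esn x) (1 / 2) 0 ccFC 0 (2 : Fin 6) x :=
  SegV.all (cstF0_2.seg (c := fun y => y) ⟨hx, hx'⟩ (fun y h hv => rng_0 h) (fun _ _ _ => rfl) rfl rfl
      (fun y h hv => ((atB20 ⟨h, fun e => absurd e (by decide)⟩).toAt).atN)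
      (fun y h hv => ((atB30 ⟨h, fun e => absurd e (by decide)⟩).toAt).atN))

theorem segF0_3 {x : ℝ} (hx : ((536870912 : ℕ) : ℝ) / S ≤ x) (hx' : x ≤ (((536870912 : ℕ) : ℝ) + (50465866 : ℕ)) / S) :
    SegR (crv PP) tK tL zrT (esn x) (1 / 2) 0 ccFC 0 (3 : Fin 6) x :=
  SegV.all (cstF0_3.seg (c := fun y => y) ⟨hx, hx'⟩ (fun y h hv => rng_0 h) (fun _ _ _ => rfl) rfl rfl
      (fun y h hv => ((atB30 ⟨h, fun e => absurd e (by decide)⟩).toAt).atN)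
      (fun y h hv => ((atB40 ⟨h, fun e => absurd e (by decide)⟩).toAt).atN))

theorem segF0_4 {x : ℝ} (hx : ((536870912 : ℕ) : ℝ) / S ≤ x) (hx' : x ≤ (((536870912 : ℕ) : ℝ) + (50465866 : ℕ)) / S) :
    SegR (crv PP) tK tL zrT (esn x) (1 / 2) 0 ccFC 0 (4 : Fin 6) x :=
  SegV.all (cstF0_4.seg (c := fun y => y) ⟨hx, hx'⟩ (fun y h hv => rng_0 h) (fun _ _ _ => rfl) rfl rfl
      (fun y h hv => ((atB40 ⟨h, fun e => absurd e (by decide)⟩).toAt).atN)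
      (fun y h hv => ((atB50 ⟨h, fun e => absurd e (by decide)⟩).toAt).atN))

theorem segF0_5 {x : ℝ} (hx : ((536870912 : ℕ) : ℝ) / S ≤ x) (hx' : x ≤ (((536870912 : ℕ) : ℝ) + (50465866 : ℕ)) / S) :
    SegR (crv PP) tK tL zrT (esn x) (1 / 2) 0 ccFC 0 (5 : Fin 6) x :=
  SegV.all (cstF0_5.seg (c := fun y => y) ⟨hx, hx'⟩ (fun y h hv => rng_0 h) (fun _ _ _ => rfl) rfl rfl
      (fun y h hv => ((atB50 ⟨h, fun e => absurd e (by decide)⟩).toAt).atN)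
      (fun y h hv => ((atB60 ⟨h, fun e => absurd e (by decide)⟩).toAt).atN))

theorem segF1_0 {x : ℝ} (hx : ((536870912 : ℕ) : ℝ) / S ≤ x) (hx' : x ≤ (((536870912 : ℕ) : ℝ) + (50465866 : ℕ)) / S) :
    SegR (crv PP) tK tL zrT (esn x) (1 / 2) 0 ccFC 1 (0 : Fin 6) x :=
  SegV.all (cstF1_0.seg (c := fun y => y) ⟨hx, hx'⟩ (fun y h hv => rng_1 h) (fun _ _ _ => rfl) rfl rfl
      (fun y h hv => ((atB01 ⟨h, fun _ => on_1 h⟩).toAt).atN)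
      (fun y h hv => ((atB11 ⟨h, fun e => absurd e (by decide)⟩).toAt).atN))

theorem segF1_1 {x : ℝ} (hx : ((536870912 : ℕ) : ℝ) / S ≤ x) (hx' : x ≤ (((536870912 : ℕ) : ℝ) + (50465866 : ℕ)) / S) :
    SegR (crv PP) tK tL zrT (esn x) (1 / 2) 0 ccFC 1 (1 : Fin 6) x :=
  SegV.all (cstF1_1.seg (c := fun y => y) ⟨hx, hx'⟩ (fun y h hv => rng_1 h) (fun _ _ _ => rfl) rfl rfl
      (fun y h hv => ((atB11 ⟨h, fun e => absurd e (by decide)⟩).toAt).atN)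
      (fun y h hv => ((atB21 ⟨h, fun e => absurd e (by decide)⟩).toAt).atN))

theorem segF1_2 {x : ℝ} (hx : ((536870912 : ℕ) : ℝ) / S ≤ x) (hx' : x ≤ (((536870912 : ℕ) : ℝ) + (50465866 : ℕ)) / S) :
    SegR (crv PP) tK tL zrT (esn x) (1 / 2) 0 ccFC 1 (2 : Fin 6) x :=
  SegV.all (cstF1_2.seg (c := fun y => y) ⟨hx, hx'⟩ (fun y h hv => rng_1 h) (fun _ _ _ => rfl) rfl rfl
      (fun y h hv => ((atB21 ⟨h, fun e => absurd e (by decide)⟩).toAt).atN)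
      (fun y h hv => ((atB31 ⟨h, fun e => absurd e (by decide)⟩).toAt).atN))

theorem segF1_3 {x : ℝ} (hx : ((536870912 : ℕ) : ℝ) / S ≤ x) (hx' : x ≤ (((536870912 : ℕ) : ℝ) + (50465866 : ℕ)) / S) :
    SegR (crv PP) tK tL zrT (esn x) (1 / 2) 0 ccFC 1 (3 : Fin 6) x :=
  SegV.all (cstF1_3.seg (c := fun y => y) ⟨hx, hx'⟩ (fun y h hv => rng_1 h) (fun _ _ _ => rfl) rfl rfl
      (fun y h hv => ((atB31 ⟨h, fun e => absurd e (by decide)⟩).toAt).atN)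
      (fun y h hv => ((atB41 ⟨h, fun e => absurd e (by decide)⟩).toAt).atN))

theorem segF1_4 {x : ℝ} (hx : ((536870912 : ℕ) : ℝ) / S ≤ x) (hx' : x ≤ (((536870912 : ℕ) : ℝ) + (50465866 : ℕ)) / S) :
    SegR (crv PP) tK tL zrT (esn x) (1 / 2) 0 ccFC 1 (4 : Fin 6) x :=
  SegV.all (cstF1_4.seg (c := fun y => y) ⟨hx, hx'⟩ (fun y h hv => rng_1 h) (fun _ _ _ => rfl) rfl rfl
      (fun y h hv => ((atB41 ⟨h, fun e => absurd e (by decide)⟩).toAt).atN)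
      (fun y h hv => ((atB51 ⟨h, fun e => absurd e (by decide)⟩).toAt).atN))

theorem segF1_5 {x : ℝ} (hx : ((536870912 : ℕ) : ℝ) / S ≤ x) (hx' : x ≤ (((536870912 : ℕ) : ℝ) + (50465866 : ℕ)) / S) :
    SegR (crv PP) tK tL zrT (esn x) (1 / 2) 0 ccFC 1 (5 : Fin 6) x :=
  SegV.all (cstF1_5.seg (c := fun y => y) ⟨hx, hx'⟩ (fun y h hv => rng_1 h) (fun _ _ _ => rfl) rfl rfl
      (fun y h hv => ((atB51 ⟨h, fun e => absurd e (by decide)⟩).toAt).atN)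
      (fun y h hv => ((atB61 ⟨h, fun e => absurd e (by decide)⟩).toAt).atN))

theorem segF2_0 {x : ℝ} (hx : ((536870912 : ℕ) : ℝ) / S ≤ x) (hx' : x ≤ (((536870912 : ℕ) : ℝ) + (50465866 : ℕ)) / S) :
    SegR (crv PP) tK tL zrT (esn x) (1 / 2) 0 ccFC 2 (0 : Fin 6) x :=
  SegV.join (cstF2a_0.seg (c := c1n) ⟨hx, hx'⟩ (fun y h hv => rng_2a h) (fun y h hv => yag_v h.nn hv) rfl rfl
      (fun y h hv => ((atB02 ⟨h, fun _ => hv⟩).toAt).atN)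
      (fun y h hv => ((atB12a ⟨h, fun e => absurd e (by decide)⟩ hv).toAt).atN))
    (cstF2b_0.seg (c := fun y => y) ⟨hx, hx'⟩ (fun y h hv => rng_2b h hv) (fun _ _ _ => rfl) rfl rfl
      (fun y h hv => atN_off (pinK hx hx') (pinL hx hx') (.inr rfl) h hv)
      (fun y h hv => ((atB12b ⟨h, fun e => absurd e (by decide)⟩ hv).toAt).atN))

theorem segF2_1 {x : ℝ} (hx : ((536870912 : ℕ) : ℝ) / S ≤ x) (hx' : x ≤ (((536870912 : ℕ) : ℝ) + (50465866 : ℕ)) / S) :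
    SegR (crv PP) tK tL zrT (esn x) (1 / 2) 0 ccFC 2 (1 : Fin 6) x :=
  SegV.join (cstF2a_1.seg (c := c1n) ⟨hx, hx'⟩ (fun y h hv => rng_2a h) (fun y h hv => yag_v h.nn hv) rfl rfl
      (fun y h hv => ((atB12a ⟨h, fun e => absurd e (by decide)⟩ hv).toAt).atN)
      (fun y h hv => ((atB22a ⟨h, fun e => absurd e (by decide)⟩ hv).toAt).atN))
    (cstF2b_1.seg (c := fun y => y) ⟨hx, hx'⟩ (fun y h hv => rng_2b h hv) (fun _ _ _ => rfl) rfl rfl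
      (fun y h hv => ((atB12b ⟨h, fun e => absurd e (by decide)⟩ hv).toAt).atN)
      (fun y h hv => ((atB22b ⟨h, fun e => absurd e (by decide)⟩ hv).toAt).atN))

theorem segF2_2 {x : ℝ} (hx : ((536870912 : ℕ) : ℝ) / S ≤ x) (hx' : x ≤ (((536870912 : ℕ) : ℝ) + (50465866 : ℕ)) / S) :
    SegR (crv PP) tK tL zrT (esn x) (1 / 2) 0 ccFC 2 (2 : Fin 6) x :=
  SegV.join (cstF2a_2.seg (c := c1n) ⟨hx, hx'⟩ (fun y h hv => rng_2a h) (fun y h hv => yag_v h.nn hv) rfl rfl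
      (fun y h hv => ((atB22a ⟨h, fun e => absurd e (by decide)⟩ hv).toAt).atN)
      (fun y h hv => ((atB32a ⟨h, fun e => absurd e (by decide)⟩ hv).toAt).atN))
    (cstF2b_2.seg (c := fun y => y) ⟨hx, hx'⟩ (fun y h hv => rng_2b h hv) (fun _ _ _ => rfl) rfl rfl
      (fun y h hv => ((atB22b ⟨h, fun e => absurd e (by decide)⟩ hv).toAt).atN)
      (fun y h hv => ((atB32b ⟨h, fun e => absurd e (by decide)⟩ hv).toAt).atN))

theorem segF2_3 {x : ℝ} (hx : ((536870912 : ℕ) : ℝ) / S ≤ x) (hx' : x ≤ (((536870912 : ℕ) : ℝ) + (50465866 : ℕ)) / S) :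
    SegR (crv PP) tK tL zrT (esn x) (1 / 2) 0 ccFC 2 (3 : Fin 6) x :=
  SegV.join (cstF2a_3.seg (c := c1n) ⟨hx, hx'⟩ (fun y h hv => rng_2a h) (fun y h hv => yag_v h.nn hv) rfl rfl
      (fun y h hv => ((atB32a ⟨h, fun e => absurd e (by decide)⟩ hv).toAt).atN)
      (fun y h hv => ((atB42 ⟨h, fun e => absurd e (by decide)⟩).toAt).atNc (yag_v h.nn hv)))
    (cstF2b_3.seg (c := fun y => y) ⟨hx, hx'⟩ (fun y h hv => rng_2b h hv) (fun _ _ _ => rfl) rfl rfl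
      (fun y h hv => ((atB32b ⟨h, fun e => absurd e (by decide)⟩ hv).toAt).atN)
      (fun y h hv => ((atB42 ⟨h, fun e => absurd e (by decide)⟩).toAt).atN))

theorem segF2_4 {x : ℝ} (hx : ((536870912 : ℕ) : ℝ) / S ≤ x) (hx' : x ≤ (((536870912 : ℕ) : ℝ) + (50465866 : ℕ)) / S) :
    SegR (crv PP) tK tL zrT (esn x) (1 / 2) 0 ccFC 2 (4 : Fin 6) x :=
  SegV.join (cstF2a_4.seg (c := c1n) ⟨hx, hx'⟩ (fun y h hv => rng_2a h) (fun y h hv => yag_v h.nn hv) rfl rfl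
      (fun y h hv => ((atB42 ⟨h, fun e => absurd e (by decide)⟩).toAt).atNc (yag_v h.nn hv))
      (fun y h hv => ((atB52 ⟨h, fun e => absurd e (by decide)⟩).toAt).atNc (yag_v h.nn hv)))
    (cstF2b_4.seg (c := fun y => y) ⟨hx, hx'⟩ (fun y h hv => rng_2b h hv) (fun _ _ _ => rfl) rfl rfl
      (fun y h hv => ((atB42 ⟨h, fun e => absurd e (by decide)⟩).toAt).atN)
      (fun y h hv => ((atB52 ⟨h, fun e => absurd e (by decide)⟩).toAt).atN))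

theorem segF2_5 {x : ℝ} (hx : ((536870912 : ℕ) : ℝ) / S ≤ x) (hx' : x ≤ (((536870912 : ℕ) : ℝ) + (50465866 : ℕ)) / S) :
    SegR (crv PP) tK tL zrT (esn x) (1 / 2) 0 ccFC 2 (5 : Fin 6) x :=
  SegV.join (cstF2a_5.seg (c := c1n) ⟨hx, hx'⟩ (fun y h hv => rng_2a h) (fun y h hv => yag_v h.nn hv) rfl rfl
      (fun y h hv => ((atB52 ⟨h, fun e => absurd e (by decide)⟩).toAt).atNc (yag_v h.nn hv))
      (fun y h hv => ((atB62 ⟨h, fun e => absurd e (by decide)⟩).toAt).atNc (yag_v h.nn hv)))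
    (cstF2b_5.seg (c := fun y => y) ⟨hx, hx'⟩ (fun y h hv => rng_2b h hv) (fun _ _ _ => rfl) rfl rfl
      (fun y h hv => ((atB52 ⟨h, fun e => absurd e (by decide)⟩).toAt).atN)
      (fun y h hv => ((atB62 ⟨h, fun e => absurd e (by decide)⟩).toAt).atN))

theorem segF3_0 {x : ℝ} (hx : ((536870912 : ℕ) : ℝ) / S ≤ x) (hx' : x ≤ (((536870912 : ℕ) : ℝ) + (50465866 : ℕ)) / S) :
    SegR (crv PP) tK tL zrT (esn x) (1 / 2) 0 ccFC 3 (0 : Fin 6) x :=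
  SegV.all (cstF3_0.seg (c := c3n) ⟨hx, hx'⟩ (fun y h hv => rng_3 h) (fun y h hv => ycg_v h.nn h.2) rfl rfl
      (fun y h hv => atN_off (pinK hx hx') (pinL hx hx') (.inr rfl) h (off_3 h))
      (fun y h hv => ((atB13 ⟨h, fun e => absurd e (by decide)⟩).toAt).atNc (ycg_v h.nn h.2)))

theorem segF3_1 {x : ℝ} (hx : ((536870912 : ℕ) : ℝ) / S ≤ x) (hx' : x ≤ (((536870912 : ℕ) : ℝ) + (50465866 : ℕ)) / S) :
    SegR (crv PP) tK tL zrT (esn x) (1 / 2) 0 ccFC 3 (1 : Fin 6) x :=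
  SegV.all (cstF3_1.seg (c := c3n) ⟨hx, hx'⟩ (fun y h hv => rng_3 h) (fun y h hv => ycg_v h.nn h.2) rfl rfl
      (fun y h hv => ((atB13 ⟨h, fun e => absurd e (by decide)⟩).toAt).atNc (ycg_v h.nn h.2))
      (fun y h hv => ((atB23 ⟨h, fun e => absurd e (by decide)⟩).toAt).atNc (ycg_v h.nn h.2)))

theorem segF3_2 {x : ℝ} (hx : ((536870912 : ℕ) : ℝ) / S ≤ x) (hx' : x ≤ (((536870912 : ℕ) : ℝ) + (50465866 : ℕ)) / S) :
    SegR (crv PP) tK tL zrT (esn x) (1 / 2) 0 ccFC 3 (2 : Fin 6) x :=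
  SegV.all (cstF3_2.seg (c := c3n) ⟨hx, hx'⟩ (fun y h hv => rng_3 h) (fun y h hv => ycg_v h.nn h.2) rfl rfl
      (fun y h hv => ((atB23 ⟨h, fun e => absurd e (by decide)⟩).toAt).atNc (ycg_v h.nn h.2))
      (fun y h hv => ((atB33 ⟨h, fun e => absurd e (by decide)⟩).toAt).atNc (ycg_v h.nn h.2)))

theorem segF3_3 {x : ℝ} (hx : ((536870912 : ℕ) : ℝ) / S ≤ x) (hx' : x ≤ (((536870912 : ℕ) : ℝ) + (50465866 : ℕ)) / S) :
    SegR (crv PP) tK tL zrT (esn x) (1 / 2) 0 ccFC 3 (3 : Fin 6) x :=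
  SegV.all (cstF3_3.seg (c := c3n) ⟨hx, hx'⟩ (fun y h hv => rng_3 h) (fun y h hv => ycg_v h.nn h.2) rfl rfl
      (fun y h hv => ((atB33 ⟨h, fun e => absurd e (by decide)⟩).toAt).atNc (ycg_v h.nn h.2))
      (fun y h hv => ((atB43 ⟨h, fun e => absurd e (by decide)⟩).toAt).atN))

theorem segF3_4 {x : ℝ} (hx : ((536870912 : ℕ) : ℝ) / S ≤ x) (hx' : x ≤ (((536870912 : ℕ) : ℝ) + (50465866 : ℕ)) / S) :
    SegR (crv PP) tK tL zrT (esn x) (1 / 2) 0 ccFC 3 (4 : Fin 6) x :=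
  SegV.all (cstF3_4.seg (c := c3n) ⟨hx, hx'⟩ (fun y h hv => rng_3 h) (fun y h hv => ycg_v h.nn h.2) rfl rfl
      (fun y h hv => ((atB43 ⟨h, fun e => absurd e (by decide)⟩).toAt).atN)
      (fun y h hv => ((atB53 ⟨h, fun e => absurd e (by decide)⟩).toAt).atN))

theorem segF3_5 {x : ℝ} (hx : ((536870912 : ℕ) : ℝ) / S ≤ x) (hx' : x ≤ (((536870912 : ℕ) : ℝ) + (50465866 : ℕ)) / S) :
    SegR (crv PP) tK tL zrT (esn x) (1 / 2) 0 ccFC 3 (5 : Fin 6) x :=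
  SegV.all (cstF3_5.seg (c := c3n) ⟨hx, hx'⟩ (fun y h hv => rng_3 h) (fun y h hv => ycg_v h.nn h.2) rfl rfl
      (fun y h hv => ((atB53 ⟨h, fun e => absurd e (by decide)⟩).toAt).atN)
      (fun y h hv => ((atB63 ⟨h, fun e => absurd e (by decide)⟩).toAt).atN))

theorem uniF0 {x : ℝ} (hx : ((536870912 : ℕ) : ℝ) / S ≤ x) (hx' : x ≤ (((536870912 : ℕ) : ℝ) + (50465866 : ℕ)) / S) :
    UniR (crv PP) tK tL zrT (esn x) (1 / 2) 0 ccFU 0 x :=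
  cstFU0_0.uni (c := fun y => y) ⟨hx, hx'⟩ (fun y h hv => rng_0 h) (fun _ _ _ => rfl) rfl rfl
    (fun y h hv => ((atB00 ⟨h, fun _ => on_0 h⟩).toAt).atN)

theorem uniF1 {x : ℝ} (hx : ((536870912 : ℕ) : ℝ) / S ≤ x) (hx' : x ≤ (((536870912 : ℕ) : ℝ) + (50465866 : ℕ)) / S) :
    UniR (crv PP) tK tL zrT (esn x) (1 / 2) 0 ccFU 1 x :=
  cstFU1_0.uni (c := fun y => y) ⟨hx, hx'⟩ (fun y h hv => rng_1 h) (fun _ _ _ => rfl) rfl rfl
    (fun y h hv => ((atB01 ⟨h, fun _ => on_1 h⟩).toAt).atN)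

theorem uniF2 {x : ℝ} (hx : ((536870912 : ℕ) : ℝ) / S ≤ x) (hx' : x ≤ (((536870912 : ℕ) : ℝ) + (50465866 : ℕ)) / S) :
    UniR (crv PP) tK tL zrT (esn x) (1 / 2) 0 ccFU 2 x :=
  cstFU2_0.uni (c := c1n) ⟨hx, hx'⟩ (fun y h hv => rng_2a h) (fun y h hv => yag_v h.nn hv) rfl rfl
    (fun y h hv => ((atB02 ⟨h, fun _ => hv⟩).toAt).atN)

theorem segF {x : ℝ} (hx : ((536870912 : ℕ) : ℝ) / S ≤ x) (hx' : x ≤ (((536870912 : ℕ) : ℝ) + (50465866 : ℕ)) / S) : ∀ a, a < 4 → ∀ i : Fin 6,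
    SegR (crv PP) tK tL zrT (esn x) (1 / 2) 0 ccFC a i x := by
  intro a ha i
  match a, ha with
  | 0, _ => exact match i with
    | 0 => segF0_0 hx hx'
    | 1 => segF0_1 hx hx'
    | 2 => segF0_2 hx hx'
    | 3 => segF0_3 hx hx'
    | 4 => segF0_4 hx hx'
    | 5 => segF0_5 hx hx'
  | 1, _ => exact match i with
    | 0 => segF1_0 hx hx'
    | 1 => segF1_1 hx hx'
    | 2 => segF1_2 hx hx'
    | 3 => segF1_3 hx hx'
    | 4 => segF1_4 hx hx'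
    | 5 => segF1_5 hx hx'
  | 2, _ => exact match i with
    | 0 => segF2_0 hx hx'
    | 1 => segF2_1 hx hx'
    | 2 => segF2_2 hx hx'
    | 3 => segF2_3 hx hx'
    | 4 => segF2_4 hx hx'
    | 5 => segF2_5 hx hx'
  | 3, _ => exact match i with
    | 0 => segF3_0 hx hx'
    | 1 => segF3_1 hx hx'
    | 2 => segF3_2 hx hx'
    | 3 => segF3_3 hx hx'
    | 4 => segF3_4 hx hx'
    | 5 => segF3_5 hx hx'

theorem uniF {x : ℝ} (hx : ((536870912 : ℕ) : ℝ) / S ≤ x) (hx' : x ≤ (((536870912 : ℕ) : ℝ) + (50465866 : ℕ)) / S) : ∀ a, a < 3 → UniR (crv PP) tK tL zrT (esn x) (1 / 2) 0 ccFU a x := by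
  intro a ha
  match a, ha with
  | 0, _ => exact uniF0 hx hx'
  | 1, _ => exact uniF1 hx hx'
  | 2, _ => exact uniF2 hx hx'

theorem cstN0_0 : CertC 0 536870912 536870912 50465866 (CN.nd ndB0q0 cd0q0) (CN.nd ndB1q0 cd1q0) idf (mlF esF eng) (muF 3) mog 0 ccNC :=
  ⟨T.a (T.a (T.a (T.l 176) (T.a (T.l 176) (T.l 176))) (T.a (T.a (T.l 176) (T.l 176)) (T.l 176)))
    (T.a (T.a (T.a (T.l 176) (T.a (T.l 176) (T.l 208))) (T.l 208)) (T.a (T.l 208) (T.l 208))), by decide +kernel⟩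

theorem cstN0_1 : CertC 0 536870912 536870912 50465866 (CN.nd ndB1q0 cd1q0) (CN.nd ndB2q0 cd2q0) idf (mlF esF eng) (muF 3) mog 0 ccNC :=
  ⟨T.a (T.a (T.a (T.l 176) (T.l 176)) (T.l 176)) (T.a (T.l 176) (T.l 208)), by decide +kernel⟩

theorem cstN0_2 : CertC 0 536870912 536870912 50465866 (CN.nd ndB2q0 cd2q0) (CN.nd ndB3q0 cd3q0) idf (mlF esF eng) (muF 3) mog 0 ccNC :=
  ⟨T.a (T.a (T.a (T.a (T.l 176) (T.l 176)) (T.l 176)) (T.l 176)) (T.l 176), by decide +kernel⟩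

theorem cstN0_3 : CertC 0 536870912 536870912 50465866 (CN.nd ndB3q0 cd3q0) (CN.nd ndB4q0 cd4q0) idf (mlF esF eng) (muF 3) mog 0 ccNC :=
  ⟨T.a (T.a (T.a (T.a (T.l 176) (T.l 176)) (T.l 176)) (T.l 176)) (T.a (T.l 176) (T.a (T.l 16) (T.l
    80))), by decide +kernel⟩

theorem cstN0_4 : CertC 0 536870912 536870912 50465866 (CN.nd ndB4q0 cd4q0) (CN.nd ndB5q0 cd5q0) idf (mlF esF eng) (muF 3) mog 0 ccNC :=
  ⟨T.a (T.l 176) (T.a (T.l 176) (T.a (T.l 80) (T.l 80))), by decide +kernel⟩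

theorem cstN0_5 : CertC 0 536870912 536870912 50465866 (CN.nd ndB5q0 cd5q0) (CN.nd ndB6q0 cd6q0) idf (mlF esF eng) (muF 3) mog 0 ccNC :=
  ⟨T.a (T.l 176) (T.a (T.l 176) (T.l 80)), by decide +kernel⟩

theorem cstN1_0 : CertC 536870912 536870912 536870912 50465866 (CN.nd ndB0q1 cd0q1) (CN.nd ndB1q1 cd1q1) idf (mlF esF eng) (muF 3) mog 1 ccNC :=
  ⟨T.a (T.a (T.l 208) (T.a (T.l 208) (T.l 208))) (T.a (T.a (T.a (T.l 41158) (T.c (T.l 80) (T.l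
    80))) (T.a (T.l 80) (T.l 80))) (T.a (T.a (T.l 80) (T.l 80)) (T.l 80))), by decide +kernel⟩

theorem cstN1_1 : CertC 536870912 536870912 536870912 50465866 (CN.nd ndB1q1 cd1q1) (CN.nd ndB2q1 cd2q1) idf (mlF esF eng) (muF 3) mog 1 ccNC :=
  ⟨T.a (T.a (T.l 208) (T.a (T.l 80) (T.l 80))) (T.a (T.a (T.l 80) (T.l 80)) (T.a (T.a (T.l 80) (T.l
    80)) (T.l 80))), by decide +kernel⟩

theorem cstN1_2 : CertC 536870912 536870912 536870912 50465866 (CN.nd ndB2q1 cd2q1) (CN.nd ndB3q1 cd3q1) idf (mlF esF eng) (muF 3) mog 1 ccNC :=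
  ⟨T.a (T.a (T.l 80) (T.l 80)) (T.a (T.l 80) (T.l 80)), by decide +kernel⟩

theorem cstN1_3 : CertC 536870912 536870912 536870912 50465866 (CN.nd ndB3q1 cd3q1) (CN.nd ndB4q1 cd4q1) idf (mlF esF eng) (muF 3) mog 1 ccNC :=
  ⟨T.a (T.a (T.a (T.l 80) (T.l 80)) (T.l 80)) (T.a (T.l 80) (T.l 80)), by decide +kernel⟩

theorem cstN1_4 : CertC 536870912 536870912 536870912 50465866 (CN.nd ndB4q1 cd4q1) (CN.nd ndB5q1 cd5q1) idf (mlF esF eng) (muF 3) mog 1 ccNC :=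
  ⟨T.a (T.a (T.a (T.l 80) (T.l 80)) (T.l 80)) (T.a (T.l 80) (T.l 80)), by decide +kernel⟩

theorem cstN1_5 : CertC 536870912 536870912 536870912 50465866 (CN.nd ndB5q1 cd5q1) (CN.nd ndB6q1 cd6q1) idf (mlF esF eng) (muF 3) mog 1 ccNC :=
  ⟨T.a (T.a (T.l 80) (T.l 80)) (T.a (T.l 80) (T.a (T.l 80) (T.l 80))), by decide +kernel⟩

theorem cstN2a_0 : CertC 0 536870912 536870912 50465866 (CN.nd ndB0q2 cd0q2) (CN.nd ndB1q2a cd1q2a) yag (mlF esF eng) (muF 3) mog 2 ccNC :=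
  ⟨T.a (T.a (T.a (T.a (T.l 80) (T.l 80)) (T.l 80)) (T.a (T.a (T.l 80) (T.l 80)) (T.a (T.l 80) (T.l
    80)))) (T.a (T.a (T.a (T.l 80) (T.l 80)) (T.l 80)) (T.a (T.l 80) (T.l 80))), by decide +kernel⟩

theorem cstN2a_1 : CertC 0 536870912 536870912 50465866 (CN.nd ndB1q2a cd1q2a) (CN.nd ndB2q2a cd2q2a) yag (mlF esF eng) (muF 3) mog 2 ccNC :=
  ⟨T.a (T.a (T.a (T.l 80) (T.l 80)) (T.a (T.l 80) (T.a (T.l 80) (T.l 80)))) (T.a (T.a (T.l 80) (T.l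
    80)) (T.l 80)), by decide +kernel⟩

theorem cstN2a_2 : CertC 0 536870912 536870912 50465866 (CN.nd ndB2q2a cd2q2a) (CN.nd ndB3q2a cd3q2a) yag (mlF esF eng) (muF 3) mog 2 ccNC :=
  ⟨T.a (T.a (T.a (T.l 80) (T.l 80)) (T.l 80)) (T.a (T.l 80) (T.l 80)), by decide +kernel⟩

theorem cstN2a_3 : CertC 0 536870912 536870912 50465866 (CN.nd ndB3q2a cd3q2a) (CN.ndc ndB4q2 cd4q2 yag) yag (mlF esF eng) (muF 3) mog 2 ccNC :=
  ⟨T.a (T.a (T.l 80) (T.l 80)) (T.a (T.a (T.l 80) (T.l 80)) (T.a (T.l 80) (T.l 80))), by decide +kernel⟩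

theorem cstN2a_4 : CertC 0 536870912 536870912 50465866 (CN.ndc ndB4q2 cd4q2 yag) (CN.ndc ndB5q2 cd5q2 yag) yag (mlF esF eng) (muF 3) mog 2 ccNC :=
  ⟨T.a (T.a (T.l 80) (T.l 80)) (T.a (T.a (T.l 80) (T.l 80)) (T.a (T.l 80) (T.l 80))), by decide +kernel⟩

theorem cstN2a_5 : CertC 0 536870912 536870912 50465866 (CN.ndc ndB5q2 cd5q2 yag) (CN.ndc ndB6q2 cd6q2 yag) yag (mlF esF eng) (muF 3) mog 2 ccNC :=
  ⟨T.a (T.l 80) (T.a (T.l 80) (T.a (T.l 80) (T.l 80))), by decide +kernel⟩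

theorem cstN2b_0 : CertC 1239849684 370763052 536870912 50465866 CN.zr (CN.nd ndB1q2b cd1q2b) idf (mlF esF eng) (muF 3) mog 2 ccNC :=
  ⟨T.l 208, by decide +kernel⟩

theorem cstN2b_1 : CertC 1239849684 370763052 536870912 50465866 (CN.nd ndB1q2b cd1q2b) (CN.nd ndB2q2b cd2q2b) idf (mlF esF eng) (muF 3) mog 2 ccNC :=
  ⟨T.a (T.a (T.l 80) (T.l 80)) (T.l 208), by decide +kernel⟩

theorem cstN2b_2 : CertC 1239849684 370763052 536870912 50465866 (CN.nd ndB2q2b cd2q2b) (CN.nd ndB3q2b cd3q2b) idf (mlF esF eng) (muF 3) mog 2 ccNC :=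
  ⟨T.a (T.a (T.l 80) (T.l 80)) (T.l 144), by decide +kernel⟩

theorem cstN2b_3 : CertC 1239849684 370763052 536870912 50465866 (CN.nd ndB3q2b cd3q2b) (CN.nd ndB4q2 cd4q2) idf (mlF esF eng) (muF 3) mog 2 ccNC :=
  ⟨T.a (T.a (T.a (T.a (T.c (T.c (T.l 80) (T.l 80)) (T.l 80)) (T.l 80)) (T.l 80)) (T.l 80)) (T.a
    (T.l 80) (T.a (T.l 144) (T.l 208))), by decide +kernel⟩

theorem cstN2b_4 : CertC 1239849684 370763052 536870912 50465866 (CN.nd ndB4q2 cd4q2) (CN.nd ndB5q2 cd5q2) idf (mlF esF eng) (muF 3) mog 2 ccNC :=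
  ⟨T.a (T.a (T.a (T.a (T.c (T.c (T.l 80) (T.l 80)) (T.l 80)) (T.l 80)) (T.l 80)) (T.l 80)) (T.a
    (T.l 80) (T.a (T.l 80) (T.l 208))), by decide +kernel⟩

theorem cstN2b_5 : CertC 1239849684 370763052 536870912 50465866 (CN.nd ndB5q2 cd5q2) (CN.nd ndB6q2 cd6q2) idf (mlF esF eng) (muF 3) mog 2 ccNC :=
  ⟨T.a (T.a (T.l 80) (T.l 80)) (T.l 80), by decide +kernel⟩

theorem cstN3_0 : CertC 0 1230186008 536870912 50465866 CN.zr (CN.ndc ndB1q3 cd1q3 ycg) ycg (mlF esF eng) (muF 3) mog 3 ccNC :=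
  ⟨T.a (T.l 144) (T.l 144), by decide +kernel⟩

theorem cstN3_1 : CertC 0 1230186008 536870912 50465866 (CN.ndc ndB1q3 cd1q3 ycg) (CN.ndc ndB2q3 cd2q3 ycg) ycg (mlF esF eng) (muF 3) mog 3 ccNC :=
  ⟨T.a (T.l 208) (T.l 208), by decide +kernel⟩

theorem cstN3_2 : CertC 0 1230186008 536870912 50465866 (CN.ndc ndB2q3 cd2q3 ycg) (CN.ndc ndB3q3 cd3q3 ycg) ycg (mlF esF eng) (muF 3) mog 3 ccNC :=
  ⟨T.a (T.l 208) (T.a (T.l 208) (T.l 208)), by decide +kernel⟩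

theorem cstN3_3 : CertC 0 1230186008 536870912 50465866 (CN.ndc ndB3q3 cd3q3 ycg) (CN.nd ndB4q3 cd4q3) ycg (mlF esF eng) (muF 3) mog 3 ccNC :=
  ⟨T.a (T.l 208) (T.a (T.l 208) (T.a (T.l 208) (T.a (T.l 144) (T.l 208)))), by decide +kernel⟩

theorem cstN3_4 : CertC 0 1230186008 536870912 50465866 (CN.nd ndB4q3 cd4q3) (CN.nd ndB5q3 cd5q3) ycg (mlF esF eng) (muF 3) mog 3 ccNC :=
  ⟨T.a (T.l 208) (T.a (T.a (T.l 208) (T.l 208)) (T.a (T.l 208) (T.a (T.l 144) (T.l 208)))), by decide +kernel⟩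

theorem cstN3_5 : CertC 0 1230186008 536870912 50465866 (CN.nd ndB5q3 cd5q3) (CN.nd ndB6q3 cd6q3) ycg (mlF esF eng) (muF 3) mog 3 ccNC :=
  ⟨T.a (T.a (T.l 208) (T.a (T.l 208) (T.l 208))) (T.a (T.a (T.l 208) (T.l 208)) (T.a (T.l 112) (T.l
    112))), by decide +kernel⟩

theorem cstNU0_0 : CertC 0 536870912 536870912 50465866 (CN.nd ndB0q0 cd0q0) (CN.nd ndB0q0 cd0q0) idf (mlF esF eng) (muF 3) mog 0 ccNU :=
  ⟨T.a (T.a (T.a (T.l 16) (T.a (T.l 16) (T.l 16))) (T.a (T.a (T.l 16) (T.l 16)) (T.l 16))) (T.a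
    (T.a (T.a (T.l 16) (T.c (T.l 48) (T.l 48))) (T.l 48)) (T.a (T.a (T.l 48) (T.l 48)) (T.a (T.l 48)
    (T.l 48)))), by decide +kernel⟩

theorem cstNU1_0 : CertC 536870912 536870912 536870912 50465866 (CN.nd ndB0q1 cd0q1) (CN.nd ndB0q1 cd0q1) idf (mlF esF eng) (muF 3) mog 1 ccNU :=
  ⟨T.a (T.a (T.a (T.a (T.a (T.l 48) (T.l 48)) (T.l 112)) (T.l 112)) (T.a (T.l 112) (T.a (T.l 112)
    (T.l 112)))) (T.a (T.a (T.a (T.c (T.l 112) (T.l 112)) (T.a (T.l 112) (T.l 112))) (T.a (T.l 112)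
    (T.l 112))) (T.a (T.a (T.c (T.l 112) (T.l 112)) (T.a (T.l 112) (T.l 112))) (T.a (T.a (T.l 112)
    (T.l 112)) (T.l 112)))), by decide +kernel⟩

theorem cstNU2_0 : CertC 0 536870912 536870912 50465866 (CN.nd ndB0q2 cd0q2) (CN.nd ndB0q2 cd0q2) yag (mlF esF eng) (muF 3) mog 2 ccNU :=
  ⟨T.a (T.a (T.a (T.a (T.a (T.l 112) (T.l 112)) (T.l 112)) (T.l 112)) (T.a (T.a (T.l 112) (T.l
    112)) (T.a (T.c (T.l 112) (T.l 112)) (T.l 112)))) (T.a (T.a (T.a (T.l 112) (T.l 112)) (T.l 112))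
    (T.a (T.l 112) (T.a (T.l 112) (T.l 112)))), by decide +kernel⟩

theorem segN0_0 {x : ℝ} (hx : ((536870912 : ℕ) : ℝ) / S ≤ x) (hx' : x ≤ (((536870912 : ℕ) : ℝ) + (50465866 : ℕ)) / S) :
    SegR (crv PP) tK tL tC (esn x * eng.v x) (mun 3 x * ((((3 : ℕ) : ℝ) + x) / 2)) (mun 3 x * (3 / 40)) ccNC 0 (0 : Fin 6) x :=
  SegV.all (cstN0_0.seg (c := fun y => y) ⟨hx, hx'⟩ (fun y h hv => rng_0 h) (fun _ _ _ => rfl) rfl rfl
      (fun y h hv => ((atB00 ⟨h, fun _ => on_0 h⟩)).atN (mo_w x))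
      (fun y h hv => ((atB10 ⟨h, fun e => absurd e (by decide)⟩)).atN (mo_w x)))

theorem segN0_1 {x : ℝ} (hx : ((536870912 : ℕ) : ℝ) / S ≤ x) (hx' : x ≤ (((536870912 : ℕ) : ℝ) + (50465866 : ℕ)) / S) :
    SegR (crv PP) tK tL tC (esn x * eng.v x) (mun 3 x * ((((3 : ℕ) : ℝ) + x) / 2)) (mun 3 x * (3 / 40)) ccNC 0 (1 : Fin 6) x :=
  SegV.all (cstN0_1.seg (c := fun y => y) ⟨hx, hx'⟩ (fun y h hv => rng_0 h) (fun _ _ _ => rfl) rfl rfl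
      (fun y h hv => ((atB10 ⟨h, fun e => absurd e (by decide)⟩)).atN (mo_w x))
      (fun y h hv => ((atB20 ⟨h, fun e => absurd e (by decide)⟩)).atN (mo_w x)))

theorem segN0_2 {x : ℝ} (hx : ((536870912 : ℕ) : ℝ) / S ≤ x) (hx' : x ≤ (((536870912 : ℕ) : ℝ) + (50465866 : ℕ)) / S) :
    SegR (crv PP) tK tL tC (esn x * eng.v x) (mun 3 x * ((((3 : ℕ) : ℝ) + x) / 2)) (mun 3 x * (3 / 40)) ccNC 0 (2 : Fin 6) x :=
  SegV.all (cstN0_2.seg (c := fun y => y) ⟨hx, hx'⟩ (fun y h hv => rng_0 h) (fun _ _ _ => rfl) rfl rfl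
      (fun y h hv => ((atB20 ⟨h, fun e => absurd e (by decide)⟩)).atN (mo_w x))
      (fun y h hv => ((atB30 ⟨h, fun e => absurd e (by decide)⟩)).atN (mo_w x)))

theorem segN0_3 {x : ℝ} (hx : ((536870912 : ℕ) : ℝ) / S ≤ x) (hx' : x ≤ (((536870912 : ℕ) : ℝ) + (50465866 : ℕ)) / S) :
    SegR (crv PP) tK tL tC (esn x * eng.v x) (mun 3 x * ((((3 : ℕ) : ℝ) + x) / 2)) (mun 3 x * (3 / 40)) ccNC 0 (3 : Fin 6) x :=
  SegV.all (cstN0_3.seg (c := fun y => y) ⟨hx, hx'⟩ (fun y h hv => rng_0 h) (fun _ _ _ => rfl) rfl rfl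
      (fun y h hv => ((atB30 ⟨h, fun e => absurd e (by decide)⟩)).atN (mo_w x))
      (fun y h hv => ((atB40 ⟨h, fun e => absurd e (by decide)⟩)).atN (mo_w x)))

theorem segN0_4 {x : ℝ} (hx : ((536870912 : ℕ) : ℝ) / S ≤ x) (hx' : x ≤ (((536870912 : ℕ) : ℝ) + (50465866 : ℕ)) / S) :
    SegR (crv PP) tK tL tC (esn x * eng.v x) (mun 3 x * ((((3 : ℕ) : ℝ) + x) / 2)) (mun 3 x * (3 / 40)) ccNC 0 (4 : Fin 6) x :=
  SegV.all (cstN0_4.seg (c := fun y => y) ⟨hx, hx'⟩ (fun y h hv => rng_0 h) (fun _ _ _ => rfl) rfl rfl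
      (fun y h hv => ((atB40 ⟨h, fun e => absurd e (by decide)⟩)).atN (mo_w x))
      (fun y h hv => ((atB50 ⟨h, fun e => absurd e (by decide)⟩)).atN (mo_w x)))

theorem segN0_5 {x : ℝ} (hx : ((536870912 : ℕ) : ℝ) / S ≤ x) (hx' : x ≤ (((536870912 : ℕ) : ℝ) + (50465866 : ℕ)) / S) :
    SegR (crv PP) tK tL tC (esn x * eng.v x) (mun 3 x * ((((3 : ℕ) : ℝ) + x) / 2)) (mun 3 x * (3 / 40)) ccNC 0 (5 : Fin 6) x :=
  SegV.all (cstN0_5.seg (c := fun y => y) ⟨hx, hx'⟩ (fun y h hv => rng_0 h) (fun _ _ _ => rfl) rfl rfl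
      (fun y h hv => ((atB50 ⟨h, fun e => absurd e (by decide)⟩)).atN (mo_w x))
      (fun y h hv => ((atB60 ⟨h, fun e => absurd e (by decide)⟩)).atN (mo_w x)))

theorem segN1_0 {x : ℝ} (hx : ((536870912 : ℕ) : ℝ) / S ≤ x) (hx' : x ≤ (((536870912 : ℕ) : ℝ) + (50465866 : ℕ)) / S) :
    SegR (crv PP) tK tL tC (esn x * eng.v x) (mun 3 x * ((((3 : ℕ) : ℝ) + x) / 2)) (mun 3 x * (3 / 40)) ccNC 1 (0 : Fin 6) x :=
  SegV.all (cstN1_0.seg (c := fun y => y) ⟨hx, hx'⟩ (fun y h hv => rng_1 h) (fun _ _ _ => rfl) rfl rfl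
      (fun y h hv => ((atB01 ⟨h, fun _ => on_1 h⟩)).atN (mo_w x))
      (fun y h hv => ((atB11 ⟨h, fun e => absurd e (by decide)⟩)).atN (mo_w x)))

theorem segN1_1 {x : ℝ} (hx : ((536870912 : ℕ) : ℝ) / S ≤ x) (hx' : x ≤ (((536870912 : ℕ) : ℝ) + (50465866 : ℕ)) / S) :
    SegR (crv PP) tK tL tC (esn x * eng.v x) (mun 3 x * ((((3 : ℕ) : ℝ) + x) / 2)) (mun 3 x * (3 / 40)) ccNC 1 (1 : Fin 6) x :=
  SegV.all (cstN1_1.seg (c := fun y => y) ⟨hx, hx'⟩ (fun y h hv => rng_1 h) (fun _ _ _ => rfl) rfl rfl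
      (fun y h hv => ((atB11 ⟨h, fun e => absurd e (by decide)⟩)).atN (mo_w x))
      (fun y h hv => ((atB21 ⟨h, fun e => absurd e (by decide)⟩)).atN (mo_w x)))

theorem segN1_2 {x : ℝ} (hx : ((536870912 : ℕ) : ℝ) / S ≤ x) (hx' : x ≤ (((536870912 : ℕ) : ℝ) + (50465866 : ℕ)) / S) :
    SegR (crv PP) tK tL tC (esn x * eng.v x) (mun 3 x * ((((3 : ℕ) : ℝ) + x) / 2)) (mun 3 x * (3 / 40)) ccNC 1 (2 : Fin 6) x :=
  SegV.all (cstN1_2.seg (c := fun y => y) ⟨hx, hx'⟩ (fun y h hv => rng_1 h) (fun _ _ _ => rfl) rfl rfl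
      (fun y h hv => ((atB21 ⟨h, fun e => absurd e (by decide)⟩)).atN (mo_w x))
      (fun y h hv => ((atB31 ⟨h, fun e => absurd e (by decide)⟩)).atN (mo_w x)))

theorem segN1_3 {x : ℝ} (hx : ((536870912 : ℕ) : ℝ) / S ≤ x) (hx' : x ≤ (((536870912 : ℕ) : ℝ) + (50465866 : ℕ)) / S) :
    SegR (crv PP) tK tL tC (esn x * eng.v x) (mun 3 x * ((((3 : ℕ) : ℝ) + x) / 2)) (mun 3 x * (3 / 40)) ccNC 1 (3 : Fin 6) x :=
  SegV.all (cstN1_3.seg (c := fun y => y) ⟨hx, hx'⟩ (fun y h hv => rng_1 h) (fun _ _ _ => rfl) rfl rfl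
      (fun y h hv => ((atB31 ⟨h, fun e => absurd e (by decide)⟩)).atN (mo_w x))
      (fun y h hv => ((atB41 ⟨h, fun e => absurd e (by decide)⟩)).atN (mo_w x)))

theorem segN1_4 {x : ℝ} (hx : ((536870912 : ℕ) : ℝ) / S ≤ x) (hx' : x ≤ (((536870912 : ℕ) : ℝ) + (50465866 : ℕ)) / S) :
    SegR (crv PP) tK tL tC (esn x * eng.v x) (mun 3 x * ((((3 : ℕ) : ℝ) + x) / 2)) (mun 3 x * (3 / 40)) ccNC 1 (4 : Fin 6) x :=
  SegV.all (cstN1_4.seg (c := fun y => y) ⟨hx, hx'⟩ (fun y h hv => rng_1 h) (fun _ _ _ => rfl) rfl rfl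
      (fun y h hv => ((atB41 ⟨h, fun e => absurd e (by decide)⟩)).atN (mo_w x))
      (fun y h hv => ((atB51 ⟨h, fun e => absurd e (by decide)⟩)).atN (mo_w x)))

theorem segN1_5 {x : ℝ} (hx : ((536870912 : ℕ) : ℝ) / S ≤ x) (hx' : x ≤ (((536870912 : ℕ) : ℝ) + (50465866 : ℕ)) / S) :
    SegR (crv PP) tK tL tC (esn x * eng.v x) (mun 3 x * ((((3 : ℕ) : ℝ) + x) / 2)) (mun 3 x * (3 / 40)) ccNC 1 (5 : Fin 6) x :=
  SegV.all (cstN1_5.seg (c := fun y => y) ⟨hx, hx'⟩ (fun y h hv => rng_1 h) (fun _ _ _ => rfl) rfl rfl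
      (fun y h hv => ((atB51 ⟨h, fun e => absurd e (by decide)⟩)).atN (mo_w x))
      (fun y h hv => ((atB61 ⟨h, fun e => absurd e (by decide)⟩)).atN (mo_w x)))

theorem segN2_0 {x : ℝ} (hx : ((536870912 : ℕ) : ℝ) / S ≤ x) (hx' : x ≤ (((536870912 : ℕ) : ℝ) + (50465866 : ℕ)) / S) :
    SegR (crv PP) tK tL tC (esn x * eng.v x) (mun 3 x * ((((3 : ℕ) : ℝ) + x) / 2)) (mun 3 x * (3 / 40)) ccNC 2 (0 : Fin 6) x :=
  SegV.join (cstN2a_0.seg (c := c1n) ⟨hx, hx'⟩ (fun y h hv => rng_2a h) (fun y h hv => yag_v h.nn hv) rfl rfl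
      (fun y h hv => ((atB02 ⟨h, fun _ => hv⟩)).atN (mo_w x))
      (fun y h hv => ((atB12a ⟨h, fun e => absurd e (by decide)⟩ hv)).atN (mo_w x)))
    (cstN2b_0.seg (c := fun y => y) ⟨hx, hx'⟩ (fun y h hv => rng_2b h hv) (fun _ _ _ => rfl) rfl rfl
      (fun y h hv => atN_off (pinK hx hx') (pinL hx hx') (.inl (thrB hx hx').pin) h hv)
      (fun y h hv => ((atB12b ⟨h, fun e => absurd e (by decide)⟩ hv)).atN (mo_w x)))

theorem segN2_1 {x : ℝ} (hx : ((536870912 : ℕ) : ℝ) / S ≤ x) (hx' : x ≤ (((536870912 : ℕ) : ℝ) + (50465866 : ℕ)) / S) :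
    SegR (crv PP) tK tL tC (esn x * eng.v x) (mun 3 x * ((((3 : ℕ) : ℝ) + x) / 2)) (mun 3 x * (3 / 40)) ccNC 2 (1 : Fin 6) x :=
  SegV.join (cstN2a_1.seg (c := c1n) ⟨hx, hx'⟩ (fun y h hv => rng_2a h) (fun y h hv => yag_v h.nn hv) rfl rfl
      (fun y h hv => ((atB12a ⟨h, fun e => absurd e (by decide)⟩ hv)).atN (mo_w x))
      (fun y h hv => ((atB22a ⟨h, fun e => absurd e (by decide)⟩ hv)).atN (mo_w x)))
    (cstN2b_1.seg (c := fun y => y) ⟨hx, hx'⟩ (fun y h hv => rng_2b h hv) (fun _ _ _ => rfl) rfl rfl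
      (fun y h hv => ((atB12b ⟨h, fun e => absurd e (by decide)⟩ hv)).atN (mo_w x))
      (fun y h hv => ((atB22b ⟨h, fun e => absurd e (by decide)⟩ hv)).atN (mo_w x)))

theorem segN2_2 {x : ℝ} (hx : ((536870912 : ℕ) : ℝ) / S ≤ x) (hx' : x ≤ (((536870912 : ℕ) : ℝ) + (50465866 : ℕ)) / S) :
    SegR (crv PP) tK tL tC (esn x * eng.v x) (mun 3 x * ((((3 : ℕ) : ℝ) + x) / 2)) (mun 3 x * (3 / 40)) ccNC 2 (2 : Fin 6) x :=
  SegV.join (cstN2a_2.seg (c := c1n) ⟨hx, hx'⟩ (fun y h hv => rng_2a h) (fun y h hv => yag_v h.nn hv) rfl rfl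
      (fun y h hv => ((atB22a ⟨h, fun e => absurd e (by decide)⟩ hv)).atN (mo_w x))
      (fun y h hv => ((atB32a ⟨h, fun e => absurd e (by decide)⟩ hv)).atN (mo_w x)))
    (cstN2b_2.seg (c := fun y => y) ⟨hx, hx'⟩ (fun y h hv => rng_2b h hv) (fun _ _ _ => rfl) rfl rfl
      (fun y h hv => ((atB22b ⟨h, fun e => absurd e (by decide)⟩ hv)).atN (mo_w x))
      (fun y h hv => ((atB32b ⟨h, fun e => absurd e (by decide)⟩ hv)).atN (mo_w x)))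

theorem segN2_3 {x : ℝ} (hx : ((536870912 : ℕ) : ℝ) / S ≤ x) (hx' : x ≤ (((536870912 : ℕ) : ℝ) + (50465866 : ℕ)) / S) :
    SegR (crv PP) tK tL tC (esn x * eng.v x) (mun 3 x * ((((3 : ℕ) : ℝ) + x) / 2)) (mun 3 x * (3 / 40)) ccNC 2 (3 : Fin 6) x :=
  SegV.join (cstN2a_3.seg (c := c1n) ⟨hx, hx'⟩ (fun y h hv => rng_2a h) (fun y h hv => yag_v h.nn hv) rfl rfl
      (fun y h hv => ((atB32a ⟨h, fun e => absurd e (by decide)⟩ hv)).atN (mo_w x))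
      (fun y h hv => ((atB42 ⟨h, fun e => absurd e (by decide)⟩)).atNc (yag_v h.nn hv) (mo_w x)))
    (cstN2b_3.seg (c := fun y => y) ⟨hx, hx'⟩ (fun y h hv => rng_2b h hv) (fun _ _ _ => rfl) rfl rfl
      (fun y h hv => ((atB32b ⟨h, fun e => absurd e (by decide)⟩ hv)).atN (mo_w x))
      (fun y h hv => ((atB42 ⟨h, fun e => absurd e (by decide)⟩)).atN (mo_w x)))

theorem segN2_4 {x : ℝ} (hx : ((536870912 : ℕ) : ℝ) / S ≤ x) (hx' : x ≤ (((536870912 : ℕ) : ℝ) + (50465866 : ℕ)) / S) :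
    SegR (crv PP) tK tL tC (esn x * eng.v x) (mun 3 x * ((((3 : ℕ) : ℝ) + x) / 2)) (mun 3 x * (3 / 40)) ccNC 2 (4 : Fin 6) x :=
  SegV.join (cstN2a_4.seg (c := c1n) ⟨hx, hx'⟩ (fun y h hv => rng_2a h) (fun y h hv => yag_v h.nn hv) rfl rfl
      (fun y h hv => ((atB42 ⟨h, fun e => absurd e (by decide)⟩)).atNc (yag_v h.nn hv) (mo_w x))
      (fun y h hv => ((atB52 ⟨h, fun e => absurd e (by decide)⟩)).atNc (yag_v h.nn hv) (mo_w x)))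
    (cstN2b_4.seg (c := fun y => y) ⟨hx, hx'⟩ (fun y h hv => rng_2b h hv) (fun _ _ _ => rfl) rfl rfl
      (fun y h hv => ((atB42 ⟨h, fun e => absurd e (by decide)⟩)).atN (mo_w x))
      (fun y h hv => ((atB52 ⟨h, fun e => absurd e (by decide)⟩)).atN (mo_w x)))

theorem segN2_5 {x : ℝ} (hx : ((536870912 : ℕ) : ℝ) / S ≤ x) (hx' : x ≤ (((536870912 : ℕ) : ℝ) + (50465866 : ℕ)) / S) :
    SegR (crv PP) tK tL tC (esn x * eng.v x) (mun 3 x * ((((3 : ℕ) : ℝ) + x) / 2)) (mun 3 x * (3 / 40)) ccNC 2 (5 : Fin 6) x :=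
  SegV.join (cstN2a_5.seg (c := c1n) ⟨hx, hx'⟩ (fun y h hv => rng_2a h) (fun y h hv => yag_v h.nn hv) rfl rfl
      (fun y h hv => ((atB52 ⟨h, fun e => absurd e (by decide)⟩)).atNc (yag_v h.nn hv) (mo_w x))
      (fun y h hv => ((atB62 ⟨h, fun e => absurd e (by decide)⟩)).atNc (yag_v h.nn hv) (mo_w x)))
    (cstN2b_5.seg (c := fun y => y) ⟨hx, hx'⟩ (fun y h hv => rng_2b h hv) (fun _ _ _ => rfl) rfl rfl
      (fun y h hv => ((atB52 ⟨h, fun e => absurd e (by decide)⟩)).atN (mo_w x))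
      (fun y h hv => ((atB62 ⟨h, fun e => absurd e (by decide)⟩)).atN (mo_w x)))

theorem segN3_0 {x : ℝ} (hx : ((536870912 : ℕ) : ℝ) / S ≤ x) (hx' : x ≤ (((536870912 : ℕ) : ℝ) + (50465866 : ℕ)) / S) :
    SegR (crv PP) tK tL tC (esn x * eng.v x) (mun 3 x * ((((3 : ℕ) : ℝ) + x) / 2)) (mun 3 x * (3 / 40)) ccNC 3 (0 : Fin 6) x :=
  SegV.all (cstN3_0.seg (c := c3n) ⟨hx, hx'⟩ (fun y h hv => rng_3 h) (fun y h hv => ycg_v h.nn h.2) rfl rfl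
      (fun y h hv => atN_off (pinK hx hx') (pinL hx hx') (.inl (thrB hx hx').pin) h (off_3 h))
      (fun y h hv => ((atB13 ⟨h, fun e => absurd e (by decide)⟩)).atNc (ycg_v h.nn h.2) (mo_w x)))

theorem segN3_1 {x : ℝ} (hx : ((536870912 : ℕ) : ℝ) / S ≤ x) (hx' : x ≤ (((536870912 : ℕ) : ℝ) + (50465866 : ℕ)) / S) :
    SegR (crv PP) tK tL tC (esn x * eng.v x) (mun 3 x * ((((3 : ℕ) : ℝ) + x) / 2)) (mun 3 x * (3 / 40)) ccNC 3 (1 : Fin 6) x :=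
  SegV.all (cstN3_1.seg (c := c3n) ⟨hx, hx'⟩ (fun y h hv => rng_3 h) (fun y h hv => ycg_v h.nn h.2) rfl rfl
      (fun y h hv => ((atB13 ⟨h, fun e => absurd e (by decide)⟩)).atNc (ycg_v h.nn h.2) (mo_w x))
      (fun y h hv => ((atB23 ⟨h, fun e => absurd e (by decide)⟩)).atNc (ycg_v h.nn h.2) (mo_w x)))

theorem segN3_2 {x : ℝ} (hx : ((536870912 : ℕ) : ℝ) / S ≤ x) (hx' : x ≤ (((536870912 : ℕ) : ℝ) + (50465866 : ℕ)) / S) :
    SegR (crv PP) tK tL tC (esn x * eng.v x) (mun 3 x * ((((3 : ℕ) : ℝ) + x) / 2)) (mun 3 x * (3 / 40)) ccNC 3 (2 : Fin 6) x :=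
  SegV.all (cstN3_2.seg (c := c3n) ⟨hx, hx'⟩ (fun y h hv => rng_3 h) (fun y h hv => ycg_v h.nn h.2) rfl rfl
      (fun y h hv => ((atB23 ⟨h, fun e => absurd e (by decide)⟩)).atNc (ycg_v h.nn h.2) (mo_w x))
      (fun y h hv => ((atB33 ⟨h, fun e => absurd e (by decide)⟩)).atNc (ycg_v h.nn h.2) (mo_w x)))

theorem segN3_3 {x : ℝ} (hx : ((536870912 : ℕ) : ℝ) / S ≤ x) (hx' : x ≤ (((536870912 : ℕ) : ℝ) + (50465866 : ℕ)) / S) :
    SegR (crv PP) tK tL tC (esn x * eng.v x) (mun 3 x * ((((3 : ℕ) : ℝ) + x) / 2)) (mun 3 x * (3 / 40)) ccNC 3 (3 : Fin 6) x :=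
  SegV.all (cstN3_3.seg (c := c3n) ⟨hx, hx'⟩ (fun y h hv => rng_3 h) (fun y h hv => ycg_v h.nn h.2) rfl rfl
      (fun y h hv => ((atB33 ⟨h, fun e => absurd e (by decide)⟩)).atNc (ycg_v h.nn h.2) (mo_w x))
      (fun y h hv => ((atB43 ⟨h, fun e => absurd e (by decide)⟩)).atN (mo_w x)))

theorem segN3_4 {x : ℝ} (hx : ((536870912 : ℕ) : ℝ) / S ≤ x) (hx' : x ≤ (((536870912 : ℕ) : ℝ) + (50465866 : ℕ)) / S) :
    SegR (crv PP) tK tL tC (esn x * eng.v x) (mun 3 x * ((((3 : ℕ) : ℝ) + x) / 2)) (mun 3 x * (3 / 40)) ccNC 3 (4 : Fin 6) x :=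
  SegV.all (cstN3_4.seg (c := c3n) ⟨hx, hx'⟩ (fun y h hv => rng_3 h) (fun y h hv => ycg_v h.nn h.2) rfl rfl
      (fun y h hv => ((atB43 ⟨h, fun e => absurd e (by decide)⟩)).atN (mo_w x))
      (fun y h hv => ((atB53 ⟨h, fun e => absurd e (by decide)⟩)).atN (mo_w x)))

theorem segN3_5 {x : ℝ} (hx : ((536870912 : ℕ) : ℝ) / S ≤ x) (hx' : x ≤ (((536870912 : ℕ) : ℝ) + (50465866 : ℕ)) / S) :
    SegR (crv PP) tK tL tC (esn x * eng.v x) (mun 3 x * ((((3 : ℕ) : ℝ) + x) / 2)) (mun 3 x * (3 / 40)) ccNC 3 (5 : Fin 6) x :=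
  SegV.all (cstN3_5.seg (c := c3n) ⟨hx, hx'⟩ (fun y h hv => rng_3 h) (fun y h hv => ycg_v h.nn h.2) rfl rfl
      (fun y h hv => ((atB53 ⟨h, fun e => absurd e (by decide)⟩)).atN (mo_w x))
      (fun y h hv => ((atB63 ⟨h, fun e => absurd e (by decide)⟩)).atN (mo_w x)))

theorem uniN0 {x : ℝ} (hx : ((536870912 : ℕ) : ℝ) / S ≤ x) (hx' : x ≤ (((536870912 : ℕ) : ℝ) + (50465866 : ℕ)) / S) :
    UniR (crv PP) tK tL tC (esn x * eng.v x) (mun 3 x * ((((3 : ℕ) : ℝ) + x) / 2)) (mun 3 x * (3 / 40)) ccNU 0 x :=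
  cstNU0_0.uni (c := fun y => y) ⟨hx, hx'⟩ (fun y h hv => rng_0 h) (fun _ _ _ => rfl) rfl rfl
    (fun y h hv => ((atB00 ⟨h, fun _ => on_0 h⟩)).atN (mo_w x))

theorem uniN1 {x : ℝ} (hx : ((536870912 : ℕ) : ℝ) / S ≤ x) (hx' : x ≤ (((536870912 : ℕ) : ℝ) + (50465866 : ℕ)) / S) :
    UniR (crv PP) tK tL tC (esn x * eng.v x) (mun 3 x * ((((3 : ℕ) : ℝ) + x) / 2)) (mun 3 x * (3 / 40)) ccNU 1 x :=
  cstNU1_0.uni (c := fun y => y) ⟨hx, hx'⟩ (fun y h hv => rng_1 h) (fun _ _ _ => rfl) rfl rfl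
    (fun y h hv => ((atB01 ⟨h, fun _ => on_1 h⟩)).atN (mo_w x))

theorem uniN2 {x : ℝ} (hx : ((536870912 : ℕ) : ℝ) / S ≤ x) (hx' : x ≤ (((536870912 : ℕ) : ℝ) + (50465866 : ℕ)) / S) :
    UniR (crv PP) tK tL tC (esn x * eng.v x) (mun 3 x * ((((3 : ℕ) : ℝ) + x) / 2)) (mun 3 x * (3 / 40)) ccNU 2 x :=
  cstNU2_0.uni (c := c1n) ⟨hx, hx'⟩ (fun y h hv => rng_2a h) (fun y h hv => yag_v h.nn hv) rfl rfl
    (fun y h hv => ((atB02 ⟨h, fun _ => hv⟩)).atN (mo_w x))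

theorem segN {x : ℝ} (hx : ((536870912 : ℕ) : ℝ) / S ≤ x) (hx' : x ≤ (((536870912 : ℕ) : ℝ) + (50465866 : ℕ)) / S) : ∀ a, a < 4 → ∀ i : Fin 6,
    SegR (crv PP) tK tL tC (esn x * eng.v x) (mun 3 x * ((((3 : ℕ) : ℝ) + x) / 2)) (mun 3 x * (3 / 40)) ccNC a i x := by
  intro a ha i
  match a, ha with
  | 0, _ => exact match i with
    | 0 => segN0_0 hx hx'
    | 1 => segN0_1 hx hx'
    | 2 => segN0_2 hx hx'
    | 3 => segN0_3 hx hx'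
    | 4 => segN0_4 hx hx'
    | 5 => segN0_5 hx hx'
  | 1, _ => exact match i with
    | 0 => segN1_0 hx hx'
    | 1 => segN1_1 hx hx'
    | 2 => segN1_2 hx hx'
    | 3 => segN1_3 hx hx'
    | 4 => segN1_4 hx hx'
    | 5 => segN1_5 hx hx'
  | 2, _ => exact match i with
    | 0 => segN2_0 hx hx'
    | 1 => segN2_1 hx hx'
    | 2 => segN2_2 hx hx'
    | 3 => segN2_3 hx hx'
    | 4 => segN2_4 hx hx'
    | 5 => segN2_5 hx hx'
  | 3, _ => exact match i with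
    | 0 => segN3_0 hx hx'
    | 1 => segN3_1 hx hx'
    | 2 => segN3_2 hx hx'
    | 3 => segN3_3 hx hx'
    | 4 => segN3_4 hx hx'
    | 5 => segN3_5 hx hx'

theorem uniN {x : ℝ} (hx : ((536870912 : ℕ) : ℝ) / S ≤ x) (hx' : x ≤ (((536870912 : ℕ) : ℝ) + (50465866 : ℕ)) / S) : ∀ a, a < 3 → UniR (crv PP) tK tL tC (esn x * eng.v x) (mun 3 x * ((((3 : ℕ) : ℝ) + x) / 2)) (mun 3 x * (3 / 40)) ccNU a x := by
  intro a ha
  match a, ha with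
  | 0, _ => exact uniN0 hx hx'
  | 1, _ => exact uniN1 hx hx'
  | 2, _ => exact uniN2 hx hx'

/-- **The costs of the edges.** -/
theorem costTab {x κ : ℝ} (hx : ((536870912 : ℕ) : ℝ) / S ≤ x) (hx' : x ≤ (((536870912 : ℕ) : ℝ) + (50465866 : ℕ)) / S) (hκ : κ * h0 = ken x) :
    CostTab3 (tab PP.cur.nodes (tbl tK x) (fun T i => eng.v x * tbl tK x T i) (tbl tL x))
      (ker PP.cur.nodes (tbl (smT h0⁻¹ tC) x) fun _ _ => 0) (h0 * (3 / 40)) 3 κ (h0 * x)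
      (cbv LC.Box.I5000_5470F.C) (cbv LC.Box.I5000_5470F.U) (cbv LC.Box.I5000_5470N.C) (cbv LC.Box.I5000_5470N.U) := by
  have h1 := rng_pos (by norm_num) hx
  have h2 := rng_lt (by norm_num) hx'
  have e := costTab3_rows (linkX PP) (pinK hx hx').linkV (pinL hx hx').linkV (thrB hx hx').pin.linkV_h0
    PP.first h1 h2 hκ (en_pos h1.le).le rfl (by norm_num) (segF hx hx') (segN hx hx') (uniF hx hx')
    (uniN hx hx') (okU_sound (by decide +kernel)) (okU_sound (by decide +kernel))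
  rwa [ccFC_eq, ccFU_eq, ccNC_eq, ccNU_eq] at e

/-- **The exact count** from the certificates of the triangles and of the floor. -/
theorem good {x κ a : ℝ} {f : ℝ → ℝ} (hx : ((536870912 : ℕ) : ℝ) / S ≤ x) (hx' : x ≤ (((536870912 : ℕ) : ℝ) + (50465866 : ℕ)) / S) (hκ : κ * h0 = ken x)
    (h : CertE PP.cur (tbl tK x) (tbl tL x) (tbl (smT h0⁻¹ tC) x) f 3 a κ (h0 * x) (eng.v x)
      (h0 * (3 / 40)))
    (rows : RowOK ((tab PP.cur.nodes (tbl tK x) (fun T i => eng.v x * tbl tK x T i) (tbl tL x)).flat3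
      (ker PP.cur.nodes (tbl (smT h0⁻¹ tC) x) fun _ _ => 0) f 3 κ (h0 * x)) 3 (h0 * x)) :
    Good (h0 * x) :=
  goodE2 LC.Box.I5000_5470F.certs LC.Box.I5000_5470N.certs (wallF hx hx') (wallN hx hx') h (costTab hx hx' hκ) rows

end Pool.Agent.Strip051.G.I5000_5470.Tab
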