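import Pool.Agent.Strip051.PB.DgE
import Pool.Agent.Strip051.PB.DgJ
import Pool.Agent.Strip051.G.I5000_5470.Fact

/-! # The corner (1, 1, 2): parameters of the degenerate charts (generated) -/

set_option linter.all false

namespace Pool.Agent.Strip051.G.I5000_5470.Tab.DG

open Pool.Agent.Strip051.PB Pool.Agent.Strip051.PB.Dg Pool.Agent.StripNear Pool.Agent.Strip051.LC

noncomputable def pFma : Fn1 := ⟨_, _, fun h1 => (enc_norm (enc_add (enc_scale 1307551 1250000 (enc_subr 1047 2000 h1)) (enc_rat _ 653851 4687500)))⟩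
noncomputable def pFmb : Fn1 := ⟨_, _, fun h1 => (enc_norm (enc_subr 7708939 37500000 (enc_neg (enc_scale 20075581 7500000 (enc_subr 1047 2000 h1)))))⟩
noncomputable def pFmu : Fn1 := ⟨_, _, fun h1 => (mug3.enc h1)⟩
noncomputable def pFnx : Fn1 := ⟨_, _, fun h1 => (enc_norm (enc_add h1 (enc_pnc _ 3)))⟩
noncomputable def pFc0 : Fn1 := ⟨_, _, fun h1 => (enc_pnc _ 1)⟩
noncomputable def pFkc : Fn1 := ⟨_, _, fun h1 => (enc_norm (enc_subr 2371419 20000000 (enc_scale 531281 1250000 (enc_subr 1047 2000 h1))))⟩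
noncomputable def pFjc : Fn1 := ⟨_, _, fun h1 => (enc_norm (enc_subr 9092147 10000000 (enc_scale 5994733 2000000 (enc_subr 1047 2000 h1))))⟩
noncomputable def pFca : Fn1 := ⟨_, _, fun h1 => (enc_norm (enc_sub (enc_rat _ 12977 1000000) (enc_scale 335909 50000 (enc_subr 1047 2000 h1))))⟩
noncomputable def pFcb : Fn1 := ⟨_, _, fun h1 => (enc_norm (enc_subr 589741 1000000 (enc_scale 237767 25000 (enc_subr 1047 2000 h1))))⟩
noncomputable def pFcc : Fn1 := ⟨_, _, fun h1 => (enc_norm (enc_sub (enc_rat _ 4407147 500000) (enc_scale 599321 20000 (enc_subr 1047 2000 h1))))⟩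
noncomputable def pFsv : Fn1 := ⟨_, _, fun h1 => (enc_norm (enc_subr 1 16 h1))⟩
noncomputable def pFx11 : Fn1 := ⟨_, _, fun h1 => (cv1m.enc h1)⟩
noncomputable def pFx01 : Fn1 := ⟨_, _, fun h1 => (c1g.enc h1)⟩
noncomputable def pFK11 : Fn2 := ⟨_, _, fun h1 h2 => (kf1q1.enc h1 h2)⟩
noncomputable def pFK01 : Fn2 := ⟨_, _, fun h1 h2 => (kf0q1.enc h1 h2)⟩
noncomputable def pFL11 : Fn2 := ⟨_, _, fun h1 h2 => (l1q1.enc h1 h2)⟩
noncomputable def pFL01 : Fn2 := ⟨_, _, fun h1 h2 => (l0q1.enc h1 h2)⟩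
noncomputable def kFc0 : Fn1 := ⟨_, _, fun h1 => (enc_norm (enc_add (enc_scale 1 1000000 (enc_subr 1047 2000 h1)) (enc_rat _ 3 20000000)))⟩
noncomputable def kFc0g : Fn1 := ⟨_, _, fun h1 => (enc_norm (enc_add (enc_scale 748951 25000 (enc_subr 1047 2000 h1)) (enc_rat _ 13535461 1000000)))⟩
noncomputable def kFc1 : Fn1 := ⟨_, _, fun h1 => (enc_norm (enc_subr 1 10000000 (enc_neg (enc_scale 1 2000000 (enc_subr 1047 2000 h1)))))⟩
noncomputable def kFc1g : Fn1 := ⟨_, _, fun h1 => (enc_norm (enc_subr 2151427 250000 (enc_neg (enc_scale 947253 100000 (enc_subr 1047 2000 h1)))))⟩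
noncomputable def kFa0 : Fn1 := ⟨_, _, fun h1 => (enc_norm (enc_add (enc_scale 7 7500000 (enc_subr 1047 2000 h1)) (enc_rat _ 1 50000000)))⟩
noncomputable def kFa0g : Fn1 := ⟨_, _, fun h1 => (enc_norm (enc_subr 1782271 1000000 (enc_scale 170979 10000 (enc_subr 1047 2000 h1))))⟩
noncomputable def kFb0 : Fn1 := ⟨_, _, fun h1 => (enc_norm (enc_add (enc_scale 31 30000000 (enc_subr 1047 2000 h1)) (enc_rat _ 13 150000000)))⟩
noncomputable def kFb0g : Fn1 := ⟨_, _, fun h1 => (enc_norm (enc_sub (enc_rat _ 174421 500000) (enc_scale 10444 3125 (enc_subr 1047 2000 h1))))⟩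
noncomputable def kFb1 : Fn1 := ⟨_, _, fun h1 => (enc_neg (enc_rat _ 19 100000000))⟩
noncomputable def kFb1g : Fn1 := ⟨_, _, fun h1 => (enc_norm (enc_subr 17507 125000 (enc_neg (enc_scale 291061 100000 (enc_subr 1047 2000 h1)))))⟩
noncomputable def kFd0 : Fn1 := ⟨_, _, fun h1 => (enc_norm (enc_add (enc_scale 3 1000000 (enc_subr 1047 2000 h1)) (enc_rat _ 29 150000000)))⟩
noncomputable def kFd0g : Fn1 := ⟨_, _, fun h1 => (enc_norm (enc_subr 1084587 1000000 (enc_scale 520687 50000 (enc_subr 1047 2000 h1))))⟩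
noncomputable def kFd1 : Fn1 := ⟨_, _, fun h1 => (enc_neg (enc_rat _ 19 50000000))⟩
noncomputable def kFd1g : Fn1 := ⟨_, _, fun h1 => (enc_norm (enc_subr 17507 62500 (enc_neg (enc_scale 291061 50000 (enc_subr 1047 2000 h1)))))⟩
noncomputable def kFe0 : Fn1 := ⟨_, _, fun h1 => (enc_norm (enc_add (enc_scale 59 30000000 (enc_subr 1047 2000 h1)) (enc_rat _ 1 9375000)))⟩
noncomputable def kFe0g : Fn1 := ⟨_, _, fun h1 => (enc_norm (enc_subr 1433429 1000000 (enc_scale 687791 50000 (enc_subr 1047 2000 h1))))⟩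
noncomputable def kFe1 : Fn1 := ⟨_, _, fun h1 => (enc_neg (enc_rat _ 19 100000000))⟩
noncomputable def kFe1g : Fn1 := ⟨_, _, fun h1 => (enc_norm (enc_subr 17507 125000 (enc_neg (enc_scale 291061 100000 (enc_subr 1047 2000 h1)))))⟩
noncomputable def cFxs1 : Fn1 := ⟨_, _, fun h1 => (enc_norm (enc_add (enc_scale 22 25 (dgxi.enc h1)) (enc_scale 3 25 (dgws.enc h1))))⟩
noncomputable def cFsB1_3 : Fn2 := ⟨_, _, fun h1 h2 => (enc_mul h1 (dgxi.enc h1))⟩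
noncomputable def cFsB1_9 : Fn2 := ⟨_, _, fun h1 h2 => (enc_subr 1047 2000 h2)⟩
noncomputable def cFsB1_22 : Fn2 := ⟨_, _, fun h1 h2 => (enc_inv h1)⟩
noncomputable def cFsB1 : Fn2 := ⟨_, _, fun h1 h2 => (enc_norm (enc_case (enc_sub (enc_rat _ 1 20) (cFsB1_3.enc h1 h2)) (enc_case (enc_sub (enc_rat _ 1 10) (cFsB1_3.enc h1 h2)) (enc_subr 3525793 5000000 (enc_sub (enc_mul (enc_norm (enc_sub (enc_rat _ 83773 1000000) (enc_scale 353 100000 (cFsB1_9.enc h1 h2)))) (cFsB1_22.enc h1 h2)) (enc_mul (enc_norm (enc_add (enc_scale 779 625 (cFsB1_9.enc h1 h2)) (enc_rat _ 10023 25000))) (dgxi.enc h1)))) (enc_subr 3525793 5000000 (enc_sub (enc_mul (enc_norm (enc_add (enc_scale 6383 100000 (cFsB1_9.enc h1 h2)) (enc_rat _ 1393 200000))) (cFsB1_22.enc h1 h2)) (enc_mul (enc_norm (enc_subr 9179 25000 (enc_scale 48 25 (cFsB1_9.enc h1 h2)))) (dgxi.enc h1))))) (enc_subr 3525793 5000000 (enc_neg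 (enc_mul (enc_norm (enc_subr 25323 50000 (enc_scale 3217 5000 (cFsB1_9.enc h1 h2)))) (dgxi.enc h1))))))⟩
noncomputable def cFBs1 : Fn2 := ⟨_, _, fun h1 h2 => (cFsB1.enc h1 h2)⟩
noncomputable def cFsX1_3 : Fn2 := ⟨_, _, fun h1 h2 => (enc_mul h1 (dgxi.enc h1))⟩
noncomputable def cFsX1_9 : Fn2 := ⟨_, _, fun h1 h2 => (enc_subr 1047 2000 h2)⟩
noncomputable def cFsX1_22 : Fn2 := ⟨_, _, fun h1 h2 => (enc_inv h1)⟩
noncomputable def cFsX1 : Fn2 := ⟨_, _, fun h1 h2 => (enc_norm (enc_case (enc_sub (enc_rat _ 1 20) (cFsX1_3.enc h1 h2)) (enc_case (enc_sub (enc_rat _ 1 10) (cFsX1_3.enc h1 h2)) (enc_sub (enc_mul (enc_norm (enc_sub (enc_rat _ 1165057576021 18535730000000) (enc_scale 6461882003 47772500000 (cFsX1_9.enc h1 h2)))) (cFsX1_22.enc h1 h2)) (enc_mul (enc_norm (enc_add (enc_scale 2661 2500 (cFsX1_9.enc h1 h2)) (enc_rat _ 44043 50000))) (dgxi.enc h1))) (enc_sub (enc_mul (enc_norm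 (enc_sub (enc_rat _ 225555565241 18535730000000) (enc_scale 1772533403 47772500000 (cFsX1_9.enc h1 h2)))) (cFsX1_22.enc h1 h2)) (enc_mul (enc_norm (enc_add (enc_scale 1023 500 (cFsX1_9.enc h1 h2)) (enc_rat _ 187 500))) (dgxi.enc h1)))) (enc_neg (enc_mul (enc_norm (enc_add (enc_scale 6659660153 2388625000 (cFsX1_9.enc h1 h2)) (enc_rat _ 121062585759 926786500000))) (dgxi.enc h1)))))⟩
noncomputable def cFsD1 : Fn2 := ⟨_, _, fun h1 h2 => (enc_norm (enc_neg (enc_mul (enc_norm (enc_subr 614541 125000 (enc_scale 180421 6250 (enc_subr 1047 2000 h2)))) (dgxi.enc h1))))⟩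
noncomputable def cFsDD1 : Fn2 := ⟨_, _, fun h1 h2 => (cFsD1.enc h1 h2)⟩
noncomputable def cFxs2 : Fn1 := ⟨_, _, fun h1 => (enc_norm (enc_add (enc_scale 3 5 (dgxi.enc h1)) (enc_scale 2 5 (dgws.enc h1))))⟩
noncomputable def cFsB2_3 : Fn2 := ⟨_, _, fun h1 h2 => (enc_mul h1 (dgxi.enc h1))⟩
noncomputable def cFsB2_9 : Fn2 := ⟨_, _, fun h1 h2 => (enc_subr 1047 2000 h2)⟩
noncomputable def cFsB2_22 : Fn2 := ⟨_, _, fun h1 h2 => (enc_inv h1)⟩
noncomputable def cFsB2 : Fn2 := ⟨_, _, fun h1 h2 => (enc_norm (enc_case (enc_sub (enc_rat _ 1 20) (cFsB2_3.enc h1 h2)) (enc_case (enc_sub (enc_rat _ 1 10) (cFsB2_3.enc h1 h2)) (enc_sub (enc_mul (enc_norm (enc_sub (enc_rat _ 9881 250000) (enc_scale 458 3125 (cFsB2_9.enc h1 h2)))) (cFsB2_22.enc h1 h2)) (enc_mul (enc_norm (enc_add (enc_scale 3007 5000 (cFsB2_9.enc h1 h2)) (enc_rat _ 2162 3125))) (dgxi.enc h1))) (enc_sub (enc_mul (enc_norm (enc_sub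 (enc_rat _ 849 125000) (enc_scale 94 3125 (cFsB2_9.enc h1 h2)))) (cFsB2_22.enc h1 h2)) (enc_mul (enc_norm (enc_add (enc_scale 8831 5000 (cFsB2_9.enc h1 h2)) (enc_rat _ 9113 25000))) (dgxi.enc h1)))) (enc_neg (enc_mul (enc_norm (enc_add (enc_scale 11839 5000 (cFsB2_9.enc h1 h2)) (enc_rat _ 5717 25000))) (dgxi.enc h1)))))⟩
noncomputable def cFBs2 : Fn2 := ⟨_, _, fun h1 h2 => (cFsB2.enc h1 h2)⟩
noncomputable def cFsX2_3 : Fn2 := ⟨_, _, fun h1 h2 => (enc_mul h1 (dgxi.enc h1))⟩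
noncomputable def cFsX2_9 : Fn2 := ⟨_, _, fun h1 h2 => (enc_subr 1047 2000 h2)⟩
noncomputable def cFsX2_22 : Fn2 := ⟨_, _, fun h1 h2 => (enc_inv h1)⟩
noncomputable def cFsX2 : Fn2 := ⟨_, _, fun h1 h2 => (enc_norm (enc_case (enc_sub (enc_rat _ 1 20) (cFsX2_3.enc h1 h2)) (enc_case (enc_sub (enc_rat _ 1 10) (cFsX2_3.enc h1 h2)) (enc_sub (enc_mul (enc_norm (enc_sub (enc_rat _ 533 25000) (enc_scale 41 10000 (cFsX2_9.enc h1 h2)))) (cFsX2_22.enc h1 h2)) (enc_mul (enc_norm (enc_add (enc_scale 2971 2500 (cFsX2_9.enc h1 h2)) (enc_rat _ 17669 50000))) (dgxi.enc h1))) (enc_sub (enc_mul (enc_norm (enc_add (enc_scale 19 25000 (cFsX2_9.enc h1 h2)) (enc_rat _ 2149 500000))) (cFsX2_22.enc h1 h2)) (enc_mul (enc_norm (enc_add (enc_scale 1237 1000 (cFsX2_9.enc h1 h2)) (enc_rat _ 4579 25000))) (dgxi.enc h1)))) (enc_neg (enc_mul (enc_norm (enc_add (enc_scale 6109 5000 (cFsX2_9.enc h1 h2)) (enc_rat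 _ 243 2500))) (dgxi.enc h1)))))⟩
noncomputable def cFsD2 : Fn2 := ⟨_, _, fun h1 h2 => (enc_norm (enc_neg (enc_mul (enc_norm (enc_subr 1453531 250000 (enc_scale 753131 25000 (enc_subr 1047 2000 h2)))) (dgxi.enc h1))))⟩
noncomputable def cFsDD2 : Fn2 := ⟨_, _, fun h1 h2 => (cFsD2.enc h1 h2)⟩
noncomputable def cFxs3 : Fn1 := ⟨_, _, fun h1 => (enc_norm (enc_add (enc_scale 1 5 (dgxi.enc h1)) (enc_scale 4 5 (dgws.enc h1))))⟩
noncomputable def cFsB3_3 : Fn2 := ⟨_, _, fun h1 h2 => (enc_mul h1 (dgxi.enc h1))⟩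
noncomputable def cFsB3_9 : Fn2 := ⟨_, _, fun h1 h2 => (enc_subr 1047 2000 h2)⟩
noncomputable def cFsB3_22 : Fn2 := ⟨_, _, fun h1 h2 => (enc_inv h1)⟩
noncomputable def cFsB3 : Fn2 := ⟨_, _, fun h1 h2 => (enc_norm (enc_case (enc_sub (enc_rat _ 1 20) (cFsB3_3.enc h1 h2)) (enc_case (enc_sub (enc_rat _ 1 10) (cFsB3_3.enc h1 h2)) (enc_sub (enc_mul (enc_norm (enc_sub (enc_rat _ 9503 500000) (enc_scale 26019 100000 (cFsB3_9.enc h1 h2)))) (cFsB3_22.enc h1 h2)) (enc_mul (enc_norm (enc_add (enc_scale 733 1000 (cFsB3_9.enc h1 h2)) (enc_rat _ 2869 5000))) (dgxi.enc h1))) (enc_sub (enc_mul (enc_norm (enc_sub (enc_rat _ 449 50000) (enc_scale 15749 100000 (cFsB3_9.enc h1 h2)))) (cFsB3_22.enc h1 h2)) (enc_mul (enc_norm (enc_add (enc_scale 44 25 (cFsB3_9.enc h1 h2)) (enc_rat _ 23677 50000))) (dgxi.enc h1)))) (enc_neg (enc_mul (enc_norm (enc_add (enc_scale 24549 5000 (cFsB3_9.enc h1 h2))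 (enc_rat _ 14697 50000))) (dgxi.enc h1)))))⟩
noncomputable def cFBs3 : Fn2 := ⟨_, _, fun h1 h2 => (cFsB3.enc h1 h2)⟩
noncomputable def cFsX3_3 : Fn2 := ⟨_, _, fun h1 h2 => (enc_mul h1 (dgxi.enc h1))⟩
noncomputable def cFsX3_9 : Fn2 := ⟨_, _, fun h1 h2 => (enc_subr 1047 2000 h2)⟩
noncomputable def cFsX3_22 : Fn2 := ⟨_, _, fun h1 h2 => (enc_inv h1)⟩
noncomputable def cFsX3 : Fn2 := ⟨_, _, fun h1 h2 => (enc_norm (enc_case (enc_sub (enc_rat _ 1 20) (cFsX3_3.enc h1 h2)) (enc_case (enc_sub (enc_rat _ 1 10) (cFsX3_3.enc h1 h2)) (enc_sub (enc_mul (enc_norm (enc_sub (enc_rat _ 1183 1000000) (enc_scale 1227 20000 (cFsX3_9.enc h1 h2)))) (cFsX3_22.enc h1 h2)) (enc_mul (enc_norm (enc_add (enc_scale 2651 5000 (cFsX3_9.enc h1 h2)) (enc_rat _ 1301 50000))) (dgxi.enc h1))) (enc_sub (enc_mul (enc_norm (enc_subr 63 200000 (enc_neg (enc_scale 3777 100000 (cFsX3_9.enc h1 h2))))) (cFsX3_22.enc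 h1 h2)) (enc_mul (enc_norm (enc_add (enc_scale 383 500 (cFsX3_9.enc h1 h2)) (enc_rat _ 69 6250))) (dgxi.enc h1)))) (enc_neg (enc_mul (enc_norm (enc_add (enc_scale 7607 5000 (cFsX3_9.enc h1 h2)) (enc_rat _ 867 50000))) (dgxi.enc h1)))))⟩
noncomputable def cFsD3 : Fn2 := ⟨_, _, fun h1 h2 => (enc_norm (enc_neg (enc_mul (enc_norm (enc_subr 540441 250000 (enc_scale 735733 25000 (enc_subr 1047 2000 h2)))) (dgxi.enc h1))))⟩
noncomputable def cFsDD3 : Fn2 := ⟨_, _, fun h1 h2 => (cFsD3.enc h1 h2)⟩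
noncomputable def nFsc3 : Fn1 := ⟨_, _, fun h1 => (enc_scale 4 5 h1)⟩
noncomputable def nFB3_3 : Fn2 := ⟨_, _, fun h1 h2 => (enc_subr 1047 2000 h2)⟩
noncomputable def nFB3 : Fn2 := ⟨_, _, fun h1 h2 => (enc_norm (enc_sub (enc_add (enc_scale 13317 100000 (nFB3_3.enc h1 h2)) (enc_rat _ 341147 1000000)) (enc_mul (dgw.enc h1) (enc_norm (enc_add (enc_scale 5257 15000 (nFB3_3.enc h1 h2)) (enc_rat _ 5129 6250))))))⟩
noncomputable def nFX3_3 : Fn2 := ⟨_, _, fun h1 h2 => (enc_subr 1047 2000 h2)⟩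
noncomputable def nFX3 : Fn2 := ⟨_, _, fun h1 h2 => (enc_norm (enc_sub (enc_add (enc_scale 12579 3125 (nFX3_3.enc h1 h2)) (enc_rat _ 95257 250000)) (enc_mul (dgw.enc h1) (enc_norm (enc_add (enc_scale 45731 5000 (nFX3_3.enc h1 h2)) (enc_rat _ 3331 50000))))))⟩
noncomputable def nFD3_3 : Fn2 := ⟨_, _, fun h1 h2 => (enc_subr 1047 2000 h2)⟩
noncomputable def nFD3 : Fn2 := ⟨_, _, fun h1 h2 => (enc_norm (enc_sub (enc_add (enc_scale 48839 12500 (nFD3_3.enc h1 h2)) (enc_rat _ 111431 125000)) (enc_mul (dgw.enc h1) (enc_norm (enc_subr 2828941 500000 (enc_scale 256261 25000 (nFD3_3.enc h1 h2)))))))⟩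
noncomputable def nFsc4 : Fn1 := ⟨_, _, fun h1 => (enc_norm (enc_add (enc_scale 7 10 h1) (enc_rat _ 3 10)))⟩
noncomputable def nFB4 : Fn2 := ⟨_, _, fun h1 h2 => (enc_norm (enc_subr 138844500 318315881 (enc_scale 45555000 318315881 (enc_subr 1047 2000 h2))))⟩
noncomputable def nFX4 : Fn2 := ⟨_, _, fun h1 h2 => (enc_norm (enc_sub (enc_rat _ 101228200 318315881) (enc_scale 1179020600 954947643 (enc_subr 1047 2000 h2))))⟩
noncomputable def nFD4 : Fn2 := ⟨_, _, fun h1 h2 => (enc_norm (enc_sub (enc_rat _ 123041693 41395467) (enc_scale 25080579208 3766987497 (enc_subr 1047 2000 h2))))⟩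
noncomputable def nFsc5 : Fn1 := ⟨_, _, fun h1 => (enc_norm (enc_add (enc_scale 3 10 h1) (enc_rat _ 7 10)))⟩
noncomputable def nFB5 : Fn2 := ⟨_, _, fun h1 h2 => (enc_norm (enc_subr 295121000 658122329 (enc_scale 93670000 658122329 (enc_subr 1047 2000 h2))))⟩
noncomputable def nFX5 : Fn2 := ⟨_, _, fun h1 h2 => (enc_norm (enc_sub (enc_rat _ 191315400 658122329) (enc_scale 5398601200 1974366987 (enc_subr 1047 2000 h2))))⟩
noncomputable def nFD5 : Fn2 := ⟨_, _, fun h1 h2 => (enc_norm (enc_sub (enc_rat _ 372684250 286410981) (enc_scale 3485862500 668292289 (enc_subr 1047 2000 h2))))⟩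
noncomputable def l12F : List Knk := [⟨1, 20, kFc0, kFc0g⟩, ⟨1, 10, kFc1, kFc1g⟩]
noncomputable def laF : List Knk := [⟨3, 50, kFa0, kFa0g⟩]
noncomputable def lbF : List Knk := [⟨3, 50, kFb0, kFb0g⟩, ⟨1, 10, kFb1, kFb1g⟩]
noncomputable def l1F : List Knk := [⟨3, 50, kFe0, kFe0g⟩, ⟨1, 10, kFe1, kFe1g⟩]
noncomputable def l2F : List Knk := [⟨3, 50, kFd0, kFd0g⟩, ⟨1, 10, kFd1, kFd1g⟩]
noncomputable def cvF1 : CvP := ⟨cFxs1, cFBs1, cFsX1⟩
noncomputable def cvF2 : CvP := ⟨cFxs2, cFBs2, cFsX2⟩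
noncomputable def cvF3 : CvP := ⟨cFxs3, cFBs3, cFsX3⟩
noncomputable def ndF3 : NdU := ⟨nFsc3, nFB3, nFX3, nFD3⟩
noncomputable def ndF4 : NdU := ⟨nFsc4, nFB4, nFX4, nFD4⟩
noncomputable def ndF5 : NdU := ⟨nFsc5, nFB5, nFX5, nFD5⟩
noncomputable def pF : Pm := ⟨pFma, pFmb, pFmu, pFnx, pFc0, pFkc, pFjc, pFkc, pFjc, pFkc, pFjc, pFca, pFcb, pFcc, pFcc, pFcc, pFsv, l12F, l12F, l12F, laF, lbF, l1F, l2F, cvF1, pFx11, pFx01, pFK11, pFK01, pFL11, pFL01⟩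
noncomputable def pNc0 : Fn1 := ⟨_, _, fun h1 => (eng.enc h1)⟩
noncomputable def pNkc : Fn1 := ⟨_, _, fun h1 => (enc_norm (enc_mul (pNc0.enc h1) (enc_norm (enc_subr 2371419 20000000 (enc_scale 531281 1250000 (enc_subr 1047 2000 h1))))))⟩
noncomputable def pNjc : Fn1 := ⟨_, _, fun h1 => (enc_norm (enc_mul (pNc0.enc h1) (enc_norm (enc_subr 9092147 10000000 (enc_scale 5994733 2000000 (enc_subr 1047 2000 h1))))))⟩
noncomputable def pNcc : Fn1 := ⟨_, _, fun h1 => (enc_norm (enc_mul (pNc0.enc h1) (enc_norm (enc_sub (enc_rat _ 4407147 500000) (enc_scale 599321 20000 (enc_subr 1047 2000 h1))))))⟩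
noncomputable def pNK11 : Fn2 := ⟨_, _, fun h1 h2 => (enc_norm (enc_mul (pNc0.enc h2) (kf1q1.enc h1 h2)))⟩
noncomputable def pNK01 : Fn2 := ⟨_, _, fun h1 h2 => (enc_norm (enc_mul (pNc0.enc h2) (kf0q1.enc h1 h2)))⟩
noncomputable def kNc0 : Fn1 := ⟨_, _, fun h1 => (enc_norm (enc_mul (pNc0.enc h1) (enc_norm (enc_add (enc_scale 1 1000000 (enc_subr 1047 2000 h1)) (enc_rat _ 3 20000000)))))⟩
noncomputable def kNc0g : Fn1 := ⟨_, _, fun h1 => (enc_norm (enc_mul (pNc0.enc h1) (enc_norm (enc_add (enc_scale 748951 25000 (enc_subr 1047 2000 h1)) (enc_rat _ 13535461 1000000)))))⟩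
noncomputable def kNc1 : Fn1 := ⟨_, _, fun h1 => (enc_norm (enc_mul (pNc0.enc h1) (enc_norm (enc_subr 1 10000000 (enc_neg (enc_scale 1 2000000 (enc_subr 1047 2000 h1)))))))⟩
noncomputable def kNc1g : Fn1 := ⟨_, _, fun h1 => (enc_norm (enc_mul (pNc0.enc h1) (enc_norm (enc_subr 2151427 250000 (enc_neg (enc_scale 947253 100000 (enc_subr 1047 2000 h1)))))))⟩
noncomputable def cNBs1 : Fn2 := ⟨_, _, fun h1 h2 => (enc_norm (enc_mul (pNc0.enc h2) (cFsB1.enc h1 h2)))⟩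
noncomputable def cNBs2 : Fn2 := ⟨_, _, fun h1 h2 => (enc_norm (enc_mul (pNc0.enc h2) (cFsB2.enc h1 h2)))⟩
noncomputable def cNBs3 : Fn2 := ⟨_, _, fun h1 h2 => (enc_norm (enc_mul (pNc0.enc h2) (cFsB3.enc h1 h2)))⟩
noncomputable def nNB3_4 : Fn2 := ⟨_, _, fun h1 h2 => (enc_subr 1047 2000 h2)⟩
noncomputable def nNB3 : Fn2 := ⟨_, _, fun h1 h2 => (enc_norm (enc_mul (pNc0.enc h2) (enc_norm (enc_sub (enc_add (enc_scale 13317 100000 (nNB3_4.enc h1 h2)) (enc_rat _ 341147 1000000)) (enc_mul (dgw.enc h1) (enc_norm (enc_add (enc_scale 5257 15000 (nNB3_4.enc h1 h2)) (enc_rat _ 5129 6250))))))))⟩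
noncomputable def nNB4 : Fn2 := ⟨_, _, fun h1 h2 => (enc_norm (enc_mul (pNc0.enc h2) (enc_norm (enc_subr 138844500 318315881 (enc_scale 45555000 318315881 (enc_subr 1047 2000 h2))))))⟩
noncomputable def nNB5 : Fn2 := ⟨_, _, fun h1 h2 => (enc_norm (enc_mul (pNc0.enc h2) (enc_norm (enc_subr 295121000 658122329 (enc_scale 93670000 658122329 (enc_subr 1047 2000 h2))))))⟩
noncomputable def umo : Fn1 := ⟨_, _, fun h1 => (mog.enc h1)⟩
noncomputable def us1 : Fn1 := ⟨_, _, fun h1 => (enc_norm (enc_subr 499091 90000 (enc_neg (enc_scale 21909 500 (enc_subr 1047 2000 h1)))))⟩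
noncomputable def us2 : Fn1 := ⟨_, _, fun h1 => (enc_norm (enc_subr 237 3125 (enc_neg (enc_scale 4417 10000 (enc_subr 1047 2000 h1)))))⟩
noncomputable def us3 : Fn1 := ⟨_, _, fun h1 => (enc_norm (enc_subr 1251 2000 (enc_scale 222249 14000 (enc_subr 1047 2000 h1))))⟩
noncomputable def uC11 : Fn2 := ⟨_, _, fun h1 h2 => (kc1q1.enc h1 h2)⟩
noncomputable def uC01 : Fn2 := ⟨_, _, fun h1 h2 => (kc0q1.enc h1 h2)⟩
noncomputable def kNu1_0 : Fn1 := ⟨_, _, fun h1 => (enc_norm (enc_add (enc_scale 299683 8000 (enc_subr 1047 2000 h1)) (enc_rat _ 479819 360000)))⟩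
noncomputable def kNu1_0g : Fn1 := ⟨_, _, fun h1 => (enc_pnc _ 0)⟩
noncomputable def kNu2_0 : Fn1 := ⟨_, _, fun h1 => (enc_norm (enc_subr 243007 100000 (enc_scale 10734 625 (enc_subr 1047 2000 h1))))⟩
noncomputable def kNu2_0g : Fn1 := ⟨_, _, fun h1 => (enc_pnc _ 0)⟩
noncomputable def l12N : List Knk := [⟨1, 20, kNc0, kNc0g⟩, ⟨1, 10, kNc1, kNc1g⟩]
noncomputable def cvN1 : CvP := ⟨cFxs1, cNBs1, cFsX1⟩
noncomputable def cvN2 : CvP := ⟨cFxs2, cNBs2, cFsX2⟩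
noncomputable def cvN3 : CvP := ⟨cFxs3, cNBs3, cFsX3⟩
noncomputable def ndN3 : NdU := ⟨nFsc3, nNB3, nFX3, nFD3⟩
noncomputable def ndN4 : NdU := ⟨nFsc4, nNB4, nFX4, nFD4⟩
noncomputable def ndN5 : NdU := ⟨nFsc5, nNB5, nFX5, nFD5⟩
noncomputable def pN : Pm := ⟨pFma, pFmb, pFmu, pFnx, pNc0, pNkc, pNjc, pNkc, pNjc, pNkc, pNjc, pFca, pFcb, pNcc, pNcc, pNcc, pFsv, l12N, l12N, l12N, laF, lbF, l1F, l2F, cvN1, pFx11, pFx01, pNK11, pNK01, pFL11, pFL01⟩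
noncomputable def ul1 : List Knk := [⟨9, 100, kNu1_0, kNu1_0g⟩]
noncomputable def ul2 : List Knk := [⟨1, 10, kNu2_0, kNu2_0g⟩]
noncomputable def ul3 : List Knk := []
noncomputable def qN : Pu := ⟨umo, us1, us2, us3, ul1, ul2, ul3, cFsDD1, uC11, uC01⟩

end Pool.Agent.Strip051.G.I5000_5470.Tab.DG
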