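import Pool.Agent.Strip051.G.I5000_5470.Fs

/-! # Certificates at the floor (generated) -/

set_option linter.all false

namespace Pool.Agent.Strip051.G.I5000_5470.Tab

open Pool.Agent.Strip051.PB

theorem cB_m00 : CertNd 0 536870912 536870912 50465866 (ftMono false 0 mT) [] (Node.sc eng ndB0q0) (Fn2.sc esg cd0q0) :=
  certNd (T := (ftMono false 0 mT)) (L := []) (P1 := 0) (W1 := 536870912) (P3 := 536870912) (W3 := 50465866) (n := (Node.sc eng ndB0q0)) (c := (Fn2.sc esg cd0q0))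
    ⟨T.a (T.l 0) (T.a (T.l 0) (T.l 0)),
      by decide +kernel⟩
theorem cB_m01 : CertNd 536870912 536870912 536870912 50465866 (ftMono false 1 mT) [] (Node.sc eng ndB0q1) (Fn2.sc esg cd0q1) :=
  certNd (T := (ftMono false 1 mT)) (L := []) (P1 := 536870912) (W1 := 536870912) (P3 := 536870912) (W3 := 50465866) (n := (Node.sc eng ndB0q1)) (c := (Fn2.sc esg cd0q1))
    ⟨T.a (T.a (T.l 0) (T.l 0)) (T.a (T.l 0) (T.l 0)),
      by decide +kernel⟩
theorem cB_g00 : CertGe 0 67108864 536870912 50465866 false [] (((3 : ℕ) : ℝ) / ((10 : ℕ) : ℝ)) 0 ((0 : ℕ) : ℝ)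
    (((2 : ℕ) : ℝ) / 2) mT (Node.sc eng ndB0q0) (Fn2.sc esg cd0q0) :=
  certGe (z := false) (L := []) (P1 := 0) (W1 := 67108864) (P3 := 536870912) (W3 := 50465866) (oa := 3) (ob := 10)
    (q := 0) (bb := 0) (hB := 2) (M := mT) (n := (Node.sc eng ndB0q0)) (c := (Fn2.sc esg cd0q0)) (sX := c1g_fs) (sK := (Sl2.sc eng kf0q0_fs))
    (sL := l0q0_fs) ⟨T.l 0,
      by decide +kernel⟩
theorem cB_w00a : CertNd 67108864 449360953 536870912 50465866 (ftWall false 0 mT 3 10) [] (Node.sc eng ndB0q0) (Fn2.sc esg cd0q0) :=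
  certNd (T := (ftWall false 0 mT 3 10)) (L := []) (P1 := 67108864) (W1 := 449360953) (P3 := 536870912) (W3 := 50465866) (n := (Node.sc eng ndB0q0)) (c := (Fn2.sc esg cd0q0))
    ⟨T.a (T.a (T.a (T.a (T.c (T.l 0) (T.l 0)) (T.l 0)) (T.c (T.l 0) (T.l 0))) (T.a (T.a (T.l 0) (T.l 0)) (T.a (T.c (T.l 0) (T.l 0)) (T.c (T.a (T.l 0) (T.l 0)) (T.a (T.l 0) (T.l 0)))))) (T.a (T.a (T.a (T.c (T.l 0) (T.l 0)) (T.c (T.l 0) (T.l 0))) (T.a (T.l 0) (T.l 0))) (T.a (T.a (T.c (T.l 0) (T.l 0)) (T.c (T.a (T.l 0) (T.c (T.l 0) (T.l 0))) (T.a (T.l 0) (T.l 0)))) (T.a (T.c (T.a (T.c (T.a (T.l 0) (T.l 0)) (T.c (T.a (T.l 0) (T.l 0)) (T.l 0))) (T.c (T.a (T.l 0) (T.l 0)) (T.a (T.c (T.l 0) (T.a (T.l 0) (T.l 0))) (T.c (T.l 0) (T.l 0))))) (T.a (T.c (T.l 0) (T.l 0)) (T.c (T.a (T.c (T.c (T.a (T.l 0) (T.l 0)) (T.l 0)) (T.l 0)) (T.c (T.a (T.l 0) (T.l 0)) (T.a (T.l 0) (T.c (T.l 0) (T.c (T.l 0) (T.l 0)))))) (T.a (T.l 0) (T.c (T.l 0)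 (T.l 0)))))) (T.c (T.a (T.c (T.a (T.c (T.l 0) (T.l 0)) (T.c (T.a (T.l 0) (T.c (T.l 0) (T.l 0))) (T.a (T.l 0) (T.c (T.l 0) (T.l 0))))) (T.a (T.a (T.l 0) (T.c (T.l 0) (T.l 0))) (T.c (T.a (T.l 0) (T.l 0)) (T.a (T.l 0) (T.l 0))))) (T.c (T.a (T.c (T.c (T.a (T.c (T.l 0) (T.l 0)) (T.a (T.l 0) (T.c (T.l 0) (T.l 0)))) (T.a (T.c (T.l 0) (T.l 0)) (T.a (T.l 0) (T.c (T.l 0) (T.l 0))))) (T.c (T.a (T.c (T.l 0) (T.l 0)) (T.a (T.l 0) (T.c (T.l 0) (T.l 0)))) (T.a (T.l 0) (T.a (T.l 0) (T.l 0))))) (T.c (T.c (T.a (T.c (T.a (T.a (T.l 0) (T.l 0)) (T.a (T.l 0) (T.l 0))) (T.a (T.c (T.l 0) (T.l 0)) (T.a (T.l 0) (T.l 0)))) (T.c (T.a (T.a (T.l 0) (T.l 0)) (T.a (T.l 0) (T.l 0))) (T.a (T.c (T.l 0) (T.l 0)) (T.c (T.l 0) (T.l 0))))) (T.a (T.c (T.a (T.c (T.l 0) (T.l 0)) (T.c (T.l 0) (T.l 0))) (T.a (T.l 0) (T.l 0))) (T.c (T.a (T.l 0) (T.l 0)) (T.a (T.l 0) (T.l 0))))) (T.c (T.a (T.c (T.a (T.l 0) (T.l 0)) (T.a (T.l 0) (T.l 0)))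 (T.c (T.a (T.l 0) (T.l 0)) (T.a (T.l 0) (T.l 0)))) (T.a (T.a (T.l 0) (T.l 0)) (T.a (T.l 0) (T.l 0)))))) (T.c (T.a (T.c (T.a (T.l 0) (T.c (T.l 0) (T.l 0))) (T.a (T.l 0) (T.c (T.l 0) (T.l 0)))) (T.c (T.a (T.c (T.l 0) (T.l 0)) (T.c (T.l 0) (T.l 0))) (T.a (T.c (T.l 0) (T.l 0)) (T.l 0)))) (T.a (T.c (T.a (T.l 0) (T.l 0)) (T.a (T.l 0) (T.l 0))) (T.c (T.a (T.l 0) (T.l 0)) (T.a (T.l 0) (T.l 0))))))) (T.a (T.c (T.a (T.c (T.c (T.l 0) (T.l 0)) (T.c (T.l 0) (T.l 0))) (T.c (T.a (T.l 0) (T.l 0)) (T.c (T.l 0) (T.l 0)))) (T.a (T.c (T.a (T.c (T.a (T.l 0) (T.l 0)) (T.l 0)) (T.c (T.l 0) (T.a (T.l 0) (T.l 0)))) (T.c (T.a (T.l 0) (T.c (T.l 0) (T.l 0))) (T.l 0))) (T.c (T.c (T.l 0) (T.l 0)) (T.a (T.c (T.l 0) (T.c (T.l 0) (T.l 0))) (T.l 0))))) (T.c (T.a (T.c (T.a (T.l 0) (T.l 0)) (T.a (T.l 0) (T.l 0))) (T.c (T.a (T.c (T.l 0) (T.l 0)) (T.l 0)) (T.c (T.l 0) (T.l 0)))) (T.a (T.c (T.c (T.l 0) (T.l 0)) (T.l 0)) (T.c (T.l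 0) (T.l 0))))))))),
      by decide +kernel⟩
theorem cB_w01b : CertNd 607737872 429496730 536870912 50465866 (ftWall false 1 mT 3 10) [] (Node.sc eng ndB0q1) (Fn2.sc esg cd0q1) :=
  certNd (T := (ftWall false 1 mT 3 10)) (L := []) (P1 := 607737872) (W1 := 429496730) (P3 := 536870912) (W3 := 50465866) (n := (Node.sc eng ndB0q1)) (c := (Fn2.sc esg cd0q1))
    ⟨T.a (T.a (T.a (T.a (T.c (T.c (T.l 0) (T.l 0)) (T.a (T.c (T.l 0) (T.c (T.l 0) (T.l 0))) (T.l 0))) (T.c (T.l 0) (T.l 0))) (T.l 0)) (T.a (T.l 0) (T.l 0))) (T.a (T.l 0) (T.l 0)),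
      by decide +kernel⟩
theorem cB_g01 : CertGe 1037234602 36507222 536870912 50465866 false [] (((3 : ℕ) : ℝ) / ((10 : ℕ) : ℝ)) 1 ((1 : ℕ) : ℝ)
    (((1 : ℕ) : ℝ) / 2) mT (Node.sc eng ndB0q1) (Fn2.sc esg cd0q1) :=
  certGe (z := false) (L := []) (P1 := 1037234602) (W1 := 36507222) (P3 := 536870912) (W3 := 50465866) (oa := 3) (ob := 10)
    (q := 1) (bb := 1) (hB := 1) (M := mT) (n := (Node.sc eng ndB0q1)) (c := (Fn2.sc esg cd0q1)) (sX := c1g_fs) (sK := (Sl2.sc eng kf0q1_fs))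
    (sL := l0q1_fs) ⟨T.l 0,
      by decide +kernel⟩
theorem cB_tl : CertTg 516469817 91268055 536870912 50465866 (ftTk true mT mZ dlg 10 3) [⟨6, 0⟩] :=
  certTg (T := (ftTk true mT mZ dlg 10 3)) (L := [⟨6, 0⟩]) (P1 := 516469817) (W1 := 91268055) (P3 := 536870912) (W3 := 50465866)
    ⟨T.a (T.a (T.c (T.l 0) (T.l 0)) (T.l 0)) (T.l 0),
      by decide +kernel⟩
theorem cB_th : CertTg 516469817 91268055 536870912 50465866 (ftTk false mT mZ dlg 3333 1000) [⟨5, 0⟩] :=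
  certTg (T := (ftTk false mT mZ dlg 3333 1000)) (L := [⟨5, 0⟩]) (P1 := 516469817) (W1 := 91268055) (P3 := 536870912) (W3 := 50465866)
    ⟨T.l 0,
      by decide +kernel⟩
theorem cB_m10 : CertNd 0 67108864 536870912 50465866 (ftMono false 0 mT) [] (Node.sc eng ndB1q0) (Fn2.sc esg cd1q0) :=
  certNd (T := (ftMono false 0 mT)) (L := []) (P1 := 0) (W1 := 67108864) (P3 := 536870912) (W3 := 50465866) (n := (Node.sc eng ndB1q0)) (c := (Fn2.sc esg cd1q0))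
    ⟨T.l 0,
      by decide +kernel⟩
theorem cB_g10 : CertGe 0 67108864 536870912 50465866 false [] (((3 : ℕ) : ℝ) / ((10 : ℕ) : ℝ)) 0 ((0 : ℕ) : ℝ)
    (((2 : ℕ) : ℝ) / 2) mT (Node.sc eng ndB1q0) (Fn2.sc esg cd1q0) :=
  certGe (z := false) (L := []) (P1 := 0) (W1 := 67108864) (P3 := 536870912) (W3 := 50465866) (oa := 3) (ob := 10)
    (q := 0) (bb := 0) (hB := 2) (M := mT) (n := (Node.sc eng ndB1q0)) (c := (Fn2.sc esg cd1q0)) (sX := cv1m_fs) (sK := (Sl2.sc eng kf1q0_fs))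
    (sL := l1q0_fs) ⟨T.l 0,
      by decide +kernel⟩
theorem cB_w10 : CertNd 67108864 469762048 536870912 50465866 (ftWall false 0 mT 3 10) [] (Node.sc eng ndB1q0) (Fn2.sc esg cd1q0) :=
  certNd (T := (ftWall false 0 mT 3 10)) (L := []) (P1 := 67108864) (W1 := 469762048) (P3 := 536870912) (W3 := 50465866) (n := (Node.sc eng ndB1q0)) (c := (Fn2.sc esg cd1q0))
    ⟨T.a (T.a (T.a (T.l 0) (T.l 0)) (T.a (T.l 0) (T.l 0))) (T.a (T.l 0) (T.l 0)),
      by decide +kernel⟩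
theorem cB_w11 : CertNd 536870912 536870912 536870912 50465866 (ftWall false 1 mT 3 10) [] (Node.sc eng ndB1q1) (Fn2.sc esg cd1q1) :=
  certNd (T := (ftWall false 1 mT 3 10)) (L := []) (P1 := 536870912) (W1 := 536870912) (P3 := 536870912) (W3 := 50465866) (n := (Node.sc eng ndB1q1)) (c := (Fn2.sc esg cd1q1))
    ⟨T.a (T.a (T.a (T.l 0) (T.l 0)) (T.l 0)) (T.l 0),
      by decide +kernel⟩
theorem cB_m20 : CertNd 0 67108864 536870912 50465866 (ftMono false 0 mT) [] (Node.sc eng ndB2q0) (Fn2.sc esg cd2q0) :=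
  certNd (T := (ftMono false 0 mT)) (L := []) (P1 := 0) (W1 := 67108864) (P3 := 536870912) (W3 := 50465866) (n := (Node.sc eng ndB2q0)) (c := (Fn2.sc esg cd2q0))
    ⟨T.l 0,
      by decide +kernel⟩
theorem cB_g20 : CertGe 0 67108864 536870912 50465866 false [] (((3 : ℕ) : ℝ) / ((10 : ℕ) : ℝ)) 0 ((0 : ℕ) : ℝ)
    (((2 : ℕ) : ℝ) / 2) mT (Node.sc eng ndB2q0) (Fn2.sc esg cd2q0) :=
  certGe (z := false) (L := []) (P1 := 0) (W1 := 67108864) (P3 := 536870912) (W3 := 50465866) (oa := 3) (ob := 10)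
    (q := 0) (bb := 0) (hB := 2) (M := mT) (n := (Node.sc eng ndB2q0)) (c := (Fn2.sc esg cd2q0)) (sX := cv2m_fs) (sK := (Sl2.sc eng kf2q0_fs))
    (sL := l2q0_fs) ⟨T.l 0,
      by decide +kernel⟩
theorem cB_w20 : CertNd 67108864 469762048 536870912 50465866 (ftWall false 0 mT 3 10) [] (Node.sc eng ndB2q0) (Fn2.sc esg cd2q0) :=
  certNd (T := (ftWall false 0 mT 3 10)) (L := []) (P1 := 67108864) (W1 := 469762048) (P3 := 536870912) (W3 := 50465866) (n := (Node.sc eng ndB2q0)) (c := (Fn2.sc esg cd2q0))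
    ⟨T.a (T.a (T.l 0) (T.l 0)) (T.a (T.l 0) (T.l 0)),
      by decide +kernel⟩
theorem cB_w21 : CertNd 536870912 536870912 536870912 50465866 (ftWall false 1 mT 3 10) [] (Node.sc eng ndB2q1) (Fn2.sc esg cd2q1) :=
  certNd (T := (ftWall false 1 mT 3 10)) (L := []) (P1 := 536870912) (W1 := 536870912) (P3 := 536870912) (W3 := 50465866) (n := (Node.sc eng ndB2q1)) (c := (Fn2.sc esg cd2q1))
    ⟨T.a (T.a (T.l 0) (T.l 0)) (T.l 0),
      by decide +kernel⟩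
theorem cB_m30 : CertNd 0 67108864 536870912 50465866 (ftMono false 0 mT) [] (Node.sc eng ndB3q0) (Fn2.sc esg cd3q0) :=
  certNd (T := (ftMono false 0 mT)) (L := []) (P1 := 0) (W1 := 67108864) (P3 := 536870912) (W3 := 50465866) (n := (Node.sc eng ndB3q0)) (c := (Fn2.sc esg cd3q0))
    ⟨T.l 0,
      by decide +kernel⟩
theorem cB_g30 : CertGe 0 67108864 536870912 50465866 false [] (((3 : ℕ) : ℝ) / ((10 : ℕ) : ℝ)) 0 ((0 : ℕ) : ℝ)
    (((2 : ℕ) : ℝ) / 2) mT (Node.sc eng ndB3q0) (Fn2.sc esg cd3q0) :=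
  certGe (z := false) (L := []) (P1 := 0) (W1 := 67108864) (P3 := 536870912) (W3 := 50465866) (oa := 3) (ob := 10)
    (q := 0) (bb := 0) (hB := 2) (M := mT) (n := (Node.sc eng ndB3q0)) (c := (Fn2.sc esg cd3q0)) (sX := cv3m_fs) (sK := (Sl2.sc eng kf3q0_fs))
    (sL := l3q0_fs) ⟨T.l 0,
      by decide +kernel⟩
theorem cB_w30 : CertNd 67108864 469762048 536870912 50465866 (ftWall false 0 mT 3 10) [] (Node.sc eng ndB3q0) (Fn2.sc esg cd3q0) :=
  certNd (T := (ftWall false 0 mT 3 10)) (L := []) (P1 := 67108864) (W1 := 469762048) (P3 := 536870912) (W3 := 50465866) (n := (Node.sc eng ndB3q0)) (c := (Fn2.sc esg cd3q0))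
    ⟨T.a (T.a (T.a (T.l 0) (T.l 0)) (T.l 0)) (T.a (T.l 0) (T.l 0)),
      by decide +kernel⟩
theorem cB_w31 : CertNd 536870912 536870912 536870912 50465866 (ftWall false 1 mT 3 10) [] (Node.sc eng ndB3q1) (Fn2.sc esg cd3q1) :=
  certNd (T := (ftWall false 1 mT 3 10)) (L := []) (P1 := 536870912) (W1 := 536870912) (P3 := 536870912) (W3 := 50465866) (n := (Node.sc eng ndB3q1)) (c := (Fn2.sc esg cd3q1))
    ⟨T.a (T.a (T.l 0) (T.l 0)) (T.l 0),
      by decide +kernel⟩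
theorem cB_f40 : CertNd 0 37195508 536870912 50465866 (ftFlat false 0 mT 3 10) [] (Node.sc eng ndB4q0) (Fn2.sc esg cd4q0) :=
  certNd (T := (ftFlat false 0 mT 3 10)) (L := []) (P1 := 0) (W1 := 37195508) (P3 := 536870912) (W3 := 50465866) (n := (Node.sc eng ndB4q0)) (c := (Fn2.sc esg cd4q0))
    ⟨T.l 0,
      by decide +kernel⟩
theorem cB_l40 : CertNd 0 37195508 536870912 50465866 (ftWall false 0 mT 3 10) [⟨3, 1181116007⟩] (Node.sc eng ndB4q0) (Fn2.sc esg cd4q0) :=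
  certNd (T := (ftWall false 0 mT 3 10)) (L := [⟨3, 1181116007⟩]) (P1 := 0) (W1 := 37195508) (P3 := 536870912) (W3 := 50465866) (n := (Node.sc eng ndB4q0)) (c := (Fn2.sc esg cd4q0))
    ⟨T.l 0,
      by decide +kernel⟩
theorem cB_w40 : CertNd 37195507 499675405 536870912 50465866 (ftWall false 0 mT 3 10) [] (Node.sc eng ndB4q0) (Fn2.sc esg cd4q0) :=
  certNd (T := (ftWall false 0 mT 3 10)) (L := []) (P1 := 37195507) (W1 := 499675405) (P3 := 536870912) (W3 := 50465866) (n := (Node.sc eng ndB4q0)) (c := (Fn2.sc esg cd4q0))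
    ⟨T.a (T.a (T.a (T.l 0) (T.l 0)) (T.l 0)) (T.a (T.l 0) (T.l 0)),
      by decide +kernel⟩
theorem cB_w41 : CertNd 536870912 536870912 536870912 50465866 (ftWall false 1 mT 3 10) [] (Node.sc eng ndB4q1) (Fn2.sc esg cd4q1) :=
  certNd (T := (ftWall false 1 mT 3 10)) (L := []) (P1 := 536870912) (W1 := 536870912) (P3 := 536870912) (W3 := 50465866) (n := (Node.sc eng ndB4q1)) (c := (Fn2.sc esg cd4q1))
    ⟨T.a (T.a (T.l 0) (T.l 0)) (T.l 0),
      by decide +kernel⟩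
theorem cB_w42 : CertNd 1073741824 166215235 536870912 50465866 (ftWall false 2 mT 3 10) [⟨4, 0⟩] (Node.sc eng ndB4q2) (Fn2.sc esg cd4q2) :=
  certNd (T := (ftWall false 2 mT 3 10)) (L := [⟨4, 0⟩]) (P1 := 1073741824) (W1 := 166215235) (P3 := 536870912) (W3 := 50465866) (n := (Node.sc eng ndB4q2)) (c := (Fn2.sc esg cd4q2))
    ⟨T.l 0,
      by decide +kernel⟩
theorem cB_f50 : CertNd 0 37195508 536870912 50465866 (ftFlat false 0 mT 3 10) [] (Node.sc eng ndB5q0) (Fn2.sc esg cd5q0) :=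
  certNd (T := (ftFlat false 0 mT 3 10)) (L := []) (P1 := 0) (W1 := 37195508) (P3 := 536870912) (W3 := 50465866) (n := (Node.sc eng ndB5q0)) (c := (Fn2.sc esg cd5q0))
    ⟨T.l 0,
      by decide +kernel⟩
theorem cB_l50 : CertNd 0 37195508 536870912 50465866 (ftWall false 0 mT 3 10) [⟨3, 1181116007⟩] (Node.sc eng ndB5q0) (Fn2.sc esg cd5q0) :=
  certNd (T := (ftWall false 0 mT 3 10)) (L := [⟨3, 1181116007⟩]) (P1 := 0) (W1 := 37195508) (P3 := 536870912) (W3 := 50465866) (n := (Node.sc eng ndB5q0)) (c := (Fn2.sc esg cd5q0))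
    ⟨T.l 1,
      by decide +kernel⟩
theorem cB_w50 : CertNd 37195507 499675405 536870912 50465866 (ftWall false 0 mT 3 10) [] (Node.sc eng ndB5q0) (Fn2.sc esg cd5q0) :=
  certNd (T := (ftWall false 0 mT 3 10)) (L := []) (P1 := 37195507) (W1 := 499675405) (P3 := 536870912) (W3 := 50465866) (n := (Node.sc eng ndB5q0)) (c := (Fn2.sc esg cd5q0))
    ⟨T.a (T.a (T.a (T.a (T.l 0) (T.l 0)) (T.l 0)) (T.l 0)) (T.l 0),
      by decide +kernel⟩
theorem cB_w51 : CertNd 536870912 536870912 536870912 50465866 (ftWall false 1 mT 3 10) [] (Node.sc eng ndB5q1) (Fn2.sc esg cd5q1) :=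
  certNd (T := (ftWall false 1 mT 3 10)) (L := []) (P1 := 536870912) (W1 := 536870912) (P3 := 536870912) (W3 := 50465866) (n := (Node.sc eng ndB5q1)) (c := (Fn2.sc esg cd5q1))
    ⟨T.a (T.l 0) (T.l 0),
      by decide +kernel⟩
theorem cB_w52 : CertNd 1073741824 166215235 536870912 50465866 (ftWall false 2 mT 3 10) [⟨4, 0⟩] (Node.sc eng ndB5q2) (Fn2.sc esg cd5q2) :=
  certNd (T := (ftWall false 2 mT 3 10)) (L := [⟨4, 0⟩]) (P1 := 1073741824) (W1 := 166215235) (P3 := 536870912) (W3 := 50465866) (n := (Node.sc eng ndB5q2)) (c := (Fn2.sc esg cd5q2))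
    ⟨T.l 0,
      by decide +kernel⟩
theorem cB_f60 : CertNd 0 37195508 536870912 50465866 (ftFlat false 0 mT 3 10) [] (Node.sc eng ndB6q0) (Fn2.sc esg cd6q0) :=
  certNd (T := (ftFlat false 0 mT 3 10)) (L := []) (P1 := 0) (W1 := 37195508) (P3 := 536870912) (W3 := 50465866) (n := (Node.sc eng ndB6q0)) (c := (Fn2.sc esg cd6q0))
    ⟨T.l 0,
      by decide +kernel⟩
theorem cB_l60 : CertNd 0 37195508 536870912 50465866 (ftWall false 0 mT 3 10) [⟨3, 1181116007⟩] (Node.sc eng ndB6q0) (Fn2.sc esg cd6q0) :=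
  certNd (T := (ftWall false 0 mT 3 10)) (L := [⟨3, 1181116007⟩]) (P1 := 0) (W1 := 37195508) (P3 := 536870912) (W3 := 50465866) (n := (Node.sc eng ndB6q0)) (c := (Fn2.sc esg cd6q0))
    ⟨T.l 1,
      by decide +kernel⟩
theorem cB_w60 : CertNd 37195507 499675405 536870912 50465866 (ftWall false 0 mT 3 10) [] (Node.sc eng ndB6q0) (Fn2.sc esg cd6q0) :=
  certNd (T := (ftWall false 0 mT 3 10)) (L := []) (P1 := 37195507) (W1 := 499675405) (P3 := 536870912) (W3 := 50465866) (n := (Node.sc eng ndB6q0)) (c := (Fn2.sc esg cd6q0))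
    ⟨T.a (T.a (T.l 0) (T.l 0)) (T.l 0),
      by decide +kernel⟩
theorem cB_w61 : CertNd 536870912 536870912 536870912 50465866 (ftWall false 1 mT 3 10) [] (Node.sc eng ndB6q1) (Fn2.sc esg cd6q1) :=
  certNd (T := (ftWall false 1 mT 3 10)) (L := []) (P1 := 536870912) (W1 := 536870912) (P3 := 536870912) (W3 := 50465866) (n := (Node.sc eng ndB6q1)) (c := (Fn2.sc esg cd6q1))
    ⟨T.a (T.l 0) (T.l 0),
      by decide +kernel⟩
theorem cB_w62 : CertNd 1073741824 166215235 536870912 50465866 (ftWall false 2 mT 3 10) [⟨4, 0⟩] (Node.sc eng ndB6q2) (Fn2.sc esg cd6q2) :=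
  certNd (T := (ftWall false 2 mT 3 10)) (L := [⟨4, 0⟩]) (P1 := 1073741824) (W1 := 166215235) (P3 := 536870912) (W3 := 50465866) (n := (Node.sc eng ndB6q2)) (c := (Fn2.sc esg cd6q2))
    ⟨T.l 0,
      by decide +kernel⟩
theorem cB_ll : CertSd 0 37195508 536870912 50465866 (ftWall false 0 mT 3 10) [] idF (cnF 1100 1000) pcE0 (Fn3.sc esg pd0) :=
  certSd (T := (ftWall false 0 mT 3 10)) (L := []) (P1 := 0) (W1 := 37195508) (P3 := 536870912) (W3 := 50465866) (Y := idF) (X := (cnF 1100 1000))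
    (pc := pcE0) (c := (Fn3.sc esg pd0)) ⟨T.c (T.l 0) (T.l 0),
      by decide +kernel⟩
theorem cB_st : CertSt 1073741824 27487789 536870912 50465866 false [] (((3 : ℕ) : ℝ) / ((10 : ℕ) : ℝ)) mT (Node.sc eng ndB3q2) (Fn2.sc esg cd3q2) (Node.sc eng ndB4q2) (Fn2.sc esg cd4q2) :=
  certSt (z := false) (L := []) (P1 := 1073741824) (W1 := 27487789) (P3 := 536870912) (W3 := 50465866) (oa := 3) (ob := 10)
    (M := mT) (n := (Node.sc eng ndB3q2)) (c := (Fn2.sc esg cd3q2)) (n' := (Node.sc eng ndB4q2)) (c' := (Fn2.sc esg cd4q2)) (sX := cv3p_fs) (sK := (Sl2.sc eng kf3q2_fs)) (sL := l3q2_fs)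
    ⟨T.l 0,
      by decide +kernel⟩
theorem cB_sm : CertSd 493347248 43523664 536870912 50465866 (ftMono false 2 mT) [] ygF xsF pcE2 (Fn3.sc esg pd2) :=
  certSd (T := (ftMono false 2 mT)) (L := []) (P1 := 493347248) (W1 := 43523664) (P3 := 536870912) (W3 := 50465866) (Y := ygF) (X := xsF)
    (pc := pcE2) (c := (Fn3.sc esg pd2)) ⟨T.l 0,
      by decide +kernel⟩
theorem cB_sw : CertSd 0 493347252 536870912 50465866 (ftWall false 2 mT 3 10) [] ygF xsF pcE2 (Fn3.sc esg pd2) :=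
  certSd (T := (ftWall false 2 mT 3 10)) (L := []) (P1 := 0) (W1 := 493347252) (P3 := 536870912) (W3 := 50465866) (Y := ygF) (X := xsF)
    (pc := pcE2) (c := (Fn3.sc esg pd2)) ⟨T.a (T.a (T.l 0) (T.l 0)) (T.a (T.l 0) (T.l 0)),
      by decide +kernel⟩
theorem cB_h0_01 : CertNd 991880209 81861615 536870912 50465866 (ftHigh false 1 mT 3 10 590 1100) [] (Node.sc eng ndB0q1) (Fn2.sc esg cd0q1) :=
  certNd (T := (ftHigh false 1 mT 3 10 590 1100)) (L := []) (P1 := 991880209) (W1 := 81861615) (P3 := 536870912) (W3 := 50465866) (n := (Node.sc eng ndB0q1)) (c := (Fn2.sc esg cd0q1))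
    ⟨T.a (T.l 0) (T.l 0),
      by decide +kernel⟩
theorem cB_h0_11 : CertNd 991880209 81861615 536870912 50465866 (ftHigh false 1 mT 3 10 590 1100) [] (Node.sc eng ndB1q1) (Fn2.sc esg cd1q1) :=
  certNd (T := (ftHigh false 1 mT 3 10 590 1100)) (L := []) (P1 := 991880209) (W1 := 81861615) (P3 := 536870912) (W3 := 50465866) (n := (Node.sc eng ndB1q1)) (c := (Fn2.sc esg cd1q1))
    ⟨T.l 0,
      by decide +kernel⟩
theorem cB_h0_21 : CertNd 991880209 81861615 536870912 50465866 (ftHigh false 1 mT 3 10 590 1100) [] (Node.sc eng ndB2q1) (Fn2.sc esg cd2q1) :=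
  certNd (T := (ftHigh false 1 mT 3 10 590 1100)) (L := []) (P1 := 991880209) (W1 := 81861615) (P3 := 536870912) (W3 := 50465866) (n := (Node.sc eng ndB2q1)) (c := (Fn2.sc esg cd2q1))
    ⟨T.l 0,
      by decide +kernel⟩
theorem cB_h0_31 : CertNd 991880209 81861615 536870912 50465866 (ftHigh false 1 mT 3 10 590 1100) [] (Node.sc eng ndB3q1) (Fn2.sc esg cd3q1) :=
  certNd (T := (ftHigh false 1 mT 3 10 590 1100)) (L := []) (P1 := 991880209) (W1 := 81861615) (P3 := 536870912) (W3 := 50465866) (n := (Node.sc eng ndB3q1)) (c := (Fn2.sc esg cd3q1))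
    ⟨T.l 0,
      by decide +kernel⟩
theorem cB_h0_41 : CertNd 991880209 81861615 536870912 50465866 (ftHigh false 1 mT 3 10 590 1100) [] (Node.sc eng ndB4q1) (Fn2.sc esg cd4q1) :=
  certNd (T := (ftHigh false 1 mT 3 10 590 1100)) (L := []) (P1 := 991880209) (W1 := 81861615) (P3 := 536870912) (W3 := 50465866) (n := (Node.sc eng ndB4q1)) (c := (Fn2.sc esg cd4q1))
    ⟨T.l 0,
      by decide +kernel⟩
theorem cB_h0_51 : CertNd 991880209 81861615 536870912 50465866 (ftHigh false 1 mT 3 10 590 1100) [] (Node.sc eng ndB5q1) (Fn2.sc esg cd5q1) :=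
  certNd (T := (ftHigh false 1 mT 3 10 590 1100)) (L := []) (P1 := 991880209) (W1 := 81861615) (P3 := 536870912) (W3 := 50465866) (n := (Node.sc eng ndB5q1)) (c := (Fn2.sc esg cd5q1))
    ⟨T.l 0,
      by decide +kernel⟩
theorem cB_h0_61 : CertNd 991880209 81861615 536870912 50465866 (ftHigh false 1 mT 3 10 590 1100) [] (Node.sc eng ndB6q1) (Fn2.sc esg cd6q1) :=
  certNd (T := (ftHigh false 1 mT 3 10 590 1100)) (L := []) (P1 := 991880209) (W1 := 81861615) (P3 := 536870912) (W3 := 50465866) (n := (Node.sc eng ndB6q1)) (c := (Fn2.sc esg cd6q1))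
    ⟨T.l 0,
      by decide +kernel⟩
theorem cB_h0_02 : CertNd 0 536870912 536870912 50465866 (ftHigh false 2 mT 3 10 590 1100) [⟨0, 991880209⟩, ⟨1, 1109665985⟩] (Node.sc eng ndB0q2) (Fn2.sc esg cd0q2) :=
  certNd (T := (ftHigh false 2 mT 3 10 590 1100)) (L := [⟨0, 991880209⟩, ⟨1, 1109665985⟩]) (P1 := 0) (W1 := 536870912) (P3 := 536870912) (W3 := 50465866) (n := (Node.sc eng ndB0q2)) (c := (Fn2.sc esg cd0q2))
    ⟨T.a (T.l 3) (T.a (T.l 3) (T.a (T.l 3) (T.l 0))),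
      by decide +kernel⟩
theorem cB_h0_12 : CertNd 1073741824 35924161 536870912 50465866 (ftHigh false 2 mT 3 10 590 1100) [] (Node.sc eng ndB1q2) (Fn2.sc esg cd1q2) :=
  certNd (T := (ftHigh false 2 mT 3 10 590 1100)) (L := []) (P1 := 1073741824) (W1 := 35924161) (P3 := 536870912) (W3 := 50465866) (n := (Node.sc eng ndB1q2)) (c := (Fn2.sc esg cd1q2))
    ⟨T.l 0,
      by decide +kernel⟩
theorem cB_h0_22 : CertNd 1073741824 35924161 536870912 50465866 (ftHigh false 2 mT 3 10 590 1100) [] (Node.sc eng ndB2q2) (Fn2.sc esg cd2q2) :=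
  certNd (T := (ftHigh false 2 mT 3 10 590 1100)) (L := []) (P1 := 1073741824) (W1 := 35924161) (P3 := 536870912) (W3 := 50465866) (n := (Node.sc eng ndB2q2)) (c := (Fn2.sc esg cd2q2))
    ⟨T.l 0,
      by decide +kernel⟩
theorem cB_h0_32 : CertNd 1073741824 35924161 536870912 50465866 (ftHigh false 2 mT 3 10 590 1100) [] (Node.sc eng ndB3q2) (Fn2.sc esg cd3q2) :=
  certNd (T := (ftHigh false 2 mT 3 10 590 1100)) (L := []) (P1 := 1073741824) (W1 := 35924161) (P3 := 536870912) (W3 := 50465866) (n := (Node.sc eng ndB3q2)) (c := (Fn2.sc esg cd3q2))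
    ⟨T.l 0,
      by decide +kernel⟩
theorem cB_h0_42 : CertNd 1073741824 35924161 536870912 50465866 (ftHigh false 2 mT 3 10 590 1100) [] (Node.sc eng ndB4q2) (Fn2.sc esg cd4q2) :=
  certNd (T := (ftHigh false 2 mT 3 10 590 1100)) (L := []) (P1 := 1073741824) (W1 := 35924161) (P3 := 536870912) (W3 := 50465866) (n := (Node.sc eng ndB4q2)) (c := (Fn2.sc esg cd4q2))
    ⟨T.l 0,
      by decide +kernel⟩
theorem cB_h0_52 : CertNd 1073741824 35924161 536870912 50465866 (ftHigh false 2 mT 3 10 590 1100) [] (Node.sc eng ndB5q2) (Fn2.sc esg cd5q2) :=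
  certNd (T := (ftHigh false 2 mT 3 10 590 1100)) (L := []) (P1 := 1073741824) (W1 := 35924161) (P3 := 536870912) (W3 := 50465866) (n := (Node.sc eng ndB5q2)) (c := (Fn2.sc esg cd5q2))
    ⟨T.l 0,
      by decide +kernel⟩
theorem cB_h0_62 : CertNd 1073741824 35924161 536870912 50465866 (ftHigh false 2 mT 3 10 590 1100) [] (Node.sc eng ndB6q2) (Fn2.sc esg cd6q2) :=
  certNd (T := (ftHigh false 2 mT 3 10 590 1100)) (L := []) (P1 := 1073741824) (W1 := 35924161) (P3 := 536870912) (W3 := 50465866) (n := (Node.sc eng ndB6q2)) (c := (Fn2.sc esg cd6q2))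
    ⟨T.l 0,
      by decide +kernel⟩
theorem cB_h1_01 : CertNd 1072470476 1271348 536870912 50465866 (ftHigh false 1 mT 3 10 1030 1100) [] (Node.sc eng ndB0q1) (Fn2.sc esg cd0q1) :=
  certNd (T := (ftHigh false 1 mT 3 10 1030 1100)) (L := []) (P1 := 1072470476) (W1 := 1271348) (P3 := 536870912) (W3 := 50465866) (n := (Node.sc eng ndB0q1)) (c := (Fn2.sc esg cd0q1))
    ⟨T.l 0,
      by decide +kernel⟩
theorem cB_h1_11 : CertNd 1072470476 1271348 536870912 50465866 (ftHigh false 1 mT 3 10 1030 1100) [] (Node.sc eng ndB1q1) (Fn2.sc esg cd1q1) :=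
  certNd (T := (ftHigh false 1 mT 3 10 1030 1100)) (L := []) (P1 := 1072470476) (W1 := 1271348) (P3 := 536870912) (W3 := 50465866) (n := (Node.sc eng ndB1q1)) (c := (Fn2.sc esg cd1q1))
    ⟨T.l 0,
      by decide +kernel⟩
theorem cB_h1_21 : CertNd 1072470476 1271348 536870912 50465866 (ftHigh false 1 mT 3 10 1030 1100) [] (Node.sc eng ndB2q1) (Fn2.sc esg cd2q1) :=
  certNd (T := (ftHigh false 1 mT 3 10 1030 1100)) (L := []) (P1 := 1072470476) (W1 := 1271348) (P3 := 536870912) (W3 := 50465866) (n := (Node.sc eng ndB2q1)) (c := (Fn2.sc esg cd2q1))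
    ⟨T.l 0,
      by decide +kernel⟩
theorem cB_h1_31 : CertNd 1072470476 1271348 536870912 50465866 (ftHigh false 1 mT 3 10 1030 1100) [] (Node.sc eng ndB3q1) (Fn2.sc esg cd3q1) :=
  certNd (T := (ftHigh false 1 mT 3 10 1030 1100)) (L := []) (P1 := 1072470476) (W1 := 1271348) (P3 := 536870912) (W3 := 50465866) (n := (Node.sc eng ndB3q1)) (c := (Fn2.sc esg cd3q1))
    ⟨T.l 0,
      by decide +kernel⟩
theorem cB_h1_41 : CertNd 1072470476 1271348 536870912 50465866 (ftHigh false 1 mT 3 10 1030 1100) [] (Node.sc eng ndB4q1) (Fn2.sc esg cd4q1) :=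
  certNd (T := (ftHigh false 1 mT 3 10 1030 1100)) (L := []) (P1 := 1072470476) (W1 := 1271348) (P3 := 536870912) (W3 := 50465866) (n := (Node.sc eng ndB4q1)) (c := (Fn2.sc esg cd4q1))
    ⟨T.l 0,
      by decide +kernel⟩
theorem cB_h1_51 : CertNd 1072470476 1271348 536870912 50465866 (ftHigh false 1 mT 3 10 1030 1100) [] (Node.sc eng ndB5q1) (Fn2.sc esg cd5q1) :=
  certNd (T := (ftHigh false 1 mT 3 10 1030 1100)) (L := []) (P1 := 1072470476) (W1 := 1271348) (P3 := 536870912) (W3 := 50465866) (n := (Node.sc eng ndB5q1)) (c := (Fn2.sc esg cd5q1))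
    ⟨T.l 0,
      by decide +kernel⟩
theorem cB_h1_61 : CertNd 1072470476 1271348 536870912 50465866 (ftHigh false 1 mT 3 10 1030 1100) [] (Node.sc eng ndB6q1) (Fn2.sc esg cd6q1) :=
  certNd (T := (ftHigh false 1 mT 3 10 1030 1100)) (L := []) (P1 := 1072470476) (W1 := 1271348) (P3 := 536870912) (W3 := 50465866) (n := (Node.sc eng ndB6q1)) (c := (Fn2.sc esg cd6q1))
    ⟨T.l 0,
      by decide +kernel⟩
theorem cB_h1_02 : CertNd 0 536870912 536870912 50465866 (ftHigh false 2 mT 3 10 1030 1100) [⟨0, 1072470476⟩, ⟨1, 2144940954⟩] (Node.sc eng ndB0q2) (Fn2.sc esg cd0q2) :=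
  certNd (T := (ftHigh false 2 mT 3 10 1030 1100)) (L := [⟨0, 1072470476⟩, ⟨1, 2144940954⟩]) (P1 := 0) (W1 := 536870912) (P3 := 536870912) (W3 := 50465866) (n := (Node.sc eng ndB0q2)) (c := (Fn2.sc esg cd0q2))
    ⟨T.a (T.a (T.l 0) (T.l 0)) (T.a (T.l 0) (T.l 0)),
      by decide +kernel⟩
theorem cB_h1_12 : CertNd 1073741824 536870912 536870912 50465866 (ftHigh false 2 mT 3 10 1030 1100) [] (Node.sc eng ndB1q2) (Fn2.sc esg cd1q2) :=
  certNd (T := (ftHigh false 2 mT 3 10 1030 1100)) (L := []) (P1 := 1073741824) (W1 := 536870912) (P3 := 536870912) (W3 := 50465866) (n := (Node.sc eng ndB1q2)) (c := (Fn2.sc esg cd1q2))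
    ⟨T.a (T.a (T.a (T.l 0) (T.l 0)) (T.a (T.a (T.a (T.l 0) (T.a (T.l 0) (T.a (T.l 0) (T.a (T.l 0) (T.l 0))))) (T.l 0)) (T.l 0))) (T.l 0),
      by decide +kernel⟩
theorem cB_h1_22 : CertNd 1073741824 536870912 536870912 50465866 (ftHigh false 2 mT 3 10 1030 1100) [] (Node.sc eng ndB2q2) (Fn2.sc esg cd2q2) :=
  certNd (T := (ftHigh false 2 mT 3 10 1030 1100)) (L := []) (P1 := 1073741824) (W1 := 536870912) (P3 := 536870912) (W3 := 50465866) (n := (Node.sc eng ndB2q2)) (c := (Fn2.sc esg cd2q2))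
    ⟨T.a (T.a (T.a (T.l 0) (T.l 0)) (T.a (T.a (T.a (T.l 0) (T.a (T.l 0) (T.a (T.l 0) (T.l 0)))) (T.l 0)) (T.l 0))) (T.l 0),
      by decide +kernel⟩
theorem cB_h1_32 : CertNd 1073741824 536870912 536870912 50465866 (ftHigh false 2 mT 3 10 1030 1100) [] (Node.sc eng ndB3q2) (Fn2.sc esg cd3q2) :=
  certNd (T := (ftHigh false 2 mT 3 10 1030 1100)) (L := []) (P1 := 1073741824) (W1 := 536870912) (P3 := 536870912) (W3 := 50465866) (n := (Node.sc eng ndB3q2)) (c := (Fn2.sc esg cd3q2))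
    ⟨T.a (T.a (T.l 0) (T.a (T.a (T.a (T.l 0) (T.c (T.l 0) (T.l 0))) (T.l 0)) (T.l 0))) (T.a (T.l 0) (T.l 0)),
      by decide +kernel⟩
theorem cB_h1_42 : CertNd 1073741824 536870912 536870912 50465866 (ftHigh false 2 mT 3 10 1030 1100) [] (Node.sc eng ndB4q2) (Fn2.sc esg cd4q2) :=
  certNd (T := (ftHigh false 2 mT 3 10 1030 1100)) (L := []) (P1 := 1073741824) (W1 := 536870912) (P3 := 536870912) (W3 := 50465866) (n := (Node.sc eng ndB4q2)) (c := (Fn2.sc esg cd4q2))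
    ⟨T.a (T.a (T.l 0) (T.l 0)) (T.a (T.l 0) (T.a (T.l 0) (T.l 0))),
      by decide +kernel⟩
theorem cB_h1_52 : CertNd 1073741824 536870912 536870912 50465866 (ftHigh false 2 mT 3 10 1030 1100) [] (Node.sc eng ndB5q2) (Fn2.sc esg cd5q2) :=
  certNd (T := (ftHigh false 2 mT 3 10 1030 1100)) (L := []) (P1 := 1073741824) (W1 := 536870912) (P3 := 536870912) (W3 := 50465866) (n := (Node.sc eng ndB5q2)) (c := (Fn2.sc esg cd5q2))
    ⟨T.a (T.a (T.l 0) (T.l 0)) (T.a (T.l 0) (T.l 0)),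
      by decide +kernel⟩
theorem cB_h1_62 : CertNd 1073741824 536870912 536870912 50465866 (ftHigh false 2 mT 3 10 1030 1100) [] (Node.sc eng ndB6q2) (Fn2.sc esg cd6q2) :=
  certNd (T := (ftHigh false 2 mT 3 10 1030 1100)) (L := []) (P1 := 1073741824) (W1 := 536870912) (P3 := 536870912) (W3 := 50465866) (n := (Node.sc eng ndB6q2)) (c := (Fn2.sc esg cd6q2))
    ⟨T.a (T.a (T.a (T.l 0) (T.l 0)) (T.l 0)) (T.a (T.l 0) (T.l 0)),
      by decide +kernel⟩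
theorem cB_h1_13 : CertNd 1610612736 534328218 536870912 50465866 (ftHigh false 3 mT 3 10 1030 1100) [] (Node.sc eng ndB1q3) (Fn2.sc esg cd1q3) :=
  certNd (T := (ftHigh false 3 mT 3 10 1030 1100)) (L := []) (P1 := 1610612736) (W1 := 534328218) (P3 := 536870912) (W3 := 50465866) (n := (Node.sc eng ndB1q3)) (c := (Fn2.sc esg cd1q3))
    ⟨T.a (T.l 0) (T.l 0),
      by decide +kernel⟩
theorem cB_h1_23 : CertNd 1610612736 534328218 536870912 50465866 (ftHigh false 3 mT 3 10 1030 1100) [] (Node.sc eng ndB2q3) (Fn2.sc esg cd2q3) :=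
  certNd (T := (ftHigh false 3 mT 3 10 1030 1100)) (L := []) (P1 := 1610612736) (W1 := 534328218) (P3 := 536870912) (W3 := 50465866) (n := (Node.sc eng ndB2q3)) (c := (Fn2.sc esg cd2q3))
    ⟨T.a (T.l 0) (T.l 0),
      by decide +kernel⟩
theorem cB_h1_33 : CertNd 1610612736 534328218 536870912 50465866 (ftHigh false 3 mT 3 10 1030 1100) [] (Node.sc eng ndB3q3) (Fn2.sc esg cd3q3) :=
  certNd (T := (ftHigh false 3 mT 3 10 1030 1100)) (L := []) (P1 := 1610612736) (W1 := 534328218) (P3 := 536870912) (W3 := 50465866) (n := (Node.sc eng ndB3q3)) (c := (Fn2.sc esg cd3q3))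
    ⟨T.a (T.l 0) (T.l 0),
      by decide +kernel⟩
theorem cB_h1_43 : CertNd 0 1230186008 536870912 50465866 (ftHigh false 3 mT 3 10 1030 1100) [⟨0, 1072470476⟩, ⟨1, 2144940954⟩] (Node.sc eng ndB4q3) (Fn2.sc esg cd4q3) :=
  certNd (T := (ftHigh false 3 mT 3 10 1030 1100)) (L := [⟨0, 1072470476⟩, ⟨1, 2144940954⟩]) (P1 := 0) (W1 := 1230186008) (P3 := 536870912) (W3 := 50465866) (n := (Node.sc eng ndB4q3)) (c := (Fn2.sc esg cd4q3))
    ⟨T.a (T.a (T.l 0) (T.l 0)) (T.a (T.l 0) (T.a (T.l 0) (T.a (T.l 0) (T.l 0)))),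
      by decide +kernel⟩
theorem cB_h1_53 : CertNd 0 1230186008 536870912 50465866 (ftHigh false 3 mT 3 10 1030 1100) [⟨0, 1072470476⟩, ⟨1, 2144940954⟩] (Node.sc eng ndB5q3) (Fn2.sc esg cd5q3) :=
  certNd (T := (ftHigh false 3 mT 3 10 1030 1100)) (L := [⟨0, 1072470476⟩, ⟨1, 2144940954⟩]) (P1 := 0) (W1 := 1230186008) (P3 := 536870912) (W3 := 50465866) (n := (Node.sc eng ndB5q3)) (c := (Fn2.sc esg cd5q3))
    ⟨T.a (T.a (T.l 0) (T.l 0)) (T.a (T.l 0) (T.a (T.l 0) (T.l 0))),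
      by decide +kernel⟩
theorem cB_h1_63 : CertNd 0 1230186008 536870912 50465866 (ftHigh false 3 mT 3 10 1030 1100) [⟨0, 1072470476⟩, ⟨1, 2144940954⟩] (Node.sc eng ndB6q3) (Fn2.sc esg cd6q3) :=
  certNd (T := (ftHigh false 3 mT 3 10 1030 1100)) (L := [⟨0, 1072470476⟩, ⟨1, 2144940954⟩]) (P1 := 0) (W1 := 1230186008) (P3 := 536870912) (W3 := 50465866) (n := (Node.sc eng ndB6q3)) (c := (Fn2.sc esg cd6q3))
    ⟨T.a (T.a (T.l 0) (T.l 0)) (T.a (T.l 0) (T.a (T.l 0) (T.l 0))),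
      by decide +kernel⟩
theorem cB_r0_02 : CertNd 0 536870912 536870912 50465866 (ftFar false 2 mT 3 10 1240 1100) [⟨0, 1091068230⟩, ⟨1, 1227451760⟩, ⟨2, 1181116006⟩] (Node.sc eng ndB0q2) (Fn2.sc esg cd0q2) :=
  certNd (T := (ftFar false 2 mT 3 10 1240 1100)) (L := [⟨0, 1091068230⟩, ⟨1, 1227451760⟩, ⟨2, 1181116006⟩]) (P1 := 0) (W1 := 536870912) (P3 := 536870912) (W3 := 50465866) (n := (Node.sc eng ndB0q2)) (c := (Fn2.sc esg cd0q2))
    ⟨T.l 5,
      by decide +kernel⟩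
theorem cB_r0_12 : CertNd 1091068230 136383530 536870912 50465866 (ftFar false 2 mT 3 10 1240 1100) [⟨2, 1181116006⟩] (Node.sc eng ndB1q2) (Fn2.sc esg cd1q2) :=
  certNd (T := (ftFar false 2 mT 3 10 1240 1100)) (L := [⟨2, 1181116006⟩]) (P1 := 1091068230) (W1 := 136383530) (P3 := 536870912) (W3 := 50465866) (n := (Node.sc eng ndB1q2)) (c := (Fn2.sc esg cd1q2))
    ⟨T.l 1,
      by decide +kernel⟩
theorem cB_r0_22 : CertNd 1091068230 136383530 536870912 50465866 (ftFar false 2 mT 3 10 1240 1100) [⟨2, 1181116006⟩] (Node.sc eng ndB2q2) (Fn2.sc esg cd2q2) :=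
  certNd (T := (ftFar false 2 mT 3 10 1240 1100)) (L := [⟨2, 1181116006⟩]) (P1 := 1091068230) (W1 := 136383530) (P3 := 536870912) (W3 := 50465866) (n := (Node.sc eng ndB2q2)) (c := (Fn2.sc esg cd2q2))
    ⟨T.l 0,
      by decide +kernel⟩
theorem cB_r0_32 : CertNd 1091068230 136383530 536870912 50465866 (ftFar false 2 mT 3 10 1240 1100) [⟨2, 1181116006⟩] (Node.sc eng ndB3q2) (Fn2.sc esg cd3q2) :=
  certNd (T := (ftFar false 2 mT 3 10 1240 1100)) (L := [⟨2, 1181116006⟩]) (P1 := 1091068230) (W1 := 136383530) (P3 := 536870912) (W3 := 50465866) (n := (Node.sc eng ndB3q2)) (c := (Fn2.sc esg cd3q2))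
    ⟨T.l 0,
      by decide +kernel⟩
theorem cB_r0_42 : CertNd 1091068230 136383530 536870912 50465866 (ftFar false 2 mT 3 10 1240 1100) [⟨2, 1181116006⟩] (Node.sc eng ndB4q2) (Fn2.sc esg cd4q2) :=
  certNd (T := (ftFar false 2 mT 3 10 1240 1100)) (L := [⟨2, 1181116006⟩]) (P1 := 1091068230) (W1 := 136383530) (P3 := 536870912) (W3 := 50465866) (n := (Node.sc eng ndB4q2)) (c := (Fn2.sc esg cd4q2))
    ⟨T.l 0,
      by decide +kernel⟩
theorem cB_r0_52 : CertNd 1091068230 136383530 536870912 50465866 (ftFar false 2 mT 3 10 1240 1100) [⟨2, 1181116006⟩] (Node.sc eng ndB5q2) (Fn2.sc esg cd5q2) :=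
  certNd (T := (ftFar false 2 mT 3 10 1240 1100)) (L := [⟨2, 1181116006⟩]) (P1 := 1091068230) (W1 := 136383530) (P3 := 536870912) (W3 := 50465866) (n := (Node.sc eng ndB5q2)) (c := (Fn2.sc esg cd5q2))
    ⟨T.l 0,
      by decide +kernel⟩
theorem cB_r0_62 : CertNd 1091068230 136383530 536870912 50465866 (ftFar false 2 mT 3 10 1240 1100) [⟨2, 1181116006⟩] (Node.sc eng ndB6q2) (Fn2.sc esg cd6q2) :=
  certNd (T := (ftFar false 2 mT 3 10 1240 1100)) (L := [⟨2, 1181116006⟩]) (P1 := 1091068230) (W1 := 136383530) (P3 := 536870912) (W3 := 50465866) (n := (Node.sc eng ndB6q2)) (c := (Fn2.sc esg cd6q2))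
    ⟨T.a (T.l 0) (T.l 0),
      by decide +kernel⟩
theorem cB_n0_02z : CertNd 0 10737418 536870912 50465866 (ftNear false 2 mT 3 10 1240) [⟨0, 1091068230⟩, ⟨1, 1227451760⟩] ⟨ndB0q2.Y, onF, Fn2.sc eng kq02, lq02⟩ (Fn2.sc esg cq02) :=
  certNd (T := (ftNear false 2 mT 3 10 1240)) (L := [⟨0, 1091068230⟩, ⟨1, 1227451760⟩]) (P1 := 0) (W1 := 10737418) (P3 := 536870912) (W3 := 50465866) (n := ⟨ndB0q2.Y, onF, Fn2.sc eng kq02, lq02⟩) (c := (Fn2.sc esg cq02))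
    ⟨T.l 0,
      by decide +kernel⟩
theorem cB_n0_02 : CertNd 0 536870912 536870912 50465866 (ftNear false 2 mT 3 10 1240) [⟨0, 1091068230⟩, ⟨1, 1227451760⟩, ⟨2, 10737418⟩, ⟨3, 429496730⟩] (Node.sc eng ndB0q2) (Fn2.sc esg cd0q2) :=
  certNd (T := (ftNear false 2 mT 3 10 1240)) (L := [⟨0, 1091068230⟩, ⟨1, 1227451760⟩, ⟨2, 10737418⟩, ⟨3, 429496730⟩]) (P1 := 0) (W1 := 536870912) (P3 := 536870912) (W3 := 50465866) (n := (Node.sc eng ndB0q2)) (c := (Fn2.sc esg cd0q2))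
    ⟨T.a (T.a (T.l 3) (T.a (T.l 0) (T.l 0))) (T.a (T.a (T.l 0) (T.l 0)) (T.l 0)),
      by decide +kernel⟩
theorem cB_n0_12 : CertNd 1091068230 136383530 536870912 50465866 (ftNear false 2 mT 3 10 1240) [⟨3, 429496730⟩] (Node.sc eng ndB1q2) (Fn2.sc esg cd1q2) :=
  certNd (T := (ftNear false 2 mT 3 10 1240)) (L := [⟨3, 429496730⟩]) (P1 := 1091068230) (W1 := 136383530) (P3 := 536870912) (W3 := 50465866) (n := (Node.sc eng ndB1q2)) (c := (Fn2.sc esg cd1q2))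
    ⟨T.a (T.l 0) (T.a (T.l 0) (T.a (T.l 0) (T.a (T.l 0) (T.l 0)))),
      by decide +kernel⟩
theorem cB_n0_22 : CertNd 1091068230 136383530 536870912 50465866 (ftNear false 2 mT 3 10 1240) [⟨3, 429496730⟩] (Node.sc eng ndB2q2) (Fn2.sc esg cd2q2) :=
  certNd (T := (ftNear false 2 mT 3 10 1240)) (L := [⟨3, 429496730⟩]) (P1 := 1091068230) (W1 := 136383530) (P3 := 536870912) (W3 := 50465866) (n := (Node.sc eng ndB2q2)) (c := (Fn2.sc esg cd2q2))
    ⟨T.a (T.l 0) (T.a (T.l 0) (T.c (T.l 0) (T.l 0))),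
      by decide +kernel⟩
theorem cB_n0_32 : CertNd 1091068230 136383530 536870912 50465866 (ftNear false 2 mT 3 10 1240) [⟨3, 429496730⟩] (Node.sc eng ndB3q2) (Fn2.sc esg cd3q2) :=
  certNd (T := (ftNear false 2 mT 3 10 1240)) (L := [⟨3, 429496730⟩]) (P1 := 1091068230) (W1 := 136383530) (P3 := 536870912) (W3 := 50465866) (n := (Node.sc eng ndB3q2)) (c := (Fn2.sc esg cd3q2))
    ⟨T.l 1,
      by decide +kernel⟩
theorem cB_n0_42 : CertNd 1091068230 136383530 536870912 50465866 (ftNear false 2 mT 3 10 1240) [⟨3, 429496730⟩] (Node.sc eng ndB4q2) (Fn2.sc esg cd4q2) :=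
  certNd (T := (ftNear false 2 mT 3 10 1240)) (L := [⟨3, 429496730⟩]) (P1 := 1091068230) (W1 := 136383530) (P3 := 536870912) (W3 := 50465866) (n := (Node.sc eng ndB4q2)) (c := (Fn2.sc esg cd4q2))
    ⟨T.l 0,
      by decide +kernel⟩
theorem cB_n0_52 : CertNd 1091068230 136383530 536870912 50465866 (ftNear false 2 mT 3 10 1240) [⟨3, 429496730⟩] (Node.sc eng ndB5q2) (Fn2.sc esg cd5q2) :=
  certNd (T := (ftNear false 2 mT 3 10 1240)) (L := [⟨3, 429496730⟩]) (P1 := 1091068230) (W1 := 136383530) (P3 := 536870912) (W3 := 50465866) (n := (Node.sc eng ndB5q2)) (c := (Fn2.sc esg cd5q2))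
    ⟨T.l 0,
      by decide +kernel⟩
theorem cB_n0_62 : CertNd 1091068230 136383530 536870912 50465866 (ftNear false 2 mT 3 10 1240) [⟨3, 429496730⟩] (Node.sc eng ndB6q2) (Fn2.sc esg cd6q2) :=
  certNd (T := (ftNear false 2 mT 3 10 1240)) (L := [⟨3, 429496730⟩]) (P1 := 1091068230) (W1 := 136383530) (P3 := 536870912) (W3 := 50465866) (n := (Node.sc eng ndB6q2)) (c := (Fn2.sc esg cd6q2))
    ⟨T.l 0,
      by decide +kernel⟩
theorem cB_R0_2 : CertSd 1091068230 136383530 536870912 50465866 (ftFar false 2 mT 3 10 1240 1100) [] idF (cnF 1100 1000) pcE2 (Fn3.sc esg pd2) :=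
  certSd (T := (ftFar false 2 mT 3 10 1240 1100)) (L := []) (P1 := 1091068230) (W1 := 136383530) (P3 := 536870912) (W3 := 50465866) (Y := idF) (X := (cnF 1100 1000))
    (pc := pcE2) (c := (Fn3.sc esg pd2)) ⟨T.l 0,
      by decide +kernel⟩
theorem cB_N0_2 : CertSd 1136340972 91110788 536870912 50465866 (ftNear false 2 mT 3 10 1240) [] idF (cnF 400 1000) pcE2 (Fn3.sc esg pd2) :=
  certSd (T := (ftNear false 2 mT 3 10 1240)) (L := []) (P1 := 1136340972) (W1 := 91110788) (P3 := 536870912) (W3 := 50465866) (Y := idF) (X := (cnF 400 1000))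
    (pc := pcE2) (c := (Fn3.sc esg pd2)) ⟨T.a (T.a (T.l 0) (T.l 0)) (T.a (T.l 0) (T.l 0)),
      by decide +kernel⟩
theorem cB_r1_02 : CertNd 0 536870912 536870912 50465866 (ftFar false 2 mT 3 10 1330 1100) [⟨0, 1190256251⟩, ⟨1, 1450624807⟩, ⟨2, 1181116006⟩] (Node.sc eng ndB0q2) (Fn2.sc esg cd0q2) :=
  certNd (T := (ftFar false 2 mT 3 10 1330 1100)) (L := [⟨0, 1190256251⟩, ⟨1, 1450624807⟩, ⟨2, 1181116006⟩]) (P1 := 0) (W1 := 536870912) (P3 := 536870912) (W3 := 50465866) (n := (Node.sc eng ndB0q2)) (c := (Fn2.sc esg cd0q2))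
    ⟨T.l 5,
      by decide +kernel⟩
theorem cB_r1_12 : CertNd 1190256251 260368556 536870912 50465866 (ftFar false 2 mT 3 10 1330 1100) [⟨2, 1181116006⟩] (Node.sc eng ndB1q2) (Fn2.sc esg cd1q2) :=
  certNd (T := (ftFar false 2 mT 3 10 1330 1100)) (L := [⟨2, 1181116006⟩]) (P1 := 1190256251) (W1 := 260368556) (P3 := 536870912) (W3 := 50465866) (n := (Node.sc eng ndB1q2)) (c := (Fn2.sc esg cd1q2))
    ⟨T.l 1,
      by decide +kernel⟩
theorem cB_r1_22 : CertNd 1190256251 260368556 536870912 50465866 (ftFar false 2 mT 3 10 1330 1100) [⟨2, 1181116006⟩] (Node.sc eng ndB2q2) (Fn2.sc esg cd2q2) :=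
  certNd (T := (ftFar false 2 mT 3 10 1330 1100)) (L := [⟨2, 1181116006⟩]) (P1 := 1190256251) (W1 := 260368556) (P3 := 536870912) (W3 := 50465866) (n := (Node.sc eng ndB2q2)) (c := (Fn2.sc esg cd2q2))
    ⟨T.l 1,
      by decide +kernel⟩
theorem cB_r1_32 : CertNd 1190256251 260368556 536870912 50465866 (ftFar false 2 mT 3 10 1330 1100) [⟨2, 1181116006⟩] (Node.sc eng ndB3q2) (Fn2.sc esg cd3q2) :=
  certNd (T := (ftFar false 2 mT 3 10 1330 1100)) (L := [⟨2, 1181116006⟩]) (P1 := 1190256251) (W1 := 260368556) (P3 := 536870912) (W3 := 50465866) (n := (Node.sc eng ndB3q2)) (c := (Fn2.sc esg cd3q2))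
    ⟨T.l 0,
      by decide +kernel⟩
theorem cB_r1_42 : CertNd 1190256251 260368556 536870912 50465866 (ftFar false 2 mT 3 10 1330 1100) [⟨2, 1181116006⟩] (Node.sc eng ndB4q2) (Fn2.sc esg cd4q2) :=
  certNd (T := (ftFar false 2 mT 3 10 1330 1100)) (L := [⟨2, 1181116006⟩]) (P1 := 1190256251) (W1 := 260368556) (P3 := 536870912) (W3 := 50465866) (n := (Node.sc eng ndB4q2)) (c := (Fn2.sc esg cd4q2))
    ⟨T.l 0,
      by decide +kernel⟩
theorem cB_r1_52 : CertNd 1190256251 260368556 536870912 50465866 (ftFar false 2 mT 3 10 1330 1100) [⟨2, 1181116006⟩] (Node.sc eng ndB5q2) (Fn2.sc esg cd5q2) :=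
  certNd (T := (ftFar false 2 mT 3 10 1330 1100)) (L := [⟨2, 1181116006⟩]) (P1 := 1190256251) (W1 := 260368556) (P3 := 536870912) (W3 := 50465866) (n := (Node.sc eng ndB5q2)) (c := (Fn2.sc esg cd5q2))
    ⟨T.l 0,
      by decide +kernel⟩
theorem cB_r1_62 : CertNd 1190256251 260368556 536870912 50465866 (ftFar false 2 mT 3 10 1330 1100) [⟨2, 1181116006⟩] (Node.sc eng ndB6q2) (Fn2.sc esg cd6q2) :=
  certNd (T := (ftFar false 2 mT 3 10 1330 1100)) (L := [⟨2, 1181116006⟩]) (P1 := 1190256251) (W1 := 260368556) (P3 := 536870912) (W3 := 50465866) (n := (Node.sc eng ndB6q2)) (c := (Fn2.sc esg cd6q2))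
    ⟨T.a (T.a (T.c (T.l 0) (T.l 0)) (T.l 0)) (T.l 0),
      by decide +kernel⟩
theorem cB_n1_02z : CertNd 0 10737418 536870912 50465866 (ftNear false 2 mT 3 10 1330) [⟨0, 1190256251⟩, ⟨1, 1450624807⟩] ⟨ndB0q2.Y, onF, Fn2.sc eng kq02, lq02⟩ (Fn2.sc esg cq02) :=
  certNd (T := (ftNear false 2 mT 3 10 1330)) (L := [⟨0, 1190256251⟩, ⟨1, 1450624807⟩]) (P1 := 0) (W1 := 10737418) (P3 := 536870912) (W3 := 50465866) (n := ⟨ndB0q2.Y, onF, Fn2.sc eng kq02, lq02⟩) (c := (Fn2.sc esg cq02))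
    ⟨T.l 0,
      by decide +kernel⟩
theorem cB_n1_02 : CertNd 0 536870912 536870912 50465866 (ftNear false 2 mT 3 10 1330) [⟨0, 1190256251⟩, ⟨1, 1450624807⟩, ⟨2, 10737418⟩, ⟨3, 429496730⟩] (Node.sc eng ndB0q2) (Fn2.sc esg cd0q2) :=
  certNd (T := (ftNear false 2 mT 3 10 1330)) (L := [⟨0, 1190256251⟩, ⟨1, 1450624807⟩, ⟨2, 10737418⟩, ⟨3, 429496730⟩]) (P1 := 0) (W1 := 536870912) (P3 := 536870912) (W3 := 50465866) (n := (Node.sc eng ndB0q2)) (c := (Fn2.sc esg cd0q2))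
    ⟨T.a (T.a (T.a (T.a (T.a (T.a (T.l 5) (T.l 0)) (T.l 0)) (T.l 0)) (T.l 0)) (T.l 0)) (T.a (T.l 0) (T.l 0)),
      by decide +kernel⟩
theorem cB_n1_12 : CertNd 1190256251 260368556 536870912 50465866 (ftNear false 2 mT 3 10 1330) [⟨3, 429496730⟩] (Node.sc eng ndB1q2) (Fn2.sc esg cd1q2) :=
  certNd (T := (ftNear false 2 mT 3 10 1330)) (L := [⟨3, 429496730⟩]) (P1 := 1190256251) (W1 := 260368556) (P3 := 536870912) (W3 := 50465866) (n := (Node.sc eng ndB1q2)) (c := (Fn2.sc esg cd1q2))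
    ⟨T.a (T.a (T.a (T.l 0) (T.a (T.a (T.l 0) (T.a (T.l 0) (T.a (T.l 0) (T.l 0)))) (T.a (T.a (T.a (T.a (T.a (T.l 0) (T.a (T.l 0) (T.l 0))) (T.l 0)) (T.l 0)) (T.l 0)) (T.l 0)))) (T.l 0)) (T.l 0),
      by decide +kernel⟩
theorem cB_n1_22 : CertNd 1190256251 260368556 536870912 50465866 (ftNear false 2 mT 3 10 1330) [⟨3, 429496730⟩] (Node.sc eng ndB2q2) (Fn2.sc esg cd2q2) :=
  certNd (T := (ftNear false 2 mT 3 10 1330)) (L := [⟨3, 429496730⟩]) (P1 := 1190256251) (W1 := 260368556) (P3 := 536870912) (W3 := 50465866) (n := (Node.sc eng ndB2q2)) (c := (Fn2.sc esg cd2q2))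
    ⟨T.a (T.a (T.a (T.l 0) (T.a (T.a (T.l 0) (T.l 0)) (T.a (T.a (T.a (T.a (T.a (T.l 0) (T.l 0)) (T.l 0)) (T.l 0)) (T.l 0)) (T.l 0)))) (T.l 0)) (T.l 0),
      by decide +kernel⟩
theorem cB_n1_32 : CertNd 1190256251 260368556 536870912 50465866 (ftNear false 2 mT 3 10 1330) [⟨3, 429496730⟩] (Node.sc eng ndB3q2) (Fn2.sc esg cd3q2) :=
  certNd (T := (ftNear false 2 mT 3 10 1330)) (L := [⟨3, 429496730⟩]) (P1 := 1190256251) (W1 := 260368556) (P3 := 536870912) (W3 := 50465866) (n := (Node.sc eng ndB3q2)) (c := (Fn2.sc esg cd3q2))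
    ⟨T.a (T.a (T.a (T.l 0) (T.l 0)) (T.l 0)) (T.l 0),
      by decide +kernel⟩
theorem cB_n1_42 : CertNd 1190256251 260368556 536870912 50465866 (ftNear false 2 mT 3 10 1330) [⟨3, 429496730⟩] (Node.sc eng ndB4q2) (Fn2.sc esg cd4q2) :=
  certNd (T := (ftNear false 2 mT 3 10 1330)) (L := [⟨3, 429496730⟩]) (P1 := 1190256251) (W1 := 260368556) (P3 := 536870912) (W3 := 50465866) (n := (Node.sc eng ndB4q2)) (c := (Fn2.sc esg cd4q2))
    ⟨T.l 0,
      by decide +kernel⟩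
theorem cB_n1_52 : CertNd 1190256251 260368556 536870912 50465866 (ftNear false 2 mT 3 10 1330) [⟨3, 429496730⟩] (Node.sc eng ndB5q2) (Fn2.sc esg cd5q2) :=
  certNd (T := (ftNear false 2 mT 3 10 1330)) (L := [⟨3, 429496730⟩]) (P1 := 1190256251) (W1 := 260368556) (P3 := 536870912) (W3 := 50465866) (n := (Node.sc eng ndB5q2)) (c := (Fn2.sc esg cd5q2))
    ⟨T.l 0,
      by decide +kernel⟩
theorem cB_n1_62 : CertNd 1190256251 260368556 536870912 50465866 (ftNear false 2 mT 3 10 1330) [⟨3, 429496730⟩] (Node.sc eng ndB6q2) (Fn2.sc esg cd6q2) :=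
  certNd (T := (ftNear false 2 mT 3 10 1330)) (L := [⟨3, 429496730⟩]) (P1 := 1190256251) (W1 := 260368556) (P3 := 536870912) (W3 := 50465866) (n := (Node.sc eng ndB6q2)) (c := (Fn2.sc esg cd6q2))
    ⟨T.l 0,
      by decide +kernel⟩
theorem cB_R1_2 : CertSd 1190256251 260368556 536870912 50465866 (ftFar false 2 mT 3 10 1330 1100) [] idF (cnF 1100 1000) pcE2 (Fn3.sc esg pd2) :=
  certSd (T := (ftFar false 2 mT 3 10 1330 1100)) (L := []) (P1 := 1190256251) (W1 := 260368556) (P3 := 536870912) (W3 := 50465866) (Y := idF) (X := (cnF 1100 1000))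
    (pc := pcE2) (c := (Fn3.sc esg pd2)) ⟨T.a (T.l 0) (T.l 0),
      by decide +kernel⟩
theorem cB_N1_2 : CertSd 1190256251 260368556 536870912 50465866 (ftNear false 2 mT 3 10 1330) [] idF (cnF 400 1000) pcE2 (Fn3.sc esg pd2) :=
  certSd (T := (ftNear false 2 mT 3 10 1330)) (L := []) (P1 := 1190256251) (W1 := 260368556) (P3 := 536870912) (W3 := 50465866) (Y := idF) (X := (cnF 400 1000))
    (pc := pcE2) (c := (Fn3.sc esg pd2)) ⟨T.a (T.a (T.a (T.l 0) (T.a (T.l 0) (T.l 0))) (T.l 0)) (T.l 0),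
      by decide +kernel⟩
theorem cB_r2_02 : CertNd 0 536870912 536870912 50465866 (ftFar false 2 mT 3 10 1710 1100) [⟨0, 1413429298⟩, ⟨1, 1698594860⟩, ⟨2, 1181116006⟩] (Node.sc eng ndB0q2) (Fn2.sc esg cd0q2) :=
  certNd (T := (ftFar false 2 mT 3 10 1710 1100)) (L := [⟨0, 1413429298⟩, ⟨1, 1698594860⟩, ⟨2, 1181116006⟩]) (P1 := 0) (W1 := 536870912) (P3 := 536870912) (W3 := 50465866) (n := (Node.sc eng ndB0q2)) (c := (Fn2.sc esg cd0q2))
    ⟨T.l 1,
      by decide +kernel⟩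
theorem cB_r2_12 : CertNd 1413429298 197183438 536870912 50465866 (ftFar false 2 mT 3 10 1710 1100) [⟨2, 1181116006⟩] (Node.sc eng ndB1q2) (Fn2.sc esg cd1q2) :=
  certNd (T := (ftFar false 2 mT 3 10 1710 1100)) (L := [⟨2, 1181116006⟩]) (P1 := 1413429298) (W1 := 197183438) (P3 := 536870912) (W3 := 50465866) (n := (Node.sc eng ndB1q2)) (c := (Fn2.sc esg cd1q2))
    ⟨T.l 0,
      by decide +kernel⟩
theorem cB_r2_22 : CertNd 1413429298 197183438 536870912 50465866 (ftFar false 2 mT 3 10 1710 1100) [⟨2, 1181116006⟩] (Node.sc eng ndB2q2) (Fn2.sc esg cd2q2) :=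
  certNd (T := (ftFar false 2 mT 3 10 1710 1100)) (L := [⟨2, 1181116006⟩]) (P1 := 1413429298) (W1 := 197183438) (P3 := 536870912) (W3 := 50465866) (n := (Node.sc eng ndB2q2)) (c := (Fn2.sc esg cd2q2))
    ⟨T.l 0,
      by decide +kernel⟩
theorem cB_r2_32 : CertNd 1413429298 197183438 536870912 50465866 (ftFar false 2 mT 3 10 1710 1100) [⟨2, 1181116006⟩] (Node.sc eng ndB3q2) (Fn2.sc esg cd3q2) :=
  certNd (T := (ftFar false 2 mT 3 10 1710 1100)) (L := [⟨2, 1181116006⟩]) (P1 := 1413429298) (W1 := 197183438) (P3 := 536870912) (W3 := 50465866) (n := (Node.sc eng ndB3q2)) (c := (Fn2.sc esg cd3q2))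
    ⟨T.l 0,
      by decide +kernel⟩
theorem cB_r2_42 : CertNd 1413429298 197183438 536870912 50465866 (ftFar false 2 mT 3 10 1710 1100) [⟨2, 1181116006⟩] (Node.sc eng ndB4q2) (Fn2.sc esg cd4q2) :=
  certNd (T := (ftFar false 2 mT 3 10 1710 1100)) (L := [⟨2, 1181116006⟩]) (P1 := 1413429298) (W1 := 197183438) (P3 := 536870912) (W3 := 50465866) (n := (Node.sc eng ndB4q2)) (c := (Fn2.sc esg cd4q2))
    ⟨T.l 1,
      by decide +kernel⟩
theorem cB_r2_52 : CertNd 1413429298 197183438 536870912 50465866 (ftFar false 2 mT 3 10 1710 1100) [⟨2, 1181116006⟩] (Node.sc eng ndB5q2) (Fn2.sc esg cd5q2) :=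
  certNd (T := (ftFar false 2 mT 3 10 1710 1100)) (L := [⟨2, 1181116006⟩]) (P1 := 1413429298) (W1 := 197183438) (P3 := 536870912) (W3 := 50465866) (n := (Node.sc eng ndB5q2)) (c := (Fn2.sc esg cd5q2))
    ⟨T.l 0,
      by decide +kernel⟩
theorem cB_r2_62 : CertNd 1413429298 197183438 536870912 50465866 (ftFar false 2 mT 3 10 1710 1100) [⟨2, 1181116006⟩] (Node.sc eng ndB6q2) (Fn2.sc esg cd6q2) :=
  certNd (T := (ftFar false 2 mT 3 10 1710 1100)) (L := [⟨2, 1181116006⟩]) (P1 := 1413429298) (W1 := 197183438) (P3 := 536870912) (W3 := 50465866) (n := (Node.sc eng ndB6q2)) (c := (Fn2.sc esg cd6q2))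
    ⟨T.a (T.c (T.l 0) (T.l 0)) (T.l 0),
      by decide +kernel⟩
theorem cB_r2_13 : CertNd 1610612736 87982124 536870912 50465866 (ftFar false 3 mT 3 10 1710 1100) [⟨2, 1181116006⟩] (Node.sc eng ndB1q3) (Fn2.sc esg cd1q3) :=
  certNd (T := (ftFar false 3 mT 3 10 1710 1100)) (L := [⟨2, 1181116006⟩]) (P1 := 1610612736) (W1 := 87982124) (P3 := 536870912) (W3 := 50465866) (n := (Node.sc eng ndB1q3)) (c := (Fn2.sc esg cd1q3))
    ⟨T.l 0,
      by decide +kernel⟩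
theorem cB_r2_23 : CertNd 1610612736 87982124 536870912 50465866 (ftFar false 3 mT 3 10 1710 1100) [⟨2, 1181116006⟩] (Node.sc eng ndB2q3) (Fn2.sc esg cd2q3) :=
  certNd (T := (ftFar false 3 mT 3 10 1710 1100)) (L := [⟨2, 1181116006⟩]) (P1 := 1610612736) (W1 := 87982124) (P3 := 536870912) (W3 := 50465866) (n := (Node.sc eng ndB2q3)) (c := (Fn2.sc esg cd2q3))
    ⟨T.l 0,
      by decide +kernel⟩
theorem cB_r2_33 : CertNd 1610612736 87982124 536870912 50465866 (ftFar false 3 mT 3 10 1710 1100) [⟨2, 1181116006⟩] (Node.sc eng ndB3q3) (Fn2.sc esg cd3q3) :=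
  certNd (T := (ftFar false 3 mT 3 10 1710 1100)) (L := [⟨2, 1181116006⟩]) (P1 := 1610612736) (W1 := 87982124) (P3 := 536870912) (W3 := 50465866) (n := (Node.sc eng ndB3q3)) (c := (Fn2.sc esg cd3q3))
    ⟨T.l 0,
      by decide +kernel⟩
theorem cB_r2_43 : CertNd 0 1230186008 536870912 50465866 (ftFar false 3 mT 3 10 1710 1100) [⟨0, 1413429298⟩, ⟨1, 1698594860⟩, ⟨2, 1181116006⟩] (Node.sc eng ndB4q3) (Fn2.sc esg cd4q3) :=
  certNd (T := (ftFar false 3 mT 3 10 1710 1100)) (L := [⟨0, 1413429298⟩, ⟨1, 1698594860⟩, ⟨2, 1181116006⟩]) (P1 := 0) (W1 := 1230186008) (P3 := 536870912) (W3 := 50465866) (n := (Node.sc eng ndB4q3)) (c := (Fn2.sc esg cd4q3))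
    ⟨T.l 5,
      by decide +kernel⟩
theorem cB_r2_53 : CertNd 0 1230186008 536870912 50465866 (ftFar false 3 mT 3 10 1710 1100) [⟨0, 1413429298⟩, ⟨1, 1698594860⟩, ⟨2, 1181116006⟩] (Node.sc eng ndB5q3) (Fn2.sc esg cd5q3) :=
  certNd (T := (ftFar false 3 mT 3 10 1710 1100)) (L := [⟨0, 1413429298⟩, ⟨1, 1698594860⟩, ⟨2, 1181116006⟩]) (P1 := 0) (W1 := 1230186008) (P3 := 536870912) (W3 := 50465866) (n := (Node.sc eng ndB5q3)) (c := (Fn2.sc esg cd5q3))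
    ⟨T.l 5,
      by decide +kernel⟩
theorem cB_r2_63 : CertNd 0 1230186008 536870912 50465866 (ftFar false 3 mT 3 10 1710 1100) [⟨0, 1413429298⟩, ⟨1, 1698594860⟩, ⟨2, 1181116006⟩] (Node.sc eng ndB6q3) (Fn2.sc esg cd6q3) :=
  certNd (T := (ftFar false 3 mT 3 10 1710 1100)) (L := [⟨0, 1413429298⟩, ⟨1, 1698594860⟩, ⟨2, 1181116006⟩]) (P1 := 0) (W1 := 1230186008) (P3 := 536870912) (W3 := 50465866) (n := (Node.sc eng ndB6q3)) (c := (Fn2.sc esg cd6q3))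
    ⟨T.a (T.l 0) (T.a (T.l 0) (T.a (T.l 0) (T.l 0))),
      by decide +kernel⟩
theorem cB_n2_02z : CertNd 0 10737418 536870912 50465866 (ftNear false 2 mT 3 10 1710) [⟨0, 1413429298⟩, ⟨1, 1698594860⟩] ⟨ndB0q2.Y, onF, Fn2.sc eng kq02, lq02⟩ (Fn2.sc esg cq02) :=
  certNd (T := (ftNear false 2 mT 3 10 1710)) (L := [⟨0, 1413429298⟩, ⟨1, 1698594860⟩]) (P1 := 0) (W1 := 10737418) (P3 := 536870912) (W3 := 50465866) (n := ⟨ndB0q2.Y, onF, Fn2.sc eng kq02, lq02⟩) (c := (Fn2.sc esg cq02))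
    ⟨T.l 0,
      by decide +kernel⟩
theorem cB_n2_02 : CertNd 0 536870912 536870912 50465866 (ftNear false 2 mT 3 10 1710) [⟨0, 1413429298⟩, ⟨1, 1698594860⟩, ⟨2, 10737418⟩, ⟨3, 429496730⟩] (Node.sc eng ndB0q2) (Fn2.sc esg cd0q2) :=
  certNd (T := (ftNear false 2 mT 3 10 1710)) (L := [⟨0, 1413429298⟩, ⟨1, 1698594860⟩, ⟨2, 10737418⟩, ⟨3, 429496730⟩]) (P1 := 0) (W1 := 536870912) (P3 := 536870912) (W3 := 50465866) (n := (Node.sc eng ndB0q2)) (c := (Fn2.sc esg cd0q2))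
    ⟨T.l 1,
      by decide +kernel⟩
theorem cB_n2_12 : CertNd 1413429298 197183438 536870912 50465866 (ftNear false 2 mT 3 10 1710) [⟨3, 429496730⟩] (Node.sc eng ndB1q2) (Fn2.sc esg cd1q2) :=
  certNd (T := (ftNear false 2 mT 3 10 1710)) (L := [⟨3, 429496730⟩]) (P1 := 1413429298) (W1 := 197183438) (P3 := 536870912) (W3 := 50465866) (n := (Node.sc eng ndB1q2)) (c := (Fn2.sc esg cd1q2))
    ⟨T.l 0,
      by decide +kernel⟩
theorem cB_n2_22 : CertNd 1413429298 197183438 536870912 50465866 (ftNear false 2 mT 3 10 1710) [⟨3, 429496730⟩] (Node.sc eng ndB2q2) (Fn2.sc esg cd2q2) :=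
  certNd (T := (ftNear false 2 mT 3 10 1710)) (L := [⟨3, 429496730⟩]) (P1 := 1413429298) (W1 := 197183438) (P3 := 536870912) (W3 := 50465866) (n := (Node.sc eng ndB2q2)) (c := (Fn2.sc esg cd2q2))
    ⟨T.l 0,
      by decide +kernel⟩
theorem cB_n2_32 : CertNd 1413429298 197183438 536870912 50465866 (ftNear false 2 mT 3 10 1710) [⟨3, 429496730⟩] (Node.sc eng ndB3q2) (Fn2.sc esg cd3q2) :=
  certNd (T := (ftNear false 2 mT 3 10 1710)) (L := [⟨3, 429496730⟩]) (P1 := 1413429298) (W1 := 197183438) (P3 := 536870912) (W3 := 50465866) (n := (Node.sc eng ndB3q2)) (c := (Fn2.sc esg cd3q2))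
    ⟨T.l 0,
      by decide +kernel⟩
theorem cB_n2_42 : CertNd 1413429298 197183438 536870912 50465866 (ftNear false 2 mT 3 10 1710) [⟨3, 429496730⟩] (Node.sc eng ndB4q2) (Fn2.sc esg cd4q2) :=
  certNd (T := (ftNear false 2 mT 3 10 1710)) (L := [⟨3, 429496730⟩]) (P1 := 1413429298) (W1 := 197183438) (P3 := 536870912) (W3 := 50465866) (n := (Node.sc eng ndB4q2)) (c := (Fn2.sc esg cd4q2))
    ⟨T.l 1,
      by decide +kernel⟩
theorem cB_n2_52 : CertNd 1413429298 197183438 536870912 50465866 (ftNear false 2 mT 3 10 1710) [⟨3, 429496730⟩] (Node.sc eng ndB5q2) (Fn2.sc esg cd5q2) :=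
  certNd (T := (ftNear false 2 mT 3 10 1710)) (L := [⟨3, 429496730⟩]) (P1 := 1413429298) (W1 := 197183438) (P3 := 536870912) (W3 := 50465866) (n := (Node.sc eng ndB5q2)) (c := (Fn2.sc esg cd5q2))
    ⟨T.l 0,
      by decide +kernel⟩
theorem cB_n2_62 : CertNd 1413429298 197183438 536870912 50465866 (ftNear false 2 mT 3 10 1710) [⟨3, 429496730⟩] (Node.sc eng ndB6q2) (Fn2.sc esg cd6q2) :=
  certNd (T := (ftNear false 2 mT 3 10 1710)) (L := [⟨3, 429496730⟩]) (P1 := 1413429298) (W1 := 197183438) (P3 := 536870912) (W3 := 50465866) (n := (Node.sc eng ndB6q2)) (c := (Fn2.sc esg cd6q2))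
    ⟨T.l 0,
      by decide +kernel⟩
theorem cB_n2_13 : CertNd 1610612736 87982124 536870912 50465866 (ftNear false 3 mT 3 10 1710) [⟨3, 429496730⟩] (Node.sc eng ndB1q3) (Fn2.sc esg cd1q3) :=
  certNd (T := (ftNear false 3 mT 3 10 1710)) (L := [⟨3, 429496730⟩]) (P1 := 1610612736) (W1 := 87982124) (P3 := 536870912) (W3 := 50465866) (n := (Node.sc eng ndB1q3)) (c := (Fn2.sc esg cd1q3))
    ⟨T.l 0,
      by decide +kernel⟩
theorem cB_n2_23 : CertNd 1610612736 87982124 536870912 50465866 (ftNear false 3 mT 3 10 1710) [⟨3, 429496730⟩] (Node.sc eng ndB2q3) (Fn2.sc esg cd2q3) :=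
  certNd (T := (ftNear false 3 mT 3 10 1710)) (L := [⟨3, 429496730⟩]) (P1 := 1610612736) (W1 := 87982124) (P3 := 536870912) (W3 := 50465866) (n := (Node.sc eng ndB2q3)) (c := (Fn2.sc esg cd2q3))
    ⟨T.l 0,
      by decide +kernel⟩
theorem cB_n2_33 : CertNd 1610612736 87982124 536870912 50465866 (ftNear false 3 mT 3 10 1710) [⟨3, 429496730⟩] (Node.sc eng ndB3q3) (Fn2.sc esg cd3q3) :=
  certNd (T := (ftNear false 3 mT 3 10 1710)) (L := [⟨3, 429496730⟩]) (P1 := 1610612736) (W1 := 87982124) (P3 := 536870912) (W3 := 50465866) (n := (Node.sc eng ndB3q3)) (c := (Fn2.sc esg cd3q3))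
    ⟨T.l 0,
      by decide +kernel⟩
theorem cB_n2_43 : CertNd 0 1230186008 536870912 50465866 (ftNear false 3 mT 3 10 1710) [⟨0, 1413429298⟩, ⟨1, 1698594860⟩, ⟨3, 429496730⟩] (Node.sc eng ndB4q3) (Fn2.sc esg cd4q3) :=
  certNd (T := (ftNear false 3 mT 3 10 1710)) (L := [⟨0, 1413429298⟩, ⟨1, 1698594860⟩, ⟨3, 429496730⟩]) (P1 := 0) (W1 := 1230186008) (P3 := 536870912) (W3 := 50465866) (n := (Node.sc eng ndB4q3)) (c := (Fn2.sc esg cd4q3))
    ⟨T.a (T.l 3) (T.a (T.l 0) (T.l 5)),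
      by decide +kernel⟩
theorem cB_n2_53 : CertNd 0 1230186008 536870912 50465866 (ftNear false 3 mT 3 10 1710) [⟨0, 1413429298⟩, ⟨1, 1698594860⟩, ⟨3, 429496730⟩] (Node.sc eng ndB5q3) (Fn2.sc esg cd5q3) :=
  certNd (T := (ftNear false 3 mT 3 10 1710)) (L := [⟨0, 1413429298⟩, ⟨1, 1698594860⟩, ⟨3, 429496730⟩]) (P1 := 0) (W1 := 1230186008) (P3 := 536870912) (W3 := 50465866) (n := (Node.sc eng ndB5q3)) (c := (Fn2.sc esg cd5q3))
    ⟨T.a (T.l 3) (T.l 5),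
      by decide +kernel⟩
theorem cB_n2_63 : CertNd 0 1230186008 536870912 50465866 (ftNear false 3 mT 3 10 1710) [⟨0, 1413429298⟩, ⟨1, 1698594860⟩, ⟨3, 429496730⟩] (Node.sc eng ndB6q3) (Fn2.sc esg cd6q3) :=
  certNd (T := (ftNear false 3 mT 3 10 1710)) (L := [⟨0, 1413429298⟩, ⟨1, 1698594860⟩, ⟨3, 429496730⟩]) (P1 := 0) (W1 := 1230186008) (P3 := 536870912) (W3 := 50465866) (n := (Node.sc eng ndB6q3)) (c := (Fn2.sc esg cd6q3))
    ⟨T.a (T.l 3) (T.l 5),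
      by decide +kernel⟩
theorem cB_R2_2 : CertSd 1413429298 197183438 536870912 50465866 (ftFar false 2 mT 3 10 1710 1100) [] idF (cnF 1100 1000) pcE2 (Fn3.sc esg pd2) :=
  certSd (T := (ftFar false 2 mT 3 10 1710 1100)) (L := []) (P1 := 1413429298) (W1 := 197183438) (P3 := 536870912) (W3 := 50465866) (Y := idF) (X := (cnF 1100 1000))
    (pc := pcE2) (c := (Fn3.sc esg pd2)) ⟨T.a (T.l 0) (T.l 0),
      by decide +kernel⟩
theorem cB_N2_2 : CertSd 1413429298 197183438 536870912 50465866 (ftNear false 2 mT 3 10 1710) [] idF (cnF 400 1000) pcE2 (Fn3.sc esg pd2) :=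
  certSd (T := (ftNear false 2 mT 3 10 1710)) (L := []) (P1 := 1413429298) (W1 := 197183438) (P3 := 536870912) (W3 := 50465866) (Y := idF) (X := (cnF 400 1000))
    (pc := pcE2) (c := (Fn3.sc esg pd2)) ⟨T.a (T.l 0) (T.l 0),
      by decide +kernel⟩
theorem cB_R2_3 : CertSd 1610612736 48318382 536870912 50465866 (ftFar false 3 mT 3 10 1710 1100) [] idF (cnF 1100 1000) pcE3 (Fn3.sc esg pd3) :=
  certSd (T := (ftFar false 3 mT 3 10 1710 1100)) (L := []) (P1 := 1610612736) (W1 := 48318382) (P3 := 536870912) (W3 := 50465866) (Y := idF) (X := (cnF 1100 1000))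
    (pc := pcE3) (c := (Fn3.sc esg pd3)) ⟨T.l 0,
      by decide +kernel⟩
theorem cB_N2_3 : CertSd 1610612736 87982124 536870912 50465866 (ftNear false 3 mT 3 10 1710) [] idF (cnF 400 1000) pcE3 (Fn3.sc esg pd3) :=
  certSd (T := (ftNear false 3 mT 3 10 1710)) (L := []) (P1 := 1610612736) (W1 := 87982124) (P3 := 536870912) (W3 := 50465866) (Y := idF) (X := (cnF 400 1000))
    (pc := pcE3) (c := (Fn3.sc esg pd3)) ⟨T.l 0,
      by decide +kernel⟩

end Pool.Agent.Strip051.G.I5000_5470.Tab
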