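import Pool.Agent.Strip051.G.I5000_5470.Fact
import Pool.Agent.Strip051.G.I5000_5470.FcA

/-! # The floor with the window, vertex A (generated) -/

set_option linter.all false

namespace Pool.Agent.Strip051.G.I5000_5470.Tab

open Pool.Agent.Strip051.PB Pool.Agent.StripNear Pool.Agent.StripSquare
  Pool.Agent.Strip051.Sweep Pool.Agent.Strip051.LC Pool.Agent.Strip051.LC.Exact
open Pool.Agent.Strip051.LC.Floor (G En Qn fS GUn kan k3d k3n zen)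

theorem gsg_v (x : ℝ) : gsg.v x = G x := by
  have : gsg.v = c1n := by funext y; simp [gsg, c1n]
  rw [this]
  rfl
theorem c1gG_v (y : ℝ) : c1g.v y = G y := by
  rw [c1g_v]
  rfl
theorem mug_v (x : ℝ) : mug3.v x = mT.v x := by
  show (((2 : ℕ) : ℝ) * gsg.v x + ((3 : ℕ) : ℝ))⁻¹ = (((3 : ℕ) : ℝ) + ((2 : ℕ) : ℝ) * c1n x)⁻¹
  rw [gsg_v, c1n_G, add_comm]
theorem gug_v (x : ℝ) : gug.v x = GUn x := by
  simp only [gug, gsg_v]
  push_cast
  unfold Pool.Agent.Strip051.LC.Floor.GUn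
  ring
theorem eng_v (x : ℝ) : eng.v x = 1 + mT.v x * GUn x := by
  simp only [eng, mug_v, gug_v]
  push_cast
  ring
theorem esgE_v (x : ℝ) : esg.v x = En x := by
  simp only [esg, gsg_v]
  push_cast
  unfold Pool.Agent.Strip051.LC.Floor.En
  ring
theorem dlg_v (y x : ℝ) : dlg.v y x = kcg.v (3 / 4 * y - G y / 2) x := by
  simp only [dlg, c1gG_v]
  push_cast
  rfl
theorem clKF0 {y x : ℝ} (h0 : 0 < y) (h1 : y < 1) : kf0q0.v y x = tq 0 y * kan y (dlg.v y x) := by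
  have e := kan_lo h0 h1
  have e2 : tq 0 y = y := rfl
  rw [e2, dlg_v]
  simp only [kf0q0, kf0q0_9, kf0q0_12, c1gG_v]
  push_cast
  unfold kan
  linear_combination e
theorem clL0 {y x : ℝ} (ha : -(13 / 134) < 3 / 4 * y - G y / 2) (hb : 3 / 4 * y - G y / 2 < -(1 / 97)) :
    l0q0.v y x = zen y x (dlg.v y x) := by
  rw [dlg_v]
  simp only [l0q0, txg, txg_4, txg_6, txg_27, txg_30, txg_33, txg_75, txg_116, txg_119, txg_165, txg_225, txg_226, txg_228, txg_230, txg_270, txg_293, txg_336, txg_338, txg_358, txg_398, txg_418, c1gG_v]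
  push_cast
  unfold zen Pool.Agent.Strip051.LC.Floor.Qn Pool.Agent.Strip051.LC.Floor.En
  repeat first | rw [if_pos (by linarith)] | rw [if_neg (by linarith)]
  ring1
theorem clC0 {y x : ℝ} (ha : -(13 / 134) < 3 / 4 * y - G y / 2) (hb : 3 / 4 * y - G y / 2 < -(1 / 97)) :
    kc0q0.v y x = k3d y (dlg.v y x) + 3 / 4 * (y - x) * mZ.v x := by
  rw [dlg_v]
  simp only [kc0q0, kc0q0_3, kc0q0_8, c1gG_v, gug_v]
  push_cast
  unfold k3d Pool.Agent.Strip051.LC.Floor.k3n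
  have ez : mZ.v x = 0 := rfl
  simp only [ez]
  repeat first | rw [if_pos (by linarith)] | rw [if_neg (by linarith)]
  ring1
theorem clKF1 {y x : ℝ} (h0 : 1 / 3 < y) (h1 : y < 1) : kf0q1.v y x = tq 1 y * kan y (dlg.v y x) := by
  have e := kan_hi h0 h1
  have e2 : tq 1 y = y - 1 := rfl
  rw [e2, dlg_v]
  simp only [kf0q1, kf0q1_10, c1gG_v]
  push_cast
  unfold kan
  linear_combination e
theorem clL1 {y x : ℝ} (ha : -(13 / 134) < 3 / 4 * y - G y / 2) (hb : 3 / 4 * y - G y / 2 < -(1 / 97)) :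
    l0q1.v y x = zen y x (dlg.v y x) := by
  rw [dlg_v]
  simp only [l0q1, txg, txg_4, txg_6, txg_27, txg_30, txg_33, txg_75, txg_116, txg_119, txg_165, txg_225, txg_226, txg_228, txg_230, txg_270, txg_293, txg_336, txg_338, txg_358, txg_398, txg_418, c1gG_v]
  push_cast
  unfold zen Pool.Agent.Strip051.LC.Floor.Qn Pool.Agent.Strip051.LC.Floor.En
  repeat first | rw [if_pos (by linarith)] | rw [if_neg (by linarith)]
  ring1
theorem clC1 {y x : ℝ} (ha : -(13 / 134) < 3 / 4 * y - G y / 2) (hb : 3 / 4 * y - G y / 2 < -(1 / 97)) :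
    kc0q1.v y x = k3d y (dlg.v y x) + 3 / 4 * (y - x) * mZ.v x := by
  rw [dlg_v]
  simp only [kc0q1, kc0q1_3, kc0q1_9, c1gG_v, gug_v]
  push_cast
  unfold k3d Pool.Agent.Strip051.LC.Floor.k3n
  have ez : mZ.v x = 0 := rfl
  simp only [ez]
  repeat first | rw [if_pos (by linarith)] | rw [if_neg (by linarith)]
  ring1
theorem quK {p x : ℝ} (p0 : 0 < p) (p1 : p ≤ ((10737418 : ℕ) : ℝ) / 1073741824) : kfc02.v p x = p * kq02.v p x := by
  norm_num at p1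
  simp only [kfc02, kcg, kcg_3, kcg_6, kcg_9, kcg_12, kcg_13, kcg_16, kcg_28, kcg_36, kcg_41, kcg_53, kcg_61, kcg_62, kcg_67, kcg_78, kcg_85, kcg_86, kcg_91, kcg_102, kcg_107, kcg_111, kcg_124, kcg_134, kcg_137, kcg_138, kcg_141, kcg_153, kcg_158, kcg_161, kcg_171, kcg_179, kcg_180, kcg_185, kcg_195, kcg_203, kcg_207, kcg_216, kcg_221, kcg_228, kcg_229, kcg_230, kcg_250, kcg_260, kcg_281, kcg_282, kcg_303, kq02]
  push_cast
  repeat first | rw [if_pos (by linarith)] | rw [if_neg (by linarith)]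
  ring1
theorem qx_m {p x : ℝ} (p0 : 0 < p) (p1 : p ≤ ((10737418 : ℕ) : ℝ) / 1073741824) (c : ℝ) : txg.v (-p) c x = (449174385256771 / 4633932500000000) * p ^ 0 * x ^ 0 + (54060117 / 47772500000) * p ^ 0 * x ^ 1 + (537239502445313 / 4633932500000000) * p ^ 1 * x ^ 0 + (-(1307165529 / 2985781250)) * p ^ 1 * x ^ 1 + (-(282000819 / 25000000)) * p ^ 2 * x ^ 0 + (66651 / 6250) * p ^ 2 * x ^ 1 := by
  norm_num at p1
  simp only [txg, txg_4, txg_6, txg_27, txg_30, txg_33, txg_75, txg_116, txg_119, txg_165, txg_225, txg_226, txg_228, txg_230, txg_270, txg_293, txg_336, txg_338, txg_358, txg_398, txg_418, kcg, kcg_3, kcg_6, kcg_9, kcg_12, kcg_13, kcg_16, kcg_28, kcg_36, kcg_41, kcg_53, kcg_61, kcg_62, kcg_67, kcg_78, kcg_85, kcg_86, kcg_91, kcg_102, kcg_107, kcg_111, kcg_124, kcg_134, kcg_137, kcg_138, kcg_141, kcg_153, kcg_158, kcg_161, kcg_171, kcg_179, kcg_180, kcg_185, kcg_195,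 kcg_203, kcg_207, kcg_216, kcg_221, kcg_228, kcg_229, kcg_230, kcg_250, kcg_260, kcg_281, kcg_282, kcg_303]
  push_cast
  repeat first | rw [if_pos (by linarith)] | rw [if_neg (by linarith)]
  ring1
theorem qx_p {p x : ℝ} (p0 : 0 < p) (p1 : p ≤ ((10737418 : ℕ) : ℝ) / 1073741824) (c : ℝ) : txg.v p c x = (449174385256771 / 4633932500000000) * p ^ 0 * x ^ 0 + (54060117 / 47772500000) * p ^ 0 * x ^ 1 + (-(537239502445313 / 4633932500000000)) * p ^ 1 * x ^ 0 + (1307165529 / 2985781250) * p ^ 1 * x ^ 1 + (-(282000819 / 25000000)) * p ^ 2 * x ^ 0 + (66651 / 6250) * p ^ 2 * x ^ 1 := by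
  norm_num at p1
  simp only [txg, txg_4, txg_6, txg_27, txg_30, txg_33, txg_75, txg_116, txg_119, txg_165, txg_225, txg_226, txg_228, txg_230, txg_270, txg_293, txg_336, txg_338, txg_358, txg_398, txg_418, kcg, kcg_3, kcg_6, kcg_9, kcg_12, kcg_13, kcg_16, kcg_28, kcg_36, kcg_41, kcg_53, kcg_61, kcg_62, kcg_67, kcg_78, kcg_85, kcg_86, kcg_91, kcg_102, kcg_107, kcg_111, kcg_124, kcg_134, kcg_137, kcg_138, kcg_141, kcg_153, kcg_158, kcg_161, kcg_171, kcg_179, kcg_180, kcg_185, kcg_195, kcg_203, kcg_207, kcg_216, kcg_221, kcg_228, kcg_229, kcg_230, kcg_250, kcg_260, kcg_281, kcg_282, kcg_303]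
  push_cast
  repeat first | rw [if_pos (by linarith)] | rw [if_neg (by linarith)]
  ring1
theorem quL {p x : ℝ} (p0 : 0 < p) (p1 : p ≤ ((10737418 : ℕ) : ℝ) / 1073741824) : lc02.v p x = p * lq02.v p x := by
  have p2 := p1
  norm_num at p2
  simp only [lc02, lc02_7, lc02_8, qx_m p0 p1, qx_p p0 p1, lq02]
  push_cast
  repeat first | rw [if_pos (by linarith)] | rw [if_neg (by linarith)]
  ring1
theorem quC {p x : ℝ} (p0 : 0 < p) (p1 : p ≤ ((10737418 : ℕ) : ℝ) / 1073741824) : kcc02.v p x = p * cq02.v p x := by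
  norm_num at p1
  simp only [kcc02, kcc02_4, cq02]
  push_cast
  repeat first | rw [if_pos (by linarith)] | rw [if_neg (by linarith)]
  ring1
theorem onA10 {x : ℝ} (hx : Rng 536870912 50465866 x) : On PP tK tL Z0 x (1 : Fin 7) 0
    (WallP (((1 : ℕ) : ℝ) / ((1 : ℕ) : ℝ)) x (mZ.v x) 0) fun _ => True := by
  have x0 := rng_pos hx (by norm_num)
  have x1 := rng_lt hx (by norm_num)
  have hμ : 0 ≤ mZ.v x := le_rfl
  have bK : En x * ndB1q0.K.v 0 x = (En x + mZ.v x * Qn x) * (1) := bK_far (corB10 x).2.1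
  have hm := On.monoY (fun y hy => (atB10 hy).far) cA_m10 hx (fun _ => rfl)
  have g := On.germ0 (fun y hy => (atB10 hy).toAt) cA_g10 hx x0 x1 hμ (corB10 x).1 bK (corB10 x).2.2.1 (hm.sub (by norm_num) (by norm_num)) (((1 : ℕ) : ℝ) / ((1 : ℕ) : ℝ))
  have w := On.wallY (fun y hy => (atB10 hy).far) cA_w10 hx (fun _ => rfl)
  exact (g.join (e := 536870912) w (by norm_num) (by norm_num)).full 0 (by norm_num) (by norm_num)
theorem flA1 {x : ℝ} (hx : Rng 536870912 50465866 x) : On PP tK tL Z0 x (1 : Fin 7) 0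
    (FlatP (((1 : ℕ) : ℝ) / ((1 : ℕ) : ℝ)) x (mZ.v x) 0) fun y => h0 * y ≤ 3 / 100 := by
  have x0 := rng_pos hx (by norm_num)
  have x1 := rng_lt hx (by norm_num)
  have hμ : 0 ≤ mZ.v x := le_rfl
  exact On.flatW (On.monoY (fun y hy => (atB10 hy).far) cA_m10 hx (fun _ => rfl)) (by norm_num) (onA10 hx)
theorem onA11 {x : ℝ} (hx : Rng 536870912 50465866 x) : On PP tK tL Z0 x (1 : Fin 7) 1
    (WallP (((1 : ℕ) : ℝ) / ((1 : ℕ) : ℝ)) x (mZ.v x) 1) fun _ => True := by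
  have x0 := rng_pos hx (by norm_num)
  have x1 := rng_lt hx (by norm_num)
  have hμ : 0 ≤ mZ.v x := le_rfl
  exact (On.wallY (fun y hy => (atB11 hy).far) cA_w11 hx (fun _ => rfl)).full 1 (by norm_num) (by norm_num)
theorem onA20 {x : ℝ} (hx : Rng 536870912 50465866 x) : On PP tK tL Z0 x (2 : Fin 7) 0
    (WallP (((1 : ℕ) : ℝ) / ((1 : ℕ) : ℝ)) x (mZ.v x) 0) fun _ => True := by
  have x0 := rng_pos hx (by norm_num)
  have x1 := rng_lt hx (by norm_num)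
  have hμ : 0 ≤ mZ.v x := le_rfl
  have bK : En x * ndB2q0.K.v 0 x = (En x + mZ.v x * Qn x) * (1) := bK_far (corB20 x).2.1
  have hm := On.monoY (fun y hy => (atB20 hy).far) cA_m20 hx (fun _ => rfl)
  have g := On.germ0 (fun y hy => (atB20 hy).toAt) cA_g20 hx x0 x1 hμ (corB20 x).1 bK (corB20 x).2.2.1 (hm.sub (by norm_num) (by norm_num)) (((1 : ℕ) : ℝ) / ((1 : ℕ) : ℝ))
  have w := On.wallY (fun y hy => (atB20 hy).far) cA_w20 hx (fun _ => rfl)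
  exact (g.join (e := 536870912) w (by norm_num) (by norm_num)).full 0 (by norm_num) (by norm_num)
theorem flA2 {x : ℝ} (hx : Rng 536870912 50465866 x) : On PP tK tL Z0 x (2 : Fin 7) 0
    (FlatP (((1 : ℕ) : ℝ) / ((1 : ℕ) : ℝ)) x (mZ.v x) 0) fun y => h0 * y ≤ 3 / 100 := by
  have x0 := rng_pos hx (by norm_num)
  have x1 := rng_lt hx (by norm_num)
  have hμ : 0 ≤ mZ.v x := le_rfl
  exact On.flatW (On.monoY (fun y hy => (atB20 hy).far) cA_m20 hx (fun _ => rfl)) (by norm_num) (onA20 hx)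
theorem onA21 {x : ℝ} (hx : Rng 536870912 50465866 x) : On PP tK tL Z0 x (2 : Fin 7) 1
    (WallP (((1 : ℕ) : ℝ) / ((1 : ℕ) : ℝ)) x (mZ.v x) 1) fun _ => True := by
  have x0 := rng_pos hx (by norm_num)
  have x1 := rng_lt hx (by norm_num)
  have hμ : 0 ≤ mZ.v x := le_rfl
  exact (On.wallY (fun y hy => (atB21 hy).far) cA_w21 hx (fun _ => rfl)).full 1 (by norm_num) (by norm_num)
theorem onA30 {x : ℝ} (hx : Rng 536870912 50465866 x) : On PP tK tL Z0 x (3 : Fin 7) 0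
    (WallP (((1 : ℕ) : ℝ) / ((1 : ℕ) : ℝ)) x (mZ.v x) 0) fun _ => True := by
  have x0 := rng_pos hx (by norm_num)
  have x1 := rng_lt hx (by norm_num)
  have hμ : 0 ≤ mZ.v x := le_rfl
  have bK : En x * ndB3q0.K.v 0 x = (En x + mZ.v x * Qn x) * (1) := bK_far (corB30 x).2.1
  have hm := On.monoY (fun y hy => (atB30 hy).far) cA_m30 hx (fun _ => rfl)
  have g := On.germ0 (fun y hy => (atB30 hy).toAt) cA_g30 hx x0 x1 hμ (corB30 x).1 bK (corB30 x).2.2.1 (hm.sub (by norm_num) (by norm_num)) (((1 : ℕ) : ℝ) / ((1 : ℕ) : ℝ))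
  have w := On.wallY (fun y hy => (atB30 hy).far) cA_w30 hx (fun _ => rfl)
  exact (g.join (e := 536870912) w (by norm_num) (by norm_num)).full 0 (by norm_num) (by norm_num)
theorem flA3 {x : ℝ} (hx : Rng 536870912 50465866 x) : On PP tK tL Z0 x (3 : Fin 7) 0
    (FlatP (((1 : ℕ) : ℝ) / ((1 : ℕ) : ℝ)) x (mZ.v x) 0) fun y => h0 * y ≤ 3 / 100 := by
  have x0 := rng_pos hx (by norm_num)
  have x1 := rng_lt hx (by norm_num)
  have hμ : 0 ≤ mZ.v x := le_rfl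
  exact On.flatW (On.monoY (fun y hy => (atB30 hy).far) cA_m30 hx (fun _ => rfl)) (by norm_num) (onA30 hx)
theorem onA31 {x : ℝ} (hx : Rng 536870912 50465866 x) : On PP tK tL Z0 x (3 : Fin 7) 1
    (WallP (((1 : ℕ) : ℝ) / ((1 : ℕ) : ℝ)) x (mZ.v x) 1) fun _ => True := by
  have x0 := rng_pos hx (by norm_num)
  have x1 := rng_lt hx (by norm_num)
  have hμ : 0 ≤ mZ.v x := le_rfl
  exact (On.wallY (fun y hy => (atB31 hy).far) cA_w31 hx (fun _ => rfl)).full 1 (by norm_num) (by norm_num)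
theorem onA40 {x : ℝ} (hx : Rng 536870912 50465866 x) : On PP tK tL Z0 x (4 : Fin 7) 0
    (WallP (((1 : ℕ) : ℝ) / ((1 : ℕ) : ℝ)) x (mZ.v x) 0) fun y => 3 / 100 ≤ h0 * y := by
  have x0 := rng_pos hx (by norm_num)
  have x1 := rng_lt hx (by norm_num)
  have hμ : 0 ≤ mZ.v x := le_rfl
  exact On.wall3 (On.wallY (fun y hy => (atB40 hy).far) cA_w40 hx (fun _ => rfl)) (by norm_num)
theorem flA4 {x : ℝ} (hx : Rng 536870912 50465866 x) : On PP tK tL Z0 x (4 : Fin 7) 0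
    (FlatP (((1 : ℕ) : ℝ) / ((1 : ℕ) : ℝ)) x (mZ.v x) 0) fun y => h0 * y ≤ 3 / 100 := by
  have x0 := rng_pos hx (by norm_num)
  have x1 := rng_lt hx (by norm_num)
  have hμ : 0 ≤ mZ.v x := le_rfl
  exact On.flatY (fun y hy => (atB40 hy).far) cA_f40 hx (fun _ => rfl)
theorem leA4 {x : ℝ} (hx : Rng 536870912 50465866 x) : On PP tK tL Z0 x (4 : Fin 7) 0
    (WallP (((1 : ℕ) : ℝ) / ((1 : ℕ) : ℝ)) x (mZ.v x) 0) fun y => h0 * y ≤ 3 / 100 ∧ crv PP (4 : Fin 7) 0 y ≤ Dw := by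
  have x0 := rng_pos hx (by norm_num)
  have x1 := rng_lt hx (by norm_num)
  have hμ : 0 ≤ mZ.v x := le_rfl
  exact On.leftY (fun y hy => (atB40 hy).far) cA_l40 hx (fun _ => rfl)
theorem onA41 {x : ℝ} (hx : Rng 536870912 50465866 x) : On PP tK tL Z0 x (4 : Fin 7) 1
    (WallP (((1 : ℕ) : ℝ) / ((1 : ℕ) : ℝ)) x (mZ.v x) 1) fun _ => True := by
  have x0 := rng_pos hx (by norm_num)
  have x1 := rng_lt hx (by norm_num)
  have hμ : 0 ≤ mZ.v x := le_rfl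
  exact (On.wallY (fun y hy => (atB41 hy).far) cA_w41 hx (fun _ => rfl)).full 1 (by norm_num) (by norm_num)
theorem onA42 {x : ℝ} (hx : Rng 536870912 50465866 x) : On PP tK tL Z0 x (4 : Fin 7) 2
    (WallP (((1 : ℕ) : ℝ) / ((1 : ℕ) : ℝ)) x (mZ.v x) 2) fun y => h0 * y ≤ 1 ∧ 1 - G y ≤ crv PP (4 : Fin 7) 2 y := by
  have x0 := rng_pos hx (by norm_num)
  have x1 := rng_lt hx (by norm_num)
  have hμ : 0 ≤ mZ.v x := le_rfl
  exact On.right2 (fun y hy => (atB42 hy).toAt) cA_w42 hx (((1 : ℕ) : ℝ) / ((1 : ℕ) : ℝ))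
theorem onA50 {x : ℝ} (hx : Rng 536870912 50465866 x) : On PP tK tL Z0 x (5 : Fin 7) 0
    (WallP (((1 : ℕ) : ℝ) / ((1 : ℕ) : ℝ)) x (mZ.v x) 0) fun y => 3 / 100 ≤ h0 * y := by
  have x0 := rng_pos hx (by norm_num)
  have x1 := rng_lt hx (by norm_num)
  have hμ : 0 ≤ mZ.v x := le_rfl
  exact On.wall3 (On.wallY (fun y hy => (atB50 hy).far) cA_w50 hx (fun _ => rfl)) (by norm_num)
theorem flA5 {x : ℝ} (hx : Rng 536870912 50465866 x) : On PP tK tL Z0 x (5 : Fin 7) 0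
    (FlatP (((1 : ℕ) : ℝ) / ((1 : ℕ) : ℝ)) x (mZ.v x) 0) fun y => h0 * y ≤ 3 / 100 := by
  have x0 := rng_pos hx (by norm_num)
  have x1 := rng_lt hx (by norm_num)
  have hμ : 0 ≤ mZ.v x := le_rfl
  exact On.flatY (fun y hy => (atB50 hy).far) cA_f50 hx (fun _ => rfl)
theorem leA5 {x : ℝ} (hx : Rng 536870912 50465866 x) : On PP tK tL Z0 x (5 : Fin 7) 0
    (WallP (((1 : ℕ) : ℝ) / ((1 : ℕ) : ℝ)) x (mZ.v x) 0) fun y => h0 * y ≤ 3 / 100 ∧ crv PP (5 : Fin 7) 0 y ≤ Dw := by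
  have x0 := rng_pos hx (by norm_num)
  have x1 := rng_lt hx (by norm_num)
  have hμ : 0 ≤ mZ.v x := le_rfl
  exact On.leftY (fun y hy => (atB50 hy).far) cA_l50 hx (fun _ => rfl)
theorem onA51 {x : ℝ} (hx : Rng 536870912 50465866 x) : On PP tK tL Z0 x (5 : Fin 7) 1
    (WallP (((1 : ℕ) : ℝ) / ((1 : ℕ) : ℝ)) x (mZ.v x) 1) fun _ => True := by
  have x0 := rng_pos hx (by norm_num)
  have x1 := rng_lt hx (by norm_num)
  have hμ : 0 ≤ mZ.v x := le_rfl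
  exact (On.wallY (fun y hy => (atB51 hy).far) cA_w51 hx (fun _ => rfl)).full 1 (by norm_num) (by norm_num)
theorem onA52 {x : ℝ} (hx : Rng 536870912 50465866 x) : On PP tK tL Z0 x (5 : Fin 7) 2
    (WallP (((1 : ℕ) : ℝ) / ((1 : ℕ) : ℝ)) x (mZ.v x) 2) fun y => h0 * y ≤ 1 ∧ 1 - G y ≤ crv PP (5 : Fin 7) 2 y := by
  have x0 := rng_pos hx (by norm_num)
  have x1 := rng_lt hx (by norm_num)
  have hμ : 0 ≤ mZ.v x := le_rfl
  exact On.right2 (fun y hy => (atB52 hy).toAt) cA_w52 hx (((1 : ℕ) : ℝ) / ((1 : ℕ) : ℝ))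
theorem onA60 {x : ℝ} (hx : Rng 536870912 50465866 x) : On PP tK tL Z0 x (6 : Fin 7) 0
    (WallP (((1 : ℕ) : ℝ) / ((1 : ℕ) : ℝ)) x (mZ.v x) 0) fun y => 3 / 100 ≤ h0 * y := by
  have x0 := rng_pos hx (by norm_num)
  have x1 := rng_lt hx (by norm_num)
  have hμ : 0 ≤ mZ.v x := le_rfl
  exact On.wall3 (On.wallY (fun y hy => (atB60 hy).far) cA_w60 hx (fun _ => rfl)) (by norm_num)
theorem flA6 {x : ℝ} (hx : Rng 536870912 50465866 x) : On PP tK tL Z0 x (6 : Fin 7) 0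
    (FlatP (((1 : ℕ) : ℝ) / ((1 : ℕ) : ℝ)) x (mZ.v x) 0) fun y => h0 * y ≤ 3 / 100 := by
  have x0 := rng_pos hx (by norm_num)
  have x1 := rng_lt hx (by norm_num)
  have hμ : 0 ≤ mZ.v x := le_rfl
  exact On.flatY (fun y hy => (atB60 hy).far) cA_f60 hx (fun _ => rfl)
theorem leA6 {x : ℝ} (hx : Rng 536870912 50465866 x) : On PP tK tL Z0 x (6 : Fin 7) 0
    (WallP (((1 : ℕ) : ℝ) / ((1 : ℕ) : ℝ)) x (mZ.v x) 0) fun y => h0 * y ≤ 3 / 100 ∧ crv PP (6 : Fin 7) 0 y ≤ Dw := by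
  have x0 := rng_pos hx (by norm_num)
  have x1 := rng_lt hx (by norm_num)
  have hμ : 0 ≤ mZ.v x := le_rfl
  exact On.leftY (fun y hy => (atB60 hy).far) cA_l60 hx (fun _ => rfl)
theorem onA61 {x : ℝ} (hx : Rng 536870912 50465866 x) : On PP tK tL Z0 x (6 : Fin 7) 1
    (WallP (((1 : ℕ) : ℝ) / ((1 : ℕ) : ℝ)) x (mZ.v x) 1) fun _ => True := by
  have x0 := rng_pos hx (by norm_num)
  have x1 := rng_lt hx (by norm_num)
  have hμ : 0 ≤ mZ.v x := le_rfl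
  exact (On.wallY (fun y hy => (atB61 hy).far) cA_w61 hx (fun _ => rfl)).full 1 (by norm_num) (by norm_num)
theorem onA62 {x : ℝ} (hx : Rng 536870912 50465866 x) : On PP tK tL Z0 x (6 : Fin 7) 2
    (WallP (((1 : ℕ) : ℝ) / ((1 : ℕ) : ℝ)) x (mZ.v x) 2) fun y => h0 * y ≤ 1 ∧ 1 - G y ≤ crv PP (6 : Fin 7) 2 y := by
  have x0 := rng_pos hx (by norm_num)
  have x1 := rng_lt hx (by norm_num)
  have hμ : 0 ≤ mZ.v x := le_rfl
  exact On.right2 (fun y hy => (atB62 hy).toAt) cA_w62 hx (((1 : ℕ) : ℝ) / ((1 : ℕ) : ℝ))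
theorem moA00 {x : ℝ} (hx : Rng 536870912 50465866 x) : On PP tK tL Z0 x (0 : Fin 7) 0
    (MonoQ x (mZ.v x) 0) fun _ => True := by
  have x0 := rng_pos hx (by norm_num)
  have x1 := rng_lt hx (by norm_num)
  have hμ : 0 ≤ mZ.v x := le_rfl
  exact (On.monoY (fun y hy => (atB00 hy).far) cA_m00 hx (fun _ => rfl)).full 0 (by norm_num) (by norm_num)
theorem onA00 {x : ℝ} (hx : Rng 536870912 50465866 x) : On PP tK tL Z0 x (0 : Fin 7) 0
    (WallP (((1 : ℕ) : ℝ) / ((1 : ℕ) : ℝ)) x (mZ.v x) 0) fun _ => True := by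
  have x0 := rng_pos hx (by norm_num)
  have x1 := rng_lt hx (by norm_num)
  have hμ : 0 ≤ mZ.v x := le_rfl
  have hm := On.monoY (fun y hy => (atB00 hy).far) cA_m00 hx (fun _ => rfl)
  have bK : En x * ndB0q0.K.v 0 x = (En x + mZ.v x * Qn x) * (1) := bK_far (corB00 x).2.1
  have g := On.germ0 (fun y hy => (atB00 hy).toAt) cA_g00 hx x0 x1 hμ (corB00 x).1 bK (corB00 x).2.2.1 (hm.sub (by norm_num) (by norm_num)) (((1 : ℕ) : ℝ) / ((1 : ℕ) : ℝ))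
  have wa := On.wallY (fun y hy => (atB00 hy).far) cA_w00a hx (fun _ => rfl)
  have hmt : On PP tK tL Z0 x (0 : Fin 7) 0 (MonoQ x (mZ.v x) 0) (Rng 516469817 91268055) :=
    (hm.full 0 (by norm_num) (by norm_num)).imp fun _ _ _ => trivial
  have hf : ∀ y, InQ 0 y → Rng 516469817 91268055 y →
      tK 0 0 y x = tq 0 y * kan y (dlg.v y x) ∧ tL 0 0 y x = zen y x (dlg.v y x) := by
    intro y hq hr
    have y1 : y < 1 := lt_one_of hq (by norm_num)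
    have r1 : ((516469817 : ℕ) : ℝ) / S ≤ y := hr.1
    have r2 : y ≤ ((607737872 : ℕ) : ℝ) / S := by
      have := hr.2
      push_cast at this ⊢
      norm_num at this ⊢
      exact this
    have y0 : 0 < y := rng_pos hr (by norm_num)
    have pa : (-(13 / 134) : ℝ) < 3 / 4 * y - G y / 2 := psi_gt (w := 976148402) r1 (by norm_num) (by norm_num)
    have pb : 3 / 4 * y - G y / 2 < (-(1 / 97) : ℝ) := psi_lt (w := 935901976) y0.le r2 (by norm_num) (by norm_num)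
    have A := atB00 (x := x) (show OnC (0 : Fin 7) 0 y from ⟨hq, fun _ => h0y_lt y1⟩)
    exact ⟨A.K.symm.trans (clKF0 y0 y1), A.L.symm.trans (clL0 pa pb)⟩
  have t := On.tgF (D := dlg) (q := 0) (by norm_num) cA_tl cA_th hx x0 x1 (by norm_num) hf hmt (((1 : ℕ) : ℝ) / ((1 : ℕ) : ℝ))
  exact ((g.join (e := 516469817) wa (by norm_num) (by norm_num)).join (e := 607737872) t (by norm_num) (by norm_num)).full 0 (by norm_num) (by norm_num)
theorem flA0 {x : ℝ} (hx : Rng 536870912 50465866 x) : On PP tK tL Z0 x (0 : Fin 7) 0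
    (FlatP (((1 : ℕ) : ℝ) / ((1 : ℕ) : ℝ)) x (mZ.v x) 0) fun y => h0 * y ≤ 3 / 100 := by
  have x0 := rng_pos hx (by norm_num)
  have x1 := rng_lt hx (by norm_num)
  have hμ : 0 ≤ mZ.v x := le_rfl
  exact On.flatW (On.monoY (fun y hy => (atB00 hy).far) cA_m00 hx (fun _ => rfl)) (by norm_num) (onA00 hx)
theorem moA01 {x : ℝ} (hx : Rng 536870912 50465866 x) : On PP tK tL Z0 x (0 : Fin 7) 1
    (MonoQ x (mZ.v x) 1) fun _ => True := by
  have x0 := rng_pos hx (by norm_num)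
  have x1 := rng_lt hx (by norm_num)
  have hμ : 0 ≤ mZ.v x := le_rfl
  exact (On.monoY (fun y hy => (atB01 hy).far) cA_m01 hx (fun _ => rfl)).full 1 (by norm_num) (by norm_num)
theorem onA01 {x : ℝ} (hx : Rng 536870912 50465866 x) : On PP tK tL Z0 x (0 : Fin 7) 1
    (WallP (((1 : ℕ) : ℝ) / ((1 : ℕ) : ℝ)) x (mZ.v x) 1) fun _ => True := by
  have x0 := rng_pos hx (by norm_num)
  have x1 := rng_lt hx (by norm_num)
  have hμ : 0 ≤ mZ.v x := le_rfl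
  have hm := On.monoY (fun y hy => (atB01 hy).far) cA_m01 hx (fun _ => rfl)
  have bK : En x * ndB0q1.K.v 1 x = (En x + mZ.v x * Qn x) * (1 / 2) := bK_far (corB01 x).2.1
  have g := On.germ1 (fun y hy => (atB01 hy).toAt) cA_g01 hx x0 x1 hμ (corB01 x).1 bK (corB01 x).2.2.1 (hm.sub (by norm_num) (by norm_num)) (((1 : ℕ) : ℝ) / ((1 : ℕ) : ℝ))
  have wb := On.wallY (fun y hy => (atB01 hy).far) cA_w01b hx (fun _ => rfl)
  have hmt : On PP tK tL Z0 x (0 : Fin 7) 1 (MonoQ x (mZ.v x) 1) (Rng 516469817 91268055) :=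
    (hm.full 1 (by norm_num) (by norm_num)).imp fun _ _ _ => trivial
  have hf : ∀ y, InQ 1 y → Rng 516469817 91268055 y →
      tK 0 1 y x = tq 1 y * kan y (dlg.v y x) ∧ tL 0 1 y x = zen y x (dlg.v y x) := by
    intro y hq hr
    have y1 : y < 1 := lt_one_of hq (by norm_num)
    have r1 : ((516469817 : ℕ) : ℝ) / S ≤ y := hr.1
    have r2 : y ≤ ((607737872 : ℕ) : ℝ) / S := by
      have := hr.2
      push_cast at this ⊢
      norm_num at this ⊢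
      exact this
    have y0 : 0 < y := rng_pos hr (by norm_num)
    have pa : (-(13 / 134) : ℝ) < 3 / 4 * y - G y / 2 := psi_gt (w := 976148402) r1 (by norm_num) (by norm_num)
    have pb : 3 / 4 * y - G y / 2 < (-(1 / 97) : ℝ) := psi_lt (w := 935901976) y0.le r2 (by norm_num) (by norm_num)
    have A := atB01 (x := x) (show OnC (0 : Fin 7) 1 y from ⟨hq, fun _ => h0y_lt y1⟩)
    exact ⟨A.K.symm.trans (clKF1 (by linarith [hq.1]) y1), A.L.symm.trans (clL1 pa pb)⟩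
  have t := On.tgF (D := dlg) (q := 1) (by norm_num) cA_tl cA_th hx x0 x1 (by norm_num) hf hmt (((1 : ℕ) : ℝ) / ((1 : ℕ) : ℝ))
  exact ((t.join (e := 520764785) wb (by norm_num) (by norm_num)).join (e := 557272007) g (by norm_num) (by norm_num)).full 1 (by norm_num) (by norm_num)
abbrev hlA : List (ℕ × ℕ) := [(860, 520)]
abbrev blA : List (ℕ × ℕ) := [(940, 1250), (1095, 1320)]
theorem hiA00 {x : ℝ} (hx : Rng 536870912 50465866 x) : StpAll (fun t t' a => On PP tK tL Z0 x (0 : Fin 7) 0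
    (fun y X A L C => HighP (((1 : ℕ) : ℝ) / ((1 : ℕ) : ℝ)) x (mZ.v x) 0 y X A L C ((a : ℝ) / 1000) Dw) fun y =>
      t ≤ h0 * y ∧ h0 * y ≤ t' + 3 / 100) 1700 800 hlA 1000 :=
  StpAll.cons (On.noLo (by norm_num) (by decide)) (StpAll.nil (On.noLo (by norm_num) (by decide)))
theorem faA00 {x : ℝ} (hx : Rng 536870912 50465866 x) : StpAll (fun t t' a => On PP tK tL Z0 x (0 : Fin 7) 0
    (fun y X A L C => FarP (((1 : ℕ) : ℝ) / ((1 : ℕ) : ℝ)) x (mZ.v x) 0 y X A L C ((a : ℝ) / 1000) Dw) fun y =>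
      t ≤ h0 * y ∧ h0 * y ≤ t' + 3 / 100 ∧ Dw ≤ crv PP (0 : Fin 7) 0 y) 1340 880 blA 1640 :=
  StpAll.cons (On.noLo (by norm_num) (by decide)) (StpAll.cons (On.noLo (by norm_num) (by decide)) (StpAll.nil (On.noLo (by norm_num) (by decide))))
theorem neA00 {x : ℝ} (hx : Rng 536870912 50465866 x) : StpAll (fun t t' a => On PP tK tL Z0 x (0 : Fin 7) 0
    (fun y X A L C => NearP (((1 : ℕ) : ℝ) / ((1 : ℕ) : ℝ)) x (mZ.v x) 0 y X A L C ((a : ℝ) / 1000)) fun y =>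
      t ≤ h0 * y ∧ h0 * y ≤ t' + 3 / 100 ∧ 0 < crv PP (0 : Fin 7) 0 y ∧ crv PP (0 : Fin 7) 0 y ≤ 2 / 5) 1340 880 blA 1640 :=
  StpAll.cons (On.noLo (by norm_num) (by decide)) (StpAll.cons (On.noLo (by norm_num) (by decide)) (StpAll.nil (On.noLo (by norm_num) (by decide))))
theorem hiA01 {x : ℝ} (hx : Rng 536870912 50465866 x) : StpAll (fun t t' a => On PP tK tL Z0 x (0 : Fin 7) 1
    (fun y X A L C => HighP (((1 : ℕ) : ℝ) / ((1 : ℕ) : ℝ)) x (mZ.v x) 1 y X A L C ((a : ℝ) / 1000) Dw) fun y =>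
      t ≤ h0 * y ∧ h0 * y ≤ t' + 3 / 100) 1700 800 hlA 1000 :=
  StpAll.cons (On.stH (fun y hy => (atB01 hy).far) cA_h0_01 hx (fun _ => rfl) (by decide)) (StpAll.nil (On.stH (fun y hy => (atB01 hy).far) cA_h1_01 hx (fun _ => rfl) (by decide)))
theorem faA01 {x : ℝ} (hx : Rng 536870912 50465866 x) : StpAll (fun t t' a => On PP tK tL Z0 x (0 : Fin 7) 1
    (fun y X A L C => FarP (((1 : ℕ) : ℝ) / ((1 : ℕ) : ℝ)) x (mZ.v x) 1 y X A L C ((a : ℝ) / 1000) Dw) fun y =>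
      t ≤ h0 * y ∧ h0 * y ≤ t' + 3 / 100 ∧ Dw ≤ crv PP (0 : Fin 7) 1 y) 1340 880 blA 1640 :=
  StpAll.cons (On.noLo (by norm_num) (by decide)) (StpAll.cons (On.noLo (by norm_num) (by decide)) (StpAll.nil (On.noLo (by norm_num) (by decide))))
theorem neA01 {x : ℝ} (hx : Rng 536870912 50465866 x) : StpAll (fun t t' a => On PP tK tL Z0 x (0 : Fin 7) 1
    (fun y X A L C => NearP (((1 : ℕ) : ℝ) / ((1 : ℕ) : ℝ)) x (mZ.v x) 1 y X A L C ((a : ℝ) / 1000)) fun y =>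
      t ≤ h0 * y ∧ h0 * y ≤ t' + 3 / 100 ∧ 0 < crv PP (0 : Fin 7) 1 y ∧ crv PP (0 : Fin 7) 1 y ≤ 2 / 5) 1340 880 blA 1640 :=
  StpAll.cons (On.noLo (by norm_num) (by decide)) (StpAll.cons (On.noLo (by norm_num) (by decide)) (StpAll.nil (On.noLo (by norm_num) (by decide))))
theorem hiA02 {x : ℝ} (hx : Rng 536870912 50465866 x) : StpAll (fun t t' a => On PP tK tL Z0 x (0 : Fin 7) 2
    (fun y X A L C => HighP (((1 : ℕ) : ℝ) / ((1 : ℕ) : ℝ)) x (mZ.v x) 2 y X A L C ((a : ℝ) / 1000) Dw) fun y =>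
      t ≤ h0 * y ∧ h0 * y ≤ t' + 3 / 100) 1700 800 hlA 1000 :=
  StpAll.cons (On.stHc covB02.far cA_h0_02 hx (fun _ => rfl) (by decide)) (StpAll.nil (On.stHc covB02.far cA_h1_02 hx (fun _ => rfl) (by decide)))
theorem faA02 {x : ℝ} (hx : Rng 536870912 50465866 x) : StpAll (fun t t' a => On PP tK tL Z0 x (0 : Fin 7) 2
    (fun y X A L C => FarP (((1 : ℕ) : ℝ) / ((1 : ℕ) : ℝ)) x (mZ.v x) 2 y X A L C ((a : ℝ) / 1000) Dw) fun y =>
      t ≤ h0 * y ∧ h0 * y ≤ t' + 3 / 100 ∧ Dw ≤ crv PP (0 : Fin 7) 2 y) 1340 880 blA 1640 :=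
  StpAll.cons (On.stRc covB02.far cA_r0_02 hx (fun _ => rfl) (by decide)) (StpAll.cons (On.stRc covB02.far cA_r1_02 hx (fun _ => rfl) (by decide)) (StpAll.nil (On.stRc covB02.far cA_r2_02 hx (fun _ => rfl) (by decide))))
theorem neA02 {x : ℝ} (hx : Rng 536870912 50465866 x) : StpAll (fun t t' a => On PP tK tL Z0 x (0 : Fin 7) 2
    (fun y X A L C => NearP (((1 : ℕ) : ℝ) / ((1 : ℕ) : ℝ)) x (mZ.v x) 2 y X A L C ((a : ℝ) / 1000)) fun y =>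
      t ≤ h0 * y ∧ h0 * y ≤ t' + 3 / 100 ∧ 0 < crv PP (0 : Fin 7) 2 y ∧ crv PP (0 : Fin 7) 2 y ≤ 2 / 5) 1340 880 blA 1640 :=
  StpAll.cons (On.stN0 covB02.far (fun _ => rfl) cA_n0_02 cA_n0_02z hx (fun _ => rfl)
    (fun p p0 p1 => ⟨quK p0 p1, quL p0 p1, (mul_zero p).symm⟩) (by decide)) (StpAll.cons (On.stN0 covB02.far (fun _ => rfl) cA_n1_02 cA_n1_02z hx (fun _ => rfl)
    (fun p p0 p1 => ⟨quK p0 p1, quL p0 p1, (mul_zero p).symm⟩) (by decide)) (StpAll.nil (On.stN0 covB02.far (fun _ => rfl) cA_n2_02 cA_n2_02z hx (fun _ => rfl)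
    (fun p p0 p1 => ⟨quK p0 p1, quL p0 p1, (mul_zero p).symm⟩) (by decide))))
theorem hiA03 {x : ℝ} (hx : Rng 536870912 50465866 x) : StpAll (fun t t' a => On PP tK tL Z0 x (0 : Fin 7) 3
    (fun y X A L C => HighP (((1 : ℕ) : ℝ) / ((1 : ℕ) : ℝ)) x (mZ.v x) 3 y X A L C ((a : ℝ) / 1000) Dw) fun y =>
      t ≤ h0 * y ∧ h0 * y ≤ t' + 3 / 100) 1700 800 hlA 1000 :=
  StpAll.cons (On.no03) (StpAll.nil (On.no03))
theorem faA03 {x : ℝ} (hx : Rng 536870912 50465866 x) : StpAll (fun t t' a => On PP tK tL Z0 x (0 : Fin 7) 3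
    (fun y X A L C => FarP (((1 : ℕ) : ℝ) / ((1 : ℕ) : ℝ)) x (mZ.v x) 3 y X A L C ((a : ℝ) / 1000) Dw) fun y =>
      t ≤ h0 * y ∧ h0 * y ≤ t' + 3 / 100 ∧ Dw ≤ crv PP (0 : Fin 7) 3 y) 1340 880 blA 1640 :=
  StpAll.cons (On.no03) (StpAll.cons (On.no03) (StpAll.nil (On.no03)))
theorem neA03 {x : ℝ} (hx : Rng 536870912 50465866 x) : StpAll (fun t t' a => On PP tK tL Z0 x (0 : Fin 7) 3
    (fun y X A L C => NearP (((1 : ℕ) : ℝ) / ((1 : ℕ) : ℝ)) x (mZ.v x) 3 y X A L C ((a : ℝ) / 1000)) fun y =>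
      t ≤ h0 * y ∧ h0 * y ≤ t' + 3 / 100 ∧ 0 < crv PP (0 : Fin 7) 3 y ∧ crv PP (0 : Fin 7) 3 y ≤ 2 / 5) 1340 880 blA 1640 :=
  StpAll.cons (On.no03) (StpAll.cons (On.no03) (StpAll.nil (On.no03)))
theorem hiA10 {x : ℝ} (hx : Rng 536870912 50465866 x) : StpAll (fun t t' a => On PP tK tL Z0 x (1 : Fin 7) 0
    (fun y X A L C => HighP (((1 : ℕ) : ℝ) / ((1 : ℕ) : ℝ)) x (mZ.v x) 0 y X A L C ((a : ℝ) / 1000) Dw) fun y =>
      t ≤ h0 * y ∧ h0 * y ≤ t' + 3 / 100) 1700 800 hlA 1000 :=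
  StpAll.cons (On.noLo (by norm_num) (by decide)) (StpAll.nil (On.noLo (by norm_num) (by decide)))
theorem faA10 {x : ℝ} (hx : Rng 536870912 50465866 x) : StpAll (fun t t' a => On PP tK tL Z0 x (1 : Fin 7) 0
    (fun y X A L C => FarP (((1 : ℕ) : ℝ) / ((1 : ℕ) : ℝ)) x (mZ.v x) 0 y X A L C ((a : ℝ) / 1000) Dw) fun y =>
      t ≤ h0 * y ∧ h0 * y ≤ t' + 3 / 100 ∧ Dw ≤ crv PP (1 : Fin 7) 0 y) 1340 880 blA 1640 :=
  StpAll.cons (On.noLo (by norm_num) (by decide)) (StpAll.cons (On.noLo (by norm_num) (by decide)) (StpAll.nil (On.noLo (by norm_num) (by decide))))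
theorem neA10 {x : ℝ} (hx : Rng 536870912 50465866 x) : StpAll (fun t t' a => On PP tK tL Z0 x (1 : Fin 7) 0
    (fun y X A L C => NearP (((1 : ℕ) : ℝ) / ((1 : ℕ) : ℝ)) x (mZ.v x) 0 y X A L C ((a : ℝ) / 1000)) fun y =>
      t ≤ h0 * y ∧ h0 * y ≤ t' + 3 / 100 ∧ 0 < crv PP (1 : Fin 7) 0 y ∧ crv PP (1 : Fin 7) 0 y ≤ 2 / 5) 1340 880 blA 1640 :=
  StpAll.cons (On.noLo (by norm_num) (by decide)) (StpAll.cons (On.noLo (by norm_num) (by decide)) (StpAll.nil (On.noLo (by norm_num) (by decide))))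
theorem hiA11 {x : ℝ} (hx : Rng 536870912 50465866 x) : StpAll (fun t t' a => On PP tK tL Z0 x (1 : Fin 7) 1
    (fun y X A L C => HighP (((1 : ℕ) : ℝ) / ((1 : ℕ) : ℝ)) x (mZ.v x) 1 y X A L C ((a : ℝ) / 1000) Dw) fun y =>
      t ≤ h0 * y ∧ h0 * y ≤ t' + 3 / 100) 1700 800 hlA 1000 :=
  StpAll.cons (On.stH (fun y hy => (atB11 hy).far) cA_h0_11 hx (fun _ => rfl) (by decide)) (StpAll.nil (On.stH (fun y hy => (atB11 hy).far) cA_h1_11 hx (fun _ => rfl) (by decide)))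
theorem faA11 {x : ℝ} (hx : Rng 536870912 50465866 x) : StpAll (fun t t' a => On PP tK tL Z0 x (1 : Fin 7) 1
    (fun y X A L C => FarP (((1 : ℕ) : ℝ) / ((1 : ℕ) : ℝ)) x (mZ.v x) 1 y X A L C ((a : ℝ) / 1000) Dw) fun y =>
      t ≤ h0 * y ∧ h0 * y ≤ t' + 3 / 100 ∧ Dw ≤ crv PP (1 : Fin 7) 1 y) 1340 880 blA 1640 :=
  StpAll.cons (On.noLo (by norm_num) (by decide)) (StpAll.cons (On.noLo (by norm_num) (by decide)) (StpAll.nil (On.noLo (by norm_num) (by decide))))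
theorem neA11 {x : ℝ} (hx : Rng 536870912 50465866 x) : StpAll (fun t t' a => On PP tK tL Z0 x (1 : Fin 7) 1
    (fun y X A L C => NearP (((1 : ℕ) : ℝ) / ((1 : ℕ) : ℝ)) x (mZ.v x) 1 y X A L C ((a : ℝ) / 1000)) fun y =>
      t ≤ h0 * y ∧ h0 * y ≤ t' + 3 / 100 ∧ 0 < crv PP (1 : Fin 7) 1 y ∧ crv PP (1 : Fin 7) 1 y ≤ 2 / 5) 1340 880 blA 1640 :=
  StpAll.cons (On.noLo (by norm_num) (by decide)) (StpAll.cons (On.noLo (by norm_num) (by decide)) (StpAll.nil (On.noLo (by norm_num) (by decide))))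
theorem hiA12 {x : ℝ} (hx : Rng 536870912 50465866 x) : StpAll (fun t t' a => On PP tK tL Z0 x (1 : Fin 7) 2
    (fun y X A L C => HighP (((1 : ℕ) : ℝ) / ((1 : ℕ) : ℝ)) x (mZ.v x) 2 y X A L C ((a : ℝ) / 1000) Dw) fun y =>
      t ≤ h0 * y ∧ h0 * y ≤ t' + 3 / 100) 1700 800 hlA 1000 :=
  StpAll.cons (On.stH (fun y hy => (atB12 hy).far) cA_h0_12 hx (fun _ => rfl) (by decide)) (StpAll.nil (On.stH (fun y hy => (atB12 hy).far) cA_h1_12 hx (fun _ => rfl) (by decide)))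
theorem faA12 {x : ℝ} (hx : Rng 536870912 50465866 x) : StpAll (fun t t' a => On PP tK tL Z0 x (1 : Fin 7) 2
    (fun y X A L C => FarP (((1 : ℕ) : ℝ) / ((1 : ℕ) : ℝ)) x (mZ.v x) 2 y X A L C ((a : ℝ) / 1000) Dw) fun y =>
      t ≤ h0 * y ∧ h0 * y ≤ t' + 3 / 100 ∧ Dw ≤ crv PP (1 : Fin 7) 2 y) 1340 880 blA 1640 :=
  StpAll.cons (On.stR (fun y hy => (atB12 hy).far) cA_r0_12 hx (fun _ => rfl) (by decide)) (StpAll.cons (On.stR (fun y hy => (atB12 hy).far) cA_r1_12 hx (fun _ => rfl) (by decide)) (StpAll.nil (On.stR (fun y hy => (atB12 hy).far) cA_r2_12 hx (fun _ => rfl) (by decide))))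
theorem neA12 {x : ℝ} (hx : Rng 536870912 50465866 x) : StpAll (fun t t' a => On PP tK tL Z0 x (1 : Fin 7) 2
    (fun y X A L C => NearP (((1 : ℕ) : ℝ) / ((1 : ℕ) : ℝ)) x (mZ.v x) 2 y X A L C ((a : ℝ) / 1000)) fun y =>
      t ≤ h0 * y ∧ h0 * y ≤ t' + 3 / 100 ∧ 0 < crv PP (1 : Fin 7) 2 y ∧ crv PP (1 : Fin 7) 2 y ≤ 2 / 5) 1340 880 blA 1640 :=
  StpAll.cons (On.stN (fun y hy => (atB12 hy).far) cA_n0_12 hx (fun _ => rfl) (by decide)) (StpAll.cons (On.stN (fun y hy => (atB12 hy).far) cA_n1_12 hx (fun _ => rfl) (by decide)) (StpAll.nil (On.stN (fun y hy => (atB12 hy).far) cA_n2_12 hx (fun _ => rfl) (by decide))))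
theorem hiA13 {x : ℝ} (hx : Rng 536870912 50465866 x) : StpAll (fun t t' a => On PP tK tL Z0 x (1 : Fin 7) 3
    (fun y X A L C => HighP (((1 : ℕ) : ℝ) / ((1 : ℕ) : ℝ)) x (mZ.v x) 3 y X A L C ((a : ℝ) / 1000) Dw) fun y =>
      t ≤ h0 * y ∧ h0 * y ≤ t' + 3 / 100) 1700 800 hlA 1000 :=
  StpAll.cons (On.noHi (by decide)) (StpAll.nil (On.stH (fun y hy => (atB13 hy).far) cA_h1_13 hx (fun _ => rfl) (by decide)))
theorem faA13 {x : ℝ} (hx : Rng 536870912 50465866 x) : StpAll (fun t t' a => On PP tK tL Z0 x (1 : Fin 7) 3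
    (fun y X A L C => FarP (((1 : ℕ) : ℝ) / ((1 : ℕ) : ℝ)) x (mZ.v x) 3 y X A L C ((a : ℝ) / 1000) Dw) fun y =>
      t ≤ h0 * y ∧ h0 * y ≤ t' + 3 / 100 ∧ Dw ≤ crv PP (1 : Fin 7) 3 y) 1340 880 blA 1640 :=
  StpAll.cons (On.noHi' (by decide)) (StpAll.cons (On.noHi' (by decide)) (StpAll.nil (On.stR (fun y hy => (atB13 hy).far) cA_r2_13 hx (fun _ => rfl) (by decide))))
theorem neA13 {x : ℝ} (hx : Rng 536870912 50465866 x) : StpAll (fun t t' a => On PP tK tL Z0 x (1 : Fin 7) 3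
    (fun y X A L C => NearP (((1 : ℕ) : ℝ) / ((1 : ℕ) : ℝ)) x (mZ.v x) 3 y X A L C ((a : ℝ) / 1000)) fun y =>
      t ≤ h0 * y ∧ h0 * y ≤ t' + 3 / 100 ∧ 0 < crv PP (1 : Fin 7) 3 y ∧ crv PP (1 : Fin 7) 3 y ≤ 2 / 5) 1340 880 blA 1640 :=
  StpAll.cons (On.noHi' (by decide)) (StpAll.cons (On.noHi' (by decide)) (StpAll.nil (On.stN (fun y hy => (atB13 hy).far) cA_n2_13 hx (fun _ => rfl) (by decide))))
theorem hiA20 {x : ℝ} (hx : Rng 536870912 50465866 x) : StpAll (fun t t' a => On PP tK tL Z0 x (2 : Fin 7) 0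
    (fun y X A L C => HighP (((1 : ℕ) : ℝ) / ((1 : ℕ) : ℝ)) x (mZ.v x) 0 y X A L C ((a : ℝ) / 1000) Dw) fun y =>
      t ≤ h0 * y ∧ h0 * y ≤ t' + 3 / 100) 1700 800 hlA 1000 :=
  StpAll.cons (On.noLo (by norm_num) (by decide)) (StpAll.nil (On.noLo (by norm_num) (by decide)))
theorem faA20 {x : ℝ} (hx : Rng 536870912 50465866 x) : StpAll (fun t t' a => On PP tK tL Z0 x (2 : Fin 7) 0
    (fun y X A L C => FarP (((1 : ℕ) : ℝ) / ((1 : ℕ) : ℝ)) x (mZ.v x) 0 y X A L C ((a : ℝ) / 1000) Dw) fun y =>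
      t ≤ h0 * y ∧ h0 * y ≤ t' + 3 / 100 ∧ Dw ≤ crv PP (2 : Fin 7) 0 y) 1340 880 blA 1640 :=
  StpAll.cons (On.noLo (by norm_num) (by decide)) (StpAll.cons (On.noLo (by norm_num) (by decide)) (StpAll.nil (On.noLo (by norm_num) (by decide))))
theorem neA20 {x : ℝ} (hx : Rng 536870912 50465866 x) : StpAll (fun t t' a => On PP tK tL Z0 x (2 : Fin 7) 0
    (fun y X A L C => NearP (((1 : ℕ) : ℝ) / ((1 : ℕ) : ℝ)) x (mZ.v x) 0 y X A L C ((a : ℝ) / 1000)) fun y =>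
      t ≤ h0 * y ∧ h0 * y ≤ t' + 3 / 100 ∧ 0 < crv PP (2 : Fin 7) 0 y ∧ crv PP (2 : Fin 7) 0 y ≤ 2 / 5) 1340 880 blA 1640 :=
  StpAll.cons (On.noLo (by norm_num) (by decide)) (StpAll.cons (On.noLo (by norm_num) (by decide)) (StpAll.nil (On.noLo (by norm_num) (by decide))))
theorem hiA21 {x : ℝ} (hx : Rng 536870912 50465866 x) : StpAll (fun t t' a => On PP tK tL Z0 x (2 : Fin 7) 1
    (fun y X A L C => HighP (((1 : ℕ) : ℝ) / ((1 : ℕ) : ℝ)) x (mZ.v x) 1 y X A L C ((a : ℝ) / 1000) Dw) fun y =>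
      t ≤ h0 * y ∧ h0 * y ≤ t' + 3 / 100) 1700 800 hlA 1000 :=
  StpAll.cons (On.stH (fun y hy => (atB21 hy).far) cA_h0_21 hx (fun _ => rfl) (by decide)) (StpAll.nil (On.stH (fun y hy => (atB21 hy).far) cA_h1_21 hx (fun _ => rfl) (by decide)))
theorem faA21 {x : ℝ} (hx : Rng 536870912 50465866 x) : StpAll (fun t t' a => On PP tK tL Z0 x (2 : Fin 7) 1
    (fun y X A L C => FarP (((1 : ℕ) : ℝ) / ((1 : ℕ) : ℝ)) x (mZ.v x) 1 y X A L C ((a : ℝ) / 1000) Dw) fun y =>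
      t ≤ h0 * y ∧ h0 * y ≤ t' + 3 / 100 ∧ Dw ≤ crv PP (2 : Fin 7) 1 y) 1340 880 blA 1640 :=
  StpAll.cons (On.noLo (by norm_num) (by decide)) (StpAll.cons (On.noLo (by norm_num) (by decide)) (StpAll.nil (On.noLo (by norm_num) (by decide))))
theorem neA21 {x : ℝ} (hx : Rng 536870912 50465866 x) : StpAll (fun t t' a => On PP tK tL Z0 x (2 : Fin 7) 1
    (fun y X A L C => NearP (((1 : ℕ) : ℝ) / ((1 : ℕ) : ℝ)) x (mZ.v x) 1 y X A L C ((a : ℝ) / 1000)) fun y =>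
      t ≤ h0 * y ∧ h0 * y ≤ t' + 3 / 100 ∧ 0 < crv PP (2 : Fin 7) 1 y ∧ crv PP (2 : Fin 7) 1 y ≤ 2 / 5) 1340 880 blA 1640 :=
  StpAll.cons (On.noLo (by norm_num) (by decide)) (StpAll.cons (On.noLo (by norm_num) (by decide)) (StpAll.nil (On.noLo (by norm_num) (by decide))))
theorem hiA22 {x : ℝ} (hx : Rng 536870912 50465866 x) : StpAll (fun t t' a => On PP tK tL Z0 x (2 : Fin 7) 2
    (fun y X A L C => HighP (((1 : ℕ) : ℝ) / ((1 : ℕ) : ℝ)) x (mZ.v x) 2 y X A L C ((a : ℝ) / 1000) Dw) fun y =>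
      t ≤ h0 * y ∧ h0 * y ≤ t' + 3 / 100) 1700 800 hlA 1000 :=
  StpAll.cons (On.stH (fun y hy => (atB22 hy).far) cA_h0_22 hx (fun _ => rfl) (by decide)) (StpAll.nil (On.stH (fun y hy => (atB22 hy).far) cA_h1_22 hx (fun _ => rfl) (by decide)))
theorem faA22 {x : ℝ} (hx : Rng 536870912 50465866 x) : StpAll (fun t t' a => On PP tK tL Z0 x (2 : Fin 7) 2
    (fun y X A L C => FarP (((1 : ℕ) : ℝ) / ((1 : ℕ) : ℝ)) x (mZ.v x) 2 y X A L C ((a : ℝ) / 1000) Dw) fun y =>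
      t ≤ h0 * y ∧ h0 * y ≤ t' + 3 / 100 ∧ Dw ≤ crv PP (2 : Fin 7) 2 y) 1340 880 blA 1640 :=
  StpAll.cons (On.stR (fun y hy => (atB22 hy).far) cA_r0_22 hx (fun _ => rfl) (by decide)) (StpAll.cons (On.stR (fun y hy => (atB22 hy).far) cA_r1_22 hx (fun _ => rfl) (by decide)) (StpAll.nil (On.stR (fun y hy => (atB22 hy).far) cA_r2_22 hx (fun _ => rfl) (by decide))))
theorem neA22 {x : ℝ} (hx : Rng 536870912 50465866 x) : StpAll (fun t t' a => On PP tK tL Z0 x (2 : Fin 7) 2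
    (fun y X A L C => NearP (((1 : ℕ) : ℝ) / ((1 : ℕ) : ℝ)) x (mZ.v x) 2 y X A L C ((a : ℝ) / 1000)) fun y =>
      t ≤ h0 * y ∧ h0 * y ≤ t' + 3 / 100 ∧ 0 < crv PP (2 : Fin 7) 2 y ∧ crv PP (2 : Fin 7) 2 y ≤ 2 / 5) 1340 880 blA 1640 :=
  StpAll.cons (On.stN (fun y hy => (atB22 hy).far) cA_n0_22 hx (fun _ => rfl) (by decide)) (StpAll.cons (On.stN (fun y hy => (atB22 hy).far) cA_n1_22 hx (fun _ => rfl) (by decide)) (StpAll.nil (On.stN (fun y hy => (atB22 hy).far) cA_n2_22 hx (fun _ => rfl) (by decide))))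
theorem hiA23 {x : ℝ} (hx : Rng 536870912 50465866 x) : StpAll (fun t t' a => On PP tK tL Z0 x (2 : Fin 7) 3
    (fun y X A L C => HighP (((1 : ℕ) : ℝ) / ((1 : ℕ) : ℝ)) x (mZ.v x) 3 y X A L C ((a : ℝ) / 1000) Dw) fun y =>
      t ≤ h0 * y ∧ h0 * y ≤ t' + 3 / 100) 1700 800 hlA 1000 :=
  StpAll.cons (On.noHi (by decide)) (StpAll.nil (On.stH (fun y hy => (atB23 hy).far) cA_h1_23 hx (fun _ => rfl) (by decide)))
theorem faA23 {x : ℝ} (hx : Rng 536870912 50465866 x) : StpAll (fun t t' a => On PP tK tL Z0 x (2 : Fin 7) 3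
    (fun y X A L C => FarP (((1 : ℕ) : ℝ) / ((1 : ℕ) : ℝ)) x (mZ.v x) 3 y X A L C ((a : ℝ) / 1000) Dw) fun y =>
      t ≤ h0 * y ∧ h0 * y ≤ t' + 3 / 100 ∧ Dw ≤ crv PP (2 : Fin 7) 3 y) 1340 880 blA 1640 :=
  StpAll.cons (On.noHi' (by decide)) (StpAll.cons (On.noHi' (by decide)) (StpAll.nil (On.stR (fun y hy => (atB23 hy).far) cA_r2_23 hx (fun _ => rfl) (by decide))))
theorem neA23 {x : ℝ} (hx : Rng 536870912 50465866 x) : StpAll (fun t t' a => On PP tK tL Z0 x (2 : Fin 7) 3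
    (fun y X A L C => NearP (((1 : ℕ) : ℝ) / ((1 : ℕ) : ℝ)) x (mZ.v x) 3 y X A L C ((a : ℝ) / 1000)) fun y =>
      t ≤ h0 * y ∧ h0 * y ≤ t' + 3 / 100 ∧ 0 < crv PP (2 : Fin 7) 3 y ∧ crv PP (2 : Fin 7) 3 y ≤ 2 / 5) 1340 880 blA 1640 :=
  StpAll.cons (On.noHi' (by decide)) (StpAll.cons (On.noHi' (by decide)) (StpAll.nil (On.stN (fun y hy => (atB23 hy).far) cA_n2_23 hx (fun _ => rfl) (by decide))))
theorem hiA30 {x : ℝ} (hx : Rng 536870912 50465866 x) : StpAll (fun t t' a => On PP tK tL Z0 x (3 : Fin 7) 0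
    (fun y X A L C => HighP (((1 : ℕ) : ℝ) / ((1 : ℕ) : ℝ)) x (mZ.v x) 0 y X A L C ((a : ℝ) / 1000) Dw) fun y =>
      t ≤ h0 * y ∧ h0 * y ≤ t' + 3 / 100) 1700 800 hlA 1000 :=
  StpAll.cons (On.noLo (by norm_num) (by decide)) (StpAll.nil (On.noLo (by norm_num) (by decide)))
theorem faA30 {x : ℝ} (hx : Rng 536870912 50465866 x) : StpAll (fun t t' a => On PP tK tL Z0 x (3 : Fin 7) 0
    (fun y X A L C => FarP (((1 : ℕ) : ℝ) / ((1 : ℕ) : ℝ)) x (mZ.v x) 0 y X A L C ((a : ℝ) / 1000) Dw) fun y =>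
      t ≤ h0 * y ∧ h0 * y ≤ t' + 3 / 100 ∧ Dw ≤ crv PP (3 : Fin 7) 0 y) 1340 880 blA 1640 :=
  StpAll.cons (On.noLo (by norm_num) (by decide)) (StpAll.cons (On.noLo (by norm_num) (by decide)) (StpAll.nil (On.noLo (by norm_num) (by decide))))
theorem neA30 {x : ℝ} (hx : Rng 536870912 50465866 x) : StpAll (fun t t' a => On PP tK tL Z0 x (3 : Fin 7) 0
    (fun y X A L C => NearP (((1 : ℕ) : ℝ) / ((1 : ℕ) : ℝ)) x (mZ.v x) 0 y X A L C ((a : ℝ) / 1000)) fun y =>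
      t ≤ h0 * y ∧ h0 * y ≤ t' + 3 / 100 ∧ 0 < crv PP (3 : Fin 7) 0 y ∧ crv PP (3 : Fin 7) 0 y ≤ 2 / 5) 1340 880 blA 1640 :=
  StpAll.cons (On.noLo (by norm_num) (by decide)) (StpAll.cons (On.noLo (by norm_num) (by decide)) (StpAll.nil (On.noLo (by norm_num) (by decide))))
theorem hiA31 {x : ℝ} (hx : Rng 536870912 50465866 x) : StpAll (fun t t' a => On PP tK tL Z0 x (3 : Fin 7) 1
    (fun y X A L C => HighP (((1 : ℕ) : ℝ) / ((1 : ℕ) : ℝ)) x (mZ.v x) 1 y X A L C ((a : ℝ) / 1000) Dw) fun y =>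
      t ≤ h0 * y ∧ h0 * y ≤ t' + 3 / 100) 1700 800 hlA 1000 :=
  StpAll.cons (On.stH (fun y hy => (atB31 hy).far) cA_h0_31 hx (fun _ => rfl) (by decide)) (StpAll.nil (On.stH (fun y hy => (atB31 hy).far) cA_h1_31 hx (fun _ => rfl) (by decide)))
theorem faA31 {x : ℝ} (hx : Rng 536870912 50465866 x) : StpAll (fun t t' a => On PP tK tL Z0 x (3 : Fin 7) 1
    (fun y X A L C => FarP (((1 : ℕ) : ℝ) / ((1 : ℕ) : ℝ)) x (mZ.v x) 1 y X A L C ((a : ℝ) / 1000) Dw) fun y =>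
      t ≤ h0 * y ∧ h0 * y ≤ t' + 3 / 100 ∧ Dw ≤ crv PP (3 : Fin 7) 1 y) 1340 880 blA 1640 :=
  StpAll.cons (On.noLo (by norm_num) (by decide)) (StpAll.cons (On.noLo (by norm_num) (by decide)) (StpAll.nil (On.noLo (by norm_num) (by decide))))
theorem neA31 {x : ℝ} (hx : Rng 536870912 50465866 x) : StpAll (fun t t' a => On PP tK tL Z0 x (3 : Fin 7) 1
    (fun y X A L C => NearP (((1 : ℕ) : ℝ) / ((1 : ℕ) : ℝ)) x (mZ.v x) 1 y X A L C ((a : ℝ) / 1000)) fun y =>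
      t ≤ h0 * y ∧ h0 * y ≤ t' + 3 / 100 ∧ 0 < crv PP (3 : Fin 7) 1 y ∧ crv PP (3 : Fin 7) 1 y ≤ 2 / 5) 1340 880 blA 1640 :=
  StpAll.cons (On.noLo (by norm_num) (by decide)) (StpAll.cons (On.noLo (by norm_num) (by decide)) (StpAll.nil (On.noLo (by norm_num) (by decide))))
theorem hiA32 {x : ℝ} (hx : Rng 536870912 50465866 x) : StpAll (fun t t' a => On PP tK tL Z0 x (3 : Fin 7) 2
    (fun y X A L C => HighP (((1 : ℕ) : ℝ) / ((1 : ℕ) : ℝ)) x (mZ.v x) 2 y X A L C ((a : ℝ) / 1000) Dw) fun y =>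
      t ≤ h0 * y ∧ h0 * y ≤ t' + 3 / 100) 1700 800 hlA 1000 :=
  StpAll.cons (On.stH (fun y hy => (atB32 hy).far) cA_h0_32 hx (fun _ => rfl) (by decide)) (StpAll.nil (On.stH (fun y hy => (atB32 hy).far) cA_h1_32 hx (fun _ => rfl) (by decide)))
theorem faA32 {x : ℝ} (hx : Rng 536870912 50465866 x) : StpAll (fun t t' a => On PP tK tL Z0 x (3 : Fin 7) 2
    (fun y X A L C => FarP (((1 : ℕ) : ℝ) / ((1 : ℕ) : ℝ)) x (mZ.v x) 2 y X A L C ((a : ℝ) / 1000) Dw) fun y =>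
      t ≤ h0 * y ∧ h0 * y ≤ t' + 3 / 100 ∧ Dw ≤ crv PP (3 : Fin 7) 2 y) 1340 880 blA 1640 :=
  StpAll.cons (On.stR (fun y hy => (atB32 hy).far) cA_r0_32 hx (fun _ => rfl) (by decide)) (StpAll.cons (On.stR (fun y hy => (atB32 hy).far) cA_r1_32 hx (fun _ => rfl) (by decide)) (StpAll.nil (On.stR (fun y hy => (atB32 hy).far) cA_r2_32 hx (fun _ => rfl) (by decide))))
theorem neA32 {x : ℝ} (hx : Rng 536870912 50465866 x) : StpAll (fun t t' a => On PP tK tL Z0 x (3 : Fin 7) 2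
    (fun y X A L C => NearP (((1 : ℕ) : ℝ) / ((1 : ℕ) : ℝ)) x (mZ.v x) 2 y X A L C ((a : ℝ) / 1000)) fun y =>
      t ≤ h0 * y ∧ h0 * y ≤ t' + 3 / 100 ∧ 0 < crv PP (3 : Fin 7) 2 y ∧ crv PP (3 : Fin 7) 2 y ≤ 2 / 5) 1340 880 blA 1640 :=
  StpAll.cons (On.stN (fun y hy => (atB32 hy).far) cA_n0_32 hx (fun _ => rfl) (by decide)) (StpAll.cons (On.stN (fun y hy => (atB32 hy).far) cA_n1_32 hx (fun _ => rfl) (by decide)) (StpAll.nil (On.stN (fun y hy => (atB32 hy).far) cA_n2_32 hx (fun _ => rfl) (by decide))))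
theorem hiA33 {x : ℝ} (hx : Rng 536870912 50465866 x) : StpAll (fun t t' a => On PP tK tL Z0 x (3 : Fin 7) 3
    (fun y X A L C => HighP (((1 : ℕ) : ℝ) / ((1 : ℕ) : ℝ)) x (mZ.v x) 3 y X A L C ((a : ℝ) / 1000) Dw) fun y =>
      t ≤ h0 * y ∧ h0 * y ≤ t' + 3 / 100) 1700 800 hlA 1000 :=
  StpAll.cons (On.noHi (by decide)) (StpAll.nil (On.stH (fun y hy => (atB33 hy).far) cA_h1_33 hx (fun _ => rfl) (by decide)))
theorem faA33 {x : ℝ} (hx : Rng 536870912 50465866 x) : StpAll (fun t t' a => On PP tK tL Z0 x (3 : Fin 7) 3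
    (fun y X A L C => FarP (((1 : ℕ) : ℝ) / ((1 : ℕ) : ℝ)) x (mZ.v x) 3 y X A L C ((a : ℝ) / 1000) Dw) fun y =>
      t ≤ h0 * y ∧ h0 * y ≤ t' + 3 / 100 ∧ Dw ≤ crv PP (3 : Fin 7) 3 y) 1340 880 blA 1640 :=
  StpAll.cons (On.noHi' (by decide)) (StpAll.cons (On.noHi' (by decide)) (StpAll.nil (On.stR (fun y hy => (atB33 hy).far) cA_r2_33 hx (fun _ => rfl) (by decide))))
theorem neA33 {x : ℝ} (hx : Rng 536870912 50465866 x) : StpAll (fun t t' a => On PP tK tL Z0 x (3 : Fin 7) 3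
    (fun y X A L C => NearP (((1 : ℕ) : ℝ) / ((1 : ℕ) : ℝ)) x (mZ.v x) 3 y X A L C ((a : ℝ) / 1000)) fun y =>
      t ≤ h0 * y ∧ h0 * y ≤ t' + 3 / 100 ∧ 0 < crv PP (3 : Fin 7) 3 y ∧ crv PP (3 : Fin 7) 3 y ≤ 2 / 5) 1340 880 blA 1640 :=
  StpAll.cons (On.noHi' (by decide)) (StpAll.cons (On.noHi' (by decide)) (StpAll.nil (On.stN (fun y hy => (atB33 hy).far) cA_n2_33 hx (fun _ => rfl) (by decide))))
theorem hiA40 {x : ℝ} (hx : Rng 536870912 50465866 x) : StpAll (fun t t' a => On PP tK tL Z0 x (4 : Fin 7) 0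
    (fun y X A L C => HighP (((1 : ℕ) : ℝ) / ((1 : ℕ) : ℝ)) x (mZ.v x) 0 y X A L C ((a : ℝ) / 1000) Dw) fun y =>
      t ≤ h0 * y ∧ h0 * y ≤ t' + 3 / 100) 1700 800 hlA 1000 :=
  StpAll.cons (On.noLo (by norm_num) (by decide)) (StpAll.nil (On.noLo (by norm_num) (by decide)))
theorem faA40 {x : ℝ} (hx : Rng 536870912 50465866 x) : StpAll (fun t t' a => On PP tK tL Z0 x (4 : Fin 7) 0
    (fun y X A L C => FarP (((1 : ℕ) : ℝ) / ((1 : ℕ) : ℝ)) x (mZ.v x) 0 y X A L C ((a : ℝ) / 1000) Dw) fun y =>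
      t ≤ h0 * y ∧ h0 * y ≤ t' + 3 / 100 ∧ Dw ≤ crv PP (4 : Fin 7) 0 y) 1340 880 blA 1640 :=
  StpAll.cons (On.noLo (by norm_num) (by decide)) (StpAll.cons (On.noLo (by norm_num) (by decide)) (StpAll.nil (On.noLo (by norm_num) (by decide))))
theorem neA40 {x : ℝ} (hx : Rng 536870912 50465866 x) : StpAll (fun t t' a => On PP tK tL Z0 x (4 : Fin 7) 0
    (fun y X A L C => NearP (((1 : ℕ) : ℝ) / ((1 : ℕ) : ℝ)) x (mZ.v x) 0 y X A L C ((a : ℝ) / 1000)) fun y =>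
      t ≤ h0 * y ∧ h0 * y ≤ t' + 3 / 100 ∧ 0 < crv PP (4 : Fin 7) 0 y ∧ crv PP (4 : Fin 7) 0 y ≤ 2 / 5) 1340 880 blA 1640 :=
  StpAll.cons (On.noLo (by norm_num) (by decide)) (StpAll.cons (On.noLo (by norm_num) (by decide)) (StpAll.nil (On.noLo (by norm_num) (by decide))))
theorem hiA41 {x : ℝ} (hx : Rng 536870912 50465866 x) : StpAll (fun t t' a => On PP tK tL Z0 x (4 : Fin 7) 1
    (fun y X A L C => HighP (((1 : ℕ) : ℝ) / ((1 : ℕ) : ℝ)) x (mZ.v x) 1 y X A L C ((a : ℝ) / 1000) Dw) fun y =>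
      t ≤ h0 * y ∧ h0 * y ≤ t' + 3 / 100) 1700 800 hlA 1000 :=
  StpAll.cons (On.stH (fun y hy => (atB41 hy).far) cA_h0_41 hx (fun _ => rfl) (by decide)) (StpAll.nil (On.stH (fun y hy => (atB41 hy).far) cA_h1_41 hx (fun _ => rfl) (by decide)))
theorem faA41 {x : ℝ} (hx : Rng 536870912 50465866 x) : StpAll (fun t t' a => On PP tK tL Z0 x (4 : Fin 7) 1
    (fun y X A L C => FarP (((1 : ℕ) : ℝ) / ((1 : ℕ) : ℝ)) x (mZ.v x) 1 y X A L C ((a : ℝ) / 1000) Dw) fun y =>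
      t ≤ h0 * y ∧ h0 * y ≤ t' + 3 / 100 ∧ Dw ≤ crv PP (4 : Fin 7) 1 y) 1340 880 blA 1640 :=
  StpAll.cons (On.noLo (by norm_num) (by decide)) (StpAll.cons (On.noLo (by norm_num) (by decide)) (StpAll.nil (On.noLo (by norm_num) (by decide))))
theorem neA41 {x : ℝ} (hx : Rng 536870912 50465866 x) : StpAll (fun t t' a => On PP tK tL Z0 x (4 : Fin 7) 1
    (fun y X A L C => NearP (((1 : ℕ) : ℝ) / ((1 : ℕ) : ℝ)) x (mZ.v x) 1 y X A L C ((a : ℝ) / 1000)) fun y =>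
      t ≤ h0 * y ∧ h0 * y ≤ t' + 3 / 100 ∧ 0 < crv PP (4 : Fin 7) 1 y ∧ crv PP (4 : Fin 7) 1 y ≤ 2 / 5) 1340 880 blA 1640 :=
  StpAll.cons (On.noLo (by norm_num) (by decide)) (StpAll.cons (On.noLo (by norm_num) (by decide)) (StpAll.nil (On.noLo (by norm_num) (by decide))))
theorem hiA42 {x : ℝ} (hx : Rng 536870912 50465866 x) : StpAll (fun t t' a => On PP tK tL Z0 x (4 : Fin 7) 2
    (fun y X A L C => HighP (((1 : ℕ) : ℝ) / ((1 : ℕ) : ℝ)) x (mZ.v x) 2 y X A L C ((a : ℝ) / 1000) Dw) fun y =>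
      t ≤ h0 * y ∧ h0 * y ≤ t' + 3 / 100) 1700 800 hlA 1000 :=
  StpAll.cons (On.stH (fun y hy => (atB42 hy).far) cA_h0_42 hx (fun _ => rfl) (by decide)) (StpAll.nil (On.stH (fun y hy => (atB42 hy).far) cA_h1_42 hx (fun _ => rfl) (by decide)))
theorem faA42 {x : ℝ} (hx : Rng 536870912 50465866 x) : StpAll (fun t t' a => On PP tK tL Z0 x (4 : Fin 7) 2
    (fun y X A L C => FarP (((1 : ℕ) : ℝ) / ((1 : ℕ) : ℝ)) x (mZ.v x) 2 y X A L C ((a : ℝ) / 1000) Dw) fun y =>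
      t ≤ h0 * y ∧ h0 * y ≤ t' + 3 / 100 ∧ Dw ≤ crv PP (4 : Fin 7) 2 y) 1340 880 blA 1640 :=
  StpAll.cons (On.stR (fun y hy => (atB42 hy).far) cA_r0_42 hx (fun _ => rfl) (by decide)) (StpAll.cons (On.stR (fun y hy => (atB42 hy).far) cA_r1_42 hx (fun _ => rfl) (by decide)) (StpAll.nil (On.stR (fun y hy => (atB42 hy).far) cA_r2_42 hx (fun _ => rfl) (by decide))))
theorem neA42 {x : ℝ} (hx : Rng 536870912 50465866 x) : StpAll (fun t t' a => On PP tK tL Z0 x (4 : Fin 7) 2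
    (fun y X A L C => NearP (((1 : ℕ) : ℝ) / ((1 : ℕ) : ℝ)) x (mZ.v x) 2 y X A L C ((a : ℝ) / 1000)) fun y =>
      t ≤ h0 * y ∧ h0 * y ≤ t' + 3 / 100 ∧ 0 < crv PP (4 : Fin 7) 2 y ∧ crv PP (4 : Fin 7) 2 y ≤ 2 / 5) 1340 880 blA 1640 :=
  StpAll.cons (On.stN (fun y hy => (atB42 hy).far) cA_n0_42 hx (fun _ => rfl) (by decide)) (StpAll.cons (On.stN (fun y hy => (atB42 hy).far) cA_n1_42 hx (fun _ => rfl) (by decide)) (StpAll.nil (On.stN (fun y hy => (atB42 hy).far) cA_n2_42 hx (fun _ => rfl) (by decide))))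
theorem hiA43 {x : ℝ} (hx : Rng 536870912 50465866 x) : StpAll (fun t t' a => On PP tK tL Z0 x (4 : Fin 7) 3
    (fun y X A L C => HighP (((1 : ℕ) : ℝ) / ((1 : ℕ) : ℝ)) x (mZ.v x) 3 y X A L C ((a : ℝ) / 1000) Dw) fun y =>
      t ≤ h0 * y ∧ h0 * y ≤ t' + 3 / 100) 1700 800 hlA 1000 :=
  StpAll.cons (On.noHi (by decide)) (StpAll.nil (On.stHc covB43.far cA_h1_43 hx (fun _ => rfl) (by decide)))
theorem faA43 {x : ℝ} (hx : Rng 536870912 50465866 x) : StpAll (fun t t' a => On PP tK tL Z0 x (4 : Fin 7) 3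
    (fun y X A L C => FarP (((1 : ℕ) : ℝ) / ((1 : ℕ) : ℝ)) x (mZ.v x) 3 y X A L C ((a : ℝ) / 1000) Dw) fun y =>
      t ≤ h0 * y ∧ h0 * y ≤ t' + 3 / 100 ∧ Dw ≤ crv PP (4 : Fin 7) 3 y) 1340 880 blA 1640 :=
  StpAll.cons (On.noHi' (by decide)) (StpAll.cons (On.noHi' (by decide)) (StpAll.nil (On.stRc covB43.far cA_r2_43 hx (fun _ => rfl) (by decide))))
theorem neA43 {x : ℝ} (hx : Rng 536870912 50465866 x) : StpAll (fun t t' a => On PP tK tL Z0 x (4 : Fin 7) 3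
    (fun y X A L C => NearP (((1 : ℕ) : ℝ) / ((1 : ℕ) : ℝ)) x (mZ.v x) 3 y X A L C ((a : ℝ) / 1000)) fun y =>
      t ≤ h0 * y ∧ h0 * y ≤ t' + 3 / 100 ∧ 0 < crv PP (4 : Fin 7) 3 y ∧ crv PP (4 : Fin 7) 3 y ≤ 2 / 5) 1340 880 blA 1640 :=
  StpAll.cons (On.noHi' (by decide)) (StpAll.cons (On.noHi' (by decide)) (StpAll.nil (On.stNc covB43.far cA_n2_43 hx (fun _ => rfl) (by decide))))
theorem hiA50 {x : ℝ} (hx : Rng 536870912 50465866 x) : StpAll (fun t t' a => On PP tK tL Z0 x (5 : Fin 7) 0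
    (fun y X A L C => HighP (((1 : ℕ) : ℝ) / ((1 : ℕ) : ℝ)) x (mZ.v x) 0 y X A L C ((a : ℝ) / 1000) Dw) fun y =>
      t ≤ h0 * y ∧ h0 * y ≤ t' + 3 / 100) 1700 800 hlA 1000 :=
  StpAll.cons (On.noLo (by norm_num) (by decide)) (StpAll.nil (On.noLo (by norm_num) (by decide)))
theorem faA50 {x : ℝ} (hx : Rng 536870912 50465866 x) : StpAll (fun t t' a => On PP tK tL Z0 x (5 : Fin 7) 0
    (fun y X A L C => FarP (((1 : ℕ) : ℝ) / ((1 : ℕ) : ℝ)) x (mZ.v x) 0 y X A L C ((a : ℝ) / 1000) Dw) fun y =>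
      t ≤ h0 * y ∧ h0 * y ≤ t' + 3 / 100 ∧ Dw ≤ crv PP (5 : Fin 7) 0 y) 1340 880 blA 1640 :=
  StpAll.cons (On.noLo (by norm_num) (by decide)) (StpAll.cons (On.noLo (by norm_num) (by decide)) (StpAll.nil (On.noLo (by norm_num) (by decide))))
theorem neA50 {x : ℝ} (hx : Rng 536870912 50465866 x) : StpAll (fun t t' a => On PP tK tL Z0 x (5 : Fin 7) 0
    (fun y X A L C => NearP (((1 : ℕ) : ℝ) / ((1 : ℕ) : ℝ)) x (mZ.v x) 0 y X A L C ((a : ℝ) / 1000)) fun y =>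
      t ≤ h0 * y ∧ h0 * y ≤ t' + 3 / 100 ∧ 0 < crv PP (5 : Fin 7) 0 y ∧ crv PP (5 : Fin 7) 0 y ≤ 2 / 5) 1340 880 blA 1640 :=
  StpAll.cons (On.noLo (by norm_num) (by decide)) (StpAll.cons (On.noLo (by norm_num) (by decide)) (StpAll.nil (On.noLo (by norm_num) (by decide))))
theorem hiA51 {x : ℝ} (hx : Rng 536870912 50465866 x) : StpAll (fun t t' a => On PP tK tL Z0 x (5 : Fin 7) 1
    (fun y X A L C => HighP (((1 : ℕ) : ℝ) / ((1 : ℕ) : ℝ)) x (mZ.v x) 1 y X A L C ((a : ℝ) / 1000) Dw) fun y =>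
      t ≤ h0 * y ∧ h0 * y ≤ t' + 3 / 100) 1700 800 hlA 1000 :=
  StpAll.cons (On.stH (fun y hy => (atB51 hy).far) cA_h0_51 hx (fun _ => rfl) (by decide)) (StpAll.nil (On.stH (fun y hy => (atB51 hy).far) cA_h1_51 hx (fun _ => rfl) (by decide)))
theorem faA51 {x : ℝ} (hx : Rng 536870912 50465866 x) : StpAll (fun t t' a => On PP tK tL Z0 x (5 : Fin 7) 1
    (fun y X A L C => FarP (((1 : ℕ) : ℝ) / ((1 : ℕ) : ℝ)) x (mZ.v x) 1 y X A L C ((a : ℝ) / 1000) Dw) fun y =>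
      t ≤ h0 * y ∧ h0 * y ≤ t' + 3 / 100 ∧ Dw ≤ crv PP (5 : Fin 7) 1 y) 1340 880 blA 1640 :=
  StpAll.cons (On.noLo (by norm_num) (by decide)) (StpAll.cons (On.noLo (by norm_num) (by decide)) (StpAll.nil (On.noLo (by norm_num) (by decide))))
theorem neA51 {x : ℝ} (hx : Rng 536870912 50465866 x) : StpAll (fun t t' a => On PP tK tL Z0 x (5 : Fin 7) 1
    (fun y X A L C => NearP (((1 : ℕ) : ℝ) / ((1 : ℕ) : ℝ)) x (mZ.v x) 1 y X A L C ((a : ℝ) / 1000)) fun y =>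
      t ≤ h0 * y ∧ h0 * y ≤ t' + 3 / 100 ∧ 0 < crv PP (5 : Fin 7) 1 y ∧ crv PP (5 : Fin 7) 1 y ≤ 2 / 5) 1340 880 blA 1640 :=
  StpAll.cons (On.noLo (by norm_num) (by decide)) (StpAll.cons (On.noLo (by norm_num) (by decide)) (StpAll.nil (On.noLo (by norm_num) (by decide))))
theorem hiA52 {x : ℝ} (hx : Rng 536870912 50465866 x) : StpAll (fun t t' a => On PP tK tL Z0 x (5 : Fin 7) 2
    (fun y X A L C => HighP (((1 : ℕ) : ℝ) / ((1 : ℕ) : ℝ)) x (mZ.v x) 2 y X A L C ((a : ℝ) / 1000) Dw) fun y =>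
      t ≤ h0 * y ∧ h0 * y ≤ t' + 3 / 100) 1700 800 hlA 1000 :=
  StpAll.cons (On.stH (fun y hy => (atB52 hy).far) cA_h0_52 hx (fun _ => rfl) (by decide)) (StpAll.nil (On.stH (fun y hy => (atB52 hy).far) cA_h1_52 hx (fun _ => rfl) (by decide)))
theorem faA52 {x : ℝ} (hx : Rng 536870912 50465866 x) : StpAll (fun t t' a => On PP tK tL Z0 x (5 : Fin 7) 2
    (fun y X A L C => FarP (((1 : ℕ) : ℝ) / ((1 : ℕ) : ℝ)) x (mZ.v x) 2 y X A L C ((a : ℝ) / 1000) Dw) fun y =>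
      t ≤ h0 * y ∧ h0 * y ≤ t' + 3 / 100 ∧ Dw ≤ crv PP (5 : Fin 7) 2 y) 1340 880 blA 1640 :=
  StpAll.cons (On.stR (fun y hy => (atB52 hy).far) cA_r0_52 hx (fun _ => rfl) (by decide)) (StpAll.cons (On.stR (fun y hy => (atB52 hy).far) cA_r1_52 hx (fun _ => rfl) (by decide)) (StpAll.nil (On.stR (fun y hy => (atB52 hy).far) cA_r2_52 hx (fun _ => rfl) (by decide))))
theorem neA52 {x : ℝ} (hx : Rng 536870912 50465866 x) : StpAll (fun t t' a => On PP tK tL Z0 x (5 : Fin 7) 2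
    (fun y X A L C => NearP (((1 : ℕ) : ℝ) / ((1 : ℕ) : ℝ)) x (mZ.v x) 2 y X A L C ((a : ℝ) / 1000)) fun y =>
      t ≤ h0 * y ∧ h0 * y ≤ t' + 3 / 100 ∧ 0 < crv PP (5 : Fin 7) 2 y ∧ crv PP (5 : Fin 7) 2 y ≤ 2 / 5) 1340 880 blA 1640 :=
  StpAll.cons (On.stN (fun y hy => (atB52 hy).far) cA_n0_52 hx (fun _ => rfl) (by decide)) (StpAll.cons (On.stN (fun y hy => (atB52 hy).far) cA_n1_52 hx (fun _ => rfl) (by decide)) (StpAll.nil (On.stN (fun y hy => (atB52 hy).far) cA_n2_52 hx (fun _ => rfl) (by decide))))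
theorem hiA53 {x : ℝ} (hx : Rng 536870912 50465866 x) : StpAll (fun t t' a => On PP tK tL Z0 x (5 : Fin 7) 3
    (fun y X A L C => HighP (((1 : ℕ) : ℝ) / ((1 : ℕ) : ℝ)) x (mZ.v x) 3 y X A L C ((a : ℝ) / 1000) Dw) fun y =>
      t ≤ h0 * y ∧ h0 * y ≤ t' + 3 / 100) 1700 800 hlA 1000 :=
  StpAll.cons (On.noHi (by decide)) (StpAll.nil (On.stHc covB53.far cA_h1_53 hx (fun _ => rfl) (by decide)))
theorem faA53 {x : ℝ} (hx : Rng 536870912 50465866 x) : StpAll (fun t t' a => On PP tK tL Z0 x (5 : Fin 7) 3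
    (fun y X A L C => FarP (((1 : ℕ) : ℝ) / ((1 : ℕ) : ℝ)) x (mZ.v x) 3 y X A L C ((a : ℝ) / 1000) Dw) fun y =>
      t ≤ h0 * y ∧ h0 * y ≤ t' + 3 / 100 ∧ Dw ≤ crv PP (5 : Fin 7) 3 y) 1340 880 blA 1640 :=
  StpAll.cons (On.noHi' (by decide)) (StpAll.cons (On.noHi' (by decide)) (StpAll.nil (On.stRc covB53.far cA_r2_53 hx (fun _ => rfl) (by decide))))
theorem neA53 {x : ℝ} (hx : Rng 536870912 50465866 x) : StpAll (fun t t' a => On PP tK tL Z0 x (5 : Fin 7) 3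
    (fun y X A L C => NearP (((1 : ℕ) : ℝ) / ((1 : ℕ) : ℝ)) x (mZ.v x) 3 y X A L C ((a : ℝ) / 1000)) fun y =>
      t ≤ h0 * y ∧ h0 * y ≤ t' + 3 / 100 ∧ 0 < crv PP (5 : Fin 7) 3 y ∧ crv PP (5 : Fin 7) 3 y ≤ 2 / 5) 1340 880 blA 1640 :=
  StpAll.cons (On.noHi' (by decide)) (StpAll.cons (On.noHi' (by decide)) (StpAll.nil (On.stNc covB53.far cA_n2_53 hx (fun _ => rfl) (by decide))))
theorem hiA60 {x : ℝ} (hx : Rng 536870912 50465866 x) : StpAll (fun t t' a => On PP tK tL Z0 x (6 : Fin 7) 0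
    (fun y X A L C => HighP (((1 : ℕ) : ℝ) / ((1 : ℕ) : ℝ)) x (mZ.v x) 0 y X A L C ((a : ℝ) / 1000) Dw) fun y =>
      t ≤ h0 * y ∧ h0 * y ≤ t' + 3 / 100) 1700 800 hlA 1000 :=
  StpAll.cons (On.noLo (by norm_num) (by decide)) (StpAll.nil (On.noLo (by norm_num) (by decide)))
theorem faA60 {x : ℝ} (hx : Rng 536870912 50465866 x) : StpAll (fun t t' a => On PP tK tL Z0 x (6 : Fin 7) 0
    (fun y X A L C => FarP (((1 : ℕ) : ℝ) / ((1 : ℕ) : ℝ)) x (mZ.v x) 0 y X A L C ((a : ℝ) / 1000) Dw) fun y =>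
      t ≤ h0 * y ∧ h0 * y ≤ t' + 3 / 100 ∧ Dw ≤ crv PP (6 : Fin 7) 0 y) 1340 880 blA 1640 :=
  StpAll.cons (On.noLo (by norm_num) (by decide)) (StpAll.cons (On.noLo (by norm_num) (by decide)) (StpAll.nil (On.noLo (by norm_num) (by decide))))
theorem neA60 {x : ℝ} (hx : Rng 536870912 50465866 x) : StpAll (fun t t' a => On PP tK tL Z0 x (6 : Fin 7) 0
    (fun y X A L C => NearP (((1 : ℕ) : ℝ) / ((1 : ℕ) : ℝ)) x (mZ.v x) 0 y X A L C ((a : ℝ) / 1000)) fun y =>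
      t ≤ h0 * y ∧ h0 * y ≤ t' + 3 / 100 ∧ 0 < crv PP (6 : Fin 7) 0 y ∧ crv PP (6 : Fin 7) 0 y ≤ 2 / 5) 1340 880 blA 1640 :=
  StpAll.cons (On.noLo (by norm_num) (by decide)) (StpAll.cons (On.noLo (by norm_num) (by decide)) (StpAll.nil (On.noLo (by norm_num) (by decide))))
theorem hiA61 {x : ℝ} (hx : Rng 536870912 50465866 x) : StpAll (fun t t' a => On PP tK tL Z0 x (6 : Fin 7) 1
    (fun y X A L C => HighP (((1 : ℕ) : ℝ) / ((1 : ℕ) : ℝ)) x (mZ.v x) 1 y X A L C ((a : ℝ) / 1000) Dw) fun y =>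
      t ≤ h0 * y ∧ h0 * y ≤ t' + 3 / 100) 1700 800 hlA 1000 :=
  StpAll.cons (On.stH (fun y hy => (atB61 hy).far) cA_h0_61 hx (fun _ => rfl) (by decide)) (StpAll.nil (On.stH (fun y hy => (atB61 hy).far) cA_h1_61 hx (fun _ => rfl) (by decide)))
theorem faA61 {x : ℝ} (hx : Rng 536870912 50465866 x) : StpAll (fun t t' a => On PP tK tL Z0 x (6 : Fin 7) 1
    (fun y X A L C => FarP (((1 : ℕ) : ℝ) / ((1 : ℕ) : ℝ)) x (mZ.v x) 1 y X A L C ((a : ℝ) / 1000) Dw) fun y =>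
      t ≤ h0 * y ∧ h0 * y ≤ t' + 3 / 100 ∧ Dw ≤ crv PP (6 : Fin 7) 1 y) 1340 880 blA 1640 :=
  StpAll.cons (On.noLo (by norm_num) (by decide)) (StpAll.cons (On.noLo (by norm_num) (by decide)) (StpAll.nil (On.noLo (by norm_num) (by decide))))
theorem neA61 {x : ℝ} (hx : Rng 536870912 50465866 x) : StpAll (fun t t' a => On PP tK tL Z0 x (6 : Fin 7) 1
    (fun y X A L C => NearP (((1 : ℕ) : ℝ) / ((1 : ℕ) : ℝ)) x (mZ.v x) 1 y X A L C ((a : ℝ) / 1000)) fun y =>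
      t ≤ h0 * y ∧ h0 * y ≤ t' + 3 / 100 ∧ 0 < crv PP (6 : Fin 7) 1 y ∧ crv PP (6 : Fin 7) 1 y ≤ 2 / 5) 1340 880 blA 1640 :=
  StpAll.cons (On.noLo (by norm_num) (by decide)) (StpAll.cons (On.noLo (by norm_num) (by decide)) (StpAll.nil (On.noLo (by norm_num) (by decide))))
theorem hiA62 {x : ℝ} (hx : Rng 536870912 50465866 x) : StpAll (fun t t' a => On PP tK tL Z0 x (6 : Fin 7) 2
    (fun y X A L C => HighP (((1 : ℕ) : ℝ) / ((1 : ℕ) : ℝ)) x (mZ.v x) 2 y X A L C ((a : ℝ) / 1000) Dw) fun y =>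
      t ≤ h0 * y ∧ h0 * y ≤ t' + 3 / 100) 1700 800 hlA 1000 :=
  StpAll.cons (On.stH (fun y hy => (atB62 hy).far) cA_h0_62 hx (fun _ => rfl) (by decide)) (StpAll.nil (On.stH (fun y hy => (atB62 hy).far) cA_h1_62 hx (fun _ => rfl) (by decide)))
theorem faA62 {x : ℝ} (hx : Rng 536870912 50465866 x) : StpAll (fun t t' a => On PP tK tL Z0 x (6 : Fin 7) 2
    (fun y X A L C => FarP (((1 : ℕ) : ℝ) / ((1 : ℕ) : ℝ)) x (mZ.v x) 2 y X A L C ((a : ℝ) / 1000) Dw) fun y =>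
      t ≤ h0 * y ∧ h0 * y ≤ t' + 3 / 100 ∧ Dw ≤ crv PP (6 : Fin 7) 2 y) 1340 880 blA 1640 :=
  StpAll.cons (On.stR (fun y hy => (atB62 hy).far) cA_r0_62 hx (fun _ => rfl) (by decide)) (StpAll.cons (On.stR (fun y hy => (atB62 hy).far) cA_r1_62 hx (fun _ => rfl) (by decide)) (StpAll.nil (On.stR (fun y hy => (atB62 hy).far) cA_r2_62 hx (fun _ => rfl) (by decide))))
theorem neA62 {x : ℝ} (hx : Rng 536870912 50465866 x) : StpAll (fun t t' a => On PP tK tL Z0 x (6 : Fin 7) 2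
    (fun y X A L C => NearP (((1 : ℕ) : ℝ) / ((1 : ℕ) : ℝ)) x (mZ.v x) 2 y X A L C ((a : ℝ) / 1000)) fun y =>
      t ≤ h0 * y ∧ h0 * y ≤ t' + 3 / 100 ∧ 0 < crv PP (6 : Fin 7) 2 y ∧ crv PP (6 : Fin 7) 2 y ≤ 2 / 5) 1340 880 blA 1640 :=
  StpAll.cons (On.stN (fun y hy => (atB62 hy).far) cA_n0_62 hx (fun _ => rfl) (by decide)) (StpAll.cons (On.stN (fun y hy => (atB62 hy).far) cA_n1_62 hx (fun _ => rfl) (by decide)) (StpAll.nil (On.stN (fun y hy => (atB62 hy).far) cA_n2_62 hx (fun _ => rfl) (by decide))))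
theorem hiA63 {x : ℝ} (hx : Rng 536870912 50465866 x) : StpAll (fun t t' a => On PP tK tL Z0 x (6 : Fin 7) 3
    (fun y X A L C => HighP (((1 : ℕ) : ℝ) / ((1 : ℕ) : ℝ)) x (mZ.v x) 3 y X A L C ((a : ℝ) / 1000) Dw) fun y =>
      t ≤ h0 * y ∧ h0 * y ≤ t' + 3 / 100) 1700 800 hlA 1000 :=
  StpAll.cons (On.noHi (by decide)) (StpAll.nil (On.stHc covB63.far cA_h1_63 hx (fun _ => rfl) (by decide)))
theorem faA63 {x : ℝ} (hx : Rng 536870912 50465866 x) : StpAll (fun t t' a => On PP tK tL Z0 x (6 : Fin 7) 3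
    (fun y X A L C => FarP (((1 : ℕ) : ℝ) / ((1 : ℕ) : ℝ)) x (mZ.v x) 3 y X A L C ((a : ℝ) / 1000) Dw) fun y =>
      t ≤ h0 * y ∧ h0 * y ≤ t' + 3 / 100 ∧ Dw ≤ crv PP (6 : Fin 7) 3 y) 1340 880 blA 1640 :=
  StpAll.cons (On.noHi' (by decide)) (StpAll.cons (On.noHi' (by decide)) (StpAll.nil (On.stRc covB63.far cA_r2_63 hx (fun _ => rfl) (by decide))))
theorem neA63 {x : ℝ} (hx : Rng 536870912 50465866 x) : StpAll (fun t t' a => On PP tK tL Z0 x (6 : Fin 7) 3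
    (fun y X A L C => NearP (((1 : ℕ) : ℝ) / ((1 : ℕ) : ℝ)) x (mZ.v x) 3 y X A L C ((a : ℝ) / 1000)) fun y =>
      t ≤ h0 * y ∧ h0 * y ≤ t' + 3 / 100 ∧ 0 < crv PP (6 : Fin 7) 3 y ∧ crv PP (6 : Fin 7) 3 y ≤ 2 / 5) 1340 880 blA 1640 :=
  StpAll.cons (On.noHi' (by decide)) (StpAll.cons (On.noHi' (by decide)) (StpAll.nil (On.stNc covB63.far cA_n2_63 hx (fun _ => rfl) (by decide))))
theorem fzA0 {x : ℝ} (hx : Rng 536870912 50465866 x) : StpAll (fun t t' a => OnT (fun q => (pcB q).K.v) (fun q => (pcB q).L.v) (fun _ _ _ _ => 0) x 0 (fun _ => Dw)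
    (fun y X A L C => FarP (((1 : ℕ) : ℝ) / ((1 : ℕ) : ℝ)) x (mZ.v x) 0 y X A L C ((a : ℝ) / 1000) Dw) fun y =>
      t ≤ h0 * y ∧ h0 * y ≤ t' + 3 / 100 ∧ qqn Dw y ≤ 3) 1340 880 blA 1640 :=
  StpAll.cons (OnT.noLo (by norm_num) (by decide)) (StpAll.cons (OnT.noLo (by norm_num) (by decide)) (StpAll.nil (OnT.noLo (by norm_num) (by decide))))
theorem nzA0 {x : ℝ} (hx : Rng 536870912 50465866 x) : StpAll (fun t t' a => OnT (fun q => (pcB q).K.v) (fun q => (pcB q).L.v) (fun _ _ _ _ => 0) x 0 (fun _ => 2 / 5)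
    (fun y X A L C => NearP (((1 : ℕ) : ℝ) / ((1 : ℕ) : ℝ)) x (mZ.v x) 0 y X A L C ((a : ℝ) / 1000)) fun y =>
      t ≤ h0 * y ∧ h0 * y ≤ t' + 3 / 100 ∧ 1 ≤ qqn (2 / 5) y) 1340 880 blA 1640 :=
  StpAll.cons (OnT.noLo (by norm_num) (by decide)) (StpAll.cons (OnT.noLo (by norm_num) (by decide)) (StpAll.nil (OnT.noLo (by norm_num) (by decide))))
theorem fzA1 {x : ℝ} (hx : Rng 536870912 50465866 x) : StpAll (fun t t' a => OnT (fun q => (pcB q).K.v) (fun q => (pcB q).L.v) (fun _ _ _ _ => 0) x 1 (fun _ => Dw)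
    (fun y X A L C => FarP (((1 : ℕ) : ℝ) / ((1 : ℕ) : ℝ)) x (mZ.v x) 1 y X A L C ((a : ℝ) / 1000) Dw) fun y =>
      t ≤ h0 * y ∧ h0 * y ≤ t' + 3 / 100 ∧ qqn Dw y ≤ 3) 1340 880 blA 1640 :=
  StpAll.cons (OnT.noLo (by norm_num) (by decide)) (StpAll.cons (OnT.noLo (by norm_num) (by decide)) (StpAll.nil (OnT.noLo (by norm_num) (by decide))))
theorem nzA1 {x : ℝ} (hx : Rng 536870912 50465866 x) : StpAll (fun t t' a => OnT (fun q => (pcB q).K.v) (fun q => (pcB q).L.v) (fun _ _ _ _ => 0) x 1 (fun _ => 2 / 5)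
    (fun y X A L C => NearP (((1 : ℕ) : ℝ) / ((1 : ℕ) : ℝ)) x (mZ.v x) 1 y X A L C ((a : ℝ) / 1000)) fun y =>
      t ≤ h0 * y ∧ h0 * y ≤ t' + 3 / 100 ∧ 1 ≤ qqn (2 / 5) y) 1340 880 blA 1640 :=
  StpAll.cons (OnT.noLo (by norm_num) (by decide)) (StpAll.cons (OnT.noLo (by norm_num) (by decide)) (StpAll.nil (OnT.noLo (by norm_num) (by decide))))
theorem fzA2 {x : ℝ} (hx : Rng 536870912 50465866 x) : StpAll (fun t t' a => OnT (fun q => (pcB q).K.v) (fun q => (pcB q).L.v) (fun _ _ _ _ => 0) x 2 (fun _ => Dw)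
    (fun y X A L C => FarP (((1 : ℕ) : ℝ) / ((1 : ℕ) : ℝ)) x (mZ.v x) 2 y X A L C ((a : ℝ) / 1000) Dw) fun y =>
      t ≤ h0 * y ∧ h0 * y ≤ t' + 3 / 100 ∧ qqn Dw y ≤ 3) 1340 880 blA 1640 :=
  StpAll.cons (OnT.stR (pc := pcB2) (c := dZ) cA_R0_2 hx (fun _ _ => rfl) (fun _ _ => rfl)
    (fun _ _ => rfl) (fun _ _ => rfl) (by decide) (by decide)) (StpAll.cons (OnT.stR (pc := pcB2) (c := dZ) cA_R1_2 hx (fun _ _ => rfl) (fun _ _ => rfl)
    (fun _ _ => rfl) (fun _ _ => rfl) (by decide) (by decide)) (StpAll.nil (OnT.stR (pc := pcB2) (c := dZ) cA_R2_2 hx (fun _ _ => rfl) (fun _ _ => rfl)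
    (fun _ _ => rfl) (fun _ _ => rfl) (by decide) (by decide))))
theorem nzA2 {x : ℝ} (hx : Rng 536870912 50465866 x) : StpAll (fun t t' a => OnT (fun q => (pcB q).K.v) (fun q => (pcB q).L.v) (fun _ _ _ _ => 0) x 2 (fun _ => 2 / 5)
    (fun y X A L C => NearP (((1 : ℕ) : ℝ) / ((1 : ℕ) : ℝ)) x (mZ.v x) 2 y X A L C ((a : ℝ) / 1000)) fun y =>
      t ≤ h0 * y ∧ h0 * y ≤ t' + 3 / 100 ∧ 1 ≤ qqn (2 / 5) y) 1340 880 blA 1640 :=
  StpAll.cons (OnT.stN (pc := pcB2) (c := dZ) cA_N0_2 hx (fun _ _ => rfl) (fun _ _ => rfl)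
    (fun _ _ => rfl) (fun _ _ => rfl) (by decide) (by decide)) (StpAll.cons (OnT.stN (pc := pcB2) (c := dZ) cA_N1_2 hx (fun _ _ => rfl) (fun _ _ => rfl)
    (fun _ _ => rfl) (fun _ _ => rfl) (by decide) (by decide)) (StpAll.nil (OnT.stN (pc := pcB2) (c := dZ) cA_N2_2 hx (fun _ _ => rfl) (fun _ _ => rfl)
    (fun _ _ => rfl) (fun _ _ => rfl) (by decide) (by decide))))
theorem fzA3 {x : ℝ} (hx : Rng 536870912 50465866 x) : StpAll (fun t t' a => OnT (fun q => (pcB q).K.v) (fun q => (pcB q).L.v) (fun _ _ _ _ => 0) x 3 (fun _ => Dw)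
    (fun y X A L C => FarP (((1 : ℕ) : ℝ) / ((1 : ℕ) : ℝ)) x (mZ.v x) 3 y X A L C ((a : ℝ) / 1000) Dw) fun y =>
      t ≤ h0 * y ∧ h0 * y ≤ t' + 3 / 100 ∧ qqn Dw y ≤ 3) 1340 880 blA 1640 :=
  StpAll.cons (OnT.noHi (by decide)) (StpAll.cons (OnT.noHi (by decide)) (StpAll.nil (OnT.stR (pc := pcB3) (c := dZ) cA_R2_3 hx (fun _ _ => rfl) (fun _ _ => rfl)
    (fun _ _ => rfl) (fun _ _ => rfl) (by decide) (by decide))))
theorem nzA3 {x : ℝ} (hx : Rng 536870912 50465866 x) : StpAll (fun t t' a => OnT (fun q => (pcB q).K.v) (fun q => (pcB q).L.v) (fun _ _ _ _ => 0) x 3 (fun _ => 2 / 5)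
    (fun y X A L C => NearP (((1 : ℕ) : ℝ) / ((1 : ℕ) : ℝ)) x (mZ.v x) 3 y X A L C ((a : ℝ) / 1000)) fun y =>
      t ≤ h0 * y ∧ h0 * y ≤ t' + 3 / 100 ∧ 1 ≤ qqn (2 / 5) y) 1340 880 blA 1640 :=
  StpAll.cons (OnT.noHi (by decide)) (StpAll.cons (OnT.noHi (by decide)) (StpAll.nil (OnT.stN (pc := pcB3) (c := dZ) cA_N2_3 hx (fun _ _ => rfl) (fun _ _ => rfl)
    (fun _ _ => rfl) (fun _ _ => rfl) (by decide) (by decide))))
theorem fvA {x : ℝ} (hx : Rng 536870912 50465866 x) : FV PP x (mZ.v x) (((1 : ℕ) : ℝ) / ((1 : ℕ) : ℝ)) (fun _ => 0) (tbl tK x)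
    (tbl tL x) (fun _ _ => 0) tK tL Z0 (fun q => (pcB q).K.v) (fun q => (pcB q).L.v) (fun _ _ _ _ => 0) :=
  FV.two (rng_pos hx (by norm_num)) (rng_lt hx (by norm_num)) le_rfl (sideB hx.1 hx.2).linkK
    (sideB hx.1 hx.2).linkL
theorem hsA {x : ℝ} (hx : Rng 536870912 50465866 x) : ∀ y : ℝ, 1 ≤ y → h0 * y ≤ 1 → GV PP x (mZ.v x)
    (tbl tK x) (tbl tL x) (fun _ _ => 0) (fun _ => 0) 2 y (1 - G y) := by
  have x0 := rng_pos hx (by norm_num)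
  have x1 := rng_lt hx (by norm_num)
  have V := fvA hx
  have bK : En x * ndB3q2.K.v 1 x = (En x + mZ.v x * Qn x) * (1 / 2) := bK_far (corB32 x).2.1
  have pK0 : tK (3 : Fin 7) 2 1 x = tK 0 2 1 x := (pinK hx.1 hx.2).mid _ (le_of_eq_of_le (show PP.ρ (3 : Fin 7) = 4 / 5 from rfl) (by norm_num))
  have pL : tL (3 : Fin 7) 2 1 x = tL 0 2 1 x := (pinL hx.1 hx.2).mid _ (le_of_eq_of_le (show PP.ρ (3 : Fin 7) = 4 / 5 from rfl) (by norm_num))
  exact V.steepZ (i := (3 : Fin 6)) (jl := (3 : Fin 7)) (jr := (4 : Fin 7)) (by norm_num) rfl rfl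
    (by decide) (fun y hy => (atB32 hy).toAt) (fun y hy => (atB42 hy).toAt) (corB32 x).1 bK (corB32 x).2.2.1 pK0 pL
    (pc := pcB2) (fun _ _ => rfl) (fun _ _ => rfl) cA_st cA_sm cA_sw hx (by norm_num) (by norm_num)
    (by norm_num)
theorem winA {x : ℝ} (hx : Rng 536870912 50465866 x) : WinN PP x (mZ.v x) (((1 : ℕ) : ℝ) / ((1 : ℕ) : ℝ)) (fun _ => 0) (tbl tK x) (tbl tL x) (fun _ _ => 0)
    tK tL (smT h0⁻¹ Z0) (fun q => (pcB q).K.v) (fun q => (pcB q).L.v) (fun q X y x => h0⁻¹ * (fun _ _ _ _ => (0 : ℝ)) q X y x)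
    Dw (stp hlA 1000) (stp blA 1640) := by
  refine (fvA hx).winN ?_ ?_ ?_ (hsA hx) ?_ ?_ (by norm_num [Dw]) (by norm_num [Dw]) ?_ ?_ ?_ ?_ ?_ ?_ ?_
  · exact fun j => match j with
    | 0 => (onA00 hx).imp fun _ _ _ => trivial
    | 1 => (onA10 hx).imp fun _ _ _ => trivial
    | 2 => (onA20 hx).imp fun _ _ _ => trivial
    | 3 => (onA30 hx).imp fun _ _ _ => trivial
    | 4 => (onA40 hx)
    | 5 => (onA50 hx)
    | 6 => (onA60 hx)
  · exact fun j => match j with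
    | 0 => onA01 hx
    | 1 => onA11 hx
    | 2 => onA21 hx
    | 3 => onA31 hx
    | 4 => onA41 hx
    | 5 => onA51 hx
    | 6 => onA61 hx
  · exact fun j => match j with
    | 0 => fun h => absurd h (not_lt.2 (le_of_eq_of_le (show PP.ρ (0 : Fin 7) = 0 from rfl) (by norm_num)))
    | 1 => fun h => absurd h (not_lt.2 (le_of_eq_of_le (show PP.ρ (1 : Fin 7) = 3 / 25 from rfl) (by norm_num)))
    | 2 => fun h => absurd h (not_lt.2 (le_of_eq_of_le (show PP.ρ (2 : Fin 7) = 2 / 5 from rfl) (by norm_num)))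
    | 3 => fun h => absurd h (not_lt.2 (le_of_eq_of_le (show PP.ρ (3 : Fin 7) = 4 / 5 from rfl) (by norm_num)))
    | 4 => fun _ => onA42 hx
    | 5 => fun _ => onA52 hx
    | 6 => fun _ => onA62 hx
  · exact fun j => match j with
    | 0 => flA0 hx
    | 1 => flA1 hx
    | 2 => flA2 hx
    | 3 => flA3 hx
    | 4 => flA4 hx
    | 5 => flA5 hx
    | 6 => flA6 hx
  · exact fun j => match j with
    | 0 => (onA00 hx).imp fun _ _ _ => trivial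
    | 1 => (onA10 hx).imp fun _ _ _ => trivial
    | 2 => (onA20 hx).imp fun _ _ _ => trivial
    | 3 => (onA30 hx).imp fun _ _ _ => trivial
    | 4 => leA4 hx
    | 5 => leA5 hx
    | 6 => leA6 hx
  · exact OnT.left0 (pc := pcB0) (c := dZ) cA_ll hx (fun _ _ => rfl) (fun _ _ => rfl) (fun _ _ => rfl)
      (fun _ _ => rfl)
  · exact fun j q => match q with
    | 0 => match j with
      | 0 => hiA00 hx
      | 1 => hiA10 hx
      | 2 => hiA20 hx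
      | 3 => hiA30 hx
      | 4 => hiA40 hx
      | 5 => hiA50 hx
      | 6 => hiA60 hx
    | 1 => match j with
      | 0 => hiA01 hx
      | 1 => hiA11 hx
      | 2 => hiA21 hx
      | 3 => hiA31 hx
      | 4 => hiA41 hx
      | 5 => hiA51 hx
      | 6 => hiA61 hx
    | 2 => match j with
      | 0 => hiA02 hx
      | 1 => hiA12 hx
      | 2 => hiA22 hx
      | 3 => hiA32 hx
      | 4 => hiA42 hx
      | 5 => hiA52 hx
      | 6 => hiA62 hx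
    | 3 => match j with
      | 0 => hiA03 hx
      | 1 => hiA13 hx
      | 2 => hiA23 hx
      | 3 => hiA33 hx
      | 4 => hiA43 hx
      | 5 => hiA53 hx
      | 6 => hiA63 hx
    | q + 4 => StpAll.all fun _ _ _ => On.qbig q
  · exact high0_of (StpAll.cons (Or.inl (by norm_num)) (StpAll.nil (Or.inr (by norm_num [Dw]))))
  · exact fun j q => match q with
    | 0 => match j with
      | 0 => faA00 hx
      | 1 => faA10 hx
      | 2 => faA20 hx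
      | 3 => faA30 hx
      | 4 => faA40 hx
      | 5 => faA50 hx
      | 6 => faA60 hx
    | 1 => match j with
      | 0 => faA01 hx
      | 1 => faA11 hx
      | 2 => faA21 hx
      | 3 => faA31 hx
      | 4 => faA41 hx
      | 5 => faA51 hx
      | 6 => faA61 hx
    | 2 => match j with
      | 0 => faA02 hx
      | 1 => faA12 hx
      | 2 => faA22 hx
      | 3 => faA32 hx
      | 4 => faA42 hx
      | 5 => faA52 hx
      | 6 => faA62 hx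
    | 3 => match j with
      | 0 => faA03 hx
      | 1 => faA13 hx
      | 2 => faA23 hx
      | 3 => faA33 hx
      | 4 => faA43 hx
      | 5 => faA53 hx
      | 6 => faA63 hx
    | q + 4 => StpAll.all fun _ _ _ => On.qbig q
  · exact fun q => match q with
    | 0 => fzA0 hx
    | 1 => fzA1 hx
    | 2 => fzA2 hx
    | 3 => fzA3 hx
    | q + 4 => StpAll.all fun _ _ _ => OnT.qbig q
  · exact fun j q => match q with
    | 0 => match j with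
      | 0 => neA00 hx
      | 1 => neA10 hx
      | 2 => neA20 hx
      | 3 => neA30 hx
      | 4 => neA40 hx
      | 5 => neA50 hx
      | 6 => neA60 hx
    | 1 => match j with
      | 0 => neA01 hx
      | 1 => neA11 hx
      | 2 => neA21 hx
      | 3 => neA31 hx
      | 4 => neA41 hx
      | 5 => neA51 hx
      | 6 => neA61 hx
    | 2 => match j with
      | 0 => neA02 hx
      | 1 => neA12 hx
      | 2 => neA22 hx
      | 3 => neA32 hx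
      | 4 => neA42 hx
      | 5 => neA52 hx
      | 6 => neA62 hx
    | 3 => match j with
      | 0 => neA03 hx
      | 1 => neA13 hx
      | 2 => neA23 hx
      | 3 => neA33 hx
      | 4 => neA43 hx
      | 5 => neA53 hx
      | 6 => neA63 hx
    | q + 4 => StpAll.all fun _ _ _ => On.qbig q
  · exact fun q => match q with
    | 0 => nzA0 hx
    | 1 => nzA1 hx
    | 2 => nzA2 hx
    | 3 => nzA3 hx
    | q + 4 => StpAll.all fun _ _ _ => OnT.qbig q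

end Pool.Agent.Strip051.G.I5000_5470.Tab
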