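import Pool.Agent.Strip051.PB.FlAsmX
import Pool.Agent.Strip051.G.I5000_5470.Tab

/-! # Slopes (generated) -/

set_option linter.all false

namespace Pool.Agent.Strip051.G.I5000_5470.Tab

open Pool.Agent.Strip051.PB

attribute [local irreducible] padd psub pneg pmul psq pinv psqrt psqrtg pabs pps pmax pmin pphi
  plam pcase phf pnat prat pscale pnorm pdc pnc pone ppos pnn

noncomputable def c1g_fs : Sl1 c1g := ⟨_, fun h1 => (pr_sqrtg (pr_csub (enc_pnc _ 1) (pr_scale 3 4 (pr_sq h1))))⟩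
noncomputable def kcg_6_fs : Sl2 kcg_6 := ⟨_, fun h1 h2 => (pr_addc h1 (enc_rat _ 1 4))⟩
noncomputable def kcg_9_fs : Sl2 kcg_9 := ⟨_, fun h1 h2 => (pr_addc h1 (enc_rat _ 2 5))⟩
noncomputable def kcg_12_fs : Sl2 kcg_12 := ⟨_, fun h1 h2 => (pr_addc h1 (enc_rat _ 9 20))⟩
noncomputable def kcg_13_fs : Sl2 kcg_13 := ⟨_, fun h1 h2 => (pr_scale 937 2000 h1)⟩
noncomputable def kcg_16_fs : Sl2 kcg_16 := ⟨_, fun h1 h2 => (pr_scale 187383 125000 h1)⟩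
noncomputable def kcg_36_fs : Sl2 kcg_36 := ⟨_, fun h1 h2 => (pr_scale 5448513 5000000 h1)⟩
noncomputable def kcg_41_fs : Sl2 kcg_41 := ⟨_, fun h1 h2 => (pr_scale 181 500000 h1)⟩
noncomputable def kcg_61_fs : Sl2 kcg_61 := ⟨_, fun h1 h2 => (pr_addc h1 (enc_rat _ 7 20))⟩
noncomputable def kcg_62_fs : Sl2 kcg_62 := ⟨_, fun h1 h2 => (pr_scale 14471963 5000000 h1)⟩
noncomputable def kcg_67_fs : Sl2 kcg_67 := ⟨_, fun h1 h2 => (pr_scale 237033 500000 h1)⟩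
noncomputable def kcg_85_fs : Sl2 kcg_85 := ⟨_, fun h1 h2 => (pr_addc h1 (enc_rat _ 3 10))⟩
noncomputable def kcg_86_fs : Sl2 kcg_86 := ⟨_, fun h1 h2 => (pr_scale 11841387 5000000 h1)⟩
noncomputable def kcg_91_fs : Sl2 kcg_91 := ⟨_, fun h1 h2 => (pr_scale 3 100000 h1)⟩
noncomputable def kcg_107_fs : Sl2 kcg_107 := ⟨_, fun h1 h2 => (pr_scale 705457 5000000 h1)⟩
noncomputable def kcg_111_fs : Sl2 kcg_111 := ⟨_, fun h1 h2 => (pr_scale 59261 125000 h1)⟩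
noncomputable def kcg_134_fs : Sl2 kcg_134 := ⟨_, fun h1 h2 => (pr_addc h1 (enc_rat _ 3 20))⟩
noncomputable def kcg_137_fs : Sl2 kcg_137 := ⟨_, fun h1 h2 => (pr_addc h1 (enc_rat _ 1 5))⟩
noncomputable def kcg_138_fs : Sl2 kcg_138 := ⟨_, fun h1 h2 => (pr_scale 7827703 5000000 h1)⟩
noncomputable def kcg_141_fs : Sl2 kcg_141 := ⟨_, fun h1 h2 => (pr_scale 127 250000 h1)⟩
noncomputable def kcg_158_fs : Sl2 kcg_158 := ⟨_, fun h1 h2 => (pr_scale 4777917 5000000 h1)⟩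
noncomputable def kcg_161_fs : Sl2 kcg_161 := ⟨_, fun h1 h2 => (pr_scale 1 500000 h1)⟩
noncomputable def kcg_179_fs : Sl2 kcg_179 := ⟨_, fun h1 h2 => (pr_addc h1 (enc_rat _ 1 10))⟩
noncomputable def kcg_180_fs : Sl2 kcg_180 := ⟨_, fun h1 h2 => (pr_scale 123607 2500000 h1)⟩
noncomputable def kcg_185_fs : Sl2 kcg_185 := ⟨_, fun h1 h2 => (pr_scale 2499737 500000 h1)⟩
noncomputable def kcg_203_fs : Sl2 kcg_203 := ⟨_, fun h1 h2 => (pr_scale 243153 1250000 h1)⟩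
noncomputable def kcg_207_fs : Sl2 kcg_207 := ⟨_, fun h1 h2 => (pr_scale 2499997 500000 h1)⟩
noncomputable def kcg_221_fs : Sl2 kcg_221 := ⟨_, fun h1 h2 => (pr_scale 3525793 5000000 h1)⟩
noncomputable def kcg_228_fs : Sl2 kcg_228 := ⟨_, fun h1 h2 => (pr_csub (enc_rat _ 1 4) h1)⟩
noncomputable def kcg_229_fs : Sl2 kcg_229 := ⟨_, fun h1 h2 => (pr_csub (enc_rat _ 2 5) h1)⟩
noncomputable def kcg_230_fs : Sl2 kcg_230 := ⟨_, fun h1 h2 => (pr_csub (enc_rat _ 9 20) h1)⟩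
noncomputable def kcg_250_fs : Sl2 kcg_250 := ⟨_, fun h1 h2 => (pr_csub (enc_rat _ 7 20) h1)⟩
noncomputable def kcg_260_fs : Sl2 kcg_260 := ⟨_, fun h1 h2 => (pr_csub (enc_rat _ 3 10) h1)⟩
noncomputable def kcg_281_fs : Sl2 kcg_281 := ⟨_, fun h1 h2 => (pr_csub (enc_rat _ 3 20) h1)⟩
noncomputable def kcg_282_fs : Sl2 kcg_282 := ⟨_, fun h1 h2 => (pr_csub (enc_rat _ 1 5) h1)⟩
noncomputable def kcg_303_fs : Sl2 kcg_303 := ⟨_, fun h1 h2 => (pr_csub (enc_rat _ 1 10) h1)⟩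
noncomputable def kcg_fs : Sl2 kcg := ⟨_, fun h1 h2 => (pr_norm (pr_case h1 (pr_case (kcg_6_fs.snd h1 h2) (pr_case (kcg_9_fs.snd h1 h2) (pr_case (kcg_12_fs.snd h1 h2) (pr_add (pr_add (pr_addc (kcg_13_fs.snd h1 h2) (enc_rat _ 7056419 20000000)) (pr_cmul (enc_norm (kcg_3.enc h1.l h2)) (pr_norm (pr_subr 367049 312500 (pr_neg (kcg_16_fs.snd h1 h2)))))) (pr_cmul (enc_norm (kcg_28.enc h1.l h2)) (pr_norm (pr_mul (pr_norm (pr_addc h1 (enc_rat _ 1 2))) (pr_norm (pr_csub (enc_neg (enc_rat _ 9 20)) h1)))))) (pr_add (pr_add (pr_subr 17418511 50000000 (pr_neg (kcg_36_fs.snd h1 h2))) (pr_cmul (enc_norm (kcg_3.enc h1.l h2)) (pr_norm (pr_subr 5001409 10000000 (pr_neg (kcg_41_fs.snd h1 h2)))))) (pr_cmul (enc_norm (kcg_53.enc h1.l h2)) (pr_norm (pr_mul (pr_norm (kcg_12_fs.snd h1 h2)) (pr_norm (pr_csub (enc_neg (enc_rat _ 2 5)) h1))))))) (pr_case (kcg_61_fs.snd h1 h2) (pr_add (pr_add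 (pr_subr 53512311 50000000 (pr_neg (kcg_62_fs.snd h1 h2))) (pr_cmul (enc_norm (kcg_3.enc h1.l h2)) (pr_norm (pr_subr 3103697 10000000 (kcg_67_fs.snd h1 h2))))) (pr_cmul (enc_norm (kcg_78.enc h1.l h2)) (pr_norm (pr_mul (pr_norm (kcg_9_fs.snd h1 h2)) (pr_norm (pr_csub (enc_neg (enc_rat _ 7 20)) h1)))))) (pr_case (kcg_85_fs.snd h1 h2) (pr_add (pr_add (pr_subr 8861059 10000000 (pr_neg (kcg_86_fs.snd h1 h2))) (pr_cmul (enc_norm (kcg_3.enc h1.l h2)) (pr_norm (pr_subr 4763033 10000000 (pr_neg (kcg_91_fs.snd h1 h2)))))) (pr_cmul (enc_norm (kcg_102.enc h1.l h2)) (pr_norm (pr_mul (pr_norm (kcg_61_fs.snd h1 h2)) (pr_norm (pr_csub (enc_neg (enc_rat _ 3 10)) h1)))))) (pr_add (pr_add (pr_subr 6664763 50000000 (kcg_107_fs.snd h1 h2)) (pr_cmul (enc_norm (kcg_3.enc h1.l h2)) (pr_norm (pr_subr 6185207 10000000 (pr_neg (kcg_111_fs.snd h1 h2)))))) (pr_cmul (enc_norm (kcg_124.enc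 h1.l h2)) (pr_norm (pr_mul (pr_norm (kcg_85_fs.snd h1 h2)) (pr_norm (pr_csub (enc_neg (enc_rat _ 1 4)) h1))))))))) (pr_case (kcg_134_fs.snd h1 h2) (pr_case (kcg_137_fs.snd h1 h2) (pr_add (pr_add (pr_addc (kcg_138_fs.snd h1 h2) (enc_rat _ 2785213 12500000)) (pr_cmul (enc_norm (kcg_3.enc h1.l h2)) (pr_norm (pr_subr 4998717 10000000 (kcg_141_fs.snd h1 h2))))) (pr_cmul (enc_norm (kcg_153.enc h1.l h2)) (pr_norm (pr_mul (pr_norm (kcg_6_fs.snd h1 h2)) (pr_norm (pr_csub (enc_neg (enc_rat _ 1 5)) h1)))))) (pr_add (pr_add (pr_addc (kcg_158_fs.snd h1 h2) (enc_rat _ 7877 78125)) (pr_cmul (enc_norm (kcg_3.enc h1.l h2)) (pr_norm (pr_subr 4999737 10000000 (pr_neg (kcg_161_fs.snd h1 h2)))))) (pr_cmul (enc_norm (kcg_171.enc h1.l h2)) (pr_norm (pr_mul (pr_norm (kcg_137_fs.snd h1 h2)) (pr_norm (pr_csub (enc_neg (enc_rat _ 3 20)) h1))))))) (pr_case (kcg_179_fs.snd h1 h2) (pr_add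 (pr_add (pr_subr 4992833 100000000 (pr_neg (kcg_180_fs.snd h1 h2))) (pr_cmul (enc_norm (kcg_3.enc h1.l h2)) (pr_norm (pr_addc (kcg_185_fs.snd h1 h2) (enc_rat _ 2499477 10000000))))) (pr_cmul (enc_norm (kcg_195.enc h1.l h2)) (pr_norm (pr_mul (pr_norm (kcg_134_fs.snd h1 h2)) (pr_norm (pr_csub (enc_neg (enc_rat _ 1 10)) h1)))))) (pr_case (pr_addc h1 (enc_rat _ 1 20)) (pr_add (pr_add (pr_subr 2553181 100000000 (kcg_203_fs.snd h1 h2)) (pr_cmul (enc_norm (kcg_3.enc h1.l h2)) (pr_norm (pr_addc (kcg_207_fs.snd h1 h2) (enc_rat _ 2499997 10000000))))) (pr_cmul (enc_norm (kcg_216.enc h1.l h2)) (pr_norm (pr_mul (pr_norm (kcg_179_fs.snd h1 h2)) (pr_norm (pr_csub (enc_neg (enc_rat _ 1 20)) h1)))))) (kcg_221_fs.snd h1 h2))))) (pr_neg (pr_case (kcg_228_fs.snd h1 h2) (pr_case (kcg_229_fs.snd h1 h2) (pr_case (kcg_230_fs.snd h1 h2) (pr_add (pr_add (pr_csub (enc_rat _ 7056419 20000000)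 (kcg_13_fs.snd h1 h2)) (pr_cmul (enc_norm (kcg_3.enc h1.l h2)) (pr_norm (pr_subr 367049 312500 (kcg_16_fs.snd h1 h2))))) (pr_cmul (enc_norm (kcg_28.enc h1.l h2)) (pr_norm (pr_mul (pr_norm (pr_csub (enc_rat _ 1 2) h1)) (pr_norm (pr_subr 9 20 h1)))))) (pr_add (pr_add (pr_subr 17418511 50000000 (kcg_36_fs.snd h1 h2)) (pr_cmul (enc_norm (kcg_3.enc h1.l h2)) (pr_norm (pr_subr 5001409 10000000 (kcg_41_fs.snd h1 h2))))) (pr_cmul (enc_norm (kcg_53.enc h1.l h2)) (pr_norm (pr_mul (pr_norm (kcg_230_fs.snd h1 h2)) (pr_norm (pr_subr 2 5 h1))))))) (pr_case (kcg_250_fs.snd h1 h2) (pr_add (pr_add (pr_subr 53512311 50000000 (kcg_62_fs.snd h1 h2)) (pr_cmul (enc_norm (kcg_3.enc h1.l h2)) (pr_norm (pr_subr 3103697 10000000 (pr_neg (kcg_67_fs.snd h1 h2)))))) (pr_cmul (enc_norm (kcg_78.enc h1.l h2)) (pr_norm (pr_mul (pr_norm (kcg_229_fs.snd h1 h2)) (pr_norm (pr_subr 7 20 h1))))))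 (pr_case (kcg_260_fs.snd h1 h2) (pr_add (pr_add (pr_subr 8861059 10000000 (kcg_86_fs.snd h1 h2)) (pr_cmul (enc_norm (kcg_3.enc h1.l h2)) (pr_norm (pr_subr 4763033 10000000 (kcg_91_fs.snd h1 h2))))) (pr_cmul (enc_norm (kcg_102.enc h1.l h2)) (pr_norm (pr_mul (pr_norm (kcg_250_fs.snd h1 h2)) (pr_norm (pr_subr 3 10 h1)))))) (pr_add (pr_add (pr_subr 6664763 50000000 (pr_neg (kcg_107_fs.snd h1 h2))) (pr_cmul (enc_norm (kcg_3.enc h1.l h2)) (pr_norm (pr_subr 6185207 10000000 (kcg_111_fs.snd h1 h2))))) (pr_cmul (enc_norm (kcg_124.enc h1.l h2)) (pr_norm (pr_mul (pr_norm (kcg_260_fs.snd h1 h2)) (pr_norm (pr_subr 1 4 h1))))))))) (pr_case (kcg_281_fs.snd h1 h2) (pr_case (kcg_282_fs.snd h1 h2) (pr_add (pr_add (pr_csub (enc_rat _ 2785213 12500000) (kcg_138_fs.snd h1 h2)) (pr_cmul (enc_norm (kcg_3.enc h1.l h2)) (pr_norm (pr_subr 4998717 10000000 (pr_neg (kcg_141_fs.snd h1 h2))))))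 (pr_cmul (enc_norm (kcg_153.enc h1.l h2)) (pr_norm (pr_mul (pr_norm (kcg_228_fs.snd h1 h2)) (pr_norm (pr_subr 1 5 h1)))))) (pr_add (pr_add (pr_csub (enc_rat _ 7877 78125) (kcg_158_fs.snd h1 h2)) (pr_cmul (enc_norm (kcg_3.enc h1.l h2)) (pr_norm (pr_subr 4999737 10000000 (kcg_161_fs.snd h1 h2))))) (pr_cmul (enc_norm (kcg_171.enc h1.l h2)) (pr_norm (pr_mul (pr_norm (kcg_282_fs.snd h1 h2)) (pr_norm (pr_subr 3 20 h1))))))) (pr_case (kcg_303_fs.snd h1 h2) (pr_add (pr_add (pr_subr 4992833 100000000 (kcg_180_fs.snd h1 h2)) (pr_cmul (enc_norm (kcg_3.enc h1.l h2)) (pr_norm (pr_csub (enc_rat _ 2499477 10000000) (kcg_185_fs.snd h1 h2))))) (pr_cmul (enc_norm (kcg_195.enc h1.l h2)) (pr_norm (pr_mul (pr_norm (kcg_281_fs.snd h1 h2)) (pr_norm (pr_subr 1 10 h1)))))) (pr_case (pr_csub (enc_rat _ 1 20) h1) (pr_add (pr_add (pr_subr 2553181 100000000 (pr_neg (kcg_203_fs.snd h1 h2)))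 (pr_cmul (enc_norm (kcg_3.enc h1.l h2)) (pr_norm (pr_csub (enc_rat _ 2499997 10000000) (kcg_207_fs.snd h1 h2))))) (pr_cmul (enc_norm (kcg_216.enc h1.l h2)) (pr_norm (pr_mul (pr_norm (kcg_303_fs.snd h1 h2)) (pr_norm (pr_subr 1 20 h1)))))) (pr_neg (kcg_221_fs.snd h1 h2)))))))))⟩
noncomputable def kf0q0_9_fs : Sl2 kf0q0_9 := ⟨_, fun h1 h2 => (pr_scale 3 2 h1)⟩
noncomputable def kf0q0_12_fs : Sl2 kf0q0_12 := ⟨_, fun h1 h2 => (pr_cadd (enc_pnc _ 1) (c1g_fs.snd h1))⟩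
noncomputable def kf0q0_fs : Sl2 kf0q0 := ⟨_, fun h1 h2 => (pr_norm (pr_add (pr_mul (pr_norm (pr_mul (pr_norm (pr_sub (c1g_fs.snd h1) (kf0q0_9_fs.snd h1 h2))) (pr_norm (kf0q0_12_fs.snd h1 h2)))) (pr_nd (pr_inv (pr_sub (kf0q0_12_fs.snd h1 h2) (kf0q0_9_fs.snd h1 h2))))) (pr_mul h1 (kcg_fs.snd (pr_norm (pr_sub (pr_scale 3 4 h1) (pr_half (c1g_fs.snd h1)))) h2))))⟩
noncomputable def txg_6_fs : Sl3 txg_6 := ⟨_, fun h1 h2 h3 => (pr_add h1 (pr_half h2))⟩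
noncomputable def txg_27_fs : Sl3 txg_27 := ⟨_, fun h1 h2 h3 => (pr_addc h1 (enc_rat _ 13 50))⟩
noncomputable def txg_30_fs : Sl3 txg_30 := ⟨_, fun h1 h2 h3 => (pr_addc h1 (enc_rat _ 19 50))⟩
noncomputable def txg_33_fs : Sl3 txg_33 := ⟨_, fun h1 h2 h3 => (pr_addc h1 (enc_rat _ 11 25))⟩
noncomputable def txg_75_fs : Sl3 txg_75 := ⟨_, fun h1 h2 h3 => (pr_addc h1 (enc_rat _ 8 25))⟩
noncomputable def txg_116_fs : Sl3 txg_116 := ⟨_, fun h1 h2 h3 => (pr_addc h1 (enc_rat _ 4 25))⟩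
noncomputable def txg_119_fs : Sl3 txg_119 := ⟨_, fun h1 h2 h3 => (pr_addc h1 (enc_rat _ 1 5))⟩
noncomputable def txg_165_fs : Sl3 txg_165 := ⟨_, fun h1 h2 h3 => (pr_addc h1 (enc_rat _ 13 100))⟩
noncomputable def txg_225_fs : Sl3 txg_225 := ⟨_, fun h1 h2 h3 => (pr_addc h1 (enc_rat _ 1 97))⟩
noncomputable def txg_226_fs : Sl3 txg_226 := ⟨_, fun h1 h2 h3 => (pr_subr 1 5 h1)⟩
noncomputable def txg_228_fs : Sl3 txg_228 := ⟨_, fun h1 h2 h3 => (pr_subr 1 20 h1)⟩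
noncomputable def txg_230_fs : Sl3 txg_230 := ⟨_, fun h1 h2 h3 => (pr_subr 1 100 h1)⟩
noncomputable def txg_270_fs : Sl3 txg_270 := ⟨_, fun h1 h2 h3 => (pr_subr 1 10 h1)⟩
noncomputable def txg_293_fs : Sl3 txg_293 := ⟨_, fun h1 h2 h3 => (pr_subr 3 20 h1)⟩
noncomputable def txg_336_fs : Sl3 txg_336 := ⟨_, fun h1 h2 h3 => (pr_subr 7 20 h1)⟩
noncomputable def txg_338_fs : Sl3 txg_338 := ⟨_, fun h1 h2 h3 => (pr_subr 1 4 h1)⟩
noncomputable def txg_358_fs : Sl3 txg_358 := ⟨_, fun h1 h2 h3 => (pr_subr 3 10 h1)⟩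
noncomputable def txg_398_fs : Sl3 txg_398 := ⟨_, fun h1 h2 h3 => (pr_subr 2 5 h1)⟩
noncomputable def txg_418_fs : Sl3 txg_418 := ⟨_, fun h1 h2 h3 => (pr_subr 11 25 h1)⟩
noncomputable def txg_fs : Sl3 txg := ⟨_, fun h1 h2 h3 => (pr_case (pr_addc h1 (enc_rat _ 13 134)) (pr_case (txg_27_fs.snd h1 h2 h3) (pr_case (txg_30_fs.snd h1 h2 h3) (pr_case (txg_33_fs.snd h1 h2 h3) (pr_add (pr_add (pr_addc (pr_scale 841601 6000000 h1) (enc_rat _ 841601 12000000)) (pr_cmul (enc_norm (txg_4.enc h1.l h2.l h3)) (pr_norm (pr_addc (pr_scale 12859 20000 h1) (enc_rat _ 12859 40000))))) (pr_cmul (enc_norm (enc_subr 12977 1000000 (enc_scale 335909 50000 (txg_4.enc h1.l h2.l h3)))) (pr_norm (pr_mul (pr_norm (pr_addc h1 (enc_rat _ 1 2))) (pr_norm (pr_csub (enc_neg (enc_rat _ 11 25)) h1)))))) (pr_add (pr_add (pr_addc (pr_scale 209327 6000000 h1) (enc_rat _ 7129997 300000000)) (pr_cmul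 (enc_norm (txg_4.enc h1.l h2.l h3)) (pr_norm (pr_addc (pr_scale 258793 300000 h1) (enc_rat _ 6272101 15000000))))) (pr_cmul (enc_norm (enc_sub (enc_rat _ 884647 500000) (enc_scale 259493 25000 (txg_4.enc h1.l h2.l h3)))) (pr_norm (pr_mul (pr_norm (txg_33_fs.snd h1 h2 h3)) (pr_norm (pr_csub (enc_neg (enc_rat _ 19 50)) h1))))))) (pr_case (txg_75_fs.snd h1 h2 h3) (pr_add (pr_add (pr_addc (pr_scale 69011 6000000 h1) (enc_rat _ 4463993 300000000)) (pr_cmul (enc_norm (txg_4.enc h1.l h2.l h3)) (pr_norm (pr_addc (pr_scale 42301 60000 h1) (enc_rat _ 5373629 15000000))))) (pr_cmul (enc_norm (enc_subr 172441 125000 (enc_scale 32517 2500 (txg_4.enc h1.l h2.l h3)))) (pr_norm (pr_mul (pr_norm (txg_30_fs.snd h1 h2 h3)) (pr_norm (pr_csub (enc_neg (enc_rat _ 8 25)) h1)))))) (pr_add (pr_add (pr_addc (pr_scale 158541 1000000 h1) (enc_rat _ 6193251 100000000)) (pr_cmul (enc_norm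 (txg_4.enc h1.l h2.l h3)) (pr_norm (pr_subr 1470851 15000000 (pr_neg (pr_scale 8651 12000 h1)))))) (pr_cmul (enc_norm (enc_subr 1071123 1000000 (enc_scale 1075879 100000 (txg_4.enc h1.l h2.l h3)))) (pr_norm (pr_mul (pr_norm (txg_75_fs.snd h1 h2 h3)) (pr_norm (pr_csub (enc_neg (enc_rat _ 13 50)) h1)))))))) (pr_case (txg_116_fs.snd h1 h2 h3) (pr_case (txg_119_fs.snd h1 h2 h3) (pr_add (pr_add (pr_addc (pr_scale 553487 2000000 h1) (enc_rat _ 2316629 25000000)) (pr_cmul (enc_norm (txg_4.enc h1.l h2.l h3)) (pr_norm (pr_subr 2746073 15000000 (pr_neg (pr_scale 314369 300000 h1)))))) (pr_cmul (enc_norm (enc_subr 22473 25000 (enc_neg (enc_scale 530913 100000 (txg_4.enc h1.l h2.l h3))))) (pr_norm (pr_mul (pr_norm (txg_27_fs.snd h1 h2 h3)) (pr_norm (pr_csub (enc_neg (enc_rat _ 1 5)) h1)))))) (pr_add (pr_add (pr_addc (pr_scale 285347 800000 h1) (enc_rat _ 10865321 100000000))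 (pr_cmul (enc_norm (txg_4.enc h1.l h2.l h3)) (pr_norm (pr_subr 1107737 10000000 (pr_neg (pr_scale 274563 400000 h1)))))) (pr_cmul (enc_norm (enc_subr 650127 1000000 (enc_neg (enc_scale 26839 25000 (txg_4.enc h1.l h2.l h3))))) (pr_norm (pr_mul (pr_norm (txg_119_fs.snd h1 h2 h3)) (pr_norm (pr_csub (enc_neg (enc_rat _ 4 25)) h1))))))) (pr_case (txg_165_fs.snd h1 h2 h3) (pr_add (pr_add (pr_addc (pr_scale 219491 600000 h1) (enc_rat _ 33034423 300000000)) (pr_cmul (enc_norm (txg_4.enc h1.l h2.l h3)) (pr_norm (pr_subr 2176327 30000000 (pr_neg (pr_scale 67121 150000 h1)))))) (pr_cmul (enc_norm (enc_add (enc_mul (enc_norm (enc_subr 20416 3125 (enc_scale 294921 5000 (txg_4.enc h1.l h2.l h3)))) (enc_norm (txg_4.enc h1.l h2.l h3))) (enc_rat _ 140589 250000))) (pr_norm (pr_mul (pr_norm (txg_116_fs.snd h1 h2 h3)) (pr_norm (pr_csub (enc_neg (enc_rat _ 13 100)) h1)))))) (pr_add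 (pr_add (pr_add (pr_addc (pr_scale 520241713984013 1661715575000000 h1) (enc_rat _ 1319889415202913 12782427500000000)) (pr_cmul (enc_norm (txg_4.enc h1.l h2.l h3)) (pr_norm (pr_subr 30148513155761 1278242750000000 (pr_neg (pr_scale 2944178395709 41542889375000 h1)))))) (pr_cmul (enc_sq (enc_norm (txg_4.enc h1.l h2.l h3))) (pr_norm (pr_subr 2480622039 9539125000 (pr_neg (pr_scale 2480622039 1240086250 h1)))))) (pr_cmul (enc_norm (enc_add (enc_mul (enc_norm (enc_subr 547537 100000 (enc_neg (enc_scale 477197 5000 (txg_4.enc h1.l h2.l h3))))) (enc_norm (txg_4.enc h1.l h2.l h3))) (enc_rat _ 543769 500000))) (pr_norm (pr_mul (pr_norm (txg_165_fs.snd h1 h2 h3)) (pr_norm (pr_csub (enc_neg (enc_rat _ 13 134)) h1))))))))) (pr_case (txg_225_fs.snd h1 h2 h3) (pr_sub (pr_mul (pr_norm (pr_csub (enc_pnc _ 1) h2)) (pr_norm (pr_subn 1 (pr_nat 2 h2)))) (pr_mul (pr_norm (pr_nat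 2 (pr_subc (pr_scale 4 3 (txg_6_fs.snd h1 h2 h3)) h3))) (pr_norm (pr_mul (pr_norm (pr_subn 1 (pr_add (pr_scale 2 3 (txg_6_fs.snd h1 h2 h3)) h2))) (kcg_fs.snd h1 h3))))) (pr_case (txg_226_fs.snd h1 h2 h3) (pr_case (txg_228_fs.snd h1 h2 h3) (pr_case (txg_230_fs.snd h1 h2 h3) (pr_add (pr_add (pr_addc (pr_scale 2131844726611 18535730000000 h1) (enc_rat _ 179679106731139 1853573000000000)) (pr_cmul (enc_norm (txg_4.enc h1.l h2.l h3)) (pr_norm (pr_addc (pr_scale 41514171 95545000 h1) (enc_rat _ 21316221 9554500000))))) (pr_cmul (enc_norm (enc_sub (enc_rat _ 1139469 200000) (enc_scale 66651 6250 (txg_4.enc h1.l h2.l h3)))) (pr_norm (pr_mul (pr_norm (txg_225_fs.snd h1 h2 h3)) (pr_norm (pr_csub (enc_rat _ 1 100) h1)))))) (pr_add (pr_add (pr_csub (enc_rat _ 3931301 40000000) (pr_scale 7831 400000 h1)) (pr_cmul (enc_norm (txg_4.enc h1.l h2.l h3)) (pr_norm (pr_addc (pr_scale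 26219 40000 h1) (enc_rat _ 17 800000))))) (pr_cmul (enc_norm (enc_sub (enc_rat _ 472041 1000000) (enc_scale 2747 25000 (txg_4.enc h1.l h2.l h3)))) (pr_norm (pr_mul (pr_norm (txg_230_fs.snd h1 h2 h3)) (pr_norm (pr_csub (enc_rat _ 1 20) h1))))))) (pr_case (txg_270_fs.snd h1 h2 h3) (pr_add (pr_add (pr_csub (enc_rat _ 9920891 100000000) (pr_scale 95263 2500000 h1)) (pr_cmul (enc_norm (txg_4.enc h1.l h2.l h3)) (pr_norm (pr_subr 10939 10000000 (pr_scale 338889 500000 h1))))) (pr_cmul (enc_norm (enc_subr 1771 250000 (enc_neg (enc_scale 17907 50000 (txg_4.enc h1.l h2.l h3))))) (pr_norm (pr_mul (pr_norm (txg_228_fs.snd h1 h2 h3)) (pr_norm (pr_csub (enc_rat _ 1 10) h1)))))) (pr_case (txg_293_fs.snd h1 h2 h3) (pr_add (pr_add (pr_csub (enc_rat _ 2080801 20000000) (pr_scale 432083 5000000 h1)) (pr_cmul (enc_norm (txg_4.enc h1.l h2.l h3)) (pr_norm (pr_subr 156161 10000000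 (pr_scale 823 1000 h1))))) (pr_cmul (enc_norm (enc_sub (enc_rat _ 486657 500000) (enc_scale 25463 10000 (txg_4.enc h1.l h2.l h3)))) (pr_norm (pr_mul (pr_norm (txg_270_fs.snd h1 h2 h3)) (pr_norm (pr_csub (enc_rat _ 3 20) h1)))))) (pr_add (pr_add (pr_csub (enc_rat _ 451889 4000000) (pr_scale 729823 5000000 h1)) (pr_cmul (enc_norm (txg_4.enc h1.l h2.l h3)) (pr_norm (pr_subr 6847 200000 (pr_scale 473563 500000 h1))))) (pr_cmul (enc_norm (enc_add (enc_scale 6377 100000 (txg_4.enc h1.l h2.l h3)) (enc_rat _ 43529 200000))) (pr_norm (pr_mul (pr_norm (txg_293_fs.snd h1 h2 h3)) (pr_norm (pr_csub (enc_rat _ 1 5) h1))))))))) (pr_case (txg_336_fs.snd h1 h2 h3) (pr_case (txg_338_fs.snd h1 h2 h3) (pr_add (pr_add (pr_csub (enc_rat _ 2489417 20000000) (pr_scale 127161 625000 h1)) (pr_cmul (enc_norm (txg_4.enc h1.l h2.l h3)) (pr_norm (pr_subr 65411 5000000 (pr_scale 420681 500000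 h1))))) (pr_cmul (enc_norm (enc_add (enc_scale 51287 25000 (txg_4.enc h1.l h2.l h3)) (enc_rat _ 116527 125000))) (pr_norm (pr_mul (pr_norm (txg_226_fs.snd h1 h2 h3)) (pr_norm (pr_csub (enc_rat _ 1 4) h1)))))) (pr_case (txg_358_fs.snd h1 h2 h3) (pr_add (pr_add (pr_csub (enc_rat _ 2966429 20000000) (pr_scale 14943 50000 h1)) (pr_cmul (enc_norm (txg_4.enc h1.l h2.l h3)) (pr_norm (pr_addc (pr_scale 152461 250000 h1) (enc_rat _ 447973 10000000))))) (pr_cmul (enc_norm (enc_add (enc_scale 64473 25000 (txg_4.enc h1.l h2.l h3)) (enc_rat _ 121979 125000))) (pr_norm (pr_mul (pr_norm (txg_338_fs.snd h1 h2 h3)) (pr_norm (pr_csub (enc_rat _ 3 10) h1)))))) (pr_add (pr_add (pr_csub (enc_rat _ 3217349 20000000) (pr_scale 8517 25000 h1)) (pr_cmul (enc_norm (txg_4.enc h1.l h2.l h3)) (pr_norm (pr_csub (enc_rat _ 2630419 10000000) (pr_scale 58819 500000 h1))))) (pr_cmul (enc_norm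 (enc_subr 27887 200000 (enc_scale 74817 6250 (txg_4.enc h1.l h2.l h3)))) (pr_norm (pr_mul (pr_norm (txg_358_fs.snd h1 h2 h3)) (pr_norm (pr_csub (enc_rat _ 7 20) h1)))))))) (pr_case (txg_398_fs.snd h1 h2 h3) (pr_add (pr_add (pr_csub (enc_rat _ 15176059 100000000) (pr_scale 786651 2500000 h1)) (pr_cmul (enc_norm (txg_4.enc h1.l h2.l h3)) (pr_norm (pr_csub (enc_rat _ 1059089 2000000) (pr_scale 439537 500000 h1))))) (pr_cmul (enc_norm (enc_subr 76191 200000 (enc_scale 325799 100000 (txg_4.enc h1.l h2.l h3)))) (pr_norm (pr_mul (pr_norm (txg_336_fs.snd h1 h2 h3)) (pr_norm (pr_csub (enc_rat _ 2 5) h1)))))) (pr_case (txg_418_fs.snd h1 h2 h3) (pr_add (pr_add (pr_csub (enc_rat _ 14028703 100000000) (pr_scale 571953 2000000 h1)) (pr_cmul (enc_norm (txg_4.enc h1.l h2.l h3)) (pr_norm (pr_csub (enc_rat _ 6934019 10000000) (pr_scale 515487 400000 h1))))) (pr_cmul (enc_norm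 (enc_subr 240899 1000000 (enc_scale 30843 5000 (txg_4.enc h1.l h2.l h3)))) (pr_norm (pr_mul (pr_norm (txg_398_fs.snd h1 h2 h3)) (pr_norm (pr_csub (enc_rat _ 11 25) h1)))))) (pr_add (pr_add (pr_csub (enc_rat _ 1445737 12000000) (pr_scale 1445737 6000000 h1)) (pr_cmul (enc_norm (txg_4.enc h1.l h2.l h3)) (pr_norm (pr_csub (enc_rat _ 631831 600000) (pr_scale 631831 300000 h1))))) (pr_cmul (enc_norm (enc_subr 589741 1000000 (enc_scale 237767 25000 (txg_4.enc h1.l h2.l h3)))) (pr_norm (pr_mul (pr_norm (txg_418_fs.snd h1 h2 h3)) (pr_norm (pr_csub (enc_rat _ 1 2) h1))))))))))))⟩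
noncomputable def l0q0_fs : Sl2 l0q0 := ⟨_, fun h1 h2 => (pr_norm (txg_fs.snd (pr_norm (pr_sub (pr_scale 3 4 h1) (pr_half (c1g_fs.snd h1)))) (pr_nd (c1g_fs.snd h1)) h2))⟩
noncomputable def swg_fs : Sl1 swg := ⟨_, fun h1 => (pr_sqrt (pr_csub (enc_pnc _ 1) (pr_scale 3 4 (pr_sq (pr_norm (pr_subn 1 h1))))))⟩
noncomputable def cv1m_fs : Sl1 cv1m := ⟨_, fun h1 => (pr_norm (pr_add (pr_scale 22 25 (c1g_fs.snd h1)) (pr_scale 3 25 (pr_addc (swg_fs.snd h1) (enc_rat _ 1 2)))))⟩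
noncomputable def bf1q0_fs : Sl2 bf1q0 := ⟨_, fun h1 h2 => (pr_norm (pr_case (pr_subr 23 100 h1) (pr_case (pr_subr 11 100 h1) (pr_sub (pr_csub (enc_pnc _ 1) (pr_scale 24383 27500 h1)) (pr_cmul (enc_norm (bf1q0_3.enc h1.l h2)) (pr_nd (pr_scale 57 2750 h1)))) (pr_add (pr_csub (enc_rat _ 211991 200000) (pr_scale 14317 10000 h1)) (pr_cmul (enc_norm (bf1q0_3.enc h1.l h2)) (pr_norm (pr_subr 823 30000 (pr_scale 343 1500 h1)))))) (pr_case (pr_subr 17 50 h1) (pr_add (pr_csub (enc_rat _ 3933 3520) (pr_scale 184927 110000 h1)) (pr_cmul (enc_norm (bf1q0_3.enc h1.l h2)) (pr_norm (pr_csub (enc_rat _ 112477 1100000) (pr_scale 3687 11000 h1))))) (pr_case (pr_subr 453 1000 h1) (pr_add (pr_csub (enc_rat _ 131469941 113000000) (pr_scale 205299 113000 h1)) (pr_cmul (enc_norm (bf1q0_3.enc h1.l h2)) (pr_norm (pr_csub (enc_rat _ 3652897 11300000) (pr_scale 11133 11300 h1))))) (pr_add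 (pr_csub (enc_rat _ 11028229 9400000) (pr_scale 86403 47000 h1)) (pr_cmul (enc_norm (bf1q0_3.enc h1.l h2)) (pr_norm (pr_csub (enc_rat _ 1128163 4700000) (pr_scale 3767 4700 h1)))))))))⟩
noncomputable def kf1q0_fs : Sl2 kf1q0 := ⟨_, fun h1 h2 => (pr_norm (pr_mul (cv1m_fs.snd h1) (bf1q0_fs.snd h1 h2)))⟩
noncomputable def bx1q0_fs : Sl2 bx1q0 := ⟨_, fun h1 h2 => (pr_norm (pr_case (pr_subr 23 100 h1) (pr_case (pr_subr 11 100 h1) (pr_add (pr_scale 13141 110000 h1) (pr_cmul (enc_norm (bx1q0_3.enc h1.l h2)) (pr_nd (pr_scale 7671 11000 h1)))) (pr_add (pr_addc (pr_scale 3583 60000 h1) (enc_rat _ 39433 6000000)) (pr_cmul (enc_norm (bx1q0_3.enc h1.l h2)) (pr_norm (pr_addc (pr_scale 1661 4000 h1) (enc_rat _ 12413 400000)))))) (pr_case (pr_subr 17 50 h1) (pr_add (pr_subr 21709 1375000 (pr_scale 17263 110000 h1)) (pr_cmul (enc_norm (bx1q0_3.enc h1.l h2)) (pr_norm (pr_csub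 (enc_rat _ 10061 34375) (pr_scale 3973 5500 h1))))) (pr_case (pr_subr 453 1000 h1) (pr_add (pr_subr 125307 2260000 (pr_scale 15457 56500 h1)) (pr_cmul (enc_norm (bx1q0_3.enc h1.l h2)) (pr_norm (pr_csub (enc_rat _ 977901 2825000) (pr_scale 497 565 h1))))) (pr_add (pr_subr 3111021 47000000 (pr_scale 13973 47000 h1)) (pr_cmul (enc_norm (bx1q0_3.enc h1.l h2)) (pr_norm (pr_csub (enc_rat _ 227019 587500) (pr_scale 1138 1175 h1)))))))))⟩
noncomputable def l1q0_fs : Sl2 l1q0 := ⟨_, fun h1 h2 => (pr_norm (pr_mul (cv1m_fs.snd h1) (bx1q0_fs.snd h1 h2)))⟩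
noncomputable def cv2m_fs : Sl1 cv2m := ⟨_, fun h1 => (pr_norm (pr_add (pr_scale 3 5 (c1g_fs.snd h1)) (pr_scale 2 5 (pr_addc (swg_fs.snd h1) (enc_rat _ 1 2)))))⟩
noncomputable def bf2q0_fs : Sl2 bf2q0 := ⟨_, fun h1 h2 => (pr_norm (pr_case (pr_subr 3 10 h1) (pr_case (pr_subr 3 20 h1) (pr_add (pr_csub (enc_pnc _ 1) (pr_scale 13478 9375 h1)) (pr_cmul (enc_norm (bf2q0_3.enc h1.l h2)) (pr_nd (pr_scale 12119 15000 h1)))) (pr_add (pr_csub (enc_rat _ 126923 125000) (pr_scale 28879 18750 h1)) (pr_cmul (enc_norm (bf2q0_3.enc h1.l h2)) (pr_norm (pr_subr 17021 100000 (pr_scale 1457 750 h1)))))) (pr_case (pr_subr 453 1000 h1) (pr_add (pr_csub (enc_rat _ 196631 159375) (pr_scale 173513 76500 h1)) (pr_cmul (enc_norm (bf2q0_3.enc h1.l h2)) (pr_norm (pr_csub (enc_rat _ 6349009 5100000) (pr_scale 10612 3825 h1))))) (pr_add (pr_csub (enc_rat _ 905728 734375) (pr_scale 53279 23500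 h1)) (pr_cmul (enc_norm (bf2q0_3.enc h1.l h2)) (pr_norm (pr_csub (enc_rat _ 1619887 1175000) (pr_scale 14427 4700 h1))))))))⟩
noncomputable def kf2q0_fs : Sl2 kf2q0 := ⟨_, fun h1 h2 => (pr_norm (pr_mul (cv2m_fs.snd h1) (bf2q0_fs.snd h1 h2)))⟩
noncomputable def bx2q0_fs : Sl2 bx2q0 := ⟨_, fun h1 h2 => (pr_norm (pr_case (pr_subr 3 10 h1) (pr_case (pr_subr 3 20 h1) (pr_add (pr_scale 28151 150000 h1) (pr_cmul (enc_norm (bx2q0_3.enc h1.l h2)) (pr_nd (pr_scale 561 625 h1)))) (pr_add (pr_addc (pr_scale 10847 75000 h1) (enc_rat _ 6457 1000000)) (pr_cmul (enc_norm (bx2q0_3.enc h1.l h2)) (pr_norm (pr_csub (enc_rat _ 21137 100000) (pr_scale 7673 15000 h1)))))) (pr_case (pr_subr 453 1000 h1) (pr_add (pr_addc (pr_scale 17689 153000 h1) (enc_rat _ 154639 10200000)) (pr_cmul (enc_norm (bx2q0_3.enc h1.l h2)) (pr_norm (pr_csub (enc_rat _ 645247 1700000) (pr_scale 1367 1275 h1)))))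 (pr_add (pr_addc (pr_scale 1337 11750 h1) (enc_rat _ 375727 23500000)) (pr_cmul (enc_norm (bx2q0_3.enc h1.l h2)) (pr_norm (pr_csub (enc_rat _ 1942859 4700000) (pr_scale 539 470 h1))))))))⟩
noncomputable def l2q0_fs : Sl2 l2q0 := ⟨_, fun h1 h2 => (pr_norm (pr_mul (cv2m_fs.snd h1) (bx2q0_fs.snd h1 h2)))⟩
noncomputable def cv3m_fs : Sl1 cv3m := ⟨_, fun h1 => (pr_norm (pr_add (pr_scale 1 5 (c1g_fs.snd h1)) (pr_scale 4 5 (pr_addc (swg_fs.snd h1) (enc_rat _ 1 2)))))⟩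
noncomputable def bf3q0_fs : Sl2 bf3q0 := ⟨_, fun h1 h2 => (pr_norm (pr_case (pr_subr 3 10 h1) (pr_case (pr_subr 3 20 h1) (pr_add (pr_csub (enc_pnc _ 1) (pr_scale 54149 25000 h1)) (pr_cmul (enc_norm (bf3q0_3.enc h1.l h2)) (pr_nd (pr_scale 9797 7500 h1)))) (pr_add (pr_csub (enc_rat _ 434917 500000) (pr_scale 24341 18750 h1)) (pr_cmul (enc_norm (bf3q0_3.enc h1.l h2)) (pr_norm (pr_subr 2951 6250 (pr_scale 2227 500 h1)))))) (pr_case (pr_subr 453 1000 h1) (pr_add (pr_csub (enc_rat _ 34133789 25500000) (pr_scale 437683 153000 h1)) (pr_cmul (enc_norm (bf3q0_3.enc h1.l h2)) (pr_norm (pr_csub (enc_rat _ 3309001 1275000) (pr_scale 44147 7650 h1))))) (pr_add (pr_csub (enc_rat _ 63090091 47000000) (pr_scale 67421 23500 h1)) (pr_cmul (enc_norm (bf3q0_3.enc h1.l h2)) (pr_norm (pr_csub (enc_rat _ 1132479 2350000) (pr_scale 1299 1175 h1))))))))⟩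
noncomputable def kf3q0_fs : Sl2 kf3q0 := ⟨_, fun h1 h2 => (pr_norm (pr_mul (cv3m_fs.snd h1) (bf3q0_fs.snd h1 h2)))⟩
noncomputable def bx3q0_fs : Sl2 bx3q0 := ⟨_, fun h1 h2 => (pr_norm (pr_case (pr_subr 3 10 h1) (pr_case (pr_subr 3 20 h1) (pr_add (pr_scale 23531 75000 h1) (pr_cmul (enc_norm (bx3q0_3.enc h1.l h2)) (pr_nd (pr_scale 16573 15000 h1)))) (pr_add (pr_addc (pr_scale 26899 150000 h1) (enc_rat _ 20163 1000000)) (pr_cmul (enc_norm (bx3q0_3.enc h1.l h2)) (pr_norm (pr_csub (enc_rat _ 29977 100000) (pr_scale 1117 1250 h1)))))) (pr_case (pr_subr 453 1000 h1) (pr_add (pr_csub (enc_rat _ 1445537 17000000) (pr_scale 941 25500 h1)) (pr_cmul (enc_norm (bx3q0_3.enc h1.l h2)) (pr_norm (pr_csub (enc_rat _ 470973 1700000) (pr_scale 4171 5100 h1))))) (pr_add (pr_csub (enc_rat _ 3763721 23500000) (pr_scale 9529 47000 h1)) (pr_cmul (enc_norm (bx3q0_3.enc h1.l h2)) (pr_norm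 (pr_csub (enc_rat _ 811897 2350000) (pr_scale 2277 2350 h1))))))))⟩
noncomputable def l3q0_fs : Sl2 l3q0 := ⟨_, fun h1 h2 => (pr_norm (pr_mul (cv3m_fs.snd h1) (bx3q0_fs.snd h1 h2)))⟩
noncomputable def kf0q1_10_fs : Sl2 kf0q1_10 := ⟨_, fun h1 h2 => (pr_scale 3 2 h1)⟩
noncomputable def kf0q1_fs : Sl2 kf0q1 := ⟨_, fun h1 h2 => (pr_norm (pr_add (pr_mul (pr_norm (pr_mul (pr_norm (pr_cadd (enc_pnc _ 1) (pr_nat 2 (c1g_fs.snd h1)))) (pr_norm (pr_sub (kf0q1_10_fs.snd h1 h2) (c1g_fs.snd h1))))) (pr_nd (pr_inv (pr_nat 2 (pr_sub (pr_cadd (enc_pnc _ 1) (kf0q1_10_fs.snd h1 h2)) (c1g_fs.snd h1)))))) (pr_mul (pr_norm (pr_subn 1 h1)) (kcg_fs.snd (pr_norm (pr_sub (pr_scale 3 4 h1) (pr_half (c1g_fs.snd h1)))) h2))))⟩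
noncomputable def l0q1_fs : Sl2 l0q1 := ⟨_, fun h1 h2 => (pr_norm (txg_fs.snd (pr_norm (pr_sub (pr_scale 3 4 h1) (pr_half (c1g_fs.snd h1)))) (pr_nd (c1g_fs.snd h1)) h2))⟩
noncomputable def cv3p_fs : Sl1 cv3p := ⟨_, fun h1 => (pr_norm (pr_add (pr_scale 1 5 (c1g_fs.snd h1)) (pr_scale 4 5 (pr_subr 1 2 (swg_fs.snd h1)))))⟩
noncomputable def kf3q2_fs : Sl2 kf3q2 := ⟨_, fun h1 h2 => (pr_norm (pr_mul (cv3p_fs.snd h1) (pr_norm (pr_case (pr_csub (enc_pnc _ 1) (pr_scale 3 4 (pr_sq h1))) (pr_case (pr_subr 127 100 h1) (pr_add (pr_csub (enc_rat _ 35635023 11600000) (pr_scale 240821 116000 h1)) (pr_cmul (enc_norm (kf3q2_4.enc h1.l h2)) (pr_norm (pr_subr 3462613 290000 (pr_scale 2893 290 h1))))) (pr_case (pr_subr 69 50 h1) (pr_add (pr_csub (enc_rat _ 2571803 687500) (pr_scale 143147 55000 h1)) (pr_cmul (enc_norm (kf3q2_4.enc h1.l h2)) (pr_norm (pr_subr 275709 25000 (pr_scale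 4629 500 h1))))) (pr_add (pr_subr 37201 50000 (pr_scale 809 1250 h1)) (pr_cmul (enc_norm (kf3q2_4.enc h1.l h2)) (pr_norm (pr_csub (enc_rat _ 6662093 200000) (pr_scale 274459 12000 h1))))))) (pr_case (pr_subr 1 4 (c1g_fs.snd h1)) (pr_case (pr_subr 1 10 (c1g_fs.snd h1)) (pr_case (pr_subr 1 20 (c1g_fs.snd h1)) (pr_add (pr_addc (pr_scale 18577 25000 (c1g_fs.snd h1)) (enc_rat _ 674237 1000000)) (pr_cmul (enc_norm (kf3q2_4.enc h1.l h2)) (pr_norm (pr_subr 42007 100000 (pr_scale 3041 2500 (c1g_fs.snd h1)))))) (pr_add (pr_addc (pr_scale 9289 12500 (c1g_fs.snd h1)) (enc_rat _ 134847 200000)) (pr_cmul (enc_norm (kf3q2_4.enc h1.l h2)) (pr_norm (pr_subr 21123 50000 (pr_scale 6321 5000 (c1g_fs.snd h1))))))) (pr_case (pr_subr 3 20 (c1g_fs.snd h1)) (pr_add (pr_addc (pr_scale 1891 2500 (c1g_fs.snd h1)) (enc_rat _ 672907 1000000)) (pr_cmul (enc_norm (kf3q2_4.enc h1.l h2)) (pr_norm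 (pr_subr 17579 50000 (pr_scale 2777 5000 (c1g_fs.snd h1)))))) (pr_case (pr_subr 1 5 (c1g_fs.snd h1)) (pr_add (pr_addc (pr_scale 9601 12500 (c1g_fs.snd h1)) (enc_rat _ 134231 200000)) (pr_cmul (enc_norm (kf3q2_4.enc h1.l h2)) (pr_norm (pr_subr 10643 50000 (pr_neg (pr_scale 1847 5000 (c1g_fs.snd h1))))))) (pr_add (pr_addc (pr_scale 19189 25000 (c1g_fs.snd h1)) (enc_rat _ 671259 1000000)) (pr_cmul (enc_norm (kf3q2_4.enc h1.l h2)) (pr_norm (pr_subr 213 2000 (pr_neg (pr_scale 2253 2500 (c1g_fs.snd h1)))))))))) (pr_case (pr_subr 7 20 (c1g_fs.snd h1)) (pr_case (pr_subr 3 10 (c1g_fs.snd h1)) (pr_add (pr_addc (pr_scale 36841 50000 (c1g_fs.snd h1)) (enc_rat _ 21217 31250)) (pr_cmul (enc_norm (kf3q2_4.enc h1.l h2)) (pr_norm (pr_subr 37 250 (pr_neg (pr_scale 919 1250 (c1g_fs.snd h1))))))) (pr_add (pr_addc (pr_scale 16473 25000 (c1g_fs.snd h1)) (enc_rat _ 351157 500000))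 (pr_cmul (enc_norm (kf3q2_4.enc h1.l h2)) (pr_norm (pr_subr 8977 25000 (pr_neg (pr_scale 79 2500 (c1g_fs.snd h1)))))))) (pr_case (pr_subr 2 5 (c1g_fs.snd h1)) (pr_add (pr_addc (pr_scale 2869 5000 (c1g_fs.snd h1)) (enc_rat _ 366053 500000)) (pr_cmul (enc_norm (kf3q2_4.enc h1.l h2)) (pr_norm (pr_subr 62669 100000 (pr_scale 733 1000 (c1g_fs.snd h1)))))) (pr_case (pr_subr 9 20 (c1g_fs.snd h1)) (pr_add (pr_addc (pr_scale 23677 50000 (c1g_fs.snd h1)) (enc_rat _ 77221 100000)) (pr_cmul (enc_norm (kf3q2_4.enc h1.l h2)) (pr_norm (pr_subr 103749 100000 (pr_scale 44 25 (c1g_fs.snd h1)))))) (pr_add (pr_addc (pr_scale 14697 50000 (c1g_fs.snd h1)) (enc_rat _ 85303 100000)) (pr_cmul (enc_norm (kf3q2_4.enc h1.l h2)) (pr_norm (pr_subr 24549 10000 (pr_scale 24549 5000 (c1g_fs.snd h1))))))))))))))⟩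
noncomputable def l3q2_fs : Sl2 l3q2 := ⟨_, fun h1 h2 => (pr_norm (pr_mul (cv3p_fs.snd h1) (pr_norm (pr_case (pr_csub (enc_pnc _ 1) (pr_scale 3 4 (pr_sq h1))) (pr_case (pr_subr 127 100 h1) (pr_add (pr_subr 24390071 29000000 (pr_scale 39373 58000 h1)) (pr_cmul (enc_norm (l3q2_4.enc h1.l h2)) (pr_norm (pr_subr 6297463 2900000 (pr_scale 2371 1450 h1))))) (pr_case (pr_subr 69 50 h1) (pr_add (pr_subr 12658317 11000000 (pr_scale 101499 110000 h1)) (pr_cmul (enc_norm (l3q2_4.enc h1.l h2)) (pr_norm (pr_subr 193129 100000 (pr_scale 723 500 h1))))) (pr_add (pr_subr 1119359 1000000 (pr_scale 26999 30000 h1)) (pr_cmul (enc_norm (l3q2_4.enc h1.l h2)) (pr_norm (pr_csub (enc_rat _ 358893 50000) (pr_scale 30929 6000 h1))))))) (pr_case (pr_subr 1 4 (c1g_fs.snd h1)) (pr_case (pr_subr 1 10 (c1g_fs.snd h1)) (pr_case (pr_subr 1 20 (c1g_fs.snd h1)) (pr_add (pr_subr 57251 1000000 (pr_scale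 7283 25000 (c1g_fs.snd h1))) (pr_cmul (enc_norm (l3q2_4.enc h1.l h2)) (pr_norm (pr_subr 2809 10000 (pr_neg (pr_scale 1427 5000 (c1g_fs.snd h1))))))) (pr_add (pr_subr 28233 500000 (pr_scale 13781 50000 (c1g_fs.snd h1))) (pr_cmul (enc_norm (l3q2_4.enc h1.l h2)) (pr_norm (pr_subr 29033 100000 (pr_neg (pr_scale 121 1250 (c1g_fs.snd h1)))))))) (pr_case (pr_subr 3 20 (c1g_fs.snd h1)) (pr_add (pr_subr 973 20000 (pr_scale 9873 50000 (c1g_fs.snd h1))) (pr_cmul (enc_norm (l3q2_4.enc h1.l h2)) (pr_norm (pr_subr 36711 100000 (pr_scale 671 1000 (c1g_fs.snd h1)))))) (pr_case (pr_subr 1 5 (c1g_fs.snd h1)) (pr_add (pr_subr 18907 500000 (pr_scale 6261 50000 (c1g_fs.snd h1))) (pr_cmul (enc_norm (l3q2_4.enc h1.l h2)) (pr_norm (pr_subr 39267 100000 (pr_scale 4207 5000 (c1g_fs.snd h1)))))) (pr_add (pr_subr 15433 500000 (pr_scale 1131 12500 (c1g_fs.snd h1))) (pr_cmul (enc_norm (l3q2_4.enc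 h1.l h2)) (pr_norm (pr_subr 35351 100000 (pr_scale 807 1250 (c1g_fs.snd h1))))))))) (pr_case (pr_subr 7 20 (c1g_fs.snd h1)) (pr_case (pr_subr 3 10 (c1g_fs.snd h1)) (pr_add (pr_subr 763 31250 (pr_scale 1617 25000 (c1g_fs.snd h1))) (pr_cmul (enc_norm (l3q2_4.enc h1.l h2)) (pr_norm (pr_subr 16453 50000 (pr_scale 2739 5000 (c1g_fs.snd h1)))))) (pr_add (pr_subr 4691 250000 (pr_scale 573 12500 (c1g_fs.snd h1))) (pr_cmul (enc_norm (l3q2_4.enc h1.l h2)) (pr_norm (pr_subr 3847 12500 (pr_scale 298 625 (c1g_fs.snd h1))))))) (pr_case (pr_subr 2 5 (c1g_fs.snd h1)) (pr_add (pr_subr 11827 1000000 (pr_scale 1301 50000 (c1g_fs.snd h1))) (pr_cmul (enc_norm (l3q2_4.enc h1.l h2)) (pr_norm (pr_subr 6529 20000 (pr_scale 2651 5000 (c1g_fs.snd h1)))))) (pr_case (pr_subr 9 20 (c1g_fs.snd h1)) (pr_add (pr_subr 1167 200000 (pr_scale 69 6250 (c1g_fs.snd h1))) (pr_cmul (enc_norm (l3q2_4.enc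 h1.l h2)) (pr_norm (pr_subr 42077 100000 (pr_scale 383 500 (c1g_fs.snd h1)))))) (pr_add (pr_subr 867 100000 (pr_scale 867 50000 (c1g_fs.snd h1))) (pr_cmul (enc_norm (l3q2_4.enc h1.l h2)) (pr_norm (pr_subr 7607 10000 (pr_scale 7607 5000 (c1g_fs.snd h1))))))))))))))⟩
noncomputable def dlg : Fn2 := ⟨_, _, fun h1 h2 => (kcg.enc (enc_norm (enc_sub (enc_scale 3 4 h1) (enc_half (c1g.enc h1)))) h2)⟩
noncomputable def kq02 : Fn2 := ⟨_, _, fun h1 h2 => (enc_norm (enc_sub (enc_rat _ 8525793 5000000) (enc_scale 3525793 5000000 (yag.enc h1))))⟩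
noncomputable def lq02 : Fn2 := ⟨_, _, fun h1 h2 => (enc_norm (enc_sub (enc_rat _ 537239502445313 2316966250000000) (enc_scale 1307165529 1492890625 h2)))⟩
noncomputable def cq02 : Fn2 := ⟨_, _, fun h1 h2 => (enc_norm (enc_sub (enc_rat _ 199952851 20000000) (enc_scale 143933 10000 h2)))⟩
noncomputable def pcE0 : Piece := ⟨Fn3.sc eng rsbq0, rlq0⟩
noncomputable def pcE1 : Piece := ⟨Fn3.sc eng rsbq1, rlq1⟩
noncomputable def pcE2 : Piece := ⟨Fn3.sc eng rsbq2, rlq2⟩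
noncomputable def pcE3 : Piece := ⟨Fn3.sc eng rsbq3, rlq3⟩

end Pool.Agent.Strip051.G.I5000_5470.Tab
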