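import Pool.Agent.Strip051.G.I5000_5470.Tab
import Pool.Agent.Strip051.PB.C12G
import Pool.Agent.Strip051.PB.PairB

/-! # Slopes of the tables near the lattice heights (generated) -/

set_option linter.all false

namespace Pool.Agent.Strip051.G.I5000_5470.Tab

open Pool.Agent.Strip051.PB

attribute [local irreducible] padd psub pneg pmul psq pinv psqrt psqrtg pabs pps pmax pmin pphi plam
  pcase phf pnat prat pscale pnorm pdc pnc pone ppos pnn Enc pbad pzero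

noncomputable def idf_s : Sl1 idf := ⟨fun _ _ D => D, fun h => h⟩

theorem cv1r_two {b : ℝ} (h : b = 2) : cv1r.v b = 0 := by
  have e : swg.v = swn := by funext y; simp [swg, swn]
  subst h
  simp only [cv1r, e, swn_two]
  push_cast
  ring
theorem cv2r_two {b : ℝ} (h : b = 2) : cv2r.v b = 0 := by
  have e : swg.v = swn := by funext y; simp [swg, swn]
  subst h
  simp only [cv2r, e, swn_two]
  push_cast
  ring
theorem cv3r_two {b : ℝ} (h : b = 2) : cv3r.v b = 0 := by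
  have e : swg.v = swn := by funext y; simp [swg, swn]
  subst h
  simp only [cv3r, e, swn_two]
  push_cast
  ring
noncomputable def c1g_s : Sl1 c1g := ⟨_, fun h1 => (pr_sqrtgz (pr_csub (enc_pnc _ 1) (pr_scale 3 4 (pr_sq h1))))⟩
noncomputable def kcg_6_s : Sl2 kcg_6 := ⟨_, fun h1 h2 => (pr_addc h1 (enc_rat _ 1 4))⟩
noncomputable def kcg_9_s : Sl2 kcg_9 := ⟨_, fun h1 h2 => (pr_addc h1 (enc_rat _ 2 5))⟩
noncomputable def kcg_12_s : Sl2 kcg_12 := ⟨_, fun h1 h2 => (pr_addc h1 (enc_rat _ 9 20))⟩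
noncomputable def kcg_13_s : Sl2 kcg_13 := ⟨_, fun h1 h2 => (pr_scale 937 2000 h1)⟩
noncomputable def kcg_16_s : Sl2 kcg_16 := ⟨_, fun h1 h2 => (pr_scale 187383 125000 h1)⟩
noncomputable def kcg_36_s : Sl2 kcg_36 := ⟨_, fun h1 h2 => (pr_scale 5448513 5000000 h1)⟩
noncomputable def kcg_41_s : Sl2 kcg_41 := ⟨_, fun h1 h2 => (pr_scale 181 500000 h1)⟩
noncomputable def kcg_61_s : Sl2 kcg_61 := ⟨_, fun h1 h2 => (pr_addc h1 (enc_rat _ 7 20))⟩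
noncomputable def kcg_62_s : Sl2 kcg_62 := ⟨_, fun h1 h2 => (pr_scale 14471963 5000000 h1)⟩
noncomputable def kcg_67_s : Sl2 kcg_67 := ⟨_, fun h1 h2 => (pr_scale 237033 500000 h1)⟩
noncomputable def kcg_85_s : Sl2 kcg_85 := ⟨_, fun h1 h2 => (pr_addc h1 (enc_rat _ 3 10))⟩
noncomputable def kcg_86_s : Sl2 kcg_86 := ⟨_, fun h1 h2 => (pr_scale 11841387 5000000 h1)⟩
noncomputable def kcg_91_s : Sl2 kcg_91 := ⟨_, fun h1 h2 => (pr_scale 3 100000 h1)⟩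
noncomputable def kcg_107_s : Sl2 kcg_107 := ⟨_, fun h1 h2 => (pr_scale 705457 5000000 h1)⟩
noncomputable def kcg_111_s : Sl2 kcg_111 := ⟨_, fun h1 h2 => (pr_scale 59261 125000 h1)⟩
noncomputable def kcg_134_s : Sl2 kcg_134 := ⟨_, fun h1 h2 => (pr_addc h1 (enc_rat _ 3 20))⟩
noncomputable def kcg_137_s : Sl2 kcg_137 := ⟨_, fun h1 h2 => (pr_addc h1 (enc_rat _ 1 5))⟩
noncomputable def kcg_138_s : Sl2 kcg_138 := ⟨_, fun h1 h2 => (pr_scale 7827703 5000000 h1)⟩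
noncomputable def kcg_141_s : Sl2 kcg_141 := ⟨_, fun h1 h2 => (pr_scale 127 250000 h1)⟩
noncomputable def kcg_158_s : Sl2 kcg_158 := ⟨_, fun h1 h2 => (pr_scale 4777917 5000000 h1)⟩
noncomputable def kcg_161_s : Sl2 kcg_161 := ⟨_, fun h1 h2 => (pr_scale 1 500000 h1)⟩
noncomputable def kcg_179_s : Sl2 kcg_179 := ⟨_, fun h1 h2 => (pr_addc h1 (enc_rat _ 1 10))⟩
noncomputable def kcg_180_s : Sl2 kcg_180 := ⟨_, fun h1 h2 => (pr_scale 123607 2500000 h1)⟩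
noncomputable def kcg_185_s : Sl2 kcg_185 := ⟨_, fun h1 h2 => (pr_scale 2499737 500000 h1)⟩
noncomputable def kcg_203_s : Sl2 kcg_203 := ⟨_, fun h1 h2 => (pr_scale 243153 1250000 h1)⟩
noncomputable def kcg_207_s : Sl2 kcg_207 := ⟨_, fun h1 h2 => (pr_scale 2499997 500000 h1)⟩
noncomputable def kcg_221_s : Sl2 kcg_221 := ⟨_, fun h1 h2 => (pr_scale 3525793 5000000 h1)⟩
noncomputable def kcg_228_s : Sl2 kcg_228 := ⟨_, fun h1 h2 => (pr_csub (enc_rat _ 1 4) h1)⟩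
noncomputable def kcg_229_s : Sl2 kcg_229 := ⟨_, fun h1 h2 => (pr_csub (enc_rat _ 2 5) h1)⟩
noncomputable def kcg_230_s : Sl2 kcg_230 := ⟨_, fun h1 h2 => (pr_csub (enc_rat _ 9 20) h1)⟩
noncomputable def kcg_250_s : Sl2 kcg_250 := ⟨_, fun h1 h2 => (pr_csub (enc_rat _ 7 20) h1)⟩
noncomputable def kcg_260_s : Sl2 kcg_260 := ⟨_, fun h1 h2 => (pr_csub (enc_rat _ 3 10) h1)⟩
noncomputable def kcg_281_s : Sl2 kcg_281 := ⟨_, fun h1 h2 => (pr_csub (enc_rat _ 3 20) h1)⟩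
noncomputable def kcg_282_s : Sl2 kcg_282 := ⟨_, fun h1 h2 => (pr_csub (enc_rat _ 1 5) h1)⟩
noncomputable def kcg_303_s : Sl2 kcg_303 := ⟨_, fun h1 h2 => (pr_csub (enc_rat _ 1 10) h1)⟩
noncomputable def kcg_s : Sl2 kcg := ⟨_, fun h1 h2 => (pr_norm (pr_case h1 (pr_case (kcg_6_s.snd h1 h2) (pr_case (kcg_9_s.snd h1 h2) (pr_case (kcg_12_s.snd h1 h2) (pr_add (pr_add (pr_addc (kcg_13_s.snd h1 h2) (enc_rat _ 7056419 20000000)) (pr_cmul (enc_norm (kcg_3.enc h1.l h2)) (pr_norm (pr_subr 367049 312500 (pr_neg (kcg_16_s.snd h1 h2)))))) (pr_cmul (enc_norm (kcg_28.enc h1.l h2)) (pr_norm (pr_mul (pr_norm (pr_addc h1 (enc_rat _ 1 2))) (pr_norm (pr_csub (enc_neg (enc_rat _ 9 20)) h1)))))) (pr_add (pr_add (pr_subr 17418511 50000000 (pr_neg (kcg_36_s.snd h1 h2))) (pr_cmul (enc_norm (kcg_3.enc h1.l h2)) (pr_norm (pr_subr 5001409 10000000 (pr_neg (kcg_41_s.snd h1 h2))))))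 (pr_cmul (enc_norm (kcg_53.enc h1.l h2)) (pr_norm (pr_mul (pr_norm (kcg_12_s.snd h1 h2)) (pr_norm (pr_csub (enc_neg (enc_rat _ 2 5)) h1))))))) (pr_case (kcg_61_s.snd h1 h2) (pr_add (pr_add (pr_subr 53512311 50000000 (pr_neg (kcg_62_s.snd h1 h2))) (pr_cmul (enc_norm (kcg_3.enc h1.l h2)) (pr_norm (pr_subr 3103697 10000000 (kcg_67_s.snd h1 h2))))) (pr_cmul (enc_norm (kcg_78.enc h1.l h2)) (pr_norm (pr_mul (pr_norm (kcg_9_s.snd h1 h2)) (pr_norm (pr_csub (enc_neg (enc_rat _ 7 20)) h1)))))) (pr_case (kcg_85_s.snd h1 h2) (pr_add (pr_add (pr_subr 8861059 10000000 (pr_neg (kcg_86_s.snd h1 h2))) (pr_cmul (enc_norm (kcg_3.enc h1.l h2)) (pr_norm (pr_subr 4763033 10000000 (pr_neg (kcg_91_s.snd h1 h2)))))) (pr_cmul (enc_norm (kcg_102.enc h1.l h2)) (pr_norm (pr_mul (pr_norm (kcg_61_s.snd h1 h2)) (pr_norm (pr_csub (enc_neg (enc_rat _ 3 10)) h1)))))) (pr_add (pr_add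 (pr_subr 6664763 50000000 (kcg_107_s.snd h1 h2)) (pr_cmul (enc_norm (kcg_3.enc h1.l h2)) (pr_norm (pr_subr 6185207 10000000 (pr_neg (kcg_111_s.snd h1 h2)))))) (pr_cmul (enc_norm (kcg_124.enc h1.l h2)) (pr_norm (pr_mul (pr_norm (kcg_85_s.snd h1 h2)) (pr_norm (pr_csub (enc_neg (enc_rat _ 1 4)) h1))))))))) (pr_case (kcg_134_s.snd h1 h2) (pr_case (kcg_137_s.snd h1 h2) (pr_add (pr_add (pr_addc (kcg_138_s.snd h1 h2) (enc_rat _ 2785213 12500000)) (pr_cmul (enc_norm (kcg_3.enc h1.l h2)) (pr_norm (pr_subr 4998717 10000000 (kcg_141_s.snd h1 h2))))) (pr_cmul (enc_norm (kcg_153.enc h1.l h2)) (pr_norm (pr_mul (pr_norm (kcg_6_s.snd h1 h2)) (pr_norm (pr_csub (enc_neg (enc_rat _ 1 5)) h1)))))) (pr_add (pr_add (pr_addc (kcg_158_s.snd h1 h2) (enc_rat _ 7877 78125)) (pr_cmul (enc_norm (kcg_3.enc h1.l h2)) (pr_norm (pr_subr 4999737 10000000 (pr_neg (kcg_161_s.snd h1 h2))))))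 (pr_cmul (enc_norm (kcg_171.enc h1.l h2)) (pr_norm (pr_mul (pr_norm (kcg_137_s.snd h1 h2)) (pr_norm (pr_csub (enc_neg (enc_rat _ 3 20)) h1))))))) (pr_case (kcg_179_s.snd h1 h2) (pr_add (pr_add (pr_subr 4992833 100000000 (pr_neg (kcg_180_s.snd h1 h2))) (pr_cmul (enc_norm (kcg_3.enc h1.l h2)) (pr_norm (pr_addc (kcg_185_s.snd h1 h2) (enc_rat _ 2499477 10000000))))) (pr_cmul (enc_norm (kcg_195.enc h1.l h2)) (pr_norm (pr_mul (pr_norm (kcg_134_s.snd h1 h2)) (pr_norm (pr_csub (enc_neg (enc_rat _ 1 10)) h1)))))) (pr_case (pr_addc h1 (enc_rat _ 1 20)) (pr_add (pr_add (pr_subr 2553181 100000000 (kcg_203_s.snd h1 h2)) (pr_cmul (enc_norm (kcg_3.enc h1.l h2)) (pr_norm (pr_addc (kcg_207_s.snd h1 h2) (enc_rat _ 2499997 10000000))))) (pr_cmul (enc_norm (kcg_216.enc h1.l h2)) (pr_norm (pr_mul (pr_norm (kcg_179_s.snd h1 h2)) (pr_norm (pr_csub (enc_neg (enc_rat _ 1 20))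 h1)))))) (kcg_221_s.snd h1 h2))))) (pr_neg (pr_case (kcg_228_s.snd h1 h2) (pr_case (kcg_229_s.snd h1 h2) (pr_case (kcg_230_s.snd h1 h2) (pr_add (pr_add (pr_csub (enc_rat _ 7056419 20000000) (kcg_13_s.snd h1 h2)) (pr_cmul (enc_norm (kcg_3.enc h1.l h2)) (pr_norm (pr_subr 367049 312500 (kcg_16_s.snd h1 h2))))) (pr_cmul (enc_norm (kcg_28.enc h1.l h2)) (pr_norm (pr_mul (pr_norm (pr_csub (enc_rat _ 1 2) h1)) (pr_norm (pr_subr 9 20 h1)))))) (pr_add (pr_add (pr_subr 17418511 50000000 (kcg_36_s.snd h1 h2)) (pr_cmul (enc_norm (kcg_3.enc h1.l h2)) (pr_norm (pr_subr 5001409 10000000 (kcg_41_s.snd h1 h2))))) (pr_cmul (enc_norm (kcg_53.enc h1.l h2)) (pr_norm (pr_mul (pr_norm (kcg_230_s.snd h1 h2)) (pr_norm (pr_subr 2 5 h1))))))) (pr_case (kcg_250_s.snd h1 h2) (pr_add (pr_add (pr_subr 53512311 50000000 (kcg_62_s.snd h1 h2)) (pr_cmul (enc_norm (kcg_3.enc h1.l h2))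 (pr_norm (pr_subr 3103697 10000000 (pr_neg (kcg_67_s.snd h1 h2)))))) (pr_cmul (enc_norm (kcg_78.enc h1.l h2)) (pr_norm (pr_mul (pr_norm (kcg_229_s.snd h1 h2)) (pr_norm (pr_subr 7 20 h1)))))) (pr_case (kcg_260_s.snd h1 h2) (pr_add (pr_add (pr_subr 8861059 10000000 (kcg_86_s.snd h1 h2)) (pr_cmul (enc_norm (kcg_3.enc h1.l h2)) (pr_norm (pr_subr 4763033 10000000 (kcg_91_s.snd h1 h2))))) (pr_cmul (enc_norm (kcg_102.enc h1.l h2)) (pr_norm (pr_mul (pr_norm (kcg_250_s.snd h1 h2)) (pr_norm (pr_subr 3 10 h1)))))) (pr_add (pr_add (pr_subr 6664763 50000000 (pr_neg (kcg_107_s.snd h1 h2))) (pr_cmul (enc_norm (kcg_3.enc h1.l h2)) (pr_norm (pr_subr 6185207 10000000 (kcg_111_s.snd h1 h2))))) (pr_cmul (enc_norm (kcg_124.enc h1.l h2)) (pr_norm (pr_mul (pr_norm (kcg_260_s.snd h1 h2)) (pr_norm (pr_subr 1 4 h1))))))))) (pr_case (kcg_281_s.snd h1 h2) (pr_case (kcg_282_s.snd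 h1 h2) (pr_add (pr_add (pr_csub (enc_rat _ 2785213 12500000) (kcg_138_s.snd h1 h2)) (pr_cmul (enc_norm (kcg_3.enc h1.l h2)) (pr_norm (pr_subr 4998717 10000000 (pr_neg (kcg_141_s.snd h1 h2)))))) (pr_cmul (enc_norm (kcg_153.enc h1.l h2)) (pr_norm (pr_mul (pr_norm (kcg_228_s.snd h1 h2)) (pr_norm (pr_subr 1 5 h1)))))) (pr_add (pr_add (pr_csub (enc_rat _ 7877 78125) (kcg_158_s.snd h1 h2)) (pr_cmul (enc_norm (kcg_3.enc h1.l h2)) (pr_norm (pr_subr 4999737 10000000 (kcg_161_s.snd h1 h2))))) (pr_cmul (enc_norm (kcg_171.enc h1.l h2)) (pr_norm (pr_mul (pr_norm (kcg_282_s.snd h1 h2)) (pr_norm (pr_subr 3 20 h1))))))) (pr_case (kcg_303_s.snd h1 h2) (pr_add (pr_add (pr_subr 4992833 100000000 (kcg_180_s.snd h1 h2)) (pr_cmul (enc_norm (kcg_3.enc h1.l h2)) (pr_norm (pr_csub (enc_rat _ 2499477 10000000) (kcg_185_s.snd h1 h2))))) (pr_cmul (enc_norm (kcg_195.enc h1.l h2))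 (pr_norm (pr_mul (pr_norm (kcg_281_s.snd h1 h2)) (pr_norm (pr_subr 1 10 h1)))))) (pr_case (pr_csub (enc_rat _ 1 20) h1) (pr_add (pr_add (pr_subr 2553181 100000000 (pr_neg (kcg_203_s.snd h1 h2))) (pr_cmul (enc_norm (kcg_3.enc h1.l h2)) (pr_norm (pr_csub (enc_rat _ 2499997 10000000) (kcg_207_s.snd h1 h2))))) (pr_cmul (enc_norm (kcg_216.enc h1.l h2)) (pr_norm (pr_mul (pr_norm (kcg_303_s.snd h1 h2)) (pr_norm (pr_subr 1 20 h1)))))) (pr_neg (kcg_221_s.snd h1 h2)))))))))⟩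
noncomputable def kf0q0_9_s : Sl2 kf0q0_9 := ⟨_, fun h1 h2 => (pr_scale 3 2 h1)⟩
noncomputable def kf0q0_12_s : Sl2 kf0q0_12 := ⟨_, fun h1 h2 => (pr_cadd (enc_pnc _ 1) (c1g_s.snd h1))⟩
noncomputable def kf0q0_s : Sl2 kf0q0 := ⟨_, fun h1 h2 => (pr_norm (pr_add (pr_mul (pr_norm (pr_mul (pr_norm (pr_sub (c1g_s.snd h1) (kf0q0_9_s.snd h1 h2))) (pr_norm (kf0q0_12_s.snd h1 h2)))) (pr_nd (pr_inv (pr_sub (kf0q0_12_s.snd h1 h2) (kf0q0_9_s.snd h1 h2))))) (pr_mul h1 (kcg_s.snd (pr_norm (pr_sub (pr_scale 3 4 h1) (pr_half (c1g_s.snd h1)))) h2))))⟩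
noncomputable def txg_6_s : Sl3 txg_6 := ⟨_, fun h1 h2 h3 => (pr_add h1 (pr_half h2))⟩
noncomputable def txg_27_s : Sl3 txg_27 := ⟨_, fun h1 h2 h3 => (pr_addc h1 (enc_rat _ 13 50))⟩
noncomputable def txg_30_s : Sl3 txg_30 := ⟨_, fun h1 h2 h3 => (pr_addc h1 (enc_rat _ 19 50))⟩
noncomputable def txg_33_s : Sl3 txg_33 := ⟨_, fun h1 h2 h3 => (pr_addc h1 (enc_rat _ 11 25))⟩
noncomputable def txg_75_s : Sl3 txg_75 := ⟨_, fun h1 h2 h3 => (pr_addc h1 (enc_rat _ 8 25))⟩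
noncomputable def txg_116_s : Sl3 txg_116 := ⟨_, fun h1 h2 h3 => (pr_addc h1 (enc_rat _ 4 25))⟩
noncomputable def txg_119_s : Sl3 txg_119 := ⟨_, fun h1 h2 h3 => (pr_addc h1 (enc_rat _ 1 5))⟩
noncomputable def txg_165_s : Sl3 txg_165 := ⟨_, fun h1 h2 h3 => (pr_addc h1 (enc_rat _ 13 100))⟩
noncomputable def txg_225_s : Sl3 txg_225 := ⟨_, fun h1 h2 h3 => (pr_addc h1 (enc_rat _ 1 97))⟩
noncomputable def txg_226_s : Sl3 txg_226 := ⟨_, fun h1 h2 h3 => (pr_subr 1 5 h1)⟩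
noncomputable def txg_228_s : Sl3 txg_228 := ⟨_, fun h1 h2 h3 => (pr_subr 1 20 h1)⟩
noncomputable def txg_230_s : Sl3 txg_230 := ⟨_, fun h1 h2 h3 => (pr_subr 1 100 h1)⟩
noncomputable def txg_270_s : Sl3 txg_270 := ⟨_, fun h1 h2 h3 => (pr_subr 1 10 h1)⟩
noncomputable def txg_293_s : Sl3 txg_293 := ⟨_, fun h1 h2 h3 => (pr_subr 3 20 h1)⟩
noncomputable def txg_336_s : Sl3 txg_336 := ⟨_, fun h1 h2 h3 => (pr_subr 7 20 h1)⟩
noncomputable def txg_338_s : Sl3 txg_338 := ⟨_, fun h1 h2 h3 => (pr_subr 1 4 h1)⟩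
noncomputable def txg_358_s : Sl3 txg_358 := ⟨_, fun h1 h2 h3 => (pr_subr 3 10 h1)⟩
noncomputable def txg_398_s : Sl3 txg_398 := ⟨_, fun h1 h2 h3 => (pr_subr 2 5 h1)⟩
noncomputable def txg_418_s : Sl3 txg_418 := ⟨_, fun h1 h2 h3 => (pr_subr 11 25 h1)⟩
noncomputable def txg_s : Sl3 txg := ⟨_, fun h1 h2 h3 => (pr_case (pr_addc h1 (enc_rat _ 13 134)) (pr_case (txg_27_s.snd h1 h2 h3) (pr_case (txg_30_s.snd h1 h2 h3) (pr_case (txg_33_s.snd h1 h2 h3) (pr_add (pr_add (pr_addc (pr_scale 841601 6000000 h1) (enc_rat _ 841601 12000000)) (pr_cmul (enc_norm (txg_4.enc h1.l h2.l h3)) (pr_norm (pr_addc (pr_scale 12859 20000 h1) (enc_rat _ 12859 40000))))) (pr_cmul (enc_norm (enc_subr 12977 1000000 (enc_scale 335909 50000 (txg_4.enc h1.l h2.l h3)))) (pr_norm (pr_mul (pr_norm (pr_addc h1 (enc_rat _ 1 2))) (pr_norm (pr_csub (enc_neg (enc_rat _ 11 25)) h1)))))) (pr_add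 (pr_add (pr_addc (pr_scale 209327 6000000 h1) (enc_rat _ 7129997 300000000)) (pr_cmul (enc_norm (txg_4.enc h1.l h2.l h3)) (pr_norm (pr_addc (pr_scale 258793 300000 h1) (enc_rat _ 6272101 15000000))))) (pr_cmul (enc_norm (enc_sub (enc_rat _ 884647 500000) (enc_scale 259493 25000 (txg_4.enc h1.l h2.l h3)))) (pr_norm (pr_mul (pr_norm (txg_33_s.snd h1 h2 h3)) (pr_norm (pr_csub (enc_neg (enc_rat _ 19 50)) h1))))))) (pr_case (txg_75_s.snd h1 h2 h3) (pr_add (pr_add (pr_addc (pr_scale 69011 6000000 h1) (enc_rat _ 4463993 300000000)) (pr_cmul (enc_norm (txg_4.enc h1.l h2.l h3)) (pr_norm (pr_addc (pr_scale 42301 60000 h1) (enc_rat _ 5373629 15000000))))) (pr_cmul (enc_norm (enc_subr 172441 125000 (enc_scale 32517 2500 (txg_4.enc h1.l h2.l h3)))) (pr_norm (pr_mul (pr_norm (txg_30_s.snd h1 h2 h3)) (pr_norm (pr_csub (enc_neg (enc_rat _ 8 25)) h1)))))) (pr_add (pr_add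 (pr_addc (pr_scale 158541 1000000 h1) (enc_rat _ 6193251 100000000)) (pr_cmul (enc_norm (txg_4.enc h1.l h2.l h3)) (pr_norm (pr_subr 1470851 15000000 (pr_neg (pr_scale 8651 12000 h1)))))) (pr_cmul (enc_norm (enc_subr 1071123 1000000 (enc_scale 1075879 100000 (txg_4.enc h1.l h2.l h3)))) (pr_norm (pr_mul (pr_norm (txg_75_s.snd h1 h2 h3)) (pr_norm (pr_csub (enc_neg (enc_rat _ 13 50)) h1)))))))) (pr_case (txg_116_s.snd h1 h2 h3) (pr_case (txg_119_s.snd h1 h2 h3) (pr_add (pr_add (pr_addc (pr_scale 553487 2000000 h1) (enc_rat _ 2316629 25000000)) (pr_cmul (enc_norm (txg_4.enc h1.l h2.l h3)) (pr_norm (pr_subr 2746073 15000000 (pr_neg (pr_scale 314369 300000 h1)))))) (pr_cmul (enc_norm (enc_subr 22473 25000 (enc_neg (enc_scale 530913 100000 (txg_4.enc h1.l h2.l h3))))) (pr_norm (pr_mul (pr_norm (txg_27_s.snd h1 h2 h3)) (pr_norm (pr_csub (enc_neg (enc_rat _ 1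 5)) h1)))))) (pr_add (pr_add (pr_addc (pr_scale 285347 800000 h1) (enc_rat _ 10865321 100000000)) (pr_cmul (enc_norm (txg_4.enc h1.l h2.l h3)) (pr_norm (pr_subr 1107737 10000000 (pr_neg (pr_scale 274563 400000 h1)))))) (pr_cmul (enc_norm (enc_subr 650127 1000000 (enc_neg (enc_scale 26839 25000 (txg_4.enc h1.l h2.l h3))))) (pr_norm (pr_mul (pr_norm (txg_119_s.snd h1 h2 h3)) (pr_norm (pr_csub (enc_neg (enc_rat _ 4 25)) h1))))))) (pr_case (txg_165_s.snd h1 h2 h3) (pr_add (pr_add (pr_addc (pr_scale 219491 600000 h1) (enc_rat _ 33034423 300000000)) (pr_cmul (enc_norm (txg_4.enc h1.l h2.l h3)) (pr_norm (pr_subr 2176327 30000000 (pr_neg (pr_scale 67121 150000 h1)))))) (pr_cmul (enc_norm (enc_add (enc_mul (enc_norm (enc_subr 20416 3125 (enc_scale 294921 5000 (txg_4.enc h1.l h2.l h3)))) (enc_norm (txg_4.enc h1.l h2.l h3))) (enc_rat _ 140589 250000))) (pr_norm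 (pr_mul (pr_norm (txg_116_s.snd h1 h2 h3)) (pr_norm (pr_csub (enc_neg (enc_rat _ 13 100)) h1)))))) (pr_add (pr_add (pr_add (pr_addc (pr_scale 520241713984013 1661715575000000 h1) (enc_rat _ 1319889415202913 12782427500000000)) (pr_cmul (enc_norm (txg_4.enc h1.l h2.l h3)) (pr_norm (pr_subr 30148513155761 1278242750000000 (pr_neg (pr_scale 2944178395709 41542889375000 h1)))))) (pr_cmul (enc_sq (enc_norm (txg_4.enc h1.l h2.l h3))) (pr_norm (pr_subr 2480622039 9539125000 (pr_neg (pr_scale 2480622039 1240086250 h1)))))) (pr_cmul (enc_norm (enc_add (enc_mul (enc_norm (enc_subr 547537 100000 (enc_neg (enc_scale 477197 5000 (txg_4.enc h1.l h2.l h3))))) (enc_norm (txg_4.enc h1.l h2.l h3))) (enc_rat _ 543769 500000))) (pr_norm (pr_mul (pr_norm (txg_165_s.snd h1 h2 h3)) (pr_norm (pr_csub (enc_neg (enc_rat _ 13 134)) h1))))))))) (pr_case (txg_225_s.snd h1 h2 h3)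 (pr_sub (pr_mul (pr_norm (pr_csub (enc_pnc _ 1) h2)) (pr_norm (pr_subn 1 (pr_nat 2 h2)))) (pr_mul (pr_norm (pr_nat 2 (pr_subc (pr_scale 4 3 (txg_6_s.snd h1 h2 h3)) h3))) (pr_norm (pr_mul (pr_norm (pr_subn 1 (pr_add (pr_scale 2 3 (txg_6_s.snd h1 h2 h3)) h2))) (kcg_s.snd h1 h3))))) (pr_case (txg_226_s.snd h1 h2 h3) (pr_case (txg_228_s.snd h1 h2 h3) (pr_case (txg_230_s.snd h1 h2 h3) (pr_add (pr_add (pr_addc (pr_scale 2131844726611 18535730000000 h1) (enc_rat _ 179679106731139 1853573000000000)) (pr_cmul (enc_norm (txg_4.enc h1.l h2.l h3)) (pr_norm (pr_addc (pr_scale 41514171 95545000 h1) (enc_rat _ 21316221 9554500000))))) (pr_cmul (enc_norm (enc_sub (enc_rat _ 1139469 200000) (enc_scale 66651 6250 (txg_4.enc h1.l h2.l h3)))) (pr_norm (pr_mul (pr_norm (txg_225_s.snd h1 h2 h3)) (pr_norm (pr_csub (enc_rat _ 1 100) h1)))))) (pr_add (pr_add (pr_csub (enc_rat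 _ 3931301 40000000) (pr_scale 7831 400000 h1)) (pr_cmul (enc_norm (txg_4.enc h1.l h2.l h3)) (pr_norm (pr_addc (pr_scale 26219 40000 h1) (enc_rat _ 17 800000))))) (pr_cmul (enc_norm (enc_sub (enc_rat _ 472041 1000000) (enc_scale 2747 25000 (txg_4.enc h1.l h2.l h3)))) (pr_norm (pr_mul (pr_norm (txg_230_s.snd h1 h2 h3)) (pr_norm (pr_csub (enc_rat _ 1 20) h1))))))) (pr_case (txg_270_s.snd h1 h2 h3) (pr_add (pr_add (pr_csub (enc_rat _ 9920891 100000000) (pr_scale 95263 2500000 h1)) (pr_cmul (enc_norm (txg_4.enc h1.l h2.l h3)) (pr_norm (pr_subr 10939 10000000 (pr_scale 338889 500000 h1))))) (pr_cmul (enc_norm (enc_subr 1771 250000 (enc_neg (enc_scale 17907 50000 (txg_4.enc h1.l h2.l h3))))) (pr_norm (pr_mul (pr_norm (txg_228_s.snd h1 h2 h3)) (pr_norm (pr_csub (enc_rat _ 1 10) h1)))))) (pr_case (txg_293_s.snd h1 h2 h3) (pr_add (pr_add (pr_csub (enc_rat _ 2080801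 20000000) (pr_scale 432083 5000000 h1)) (pr_cmul (enc_norm (txg_4.enc h1.l h2.l h3)) (pr_norm (pr_subr 156161 10000000 (pr_scale 823 1000 h1))))) (pr_cmul (enc_norm (enc_sub (enc_rat _ 486657 500000) (enc_scale 25463 10000 (txg_4.enc h1.l h2.l h3)))) (pr_norm (pr_mul (pr_norm (txg_270_s.snd h1 h2 h3)) (pr_norm (pr_csub (enc_rat _ 3 20) h1)))))) (pr_add (pr_add (pr_csub (enc_rat _ 451889 4000000) (pr_scale 729823 5000000 h1)) (pr_cmul (enc_norm (txg_4.enc h1.l h2.l h3)) (pr_norm (pr_subr 6847 200000 (pr_scale 473563 500000 h1))))) (pr_cmul (enc_norm (enc_add (enc_scale 6377 100000 (txg_4.enc h1.l h2.l h3)) (enc_rat _ 43529 200000))) (pr_norm (pr_mul (pr_norm (txg_293_s.snd h1 h2 h3)) (pr_norm (pr_csub (enc_rat _ 1 5) h1))))))))) (pr_case (txg_336_s.snd h1 h2 h3) (pr_case (txg_338_s.snd h1 h2 h3) (pr_add (pr_add (pr_csub (enc_rat _ 2489417 20000000) (pr_scale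 127161 625000 h1)) (pr_cmul (enc_norm (txg_4.enc h1.l h2.l h3)) (pr_norm (pr_subr 65411 5000000 (pr_scale 420681 500000 h1))))) (pr_cmul (enc_norm (enc_add (enc_scale 51287 25000 (txg_4.enc h1.l h2.l h3)) (enc_rat _ 116527 125000))) (pr_norm (pr_mul (pr_norm (txg_226_s.snd h1 h2 h3)) (pr_norm (pr_csub (enc_rat _ 1 4) h1)))))) (pr_case (txg_358_s.snd h1 h2 h3) (pr_add (pr_add (pr_csub (enc_rat _ 2966429 20000000) (pr_scale 14943 50000 h1)) (pr_cmul (enc_norm (txg_4.enc h1.l h2.l h3)) (pr_norm (pr_addc (pr_scale 152461 250000 h1) (enc_rat _ 447973 10000000))))) (pr_cmul (enc_norm (enc_add (enc_scale 64473 25000 (txg_4.enc h1.l h2.l h3)) (enc_rat _ 121979 125000))) (pr_norm (pr_mul (pr_norm (txg_338_s.snd h1 h2 h3)) (pr_norm (pr_csub (enc_rat _ 3 10) h1)))))) (pr_add (pr_add (pr_csub (enc_rat _ 3217349 20000000) (pr_scale 8517 25000 h1)) (pr_cmul (enc_norm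 (txg_4.enc h1.l h2.l h3)) (pr_norm (pr_csub (enc_rat _ 2630419 10000000) (pr_scale 58819 500000 h1))))) (pr_cmul (enc_norm (enc_subr 27887 200000 (enc_scale 74817 6250 (txg_4.enc h1.l h2.l h3)))) (pr_norm (pr_mul (pr_norm (txg_358_s.snd h1 h2 h3)) (pr_norm (pr_csub (enc_rat _ 7 20) h1)))))))) (pr_case (txg_398_s.snd h1 h2 h3) (pr_add (pr_add (pr_csub (enc_rat _ 15176059 100000000) (pr_scale 786651 2500000 h1)) (pr_cmul (enc_norm (txg_4.enc h1.l h2.l h3)) (pr_norm (pr_csub (enc_rat _ 1059089 2000000) (pr_scale 439537 500000 h1))))) (pr_cmul (enc_norm (enc_subr 76191 200000 (enc_scale 325799 100000 (txg_4.enc h1.l h2.l h3)))) (pr_norm (pr_mul (pr_norm (txg_336_s.snd h1 h2 h3)) (pr_norm (pr_csub (enc_rat _ 2 5) h1)))))) (pr_case (txg_418_s.snd h1 h2 h3) (pr_add (pr_add (pr_csub (enc_rat _ 14028703 100000000) (pr_scale 571953 2000000 h1)) (pr_cmul (enc_norm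 (txg_4.enc h1.l h2.l h3)) (pr_norm (pr_csub (enc_rat _ 6934019 10000000) (pr_scale 515487 400000 h1))))) (pr_cmul (enc_norm (enc_subr 240899 1000000 (enc_scale 30843 5000 (txg_4.enc h1.l h2.l h3)))) (pr_norm (pr_mul (pr_norm (txg_398_s.snd h1 h2 h3)) (pr_norm (pr_csub (enc_rat _ 11 25) h1)))))) (pr_add (pr_add (pr_csub (enc_rat _ 1445737 12000000) (pr_scale 1445737 6000000 h1)) (pr_cmul (enc_norm (txg_4.enc h1.l h2.l h3)) (pr_norm (pr_csub (enc_rat _ 631831 600000) (pr_scale 631831 300000 h1))))) (pr_cmul (enc_norm (enc_subr 589741 1000000 (enc_scale 237767 25000 (txg_4.enc h1.l h2.l h3)))) (pr_norm (pr_mul (pr_norm (txg_418_s.snd h1 h2 h3)) (pr_norm (pr_csub (enc_rat _ 1 2) h1))))))))))))⟩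
noncomputable def l0q0_s : Sl2 l0q0 := ⟨_, fun h1 h2 => (pr_norm (txg_s.snd (pr_norm (pr_sub (pr_scale 3 4 h1) (pr_half (c1g_s.snd h1)))) (pr_nd (c1g_s.snd h1)) h2))⟩
noncomputable def gsg_s : Sl1 gsg := ⟨_, fun h1 => (pr_sqrt (pr_csub (enc_pnc _ 1) (pr_scale 3 4 (pr_sq h1))))⟩
noncomputable def gug_s : Sl1 gug := ⟨_, fun h1 => (pr_norm (pr_add (pr_scale 3 4 h1) (pr_scale 3 2 (pr_csub (enc_pnc _ 1) (gsg_s.snd h1)))))⟩
noncomputable def kc0q0_8_s : Sl2 kc0q0_8 := ⟨_, fun h1 h2 => (pr_sub (pr_scale 3 4 h1) (pr_half (c1g_s.snd h1)))⟩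
noncomputable def kc0q0_s : Sl2 kc0q0 := ⟨_, fun h1 h2 => (pr_norm (pr_case (pr_addc (kc0q0_8_s.snd h1 h2) (enc_rat _ 13 134)) (pr_case (pr_addc (kc0q0_8_s.snd h1 h2) (enc_rat _ 17 50)) (pr_case (pr_addc (kc0q0_8_s.snd h1 h2) (enc_rat _ 21 50)) (pr_add (pr_addc (pr_scale 5343 4000 (kc0q0_8_s.snd h1 h2)) (enc_rat _ 5343 8000)) (pr_cmul (enc_norm (kc0q0_3.enc h1.l h2)) (pr_norm (pr_subr 61161 16000 (pr_neg (pr_scale 61161 8000 (kc0q0_8_s.snd h1 h2))))))) (pr_add (pr_addc (pr_scale 39241 40000 (kc0q0_8_s.snd h1 h2)) (enc_rat _ 1037781 2000000)) (pr_cmul (enc_norm (kc0q0_3.enc h1.l h2)) (pr_norm (pr_addc (pr_scale 31319 4000 (kc0q0_8_s.snd h1 h2)) (enc_rat _ 535377 200000)))))) (pr_case (pr_addc (kc0q0_8_s.snd h1 h2) (enc_rat _ 13 50)) (pr_add (pr_addc (pr_scale 542677 80000 (kc0q0_8_s.snd h1 h2)) (enc_rat _ 9966877 4000000)) (pr_cmul (enc_norm (kc0q0_3.enc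 h1.l h2)) (pr_norm (pr_subr 75713 5000 (pr_neg (pr_scale 89161 2000 (kc0q0_8_s.snd h1 h2))))))) (pr_case (pr_addc (kc0q0_8_s.snd h1 h2) (enc_rat _ 9 50)) (pr_add (pr_addc (pr_scale 135041 20000 (kc0q0_8_s.snd h1 h2)) (enc_rat _ 77611 31250)) (pr_cmul (enc_norm (kc0q0_3.enc h1.l h2)) (pr_norm (pr_subr 5627429 400000 (pr_neg (pr_scale 323597 8000 (kc0q0_8_s.snd h1 h2))))))) (pr_add (pr_addc (pr_scale 333700295073 55600000000 (kc0q0_8_s.snd h1 h2)) (enc_rat _ 6528851395657 2780000000000)) (pr_cmul (enc_norm (kc0q0_3.enc h1.l h2)) (pr_norm (pr_addc (pr_scale 2445165444143 27800000000 (kc0q0_8_s.snd h1 h2)) (enc_rat _ 12571669397287 1390000000000)))))))) (pr_sub (pr_add (pr_cadd (enc_rat _ 3 4) (pr_scale 3 2 h1)) (pr_scale 3 4 (pr_mul (pr_norm (pr_mul h1 (pr_nd (pr_inv (c1g_s.snd h1))))) (gug_s.snd h1)))) (pr_mul (kcg_s.snd (pr_norm (kc0q0_8_s.snd h1 h2))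 h2) (pr_norm (pr_add (gug_s.snd h1) (pr_nat 2 (c1g_s.snd h1))))))))⟩
noncomputable def kf0q1_10_s : Sl2 kf0q1_10 := ⟨_, fun h1 h2 => (pr_scale 3 2 h1)⟩
noncomputable def kf0q1_s : Sl2 kf0q1 := ⟨_, fun h1 h2 => (pr_norm (pr_add (pr_mul (pr_norm (pr_mul (pr_norm (pr_cadd (enc_pnc _ 1) (pr_nat 2 (c1g_s.snd h1)))) (pr_norm (pr_sub (kf0q1_10_s.snd h1 h2) (c1g_s.snd h1))))) (pr_nd (pr_inv (pr_nat 2 (pr_sub (pr_cadd (enc_pnc _ 1) (kf0q1_10_s.snd h1 h2)) (c1g_s.snd h1)))))) (pr_mul (pr_norm (pr_subn 1 h1)) (kcg_s.snd (pr_norm (pr_sub (pr_scale 3 4 h1) (pr_half (c1g_s.snd h1)))) h2))))⟩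
noncomputable def l0q1_s : Sl2 l0q1 := ⟨_, fun h1 h2 => (pr_norm (txg_s.snd (pr_norm (pr_sub (pr_scale 3 4 h1) (pr_half (c1g_s.snd h1)))) (pr_nd (c1g_s.snd h1)) h2))⟩
noncomputable def kc0q1_9_s : Sl2 kc0q1_9 := ⟨_, fun h1 h2 => (pr_sub (pr_scale 3 4 h1) (pr_half (c1g_s.snd h1)))⟩
noncomputable def kc0q1_s : Sl2 kc0q1 := ⟨_, fun h1 h2 => (pr_norm (pr_case (pr_addc (kc0q1_9_s.snd h1 h2) (enc_rat _ 1 97)) (pr_sub (pr_add (pr_cadd (enc_rat _ 3 4) (pr_scale 3 2 h1)) (pr_scale 3 4 (pr_mul (pr_norm (pr_mul h1 (pr_nd (pr_inv (c1g_s.snd h1))))) (gug_s.snd h1)))) (pr_mul (kcg_s.snd (pr_norm (kc0q1_9_s.snd h1 h2)) h2) (pr_norm (pr_add (gug_s.snd h1) (pr_nat 2 (c1g_s.snd h1)))))) (pr_case (pr_subr 6 25 (kc0q1_9_s.snd h1 h2)) (pr_case (pr_subr 7 100 (kc0q1_9_s.snd h1 h2)) (pr_add (pr_addc (pr_scale 64935668263 19475000000 (kc0q1_9_s.snd h1 h2)) (enc_rat _ 3805435192159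 1947500000000)) (pr_cmul (enc_norm (kc0q1_3.enc h1.l h2)) (pr_norm (pr_subr 184427 779000 (pr_neg (pr_scale 17889419 779000 (kc0q1_9_s.snd h1 h2))))))) (pr_case (pr_subr 4 25 (kc0q1_9_s.snd h1 h2)) (pr_add (pr_csub (enc_rat _ 25413709 9000000) (pr_scale 818143 90000 (kc0q1_9_s.snd h1 h2))) (pr_cmul (enc_norm (kc0q1_3.enc h1.l h2)) (pr_norm (pr_subr 545891 900000 (pr_neg (pr_scale 19892 1125 (kc0q1_9_s.snd h1 h2))))))) (pr_add (pr_csub (enc_rat _ 3444771 1000000) (pr_scale 1037751 80000 (kc0q1_9_s.snd h1 h2))) (pr_cmul (enc_norm (kc0q1_3.enc h1.l h2)) (pr_norm (pr_subr 161927 100000 (pr_neg (pr_scale 45409 4000 (kc0q1_9_s.snd h1 h2))))))))) (pr_case (pr_subr 33 100 (kc0q1_9_s.snd h1 h2)) (pr_add (pr_csub (enc_rat _ 5167753 1500000) (pr_scale 1167619 90000 (kc0q1_9_s.snd h1 h2))) (pr_cmul (enc_norm (kc0q1_3.enc h1.l h2)) (pr_norm (pr_subr 405469 100000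 (pr_neg (pr_scale 1807 1500 (kc0q1_9_s.snd h1 h2))))))) (pr_case (pr_subr 41 100 (kc0q1_9_s.snd h1 h2)) (pr_add (pr_subr 8905069 4000000 (pr_scale 33701 8000 (kc0q1_9_s.snd h1 h2))) (pr_cmul (enc_norm (kc0q1_3.enc h1.l h2)) (pr_norm (pr_subr 5240197 800000 (pr_scale 50861 8000 (kc0q1_9_s.snd h1 h2)))))) (pr_add (pr_subr 499091 180000 (pr_scale 499091 90000 (kc0q1_9_s.snd h1 h2))) (pr_cmul (enc_norm (kc0q1_3.enc h1.l h2)) (pr_norm (pr_subr 21909 1000 (pr_scale 21909 500 (kc0q1_9_s.snd h1 h2)))))))))))⟩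
noncomputable def yag_s : Sl1 yag := ⟨_, fun h1 => (pr_sqrt (pr_scale 4 3 (pr_csub (enc_pnc _ 1) (pr_sq h1))))⟩
noncomputable def kfc02_s : Sl2 kfc02 := ⟨_, fun h1 h2 => (pr_norm (pr_add h1 (pr_mul (pr_norm (pr_subn 1 (yag_s.snd h1))) (kcg_s.snd (pr_nd (pr_neg h1)) h2))))⟩
noncomputable def lc02_7_s : Sl2 lc02_7 := ⟨_, fun h1 h2 => (pr_scale 3 4 (yag_s.snd h1))⟩
noncomputable def lc02_8_s : Sl2 lc02_8 := ⟨_, fun h1 h2 => (pr_half h1)⟩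
noncomputable def lc02_s : Sl2 lc02 := ⟨_, fun h1 h2 => (pr_norm (pr_sub (txg_s.snd (pr_nd (pr_neg h1)) (pr_norm (pr_add (lc02_7_s.snd h1 h2) (lc02_8_s.snd h1 h2))) h2) (txg_s.snd h1 (pr_norm (pr_sub (lc02_7_s.snd h1 h2) (lc02_8_s.snd h1 h2))) h2)))⟩
noncomputable def kcc02_s : Sl2 kcc02 := ⟨_, fun h1 h2 => (pr_norm (pr_case (pr_subr 1 5 h1) (pr_case (pr_subr 1 10 h1) (pr_sub (pr_scale 9851 4000 h1) (pr_cmul (enc_norm (kcc02_4.enc h1.l h2)) (pr_nd (pr_scale 143933 10000 h1)))) (pr_add (pr_addc (pr_scale 248 3125 h1) (enc_rat _ 238339 1000000)) (pr_cmul (enc_norm (kcc02_4.enc h1.l h2)) (pr_norm (pr_subr 2417 25000 (pr_neg (pr_scale 26853 2000 h1))))))) (pr_case (pr_subr 3 10 h1) (pr_add (pr_addc (pr_scale 991 25000 h1) (enc_rat _ 246283 1000000)) (pr_cmul (enc_norm (kcc02_4.enc h1.l h2)) (pr_norm (pr_subr 254387 50000 (pr_scale 14411 1250 h1))))) (pr_case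 (pr_subr 2 5 h1) (pr_add (pr_csub (enc_rat _ 252487 250000) (pr_scale 250591 100000 h1)) (pr_cmul (enc_norm (kcc02_4.enc h1.l h2)) (pr_norm (pr_subr 664891 100000 (pr_scale 167327 10000 h1))))) (pr_add (pr_csub (enc_rat _ 237 6250) (pr_scale 237 3125 h1)) (pr_cmul (enc_norm (kcc02_4.enc h1.l h2)) (pr_norm (pr_csub (enc_rat _ 4417 20000) (pr_scale 4417 10000 h1)))))))))⟩
noncomputable def swg_s : Sl1 swg := ⟨_, fun h1 => (pr_sqrt (pr_csub (enc_pnc _ 1) (pr_scale 3 4 (pr_sq (pr_norm (pr_subn 1 h1))))))⟩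
noncomputable def cv1m_s : Sl1 cv1m := ⟨_, fun h1 => (pr_norm (pr_add (pr_scale 22 25 (c1g_s.snd h1)) (pr_scale 3 25 (pr_addc (swg_s.snd h1) (enc_rat _ 1 2)))))⟩
noncomputable def bf1q0_s : Sl2 bf1q0 := ⟨_, fun h1 h2 => (pr_norm (pr_case (pr_subr 23 100 h1) (pr_case (pr_subr 11 100 h1) (pr_sub (pr_csub (enc_pnc _ 1) (pr_scale 24383 27500 h1)) (pr_cmul (enc_norm (bf1q0_3.enc h1.l h2)) (pr_nd (pr_scale 57 2750 h1)))) (pr_add (pr_csub (enc_rat _ 211991 200000) (pr_scale 14317 10000 h1)) (pr_cmul (enc_norm (bf1q0_3.enc h1.l h2)) (pr_norm (pr_subr 823 30000 (pr_scale 343 1500 h1)))))) (pr_case (pr_subr 17 50 h1) (pr_add (pr_csub (enc_rat _ 3933 3520) (pr_scale 184927 110000 h1)) (pr_cmul (enc_norm (bf1q0_3.enc h1.l h2)) (pr_norm (pr_csub (enc_rat _ 112477 1100000) (pr_scale 3687 11000 h1))))) (pr_case (pr_subr 453 1000 h1) (pr_add (pr_csub (enc_rat _ 131469941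 113000000) (pr_scale 205299 113000 h1)) (pr_cmul (enc_norm (bf1q0_3.enc h1.l h2)) (pr_norm (pr_csub (enc_rat _ 3652897 11300000) (pr_scale 11133 11300 h1))))) (pr_add (pr_csub (enc_rat _ 11028229 9400000) (pr_scale 86403 47000 h1)) (pr_cmul (enc_norm (bf1q0_3.enc h1.l h2)) (pr_norm (pr_csub (enc_rat _ 1128163 4700000) (pr_scale 3767 4700 h1)))))))))⟩
noncomputable def kf1q0_s : Sl2 kf1q0 := ⟨_, fun h1 h2 => (pr_norm (pr_mul (cv1m_s.snd h1) (bf1q0_s.snd h1 h2)))⟩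
noncomputable def bx1q0_s : Sl2 bx1q0 := ⟨_, fun h1 h2 => (pr_norm (pr_case (pr_subr 23 100 h1) (pr_case (pr_subr 11 100 h1) (pr_add (pr_scale 13141 110000 h1) (pr_cmul (enc_norm (bx1q0_3.enc h1.l h2)) (pr_nd (pr_scale 7671 11000 h1)))) (pr_add (pr_addc (pr_scale 3583 60000 h1) (enc_rat _ 39433 6000000)) (pr_cmul (enc_norm (bx1q0_3.enc h1.l h2)) (pr_norm (pr_addc (pr_scale 1661 4000 h1) (enc_rat _ 12413 400000)))))) (pr_case (pr_subr 17 50 h1) (pr_add (pr_subr 21709 1375000 (pr_scale 17263 110000 h1)) (pr_cmul (enc_norm (bx1q0_3.enc h1.l h2)) (pr_norm (pr_csub (enc_rat _ 10061 34375) (pr_scale 3973 5500 h1))))) (pr_case (pr_subr 453 1000 h1) (pr_add (pr_subr 125307 2260000 (pr_scale 15457 56500 h1)) (pr_cmul (enc_norm (bx1q0_3.enc h1.l h2)) (pr_norm (pr_csub (enc_rat _ 977901 2825000) (pr_scale 497 565 h1))))) (pr_add (pr_subr 3111021 47000000 (pr_scale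 13973 47000 h1)) (pr_cmul (enc_norm (bx1q0_3.enc h1.l h2)) (pr_norm (pr_csub (enc_rat _ 227019 587500) (pr_scale 1138 1175 h1)))))))))⟩
noncomputable def l1q0_s : Sl2 l1q0 := ⟨_, fun h1 h2 => (pr_norm (pr_mul (cv1m_s.snd h1) (bx1q0_s.snd h1 h2)))⟩
noncomputable def bd1q0_s : Sl2 bd1q0 := ⟨_, fun h1 h2 => (pr_norm (pr_sub (pr_scale 829461 500000 h1) (pr_cmul (enc_norm (enc_subr 1047 2000 h2)) (pr_nd (pr_scale 215931 25000 h1)))))⟩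
noncomputable def kc1q0_s : Sl2 kc1q0 := ⟨_, fun h1 h2 => (pr_norm (pr_mul (cv1m_s.snd h1) (bd1q0_s.snd h1 h2)))⟩
noncomputable def bf1q1_s : Sl2 bf1q1 := ⟨_, fun h1 h2 => (pr_norm (pr_case (pr_subr 7 10 h1) (pr_case (pr_subr 3 5 h1) (pr_add (pr_subr 1123 625 (pr_scale 161483 50000 h1)) (pr_cmul (enc_norm (bf1q1_3.enc h1.l h2)) (pr_norm (pr_csub (enc_rat _ 2287 3125) (pr_scale 13053 10000 h1))))) (pr_add (pr_subr 146563 100000 (pr_scale 267771 100000 h1)) (pr_cmul (enc_norm (bf1q1_3.enc h1.l h2)) (pr_norm (pr_csub (enc_rat _ 7457 10000) (pr_scale 3321 2500 h1)))))) (pr_case (pr_subr 4 5 h1) (pr_add (pr_subr 177593 250000 (pr_scale 159877 100000 h1)) (pr_cmul (enc_norm (bf1q1_3.enc h1.l h2)) (pr_norm (pr_subr 22759 25000 (pr_scale 5187 5000 h1))))) (pr_case (pr_subr 9 10 h1) (pr_add (pr_subr 185823 250000 (pr_scale 20499 12500 h1)) (pr_cmul (enc_norm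 (bf1q1_3.enc h1.l h2)) (pr_norm (pr_subr 35477 25000 (pr_scale 16733 10000 h1))))) (pr_add (pr_subr 850113 1000000 (pr_scale 175861 100000 h1)) (pr_cmul (enc_norm (bf1q1_3.enc h1.l h2)) (pr_norm (pr_subr 116519 100000 (pr_scale 1739 1250 h1)))))))))⟩
noncomputable def kf1q1_s : Sl2 kf1q1 := ⟨_, fun h1 h2 => (pr_norm (pr_mul (cv1m_s.snd h1) (bf1q1_s.snd h1 h2)))⟩
noncomputable def bx1q1_s : Sl2 bx1q1 := ⟨_, fun h1 h2 => (pr_norm (pr_case (pr_subr 7 10 h1) (pr_case (pr_subr 3 5 h1) (pr_add (pr_addc (pr_scale 3493 25000 h1) (enc_rat _ 2983 250000)) (pr_cmul (enc_norm (bx1q1_3.enc h1.l h2)) (pr_norm (pr_subr 42599 100000 (pr_scale 7089 10000 h1))))) (pr_add (pr_csub (enc_rat _ 13703 125000) (pr_scale 231 10000 h1)) (pr_cmul (enc_norm (bx1q1_3.enc h1.l h2)) (pr_norm (pr_subr 13651 20000 (pr_scale 2273 2000 h1)))))) (pr_case (pr_subr 4 5 h1) (pr_add (pr_addc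 (pr_scale 3111 100000 h1) (enc_rat _ 71677 1000000)) (pr_cmul (enc_norm (bx1q1_3.enc h1.l h2)) (pr_norm (pr_subr 56747 100000 (pr_scale 9721 10000 h1))))) (pr_case (pr_subr 9 10 h1) (pr_add (pr_csub (enc_rat _ 5093 40000) (pr_scale 769 20000 h1)) (pr_cmul (enc_norm (bx1q1_3.enc h1.l h2)) (pr_norm (pr_subr 12479 20000 (pr_scale 10427 10000 h1))))) (pr_add (pr_csub (enc_rat _ 522461 1000000) (pr_scale 47749 100000 h1)) (pr_cmul (enc_norm (bx1q1_3.enc h1.l h2)) (pr_norm (pr_csub (enc_rat _ 145613 100000) (pr_scale 2537 2000 h1)))))))))⟩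
noncomputable def l1q1_s : Sl2 l1q1 := ⟨_, fun h1 h2 => (pr_norm (pr_mul (cv1m_s.snd h1) (bx1q1_s.snd h1 h2)))⟩
noncomputable def bd1q1_s : Sl2 bd1q1 := ⟨_, fun h1 h2 => (pr_norm (pr_add (pr_csub (enc_rat _ 1522317 200000) (pr_scale 216783 25000 h1)) (pr_cmul (enc_norm (enc_subr 1047 2000 h2)) (pr_norm (pr_csub (enc_rat _ 431859 50000) (pr_scale 418699 25000 h1))))))⟩
noncomputable def kc1q1_s : Sl2 kc1q1 := ⟨_, fun h1 h2 => (pr_norm (pr_mul (cv1m_s.snd h1) (bd1q1_s.snd h1 h2)))⟩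
noncomputable def cv1p_s : Sl1 cv1p := ⟨_, fun h1 => (pr_norm (pr_add (pr_scale 22 25 (c1g_s.snd h1)) (pr_scale 3 25 (pr_subr 1 2 (swg_s.snd h1)))))⟩
noncomputable def kf1q2_9_s : Sl2 kf1q2_9 := ⟨_, fun h1 h2 => (pr_csub (enc_pnc _ 1) (pr_scale 3525793 5000000 (pr_subn 1 h1)))⟩
noncomputable def kf1q2_s : Sl2 kf1q2 := ⟨_, fun h1 h2 => (pr_norm (pr_mul (cv1p_s.snd h1) (pr_norm (pr_case (pr_csub (enc_pnc _ 1) (pr_scale 3 4 (pr_sq h1))) (pr_add (kf1q2_9_s.snd h1 h2) (pr_case (pr_subr 127 100 h1) (pr_casec1 (pr_subr 231 200 h1) (enc_pnc _ 0) (pr_add (pr_csub (enc_rat _ 68470479 23000000) (pr_scale 296409 115000 h1)) (pr_cmul (enc_norm (kf1q2_4.enc h1.l h2)) (pr_norm (pr_subr 672903 230000 (pr_scale 2913 1150 h1)))))) (pr_case (pr_subr 139 100 h1) (pr_add (pr_csub (enc_rat _ 7157513 2400000) (pr_scale 309799 120000 h1)) (pr_cmul (enc_norm (kf1q2_4.enc h1.l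 h2)) (pr_norm (pr_subr 4108267 1200000 (pr_scale 35101 12000 h1))))) (pr_add (pr_csub (enc_rat _ 32831481 11000000) (pr_scale 284171 110000 h1)) (pr_cmul (enc_norm (kf1q2_4.enc h1.l h2)) (pr_norm (pr_subr 4061437 1100000 (pr_scale 17151 5500 h1)))))))) (pr_add (kf1q2_9_s.snd h1 h2) (pr_case (pr_subr 1 4 (c1g_s.snd h1)) (pr_case (pr_subr 1 10 (c1g_s.snd h1)) (pr_case (pr_subr 1 20 (c1g_s.snd h1)) (pr_sub (pr_scale 767 25000 (c1g_s.snd h1)) (pr_cmul (enc_norm (kf1q2_4.enc h1.l h2)) (pr_nd (pr_scale 4029 2500 (c1g_s.snd h1))))) (pr_add (pr_subr 49399 1000000 (pr_scale 50933 50000 (c1g_s.snd h1))) (pr_cmul (enc_norm (kf1q2_4.enc h1.l h2)) (pr_norm (pr_csub (enc_rat _ 5093 20000) (pr_scale 33523 5000 (c1g_s.snd h1))))))) (pr_case (pr_subr 3 20 (c1g_s.snd h1)) (pr_add (pr_csub (enc_rat _ 98237 1000000) (pr_scale 4577 10000 (c1g_s.snd h1))) (pr_cmul (enc_norm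 (kf1q2_4.enc h1.l h2)) (pr_norm (pr_subr 28183 100000 (pr_neg (pr_scale 6699 5000 (c1g_s.snd h1))))))) (pr_case (pr_subr 1 5 (c1g_s.snd h1)) (pr_add (pr_csub (enc_rat _ 149669 1000000) (pr_scale 40029 50000 (c1g_s.snd h1))) (pr_cmul (enc_norm (kf1q2_4.enc h1.l h2)) (pr_norm (pr_subr 17951 20000 (pr_scale 553 200 (c1g_s.snd h1)))))) (pr_add (pr_csub (enc_rat _ 112977 1000000) (pr_scale 3857 6250 (c1g_s.snd h1))) (pr_cmul (enc_norm (kf1q2_4.enc h1.l h2)) (pr_norm (pr_subr 87403 100000 (pr_scale 13237 5000 (c1g_s.snd h1))))))))) (pr_case (pr_subr 7 20 (c1g_s.snd h1)) (pr_case (pr_subr 3 10 (c1g_s.snd h1)) (pr_add (pr_subr 101719 500000 (pr_scale 32427 50000 (c1g_s.snd h1))) (pr_cmul (enc_norm (kf1q2_4.enc h1.l h2)) (pr_norm (pr_subr 7267 25000 (pr_scale 157 500 (c1g_s.snd h1)))))) (pr_add (pr_subr 101971 500000 (pr_scale 32511 50000 (c1g_s.snd h1))) (pr_cmul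 (enc_norm (kf1q2_4.enc h1.l h2)) (pr_norm (pr_subr 11621 50000 (pr_scale 599 5000 (c1g_s.snd h1))))))) (pr_case (pr_subr 2 5 (c1g_s.snd h1)) (pr_add (pr_subr 116687 1000000 (pr_scale 10023 25000 (c1g_s.snd h1))) (pr_cmul (enc_norm (kf1q2_4.enc h1.l h2)) (pr_norm (pr_subr 62673 100000 (pr_scale 779 625 (c1g_s.snd h1)))))) (pr_case (pr_subr 9 20 (c1g_s.snd h1)) (pr_add (pr_csub (enc_rat _ 38109 200000) (pr_scale 9179 25000 (c1g_s.snd h1))) (pr_cmul (enc_norm (kf1q2_4.enc h1.l h2)) (pr_norm (pr_subr 89617 100000 (pr_scale 48 25 (c1g_s.snd h1)))))) (pr_add (pr_csub (enc_rat _ 25323 100000) (pr_scale 25323 50000 (c1g_s.snd h1))) (pr_cmul (enc_norm (kf1q2_4.enc h1.l h2)) (pr_norm (pr_subr 3217 10000 (pr_scale 3217 5000 (c1g_s.snd h1)))))))))))))))⟩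
noncomputable def l1q2_s : Sl2 l1q2 := ⟨_, fun h1 h2 => (pr_norm (pr_mul (cv1p_s.snd h1) (pr_norm (pr_case (pr_csub (enc_pnc _ 1) (pr_scale 3 4 (pr_sq h1))) (pr_cadd (l1q2_11.enc h1.l h2) (pr_case (pr_subr 127 100 h1) (pr_casec1 (pr_subr 231 200 h1) (enc_pnc _ 0) (pr_add (pr_subr 45742389 23000000 (pr_scale 198019 115000 h1)) (pr_cmul (enc_norm (l1q2_4.enc h1.l h2)) (pr_norm (pr_subr 36267 1150000 (pr_scale 157 5750 h1)))))) (pr_case (pr_subr 139 100 h1) (pr_add (pr_subr 7973591 4000000 (pr_scale 69021 40000 h1)) (pr_cmul (enc_norm (l1q2_4.enc h1.l h2)) (pr_norm (pr_csub (enc_rat _ 2231 120000) (pr_scale 73 6000 h1))))) (pr_add (pr_subr 21942839 11000000 (pr_scale 189919 110000 h1)) (pr_cmul (enc_norm (l1q2_4.enc h1.l h2)) (pr_norm (pr_csub (enc_rat _ 1413 34375) (pr_scale 39 1375 h1)))))))) (pr_cadd (l1q2_11.enc h1.l h2) (pr_case (pr_subr 1 4 (c1g_s.snd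 h1)) (pr_case (pr_subr 1 10 (c1g_s.snd h1)) (pr_case (pr_subr 1 20 (c1g_s.snd h1)) (pr_sub (pr_cmul (enc_norm (l1q2_4.enc h1.l h2)) (pr_nd (pr_scale 47 500 (c1g_s.snd h1)))) (pr_scale 99 6250 (c1g_s.snd h1))) (pr_add (pr_csub (enc_rat _ 261 200000) (pr_scale 2097 50000 (c1g_s.snd h1))) (pr_cmul (enc_norm (l1q2_4.enc h1.l h2)) (pr_norm (pr_subr 443 6250 (pr_scale 3779 2500 (c1g_s.snd h1))))))) (pr_case (pr_subr 3 20 (c1g_s.snd h1)) (pr_add (pr_subr 3853 1000000 (pr_scale 241 25000 (c1g_s.snd h1))) (pr_cmul (enc_norm (l1q2_4.enc h1.l h2)) (pr_norm (pr_subr 5461 50000 (pr_scale 379 200 (c1g_s.snd h1)))))) (pr_case (pr_subr 1 5 (c1g_s.snd h1)) (pr_add (pr_subr 60139 1000000 (pr_scale 4811 12500 (c1g_s.snd h1))) (pr_cmul (enc_norm (l1q2_4.enc h1.l h2)) (pr_norm (pr_subr 16439 100000 (pr_scale 5657 2500 (c1g_s.snd h1)))))) (pr_add (pr_subr 137079 1000000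 (pr_scale 38479 50000 (c1g_s.snd h1))) (pr_cmul (enc_norm (l1q2_4.enc h1.l h2)) (pr_norm (pr_subr 7283 20000 (pr_scale 4077 1250 (c1g_s.snd h1))))))))) (pr_case (pr_subr 7 20 (c1g_s.snd h1)) (pr_case (pr_subr 3 10 (c1g_s.snd h1)) (pr_add (pr_subr 199389 1000000 (pr_scale 50941 50000 (c1g_s.snd h1))) (pr_cmul (enc_norm (l1q2_4.enc h1.l h2)) (pr_norm (pr_addc (pr_scale 2173 1250 (c1g_s.snd h1)) (enc_rat _ 333 20000))))) (pr_add (pr_subr 199563 1000000 (pr_scale 5097 5000 (c1g_s.snd h1))) (pr_cmul (enc_norm (l1q2_4.enc h1.l h2)) (pr_norm (pr_addc (pr_scale 17 20 (c1g_s.snd h1)) (enc_rat _ 28317 100000)))))) (pr_case (pr_subr 2 5 (c1g_s.snd h1)) (pr_add (pr_subr 75537 500000 (pr_scale 44043 50000 (c1g_s.snd h1))) (pr_cmul (enc_norm (l1q2_4.enc h1.l h2)) (pr_norm (pr_addc (pr_scale 2661 2500 (c1g_s.snd h1)) (enc_rat _ 20813 100000))))) (pr_case (pr_subr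 9 20 (c1g_s.snd h1)) (pr_add (pr_addc (pr_scale 187 500 (c1g_s.snd h1)) (enc_rat _ 5167 100000)) (pr_cmul (enc_norm (l1q2_4.enc h1.l h2)) (pr_norm (pr_subr 18451 100000 (pr_scale 1023 500 (c1g_s.snd h1)))))) (pr_add (pr_addc (pr_scale 121062585759 926786500000 (c1g_s.snd h1)) (enc_rat _ 2987741256269 18535730000000)) (pr_cmul (enc_norm (l1q2_4.enc h1.l h2)) (pr_norm (pr_subr 12383652301 23886250000 (pr_scale 6659660153 2388625000 (c1g_s.snd h1)))))))))))))))⟩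
noncomputable def kc1q2_s : Sl2 kc1q2 := ⟨_, fun h1 h2 => (pr_norm (pr_mul (cv1p_s.snd h1) (pr_norm (pr_case (pr_csub (enc_pnc _ 1) (pr_scale 3 4 (pr_sq h1))) (pr_cadd (kc1q2_10.enc h1.l h2) (pr_casec1 (pr_subr 231 200 h1) (enc_pnc _ 0) (pr_add (pr_subr 5382223 718750 (pr_scale 279596 43125 h1)) (pr_cmul (enc_norm (kc1q2_4.enc h1.l h2)) (pr_norm (pr_csub (enc_rat _ 274351 92000) (pr_scale 3563 1380 h1))))))) (pr_cadd (kc1q2_10.enc h1.l h2) (pr_case (pr_subr 1 4 (c1g_s.snd h1)) (pr_sub (pr_cmul (enc_norm (kc1q2_4.enc h1.l h2)) (pr_nd (pr_scale 358823 12500 (c1g_s.snd h1)))) (pr_scale 308417 62500 (c1g_s.snd h1))) (pr_add (pr_subr 2293 500000 (pr_neg (pr_scale 614541 125000 (c1g_s.snd h1)))) (pr_cmul (enc_norm (kc1q2_4.enc h1.l h2)) (pr_norm (pr_subr 2019 50000 (pr_scale 180421 6250 (c1g_s.snd h1))))))))))))⟩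
noncomputable def cv1r_s : Sl1 cv1r := ⟨_, fun h1 => (pr_norm (pr_scale 3 25 (pr_subr 1 2 (swg_s.snd h1))))⟩
noncomputable def bf1q3_s : Sl2 bf1q3 := ⟨_, fun h1 h2 => (pr_norm (pr_case (pr_subr 83 50 h1) (pr_case (pr_subr 1547 1000 h1) (pr_add (pr_subr 6543831 5875000 (pr_scale 34033 47000 h1)) (pr_cmul (enc_norm (bf1q3_3.enc h1.l h2)) (pr_norm (pr_subr 539233 587500 (pr_scale 2487 4700 h1))))) (pr_add (pr_subr 62932919 56500000 (pr_scale 3273 4520 h1)) (pr_cmul (enc_norm (bf1q3_3.enc h1.l h2)) (pr_norm (pr_subr 10384961 11300000 (pr_scale 1497 2825 h1)))))) (pr_case (pr_subr 177 100 h1) (pr_add (pr_subr 1530523 1375000 (pr_scale 79603 110000 h1)) (pr_cmul (enc_norm (bf1q3_3.enc h1.l h2)) (pr_norm (pr_subr 202483 220000 (pr_scale 2919 5500 h1))))) (pr_case (pr_subr 189 100 h1) (pr_add (pr_subr 1111933 1000000 (pr_scale 723 1000 h1)) (pr_cmul (enc_norm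 (bf1q3_3.enc h1.l h2)) (pr_norm (pr_subr 73539 80000 (pr_scale 6361 12000 h1))))) (pr_add (pr_subr 12224081 11000000 (pr_scale 19873 27500 h1)) (pr_cmul (enc_norm (bf1q3_3.enc h1.l h2)) (pr_norm (pr_subr 251991 275000 (pr_scale 2907 5500 h1)))))))))⟩
noncomputable def kf1q3_s : Sl2 kf1q3 := ⟨_, fun h1 h2 => (pr_norm (pr_mulz (fun ht => cv1r_two (enc_two h1.r ht)) (cv1r_s.snd h1) (bf1q3_s.snd h1 h2)))⟩
noncomputable def bx1q3_s : Sl2 bx1q3 := ⟨_, fun h1 h2 => (pr_norm (pr_case (pr_subr 83 50 h1) (pr_case (pr_subr 1547 1000 h1) (pr_add (pr_subr 2808443 23500000 (pr_scale 1351 4700 h1)) (pr_cmul (enc_norm (bx1q3_3.enc h1.l h2)) (pr_norm (pr_subr 52980121 2350000 (pr_scale 66279 4700 h1))))) (pr_add (pr_subr 13556269 113000000 (pr_scale 6503 22600 h1)) (pr_cmul (enc_norm (bx1q3_3.enc h1.l h2)) (pr_norm (pr_subr 127384979 5650000 (pr_scale 159361 11300 h1))))))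 (pr_case (pr_subr 177 100 h1) (pr_add (pr_subr 122883 1000000 (pr_scale 579 2000 h1)) (pr_cmul (enc_norm (bx1q3_3.enc h1.l h2)) (pr_norm (pr_subr 6203093 275000 (pr_scale 155201 11000 h1))))) (pr_case (pr_subr 189 100 h1) (pr_add (pr_subr 500559 4000000 (pr_scale 11631 40000 h1)) (pr_cmul (enc_norm (bx1q3_3.enc h1.l h2)) (pr_norm (pr_subr 9022139 400000 (pr_scale 169301 12000 h1))))) (pr_add (pr_subr 688623 5500000 (pr_scale 31989 110000 h1)) (pr_cmul (enc_norm (bx1q3_3.enc h1.l h2)) (pr_norm (pr_subr 2254133 100000 (pr_scale 14101 1000 h1)))))))))⟩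
noncomputable def l1q3_s : Sl2 l1q3 := ⟨_, fun h1 h2 => (pr_norm (pr_mulz (fun ht => cv1r_two (enc_two h1.r ht)) (cv1r_s.snd h1) (bx1q3_s.snd h1 h2)))⟩
noncomputable def bd1q3_s : Sl2 bd1q3 := ⟨_, fun h1 h2 => (pr_norm (pr_add (pr_csub (enc_rat _ 476213 40000) (pr_scale 2726237 500000 h1)) (pr_cmul (enc_norm (enc_subr 1047 2000 h2)) (pr_norm (pr_subr 30167 2500 (pr_scale 88351 12500 h1))))))⟩
noncomputable def kc1q3_s : Sl2 kc1q3 := ⟨_, fun h1 h2 => (pr_norm (pr_mulz (fun ht => cv1r_two (enc_two h1.r ht)) (cv1r_s.snd h1) (bd1q3_s.snd h1 h2)))⟩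
noncomputable def cv2m_s : Sl1 cv2m := ⟨_, fun h1 => (pr_norm (pr_add (pr_scale 3 5 (c1g_s.snd h1)) (pr_scale 2 5 (pr_addc (swg_s.snd h1) (enc_rat _ 1 2)))))⟩
noncomputable def bf2q0_s : Sl2 bf2q0 := ⟨_, fun h1 h2 => (pr_norm (pr_case (pr_subr 3 10 h1) (pr_case (pr_subr 3 20 h1) (pr_add (pr_csub (enc_pnc _ 1) (pr_scale 13478 9375 h1)) (pr_cmul (enc_norm (bf2q0_3.enc h1.l h2)) (pr_nd (pr_scale 12119 15000 h1)))) (pr_add (pr_csub (enc_rat _ 126923 125000) (pr_scale 28879 18750 h1)) (pr_cmul (enc_norm (bf2q0_3.enc h1.l h2)) (pr_norm (pr_subr 17021 100000 (pr_scale 1457 750 h1)))))) (pr_case (pr_subr 453 1000 h1) (pr_add (pr_csub (enc_rat _ 196631 159375) (pr_scale 173513 76500 h1)) (pr_cmul (enc_norm (bf2q0_3.enc h1.l h2)) (pr_norm (pr_csub (enc_rat _ 6349009 5100000) (pr_scale 10612 3825 h1))))) (pr_add (pr_csub (enc_rat _ 905728 734375) (pr_scale 53279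 23500 h1)) (pr_cmul (enc_norm (bf2q0_3.enc h1.l h2)) (pr_norm (pr_csub (enc_rat _ 1619887 1175000) (pr_scale 14427 4700 h1))))))))⟩
noncomputable def kf2q0_s : Sl2 kf2q0 := ⟨_, fun h1 h2 => (pr_norm (pr_mul (cv2m_s.snd h1) (bf2q0_s.snd h1 h2)))⟩
noncomputable def bx2q0_s : Sl2 bx2q0 := ⟨_, fun h1 h2 => (pr_norm (pr_case (pr_subr 3 10 h1) (pr_case (pr_subr 3 20 h1) (pr_add (pr_scale 28151 150000 h1) (pr_cmul (enc_norm (bx2q0_3.enc h1.l h2)) (pr_nd (pr_scale 561 625 h1)))) (pr_add (pr_addc (pr_scale 10847 75000 h1) (enc_rat _ 6457 1000000)) (pr_cmul (enc_norm (bx2q0_3.enc h1.l h2)) (pr_norm (pr_csub (enc_rat _ 21137 100000) (pr_scale 7673 15000 h1)))))) (pr_case (pr_subr 453 1000 h1) (pr_add (pr_addc (pr_scale 17689 153000 h1) (enc_rat _ 154639 10200000)) (pr_cmul (enc_norm (bx2q0_3.enc h1.l h2)) (pr_norm (pr_csub (enc_rat _ 645247 1700000) (pr_scale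 1367 1275 h1))))) (pr_add (pr_addc (pr_scale 1337 11750 h1) (enc_rat _ 375727 23500000)) (pr_cmul (enc_norm (bx2q0_3.enc h1.l h2)) (pr_norm (pr_csub (enc_rat _ 1942859 4700000) (pr_scale 539 470 h1))))))))⟩
noncomputable def l2q0_s : Sl2 l2q0 := ⟨_, fun h1 h2 => (pr_norm (pr_mul (cv2m_s.snd h1) (bx2q0_s.snd h1 h2)))⟩
noncomputable def bd2q0_s : Sl2 bd2q0 := ⟨_, fun h1 h2 => (pr_norm (pr_sub (pr_neg (pr_scale 76529 50000 h1)) (pr_cmul (enc_norm (enc_subr 1047 2000 h2)) (pr_nd (pr_scale 130851 25000 h1)))))⟩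
noncomputable def kc2q0_s : Sl2 kc2q0 := ⟨_, fun h1 h2 => (pr_norm (pr_mul (cv2m_s.snd h1) (bd2q0_s.snd h1 h2)))⟩
noncomputable def bf2q1_s : Sl2 bf2q1 := ⟨_, fun h1 h2 => (pr_norm (pr_case (pr_subr 67 100 h1) (pr_add (pr_subr 15670389 8500000 (pr_scale 75299 21250 h1)) (pr_cmul (enc_norm (bf2q1_3.enc h1.l h2)) (pr_norm (pr_csub (enc_rat _ 3156967 1700000) (pr_scale 1414 425 h1))))) (pr_case (pr_subr 83 100 h1) (pr_add (pr_subr 102583 400000 (pr_scale 23493 20000 h1)) (pr_cmul (enc_norm (bf2q1_3.enc h1.l h2)) (pr_norm (pr_subr 1287329 800000 (pr_scale 14771 8000 h1))))) (pr_add (pr_subr 2947491 17000000 (pr_scale 7307 6800 h1)) (pr_cmul (enc_norm (bf2q1_3.enc h1.l h2)) (pr_norm (pr_subr 2905693 1700000 (pr_scale 16719 8500 h1))))))))⟩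
noncomputable def kf2q1_s : Sl2 kf2q1 := ⟨_, fun h1 h2 => (pr_norm (pr_mul (cv2m_s.snd h1) (bf2q1_s.snd h1 h2)))⟩
noncomputable def bx2q1_s : Sl2 bx2q1 := ⟨_, fun h1 h2 => (pr_norm (pr_case (pr_subr 67 100 h1) (pr_add (pr_csub (enc_rat _ 1112607 8500000) (pr_scale 797 6800 h1)) (pr_cmul (enc_norm (bx2q1_3.enc h1.l h2)) (pr_norm (pr_subr 1979651 1700000 (pr_scale 32809 17000 h1))))) (pr_case (pr_subr 83 100 h1) (pr_add (pr_csub (enc_rat _ 1673027 16000000) (pr_scale 2493 32000 h1)) (pr_cmul (enc_norm (bx2q1_3.enc h1.l h2)) (pr_norm (pr_csub (enc_rat _ 480999 1600000) (pr_scale 4109 16000 h1))))) (pr_add (pr_addc (pr_scale 1319 42500 h1) (enc_rat _ 120213 8500000)) (pr_cmul (enc_norm (bx2q1_3.enc h1.l h2)) (pr_norm (pr_csub (enc_rat _ 284749 340000) (pr_scale 7681 8500 h1))))))))⟩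
noncomputable def l2q1_s : Sl2 l2q1 := ⟨_, fun h1 h2 => (pr_norm (pr_mul (cv2m_s.snd h1) (bx2q1_s.snd h1 h2)))⟩
noncomputable def bd2q1_s : Sl2 bd2q1 := ⟨_, fun h1 h2 => (pr_norm (pr_add (pr_subr 218699 500000 (pr_scale 645481 500000 h1)) (pr_cmul (enc_norm (enc_subr 1047 2000 h2)) (pr_norm (pr_csub (enc_rat _ 48063 6250) (pr_scale 703617 50000 h1))))))⟩
noncomputable def kc2q1_s : Sl2 kc2q1 := ⟨_, fun h1 h2 => (pr_norm (pr_mul (cv2m_s.snd h1) (bd2q1_s.snd h1 h2)))⟩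
noncomputable def cv2p_s : Sl1 cv2p := ⟨_, fun h1 => (pr_norm (pr_add (pr_scale 3 5 (c1g_s.snd h1)) (pr_scale 2 5 (pr_subr 1 2 (swg_s.snd h1)))))⟩
noncomputable def kf2q2_s : Sl2 kf2q2 := ⟨_, fun h1 h2 => (pr_norm (pr_mul (cv2p_s.snd h1) (pr_norm (pr_case (pr_csub (enc_pnc _ 1) (pr_scale 3 4 (pr_sq h1))) (pr_case (pr_subr 127 100 h1) (pr_add (pr_csub (enc_rat _ 138466853 29000000) (pr_scale 194947 58000 h1)) (pr_cmul (enc_norm (kf2q2_4.enc h1.l h2)) (pr_norm (pr_subr 3631149 290000 (pr_scale 14243 1450 h1))))) (pr_case (pr_subr 69 50 h1) (pr_add (pr_csub (enc_rat _ 25154717 5500000) (pr_scale 176153 55000 h1)) (pr_cmul (enc_norm (kf2q2_4.enc h1.l h2)) (pr_norm (pr_subr 196243 22000 (pr_scale 3843 550 h1))))) (pr_add (pr_csub (enc_rat _ 9029253 2000000) (pr_scale 379207 120000 h1)) (pr_cmul (enc_norm (kf2q2_4.enc h1.l h2)) (pr_norm (pr_subr 317579 50000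 (pr_scale 2563 500 h1))))))) (pr_case (pr_subr 1 4 (c1g_s.snd h1)) (pr_case (pr_subr 1 10 (c1g_s.snd h1)) (pr_case (pr_subr 1 20 (c1g_s.snd h1)) (pr_add (pr_csub (enc_rat _ 448901 500000) (pr_scale 429 2000 (c1g_s.snd h1))) (pr_cmul (enc_norm (kf2q2_4.enc h1.l h2)) (pr_norm (pr_subr 130191 100000 (pr_neg (pr_scale 40017 5000 (c1g_s.snd h1))))))) (pr_add (pr_csub (enc_rat _ 58401 62500) (pr_scale 47339 50000 (c1g_s.snd h1))) (pr_cmul (enc_norm (kf2q2_4.enc h1.l h2)) (pr_norm (pr_subr 221009 100000 (pr_scale 50801 5000 (c1g_s.snd h1))))))) (pr_case (pr_subr 3 20 (c1g_s.snd h1)) (pr_add (pr_csub (enc_rat _ 29111 31250) (pr_scale 45907 50000 (c1g_s.snd h1))) (pr_cmul (enc_norm (kf2q2_4.enc h1.l h2)) (pr_norm (pr_subr 217659 100000 (pr_scale 24563 2500 (c1g_s.snd h1)))))) (pr_case (pr_subr 1 5 (c1g_s.snd h1)) (pr_add (pr_addc (pr_scale 28047 50000 (c1g_s.snd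 h1)) (enc_rat _ 70969 100000)) (pr_cmul (enc_norm (kf2q2_4.enc h1.l h2)) (pr_norm (pr_subr 40323 25000 (pr_scale 30337 5000 (c1g_s.snd h1)))))) (pr_add (pr_addc (pr_scale 3729 5000 (c1g_s.snd h1)) (enc_rat _ 336359 500000)) (pr_cmul (enc_norm (kf2q2_4.enc h1.l h2)) (pr_norm (pr_subr 2717 3125 (pr_scale 47 20 (c1g_s.snd h1))))))))) (pr_case (pr_subr 7 20 (c1g_s.snd h1)) (pr_case (pr_subr 3 10 (c1g_s.snd h1)) (pr_add (pr_addc (pr_scale 38493 50000 (c1g_s.snd h1)) (enc_rat _ 666703 1000000)) (pr_cmul (enc_norm (kf2q2_4.enc h1.l h2)) (pr_norm (pr_subr 45019 100000 (pr_scale 673 1000 (c1g_s.snd h1)))))) (pr_add (pr_addc (pr_scale 38087 50000 (c1g_s.snd h1)) (enc_rat _ 669139 1000000)) (pr_cmul (enc_norm (kf2q2_4.enc h1.l h2)) (pr_norm (pr_subr 31741 100000 (pr_scale 144 625 (c1g_s.snd h1))))))) (pr_case (pr_subr 2 5 (c1g_s.snd h1)) (pr_add (pr_addc (pr_scale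 2162 3125 (c1g_s.snd h1)) (enc_rat _ 173401 250000)) (pr_cmul (enc_norm (kf2q2_4.enc h1.l h2)) (pr_norm (pr_subr 22363 50000 (pr_scale 3007 5000 (c1g_s.snd h1)))))) (pr_case (pr_subr 9 20 (c1g_s.snd h1)) (pr_add (pr_addc (pr_scale 9113 25000 (c1g_s.snd h1)) (enc_rat _ 206133 250000)) (pr_cmul (enc_norm (kf2q2_4.enc h1.l h2)) (pr_norm (pr_subr 45659 50000 (pr_scale 8831 5000 (c1g_s.snd h1)))))) (pr_add (pr_addc (pr_scale 5717 25000 (c1g_s.snd h1)) (enc_rat _ 44283 50000)) (pr_cmul (enc_norm (kf2q2_4.enc h1.l h2)) (pr_norm (pr_subr 11839 10000 (pr_scale 11839 5000 (c1g_s.snd h1))))))))))))))⟩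
noncomputable def l2q2_s : Sl2 l2q2 := ⟨_, fun h1 h2 => (pr_norm (pr_mul (cv2p_s.snd h1) (pr_norm (pr_case (pr_csub (enc_pnc _ 1) (pr_scale 3 4 (pr_sq h1))) (pr_case (pr_subr 127 100 h1) (pr_add (pr_subr 61642169 29000000 (pr_scale 19167 11600 h1)) (pr_cmul (enc_norm (l2q2_4.enc h1.l h2)) (pr_norm (pr_subr 28962813 5800000 (pr_scale 42633 11600 h1))))) (pr_case (pr_subr 69 50 h1) (pr_add (pr_subr 23465201 11000000 (pr_scale 36483 22000 h1)) (pr_cmul (enc_norm (l2q2_4.enc h1.l h2)) (pr_norm (pr_csub (enc_rat _ 656291 550000) (pr_scale 13159 11000 h1))))) (pr_add (pr_subr 529861 250000 (pr_scale 32967 20000 h1)) (pr_cmul (enc_norm (l2q2_4.enc h1.l h2)) (pr_norm (pr_csub (enc_rat _ 358061 200000) (pr_scale 19547 12000 h1))))))) (pr_case (pr_subr 1 4 (c1g_s.snd h1)) (pr_case (pr_subr 1 10 (c1g_s.snd h1)) (pr_case (pr_subr 1 20 (c1g_s.snd h1)) (pr_add (pr_subr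 217703 1000000 (pr_scale 14821 50000 (c1g_s.snd h1))) (pr_cmul (enc_norm (l2q2_4.enc h1.l h2)) (pr_norm (pr_subr 4741 6250 (pr_scale 3453 5000 (c1g_s.snd h1)))))) (pr_add (pr_subr 225211 1000000 (pr_scale 22329 50000 (c1g_s.snd h1))) (pr_cmul (enc_norm (l2q2_4.enc h1.l h2)) (pr_norm (pr_subr 9937 12500 (pr_scale 7093 5000 (c1g_s.snd h1))))))) (pr_case (pr_subr 3 20 (c1g_s.snd h1)) (pr_add (pr_subr 241087 1000000 (pr_scale 30267 50000 (c1g_s.snd h1))) (pr_cmul (enc_norm (l2q2_4.enc h1.l h2)) (pr_norm (pr_subr 44857 50000 (pr_scale 6101 2500 (c1g_s.snd h1)))))) (pr_case (pr_subr 1 5 (c1g_s.snd h1)) (pr_add (pr_subr 63121 250000 (pr_scale 17033 25000 (c1g_s.snd h1))) (pr_cmul (enc_norm (l2q2_4.enc h1.l h2)) (pr_norm (pr_subr 84461 100000 (pr_scale 10451 5000 (c1g_s.snd h1)))))) (pr_add (pr_subr 30137 125000 (pr_scale 31219 50000 (c1g_s.snd h1))) (pr_cmul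 (enc_norm (l2q2_4.enc h1.l h2)) (pr_norm (pr_subr 82069 100000 (pr_scale 9853 5000 (c1g_s.snd h1))))))))) (pr_case (pr_subr 7 20 (c1g_s.snd h1)) (pr_case (pr_subr 3 10 (c1g_s.snd h1)) (pr_add (pr_subr 113293 500000 (pr_scale 28317 50000 (c1g_s.snd h1))) (pr_cmul (enc_norm (l2q2_4.enc h1.l h2)) (pr_norm (pr_subr 37217 50000 (pr_scale 4163 2500 (c1g_s.snd h1)))))) (pr_add (pr_subr 103333 500000 (pr_scale 24997 50000 (c1g_s.snd h1))) (pr_cmul (enc_norm (l2q2_4.enc h1.l h2)) (pr_norm (pr_subr 6193 10000 (pr_scale 3121 2500 (c1g_s.snd h1))))))) (pr_case (pr_subr 2 5 (c1g_s.snd h1)) (pr_add (pr_subr 15537 100000 (pr_scale 17669 50000 (c1g_s.snd h1))) (pr_cmul (enc_norm (l2q2_4.enc h1.l h2)) (pr_norm (pr_subr 5983 10000 (pr_scale 2971 2500 (c1g_s.snd h1)))))) (pr_case (pr_subr 9 20 (c1g_s.snd h1)) (pr_add (pr_subr 43641 500000 (pr_scale 4579 25000 (c1g_s.snd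 h1))) (pr_cmul (enc_norm (l2q2_4.enc h1.l h2)) (pr_norm (pr_subr 30887 50000 (pr_scale 1237 1000 (c1g_s.snd h1)))))) (pr_add (pr_subr 243 5000 (pr_scale 243 2500 (c1g_s.snd h1))) (pr_cmul (enc_norm (l2q2_4.enc h1.l h2)) (pr_norm (pr_subr 6109 10000 (pr_scale 6109 5000 (c1g_s.snd h1))))))))))))))⟩
noncomputable def kc2q2_s : Sl2 kc2q2 := ⟨_, fun h1 h2 => (pr_norm (pr_mul (cv2p_s.snd h1) (pr_norm (pr_case (pr_csub (enc_pnc _ 1) (pr_scale 3 4 (pr_sq h1))) (pr_add (pr_addc (pr_scale 5577 3460 h1) (enc_rat _ 68431077 43250000)) (pr_cmul (enc_norm (kc2q2_4.enc h1.l h2)) (pr_norm (pr_subr 129747087 8650000 (pr_neg (pr_scale 1 6920 h1)))))) (pr_case (pr_subr 1 4 (c1g_s.snd h1)) (pr_add (pr_csub (enc_rat _ 3443341 1000000) (pr_scale 198981 25000 (c1g_s.snd h1))) (pr_cmul (enc_norm (kc2q2_4.enc h1.l h2)) (pr_norm (pr_subr 14999 1000 (pr_scale 746769 25000 (c1g_s.snd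 h1)))))) (pr_add (pr_csub (enc_rat _ 1453531 500000) (pr_scale 1453531 250000 (c1g_s.snd h1))) (pr_cmul (enc_norm (kc2q2_4.enc h1.l h2)) (pr_norm (pr_subr 753131 50000 (pr_scale 753131 25000 (c1g_s.snd h1)))))))))))⟩
noncomputable def cv2r_s : Sl1 cv2r := ⟨_, fun h1 => (pr_norm (pr_scale 2 5 (pr_subr 1 2 (swg_s.snd h1))))⟩
noncomputable def bf2q3_s : Sl2 bf2q3 := ⟨_, fun h1 h2 => (pr_norm (pr_case (pr_subr 17 10 h1) (pr_case (pr_subr 1547 1000 h1) (pr_add (pr_subr 27642019 23500000 (pr_scale 17777 23500 h1)) (pr_cmul (enc_norm (bf2q3_3.enc h1.l h2)) (pr_norm (pr_subr 1987987 2350000 (pr_scale 584 1175 h1))))) (pr_add (pr_subr 73539 62500 (pr_scale 1608 2125 h1)) (pr_cmul (enc_norm (bf2q3_3.enc h1.l h2)) (pr_norm (pr_subr 84419 100000 (pr_scale 843 1700 h1)))))) (pr_case (pr_subr 37 20 h1) (pr_add (pr_subr 1757101 1500000 (pr_scale 22609 30000 h1)) (pr_cmul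 (enc_norm (bf2q3_3.enc h1.l h2)) (pr_norm (pr_subr 254507 300000 (pr_scale 299 600 h1))))) (pr_add (pr_subr 3498181 3000000 (pr_scale 28153 37500 h1)) (pr_cmul (enc_norm (bf2q3_3.enc h1.l h2)) (pr_norm (pr_subr 255617 300000 (pr_scale 1501 3000 h1))))))))⟩
noncomputable def kf2q3_s : Sl2 kf2q3 := ⟨_, fun h1 h2 => (pr_norm (pr_mulz (fun ht => cv2r_two (enc_two h1.r ht)) (cv2r_s.snd h1) (bf2q3_s.snd h1 h2)))⟩
noncomputable def bx2q3_s : Sl2 bx2q3 := ⟨_, fun h1 h2 => (pr_norm (pr_case (pr_subr 17 10 h1) (pr_case (pr_subr 1547 1000 h1) (pr_add (pr_subr 343407 2350000 (pr_scale 559 1880 h1)) (pr_cmul (enc_norm (bx2q3_3.enc h1.l h2)) (pr_norm (pr_subr 94724897 4700000 (pr_scale 59357 4700 h1))))) (pr_add (pr_subr 433991 3000000 (pr_scale 3779 12750 h1)) (pr_cmul (enc_norm (bx2q3_3.enc h1.l h2)) (pr_norm (pr_subr 151633 7500 (pr_scale 32309 2550 h1)))))) (pr_case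 (pr_subr 37 20 h1) (pr_add (pr_subr 352159 3000000 (pr_scale 10513 37500 h1)) (pr_cmul (enc_norm (bx2q3_3.enc h1.l h2)) (pr_norm (pr_subr 250907 12500 (pr_scale 15731 1250 h1))))) (pr_add (pr_subr 111713 1000000 (pr_scale 1733 6250 h1)) (pr_cmul (enc_norm (bx2q3_3.enc h1.l h2)) (pr_norm (pr_subr 5990651 300000 (pr_scale 187931 15000 h1))))))))⟩
noncomputable def l2q3_s : Sl2 l2q3 := ⟨_, fun h1 h2 => (pr_norm (pr_mulz (fun ht => cv2r_two (enc_two h1.r ht)) (cv2r_s.snd h1) (bx2q3_s.snd h1 h2)))⟩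
noncomputable def bd2q3_s : Sl2 bd2q3 := ⟨_, fun h1 h2 => (pr_norm (pr_add (pr_csub (enc_rat _ 3018609 250000) (pr_scale 2781447 500000 h1)) (pr_cmul (enc_norm (enc_subr 1047 2000 h2)) (pr_norm (pr_subr 760311 50000 (pr_scale 457107 50000 h1))))))⟩
noncomputable def kc2q3_s : Sl2 kc2q3 := ⟨_, fun h1 h2 => (pr_norm (pr_mulz (fun ht => cv2r_two (enc_two h1.r ht)) (cv2r_s.snd h1) (bd2q3_s.snd h1 h2)))⟩
noncomputable def cv3m_s : Sl1 cv3m := ⟨_, fun h1 => (pr_norm (pr_add (pr_scale 1 5 (c1g_s.snd h1)) (pr_scale 4 5 (pr_addc (swg_s.snd h1) (enc_rat _ 1 2)))))⟩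
noncomputable def bf3q0_s : Sl2 bf3q0 := ⟨_, fun h1 h2 => (pr_norm (pr_case (pr_subr 3 10 h1) (pr_case (pr_subr 3 20 h1) (pr_add (pr_csub (enc_pnc _ 1) (pr_scale 54149 25000 h1)) (pr_cmul (enc_norm (bf3q0_3.enc h1.l h2)) (pr_nd (pr_scale 9797 7500 h1)))) (pr_add (pr_csub (enc_rat _ 434917 500000) (pr_scale 24341 18750 h1)) (pr_cmul (enc_norm (bf3q0_3.enc h1.l h2)) (pr_norm (pr_subr 2951 6250 (pr_scale 2227 500 h1)))))) (pr_case (pr_subr 453 1000 h1) (pr_add (pr_csub (enc_rat _ 34133789 25500000) (pr_scale 437683 153000 h1)) (pr_cmul (enc_norm (bf3q0_3.enc h1.l h2)) (pr_norm (pr_csub (enc_rat _ 3309001 1275000) (pr_scale 44147 7650 h1))))) (pr_add (pr_csub (enc_rat _ 63090091 47000000) (pr_scale 67421 23500 h1)) (pr_cmul (enc_norm (bf3q0_3.enc h1.l h2)) (pr_norm (pr_csub (enc_rat _ 1132479 2350000) (pr_scale 1299 1175 h1))))))))⟩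
noncomputable def kf3q0_s : Sl2 kf3q0 := ⟨_, fun h1 h2 => (pr_norm (pr_mul (cv3m_s.snd h1) (bf3q0_s.snd h1 h2)))⟩
noncomputable def bx3q0_s : Sl2 bx3q0 := ⟨_, fun h1 h2 => (pr_norm (pr_case (pr_subr 3 10 h1) (pr_case (pr_subr 3 20 h1) (pr_add (pr_scale 23531 75000 h1) (pr_cmul (enc_norm (bx3q0_3.enc h1.l h2)) (pr_nd (pr_scale 16573 15000 h1)))) (pr_add (pr_addc (pr_scale 26899 150000 h1) (enc_rat _ 20163 1000000)) (pr_cmul (enc_norm (bx3q0_3.enc h1.l h2)) (pr_norm (pr_csub (enc_rat _ 29977 100000) (pr_scale 1117 1250 h1)))))) (pr_case (pr_subr 453 1000 h1) (pr_add (pr_csub (enc_rat _ 1445537 17000000) (pr_scale 941 25500 h1)) (pr_cmul (enc_norm (bx3q0_3.enc h1.l h2)) (pr_norm (pr_csub (enc_rat _ 470973 1700000) (pr_scale 4171 5100 h1))))) (pr_add (pr_csub (enc_rat _ 3763721 23500000) (pr_scale 9529 47000 h1)) (pr_cmul (enc_norm (bx3q0_3.enc h1.l h2))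 (pr_norm (pr_csub (enc_rat _ 811897 2350000) (pr_scale 2277 2350 h1))))))))⟩
noncomputable def l3q0_s : Sl2 l3q0 := ⟨_, fun h1 h2 => (pr_norm (pr_mul (cv3m_s.snd h1) (bx3q0_s.snd h1 h2)))⟩
noncomputable def bd3q0_s : Sl2 bd3q0 := ⟨_, fun h1 h2 => (pr_norm (pr_sub (pr_neg (pr_scale 508381 100000 h1)) (pr_cmul (enc_norm (enc_subr 1047 2000 h2)) (pr_nd (pr_scale 35673 25000 h1)))))⟩
noncomputable def kc3q0_s : Sl2 kc3q0 := ⟨_, fun h1 h2 => (pr_norm (pr_mul (cv3m_s.snd h1) (bd3q0_s.snd h1 h2)))⟩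
noncomputable def bf3q1_s : Sl2 bf3q1 := ⟨_, fun h1 h2 => (pr_norm (pr_case (pr_subr 67 100 h1) (pr_add (pr_subr 32832651 17000000 (pr_scale 335891 85000 h1)) (pr_cmul (enc_norm (bf3q1_3.enc h1.l h2)) (pr_norm (pr_csub (enc_rat _ 1336531 425000) (pr_scale 19411 3400 h1))))) (pr_case (pr_subr 83 100 h1) (pr_add (pr_addc (pr_scale 27179 40000 h1) (enc_rat _ 1044123 4000000)) (pr_cmul (enc_norm (bf3q1_3.enc h1.l h2)) (pr_norm (pr_subr 2476209 800000 (pr_scale 5767 1600 h1))))) (pr_add (pr_addc (pr_scale 12099 17000 h1) (enc_rat _ 796549 3400000)) (pr_cmul (enc_norm (bf3q1_3.enc h1.l h2)) (pr_norm (pr_subr 652163 425000 (pr_scale 29307 17000 h1))))))))⟩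
noncomputable def kf3q1_s : Sl2 kf3q1 := ⟨_, fun h1 h2 => (pr_norm (pr_mul (cv3m_s.snd h1) (bf3q1_s.snd h1 h2)))⟩
noncomputable def bx3q1_s : Sl2 bx3q1 := ⟨_, fun h1 h2 => (pr_norm (pr_case (pr_subr 67 100 h1) (pr_add (pr_csub (enc_rat _ 2387433 17000000) (pr_scale 13921 85000 h1)) (pr_cmul (enc_norm (bx3q1_3.enc h1.l h2)) (pr_norm (pr_subr 93359 1700000 (pr_neg (pr_scale 214 2125 h1)))))) (pr_case (pr_subr 83 100 h1) (pr_add (pr_csub (enc_rat _ 145179 800000) (pr_scale 9001 40000 h1)) (pr_cmul (enc_norm (bx3q1_3.enc h1.l h2)) (pr_norm (pr_subr 1750559 1600000 (pr_scale 4641 3200 h1))))) (pr_add (pr_subr 100213 3400000 (pr_scale 619 21250 h1)) (pr_cmul (enc_norm (bx3q1_3.enc h1.l h2)) (pr_norm (pr_csub (enc_rat _ 480987 850000) (pr_scale 1168 2125 h1))))))))⟩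
noncomputable def l3q1_s : Sl2 l3q1 := ⟨_, fun h1 h2 => (pr_norm (pr_mul (cv3m_s.snd h1) (bx3q1_s.snd h1 h2)))⟩
noncomputable def bd3q1_s : Sl2 bd3q1 := ⟨_, fun h1 h2 => (pr_norm (pr_add (pr_subr 846461 100000 (pr_scale 2734533 250000 h1)) (pr_cmul (enc_norm (enc_subr 1047 2000 h2)) (pr_norm (pr_csub (enc_rat _ 681897 100000) (pr_scale 141363 12500 h1))))))⟩
noncomputable def kc3q1_s : Sl2 kc3q1 := ⟨_, fun h1 h2 => (pr_norm (pr_mul (cv3m_s.snd h1) (bd3q1_s.snd h1 h2)))⟩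
noncomputable def cv3p_s : Sl1 cv3p := ⟨_, fun h1 => (pr_norm (pr_add (pr_scale 1 5 (c1g_s.snd h1)) (pr_scale 4 5 (pr_subr 1 2 (swg_s.snd h1)))))⟩
noncomputable def kf3q2_s : Sl2 kf3q2 := ⟨_, fun h1 h2 => (pr_norm (pr_mul (cv3p_s.snd h1) (pr_norm (pr_case (pr_csub (enc_pnc _ 1) (pr_scale 3 4 (pr_sq h1))) (pr_case (pr_subr 127 100 h1) (pr_add (pr_csub (enc_rat _ 35635023 11600000) (pr_scale 240821 116000 h1)) (pr_cmul (enc_norm (kf3q2_4.enc h1.l h2)) (pr_norm (pr_subr 3462613 290000 (pr_scale 2893 290 h1))))) (pr_case (pr_subr 69 50 h1) (pr_add (pr_csub (enc_rat _ 2571803 687500) (pr_scale 143147 55000 h1)) (pr_cmul (enc_norm (kf3q2_4.enc h1.l h2)) (pr_norm (pr_subr 275709 25000 (pr_scale 4629 500 h1))))) (pr_add (pr_subr 37201 50000 (pr_scale 809 1250 h1)) (pr_cmul (enc_norm (kf3q2_4.enc h1.l h2)) (pr_norm (pr_csub (enc_rat _ 6662093 200000) (pr_scale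 274459 12000 h1))))))) (pr_case (pr_subr 1 4 (c1g_s.snd h1)) (pr_case (pr_subr 1 10 (c1g_s.snd h1)) (pr_case (pr_subr 1 20 (c1g_s.snd h1)) (pr_add (pr_addc (pr_scale 18577 25000 (c1g_s.snd h1)) (enc_rat _ 674237 1000000)) (pr_cmul (enc_norm (kf3q2_4.enc h1.l h2)) (pr_norm (pr_subr 42007 100000 (pr_scale 3041 2500 (c1g_s.snd h1)))))) (pr_add (pr_addc (pr_scale 9289 12500 (c1g_s.snd h1)) (enc_rat _ 134847 200000)) (pr_cmul (enc_norm (kf3q2_4.enc h1.l h2)) (pr_norm (pr_subr 21123 50000 (pr_scale 6321 5000 (c1g_s.snd h1))))))) (pr_case (pr_subr 3 20 (c1g_s.snd h1)) (pr_add (pr_addc (pr_scale 1891 2500 (c1g_s.snd h1)) (enc_rat _ 672907 1000000)) (pr_cmul (enc_norm (kf3q2_4.enc h1.l h2)) (pr_norm (pr_subr 17579 50000 (pr_scale 2777 5000 (c1g_s.snd h1)))))) (pr_case (pr_subr 1 5 (c1g_s.snd h1)) (pr_add (pr_addc (pr_scale 9601 12500 (c1g_s.snd h1)) (enc_rat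 _ 134231 200000)) (pr_cmul (enc_norm (kf3q2_4.enc h1.l h2)) (pr_norm (pr_subr 10643 50000 (pr_neg (pr_scale 1847 5000 (c1g_s.snd h1))))))) (pr_add (pr_addc (pr_scale 19189 25000 (c1g_s.snd h1)) (enc_rat _ 671259 1000000)) (pr_cmul (enc_norm (kf3q2_4.enc h1.l h2)) (pr_norm (pr_subr 213 2000 (pr_neg (pr_scale 2253 2500 (c1g_s.snd h1)))))))))) (pr_case (pr_subr 7 20 (c1g_s.snd h1)) (pr_case (pr_subr 3 10 (c1g_s.snd h1)) (pr_add (pr_addc (pr_scale 36841 50000 (c1g_s.snd h1)) (enc_rat _ 21217 31250)) (pr_cmul (enc_norm (kf3q2_4.enc h1.l h2)) (pr_norm (pr_subr 37 250 (pr_neg (pr_scale 919 1250 (c1g_s.snd h1))))))) (pr_add (pr_addc (pr_scale 16473 25000 (c1g_s.snd h1)) (enc_rat _ 351157 500000)) (pr_cmul (enc_norm (kf3q2_4.enc h1.l h2)) (pr_norm (pr_subr 8977 25000 (pr_neg (pr_scale 79 2500 (c1g_s.snd h1)))))))) (pr_case (pr_subr 2 5 (c1g_s.snd h1)) (pr_add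 (pr_addc (pr_scale 2869 5000 (c1g_s.snd h1)) (enc_rat _ 366053 500000)) (pr_cmul (enc_norm (kf3q2_4.enc h1.l h2)) (pr_norm (pr_subr 62669 100000 (pr_scale 733 1000 (c1g_s.snd h1)))))) (pr_case (pr_subr 9 20 (c1g_s.snd h1)) (pr_add (pr_addc (pr_scale 23677 50000 (c1g_s.snd h1)) (enc_rat _ 77221 100000)) (pr_cmul (enc_norm (kf3q2_4.enc h1.l h2)) (pr_norm (pr_subr 103749 100000 (pr_scale 44 25 (c1g_s.snd h1)))))) (pr_add (pr_addc (pr_scale 14697 50000 (c1g_s.snd h1)) (enc_rat _ 85303 100000)) (pr_cmul (enc_norm (kf3q2_4.enc h1.l h2)) (pr_norm (pr_subr 24549 10000 (pr_scale 24549 5000 (c1g_s.snd h1))))))))))))))⟩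
noncomputable def l3q2_s : Sl2 l3q2 := ⟨_, fun h1 h2 => (pr_norm (pr_mul (cv3p_s.snd h1) (pr_norm (pr_case (pr_csub (enc_pnc _ 1) (pr_scale 3 4 (pr_sq h1))) (pr_case (pr_subr 127 100 h1) (pr_add (pr_subr 24390071 29000000 (pr_scale 39373 58000 h1)) (pr_cmul (enc_norm (l3q2_4.enc h1.l h2)) (pr_norm (pr_subr 6297463 2900000 (pr_scale 2371 1450 h1))))) (pr_case (pr_subr 69 50 h1) (pr_add (pr_subr 12658317 11000000 (pr_scale 101499 110000 h1)) (pr_cmul (enc_norm (l3q2_4.enc h1.l h2)) (pr_norm (pr_subr 193129 100000 (pr_scale 723 500 h1))))) (pr_add (pr_subr 1119359 1000000 (pr_scale 26999 30000 h1)) (pr_cmul (enc_norm (l3q2_4.enc h1.l h2)) (pr_norm (pr_csub (enc_rat _ 358893 50000) (pr_scale 30929 6000 h1))))))) (pr_case (pr_subr 1 4 (c1g_s.snd h1)) (pr_case (pr_subr 1 10 (c1g_s.snd h1)) (pr_case (pr_subr 1 20 (c1g_s.snd h1)) (pr_add (pr_subr 57251 1000000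 (pr_scale 7283 25000 (c1g_s.snd h1))) (pr_cmul (enc_norm (l3q2_4.enc h1.l h2)) (pr_norm (pr_subr 2809 10000 (pr_neg (pr_scale 1427 5000 (c1g_s.snd h1))))))) (pr_add (pr_subr 28233 500000 (pr_scale 13781 50000 (c1g_s.snd h1))) (pr_cmul (enc_norm (l3q2_4.enc h1.l h2)) (pr_norm (pr_subr 29033 100000 (pr_neg (pr_scale 121 1250 (c1g_s.snd h1)))))))) (pr_case (pr_subr 3 20 (c1g_s.snd h1)) (pr_add (pr_subr 973 20000 (pr_scale 9873 50000 (c1g_s.snd h1))) (pr_cmul (enc_norm (l3q2_4.enc h1.l h2)) (pr_norm (pr_subr 36711 100000 (pr_scale 671 1000 (c1g_s.snd h1)))))) (pr_case (pr_subr 1 5 (c1g_s.snd h1)) (pr_add (pr_subr 18907 500000 (pr_scale 6261 50000 (c1g_s.snd h1))) (pr_cmul (enc_norm (l3q2_4.enc h1.l h2)) (pr_norm (pr_subr 39267 100000 (pr_scale 4207 5000 (c1g_s.snd h1)))))) (pr_add (pr_subr 15433 500000 (pr_scale 1131 12500 (c1g_s.snd h1))) (pr_cmul (enc_norm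 (l3q2_4.enc h1.l h2)) (pr_norm (pr_subr 35351 100000 (pr_scale 807 1250 (c1g_s.snd h1))))))))) (pr_case (pr_subr 7 20 (c1g_s.snd h1)) (pr_case (pr_subr 3 10 (c1g_s.snd h1)) (pr_add (pr_subr 763 31250 (pr_scale 1617 25000 (c1g_s.snd h1))) (pr_cmul (enc_norm (l3q2_4.enc h1.l h2)) (pr_norm (pr_subr 16453 50000 (pr_scale 2739 5000 (c1g_s.snd h1)))))) (pr_add (pr_subr 4691 250000 (pr_scale 573 12500 (c1g_s.snd h1))) (pr_cmul (enc_norm (l3q2_4.enc h1.l h2)) (pr_norm (pr_subr 3847 12500 (pr_scale 298 625 (c1g_s.snd h1))))))) (pr_case (pr_subr 2 5 (c1g_s.snd h1)) (pr_add (pr_subr 11827 1000000 (pr_scale 1301 50000 (c1g_s.snd h1))) (pr_cmul (enc_norm (l3q2_4.enc h1.l h2)) (pr_norm (pr_subr 6529 20000 (pr_scale 2651 5000 (c1g_s.snd h1)))))) (pr_case (pr_subr 9 20 (c1g_s.snd h1)) (pr_add (pr_subr 1167 200000 (pr_scale 69 6250 (c1g_s.snd h1))) (pr_cmul (enc_norm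 (l3q2_4.enc h1.l h2)) (pr_norm (pr_subr 42077 100000 (pr_scale 383 500 (c1g_s.snd h1)))))) (pr_add (pr_subr 867 100000 (pr_scale 867 50000 (c1g_s.snd h1))) (pr_cmul (enc_norm (l3q2_4.enc h1.l h2)) (pr_norm (pr_subr 7607 10000 (pr_scale 7607 5000 (c1g_s.snd h1))))))))))))))⟩
noncomputable def kc3q2_s : Sl2 kc3q2 := ⟨_, fun h1 h2 => (pr_norm (pr_mul (cv3p_s.snd h1) (pr_norm (pr_case (pr_csub (enc_pnc _ 1) (pr_scale 3 4 (pr_sq h1))) (pr_add (pr_subr 3021467 346000 (pr_scale 1468489 173000 h1)) (pr_cmul (enc_norm (kc3q2_4.enc h1.l h2)) (pr_norm (pr_subr 8107372 540625 (pr_neg (pr_scale 17 6920 h1)))))) (pr_case (pr_subr 1 4 (c1g_s.snd h1)) (pr_add (pr_csub (enc_rat _ 534411 500000) (pr_scale 528381 250000 (c1g_s.snd h1))) (pr_cmul (enc_norm (kc3q2_4.enc h1.l h2)) (pr_norm (pr_subr 374757 25000 (pr_scale 152659 5000 (c1g_s.snd h1)))))) (pr_add (pr_csub (enc_rat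 _ 540441 500000) (pr_scale 540441 250000 (c1g_s.snd h1))) (pr_cmul (enc_norm (kc3q2_4.enc h1.l h2)) (pr_norm (pr_subr 735733 50000 (pr_scale 735733 25000 (c1g_s.snd h1)))))))))))⟩
noncomputable def cv3r_s : Sl1 cv3r := ⟨_, fun h1 => (pr_norm (pr_scale 4 5 (pr_subr 1 2 (swg_s.snd h1))))⟩
noncomputable def bf3q3_s : Sl2 bf3q3 := ⟨_, fun h1 h2 => (pr_norm (pr_case (pr_subr 17 10 h1) (pr_case (pr_subr 1547 1000 h1) (pr_add (pr_subr 63594899 47000000 (pr_scale 40303 47000 h1)) (pr_cmul (enc_norm (bf3q3_3.enc h1.l h2)) (pr_norm (pr_subr 1209839 2350000 (pr_scale 1451 4700 h1))))) (pr_add (pr_subr 477751 375000 (pr_scale 20563 25500 h1)) (pr_cmul (enc_norm (bf3q3_3.enc h1.l h2)) (pr_norm (pr_subr 65239 100000 (pr_scale 169 425 h1)))))) (pr_case (pr_subr 37 20 h1) (pr_add (pr_subr 1914883 1500000 (pr_scale 121187 150000 h1)) (pr_cmul (enc_norm (bf3q3_3.enc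 h1.l h2)) (pr_norm (pr_subr 186683 300000 (pr_scale 5699 15000 h1))))) (pr_add (pr_subr 1300133 1000000 (pr_scale 5129 6250 h1)) (pr_cmul (enc_norm (bf3q3_3.enc h1.l h2)) (pr_norm (pr_subr 170329 300000 (pr_scale 5257 15000 h1))))))))⟩
noncomputable def kf3q3_s : Sl2 kf3q3 := ⟨_, fun h1 h2 => (pr_norm (pr_mulz (fun ht => cv3r_two (enc_two h1.r ht)) (cv3r_s.snd h1) (bf3q3_s.snd h1 h2)))⟩
noncomputable def bx3q3_s : Sl2 bx3q3 := ⟨_, fun h1 h2 => (pr_norm (pr_case (pr_subr 17 10 h1) (pr_case (pr_subr 1547 1000 h1) (pr_add (pr_subr 32316219 23500000 (pr_scale 50287 47000 h1)) (pr_cmul (enc_norm (bx3q3_3.enc h1.l h2)) (pr_norm (pr_subr 14227199 4700000 (pr_scale 3799 2350 h1))))) (pr_add (pr_subr 519857 1000000 (pr_scale 879 1700 h1)) (pr_cmul (enc_norm (bx3q3_3.enc h1.l h2)) (pr_norm (pr_subr 1669423 90000 (pr_scale 178249 15300 h1)))))) (pr_case (pr_subr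 37 20 h1) (pr_add (pr_addc (pr_scale 991 12500 h1) (enc_rat _ 224367 1000000)) (pr_cmul (enc_norm (bx3q3_3.enc h1.l h2)) (pr_norm (pr_subr 109327 7500 (pr_scale 27941 3000 h1))))) (pr_add (pr_addc (pr_scale 3331 50000 h1) (enc_rat _ 61947 250000)) (pr_cmul (enc_norm (bx3q3_3.enc h1.l h2)) (pr_norm (pr_subr 178339 12500 (pr_scale 45731 5000 h1))))))))⟩
noncomputable def l3q3_s : Sl2 l3q3 := ⟨_, fun h1 h2 => (pr_norm (pr_mulz (fun ht => cv3r_two (enc_two h1.r ht)) (cv3r_s.snd h1) (bx3q3_s.snd h1 h2)))⟩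
noncomputable def bd3q3_s : Sl2 bd3q3 := ⟨_, fun h1 h2 => (pr_norm (pr_add (pr_csub (enc_rat _ 3051803 250000) (pr_scale 2828941 500000 h1)) (pr_cmul (enc_norm (enc_subr 1047 2000 h2)) (pr_norm (pr_subr 103711 6250 (pr_scale 256261 25000 h1))))))⟩
noncomputable def kc3q3_s : Sl2 kc3q3 := ⟨_, fun h1 h2 => (pr_norm (pr_mulz (fun ht => cv3r_two (enc_two h1.r ht)) (cv3r_s.snd h1) (bd3q3_s.snd h1 h2)))⟩
noncomputable def c3g_s : Sl1 c3g := ⟨_, fun h1 => (pr_sqrtg (pr_csub (enc_pnc _ 3) (pr_scale 3 4 (pr_sq h1))))⟩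
noncomputable def cv4m_s : Sl1 cv4m := ⟨_, fun h1 => (pr_norm (pr_add (pr_scale 7 10 (pr_addc (swg_s.snd h1) (enc_rat _ 1 2))) (pr_scale 3 10 (c3g_s.snd h1))))⟩
noncomputable def bf4q0_s : Sl2 bf4q0 := ⟨_, fun h1 h2 => (pr_norm (pr_case (pr_subr 7 50 h1) (pr_add (pr_csub (enc_rat _ 155069 250000) (pr_scale 108477 70000 h1)) (pr_cmul (enc_norm (bf4q0_3.enc h1.l h2)) (pr_norm (pr_addc (pr_scale 22887 14000 h1) (enc_rat _ 23 50000))))) (pr_case (pr_subr 29 100 h1) (pr_add (pr_csub (enc_rat _ 1390547 2500000) (pr_scale 27303 25000 h1)) (pr_cmul (enc_norm (bf4q0_3.enc h1.l h2)) (pr_norm (pr_subr 687917 1500000 (pr_scale 18427 3750 h1))))) (pr_add (pr_csub (enc_rat _ 2284119807 2200000000) (pr_scale 60593483 22000000 h1)) (pr_cmul (enc_norm (bf4q0_3.enc h1.l h2)) (pr_norm (pr_csub (enc_rat _ 11122087391 3575000000) (pr_scale 264385229 35750000 h1))))))))⟩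
noncomputable def esg_s : Sl1 esg := ⟨_, fun h1 => (pr_norm (pr_subn 1 (pr_add (pr_half h1) (gsg_s.snd h1))))⟩
noncomputable def kf4q0_9_s : Sl2 kf4q0_9 := ⟨_, fun h1 h2 => (pr_csub (enc_pnc _ 1) h1)⟩
noncomputable def kf4q0_10_s : Sl2 kf4q0_10 := ⟨_, fun h1 h2 => (gsg_s.snd (pr_norm (kf4q0_9_s.snd h1 h2)))⟩
noncomputable def kf4q0_13_s : Sl2 kf4q0_13 := ⟨_, fun h1 h2 => (pr_sub (pr_scale 3 4 (kf4q0_9_s.snd h1 h2)) (pr_half (kf4q0_10_s.snd h1 h2)))⟩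
noncomputable def kf4q0_31_s : Sl2 kf4q0_31 := ⟨_, fun h1 h2 => (pr_mul (cv3m_s.snd h1) (bf3q0_s.snd h1 h2))⟩
noncomputable def kf4q0_s : Sl2 kf4q0 := ⟨_, fun h1 h2 => (pr_norm (pr_case (pr_subr 433 1000 h1) (pr_mul (cv4m_s.snd h1) (bf4q0_s.snd h1 h2)) (pr_add (kf4q0_31_s.snd h1 h2) (pr_mul (pr_norm (pr_mul (pr_norm (pr_sub (pr_mul h1 (pr_norm (pr_sub (pr_mul (pr_norm (pr_sub (kf4q0_13_s.snd h1 h2) (pr_csub (enc_rat _ 1 4) (pr_scale 3 8 (pr_mul (pr_norm (kf4q0_9_s.snd h1 h2)) (pr_nd (pr_inv (kf4q0_10_s.snd h1 h2)))))))) (pr_nd (pr_inv (esg_s.snd (pr_norm (kf4q0_9_s.snd h1 h2)))))) (kcg_s.snd (pr_norm (kf4q0_13_s.snd h1 h2)) h2)))) (kf4q0_31_s.snd h1 h2))) (pr_norm (pr_sub (cv4m_s.snd h1) (cv3m_s.snd h1))))) (pr_nd (pr_inv (pr_sub (pr_addc (swg_s.snd h1) (enc_rat _ 1 2)) (cv3m_s.snd h1))))))))⟩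
noncomputable def bx4q0_s : Sl2 bx4q0 := ⟨_, fun h1 h2 => (pr_norm (pr_case (pr_subr 7 50 h1) (pr_add (pr_addc (pr_scale 1373 4375 h1) (enc_rat _ 48517 1000000)) (pr_cmul (enc_norm (bx4q0_3.enc h1.l h2)) (pr_norm (pr_csub (enc_rat _ 14203 50000) (pr_scale 9649 7000 h1))))) (pr_case (pr_subr 29 100 h1) (pr_add (pr_addc (pr_scale 2723 75000 h1) (enc_rat _ 1310551 15000000)) (pr_cmul (enc_norm (bx4q0_3.enc h1.l h2)) (pr_norm (pr_addc (pr_scale 2767 15000 h1) (enc_rat _ 48941 750000))))) (pr_add (pr_csub (enc_rat _ 996637847 6500000000) (pr_scale 12423943 65000000 h1)) (pr_cmul (enc_norm (bx4q0_3.enc h1.l h2)) (pr_norm (pr_csub (enc_rat _ 1561877367 7150000000) (pr_scale 24579823 71500000 h1))))))))⟩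
noncomputable def qsg_s : Sl1 qsg := ⟨_, fun h1 => (pr_norm (pr_mul (pr_norm (pr_csub (enc_pnc _ 1) (gsg_s.snd h1))) (pr_norm (pr_subn 1 (pr_nat 2 (gsg_s.snd h1))))))⟩
noncomputable def l4q0_9_s : Sl2 l4q0_9 := ⟨_, fun h1 h2 => (pr_csub (enc_pnc _ 1) h1)⟩
noncomputable def l4q0_24_s : Sl2 l4q0_24 := ⟨_, fun h1 h2 => (pr_mul (cv3m_s.snd h1) (bx3q0_s.snd h1 h2))⟩
noncomputable def l4q0_s : Sl2 l4q0 := ⟨_, fun h1 h2 => (pr_norm (pr_case (pr_subr 433 1000 h1) (pr_mul (cv4m_s.snd h1) (bx4q0_s.snd h1 h2)) (pr_add (l4q0_24_s.snd h1 h2) (pr_mul (pr_norm (pr_mul (pr_norm (pr_sub (pr_sub (qsg_s.snd (pr_norm (l4q0_9_s.snd h1 h2))) (pr_mul (pr_norm (pr_nat 2 (pr_subc (l4q0_9_s.snd h1 h2) h2))) (pr_norm (pr_mul (esg_s.snd (pr_norm (l4q0_9_s.snd h1 h2))) (kcg_s.snd (pr_norm (pr_sub (pr_scale 3 4 (l4q0_9_s.snd h1 h2)) (pr_half (gsg_s.snd (pr_norm (l4q0_9_s.snd h1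 h2)))))) h2))))) (l4q0_24_s.snd h1 h2))) (pr_norm (pr_sub (cv4m_s.snd h1) (cv3m_s.snd h1))))) (pr_nd (pr_inv (pr_sub (pr_addc (swg_s.snd h1) (enc_rat _ 1 2)) (cv3m_s.snd h1))))))))⟩
noncomputable def bd4q0_s : Sl2 bd4q0 := ⟨_, fun h1 h2 => (pr_norm (pr_add (pr_subr 300711 500000 (pr_neg (pr_scale 11032207911 4330000000 h1))) (pr_cmul (enc_norm (enc_subr 1047 2000 h2)) (pr_norm (pr_csub (enc_rat _ 58869 100000) (pr_scale 531277 43300000 h1))))))⟩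
noncomputable def kc4q0_9_s : Sl2 kc4q0_9 := ⟨_, fun h1 h2 => (pr_csub (enc_pnc _ 1) h1)⟩
noncomputable def kc4q0_10_s : Sl2 kc4q0_10 := ⟨_, fun h1 h2 => (gsg_s.snd (pr_norm (kc4q0_9_s.snd h1 h2)))⟩
noncomputable def kc4q0_14_s : Sl2 kc4q0_14 := ⟨_, fun h1 h2 => (esg_s.snd (pr_norm (kc4q0_9_s.snd h1 h2)))⟩
noncomputable def kc4q0_18_s : Sl2 kc4q0_18 := ⟨_, fun h1 h2 => (gug_s.snd (pr_norm (kc4q0_9_s.snd h1 h2)))⟩
noncomputable def kc4q0_20_s : Sl2 kc4q0_20 := ⟨_, fun h1 h2 => (pr_mul (pr_norm (kc4q0_9_s.snd h1 h2)) (pr_nd (pr_inv (kc4q0_10_s.snd h1 h2))))⟩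
noncomputable def kc4q0_21_s : Sl2 kc4q0_21 := ⟨_, fun h1 h2 => (pr_scale 3 4 (kc4q0_20_s.snd h1 h2))⟩
noncomputable def kc4q0_50_s : Sl2 kc4q0_50 := ⟨_, fun h1 h2 => (pr_mul (cv3m_s.snd h1) (bd3q0_s.snd h1 h2))⟩
noncomputable def kc4q0_s : Sl2 kc4q0 := ⟨_, fun h1 h2 => (pr_norm (pr_case (pr_subr 433 1000 h1) (pr_mul (cv4m_s.snd h1) (bd4q0_s.snd h1 h2)) (pr_add (kc4q0_50_s.snd h1 h2) (pr_mul (pr_norm (pr_mul (pr_norm (pr_sub (pr_add (pr_sub (pr_neg (pr_add (pr_cadd (enc_rat _ 3 4) (pr_scale 3 2 (kc4q0_9_s.snd h1 h2))) (pr_scale 3 4 (pr_mul (pr_norm (kc4q0_20_s.snd h1 h2)) (kc4q0_18_s.snd h1 h2))))) (pr_mul (pr_norm (pr_sub (pr_mul (pr_norm (pr_mul (pr_norm (kc4q0_21_s.snd h1 h2)) (pr_norm (pr_subn 3 (pr_nat 4 (kc4q0_10_s.snd h1 h2)))))) (kc4q0_14_s.snd h1 h2)) (pr_mul (qsg_s.snd (pr_norm (kc4q0_9_s.snd h1 h2))) (pr_norm (pr_csub (enc_rat _ 1 2) (kc4q0_21_s.snd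 h1 h2)))))) (pr_nd (pr_inv (pr_mul (pr_nd (pr_nat 2 (kc4q0_14_s.snd h1 h2))) (kc4q0_14_s.snd h1 h2)))))) (pr_mul (kcg_s.snd (pr_norm (pr_sub (pr_scale 3 4 (kc4q0_9_s.snd h1 h2)) (pr_half (kc4q0_10_s.snd h1 h2)))) h2) (pr_norm (pr_cadd (enc_pnc _ 1) (pr_add (kc4q0_18_s.snd h1 h2) (pr_nat 2 (kc4q0_10_s.snd h1 h2))))))) (kc4q0_50_s.snd h1 h2))) (pr_norm (pr_sub (cv4m_s.snd h1) (cv3m_s.snd h1))))) (pr_nd (pr_inv (pr_sub (pr_addc (swg_s.snd h1) (enc_rat _ 1 2)) (cv3m_s.snd h1))))))))⟩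
noncomputable def bf4q1_s : Sl2 bf4q1 := ⟨_, fun h1 h2 => (pr_norm (pr_case (pr_subr 17 25 h1) (pr_add (pr_subr 22323000877 40000000000 (pr_scale 3100103581 1600000000 h1)) (pr_cmul (enc_norm (bf4q1_3.enc h1.l h2)) (pr_norm (pr_csub (enc_rat _ 75941297 2000000000) (pr_scale 41511841 80000000 h1))))) (pr_case (pr_subr 21 25 h1) (pr_add (pr_addc (pr_scale 130431 160000 h1) (enc_rat _ 820549 4000000)) (pr_cmul (enc_norm (bf4q1_3.enc h1.l h2)) (pr_norm (pr_subr 272909 200000 (pr_scale 12349 8000 h1))))) (pr_add (pr_addc (pr_scale 1101 1600 h1) (enc_rat _ 499 1600)) (pr_cmul (enc_norm (bf4q1_3.enc h1.l h2)) (pr_norm (pr_subr 679 1600 (pr_scale 679 1600 h1))))))))⟩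
noncomputable def kf4q1_9_s : Sl2 kf4q1_9 := ⟨_, fun h1 h2 => (pr_csub (enc_pnc _ 1) h1)⟩
noncomputable def kf4q1_10_s : Sl2 kf4q1_10 := ⟨_, fun h1 h2 => (gsg_s.snd (pr_norm (kf4q1_9_s.snd h1 h2)))⟩
noncomputable def kf4q1_13_s : Sl2 kf4q1_13 := ⟨_, fun h1 h2 => (pr_sub (pr_scale 3 4 (kf4q1_9_s.snd h1 h2)) (pr_half (kf4q1_10_s.snd h1 h2)))⟩
noncomputable def kf4q1_30_s : Sl2 kf4q1_30 := ⟨_, fun h1 h2 => (pr_mul (cv3m_s.snd h1) (bf3q1_s.snd h1 h2))⟩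
noncomputable def kf4q1_s : Sl2 kf4q1 := ⟨_, fun h1 h2 => (pr_norm (pr_case (pr_subr 13 25 h1) (pr_add (kf4q1_30_s.snd h1 h2) (pr_mul (pr_norm (pr_mul (pr_norm (pr_sub (pr_mul (pr_norm (pr_subn 1 h1)) (pr_norm (pr_sub (pr_mul (pr_norm (pr_sub (kf4q1_13_s.snd h1 h2) (pr_csub (enc_rat _ 1 4) (pr_scale 3 8 (pr_mul (pr_norm (kf4q1_9_s.snd h1 h2)) (pr_nd (pr_inv (kf4q1_10_s.snd h1 h2)))))))) (pr_nd (pr_inv (esg_s.snd (pr_norm (kf4q1_9_s.snd h1 h2)))))) (kcg_s.snd (pr_norm (kf4q1_13_s.snd h1 h2)) h2)))) (kf4q1_30_s.snd h1 h2))) (pr_norm (pr_sub (cv4m_s.snd h1) (cv3m_s.snd h1))))) (pr_nd (pr_inv (pr_sub (pr_addc (swg_s.snd h1) (enc_rat _ 1 2)) (cv3m_s.snd h1)))))) (pr_mul (cv4m_s.snd h1) (bf4q1_s.snd h1 h2))))⟩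
noncomputable def bx4q1_s : Sl2 bx4q1 := ⟨_, fun h1 h2 => (pr_norm (pr_case (pr_subr 17 25 h1) (pr_add (pr_add (pr_csub (enc_rat _ 6415076183 40000000000) (pr_scale 339418599 1600000000 h1)) (pr_cmul (enc_norm (bx4q1_3.enc h1.l h2)) (pr_norm (pr_subr 427063463 2000000000 (pr_scale 40908439 80000000 h1))))) (pr_cmul (enc_sq (enc_norm (bx4q1_3.enc h1.l h2))) (pr_norm (pr_subr 241247 800000 (pr_scale 14191 32000 h1))))) (pr_case (pr_subr 21 25 h1) (pr_add (pr_csub (enc_rat _ 110209 4000000) (pr_scale 2689 160000 h1)) (pr_cmul (enc_norm (bx4q1_3.enc h1.l h2)) (pr_norm (pr_csub (enc_rat _ 1659 8000) (pr_scale 861 8000 h1))))) (pr_add (pr_csub (enc_rat _ 2687 32000) (pr_scale 2687 32000 h1)) (pr_cmul (enc_norm (bx4q1_3.enc h1.l h2)) (pr_norm (pr_csub (enc_rat _ 11697 16000) (pr_scale 11697 16000 h1))))))))⟩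
noncomputable def l4q1_9_s : Sl2 l4q1_9 := ⟨_, fun h1 h2 => (pr_csub (enc_pnc _ 1) h1)⟩
noncomputable def l4q1_24_s : Sl2 l4q1_24 := ⟨_, fun h1 h2 => (pr_mul (cv3m_s.snd h1) (bx3q1_s.snd h1 h2))⟩
noncomputable def l4q1_s : Sl2 l4q1 := ⟨_, fun h1 h2 => (pr_norm (pr_case (pr_subr 13 25 h1) (pr_add (l4q1_24_s.snd h1 h2) (pr_mul (pr_norm (pr_mul (pr_norm (pr_sub (pr_sub (qsg_s.snd (pr_norm (l4q1_9_s.snd h1 h2))) (pr_mul (pr_norm (pr_nat 2 (pr_subc (l4q1_9_s.snd h1 h2) h2))) (pr_norm (pr_mul (esg_s.snd (pr_norm (l4q1_9_s.snd h1 h2))) (kcg_s.snd (pr_norm (pr_sub (pr_scale 3 4 (l4q1_9_s.snd h1 h2)) (pr_half (gsg_s.snd (pr_norm (l4q1_9_s.snd h1 h2)))))) h2))))) (l4q1_24_s.snd h1 h2))) (pr_norm (pr_sub (cv4m_s.snd h1) (cv3m_s.snd h1))))) (pr_nd (pr_inv (pr_sub (pr_addc (swg_s.snd h1) (enc_rat _ 1 2)) (cv3m_s.snd h1)))))) (pr_mul (cv4m_s.snd h1) (bx4q1_s.snd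 h1 h2))))⟩
noncomputable def bd4q1_s : Sl2 bd4q1 := ⟨_, fun h1 h2 => (pr_norm (pr_add (pr_subr 5458962287 2400000000 (pr_scale 5458962287 2400000000 h1)) (pr_cmul (enc_norm (enc_subr 1047 2000 h2)) (pr_norm (pr_subr 29484771 10000000 (pr_scale 29484771 10000000 h1))))))⟩
noncomputable def kc4q1_9_s : Sl2 kc4q1_9 := ⟨_, fun h1 h2 => (pr_csub (enc_pnc _ 1) h1)⟩
noncomputable def kc4q1_10_s : Sl2 kc4q1_10 := ⟨_, fun h1 h2 => (gsg_s.snd (pr_norm (kc4q1_9_s.snd h1 h2)))⟩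
noncomputable def kc4q1_14_s : Sl2 kc4q1_14 := ⟨_, fun h1 h2 => (esg_s.snd (pr_norm (kc4q1_9_s.snd h1 h2)))⟩
noncomputable def kc4q1_17_s : Sl2 kc4q1_17 := ⟨_, fun h1 h2 => (gug_s.snd (pr_norm (kc4q1_9_s.snd h1 h2)))⟩
noncomputable def kc4q1_19_s : Sl2 kc4q1_19 := ⟨_, fun h1 h2 => (pr_mul (pr_norm (kc4q1_9_s.snd h1 h2)) (pr_nd (pr_inv (kc4q1_10_s.snd h1 h2))))⟩
noncomputable def kc4q1_20_s : Sl2 kc4q1_20 := ⟨_, fun h1 h2 => (pr_scale 3 4 (kc4q1_19_s.snd h1 h2))⟩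
noncomputable def kc4q1_49_s : Sl2 kc4q1_49 := ⟨_, fun h1 h2 => (pr_mul (cv3m_s.snd h1) (bd3q1_s.snd h1 h2))⟩
noncomputable def kc4q1_s : Sl2 kc4q1 := ⟨_, fun h1 h2 => (pr_norm (pr_case (pr_subr 13 25 h1) (pr_add (kc4q1_49_s.snd h1 h2) (pr_mul (pr_norm (pr_mul (pr_norm (pr_sub (pr_add (pr_sub (pr_neg (pr_add (pr_cadd (enc_rat _ 3 4) (pr_scale 3 2 (kc4q1_9_s.snd h1 h2))) (pr_scale 3 4 (pr_mul (pr_norm (kc4q1_19_s.snd h1 h2)) (kc4q1_17_s.snd h1 h2))))) (pr_mul (pr_norm (pr_sub (pr_mul (pr_norm (pr_mul (pr_norm (kc4q1_20_s.snd h1 h2)) (pr_norm (pr_subn 3 (pr_nat 4 (kc4q1_10_s.snd h1 h2)))))) (kc4q1_14_s.snd h1 h2)) (pr_mul (qsg_s.snd (pr_norm (kc4q1_9_s.snd h1 h2))) (pr_norm (pr_csub (enc_rat _ 1 2) (kc4q1_20_s.snd h1 h2)))))) (pr_nd (pr_inv (pr_mul (pr_nd (pr_nat 2 (kc4q1_14_s.snd h1 h2))) (kc4q1_14_s.snd h1 h2)))))) (pr_mul (kcg_s.snd (pr_norm (pr_sub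 (pr_scale 3 4 (kc4q1_9_s.snd h1 h2)) (pr_half (kc4q1_10_s.snd h1 h2)))) h2) (pr_norm (pr_cadd (enc_pnc _ 1) (pr_add (kc4q1_17_s.snd h1 h2) (pr_nat 2 (kc4q1_10_s.snd h1 h2))))))) (kc4q1_49_s.snd h1 h2))) (pr_norm (pr_sub (cv4m_s.snd h1) (cv3m_s.snd h1))))) (pr_nd (pr_inv (pr_sub (pr_addc (swg_s.snd h1) (enc_rat _ 1 2)) (cv3m_s.snd h1)))))) (pr_mul (cv4m_s.snd h1) (bd4q1_s.snd h1 h2))))⟩
noncomputable def cv4p_s : Sl1 cv4p := ⟨_, fun h1 => (pr_norm (pr_add (pr_scale 7 10 (pr_subr 1 2 (swg_s.snd h1))) (pr_scale 3 10 (c3g_s.snd h1))))⟩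
noncomputable def bf4q2_s : Sl2 bf4q2 := ⟨_, fun h1 h2 => (pr_norm (pr_case (pr_subr 29 25 h1) (pr_add (pr_addc (pr_scale 5843 8000 h1) (enc_rat _ 85247 500000)) (pr_cmul (enc_norm (bf4q2_3.enc h1.l h2)) (pr_norm (pr_csub (enc_rat _ 197549 16000) (pr_scale 191853 16000 h1))))) (pr_case (pr_subr 33 25 h1) (pr_add (pr_csub (enc_rat _ 14908593 4000000) (pr_scale 373713 160000 h1)) (pr_cmul (enc_norm (bf4q2_3.enc h1.l h2)) (pr_norm (pr_subr 294443 20000 (pr_scale 22689 2000 h1))))) (pr_add (pr_csub (enc_rat _ 114659687259 40000000000) (pr_scale 2693910523 1600000000 h1)) (pr_cmul (enc_norm (bf4q2_3.enc h1.l h2)) (pr_norm (pr_csub (enc_rat _ 552454681 800000000) (pr_scale 10617657 32000000 h1))))))))⟩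
noncomputable def kf4q2_8_s : Sl2 kf4q2_8 := ⟨_, fun h1 h2 => (pr_subn 1 h1)⟩
noncomputable def kf4q2_9_s : Sl2 kf4q2_9 := ⟨_, fun h1 h2 => (gsg_s.snd (pr_norm (kf4q2_8_s.snd h1 h2)))⟩
noncomputable def kf4q2_10_s : Sl2 kf4q2_10 := ⟨_, fun h1 h2 => (pr_scale 3 4 (kf4q2_8_s.snd h1 h2))⟩
noncomputable def kf4q2_11_s : Sl2 kf4q2_11 := ⟨_, fun h1 h2 => (pr_half (kf4q2_9_s.snd h1 h2))⟩
noncomputable def kf4q2_188_s : Sl2 kf4q2_188 := ⟨_, fun h1 h2 => (pr_mul (cv3p_s.snd h1) (pr_norm (pr_case (pr_csub (enc_pnc _ 1) (pr_scale 3 4 (pr_sq h1))) (pr_case (pr_subr 127 100 h1) (pr_add (pr_csub (enc_rat _ 35635023 11600000) (pr_scale 240821 116000 h1)) (pr_cmul (enc_norm (kf4q2_4.enc h1.l h2)) (pr_norm (pr_subr 3462613 290000 (pr_scale 2893 290 h1))))) (pr_case (pr_subr 69 50 h1) (pr_add (pr_csub (enc_rat _ 2571803 687500) (pr_scale 143147 55000 h1)) (pr_cmul (enc_norm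 (kf4q2_4.enc h1.l h2)) (pr_norm (pr_subr 275709 25000 (pr_scale 4629 500 h1))))) (pr_add (pr_subr 37201 50000 (pr_scale 809 1250 h1)) (pr_cmul (enc_norm (kf4q2_4.enc h1.l h2)) (pr_norm (pr_csub (enc_rat _ 6662093 200000) (pr_scale 274459 12000 h1))))))) (pr_case (pr_subr 1 4 (c1g_s.snd h1)) (pr_case (pr_subr 1 10 (c1g_s.snd h1)) (pr_case (pr_subr 1 20 (c1g_s.snd h1)) (pr_add (pr_addc (pr_scale 18577 25000 (c1g_s.snd h1)) (enc_rat _ 674237 1000000)) (pr_cmul (enc_norm (kf4q2_4.enc h1.l h2)) (pr_norm (pr_subr 42007 100000 (pr_scale 3041 2500 (c1g_s.snd h1)))))) (pr_add (pr_addc (pr_scale 9289 12500 (c1g_s.snd h1)) (enc_rat _ 134847 200000)) (pr_cmul (enc_norm (kf4q2_4.enc h1.l h2)) (pr_norm (pr_subr 21123 50000 (pr_scale 6321 5000 (c1g_s.snd h1))))))) (pr_case (pr_subr 3 20 (c1g_s.snd h1)) (pr_add (pr_addc (pr_scale 1891 2500 (c1g_s.snd h1)) (enc_rat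 _ 672907 1000000)) (pr_cmul (enc_norm (kf4q2_4.enc h1.l h2)) (pr_norm (pr_subr 17579 50000 (pr_scale 2777 5000 (c1g_s.snd h1)))))) (pr_case (pr_subr 1 5 (c1g_s.snd h1)) (pr_add (pr_addc (pr_scale 9601 12500 (c1g_s.snd h1)) (enc_rat _ 134231 200000)) (pr_cmul (enc_norm (kf4q2_4.enc h1.l h2)) (pr_norm (pr_subr 10643 50000 (pr_neg (pr_scale 1847 5000 (c1g_s.snd h1))))))) (pr_add (pr_addc (pr_scale 19189 25000 (c1g_s.snd h1)) (enc_rat _ 671259 1000000)) (pr_cmul (enc_norm (kf4q2_4.enc h1.l h2)) (pr_norm (pr_subr 213 2000 (pr_neg (pr_scale 2253 2500 (c1g_s.snd h1)))))))))) (pr_case (pr_subr 7 20 (c1g_s.snd h1)) (pr_case (pr_subr 3 10 (c1g_s.snd h1)) (pr_add (pr_addc (pr_scale 36841 50000 (c1g_s.snd h1)) (enc_rat _ 21217 31250)) (pr_cmul (enc_norm (kf4q2_4.enc h1.l h2)) (pr_norm (pr_subr 37 250 (pr_neg (pr_scale 919 1250 (c1g_s.snd h1))))))) (pr_add (pr_addc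 (pr_scale 16473 25000 (c1g_s.snd h1)) (enc_rat _ 351157 500000)) (pr_cmul (enc_norm (kf4q2_4.enc h1.l h2)) (pr_norm (pr_subr 8977 25000 (pr_neg (pr_scale 79 2500 (c1g_s.snd h1)))))))) (pr_case (pr_subr 2 5 (c1g_s.snd h1)) (pr_add (pr_addc (pr_scale 2869 5000 (c1g_s.snd h1)) (enc_rat _ 366053 500000)) (pr_cmul (enc_norm (kf4q2_4.enc h1.l h2)) (pr_norm (pr_subr 62669 100000 (pr_scale 733 1000 (c1g_s.snd h1)))))) (pr_case (pr_subr 9 20 (c1g_s.snd h1)) (pr_add (pr_addc (pr_scale 23677 50000 (c1g_s.snd h1)) (enc_rat _ 77221 100000)) (pr_cmul (enc_norm (kf4q2_4.enc h1.l h2)) (pr_norm (pr_subr 103749 100000 (pr_scale 44 25 (c1g_s.snd h1)))))) (pr_add (pr_addc (pr_scale 14697 50000 (c1g_s.snd h1)) (enc_rat _ 85303 100000)) (pr_cmul (enc_norm (kf4q2_4.enc h1.l h2)) (pr_norm (pr_subr 24549 10000 (pr_scale 24549 5000 (c1g_s.snd h1)))))))))))))⟩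
noncomputable def kf4q2_s : Sl2 kf4q2 := ⟨_, fun h1 h2 => (pr_norm (pr_case (pr_subr 37 25 h1) (pr_mul (cv4p_s.snd h1) (bf4q2_s.snd h1 h2)) (pr_add (kf4q2_188_s.snd h1 h2) (pr_mul (pr_norm (pr_mul (pr_norm (pr_sub (pr_mul (pr_norm (kf4q2_8_s.snd h1 h2)) (pr_norm (pr_add (pr_mul (pr_norm (pr_sub (pr_sub (kf4q2_11_s.snd h1 h2) (kf4q2_10_s.snd h1 h2)) (pr_csub (enc_rat _ 1 4) (pr_scale 3 8 (pr_mul (pr_norm (kf4q2_8_s.snd h1 h2)) (pr_nd (pr_inv (kf4q2_9_s.snd h1 h2)))))))) (pr_nd (pr_inv (esg_s.snd (pr_norm (kf4q2_8_s.snd h1 h2)))))) (kcg_s.snd (pr_norm (pr_sub (kf4q2_10_s.snd h1 h2) (kf4q2_11_s.snd h1 h2))) h2)))) (kf4q2_188_s.snd h1 h2))) (pr_norm (pr_sub (cv4p_s.snd h1) (cv3p_s.snd h1))))) (pr_nd (pr_inv (pr_sub (pr_subr 1 2 (swg_s.snd h1)) (cv3p_s.snd h1))))))))⟩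
noncomputable def bx4q2_s : Sl2 bx4q2 := ⟨_, fun h1 h2 => (pr_norm (pr_case (pr_subr 29 25 h1) (pr_add (pr_addc (pr_scale 4831 160000 h1) (enc_rat _ 115949 4000000)) (pr_cmul (enc_norm (bx4q2_3.enc h1.l h2)) (pr_norm (pr_csub (enc_rat _ 369043 400000) (pr_scale 9259 16000 h1))))) (pr_case (pr_subr 33 25 h1) (pr_add (pr_csub (enc_rat _ 642977 2000000) (pr_scale 17757 80000 h1)) (pr_cmul (enc_norm (bx4q2_3.enc h1.l h2)) (pr_norm (pr_csub (enc_rat _ 114269 200000) (pr_scale 2207 8000 h1))))) (pr_add (pr_add (pr_subr 16570811659 20000000000 (pr_scale 519417323 800000000 h1)) (pr_cmul (enc_norm (bx4q2_3.enc h1.l h2)) (pr_norm (pr_subr 1292420467 500000000 (pr_scale 42303499 20000000 h1))))) (pr_cmul (enc_sq (enc_norm (bx4q2_3.enc h1.l h2))) (pr_norm (pr_csub (enc_rat _ 5851659 2000000) (pr_scale 177323 80000 h1))))))))⟩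
noncomputable def l4q2_8_s : Sl2 l4q2_8 := ⟨_, fun h1 h2 => (pr_subn 1 h1)⟩
noncomputable def l4q2_192_s : Sl2 l4q2_192 := ⟨_, fun h1 h2 => (pr_mul (cv3p_s.snd h1) (pr_norm (pr_case (pr_csub (enc_pnc _ 1) (pr_scale 3 4 (pr_sq h1))) (pr_case (pr_subr 127 100 h1) (pr_add (pr_subr 24390071 29000000 (pr_scale 39373 58000 h1)) (pr_cmul (enc_norm (l4q2_4.enc h1.l h2)) (pr_norm (pr_subr 6297463 2900000 (pr_scale 2371 1450 h1))))) (pr_case (pr_subr 69 50 h1) (pr_add (pr_subr 12658317 11000000 (pr_scale 101499 110000 h1)) (pr_cmul (enc_norm (l4q2_4.enc h1.l h2)) (pr_norm (pr_subr 193129 100000 (pr_scale 723 500 h1))))) (pr_add (pr_subr 1119359 1000000 (pr_scale 26999 30000 h1)) (pr_cmul (enc_norm (l4q2_4.enc h1.l h2)) (pr_norm (pr_csub (enc_rat _ 358893 50000) (pr_scale 30929 6000 h1))))))) (pr_case (pr_subr 1 4 (c1g_s.snd h1)) (pr_case (pr_subr 1 10 (c1g_s.snd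 h1)) (pr_case (pr_subr 1 20 (c1g_s.snd h1)) (pr_add (pr_subr 57251 1000000 (pr_scale 7283 25000 (c1g_s.snd h1))) (pr_cmul (enc_norm (l4q2_4.enc h1.l h2)) (pr_norm (pr_subr 2809 10000 (pr_neg (pr_scale 1427 5000 (c1g_s.snd h1))))))) (pr_add (pr_subr 28233 500000 (pr_scale 13781 50000 (c1g_s.snd h1))) (pr_cmul (enc_norm (l4q2_4.enc h1.l h2)) (pr_norm (pr_subr 29033 100000 (pr_neg (pr_scale 121 1250 (c1g_s.snd h1)))))))) (pr_case (pr_subr 3 20 (c1g_s.snd h1)) (pr_add (pr_subr 973 20000 (pr_scale 9873 50000 (c1g_s.snd h1))) (pr_cmul (enc_norm (l4q2_4.enc h1.l h2)) (pr_norm (pr_subr 36711 100000 (pr_scale 671 1000 (c1g_s.snd h1)))))) (pr_case (pr_subr 1 5 (c1g_s.snd h1)) (pr_add (pr_subr 18907 500000 (pr_scale 6261 50000 (c1g_s.snd h1))) (pr_cmul (enc_norm (l4q2_4.enc h1.l h2)) (pr_norm (pr_subr 39267 100000 (pr_scale 4207 5000 (c1g_s.snd h1)))))) (pr_add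 (pr_subr 15433 500000 (pr_scale 1131 12500 (c1g_s.snd h1))) (pr_cmul (enc_norm (l4q2_4.enc h1.l h2)) (pr_norm (pr_subr 35351 100000 (pr_scale 807 1250 (c1g_s.snd h1))))))))) (pr_case (pr_subr 7 20 (c1g_s.snd h1)) (pr_case (pr_subr 3 10 (c1g_s.snd h1)) (pr_add (pr_subr 763 31250 (pr_scale 1617 25000 (c1g_s.snd h1))) (pr_cmul (enc_norm (l4q2_4.enc h1.l h2)) (pr_norm (pr_subr 16453 50000 (pr_scale 2739 5000 (c1g_s.snd h1)))))) (pr_add (pr_subr 4691 250000 (pr_scale 573 12500 (c1g_s.snd h1))) (pr_cmul (enc_norm (l4q2_4.enc h1.l h2)) (pr_norm (pr_subr 3847 12500 (pr_scale 298 625 (c1g_s.snd h1))))))) (pr_case (pr_subr 2 5 (c1g_s.snd h1)) (pr_add (pr_subr 11827 1000000 (pr_scale 1301 50000 (c1g_s.snd h1))) (pr_cmul (enc_norm (l4q2_4.enc h1.l h2)) (pr_norm (pr_subr 6529 20000 (pr_scale 2651 5000 (c1g_s.snd h1)))))) (pr_case (pr_subr 9 20 (c1g_s.snd h1)) (pr_add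 (pr_subr 1167 200000 (pr_scale 69 6250 (c1g_s.snd h1))) (pr_cmul (enc_norm (l4q2_4.enc h1.l h2)) (pr_norm (pr_subr 42077 100000 (pr_scale 383 500 (c1g_s.snd h1)))))) (pr_add (pr_subr 867 100000 (pr_scale 867 50000 (c1g_s.snd h1))) (pr_cmul (enc_norm (l4q2_4.enc h1.l h2)) (pr_norm (pr_subr 7607 10000 (pr_scale 7607 5000 (c1g_s.snd h1)))))))))))))⟩
noncomputable def l4q2_s : Sl2 l4q2 := ⟨_, fun h1 h2 => (pr_norm (pr_case (pr_subr 37 25 h1) (pr_mul (cv4p_s.snd h1) (bx4q2_s.snd h1 h2)) (pr_add (l4q2_192_s.snd h1 h2) (pr_mul (pr_norm (pr_mul (pr_norm (pr_sub (pr_sub (qsg_s.snd (pr_norm (l4q2_8_s.snd h1 h2))) (pr_mul (pr_norm (pr_nat 2 (pr_subc (l4q2_8_s.snd h1 h2) h2))) (pr_norm (pr_mul (esg_s.snd (pr_norm (l4q2_8_s.snd h1 h2))) (kcg_s.snd (pr_norm (pr_sub (pr_scale 3 4 (l4q2_8_s.snd h1 h2)) (pr_half (gsg_s.snd (pr_norm (l4q2_8_s.snd h1 h2)))))) h2)))))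 (l4q2_192_s.snd h1 h2))) (pr_norm (pr_sub (cv4p_s.snd h1) (cv3p_s.snd h1))))) (pr_nd (pr_inv (pr_sub (pr_subr 1 2 (swg_s.snd h1)) (cv3p_s.snd h1))))))))⟩
noncomputable def bd4q2_s : Sl2 bd4q2 := ⟨_, fun h1 h2 => (pr_norm (pr_add (pr_subr 2009411957 320000000 (pr_scale 1528764277 320000000 h1)) (pr_cmul (enc_norm (enc_subr 1047 2000 h2)) (pr_norm (pr_subr 3663603413 60000000 (pr_scale 3405239213 60000000 h1))))))⟩
noncomputable def kc4q2_8_s : Sl2 kc4q2_8 := ⟨_, fun h1 h2 => (pr_subn 1 h1)⟩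
noncomputable def kc4q2_9_s : Sl2 kc4q2_9 := ⟨_, fun h1 h2 => (gsg_s.snd (pr_norm (kc4q2_8_s.snd h1 h2)))⟩
noncomputable def kc4q2_13_s : Sl2 kc4q2_13 := ⟨_, fun h1 h2 => (esg_s.snd (pr_norm (kc4q2_8_s.snd h1 h2)))⟩
noncomputable def kc4q2_16_s : Sl2 kc4q2_16 := ⟨_, fun h1 h2 => (gug_s.snd (pr_norm (kc4q2_8_s.snd h1 h2)))⟩
noncomputable def kc4q2_18_s : Sl2 kc4q2_18 := ⟨_, fun h1 h2 => (pr_mul (pr_norm (kc4q2_8_s.snd h1 h2)) (pr_nd (pr_inv (kc4q2_9_s.snd h1 h2))))⟩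
noncomputable def kc4q2_19_s : Sl2 kc4q2_19 := ⟨_, fun h1 h2 => (pr_scale 3 4 (kc4q2_18_s.snd h1 h2))⟩
noncomputable def kc4q2_85_s : Sl2 kc4q2_85 := ⟨_, fun h1 h2 => (pr_mul (cv3p_s.snd h1) (pr_norm (pr_case (pr_csub (enc_pnc _ 1) (pr_scale 3 4 (pr_sq h1))) (pr_add (pr_subr 3021467 346000 (pr_scale 1468489 173000 h1)) (pr_cmul (enc_norm (kc4q2_4.enc h1.l h2)) (pr_norm (pr_subr 8107372 540625 (pr_neg (pr_scale 17 6920 h1)))))) (pr_case (pr_subr 1 4 (c1g_s.snd h1)) (pr_add (pr_csub (enc_rat _ 534411 500000) (pr_scale 528381 250000 (c1g_s.snd h1))) (pr_cmul (enc_norm (kc4q2_4.enc h1.l h2)) (pr_norm (pr_subr 374757 25000 (pr_scale 152659 5000 (c1g_s.snd h1)))))) (pr_add (pr_csub (enc_rat _ 540441 500000) (pr_scale 540441 250000 (c1g_s.snd h1))) (pr_cmul (enc_norm (kc4q2_4.enc h1.l h2)) (pr_norm (pr_subr 735733 50000 (pr_scale 735733 25000 (c1g_s.snd h1))))))))))⟩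
noncomputable def kc4q2_s : Sl2 kc4q2 := ⟨_, fun h1 h2 => (pr_norm (pr_case (pr_subr 37 25 h1) (pr_mul (cv4p_s.snd h1) (bd4q2_s.snd h1 h2)) (pr_add (kc4q2_85_s.snd h1 h2) (pr_mul (pr_norm (pr_mul (pr_norm (pr_sub (pr_add (pr_sub (pr_add (pr_cadd (enc_rat _ 3 4) (pr_scale 3 2 (kc4q2_8_s.snd h1 h2))) (pr_scale 3 4 (pr_mul (pr_norm (kc4q2_18_s.snd h1 h2)) (kc4q2_16_s.snd h1 h2)))) (pr_mul (pr_norm (pr_sub (pr_mul (pr_norm (pr_mul (pr_norm (kc4q2_19_s.snd h1 h2)) (pr_norm (pr_subn 3 (pr_nat 4 (kc4q2_9_s.snd h1 h2)))))) (kc4q2_13_s.snd h1 h2)) (pr_mul (qsg_s.snd (pr_norm (kc4q2_8_s.snd h1 h2))) (pr_norm (pr_csub (enc_rat _ 1 2) (kc4q2_19_s.snd h1 h2)))))) (pr_nd (pr_inv (pr_mul (pr_nd (pr_nat 2 (kc4q2_13_s.snd h1 h2))) (kc4q2_13_s.snd h1 h2)))))) (pr_mul (kcg_s.snd (pr_norm (pr_sub (pr_scale 3 4 (kc4q2_8_s.snd h1 h2)) (pr_half (kc4q2_9_s.snd h1 h2)))) h2)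 (pr_norm (pr_csub (enc_pnc _ 1) (pr_add (kc4q2_16_s.snd h1 h2) (pr_nat 2 (kc4q2_9_s.snd h1 h2))))))) (kc4q2_85_s.snd h1 h2))) (pr_norm (pr_sub (cv4p_s.snd h1) (cv3p_s.snd h1))))) (pr_nd (pr_inv (pr_sub (pr_subr 1 2 (swg_s.snd h1)) (cv3p_s.snd h1))))))))⟩
noncomputable def ycg_s : Sl1 ycg := ⟨_, fun h1 => (pr_sqrtg (pr_scale 4 3 (pr_csub (enc_pnc _ 3) (pr_sq h1))))⟩
noncomputable def xc43_s : Sl1 xc43 := ⟨_, fun h1 => (pr_norm (pr_add (pr_scale 7 10 (pr_subr 1 2 (swg_s.snd (pr_nd (ycg_s.snd h1))))) (pr_scale 3 10 h1)))⟩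
noncomputable def kfc43_6_s : Sl2 kfc43_6 := ⟨_, fun h1 h2 => (pr_subr 1 2 (swg_s.snd (pr_nd (ycg_s.snd h1))))⟩
noncomputable def kfc43_9_s : Sl2 kfc43_9 := ⟨_, fun h1 h2 => (pr_add (pr_scale 7 10 (kfc43_6_s.snd h1 h2)) (pr_scale 3 10 h1))⟩
noncomputable def kfc43_47_s : Sl2 kfc43_47 := ⟨_, fun h1 h2 => (pr_subn 1 (ycg_s.snd h1))⟩
noncomputable def kfc43_48_s : Sl2 kfc43_48 := ⟨_, fun h1 h2 => (gsg_s.snd (pr_norm (kfc43_47_s.snd h1 h2)))⟩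
noncomputable def kfc43_49_s : Sl2 kfc43_49 := ⟨_, fun h1 h2 => (pr_scale 3 4 (kfc43_47_s.snd h1 h2))⟩
noncomputable def kfc43_50_s : Sl2 kfc43_50 := ⟨_, fun h1 h2 => (pr_half (kfc43_48_s.snd h1 h2))⟩
noncomputable def kfc43_67_s : Sl2 kfc43_67 := ⟨_, fun h1 h2 => (cv3r_s.snd (pr_nd (ycg_s.snd h1)))⟩
noncomputable def kfc43_69_s : Sl2 kfc43_69 := ⟨_, fun h1 h2 => (pr_mul (kfc43_67_s.snd h1 h2) (bf3q3_s.snd (pr_nd (ycg_s.snd h1)) h2))⟩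
noncomputable def kfc43_s : Sl2 kfc43 := ⟨_, fun h1 h2 => (pr_norm (pr_case (pr_subr 1567 1000 (ycg_s.snd h1)) (pr_add (kfc43_69_s.snd h1 h2) (pr_mul (pr_norm (pr_mul (pr_norm (pr_sub (pr_mul (pr_norm (pr_subn 2 (ycg_s.snd h1))) (pr_norm (pr_add (pr_mul (pr_norm (pr_sub (pr_sub (kfc43_50_s.snd h1 h2) (kfc43_49_s.snd h1 h2)) (pr_csub (enc_rat _ 1 4) (pr_scale 3 8 (pr_mul (pr_norm (kfc43_47_s.snd h1 h2)) (pr_nd (pr_inv (kfc43_48_s.snd h1 h2)))))))) (pr_nd (pr_inv (esg_s.snd (pr_norm (kfc43_47_s.snd h1 h2)))))) (kcg_s.snd (pr_norm (pr_sub (kfc43_49_s.snd h1 h2) (kfc43_50_s.snd h1 h2))) h2)))) (kfc43_69_s.snd h1 h2))) (pr_norm (pr_sub (kfc43_9_s.snd h1 h2) (kfc43_67_s.snd h1 h2))))) (pr_nd (pr_inv (pr_sub (kfc43_6_s.snd h1 h2) (kfc43_67_s.snd h1 h2)))))) (pr_mul (pr_norm (kfc43_9_s.snd h1 h2)) (pr_norm (pr_case (pr_csub (enc_rat _ 449145021 500000000) h1)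 (pr_add (pr_csub (enc_rat _ 1836714750586423 4563900000000000) (pr_scale 148138357 355984200 h1)) (pr_cmul (enc_norm (kfc43_11.enc h1.l h2)) (pr_norm (pr_csub (enc_rat _ 2982575733127 8913867187500) (pr_scale 12075952 44498025 h1))))) (pr_case (pr_csub (enc_rat _ 318315881 500000000) h1) (pr_add (pr_csub (enc_rat _ 6979681419903 10063780000000) (pr_scale 4841975 6541457 h1)) (pr_cmul (enc_norm (kfc43_11.enc h1.l h2)) (pr_norm (pr_csub (enc_rat _ 92401188853 1006378000000) (pr_scale 7250 6541457 h1))))) (pr_add (pr_csub (enc_rat _ 1 2) (pr_scale 138844500 318315881 h1)) (pr_cmul (enc_norm (kfc43_11.enc h1.l h2)) (pr_nd (pr_scale 45555000 318315881 h1))))))))))⟩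
noncomputable def lc43_6_s : Sl2 lc43_6 := ⟨_, fun h1 h2 => (pr_subr 1 2 (swg_s.snd (pr_nd (ycg_s.snd h1))))⟩
noncomputable def lc43_9_s : Sl2 lc43_9 := ⟨_, fun h1 h2 => (pr_add (pr_scale 7 10 (lc43_6_s.snd h1 h2)) (pr_scale 3 10 h1))⟩
noncomputable def lc43_49_s : Sl2 lc43_49 := ⟨_, fun h1 h2 => (pr_subn 1 (ycg_s.snd h1))⟩
noncomputable def lc43_62_s : Sl2 lc43_62 := ⟨_, fun h1 h2 => (cv3r_s.snd (pr_nd (ycg_s.snd h1)))⟩
noncomputable def lc43_64_s : Sl2 lc43_64 := ⟨_, fun h1 h2 => (pr_mul (lc43_62_s.snd h1 h2) (bx3q3_s.snd (pr_nd (ycg_s.snd h1)) h2))⟩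
noncomputable def lc43_s : Sl2 lc43 := ⟨_, fun h1 h2 => (pr_norm (pr_case (pr_subr 1567 1000 (ycg_s.snd h1)) (pr_add (lc43_64_s.snd h1 h2) (pr_mul (pr_norm (pr_mul (pr_norm (pr_sub (pr_sub (qsg_s.snd (pr_norm (lc43_49_s.snd h1 h2))) (pr_mul (pr_norm (pr_nat 2 (pr_subc (lc43_49_s.snd h1 h2) h2))) (pr_norm (pr_mul (esg_s.snd (pr_norm (lc43_49_s.snd h1 h2))) (kcg_s.snd (pr_norm (pr_sub (pr_scale 3 4 (lc43_49_s.snd h1 h2)) (pr_half (gsg_s.snd (pr_norm (lc43_49_s.snd h1 h2)))))) h2))))) (lc43_64_s.snd h1 h2))) (pr_norm (pr_sub (lc43_9_s.snd h1 h2) (lc43_62_s.snd h1 h2))))) (pr_nd (pr_inv (pr_sub (lc43_6_s.snd h1 h2) (lc43_62_s.snd h1 h2)))))) (pr_mul (pr_norm (lc43_9_s.snd h1 h2)) (pr_norm (pr_case (pr_csub (enc_rat _ 449145021 500000000) h1) (pr_add (pr_csub (enc_rat _ 236887363022129 345750000000000) (pr_scale 11881811 26968500 h1)) (pr_cmul (enc_norm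 (lc43_11.enc h1.l h2)) (pr_norm (pr_csub (enc_rat _ 426398288656333 142621875000000) (pr_scale 8201476 3422925 h1))))) (pr_case (pr_csub (enc_rat _ 318315881 500000000) h1) (pr_add (pr_csub (enc_rat _ 4602091498701 10063780000000) (pr_scale 1222825 6541457 h1)) (pr_cmul (enc_norm (lc43_11.enc h1.l h2)) (pr_norm (pr_csub (enc_rat _ 1337507566919 503189000000) (pr_scale 13258500 6541457 h1))))) (pr_add (pr_addc (pr_scale 101228200 318315881 h1) (enc_rat _ 339569 2500000)) (pr_cmul (enc_norm (lc43_11.enc h1.l h2)) (pr_norm (pr_csub (enc_rat _ 504779 234375) (pr_scale 1179020600 954947643 h1)))))))))))⟩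
noncomputable def kcc43_6_s : Sl2 kcc43_6 := ⟨_, fun h1 h2 => (pr_subr 1 2 (swg_s.snd (pr_nd (ycg_s.snd h1))))⟩
noncomputable def kcc43_9_s : Sl2 kcc43_9 := ⟨_, fun h1 h2 => (pr_add (pr_scale 7 10 (kcc43_6_s.snd h1 h2)) (pr_scale 3 10 h1))⟩
noncomputable def kcc43_24_s : Sl2 kcc43_24 := ⟨_, fun h1 h2 => (pr_subn 1 (ycg_s.snd h1))⟩
noncomputable def kcc43_25_s : Sl2 kcc43_25 := ⟨_, fun h1 h2 => (gsg_s.snd (pr_norm (kcc43_24_s.snd h1 h2)))⟩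
noncomputable def kcc43_29_s : Sl2 kcc43_29 := ⟨_, fun h1 h2 => (esg_s.snd (pr_norm (kcc43_24_s.snd h1 h2)))⟩
noncomputable def kcc43_34_s : Sl2 kcc43_34 := ⟨_, fun h1 h2 => (gug_s.snd (pr_norm (kcc43_24_s.snd h1 h2)))⟩
noncomputable def kcc43_36_s : Sl2 kcc43_36 := ⟨_, fun h1 h2 => (pr_mul (pr_norm (kcc43_24_s.snd h1 h2)) (pr_nd (pr_inv (kcc43_25_s.snd h1 h2))))⟩
noncomputable def kcc43_37_s : Sl2 kcc43_37 := ⟨_, fun h1 h2 => (pr_scale 3 4 (kcc43_36_s.snd h1 h2))⟩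
noncomputable def kcc43_62_s : Sl2 kcc43_62 := ⟨_, fun h1 h2 => (cv3r_s.snd (pr_nd (ycg_s.snd h1)))⟩
noncomputable def kcc43_64_s : Sl2 kcc43_64 := ⟨_, fun h1 h2 => (pr_mul (kcc43_62_s.snd h1 h2) (bd3q3_s.snd (pr_nd (ycg_s.snd h1)) h2))⟩
noncomputable def kcc43_s : Sl2 kcc43 := ⟨_, fun h1 h2 => (pr_norm (pr_case (pr_subr 1567 1000 (ycg_s.snd h1)) (pr_add (kcc43_64_s.snd h1 h2) (pr_mul (pr_norm (pr_mul (pr_norm (pr_sub (pr_add (pr_sub (pr_add (pr_cadd (enc_rat _ 3 4) (pr_scale 3 2 (kcc43_24_s.snd h1 h2))) (pr_scale 3 4 (pr_mul (pr_norm (kcc43_36_s.snd h1 h2)) (kcc43_34_s.snd h1 h2)))) (pr_mul (pr_norm (pr_sub (pr_mul (pr_norm (pr_mul (pr_norm (kcc43_37_s.snd h1 h2)) (pr_norm (pr_subn 3 (pr_nat 4 (kcc43_25_s.snd h1 h2)))))) (kcc43_29_s.snd h1 h2)) (pr_mul (qsg_s.snd (pr_norm (kcc43_24_s.snd h1 h2))) (pr_norm (pr_csub (enc_rat _ 1 2) (kcc43_37_s.snd h1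 h2)))))) (pr_nd (pr_inv (pr_mul (pr_nd (pr_nat 2 (kcc43_29_s.snd h1 h2))) (kcc43_29_s.snd h1 h2)))))) (pr_mul (kcg_s.snd (pr_norm (pr_sub (pr_scale 3 4 (kcc43_24_s.snd h1 h2)) (pr_half (kcc43_25_s.snd h1 h2)))) h2) (pr_norm (pr_csub (enc_pnc _ 1) (pr_add (kcc43_34_s.snd h1 h2) (pr_nat 2 (kcc43_25_s.snd h1 h2))))))) (kcc43_64_s.snd h1 h2))) (pr_norm (pr_sub (kcc43_9_s.snd h1 h2) (kcc43_62_s.snd h1 h2))))) (pr_nd (pr_inv (pr_sub (kcc43_6_s.snd h1 h2) (kcc43_62_s.snd h1 h2)))))) (pr_mul (pr_norm (kcc43_9_s.snd h1 h2)) (pr_norm (pr_add (pr_subr 1251 4000 (pr_scale 123041693 41395467 h1)) (pr_cmul (enc_norm (enc_subr 1047 2000 h2)) (pr_norm (pr_csub (enc_rat _ 222249 28000) (pr_scale 25080579208 3766987497 h1)))))))))⟩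
noncomputable def cv5m_s : Sl1 cv5m := ⟨_, fun h1 => (pr_norm (pr_add (pr_scale 3 10 (pr_addc (swg_s.snd h1) (enc_rat _ 1 2))) (pr_scale 7 10 (c3g_s.snd h1))))⟩
noncomputable def bf5q0_s : Sl2 bf5q0 := ⟨_, fun h1 h2 => (pr_norm (pr_case (pr_subr 3 10 h1) (pr_case (pr_subr 3 20 h1) (pr_add (pr_csub (enc_rat _ 224581 1000000) (pr_scale 32747 50000 h1)) (pr_cmul (enc_norm (bf5q0_3.enc h1.l h2)) (pr_norm (pr_subr 337 25000 (pr_scale 17021 15000 h1))))) (pr_add (pr_csub (enc_rat _ 13191 50000) (pr_scale 3437 3750 h1)) (pr_cmul (enc_norm (bf5q0_3.enc h1.l h2)) (pr_norm (pr_subr 10371 100000 (pr_scale 6511 3750 h1)))))) (pr_case (pr_subr 453 1000 h1) (pr_add (pr_csub (enc_rat _ 554031 850000) (pr_scale 1127 510 h1)) (pr_cmul (enc_norm (bf5q0_3.enc h1.l h2)) (pr_norm (pr_csub (enc_rat _ 5809367 5100000) (pr_scale 18409 7650 h1))))) (pr_add (pr_csub (enc_rat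 _ 52066183 47000000) (pr_scale 151171 47000 h1)) (pr_cmul (enc_norm (bf5q0_3.enc h1.l h2)) (pr_norm (pr_csub (enc_rat _ 2030637 2350000) (pr_scale 8457 4700 h1))))))))⟩
noncomputable def kf5q0_s : Sl2 kf5q0 := ⟨_, fun h1 h2 => (pr_norm (pr_mul (cv5m_s.snd h1) (bf5q0_s.snd h1 h2)))⟩
noncomputable def bx5q0_s : Sl2 bx5q0 := ⟨_, fun h1 h2 => (pr_norm (pr_case (pr_subr 3 10 h1) (pr_case (pr_subr 3 20 h1) (pr_add (pr_addc (pr_scale 3911 150000 h1) (enc_rat _ 30551 250000)) (pr_cmul (enc_norm (bx5q0_3.enc h1.l h2)) (pr_norm (pr_csub (enc_rat _ 1061 5000) (pr_scale 18377 15000 h1))))) (pr_add (pr_csub (enc_rat _ 76123 500000) (pr_scale 26131 150000 h1)) (pr_cmul (enc_norm (bx5q0_3.enc h1.l h2)) (pr_norm (pr_subr 23 2000 (pr_scale 1331 5000 h1)))))) (pr_case (pr_subr 453 1000 h1) (pr_add (pr_csub (enc_rat _ 272587 1593750) (pr_scale 9059 38250 h1)) (pr_cmul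 (enc_norm (bx5q0_3.enc h1.l h2)) (pr_norm (pr_subr 32483 637500 (pr_scale 1217 3060 h1))))) (pr_add (pr_csub (enc_rat _ 215317 1468750) (pr_scale 2149 11750 h1)) (pr_cmul (enc_norm (bx5q0_3.enc h1.l h2)) (pr_norm (pr_subr 1796331 4700000 (pr_scale 2653 2350 h1))))))))⟩
noncomputable def l5q0_s : Sl2 l5q0 := ⟨_, fun h1 h2 => (pr_norm (pr_mul (cv5m_s.snd h1) (bx5q0_s.snd h1 h2)))⟩
noncomputable def bd5q0_s : Sl2 bd5q0 := ⟨_, fun h1 h2 => (pr_norm (pr_add (pr_subr 583891 500000 (pr_scale 5221 15625 h1)) (pr_cmul (enc_norm (enc_subr 1047 2000 h2)) (pr_norm (pr_csub (enc_rat _ 120451 100000) (pr_scale 49993 50000 h1))))))⟩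
noncomputable def kc5q0_s : Sl2 kc5q0 := ⟨_, fun h1 h2 => (pr_norm (pr_mul (cv5m_s.snd h1) (bd5q0_s.snd h1 h2)))⟩
noncomputable def bf5q1_s : Sl2 bf5q1 := ⟨_, fun h1 h2 => (pr_norm (pr_case (pr_subr 67 100 h1) (pr_add (pr_subr 611559 3400000 (pr_scale 236703 170000 h1)) (pr_cmul (enc_norm (bf5q1_3.enc h1.l h2)) (pr_norm (pr_subr 158533 425000 (pr_scale 2279 8500 h1))))) (pr_case (pr_subr 83 100 h1) (pr_add (pr_addc (pr_scale 140427 160000 h1) (enc_rat _ 2639679 16000000)) (pr_cmul (enc_norm (bf5q1_3.enc h1.l h2)) (pr_norm (pr_subr 572717 800000 (pr_scale 6239 8000 h1))))) (pr_add (pr_addc (pr_scale 21311 34000 h1) (enc_rat _ 12689 34000)) (pr_cmul (enc_norm (bf5q1_3.enc h1.l h2)) (pr_norm (pr_subr 343 850 (pr_scale 343 850 h1))))))))⟩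
noncomputable def kf5q1_s : Sl2 kf5q1 := ⟨_, fun h1 h2 => (pr_norm (pr_mul (cv5m_s.snd h1) (bf5q1_s.snd h1 h2)))⟩
noncomputable def bx5q1_s : Sl2 bx5q1 := ⟨_, fun h1 h2 => (pr_norm (pr_case (pr_subr 67 100 h1) (pr_add (pr_csub (enc_rat _ 468819 3400000) (pr_scale 1818 10625 h1)) (pr_cmul (enc_norm (bx5q1_3.enc h1.l h2)) (pr_norm (pr_addc (pr_scale 3167 17000 h1) (enc_rat _ 8427 106250))))) (pr_case (pr_subr 83 100 h1) (pr_add (pr_csub (enc_rat _ 744271 16000000) (pr_scale 5557 160000 h1)) (pr_cmul (enc_norm (bx5q1_3.enc h1.l h2)) (pr_norm (pr_csub (enc_rat _ 163959 320000) (pr_scale 7361 16000 h1))))) (pr_add (pr_csub (enc_rat _ 1769 17000) (pr_scale 1769 17000 h1)) (pr_cmul (enc_norm (bx5q1_3.enc h1.l h2)) (pr_norm (pr_csub (enc_rat _ 3263 4250) (pr_scale 3263 4250 h1))))))))⟩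
noncomputable def l5q1_s : Sl2 l5q1 := ⟨_, fun h1 h2 => (pr_norm (pr_mul (cv5m_s.snd h1) (bx5q1_s.snd h1 h2)))⟩
noncomputable def bd5q1_s : Sl2 bd5q1 := ⟨_, fun h1 h2 => (pr_norm (pr_add (pr_subr 729391 500000 (pr_scale 729391 500000 h1)) (pr_cmul (enc_norm (enc_subr 1047 2000 h2)) (pr_norm (pr_subr 30329 50000 (pr_scale 30329 50000 h1))))))⟩
noncomputable def kc5q1_s : Sl2 kc5q1 := ⟨_, fun h1 h2 => (pr_norm (pr_mul (cv5m_s.snd h1) (bd5q1_s.snd h1 h2)))⟩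
noncomputable def cv5p_s : Sl1 cv5p := ⟨_, fun h1 => (pr_norm (pr_add (pr_scale 3 10 (pr_subr 1 2 (swg_s.snd h1))) (pr_scale 7 10 (c3g_s.snd h1))))⟩
noncomputable def bf5q2_s : Sl2 bf5q2 := ⟨_, fun h1 h2 => (pr_norm (pr_case (pr_subr 117 100 h1) (pr_add (pr_addc (pr_scale 40911 170000 h1) (enc_rat _ 1500741 2125000)) (pr_cmul (enc_norm (bf5q2_3.enc h1.l h2)) (pr_norm (pr_csub (enc_rat _ 500947 100000) (pr_scale 4693 1000 h1))))) (pr_case (pr_subr 133 100 h1) (pr_add (pr_csub (enc_rat _ 21587733 8000000) (pr_scale 116969 80000 h1)) (pr_cmul (enc_norm (bf5q2_3.enc h1.l h2)) (pr_norm (pr_subr 13861 5000 (pr_scale 979 500 h1))))) (pr_add (pr_csub (enc_rat _ 22384609 8500000) (pr_scale 240253 170000 h1)) (pr_cmul (enc_norm (bf5q2_3.enc h1.l h2)) (pr_norm (pr_subr 3303871 1700000 (pr_scale 22693 17000 h1))))))))⟩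
noncomputable def kf5q2_s : Sl2 kf5q2 := ⟨_, fun h1 h2 => (pr_norm (pr_mul (cv5p_s.snd h1) (bf5q2_s.snd h1 h2)))⟩
noncomputable def bx5q2_s : Sl2 bx5q2 := ⟨_, fun h1 h2 => (pr_norm (pr_case (pr_subr 117 100 h1) (pr_add (pr_csub (enc_rat _ 260561 850000) (pr_scale 51473 170000 h1)) (pr_cmul (enc_norm (bx5q2_3.enc h1.l h2)) (pr_norm (pr_subr 37873 106250 (pr_scale 4903 17000 h1))))) (pr_case (pr_subr 133 100 h1) (pr_add (pr_subr 1834493 8000000 (pr_scale 12417 80000 h1)) (pr_cmul (enc_norm (bx5q2_3.enc h1.l h2)) (pr_norm (pr_subr 2169527 1600000 (pr_scale 18283 16000 h1))))) (pr_add (pr_subr 846457 1700000 (pr_scale 60719 170000 h1)) (pr_cmul (enc_norm (bx5q2_3.enc h1.l h2)) (pr_norm (pr_subr 362693 425000 (pr_scale 6501 8500 h1))))))))⟩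
noncomputable def l5q2_s : Sl2 l5q2 := ⟨_, fun h1 h2 => (pr_norm (pr_mul (cv5p_s.snd h1) (bx5q2_s.snd h1 h2)))⟩
noncomputable def bd5q2_s : Sl2 bd5q2 := ⟨_, fun h1 h2 => (pr_norm (pr_add (pr_subr 1954969 1000000 (pr_scale 101529 62500 h1)) (pr_cmul (enc_norm (enc_subr 1047 2000 h2)) (pr_norm (pr_subr 1205957 50000 (pr_scale 563457 25000 h1))))))⟩
noncomputable def kc5q2_s : Sl2 kc5q2 := ⟨_, fun h1 h2 => (pr_norm (pr_mul (cv5p_s.snd h1) (bd5q2_s.snd h1 h2)))⟩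
noncomputable def xc53_s : Sl1 xc53 := ⟨_, fun h1 => (pr_norm (pr_add (pr_scale 3 10 (pr_subr 1 2 (swg_s.snd (pr_nd (ycg_s.snd h1))))) (pr_scale 7 10 h1)))⟩
noncomputable def kfc53_s : Sl2 kfc53 := ⟨_, fun h1 h2 => (pr_norm (pr_mul (pr_norm (pr_add (pr_scale 3 10 (pr_subr 1 2 (swg_s.snd (pr_nd (ycg_s.snd h1))))) (pr_scale 7 10 h1))) (pr_norm (pr_case (pr_csub (enc_rat _ 45620719 50000000) h1) (pr_case (pr_csub (enc_rat _ 1097767393 1000000000) h1) (pr_add (pr_csub (enc_rat _ 86467512572463 47876531000000) (pr_scale 92863000 47876531 h1)) (pr_cmul (enc_norm (kfc53_11.enc h1.l h2)) (pr_norm (pr_subr 969320881349 2393826550000 (pr_scale 23350000 47876531 h1))))) (pr_add (pr_csub (enc_rat _ 266631731504579 185353013000000) (pr_scale 297459000 185353013 h1)) (pr_cmul (enc_norm (kfc53_11.enc h1.l h2)) (pr_norm (pr_subr 959245309237 3707060260000 (pr_scale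 65720000 185353013 h1)))))) (pr_case (pr_csub (enc_rat _ 658122329 1000000000) h1) (pr_add (pr_csub (enc_rat _ 203885802588073 254292051000000) (pr_scale 230636000 254292051 h1)) (pr_cmul (enc_norm (kfc53_11.enc h1.l h2)) (pr_norm (pr_csub (enc_rat _ 285682894479 1695280340000) (pr_scale 9640000 84764017 h1))))) (pr_add (pr_csub (enc_rat _ 1 2) (pr_scale 295121000 658122329 h1)) (pr_cmul (enc_norm (kfc53_11.enc h1.l h2)) (pr_nd (pr_scale 93670000 658122329 h1)))))))))⟩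
noncomputable def lc53_s : Sl2 lc53 := ⟨_, fun h1 h2 => (pr_norm (pr_mul (pr_norm (pr_add (pr_scale 3 10 (pr_subr 1 2 (swg_s.snd (pr_nd (ycg_s.snd h1))))) (pr_scale 7 10 h1))) (pr_norm (pr_case (pr_csub (enc_rat _ 45620719 50000000) h1) (pr_case (pr_csub (enc_rat _ 1097767393 1000000000) h1) (pr_add (pr_csub (enc_rat _ 36460352732953 47876531000000) (pr_scale 30387000 47876531 h1)) (pr_cmul (enc_norm (lc53_11.enc h1.l h2)) (pr_norm (pr_csub (enc_rat _ 5736380351 16065950000) (pr_scale 50000 321319 h1))))) (pr_add (pr_csub (enc_rat _ 60900579228571 92676506500000) (pr_scale 100012000 185353013 h1)) (pr_cmul (enc_norm (lc53_11.enc h1.l h2)) (pr_norm (pr_csub (enc_rat _ 1197308622679 2316912662500) (pr_scale 55810000 185353013 h1)))))) (pr_case (pr_csub (enc_rat _ 658122329 1000000000) h1) (pr_add (pr_csub (enc_rat _ 95011101992267 127146025500000) (pr_scale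 162329000 254292051 h1)) (pr_cmul (enc_norm (lc53_11.enc h1.l h2)) (pr_norm (pr_csub (enc_rat _ 2048451509263 3178650637500) (pr_scale 112150000 254292051 h1))))) (pr_add (pr_addc (pr_scale 191315400 658122329 h1) (enc_rat _ 339569 2500000)) (pr_cmul (enc_norm (lc53_11.enc h1.l h2)) (pr_norm (pr_csub (enc_rat _ 504779 234375) (pr_scale 5398601200 1974366987 h1))))))))))⟩
noncomputable def kcc53_s : Sl2 kcc53 := ⟨_, fun h1 h2 => (pr_norm (pr_mul (pr_norm (pr_add (pr_scale 3 10 (pr_subr 1 2 (swg_s.snd (pr_nd (ycg_s.snd h1))))) (pr_scale 7 10 h1))) (pr_norm (pr_add (pr_subr 1251 4000 (pr_scale 372684250 286410981 h1)) (pr_cmul (enc_norm (enc_subr 1047 2000 h2)) (pr_norm (pr_csub (enc_rat _ 222249 28000) (pr_scale 3485862500 668292289 h1))))))))⟩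
noncomputable def kf6q0_s : Sl2 kf6q0 := ⟨_, fun h1 h2 => (pr_norm (pr_sub (pr_mul h1 (kcg_s.snd (pr_nd (pr_half h1)) h2)) (pr_mul (pr_norm (pr_mul (pr_nd (pr_sq h1)) (pr_norm (pr_addc (c3g_s.snd h1) (enc_rat _ 3 2))))) (pr_nd (pr_inv (pr_mul (pr_norm (pr_csub (enc_pnc _ 1) h1)) (pr_norm (pr_cadd (enc_pnc _ 1) h1))))))))⟩
noncomputable def l6q0_6_s : Sl2 l6q0_6 := ⟨_, fun h1 h2 => (pr_half h1)⟩
noncomputable def l6q0_7_s : Sl2 l6q0_7 := ⟨_, fun h1 h2 => (pr_half (c3g_s.snd h1))⟩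
noncomputable def l6q0_8_s : Sl2 l6q0_8 := ⟨_, fun h1 h2 => (pr_scale 1 4 h1)⟩
noncomputable def l6q0_s : Sl2 l6q0 := ⟨_, fun h1 h2 => (pr_norm (pr_add (txg_s.snd (pr_nd (l6q0_6_s.snd h1 h2)) (pr_norm (pr_sub (l6q0_7_s.snd h1 h2) (l6q0_8_s.snd h1 h2))) h2) (txg_s.snd (pr_nd (pr_neg (l6q0_6_s.snd h1 h2))) (pr_norm (pr_add (l6q0_7_s.snd h1 h2) (l6q0_8_s.snd h1 h2))) h2)))⟩
noncomputable def kc6q0_6_s : Sl2 kc6q0_6 := ⟨_, fun h1 h2 => (pr_half h1)⟩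
noncomputable def kc6q0_s : Sl2 kc6q0 := ⟨_, fun h1 h2 => (pr_norm (pr_case (pr_subr 1 4 (kc6q0_6_s.snd h1 h2)) (pr_case (pr_subr 13 100 (kc6q0_6_s.snd h1 h2)) (pr_add (pr_subr 1288943 500000 (pr_scale 932153 260000 h1)) (pr_cmul (enc_norm (kc6q0_3.enc h1.l h2)) (pr_norm (pr_csub (enc_rat _ 27289 10000) (pr_scale 82249 26000 h1))))) (pr_add (pr_subr 7732901 3000000 (pr_scale 107527 30000 h1)) (pr_cmul (enc_norm (kc6q0_3.enc h1.l h2)) (pr_norm (pr_csub (enc_rat _ 3411373 1200000) (pr_scale 86437 24000 h1)))))) (pr_case (pr_subr 19 50 (kc6q0_6_s.snd h1 h2)) (pr_add (pr_subr 21634871 13000000 (pr_scale 228463 130000 h1)) (pr_cmul (enc_norm (kc6q0_3.enc h1.l h2)) (pr_norm (pr_csub (enc_rat _ 2989277 1300000) (pr_scale 13077 5200 h1))))) (pr_add (pr_subr 328591 240000 (pr_scale 328591 240000 h1)) (pr_cmul (enc_norm (kc6q0_3.enc h1.l h2)) (pr_norm (pr_csub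 (enc_rat _ 38819 24000) (pr_scale 38819 24000 h1))))))))⟩
noncomputable def kf6q1_s : Sl2 kf6q1 := ⟨_, fun h1 h2 => (pr_norm (pr_add (pr_mul (pr_norm (pr_mul h1 (pr_norm (pr_addc (c3g_s.snd h1) (enc_rat _ 3 2))))) (pr_nd (pr_inv (pr_cadd (enc_pnc _ 1) h1)))) (pr_mul (pr_norm (pr_subn 1 h1)) (kcg_s.snd (pr_nd (pr_half h1)) h2))))⟩
noncomputable def l6q1_7_s : Sl2 l6q1_7 := ⟨_, fun h1 h2 => (pr_half h1)⟩
noncomputable def l6q1_8_s : Sl2 l6q1_8 := ⟨_, fun h1 h2 => (pr_half (c3g_s.snd h1))⟩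
noncomputable def l6q1_9_s : Sl2 l6q1_9 := ⟨_, fun h1 h2 => (pr_scale 1 4 h1)⟩
noncomputable def l6q1_s : Sl2 l6q1 := ⟨_, fun h1 h2 => (pr_norm (pr_add (txg_s.snd (pr_nd (l6q1_7_s.snd h1 h2)) (pr_norm (pr_sub (l6q1_8_s.snd h1 h2) (l6q1_9_s.snd h1 h2))) h2) (txg_s.snd (pr_nd (pr_neg (l6q1_7_s.snd h1 h2))) (pr_norm (pr_add (l6q1_8_s.snd h1 h2) (l6q1_9_s.snd h1 h2))) h2)))⟩
noncomputable def kc6q1_7_s : Sl2 kc6q1_7 := ⟨_, fun h1 h2 => (pr_half h1)⟩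
noncomputable def kc6q1_s : Sl2 kc6q1 := ⟨_, fun h1 h2 => (pr_norm (pr_case (pr_subr 1 4 (kc6q1_7_s.snd h1 h2)) (pr_case (pr_subr 13 100 (kc6q1_7_s.snd h1 h2)) (pr_add (pr_subr 1288943 500000 (pr_scale 932153 260000 h1)) (pr_cmul (enc_norm (kc6q1_3.enc h1.l h2)) (pr_norm (pr_csub (enc_rat _ 27289 10000) (pr_scale 82249 26000 h1))))) (pr_add (pr_subr 7732901 3000000 (pr_scale 107527 30000 h1)) (pr_cmul (enc_norm (kc6q1_3.enc h1.l h2)) (pr_norm (pr_csub (enc_rat _ 3411373 1200000) (pr_scale 86437 24000 h1)))))) (pr_case (pr_subr 19 50 (kc6q1_7_s.snd h1 h2)) (pr_add (pr_subr 21634871 13000000 (pr_scale 228463 130000 h1)) (pr_cmul (enc_norm (kc6q1_3.enc h1.l h2)) (pr_norm (pr_csub (enc_rat _ 2989277 1300000) (pr_scale 13077 5200 h1))))) (pr_add (pr_subr 328591 240000 (pr_scale 328591 240000 h1)) (pr_cmul (enc_norm (kc6q1_3.enc h1.l h2)) (pr_norm (pr_csub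 (enc_rat _ 38819 24000) (pr_scale 38819 24000 h1))))))))⟩
noncomputable def kf6q2_s : Sl2 kf6q2 := ⟨_, fun h1 h2 => (pr_norm (pr_add (pr_mul (pr_norm (pr_mul (pr_norm (pr_sub (pr_nat 2 (c3g_s.snd h1)) h1)) (pr_norm (pr_sub (pr_addc (c3g_s.snd h1) (enc_pnc _ 3)) (pr_scale 3 2 h1))))) (pr_nd (pr_inv (pr_nat 4 (pr_csub (enc_pnc _ 2) h1))))) (pr_mul (pr_norm (pr_subn 1 h1)) (kcg_s.snd (pr_norm (pr_sub (pr_scale 1 4 h1) (pr_half (c3g_s.snd h1)))) h2))))⟩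
noncomputable def l6q2_7_s : Sl2 l6q2_7 := ⟨_, fun h1 h2 => (pr_half (c3g_s.snd h1))⟩
noncomputable def l6q2_8_s : Sl2 l6q2_8 := ⟨_, fun h1 h2 => (pr_scale 1 4 h1)⟩
noncomputable def l6q2_9_s : Sl2 l6q2_9 := ⟨_, fun h1 h2 => (pr_sub (l6q2_7_s.snd h1 h2) (l6q2_8_s.snd h1 h2))⟩
noncomputable def l6q2_12_s : Sl2 l6q2_12 := ⟨_, fun h1 h2 => (pr_add (pr_scale 1 4 (c3g_s.snd h1)) (pr_scale 3 8 h1))⟩
noncomputable def l6q2_14_s : Sl2 l6q2_14 := ⟨_, fun h1 h2 => (pr_half (l6q2_9_s.snd h1 h2))⟩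
noncomputable def l6q2_s : Sl2 l6q2 := ⟨_, fun h1 h2 => (pr_norm (pr_sub (pr_nat 2 (txg_s.snd (pr_norm (pr_sub (l6q2_8_s.snd h1 h2) (l6q2_7_s.snd h1 h2))) (pr_norm (pr_add (l6q2_12_s.snd h1 h2) (l6q2_14_s.snd h1 h2))) h2)) (txg_s.snd (pr_norm (l6q2_9_s.snd h1 h2)) (pr_norm (pr_sub (l6q2_12_s.snd h1 h2) (l6q2_14_s.snd h1 h2))) h2)))⟩
noncomputable def kc6q2_9_s : Sl2 kc6q2_9 := ⟨_, fun h1 h2 => (pr_sub (pr_half (c3g_s.snd h1)) (pr_scale 1 4 h1))⟩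
noncomputable def kc6q2_s : Sl2 kc6q2 := ⟨_, fun h1 h2 => (pr_norm (pr_case (pr_addc (kc6q2_9_s.snd h1 h2) (enc_rat _ 7 100)) (pr_case (pr_addc (kc6q2_9_s.snd h1 h2) (enc_rat _ 9 25)) (pr_add (pr_subr 1251 4000 (pr_neg (pr_scale 1251 2000 (kc6q2_9_s.snd h1 h2)))) (pr_cmul (enc_norm (kc6q2_3.enc h1.l h2)) (pr_norm (pr_addc (pr_scale 222249 14000 (kc6q2_9_s.snd h1 h2)) (enc_rat _ 222249 28000))))) (pr_case (pr_addc (kc6q2_9_s.snd h1 h2) (enc_rat _ 21 100)) (pr_add (pr_addc (pr_scale 40091 50000 (kc6q2_9_s.snd h1 h2)) (enc_rat _ 502713 2500000)) (pr_cmul (enc_norm (kc6q2_3.enc h1.l h2)) (pr_norm (pr_addc (pr_scale 38563 7500 (kc6q2_9_s.snd h1 h2)) (enc_rat _ 2036757 500000))))) (pr_add (pr_addc (pr_scale 122897 140000 (kc6q2_9_s.snd h1 h2)) (enc_rat _ 434097 2000000)) (pr_cmul (enc_norm (kc6q2_3.enc h1.l h2)) (pr_norm (pr_addc (pr_scale 36513 14000 (kc6q2_9_s.snd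 h1 h2)) (enc_rat _ 708289 200000))))))) (pr_case (pr_subr 21 100 (kc6q2_9_s.snd h1 h2)) (pr_case (pr_subr 7 100 (kc6q2_9_s.snd h1 h2)) (pr_add (pr_addc (pr_scale 127021 140000 (kc6q2_9_s.snd h1 h2)) (enc_rat _ 438221 2000000)) (pr_cmul (enc_norm (kc6q2_3.enc h1.l h2)) (pr_norm (pr_addc (pr_scale 191 500 (kc6q2_9_s.snd h1 h2)) (enc_rat _ 169281 50000))))) (pr_add (pr_addc (pr_scale 5339 8750 (kc6q2_9_s.snd h1 h2)) (enc_rat _ 239909 1000000)) (pr_cmul (enc_norm (kc6q2_3.enc h1.l h2)) (pr_norm (pr_csub (enc_rat _ 22209 6250) (pr_scale 3527 1750 (kc6q2_9_s.snd h1 h2))))))) (pr_case (pr_subr 9 25 (kc6q2_9_s.snd h1 h2)) (pr_add (pr_addc (pr_scale 20143 150000 (kc6q2_9_s.snd h1 h2)) (enc_rat _ 212403 625000)) (pr_cmul (enc_norm (kc6q2_3.enc h1.l h2)) (pr_norm (pr_csub (enc_rat _ 2485327 500000) (pr_scale 131461 15000 (kc6q2_9_s.snd h1 h2)))))) (pr_add (pr_csub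 (enc_rat _ 97047 70000) (pr_scale 97047 35000 (kc6q2_9_s.snd h1 h2))) (pr_cmul (enc_norm (kc6q2_3.enc h1.l h2)) (pr_norm (pr_csub (enc_rat _ 25937 4000) (pr_scale 25937 2000 (kc6q2_9_s.snd h1 h2))))))))))⟩
noncomputable def kfc63_s : Sl2 kfc63 := ⟨_, fun h1 h2 => (pr_norm (pr_sub (pr_mul (pr_norm (pr_subn 2 (ycg_s.snd h1))) (kcg_s.snd (pr_norm (pr_sub (pr_scale 1 4 (ycg_s.snd h1)) (pr_half h1))) h2)) (pr_mul (pr_norm (pr_mul (pr_norm (pr_sub (pr_nat 2 h1) (ycg_s.snd h1))) (pr_norm (pr_sub (pr_addc h1 (enc_pnc _ 3)) (pr_scale 3 2 (ycg_s.snd h1)))))) (pr_nd (pr_inv (pr_nat 4 (pr_subn 1 (ycg_s.snd h1))))))))⟩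
noncomputable def lc63_7_s : Sl2 lc63_7 := ⟨_, fun h1 h2 => (pr_half h1)⟩
noncomputable def lc63_8_s : Sl2 lc63_8 := ⟨_, fun h1 h2 => (pr_scale 1 4 (ycg_s.snd h1))⟩
noncomputable def lc63_9_s : Sl2 lc63_9 := ⟨_, fun h1 h2 => (pr_sub (lc63_7_s.snd h1 h2) (lc63_8_s.snd h1 h2))⟩
noncomputable def lc63_12_s : Sl2 lc63_12 := ⟨_, fun h1 h2 => (pr_add (pr_scale 1 4 h1) (pr_scale 3 8 (ycg_s.snd h1)))⟩
noncomputable def lc63_14_s : Sl2 lc63_14 := ⟨_, fun h1 h2 => (pr_half (lc63_9_s.snd h1 h2))⟩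
noncomputable def lc63_s : Sl2 lc63 := ⟨_, fun h1 h2 => (pr_norm (pr_sub (pr_nat 2 (txg_s.snd (pr_norm (pr_sub (lc63_8_s.snd h1 h2) (lc63_7_s.snd h1 h2))) (pr_norm (pr_add (lc63_12_s.snd h1 h2) (lc63_14_s.snd h1 h2))) h2)) (txg_s.snd (pr_norm (lc63_9_s.snd h1 h2)) (pr_norm (pr_sub (lc63_12_s.snd h1 h2) (lc63_14_s.snd h1 h2))) h2)))⟩
noncomputable def kcc63_9_s : Sl2 kcc63_9 := ⟨_, fun h1 h2 => (pr_sub (pr_half h1) (pr_scale 1 4 (ycg_s.snd h1)))⟩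
noncomputable def kcc63_s : Sl2 kcc63 := ⟨_, fun h1 h2 => (pr_norm (pr_case (pr_addc (kcc63_9_s.snd h1 h2) (enc_rat _ 7 100)) (pr_case (pr_addc (kcc63_9_s.snd h1 h2) (enc_rat _ 9 25)) (pr_add (pr_subr 1251 4000 (pr_neg (pr_scale 1251 2000 (kcc63_9_s.snd h1 h2)))) (pr_cmul (enc_norm (kcc63_4.enc h1.l h2)) (pr_norm (pr_addc (pr_scale 222249 14000 (kcc63_9_s.snd h1 h2)) (enc_rat _ 222249 28000))))) (pr_case (pr_addc (kcc63_9_s.snd h1 h2) (enc_rat _ 21 100)) (pr_add (pr_addc (pr_scale 40091 50000 (kcc63_9_s.snd h1 h2)) (enc_rat _ 502713 2500000)) (pr_cmul (enc_norm (kcc63_4.enc h1.l h2)) (pr_norm (pr_addc (pr_scale 38563 7500 (kcc63_9_s.snd h1 h2)) (enc_rat _ 2036757 500000))))) (pr_add (pr_addc (pr_scale 122897 140000 (kcc63_9_s.snd h1 h2)) (enc_rat _ 434097 2000000)) (pr_cmul (enc_norm (kcc63_4.enc h1.l h2)) (pr_norm (pr_addc (pr_scale 36513 14000 (kcc63_9_s.snd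 h1 h2)) (enc_rat _ 708289 200000))))))) (pr_case (pr_subr 21 100 (kcc63_9_s.snd h1 h2)) (pr_case (pr_subr 7 100 (kcc63_9_s.snd h1 h2)) (pr_add (pr_addc (pr_scale 127021 140000 (kcc63_9_s.snd h1 h2)) (enc_rat _ 438221 2000000)) (pr_cmul (enc_norm (kcc63_4.enc h1.l h2)) (pr_norm (pr_addc (pr_scale 191 500 (kcc63_9_s.snd h1 h2)) (enc_rat _ 169281 50000))))) (pr_add (pr_addc (pr_scale 5339 8750 (kcc63_9_s.snd h1 h2)) (enc_rat _ 239909 1000000)) (pr_cmul (enc_norm (kcc63_4.enc h1.l h2)) (pr_norm (pr_csub (enc_rat _ 22209 6250) (pr_scale 3527 1750 (kcc63_9_s.snd h1 h2))))))) (pr_case (pr_subr 9 25 (kcc63_9_s.snd h1 h2)) (pr_add (pr_addc (pr_scale 20143 150000 (kcc63_9_s.snd h1 h2)) (enc_rat _ 212403 625000)) (pr_cmul (enc_norm (kcc63_4.enc h1.l h2)) (pr_norm (pr_csub (enc_rat _ 2485327 500000) (pr_scale 131461 15000 (kcc63_9_s.snd h1 h2)))))) (pr_add (pr_csub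 (enc_rat _ 97047 70000) (pr_scale 97047 35000 (kcc63_9_s.snd h1 h2))) (pr_cmul (enc_norm (kcc63_4.enc h1.l h2)) (pr_norm (pr_csub (enc_rat _ 25937 4000) (pr_scale 25937 2000 (kcc63_9_s.snd h1 h2))))))))))⟩
noncomputable def gB0q0 : Gn := ⟨ndB0q0, c1g_s, kf0q0_s, l0q0_s, false⟩
noncomputable def dB0q0 : CnW := ⟨cd0q0, kc0q0_s⟩
noncomputable def gB0q1 : Gn := ⟨ndB0q1, c1g_s, kf0q1_s, l0q1_s, false⟩
noncomputable def dB0q1 : CnW := ⟨cd0q1, kc0q1_s⟩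
noncomputable def gB0q2 : Gn := ⟨ndB0q2, idf_s, kfc02_s, lc02_s, true⟩
noncomputable def dB0q2 : CnW := ⟨cd0q2, kcc02_s⟩
noncomputable def gB1q0 : Gn := ⟨ndB1q0, cv1m_s, kf1q0_s, l1q0_s, false⟩
noncomputable def dB1q0 : CnW := ⟨cd1q0, kc1q0_s⟩
noncomputable def gB1q1 : Gn := ⟨ndB1q1, cv1m_s, kf1q1_s, l1q1_s, false⟩
noncomputable def dB1q1 : CnW := ⟨cd1q1, kc1q1_s⟩
noncomputable def gB1q2 : Gn := ⟨ndB1q2, cv1p_s, kf1q2_s, l1q2_s, false⟩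
noncomputable def dB1q2 : CnW := ⟨cd1q2, kc1q2_s⟩
noncomputable def gB1q3 : Gn := ⟨ndB1q3, cv1r_s, kf1q3_s, l1q3_s, false⟩
noncomputable def dB1q3 : CnW := ⟨cd1q3, kc1q3_s⟩
noncomputable def gB2q0 : Gn := ⟨ndB2q0, cv2m_s, kf2q0_s, l2q0_s, false⟩
noncomputable def dB2q0 : CnW := ⟨cd2q0, kc2q0_s⟩
noncomputable def gB2q1 : Gn := ⟨ndB2q1, cv2m_s, kf2q1_s, l2q1_s, false⟩
noncomputable def dB2q1 : CnW := ⟨cd2q1, kc2q1_s⟩
noncomputable def gB2q2 : Gn := ⟨ndB2q2, cv2p_s, kf2q2_s, l2q2_s, false⟩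
noncomputable def dB2q2 : CnW := ⟨cd2q2, kc2q2_s⟩
noncomputable def gB2q3 : Gn := ⟨ndB2q3, cv2r_s, kf2q3_s, l2q3_s, false⟩
noncomputable def dB2q3 : CnW := ⟨cd2q3, kc2q3_s⟩
noncomputable def gB3q0 : Gn := ⟨ndB3q0, cv3m_s, kf3q0_s, l3q0_s, false⟩
noncomputable def dB3q0 : CnW := ⟨cd3q0, kc3q0_s⟩
noncomputable def gB3q1 : Gn := ⟨ndB3q1, cv3m_s, kf3q1_s, l3q1_s, false⟩
noncomputable def dB3q1 : CnW := ⟨cd3q1, kc3q1_s⟩
noncomputable def gB3q2 : Gn := ⟨ndB3q2, cv3p_s, kf3q2_s, l3q2_s, false⟩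
noncomputable def dB3q2 : CnW := ⟨cd3q2, kc3q2_s⟩
noncomputable def gB3q3 : Gn := ⟨ndB3q3, cv3r_s, kf3q3_s, l3q3_s, false⟩
noncomputable def dB3q3 : CnW := ⟨cd3q3, kc3q3_s⟩
noncomputable def gB4q0 : Gn := ⟨ndB4q0, cv4m_s, kf4q0_s, l4q0_s, false⟩
noncomputable def dB4q0 : CnW := ⟨cd4q0, kc4q0_s⟩
noncomputable def gB4q1 : Gn := ⟨ndB4q1, cv4m_s, kf4q1_s, l4q1_s, false⟩
noncomputable def dB4q1 : CnW := ⟨cd4q1, kc4q1_s⟩
noncomputable def gB4q2 : Gn := ⟨ndB4q2, cv4p_s, kf4q2_s, l4q2_s, false⟩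
noncomputable def dB4q2 : CnW := ⟨cd4q2, kc4q2_s⟩
noncomputable def gB4q3 : Gn := ⟨ndB4q3, xc43_s, kfc43_s, lc43_s, false⟩
noncomputable def dB4q3 : CnW := ⟨cd4q3, kcc43_s⟩
noncomputable def gB5q0 : Gn := ⟨ndB5q0, cv5m_s, kf5q0_s, l5q0_s, false⟩
noncomputable def dB5q0 : CnW := ⟨cd5q0, kc5q0_s⟩
noncomputable def gB5q1 : Gn := ⟨ndB5q1, cv5m_s, kf5q1_s, l5q1_s, false⟩
noncomputable def dB5q1 : CnW := ⟨cd5q1, kc5q1_s⟩
noncomputable def gB5q2 : Gn := ⟨ndB5q2, cv5p_s, kf5q2_s, l5q2_s, false⟩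
noncomputable def dB5q2 : CnW := ⟨cd5q2, kc5q2_s⟩
noncomputable def gB5q3 : Gn := ⟨ndB5q3, xc53_s, kfc53_s, lc53_s, false⟩
noncomputable def dB5q3 : CnW := ⟨cd5q3, kcc53_s⟩
noncomputable def gB6q0 : Gn := ⟨ndB6q0, c3g_s, kf6q0_s, l6q0_s, false⟩
noncomputable def dB6q0 : CnW := ⟨cd6q0, kc6q0_s⟩
noncomputable def gB6q1 : Gn := ⟨ndB6q1, c3g_s, kf6q1_s, l6q1_s, false⟩
noncomputable def dB6q1 : CnW := ⟨cd6q1, kc6q1_s⟩
noncomputable def gB6q2 : Gn := ⟨ndB6q2, c3g_s, kf6q2_s, l6q2_s, false⟩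
noncomputable def dB6q2 : CnW := ⟨cd6q2, kc6q2_s⟩
noncomputable def gB6q3 : Gn := ⟨ndB6q3, idf_s, kfc63_s, lc63_s, false⟩
noncomputable def dB6q3 : CnW := ⟨cd6q3, kcc63_s⟩
noncomputable def gB0q3 : Gn := gz
noncomputable def dB0q3 : CnW := ⟨fz2, fz2_s⟩
noncomputable def gB (j : Fin 7) (q : ℕ) : Gn :=
  match j, q with
  | 0, 0 => gB0q0
  | 0, 1 => gB0q1
  | 0, 2 => gB0q2
  | 0, 3 => gB0q3
  | 1, 0 => gB1q0
  | 1, 1 => gB1q1
  | 1, 2 => gB1q2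
  | 1, 3 => gB1q3
  | 2, 0 => gB2q0
  | 2, 1 => gB2q1
  | 2, 2 => gB2q2
  | 2, 3 => gB2q3
  | 3, 0 => gB3q0
  | 3, 1 => gB3q1
  | 3, 2 => gB3q2
  | 3, 3 => gB3q3
  | 4, 0 => gB4q0
  | 4, 1 => gB4q1
  | 4, 2 => gB4q2
  | 4, 3 => gB4q3
  | 5, 0 => gB5q0
  | 5, 1 => gB5q1
  | 5, 2 => gB5q2
  | 5, 3 => gB5q3
  | 6, 0 => gB6q0
  | 6, 1 => gB6q1
  | 6, 2 => gB6q2
  | 6, 3 => gB6q3
  | _, _ => gB0q0

noncomputable def dB (j : Fin 7) (q : ℕ) : CnW :=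
  match j, q with
  | 0, 0 => dB0q0
  | 0, 1 => dB0q1
  | 0, 2 => dB0q2
  | 0, 3 => dB0q3
  | 1, 0 => dB1q0
  | 1, 1 => dB1q1
  | 1, 2 => dB1q2
  | 1, 3 => dB1q3
  | 2, 0 => dB2q0
  | 2, 1 => dB2q1
  | 2, 2 => dB2q2
  | 2, 3 => dB2q3
  | 3, 0 => dB3q0
  | 3, 1 => dB3q1
  | 3, 2 => dB3q2
  | 3, 3 => dB3q3
  | 4, 0 => dB4q0
  | 4, 1 => dB4q1
  | 4, 2 => dB4q2
  | 4, 3 => dB4q3
  | 5, 0 => dB5q0
  | 5, 1 => dB5q1
  | 5, 2 => dB5q2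
  | 5, 3 => dB5q3
  | 6, 0 => dB6q0
  | 6, 1 => dB6q1
  | 6, 2 => dB6q2
  | 6, 3 => dB6q3
  | _, _ => dB0q0

noncomputable def c0B : Fn1 := ⟨fun _ => pone, fun _ => 1, fun _ => enc_one _⟩

end Pool.Agent.Strip051.G.I5000_5470.Tab
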