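import Pool.Agent.Strip051.PB.MolRw
import Pool.Agent.Strip051.G.I5000_5470.Tab

/-! # The tight charts of a table: data (generated) -/

set_option linter.all false

namespace Pool.Agent.Strip051.G.I5000_5470.Tab.Mo

open Pool.Agent.Strip051.PB Pool.Agent.Strip051.PB.Mol
open Pool.Agent.Strip051.G.I5000_5470.Tab

noncomputable def dq : Fn3 :=
  dqK2 (dqQ (lnF false 34528611 20000000 true 19999973 2000000 1047 2000) (lnF false 10212721 1000000 true 9999987 100000 1047 2000)) (lnF false 3 20000000 true 1 2000000 1047 2000) (lnF true 10212721 1000000 false 9999987 100000 1047 2000) true 1 20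

noncomputable def mL : Fn2 :=
  exQ (exC (lnF false 653851 4687500 false 1307551 1250000 1047 2000)) (lnF false 12977 1000000 true 335909 50000 1047 2000) false

noncomputable def mR : Fn2 :=
  exQ (exC (lnF true 7708939 37500000 true 20075581 7500000 1047 2000)) (lnF true 589741 1000000 false 237767 25000 1047 2000) true

noncomputable def kp : Fn2 :=
  plA (cnF false 0 1) (lnF true 237 3125 true 4417 10000 1047 2000) false 1 2

noncomputable def kb : Fn2 :=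
  plA (cnF false 0 1) (lnF false 499091 90000 false 21909 500 1047 2000) false 1 2

noncomputable def eK1 : Fn2 :=
  exH (exC (lnF true 25323 50000 false 3217 5000 1047 2000)) (lnF false 1393 10000 false 6383 5000 1047 2000) true 1 20

noncomputable def rK1 : Fn2 :=
  ad2 (exC (cnF true 3525793 5000000)) (rwC eK1)

noncomputable def eX1 : Fn2 :=
  exH (exC (lnF false 121062585759 926786500000 false 6659660153 2388625000 1047 2000)) (lnF false 225555565241 926786500000 true 1772533403 2388625000 1047 2000) true 1 20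

noncomputable def rX1 : Fn2 :=
  rwC eX1

noncomputable def eD1 : Fn2 :=
  exC (lnF true 614541 125000 false 180421 6250 1047 2000)

noncomputable def rD1 : Fn2 :=
  tmF (rwC eD1) 0

noncomputable def sk1 : MolS :=
  stK 22 3 25 rK1 rX1 rD1

noncomputable def eK2 : Fn2 :=
  exH (exC (lnF false 5717 25000 false 11839 5000 1047 2000)) (lnF false 849 6250 true 376 625 1047 2000) true 1 20

noncomputable def rK2 : Fn2 :=
  rwC eK2

noncomputable def eX2 : Fn2 :=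
  exH (exC (lnF false 243 2500 false 6109 5000 1047 2000)) (lnF false 2149 25000 false 19 1250 1047 2000) true 1 20

noncomputable def rX2 : Fn2 :=
  rwC eX2

noncomputable def eD2 : Fn2 :=
  exC (lnF true 1453531 250000 false 753131 25000 1047 2000)

noncomputable def rD2 : Fn2 :=
  tmF (rwC eD2) 0

noncomputable def sk2 : MolS :=
  stK 3 2 5 rK2 rX2 rD2

noncomputable def eK3 : Fn2 :=
  exH (exC (lnF false 14697 50000 false 24549 5000 1047 2000)) (lnF false 449 2500 true 15749 5000 1047 2000) true 1 20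

noncomputable def rK3 : Fn2 :=
  rwC eK3

noncomputable def eX3 : Fn2 :=
  exH (exC (lnF false 867 50000 false 7607 5000 1047 2000)) (lnF true 63 10000 true 3777 5000 1047 2000) true 1 20

noncomputable def rX3 : Fn2 :=
  rwC eX3

noncomputable def eD3 : Fn2 :=
  exC (lnF true 540441 250000 false 735733 25000 1047 2000)

noncomputable def rD3 : Fn2 :=
  tmF (rwC eD3) 0

noncomputable def sk3 : MolS :=
  stK 1 4 5 rK3 rX3 rD3

noncomputable def sp : MolS :=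
  stP kcg mL mR kp

noncomputable def sm : MolS :=
  stM kcg mR kb

noncomputable def sK_Apl : Fn3 :=
  sl0 (slF (w3W false) cv3p (w3K false 1 kcg) kf3q2)

noncomputable def sX_Apl : Fn3 :=
  sl0 (slF (w3W false) cv3p (w3Q false kcg) l3q2)

noncomputable def sD_Apl : Fn3 :=
  sl0 (slF (w3W false) cv3p (w3D false 1 kcg) (tmF kc3q2 1))

noncomputable def T_Apl : MolT :=
  ⟨kcg, dq, sp, 2, sK_Apl, sX_Apl, sD_Apl, 7, 3, 1741, 1000⟩

noncomputable def sk_Apl : List Fn3 := [skP true 20971520, skM true 20971520, skQA false]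

noncomputable def cx_Apl : List Fn3 :=
  [f3A sp.xs (tCC (w3W false) cv3p),
    f3A sp.xs (tCC cv4p (w3W false)),
    f3A sp.xs (tCX cv4p)]

noncomputable def c0_Apl : Cht := k0Ap (T_Apl.a true) sk_Apl cx_Apl

noncomputable def c2_Apl : Cht := k2Ap (T_Apl.a true) sk_Apl cx_Apl

noncomputable def sK_Aph : Fn3 :=
  sl0 (slF (w3W false) cv3r (w3K false 2 kcg) kf3q3)

noncomputable def sX_Aph : Fn3 :=
  sl0 (slF (w3W false) cv3r (w3Q false kcg) l3q3)

noncomputable def sD_Aph : Fn3 :=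
  sl0 (slF (w3W false) cv3r (w3D false 2 kcg) (tmF kc3q3 2))

noncomputable def T_Aph : MolT :=
  ⟨kcg, dq, sp, 3, sK_Aph, sX_Aph, sD_Aph, 7, 3, 1741, 1000⟩

noncomputable def sk_Aph : List Fn3 := [skP true 20971520, skM true 20971520, skQA true]

noncomputable def cx_Aph : List Fn3 :=
  [f3A sp.xs (tCC (w3W false) cv3r),
    f3A sp.xs (tCC cv4r (w3W false)),
    f3A sp.xs (tCX cv4r)]

noncomputable def c0_Aph : Cht := k0Ap (T_Aph.a true) sk_Aph cx_Aph

noncomputable def c2_Aph : Cht := k2Ap (T_Aph.a true) sk_Aph cx_Aph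

noncomputable def sK_Aplk1 : Fn3 :=
  sl0 (slF (w3W false) cv3p (w3K false 1 kcg) kf3q2)

noncomputable def sX_Aplk1 : Fn3 :=
  sl0 (slF (w3W false) cv3p (w3Q false kcg) l3q2)

noncomputable def sD_Aplk1 : Fn3 :=
  sl0 (slF (w3W false) cv3p (w3D false 1 kcg) (tmF kc3q2 1))

noncomputable def T_Aplk1 : MolT :=
  ⟨kcg, dq, sk1, 2, sK_Aplk1, sX_Aplk1, sD_Aplk1, 7, 3, 1741, 1000⟩

noncomputable def sk_Aplk1 : List Fn3 := [skP true 20971520, skM true 20971520, skQA false]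

noncomputable def cx_Aplk1 : List Fn3 :=
  [f3A sk1.xs (tCC (w3W false) cv3p),
    f3A sk1.xs (tCC cv4p (w3W false)),
    f3A sk1.xs (tCX cv4p)]

noncomputable def c0_Aplk1 : Cht := k0Ap (T_Aplk1.a true) sk_Aplk1 cx_Aplk1

noncomputable def c2_Aplk1 : Cht := k2Ap (T_Aplk1.a true) sk_Aplk1 cx_Aplk1

noncomputable def sK_Aphk1 : Fn3 :=
  sl0 (slF (w3W false) cv3r (w3K false 2 kcg) kf3q3)

noncomputable def sX_Aphk1 : Fn3 :=
  sl0 (slF (w3W false) cv3r (w3Q false kcg) l3q3)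

noncomputable def sD_Aphk1 : Fn3 :=
  sl0 (slF (w3W false) cv3r (w3D false 2 kcg) (tmF kc3q3 2))

noncomputable def T_Aphk1 : MolT :=
  ⟨kcg, dq, sk1, 3, sK_Aphk1, sX_Aphk1, sD_Aphk1, 7, 3, 1741, 1000⟩

noncomputable def sk_Aphk1 : List Fn3 := [skP true 20971520, skM true 20971520, skQA true]

noncomputable def cx_Aphk1 : List Fn3 :=
  [f3A sk1.xs (tCC (w3W false) cv3r),
    f3A sk1.xs (tCC cv4r (w3W false)),
    f3A sk1.xs (tCX cv4r)]

noncomputable def c0_Aphk1 : Cht := k0Ap (T_Aphk1.a true) sk_Aphk1 cx_Aphk1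

noncomputable def c2_Aphk1 : Cht := k2Ap (T_Aphk1.a true) sk_Aphk1 cx_Aphk1

noncomputable def sK_Aplk2 : Fn3 :=
  sl0 (slF (w3W false) cv3p (w3K false 1 kcg) kf3q2)

noncomputable def sX_Aplk2 : Fn3 :=
  sl0 (slF (w3W false) cv3p (w3Q false kcg) l3q2)

noncomputable def sD_Aplk2 : Fn3 :=
  sl0 (slF (w3W false) cv3p (w3D false 1 kcg) (tmF kc3q2 1))

noncomputable def T_Aplk2 : MolT :=
  ⟨kcg, dq, sk2, 2, sK_Aplk2, sX_Aplk2, sD_Aplk2, 7, 3, 1741, 1000⟩

noncomputable def sk_Aplk2 : List Fn3 := [skP true 20971520, skM true 20971520, skQA false]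

noncomputable def cx_Aplk2 : List Fn3 :=
  [f3A sk2.xs (tCC (w3W false) cv3p),
    f3A sk2.xs (tCC cv4p (w3W false)),
    f3A sk2.xs (tCX cv4p)]

noncomputable def c0_Aplk2 : Cht := k0Ap (T_Aplk2.a true) sk_Aplk2 cx_Aplk2

noncomputable def c2_Aplk2 : Cht := k2Ap (T_Aplk2.a true) sk_Aplk2 cx_Aplk2

noncomputable def sK_Aphk2 : Fn3 :=
  sl0 (slF (w3W false) cv3r (w3K false 2 kcg) kf3q3)

noncomputable def sX_Aphk2 : Fn3 :=
  sl0 (slF (w3W false) cv3r (w3Q false kcg) l3q3)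

noncomputable def sD_Aphk2 : Fn3 :=
  sl0 (slF (w3W false) cv3r (w3D false 2 kcg) (tmF kc3q3 2))

noncomputable def T_Aphk2 : MolT :=
  ⟨kcg, dq, sk2, 3, sK_Aphk2, sX_Aphk2, sD_Aphk2, 7, 3, 1741, 1000⟩

noncomputable def sk_Aphk2 : List Fn3 := [skP true 20971520, skM true 20971520, skQA true]

noncomputable def cx_Aphk2 : List Fn3 :=
  [f3A sk2.xs (tCC (w3W false) cv3r),
    f3A sk2.xs (tCC cv4r (w3W false)),
    f3A sk2.xs (tCX cv4r)]

noncomputable def c0_Aphk2 : Cht := k0Ap (T_Aphk2.a true) sk_Aphk2 cx_Aphk2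

noncomputable def c2_Aphk2 : Cht := k2Ap (T_Aphk2.a true) sk_Aphk2 cx_Aphk2

noncomputable def sK_Aplk3 : Fn3 :=
  sl0 (slF (w3W false) cv3p (w3K false 1 kcg) kf3q2)

noncomputable def sX_Aplk3 : Fn3 :=
  sl0 (slF (w3W false) cv3p (w3Q false kcg) l3q2)

noncomputable def sD_Aplk3 : Fn3 :=
  sl0 (slF (w3W false) cv3p (w3D false 1 kcg) (tmF kc3q2 1))

noncomputable def T_Aplk3 : MolT :=
  ⟨kcg, dq, sk3, 2, sK_Aplk3, sX_Aplk3, sD_Aplk3, 7, 3, 1741, 1000⟩

noncomputable def sk_Aplk3 : List Fn3 := [skP true 20971520, skM true 20971520, skQA false]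

noncomputable def cx_Aplk3 : List Fn3 :=
  [f3A sk3.xs (tCC (w3W false) cv3p),
    f3A sk3.xs (tCC cv4p (w3W false)),
    f3A sk3.xs (tCX cv4p)]

noncomputable def c0_Aplk3 : Cht := k0Ap (T_Aplk3.a true) sk_Aplk3 cx_Aplk3

noncomputable def c2_Aplk3 : Cht := k2Ap (T_Aplk3.a true) sk_Aplk3 cx_Aplk3

noncomputable def sK_Aphk3 : Fn3 :=
  sl0 (slF (w3W false) cv3r (w3K false 2 kcg) kf3q3)

noncomputable def sX_Aphk3 : Fn3 :=
  sl0 (slF (w3W false) cv3r (w3Q false kcg) l3q3)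

noncomputable def sD_Aphk3 : Fn3 :=
  sl0 (slF (w3W false) cv3r (w3D false 2 kcg) (tmF kc3q3 2))

noncomputable def T_Aphk3 : MolT :=
  ⟨kcg, dq, sk3, 3, sK_Aphk3, sX_Aphk3, sD_Aphk3, 7, 3, 1741, 1000⟩

noncomputable def sk_Aphk3 : List Fn3 := [skP true 20971520, skM true 20971520, skQA true]

noncomputable def cx_Aphk3 : List Fn3 :=
  [f3A sk3.xs (tCC (w3W false) cv3r),
    f3A sk3.xs (tCC cv4r (w3W false)),
    f3A sk3.xs (tCX cv4r)]

noncomputable def c0_Aphk3 : Cht := k0Ap (T_Aphk3.a true) sk_Aphk3 cx_Aphk3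

noncomputable def c2_Aphk3 : Cht := k2Ap (T_Aphk3.a true) sk_Aphk3 cx_Aphk3

noncomputable def sK_Aml : Fn3 :=
  sl0 (slF (w3W false) cv3p (w3K false 1 kcg) kf3q2)

noncomputable def sX_Aml : Fn3 :=
  sl0 (slF (w3W false) cv3p (w3Q false kcg) l3q2)

noncomputable def sD_Aml : Fn3 :=
  sl0 (slF (w3W false) cv3p (w3D false 1 kcg) (tmF kc3q2 1))

noncomputable def T_Aml : MolT :=
  ⟨kcg, dq, sm, 2, sK_Aml, sX_Aml, sD_Aml, 7, 3, 1741, 1000⟩

noncomputable def sk_Aml : List Fn3 := [skP true 20971520, skM true 20971520, skQA false]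

noncomputable def cx_Aml : List Fn3 :=
  [f3A sm.xs (tCC (w3W false) cv3p),
    f3A sm.xs (tCC cv4p (w3W false)),
    f3A sm.xs (tXC cv3p)]

noncomputable def c0_Aml : Cht := k0Am (T_Aml.a false) sk_Aml cx_Aml

noncomputable def c2_Aml : Cht := k2Am (T_Aml.a false) sk_Aml cx_Aml

noncomputable def sK_Amh : Fn3 :=
  sl0 (slF (w3W false) cv3r (w3K false 2 kcg) kf3q3)

noncomputable def sX_Amh : Fn3 :=
  sl0 (slF (w3W false) cv3r (w3Q false kcg) l3q3)

noncomputable def sD_Amh : Fn3 :=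
  sl0 (slF (w3W false) cv3r (w3D false 2 kcg) (tmF kc3q3 2))

noncomputable def T_Amh : MolT :=
  ⟨kcg, dq, sm, 3, sK_Amh, sX_Amh, sD_Amh, 7, 3, 1741, 1000⟩

noncomputable def sk_Amh : List Fn3 := [skP true 20971520, skM true 20971520, skQA true]

noncomputable def cx_Amh : List Fn3 :=
  [f3A sm.xs (tCC (w3W false) cv3r),
    f3A sm.xs (tCC cv4r (w3W false)),
    f3A sm.xs (tXC cv3r)]

noncomputable def c0_Amh : Cht := k0Am (T_Amh.a false) sk_Amh cx_Amh

noncomputable def c2_Amh : Cht := k2Am (T_Amh.a false) sk_Amh cx_Amh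

noncomputable def sK_Bpl : Fn3 :=
  sl0 (slF (w3W true) cv3m (w3K true 1 kcg) kf3q1)

noncomputable def sX_Bpl : Fn3 :=
  sl0 (slF (w3W true) cv3m (w3Q true kcg) l3q1)

noncomputable def sD_Bpl : Fn3 :=
  sl0 (slF (w3W true) cv3m (w3D true 1 kcg) (tmF kc3q1 1))

noncomputable def T_Bpl : MolT :=
  ⟨kcg, dq, sp, 1, sK_Bpl, sX_Bpl, sD_Bpl, 7, 3, 1741, 1000⟩

noncomputable def sk_Bpl : List Fn3 := [skP false 20971520, skM false 20971520, skQB false]

noncomputable def cx_Bpl : List Fn3 :=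
  [f3B sp.xs (tCC (w3W true) cv3m),
    f3B sp.xs (tCC cv4m (w3W true)),
    f3B sp.xs (tXC cv3m)]

noncomputable def c0_Bpl : Cht := k0Bp (T_Bpl.b true) sk_Bpl cx_Bpl

noncomputable def c2_Bpl : Cht := k2Bp (T_Bpl.b true) sk_Bpl cx_Bpl

noncomputable def sK_Bph : Fn3 :=
  sl0 (slF (w3W true) cv3m (w3K true 0 kcg) kf3q0)

noncomputable def sX_Bph : Fn3 :=
  sl0 (slF (w3W true) cv3m (w3Q true kcg) l3q0)

noncomputable def sD_Bph : Fn3 :=
  sl0 (slF (w3W true) cv3m (w3D true 0 kcg) (tmF kc3q0 0))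

noncomputable def T_Bph : MolT :=
  ⟨kcg, dq, sp, 0, sK_Bph, sX_Bph, sD_Bph, 7, 3, 1741, 1000⟩

noncomputable def sk_Bph : List Fn3 := [skP false 20971520, skM false 20971520, skQB true]

noncomputable def cx_Bph : List Fn3 :=
  [f3B sp.xs (tCC (w3W true) cv3m),
    f3B sp.xs (tCC cv4m (w3W true)),
    f3B sp.xs (tXC cv3m)]

noncomputable def c0_Bph : Cht := k0Bp (T_Bph.b true) sk_Bph cx_Bph

noncomputable def c2_Bph : Cht := k2Bp (T_Bph.b true) sk_Bph cx_Bph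

noncomputable def sK_Bplk1 : Fn3 :=
  sl0 (slF (w3W true) cv3m (w3K true 1 kcg) kf3q1)

noncomputable def sX_Bplk1 : Fn3 :=
  sl0 (slF (w3W true) cv3m (w3Q true kcg) l3q1)

noncomputable def sD_Bplk1 : Fn3 :=
  sl0 (slF (w3W true) cv3m (w3D true 1 kcg) (tmF kc3q1 1))

noncomputable def T_Bplk1 : MolT :=
  ⟨kcg, dq, sk1, 1, sK_Bplk1, sX_Bplk1, sD_Bplk1, 7, 3, 1741, 1000⟩

noncomputable def sk_Bplk1 : List Fn3 := [skP false 20971520, skM false 20971520, skQB false]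

noncomputable def cx_Bplk1 : List Fn3 :=
  [f3B sk1.xs (tCC (w3W true) cv3m),
    f3B sk1.xs (tCC cv4m (w3W true)),
    f3B sk1.xs (tXC cv3m)]

noncomputable def c0_Bplk1 : Cht := k0Bp (T_Bplk1.b true) sk_Bplk1 cx_Bplk1

noncomputable def c2_Bplk1 : Cht := k2Bp (T_Bplk1.b true) sk_Bplk1 cx_Bplk1

noncomputable def sK_Bphk1 : Fn3 :=
  sl0 (slF (w3W true) cv3m (w3K true 0 kcg) kf3q0)

noncomputable def sX_Bphk1 : Fn3 :=
  sl0 (slF (w3W true) cv3m (w3Q true kcg) l3q0)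

noncomputable def sD_Bphk1 : Fn3 :=
  sl0 (slF (w3W true) cv3m (w3D true 0 kcg) (tmF kc3q0 0))

noncomputable def T_Bphk1 : MolT :=
  ⟨kcg, dq, sk1, 0, sK_Bphk1, sX_Bphk1, sD_Bphk1, 7, 3, 1741, 1000⟩

noncomputable def sk_Bphk1 : List Fn3 := [skP false 20971520, skM false 20971520, skQB true]

noncomputable def cx_Bphk1 : List Fn3 :=
  [f3B sk1.xs (tCC (w3W true) cv3m),
    f3B sk1.xs (tCC cv4m (w3W true)),
    f3B sk1.xs (tXC cv3m)]

noncomputable def c0_Bphk1 : Cht := k0Bp (T_Bphk1.b true) sk_Bphk1 cx_Bphk1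

noncomputable def c2_Bphk1 : Cht := k2Bp (T_Bphk1.b true) sk_Bphk1 cx_Bphk1

noncomputable def sK_Bplk2 : Fn3 :=
  sl0 (slF (w3W true) cv3m (w3K true 1 kcg) kf3q1)

noncomputable def sX_Bplk2 : Fn3 :=
  sl0 (slF (w3W true) cv3m (w3Q true kcg) l3q1)

noncomputable def sD_Bplk2 : Fn3 :=
  sl0 (slF (w3W true) cv3m (w3D true 1 kcg) (tmF kc3q1 1))

noncomputable def T_Bplk2 : MolT :=
  ⟨kcg, dq, sk2, 1, sK_Bplk2, sX_Bplk2, sD_Bplk2, 7, 3, 1741, 1000⟩

noncomputable def sk_Bplk2 : List Fn3 := [skP false 20971520, skM false 20971520, skQB false]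

noncomputable def cx_Bplk2 : List Fn3 :=
  [f3B sk2.xs (tCC (w3W true) cv3m),
    f3B sk2.xs (tCC cv4m (w3W true)),
    f3B sk2.xs (tXC cv3m)]

noncomputable def c0_Bplk2 : Cht := k0Bp (T_Bplk2.b true) sk_Bplk2 cx_Bplk2

noncomputable def c2_Bplk2 : Cht := k2Bp (T_Bplk2.b true) sk_Bplk2 cx_Bplk2

noncomputable def sK_Bphk2 : Fn3 :=
  sl0 (slF (w3W true) cv3m (w3K true 0 kcg) kf3q0)

noncomputable def sX_Bphk2 : Fn3 :=
  sl0 (slF (w3W true) cv3m (w3Q true kcg) l3q0)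

noncomputable def sD_Bphk2 : Fn3 :=
  sl0 (slF (w3W true) cv3m (w3D true 0 kcg) (tmF kc3q0 0))

noncomputable def T_Bphk2 : MolT :=
  ⟨kcg, dq, sk2, 0, sK_Bphk2, sX_Bphk2, sD_Bphk2, 7, 3, 1741, 1000⟩

noncomputable def sk_Bphk2 : List Fn3 := [skP false 20971520, skM false 20971520, skQB true]

noncomputable def cx_Bphk2 : List Fn3 :=
  [f3B sk2.xs (tCC (w3W true) cv3m),
    f3B sk2.xs (tCC cv4m (w3W true)),
    f3B sk2.xs (tXC cv3m)]

noncomputable def c0_Bphk2 : Cht := k0Bp (T_Bphk2.b true) sk_Bphk2 cx_Bphk2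

noncomputable def c2_Bphk2 : Cht := k2Bp (T_Bphk2.b true) sk_Bphk2 cx_Bphk2

noncomputable def sK_Bplk3 : Fn3 :=
  sl0 (slF (w3W true) cv3m (w3K true 1 kcg) kf3q1)

noncomputable def sX_Bplk3 : Fn3 :=
  sl0 (slF (w3W true) cv3m (w3Q true kcg) l3q1)

noncomputable def sD_Bplk3 : Fn3 :=
  sl0 (slF (w3W true) cv3m (w3D true 1 kcg) (tmF kc3q1 1))

noncomputable def T_Bplk3 : MolT :=
  ⟨kcg, dq, sk3, 1, sK_Bplk3, sX_Bplk3, sD_Bplk3, 7, 3, 1741, 1000⟩

noncomputable def sk_Bplk3 : List Fn3 := [skP false 20971520, skM false 20971520, skQB false]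

noncomputable def cx_Bplk3 : List Fn3 :=
  [f3B sk3.xs (tCC (w3W true) cv3m),
    f3B sk3.xs (tCC cv4m (w3W true)),
    f3B sk3.xs (tXC cv3m)]

noncomputable def c0_Bplk3 : Cht := k0Bp (T_Bplk3.b true) sk_Bplk3 cx_Bplk3

noncomputable def c2_Bplk3 : Cht := k2Bp (T_Bplk3.b true) sk_Bplk3 cx_Bplk3

noncomputable def sK_Bphk3 : Fn3 :=
  sl0 (slF (w3W true) cv3m (w3K true 0 kcg) kf3q0)

noncomputable def sX_Bphk3 : Fn3 :=
  sl0 (slF (w3W true) cv3m (w3Q true kcg) l3q0)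

noncomputable def sD_Bphk3 : Fn3 :=
  sl0 (slF (w3W true) cv3m (w3D true 0 kcg) (tmF kc3q0 0))

noncomputable def T_Bphk3 : MolT :=
  ⟨kcg, dq, sk3, 0, sK_Bphk3, sX_Bphk3, sD_Bphk3, 7, 3, 1741, 1000⟩

noncomputable def sk_Bphk3 : List Fn3 := [skP false 20971520, skM false 20971520, skQB true]

noncomputable def cx_Bphk3 : List Fn3 :=
  [f3B sk3.xs (tCC (w3W true) cv3m),
    f3B sk3.xs (tCC cv4m (w3W true)),
    f3B sk3.xs (tXC cv3m)]

noncomputable def c0_Bphk3 : Cht := k0Bp (T_Bphk3.b true) sk_Bphk3 cx_Bphk3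

noncomputable def c2_Bphk3 : Cht := k2Bp (T_Bphk3.b true) sk_Bphk3 cx_Bphk3

noncomputable def sK_Bml : Fn3 :=
  sl0 (slF (w3W true) cv3m (w3K true 1 kcg) kf3q1)

noncomputable def sX_Bml : Fn3 :=
  sl0 (slF (w3W true) cv3m (w3Q true kcg) l3q1)

noncomputable def sD_Bml : Fn3 :=
  sl0 (slF (w3W true) cv3m (w3D true 1 kcg) (tmF kc3q1 1))

noncomputable def T_Bml : MolT :=
  ⟨kcg, dq, sm, 1, sK_Bml, sX_Bml, sD_Bml, 7, 3, 1741, 1000⟩

noncomputable def sk_Bml : List Fn3 := [skP false 20971520, skM false 20971520, skQB false]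

noncomputable def cx_Bml : List Fn3 :=
  [f3B sm.xs (tCC (w3W true) cv3m),
    f3B sm.xs (tCC cv4m (w3W true)),
    f3B sm.xs (tCX cv4m)]

noncomputable def c0_Bml : Cht := k0Bm (T_Bml.b false) sk_Bml cx_Bml

noncomputable def c2_Bml : Cht := k2Bm (T_Bml.b false) sk_Bml cx_Bml

noncomputable def sK_Bmh : Fn3 :=
  sl0 (slF (w3W true) cv3m (w3K true 0 kcg) kf3q0)

noncomputable def sX_Bmh : Fn3 :=
  sl0 (slF (w3W true) cv3m (w3Q true kcg) l3q0)

noncomputable def sD_Bmh : Fn3 :=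
  sl0 (slF (w3W true) cv3m (w3D true 0 kcg) (tmF kc3q0 0))

noncomputable def T_Bmh : MolT :=
  ⟨kcg, dq, sm, 0, sK_Bmh, sX_Bmh, sD_Bmh, 7, 3, 1741, 1000⟩

noncomputable def sk_Bmh : List Fn3 := [skP false 20971520, skM false 20971520, skQB true]

noncomputable def cx_Bmh : List Fn3 :=
  [f3B sm.xs (tCC (w3W true) cv3m),
    f3B sm.xs (tCC cv4m (w3W true)),
    f3B sm.xs (tCX cv4m)]

noncomputable def c0_Bmh : Cht := k0Bm (T_Bmh.b false) sk_Bmh cx_Bmh

noncomputable def c2_Bmh : Cht := k2Bm (T_Bmh.b false) sk_Bmh cx_Bmh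

end Pool.Agent.Strip051.G.I5000_5470.Tab.Mo
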