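import Pool.Agent.Strip051.G.I5000_5470.St8
import Pool.Agent.Strip051.G.I5000_5470.St9
import Pool.Agent.Strip051.G.I5000_5470.St10
import Pool.Agent.Strip051.G.I5000_5470.St11
import Pool.Agent.Strip051.G.I5000_5470.StH
import Pool.Agent.Strip051.G.I5000_5470.StF

/-! # Unit strips 12 (generated) -/

set_option linter.all false
set_option maxRecDepth 100000

namespace Pool.Agent.Strip051.G.I5000_5470.Tab.St.C

open Pool.Agent.Strip051.PB Pool.Agent.Strip051.PB.T Pool.Agent.StripNear Pool.Agent.Strip051.LC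
open Pool.Agent.Strip051.G.I5000_5470.Tab Pool.Agent.Strip051.G.I5000_5470.Tab.St

theorem t388_A00pm_102_s1 : ∃ t, chk3 f_A00pm_102_s1 t 3 6 1 = true := ex3_a k385_A00pm_102_s1 k386_A00pm_102_s1

theorem t389_A00pm_102_s1 : ∃ t, chk3 f_A00pm_102_s1 t 3 3 1 = true := ex3_b t388_A00pm_102_s1 k387_A00pm_102_s1

theorem t390_A00pm_102_s1 : ∃ t, chk3 f_A00pm_102_s1 t 7 11 1 = true := ex3_a k383_A00pm_102_s1 k384_A00pm_102_s1

theorem t391_A00pm_102_s1 : ∃ t, chk3 f_A00pm_102_s1 t 7 21 1 = true := ex3_a k381_A00pm_102_s1 k382_A00pm_102_s1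

theorem t392_A00pm_102_s1 : ∃ t, chk3 f_A00pm_102_s1 t 15 670 1 = true := ex3_b k378_A00pm_102_s1 k379_A00pm_102_s1

theorem t393_A00pm_102_s1 : ∃ t, chk3 f_A00pm_102_s1 t 15 335 1 = true := ex3_b t392_A00pm_102_s1 k380_A00pm_102_s1

theorem t394_A00pm_102_s1 : ∃ t, chk3 f_A00pm_102_s1 t 15 167 1 = true := ex3_b k377_A00pm_102_s1 t393_A00pm_102_s1

theorem t395_A00pm_102_s1 : ∃ t, chk3 f_A00pm_102_s1 t 15 83 1 = true := ex3_b k376_A00pm_102_s1 t394_A00pm_102_s1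

theorem t396_A00pm_102_s1 : ∃ t, chk3 f_A00pm_102_s1 t 15 41 1 = true := ex3_b k375_A00pm_102_s1 t395_A00pm_102_s1

theorem t397_A00pm_102_s1 : ∃ t, chk3 f_A00pm_102_s1 t 29 670 1 = true := ex3_b k372_A00pm_102_s1 k373_A00pm_102_s1

theorem t398_A00pm_102_s1 : ∃ t, chk3 f_A00pm_102_s1 t 29 335 1 = true := ex3_b t397_A00pm_102_s1 k374_A00pm_102_s1

theorem t399_A00pm_102_s1 : ∃ t, chk3 f_A00pm_102_s1 t 29 167 1 = true := ex3_b k371_A00pm_102_s1 t398_A00pm_102_s1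

theorem t400_A00pm_102_s1 : ∃ t, chk3 f_A00pm_102_s1 t 14 167 1 = true := ex3_a k370_A00pm_102_s1 t399_A00pm_102_s1

theorem t401_A00pm_102_s1 : ∃ t, chk3 f_A00pm_102_s1 t 14 83 1 = true := ex3_b k369_A00pm_102_s1 t400_A00pm_102_s1

theorem t402_A00pm_102_s1 : ∃ t, chk3 f_A00pm_102_s1 t 28 82 1 = true := ex3_b k366_A00pm_102_s1 k367_A00pm_102_s1

theorem t403_A00pm_102_s1 : ∃ t, chk3 f_A00pm_102_s1 t 14 82 1 = true := ex3_a t402_A00pm_102_s1 k368_A00pm_102_s1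

theorem t404_A00pm_102_s1 : ∃ t, chk3 f_A00pm_102_s1 t 14 41 1 = true := ex3_b t403_A00pm_102_s1 t401_A00pm_102_s1

theorem t405_A00pm_102_s1 : ∃ t, chk3 f_A00pm_102_s1 t 7 41 1 = true := ex3_a t404_A00pm_102_s1 t396_A00pm_102_s1

theorem t406_A00pm_102_s1 : ∃ t, chk3 f_A00pm_102_s1 t 28 40 1 = true := ex3_b k362_A00pm_102_s1 k363_A00pm_102_s1

theorem t407_A00pm_102_s1 : ∃ t, chk3 f_A00pm_102_s1 t 14 40 1 = true := ex3_a t406_A00pm_102_s1 k364_A00pm_102_s1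

theorem t408_A00pm_102_s1 : ∃ t, chk3 f_A00pm_102_s1 t 7 40 1 = true := ex3_a t407_A00pm_102_s1 k365_A00pm_102_s1

theorem t409_A00pm_102_s1 : ∃ t, chk3 f_A00pm_102_s1 t 7 20 1 = true := ex3_b t408_A00pm_102_s1 t405_A00pm_102_s1

theorem t410_A00pm_102_s1 : ∃ t, chk3 f_A00pm_102_s1 t 7 10 1 = true := ex3_b t409_A00pm_102_s1 t391_A00pm_102_s1

theorem t411_A00pm_102_s1 : ∃ t, chk3 f_A00pm_102_s1 t 7 5 1 = true := ex3_b t410_A00pm_102_s1 t390_A00pm_102_s1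

theorem t412_A00pm_102_s1 : ∃ t, chk3 f_A00pm_102_s1 t 6 11 1 = true := ex3_a k360_A00pm_102_s1 k361_A00pm_102_s1

theorem t413_A00pm_102_s1 : ∃ t, chk3 f_A00pm_102_s1 t 13 21 1 = true := ex3_a k358_A00pm_102_s1 k359_A00pm_102_s1

theorem t414_A00pm_102_s1 : ∃ t, chk3 f_A00pm_102_s1 t 6 21 1 = true := ex3_a k357_A00pm_102_s1 t413_A00pm_102_s1

theorem t415_A00pm_102_s1 : ∃ t, chk3 f_A00pm_102_s1 t 13 5363 1 = true := ex3_b k353_A00pm_102_s1 k354_A00pm_102_s1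

theorem t416_A00pm_102_s1 : ∃ t, chk3 f_A00pm_102_s1 t 13 2681 1 = true := ex3_b k352_A00pm_102_s1 t415_A00pm_102_s1

theorem t417_A00pm_102_s1 : ∃ t, chk3 f_A00pm_102_s1 t 13 1340 1 = true := ex3_b k351_A00pm_102_s1 t416_A00pm_102_s1

theorem t418_A00pm_102_s1 : ∃ t, chk3 f_A00pm_102_s1 t 13 670 1 = true := ex3_b t417_A00pm_102_s1 k355_A00pm_102_s1

theorem t419_A00pm_102_s1 : ∃ t, chk3 f_A00pm_102_s1 t 13 335 1 = true := ex3_b t418_A00pm_102_s1 k356_A00pm_102_s1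

theorem t420_A00pm_102_s1 : ∃ t, chk3 f_A00pm_102_s1 t 13 167 1 = true := ex3_b k350_A00pm_102_s1 t419_A00pm_102_s1

theorem t421_A00pm_102_s1 : ∃ t, chk3 f_A00pm_102_s1 t 52 166 1 = true := ex3_b k346_A00pm_102_s1 k347_A00pm_102_s1

theorem t422_A00pm_102_s1 : ∃ t, chk3 f_A00pm_102_s1 t 26 166 1 = true := ex3_a t421_A00pm_102_s1 k348_A00pm_102_s1

theorem t423_A00pm_102_s1 : ∃ t, chk3 f_A00pm_102_s1 t 13 166 1 = true := ex3_a t422_A00pm_102_s1 k349_A00pm_102_s1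

theorem t424_A00pm_102_s1 : ∃ t, chk3 f_A00pm_102_s1 t 13 83 1 = true := ex3_b t423_A00pm_102_s1 t420_A00pm_102_s1

theorem t425_A00pm_102_s1 : ∃ t, chk3 f_A00pm_102_s1 t 25 167 3 = true := ex3_b k344_A00pm_102_s1 k345_A00pm_102_s1

theorem t426_A00pm_102_s1 : ∃ t, chk3 f_A00pm_102_s1 t 25 167 2 = true := ex3_b k342_A00pm_102_s1 k343_A00pm_102_s1

theorem t427_A00pm_102_s1 : ∃ t, chk3 f_A00pm_102_s1 t 25 167 1 = true := ex3_c t426_A00pm_102_s1 t425_A00pm_102_s1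

theorem t428_A00pm_102_s1 : ∃ t, chk3 f_A00pm_102_s1 t 24 2681 1 = true := ex3_b k338_A00pm_102_s1 k339_A00pm_102_s1

theorem t429_A00pm_102_s1 : ∃ t, chk3 f_A00pm_102_s1 t 24 1340 1 = true := ex3_b k337_A00pm_102_s1 t428_A00pm_102_s1

theorem t430_A00pm_102_s1 : ∃ t, chk3 f_A00pm_102_s1 t 24 670 1 = true := ex3_b t429_A00pm_102_s1 k340_A00pm_102_s1

theorem t431_A00pm_102_s1 : ∃ t, chk3 f_A00pm_102_s1 t 24 335 1 = true := ex3_b t430_A00pm_102_s1 k341_A00pm_102_s1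

theorem t432_A00pm_102_s1 : ∃ t, chk3 f_A00pm_102_s1 t 24 167 1 = true := ex3_b k336_A00pm_102_s1 t431_A00pm_102_s1

theorem t433_A00pm_102_s1 : ∃ t, chk3 f_A00pm_102_s1 t 12 167 1 = true := ex3_a t432_A00pm_102_s1 t427_A00pm_102_s1

theorem t434_A00pm_102_s1 : ∃ t, chk3 f_A00pm_102_s1 t 48 166 1 = true := ex3_b k332_A00pm_102_s1 k333_A00pm_102_s1

theorem t435_A00pm_102_s1 : ∃ t, chk3 f_A00pm_102_s1 t 24 166 1 = true := ex3_a t434_A00pm_102_s1 k334_A00pm_102_s1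

theorem t436_A00pm_102_s1 : ∃ t, chk3 f_A00pm_102_s1 t 12 166 1 = true := ex3_a t435_A00pm_102_s1 k335_A00pm_102_s1

theorem t437_A00pm_102_s1 : ∃ t, chk3 f_A00pm_102_s1 t 12 83 1 = true := ex3_b t436_A00pm_102_s1 t433_A00pm_102_s1

theorem t438_A00pm_102_s1 : ∃ t, chk3 f_A00pm_102_s1 t 6 83 1 = true := ex3_a t437_A00pm_102_s1 t424_A00pm_102_s1

theorem t439_A00pm_102_s1 : ∃ t, chk3 f_A00pm_102_s1 t 27 164 1 = true := ex3_a k329_A00pm_102_s1 k330_A00pm_102_s1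

theorem t440_A00pm_102_s1 : ∃ t, chk3 f_A00pm_102_s1 t 27 82 1 = true := ex3_b t439_A00pm_102_s1 k331_A00pm_102_s1

theorem t441_A00pm_102_s1 : ∃ t, chk3 f_A00pm_102_s1 t 53 165 1 = true := ex3_c k327_A00pm_102_s1 k328_A00pm_102_s1

theorem t442_A00pm_102_s1 : ∃ t, chk3 f_A00pm_102_s1 t 26 165 1 = true := ex3_a k326_A00pm_102_s1 t441_A00pm_102_s1

theorem t443_A00pm_102_s1 : ∃ t, chk3 f_A00pm_102_s1 t 26 82 1 = true := ex3_b k325_A00pm_102_s1 t442_A00pm_102_s1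

theorem t444_A00pm_102_s1 : ∃ t, chk3 f_A00pm_102_s1 t 13 82 1 = true := ex3_a t443_A00pm_102_s1 t440_A00pm_102_s1

theorem t445_A00pm_102_s1 : ∃ t, chk3 f_A00pm_102_s1 t 25 164 1 = true := ex3_b k322_A00pm_102_s1 k323_A00pm_102_s1

theorem t446_A00pm_102_s1 : ∃ t, chk3 f_A00pm_102_s1 t 25 82 1 = true := ex3_b t445_A00pm_102_s1 k324_A00pm_102_s1

theorem t447_A00pm_102_s1 : ∃ t, chk3 f_A00pm_102_s1 t 49 330 1 = true := ex3_b k319_A00pm_102_s1 k320_A00pm_102_s1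

theorem t448_A00pm_102_s1 : ∃ t, chk3 f_A00pm_102_s1 t 49 165 1 = true := ex3_b t447_A00pm_102_s1 k321_A00pm_102_s1

theorem t449_A00pm_102_s1 : ∃ t, chk3 f_A00pm_102_s1 t 48 331 1 = true := ex3_a k317_A00pm_102_s1 k318_A00pm_102_s1

theorem t450_A00pm_102_s1 : ∃ t, chk3 f_A00pm_102_s1 t 48 165 1 = true := ex3_b k316_A00pm_102_s1 t449_A00pm_102_s1

theorem t451_A00pm_102_s1 : ∃ t, chk3 f_A00pm_102_s1 t 24 165 1 = true := ex3_a t450_A00pm_102_s1 t448_A00pm_102_s1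

theorem t452_A00pm_102_s1 : ∃ t, chk3 f_A00pm_102_s1 t 48 164 3 = true := ex3_b k313_A00pm_102_s1 k314_A00pm_102_s1

theorem t453_A00pm_102_s1 : ∃ t, chk3 f_A00pm_102_s1 t 48 164 2 = true := ex3_b k311_A00pm_102_s1 k312_A00pm_102_s1

theorem t454_A00pm_102_s1 : ∃ t, chk3 f_A00pm_102_s1 t 48 164 1 = true := ex3_c t453_A00pm_102_s1 t452_A00pm_102_s1

theorem t455_A00pm_102_s1 : ∃ t, chk3 f_A00pm_102_s1 t 24 164 1 = true := ex3_a t454_A00pm_102_s1 k315_A00pm_102_s1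

theorem t456_A00pm_102_s1 : ∃ t, chk3 f_A00pm_102_s1 t 24 82 1 = true := ex3_b t455_A00pm_102_s1 t451_A00pm_102_s1

theorem t457_A00pm_102_s1 : ∃ t, chk3 f_A00pm_102_s1 t 12 82 1 = true := ex3_a t456_A00pm_102_s1 t446_A00pm_102_s1

theorem t458_A00pm_102_s1 : ∃ t, chk3 f_A00pm_102_s1 t 6 82 1 = true := ex3_a t457_A00pm_102_s1 t444_A00pm_102_s1

theorem t459_A00pm_102_s1 : ∃ t, chk3 f_A00pm_102_s1 t 6 41 1 = true := ex3_b t458_A00pm_102_s1 t438_A00pm_102_s1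

theorem t460_A00pm_102_s1 : ∃ t, chk3 f_A00pm_102_s1 t 54 81 1 = true := ex3_b k308_A00pm_102_s1 k309_A00pm_102_s1

theorem t461_A00pm_102_s1 : ∃ t, chk3 f_A00pm_102_s1 t 27 81 1 = true := ex3_a t460_A00pm_102_s1 k310_A00pm_102_s1

theorem t462_A00pm_102_s1 : ∃ t, chk3 f_A00pm_102_s1 t 27 40 1 = true := ex3_b k307_A00pm_102_s1 t461_A00pm_102_s1

theorem t463_A00pm_102_s1 : ∃ t, chk3 f_A00pm_102_s1 t 26 81 1 = true := ex3_a k305_A00pm_102_s1 k306_A00pm_102_s1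

theorem t464_A00pm_102_s1 : ∃ t, chk3 f_A00pm_102_s1 t 26 80 1 = true := ex3_b k303_A00pm_102_s1 k304_A00pm_102_s1

theorem t465_A00pm_102_s1 : ∃ t, chk3 f_A00pm_102_s1 t 26 40 1 = true := ex3_b t464_A00pm_102_s1 t463_A00pm_102_s1

theorem t466_A00pm_102_s1 : ∃ t, chk3 f_A00pm_102_s1 t 13 40 1 = true := ex3_a t465_A00pm_102_s1 t462_A00pm_102_s1

theorem t467_A00pm_102_s1 : ∃ t, chk3 f_A00pm_102_s1 t 25 81 1 = true := ex3_a k301_A00pm_102_s1 k302_A00pm_102_s1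

theorem t468_A00pm_102_s1 : ∃ t, chk3 f_A00pm_102_s1 t 51 161 1 = true := ex3_a k299_A00pm_102_s1 k300_A00pm_102_s1

theorem t469_A00pm_102_s1 : ∃ t, chk3 f_A00pm_102_s1 t 51 80 1 = true := ex3_b k298_A00pm_102_s1 t468_A00pm_102_s1

theorem t470_A00pm_102_s1 : ∃ t, chk3 f_A00pm_102_s1 t 25 80 1 = true := ex3_a k297_A00pm_102_s1 t469_A00pm_102_s1

theorem t471_A00pm_102_s1 : ∃ t, chk3 f_A00pm_102_s1 t 25 40 1 = true := ex3_b t470_A00pm_102_s1 t467_A00pm_102_s1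

theorem t472_A00pm_102_s1 : ∃ t, chk3 f_A00pm_102_s1 t 24 81 1 = true := ex3_b k295_A00pm_102_s1 k296_A00pm_102_s1

theorem t473_A00pm_102_s1 : ∃ t, chk3 f_A00pm_102_s1 t 24 80 1 = true := ex3_b k293_A00pm_102_s1 k294_A00pm_102_s1

theorem t474_A00pm_102_s1 : ∃ t, chk3 f_A00pm_102_s1 t 24 40 1 = true := ex3_b t473_A00pm_102_s1 t472_A00pm_102_s1

theorem t475_A00pm_102_s1 : ∃ t, chk3 f_A00pm_102_s1 t 12 40 1 = true := ex3_a t474_A00pm_102_s1 t471_A00pm_102_s1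

theorem t476_A00pm_102_s1 : ∃ t, chk3 f_A00pm_102_s1 t 6 40 1 = true := ex3_a t475_A00pm_102_s1 t466_A00pm_102_s1

theorem t477_A00pm_102_s1 : ∃ t, chk3 f_A00pm_102_s1 t 6 20 1 = true := ex3_b t476_A00pm_102_s1 t459_A00pm_102_s1

theorem t478_A00pm_102_s1 : ∃ t, chk3 f_A00pm_102_s1 t 6 10 1 = true := ex3_b t477_A00pm_102_s1 t414_A00pm_102_s1

theorem t479_A00pm_102_s1 : ∃ t, chk3 f_A00pm_102_s1 t 6 5 1 = true := ex3_b t478_A00pm_102_s1 t412_A00pm_102_s1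

theorem t480_A00pm_102_s1 : ∃ t, chk3 f_A00pm_102_s1 t 3 5 1 = true := ex3_a t479_A00pm_102_s1 t411_A00pm_102_s1

theorem t481_A00pm_102_s1 : ∃ t, chk3 f_A00pm_102_s1 t 61 36 1 = true := ex3_b k288_A00pm_102_s1 k289_A00pm_102_s1

theorem t482_A00pm_102_s1 : ∃ t, chk3 f_A00pm_102_s1 t 121 72 1 = true := ex3_c k285_A00pm_102_s1 k286_A00pm_102_s1

theorem t483_A00pm_102_s1 : ∃ t, chk3 f_A00pm_102_s1 t 120 72 2 = true := ex3_b k282_A00pm_102_s1 k283_A00pm_102_s1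

theorem t484_A00pm_102_s1 : ∃ t, chk3 f_A00pm_102_s1 t 120 72 1 = true := ex3_c t483_A00pm_102_s1 k284_A00pm_102_s1

theorem t485_A00pm_102_s1 : ∃ t, chk3 f_A00pm_102_s1 t 60 72 1 = true := ex3_a t484_A00pm_102_s1 t482_A00pm_102_s1

theorem t486_A00pm_102_s1 : ∃ t, chk3 f_A00pm_102_s1 t 60 36 1 = true := ex3_b t485_A00pm_102_s1 k287_A00pm_102_s1

theorem t487_A00pm_102_s1 : ∃ t, chk3 f_A00pm_102_s1 t 30 36 1 = true := ex3_a t486_A00pm_102_s1 t481_A00pm_102_s1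

theorem t488_A00pm_102_s1 : ∃ t, chk3 f_A00pm_102_s1 t 30 18 1 = true := ex3_b t487_A00pm_102_s1 k290_A00pm_102_s1

theorem t489_A00pm_102_s1 : ∃ t, chk3 f_A00pm_102_s1 t 15 18 1 = true := ex3_a t488_A00pm_102_s1 k291_A00pm_102_s1

theorem t490_A00pm_102_s1 : ∃ t, chk3 f_A00pm_102_s1 t 15 9 1 = true := ex3_b t489_A00pm_102_s1 k292_A00pm_102_s1

theorem t491_A00pm_102_s1 : ∃ t, chk3 f_A00pm_102_s1 t 28 39 1 = true := ex3_b k279_A00pm_102_s1 k280_A00pm_102_s1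

theorem t492_A00pm_102_s1 : ∃ t, chk3 f_A00pm_102_s1 t 14 39 1 = true := ex3_a t491_A00pm_102_s1 k281_A00pm_102_s1

theorem t493_A00pm_102_s1 : ∃ t, chk3 f_A00pm_102_s1 t 56 76 1 = true := ex3_b k274_A00pm_102_s1 k275_A00pm_102_s1

theorem t494_A00pm_102_s1 : ∃ t, chk3 f_A00pm_102_s1 t 28 76 1 = true := ex3_a t493_A00pm_102_s1 k276_A00pm_102_s1

theorem t495_A00pm_102_s1 : ∃ t, chk3 f_A00pm_102_s1 t 28 38 1 = true := ex3_b t494_A00pm_102_s1 k277_A00pm_102_s1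

theorem t496_A00pm_102_s1 : ∃ t, chk3 f_A00pm_102_s1 t 14 38 1 = true := ex3_a t495_A00pm_102_s1 k278_A00pm_102_s1

theorem t497_A00pm_102_s1 : ∃ t, chk3 f_A00pm_102_s1 t 14 19 1 = true := ex3_b t496_A00pm_102_s1 t492_A00pm_102_s1

theorem t498_A00pm_102_s1 : ∃ t, chk3 f_A00pm_102_s1 t 58 74 1 = true := ex3_a k270_A00pm_102_s1 k271_A00pm_102_s1

theorem t499_A00pm_102_s1 : ∃ t, chk3 f_A00pm_102_s1 t 58 37 1 = true := ex3_b t498_A00pm_102_s1 k272_A00pm_102_s1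

theorem t500_A00pm_102_s1 : ∃ t, chk3 f_A00pm_102_s1 t 29 37 1 = true := ex3_a t499_A00pm_102_s1 k273_A00pm_102_s1

theorem t501_A00pm_102_s1 : ∃ t, chk3 f_A00pm_102_s1 t 119 73 1 = true := ex3_b k268_A00pm_102_s1 k269_A00pm_102_s1

theorem t502_A00pm_102_s1 : ∃ t, chk3 f_A00pm_102_s1 t 118 146 1 = true := ex3_a k265_A00pm_102_s1 k266_A00pm_102_s1

theorem t503_A00pm_102_s1 : ∃ t, chk3 f_A00pm_102_s1 t 118 73 1 = true := ex3_b t502_A00pm_102_s1 k267_A00pm_102_s1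

theorem t504_A00pm_102_s1 : ∃ t, chk3 f_A00pm_102_s1 t 59 73 1 = true := ex3_a t503_A00pm_102_s1 t501_A00pm_102_s1

theorem t505_A00pm_102_s1 : ∃ t, chk3 f_A00pm_102_s1 t 119 145 2 = true := ex3_a k262_A00pm_102_s1 k263_A00pm_102_s1

theorem t506_A00pm_102_s1 : ∃ t, chk3 f_A00pm_102_s1 t 119 145 1 = true := ex3_c t505_A00pm_102_s1 k264_A00pm_102_s1

theorem t507_A00pm_102_s1 : ∃ t, chk3 f_A00pm_102_s1 t 119 144 1 = true := ex3_a k260_A00pm_102_s1 k261_A00pm_102_s1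

theorem t508_A00pm_102_s1 : ∃ t, chk3 f_A00pm_102_s1 t 119 72 1 = true := ex3_b t507_A00pm_102_s1 t506_A00pm_102_s1

theorem t509_A00pm_102_s1 : ∃ t, chk3 f_A00pm_102_s1 t 118 145 1 = true := ex3_a k258_A00pm_102_s1 k259_A00pm_102_s1

theorem t510_A00pm_102_s1 : ∃ t, chk3 f_A00pm_102_s1 t 118 72 1 = true := ex3_b k257_A00pm_102_s1 t509_A00pm_102_s1

theorem t511_A00pm_102_s1 : ∃ t, chk3 f_A00pm_102_s1 t 59 72 1 = true := ex3_a t510_A00pm_102_s1 t508_A00pm_102_s1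

theorem t512_A00pm_102_s1 : ∃ t, chk3 f_A00pm_102_s1 t 59 36 1 = true := ex3_b t511_A00pm_102_s1 t504_A00pm_102_s1

theorem t513_A00pm_102_s1 : ∃ t, chk3 f_A00pm_102_s1 t 235 146 1 = true := ex3_b k254_A00pm_102_s1 k255_A00pm_102_s1

theorem t514_A00pm_102_s1 : ∃ t, chk3 f_A00pm_102_s1 t 117 146 1 = true := ex3_a k253_A00pm_102_s1 t513_A00pm_102_s1

theorem t515_A00pm_102_s1 : ∃ t, chk3 f_A00pm_102_s1 t 117 73 1 = true := ex3_b t514_A00pm_102_s1 k256_A00pm_102_s1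

theorem t516_A00pm_102_s1 : ∃ t, chk3 f_A00pm_102_s1 t 58 73 1 = true := ex3_a k252_A00pm_102_s1 t515_A00pm_102_s1

theorem t517_A00pm_102_s1 : ∃ t, chk3 f_A00pm_102_s1 t 58 72 1 = true := ex3_c k250_A00pm_102_s1 k251_A00pm_102_s1

theorem t518_A00pm_102_s1 : ∃ t, chk3 f_A00pm_102_s1 t 58 36 1 = true := ex3_b t517_A00pm_102_s1 t516_A00pm_102_s1

theorem t519_A00pm_102_s1 : ∃ t, chk3 f_A00pm_102_s1 t 29 36 1 = true := ex3_a t518_A00pm_102_s1 t512_A00pm_102_s1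

theorem t520_A00pm_102_s1 : ∃ t, chk3 f_A00pm_102_s1 t 29 18 1 = true := ex3_b t519_A00pm_102_s1 t500_A00pm_102_s1

theorem t521_A00pm_102_s1 : ∃ t, chk3 f_A00pm_102_s1 t 114 150 1 = true := ex3_a k246_A00pm_102_s1 k247_A00pm_102_s1

theorem t522_A00pm_102_s1 : ∃ t, chk3 f_A00pm_102_s1 t 114 75 1 = true := ex3_b t521_A00pm_102_s1 k248_A00pm_102_s1

theorem t523_A00pm_102_s1 : ∃ t, chk3 f_A00pm_102_s1 t 57 75 1 = true := ex3_a t522_A00pm_102_s1 k249_A00pm_102_s1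

theorem t524_A00pm_102_s1 : ∃ t, chk3 f_A00pm_102_s1 t 115 149 1 = true := ex3_a k244_A00pm_102_s1 k245_A00pm_102_s1

theorem t525_A00pm_102_s1 : ∃ t, chk3 f_A00pm_102_s1 t 115 74 1 = true := ex3_b k243_A00pm_102_s1 t524_A00pm_102_s1

theorem t526_A00pm_102_s1 : ∃ t, chk3 f_A00pm_102_s1 t 57 74 1 = true := ex3_a k242_A00pm_102_s1 t525_A00pm_102_s1

theorem t527_A00pm_102_s1 : ∃ t, chk3 f_A00pm_102_s1 t 57 37 1 = true := ex3_b t526_A00pm_102_s1 t523_A00pm_102_s1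

theorem t528_A00pm_102_s1 : ∃ t, chk3 f_A00pm_102_s1 t 56 75 1 = true := ex3_b k240_A00pm_102_s1 k241_A00pm_102_s1

theorem t529_A00pm_102_s1 : ∃ t, chk3 f_A00pm_102_s1 t 56 37 1 = true := ex3_b k239_A00pm_102_s1 t528_A00pm_102_s1

theorem t530_A00pm_102_s1 : ∃ t, chk3 f_A00pm_102_s1 t 28 37 1 = true := ex3_a t529_A00pm_102_s1 t527_A00pm_102_s1

theorem t531_A00pm_102_s1 : ∃ t, chk3 f_A00pm_102_s1 t 28 18 1 = true := ex3_b k238_A00pm_102_s1 t530_A00pm_102_s1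

theorem t532_A00pm_102_s1 : ∃ t, chk3 f_A00pm_102_s1 t 14 18 1 = true := ex3_a t531_A00pm_102_s1 t520_A00pm_102_s1

theorem t533_A00pm_102_s1 : ∃ t, chk3 f_A00pm_102_s1 t 14 9 1 = true := ex3_b t532_A00pm_102_s1 t497_A00pm_102_s1

theorem t534_A00pm_102_s1 : ∃ t, chk3 f_A00pm_102_s1 t 7 9 1 = true := ex3_a t533_A00pm_102_s1 t490_A00pm_102_s1

theorem t535_A00pm_102_s1 : ∃ t, chk3 f_A00pm_102_s1 t 124 35 1 = true := ex3_b k234_A00pm_102_s1 k235_A00pm_102_s1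

theorem t536_A00pm_102_s1 : ∃ t, chk3 f_A00pm_102_s1 t 62 35 1 = true := ex3_a t535_A00pm_102_s1 k236_A00pm_102_s1

theorem t537_A00pm_102_s1 : ∃ t, chk3 f_A00pm_102_s1 t 124 138 1 = true := ex3_c k230_A00pm_102_s1 k231_A00pm_102_s1

theorem t538_A00pm_102_s1 : ∃ t, chk3 f_A00pm_102_s1 t 124 69 1 = true := ex3_b t537_A00pm_102_s1 k232_A00pm_102_s1

theorem t539_A00pm_102_s1 : ∃ t, chk3 f_A00pm_102_s1 t 62 69 1 = true := ex3_a t538_A00pm_102_s1 k233_A00pm_102_s1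

theorem t540_A00pm_102_s1 : ∃ t, chk3 f_A00pm_102_s1 t 124 68 1 = true := ex3_b k227_A00pm_102_s1 k228_A00pm_102_s1

theorem t541_A00pm_102_s1 : ∃ t, chk3 f_A00pm_102_s1 t 62 68 1 = true := ex3_a t540_A00pm_102_s1 k229_A00pm_102_s1

theorem t542_A00pm_102_s1 : ∃ t, chk3 f_A00pm_102_s1 t 62 34 1 = true := ex3_b t541_A00pm_102_s1 t539_A00pm_102_s1

theorem t543_A00pm_102_s1 : ∃ t, chk3 f_A00pm_102_s1 t 62 17 1 = true := ex3_b t542_A00pm_102_s1 t536_A00pm_102_s1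

theorem t544_A00pm_102_s1 : ∃ t, chk3 f_A00pm_102_s1 t 31 17 1 = true := ex3_a t543_A00pm_102_s1 k237_A00pm_102_s1

theorem t545_A00pm_102_s1 : ∃ t, chk3 f_A00pm_102_s1 t 122 71 2 = true := ex3_a k223_A00pm_102_s1 k224_A00pm_102_s1

theorem t546_A00pm_102_s1 : ∃ t, chk3 f_A00pm_102_s1 t 122 71 1 = true := ex3_c t545_A00pm_102_s1 k225_A00pm_102_s1

theorem t547_A00pm_102_s1 : ∃ t, chk3 f_A00pm_102_s1 t 61 71 1 = true := ex3_a t546_A00pm_102_s1 k226_A00pm_102_s1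

theorem t548_A00pm_102_s1 : ∃ t, chk3 f_A00pm_102_s1 t 246 140 4 = true := ex3_b k217_A00pm_102_s1 k218_A00pm_102_s1

theorem t549_A00pm_102_s1 : ∃ t, chk3 f_A00pm_102_s1 t 246 140 2 = true := ex3_c t548_A00pm_102_s1 k219_A00pm_102_s1

theorem t550_A00pm_102_s1 : ∃ t, chk3 f_A00pm_102_s1 t 123 140 2 = true := ex3_a t549_A00pm_102_s1 k220_A00pm_102_s1

theorem t551_A00pm_102_s1 : ∃ t, chk3 f_A00pm_102_s1 t 123 70 2 = true := ex3_b t550_A00pm_102_s1 k221_A00pm_102_s1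

theorem t552_A00pm_102_s1 : ∃ t, chk3 f_A00pm_102_s1 t 123 70 1 = true := ex3_c t551_A00pm_102_s1 k222_A00pm_102_s1

theorem t553_A00pm_102_s1 : ∃ t, chk3 f_A00pm_102_s1 t 122 141 4 = true := ex3_b k213_A00pm_102_s1 k214_A00pm_102_s1

theorem t554_A00pm_102_s1 : ∃ t, chk3 f_A00pm_102_s1 t 122 141 2 = true := ex3_c t553_A00pm_102_s1 k215_A00pm_102_s1

theorem t555_A00pm_102_s1 : ∃ t, chk3 f_A00pm_102_s1 t 122 141 1 = true := ex3_c t554_A00pm_102_s1 k216_A00pm_102_s1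

theorem t556_A00pm_102_s1 : ∃ t, chk3 f_A00pm_102_s1 t 245 280 8 = true := ex3_a k207_A00pm_102_s1 k208_A00pm_102_s1

theorem t557_A00pm_102_s1 : ∃ t, chk3 f_A00pm_102_s1 t 245 280 4 = true := ex3_c t556_A00pm_102_s1 k209_A00pm_102_s1

theorem t558_A00pm_102_s1 : ∃ t, chk3 f_A00pm_102_s1 t 245 140 4 = true := ex3_b t557_A00pm_102_s1 k210_A00pm_102_s1

theorem t559_A00pm_102_s1 : ∃ t, chk3 f_A00pm_102_s1 t 244 280 4 = true := ex3_c k204_A00pm_102_s1 k205_A00pm_102_s1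

theorem t560_A00pm_102_s1 : ∃ t, chk3 f_A00pm_102_s1 t 244 140 4 = true := ex3_b t559_A00pm_102_s1 k206_A00pm_102_s1

theorem t561_A00pm_102_s1 : ∃ t, chk3 f_A00pm_102_s1 t 122 140 4 = true := ex3_a t560_A00pm_102_s1 t558_A00pm_102_s1

theorem t562_A00pm_102_s1 : ∃ t, chk3 f_A00pm_102_s1 t 122 140 2 = true := ex3_c t561_A00pm_102_s1 k211_A00pm_102_s1

theorem t563_A00pm_102_s1 : ∃ t, chk3 f_A00pm_102_s1 t 122 140 1 = true := ex3_c t562_A00pm_102_s1 k212_A00pm_102_s1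

theorem t564_A00pm_102_s1 : ∃ t, chk3 f_A00pm_102_s1 t 122 70 1 = true := ex3_b t563_A00pm_102_s1 t555_A00pm_102_s1

theorem t565_A00pm_102_s1 : ∃ t, chk3 f_A00pm_102_s1 t 61 70 1 = true := ex3_a t564_A00pm_102_s1 t552_A00pm_102_s1

theorem t566_A00pm_102_s1 : ∃ t, chk3 f_A00pm_102_s1 t 61 35 1 = true := ex3_b t565_A00pm_102_s1 t547_A00pm_102_s1

theorem t567_A00pm_102_s1 : ∃ t, chk3 f_A00pm_102_s1 t 121 71 1 = true := ex3_c k202_A00pm_102_s1 k203_A00pm_102_s1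

theorem t568_A00pm_102_s1 : ∃ t, chk3 f_A00pm_102_s1 t 240 285 1 = true := ex3_a k198_A00pm_102_s1 k199_A00pm_102_s1

theorem t569_A00pm_102_s1 : ∃ t, chk3 f_A00pm_102_s1 t 240 142 1 = true := ex3_b k197_A00pm_102_s1 t568_A00pm_102_s1

theorem t570_A00pm_102_s1 : ∃ t, chk3 f_A00pm_102_s1 t 120 142 1 = true := ex3_a t569_A00pm_102_s1 k200_A00pm_102_s1

theorem t571_A00pm_102_s1 : ∃ t, chk3 f_A00pm_102_s1 t 120 71 1 = true := ex3_b t570_A00pm_102_s1 k201_A00pm_102_s1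

theorem t572_A00pm_102_s1 : ∃ t, chk3 f_A00pm_102_s1 t 60 71 1 = true := ex3_a t571_A00pm_102_s1 t567_A00pm_102_s1

theorem t573_A00pm_102_s1 : ∃ t, chk3 f_A00pm_102_s1 t 121 141 1 = true := ex3_a k195_A00pm_102_s1 k196_A00pm_102_s1

theorem t574_A00pm_102_s1 : ∃ t, chk3 f_A00pm_102_s1 t 243 280 1 = true := ex3_a k192_A00pm_102_s1 k193_A00pm_102_s1

theorem t575_A00pm_102_s1 : ∃ t, chk3 f_A00pm_102_s1 t 243 140 1 = true := ex3_b t574_A00pm_102_s1 k194_A00pm_102_s1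

theorem t576_A00pm_102_s1 : ∃ t, chk3 f_A00pm_102_s1 t 121 140 1 = true := ex3_a k191_A00pm_102_s1 t575_A00pm_102_s1

theorem t577_A00pm_102_s1 : ∃ t, chk3 f_A00pm_102_s1 t 121 70 1 = true := ex3_b t576_A00pm_102_s1 t573_A00pm_102_s1

theorem t578_A00pm_102_s1 : ∃ t, chk3 f_A00pm_102_s1 t 60 70 1 = true := ex3_a k190_A00pm_102_s1 t577_A00pm_102_s1

theorem t579_A00pm_102_s1 : ∃ t, chk3 f_A00pm_102_s1 t 60 35 1 = true := ex3_b t578_A00pm_102_s1 t572_A00pm_102_s1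

theorem t580_A00pm_102_s1 : ∃ t, chk3 f_A00pm_102_s1 t 30 35 1 = true := ex3_a t579_A00pm_102_s1 t566_A00pm_102_s1

theorem t581_A00pm_102_s1 : ∃ t, chk3 f_A00pm_102_s1 t 492 139 4 = true := ex3_c k184_A00pm_102_s1 k185_A00pm_102_s1

theorem t582_A00pm_102_s1 : ∃ t, chk3 f_A00pm_102_s1 t 246 139 4 = true := ex3_a t581_A00pm_102_s1 k186_A00pm_102_s1

theorem t583_A00pm_102_s1 : ∃ t, chk3 f_A00pm_102_s1 t 246 139 2 = true := ex3_c t582_A00pm_102_s1 k187_A00pm_102_s1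

theorem t584_A00pm_102_s1 : ∃ t, chk3 f_A00pm_102_s1 t 123 139 2 = true := ex3_a t583_A00pm_102_s1 k188_A00pm_102_s1

theorem t585_A00pm_102_s1 : ∃ t, chk3 f_A00pm_102_s1 t 123 139 1 = true := ex3_c t584_A00pm_102_s1 k189_A00pm_102_s1

theorem t586_A00pm_102_s1 : ∃ t, chk3 f_A00pm_102_s1 t 246 138 1 = true := ex3_b k181_A00pm_102_s1 k182_A00pm_102_s1

theorem t587_A00pm_102_s1 : ∃ t, chk3 f_A00pm_102_s1 t 123 138 1 = true := ex3_a t586_A00pm_102_s1 k183_A00pm_102_s1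

theorem t588_A00pm_102_s1 : ∃ t, chk3 f_A00pm_102_s1 t 123 69 1 = true := ex3_b t587_A00pm_102_s1 t585_A00pm_102_s1

theorem t589_A00pm_102_s1 : ∃ t, chk3 f_A00pm_102_s1 t 245 279 8 = true := ex3_a k176_A00pm_102_s1 k177_A00pm_102_s1

theorem t590_A00pm_102_s1 : ∃ t, chk3 f_A00pm_102_s1 t 245 279 4 = true := ex3_c t589_A00pm_102_s1 k178_A00pm_102_s1

theorem t591_A00pm_102_s1 : ∃ t, chk3 f_A00pm_102_s1 t 245 278 4 = true := ex3_c k174_A00pm_102_s1 k175_A00pm_102_s1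

theorem t592_A00pm_102_s1 : ∃ t, chk3 f_A00pm_102_s1 t 245 139 4 = true := ex3_b t591_A00pm_102_s1 t590_A00pm_102_s1

theorem t593_A00pm_102_s1 : ∃ t, chk3 f_A00pm_102_s1 t 245 139 2 = true := ex3_c t592_A00pm_102_s1 k179_A00pm_102_s1

theorem t594_A00pm_102_s1 : ∃ t, chk3 f_A00pm_102_s1 t 245 139 1 = true := ex3_c t593_A00pm_102_s1 k180_A00pm_102_s1

theorem t595_A00pm_102_s1 : ∃ t, chk3 f_A00pm_102_s1 t 244 279 2 = true := ex3_a k171_A00pm_102_s1 k172_A00pm_102_s1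

theorem t596_A00pm_102_s1 : ∃ t, chk3 f_A00pm_102_s1 t 244 279 1 = true := ex3_c t595_A00pm_102_s1 k173_A00pm_102_s1

theorem t597_A00pm_102_s1 : ∃ t, chk3 f_A00pm_102_s1 t 489 278 1 = true := ex3_b k169_A00pm_102_s1 k170_A00pm_102_s1

theorem t598_A00pm_102_s1 : ∃ t, chk3 f_A00pm_102_s1 t 244 278 1 = true := ex3_a k168_A00pm_102_s1 t597_A00pm_102_s1

theorem t599_A00pm_102_s1 : ∃ t, chk3 f_A00pm_102_s1 t 244 139 1 = true := ex3_b t598_A00pm_102_s1 t596_A00pm_102_s1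

theorem t600_A00pm_102_s1 : ∃ t, chk3 f_A00pm_102_s1 t 122 139 1 = true := ex3_a t599_A00pm_102_s1 t594_A00pm_102_s1

theorem t601_A00pm_102_s1 : ∃ t, chk3 f_A00pm_102_s1 t 245 277 1 = true := ex3_a k166_A00pm_102_s1 k167_A00pm_102_s1

theorem t602_A00pm_102_s1 : ∃ t, chk3 f_A00pm_102_s1 t 245 138 1 = true := ex3_b k165_A00pm_102_s1 t601_A00pm_102_s1

theorem t603_A00pm_102_s1 : ∃ t, chk3 f_A00pm_102_s1 t 122 138 1 = true := ex3_a k164_A00pm_102_s1 t602_A00pm_102_s1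

theorem t604_A00pm_102_s1 : ∃ t, chk3 f_A00pm_102_s1 t 122 69 1 = true := ex3_b t603_A00pm_102_s1 t600_A00pm_102_s1

theorem t605_A00pm_102_s1 : ∃ t, chk3 f_A00pm_102_s1 t 61 69 1 = true := ex3_a t604_A00pm_102_s1 t588_A00pm_102_s1

theorem t606_A00pm_102_s1 : ∃ t, chk3 f_A00pm_102_s1 t 123 137 1 = true := ex3_a k162_A00pm_102_s1 k163_A00pm_102_s1

theorem t607_A00pm_102_s1 : ∃ t, chk3 f_A00pm_102_s1 t 247 136 1 = true := ex3_b k160_A00pm_102_s1 k161_A00pm_102_s1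

theorem t608_A00pm_102_s1 : ∃ t, chk3 f_A00pm_102_s1 t 123 136 1 = true := ex3_a k159_A00pm_102_s1 t607_A00pm_102_s1

theorem t609_A00pm_102_s1 : ∃ t, chk3 f_A00pm_102_s1 t 123 68 1 = true := ex3_b t608_A00pm_102_s1 t606_A00pm_102_s1

theorem t610_A00pm_102_s1 : ∃ t, chk3 f_A00pm_102_s1 t 61 68 1 = true := ex3_a k158_A00pm_102_s1 t609_A00pm_102_s1

theorem t611_A00pm_102_s1 : ∃ t, chk3 f_A00pm_102_s1 t 61 34 1 = true := ex3_b t610_A00pm_102_s1 t605_A00pm_102_s1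

theorem t612_A00pm_102_s1 : ∃ t, chk3 f_A00pm_102_s1 t 60 34 1 = true := ex3_b k156_A00pm_102_s1 k157_A00pm_102_s1

theorem t613_A00pm_102_s1 : ∃ t, chk3 f_A00pm_102_s1 t 30 34 1 = true := ex3_a t612_A00pm_102_s1 t611_A00pm_102_s1

theorem t614_A00pm_102_s1 : ∃ t, chk3 f_A00pm_102_s1 t 30 17 1 = true := ex3_b t613_A00pm_102_s1 t580_A00pm_102_s1

theorem t615_A00pm_102_s1 : ∃ t, chk3 f_A00pm_102_s1 t 15 17 1 = true := ex3_a t614_A00pm_102_s1 t544_A00pm_102_s1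

theorem t616_A00pm_102_s1 : ∃ t, chk3 f_A00pm_102_s1 t 15 8 1 = true := ex3_b k155_A00pm_102_s1 t615_A00pm_102_s1

theorem t617_A00pm_102_s1 : ∃ t, chk3 f_A00pm_102_s1 t 119 71 1 = true := ex3_b k153_A00pm_102_s1 k154_A00pm_102_s1

theorem t618_A00pm_102_s1 : ∃ t, chk3 f_A00pm_102_s1 t 59 71 1 = true := ex3_a k152_A00pm_102_s1 t617_A00pm_102_s1

theorem t619_A00pm_102_s1 : ∃ t, chk3 f_A00pm_102_s1 t 59 35 1 = true := ex3_b k151_A00pm_102_s1 t618_A00pm_102_s1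

theorem t620_A00pm_102_s1 : ∃ t, chk3 f_A00pm_102_s1 t 29 35 1 = true := ex3_a k150_A00pm_102_s1 t619_A00pm_102_s1

theorem t621_A00pm_102_s1 : ∃ t, chk3 f_A00pm_102_s1 t 29 17 1 = true := ex3_b k149_A00pm_102_s1 t620_A00pm_102_s1

theorem t622_A00pm_102_s1 : ∃ t, chk3 f_A00pm_102_s1 t 14 17 1 = true := ex3_a k148_A00pm_102_s1 t621_A00pm_102_s1

theorem t623_A00pm_102_s1 : ∃ t, chk3 f_A00pm_102_s1 t 14 8 1 = true := ex3_b k147_A00pm_102_s1 t622_A00pm_102_s1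

theorem t624_A00pm_102_s1 : ∃ t, chk3 f_A00pm_102_s1 t 7 8 1 = true := ex3_a t623_A00pm_102_s1 t616_A00pm_102_s1

theorem t625_A00pm_102_s1 : ∃ t, chk3 f_A00pm_102_s1 t 7 4 1 = true := ex3_b t624_A00pm_102_s1 t534_A00pm_102_s1

theorem t626_A00pm_102_s1 : ∃ t, chk3 f_A00pm_102_s1 t 54 156 1 = true := ex3_a k142_A00pm_102_s1 k143_A00pm_102_s1

theorem t627_A00pm_102_s1 : ∃ t, chk3 f_A00pm_102_s1 t 54 78 1 = true := ex3_b t626_A00pm_102_s1 k144_A00pm_102_s1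

theorem t628_A00pm_102_s1 : ∃ t, chk3 f_A00pm_102_s1 t 27 78 1 = true := ex3_a t627_A00pm_102_s1 k145_A00pm_102_s1

theorem t629_A00pm_102_s1 : ∃ t, chk3 f_A00pm_102_s1 t 27 39 1 = true := ex3_b t628_A00pm_102_s1 k146_A00pm_102_s1

theorem t630_A00pm_102_s1 : ∃ t, chk3 f_A00pm_102_s1 t 106 158 1 = true := ex3_b k138_A00pm_102_s1 k139_A00pm_102_s1

theorem t631_A00pm_102_s1 : ∃ t, chk3 f_A00pm_102_s1 t 53 158 1 = true := ex3_a t630_A00pm_102_s1 k140_A00pm_102_s1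

theorem t632_A00pm_102_s1 : ∃ t, chk3 f_A00pm_102_s1 t 53 79 1 = true := ex3_b t631_A00pm_102_s1 k141_A00pm_102_s1

theorem t633_A00pm_102_s1 : ∃ t, chk3 f_A00pm_102_s1 t 26 79 1 = true := ex3_a k137_A00pm_102_s1 t632_A00pm_102_s1

theorem t634_A00pm_102_s1 : ∃ t, chk3 f_A00pm_102_s1 t 107 157 1 = true := ex3_b k135_A00pm_102_s1 k136_A00pm_102_s1

theorem t635_A00pm_102_s1 : ∃ t, chk3 f_A00pm_102_s1 t 53 157 1 = true := ex3_a k134_A00pm_102_s1 t634_A00pm_102_s1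

theorem t636_A00pm_102_s1 : ∃ t, chk3 f_A00pm_102_s1 t 53 78 1 = true := ex3_b k133_A00pm_102_s1 t635_A00pm_102_s1

theorem t637_A00pm_102_s1 : ∃ t, chk3 f_A00pm_102_s1 t 26 78 1 = true := ex3_a k132_A00pm_102_s1 t636_A00pm_102_s1

theorem t638_A00pm_102_s1 : ∃ t, chk3 f_A00pm_102_s1 t 26 39 1 = true := ex3_b t637_A00pm_102_s1 t633_A00pm_102_s1

theorem t639_A00pm_102_s1 : ∃ t, chk3 f_A00pm_102_s1 t 13 39 1 = true := ex3_a t638_A00pm_102_s1 t629_A00pm_102_s1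

theorem t640_A00pm_102_s1 : ∃ t, chk3 f_A00pm_102_s1 t 55 77 1 = true := ex3_b k130_A00pm_102_s1 k131_A00pm_102_s1

theorem t641_A00pm_102_s1 : ∃ t, chk3 f_A00pm_102_s1 t 27 77 1 = true := ex3_a k129_A00pm_102_s1 t640_A00pm_102_s1

theorem t642_A00pm_102_s1 : ∃ t, chk3 f_A00pm_102_s1 t 27 38 1 = true := ex3_b k128_A00pm_102_s1 t641_A00pm_102_s1

theorem t643_A00pm_102_s1 : ∃ t, chk3 f_A00pm_102_s1 t 13 38 1 = true := ex3_a k127_A00pm_102_s1 t642_A00pm_102_s1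

theorem t644_A00pm_102_s1 : ∃ t, chk3 f_A00pm_102_s1 t 13 19 1 = true := ex3_b t643_A00pm_102_s1 t639_A00pm_102_s1

theorem t645_A00pm_102_s1 : ∃ t, chk3 f_A00pm_102_s1 t 13 9 1 = true := ex3_b k126_A00pm_102_s1 t644_A00pm_102_s1

theorem t646_A00pm_102_s1 : ∃ t, chk3 f_A00pm_102_s1 t 6 9 1 = true := ex3_a k125_A00pm_102_s1 t645_A00pm_102_s1

theorem t647_A00pm_102_s1 : ∃ t, chk3 f_A00pm_102_s1 t 6 4 1 = true := ex3_b k124_A00pm_102_s1 t646_A00pm_102_s1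

theorem t648_A00pm_102_s1 : ∃ t, chk3 f_A00pm_102_s1 t 3 4 1 = true := ex3_a t647_A00pm_102_s1 t625_A00pm_102_s1

theorem t649_A00pm_102_s1 : ∃ t, chk3 f_A00pm_102_s1 t 3 2 1 = true := ex3_b t648_A00pm_102_s1 t480_A00pm_102_s1

theorem t650_A00pm_102_s1 : ∃ t, chk3 f_A00pm_102_s1 t 3 1 1 = true := ex3_b t649_A00pm_102_s1 t389_A00pm_102_s1

theorem t651_A00pm_102_s1 : ∃ t, chk3 f_A00pm_102_s1 t 11 21 1 = true := ex3_a k120_A00pm_102_s1 k121_A00pm_102_s1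

theorem t652_A00pm_102_s1 : ∃ t, chk3 f_A00pm_102_s1 t 5 21 1 = true := ex3_a k119_A00pm_102_s1 t651_A00pm_102_s1

theorem t653_A00pm_102_s1 : ∃ t, chk3 f_A00pm_102_s1 t 2 21 1 = true := ex3_a k118_A00pm_102_s1 t652_A00pm_102_s1

theorem t654_A00pm_102_s1 : ∃ t, chk3 f_A00pm_102_s1 t 5 5365 1 = true := ex3_b k114_A00pm_102_s1 k115_A00pm_102_s1

theorem t655_A00pm_102_s1 : ∃ t, chk3 f_A00pm_102_s1 t 5 2682 1 = true := ex3_b k113_A00pm_102_s1 t654_A00pm_102_s1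

theorem t656_A00pm_102_s1 : ∃ t, chk3 f_A00pm_102_s1 t 5 1341 1 = true := ex3_b t655_A00pm_102_s1 k116_A00pm_102_s1

theorem t657_A00pm_102_s1 : ∃ t, chk3 f_A00pm_102_s1 t 5 21452 1 = true := ex3_a k109_A00pm_102_s1 k110_A00pm_102_s1

theorem t658_A00pm_102_s1 : ∃ t, chk3 f_A00pm_102_s1 t 5 10726 1 = true := ex3_b t657_A00pm_102_s1 k111_A00pm_102_s1

theorem t659_A00pm_102_s1 : ∃ t, chk3 f_A00pm_102_s1 t 5 5363 1 = true := ex3_b t658_A00pm_102_s1 k112_A00pm_102_s1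

theorem t660_A00pm_102_s1 : ∃ t, chk3 f_A00pm_102_s1 t 21 5362 1 = true := ex3_b k106_A00pm_102_s1 k107_A00pm_102_s1

theorem t661_A00pm_102_s1 : ∃ t, chk3 f_A00pm_102_s1 t 10 5362 1 = true := ex3_a k105_A00pm_102_s1 t660_A00pm_102_s1

theorem t662_A00pm_102_s1 : ∃ t, chk3 f_A00pm_102_s1 t 5 5362 1 = true := ex3_a t661_A00pm_102_s1 k108_A00pm_102_s1

theorem t663_A00pm_102_s1 : ∃ t, chk3 f_A00pm_102_s1 t 5 2681 1 = true := ex3_b t662_A00pm_102_s1 t659_A00pm_102_s1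

theorem t664_A00pm_102_s1 : ∃ t, chk3 f_A00pm_102_s1 t 21 2680 1 = true := ex3_c k102_A00pm_102_s1 k103_A00pm_102_s1

theorem t665_A00pm_102_s1 : ∃ t, chk3 f_A00pm_102_s1 t 10 2680 1 = true := ex3_a k101_A00pm_102_s1 t664_A00pm_102_s1

theorem t666_A00pm_102_s1 : ∃ t, chk3 f_A00pm_102_s1 t 5 2680 1 = true := ex3_a t665_A00pm_102_s1 k104_A00pm_102_s1

theorem t667_A00pm_102_s1 : ∃ t, chk3 f_A00pm_102_s1 t 5 1340 1 = true := ex3_b t666_A00pm_102_s1 t663_A00pm_102_s1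

theorem t668_A00pm_102_s1 : ∃ t, chk3 f_A00pm_102_s1 t 5 670 1 = true := ex3_b t667_A00pm_102_s1 t656_A00pm_102_s1

theorem t669_A00pm_102_s1 : ∃ t, chk3 f_A00pm_102_s1 t 5 335 1 = true := ex3_b t668_A00pm_102_s1 k117_A00pm_102_s1

theorem t670_A00pm_102_s1 : ∃ t, chk3 f_A00pm_102_s1 t 23 668 1 = true := ex3_a k98_A00pm_102_s1 k99_A00pm_102_s1

theorem t671_A00pm_102_s1 : ∃ t, chk3 f_A00pm_102_s1 t 23 334 1 = true := ex3_b t670_A00pm_102_s1 k100_A00pm_102_s1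

theorem t672_A00pm_102_s1 : ∃ t, chk3 f_A00pm_102_s1 t 45 669 1 = true := ex3_b k96_A00pm_102_s1 k97_A00pm_102_s1

theorem t673_A00pm_102_s1 : ∃ t, chk3 f_A00pm_102_s1 t 89 669 7 = true := ex3_a k94_A00pm_102_s1 k95_A00pm_102_s1

theorem t674_A00pm_102_s1 : ∃ t, chk3 f_A00pm_102_s1 t 89 669 3 = true := ex3_c k93_A00pm_102_s1 t673_A00pm_102_s1

theorem t675_A00pm_102_s1 : ∃ t, chk3 f_A00pm_102_s1 t 44 669 3 = true := ex3_a k92_A00pm_102_s1 t674_A00pm_102_s1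

theorem t676_A00pm_102_s1 : ∃ t, chk3 f_A00pm_102_s1 t 44 669 1 = true := ex3_c k91_A00pm_102_s1 t675_A00pm_102_s1

theorem t677_A00pm_102_s1 : ∃ t, chk3 f_A00pm_102_s1 t 22 669 1 = true := ex3_a t676_A00pm_102_s1 t672_A00pm_102_s1

theorem t678_A00pm_102_s1 : ∃ t, chk3 f_A00pm_102_s1 t 45 668 3 = true := ex3_a k89_A00pm_102_s1 k90_A00pm_102_s1

theorem t679_A00pm_102_s1 : ∃ t, chk3 f_A00pm_102_s1 t 22 668 3 = true := ex3_a k88_A00pm_102_s1 t678_A00pm_102_s1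

theorem t680_A00pm_102_s1 : ∃ t, chk3 f_A00pm_102_s1 t 44 668 2 = true := ex3_b k85_A00pm_102_s1 k86_A00pm_102_s1

theorem t681_A00pm_102_s1 : ∃ t, chk3 f_A00pm_102_s1 t 22 668 2 = true := ex3_a t680_A00pm_102_s1 k87_A00pm_102_s1

theorem t682_A00pm_102_s1 : ∃ t, chk3 f_A00pm_102_s1 t 22 668 1 = true := ex3_c t681_A00pm_102_s1 t679_A00pm_102_s1

theorem t683_A00pm_102_s1 : ∃ t, chk3 f_A00pm_102_s1 t 22 334 1 = true := ex3_b t682_A00pm_102_s1 t677_A00pm_102_s1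

theorem t684_A00pm_102_s1 : ∃ t, chk3 f_A00pm_102_s1 t 11 334 1 = true := ex3_a t683_A00pm_102_s1 t671_A00pm_102_s1

theorem t685_A00pm_102_s1 : ∃ t, chk3 f_A00pm_102_s1 t 21 1339 2 = true := ex3_a k82_A00pm_102_s1 k83_A00pm_102_s1

theorem t686_A00pm_102_s1 : ∃ t, chk3 f_A00pm_102_s1 t 21 1339 1 = true := ex3_c t685_A00pm_102_s1 k84_A00pm_102_s1

theorem t687_A00pm_102_s1 : ∃ t, chk3 f_A00pm_102_s1 t 10 1339 1 = true := ex3_a k81_A00pm_102_s1 t686_A00pm_102_s1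

theorem t688_A00pm_102_s1 : ∃ t, chk3 f_A00pm_102_s1 t 43 1338 1 = true := ex3_c k79_A00pm_102_s1 k80_A00pm_102_s1

theorem t689_A00pm_102_s1 : ∃ t, chk3 f_A00pm_102_s1 t 21 1338 1 = true := ex3_a k78_A00pm_102_s1 t688_A00pm_102_s1

theorem t690_A00pm_102_s1 : ∃ t, chk3 f_A00pm_102_s1 t 10 1338 1 = true := ex3_a k77_A00pm_102_s1 t689_A00pm_102_s1

theorem t691_A00pm_102_s1 : ∃ t, chk3 f_A00pm_102_s1 t 10 669 1 = true := ex3_b t690_A00pm_102_s1 t687_A00pm_102_s1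

theorem t692_A00pm_102_s1 : ∃ t, chk3 f_A00pm_102_s1 t 21 1337 3 = true := ex3_c k75_A00pm_102_s1 k76_A00pm_102_s1

theorem t693_A00pm_102_s1 : ∃ t, chk3 f_A00pm_102_s1 t 21 668 3 = true := ex3_b k74_A00pm_102_s1 t692_A00pm_102_s1

theorem t694_A00pm_102_s1 : ∃ t, chk3 f_A00pm_102_s1 t 21 1337 2 = true := ex3_c k72_A00pm_102_s1 k73_A00pm_102_s1

theorem t695_A00pm_102_s1 : ∃ t, chk3 f_A00pm_102_s1 t 21 1336 2 = true := ex3_c k70_A00pm_102_s1 k71_A00pm_102_s1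

theorem t696_A00pm_102_s1 : ∃ t, chk3 f_A00pm_102_s1 t 21 668 2 = true := ex3_b t695_A00pm_102_s1 t694_A00pm_102_s1

theorem t697_A00pm_102_s1 : ∃ t, chk3 f_A00pm_102_s1 t 21 668 1 = true := ex3_c t696_A00pm_102_s1 t693_A00pm_102_s1

theorem t698_A00pm_102_s1 : ∃ t, chk3 f_A00pm_102_s1 t 10 668 1 = true := ex3_a k69_A00pm_102_s1 t697_A00pm_102_s1

theorem t699_A00pm_102_s1 : ∃ t, chk3 f_A00pm_102_s1 t 10 334 1 = true := ex3_b t698_A00pm_102_s1 t691_A00pm_102_s1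

theorem t700_A00pm_102_s1 : ∃ t, chk3 f_A00pm_102_s1 t 5 334 1 = true := ex3_a t699_A00pm_102_s1 t684_A00pm_102_s1

theorem t701_A00pm_102_s1 : ∃ t, chk3 f_A00pm_102_s1 t 5 167 1 = true := ex3_b t700_A00pm_102_s1 t669_A00pm_102_s1

theorem t702_A00pm_102_s1 : ∃ t, chk3 f_A00pm_102_s1 t 46 333 3 = true := ex3_a k66_A00pm_102_s1 k67_A00pm_102_s1

theorem t703_A00pm_102_s1 : ∃ t, chk3 f_A00pm_102_s1 t 23 333 3 = true := ex3_a t702_A00pm_102_s1 k68_A00pm_102_s1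

theorem t704_A00pm_102_s1 : ∃ t, chk3 f_A00pm_102_s1 t 45 333 3 = true := ex3_b k64_A00pm_102_s1 k65_A00pm_102_s1

theorem t705_A00pm_102_s1 : ∃ t, chk3 f_A00pm_102_s1 t 44 333 3 = true := ex3_b k62_A00pm_102_s1 k63_A00pm_102_s1

theorem t706_A00pm_102_s1 : ∃ t, chk3 f_A00pm_102_s1 t 22 333 3 = true := ex3_a t705_A00pm_102_s1 t704_A00pm_102_s1

theorem t707_A00pm_102_s1 : ∃ t, chk3 f_A00pm_102_s1 t 11 333 3 = true := ex3_a t706_A00pm_102_s1 t703_A00pm_102_s1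

theorem t708_A00pm_102_s1 : ∃ t, chk3 f_A00pm_102_s1 t 21 333 3 = true := ex3_a k60_A00pm_102_s1 k61_A00pm_102_s1

theorem t709_A00pm_102_s1 : ∃ t, chk3 f_A00pm_102_s1 t 10 333 3 = true := ex3_a k59_A00pm_102_s1 t708_A00pm_102_s1

theorem t710_A00pm_102_s1 : ∃ t, chk3 f_A00pm_102_s1 t 5 333 3 = true := ex3_a t709_A00pm_102_s1 t707_A00pm_102_s1

theorem t711_A00pm_102_s1 : ∃ t, chk3 f_A00pm_102_s1 t 23 333 2 = true := ex3_a k57_A00pm_102_s1 k58_A00pm_102_s1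

theorem t712_A00pm_102_s1 : ∃ t, chk3 f_A00pm_102_s1 t 44 667 2 = true := ex3_a k54_A00pm_102_s1 k55_A00pm_102_s1

theorem t713_A00pm_102_s1 : ∃ t, chk3 f_A00pm_102_s1 t 22 667 2 = true := ex3_a t712_A00pm_102_s1 k56_A00pm_102_s1

theorem t714_A00pm_102_s1 : ∃ t, chk3 f_A00pm_102_s1 t 22 666 2 = true := ex3_a k52_A00pm_102_s1 k53_A00pm_102_s1

theorem t715_A00pm_102_s1 : ∃ t, chk3 f_A00pm_102_s1 t 22 333 2 = true := ex3_b t714_A00pm_102_s1 t713_A00pm_102_s1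

theorem t716_A00pm_102_s1 : ∃ t, chk3 f_A00pm_102_s1 t 11 333 2 = true := ex3_a t715_A00pm_102_s1 t711_A00pm_102_s1

theorem t717_A00pm_102_s1 : ∃ t, chk3 f_A00pm_102_s1 t 43 333 2 = true := ex3_b k50_A00pm_102_s1 k51_A00pm_102_s1

theorem t718_A00pm_102_s1 : ∃ t, chk3 f_A00pm_102_s1 t 21 333 2 = true := ex3_a k49_A00pm_102_s1 t717_A00pm_102_s1

theorem t719_A00pm_102_s1 : ∃ t, chk3 f_A00pm_102_s1 t 10 333 2 = true := ex3_a k48_A00pm_102_s1 t718_A00pm_102_s1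

theorem t720_A00pm_102_s1 : ∃ t, chk3 f_A00pm_102_s1 t 5 333 2 = true := ex3_a t719_A00pm_102_s1 t716_A00pm_102_s1

theorem t721_A00pm_102_s1 : ∃ t, chk3 f_A00pm_102_s1 t 5 333 1 = true := ex3_c t720_A00pm_102_s1 t710_A00pm_102_s1

theorem t722_A00pm_102_s1 : ∃ t, chk3 f_A00pm_102_s1 t 47 332 1 = true := ex3_a k46_A00pm_102_s1 k47_A00pm_102_s1

theorem t723_A00pm_102_s1 : ∃ t, chk3 f_A00pm_102_s1 t 92 664 1 = true := ex3_a k42_A00pm_102_s1 k43_A00pm_102_s1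

theorem t724_A00pm_102_s1 : ∃ t, chk3 f_A00pm_102_s1 t 92 332 1 = true := ex3_b t723_A00pm_102_s1 k44_A00pm_102_s1

theorem t725_A00pm_102_s1 : ∃ t, chk3 f_A00pm_102_s1 t 46 332 1 = true := ex3_a t724_A00pm_102_s1 k45_A00pm_102_s1

theorem t726_A00pm_102_s1 : ∃ t, chk3 f_A00pm_102_s1 t 23 332 1 = true := ex3_a t725_A00pm_102_s1 t722_A00pm_102_s1

theorem t727_A00pm_102_s1 : ∃ t, chk3 f_A00pm_102_s1 t 22 665 2 = true := ex3_b k39_A00pm_102_s1 k40_A00pm_102_s1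

theorem t728_A00pm_102_s1 : ∃ t, chk3 f_A00pm_102_s1 t 22 665 1 = true := ex3_c t727_A00pm_102_s1 k41_A00pm_102_s1

theorem t729_A00pm_102_s1 : ∃ t, chk3 f_A00pm_102_s1 t 22 664 1 = true := ex3_c k37_A00pm_102_s1 k38_A00pm_102_s1

theorem t730_A00pm_102_s1 : ∃ t, chk3 f_A00pm_102_s1 t 22 332 1 = true := ex3_b t729_A00pm_102_s1 t728_A00pm_102_s1

theorem t731_A00pm_102_s1 : ∃ t, chk3 f_A00pm_102_s1 t 11 332 1 = true := ex3_a t730_A00pm_102_s1 t726_A00pm_102_s1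

theorem t732_A00pm_102_s1 : ∃ t, chk3 f_A00pm_102_s1 t 43 665 1 = true := ex3_a k35_A00pm_102_s1 k36_A00pm_102_s1

theorem t733_A00pm_102_s1 : ∃ t, chk3 f_A00pm_102_s1 t 86 664 1 = true := ex3_c k32_A00pm_102_s1 k33_A00pm_102_s1

theorem t734_A00pm_102_s1 : ∃ t, chk3 f_A00pm_102_s1 t 43 664 1 = true := ex3_a t733_A00pm_102_s1 k34_A00pm_102_s1

theorem t735_A00pm_102_s1 : ∃ t, chk3 f_A00pm_102_s1 t 43 332 1 = true := ex3_b t734_A00pm_102_s1 t732_A00pm_102_s1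

theorem t736_A00pm_102_s1 : ∃ t, chk3 f_A00pm_102_s1 t 21 332 1 = true := ex3_a k31_A00pm_102_s1 t735_A00pm_102_s1

theorem t737_A00pm_102_s1 : ∃ t, chk3 f_A00pm_102_s1 t 10 332 1 = true := ex3_a k30_A00pm_102_s1 t736_A00pm_102_s1

theorem t738_A00pm_102_s1 : ∃ t, chk3 f_A00pm_102_s1 t 5 332 1 = true := ex3_a t737_A00pm_102_s1 t731_A00pm_102_s1

theorem t739_A00pm_102_s1 : ∃ t, chk3 f_A00pm_102_s1 t 5 166 1 = true := ex3_b t738_A00pm_102_s1 t721_A00pm_102_s1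

theorem t740_A00pm_102_s1 : ∃ t, chk3 f_A00pm_102_s1 t 5 83 1 = true := ex3_b t739_A00pm_102_s1 t701_A00pm_102_s1

theorem t741_A00pm_102_s1 : ∃ t, chk3 f_A00pm_102_s1 t 46 165 3 = true := ex3_a k27_A00pm_102_s1 k28_A00pm_102_s1

theorem t742_A00pm_102_s1 : ∃ t, chk3 f_A00pm_102_s1 t 23 165 3 = true := ex3_a t741_A00pm_102_s1 k29_A00pm_102_s1

theorem t743_A00pm_102_s1 : ∃ t, chk3 f_A00pm_102_s1 t 44 330 3 = true := ex3_b k23_A00pm_102_s1 k24_A00pm_102_s1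

theorem t744_A00pm_102_s1 : ∃ t, chk3 f_A00pm_102_s1 t 22 330 3 = true := ex3_a t743_A00pm_102_s1 k25_A00pm_102_s1

theorem t745_A00pm_102_s1 : ∃ t, chk3 f_A00pm_102_s1 t 22 165 3 = true := ex3_b t744_A00pm_102_s1 k26_A00pm_102_s1

theorem t746_A00pm_102_s1 : ∃ t, chk3 f_A00pm_102_s1 t 11 165 3 = true := ex3_a t745_A00pm_102_s1 t742_A00pm_102_s1

theorem t747_A00pm_102_s1 : ∃ t, chk3 f_A00pm_102_s1 t 5 165 3 = true := ex3_a k22_A00pm_102_s1 t746_A00pm_102_s1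

theorem t748_A00pm_102_s1 : ∃ t, chk3 f_A00pm_102_s1 t 46 165 2 = true := ex3_a k19_A00pm_102_s1 k20_A00pm_102_s1

theorem t749_A00pm_102_s1 : ∃ t, chk3 f_A00pm_102_s1 t 23 165 2 = true := ex3_a t748_A00pm_102_s1 k21_A00pm_102_s1

theorem t750_A00pm_102_s1 : ∃ t, chk3 f_A00pm_102_s1 t 22 330 2 = true := ex3_a k16_A00pm_102_s1 k17_A00pm_102_s1

theorem t751_A00pm_102_s1 : ∃ t, chk3 f_A00pm_102_s1 t 22 165 2 = true := ex3_b t750_A00pm_102_s1 k18_A00pm_102_s1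

theorem t752_A00pm_102_s1 : ∃ t, chk3 f_A00pm_102_s1 t 11 165 2 = true := ex3_a t751_A00pm_102_s1 t749_A00pm_102_s1

theorem t753_A00pm_102_s1 : ∃ t, chk3 f_A00pm_102_s1 t 5 165 2 = true := ex3_a k15_A00pm_102_s1 t752_A00pm_102_s1

theorem t754_A00pm_102_s1 : ∃ t, chk3 f_A00pm_102_s1 t 5 165 1 = true := ex3_c t753_A00pm_102_s1 t747_A00pm_102_s1

theorem t755_A00pm_102_s1 : ∃ t, chk3 f_A00pm_102_s1 t 46 164 1 = true := ex3_b k12_A00pm_102_s1 k13_A00pm_102_s1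

theorem t756_A00pm_102_s1 : ∃ t, chk3 f_A00pm_102_s1 t 23 164 1 = true := ex3_a t755_A00pm_102_s1 k14_A00pm_102_s1

theorem t757_A00pm_102_s1 : ∃ t, chk3 f_A00pm_102_s1 t 11 164 1 = true := ex3_a k11_A00pm_102_s1 t756_A00pm_102_s1

theorem t758_A00pm_102_s1 : ∃ t, chk3 f_A00pm_102_s1 t 5 164 1 = true := ex3_a k10_A00pm_102_s1 t757_A00pm_102_s1

theorem t759_A00pm_102_s1 : ∃ t, chk3 f_A00pm_102_s1 t 5 82 1 = true := ex3_b t758_A00pm_102_s1 t754_A00pm_102_s1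

theorem t760_A00pm_102_s1 : ∃ t, chk3 f_A00pm_102_s1 t 5 41 1 = true := ex3_b t759_A00pm_102_s1 t740_A00pm_102_s1

theorem t761_A00pm_102_s1 : ∃ t, chk3 f_A00pm_102_s1 t 2 41 1 = true := ex3_a k9_A00pm_102_s1 t760_A00pm_102_s1

theorem t762_A00pm_102_s1 : ∃ t, chk3 f_A00pm_102_s1 t 2 163 3 = true := ex3_b k7_A00pm_102_s1 k8_A00pm_102_s1

theorem t763_A00pm_102_s1 : ∃ t, chk3 f_A00pm_102_s1 t 2 81 3 = true := ex3_b k6_A00pm_102_s1 t762_A00pm_102_s1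

theorem t764_A00pm_102_s1 : ∃ t, chk3 f_A00pm_102_s1 t 2 40 3 = true := ex3_b k5_A00pm_102_s1 t763_A00pm_102_s1

theorem t765_A00pm_102_s1 : ∃ t, chk3 f_A00pm_102_s1 t 2 163 2 = true := ex3_c k3_A00pm_102_s1 k4_A00pm_102_s1

theorem t766_A00pm_102_s1 : ∃ t, chk3 f_A00pm_102_s1 t 2 81 2 = true := ex3_b k2_A00pm_102_s1 t765_A00pm_102_s1

theorem t767_A00pm_102_s1 : ∃ t, chk3 f_A00pm_102_s1 t 2 40 2 = true := ex3_b k1_A00pm_102_s1 t766_A00pm_102_s1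

theorem t768_A00pm_102_s1 : ∃ t, chk3 f_A00pm_102_s1 t 2 40 1 = true := ex3_c t767_A00pm_102_s1 t764_A00pm_102_s1

theorem t769_A00pm_102_s1 : ∃ t, chk3 f_A00pm_102_s1 t 2 20 1 = true := ex3_b t768_A00pm_102_s1 t761_A00pm_102_s1

theorem t770_A00pm_102_s1 : ∃ t, chk3 f_A00pm_102_s1 t 2 10 1 = true := ex3_b t769_A00pm_102_s1 t653_A00pm_102_s1

theorem t771_A00pm_102_s1 : ∃ t, chk3 f_A00pm_102_s1 t 2 5 1 = true := ex3_b t770_A00pm_102_s1 k122_A00pm_102_s1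

theorem t772_A00pm_102_s1 : ∃ t, chk3 f_A00pm_102_s1 t 2 2 1 = true := ex3_b k0_A00pm_102_s1 t771_A00pm_102_s1

theorem t773_A00pm_102_s1 : ∃ t, chk3 f_A00pm_102_s1 t 2 1 1 = true := ex3_b t772_A00pm_102_s1 k123_A00pm_102_s1

theorem t774_A00pm_102_s1 : ∃ t, chk3 f_A00pm_102_s1 t 1 1 1 = true := ex3_a t773_A00pm_102_s1 t650_A00pm_102_s1

theorem c_A00pm_102_s1 : CertF 536870912 536870912 0 536870912 536870912 50465866 true true false .npp 1 0 2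
    ndB0q1 ndB0q0 pcB2 cut_A00pm_102_s1 xt_A00pm_102_s1 :=
  certF1 (fam := true) (s1 := true) (s2 := false) (a := 1) (b := 0) (c := 2) (cn := .npp) (n1 := ndB0q1) (n2 := ndB0q0) (pc := pcB2) (cut := cut_A00pm_102_s1) (xt := xt_A00pm_102_s1) (P1 := 536870912) (W1 := 536870912) (P2 := 0) (W2 := 536870912) (P3 := 536870912) (W3 := 50465866)
    rfl (fun _ => rfl) t774_A00pm_102_s1

theorem s_A00pm_102_s1 {κ x : ℝ} (hκ : κ * h0 = ken x) (hx : ((536870912 : ℕ) : ℝ) / S ≤ x)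
    (hx' : x ≤ (((536870912 : ℕ) : ℝ) + (50465866 : ℕ)) / S)
    (H : CutA (VFD κ) PP tK tL pcB (Cut.of [[⟨0, 1, 0, 67108864⟩, ⟨1, 0, 0, 67108864⟩, ⟨2, 1, 0, 67108864⟩], [⟨0, 1, 0, 33554432⟩, ⟨1, 0, 1, 20971520⟩, ⟨2, 1, 1, 20971520⟩]]) 1 0 2 0 0 (sgb true) (sgb false) x) :
    AltA (VFD κ) PP tK tL pcB [⟨3, 0, 0, 1449551462⟩] 1 0 2 0 0 (sgb true) (sgb false) x :=
  strip_altAD (m := 1449551462) true rfl hκ (SH.κ0 hκ (SH.hx1 hx).le (SH.hx2 hx').le) (SH.hx1 hx).le (SH.hx2 hx') (covB01).cov (covB00).cov hx hx' c_A00pm_102_s1 H ((okx6 hx hx').extA (T := tt) (okx hx hx') (sideB hx hx') hκ rfl rfl (.O 1 true) (.O 0 false) rfl)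

end Pool.Agent.Strip051.G.I5000_5470.Tab.St.C
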